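import Pool.Agent.helper71.FJ.Crt.LHIIIP

/-!
Generated certificates.
-/

namespace Pool.Agent.helper71.FJ.Crt.LHIII

open Pool.Agent.helper31.IA (Z Op)
open Pool.Agent.helper31.IC

mutual
theorem c0_m1_t0 : CovD 0 progs [(336081190912, 336081190912), (549755813888, 549755813888), (274877906944, 274877906944), (824633720832, 274877906944)] :=
  Pool.Agent.helper14.QF.covD_F chks_eq (.n 0 (.l 7) (.n 0 (.l 7) (.n 3 (.l 7) (.n 1 (.n 1 (.l 0) (.n 1 (.l 0) (.n 0 (.l 0) (.l 0)))) (.n 1 (.n 2 (.l 0) (.n 1 (.n 2 (.l 0) (.l 5)) (.n 2 (.l 0) (.l 5)))) (.n 2 (.n 1 (.l 0) (.n 0 (.l 0) (.l 3))) (.n 2 (.n 1 (.l 5) (.l 5)) (.l 5))))))))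
    [(336081190912, 336081190912), (549755813888, 549755813888), (274877906944, 274877906944), (824633720832, 274877906944)] rfl (by decide +kernel)
theorem c0_m1_t1 : CovD 0 progs [(1008243572736, 336081190912), (274877906944, 274877906944), (274877906944, 274877906944), (824633720832, 274877906944)] :=
  Pool.Agent.helper14.QF.covD_F chks_eq (.n 0 (.n 1 (.l 2) (.n 2 (.l 1) (.n 1 (.n 0 (.l 1) (.l 2)) (.n 1 (.n 3 (.l 2) (.l 0)) (.n 2 (.l 1) (.l 5)))))) (.n 1 (.n 1 (.l 2) (.l 2)) (.n 1 (.n 2 (.l 2) (.n 1 (.l 2) (.n 0 (.l 2) (.l 2)))) (.n 1 (.n 2 (.l 1) (.n 2 (.l 1) (.n 2 (.l 2) (.l 5)))) (.n 2 (.l 1) (.n 2 (.l 2) (.l 5)))))))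
    [(1008243572736, 336081190912), (274877906944, 274877906944), (274877906944, 274877906944), (824633720832, 274877906944)] rfl (by decide +kernel)
end
mutual
theorem c0_m1_t2 : CovD 0 progs [(840202977280, 168040595456), (824633720832, 274877906944), (274877906944, 274877906944), (824633720832, 274877906944)] :=
  Pool.Agent.helper14.QF.covD_F chks_eq (.n 1 (.n 1 (.n 2 (.l 1) (.n 2 (.n 1 (.l 1) (.n 2 (.l 1) (.l 5))) (.l 5))) (.n 2 (.n 3 (.l 0) (.l 0)) (.n 2 (.n 1 (.n 2 (.l 0) (.l 5)) (.l 5)) (.l 5)))) (.n 2 (.n 1 (.n 2 (.l 0) (.n 3 (.l 0) (.l 0))) (.n 2 (.l 3) (.n 2 (.n 0 (.l 0) (.l 3)) (.l 5)))) (.n 2 (.n 1 (.l 5) (.l 5)) (.l 5))))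
    [(840202977280, 168040595456), (824633720832, 274877906944), (274877906944, 274877906944), (824633720832, 274877906944)] rfl (by decide +kernel)
theorem c0_m1_t3 : CovD 0 progs [(1176284168192, 168040595456), (687194767360, 137438953472), (274877906944, 274877906944), (824633720832, 274877906944)] :=
  Pool.Agent.helper14.QF.covD_F chks_eq (.n 2 (.n 2 (.l 2) (.n 1 (.l 1) (.n 3 (.l 1) (.l 0)))) (.n 1 (.n 1 (.n 2 (.n 0 (.l 2) (.l 4)) (.l 5)) (.n 2 (.n 2 (.l 1) (.l 5)) (.l 5))) (.n 2 (.n 1 (.n 2 (.l 5) (.l 5)) (.l 5)) (.l 5))))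
    [(1176284168192, 168040595456), (687194767360, 137438953472), (274877906944, 274877906944), (824633720832, 274877906944)] rfl (by decide +kernel)
end
mutual
theorem c0_m1_t4 : CovD 0 progs [(1176284168192, 168040595456), (962072674304, 137438953472), (274877906944, 274877906944), (824633720832, 274877906944)] :=
  Pool.Agent.helper14.QF.covD_F chks_eq (.n 2 (.n 1 (.n 2 (.l 1) (.n 2 (.l 4) (.n 1 (.l 4) (.l 5)))) (.n 2 (.n 0 (.l 3) (.l 4)) (.n 2 (.n 0 (.l 3) (.l 4)) (.l 5)))) (.n 2 (.n 1 (.l 5) (.l 5)) (.l 5)))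
    [(1176284168192, 168040595456), (962072674304, 137438953472), (274877906944, 274877906944), (824633720832, 274877906944)] rfl (by decide +kernel)
theorem c0_m1_t9 : CovD 0 progs [(2016487145472, 672162381824), (137438953472, 137438953472), (274877906944, 274877906944), (824633720832, 274877906944)] :=
  Pool.Agent.helper14.QF.covD_F chks_eq (.n 1 (.l 6) (.n 1 (.l 6) (.n 2 (.l 6) (.n 2 (.l 6) (.n 0 (.n 3 (.l 2) (.l 2)) (.n 0 (.n 3 (.n 0 (.l 2) (.l 2)) (.l 2)) (.n 3 (.n 3 (.n 0 (.l 2) (.l 2)) (.l 2)) (.n 3 (.l 2) (.l 2)))))))))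
    [(2016487145472, 672162381824), (137438953472, 137438953472), (274877906944, 274877906944), (824633720832, 274877906944)] rfl (by decide +kernel)
end
mutual
theorem c0_m1_t10 : CovD 0 progs [(2016487145472, 672162381824), (309237645312, 34359738368), (274877906944, 274877906944), (824633720832, 274877906944)] :=
  Pool.Agent.helper14.QF.covD_F chks_eq (.n 2 (.l 6) (.n 3 (.n 0 (.n 0 (.l 2) (.n 0 (.l 2) (.l 2))) (.n 0 (.n 2 (.l 2) (.n 3 (.l 4) (.l 2))) (.n 2 (.n 3 (.l 2) (.l 2)) (.n 0 (.n 3 (.l 2) (.l 2)) (.n 3 (.n 0 (.l 2) (.l 4)) (.l 4)))))) (.n 0 (.n 0 (.l 1) (.l 2)) (.n 2 (.n 3 (.l 2) (.l 2)) (.n 0 (.n 0 (.l 2) (.l 4)) (.n 3 (.n 0 (.l 2) (.l 2)) (.l 4)))))))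
    [(2016487145472, 672162381824), (309237645312, 34359738368), (274877906944, 274877906944), (824633720832, 274877906944)] rfl (by decide +kernel)
theorem c0_m1_t11 : CovD 0 progs [(2016487145472, 672162381824), (377957122048, 34359738368), (137438953472, 137438953472), (824633720832, 274877906944)] :=
  Pool.Agent.helper14.QF.covD_F chks_eq (.l 6)
    [(2016487145472, 672162381824), (377957122048, 34359738368), (137438953472, 137438953472), (824633720832, 274877906944)] rfl (by decide +kernel)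
end
mutual
theorem c0_m1_t12 : CovD 0 progs [(1680405954560, 336081190912), (377957122048, 34359738368), (412316860416, 137438953472), (824633720832, 274877906944)] :=
  Pool.Agent.helper14.QF.covD_F chks_eq (.n 0 (.n 2 (.l 2) (.n 3 (.l 2) (.l 2))) (.n 2 (.n 3 (.l 2) (.l 1)) (.n 0 (.n 3 (.l 2) (.l 2)) (.n 3 (.l 4) (.l 4)))))
    [(1680405954560, 336081190912), (377957122048, 34359738368), (412316860416, 137438953472), (824633720832, 274877906944)] rfl (by decide +kernel)
theorem c0_m1_t13 : CovD 0 progs [(2352568336384, 336081190912), (377957122048, 34359738368), (412316860416, 137438953472), (824633720832, 274877906944)] :=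
  Pool.Agent.helper14.QF.covD_F chks_eq (.n 0 (.n 2 (.n 3 (.l 4) (.l 2)) (.n 1 (.n 0 (.n 3 (.l 2) (.l 2)) (.n 3 (.l 4) (.l 4))) (.n 2 (.n 3 (.l 4) (.l 2)) (.l 5)))) (.n 2 (.n 3 (.n 3 (.l 4) (.l 2)) (.n 3 (.l 2) (.l 2))) (.n 1 (.n 3 (.n 0 (.n 0 (.l 4) (.l 4)) (.n 3 (.l 4) (.l 4))) (.n 3 (.l 4) (.l 4))) (.n 2 (.n 0 (.n 3 (.l 2) (.l 2)) (.n 3 (.l 4) (.l 4))) (.l 5)))))
    [(2352568336384, 336081190912), (377957122048, 34359738368), (412316860416, 137438953472), (824633720832, 274877906944)] rfl (by decide +kernel)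
end
mutual
theorem c0_m1_t17 : CovD 0 progs [(2016487145472, 672162381824), (481036337152, 68719476736), (137438953472, 137438953472), (824633720832, 274877906944)] :=
  Pool.Agent.helper14.QF.covD_F chks_eq (.n 2 (.l 6) (.n 0 (.n 0 (.l 2) (.n 3 (.l 2) (.l 2))) (.n 2 (.l 6) (.n 0 (.n 3 (.l 4) (.n 0 (.l 2) (.l 2))) (.n 1 (.n 3 (.l 2) (.l 2)) (.n 3 (.l 4) (.n 0 (.l 2) (.l 2))))))))
    [(2016487145472, 672162381824), (481036337152, 68719476736), (137438953472, 137438953472), (824633720832, 274877906944)] rfl (by decide +kernel)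
theorem c0_m1_t18 : CovD 0 progs [(2016487145472, 672162381824), (446676598784, 34359738368), (343597383680, 68719476736), (824633720832, 274877906944)] :=
  Pool.Agent.helper14.QF.covD_F chks_eq (.n 0 (.n 0 (.n 0 (.l 1) (.l 2)) (.n 3 (.l 2) (.l 2))) (.n 0 (.n 0 (.n 3 (.l 2) (.l 2)) (.n 3 (.l 4) (.l 4))) (.n 3 (.n 0 (.n 0 (.l 4) (.l 4)) (.n 1 (.l 4) (.l 4))) (.n 3 (.n 0 (.l 2) (.l 4)) (.l 4)))))
    [(2016487145472, 672162381824), (446676598784, 34359738368), (343597383680, 68719476736), (824633720832, 274877906944)] rfl (by decide +kernel)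
end
mutual
theorem c0_m1_t19 : CovD 0 progs [(2016487145472, 672162381824), (515396075520, 34359738368), (343597383680, 68719476736), (824633720832, 274877906944)] :=
  Pool.Agent.helper14.QF.covD_F chks_eq (.n 1 (.n 0 (.n 0 (.l 4) (.n 3 (.l 2) (.l 2))) (.n 0 (.n 0 (.n 3 (.l 2) (.l 2)) (.n 3 (.l 4) (.l 4))) (.n 3 (.n 3 (.l 4) (.l 4)) (.n 3 (.l 4) (.l 4))))) (.n 2 (.n 0 (.n 0 (.l 1) (.l 4)) (.n 0 (.n 3 (.l 2) (.l 2)) (.n 3 (.l 4) (.l 4)))) (.l 5)))
    [(2016487145472, 672162381824), (515396075520, 34359738368), (343597383680, 68719476736), (824633720832, 274877906944)] rfl (by decide +kernel)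
theorem c0_m1_t21 : CovD 0 progs [(2016487145472, 672162381824), (481036337152, 68719476736), (481036337152, 68719476736), (824633720832, 274877906944)] :=
  Pool.Agent.helper14.QF.covD_F chks_eq (.n 1 (.n 1 (.n 2 (.n 1 (.n 2 (.n 0 (.n 0 (.l 2) (.l 4)) (.n 0 (.n 3 (.l 2) (.l 2)) (.n 3 (.l 4) (.l 4)))) (.l 5)) (.l 5)) (.l 5)) (.l 5)) (.l 5))
    [(2016487145472, 672162381824), (481036337152, 68719476736), (481036337152, 68719476736), (824633720832, 274877906944)] rfl (by decide +kernel)
end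
mutual
theorem c0_m1_t26 : CovD 0 progs [(2016487145472, 672162381824), (584115552256, 34359738368), (274877906944, 274877906944), (824633720832, 274877906944)] :=
  Pool.Agent.helper14.QF.covD_F chks_eq (.n 2 (.n 2 (.l 6) (.n 0 (.n 0 (.l 2) (.n 0 (.l 2) (.l 4))) (.n 0 (.n 3 (.l 4) (.l 4)) (.n 3 (.n 0 (.l 4) (.l 4)) (.n 3 (.l 4) (.l 4)))))) (.n 2 (.n 2 (.n 0 (.n 0 (.l 4) (.n 3 (.l 2) (.l 2))) (.n 0 (.n 3 (.l 4) (.l 4)) (.n 3 (.n 0 (.l 4) (.l 4)) (.n 3 (.l 4) (.l 4))))) (.l 5)) (.l 5)))
    [(2016487145472, 672162381824), (584115552256, 34359738368), (274877906944, 274877906944), (824633720832, 274877906944)] rfl (by decide +kernel)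
theorem c0_m1_t27 : CovD 0 progs [(2016487145472, 672162381824), (652835028992, 34359738368), (274877906944, 274877906944), (824633720832, 274877906944)] :=
  Pool.Agent.helper14.QF.covD_F chks_eq (.n 2 (.n 2 (.l 6) (.n 0 (.n 0 (.l 4) (.n 0 (.l 4) (.l 4))) (.n 0 (.n 3 (.l 4) (.n 0 (.l 4) (.l 4))) (.n 0 (.n 3 (.l 4) (.l 4)) (.n 3 (.l 4) (.n 0 (.l 4) (.l 4))))))) (.n 2 (.n 1 (.n 2 (.n 2 (.n 0 (.n 0 (.l 1) (.l 4)) (.n 0 (.n 0 (.l 4) (.l 4)) (.n 3 (.l 4) (.l 4)))) (.l 5)) (.l 5)) (.n 2 (.l 5) (.l 5))) (.l 5)))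
    [(2016487145472, 672162381824), (652835028992, 34359738368), (274877906944, 274877906944), (824633720832, 274877906944)] rfl (by decide +kernel)
end
mutual
theorem c0_m1_t29 : CovD 0 progs [(1680405954560, 336081190912), (755914244096, 68719476736), (137438953472, 137438953472), (824633720832, 274877906944)] :=
  Pool.Agent.helper14.QF.covD_F chks_eq (.n 2 (.l 6) (.n 0 (.n 2 (.l 4) (.n 1 (.l 4) (.l 4))) (.n 1 (.n 3 (.l 4) (.l 4)) (.n 2 (.l 4) (.n 2 (.l 4) (.l 5))))))
    [(1680405954560, 336081190912), (755914244096, 68719476736), (137438953472, 137438953472), (824633720832, 274877906944)] rfl (by decide +kernel)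
theorem c0_m1_t30 : CovD 0 progs [(2352568336384, 336081190912), (755914244096, 68719476736), (137438953472, 137438953472), (824633720832, 274877906944)] :=
  Pool.Agent.helper14.QF.covD_F chks_eq (.n 1 (.n 2 (.l 6) (.n 0 (.n 0 (.n 3 (.l 4) (.l 4)) (.n 3 (.l 4) (.l 4))) (.n 0 (.n 3 (.l 4) (.n 0 (.l 4) (.l 4))) (.n 1 (.n 3 (.l 4) (.l 4)) (.n 3 (.l 4) (.l 4)))))) (.n 2 (.l 6) (.n 2 (.n 0 (.n 0 (.l 4) (.l 4)) (.n 0 (.l 4) (.n 0 (.l 4) (.l 4)))) (.n 2 (.n 0 (.n 0 (.l 4) (.l 4)) (.n 3 (.l 4) (.l 4))) (.l 5)))))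
    [(2352568336384, 336081190912), (755914244096, 68719476736), (137438953472, 137438953472), (824633720832, 274877906944)] rfl (by decide +kernel)
end
mutual
theorem c0_m1_t32 : CovD 0 progs [(2016487145472, 672162381824), (755914244096, 68719476736), (412316860416, 137438953472), (824633720832, 274877906944)] :=
  Pool.Agent.helper14.QF.covD_F chks_eq (.n 2 (.n 1 (.n 2 (.l 5) (.l 5)) (.l 5)) (.l 5))
    [(2016487145472, 672162381824), (755914244096, 68719476736), (412316860416, 137438953472), (824633720832, 274877906944)] rfl (by decide +kernel)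
theorem c0_m1_t35 : CovD 0 progs [(2016487145472, 672162381824), (858993459200, 34359738368), (274877906944, 274877906944), (824633720832, 274877906944)] :=
  Pool.Agent.helper14.QF.covD_F chks_eq (.n 2 (.n 0 (.n 0 (.n 2 (.l 1) (.n 2 (.l 4) (.n 0 (.l 4) (.l 4)))) (.n 2 (.l 4) (.n 2 (.l 4) (.n 2 (.l 4) (.l 5))))) (.n 2 (.n 1 (.l 6) (.n 2 (.l 6) (.n 0 (.l 4) (.l 4)))) (.n 2 (.n 0 (.n 0 (.l 4) (.l 4)) (.n 0 (.l 4) (.l 4))) (.n 2 (.n 0 (.n 0 (.l 4) (.l 4)) (.n 3 (.l 4) (.l 4))) (.l 5))))) (.n 2 (.l 5) (.l 5)))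
    [(2016487145472, 672162381824), (858993459200, 34359738368), (274877906944, 274877906944), (824633720832, 274877906944)] rfl (by decide +kernel)
end
mutual
theorem c0_m1_t36 : CovD 0 progs [(2016487145472, 672162381824), (927712935936, 34359738368), (274877906944, 274877906944), (824633720832, 274877906944)] :=
  Pool.Agent.helper14.QF.covD_F chks_eq (.n 2 (.n 2 (.n 2 (.l 6) (.n 0 (.n 0 (.l 1) (.l 4)) (.n 2 (.l 6) (.n 0 (.l 4) (.l 4))))) (.n 2 (.n 0 (.n 0 (.l 4) (.n 0 (.l 4) (.l 4))) (.n 0 (.n 0 (.l 4) (.l 4)) (.n 0 (.l 4) (.n 0 (.l 4) (.l 4))))) (.l 5))) (.n 2 (.l 5) (.l 5)))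
    [(2016487145472, 672162381824), (927712935936, 34359738368), (274877906944, 274877906944), (824633720832, 274877906944)] rfl (by decide +kernel)
theorem c0_m1_t38 : CovD 0 progs [(2016487145472, 672162381824), (996432412672, 34359738368), (274877906944, 274877906944), (824633720832, 274877906944)] :=
  Pool.Agent.helper14.QF.covD_F chks_eq (.n 2 (.n 2 (.n 2 (.l 6) (.n 0 (.n 0 (.l 4) (.l 4)) (.n 2 (.l 6) (.n 0 (.l 4) (.l 4))))) (.n 2 (.n 0 (.n 0 (.l 4) (.n 0 (.l 4) (.l 4))) (.n 0 (.n 2 (.l 4) (.n 0 (.l 4) (.l 4))) (.n 0 (.n 1 (.l 4) (.l 4)) (.n 2 (.l 4) (.l 4))))) (.l 5))) (.n 2 (.l 5) (.l 5)))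
    [(2016487145472, 672162381824), (996432412672, 34359738368), (274877906944, 274877906944), (824633720832, 274877906944)] rfl (by decide +kernel)
theorem c0_m1_t39 : CovD 0 progs [(2016487145472, 672162381824), (1065151889408, 34359738368), (274877906944, 274877906944), (824633720832, 274877906944)] :=
  Pool.Agent.helper14.QF.covD_F chks_eq (.n 2 (.n 2 (.n 2 (.l 6) (.n 0 (.n 0 (.l 4) (.l 4)) (.n 0 (.n 0 (.l 4) (.l 4)) (.n 0 (.l 4) (.l 4))))) (.n 2 (.n 2 (.n 0 (.n 0 (.l 4) (.l 4)) (.n 0 (.n 0 (.l 4) (.l 4)) (.n 0 (.l 4) (.l 4)))) (.l 5)) (.l 5))) (.n 1 (.l 5) (.l 5)))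
    [(2016487145472, 672162381824), (1065151889408, 34359738368), (274877906944, 274877906944), (824633720832, 274877906944)] rfl (by decide +kernel)
end
theorem c0_m1_t5 : CovD 0 progs [(1176284168192, 168040595456), (824633720832, 274877906944), (274877906944, 274877906944), (824633720832, 274877906944)] :=
  covD_split 1 (by decide +kernel) c0_m1_t3 c0_m1_t4
theorem c0_m1_t6 : CovD 0 progs [(1008243572736, 336081190912), (824633720832, 274877906944), (274877906944, 274877906944), (824633720832, 274877906944)] :=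
  covD_split 0 (by decide +kernel) c0_m1_t2 c0_m1_t5
theorem c0_m1_t7 : CovD 0 progs [(1008243572736, 336081190912), (549755813888, 549755813888), (274877906944, 274877906944), (824633720832, 274877906944)] :=
  covD_split 1 (by decide +kernel) c0_m1_t1 c0_m1_t6
theorem c0_m1_t8 : CovD 0 progs [(672162381824, 672162381824), (549755813888, 549755813888), (274877906944, 274877906944), (824633720832, 274877906944)] :=
  covD_split 0 (by decide +kernel) c0_m1_t0 c0_m1_t7
theorem c0_m1_t14 : CovD 0 progs [(2016487145472, 672162381824), (377957122048, 34359738368), (412316860416, 137438953472), (824633720832, 274877906944)] :=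
  covD_split 0 (by decide +kernel) c0_m1_t12 c0_m1_t13
theorem c0_m1_t15 : CovD 0 progs [(2016487145472, 672162381824), (377957122048, 34359738368), (274877906944, 274877906944), (824633720832, 274877906944)] :=
  covD_split 2 (by decide +kernel) c0_m1_t11 c0_m1_t14
theorem c0_m1_t16 : CovD 0 progs [(2016487145472, 672162381824), (343597383680, 68719476736), (274877906944, 274877906944), (824633720832, 274877906944)] :=
  covD_split 1 (by decide +kernel) c0_m1_t10 c0_m1_t15
theorem c0_m1_t20 : CovD 0 progs [(2016487145472, 672162381824), (481036337152, 68719476736), (343597383680, 68719476736), (824633720832, 274877906944)] :=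
  covD_split 1 (by decide +kernel) c0_m1_t18 c0_m1_t19
theorem c0_m1_t22 : CovD 0 progs [(2016487145472, 672162381824), (481036337152, 68719476736), (412316860416, 137438953472), (824633720832, 274877906944)] :=
  covD_split 2 (by decide +kernel) c0_m1_t20 c0_m1_t21
theorem c0_m1_t23 : CovD 0 progs [(2016487145472, 672162381824), (481036337152, 68719476736), (274877906944, 274877906944), (824633720832, 274877906944)] :=
  covD_split 2 (by decide +kernel) c0_m1_t17 c0_m1_t22
theorem c0_m1_t24 : CovD 0 progs [(2016487145472, 672162381824), (412316860416, 137438953472), (274877906944, 274877906944), (824633720832, 274877906944)] :=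
  covD_split 1 (by decide +kernel) c0_m1_t16 c0_m1_t23
theorem c0_m1_t25 : CovD 0 progs [(2016487145472, 672162381824), (274877906944, 274877906944), (274877906944, 274877906944), (824633720832, 274877906944)] :=
  covD_split 1 (by decide +kernel) c0_m1_t9 c0_m1_t24
theorem c0_m1_t28 : CovD 0 progs [(2016487145472, 672162381824), (618475290624, 68719476736), (274877906944, 274877906944), (824633720832, 274877906944)] :=
  covD_split 1 (by decide +kernel) c0_m1_t26 c0_m1_t27
theorem c0_m1_t31 : CovD 0 progs [(2016487145472, 672162381824), (755914244096, 68719476736), (137438953472, 137438953472), (824633720832, 274877906944)] :=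
  covD_split 0 (by decide +kernel) c0_m1_t29 c0_m1_t30
theorem c0_m1_t33 : CovD 0 progs [(2016487145472, 672162381824), (755914244096, 68719476736), (274877906944, 274877906944), (824633720832, 274877906944)] :=
  covD_split 2 (by decide +kernel) c0_m1_t31 c0_m1_t32
theorem c0_m1_t34 : CovD 0 progs [(2016487145472, 672162381824), (687194767360, 137438953472), (274877906944, 274877906944), (824633720832, 274877906944)] :=
  covD_split 1 (by decide +kernel) c0_m1_t28 c0_m1_t33
theorem c0_m1_t37 : CovD 0 progs [(2016487145472, 672162381824), (893353197568, 68719476736), (274877906944, 274877906944), (824633720832, 274877906944)] :=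
  covD_split 1 (by decide +kernel) c0_m1_t35 c0_m1_t36
theorem c0_m1_t40 : CovD 0 progs [(2016487145472, 672162381824), (1030792151040, 68719476736), (274877906944, 274877906944), (824633720832, 274877906944)] :=
  covD_split 1 (by decide +kernel) c0_m1_t38 c0_m1_t39
theorem c0_m1_t41 : CovD 0 progs [(2016487145472, 672162381824), (962072674304, 137438953472), (274877906944, 274877906944), (824633720832, 274877906944)] :=
  covD_split 1 (by decide +kernel) c0_m1_t37 c0_m1_t40
theorem c0_m1_t42 : CovD 0 progs [(2016487145472, 672162381824), (824633720832, 274877906944), (274877906944, 274877906944), (824633720832, 274877906944)] :=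
  covD_split 1 (by decide +kernel) c0_m1_t34 c0_m1_t41
theorem c0_m1_t43 : CovD 0 progs [(2016487145472, 672162381824), (549755813888, 549755813888), (274877906944, 274877906944), (824633720832, 274877906944)] :=
  covD_split 1 (by decide +kernel) c0_m1_t25 c0_m1_t42
theorem c0_m1 : CovD 0 progs [(1344324763648, 1344324763648), (549755813888, 549755813888), (274877906944, 274877906944), (824633720832, 274877906944)] :=
  covD_split 0 (by decide +kernel) c0_m1_t8 c0_m1_t43

end Pool.Agent.helper71.FJ.Crt.LHIII
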