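import Pool.Agent.helper71.FJ.Crt.LHIIIc0_0
import Pool.Agent.helper71.FJ.Crt.LHIIIc0_1

/-!
Generated certificates, assembled.
-/

namespace Pool.Agent.helper71.FJ.Crt.LHIII

open Pool.Agent.helper31.IA (Z Op)
open Pool.Agent.helper31.IC

theorem c0_top0 : CovD 0 progs [(1344324763648, 1344324763648), (549755813888, 549755813888), (274877906944, 274877906944), (549755813888, 549755813888)] :=
  covD_split 3 (by decide +kernel) c0_m0 c0_m1

theorem c0_all : CovD 0 progs [(1344324763648, 1344324763648), (549755813888, 549755813888), (274877906944, 274877906944), (549755813888, 549755813888)] := c0_top0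

end Pool.Agent.helper71.FJ.Crt.LHIII
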