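import Pool.Agent.helper71.FJ.Crt.LHIP

/-!
Generated certificates.
-/

namespace Pool.Agent.helper71.FJ.Crt.LHI

open Pool.Agent.helper31.IA (Z Op)
open Pool.Agent.helper31.IC

mutual
theorem c0_m1_t0 : CovD 0 progs [(1700807049216, 566935683072), (549755813888, 549755813888), (132808441856, 22884122624), (137438953472, 137438953472)] :=
  Pool.Agent.helper14.QF.covD_F chks_eq (.n 0 (.l 6) (.n 0 (.l 6) (.n 0 (.l 6) (.n 1 (.l 1) (.n 1 (.l 6) (.n 1 (.l 6) (.n 1 (.l 6) (.n 2 (.n 2 (.l 1) (.l 4)) (.l 4)))))))))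
    [(1700807049216, 566935683072), (549755813888, 549755813888), (132808441856, 22884122624), (137438953472, 137438953472)] rfl (by decide +kernel)
theorem c0_m1_t1 : CovD 0 progs [(1700807049216, 566935683072), (549755813888, 549755813888), (132808441856, 22884122624), (412316860416, 137438953472)] :=
  Pool.Agent.helper14.QF.covD_F chks_eq (.n 1 (.l 2) (.n 0 (.n 1 (.l 1) (.n 0 (.l 1) (.n 0 (.l 1) (.l 2)))) (.n 0 (.n 1 (.l 1) (.n 1 (.l 1) (.n 0 (.l 1) (.n 3 (.l 1) (.l 1))))) (.n 2 (.n 1 (.l 1) (.n 1 (.l 1) (.n 0 (.n 0 (.l 1) (.l 1)) (.n 1 (.l 1) (.n 2 (.l 1) (.l 4)))))) (.l 4)))))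
    [(1700807049216, 566935683072), (549755813888, 549755813888), (132808441856, 22884122624), (412316860416, 137438953472)] rfl (by decide +kernel)
theorem c0_m1_t3 : CovD 0 progs [(1700807049216, 566935683072), (549755813888, 549755813888), (132808441856, 22884122624), (824633720832, 274877906944)] :=
  Pool.Agent.helper14.QF.covD_F chks_eq (.n 3 (.n 1 (.l 2) (.n 0 (.n 1 (.l 1) (.n 1 (.l 1) (.l 2))) (.n 0 (.n 1 (.l 1) (.n 1 (.l 1) (.n 3 (.l 1) (.l 1)))) (.n 2 (.n 1 (.l 1) (.n 1 (.l 1) (.n 3 (.l 1) (.l 1)))) (.l 4))))) (.n 1 (.l 2) (.n 0 (.n 1 (.l 1) (.n 0 (.l 1) (.l 1))) (.n 0 (.n 1 (.l 1) (.n 1 (.l 1) (.l 1))) (.n 1 (.l 1) (.n 1 (.l 1) (.n 2 (.l 1) (.l 4))))))))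
    [(1700807049216, 566935683072), (549755813888, 549755813888), (132808441856, 22884122624), (824633720832, 274877906944)] rfl (by decide +kernel)
end
theorem c0_m1_t2 : CovD 0 progs [(1700807049216, 566935683072), (549755813888, 549755813888), (132808441856, 22884122624), (274877906944, 274877906944)] :=
  covD_split 3 (by decide +kernel) c0_m1_t0 c0_m1_t1
theorem c0_m1 : CovD 0 progs [(1700807049216, 566935683072), (549755813888, 549755813888), (132808441856, 22884122624), (549755813888, 549755813888)] :=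
  covD_split 3 (by decide +kernel) c0_m1_t2 c0_m1_t3

end Pool.Agent.helper71.FJ.Crt.LHI
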