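import Pool.Agent.helper71.FJ.Crt.LHIP

/-!
Generated certificates.
-/

namespace Pool.Agent.helper71.FJ.Crt.LHI

open Pool.Agent.helper31.IA (Z Op)
open Pool.Agent.helper31.IC

mutual
theorem c0_m2_t0 : CovD 0 progs [(1204738326528, 70866960384), (1649267441664, 549755813888), (121366380544, 11442061312), (274877906944, 274877906944)] :=
  Pool.Agent.helper14.QF.covD_F chks_eq (.n 3 (.n 1 (.l 6) (.n 3 (.l 6) (.n 3 (.l 6) (.n 1 (.l 1) (.n 1 (.l 1) (.l 2)))))) (.n 1 (.n 1 (.l 1) (.l 1)) (.n 1 (.n 1 (.l 1) (.l 1)) (.n 0 (.n 1 (.l 1) (.l 1)) (.n 1 (.l 1) (.n 3 (.l 1) (.l 1)))))))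
    [(1204738326528, 70866960384), (1649267441664, 549755813888), (121366380544, 11442061312), (274877906944, 274877906944)] rfl (by decide +kernel)
theorem c0_m2_t1 : CovD 0 progs [(1204738326528, 70866960384), (1649267441664, 549755813888), (121366380544, 11442061312), (824633720832, 274877906944)] :=
  Pool.Agent.helper14.QF.covD_F chks_eq (.n 3 (.n 1 (.n 1 (.l 1) (.l 1)) (.n 1 (.n 0 (.l 1) (.l 1)) (.n 3 (.n 0 (.l 1) (.l 2)) (.l 1)))) (.n 1 (.l 2) (.n 1 (.l 1) (.n 1 (.l 1) (.l 2)))))
    [(1204738326528, 70866960384), (1649267441664, 549755813888), (121366380544, 11442061312), (824633720832, 274877906944)] rfl (by decide +kernel)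
end
mutual
theorem c0_m2_t3 : CovD 0 progs [(1346472247296, 70866960384), (1649267441664, 549755813888), (121366380544, 11442061312), (137438953472, 137438953472)] :=
  Pool.Agent.helper14.QF.covD_F chks_eq (.n 1 (.l 6) (.n 3 (.l 6) (.n 1 (.n 1 (.l 1) (.n 0 (.l 1) (.l 1))) (.n 3 (.l 6) (.n 0 (.n 1 (.l 1) (.l 1)) (.n 1 (.l 1) (.n 0 (.l 1) (.l 1))))))))
    [(1346472247296, 70866960384), (1649267441664, 549755813888), (121366380544, 11442061312), (137438953472, 137438953472)] rfl (by decide +kernel)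
theorem c0_m2_t4 : CovD 0 progs [(1346472247296, 70866960384), (1649267441664, 549755813888), (121366380544, 11442061312), (412316860416, 137438953472)] :=
  Pool.Agent.helper14.QF.covD_F chks_eq (.n 1 (.n 1 (.l 1) (.n 1 (.l 1) (.l 1))) (.n 0 (.n 1 (.n 1 (.l 1) (.l 1)) (.n 1 (.n 3 (.l 1) (.l 1)) (.n 3 (.n 0 (.l 1) (.l 1)) (.l 1)))) (.n 1 (.n 1 (.l 1) (.n 3 (.l 1) (.l 1))) (.n 1 (.n 3 (.n 0 (.l 1) (.l 1)) (.l 1)) (.n 1 (.n 3 (.l 1) (.l 1)) (.n 3 (.n 0 (.l 1) (.l 1)) (.l 1)))))))
    [(1346472247296, 70866960384), (1649267441664, 549755813888), (121366380544, 11442061312), (412316860416, 137438953472)] rfl (by decide +kernel)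
end
mutual
theorem c0_m2_t6 : CovD 0 progs [(1346472247296, 70866960384), (1649267441664, 549755813888), (121366380544, 11442061312), (824633720832, 274877906944)] :=
  Pool.Agent.helper14.QF.covD_F chks_eq (.n 3 (.n 1 (.n 1 (.l 1) (.l 2)) (.n 3 (.n 0 (.n 1 (.l 1) (.n 1 (.l 1) (.l 1))) (.n 1 (.l 2) (.n 1 (.l 1) (.l 2)))) (.n 1 (.l 1) (.n 1 (.l 1) (.l 2))))) (.n 1 (.n 1 (.l 1) (.l 1)) (.n 1 (.n 1 (.l 1) (.l 1)) (.n 3 (.l 2) (.l 1)))))
    [(1346472247296, 70866960384), (1649267441664, 549755813888), (121366380544, 11442061312), (824633720832, 274877906944)] rfl (by decide +kernel)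
theorem c0_m2_t9 : CovD 0 progs [(1452772687872, 35433480192), (1374389534720, 274877906944), (121366380544, 11442061312), (549755813888, 549755813888)] :=
  Pool.Agent.helper14.QF.covD_F chks_eq (.n 1 (.n 1 (.n 3 (.l 1) (.l 1)) (.n 3 (.l 1) (.l 1))) (.n 3 (.n 1 (.n 1 (.l 1) (.l 1)) (.n 3 (.l 1) (.l 1))) (.n 3 (.n 0 (.l 1) (.l 2)) (.l 1))))
    [(1452772687872, 35433480192), (1374389534720, 274877906944), (121366380544, 11442061312), (549755813888, 549755813888)] rfl (by decide +kernel)
end
mutual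
theorem c0_m2_t10 : CovD 0 progs [(1452772687872, 35433480192), (1924145348608, 274877906944), (115645349888, 5721030656), (274877906944, 274877906944)] :=
  Pool.Agent.helper14.QF.covD_F chks_eq (.n 3 (.n 3 (.l 6) (.n 1 (.n 1 (.l 1) (.l 1)) (.n 0 (.n 1 (.l 1) (.n 0 (.l 1) (.l 1))) (.n 1 (.l 1) (.l 5))))) (.n 1 (.n 1 (.l 1) (.n 3 (.l 1) (.l 1))) (.n 1 (.n 3 (.n 0 (.l 1) (.l 1)) (.l 2)) (.n 1 (.n 3 (.l 1) (.l 1)) (.l 5)))))
    [(1452772687872, 35433480192), (1924145348608, 274877906944), (115645349888, 5721030656), (274877906944, 274877906944)] rfl (by decide +kernel)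
theorem c0_m2_t11 : CovD 0 progs [(1452772687872, 35433480192), (1924145348608, 274877906944), (115645349888, 5721030656), (824633720832, 274877906944)] :=
  Pool.Agent.helper14.QF.covD_F chks_eq (.n 3 (.n 1 (.n 3 (.l 1) (.l 1)) (.n 1 (.n 3 (.l 1) (.l 1)) (.n 3 (.l 2) (.l 1)))) (.n 3 (.n 1 (.l 1) (.l 1)) (.l 1)))
    [(1452772687872, 35433480192), (1924145348608, 274877906944), (115645349888, 5721030656), (824633720832, 274877906944)] rfl (by decide +kernel)
end
mutual
theorem c0_m2_t13 : CovD 0 progs [(1452772687872, 35433480192), (1924145348608, 274877906944), (127087411200, 5721030656), (274877906944, 274877906944)] :=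
  Pool.Agent.helper14.QF.covD_F chks_eq (.n 3 (.n 3 (.l 6) (.n 1 (.n 1 (.l 1) (.l 1)) (.n 0 (.n 1 (.l 1) (.l 1)) (.n 1 (.l 1) (.l 5))))) (.n 1 (.n 1 (.n 0 (.l 1) (.l 1)) (.n 3 (.l 1) (.l 1))) (.n 1 (.n 3 (.n 0 (.l 1) (.l 1)) (.l 2)) (.n 0 (.n 3 (.l 1) (.l 1)) (.l 5)))))
    [(1452772687872, 35433480192), (1924145348608, 274877906944), (127087411200, 5721030656), (274877906944, 274877906944)] rfl (by decide +kernel)
theorem c0_m2_t14 : CovD 0 progs [(1452772687872, 35433480192), (1924145348608, 274877906944), (127087411200, 5721030656), (824633720832, 274877906944)] :=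
  Pool.Agent.helper14.QF.covD_F chks_eq (.n 3 (.n 1 (.n 1 (.l 1) (.n 1 (.l 1) (.l 2))) (.n 1 (.n 3 (.l 1) (.l 1)) (.n 3 (.l 2) (.l 1)))) (.n 3 (.n 1 (.l 1) (.l 1)) (.l 2)))
    [(1452772687872, 35433480192), (1924145348608, 274877906944), (127087411200, 5721030656), (824633720832, 274877906944)] rfl (by decide +kernel)
end
mutual
theorem c0_m2_t18 : CovD 0 progs [(1523639648256, 35433480192), (1374389534720, 274877906944), (121366380544, 11442061312), (549755813888, 549755813888)] :=
  Pool.Agent.helper14.QF.covD_F chks_eq (.n 1 (.n 3 (.n 1 (.l 1) (.l 2)) (.n 3 (.l 1) (.l 1))) (.n 3 (.n 1 (.n 3 (.l 1) (.l 1)) (.n 3 (.l 1) (.n 0 (.l 1) (.l 2)))) (.n 3 (.n 1 (.l 1) (.l 1)) (.l 1))))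
    [(1523639648256, 35433480192), (1374389534720, 274877906944), (121366380544, 11442061312), (549755813888, 549755813888)] rfl (by decide +kernel)
theorem c0_m2_t19 : CovD 0 progs [(1523639648256, 35433480192), (1786706395136, 137438953472), (115645349888, 5721030656), (549755813888, 549755813888)] :=
  Pool.Agent.helper14.QF.covD_F chks_eq (.n 3 (.n 3 (.n 3 (.l 6) (.n 1 (.l 1) (.n 0 (.l 1) (.l 2)))) (.n 1 (.n 3 (.l 1) (.l 1)) (.n 3 (.n 0 (.l 1) (.l 1)) (.l 1)))) (.n 3 (.n 3 (.n 1 (.l 1) (.l 1)) (.l 1)) (.n 3 (.l 1) (.l 1))))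
    [(1523639648256, 35433480192), (1786706395136, 137438953472), (115645349888, 5721030656), (549755813888, 549755813888)] rfl (by decide +kernel)
end
mutual
theorem c0_m2_t20 : CovD 0 progs [(1523639648256, 35433480192), (1786706395136, 137438953472), (127087411200, 5721030656), (549755813888, 549755813888)] :=
  Pool.Agent.helper14.QF.covD_F chks_eq (.n 3 (.n 3 (.n 3 (.l 6) (.n 1 (.l 1) (.n 0 (.l 1) (.l 1)))) (.n 1 (.n 3 (.l 1) (.l 1)) (.n 3 (.n 0 (.l 1) (.l 1)) (.l 2)))) (.n 3 (.n 3 (.n 1 (.l 1) (.l 1)) (.l 1)) (.n 3 (.l 1) (.l 1))))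
    [(1523639648256, 35433480192), (1786706395136, 137438953472), (127087411200, 5721030656), (549755813888, 549755813888)] rfl (by decide +kernel)
theorem c0_m2_t22 : CovD 0 progs [(1523639648256, 35433480192), (2061584302080, 137438953472), (121366380544, 11442061312), (549755813888, 549755813888)] :=
  Pool.Agent.helper14.QF.covD_F chks_eq (.n 1 (.n 1 (.n 2 (.n 3 (.n 3 (.n 3 (.l 1) (.n 0 (.l 1) (.l 1))) (.n 3 (.l 1) (.l 1))) (.n 3 (.n 3 (.l 1) (.l 1)) (.n 3 (.l 1) (.l 1)))) (.n 3 (.n 3 (.n 3 (.l 1) (.l 1)) (.n 3 (.l 1) (.l 1))) (.n 3 (.n 3 (.l 1) (.l 1)) (.n 3 (.l 1) (.l 0))))) (.l 5)) (.l 5))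
    [(1523639648256, 35433480192), (2061584302080, 137438953472), (121366380544, 11442061312), (549755813888, 549755813888)] rfl (by decide +kernel)
end
mutual
theorem c0_m2_t26 : CovD 0 progs [(1594506608640, 35433480192), (1374389534720, 274877906944), (121366380544, 11442061312), (549755813888, 549755813888)] :=
  Pool.Agent.helper14.QF.covD_F chks_eq (.n 3 (.n 1 (.n 3 (.l 1) (.l 1)) (.n 1 (.n 3 (.l 1) (.l 1)) (.n 3 (.n 1 (.l 1) (.l 1)) (.n 3 (.l 1) (.l 1))))) (.n 1 (.n 3 (.l 1) (.l 1)) (.n 1 (.n 3 (.l 1) (.l 1)) (.n 3 (.n 1 (.l 1) (.l 1)) (.l 1)))))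
    [(1594506608640, 35433480192), (1374389534720, 274877906944), (121366380544, 11442061312), (549755813888, 549755813888)] rfl (by decide +kernel)
theorem c0_m2_t27 : CovD 0 progs [(1594506608640, 35433480192), (1717986918400, 68719476736), (121366380544, 11442061312), (549755813888, 549755813888)] :=
  Pool.Agent.helper14.QF.covD_F chks_eq (.n 3 (.n 3 (.n 3 (.l 6) (.n 1 (.l 1) (.n 0 (.l 1) (.l 1)))) (.n 1 (.n 3 (.l 1) (.l 1)) (.n 3 (.l 1) (.l 1)))) (.n 3 (.n 3 (.l 1) (.l 1)) (.n 2 (.l 1) (.l 1))))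
    [(1594506608640, 35433480192), (1717986918400, 68719476736), (121366380544, 11442061312), (549755813888, 549755813888)] rfl (by decide +kernel)
end
mutual
theorem c0_m2_t28 : CovD 0 progs [(1594506608640, 35433480192), (1855425871872, 68719476736), (115645349888, 5721030656), (549755813888, 549755813888)] :=
  Pool.Agent.helper14.QF.covD_F chks_eq (.n 3 (.n 3 (.n 3 (.l 6) (.n 1 (.l 1) (.n 0 (.l 1) (.l 1)))) (.n 1 (.n 3 (.l 1) (.l 1)) (.n 0 (.n 3 (.l 1) (.l 1)) (.l 5)))) (.n 3 (.n 3 (.l 1) (.l 1)) (.n 3 (.l 1) (.l 1))))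
    [(1594506608640, 35433480192), (1855425871872, 68719476736), (115645349888, 5721030656), (549755813888, 549755813888)] rfl (by decide +kernel)
theorem c0_m2_t29 : CovD 0 progs [(1594506608640, 35433480192), (1855425871872, 68719476736), (127087411200, 5721030656), (549755813888, 549755813888)] :=
  Pool.Agent.helper14.QF.covD_F chks_eq (.n 3 (.n 3 (.n 3 (.l 6) (.n 1 (.l 1) (.n 0 (.l 1) (.l 1)))) (.n 1 (.n 3 (.l 1) (.l 1)) (.n 0 (.n 3 (.l 1) (.l 1)) (.l 5)))) (.n 3 (.n 3 (.n 0 (.l 1) (.l 1)) (.l 1)) (.n 3 (.l 1) (.l 1))))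
    [(1594506608640, 35433480192), (1855425871872, 68719476736), (127087411200, 5721030656), (549755813888, 549755813888)] rfl (by decide +kernel)
end
mutual
theorem c0_m2_t32 : CovD 0 progs [(1594506608640, 35433480192), (2061584302080, 137438953472), (121366380544, 11442061312), (549755813888, 549755813888)] :=
  Pool.Agent.helper14.QF.covD_F chks_eq (.l 5)
    [(1594506608640, 35433480192), (2061584302080, 137438953472), (121366380544, 11442061312), (549755813888, 549755813888)] rfl (by decide +kernel)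
theorem c0_m2_t35 : CovD 0 progs [(1665373569024, 35433480192), (1374389534720, 274877906944), (121366380544, 11442061312), (549755813888, 549755813888)] :=
  Pool.Agent.helper14.QF.covD_F chks_eq (.n 3 (.n 3 (.n 1 (.l 6) (.n 3 (.l 6) (.n 1 (.l 1) (.n 1 (.l 1) (.l 1))))) (.n 1 (.n 1 (.l 1) (.l 1)) (.n 1 (.n 1 (.l 1) (.l 1)) (.n 1 (.n 3 (.l 1) (.l 1)) (.n 3 (.l 1) (.l 1)))))) (.n 1 (.n 3 (.l 2) (.l 1)) (.n 1 (.n 3 (.l 2) (.l 1)) (.n 3 (.n 3 (.l 1) (.l 1)) (.l 2)))))
    [(1665373569024, 35433480192), (1374389534720, 274877906944), (121366380544, 11442061312), (549755813888, 549755813888)] rfl (by decide +kernel)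
end
mutual
theorem c0_m2_t36 : CovD 0 progs [(1647656828928, 17716740096), (1924145348608, 274877906944), (121366380544, 11442061312), (274877906944, 274877906944)] :=
  Pool.Agent.helper14.QF.covD_F chks_eq (.n 3 (.n 1 (.n 3 (.l 6) (.n 1 (.n 1 (.l 1) (.l 1)) (.n 1 (.n 1 (.l 1) (.l 1)) (.l 5)))) (.l 5)) (.n 1 (.n 1 (.n 1 (.n 3 (.l 1) (.l 1)) (.n 3 (.l 1) (.l 1))) (.n 1 (.n 1 (.n 3 (.l 1) (.l 1)) (.l 5)) (.l 5))) (.l 5)))
    [(1647656828928, 17716740096), (1924145348608, 274877906944), (121366380544, 11442061312), (274877906944, 274877906944)] rfl (by decide +kernel)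
theorem c0_m2_t37 : CovD 0 progs [(1647656828928, 17716740096), (1924145348608, 274877906944), (121366380544, 11442061312), (824633720832, 274877906944)] :=
  Pool.Agent.helper14.QF.covD_F chks_eq (.n 3 (.n 1 (.n 1 (.n 3 (.l 1) (.l 1)) (.n 1 (.n 3 (.l 1) (.l 1)) (.l 5))) (.l 5)) (.n 1 (.n 3 (.l 2) (.l 1)) (.l 5)))
    [(1647656828928, 17716740096), (1924145348608, 274877906944), (121366380544, 11442061312), (824633720832, 274877906944)] rfl (by decide +kernel)
theorem c0_m2_t39 : CovD 0 progs [(1683090309120, 17716740096), (1924145348608, 274877906944), (121366380544, 11442061312), (549755813888, 549755813888)] :=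
  Pool.Agent.helper14.QF.covD_F chks_eq (.n 1 (.n 3 (.n 3 (.n 1 (.n 3 (.l 6) (.n 1 (.l 1) (.n 1 (.l 1) (.l 1)))) (.l 5)) (.n 1 (.n 1 (.n 3 (.l 1) (.l 1)) (.n 3 (.n 1 (.l 1) (.l 1)) (.l 1))) (.l 5))) (.n 3 (.n 1 (.n 3 (.n 0 (.l 1) (.l 2)) (.l 1)) (.l 5)) (.n 1 (.n 3 (.l 1) (.l 1)) (.l 5)))) (.l 5))
    [(1683090309120, 17716740096), (1924145348608, 274877906944), (121366380544, 11442061312), (549755813888, 549755813888)] rfl (by decide +kernel)
end
theorem c0_m2_t2 : CovD 0 progs [(1204738326528, 70866960384), (1649267441664, 549755813888), (121366380544, 11442061312), (549755813888, 549755813888)] :=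
  covD_split 3 (by decide +kernel) c0_m2_t0 c0_m2_t1
theorem c0_m2_t5 : CovD 0 progs [(1346472247296, 70866960384), (1649267441664, 549755813888), (121366380544, 11442061312), (274877906944, 274877906944)] :=
  covD_split 3 (by decide +kernel) c0_m2_t3 c0_m2_t4
theorem c0_m2_t7 : CovD 0 progs [(1346472247296, 70866960384), (1649267441664, 549755813888), (121366380544, 11442061312), (549755813888, 549755813888)] :=
  covD_split 3 (by decide +kernel) c0_m2_t5 c0_m2_t6
theorem c0_m2_t8 : CovD 0 progs [(1275605286912, 141733920768), (1649267441664, 549755813888), (121366380544, 11442061312), (549755813888, 549755813888)] :=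
  covD_split 0 (by decide +kernel) c0_m2_t2 c0_m2_t7
theorem c0_m2_t12 : CovD 0 progs [(1452772687872, 35433480192), (1924145348608, 274877906944), (115645349888, 5721030656), (549755813888, 549755813888)] :=
  covD_split 3 (by decide +kernel) c0_m2_t10 c0_m2_t11
theorem c0_m2_t15 : CovD 0 progs [(1452772687872, 35433480192), (1924145348608, 274877906944), (127087411200, 5721030656), (549755813888, 549755813888)] :=
  covD_split 3 (by decide +kernel) c0_m2_t13 c0_m2_t14
theorem c0_m2_t16 : CovD 0 progs [(1452772687872, 35433480192), (1924145348608, 274877906944), (121366380544, 11442061312), (549755813888, 549755813888)] :=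
  covD_split 2 (by decide +kernel) c0_m2_t12 c0_m2_t15
theorem c0_m2_t17 : CovD 0 progs [(1452772687872, 35433480192), (1649267441664, 549755813888), (121366380544, 11442061312), (549755813888, 549755813888)] :=
  covD_split 1 (by decide +kernel) c0_m2_t9 c0_m2_t16
theorem c0_m2_t21 : CovD 0 progs [(1523639648256, 35433480192), (1786706395136, 137438953472), (121366380544, 11442061312), (549755813888, 549755813888)] :=
  covD_split 2 (by decide +kernel) c0_m2_t19 c0_m2_t20
theorem c0_m2_t23 : CovD 0 progs [(1523639648256, 35433480192), (1924145348608, 274877906944), (121366380544, 11442061312), (549755813888, 549755813888)] :=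
  covD_split 1 (by decide +kernel) c0_m2_t21 c0_m2_t22
theorem c0_m2_t24 : CovD 0 progs [(1523639648256, 35433480192), (1649267441664, 549755813888), (121366380544, 11442061312), (549755813888, 549755813888)] :=
  covD_split 1 (by decide +kernel) c0_m2_t18 c0_m2_t23
theorem c0_m2_t25 : CovD 0 progs [(1488206168064, 70866960384), (1649267441664, 549755813888), (121366380544, 11442061312), (549755813888, 549755813888)] :=
  covD_split 0 (by decide +kernel) c0_m2_t17 c0_m2_t24
theorem c0_m2_t30 : CovD 0 progs [(1594506608640, 35433480192), (1855425871872, 68719476736), (121366380544, 11442061312), (549755813888, 549755813888)] :=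
  covD_split 2 (by decide +kernel) c0_m2_t28 c0_m2_t29
theorem c0_m2_t31 : CovD 0 progs [(1594506608640, 35433480192), (1786706395136, 137438953472), (121366380544, 11442061312), (549755813888, 549755813888)] :=
  covD_split 1 (by decide +kernel) c0_m2_t27 c0_m2_t30
theorem c0_m2_t33 : CovD 0 progs [(1594506608640, 35433480192), (1924145348608, 274877906944), (121366380544, 11442061312), (549755813888, 549755813888)] :=
  covD_split 1 (by decide +kernel) c0_m2_t31 c0_m2_t32
theorem c0_m2_t34 : CovD 0 progs [(1594506608640, 35433480192), (1649267441664, 549755813888), (121366380544, 11442061312), (549755813888, 549755813888)] :=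
  covD_split 1 (by decide +kernel) c0_m2_t26 c0_m2_t33
theorem c0_m2_t38 : CovD 0 progs [(1647656828928, 17716740096), (1924145348608, 274877906944), (121366380544, 11442061312), (549755813888, 549755813888)] :=
  covD_split 3 (by decide +kernel) c0_m2_t36 c0_m2_t37
theorem c0_m2_t40 : CovD 0 progs [(1665373569024, 35433480192), (1924145348608, 274877906944), (121366380544, 11442061312), (549755813888, 549755813888)] :=
  covD_split 0 (by decide +kernel) c0_m2_t38 c0_m2_t39
theorem c0_m2_t41 : CovD 0 progs [(1665373569024, 35433480192), (1649267441664, 549755813888), (121366380544, 11442061312), (549755813888, 549755813888)] :=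
  covD_split 1 (by decide +kernel) c0_m2_t35 c0_m2_t40
theorem c0_m2_t42 : CovD 0 progs [(1629940088832, 70866960384), (1649267441664, 549755813888), (121366380544, 11442061312), (549755813888, 549755813888)] :=
  covD_split 0 (by decide +kernel) c0_m2_t34 c0_m2_t41
theorem c0_m2_t43 : CovD 0 progs [(1559073128448, 141733920768), (1649267441664, 549755813888), (121366380544, 11442061312), (549755813888, 549755813888)] :=
  covD_split 0 (by decide +kernel) c0_m2_t25 c0_m2_t42
theorem c0_m2 : CovD 0 progs [(1417339207680, 283467841536), (1649267441664, 549755813888), (121366380544, 11442061312), (549755813888, 549755813888)] :=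
  covD_split 0 (by decide +kernel) c0_m2_t8 c0_m2_t43

end Pool.Agent.helper71.FJ.Crt.LHI
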