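import Pool.Agent.helper71.FJ.Crt.LHIP

/-!
Generated certificates.
-/

namespace Pool.Agent.helper71.FJ.Crt.LHI

open Pool.Agent.helper31.IA (Z Op)
open Pool.Agent.helper31.IC

mutual
theorem c0_m3_t0 : CovD 0 progs [(1984274890752, 283467841536), (1133871366144, 34359738368), (115645349888, 5721030656), (549755813888, 549755813888)] :=
  Pool.Agent.helper14.QF.covD_F chks_eq (.n 3 (.n 0 (.n 3 (.l 1) (.l 1)) (.n 0 (.n 3 (.l 1) (.l 1)) (.n 3 (.n 3 (.l 1) (.l 1)) (.n 3 (.l 1) (.l 1))))) (.n 3 (.n 0 (.l 1) (.n 3 (.l 1) (.l 1))) (.l 1)))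
    [(1984274890752, 283467841536), (1133871366144, 34359738368), (115645349888, 5721030656), (549755813888, 549755813888)] rfl (by decide +kernel)
theorem c0_m3_t1 : CovD 0 progs [(1984274890752, 283467841536), (1202590842880, 34359738368), (115645349888, 5721030656), (549755813888, 549755813888)] :=
  Pool.Agent.helper14.QF.covD_F chks_eq (.n 3 (.n 0 (.n 3 (.l 1) (.n 0 (.l 1) (.l 1))) (.n 3 (.n 3 (.l 6) (.n 0 (.l 1) (.n 0 (.l 1) (.n 1 (.l 1) (.l 1))))) (.n 0 (.n 3 (.l 1) (.l 1)) (.n 0 (.n 3 (.l 1) (.l 1)) (.n 2 (.n 3 (.l 1) (.l 1)) (.l 4)))))) (.n 3 (.n 0 (.l 1) (.n 0 (.l 1) (.n 3 (.l 1) (.l 1)))) (.n 3 (.l 1) (.l 1))))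
    [(1984274890752, 283467841536), (1202590842880, 34359738368), (115645349888, 5721030656), (549755813888, 549755813888)] rfl (by decide +kernel)
end
mutual
theorem c0_m3_t3 : CovD 0 progs [(1984274890752, 283467841536), (1271310319616, 34359738368), (115645349888, 5721030656), (137438953472, 137438953472)] :=
  Pool.Agent.helper14.QF.covD_F chks_eq (.n 3 (.l 6) (.n 3 (.l 6) (.n 0 (.l 1) (.n 0 (.n 0 (.l 1) (.l 1)) (.n 0 (.n 0 (.l 1) (.l 1)) (.n 1 (.l 1) (.n 0 (.l 1) (.n 0 (.l 1) (.l 1)))))))))
    [(1984274890752, 283467841536), (1271310319616, 34359738368), (115645349888, 5721030656), (137438953472, 137438953472)] rfl (by decide +kernel)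
theorem c0_m3_t4 : CovD 0 progs [(1984274890752, 283467841536), (1271310319616, 34359738368), (115645349888, 5721030656), (412316860416, 137438953472)] :=
  Pool.Agent.helper14.QF.covD_F chks_eq (.n 0 (.n 3 (.l 1) (.l 1)) (.n 0 (.n 3 (.n 0 (.l 1) (.l 1)) (.l 1)) (.n 3 (.n 0 (.n 3 (.l 1) (.l 1)) (.n 2 (.n 1 (.l 1) (.n 3 (.l 1) (.l 1))) (.l 4))) (.n 0 (.l 2) (.n 3 (.l 2) (.l 1))))))
    [(1984274890752, 283467841536), (1271310319616, 34359738368), (115645349888, 5721030656), (412316860416, 137438953472)] rfl (by decide +kernel)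
end
mutual
theorem c0_m3_t6 : CovD 0 progs [(1984274890752, 283467841536), (1271310319616, 34359738368), (115645349888, 5721030656), (824633720832, 274877906944)] :=
  Pool.Agent.helper14.QF.covD_F chks_eq (.n 3 (.n 0 (.n 0 (.l 1) (.l 1)) (.n 3 (.n 0 (.l 1) (.n 0 (.l 1) (.l 1))) (.l 1))) (.n 3 (.l 1) (.l 1)))
    [(1984274890752, 283467841536), (1271310319616, 34359738368), (115645349888, 5721030656), (824633720832, 274877906944)] rfl (by decide +kernel)
theorem c0_m3_t8 : CovD 0 progs [(1984274890752, 283467841536), (1340029796352, 34359738368), (115645349888, 5721030656), (137438953472, 137438953472)] :=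
  Pool.Agent.helper14.QF.covD_F chks_eq (.n 3 (.l 6) (.n 0 (.n 0 (.l 1) (.l 1)) (.n 3 (.l 6) (.n 0 (.n 0 (.l 1) (.n 0 (.l 1) (.l 1))) (.n 0 (.n 0 (.n 1 (.l 1) (.l 1)) (.n 1 (.l 1) (.n 0 (.l 1) (.l 1)))) (.n 2 (.n 0 (.n 1 (.l 1) (.n 0 (.l 1) (.l 1))) (.n 0 (.n 1 (.l 1) (.l 5)) (.l 4))) (.l 4)))))))
    [(1984274890752, 283467841536), (1340029796352, 34359738368), (115645349888, 5721030656), (137438953472, 137438953472)] rfl (by decide +kernel)
end
mutual
theorem c0_m3_t9 : CovD 0 progs [(1984274890752, 283467841536), (1340029796352, 34359738368), (115645349888, 5721030656), (343597383680, 68719476736)] :=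
  Pool.Agent.helper14.QF.covD_F chks_eq (.n 0 (.n 0 (.l 1) (.l 1)) (.n 0 (.n 0 (.l 1) (.n 0 (.l 1) (.n 1 (.l 1) (.l 1)))) (.n 1 (.n 0 (.n 3 (.l 1) (.l 1)) (.n 2 (.n 3 (.n 0 (.l 1) (.l 1)) (.l 1)) (.l 4))) (.n 0 (.n 3 (.n 0 (.l 1) (.l 1)) (.l 1)) (.n 0 (.n 0 (.n 3 (.l 1) (.l 1)) (.l 5)) (.l 5))))))
    [(1984274890752, 283467841536), (1340029796352, 34359738368), (115645349888, 5721030656), (343597383680, 68719476736)] rfl (by decide +kernel)
theorem c0_m3_t10 : CovD 0 progs [(1984274890752, 283467841536), (1340029796352, 34359738368), (115645349888, 5721030656), (481036337152, 68719476736)] :=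
  Pool.Agent.helper14.QF.covD_F chks_eq (.n 0 (.n 0 (.l 1) (.l 1)) (.n 0 (.n 0 (.l 1) (.n 0 (.l 1) (.l 1))) (.n 0 (.n 1 (.l 1) (.n 3 (.l 1) (.l 1))) (.n 2 (.n 3 (.n 1 (.l 1) (.l 1)) (.l 1)) (.l 4)))))
    [(1984274890752, 283467841536), (1340029796352, 34359738368), (115645349888, 5721030656), (481036337152, 68719476736)] rfl (by decide +kernel)
end
mutual
theorem c0_m3_t13 : CovD 0 progs [(1984274890752, 283467841536), (1340029796352, 34359738368), (115645349888, 5721030656), (824633720832, 274877906944)] :=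
  Pool.Agent.helper14.QF.covD_F chks_eq (.n 3 (.n 0 (.n 3 (.l 1) (.l 1)) (.n 0 (.n 3 (.l 1) (.l 1)) (.n 3 (.n 0 (.l 1) (.n 3 (.l 1) (.l 1))) (.l 1)))) (.n 3 (.l 2) (.l 1)))
    [(1984274890752, 283467841536), (1340029796352, 34359738368), (115645349888, 5721030656), (824633720832, 274877906944)] rfl (by decide +kernel)
theorem c0_m3_t17 : CovD 0 progs [(1842540969984, 141733920768), (1168231104512, 68719476736), (127087411200, 5721030656), (549755813888, 549755813888)] :=
  Pool.Agent.helper14.QF.covD_F chks_eq (.n 3 (.n 0 (.n 3 (.l 1) (.l 1)) (.n 1 (.n 3 (.l 1) (.l 1)) (.n 3 (.l 1) (.l 1)))) (.n 3 (.n 0 (.l 1) (.l 1)) (.l 1)))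
    [(1842540969984, 141733920768), (1168231104512, 68719476736), (127087411200, 5721030656), (549755813888, 549755813888)] rfl (by decide +kernel)
end
mutual
theorem c0_m3_t18 : CovD 0 progs [(1842540969984, 141733920768), (1305670057984, 68719476736), (127087411200, 5721030656), (549755813888, 549755813888)] :=
  Pool.Agent.helper14.QF.covD_F chks_eq (.n 3 (.n 3 (.n 3 (.l 6) (.n 0 (.l 1) (.n 0 (.l 1) (.n 1 (.l 1) (.l 1))))) (.n 0 (.n 1 (.l 1) (.l 2)) (.n 0 (.n 3 (.l 1) (.l 1)) (.n 3 (.n 1 (.l 1) (.l 1)) (.l 2))))) (.n 3 (.n 0 (.l 2) (.n 3 (.l 1) (.l 1))) (.l 2)))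
    [(1842540969984, 141733920768), (1305670057984, 68719476736), (127087411200, 5721030656), (549755813888, 549755813888)] rfl (by decide +kernel)
theorem c0_m3_t20 : CovD 0 progs [(2126008811520, 141733920768), (1236950581248, 137438953472), (127087411200, 5721030656), (549755813888, 549755813888)] :=
  Pool.Agent.helper14.QF.covD_F chks_eq (.n 0 (.n 0 (.n 2 (.n 3 (.n 3 (.n 3 (.l 6) (.n 1 (.l 1) (.n 1 (.l 1) (.n 0 (.l 1) (.l 1))))) (.n 1 (.n 1 (.l 1) (.l 1)) (.n 1 (.n 3 (.l 1) (.l 1)) (.n 3 (.l 1) (.l 1))))) (.n 1 (.n 3 (.l 1) (.l 1)) (.n 3 (.n 3 (.l 1) (.l 1)) (.l 1)))) (.l 4)) (.n 2 (.n 3 (.l 4) (.l 4)) (.l 4))) (.l 4))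
    [(2126008811520, 141733920768), (1236950581248, 137438953472), (127087411200, 5721030656), (549755813888, 549755813888)] rfl (by decide +kernel)
end
mutual
theorem c0_m3_t23 : CovD 0 progs [(1984274890752, 283467841536), (1391569403904, 17179869184), (115645349888, 5721030656), (137438953472, 137438953472)] :=
  Pool.Agent.helper14.QF.covD_F chks_eq (.n 3 (.l 6) (.n 0 (.n 0 (.l 1) (.l 1)) (.n 3 (.l 6) (.n 0 (.n 0 (.l 1) (.n 0 (.l 1) (.l 1))) (.n 0 (.n 0 (.n 0 (.l 1) (.l 1)) (.l 5)) (.l 5))))))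
    [(1984274890752, 283467841536), (1391569403904, 17179869184), (115645349888, 5721030656), (137438953472, 137438953472)] rfl (by decide +kernel)
theorem c0_m3_t24 : CovD 0 progs [(1984274890752, 283467841536), (1391569403904, 17179869184), (115645349888, 5721030656), (412316860416, 137438953472)] :=
  Pool.Agent.helper14.QF.covD_F chks_eq (.n 0 (.n 0 (.l 1) (.n 3 (.l 1) (.l 1))) (.n 0 (.n 3 (.n 0 (.l 1) (.n 3 (.l 1) (.l 1))) (.n 3 (.l 1) (.l 1))) (.n 0 (.n 0 (.n 1 (.n 3 (.n 0 (.l 1) (.l 1)) (.l 1)) (.l 5)) (.l 5)) (.l 5))))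
    [(1984274890752, 283467841536), (1391569403904, 17179869184), (115645349888, 5721030656), (412316860416, 137438953472)] rfl (by decide +kernel)
end
mutual
theorem c0_m3_t26 : CovD 0 progs [(1984274890752, 283467841536), (1391569403904, 17179869184), (115645349888, 5721030656), (824633720832, 274877906944)] :=
  Pool.Agent.helper14.QF.covD_F chks_eq (.n 3 (.n 0 (.n 3 (.l 1) (.l 1)) (.n 0 (.n 3 (.l 1) (.l 1)) (.n 0 (.n 3 (.l 1) (.l 1)) (.l 5)))) (.n 3 (.l 2) (.l 1)))
    [(1984274890752, 283467841536), (1391569403904, 17179869184), (115645349888, 5721030656), (824633720832, 274877906944)] rfl (by decide +kernel)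
theorem c0_m3_t28 : CovD 0 progs [(1842540969984, 141733920768), (1425929142272, 17179869184), (115645349888, 5721030656), (549755813888, 549755813888)] :=
  Pool.Agent.helper14.QF.covD_F chks_eq (.n 3 (.n 0 (.n 3 (.l 1) (.n 0 (.l 1) (.l 1))) (.n 3 (.n 0 (.l 1) (.n 3 (.l 1) (.l 1))) (.n 3 (.n 0 (.l 1) (.l 1)) (.l 1)))) (.n 3 (.n 3 (.l 1) (.l 1)) (.n 0 (.l 1) (.l 1))))
    [(1842540969984, 141733920768), (1425929142272, 17179869184), (115645349888, 5721030656), (549755813888, 549755813888)] rfl (by decide +kernel)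
end
mutual
theorem c0_m3_t29 : CovD 0 progs [(2126008811520, 141733920768), (1425929142272, 17179869184), (115645349888, 5721030656), (549755813888, 549755813888)] :=
  Pool.Agent.helper14.QF.covD_F chks_eq (.n 0 (.n 3 (.n 3 (.n 3 (.l 6) (.n 3 (.l 6) (.n 0 (.l 1) (.n 0 (.l 1) (.n 0 (.l 1) (.l 1)))))) (.n 0 (.n 3 (.n 0 (.l 1) (.l 1)) (.l 1)) (.n 3 (.n 3 (.n 0 (.l 1) (.l 1)) (.l 2)) (.n 3 (.l 1) (.l 1))))) (.n 3 (.n 3 (.n 0 (.l 1) (.l 1)) (.l 1)) (.n 3 (.l 1) (.l 1)))) (.l 5))
    [(2126008811520, 141733920768), (1425929142272, 17179869184), (115645349888, 5721030656), (549755813888, 549755813888)] rfl (by decide +kernel)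
theorem c0_m3_t32 : CovD 0 progs [(1984274890752, 283467841536), (1408749273088, 34359738368), (127087411200, 5721030656), (274877906944, 274877906944)] :=
  Pool.Agent.helper14.QF.covD_F chks_eq (.n 0 (.n 3 (.n 3 (.l 6) (.n 0 (.l 1) (.n 0 (.l 1) (.n 0 (.l 1) (.l 1))))) (.n 0 (.n 3 (.l 1) (.l 1)) (.n 0 (.n 3 (.l 1) (.l 1)) (.n 3 (.n 0 (.l 1) (.l 1)) (.l 1))))) (.n 0 (.n 0 (.n 2 (.n 3 (.n 3 (.l 6) (.n 1 (.l 1) (.n 0 (.l 1) (.l 1)))) (.n 0 (.n 3 (.l 1) (.l 1)) (.n 3 (.n 0 (.l 1) (.l 4)) (.l 1)))) (.l 4)) (.l 4)) (.l 4)))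
    [(1984274890752, 283467841536), (1408749273088, 34359738368), (127087411200, 5721030656), (274877906944, 274877906944)] rfl (by decide +kernel)
end
mutual
theorem c0_m3_t33 : CovD 0 progs [(1984274890752, 283467841536), (1408749273088, 34359738368), (127087411200, 5721030656), (824633720832, 274877906944)] :=
  Pool.Agent.helper14.QF.covD_F chks_eq (.n 0 (.n 3 (.n 3 (.n 0 (.l 1) (.l 1)) (.l 1)) (.n 0 (.l 1) (.l 1))) (.n 0 (.n 2 (.n 0 (.n 3 (.n 3 (.l 1) (.l 1)) (.l 1)) (.l 4)) (.l 4)) (.l 4)))
    [(1984274890752, 283467841536), (1408749273088, 34359738368), (127087411200, 5721030656), (824633720832, 274877906944)] rfl (by decide +kernel)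
theorem c0_m3_t36 : CovD 0 progs [(1771674009600, 70866960384), (1477468749824, 34359738368), (121366380544, 11442061312), (549755813888, 549755813888)] :=
  Pool.Agent.helper14.QF.covD_F chks_eq (.n 3 (.n 3 (.n 3 (.l 6) (.n 0 (.l 1) (.l 1))) (.n 0 (.n 3 (.l 1) (.l 1)) (.n 3 (.l 1) (.l 1)))) (.n 3 (.n 3 (.l 1) (.l 1)) (.l 1)))
    [(1771674009600, 70866960384), (1477468749824, 34359738368), (121366380544, 11442061312), (549755813888, 549755813888)] rfl (by decide +kernel)
end
mutual
theorem c0_m3_t37 : CovD 0 progs [(1913407930368, 70866960384), (1477468749824, 34359738368), (115645349888, 5721030656), (549755813888, 549755813888)] :=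
  Pool.Agent.helper14.QF.covD_F chks_eq (.n 3 (.n 3 (.n 3 (.l 6) (.n 3 (.l 6) (.n 0 (.l 1) (.n 0 (.l 1) (.l 1))))) (.n 0 (.n 3 (.l 1) (.l 1)) (.n 0 (.n 3 (.l 1) (.l 1)) (.n 3 (.n 1 (.l 1) (.l 1)) (.l 1))))) (.n 3 (.n 3 (.l 1) (.l 1)) (.n 3 (.l 1) (.l 1))))
    [(1913407930368, 70866960384), (1477468749824, 34359738368), (115645349888, 5721030656), (549755813888, 549755813888)] rfl (by decide +kernel)
theorem c0_m3_t38 : CovD 0 progs [(1913407930368, 70866960384), (1477468749824, 34359738368), (127087411200, 5721030656), (549755813888, 549755813888)] :=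
  Pool.Agent.helper14.QF.covD_F chks_eq (.n 3 (.n 3 (.n 3 (.l 6) (.n 3 (.l 6) (.n 0 (.l 1) (.n 1 (.l 1) (.l 1))))) (.n 0 (.n 3 (.n 0 (.l 1) (.l 1)) (.l 1)) (.n 3 (.n 3 (.n 0 (.l 1) (.l 1)) (.l 2)) (.n 1 (.l 1) (.l 2))))) (.n 3 (.n 3 (.n 0 (.l 1) (.l 1)) (.l 1)) (.n 3 (.l 1) (.l 1))))
    [(1913407930368, 70866960384), (1477468749824, 34359738368), (127087411200, 5721030656), (549755813888, 549755813888)] rfl (by decide +kernel)
end
mutual
theorem c0_m3_t41 : CovD 0 progs [(2126008811520, 141733920768), (1477468749824, 34359738368), (115645349888, 5721030656), (549755813888, 549755813888)] :=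
  Pool.Agent.helper14.QF.covD_F chks_eq (.n 0 (.n 0 (.n 3 (.n 3 (.n 3 (.l 6) (.n 3 (.l 6) (.n 0 (.n 1 (.l 1) (.l 1)) (.n 1 (.l 1) (.l 5))))) (.n 1 (.n 3 (.n 3 (.l 1) (.l 1)) (.n 0 (.l 1) (.l 1))) (.n 0 (.n 0 (.n 3 (.l 1) (.l 1)) (.l 5)) (.l 5)))) (.n 3 (.n 3 (.l 2) (.l 1)) (.n 3 (.l 1) (.l 1)))) (.l 5)) (.l 5))
    [(2126008811520, 141733920768), (1477468749824, 34359738368), (115645349888, 5721030656), (549755813888, 549755813888)] rfl (by decide +kernel)
theorem c0_m3_t42 : CovD 0 progs [(2126008811520, 141733920768), (1477468749824, 34359738368), (127087411200, 5721030656), (549755813888, 549755813888)] :=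
  Pool.Agent.helper14.QF.covD_F chks_eq (.n 0 (.n 0 (.n 2 (.n 3 (.n 3 (.n 3 (.l 6) (.n 3 (.l 6) (.n 1 (.l 1) (.n 0 (.l 1) (.l 1))))) (.n 1 (.n 3 (.n 3 (.l 1) (.l 1)) (.l 2)) (.n 0 (.n 0 (.n 3 (.l 1) (.l 1)) (.l 5)) (.l 5)))) (.n 3 (.n 3 (.l 1) (.l 1)) (.n 3 (.l 1) (.l 1)))) (.l 4)) (.l 5)) (.l 4))
    [(2126008811520, 141733920768), (1477468749824, 34359738368), (127087411200, 5721030656), (549755813888, 549755813888)] rfl (by decide +kernel)
end
mutual
theorem c0_m3_t46 : CovD 0 progs [(1842540969984, 141733920768), (1546188226560, 34359738368), (115645349888, 5721030656), (274877906944, 274877906944)] :=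
  Pool.Agent.helper14.QF.covD_F chks_eq (.n 3 (.n 3 (.l 6) (.n 0 (.n 0 (.l 1) (.l 1)) (.n 3 (.l 6) (.n 0 (.n 0 (.l 1) (.l 1)) (.n 1 (.n 0 (.l 1) (.l 1)) (.l 5)))))) (.n 0 (.n 0 (.n 3 (.l 1) (.l 1)) (.n 3 (.l 1) (.l 1))) (.n 0 (.n 3 (.n 3 (.l 1) (.l 1)) (.n 0 (.l 1) (.l 1))) (.n 1 (.n 3 (.n 3 (.l 1) (.l 1)) (.n 0 (.l 1) (.l 1))) (.l 5)))))
    [(1842540969984, 141733920768), (1546188226560, 34359738368), (115645349888, 5721030656), (274877906944, 274877906944)] rfl (by decide +kernel)
theorem c0_m3_t47 : CovD 0 progs [(1842540969984, 141733920768), (1546188226560, 34359738368), (115645349888, 5721030656), (824633720832, 274877906944)] :=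
  Pool.Agent.helper14.QF.covD_F chks_eq (.n 3 (.n 0 (.n 3 (.l 1) (.l 1)) (.n 3 (.n 0 (.l 1) (.l 2)) (.l 1))) (.n 3 (.l 1) (.l 1)))
    [(1842540969984, 141733920768), (1546188226560, 34359738368), (115645349888, 5721030656), (824633720832, 274877906944)] rfl (by decide +kernel)
end
mutual
theorem c0_m3_t49 : CovD 0 progs [(1842540969984, 141733920768), (1546188226560, 34359738368), (127087411200, 5721030656), (137438953472, 137438953472)] :=
  Pool.Agent.helper14.QF.covD_F chks_eq (.n 3 (.l 6) (.n 3 (.l 6) (.n 0 (.n 0 (.l 1) (.l 1)) (.n 0 (.n 0 (.l 1) (.l 1)) (.n 1 (.n 0 (.l 1) (.l 1)) (.l 5))))))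
    [(1842540969984, 141733920768), (1546188226560, 34359738368), (127087411200, 5721030656), (137438953472, 137438953472)] rfl (by decide +kernel)
theorem c0_m3_t50 : CovD 0 progs [(1842540969984, 141733920768), (1546188226560, 34359738368), (127087411200, 5721030656), (412316860416, 137438953472)] :=
  Pool.Agent.helper14.QF.covD_F chks_eq (.n 0 (.n 0 (.n 3 (.l 1) (.l 1)) (.n 3 (.n 0 (.l 1) (.l 1)) (.l 1))) (.n 0 (.n 0 (.n 3 (.l 2) (.l 1)) (.n 3 (.n 1 (.l 1) (.l 1)) (.l 2))) (.n 1 (.n 0 (.n 3 (.l 1) (.l 1)) (.n 0 (.n 3 (.l 1) (.l 1)) (.l 5))) (.l 5))))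
    [(1842540969984, 141733920768), (1546188226560, 34359738368), (127087411200, 5721030656), (412316860416, 137438953472)] rfl (by decide +kernel)
end
mutual
theorem c0_m3_t52 : CovD 0 progs [(1842540969984, 141733920768), (1546188226560, 34359738368), (127087411200, 5721030656), (824633720832, 274877906944)] :=
  Pool.Agent.helper14.QF.covD_F chks_eq (.n 3 (.n 0 (.n 3 (.l 1) (.l 1)) (.n 3 (.n 3 (.l 1) (.l 1)) (.l 1))) (.n 3 (.l 1) (.l 1)))
    [(1842540969984, 141733920768), (1546188226560, 34359738368), (127087411200, 5721030656), (824633720832, 274877906944)] rfl (by decide +kernel)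
theorem c0_m3_t55 : CovD 0 progs [(2126008811520, 141733920768), (1546188226560, 34359738368), (121366380544, 11442061312), (549755813888, 549755813888)] :=
  Pool.Agent.helper14.QF.covD_F chks_eq (.l 5)
    [(2126008811520, 141733920768), (1546188226560, 34359738368), (121366380544, 11442061312), (549755813888, 549755813888)] rfl (by decide +kernel)
end
mutual
theorem c0_m3_t57 : CovD 0 progs [(1771674009600, 70866960384), (1597727834112, 17179869184), (121366380544, 11442061312), (549755813888, 549755813888)] :=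
  Pool.Agent.helper14.QF.covD_F chks_eq (.n 3 (.n 3 (.n 3 (.l 6) (.n 0 (.l 1) (.n 0 (.l 1) (.l 2)))) (.n 0 (.n 3 (.l 1) (.l 1)) (.n 3 (.n 0 (.l 1) (.l 1)) (.l 1)))) (.n 3 (.n 3 (.l 2) (.l 1)) (.n 3 (.l 1) (.l 1))))
    [(1771674009600, 70866960384), (1597727834112, 17179869184), (121366380544, 11442061312), (549755813888, 549755813888)] rfl (by decide +kernel)
theorem c0_m3_t58 : CovD 0 progs [(1913407930368, 70866960384), (1597727834112, 17179869184), (121366380544, 11442061312), (549755813888, 549755813888)] :=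
  Pool.Agent.helper14.QF.covD_F chks_eq (.n 0 (.n 0 (.n 3 (.n 3 (.n 3 (.l 6) (.n 2 (.l 1) (.l 1))) (.n 3 (.n 2 (.l 1) (.l 1)) (.l 1))) (.n 3 (.n 3 (.l 1) (.l 1)) (.n 3 (.l 1) (.l 1)))) (.l 5)) (.l 5))
    [(1913407930368, 70866960384), (1597727834112, 17179869184), (121366380544, 11442061312), (549755813888, 549755813888)] rfl (by decide +kernel)
end
mutual
theorem c0_m3_t60 : CovD 0 progs [(2126008811520, 141733920768), (1597727834112, 17179869184), (121366380544, 11442061312), (549755813888, 549755813888)] :=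
  Pool.Agent.helper14.QF.covD_F chks_eq (.l 5)
    [(2126008811520, 141733920768), (1597727834112, 17179869184), (121366380544, 11442061312), (549755813888, 549755813888)] rfl (by decide +kernel)
theorem c0_m3_t62 : CovD 0 progs [(1771674009600, 70866960384), (1632087572480, 17179869184), (115645349888, 5721030656), (549755813888, 549755813888)] :=
  Pool.Agent.helper14.QF.covD_F chks_eq (.n 3 (.n 3 (.n 3 (.l 6) (.n 0 (.l 1) (.n 0 (.l 1) (.l 1)))) (.n 0 (.n 3 (.l 1) (.l 1)) (.n 3 (.n 0 (.l 1) (.l 1)) (.l 1)))) (.n 3 (.n 3 (.l 1) (.l 1)) (.n 3 (.l 1) (.l 1))))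
    [(1771674009600, 70866960384), (1632087572480, 17179869184), (115645349888, 5721030656), (549755813888, 549755813888)] rfl (by decide +kernel)
end
mutual
theorem c0_m3_t63 : CovD 0 progs [(1771674009600, 70866960384), (1632087572480, 17179869184), (127087411200, 5721030656), (549755813888, 549755813888)] :=
  Pool.Agent.helper14.QF.covD_F chks_eq (.n 3 (.n 3 (.n 3 (.l 6) (.n 0 (.l 1) (.n 0 (.l 1) (.l 1)))) (.n 0 (.n 3 (.l 1) (.l 1)) (.n 3 (.n 0 (.l 1) (.l 1)) (.l 1)))) (.n 3 (.n 3 (.l 1) (.l 1)) (.n 3 (.l 1) (.l 1))))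
    [(1771674009600, 70866960384), (1632087572480, 17179869184), (127087411200, 5721030656), (549755813888, 549755813888)] rfl (by decide +kernel)
theorem c0_m3_t65 : CovD 0 progs [(1913407930368, 70866960384), (1632087572480, 17179869184), (121366380544, 11442061312), (549755813888, 549755813888)] :=
  Pool.Agent.helper14.QF.covD_F chks_eq (.l 5)
    [(1913407930368, 70866960384), (1632087572480, 17179869184), (121366380544, 11442061312), (549755813888, 549755813888)] rfl (by decide +kernel)
theorem c0_m3_t67 : CovD 0 progs [(2126008811520, 141733920768), (1632087572480, 17179869184), (121366380544, 11442061312), (549755813888, 549755813888)] :=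
  Pool.Agent.helper14.QF.covD_F chks_eq (.l 5)
    [(2126008811520, 141733920768), (1632087572480, 17179869184), (121366380544, 11442061312), (549755813888, 549755813888)] rfl (by decide +kernel)
end
theorem c0_m3_t2 : CovD 0 progs [(1984274890752, 283467841536), (1168231104512, 68719476736), (115645349888, 5721030656), (549755813888, 549755813888)] :=
  covD_split 1 (by decide +kernel) c0_m3_t0 c0_m3_t1
theorem c0_m3_t5 : CovD 0 progs [(1984274890752, 283467841536), (1271310319616, 34359738368), (115645349888, 5721030656), (274877906944, 274877906944)] :=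
  covD_split 3 (by decide +kernel) c0_m3_t3 c0_m3_t4
theorem c0_m3_t7 : CovD 0 progs [(1984274890752, 283467841536), (1271310319616, 34359738368), (115645349888, 5721030656), (549755813888, 549755813888)] :=
  covD_split 3 (by decide +kernel) c0_m3_t5 c0_m3_t6
theorem c0_m3_t11 : CovD 0 progs [(1984274890752, 283467841536), (1340029796352, 34359738368), (115645349888, 5721030656), (412316860416, 137438953472)] :=
  covD_split 3 (by decide +kernel) c0_m3_t9 c0_m3_t10
theorem c0_m3_t12 : CovD 0 progs [(1984274890752, 283467841536), (1340029796352, 34359738368), (115645349888, 5721030656), (274877906944, 274877906944)] :=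
  covD_split 3 (by decide +kernel) c0_m3_t8 c0_m3_t11
theorem c0_m3_t14 : CovD 0 progs [(1984274890752, 283467841536), (1340029796352, 34359738368), (115645349888, 5721030656), (549755813888, 549755813888)] :=
  covD_split 3 (by decide +kernel) c0_m3_t12 c0_m3_t13
theorem c0_m3_t15 : CovD 0 progs [(1984274890752, 283467841536), (1305670057984, 68719476736), (115645349888, 5721030656), (549755813888, 549755813888)] :=
  covD_split 1 (by decide +kernel) c0_m3_t7 c0_m3_t14
theorem c0_m3_t16 : CovD 0 progs [(1984274890752, 283467841536), (1236950581248, 137438953472), (115645349888, 5721030656), (549755813888, 549755813888)] :=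
  covD_split 1 (by decide +kernel) c0_m3_t2 c0_m3_t15
theorem c0_m3_t19 : CovD 0 progs [(1842540969984, 141733920768), (1236950581248, 137438953472), (127087411200, 5721030656), (549755813888, 549755813888)] :=
  covD_split 1 (by decide +kernel) c0_m3_t17 c0_m3_t18
theorem c0_m3_t21 : CovD 0 progs [(1984274890752, 283467841536), (1236950581248, 137438953472), (127087411200, 5721030656), (549755813888, 549755813888)] :=
  covD_split 0 (by decide +kernel) c0_m3_t19 c0_m3_t20
theorem c0_m3_t22 : CovD 0 progs [(1984274890752, 283467841536), (1236950581248, 137438953472), (121366380544, 11442061312), (549755813888, 549755813888)] :=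
  covD_split 2 (by decide +kernel) c0_m3_t16 c0_m3_t21
theorem c0_m3_t25 : CovD 0 progs [(1984274890752, 283467841536), (1391569403904, 17179869184), (115645349888, 5721030656), (274877906944, 274877906944)] :=
  covD_split 3 (by decide +kernel) c0_m3_t23 c0_m3_t24
theorem c0_m3_t27 : CovD 0 progs [(1984274890752, 283467841536), (1391569403904, 17179869184), (115645349888, 5721030656), (549755813888, 549755813888)] :=
  covD_split 3 (by decide +kernel) c0_m3_t25 c0_m3_t26
theorem c0_m3_t30 : CovD 0 progs [(1984274890752, 283467841536), (1425929142272, 17179869184), (115645349888, 5721030656), (549755813888, 549755813888)] :=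
  covD_split 0 (by decide +kernel) c0_m3_t28 c0_m3_t29
theorem c0_m3_t31 : CovD 0 progs [(1984274890752, 283467841536), (1408749273088, 34359738368), (115645349888, 5721030656), (549755813888, 549755813888)] :=
  covD_split 1 (by decide +kernel) c0_m3_t27 c0_m3_t30
theorem c0_m3_t34 : CovD 0 progs [(1984274890752, 283467841536), (1408749273088, 34359738368), (127087411200, 5721030656), (549755813888, 549755813888)] :=
  covD_split 3 (by decide +kernel) c0_m3_t32 c0_m3_t33
theorem c0_m3_t35 : CovD 0 progs [(1984274890752, 283467841536), (1408749273088, 34359738368), (121366380544, 11442061312), (549755813888, 549755813888)] :=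
  covD_split 2 (by decide +kernel) c0_m3_t31 c0_m3_t34
theorem c0_m3_t39 : CovD 0 progs [(1913407930368, 70866960384), (1477468749824, 34359738368), (121366380544, 11442061312), (549755813888, 549755813888)] :=
  covD_split 2 (by decide +kernel) c0_m3_t37 c0_m3_t38
theorem c0_m3_t40 : CovD 0 progs [(1842540969984, 141733920768), (1477468749824, 34359738368), (121366380544, 11442061312), (549755813888, 549755813888)] :=
  covD_split 0 (by decide +kernel) c0_m3_t36 c0_m3_t39
theorem c0_m3_t43 : CovD 0 progs [(2126008811520, 141733920768), (1477468749824, 34359738368), (121366380544, 11442061312), (549755813888, 549755813888)] :=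
  covD_split 2 (by decide +kernel) c0_m3_t41 c0_m3_t42
theorem c0_m3_t44 : CovD 0 progs [(1984274890752, 283467841536), (1477468749824, 34359738368), (121366380544, 11442061312), (549755813888, 549755813888)] :=
  covD_split 0 (by decide +kernel) c0_m3_t40 c0_m3_t43
theorem c0_m3_t45 : CovD 0 progs [(1984274890752, 283467841536), (1443109011456, 68719476736), (121366380544, 11442061312), (549755813888, 549755813888)] :=
  covD_split 1 (by decide +kernel) c0_m3_t35 c0_m3_t44
theorem c0_m3_t48 : CovD 0 progs [(1842540969984, 141733920768), (1546188226560, 34359738368), (115645349888, 5721030656), (549755813888, 549755813888)] :=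
  covD_split 3 (by decide +kernel) c0_m3_t46 c0_m3_t47
theorem c0_m3_t51 : CovD 0 progs [(1842540969984, 141733920768), (1546188226560, 34359738368), (127087411200, 5721030656), (274877906944, 274877906944)] :=
  covD_split 3 (by decide +kernel) c0_m3_t49 c0_m3_t50
theorem c0_m3_t53 : CovD 0 progs [(1842540969984, 141733920768), (1546188226560, 34359738368), (127087411200, 5721030656), (549755813888, 549755813888)] :=
  covD_split 3 (by decide +kernel) c0_m3_t51 c0_m3_t52
theorem c0_m3_t54 : CovD 0 progs [(1842540969984, 141733920768), (1546188226560, 34359738368), (121366380544, 11442061312), (549755813888, 549755813888)] :=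
  covD_split 2 (by decide +kernel) c0_m3_t48 c0_m3_t53
theorem c0_m3_t56 : CovD 0 progs [(1984274890752, 283467841536), (1546188226560, 34359738368), (121366380544, 11442061312), (549755813888, 549755813888)] :=
  covD_split 0 (by decide +kernel) c0_m3_t54 c0_m3_t55
theorem c0_m3_t59 : CovD 0 progs [(1842540969984, 141733920768), (1597727834112, 17179869184), (121366380544, 11442061312), (549755813888, 549755813888)] :=
  covD_split 0 (by decide +kernel) c0_m3_t57 c0_m3_t58
theorem c0_m3_t61 : CovD 0 progs [(1984274890752, 283467841536), (1597727834112, 17179869184), (121366380544, 11442061312), (549755813888, 549755813888)] :=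
  covD_split 0 (by decide +kernel) c0_m3_t59 c0_m3_t60
theorem c0_m3_t64 : CovD 0 progs [(1771674009600, 70866960384), (1632087572480, 17179869184), (121366380544, 11442061312), (549755813888, 549755813888)] :=
  covD_split 2 (by decide +kernel) c0_m3_t62 c0_m3_t63
theorem c0_m3_t66 : CovD 0 progs [(1842540969984, 141733920768), (1632087572480, 17179869184), (121366380544, 11442061312), (549755813888, 549755813888)] :=
  covD_split 0 (by decide +kernel) c0_m3_t64 c0_m3_t65
theorem c0_m3_t68 : CovD 0 progs [(1984274890752, 283467841536), (1632087572480, 17179869184), (121366380544, 11442061312), (549755813888, 549755813888)] :=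
  covD_split 0 (by decide +kernel) c0_m3_t66 c0_m3_t67
theorem c0_m3_t69 : CovD 0 progs [(1984274890752, 283467841536), (1614907703296, 34359738368), (121366380544, 11442061312), (549755813888, 549755813888)] :=
  covD_split 1 (by decide +kernel) c0_m3_t61 c0_m3_t68
theorem c0_m3_t70 : CovD 0 progs [(1984274890752, 283467841536), (1580547964928, 68719476736), (121366380544, 11442061312), (549755813888, 549755813888)] :=
  covD_split 1 (by decide +kernel) c0_m3_t56 c0_m3_t69
theorem c0_m3_t71 : CovD 0 progs [(1984274890752, 283467841536), (1511828488192, 137438953472), (121366380544, 11442061312), (549755813888, 549755813888)] :=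
  covD_split 1 (by decide +kernel) c0_m3_t45 c0_m3_t70
theorem c0_m3 : CovD 0 progs [(1984274890752, 283467841536), (1374389534720, 274877906944), (121366380544, 11442061312), (549755813888, 549755813888)] :=
  covD_split 1 (by decide +kernel) c0_m3_t22 c0_m3_t71

end Pool.Agent.helper71.FJ.Crt.LHI
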