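import Pool.Agent.helper71.FJ.Crt.LHIc0_0
import Pool.Agent.helper71.FJ.Crt.LHIc0_1
import Pool.Agent.helper71.FJ.Crt.LHIc0_2
import Pool.Agent.helper71.FJ.Crt.LHIc0_3
import Pool.Agent.helper71.FJ.Crt.LHIc0_4
import Pool.Agent.helper71.FJ.Crt.LHIc0_5

/-!
Generated certificates, assembled.
-/

namespace Pool.Agent.helper71.FJ.Crt.LHI

open Pool.Agent.helper31.IA (Z Op)
open Pool.Agent.helper31.IC

theorem c0_top0 : CovD 0 progs [(1984274890752, 283467841536), (1649267441664, 549755813888), (121366380544, 11442061312), (549755813888, 549755813888)] :=
  covD_split 1 (by decide +kernel) c0_m3 c0_m4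
theorem c0_top1 : CovD 0 progs [(1700807049216, 566935683072), (1649267441664, 549755813888), (121366380544, 11442061312), (549755813888, 549755813888)] :=
  covD_split 0 (by decide +kernel) c0_m2 c0_top0
theorem c0_top2 : CovD 0 progs [(1700807049216, 566935683072), (1649267441664, 549755813888), (132808441856, 22884122624), (549755813888, 549755813888)] :=
  covD_split 2 (by decide +kernel) c0_top1 c0_m5
theorem c0_top3 : CovD 0 progs [(1700807049216, 566935683072), (1099511627776, 1099511627776), (132808441856, 22884122624), (549755813888, 549755813888)] :=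
  covD_split 1 (by decide +kernel) c0_m1 c0_top2
theorem c0_top4 : CovD 0 progs [(1133871366144, 1133871366144), (1099511627776, 1099511627776), (132808441856, 22884122624), (549755813888, 549755813888)] :=
  covD_split 0 (by decide +kernel) c0_m0 c0_top3

theorem c0_all : CovD 0 progs [(1133871366144, 1133871366144), (1099511627776, 1099511627776), (132808441856, 22884122624), (549755813888, 549755813888)] := c0_top4

end Pool.Agent.helper71.FJ.Crt.LHI
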