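import Pool.Agent.helper71.FJ.Crt.LMac0_0

/-!
Generated certificates, assembled.
-/

namespace Pool.Agent.helper71.FJ.Crt.LMa

open Pool.Agent.helper31.IA (Z Op)
open Pool.Agent.helper31.IC


theorem c0_all : CovD 0 progs [(225485783040, 225485783040), (223338299392, 223338299392), (1099511627776, 1099511627776), (549755813888, 549755813888)] := c0_m0

end Pool.Agent.helper71.FJ.Crt.LMa
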