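import Pool.Agent.helper71.FJ.Crt.LMbP

/-!
Generated certificates.
-/

namespace Pool.Agent.helper71.FJ.Crt.LMb

open Pool.Agent.helper31.IA (Z Op)
open Pool.Agent.helper31.IC

mutual
theorem c1_m1_t0 : CovD 0 progs [(253671505920, 28185722880), (3023656976384, 1924145348608), (68719476736, 68719476736), (274877906944, 274877906944)] :=
  Pool.Agent.helper14.QF.covD_F chks_eq (.n 0 (.n 1 (.l 9) (.n 2 (.l 9) (.n 2 (.l 9) (.n 1 (.n 1 (.l 4) (.l 3)) (.n 1 (.n 0 (.l 3) (.l 2)) (.n 3 (.l 2) (.l 2))))))) (.n 1 (.l 9) (.n 2 (.l 9) (.n 1 (.n 1 (.l 3) (.n 2 (.l 3) (.l 2))) (.n 1 (.n 2 (.l 9) (.n 3 (.l 2) (.l 2))) (.n 2 (.n 3 (.l 2) (.l 2)) (.n 3 (.l 2) (.n 0 (.l 2) (.l 2)))))))))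
    [(253671505920, 28185722880), (3023656976384, 1924145348608), (68719476736, 68719476736), (274877906944, 274877906944)] rfl (by decide +kernel)
theorem c1_m1_t1 : CovD 0 progs [(310042951680, 28185722880), (3023656976384, 1924145348608), (68719476736, 68719476736), (274877906944, 274877906944)] :=
  Pool.Agent.helper14.QF.covD_F chks_eq (.n 2 (.l 9) (.n 1 (.n 1 (.l 9) (.n 1 (.l 9) (.l 3))) (.n 1 (.n 1 (.n 3 (.l 2) (.l 2)) (.n 2 (.n 3 (.l 2) (.l 2)) (.n 3 (.l 2) (.n 0 (.l 2) (.l 2))))) (.n 0 (.n 1 (.n 2 (.n 3 (.l 2) (.l 2)) (.n 3 (.l 2) (.l 2))) (.l 10)) (.l 10)))))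
    [(310042951680, 28185722880), (3023656976384, 1924145348608), (68719476736, 68719476736), (274877906944, 274877906944)] rfl (by decide +kernel)
end
mutual
theorem c1_m1_t3 : CovD 0 progs [(239578644480, 14092861440), (2061584302080, 962072674304), (171798691840, 34359738368), (274877906944, 274877906944)] :=
  Pool.Agent.helper14.QF.covD_F chks_eq (.n 0 (.n 1 (.l 9) (.n 1 (.l 9) (.l 4))) (.n 1 (.l 9) (.n 1 (.l 3) (.l 3))))
    [(239578644480, 14092861440), (2061584302080, 962072674304), (171798691840, 34359738368), (274877906944, 274877906944)] rfl (by decide +kernel)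
theorem c1_m1_t4 : CovD 0 progs [(239578644480, 14092861440), (3985729650688, 962072674304), (171798691840, 34359738368), (274877906944, 274877906944)] :=
  Pool.Agent.helper14.QF.covD_F chks_eq (.n 1 (.n 0 (.n 1 (.l 3) (.n 2 (.l 3) (.l 4))) (.n 1 (.l 3) (.n 3 (.l 3) (.l 4)))) (.n 1 (.n 2 (.n 3 (.l 3) (.l 3)) (.n 3 (.l 3) (.n 0 (.l 2) (.l 2)))) (.n 1 (.n 2 (.n 3 (.l 2) (.l 2)) (.n 3 (.l 2) (.n 0 (.l 2) (.l 2)))) (.n 2 (.n 3 (.l 2) (.l 2)) (.n 2 (.n 3 (.l 2) (.l 2)) (.l 8))))))
    [(239578644480, 14092861440), (3985729650688, 962072674304), (171798691840, 34359738368), (274877906944, 274877906944)] rfl (by decide +kernel)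
end
mutual
theorem c1_m1_t6 : CovD 0 progs [(267764367360, 14092861440), (2061584302080, 962072674304), (171798691840, 34359738368), (274877906944, 274877906944)] :=
  Pool.Agent.helper14.QF.covD_F chks_eq (.n 1 (.l 9) (.n 1 (.l 3) (.l 3)))
    [(267764367360, 14092861440), (2061584302080, 962072674304), (171798691840, 34359738368), (274877906944, 274877906944)] rfl (by decide +kernel)
theorem c1_m1_t7 : CovD 0 progs [(267764367360, 14092861440), (3985729650688, 962072674304), (171798691840, 34359738368), (274877906944, 274877906944)] :=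
  Pool.Agent.helper14.QF.covD_F chks_eq (.n 2 (.n 1 (.n 1 (.l 3) (.n 1 (.l 2) (.l 2))) (.n 1 (.n 3 (.l 2) (.n 0 (.l 2) (.l 2))) (.n 1 (.n 3 (.l 2) (.l 2)) (.n 0 (.n 3 (.l 2) (.l 2)) (.l 10))))) (.n 1 (.n 1 (.l 4) (.n 3 (.l 2) (.l 2))) (.n 1 (.n 1 (.n 3 (.l 2) (.l 2)) (.n 2 (.n 3 (.l 2) (.l 2)) (.l 8))) (.n 0 (.n 2 (.l 8) (.l 8)) (.l 8)))))
    [(267764367360, 14092861440), (3985729650688, 962072674304), (171798691840, 34359738368), (274877906944, 274877906944)] rfl (by decide +kernel)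
end
mutual
theorem c1_m1_t10 : CovD 0 progs [(310042951680, 28185722880), (2061584302080, 962072674304), (171798691840, 34359738368), (274877906944, 274877906944)] :=
  Pool.Agent.helper14.QF.covD_F chks_eq (.n 1 (.n 0 (.l 9) (.n 1 (.l 0) (.l 3))) (.n 1 (.n 0 (.l 3) (.l 3)) (.n 3 (.l 3) (.l 3))))
    [(310042951680, 28185722880), (2061584302080, 962072674304), (171798691840, 34359738368), (274877906944, 274877906944)] rfl (by decide +kernel)
theorem c1_m1_t11 : CovD 0 progs [(310042951680, 28185722880), (3985729650688, 962072674304), (171798691840, 34359738368), (274877906944, 274877906944)] :=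
  Pool.Agent.helper14.QF.covD_F chks_eq (.n 1 (.n 1 (.n 2 (.n 3 (.l 2) (.l 2)) (.n 3 (.l 3) (.n 0 (.l 2) (.l 2)))) (.n 0 (.n 2 (.n 3 (.l 2) (.l 2)) (.n 3 (.l 2) (.n 0 (.l 2) (.l 2)))) (.n 2 (.n 3 (.l 2) (.l 4)) (.n 2 (.n 3 (.l 2) (.l 2)) (.l 8))))) (.n 0 (.n 1 (.n 1 (.n 2 (.n 3 (.l 2) (.l 2)) (.n 3 (.l 2) (.l 2))) (.n 2 (.n 3 (.l 2) (.l 2)) (.l 8))) (.l 10)) (.l 10)))
    [(310042951680, 28185722880), (3985729650688, 962072674304), (171798691840, 34359738368), (274877906944, 274877906944)] rfl (by decide +kernel)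
end
mutual
theorem c1_m1_t14 : CovD 0 progs [(281857228800, 56371445760), (2061584302080, 962072674304), (240518168576, 34359738368), (274877906944, 274877906944)] :=
  Pool.Agent.helper14.QF.covD_F chks_eq (.n 0 (.n 1 (.n 1 (.l 9) (.n 0 (.n 3 (.l 4) (.l 3)) (.n 0 (.l 3) (.l 3)))) (.n 0 (.n 1 (.n 3 (.l 3) (.l 3)) (.n 3 (.l 3) (.l 3))) (.n 1 (.n 0 (.l 3) (.l 3)) (.n 1 (.l 3) (.l 4))))) (.n 1 (.n 0 (.n 1 (.l 0) (.l 3)) (.n 1 (.l 0) (.l 3))) (.n 1 (.n 0 (.l 3) (.l 4)) (.n 1 (.n 0 (.l 3) (.l 4)) (.n 3 (.l 4) (.n 0 (.l 2) (.l 2)))))))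
    [(281857228800, 56371445760), (2061584302080, 962072674304), (240518168576, 34359738368), (274877906944, 274877906944)] rfl (by decide +kernel)
theorem c1_m1_t15 : CovD 0 progs [(253671505920, 28185722880), (3985729650688, 962072674304), (223338299392, 17179869184), (274877906944, 274877906944)] :=
  Pool.Agent.helper14.QF.covD_F chks_eq (.n 0 (.n 1 (.n 1 (.n 0 (.l 4) (.l 3)) (.n 3 (.l 3) (.n 0 (.l 3) (.l 2)))) (.n 1 (.n 1 (.n 3 (.l 2) (.l 2)) (.n 0 (.l 8) (.l 8))) (.l 8))) (.n 1 (.n 1 (.n 1 (.l 3) (.l 4)) (.n 3 (.l 4) (.n 0 (.l 2) (.l 2)))) (.n 1 (.l 8) (.l 8))))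
    [(253671505920, 28185722880), (3985729650688, 962072674304), (223338299392, 17179869184), (274877906944, 274877906944)] rfl (by decide +kernel)
end
mutual
theorem c1_m1_t16 : CovD 0 progs [(310042951680, 28185722880), (3985729650688, 962072674304), (223338299392, 17179869184), (274877906944, 274877906944)] :=
  Pool.Agent.helper14.QF.covD_F chks_eq (.n 0 (.n 1 (.n 1 (.n 3 (.l 2) (.l 2)) (.n 0 (.l 8) (.l 8))) (.l 8)) (.n 1 (.n 1 (.n 1 (.n 0 (.l 2) (.l 2)) (.l 8)) (.l 8)) (.l 8)))
    [(310042951680, 28185722880), (3985729650688, 962072674304), (223338299392, 17179869184), (274877906944, 274877906944)] rfl (by decide +kernel)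
theorem c1_m1_t18 : CovD 0 progs [(281857228800, 56371445760), (3985729650688, 962072674304), (257698037760, 17179869184), (274877906944, 274877906944)] :=
  Pool.Agent.helper14.QF.covD_F chks_eq (.n 1 (.n 0 (.n 0 (.n 1 (.n 3 (.l 3) (.l 3)) (.n 0 (.n 3 (.l 3) (.l 3)) (.l 8))) (.n 1 (.n 1 (.l 4) (.l 8)) (.l 8))) (.n 1 (.n 0 (.n 0 (.l 8) (.l 8)) (.l 8)) (.l 8))) (.n 0 (.n 0 (.n 0 (.l 8) (.l 8)) (.l 8)) (.l 8)))
    [(281857228800, 56371445760), (3985729650688, 962072674304), (257698037760, 17179869184), (274877906944, 274877906944)] rfl (by decide +kernel)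
end
mutual
theorem c1_m1_t23 : CovD 0 progs [(239578644480, 14092861440), (2061584302080, 962072674304), (343597383680, 68719476736), (274877906944, 274877906944)] :=
  Pool.Agent.helper14.QF.covD_F chks_eq (.n 1 (.n 1 (.n 3 (.n 1 (.l 0) (.l 4)) (.l 3)) (.n 0 (.n 3 (.n 0 (.l 4) (.l 4)) (.l 3)) (.n 3 (.l 4) (.l 3)))) (.n 1 (.n 1 (.n 3 (.n 0 (.l 4) (.l 4)) (.l 4)) (.n 2 (.n 3 (.l 3) (.l 3)) (.n 2 (.n 3 (.l 4) (.l 3)) (.l 6)))) (.n 1 (.n 2 (.n 3 (.l 3) (.l 3)) (.n 0 (.n 1 (.l 8) (.l 8)) (.l 8))) (.n 2 (.n 3 (.l 4) (.l 4)) (.l 8)))))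
    [(239578644480, 14092861440), (2061584302080, 962072674304), (343597383680, 68719476736), (274877906944, 274877906944)] rfl (by decide +kernel)
theorem c1_m1_t24 : CovD 0 progs [(267764367360, 14092861440), (2061584302080, 962072674304), (343597383680, 68719476736), (274877906944, 274877906944)] :=
  Pool.Agent.helper14.QF.covD_F chks_eq (.n 1 (.n 1 (.n 3 (.l 3) (.l 3)) (.n 0 (.n 3 (.l 4) (.l 4)) (.n 3 (.l 4) (.l 4)))) (.n 1 (.n 2 (.n 3 (.l 3) (.l 3)) (.n 1 (.n 3 (.l 4) (.l 4)) (.n 2 (.l 8) (.l 8)))) (.n 1 (.n 2 (.n 2 (.l 4) (.l 8)) (.l 8)) (.n 2 (.n 3 (.l 4) (.l 4)) (.l 8)))))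
    [(267764367360, 14092861440), (2061584302080, 962072674304), (343597383680, 68719476736), (274877906944, 274877906944)] rfl (by decide +kernel)
end
mutual
theorem c1_m1_t26 : CovD 0 progs [(253671505920, 28185722880), (3985729650688, 962072674304), (343597383680, 68719476736), (274877906944, 274877906944)] :=
  Pool.Agent.helper14.QF.covD_F chks_eq (.n 2 (.n 0 (.n 1 (.n 1 (.n 2 (.n 1 (.n 3 (.l 3) (.l 3)) (.l 8)) (.l 8)) (.n 0 (.l 8) (.l 8))) (.n 0 (.l 8) (.l 8))) (.n 1 (.n 1 (.n 1 (.l 8) (.l 8)) (.l 8)) (.l 8))) (.n 1 (.n 0 (.n 1 (.l 8) (.l 8)) (.l 8)) (.l 8)))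
    [(253671505920, 28185722880), (3985729650688, 962072674304), (343597383680, 68719476736), (274877906944, 274877906944)] rfl (by decide +kernel)
theorem c1_m1_t28 : CovD 0 progs [(253671505920, 28185722880), (3023656976384, 1924145348608), (446676598784, 34359738368), (274877906944, 274877906944)] :=
  Pool.Agent.helper14.QF.covD_F chks_eq (.n 1 (.n 1 (.n 1 (.n 0 (.n 3 (.n 1 (.l 4) (.l 4)) (.l 3)) (.n 3 (.l 4) (.l 3))) (.n 1 (.n 2 (.n 3 (.n 0 (.l 4) (.l 3)) (.l 4)) (.l 6)) (.n 2 (.n 0 (.l 6) (.l 6)) (.l 6)))) (.n 1 (.n 3 (.l 6) (.n 1 (.l 6) (.l 6))) (.n 0 (.l 8) (.l 8)))) (.n 1 (.n 0 (.l 8) (.l 8)) (.l 8)))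
    [(253671505920, 28185722880), (3023656976384, 1924145348608), (446676598784, 34359738368), (274877906944, 274877906944)] rfl (by decide +kernel)
end
mutual
theorem c1_m1_t29 : CovD 0 progs [(253671505920, 28185722880), (3023656976384, 1924145348608), (515396075520, 34359738368), (274877906944, 274877906944)] :=
  Pool.Agent.helper14.QF.covD_F chks_eq (.n 1 (.n 1 (.n 1 (.n 1 (.n 2 (.n 0 (.n 3 (.l 4) (.l 3)) (.l 4)) (.l 6)) (.n 1 (.l 6) (.l 6))) (.n 1 (.l 6) (.l 6))) (.n 1 (.n 0 (.l 8) (.l 8)) (.l 8))) (.n 1 (.l 8) (.l 8)))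
    [(253671505920, 28185722880), (3023656976384, 1924145348608), (515396075520, 34359738368), (274877906944, 274877906944)] rfl (by decide +kernel)
theorem c1_m1_t32 : CovD 0 progs [(310042951680, 28185722880), (1580547964928, 481036337152), (412316860416, 137438953472), (137438953472, 137438953472)] :=
  Pool.Agent.helper14.QF.covD_F chks_eq (.n 3 (.l 11) (.n 1 (.n 1 (.n 2 (.l 0) (.l 4)) (.n 2 (.l 3) (.n 2 (.l 4) (.l 6)))) (.n 2 (.n 1 (.l 4) (.n 0 (.l 4) (.l 4))) (.n 2 (.n 1 (.l 4) (.l 6)) (.l 6)))))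
    [(310042951680, 28185722880), (1580547964928, 481036337152), (412316860416, 137438953472), (137438953472, 137438953472)] rfl (by decide +kernel)
end
mutual
theorem c1_m1_t33 : CovD 0 progs [(310042951680, 28185722880), (1580547964928, 481036337152), (412316860416, 137438953472), (412316860416, 137438953472)] :=
  Pool.Agent.helper14.QF.covD_F chks_eq (.n 1 (.n 1 (.n 2 (.l 3) (.n 0 (.l 4) (.l 4))) (.n 2 (.l 3) (.n 2 (.l 4) (.l 6)))) (.n 1 (.n 2 (.l 4) (.n 2 (.n 2 (.l 4) (.l 6)) (.l 6))) (.n 2 (.n 2 (.l 3) (.l 4)) (.n 0 (.n 2 (.l 8) (.l 6)) (.l 8)))))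
    [(310042951680, 28185722880), (1580547964928, 481036337152), (412316860416, 137438953472), (412316860416, 137438953472)] rfl (by decide +kernel)
theorem c1_m1_t35 : CovD 0 progs [(310042951680, 28185722880), (2542620639232, 481036337152), (412316860416, 137438953472), (274877906944, 274877906944)] :=
  Pool.Agent.helper14.QF.covD_F chks_eq (.n 0 (.n 1 (.n 2 (.n 2 (.n 3 (.l 4) (.l 4)) (.n 1 (.n 2 (.l 4) (.l 8)) (.l 8))) (.n 1 (.l 8) (.l 8))) (.n 2 (.n 2 (.n 1 (.n 2 (.l 4) (.l 8)) (.l 8)) (.l 8)) (.l 8))) (.n 1 (.n 1 (.n 2 (.n 2 (.l 4) (.l 8)) (.l 8)) (.n 2 (.n 2 (.n 1 (.l 4) (.l 8)) (.l 8)) (.l 8))) (.n 2 (.n 2 (.n 0 (.l 8) (.l 8)) (.l 8)) (.l 8))))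
    [(310042951680, 28185722880), (2542620639232, 481036337152), (412316860416, 137438953472), (274877906944, 274877906944)] rfl (by decide +kernel)
theorem c1_m1_t37 : CovD 0 progs [(310042951680, 28185722880), (3985729650688, 962072674304), (412316860416, 137438953472), (274877906944, 274877906944)] :=
  Pool.Agent.helper14.QF.covD_F chks_eq (.n 1 (.n 1 (.n 2 (.n 2 (.n 0 (.l 8) (.l 8)) (.l 8)) (.l 8)) (.n 2 (.n 2 (.l 8) (.l 8)) (.l 8))) (.n 2 (.n 2 (.l 8) (.l 8)) (.l 8)))
    [(310042951680, 28185722880), (3985729650688, 962072674304), (412316860416, 137438953472), (274877906944, 274877906944)] rfl (by decide +kernel)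
end
theorem c1_m1_t2 : CovD 0 progs [(281857228800, 56371445760), (3023656976384, 1924145348608), (68719476736, 68719476736), (274877906944, 274877906944)] :=
  covD_split 0 (by decide +kernel) c1_m1_t0 c1_m1_t1
theorem c1_m1_t5 : CovD 0 progs [(239578644480, 14092861440), (3023656976384, 1924145348608), (171798691840, 34359738368), (274877906944, 274877906944)] :=
  covD_split 1 (by decide +kernel) c1_m1_t3 c1_m1_t4
theorem c1_m1_t8 : CovD 0 progs [(267764367360, 14092861440), (3023656976384, 1924145348608), (171798691840, 34359738368), (274877906944, 274877906944)] :=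
  covD_split 1 (by decide +kernel) c1_m1_t6 c1_m1_t7
theorem c1_m1_t9 : CovD 0 progs [(253671505920, 28185722880), (3023656976384, 1924145348608), (171798691840, 34359738368), (274877906944, 274877906944)] :=
  covD_split 0 (by decide +kernel) c1_m1_t5 c1_m1_t8
theorem c1_m1_t12 : CovD 0 progs [(310042951680, 28185722880), (3023656976384, 1924145348608), (171798691840, 34359738368), (274877906944, 274877906944)] :=
  covD_split 1 (by decide +kernel) c1_m1_t10 c1_m1_t11
theorem c1_m1_t13 : CovD 0 progs [(281857228800, 56371445760), (3023656976384, 1924145348608), (171798691840, 34359738368), (274877906944, 274877906944)] :=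
  covD_split 0 (by decide +kernel) c1_m1_t9 c1_m1_t12
theorem c1_m1_t17 : CovD 0 progs [(281857228800, 56371445760), (3985729650688, 962072674304), (223338299392, 17179869184), (274877906944, 274877906944)] :=
  covD_split 0 (by decide +kernel) c1_m1_t15 c1_m1_t16
theorem c1_m1_t19 : CovD 0 progs [(281857228800, 56371445760), (3985729650688, 962072674304), (240518168576, 34359738368), (274877906944, 274877906944)] :=
  covD_split 2 (by decide +kernel) c1_m1_t17 c1_m1_t18
theorem c1_m1_t20 : CovD 0 progs [(281857228800, 56371445760), (3023656976384, 1924145348608), (240518168576, 34359738368), (274877906944, 274877906944)] :=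
  covD_split 1 (by decide +kernel) c1_m1_t14 c1_m1_t19
theorem c1_m1_t21 : CovD 0 progs [(281857228800, 56371445760), (3023656976384, 1924145348608), (206158430208, 68719476736), (274877906944, 274877906944)] :=
  covD_split 2 (by decide +kernel) c1_m1_t13 c1_m1_t20
theorem c1_m1_t22 : CovD 0 progs [(281857228800, 56371445760), (3023656976384, 1924145348608), (137438953472, 137438953472), (274877906944, 274877906944)] :=
  covD_split 2 (by decide +kernel) c1_m1_t2 c1_m1_t21
theorem c1_m1_t25 : CovD 0 progs [(253671505920, 28185722880), (2061584302080, 962072674304), (343597383680, 68719476736), (274877906944, 274877906944)] :=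
  covD_split 0 (by decide +kernel) c1_m1_t23 c1_m1_t24
theorem c1_m1_t27 : CovD 0 progs [(253671505920, 28185722880), (3023656976384, 1924145348608), (343597383680, 68719476736), (274877906944, 274877906944)] :=
  covD_split 1 (by decide +kernel) c1_m1_t25 c1_m1_t26
theorem c1_m1_t30 : CovD 0 progs [(253671505920, 28185722880), (3023656976384, 1924145348608), (481036337152, 68719476736), (274877906944, 274877906944)] :=
  covD_split 2 (by decide +kernel) c1_m1_t28 c1_m1_t29
theorem c1_m1_t31 : CovD 0 progs [(253671505920, 28185722880), (3023656976384, 1924145348608), (412316860416, 137438953472), (274877906944, 274877906944)] :=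
  covD_split 2 (by decide +kernel) c1_m1_t27 c1_m1_t30
theorem c1_m1_t34 : CovD 0 progs [(310042951680, 28185722880), (1580547964928, 481036337152), (412316860416, 137438953472), (274877906944, 274877906944)] :=
  covD_split 3 (by decide +kernel) c1_m1_t32 c1_m1_t33
theorem c1_m1_t36 : CovD 0 progs [(310042951680, 28185722880), (2061584302080, 962072674304), (412316860416, 137438953472), (274877906944, 274877906944)] :=
  covD_split 1 (by decide +kernel) c1_m1_t34 c1_m1_t35
theorem c1_m1_t38 : CovD 0 progs [(310042951680, 28185722880), (3023656976384, 1924145348608), (412316860416, 137438953472), (274877906944, 274877906944)] :=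
  covD_split 1 (by decide +kernel) c1_m1_t36 c1_m1_t37
theorem c1_m1_t39 : CovD 0 progs [(281857228800, 56371445760), (3023656976384, 1924145348608), (412316860416, 137438953472), (274877906944, 274877906944)] :=
  covD_split 0 (by decide +kernel) c1_m1_t31 c1_m1_t38
theorem c1_m1 : CovD 0 progs [(281857228800, 56371445760), (3023656976384, 1924145348608), (274877906944, 274877906944), (274877906944, 274877906944)] :=
  covD_split 2 (by decide +kernel) c1_m1_t22 c1_m1_t39

end Pool.Agent.helper71.FJ.Crt.LMb
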