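import Pool.Agent.helper71.FJ.Crt.LMbP

/-!
Generated certificates.
-/

namespace Pool.Agent.helper71.FJ.Crt.LMb

open Pool.Agent.helper31.IA (Z Op)
open Pool.Agent.helper31.IC

mutual
theorem c1_m10_t0 : CovD 0 progs [(119789322240, 7046430720), (3023656976384, 1924145348608), (137438953472, 137438953472), (962072674304, 137438953472)] :=
  Pool.Agent.helper14.QF.covD_F chks_eq (.n 1 (.l 9) (.n 2 (.l 9) (.n 2 (.l 9) (.n 1 (.n 1 (.l 3) (.l 3)) (.n 1 (.n 0 (.l 3) (.l 3)) (.n 1 (.l 3) (.n 0 (.l 3) (.l 3))))))))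
    [(119789322240, 7046430720), (3023656976384, 1924145348608), (137438953472, 137438953472), (962072674304, 137438953472)] rfl (by decide +kernel)
theorem c1_m10_t1 : CovD 0 progs [(119789322240, 7046430720), (5909874999296, 962072674304), (68719476736, 68719476736), (962072674304, 137438953472)] :=
  Pool.Agent.helper14.QF.covD_F chks_eq (.l 9)
    [(119789322240, 7046430720), (5909874999296, 962072674304), (68719476736, 68719476736), (962072674304, 137438953472)] rfl (by decide +kernel)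
end
mutual
theorem c1_m10_t2 : CovD 0 progs [(119789322240, 7046430720), (5428838662144, 481036337152), (206158430208, 68719476736), (962072674304, 137438953472)] :=
  Pool.Agent.helper14.QF.covD_F chks_eq (.n 2 (.n 2 (.l 9) (.n 1 (.l 3) (.n 0 (.l 3) (.l 3)))) (.n 1 (.n 2 (.n 0 (.l 3) (.l 3)) (.n 3 (.l 3) (.l 3))) (.n 2 (.n 3 (.l 3) (.l 3)) (.n 1 (.n 2 (.l 3) (.l 4)) (.n 2 (.l 4) (.l 6))))))
    [(119789322240, 7046430720), (5428838662144, 481036337152), (206158430208, 68719476736), (962072674304, 137438953472)] rfl (by decide +kernel)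
theorem c1_m10_t3 : CovD 0 progs [(119789322240, 7046430720), (6150393167872, 240518168576), (206158430208, 68719476736), (962072674304, 137438953472)] :=
  Pool.Agent.helper14.QF.covD_F chks_eq (.n 2 (.n 2 (.l 3) (.n 3 (.l 3) (.l 3))) (.n 2 (.n 1 (.n 0 (.l 3) (.l 4)) (.n 3 (.l 3) (.l 3))) (.n 2 (.n 3 (.l 6) (.n 0 (.l 3) (.l 3))) (.n 1 (.l 6) (.l 6)))))
    [(119789322240, 7046430720), (6150393167872, 240518168576), (206158430208, 68719476736), (962072674304, 137438953472)] rfl (by decide +kernel)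
end
mutual
theorem c1_m10_t4 : CovD 0 progs [(119789322240, 7046430720), (6631429505024, 240518168576), (206158430208, 68719476736), (962072674304, 137438953472)] :=
  Pool.Agent.helper14.QF.covD_F chks_eq (.n 2 (.n 0 (.n 2 (.l 3) (.n 1 (.l 3) (.l 3))) (.n 2 (.l 3) (.n 3 (.l 3) (.l 3)))) (.n 2 (.n 2 (.n 3 (.l 3) (.n 0 (.l 3) (.l 3))) (.n 0 (.n 3 (.l 3) (.l 3)) (.n 3 (.l 3) (.l 3)))) (.n 2 (.n 3 (.l 6) (.n 1 (.l 3) (.l 6))) (.n 0 (.n 0 (.l 6) (.l 8)) (.l 8)))))
    [(119789322240, 7046430720), (6631429505024, 240518168576), (206158430208, 68719476736), (962072674304, 137438953472)] rfl (by decide +kernel)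
theorem c1_m10_t8 : CovD 0 progs [(119789322240, 7046430720), (7834020347904, 962072674304), (68719476736, 68719476736), (962072674304, 137438953472)] :=
  Pool.Agent.helper14.QF.covD_F chks_eq (.n 2 (.l 9) (.n 2 (.l 9) (.n 1 (.n 1 (.l 9) (.n 3 (.l 3) (.l 3))) (.n 0 (.n 2 (.l 9) (.n 1 (.l 3) (.l 4))) (.n 1 (.n 1 (.l 3) (.l 3)) (.n 3 (.l 3) (.l 1)))))))
    [(119789322240, 7046430720), (7834020347904, 962072674304), (68719476736, 68719476736), (962072674304, 137438953472)] rfl (by decide +kernel)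
end
mutual
theorem c1_m10_t9 : CovD 0 progs [(119789322240, 7046430720), (7352984010752, 481036337152), (171798691840, 34359738368), (962072674304, 137438953472)] :=
  Pool.Agent.helper14.QF.covD_F chks_eq (.n 1 (.n 2 (.n 2 (.l 3) (.n 0 (.l 3) (.l 3))) (.n 2 (.n 3 (.l 3) (.l 3)) (.n 0 (.n 1 (.l 3) (.l 3)) (.n 1 (.l 3) (.l 3))))) (.n 0 (.n 2 (.n 3 (.l 3) (.l 3)) (.n 2 (.n 1 (.l 3) (.l 3)) (.n 3 (.l 3) (.l 3)))) (.n 2 (.n 3 (.l 3) (.l 1)) (.n 2 (.n 3 (.l 3) (.l 1)) (.n 3 (.l 3) (.n 0 (.l 1) (.l 1)))))))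
    [(119789322240, 7046430720), (7352984010752, 481036337152), (171798691840, 34359738368), (962072674304, 137438953472)] rfl (by decide +kernel)
theorem c1_m10_t10 : CovD 0 progs [(119789322240, 7046430720), (8074538516480, 240518168576), (171798691840, 34359738368), (962072674304, 137438953472)] :=
  Pool.Agent.helper14.QF.covD_F chks_eq (.n 2 (.n 2 (.n 3 (.l 3) (.l 1)) (.n 0 (.n 1 (.l 3) (.l 3)) (.n 3 (.l 3) (.l 1)))) (.n 0 (.n 2 (.n 3 (.l 3) (.l 1)) (.n 0 (.n 3 (.l 3) (.l 1)) (.n 3 (.l 3) (.l 1)))) (.n 2 (.n 3 (.l 3) (.n 0 (.l 1) (.l 1))) (.n 1 (.n 3 (.l 3) (.l 1)) (.n 3 (.l 3) (.l 1))))))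
    [(119789322240, 7046430720), (8074538516480, 240518168576), (171798691840, 34359738368), (962072674304, 137438953472)] rfl (by decide +kernel)
end
mutual
theorem c1_m10_t11 : CovD 0 progs [(116266106880, 3523215360), (8555574853632, 240518168576), (171798691840, 34359738368), (962072674304, 137438953472)] :=
  Pool.Agent.helper14.QF.covD_F chks_eq (.n 2 (.n 2 (.n 1 (.l 3) (.l 3)) (.n 3 (.l 3) (.l 1))) (.n 1 (.n 2 (.n 3 (.l 3) (.l 1)) (.n 3 (.l 3) (.l 1))) (.n 2 (.n 3 (.l 3) (.l 1)) (.n 2 (.n 3 (.l 3) (.l 1)) (.l 8)))))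
    [(116266106880, 3523215360), (8555574853632, 240518168576), (171798691840, 34359738368), (962072674304, 137438953472)] rfl (by decide +kernel)
theorem c1_m10_t12 : CovD 0 progs [(123312537600, 3523215360), (8555574853632, 240518168576), (171798691840, 34359738368), (962072674304, 137438953472)] :=
  Pool.Agent.helper14.QF.covD_F chks_eq (.n 2 (.n 2 (.n 3 (.l 3) (.l 1)) (.n 3 (.l 3) (.l 1))) (.n 1 (.n 2 (.n 3 (.l 1) (.l 1)) (.n 0 (.n 3 (.l 1) (.l 1)) (.l 8))) (.n 2 (.n 3 (.l 1) (.l 1)) (.l 8))))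
    [(123312537600, 3523215360), (8555574853632, 240518168576), (171798691840, 34359738368), (962072674304, 137438953472)] rfl (by decide +kernel)
end
mutual
theorem c1_m10_t16 : CovD 0 progs [(116266106880, 3523215360), (7834020347904, 962072674304), (223338299392, 17179869184), (962072674304, 137438953472)] :=
  Pool.Agent.helper14.QF.covD_F chks_eq (.n 1 (.n 1 (.n 2 (.n 3 (.l 3) (.l 3)) (.n 3 (.l 3) (.n 0 (.l 3) (.l 1)))) (.n 1 (.n 2 (.n 3 (.l 3) (.l 1)) (.n 3 (.l 3) (.l 1))) (.n 2 (.n 3 (.l 3) (.l 1)) (.l 8)))) (.n 2 (.n 1 (.n 1 (.n 3 (.l 3) (.l 1)) (.n 0 (.n 3 (.l 3) (.l 1)) (.l 8))) (.l 8)) (.l 8)))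
    [(116266106880, 3523215360), (7834020347904, 962072674304), (223338299392, 17179869184), (962072674304, 137438953472)] rfl (by decide +kernel)
theorem c1_m10_t17 : CovD 0 progs [(123312537600, 3523215360), (7834020347904, 962072674304), (223338299392, 17179869184), (962072674304, 137438953472)] :=
  Pool.Agent.helper14.QF.covD_F chks_eq (.n 1 (.n 1 (.n 2 (.n 3 (.l 3) (.l 1)) (.n 2 (.n 1 (.l 3) (.l 8)) (.l 8))) (.n 2 (.n 1 (.n 3 (.l 3) (.l 1)) (.n 3 (.l 3) (.l 1))) (.l 8))) (.n 0 (.n 2 (.l 8) (.l 8)) (.l 8)))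
    [(123312537600, 3523215360), (7834020347904, 962072674304), (223338299392, 17179869184), (962072674304, 137438953472)] rfl (by decide +kernel)
end
mutual
theorem c1_m10_t19 : CovD 0 progs [(119789322240, 7046430720), (7834020347904, 962072674304), (257698037760, 17179869184), (962072674304, 137438953472)] :=
  Pool.Agent.helper14.QF.covD_F chks_eq (.n 1 (.n 2 (.n 0 (.n 1 (.n 1 (.l 6) (.l 8)) (.l 8)) (.l 8)) (.l 8)) (.l 8))
    [(119789322240, 7046430720), (7834020347904, 962072674304), (257698037760, 17179869184), (962072674304, 137438953472)] rfl (by decide +kernel)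
theorem c1_m10_t25 : CovD 0 progs [(133882183680, 7046430720), (3023656976384, 1924145348608), (137438953472, 137438953472), (962072674304, 137438953472)] :=
  Pool.Agent.helper14.QF.covD_F chks_eq (.n 1 (.l 9) (.n 2 (.l 9) (.n 1 (.n 1 (.l 3) (.n 2 (.l 3) (.l 3))) (.n 1 (.n 2 (.l 3) (.n 1 (.l 3) (.l 3))) (.n 2 (.l 3) (.n 2 (.l 3) (.n 1 (.l 3) (.l 3))))))))
    [(133882183680, 7046430720), (3023656976384, 1924145348608), (137438953472, 137438953472), (962072674304, 137438953472)] rfl (by decide +kernel)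
end
mutual
theorem c1_m10_t26 : CovD 0 progs [(133882183680, 7046430720), (6871947673600, 1924145348608), (68719476736, 68719476736), (962072674304, 137438953472)] :=
  Pool.Agent.helper14.QF.covD_F chks_eq (.n 2 (.l 9) (.n 2 (.l 9) (.n 1 (.n 1 (.l 9) (.n 1 (.l 3) (.l 3))) (.n 1 (.n 1 (.n 0 (.l 3) (.l 3)) (.n 3 (.l 3) (.l 1))) (.n 1 (.n 0 (.n 2 (.l 3) (.l 3)) (.n 3 (.l 1) (.l 1))) (.n 2 (.n 3 (.l 1) (.l 1)) (.n 3 (.l 1) (.n 0 (.l 1) (.l 1)))))))))
    [(133882183680, 7046430720), (6871947673600, 1924145348608), (68719476736, 68719476736), (962072674304, 137438953472)] rfl (by decide +kernel)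
theorem c1_m10_t27 : CovD 0 progs [(133882183680, 7046430720), (5428838662144, 481036337152), (206158430208, 68719476736), (962072674304, 137438953472)] :=
  Pool.Agent.helper14.QF.covD_F chks_eq (.n 1 (.n 1 (.n 2 (.l 3) (.n 2 (.l 3) (.n 0 (.l 3) (.l 3)))) (.n 2 (.l 4) (.n 2 (.l 3) (.n 0 (.l 3) (.l 4))))) (.n 2 (.n 2 (.l 3) (.n 0 (.l 3) (.l 3))) (.n 2 (.n 0 (.n 1 (.l 3) (.l 3)) (.n 1 (.l 3) (.l 4))) (.n 3 (.n 2 (.l 3) (.l 6)) (.n 1 (.l 3) (.n 0 (.l 1) (.l 1)))))))
    [(133882183680, 7046430720), (5428838662144, 481036337152), (206158430208, 68719476736), (962072674304, 137438953472)] rfl (by decide +kernel)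
end
mutual
theorem c1_m10_t28 : CovD 0 progs [(133882183680, 7046430720), (6150393167872, 240518168576), (206158430208, 68719476736), (962072674304, 137438953472)] :=
  Pool.Agent.helper14.QF.covD_F chks_eq (.n 1 (.n 2 (.n 2 (.l 3) (.n 0 (.l 3) (.l 3))) (.n 2 (.n 3 (.l 3) (.l 1)) (.n 2 (.n 3 (.l 3) (.l 1)) (.l 8)))) (.n 2 (.n 2 (.l 3) (.n 0 (.l 3) (.l 3))) (.n 2 (.n 0 (.n 2 (.l 3) (.l 3)) (.n 2 (.l 3) (.l 3))) (.n 2 (.n 3 (.l 3) (.l 1)) (.l 8)))))
    [(133882183680, 7046430720), (6150393167872, 240518168576), (206158430208, 68719476736), (962072674304, 137438953472)] rfl (by decide +kernel)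
theorem c1_m10_t29 : CovD 0 progs [(133882183680, 7046430720), (6631429505024, 240518168576), (206158430208, 68719476736), (962072674304, 137438953472)] :=
  Pool.Agent.helper14.QF.covD_F chks_eq (.n 2 (.n 2 (.n 3 (.l 3) (.l 1)) (.n 2 (.n 1 (.l 3) (.l 3)) (.n 3 (.l 3) (.l 1)))) (.n 2 (.n 0 (.n 1 (.n 3 (.l 3) (.l 1)) (.n 2 (.l 4) (.n 0 (.l 4) (.l 8)))) (.n 2 (.n 3 (.l 3) (.l 1)) (.n 0 (.l 8) (.l 8)))) (.n 2 (.l 8) (.l 8))))
    [(133882183680, 7046430720), (6631429505024, 240518168576), (206158430208, 68719476736), (962072674304, 137438953472)] rfl (by decide +kernel)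
end
mutual
theorem c1_m10_t32 : CovD 0 progs [(130358968320, 3523215360), (7352984010752, 481036337152), (206158430208, 68719476736), (962072674304, 137438953472)] :=
  Pool.Agent.helper14.QF.covD_F chks_eq (.n 1 (.n 2 (.n 1 (.n 2 (.l 3) (.n 2 (.l 3) (.l 3))) (.n 2 (.l 4) (.n 3 (.l 3) (.l 1)))) (.n 2 (.n 2 (.n 3 (.l 3) (.n 0 (.l 1) (.l 1))) (.l 8)) (.l 8))) (.n 2 (.n 2 (.n 2 (.l 3) (.n 1 (.l 3) (.l 3))) (.n 2 (.n 3 (.l 3) (.l 1)) (.n 3 (.l 4) (.n 0 (.l 1) (.l 1))))) (.n 2 (.n 2 (.l 8) (.l 8)) (.l 8))))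
    [(130358968320, 3523215360), (7352984010752, 481036337152), (206158430208, 68719476736), (962072674304, 137438953472)] rfl (by decide +kernel)
theorem c1_m10_t33 : CovD 0 progs [(130358968320, 3523215360), (8074538516480, 240518168576), (206158430208, 68719476736), (962072674304, 137438953472)] :=
  Pool.Agent.helper14.QF.covD_F chks_eq (.n 2 (.n 2 (.n 2 (.n 1 (.l 3) (.l 1)) (.n 3 (.l 1) (.l 1))) (.n 1 (.n 2 (.n 3 (.l 1) (.l 1)) (.n 3 (.l 1) (.l 1))) (.n 2 (.n 3 (.l 1) (.l 1)) (.l 8)))) (.n 0 (.l 8) (.l 8)))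
    [(130358968320, 3523215360), (8074538516480, 240518168576), (206158430208, 68719476736), (962072674304, 137438953472)] rfl (by decide +kernel)
end
mutual
theorem c1_m10_t34 : CovD 0 progs [(130358968320, 3523215360), (8555574853632, 240518168576), (206158430208, 68719476736), (962072674304, 137438953472)] :=
  Pool.Agent.helper14.QF.covD_F chks_eq (.n 2 (.n 2 (.n 2 (.n 3 (.l 1) (.l 1)) (.n 0 (.n 3 (.l 1) (.l 1)) (.n 3 (.l 1) (.l 1)))) (.n 2 (.n 2 (.n 3 (.l 1) (.l 1)) (.n 0 (.l 8) (.l 8))) (.l 8))) (.l 8))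
    [(130358968320, 3523215360), (8555574853632, 240518168576), (206158430208, 68719476736), (962072674304, 137438953472)] rfl (by decide +kernel)
theorem c1_m10_t37 : CovD 0 progs [(137405399040, 3523215360), (7352984010752, 481036337152), (206158430208, 68719476736), (962072674304, 137438953472)] :=
  Pool.Agent.helper14.QF.covD_F chks_eq (.n 2 (.n 1 (.n 2 (.n 3 (.l 3) (.l 1)) (.n 2 (.n 1 (.l 3) (.l 3)) (.n 3 (.l 3) (.l 1)))) (.n 2 (.n 1 (.n 2 (.l 1) (.l 1)) (.n 2 (.l 1) (.l 1))) (.n 2 (.n 3 (.l 1) (.l 1)) (.n 0 (.n 3 (.l 1) (.l 1)) (.l 8))))) (.n 2 (.n 1 (.n 0 (.n 2 (.n 2 (.l 8) (.l 8)) (.l 8)) (.l 8)) (.l 8)) (.l 8)))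
    [(137405399040, 3523215360), (7352984010752, 481036337152), (206158430208, 68719476736), (962072674304, 137438953472)] rfl (by decide +kernel)
theorem c1_m10_t38 : CovD 0 progs [(137405399040, 3523215360), (8315056685056, 481036337152), (206158430208, 68719476736), (962072674304, 137438953472)] :=
  Pool.Agent.helper14.QF.covD_F chks_eq (.n 2 (.n 2 (.n 1 (.n 2 (.n 1 (.l 1) (.l 1)) (.n 3 (.l 1) (.l 1))) (.n 2 (.n 3 (.l 1) (.l 1)) (.n 1 (.n 3 (.l 1) (.l 1)) (.n 3 (.l 1) (.l 1))))) (.n 2 (.n 1 (.n 1 (.n 3 (.l 1) (.l 1)) (.n 3 (.l 1) (.l 1))) (.n 0 (.l 8) (.l 8))) (.l 8))) (.n 0 (.l 8) (.l 8)))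
    [(137405399040, 3523215360), (8315056685056, 481036337152), (206158430208, 68719476736), (962072674304, 137438953472)] rfl (by decide +kernel)
end
theorem c1_m10_t5 : CovD 0 progs [(119789322240, 7046430720), (6390911336448, 481036337152), (206158430208, 68719476736), (962072674304, 137438953472)] :=
  covD_split 1 (by decide +kernel) c1_m10_t3 c1_m10_t4
theorem c1_m10_t6 : CovD 0 progs [(119789322240, 7046430720), (5909874999296, 962072674304), (206158430208, 68719476736), (962072674304, 137438953472)] :=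
  covD_split 1 (by decide +kernel) c1_m10_t2 c1_m10_t5
theorem c1_m10_t7 : CovD 0 progs [(119789322240, 7046430720), (5909874999296, 962072674304), (137438953472, 137438953472), (962072674304, 137438953472)] :=
  covD_split 2 (by decide +kernel) c1_m10_t1 c1_m10_t6
theorem c1_m10_t13 : CovD 0 progs [(119789322240, 7046430720), (8555574853632, 240518168576), (171798691840, 34359738368), (962072674304, 137438953472)] :=
  covD_split 0 (by decide +kernel) c1_m10_t11 c1_m10_t12
theorem c1_m10_t14 : CovD 0 progs [(119789322240, 7046430720), (8315056685056, 481036337152), (171798691840, 34359738368), (962072674304, 137438953472)] :=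
  covD_split 1 (by decide +kernel) c1_m10_t10 c1_m10_t13
theorem c1_m10_t15 : CovD 0 progs [(119789322240, 7046430720), (7834020347904, 962072674304), (171798691840, 34359738368), (962072674304, 137438953472)] :=
  covD_split 1 (by decide +kernel) c1_m10_t9 c1_m10_t14
theorem c1_m10_t18 : CovD 0 progs [(119789322240, 7046430720), (7834020347904, 962072674304), (223338299392, 17179869184), (962072674304, 137438953472)] :=
  covD_split 0 (by decide +kernel) c1_m10_t16 c1_m10_t17
theorem c1_m10_t20 : CovD 0 progs [(119789322240, 7046430720), (7834020347904, 962072674304), (240518168576, 34359738368), (962072674304, 137438953472)] :=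
  covD_split 2 (by decide +kernel) c1_m10_t18 c1_m10_t19
theorem c1_m10_t21 : CovD 0 progs [(119789322240, 7046430720), (7834020347904, 962072674304), (206158430208, 68719476736), (962072674304, 137438953472)] :=
  covD_split 2 (by decide +kernel) c1_m10_t15 c1_m10_t20
theorem c1_m10_t22 : CovD 0 progs [(119789322240, 7046430720), (7834020347904, 962072674304), (137438953472, 137438953472), (962072674304, 137438953472)] :=
  covD_split 2 (by decide +kernel) c1_m10_t8 c1_m10_t21
theorem c1_m10_t23 : CovD 0 progs [(119789322240, 7046430720), (6871947673600, 1924145348608), (137438953472, 137438953472), (962072674304, 137438953472)] :=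
  covD_split 1 (by decide +kernel) c1_m10_t7 c1_m10_t22
theorem c1_m10_t24 : CovD 0 progs [(119789322240, 7046430720), (4947802324992, 3848290697216), (137438953472, 137438953472), (962072674304, 137438953472)] :=
  covD_split 1 (by decide +kernel) c1_m10_t0 c1_m10_t23
theorem c1_m10_t30 : CovD 0 progs [(133882183680, 7046430720), (6390911336448, 481036337152), (206158430208, 68719476736), (962072674304, 137438953472)] :=
  covD_split 1 (by decide +kernel) c1_m10_t28 c1_m10_t29
theorem c1_m10_t31 : CovD 0 progs [(133882183680, 7046430720), (5909874999296, 962072674304), (206158430208, 68719476736), (962072674304, 137438953472)] :=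
  covD_split 1 (by decide +kernel) c1_m10_t27 c1_m10_t30
theorem c1_m10_t35 : CovD 0 progs [(130358968320, 3523215360), (8315056685056, 481036337152), (206158430208, 68719476736), (962072674304, 137438953472)] :=
  covD_split 1 (by decide +kernel) c1_m10_t33 c1_m10_t34
theorem c1_m10_t36 : CovD 0 progs [(130358968320, 3523215360), (7834020347904, 962072674304), (206158430208, 68719476736), (962072674304, 137438953472)] :=
  covD_split 1 (by decide +kernel) c1_m10_t32 c1_m10_t35
theorem c1_m10_t39 : CovD 0 progs [(137405399040, 3523215360), (7834020347904, 962072674304), (206158430208, 68719476736), (962072674304, 137438953472)] :=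
  covD_split 1 (by decide +kernel) c1_m10_t37 c1_m10_t38
theorem c1_m10_t40 : CovD 0 progs [(133882183680, 7046430720), (7834020347904, 962072674304), (206158430208, 68719476736), (962072674304, 137438953472)] :=
  covD_split 0 (by decide +kernel) c1_m10_t36 c1_m10_t39
theorem c1_m10_t41 : CovD 0 progs [(133882183680, 7046430720), (6871947673600, 1924145348608), (206158430208, 68719476736), (962072674304, 137438953472)] :=
  covD_split 1 (by decide +kernel) c1_m10_t31 c1_m10_t40
theorem c1_m10_t42 : CovD 0 progs [(133882183680, 7046430720), (6871947673600, 1924145348608), (137438953472, 137438953472), (962072674304, 137438953472)] :=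
  covD_split 2 (by decide +kernel) c1_m10_t26 c1_m10_t41
theorem c1_m10_t43 : CovD 0 progs [(133882183680, 7046430720), (4947802324992, 3848290697216), (137438953472, 137438953472), (962072674304, 137438953472)] :=
  covD_split 1 (by decide +kernel) c1_m10_t25 c1_m10_t42
theorem c1_m10 : CovD 0 progs [(126835752960, 14092861440), (4947802324992, 3848290697216), (137438953472, 137438953472), (962072674304, 137438953472)] :=
  covD_split 0 (by decide +kernel) c1_m10_t24 c1_m10_t43

end Pool.Agent.helper71.FJ.Crt.LMb
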