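import Pool.Agent.helper71.FJ.Crt.LMbP

/-!
Generated certificates.
-/

namespace Pool.Agent.helper71.FJ.Crt.LMb

open Pool.Agent.helper31.IA (Z Op)
open Pool.Agent.helper31.IC

mutual
theorem c1_m11_t0 : CovD 0 progs [(147975045120, 7046430720), (3023656976384, 1924145348608), (137438953472, 137438953472), (962072674304, 137438953472)] :=
  Pool.Agent.helper14.QF.covD_F chks_eq (.n 1 (.l 9) (.n 2 (.l 9) (.n 1 (.n 1 (.l 3) (.n 2 (.l 3) (.l 3))) (.n 1 (.n 2 (.l 3) (.n 1 (.l 3) (.l 4))) (.n 1 (.n 2 (.l 3) (.n 2 (.l 3) (.l 3))) (.n 2 (.l 3) (.n 2 (.l 3) (.l 3))))))))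
    [(147975045120, 7046430720), (3023656976384, 1924145348608), (137438953472, 137438953472), (962072674304, 137438953472)] rfl (by decide +kernel)
theorem c1_m11_t1 : CovD 0 progs [(147975045120, 7046430720), (6871947673600, 1924145348608), (34359738368, 34359738368), (962072674304, 137438953472)] :=
  Pool.Agent.helper14.QF.covD_F chks_eq (.l 9)
    [(147975045120, 7046430720), (6871947673600, 1924145348608), (34359738368, 34359738368), (962072674304, 137438953472)] rfl (by decide +kernel)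
end
mutual
theorem c1_m11_t2 : CovD 0 progs [(147975045120, 7046430720), (6871947673600, 1924145348608), (85899345920, 17179869184), (962072674304, 137438953472)] :=
  Pool.Agent.helper14.QF.covD_F chks_eq (.n 1 (.l 9) (.n 1 (.l 9) (.n 1 (.l 9) (.n 0 (.n 2 (.l 1) (.l 1)) (.l 10)))))
    [(147975045120, 7046430720), (6871947673600, 1924145348608), (85899345920, 17179869184), (962072674304, 137438953472)] rfl (by decide +kernel)
theorem c1_m11_t3 : CovD 0 progs [(147975045120, 7046430720), (6871947673600, 1924145348608), (120259084288, 17179869184), (962072674304, 137438953472)] :=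
  Pool.Agent.helper14.QF.covD_F chks_eq (.n 1 (.n 1 (.l 9) (.n 1 (.l 3) (.n 0 (.l 3) (.l 1)))) (.n 1 (.n 1 (.n 3 (.l 1) (.l 1)) (.n 0 (.n 2 (.l 1) (.l 1)) (.n 3 (.l 1) (.l 1)))) (.n 1 (.n 2 (.n 3 (.l 1) (.l 1)) (.n 3 (.l 1) (.l 1))) (.n 0 (.n 2 (.n 0 (.l 1) (.l 1)) (.n 3 (.l 1) (.l 1))) (.l 10)))))
    [(147975045120, 7046430720), (6871947673600, 1924145348608), (120259084288, 17179869184), (962072674304, 137438953472)] rfl (by decide +kernel)
end
mutual
theorem c1_m11_t6 : CovD 0 progs [(147975045120, 7046430720), (5428838662144, 481036337152), (206158430208, 68719476736), (893353197568, 68719476736)] :=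
  Pool.Agent.helper14.QF.covD_F chks_eq (.n 1 (.n 2 (.n 0 (.l 3) (.l 3)) (.n 2 (.l 3) (.n 0 (.l 3) (.l 3)))) (.n 2 (.n 2 (.l 3) (.l 3)) (.n 2 (.n 0 (.l 3) (.l 3)) (.n 2 (.n 0 (.l 3) (.l 3)) (.l 6)))))
    [(147975045120, 7046430720), (5428838662144, 481036337152), (206158430208, 68719476736), (893353197568, 68719476736)] rfl (by decide +kernel)
theorem c1_m11_t7 : CovD 0 progs [(147975045120, 7046430720), (6390911336448, 481036337152), (206158430208, 68719476736), (893353197568, 68719476736)] :=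
  Pool.Agent.helper14.QF.covD_F chks_eq (.n 1 (.n 2 (.n 2 (.l 3) (.n 0 (.l 3) (.l 3))) (.n 2 (.n 2 (.l 3) (.n 0 (.l 3) (.l 1))) (.l 8))) (.n 2 (.n 1 (.n 2 (.l 3) (.l 3)) (.n 2 (.l 3) (.n 0 (.l 1) (.l 1)))) (.n 2 (.n 2 (.n 0 (.l 1) (.l 1)) (.l 8)) (.l 8))))
    [(147975045120, 7046430720), (6390911336448, 481036337152), (206158430208, 68719476736), (893353197568, 68719476736)] rfl (by decide +kernel)
end
mutual
theorem c1_m11_t9 : CovD 0 progs [(147975045120, 7046430720), (7352984010752, 481036337152), (171798691840, 34359738368), (893353197568, 68719476736)] :=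
  Pool.Agent.helper14.QF.covD_F chks_eq (.n 1 (.n 2 (.n 2 (.l 1) (.l 1)) (.n 0 (.n 2 (.l 1) (.l 1)) (.n 2 (.l 1) (.l 8)))) (.n 2 (.n 2 (.l 1) (.n 0 (.l 1) (.l 1))) (.n 2 (.n 0 (.l 1) (.n 0 (.l 1) (.l 1))) (.l 8))))
    [(147975045120, 7046430720), (7352984010752, 481036337152), (171798691840, 34359738368), (893353197568, 68719476736)] rfl (by decide +kernel)
theorem c1_m11_t10 : CovD 0 progs [(147975045120, 7046430720), (8315056685056, 481036337152), (171798691840, 34359738368), (893353197568, 68719476736)] :=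
  Pool.Agent.helper14.QF.covD_F chks_eq (.n 0 (.n 1 (.n 2 (.n 2 (.l 1) (.l 1)) (.n 1 (.n 2 (.l 1) (.l 8)) (.l 8))) (.n 2 (.n 2 (.l 1) (.n 1 (.l 1) (.l 1))) (.l 8))) (.n 1 (.n 2 (.n 2 (.l 1) (.n 0 (.l 1) (.l 1))) (.l 8)) (.l 10)))
    [(147975045120, 7046430720), (8315056685056, 481036337152), (171798691840, 34359738368), (893353197568, 68719476736)] rfl (by decide +kernel)
end
mutual
theorem c1_m11_t12 : CovD 0 progs [(147975045120, 7046430720), (7834020347904, 962072674304), (240518168576, 34359738368), (893353197568, 68719476736)] :=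
  Pool.Agent.helper14.QF.covD_F chks_eq (.n 2 (.n 1 (.n 1 (.l 8) (.l 8)) (.l 8)) (.l 8))
    [(147975045120, 7046430720), (7834020347904, 962072674304), (240518168576, 34359738368), (893353197568, 68719476736)] rfl (by decide +kernel)
theorem c1_m11_t15 : CovD 0 progs [(147975045120, 7046430720), (5909874999296, 962072674304), (171798691840, 34359738368), (1030792151040, 68719476736)] :=
  Pool.Agent.helper14.QF.covD_F chks_eq (.n 1 (.n 1 (.n 0 (.l 1) (.l 1)) (.n 2 (.l 1) (.l 1))) (.n 1 (.n 2 (.l 1) (.n 0 (.l 1) (.l 1))) (.n 2 (.n 0 (.l 1) (.l 1)) (.n 2 (.l 1) (.n 0 (.l 1) (.l 1))))))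
    [(147975045120, 7046430720), (5909874999296, 962072674304), (171798691840, 34359738368), (1030792151040, 68719476736)] rfl (by decide +kernel)
end
mutual
theorem c1_m11_t16 : CovD 0 progs [(147975045120, 7046430720), (5909874999296, 962072674304), (240518168576, 34359738368), (1030792151040, 68719476736)] :=
  Pool.Agent.helper14.QF.covD_F chks_eq (.n 2 (.n 1 (.n 1 (.l 1) (.n 1 (.l 1) (.l 1))) (.n 1 (.n 0 (.n 1 (.l 1) (.l 1)) (.n 2 (.l 1) (.l 2))) (.n 2 (.n 0 (.l 1) (.l 8)) (.l 8)))) (.n 1 (.n 1 (.n 1 (.l 1) (.l 1)) (.n 2 (.n 0 (.l 1) (.l 1)) (.l 8))) (.n 1 (.l 8) (.l 8))))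
    [(147975045120, 7046430720), (5909874999296, 962072674304), (240518168576, 34359738368), (1030792151040, 68719476736)] rfl (by decide +kernel)
theorem c1_m11_t18 : CovD 0 progs [(147975045120, 7046430720), (7834020347904, 962072674304), (154618822656, 17179869184), (1030792151040, 68719476736)] :=
  Pool.Agent.helper14.QF.covD_F chks_eq (.n 1 (.n 1 (.n 2 (.l 1) (.l 1)) (.n 2 (.l 1) (.n 0 (.l 1) (.l 1)))) (.n 0 (.n 1 (.n 2 (.l 1) (.n 0 (.l 1) (.l 1))) (.n 2 (.n 0 (.l 1) (.l 1)) (.n 2 (.l 1) (.l 1)))) (.n 1 (.n 2 (.l 1) (.n 0 (.l 1) (.l 1))) (.l 10))))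
    [(147975045120, 7046430720), (7834020347904, 962072674304), (154618822656, 17179869184), (1030792151040, 68719476736)] rfl (by decide +kernel)
end
mutual
theorem c1_m11_t19 : CovD 0 progs [(147975045120, 7046430720), (7834020347904, 962072674304), (188978561024, 17179869184), (1030792151040, 68719476736)] :=
  Pool.Agent.helper14.QF.covD_F chks_eq (.n 1 (.n 1 (.n 0 (.n 1 (.l 1) (.n 0 (.l 1) (.l 1))) (.n 2 (.l 1) (.l 8))) (.n 2 (.n 0 (.n 0 (.l 1) (.l 1)) (.n 0 (.l 1) (.l 1))) (.l 8))) (.n 1 (.n 0 (.n 1 (.n 2 (.l 1) (.l 8)) (.l 8)) (.l 8)) (.l 8)))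
    [(147975045120, 7046430720), (7834020347904, 962072674304), (188978561024, 17179869184), (1030792151040, 68719476736)] rfl (by decide +kernel)
theorem c1_m11_t21 : CovD 0 progs [(147975045120, 7046430720), (7834020347904, 962072674304), (240518168576, 34359738368), (1030792151040, 68719476736)] :=
  Pool.Agent.helper14.QF.covD_F chks_eq (.n 2 (.n 1 (.n 1 (.l 8) (.l 8)) (.l 8)) (.l 8))
    [(147975045120, 7046430720), (7834020347904, 962072674304), (240518168576, 34359738368), (1030792151040, 68719476736)] rfl (by decide +kernel)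
end
mutual
theorem c1_m11_t27 : CovD 0 progs [(162067906560, 7046430720), (3023656976384, 1924145348608), (137438953472, 137438953472), (962072674304, 137438953472)] :=
  Pool.Agent.helper14.QF.covD_F chks_eq (.n 2 (.l 9) (.n 1 (.n 1 (.l 3) (.n 1 (.l 3) (.l 3))) (.n 1 (.n 1 (.n 0 (.l 3) (.l 3)) (.n 2 (.l 3) (.n 0 (.l 3) (.l 3)))) (.n 1 (.n 2 (.l 3) (.n 1 (.l 3) (.n 0 (.l 3) (.l 3)))) (.n 1 (.n 2 (.l 3) (.n 2 (.l 3) (.l 3))) (.n 2 (.l 3) (.n 2 (.l 3) (.n 0 (.l 3) (.l 3)))))))))
    [(162067906560, 7046430720), (3023656976384, 1924145348608), (137438953472, 137438953472), (962072674304, 137438953472)] rfl (by decide +kernel)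
theorem c1_m11_t28 : CovD 0 progs [(162067906560, 7046430720), (6871947673600, 1924145348608), (68719476736, 68719476736), (962072674304, 137438953472)] :=
  Pool.Agent.helper14.QF.covD_F chks_eq (.n 2 (.l 9) (.n 1 (.n 2 (.l 9) (.n 1 (.n 1 (.l 3) (.l 3)) (.n 1 (.l 1) (.n 1 (.l 1) (.l 1))))) (.n 1 (.n 1 (.n 2 (.l 9) (.n 0 (.n 1 (.l 1) (.l 1)) (.n 2 (.l 1) (.l 1)))) (.n 2 (.n 3 (.l 1) (.l 1)) (.n 2 (.n 0 (.l 1) (.l 1)) (.n 3 (.l 1) (.l 1))))) (.n 0 (.l 10) (.l 10)))))
    [(162067906560, 7046430720), (6871947673600, 1924145348608), (68719476736, 68719476736), (962072674304, 137438953472)] rfl (by decide +kernel)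
end
mutual
theorem c1_m11_t29 : CovD 0 progs [(162067906560, 7046430720), (5428838662144, 481036337152), (206158430208, 68719476736), (962072674304, 137438953472)] :=
  Pool.Agent.helper14.QF.covD_F chks_eq (.n 1 (.n 2 (.n 2 (.l 3) (.n 0 (.l 3) (.l 3))) (.n 2 (.n 1 (.l 3) (.n 0 (.l 3) (.l 1))) (.n 2 (.n 1 (.l 3) (.l 8)) (.l 8)))) (.n 2 (.n 1 (.n 2 (.l 3) (.l 3)) (.n 2 (.l 3) (.n 0 (.l 1) (.l 1)))) (.n 2 (.n 1 (.n 3 (.l 1) (.l 1)) (.n 2 (.n 0 (.l 1) (.l 1)) (.l 8))) (.l 8))))
    [(162067906560, 7046430720), (5428838662144, 481036337152), (206158430208, 68719476736), (962072674304, 137438953472)] rfl (by decide +kernel)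
theorem c1_m11_t30 : CovD 0 progs [(162067906560, 7046430720), (6390911336448, 481036337152), (206158430208, 68719476736), (962072674304, 137438953472)] :=
  Pool.Agent.helper14.QF.covD_F chks_eq (.n 2 (.n 1 (.n 3 (.n 2 (.l 1) (.n 1 (.l 1) (.l 1))) (.n 2 (.l 1) (.n 2 (.l 1) (.l 2)))) (.n 2 (.n 0 (.n 3 (.l 1) (.l 1)) (.n 3 (.l 1) (.l 1))) (.n 2 (.n 3 (.l 1) (.n 0 (.l 1) (.l 1))) (.n 0 (.n 1 (.l 1) (.l 8)) (.l 8))))) (.n 2 (.n 1 (.n 0 (.n 1 (.n 2 (.l 1) (.l 8)) (.l 8)) (.l 8)) (.l 8)) (.l 8)))
    [(162067906560, 7046430720), (6390911336448, 481036337152), (206158430208, 68719476736), (962072674304, 137438953472)] rfl (by decide +kernel)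
theorem c1_m11_t32 : CovD 0 progs [(162067906560, 7046430720), (7834020347904, 962072674304), (206158430208, 68719476736), (962072674304, 137438953472)] :=
  Pool.Agent.helper14.QF.covD_F chks_eq (.n 1 (.n 2 (.n 2 (.n 1 (.n 2 (.n 3 (.l 1) (.l 1)) (.n 0 (.n 1 (.l 1) (.l 1)) (.n 3 (.l 1) (.l 1)))) (.n 0 (.n 2 (.n 3 (.l 1) (.l 1)) (.n 3 (.l 1) (.n 0 (.l 1) (.l 1)))) (.n 0 (.n 1 (.n 2 (.l 1) (.l 1)) (.l 10)) (.l 10)))) (.n 2 (.n 1 (.n 2 (.n 3 (.l 1) (.l 1)) (.l 8)) (.l 8)) (.l 8))) (.n 0 (.l 8) (.l 8))) (.n 0 (.l 10) (.l 10)))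
    [(162067906560, 7046430720), (7834020347904, 962072674304), (206158430208, 68719476736), (962072674304, 137438953472)] rfl (by decide +kernel)
end
theorem c1_m11_t4 : CovD 0 progs [(147975045120, 7046430720), (6871947673600, 1924145348608), (103079215104, 34359738368), (962072674304, 137438953472)] :=
  covD_split 2 (by decide +kernel) c1_m11_t2 c1_m11_t3
theorem c1_m11_t5 : CovD 0 progs [(147975045120, 7046430720), (6871947673600, 1924145348608), (68719476736, 68719476736), (962072674304, 137438953472)] :=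
  covD_split 2 (by decide +kernel) c1_m11_t1 c1_m11_t4
theorem c1_m11_t8 : CovD 0 progs [(147975045120, 7046430720), (5909874999296, 962072674304), (206158430208, 68719476736), (893353197568, 68719476736)] :=
  covD_split 1 (by decide +kernel) c1_m11_t6 c1_m11_t7
theorem c1_m11_t11 : CovD 0 progs [(147975045120, 7046430720), (7834020347904, 962072674304), (171798691840, 34359738368), (893353197568, 68719476736)] :=
  covD_split 1 (by decide +kernel) c1_m11_t9 c1_m11_t10
theorem c1_m11_t13 : CovD 0 progs [(147975045120, 7046430720), (7834020347904, 962072674304), (206158430208, 68719476736), (893353197568, 68719476736)] :=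
  covD_split 2 (by decide +kernel) c1_m11_t11 c1_m11_t12
theorem c1_m11_t14 : CovD 0 progs [(147975045120, 7046430720), (6871947673600, 1924145348608), (206158430208, 68719476736), (893353197568, 68719476736)] :=
  covD_split 1 (by decide +kernel) c1_m11_t8 c1_m11_t13
theorem c1_m11_t17 : CovD 0 progs [(147975045120, 7046430720), (5909874999296, 962072674304), (206158430208, 68719476736), (1030792151040, 68719476736)] :=
  covD_split 2 (by decide +kernel) c1_m11_t15 c1_m11_t16
theorem c1_m11_t20 : CovD 0 progs [(147975045120, 7046430720), (7834020347904, 962072674304), (171798691840, 34359738368), (1030792151040, 68719476736)] :=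
  covD_split 2 (by decide +kernel) c1_m11_t18 c1_m11_t19
theorem c1_m11_t22 : CovD 0 progs [(147975045120, 7046430720), (7834020347904, 962072674304), (206158430208, 68719476736), (1030792151040, 68719476736)] :=
  covD_split 2 (by decide +kernel) c1_m11_t20 c1_m11_t21
theorem c1_m11_t23 : CovD 0 progs [(147975045120, 7046430720), (6871947673600, 1924145348608), (206158430208, 68719476736), (1030792151040, 68719476736)] :=
  covD_split 1 (by decide +kernel) c1_m11_t17 c1_m11_t22
theorem c1_m11_t24 : CovD 0 progs [(147975045120, 7046430720), (6871947673600, 1924145348608), (206158430208, 68719476736), (962072674304, 137438953472)] :=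
  covD_split 3 (by decide +kernel) c1_m11_t14 c1_m11_t23
theorem c1_m11_t25 : CovD 0 progs [(147975045120, 7046430720), (6871947673600, 1924145348608), (137438953472, 137438953472), (962072674304, 137438953472)] :=
  covD_split 2 (by decide +kernel) c1_m11_t5 c1_m11_t24
theorem c1_m11_t26 : CovD 0 progs [(147975045120, 7046430720), (4947802324992, 3848290697216), (137438953472, 137438953472), (962072674304, 137438953472)] :=
  covD_split 1 (by decide +kernel) c1_m11_t0 c1_m11_t25
theorem c1_m11_t31 : CovD 0 progs [(162067906560, 7046430720), (5909874999296, 962072674304), (206158430208, 68719476736), (962072674304, 137438953472)] :=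
  covD_split 1 (by decide +kernel) c1_m11_t29 c1_m11_t30
theorem c1_m11_t33 : CovD 0 progs [(162067906560, 7046430720), (6871947673600, 1924145348608), (206158430208, 68719476736), (962072674304, 137438953472)] :=
  covD_split 1 (by decide +kernel) c1_m11_t31 c1_m11_t32
theorem c1_m11_t34 : CovD 0 progs [(162067906560, 7046430720), (6871947673600, 1924145348608), (137438953472, 137438953472), (962072674304, 137438953472)] :=
  covD_split 2 (by decide +kernel) c1_m11_t28 c1_m11_t33
theorem c1_m11_t35 : CovD 0 progs [(162067906560, 7046430720), (4947802324992, 3848290697216), (137438953472, 137438953472), (962072674304, 137438953472)] :=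
  covD_split 1 (by decide +kernel) c1_m11_t27 c1_m11_t34
theorem c1_m11 : CovD 0 progs [(155021475840, 14092861440), (4947802324992, 3848290697216), (137438953472, 137438953472), (962072674304, 137438953472)] :=
  covD_split 0 (by decide +kernel) c1_m11_t26 c1_m11_t35

end Pool.Agent.helper71.FJ.Crt.LMb
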