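import Pool.Agent.helper71.FJ.Crt.LMbP

/-!
Generated certificates.
-/

namespace Pool.Agent.helper71.FJ.Crt.LMb

open Pool.Agent.helper31.IA (Z Op)
open Pool.Agent.helper31.IC

mutual
theorem c1_m12_t0 : CovD 0 progs [(197300060160, 28185722880), (2061584302080, 962072674304), (137438953472, 137438953472), (962072674304, 137438953472)] :=
  Pool.Agent.helper14.QF.covD_F chks_eq (.n 1 (.l 9) (.n 2 (.l 9) (.n 0 (.n 1 (.l 3) (.l 3)) (.n 1 (.l 3) (.n 1 (.l 3) (.l 3))))))
    [(197300060160, 28185722880), (2061584302080, 962072674304), (137438953472, 137438953472), (962072674304, 137438953472)] rfl (by decide +kernel)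
theorem c1_m12_t1 : CovD 0 progs [(183207198720, 14092861440), (3985729650688, 962072674304), (68719476736, 68719476736), (962072674304, 137438953472)] :=
  Pool.Agent.helper14.QF.covD_F chks_eq (.n 0 (.l 9) (.n 1 (.l 9) (.n 1 (.l 9) (.n 2 (.l 1) (.l 1)))))
    [(183207198720, 14092861440), (3985729650688, 962072674304), (68719476736, 68719476736), (962072674304, 137438953472)] rfl (by decide +kernel)
end
mutual
theorem c1_m12_t2 : CovD 0 progs [(183207198720, 14092861440), (3504693313536, 481036337152), (206158430208, 68719476736), (962072674304, 137438953472)] :=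
  Pool.Agent.helper14.QF.covD_F chks_eq (.n 1 (.n 1 (.l 3) (.n 2 (.l 3) (.l 3))) (.n 2 (.l 3) (.n 1 (.l 3) (.n 0 (.l 3) (.l 3)))))
    [(183207198720, 14092861440), (3504693313536, 481036337152), (206158430208, 68719476736), (962072674304, 137438953472)] rfl (by decide +kernel)
theorem c1_m12_t3 : CovD 0 progs [(183207198720, 14092861440), (4466765987840, 481036337152), (206158430208, 68719476736), (962072674304, 137438953472)] :=
  Pool.Agent.helper14.QF.covD_F chks_eq (.n 1 (.n 2 (.n 2 (.l 3) (.l 4)) (.n 1 (.n 2 (.l 3) (.n 0 (.l 3) (.l 2))) (.n 2 (.l 3) (.n 0 (.l 3) (.l 1))))) (.n 2 (.n 2 (.n 0 (.l 3) (.l 1)) (.n 3 (.l 3) (.l 1))) (.n 2 (.n 1 (.n 0 (.l 3) (.l 1)) (.n 3 (.l 1) (.l 1))) (.n 0 (.n 2 (.n 1 (.l 3) (.l 1)) (.l 8)) (.n 0 (.l 8) (.l 8))))))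
    [(183207198720, 14092861440), (4466765987840, 481036337152), (206158430208, 68719476736), (962072674304, 137438953472)] rfl (by decide +kernel)
end
mutual
theorem c1_m12_t6 : CovD 0 progs [(211392921600, 14092861440), (3504693313536, 481036337152), (137438953472, 137438953472), (962072674304, 137438953472)] :=
  Pool.Agent.helper14.QF.covD_F chks_eq (.n 2 (.l 9) (.n 1 (.n 2 (.l 3) (.n 1 (.l 3) (.l 3))) (.n 1 (.n 2 (.l 2) (.n 0 (.l 2) (.l 2))) (.n 2 (.l 2) (.n 2 (.l 2) (.n 0 (.l 1) (.l 1)))))))
    [(211392921600, 14092861440), (3504693313536, 481036337152), (137438953472, 137438953472), (962072674304, 137438953472)] rfl (by decide +kernel)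
theorem c1_m12_t7 : CovD 0 progs [(211392921600, 14092861440), (4466765987840, 481036337152), (68719476736, 68719476736), (962072674304, 137438953472)] :=
  Pool.Agent.helper14.QF.covD_F chks_eq (.n 2 (.l 9) (.n 1 (.l 2) (.n 1 (.l 1) (.l 1))))
    [(211392921600, 14092861440), (4466765987840, 481036337152), (68719476736, 68719476736), (962072674304, 137438953472)] rfl (by decide +kernel)
end
mutual
theorem c1_m12_t8 : CovD 0 progs [(211392921600, 14092861440), (4466765987840, 481036337152), (206158430208, 68719476736), (962072674304, 137438953472)] :=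
  Pool.Agent.helper14.QF.covD_F chks_eq (.n 1 (.n 2 (.n 2 (.l 2) (.n 0 (.l 1) (.l 1))) (.n 1 (.n 2 (.l 1) (.n 0 (.l 1) (.l 1))) (.n 2 (.n 0 (.l 1) (.l 1)) (.l 8)))) (.n 2 (.n 0 (.n 2 (.l 1) (.n 1 (.l 1) (.l 1))) (.n 2 (.l 1) (.n 1 (.l 1) (.l 1)))) (.n 2 (.n 0 (.n 1 (.l 1) (.n 0 (.l 1) (.l 1))) (.n 2 (.l 8) (.l 8))) (.l 8))))
    [(211392921600, 14092861440), (4466765987840, 481036337152), (206158430208, 68719476736), (962072674304, 137438953472)] rfl (by decide +kernel)
theorem c1_m12_t13 : CovD 0 progs [(197300060160, 28185722880), (5909874999296, 962072674304), (34359738368, 34359738368), (962072674304, 137438953472)] :=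
  Pool.Agent.helper14.QF.covD_F chks_eq (.l 9)
    [(197300060160, 28185722880), (5909874999296, 962072674304), (34359738368, 34359738368), (962072674304, 137438953472)] rfl (by decide +kernel)
end
mutual
theorem c1_m12_t14 : CovD 0 progs [(183207198720, 14092861440), (5909874999296, 962072674304), (103079215104, 34359738368), (962072674304, 137438953472)] :=
  Pool.Agent.helper14.QF.covD_F chks_eq (.n 0 (.n 2 (.l 9) (.n 1 (.n 1 (.l 3) (.l 1)) (.n 1 (.n 0 (.l 1) (.l 1)) (.n 3 (.l 1) (.l 1))))) (.n 1 (.n 2 (.l 9) (.n 1 (.l 1) (.l 1))) (.n 1 (.n 2 (.l 1) (.n 1 (.l 1) (.l 1))) (.n 0 (.n 1 (.n 2 (.l 1) (.l 1)) (.l 10)) (.l 10)))))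
    [(183207198720, 14092861440), (5909874999296, 962072674304), (103079215104, 34359738368), (962072674304, 137438953472)] rfl (by decide +kernel)
theorem c1_m12_t15 : CovD 0 progs [(211392921600, 14092861440), (5909874999296, 962072674304), (103079215104, 34359738368), (962072674304, 137438953472)] :=
  Pool.Agent.helper14.QF.covD_F chks_eq (.n 0 (.n 1 (.n 2 (.l 9) (.n 1 (.l 1) (.n 0 (.l 1) (.l 1)))) (.n 1 (.n 1 (.n 2 (.l 1) (.l 1)) (.l 10)) (.l 10))) (.n 1 (.n 1 (.n 2 (.l 1) (.l 1)) (.n 2 (.l 1) (.n 1 (.l 1) (.l 1)))) (.l 10)))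
    [(211392921600, 14092861440), (5909874999296, 962072674304), (103079215104, 34359738368), (962072674304, 137438953472)] rfl (by decide +kernel)
end
mutual
theorem c1_m12_t18 : CovD 0 progs [(183207198720, 14092861440), (5188320493568, 240518168576), (206158430208, 68719476736), (962072674304, 137438953472)] :=
  Pool.Agent.helper14.QF.covD_F chks_eq (.n 0 (.n 2 (.n 2 (.l 3) (.n 1 (.l 1) (.l 1))) (.n 2 (.n 0 (.n 3 (.l 1) (.l 1)) (.n 2 (.l 1) (.l 8))) (.l 8))) (.n 2 (.n 2 (.n 0 (.l 1) (.l 1)) (.n 3 (.l 1) (.l 1))) (.n 2 (.n 1 (.n 0 (.l 1) (.l 8)) (.l 8)) (.l 8))))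
    [(183207198720, 14092861440), (5188320493568, 240518168576), (206158430208, 68719476736), (962072674304, 137438953472)] rfl (by decide +kernel)
theorem c1_m12_t19 : CovD 0 progs [(211392921600, 14092861440), (5188320493568, 240518168576), (206158430208, 68719476736), (962072674304, 137438953472)] :=
  Pool.Agent.helper14.QF.covD_F chks_eq (.n 0 (.n 2 (.n 1 (.n 2 (.l 1) (.l 1)) (.n 2 (.l 1) (.n 2 (.l 1) (.l 1)))) (.n 2 (.l 8) (.l 8))) (.n 2 (.n 2 (.n 1 (.l 1) (.l 1)) (.n 2 (.n 0 (.l 1) (.l 1)) (.l 8))) (.l 8)))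
    [(211392921600, 14092861440), (5188320493568, 240518168576), (206158430208, 68719476736), (962072674304, 137438953472)] rfl (by decide +kernel)
end
mutual
theorem c1_m12_t21 : CovD 0 progs [(183207198720, 14092861440), (5669356830720, 240518168576), (206158430208, 68719476736), (962072674304, 137438953472)] :=
  Pool.Agent.helper14.QF.covD_F chks_eq (.n 2 (.n 0 (.n 1 (.n 2 (.l 1) (.n 0 (.l 1) (.l 1))) (.n 2 (.l 1) (.n 2 (.l 1) (.l 1)))) (.n 2 (.n 3 (.l 1) (.l 1)) (.n 1 (.n 2 (.l 1) (.l 1)) (.n 2 (.l 1) (.l 8))))) (.n 2 (.n 0 (.n 1 (.n 2 (.l 1) (.l 8)) (.l 8)) (.l 8)) (.l 8)))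
    [(183207198720, 14092861440), (5669356830720, 240518168576), (206158430208, 68719476736), (962072674304, 137438953472)] rfl (by decide +kernel)
theorem c1_m12_t22 : CovD 0 progs [(211392921600, 14092861440), (5669356830720, 240518168576), (206158430208, 68719476736), (962072674304, 137438953472)] :=
  Pool.Agent.helper14.QF.covD_F chks_eq (.n 2 (.n 2 (.n 2 (.n 3 (.l 1) (.l 1)) (.n 0 (.n 0 (.l 1) (.l 1)) (.n 1 (.l 1) (.l 1)))) (.n 2 (.n 0 (.n 1 (.l 1) (.l 8)) (.l 8)) (.l 8))) (.n 0 (.l 8) (.l 8)))
    [(211392921600, 14092861440), (5669356830720, 240518168576), (206158430208, 68719476736), (962072674304, 137438953472)] rfl (by decide +kernel)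
end
mutual
theorem c1_m12_t25 : CovD 0 progs [(183207198720, 14092861440), (6150393167872, 240518168576), (206158430208, 68719476736), (962072674304, 137438953472)] :=
  Pool.Agent.helper14.QF.covD_F chks_eq (.n 2 (.n 2 (.n 2 (.n 3 (.l 1) (.n 0 (.l 1) (.l 1))) (.n 0 (.n 0 (.l 1) (.l 1)) (.n 1 (.l 1) (.l 1)))) (.n 2 (.n 0 (.n 3 (.l 1) (.l 1)) (.n 0 (.n 1 (.l 1) (.l 1)) (.l 8))) (.n 0 (.n 0 (.n 1 (.l 1) (.l 1)) (.l 8)) (.l 8)))) (.n 0 (.n 2 (.l 8) (.l 8)) (.l 8)))
    [(183207198720, 14092861440), (6150393167872, 240518168576), (206158430208, 68719476736), (962072674304, 137438953472)] rfl (by decide +kernel)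
theorem c1_m12_t26 : CovD 0 progs [(211392921600, 14092861440), (6150393167872, 240518168576), (206158430208, 68719476736), (962072674304, 137438953472)] :=
  Pool.Agent.helper14.QF.covD_F chks_eq (.n 0 (.n 1 (.n 2 (.n 2 (.n 2 (.l 1) (.l 1)) (.l 8)) (.l 8)) (.l 10)) (.l 10))
    [(211392921600, 14092861440), (6150393167872, 240518168576), (206158430208, 68719476736), (962072674304, 137438953472)] rfl (by decide +kernel)
end
mutual
theorem c1_m12_t28 : CovD 0 progs [(197300060160, 28185722880), (6631429505024, 240518168576), (206158430208, 68719476736), (962072674304, 137438953472)] :=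
  Pool.Agent.helper14.QF.covD_F chks_eq (.n 0 (.n 0 (.n 2 (.n 2 (.n 2 (.n 1 (.l 1) (.l 1)) (.n 3 (.l 1) (.l 1))) (.n 2 (.n 0 (.n 1 (.l 1) (.l 8)) (.l 8)) (.l 8))) (.l 8)) (.n 0 (.n 1 (.n 2 (.n 2 (.n 2 (.l 1) (.l 1)) (.l 8)) (.l 8)) (.l 10)) (.l 10))) (.l 10))
    [(197300060160, 28185722880), (6631429505024, 240518168576), (206158430208, 68719476736), (962072674304, 137438953472)] rfl (by decide +kernel)
theorem c1_m12_t32 : CovD 0 progs [(197300060160, 28185722880), (7834020347904, 962072674304), (137438953472, 137438953472), (962072674304, 137438953472)] :=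
  Pool.Agent.helper14.QF.covD_F chks_eq (.n 0 (.n 0 (.n 0 (.n 1 (.n 1 (.n 2 (.n 2 (.l 9) (.n 2 (.n 0 (.l 1) (.l 1)) (.n 3 (.l 1) (.l 1)))) (.n 2 (.n 2 (.n 2 (.n 1 (.l 1) (.l 1)) (.n 3 (.l 1) (.l 1))) (.l 8)) (.l 8))) (.l 10)) (.l 10)) (.n 0 (.n 0 (.n 0 (.l 10) (.l 10)) (.l 10)) (.l 10))) (.l 10)) (.l 10))
    [(197300060160, 28185722880), (7834020347904, 962072674304), (137438953472, 137438953472), (962072674304, 137438953472)] rfl (by decide +kernel)
end
theorem c1_m12_t4 : CovD 0 progs [(183207198720, 14092861440), (3985729650688, 962072674304), (206158430208, 68719476736), (962072674304, 137438953472)] :=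
  covD_split 1 (by decide +kernel) c1_m12_t2 c1_m12_t3
theorem c1_m12_t5 : CovD 0 progs [(183207198720, 14092861440), (3985729650688, 962072674304), (137438953472, 137438953472), (962072674304, 137438953472)] :=
  covD_split 2 (by decide +kernel) c1_m12_t1 c1_m12_t4
theorem c1_m12_t9 : CovD 0 progs [(211392921600, 14092861440), (4466765987840, 481036337152), (137438953472, 137438953472), (962072674304, 137438953472)] :=
  covD_split 2 (by decide +kernel) c1_m12_t7 c1_m12_t8
theorem c1_m12_t10 : CovD 0 progs [(211392921600, 14092861440), (3985729650688, 962072674304), (137438953472, 137438953472), (962072674304, 137438953472)] :=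
  covD_split 1 (by decide +kernel) c1_m12_t6 c1_m12_t9
theorem c1_m12_t11 : CovD 0 progs [(197300060160, 28185722880), (3985729650688, 962072674304), (137438953472, 137438953472), (962072674304, 137438953472)] :=
  covD_split 0 (by decide +kernel) c1_m12_t5 c1_m12_t10
theorem c1_m12_t12 : CovD 0 progs [(197300060160, 28185722880), (3023656976384, 1924145348608), (137438953472, 137438953472), (962072674304, 137438953472)] :=
  covD_split 1 (by decide +kernel) c1_m12_t0 c1_m12_t11
theorem c1_m12_t16 : CovD 0 progs [(197300060160, 28185722880), (5909874999296, 962072674304), (103079215104, 34359738368), (962072674304, 137438953472)] :=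
  covD_split 0 (by decide +kernel) c1_m12_t14 c1_m12_t15
theorem c1_m12_t17 : CovD 0 progs [(197300060160, 28185722880), (5909874999296, 962072674304), (68719476736, 68719476736), (962072674304, 137438953472)] :=
  covD_split 2 (by decide +kernel) c1_m12_t13 c1_m12_t16
theorem c1_m12_t20 : CovD 0 progs [(197300060160, 28185722880), (5188320493568, 240518168576), (206158430208, 68719476736), (962072674304, 137438953472)] :=
  covD_split 0 (by decide +kernel) c1_m12_t18 c1_m12_t19
theorem c1_m12_t23 : CovD 0 progs [(197300060160, 28185722880), (5669356830720, 240518168576), (206158430208, 68719476736), (962072674304, 137438953472)] :=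
  covD_split 0 (by decide +kernel) c1_m12_t21 c1_m12_t22
theorem c1_m12_t24 : CovD 0 progs [(197300060160, 28185722880), (5428838662144, 481036337152), (206158430208, 68719476736), (962072674304, 137438953472)] :=
  covD_split 1 (by decide +kernel) c1_m12_t20 c1_m12_t23
theorem c1_m12_t27 : CovD 0 progs [(197300060160, 28185722880), (6150393167872, 240518168576), (206158430208, 68719476736), (962072674304, 137438953472)] :=
  covD_split 0 (by decide +kernel) c1_m12_t25 c1_m12_t26
theorem c1_m12_t29 : CovD 0 progs [(197300060160, 28185722880), (6390911336448, 481036337152), (206158430208, 68719476736), (962072674304, 137438953472)] :=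
  covD_split 1 (by decide +kernel) c1_m12_t27 c1_m12_t28
theorem c1_m12_t30 : CovD 0 progs [(197300060160, 28185722880), (5909874999296, 962072674304), (206158430208, 68719476736), (962072674304, 137438953472)] :=
  covD_split 1 (by decide +kernel) c1_m12_t24 c1_m12_t29
theorem c1_m12_t31 : CovD 0 progs [(197300060160, 28185722880), (5909874999296, 962072674304), (137438953472, 137438953472), (962072674304, 137438953472)] :=
  covD_split 2 (by decide +kernel) c1_m12_t17 c1_m12_t30
theorem c1_m12_t33 : CovD 0 progs [(197300060160, 28185722880), (6871947673600, 1924145348608), (137438953472, 137438953472), (962072674304, 137438953472)] :=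
  covD_split 1 (by decide +kernel) c1_m12_t31 c1_m12_t32
theorem c1_m12 : CovD 0 progs [(197300060160, 28185722880), (4947802324992, 3848290697216), (137438953472, 137438953472), (962072674304, 137438953472)] :=
  covD_split 1 (by decide +kernel) c1_m12_t12 c1_m12_t33

end Pool.Agent.helper71.FJ.Crt.LMb
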