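import Pool.Agent.helper71.FJ.Crt.LMbP

/-!
Generated certificates.
-/

namespace Pool.Agent.helper71.FJ.Crt.LMb

open Pool.Agent.helper31.IA (Z Op)
open Pool.Agent.helper31.IC

mutual
theorem c1_m14_t0 : CovD 0 progs [(28185722880, 28185722880), (3023656976384, 1924145348608), (412316860416, 137438953472), (962072674304, 137438953472)] :=
  Pool.Agent.helper14.QF.covD_F chks_eq (.n 1 (.l 9) (.n 1 (.l 9) (.n 2 (.l 9) (.n 2 (.l 7) (.l 7)))))
    [(28185722880, 28185722880), (3023656976384, 1924145348608), (412316860416, 137438953472), (962072674304, 137438953472)] rfl (by decide +kernel)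
theorem c1_m14_t1 : CovD 0 progs [(14092861440, 14092861440), (6871947673600, 1924145348608), (412316860416, 137438953472), (962072674304, 137438953472)] :=
  Pool.Agent.helper14.QF.covD_F chks_eq (.n 0 (.l 9) (.n 1 (.l 9) (.n 2 (.l 9) (.l 7))))
    [(14092861440, 14092861440), (6871947673600, 1924145348608), (412316860416, 137438953472), (962072674304, 137438953472)] rfl (by decide +kernel)
end
mutual
theorem c1_m14_t2 : CovD 0 progs [(42278584320, 14092861440), (6871947673600, 1924145348608), (412316860416, 137438953472), (962072674304, 137438953472)] :=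
  Pool.Agent.helper14.QF.covD_F chks_eq (.n 1 (.n 2 (.n 2 (.n 1 (.l 9) (.n 2 (.l 9) (.n 2 (.l 9) (.l 7)))) (.n 0 (.l 7) (.n 1 (.l 7) (.l 7)))) (.n 2 (.l 7) (.l 7))) (.n 0 (.n 2 (.n 2 (.l 9) (.l 7)) (.n 0 (.l 7) (.l 7))) (.n 2 (.n 2 (.n 3 (.l 7) (.n 1 (.n 3 (.l 7) (.l 5)) (.l 5))) (.n 0 (.l 7) (.l 7))) (.n 2 (.l 7) (.n 0 (.l 7) (.l 7))))))
    [(42278584320, 14092861440), (6871947673600, 1924145348608), (412316860416, 137438953472), (962072674304, 137438953472)] rfl (by decide +kernel)
theorem c1_m14_t5 : CovD 0 progs [(70464307200, 14092861440), (2061584302080, 962072674304), (412316860416, 137438953472), (962072674304, 137438953472)] :=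
  Pool.Agent.helper14.QF.covD_F chks_eq (.n 0 (.l 9) (.n 1 (.l 9) (.n 1 (.l 9) (.n 2 (.l 3) (.l 6)))))
    [(70464307200, 14092861440), (2061584302080, 962072674304), (412316860416, 137438953472), (962072674304, 137438953472)] rfl (by decide +kernel)
end
mutual
theorem c1_m14_t6 : CovD 0 progs [(70464307200, 14092861440), (3985729650688, 962072674304), (412316860416, 137438953472), (962072674304, 137438953472)] :=
  Pool.Agent.helper14.QF.covD_F chks_eq (.n 1 (.n 2 (.n 1 (.l 9) (.n 2 (.l 9) (.l 6))) (.n 2 (.n 1 (.l 6) (.n 2 (.l 6) (.l 7))) (.l 7))) (.n 2 (.n 0 (.n 2 (.l 9) (.n 2 (.l 6) (.l 7))) (.n 2 (.n 2 (.l 9) (.l 6)) (.n 3 (.l 7) (.n 1 (.l 6) (.n 2 (.l 6) (.l 6)))))) (.n 2 (.n 0 (.l 7) (.n 1 (.l 7) (.l 7))) (.l 7))))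
    [(70464307200, 14092861440), (3985729650688, 962072674304), (412316860416, 137438953472), (962072674304, 137438953472)] rfl (by decide +kernel)
theorem c1_m14_t8 : CovD 0 progs [(70464307200, 14092861440), (5909874999296, 962072674304), (343597383680, 68719476736), (962072674304, 137438953472)] :=
  Pool.Agent.helper14.QF.covD_F chks_eq (.n 2 (.n 2 (.n 1 (.n 0 (.l 6) (.n 0 (.l 6) (.l 6))) (.n 2 (.n 0 (.l 6) (.n 1 (.l 6) (.l 6))) (.n 3 (.l 7) (.n 1 (.l 6) (.l 5))))) (.n 3 (.l 7) (.n 1 (.n 0 (.l 6) (.n 1 (.l 6) (.l 6))) (.n 1 (.n 2 (.l 5) (.l 5)) (.l 5))))) (.n 3 (.l 7) (.n 1 (.n 1 (.n 2 (.n 0 (.l 6) (.l 6)) (.l 5)) (.n 3 (.l 7) (.l 5))) (.n 1 (.l 5) (.l 5)))))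
    [(70464307200, 14092861440), (5909874999296, 962072674304), (343597383680, 68719476736), (962072674304, 137438953472)] rfl (by decide +kernel)
end
mutual
theorem c1_m14_t9 : CovD 0 progs [(70464307200, 14092861440), (5909874999296, 962072674304), (481036337152, 68719476736), (962072674304, 137438953472)] :=
  Pool.Agent.helper14.QF.covD_F chks_eq (.n 2 (.n 3 (.l 7) (.n 0 (.l 7) (.n 1 (.l 7) (.l 5)))) (.n 0 (.l 7) (.n 1 (.l 7) (.n 0 (.l 7) (.l 8)))))
    [(70464307200, 14092861440), (5909874999296, 962072674304), (481036337152, 68719476736), (962072674304, 137438953472)] rfl (by decide +kernel)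
theorem c1_m14_t11 : CovD 0 progs [(70464307200, 14092861440), (7352984010752, 481036337152), (412316860416, 137438953472), (962072674304, 137438953472)] :=
  Pool.Agent.helper14.QF.covD_F chks_eq (.n 3 (.n 0 (.n 2 (.l 7) (.l 7)) (.n 2 (.n 2 (.l 7) (.l 7)) (.n 2 (.l 7) (.l 7)))) (.n 2 (.n 2 (.n 2 (.n 1 (.l 5) (.l 5)) (.l 5)) (.n 1 (.l 5) (.l 5))) (.n 2 (.n 1 (.l 5) (.l 5)) (.n 0 (.l 5) (.l 8)))))
    [(70464307200, 14092861440), (7352984010752, 481036337152), (412316860416, 137438953472), (962072674304, 137438953472)] rfl (by decide +kernel)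
end
mutual
theorem c1_m14_t12 : CovD 0 progs [(70464307200, 14092861440), (8315056685056, 481036337152), (412316860416, 137438953472), (962072674304, 137438953472)] :=
  Pool.Agent.helper14.QF.covD_F chks_eq (.n 2 (.n 2 (.n 2 (.n 3 (.n 0 (.l 7) (.l 7)) (.l 5)) (.n 3 (.l 5) (.l 5))) (.n 1 (.n 2 (.l 5) (.l 5)) (.n 3 (.l 5) (.l 5)))) (.n 0 (.n 2 (.n 3 (.l 5) (.l 5)) (.n 0 (.l 8) (.l 8))) (.n 2 (.l 8) (.l 8))))
    [(70464307200, 14092861440), (8315056685056, 481036337152), (412316860416, 137438953472), (962072674304, 137438953472)] rfl (by decide +kernel)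
theorem c1_m14_t16 : CovD 0 progs [(98650030080, 14092861440), (2061584302080, 962072674304), (412316860416, 137438953472), (962072674304, 137438953472)] :=
  Pool.Agent.helper14.QF.covD_F chks_eq (.n 1 (.l 9) (.n 1 (.n 2 (.l 3) (.n 2 (.l 3) (.l 6))) (.n 2 (.n 2 (.l 3) (.l 3)) (.n 2 (.l 6) (.n 0 (.l 6) (.n 1 (.l 4) (.l 6)))))))
    [(98650030080, 14092861440), (2061584302080, 962072674304), (412316860416, 137438953472), (962072674304, 137438953472)] rfl (by decide +kernel)
end
mutual
theorem c1_m14_t17 : CovD 0 progs [(98650030080, 14092861440), (3985729650688, 962072674304), (412316860416, 137438953472), (893353197568, 68719476736)] :=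
  Pool.Agent.helper14.QF.covD_F chks_eq (.n 2 (.n 1 (.n 1 (.n 2 (.l 3) (.l 3)) (.n 2 (.l 3) (.l 6))) (.n 2 (.n 1 (.n 2 (.l 3) (.l 6)) (.n 2 (.l 6) (.l 6))) (.n 2 (.n 1 (.l 6) (.l 7)) (.l 7)))) (.n 2 (.n 1 (.l 7) (.l 7)) (.l 7)))
    [(98650030080, 14092861440), (3985729650688, 962072674304), (412316860416, 137438953472), (893353197568, 68719476736)] rfl (by decide +kernel)
theorem c1_m14_t18 : CovD 0 progs [(98650030080, 14092861440), (3504693313536, 481036337152), (412316860416, 137438953472), (1030792151040, 68719476736)] :=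
  Pool.Agent.helper14.QF.covD_F chks_eq (.n 2 (.n 1 (.n 2 (.l 3) (.l 3)) (.n 2 (.l 3) (.n 0 (.l 6) (.l 6)))) (.n 0 (.n 2 (.n 1 (.l 6) (.n 2 (.l 4) (.l 6))) (.l 7)) (.n 2 (.n 1 (.n 0 (.l 4) (.l 6)) (.n 2 (.l 6) (.n 1 (.l 4) (.l 6)))) (.n 2 (.n 0 (.l 7) (.n 1 (.l 4) (.l 7))) (.l 7)))))
    [(98650030080, 14092861440), (3504693313536, 481036337152), (412316860416, 137438953472), (1030792151040, 68719476736)] rfl (by decide +kernel)
end
mutual
theorem c1_m14_t19 : CovD 0 progs [(98650030080, 14092861440), (4226247819264, 240518168576), (412316860416, 137438953472), (1030792151040, 68719476736)] :=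
  Pool.Agent.helper14.QF.covD_F chks_eq (.n 2 (.n 2 (.n 2 (.l 3) (.l 6)) (.n 2 (.l 6) (.n 0 (.l 6) (.n 0 (.l 4) (.l 6))))) (.n 2 (.n 2 (.n 1 (.n 0 (.l 4) (.l 4)) (.n 3 (.l 7) (.l 5))) (.n 3 (.l 7) (.l 5))) (.n 0 (.l 7) (.l 7))))
    [(98650030080, 14092861440), (4226247819264, 240518168576), (412316860416, 137438953472), (1030792151040, 68719476736)] rfl (by decide +kernel)
theorem c1_m14_t20 : CovD 0 progs [(98650030080, 14092861440), (4707284156416, 240518168576), (412316860416, 137438953472), (1030792151040, 68719476736)] :=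
  Pool.Agent.helper14.QF.covD_F chks_eq (.n 2 (.n 0 (.n 2 (.n 1 (.l 3) (.l 3)) (.n 2 (.l 6) (.n 0 (.l 6) (.l 6)))) (.n 1 (.n 2 (.l 3) (.n 2 (.l 4) (.l 6))) (.n 2 (.n 0 (.l 3) (.l 3)) (.n 2 (.l 4) (.n 0 (.l 6) (.l 6)))))) (.n 2 (.n 2 (.n 3 (.l 7) (.l 5)) (.l 5)) (.l 5)))
    [(98650030080, 14092861440), (4707284156416, 240518168576), (412316860416, 137438953472), (1030792151040, 68719476736)] rfl (by decide +kernel)
end
mutual
theorem c1_m14_t25 : CovD 0 progs [(98650030080, 14092861440), (5428838662144, 481036337152), (412316860416, 137438953472), (893353197568, 68719476736)] :=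
  Pool.Agent.helper14.QF.covD_F chks_eq (.n 2 (.n 2 (.n 0 (.n 2 (.l 6) (.l 7)) (.n 1 (.n 2 (.l 6) (.l 6)) (.n 2 (.l 6) (.n 1 (.l 6) (.l 6))))) (.n 2 (.n 1 (.l 7) (.l 7)) (.l 7))) (.n 2 (.l 7) (.l 7)))
    [(98650030080, 14092861440), (5428838662144, 481036337152), (412316860416, 137438953472), (893353197568, 68719476736)] rfl (by decide +kernel)
theorem c1_m14_t26 : CovD 0 progs [(98650030080, 14092861440), (6390911336448, 481036337152), (412316860416, 137438953472), (893353197568, 68719476736)] :=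
  Pool.Agent.helper14.QF.covD_F chks_eq (.n 2 (.n 2 (.n 1 (.n 0 (.n 2 (.l 6) (.l 7)) (.n 3 (.l 7) (.n 2 (.l 6) (.n 2 (.l 6) (.l 6))))) (.n 2 (.n 3 (.l 7) (.n 0 (.l 6) (.n 0 (.l 6) (.l 6)))) (.n 0 (.l 7) (.n 0 (.l 8) (.l 8))))) (.n 0 (.l 7) (.n 0 (.n 0 (.l 7) (.l 7)) (.l 8)))) (.n 0 (.n 2 (.l 7) (.l 7)) (.n 0 (.l 8) (.l 8))))
    [(98650030080, 14092861440), (6390911336448, 481036337152), (412316860416, 137438953472), (893353197568, 68719476736)] rfl (by decide +kernel)
end
mutual
theorem c1_m14_t28 : CovD 0 progs [(98650030080, 14092861440), (5188320493568, 240518168576), (412316860416, 137438953472), (1030792151040, 68719476736)] :=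
  Pool.Agent.helper14.QF.covD_F chks_eq (.n 2 (.n 2 (.n 0 (.n 2 (.l 3) (.l 6)) (.n 2 (.l 6) (.n 0 (.l 6) (.l 6)))) (.n 2 (.n 0 (.n 1 (.l 4) (.l 6)) (.n 2 (.l 6) (.n 0 (.l 6) (.l 6)))) (.n 1 (.l 5) (.l 5)))) (.n 2 (.n 1 (.l 5) (.l 5)) (.l 5)))
    [(98650030080, 14092861440), (5188320493568, 240518168576), (412316860416, 137438953472), (1030792151040, 68719476736)] rfl (by decide +kernel)
theorem c1_m14_t29 : CovD 0 progs [(98650030080, 14092861440), (5669356830720, 240518168576), (412316860416, 137438953472), (1030792151040, 68719476736)] :=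
  Pool.Agent.helper14.QF.covD_F chks_eq (.n 2 (.n 2 (.n 0 (.n 2 (.l 6) (.n 0 (.l 6) (.l 6))) (.n 2 (.n 0 (.l 6) (.l 6)) (.n 2 (.l 6) (.n 0 (.l 6) (.l 6))))) (.n 2 (.n 2 (.l 5) (.l 5)) (.l 5))) (.n 2 (.l 5) (.l 5)))
    [(98650030080, 14092861440), (5669356830720, 240518168576), (412316860416, 137438953472), (1030792151040, 68719476736)] rfl (by decide +kernel)
end
mutual
theorem c1_m14_t31 : CovD 0 progs [(98650030080, 14092861440), (6390911336448, 481036337152), (412316860416, 137438953472), (1030792151040, 68719476736)] :=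
  Pool.Agent.helper14.QF.covD_F chks_eq (.n 2 (.n 2 (.n 1 (.n 2 (.n 0 (.n 0 (.l 6) (.l 6)) (.n 2 (.l 6) (.l 6))) (.n 1 (.n 3 (.l 5) (.l 5)) (.l 5))) (.n 2 (.n 2 (.n 0 (.l 6) (.n 0 (.l 6) (.l 6))) (.l 5)) (.l 5))) (.n 2 (.n 1 (.l 5) (.l 5)) (.l 5))) (.n 1 (.n 2 (.l 5) (.l 8)) (.n 2 (.l 5) (.l 8))))
    [(98650030080, 14092861440), (6390911336448, 481036337152), (412316860416, 137438953472), (1030792151040, 68719476736)] rfl (by decide +kernel)
theorem c1_m14_t34 : CovD 0 progs [(98650030080, 14092861440), (7352984010752, 481036337152), (412316860416, 137438953472), (962072674304, 137438953472)] :=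
  Pool.Agent.helper14.QF.covD_F chks_eq (.n 2 (.n 2 (.n 2 (.n 1 (.n 3 (.n 3 (.l 7) (.n 2 (.n 0 (.l 6) (.l 6)) (.l 5))) (.n 1 (.l 5) (.l 5))) (.n 3 (.n 3 (.n 0 (.l 7) (.l 7)) (.l 5)) (.l 5))) (.n 3 (.n 3 (.l 7) (.l 5)) (.l 5))) (.n 0 (.n 0 (.n 2 (.l 8) (.l 8)) (.l 8)) (.l 8))) (.n 0 (.n 0 (.l 8) (.l 8)) (.l 8)))
    [(98650030080, 14092861440), (7352984010752, 481036337152), (412316860416, 137438953472), (962072674304, 137438953472)] rfl (by decide +kernel)
theorem c1_m14_t35 : CovD 0 progs [(98650030080, 14092861440), (8315056685056, 481036337152), (412316860416, 137438953472), (962072674304, 137438953472)] :=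
  Pool.Agent.helper14.QF.covD_F chks_eq (.n 0 (.n 2 (.n 2 (.n 2 (.n 3 (.n 3 (.l 7) (.l 5)) (.l 5)) (.n 0 (.l 8) (.l 8))) (.l 8)) (.l 8)) (.n 2 (.n 2 (.n 0 (.l 8) (.l 8)) (.l 8)) (.l 8)))
    [(98650030080, 14092861440), (8315056685056, 481036337152), (412316860416, 137438953472), (962072674304, 137438953472)] rfl (by decide +kernel)
end
theorem c1_m14_t3 : CovD 0 progs [(28185722880, 28185722880), (6871947673600, 1924145348608), (412316860416, 137438953472), (962072674304, 137438953472)] :=
  covD_split 0 (by decide +kernel) c1_m14_t1 c1_m14_t2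
theorem c1_m14_t4 : CovD 0 progs [(28185722880, 28185722880), (4947802324992, 3848290697216), (412316860416, 137438953472), (962072674304, 137438953472)] :=
  covD_split 1 (by decide +kernel) c1_m14_t0 c1_m14_t3
theorem c1_m14_t7 : CovD 0 progs [(70464307200, 14092861440), (3023656976384, 1924145348608), (412316860416, 137438953472), (962072674304, 137438953472)] :=
  covD_split 1 (by decide +kernel) c1_m14_t5 c1_m14_t6
theorem c1_m14_t10 : CovD 0 progs [(70464307200, 14092861440), (5909874999296, 962072674304), (412316860416, 137438953472), (962072674304, 137438953472)] :=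
  covD_split 2 (by decide +kernel) c1_m14_t8 c1_m14_t9
theorem c1_m14_t13 : CovD 0 progs [(70464307200, 14092861440), (7834020347904, 962072674304), (412316860416, 137438953472), (962072674304, 137438953472)] :=
  covD_split 1 (by decide +kernel) c1_m14_t11 c1_m14_t12
theorem c1_m14_t14 : CovD 0 progs [(70464307200, 14092861440), (6871947673600, 1924145348608), (412316860416, 137438953472), (962072674304, 137438953472)] :=
  covD_split 1 (by decide +kernel) c1_m14_t10 c1_m14_t13
theorem c1_m14_t15 : CovD 0 progs [(70464307200, 14092861440), (4947802324992, 3848290697216), (412316860416, 137438953472), (962072674304, 137438953472)] :=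
  covD_split 1 (by decide +kernel) c1_m14_t7 c1_m14_t14
theorem c1_m14_t21 : CovD 0 progs [(98650030080, 14092861440), (4466765987840, 481036337152), (412316860416, 137438953472), (1030792151040, 68719476736)] :=
  covD_split 1 (by decide +kernel) c1_m14_t19 c1_m14_t20
theorem c1_m14_t22 : CovD 0 progs [(98650030080, 14092861440), (3985729650688, 962072674304), (412316860416, 137438953472), (1030792151040, 68719476736)] :=
  covD_split 1 (by decide +kernel) c1_m14_t18 c1_m14_t21
theorem c1_m14_t23 : CovD 0 progs [(98650030080, 14092861440), (3985729650688, 962072674304), (412316860416, 137438953472), (962072674304, 137438953472)] :=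
  covD_split 3 (by decide +kernel) c1_m14_t17 c1_m14_t22
theorem c1_m14_t24 : CovD 0 progs [(98650030080, 14092861440), (3023656976384, 1924145348608), (412316860416, 137438953472), (962072674304, 137438953472)] :=
  covD_split 1 (by decide +kernel) c1_m14_t16 c1_m14_t23
theorem c1_m14_t27 : CovD 0 progs [(98650030080, 14092861440), (5909874999296, 962072674304), (412316860416, 137438953472), (893353197568, 68719476736)] :=
  covD_split 1 (by decide +kernel) c1_m14_t25 c1_m14_t26
theorem c1_m14_t30 : CovD 0 progs [(98650030080, 14092861440), (5428838662144, 481036337152), (412316860416, 137438953472), (1030792151040, 68719476736)] :=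
  covD_split 1 (by decide +kernel) c1_m14_t28 c1_m14_t29
theorem c1_m14_t32 : CovD 0 progs [(98650030080, 14092861440), (5909874999296, 962072674304), (412316860416, 137438953472), (1030792151040, 68719476736)] :=
  covD_split 1 (by decide +kernel) c1_m14_t30 c1_m14_t31
theorem c1_m14_t33 : CovD 0 progs [(98650030080, 14092861440), (5909874999296, 962072674304), (412316860416, 137438953472), (962072674304, 137438953472)] :=
  covD_split 3 (by decide +kernel) c1_m14_t27 c1_m14_t32
theorem c1_m14_t36 : CovD 0 progs [(98650030080, 14092861440), (7834020347904, 962072674304), (412316860416, 137438953472), (962072674304, 137438953472)] :=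
  covD_split 1 (by decide +kernel) c1_m14_t34 c1_m14_t35
theorem c1_m14_t37 : CovD 0 progs [(98650030080, 14092861440), (6871947673600, 1924145348608), (412316860416, 137438953472), (962072674304, 137438953472)] :=
  covD_split 1 (by decide +kernel) c1_m14_t33 c1_m14_t36
theorem c1_m14_t38 : CovD 0 progs [(98650030080, 14092861440), (4947802324992, 3848290697216), (412316860416, 137438953472), (962072674304, 137438953472)] :=
  covD_split 1 (by decide +kernel) c1_m14_t24 c1_m14_t37
theorem c1_m14_t39 : CovD 0 progs [(84557168640, 28185722880), (4947802324992, 3848290697216), (412316860416, 137438953472), (962072674304, 137438953472)] :=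
  covD_split 0 (by decide +kernel) c1_m14_t15 c1_m14_t38
theorem c1_m14 : CovD 0 progs [(56371445760, 56371445760), (4947802324992, 3848290697216), (412316860416, 137438953472), (962072674304, 137438953472)] :=
  covD_split 0 (by decide +kernel) c1_m14_t4 c1_m14_t39

end Pool.Agent.helper71.FJ.Crt.LMb
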