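import Pool.Agent.helper71.FJ.Crt.LMbP

/-!
Generated certificates.
-/

namespace Pool.Agent.helper71.FJ.Crt.LMb

open Pool.Agent.helper31.IA (Z Op)
open Pool.Agent.helper31.IC

mutual
theorem c1_m15_t0 : CovD 0 progs [(140928614400, 28185722880), (2061584302080, 962072674304), (343597383680, 68719476736), (962072674304, 137438953472)] :=
  Pool.Agent.helper14.QF.covD_F chks_eq (.n 0 (.n 1 (.l 9) (.n 1 (.n 0 (.l 3) (.l 3)) (.n 2 (.l 3) (.n 0 (.l 3) (.l 3))))) (.n 1 (.n 1 (.l 3) (.l 3)) (.n 1 (.n 2 (.l 3) (.l 3)) (.n 2 (.l 3) (.n 1 (.l 3) (.l 3))))))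
    [(140928614400, 28185722880), (2061584302080, 962072674304), (343597383680, 68719476736), (962072674304, 137438953472)] rfl (by decide +kernel)
theorem c1_m15_t1 : CovD 0 progs [(197300060160, 28185722880), (2061584302080, 962072674304), (343597383680, 68719476736), (962072674304, 137438953472)] :=
  Pool.Agent.helper14.QF.covD_F chks_eq (.n 0 (.n 1 (.n 1 (.l 3) (.l 4)) (.n 1 (.n 2 (.l 3) (.l 4)) (.n 1 (.n 2 (.l 3) (.l 4)) (.n 2 (.l 3) (.n 0 (.l 4) (.l 4)))))) (.n 1 (.n 1 (.l 3) (.n 0 (.l 3) (.l 3))) (.n 1 (.n 1 (.l 3) (.n 2 (.l 3) (.l 4))) (.n 1 (.n 2 (.l 3) (.n 0 (.l 4) (.l 4))) (.n 2 (.l 3) (.n 2 (.l 4) (.l 8)))))))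
    [(197300060160, 28185722880), (2061584302080, 962072674304), (343597383680, 68719476736), (962072674304, 137438953472)] rfl (by decide +kernel)
end
mutual
theorem c1_m15_t3 : CovD 0 progs [(140928614400, 28185722880), (2061584302080, 962072674304), (446676598784, 34359738368), (962072674304, 137438953472)] :=
  Pool.Agent.helper14.QF.covD_F chks_eq (.n 1 (.n 1 (.l 3) (.n 0 (.l 3) (.l 3))) (.n 1 (.n 1 (.l 6) (.l 6)) (.n 0 (.n 0 (.l 6) (.n 1 (.l 3) (.l 4))) (.n 1 (.n 0 (.l 4) (.l 4)) (.n 2 (.l 4) (.n 0 (.l 4) (.l 4)))))))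
    [(140928614400, 28185722880), (2061584302080, 962072674304), (446676598784, 34359738368), (962072674304, 137438953472)] rfl (by decide +kernel)
theorem c1_m15_t4 : CovD 0 progs [(197300060160, 28185722880), (2061584302080, 962072674304), (446676598784, 34359738368), (962072674304, 137438953472)] :=
  Pool.Agent.helper14.QF.covD_F chks_eq (.n 1 (.n 1 (.l 3) (.n 0 (.l 3) (.l 4))) (.n 1 (.n 0 (.n 1 (.l 4) (.l 4)) (.n 1 (.l 4) (.n 0 (.l 4) (.l 8)))) (.n 1 (.n 0 (.n 2 (.l 4) (.n 0 (.l 4) (.l 4))) (.n 0 (.l 8) (.l 8))) (.n 0 (.n 0 (.n 2 (.l 4) (.l 8)) (.l 8)) (.l 8)))))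
    [(197300060160, 28185722880), (2061584302080, 962072674304), (446676598784, 34359738368), (962072674304, 137438953472)] rfl (by decide +kernel)
end
mutual
theorem c1_m15_t6 : CovD 0 progs [(169114337280, 56371445760), (1580547964928, 481036337152), (515396075520, 34359738368), (962072674304, 137438953472)] :=
  Pool.Agent.helper14.QF.covD_F chks_eq (.n 0 (.n 1 (.l 3) (.n 0 (.l 3) (.l 6))) (.n 1 (.n 0 (.l 3) (.l 4)) (.n 1 (.l 6) (.n 0 (.l 4) (.l 6)))))
    [(169114337280, 56371445760), (1580547964928, 481036337152), (515396075520, 34359738368), (962072674304, 137438953472)] rfl (by decide +kernel)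
theorem c1_m15_t7 : CovD 0 progs [(140928614400, 28185722880), (2542620639232, 481036337152), (515396075520, 34359738368), (962072674304, 137438953472)] :=
  Pool.Agent.helper14.QF.covD_F chks_eq (.n 0 (.n 1 (.n 1 (.l 3) (.l 6)) (.n 3 (.l 7) (.n 1 (.l 4) (.n 0 (.l 4) (.n 0 (.l 4) (.l 6)))))) (.n 1 (.n 1 (.l 4) (.n 2 (.l 4) (.l 4))) (.n 0 (.n 1 (.n 2 (.l 4) (.l 4)) (.n 0 (.n 2 (.l 4) (.l 8)) (.l 8))) (.n 1 (.n 2 (.l 4) (.l 8)) (.l 8)))))
    [(140928614400, 28185722880), (2542620639232, 481036337152), (515396075520, 34359738368), (962072674304, 137438953472)] rfl (by decide +kernel)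
end
mutual
theorem c1_m15_t8 : CovD 0 progs [(197300060160, 28185722880), (2542620639232, 481036337152), (515396075520, 34359738368), (962072674304, 137438953472)] :=
  Pool.Agent.helper14.QF.covD_F chks_eq (.n 1 (.n 0 (.n 1 (.n 0 (.l 4) (.l 4)) (.n 2 (.l 6) (.l 8))) (.n 1 (.n 1 (.l 6) (.l 8)) (.l 8))) (.n 0 (.n 0 (.n 0 (.l 8) (.l 8)) (.l 8)) (.l 8)))
    [(197300060160, 28185722880), (2542620639232, 481036337152), (515396075520, 34359738368), (962072674304, 137438953472)] rfl (by decide +kernel)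
theorem c1_m15_t13 : CovD 0 progs [(119789322240, 7046430720), (3504693313536, 481036337152), (412316860416, 137438953472), (893353197568, 68719476736)] :=
  Pool.Agent.helper14.QF.covD_F chks_eq (.n 2 (.n 1 (.n 1 (.l 3) (.l 3)) (.n 2 (.l 3) (.l 6))) (.n 2 (.n 1 (.l 7) (.l 7)) (.l 7)))
    [(119789322240, 7046430720), (3504693313536, 481036337152), (412316860416, 137438953472), (893353197568, 68719476736)] rfl (by decide +kernel)
end
mutual
theorem c1_m15_t14 : CovD 0 progs [(119789322240, 7046430720), (3504693313536, 481036337152), (412316860416, 137438953472), (1030792151040, 68719476736)] :=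
  Pool.Agent.helper14.QF.covD_F chks_eq (.n 1 (.n 2 (.n 2 (.l 3) (.l 3)) (.n 1 (.n 2 (.l 4) (.n 1 (.l 4) (.l 6))) (.n 2 (.l 4) (.n 2 (.l 6) (.l 7))))) (.n 2 (.n 2 (.l 3) (.n 1 (.l 3) (.l 4))) (.n 1 (.n 2 (.n 2 (.l 4) (.l 4)) (.n 0 (.n 0 (.l 7) (.l 8)) (.l 8))) (.n 2 (.n 2 (.l 4) (.n 0 (.l 6) (.l 6))) (.l 8)))))
    [(119789322240, 7046430720), (3504693313536, 481036337152), (412316860416, 137438953472), (1030792151040, 68719476736)] rfl (by decide +kernel)
theorem c1_m15_t16 : CovD 0 progs [(119789322240, 7046430720), (4226247819264, 240518168576), (412316860416, 137438953472), (962072674304, 137438953472)] :=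
  Pool.Agent.helper14.QF.covD_F chks_eq (.n 2 (.n 2 (.n 2 (.l 3) (.l 6)) (.n 1 (.n 2 (.l 4) (.n 0 (.l 4) (.l 4))) (.n 2 (.l 6) (.n 3 (.l 4) (.l 4))))) (.n 2 (.n 2 (.n 0 (.n 1 (.n 1 (.l 4) (.l 6)) (.l 8)) (.l 8)) (.l 8)) (.l 8)))
    [(119789322240, 7046430720), (4226247819264, 240518168576), (412316860416, 137438953472), (962072674304, 137438953472)] rfl (by decide +kernel)
end
mutual
theorem c1_m15_t17 : CovD 0 progs [(119789322240, 7046430720), (4707284156416, 240518168576), (412316860416, 137438953472), (962072674304, 137438953472)] :=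
  Pool.Agent.helper14.QF.covD_F chks_eq (.n 2 (.n 2 (.n 2 (.n 1 (.l 3) (.l 6)) (.n 3 (.l 6) (.l 6))) (.n 1 (.n 2 (.n 2 (.l 6) (.l 6)) (.n 0 (.n 2 (.l 4) (.l 8)) (.l 8))) (.n 2 (.n 0 (.n 2 (.l 4) (.l 6)) (.l 8)) (.l 8)))) (.n 2 (.l 8) (.l 8)))
    [(119789322240, 7046430720), (4707284156416, 240518168576), (412316860416, 137438953472), (962072674304, 137438953472)] rfl (by decide +kernel)
theorem c1_m15_t20 : CovD 0 progs [(133882183680, 7046430720), (3985729650688, 962072674304), (309237645312, 34359738368), (962072674304, 137438953472)] :=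
  Pool.Agent.helper14.QF.covD_F chks_eq (.n 2 (.n 1 (.n 1 (.l 3) (.l 3)) (.n 1 (.n 0 (.l 3) (.l 3)) (.n 1 (.l 3) (.n 0 (.l 3) (.l 3))))) (.n 1 (.n 1 (.l 3) (.l 4)) (.n 1 (.n 0 (.l 6) (.l 6)) (.n 3 (.l 6) (.n 1 (.l 4) (.l 6))))))
    [(133882183680, 7046430720), (3985729650688, 962072674304), (309237645312, 34359738368), (962072674304, 137438953472)] rfl (by decide +kernel)
end
mutual
theorem c1_m15_t21 : CovD 0 progs [(133882183680, 7046430720), (3985729650688, 962072674304), (377957122048, 34359738368), (962072674304, 137438953472)] :=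
  Pool.Agent.helper14.QF.covD_F chks_eq (.n 2 (.n 1 (.n 1 (.l 3) (.l 6)) (.n 1 (.n 1 (.l 6) (.n 0 (.l 6) (.l 8))) (.n 0 (.l 8) (.l 8)))) (.n 1 (.n 1 (.l 6) (.n 1 (.l 4) (.n 0 (.l 4) (.l 4)))) (.n 1 (.n 1 (.n 2 (.l 6) (.l 8)) (.l 8)) (.l 8))))
    [(133882183680, 7046430720), (3985729650688, 962072674304), (377957122048, 34359738368), (962072674304, 137438953472)] rfl (by decide +kernel)
theorem c1_m15_t23 : CovD 0 progs [(133882183680, 7046430720), (3985729650688, 962072674304), (481036337152, 68719476736), (962072674304, 137438953472)] :=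
  Pool.Agent.helper14.QF.covD_F chks_eq (.n 1 (.n 1 (.n 1 (.n 2 (.n 2 (.l 3) (.l 4)) (.n 2 (.n 0 (.l 4) (.l 8)) (.l 8))) (.n 2 (.n 2 (.l 4) (.n 0 (.l 4) (.l 8))) (.l 8))) (.n 2 (.n 1 (.n 2 (.n 0 (.l 4) (.l 4)) (.l 8)) (.n 0 (.l 8) (.l 8))) (.l 8))) (.n 1 (.n 2 (.l 8) (.l 8)) (.l 8)))
    [(133882183680, 7046430720), (3985729650688, 962072674304), (481036337152, 68719476736), (962072674304, 137438953472)] rfl (by decide +kernel)
end
mutual
theorem c1_m15_t26 : CovD 0 progs [(155021475840, 14092861440), (3264175144960, 240518168576), (412316860416, 137438953472), (962072674304, 137438953472)] :=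
  Pool.Agent.helper14.QF.covD_F chks_eq (.n 0 (.n 2 (.n 2 (.l 3) (.n 1 (.l 3) (.n 0 (.l 4) (.l 4)))) (.n 1 (.n 2 (.n 2 (.l 4) (.n 0 (.l 4) (.l 4))) (.l 8)) (.n 2 (.n 0 (.n 2 (.l 4) (.l 8)) (.l 8)) (.l 8)))) (.n 2 (.n 1 (.n 2 (.l 3) (.l 4)) (.n 2 (.l 3) (.n 2 (.l 3) (.l 4)))) (.n 2 (.n 1 (.n 2 (.l 4) (.l 8)) (.l 8)) (.l 8))))
    [(155021475840, 14092861440), (3264175144960, 240518168576), (412316860416, 137438953472), (962072674304, 137438953472)] rfl (by decide +kernel)
theorem c1_m15_t27 : CovD 0 progs [(155021475840, 14092861440), (3745211482112, 240518168576), (412316860416, 137438953472), (962072674304, 137438953472)] :=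
  Pool.Agent.helper14.QF.covD_F chks_eq (.n 2 (.n 1 (.n 0 (.n 2 (.l 3) (.n 2 (.l 3) (.l 4))) (.n 2 (.l 3) (.n 2 (.l 4) (.l 8)))) (.n 2 (.n 2 (.l 3) (.n 0 (.l 3) (.l 3))) (.n 0 (.n 2 (.l 4) (.l 8)) (.n 0 (.l 8) (.l 8))))) (.n 2 (.n 0 (.n 0 (.l 8) (.l 8)) (.l 8)) (.l 8)))
    [(155021475840, 14092861440), (3745211482112, 240518168576), (412316860416, 137438953472), (962072674304, 137438953472)] rfl (by decide +kernel)
end
mutual
theorem c1_m15_t29 : CovD 0 progs [(155021475840, 14092861440), (4226247819264, 240518168576), (412316860416, 137438953472), (962072674304, 137438953472)] :=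
  Pool.Agent.helper14.QF.covD_F chks_eq (.n 0 (.n 1 (.n 2 (.n 2 (.n 2 (.l 3) (.l 3)) (.n 0 (.n 2 (.l 4) (.l 8)) (.l 8))) (.l 8)) (.n 2 (.n 2 (.n 2 (.l 3) (.l 6)) (.l 8)) (.l 8))) (.n 2 (.n 2 (.n 1 (.n 2 (.l 3) (.n 0 (.l 3) (.l 4))) (.n 2 (.n 0 (.l 3) (.l 3)) (.l 8))) (.l 8)) (.l 8)))
    [(155021475840, 14092861440), (4226247819264, 240518168576), (412316860416, 137438953472), (962072674304, 137438953472)] rfl (by decide +kernel)
theorem c1_m15_t30 : CovD 0 progs [(155021475840, 14092861440), (4707284156416, 240518168576), (412316860416, 137438953472), (962072674304, 137438953472)] :=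
  Pool.Agent.helper14.QF.covD_F chks_eq (.n 0 (.n 2 (.n 1 (.n 2 (.n 0 (.n 2 (.l 3) (.l 8)) (.n 2 (.l 3) (.l 8))) (.l 8)) (.n 2 (.n 2 (.n 2 (.l 3) (.l 6)) (.l 8)) (.l 8))) (.l 8)) (.n 2 (.n 2 (.n 2 (.n 0 (.n 1 (.l 3) (.l 8)) (.l 8)) (.l 8)) (.l 8)) (.l 8)))
    [(155021475840, 14092861440), (4707284156416, 240518168576), (412316860416, 137438953472), (962072674304, 137438953472)] rfl (by decide +kernel)
end
mutual
theorem c1_m15_t34 : CovD 0 progs [(183207198720, 14092861440), (3504693313536, 481036337152), (412316860416, 137438953472), (962072674304, 137438953472)] :=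
  Pool.Agent.helper14.QF.covD_F chks_eq (.n 1 (.n 2 (.n 1 (.n 2 (.l 3) (.n 2 (.l 4) (.n 0 (.l 4) (.l 4)))) (.n 0 (.n 2 (.l 3) (.n 2 (.l 4) (.l 8))) (.n 2 (.l 4) (.l 8)))) (.n 2 (.n 0 (.l 8) (.l 8)) (.l 8))) (.n 2 (.n 2 (.n 1 (.n 2 (.l 3) (.n 0 (.l 3) (.l 4))) (.n 0 (.n 2 (.l 3) (.l 4)) (.n 2 (.l 3) (.l 8)))) (.n 0 (.n 0 (.l 8) (.l 8)) (.l 8))) (.n 0 (.l 8) (.l 8))))
    [(183207198720, 14092861440), (3504693313536, 481036337152), (412316860416, 137438953472), (962072674304, 137438953472)] rfl (by decide +kernel)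
theorem c1_m15_t35 : CovD 0 progs [(183207198720, 14092861440), (4466765987840, 481036337152), (412316860416, 137438953472), (962072674304, 137438953472)] :=
  Pool.Agent.helper14.QF.covD_F chks_eq (.n 1 (.n 2 (.n 2 (.n 2 (.n 0 (.n 1 (.l 3) (.l 8)) (.l 8)) (.l 8)) (.l 8)) (.l 8)) (.n 2 (.n 2 (.n 2 (.l 8) (.l 8)) (.l 8)) (.l 8)))
    [(183207198720, 14092861440), (4466765987840, 481036337152), (412316860416, 137438953472), (962072674304, 137438953472)] rfl (by decide +kernel)
end
mutual
theorem c1_m15_t37 : CovD 0 progs [(211392921600, 14092861440), (3985729650688, 962072674304), (412316860416, 137438953472), (962072674304, 137438953472)] :=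
  Pool.Agent.helper14.QF.covD_F chks_eq (.n 1 (.n 1 (.n 1 (.n 2 (.n 0 (.n 2 (.l 3) (.l 8)) (.n 2 (.l 2) (.l 8))) (.l 8)) (.n 2 (.n 2 (.n 2 (.l 2) (.l 8)) (.l 8)) (.l 8))) (.n 2 (.n 2 (.n 2 (.n 0 (.n 1 (.l 2) (.l 1)) (.l 8)) (.l 8)) (.l 8)) (.l 8))) (.n 2 (.n 2 (.n 1 (.n 0 (.l 8) (.l 8)) (.l 8)) (.l 8)) (.l 8)))
    [(211392921600, 14092861440), (3985729650688, 962072674304), (412316860416, 137438953472), (962072674304, 137438953472)] rfl (by decide +kernel)
theorem c1_m15_t41 : CovD 0 progs [(119789322240, 7046430720), (5909874999296, 962072674304), (309237645312, 34359738368), (962072674304, 137438953472)] :=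
  Pool.Agent.helper14.QF.covD_F chks_eq (.n 2 (.n 1 (.n 1 (.n 2 (.l 6) (.l 6)) (.n 3 (.l 6) (.n 2 (.l 6) (.l 6)))) (.n 2 (.n 1 (.n 3 (.l 6) (.l 6)) (.l 8)) (.n 0 (.n 0 (.l 8) (.l 8)) (.l 8)))) (.n 2 (.n 1 (.n 1 (.n 1 (.l 6) (.l 6)) (.n 0 (.n 1 (.l 6) (.l 6)) (.l 8))) (.l 8)) (.n 1 (.n 1 (.n 0 (.n 1 (.l 4) (.l 6)) (.l 8)) (.l 8)) (.l 8))))
    [(119789322240, 7046430720), (5909874999296, 962072674304), (309237645312, 34359738368), (962072674304, 137438953472)] rfl (by decide +kernel)
end
mutual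
theorem c1_m15_t42 : CovD 0 progs [(119789322240, 7046430720), (5909874999296, 962072674304), (377957122048, 34359738368), (962072674304, 137438953472)] :=
  Pool.Agent.helper14.QF.covD_F chks_eq (.n 1 (.n 1 (.n 0 (.n 1 (.n 0 (.n 2 (.l 8) (.l 8)) (.l 8)) (.l 8)) (.l 8)) (.l 8)) (.l 8))
    [(119789322240, 7046430720), (5909874999296, 962072674304), (377957122048, 34359738368), (962072674304, 137438953472)] rfl (by decide +kernel)
theorem c1_m15_t44 : CovD 0 progs [(133882183680, 7046430720), (5909874999296, 962072674304), (343597383680, 68719476736), (962072674304, 137438953472)] :=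
  Pool.Agent.helper14.QF.covD_F chks_eq (.n 1 (.n 1 (.n 1 (.n 2 (.n 2 (.n 2 (.l 3) (.l 6)) (.n 0 (.l 8) (.l 8))) (.l 8)) (.n 2 (.n 2 (.n 2 (.l 6) (.l 6)) (.l 8)) (.l 8))) (.n 2 (.n 2 (.n 1 (.n 2 (.l 6) (.l 8)) (.l 8)) (.l 8)) (.l 8))) (.n 2 (.n 0 (.n 1 (.l 8) (.l 8)) (.l 8)) (.l 8)))
    [(133882183680, 7046430720), (5909874999296, 962072674304), (343597383680, 68719476736), (962072674304, 137438953472)] rfl (by decide +kernel)
end
mutual
theorem c1_m15_t46 : CovD 0 progs [(155021475840, 14092861440), (5909874999296, 962072674304), (343597383680, 68719476736), (962072674304, 137438953472)] :=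
  Pool.Agent.helper14.QF.covD_F chks_eq (.n 0 (.n 1 (.n 2 (.n 1 (.n 2 (.n 2 (.n 3 (.l 6) (.l 6)) (.l 8)) (.l 8)) (.l 8)) (.l 8)) (.n 2 (.l 8) (.l 8))) (.n 1 (.n 2 (.n 1 (.l 8) (.l 8)) (.l 8)) (.n 1 (.l 8) (.l 8))))
    [(155021475840, 14092861440), (5909874999296, 962072674304), (343597383680, 68719476736), (962072674304, 137438953472)] rfl (by decide +kernel)
theorem c1_m15_t48 : CovD 0 progs [(140928614400, 28185722880), (7834020347904, 962072674304), (343597383680, 68719476736), (962072674304, 137438953472)] :=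
  Pool.Agent.helper14.QF.covD_F chks_eq (.n 2 (.n 1 (.n 0 (.n 0 (.n 0 (.l 8) (.l 8)) (.l 8)) (.l 8)) (.n 0 (.n 0 (.l 8) (.l 8)) (.l 8))) (.n 0 (.n 0 (.l 8) (.l 8)) (.l 8)))
    [(140928614400, 28185722880), (7834020347904, 962072674304), (343597383680, 68719476736), (962072674304, 137438953472)] rfl (by decide +kernel)
end
mutual
theorem c1_m15_t50 : CovD 0 progs [(197300060160, 28185722880), (6871947673600, 1924145348608), (343597383680, 68719476736), (962072674304, 137438953472)] :=
  Pool.Agent.helper14.QF.covD_F chks_eq (.n 0 (.n 1 (.n 1 (.n 2 (.n 0 (.l 8) (.l 8)) (.l 8)) (.n 2 (.l 8) (.l 8))) (.n 2 (.l 8) (.l 8))) (.n 1 (.n 2 (.n 1 (.l 8) (.l 8)) (.l 8)) (.l 10)))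
    [(197300060160, 28185722880), (6871947673600, 1924145348608), (343597383680, 68719476736), (962072674304, 137438953472)] rfl (by decide +kernel)
theorem c1_m15_t52 : CovD 0 progs [(169114337280, 56371445760), (6871947673600, 1924145348608), (481036337152, 68719476736), (962072674304, 137438953472)] :=
  Pool.Agent.helper14.QF.covD_F chks_eq (.n 0 (.n 0 (.n 1 (.n 1 (.n 2 (.n 0 (.l 8) (.l 8)) (.l 8)) (.n 0 (.l 8) (.l 8))) (.n 2 (.l 8) (.l 8))) (.n 1 (.n 1 (.n 0 (.l 8) (.l 8)) (.l 8)) (.n 0 (.l 8) (.l 8)))) (.n 0 (.n 1 (.n 1 (.l 8) (.l 8)) (.l 8)) (.n 1 (.n 0 (.l 8) (.l 8)) (.l 8))))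
    [(169114337280, 56371445760), (6871947673600, 1924145348608), (481036337152, 68719476736), (962072674304, 137438953472)] rfl (by decide +kernel)
end
theorem c1_m15_t2 : CovD 0 progs [(169114337280, 56371445760), (2061584302080, 962072674304), (343597383680, 68719476736), (962072674304, 137438953472)] :=
  covD_split 0 (by decide +kernel) c1_m15_t0 c1_m15_t1
theorem c1_m15_t5 : CovD 0 progs [(169114337280, 56371445760), (2061584302080, 962072674304), (446676598784, 34359738368), (962072674304, 137438953472)] :=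
  covD_split 0 (by decide +kernel) c1_m15_t3 c1_m15_t4
theorem c1_m15_t9 : CovD 0 progs [(169114337280, 56371445760), (2542620639232, 481036337152), (515396075520, 34359738368), (962072674304, 137438953472)] :=
  covD_split 0 (by decide +kernel) c1_m15_t7 c1_m15_t8
theorem c1_m15_t10 : CovD 0 progs [(169114337280, 56371445760), (2061584302080, 962072674304), (515396075520, 34359738368), (962072674304, 137438953472)] :=
  covD_split 1 (by decide +kernel) c1_m15_t6 c1_m15_t9
theorem c1_m15_t11 : CovD 0 progs [(169114337280, 56371445760), (2061584302080, 962072674304), (481036337152, 68719476736), (962072674304, 137438953472)] :=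
  covD_split 2 (by decide +kernel) c1_m15_t5 c1_m15_t10
theorem c1_m15_t12 : CovD 0 progs [(169114337280, 56371445760), (2061584302080, 962072674304), (412316860416, 137438953472), (962072674304, 137438953472)] :=
  covD_split 2 (by decide +kernel) c1_m15_t2 c1_m15_t11
theorem c1_m15_t15 : CovD 0 progs [(119789322240, 7046430720), (3504693313536, 481036337152), (412316860416, 137438953472), (962072674304, 137438953472)] :=
  covD_split 3 (by decide +kernel) c1_m15_t13 c1_m15_t14
theorem c1_m15_t18 : CovD 0 progs [(119789322240, 7046430720), (4466765987840, 481036337152), (412316860416, 137438953472), (962072674304, 137438953472)] :=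
  covD_split 1 (by decide +kernel) c1_m15_t16 c1_m15_t17
theorem c1_m15_t19 : CovD 0 progs [(119789322240, 7046430720), (3985729650688, 962072674304), (412316860416, 137438953472), (962072674304, 137438953472)] :=
  covD_split 1 (by decide +kernel) c1_m15_t15 c1_m15_t18
theorem c1_m15_t22 : CovD 0 progs [(133882183680, 7046430720), (3985729650688, 962072674304), (343597383680, 68719476736), (962072674304, 137438953472)] :=
  covD_split 2 (by decide +kernel) c1_m15_t20 c1_m15_t21
theorem c1_m15_t24 : CovD 0 progs [(133882183680, 7046430720), (3985729650688, 962072674304), (412316860416, 137438953472), (962072674304, 137438953472)] :=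
  covD_split 2 (by decide +kernel) c1_m15_t22 c1_m15_t23
theorem c1_m15_t25 : CovD 0 progs [(126835752960, 14092861440), (3985729650688, 962072674304), (412316860416, 137438953472), (962072674304, 137438953472)] :=
  covD_split 0 (by decide +kernel) c1_m15_t19 c1_m15_t24
theorem c1_m15_t28 : CovD 0 progs [(155021475840, 14092861440), (3504693313536, 481036337152), (412316860416, 137438953472), (962072674304, 137438953472)] :=
  covD_split 1 (by decide +kernel) c1_m15_t26 c1_m15_t27
theorem c1_m15_t31 : CovD 0 progs [(155021475840, 14092861440), (4466765987840, 481036337152), (412316860416, 137438953472), (962072674304, 137438953472)] :=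
  covD_split 1 (by decide +kernel) c1_m15_t29 c1_m15_t30
theorem c1_m15_t32 : CovD 0 progs [(155021475840, 14092861440), (3985729650688, 962072674304), (412316860416, 137438953472), (962072674304, 137438953472)] :=
  covD_split 1 (by decide +kernel) c1_m15_t28 c1_m15_t31
theorem c1_m15_t33 : CovD 0 progs [(140928614400, 28185722880), (3985729650688, 962072674304), (412316860416, 137438953472), (962072674304, 137438953472)] :=
  covD_split 0 (by decide +kernel) c1_m15_t25 c1_m15_t32
theorem c1_m15_t36 : CovD 0 progs [(183207198720, 14092861440), (3985729650688, 962072674304), (412316860416, 137438953472), (962072674304, 137438953472)] :=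
  covD_split 1 (by decide +kernel) c1_m15_t34 c1_m15_t35
theorem c1_m15_t38 : CovD 0 progs [(197300060160, 28185722880), (3985729650688, 962072674304), (412316860416, 137438953472), (962072674304, 137438953472)] :=
  covD_split 0 (by decide +kernel) c1_m15_t36 c1_m15_t37
theorem c1_m15_t39 : CovD 0 progs [(169114337280, 56371445760), (3985729650688, 962072674304), (412316860416, 137438953472), (962072674304, 137438953472)] :=
  covD_split 0 (by decide +kernel) c1_m15_t33 c1_m15_t38
theorem c1_m15_t40 : CovD 0 progs [(169114337280, 56371445760), (3023656976384, 1924145348608), (412316860416, 137438953472), (962072674304, 137438953472)] :=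
  covD_split 1 (by decide +kernel) c1_m15_t12 c1_m15_t39
theorem c1_m15_t43 : CovD 0 progs [(119789322240, 7046430720), (5909874999296, 962072674304), (343597383680, 68719476736), (962072674304, 137438953472)] :=
  covD_split 2 (by decide +kernel) c1_m15_t41 c1_m15_t42
theorem c1_m15_t45 : CovD 0 progs [(126835752960, 14092861440), (5909874999296, 962072674304), (343597383680, 68719476736), (962072674304, 137438953472)] :=
  covD_split 0 (by decide +kernel) c1_m15_t43 c1_m15_t44
theorem c1_m15_t47 : CovD 0 progs [(140928614400, 28185722880), (5909874999296, 962072674304), (343597383680, 68719476736), (962072674304, 137438953472)] :=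
  covD_split 0 (by decide +kernel) c1_m15_t45 c1_m15_t46
theorem c1_m15_t49 : CovD 0 progs [(140928614400, 28185722880), (6871947673600, 1924145348608), (343597383680, 68719476736), (962072674304, 137438953472)] :=
  covD_split 1 (by decide +kernel) c1_m15_t47 c1_m15_t48
theorem c1_m15_t51 : CovD 0 progs [(169114337280, 56371445760), (6871947673600, 1924145348608), (343597383680, 68719476736), (962072674304, 137438953472)] :=
  covD_split 0 (by decide +kernel) c1_m15_t49 c1_m15_t50
theorem c1_m15_t53 : CovD 0 progs [(169114337280, 56371445760), (6871947673600, 1924145348608), (412316860416, 137438953472), (962072674304, 137438953472)] :=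
  covD_split 2 (by decide +kernel) c1_m15_t51 c1_m15_t52
theorem c1_m15 : CovD 0 progs [(169114337280, 56371445760), (4947802324992, 3848290697216), (412316860416, 137438953472), (962072674304, 137438953472)] :=
  covD_split 1 (by decide +kernel) c1_m15_t40 c1_m15_t53

end Pool.Agent.helper71.FJ.Crt.LMb
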