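import Pool.Agent.helper71.FJ.Crt.LMbP

/-!
Generated certificates.
-/

namespace Pool.Agent.helper71.FJ.Crt.LMb

open Pool.Agent.helper31.IA (Z Op)
open Pool.Agent.helper31.IC

mutual
theorem c1_m2_t0 : CovD 0 progs [(366414397440, 28185722880), (1340029796352, 240518168576), (274877906944, 274877906944), (274877906944, 274877906944)] :=
  Pool.Agent.helper14.QF.covD_F chks_eq (.n 1 (.n 2 (.l 0) (.n 2 (.l 3) (.n 2 (.n 0 (.l 4) (.l 4)) (.n 2 (.n 3 (.l 4) (.l 4)) (.n 1 (.l 6) (.l 6)))))) (.n 1 (.n 2 (.l 3) (.n 2 (.l 4) (.n 2 (.n 0 (.l 4) (.l 4)) (.l 8)))) (.n 2 (.l 3) (.n 2 (.l 4) (.n 0 (.n 2 (.l 8) (.l 6)) (.l 8))))))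
    [(366414397440, 28185722880), (1340029796352, 240518168576), (274877906944, 274877906944), (274877906944, 274877906944)] rfl (by decide +kernel)
theorem c1_m2_t1 : CovD 0 progs [(366414397440, 28185722880), (1821066133504, 240518168576), (274877906944, 274877906944), (274877906944, 274877906944)] :=
  Pool.Agent.helper14.QF.covD_F chks_eq (.n 2 (.n 1 (.l 4) (.n 2 (.l 3) (.l 3))) (.n 2 (.n 1 (.n 2 (.l 4) (.n 3 (.l 4) (.l 4))) (.n 0 (.n 2 (.l 4) (.l 8)) (.n 2 (.l 4) (.l 8)))) (.n 2 (.n 1 (.l 8) (.l 8)) (.l 8))))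
    [(366414397440, 28185722880), (1821066133504, 240518168576), (274877906944, 274877906944), (274877906944, 274877906944)] rfl (by decide +kernel)
end
mutual
theorem c1_m2_t3 : CovD 0 progs [(366414397440, 28185722880), (2302102470656, 240518168576), (274877906944, 274877906944), (274877906944, 274877906944)] :=
  Pool.Agent.helper14.QF.covD_F chks_eq (.n 1 (.n 2 (.n 2 (.l 2) (.n 1 (.l 3) (.l 4))) (.n 2 (.n 2 (.n 2 (.l 4) (.l 8)) (.l 8)) (.l 8))) (.n 2 (.n 2 (.l 2) (.n 2 (.l 2) (.n 0 (.l 2) (.l 2)))) (.n 2 (.n 2 (.n 0 (.l 8) (.l 8)) (.l 8)) (.l 8))))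
    [(366414397440, 28185722880), (2302102470656, 240518168576), (274877906944, 274877906944), (274877906944, 274877906944)] rfl (by decide +kernel)
theorem c1_m2_t4 : CovD 0 progs [(366414397440, 28185722880), (2783138807808, 240518168576), (274877906944, 274877906944), (274877906944, 274877906944)] :=
  Pool.Agent.helper14.QF.covD_F chks_eq (.n 2 (.n 1 (.n 2 (.l 2) (.n 2 (.n 0 (.l 2) (.l 2)) (.n 2 (.l 4) (.n 0 (.l 2) (.l 4))))) (.n 2 (.n 2 (.l 2) (.l 2)) (.n 2 (.n 3 (.l 2) (.l 2)) (.n 2 (.n 0 (.l 2) (.l 8)) (.l 8))))) (.n 2 (.n 2 (.n 0 (.l 8) (.l 8)) (.l 8)) (.l 8)))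
    [(366414397440, 28185722880), (2783138807808, 240518168576), (274877906944, 274877906944), (274877906944, 274877906944)] rfl (by decide +kernel)
end
mutual
theorem c1_m2_t7 : CovD 0 progs [(352321536000, 14092861440), (3985729650688, 962072674304), (274877906944, 274877906944), (274877906944, 274877906944)] :=
  Pool.Agent.helper14.QF.covD_F chks_eq (.n 1 (.n 1 (.n 2 (.n 2 (.n 2 (.l 2) (.n 3 (.l 2) (.l 2))) (.n 2 (.n 2 (.n 3 (.l 2) (.l 2)) (.n 3 (.l 2) (.l 2))) (.n 2 (.l 8) (.l 8)))) (.n 2 (.n 0 (.l 8) (.l 8)) (.l 8))) (.n 1 (.n 1 (.n 0 (.n 2 (.n 2 (.n 2 (.l 2) (.l 2)) (.n 2 (.n 2 (.l 2) (.l 8)) (.l 8))) (.n 2 (.l 8) (.l 8))) (.l 10)) (.l 10)) (.l 10))) (.l 10))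
    [(352321536000, 14092861440), (3985729650688, 962072674304), (274877906944, 274877906944), (274877906944, 274877906944)] rfl (by decide +kernel)
theorem c1_m2_t8 : CovD 0 progs [(380507258880, 14092861440), (3985729650688, 962072674304), (274877906944, 274877906944), (274877906944, 274877906944)] :=
  Pool.Agent.helper14.QF.covD_F chks_eq (.n 1 (.n 1 (.n 2 (.n 2 (.n 2 (.l 9) (.n 3 (.l 2) (.n 0 (.l 2) (.l 2)))) (.n 1 (.n 2 (.n 3 (.l 2) (.l 2)) (.l 8)) (.n 1 (.n 2 (.n 2 (.l 2) (.l 8)) (.l 8)) (.l 10)))) (.n 2 (.l 8) (.l 8))) (.l 10)) (.l 10))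
    [(380507258880, 14092861440), (3985729650688, 962072674304), (274877906944, 274877906944), (274877906944, 274877906944)] rfl (by decide +kernel)
end
mutual
theorem c1_m2_t11 : CovD 0 progs [(422785843200, 28185722880), (1580547964928, 481036337152), (137438953472, 137438953472), (274877906944, 274877906944)] :=
  Pool.Agent.helper14.QF.covD_F chks_eq (.n 2 (.l 9) (.n 1 (.l 3) (.n 1 (.l 3) (.n 0 (.l 3) (.l 4)))))
    [(422785843200, 28185722880), (1580547964928, 481036337152), (137438953472, 137438953472), (274877906944, 274877906944)] rfl (by decide +kernel)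
theorem c1_m2_t12 : CovD 0 progs [(422785843200, 28185722880), (1580547964928, 481036337152), (412316860416, 137438953472), (274877906944, 274877906944)] :=
  Pool.Agent.helper14.QF.covD_F chks_eq (.n 1 (.n 1 (.n 1 (.n 2 (.l 3) (.n 2 (.l 4) (.l 8))) (.n 2 (.l 4) (.n 2 (.n 0 (.l 4) (.l 8)) (.l 8)))) (.n 2 (.n 2 (.l 3) (.n 3 (.l 4) (.l 4))) (.n 1 (.n 0 (.l 8) (.l 8)) (.l 8)))) (.n 1 (.n 0 (.n 2 (.n 2 (.l 4) (.l 8)) (.l 8)) (.n 2 (.n 2 (.l 4) (.l 8)) (.l 8))) (.n 2 (.n 2 (.n 2 (.l 4) (.l 8)) (.l 8)) (.l 8))))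
    [(422785843200, 28185722880), (1580547964928, 481036337152), (412316860416, 137438953472), (274877906944, 274877906944)] rfl (by decide +kernel)
end
mutual
theorem c1_m2_t14 : CovD 0 progs [(422785843200, 28185722880), (2542620639232, 481036337152), (137438953472, 137438953472), (274877906944, 274877906944)] :=
  Pool.Agent.helper14.QF.covD_F chks_eq (.n 2 (.n 2 (.l 9) (.n 1 (.l 2) (.n 1 (.l 2) (.n 2 (.l 2) (.l 2))))) (.n 2 (.n 1 (.n 1 (.l 2) (.l 4)) (.n 2 (.n 3 (.l 2) (.l 2)) (.n 3 (.l 2) (.n 0 (.l 2) (.l 2))))) (.n 1 (.n 1 (.n 0 (.l 2) (.l 2)) (.n 2 (.l 2) (.l 8))) (.n 2 (.n 0 (.n 0 (.l 8) (.l 8)) (.l 8)) (.l 8)))))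
    [(422785843200, 28185722880), (2542620639232, 481036337152), (137438953472, 137438953472), (274877906944, 274877906944)] rfl (by decide +kernel)
theorem c1_m2_t15 : CovD 0 progs [(422785843200, 28185722880), (2542620639232, 481036337152), (412316860416, 137438953472), (274877906944, 274877906944)] :=
  Pool.Agent.helper14.QF.covD_F chks_eq (.n 1 (.n 2 (.n 2 (.n 1 (.l 8) (.l 8)) (.l 8)) (.l 8)) (.n 2 (.n 2 (.l 8) (.l 8)) (.l 8)))
    [(422785843200, 28185722880), (2542620639232, 481036337152), (412316860416, 137438953472), (274877906944, 274877906944)] rfl (by decide +kernel)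
theorem c1_m2_t18 : CovD 0 progs [(422785843200, 28185722880), (3985729650688, 962072674304), (274877906944, 274877906944), (274877906944, 274877906944)] :=
  Pool.Agent.helper14.QF.covD_F chks_eq (.n 0 (.n 0 (.n 1 (.n 0 (.n 1 (.n 1 (.n 2 (.n 2 (.n 2 (.l 2) (.l 2)) (.n 2 (.n 2 (.l 2) (.l 8)) (.l 8))) (.n 2 (.l 8) (.l 8))) (.l 10)) (.l 10)) (.l 10)) (.l 10)) (.l 10)) (.l 10))
    [(422785843200, 28185722880), (3985729650688, 962072674304), (274877906944, 274877906944), (274877906944, 274877906944)] rfl (by decide +kernel)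
end
theorem c1_m2_t2 : CovD 0 progs [(366414397440, 28185722880), (1580547964928, 481036337152), (274877906944, 274877906944), (274877906944, 274877906944)] :=
  covD_split 1 (by decide +kernel) c1_m2_t0 c1_m2_t1
theorem c1_m2_t5 : CovD 0 progs [(366414397440, 28185722880), (2542620639232, 481036337152), (274877906944, 274877906944), (274877906944, 274877906944)] :=
  covD_split 1 (by decide +kernel) c1_m2_t3 c1_m2_t4
theorem c1_m2_t6 : CovD 0 progs [(366414397440, 28185722880), (2061584302080, 962072674304), (274877906944, 274877906944), (274877906944, 274877906944)] :=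
  covD_split 1 (by decide +kernel) c1_m2_t2 c1_m2_t5
theorem c1_m2_t9 : CovD 0 progs [(366414397440, 28185722880), (3985729650688, 962072674304), (274877906944, 274877906944), (274877906944, 274877906944)] :=
  covD_split 0 (by decide +kernel) c1_m2_t7 c1_m2_t8
theorem c1_m2_t10 : CovD 0 progs [(366414397440, 28185722880), (3023656976384, 1924145348608), (274877906944, 274877906944), (274877906944, 274877906944)] :=
  covD_split 1 (by decide +kernel) c1_m2_t6 c1_m2_t9
theorem c1_m2_t13 : CovD 0 progs [(422785843200, 28185722880), (1580547964928, 481036337152), (274877906944, 274877906944), (274877906944, 274877906944)] :=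
  covD_split 2 (by decide +kernel) c1_m2_t11 c1_m2_t12
theorem c1_m2_t16 : CovD 0 progs [(422785843200, 28185722880), (2542620639232, 481036337152), (274877906944, 274877906944), (274877906944, 274877906944)] :=
  covD_split 2 (by decide +kernel) c1_m2_t14 c1_m2_t15
theorem c1_m2_t17 : CovD 0 progs [(422785843200, 28185722880), (2061584302080, 962072674304), (274877906944, 274877906944), (274877906944, 274877906944)] :=
  covD_split 1 (by decide +kernel) c1_m2_t13 c1_m2_t16
theorem c1_m2_t19 : CovD 0 progs [(422785843200, 28185722880), (3023656976384, 1924145348608), (274877906944, 274877906944), (274877906944, 274877906944)] :=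
  covD_split 1 (by decide +kernel) c1_m2_t17 c1_m2_t18
theorem c1_m2 : CovD 0 progs [(394600120320, 56371445760), (3023656976384, 1924145348608), (274877906944, 274877906944), (274877906944, 274877906944)] :=
  covD_split 0 (by decide +kernel) c1_m2_t10 c1_m2_t19

end Pool.Agent.helper71.FJ.Crt.LMb
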