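import Pool.Agent.helper71.FJ.Crt.LMbP

/-!
Generated certificates.
-/

namespace Pool.Agent.helper71.FJ.Crt.LMb

open Pool.Agent.helper31.IA (Z Op)
open Pool.Agent.helper31.IC

mutual
theorem c1_m4_t0 : CovD 0 progs [(28185722880, 28185722880), (4947802324992, 3848290697216), (274877906944, 274877906944), (687194767360, 137438953472)] :=
  Pool.Agent.helper14.QF.covD_F chks_eq (.n 0 (.n 1 (.l 9) (.n 2 (.l 9) (.n 2 (.l 7) (.l 7)))) (.n 1 (.n 1 (.l 9) (.n 2 (.l 7) (.l 7))) (.n 2 (.n 2 (.l 7) (.l 7)) (.n 2 (.l 7) (.n 0 (.l 7) (.l 7))))))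
    [(28185722880, 28185722880), (4947802324992, 3848290697216), (274877906944, 274877906944), (687194767360, 137438953472)] rfl (by decide +kernel)
theorem c1_m4_t1 : CovD 0 progs [(84557168640, 28185722880), (3023656976384, 1924145348608), (274877906944, 274877906944), (687194767360, 137438953472)] :=
  Pool.Agent.helper14.QF.covD_F chks_eq (.n 1 (.n 1 (.l 9) (.n 2 (.l 9) (.n 2 (.l 7) (.l 7)))) (.n 1 (.n 2 (.l 9) (.n 2 (.l 7) (.l 7))) (.n 2 (.n 0 (.l 9) (.n 2 (.l 9) (.n 2 (.l 9) (.l 7)))) (.n 2 (.l 7) (.l 7)))))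
    [(84557168640, 28185722880), (3023656976384, 1924145348608), (274877906944, 274877906944), (687194767360, 137438953472)] rfl (by decide +kernel)
end
mutual
theorem c1_m4_t2 : CovD 0 progs [(70464307200, 14092861440), (6871947673600, 1924145348608), (274877906944, 274877906944), (687194767360, 137438953472)] :=
  Pool.Agent.helper14.QF.covD_F chks_eq (.n 2 (.n 2 (.l 9) (.n 2 (.n 2 (.l 9) (.l 7)) (.n 0 (.l 7) (.l 7)))) (.n 1 (.n 2 (.l 7) (.l 7)) (.n 2 (.n 0 (.l 7) (.l 7)) (.n 2 (.l 7) (.n 0 (.l 7) (.n 0 (.l 7) (.l 8)))))))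
    [(70464307200, 14092861440), (6871947673600, 1924145348608), (274877906944, 274877906944), (687194767360, 137438953472)] rfl (by decide +kernel)
theorem c1_m4_t3 : CovD 0 progs [(91603599360, 7046430720), (6871947673600, 1924145348608), (137438953472, 137438953472), (687194767360, 137438953472)] :=
  Pool.Agent.helper14.QF.covD_F chks_eq (.n 2 (.l 9) (.n 1 (.n 2 (.n 2 (.l 9) (.l 7)) (.l 7)) (.n 2 (.n 1 (.n 2 (.l 9) (.l 7)) (.n 3 (.l 7) (.n 1 (.n 2 (.n 0 (.l 3) (.l 3)) (.l 7)) (.n 2 (.n 0 (.l 3) (.l 3)) (.l 7))))) (.l 7))))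
    [(91603599360, 7046430720), (6871947673600, 1924145348608), (137438953472, 137438953472), (687194767360, 137438953472)] rfl (by decide +kernel)
end
mutual
theorem c1_m4_t4 : CovD 0 progs [(105696460800, 7046430720), (6871947673600, 1924145348608), (68719476736, 68719476736), (687194767360, 137438953472)] :=
  Pool.Agent.helper14.QF.covD_F chks_eq (.n 0 (.l 9) (.n 1 (.l 9) (.n 1 (.l 9) (.n 1 (.l 9) (.n 1 (.l 9) (.n 2 (.l 3) (.n 2 (.l 3) (.l 3))))))))
    [(105696460800, 7046430720), (6871947673600, 1924145348608), (68719476736, 68719476736), (687194767360, 137438953472)] rfl (by decide +kernel)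
theorem c1_m4_t5 : CovD 0 progs [(105696460800, 7046430720), (6871947673600, 1924145348608), (154618822656, 17179869184), (687194767360, 137438953472)] :=
  Pool.Agent.helper14.QF.covD_F chks_eq (.n 1 (.n 1 (.l 9) (.n 1 (.l 3) (.l 3))) (.n 3 (.l 7) (.n 1 (.n 1 (.l 3) (.l 3)) (.n 0 (.n 1 (.l 3) (.l 4)) (.n 1 (.l 3) (.n 0 (.l 3) (.l 3)))))))
    [(105696460800, 7046430720), (6871947673600, 1924145348608), (154618822656, 17179869184), (687194767360, 137438953472)] rfl (by decide +kernel)
end
mutual
theorem c1_m4_t6 : CovD 0 progs [(105696460800, 7046430720), (6871947673600, 1924145348608), (188978561024, 17179869184), (687194767360, 137438953472)] :=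
  Pool.Agent.helper14.QF.covD_F chks_eq (.n 3 (.l 7) (.n 1 (.n 1 (.l 3) (.n 1 (.l 3) (.l 3))) (.n 3 (.l 7) (.n 1 (.n 1 (.l 3) (.n 0 (.l 3) (.l 3))) (.n 1 (.n 2 (.l 3) (.l 4)) (.n 0 (.n 0 (.l 3) (.l 3)) (.n 2 (.l 3) (.l 3))))))))
    [(105696460800, 7046430720), (6871947673600, 1924145348608), (188978561024, 17179869184), (687194767360, 137438953472)] rfl (by decide +kernel)
theorem c1_m4_t8 : CovD 0 progs [(105696460800, 7046430720), (6871947673600, 1924145348608), (240518168576, 34359738368), (687194767360, 137438953472)] :=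
  Pool.Agent.helper14.QF.covD_F chks_eq (.n 3 (.l 7) (.n 1 (.n 2 (.l 7) (.l 7)) (.n 2 (.n 0 (.l 7) (.n 1 (.l 7) (.n 2 (.n 1 (.l 6) (.l 6)) (.l 6)))) (.l 7))))
    [(105696460800, 7046430720), (6871947673600, 1924145348608), (240518168576, 34359738368), (687194767360, 137438953472)] rfl (by decide +kernel)
theorem c1_m4_t12 : CovD 0 progs [(98650030080, 14092861440), (6871947673600, 1924145348608), (412316860416, 137438953472), (687194767360, 137438953472)] :=
  Pool.Agent.helper14.QF.covD_F chks_eq (.n 1 (.n 2 (.n 2 (.l 7) (.l 7)) (.n 0 (.l 7) (.n 2 (.l 7) (.l 7)))) (.n 2 (.n 2 (.n 2 (.l 7) (.l 7)) (.n 0 (.l 7) (.n 0 (.l 7) (.l 8)))) (.n 0 (.n 1 (.n 0 (.l 7) (.l 8)) (.l 8)) (.n 1 (.l 8) (.l 8)))))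
    [(98650030080, 14092861440), (6871947673600, 1924145348608), (412316860416, 137438953472), (687194767360, 137438953472)] rfl (by decide +kernel)
end
theorem c1_m4_t7 : CovD 0 progs [(105696460800, 7046430720), (6871947673600, 1924145348608), (171798691840, 34359738368), (687194767360, 137438953472)] :=
  covD_split 2 (by decide +kernel) c1_m4_t5 c1_m4_t6
theorem c1_m4_t9 : CovD 0 progs [(105696460800, 7046430720), (6871947673600, 1924145348608), (206158430208, 68719476736), (687194767360, 137438953472)] :=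
  covD_split 2 (by decide +kernel) c1_m4_t7 c1_m4_t8
theorem c1_m4_t10 : CovD 0 progs [(105696460800, 7046430720), (6871947673600, 1924145348608), (137438953472, 137438953472), (687194767360, 137438953472)] :=
  covD_split 2 (by decide +kernel) c1_m4_t4 c1_m4_t9
theorem c1_m4_t11 : CovD 0 progs [(98650030080, 14092861440), (6871947673600, 1924145348608), (137438953472, 137438953472), (687194767360, 137438953472)] :=
  covD_split 0 (by decide +kernel) c1_m4_t3 c1_m4_t10
theorem c1_m4_t13 : CovD 0 progs [(98650030080, 14092861440), (6871947673600, 1924145348608), (274877906944, 274877906944), (687194767360, 137438953472)] :=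
  covD_split 2 (by decide +kernel) c1_m4_t11 c1_m4_t12
theorem c1_m4_t14 : CovD 0 progs [(84557168640, 28185722880), (6871947673600, 1924145348608), (274877906944, 274877906944), (687194767360, 137438953472)] :=
  covD_split 0 (by decide +kernel) c1_m4_t2 c1_m4_t13
theorem c1_m4_t15 : CovD 0 progs [(84557168640, 28185722880), (4947802324992, 3848290697216), (274877906944, 274877906944), (687194767360, 137438953472)] :=
  covD_split 1 (by decide +kernel) c1_m4_t1 c1_m4_t14
theorem c1_m4 : CovD 0 progs [(56371445760, 56371445760), (4947802324992, 3848290697216), (274877906944, 274877906944), (687194767360, 137438953472)] :=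
  covD_split 0 (by decide +kernel) c1_m4_t0 c1_m4_t15

end Pool.Agent.helper71.FJ.Crt.LMb
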