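import Pool.Agent.helper71.FJ.Crt.LMbP

/-!
Generated certificates.
-/

namespace Pool.Agent.helper71.FJ.Crt.LMb

open Pool.Agent.helper31.IA (Z Op)
open Pool.Agent.helper31.IC

mutual
theorem c1_m5_t0 : CovD 0 progs [(169114337280, 56371445760), (2061584302080, 962072674304), (137438953472, 137438953472), (687194767360, 137438953472)] :=
  Pool.Agent.helper14.QF.covD_F chks_eq (.n 1 (.l 9) (.n 2 (.l 9) (.n 0 (.n 0 (.l 9) (.n 0 (.l 9) (.n 1 (.l 3) (.l 3)))) (.n 0 (.n 1 (.l 4) (.n 0 (.l 3) (.l 3))) (.n 1 (.l 3) (.n 0 (.l 3) (.l 3)))))))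
    [(169114337280, 56371445760), (2061584302080, 962072674304), (137438953472, 137438953472), (687194767360, 137438953472)] rfl (by decide +kernel)
theorem c1_m5_t1 : CovD 0 progs [(126835752960, 14092861440), (3985729650688, 962072674304), (137438953472, 137438953472), (687194767360, 137438953472)] :=
  Pool.Agent.helper14.QF.covD_F chks_eq (.n 2 (.l 9) (.n 2 (.n 0 (.l 9) (.n 1 (.l 9) (.n 1 (.l 3) (.l 3)))) (.n 3 (.l 7) (.n 0 (.n 1 (.l 3) (.n 1 (.l 3) (.l 3))) (.n 1 (.l 3) (.n 1 (.l 3) (.n 0 (.l 3) (.l 3))))))))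
    [(126835752960, 14092861440), (3985729650688, 962072674304), (137438953472, 137438953472), (687194767360, 137438953472)] rfl (by decide +kernel)
end
mutual
theorem c1_m5_t2 : CovD 0 progs [(155021475840, 14092861440), (3985729650688, 962072674304), (137438953472, 137438953472), (687194767360, 137438953472)] :=
  Pool.Agent.helper14.QF.covD_F chks_eq (.n 2 (.l 9) (.n 1 (.n 1 (.n 3 (.l 3) (.l 3)) (.n 2 (.l 4) (.n 0 (.l 3) (.l 3)))) (.n 1 (.n 2 (.n 0 (.l 3) (.l 3)) (.n 2 (.l 3) (.n 0 (.l 3) (.l 3)))) (.n 2 (.n 2 (.l 3) (.l 4)) (.n 0 (.n 2 (.l 3) (.n 0 (.l 3) (.l 3))) (.n 2 (.l 4) (.n 1 (.l 3) (.l 3))))))))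
    [(155021475840, 14092861440), (3985729650688, 962072674304), (137438953472, 137438953472), (687194767360, 137438953472)] rfl (by decide +kernel)
theorem c1_m5_t4 : CovD 0 progs [(197300060160, 28185722880), (3504693313536, 481036337152), (137438953472, 137438953472), (687194767360, 137438953472)] :=
  Pool.Agent.helper14.QF.covD_F chks_eq (.n 0 (.n 2 (.l 9) (.n 1 (.n 2 (.l 3) (.l 3)) (.n 2 (.l 3) (.n 0 (.l 4) (.n 0 (.l 3) (.l 4)))))) (.n 2 (.l 9) (.n 1 (.n 1 (.l 4) (.n 2 (.l 3) (.l 3))) (.n 2 (.n 0 (.l 3) (.l 3)) (.n 2 (.l 3) (.n 1 (.l 3) (.l 3)))))))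
    [(197300060160, 28185722880), (3504693313536, 481036337152), (137438953472, 137438953472), (687194767360, 137438953472)] rfl (by decide +kernel)
end
mutual
theorem c1_m5_t5 : CovD 0 progs [(197300060160, 28185722880), (4226247819264, 240518168576), (137438953472, 137438953472), (687194767360, 137438953472)] :=
  Pool.Agent.helper14.QF.covD_F chks_eq (.n 0 (.n 1 (.n 2 (.l 3) (.n 2 (.l 3) (.n 2 (.l 3) (.l 3)))) (.n 2 (.l 3) (.n 2 (.l 3) (.n 2 (.l 3) (.n 0 (.l 3) (.l 3)))))) (.n 2 (.n 2 (.l 3) (.l 3)) (.n 1 (.n 2 (.l 3) (.n 2 (.l 3) (.n 0 (.l 3) (.l 2)))) (.n 2 (.n 0 (.l 3) (.l 2)) (.n 2 (.n 0 (.l 3) (.l 2)) (.l 8))))))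
    [(197300060160, 28185722880), (4226247819264, 240518168576), (137438953472, 137438953472), (687194767360, 137438953472)] rfl (by decide +kernel)
theorem c1_m5_t6 : CovD 0 progs [(183207198720, 14092861440), (4707284156416, 240518168576), (137438953472, 137438953472), (687194767360, 137438953472)] :=
  Pool.Agent.helper14.QF.covD_F chks_eq (.n 2 (.n 2 (.l 3) (.l 3)) (.n 2 (.n 2 (.l 3) (.n 0 (.l 3) (.l 3))) (.n 0 (.n 1 (.n 2 (.l 3) (.l 3)) (.n 2 (.l 3) (.n 0 (.l 3) (.l 3)))) (.n 1 (.n 2 (.l 3) (.l 8)) (.n 2 (.l 3) (.l 8))))))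
    [(183207198720, 14092861440), (4707284156416, 240518168576), (137438953472, 137438953472), (687194767360, 137438953472)] rfl (by decide +kernel)
end
mutual
theorem c1_m5_t7 : CovD 0 progs [(211392921600, 14092861440), (4707284156416, 240518168576), (137438953472, 137438953472), (687194767360, 137438953472)] :=
  Pool.Agent.helper14.QF.covD_F chks_eq (.n 1 (.n 2 (.n 2 (.l 3) (.l 3)) (.n 2 (.n 2 (.l 3) (.l 3)) (.n 2 (.n 0 (.l 3) (.l 2)) (.l 8)))) (.n 2 (.n 2 (.l 3) (.l 3)) (.n 2 (.n 2 (.l 2) (.n 0 (.l 2) (.l 2))) (.n 2 (.n 0 (.n 0 (.l 2) (.l 2)) (.l 8)) (.l 8)))))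
    [(211392921600, 14092861440), (4707284156416, 240518168576), (137438953472, 137438953472), (687194767360, 137438953472)] rfl (by decide +kernel)
theorem c1_m5_t13 : CovD 0 progs [(126835752960, 14092861440), (2061584302080, 962072674304), (412316860416, 137438953472), (687194767360, 137438953472)] :=
  Pool.Agent.helper14.QF.covD_F chks_eq (.n 1 (.n 1 (.l 9) (.n 2 (.l 9) (.l 7))) (.n 2 (.n 3 (.l 7) (.n 1 (.l 3) (.n 0 (.l 3) (.l 3)))) (.l 7)))
    [(126835752960, 14092861440), (2061584302080, 962072674304), (412316860416, 137438953472), (687194767360, 137438953472)] rfl (by decide +kernel)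
end
mutual
theorem c1_m5_t14 : CovD 0 progs [(155021475840, 14092861440), (2061584302080, 962072674304), (412316860416, 137438953472), (687194767360, 137438953472)] :=
  Pool.Agent.helper14.QF.covD_F chks_eq (.n 3 (.n 1 (.n 1 (.n 0 (.l 3) (.l 3)) (.n 2 (.l 3) (.l 7))) (.n 2 (.n 0 (.l 7) (.n 2 (.l 3) (.l 7))) (.l 7))) (.n 1 (.n 1 (.l 3) (.n 2 (.l 3) (.l 4))) (.n 1 (.n 2 (.l 3) (.n 1 (.l 4) (.l 6))) (.n 2 (.n 1 (.l 3) (.l 4)) (.n 2 (.l 6) (.l 7))))))
    [(155021475840, 14092861440), (2061584302080, 962072674304), (412316860416, 137438953472), (687194767360, 137438953472)] rfl (by decide +kernel)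
theorem c1_m5_t16 : CovD 0 progs [(197300060160, 28185722880), (1580547964928, 481036337152), (412316860416, 137438953472), (687194767360, 137438953472)] :=
  Pool.Agent.helper14.QF.covD_F chks_eq (.n 1 (.n 0 (.n 1 (.l 3) (.n 2 (.l 0) (.l 3))) (.n 1 (.l 3) (.n 0 (.l 4) (.l 4)))) (.n 1 (.n 2 (.n 0 (.l 3) (.l 3)) (.n 2 (.n 0 (.l 3) (.l 3)) (.l 6))) (.n 2 (.n 0 (.l 3) (.l 3)) (.n 2 (.n 0 (.l 3) (.l 3)) (.l 6)))))
    [(197300060160, 28185722880), (1580547964928, 481036337152), (412316860416, 137438953472), (687194767360, 137438953472)] rfl (by decide +kernel)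
end
mutual
theorem c1_m5_t17 : CovD 0 progs [(197300060160, 28185722880), (2302102470656, 240518168576), (412316860416, 137438953472), (687194767360, 137438953472)] :=
  Pool.Agent.helper14.QF.covD_F chks_eq (.n 1 (.n 2 (.n 0 (.l 4) (.l 3)) (.n 2 (.l 6) (.n 0 (.l 6) (.l 6)))) (.n 2 (.n 0 (.n 0 (.l 3) (.l 3)) (.n 0 (.l 4) (.l 4))) (.n 2 (.l 6) (.n 0 (.n 0 (.l 6) (.l 6)) (.l 8)))))
    [(197300060160, 28185722880), (2302102470656, 240518168576), (412316860416, 137438953472), (687194767360, 137438953472)] rfl (by decide +kernel)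
theorem c1_m5_t18 : CovD 0 progs [(197300060160, 28185722880), (2783138807808, 240518168576), (412316860416, 137438953472), (687194767360, 137438953472)] :=
  Pool.Agent.helper14.QF.covD_F chks_eq (.n 0 (.n 2 (.n 2 (.n 0 (.l 3) (.l 3)) (.n 2 (.l 4) (.l 6))) (.n 2 (.n 1 (.l 6) (.n 0 (.l 6) (.l 8))) (.n 0 (.l 7) (.l 8)))) (.n 2 (.n 1 (.n 2 (.l 3) (.l 4)) (.n 2 (.l 3) (.n 0 (.l 4) (.l 8)))) (.n 2 (.n 0 (.n 0 (.l 8) (.l 8)) (.l 8)) (.l 8))))
    [(197300060160, 28185722880), (2783138807808, 240518168576), (412316860416, 137438953472), (687194767360, 137438953472)] rfl (by decide +kernel)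
end
mutual
theorem c1_m5_t22 : CovD 0 progs [(169114337280, 56371445760), (3264175144960, 240518168576), (343597383680, 68719476736), (687194767360, 137438953472)] :=
  Pool.Agent.helper14.QF.covD_F chks_eq (.n 2 (.n 0 (.n 0 (.n 0 (.l 7) (.l 4)) (.n 0 (.l 3) (.l 3))) (.n 0 (.n 1 (.l 3) (.n 0 (.l 3) (.l 3))) (.n 1 (.l 4) (.n 2 (.l 3) (.l 4))))) (.n 0 (.n 0 (.l 7) (.n 1 (.l 6) (.l 6))) (.n 2 (.n 3 (.l 6) (.n 0 (.l 6) (.l 6))) (.n 0 (.n 0 (.l 6) (.l 8)) (.l 8)))))
    [(169114337280, 56371445760), (3264175144960, 240518168576), (343597383680, 68719476736), (687194767360, 137438953472)] rfl (by decide +kernel)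
theorem c1_m5_t23 : CovD 0 progs [(169114337280, 56371445760), (3745211482112, 240518168576), (343597383680, 68719476736), (687194767360, 137438953472)] :=
  Pool.Agent.helper14.QF.covD_F chks_eq (.n 2 (.n 2 (.n 0 (.n 3 (.l 7) (.n 0 (.l 3) (.l 3))) (.n 0 (.n 1 (.l 3) (.l 3)) (.n 1 (.l 3) (.l 8)))) (.n 0 (.n 1 (.l 6) (.l 6)) (.n 0 (.n 1 (.l 4) (.l 6)) (.l 8)))) (.n 0 (.n 0 (.l 7) (.n 0 (.n 1 (.l 6) (.l 7)) (.n 2 (.l 6) (.l 8)))) (.n 0 (.n 0 (.n 0 (.l 8) (.l 8)) (.l 8)) (.l 8))))
    [(169114337280, 56371445760), (3745211482112, 240518168576), (343597383680, 68719476736), (687194767360, 137438953472)] rfl (by decide +kernel)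
end
mutual
theorem c1_m5_t25 : CovD 0 progs [(169114337280, 56371445760), (3504693313536, 481036337152), (481036337152, 68719476736), (687194767360, 137438953472)] :=
  Pool.Agent.helper14.QF.covD_F chks_eq (.n 0 (.n 0 (.l 7) (.n 2 (.n 1 (.n 1 (.l 7) (.l 7)) (.l 7)) (.l 7))) (.n 0 (.n 1 (.n 2 (.n 0 (.l 8) (.l 8)) (.l 8)) (.n 0 (.l 8) (.l 8))) (.n 1 (.n 0 (.l 8) (.l 8)) (.l 8))))
    [(169114337280, 56371445760), (3504693313536, 481036337152), (481036337152, 68719476736), (687194767360, 137438953472)] rfl (by decide +kernel)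
theorem c1_m5_t27 : CovD 0 progs [(169114337280, 56371445760), (4466765987840, 481036337152), (309237645312, 34359738368), (687194767360, 137438953472)] :=
  Pool.Agent.helper14.QF.covD_F chks_eq (.n 1 (.n 2 (.n 0 (.n 3 (.l 7) (.n 0 (.l 3) (.n 0 (.l 3) (.l 3)))) (.n 0 (.n 0 (.n 1 (.l 3) (.l 4)) (.l 8)) (.l 8))) (.n 0 (.n 0 (.l 6) (.n 0 (.l 6) (.l 6))) (.n 0 (.l 8) (.l 8)))) (.n 0 (.n 3 (.l 7) (.n 0 (.n 2 (.l 6) (.l 6)) (.n 1 (.n 2 (.l 6) (.l 6)) (.n 2 (.l 6) (.l 6))))) (.n 0 (.n 2 (.l 8) (.l 8)) (.l 8))))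
    [(169114337280, 56371445760), (4466765987840, 481036337152), (309237645312, 34359738368), (687194767360, 137438953472)] rfl (by decide +kernel)
end
mutual
theorem c1_m5_t28 : CovD 0 progs [(169114337280, 56371445760), (4466765987840, 481036337152), (377957122048, 34359738368), (687194767360, 137438953472)] :=
  Pool.Agent.helper14.QF.covD_F chks_eq (.n 0 (.n 0 (.l 7) (.n 0 (.n 0 (.l 7) (.n 1 (.l 7) (.l 7))) (.n 1 (.l 8) (.l 8)))) (.n 0 (.n 0 (.l 8) (.l 8)) (.l 8)))
    [(169114337280, 56371445760), (4466765987840, 481036337152), (377957122048, 34359738368), (687194767360, 137438953472)] rfl (by decide +kernel)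
theorem c1_m5_t30 : CovD 0 progs [(169114337280, 56371445760), (4466765987840, 481036337152), (481036337152, 68719476736), (687194767360, 137438953472)] :=
  Pool.Agent.helper14.QF.covD_F chks_eq (.n 0 (.n 0 (.l 7) (.n 2 (.n 0 (.l 7) (.l 8)) (.l 8))) (.n 0 (.n 0 (.l 8) (.l 8)) (.l 8)))
    [(169114337280, 56371445760), (4466765987840, 481036337152), (481036337152, 68719476736), (687194767360, 137438953472)] rfl (by decide +kernel)
end
theorem c1_m5_t3 : CovD 0 progs [(140928614400, 28185722880), (3985729650688, 962072674304), (137438953472, 137438953472), (687194767360, 137438953472)] :=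
  covD_split 0 (by decide +kernel) c1_m5_t1 c1_m5_t2
theorem c1_m5_t8 : CovD 0 progs [(197300060160, 28185722880), (4707284156416, 240518168576), (137438953472, 137438953472), (687194767360, 137438953472)] :=
  covD_split 0 (by decide +kernel) c1_m5_t6 c1_m5_t7
theorem c1_m5_t9 : CovD 0 progs [(197300060160, 28185722880), (4466765987840, 481036337152), (137438953472, 137438953472), (687194767360, 137438953472)] :=
  covD_split 1 (by decide +kernel) c1_m5_t5 c1_m5_t8
theorem c1_m5_t10 : CovD 0 progs [(197300060160, 28185722880), (3985729650688, 962072674304), (137438953472, 137438953472), (687194767360, 137438953472)] :=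
  covD_split 1 (by decide +kernel) c1_m5_t4 c1_m5_t9
theorem c1_m5_t11 : CovD 0 progs [(169114337280, 56371445760), (3985729650688, 962072674304), (137438953472, 137438953472), (687194767360, 137438953472)] :=
  covD_split 0 (by decide +kernel) c1_m5_t3 c1_m5_t10
theorem c1_m5_t12 : CovD 0 progs [(169114337280, 56371445760), (3023656976384, 1924145348608), (137438953472, 137438953472), (687194767360, 137438953472)] :=
  covD_split 1 (by decide +kernel) c1_m5_t0 c1_m5_t11
theorem c1_m5_t15 : CovD 0 progs [(140928614400, 28185722880), (2061584302080, 962072674304), (412316860416, 137438953472), (687194767360, 137438953472)] :=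
  covD_split 0 (by decide +kernel) c1_m5_t13 c1_m5_t14
theorem c1_m5_t19 : CovD 0 progs [(197300060160, 28185722880), (2542620639232, 481036337152), (412316860416, 137438953472), (687194767360, 137438953472)] :=
  covD_split 1 (by decide +kernel) c1_m5_t17 c1_m5_t18
theorem c1_m5_t20 : CovD 0 progs [(197300060160, 28185722880), (2061584302080, 962072674304), (412316860416, 137438953472), (687194767360, 137438953472)] :=
  covD_split 1 (by decide +kernel) c1_m5_t16 c1_m5_t19
theorem c1_m5_t21 : CovD 0 progs [(169114337280, 56371445760), (2061584302080, 962072674304), (412316860416, 137438953472), (687194767360, 137438953472)] :=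
  covD_split 0 (by decide +kernel) c1_m5_t15 c1_m5_t20
theorem c1_m5_t24 : CovD 0 progs [(169114337280, 56371445760), (3504693313536, 481036337152), (343597383680, 68719476736), (687194767360, 137438953472)] :=
  covD_split 1 (by decide +kernel) c1_m5_t22 c1_m5_t23
theorem c1_m5_t26 : CovD 0 progs [(169114337280, 56371445760), (3504693313536, 481036337152), (412316860416, 137438953472), (687194767360, 137438953472)] :=
  covD_split 2 (by decide +kernel) c1_m5_t24 c1_m5_t25
theorem c1_m5_t29 : CovD 0 progs [(169114337280, 56371445760), (4466765987840, 481036337152), (343597383680, 68719476736), (687194767360, 137438953472)] :=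
  covD_split 2 (by decide +kernel) c1_m5_t27 c1_m5_t28
theorem c1_m5_t31 : CovD 0 progs [(169114337280, 56371445760), (4466765987840, 481036337152), (412316860416, 137438953472), (687194767360, 137438953472)] :=
  covD_split 2 (by decide +kernel) c1_m5_t29 c1_m5_t30
theorem c1_m5_t32 : CovD 0 progs [(169114337280, 56371445760), (3985729650688, 962072674304), (412316860416, 137438953472), (687194767360, 137438953472)] :=
  covD_split 1 (by decide +kernel) c1_m5_t26 c1_m5_t31
theorem c1_m5_t33 : CovD 0 progs [(169114337280, 56371445760), (3023656976384, 1924145348608), (412316860416, 137438953472), (687194767360, 137438953472)] :=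
  covD_split 1 (by decide +kernel) c1_m5_t21 c1_m5_t32
theorem c1_m5 : CovD 0 progs [(169114337280, 56371445760), (3023656976384, 1924145348608), (274877906944, 274877906944), (687194767360, 137438953472)] :=
  covD_split 2 (by decide +kernel) c1_m5_t12 c1_m5_t33

end Pool.Agent.helper71.FJ.Crt.LMb
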