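import Pool.Agent.helper71.FJ.Crt.LMbP

/-!
Generated certificates.
-/

namespace Pool.Agent.helper71.FJ.Crt.LMb

open Pool.Agent.helper31.IA (Z Op)
open Pool.Agent.helper31.IC

mutual
theorem c1_m6_t0 : CovD 0 progs [(119789322240, 7046430720), (6871947673600, 1924145348608), (68719476736, 68719476736), (687194767360, 137438953472)] :=
  Pool.Agent.helper14.QF.covD_F chks_eq (.n 1 (.l 9) (.n 2 (.l 9) (.n 2 (.l 9) (.n 0 (.n 1 (.l 9) (.n 2 (.l 9) (.n 1 (.l 3) (.l 3)))) (.n 1 (.n 1 (.l 3) (.l 3)) (.n 1 (.n 1 (.l 3) (.l 3)) (.n 3 (.l 3) (.l 3))))))))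
    [(119789322240, 7046430720), (6871947673600, 1924145348608), (68719476736, 68719476736), (687194767360, 137438953472)] rfl (by decide +kernel)
theorem c1_m6_t1 : CovD 0 progs [(133882183680, 7046430720), (6871947673600, 1924145348608), (68719476736, 68719476736), (687194767360, 137438953472)] :=
  Pool.Agent.helper14.QF.covD_F chks_eq (.n 2 (.l 9) (.n 2 (.l 9) (.n 1 (.n 1 (.l 3) (.n 1 (.l 3) (.l 3))) (.n 1 (.n 1 (.n 0 (.l 3) (.l 3)) (.n 3 (.l 3) (.l 3))) (.n 1 (.n 0 (.n 2 (.l 3) (.l 3)) (.n 2 (.l 3) (.l 4))) (.n 2 (.n 3 (.l 3) (.l 3)) (.n 3 (.l 3) (.l 3))))))))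
    [(133882183680, 7046430720), (6871947673600, 1924145348608), (68719476736, 68719476736), (687194767360, 137438953472)] rfl (by decide +kernel)
end
mutual
theorem c1_m6_t3 : CovD 0 progs [(147975045120, 7046430720), (6871947673600, 1924145348608), (34359738368, 34359738368), (687194767360, 137438953472)] :=
  Pool.Agent.helper14.QF.covD_F chks_eq (.l 9)
    [(147975045120, 7046430720), (6871947673600, 1924145348608), (34359738368, 34359738368), (687194767360, 137438953472)] rfl (by decide +kernel)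
theorem c1_m6_t4 : CovD 0 progs [(147975045120, 7046430720), (6871947673600, 1924145348608), (103079215104, 34359738368), (687194767360, 137438953472)] :=
  Pool.Agent.helper14.QF.covD_F chks_eq (.n 1 (.n 1 (.l 9) (.n 2 (.l 9) (.n 1 (.l 3) (.n 0 (.l 3) (.l 3))))) (.n 1 (.n 2 (.l 9) (.n 1 (.n 2 (.l 3) (.l 3)) (.n 0 (.n 2 (.l 3) (.l 3)) (.n 2 (.l 1) (.l 1))))) (.n 1 (.n 2 (.l 9) (.n 2 (.n 0 (.l 1) (.l 1)) (.n 3 (.l 1) (.l 1)))) (.n 0 (.n 2 (.n 2 (.l 1) (.l 1)) (.n 2 (.n 0 (.l 1) (.l 1)) (.n 3 (.l 1) (.l 1)))) (.l 10)))))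
    [(147975045120, 7046430720), (6871947673600, 1924145348608), (103079215104, 34359738368), (687194767360, 137438953472)] rfl (by decide +kernel)
end
mutual
theorem c1_m6_t6 : CovD 0 progs [(162067906560, 7046430720), (6871947673600, 1924145348608), (68719476736, 68719476736), (687194767360, 137438953472)] :=
  Pool.Agent.helper14.QF.covD_F chks_eq (.n 2 (.l 9) (.n 2 (.n 1 (.l 9) (.n 1 (.n 1 (.l 9) (.n 3 (.l 1) (.l 1))) (.n 0 (.l 10) (.l 10)))) (.n 1 (.n 1 (.n 1 (.l 3) (.l 3)) (.n 1 (.l 3) (.n 1 (.l 3) (.l 3)))) (.n 1 (.n 1 (.n 2 (.l 1) (.n 0 (.l 1) (.l 1))) (.n 2 (.n 0 (.l 1) (.l 1)) (.n 3 (.l 1) (.l 1)))) (.n 0 (.l 10) (.l 10))))))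
    [(162067906560, 7046430720), (6871947673600, 1924145348608), (68719476736, 68719476736), (687194767360, 137438953472)] rfl (by decide +kernel)
theorem c1_m6_t9 : CovD 0 progs [(140928614400, 28185722880), (5909874999296, 962072674304), (171798691840, 34359738368), (618475290624, 68719476736)] :=
  Pool.Agent.helper14.QF.covD_F chks_eq (.n 2 (.n 0 (.n 0 (.l 7) (.n 1 (.l 3) (.n 1 (.l 3) (.l 3)))) (.n 1 (.n 1 (.l 3) (.l 3)) (.n 0 (.n 1 (.l 3) (.l 4)) (.n 1 (.l 3) (.n 0 (.l 3) (.l 1)))))) (.n 0 (.l 7) (.n 1 (.n 1 (.l 3) (.n 0 (.l 3) (.l 3))) (.n 0 (.n 1 (.n 0 (.l 3) (.l 3)) (.n 2 (.l 3) (.l 3))) (.n 1 (.n 0 (.l 3) (.l 3)) (.n 2 (.l 3) (.n 0 (.l 3) (.l 1))))))))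
    [(140928614400, 28185722880), (5909874999296, 962072674304), (171798691840, 34359738368), (618475290624, 68719476736)] rfl (by decide +kernel)
end
mutual
theorem c1_m6_t10 : CovD 0 progs [(140928614400, 28185722880), (5909874999296, 962072674304), (240518168576, 34359738368), (618475290624, 68719476736)] :=
  Pool.Agent.helper14.QF.covD_F chks_eq (.n 0 (.l 7) (.n 2 (.n 1 (.n 0 (.l 7) (.n 1 (.l 3) (.n 0 (.l 3) (.l 4)))) (.n 0 (.l 7) (.n 1 (.n 2 (.l 3) (.l 8)) (.l 8)))) (.n 0 (.l 7) (.n 1 (.n 1 (.l 7) (.l 7)) (.l 7)))))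
    [(140928614400, 28185722880), (5909874999296, 962072674304), (240518168576, 34359738368), (618475290624, 68719476736)] rfl (by decide +kernel)
theorem c1_m6_t12 : CovD 0 progs [(126835752960, 14092861440), (5909874999296, 962072674304), (171798691840, 34359738368), (755914244096, 68719476736)] :=
  Pool.Agent.helper14.QF.covD_F chks_eq (.n 1 (.n 0 (.n 1 (.l 3) (.l 3)) (.n 1 (.l 3) (.n 0 (.l 3) (.l 3)))) (.n 1 (.n 2 (.l 3) (.n 0 (.l 3) (.l 3))) (.n 0 (.n 2 (.l 3) (.n 0 (.l 3) (.l 3))) (.n 2 (.l 3) (.n 0 (.l 3) (.l 3))))))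
    [(126835752960, 14092861440), (5909874999296, 962072674304), (171798691840, 34359738368), (755914244096, 68719476736)] rfl (by decide +kernel)
end
mutual
theorem c1_m6_t13 : CovD 0 progs [(155021475840, 14092861440), (5909874999296, 962072674304), (171798691840, 34359738368), (755914244096, 68719476736)] :=
  Pool.Agent.helper14.QF.covD_F chks_eq (.n 1 (.n 1 (.n 2 (.l 3) (.l 3)) (.n 2 (.l 3) (.n 0 (.l 3) (.l 3)))) (.n 0 (.n 1 (.n 2 (.l 3) (.n 0 (.l 3) (.l 3))) (.n 2 (.l 4) (.n 2 (.l 3) (.l 3)))) (.n 1 (.n 2 (.l 3) (.n 1 (.l 3) (.l 3))) (.n 2 (.n 0 (.l 1) (.l 1)) (.n 2 (.l 1) (.n 0 (.l 1) (.l 1)))))))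
    [(155021475840, 14092861440), (5909874999296, 962072674304), (171798691840, 34359738368), (755914244096, 68719476736)] rfl (by decide +kernel)
theorem c1_m6_t15 : CovD 0 progs [(140928614400, 28185722880), (5909874999296, 962072674304), (214748364800, 8589934592), (755914244096, 68719476736)] :=
  Pool.Agent.helper14.QF.covD_F chks_eq (.n 0 (.n 1 (.n 1 (.l 3) (.l 3)) (.n 0 (.n 1 (.l 3) (.l 3)) (.n 1 (.l 3) (.n 0 (.l 3) (.l 3))))) (.n 1 (.n 1 (.l 3) (.n 0 (.l 3) (.l 3))) (.n 0 (.n 1 (.l 3) (.n 0 (.l 3) (.l 3))) (.n 0 (.n 1 (.l 3) (.l 1)) (.l 8)))))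
    [(140928614400, 28185722880), (5909874999296, 962072674304), (214748364800, 8589934592), (755914244096, 68719476736)] rfl (by decide +kernel)
end
mutual
theorem c1_m6_t16 : CovD 0 progs [(140928614400, 28185722880), (5909874999296, 962072674304), (231928233984, 8589934592), (755914244096, 68719476736)] :=
  Pool.Agent.helper14.QF.covD_F chks_eq (.n 1 (.n 0 (.n 1 (.l 3) (.n 0 (.l 3) (.l 3))) (.n 0 (.n 1 (.l 3) (.l 3)) (.n 1 (.l 3) (.l 3)))) (.n 0 (.n 1 (.n 0 (.l 3) (.l 3)) (.n 2 (.n 0 (.l 3) (.l 3)) (.l 6))) (.n 0 (.n 1 (.n 0 (.l 3) (.l 3)) (.l 8)) (.l 8))))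
    [(140928614400, 28185722880), (5909874999296, 962072674304), (231928233984, 8589934592), (755914244096, 68719476736)] rfl (by decide +kernel)
theorem c1_m6_t18 : CovD 0 progs [(140928614400, 28185722880), (5909874999296, 962072674304), (257698037760, 17179869184), (755914244096, 68719476736)] :=
  Pool.Agent.helper14.QF.covD_F chks_eq (.n 0 (.n 3 (.l 7) (.n 0 (.n 1 (.l 7) (.n 1 (.l 6) (.l 6))) (.n 1 (.n 1 (.l 3) (.n 0 (.l 3) (.l 3))) (.n 1 (.l 6) (.l 6))))) (.n 0 (.n 1 (.n 1 (.n 0 (.l 3) (.l 3)) (.n 2 (.l 3) (.l 6))) (.n 1 (.l 8) (.l 8))) (.n 1 (.n 1 (.n 1 (.l 3) (.l 3)) (.l 8)) (.l 8))))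
    [(140928614400, 28185722880), (5909874999296, 962072674304), (257698037760, 17179869184), (755914244096, 68719476736)] rfl (by decide +kernel)
end
mutual
theorem c1_m6_t22 : CovD 0 progs [(126835752960, 14092861440), (7112465842176, 240518168576), (171798691840, 34359738368), (687194767360, 137438953472)] :=
  Pool.Agent.helper14.QF.covD_F chks_eq (.n 0 (.n 3 (.l 7) (.n 2 (.l 3) (.n 0 (.l 3) (.l 4)))) (.n 2 (.n 0 (.n 1 (.l 3) (.l 3)) (.n 2 (.l 3) (.l 3))) (.n 3 (.l 7) (.n 2 (.l 3) (.n 0 (.l 3) (.l 3))))))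
    [(126835752960, 14092861440), (7112465842176, 240518168576), (171798691840, 34359738368), (687194767360, 137438953472)] rfl (by decide +kernel)
theorem c1_m6_t23 : CovD 0 progs [(155021475840, 14092861440), (7112465842176, 240518168576), (171798691840, 34359738368), (687194767360, 137438953472)] :=
  Pool.Agent.helper14.QF.covD_F chks_eq (.n 2 (.n 0 (.n 1 (.n 2 (.l 3) (.l 3)) (.n 3 (.l 4) (.l 4))) (.n 2 (.n 3 (.l 1) (.l 1)) (.n 3 (.l 1) (.l 1)))) (.n 0 (.n 2 (.n 3 (.l 4) (.n 0 (.l 3) (.l 1))) (.n 0 (.n 3 (.l 3) (.l 3)) (.l 8))) (.n 2 (.n 2 (.n 3 (.l 1) (.l 1)) (.l 8)) (.l 8))))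
    [(155021475840, 14092861440), (7112465842176, 240518168576), (171798691840, 34359738368), (687194767360, 137438953472)] rfl (by decide +kernel)
end
mutual
theorem c1_m6_t25 : CovD 0 progs [(140928614400, 28185722880), (7593502179328, 240518168576), (171798691840, 34359738368), (618475290624, 68719476736)] :=
  Pool.Agent.helper14.QF.covD_F chks_eq (.n 2 (.n 0 (.n 0 (.l 7) (.n 2 (.l 3) (.l 3))) (.n 0 (.n 2 (.l 3) (.n 0 (.l 3) (.l 1))) (.n 2 (.l 1) (.n 0 (.l 1) (.l 1))))) (.n 0 (.l 7) (.n 0 (.n 2 (.n 0 (.l 1) (.l 1)) (.l 8)) (.n 2 (.l 8) (.l 8)))))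
    [(140928614400, 28185722880), (7593502179328, 240518168576), (171798691840, 34359738368), (618475290624, 68719476736)] rfl (by decide +kernel)
theorem c1_m6_t26 : CovD 0 progs [(140928614400, 28185722880), (7593502179328, 240518168576), (171798691840, 34359738368), (755914244096, 68719476736)] :=
  Pool.Agent.helper14.QF.covD_F chks_eq (.n 0 (.n 0 (.n 2 (.n 0 (.l 3) (.l 3)) (.n 2 (.l 4) (.n 0 (.l 3) (.l 3)))) (.n 2 (.n 2 (.l 3) (.l 3)) (.n 0 (.n 2 (.l 3) (.l 3)) (.n 2 (.l 3) (.n 0 (.l 3) (.l 1)))))) (.n 0 (.n 2 (.n 2 (.l 1) (.n 0 (.l 1) (.l 1))) (.n 2 (.n 0 (.l 1) (.l 1)) (.l 8))) (.n 2 (.n 0 (.n 2 (.l 1) (.l 1)) (.n 2 (.l 1) (.l 1))) (.n 2 (.l 8) (.l 8)))))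
    [(140928614400, 28185722880), (7593502179328, 240518168576), (171798691840, 34359738368), (755914244096, 68719476736)] rfl (by decide +kernel)
end
mutual
theorem c1_m6_t29 : CovD 0 progs [(140928614400, 28185722880), (7352984010752, 481036337152), (240518168576, 34359738368), (687194767360, 137438953472)] :=
  Pool.Agent.helper14.QF.covD_F chks_eq (.n 2 (.n 0 (.n 0 (.n 3 (.l 7) (.n 2 (.n 3 (.l 7) (.n 1 (.l 3) (.n 0 (.l 3) (.l 3)))) (.n 1 (.l 6) (.l 6)))) (.n 1 (.n 2 (.n 3 (.l 7) (.n 0 (.l 3) (.l 3))) (.l 8)) (.n 0 (.n 2 (.l 8) (.l 8)) (.l 8)))) (.n 0 (.n 1 (.l 8) (.l 8)) (.l 8))) (.n 0 (.n 0 (.n 0 (.l 7) (.n 0 (.l 8) (.l 8))) (.l 8)) (.l 8)))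
    [(140928614400, 28185722880), (7352984010752, 481036337152), (240518168576, 34359738368), (687194767360, 137438953472)] rfl (by decide +kernel)
theorem c1_m6_t31 : CovD 0 progs [(119789322240, 7046430720), (8315056685056, 481036337152), (171798691840, 34359738368), (687194767360, 137438953472)] :=
  Pool.Agent.helper14.QF.covD_F chks_eq (.n 2 (.n 3 (.l 7) (.n 1 (.n 2 (.l 3) (.n 0 (.l 3) (.l 3))) (.n 0 (.n 1 (.l 3) (.l 4)) (.n 2 (.l 3) (.l 3))))) (.n 3 (.l 7) (.n 2 (.n 0 (.n 1 (.l 3) (.l 3)) (.n 1 (.l 3) (.n 0 (.l 3) (.l 3)))) (.n 3 (.l 7) (.n 0 (.n 1 (.l 3) (.l 3)) (.n 1 (.l 3) (.n 0 (.l 3) (.l 1))))))))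
    [(119789322240, 7046430720), (8315056685056, 481036337152), (171798691840, 34359738368), (687194767360, 137438953472)] rfl (by decide +kernel)
end
mutual
theorem c1_m6_t32 : CovD 0 progs [(119789322240, 7046430720), (8315056685056, 481036337152), (240518168576, 34359738368), (687194767360, 137438953472)] :=
  Pool.Agent.helper14.QF.covD_F chks_eq (.n 2 (.n 2 (.n 3 (.l 7) (.n 3 (.l 7) (.n 2 (.n 0 (.l 6) (.l 8)) (.l 6)))) (.n 0 (.l 8) (.l 8))) (.l 8))
    [(119789322240, 7046430720), (8315056685056, 481036337152), (240518168576, 34359738368), (687194767360, 137438953472)] rfl (by decide +kernel)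
theorem c1_m6_t34 : CovD 0 progs [(133882183680, 7046430720), (8074538516480, 240518168576), (206158430208, 68719476736), (687194767360, 137438953472)] :=
  Pool.Agent.helper14.QF.covD_F chks_eq (.n 2 (.n 2 (.n 2 (.n 3 (.l 3) (.l 3)) (.n 0 (.n 3 (.l 3) (.l 3)) (.n 3 (.l 3) (.l 1)))) (.n 3 (.l 7) (.n 0 (.n 2 (.l 3) (.n 0 (.l 3) (.l 1))) (.n 2 (.n 0 (.l 1) (.l 1)) (.l 8))))) (.n 2 (.l 8) (.l 8)))
    [(133882183680, 7046430720), (8074538516480, 240518168576), (206158430208, 68719476736), (687194767360, 137438953472)] rfl (by decide +kernel)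
end
mutual
theorem c1_m6_t35 : CovD 0 progs [(133882183680, 7046430720), (8555574853632, 240518168576), (206158430208, 68719476736), (687194767360, 137438953472)] :=
  Pool.Agent.helper14.QF.covD_F chks_eq (.n 2 (.n 2 (.n 0 (.n 2 (.n 3 (.l 3) (.l 1)) (.n 3 (.l 3) (.l 1))) (.n 2 (.n 3 (.l 1) (.l 1)) (.n 3 (.l 1) (.n 0 (.l 1) (.l 1))))) (.n 2 (.n 0 (.n 3 (.l 7) (.n 0 (.l 1) (.l 1))) (.n 0 (.l 8) (.l 8))) (.l 8))) (.l 8))
    [(133882183680, 7046430720), (8555574853632, 240518168576), (206158430208, 68719476736), (687194767360, 137438953472)] rfl (by decide +kernel)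
theorem c1_m6_t38 : CovD 0 progs [(147975045120, 7046430720), (8315056685056, 481036337152), (206158430208, 68719476736), (687194767360, 137438953472)] :=
  Pool.Agent.helper14.QF.covD_F chks_eq (.n 1 (.n 2 (.n 0 (.n 2 (.n 2 (.n 3 (.l 1) (.l 1)) (.n 3 (.l 1) (.l 1))) (.n 1 (.n 2 (.n 2 (.l 1) (.l 8)) (.l 8)) (.l 8))) (.n 2 (.n 2 (.n 3 (.l 1) (.l 1)) (.n 3 (.l 1) (.n 0 (.l 1) (.l 1)))) (.l 8))) (.l 8)) (.n 0 (.n 2 (.n 2 (.n 2 (.n 3 (.l 1) (.l 1)) (.n 2 (.n 3 (.l 1) (.l 1)) (.l 8))) (.l 8)) (.l 8)) (.l 10)))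
    [(147975045120, 7046430720), (8315056685056, 481036337152), (206158430208, 68719476736), (687194767360, 137438953472)] rfl (by decide +kernel)
end
mutual
theorem c1_m6_t39 : CovD 0 progs [(162067906560, 7046430720), (8315056685056, 481036337152), (206158430208, 68719476736), (687194767360, 137438953472)] :=
  Pool.Agent.helper14.QF.covD_F chks_eq (.n 0 (.l 10) (.l 10))
    [(162067906560, 7046430720), (8315056685056, 481036337152), (206158430208, 68719476736), (687194767360, 137438953472)] rfl (by decide +kernel)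
theorem c1_m6_t45 : CovD 0 progs [(126835752960, 14092861440), (5909874999296, 962072674304), (412316860416, 137438953472), (687194767360, 137438953472)] :=
  Pool.Agent.helper14.QF.covD_F chks_eq (.n 1 (.n 2 (.n 2 (.n 0 (.l 7) (.n 2 (.n 0 (.l 7) (.n 1 (.l 6) (.l 8))) (.l 7))) (.l 7)) (.n 2 (.l 7) (.l 7))) (.n 0 (.n 2 (.n 2 (.l 7) (.l 7)) (.l 8)) (.n 2 (.n 2 (.n 0 (.n 0 (.l 7) (.l 8)) (.l 8)) (.l 8)) (.l 8))))
    [(126835752960, 14092861440), (5909874999296, 962072674304), (412316860416, 137438953472), (687194767360, 137438953472)] rfl (by decide +kernel)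
end
mutual
theorem c1_m6_t46 : CovD 0 progs [(126835752960, 14092861440), (7834020347904, 962072674304), (412316860416, 137438953472), (687194767360, 137438953472)] :=
  Pool.Agent.helper14.QF.covD_F chks_eq (.n 2 (.n 0 (.n 2 (.n 1 (.n 0 (.l 7) (.l 8)) (.l 8)) (.l 8)) (.n 2 (.n 0 (.l 8) (.l 8)) (.l 8))) (.n 2 (.l 8) (.l 8)))
    [(126835752960, 14092861440), (7834020347904, 962072674304), (412316860416, 137438953472), (687194767360, 137438953472)] rfl (by decide +kernel)
theorem c1_m6_t48 : CovD 0 progs [(155021475840, 14092861440), (6871947673600, 1924145348608), (412316860416, 137438953472), (687194767360, 137438953472)] :=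
  Pool.Agent.helper14.QF.covD_F chks_eq (.n 1 (.n 1 (.n 0 (.n 2 (.n 2 (.n 1 (.n 2 (.n 1 (.l 6) (.l 6)) (.l 8)) (.l 8)) (.l 8)) (.l 8)) (.n 2 (.n 2 (.n 1 (.l 8) (.l 8)) (.l 8)) (.l 8))) (.n 2 (.n 2 (.n 0 (.l 8) (.l 8)) (.l 8)) (.l 8))) (.n 2 (.n 2 (.n 0 (.l 8) (.l 8)) (.l 8)) (.n 0 (.l 8) (.l 8))))
    [(155021475840, 14092861440), (6871947673600, 1924145348608), (412316860416, 137438953472), (687194767360, 137438953472)] rfl (by decide +kernel)
end
theorem c1_m6_t2 : CovD 0 progs [(126835752960, 14092861440), (6871947673600, 1924145348608), (68719476736, 68719476736), (687194767360, 137438953472)] :=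
  covD_split 0 (by decide +kernel) c1_m6_t0 c1_m6_t1
theorem c1_m6_t5 : CovD 0 progs [(147975045120, 7046430720), (6871947673600, 1924145348608), (68719476736, 68719476736), (687194767360, 137438953472)] :=
  covD_split 2 (by decide +kernel) c1_m6_t3 c1_m6_t4
theorem c1_m6_t7 : CovD 0 progs [(155021475840, 14092861440), (6871947673600, 1924145348608), (68719476736, 68719476736), (687194767360, 137438953472)] :=
  covD_split 0 (by decide +kernel) c1_m6_t5 c1_m6_t6
theorem c1_m6_t8 : CovD 0 progs [(140928614400, 28185722880), (6871947673600, 1924145348608), (68719476736, 68719476736), (687194767360, 137438953472)] :=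
  covD_split 0 (by decide +kernel) c1_m6_t2 c1_m6_t7
theorem c1_m6_t11 : CovD 0 progs [(140928614400, 28185722880), (5909874999296, 962072674304), (206158430208, 68719476736), (618475290624, 68719476736)] :=
  covD_split 2 (by decide +kernel) c1_m6_t9 c1_m6_t10
theorem c1_m6_t14 : CovD 0 progs [(140928614400, 28185722880), (5909874999296, 962072674304), (171798691840, 34359738368), (755914244096, 68719476736)] :=
  covD_split 0 (by decide +kernel) c1_m6_t12 c1_m6_t13
theorem c1_m6_t17 : CovD 0 progs [(140928614400, 28185722880), (5909874999296, 962072674304), (223338299392, 17179869184), (755914244096, 68719476736)] :=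
  covD_split 2 (by decide +kernel) c1_m6_t15 c1_m6_t16
theorem c1_m6_t19 : CovD 0 progs [(140928614400, 28185722880), (5909874999296, 962072674304), (240518168576, 34359738368), (755914244096, 68719476736)] :=
  covD_split 2 (by decide +kernel) c1_m6_t17 c1_m6_t18
theorem c1_m6_t20 : CovD 0 progs [(140928614400, 28185722880), (5909874999296, 962072674304), (206158430208, 68719476736), (755914244096, 68719476736)] :=
  covD_split 2 (by decide +kernel) c1_m6_t14 c1_m6_t19
theorem c1_m6_t21 : CovD 0 progs [(140928614400, 28185722880), (5909874999296, 962072674304), (206158430208, 68719476736), (687194767360, 137438953472)] :=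
  covD_split 3 (by decide +kernel) c1_m6_t11 c1_m6_t20
theorem c1_m6_t24 : CovD 0 progs [(140928614400, 28185722880), (7112465842176, 240518168576), (171798691840, 34359738368), (687194767360, 137438953472)] :=
  covD_split 0 (by decide +kernel) c1_m6_t22 c1_m6_t23
theorem c1_m6_t27 : CovD 0 progs [(140928614400, 28185722880), (7593502179328, 240518168576), (171798691840, 34359738368), (687194767360, 137438953472)] :=
  covD_split 3 (by decide +kernel) c1_m6_t25 c1_m6_t26
theorem c1_m6_t28 : CovD 0 progs [(140928614400, 28185722880), (7352984010752, 481036337152), (171798691840, 34359738368), (687194767360, 137438953472)] :=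
  covD_split 1 (by decide +kernel) c1_m6_t24 c1_m6_t27
theorem c1_m6_t30 : CovD 0 progs [(140928614400, 28185722880), (7352984010752, 481036337152), (206158430208, 68719476736), (687194767360, 137438953472)] :=
  covD_split 2 (by decide +kernel) c1_m6_t28 c1_m6_t29
theorem c1_m6_t33 : CovD 0 progs [(119789322240, 7046430720), (8315056685056, 481036337152), (206158430208, 68719476736), (687194767360, 137438953472)] :=
  covD_split 2 (by decide +kernel) c1_m6_t31 c1_m6_t32
theorem c1_m6_t36 : CovD 0 progs [(133882183680, 7046430720), (8315056685056, 481036337152), (206158430208, 68719476736), (687194767360, 137438953472)] :=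
  covD_split 1 (by decide +kernel) c1_m6_t34 c1_m6_t35
theorem c1_m6_t37 : CovD 0 progs [(126835752960, 14092861440), (8315056685056, 481036337152), (206158430208, 68719476736), (687194767360, 137438953472)] :=
  covD_split 0 (by decide +kernel) c1_m6_t33 c1_m6_t36
theorem c1_m6_t40 : CovD 0 progs [(155021475840, 14092861440), (8315056685056, 481036337152), (206158430208, 68719476736), (687194767360, 137438953472)] :=
  covD_split 0 (by decide +kernel) c1_m6_t38 c1_m6_t39
theorem c1_m6_t41 : CovD 0 progs [(140928614400, 28185722880), (8315056685056, 481036337152), (206158430208, 68719476736), (687194767360, 137438953472)] :=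
  covD_split 0 (by decide +kernel) c1_m6_t37 c1_m6_t40
theorem c1_m6_t42 : CovD 0 progs [(140928614400, 28185722880), (7834020347904, 962072674304), (206158430208, 68719476736), (687194767360, 137438953472)] :=
  covD_split 1 (by decide +kernel) c1_m6_t30 c1_m6_t41
theorem c1_m6_t43 : CovD 0 progs [(140928614400, 28185722880), (6871947673600, 1924145348608), (206158430208, 68719476736), (687194767360, 137438953472)] :=
  covD_split 1 (by decide +kernel) c1_m6_t21 c1_m6_t42
theorem c1_m6_t44 : CovD 0 progs [(140928614400, 28185722880), (6871947673600, 1924145348608), (137438953472, 137438953472), (687194767360, 137438953472)] :=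
  covD_split 2 (by decide +kernel) c1_m6_t8 c1_m6_t43
theorem c1_m6_t47 : CovD 0 progs [(126835752960, 14092861440), (6871947673600, 1924145348608), (412316860416, 137438953472), (687194767360, 137438953472)] :=
  covD_split 1 (by decide +kernel) c1_m6_t45 c1_m6_t46
theorem c1_m6_t49 : CovD 0 progs [(140928614400, 28185722880), (6871947673600, 1924145348608), (412316860416, 137438953472), (687194767360, 137438953472)] :=
  covD_split 0 (by decide +kernel) c1_m6_t47 c1_m6_t48
theorem c1_m6 : CovD 0 progs [(140928614400, 28185722880), (6871947673600, 1924145348608), (274877906944, 274877906944), (687194767360, 137438953472)] :=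
  covD_split 2 (by decide +kernel) c1_m6_t44 c1_m6_t49

end Pool.Agent.helper71.FJ.Crt.LMb
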