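import Pool.Agent.helper71.FJ.Crt.LMbP

/-!
Generated certificates.
-/

namespace Pool.Agent.helper71.FJ.Crt.LMb

open Pool.Agent.helper31.IA (Z Op)
open Pool.Agent.helper31.IC

mutual
theorem c1_m7_t0 : CovD 0 progs [(176160768000, 7046430720), (5909874999296, 962072674304), (68719476736, 68719476736), (687194767360, 137438953472)] :=
  Pool.Agent.helper14.QF.covD_F chks_eq (.n 2 (.l 9) (.n 2 (.l 9) (.n 1 (.n 1 (.l 3) (.l 3)) (.n 1 (.n 0 (.l 3) (.l 1)) (.n 3 (.l 1) (.l 1))))))
    [(176160768000, 7046430720), (5909874999296, 962072674304), (68719476736, 68719476736), (687194767360, 137438953472)] rfl (by decide +kernel)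
theorem c1_m7_t1 : CovD 0 progs [(176160768000, 7046430720), (5909874999296, 962072674304), (171798691840, 34359738368), (687194767360, 137438953472)] :=
  Pool.Agent.helper14.QF.covD_F chks_eq (.n 1 (.n 1 (.n 2 (.l 3) (.n 0 (.l 3) (.l 3))) (.n 2 (.n 0 (.l 3) (.l 3)) (.n 2 (.l 4) (.n 0 (.l 3) (.l 2))))) (.n 1 (.n 2 (.n 2 (.l 2) (.n 0 (.l 2) (.l 1))) (.n 1 (.n 3 (.l 1) (.l 1)) (.n 2 (.l 1) (.l 8)))) (.n 2 (.n 2 (.n 0 (.l 1) (.l 1)) (.n 3 (.l 1) (.l 1))) (.n 2 (.n 0 (.n 1 (.l 1) (.l 1)) (.l 8)) (.l 8)))))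
    [(176160768000, 7046430720), (5909874999296, 962072674304), (171798691840, 34359738368), (687194767360, 137438953472)] rfl (by decide +kernel)
end
mutual
theorem c1_m7_t2 : CovD 0 progs [(176160768000, 7046430720), (5909874999296, 962072674304), (240518168576, 34359738368), (687194767360, 137438953472)] :=
  Pool.Agent.helper14.QF.covD_F chks_eq (.n 1 (.n 1 (.n 2 (.n 1 (.l 4) (.n 0 (.l 3) (.l 4))) (.l 8)) (.n 2 (.n 1 (.n 2 (.l 3) (.l 8)) (.l 8)) (.l 8))) (.n 1 (.n 2 (.l 8) (.l 8)) (.l 8)))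
    [(176160768000, 7046430720), (5909874999296, 962072674304), (240518168576, 34359738368), (687194767360, 137438953472)] rfl (by decide +kernel)
theorem c1_m7_t5 : CovD 0 progs [(176160768000, 7046430720), (5909874999296, 962072674304), (412316860416, 137438953472), (687194767360, 137438953472)] :=
  Pool.Agent.helper14.QF.covD_F chks_eq (.n 2 (.n 2 (.n 1 (.l 8) (.l 8)) (.l 8)) (.n 0 (.l 8) (.l 8)))
    [(176160768000, 7046430720), (5909874999296, 962072674304), (412316860416, 137438953472), (687194767360, 137438953472)] rfl (by decide +kernel)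
end
mutual
theorem c1_m7_t7 : CovD 0 progs [(190253629440, 7046430720), (5428838662144, 481036337152), (274877906944, 274877906944), (687194767360, 137438953472)] :=
  Pool.Agent.helper14.QF.covD_F chks_eq (.n 2 (.n 2 (.n 2 (.l 9) (.n 2 (.l 9) (.n 1 (.l 3) (.l 2)))) (.n 2 (.n 1 (.n 2 (.l 3) (.n 1 (.l 3) (.l 2))) (.n 1 (.n 2 (.l 2) (.n 0 (.l 2) (.l 1))) (.n 2 (.l 2) (.n 2 (.l 1) (.l 2))))) (.n 2 (.n 1 (.n 1 (.n 0 (.l 3) (.l 2)) (.l 8)) (.l 8)) (.l 8)))) (.n 2 (.n 2 (.l 8) (.l 8)) (.l 8)))
    [(190253629440, 7046430720), (5428838662144, 481036337152), (274877906944, 274877906944), (687194767360, 137438953472)] rfl (by decide +kernel)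
theorem c1_m7_t8 : CovD 0 progs [(190253629440, 7046430720), (6150393167872, 240518168576), (274877906944, 274877906944), (687194767360, 137438953472)] :=
  Pool.Agent.helper14.QF.covD_F chks_eq (.n 2 (.n 2 (.n 2 (.l 9) (.n 2 (.l 1) (.n 1 (.l 1) (.l 1)))) (.n 2 (.n 2 (.n 0 (.n 2 (.l 1) (.l 1)) (.n 3 (.l 1) (.l 1))) (.n 2 (.n 1 (.l 1) (.l 8)) (.l 8))) (.l 8))) (.n 2 (.l 8) (.l 8)))
    [(190253629440, 7046430720), (6150393167872, 240518168576), (274877906944, 274877906944), (687194767360, 137438953472)] rfl (by decide +kernel)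
end
mutual
theorem c1_m7_t9 : CovD 0 progs [(190253629440, 7046430720), (6631429505024, 240518168576), (274877906944, 274877906944), (687194767360, 137438953472)] :=
  Pool.Agent.helper14.QF.covD_F chks_eq (.n 0 (.n 1 (.n 2 (.n 2 (.n 2 (.l 1) (.n 2 (.l 1) (.l 1))) (.n 2 (.n 2 (.n 2 (.l 1) (.l 1)) (.l 8)) (.l 8))) (.n 2 (.l 8) (.l 8))) (.l 10)) (.l 10))
    [(190253629440, 7046430720), (6631429505024, 240518168576), (274877906944, 274877906944), (687194767360, 137438953472)] rfl (by decide +kernel)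
theorem c1_m7_t13 : CovD 0 progs [(183207198720, 14092861440), (7834020347904, 962072674304), (274877906944, 274877906944), (687194767360, 137438953472)] :=
  Pool.Agent.helper14.QF.covD_F chks_eq (.n 0 (.n 1 (.n 0 (.n 1 (.n 2 (.n 2 (.n 2 (.l 9) (.n 2 (.n 0 (.l 1) (.l 1)) (.n 2 (.l 1) (.l 1)))) (.n 2 (.n 2 (.n 2 (.n 0 (.l 1) (.l 2)) (.n 3 (.l 1) (.l 1))) (.l 8)) (.l 8))) (.n 2 (.l 8) (.l 8))) (.l 10)) (.n 0 (.n 0 (.l 10) (.l 10)) (.l 10))) (.l 10)) (.l 10))
    [(183207198720, 14092861440), (7834020347904, 962072674304), (274877906944, 274877906944), (687194767360, 137438953472)] rfl (by decide +kernel)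
end
mutual
theorem c1_m7_t15 : CovD 0 progs [(204346490880, 7046430720), (5428838662144, 481036337152), (274877906944, 274877906944), (687194767360, 137438953472)] :=
  Pool.Agent.helper14.QF.covD_F chks_eq (.n 2 (.n 2 (.n 2 (.l 9) (.n 2 (.l 9) (.n 1 (.l 2) (.n 0 (.l 1) (.l 1))))) (.n 1 (.n 2 (.n 1 (.n 2 (.l 2) (.l 2)) (.n 2 (.l 2) (.n 0 (.l 1) (.l 1)))) (.n 2 (.l 8) (.l 8))) (.n 2 (.n 2 (.n 3 (.l 1) (.l 1)) (.n 2 (.n 1 (.l 1) (.l 1)) (.l 8))) (.l 8)))) (.n 2 (.n 1 (.l 8) (.l 8)) (.l 8)))
    [(204346490880, 7046430720), (5428838662144, 481036337152), (274877906944, 274877906944), (687194767360, 137438953472)] rfl (by decide +kernel)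
theorem c1_m7_t16 : CovD 0 progs [(204346490880, 7046430720), (6390911336448, 481036337152), (274877906944, 274877906944), (687194767360, 137438953472)] :=
  Pool.Agent.helper14.QF.covD_F chks_eq (.n 1 (.n 1 (.n 2 (.n 2 (.n 2 (.l 1) (.n 2 (.l 1) (.l 1))) (.n 2 (.n 2 (.n 2 (.l 1) (.l 1)) (.l 8)) (.l 8))) (.n 2 (.l 8) (.l 8))) (.l 10)) (.l 10))
    [(204346490880, 7046430720), (6390911336448, 481036337152), (274877906944, 274877906944), (687194767360, 137438953472)] rfl (by decide +kernel)
end
mutual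
theorem c1_m7_t18 : CovD 0 progs [(204346490880, 7046430720), (7834020347904, 962072674304), (274877906944, 274877906944), (687194767360, 137438953472)] :=
  Pool.Agent.helper14.QF.covD_F chks_eq (.l 10)
    [(204346490880, 7046430720), (7834020347904, 962072674304), (274877906944, 274877906944), (687194767360, 137438953472)] rfl (by decide +kernel)
theorem c1_m7_t20 : CovD 0 progs [(218439352320, 7046430720), (6871947673600, 1924145348608), (274877906944, 274877906944), (687194767360, 137438953472)] :=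
  Pool.Agent.helper14.QF.covD_F chks_eq (.n 1 (.n 1 (.n 2 (.n 2 (.n 2 (.l 9) (.n 1 (.n 2 (.l 2) (.l 2)) (.n 2 (.l 1) (.n 1 (.l 1) (.l 1))))) (.n 1 (.n 2 (.n 2 (.n 1 (.l 1) (.l 1)) (.n 2 (.n 0 (.l 2) (.l 1)) (.l 8))) (.l 8)) (.n 2 (.n 1 (.n 2 (.n 0 (.l 1) (.l 1)) (.l 8)) (.n 2 (.n 2 (.l 1) (.l 1)) (.l 8))) (.l 8)))) (.n 2 (.n 0 (.l 8) (.l 8)) (.l 8))) (.l 10)) (.l 10))
    [(218439352320, 7046430720), (6871947673600, 1924145348608), (274877906944, 274877906944), (687194767360, 137438953472)] rfl (by decide +kernel)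
end
theorem c1_m7_t3 : CovD 0 progs [(176160768000, 7046430720), (5909874999296, 962072674304), (206158430208, 68719476736), (687194767360, 137438953472)] :=
  covD_split 2 (by decide +kernel) c1_m7_t1 c1_m7_t2
theorem c1_m7_t4 : CovD 0 progs [(176160768000, 7046430720), (5909874999296, 962072674304), (137438953472, 137438953472), (687194767360, 137438953472)] :=
  covD_split 2 (by decide +kernel) c1_m7_t0 c1_m7_t3
theorem c1_m7_t6 : CovD 0 progs [(176160768000, 7046430720), (5909874999296, 962072674304), (274877906944, 274877906944), (687194767360, 137438953472)] :=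
  covD_split 2 (by decide +kernel) c1_m7_t4 c1_m7_t5
theorem c1_m7_t10 : CovD 0 progs [(190253629440, 7046430720), (6390911336448, 481036337152), (274877906944, 274877906944), (687194767360, 137438953472)] :=
  covD_split 1 (by decide +kernel) c1_m7_t8 c1_m7_t9
theorem c1_m7_t11 : CovD 0 progs [(190253629440, 7046430720), (5909874999296, 962072674304), (274877906944, 274877906944), (687194767360, 137438953472)] :=
  covD_split 1 (by decide +kernel) c1_m7_t7 c1_m7_t10
theorem c1_m7_t12 : CovD 0 progs [(183207198720, 14092861440), (5909874999296, 962072674304), (274877906944, 274877906944), (687194767360, 137438953472)] :=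
  covD_split 0 (by decide +kernel) c1_m7_t6 c1_m7_t11
theorem c1_m7_t14 : CovD 0 progs [(183207198720, 14092861440), (6871947673600, 1924145348608), (274877906944, 274877906944), (687194767360, 137438953472)] :=
  covD_split 1 (by decide +kernel) c1_m7_t12 c1_m7_t13
theorem c1_m7_t17 : CovD 0 progs [(204346490880, 7046430720), (5909874999296, 962072674304), (274877906944, 274877906944), (687194767360, 137438953472)] :=
  covD_split 1 (by decide +kernel) c1_m7_t15 c1_m7_t16
theorem c1_m7_t19 : CovD 0 progs [(204346490880, 7046430720), (6871947673600, 1924145348608), (274877906944, 274877906944), (687194767360, 137438953472)] :=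
  covD_split 1 (by decide +kernel) c1_m7_t17 c1_m7_t18
theorem c1_m7_t21 : CovD 0 progs [(211392921600, 14092861440), (6871947673600, 1924145348608), (274877906944, 274877906944), (687194767360, 137438953472)] :=
  covD_split 0 (by decide +kernel) c1_m7_t19 c1_m7_t20
theorem c1_m7 : CovD 0 progs [(197300060160, 28185722880), (6871947673600, 1924145348608), (274877906944, 274877906944), (687194767360, 137438953472)] :=
  covD_split 0 (by decide +kernel) c1_m7_t14 c1_m7_t21

end Pool.Agent.helper71.FJ.Crt.LMb
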