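import Pool.Agent.helper71.FJ.Crt.LMbP

/-!
Generated certificates.
-/

namespace Pool.Agent.helper71.FJ.Crt.LMb

open Pool.Agent.helper31.IA (Z Op)
open Pool.Agent.helper31.IC

mutual
theorem c1_m8_t0 : CovD 0 progs [(338228674560, 112742891520), (1580547964928, 481036337152), (137438953472, 137438953472), (687194767360, 137438953472)] :=
  Pool.Agent.helper14.QF.covD_F chks_eq (.n 2 (.l 9) (.n 0 (.n 0 (.n 1 (.l 9) (.n 0 (.l 3) (.l 3))) (.n 1 (.l 3) (.n 0 (.l 3) (.l 3)))) (.n 0 (.n 1 (.l 3) (.l 4)) (.n 1 (.l 3) (.n 1 (.l 2) (.l 4))))))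
    [(338228674560, 112742891520), (1580547964928, 481036337152), (137438953472, 137438953472), (687194767360, 137438953472)] rfl (by decide +kernel)
theorem c1_m8_t1 : CovD 0 progs [(338228674560, 112742891520), (2302102470656, 240518168576), (137438953472, 137438953472), (687194767360, 137438953472)] :=
  Pool.Agent.helper14.QF.covD_F chks_eq (.n 0 (.n 2 (.l 9) (.n 0 (.n 0 (.l 3) (.l 3)) (.n 2 (.l 3) (.l 3)))) (.n 1 (.n 2 (.l 3) (.n 0 (.l 4) (.n 1 (.l 2) (.l 4)))) (.n 2 (.l 3) (.n 2 (.l 4) (.n 0 (.l 2) (.n 0 (.l 2) (.l 2)))))))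
    [(338228674560, 112742891520), (2302102470656, 240518168576), (137438953472, 137438953472), (687194767360, 137438953472)] rfl (by decide +kernel)
end
mutual
theorem c1_m8_t2 : CovD 0 progs [(281857228800, 56371445760), (2783138807808, 240518168576), (137438953472, 137438953472), (687194767360, 137438953472)] :=
  Pool.Agent.helper14.QF.covD_F chks_eq (.n 0 (.n 2 (.l 3) (.n 2 (.l 3) (.n 0 (.l 3) (.l 4)))) (.n 2 (.l 3) (.n 1 (.n 2 (.l 2) (.l 3)) (.n 2 (.l 2) (.n 0 (.l 2) (.l 2))))))
    [(281857228800, 56371445760), (2783138807808, 240518168576), (137438953472, 137438953472), (687194767360, 137438953472)] rfl (by decide +kernel)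
theorem c1_m8_t3 : CovD 0 progs [(394600120320, 56371445760), (2783138807808, 240518168576), (137438953472, 137438953472), (687194767360, 137438953472)] :=
  Pool.Agent.helper14.QF.covD_F chks_eq (.n 2 (.n 2 (.l 9) (.n 0 (.l 2) (.n 0 (.l 2) (.l 2)))) (.n 0 (.n 1 (.n 2 (.l 2) (.n 0 (.l 2) (.l 2))) (.n 2 (.l 4) (.n 2 (.l 2) (.l 8)))) (.n 2 (.n 1 (.l 2) (.n 2 (.l 1) (.l 2))) (.n 2 (.n 1 (.l 2) (.l 8)) (.l 8)))))
    [(394600120320, 56371445760), (2783138807808, 240518168576), (137438953472, 137438953472), (687194767360, 137438953472)] rfl (by decide +kernel)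
end
mutual
theorem c1_m8_t7 : CovD 0 progs [(253671505920, 28185722880), (1580547964928, 481036337152), (412316860416, 137438953472), (687194767360, 137438953472)] :=
  Pool.Agent.helper14.QF.covD_F chks_eq (.n 1 (.n 1 (.n 2 (.l 0) (.l 4)) (.n 2 (.l 3) (.n 2 (.l 3) (.l 4)))) (.n 1 (.n 2 (.n 0 (.l 3) (.l 3)) (.n 2 (.l 4) (.l 6))) (.n 0 (.n 2 (.l 3) (.n 2 (.l 4) (.l 6))) (.n 2 (.l 4) (.n 2 (.l 4) (.l 6))))))
    [(253671505920, 28185722880), (1580547964928, 481036337152), (412316860416, 137438953472), (687194767360, 137438953472)] rfl (by decide +kernel)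
theorem c1_m8_t8 : CovD 0 progs [(253671505920, 28185722880), (2302102470656, 240518168576), (412316860416, 137438953472), (687194767360, 137438953472)] :=
  Pool.Agent.helper14.QF.covD_F chks_eq (.n 0 (.n 2 (.n 1 (.l 4) (.n 2 (.l 3) (.l 4))) (.n 2 (.n 1 (.l 6) (.l 6)) (.l 8))) (.n 2 (.n 2 (.l 4) (.n 1 (.l 4) (.n 0 (.l 4) (.l 4)))) (.n 1 (.n 2 (.l 8) (.l 8)) (.l 8))))
    [(253671505920, 28185722880), (2302102470656, 240518168576), (412316860416, 137438953472), (687194767360, 137438953472)] rfl (by decide +kernel)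
end
mutual
theorem c1_m8_t9 : CovD 0 progs [(253671505920, 28185722880), (2783138807808, 240518168576), (412316860416, 137438953472), (687194767360, 137438953472)] :=
  Pool.Agent.helper14.QF.covD_F chks_eq (.n 0 (.n 1 (.n 2 (.n 2 (.l 3) (.n 0 (.l 4) (.l 8))) (.l 8)) (.n 2 (.n 2 (.l 4) (.l 8)) (.l 8))) (.n 2 (.n 1 (.n 2 (.l 4) (.l 8)) (.n 2 (.n 0 (.l 2) (.l 2)) (.l 8))) (.l 8)))
    [(253671505920, 28185722880), (2783138807808, 240518168576), (412316860416, 137438953472), (687194767360, 137438953472)] rfl (by decide +kernel)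
theorem c1_m8_t12 : CovD 0 progs [(310042951680, 28185722880), (1580547964928, 481036337152), (412316860416, 137438953472), (687194767360, 137438953472)] :=
  Pool.Agent.helper14.QF.covD_F chks_eq (.n 1 (.n 1 (.n 2 (.l 3) (.n 1 (.l 4) (.l 4))) (.n 2 (.l 3) (.n 2 (.l 4) (.n 1 (.l 4) (.l 6))))) (.n 1 (.n 2 (.l 4) (.n 2 (.n 2 (.l 4) (.l 6)) (.n 0 (.l 6) (.l 6)))) (.n 2 (.n 2 (.l 3) (.l 4)) (.n 0 (.n 2 (.l 8) (.l 8)) (.l 8)))))
    [(310042951680, 28185722880), (1580547964928, 481036337152), (412316860416, 137438953472), (687194767360, 137438953472)] rfl (by decide +kernel)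
end
mutual
theorem c1_m8_t13 : CovD 0 progs [(310042951680, 28185722880), (2542620639232, 481036337152), (412316860416, 137438953472), (687194767360, 137438953472)] :=
  Pool.Agent.helper14.QF.covD_F chks_eq (.n 1 (.n 1 (.n 2 (.n 2 (.l 4) (.n 0 (.l 4) (.l 8))) (.n 0 (.l 8) (.l 8))) (.n 2 (.n 2 (.n 0 (.l 2) (.l 4)) (.l 8)) (.l 8))) (.n 0 (.n 2 (.n 2 (.n 1 (.l 4) (.l 8)) (.l 8)) (.l 8)) (.n 2 (.n 2 (.n 0 (.l 8) (.l 8)) (.l 8)) (.l 8))))
    [(310042951680, 28185722880), (2542620639232, 481036337152), (412316860416, 137438953472), (687194767360, 137438953472)] rfl (by decide +kernel)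
theorem c1_m8_t16 : CovD 0 progs [(366414397440, 28185722880), (1580547964928, 481036337152), (412316860416, 137438953472), (687194767360, 137438953472)] :=
  Pool.Agent.helper14.QF.covD_F chks_eq (.n 2 (.n 1 (.n 1 (.l 3) (.l 4)) (.n 1 (.n 1 (.l 4) (.n 0 (.l 4) (.l 4))) (.n 2 (.l 4) (.n 0 (.l 8) (.l 8))))) (.n 2 (.n 1 (.n 1 (.l 4) (.n 0 (.l 4) (.n 0 (.l 4) (.l 8)))) (.n 1 (.l 8) (.l 8))) (.n 1 (.n 1 (.n 1 (.l 4) (.n 0 (.l 4) (.l 8))) (.n 0 (.l 8) (.l 8))) (.l 8))))
    [(366414397440, 28185722880), (1580547964928, 481036337152), (412316860416, 137438953472), (687194767360, 137438953472)] rfl (by decide +kernel)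
end
mutual
theorem c1_m8_t17 : CovD 0 progs [(422785843200, 28185722880), (1580547964928, 481036337152), (412316860416, 137438953472), (687194767360, 137438953472)] :=
  Pool.Agent.helper14.QF.covD_F chks_eq (.n 1 (.n 1 (.n 2 (.l 4) (.n 1 (.n 2 (.l 4) (.l 8)) (.n 2 (.l 4) (.l 8)))) (.n 2 (.n 2 (.l 2) (.l 4)) (.n 1 (.n 0 (.l 8) (.l 8)) (.l 8)))) (.n 1 (.n 2 (.n 2 (.l 2) (.n 0 (.l 8) (.l 8))) (.l 8)) (.n 2 (.n 2 (.n 0 (.l 2) (.l 2)) (.l 8)) (.l 8))))
    [(422785843200, 28185722880), (1580547964928, 481036337152), (412316860416, 137438953472), (687194767360, 137438953472)] rfl (by decide +kernel)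
theorem c1_m8_t19 : CovD 0 progs [(394600120320, 56371445760), (2542620639232, 481036337152), (412316860416, 137438953472), (687194767360, 137438953472)] :=
  Pool.Agent.helper14.QF.covD_F chks_eq (.n 0 (.n 1 (.n 0 (.n 2 (.n 2 (.n 1 (.l 2) (.l 8)) (.l 8)) (.l 8)) (.n 2 (.n 2 (.n 1 (.l 4) (.l 8)) (.l 8)) (.l 8))) (.n 2 (.n 2 (.n 0 (.l 8) (.l 8)) (.l 8)) (.l 8))) (.n 1 (.n 2 (.n 2 (.n 1 (.l 8) (.l 8)) (.l 8)) (.l 8)) (.n 2 (.n 2 (.l 8) (.l 8)) (.l 8))))
    [(394600120320, 56371445760), (2542620639232, 481036337152), (412316860416, 137438953472), (687194767360, 137438953472)] rfl (by decide +kernel)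
end
mutual
theorem c1_m8_t23 : CovD 0 progs [(253671505920, 28185722880), (3985729650688, 962072674304), (68719476736, 68719476736), (687194767360, 137438953472)] :=
  Pool.Agent.helper14.QF.covD_F chks_eq (.n 2 (.l 9) (.n 0 (.n 2 (.l 9) (.n 1 (.l 4) (.n 1 (.l 2) (.n 0 (.l 2) (.l 2))))) (.n 1 (.n 1 (.l 2) (.l 2)) (.n 1 (.n 2 (.l 2) (.l 2)) (.n 2 (.l 1) (.n 1 (.l 1) (.l 1)))))))
    [(253671505920, 28185722880), (3985729650688, 962072674304), (68719476736, 68719476736), (687194767360, 137438953472)] rfl (by decide +kernel)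
theorem c1_m8_t24 : CovD 0 progs [(239578644480, 14092861440), (3985729650688, 962072674304), (206158430208, 68719476736), (687194767360, 137438953472)] :=
  Pool.Agent.helper14.QF.covD_F chks_eq (.n 1 (.n 1 (.n 2 (.l 3) (.n 1 (.l 3) (.l 4))) (.n 1 (.n 2 (.l 3) (.n 2 (.l 2) (.l 2))) (.n 2 (.l 2) (.n 2 (.l 2) (.l 8))))) (.n 1 (.n 2 (.n 2 (.l 2) (.n 1 (.l 2) (.l 2))) (.n 2 (.n 2 (.n 0 (.l 2) (.l 2)) (.l 8)) (.l 8))) (.n 2 (.n 2 (.n 3 (.l 2) (.l 1)) (.n 0 (.n 1 (.l 2) (.l 1)) (.n 2 (.l 2) (.l 8)))) (.n 2 (.l 8) (.l 8)))))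
    [(239578644480, 14092861440), (3985729650688, 962072674304), (206158430208, 68719476736), (687194767360, 137438953472)] rfl (by decide +kernel)
end
mutual
theorem c1_m8_t25 : CovD 0 progs [(267764367360, 14092861440), (3504693313536, 481036337152), (206158430208, 68719476736), (687194767360, 137438953472)] :=
  Pool.Agent.helper14.QF.covD_F chks_eq (.n 1 (.n 2 (.l 4) (.n 1 (.l 2) (.n 0 (.l 2) (.l 2)))) (.n 2 (.n 1 (.l 2) (.n 0 (.l 2) (.l 2))) (.n 2 (.n 1 (.l 2) (.l 2)) (.l 8))))
    [(267764367360, 14092861440), (3504693313536, 481036337152), (206158430208, 68719476736), (687194767360, 137438953472)] rfl (by decide +kernel)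
theorem c1_m8_t26 : CovD 0 progs [(267764367360, 14092861440), (4466765987840, 481036337152), (206158430208, 68719476736), (687194767360, 137438953472)] :=
  Pool.Agent.helper14.QF.covD_F chks_eq (.n 1 (.n 2 (.n 1 (.n 2 (.l 2) (.l 2)) (.n 2 (.l 2) (.n 0 (.l 1) (.l 1)))) (.n 2 (.l 8) (.l 8))) (.n 2 (.n 0 (.n 1 (.n 2 (.l 1) (.l 1)) (.n 2 (.l 1) (.l 8))) (.n 1 (.n 2 (.l 1) (.l 8)) (.l 10))) (.l 8)))
    [(267764367360, 14092861440), (4466765987840, 481036337152), (206158430208, 68719476736), (687194767360, 137438953472)] rfl (by decide +kernel)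
end
mutual
theorem c1_m8_t30 : CovD 0 progs [(310042951680, 28185722880), (3264175144960, 240518168576), (137438953472, 137438953472), (687194767360, 137438953472)] :=
  Pool.Agent.helper14.QF.covD_F chks_eq (.n 1 (.n 2 (.l 2) (.n 2 (.l 4) (.n 2 (.l 2) (.n 0 (.l 2) (.l 2))))) (.n 2 (.n 2 (.l 2) (.l 2)) (.n 2 (.n 0 (.l 2) (.l 2)) (.n 2 (.n 0 (.l 2) (.l 2)) (.l 8)))))
    [(310042951680, 28185722880), (3264175144960, 240518168576), (137438953472, 137438953472), (687194767360, 137438953472)] rfl (by decide +kernel)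
theorem c1_m8_t31 : CovD 0 progs [(310042951680, 28185722880), (3745211482112, 240518168576), (137438953472, 137438953472), (687194767360, 137438953472)] :=
  Pool.Agent.helper14.QF.covD_F chks_eq (.n 2 (.n 2 (.l 2) (.n 1 (.l 4) (.n 0 (.l 2) (.l 1)))) (.n 0 (.n 2 (.n 2 (.l 2) (.n 1 (.l 2) (.l 2))) (.n 1 (.n 2 (.l 2) (.l 8)) (.l 8))) (.n 2 (.n 2 (.n 0 (.l 1) (.l 1)) (.n 2 (.l 2) (.l 8))) (.n 0 (.l 8) (.l 8)))))
    [(310042951680, 28185722880), (3745211482112, 240518168576), (137438953472, 137438953472), (687194767360, 137438953472)] rfl (by decide +kernel)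
end
mutual
theorem c1_m8_t33 : CovD 0 progs [(310042951680, 28185722880), (4466765987840, 481036337152), (137438953472, 137438953472), (687194767360, 137438953472)] :=
  Pool.Agent.helper14.QF.covD_F chks_eq (.n 0 (.n 1 (.n 2 (.n 2 (.l 2) (.n 1 (.l 1) (.n 0 (.l 1) (.l 10)))) (.n 2 (.n 2 (.n 3 (.l 1) (.l 1)) (.n 0 (.n 1 (.l 1) (.l 1)) (.l 8))) (.l 8))) (.l 10)) (.l 10))
    [(310042951680, 28185722880), (4466765987840, 481036337152), (137438953472, 137438953472), (687194767360, 137438953472)] rfl (by decide +kernel)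
theorem c1_m8_t36 : CovD 0 progs [(352321536000, 14092861440), (3985729650688, 962072674304), (137438953472, 137438953472), (687194767360, 137438953472)] :=
  Pool.Agent.helper14.QF.covD_F chks_eq (.n 1 (.n 2 (.n 2 (.l 9) (.n 1 (.l 2) (.n 1 (.l 1) (.l 10)))) (.n 1 (.n 2 (.n 1 (.l 2) (.n 0 (.l 1) (.l 1))) (.n 2 (.l 8) (.l 8))) (.n 1 (.n 2 (.n 2 (.l 1) (.l 1)) (.l 8)) (.l 10)))) (.l 10))
    [(352321536000, 14092861440), (3985729650688, 962072674304), (137438953472, 137438953472), (687194767360, 137438953472)] rfl (by decide +kernel)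
end
mutual
theorem c1_m8_t37 : CovD 0 progs [(380507258880, 14092861440), (3985729650688, 962072674304), (137438953472, 137438953472), (687194767360, 137438953472)] :=
  Pool.Agent.helper14.QF.covD_F chks_eq (.n 1 (.n 1 (.n 2 (.n 2 (.l 2) (.n 1 (.l 1) (.l 1))) (.n 1 (.n 2 (.n 0 (.l 1) (.l 1)) (.l 8)) (.n 1 (.n 2 (.l 1) (.l 8)) (.l 10)))) (.l 10)) (.l 10))
    [(380507258880, 14092861440), (3985729650688, 962072674304), (137438953472, 137438953472), (687194767360, 137438953472)] rfl (by decide +kernel)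
theorem c1_m8_t39 : CovD 0 progs [(422785843200, 28185722880), (3985729650688, 962072674304), (137438953472, 137438953472), (687194767360, 137438953472)] :=
  Pool.Agent.helper14.QF.covD_F chks_eq (.n 0 (.n 0 (.n 1 (.n 1 (.n 1 (.n 1 (.n 2 (.l 1) (.n 2 (.l 1) (.l 8))) (.l 10)) (.l 10)) (.l 10)) (.l 10)) (.l 10)) (.l 10))
    [(422785843200, 28185722880), (3985729650688, 962072674304), (137438953472, 137438953472), (687194767360, 137438953472)] rfl (by decide +kernel)
end
mutual
theorem c1_m8_t42 : CovD 0 progs [(281857228800, 56371445760), (3985729650688, 962072674304), (343597383680, 68719476736), (687194767360, 137438953472)] :=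
  Pool.Agent.helper14.QF.covD_F chks_eq (.n 0 (.n 0 (.n 1 (.n 1 (.n 2 (.n 2 (.n 1 (.l 3) (.l 4)) (.l 8)) (.l 8)) (.n 2 (.n 0 (.l 8) (.l 8)) (.l 8))) (.n 2 (.n 0 (.l 8) (.l 8)) (.l 8))) (.n 1 (.n 2 (.n 1 (.n 1 (.l 8) (.l 8)) (.l 8)) (.l 8)) (.n 2 (.l 8) (.l 8)))) (.n 1 (.n 1 (.n 2 (.n 0 (.l 8) (.l 8)) (.l 8)) (.n 2 (.l 8) (.l 8))) (.n 2 (.l 8) (.l 8))))
    [(281857228800, 56371445760), (3985729650688, 962072674304), (343597383680, 68719476736), (687194767360, 137438953472)] rfl (by decide +kernel)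
theorem c1_m8_t43 : CovD 0 progs [(394600120320, 56371445760), (3985729650688, 962072674304), (343597383680, 68719476736), (687194767360, 137438953472)] :=
  Pool.Agent.helper14.QF.covD_F chks_eq (.n 1 (.n 0 (.n 2 (.n 0 (.l 8) (.l 8)) (.l 8)) (.n 2 (.l 8) (.l 8))) (.l 10))
    [(394600120320, 56371445760), (3985729650688, 962072674304), (343597383680, 68719476736), (687194767360, 137438953472)] rfl (by decide +kernel)
end
mutual
theorem c1_m8_t45 : CovD 0 progs [(338228674560, 112742891520), (3985729650688, 962072674304), (481036337152, 68719476736), (687194767360, 137438953472)] :=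
  Pool.Agent.helper14.QF.covD_F chks_eq (.n 0 (.n 0 (.n 1 (.n 1 (.n 0 (.l 8) (.l 8)) (.l 8)) (.n 0 (.l 8) (.l 8))) (.n 1 (.n 0 (.l 8) (.l 8)) (.l 8))) (.n 1 (.n 0 (.n 0 (.l 8) (.l 8)) (.l 8)) (.l 10)))
    [(338228674560, 112742891520), (3985729650688, 962072674304), (481036337152, 68719476736), (687194767360, 137438953472)] rfl (by decide +kernel)
theorem c1_m8_t49 : CovD 0 progs [(338228674560, 112742891520), (6871947673600, 1924145348608), (274877906944, 274877906944), (687194767360, 137438953472)] :=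
  Pool.Agent.helper14.QF.covD_F chks_eq (.n 0 (.n 0 (.n 1 (.n 0 (.n 1 (.n 1 (.n 2 (.n 2 (.n 2 (.l 9) (.n 2 (.n 0 (.l 1) (.l 1)) (.n 3 (.l 1) (.l 1)))) (.n 2 (.n 0 (.n 2 (.n 2 (.l 1) (.l 1)) (.n 1 (.n 0 (.l 1) (.l 2)) (.l 8))) (.n 1 (.n 2 (.l 1) (.l 8)) (.l 10))) (.l 8))) (.n 2 (.l 8) (.l 8))) (.l 10)) (.l 10)) (.l 10)) (.l 10)) (.l 10)) (.l 10))
    [(338228674560, 112742891520), (6871947673600, 1924145348608), (274877906944, 274877906944), (687194767360, 137438953472)] rfl (by decide +kernel)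
end
theorem c1_m8_t4 : CovD 0 progs [(338228674560, 112742891520), (2783138807808, 240518168576), (137438953472, 137438953472), (687194767360, 137438953472)] :=
  covD_split 0 (by decide +kernel) c1_m8_t2 c1_m8_t3
theorem c1_m8_t5 : CovD 0 progs [(338228674560, 112742891520), (2542620639232, 481036337152), (137438953472, 137438953472), (687194767360, 137438953472)] :=
  covD_split 1 (by decide +kernel) c1_m8_t1 c1_m8_t4
theorem c1_m8_t6 : CovD 0 progs [(338228674560, 112742891520), (2061584302080, 962072674304), (137438953472, 137438953472), (687194767360, 137438953472)] :=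
  covD_split 1 (by decide +kernel) c1_m8_t0 c1_m8_t5
theorem c1_m8_t10 : CovD 0 progs [(253671505920, 28185722880), (2542620639232, 481036337152), (412316860416, 137438953472), (687194767360, 137438953472)] :=
  covD_split 1 (by decide +kernel) c1_m8_t8 c1_m8_t9
theorem c1_m8_t11 : CovD 0 progs [(253671505920, 28185722880), (2061584302080, 962072674304), (412316860416, 137438953472), (687194767360, 137438953472)] :=
  covD_split 1 (by decide +kernel) c1_m8_t7 c1_m8_t10
theorem c1_m8_t14 : CovD 0 progs [(310042951680, 28185722880), (2061584302080, 962072674304), (412316860416, 137438953472), (687194767360, 137438953472)] :=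
  covD_split 1 (by decide +kernel) c1_m8_t12 c1_m8_t13
theorem c1_m8_t15 : CovD 0 progs [(281857228800, 56371445760), (2061584302080, 962072674304), (412316860416, 137438953472), (687194767360, 137438953472)] :=
  covD_split 0 (by decide +kernel) c1_m8_t11 c1_m8_t14
theorem c1_m8_t18 : CovD 0 progs [(394600120320, 56371445760), (1580547964928, 481036337152), (412316860416, 137438953472), (687194767360, 137438953472)] :=
  covD_split 0 (by decide +kernel) c1_m8_t16 c1_m8_t17
theorem c1_m8_t20 : CovD 0 progs [(394600120320, 56371445760), (2061584302080, 962072674304), (412316860416, 137438953472), (687194767360, 137438953472)] :=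
  covD_split 1 (by decide +kernel) c1_m8_t18 c1_m8_t19
theorem c1_m8_t21 : CovD 0 progs [(338228674560, 112742891520), (2061584302080, 962072674304), (412316860416, 137438953472), (687194767360, 137438953472)] :=
  covD_split 0 (by decide +kernel) c1_m8_t15 c1_m8_t20
theorem c1_m8_t22 : CovD 0 progs [(338228674560, 112742891520), (2061584302080, 962072674304), (274877906944, 274877906944), (687194767360, 137438953472)] :=
  covD_split 2 (by decide +kernel) c1_m8_t6 c1_m8_t21
theorem c1_m8_t27 : CovD 0 progs [(267764367360, 14092861440), (3985729650688, 962072674304), (206158430208, 68719476736), (687194767360, 137438953472)] :=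
  covD_split 1 (by decide +kernel) c1_m8_t25 c1_m8_t26
theorem c1_m8_t28 : CovD 0 progs [(253671505920, 28185722880), (3985729650688, 962072674304), (206158430208, 68719476736), (687194767360, 137438953472)] :=
  covD_split 0 (by decide +kernel) c1_m8_t24 c1_m8_t27
theorem c1_m8_t29 : CovD 0 progs [(253671505920, 28185722880), (3985729650688, 962072674304), (137438953472, 137438953472), (687194767360, 137438953472)] :=
  covD_split 2 (by decide +kernel) c1_m8_t23 c1_m8_t28
theorem c1_m8_t32 : CovD 0 progs [(310042951680, 28185722880), (3504693313536, 481036337152), (137438953472, 137438953472), (687194767360, 137438953472)] :=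
  covD_split 1 (by decide +kernel) c1_m8_t30 c1_m8_t31
theorem c1_m8_t34 : CovD 0 progs [(310042951680, 28185722880), (3985729650688, 962072674304), (137438953472, 137438953472), (687194767360, 137438953472)] :=
  covD_split 1 (by decide +kernel) c1_m8_t32 c1_m8_t33
theorem c1_m8_t35 : CovD 0 progs [(281857228800, 56371445760), (3985729650688, 962072674304), (137438953472, 137438953472), (687194767360, 137438953472)] :=
  covD_split 0 (by decide +kernel) c1_m8_t29 c1_m8_t34
theorem c1_m8_t38 : CovD 0 progs [(366414397440, 28185722880), (3985729650688, 962072674304), (137438953472, 137438953472), (687194767360, 137438953472)] :=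
  covD_split 0 (by decide +kernel) c1_m8_t36 c1_m8_t37
theorem c1_m8_t40 : CovD 0 progs [(394600120320, 56371445760), (3985729650688, 962072674304), (137438953472, 137438953472), (687194767360, 137438953472)] :=
  covD_split 0 (by decide +kernel) c1_m8_t38 c1_m8_t39
theorem c1_m8_t41 : CovD 0 progs [(338228674560, 112742891520), (3985729650688, 962072674304), (137438953472, 137438953472), (687194767360, 137438953472)] :=
  covD_split 0 (by decide +kernel) c1_m8_t35 c1_m8_t40
theorem c1_m8_t44 : CovD 0 progs [(338228674560, 112742891520), (3985729650688, 962072674304), (343597383680, 68719476736), (687194767360, 137438953472)] :=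
  covD_split 0 (by decide +kernel) c1_m8_t42 c1_m8_t43
theorem c1_m8_t46 : CovD 0 progs [(338228674560, 112742891520), (3985729650688, 962072674304), (412316860416, 137438953472), (687194767360, 137438953472)] :=
  covD_split 2 (by decide +kernel) c1_m8_t44 c1_m8_t45
theorem c1_m8_t47 : CovD 0 progs [(338228674560, 112742891520), (3985729650688, 962072674304), (274877906944, 274877906944), (687194767360, 137438953472)] :=
  covD_split 2 (by decide +kernel) c1_m8_t41 c1_m8_t46
theorem c1_m8_t48 : CovD 0 progs [(338228674560, 112742891520), (3023656976384, 1924145348608), (274877906944, 274877906944), (687194767360, 137438953472)] :=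
  covD_split 1 (by decide +kernel) c1_m8_t22 c1_m8_t47
theorem c1_m8 : CovD 0 progs [(338228674560, 112742891520), (4947802324992, 3848290697216), (274877906944, 274877906944), (687194767360, 137438953472)] :=
  covD_split 1 (by decide +kernel) c1_m8_t48 c1_m8_t49

end Pool.Agent.helper71.FJ.Crt.LMb
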