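import Pool.Agent.helper71.FJ.Crt.LMbP

/-!
Generated certificates.
-/

namespace Pool.Agent.helper71.FJ.Crt.LMb

open Pool.Agent.helper31.IA (Z Op)
open Pool.Agent.helper31.IC

mutual
theorem c1_m9_t0 : CovD 0 progs [(28185722880, 28185722880), (4947802324992, 3848290697216), (137438953472, 137438953472), (962072674304, 137438953472)] :=
  Pool.Agent.helper14.QF.covD_F chks_eq (.n 1 (.l 9) (.n 1 (.l 9) (.n 1 (.l 9) (.n 1 (.l 9) (.n 2 (.l 9) (.n 2 (.l 9) (.n 2 (.l 9) (.n 3 (.l 7) (.l 5)))))))))
    [(28185722880, 28185722880), (4947802324992, 3848290697216), (137438953472, 137438953472), (962072674304, 137438953472)] rfl (by decide +kernel)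
theorem c1_m9_t1 : CovD 0 progs [(70464307200, 14092861440), (3023656976384, 1924145348608), (137438953472, 137438953472), (962072674304, 137438953472)] :=
  Pool.Agent.helper14.QF.covD_F chks_eq (.l 9)
    [(70464307200, 14092861440), (3023656976384, 1924145348608), (137438953472, 137438953472), (962072674304, 137438953472)] rfl (by decide +kernel)
end
mutual
theorem c1_m9_t2 : CovD 0 progs [(70464307200, 14092861440), (5909874999296, 962072674304), (137438953472, 137438953472), (962072674304, 137438953472)] :=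
  Pool.Agent.helper14.QF.covD_F chks_eq (.n 2 (.l 9) (.n 2 (.l 9) (.n 1 (.n 1 (.l 9) (.n 2 (.l 9) (.n 2 (.l 9) (.l 6)))) (.n 2 (.n 0 (.l 9) (.n 0 (.l 9) (.n 1 (.l 3) (.n 1 (.l 3) (.l 3))))) (.n 2 (.n 1 (.l 6) (.l 6)) (.n 0 (.l 6) (.l 6)))))))
    [(70464307200, 14092861440), (5909874999296, 962072674304), (137438953472, 137438953472), (962072674304, 137438953472)] rfl (by decide +kernel)
theorem c1_m9_t3 : CovD 0 progs [(70464307200, 14092861440), (7834020347904, 962072674304), (68719476736, 68719476736), (962072674304, 137438953472)] :=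
  Pool.Agent.helper14.QF.covD_F chks_eq (.l 9)
    [(70464307200, 14092861440), (7834020347904, 962072674304), (68719476736, 68719476736), (962072674304, 137438953472)] rfl (by decide +kernel)
end
mutual
theorem c1_m9_t4 : CovD 0 progs [(70464307200, 14092861440), (7834020347904, 962072674304), (171798691840, 34359738368), (962072674304, 137438953472)] :=
  Pool.Agent.helper14.QF.covD_F chks_eq (.n 0 (.l 9) (.n 0 (.n 1 (.l 9) (.n 1 (.l 9) (.n 2 (.l 9) (.n 2 (.l 9) (.n 3 (.l 3) (.l 3)))))) (.n 2 (.l 9) (.n 1 (.n 1 (.l 9) (.n 3 (.l 3) (.l 3))) (.n 1 (.n 2 (.l 9) (.n 1 (.l 3) (.l 3))) (.n 2 (.n 1 (.l 3) (.l 3)) (.n 3 (.l 3) (.l 3))))))))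
    [(70464307200, 14092861440), (7834020347904, 962072674304), (171798691840, 34359738368), (962072674304, 137438953472)] rfl (by decide +kernel)
theorem c1_m9_t5 : CovD 0 progs [(70464307200, 14092861440), (7352984010752, 481036337152), (240518168576, 34359738368), (962072674304, 137438953472)] :=
  Pool.Agent.helper14.QF.covD_F chks_eq (.n 2 (.n 0 (.l 9) (.n 1 (.n 2 (.n 0 (.l 3) (.l 4)) (.l 6)) (.n 2 (.n 2 (.n 0 (.l 3) (.l 3)) (.l 6)) (.l 6)))) (.n 0 (.n 0 (.l 6) (.n 1 (.l 6) (.l 6))) (.n 1 (.n 2 (.l 6) (.l 6)) (.n 2 (.l 6) (.n 0 (.l 6) (.l 6))))))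
    [(70464307200, 14092861440), (7352984010752, 481036337152), (240518168576, 34359738368), (962072674304, 137438953472)] rfl (by decide +kernel)
end
mutual
theorem c1_m9_t6 : CovD 0 progs [(70464307200, 14092861440), (8315056685056, 481036337152), (240518168576, 34359738368), (962072674304, 137438953472)] :=
  Pool.Agent.helper14.QF.covD_F chks_eq (.n 1 (.n 2 (.n 0 (.n 2 (.l 6) (.l 6)) (.n 2 (.n 0 (.l 6) (.n 1 (.l 6) (.l 6))) (.l 6))) (.n 3 (.n 0 (.l 6) (.n 0 (.l 6) (.l 6))) (.l 5))) (.n 3 (.n 3 (.l 7) (.n 2 (.n 2 (.l 6) (.l 6)) (.l 5))) (.n 2 (.n 2 (.n 0 (.l 6) (.l 6)) (.l 5)) (.l 5))))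
    [(70464307200, 14092861440), (8315056685056, 481036337152), (240518168576, 34359738368), (962072674304, 137438953472)] rfl (by decide +kernel)
theorem c1_m9_t12 : CovD 0 progs [(98650030080, 14092861440), (3023656976384, 1924145348608), (137438953472, 137438953472), (962072674304, 137438953472)] :=
  Pool.Agent.helper14.QF.covD_F chks_eq (.n 1 (.l 9) (.n 1 (.l 9) (.n 2 (.l 9) (.n 1 (.n 0 (.l 9) (.n 2 (.l 3) (.l 3))) (.n 2 (.l 3) (.n 2 (.l 3) (.n 0 (.l 3) (.l 3))))))))
    [(98650030080, 14092861440), (3023656976384, 1924145348608), (137438953472, 137438953472), (962072674304, 137438953472)] rfl (by decide +kernel)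
end
mutual
theorem c1_m9_t13 : CovD 0 progs [(98650030080, 14092861440), (5909874999296, 962072674304), (68719476736, 68719476736), (962072674304, 137438953472)] :=
  Pool.Agent.helper14.QF.covD_F chks_eq (.l 9)
    [(98650030080, 14092861440), (5909874999296, 962072674304), (68719476736, 68719476736), (962072674304, 137438953472)] rfl (by decide +kernel)
theorem c1_m9_t14 : CovD 0 progs [(98650030080, 14092861440), (5428838662144, 481036337152), (206158430208, 68719476736), (962072674304, 137438953472)] :=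
  Pool.Agent.helper14.QF.covD_F chks_eq (.n 1 (.n 2 (.l 9) (.n 0 (.n 1 (.l 3) (.n 0 (.l 3) (.l 3))) (.n 2 (.l 3) (.n 1 (.l 3) (.l 3))))) (.n 0 (.n 2 (.l 9) (.n 2 (.n 0 (.l 3) (.l 3)) (.n 3 (.l 3) (.l 3)))) (.n 2 (.n 2 (.l 3) (.l 3)) (.n 2 (.n 1 (.l 3) (.l 3)) (.n 2 (.n 0 (.l 3) (.l 3)) (.l 6))))))
    [(98650030080, 14092861440), (5428838662144, 481036337152), (206158430208, 68719476736), (962072674304, 137438953472)] rfl (by decide +kernel)
end
mutual
theorem c1_m9_t15 : CovD 0 progs [(98650030080, 14092861440), (6150393167872, 240518168576), (206158430208, 68719476736), (962072674304, 137438953472)] :=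
  Pool.Agent.helper14.QF.covD_F chks_eq (.n 0 (.n 2 (.l 9) (.n 2 (.n 3 (.l 3) (.l 3)) (.n 2 (.l 6) (.l 6)))) (.n 2 (.n 2 (.l 3) (.n 0 (.l 3) (.l 3))) (.n 2 (.n 0 (.n 1 (.l 3) (.l 3)) (.n 1 (.l 3) (.l 3))) (.n 2 (.n 1 (.l 4) (.l 6)) (.l 6)))))
    [(98650030080, 14092861440), (6150393167872, 240518168576), (206158430208, 68719476736), (962072674304, 137438953472)] rfl (by decide +kernel)
theorem c1_m9_t16 : CovD 0 progs [(98650030080, 14092861440), (6631429505024, 240518168576), (206158430208, 68719476736), (962072674304, 137438953472)] :=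
  Pool.Agent.helper14.QF.covD_F chks_eq (.n 0 (.n 2 (.n 2 (.l 3) (.n 1 (.l 3) (.l 4))) (.n 2 (.n 0 (.n 1 (.l 3) (.l 3)) (.n 3 (.l 3) (.l 3))) (.n 2 (.l 6) (.l 6)))) (.n 2 (.n 2 (.n 0 (.l 3) (.l 3)) (.n 2 (.l 4) (.n 0 (.l 3) (.l 3)))) (.n 2 (.n 2 (.n 3 (.l 3) (.l 3)) (.n 3 (.l 4) (.n 0 (.l 3) (.l 3)))) (.n 2 (.n 1 (.l 6) (.l 6)) (.n 3 (.l 6) (.l 6))))))
    [(98650030080, 14092861440), (6631429505024, 240518168576), (206158430208, 68719476736), (962072674304, 137438953472)] rfl (by decide +kernel)
end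
mutual
theorem c1_m9_t20 : CovD 0 progs [(91603599360, 7046430720), (7112465842176, 240518168576), (137438953472, 137438953472), (962072674304, 137438953472)] :=
  Pool.Agent.helper14.QF.covD_F chks_eq (.n 2 (.l 9) (.n 2 (.n 2 (.l 9) (.n 0 (.n 1 (.l 3) (.l 3)) (.n 1 (.l 3) (.l 3)))) (.n 2 (.n 2 (.n 3 (.l 3) (.l 3)) (.n 1 (.l 6) (.l 6))) (.n 2 (.l 6) (.n 3 (.l 6) (.l 6))))))
    [(91603599360, 7046430720), (7112465842176, 240518168576), (137438953472, 137438953472), (962072674304, 137438953472)] rfl (by decide +kernel)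
theorem c1_m9_t21 : CovD 0 progs [(91603599360, 7046430720), (7593502179328, 240518168576), (137438953472, 137438953472), (962072674304, 137438953472)] :=
  Pool.Agent.helper14.QF.covD_F chks_eq (.n 2 (.l 9) (.n 2 (.n 2 (.l 9) (.n 0 (.n 3 (.l 3) (.l 3)) (.n 2 (.l 4) (.n 1 (.l 3) (.l 3))))) (.n 2 (.n 2 (.n 0 (.n 3 (.l 3) (.l 3)) (.n 3 (.l 3) (.l 3))) (.n 2 (.l 6) (.l 6))) (.n 2 (.n 3 (.l 6) (.l 6)) (.n 3 (.l 6) (.l 5))))))
    [(91603599360, 7046430720), (7593502179328, 240518168576), (137438953472, 137438953472), (962072674304, 137438953472)] rfl (by decide +kernel)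
end
mutual
theorem c1_m9_t23 : CovD 0 progs [(105696460800, 7046430720), (7112465842176, 240518168576), (137438953472, 137438953472), (962072674304, 137438953472)] :=
  Pool.Agent.helper14.QF.covD_F chks_eq (.n 2 (.l 9) (.n 2 (.n 2 (.n 3 (.l 3) (.l 3)) (.n 0 (.n 3 (.l 3) (.l 3)) (.n 3 (.l 3) (.l 3)))) (.n 2 (.n 2 (.n 0 (.n 1 (.l 3) (.l 3)) (.n 3 (.l 3) (.l 3))) (.n 3 (.l 6) (.n 0 (.l 3) (.n 0 (.l 3) (.l 3))))) (.n 2 (.n 3 (.l 6) (.l 6)) (.n 3 (.l 6) (.n 0 (.l 6) (.l 6)))))))
    [(105696460800, 7046430720), (7112465842176, 240518168576), (137438953472, 137438953472), (962072674304, 137438953472)] rfl (by decide +kernel)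
theorem c1_m9_t24 : CovD 0 progs [(105696460800, 7046430720), (7593502179328, 240518168576), (68719476736, 68719476736), (962072674304, 137438953472)] :=
  Pool.Agent.helper14.QF.covD_F chks_eq (.l 9)
    [(105696460800, 7046430720), (7593502179328, 240518168576), (68719476736, 68719476736), (962072674304, 137438953472)] rfl (by decide +kernel)
end
mutual
theorem c1_m9_t25 : CovD 0 progs [(105696460800, 7046430720), (7593502179328, 240518168576), (171798691840, 34359738368), (962072674304, 137438953472)] :=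
  Pool.Agent.helper14.QF.covD_F chks_eq (.n 2 (.n 0 (.n 1 (.l 3) (.l 3)) (.n 1 (.l 3) (.l 4))) (.n 2 (.n 3 (.l 3) (.l 3)) (.n 0 (.n 1 (.l 3) (.l 4)) (.n 3 (.l 3) (.l 3)))))
    [(105696460800, 7046430720), (7593502179328, 240518168576), (171798691840, 34359738368), (962072674304, 137438953472)] rfl (by decide +kernel)
theorem c1_m9_t26 : CovD 0 progs [(105696460800, 7046430720), (7593502179328, 240518168576), (240518168576, 34359738368), (962072674304, 137438953472)] :=
  Pool.Agent.helper14.QF.covD_F chks_eq (.n 2 (.n 2 (.n 0 (.n 3 (.l 3) (.l 3)) (.n 3 (.l 3) (.n 0 (.l 3) (.l 3)))) (.n 3 (.l 6) (.n 0 (.l 6) (.n 1 (.l 3) (.l 3))))) (.n 2 (.n 3 (.l 6) (.n 0 (.l 6) (.l 6))) (.n 0 (.n 3 (.l 6) (.l 5)) (.l 8))))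
    [(105696460800, 7046430720), (7593502179328, 240518168576), (240518168576, 34359738368), (962072674304, 137438953472)] rfl (by decide +kernel)
end
mutual
theorem c1_m9_t31 : CovD 0 progs [(98650030080, 14092861440), (8074538516480, 240518168576), (68719476736, 68719476736), (962072674304, 137438953472)] :=
  Pool.Agent.helper14.QF.covD_F chks_eq (.l 9)
    [(98650030080, 14092861440), (8074538516480, 240518168576), (68719476736, 68719476736), (962072674304, 137438953472)] rfl (by decide +kernel)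
theorem c1_m9_t32 : CovD 0 progs [(98650030080, 14092861440), (8074538516480, 240518168576), (171798691840, 34359738368), (962072674304, 137438953472)] :=
  Pool.Agent.helper14.QF.covD_F chks_eq (.n 0 (.n 2 (.n 0 (.l 9) (.n 3 (.l 3) (.l 3))) (.n 2 (.n 3 (.l 3) (.n 0 (.l 3) (.l 3))) (.n 0 (.n 3 (.l 3) (.l 3)) (.n 3 (.l 3) (.l 3))))) (.n 2 (.n 2 (.n 0 (.l 3) (.l 3)) (.n 3 (.l 3) (.l 3))) (.n 0 (.n 2 (.n 3 (.l 3) (.l 3)) (.n 3 (.l 3) (.l 3))) (.n 2 (.n 3 (.l 3) (.l 3)) (.n 3 (.l 3) (.n 0 (.l 3) (.l 1)))))))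
    [(98650030080, 14092861440), (8074538516480, 240518168576), (171798691840, 34359738368), (962072674304, 137438953472)] rfl (by decide +kernel)
end
mutual
theorem c1_m9_t33 : CovD 0 progs [(98650030080, 14092861440), (8074538516480, 240518168576), (223338299392, 17179869184), (962072674304, 137438953472)] :=
  Pool.Agent.helper14.QF.covD_F chks_eq (.n 0 (.n 2 (.n 0 (.n 3 (.l 3) (.l 3)) (.n 2 (.n 3 (.l 3) (.l 3)) (.l 6))) (.n 2 (.l 6) (.l 6))) (.n 3 (.n 2 (.n 2 (.n 0 (.l 3) (.l 3)) (.l 6)) (.l 6)) (.n 2 (.n 0 (.n 0 (.l 3) (.l 3)) (.n 1 (.l 3) (.l 1))) (.n 3 (.l 6) (.l 5)))))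
    [(98650030080, 14092861440), (8074538516480, 240518168576), (223338299392, 17179869184), (962072674304, 137438953472)] rfl (by decide +kernel)
theorem c1_m9_t34 : CovD 0 progs [(98650030080, 14092861440), (8074538516480, 240518168576), (257698037760, 17179869184), (962072674304, 137438953472)] :=
  Pool.Agent.helper14.QF.covD_F chks_eq (.n 2 (.n 3 (.n 0 (.l 6) (.n 0 (.l 6) (.l 6))) (.l 5)) (.n 0 (.n 3 (.n 0 (.l 6) (.l 6)) (.l 5)) (.l 8)))
    [(98650030080, 14092861440), (8074538516480, 240518168576), (257698037760, 17179869184), (962072674304, 137438953472)] rfl (by decide +kernel)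
end
mutual
theorem c1_m9_t38 : CovD 0 progs [(98650030080, 14092861440), (8555574853632, 240518168576), (68719476736, 68719476736), (962072674304, 137438953472)] :=
  Pool.Agent.helper14.QF.covD_F chks_eq (.n 0 (.l 9) (.n 0 (.l 9) (.n 1 (.l 9) (.n 2 (.l 3) (.n 2 (.l 3) (.l 3))))))
    [(98650030080, 14092861440), (8555574853632, 240518168576), (68719476736, 68719476736), (962072674304, 137438953472)] rfl (by decide +kernel)
theorem c1_m9_t39 : CovD 0 progs [(98650030080, 14092861440), (8555574853632, 240518168576), (171798691840, 34359738368), (893353197568, 68719476736)] :=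
  Pool.Agent.helper14.QF.covD_F chks_eq (.n 0 (.n 0 (.n 2 (.l 3) (.n 1 (.l 3) (.l 3))) (.n 2 (.l 3) (.n 2 (.l 3) (.l 3)))) (.n 2 (.n 2 (.l 3) (.n 0 (.l 3) (.l 3))) (.n 0 (.n 2 (.l 3) (.n 0 (.l 3) (.l 3))) (.n 2 (.l 3) (.n 0 (.l 3) (.l 3))))))
    [(98650030080, 14092861440), (8555574853632, 240518168576), (171798691840, 34359738368), (893353197568, 68719476736)] rfl (by decide +kernel)
end
mutual
theorem c1_m9_t40 : CovD 0 progs [(98650030080, 14092861440), (8555574853632, 240518168576), (171798691840, 34359738368), (1030792151040, 68719476736)] :=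
  Pool.Agent.helper14.QF.covD_F chks_eq (.n 0 (.n 0 (.n 2 (.l 3) (.n 2 (.l 3) (.l 3))) (.n 2 (.n 0 (.l 3) (.l 3)) (.n 2 (.l 3) (.n 0 (.l 3) (.l 3))))) (.n 2 (.n 2 (.l 3) (.n 0 (.l 3) (.l 3))) (.n 0 (.n 2 (.l 3) (.n 0 (.l 3) (.l 3))) (.n 1 (.n 2 (.l 3) (.l 1)) (.n 2 (.l 1) (.l 1))))))
    [(98650030080, 14092861440), (8555574853632, 240518168576), (171798691840, 34359738368), (1030792151040, 68719476736)] rfl (by decide +kernel)
theorem c1_m9_t42 : CovD 0 progs [(98650030080, 14092861440), (8555574853632, 240518168576), (240518168576, 34359738368), (962072674304, 137438953472)] :=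
  Pool.Agent.helper14.QF.covD_F chks_eq (.n 3 (.n 3 (.n 2 (.n 0 (.n 0 (.l 6) (.l 6)) (.n 2 (.l 6) (.l 6))) (.n 0 (.l 7) (.n 0 (.l 8) (.l 8)))) (.n 2 (.n 0 (.n 2 (.l 6) (.l 6)) (.n 2 (.n 0 (.l 3) (.n 0 (.l 3) (.l 3))) (.l 6))) (.n 1 (.l 5) (.l 5)))) (.n 2 (.n 2 (.n 3 (.n 0 (.n 0 (.l 3) (.l 3)) (.n 2 (.n 0 (.l 3) (.l 1)) (.l 6))) (.l 5)) (.n 1 (.l 5) (.l 5))) (.l 5)))
    [(98650030080, 14092861440), (8555574853632, 240518168576), (240518168576, 34359738368), (962072674304, 137438953472)] rfl (by decide +kernel)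
end
theorem c1_m9_t7 : CovD 0 progs [(70464307200, 14092861440), (7834020347904, 962072674304), (240518168576, 34359738368), (962072674304, 137438953472)] :=
  covD_split 1 (by decide +kernel) c1_m9_t5 c1_m9_t6
theorem c1_m9_t8 : CovD 0 progs [(70464307200, 14092861440), (7834020347904, 962072674304), (206158430208, 68719476736), (962072674304, 137438953472)] :=
  covD_split 2 (by decide +kernel) c1_m9_t4 c1_m9_t7
theorem c1_m9_t9 : CovD 0 progs [(70464307200, 14092861440), (7834020347904, 962072674304), (137438953472, 137438953472), (962072674304, 137438953472)] :=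
  covD_split 2 (by decide +kernel) c1_m9_t3 c1_m9_t8
theorem c1_m9_t10 : CovD 0 progs [(70464307200, 14092861440), (6871947673600, 1924145348608), (137438953472, 137438953472), (962072674304, 137438953472)] :=
  covD_split 1 (by decide +kernel) c1_m9_t2 c1_m9_t9
theorem c1_m9_t11 : CovD 0 progs [(70464307200, 14092861440), (4947802324992, 3848290697216), (137438953472, 137438953472), (962072674304, 137438953472)] :=
  covD_split 1 (by decide +kernel) c1_m9_t1 c1_m9_t10
theorem c1_m9_t17 : CovD 0 progs [(98650030080, 14092861440), (6390911336448, 481036337152), (206158430208, 68719476736), (962072674304, 137438953472)] :=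
  covD_split 1 (by decide +kernel) c1_m9_t15 c1_m9_t16
theorem c1_m9_t18 : CovD 0 progs [(98650030080, 14092861440), (5909874999296, 962072674304), (206158430208, 68719476736), (962072674304, 137438953472)] :=
  covD_split 1 (by decide +kernel) c1_m9_t14 c1_m9_t17
theorem c1_m9_t19 : CovD 0 progs [(98650030080, 14092861440), (5909874999296, 962072674304), (137438953472, 137438953472), (962072674304, 137438953472)] :=
  covD_split 2 (by decide +kernel) c1_m9_t13 c1_m9_t18
theorem c1_m9_t22 : CovD 0 progs [(91603599360, 7046430720), (7352984010752, 481036337152), (137438953472, 137438953472), (962072674304, 137438953472)] :=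
  covD_split 1 (by decide +kernel) c1_m9_t20 c1_m9_t21
theorem c1_m9_t27 : CovD 0 progs [(105696460800, 7046430720), (7593502179328, 240518168576), (206158430208, 68719476736), (962072674304, 137438953472)] :=
  covD_split 2 (by decide +kernel) c1_m9_t25 c1_m9_t26
theorem c1_m9_t28 : CovD 0 progs [(105696460800, 7046430720), (7593502179328, 240518168576), (137438953472, 137438953472), (962072674304, 137438953472)] :=
  covD_split 2 (by decide +kernel) c1_m9_t24 c1_m9_t27
theorem c1_m9_t29 : CovD 0 progs [(105696460800, 7046430720), (7352984010752, 481036337152), (137438953472, 137438953472), (962072674304, 137438953472)] :=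
  covD_split 1 (by decide +kernel) c1_m9_t23 c1_m9_t28
theorem c1_m9_t30 : CovD 0 progs [(98650030080, 14092861440), (7352984010752, 481036337152), (137438953472, 137438953472), (962072674304, 137438953472)] :=
  covD_split 0 (by decide +kernel) c1_m9_t22 c1_m9_t29
theorem c1_m9_t35 : CovD 0 progs [(98650030080, 14092861440), (8074538516480, 240518168576), (240518168576, 34359738368), (962072674304, 137438953472)] :=
  covD_split 2 (by decide +kernel) c1_m9_t33 c1_m9_t34
theorem c1_m9_t36 : CovD 0 progs [(98650030080, 14092861440), (8074538516480, 240518168576), (206158430208, 68719476736), (962072674304, 137438953472)] :=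
  covD_split 2 (by decide +kernel) c1_m9_t32 c1_m9_t35
theorem c1_m9_t37 : CovD 0 progs [(98650030080, 14092861440), (8074538516480, 240518168576), (137438953472, 137438953472), (962072674304, 137438953472)] :=
  covD_split 2 (by decide +kernel) c1_m9_t31 c1_m9_t36
theorem c1_m9_t41 : CovD 0 progs [(98650030080, 14092861440), (8555574853632, 240518168576), (171798691840, 34359738368), (962072674304, 137438953472)] :=
  covD_split 3 (by decide +kernel) c1_m9_t39 c1_m9_t40
theorem c1_m9_t43 : CovD 0 progs [(98650030080, 14092861440), (8555574853632, 240518168576), (206158430208, 68719476736), (962072674304, 137438953472)] :=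
  covD_split 2 (by decide +kernel) c1_m9_t41 c1_m9_t42
theorem c1_m9_t44 : CovD 0 progs [(98650030080, 14092861440), (8555574853632, 240518168576), (137438953472, 137438953472), (962072674304, 137438953472)] :=
  covD_split 2 (by decide +kernel) c1_m9_t38 c1_m9_t43
theorem c1_m9_t45 : CovD 0 progs [(98650030080, 14092861440), (8315056685056, 481036337152), (137438953472, 137438953472), (962072674304, 137438953472)] :=
  covD_split 1 (by decide +kernel) c1_m9_t37 c1_m9_t44
theorem c1_m9_t46 : CovD 0 progs [(98650030080, 14092861440), (7834020347904, 962072674304), (137438953472, 137438953472), (962072674304, 137438953472)] :=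
  covD_split 1 (by decide +kernel) c1_m9_t30 c1_m9_t45
theorem c1_m9_t47 : CovD 0 progs [(98650030080, 14092861440), (6871947673600, 1924145348608), (137438953472, 137438953472), (962072674304, 137438953472)] :=
  covD_split 1 (by decide +kernel) c1_m9_t19 c1_m9_t46
theorem c1_m9_t48 : CovD 0 progs [(98650030080, 14092861440), (4947802324992, 3848290697216), (137438953472, 137438953472), (962072674304, 137438953472)] :=
  covD_split 1 (by decide +kernel) c1_m9_t12 c1_m9_t47
theorem c1_m9_t49 : CovD 0 progs [(84557168640, 28185722880), (4947802324992, 3848290697216), (137438953472, 137438953472), (962072674304, 137438953472)] :=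
  covD_split 0 (by decide +kernel) c1_m9_t11 c1_m9_t48
theorem c1_m9 : CovD 0 progs [(56371445760, 56371445760), (4947802324992, 3848290697216), (137438953472, 137438953472), (962072674304, 137438953472)] :=
  covD_split 0 (by decide +kernel) c1_m9_t0 c1_m9_t49

end Pool.Agent.helper71.FJ.Crt.LMb
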