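import Pool.Agent.helper71.FJ.Crt.LMbc1_0
import Pool.Agent.helper71.FJ.Crt.LMbc1_1
import Pool.Agent.helper71.FJ.Crt.LMbc1_2
import Pool.Agent.helper71.FJ.Crt.LMbc1_3
import Pool.Agent.helper71.FJ.Crt.LMbc1_4
import Pool.Agent.helper71.FJ.Crt.LMbc1_5
import Pool.Agent.helper71.FJ.Crt.LMbc1_6
import Pool.Agent.helper71.FJ.Crt.LMbc1_7
import Pool.Agent.helper71.FJ.Crt.LMbc1_8
import Pool.Agent.helper71.FJ.Crt.LMbc1_9
import Pool.Agent.helper71.FJ.Crt.LMbc1_10
import Pool.Agent.helper71.FJ.Crt.LMbc1_11
import Pool.Agent.helper71.FJ.Crt.LMbc1_12
import Pool.Agent.helper71.FJ.Crt.LMbc1_13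
import Pool.Agent.helper71.FJ.Crt.LMbc1_14
import Pool.Agent.helper71.FJ.Crt.LMbc1_15
import Pool.Agent.helper71.FJ.Crt.LMbc1_16

/-!
Generated certificates, assembled.
-/

namespace Pool.Agent.helper71.FJ.Crt.LMb

open Pool.Agent.helper31.IA (Z Op)
open Pool.Agent.helper31.IC

theorem c1_top0 : CovD 0 progs [(338228674560, 112742891520), (3023656976384, 1924145348608), (274877906944, 274877906944), (274877906944, 274877906944)] :=
  covD_split 0 (by decide +kernel) c1_m1 c1_m2
theorem c1_top1 : CovD 0 progs [(225485783040, 225485783040), (3023656976384, 1924145348608), (274877906944, 274877906944), (274877906944, 274877906944)] :=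
  covD_split 0 (by decide +kernel) c1_m0 c1_top0
theorem c1_top2 : CovD 0 progs [(225485783040, 225485783040), (4947802324992, 3848290697216), (274877906944, 274877906944), (274877906944, 274877906944)] :=
  covD_split 1 (by decide +kernel) c1_top1 c1_m3
theorem c1_top3 : CovD 0 progs [(169114337280, 56371445760), (6871947673600, 1924145348608), (274877906944, 274877906944), (687194767360, 137438953472)] :=
  covD_split 0 (by decide +kernel) c1_m6 c1_m7
theorem c1_top4 : CovD 0 progs [(169114337280, 56371445760), (4947802324992, 3848290697216), (274877906944, 274877906944), (687194767360, 137438953472)] :=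
  covD_split 1 (by decide +kernel) c1_m5 c1_top3
theorem c1_top5 : CovD 0 progs [(112742891520, 112742891520), (4947802324992, 3848290697216), (274877906944, 274877906944), (687194767360, 137438953472)] :=
  covD_split 0 (by decide +kernel) c1_m4 c1_top4
theorem c1_top6 : CovD 0 progs [(225485783040, 225485783040), (4947802324992, 3848290697216), (274877906944, 274877906944), (687194767360, 137438953472)] :=
  covD_split 0 (by decide +kernel) c1_top5 c1_m8
theorem c1_top7 : CovD 0 progs [(140928614400, 28185722880), (4947802324992, 3848290697216), (137438953472, 137438953472), (962072674304, 137438953472)] :=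
  covD_split 0 (by decide +kernel) c1_m10 c1_m11
theorem c1_top8 : CovD 0 progs [(169114337280, 56371445760), (4947802324992, 3848290697216), (137438953472, 137438953472), (962072674304, 137438953472)] :=
  covD_split 0 (by decide +kernel) c1_top7 c1_m12
theorem c1_top9 : CovD 0 progs [(112742891520, 112742891520), (4947802324992, 3848290697216), (137438953472, 137438953472), (962072674304, 137438953472)] :=
  covD_split 0 (by decide +kernel) c1_m9 c1_top8
theorem c1_top10 : CovD 0 progs [(225485783040, 225485783040), (4947802324992, 3848290697216), (137438953472, 137438953472), (962072674304, 137438953472)] :=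
  covD_split 0 (by decide +kernel) c1_top9 c1_m13
theorem c1_top11 : CovD 0 progs [(112742891520, 112742891520), (4947802324992, 3848290697216), (412316860416, 137438953472), (962072674304, 137438953472)] :=
  covD_split 0 (by decide +kernel) c1_m14 c1_m15
theorem c1_top12 : CovD 0 progs [(225485783040, 225485783040), (4947802324992, 3848290697216), (412316860416, 137438953472), (962072674304, 137438953472)] :=
  covD_split 0 (by decide +kernel) c1_top11 c1_m16
theorem c1_top13 : CovD 0 progs [(225485783040, 225485783040), (4947802324992, 3848290697216), (274877906944, 274877906944), (962072674304, 137438953472)] :=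
  covD_split 2 (by decide +kernel) c1_top10 c1_top12
theorem c1_top14 : CovD 0 progs [(225485783040, 225485783040), (4947802324992, 3848290697216), (274877906944, 274877906944), (824633720832, 274877906944)] :=
  covD_split 3 (by decide +kernel) c1_top6 c1_top13
theorem c1_top15 : CovD 0 progs [(225485783040, 225485783040), (4947802324992, 3848290697216), (274877906944, 274877906944), (549755813888, 549755813888)] :=
  covD_split 3 (by decide +kernel) c1_top2 c1_top14

theorem c1_all : CovD 0 progs [(225485783040, 225485783040), (4947802324992, 3848290697216), (274877906944, 274877906944), (549755813888, 549755813888)] := c1_top15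

end Pool.Agent.helper71.FJ.Crt.LMb
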