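import Pool.Agent.helper71.FJ.Crt.LMcc0_0

/-!
Generated certificates, assembled.
-/

namespace Pool.Agent.helper71.FJ.Crt.LMc

open Pool.Agent.helper31.IA (Z Op)
open Pool.Agent.helper31.IC


theorem c0_all : CovD 0 progs [(68719476736, 68719476736), (549755813888, 549755813888), (3573412790272, 3573412790272), (549755813888, 549755813888)] := c0_m0

end Pool.Agent.helper71.FJ.Crt.LMc
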