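import Pool.Agent.helper71.FJ.Crt.XHIP

/-!
Generated certificates.
-/

namespace Pool.Agent.helper71.FJ.Crt.XHI

open Pool.Agent.helper31.IA (Z Op)
open Pool.Agent.helper31.IC

mutual
theorem c0_m1_t0 : CovD 0 progs [(1417339207680, 283467841536), (549755813888, 549755813888), (132808441856, 22884122624), (274877906944, 274877906944)] :=
  Pool.Agent.helper14.QF.covD_F chks_eq (.n 1 (.l 3) (.n 1 (.n 1 (.l 2) (.l 3)) (.n 0 (.n 3 (.l 2) (.l 3)) (.n 1 (.n 1 (.l 3) (.l 3)) (.n 3 (.l 3) (.n 0 (.l 2) (.l 3)))))))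
    [(1417339207680, 283467841536), (549755813888, 549755813888), (132808441856, 22884122624), (274877906944, 274877906944)] rfl (by decide +kernel)
theorem c0_m1_t1 : CovD 0 progs [(1842540969984, 141733920768), (549755813888, 549755813888), (132808441856, 22884122624), (274877906944, 274877906944)] :=
  Pool.Agent.helper14.QF.covD_F chks_eq (.n 1 (.l 3) (.n 1 (.n 1 (.l 2) (.n 0 (.l 3) (.l 3))) (.n 1 (.n 3 (.n 0 (.l 2) (.l 2)) (.n 3 (.l 3) (.l 3))) (.n 0 (.n 3 (.n 0 (.l 2) (.l 3)) (.n 3 (.l 3) (.l 3))) (.n 2 (.n 3 (.l 2) (.l 3)) (.n 0 (.n 0 (.n 3 (.l 2) (.l 3)) (.l 5)) (.l 5)))))))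
    [(1842540969984, 141733920768), (549755813888, 549755813888), (132808441856, 22884122624), (274877906944, 274877906944)] rfl (by decide +kernel)
end
mutual
theorem c0_m1_t2 : CovD 0 progs [(2126008811520, 141733920768), (549755813888, 549755813888), (132808441856, 22884122624), (274877906944, 274877906944)] :=
  Pool.Agent.helper14.QF.covD_F chks_eq (.n 0 (.n 1 (.l 3) (.n 2 (.n 1 (.l 3) (.n 1 (.n 3 (.l 2) (.l 2)) (.n 3 (.n 1 (.l 2) (.l 3)) (.n 3 (.l 3) (.l 2))))) (.l 5))) (.n 2 (.n 1 (.l 2) (.n 2 (.n 1 (.l 3) (.n 1 (.n 3 (.l 2) (.l 2)) (.n 1 (.n 3 (.l 2) (.l 2)) (.n 3 (.n 0 (.l 2) (.l 2)) (.n 3 (.l 2) (.l 2)))))) (.l 5))) (.l 5)))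
    [(2126008811520, 141733920768), (549755813888, 549755813888), (132808441856, 22884122624), (274877906944, 274877906944)] rfl (by decide +kernel)
theorem c0_m1_t5 : CovD 0 progs [(1700807049216, 566935683072), (549755813888, 549755813888), (132808441856, 22884122624), (824633720832, 274877906944)] :=
  Pool.Agent.helper14.QF.covD_F chks_eq (.n 3 (.n 1 (.n 1 (.l 2) (.l 3)) (.n 0 (.n 1 (.l 3) (.n 0 (.n 0 (.l 3) (.l 3)) (.n 1 (.l 3) (.n 0 (.l 3) (.l 3))))) (.n 0 (.n 0 (.n 1 (.l 3) (.l 7)) (.n 1 (.l 3) (.l 7))) (.n 1 (.n 2 (.l 2) (.l 5)) (.l 7))))) (.n 0 (.n 1 (.l 3) (.n 1 (.l 3) (.n 0 (.l 3) (.l 7)))) (.n 1 (.l 3) (.n 1 (.n 0 (.l 3) (.l 7)) (.l 7)))))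
    [(1700807049216, 566935683072), (549755813888, 549755813888), (132808441856, 22884122624), (824633720832, 274877906944)] rfl (by decide +kernel)
end
theorem c0_m1_t3 : CovD 0 progs [(1984274890752, 283467841536), (549755813888, 549755813888), (132808441856, 22884122624), (274877906944, 274877906944)] :=
  covD_split 0 (by decide +kernel) c0_m1_t1 c0_m1_t2
theorem c0_m1_t4 : CovD 0 progs [(1700807049216, 566935683072), (549755813888, 549755813888), (132808441856, 22884122624), (274877906944, 274877906944)] :=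
  covD_split 0 (by decide +kernel) c0_m1_t0 c0_m1_t3
theorem c0_m1 : CovD 0 progs [(1700807049216, 566935683072), (549755813888, 549755813888), (132808441856, 22884122624), (549755813888, 549755813888)] :=
  covD_split 3 (by decide +kernel) c0_m1_t4 c0_m1_t5

end Pool.Agent.helper71.FJ.Crt.XHI
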