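import Pool.Agent.helper71.FJ.Crt.XHIc0_0
import Pool.Agent.helper71.FJ.Crt.XHIc0_1
import Pool.Agent.helper71.FJ.Crt.XHIc0_2
import Pool.Agent.helper71.FJ.Crt.XHIc0_3
import Pool.Agent.helper71.FJ.Crt.XHIc0_4
import Pool.Agent.helper71.FJ.Crt.XHIc0_5
import Pool.Agent.helper71.FJ.Crt.XHIc0_6

/-!
Generated certificates, assembled.
-/

namespace Pool.Agent.helper71.FJ.Crt.XHI

open Pool.Agent.helper31.IA (Z Op)
open Pool.Agent.helper31.IC

theorem c0_top0 : CovD 0 progs [(1700807049216, 566935683072), (1374389534720, 274877906944), (121366380544, 11442061312), (549755813888, 549755813888)] :=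
  covD_split 1 (by decide +kernel) c0_m2 c0_m3
theorem c0_top1 : CovD 0 progs [(1700807049216, 566935683072), (1649267441664, 549755813888), (121366380544, 11442061312), (549755813888, 549755813888)] :=
  covD_split 1 (by decide +kernel) c0_top0 c0_m4
theorem c0_top2 : CovD 0 progs [(1700807049216, 566935683072), (1649267441664, 549755813888), (144250503168, 11442061312), (549755813888, 549755813888)] :=
  covD_split 1 (by decide +kernel) c0_m5 c0_m6
theorem c0_top3 : CovD 0 progs [(1700807049216, 566935683072), (1649267441664, 549755813888), (132808441856, 22884122624), (549755813888, 549755813888)] :=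
  covD_split 2 (by decide +kernel) c0_top1 c0_top2
theorem c0_top4 : CovD 0 progs [(1700807049216, 566935683072), (1099511627776, 1099511627776), (132808441856, 22884122624), (549755813888, 549755813888)] :=
  covD_split 1 (by decide +kernel) c0_m1 c0_top3
theorem c0_top5 : CovD 0 progs [(1133871366144, 1133871366144), (1099511627776, 1099511627776), (132808441856, 22884122624), (549755813888, 549755813888)] :=
  covD_split 0 (by decide +kernel) c0_m0 c0_top4

theorem c0_all : CovD 0 progs [(1133871366144, 1133871366144), (1099511627776, 1099511627776), (132808441856, 22884122624), (549755813888, 549755813888)] := c0_top5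

end Pool.Agent.helper71.FJ.Crt.XHI
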