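import Pool.Agent.helper71.FJ.Crt.XHIc1_0

/-!
Generated certificates, assembled.
-/

namespace Pool.Agent.helper71.FJ.Crt.XHI

open Pool.Agent.helper31.IA (Z Op)
open Pool.Agent.helper31.IC


theorem c1_all : CovD 0 progs [(3401614098432, 1133871366144), (1099511627776, 1099511627776), (132808441856, 22884122624), (549755813888, 549755813888)] := c1_m0

end Pool.Agent.helper71.FJ.Crt.XHI
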