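import Pool.Agent.helper71.FF.Real
import Pool.Agent.helper71.FF.Ib
import Pool.Agent.helper71.FJ.Crt.LHIc0
import Pool.Agent.helper71.FJ.Crt.LHIc1
import Pool.Agent.helper71.FJ.Crt.LHIIIc0
import Pool.Agent.helper71.FJ.Crt.LMac0
import Pool.Agent.helper71.FJ.Crt.LMbc0
import Pool.Agent.helper71.FJ.Crt.LMbc1
import Pool.Agent.helper71.FJ.Crt.LMcc0
import Pool.Agent.helper71.FJ.Crt.XHIc0
import Pool.Agent.helper71.FJ.Crt.XHIc1
import Pool.Agent.helper71.FJ.Crt.XHIIIc0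
import Pool.Agent.helper71.FJ.Crt.XMac0
import Pool.Agent.helper71.FJ.Crt.XMbc0
import Pool.Agent.helper71.FJ.Crt.XMbc1

/-!
Generated: the certified boxes.
-/

namespace Pool.Agent.helper71.FJ

open Pool.Agent.helper71.FF (RAs ras_of_cov ib)

theorem covLHI_0 {a b c d : ℝ} (a0 : 0 ≤ a) (a1 : a ≤ 33 / 16) (b0 : 0 ≤ b) (b1 : b ≤ 2) (c0 : 819 / 8192 ≤ c) (c1 : c ≤ 145 / 1024) (d0 : 0 ≤ d) (d1 : d ≤ 1) :
    ∃ ops ∈ Pool.Agent.helper71.FJ.Crt.LHI.progs, RAs ops [a, b, c, d] :=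
  ras_of_cov (by decide +kernel) Pool.Agent.helper71.FJ.Crt.LHI.c0_all
    (List.Forall₂.cons (ib (by norm_num) (by norm_num) a0 a1) (List.Forall₂.cons (ib (by norm_num) (by norm_num) b0 b1) (List.Forall₂.cons (ib (by norm_num) (by norm_num) c0 c1) (List.Forall₂.cons (ib (by norm_num) (by norm_num) d0 d1) List.Forall₂.nil))))

theorem covLHI_1 {a b c d : ℝ} (a0 : 33 / 16 ≤ a) (a1 : a ≤ 33 / 8) (b0 : 0 ≤ b) (b1 : b ≤ 2) (c0 : 819 / 8192 ≤ c) (c1 : c ≤ 145 / 1024) (d0 : 0 ≤ d) (d1 : d ≤ 1) :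
    ∃ ops ∈ Pool.Agent.helper71.FJ.Crt.LHI.progs, RAs ops [a, b, c, d] :=
  ras_of_cov (by decide +kernel) Pool.Agent.helper71.FJ.Crt.LHI.c1_all
    (List.Forall₂.cons (ib (by norm_num) (by norm_num) a0 a1) (List.Forall₂.cons (ib (by norm_num) (by norm_num) b0 b1) (List.Forall₂.cons (ib (by norm_num) (by norm_num) c0 c1) (List.Forall₂.cons (ib (by norm_num) (by norm_num) d0 d1) List.Forall₂.nil))))

theorem covLHIII_0 {a b c d : ℝ} (a0 : 0 ≤ a) (a1 : a ≤ 313 / 128) (b0 : 0 ≤ b) (b1 : b ≤ 1) (c0 : 0 ≤ c) (c1 : c ≤ 1 / 2) (d0 : 0 ≤ d) (d1 : d ≤ 1) :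
    ∃ ops ∈ Pool.Agent.helper71.FJ.Crt.LHIII.progs, RAs ops [a, b, c, d] :=
  ras_of_cov (by decide +kernel) Pool.Agent.helper71.FJ.Crt.LHIII.c0_all
    (List.Forall₂.cons (ib (by norm_num) (by norm_num) a0 a1) (List.Forall₂.cons (ib (by norm_num) (by norm_num) b0 b1) (List.Forall₂.cons (ib (by norm_num) (by norm_num) c0 c1) (List.Forall₂.cons (ib (by norm_num) (by norm_num) d0 d1) List.Forall₂.nil))))

theorem covLMa_0 {a b c d : ℝ} (a0 : 0 ≤ a) (a1 : a ≤ 105 / 256) (b0 : 0 ≤ b) (b1 : b ≤ 13 / 32) (c0 : 0 ≤ c) (c1 : c ≤ 2) (d0 : 0 ≤ d) (d1 : d ≤ 1) :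
    ∃ ops ∈ Pool.Agent.helper71.FJ.Crt.LMa.progs, RAs ops [a, b, c, d] :=
  ras_of_cov (by decide +kernel) Pool.Agent.helper71.FJ.Crt.LMa.c0_all
    (List.Forall₂.cons (ib (by norm_num) (by norm_num) a0 a1) (List.Forall₂.cons (ib (by norm_num) (by norm_num) b0 b1) (List.Forall₂.cons (ib (by norm_num) (by norm_num) c0 c1) (List.Forall₂.cons (ib (by norm_num) (by norm_num) d0 d1) List.Forall₂.nil))))

theorem covLMb_0 {a b c d : ℝ} (a0 : 0 ≤ a) (a1 : a ≤ 105 / 256) (b0 : 0 ≤ b) (b1 : b ≤ 1) (c0 : 0 ≤ c) (c1 : c ≤ 1 / 2) (d0 : 0 ≤ d) (d1 : d ≤ 1) :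
    ∃ ops ∈ Pool.Agent.helper71.FJ.Crt.LMb.progs, RAs ops [a, b, c, d] :=
  ras_of_cov (by decide +kernel) Pool.Agent.helper71.FJ.Crt.LMb.c0_all
    (List.Forall₂.cons (ib (by norm_num) (by norm_num) a0 a1) (List.Forall₂.cons (ib (by norm_num) (by norm_num) b0 b1) (List.Forall₂.cons (ib (by norm_num) (by norm_num) c0 c1) (List.Forall₂.cons (ib (by norm_num) (by norm_num) d0 d1) List.Forall₂.nil))))

theorem covLMb_1 {a b c d : ℝ} (a0 : 0 ≤ a) (a1 : a ≤ 105 / 256) (b0 : 1 ≤ b) (b1 : b ≤ 8) (c0 : 0 ≤ c) (c1 : c ≤ 1 / 2) (d0 : 0 ≤ d) (d1 : d ≤ 1) :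
    ∃ ops ∈ Pool.Agent.helper71.FJ.Crt.LMb.progs, RAs ops [a, b, c, d] :=
  ras_of_cov (by decide +kernel) Pool.Agent.helper71.FJ.Crt.LMb.c1_all
    (List.Forall₂.cons (ib (by norm_num) (by norm_num) a0 a1) (List.Forall₂.cons (ib (by norm_num) (by norm_num) b0 b1) (List.Forall₂.cons (ib (by norm_num) (by norm_num) c0 c1) (List.Forall₂.cons (ib (by norm_num) (by norm_num) d0 d1) List.Forall₂.nil))))

theorem covLMc_0 {a b c d : ℝ} (a0 : 0 ≤ a) (a1 : a ≤ 1 / 8) (b0 : 0 ≤ b) (b1 : b ≤ 1) (c0 : 0 ≤ c) (c1 : c ≤ 13 / 2) (d0 : 0 ≤ d) (d1 : d ≤ 1) :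
    ∃ ops ∈ Pool.Agent.helper71.FJ.Crt.LMc.progs, RAs ops [a, b, c, d] :=
  ras_of_cov (by decide +kernel) Pool.Agent.helper71.FJ.Crt.LMc.c0_all
    (List.Forall₂.cons (ib (by norm_num) (by norm_num) a0 a1) (List.Forall₂.cons (ib (by norm_num) (by norm_num) b0 b1) (List.Forall₂.cons (ib (by norm_num) (by norm_num) c0 c1) (List.Forall₂.cons (ib (by norm_num) (by norm_num) d0 d1) List.Forall₂.nil))))

theorem covXHI_0 {a b c d : ℝ} (a0 : 0 ≤ a) (a1 : a ≤ 33 / 16) (b0 : 0 ≤ b) (b1 : b ≤ 2) (c0 : 819 / 8192 ≤ c) (c1 : c ≤ 145 / 1024) (d0 : 0 ≤ d) (d1 : d ≤ 1) :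
    ∃ ops ∈ Pool.Agent.helper71.FJ.Crt.XHI.progs, RAs ops [a, b, c, d] :=
  ras_of_cov (by decide +kernel) Pool.Agent.helper71.FJ.Crt.XHI.c0_all
    (List.Forall₂.cons (ib (by norm_num) (by norm_num) a0 a1) (List.Forall₂.cons (ib (by norm_num) (by norm_num) b0 b1) (List.Forall₂.cons (ib (by norm_num) (by norm_num) c0 c1) (List.Forall₂.cons (ib (by norm_num) (by norm_num) d0 d1) List.Forall₂.nil))))

theorem covXHI_1 {a b c d : ℝ} (a0 : 33 / 16 ≤ a) (a1 : a ≤ 33 / 8) (b0 : 0 ≤ b) (b1 : b ≤ 2) (c0 : 819 / 8192 ≤ c) (c1 : c ≤ 145 / 1024) (d0 : 0 ≤ d) (d1 : d ≤ 1) :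
    ∃ ops ∈ Pool.Agent.helper71.FJ.Crt.XHI.progs, RAs ops [a, b, c, d] :=
  ras_of_cov (by decide +kernel) Pool.Agent.helper71.FJ.Crt.XHI.c1_all
    (List.Forall₂.cons (ib (by norm_num) (by norm_num) a0 a1) (List.Forall₂.cons (ib (by norm_num) (by norm_num) b0 b1) (List.Forall₂.cons (ib (by norm_num) (by norm_num) c0 c1) (List.Forall₂.cons (ib (by norm_num) (by norm_num) d0 d1) List.Forall₂.nil))))

theorem covXHIII_0 {a b c d : ℝ} (a0 : 0 ≤ a) (a1 : a ≤ 313 / 128) (b0 : 0 ≤ b) (b1 : b ≤ 1) (c0 : 0 ≤ c) (c1 : c ≤ 1 / 2) (d0 : 0 ≤ d) (d1 : d ≤ 1) :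
    ∃ ops ∈ Pool.Agent.helper71.FJ.Crt.XHIII.progs, RAs ops [a, b, c, d] :=
  ras_of_cov (by decide +kernel) Pool.Agent.helper71.FJ.Crt.XHIII.c0_all
    (List.Forall₂.cons (ib (by norm_num) (by norm_num) a0 a1) (List.Forall₂.cons (ib (by norm_num) (by norm_num) b0 b1) (List.Forall₂.cons (ib (by norm_num) (by norm_num) c0 c1) (List.Forall₂.cons (ib (by norm_num) (by norm_num) d0 d1) List.Forall₂.nil))))

theorem covXMa_0 {a b c d : ℝ} (a0 : 0 ≤ a) (a1 : a ≤ 105 / 256) (b0 : 0 ≤ b) (b1 : b ≤ 13 / 32) (c0 : 0 ≤ c) (c1 : c ≤ 2) (d0 : 0 ≤ d) (d1 : d ≤ 1) :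
    ∃ ops ∈ Pool.Agent.helper71.FJ.Crt.XMa.progs, RAs ops [a, b, c, d] :=
  ras_of_cov (by decide +kernel) Pool.Agent.helper71.FJ.Crt.XMa.c0_all
    (List.Forall₂.cons (ib (by norm_num) (by norm_num) a0 a1) (List.Forall₂.cons (ib (by norm_num) (by norm_num) b0 b1) (List.Forall₂.cons (ib (by norm_num) (by norm_num) c0 c1) (List.Forall₂.cons (ib (by norm_num) (by norm_num) d0 d1) List.Forall₂.nil))))

theorem covXMb_0 {a b c d : ℝ} (a0 : 0 ≤ a) (a1 : a ≤ 105 / 256) (b0 : 0 ≤ b) (b1 : b ≤ 1) (c0 : 0 ≤ c) (c1 : c ≤ 1 / 2) (d0 : 0 ≤ d) (d1 : d ≤ 1) :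
    ∃ ops ∈ Pool.Agent.helper71.FJ.Crt.XMb.progs, RAs ops [a, b, c, d] :=
  ras_of_cov (by decide +kernel) Pool.Agent.helper71.FJ.Crt.XMb.c0_all
    (List.Forall₂.cons (ib (by norm_num) (by norm_num) a0 a1) (List.Forall₂.cons (ib (by norm_num) (by norm_num) b0 b1) (List.Forall₂.cons (ib (by norm_num) (by norm_num) c0 c1) (List.Forall₂.cons (ib (by norm_num) (by norm_num) d0 d1) List.Forall₂.nil))))

theorem covXMb_1 {a b c d : ℝ} (a0 : 0 ≤ a) (a1 : a ≤ 105 / 256) (b0 : 1 ≤ b) (b1 : b ≤ 8) (c0 : 0 ≤ c) (c1 : c ≤ 1 / 2) (d0 : 0 ≤ d) (d1 : d ≤ 1) :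
    ∃ ops ∈ Pool.Agent.helper71.FJ.Crt.XMb.progs, RAs ops [a, b, c, d] :=
  ras_of_cov (by decide +kernel) Pool.Agent.helper71.FJ.Crt.XMb.c1_all
    (List.Forall₂.cons (ib (by norm_num) (by norm_num) a0 a1) (List.Forall₂.cons (ib (by norm_num) (by norm_num) b0 b1) (List.Forall₂.cons (ib (by norm_num) (by norm_num) c0 c1) (List.Forall₂.cons (ib (by norm_num) (by norm_num) d0 d1) List.Forall₂.nil))))

end Pool.Agent.helper71.FJ
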