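import Pool.Agent.helper31.IC.EngD
import Pool.Agent.helper14.QF.Inst

/-!
Generated: straight line program(s) and compiled form(s).
-/

namespace Pool.Agent.helper71.FJ.Crt.LHI

open Pool.Agent.helper31.IA (Z Op)
open Pool.Agent.helper31.IC

set_option maxRecDepth 100000

abbrev opsE : Ops := Pool.Agent.helper14.QF.opsF

def prog0 : List Op := [
  .const ⟨1099511627776, 0, 0, 0⟩,
  .mul 1 3,
  .mul 3 4,
  .mul 3 4,
  .mul 5 5,
  .mul 3 0,
  .mul 8 8,
  .mul 5 1,
  .const ⟨549755813888, 0, 0, 0⟩,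
  .mul 7 6,
  .mul 0 13,
  .scale ⟨549755813888, 0, 0, 0⟩ 0,
  .mul 9 9,
  .mul 1 1,
  .sub 13 0,
  .inv 0,
  .mul 4 0,
  .scale ⟨2199023255552, 0, 0, 0⟩ 0,
  .scale ⟨2199023255552, 0, 0, 0⟩ 2,
  .sub 0 18,
  .add 0 2,
  .mul 24 5,
  .mul 19 0,
  .sub 22 0,
  .add 23 1,
  .mul 23 12,
  .mul 4 4,
  .scale ⟨10774999203840, 0, 0, 0⟩ 15,
  .scale ⟨45768245248, 0, 0, 0⟩ 0,
  .const ⟨183207198720, 0, 0, 0⟩,
  .add 1 0,
  .mul 3 0,
  .add 23 0,
  .mul 5 0,
  .add 33 0,
  .mul 7 0,
  .scale ⟨549755813888, 0, 0, 0⟩ 0,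
  .add 36 0,
  .mul 3 0,
  .mul 21 16,
  .scale ⟨2199023255552, 0, 0, 0⟩ 20,
  .add 1 0,
  .add 0 40,
  .mul 17 0,
  .add 0 43,
  .mul 27 27,
  .scale ⟨2199023255552, 0, 0, 0⟩ 0,
  .add 0 46,
  .mul 28 5,
  .sub 0 48,
  .log 5,
  .scale ⟨549755813888, 0, 0, 0⟩ 0,
  .exp 0,
  .const ⟨3298534883328, 0, 0, 0⟩,
  .inv 0,
  .mul 54 0,
  .const ⟨2199023255552, 0, 0, 0⟩,
  .add 13 0,
  .inv 0,
  .mul 15 0,
  .mul 0 0,
  .sub 60 1,
  .mul 1 6,
  .add 62 0,
  .mul 2 0,
  .mul 4 4,
  .scale ⟨219915747328, 0, 0, 0⟩ 0,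
  .mul 24 2,
  .scale ⟨549755813888, 0, 0, 0⟩ 0,
  .mul 26 2,
  .scale ⟨549755813888, 0, 0, 0⟩ 0,
  .add 2 0,
  .mul 52 22,
  .scale ⟨4398046511104, 0, 0, 0⟩ 0,
  .mul 54 48,
  .mul 0 25,
  .scale ⟨4398046511104, 0, 0, 0⟩ 0,
  .add 0 20,
  .inv 0,
  .mul 2 0,
  .mul 0 0,
  .sub 80 1,
  .mul 1 26,
  .add 82 0,
  .mul 2 0,
  .mul 4 4,
  .scale ⟨219915747328, 0, 0, 0⟩ 0,
  .mul 13 2,
  .scale ⟨549755813888, 0, 0, 0⟩ 0,
  .sub 0 17,
  .mul 16 3,
  .scale ⟨549755813888, 0, 0, 0⟩ 0,
  .add 0 21,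
  .add 3 0,
  .mul 88 25,
  .neg 0,
  .exp 0,
  .mul 91 26,
  .mul 1 0,
  .mul 93 9,
  .neg 0,
  .exp 0,
  .mul 96 9,
  .mul 1 0,
  .mul 81 86,
  .add 85 0,
  .inv 0,
  .mul 82 0,
  .mul 84 106,
  .mul 0 1,
  .sub 109 97,
  .mul 84 0,
  .mul 102 102,
  .sub 112 86,
  .mul 3 0,
  .mul 89 65,
  .inv 71,
  .mul 1 0,
  .add 98 0,
  .mul 74 0,
  .mul 0 0,
  .inv 0,
  .mul 7 0,
  .add 103 97,
  .mul 123 0,
  .inv 0,
  .mul 122 0,
  .mul 0 0,
  .mul 0 13,
  .const ⟨45812285440, 0, 0, 0⟩,
  .scale ⟨1527119872, 0, 0, 0⟩ 1,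
  .sub 1 0,
  .mul 3 0,
  .sub 124 0,
  .mul 5 0,
  .sub 134 0,
  .add 39 135,
  .mul 40 40,
  .add 0 137,
  .mul 42 3,
  .scale ⟨2199023255552, 0, 0, 0⟩ 0,
  .add 2 0,
  .scale ⟨4398046511104, 0, 0, 0⟩ 43,
  .sub 1 0,
  .inv 7,
  .mul 1 0,
  .add 0 9,
  .mul 50 37,
  .scale ⟨549755813888, 0, 0, 0⟩ 0,
  .mul 0 2,
  .sub 6 0,
  .pos 7,
  .pos 0,
  .mul 145 79,
  .scale ⟨2199023255552, 0, 0, 0⟩ 0,
  .scale ⟨183274307584, 0, 0, 0⟩ 0,
  .sub 145 0,
  .mul 2 0,
  .sub 155 0,
  .mul 85 0,
  .inv 7,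
  .mul 1 0,
  .mul 154 0,
  .add 0 152,
  .inv 0,
  .mul 3 0,
  .mul 158 0,
  .mul 55 0,
  .scale ⟨549755813888, 0, 0, 0⟩ 0,
  .sub 166 0,
  .sub 167 2,
  .inv 0,
  .mul 2 0,
  .add 5 170,
  .mul 75 0,
  .mul 65 2,
  .mul 171 10,
  .mul 1 0,
  .mul 10 5,
  .pos 8,
  .mul 153 152,
  .add 158 176,
  .mul 156 159,
  .mul 0 162,
  .scale ⟨2199023255552, 0, 0, 0⟩ 0,
  .add 134 0,
  .mul 4 0,
  .inv 0,
  .mul 7 0,
  .mul 184 0,
  .pos 97,
  .mul 58 70,
  .scale ⟨1527119872, 0, 0, 0⟩ 0,
  .sub 59 0,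
  .mul 2 0,
  .sub 182 0,
  .mul 4 0,
  .sub 192 0,
  .add 92 193,
  .mul 93 93,
  .add 0 195,
  .mul 95 3,
  .scale ⟨2199023255552, 0, 0, 0⟩ 0,
  .add 2 0,
  .scale ⟨4398046511104, 0, 0, 0⟩ 96,
  .sub 1 0,
  .inv 7,
  .mul 1 0,
  .add 0 9,
  .mul 103 18,
  .scale ⟨549755813888, 0, 0, 0⟩ 0,
  .mul 0 2,
  .sub 6 0,
  .pos 7,
  .pos 0,
  .mul 203 115,
  .scale ⟨2199023255552, 0, 0, 0⟩ 0,
  .scale ⟨183274307584, 0, 0, 0⟩ 0,
  .sub 203 0,
  .mul 2 0,
  .sub 213 0,
  .mul 121 0,
  .inv 7,
  .mul 1 0,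
  .mul 212 0,
  .add 0 210,
  .inv 0,
  .mul 3 0,
  .mul 216 0,
  .mul 36 0,
  .mul 221 2,
  .add 213 224,
  .inv 0,
  .mul 215 0,
  .scale ⟨2199023255552, 0, 0, 0⟩ 0,
  .sub 228 0,
  .sub 229 218,
  .mul 234 4,
  .mul 0 2,
  .add 208 0,
  .scale ⟨224412041216, 0, 0, 0⟩ 218,
  .inv 196,
  .mul 1 0,
  .scale ⟨4398046511104, 0, 0, 0⟩ 236,
  .mul 234 216,
  .add 1 0,
  .scale ⟨549755813888, 0, 0, 0⟩ 0,
  .inv 0,
  .mul 238 0,
  .mul 242 1,
  .mul 0 219,
  .mul 0 8,
  .mul 3 221,
  .mul 0 10,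
  .sub 247 0,
  .inv 0,
  .mul 77 2,
  .sub 250 0,
  .inv 0,
  .scale ⟨2199023255552, 0, 0, 0⟩ 246,
  .add 0 253,
  .add 248 254,
  .const ⟨893353197568, 0, 0, 0⟩,
  .const ⟨725849473024, 0, 0, 0⟩,
  .sub 0 94,
  .pos 0,
  .mul 247 237,
  .sub 259 148,
  .mul 249 238,
  .scale ⟨2199023255552, 0, 0, 0⟩ 0,
  .sub 2 0,
  .mul 4 4,
  .add 1 0,
  .add 0 265,
  .scale ⟨549755813888, 0, 0, 0⟩ 0,
  .scale ⟨549755813888, 0, 0, 0⟩ 242,
  .sub 253 0,
  .mul 157 9,
  .mul 0 256,
  .scale ⟨137438953472, 0, 0, 0⟩ 0,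
  .add 3 0,
  .mul 6 0,
  .add 102 274,
  .mul 0 26,
  .mul 104 24,
  .add 1 0,
  .mul 31 0,
  .add 103 0,
  .mul 0 274,
  .mul 6 34,
  .mul 0 33,
  .add 107 0,
  .mul 0 278,
  .scale ⟨223338299392, 0, 0, 0⟩ 0,
  .add 278 0,
  .mul 2 0,
  .add 288 0,
  .scale ⟨893353197568, 0, 0, 0⟩ 8,
  .add 290 0,
  .mul 10 0,
  .add 292 0,
  .mul 65 62,
  .mul 0 40,
  .mul 0 2,
  .mul 22 7,
  .add 245 289,
  .mul 2 0,
  .add 2 0,
  .add 248 300,
  .mul 5 0,
  .mul 47 1,
  .mul 0 72,
  .mul 0 74,
  .mul 5 130,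
  .mul 1 50,
  .add 1 0,
  .mul 306 75,
  .inv 257,
  .mul 1 0,
  .scale ⟨549755813888, 0, 0, 0⟩ 0,
  .mul 289 0,
  .add 0 5,
  .mul 313 0,
  .mul 315 0,
  .mul 16 41,
  .mul 0 68,
  .mul 16 146,
  .mul 0 67,
  .add 2 0,
  .mul 298 5,
  .mul 77 1,
  .add 1 0,
  .mul 212 0,
  .mul 0 15,
  .sub 326 0,
  .inv 0,
  .mul 4 0,
  .mul 328 0,
  .mul 218 1,
  .mul 0 21,
  .sub 332 0,
  .mul 284 0,
  .sub 0 4,
  .inv 0,
  .mul 6 0,
  .sub 285 6,
  .inv 0,
  .mul 2 117,
  .scale ⟨549755813888, 0, 0, 0⟩ 0,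
  .sub 341 0,
  .sub 342 2,
  .inv 0,
  .mul 2 0,
  .mul 343 6,
  .mul 122 10,
  .mul 0 2,
  .add 2 0,
  .mul 342 20,
  .mul 11 0,
  .mul 129 15,
  .mul 0 7,
  .mul 0 23,
  .add 3 0,
  .scale ⟨223338299392, 0, 0, 0⟩ 0,
  .add 348 0,
  .mul 2 0,
  .add 358 0,
  .mul 10 0,
  .mul 0 32,
  .mul 0 40,
  .mul 116 339,
  .const ⟨5497558138880, 0, 0, 0⟩,
  .inv 0,
  .mul 312 0,
  .mul 141 342,
  .mul 0 1,
  .mul 190 262,
  .mul 347 0,
  .scale ⟨549755813888, 0, 0, 0⟩ 147,
  .sub 371 0,
  .sub 372 149,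
  .inv 0,
  .mul 2 0,
  .mul 0 189,
  .mul 264 254,
  .scale ⟨733097230336, 0, 0, 0⟩ 0,
  .sub 378 0,
  .mul 257 0,
  .mul 291 291,
  .mul 369 0,
  .add 2 0,
  .mul 7 159,
  .add 1 384,
  .mul 1 0,
  .sub 3 0,
  .scale ⟨366548615168, 0, 0, 0⟩ 342,
  .sub 388 0,
  .mul 363 0,
  .add 3 0,
  .mul 22 0,
  .mul 22 22,
  .add 393 0,
  .inv 0,
  .mul 3 0,
  .sub 396 59,
  .mul 0 1,
  .sub 398 14,
  .pos 0,
  .pos 3,
  .pos 2,
  .mul 38 159,
  .mul 0 86,
  .inv 377,
  .mul 1 0,
  .mul 399 5,
  .mul 403 0,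
  .scale ⟨549755813888, 0, 0, 0⟩ 0,
  .sub 406 0,
  .mul 3 0,
  .neg 0,
  .mul 407 413,
  .mul 0 185,
  .mul 0 396,
  .mul 412 0,
  .add 4 0,
  .mul 5 1,
  .mul 414 0,
  .add 2 0,
  .mul 405 375,
  .scale ⟨412316860416, 0, 0, 0⟩ 375,
  .sub 411 0,
  .mul 2 0,
  .mul 421 0,
  .neg 0,
  .add 6 0,
  .mul 7 1,
  .mul 424 0,
  .add 2 0,
  .mul 425 98,
  .mul 0 26,
  .mul 429 0,
  .add 3 0,
  .mul 4 1,
  .mul 431 0,
  .add 2 0,
  .mul 434 66,
  .sub 1 0,
  .mul 435 68,
  .add 437 0,
  .inv 0,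
  .mul 3 0,
  .mul 438 431,
  .mul 0 112,
  .mul 0 103,
  .mul 443 0,
  .add 4 0,
  .mul 5 1,
  .mul 445 0,
  .add 2 0,
  .mul 447 0,
  .add 449 0,
  .mul 88 203,
  .mul 450 88,
  .mul 49 0,
  .add 2 0,
  .mul 454 0,
  .add 93 52,
  .mul 456 0,
  .mul 2 7,
  .add 10 0,
  .add 0 2,
  .neg 0,
  .scale ⟨1073741824, 0, 0, 0⟩ 461,
  .sub 1 0,
  .sub 443 463,
  .add 0 408,
  .scale ⟨2199023255552, 0, 0, 0⟩ 99,
  .sub 1 0,
  .mul 242 0,
  .mul 4 2,
  .add 0 469,
  .inv 0,
  .mul 3 0,
  .mul 229 151,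
  .scale ⟨549755813888, 0, 0, 0⟩ 237,
  .add 457 0,
  .mul 2 0,
  .scale ⟨2199023255552, 0, 0, 0⟩ 0,
  .add 161 0,
  .scale ⟨2199023255552, 0, 0, 0⟩ 0,
  .mul 0 151,
  .mul 471 151,
  .sub 457 0,
  .inv 0,
  .mul 3 0,
  .sub 12 0,
  .mul 247 247,
  .const ⟨14293651161088, 0, 0, 0⟩,
  .const ⟨10995116277760, 0, 0, 0⟩,
  .inv 0,
  .mul 2 0,
  .mul 4 0,
  .mul 491 491,
  .scale ⟨27487790694400, 0, 0, 0⟩ 0,
  .add 2 0,
  .mul 126 55,
  .sub 455 494,
  .sub 0 457,
  .mul 494 495,
  .mul 0 498,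
  .mul 475 178,
  .mul 0 259,
  .add 193 0,
  .add 21 446,
  .mul 500 0,
  .mul 10 9,
  .mul 177 1,
  .mul 7 4,
  .mul 1 0,
  .sub 3 0,
  .scale ⟨549755813888, 0, 0, 0⟩ 28,
  .add 510 0,
  .mul 183 0,
  .mul 511 489,
  .mul 0 280,
  .mul 490 462,
  .inv 0,
  .mul 2 0,
  .mul 5 0,
  .sub 21 0,
  .mul 283 10,
  .sub 520 284,
  .mul 509 2,
  .mul 1 0,
  .mul 29 0,
  .add 4 0,
  .pos 277,
  .pos 274,
  .scale ⟨2199023255552, 0, 0, 0⟩ 200,
  .sub 474 0,
  .pos 0,
  .pos 192,
  .sub 519 304,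
  .pos 0,
  .scale ⟨687194767360, 0, 0, 0⟩ 528,
  .sub 0 244,
  .pos 0,
  .scale ⟨377957122048, 0, 0, 0⟩ 530,
  .sub 0 250,
  .pos 0,
  .pos 50,
  .pos 189,
  .sub 3 177,
  .pos 0,
  .pos 48,
  .pos 70,
  .pos 8,
  .pos 14]

def chk0 {α : Type} (cst : Z → α) (add sub mul : α → α → α) (scale : Z → α → α)
    (neg inv exp log : α → α) (ok : α → Bool) (isPos : Nat → α → Bool) (isLt : α → Nat → Bool) :
    List α → Bool
  | [x0, x1, x2, x3] =>
  let v0 := cst ⟨1099511627776, 0, 0, 0⟩; ok v0 && (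
  let v1 := mul x0 x2; ok v1 && (
  let v2 := mul x1 x2; ok v2 && (
  let v3 := mul x0 x1; ok v3 && (
  let v4 := mul x1 x1; ok v4 && (
  let v5 := mul v1 v4; ok v5 && (
  let v6 := mul x2 x2; ok v6 && (
  let v7 := mul v1 v5; ok v7 && (
  let v8 := cst ⟨549755813888, 0, 0, 0⟩; ok v8 && (
  let v9 := mul v1 v2; ok v9 && (
  let v10 := mul v9 x3; ok v10 && (
  let v11 := scale ⟨549755813888, 0, 0, 0⟩ v10; ok v11 && (
  let v12 := mul v2 v2; ok v12 && (
  let v13 := mul v11 v11; ok v13 && (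
  let v14 := sub v0 v13; ok v14 && (
  let v15 := inv v14; ok v15 && (
  let v16 := mul v11 v15; ok v16 && (
  let v17 := scale ⟨2199023255552, 0, 0, 0⟩ v16; ok v17 && (
  let v18 := scale ⟨2199023255552, 0, 0, 0⟩ v15; ok v18 && (
  let v19 := sub v18 v0; ok v19 && (
  let v20 := add v19 v17; ok v20 && (
  let v21 := mul x3 v15; ok v21 && (
  let v22 := mul v2 v21; ok v22 && (
  let v23 := sub v0 v22; ok v23 && (
  let v24 := add v0 v22; ok v24 && (
  let v25 := mul v1 v12; ok v25 && (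
  let v26 := mul v21 v21; ok v26 && (
  let v27 := scale ⟨10774999203840, 0, 0, 0⟩ v11; ok v27 && (
  let v28 := scale ⟨45768245248, 0, 0, 0⟩ v27; ok v28 && (
  let v29 := cst ⟨183207198720, 0, 0, 0⟩; ok v29 && (
  let v30 := add v28 v29; ok v30 && (
  let v31 := mul v27 v30; ok v31 && (
  let v32 := add v8 v31; ok v32 && (
  let v33 := mul v27 v32; ok v33 && (
  let v34 := add v0 v33; ok v34 && (
  let v35 := mul v27 v34; ok v35 && (
  let v36 := scale ⟨549755813888, 0, 0, 0⟩ v35; ok v36 && (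
  let v37 := add v0 v36; ok v37 && (
  let v38 := mul v34 v37; ok v38 && (
  let v39 := mul v17 v22; ok v39 && (
  let v40 := scale ⟨2199023255552, 0, 0, 0⟩ v19; ok v40 && (
  let v41 := add v39 v40; ok v41 && (
  let v42 := add v41 v1; ok v42 && (
  let v43 := mul v25 v42; ok v43 && (
  let v44 := add v43 v0; ok v44 && (
  let v45 := mul v17 v17; ok v45 && (
  let v46 := scale ⟨2199023255552, 0, 0, 0⟩ v45; ok v46 && (
  let v47 := add v46 v0; ok v47 && (
  let v48 := mul v19 v42; ok v48 && (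
  let v49 := sub v48 v0; ok v49 && (
  let v50 := log v44; ok v50 && (
  let v51 := scale ⟨549755813888, 0, 0, 0⟩ v50; ok v51 && (
  let v52 := exp v51; ok v52 && (
  let v53 := cst ⟨3298534883328, 0, 0, 0⟩; ok v53 && (
  let v54 := inv v53; ok v54 && (
  let v55 := mul v0 v54; ok v55 && (
  let v56 := cst ⟨2199023255552, 0, 0, 0⟩; ok v56 && (
  let v57 := add v43 v56; ok v57 && (
  let v58 := inv v57; ok v58 && (
  let v59 := mul v43 v58; ok v59 && (
  let v60 := mul v59 v59; ok v60 && (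
  let v61 := sub v0 v59; ok v61 && (
  let v62 := mul v60 v55; ok v62 && (
  let v63 := add v0 v62; ok v63 && (
  let v64 := mul v61 v63; ok v64 && (
  let v65 := mul v60 v60; ok v65 && (
  let v66 := scale ⟨219915747328, 0, 0, 0⟩ v65; ok v66 && (
  let v67 := mul v42 v64; ok v67 && (
  let v68 := scale ⟨549755813888, 0, 0, 0⟩ v67; ok v68 && (
  let v69 := mul v42 v66; ok v69 && (
  let v70 := scale ⟨549755813888, 0, 0, 0⟩ v69; ok v70 && (
  let v71 := add v68 v70; ok v71 && (
  let v72 := mul v19 v49; ok v72 && (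
  let v73 := scale ⟨4398046511104, 0, 0, 0⟩ v72; ok v73 && (
  let v74 := mul v19 v25; ok v74 && (
  let v75 := mul v74 v49; ok v75 && (
  let v76 := scale ⟨4398046511104, 0, 0, 0⟩ v75; ok v76 && (
  let v77 := add v76 v56; ok v77 && (
  let v78 := inv v77; ok v78 && (
  let v79 := mul v76 v78; ok v79 && (
  let v80 := mul v79 v79; ok v80 && (
  let v81 := sub v0 v79; ok v81 && (
  let v82 := mul v80 v55; ok v82 && (
  let v83 := add v0 v82; ok v83 && (
  let v84 := mul v81 v83; ok v84 && (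
  let v85 := mul v80 v80; ok v85 && (
  let v86 := scale ⟨219915747328, 0, 0, 0⟩ v85; ok v86 && (
  let v87 := mul v73 v84; ok v87 && (
  let v88 := scale ⟨549755813888, 0, 0, 0⟩ v87; ok v88 && (
  let v89 := sub v88 v71; ok v89 && (
  let v90 := mul v73 v86; ok v90 && (
  let v91 := scale ⟨549755813888, 0, 0, 0⟩ v90; ok v91 && (
  let v92 := add v91 v70; ok v92 && (
  let v93 := add v89 v92; ok v93 && (
  let v94 := mul v5 v68; ok v94 && (
  let v95 := neg v94; ok v95 && (
  let v96 := exp v95; ok v96 && (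
  let v97 := mul v5 v70; ok v97 && (
  let v98 := mul v96 v97; ok v98 && (
  let v99 := mul v5 v89; ok v99 && (
  let v100 := neg v99; ok v100 && (
  let v101 := exp v100; ok v101 && (
  let v102 := mul v5 v92; ok v102 && (
  let v103 := mul v101 v102; ok v103 && (
  let v104 := mul v22 v17; ok v104 && (
  let v105 := add v19 v104; ok v105 && (
  let v106 := inv v105; ok v106 && (
  let v107 := mul v24 v106; ok v107 && (
  let v108 := mul v23 v1; ok v108 && (
  let v109 := mul v108 v107; ok v109 && (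
  let v110 := sub v0 v12; ok v110 && (
  let v111 := mul v26 v110; ok v111 && (
  let v112 := mul v9 v9; ok v112 && (
  let v113 := sub v0 v26; ok v113 && (
  let v114 := mul v110 v113; ok v114 && (
  let v115 := mul v25 v49; ok v115 && (
  let v116 := inv v44; ok v116 && (
  let v117 := mul v115 v116; ok v117 && (
  let v118 := add v19 v117; ok v118 && (
  let v119 := mul v44 v118; ok v119 && (
  let v120 := mul v119 v119; ok v120 && (
  let v121 := inv v120; ok v121 && (
  let v122 := mul v114 v121; ok v122 && (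
  let v123 := add v19 v25; ok v123 && (
  let v124 := mul v0 v123; ok v124 && (
  let v125 := inv v124; ok v125 && (
  let v126 := mul v3 v125; ok v126 && (
  let v127 := mul v126 v126; ok v127 && (
  let v128 := mul v127 v114; ok v128 && (
  let v129 := cst ⟨45812285440, 0, 0, 0⟩; ok v129 && (
  let v130 := scale ⟨1527119872, 0, 0, 0⟩ v128; ok v130 && (
  let v131 := sub v129 v130; ok v131 && (
  let v132 := mul v128 v131; ok v132 && (
  let v133 := sub v8 v132; ok v133 && (
  let v134 := mul v128 v133; ok v134 && (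
  let v135 := sub v0 v134; ok v135 && (
  let v136 := add v96 v0; ok v136 && (
  let v137 := mul v96 v96; ok v137 && (
  let v138 := add v137 v0; ok v138 && (
  let v139 := mul v96 v135; ok v139 && (
  let v140 := scale ⟨2199023255552, 0, 0, 0⟩ v139; ok v140 && (
  let v141 := add v138 v140; ok v141 && (
  let v142 := scale ⟨4398046511104, 0, 0, 0⟩ v98; ok v142 && (
  let v143 := sub v141 v142; ok v143 && (
  let v144 := inv v136; ok v144 && (
  let v145 := mul v143 v144; ok v145 && (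
  let v146 := add v145 v136; ok v146 && (
  let v147 := mul v96 v109; ok v147 && (
  let v148 := scale ⟨549755813888, 0, 0, 0⟩ v147; ok v148 && (
  let v149 := mul v148 v146; ok v149 && (
  let v150 := sub v143 v149; ok v150 && (
  isPos 4 v143 && (
  isPos 4 v150 && (
  let v151 := mul v5 v71; ok v151 && (
  let v152 := scale ⟨2199023255552, 0, 0, 0⟩ v151; ok v152 && (
  let v153 := scale ⟨183274307584, 0, 0, 0⟩ v152; ok v153 && (
  let v154 := sub v8 v153; ok v154 && (
  let v155 := mul v152 v154; ok v155 && (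
  let v156 := sub v0 v155; ok v156 && (
  let v157 := mul v71 v156; ok v157 && (
  let v158 := inv v150; ok v158 && (
  let v159 := mul v157 v158; ok v159 && (
  let v160 := mul v5 v159; ok v160 && (
  let v161 := add v160 v8; ok v161 && (
  let v162 := inv v161; ok v162 && (
  let v163 := mul v159 v162; ok v163 && (
  let v164 := mul v5 v163; ok v164 && (
  let v165 := mul v109 v164; ok v165 && (
  let v166 := scale ⟨549755813888, 0, 0, 0⟩ v165; ok v166 && (
  let v167 := sub v0 v166; ok v167 && (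
  let v168 := sub v0 v165; ok v168 && (
  let v169 := inv v168; ok v169 && (
  let v170 := mul v167 v169; ok v170 && (
  let v171 := add v165 v0; ok v171 && (
  let v172 := mul v96 v171; ok v172 && (
  let v173 := mul v107 v170; ok v173 && (
  let v174 := mul v2 v163; ok v174 && (
  let v175 := mul v173 v174; ok v175 && (
  let v176 := mul v165 v170; ok v176 && (
  isPos 4 v168 && (
  let v177 := mul v23 v24; ok v177 && (
  let v178 := add v19 v1; ok v178 && (
  let v179 := mul v22 v19; ok v179 && (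
  let v180 := mul v179 v17; ok v180 && (
  let v181 := scale ⟨2199023255552, 0, 0, 0⟩ v180; ok v181 && (
  let v182 := add v47 v181; ok v182 && (
  let v183 := mul v178 v182; ok v183 && (
  let v184 := inv v183; ok v184 && (
  let v185 := mul v177 v184; ok v185 && (
  let v186 := mul v1 v185; ok v186 && (
  isPos 4 v89 && (
  let v187 := mul v128 v116; ok v187 && (
  let v188 := scale ⟨1527119872, 0, 0, 0⟩ v187; ok v188 && (
  let v189 := sub v129 v188; ok v189 && (
  let v190 := mul v187 v189; ok v190 && (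
  let v191 := sub v8 v190; ok v191 && (
  let v192 := mul v187 v191; ok v192 && (
  let v193 := sub v0 v192; ok v193 && (
  let v194 := add v101 v0; ok v194 && (
  let v195 := mul v101 v101; ok v195 && (
  let v196 := add v195 v0; ok v196 && (
  let v197 := mul v101 v193; ok v197 && (
  let v198 := scale ⟨2199023255552, 0, 0, 0⟩ v197; ok v198 && (
  let v199 := add v196 v198; ok v199 && (
  let v200 := scale ⟨4398046511104, 0, 0, 0⟩ v103; ok v200 && (
  let v201 := sub v199 v200; ok v201 && (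
  let v202 := inv v194; ok v202 && (
  let v203 := mul v201 v202; ok v203 && (
  let v204 := add v203 v194; ok v204 && (
  let v205 := mul v101 v186; ok v205 && (
  let v206 := scale ⟨549755813888, 0, 0, 0⟩ v205; ok v206 && (
  let v207 := mul v206 v204; ok v207 && (
  let v208 := sub v201 v207; ok v208 && (
  isPos 4 v201 && (
  isPos 4 v208 && (
  let v209 := mul v5 v93; ok v209 && (
  let v210 := scale ⟨2199023255552, 0, 0, 0⟩ v209; ok v210 && (
  let v211 := scale ⟨183274307584, 0, 0, 0⟩ v210; ok v211 && (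
  let v212 := sub v8 v211; ok v212 && (
  let v213 := mul v210 v212; ok v213 && (
  let v214 := sub v0 v213; ok v214 && (
  let v215 := mul v93 v214; ok v215 && (
  let v216 := inv v208; ok v216 && (
  let v217 := mul v215 v216; ok v217 && (
  let v218 := mul v5 v217; ok v218 && (
  let v219 := add v218 v8; ok v219 && (
  let v220 := inv v219; ok v220 && (
  let v221 := mul v217 v220; ok v221 && (
  let v222 := mul v5 v221; ok v222 && (
  let v223 := mul v186 v222; ok v223 && (
  let v224 := mul v2 v221; ok v224 && (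
  let v225 := add v11 v0; ok v225 && (
  let v226 := inv v225; ok v226 && (
  let v227 := mul v11 v226; ok v227 && (
  let v228 := scale ⟨2199023255552, 0, 0, 0⟩ v227; ok v228 && (
  let v229 := sub v0 v228; ok v229 && (
  let v230 := sub v0 v11; ok v230 && (
  let v231 := mul x3 v226; ok v231 && (
  let v232 := mul v231 v229; ok v232 && (
  let v233 := add v24 v232; ok v233 && (
  let v234 := scale ⟨224412041216, 0, 0, 0⟩ v15; ok v234 && (
  let v235 := inv v38; ok v235 && (
  let v236 := mul v234 v235; ok v236 && (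
  let v237 := scale ⟨4398046511104, 0, 0, 0⟩ v0; ok v237 && (
  let v238 := mul v3 v21; ok v238 && (
  let v239 := add v237 v238; ok v239 && (
  let v240 := scale ⟨549755813888, 0, 0, 0⟩ v239; ok v240 && (
  let v241 := inv v240; ok v241 && (
  let v242 := mul v3 v241; ok v242 && (
  let v243 := mul v0 v241; ok v243 && (
  let v244 := mul v243 v24; ok v244 && (
  let v245 := mul v244 v236; ok v245 && (
  let v246 := mul v242 v24; ok v246 && (
  let v247 := mul v246 v236; ok v247 && (
  let v248 := sub v0 v247; ok v248 && (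
  let v249 := inv v248; ok v249 && (
  let v250 := mul v172 v247; ok v250 && (
  let v251 := sub v0 v250; ok v251 && (
  let v252 := inv v251; ok v252 && (
  let v253 := scale ⟨2199023255552, 0, 0, 0⟩ v6; ok v253 && (
  let v254 := add v253 v0; ok v254 && (
  let v255 := add v6 v0; ok v255 && (
  let v256 := cst ⟨893353197568, 0, 0, 0⟩; ok v256 && (
  let v257 := cst ⟨725849473024, 0, 0, 0⟩; ok v257 && (
  let v258 := sub v257 v163; ok v258 && (
  isPos 4 v258 && (
  let v259 := mul v11 v21; ok v259 && (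
  let v260 := sub v0 v111; ok v260 && (
  let v261 := mul v11 v22; ok v261 && (
  let v262 := scale ⟨2199023255552, 0, 0, 0⟩ v261; ok v262 && (
  let v263 := sub v260 v262; ok v263 && (
  let v264 := mul v259 v259; ok v264 && (
  let v265 := add v263 v264; ok v265 && (
  let v266 := add v265 v0; ok v266 && (
  let v267 := scale ⟨549755813888, 0, 0, 0⟩ v266; ok v267 && (
  let v268 := scale ⟨549755813888, 0, 0, 0⟩ v25; ok v268 && (
  let v269 := sub v15 v268; ok v269 && (
  let v270 := mul v112 v260; ok v270 && (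
  let v271 := mul v270 v14; ok v271 && (
  let v272 := scale ⟨137438953472, 0, 0, 0⟩ v271; ok v272 && (
  let v273 := add v269 v272; ok v273 && (
  let v274 := mul v267 v273; ok v274 && (
  let v275 := add v172 v0; ok v275 && (
  let v276 := mul v275 v249; ok v276 && (
  let v277 := mul v172 v252; ok v277 && (
  let v278 := add v276 v277; ok v278 && (
  let v279 := mul v247 v278; ok v279 && (
  let v280 := add v176 v279; ok v280 && (
  let v281 := mul v280 v6; ok v281 && (
  let v282 := mul v275 v247; ok v282 && (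
  let v283 := mul v282 v249; ok v283 && (
  let v284 := add v176 v283; ok v284 && (
  let v285 := mul v284 v6; ok v285 && (
  let v286 := scale ⟨223338299392, 0, 0, 0⟩ v285; ok v286 && (
  let v287 := add v8 v286; ok v287 && (
  let v288 := mul v285 v287; ok v288 && (
  let v289 := add v0 v288; ok v289 && (
  let v290 := scale ⟨893353197568, 0, 0, 0⟩ v281; ok v290 && (
  let v291 := add v0 v290; ok v291 && (
  let v292 := mul v281 v291; ok v292 && (
  let v293 := add v0 v292; ok v293 && (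
  let v294 := mul v228 v231; ok v294 && (
  let v295 := mul v294 v254; ok v295 && (
  let v296 := mul v295 v293; ok v296 && (
  let v297 := mul v274 v289; ok v297 && (
  let v298 := add v52 v8; ok v298 && (
  let v299 := mul v296 v298; ok v299 && (
  let v300 := add v297 v299; ok v300 && (
  let v301 := add v52 v0; ok v301 && (
  let v302 := mul v296 v301; ok v302 && (
  let v303 := mul v255 v301; ok v303 && (
  let v304 := mul v303 v231; ok v304 && (
  let v305 := mul v304 v230; ok v305 && (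
  let v306 := mul v300 v175; ok v306 && (
  let v307 := mul v305 v256; ok v307 && (
  let v308 := add v306 v307; ok v308 && (
  let v309 := mul v2 v233; ok v309 && (
  let v310 := inv v52; ok v310 && (
  let v311 := mul v309 v310; ok v311 && (
  let v312 := scale ⟨549755813888, 0, 0, 0⟩ v311; ok v312 && (
  let v313 := mul v23 v312; ok v313 && (
  let v314 := add v313 v308; ok v314 && (
  let v315 := mul v1 v314; ok v315 && (
  let v316 := mul v0 v315; ok v316 && (
  let v317 := mul v300 v275; ok v317 && (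
  let v318 := mul v317 v249; ok v318 && (
  let v319 := mul v302 v172; ok v319 && (
  let v320 := mul v319 v252; ok v320 && (
  let v321 := add v318 v320; ok v321 && (
  let v322 := mul v23 v316; ok v322 && (
  let v323 := mul v245 v321; ok v323 && (
  let v324 := add v322 v323; ok v324 && (
  let v325 := mul v112 v324; ok v325 && (
  let v326 := mul v325 v310; ok v326 && (
  let v327 := sub v0 v326; ok v327 && (
  let v328 := inv v327; ok v328 && (
  let v329 := mul v324 v328; ok v329 && (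
  let v330 := mul v1 v329; ok v330 && (
  let v331 := mul v112 v329; ok v331 && (
  let v332 := mul v331 v310; ok v332 && (
  let v333 := sub v0 v332; ok v333 && (
  let v334 := mul v49 v333; ok v334 && (
  let v335 := sub v334 v330; ok v335 && (
  let v336 := inv v335; ok v336 && (
  let v337 := mul v330 v336; ok v337 && (
  let v338 := sub v52 v331; ok v338 && (
  let v339 := inv v338; ok v339 && (
  let v340 := mul v337 v222; ok v340 && (
  let v341 := scale ⟨549755813888, 0, 0, 0⟩ v340; ok v341 && (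
  let v342 := sub v0 v341; ok v342 && (
  let v343 := sub v0 v340; ok v343 && (
  let v344 := inv v343; ok v344 && (
  let v345 := mul v342 v344; ok v345 && (
  let v346 := mul v2 v339; ok v346 && (
  let v347 := mul v224 v336; ok v347 && (
  let v348 := mul v347 v345; ok v348 && (
  let v349 := add v346 v348; ok v349 && (
  let v350 := mul v7 v329; ok v350 && (
  let v351 := mul v339 v350; ok v351 && (
  let v352 := mul v222 v336; ok v352 && (
  let v353 := mul v352 v345; ok v353 && (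
  let v354 := mul v353 v330; ok v354 && (
  let v355 := add v351 v354; ok v355 && (
  let v356 := scale ⟨223338299392, 0, 0, 0⟩ v355; ok v356 && (
  let v357 := add v8 v356; ok v357 && (
  let v358 := mul v355 v357; ok v358 && (
  let v359 := add v0 v358; ok v359 && (
  let v360 := mul v349 v359; ok v360 && (
  let v361 := mul v360 v328; ok v361 && (
  let v362 := mul v361 v321; ok v362 && (
  let v363 := mul v246 v23; ok v363 && (
  let v364 := cst ⟨5497558138880, 0, 0, 0⟩; ok v364 && (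
  let v365 := inv v364; ok v365 && (
  let v366 := mul v53 v365; ok v366 && (
  let v367 := mul v225 v24; ok v367 && (
  let v368 := mul v367 v366; ok v368 && (
  let v369 := mul v178 v106; ok v369 && (
  let v370 := mul v22 v369; ok v370 && (
  let v371 := scale ⟨549755813888, 0, 0, 0⟩ v223; ok v371 && (
  let v372 := sub v0 v371; ok v372 && (
  let v373 := sub v0 v223; ok v373 && (
  let v374 := inv v373; ok v374 && (
  let v375 := mul v372 v374; ok v375 && (
  let v376 := mul v375 v186; ok v376 && (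
  let v377 := mul v112 v122; ok v377 && (
  let v378 := scale ⟨733097230336, 0, 0, 0⟩ v377; ok v378 && (
  let v379 := sub v0 v378; ok v379 && (
  let v380 := mul v122 v379; ok v380 && (
  let v381 := mul v89 v89; ok v381 && (
  let v382 := mul v12 v381; ok v382 && (
  let v383 := add v380 v382; ok v383 && (
  let v384 := mul v376 v224; ok v384 && (
  let v385 := add v383 v0; ok v385 && (
  let v386 := mul v384 v385; ok v386 && (
  let v387 := sub v383 v386; ok v387 && (
  let v388 := scale ⟨366548615168, 0, 0, 0⟩ v45; ok v388 && (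
  let v389 := sub v0 v388; ok v389 && (
  let v390 := mul v26 v389; ok v390 && (
  let v391 := add v387 v390; ok v391 && (
  let v392 := mul v369 v391; ok v392 && (
  let v393 := mul v370 v370; ok v393 && (
  let v394 := add v0 v393; ok v394 && (
  let v395 := inv v394; ok v395 && (
  let v396 := mul v392 v395; ok v396 && (
  let v397 := sub v0 v337; ok v397 && (
  let v398 := mul v397 v396; ok v398 && (
  let v399 := sub v0 v384; ok v399 && (
  isPos 4 v399 && (
  isPos 4 v396 && (
  isPos 4 v397 && (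
  let v400 := mul v361 v240; ok v400 && (
  let v401 := mul v400 v314; ok v401 && (
  let v402 := inv v24; ok v402 && (
  let v403 := mul v401 v402; ok v403 && (
  let v404 := mul v4 v398; ok v404 && (
  let v405 := mul v1 v404; ok v405 && (
  let v406 := scale ⟨549755813888, 0, 0, 0⟩ v405; ok v406 && (
  let v407 := sub v0 v406; ok v407 && (
  let v408 := mul v404 v407; ok v408 && (
  let v409 := neg v408; ok v409 && (
  let v410 := mul v2 x3; ok v410 && (
  let v411 := mul v410 v225; ok v411 && (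
  let v412 := mul v411 v15; ok v412 && (
  let v413 := mul v0 v412; ok v413 && (
  let v414 := add v409 v413; ok v414 && (
  let v415 := mul v409 v413; ok v415 && (
  let v416 := mul v1 v415; ok v416 && (
  let v417 := add v414 v416; ok v417 && (
  let v418 := mul v12 v42; ok v418 && (
  let v419 := scale ⟨412316860416, 0, 0, 0⟩ v43; ok v419 && (
  let v420 := sub v8 v419; ok v420 && (
  let v421 := mul v418 v420; ok v421 && (
  let v422 := mul v0 v421; ok v422 && (
  let v423 := neg v422; ok v423 && (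
  let v424 := add v417 v423; ok v424 && (
  let v425 := mul v417 v423; ok v425 && (
  let v426 := mul v1 v425; ok v426 && (
  let v427 := add v424 v426; ok v427 && (
  let v428 := mul v2 v329; ok v428 && (
  let v429 := mul v428 v402; ok v429 && (
  let v430 := mul v0 v429; ok v430 && (
  let v431 := add v427 v430; ok v431 && (
  let v432 := mul v427 v430; ok v432 && (
  let v433 := mul v1 v432; ok v433 && (
  let v434 := add v431 v433; ok v434 && (
  let v435 := mul v0 v368; ok v435 && (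
  let v436 := sub v434 v435; ok v436 && (
  let v437 := mul v1 v368; ok v437 && (
  let v438 := add v0 v437; ok v438 && (
  let v439 := inv v438; ok v439 && (
  let v440 := mul v436 v439; ok v440 && (
  let v441 := mul v2 v9; ok v441 && (
  let v442 := mul v441 v329; ok v442 && (
  let v443 := mul v442 v339; ok v443 && (
  let v444 := mul v0 v443; ok v444 && (
  let v445 := add v440 v444; ok v445 && (
  let v446 := mul v440 v444; ok v446 && (
  let v447 := mul v1 v446; ok v447 && (
  let v448 := add v445 v447; ok v448 && (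
  let v449 := mul v1 v448; ok v449 && (
  let v450 := add v0 v449; ok v450 && (
  let v451 := mul v362 v247; ok v451 && (
  let v452 := mul v1 v363; ok v452 && (
  let v453 := mul v403 v452; ok v453 && (
  let v454 := add v451 v453; ok v454 && (
  let v455 := mul v0 v454; ok v455 && (
  let v456 := add v362 v403; ok v456 && (
  let v457 := mul v0 v456; ok v457 && (
  let v458 := mul v455 v450; ok v458 && (
  let v459 := add v448 v458; ok v459 && (
  let v460 := add v459 v457; ok v460 && (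
  let v461 := neg v460; ok v461 && (
  let v462 := scale ⟨1073741824, 0, 0, 0⟩ v0; ok v462 && (
  let v463 := sub v461 v462; ok v463 && (
  let v464 := sub v20 v0; ok v464 && (
  let v465 := add v464 v56; ok v465 && (
  let v466 := scale ⟨2199023255552, 0, 0, 0⟩ v366; ok v466 && (
  let v467 := sub v465 v466; ok v467 && (
  let v468 := mul v225 v467; ok v468 && (
  let v469 := mul v464 v466; ok v469 && (
  let v470 := add v469 v0; ok v470 && (
  let v471 := inv v470; ok v471 && (
  let v472 := mul v468 v471; ok v472 && (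
  let v473 := mul v243 v321; ok v473 && (
  let v474 := scale ⟨549755813888, 0, 0, 0⟩ v236; ok v474 && (
  let v475 := add v17 v474; ok v475 && (
  let v476 := mul v473 v475; ok v476 && (
  let v477 := scale ⟨2199023255552, 0, 0, 0⟩ v476; ok v477 && (
  let v478 := add v316 v477; ok v478 && (
  let v479 := scale ⟨2199023255552, 0, 0, 0⟩ v478; ok v479 && (
  let v480 := mul v479 v328; ok v480 && (
  let v481 := mul v9 v329; ok v481 && (
  let v482 := sub v24 v481; ok v482 && (
  let v483 := inv v482; ok v483 && (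
  let v484 := mul v480 v483; ok v484 && (
  let v485 := sub v472 v484; ok v485 && (
  let v486 := mul v238 v238; ok v486 && (
  let v487 := cst ⟨14293651161088, 0, 0, 0⟩; ok v487 && (
  let v488 := cst ⟨10995116277760, 0, 0, 0⟩; ok v488 && (
  let v489 := inv v488; ok v489 && (
  let v490 := mul v487 v489; ok v490 && (
  let v491 := mul v486 v490; ok v491 && (
  let v492 := mul v0 v0; ok v492 && (
  let v493 := scale ⟨27487790694400, 0, 0, 0⟩ v492; ok v493 && (
  let v494 := add v491 v493; ok v494 && (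
  let v495 := mul v368 v439; ok v495 && (
  let v496 := sub v40 v1; ok v496 && (
  let v497 := sub v496 v39; ok v497 && (
  let v498 := mul v3 v2; ok v498 && (
  let v499 := mul v498 v0; ok v499 && (
  let v500 := mul v24 v321; ok v500 && (
  let v501 := mul v500 v241; ok v501 && (
  let v502 := add v308 v501; ok v502 && (
  let v503 := add v481 v56; ok v503 && (
  let v504 := mul v3 v503; ok v504 && (
  let v505 := mul v494 v495; ok v505 && (
  let v506 := mul v328 v504; ok v506 && (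
  let v507 := mul v499 v502; ok v507 && (
  let v508 := mul v506 v507; ok v508 && (
  let v509 := sub v505 v508; ok v509 && (
  let v510 := scale ⟨549755813888, 0, 0, 0⟩ v481; ok v510 && (
  let v511 := add v0 v510; ok v511 && (
  let v512 := mul v328 v511; ok v512 && (
  let v513 := mul v1 v23; ok v513 && (
  let v514 := mul v513 v233; ok v514 && (
  let v515 := mul v24 v52; ok v515 && (
  let v516 := inv v515; ok v516 && (
  let v517 := mul v514 v516; ok v517 && (
  let v518 := mul v512 v517; ok v518 && (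
  let v519 := sub v497 v518; ok v519 && (
  let v520 := mul v236 v509; ok v520 && (
  let v521 := sub v0 v236; ok v521 && (
  let v522 := mul v12 v519; ok v522 && (
  let v523 := mul v521 v522; ok v523 && (
  let v524 := mul v494 v523; ok v524 && (
  let v525 := add v520 v524; ok v525 && (
  isPos 4 v248 && (
  isPos 4 v251 && (
  let v526 := scale ⟨2199023255552, 0, 0, 0⟩ v325; ok v526 && (
  let v527 := sub v52 v526; ok v527 && (
  isPos 4 v527 && (
  isPos 4 v335 && (
  let v528 := sub v8 v223; ok v528 && (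
  isPos 4 v528 && (
  let v529 := scale ⟨687194767360, 0, 0, 0⟩ v0; ok v529 && (
  let v530 := sub v529 v285; ok v530 && (
  isPos 4 v530 && (
  let v531 := scale ⟨377957122048, 0, 0, 0⟩ v0; ok v531 && (
  let v532 := sub v531 v281; ok v532 && (
  isPos 4 v532 && (
  isPos 4 v482 && (
  isPos 4 v343 && (
  let v533 := sub v529 v355; ok v533 && (
  isPos 4 v533 && (
  isPos 4 v485 && (
  isPos 4 v463 && (
  isPos 4 v525 && (
  isPos 4 v519 && (
  true))))))))))))))))))))))))))))))))))))))))))))))))))))))))))))))))))))))))))))))))))))))))))))))))))))))))))))))))))))))))))))))))))))))))))))))))))))))))))))))))))))))))))))))))))))))))))))))))))))))))))))))))))))))))))))))))))))))))))))))))))))))))))))))))))))))))))))))))))))))))))))))))))))))))))))))))))))))))))))))))))))))))))))))))))))))))))))))))))))))))))))))))))))))))))))))))))))))))))))))))))))))))))))))))))))))))))))))))))))))))))))))))))))))))))))))))))))))))))))))))))))))))))))))))))))))))))))))))))))))))))))))))))))))))))))))))))))))))))))))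
  | _ => false

set_option maxRecDepth 1000000 in
theorem chk0_eq (O : Ops) (m : List O.α)
    (h : chk0 O.cst O.add O.sub O.mul O.scale O.neg O.inv O.exp O.log O.ok O.isPos O.isLt m = true) :
    runG O 4 prog0 m = true := by
  match m, h with
  | [x0, x1, x2, x3], h => exact h

def chkB0 : List opsE.α → Bool :=
  chk0 opsE.cst opsE.add opsE.sub opsE.mul opsE.scale opsE.neg opsE.inv opsE.exp opsE.log opsE.ok opsE.isPos opsE.isLt

theorem chkB0_eq (m : List opsE.α) (h : chkB0 m = true) : runG opsE 4 prog0 m = true :=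
  chk0_eq opsE m h

def prog1 : List Op := [
  .const ⟨1099511627776, 0, 0, 0⟩,
  .mul 1 3,
  .mul 3 4,
  .mul 3 4,
  .mul 5 5,
  .mul 3 0,
  .mul 8 8,
  .mul 5 1,
  .const ⟨549755813888, 0, 0, 0⟩,
  .mul 7 6,
  .mul 0 13,
  .scale ⟨549755813888, 0, 0, 0⟩ 0,
  .mul 9 9,
  .mul 1 1,
  .sub 13 0,
  .inv 0,
  .mul 4 0,
  .scale ⟨2199023255552, 0, 0, 0⟩ 0,
  .scale ⟨2199023255552, 0, 0, 0⟩ 2,
  .sub 0 18,
  .add 0 2,
  .mul 24 5,
  .mul 19 0,
  .sub 22 0,
  .add 23 1,
  .mul 23 12,
  .mul 4 4,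
  .scale ⟨10774999203840, 0, 0, 0⟩ 15,
  .scale ⟨45768245248, 0, 0, 0⟩ 0,
  .const ⟨183207198720, 0, 0, 0⟩,
  .add 1 0,
  .mul 3 0,
  .add 23 0,
  .mul 5 0,
  .add 33 0,
  .mul 7 0,
  .scale ⟨549755813888, 0, 0, 0⟩ 0,
  .add 36 0,
  .mul 3 0,
  .mul 21 16,
  .scale ⟨2199023255552, 0, 0, 0⟩ 20,
  .add 1 0,
  .add 0 40,
  .mul 17 0,
  .add 0 43,
  .mul 27 27,
  .scale ⟨2199023255552, 0, 0, 0⟩ 0,
  .add 0 46,
  .mul 28 5,
  .sub 0 48,
  .log 5,
  .scale ⟨549755813888, 0, 0, 0⟩ 0,
  .exp 0,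
  .const ⟨3298534883328, 0, 0, 0⟩,
  .inv 0,
  .mul 54 0,
  .const ⟨2199023255552, 0, 0, 0⟩,
  .add 13 0,
  .inv 0,
  .mul 15 0,
  .mul 0 0,
  .sub 60 1,
  .mul 1 6,
  .add 62 0,
  .mul 2 0,
  .mul 4 4,
  .scale ⟨219915747328, 0, 0, 0⟩ 0,
  .mul 24 2,
  .scale ⟨549755813888, 0, 0, 0⟩ 0,
  .mul 26 2,
  .scale ⟨549755813888, 0, 0, 0⟩ 0,
  .add 2 0,
  .mul 52 22,
  .scale ⟨4398046511104, 0, 0, 0⟩ 0,
  .mul 54 48,
  .mul 0 25,
  .scale ⟨4398046511104, 0, 0, 0⟩ 0,
  .add 0 20,
  .inv 0,
  .mul 2 0,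
  .mul 0 0,
  .sub 80 1,
  .mul 1 26,
  .add 82 0,
  .mul 2 0,
  .mul 4 4,
  .scale ⟨219915747328, 0, 0, 0⟩ 0,
  .mul 13 2,
  .scale ⟨549755813888, 0, 0, 0⟩ 0,
  .sub 0 17,
  .mul 16 3,
  .scale ⟨549755813888, 0, 0, 0⟩ 0,
  .add 0 21,
  .add 3 0,
  .mul 88 25,
  .neg 0,
  .exp 0,
  .mul 91 26,
  .mul 1 0,
  .mul 93 9,
  .neg 0,
  .exp 0,
  .mul 96 9,
  .mul 1 0,
  .mul 81 86,
  .add 85 0,
  .inv 0,
  .mul 82 0,
  .mul 84 106,
  .mul 0 1,
  .sub 109 97,
  .mul 84 0,
  .mul 102 102,
  .sub 112 86,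
  .mul 3 0,
  .mul 89 65,
  .inv 71,
  .mul 1 0,
  .add 98 0,
  .mul 74 0,
  .mul 0 0,
  .inv 0,
  .mul 7 0,
  .add 103 97,
  .mul 123 0,
  .inv 0,
  .mul 122 0,
  .mul 0 0,
  .mul 0 13,
  .const ⟨45812285440, 0, 0, 0⟩,
  .scale ⟨1527119872, 0, 0, 0⟩ 1,
  .sub 1 0,
  .mul 3 0,
  .sub 124 0,
  .mul 5 0,
  .sub 134 0,
  .add 39 135,
  .mul 40 40,
  .add 0 137,
  .mul 42 3,
  .scale ⟨2199023255552, 0, 0, 0⟩ 0,
  .add 2 0,
  .scale ⟨4398046511104, 0, 0, 0⟩ 43,
  .sub 1 0,
  .inv 7,
  .mul 1 0,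
  .add 0 9,
  .mul 50 37,
  .scale ⟨549755813888, 0, 0, 0⟩ 0,
  .mul 0 2,
  .sub 6 0,
  .pos 7,
  .pos 0,
  .mul 145 79,
  .scale ⟨2199023255552, 0, 0, 0⟩ 0,
  .scale ⟨183274307584, 0, 0, 0⟩ 0,
  .sub 145 0,
  .mul 2 0,
  .sub 155 0,
  .mul 85 0,
  .inv 7,
  .mul 1 0,
  .mul 154 0,
  .add 0 152,
  .inv 0,
  .mul 3 0,
  .mul 158 0,
  .mul 55 0,
  .scale ⟨549755813888, 0, 0, 0⟩ 0,
  .sub 166 0,
  .sub 167 2,
  .inv 0,
  .mul 2 0,
  .add 5 170,
  .mul 75 0,
  .mul 65 2,
  .mul 171 10,
  .mul 1 0,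
  .mul 10 5,
  .pos 8,
  .mul 153 152,
  .add 158 176,
  .mul 156 159,
  .mul 0 162,
  .scale ⟨2199023255552, 0, 0, 0⟩ 0,
  .add 134 0,
  .mul 4 0,
  .inv 0,
  .mul 7 0,
  .mul 184 0,
  .pos 97,
  .mul 58 70,
  .scale ⟨1527119872, 0, 0, 0⟩ 0,
  .sub 59 0,
  .mul 2 0,
  .sub 182 0,
  .mul 4 0,
  .sub 192 0,
  .add 92 193,
  .mul 93 93,
  .add 0 195,
  .mul 95 3,
  .scale ⟨2199023255552, 0, 0, 0⟩ 0,
  .add 2 0,
  .scale ⟨4398046511104, 0, 0, 0⟩ 96,
  .sub 1 0,
  .inv 7,
  .mul 1 0,
  .add 0 9,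
  .mul 103 18,
  .scale ⟨549755813888, 0, 0, 0⟩ 0,
  .mul 0 2,
  .sub 6 0,
  .pos 7,
  .pos 0,
  .mul 203 115,
  .scale ⟨2199023255552, 0, 0, 0⟩ 0,
  .scale ⟨183274307584, 0, 0, 0⟩ 0,
  .sub 203 0,
  .mul 2 0,
  .sub 213 0,
  .mul 121 0,
  .inv 7,
  .mul 1 0,
  .mul 212 0,
  .add 0 210,
  .inv 0,
  .mul 3 0,
  .mul 216 0,
  .mul 36 0,
  .mul 221 2,
  .add 213 224,
  .inv 0,
  .mul 215 0,
  .scale ⟨2199023255552, 0, 0, 0⟩ 0,
  .sub 228 0,
  .sub 229 218,
  .mul 234 4,
  .mul 0 2,
  .add 208 0,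
  .scale ⟨224412041216, 0, 0, 0⟩ 218,
  .inv 196,
  .mul 1 0,
  .scale ⟨4398046511104, 0, 0, 0⟩ 236,
  .mul 234 216,
  .add 1 0,
  .scale ⟨549755813888, 0, 0, 0⟩ 0,
  .inv 0,
  .mul 238 0,
  .mul 242 1,
  .mul 0 219,
  .mul 0 8,
  .mul 3 221,
  .mul 0 10,
  .sub 247 0,
  .inv 0,
  .mul 77 2,
  .sub 250 0,
  .inv 0,
  .scale ⟨2199023255552, 0, 0, 0⟩ 246,
  .add 0 253,
  .add 248 254,
  .mul 258 92,
  .scale ⟨1099511627776, 0, 0, 0⟩ 0,
  .inv 258,
  .scale ⟨1099511627776, 0, 0, 0⟩ 0,
  .add 2 0,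
  .scale ⟨549755813888, 0, 0, 0⟩ 0,
  .mul 250 240,
  .sub 262 151,
  .mul 252 241,
  .scale ⟨2199023255552, 0, 0, 0⟩ 0,
  .sub 2 0,
  .mul 4 4,
  .add 1 0,
  .add 0 268,
  .scale ⟨549755813888, 0, 0, 0⟩ 0,
  .scale ⟨549755813888, 0, 0, 0⟩ 245,
  .sub 256 0,
  .mul 160 9,
  .mul 0 259,
  .scale ⟨137438953472, 0, 0, 0⟩ 0,
  .add 3 0,
  .mul 6 0,
  .add 105 277,
  .mul 0 29,
  .mul 107 27,
  .add 1 0,
  .mul 34 0,
  .add 106 0,
  .mul 0 277,
  .mul 6 37,
  .mul 0 36,
  .add 110 0,
  .mul 0 281,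
  .scale ⟨223338299392, 0, 0, 0⟩ 0,
  .add 281 0,
  .mul 2 0,
  .add 291 0,
  .scale ⟨893353197568, 0, 0, 0⟩ 8,
  .add 293 0,
  .mul 10 0,
  .add 295 0,
  .mul 68 65,
  .mul 0 43,
  .mul 0 2,
  .mul 22 7,
  .add 248 292,
  .mul 2 0,
  .add 2 0,
  .add 251 303,
  .mul 5 0,
  .mul 50 1,
  .mul 0 75,
  .mul 0 77,
  .mul 5 133,
  .mul 1 48,
  .add 1 0,
  .mul 309 78,
  .inv 260,
  .mul 1 0,
  .scale ⟨549755813888, 0, 0, 0⟩ 0,
  .mul 292 0,
  .add 0 5,
  .mul 316 0,
  .mul 318 0,
  .mul 16 41,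
  .mul 0 71,
  .mul 16 149,
  .mul 0 70,
  .add 2 0,
  .mul 301 5,
  .mul 80 1,
  .add 1 0,
  .mul 215 0,
  .mul 0 15,
  .sub 329 0,
  .inv 0,
  .mul 4 0,
  .mul 331 0,
  .mul 221 1,
  .mul 0 21,
  .sub 335 0,
  .mul 287 0,
  .sub 0 4,
  .inv 0,
  .mul 6 0,
  .sub 288 6,
  .inv 0,
  .mul 2 120,
  .scale ⟨549755813888, 0, 0, 0⟩ 0,
  .sub 344 0,
  .sub 345 2,
  .inv 0,
  .mul 2 0,
  .mul 346 6,
  .mul 125 10,
  .mul 0 2,
  .add 2 0,
  .mul 345 20,
  .mul 11 0,
  .mul 132 15,
  .mul 0 7,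
  .mul 0 23,
  .add 3 0,
  .scale ⟨223338299392, 0, 0, 0⟩ 0,
  .add 351 0,
  .mul 2 0,
  .add 361 0,
  .mul 10 0,
  .mul 0 32,
  .mul 0 40,
  .mul 119 342,
  .const ⟨5497558138880, 0, 0, 0⟩,
  .inv 0,
  .mul 315 0,
  .mul 144 345,
  .mul 0 1,
  .mul 193 265,
  .mul 350 0,
  .scale ⟨549755813888, 0, 0, 0⟩ 150,
  .sub 374 0,
  .sub 375 152,
  .inv 0,
  .mul 2 0,
  .mul 0 192,
  .mul 267 257,
  .scale ⟨733097230336, 0, 0, 0⟩ 0,
  .sub 381 0,
  .mul 260 0,
  .mul 294 294,
  .mul 372 0,
  .add 2 0,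
  .mul 7 162,
  .add 1 387,
  .mul 1 0,
  .sub 3 0,
  .scale ⟨366548615168, 0, 0, 0⟩ 345,
  .sub 391 0,
  .mul 366 0,
  .add 3 0,
  .mul 22 0,
  .mul 22 22,
  .add 396 0,
  .inv 0,
  .mul 3 0,
  .sub 399 59,
  .mul 0 1,
  .sub 401 14,
  .pos 0,
  .pos 3,
  .pos 2,
  .mul 38 162,
  .mul 0 86,
  .inv 380,
  .mul 1 0,
  .mul 402 5,
  .mul 406 0,
  .scale ⟨549755813888, 0, 0, 0⟩ 0,
  .sub 409 0,
  .mul 3 0,
  .neg 0,
  .mul 410 416,
  .mul 0 188,
  .mul 0 399,
  .mul 415 0,
  .add 4 0,
  .mul 5 1,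
  .mul 417 0,
  .add 2 0,
  .mul 408 378,
  .scale ⟨412316860416, 0, 0, 0⟩ 378,
  .sub 414 0,
  .mul 2 0,
  .mul 424 0,
  .neg 0,
  .add 6 0,
  .mul 7 1,
  .mul 427 0,
  .add 2 0,
  .mul 428 98,
  .mul 0 26,
  .mul 432 0,
  .add 3 0,
  .mul 4 1,
  .mul 434 0,
  .add 2 0,
  .mul 437 66,
  .sub 1 0,
  .mul 438 68,
  .add 440 0,
  .inv 0,
  .mul 3 0,
  .mul 441 434,
  .mul 0 112,
  .mul 0 103,
  .mul 446 0,
  .add 4 0,
  .mul 5 1,
  .mul 448 0,
  .add 2 0,
  .mul 450 0,
  .add 452 0,
  .mul 88 206,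
  .mul 453 88,
  .mul 49 0,
  .add 2 0,
  .mul 457 0,
  .add 93 52,
  .mul 459 0,
  .mul 2 7,
  .add 10 0,
  .add 0 2,
  .neg 0,
  .scale ⟨1073741824, 0, 0, 0⟩ 464,
  .sub 1 0,
  .sub 446 466,
  .add 0 411,
  .scale ⟨2199023255552, 0, 0, 0⟩ 99,
  .sub 1 0,
  .mul 245 0,
  .mul 4 2,
  .add 0 472,
  .inv 0,
  .mul 3 0,
  .mul 232 151,
  .scale ⟨549755813888, 0, 0, 0⟩ 240,
  .add 460 0,
  .mul 2 0,
  .scale ⟨2199023255552, 0, 0, 0⟩ 0,
  .add 161 0,
  .scale ⟨2199023255552, 0, 0, 0⟩ 0,
  .mul 0 151,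
  .mul 474 151,
  .sub 460 0,
  .inv 0,
  .mul 3 0,
  .sub 12 0,
  .mul 250 250,
  .const ⟨14293651161088, 0, 0, 0⟩,
  .const ⟨10995116277760, 0, 0, 0⟩,
  .inv 0,
  .mul 2 0,
  .mul 4 0,
  .mul 494 494,
  .scale ⟨27487790694400, 0, 0, 0⟩ 0,
  .add 2 0,
  .mul 126 55,
  .sub 458 497,
  .sub 0 460,
  .mul 497 498,
  .mul 0 501,
  .mul 478 178,
  .mul 0 262,
  .add 193 0,
  .add 21 449,
  .mul 503 0,
  .mul 10 9,
  .mul 177 1,
  .mul 7 4,
  .mul 1 0,
  .sub 3 0,
  .scale ⟨549755813888, 0, 0, 0⟩ 28,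
  .add 513 0,
  .mul 183 0,
  .mul 514 492,
  .mul 0 283,
  .mul 493 465,
  .inv 0,
  .mul 2 0,
  .mul 5 0,
  .sub 21 0,
  .mul 286 10,
  .sub 523 287,
  .mul 512 2,
  .mul 1 0,
  .mul 29 0,
  .add 4 0,
  .pos 280,
  .pos 277,
  .scale ⟨2199023255552, 0, 0, 0⟩ 200,
  .sub 477 0,
  .pos 0,
  .pos 192,
  .sub 522 307,
  .pos 0,
  .scale ⟨687194767360, 0, 0, 0⟩ 531,
  .sub 0 244,
  .pos 0,
  .scale ⟨377957122048, 0, 0, 0⟩ 533,
  .sub 0 250,
  .pos 0,
  .pos 50,
  .pos 189,
  .sub 3 177,
  .pos 0,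
  .pos 48,
  .pos 70,
  .pos 8,
  .pos 14]

def chk1 {α : Type} (cst : Z → α) (add sub mul : α → α → α) (scale : Z → α → α)
    (neg inv exp log : α → α) (ok : α → Bool) (isPos : Nat → α → Bool) (isLt : α → Nat → Bool) :
    List α → Bool
  | [x0, x1, x2, x3] =>
  let v0 := cst ⟨1099511627776, 0, 0, 0⟩; ok v0 && (
  let v1 := mul x0 x2; ok v1 && (
  let v2 := mul x1 x2; ok v2 && (
  let v3 := mul x0 x1; ok v3 && (
  let v4 := mul x1 x1; ok v4 && (
  let v5 := mul v1 v4; ok v5 && (
  let v6 := mul x2 x2; ok v6 && (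
  let v7 := mul v1 v5; ok v7 && (
  let v8 := cst ⟨549755813888, 0, 0, 0⟩; ok v8 && (
  let v9 := mul v1 v2; ok v9 && (
  let v10 := mul v9 x3; ok v10 && (
  let v11 := scale ⟨549755813888, 0, 0, 0⟩ v10; ok v11 && (
  let v12 := mul v2 v2; ok v12 && (
  let v13 := mul v11 v11; ok v13 && (
  let v14 := sub v0 v13; ok v14 && (
  let v15 := inv v14; ok v15 && (
  let v16 := mul v11 v15; ok v16 && (
  let v17 := scale ⟨2199023255552, 0, 0, 0⟩ v16; ok v17 && (
  let v18 := scale ⟨2199023255552, 0, 0, 0⟩ v15; ok v18 && (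
  let v19 := sub v18 v0; ok v19 && (
  let v20 := add v19 v17; ok v20 && (
  let v21 := mul x3 v15; ok v21 && (
  let v22 := mul v2 v21; ok v22 && (
  let v23 := sub v0 v22; ok v23 && (
  let v24 := add v0 v22; ok v24 && (
  let v25 := mul v1 v12; ok v25 && (
  let v26 := mul v21 v21; ok v26 && (
  let v27 := scale ⟨10774999203840, 0, 0, 0⟩ v11; ok v27 && (
  let v28 := scale ⟨45768245248, 0, 0, 0⟩ v27; ok v28 && (
  let v29 := cst ⟨183207198720, 0, 0, 0⟩; ok v29 && (
  let v30 := add v28 v29; ok v30 && (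
  let v31 := mul v27 v30; ok v31 && (
  let v32 := add v8 v31; ok v32 && (
  let v33 := mul v27 v32; ok v33 && (
  let v34 := add v0 v33; ok v34 && (
  let v35 := mul v27 v34; ok v35 && (
  let v36 := scale ⟨549755813888, 0, 0, 0⟩ v35; ok v36 && (
  let v37 := add v0 v36; ok v37 && (
  let v38 := mul v34 v37; ok v38 && (
  let v39 := mul v17 v22; ok v39 && (
  let v40 := scale ⟨2199023255552, 0, 0, 0⟩ v19; ok v40 && (
  let v41 := add v39 v40; ok v41 && (
  let v42 := add v41 v1; ok v42 && (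
  let v43 := mul v25 v42; ok v43 && (
  let v44 := add v43 v0; ok v44 && (
  let v45 := mul v17 v17; ok v45 && (
  let v46 := scale ⟨2199023255552, 0, 0, 0⟩ v45; ok v46 && (
  let v47 := add v46 v0; ok v47 && (
  let v48 := mul v19 v42; ok v48 && (
  let v49 := sub v48 v0; ok v49 && (
  let v50 := log v44; ok v50 && (
  let v51 := scale ⟨549755813888, 0, 0, 0⟩ v50; ok v51 && (
  let v52 := exp v51; ok v52 && (
  let v53 := cst ⟨3298534883328, 0, 0, 0⟩; ok v53 && (
  let v54 := inv v53; ok v54 && (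
  let v55 := mul v0 v54; ok v55 && (
  let v56 := cst ⟨2199023255552, 0, 0, 0⟩; ok v56 && (
  let v57 := add v43 v56; ok v57 && (
  let v58 := inv v57; ok v58 && (
  let v59 := mul v43 v58; ok v59 && (
  let v60 := mul v59 v59; ok v60 && (
  let v61 := sub v0 v59; ok v61 && (
  let v62 := mul v60 v55; ok v62 && (
  let v63 := add v0 v62; ok v63 && (
  let v64 := mul v61 v63; ok v64 && (
  let v65 := mul v60 v60; ok v65 && (
  let v66 := scale ⟨219915747328, 0, 0, 0⟩ v65; ok v66 && (
  let v67 := mul v42 v64; ok v67 && (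
  let v68 := scale ⟨549755813888, 0, 0, 0⟩ v67; ok v68 && (
  let v69 := mul v42 v66; ok v69 && (
  let v70 := scale ⟨549755813888, 0, 0, 0⟩ v69; ok v70 && (
  let v71 := add v68 v70; ok v71 && (
  let v72 := mul v19 v49; ok v72 && (
  let v73 := scale ⟨4398046511104, 0, 0, 0⟩ v72; ok v73 && (
  let v74 := mul v19 v25; ok v74 && (
  let v75 := mul v74 v49; ok v75 && (
  let v76 := scale ⟨4398046511104, 0, 0, 0⟩ v75; ok v76 && (
  let v77 := add v76 v56; ok v77 && (
  let v78 := inv v77; ok v78 && (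
  let v79 := mul v76 v78; ok v79 && (
  let v80 := mul v79 v79; ok v80 && (
  let v81 := sub v0 v79; ok v81 && (
  let v82 := mul v80 v55; ok v82 && (
  let v83 := add v0 v82; ok v83 && (
  let v84 := mul v81 v83; ok v84 && (
  let v85 := mul v80 v80; ok v85 && (
  let v86 := scale ⟨219915747328, 0, 0, 0⟩ v85; ok v86 && (
  let v87 := mul v73 v84; ok v87 && (
  let v88 := scale ⟨549755813888, 0, 0, 0⟩ v87; ok v88 && (
  let v89 := sub v88 v71; ok v89 && (
  let v90 := mul v73 v86; ok v90 && (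
  let v91 := scale ⟨549755813888, 0, 0, 0⟩ v90; ok v91 && (
  let v92 := add v91 v70; ok v92 && (
  let v93 := add v89 v92; ok v93 && (
  let v94 := mul v5 v68; ok v94 && (
  let v95 := neg v94; ok v95 && (
  let v96 := exp v95; ok v96 && (
  let v97 := mul v5 v70; ok v97 && (
  let v98 := mul v96 v97; ok v98 && (
  let v99 := mul v5 v89; ok v99 && (
  let v100 := neg v99; ok v100 && (
  let v101 := exp v100; ok v101 && (
  let v102 := mul v5 v92; ok v102 && (
  let v103 := mul v101 v102; ok v103 && (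
  let v104 := mul v22 v17; ok v104 && (
  let v105 := add v19 v104; ok v105 && (
  let v106 := inv v105; ok v106 && (
  let v107 := mul v24 v106; ok v107 && (
  let v108 := mul v23 v1; ok v108 && (
  let v109 := mul v108 v107; ok v109 && (
  let v110 := sub v0 v12; ok v110 && (
  let v111 := mul v26 v110; ok v111 && (
  let v112 := mul v9 v9; ok v112 && (
  let v113 := sub v0 v26; ok v113 && (
  let v114 := mul v110 v113; ok v114 && (
  let v115 := mul v25 v49; ok v115 && (
  let v116 := inv v44; ok v116 && (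
  let v117 := mul v115 v116; ok v117 && (
  let v118 := add v19 v117; ok v118 && (
  let v119 := mul v44 v118; ok v119 && (
  let v120 := mul v119 v119; ok v120 && (
  let v121 := inv v120; ok v121 && (
  let v122 := mul v114 v121; ok v122 && (
  let v123 := add v19 v25; ok v123 && (
  let v124 := mul v0 v123; ok v124 && (
  let v125 := inv v124; ok v125 && (
  let v126 := mul v3 v125; ok v126 && (
  let v127 := mul v126 v126; ok v127 && (
  let v128 := mul v127 v114; ok v128 && (
  let v129 := cst ⟨45812285440, 0, 0, 0⟩; ok v129 && (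
  let v130 := scale ⟨1527119872, 0, 0, 0⟩ v128; ok v130 && (
  let v131 := sub v129 v130; ok v131 && (
  let v132 := mul v128 v131; ok v132 && (
  let v133 := sub v8 v132; ok v133 && (
  let v134 := mul v128 v133; ok v134 && (
  let v135 := sub v0 v134; ok v135 && (
  let v136 := add v96 v0; ok v136 && (
  let v137 := mul v96 v96; ok v137 && (
  let v138 := add v137 v0; ok v138 && (
  let v139 := mul v96 v135; ok v139 && (
  let v140 := scale ⟨2199023255552, 0, 0, 0⟩ v139; ok v140 && (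
  let v141 := add v138 v140; ok v141 && (
  let v142 := scale ⟨4398046511104, 0, 0, 0⟩ v98; ok v142 && (
  let v143 := sub v141 v142; ok v143 && (
  let v144 := inv v136; ok v144 && (
  let v145 := mul v143 v144; ok v145 && (
  let v146 := add v145 v136; ok v146 && (
  let v147 := mul v96 v109; ok v147 && (
  let v148 := scale ⟨549755813888, 0, 0, 0⟩ v147; ok v148 && (
  let v149 := mul v148 v146; ok v149 && (
  let v150 := sub v143 v149; ok v150 && (
  isPos 4 v143 && (
  isPos 4 v150 && (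
  let v151 := mul v5 v71; ok v151 && (
  let v152 := scale ⟨2199023255552, 0, 0, 0⟩ v151; ok v152 && (
  let v153 := scale ⟨183274307584, 0, 0, 0⟩ v152; ok v153 && (
  let v154 := sub v8 v153; ok v154 && (
  let v155 := mul v152 v154; ok v155 && (
  let v156 := sub v0 v155; ok v156 && (
  let v157 := mul v71 v156; ok v157 && (
  let v158 := inv v150; ok v158 && (
  let v159 := mul v157 v158; ok v159 && (
  let v160 := mul v5 v159; ok v160 && (
  let v161 := add v160 v8; ok v161 && (
  let v162 := inv v161; ok v162 && (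
  let v163 := mul v159 v162; ok v163 && (
  let v164 := mul v5 v163; ok v164 && (
  let v165 := mul v109 v164; ok v165 && (
  let v166 := scale ⟨549755813888, 0, 0, 0⟩ v165; ok v166 && (
  let v167 := sub v0 v166; ok v167 && (
  let v168 := sub v0 v165; ok v168 && (
  let v169 := inv v168; ok v169 && (
  let v170 := mul v167 v169; ok v170 && (
  let v171 := add v165 v0; ok v171 && (
  let v172 := mul v96 v171; ok v172 && (
  let v173 := mul v107 v170; ok v173 && (
  let v174 := mul v2 v163; ok v174 && (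
  let v175 := mul v173 v174; ok v175 && (
  let v176 := mul v165 v170; ok v176 && (
  isPos 4 v168 && (
  let v177 := mul v23 v24; ok v177 && (
  let v178 := add v19 v1; ok v178 && (
  let v179 := mul v22 v19; ok v179 && (
  let v180 := mul v179 v17; ok v180 && (
  let v181 := scale ⟨2199023255552, 0, 0, 0⟩ v180; ok v181 && (
  let v182 := add v47 v181; ok v182 && (
  let v183 := mul v178 v182; ok v183 && (
  let v184 := inv v183; ok v184 && (
  let v185 := mul v177 v184; ok v185 && (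
  let v186 := mul v1 v185; ok v186 && (
  isPos 4 v89 && (
  let v187 := mul v128 v116; ok v187 && (
  let v188 := scale ⟨1527119872, 0, 0, 0⟩ v187; ok v188 && (
  let v189 := sub v129 v188; ok v189 && (
  let v190 := mul v187 v189; ok v190 && (
  let v191 := sub v8 v190; ok v191 && (
  let v192 := mul v187 v191; ok v192 && (
  let v193 := sub v0 v192; ok v193 && (
  let v194 := add v101 v0; ok v194 && (
  let v195 := mul v101 v101; ok v195 && (
  let v196 := add v195 v0; ok v196 && (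
  let v197 := mul v101 v193; ok v197 && (
  let v198 := scale ⟨2199023255552, 0, 0, 0⟩ v197; ok v198 && (
  let v199 := add v196 v198; ok v199 && (
  let v200 := scale ⟨4398046511104, 0, 0, 0⟩ v103; ok v200 && (
  let v201 := sub v199 v200; ok v201 && (
  let v202 := inv v194; ok v202 && (
  let v203 := mul v201 v202; ok v203 && (
  let v204 := add v203 v194; ok v204 && (
  let v205 := mul v101 v186; ok v205 && (
  let v206 := scale ⟨549755813888, 0, 0, 0⟩ v205; ok v206 && (
  let v207 := mul v206 v204; ok v207 && (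
  let v208 := sub v201 v207; ok v208 && (
  isPos 4 v201 && (
  isPos 4 v208 && (
  let v209 := mul v5 v93; ok v209 && (
  let v210 := scale ⟨2199023255552, 0, 0, 0⟩ v209; ok v210 && (
  let v211 := scale ⟨183274307584, 0, 0, 0⟩ v210; ok v211 && (
  let v212 := sub v8 v211; ok v212 && (
  let v213 := mul v210 v212; ok v213 && (
  let v214 := sub v0 v213; ok v214 && (
  let v215 := mul v93 v214; ok v215 && (
  let v216 := inv v208; ok v216 && (
  let v217 := mul v215 v216; ok v217 && (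
  let v218 := mul v5 v217; ok v218 && (
  let v219 := add v218 v8; ok v219 && (
  let v220 := inv v219; ok v220 && (
  let v221 := mul v217 v220; ok v221 && (
  let v222 := mul v5 v221; ok v222 && (
  let v223 := mul v186 v222; ok v223 && (
  let v224 := mul v2 v221; ok v224 && (
  let v225 := add v11 v0; ok v225 && (
  let v226 := inv v225; ok v226 && (
  let v227 := mul v11 v226; ok v227 && (
  let v228 := scale ⟨2199023255552, 0, 0, 0⟩ v227; ok v228 && (
  let v229 := sub v0 v228; ok v229 && (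
  let v230 := sub v0 v11; ok v230 && (
  let v231 := mul x3 v226; ok v231 && (
  let v232 := mul v231 v229; ok v232 && (
  let v233 := add v24 v232; ok v233 && (
  let v234 := scale ⟨224412041216, 0, 0, 0⟩ v15; ok v234 && (
  let v235 := inv v38; ok v235 && (
  let v236 := mul v234 v235; ok v236 && (
  let v237 := scale ⟨4398046511104, 0, 0, 0⟩ v0; ok v237 && (
  let v238 := mul v3 v21; ok v238 && (
  let v239 := add v237 v238; ok v239 && (
  let v240 := scale ⟨549755813888, 0, 0, 0⟩ v239; ok v240 && (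
  let v241 := inv v240; ok v241 && (
  let v242 := mul v3 v241; ok v242 && (
  let v243 := mul v0 v241; ok v243 && (
  let v244 := mul v243 v24; ok v244 && (
  let v245 := mul v244 v236; ok v245 && (
  let v246 := mul v242 v24; ok v246 && (
  let v247 := mul v246 v236; ok v247 && (
  let v248 := sub v0 v247; ok v248 && (
  let v249 := inv v248; ok v249 && (
  let v250 := mul v172 v247; ok v250 && (
  let v251 := sub v0 v250; ok v251 && (
  let v252 := inv v251; ok v252 && (
  let v253 := scale ⟨2199023255552, 0, 0, 0⟩ v6; ok v253 && (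
  let v254 := add v253 v0; ok v254 && (
  let v255 := add v6 v0; ok v255 && (
  let v256 := mul x2 v163; ok v256 && (
  let v257 := scale ⟨1099511627776, 0, 0, 0⟩ v256; ok v257 && (
  let v258 := inv x0; ok v258 && (
  let v259 := scale ⟨1099511627776, 0, 0, 0⟩ v258; ok v259 && (
  let v260 := add v257 v259; ok v260 && (
  let v261 := scale ⟨549755813888, 0, 0, 0⟩ v260; ok v261 && (
  let v262 := mul v11 v21; ok v262 && (
  let v263 := sub v0 v111; ok v263 && (
  let v264 := mul v11 v22; ok v264 && (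
  let v265 := scale ⟨2199023255552, 0, 0, 0⟩ v264; ok v265 && (
  let v266 := sub v263 v265; ok v266 && (
  let v267 := mul v262 v262; ok v267 && (
  let v268 := add v266 v267; ok v268 && (
  let v269 := add v268 v0; ok v269 && (
  let v270 := scale ⟨549755813888, 0, 0, 0⟩ v269; ok v270 && (
  let v271 := scale ⟨549755813888, 0, 0, 0⟩ v25; ok v271 && (
  let v272 := sub v15 v271; ok v272 && (
  let v273 := mul v112 v263; ok v273 && (
  let v274 := mul v273 v14; ok v274 && (
  let v275 := scale ⟨137438953472, 0, 0, 0⟩ v274; ok v275 && (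
  let v276 := add v272 v275; ok v276 && (
  let v277 := mul v270 v276; ok v277 && (
  let v278 := add v172 v0; ok v278 && (
  let v279 := mul v278 v249; ok v279 && (
  let v280 := mul v172 v252; ok v280 && (
  let v281 := add v279 v280; ok v281 && (
  let v282 := mul v247 v281; ok v282 && (
  let v283 := add v176 v282; ok v283 && (
  let v284 := mul v283 v6; ok v284 && (
  let v285 := mul v278 v247; ok v285 && (
  let v286 := mul v285 v249; ok v286 && (
  let v287 := add v176 v286; ok v287 && (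
  let v288 := mul v287 v6; ok v288 && (
  let v289 := scale ⟨223338299392, 0, 0, 0⟩ v288; ok v289 && (
  let v290 := add v8 v289; ok v290 && (
  let v291 := mul v288 v290; ok v291 && (
  let v292 := add v0 v291; ok v292 && (
  let v293 := scale ⟨893353197568, 0, 0, 0⟩ v284; ok v293 && (
  let v294 := add v0 v293; ok v294 && (
  let v295 := mul v284 v294; ok v295 && (
  let v296 := add v0 v295; ok v296 && (
  let v297 := mul v228 v231; ok v297 && (
  let v298 := mul v297 v254; ok v298 && (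
  let v299 := mul v298 v296; ok v299 && (
  let v300 := mul v277 v292; ok v300 && (
  let v301 := add v52 v8; ok v301 && (
  let v302 := mul v299 v301; ok v302 && (
  let v303 := add v300 v302; ok v303 && (
  let v304 := add v52 v0; ok v304 && (
  let v305 := mul v299 v304; ok v305 && (
  let v306 := mul v255 v304; ok v306 && (
  let v307 := mul v306 v231; ok v307 && (
  let v308 := mul v307 v230; ok v308 && (
  let v309 := mul v303 v175; ok v309 && (
  let v310 := mul v308 v261; ok v310 && (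
  let v311 := add v309 v310; ok v311 && (
  let v312 := mul v2 v233; ok v312 && (
  let v313 := inv v52; ok v313 && (
  let v314 := mul v312 v313; ok v314 && (
  let v315 := scale ⟨549755813888, 0, 0, 0⟩ v314; ok v315 && (
  let v316 := mul v23 v315; ok v316 && (
  let v317 := add v316 v311; ok v317 && (
  let v318 := mul v1 v317; ok v318 && (
  let v319 := mul v0 v318; ok v319 && (
  let v320 := mul v303 v278; ok v320 && (
  let v321 := mul v320 v249; ok v321 && (
  let v322 := mul v305 v172; ok v322 && (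
  let v323 := mul v322 v252; ok v323 && (
  let v324 := add v321 v323; ok v324 && (
  let v325 := mul v23 v319; ok v325 && (
  let v326 := mul v245 v324; ok v326 && (
  let v327 := add v325 v326; ok v327 && (
  let v328 := mul v112 v327; ok v328 && (
  let v329 := mul v328 v313; ok v329 && (
  let v330 := sub v0 v329; ok v330 && (
  let v331 := inv v330; ok v331 && (
  let v332 := mul v327 v331; ok v332 && (
  let v333 := mul v1 v332; ok v333 && (
  let v334 := mul v112 v332; ok v334 && (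
  let v335 := mul v334 v313; ok v335 && (
  let v336 := sub v0 v335; ok v336 && (
  let v337 := mul v49 v336; ok v337 && (
  let v338 := sub v337 v333; ok v338 && (
  let v339 := inv v338; ok v339 && (
  let v340 := mul v333 v339; ok v340 && (
  let v341 := sub v52 v334; ok v341 && (
  let v342 := inv v341; ok v342 && (
  let v343 := mul v340 v222; ok v343 && (
  let v344 := scale ⟨549755813888, 0, 0, 0⟩ v343; ok v344 && (
  let v345 := sub v0 v344; ok v345 && (
  let v346 := sub v0 v343; ok v346 && (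
  let v347 := inv v346; ok v347 && (
  let v348 := mul v345 v347; ok v348 && (
  let v349 := mul v2 v342; ok v349 && (
  let v350 := mul v224 v339; ok v350 && (
  let v351 := mul v350 v348; ok v351 && (
  let v352 := add v349 v351; ok v352 && (
  let v353 := mul v7 v332; ok v353 && (
  let v354 := mul v342 v353; ok v354 && (
  let v355 := mul v222 v339; ok v355 && (
  let v356 := mul v355 v348; ok v356 && (
  let v357 := mul v356 v333; ok v357 && (
  let v358 := add v354 v357; ok v358 && (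
  let v359 := scale ⟨223338299392, 0, 0, 0⟩ v358; ok v359 && (
  let v360 := add v8 v359; ok v360 && (
  let v361 := mul v358 v360; ok v361 && (
  let v362 := add v0 v361; ok v362 && (
  let v363 := mul v352 v362; ok v363 && (
  let v364 := mul v363 v331; ok v364 && (
  let v365 := mul v364 v324; ok v365 && (
  let v366 := mul v246 v23; ok v366 && (
  let v367 := cst ⟨5497558138880, 0, 0, 0⟩; ok v367 && (
  let v368 := inv v367; ok v368 && (
  let v369 := mul v53 v368; ok v369 && (
  let v370 := mul v225 v24; ok v370 && (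
  let v371 := mul v370 v369; ok v371 && (
  let v372 := mul v178 v106; ok v372 && (
  let v373 := mul v22 v372; ok v373 && (
  let v374 := scale ⟨549755813888, 0, 0, 0⟩ v223; ok v374 && (
  let v375 := sub v0 v374; ok v375 && (
  let v376 := sub v0 v223; ok v376 && (
  let v377 := inv v376; ok v377 && (
  let v378 := mul v375 v377; ok v378 && (
  let v379 := mul v378 v186; ok v379 && (
  let v380 := mul v112 v122; ok v380 && (
  let v381 := scale ⟨733097230336, 0, 0, 0⟩ v380; ok v381 && (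
  let v382 := sub v0 v381; ok v382 && (
  let v383 := mul v122 v382; ok v383 && (
  let v384 := mul v89 v89; ok v384 && (
  let v385 := mul v12 v384; ok v385 && (
  let v386 := add v383 v385; ok v386 && (
  let v387 := mul v379 v224; ok v387 && (
  let v388 := add v386 v0; ok v388 && (
  let v389 := mul v387 v388; ok v389 && (
  let v390 := sub v386 v389; ok v390 && (
  let v391 := scale ⟨366548615168, 0, 0, 0⟩ v45; ok v391 && (
  let v392 := sub v0 v391; ok v392 && (
  let v393 := mul v26 v392; ok v393 && (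
  let v394 := add v390 v393; ok v394 && (
  let v395 := mul v372 v394; ok v395 && (
  let v396 := mul v373 v373; ok v396 && (
  let v397 := add v0 v396; ok v397 && (
  let v398 := inv v397; ok v398 && (
  let v399 := mul v395 v398; ok v399 && (
  let v400 := sub v0 v340; ok v400 && (
  let v401 := mul v400 v399; ok v401 && (
  let v402 := sub v0 v387; ok v402 && (
  isPos 4 v402 && (
  isPos 4 v399 && (
  isPos 4 v400 && (
  let v403 := mul v364 v240; ok v403 && (
  let v404 := mul v403 v317; ok v404 && (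
  let v405 := inv v24; ok v405 && (
  let v406 := mul v404 v405; ok v406 && (
  let v407 := mul v4 v401; ok v407 && (
  let v408 := mul v1 v407; ok v408 && (
  let v409 := scale ⟨549755813888, 0, 0, 0⟩ v408; ok v409 && (
  let v410 := sub v0 v409; ok v410 && (
  let v411 := mul v407 v410; ok v411 && (
  let v412 := neg v411; ok v412 && (
  let v413 := mul v2 x3; ok v413 && (
  let v414 := mul v413 v225; ok v414 && (
  let v415 := mul v414 v15; ok v415 && (
  let v416 := mul v0 v415; ok v416 && (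
  let v417 := add v412 v416; ok v417 && (
  let v418 := mul v412 v416; ok v418 && (
  let v419 := mul v1 v418; ok v419 && (
  let v420 := add v417 v419; ok v420 && (
  let v421 := mul v12 v42; ok v421 && (
  let v422 := scale ⟨412316860416, 0, 0, 0⟩ v43; ok v422 && (
  let v423 := sub v8 v422; ok v423 && (
  let v424 := mul v421 v423; ok v424 && (
  let v425 := mul v0 v424; ok v425 && (
  let v426 := neg v425; ok v426 && (
  let v427 := add v420 v426; ok v427 && (
  let v428 := mul v420 v426; ok v428 && (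
  let v429 := mul v1 v428; ok v429 && (
  let v430 := add v427 v429; ok v430 && (
  let v431 := mul v2 v332; ok v431 && (
  let v432 := mul v431 v405; ok v432 && (
  let v433 := mul v0 v432; ok v433 && (
  let v434 := add v430 v433; ok v434 && (
  let v435 := mul v430 v433; ok v435 && (
  let v436 := mul v1 v435; ok v436 && (
  let v437 := add v434 v436; ok v437 && (
  let v438 := mul v0 v371; ok v438 && (
  let v439 := sub v437 v438; ok v439 && (
  let v440 := mul v1 v371; ok v440 && (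
  let v441 := add v0 v440; ok v441 && (
  let v442 := inv v441; ok v442 && (
  let v443 := mul v439 v442; ok v443 && (
  let v444 := mul v2 v9; ok v444 && (
  let v445 := mul v444 v332; ok v445 && (
  let v446 := mul v445 v342; ok v446 && (
  let v447 := mul v0 v446; ok v447 && (
  let v448 := add v443 v447; ok v448 && (
  let v449 := mul v443 v447; ok v449 && (
  let v450 := mul v1 v449; ok v450 && (
  let v451 := add v448 v450; ok v451 && (
  let v452 := mul v1 v451; ok v452 && (
  let v453 := add v0 v452; ok v453 && (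
  let v454 := mul v365 v247; ok v454 && (
  let v455 := mul v1 v366; ok v455 && (
  let v456 := mul v406 v455; ok v456 && (
  let v457 := add v454 v456; ok v457 && (
  let v458 := mul v0 v457; ok v458 && (
  let v459 := add v365 v406; ok v459 && (
  let v460 := mul v0 v459; ok v460 && (
  let v461 := mul v458 v453; ok v461 && (
  let v462 := add v451 v461; ok v462 && (
  let v463 := add v462 v460; ok v463 && (
  let v464 := neg v463; ok v464 && (
  let v465 := scale ⟨1073741824, 0, 0, 0⟩ v0; ok v465 && (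
  let v466 := sub v464 v465; ok v466 && (
  let v467 := sub v20 v0; ok v467 && (
  let v468 := add v467 v56; ok v468 && (
  let v469 := scale ⟨2199023255552, 0, 0, 0⟩ v369; ok v469 && (
  let v470 := sub v468 v469; ok v470 && (
  let v471 := mul v225 v470; ok v471 && (
  let v472 := mul v467 v469; ok v472 && (
  let v473 := add v472 v0; ok v473 && (
  let v474 := inv v473; ok v474 && (
  let v475 := mul v471 v474; ok v475 && (
  let v476 := mul v243 v324; ok v476 && (
  let v477 := scale ⟨549755813888, 0, 0, 0⟩ v236; ok v477 && (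
  let v478 := add v17 v477; ok v478 && (
  let v479 := mul v476 v478; ok v479 && (
  let v480 := scale ⟨2199023255552, 0, 0, 0⟩ v479; ok v480 && (
  let v481 := add v319 v480; ok v481 && (
  let v482 := scale ⟨2199023255552, 0, 0, 0⟩ v481; ok v482 && (
  let v483 := mul v482 v331; ok v483 && (
  let v484 := mul v9 v332; ok v484 && (
  let v485 := sub v24 v484; ok v485 && (
  let v486 := inv v485; ok v486 && (
  let v487 := mul v483 v486; ok v487 && (
  let v488 := sub v475 v487; ok v488 && (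
  let v489 := mul v238 v238; ok v489 && (
  let v490 := cst ⟨14293651161088, 0, 0, 0⟩; ok v490 && (
  let v491 := cst ⟨10995116277760, 0, 0, 0⟩; ok v491 && (
  let v492 := inv v491; ok v492 && (
  let v493 := mul v490 v492; ok v493 && (
  let v494 := mul v489 v493; ok v494 && (
  let v495 := mul v0 v0; ok v495 && (
  let v496 := scale ⟨27487790694400, 0, 0, 0⟩ v495; ok v496 && (
  let v497 := add v494 v496; ok v497 && (
  let v498 := mul v371 v442; ok v498 && (
  let v499 := sub v40 v1; ok v499 && (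
  let v500 := sub v499 v39; ok v500 && (
  let v501 := mul v3 v2; ok v501 && (
  let v502 := mul v501 v0; ok v502 && (
  let v503 := mul v24 v324; ok v503 && (
  let v504 := mul v503 v241; ok v504 && (
  let v505 := add v311 v504; ok v505 && (
  let v506 := add v484 v56; ok v506 && (
  let v507 := mul v3 v506; ok v507 && (
  let v508 := mul v497 v498; ok v508 && (
  let v509 := mul v331 v507; ok v509 && (
  let v510 := mul v502 v505; ok v510 && (
  let v511 := mul v509 v510; ok v511 && (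
  let v512 := sub v508 v511; ok v512 && (
  let v513 := scale ⟨549755813888, 0, 0, 0⟩ v484; ok v513 && (
  let v514 := add v0 v513; ok v514 && (
  let v515 := mul v331 v514; ok v515 && (
  let v516 := mul v1 v23; ok v516 && (
  let v517 := mul v516 v233; ok v517 && (
  let v518 := mul v24 v52; ok v518 && (
  let v519 := inv v518; ok v519 && (
  let v520 := mul v517 v519; ok v520 && (
  let v521 := mul v515 v520; ok v521 && (
  let v522 := sub v500 v521; ok v522 && (
  let v523 := mul v236 v512; ok v523 && (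
  let v524 := sub v0 v236; ok v524 && (
  let v525 := mul v12 v522; ok v525 && (
  let v526 := mul v524 v525; ok v526 && (
  let v527 := mul v497 v526; ok v527 && (
  let v528 := add v523 v527; ok v528 && (
  isPos 4 v248 && (
  isPos 4 v251 && (
  let v529 := scale ⟨2199023255552, 0, 0, 0⟩ v328; ok v529 && (
  let v530 := sub v52 v529; ok v530 && (
  isPos 4 v530 && (
  isPos 4 v338 && (
  let v531 := sub v8 v223; ok v531 && (
  isPos 4 v531 && (
  let v532 := scale ⟨687194767360, 0, 0, 0⟩ v0; ok v532 && (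
  let v533 := sub v532 v288; ok v533 && (
  isPos 4 v533 && (
  let v534 := scale ⟨377957122048, 0, 0, 0⟩ v0; ok v534 && (
  let v535 := sub v534 v284; ok v535 && (
  isPos 4 v535 && (
  isPos 4 v485 && (
  isPos 4 v346 && (
  let v536 := sub v532 v358; ok v536 && (
  isPos 4 v536 && (
  isPos 4 v488 && (
  isPos 4 v466 && (
  isPos 4 v528 && (
  isPos 4 v522 && (
  true))))))))))))))))))))))))))))))))))))))))))))))))))))))))))))))))))))))))))))))))))))))))))))))))))))))))))))))))))))))))))))))))))))))))))))))))))))))))))))))))))))))))))))))))))))))))))))))))))))))))))))))))))))))))))))))))))))))))))))))))))))))))))))))))))))))))))))))))))))))))))))))))))))))))))))))))))))))))))))))))))))))))))))))))))))))))))))))))))))))))))))))))))))))))))))))))))))))))))))))))))))))))))))))))))))))))))))))))))))))))))))))))))))))))))))))))))))))))))))))))))))))))))))))))))))))))))))))))))))))))))))))))))))))))))))))))))))))))))))))))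
  | _ => false

set_option maxRecDepth 1000000 in
theorem chk1_eq (O : Ops) (m : List O.α)
    (h : chk1 O.cst O.add O.sub O.mul O.scale O.neg O.inv O.exp O.log O.ok O.isPos O.isLt m = true) :
    runG O 4 prog1 m = true := by
  match m, h with
  | [x0, x1, x2, x3], h => exact h

def chkB1 : List opsE.α → Bool :=
  chk1 opsE.cst opsE.add opsE.sub opsE.mul opsE.scale opsE.neg opsE.inv opsE.exp opsE.log opsE.ok opsE.isPos opsE.isLt

theorem chkB1_eq (m : List opsE.α) (h : chkB1 m = true) : runG opsE 4 prog1 m = true :=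
  chk1_eq opsE m h

def prog2 : List Op := [
  .const ⟨1099511627776, 0, 0, 0⟩,
  .mul 1 3,
  .mul 3 4,
  .mul 3 4,
  .mul 5 5,
  .mul 3 0,
  .mul 8 8,
  .mul 5 1,
  .const ⟨549755813888, 0, 0, 0⟩,
  .mul 7 6,
  .mul 0 13,
  .scale ⟨549755813888, 0, 0, 0⟩ 0,
  .mul 9 9,
  .mul 1 1,
  .sub 13 0,
  .inv 0,
  .mul 4 0,
  .scale ⟨2199023255552, 0, 0, 0⟩ 0,
  .scale ⟨2199023255552, 0, 0, 0⟩ 2,
  .sub 0 18,
  .add 0 2,
  .mul 24 5,
  .mul 19 0,
  .sub 22 0,
  .add 23 1,
  .mul 23 12,
  .mul 4 4,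
  .scale ⟨10774999203840, 0, 0, 0⟩ 15,
  .scale ⟨45768245248, 0, 0, 0⟩ 0,
  .const ⟨183207198720, 0, 0, 0⟩,
  .add 1 0,
  .mul 3 0,
  .add 23 0,
  .mul 5 0,
  .add 33 0,
  .mul 7 0,
  .scale ⟨549755813888, 0, 0, 0⟩ 0,
  .add 36 0,
  .mul 3 0,
  .mul 21 16,
  .scale ⟨2199023255552, 0, 0, 0⟩ 20,
  .add 1 0,
  .add 0 40,
  .mul 17 0,
  .add 0 43,
  .mul 27 27,
  .scale ⟨2199023255552, 0, 0, 0⟩ 0,
  .add 0 46,
  .mul 28 5,
  .sub 0 48,
  .log 5,
  .scale ⟨549755813888, 0, 0, 0⟩ 0,
  .exp 0,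
  .const ⟨3298534883328, 0, 0, 0⟩,
  .inv 0,
  .mul 54 0,
  .const ⟨2199023255552, 0, 0, 0⟩,
  .add 13 0,
  .inv 0,
  .mul 15 0,
  .mul 0 0,
  .sub 60 1,
  .mul 1 6,
  .add 62 0,
  .mul 2 0,
  .mul 4 4,
  .scale ⟨219915747328, 0, 0, 0⟩ 0,
  .mul 24 2,
  .scale ⟨549755813888, 0, 0, 0⟩ 0,
  .mul 26 2,
  .scale ⟨549755813888, 0, 0, 0⟩ 0,
  .add 2 0,
  .mul 52 22,
  .scale ⟨4398046511104, 0, 0, 0⟩ 0,
  .mul 54 48,
  .mul 0 25,
  .scale ⟨4398046511104, 0, 0, 0⟩ 0,
  .add 0 20,
  .inv 0,
  .mul 2 0,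
  .mul 0 0,
  .sub 80 1,
  .mul 1 26,
  .add 82 0,
  .mul 2 0,
  .mul 4 4,
  .scale ⟨219915747328, 0, 0, 0⟩ 0,
  .mul 13 2,
  .scale ⟨549755813888, 0, 0, 0⟩ 0,
  .sub 0 17,
  .mul 16 3,
  .scale ⟨549755813888, 0, 0, 0⟩ 0,
  .add 0 21,
  .add 3 0,
  .mul 88 25,
  .neg 0,
  .exp 0,
  .mul 91 26,
  .mul 1 0,
  .mul 93 9,
  .neg 0,
  .exp 0,
  .mul 96 9,
  .mul 1 0,
  .mul 81 86,
  .add 85 0,
  .inv 0,
  .mul 82 0,
  .mul 84 106,
  .mul 0 1,
  .sub 109 97,
  .mul 84 0,
  .mul 102 102,
  .sub 112 86,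
  .mul 3 0,
  .mul 89 65,
  .inv 71,
  .mul 1 0,
  .add 98 0,
  .mul 74 0,
  .mul 0 0,
  .inv 0,
  .mul 7 0,
  .add 103 97,
  .mul 123 0,
  .inv 0,
  .mul 122 0,
  .mul 0 0,
  .mul 0 13,
  .const ⟨45812285440, 0, 0, 0⟩,
  .scale ⟨1527119872, 0, 0, 0⟩ 1,
  .sub 1 0,
  .mul 3 0,
  .sub 124 0,
  .mul 5 0,
  .sub 134 0,
  .add 39 135,
  .mul 40 40,
  .add 0 137,
  .mul 42 3,
  .scale ⟨2199023255552, 0, 0, 0⟩ 0,
  .add 2 0,
  .scale ⟨4398046511104, 0, 0, 0⟩ 43,
  .sub 1 0,
  .inv 7,
  .mul 1 0,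
  .add 0 9,
  .mul 50 37,
  .scale ⟨549755813888, 0, 0, 0⟩ 0,
  .mul 0 2,
  .sub 6 0,
  .pos 7,
  .pos 0,
  .mul 145 79,
  .scale ⟨2199023255552, 0, 0, 0⟩ 0,
  .scale ⟨183274307584, 0, 0, 0⟩ 0,
  .sub 145 0,
  .mul 2 0,
  .sub 155 0,
  .mul 85 0,
  .inv 7,
  .mul 1 0,
  .mul 154 0,
  .add 0 152,
  .inv 0,
  .mul 3 0,
  .mul 158 0,
  .mul 55 0,
  .scale ⟨549755813888, 0, 0, 0⟩ 0,
  .sub 166 0,
  .sub 167 2,
  .inv 0,
  .mul 2 0,
  .add 5 170,
  .mul 75 0,
  .mul 65 2,
  .mul 171 10,
  .mul 1 0,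
  .mul 10 5,
  .pos 8,
  .mul 153 152,
  .add 158 176,
  .mul 156 159,
  .mul 0 162,
  .scale ⟨2199023255552, 0, 0, 0⟩ 0,
  .add 134 0,
  .mul 4 0,
  .inv 0,
  .mul 7 0,
  .mul 184 0,
  .pos 97,
  .mul 58 70,
  .scale ⟨1527119872, 0, 0, 0⟩ 0,
  .sub 59 0,
  .mul 2 0,
  .sub 182 0,
  .mul 4 0,
  .sub 192 0,
  .add 92 193,
  .mul 93 93,
  .add 0 195,
  .mul 95 3,
  .scale ⟨2199023255552, 0, 0, 0⟩ 0,
  .add 2 0,
  .scale ⟨4398046511104, 0, 0, 0⟩ 96,
  .sub 1 0,
  .inv 7,
  .mul 1 0,
  .add 0 9,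
  .mul 103 18,
  .scale ⟨549755813888, 0, 0, 0⟩ 0,
  .mul 0 2,
  .sub 6 0,
  .pos 7,
  .pos 0,
  .mul 203 115,
  .scale ⟨2199023255552, 0, 0, 0⟩ 0,
  .scale ⟨183274307584, 0, 0, 0⟩ 0,
  .sub 203 0,
  .mul 2 0,
  .sub 213 0,
  .mul 121 0,
  .inv 7,
  .mul 1 0,
  .mul 212 0,
  .add 0 210,
  .inv 0,
  .mul 3 0,
  .mul 216 0,
  .mul 36 0,
  .mul 221 2,
  .add 213 224,
  .inv 0,
  .mul 215 0,
  .scale ⟨2199023255552, 0, 0, 0⟩ 0,
  .sub 228 0,
  .sub 229 218,
  .mul 234 4,
  .mul 0 2,
  .add 208 0,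
  .scale ⟨224412041216, 0, 0, 0⟩ 218,
  .inv 196,
  .mul 1 0,
  .scale ⟨4398046511104, 0, 0, 0⟩ 236,
  .mul 234 216,
  .add 1 0,
  .scale ⟨549755813888, 0, 0, 0⟩ 0,
  .inv 0,
  .mul 238 0,
  .mul 242 1,
  .mul 0 219,
  .mul 0 8,
  .mul 3 221,
  .mul 0 10,
  .sub 247 0,
  .inv 0,
  .mul 77 2,
  .sub 250 0,
  .inv 0,
  .scale ⟨2199023255552, 0, 0, 0⟩ 246,
  .add 0 253,
  .add 248 254,
  .mul 258 92,
  .scale ⟨2199023255552, 0, 0, 0⟩ 0,
  .inv 258,
  .scale ⟨549755813888, 0, 0, 0⟩ 0,
  .add 2 0,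
  .scale ⟨549755813888, 0, 0, 0⟩ 0,
  .mul 250 240,
  .sub 262 151,
  .mul 252 241,
  .scale ⟨2199023255552, 0, 0, 0⟩ 0,
  .sub 2 0,
  .mul 4 4,
  .add 1 0,
  .add 0 268,
  .scale ⟨549755813888, 0, 0, 0⟩ 0,
  .scale ⟨549755813888, 0, 0, 0⟩ 245,
  .sub 256 0,
  .mul 160 9,
  .mul 0 259,
  .scale ⟨137438953472, 0, 0, 0⟩ 0,
  .add 3 0,
  .mul 6 0,
  .add 105 277,
  .mul 0 29,
  .mul 107 27,
  .add 1 0,
  .mul 34 0,
  .add 106 0,
  .mul 0 277,
  .mul 6 37,
  .mul 0 36,
  .add 110 0,
  .mul 0 281,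
  .scale ⟨223338299392, 0, 0, 0⟩ 0,
  .add 281 0,
  .mul 2 0,
  .add 291 0,
  .scale ⟨893353197568, 0, 0, 0⟩ 8,
  .add 293 0,
  .mul 10 0,
  .add 295 0,
  .mul 68 65,
  .mul 0 43,
  .mul 0 2,
  .mul 22 7,
  .add 248 292,
  .mul 2 0,
  .add 2 0,
  .add 251 303,
  .mul 5 0,
  .mul 50 1,
  .mul 0 75,
  .mul 0 77,
  .mul 5 133,
  .mul 1 48,
  .add 1 0,
  .mul 309 78,
  .inv 260,
  .mul 1 0,
  .scale ⟨549755813888, 0, 0, 0⟩ 0,
  .mul 292 0,
  .add 0 5,
  .mul 316 0,
  .mul 318 0,
  .mul 16 41,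
  .mul 0 71,
  .mul 16 149,
  .mul 0 70,
  .add 2 0,
  .mul 301 5,
  .mul 80 1,
  .add 1 0,
  .mul 215 0,
  .mul 0 15,
  .sub 329 0,
  .inv 0,
  .mul 4 0,
  .mul 331 0,
  .mul 221 1,
  .mul 0 21,
  .sub 335 0,
  .mul 287 0,
  .sub 0 4,
  .inv 0,
  .mul 6 0,
  .sub 288 6,
  .inv 0,
  .mul 2 120,
  .scale ⟨549755813888, 0, 0, 0⟩ 0,
  .sub 344 0,
  .sub 345 2,
  .inv 0,
  .mul 2 0,
  .mul 346 6,
  .mul 125 10,
  .mul 0 2,
  .add 2 0,
  .mul 345 20,
  .mul 11 0,
  .mul 132 15,
  .mul 0 7,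
  .mul 0 23,
  .add 3 0,
  .scale ⟨223338299392, 0, 0, 0⟩ 0,
  .add 351 0,
  .mul 2 0,
  .add 361 0,
  .mul 10 0,
  .mul 0 32,
  .mul 0 40,
  .mul 119 342,
  .const ⟨5497558138880, 0, 0, 0⟩,
  .inv 0,
  .mul 315 0,
  .mul 144 345,
  .mul 0 1,
  .mul 193 265,
  .mul 350 0,
  .scale ⟨549755813888, 0, 0, 0⟩ 150,
  .sub 374 0,
  .sub 375 152,
  .inv 0,
  .mul 2 0,
  .mul 0 192,
  .mul 267 257,
  .scale ⟨733097230336, 0, 0, 0⟩ 0,
  .sub 381 0,
  .mul 260 0,
  .mul 294 294,
  .mul 372 0,
  .add 2 0,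
  .mul 7 162,
  .add 1 387,
  .mul 1 0,
  .sub 3 0,
  .scale ⟨366548615168, 0, 0, 0⟩ 345,
  .sub 391 0,
  .mul 366 0,
  .add 3 0,
  .mul 22 0,
  .mul 22 22,
  .add 396 0,
  .inv 0,
  .mul 3 0,
  .sub 399 59,
  .mul 0 1,
  .sub 401 14,
  .pos 0,
  .pos 3,
  .pos 2,
  .mul 38 162,
  .mul 0 86,
  .inv 380,
  .mul 1 0,
  .mul 402 5,
  .mul 406 0,
  .scale ⟨549755813888, 0, 0, 0⟩ 0,
  .sub 409 0,
  .mul 3 0,
  .neg 0,
  .mul 410 416,
  .mul 0 188,
  .mul 0 399,
  .mul 415 0,
  .add 4 0,
  .mul 5 1,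
  .mul 417 0,
  .add 2 0,
  .mul 408 378,
  .scale ⟨412316860416, 0, 0, 0⟩ 378,
  .sub 414 0,
  .mul 2 0,
  .mul 424 0,
  .neg 0,
  .add 6 0,
  .mul 7 1,
  .mul 427 0,
  .add 2 0,
  .mul 428 98,
  .mul 0 26,
  .mul 432 0,
  .add 3 0,
  .mul 4 1,
  .mul 434 0,
  .add 2 0,
  .mul 437 66,
  .sub 1 0,
  .mul 438 68,
  .add 440 0,
  .inv 0,
  .mul 3 0,
  .mul 441 434,
  .mul 0 112,
  .mul 0 103,
  .mul 446 0,
  .add 4 0,
  .mul 5 1,
  .mul 448 0,
  .add 2 0,
  .mul 450 0,
  .add 452 0,
  .mul 88 206,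
  .mul 453 88,
  .mul 49 0,
  .add 2 0,
  .mul 457 0,
  .add 93 52,
  .mul 459 0,
  .mul 2 7,
  .add 10 0,
  .add 0 2,
  .neg 0,
  .scale ⟨1073741824, 0, 0, 0⟩ 464,
  .sub 1 0,
  .sub 446 466,
  .add 0 411,
  .scale ⟨2199023255552, 0, 0, 0⟩ 99,
  .sub 1 0,
  .mul 245 0,
  .mul 4 2,
  .add 0 472,
  .inv 0,
  .mul 3 0,
  .mul 232 151,
  .scale ⟨549755813888, 0, 0, 0⟩ 240,
  .add 460 0,
  .mul 2 0,
  .scale ⟨2199023255552, 0, 0, 0⟩ 0,
  .add 161 0,
  .scale ⟨2199023255552, 0, 0, 0⟩ 0,
  .mul 0 151,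
  .mul 474 151,
  .sub 460 0,
  .inv 0,
  .mul 3 0,
  .sub 12 0,
  .mul 250 250,
  .const ⟨14293651161088, 0, 0, 0⟩,
  .const ⟨10995116277760, 0, 0, 0⟩,
  .inv 0,
  .mul 2 0,
  .mul 4 0,
  .mul 494 494,
  .scale ⟨27487790694400, 0, 0, 0⟩ 0,
  .add 2 0,
  .mul 126 55,
  .sub 458 497,
  .sub 0 460,
  .mul 497 498,
  .mul 0 501,
  .mul 478 178,
  .mul 0 262,
  .add 193 0,
  .add 21 449,
  .mul 503 0,
  .mul 10 9,
  .mul 177 1,
  .mul 7 4,
  .mul 1 0,
  .sub 3 0,
  .scale ⟨549755813888, 0, 0, 0⟩ 28,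
  .add 513 0,
  .mul 183 0,
  .mul 514 492,
  .mul 0 283,
  .mul 493 465,
  .inv 0,
  .mul 2 0,
  .mul 5 0,
  .sub 21 0,
  .mul 286 10,
  .sub 523 287,
  .mul 512 2,
  .mul 1 0,
  .mul 29 0,
  .add 4 0,
  .pos 280,
  .pos 277,
  .scale ⟨2199023255552, 0, 0, 0⟩ 200,
  .sub 477 0,
  .pos 0,
  .pos 192,
  .sub 522 307,
  .pos 0,
  .scale ⟨687194767360, 0, 0, 0⟩ 531,
  .sub 0 244,
  .pos 0,
  .scale ⟨377957122048, 0, 0, 0⟩ 533,
  .sub 0 250,
  .pos 0,
  .pos 50,
  .pos 189,
  .sub 3 177,
  .pos 0,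
  .pos 48,
  .pos 70,
  .pos 8,
  .pos 14]

def chk2 {α : Type} (cst : Z → α) (add sub mul : α → α → α) (scale : Z → α → α)
    (neg inv exp log : α → α) (ok : α → Bool) (isPos : Nat → α → Bool) (isLt : α → Nat → Bool) :
    List α → Bool
  | [x0, x1, x2, x3] =>
  let v0 := cst ⟨1099511627776, 0, 0, 0⟩; ok v0 && (
  let v1 := mul x0 x2; ok v1 && (
  let v2 := mul x1 x2; ok v2 && (
  let v3 := mul x0 x1; ok v3 && (
  let v4 := mul x1 x1; ok v4 && (
  let v5 := mul v1 v4; ok v5 && (
  let v6 := mul x2 x2; ok v6 && (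
  let v7 := mul v1 v5; ok v7 && (
  let v8 := cst ⟨549755813888, 0, 0, 0⟩; ok v8 && (
  let v9 := mul v1 v2; ok v9 && (
  let v10 := mul v9 x3; ok v10 && (
  let v11 := scale ⟨549755813888, 0, 0, 0⟩ v10; ok v11 && (
  let v12 := mul v2 v2; ok v12 && (
  let v13 := mul v11 v11; ok v13 && (
  let v14 := sub v0 v13; ok v14 && (
  let v15 := inv v14; ok v15 && (
  let v16 := mul v11 v15; ok v16 && (
  let v17 := scale ⟨2199023255552, 0, 0, 0⟩ v16; ok v17 && (
  let v18 := scale ⟨2199023255552, 0, 0, 0⟩ v15; ok v18 && (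
  let v19 := sub v18 v0; ok v19 && (
  let v20 := add v19 v17; ok v20 && (
  let v21 := mul x3 v15; ok v21 && (
  let v22 := mul v2 v21; ok v22 && (
  let v23 := sub v0 v22; ok v23 && (
  let v24 := add v0 v22; ok v24 && (
  let v25 := mul v1 v12; ok v25 && (
  let v26 := mul v21 v21; ok v26 && (
  let v27 := scale ⟨10774999203840, 0, 0, 0⟩ v11; ok v27 && (
  let v28 := scale ⟨45768245248, 0, 0, 0⟩ v27; ok v28 && (
  let v29 := cst ⟨183207198720, 0, 0, 0⟩; ok v29 && (
  let v30 := add v28 v29; ok v30 && (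
  let v31 := mul v27 v30; ok v31 && (
  let v32 := add v8 v31; ok v32 && (
  let v33 := mul v27 v32; ok v33 && (
  let v34 := add v0 v33; ok v34 && (
  let v35 := mul v27 v34; ok v35 && (
  let v36 := scale ⟨549755813888, 0, 0, 0⟩ v35; ok v36 && (
  let v37 := add v0 v36; ok v37 && (
  let v38 := mul v34 v37; ok v38 && (
  let v39 := mul v17 v22; ok v39 && (
  let v40 := scale ⟨2199023255552, 0, 0, 0⟩ v19; ok v40 && (
  let v41 := add v39 v40; ok v41 && (
  let v42 := add v41 v1; ok v42 && (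
  let v43 := mul v25 v42; ok v43 && (
  let v44 := add v43 v0; ok v44 && (
  let v45 := mul v17 v17; ok v45 && (
  let v46 := scale ⟨2199023255552, 0, 0, 0⟩ v45; ok v46 && (
  let v47 := add v46 v0; ok v47 && (
  let v48 := mul v19 v42; ok v48 && (
  let v49 := sub v48 v0; ok v49 && (
  let v50 := log v44; ok v50 && (
  let v51 := scale ⟨549755813888, 0, 0, 0⟩ v50; ok v51 && (
  let v52 := exp v51; ok v52 && (
  let v53 := cst ⟨3298534883328, 0, 0, 0⟩; ok v53 && (
  let v54 := inv v53; ok v54 && (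
  let v55 := mul v0 v54; ok v55 && (
  let v56 := cst ⟨2199023255552, 0, 0, 0⟩; ok v56 && (
  let v57 := add v43 v56; ok v57 && (
  let v58 := inv v57; ok v58 && (
  let v59 := mul v43 v58; ok v59 && (
  let v60 := mul v59 v59; ok v60 && (
  let v61 := sub v0 v59; ok v61 && (
  let v62 := mul v60 v55; ok v62 && (
  let v63 := add v0 v62; ok v63 && (
  let v64 := mul v61 v63; ok v64 && (
  let v65 := mul v60 v60; ok v65 && (
  let v66 := scale ⟨219915747328, 0, 0, 0⟩ v65; ok v66 && (
  let v67 := mul v42 v64; ok v67 && (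
  let v68 := scale ⟨549755813888, 0, 0, 0⟩ v67; ok v68 && (
  let v69 := mul v42 v66; ok v69 && (
  let v70 := scale ⟨549755813888, 0, 0, 0⟩ v69; ok v70 && (
  let v71 := add v68 v70; ok v71 && (
  let v72 := mul v19 v49; ok v72 && (
  let v73 := scale ⟨4398046511104, 0, 0, 0⟩ v72; ok v73 && (
  let v74 := mul v19 v25; ok v74 && (
  let v75 := mul v74 v49; ok v75 && (
  let v76 := scale ⟨4398046511104, 0, 0, 0⟩ v75; ok v76 && (
  let v77 := add v76 v56; ok v77 && (
  let v78 := inv v77; ok v78 && (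
  let v79 := mul v76 v78; ok v79 && (
  let v80 := mul v79 v79; ok v80 && (
  let v81 := sub v0 v79; ok v81 && (
  let v82 := mul v80 v55; ok v82 && (
  let v83 := add v0 v82; ok v83 && (
  let v84 := mul v81 v83; ok v84 && (
  let v85 := mul v80 v80; ok v85 && (
  let v86 := scale ⟨219915747328, 0, 0, 0⟩ v85; ok v86 && (
  let v87 := mul v73 v84; ok v87 && (
  let v88 := scale ⟨549755813888, 0, 0, 0⟩ v87; ok v88 && (
  let v89 := sub v88 v71; ok v89 && (
  let v90 := mul v73 v86; ok v90 && (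
  let v91 := scale ⟨549755813888, 0, 0, 0⟩ v90; ok v91 && (
  let v92 := add v91 v70; ok v92 && (
  let v93 := add v89 v92; ok v93 && (
  let v94 := mul v5 v68; ok v94 && (
  let v95 := neg v94; ok v95 && (
  let v96 := exp v95; ok v96 && (
  let v97 := mul v5 v70; ok v97 && (
  let v98 := mul v96 v97; ok v98 && (
  let v99 := mul v5 v89; ok v99 && (
  let v100 := neg v99; ok v100 && (
  let v101 := exp v100; ok v101 && (
  let v102 := mul v5 v92; ok v102 && (
  let v103 := mul v101 v102; ok v103 && (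
  let v104 := mul v22 v17; ok v104 && (
  let v105 := add v19 v104; ok v105 && (
  let v106 := inv v105; ok v106 && (
  let v107 := mul v24 v106; ok v107 && (
  let v108 := mul v23 v1; ok v108 && (
  let v109 := mul v108 v107; ok v109 && (
  let v110 := sub v0 v12; ok v110 && (
  let v111 := mul v26 v110; ok v111 && (
  let v112 := mul v9 v9; ok v112 && (
  let v113 := sub v0 v26; ok v113 && (
  let v114 := mul v110 v113; ok v114 && (
  let v115 := mul v25 v49; ok v115 && (
  let v116 := inv v44; ok v116 && (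
  let v117 := mul v115 v116; ok v117 && (
  let v118 := add v19 v117; ok v118 && (
  let v119 := mul v44 v118; ok v119 && (
  let v120 := mul v119 v119; ok v120 && (
  let v121 := inv v120; ok v121 && (
  let v122 := mul v114 v121; ok v122 && (
  let v123 := add v19 v25; ok v123 && (
  let v124 := mul v0 v123; ok v124 && (
  let v125 := inv v124; ok v125 && (
  let v126 := mul v3 v125; ok v126 && (
  let v127 := mul v126 v126; ok v127 && (
  let v128 := mul v127 v114; ok v128 && (
  let v129 := cst ⟨45812285440, 0, 0, 0⟩; ok v129 && (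
  let v130 := scale ⟨1527119872, 0, 0, 0⟩ v128; ok v130 && (
  let v131 := sub v129 v130; ok v131 && (
  let v132 := mul v128 v131; ok v132 && (
  let v133 := sub v8 v132; ok v133 && (
  let v134 := mul v128 v133; ok v134 && (
  let v135 := sub v0 v134; ok v135 && (
  let v136 := add v96 v0; ok v136 && (
  let v137 := mul v96 v96; ok v137 && (
  let v138 := add v137 v0; ok v138 && (
  let v139 := mul v96 v135; ok v139 && (
  let v140 := scale ⟨2199023255552, 0, 0, 0⟩ v139; ok v140 && (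
  let v141 := add v138 v140; ok v141 && (
  let v142 := scale ⟨4398046511104, 0, 0, 0⟩ v98; ok v142 && (
  let v143 := sub v141 v142; ok v143 && (
  let v144 := inv v136; ok v144 && (
  let v145 := mul v143 v144; ok v145 && (
  let v146 := add v145 v136; ok v146 && (
  let v147 := mul v96 v109; ok v147 && (
  let v148 := scale ⟨549755813888, 0, 0, 0⟩ v147; ok v148 && (
  let v149 := mul v148 v146; ok v149 && (
  let v150 := sub v143 v149; ok v150 && (
  isPos 4 v143 && (
  isPos 4 v150 && (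
  let v151 := mul v5 v71; ok v151 && (
  let v152 := scale ⟨2199023255552, 0, 0, 0⟩ v151; ok v152 && (
  let v153 := scale ⟨183274307584, 0, 0, 0⟩ v152; ok v153 && (
  let v154 := sub v8 v153; ok v154 && (
  let v155 := mul v152 v154; ok v155 && (
  let v156 := sub v0 v155; ok v156 && (
  let v157 := mul v71 v156; ok v157 && (
  let v158 := inv v150; ok v158 && (
  let v159 := mul v157 v158; ok v159 && (
  let v160 := mul v5 v159; ok v160 && (
  let v161 := add v160 v8; ok v161 && (
  let v162 := inv v161; ok v162 && (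
  let v163 := mul v159 v162; ok v163 && (
  let v164 := mul v5 v163; ok v164 && (
  let v165 := mul v109 v164; ok v165 && (
  let v166 := scale ⟨549755813888, 0, 0, 0⟩ v165; ok v166 && (
  let v167 := sub v0 v166; ok v167 && (
  let v168 := sub v0 v165; ok v168 && (
  let v169 := inv v168; ok v169 && (
  let v170 := mul v167 v169; ok v170 && (
  let v171 := add v165 v0; ok v171 && (
  let v172 := mul v96 v171; ok v172 && (
  let v173 := mul v107 v170; ok v173 && (
  let v174 := mul v2 v163; ok v174 && (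
  let v175 := mul v173 v174; ok v175 && (
  let v176 := mul v165 v170; ok v176 && (
  isPos 4 v168 && (
  let v177 := mul v23 v24; ok v177 && (
  let v178 := add v19 v1; ok v178 && (
  let v179 := mul v22 v19; ok v179 && (
  let v180 := mul v179 v17; ok v180 && (
  let v181 := scale ⟨2199023255552, 0, 0, 0⟩ v180; ok v181 && (
  let v182 := add v47 v181; ok v182 && (
  let v183 := mul v178 v182; ok v183 && (
  let v184 := inv v183; ok v184 && (
  let v185 := mul v177 v184; ok v185 && (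
  let v186 := mul v1 v185; ok v186 && (
  isPos 4 v89 && (
  let v187 := mul v128 v116; ok v187 && (
  let v188 := scale ⟨1527119872, 0, 0, 0⟩ v187; ok v188 && (
  let v189 := sub v129 v188; ok v189 && (
  let v190 := mul v187 v189; ok v190 && (
  let v191 := sub v8 v190; ok v191 && (
  let v192 := mul v187 v191; ok v192 && (
  let v193 := sub v0 v192; ok v193 && (
  let v194 := add v101 v0; ok v194 && (
  let v195 := mul v101 v101; ok v195 && (
  let v196 := add v195 v0; ok v196 && (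
  let v197 := mul v101 v193; ok v197 && (
  let v198 := scale ⟨2199023255552, 0, 0, 0⟩ v197; ok v198 && (
  let v199 := add v196 v198; ok v199 && (
  let v200 := scale ⟨4398046511104, 0, 0, 0⟩ v103; ok v200 && (
  let v201 := sub v199 v200; ok v201 && (
  let v202 := inv v194; ok v202 && (
  let v203 := mul v201 v202; ok v203 && (
  let v204 := add v203 v194; ok v204 && (
  let v205 := mul v101 v186; ok v205 && (
  let v206 := scale ⟨549755813888, 0, 0, 0⟩ v205; ok v206 && (
  let v207 := mul v206 v204; ok v207 && (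
  let v208 := sub v201 v207; ok v208 && (
  isPos 4 v201 && (
  isPos 4 v208 && (
  let v209 := mul v5 v93; ok v209 && (
  let v210 := scale ⟨2199023255552, 0, 0, 0⟩ v209; ok v210 && (
  let v211 := scale ⟨183274307584, 0, 0, 0⟩ v210; ok v211 && (
  let v212 := sub v8 v211; ok v212 && (
  let v213 := mul v210 v212; ok v213 && (
  let v214 := sub v0 v213; ok v214 && (
  let v215 := mul v93 v214; ok v215 && (
  let v216 := inv v208; ok v216 && (
  let v217 := mul v215 v216; ok v217 && (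
  let v218 := mul v5 v217; ok v218 && (
  let v219 := add v218 v8; ok v219 && (
  let v220 := inv v219; ok v220 && (
  let v221 := mul v217 v220; ok v221 && (
  let v222 := mul v5 v221; ok v222 && (
  let v223 := mul v186 v222; ok v223 && (
  let v224 := mul v2 v221; ok v224 && (
  let v225 := add v11 v0; ok v225 && (
  let v226 := inv v225; ok v226 && (
  let v227 := mul v11 v226; ok v227 && (
  let v228 := scale ⟨2199023255552, 0, 0, 0⟩ v227; ok v228 && (
  let v229 := sub v0 v228; ok v229 && (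
  let v230 := sub v0 v11; ok v230 && (
  let v231 := mul x3 v226; ok v231 && (
  let v232 := mul v231 v229; ok v232 && (
  let v233 := add v24 v232; ok v233 && (
  let v234 := scale ⟨224412041216, 0, 0, 0⟩ v15; ok v234 && (
  let v235 := inv v38; ok v235 && (
  let v236 := mul v234 v235; ok v236 && (
  let v237 := scale ⟨4398046511104, 0, 0, 0⟩ v0; ok v237 && (
  let v238 := mul v3 v21; ok v238 && (
  let v239 := add v237 v238; ok v239 && (
  let v240 := scale ⟨549755813888, 0, 0, 0⟩ v239; ok v240 && (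
  let v241 := inv v240; ok v241 && (
  let v242 := mul v3 v241; ok v242 && (
  let v243 := mul v0 v241; ok v243 && (
  let v244 := mul v243 v24; ok v244 && (
  let v245 := mul v244 v236; ok v245 && (
  let v246 := mul v242 v24; ok v246 && (
  let v247 := mul v246 v236; ok v247 && (
  let v248 := sub v0 v247; ok v248 && (
  let v249 := inv v248; ok v249 && (
  let v250 := mul v172 v247; ok v250 && (
  let v251 := sub v0 v250; ok v251 && (
  let v252 := inv v251; ok v252 && (
  let v253 := scale ⟨2199023255552, 0, 0, 0⟩ v6; ok v253 && (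
  let v254 := add v253 v0; ok v254 && (
  let v255 := add v6 v0; ok v255 && (
  let v256 := mul x2 v163; ok v256 && (
  let v257 := scale ⟨2199023255552, 0, 0, 0⟩ v256; ok v257 && (
  let v258 := inv x0; ok v258 && (
  let v259 := scale ⟨549755813888, 0, 0, 0⟩ v258; ok v259 && (
  let v260 := add v257 v259; ok v260 && (
  let v261 := scale ⟨549755813888, 0, 0, 0⟩ v260; ok v261 && (
  let v262 := mul v11 v21; ok v262 && (
  let v263 := sub v0 v111; ok v263 && (
  let v264 := mul v11 v22; ok v264 && (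
  let v265 := scale ⟨2199023255552, 0, 0, 0⟩ v264; ok v265 && (
  let v266 := sub v263 v265; ok v266 && (
  let v267 := mul v262 v262; ok v267 && (
  let v268 := add v266 v267; ok v268 && (
  let v269 := add v268 v0; ok v269 && (
  let v270 := scale ⟨549755813888, 0, 0, 0⟩ v269; ok v270 && (
  let v271 := scale ⟨549755813888, 0, 0, 0⟩ v25; ok v271 && (
  let v272 := sub v15 v271; ok v272 && (
  let v273 := mul v112 v263; ok v273 && (
  let v274 := mul v273 v14; ok v274 && (
  let v275 := scale ⟨137438953472, 0, 0, 0⟩ v274; ok v275 && (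
  let v276 := add v272 v275; ok v276 && (
  let v277 := mul v270 v276; ok v277 && (
  let v278 := add v172 v0; ok v278 && (
  let v279 := mul v278 v249; ok v279 && (
  let v280 := mul v172 v252; ok v280 && (
  let v281 := add v279 v280; ok v281 && (
  let v282 := mul v247 v281; ok v282 && (
  let v283 := add v176 v282; ok v283 && (
  let v284 := mul v283 v6; ok v284 && (
  let v285 := mul v278 v247; ok v285 && (
  let v286 := mul v285 v249; ok v286 && (
  let v287 := add v176 v286; ok v287 && (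
  let v288 := mul v287 v6; ok v288 && (
  let v289 := scale ⟨223338299392, 0, 0, 0⟩ v288; ok v289 && (
  let v290 := add v8 v289; ok v290 && (
  let v291 := mul v288 v290; ok v291 && (
  let v292 := add v0 v291; ok v292 && (
  let v293 := scale ⟨893353197568, 0, 0, 0⟩ v284; ok v293 && (
  let v294 := add v0 v293; ok v294 && (
  let v295 := mul v284 v294; ok v295 && (
  let v296 := add v0 v295; ok v296 && (
  let v297 := mul v228 v231; ok v297 && (
  let v298 := mul v297 v254; ok v298 && (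
  let v299 := mul v298 v296; ok v299 && (
  let v300 := mul v277 v292; ok v300 && (
  let v301 := add v52 v8; ok v301 && (
  let v302 := mul v299 v301; ok v302 && (
  let v303 := add v300 v302; ok v303 && (
  let v304 := add v52 v0; ok v304 && (
  let v305 := mul v299 v304; ok v305 && (
  let v306 := mul v255 v304; ok v306 && (
  let v307 := mul v306 v231; ok v307 && (
  let v308 := mul v307 v230; ok v308 && (
  let v309 := mul v303 v175; ok v309 && (
  let v310 := mul v308 v261; ok v310 && (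
  let v311 := add v309 v310; ok v311 && (
  let v312 := mul v2 v233; ok v312 && (
  let v313 := inv v52; ok v313 && (
  let v314 := mul v312 v313; ok v314 && (
  let v315 := scale ⟨549755813888, 0, 0, 0⟩ v314; ok v315 && (
  let v316 := mul v23 v315; ok v316 && (
  let v317 := add v316 v311; ok v317 && (
  let v318 := mul v1 v317; ok v318 && (
  let v319 := mul v0 v318; ok v319 && (
  let v320 := mul v303 v278; ok v320 && (
  let v321 := mul v320 v249; ok v321 && (
  let v322 := mul v305 v172; ok v322 && (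
  let v323 := mul v322 v252; ok v323 && (
  let v324 := add v321 v323; ok v324 && (
  let v325 := mul v23 v319; ok v325 && (
  let v326 := mul v245 v324; ok v326 && (
  let v327 := add v325 v326; ok v327 && (
  let v328 := mul v112 v327; ok v328 && (
  let v329 := mul v328 v313; ok v329 && (
  let v330 := sub v0 v329; ok v330 && (
  let v331 := inv v330; ok v331 && (
  let v332 := mul v327 v331; ok v332 && (
  let v333 := mul v1 v332; ok v333 && (
  let v334 := mul v112 v332; ok v334 && (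
  let v335 := mul v334 v313; ok v335 && (
  let v336 := sub v0 v335; ok v336 && (
  let v337 := mul v49 v336; ok v337 && (
  let v338 := sub v337 v333; ok v338 && (
  let v339 := inv v338; ok v339 && (
  let v340 := mul v333 v339; ok v340 && (
  let v341 := sub v52 v334; ok v341 && (
  let v342 := inv v341; ok v342 && (
  let v343 := mul v340 v222; ok v343 && (
  let v344 := scale ⟨549755813888, 0, 0, 0⟩ v343; ok v344 && (
  let v345 := sub v0 v344; ok v345 && (
  let v346 := sub v0 v343; ok v346 && (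
  let v347 := inv v346; ok v347 && (
  let v348 := mul v345 v347; ok v348 && (
  let v349 := mul v2 v342; ok v349 && (
  let v350 := mul v224 v339; ok v350 && (
  let v351 := mul v350 v348; ok v351 && (
  let v352 := add v349 v351; ok v352 && (
  let v353 := mul v7 v332; ok v353 && (
  let v354 := mul v342 v353; ok v354 && (
  let v355 := mul v222 v339; ok v355 && (
  let v356 := mul v355 v348; ok v356 && (
  let v357 := mul v356 v333; ok v357 && (
  let v358 := add v354 v357; ok v358 && (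
  let v359 := scale ⟨223338299392, 0, 0, 0⟩ v358; ok v359 && (
  let v360 := add v8 v359; ok v360 && (
  let v361 := mul v358 v360; ok v361 && (
  let v362 := add v0 v361; ok v362 && (
  let v363 := mul v352 v362; ok v363 && (
  let v364 := mul v363 v331; ok v364 && (
  let v365 := mul v364 v324; ok v365 && (
  let v366 := mul v246 v23; ok v366 && (
  let v367 := cst ⟨5497558138880, 0, 0, 0⟩; ok v367 && (
  let v368 := inv v367; ok v368 && (
  let v369 := mul v53 v368; ok v369 && (
  let v370 := mul v225 v24; ok v370 && (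
  let v371 := mul v370 v369; ok v371 && (
  let v372 := mul v178 v106; ok v372 && (
  let v373 := mul v22 v372; ok v373 && (
  let v374 := scale ⟨549755813888, 0, 0, 0⟩ v223; ok v374 && (
  let v375 := sub v0 v374; ok v375 && (
  let v376 := sub v0 v223; ok v376 && (
  let v377 := inv v376; ok v377 && (
  let v378 := mul v375 v377; ok v378 && (
  let v379 := mul v378 v186; ok v379 && (
  let v380 := mul v112 v122; ok v380 && (
  let v381 := scale ⟨733097230336, 0, 0, 0⟩ v380; ok v381 && (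
  let v382 := sub v0 v381; ok v382 && (
  let v383 := mul v122 v382; ok v383 && (
  let v384 := mul v89 v89; ok v384 && (
  let v385 := mul v12 v384; ok v385 && (
  let v386 := add v383 v385; ok v386 && (
  let v387 := mul v379 v224; ok v387 && (
  let v388 := add v386 v0; ok v388 && (
  let v389 := mul v387 v388; ok v389 && (
  let v390 := sub v386 v389; ok v390 && (
  let v391 := scale ⟨366548615168, 0, 0, 0⟩ v45; ok v391 && (
  let v392 := sub v0 v391; ok v392 && (
  let v393 := mul v26 v392; ok v393 && (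
  let v394 := add v390 v393; ok v394 && (
  let v395 := mul v372 v394; ok v395 && (
  let v396 := mul v373 v373; ok v396 && (
  let v397 := add v0 v396; ok v397 && (
  let v398 := inv v397; ok v398 && (
  let v399 := mul v395 v398; ok v399 && (
  let v400 := sub v0 v340; ok v400 && (
  let v401 := mul v400 v399; ok v401 && (
  let v402 := sub v0 v387; ok v402 && (
  isPos 4 v402 && (
  isPos 4 v399 && (
  isPos 4 v400 && (
  let v403 := mul v364 v240; ok v403 && (
  let v404 := mul v403 v317; ok v404 && (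
  let v405 := inv v24; ok v405 && (
  let v406 := mul v404 v405; ok v406 && (
  let v407 := mul v4 v401; ok v407 && (
  let v408 := mul v1 v407; ok v408 && (
  let v409 := scale ⟨549755813888, 0, 0, 0⟩ v408; ok v409 && (
  let v410 := sub v0 v409; ok v410 && (
  let v411 := mul v407 v410; ok v411 && (
  let v412 := neg v411; ok v412 && (
  let v413 := mul v2 x3; ok v413 && (
  let v414 := mul v413 v225; ok v414 && (
  let v415 := mul v414 v15; ok v415 && (
  let v416 := mul v0 v415; ok v416 && (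
  let v417 := add v412 v416; ok v417 && (
  let v418 := mul v412 v416; ok v418 && (
  let v419 := mul v1 v418; ok v419 && (
  let v420 := add v417 v419; ok v420 && (
  let v421 := mul v12 v42; ok v421 && (
  let v422 := scale ⟨412316860416, 0, 0, 0⟩ v43; ok v422 && (
  let v423 := sub v8 v422; ok v423 && (
  let v424 := mul v421 v423; ok v424 && (
  let v425 := mul v0 v424; ok v425 && (
  let v426 := neg v425; ok v426 && (
  let v427 := add v420 v426; ok v427 && (
  let v428 := mul v420 v426; ok v428 && (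
  let v429 := mul v1 v428; ok v429 && (
  let v430 := add v427 v429; ok v430 && (
  let v431 := mul v2 v332; ok v431 && (
  let v432 := mul v431 v405; ok v432 && (
  let v433 := mul v0 v432; ok v433 && (
  let v434 := add v430 v433; ok v434 && (
  let v435 := mul v430 v433; ok v435 && (
  let v436 := mul v1 v435; ok v436 && (
  let v437 := add v434 v436; ok v437 && (
  let v438 := mul v0 v371; ok v438 && (
  let v439 := sub v437 v438; ok v439 && (
  let v440 := mul v1 v371; ok v440 && (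
  let v441 := add v0 v440; ok v441 && (
  let v442 := inv v441; ok v442 && (
  let v443 := mul v439 v442; ok v443 && (
  let v444 := mul v2 v9; ok v444 && (
  let v445 := mul v444 v332; ok v445 && (
  let v446 := mul v445 v342; ok v446 && (
  let v447 := mul v0 v446; ok v447 && (
  let v448 := add v443 v447; ok v448 && (
  let v449 := mul v443 v447; ok v449 && (
  let v450 := mul v1 v449; ok v450 && (
  let v451 := add v448 v450; ok v451 && (
  let v452 := mul v1 v451; ok v452 && (
  let v453 := add v0 v452; ok v453 && (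
  let v454 := mul v365 v247; ok v454 && (
  let v455 := mul v1 v366; ok v455 && (
  let v456 := mul v406 v455; ok v456 && (
  let v457 := add v454 v456; ok v457 && (
  let v458 := mul v0 v457; ok v458 && (
  let v459 := add v365 v406; ok v459 && (
  let v460 := mul v0 v459; ok v460 && (
  let v461 := mul v458 v453; ok v461 && (
  let v462 := add v451 v461; ok v462 && (
  let v463 := add v462 v460; ok v463 && (
  let v464 := neg v463; ok v464 && (
  let v465 := scale ⟨1073741824, 0, 0, 0⟩ v0; ok v465 && (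
  let v466 := sub v464 v465; ok v466 && (
  let v467 := sub v20 v0; ok v467 && (
  let v468 := add v467 v56; ok v468 && (
  let v469 := scale ⟨2199023255552, 0, 0, 0⟩ v369; ok v469 && (
  let v470 := sub v468 v469; ok v470 && (
  let v471 := mul v225 v470; ok v471 && (
  let v472 := mul v467 v469; ok v472 && (
  let v473 := add v472 v0; ok v473 && (
  let v474 := inv v473; ok v474 && (
  let v475 := mul v471 v474; ok v475 && (
  let v476 := mul v243 v324; ok v476 && (
  let v477 := scale ⟨549755813888, 0, 0, 0⟩ v236; ok v477 && (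
  let v478 := add v17 v477; ok v478 && (
  let v479 := mul v476 v478; ok v479 && (
  let v480 := scale ⟨2199023255552, 0, 0, 0⟩ v479; ok v480 && (
  let v481 := add v319 v480; ok v481 && (
  let v482 := scale ⟨2199023255552, 0, 0, 0⟩ v481; ok v482 && (
  let v483 := mul v482 v331; ok v483 && (
  let v484 := mul v9 v332; ok v484 && (
  let v485 := sub v24 v484; ok v485 && (
  let v486 := inv v485; ok v486 && (
  let v487 := mul v483 v486; ok v487 && (
  let v488 := sub v475 v487; ok v488 && (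
  let v489 := mul v238 v238; ok v489 && (
  let v490 := cst ⟨14293651161088, 0, 0, 0⟩; ok v490 && (
  let v491 := cst ⟨10995116277760, 0, 0, 0⟩; ok v491 && (
  let v492 := inv v491; ok v492 && (
  let v493 := mul v490 v492; ok v493 && (
  let v494 := mul v489 v493; ok v494 && (
  let v495 := mul v0 v0; ok v495 && (
  let v496 := scale ⟨27487790694400, 0, 0, 0⟩ v495; ok v496 && (
  let v497 := add v494 v496; ok v497 && (
  let v498 := mul v371 v442; ok v498 && (
  let v499 := sub v40 v1; ok v499 && (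
  let v500 := sub v499 v39; ok v500 && (
  let v501 := mul v3 v2; ok v501 && (
  let v502 := mul v501 v0; ok v502 && (
  let v503 := mul v24 v324; ok v503 && (
  let v504 := mul v503 v241; ok v504 && (
  let v505 := add v311 v504; ok v505 && (
  let v506 := add v484 v56; ok v506 && (
  let v507 := mul v3 v506; ok v507 && (
  let v508 := mul v497 v498; ok v508 && (
  let v509 := mul v331 v507; ok v509 && (
  let v510 := mul v502 v505; ok v510 && (
  let v511 := mul v509 v510; ok v511 && (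
  let v512 := sub v508 v511; ok v512 && (
  let v513 := scale ⟨549755813888, 0, 0, 0⟩ v484; ok v513 && (
  let v514 := add v0 v513; ok v514 && (
  let v515 := mul v331 v514; ok v515 && (
  let v516 := mul v1 v23; ok v516 && (
  let v517 := mul v516 v233; ok v517 && (
  let v518 := mul v24 v52; ok v518 && (
  let v519 := inv v518; ok v519 && (
  let v520 := mul v517 v519; ok v520 && (
  let v521 := mul v515 v520; ok v521 && (
  let v522 := sub v500 v521; ok v522 && (
  let v523 := mul v236 v512; ok v523 && (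
  let v524 := sub v0 v236; ok v524 && (
  let v525 := mul v12 v522; ok v525 && (
  let v526 := mul v524 v525; ok v526 && (
  let v527 := mul v497 v526; ok v527 && (
  let v528 := add v523 v527; ok v528 && (
  isPos 4 v248 && (
  isPos 4 v251 && (
  let v529 := scale ⟨2199023255552, 0, 0, 0⟩ v328; ok v529 && (
  let v530 := sub v52 v529; ok v530 && (
  isPos 4 v530 && (
  isPos 4 v338 && (
  let v531 := sub v8 v223; ok v531 && (
  isPos 4 v531 && (
  let v532 := scale ⟨687194767360, 0, 0, 0⟩ v0; ok v532 && (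
  let v533 := sub v532 v288; ok v533 && (
  isPos 4 v533 && (
  let v534 := scale ⟨377957122048, 0, 0, 0⟩ v0; ok v534 && (
  let v535 := sub v534 v284; ok v535 && (
  isPos 4 v535 && (
  isPos 4 v485 && (
  isPos 4 v346 && (
  let v536 := sub v532 v358; ok v536 && (
  isPos 4 v536 && (
  isPos 4 v488 && (
  isPos 4 v466 && (
  isPos 4 v528 && (
  isPos 4 v522 && (
  true))))))))))))))))))))))))))))))))))))))))))))))))))))))))))))))))))))))))))))))))))))))))))))))))))))))))))))))))))))))))))))))))))))))))))))))))))))))))))))))))))))))))))))))))))))))))))))))))))))))))))))))))))))))))))))))))))))))))))))))))))))))))))))))))))))))))))))))))))))))))))))))))))))))))))))))))))))))))))))))))))))))))))))))))))))))))))))))))))))))))))))))))))))))))))))))))))))))))))))))))))))))))))))))))))))))))))))))))))))))))))))))))))))))))))))))))))))))))))))))))))))))))))))))))))))))))))))))))))))))))))))))))))))))))))))))))))))))))))))))))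
  | _ => false

set_option maxRecDepth 1000000 in
theorem chk2_eq (O : Ops) (m : List O.α)
    (h : chk2 O.cst O.add O.sub O.mul O.scale O.neg O.inv O.exp O.log O.ok O.isPos O.isLt m = true) :
    runG O 4 prog2 m = true := by
  match m, h with
  | [x0, x1, x2, x3], h => exact h

def chkB2 : List opsE.α → Bool :=
  chk2 opsE.cst opsE.add opsE.sub opsE.mul opsE.scale opsE.neg opsE.inv opsE.exp opsE.log opsE.ok opsE.isPos opsE.isLt

theorem chkB2_eq (m : List opsE.α) (h : chkB2 m = true) : runG opsE 4 prog2 m = true :=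
  chk2_eq opsE m h

def prog3 : List Op := [
  .const ⟨1099511627776, 0, 0, 0⟩,
  .mul 1 3,
  .mul 3 4,
  .mul 3 4,
  .mul 5 5,
  .mul 3 0,
  .mul 8 8,
  .mul 5 1,
  .const ⟨549755813888, 0, 0, 0⟩,
  .mul 7 6,
  .mul 0 13,
  .scale ⟨549755813888, 0, 0, 0⟩ 0,
  .mul 9 9,
  .mul 1 1,
  .sub 13 0,
  .inv 0,
  .mul 4 0,
  .scale ⟨2199023255552, 0, 0, 0⟩ 0,
  .scale ⟨2199023255552, 0, 0, 0⟩ 2,
  .sub 0 18,
  .add 0 2,
  .mul 24 5,
  .mul 19 0,
  .sub 22 0,
  .add 23 1,
  .mul 23 12,
  .mul 4 4,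
  .scale ⟨10774999203840, 0, 0, 0⟩ 15,
  .scale ⟨45768245248, 0, 0, 0⟩ 0,
  .const ⟨183207198720, 0, 0, 0⟩,
  .add 1 0,
  .mul 3 0,
  .add 23 0,
  .mul 5 0,
  .add 33 0,
  .mul 7 0,
  .scale ⟨549755813888, 0, 0, 0⟩ 0,
  .add 36 0,
  .mul 3 0,
  .mul 21 16,
  .scale ⟨2199023255552, 0, 0, 0⟩ 20,
  .add 1 0,
  .add 0 40,
  .mul 17 0,
  .add 0 43,
  .mul 27 27,
  .scale ⟨2199023255552, 0, 0, 0⟩ 0,
  .add 0 46,
  .mul 28 5,
  .sub 0 48,
  .log 5,
  .scale ⟨549755813888, 0, 0, 0⟩ 0,
  .exp 0,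
  .const ⟨3298534883328, 0, 0, 0⟩,
  .inv 0,
  .mul 54 0,
  .const ⟨2199023255552, 0, 0, 0⟩,
  .add 13 0,
  .inv 0,
  .mul 15 0,
  .mul 0 0,
  .sub 60 1,
  .mul 1 6,
  .add 62 0,
  .mul 2 0,
  .mul 4 4,
  .scale ⟨219915747328, 0, 0, 0⟩ 0,
  .mul 24 2,
  .scale ⟨549755813888, 0, 0, 0⟩ 0,
  .mul 26 2,
  .scale ⟨549755813888, 0, 0, 0⟩ 0,
  .add 2 0,
  .mul 52 22,
  .scale ⟨4398046511104, 0, 0, 0⟩ 0,
  .mul 54 48,
  .mul 0 25,
  .scale ⟨4398046511104, 0, 0, 0⟩ 0,
  .add 0 20,
  .inv 0,
  .mul 2 0,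
  .mul 0 0,
  .sub 80 1,
  .mul 1 26,
  .add 82 0,
  .mul 2 0,
  .mul 4 4,
  .scale ⟨219915747328, 0, 0, 0⟩ 0,
  .mul 13 2,
  .scale ⟨549755813888, 0, 0, 0⟩ 0,
  .sub 0 17,
  .mul 16 3,
  .scale ⟨549755813888, 0, 0, 0⟩ 0,
  .add 0 21,
  .add 3 0,
  .mul 88 25,
  .neg 0,
  .exp 0,
  .mul 91 26,
  .mul 1 0,
  .mul 93 9,
  .neg 0,
  .exp 0,
  .mul 96 9,
  .mul 1 0,
  .mul 81 86,
  .add 85 0,
  .inv 0,
  .mul 82 0,
  .mul 84 106,
  .mul 0 1,
  .sub 109 97,
  .mul 84 0,
  .mul 102 102,
  .sub 112 86,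
  .mul 3 0,
  .mul 89 65,
  .inv 71,
  .mul 1 0,
  .add 98 0,
  .mul 74 0,
  .mul 0 0,
  .inv 0,
  .mul 7 0,
  .add 103 97,
  .mul 123 0,
  .inv 0,
  .mul 122 0,
  .mul 0 0,
  .mul 0 13,
  .const ⟨45812285440, 0, 0, 0⟩,
  .scale ⟨1527119872, 0, 0, 0⟩ 1,
  .sub 1 0,
  .mul 3 0,
  .sub 124 0,
  .mul 5 0,
  .sub 134 0,
  .add 39 135,
  .mul 40 40,
  .add 0 137,
  .mul 42 3,
  .scale ⟨2199023255552, 0, 0, 0⟩ 0,
  .add 2 0,
  .scale ⟨4398046511104, 0, 0, 0⟩ 43,
  .sub 1 0,
  .inv 7,
  .mul 1 0,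
  .add 0 9,
  .mul 50 37,
  .scale ⟨549755813888, 0, 0, 0⟩ 0,
  .mul 0 2,
  .sub 6 0,
  .pos 7,
  .pos 0,
  .mul 145 79,
  .scale ⟨2199023255552, 0, 0, 0⟩ 0,
  .scale ⟨183274307584, 0, 0, 0⟩ 0,
  .sub 145 0,
  .mul 2 0,
  .sub 155 0,
  .mul 85 0,
  .inv 7,
  .mul 1 0,
  .mul 154 0,
  .add 0 152,
  .inv 0,
  .mul 3 0,
  .mul 158 0,
  .mul 55 0,
  .scale ⟨549755813888, 0, 0, 0⟩ 0,
  .sub 166 0,
  .sub 167 2,
  .inv 0,
  .mul 2 0,
  .add 5 170,
  .mul 75 0,
  .mul 65 2,
  .mul 171 10,
  .mul 1 0,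
  .mul 10 5,
  .pos 8,
  .mul 153 152,
  .add 158 176,
  .mul 156 159,
  .mul 0 162,
  .scale ⟨2199023255552, 0, 0, 0⟩ 0,
  .add 134 0,
  .mul 4 0,
  .inv 0,
  .mul 7 0,
  .mul 184 0,
  .pos 97,
  .mul 58 70,
  .scale ⟨1527119872, 0, 0, 0⟩ 0,
  .sub 59 0,
  .mul 2 0,
  .sub 182 0,
  .mul 4 0,
  .sub 192 0,
  .add 92 193,
  .mul 93 93,
  .add 0 195,
  .mul 95 3,
  .scale ⟨2199023255552, 0, 0, 0⟩ 0,
  .add 2 0,
  .scale ⟨4398046511104, 0, 0, 0⟩ 96,
  .sub 1 0,
  .inv 7,
  .mul 1 0,
  .add 0 9,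
  .mul 103 18,
  .scale ⟨549755813888, 0, 0, 0⟩ 0,
  .mul 0 2,
  .sub 6 0,
  .pos 7,
  .pos 0,
  .mul 203 115,
  .scale ⟨2199023255552, 0, 0, 0⟩ 0,
  .scale ⟨183274307584, 0, 0, 0⟩ 0,
  .sub 203 0,
  .mul 2 0,
  .sub 213 0,
  .mul 121 0,
  .inv 7,
  .mul 1 0,
  .mul 212 0,
  .add 0 210,
  .inv 0,
  .mul 3 0,
  .mul 216 0,
  .mul 36 0,
  .mul 221 2,
  .add 213 224,
  .inv 0,
  .mul 215 0,
  .scale ⟨2199023255552, 0, 0, 0⟩ 0,
  .sub 228 0,
  .sub 229 218,
  .mul 234 4,
  .mul 0 2,
  .add 208 0,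
  .scale ⟨224412041216, 0, 0, 0⟩ 218,
  .inv 196,
  .mul 1 0,
  .scale ⟨4398046511104, 0, 0, 0⟩ 236,
  .mul 234 216,
  .add 1 0,
  .scale ⟨549755813888, 0, 0, 0⟩ 0,
  .inv 0,
  .mul 238 0,
  .mul 242 1,
  .mul 0 219,
  .mul 0 8,
  .mul 3 221,
  .mul 0 10,
  .sub 247 0,
  .inv 0,
  .mul 77 2,
  .sub 250 0,
  .inv 0,
  .scale ⟨2199023255552, 0, 0, 0⟩ 246,
  .add 0 253,
  .add 248 254,
  .mul 258 92,
  .scale ⟨4398046511104, 0, 0, 0⟩ 0,
  .inv 258,
  .scale ⟨274877906944, 0, 0, 0⟩ 0,
  .add 2 0,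
  .scale ⟨549755813888, 0, 0, 0⟩ 0,
  .mul 250 240,
  .sub 262 151,
  .mul 252 241,
  .scale ⟨2199023255552, 0, 0, 0⟩ 0,
  .sub 2 0,
  .mul 4 4,
  .add 1 0,
  .add 0 268,
  .scale ⟨549755813888, 0, 0, 0⟩ 0,
  .scale ⟨549755813888, 0, 0, 0⟩ 245,
  .sub 256 0,
  .mul 160 9,
  .mul 0 259,
  .scale ⟨137438953472, 0, 0, 0⟩ 0,
  .add 3 0,
  .mul 6 0,
  .add 105 277,
  .mul 0 29,
  .mul 107 27,
  .add 1 0,
  .mul 34 0,
  .add 106 0,
  .mul 0 277,
  .mul 6 37,
  .mul 0 36,
  .add 110 0,
  .mul 0 281,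
  .scale ⟨223338299392, 0, 0, 0⟩ 0,
  .add 281 0,
  .mul 2 0,
  .add 291 0,
  .scale ⟨893353197568, 0, 0, 0⟩ 8,
  .add 293 0,
  .mul 10 0,
  .add 295 0,
  .mul 68 65,
  .mul 0 43,
  .mul 0 2,
  .mul 22 7,
  .add 248 292,
  .mul 2 0,
  .add 2 0,
  .add 251 303,
  .mul 5 0,
  .mul 50 1,
  .mul 0 75,
  .mul 0 77,
  .mul 5 133,
  .mul 1 48,
  .add 1 0,
  .mul 309 78,
  .inv 260,
  .mul 1 0,
  .scale ⟨549755813888, 0, 0, 0⟩ 0,
  .mul 292 0,
  .add 0 5,
  .mul 316 0,
  .mul 318 0,
  .mul 16 41,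
  .mul 0 71,
  .mul 16 149,
  .mul 0 70,
  .add 2 0,
  .mul 301 5,
  .mul 80 1,
  .add 1 0,
  .mul 215 0,
  .mul 0 15,
  .sub 329 0,
  .inv 0,
  .mul 4 0,
  .mul 331 0,
  .mul 221 1,
  .mul 0 21,
  .sub 335 0,
  .mul 287 0,
  .sub 0 4,
  .inv 0,
  .mul 6 0,
  .sub 288 6,
  .inv 0,
  .mul 2 120,
  .scale ⟨549755813888, 0, 0, 0⟩ 0,
  .sub 344 0,
  .sub 345 2,
  .inv 0,
  .mul 2 0,
  .mul 346 6,
  .mul 125 10,
  .mul 0 2,
  .add 2 0,
  .mul 345 20,
  .mul 11 0,
  .mul 132 15,
  .mul 0 7,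
  .mul 0 23,
  .add 3 0,
  .scale ⟨223338299392, 0, 0, 0⟩ 0,
  .add 351 0,
  .mul 2 0,
  .add 361 0,
  .mul 10 0,
  .mul 0 32,
  .mul 0 40,
  .mul 119 342,
  .const ⟨5497558138880, 0, 0, 0⟩,
  .inv 0,
  .mul 315 0,
  .mul 144 345,
  .mul 0 1,
  .mul 193 265,
  .mul 350 0,
  .scale ⟨549755813888, 0, 0, 0⟩ 150,
  .sub 374 0,
  .sub 375 152,
  .inv 0,
  .mul 2 0,
  .mul 0 192,
  .mul 267 257,
  .scale ⟨733097230336, 0, 0, 0⟩ 0,
  .sub 381 0,
  .mul 260 0,
  .mul 294 294,
  .mul 372 0,
  .add 2 0,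
  .mul 7 162,
  .add 1 387,
  .mul 1 0,
  .sub 3 0,
  .scale ⟨366548615168, 0, 0, 0⟩ 345,
  .sub 391 0,
  .mul 366 0,
  .add 3 0,
  .mul 22 0,
  .mul 22 22,
  .add 396 0,
  .inv 0,
  .mul 3 0,
  .sub 399 59,
  .mul 0 1,
  .sub 401 14,
  .pos 0,
  .pos 3,
  .pos 2,
  .mul 38 162,
  .mul 0 86,
  .inv 380,
  .mul 1 0,
  .mul 402 5,
  .mul 406 0,
  .scale ⟨549755813888, 0, 0, 0⟩ 0,
  .sub 409 0,
  .mul 3 0,
  .neg 0,
  .mul 410 416,
  .mul 0 188,
  .mul 0 399,
  .mul 415 0,
  .add 4 0,
  .mul 5 1,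
  .mul 417 0,
  .add 2 0,
  .mul 408 378,
  .scale ⟨412316860416, 0, 0, 0⟩ 378,
  .sub 414 0,
  .mul 2 0,
  .mul 424 0,
  .neg 0,
  .add 6 0,
  .mul 7 1,
  .mul 427 0,
  .add 2 0,
  .mul 428 98,
  .mul 0 26,
  .mul 432 0,
  .add 3 0,
  .mul 4 1,
  .mul 434 0,
  .add 2 0,
  .mul 437 66,
  .sub 1 0,
  .mul 438 68,
  .add 440 0,
  .inv 0,
  .mul 3 0,
  .mul 441 434,
  .mul 0 112,
  .mul 0 103,
  .mul 446 0,
  .add 4 0,
  .mul 5 1,
  .mul 448 0,
  .add 2 0,
  .mul 450 0,
  .add 452 0,
  .mul 88 206,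
  .mul 453 88,
  .mul 49 0,
  .add 2 0,
  .mul 457 0,
  .add 93 52,
  .mul 459 0,
  .mul 2 7,
  .add 10 0,
  .add 0 2,
  .neg 0,
  .scale ⟨1073741824, 0, 0, 0⟩ 464,
  .sub 1 0,
  .sub 446 466,
  .add 0 411,
  .scale ⟨2199023255552, 0, 0, 0⟩ 99,
  .sub 1 0,
  .mul 245 0,
  .mul 4 2,
  .add 0 472,
  .inv 0,
  .mul 3 0,
  .mul 232 151,
  .scale ⟨549755813888, 0, 0, 0⟩ 240,
  .add 460 0,
  .mul 2 0,
  .scale ⟨2199023255552, 0, 0, 0⟩ 0,
  .add 161 0,
  .scale ⟨2199023255552, 0, 0, 0⟩ 0,
  .mul 0 151,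
  .mul 474 151,
  .sub 460 0,
  .inv 0,
  .mul 3 0,
  .sub 12 0,
  .mul 250 250,
  .const ⟨14293651161088, 0, 0, 0⟩,
  .const ⟨10995116277760, 0, 0, 0⟩,
  .inv 0,
  .mul 2 0,
  .mul 4 0,
  .mul 494 494,
  .scale ⟨27487790694400, 0, 0, 0⟩ 0,
  .add 2 0,
  .mul 126 55,
  .sub 458 497,
  .sub 0 460,
  .mul 497 498,
  .mul 0 501,
  .mul 478 178,
  .mul 0 262,
  .add 193 0,
  .add 21 449,
  .mul 503 0,
  .mul 10 9,
  .mul 177 1,
  .mul 7 4,
  .mul 1 0,
  .sub 3 0,
  .scale ⟨549755813888, 0, 0, 0⟩ 28,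
  .add 513 0,
  .mul 183 0,
  .mul 514 492,
  .mul 0 283,
  .mul 493 465,
  .inv 0,
  .mul 2 0,
  .mul 5 0,
  .sub 21 0,
  .mul 286 10,
  .sub 523 287,
  .mul 512 2,
  .mul 1 0,
  .mul 29 0,
  .add 4 0,
  .pos 280,
  .pos 277,
  .scale ⟨2199023255552, 0, 0, 0⟩ 200,
  .sub 477 0,
  .pos 0,
  .pos 192,
  .sub 522 307,
  .pos 0,
  .scale ⟨687194767360, 0, 0, 0⟩ 531,
  .sub 0 244,
  .pos 0,
  .scale ⟨377957122048, 0, 0, 0⟩ 533,
  .sub 0 250,
  .pos 0,
  .pos 50,
  .pos 189,
  .sub 3 177,
  .pos 0,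
  .pos 48,
  .pos 70,
  .pos 8,
  .pos 14]

def chk3 {α : Type} (cst : Z → α) (add sub mul : α → α → α) (scale : Z → α → α)
    (neg inv exp log : α → α) (ok : α → Bool) (isPos : Nat → α → Bool) (isLt : α → Nat → Bool) :
    List α → Bool
  | [x0, x1, x2, x3] =>
  let v0 := cst ⟨1099511627776, 0, 0, 0⟩; ok v0 && (
  let v1 := mul x0 x2; ok v1 && (
  let v2 := mul x1 x2; ok v2 && (
  let v3 := mul x0 x1; ok v3 && (
  let v4 := mul x1 x1; ok v4 && (
  let v5 := mul v1 v4; ok v5 && (
  let v6 := mul x2 x2; ok v6 && (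
  let v7 := mul v1 v5; ok v7 && (
  let v8 := cst ⟨549755813888, 0, 0, 0⟩; ok v8 && (
  let v9 := mul v1 v2; ok v9 && (
  let v10 := mul v9 x3; ok v10 && (
  let v11 := scale ⟨549755813888, 0, 0, 0⟩ v10; ok v11 && (
  let v12 := mul v2 v2; ok v12 && (
  let v13 := mul v11 v11; ok v13 && (
  let v14 := sub v0 v13; ok v14 && (
  let v15 := inv v14; ok v15 && (
  let v16 := mul v11 v15; ok v16 && (
  let v17 := scale ⟨2199023255552, 0, 0, 0⟩ v16; ok v17 && (
  let v18 := scale ⟨2199023255552, 0, 0, 0⟩ v15; ok v18 && (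
  let v19 := sub v18 v0; ok v19 && (
  let v20 := add v19 v17; ok v20 && (
  let v21 := mul x3 v15; ok v21 && (
  let v22 := mul v2 v21; ok v22 && (
  let v23 := sub v0 v22; ok v23 && (
  let v24 := add v0 v22; ok v24 && (
  let v25 := mul v1 v12; ok v25 && (
  let v26 := mul v21 v21; ok v26 && (
  let v27 := scale ⟨10774999203840, 0, 0, 0⟩ v11; ok v27 && (
  let v28 := scale ⟨45768245248, 0, 0, 0⟩ v27; ok v28 && (
  let v29 := cst ⟨183207198720, 0, 0, 0⟩; ok v29 && (
  let v30 := add v28 v29; ok v30 && (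
  let v31 := mul v27 v30; ok v31 && (
  let v32 := add v8 v31; ok v32 && (
  let v33 := mul v27 v32; ok v33 && (
  let v34 := add v0 v33; ok v34 && (
  let v35 := mul v27 v34; ok v35 && (
  let v36 := scale ⟨549755813888, 0, 0, 0⟩ v35; ok v36 && (
  let v37 := add v0 v36; ok v37 && (
  let v38 := mul v34 v37; ok v38 && (
  let v39 := mul v17 v22; ok v39 && (
  let v40 := scale ⟨2199023255552, 0, 0, 0⟩ v19; ok v40 && (
  let v41 := add v39 v40; ok v41 && (
  let v42 := add v41 v1; ok v42 && (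
  let v43 := mul v25 v42; ok v43 && (
  let v44 := add v43 v0; ok v44 && (
  let v45 := mul v17 v17; ok v45 && (
  let v46 := scale ⟨2199023255552, 0, 0, 0⟩ v45; ok v46 && (
  let v47 := add v46 v0; ok v47 && (
  let v48 := mul v19 v42; ok v48 && (
  let v49 := sub v48 v0; ok v49 && (
  let v50 := log v44; ok v50 && (
  let v51 := scale ⟨549755813888, 0, 0, 0⟩ v50; ok v51 && (
  let v52 := exp v51; ok v52 && (
  let v53 := cst ⟨3298534883328, 0, 0, 0⟩; ok v53 && (
  let v54 := inv v53; ok v54 && (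
  let v55 := mul v0 v54; ok v55 && (
  let v56 := cst ⟨2199023255552, 0, 0, 0⟩; ok v56 && (
  let v57 := add v43 v56; ok v57 && (
  let v58 := inv v57; ok v58 && (
  let v59 := mul v43 v58; ok v59 && (
  let v60 := mul v59 v59; ok v60 && (
  let v61 := sub v0 v59; ok v61 && (
  let v62 := mul v60 v55; ok v62 && (
  let v63 := add v0 v62; ok v63 && (
  let v64 := mul v61 v63; ok v64 && (
  let v65 := mul v60 v60; ok v65 && (
  let v66 := scale ⟨219915747328, 0, 0, 0⟩ v65; ok v66 && (
  let v67 := mul v42 v64; ok v67 && (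
  let v68 := scale ⟨549755813888, 0, 0, 0⟩ v67; ok v68 && (
  let v69 := mul v42 v66; ok v69 && (
  let v70 := scale ⟨549755813888, 0, 0, 0⟩ v69; ok v70 && (
  let v71 := add v68 v70; ok v71 && (
  let v72 := mul v19 v49; ok v72 && (
  let v73 := scale ⟨4398046511104, 0, 0, 0⟩ v72; ok v73 && (
  let v74 := mul v19 v25; ok v74 && (
  let v75 := mul v74 v49; ok v75 && (
  let v76 := scale ⟨4398046511104, 0, 0, 0⟩ v75; ok v76 && (
  let v77 := add v76 v56; ok v77 && (
  let v78 := inv v77; ok v78 && (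
  let v79 := mul v76 v78; ok v79 && (
  let v80 := mul v79 v79; ok v80 && (
  let v81 := sub v0 v79; ok v81 && (
  let v82 := mul v80 v55; ok v82 && (
  let v83 := add v0 v82; ok v83 && (
  let v84 := mul v81 v83; ok v84 && (
  let v85 := mul v80 v80; ok v85 && (
  let v86 := scale ⟨219915747328, 0, 0, 0⟩ v85; ok v86 && (
  let v87 := mul v73 v84; ok v87 && (
  let v88 := scale ⟨549755813888, 0, 0, 0⟩ v87; ok v88 && (
  let v89 := sub v88 v71; ok v89 && (
  let v90 := mul v73 v86; ok v90 && (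
  let v91 := scale ⟨549755813888, 0, 0, 0⟩ v90; ok v91 && (
  let v92 := add v91 v70; ok v92 && (
  let v93 := add v89 v92; ok v93 && (
  let v94 := mul v5 v68; ok v94 && (
  let v95 := neg v94; ok v95 && (
  let v96 := exp v95; ok v96 && (
  let v97 := mul v5 v70; ok v97 && (
  let v98 := mul v96 v97; ok v98 && (
  let v99 := mul v5 v89; ok v99 && (
  let v100 := neg v99; ok v100 && (
  let v101 := exp v100; ok v101 && (
  let v102 := mul v5 v92; ok v102 && (
  let v103 := mul v101 v102; ok v103 && (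
  let v104 := mul v22 v17; ok v104 && (
  let v105 := add v19 v104; ok v105 && (
  let v106 := inv v105; ok v106 && (
  let v107 := mul v24 v106; ok v107 && (
  let v108 := mul v23 v1; ok v108 && (
  let v109 := mul v108 v107; ok v109 && (
  let v110 := sub v0 v12; ok v110 && (
  let v111 := mul v26 v110; ok v111 && (
  let v112 := mul v9 v9; ok v112 && (
  let v113 := sub v0 v26; ok v113 && (
  let v114 := mul v110 v113; ok v114 && (
  let v115 := mul v25 v49; ok v115 && (
  let v116 := inv v44; ok v116 && (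
  let v117 := mul v115 v116; ok v117 && (
  let v118 := add v19 v117; ok v118 && (
  let v119 := mul v44 v118; ok v119 && (
  let v120 := mul v119 v119; ok v120 && (
  let v121 := inv v120; ok v121 && (
  let v122 := mul v114 v121; ok v122 && (
  let v123 := add v19 v25; ok v123 && (
  let v124 := mul v0 v123; ok v124 && (
  let v125 := inv v124; ok v125 && (
  let v126 := mul v3 v125; ok v126 && (
  let v127 := mul v126 v126; ok v127 && (
  let v128 := mul v127 v114; ok v128 && (
  let v129 := cst ⟨45812285440, 0, 0, 0⟩; ok v129 && (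
  let v130 := scale ⟨1527119872, 0, 0, 0⟩ v128; ok v130 && (
  let v131 := sub v129 v130; ok v131 && (
  let v132 := mul v128 v131; ok v132 && (
  let v133 := sub v8 v132; ok v133 && (
  let v134 := mul v128 v133; ok v134 && (
  let v135 := sub v0 v134; ok v135 && (
  let v136 := add v96 v0; ok v136 && (
  let v137 := mul v96 v96; ok v137 && (
  let v138 := add v137 v0; ok v138 && (
  let v139 := mul v96 v135; ok v139 && (
  let v140 := scale ⟨2199023255552, 0, 0, 0⟩ v139; ok v140 && (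
  let v141 := add v138 v140; ok v141 && (
  let v142 := scale ⟨4398046511104, 0, 0, 0⟩ v98; ok v142 && (
  let v143 := sub v141 v142; ok v143 && (
  let v144 := inv v136; ok v144 && (
  let v145 := mul v143 v144; ok v145 && (
  let v146 := add v145 v136; ok v146 && (
  let v147 := mul v96 v109; ok v147 && (
  let v148 := scale ⟨549755813888, 0, 0, 0⟩ v147; ok v148 && (
  let v149 := mul v148 v146; ok v149 && (
  let v150 := sub v143 v149; ok v150 && (
  isPos 4 v143 && (
  isPos 4 v150 && (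
  let v151 := mul v5 v71; ok v151 && (
  let v152 := scale ⟨2199023255552, 0, 0, 0⟩ v151; ok v152 && (
  let v153 := scale ⟨183274307584, 0, 0, 0⟩ v152; ok v153 && (
  let v154 := sub v8 v153; ok v154 && (
  let v155 := mul v152 v154; ok v155 && (
  let v156 := sub v0 v155; ok v156 && (
  let v157 := mul v71 v156; ok v157 && (
  let v158 := inv v150; ok v158 && (
  let v159 := mul v157 v158; ok v159 && (
  let v160 := mul v5 v159; ok v160 && (
  let v161 := add v160 v8; ok v161 && (
  let v162 := inv v161; ok v162 && (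
  let v163 := mul v159 v162; ok v163 && (
  let v164 := mul v5 v163; ok v164 && (
  let v165 := mul v109 v164; ok v165 && (
  let v166 := scale ⟨549755813888, 0, 0, 0⟩ v165; ok v166 && (
  let v167 := sub v0 v166; ok v167 && (
  let v168 := sub v0 v165; ok v168 && (
  let v169 := inv v168; ok v169 && (
  let v170 := mul v167 v169; ok v170 && (
  let v171 := add v165 v0; ok v171 && (
  let v172 := mul v96 v171; ok v172 && (
  let v173 := mul v107 v170; ok v173 && (
  let v174 := mul v2 v163; ok v174 && (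
  let v175 := mul v173 v174; ok v175 && (
  let v176 := mul v165 v170; ok v176 && (
  isPos 4 v168 && (
  let v177 := mul v23 v24; ok v177 && (
  let v178 := add v19 v1; ok v178 && (
  let v179 := mul v22 v19; ok v179 && (
  let v180 := mul v179 v17; ok v180 && (
  let v181 := scale ⟨2199023255552, 0, 0, 0⟩ v180; ok v181 && (
  let v182 := add v47 v181; ok v182 && (
  let v183 := mul v178 v182; ok v183 && (
  let v184 := inv v183; ok v184 && (
  let v185 := mul v177 v184; ok v185 && (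
  let v186 := mul v1 v185; ok v186 && (
  isPos 4 v89 && (
  let v187 := mul v128 v116; ok v187 && (
  let v188 := scale ⟨1527119872, 0, 0, 0⟩ v187; ok v188 && (
  let v189 := sub v129 v188; ok v189 && (
  let v190 := mul v187 v189; ok v190 && (
  let v191 := sub v8 v190; ok v191 && (
  let v192 := mul v187 v191; ok v192 && (
  let v193 := sub v0 v192; ok v193 && (
  let v194 := add v101 v0; ok v194 && (
  let v195 := mul v101 v101; ok v195 && (
  let v196 := add v195 v0; ok v196 && (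
  let v197 := mul v101 v193; ok v197 && (
  let v198 := scale ⟨2199023255552, 0, 0, 0⟩ v197; ok v198 && (
  let v199 := add v196 v198; ok v199 && (
  let v200 := scale ⟨4398046511104, 0, 0, 0⟩ v103; ok v200 && (
  let v201 := sub v199 v200; ok v201 && (
  let v202 := inv v194; ok v202 && (
  let v203 := mul v201 v202; ok v203 && (
  let v204 := add v203 v194; ok v204 && (
  let v205 := mul v101 v186; ok v205 && (
  let v206 := scale ⟨549755813888, 0, 0, 0⟩ v205; ok v206 && (
  let v207 := mul v206 v204; ok v207 && (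
  let v208 := sub v201 v207; ok v208 && (
  isPos 4 v201 && (
  isPos 4 v208 && (
  let v209 := mul v5 v93; ok v209 && (
  let v210 := scale ⟨2199023255552, 0, 0, 0⟩ v209; ok v210 && (
  let v211 := scale ⟨183274307584, 0, 0, 0⟩ v210; ok v211 && (
  let v212 := sub v8 v211; ok v212 && (
  let v213 := mul v210 v212; ok v213 && (
  let v214 := sub v0 v213; ok v214 && (
  let v215 := mul v93 v214; ok v215 && (
  let v216 := inv v208; ok v216 && (
  let v217 := mul v215 v216; ok v217 && (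
  let v218 := mul v5 v217; ok v218 && (
  let v219 := add v218 v8; ok v219 && (
  let v220 := inv v219; ok v220 && (
  let v221 := mul v217 v220; ok v221 && (
  let v222 := mul v5 v221; ok v222 && (
  let v223 := mul v186 v222; ok v223 && (
  let v224 := mul v2 v221; ok v224 && (
  let v225 := add v11 v0; ok v225 && (
  let v226 := inv v225; ok v226 && (
  let v227 := mul v11 v226; ok v227 && (
  let v228 := scale ⟨2199023255552, 0, 0, 0⟩ v227; ok v228 && (
  let v229 := sub v0 v228; ok v229 && (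
  let v230 := sub v0 v11; ok v230 && (
  let v231 := mul x3 v226; ok v231 && (
  let v232 := mul v231 v229; ok v232 && (
  let v233 := add v24 v232; ok v233 && (
  let v234 := scale ⟨224412041216, 0, 0, 0⟩ v15; ok v234 && (
  let v235 := inv v38; ok v235 && (
  let v236 := mul v234 v235; ok v236 && (
  let v237 := scale ⟨4398046511104, 0, 0, 0⟩ v0; ok v237 && (
  let v238 := mul v3 v21; ok v238 && (
  let v239 := add v237 v238; ok v239 && (
  let v240 := scale ⟨549755813888, 0, 0, 0⟩ v239; ok v240 && (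
  let v241 := inv v240; ok v241 && (
  let v242 := mul v3 v241; ok v242 && (
  let v243 := mul v0 v241; ok v243 && (
  let v244 := mul v243 v24; ok v244 && (
  let v245 := mul v244 v236; ok v245 && (
  let v246 := mul v242 v24; ok v246 && (
  let v247 := mul v246 v236; ok v247 && (
  let v248 := sub v0 v247; ok v248 && (
  let v249 := inv v248; ok v249 && (
  let v250 := mul v172 v247; ok v250 && (
  let v251 := sub v0 v250; ok v251 && (
  let v252 := inv v251; ok v252 && (
  let v253 := scale ⟨2199023255552, 0, 0, 0⟩ v6; ok v253 && (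
  let v254 := add v253 v0; ok v254 && (
  let v255 := add v6 v0; ok v255 && (
  let v256 := mul x2 v163; ok v256 && (
  let v257 := scale ⟨4398046511104, 0, 0, 0⟩ v256; ok v257 && (
  let v258 := inv x0; ok v258 && (
  let v259 := scale ⟨274877906944, 0, 0, 0⟩ v258; ok v259 && (
  let v260 := add v257 v259; ok v260 && (
  let v261 := scale ⟨549755813888, 0, 0, 0⟩ v260; ok v261 && (
  let v262 := mul v11 v21; ok v262 && (
  let v263 := sub v0 v111; ok v263 && (
  let v264 := mul v11 v22; ok v264 && (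
  let v265 := scale ⟨2199023255552, 0, 0, 0⟩ v264; ok v265 && (
  let v266 := sub v263 v265; ok v266 && (
  let v267 := mul v262 v262; ok v267 && (
  let v268 := add v266 v267; ok v268 && (
  let v269 := add v268 v0; ok v269 && (
  let v270 := scale ⟨549755813888, 0, 0, 0⟩ v269; ok v270 && (
  let v271 := scale ⟨549755813888, 0, 0, 0⟩ v25; ok v271 && (
  let v272 := sub v15 v271; ok v272 && (
  let v273 := mul v112 v263; ok v273 && (
  let v274 := mul v273 v14; ok v274 && (
  let v275 := scale ⟨137438953472, 0, 0, 0⟩ v274; ok v275 && (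
  let v276 := add v272 v275; ok v276 && (
  let v277 := mul v270 v276; ok v277 && (
  let v278 := add v172 v0; ok v278 && (
  let v279 := mul v278 v249; ok v279 && (
  let v280 := mul v172 v252; ok v280 && (
  let v281 := add v279 v280; ok v281 && (
  let v282 := mul v247 v281; ok v282 && (
  let v283 := add v176 v282; ok v283 && (
  let v284 := mul v283 v6; ok v284 && (
  let v285 := mul v278 v247; ok v285 && (
  let v286 := mul v285 v249; ok v286 && (
  let v287 := add v176 v286; ok v287 && (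
  let v288 := mul v287 v6; ok v288 && (
  let v289 := scale ⟨223338299392, 0, 0, 0⟩ v288; ok v289 && (
  let v290 := add v8 v289; ok v290 && (
  let v291 := mul v288 v290; ok v291 && (
  let v292 := add v0 v291; ok v292 && (
  let v293 := scale ⟨893353197568, 0, 0, 0⟩ v284; ok v293 && (
  let v294 := add v0 v293; ok v294 && (
  let v295 := mul v284 v294; ok v295 && (
  let v296 := add v0 v295; ok v296 && (
  let v297 := mul v228 v231; ok v297 && (
  let v298 := mul v297 v254; ok v298 && (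
  let v299 := mul v298 v296; ok v299 && (
  let v300 := mul v277 v292; ok v300 && (
  let v301 := add v52 v8; ok v301 && (
  let v302 := mul v299 v301; ok v302 && (
  let v303 := add v300 v302; ok v303 && (
  let v304 := add v52 v0; ok v304 && (
  let v305 := mul v299 v304; ok v305 && (
  let v306 := mul v255 v304; ok v306 && (
  let v307 := mul v306 v231; ok v307 && (
  let v308 := mul v307 v230; ok v308 && (
  let v309 := mul v303 v175; ok v309 && (
  let v310 := mul v308 v261; ok v310 && (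
  let v311 := add v309 v310; ok v311 && (
  let v312 := mul v2 v233; ok v312 && (
  let v313 := inv v52; ok v313 && (
  let v314 := mul v312 v313; ok v314 && (
  let v315 := scale ⟨549755813888, 0, 0, 0⟩ v314; ok v315 && (
  let v316 := mul v23 v315; ok v316 && (
  let v317 := add v316 v311; ok v317 && (
  let v318 := mul v1 v317; ok v318 && (
  let v319 := mul v0 v318; ok v319 && (
  let v320 := mul v303 v278; ok v320 && (
  let v321 := mul v320 v249; ok v321 && (
  let v322 := mul v305 v172; ok v322 && (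
  let v323 := mul v322 v252; ok v323 && (
  let v324 := add v321 v323; ok v324 && (
  let v325 := mul v23 v319; ok v325 && (
  let v326 := mul v245 v324; ok v326 && (
  let v327 := add v325 v326; ok v327 && (
  let v328 := mul v112 v327; ok v328 && (
  let v329 := mul v328 v313; ok v329 && (
  let v330 := sub v0 v329; ok v330 && (
  let v331 := inv v330; ok v331 && (
  let v332 := mul v327 v331; ok v332 && (
  let v333 := mul v1 v332; ok v333 && (
  let v334 := mul v112 v332; ok v334 && (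
  let v335 := mul v334 v313; ok v335 && (
  let v336 := sub v0 v335; ok v336 && (
  let v337 := mul v49 v336; ok v337 && (
  let v338 := sub v337 v333; ok v338 && (
  let v339 := inv v338; ok v339 && (
  let v340 := mul v333 v339; ok v340 && (
  let v341 := sub v52 v334; ok v341 && (
  let v342 := inv v341; ok v342 && (
  let v343 := mul v340 v222; ok v343 && (
  let v344 := scale ⟨549755813888, 0, 0, 0⟩ v343; ok v344 && (
  let v345 := sub v0 v344; ok v345 && (
  let v346 := sub v0 v343; ok v346 && (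
  let v347 := inv v346; ok v347 && (
  let v348 := mul v345 v347; ok v348 && (
  let v349 := mul v2 v342; ok v349 && (
  let v350 := mul v224 v339; ok v350 && (
  let v351 := mul v350 v348; ok v351 && (
  let v352 := add v349 v351; ok v352 && (
  let v353 := mul v7 v332; ok v353 && (
  let v354 := mul v342 v353; ok v354 && (
  let v355 := mul v222 v339; ok v355 && (
  let v356 := mul v355 v348; ok v356 && (
  let v357 := mul v356 v333; ok v357 && (
  let v358 := add v354 v357; ok v358 && (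
  let v359 := scale ⟨223338299392, 0, 0, 0⟩ v358; ok v359 && (
  let v360 := add v8 v359; ok v360 && (
  let v361 := mul v358 v360; ok v361 && (
  let v362 := add v0 v361; ok v362 && (
  let v363 := mul v352 v362; ok v363 && (
  let v364 := mul v363 v331; ok v364 && (
  let v365 := mul v364 v324; ok v365 && (
  let v366 := mul v246 v23; ok v366 && (
  let v367 := cst ⟨5497558138880, 0, 0, 0⟩; ok v367 && (
  let v368 := inv v367; ok v368 && (
  let v369 := mul v53 v368; ok v369 && (
  let v370 := mul v225 v24; ok v370 && (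
  let v371 := mul v370 v369; ok v371 && (
  let v372 := mul v178 v106; ok v372 && (
  let v373 := mul v22 v372; ok v373 && (
  let v374 := scale ⟨549755813888, 0, 0, 0⟩ v223; ok v374 && (
  let v375 := sub v0 v374; ok v375 && (
  let v376 := sub v0 v223; ok v376 && (
  let v377 := inv v376; ok v377 && (
  let v378 := mul v375 v377; ok v378 && (
  let v379 := mul v378 v186; ok v379 && (
  let v380 := mul v112 v122; ok v380 && (
  let v381 := scale ⟨733097230336, 0, 0, 0⟩ v380; ok v381 && (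
  let v382 := sub v0 v381; ok v382 && (
  let v383 := mul v122 v382; ok v383 && (
  let v384 := mul v89 v89; ok v384 && (
  let v385 := mul v12 v384; ok v385 && (
  let v386 := add v383 v385; ok v386 && (
  let v387 := mul v379 v224; ok v387 && (
  let v388 := add v386 v0; ok v388 && (
  let v389 := mul v387 v388; ok v389 && (
  let v390 := sub v386 v389; ok v390 && (
  let v391 := scale ⟨366548615168, 0, 0, 0⟩ v45; ok v391 && (
  let v392 := sub v0 v391; ok v392 && (
  let v393 := mul v26 v392; ok v393 && (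
  let v394 := add v390 v393; ok v394 && (
  let v395 := mul v372 v394; ok v395 && (
  let v396 := mul v373 v373; ok v396 && (
  let v397 := add v0 v396; ok v397 && (
  let v398 := inv v397; ok v398 && (
  let v399 := mul v395 v398; ok v399 && (
  let v400 := sub v0 v340; ok v400 && (
  let v401 := mul v400 v399; ok v401 && (
  let v402 := sub v0 v387; ok v402 && (
  isPos 4 v402 && (
  isPos 4 v399 && (
  isPos 4 v400 && (
  let v403 := mul v364 v240; ok v403 && (
  let v404 := mul v403 v317; ok v404 && (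
  let v405 := inv v24; ok v405 && (
  let v406 := mul v404 v405; ok v406 && (
  let v407 := mul v4 v401; ok v407 && (
  let v408 := mul v1 v407; ok v408 && (
  let v409 := scale ⟨549755813888, 0, 0, 0⟩ v408; ok v409 && (
  let v410 := sub v0 v409; ok v410 && (
  let v411 := mul v407 v410; ok v411 && (
  let v412 := neg v411; ok v412 && (
  let v413 := mul v2 x3; ok v413 && (
  let v414 := mul v413 v225; ok v414 && (
  let v415 := mul v414 v15; ok v415 && (
  let v416 := mul v0 v415; ok v416 && (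
  let v417 := add v412 v416; ok v417 && (
  let v418 := mul v412 v416; ok v418 && (
  let v419 := mul v1 v418; ok v419 && (
  let v420 := add v417 v419; ok v420 && (
  let v421 := mul v12 v42; ok v421 && (
  let v422 := scale ⟨412316860416, 0, 0, 0⟩ v43; ok v422 && (
  let v423 := sub v8 v422; ok v423 && (
  let v424 := mul v421 v423; ok v424 && (
  let v425 := mul v0 v424; ok v425 && (
  let v426 := neg v425; ok v426 && (
  let v427 := add v420 v426; ok v427 && (
  let v428 := mul v420 v426; ok v428 && (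
  let v429 := mul v1 v428; ok v429 && (
  let v430 := add v427 v429; ok v430 && (
  let v431 := mul v2 v332; ok v431 && (
  let v432 := mul v431 v405; ok v432 && (
  let v433 := mul v0 v432; ok v433 && (
  let v434 := add v430 v433; ok v434 && (
  let v435 := mul v430 v433; ok v435 && (
  let v436 := mul v1 v435; ok v436 && (
  let v437 := add v434 v436; ok v437 && (
  let v438 := mul v0 v371; ok v438 && (
  let v439 := sub v437 v438; ok v439 && (
  let v440 := mul v1 v371; ok v440 && (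
  let v441 := add v0 v440; ok v441 && (
  let v442 := inv v441; ok v442 && (
  let v443 := mul v439 v442; ok v443 && (
  let v444 := mul v2 v9; ok v444 && (
  let v445 := mul v444 v332; ok v445 && (
  let v446 := mul v445 v342; ok v446 && (
  let v447 := mul v0 v446; ok v447 && (
  let v448 := add v443 v447; ok v448 && (
  let v449 := mul v443 v447; ok v449 && (
  let v450 := mul v1 v449; ok v450 && (
  let v451 := add v448 v450; ok v451 && (
  let v452 := mul v1 v451; ok v452 && (
  let v453 := add v0 v452; ok v453 && (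
  let v454 := mul v365 v247; ok v454 && (
  let v455 := mul v1 v366; ok v455 && (
  let v456 := mul v406 v455; ok v456 && (
  let v457 := add v454 v456; ok v457 && (
  let v458 := mul v0 v457; ok v458 && (
  let v459 := add v365 v406; ok v459 && (
  let v460 := mul v0 v459; ok v460 && (
  let v461 := mul v458 v453; ok v461 && (
  let v462 := add v451 v461; ok v462 && (
  let v463 := add v462 v460; ok v463 && (
  let v464 := neg v463; ok v464 && (
  let v465 := scale ⟨1073741824, 0, 0, 0⟩ v0; ok v465 && (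
  let v466 := sub v464 v465; ok v466 && (
  let v467 := sub v20 v0; ok v467 && (
  let v468 := add v467 v56; ok v468 && (
  let v469 := scale ⟨2199023255552, 0, 0, 0⟩ v369; ok v469 && (
  let v470 := sub v468 v469; ok v470 && (
  let v471 := mul v225 v470; ok v471 && (
  let v472 := mul v467 v469; ok v472 && (
  let v473 := add v472 v0; ok v473 && (
  let v474 := inv v473; ok v474 && (
  let v475 := mul v471 v474; ok v475 && (
  let v476 := mul v243 v324; ok v476 && (
  let v477 := scale ⟨549755813888, 0, 0, 0⟩ v236; ok v477 && (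
  let v478 := add v17 v477; ok v478 && (
  let v479 := mul v476 v478; ok v479 && (
  let v480 := scale ⟨2199023255552, 0, 0, 0⟩ v479; ok v480 && (
  let v481 := add v319 v480; ok v481 && (
  let v482 := scale ⟨2199023255552, 0, 0, 0⟩ v481; ok v482 && (
  let v483 := mul v482 v331; ok v483 && (
  let v484 := mul v9 v332; ok v484 && (
  let v485 := sub v24 v484; ok v485 && (
  let v486 := inv v485; ok v486 && (
  let v487 := mul v483 v486; ok v487 && (
  let v488 := sub v475 v487; ok v488 && (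
  let v489 := mul v238 v238; ok v489 && (
  let v490 := cst ⟨14293651161088, 0, 0, 0⟩; ok v490 && (
  let v491 := cst ⟨10995116277760, 0, 0, 0⟩; ok v491 && (
  let v492 := inv v491; ok v492 && (
  let v493 := mul v490 v492; ok v493 && (
  let v494 := mul v489 v493; ok v494 && (
  let v495 := mul v0 v0; ok v495 && (
  let v496 := scale ⟨27487790694400, 0, 0, 0⟩ v495; ok v496 && (
  let v497 := add v494 v496; ok v497 && (
  let v498 := mul v371 v442; ok v498 && (
  let v499 := sub v40 v1; ok v499 && (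
  let v500 := sub v499 v39; ok v500 && (
  let v501 := mul v3 v2; ok v501 && (
  let v502 := mul v501 v0; ok v502 && (
  let v503 := mul v24 v324; ok v503 && (
  let v504 := mul v503 v241; ok v504 && (
  let v505 := add v311 v504; ok v505 && (
  let v506 := add v484 v56; ok v506 && (
  let v507 := mul v3 v506; ok v507 && (
  let v508 := mul v497 v498; ok v508 && (
  let v509 := mul v331 v507; ok v509 && (
  let v510 := mul v502 v505; ok v510 && (
  let v511 := mul v509 v510; ok v511 && (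
  let v512 := sub v508 v511; ok v512 && (
  let v513 := scale ⟨549755813888, 0, 0, 0⟩ v484; ok v513 && (
  let v514 := add v0 v513; ok v514 && (
  let v515 := mul v331 v514; ok v515 && (
  let v516 := mul v1 v23; ok v516 && (
  let v517 := mul v516 v233; ok v517 && (
  let v518 := mul v24 v52; ok v518 && (
  let v519 := inv v518; ok v519 && (
  let v520 := mul v517 v519; ok v520 && (
  let v521 := mul v515 v520; ok v521 && (
  let v522 := sub v500 v521; ok v522 && (
  let v523 := mul v236 v512; ok v523 && (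
  let v524 := sub v0 v236; ok v524 && (
  let v525 := mul v12 v522; ok v525 && (
  let v526 := mul v524 v525; ok v526 && (
  let v527 := mul v497 v526; ok v527 && (
  let v528 := add v523 v527; ok v528 && (
  isPos 4 v248 && (
  isPos 4 v251 && (
  let v529 := scale ⟨2199023255552, 0, 0, 0⟩ v328; ok v529 && (
  let v530 := sub v52 v529; ok v530 && (
  isPos 4 v530 && (
  isPos 4 v338 && (
  let v531 := sub v8 v223; ok v531 && (
  isPos 4 v531 && (
  let v532 := scale ⟨687194767360, 0, 0, 0⟩ v0; ok v532 && (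
  let v533 := sub v532 v288; ok v533 && (
  isPos 4 v533 && (
  let v534 := scale ⟨377957122048, 0, 0, 0⟩ v0; ok v534 && (
  let v535 := sub v534 v284; ok v535 && (
  isPos 4 v535 && (
  isPos 4 v485 && (
  isPos 4 v346 && (
  let v536 := sub v532 v358; ok v536 && (
  isPos 4 v536 && (
  isPos 4 v488 && (
  isPos 4 v466 && (
  isPos 4 v528 && (
  isPos 4 v522 && (
  true))))))))))))))))))))))))))))))))))))))))))))))))))))))))))))))))))))))))))))))))))))))))))))))))))))))))))))))))))))))))))))))))))))))))))))))))))))))))))))))))))))))))))))))))))))))))))))))))))))))))))))))))))))))))))))))))))))))))))))))))))))))))))))))))))))))))))))))))))))))))))))))))))))))))))))))))))))))))))))))))))))))))))))))))))))))))))))))))))))))))))))))))))))))))))))))))))))))))))))))))))))))))))))))))))))))))))))))))))))))))))))))))))))))))))))))))))))))))))))))))))))))))))))))))))))))))))))))))))))))))))))))))))))))))))))))))))))))))))))))))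
  | _ => false

set_option maxRecDepth 1000000 in
theorem chk3_eq (O : Ops) (m : List O.α)
    (h : chk3 O.cst O.add O.sub O.mul O.scale O.neg O.inv O.exp O.log O.ok O.isPos O.isLt m = true) :
    runG O 4 prog3 m = true := by
  match m, h with
  | [x0, x1, x2, x3], h => exact h

def chkB3 : List opsE.α → Bool :=
  chk3 opsE.cst opsE.add opsE.sub opsE.mul opsE.scale opsE.neg opsE.inv opsE.exp opsE.log opsE.ok opsE.isPos opsE.isLt

theorem chkB3_eq (m : List opsE.α) (h : chkB3 m = true) : runG opsE 4 prog3 m = true :=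
  chk3_eq opsE m h

def prog4 : List Op := [
  .const ⟨1099511627776, 0, 0, 0⟩,
  .mul 1 3,
  .mul 3 4,
  .mul 3 4,
  .mul 5 5,
  .mul 3 0,
  .mul 8 8,
  .mul 5 1,
  .const ⟨549755813888, 0, 0, 0⟩,
  .mul 7 6,
  .mul 0 13,
  .scale ⟨549755813888, 0, 0, 0⟩ 0,
  .mul 9 9,
  .mul 1 1,
  .sub 13 0,
  .inv 0,
  .mul 4 0,
  .scale ⟨2199023255552, 0, 0, 0⟩ 0,
  .scale ⟨2199023255552, 0, 0, 0⟩ 2,
  .sub 0 18,
  .add 0 2,
  .mul 24 5,
  .mul 19 0,
  .sub 22 0,
  .add 23 1,
  .mul 23 12,
  .mul 4 4,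
  .scale ⟨10774999203840, 0, 0, 0⟩ 15,
  .scale ⟨45768245248, 0, 0, 0⟩ 0,
  .const ⟨183207198720, 0, 0, 0⟩,
  .add 1 0,
  .mul 3 0,
  .add 23 0,
  .mul 5 0,
  .add 33 0,
  .mul 7 0,
  .scale ⟨549755813888, 0, 0, 0⟩ 0,
  .add 36 0,
  .mul 3 0,
  .scale ⟨224412041216, 0, 0, 0⟩ 23,
  .inv 1,
  .mul 1 0,
  .sub 40 24,
  .sub 0 1,
  .pos 0]

def chk4 {α : Type} (cst : Z → α) (add sub mul : α → α → α) (scale : Z → α → α)
    (neg inv exp log : α → α) (ok : α → Bool) (isPos : Nat → α → Bool) (isLt : α → Nat → Bool) :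
    List α → Bool
  | [x0, x1, x2, x3] =>
  let v0 := cst ⟨1099511627776, 0, 0, 0⟩; ok v0 && (
  let v1 := mul x0 x2; ok v1 && (
  let v2 := mul x1 x2; ok v2 && (
  let v3 := mul x0 x1; ok v3 && (
  let v4 := mul x1 x1; ok v4 && (
  let v5 := mul v1 v4; ok v5 && (
  let v6 := mul x2 x2; ok v6 && (
  let v7 := mul v1 v5; ok v7 && (
  let v8 := cst ⟨549755813888, 0, 0, 0⟩; ok v8 && (
  let v9 := mul v1 v2; ok v9 && (
  let v10 := mul v9 x3; ok v10 && (
  let v11 := scale ⟨549755813888, 0, 0, 0⟩ v10; ok v11 && (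
  let v12 := mul v2 v2; ok v12 && (
  let v13 := mul v11 v11; ok v13 && (
  let v14 := sub v0 v13; ok v14 && (
  let v15 := inv v14; ok v15 && (
  let v16 := mul v11 v15; ok v16 && (
  let v17 := scale ⟨2199023255552, 0, 0, 0⟩ v16; ok v17 && (
  let v18 := scale ⟨2199023255552, 0, 0, 0⟩ v15; ok v18 && (
  let v19 := sub v18 v0; ok v19 && (
  let v20 := add v19 v17; ok v20 && (
  let v21 := mul x3 v15; ok v21 && (
  let v22 := mul v2 v21; ok v22 && (
  let v23 := sub v0 v22; ok v23 && (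
  let v24 := add v0 v22; ok v24 && (
  let v25 := mul v1 v12; ok v25 && (
  let v26 := mul v21 v21; ok v26 && (
  let v27 := scale ⟨10774999203840, 0, 0, 0⟩ v11; ok v27 && (
  let v28 := scale ⟨45768245248, 0, 0, 0⟩ v27; ok v28 && (
  let v29 := cst ⟨183207198720, 0, 0, 0⟩; ok v29 && (
  let v30 := add v28 v29; ok v30 && (
  let v31 := mul v27 v30; ok v31 && (
  let v32 := add v8 v31; ok v32 && (
  let v33 := mul v27 v32; ok v33 && (
  let v34 := add v0 v33; ok v34 && (
  let v35 := mul v27 v34; ok v35 && (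
  let v36 := scale ⟨549755813888, 0, 0, 0⟩ v35; ok v36 && (
  let v37 := add v0 v36; ok v37 && (
  let v38 := mul v34 v37; ok v38 && (
  let v39 := scale ⟨224412041216, 0, 0, 0⟩ v15; ok v39 && (
  let v40 := inv v38; ok v40 && (
  let v41 := mul v39 v40; ok v41 && (
  let v42 := sub v1 v17; ok v42 && (
  let v43 := sub v42 v41; ok v43 && (
  isPos 4 v43 && (
  true)))))))))))))))))))))))))))))))))))))))))))))
  | _ => false

set_option maxRecDepth 1000000 in
theorem chk4_eq (O : Ops) (m : List O.α)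
    (h : chk4 O.cst O.add O.sub O.mul O.scale O.neg O.inv O.exp O.log O.ok O.isPos O.isLt m = true) :
    runG O 4 prog4 m = true := by
  match m, h with
  | [x0, x1, x2, x3], h => exact h

def chkB4 : List opsE.α → Bool :=
  chk4 opsE.cst opsE.add opsE.sub opsE.mul opsE.scale opsE.neg opsE.inv opsE.exp opsE.log opsE.ok opsE.isPos opsE.isLt

theorem chkB4_eq (m : List opsE.α) (h : chkB4 m = true) : runG opsE 4 prog4 m = true :=
  chk4_eq opsE m h

def prog5 : List Op := [
  .const ⟨1099511627776, 0, 0, 0⟩,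
  .mul 1 3,
  .mul 3 4,
  .mul 3 4,
  .mul 5 5,
  .mul 3 0,
  .mul 8 8,
  .mul 5 1,
  .const ⟨2688649527296, 0, 0, 0⟩,
  .sub 5 0,
  .pos 0]

def chk5 {α : Type} (cst : Z → α) (add sub mul : α → α → α) (scale : Z → α → α)
    (neg inv exp log : α → α) (ok : α → Bool) (isPos : Nat → α → Bool) (isLt : α → Nat → Bool) :
    List α → Bool
  | [x0, x1, x2, x3] =>
  let v0 := cst ⟨1099511627776, 0, 0, 0⟩; ok v0 && (
  let v1 := mul x0 x2; ok v1 && (
  let v2 := mul x1 x2; ok v2 && (
  let v3 := mul x0 x1; ok v3 && (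
  let v4 := mul x1 x1; ok v4 && (
  let v5 := mul v1 v4; ok v5 && (
  let v6 := mul x2 x2; ok v6 && (
  let v7 := mul v1 v5; ok v7 && (
  let v8 := cst ⟨2688649527296, 0, 0, 0⟩; ok v8 && (
  let v9 := sub v3 v8; ok v9 && (
  isPos 4 v9 && (
  true)))))))))))
  | _ => false

set_option maxRecDepth 1000000 in
theorem chk5_eq (O : Ops) (m : List O.α)
    (h : chk5 O.cst O.add O.sub O.mul O.scale O.neg O.inv O.exp O.log O.ok O.isPos O.isLt m = true) :
    runG O 4 prog5 m = true := by
  match m, h with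
  | [x0, x1, x2, x3], h => exact h

def chkB5 : List opsE.α → Bool :=
  chk5 opsE.cst opsE.add opsE.sub opsE.mul opsE.scale opsE.neg opsE.inv opsE.exp opsE.log opsE.ok opsE.isPos opsE.isLt

theorem chkB5_eq (m : List opsE.α) (h : chkB5 m = true) : runG opsE 4 prog5 m = true :=
  chk5_eq opsE m h

def prog6 : List Op := [
  .const ⟨1099511627776, 0, 0, 0⟩,
  .mul 1 3,
  .mul 3 4,
  .mul 3 4,
  .mul 5 5,
  .mul 3 0,
  .mul 8 8,
  .mul 5 1,
  .const ⟨549755813888, 0, 0, 0⟩,
  .mul 7 6,
  .mul 0 13,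
  .scale ⟨549755813888, 0, 0, 0⟩ 0,
  .mul 9 9,
  .mul 1 1,
  .sub 13 0,
  .inv 0,
  .mul 4 0,
  .scale ⟨2199023255552, 0, 0, 0⟩ 0,
  .scale ⟨2199023255552, 0, 0, 0⟩ 2,
  .sub 0 18,
  .add 0 2,
  .mul 24 5,
  .mul 19 0,
  .sub 22 0,
  .add 23 1,
  .mul 23 12,
  .mul 4 4,
  .scale ⟨549755813888, 0, 0, 0⟩ 26,
  .mul 24 6,
  .sub 1 0,
  .pos 0]

def chk6 {α : Type} (cst : Z → α) (add sub mul : α → α → α) (scale : Z → α → α)
    (neg inv exp log : α → α) (ok : α → Bool) (isPos : Nat → α → Bool) (isLt : α → Nat → Bool) :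
    List α → Bool
  | [x0, x1, x2, x3] =>
  let v0 := cst ⟨1099511627776, 0, 0, 0⟩; ok v0 && (
  let v1 := mul x0 x2; ok v1 && (
  let v2 := mul x1 x2; ok v2 && (
  let v3 := mul x0 x1; ok v3 && (
  let v4 := mul x1 x1; ok v4 && (
  let v5 := mul v1 v4; ok v5 && (
  let v6 := mul x2 x2; ok v6 && (
  let v7 := mul v1 v5; ok v7 && (
  let v8 := cst ⟨549755813888, 0, 0, 0⟩; ok v8 && (
  let v9 := mul v1 v2; ok v9 && (
  let v10 := mul v9 x3; ok v10 && (
  let v11 := scale ⟨549755813888, 0, 0, 0⟩ v10; ok v11 && (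
  let v12 := mul v2 v2; ok v12 && (
  let v13 := mul v11 v11; ok v13 && (
  let v14 := sub v0 v13; ok v14 && (
  let v15 := inv v14; ok v15 && (
  let v16 := mul v11 v15; ok v16 && (
  let v17 := scale ⟨2199023255552, 0, 0, 0⟩ v16; ok v17 && (
  let v18 := scale ⟨2199023255552, 0, 0, 0⟩ v15; ok v18 && (
  let v19 := sub v18 v0; ok v19 && (
  let v20 := add v19 v17; ok v20 && (
  let v21 := mul x3 v15; ok v21 && (
  let v22 := mul v2 v21; ok v22 && (
  let v23 := sub v0 v22; ok v23 && (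
  let v24 := add v0 v22; ok v24 && (
  let v25 := mul v1 v12; ok v25 && (
  let v26 := mul v21 v21; ok v26 && (
  let v27 := scale ⟨549755813888, 0, 0, 0⟩ v0; ok v27 && (
  let v28 := mul v3 v21; ok v28 && (
  let v29 := sub v27 v28; ok v29 && (
  isPos 4 v29 && (
  true)))))))))))))))))))))))))))))))
  | _ => false

set_option maxRecDepth 1000000 in
theorem chk6_eq (O : Ops) (m : List O.α)
    (h : chk6 O.cst O.add O.sub O.mul O.scale O.neg O.inv O.exp O.log O.ok O.isPos O.isLt m = true) :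
    runG O 4 prog6 m = true := by
  match m, h with
  | [x0, x1, x2, x3], h => exact h

def chkB6 : List opsE.α → Bool :=
  chk6 opsE.cst opsE.add opsE.sub opsE.mul opsE.scale opsE.neg opsE.inv opsE.exp opsE.log opsE.ok opsE.isPos opsE.isLt

theorem chkB6_eq (m : List opsE.α) (h : chkB6 m = true) : runG opsE 4 prog6 m = true :=
  chk6_eq opsE m h

def progs : List (List Op) := [prog0, prog1, prog2, prog3, prog4, prog5, prog6]

def chks : List (List opsE.α → Bool) := [chkB0, chkB1, chkB2, chkB3, chkB4, chkB5, chkB6]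

theorem chks_eq : List.Forall₂ (fun (ops : List Op) (chk : List opsE.α → Bool) =>
    ∀ m, chk m = true → runG opsE 4 ops m = true) progs chks :=
  List.Forall₂.cons chkB0_eq (List.Forall₂.cons chkB1_eq (List.Forall₂.cons chkB2_eq (List.Forall₂.cons chkB3_eq (List.Forall₂.cons chkB4_eq (List.Forall₂.cons chkB5_eq (List.Forall₂.cons chkB6_eq List.Forall₂.nil))))))

end Pool.Agent.helper71.FJ.Crt.LHI
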