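import Pool.Agent.helper31.IC.EngD
import Pool.Agent.helper14.QF.Inst

/-!
Generated: straight line program(s) and compiled form(s).
-/

namespace Pool.Agent.helper71.FJ.Crt.LHIII

open Pool.Agent.helper31.IA (Z Op)
open Pool.Agent.helper31.IC

set_option maxRecDepth 100000

abbrev opsE : Ops := Pool.Agent.helper14.QF.opsF

def prog0 : List Op := [
  .const ⟨1099511627776, 0, 0, 0⟩,
  .mul 2 3,
  .mul 4 4,
  .mul 3 4,
  .mul 0 1,
  .mul 3 3,
  .mul 1 2,
  .const ⟨549755813888, 0, 0, 0⟩,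
  .mul 3 9,
  .mul 0 12,
  .scale ⟨549755813888, 0, 0, 0⟩ 0,
  .mul 12 12,
  .mul 1 1,
  .sub 12 0,
  .inv 0,
  .mul 4 0,
  .scale ⟨2199023255552, 0, 0, 0⟩ 0,
  .scale ⟨2199023255552, 0, 0, 0⟩ 2,
  .sub 0 17,
  .add 0 2,
  .mul 23 5,
  .mul 22 0,
  .sub 21 0,
  .add 22 1,
  .mul 19 12,
  .mul 4 4,
  .scale ⟨10774999203840, 0, 0, 0⟩ 15,
  .scale ⟨45768245248, 0, 0, 0⟩ 0,
  .const ⟨183207198720, 0, 0, 0⟩,
  .add 1 0,
  .mul 3 0,
  .add 23 0,
  .mul 5 0,
  .add 32 0,
  .mul 7 0,
  .scale ⟨549755813888, 0, 0, 0⟩ 0,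
  .add 35 0,
  .mul 3 0,
  .mul 21 16,
  .scale ⟨2199023255552, 0, 0, 0⟩ 20,
  .add 1 0,
  .add 0 36,
  .mul 17 0,
  .add 0 42,
  .mul 27 27,
  .scale ⟨2199023255552, 0, 0, 0⟩ 0,
  .add 0 45,
  .mul 28 5,
  .sub 0 47,
  .log 5,
  .scale ⟨549755813888, 0, 0, 0⟩ 0,
  .exp 0,
  .const ⟨3298534883328, 0, 0, 0⟩,
  .inv 0,
  .mul 53 0,
  .const ⟨2199023255552, 0, 0, 0⟩,
  .add 13 0,
  .inv 0,
  .mul 15 0,
  .mul 0 0,
  .sub 59 1,
  .mul 1 6,
  .add 61 0,
  .mul 2 0,
  .mul 4 4,
  .scale ⟨219915747328, 0, 0, 0⟩ 0,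
  .mul 24 2,
  .scale ⟨549755813888, 0, 0, 0⟩ 0,
  .mul 26 2,
  .scale ⟨549755813888, 0, 0, 0⟩ 0,
  .add 2 0,
  .mul 52 22,
  .scale ⟨4398046511104, 0, 0, 0⟩ 0,
  .mul 54 48,
  .mul 0 25,
  .scale ⟨4398046511104, 0, 0, 0⟩ 0,
  .add 0 20,
  .inv 0,
  .mul 2 0,
  .mul 0 0,
  .sub 79 1,
  .mul 1 26,
  .add 81 0,
  .mul 2 0,
  .mul 4 4,
  .scale ⟨219915747328, 0, 0, 0⟩ 0,
  .mul 13 2,
  .scale ⟨549755813888, 0, 0, 0⟩ 0,
  .sub 0 17,
  .mul 16 3,
  .scale ⟨549755813888, 0, 0, 0⟩ 0,
  .add 0 21,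
  .add 3 0,
  .mul 89 25,
  .neg 0,
  .exp 0,
  .mul 92 26,
  .mul 1 0,
  .mul 94 9,
  .neg 0,
  .exp 0,
  .mul 97 9,
  .mul 1 0,
  .mul 81 86,
  .add 85 0,
  .inv 0,
  .mul 82 0,
  .mul 84 102,
  .mul 0 1,
  .sub 108 97,
  .mul 84 0,
  .mul 102 102,
  .sub 111 86,
  .mul 3 0,
  .mul 89 65,
  .inv 71,
  .mul 1 0,
  .add 98 0,
  .mul 74 0,
  .mul 0 0,
  .inv 0,
  .mul 7 0,
  .add 103 97,
  .mul 122 0,
  .inv 0,
  .mul 125 0,
  .mul 0 0,
  .mul 0 13,
  .const ⟨45812285440, 0, 0, 0⟩,
  .scale ⟨1527119872, 0, 0, 0⟩ 1,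
  .sub 1 0,
  .mul 3 0,
  .sub 124 0,
  .mul 5 0,
  .sub 133 0,
  .add 39 134,
  .mul 40 40,
  .add 0 136,
  .mul 42 3,
  .scale ⟨2199023255552, 0, 0, 0⟩ 0,
  .add 2 0,
  .scale ⟨4398046511104, 0, 0, 0⟩ 43,
  .sub 1 0,
  .inv 7,
  .mul 1 0,
  .add 0 9,
  .mul 50 37,
  .scale ⟨549755813888, 0, 0, 0⟩ 0,
  .mul 0 2,
  .sub 6 0,
  .pos 7,
  .pos 0,
  .mul 146 79,
  .scale ⟨2199023255552, 0, 0, 0⟩ 0,
  .scale ⟨183274307584, 0, 0, 0⟩ 0,
  .sub 145 0,
  .mul 2 0,
  .sub 154 0,
  .mul 85 0,
  .inv 7,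
  .mul 1 0,
  .mul 155 0,
  .add 0 152,
  .inv 0,
  .mul 3 0,
  .mul 159 0,
  .mul 55 0,
  .scale ⟨549755813888, 0, 0, 0⟩ 0,
  .sub 165 0,
  .sub 166 2,
  .inv 0,
  .mul 2 0,
  .add 5 169,
  .mul 75 0,
  .mul 65 2,
  .mul 174 10,
  .mul 1 0,
  .mul 10 5,
  .pos 8,
  .mul 153 152,
  .add 158 172,
  .mul 156 159,
  .mul 0 162,
  .scale ⟨2199023255552, 0, 0, 0⟩ 0,
  .add 134 0,
  .mul 4 0,
  .inv 0,
  .mul 7 0,
  .mul 180 0,
  .pos 97,
  .mul 58 70,
  .scale ⟨1527119872, 0, 0, 0⟩ 0,
  .sub 59 0,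
  .mul 2 0,
  .sub 182 0,
  .mul 4 0,
  .sub 191 0,
  .add 92 192,
  .mul 93 93,
  .add 0 194,
  .mul 95 3,
  .scale ⟨2199023255552, 0, 0, 0⟩ 0,
  .add 2 0,
  .scale ⟨4398046511104, 0, 0, 0⟩ 96,
  .sub 1 0,
  .inv 7,
  .mul 1 0,
  .add 0 9,
  .mul 103 18,
  .scale ⟨549755813888, 0, 0, 0⟩ 0,
  .mul 0 2,
  .sub 6 0,
  .pos 7,
  .pos 0,
  .mul 204 115,
  .scale ⟨2199023255552, 0, 0, 0⟩ 0,
  .scale ⟨183274307584, 0, 0, 0⟩ 0,
  .sub 203 0,
  .mul 2 0,
  .sub 212 0,
  .mul 121 0,
  .inv 7,
  .mul 1 0,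
  .mul 213 0,
  .add 0 210,
  .inv 0,
  .mul 3 0,
  .mul 217 0,
  .mul 36 0,
  .mul 224 2,
  .add 213 223,
  .inv 0,
  .mul 215 0,
  .scale ⟨2199023255552, 0, 0, 0⟩ 0,
  .sub 227 0,
  .sub 228 218,
  .mul 233 4,
  .mul 0 2,
  .add 208 0,
  .scale ⟨224412041216, 0, 0, 0⟩ 218,
  .inv 196,
  .mul 1 0,
  .scale ⟨4398046511104, 0, 0, 0⟩ 235,
  .mul 237 216,
  .add 1 0,
  .scale ⟨549755813888, 0, 0, 0⟩ 0,
  .inv 0,
  .mul 241 0,
  .mul 241 1,
  .mul 0 219,
  .mul 0 8,
  .mul 3 221,
  .mul 0 10,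
  .sub 246 0,
  .inv 0,
  .mul 77 2,
  .sub 249 0,
  .inv 0,
  .mul 229 252,
  .mul 0 90,
  .inv 233,
  .mul 1 0,
  .scale ⟨549755813888, 0, 0, 0⟩ 0,
  .sub 256 0,
  .sub 257 2,
  .inv 0,
  .mul 2 0,
  .mul 87 0,
  .mul 6 1,
  .mul 0 257,
  .pos 5,
  .scale ⟨1374389534720, 0, 0, 0⟩ 0,
  .sub 257 0,
  .pos 0,
  .scale ⟨3092376453120, 0, 0, 0⟩ 2,
  .add 0 211,
  .mul 4 0,
  .add 268 0,
  .scale ⟨1546188226560, 0, 0, 0⟩ 6,
  .add 0 270,
  .mul 8 0,
  .add 272 0,
  .mul 263 253,
  .sub 274 164,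
  .mul 265 254,
  .scale ⟨2199023255552, 0, 0, 0⟩ 0,
  .sub 2 0,
  .mul 4 4,
  .add 1 0,
  .add 0 280,
  .scale ⟨549755813888, 0, 0, 0⟩ 0,
  .scale ⟨549755813888, 0, 0, 0⟩ 258,
  .sub 269 0,
  .mul 173 9,
  .mul 0 272,
  .scale ⟨137438953472, 0, 0, 0⟩ 0,
  .add 3 0,
  .mul 6 0,
  .add 118 289,
  .mul 0 42,
  .mul 120 40,
  .add 1 0,
  .mul 47 0,
  .add 119 0,
  .mul 0 290,
  .mul 6 50,
  .mul 0 49,
  .add 123 0,
  .mul 0 294,
  .scale ⟨223338299392, 0, 0, 0⟩ 0,
  .add 294 0,
  .mul 2 0,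
  .add 303 0,
  .scale ⟨893353197568, 0, 0, 0⟩ 8,
  .add 305 0,
  .mul 10 0,
  .add 307 0,
  .mul 81 78,
  .mul 0 40,
  .mul 0 2,
  .mul 22 7,
  .add 261 305,
  .mul 2 0,
  .add 2 0,
  .add 264 315,
  .mul 5 0,
  .mul 44 1,
  .mul 0 88,
  .mul 0 90,
  .mul 5 146,
  .mul 1 60,
  .add 1 0,
  .mul 325 91,
  .inv 273,
  .mul 1 0,
  .scale ⟨549755813888, 0, 0, 0⟩ 0,
  .mul 305 0,
  .add 0 5,
  .mul 325 0,
  .mul 330 0,
  .mul 16 41,
  .mul 0 84,
  .mul 16 162,
  .mul 0 83,
  .add 2 0,
  .mul 314 5,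
  .mul 93 1,
  .add 1 0,
  .mul 228 0,
  .mul 0 15,
  .sub 341 0,
  .inv 0,
  .mul 4 0,
  .mul 340 0,
  .mul 234 1,
  .mul 0 21,
  .sub 347 0,
  .mul 300 0,
  .sub 0 4,
  .inv 0,
  .mul 6 0,
  .sub 301 6,
  .inv 0,
  .mul 2 133,
  .scale ⟨549755813888, 0, 0, 0⟩ 0,
  .sub 356 0,
  .sub 357 2,
  .inv 0,
  .mul 2 0,
  .mul 362 6,
  .mul 138 10,
  .mul 0 2,
  .add 2 0,
  .mul 358 20,
  .mul 11 0,
  .mul 145 15,
  .mul 0 7,
  .mul 0 23,
  .add 3 0,
  .scale ⟨223338299392, 0, 0, 0⟩ 0,
  .add 364 0,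
  .mul 2 0,
  .add 373 0,
  .mul 10 0,
  .mul 0 32,
  .mul 0 40,
  .mul 132 355,
  .const ⟨5497558138880, 0, 0, 0⟩,
  .inv 0,
  .mul 328 0,
  .mul 157 358,
  .mul 0 1,
  .mul 206 278,
  .mul 363 0,
  .scale ⟨549755813888, 0, 0, 0⟩ 163,
  .sub 386 0,
  .sub 387 165,
  .inv 0,
  .mul 2 0,
  .mul 0 205,
  .mul 280 270,
  .scale ⟨733097230336, 0, 0, 0⟩ 0,
  .sub 393 0,
  .mul 273 0,
  .mul 307 307,
  .mul 385 0,
  .add 2 0,
  .mul 7 175,
  .add 1 399,
  .mul 1 0,
  .sub 3 0,
  .scale ⟨366548615168, 0, 0, 0⟩ 358,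
  .sub 403 0,
  .mul 379 0,
  .add 3 0,
  .mul 22 0,
  .mul 22 22,
  .add 408 0,
  .inv 0,
  .mul 3 0,
  .sub 411 59,
  .mul 0 1,
  .sub 413 14,
  .pos 0,
  .pos 3,
  .pos 2,
  .mul 38 175,
  .mul 0 86,
  .inv 393,
  .mul 1 0,
  .mul 415 5,
  .scale ⟨549755813888, 0, 0, 0⟩ 0,
  .sub 420 0,
  .mul 8 0,
  .neg 0,
  .mul 425 427,
  .mul 0 200,
  .mul 0 411,
  .mul 424 0,
  .add 4 0,
  .mul 5 1,
  .mul 426 0,
  .add 2 0,
  .mul 420 390,
  .scale ⟨412316860416, 0, 0, 0⟩ 390,
  .sub 426 0,
  .mul 2 0,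
  .mul 433 0,
  .neg 0,
  .add 6 0,
  .mul 7 1,
  .mul 436 0,
  .add 2 0,
  .mul 443 97,
  .mul 0 25,
  .mul 441 0,
  .add 3 0,
  .mul 4 1,
  .mul 443 0,
  .add 2 0,
  .mul 446 65,
  .sub 1 0,
  .mul 446 67,
  .add 451 0,
  .inv 0,
  .mul 3 0,
  .mul 456 446,
  .mul 0 111,
  .mul 0 102,
  .mul 455 0,
  .add 4 0,
  .mul 5 1,
  .mul 457 0,
  .add 2 0,
  .mul 459 0,
  .add 463 0,
  .mul 87 218,
  .mul 461 87,
  .mul 48 0,
  .add 2 0,
  .mul 466 0,
  .add 92 51,
  .mul 468 0,
  .mul 2 7,
  .add 10 0,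
  .add 0 2,
  .neg 0,
  .scale ⟨1073741824, 0, 0, 0⟩ 473,
  .sub 1 0,
  .sub 458 477,
  .add 0 423,
  .scale ⟨2199023255552, 0, 0, 0⟩ 98,
  .sub 1 0,
  .mul 257 0,
  .mul 4 2,
  .add 0 483,
  .inv 0,
  .mul 3 0,
  .mul 244 150,
  .scale ⟨549755813888, 0, 0, 0⟩ 252,
  .add 472 0,
  .mul 2 0,
  .scale ⟨2199023255552, 0, 0, 0⟩ 0,
  .add 160 0,
  .scale ⟨2199023255552, 0, 0, 0⟩ 0,
  .mul 0 150,
  .mul 486 150,
  .sub 472 0,
  .inv 0,
  .mul 3 0,
  .sub 12 0,
  .mul 262 262,
  .const ⟨14293651161088, 0, 0, 0⟩,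
  .const ⟨10995116277760, 0, 0, 0⟩,
  .inv 0,
  .mul 2 0,
  .mul 4 0,
  .mul 505 505,
  .scale ⟨27487790694400, 0, 0, 0⟩ 0,
  .add 2 0,
  .mul 125 55,
  .sub 470 505,
  .sub 0 472,
  .mul 508 511,
  .mul 489 176,
  .mul 0 273,
  .add 191 0,
  .add 20 460,
  .mul 517 0,
  .mul 9 8,
  .mul 175 1,
  .mul 7 4,
  .mul 1 0,
  .sub 3 0,
  .scale ⟨549755813888, 0, 0, 0⟩ 27,
  .add 523 0,
  .mul 181 0,
  .mul 521 503,
  .mul 0 294,
  .mul 504 476,
  .inv 0,
  .mul 2 0,
  .mul 5 0,
  .sub 20 0,
  .mul 297 10,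
  .sub 533 298,
  .mul 523 2,
  .mul 1 0,
  .mul 28 0,
  .add 4 0,
  .pos 291,
  .pos 288,
  .scale ⟨2199023255552, 0, 0, 0⟩ 198,
  .sub 488 0,
  .pos 0,
  .pos 190,
  .sub 533 318,
  .pos 0,
  .scale ⟨687194767360, 0, 0, 0⟩ 541,
  .sub 0 242,
  .pos 0,
  .scale ⟨377957122048, 0, 0, 0⟩ 543,
  .sub 0 248,
  .pos 0,
  .pos 49,
  .pos 187,
  .sub 3 175,
  .pos 0,
  .pos 47,
  .pos 69,
  .pos 8,
  .pos 14]

def chk0 {α : Type} (cst : Z → α) (add sub mul : α → α → α) (scale : Z → α → α)
    (neg inv exp log : α → α) (ok : α → Bool) (isPos : Nat → α → Bool) (isLt : α → Nat → Bool) :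
    List α → Bool
  | [x0, x1, x2, x3] =>
  let v0 := cst ⟨1099511627776, 0, 0, 0⟩; ok v0 && (
  let v1 := mul x1 x2; ok v1 && (
  let v2 := mul x2 x2; ok v2 && (
  let v3 := mul x0 x1; ok v3 && (
  let v4 := mul v3 v2; ok v4 && (
  let v5 := mul v1 v1; ok v5 && (
  let v6 := mul v4 v3; ok v6 && (
  let v7 := cst ⟨549755813888, 0, 0, 0⟩; ok v7 && (
  let v8 := mul v4 x1; ok v8 && (
  let v9 := mul v8 x3; ok v9 && (
  let v10 := scale ⟨549755813888, 0, 0, 0⟩ v9; ok v10 && (
  let v11 := mul x1 x1; ok v11 && (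
  let v12 := mul v10 v10; ok v12 && (
  let v13 := sub v0 v12; ok v13 && (
  let v14 := inv v13; ok v14 && (
  let v15 := mul v10 v14; ok v15 && (
  let v16 := scale ⟨2199023255552, 0, 0, 0⟩ v15; ok v16 && (
  let v17 := scale ⟨2199023255552, 0, 0, 0⟩ v14; ok v17 && (
  let v18 := sub v17 v0; ok v18 && (
  let v19 := add v18 v16; ok v19 && (
  let v20 := mul x3 v14; ok v20 && (
  let v21 := mul x1 v20; ok v21 && (
  let v22 := sub v0 v21; ok v22 && (
  let v23 := add v0 v21; ok v23 && (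
  let v24 := mul v4 v11; ok v24 && (
  let v25 := mul v20 v20; ok v25 && (
  let v26 := scale ⟨10774999203840, 0, 0, 0⟩ v10; ok v26 && (
  let v27 := scale ⟨45768245248, 0, 0, 0⟩ v26; ok v27 && (
  let v28 := cst ⟨183207198720, 0, 0, 0⟩; ok v28 && (
  let v29 := add v27 v28; ok v29 && (
  let v30 := mul v26 v29; ok v30 && (
  let v31 := add v7 v30; ok v31 && (
  let v32 := mul v26 v31; ok v32 && (
  let v33 := add v0 v32; ok v33 && (
  let v34 := mul v26 v33; ok v34 && (
  let v35 := scale ⟨549755813888, 0, 0, 0⟩ v34; ok v35 && (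
  let v36 := add v0 v35; ok v36 && (
  let v37 := mul v33 v36; ok v37 && (
  let v38 := mul v16 v21; ok v38 && (
  let v39 := scale ⟨2199023255552, 0, 0, 0⟩ v18; ok v39 && (
  let v40 := add v38 v39; ok v40 && (
  let v41 := add v40 v4; ok v41 && (
  let v42 := mul v24 v41; ok v42 && (
  let v43 := add v42 v0; ok v43 && (
  let v44 := mul v16 v16; ok v44 && (
  let v45 := scale ⟨2199023255552, 0, 0, 0⟩ v44; ok v45 && (
  let v46 := add v45 v0; ok v46 && (
  let v47 := mul v18 v41; ok v47 && (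
  let v48 := sub v47 v0; ok v48 && (
  let v49 := log v43; ok v49 && (
  let v50 := scale ⟨549755813888, 0, 0, 0⟩ v49; ok v50 && (
  let v51 := exp v50; ok v51 && (
  let v52 := cst ⟨3298534883328, 0, 0, 0⟩; ok v52 && (
  let v53 := inv v52; ok v53 && (
  let v54 := mul v0 v53; ok v54 && (
  let v55 := cst ⟨2199023255552, 0, 0, 0⟩; ok v55 && (
  let v56 := add v42 v55; ok v56 && (
  let v57 := inv v56; ok v57 && (
  let v58 := mul v42 v57; ok v58 && (
  let v59 := mul v58 v58; ok v59 && (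
  let v60 := sub v0 v58; ok v60 && (
  let v61 := mul v59 v54; ok v61 && (
  let v62 := add v0 v61; ok v62 && (
  let v63 := mul v60 v62; ok v63 && (
  let v64 := mul v59 v59; ok v64 && (
  let v65 := scale ⟨219915747328, 0, 0, 0⟩ v64; ok v65 && (
  let v66 := mul v41 v63; ok v66 && (
  let v67 := scale ⟨549755813888, 0, 0, 0⟩ v66; ok v67 && (
  let v68 := mul v41 v65; ok v68 && (
  let v69 := scale ⟨549755813888, 0, 0, 0⟩ v68; ok v69 && (
  let v70 := add v67 v69; ok v70 && (
  let v71 := mul v18 v48; ok v71 && (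
  let v72 := scale ⟨4398046511104, 0, 0, 0⟩ v71; ok v72 && (
  let v73 := mul v18 v24; ok v73 && (
  let v74 := mul v73 v48; ok v74 && (
  let v75 := scale ⟨4398046511104, 0, 0, 0⟩ v74; ok v75 && (
  let v76 := add v75 v55; ok v76 && (
  let v77 := inv v76; ok v77 && (
  let v78 := mul v75 v77; ok v78 && (
  let v79 := mul v78 v78; ok v79 && (
  let v80 := sub v0 v78; ok v80 && (
  let v81 := mul v79 v54; ok v81 && (
  let v82 := add v0 v81; ok v82 && (
  let v83 := mul v80 v82; ok v83 && (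
  let v84 := mul v79 v79; ok v84 && (
  let v85 := scale ⟨219915747328, 0, 0, 0⟩ v84; ok v85 && (
  let v86 := mul v72 v83; ok v86 && (
  let v87 := scale ⟨549755813888, 0, 0, 0⟩ v86; ok v87 && (
  let v88 := sub v87 v70; ok v88 && (
  let v89 := mul v72 v85; ok v89 && (
  let v90 := scale ⟨549755813888, 0, 0, 0⟩ v89; ok v90 && (
  let v91 := add v90 v69; ok v91 && (
  let v92 := add v88 v91; ok v92 && (
  let v93 := mul v3 v67; ok v93 && (
  let v94 := neg v93; ok v94 && (
  let v95 := exp v94; ok v95 && (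
  let v96 := mul v3 v69; ok v96 && (
  let v97 := mul v95 v96; ok v97 && (
  let v98 := mul v3 v88; ok v98 && (
  let v99 := neg v98; ok v99 && (
  let v100 := exp v99; ok v100 && (
  let v101 := mul v3 v91; ok v101 && (
  let v102 := mul v100 v101; ok v102 && (
  let v103 := mul v21 v16; ok v103 && (
  let v104 := add v18 v103; ok v104 && (
  let v105 := inv v104; ok v105 && (
  let v106 := mul v23 v105; ok v106 && (
  let v107 := mul v22 v4; ok v107 && (
  let v108 := mul v107 v106; ok v108 && (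
  let v109 := sub v0 v11; ok v109 && (
  let v110 := mul v25 v109; ok v110 && (
  let v111 := mul v8 v8; ok v111 && (
  let v112 := sub v0 v25; ok v112 && (
  let v113 := mul v109 v112; ok v113 && (
  let v114 := mul v24 v48; ok v114 && (
  let v115 := inv v43; ok v115 && (
  let v116 := mul v114 v115; ok v116 && (
  let v117 := add v18 v116; ok v117 && (
  let v118 := mul v43 v117; ok v118 && (
  let v119 := mul v118 v118; ok v119 && (
  let v120 := inv v119; ok v120 && (
  let v121 := mul v113 v120; ok v121 && (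
  let v122 := add v18 v24; ok v122 && (
  let v123 := mul v0 v122; ok v123 && (
  let v124 := inv v123; ok v124 && (
  let v125 := mul x0 v124; ok v125 && (
  let v126 := mul v125 v125; ok v126 && (
  let v127 := mul v126 v113; ok v127 && (
  let v128 := cst ⟨45812285440, 0, 0, 0⟩; ok v128 && (
  let v129 := scale ⟨1527119872, 0, 0, 0⟩ v127; ok v129 && (
  let v130 := sub v128 v129; ok v130 && (
  let v131 := mul v127 v130; ok v131 && (
  let v132 := sub v7 v131; ok v132 && (
  let v133 := mul v127 v132; ok v133 && (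
  let v134 := sub v0 v133; ok v134 && (
  let v135 := add v95 v0; ok v135 && (
  let v136 := mul v95 v95; ok v136 && (
  let v137 := add v136 v0; ok v137 && (
  let v138 := mul v95 v134; ok v138 && (
  let v139 := scale ⟨2199023255552, 0, 0, 0⟩ v138; ok v139 && (
  let v140 := add v137 v139; ok v140 && (
  let v141 := scale ⟨4398046511104, 0, 0, 0⟩ v97; ok v141 && (
  let v142 := sub v140 v141; ok v142 && (
  let v143 := inv v135; ok v143 && (
  let v144 := mul v142 v143; ok v144 && (
  let v145 := add v144 v135; ok v145 && (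
  let v146 := mul v95 v108; ok v146 && (
  let v147 := scale ⟨549755813888, 0, 0, 0⟩ v146; ok v147 && (
  let v148 := mul v147 v145; ok v148 && (
  let v149 := sub v142 v148; ok v149 && (
  isPos 4 v142 && (
  isPos 4 v149 && (
  let v150 := mul v3 v70; ok v150 && (
  let v151 := scale ⟨2199023255552, 0, 0, 0⟩ v150; ok v151 && (
  let v152 := scale ⟨183274307584, 0, 0, 0⟩ v151; ok v152 && (
  let v153 := sub v7 v152; ok v153 && (
  let v154 := mul v151 v153; ok v154 && (
  let v155 := sub v0 v154; ok v155 && (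
  let v156 := mul v70 v155; ok v156 && (
  let v157 := inv v149; ok v157 && (
  let v158 := mul v156 v157; ok v158 && (
  let v159 := mul v3 v158; ok v159 && (
  let v160 := add v159 v7; ok v160 && (
  let v161 := inv v160; ok v161 && (
  let v162 := mul v158 v161; ok v162 && (
  let v163 := mul v3 v162; ok v163 && (
  let v164 := mul v108 v163; ok v164 && (
  let v165 := scale ⟨549755813888, 0, 0, 0⟩ v164; ok v165 && (
  let v166 := sub v0 v165; ok v166 && (
  let v167 := sub v0 v164; ok v167 && (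
  let v168 := inv v167; ok v168 && (
  let v169 := mul v166 v168; ok v169 && (
  let v170 := add v164 v0; ok v170 && (
  let v171 := mul v95 v170; ok v171 && (
  let v172 := mul v106 v169; ok v172 && (
  let v173 := mul x1 v162; ok v173 && (
  let v174 := mul v172 v173; ok v174 && (
  let v175 := mul v164 v169; ok v175 && (
  isPos 4 v167 && (
  let v176 := mul v22 v23; ok v176 && (
  let v177 := add v18 v4; ok v177 && (
  let v178 := mul v21 v18; ok v178 && (
  let v179 := mul v178 v16; ok v179 && (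
  let v180 := scale ⟨2199023255552, 0, 0, 0⟩ v179; ok v180 && (
  let v181 := add v46 v180; ok v181 && (
  let v182 := mul v177 v181; ok v182 && (
  let v183 := inv v182; ok v183 && (
  let v184 := mul v176 v183; ok v184 && (
  let v185 := mul v4 v184; ok v185 && (
  isPos 4 v88 && (
  let v186 := mul v127 v115; ok v186 && (
  let v187 := scale ⟨1527119872, 0, 0, 0⟩ v186; ok v187 && (
  let v188 := sub v128 v187; ok v188 && (
  let v189 := mul v186 v188; ok v189 && (
  let v190 := sub v7 v189; ok v190 && (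
  let v191 := mul v186 v190; ok v191 && (
  let v192 := sub v0 v191; ok v192 && (
  let v193 := add v100 v0; ok v193 && (
  let v194 := mul v100 v100; ok v194 && (
  let v195 := add v194 v0; ok v195 && (
  let v196 := mul v100 v192; ok v196 && (
  let v197 := scale ⟨2199023255552, 0, 0, 0⟩ v196; ok v197 && (
  let v198 := add v195 v197; ok v198 && (
  let v199 := scale ⟨4398046511104, 0, 0, 0⟩ v102; ok v199 && (
  let v200 := sub v198 v199; ok v200 && (
  let v201 := inv v193; ok v201 && (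
  let v202 := mul v200 v201; ok v202 && (
  let v203 := add v202 v193; ok v203 && (
  let v204 := mul v100 v185; ok v204 && (
  let v205 := scale ⟨549755813888, 0, 0, 0⟩ v204; ok v205 && (
  let v206 := mul v205 v203; ok v206 && (
  let v207 := sub v200 v206; ok v207 && (
  isPos 4 v200 && (
  isPos 4 v207 && (
  let v208 := mul v3 v92; ok v208 && (
  let v209 := scale ⟨2199023255552, 0, 0, 0⟩ v208; ok v209 && (
  let v210 := scale ⟨183274307584, 0, 0, 0⟩ v209; ok v210 && (
  let v211 := sub v7 v210; ok v211 && (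
  let v212 := mul v209 v211; ok v212 && (
  let v213 := sub v0 v212; ok v213 && (
  let v214 := mul v92 v213; ok v214 && (
  let v215 := inv v207; ok v215 && (
  let v216 := mul v214 v215; ok v216 && (
  let v217 := mul v3 v216; ok v217 && (
  let v218 := add v217 v7; ok v218 && (
  let v219 := inv v218; ok v219 && (
  let v220 := mul v216 v219; ok v220 && (
  let v221 := mul v3 v220; ok v221 && (
  let v222 := mul v185 v221; ok v222 && (
  let v223 := mul x1 v220; ok v223 && (
  let v224 := add v10 v0; ok v224 && (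
  let v225 := inv v224; ok v225 && (
  let v226 := mul v10 v225; ok v226 && (
  let v227 := scale ⟨2199023255552, 0, 0, 0⟩ v226; ok v227 && (
  let v228 := sub v0 v227; ok v228 && (
  let v229 := sub v0 v10; ok v229 && (
  let v230 := mul x3 v225; ok v230 && (
  let v231 := mul v230 v228; ok v231 && (
  let v232 := add v23 v231; ok v232 && (
  let v233 := scale ⟨224412041216, 0, 0, 0⟩ v14; ok v233 && (
  let v234 := inv v37; ok v234 && (
  let v235 := mul v233 v234; ok v235 && (
  let v236 := scale ⟨4398046511104, 0, 0, 0⟩ v0; ok v236 && (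
  let v237 := mul x0 v20; ok v237 && (
  let v238 := add v236 v237; ok v238 && (
  let v239 := scale ⟨549755813888, 0, 0, 0⟩ v238; ok v239 && (
  let v240 := inv v239; ok v240 && (
  let v241 := mul x0 v240; ok v241 && (
  let v242 := mul v0 v240; ok v242 && (
  let v243 := mul v242 v23; ok v243 && (
  let v244 := mul v243 v235; ok v244 && (
  let v245 := mul v241 v23; ok v245 && (
  let v246 := mul v245 v235; ok v246 && (
  let v247 := sub v0 v246; ok v247 && (
  let v248 := inv v247; ok v248 && (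
  let v249 := mul v171 v246; ok v249 && (
  let v250 := sub v0 v249; ok v250 && (
  let v251 := inv v250; ok v251 && (
  let v252 := mul v22 x0; ok v252 && (
  let v253 := mul v252 v162; ok v253 && (
  let v254 := inv v20; ok v254 && (
  let v255 := mul v253 v254; ok v255 && (
  let v256 := scale ⟨549755813888, 0, 0, 0⟩ v255; ok v256 && (
  let v257 := sub v0 v256; ok v257 && (
  let v258 := sub v0 v255; ok v258 && (
  let v259 := inv v258; ok v259 && (
  let v260 := mul v257 v259; ok v260 && (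
  let v261 := mul v173 v260; ok v261 && (
  let v262 := mul v255 v260; ok v262 && (
  let v263 := mul v262 v5; ok v263 && (
  isPos 4 v258 && (
  let v264 := scale ⟨1374389534720, 0, 0, 0⟩ v263; ok v264 && (
  let v265 := sub v7 v264; ok v265 && (
  isPos 4 v265 && (
  let v266 := scale ⟨3092376453120, 0, 0, 0⟩ v263; ok v266 && (
  let v267 := add v266 v55; ok v267 && (
  let v268 := mul v263 v267; ok v268 && (
  let v269 := add v0 v268; ok v269 && (
  let v270 := scale ⟨1546188226560, 0, 0, 0⟩ v263; ok v270 && (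
  let v271 := add v270 v0; ok v271 && (
  let v272 := mul v263 v271; ok v272 && (
  let v273 := add v0 v272; ok v273 && (
  let v274 := mul v10 v20; ok v274 && (
  let v275 := sub v0 v110; ok v275 && (
  let v276 := mul v10 v21; ok v276 && (
  let v277 := scale ⟨2199023255552, 0, 0, 0⟩ v276; ok v277 && (
  let v278 := sub v275 v277; ok v278 && (
  let v279 := mul v274 v274; ok v279 && (
  let v280 := add v278 v279; ok v280 && (
  let v281 := add v280 v0; ok v281 && (
  let v282 := scale ⟨549755813888, 0, 0, 0⟩ v281; ok v282 && (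
  let v283 := scale ⟨549755813888, 0, 0, 0⟩ v24; ok v283 && (
  let v284 := sub v14 v283; ok v284 && (
  let v285 := mul v111 v275; ok v285 && (
  let v286 := mul v285 v13; ok v286 && (
  let v287 := scale ⟨137438953472, 0, 0, 0⟩ v286; ok v287 && (
  let v288 := add v284 v287; ok v288 && (
  let v289 := mul v282 v288; ok v289 && (
  let v290 := add v171 v0; ok v290 && (
  let v291 := mul v290 v248; ok v291 && (
  let v292 := mul v171 v251; ok v292 && (
  let v293 := add v291 v292; ok v293 && (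
  let v294 := mul v246 v293; ok v294 && (
  let v295 := add v175 v294; ok v295 && (
  let v296 := mul v295 v5; ok v296 && (
  let v297 := mul v290 v246; ok v297 && (
  let v298 := mul v297 v248; ok v298 && (
  let v299 := add v175 v298; ok v299 && (
  let v300 := mul v299 v5; ok v300 && (
  let v301 := scale ⟨223338299392, 0, 0, 0⟩ v300; ok v301 && (
  let v302 := add v7 v301; ok v302 && (
  let v303 := mul v300 v302; ok v303 && (
  let v304 := add v0 v303; ok v304 && (
  let v305 := scale ⟨893353197568, 0, 0, 0⟩ v296; ok v305 && (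
  let v306 := add v0 v305; ok v306 && (
  let v307 := mul v296 v306; ok v307 && (
  let v308 := add v0 v307; ok v308 && (
  let v309 := mul v227 v230; ok v309 && (
  let v310 := mul v309 v269; ok v310 && (
  let v311 := mul v310 v308; ok v311 && (
  let v312 := mul v289 v304; ok v312 && (
  let v313 := add v51 v7; ok v313 && (
  let v314 := mul v311 v313; ok v314 && (
  let v315 := add v312 v314; ok v315 && (
  let v316 := add v51 v0; ok v316 && (
  let v317 := mul v311 v316; ok v317 && (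
  let v318 := mul v273 v316; ok v318 && (
  let v319 := mul v318 v230; ok v319 && (
  let v320 := mul v319 v229; ok v320 && (
  let v321 := mul v315 v174; ok v321 && (
  let v322 := mul v320 v261; ok v322 && (
  let v323 := add v321 v322; ok v323 && (
  let v324 := mul x1 v232; ok v324 && (
  let v325 := inv v51; ok v325 && (
  let v326 := mul v324 v325; ok v326 && (
  let v327 := scale ⟨549755813888, 0, 0, 0⟩ v326; ok v327 && (
  let v328 := mul v22 v327; ok v328 && (
  let v329 := add v328 v323; ok v329 && (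
  let v330 := mul v4 v329; ok v330 && (
  let v331 := mul v0 v330; ok v331 && (
  let v332 := mul v315 v290; ok v332 && (
  let v333 := mul v332 v248; ok v333 && (
  let v334 := mul v317 v171; ok v334 && (
  let v335 := mul v334 v251; ok v335 && (
  let v336 := add v333 v335; ok v336 && (
  let v337 := mul v22 v331; ok v337 && (
  let v338 := mul v244 v336; ok v338 && (
  let v339 := add v337 v338; ok v339 && (
  let v340 := mul v111 v339; ok v340 && (
  let v341 := mul v340 v325; ok v341 && (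
  let v342 := sub v0 v341; ok v342 && (
  let v343 := inv v342; ok v343 && (
  let v344 := mul v339 v343; ok v344 && (
  let v345 := mul v4 v344; ok v345 && (
  let v346 := mul v111 v344; ok v346 && (
  let v347 := mul v346 v325; ok v347 && (
  let v348 := sub v0 v347; ok v348 && (
  let v349 := mul v48 v348; ok v349 && (
  let v350 := sub v349 v345; ok v350 && (
  let v351 := inv v350; ok v351 && (
  let v352 := mul v345 v351; ok v352 && (
  let v353 := sub v51 v346; ok v353 && (
  let v354 := inv v353; ok v354 && (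
  let v355 := mul v352 v221; ok v355 && (
  let v356 := scale ⟨549755813888, 0, 0, 0⟩ v355; ok v356 && (
  let v357 := sub v0 v356; ok v357 && (
  let v358 := sub v0 v355; ok v358 && (
  let v359 := inv v358; ok v359 && (
  let v360 := mul v357 v359; ok v360 && (
  let v361 := mul x1 v354; ok v361 && (
  let v362 := mul v223 v351; ok v362 && (
  let v363 := mul v362 v360; ok v363 && (
  let v364 := add v361 v363; ok v364 && (
  let v365 := mul v6 v344; ok v365 && (
  let v366 := mul v354 v365; ok v366 && (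
  let v367 := mul v221 v351; ok v367 && (
  let v368 := mul v367 v360; ok v368 && (
  let v369 := mul v368 v345; ok v369 && (
  let v370 := add v366 v369; ok v370 && (
  let v371 := scale ⟨223338299392, 0, 0, 0⟩ v370; ok v371 && (
  let v372 := add v7 v371; ok v372 && (
  let v373 := mul v370 v372; ok v373 && (
  let v374 := add v0 v373; ok v374 && (
  let v375 := mul v364 v374; ok v375 && (
  let v376 := mul v375 v343; ok v376 && (
  let v377 := mul v376 v336; ok v377 && (
  let v378 := mul v245 v22; ok v378 && (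
  let v379 := cst ⟨5497558138880, 0, 0, 0⟩; ok v379 && (
  let v380 := inv v379; ok v380 && (
  let v381 := mul v52 v380; ok v381 && (
  let v382 := mul v224 v23; ok v382 && (
  let v383 := mul v382 v381; ok v383 && (
  let v384 := mul v177 v105; ok v384 && (
  let v385 := mul v21 v384; ok v385 && (
  let v386 := scale ⟨549755813888, 0, 0, 0⟩ v222; ok v386 && (
  let v387 := sub v0 v386; ok v387 && (
  let v388 := sub v0 v222; ok v388 && (
  let v389 := inv v388; ok v389 && (
  let v390 := mul v387 v389; ok v390 && (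
  let v391 := mul v390 v185; ok v391 && (
  let v392 := mul v111 v121; ok v392 && (
  let v393 := scale ⟨733097230336, 0, 0, 0⟩ v392; ok v393 && (
  let v394 := sub v0 v393; ok v394 && (
  let v395 := mul v121 v394; ok v395 && (
  let v396 := mul v88 v88; ok v396 && (
  let v397 := mul v11 v396; ok v397 && (
  let v398 := add v395 v397; ok v398 && (
  let v399 := mul v391 v223; ok v399 && (
  let v400 := add v398 v0; ok v400 && (
  let v401 := mul v399 v400; ok v401 && (
  let v402 := sub v398 v401; ok v402 && (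
  let v403 := scale ⟨366548615168, 0, 0, 0⟩ v44; ok v403 && (
  let v404 := sub v0 v403; ok v404 && (
  let v405 := mul v25 v404; ok v405 && (
  let v406 := add v402 v405; ok v406 && (
  let v407 := mul v384 v406; ok v407 && (
  let v408 := mul v385 v385; ok v408 && (
  let v409 := add v0 v408; ok v409 && (
  let v410 := inv v409; ok v410 && (
  let v411 := mul v407 v410; ok v411 && (
  let v412 := sub v0 v352; ok v412 && (
  let v413 := mul v412 v411; ok v413 && (
  let v414 := sub v0 v399; ok v414 && (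
  isPos 4 v414 && (
  isPos 4 v411 && (
  isPos 4 v412 && (
  let v415 := mul v376 v239; ok v415 && (
  let v416 := mul v415 v329; ok v416 && (
  let v417 := inv v23; ok v417 && (
  let v418 := mul v416 v417; ok v418 && (
  let v419 := mul v3 v413; ok v419 && (
  let v420 := scale ⟨549755813888, 0, 0, 0⟩ v419; ok v420 && (
  let v421 := sub v0 v420; ok v421 && (
  let v422 := mul v413 v421; ok v422 && (
  let v423 := neg v422; ok v423 && (
  let v424 := mul x1 x3; ok v424 && (
  let v425 := mul v424 v224; ok v425 && (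
  let v426 := mul v425 v14; ok v426 && (
  let v427 := mul v2 v426; ok v427 && (
  let v428 := add v423 v427; ok v428 && (
  let v429 := mul v423 v427; ok v429 && (
  let v430 := mul v3 v429; ok v430 && (
  let v431 := add v428 v430; ok v431 && (
  let v432 := mul v11 v41; ok v432 && (
  let v433 := scale ⟨412316860416, 0, 0, 0⟩ v42; ok v433 && (
  let v434 := sub v7 v433; ok v434 && (
  let v435 := mul v432 v434; ok v435 && (
  let v436 := mul v2 v435; ok v436 && (
  let v437 := neg v436; ok v437 && (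
  let v438 := add v431 v437; ok v438 && (
  let v439 := mul v431 v437; ok v439 && (
  let v440 := mul v3 v439; ok v440 && (
  let v441 := add v438 v440; ok v441 && (
  let v442 := mul x1 v344; ok v442 && (
  let v443 := mul v442 v417; ok v443 && (
  let v444 := mul v2 v443; ok v444 && (
  let v445 := add v441 v444; ok v445 && (
  let v446 := mul v441 v444; ok v446 && (
  let v447 := mul v3 v446; ok v447 && (
  let v448 := add v445 v447; ok v448 && (
  let v449 := mul v2 v383; ok v449 && (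
  let v450 := sub v448 v449; ok v450 && (
  let v451 := mul v4 v383; ok v451 && (
  let v452 := add v0 v451; ok v452 && (
  let v453 := inv v452; ok v453 && (
  let v454 := mul v450 v453; ok v454 && (
  let v455 := mul x1 v8; ok v455 && (
  let v456 := mul v455 v344; ok v456 && (
  let v457 := mul v456 v354; ok v457 && (
  let v458 := mul v2 v457; ok v458 && (
  let v459 := add v454 v458; ok v459 && (
  let v460 := mul v454 v458; ok v460 && (
  let v461 := mul v3 v460; ok v461 && (
  let v462 := add v459 v461; ok v462 && (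
  let v463 := mul v3 v462; ok v463 && (
  let v464 := add v0 v463; ok v464 && (
  let v465 := mul v377 v246; ok v465 && (
  let v466 := mul v4 v378; ok v466 && (
  let v467 := mul v418 v466; ok v467 && (
  let v468 := add v465 v467; ok v468 && (
  let v469 := mul v2 v468; ok v469 && (
  let v470 := add v377 v418; ok v470 && (
  let v471 := mul v2 v470; ok v471 && (
  let v472 := mul v469 v464; ok v472 && (
  let v473 := add v462 v472; ok v473 && (
  let v474 := add v473 v471; ok v474 && (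
  let v475 := neg v474; ok v475 && (
  let v476 := scale ⟨1073741824, 0, 0, 0⟩ v2; ok v476 && (
  let v477 := sub v475 v476; ok v477 && (
  let v478 := sub v19 v0; ok v478 && (
  let v479 := add v478 v55; ok v479 && (
  let v480 := scale ⟨2199023255552, 0, 0, 0⟩ v381; ok v480 && (
  let v481 := sub v479 v480; ok v481 && (
  let v482 := mul v224 v481; ok v482 && (
  let v483 := mul v478 v480; ok v483 && (
  let v484 := add v483 v0; ok v484 && (
  let v485 := inv v484; ok v485 && (
  let v486 := mul v482 v485; ok v486 && (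
  let v487 := mul v242 v336; ok v487 && (
  let v488 := scale ⟨549755813888, 0, 0, 0⟩ v235; ok v488 && (
  let v489 := add v16 v488; ok v489 && (
  let v490 := mul v487 v489; ok v490 && (
  let v491 := scale ⟨2199023255552, 0, 0, 0⟩ v490; ok v491 && (
  let v492 := add v331 v491; ok v492 && (
  let v493 := scale ⟨2199023255552, 0, 0, 0⟩ v492; ok v493 && (
  let v494 := mul v493 v343; ok v494 && (
  let v495 := mul v8 v344; ok v495 && (
  let v496 := sub v23 v495; ok v496 && (
  let v497 := inv v496; ok v497 && (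
  let v498 := mul v494 v497; ok v498 && (
  let v499 := sub v486 v498; ok v499 && (
  let v500 := mul v237 v237; ok v500 && (
  let v501 := cst ⟨14293651161088, 0, 0, 0⟩; ok v501 && (
  let v502 := cst ⟨10995116277760, 0, 0, 0⟩; ok v502 && (
  let v503 := inv v502; ok v503 && (
  let v504 := mul v501 v503; ok v504 && (
  let v505 := mul v500 v504; ok v505 && (
  let v506 := mul v0 v0; ok v506 && (
  let v507 := scale ⟨27487790694400, 0, 0, 0⟩ v506; ok v507 && (
  let v508 := add v505 v507; ok v508 && (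
  let v509 := mul v383 v453; ok v509 && (
  let v510 := sub v39 v4; ok v510 && (
  let v511 := sub v510 v38; ok v511 && (
  let v512 := mul v3 v0; ok v512 && (
  let v513 := mul v23 v336; ok v513 && (
  let v514 := mul v513 v240; ok v514 && (
  let v515 := add v323 v514; ok v515 && (
  let v516 := add v495 v55; ok v516 && (
  let v517 := mul x0 v516; ok v517 && (
  let v518 := mul v508 v509; ok v518 && (
  let v519 := mul v343 v517; ok v519 && (
  let v520 := mul v512 v515; ok v520 && (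
  let v521 := mul v519 v520; ok v521 && (
  let v522 := sub v518 v521; ok v522 && (
  let v523 := scale ⟨549755813888, 0, 0, 0⟩ v495; ok v523 && (
  let v524 := add v0 v523; ok v524 && (
  let v525 := mul v343 v524; ok v525 && (
  let v526 := mul v4 v22; ok v526 && (
  let v527 := mul v526 v232; ok v527 && (
  let v528 := mul v23 v51; ok v528 && (
  let v529 := inv v528; ok v529 && (
  let v530 := mul v527 v529; ok v530 && (
  let v531 := mul v525 v530; ok v531 && (
  let v532 := sub v511 v531; ok v532 && (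
  let v533 := mul v235 v522; ok v533 && (
  let v534 := sub v0 v235; ok v534 && (
  let v535 := mul v11 v532; ok v535 && (
  let v536 := mul v534 v535; ok v536 && (
  let v537 := mul v508 v536; ok v537 && (
  let v538 := add v533 v537; ok v538 && (
  isPos 4 v247 && (
  isPos 4 v250 && (
  let v539 := scale ⟨2199023255552, 0, 0, 0⟩ v340; ok v539 && (
  let v540 := sub v51 v539; ok v540 && (
  isPos 4 v540 && (
  isPos 4 v350 && (
  let v541 := sub v7 v222; ok v541 && (
  isPos 4 v541 && (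
  let v542 := scale ⟨687194767360, 0, 0, 0⟩ v0; ok v542 && (
  let v543 := sub v542 v300; ok v543 && (
  isPos 4 v543 && (
  let v544 := scale ⟨377957122048, 0, 0, 0⟩ v0; ok v544 && (
  let v545 := sub v544 v296; ok v545 && (
  isPos 4 v545 && (
  isPos 4 v496 && (
  isPos 4 v358 && (
  let v546 := sub v542 v370; ok v546 && (
  isPos 4 v546 && (
  isPos 4 v499 && (
  isPos 4 v477 && (
  isPos 4 v538 && (
  isPos 4 v532 && (
  true))))))))))))))))))))))))))))))))))))))))))))))))))))))))))))))))))))))))))))))))))))))))))))))))))))))))))))))))))))))))))))))))))))))))))))))))))))))))))))))))))))))))))))))))))))))))))))))))))))))))))))))))))))))))))))))))))))))))))))))))))))))))))))))))))))))))))))))))))))))))))))))))))))))))))))))))))))))))))))))))))))))))))))))))))))))))))))))))))))))))))))))))))))))))))))))))))))))))))))))))))))))))))))))))))))))))))))))))))))))))))))))))))))))))))))))))))))))))))))))))))))))))))))))))))))))))))))))))))))))))))))))))))))))))))))))))))))))))))))))))))))))))))))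
  | _ => false

set_option maxRecDepth 1000000 in
theorem chk0_eq (O : Ops) (m : List O.α)
    (h : chk0 O.cst O.add O.sub O.mul O.scale O.neg O.inv O.exp O.log O.ok O.isPos O.isLt m = true) :
    runG O 4 prog0 m = true := by
  match m, h with
  | [x0, x1, x2, x3], h => exact h

def chkB0 : List opsE.α → Bool :=
  chk0 opsE.cst opsE.add opsE.sub opsE.mul opsE.scale opsE.neg opsE.inv opsE.exp opsE.log opsE.ok opsE.isPos opsE.isLt

theorem chkB0_eq (m : List opsE.α) (h : chkB0 m = true) : runG opsE 4 prog0 m = true :=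
  chk0_eq opsE m h

def prog1 : List Op := [
  .const ⟨1099511627776, 0, 0, 0⟩,
  .mul 2 3,
  .mul 4 4,
  .mul 3 4,
  .mul 0 1,
  .mul 3 3,
  .mul 1 2,
  .const ⟨549755813888, 0, 0, 0⟩,
  .mul 3 9,
  .mul 0 12,
  .scale ⟨549755813888, 0, 0, 0⟩ 0,
  .mul 12 12,
  .mul 1 1,
  .sub 12 0,
  .inv 0,
  .mul 4 0,
  .scale ⟨2199023255552, 0, 0, 0⟩ 0,
  .scale ⟨2199023255552, 0, 0, 0⟩ 2,
  .sub 0 17,
  .add 0 2,
  .mul 23 5,
  .mul 22 0,
  .sub 21 0,
  .add 22 1,
  .mul 19 12,
  .mul 4 4,
  .scale ⟨10774999203840, 0, 0, 0⟩ 15,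
  .scale ⟨45768245248, 0, 0, 0⟩ 0,
  .const ⟨183207198720, 0, 0, 0⟩,
  .add 1 0,
  .mul 3 0,
  .add 23 0,
  .mul 5 0,
  .add 32 0,
  .mul 7 0,
  .scale ⟨549755813888, 0, 0, 0⟩ 0,
  .add 35 0,
  .mul 3 0,
  .mul 21 16,
  .scale ⟨2199023255552, 0, 0, 0⟩ 20,
  .add 1 0,
  .add 0 36,
  .mul 17 0,
  .add 0 42,
  .mul 27 27,
  .scale ⟨2199023255552, 0, 0, 0⟩ 0,
  .add 0 45,
  .mul 28 5,
  .sub 0 47,
  .log 5,
  .scale ⟨549755813888, 0, 0, 0⟩ 0,
  .exp 0,
  .const ⟨3298534883328, 0, 0, 0⟩,
  .inv 0,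
  .mul 53 0,
  .const ⟨2199023255552, 0, 0, 0⟩,
  .add 13 0,
  .inv 0,
  .mul 15 0,
  .mul 0 0,
  .sub 59 1,
  .mul 1 6,
  .add 61 0,
  .mul 2 0,
  .mul 4 4,
  .scale ⟨219915747328, 0, 0, 0⟩ 0,
  .mul 24 2,
  .scale ⟨549755813888, 0, 0, 0⟩ 0,
  .mul 26 2,
  .scale ⟨549755813888, 0, 0, 0⟩ 0,
  .add 2 0,
  .mul 52 22,
  .scale ⟨4398046511104, 0, 0, 0⟩ 0,
  .mul 54 48,
  .mul 0 25,
  .scale ⟨4398046511104, 0, 0, 0⟩ 0,
  .add 0 20,
  .inv 0,
  .mul 2 0,
  .mul 0 0,
  .sub 79 1,
  .mul 1 26,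
  .add 81 0,
  .mul 2 0,
  .mul 4 4,
  .scale ⟨219915747328, 0, 0, 0⟩ 0,
  .mul 13 2,
  .scale ⟨549755813888, 0, 0, 0⟩ 0,
  .sub 0 17,
  .mul 16 3,
  .scale ⟨549755813888, 0, 0, 0⟩ 0,
  .add 0 21,
  .add 3 0,
  .mul 89 25,
  .neg 0,
  .exp 0,
  .mul 92 26,
  .mul 1 0,
  .mul 94 9,
  .neg 0,
  .exp 0,
  .mul 97 9,
  .mul 1 0,
  .mul 81 86,
  .add 85 0,
  .inv 0,
  .mul 82 0,
  .mul 84 102,
  .mul 0 1,
  .sub 108 97,
  .mul 84 0,
  .mul 102 102,
  .sub 111 86,
  .mul 3 0,
  .mul 89 65,
  .inv 71,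
  .mul 1 0,
  .add 98 0,
  .mul 74 0,
  .mul 0 0,
  .inv 0,
  .mul 7 0,
  .add 103 97,
  .mul 122 0,
  .inv 0,
  .mul 125 0,
  .mul 0 0,
  .mul 0 13,
  .const ⟨45812285440, 0, 0, 0⟩,
  .scale ⟨1527119872, 0, 0, 0⟩ 1,
  .sub 1 0,
  .mul 3 0,
  .sub 124 0,
  .mul 5 0,
  .sub 133 0,
  .add 39 134,
  .mul 40 40,
  .add 0 136,
  .mul 42 3,
  .scale ⟨2199023255552, 0, 0, 0⟩ 0,
  .add 2 0,
  .scale ⟨4398046511104, 0, 0, 0⟩ 43,
  .sub 1 0,
  .inv 7,
  .mul 1 0,
  .add 0 9,
  .mul 50 37,
  .scale ⟨549755813888, 0, 0, 0⟩ 0,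
  .mul 0 2,
  .sub 6 0,
  .pos 7,
  .pos 0,
  .mul 146 79,
  .scale ⟨2199023255552, 0, 0, 0⟩ 0,
  .scale ⟨183274307584, 0, 0, 0⟩ 0,
  .sub 145 0,
  .mul 2 0,
  .sub 154 0,
  .mul 85 0,
  .inv 7,
  .mul 1 0,
  .mul 155 0,
  .add 0 152,
  .inv 0,
  .mul 3 0,
  .mul 159 0,
  .mul 55 0,
  .scale ⟨549755813888, 0, 0, 0⟩ 0,
  .sub 165 0,
  .sub 166 2,
  .inv 0,
  .mul 2 0,
  .add 5 169,
  .mul 75 0,
  .mul 65 2,
  .mul 174 10,
  .mul 1 0,
  .mul 10 5,
  .pos 8,
  .mul 153 152,
  .add 158 172,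
  .mul 156 159,
  .mul 0 162,
  .scale ⟨2199023255552, 0, 0, 0⟩ 0,
  .add 134 0,
  .mul 4 0,
  .inv 0,
  .mul 7 0,
  .mul 180 0,
  .pos 97,
  .mul 58 70,
  .scale ⟨1527119872, 0, 0, 0⟩ 0,
  .sub 59 0,
  .mul 2 0,
  .sub 182 0,
  .mul 4 0,
  .sub 191 0,
  .add 92 192,
  .mul 93 93,
  .add 0 194,
  .mul 95 3,
  .scale ⟨2199023255552, 0, 0, 0⟩ 0,
  .add 2 0,
  .scale ⟨4398046511104, 0, 0, 0⟩ 96,
  .sub 1 0,
  .inv 7,
  .mul 1 0,
  .add 0 9,
  .mul 103 18,
  .scale ⟨549755813888, 0, 0, 0⟩ 0,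
  .mul 0 2,
  .sub 6 0,
  .pos 7,
  .pos 0,
  .mul 204 115,
  .scale ⟨2199023255552, 0, 0, 0⟩ 0,
  .scale ⟨183274307584, 0, 0, 0⟩ 0,
  .sub 203 0,
  .mul 2 0,
  .sub 212 0,
  .mul 121 0,
  .inv 7,
  .mul 1 0,
  .mul 213 0,
  .add 0 210,
  .inv 0,
  .mul 3 0,
  .mul 217 0,
  .mul 36 0,
  .mul 224 2,
  .add 213 223,
  .inv 0,
  .mul 215 0,
  .scale ⟨2199023255552, 0, 0, 0⟩ 0,
  .sub 227 0,
  .sub 228 218,
  .mul 233 4,
  .mul 0 2,
  .add 208 0,
  .scale ⟨224412041216, 0, 0, 0⟩ 218,
  .inv 196,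
  .mul 1 0,
  .scale ⟨4398046511104, 0, 0, 0⟩ 235,
  .mul 237 216,
  .add 1 0,
  .scale ⟨549755813888, 0, 0, 0⟩ 0,
  .inv 0,
  .mul 241 0,
  .mul 241 1,
  .mul 0 219,
  .mul 0 8,
  .mul 3 221,
  .mul 0 10,
  .sub 246 0,
  .inv 0,
  .mul 77 2,
  .sub 249 0,
  .inv 0,
  .scale ⟨2199023255552, 0, 0, 0⟩ 246,
  .add 0 252,
  .add 248 253,
  .const ⟨893353197568, 0, 0, 0⟩,
  .const ⟨725849473024, 0, 0, 0⟩,
  .sub 0 94,
  .pos 0,
  .mul 247 237,
  .sub 258 148,
  .mul 249 238,
  .scale ⟨2199023255552, 0, 0, 0⟩ 0,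
  .sub 2 0,
  .mul 4 4,
  .add 1 0,
  .add 0 264,
  .scale ⟨549755813888, 0, 0, 0⟩ 0,
  .scale ⟨549755813888, 0, 0, 0⟩ 242,
  .sub 253 0,
  .mul 157 9,
  .mul 0 256,
  .scale ⟨137438953472, 0, 0, 0⟩ 0,
  .add 3 0,
  .mul 6 0,
  .add 102 273,
  .mul 0 26,
  .mul 104 24,
  .add 1 0,
  .mul 31 0,
  .add 103 0,
  .mul 0 274,
  .mul 6 34,
  .mul 0 33,
  .add 107 0,
  .mul 0 278,
  .scale ⟨223338299392, 0, 0, 0⟩ 0,
  .add 278 0,
  .mul 2 0,
  .add 287 0,
  .scale ⟨893353197568, 0, 0, 0⟩ 8,
  .add 289 0,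
  .mul 10 0,
  .add 291 0,
  .mul 65 62,
  .mul 0 40,
  .mul 0 2,
  .mul 22 7,
  .add 245 289,
  .mul 2 0,
  .add 2 0,
  .add 248 299,
  .mul 5 0,
  .mul 47 1,
  .mul 0 72,
  .mul 0 74,
  .mul 5 130,
  .mul 1 50,
  .add 1 0,
  .mul 309 75,
  .inv 257,
  .mul 1 0,
  .scale ⟨549755813888, 0, 0, 0⟩ 0,
  .mul 289 0,
  .add 0 5,
  .mul 309 0,
  .mul 314 0,
  .mul 16 41,
  .mul 0 68,
  .mul 16 146,
  .mul 0 67,
  .add 2 0,
  .mul 298 5,
  .mul 77 1,
  .add 1 0,
  .mul 212 0,
  .mul 0 15,
  .sub 325 0,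
  .inv 0,
  .mul 4 0,
  .mul 324 0,
  .mul 218 1,
  .mul 0 21,
  .sub 331 0,
  .mul 284 0,
  .sub 0 4,
  .inv 0,
  .mul 6 0,
  .sub 285 6,
  .inv 0,
  .mul 2 117,
  .scale ⟨549755813888, 0, 0, 0⟩ 0,
  .sub 340 0,
  .sub 341 2,
  .inv 0,
  .mul 2 0,
  .mul 346 6,
  .mul 122 10,
  .mul 0 2,
  .add 2 0,
  .mul 342 20,
  .mul 11 0,
  .mul 129 15,
  .mul 0 7,
  .mul 0 23,
  .add 3 0,
  .scale ⟨223338299392, 0, 0, 0⟩ 0,
  .add 348 0,
  .mul 2 0,
  .add 357 0,
  .mul 10 0,
  .mul 0 32,
  .mul 0 40,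
  .mul 116 339,
  .const ⟨5497558138880, 0, 0, 0⟩,
  .inv 0,
  .mul 312 0,
  .mul 141 342,
  .mul 0 1,
  .mul 190 262,
  .mul 347 0,
  .scale ⟨549755813888, 0, 0, 0⟩ 147,
  .sub 370 0,
  .sub 371 149,
  .inv 0,
  .mul 2 0,
  .mul 0 189,
  .mul 264 254,
  .scale ⟨733097230336, 0, 0, 0⟩ 0,
  .sub 377 0,
  .mul 257 0,
  .mul 291 291,
  .mul 369 0,
  .add 2 0,
  .mul 7 159,
  .add 1 383,
  .mul 1 0,
  .sub 3 0,
  .scale ⟨366548615168, 0, 0, 0⟩ 342,
  .sub 387 0,
  .mul 363 0,
  .add 3 0,
  .mul 22 0,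
  .mul 22 22,
  .add 392 0,
  .inv 0,
  .mul 3 0,
  .sub 395 59,
  .mul 0 1,
  .sub 397 14,
  .pos 0,
  .pos 3,
  .pos 2,
  .mul 38 159,
  .mul 0 86,
  .inv 377,
  .mul 1 0,
  .mul 399 5,
  .scale ⟨549755813888, 0, 0, 0⟩ 0,
  .sub 404 0,
  .mul 8 0,
  .neg 0,
  .mul 409 411,
  .mul 0 184,
  .mul 0 395,
  .mul 408 0,
  .add 4 0,
  .mul 5 1,
  .mul 410 0,
  .add 2 0,
  .mul 404 374,
  .scale ⟨412316860416, 0, 0, 0⟩ 374,
  .sub 410 0,
  .mul 2 0,
  .mul 417 0,
  .neg 0,
  .add 6 0,
  .mul 7 1,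
  .mul 420 0,
  .add 2 0,
  .mul 427 97,
  .mul 0 25,
  .mul 425 0,
  .add 3 0,
  .mul 4 1,
  .mul 427 0,
  .add 2 0,
  .mul 430 65,
  .sub 1 0,
  .mul 430 67,
  .add 435 0,
  .inv 0,
  .mul 3 0,
  .mul 440 430,
  .mul 0 111,
  .mul 0 102,
  .mul 439 0,
  .add 4 0,
  .mul 5 1,
  .mul 441 0,
  .add 2 0,
  .mul 443 0,
  .add 447 0,
  .mul 87 202,
  .mul 445 87,
  .mul 48 0,
  .add 2 0,
  .mul 450 0,
  .add 92 51,
  .mul 452 0,
  .mul 2 7,
  .add 10 0,
  .add 0 2,
  .neg 0,
  .scale ⟨1073741824, 0, 0, 0⟩ 457,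
  .sub 1 0,
  .sub 442 461,
  .add 0 407,
  .scale ⟨2199023255552, 0, 0, 0⟩ 98,
  .sub 1 0,
  .mul 241 0,
  .mul 4 2,
  .add 0 467,
  .inv 0,
  .mul 3 0,
  .mul 228 150,
  .scale ⟨549755813888, 0, 0, 0⟩ 236,
  .add 456 0,
  .mul 2 0,
  .scale ⟨2199023255552, 0, 0, 0⟩ 0,
  .add 160 0,
  .scale ⟨2199023255552, 0, 0, 0⟩ 0,
  .mul 0 150,
  .mul 470 150,
  .sub 456 0,
  .inv 0,
  .mul 3 0,
  .sub 12 0,
  .mul 246 246,
  .const ⟨14293651161088, 0, 0, 0⟩,
  .const ⟨10995116277760, 0, 0, 0⟩,
  .inv 0,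
  .mul 2 0,
  .mul 4 0,
  .mul 489 489,
  .scale ⟨27487790694400, 0, 0, 0⟩ 0,
  .add 2 0,
  .mul 125 55,
  .sub 454 489,
  .sub 0 456,
  .mul 492 495,
  .mul 473 176,
  .mul 0 257,
  .add 191 0,
  .add 20 444,
  .mul 501 0,
  .mul 9 8,
  .mul 175 1,
  .mul 7 4,
  .mul 1 0,
  .sub 3 0,
  .scale ⟨549755813888, 0, 0, 0⟩ 27,
  .add 507 0,
  .mul 181 0,
  .mul 505 487,
  .mul 0 278,
  .mul 488 460,
  .inv 0,
  .mul 2 0,
  .mul 5 0,
  .sub 20 0,
  .mul 281 10,
  .sub 517 282,
  .mul 507 2,
  .mul 1 0,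
  .mul 28 0,
  .add 4 0,
  .pos 275,
  .pos 272,
  .scale ⟨2199023255552, 0, 0, 0⟩ 198,
  .sub 472 0,
  .pos 0,
  .pos 190,
  .sub 517 302,
  .pos 0,
  .scale ⟨687194767360, 0, 0, 0⟩ 525,
  .sub 0 242,
  .pos 0,
  .scale ⟨377957122048, 0, 0, 0⟩ 527,
  .sub 0 248,
  .pos 0,
  .pos 49,
  .pos 187,
  .sub 3 175,
  .pos 0,
  .pos 47,
  .pos 69,
  .pos 8,
  .pos 14]

def chk1 {α : Type} (cst : Z → α) (add sub mul : α → α → α) (scale : Z → α → α)
    (neg inv exp log : α → α) (ok : α → Bool) (isPos : Nat → α → Bool) (isLt : α → Nat → Bool) :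
    List α → Bool
  | [x0, x1, x2, x3] =>
  let v0 := cst ⟨1099511627776, 0, 0, 0⟩; ok v0 && (
  let v1 := mul x1 x2; ok v1 && (
  let v2 := mul x2 x2; ok v2 && (
  let v3 := mul x0 x1; ok v3 && (
  let v4 := mul v3 v2; ok v4 && (
  let v5 := mul v1 v1; ok v5 && (
  let v6 := mul v4 v3; ok v6 && (
  let v7 := cst ⟨549755813888, 0, 0, 0⟩; ok v7 && (
  let v8 := mul v4 x1; ok v8 && (
  let v9 := mul v8 x3; ok v9 && (
  let v10 := scale ⟨549755813888, 0, 0, 0⟩ v9; ok v10 && (
  let v11 := mul x1 x1; ok v11 && (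
  let v12 := mul v10 v10; ok v12 && (
  let v13 := sub v0 v12; ok v13 && (
  let v14 := inv v13; ok v14 && (
  let v15 := mul v10 v14; ok v15 && (
  let v16 := scale ⟨2199023255552, 0, 0, 0⟩ v15; ok v16 && (
  let v17 := scale ⟨2199023255552, 0, 0, 0⟩ v14; ok v17 && (
  let v18 := sub v17 v0; ok v18 && (
  let v19 := add v18 v16; ok v19 && (
  let v20 := mul x3 v14; ok v20 && (
  let v21 := mul x1 v20; ok v21 && (
  let v22 := sub v0 v21; ok v22 && (
  let v23 := add v0 v21; ok v23 && (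
  let v24 := mul v4 v11; ok v24 && (
  let v25 := mul v20 v20; ok v25 && (
  let v26 := scale ⟨10774999203840, 0, 0, 0⟩ v10; ok v26 && (
  let v27 := scale ⟨45768245248, 0, 0, 0⟩ v26; ok v27 && (
  let v28 := cst ⟨183207198720, 0, 0, 0⟩; ok v28 && (
  let v29 := add v27 v28; ok v29 && (
  let v30 := mul v26 v29; ok v30 && (
  let v31 := add v7 v30; ok v31 && (
  let v32 := mul v26 v31; ok v32 && (
  let v33 := add v0 v32; ok v33 && (
  let v34 := mul v26 v33; ok v34 && (
  let v35 := scale ⟨549755813888, 0, 0, 0⟩ v34; ok v35 && (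
  let v36 := add v0 v35; ok v36 && (
  let v37 := mul v33 v36; ok v37 && (
  let v38 := mul v16 v21; ok v38 && (
  let v39 := scale ⟨2199023255552, 0, 0, 0⟩ v18; ok v39 && (
  let v40 := add v38 v39; ok v40 && (
  let v41 := add v40 v4; ok v41 && (
  let v42 := mul v24 v41; ok v42 && (
  let v43 := add v42 v0; ok v43 && (
  let v44 := mul v16 v16; ok v44 && (
  let v45 := scale ⟨2199023255552, 0, 0, 0⟩ v44; ok v45 && (
  let v46 := add v45 v0; ok v46 && (
  let v47 := mul v18 v41; ok v47 && (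
  let v48 := sub v47 v0; ok v48 && (
  let v49 := log v43; ok v49 && (
  let v50 := scale ⟨549755813888, 0, 0, 0⟩ v49; ok v50 && (
  let v51 := exp v50; ok v51 && (
  let v52 := cst ⟨3298534883328, 0, 0, 0⟩; ok v52 && (
  let v53 := inv v52; ok v53 && (
  let v54 := mul v0 v53; ok v54 && (
  let v55 := cst ⟨2199023255552, 0, 0, 0⟩; ok v55 && (
  let v56 := add v42 v55; ok v56 && (
  let v57 := inv v56; ok v57 && (
  let v58 := mul v42 v57; ok v58 && (
  let v59 := mul v58 v58; ok v59 && (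
  let v60 := sub v0 v58; ok v60 && (
  let v61 := mul v59 v54; ok v61 && (
  let v62 := add v0 v61; ok v62 && (
  let v63 := mul v60 v62; ok v63 && (
  let v64 := mul v59 v59; ok v64 && (
  let v65 := scale ⟨219915747328, 0, 0, 0⟩ v64; ok v65 && (
  let v66 := mul v41 v63; ok v66 && (
  let v67 := scale ⟨549755813888, 0, 0, 0⟩ v66; ok v67 && (
  let v68 := mul v41 v65; ok v68 && (
  let v69 := scale ⟨549755813888, 0, 0, 0⟩ v68; ok v69 && (
  let v70 := add v67 v69; ok v70 && (
  let v71 := mul v18 v48; ok v71 && (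
  let v72 := scale ⟨4398046511104, 0, 0, 0⟩ v71; ok v72 && (
  let v73 := mul v18 v24; ok v73 && (
  let v74 := mul v73 v48; ok v74 && (
  let v75 := scale ⟨4398046511104, 0, 0, 0⟩ v74; ok v75 && (
  let v76 := add v75 v55; ok v76 && (
  let v77 := inv v76; ok v77 && (
  let v78 := mul v75 v77; ok v78 && (
  let v79 := mul v78 v78; ok v79 && (
  let v80 := sub v0 v78; ok v80 && (
  let v81 := mul v79 v54; ok v81 && (
  let v82 := add v0 v81; ok v82 && (
  let v83 := mul v80 v82; ok v83 && (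
  let v84 := mul v79 v79; ok v84 && (
  let v85 := scale ⟨219915747328, 0, 0, 0⟩ v84; ok v85 && (
  let v86 := mul v72 v83; ok v86 && (
  let v87 := scale ⟨549755813888, 0, 0, 0⟩ v86; ok v87 && (
  let v88 := sub v87 v70; ok v88 && (
  let v89 := mul v72 v85; ok v89 && (
  let v90 := scale ⟨549755813888, 0, 0, 0⟩ v89; ok v90 && (
  let v91 := add v90 v69; ok v91 && (
  let v92 := add v88 v91; ok v92 && (
  let v93 := mul v3 v67; ok v93 && (
  let v94 := neg v93; ok v94 && (
  let v95 := exp v94; ok v95 && (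
  let v96 := mul v3 v69; ok v96 && (
  let v97 := mul v95 v96; ok v97 && (
  let v98 := mul v3 v88; ok v98 && (
  let v99 := neg v98; ok v99 && (
  let v100 := exp v99; ok v100 && (
  let v101 := mul v3 v91; ok v101 && (
  let v102 := mul v100 v101; ok v102 && (
  let v103 := mul v21 v16; ok v103 && (
  let v104 := add v18 v103; ok v104 && (
  let v105 := inv v104; ok v105 && (
  let v106 := mul v23 v105; ok v106 && (
  let v107 := mul v22 v4; ok v107 && (
  let v108 := mul v107 v106; ok v108 && (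
  let v109 := sub v0 v11; ok v109 && (
  let v110 := mul v25 v109; ok v110 && (
  let v111 := mul v8 v8; ok v111 && (
  let v112 := sub v0 v25; ok v112 && (
  let v113 := mul v109 v112; ok v113 && (
  let v114 := mul v24 v48; ok v114 && (
  let v115 := inv v43; ok v115 && (
  let v116 := mul v114 v115; ok v116 && (
  let v117 := add v18 v116; ok v117 && (
  let v118 := mul v43 v117; ok v118 && (
  let v119 := mul v118 v118; ok v119 && (
  let v120 := inv v119; ok v120 && (
  let v121 := mul v113 v120; ok v121 && (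
  let v122 := add v18 v24; ok v122 && (
  let v123 := mul v0 v122; ok v123 && (
  let v124 := inv v123; ok v124 && (
  let v125 := mul x0 v124; ok v125 && (
  let v126 := mul v125 v125; ok v126 && (
  let v127 := mul v126 v113; ok v127 && (
  let v128 := cst ⟨45812285440, 0, 0, 0⟩; ok v128 && (
  let v129 := scale ⟨1527119872, 0, 0, 0⟩ v127; ok v129 && (
  let v130 := sub v128 v129; ok v130 && (
  let v131 := mul v127 v130; ok v131 && (
  let v132 := sub v7 v131; ok v132 && (
  let v133 := mul v127 v132; ok v133 && (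
  let v134 := sub v0 v133; ok v134 && (
  let v135 := add v95 v0; ok v135 && (
  let v136 := mul v95 v95; ok v136 && (
  let v137 := add v136 v0; ok v137 && (
  let v138 := mul v95 v134; ok v138 && (
  let v139 := scale ⟨2199023255552, 0, 0, 0⟩ v138; ok v139 && (
  let v140 := add v137 v139; ok v140 && (
  let v141 := scale ⟨4398046511104, 0, 0, 0⟩ v97; ok v141 && (
  let v142 := sub v140 v141; ok v142 && (
  let v143 := inv v135; ok v143 && (
  let v144 := mul v142 v143; ok v144 && (
  let v145 := add v144 v135; ok v145 && (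
  let v146 := mul v95 v108; ok v146 && (
  let v147 := scale ⟨549755813888, 0, 0, 0⟩ v146; ok v147 && (
  let v148 := mul v147 v145; ok v148 && (
  let v149 := sub v142 v148; ok v149 && (
  isPos 4 v142 && (
  isPos 4 v149 && (
  let v150 := mul v3 v70; ok v150 && (
  let v151 := scale ⟨2199023255552, 0, 0, 0⟩ v150; ok v151 && (
  let v152 := scale ⟨183274307584, 0, 0, 0⟩ v151; ok v152 && (
  let v153 := sub v7 v152; ok v153 && (
  let v154 := mul v151 v153; ok v154 && (
  let v155 := sub v0 v154; ok v155 && (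
  let v156 := mul v70 v155; ok v156 && (
  let v157 := inv v149; ok v157 && (
  let v158 := mul v156 v157; ok v158 && (
  let v159 := mul v3 v158; ok v159 && (
  let v160 := add v159 v7; ok v160 && (
  let v161 := inv v160; ok v161 && (
  let v162 := mul v158 v161; ok v162 && (
  let v163 := mul v3 v162; ok v163 && (
  let v164 := mul v108 v163; ok v164 && (
  let v165 := scale ⟨549755813888, 0, 0, 0⟩ v164; ok v165 && (
  let v166 := sub v0 v165; ok v166 && (
  let v167 := sub v0 v164; ok v167 && (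
  let v168 := inv v167; ok v168 && (
  let v169 := mul v166 v168; ok v169 && (
  let v170 := add v164 v0; ok v170 && (
  let v171 := mul v95 v170; ok v171 && (
  let v172 := mul v106 v169; ok v172 && (
  let v173 := mul x1 v162; ok v173 && (
  let v174 := mul v172 v173; ok v174 && (
  let v175 := mul v164 v169; ok v175 && (
  isPos 4 v167 && (
  let v176 := mul v22 v23; ok v176 && (
  let v177 := add v18 v4; ok v177 && (
  let v178 := mul v21 v18; ok v178 && (
  let v179 := mul v178 v16; ok v179 && (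
  let v180 := scale ⟨2199023255552, 0, 0, 0⟩ v179; ok v180 && (
  let v181 := add v46 v180; ok v181 && (
  let v182 := mul v177 v181; ok v182 && (
  let v183 := inv v182; ok v183 && (
  let v184 := mul v176 v183; ok v184 && (
  let v185 := mul v4 v184; ok v185 && (
  isPos 4 v88 && (
  let v186 := mul v127 v115; ok v186 && (
  let v187 := scale ⟨1527119872, 0, 0, 0⟩ v186; ok v187 && (
  let v188 := sub v128 v187; ok v188 && (
  let v189 := mul v186 v188; ok v189 && (
  let v190 := sub v7 v189; ok v190 && (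
  let v191 := mul v186 v190; ok v191 && (
  let v192 := sub v0 v191; ok v192 && (
  let v193 := add v100 v0; ok v193 && (
  let v194 := mul v100 v100; ok v194 && (
  let v195 := add v194 v0; ok v195 && (
  let v196 := mul v100 v192; ok v196 && (
  let v197 := scale ⟨2199023255552, 0, 0, 0⟩ v196; ok v197 && (
  let v198 := add v195 v197; ok v198 && (
  let v199 := scale ⟨4398046511104, 0, 0, 0⟩ v102; ok v199 && (
  let v200 := sub v198 v199; ok v200 && (
  let v201 := inv v193; ok v201 && (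
  let v202 := mul v200 v201; ok v202 && (
  let v203 := add v202 v193; ok v203 && (
  let v204 := mul v100 v185; ok v204 && (
  let v205 := scale ⟨549755813888, 0, 0, 0⟩ v204; ok v205 && (
  let v206 := mul v205 v203; ok v206 && (
  let v207 := sub v200 v206; ok v207 && (
  isPos 4 v200 && (
  isPos 4 v207 && (
  let v208 := mul v3 v92; ok v208 && (
  let v209 := scale ⟨2199023255552, 0, 0, 0⟩ v208; ok v209 && (
  let v210 := scale ⟨183274307584, 0, 0, 0⟩ v209; ok v210 && (
  let v211 := sub v7 v210; ok v211 && (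
  let v212 := mul v209 v211; ok v212 && (
  let v213 := sub v0 v212; ok v213 && (
  let v214 := mul v92 v213; ok v214 && (
  let v215 := inv v207; ok v215 && (
  let v216 := mul v214 v215; ok v216 && (
  let v217 := mul v3 v216; ok v217 && (
  let v218 := add v217 v7; ok v218 && (
  let v219 := inv v218; ok v219 && (
  let v220 := mul v216 v219; ok v220 && (
  let v221 := mul v3 v220; ok v221 && (
  let v222 := mul v185 v221; ok v222 && (
  let v223 := mul x1 v220; ok v223 && (
  let v224 := add v10 v0; ok v224 && (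
  let v225 := inv v224; ok v225 && (
  let v226 := mul v10 v225; ok v226 && (
  let v227 := scale ⟨2199023255552, 0, 0, 0⟩ v226; ok v227 && (
  let v228 := sub v0 v227; ok v228 && (
  let v229 := sub v0 v10; ok v229 && (
  let v230 := mul x3 v225; ok v230 && (
  let v231 := mul v230 v228; ok v231 && (
  let v232 := add v23 v231; ok v232 && (
  let v233 := scale ⟨224412041216, 0, 0, 0⟩ v14; ok v233 && (
  let v234 := inv v37; ok v234 && (
  let v235 := mul v233 v234; ok v235 && (
  let v236 := scale ⟨4398046511104, 0, 0, 0⟩ v0; ok v236 && (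
  let v237 := mul x0 v20; ok v237 && (
  let v238 := add v236 v237; ok v238 && (
  let v239 := scale ⟨549755813888, 0, 0, 0⟩ v238; ok v239 && (
  let v240 := inv v239; ok v240 && (
  let v241 := mul x0 v240; ok v241 && (
  let v242 := mul v0 v240; ok v242 && (
  let v243 := mul v242 v23; ok v243 && (
  let v244 := mul v243 v235; ok v244 && (
  let v245 := mul v241 v23; ok v245 && (
  let v246 := mul v245 v235; ok v246 && (
  let v247 := sub v0 v246; ok v247 && (
  let v248 := inv v247; ok v248 && (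
  let v249 := mul v171 v246; ok v249 && (
  let v250 := sub v0 v249; ok v250 && (
  let v251 := inv v250; ok v251 && (
  let v252 := scale ⟨2199023255552, 0, 0, 0⟩ v5; ok v252 && (
  let v253 := add v252 v0; ok v253 && (
  let v254 := add v5 v0; ok v254 && (
  let v255 := cst ⟨893353197568, 0, 0, 0⟩; ok v255 && (
  let v256 := cst ⟨725849473024, 0, 0, 0⟩; ok v256 && (
  let v257 := sub v256 v162; ok v257 && (
  isPos 4 v257 && (
  let v258 := mul v10 v20; ok v258 && (
  let v259 := sub v0 v110; ok v259 && (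
  let v260 := mul v10 v21; ok v260 && (
  let v261 := scale ⟨2199023255552, 0, 0, 0⟩ v260; ok v261 && (
  let v262 := sub v259 v261; ok v262 && (
  let v263 := mul v258 v258; ok v263 && (
  let v264 := add v262 v263; ok v264 && (
  let v265 := add v264 v0; ok v265 && (
  let v266 := scale ⟨549755813888, 0, 0, 0⟩ v265; ok v266 && (
  let v267 := scale ⟨549755813888, 0, 0, 0⟩ v24; ok v267 && (
  let v268 := sub v14 v267; ok v268 && (
  let v269 := mul v111 v259; ok v269 && (
  let v270 := mul v269 v13; ok v270 && (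
  let v271 := scale ⟨137438953472, 0, 0, 0⟩ v270; ok v271 && (
  let v272 := add v268 v271; ok v272 && (
  let v273 := mul v266 v272; ok v273 && (
  let v274 := add v171 v0; ok v274 && (
  let v275 := mul v274 v248; ok v275 && (
  let v276 := mul v171 v251; ok v276 && (
  let v277 := add v275 v276; ok v277 && (
  let v278 := mul v246 v277; ok v278 && (
  let v279 := add v175 v278; ok v279 && (
  let v280 := mul v279 v5; ok v280 && (
  let v281 := mul v274 v246; ok v281 && (
  let v282 := mul v281 v248; ok v282 && (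
  let v283 := add v175 v282; ok v283 && (
  let v284 := mul v283 v5; ok v284 && (
  let v285 := scale ⟨223338299392, 0, 0, 0⟩ v284; ok v285 && (
  let v286 := add v7 v285; ok v286 && (
  let v287 := mul v284 v286; ok v287 && (
  let v288 := add v0 v287; ok v288 && (
  let v289 := scale ⟨893353197568, 0, 0, 0⟩ v280; ok v289 && (
  let v290 := add v0 v289; ok v290 && (
  let v291 := mul v280 v290; ok v291 && (
  let v292 := add v0 v291; ok v292 && (
  let v293 := mul v227 v230; ok v293 && (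
  let v294 := mul v293 v253; ok v294 && (
  let v295 := mul v294 v292; ok v295 && (
  let v296 := mul v273 v288; ok v296 && (
  let v297 := add v51 v7; ok v297 && (
  let v298 := mul v295 v297; ok v298 && (
  let v299 := add v296 v298; ok v299 && (
  let v300 := add v51 v0; ok v300 && (
  let v301 := mul v295 v300; ok v301 && (
  let v302 := mul v254 v300; ok v302 && (
  let v303 := mul v302 v230; ok v303 && (
  let v304 := mul v303 v229; ok v304 && (
  let v305 := mul v299 v174; ok v305 && (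
  let v306 := mul v304 v255; ok v306 && (
  let v307 := add v305 v306; ok v307 && (
  let v308 := mul x1 v232; ok v308 && (
  let v309 := inv v51; ok v309 && (
  let v310 := mul v308 v309; ok v310 && (
  let v311 := scale ⟨549755813888, 0, 0, 0⟩ v310; ok v311 && (
  let v312 := mul v22 v311; ok v312 && (
  let v313 := add v312 v307; ok v313 && (
  let v314 := mul v4 v313; ok v314 && (
  let v315 := mul v0 v314; ok v315 && (
  let v316 := mul v299 v274; ok v316 && (
  let v317 := mul v316 v248; ok v317 && (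
  let v318 := mul v301 v171; ok v318 && (
  let v319 := mul v318 v251; ok v319 && (
  let v320 := add v317 v319; ok v320 && (
  let v321 := mul v22 v315; ok v321 && (
  let v322 := mul v244 v320; ok v322 && (
  let v323 := add v321 v322; ok v323 && (
  let v324 := mul v111 v323; ok v324 && (
  let v325 := mul v324 v309; ok v325 && (
  let v326 := sub v0 v325; ok v326 && (
  let v327 := inv v326; ok v327 && (
  let v328 := mul v323 v327; ok v328 && (
  let v329 := mul v4 v328; ok v329 && (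
  let v330 := mul v111 v328; ok v330 && (
  let v331 := mul v330 v309; ok v331 && (
  let v332 := sub v0 v331; ok v332 && (
  let v333 := mul v48 v332; ok v333 && (
  let v334 := sub v333 v329; ok v334 && (
  let v335 := inv v334; ok v335 && (
  let v336 := mul v329 v335; ok v336 && (
  let v337 := sub v51 v330; ok v337 && (
  let v338 := inv v337; ok v338 && (
  let v339 := mul v336 v221; ok v339 && (
  let v340 := scale ⟨549755813888, 0, 0, 0⟩ v339; ok v340 && (
  let v341 := sub v0 v340; ok v341 && (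
  let v342 := sub v0 v339; ok v342 && (
  let v343 := inv v342; ok v343 && (
  let v344 := mul v341 v343; ok v344 && (
  let v345 := mul x1 v338; ok v345 && (
  let v346 := mul v223 v335; ok v346 && (
  let v347 := mul v346 v344; ok v347 && (
  let v348 := add v345 v347; ok v348 && (
  let v349 := mul v6 v328; ok v349 && (
  let v350 := mul v338 v349; ok v350 && (
  let v351 := mul v221 v335; ok v351 && (
  let v352 := mul v351 v344; ok v352 && (
  let v353 := mul v352 v329; ok v353 && (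
  let v354 := add v350 v353; ok v354 && (
  let v355 := scale ⟨223338299392, 0, 0, 0⟩ v354; ok v355 && (
  let v356 := add v7 v355; ok v356 && (
  let v357 := mul v354 v356; ok v357 && (
  let v358 := add v0 v357; ok v358 && (
  let v359 := mul v348 v358; ok v359 && (
  let v360 := mul v359 v327; ok v360 && (
  let v361 := mul v360 v320; ok v361 && (
  let v362 := mul v245 v22; ok v362 && (
  let v363 := cst ⟨5497558138880, 0, 0, 0⟩; ok v363 && (
  let v364 := inv v363; ok v364 && (
  let v365 := mul v52 v364; ok v365 && (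
  let v366 := mul v224 v23; ok v366 && (
  let v367 := mul v366 v365; ok v367 && (
  let v368 := mul v177 v105; ok v368 && (
  let v369 := mul v21 v368; ok v369 && (
  let v370 := scale ⟨549755813888, 0, 0, 0⟩ v222; ok v370 && (
  let v371 := sub v0 v370; ok v371 && (
  let v372 := sub v0 v222; ok v372 && (
  let v373 := inv v372; ok v373 && (
  let v374 := mul v371 v373; ok v374 && (
  let v375 := mul v374 v185; ok v375 && (
  let v376 := mul v111 v121; ok v376 && (
  let v377 := scale ⟨733097230336, 0, 0, 0⟩ v376; ok v377 && (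
  let v378 := sub v0 v377; ok v378 && (
  let v379 := mul v121 v378; ok v379 && (
  let v380 := mul v88 v88; ok v380 && (
  let v381 := mul v11 v380; ok v381 && (
  let v382 := add v379 v381; ok v382 && (
  let v383 := mul v375 v223; ok v383 && (
  let v384 := add v382 v0; ok v384 && (
  let v385 := mul v383 v384; ok v385 && (
  let v386 := sub v382 v385; ok v386 && (
  let v387 := scale ⟨366548615168, 0, 0, 0⟩ v44; ok v387 && (
  let v388 := sub v0 v387; ok v388 && (
  let v389 := mul v25 v388; ok v389 && (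
  let v390 := add v386 v389; ok v390 && (
  let v391 := mul v368 v390; ok v391 && (
  let v392 := mul v369 v369; ok v392 && (
  let v393 := add v0 v392; ok v393 && (
  let v394 := inv v393; ok v394 && (
  let v395 := mul v391 v394; ok v395 && (
  let v396 := sub v0 v336; ok v396 && (
  let v397 := mul v396 v395; ok v397 && (
  let v398 := sub v0 v383; ok v398 && (
  isPos 4 v398 && (
  isPos 4 v395 && (
  isPos 4 v396 && (
  let v399 := mul v360 v239; ok v399 && (
  let v400 := mul v399 v313; ok v400 && (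
  let v401 := inv v23; ok v401 && (
  let v402 := mul v400 v401; ok v402 && (
  let v403 := mul v3 v397; ok v403 && (
  let v404 := scale ⟨549755813888, 0, 0, 0⟩ v403; ok v404 && (
  let v405 := sub v0 v404; ok v405 && (
  let v406 := mul v397 v405; ok v406 && (
  let v407 := neg v406; ok v407 && (
  let v408 := mul x1 x3; ok v408 && (
  let v409 := mul v408 v224; ok v409 && (
  let v410 := mul v409 v14; ok v410 && (
  let v411 := mul v2 v410; ok v411 && (
  let v412 := add v407 v411; ok v412 && (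
  let v413 := mul v407 v411; ok v413 && (
  let v414 := mul v3 v413; ok v414 && (
  let v415 := add v412 v414; ok v415 && (
  let v416 := mul v11 v41; ok v416 && (
  let v417 := scale ⟨412316860416, 0, 0, 0⟩ v42; ok v417 && (
  let v418 := sub v7 v417; ok v418 && (
  let v419 := mul v416 v418; ok v419 && (
  let v420 := mul v2 v419; ok v420 && (
  let v421 := neg v420; ok v421 && (
  let v422 := add v415 v421; ok v422 && (
  let v423 := mul v415 v421; ok v423 && (
  let v424 := mul v3 v423; ok v424 && (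
  let v425 := add v422 v424; ok v425 && (
  let v426 := mul x1 v328; ok v426 && (
  let v427 := mul v426 v401; ok v427 && (
  let v428 := mul v2 v427; ok v428 && (
  let v429 := add v425 v428; ok v429 && (
  let v430 := mul v425 v428; ok v430 && (
  let v431 := mul v3 v430; ok v431 && (
  let v432 := add v429 v431; ok v432 && (
  let v433 := mul v2 v367; ok v433 && (
  let v434 := sub v432 v433; ok v434 && (
  let v435 := mul v4 v367; ok v435 && (
  let v436 := add v0 v435; ok v436 && (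
  let v437 := inv v436; ok v437 && (
  let v438 := mul v434 v437; ok v438 && (
  let v439 := mul x1 v8; ok v439 && (
  let v440 := mul v439 v328; ok v440 && (
  let v441 := mul v440 v338; ok v441 && (
  let v442 := mul v2 v441; ok v442 && (
  let v443 := add v438 v442; ok v443 && (
  let v444 := mul v438 v442; ok v444 && (
  let v445 := mul v3 v444; ok v445 && (
  let v446 := add v443 v445; ok v446 && (
  let v447 := mul v3 v446; ok v447 && (
  let v448 := add v0 v447; ok v448 && (
  let v449 := mul v361 v246; ok v449 && (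
  let v450 := mul v4 v362; ok v450 && (
  let v451 := mul v402 v450; ok v451 && (
  let v452 := add v449 v451; ok v452 && (
  let v453 := mul v2 v452; ok v453 && (
  let v454 := add v361 v402; ok v454 && (
  let v455 := mul v2 v454; ok v455 && (
  let v456 := mul v453 v448; ok v456 && (
  let v457 := add v446 v456; ok v457 && (
  let v458 := add v457 v455; ok v458 && (
  let v459 := neg v458; ok v459 && (
  let v460 := scale ⟨1073741824, 0, 0, 0⟩ v2; ok v460 && (
  let v461 := sub v459 v460; ok v461 && (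
  let v462 := sub v19 v0; ok v462 && (
  let v463 := add v462 v55; ok v463 && (
  let v464 := scale ⟨2199023255552, 0, 0, 0⟩ v365; ok v464 && (
  let v465 := sub v463 v464; ok v465 && (
  let v466 := mul v224 v465; ok v466 && (
  let v467 := mul v462 v464; ok v467 && (
  let v468 := add v467 v0; ok v468 && (
  let v469 := inv v468; ok v469 && (
  let v470 := mul v466 v469; ok v470 && (
  let v471 := mul v242 v320; ok v471 && (
  let v472 := scale ⟨549755813888, 0, 0, 0⟩ v235; ok v472 && (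
  let v473 := add v16 v472; ok v473 && (
  let v474 := mul v471 v473; ok v474 && (
  let v475 := scale ⟨2199023255552, 0, 0, 0⟩ v474; ok v475 && (
  let v476 := add v315 v475; ok v476 && (
  let v477 := scale ⟨2199023255552, 0, 0, 0⟩ v476; ok v477 && (
  let v478 := mul v477 v327; ok v478 && (
  let v479 := mul v8 v328; ok v479 && (
  let v480 := sub v23 v479; ok v480 && (
  let v481 := inv v480; ok v481 && (
  let v482 := mul v478 v481; ok v482 && (
  let v483 := sub v470 v482; ok v483 && (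
  let v484 := mul v237 v237; ok v484 && (
  let v485 := cst ⟨14293651161088, 0, 0, 0⟩; ok v485 && (
  let v486 := cst ⟨10995116277760, 0, 0, 0⟩; ok v486 && (
  let v487 := inv v486; ok v487 && (
  let v488 := mul v485 v487; ok v488 && (
  let v489 := mul v484 v488; ok v489 && (
  let v490 := mul v0 v0; ok v490 && (
  let v491 := scale ⟨27487790694400, 0, 0, 0⟩ v490; ok v491 && (
  let v492 := add v489 v491; ok v492 && (
  let v493 := mul v367 v437; ok v493 && (
  let v494 := sub v39 v4; ok v494 && (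
  let v495 := sub v494 v38; ok v495 && (
  let v496 := mul v3 v0; ok v496 && (
  let v497 := mul v23 v320; ok v497 && (
  let v498 := mul v497 v240; ok v498 && (
  let v499 := add v307 v498; ok v499 && (
  let v500 := add v479 v55; ok v500 && (
  let v501 := mul x0 v500; ok v501 && (
  let v502 := mul v492 v493; ok v502 && (
  let v503 := mul v327 v501; ok v503 && (
  let v504 := mul v496 v499; ok v504 && (
  let v505 := mul v503 v504; ok v505 && (
  let v506 := sub v502 v505; ok v506 && (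
  let v507 := scale ⟨549755813888, 0, 0, 0⟩ v479; ok v507 && (
  let v508 := add v0 v507; ok v508 && (
  let v509 := mul v327 v508; ok v509 && (
  let v510 := mul v4 v22; ok v510 && (
  let v511 := mul v510 v232; ok v511 && (
  let v512 := mul v23 v51; ok v512 && (
  let v513 := inv v512; ok v513 && (
  let v514 := mul v511 v513; ok v514 && (
  let v515 := mul v509 v514; ok v515 && (
  let v516 := sub v495 v515; ok v516 && (
  let v517 := mul v235 v506; ok v517 && (
  let v518 := sub v0 v235; ok v518 && (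
  let v519 := mul v11 v516; ok v519 && (
  let v520 := mul v518 v519; ok v520 && (
  let v521 := mul v492 v520; ok v521 && (
  let v522 := add v517 v521; ok v522 && (
  isPos 4 v247 && (
  isPos 4 v250 && (
  let v523 := scale ⟨2199023255552, 0, 0, 0⟩ v324; ok v523 && (
  let v524 := sub v51 v523; ok v524 && (
  isPos 4 v524 && (
  isPos 4 v334 && (
  let v525 := sub v7 v222; ok v525 && (
  isPos 4 v525 && (
  let v526 := scale ⟨687194767360, 0, 0, 0⟩ v0; ok v526 && (
  let v527 := sub v526 v284; ok v527 && (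
  isPos 4 v527 && (
  let v528 := scale ⟨377957122048, 0, 0, 0⟩ v0; ok v528 && (
  let v529 := sub v528 v280; ok v529 && (
  isPos 4 v529 && (
  isPos 4 v480 && (
  isPos 4 v342 && (
  let v530 := sub v526 v354; ok v530 && (
  isPos 4 v530 && (
  isPos 4 v483 && (
  isPos 4 v461 && (
  isPos 4 v522 && (
  isPos 4 v516 && (
  true)))))))))))))))))))))))))))))))))))))))))))))))))))))))))))))))))))))))))))))))))))))))))))))))))))))))))))))))))))))))))))))))))))))))))))))))))))))))))))))))))))))))))))))))))))))))))))))))))))))))))))))))))))))))))))))))))))))))))))))))))))))))))))))))))))))))))))))))))))))))))))))))))))))))))))))))))))))))))))))))))))))))))))))))))))))))))))))))))))))))))))))))))))))))))))))))))))))))))))))))))))))))))))))))))))))))))))))))))))))))))))))))))))))))))))))))))))))))))))))))))))))))))))))))))))))))))))))))))))))))))))))))))))))))))))))))))))))))))))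
  | _ => false

set_option maxRecDepth 1000000 in
theorem chk1_eq (O : Ops) (m : List O.α)
    (h : chk1 O.cst O.add O.sub O.mul O.scale O.neg O.inv O.exp O.log O.ok O.isPos O.isLt m = true) :
    runG O 4 prog1 m = true := by
  match m, h with
  | [x0, x1, x2, x3], h => exact h

def chkB1 : List opsE.α → Bool :=
  chk1 opsE.cst opsE.add opsE.sub opsE.mul opsE.scale opsE.neg opsE.inv opsE.exp opsE.log opsE.ok opsE.isPos opsE.isLt

theorem chkB1_eq (m : List opsE.α) (h : chkB1 m = true) : runG opsE 4 prog1 m = true :=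
  chk1_eq opsE m h

def prog2 : List Op := [
  .const ⟨1099511627776, 0, 0, 0⟩,
  .mul 2 3,
  .mul 4 4,
  .mul 3 4,
  .mul 0 1,
  .mul 3 3,
  .mul 1 2,
  .const ⟨549755813888, 0, 0, 0⟩,
  .mul 3 9,
  .mul 0 12,
  .scale ⟨549755813888, 0, 0, 0⟩ 0,
  .mul 12 12,
  .mul 1 1,
  .sub 12 0,
  .inv 0,
  .mul 4 0,
  .scale ⟨2199023255552, 0, 0, 0⟩ 0,
  .scale ⟨2199023255552, 0, 0, 0⟩ 2,
  .sub 0 17,
  .add 0 2,
  .mul 23 5,
  .mul 22 0,
  .sub 21 0,
  .add 22 1,
  .mul 19 12,
  .mul 4 4,
  .scale ⟨10774999203840, 0, 0, 0⟩ 15,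
  .scale ⟨45768245248, 0, 0, 0⟩ 0,
  .const ⟨183207198720, 0, 0, 0⟩,
  .add 1 0,
  .mul 3 0,
  .add 23 0,
  .mul 5 0,
  .add 32 0,
  .mul 7 0,
  .scale ⟨549755813888, 0, 0, 0⟩ 0,
  .add 35 0,
  .mul 3 0,
  .mul 21 16,
  .scale ⟨2199023255552, 0, 0, 0⟩ 20,
  .add 1 0,
  .add 0 36,
  .mul 17 0,
  .add 0 42,
  .mul 27 27,
  .scale ⟨2199023255552, 0, 0, 0⟩ 0,
  .add 0 45,
  .mul 28 5,
  .sub 0 47,
  .log 5,
  .scale ⟨549755813888, 0, 0, 0⟩ 0,
  .exp 0,
  .const ⟨3298534883328, 0, 0, 0⟩,
  .inv 0,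
  .mul 53 0,
  .const ⟨2199023255552, 0, 0, 0⟩,
  .add 13 0,
  .inv 0,
  .mul 15 0,
  .mul 0 0,
  .sub 59 1,
  .mul 1 6,
  .add 61 0,
  .mul 2 0,
  .mul 4 4,
  .scale ⟨219915747328, 0, 0, 0⟩ 0,
  .mul 24 2,
  .scale ⟨549755813888, 0, 0, 0⟩ 0,
  .mul 26 2,
  .scale ⟨549755813888, 0, 0, 0⟩ 0,
  .add 2 0,
  .mul 52 22,
  .scale ⟨4398046511104, 0, 0, 0⟩ 0,
  .mul 54 48,
  .mul 0 25,
  .scale ⟨4398046511104, 0, 0, 0⟩ 0,
  .add 0 20,
  .inv 0,
  .mul 2 0,
  .mul 0 0,
  .sub 79 1,
  .mul 1 26,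
  .add 81 0,
  .mul 2 0,
  .mul 4 4,
  .scale ⟨219915747328, 0, 0, 0⟩ 0,
  .mul 13 2,
  .scale ⟨549755813888, 0, 0, 0⟩ 0,
  .sub 0 17,
  .mul 16 3,
  .scale ⟨549755813888, 0, 0, 0⟩ 0,
  .add 0 21,
  .add 3 0,
  .mul 89 25,
  .neg 0,
  .exp 0,
  .mul 92 26,
  .mul 1 0,
  .mul 94 9,
  .neg 0,
  .exp 0,
  .mul 97 9,
  .mul 1 0,
  .mul 81 86,
  .add 85 0,
  .inv 0,
  .mul 82 0,
  .mul 84 102,
  .mul 0 1,
  .sub 108 97,
  .mul 84 0,
  .mul 102 102,
  .sub 111 86,
  .mul 3 0,
  .mul 89 65,
  .inv 71,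
  .mul 1 0,
  .add 98 0,
  .mul 74 0,
  .mul 0 0,
  .inv 0,
  .mul 7 0,
  .add 103 97,
  .mul 122 0,
  .inv 0,
  .mul 125 0,
  .mul 0 0,
  .mul 0 13,
  .const ⟨45812285440, 0, 0, 0⟩,
  .scale ⟨1527119872, 0, 0, 0⟩ 1,
  .sub 1 0,
  .mul 3 0,
  .sub 124 0,
  .mul 5 0,
  .sub 133 0,
  .add 39 134,
  .mul 40 40,
  .add 0 136,
  .mul 42 3,
  .scale ⟨2199023255552, 0, 0, 0⟩ 0,
  .add 2 0,
  .scale ⟨4398046511104, 0, 0, 0⟩ 43,
  .sub 1 0,
  .inv 7,
  .mul 1 0,
  .add 0 9,
  .mul 50 37,
  .scale ⟨549755813888, 0, 0, 0⟩ 0,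
  .mul 0 2,
  .sub 6 0,
  .pos 7,
  .pos 0,
  .mul 146 79,
  .scale ⟨2199023255552, 0, 0, 0⟩ 0,
  .scale ⟨183274307584, 0, 0, 0⟩ 0,
  .sub 145 0,
  .mul 2 0,
  .sub 154 0,
  .mul 85 0,
  .inv 7,
  .mul 1 0,
  .mul 155 0,
  .add 0 152,
  .inv 0,
  .mul 3 0,
  .mul 159 0,
  .mul 55 0,
  .scale ⟨549755813888, 0, 0, 0⟩ 0,
  .sub 165 0,
  .sub 166 2,
  .inv 0,
  .mul 2 0,
  .add 5 169,
  .mul 75 0,
  .mul 65 2,
  .mul 174 10,
  .mul 1 0,
  .mul 10 5,
  .pos 8,
  .mul 153 152,
  .add 158 172,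
  .mul 156 159,
  .mul 0 162,
  .scale ⟨2199023255552, 0, 0, 0⟩ 0,
  .add 134 0,
  .mul 4 0,
  .inv 0,
  .mul 7 0,
  .mul 180 0,
  .pos 97,
  .mul 58 70,
  .scale ⟨1527119872, 0, 0, 0⟩ 0,
  .sub 59 0,
  .mul 2 0,
  .sub 182 0,
  .mul 4 0,
  .sub 191 0,
  .add 92 192,
  .mul 93 93,
  .add 0 194,
  .mul 95 3,
  .scale ⟨2199023255552, 0, 0, 0⟩ 0,
  .add 2 0,
  .scale ⟨4398046511104, 0, 0, 0⟩ 96,
  .sub 1 0,
  .inv 7,
  .mul 1 0,
  .add 0 9,
  .mul 103 18,
  .scale ⟨549755813888, 0, 0, 0⟩ 0,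
  .mul 0 2,
  .sub 6 0,
  .pos 7,
  .pos 0,
  .mul 204 115,
  .scale ⟨2199023255552, 0, 0, 0⟩ 0,
  .scale ⟨183274307584, 0, 0, 0⟩ 0,
  .sub 203 0,
  .mul 2 0,
  .sub 212 0,
  .mul 121 0,
  .inv 7,
  .mul 1 0,
  .mul 213 0,
  .add 0 210,
  .inv 0,
  .mul 3 0,
  .mul 217 0,
  .mul 36 0,
  .mul 224 2,
  .add 213 223,
  .inv 0,
  .mul 215 0,
  .scale ⟨2199023255552, 0, 0, 0⟩ 0,
  .sub 227 0,
  .sub 228 218,
  .mul 233 4,
  .mul 0 2,
  .add 208 0,
  .scale ⟨224412041216, 0, 0, 0⟩ 218,
  .inv 196,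
  .mul 1 0,
  .scale ⟨4398046511104, 0, 0, 0⟩ 235,
  .mul 237 216,
  .add 1 0,
  .scale ⟨549755813888, 0, 0, 0⟩ 0,
  .inv 0,
  .mul 241 0,
  .mul 241 1,
  .mul 0 219,
  .mul 0 8,
  .mul 3 221,
  .mul 0 10,
  .sub 246 0,
  .inv 0,
  .mul 77 2,
  .sub 249 0,
  .inv 0,
  .scale ⟨2199023255552, 0, 0, 0⟩ 246,
  .add 0 252,
  .add 248 253,
  .scale ⟨549755813888, 0, 0, 0⟩ 92,
  .inv 256,
  .mul 258 0,
  .scale ⟨2199023255552, 0, 0, 0⟩ 0,
  .add 3 0,
  .scale ⟨549755813888, 0, 0, 0⟩ 0,
  .mul 250 240,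
  .sub 261 151,
  .mul 252 241,
  .scale ⟨2199023255552, 0, 0, 0⟩ 0,
  .sub 2 0,
  .mul 4 4,
  .add 1 0,
  .add 0 267,
  .scale ⟨549755813888, 0, 0, 0⟩ 0,
  .scale ⟨549755813888, 0, 0, 0⟩ 245,
  .sub 256 0,
  .mul 160 9,
  .mul 0 259,
  .scale ⟨137438953472, 0, 0, 0⟩ 0,
  .add 3 0,
  .mul 6 0,
  .add 105 276,
  .mul 0 29,
  .mul 107 27,
  .add 1 0,
  .mul 34 0,
  .add 106 0,
  .mul 0 277,
  .mul 6 37,
  .mul 0 36,
  .add 110 0,
  .mul 0 281,
  .scale ⟨223338299392, 0, 0, 0⟩ 0,
  .add 281 0,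
  .mul 2 0,
  .add 290 0,
  .scale ⟨893353197568, 0, 0, 0⟩ 8,
  .add 292 0,
  .mul 10 0,
  .add 294 0,
  .mul 68 65,
  .mul 0 43,
  .mul 0 2,
  .mul 22 7,
  .add 248 292,
  .mul 2 0,
  .add 2 0,
  .add 251 302,
  .mul 5 0,
  .mul 50 1,
  .mul 0 75,
  .mul 0 77,
  .mul 5 133,
  .mul 1 48,
  .add 1 0,
  .mul 312 78,
  .inv 260,
  .mul 1 0,
  .scale ⟨549755813888, 0, 0, 0⟩ 0,
  .mul 292 0,
  .add 0 5,
  .mul 312 0,
  .mul 317 0,
  .mul 16 41,
  .mul 0 71,
  .mul 16 149,
  .mul 0 70,
  .add 2 0,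
  .mul 301 5,
  .mul 80 1,
  .add 1 0,
  .mul 215 0,
  .mul 0 15,
  .sub 328 0,
  .inv 0,
  .mul 4 0,
  .mul 327 0,
  .mul 221 1,
  .mul 0 21,
  .sub 334 0,
  .mul 287 0,
  .sub 0 4,
  .inv 0,
  .mul 6 0,
  .sub 288 6,
  .inv 0,
  .mul 2 120,
  .scale ⟨549755813888, 0, 0, 0⟩ 0,
  .sub 343 0,
  .sub 344 2,
  .inv 0,
  .mul 2 0,
  .mul 349 6,
  .mul 125 10,
  .mul 0 2,
  .add 2 0,
  .mul 345 20,
  .mul 11 0,
  .mul 132 15,
  .mul 0 7,
  .mul 0 23,
  .add 3 0,
  .scale ⟨223338299392, 0, 0, 0⟩ 0,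
  .add 351 0,
  .mul 2 0,
  .add 360 0,
  .mul 10 0,
  .mul 0 32,
  .mul 0 40,
  .mul 119 342,
  .const ⟨5497558138880, 0, 0, 0⟩,
  .inv 0,
  .mul 315 0,
  .mul 144 345,
  .mul 0 1,
  .mul 193 265,
  .mul 350 0,
  .scale ⟨549755813888, 0, 0, 0⟩ 150,
  .sub 373 0,
  .sub 374 152,
  .inv 0,
  .mul 2 0,
  .mul 0 192,
  .mul 267 257,
  .scale ⟨733097230336, 0, 0, 0⟩ 0,
  .sub 380 0,
  .mul 260 0,
  .mul 294 294,
  .mul 372 0,
  .add 2 0,
  .mul 7 162,
  .add 1 386,
  .mul 1 0,
  .sub 3 0,
  .scale ⟨366548615168, 0, 0, 0⟩ 345,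
  .sub 390 0,
  .mul 366 0,
  .add 3 0,
  .mul 22 0,
  .mul 22 22,
  .add 395 0,
  .inv 0,
  .mul 3 0,
  .sub 398 59,
  .mul 0 1,
  .sub 400 14,
  .pos 0,
  .pos 3,
  .pos 2,
  .mul 38 162,
  .mul 0 86,
  .inv 380,
  .mul 1 0,
  .mul 402 5,
  .scale ⟨549755813888, 0, 0, 0⟩ 0,
  .sub 407 0,
  .mul 8 0,
  .neg 0,
  .mul 412 414,
  .mul 0 187,
  .mul 0 398,
  .mul 411 0,
  .add 4 0,
  .mul 5 1,
  .mul 413 0,
  .add 2 0,
  .mul 407 377,
  .scale ⟨412316860416, 0, 0, 0⟩ 377,
  .sub 413 0,
  .mul 2 0,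
  .mul 420 0,
  .neg 0,
  .add 6 0,
  .mul 7 1,
  .mul 423 0,
  .add 2 0,
  .mul 430 97,
  .mul 0 25,
  .mul 428 0,
  .add 3 0,
  .mul 4 1,
  .mul 430 0,
  .add 2 0,
  .mul 433 65,
  .sub 1 0,
  .mul 433 67,
  .add 438 0,
  .inv 0,
  .mul 3 0,
  .mul 443 433,
  .mul 0 111,
  .mul 0 102,
  .mul 442 0,
  .add 4 0,
  .mul 5 1,
  .mul 444 0,
  .add 2 0,
  .mul 446 0,
  .add 450 0,
  .mul 87 205,
  .mul 448 87,
  .mul 48 0,
  .add 2 0,
  .mul 453 0,
  .add 92 51,
  .mul 455 0,
  .mul 2 7,
  .add 10 0,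
  .add 0 2,
  .neg 0,
  .scale ⟨1073741824, 0, 0, 0⟩ 460,
  .sub 1 0,
  .sub 445 464,
  .add 0 410,
  .scale ⟨2199023255552, 0, 0, 0⟩ 98,
  .sub 1 0,
  .mul 244 0,
  .mul 4 2,
  .add 0 470,
  .inv 0,
  .mul 3 0,
  .mul 231 150,
  .scale ⟨549755813888, 0, 0, 0⟩ 239,
  .add 459 0,
  .mul 2 0,
  .scale ⟨2199023255552, 0, 0, 0⟩ 0,
  .add 160 0,
  .scale ⟨2199023255552, 0, 0, 0⟩ 0,
  .mul 0 150,
  .mul 473 150,
  .sub 459 0,
  .inv 0,
  .mul 3 0,
  .sub 12 0,
  .mul 249 249,
  .const ⟨14293651161088, 0, 0, 0⟩,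
  .const ⟨10995116277760, 0, 0, 0⟩,
  .inv 0,
  .mul 2 0,
  .mul 4 0,
  .mul 492 492,
  .scale ⟨27487790694400, 0, 0, 0⟩ 0,
  .add 2 0,
  .mul 125 55,
  .sub 457 492,
  .sub 0 459,
  .mul 495 498,
  .mul 476 176,
  .mul 0 260,
  .add 191 0,
  .add 20 447,
  .mul 504 0,
  .mul 9 8,
  .mul 175 1,
  .mul 7 4,
  .mul 1 0,
  .sub 3 0,
  .scale ⟨549755813888, 0, 0, 0⟩ 27,
  .add 510 0,
  .mul 181 0,
  .mul 508 490,
  .mul 0 281,
  .mul 491 463,
  .inv 0,
  .mul 2 0,
  .mul 5 0,
  .sub 20 0,
  .mul 284 10,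
  .sub 520 285,
  .mul 510 2,
  .mul 1 0,
  .mul 28 0,
  .add 4 0,
  .pos 278,
  .pos 275,
  .scale ⟨2199023255552, 0, 0, 0⟩ 198,
  .sub 475 0,
  .pos 0,
  .pos 190,
  .sub 520 305,
  .pos 0,
  .scale ⟨687194767360, 0, 0, 0⟩ 528,
  .sub 0 242,
  .pos 0,
  .scale ⟨377957122048, 0, 0, 0⟩ 530,
  .sub 0 248,
  .pos 0,
  .pos 49,
  .pos 187,
  .sub 3 175,
  .pos 0,
  .pos 47,
  .pos 69,
  .pos 8,
  .pos 14]

def chk2 {α : Type} (cst : Z → α) (add sub mul : α → α → α) (scale : Z → α → α)
    (neg inv exp log : α → α) (ok : α → Bool) (isPos : Nat → α → Bool) (isLt : α → Nat → Bool) :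
    List α → Bool
  | [x0, x1, x2, x3] =>
  let v0 := cst ⟨1099511627776, 0, 0, 0⟩; ok v0 && (
  let v1 := mul x1 x2; ok v1 && (
  let v2 := mul x2 x2; ok v2 && (
  let v3 := mul x0 x1; ok v3 && (
  let v4 := mul v3 v2; ok v4 && (
  let v5 := mul v1 v1; ok v5 && (
  let v6 := mul v4 v3; ok v6 && (
  let v7 := cst ⟨549755813888, 0, 0, 0⟩; ok v7 && (
  let v8 := mul v4 x1; ok v8 && (
  let v9 := mul v8 x3; ok v9 && (
  let v10 := scale ⟨549755813888, 0, 0, 0⟩ v9; ok v10 && (
  let v11 := mul x1 x1; ok v11 && (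
  let v12 := mul v10 v10; ok v12 && (
  let v13 := sub v0 v12; ok v13 && (
  let v14 := inv v13; ok v14 && (
  let v15 := mul v10 v14; ok v15 && (
  let v16 := scale ⟨2199023255552, 0, 0, 0⟩ v15; ok v16 && (
  let v17 := scale ⟨2199023255552, 0, 0, 0⟩ v14; ok v17 && (
  let v18 := sub v17 v0; ok v18 && (
  let v19 := add v18 v16; ok v19 && (
  let v20 := mul x3 v14; ok v20 && (
  let v21 := mul x1 v20; ok v21 && (
  let v22 := sub v0 v21; ok v22 && (
  let v23 := add v0 v21; ok v23 && (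
  let v24 := mul v4 v11; ok v24 && (
  let v25 := mul v20 v20; ok v25 && (
  let v26 := scale ⟨10774999203840, 0, 0, 0⟩ v10; ok v26 && (
  let v27 := scale ⟨45768245248, 0, 0, 0⟩ v26; ok v27 && (
  let v28 := cst ⟨183207198720, 0, 0, 0⟩; ok v28 && (
  let v29 := add v27 v28; ok v29 && (
  let v30 := mul v26 v29; ok v30 && (
  let v31 := add v7 v30; ok v31 && (
  let v32 := mul v26 v31; ok v32 && (
  let v33 := add v0 v32; ok v33 && (
  let v34 := mul v26 v33; ok v34 && (
  let v35 := scale ⟨549755813888, 0, 0, 0⟩ v34; ok v35 && (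
  let v36 := add v0 v35; ok v36 && (
  let v37 := mul v33 v36; ok v37 && (
  let v38 := mul v16 v21; ok v38 && (
  let v39 := scale ⟨2199023255552, 0, 0, 0⟩ v18; ok v39 && (
  let v40 := add v38 v39; ok v40 && (
  let v41 := add v40 v4; ok v41 && (
  let v42 := mul v24 v41; ok v42 && (
  let v43 := add v42 v0; ok v43 && (
  let v44 := mul v16 v16; ok v44 && (
  let v45 := scale ⟨2199023255552, 0, 0, 0⟩ v44; ok v45 && (
  let v46 := add v45 v0; ok v46 && (
  let v47 := mul v18 v41; ok v47 && (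
  let v48 := sub v47 v0; ok v48 && (
  let v49 := log v43; ok v49 && (
  let v50 := scale ⟨549755813888, 0, 0, 0⟩ v49; ok v50 && (
  let v51 := exp v50; ok v51 && (
  let v52 := cst ⟨3298534883328, 0, 0, 0⟩; ok v52 && (
  let v53 := inv v52; ok v53 && (
  let v54 := mul v0 v53; ok v54 && (
  let v55 := cst ⟨2199023255552, 0, 0, 0⟩; ok v55 && (
  let v56 := add v42 v55; ok v56 && (
  let v57 := inv v56; ok v57 && (
  let v58 := mul v42 v57; ok v58 && (
  let v59 := mul v58 v58; ok v59 && (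
  let v60 := sub v0 v58; ok v60 && (
  let v61 := mul v59 v54; ok v61 && (
  let v62 := add v0 v61; ok v62 && (
  let v63 := mul v60 v62; ok v63 && (
  let v64 := mul v59 v59; ok v64 && (
  let v65 := scale ⟨219915747328, 0, 0, 0⟩ v64; ok v65 && (
  let v66 := mul v41 v63; ok v66 && (
  let v67 := scale ⟨549755813888, 0, 0, 0⟩ v66; ok v67 && (
  let v68 := mul v41 v65; ok v68 && (
  let v69 := scale ⟨549755813888, 0, 0, 0⟩ v68; ok v69 && (
  let v70 := add v67 v69; ok v70 && (
  let v71 := mul v18 v48; ok v71 && (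
  let v72 := scale ⟨4398046511104, 0, 0, 0⟩ v71; ok v72 && (
  let v73 := mul v18 v24; ok v73 && (
  let v74 := mul v73 v48; ok v74 && (
  let v75 := scale ⟨4398046511104, 0, 0, 0⟩ v74; ok v75 && (
  let v76 := add v75 v55; ok v76 && (
  let v77 := inv v76; ok v77 && (
  let v78 := mul v75 v77; ok v78 && (
  let v79 := mul v78 v78; ok v79 && (
  let v80 := sub v0 v78; ok v80 && (
  let v81 := mul v79 v54; ok v81 && (
  let v82 := add v0 v81; ok v82 && (
  let v83 := mul v80 v82; ok v83 && (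
  let v84 := mul v79 v79; ok v84 && (
  let v85 := scale ⟨219915747328, 0, 0, 0⟩ v84; ok v85 && (
  let v86 := mul v72 v83; ok v86 && (
  let v87 := scale ⟨549755813888, 0, 0, 0⟩ v86; ok v87 && (
  let v88 := sub v87 v70; ok v88 && (
  let v89 := mul v72 v85; ok v89 && (
  let v90 := scale ⟨549755813888, 0, 0, 0⟩ v89; ok v90 && (
  let v91 := add v90 v69; ok v91 && (
  let v92 := add v88 v91; ok v92 && (
  let v93 := mul v3 v67; ok v93 && (
  let v94 := neg v93; ok v94 && (
  let v95 := exp v94; ok v95 && (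
  let v96 := mul v3 v69; ok v96 && (
  let v97 := mul v95 v96; ok v97 && (
  let v98 := mul v3 v88; ok v98 && (
  let v99 := neg v98; ok v99 && (
  let v100 := exp v99; ok v100 && (
  let v101 := mul v3 v91; ok v101 && (
  let v102 := mul v100 v101; ok v102 && (
  let v103 := mul v21 v16; ok v103 && (
  let v104 := add v18 v103; ok v104 && (
  let v105 := inv v104; ok v105 && (
  let v106 := mul v23 v105; ok v106 && (
  let v107 := mul v22 v4; ok v107 && (
  let v108 := mul v107 v106; ok v108 && (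
  let v109 := sub v0 v11; ok v109 && (
  let v110 := mul v25 v109; ok v110 && (
  let v111 := mul v8 v8; ok v111 && (
  let v112 := sub v0 v25; ok v112 && (
  let v113 := mul v109 v112; ok v113 && (
  let v114 := mul v24 v48; ok v114 && (
  let v115 := inv v43; ok v115 && (
  let v116 := mul v114 v115; ok v116 && (
  let v117 := add v18 v116; ok v117 && (
  let v118 := mul v43 v117; ok v118 && (
  let v119 := mul v118 v118; ok v119 && (
  let v120 := inv v119; ok v120 && (
  let v121 := mul v113 v120; ok v121 && (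
  let v122 := add v18 v24; ok v122 && (
  let v123 := mul v0 v122; ok v123 && (
  let v124 := inv v123; ok v124 && (
  let v125 := mul x0 v124; ok v125 && (
  let v126 := mul v125 v125; ok v126 && (
  let v127 := mul v126 v113; ok v127 && (
  let v128 := cst ⟨45812285440, 0, 0, 0⟩; ok v128 && (
  let v129 := scale ⟨1527119872, 0, 0, 0⟩ v127; ok v129 && (
  let v130 := sub v128 v129; ok v130 && (
  let v131 := mul v127 v130; ok v131 && (
  let v132 := sub v7 v131; ok v132 && (
  let v133 := mul v127 v132; ok v133 && (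
  let v134 := sub v0 v133; ok v134 && (
  let v135 := add v95 v0; ok v135 && (
  let v136 := mul v95 v95; ok v136 && (
  let v137 := add v136 v0; ok v137 && (
  let v138 := mul v95 v134; ok v138 && (
  let v139 := scale ⟨2199023255552, 0, 0, 0⟩ v138; ok v139 && (
  let v140 := add v137 v139; ok v140 && (
  let v141 := scale ⟨4398046511104, 0, 0, 0⟩ v97; ok v141 && (
  let v142 := sub v140 v141; ok v142 && (
  let v143 := inv v135; ok v143 && (
  let v144 := mul v142 v143; ok v144 && (
  let v145 := add v144 v135; ok v145 && (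
  let v146 := mul v95 v108; ok v146 && (
  let v147 := scale ⟨549755813888, 0, 0, 0⟩ v146; ok v147 && (
  let v148 := mul v147 v145; ok v148 && (
  let v149 := sub v142 v148; ok v149 && (
  isPos 4 v142 && (
  isPos 4 v149 && (
  let v150 := mul v3 v70; ok v150 && (
  let v151 := scale ⟨2199023255552, 0, 0, 0⟩ v150; ok v151 && (
  let v152 := scale ⟨183274307584, 0, 0, 0⟩ v151; ok v152 && (
  let v153 := sub v7 v152; ok v153 && (
  let v154 := mul v151 v153; ok v154 && (
  let v155 := sub v0 v154; ok v155 && (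
  let v156 := mul v70 v155; ok v156 && (
  let v157 := inv v149; ok v157 && (
  let v158 := mul v156 v157; ok v158 && (
  let v159 := mul v3 v158; ok v159 && (
  let v160 := add v159 v7; ok v160 && (
  let v161 := inv v160; ok v161 && (
  let v162 := mul v158 v161; ok v162 && (
  let v163 := mul v3 v162; ok v163 && (
  let v164 := mul v108 v163; ok v164 && (
  let v165 := scale ⟨549755813888, 0, 0, 0⟩ v164; ok v165 && (
  let v166 := sub v0 v165; ok v166 && (
  let v167 := sub v0 v164; ok v167 && (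
  let v168 := inv v167; ok v168 && (
  let v169 := mul v166 v168; ok v169 && (
  let v170 := add v164 v0; ok v170 && (
  let v171 := mul v95 v170; ok v171 && (
  let v172 := mul v106 v169; ok v172 && (
  let v173 := mul x1 v162; ok v173 && (
  let v174 := mul v172 v173; ok v174 && (
  let v175 := mul v164 v169; ok v175 && (
  isPos 4 v167 && (
  let v176 := mul v22 v23; ok v176 && (
  let v177 := add v18 v4; ok v177 && (
  let v178 := mul v21 v18; ok v178 && (
  let v179 := mul v178 v16; ok v179 && (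
  let v180 := scale ⟨2199023255552, 0, 0, 0⟩ v179; ok v180 && (
  let v181 := add v46 v180; ok v181 && (
  let v182 := mul v177 v181; ok v182 && (
  let v183 := inv v182; ok v183 && (
  let v184 := mul v176 v183; ok v184 && (
  let v185 := mul v4 v184; ok v185 && (
  isPos 4 v88 && (
  let v186 := mul v127 v115; ok v186 && (
  let v187 := scale ⟨1527119872, 0, 0, 0⟩ v186; ok v187 && (
  let v188 := sub v128 v187; ok v188 && (
  let v189 := mul v186 v188; ok v189 && (
  let v190 := sub v7 v189; ok v190 && (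
  let v191 := mul v186 v190; ok v191 && (
  let v192 := sub v0 v191; ok v192 && (
  let v193 := add v100 v0; ok v193 && (
  let v194 := mul v100 v100; ok v194 && (
  let v195 := add v194 v0; ok v195 && (
  let v196 := mul v100 v192; ok v196 && (
  let v197 := scale ⟨2199023255552, 0, 0, 0⟩ v196; ok v197 && (
  let v198 := add v195 v197; ok v198 && (
  let v199 := scale ⟨4398046511104, 0, 0, 0⟩ v102; ok v199 && (
  let v200 := sub v198 v199; ok v200 && (
  let v201 := inv v193; ok v201 && (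
  let v202 := mul v200 v201; ok v202 && (
  let v203 := add v202 v193; ok v203 && (
  let v204 := mul v100 v185; ok v204 && (
  let v205 := scale ⟨549755813888, 0, 0, 0⟩ v204; ok v205 && (
  let v206 := mul v205 v203; ok v206 && (
  let v207 := sub v200 v206; ok v207 && (
  isPos 4 v200 && (
  isPos 4 v207 && (
  let v208 := mul v3 v92; ok v208 && (
  let v209 := scale ⟨2199023255552, 0, 0, 0⟩ v208; ok v209 && (
  let v210 := scale ⟨183274307584, 0, 0, 0⟩ v209; ok v210 && (
  let v211 := sub v7 v210; ok v211 && (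
  let v212 := mul v209 v211; ok v212 && (
  let v213 := sub v0 v212; ok v213 && (
  let v214 := mul v92 v213; ok v214 && (
  let v215 := inv v207; ok v215 && (
  let v216 := mul v214 v215; ok v216 && (
  let v217 := mul v3 v216; ok v217 && (
  let v218 := add v217 v7; ok v218 && (
  let v219 := inv v218; ok v219 && (
  let v220 := mul v216 v219; ok v220 && (
  let v221 := mul v3 v220; ok v221 && (
  let v222 := mul v185 v221; ok v222 && (
  let v223 := mul x1 v220; ok v223 && (
  let v224 := add v10 v0; ok v224 && (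
  let v225 := inv v224; ok v225 && (
  let v226 := mul v10 v225; ok v226 && (
  let v227 := scale ⟨2199023255552, 0, 0, 0⟩ v226; ok v227 && (
  let v228 := sub v0 v227; ok v228 && (
  let v229 := sub v0 v10; ok v229 && (
  let v230 := mul x3 v225; ok v230 && (
  let v231 := mul v230 v228; ok v231 && (
  let v232 := add v23 v231; ok v232 && (
  let v233 := scale ⟨224412041216, 0, 0, 0⟩ v14; ok v233 && (
  let v234 := inv v37; ok v234 && (
  let v235 := mul v233 v234; ok v235 && (
  let v236 := scale ⟨4398046511104, 0, 0, 0⟩ v0; ok v236 && (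
  let v237 := mul x0 v20; ok v237 && (
  let v238 := add v236 v237; ok v238 && (
  let v239 := scale ⟨549755813888, 0, 0, 0⟩ v238; ok v239 && (
  let v240 := inv v239; ok v240 && (
  let v241 := mul x0 v240; ok v241 && (
  let v242 := mul v0 v240; ok v242 && (
  let v243 := mul v242 v23; ok v243 && (
  let v244 := mul v243 v235; ok v244 && (
  let v245 := mul v241 v23; ok v245 && (
  let v246 := mul v245 v235; ok v246 && (
  let v247 := sub v0 v246; ok v247 && (
  let v248 := inv v247; ok v248 && (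
  let v249 := mul v171 v246; ok v249 && (
  let v250 := sub v0 v249; ok v250 && (
  let v251 := inv v250; ok v251 && (
  let v252 := scale ⟨2199023255552, 0, 0, 0⟩ v5; ok v252 && (
  let v253 := add v252 v0; ok v253 && (
  let v254 := add v5 v0; ok v254 && (
  let v255 := scale ⟨549755813888, 0, 0, 0⟩ v162; ok v255 && (
  let v256 := inv x0; ok v256 && (
  let v257 := mul x1 v256; ok v257 && (
  let v258 := scale ⟨2199023255552, 0, 0, 0⟩ v257; ok v258 && (
  let v259 := add v255 v258; ok v259 && (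
  let v260 := scale ⟨549755813888, 0, 0, 0⟩ v259; ok v260 && (
  let v261 := mul v10 v20; ok v261 && (
  let v262 := sub v0 v110; ok v262 && (
  let v263 := mul v10 v21; ok v263 && (
  let v264 := scale ⟨2199023255552, 0, 0, 0⟩ v263; ok v264 && (
  let v265 := sub v262 v264; ok v265 && (
  let v266 := mul v261 v261; ok v266 && (
  let v267 := add v265 v266; ok v267 && (
  let v268 := add v267 v0; ok v268 && (
  let v269 := scale ⟨549755813888, 0, 0, 0⟩ v268; ok v269 && (
  let v270 := scale ⟨549755813888, 0, 0, 0⟩ v24; ok v270 && (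
  let v271 := sub v14 v270; ok v271 && (
  let v272 := mul v111 v262; ok v272 && (
  let v273 := mul v272 v13; ok v273 && (
  let v274 := scale ⟨137438953472, 0, 0, 0⟩ v273; ok v274 && (
  let v275 := add v271 v274; ok v275 && (
  let v276 := mul v269 v275; ok v276 && (
  let v277 := add v171 v0; ok v277 && (
  let v278 := mul v277 v248; ok v278 && (
  let v279 := mul v171 v251; ok v279 && (
  let v280 := add v278 v279; ok v280 && (
  let v281 := mul v246 v280; ok v281 && (
  let v282 := add v175 v281; ok v282 && (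
  let v283 := mul v282 v5; ok v283 && (
  let v284 := mul v277 v246; ok v284 && (
  let v285 := mul v284 v248; ok v285 && (
  let v286 := add v175 v285; ok v286 && (
  let v287 := mul v286 v5; ok v287 && (
  let v288 := scale ⟨223338299392, 0, 0, 0⟩ v287; ok v288 && (
  let v289 := add v7 v288; ok v289 && (
  let v290 := mul v287 v289; ok v290 && (
  let v291 := add v0 v290; ok v291 && (
  let v292 := scale ⟨893353197568, 0, 0, 0⟩ v283; ok v292 && (
  let v293 := add v0 v292; ok v293 && (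
  let v294 := mul v283 v293; ok v294 && (
  let v295 := add v0 v294; ok v295 && (
  let v296 := mul v227 v230; ok v296 && (
  let v297 := mul v296 v253; ok v297 && (
  let v298 := mul v297 v295; ok v298 && (
  let v299 := mul v276 v291; ok v299 && (
  let v300 := add v51 v7; ok v300 && (
  let v301 := mul v298 v300; ok v301 && (
  let v302 := add v299 v301; ok v302 && (
  let v303 := add v51 v0; ok v303 && (
  let v304 := mul v298 v303; ok v304 && (
  let v305 := mul v254 v303; ok v305 && (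
  let v306 := mul v305 v230; ok v306 && (
  let v307 := mul v306 v229; ok v307 && (
  let v308 := mul v302 v174; ok v308 && (
  let v309 := mul v307 v260; ok v309 && (
  let v310 := add v308 v309; ok v310 && (
  let v311 := mul x1 v232; ok v311 && (
  let v312 := inv v51; ok v312 && (
  let v313 := mul v311 v312; ok v313 && (
  let v314 := scale ⟨549755813888, 0, 0, 0⟩ v313; ok v314 && (
  let v315 := mul v22 v314; ok v315 && (
  let v316 := add v315 v310; ok v316 && (
  let v317 := mul v4 v316; ok v317 && (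
  let v318 := mul v0 v317; ok v318 && (
  let v319 := mul v302 v277; ok v319 && (
  let v320 := mul v319 v248; ok v320 && (
  let v321 := mul v304 v171; ok v321 && (
  let v322 := mul v321 v251; ok v322 && (
  let v323 := add v320 v322; ok v323 && (
  let v324 := mul v22 v318; ok v324 && (
  let v325 := mul v244 v323; ok v325 && (
  let v326 := add v324 v325; ok v326 && (
  let v327 := mul v111 v326; ok v327 && (
  let v328 := mul v327 v312; ok v328 && (
  let v329 := sub v0 v328; ok v329 && (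
  let v330 := inv v329; ok v330 && (
  let v331 := mul v326 v330; ok v331 && (
  let v332 := mul v4 v331; ok v332 && (
  let v333 := mul v111 v331; ok v333 && (
  let v334 := mul v333 v312; ok v334 && (
  let v335 := sub v0 v334; ok v335 && (
  let v336 := mul v48 v335; ok v336 && (
  let v337 := sub v336 v332; ok v337 && (
  let v338 := inv v337; ok v338 && (
  let v339 := mul v332 v338; ok v339 && (
  let v340 := sub v51 v333; ok v340 && (
  let v341 := inv v340; ok v341 && (
  let v342 := mul v339 v221; ok v342 && (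
  let v343 := scale ⟨549755813888, 0, 0, 0⟩ v342; ok v343 && (
  let v344 := sub v0 v343; ok v344 && (
  let v345 := sub v0 v342; ok v345 && (
  let v346 := inv v345; ok v346 && (
  let v347 := mul v344 v346; ok v347 && (
  let v348 := mul x1 v341; ok v348 && (
  let v349 := mul v223 v338; ok v349 && (
  let v350 := mul v349 v347; ok v350 && (
  let v351 := add v348 v350; ok v351 && (
  let v352 := mul v6 v331; ok v352 && (
  let v353 := mul v341 v352; ok v353 && (
  let v354 := mul v221 v338; ok v354 && (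
  let v355 := mul v354 v347; ok v355 && (
  let v356 := mul v355 v332; ok v356 && (
  let v357 := add v353 v356; ok v357 && (
  let v358 := scale ⟨223338299392, 0, 0, 0⟩ v357; ok v358 && (
  let v359 := add v7 v358; ok v359 && (
  let v360 := mul v357 v359; ok v360 && (
  let v361 := add v0 v360; ok v361 && (
  let v362 := mul v351 v361; ok v362 && (
  let v363 := mul v362 v330; ok v363 && (
  let v364 := mul v363 v323; ok v364 && (
  let v365 := mul v245 v22; ok v365 && (
  let v366 := cst ⟨5497558138880, 0, 0, 0⟩; ok v366 && (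
  let v367 := inv v366; ok v367 && (
  let v368 := mul v52 v367; ok v368 && (
  let v369 := mul v224 v23; ok v369 && (
  let v370 := mul v369 v368; ok v370 && (
  let v371 := mul v177 v105; ok v371 && (
  let v372 := mul v21 v371; ok v372 && (
  let v373 := scale ⟨549755813888, 0, 0, 0⟩ v222; ok v373 && (
  let v374 := sub v0 v373; ok v374 && (
  let v375 := sub v0 v222; ok v375 && (
  let v376 := inv v375; ok v376 && (
  let v377 := mul v374 v376; ok v377 && (
  let v378 := mul v377 v185; ok v378 && (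
  let v379 := mul v111 v121; ok v379 && (
  let v380 := scale ⟨733097230336, 0, 0, 0⟩ v379; ok v380 && (
  let v381 := sub v0 v380; ok v381 && (
  let v382 := mul v121 v381; ok v382 && (
  let v383 := mul v88 v88; ok v383 && (
  let v384 := mul v11 v383; ok v384 && (
  let v385 := add v382 v384; ok v385 && (
  let v386 := mul v378 v223; ok v386 && (
  let v387 := add v385 v0; ok v387 && (
  let v388 := mul v386 v387; ok v388 && (
  let v389 := sub v385 v388; ok v389 && (
  let v390 := scale ⟨366548615168, 0, 0, 0⟩ v44; ok v390 && (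
  let v391 := sub v0 v390; ok v391 && (
  let v392 := mul v25 v391; ok v392 && (
  let v393 := add v389 v392; ok v393 && (
  let v394 := mul v371 v393; ok v394 && (
  let v395 := mul v372 v372; ok v395 && (
  let v396 := add v0 v395; ok v396 && (
  let v397 := inv v396; ok v397 && (
  let v398 := mul v394 v397; ok v398 && (
  let v399 := sub v0 v339; ok v399 && (
  let v400 := mul v399 v398; ok v400 && (
  let v401 := sub v0 v386; ok v401 && (
  isPos 4 v401 && (
  isPos 4 v398 && (
  isPos 4 v399 && (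
  let v402 := mul v363 v239; ok v402 && (
  let v403 := mul v402 v316; ok v403 && (
  let v404 := inv v23; ok v404 && (
  let v405 := mul v403 v404; ok v405 && (
  let v406 := mul v3 v400; ok v406 && (
  let v407 := scale ⟨549755813888, 0, 0, 0⟩ v406; ok v407 && (
  let v408 := sub v0 v407; ok v408 && (
  let v409 := mul v400 v408; ok v409 && (
  let v410 := neg v409; ok v410 && (
  let v411 := mul x1 x3; ok v411 && (
  let v412 := mul v411 v224; ok v412 && (
  let v413 := mul v412 v14; ok v413 && (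
  let v414 := mul v2 v413; ok v414 && (
  let v415 := add v410 v414; ok v415 && (
  let v416 := mul v410 v414; ok v416 && (
  let v417 := mul v3 v416; ok v417 && (
  let v418 := add v415 v417; ok v418 && (
  let v419 := mul v11 v41; ok v419 && (
  let v420 := scale ⟨412316860416, 0, 0, 0⟩ v42; ok v420 && (
  let v421 := sub v7 v420; ok v421 && (
  let v422 := mul v419 v421; ok v422 && (
  let v423 := mul v2 v422; ok v423 && (
  let v424 := neg v423; ok v424 && (
  let v425 := add v418 v424; ok v425 && (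
  let v426 := mul v418 v424; ok v426 && (
  let v427 := mul v3 v426; ok v427 && (
  let v428 := add v425 v427; ok v428 && (
  let v429 := mul x1 v331; ok v429 && (
  let v430 := mul v429 v404; ok v430 && (
  let v431 := mul v2 v430; ok v431 && (
  let v432 := add v428 v431; ok v432 && (
  let v433 := mul v428 v431; ok v433 && (
  let v434 := mul v3 v433; ok v434 && (
  let v435 := add v432 v434; ok v435 && (
  let v436 := mul v2 v370; ok v436 && (
  let v437 := sub v435 v436; ok v437 && (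
  let v438 := mul v4 v370; ok v438 && (
  let v439 := add v0 v438; ok v439 && (
  let v440 := inv v439; ok v440 && (
  let v441 := mul v437 v440; ok v441 && (
  let v442 := mul x1 v8; ok v442 && (
  let v443 := mul v442 v331; ok v443 && (
  let v444 := mul v443 v341; ok v444 && (
  let v445 := mul v2 v444; ok v445 && (
  let v446 := add v441 v445; ok v446 && (
  let v447 := mul v441 v445; ok v447 && (
  let v448 := mul v3 v447; ok v448 && (
  let v449 := add v446 v448; ok v449 && (
  let v450 := mul v3 v449; ok v450 && (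
  let v451 := add v0 v450; ok v451 && (
  let v452 := mul v364 v246; ok v452 && (
  let v453 := mul v4 v365; ok v453 && (
  let v454 := mul v405 v453; ok v454 && (
  let v455 := add v452 v454; ok v455 && (
  let v456 := mul v2 v455; ok v456 && (
  let v457 := add v364 v405; ok v457 && (
  let v458 := mul v2 v457; ok v458 && (
  let v459 := mul v456 v451; ok v459 && (
  let v460 := add v449 v459; ok v460 && (
  let v461 := add v460 v458; ok v461 && (
  let v462 := neg v461; ok v462 && (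
  let v463 := scale ⟨1073741824, 0, 0, 0⟩ v2; ok v463 && (
  let v464 := sub v462 v463; ok v464 && (
  let v465 := sub v19 v0; ok v465 && (
  let v466 := add v465 v55; ok v466 && (
  let v467 := scale ⟨2199023255552, 0, 0, 0⟩ v368; ok v467 && (
  let v468 := sub v466 v467; ok v468 && (
  let v469 := mul v224 v468; ok v469 && (
  let v470 := mul v465 v467; ok v470 && (
  let v471 := add v470 v0; ok v471 && (
  let v472 := inv v471; ok v472 && (
  let v473 := mul v469 v472; ok v473 && (
  let v474 := mul v242 v323; ok v474 && (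
  let v475 := scale ⟨549755813888, 0, 0, 0⟩ v235; ok v475 && (
  let v476 := add v16 v475; ok v476 && (
  let v477 := mul v474 v476; ok v477 && (
  let v478 := scale ⟨2199023255552, 0, 0, 0⟩ v477; ok v478 && (
  let v479 := add v318 v478; ok v479 && (
  let v480 := scale ⟨2199023255552, 0, 0, 0⟩ v479; ok v480 && (
  let v481 := mul v480 v330; ok v481 && (
  let v482 := mul v8 v331; ok v482 && (
  let v483 := sub v23 v482; ok v483 && (
  let v484 := inv v483; ok v484 && (
  let v485 := mul v481 v484; ok v485 && (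
  let v486 := sub v473 v485; ok v486 && (
  let v487 := mul v237 v237; ok v487 && (
  let v488 := cst ⟨14293651161088, 0, 0, 0⟩; ok v488 && (
  let v489 := cst ⟨10995116277760, 0, 0, 0⟩; ok v489 && (
  let v490 := inv v489; ok v490 && (
  let v491 := mul v488 v490; ok v491 && (
  let v492 := mul v487 v491; ok v492 && (
  let v493 := mul v0 v0; ok v493 && (
  let v494 := scale ⟨27487790694400, 0, 0, 0⟩ v493; ok v494 && (
  let v495 := add v492 v494; ok v495 && (
  let v496 := mul v370 v440; ok v496 && (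
  let v497 := sub v39 v4; ok v497 && (
  let v498 := sub v497 v38; ok v498 && (
  let v499 := mul v3 v0; ok v499 && (
  let v500 := mul v23 v323; ok v500 && (
  let v501 := mul v500 v240; ok v501 && (
  let v502 := add v310 v501; ok v502 && (
  let v503 := add v482 v55; ok v503 && (
  let v504 := mul x0 v503; ok v504 && (
  let v505 := mul v495 v496; ok v505 && (
  let v506 := mul v330 v504; ok v506 && (
  let v507 := mul v499 v502; ok v507 && (
  let v508 := mul v506 v507; ok v508 && (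
  let v509 := sub v505 v508; ok v509 && (
  let v510 := scale ⟨549755813888, 0, 0, 0⟩ v482; ok v510 && (
  let v511 := add v0 v510; ok v511 && (
  let v512 := mul v330 v511; ok v512 && (
  let v513 := mul v4 v22; ok v513 && (
  let v514 := mul v513 v232; ok v514 && (
  let v515 := mul v23 v51; ok v515 && (
  let v516 := inv v515; ok v516 && (
  let v517 := mul v514 v516; ok v517 && (
  let v518 := mul v512 v517; ok v518 && (
  let v519 := sub v498 v518; ok v519 && (
  let v520 := mul v235 v509; ok v520 && (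
  let v521 := sub v0 v235; ok v521 && (
  let v522 := mul v11 v519; ok v522 && (
  let v523 := mul v521 v522; ok v523 && (
  let v524 := mul v495 v523; ok v524 && (
  let v525 := add v520 v524; ok v525 && (
  isPos 4 v247 && (
  isPos 4 v250 && (
  let v526 := scale ⟨2199023255552, 0, 0, 0⟩ v327; ok v526 && (
  let v527 := sub v51 v526; ok v527 && (
  isPos 4 v527 && (
  isPos 4 v337 && (
  let v528 := sub v7 v222; ok v528 && (
  isPos 4 v528 && (
  let v529 := scale ⟨687194767360, 0, 0, 0⟩ v0; ok v529 && (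
  let v530 := sub v529 v287; ok v530 && (
  isPos 4 v530 && (
  let v531 := scale ⟨377957122048, 0, 0, 0⟩ v0; ok v531 && (
  let v532 := sub v531 v283; ok v532 && (
  isPos 4 v532 && (
  isPos 4 v483 && (
  isPos 4 v345 && (
  let v533 := sub v529 v357; ok v533 && (
  isPos 4 v533 && (
  isPos 4 v486 && (
  isPos 4 v464 && (
  isPos 4 v525 && (
  isPos 4 v519 && (
  true)))))))))))))))))))))))))))))))))))))))))))))))))))))))))))))))))))))))))))))))))))))))))))))))))))))))))))))))))))))))))))))))))))))))))))))))))))))))))))))))))))))))))))))))))))))))))))))))))))))))))))))))))))))))))))))))))))))))))))))))))))))))))))))))))))))))))))))))))))))))))))))))))))))))))))))))))))))))))))))))))))))))))))))))))))))))))))))))))))))))))))))))))))))))))))))))))))))))))))))))))))))))))))))))))))))))))))))))))))))))))))))))))))))))))))))))))))))))))))))))))))))))))))))))))))))))))))))))))))))))))))))))))))))))))))))))))))))))))))))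
  | _ => false

set_option maxRecDepth 1000000 in
theorem chk2_eq (O : Ops) (m : List O.α)
    (h : chk2 O.cst O.add O.sub O.mul O.scale O.neg O.inv O.exp O.log O.ok O.isPos O.isLt m = true) :
    runG O 4 prog2 m = true := by
  match m, h with
  | [x0, x1, x2, x3], h => exact h

def chkB2 : List opsE.α → Bool :=
  chk2 opsE.cst opsE.add opsE.sub opsE.mul opsE.scale opsE.neg opsE.inv opsE.exp opsE.log opsE.ok opsE.isPos opsE.isLt

theorem chkB2_eq (m : List opsE.α) (h : chkB2 m = true) : runG opsE 4 prog2 m = true :=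
  chk2_eq opsE m h

def prog3 : List Op := [
  .const ⟨1099511627776, 0, 0, 0⟩,
  .mul 2 3,
  .mul 4 4,
  .mul 3 4,
  .mul 0 1,
  .mul 3 3,
  .mul 1 2,
  .const ⟨549755813888, 0, 0, 0⟩,
  .mul 3 9,
  .mul 0 12,
  .scale ⟨549755813888, 0, 0, 0⟩ 0,
  .mul 12 12,
  .mul 1 1,
  .sub 12 0,
  .inv 0,
  .mul 4 0,
  .scale ⟨2199023255552, 0, 0, 0⟩ 0,
  .scale ⟨2199023255552, 0, 0, 0⟩ 2,
  .sub 0 17,
  .add 0 2,
  .mul 23 5,
  .mul 22 0,
  .sub 21 0,
  .add 22 1,
  .mul 19 12,
  .mul 4 4,
  .scale ⟨10774999203840, 0, 0, 0⟩ 15,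
  .scale ⟨45768245248, 0, 0, 0⟩ 0,
  .const ⟨183207198720, 0, 0, 0⟩,
  .add 1 0,
  .mul 3 0,
  .add 23 0,
  .mul 5 0,
  .add 32 0,
  .mul 7 0,
  .scale ⟨549755813888, 0, 0, 0⟩ 0,
  .add 35 0,
  .mul 3 0,
  .mul 21 16,
  .scale ⟨2199023255552, 0, 0, 0⟩ 20,
  .add 1 0,
  .add 0 36,
  .mul 17 0,
  .add 0 42,
  .mul 27 27,
  .scale ⟨2199023255552, 0, 0, 0⟩ 0,
  .add 0 45,
  .mul 28 5,
  .sub 0 47,
  .log 5,
  .scale ⟨549755813888, 0, 0, 0⟩ 0,
  .exp 0,
  .const ⟨3298534883328, 0, 0, 0⟩,
  .inv 0,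
  .mul 53 0,
  .const ⟨2199023255552, 0, 0, 0⟩,
  .add 13 0,
  .inv 0,
  .mul 15 0,
  .mul 0 0,
  .sub 59 1,
  .mul 1 6,
  .add 61 0,
  .mul 2 0,
  .mul 4 4,
  .scale ⟨219915747328, 0, 0, 0⟩ 0,
  .mul 24 2,
  .scale ⟨549755813888, 0, 0, 0⟩ 0,
  .mul 26 2,
  .scale ⟨549755813888, 0, 0, 0⟩ 0,
  .add 2 0,
  .mul 52 22,
  .scale ⟨4398046511104, 0, 0, 0⟩ 0,
  .mul 54 48,
  .mul 0 25,
  .scale ⟨4398046511104, 0, 0, 0⟩ 0,
  .add 0 20,
  .inv 0,
  .mul 2 0,
  .mul 0 0,
  .sub 79 1,
  .mul 1 26,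
  .add 81 0,
  .mul 2 0,
  .mul 4 4,
  .scale ⟨219915747328, 0, 0, 0⟩ 0,
  .mul 13 2,
  .scale ⟨549755813888, 0, 0, 0⟩ 0,
  .sub 0 17,
  .mul 16 3,
  .scale ⟨549755813888, 0, 0, 0⟩ 0,
  .add 0 21,
  .add 3 0,
  .mul 89 25,
  .neg 0,
  .exp 0,
  .mul 92 26,
  .mul 1 0,
  .mul 94 9,
  .neg 0,
  .exp 0,
  .mul 97 9,
  .mul 1 0,
  .mul 81 86,
  .add 85 0,
  .inv 0,
  .mul 82 0,
  .mul 84 102,
  .mul 0 1,
  .sub 108 97,
  .mul 84 0,
  .mul 102 102,
  .sub 111 86,
  .mul 3 0,
  .mul 89 65,
  .inv 71,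
  .mul 1 0,
  .add 98 0,
  .mul 74 0,
  .mul 0 0,
  .inv 0,
  .mul 7 0,
  .add 103 97,
  .mul 122 0,
  .inv 0,
  .mul 125 0,
  .mul 0 0,
  .mul 0 13,
  .const ⟨45812285440, 0, 0, 0⟩,
  .scale ⟨1527119872, 0, 0, 0⟩ 1,
  .sub 1 0,
  .mul 3 0,
  .sub 124 0,
  .mul 5 0,
  .sub 133 0,
  .add 39 134,
  .mul 40 40,
  .add 0 136,
  .mul 42 3,
  .scale ⟨2199023255552, 0, 0, 0⟩ 0,
  .add 2 0,
  .scale ⟨4398046511104, 0, 0, 0⟩ 43,
  .sub 1 0,
  .inv 7,
  .mul 1 0,
  .add 0 9,
  .mul 50 37,
  .scale ⟨549755813888, 0, 0, 0⟩ 0,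
  .mul 0 2,
  .sub 6 0,
  .pos 7,
  .pos 0,
  .mul 146 79,
  .scale ⟨2199023255552, 0, 0, 0⟩ 0,
  .scale ⟨183274307584, 0, 0, 0⟩ 0,
  .sub 145 0,
  .mul 2 0,
  .sub 154 0,
  .mul 85 0,
  .inv 7,
  .mul 1 0,
  .mul 155 0,
  .add 0 152,
  .inv 0,
  .mul 3 0,
  .mul 159 0,
  .mul 55 0,
  .scale ⟨549755813888, 0, 0, 0⟩ 0,
  .sub 165 0,
  .sub 166 2,
  .inv 0,
  .mul 2 0,
  .add 5 169,
  .mul 75 0,
  .mul 65 2,
  .mul 174 10,
  .mul 1 0,
  .mul 10 5,
  .pos 8,
  .mul 153 152,
  .add 158 172,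
  .mul 156 159,
  .mul 0 162,
  .scale ⟨2199023255552, 0, 0, 0⟩ 0,
  .add 134 0,
  .mul 4 0,
  .inv 0,
  .mul 7 0,
  .mul 180 0,
  .pos 97,
  .mul 58 70,
  .scale ⟨1527119872, 0, 0, 0⟩ 0,
  .sub 59 0,
  .mul 2 0,
  .sub 182 0,
  .mul 4 0,
  .sub 191 0,
  .add 92 192,
  .mul 93 93,
  .add 0 194,
  .mul 95 3,
  .scale ⟨2199023255552, 0, 0, 0⟩ 0,
  .add 2 0,
  .scale ⟨4398046511104, 0, 0, 0⟩ 96,
  .sub 1 0,
  .inv 7,
  .mul 1 0,
  .add 0 9,
  .mul 103 18,
  .scale ⟨549755813888, 0, 0, 0⟩ 0,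
  .mul 0 2,
  .sub 6 0,
  .pos 7,
  .pos 0,
  .mul 204 115,
  .scale ⟨2199023255552, 0, 0, 0⟩ 0,
  .scale ⟨183274307584, 0, 0, 0⟩ 0,
  .sub 203 0,
  .mul 2 0,
  .sub 212 0,
  .mul 121 0,
  .inv 7,
  .mul 1 0,
  .mul 213 0,
  .add 0 210,
  .inv 0,
  .mul 3 0,
  .mul 217 0,
  .mul 36 0,
  .mul 224 2,
  .add 213 223,
  .inv 0,
  .mul 215 0,
  .scale ⟨2199023255552, 0, 0, 0⟩ 0,
  .sub 227 0,
  .sub 228 218,
  .mul 233 4,
  .mul 0 2,
  .add 208 0,
  .scale ⟨224412041216, 0, 0, 0⟩ 218,
  .inv 196,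
  .mul 1 0,
  .scale ⟨4398046511104, 0, 0, 0⟩ 235,
  .mul 237 216,
  .add 1 0,
  .scale ⟨549755813888, 0, 0, 0⟩ 0,
  .inv 0,
  .mul 241 0,
  .mul 241 1,
  .mul 0 219,
  .mul 0 8,
  .mul 3 221,
  .mul 0 10,
  .sub 246 0,
  .inv 0,
  .mul 77 2,
  .sub 249 0,
  .inv 0,
  .mul 229 252,
  .mul 0 90,
  .inv 233,
  .mul 1 0,
  .scale ⟨549755813888, 0, 0, 0⟩ 0,
  .sub 256 0,
  .sub 257 2,
  .inv 0,
  .mul 2 0,
  .mul 87 0,
  .mul 6 1,
  .mul 0 257,
  .pos 5,
  .scale ⟨1374389534720, 0, 0, 0⟩ 0,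
  .sub 257 0,
  .pos 0,
  .scale ⟨3092376453120, 0, 0, 0⟩ 2,
  .add 0 211,
  .mul 4 0,
  .add 268 0,
  .scale ⟨1546188226560, 0, 0, 0⟩ 6,
  .add 0 270,
  .mul 8 0,
  .add 272 0,
  .mul 263 253,
  .sub 274 164,
  .mul 265 254,
  .scale ⟨2199023255552, 0, 0, 0⟩ 0,
  .sub 2 0,
  .mul 4 4,
  .add 1 0,
  .add 0 280,
  .scale ⟨549755813888, 0, 0, 0⟩ 0,
  .scale ⟨549755813888, 0, 0, 0⟩ 258,
  .sub 269 0,
  .mul 173 9,
  .mul 0 272,
  .scale ⟨137438953472, 0, 0, 0⟩ 0,
  .add 3 0,
  .mul 6 0,
  .add 118 289,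
  .mul 0 42,
  .mul 120 40,
  .add 1 0,
  .mul 47 0,
  .add 119 0,
  .mul 0 290,
  .mul 6 50,
  .mul 0 49,
  .add 123 0,
  .mul 0 294,
  .scale ⟨223338299392, 0, 0, 0⟩ 0,
  .add 294 0,
  .mul 2 0,
  .add 303 0,
  .scale ⟨893353197568, 0, 0, 0⟩ 8,
  .add 305 0,
  .mul 10 0,
  .add 307 0,
  .mul 81 78,
  .mul 0 40,
  .mul 0 2,
  .mul 22 7,
  .add 261 305,
  .mul 2 0,
  .add 2 0,
  .add 264 315,
  .mul 5 0,
  .mul 44 1,
  .mul 0 88,
  .mul 0 90,
  .mul 5 146,
  .mul 1 60,
  .add 1 0,
  .mul 315 91,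
  .inv 273,
  .mul 1 0,
  .scale ⟨549755813888, 0, 0, 0⟩ 0,
  .mul 305 0,
  .mul 324 5,
  .add 1 0,
  .mul 330 0,
  .mul 16 41,
  .mul 0 84,
  .mul 16 162,
  .mul 0 83,
  .add 2 0,
  .mul 314 5,
  .mul 93 1,
  .add 1 0,
  .mul 228 0,
  .mul 0 15,
  .sub 341 0,
  .inv 0,
  .mul 4 0,
  .mul 340 0,
  .mul 234 1,
  .mul 0 21,
  .sub 347 0,
  .mul 300 0,
  .sub 0 4,
  .inv 0,
  .mul 6 0,
  .sub 301 6,
  .inv 0,
  .mul 2 133,
  .scale ⟨549755813888, 0, 0, 0⟩ 0,
  .sub 356 0,
  .sub 357 2,
  .inv 0,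
  .mul 2 0,
  .mul 362 6,
  .mul 138 10,
  .mul 0 2,
  .add 2 0,
  .mul 358 20,
  .mul 11 0,
  .mul 145 15,
  .mul 0 7,
  .mul 0 23,
  .add 3 0,
  .scale ⟨223338299392, 0, 0, 0⟩ 0,
  .add 364 0,
  .mul 2 0,
  .add 373 0,
  .mul 10 0,
  .mul 0 32,
  .mul 0 40,
  .mul 132 355,
  .const ⟨5497558138880, 0, 0, 0⟩,
  .inv 0,
  .mul 328 0,
  .mul 157 358,
  .mul 0 1,
  .mul 206 278,
  .mul 363 0,
  .scale ⟨549755813888, 0, 0, 0⟩ 163,
  .sub 386 0,
  .sub 387 165,
  .inv 0,
  .mul 2 0,
  .mul 0 205,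
  .mul 280 270,
  .scale ⟨733097230336, 0, 0, 0⟩ 0,
  .sub 393 0,
  .mul 273 0,
  .mul 307 307,
  .mul 385 0,
  .add 2 0,
  .mul 7 175,
  .add 1 399,
  .mul 1 0,
  .sub 3 0,
  .scale ⟨366548615168, 0, 0, 0⟩ 358,
  .sub 403 0,
  .mul 379 0,
  .add 3 0,
  .mul 22 0,
  .mul 22 22,
  .add 408 0,
  .inv 0,
  .mul 3 0,
  .sub 411 59,
  .mul 0 1,
  .sub 413 14,
  .pos 0,
  .pos 3,
  .pos 2,
  .mul 38 175,
  .mul 0 85,
  .inv 393,
  .mul 1 0,
  .mul 415 5,
  .neg 0,
  .exp 0,
  .mul 417 38,
  .add 422 0,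
  .inv 0,
  .mul 3 0,
  .mul 0 406,
  .mul 418 82,
  .mul 0 10,
  .add 428 0,
  .mul 3 0,
  .mul 0 76,
  .mul 427 54,
  .mul 0 186,
  .mul 429 55,
  .mul 16 0,
  .add 2 0,
  .add 4 18,
  .add 437 1,
  .mul 7 0,
  .add 2 0,
  .sub 440 0,
  .scale ⟨1073741824, 0, 0, 0⟩ 437,
  .sub 1 0,
  .sub 424 443,
  .add 0 389,
  .scale ⟨2199023255552, 0, 0, 0⟩ 64,
  .sub 1 0,
  .mul 223 0,
  .mul 4 2,
  .add 0 449,
  .inv 0,
  .mul 3 0,
  .mul 210 116,
  .scale ⟨549755813888, 0, 0, 0⟩ 218,
  .add 438 0,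
  .mul 2 0,
  .scale ⟨2199023255552, 0, 0, 0⟩ 0,
  .add 126 0,
  .scale ⟨2199023255552, 0, 0, 0⟩ 0,
  .mul 0 116,
  .sub 437 33,
  .inv 0,
  .mul 2 0,
  .sub 11 0,
  .mul 227 227,
  .const ⟨14293651161088, 0, 0, 0⟩,
  .const ⟨10995116277760, 0, 0, 0⟩,
  .inv 0,
  .mul 2 0,
  .mul 4 0,
  .mul 470 470,
  .scale ⟨27487790694400, 0, 0, 0⟩ 0,
  .add 2 0,
  .mul 90 49,
  .sub 435 470,
  .sub 0 437,
  .mul 473 476,
  .mul 454 141,
  .mul 0 238,
  .add 156 0,
  .add 53 425,
  .mul 482 0,
  .mul 9 8,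
  .mul 140 1,
  .mul 7 4,
  .mul 1 0,
  .sub 3 0,
  .scale ⟨549755813888, 0, 0, 0⟩ 60,
  .add 488 0,
  .mul 146 0,
  .mul 486 468,
  .mul 0 259,
  .mul 469 441,
  .inv 0,
  .mul 2 0,
  .mul 5 0,
  .sub 20 0,
  .mul 262 10,
  .sub 498 263,
  .mul 488 2,
  .mul 1 0,
  .mul 28 0,
  .add 4 0,
  .pos 256,
  .pos 253,
  .scale ⟨2199023255552, 0, 0, 0⟩ 163,
  .sub 453 0,
  .pos 0,
  .pos 155,
  .sub 498 283,
  .pos 0,
  .scale ⟨687194767360, 0, 0, 0⟩ 506,
  .sub 0 207,
  .pos 0,
  .scale ⟨377957122048, 0, 0, 0⟩ 508,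
  .sub 0 213,
  .pos 0,
  .pos 49,
  .pos 152,
  .sub 3 140,
  .pos 0,
  .pos 47,
  .pos 68,
  .pos 8,
  .pos 14]

def chk3 {α : Type} (cst : Z → α) (add sub mul : α → α → α) (scale : Z → α → α)
    (neg inv exp log : α → α) (ok : α → Bool) (isPos : Nat → α → Bool) (isLt : α → Nat → Bool) :
    List α → Bool
  | [x0, x1, x2, x3] =>
  let v0 := cst ⟨1099511627776, 0, 0, 0⟩; ok v0 && (
  let v1 := mul x1 x2; ok v1 && (
  let v2 := mul x2 x2; ok v2 && (
  let v3 := mul x0 x1; ok v3 && (
  let v4 := mul v3 v2; ok v4 && (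
  let v5 := mul v1 v1; ok v5 && (
  let v6 := mul v4 v3; ok v6 && (
  let v7 := cst ⟨549755813888, 0, 0, 0⟩; ok v7 && (
  let v8 := mul v4 x1; ok v8 && (
  let v9 := mul v8 x3; ok v9 && (
  let v10 := scale ⟨549755813888, 0, 0, 0⟩ v9; ok v10 && (
  let v11 := mul x1 x1; ok v11 && (
  let v12 := mul v10 v10; ok v12 && (
  let v13 := sub v0 v12; ok v13 && (
  let v14 := inv v13; ok v14 && (
  let v15 := mul v10 v14; ok v15 && (
  let v16 := scale ⟨2199023255552, 0, 0, 0⟩ v15; ok v16 && (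
  let v17 := scale ⟨2199023255552, 0, 0, 0⟩ v14; ok v17 && (
  let v18 := sub v17 v0; ok v18 && (
  let v19 := add v18 v16; ok v19 && (
  let v20 := mul x3 v14; ok v20 && (
  let v21 := mul x1 v20; ok v21 && (
  let v22 := sub v0 v21; ok v22 && (
  let v23 := add v0 v21; ok v23 && (
  let v24 := mul v4 v11; ok v24 && (
  let v25 := mul v20 v20; ok v25 && (
  let v26 := scale ⟨10774999203840, 0, 0, 0⟩ v10; ok v26 && (
  let v27 := scale ⟨45768245248, 0, 0, 0⟩ v26; ok v27 && (
  let v28 := cst ⟨183207198720, 0, 0, 0⟩; ok v28 && (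
  let v29 := add v27 v28; ok v29 && (
  let v30 := mul v26 v29; ok v30 && (
  let v31 := add v7 v30; ok v31 && (
  let v32 := mul v26 v31; ok v32 && (
  let v33 := add v0 v32; ok v33 && (
  let v34 := mul v26 v33; ok v34 && (
  let v35 := scale ⟨549755813888, 0, 0, 0⟩ v34; ok v35 && (
  let v36 := add v0 v35; ok v36 && (
  let v37 := mul v33 v36; ok v37 && (
  let v38 := mul v16 v21; ok v38 && (
  let v39 := scale ⟨2199023255552, 0, 0, 0⟩ v18; ok v39 && (
  let v40 := add v38 v39; ok v40 && (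
  let v41 := add v40 v4; ok v41 && (
  let v42 := mul v24 v41; ok v42 && (
  let v43 := add v42 v0; ok v43 && (
  let v44 := mul v16 v16; ok v44 && (
  let v45 := scale ⟨2199023255552, 0, 0, 0⟩ v44; ok v45 && (
  let v46 := add v45 v0; ok v46 && (
  let v47 := mul v18 v41; ok v47 && (
  let v48 := sub v47 v0; ok v48 && (
  let v49 := log v43; ok v49 && (
  let v50 := scale ⟨549755813888, 0, 0, 0⟩ v49; ok v50 && (
  let v51 := exp v50; ok v51 && (
  let v52 := cst ⟨3298534883328, 0, 0, 0⟩; ok v52 && (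
  let v53 := inv v52; ok v53 && (
  let v54 := mul v0 v53; ok v54 && (
  let v55 := cst ⟨2199023255552, 0, 0, 0⟩; ok v55 && (
  let v56 := add v42 v55; ok v56 && (
  let v57 := inv v56; ok v57 && (
  let v58 := mul v42 v57; ok v58 && (
  let v59 := mul v58 v58; ok v59 && (
  let v60 := sub v0 v58; ok v60 && (
  let v61 := mul v59 v54; ok v61 && (
  let v62 := add v0 v61; ok v62 && (
  let v63 := mul v60 v62; ok v63 && (
  let v64 := mul v59 v59; ok v64 && (
  let v65 := scale ⟨219915747328, 0, 0, 0⟩ v64; ok v65 && (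
  let v66 := mul v41 v63; ok v66 && (
  let v67 := scale ⟨549755813888, 0, 0, 0⟩ v66; ok v67 && (
  let v68 := mul v41 v65; ok v68 && (
  let v69 := scale ⟨549755813888, 0, 0, 0⟩ v68; ok v69 && (
  let v70 := add v67 v69; ok v70 && (
  let v71 := mul v18 v48; ok v71 && (
  let v72 := scale ⟨4398046511104, 0, 0, 0⟩ v71; ok v72 && (
  let v73 := mul v18 v24; ok v73 && (
  let v74 := mul v73 v48; ok v74 && (
  let v75 := scale ⟨4398046511104, 0, 0, 0⟩ v74; ok v75 && (
  let v76 := add v75 v55; ok v76 && (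
  let v77 := inv v76; ok v77 && (
  let v78 := mul v75 v77; ok v78 && (
  let v79 := mul v78 v78; ok v79 && (
  let v80 := sub v0 v78; ok v80 && (
  let v81 := mul v79 v54; ok v81 && (
  let v82 := add v0 v81; ok v82 && (
  let v83 := mul v80 v82; ok v83 && (
  let v84 := mul v79 v79; ok v84 && (
  let v85 := scale ⟨219915747328, 0, 0, 0⟩ v84; ok v85 && (
  let v86 := mul v72 v83; ok v86 && (
  let v87 := scale ⟨549755813888, 0, 0, 0⟩ v86; ok v87 && (
  let v88 := sub v87 v70; ok v88 && (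
  let v89 := mul v72 v85; ok v89 && (
  let v90 := scale ⟨549755813888, 0, 0, 0⟩ v89; ok v90 && (
  let v91 := add v90 v69; ok v91 && (
  let v92 := add v88 v91; ok v92 && (
  let v93 := mul v3 v67; ok v93 && (
  let v94 := neg v93; ok v94 && (
  let v95 := exp v94; ok v95 && (
  let v96 := mul v3 v69; ok v96 && (
  let v97 := mul v95 v96; ok v97 && (
  let v98 := mul v3 v88; ok v98 && (
  let v99 := neg v98; ok v99 && (
  let v100 := exp v99; ok v100 && (
  let v101 := mul v3 v91; ok v101 && (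
  let v102 := mul v100 v101; ok v102 && (
  let v103 := mul v21 v16; ok v103 && (
  let v104 := add v18 v103; ok v104 && (
  let v105 := inv v104; ok v105 && (
  let v106 := mul v23 v105; ok v106 && (
  let v107 := mul v22 v4; ok v107 && (
  let v108 := mul v107 v106; ok v108 && (
  let v109 := sub v0 v11; ok v109 && (
  let v110 := mul v25 v109; ok v110 && (
  let v111 := mul v8 v8; ok v111 && (
  let v112 := sub v0 v25; ok v112 && (
  let v113 := mul v109 v112; ok v113 && (
  let v114 := mul v24 v48; ok v114 && (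
  let v115 := inv v43; ok v115 && (
  let v116 := mul v114 v115; ok v116 && (
  let v117 := add v18 v116; ok v117 && (
  let v118 := mul v43 v117; ok v118 && (
  let v119 := mul v118 v118; ok v119 && (
  let v120 := inv v119; ok v120 && (
  let v121 := mul v113 v120; ok v121 && (
  let v122 := add v18 v24; ok v122 && (
  let v123 := mul v0 v122; ok v123 && (
  let v124 := inv v123; ok v124 && (
  let v125 := mul x0 v124; ok v125 && (
  let v126 := mul v125 v125; ok v126 && (
  let v127 := mul v126 v113; ok v127 && (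
  let v128 := cst ⟨45812285440, 0, 0, 0⟩; ok v128 && (
  let v129 := scale ⟨1527119872, 0, 0, 0⟩ v127; ok v129 && (
  let v130 := sub v128 v129; ok v130 && (
  let v131 := mul v127 v130; ok v131 && (
  let v132 := sub v7 v131; ok v132 && (
  let v133 := mul v127 v132; ok v133 && (
  let v134 := sub v0 v133; ok v134 && (
  let v135 := add v95 v0; ok v135 && (
  let v136 := mul v95 v95; ok v136 && (
  let v137 := add v136 v0; ok v137 && (
  let v138 := mul v95 v134; ok v138 && (
  let v139 := scale ⟨2199023255552, 0, 0, 0⟩ v138; ok v139 && (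
  let v140 := add v137 v139; ok v140 && (
  let v141 := scale ⟨4398046511104, 0, 0, 0⟩ v97; ok v141 && (
  let v142 := sub v140 v141; ok v142 && (
  let v143 := inv v135; ok v143 && (
  let v144 := mul v142 v143; ok v144 && (
  let v145 := add v144 v135; ok v145 && (
  let v146 := mul v95 v108; ok v146 && (
  let v147 := scale ⟨549755813888, 0, 0, 0⟩ v146; ok v147 && (
  let v148 := mul v147 v145; ok v148 && (
  let v149 := sub v142 v148; ok v149 && (
  isPos 4 v142 && (
  isPos 4 v149 && (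
  let v150 := mul v3 v70; ok v150 && (
  let v151 := scale ⟨2199023255552, 0, 0, 0⟩ v150; ok v151 && (
  let v152 := scale ⟨183274307584, 0, 0, 0⟩ v151; ok v152 && (
  let v153 := sub v7 v152; ok v153 && (
  let v154 := mul v151 v153; ok v154 && (
  let v155 := sub v0 v154; ok v155 && (
  let v156 := mul v70 v155; ok v156 && (
  let v157 := inv v149; ok v157 && (
  let v158 := mul v156 v157; ok v158 && (
  let v159 := mul v3 v158; ok v159 && (
  let v160 := add v159 v7; ok v160 && (
  let v161 := inv v160; ok v161 && (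
  let v162 := mul v158 v161; ok v162 && (
  let v163 := mul v3 v162; ok v163 && (
  let v164 := mul v108 v163; ok v164 && (
  let v165 := scale ⟨549755813888, 0, 0, 0⟩ v164; ok v165 && (
  let v166 := sub v0 v165; ok v166 && (
  let v167 := sub v0 v164; ok v167 && (
  let v168 := inv v167; ok v168 && (
  let v169 := mul v166 v168; ok v169 && (
  let v170 := add v164 v0; ok v170 && (
  let v171 := mul v95 v170; ok v171 && (
  let v172 := mul v106 v169; ok v172 && (
  let v173 := mul x1 v162; ok v173 && (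
  let v174 := mul v172 v173; ok v174 && (
  let v175 := mul v164 v169; ok v175 && (
  isPos 4 v167 && (
  let v176 := mul v22 v23; ok v176 && (
  let v177 := add v18 v4; ok v177 && (
  let v178 := mul v21 v18; ok v178 && (
  let v179 := mul v178 v16; ok v179 && (
  let v180 := scale ⟨2199023255552, 0, 0, 0⟩ v179; ok v180 && (
  let v181 := add v46 v180; ok v181 && (
  let v182 := mul v177 v181; ok v182 && (
  let v183 := inv v182; ok v183 && (
  let v184 := mul v176 v183; ok v184 && (
  let v185 := mul v4 v184; ok v185 && (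
  isPos 4 v88 && (
  let v186 := mul v127 v115; ok v186 && (
  let v187 := scale ⟨1527119872, 0, 0, 0⟩ v186; ok v187 && (
  let v188 := sub v128 v187; ok v188 && (
  let v189 := mul v186 v188; ok v189 && (
  let v190 := sub v7 v189; ok v190 && (
  let v191 := mul v186 v190; ok v191 && (
  let v192 := sub v0 v191; ok v192 && (
  let v193 := add v100 v0; ok v193 && (
  let v194 := mul v100 v100; ok v194 && (
  let v195 := add v194 v0; ok v195 && (
  let v196 := mul v100 v192; ok v196 && (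
  let v197 := scale ⟨2199023255552, 0, 0, 0⟩ v196; ok v197 && (
  let v198 := add v195 v197; ok v198 && (
  let v199 := scale ⟨4398046511104, 0, 0, 0⟩ v102; ok v199 && (
  let v200 := sub v198 v199; ok v200 && (
  let v201 := inv v193; ok v201 && (
  let v202 := mul v200 v201; ok v202 && (
  let v203 := add v202 v193; ok v203 && (
  let v204 := mul v100 v185; ok v204 && (
  let v205 := scale ⟨549755813888, 0, 0, 0⟩ v204; ok v205 && (
  let v206 := mul v205 v203; ok v206 && (
  let v207 := sub v200 v206; ok v207 && (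
  isPos 4 v200 && (
  isPos 4 v207 && (
  let v208 := mul v3 v92; ok v208 && (
  let v209 := scale ⟨2199023255552, 0, 0, 0⟩ v208; ok v209 && (
  let v210 := scale ⟨183274307584, 0, 0, 0⟩ v209; ok v210 && (
  let v211 := sub v7 v210; ok v211 && (
  let v212 := mul v209 v211; ok v212 && (
  let v213 := sub v0 v212; ok v213 && (
  let v214 := mul v92 v213; ok v214 && (
  let v215 := inv v207; ok v215 && (
  let v216 := mul v214 v215; ok v216 && (
  let v217 := mul v3 v216; ok v217 && (
  let v218 := add v217 v7; ok v218 && (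
  let v219 := inv v218; ok v219 && (
  let v220 := mul v216 v219; ok v220 && (
  let v221 := mul v3 v220; ok v221 && (
  let v222 := mul v185 v221; ok v222 && (
  let v223 := mul x1 v220; ok v223 && (
  let v224 := add v10 v0; ok v224 && (
  let v225 := inv v224; ok v225 && (
  let v226 := mul v10 v225; ok v226 && (
  let v227 := scale ⟨2199023255552, 0, 0, 0⟩ v226; ok v227 && (
  let v228 := sub v0 v227; ok v228 && (
  let v229 := sub v0 v10; ok v229 && (
  let v230 := mul x3 v225; ok v230 && (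
  let v231 := mul v230 v228; ok v231 && (
  let v232 := add v23 v231; ok v232 && (
  let v233 := scale ⟨224412041216, 0, 0, 0⟩ v14; ok v233 && (
  let v234 := inv v37; ok v234 && (
  let v235 := mul v233 v234; ok v235 && (
  let v236 := scale ⟨4398046511104, 0, 0, 0⟩ v0; ok v236 && (
  let v237 := mul x0 v20; ok v237 && (
  let v238 := add v236 v237; ok v238 && (
  let v239 := scale ⟨549755813888, 0, 0, 0⟩ v238; ok v239 && (
  let v240 := inv v239; ok v240 && (
  let v241 := mul x0 v240; ok v241 && (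
  let v242 := mul v0 v240; ok v242 && (
  let v243 := mul v242 v23; ok v243 && (
  let v244 := mul v243 v235; ok v244 && (
  let v245 := mul v241 v23; ok v245 && (
  let v246 := mul v245 v235; ok v246 && (
  let v247 := sub v0 v246; ok v247 && (
  let v248 := inv v247; ok v248 && (
  let v249 := mul v171 v246; ok v249 && (
  let v250 := sub v0 v249; ok v250 && (
  let v251 := inv v250; ok v251 && (
  let v252 := mul v22 x0; ok v252 && (
  let v253 := mul v252 v162; ok v253 && (
  let v254 := inv v20; ok v254 && (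
  let v255 := mul v253 v254; ok v255 && (
  let v256 := scale ⟨549755813888, 0, 0, 0⟩ v255; ok v256 && (
  let v257 := sub v0 v256; ok v257 && (
  let v258 := sub v0 v255; ok v258 && (
  let v259 := inv v258; ok v259 && (
  let v260 := mul v257 v259; ok v260 && (
  let v261 := mul v173 v260; ok v261 && (
  let v262 := mul v255 v260; ok v262 && (
  let v263 := mul v262 v5; ok v263 && (
  isPos 4 v258 && (
  let v264 := scale ⟨1374389534720, 0, 0, 0⟩ v263; ok v264 && (
  let v265 := sub v7 v264; ok v265 && (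
  isPos 4 v265 && (
  let v266 := scale ⟨3092376453120, 0, 0, 0⟩ v263; ok v266 && (
  let v267 := add v266 v55; ok v267 && (
  let v268 := mul v263 v267; ok v268 && (
  let v269 := add v0 v268; ok v269 && (
  let v270 := scale ⟨1546188226560, 0, 0, 0⟩ v263; ok v270 && (
  let v271 := add v270 v0; ok v271 && (
  let v272 := mul v263 v271; ok v272 && (
  let v273 := add v0 v272; ok v273 && (
  let v274 := mul v10 v20; ok v274 && (
  let v275 := sub v0 v110; ok v275 && (
  let v276 := mul v10 v21; ok v276 && (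
  let v277 := scale ⟨2199023255552, 0, 0, 0⟩ v276; ok v277 && (
  let v278 := sub v275 v277; ok v278 && (
  let v279 := mul v274 v274; ok v279 && (
  let v280 := add v278 v279; ok v280 && (
  let v281 := add v280 v0; ok v281 && (
  let v282 := scale ⟨549755813888, 0, 0, 0⟩ v281; ok v282 && (
  let v283 := scale ⟨549755813888, 0, 0, 0⟩ v24; ok v283 && (
  let v284 := sub v14 v283; ok v284 && (
  let v285 := mul v111 v275; ok v285 && (
  let v286 := mul v285 v13; ok v286 && (
  let v287 := scale ⟨137438953472, 0, 0, 0⟩ v286; ok v287 && (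
  let v288 := add v284 v287; ok v288 && (
  let v289 := mul v282 v288; ok v289 && (
  let v290 := add v171 v0; ok v290 && (
  let v291 := mul v290 v248; ok v291 && (
  let v292 := mul v171 v251; ok v292 && (
  let v293 := add v291 v292; ok v293 && (
  let v294 := mul v246 v293; ok v294 && (
  let v295 := add v175 v294; ok v295 && (
  let v296 := mul v295 v5; ok v296 && (
  let v297 := mul v290 v246; ok v297 && (
  let v298 := mul v297 v248; ok v298 && (
  let v299 := add v175 v298; ok v299 && (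
  let v300 := mul v299 v5; ok v300 && (
  let v301 := scale ⟨223338299392, 0, 0, 0⟩ v300; ok v301 && (
  let v302 := add v7 v301; ok v302 && (
  let v303 := mul v300 v302; ok v303 && (
  let v304 := add v0 v303; ok v304 && (
  let v305 := scale ⟨893353197568, 0, 0, 0⟩ v296; ok v305 && (
  let v306 := add v0 v305; ok v306 && (
  let v307 := mul v296 v306; ok v307 && (
  let v308 := add v0 v307; ok v308 && (
  let v309 := mul v227 v230; ok v309 && (
  let v310 := mul v309 v269; ok v310 && (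
  let v311 := mul v310 v308; ok v311 && (
  let v312 := mul v289 v304; ok v312 && (
  let v313 := add v51 v7; ok v313 && (
  let v314 := mul v311 v313; ok v314 && (
  let v315 := add v312 v314; ok v315 && (
  let v316 := add v51 v0; ok v316 && (
  let v317 := mul v311 v316; ok v317 && (
  let v318 := mul v273 v316; ok v318 && (
  let v319 := mul v318 v230; ok v319 && (
  let v320 := mul v319 v229; ok v320 && (
  let v321 := mul v315 v174; ok v321 && (
  let v322 := mul v320 v261; ok v322 && (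
  let v323 := add v321 v322; ok v323 && (
  let v324 := mul v8 v232; ok v324 && (
  let v325 := inv v51; ok v325 && (
  let v326 := mul v324 v325; ok v326 && (
  let v327 := scale ⟨549755813888, 0, 0, 0⟩ v326; ok v327 && (
  let v328 := mul v22 v327; ok v328 && (
  let v329 := mul v4 v323; ok v329 && (
  let v330 := add v328 v329; ok v330 && (
  let v331 := mul v0 v330; ok v331 && (
  let v332 := mul v315 v290; ok v332 && (
  let v333 := mul v332 v248; ok v333 && (
  let v334 := mul v317 v171; ok v334 && (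
  let v335 := mul v334 v251; ok v335 && (
  let v336 := add v333 v335; ok v336 && (
  let v337 := mul v22 v331; ok v337 && (
  let v338 := mul v244 v336; ok v338 && (
  let v339 := add v337 v338; ok v339 && (
  let v340 := mul v111 v339; ok v340 && (
  let v341 := mul v340 v325; ok v341 && (
  let v342 := sub v0 v341; ok v342 && (
  let v343 := inv v342; ok v343 && (
  let v344 := mul v339 v343; ok v344 && (
  let v345 := mul v4 v344; ok v345 && (
  let v346 := mul v111 v344; ok v346 && (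
  let v347 := mul v346 v325; ok v347 && (
  let v348 := sub v0 v347; ok v348 && (
  let v349 := mul v48 v348; ok v349 && (
  let v350 := sub v349 v345; ok v350 && (
  let v351 := inv v350; ok v351 && (
  let v352 := mul v345 v351; ok v352 && (
  let v353 := sub v51 v346; ok v353 && (
  let v354 := inv v353; ok v354 && (
  let v355 := mul v352 v221; ok v355 && (
  let v356 := scale ⟨549755813888, 0, 0, 0⟩ v355; ok v356 && (
  let v357 := sub v0 v356; ok v357 && (
  let v358 := sub v0 v355; ok v358 && (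
  let v359 := inv v358; ok v359 && (
  let v360 := mul v357 v359; ok v360 && (
  let v361 := mul x1 v354; ok v361 && (
  let v362 := mul v223 v351; ok v362 && (
  let v363 := mul v362 v360; ok v363 && (
  let v364 := add v361 v363; ok v364 && (
  let v365 := mul v6 v344; ok v365 && (
  let v366 := mul v354 v365; ok v366 && (
  let v367 := mul v221 v351; ok v367 && (
  let v368 := mul v367 v360; ok v368 && (
  let v369 := mul v368 v345; ok v369 && (
  let v370 := add v366 v369; ok v370 && (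
  let v371 := scale ⟨223338299392, 0, 0, 0⟩ v370; ok v371 && (
  let v372 := add v7 v371; ok v372 && (
  let v373 := mul v370 v372; ok v373 && (
  let v374 := add v0 v373; ok v374 && (
  let v375 := mul v364 v374; ok v375 && (
  let v376 := mul v375 v343; ok v376 && (
  let v377 := mul v376 v336; ok v377 && (
  let v378 := mul v245 v22; ok v378 && (
  let v379 := cst ⟨5497558138880, 0, 0, 0⟩; ok v379 && (
  let v380 := inv v379; ok v380 && (
  let v381 := mul v52 v380; ok v381 && (
  let v382 := mul v224 v23; ok v382 && (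
  let v383 := mul v382 v381; ok v383 && (
  let v384 := mul v177 v105; ok v384 && (
  let v385 := mul v21 v384; ok v385 && (
  let v386 := scale ⟨549755813888, 0, 0, 0⟩ v222; ok v386 && (
  let v387 := sub v0 v386; ok v387 && (
  let v388 := sub v0 v222; ok v388 && (
  let v389 := inv v388; ok v389 && (
  let v390 := mul v387 v389; ok v390 && (
  let v391 := mul v390 v185; ok v391 && (
  let v392 := mul v111 v121; ok v392 && (
  let v393 := scale ⟨733097230336, 0, 0, 0⟩ v392; ok v393 && (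
  let v394 := sub v0 v393; ok v394 && (
  let v395 := mul v121 v394; ok v395 && (
  let v396 := mul v88 v88; ok v396 && (
  let v397 := mul v11 v396; ok v397 && (
  let v398 := add v395 v397; ok v398 && (
  let v399 := mul v391 v223; ok v399 && (
  let v400 := add v398 v0; ok v400 && (
  let v401 := mul v399 v400; ok v401 && (
  let v402 := sub v398 v401; ok v402 && (
  let v403 := scale ⟨366548615168, 0, 0, 0⟩ v44; ok v403 && (
  let v404 := sub v0 v403; ok v404 && (
  let v405 := mul v25 v404; ok v405 && (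
  let v406 := add v402 v405; ok v406 && (
  let v407 := mul v384 v406; ok v407 && (
  let v408 := mul v385 v385; ok v408 && (
  let v409 := add v0 v408; ok v409 && (
  let v410 := inv v409; ok v410 && (
  let v411 := mul v407 v410; ok v411 && (
  let v412 := sub v0 v352; ok v412 && (
  let v413 := mul v412 v411; ok v413 && (
  let v414 := sub v0 v399; ok v414 && (
  isPos 4 v414 && (
  isPos 4 v411 && (
  isPos 4 v412 && (
  let v415 := mul v376 v239; ok v415 && (
  let v416 := mul v415 v330; ok v416 && (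
  let v417 := inv v23; ok v417 && (
  let v418 := mul v416 v417; ok v418 && (
  let v419 := mul v3 v413; ok v419 && (
  let v420 := neg v419; ok v420 && (
  let v421 := exp v420; ok v421 && (
  let v422 := mul v4 v383; ok v422 && (
  let v423 := add v0 v422; ok v423 && (
  let v424 := inv v423; ok v424 && (
  let v425 := mul v421 v424; ok v425 && (
  let v426 := mul v425 v19; ok v426 && (
  let v427 := mul v8 v344; ok v427 && (
  let v428 := mul v427 v417; ok v428 && (
  let v429 := add v0 v428; ok v429 && (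
  let v430 := mul v426 v429; ok v430 && (
  let v431 := mul v430 v354; ok v431 && (
  let v432 := mul v4 v377; ok v432 && (
  let v433 := mul v432 v246; ok v433 && (
  let v434 := mul v4 v378; ok v434 && (
  let v435 := mul v418 v434; ok v435 && (
  let v436 := add v433 v435; ok v436 && (
  let v437 := add v432 v418; ok v437 && (
  let v438 := add v0 v436; ok v438 && (
  let v439 := mul v431 v438; ok v439 && (
  let v440 := add v437 v439; ok v440 && (
  let v441 := sub v0 v440; ok v441 && (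
  let v442 := scale ⟨1073741824, 0, 0, 0⟩ v4; ok v442 && (
  let v443 := sub v441 v442; ok v443 && (
  let v444 := sub v19 v0; ok v444 && (
  let v445 := add v444 v55; ok v445 && (
  let v446 := scale ⟨2199023255552, 0, 0, 0⟩ v381; ok v446 && (
  let v447 := sub v445 v446; ok v447 && (
  let v448 := mul v224 v447; ok v448 && (
  let v449 := mul v444 v446; ok v449 && (
  let v450 := add v449 v0; ok v450 && (
  let v451 := inv v450; ok v451 && (
  let v452 := mul v448 v451; ok v452 && (
  let v453 := mul v242 v336; ok v453 && (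
  let v454 := scale ⟨549755813888, 0, 0, 0⟩ v235; ok v454 && (
  let v455 := add v16 v454; ok v455 && (
  let v456 := mul v453 v455; ok v456 && (
  let v457 := scale ⟨2199023255552, 0, 0, 0⟩ v456; ok v457 && (
  let v458 := add v331 v457; ok v458 && (
  let v459 := scale ⟨2199023255552, 0, 0, 0⟩ v458; ok v459 && (
  let v460 := mul v459 v343; ok v460 && (
  let v461 := sub v23 v427; ok v461 && (
  let v462 := inv v461; ok v462 && (
  let v463 := mul v460 v462; ok v463 && (
  let v464 := sub v452 v463; ok v464 && (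
  let v465 := mul v237 v237; ok v465 && (
  let v466 := cst ⟨14293651161088, 0, 0, 0⟩; ok v466 && (
  let v467 := cst ⟨10995116277760, 0, 0, 0⟩; ok v467 && (
  let v468 := inv v467; ok v468 && (
  let v469 := mul v466 v468; ok v469 && (
  let v470 := mul v465 v469; ok v470 && (
  let v471 := mul v0 v0; ok v471 && (
  let v472 := scale ⟨27487790694400, 0, 0, 0⟩ v471; ok v472 && (
  let v473 := add v470 v472; ok v473 && (
  let v474 := mul v383 v424; ok v474 && (
  let v475 := sub v39 v4; ok v475 && (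
  let v476 := sub v475 v38; ok v476 && (
  let v477 := mul v3 v0; ok v477 && (
  let v478 := mul v23 v336; ok v478 && (
  let v479 := mul v478 v240; ok v479 && (
  let v480 := add v323 v479; ok v480 && (
  let v481 := add v427 v55; ok v481 && (
  let v482 := mul x0 v481; ok v482 && (
  let v483 := mul v473 v474; ok v483 && (
  let v484 := mul v343 v482; ok v484 && (
  let v485 := mul v477 v480; ok v485 && (
  let v486 := mul v484 v485; ok v486 && (
  let v487 := sub v483 v486; ok v487 && (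
  let v488 := scale ⟨549755813888, 0, 0, 0⟩ v427; ok v488 && (
  let v489 := add v0 v488; ok v489 && (
  let v490 := mul v343 v489; ok v490 && (
  let v491 := mul v4 v22; ok v491 && (
  let v492 := mul v491 v232; ok v492 && (
  let v493 := mul v23 v51; ok v493 && (
  let v494 := inv v493; ok v494 && (
  let v495 := mul v492 v494; ok v495 && (
  let v496 := mul v490 v495; ok v496 && (
  let v497 := sub v476 v496; ok v497 && (
  let v498 := mul v235 v487; ok v498 && (
  let v499 := sub v0 v235; ok v499 && (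
  let v500 := mul v11 v497; ok v500 && (
  let v501 := mul v499 v500; ok v501 && (
  let v502 := mul v473 v501; ok v502 && (
  let v503 := add v498 v502; ok v503 && (
  isPos 4 v247 && (
  isPos 4 v250 && (
  let v504 := scale ⟨2199023255552, 0, 0, 0⟩ v340; ok v504 && (
  let v505 := sub v51 v504; ok v505 && (
  isPos 4 v505 && (
  isPos 4 v350 && (
  let v506 := sub v7 v222; ok v506 && (
  isPos 4 v506 && (
  let v507 := scale ⟨687194767360, 0, 0, 0⟩ v0; ok v507 && (
  let v508 := sub v507 v300; ok v508 && (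
  isPos 4 v508 && (
  let v509 := scale ⟨377957122048, 0, 0, 0⟩ v0; ok v509 && (
  let v510 := sub v509 v296; ok v510 && (
  isPos 4 v510 && (
  isPos 4 v461 && (
  isPos 4 v358 && (
  let v511 := sub v507 v370; ok v511 && (
  isPos 4 v511 && (
  isPos 4 v464 && (
  isPos 4 v443 && (
  isPos 4 v503 && (
  isPos 4 v497 && (
  true)))))))))))))))))))))))))))))))))))))))))))))))))))))))))))))))))))))))))))))))))))))))))))))))))))))))))))))))))))))))))))))))))))))))))))))))))))))))))))))))))))))))))))))))))))))))))))))))))))))))))))))))))))))))))))))))))))))))))))))))))))))))))))))))))))))))))))))))))))))))))))))))))))))))))))))))))))))))))))))))))))))))))))))))))))))))))))))))))))))))))))))))))))))))))))))))))))))))))))))))))))))))))))))))))))))))))))))))))))))))))))))))))))))))))))))))))))))))))))))))))))))))))))))))))))))))))))))))))))))))))))))))))))))))))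
  | _ => false

set_option maxRecDepth 1000000 in
theorem chk3_eq (O : Ops) (m : List O.α)
    (h : chk3 O.cst O.add O.sub O.mul O.scale O.neg O.inv O.exp O.log O.ok O.isPos O.isLt m = true) :
    runG O 4 prog3 m = true := by
  match m, h with
  | [x0, x1, x2, x3], h => exact h

def chkB3 : List opsE.α → Bool :=
  chk3 opsE.cst opsE.add opsE.sub opsE.mul opsE.scale opsE.neg opsE.inv opsE.exp opsE.log opsE.ok opsE.isPos opsE.isLt

theorem chkB3_eq (m : List opsE.α) (h : chkB3 m = true) : runG opsE 4 prog3 m = true :=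
  chk3_eq opsE m h

def prog4 : List Op := [
  .const ⟨1099511627776, 0, 0, 0⟩,
  .mul 2 3,
  .mul 4 4,
  .mul 3 4,
  .mul 0 1,
  .mul 3 3,
  .mul 1 2,
  .const ⟨549755813888, 0, 0, 0⟩,
  .mul 3 9,
  .mul 0 12,
  .scale ⟨549755813888, 0, 0, 0⟩ 0,
  .mul 12 12,
  .mul 1 1,
  .sub 12 0,
  .inv 0,
  .mul 4 0,
  .scale ⟨2199023255552, 0, 0, 0⟩ 0,
  .scale ⟨2199023255552, 0, 0, 0⟩ 2,
  .sub 0 17,
  .add 0 2,
  .mul 23 5,
  .mul 22 0,
  .sub 21 0,
  .add 22 1,
  .mul 19 12,
  .mul 4 4,
  .scale ⟨10774999203840, 0, 0, 0⟩ 15,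
  .scale ⟨45768245248, 0, 0, 0⟩ 0,
  .const ⟨183207198720, 0, 0, 0⟩,
  .add 1 0,
  .mul 3 0,
  .add 23 0,
  .mul 5 0,
  .add 32 0,
  .mul 7 0,
  .scale ⟨549755813888, 0, 0, 0⟩ 0,
  .add 35 0,
  .mul 3 0,
  .mul 21 16,
  .scale ⟨2199023255552, 0, 0, 0⟩ 20,
  .add 1 0,
  .add 0 36,
  .mul 17 0,
  .add 0 42,
  .mul 27 27,
  .scale ⟨2199023255552, 0, 0, 0⟩ 0,
  .add 0 45,
  .mul 28 5,
  .sub 0 47,
  .log 5,
  .scale ⟨549755813888, 0, 0, 0⟩ 0,
  .exp 0,
  .const ⟨3298534883328, 0, 0, 0⟩,
  .inv 0,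
  .mul 53 0,
  .const ⟨2199023255552, 0, 0, 0⟩,
  .add 13 0,
  .inv 0,
  .mul 15 0,
  .mul 0 0,
  .sub 59 1,
  .mul 1 6,
  .add 61 0,
  .mul 2 0,
  .mul 4 4,
  .scale ⟨219915747328, 0, 0, 0⟩ 0,
  .mul 24 2,
  .scale ⟨549755813888, 0, 0, 0⟩ 0,
  .mul 26 2,
  .scale ⟨549755813888, 0, 0, 0⟩ 0,
  .add 2 0,
  .mul 52 22,
  .scale ⟨4398046511104, 0, 0, 0⟩ 0,
  .mul 54 48,
  .mul 0 25,
  .scale ⟨4398046511104, 0, 0, 0⟩ 0,
  .add 0 20,
  .inv 0,
  .mul 2 0,
  .mul 0 0,
  .sub 79 1,
  .mul 1 26,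
  .add 81 0,
  .mul 2 0,
  .mul 4 4,
  .scale ⟨219915747328, 0, 0, 0⟩ 0,
  .mul 13 2,
  .scale ⟨549755813888, 0, 0, 0⟩ 0,
  .sub 0 17,
  .mul 16 3,
  .scale ⟨549755813888, 0, 0, 0⟩ 0,
  .add 0 21,
  .add 3 0,
  .mul 89 25,
  .neg 0,
  .exp 0,
  .mul 92 26,
  .mul 1 0,
  .mul 94 9,
  .neg 0,
  .exp 0,
  .mul 97 9,
  .mul 1 0,
  .mul 81 86,
  .add 85 0,
  .inv 0,
  .mul 82 0,
  .mul 84 102,
  .mul 0 1,
  .sub 108 97,
  .mul 84 0,
  .mul 102 102,
  .sub 111 86,
  .mul 3 0,
  .mul 89 65,
  .inv 71,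
  .mul 1 0,
  .add 98 0,
  .mul 74 0,
  .mul 0 0,
  .inv 0,
  .mul 7 0,
  .add 103 97,
  .mul 122 0,
  .inv 0,
  .mul 125 0,
  .mul 0 0,
  .mul 0 13,
  .const ⟨45812285440, 0, 0, 0⟩,
  .scale ⟨1527119872, 0, 0, 0⟩ 1,
  .sub 1 0,
  .mul 3 0,
  .sub 124 0,
  .mul 5 0,
  .sub 133 0,
  .add 39 134,
  .mul 40 40,
  .add 0 136,
  .mul 42 3,
  .scale ⟨2199023255552, 0, 0, 0⟩ 0,
  .add 2 0,
  .scale ⟨4398046511104, 0, 0, 0⟩ 43,
  .sub 1 0,
  .inv 7,
  .mul 1 0,
  .add 0 9,
  .mul 50 37,
  .scale ⟨549755813888, 0, 0, 0⟩ 0,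
  .mul 0 2,
  .sub 6 0,
  .pos 7,
  .pos 0,
  .mul 146 79,
  .scale ⟨2199023255552, 0, 0, 0⟩ 0,
  .scale ⟨183274307584, 0, 0, 0⟩ 0,
  .sub 145 0,
  .mul 2 0,
  .sub 154 0,
  .mul 85 0,
  .inv 7,
  .mul 1 0,
  .mul 155 0,
  .add 0 152,
  .inv 0,
  .mul 3 0,
  .mul 159 0,
  .mul 55 0,
  .scale ⟨549755813888, 0, 0, 0⟩ 0,
  .sub 165 0,
  .sub 166 2,
  .inv 0,
  .mul 2 0,
  .add 5 169,
  .mul 75 0,
  .mul 65 2,
  .mul 174 10,
  .mul 1 0,
  .mul 10 5,
  .pos 8,
  .mul 153 152,
  .add 158 172,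
  .mul 156 159,
  .mul 0 162,
  .scale ⟨2199023255552, 0, 0, 0⟩ 0,
  .add 134 0,
  .mul 4 0,
  .inv 0,
  .mul 7 0,
  .mul 180 0,
  .pos 97,
  .mul 58 70,
  .scale ⟨1527119872, 0, 0, 0⟩ 0,
  .sub 59 0,
  .mul 2 0,
  .sub 182 0,
  .mul 4 0,
  .sub 191 0,
  .add 92 192,
  .mul 93 93,
  .add 0 194,
  .mul 95 3,
  .scale ⟨2199023255552, 0, 0, 0⟩ 0,
  .add 2 0,
  .scale ⟨4398046511104, 0, 0, 0⟩ 96,
  .sub 1 0,
  .inv 7,
  .mul 1 0,
  .add 0 9,
  .mul 103 18,
  .scale ⟨549755813888, 0, 0, 0⟩ 0,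
  .mul 0 2,
  .sub 6 0,
  .pos 7,
  .pos 0,
  .mul 204 115,
  .scale ⟨2199023255552, 0, 0, 0⟩ 0,
  .scale ⟨183274307584, 0, 0, 0⟩ 0,
  .sub 203 0,
  .mul 2 0,
  .sub 212 0,
  .mul 121 0,
  .inv 7,
  .mul 1 0,
  .mul 213 0,
  .add 0 210,
  .inv 0,
  .mul 3 0,
  .mul 217 0,
  .mul 36 0,
  .mul 224 2,
  .add 213 223,
  .inv 0,
  .mul 215 0,
  .scale ⟨2199023255552, 0, 0, 0⟩ 0,
  .sub 227 0,
  .sub 228 218,
  .mul 233 4,
  .mul 0 2,
  .add 208 0,
  .scale ⟨224412041216, 0, 0, 0⟩ 218,
  .inv 196,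
  .mul 1 0,
  .scale ⟨4398046511104, 0, 0, 0⟩ 235,
  .mul 237 216,
  .add 1 0,
  .scale ⟨549755813888, 0, 0, 0⟩ 0,
  .inv 0,
  .mul 241 0,
  .mul 241 1,
  .mul 0 219,
  .mul 0 8,
  .mul 3 221,
  .mul 0 10,
  .sub 246 0,
  .inv 0,
  .mul 77 2,
  .sub 249 0,
  .inv 0,
  .scale ⟨2199023255552, 0, 0, 0⟩ 246,
  .add 0 252,
  .add 248 253,
  .scale ⟨549755813888, 0, 0, 0⟩ 92,
  .inv 256,
  .mul 258 0,
  .scale ⟨2199023255552, 0, 0, 0⟩ 0,
  .add 3 0,
  .scale ⟨549755813888, 0, 0, 0⟩ 0,
  .mul 250 240,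
  .sub 261 151,
  .mul 252 241,
  .scale ⟨2199023255552, 0, 0, 0⟩ 0,
  .sub 2 0,
  .mul 4 4,
  .add 1 0,
  .add 0 267,
  .scale ⟨549755813888, 0, 0, 0⟩ 0,
  .scale ⟨549755813888, 0, 0, 0⟩ 245,
  .sub 256 0,
  .mul 160 9,
  .mul 0 259,
  .scale ⟨137438953472, 0, 0, 0⟩ 0,
  .add 3 0,
  .mul 6 0,
  .add 105 276,
  .mul 0 29,
  .mul 107 27,
  .add 1 0,
  .mul 34 0,
  .add 106 0,
  .mul 0 277,
  .mul 6 37,
  .mul 0 36,
  .add 110 0,
  .mul 0 281,
  .scale ⟨223338299392, 0, 0, 0⟩ 0,
  .add 281 0,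
  .mul 2 0,
  .add 290 0,
  .scale ⟨893353197568, 0, 0, 0⟩ 8,
  .add 292 0,
  .mul 10 0,
  .add 294 0,
  .mul 68 65,
  .mul 0 43,
  .mul 0 2,
  .mul 22 7,
  .add 248 292,
  .mul 2 0,
  .add 2 0,
  .add 251 302,
  .mul 5 0,
  .mul 50 1,
  .mul 0 75,
  .mul 0 77,
  .mul 5 133,
  .mul 1 48,
  .add 1 0,
  .mul 302 78,
  .inv 260,
  .mul 1 0,
  .scale ⟨549755813888, 0, 0, 0⟩ 0,
  .mul 292 0,
  .mul 311 5,
  .add 1 0,
  .mul 317 0,
  .mul 16 41,
  .mul 0 71,
  .mul 16 149,
  .mul 0 70,
  .add 2 0,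
  .mul 301 5,
  .mul 80 1,
  .add 1 0,
  .mul 215 0,
  .mul 0 15,
  .sub 328 0,
  .inv 0,
  .mul 4 0,
  .mul 327 0,
  .mul 221 1,
  .mul 0 21,
  .sub 334 0,
  .mul 287 0,
  .sub 0 4,
  .inv 0,
  .mul 6 0,
  .sub 288 6,
  .inv 0,
  .mul 2 120,
  .scale ⟨549755813888, 0, 0, 0⟩ 0,
  .sub 343 0,
  .sub 344 2,
  .inv 0,
  .mul 2 0,
  .mul 349 6,
  .mul 125 10,
  .mul 0 2,
  .add 2 0,
  .mul 345 20,
  .mul 11 0,
  .mul 132 15,
  .mul 0 7,
  .mul 0 23,
  .add 3 0,
  .scale ⟨223338299392, 0, 0, 0⟩ 0,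
  .add 351 0,
  .mul 2 0,
  .add 360 0,
  .mul 10 0,
  .mul 0 32,
  .mul 0 40,
  .mul 119 342,
  .const ⟨5497558138880, 0, 0, 0⟩,
  .inv 0,
  .mul 315 0,
  .mul 144 345,
  .mul 0 1,
  .mul 193 265,
  .mul 350 0,
  .scale ⟨549755813888, 0, 0, 0⟩ 150,
  .sub 373 0,
  .sub 374 152,
  .inv 0,
  .mul 2 0,
  .mul 0 192,
  .mul 267 257,
  .scale ⟨733097230336, 0, 0, 0⟩ 0,
  .sub 380 0,
  .mul 260 0,
  .mul 294 294,
  .mul 372 0,
  .add 2 0,
  .mul 7 162,
  .add 1 386,
  .mul 1 0,
  .sub 3 0,
  .scale ⟨366548615168, 0, 0, 0⟩ 345,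
  .sub 390 0,
  .mul 366 0,
  .add 3 0,
  .mul 22 0,
  .mul 22 22,
  .add 395 0,
  .inv 0,
  .mul 3 0,
  .sub 398 59,
  .mul 0 1,
  .sub 400 14,
  .pos 0,
  .pos 3,
  .pos 2,
  .mul 38 162,
  .mul 0 85,
  .inv 380,
  .mul 1 0,
  .mul 402 5,
  .neg 0,
  .exp 0,
  .mul 404 38,
  .add 409 0,
  .inv 0,
  .mul 3 0,
  .mul 0 393,
  .mul 405 82,
  .mul 0 10,
  .add 415 0,
  .mul 3 0,
  .mul 0 76,
  .mul 414 54,
  .mul 0 173,
  .mul 416 55,
  .mul 16 0,
  .add 2 0,
  .add 4 18,
  .add 424 1,
  .mul 7 0,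
  .add 2 0,
  .sub 427 0,
  .scale ⟨1073741824, 0, 0, 0⟩ 424,
  .sub 1 0,
  .sub 411 430,
  .add 0 376,
  .scale ⟨2199023255552, 0, 0, 0⟩ 64,
  .sub 1 0,
  .mul 210 0,
  .mul 4 2,
  .add 0 436,
  .inv 0,
  .mul 3 0,
  .mul 197 116,
  .scale ⟨549755813888, 0, 0, 0⟩ 205,
  .add 425 0,
  .mul 2 0,
  .scale ⟨2199023255552, 0, 0, 0⟩ 0,
  .add 126 0,
  .scale ⟨2199023255552, 0, 0, 0⟩ 0,
  .mul 0 116,
  .sub 424 33,
  .inv 0,
  .mul 2 0,
  .sub 11 0,
  .mul 214 214,
  .const ⟨14293651161088, 0, 0, 0⟩,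
  .const ⟨10995116277760, 0, 0, 0⟩,
  .inv 0,
  .mul 2 0,
  .mul 4 0,
  .mul 457 457,
  .scale ⟨27487790694400, 0, 0, 0⟩ 0,
  .add 2 0,
  .mul 90 49,
  .sub 422 457,
  .sub 0 424,
  .mul 460 463,
  .mul 441 141,
  .mul 0 225,
  .add 156 0,
  .add 53 412,
  .mul 469 0,
  .mul 9 8,
  .mul 140 1,
  .mul 7 4,
  .mul 1 0,
  .sub 3 0,
  .scale ⟨549755813888, 0, 0, 0⟩ 60,
  .add 475 0,
  .mul 146 0,
  .mul 473 455,
  .mul 0 246,
  .mul 456 428,
  .inv 0,
  .mul 2 0,
  .mul 5 0,
  .sub 20 0,
  .mul 249 10,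
  .sub 485 250,
  .mul 475 2,
  .mul 1 0,
  .mul 28 0,
  .add 4 0,
  .pos 243,
  .pos 240,
  .scale ⟨2199023255552, 0, 0, 0⟩ 163,
  .sub 440 0,
  .pos 0,
  .pos 155,
  .sub 485 270,
  .pos 0,
  .scale ⟨687194767360, 0, 0, 0⟩ 493,
  .sub 0 207,
  .pos 0,
  .scale ⟨377957122048, 0, 0, 0⟩ 495,
  .sub 0 213,
  .pos 0,
  .pos 49,
  .pos 152,
  .sub 3 140,
  .pos 0,
  .pos 47,
  .pos 68,
  .pos 8,
  .pos 14]

def chk4 {α : Type} (cst : Z → α) (add sub mul : α → α → α) (scale : Z → α → α)
    (neg inv exp log : α → α) (ok : α → Bool) (isPos : Nat → α → Bool) (isLt : α → Nat → Bool) :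
    List α → Bool
  | [x0, x1, x2, x3] =>
  let v0 := cst ⟨1099511627776, 0, 0, 0⟩; ok v0 && (
  let v1 := mul x1 x2; ok v1 && (
  let v2 := mul x2 x2; ok v2 && (
  let v3 := mul x0 x1; ok v3 && (
  let v4 := mul v3 v2; ok v4 && (
  let v5 := mul v1 v1; ok v5 && (
  let v6 := mul v4 v3; ok v6 && (
  let v7 := cst ⟨549755813888, 0, 0, 0⟩; ok v7 && (
  let v8 := mul v4 x1; ok v8 && (
  let v9 := mul v8 x3; ok v9 && (
  let v10 := scale ⟨549755813888, 0, 0, 0⟩ v9; ok v10 && (
  let v11 := mul x1 x1; ok v11 && (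
  let v12 := mul v10 v10; ok v12 && (
  let v13 := sub v0 v12; ok v13 && (
  let v14 := inv v13; ok v14 && (
  let v15 := mul v10 v14; ok v15 && (
  let v16 := scale ⟨2199023255552, 0, 0, 0⟩ v15; ok v16 && (
  let v17 := scale ⟨2199023255552, 0, 0, 0⟩ v14; ok v17 && (
  let v18 := sub v17 v0; ok v18 && (
  let v19 := add v18 v16; ok v19 && (
  let v20 := mul x3 v14; ok v20 && (
  let v21 := mul x1 v20; ok v21 && (
  let v22 := sub v0 v21; ok v22 && (
  let v23 := add v0 v21; ok v23 && (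
  let v24 := mul v4 v11; ok v24 && (
  let v25 := mul v20 v20; ok v25 && (
  let v26 := scale ⟨10774999203840, 0, 0, 0⟩ v10; ok v26 && (
  let v27 := scale ⟨45768245248, 0, 0, 0⟩ v26; ok v27 && (
  let v28 := cst ⟨183207198720, 0, 0, 0⟩; ok v28 && (
  let v29 := add v27 v28; ok v29 && (
  let v30 := mul v26 v29; ok v30 && (
  let v31 := add v7 v30; ok v31 && (
  let v32 := mul v26 v31; ok v32 && (
  let v33 := add v0 v32; ok v33 && (
  let v34 := mul v26 v33; ok v34 && (
  let v35 := scale ⟨549755813888, 0, 0, 0⟩ v34; ok v35 && (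
  let v36 := add v0 v35; ok v36 && (
  let v37 := mul v33 v36; ok v37 && (
  let v38 := mul v16 v21; ok v38 && (
  let v39 := scale ⟨2199023255552, 0, 0, 0⟩ v18; ok v39 && (
  let v40 := add v38 v39; ok v40 && (
  let v41 := add v40 v4; ok v41 && (
  let v42 := mul v24 v41; ok v42 && (
  let v43 := add v42 v0; ok v43 && (
  let v44 := mul v16 v16; ok v44 && (
  let v45 := scale ⟨2199023255552, 0, 0, 0⟩ v44; ok v45 && (
  let v46 := add v45 v0; ok v46 && (
  let v47 := mul v18 v41; ok v47 && (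
  let v48 := sub v47 v0; ok v48 && (
  let v49 := log v43; ok v49 && (
  let v50 := scale ⟨549755813888, 0, 0, 0⟩ v49; ok v50 && (
  let v51 := exp v50; ok v51 && (
  let v52 := cst ⟨3298534883328, 0, 0, 0⟩; ok v52 && (
  let v53 := inv v52; ok v53 && (
  let v54 := mul v0 v53; ok v54 && (
  let v55 := cst ⟨2199023255552, 0, 0, 0⟩; ok v55 && (
  let v56 := add v42 v55; ok v56 && (
  let v57 := inv v56; ok v57 && (
  let v58 := mul v42 v57; ok v58 && (
  let v59 := mul v58 v58; ok v59 && (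
  let v60 := sub v0 v58; ok v60 && (
  let v61 := mul v59 v54; ok v61 && (
  let v62 := add v0 v61; ok v62 && (
  let v63 := mul v60 v62; ok v63 && (
  let v64 := mul v59 v59; ok v64 && (
  let v65 := scale ⟨219915747328, 0, 0, 0⟩ v64; ok v65 && (
  let v66 := mul v41 v63; ok v66 && (
  let v67 := scale ⟨549755813888, 0, 0, 0⟩ v66; ok v67 && (
  let v68 := mul v41 v65; ok v68 && (
  let v69 := scale ⟨549755813888, 0, 0, 0⟩ v68; ok v69 && (
  let v70 := add v67 v69; ok v70 && (
  let v71 := mul v18 v48; ok v71 && (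
  let v72 := scale ⟨4398046511104, 0, 0, 0⟩ v71; ok v72 && (
  let v73 := mul v18 v24; ok v73 && (
  let v74 := mul v73 v48; ok v74 && (
  let v75 := scale ⟨4398046511104, 0, 0, 0⟩ v74; ok v75 && (
  let v76 := add v75 v55; ok v76 && (
  let v77 := inv v76; ok v77 && (
  let v78 := mul v75 v77; ok v78 && (
  let v79 := mul v78 v78; ok v79 && (
  let v80 := sub v0 v78; ok v80 && (
  let v81 := mul v79 v54; ok v81 && (
  let v82 := add v0 v81; ok v82 && (
  let v83 := mul v80 v82; ok v83 && (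
  let v84 := mul v79 v79; ok v84 && (
  let v85 := scale ⟨219915747328, 0, 0, 0⟩ v84; ok v85 && (
  let v86 := mul v72 v83; ok v86 && (
  let v87 := scale ⟨549755813888, 0, 0, 0⟩ v86; ok v87 && (
  let v88 := sub v87 v70; ok v88 && (
  let v89 := mul v72 v85; ok v89 && (
  let v90 := scale ⟨549755813888, 0, 0, 0⟩ v89; ok v90 && (
  let v91 := add v90 v69; ok v91 && (
  let v92 := add v88 v91; ok v92 && (
  let v93 := mul v3 v67; ok v93 && (
  let v94 := neg v93; ok v94 && (
  let v95 := exp v94; ok v95 && (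
  let v96 := mul v3 v69; ok v96 && (
  let v97 := mul v95 v96; ok v97 && (
  let v98 := mul v3 v88; ok v98 && (
  let v99 := neg v98; ok v99 && (
  let v100 := exp v99; ok v100 && (
  let v101 := mul v3 v91; ok v101 && (
  let v102 := mul v100 v101; ok v102 && (
  let v103 := mul v21 v16; ok v103 && (
  let v104 := add v18 v103; ok v104 && (
  let v105 := inv v104; ok v105 && (
  let v106 := mul v23 v105; ok v106 && (
  let v107 := mul v22 v4; ok v107 && (
  let v108 := mul v107 v106; ok v108 && (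
  let v109 := sub v0 v11; ok v109 && (
  let v110 := mul v25 v109; ok v110 && (
  let v111 := mul v8 v8; ok v111 && (
  let v112 := sub v0 v25; ok v112 && (
  let v113 := mul v109 v112; ok v113 && (
  let v114 := mul v24 v48; ok v114 && (
  let v115 := inv v43; ok v115 && (
  let v116 := mul v114 v115; ok v116 && (
  let v117 := add v18 v116; ok v117 && (
  let v118 := mul v43 v117; ok v118 && (
  let v119 := mul v118 v118; ok v119 && (
  let v120 := inv v119; ok v120 && (
  let v121 := mul v113 v120; ok v121 && (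
  let v122 := add v18 v24; ok v122 && (
  let v123 := mul v0 v122; ok v123 && (
  let v124 := inv v123; ok v124 && (
  let v125 := mul x0 v124; ok v125 && (
  let v126 := mul v125 v125; ok v126 && (
  let v127 := mul v126 v113; ok v127 && (
  let v128 := cst ⟨45812285440, 0, 0, 0⟩; ok v128 && (
  let v129 := scale ⟨1527119872, 0, 0, 0⟩ v127; ok v129 && (
  let v130 := sub v128 v129; ok v130 && (
  let v131 := mul v127 v130; ok v131 && (
  let v132 := sub v7 v131; ok v132 && (
  let v133 := mul v127 v132; ok v133 && (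
  let v134 := sub v0 v133; ok v134 && (
  let v135 := add v95 v0; ok v135 && (
  let v136 := mul v95 v95; ok v136 && (
  let v137 := add v136 v0; ok v137 && (
  let v138 := mul v95 v134; ok v138 && (
  let v139 := scale ⟨2199023255552, 0, 0, 0⟩ v138; ok v139 && (
  let v140 := add v137 v139; ok v140 && (
  let v141 := scale ⟨4398046511104, 0, 0, 0⟩ v97; ok v141 && (
  let v142 := sub v140 v141; ok v142 && (
  let v143 := inv v135; ok v143 && (
  let v144 := mul v142 v143; ok v144 && (
  let v145 := add v144 v135; ok v145 && (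
  let v146 := mul v95 v108; ok v146 && (
  let v147 := scale ⟨549755813888, 0, 0, 0⟩ v146; ok v147 && (
  let v148 := mul v147 v145; ok v148 && (
  let v149 := sub v142 v148; ok v149 && (
  isPos 4 v142 && (
  isPos 4 v149 && (
  let v150 := mul v3 v70; ok v150 && (
  let v151 := scale ⟨2199023255552, 0, 0, 0⟩ v150; ok v151 && (
  let v152 := scale ⟨183274307584, 0, 0, 0⟩ v151; ok v152 && (
  let v153 := sub v7 v152; ok v153 && (
  let v154 := mul v151 v153; ok v154 && (
  let v155 := sub v0 v154; ok v155 && (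
  let v156 := mul v70 v155; ok v156 && (
  let v157 := inv v149; ok v157 && (
  let v158 := mul v156 v157; ok v158 && (
  let v159 := mul v3 v158; ok v159 && (
  let v160 := add v159 v7; ok v160 && (
  let v161 := inv v160; ok v161 && (
  let v162 := mul v158 v161; ok v162 && (
  let v163 := mul v3 v162; ok v163 && (
  let v164 := mul v108 v163; ok v164 && (
  let v165 := scale ⟨549755813888, 0, 0, 0⟩ v164; ok v165 && (
  let v166 := sub v0 v165; ok v166 && (
  let v167 := sub v0 v164; ok v167 && (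
  let v168 := inv v167; ok v168 && (
  let v169 := mul v166 v168; ok v169 && (
  let v170 := add v164 v0; ok v170 && (
  let v171 := mul v95 v170; ok v171 && (
  let v172 := mul v106 v169; ok v172 && (
  let v173 := mul x1 v162; ok v173 && (
  let v174 := mul v172 v173; ok v174 && (
  let v175 := mul v164 v169; ok v175 && (
  isPos 4 v167 && (
  let v176 := mul v22 v23; ok v176 && (
  let v177 := add v18 v4; ok v177 && (
  let v178 := mul v21 v18; ok v178 && (
  let v179 := mul v178 v16; ok v179 && (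
  let v180 := scale ⟨2199023255552, 0, 0, 0⟩ v179; ok v180 && (
  let v181 := add v46 v180; ok v181 && (
  let v182 := mul v177 v181; ok v182 && (
  let v183 := inv v182; ok v183 && (
  let v184 := mul v176 v183; ok v184 && (
  let v185 := mul v4 v184; ok v185 && (
  isPos 4 v88 && (
  let v186 := mul v127 v115; ok v186 && (
  let v187 := scale ⟨1527119872, 0, 0, 0⟩ v186; ok v187 && (
  let v188 := sub v128 v187; ok v188 && (
  let v189 := mul v186 v188; ok v189 && (
  let v190 := sub v7 v189; ok v190 && (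
  let v191 := mul v186 v190; ok v191 && (
  let v192 := sub v0 v191; ok v192 && (
  let v193 := add v100 v0; ok v193 && (
  let v194 := mul v100 v100; ok v194 && (
  let v195 := add v194 v0; ok v195 && (
  let v196 := mul v100 v192; ok v196 && (
  let v197 := scale ⟨2199023255552, 0, 0, 0⟩ v196; ok v197 && (
  let v198 := add v195 v197; ok v198 && (
  let v199 := scale ⟨4398046511104, 0, 0, 0⟩ v102; ok v199 && (
  let v200 := sub v198 v199; ok v200 && (
  let v201 := inv v193; ok v201 && (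
  let v202 := mul v200 v201; ok v202 && (
  let v203 := add v202 v193; ok v203 && (
  let v204 := mul v100 v185; ok v204 && (
  let v205 := scale ⟨549755813888, 0, 0, 0⟩ v204; ok v205 && (
  let v206 := mul v205 v203; ok v206 && (
  let v207 := sub v200 v206; ok v207 && (
  isPos 4 v200 && (
  isPos 4 v207 && (
  let v208 := mul v3 v92; ok v208 && (
  let v209 := scale ⟨2199023255552, 0, 0, 0⟩ v208; ok v209 && (
  let v210 := scale ⟨183274307584, 0, 0, 0⟩ v209; ok v210 && (
  let v211 := sub v7 v210; ok v211 && (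
  let v212 := mul v209 v211; ok v212 && (
  let v213 := sub v0 v212; ok v213 && (
  let v214 := mul v92 v213; ok v214 && (
  let v215 := inv v207; ok v215 && (
  let v216 := mul v214 v215; ok v216 && (
  let v217 := mul v3 v216; ok v217 && (
  let v218 := add v217 v7; ok v218 && (
  let v219 := inv v218; ok v219 && (
  let v220 := mul v216 v219; ok v220 && (
  let v221 := mul v3 v220; ok v221 && (
  let v222 := mul v185 v221; ok v222 && (
  let v223 := mul x1 v220; ok v223 && (
  let v224 := add v10 v0; ok v224 && (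
  let v225 := inv v224; ok v225 && (
  let v226 := mul v10 v225; ok v226 && (
  let v227 := scale ⟨2199023255552, 0, 0, 0⟩ v226; ok v227 && (
  let v228 := sub v0 v227; ok v228 && (
  let v229 := sub v0 v10; ok v229 && (
  let v230 := mul x3 v225; ok v230 && (
  let v231 := mul v230 v228; ok v231 && (
  let v232 := add v23 v231; ok v232 && (
  let v233 := scale ⟨224412041216, 0, 0, 0⟩ v14; ok v233 && (
  let v234 := inv v37; ok v234 && (
  let v235 := mul v233 v234; ok v235 && (
  let v236 := scale ⟨4398046511104, 0, 0, 0⟩ v0; ok v236 && (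
  let v237 := mul x0 v20; ok v237 && (
  let v238 := add v236 v237; ok v238 && (
  let v239 := scale ⟨549755813888, 0, 0, 0⟩ v238; ok v239 && (
  let v240 := inv v239; ok v240 && (
  let v241 := mul x0 v240; ok v241 && (
  let v242 := mul v0 v240; ok v242 && (
  let v243 := mul v242 v23; ok v243 && (
  let v244 := mul v243 v235; ok v244 && (
  let v245 := mul v241 v23; ok v245 && (
  let v246 := mul v245 v235; ok v246 && (
  let v247 := sub v0 v246; ok v247 && (
  let v248 := inv v247; ok v248 && (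
  let v249 := mul v171 v246; ok v249 && (
  let v250 := sub v0 v249; ok v250 && (
  let v251 := inv v250; ok v251 && (
  let v252 := scale ⟨2199023255552, 0, 0, 0⟩ v5; ok v252 && (
  let v253 := add v252 v0; ok v253 && (
  let v254 := add v5 v0; ok v254 && (
  let v255 := scale ⟨549755813888, 0, 0, 0⟩ v162; ok v255 && (
  let v256 := inv x0; ok v256 && (
  let v257 := mul x1 v256; ok v257 && (
  let v258 := scale ⟨2199023255552, 0, 0, 0⟩ v257; ok v258 && (
  let v259 := add v255 v258; ok v259 && (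
  let v260 := scale ⟨549755813888, 0, 0, 0⟩ v259; ok v260 && (
  let v261 := mul v10 v20; ok v261 && (
  let v262 := sub v0 v110; ok v262 && (
  let v263 := mul v10 v21; ok v263 && (
  let v264 := scale ⟨2199023255552, 0, 0, 0⟩ v263; ok v264 && (
  let v265 := sub v262 v264; ok v265 && (
  let v266 := mul v261 v261; ok v266 && (
  let v267 := add v265 v266; ok v267 && (
  let v268 := add v267 v0; ok v268 && (
  let v269 := scale ⟨549755813888, 0, 0, 0⟩ v268; ok v269 && (
  let v270 := scale ⟨549755813888, 0, 0, 0⟩ v24; ok v270 && (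
  let v271 := sub v14 v270; ok v271 && (
  let v272 := mul v111 v262; ok v272 && (
  let v273 := mul v272 v13; ok v273 && (
  let v274 := scale ⟨137438953472, 0, 0, 0⟩ v273; ok v274 && (
  let v275 := add v271 v274; ok v275 && (
  let v276 := mul v269 v275; ok v276 && (
  let v277 := add v171 v0; ok v277 && (
  let v278 := mul v277 v248; ok v278 && (
  let v279 := mul v171 v251; ok v279 && (
  let v280 := add v278 v279; ok v280 && (
  let v281 := mul v246 v280; ok v281 && (
  let v282 := add v175 v281; ok v282 && (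
  let v283 := mul v282 v5; ok v283 && (
  let v284 := mul v277 v246; ok v284 && (
  let v285 := mul v284 v248; ok v285 && (
  let v286 := add v175 v285; ok v286 && (
  let v287 := mul v286 v5; ok v287 && (
  let v288 := scale ⟨223338299392, 0, 0, 0⟩ v287; ok v288 && (
  let v289 := add v7 v288; ok v289 && (
  let v290 := mul v287 v289; ok v290 && (
  let v291 := add v0 v290; ok v291 && (
  let v292 := scale ⟨893353197568, 0, 0, 0⟩ v283; ok v292 && (
  let v293 := add v0 v292; ok v293 && (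
  let v294 := mul v283 v293; ok v294 && (
  let v295 := add v0 v294; ok v295 && (
  let v296 := mul v227 v230; ok v296 && (
  let v297 := mul v296 v253; ok v297 && (
  let v298 := mul v297 v295; ok v298 && (
  let v299 := mul v276 v291; ok v299 && (
  let v300 := add v51 v7; ok v300 && (
  let v301 := mul v298 v300; ok v301 && (
  let v302 := add v299 v301; ok v302 && (
  let v303 := add v51 v0; ok v303 && (
  let v304 := mul v298 v303; ok v304 && (
  let v305 := mul v254 v303; ok v305 && (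
  let v306 := mul v305 v230; ok v306 && (
  let v307 := mul v306 v229; ok v307 && (
  let v308 := mul v302 v174; ok v308 && (
  let v309 := mul v307 v260; ok v309 && (
  let v310 := add v308 v309; ok v310 && (
  let v311 := mul v8 v232; ok v311 && (
  let v312 := inv v51; ok v312 && (
  let v313 := mul v311 v312; ok v313 && (
  let v314 := scale ⟨549755813888, 0, 0, 0⟩ v313; ok v314 && (
  let v315 := mul v22 v314; ok v315 && (
  let v316 := mul v4 v310; ok v316 && (
  let v317 := add v315 v316; ok v317 && (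
  let v318 := mul v0 v317; ok v318 && (
  let v319 := mul v302 v277; ok v319 && (
  let v320 := mul v319 v248; ok v320 && (
  let v321 := mul v304 v171; ok v321 && (
  let v322 := mul v321 v251; ok v322 && (
  let v323 := add v320 v322; ok v323 && (
  let v324 := mul v22 v318; ok v324 && (
  let v325 := mul v244 v323; ok v325 && (
  let v326 := add v324 v325; ok v326 && (
  let v327 := mul v111 v326; ok v327 && (
  let v328 := mul v327 v312; ok v328 && (
  let v329 := sub v0 v328; ok v329 && (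
  let v330 := inv v329; ok v330 && (
  let v331 := mul v326 v330; ok v331 && (
  let v332 := mul v4 v331; ok v332 && (
  let v333 := mul v111 v331; ok v333 && (
  let v334 := mul v333 v312; ok v334 && (
  let v335 := sub v0 v334; ok v335 && (
  let v336 := mul v48 v335; ok v336 && (
  let v337 := sub v336 v332; ok v337 && (
  let v338 := inv v337; ok v338 && (
  let v339 := mul v332 v338; ok v339 && (
  let v340 := sub v51 v333; ok v340 && (
  let v341 := inv v340; ok v341 && (
  let v342 := mul v339 v221; ok v342 && (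
  let v343 := scale ⟨549755813888, 0, 0, 0⟩ v342; ok v343 && (
  let v344 := sub v0 v343; ok v344 && (
  let v345 := sub v0 v342; ok v345 && (
  let v346 := inv v345; ok v346 && (
  let v347 := mul v344 v346; ok v347 && (
  let v348 := mul x1 v341; ok v348 && (
  let v349 := mul v223 v338; ok v349 && (
  let v350 := mul v349 v347; ok v350 && (
  let v351 := add v348 v350; ok v351 && (
  let v352 := mul v6 v331; ok v352 && (
  let v353 := mul v341 v352; ok v353 && (
  let v354 := mul v221 v338; ok v354 && (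
  let v355 := mul v354 v347; ok v355 && (
  let v356 := mul v355 v332; ok v356 && (
  let v357 := add v353 v356; ok v357 && (
  let v358 := scale ⟨223338299392, 0, 0, 0⟩ v357; ok v358 && (
  let v359 := add v7 v358; ok v359 && (
  let v360 := mul v357 v359; ok v360 && (
  let v361 := add v0 v360; ok v361 && (
  let v362 := mul v351 v361; ok v362 && (
  let v363 := mul v362 v330; ok v363 && (
  let v364 := mul v363 v323; ok v364 && (
  let v365 := mul v245 v22; ok v365 && (
  let v366 := cst ⟨5497558138880, 0, 0, 0⟩; ok v366 && (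
  let v367 := inv v366; ok v367 && (
  let v368 := mul v52 v367; ok v368 && (
  let v369 := mul v224 v23; ok v369 && (
  let v370 := mul v369 v368; ok v370 && (
  let v371 := mul v177 v105; ok v371 && (
  let v372 := mul v21 v371; ok v372 && (
  let v373 := scale ⟨549755813888, 0, 0, 0⟩ v222; ok v373 && (
  let v374 := sub v0 v373; ok v374 && (
  let v375 := sub v0 v222; ok v375 && (
  let v376 := inv v375; ok v376 && (
  let v377 := mul v374 v376; ok v377 && (
  let v378 := mul v377 v185; ok v378 && (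
  let v379 := mul v111 v121; ok v379 && (
  let v380 := scale ⟨733097230336, 0, 0, 0⟩ v379; ok v380 && (
  let v381 := sub v0 v380; ok v381 && (
  let v382 := mul v121 v381; ok v382 && (
  let v383 := mul v88 v88; ok v383 && (
  let v384 := mul v11 v383; ok v384 && (
  let v385 := add v382 v384; ok v385 && (
  let v386 := mul v378 v223; ok v386 && (
  let v387 := add v385 v0; ok v387 && (
  let v388 := mul v386 v387; ok v388 && (
  let v389 := sub v385 v388; ok v389 && (
  let v390 := scale ⟨366548615168, 0, 0, 0⟩ v44; ok v390 && (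
  let v391 := sub v0 v390; ok v391 && (
  let v392 := mul v25 v391; ok v392 && (
  let v393 := add v389 v392; ok v393 && (
  let v394 := mul v371 v393; ok v394 && (
  let v395 := mul v372 v372; ok v395 && (
  let v396 := add v0 v395; ok v396 && (
  let v397 := inv v396; ok v397 && (
  let v398 := mul v394 v397; ok v398 && (
  let v399 := sub v0 v339; ok v399 && (
  let v400 := mul v399 v398; ok v400 && (
  let v401 := sub v0 v386; ok v401 && (
  isPos 4 v401 && (
  isPos 4 v398 && (
  isPos 4 v399 && (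
  let v402 := mul v363 v239; ok v402 && (
  let v403 := mul v402 v317; ok v403 && (
  let v404 := inv v23; ok v404 && (
  let v405 := mul v403 v404; ok v405 && (
  let v406 := mul v3 v400; ok v406 && (
  let v407 := neg v406; ok v407 && (
  let v408 := exp v407; ok v408 && (
  let v409 := mul v4 v370; ok v409 && (
  let v410 := add v0 v409; ok v410 && (
  let v411 := inv v410; ok v411 && (
  let v412 := mul v408 v411; ok v412 && (
  let v413 := mul v412 v19; ok v413 && (
  let v414 := mul v8 v331; ok v414 && (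
  let v415 := mul v414 v404; ok v415 && (
  let v416 := add v0 v415; ok v416 && (
  let v417 := mul v413 v416; ok v417 && (
  let v418 := mul v417 v341; ok v418 && (
  let v419 := mul v4 v364; ok v419 && (
  let v420 := mul v419 v246; ok v420 && (
  let v421 := mul v4 v365; ok v421 && (
  let v422 := mul v405 v421; ok v422 && (
  let v423 := add v420 v422; ok v423 && (
  let v424 := add v419 v405; ok v424 && (
  let v425 := add v0 v423; ok v425 && (
  let v426 := mul v418 v425; ok v426 && (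
  let v427 := add v424 v426; ok v427 && (
  let v428 := sub v0 v427; ok v428 && (
  let v429 := scale ⟨1073741824, 0, 0, 0⟩ v4; ok v429 && (
  let v430 := sub v428 v429; ok v430 && (
  let v431 := sub v19 v0; ok v431 && (
  let v432 := add v431 v55; ok v432 && (
  let v433 := scale ⟨2199023255552, 0, 0, 0⟩ v368; ok v433 && (
  let v434 := sub v432 v433; ok v434 && (
  let v435 := mul v224 v434; ok v435 && (
  let v436 := mul v431 v433; ok v436 && (
  let v437 := add v436 v0; ok v437 && (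
  let v438 := inv v437; ok v438 && (
  let v439 := mul v435 v438; ok v439 && (
  let v440 := mul v242 v323; ok v440 && (
  let v441 := scale ⟨549755813888, 0, 0, 0⟩ v235; ok v441 && (
  let v442 := add v16 v441; ok v442 && (
  let v443 := mul v440 v442; ok v443 && (
  let v444 := scale ⟨2199023255552, 0, 0, 0⟩ v443; ok v444 && (
  let v445 := add v318 v444; ok v445 && (
  let v446 := scale ⟨2199023255552, 0, 0, 0⟩ v445; ok v446 && (
  let v447 := mul v446 v330; ok v447 && (
  let v448 := sub v23 v414; ok v448 && (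
  let v449 := inv v448; ok v449 && (
  let v450 := mul v447 v449; ok v450 && (
  let v451 := sub v439 v450; ok v451 && (
  let v452 := mul v237 v237; ok v452 && (
  let v453 := cst ⟨14293651161088, 0, 0, 0⟩; ok v453 && (
  let v454 := cst ⟨10995116277760, 0, 0, 0⟩; ok v454 && (
  let v455 := inv v454; ok v455 && (
  let v456 := mul v453 v455; ok v456 && (
  let v457 := mul v452 v456; ok v457 && (
  let v458 := mul v0 v0; ok v458 && (
  let v459 := scale ⟨27487790694400, 0, 0, 0⟩ v458; ok v459 && (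
  let v460 := add v457 v459; ok v460 && (
  let v461 := mul v370 v411; ok v461 && (
  let v462 := sub v39 v4; ok v462 && (
  let v463 := sub v462 v38; ok v463 && (
  let v464 := mul v3 v0; ok v464 && (
  let v465 := mul v23 v323; ok v465 && (
  let v466 := mul v465 v240; ok v466 && (
  let v467 := add v310 v466; ok v467 && (
  let v468 := add v414 v55; ok v468 && (
  let v469 := mul x0 v468; ok v469 && (
  let v470 := mul v460 v461; ok v470 && (
  let v471 := mul v330 v469; ok v471 && (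
  let v472 := mul v464 v467; ok v472 && (
  let v473 := mul v471 v472; ok v473 && (
  let v474 := sub v470 v473; ok v474 && (
  let v475 := scale ⟨549755813888, 0, 0, 0⟩ v414; ok v475 && (
  let v476 := add v0 v475; ok v476 && (
  let v477 := mul v330 v476; ok v477 && (
  let v478 := mul v4 v22; ok v478 && (
  let v479 := mul v478 v232; ok v479 && (
  let v480 := mul v23 v51; ok v480 && (
  let v481 := inv v480; ok v481 && (
  let v482 := mul v479 v481; ok v482 && (
  let v483 := mul v477 v482; ok v483 && (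
  let v484 := sub v463 v483; ok v484 && (
  let v485 := mul v235 v474; ok v485 && (
  let v486 := sub v0 v235; ok v486 && (
  let v487 := mul v11 v484; ok v487 && (
  let v488 := mul v486 v487; ok v488 && (
  let v489 := mul v460 v488; ok v489 && (
  let v490 := add v485 v489; ok v490 && (
  isPos 4 v247 && (
  isPos 4 v250 && (
  let v491 := scale ⟨2199023255552, 0, 0, 0⟩ v327; ok v491 && (
  let v492 := sub v51 v491; ok v492 && (
  isPos 4 v492 && (
  isPos 4 v337 && (
  let v493 := sub v7 v222; ok v493 && (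
  isPos 4 v493 && (
  let v494 := scale ⟨687194767360, 0, 0, 0⟩ v0; ok v494 && (
  let v495 := sub v494 v287; ok v495 && (
  isPos 4 v495 && (
  let v496 := scale ⟨377957122048, 0, 0, 0⟩ v0; ok v496 && (
  let v497 := sub v496 v283; ok v497 && (
  isPos 4 v497 && (
  isPos 4 v448 && (
  isPos 4 v345 && (
  let v498 := sub v494 v357; ok v498 && (
  isPos 4 v498 && (
  isPos 4 v451 && (
  isPos 4 v430 && (
  isPos 4 v490 && (
  isPos 4 v484 && (
  true))))))))))))))))))))))))))))))))))))))))))))))))))))))))))))))))))))))))))))))))))))))))))))))))))))))))))))))))))))))))))))))))))))))))))))))))))))))))))))))))))))))))))))))))))))))))))))))))))))))))))))))))))))))))))))))))))))))))))))))))))))))))))))))))))))))))))))))))))))))))))))))))))))))))))))))))))))))))))))))))))))))))))))))))))))))))))))))))))))))))))))))))))))))))))))))))))))))))))))))))))))))))))))))))))))))))))))))))))))))))))))))))))))))))))))))))))))))))))))))))))))))))))))))))))))))))))))))))))))))))))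
  | _ => false

set_option maxRecDepth 1000000 in
theorem chk4_eq (O : Ops) (m : List O.α)
    (h : chk4 O.cst O.add O.sub O.mul O.scale O.neg O.inv O.exp O.log O.ok O.isPos O.isLt m = true) :
    runG O 4 prog4 m = true := by
  match m, h with
  | [x0, x1, x2, x3], h => exact h

def chkB4 : List opsE.α → Bool :=
  chk4 opsE.cst opsE.add opsE.sub opsE.mul opsE.scale opsE.neg opsE.inv opsE.exp opsE.log opsE.ok opsE.isPos opsE.isLt

theorem chkB4_eq (m : List opsE.α) (h : chkB4 m = true) : runG opsE 4 prog4 m = true :=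
  chk4_eq opsE m h

def prog5 : List Op := [
  .const ⟨1099511627776, 0, 0, 0⟩,
  .mul 2 3,
  .mul 4 4,
  .mul 3 4,
  .mul 0 1,
  .mul 3 3,
  .mul 1 2,
  .const ⟨21990735872, 0, 0, 0⟩,
  .sub 2 0,
  .pos 0]

def chk5 {α : Type} (cst : Z → α) (add sub mul : α → α → α) (scale : Z → α → α)
    (neg inv exp log : α → α) (ok : α → Bool) (isPos : Nat → α → Bool) (isLt : α → Nat → Bool) :
    List α → Bool
  | [x0, x1, x2, x3] =>
  let v0 := cst ⟨1099511627776, 0, 0, 0⟩; ok v0 && (
  let v1 := mul x1 x2; ok v1 && (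
  let v2 := mul x2 x2; ok v2 && (
  let v3 := mul x0 x1; ok v3 && (
  let v4 := mul v3 v2; ok v4 && (
  let v5 := mul v1 v1; ok v5 && (
  let v6 := mul v4 v3; ok v6 && (
  let v7 := cst ⟨21990735872, 0, 0, 0⟩; ok v7 && (
  let v8 := sub v5 v7; ok v8 && (
  isPos 4 v8 && (
  true))))))))))
  | _ => false

set_option maxRecDepth 1000000 in
theorem chk5_eq (O : Ops) (m : List O.α)
    (h : chk5 O.cst O.add O.sub O.mul O.scale O.neg O.inv O.exp O.log O.ok O.isPos O.isLt m = true) :
    runG O 4 prog5 m = true := by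
  match m, h with
  | [x0, x1, x2, x3], h => exact h

def chkB5 : List opsE.α → Bool :=
  chk5 opsE.cst opsE.add opsE.sub opsE.mul opsE.scale opsE.neg opsE.inv opsE.exp opsE.log opsE.ok opsE.isPos opsE.isLt

theorem chkB5_eq (m : List opsE.α) (h : chkB5 m = true) : runG opsE 4 prog5 m = true :=
  chk5_eq opsE m h

def prog6 : List Op := [
  .const ⟨1099511627776, 0, 0, 0⟩,
  .mul 2 3,
  .mul 4 4,
  .mul 3 4,
  .mul 0 1,
  .mul 3 3,
  .mul 1 2,
  .const ⟨10994319360, 0, 0, 0⟩,
  .sub 0 2,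
  .pos 0]

def chk6 {α : Type} (cst : Z → α) (add sub mul : α → α → α) (scale : Z → α → α)
    (neg inv exp log : α → α) (ok : α → Bool) (isPos : Nat → α → Bool) (isLt : α → Nat → Bool) :
    List α → Bool
  | [x0, x1, x2, x3] =>
  let v0 := cst ⟨1099511627776, 0, 0, 0⟩; ok v0 && (
  let v1 := mul x1 x2; ok v1 && (
  let v2 := mul x2 x2; ok v2 && (
  let v3 := mul x0 x1; ok v3 && (
  let v4 := mul v3 v2; ok v4 && (
  let v5 := mul v1 v1; ok v5 && (
  let v6 := mul v4 v3; ok v6 && (
  let v7 := cst ⟨10994319360, 0, 0, 0⟩; ok v7 && (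
  let v8 := sub v7 v5; ok v8 && (
  isPos 4 v8 && (
  true))))))))))
  | _ => false

set_option maxRecDepth 1000000 in
theorem chk6_eq (O : Ops) (m : List O.α)
    (h : chk6 O.cst O.add O.sub O.mul O.scale O.neg O.inv O.exp O.log O.ok O.isPos O.isLt m = true) :
    runG O 4 prog6 m = true := by
  match m, h with
  | [x0, x1, x2, x3], h => exact h

def chkB6 : List opsE.α → Bool :=
  chk6 opsE.cst opsE.add opsE.sub opsE.mul opsE.scale opsE.neg opsE.inv opsE.exp opsE.log opsE.ok opsE.isPos opsE.isLt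

theorem chkB6_eq (m : List opsE.α) (h : chkB6 m = true) : runG opsE 4 prog6 m = true :=
  chk6_eq opsE m h

def prog7 : List Op := [
  .const ⟨1099511627776, 0, 0, 0⟩,
  .mul 2 3,
  .mul 4 4,
  .mul 3 4,
  .mul 0 1,
  .mul 3 3,
  .mul 1 2,
  .const ⟨549755813888, 0, 0, 0⟩,
  .mul 3 9,
  .mul 0 12,
  .scale ⟨549755813888, 0, 0, 0⟩ 0,
  .mul 12 12,
  .mul 1 1,
  .sub 12 0,
  .inv 0,
  .mul 4 0,
  .scale ⟨2199023255552, 0, 0, 0⟩ 0,
  .scale ⟨2199023255552, 0, 0, 0⟩ 2,
  .sub 0 17,
  .add 0 2,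
  .mul 23 5,
  .mul 22 0,
  .sub 21 0,
  .add 22 1,
  .mul 19 12,
  .mul 4 4,
  .scale ⟨549755813888, 0, 0, 0⟩ 25,
  .mul 27 6,
  .sub 1 0,
  .pos 0]

def chk7 {α : Type} (cst : Z → α) (add sub mul : α → α → α) (scale : Z → α → α)
    (neg inv exp log : α → α) (ok : α → Bool) (isPos : Nat → α → Bool) (isLt : α → Nat → Bool) :
    List α → Bool
  | [x0, x1, x2, x3] =>
  let v0 := cst ⟨1099511627776, 0, 0, 0⟩; ok v0 && (
  let v1 := mul x1 x2; ok v1 && (
  let v2 := mul x2 x2; ok v2 && (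
  let v3 := mul x0 x1; ok v3 && (
  let v4 := mul v3 v2; ok v4 && (
  let v5 := mul v1 v1; ok v5 && (
  let v6 := mul v4 v3; ok v6 && (
  let v7 := cst ⟨549755813888, 0, 0, 0⟩; ok v7 && (
  let v8 := mul v4 x1; ok v8 && (
  let v9 := mul v8 x3; ok v9 && (
  let v10 := scale ⟨549755813888, 0, 0, 0⟩ v9; ok v10 && (
  let v11 := mul x1 x1; ok v11 && (
  let v12 := mul v10 v10; ok v12 && (
  let v13 := sub v0 v12; ok v13 && (
  let v14 := inv v13; ok v14 && (
  let v15 := mul v10 v14; ok v15 && (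
  let v16 := scale ⟨2199023255552, 0, 0, 0⟩ v15; ok v16 && (
  let v17 := scale ⟨2199023255552, 0, 0, 0⟩ v14; ok v17 && (
  let v18 := sub v17 v0; ok v18 && (
  let v19 := add v18 v16; ok v19 && (
  let v20 := mul x3 v14; ok v20 && (
  let v21 := mul x1 v20; ok v21 && (
  let v22 := sub v0 v21; ok v22 && (
  let v23 := add v0 v21; ok v23 && (
  let v24 := mul v4 v11; ok v24 && (
  let v25 := mul v20 v20; ok v25 && (
  let v26 := scale ⟨549755813888, 0, 0, 0⟩ v0; ok v26 && (
  let v27 := mul x0 v20; ok v27 && (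
  let v28 := sub v26 v27; ok v28 && (
  isPos 4 v28 && (
  true))))))))))))))))))))))))))))))
  | _ => false

set_option maxRecDepth 1000000 in
theorem chk7_eq (O : Ops) (m : List O.α)
    (h : chk7 O.cst O.add O.sub O.mul O.scale O.neg O.inv O.exp O.log O.ok O.isPos O.isLt m = true) :
    runG O 4 prog7 m = true := by
  match m, h with
  | [x0, x1, x2, x3], h => exact h

def chkB7 : List opsE.α → Bool :=
  chk7 opsE.cst opsE.add opsE.sub opsE.mul opsE.scale opsE.neg opsE.inv opsE.exp opsE.log opsE.ok opsE.isPos opsE.isLt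

theorem chkB7_eq (m : List opsE.α) (h : chkB7 m = true) : runG opsE 4 prog7 m = true :=
  chk7_eq opsE m h

def progs : List (List Op) := [prog0, prog1, prog2, prog3, prog4, prog5, prog6, prog7]

def chks : List (List opsE.α → Bool) := [chkB0, chkB1, chkB2, chkB3, chkB4, chkB5, chkB6, chkB7]

theorem chks_eq : List.Forall₂ (fun (ops : List Op) (chk : List opsE.α → Bool) =>
    ∀ m, chk m = true → runG opsE 4 ops m = true) progs chks :=
  List.Forall₂.cons chkB0_eq (List.Forall₂.cons chkB1_eq (List.Forall₂.cons chkB2_eq (List.Forall₂.cons chkB3_eq (List.Forall₂.cons chkB4_eq (List.Forall₂.cons chkB5_eq (List.Forall₂.cons chkB6_eq (List.Forall₂.cons chkB7_eq List.Forall₂.nil)))))))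

end Pool.Agent.helper71.FJ.Crt.LHIII
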