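import Pool.Agent.helper71.FJ.Phx
import Pool.Agent.helper71.FJ.Crt.LHIIIP

/-!
Generated: meaning of the programs.
-/

set_option maxRecDepth 4000

namespace Pool.Agent.helper71.FJ

open Complex Pool.Agent.helper31.EQ.Y Pool.Agent.helper31.EQ.R
open Pool.Agent.helper12.EQL Pool.Agent.helper12.RP Pool.Agent.helper12.FF Pool.Agent.helper63.FF
open Pool.Agent.helper31.IA (Z Op InBox)
open Pool.Agent.helper71.FF (B1 B2 B3 Geo PhiB RAs zv exB1 exB2 exB3 AL A5 shf_re')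
open Pool.Agent.helper71.FG (PtE RE AQ gam_le_one)

theorem zLHIII_1073741824_0 : (1 / 1024 : ℝ) = zv 1073741824 0 := by unfold zv; norm_num

theorem zLHIII_1527119872_0 : (11651 / 8388608 : ℝ) = zv 1527119872 0 := by unfold zv; norm_num

theorem zLHIII_10994319360_0 : (10485 / 1048576 : ℝ) = zv 10994319360 0 := by unfold zv; norm_num

theorem zLHIII_21990735872_0 : (5243 / 262144 : ℝ) = zv 21990735872 0 := by unfold zv; norm_num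

theorem zLHIII_45768245248_0 : (341 / 8192 : ℝ) = zv 45768245248 0 := by unfold zv; norm_num

theorem zLHIII_45812285440_0 : (21845 / 524288 : ℝ) = zv 45812285440 0 := by unfold zv; norm_num

theorem zLHIII_137438953472_0 : (1 / 8 : ℝ) = zv 137438953472 0 := by unfold zv; norm_num

theorem zLHIII_183207198720_0 : (1365 / 8192 : ℝ) = zv 183207198720 0 := by unfold zv; norm_num

theorem zLHIII_183274307584_0 : (2731 / 16384 : ℝ) = zv 183274307584 0 := by unfold zv; norm_num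

theorem zLHIII_219915747328_0 : (3277 / 16384 : ℝ) = zv 219915747328 0 := by unfold zv; norm_num

theorem zLHIII_223338299392_0 : (13 / 64 : ℝ) = zv 223338299392 0 := by unfold zv; norm_num

theorem zLHIII_224412041216_0 : (209 / 1024 : ℝ) = zv 224412041216 0 := by unfold zv; norm_num

theorem zLHIII_366548615168_0 : (2731 / 8192 : ℝ) = zv 366548615168 0 := by unfold zv; norm_num

theorem zLHIII_377957122048_0 : (11 / 32 : ℝ) = zv 377957122048 0 := by unfold zv; norm_num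

theorem zLHIII_412316860416_0 : (3 / 8 : ℝ) = zv 412316860416 0 := by unfold zv; norm_num

theorem zLHIII_549755813888_0 : (1 / 2 : ℝ) = zv 549755813888 0 := by unfold zv; norm_num

theorem zLHIII_687194767360_0 : (5 / 8 : ℝ) = zv 687194767360 0 := by unfold zv; norm_num

theorem zLHIII_725849473024_0 : (169 / 256 : ℝ) = zv 725849473024 0 := by unfold zv; norm_num

theorem zLHIII_733097230336_0 : (2731 / 4096 : ℝ) = zv 733097230336 0 := by unfold zv; norm_num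

theorem zLHIII_893353197568_0 : (13 / 16 : ℝ) = zv 893353197568 0 := by unfold zv; norm_num

theorem zLHIII_1099511627776_0 : (1 : ℝ) = zv 1099511627776 0 := by unfold zv; norm_num

theorem zLHIII_1374389534720_0 : (5 / 4 : ℝ) = zv 1374389534720 0 := by unfold zv; norm_num

theorem zLHIII_1546188226560_0 : (45 / 32 : ℝ) = zv 1546188226560 0 := by unfold zv; norm_num

theorem zLHIII_2199023255552_0 : (2 : ℝ) = zv 2199023255552 0 := by unfold zv; norm_num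

theorem zLHIII_3092376453120_0 : (45 / 16 : ℝ) = zv 3092376453120 0 := by unfold zv; norm_num

theorem zLHIII_3298534883328_0 : (3 : ℝ) = zv 3298534883328 0 := by unfold zv; norm_num

theorem zLHIII_4398046511104_0 : (4 : ℝ) = zv 4398046511104 0 := by unfold zv; norm_num

theorem zLHIII_5497558138880_0 : (5 : ℝ) = zv 5497558138880 0 := by unfold zv; norm_num

theorem zLHIII_10774999203840_0 : (10035 / 1024 : ℝ) = zv 10774999203840 0 := by unfold zv; norm_num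

theorem zLHIII_10995116277760_0 : (10 : ℝ) = zv 10995116277760 0 := by unfold zv; norm_num

theorem zLHIII_14293651161088_0 : (13 : ℝ) = zv 14293651161088 0 := by unfold zv; norm_num

theorem zLHIII_27487790694400_0 : (25 : ℝ) = zv 27487790694400 0 := by unfold zv; norm_num

theorem far_LHIII0 {κ : ℝ} {τ : ℂ} {R w : ℝ} {v : B1} (D : PtE (3 * 5⁻¹) v.e κ τ R w)
    (G : Geo κ (shf κ τ) v) (v2 : B2 v) (v3 : B3 v) (v5 : V5 v) {l1 : Lg v.D} {l2 : Lg v.D2}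
    (lv : LV v l1 l2) (he2 : 2 ≤ v.e) {al g de : ℝ}
    (hde0 : 0 < de) (hde : de = v.u * g) (ht : v.t = al * v.u * (g * g))
    (hee : v.e * (de * de) = 1)
    (h : RAs Pool.Agent.helper71.FJ.Crt.LHIII.prog0 [al, v.u, g, v.n]) :
    FarPt v.e κ (1 - Real.sinh κ / 1024) w (2 * AL v.e v.K * Real.sinh κ ^ 2) R
      (RE v.e κ (w * R)) τ := by
  obtain ⟨mu, e_mu⟩ : ∃ zz : ℝ, zz = g * g := ⟨_, rfl⟩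
  obtain ⟨r, e_r⟩ : ∃ zz : ℝ, zz = al * v.u := ⟨_, rfl⟩
  have ht' : v.t = r * mu := by rw [e_r, e_mu]; exact ht
  obtain ⟨eps, e_eps⟩ : ∃ zz : ℝ, zz = de * de := ⟨_, rfl⟩
  obtain ⟨tr, e_tr⟩ : ∃ zz : ℝ, zz = v.t * r := ⟨_, rfl⟩
  obtain ⟨q, e_q⟩ : ∃ zz : ℝ, zz = Real.exp (-(r * lv.rlo)) := ⟨_, rfl⟩
  obtain ⟨th, e_th⟩ : ∃ zz : ℝ, zz = q * (r * lv.er) := ⟨_, rfl⟩
  obtain ⟨qp, e_qp⟩ : ∃ zz : ℝ, zz = Real.exp (-(r * lv.rplo)) := ⟨_, rfl⟩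
  obtain ⟨thp, e_thp⟩ : ∃ zz : ℝ, zz = qp * (r * lv.erp) := ⟨_, rfl⟩
  obtain ⟨wv, e_w⟩ : ∃ zz : ℝ, zz = al * ((1 : ℝ) * (v.c0 + v.R))⁻¹ := ⟨_, rfl⟩
  obtain ⟨xv, e_x⟩ : ∃ zz : ℝ, zz = wv * wv * v5.sn := ⟨_, rfl⟩
  obtain ⟨cc, e_cc⟩ : ∃ zz : ℝ, zz = (1 : ℝ) - xv * ((1 / 2 : ℝ) - xv * ((21845 / 524288 : ℝ) - (11651 / 8388608) * xv)) := ⟨_, rfl⟩
  obtain ⟨b⟩ := exGE q th cc v.h1
  obtain ⟨x2, e_x2⟩ : ∃ zz : ℝ, zz = 2 * (r * lv.rhi) := ⟨_, rfl⟩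
  obtain ⟨Gv, e_G⟩ : ∃ zz : ℝ, zz = lv.rhi * ((1 : ℝ) - x2 * ((1 / 2 : ℝ) - (2731 / 16384) * x2)) * b.W⁻¹ := ⟨_, rfl⟩
  obtain ⟨gv, e_g⟩ : ∃ zz : ℝ, zz = r * Gv := ⟨_, rfl⟩
  obtain ⟨gar, e_gar⟩ : ∃ zz : ℝ, zz = Gv * (gv + (1 / 2 : ℝ))⁻¹ := ⟨_, rfl⟩
  obtain ⟨ga, e_ga⟩ : ∃ zz : ℝ, zz = r * gar := ⟨_, rfl⟩
  obtain ⟨hg, e_hg⟩ : ∃ zz : ℝ, zz = v.h1 * ga := ⟨_, rfl⟩
  obtain ⟨lsf, e_lsf⟩ : ∃ zz : ℝ, zz = ((1 : ℝ) - (1 / 2) * hg) * ((1 : ℝ) - hg)⁻¹ := ⟨_, rfl⟩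
  obtain ⟨Qb, e_Qb⟩ : ∃ zz : ℝ, zz = q * (hg + (1 : ℝ)) := ⟨_, rfl⟩
  obtain ⟨lsx, e_lsx⟩ : ∃ zz : ℝ, zz = v.h1t * lsf * (v.u * gar) := ⟨_, rfl⟩
  obtain ⟨ls, e_ls⟩ : ∃ zz : ℝ, zz = hg * lsf := ⟨_, rfl⟩
  obtain ⟨xpv, e_xp⟩ : ∃ zz : ℝ, zz = xv * v.SQ⁻¹ := ⟨_, rfl⟩
  obtain ⟨ccp, e_ccp⟩ : ∃ zz : ℝ, zz = (1 : ℝ) - xpv * ((1 / 2 : ℝ) - xpv * ((21845 / 524288 : ℝ) - (11651 / 8388608) * xpv)) := ⟨_, rfl⟩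
  obtain ⟨b'⟩ := exGE qp thp ccp v3.hp
  obtain ⟨x2p, e_x2p⟩ : ∃ zz : ℝ, zz = 2 * (r * lv.rphi) := ⟨_, rfl⟩
  obtain ⟨Gpv, e_Gp⟩ : ∃ zz : ℝ, zz = lv.rphi * ((1 : ℝ) - x2p * ((1 / 2 : ℝ) - (2731 / 16384) * x2p)) * b'.W⁻¹ := ⟨_, rfl⟩
  obtain ⟨gpv, e_gp⟩ : ∃ zz : ℝ, zz = r * Gpv := ⟨_, rfl⟩
  obtain ⟨gapr, e_gapr⟩ : ∃ zz : ℝ, zz = Gpv * (gpv + (1 / 2 : ℝ))⁻¹ := ⟨_, rfl⟩
  obtain ⟨gap, e_gap⟩ : ∃ zz : ℝ, zz = r * gapr := ⟨_, rfl⟩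
  obtain ⟨hgp, e_hgp⟩ : ∃ zz : ℝ, zz = v3.hp * gap := ⟨_, rfl⟩
  obtain ⟨gu, e_gu⟩ : ∃ zz : ℝ, zz = v.u * gapr := ⟨_, rfl⟩
  obtain ⟨G4, e_G4⟩ : ∃ zz : ℝ, zz = (1 / 2) * (4 * (1 : ℝ) + al * v.nj) := ⟨_, rfl⟩
  obtain ⟨zph, e_zph⟩ : ∃ zz : ℝ, zz = v.om1 * al * gar * v.nj⁻¹ := ⟨_, rfl⟩
  obtain ⟨kz, e_kz⟩ : ∃ zz : ℝ, zz = ((1 : ℝ) - (1 / 2) * zph) * ((1 : ℝ) - zph)⁻¹ := ⟨_, rfl⟩
  obtain ⟨phux, e_phux⟩ : ∃ zz : ℝ, zz = v.u * gar * kz := ⟨_, rfl⟩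
  obtain ⟨lf, e_lf⟩ : ∃ zz : ℝ, zz = zph * kz := ⟨_, rfl⟩
  obtain ⟨Lf, e_L⟩ : ∃ zz : ℝ, zz = lf * eps := ⟨_, rfl⟩
  obtain ⟨Ei, e_Ei⟩ : ∃ zz : ℝ, zz = (1 : ℝ) + Lf * ((45 / 16) * Lf + (2 : ℝ)) := ⟨_, rfl⟩
  obtain ⟨Eh, e_Eh⟩ : ∃ zz : ℝ, zz = (1 : ℝ) + Lf * ((45 / 32) * Lf + (1 : ℝ)) := ⟨_, rfl⟩
  obtain ⟨Q1, e_Q1⟩ : ∃ zz : ℝ, zz = Qb + (1 : ℝ) := ⟨_, rfl⟩
  obtain ⟨xa⟩ := exKa v2 eps al 1 G4 Qb Q1 ls lsx phux Ei Eh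
  obtain ⟨srcx, e_srcx⟩ : ∃ zz : ℝ, zz = v.om1 * ((1 / 2) * (v.u * v2.bsum * v.aQ⁻¹)) + xa.kl := ⟨_, rfl⟩
  obtain ⟨srcs, e_srcs⟩ : ∃ zz : ℝ, zz = v.t * srcx := ⟨_, rfl⟩
  obtain ⟨yb⟩ := exKb (3 * 5⁻¹) xa tr gap gu srcs
  obtain ⟨pk⟩ := exPk v5 lv.rplo v3.hp hgp gu yb.yy
  obtain ⟨cl⟩ := exCl yb r mu pk.ye srcx
  have hsc := sc_HIII hde ht' e_mu hee e_r e_tr e_eps
  obtain ⟨hA0, hA⟩ := hA_L G hsc e_G4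
  have f := lv.f G hsc.hr
  obtain ⟨p_o2, s0⟩ := ((((((((((h
    (1 : ℝ) zLHIII_1099511627776_0
    de hde
    mu e_mu
    r e_r
    v.t ht'
    eps e_eps
    tr e_tr
    (1 / 2 : ℝ) zLHIII_549755813888_0
    v.tu v.e_tu
    (v.tu * v.n) rfl
    v.h (v.e_h.trans (congrArg (fun y : ℝ => y * (v.tu * v.n)) zLHIII_549755813888_0))
    v.u2 v.e_u2
    (v.h * v.h) rfl
    v.jm v.e_jm).2
    v.j v.e_j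
    (v.h * v.j) rfl
    v.K (v.e_K.trans (congrArg (fun y : ℝ => y * (v.h * v.j)) zLHIII_2199023255552_0))
    (2 * v.j) (congrArg (fun y : ℝ => y * v.j) zLHIII_2199023255552_0)
    v.c0 v.e_c0
    v.m v.e_m
    v.nj v.e_nj
    v.om v.e_om
    v.om1 v.e_om1
    v.op1 v.e_op1
    v.R v.e_R
    v.nj2 v.e_nj2
    v2.Y (v2.e_Y.trans (congrArg (fun y : ℝ => y * v.h) zLHIII_10774999203840_0))
    ((341 / 8192) * v2.Y) (congrArg (fun y : ℝ => y * v2.Y) zLHIII_45768245248_0)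
    (1365 / 8192 : ℝ) zLHIII_183207198720_0
    ((341 / 8192) * v2.Y + (1365 / 8192 : ℝ)) rfl
    (v2.Y * ((341 / 8192) * v2.Y + (1365 / 8192 : ℝ))) rfl
    ((1 / 2 : ℝ) + v2.Y * ((341 / 8192) * v2.Y + (1365 / 8192 : ℝ))) rfl
    (v2.Y * ((1 / 2 : ℝ) + v2.Y * ((341 / 8192) * v2.Y + (1365 / 8192 : ℝ)))) rfl
    v2.pY v2.e_pY
    (v2.Y * v2.pY) rfl
    ((1 / 2) * (v2.Y * v2.pY)) (congrArg (fun y : ℝ => y * (v2.Y * v2.pY)) zLHIII_549755813888_0)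
    ((1 : ℝ) + (1 / 2) * (v2.Y * v2.pY)) rfl
    v2.Yp v2.e_Yp
    (v.K * v.om) rfl
    (2 * v.c0) (congrArg (fun y : ℝ => y * v.c0) zLHIII_2199023255552_0)
    (v.K * v.om + 2 * v.c0) rfl
    v.Dt v.e_Dt
    v.D v.e_D
    v.SQ v.e_SQ
    (v.K * v.K) rfl
    (2 * (v.K * v.K)) (congrArg (fun y : ℝ => y * (v.K * v.K)) zLHIII_2199023255552_0)
    v.c2 v.e_c2
    (v.c0 * v.Dt) rfl
    v.rhat v.e_rhat).2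
    v.LQ v.e_LQ
    ((1 / 2) * v.LQ) (congrArg (fun y : ℝ => y * v.LQ) zLHIII_549755813888_0)
    v.aQ v.e_aQ
    (3 : ℝ) zLHIII_3298534883328_0).2
    ((3 : ℝ)⁻¹) rfl
    ((1 : ℝ) * (3 : ℝ)⁻¹) rfl
    (2 : ℝ) zLHIII_2199023255552_0
    (v.D + (2 : ℝ)) rfl).2
    ((v.D + (2 : ℝ))⁻¹) rfl
    l1.zL l1.e_zL
    l1.zz l1.e_zz
    ((1 : ℝ) - l1.zL) rfl
    (l1.zz * ((1 : ℝ) * (3 : ℝ)⁻¹)) rfl
    ((1 : ℝ) + l1.zz * ((1 : ℝ) * (3 : ℝ)⁻¹)) rfl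
    l1.Lv l1.e_Lv
    (l1.zz * l1.zz) rfl
    l1.eL (l1.e_eL.trans (congrArg (fun y : ℝ => y * (l1.zz * l1.zz)) zLHIII_219915747328_0))
    (v.Dt * l1.Lv) rfl
    lv.rlo (lv.e_rlo.trans (congrArg (fun y : ℝ => y * (v.Dt * l1.Lv)) zLHIII_549755813888_0))
    (v.Dt * l1.eL) rfl
    lv.er (lv.e_er.trans (congrArg (fun y : ℝ => y * (v.Dt * l1.eL)) zLHIII_549755813888_0))
    lv.rhi lv.e_rhi
    (v.c0 * v.rhat) rfl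
    lv.D2R (lv.e_D2R.trans (congrArg (fun y : ℝ => y * (v.c0 * v.rhat)) zLHIII_4398046511104_0))
    (v.c0 * v.R) rfl
    (v.c0 * v.R * v.rhat) rfl
    v.D2 (v.e_D2.trans (congrArg (fun y : ℝ => y * (v.c0 * v.R * v.rhat)) zLHIII_4398046511104_0))
    (v.D2 + (2 : ℝ)) rfl).2
    ((v.D2 + (2 : ℝ))⁻¹) rfl
    l2.zL l2.e_zL
    l2.zz l2.e_zz
    ((1 : ℝ) - l2.zL) rfl
    (l2.zz * ((1 : ℝ) * (3 : ℝ)⁻¹)) rfl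
    ((1 : ℝ) + l2.zz * ((1 : ℝ) * (3 : ℝ)⁻¹)) rfl
    l2.Lv l2.e_Lv
    (l2.zz * l2.zz) rfl
    l2.eL (l2.e_eL.trans (congrArg (fun y : ℝ => y * (l2.zz * l2.zz)) zLHIII_219915747328_0))
    (lv.D2R * l2.Lv) rfl
    ((1 / 2) * (lv.D2R * l2.Lv)) (congrArg (fun y : ℝ => y * (lv.D2R * l2.Lv)) zLHIII_549755813888_0)
    lv.rplo lv.e_rplo
    (lv.D2R * l2.eL) rfl
    ((1 / 2) * (lv.D2R * l2.eL)) (congrArg (fun y : ℝ => y * (lv.D2R * l2.eL)) zLHIII_549755813888_0)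
    lv.erp lv.e_erp
    lv.rphi lv.e_rphi
    (r * lv.rlo) rfl
    (-(r * lv.rlo)) rfl
    q e_q
    (r * lv.er) rfl
    th e_th
    (r * lv.rplo) rfl
    (-(r * lv.rplo)) rfl
    qp e_qp
    (r * lv.erp) rfl
    thp e_thp
    (v.om * v.K) rfl
    (v.c0 + v.om * v.K) rfl).2
    v.ioK v.e_ioK
    v.h1t v.e_h1t
    (v.om1 * v.t) rfl
    v.h1 v.e_h1
    ((1 : ℝ) - v.u2) rfl
    v.f2 v.e_f2
    v.tu2 v.e_tu2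
    ((1 : ℝ) - v.nj2) rfl
    v5.sn v5.e_sn
    (v.R * v.rhat) rfl).2
    (v.SQ⁻¹) rfl
    v5.R1 v5.e_R1
    (v.c0 + v5.R1) rfl
    v5.Qr v5.e_Qr
    (v5.Qr * v5.Qr) rfl).2
    ((v5.Qr * v5.Qr)⁻¹) rfl
    v5.Th v5.e_Th
    (v.c0 + v.R) rfl
    ((1 : ℝ) * (v.c0 + v.R)) rfl).2
    (((1 : ℝ) * (v.c0 + v.R))⁻¹) rfl
    wv e_w
    (wv * wv) rfl
    xv e_x
    (21845 / 524288 : ℝ) zLHIII_45812285440_0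
    ((11651 / 8388608) * xv) (congrArg (fun y : ℝ => y * xv) zLHIII_1527119872_0)
    ((21845 / 524288 : ℝ) - (11651 / 8388608) * xv) rfl
    (xv * ((21845 / 524288 : ℝ) - (11651 / 8388608) * xv)) rfl
    ((1 / 2 : ℝ) - xv * ((21845 / 524288 : ℝ) - (11651 / 8388608) * xv)) rfl
    (xv * ((1 / 2 : ℝ) - xv * ((21845 / 524288 : ℝ) - (11651 / 8388608) * xv))) rfl
    cc e_cc
    b.q1 b.e_q1
    (q * q) rfl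
    (q * q + (1 : ℝ)) rfl
    (q * cc) rfl
    (2 * (q * cc)) (congrArg (fun y : ℝ => y * (q * cc)) zLHIII_2199023255552_0)
    (q * q + (1 : ℝ) + 2 * (q * cc)) rfl
    (4 * th) (congrArg (fun y : ℝ => y * th) zLHIII_4398046511104_0)
    b.o2 b.e_o2).2
    (b.q1⁻¹) rfl
    (b.o2 * b.q1⁻¹) rfl
    b.P1 b.e_P1
    (q * v.h1) rfl
    b.qh (b.e_qh.trans (congrArg (fun y : ℝ => y * (q * v.h1)) zLHIII_549755813888_0))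
    (b.qh * b.P1) rfl
    b.W b.e_W
  change 0 < b.o2 at p_o2
  obtain ⟨p_W, s1⟩ := s0
  change 0 < b.W at p_W
  obtain ⟨p_hg, s2⟩ := (((s1
    (r * lv.rhi) rfl
    x2 (e_x2.trans (congrArg (fun y : ℝ => y * (r * lv.rhi)) zLHIII_2199023255552_0))
    ((2731 / 16384) * x2) (congrArg (fun y : ℝ => y * x2) zLHIII_183274307584_0)
    ((1 / 2 : ℝ) - (2731 / 16384) * x2) rfl
    (x2 * ((1 / 2 : ℝ) - (2731 / 16384) * x2)) rfl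
    ((1 : ℝ) - x2 * ((1 / 2 : ℝ) - (2731 / 16384) * x2)) rfl
    (lv.rhi * ((1 : ℝ) - x2 * ((1 / 2 : ℝ) - (2731 / 16384) * x2))) rfl).2
    (b.W⁻¹) rfl
    Gv e_G
    gv e_g
    (gv + (1 / 2 : ℝ)) rfl).2
    ((gv + (1 / 2 : ℝ))⁻¹) rfl
    gar e_gar
    ga e_ga
    hg e_hg
    ((1 / 2) * hg) (congrArg (fun y : ℝ => y * hg) zLHIII_549755813888_0)
    ((1 : ℝ) - (1 / 2) * hg) rfl
    ((1 : ℝ) - hg) rfl).2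
    (((1 : ℝ) - hg)⁻¹) rfl
    lsf e_lsf
    (hg + (1 : ℝ)) rfl
    Qb e_Qb
    (v.h1t * lsf) rfl
    (v.u * gar) rfl
    lsx e_lsx
    ls e_ls
  change 0 < (1 : ℝ) - hg at p_hg
  obtain ⟨p_rplo, s3⟩ := (s2
    (v.om1 * v.op1) rfl
    (v.c0 + v.t) rfl
    (v.om * v.c0) rfl
    (v.om * v.c0 * v.K) rfl
    (2 * (v.om * v.c0 * v.K)) (congrArg (fun y : ℝ => y * (v.om * v.c0 * v.K)) zLHIII_2199023255552_0)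
    (v.c2 + 2 * (v.om * v.c0 * v.K)) rfl
    ((v.c0 + v.t) * (v.c2 + 2 * (v.om * v.c0 * v.K))) rfl).2
    (((v.c0 + v.t) * (v.c2 + 2 * (v.om * v.c0 * v.K)))⁻¹) rfl
    v3.hpt v3.e_hpt
    v3.hp v3.e_hp
  change 0 < lv.rplo at p_rplo
  obtain ⟨p_o2p, s4⟩ := (s3
    xpv e_xp
    ((11651 / 8388608) * xpv) (congrArg (fun y : ℝ => y * xpv) zLHIII_1527119872_0)
    ((21845 / 524288 : ℝ) - (11651 / 8388608) * xpv) rfl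
    (xpv * ((21845 / 524288 : ℝ) - (11651 / 8388608) * xpv)) rfl
    ((1 / 2 : ℝ) - xpv * ((21845 / 524288 : ℝ) - (11651 / 8388608) * xpv)) rfl
    (xpv * ((1 / 2 : ℝ) - xpv * ((21845 / 524288 : ℝ) - (11651 / 8388608) * xpv))) rfl
    ccp e_ccp
    b'.q1 b'.e_q1
    (qp * qp) rfl
    (qp * qp + (1 : ℝ)) rfl
    (qp * ccp) rfl
    (2 * (qp * ccp)) (congrArg (fun y : ℝ => y * (qp * ccp)) zLHIII_2199023255552_0)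
    (qp * qp + (1 : ℝ) + 2 * (qp * ccp)) rfl
    (4 * thp) (congrArg (fun y : ℝ => y * thp) zLHIII_4398046511104_0)
    b'.o2 b'.e_o2).2
    (b'.q1⁻¹) rfl
    (b'.o2 * b'.q1⁻¹) rfl
    b'.P1 b'.e_P1
    (qp * v3.hp) rfl
    b'.qh (b'.e_qh.trans (congrArg (fun y : ℝ => y * (qp * v3.hp)) zLHIII_549755813888_0))
    (b'.qh * b'.P1) rfl
    b'.W b'.e_W
  change 0 < b'.o2 at p_o2p
  obtain ⟨p_Wp, s5⟩ := s4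
  change 0 < b'.W at p_Wp
  obtain ⟨p_z1, s6⟩ := (((((((((s5
    (r * lv.rphi) rfl
    x2p (e_x2p.trans (congrArg (fun y : ℝ => y * (r * lv.rphi)) zLHIII_2199023255552_0))
    ((2731 / 16384) * x2p) (congrArg (fun y : ℝ => y * x2p) zLHIII_183274307584_0)
    ((1 / 2 : ℝ) - (2731 / 16384) * x2p) rfl
    (x2p * ((1 / 2 : ℝ) - (2731 / 16384) * x2p)) rfl
    ((1 : ℝ) - x2p * ((1 / 2 : ℝ) - (2731 / 16384) * x2p)) rfl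
    (lv.rphi * ((1 : ℝ) - x2p * ((1 / 2 : ℝ) - (2731 / 16384) * x2p))) rfl).2
    (b'.W⁻¹) rfl
    Gpv e_Gp
    gpv e_gp
    (gpv + (1 / 2 : ℝ)) rfl).2
    ((gpv + (1 / 2 : ℝ))⁻¹) rfl
    gapr e_gapr
    gap e_gap
    hgp e_hgp
    gu e_gu
    (v.h + (1 : ℝ)) rfl).2
    v2.ih v2.e_ih
    (v.h * v2.ih) rfl
    v2.rh (v2.e_rh.trans (congrArg (fun y : ℝ => y * (v.h * v2.ih)) zLHIII_2199023255552_0))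
    v2.mi v2.e_mi
    v2.hm v2.e_hm
    v2.nih v2.e_nih
    (v2.nih * v2.mi) rfl
    v2.bsum v2.e_bsum
    ((209 / 1024) * v.j) (congrArg (fun y : ℝ => y * v.j) zLHIII_224412041216_0)).2
    (v2.Yp⁻¹) rfl
    v2.lm v2.e_lm
    (4 * (1 : ℝ)) (congrArg (fun y : ℝ => y * (1 : ℝ)) zLHIII_4398046511104_0)
    (al * v.nj) rfl
    (4 * (1 : ℝ) + al * v.nj) rfl
    G4 (e_G4.trans (congrArg (fun y : ℝ => y * (4 * (1 : ℝ) + al * v.nj)) zLHIII_549755813888_0))).2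
    xa.iG4 xa.e_iG4
    xa.alG xa.e_alG
    xa.AE xa.e_AE
    (xa.AE * v.op1) rfl
    xa.XeE xa.e_XeE
    (xa.alG * v.op1) rfl
    xa.XM xa.e_XM
    ((1 : ℝ) - xa.XM) rfl).2
    xa.iX xa.e_iX
    xa.QX xa.e_QX
    ((1 : ℝ) - xa.QX) rfl).2
    xa.iQX xa.e_iQX
    (v.om1 * al) rfl
    (v.om1 * al * gar) rfl).2
    (v.nj⁻¹) rfl
    zph e_zph
    ((1 / 2) * zph) (congrArg (fun y : ℝ => y * zph) zLHIII_549755813888_0)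
    ((1 : ℝ) - (1 / 2) * zph) rfl
    ((1 : ℝ) - zph) rfl).2
    (((1 : ℝ) - zph)⁻¹) rfl
    kz e_kz
    phux e_phux
    lf e_lf
    Lf e_L
  change 0 < (1 : ℝ) - zph at p_z1
  obtain ⟨p_L, s7⟩ := s6
    ((5 / 4) * Lf) (congrArg (fun y : ℝ => y * Lf) zLHIII_1374389534720_0)
    ((1 / 2 : ℝ) - (5 / 4) * Lf) rfl
  change 0 < (1 / 2 : ℝ) - (5 / 4) * Lf at p_L
  obtain ⟨p_lspa, s8⟩ := ((((((((s7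
    ((45 / 16) * Lf) (congrArg (fun y : ℝ => y * Lf) zLHIII_3092376453120_0)
    ((45 / 16) * Lf + (2 : ℝ)) rfl
    (Lf * ((45 / 16) * Lf + (2 : ℝ))) rfl
    Ei e_Ei
    ((45 / 32) * Lf) (congrArg (fun y : ℝ => y * Lf) zLHIII_1546188226560_0)
    ((45 / 32) * Lf + (1 : ℝ)) rfl
    (Lf * ((45 / 32) * Lf + (1 : ℝ))) rfl
    Eh e_Eh
    (v.h * v.nj) rfl
    ((1 : ℝ) - v.f2) rfl
    (v.h * v.om) rfl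
    (2 * (v.h * v.om)) (congrArg (fun y : ℝ => y * (v.h * v.om)) zLHIII_2199023255552_0)
    ((1 : ℝ) - v.f2 - 2 * (v.h * v.om)) rfl
    (v.h * v.nj * (v.h * v.nj)) rfl
    xa.N1 xa.e_N1
    (xa.N1 + (1 : ℝ)) rfl
    xa.s (xa.e_s.trans (congrArg (fun y : ℝ => y * (xa.N1 + (1 : ℝ))) zLHIII_549755813888_0))
    ((1 / 2) * v.R) (congrArg (fun y : ℝ => y * v.R) zLHIII_549755813888_0)
    (v.j - (1 / 2) * v.R) rfl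
    (v.tu2 * ((1 : ℝ) - v.f2)) rfl
    (v.tu2 * ((1 : ℝ) - v.f2) * v.jm) rfl
    ((1 / 8) * (v.tu2 * ((1 : ℝ) - v.f2) * v.jm)) (congrArg (fun y : ℝ => y * (v.tu2 * ((1 : ℝ) - v.f2) * v.jm)) zLHIII_137438953472_0)
    (v.j - (1 / 2) * v.R + (1 / 8) * (v.tu2 * ((1 : ℝ) - v.f2) * v.jm)) rfl
    xa.k0 xa.e_k0
    Q1 e_Q1
    (Q1 * xa.iX) rfl
    (Qb * xa.iQX) rfl
    (Q1 * xa.iX + Qb * xa.iQX) rfl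
    (xa.XM * (Q1 * xa.iX + Qb * xa.iQX)) rfl
    (ls + xa.XM * (Q1 * xa.iX + Qb * xa.iQX)) rfl
    xa.a0 xa.e_a0
    (Q1 * xa.XM) rfl
    (Q1 * xa.XM * xa.iX) rfl
    (ls + Q1 * xa.XM * xa.iX) rfl
    xa.l1 xa.e_l1
    ((13 / 64) * xa.l1) (congrArg (fun y : ℝ => y * xa.l1) zLHIII_223338299392_0)
    ((1 / 2 : ℝ) + (13 / 64) * xa.l1) rfl
    (xa.l1 * ((1 / 2 : ℝ) + (13 / 64) * xa.l1)) rfl
    xa.Na xa.e_Na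
    ((13 / 16) * xa.a0) (congrArg (fun y : ℝ => y * xa.a0) zLHIII_893353197568_0)
    ((1 : ℝ) + (13 / 16) * xa.a0) rfl
    (xa.a0 * ((1 : ℝ) + (13 / 16) * xa.a0)) rfl
    xa.Nb xa.e_Nb
    (v2.rh * v2.nih) rfl
    (v2.rh * v2.nih * Ei) rfl
    xa.rn xa.e_rn
    (xa.k0 * xa.Na) rfl
    (v.aQ + (1 / 2 : ℝ)) rfl
    (xa.rn * (v.aQ + (1 / 2 : ℝ))) rfl
    xa.ka xa.e_ka
    (v.aQ + (1 : ℝ)) rfl
    xa.kb xa.e_kb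
    (Eh * (v.aQ + (1 : ℝ))) rfl
    (Eh * (v.aQ + (1 : ℝ)) * v2.nih) rfl
    xa.lfk xa.e_lfk
    (xa.ka * lsx) rfl
    (xa.lfk * phux) rfl
    xa.kl xa.e_kl
    (v.u * v2.bsum) rfl).2
    (v.aQ⁻¹) rfl
    (v.u * v2.bsum * v.aQ⁻¹) rfl
    ((1 / 2) * (v.u * v2.bsum * v.aQ⁻¹)) (congrArg (fun y : ℝ => y * (v.u * v2.bsum * v.aQ⁻¹)) zLHIII_549755813888_0)
    (v.om1 * ((1 / 2) * (v.u * v2.bsum * v.aQ⁻¹))) rfl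
    srcx e_srcx
    srcs e_srcs
    yb.src yb.e_src
    (xa.ka * Q1) rfl
    (xa.ka * Q1 * xa.iX) rfl
    (xa.kb * Qb) rfl
    (xa.kb * Qb * xa.iQX) rfl
    yb.fxe yb.e_fxe
    (v.om1 * yb.src) rfl
    (xa.XeE * yb.fxe) rfl
    yb.epd yb.e_epd
    (v.tu2 * yb.epd) rfl
    (v.tu2 * yb.epd * v.aQ⁻¹) rfl
    ((1 : ℝ) - v.tu2 * yb.epd * v.aQ⁻¹) rfl).2
    yb.NN yb.e_NN
    yb.eN yb.e_eN
    yb.d yb.e_d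
    yb.eta yb.e_eta
    (yb.eta * v.aQ⁻¹) rfl
    ((1 : ℝ) - yb.eta * v.aQ⁻¹) rfl
    (v.rhat * ((1 : ℝ) - yb.eta * v.aQ⁻¹)) rfl
    yb.rl yb.e_rl).2
    yb.irl yb.e_irl
    yb.yy yb.e_yy
    (v.aQ - yb.eta) rfl).2
    yb.q0 yb.e_q0
    yb.zp yb.e_zp
    ((1 / 2) * yb.zp) (congrArg (fun y : ℝ => y * yb.zp) zLHIII_549755813888_0)
    ((1 : ℝ) - (1 / 2) * yb.zp) rfl
    ((1 : ℝ) - yb.zp) rfl).2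
    (((1 : ℝ) - yb.zp)⁻¹) rfl
    yb.kzp yb.e_kzp
    (v.u * yb.q0) rfl
    (gu * yb.irl) rfl
    (gu * yb.irl * yb.kzp) rfl
    yb.Cu yb.e_Cu
    (tr * yb.eN) rfl
    (yb.q0 * (tr * yb.eN)) rfl
    (gap * yb.irl) rfl
    (gap * yb.irl * yb.kzp) rfl
    (gap * yb.irl * yb.kzp * yb.d) rfl
    yb.rr yb.e_rr
    ((13 / 64) * yb.rr) (congrArg (fun y : ℝ => y * yb.rr) zLHIII_223338299392_0)
    ((1 / 2 : ℝ) + (13 / 64) * yb.rr) rfl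
    (yb.rr * ((1 / 2 : ℝ) + (13 / 64) * yb.rr)) rfl
    ((1 : ℝ) + yb.rr * ((1 / 2 : ℝ) + (13 / 64) * yb.rr)) rfl
    (yb.Cu * ((1 : ℝ) + yb.rr * ((1 / 2 : ℝ) + (13 / 64) * yb.rr))) rfl
    yb.CuN yb.e_CuN
    yb.fbt yb.e_fbt
    yb.XLt yb.e_XLt
    (5 : ℝ) zLHIII_5497558138880_0).2
    ((5 : ℝ)⁻¹) rfl
    yb.beta yb.e_beta
    ((v.h + (1 : ℝ)) * v.op1) rfl
    yb.b1 yb.e_b1
    pk.omr pk.e_omr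
    pk.omp pk.e_omp
    ((1 / 2) * hgp) (congrArg (fun y : ℝ => y * hgp) zLHIII_549755813888_0)
    ((1 : ℝ) - (1 / 2) * hgp) rfl
    ((1 : ℝ) - hgp) rfl).2
    (((1 : ℝ) - hgp)⁻¹) rfl
    (((1 : ℝ) - (1 / 2) * hgp) * ((1 : ℝ) - hgp)⁻¹) rfl
    pk.lspf pk.e_lspf
    (v.tu2 * v5.Th) rfl
    ((2731 / 4096) * (v.tu2 * v5.Th)) (congrArg (fun y : ℝ => y * (v.tu2 * v5.Th)) zLHIII_733097230336_0)
    ((1 : ℝ) - (2731 / 4096) * (v.tu2 * v5.Th)) rfl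
    (v5.Th * ((1 : ℝ) - (2731 / 4096) * (v.tu2 * v5.Th))) rfl
    (lv.rplo * lv.rplo) rfl
    (v.u2 * (lv.rplo * lv.rplo)) rfl
    pk.E0 pk.e_E0
    pk.lspa pk.e_lspa
    (pk.E0 + (1 : ℝ)) rfl
    (pk.lspa * (pk.E0 + (1 : ℝ))) rfl
    (pk.E0 - pk.lspa * (pk.E0 + (1 : ℝ))) rfl
    ((2731 / 8192) * (v.K * v.K)) (congrArg (fun y : ℝ => y * (v.K * v.K)) zLHIII_366548615168_0)
    ((1 : ℝ) - (2731 / 8192) * (v.K * v.K)) rfl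
    (v.nj2 * ((1 : ℝ) - (2731 / 8192) * (v.K * v.K))) rfl
    (pk.E0 - pk.lspa * (pk.E0 + (1 : ℝ)) + v.nj2 * ((1 : ℝ) - (2731 / 8192) * (v.K * v.K))) rfl
    (pk.omr * (pk.E0 - pk.lspa * (pk.E0 + (1 : ℝ)) + v.nj2 * ((1 : ℝ) - (2731 / 8192) * (v.K * v.K)))) rfl
    (pk.omp * pk.omp) rfl
    ((1 : ℝ) + pk.omp * pk.omp) rfl).2
    (((1 : ℝ) + pk.omp * pk.omp)⁻¹) rfl
    pk.pe pk.e_pe
    ((1 : ℝ) - yb.yy) rfl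
    pk.ye pk.e_ye
    ((1 : ℝ) - pk.lspa) rfl
  change 0 < (1 : ℝ) - pk.lspa at p_lspa
  obtain ⟨p_pe, s9⟩ := s8
  change 0 < pk.pe at p_pe
  obtain ⟨p_yy, s10⟩ := s9
  change 0 < (1 : ℝ) - yb.yy at p_yy
  obtain ⟨p_XM, s11⟩ := ((((((s10
    (yb.CuN * G4) rfl
    (yb.CuN * G4 * srcx) rfl).2
    (v.op1⁻¹) rfl
    cl.FXt cl.e_FXt
    (r * pk.ye) rfl
    ((1 / 2) * (r * pk.ye)) (congrArg (fun y : ℝ => y * (r * pk.ye)) zLHIII_549755813888_0)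
    ((1 : ℝ) - (1 / 2) * (r * pk.ye)) rfl
    (pk.ye * ((1 : ℝ) - (1 / 2) * (r * pk.ye))) rfl
    cl.S1 cl.e_S1
    (v.u * v.n) rfl
    (v.u * v.n * (v.h + (1 : ℝ))) rfl
    (v.u * v.n * (v.h + (1 : ℝ)) * v.j) rfl
    cl.a4 cl.e_a4
    (cl.S1 + cl.a4) rfl
    (cl.S1 * cl.a4) rfl
    (r * (cl.S1 * cl.a4)) rfl
    cl.S4 cl.e_S4
    cl.Dh cl.e_Dh
    ((3 / 8) * v.D) (congrArg (fun y : ℝ => y * v.D) zLHIII_412316860416_0)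
    ((1 / 2 : ℝ) - (3 / 8) * v.D) rfl
    (cl.Dh * ((1 / 2 : ℝ) - (3 / 8) * v.D)) rfl
    (mu * (cl.Dh * ((1 / 2 : ℝ) - (3 / 8) * v.D))) rfl
    cl.a5 cl.e_a5
    (cl.S4 + cl.a5) rfl
    (cl.S4 * cl.a5) rfl
    (r * (cl.S4 * cl.a5)) rfl
    cl.S5 cl.e_S5
    (v.u * yb.eN) rfl
    (v.u * yb.eN * v.op1⁻¹) rfl
    cl.a6 cl.e_a6
    (cl.S5 + cl.a6) rfl
    (cl.S5 * cl.a6) rfl
    (r * (cl.S5 * cl.a6)) rfl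
    cl.S6 cl.e_S6
    cl.a7 cl.e_a7
    (cl.S6 - cl.a7) rfl
    (v.t * yb.b1) rfl
    ((1 : ℝ) + v.t * yb.b1) rfl).2
    (((1 : ℝ) + v.t * yb.b1)⁻¹) rfl
    cl.S7 cl.e_S7
    (v.u * v.tu) rfl
    (v.u * v.tu * yb.eN) rfl
    (v.u * v.tu * yb.eN * yb.q0) rfl
    cl.a8 cl.e_a8
    (cl.S7 + cl.a8) rfl
    (cl.S7 * cl.a8) rfl
    (r * (cl.S7 * cl.a8)) rfl
    cl.S8 cl.e_S8
    (r * cl.S8) rfl
    cl.c1 cl.e_c1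
    (yb.fbt * xa.XM) rfl
    (v.t * yb.XLt) rfl
    (cl.FXt * (v.t * yb.XLt)) rfl
    (yb.fbt * xa.XM + cl.FXt * (v.t * yb.XLt)) rfl
    cl.rt cl.e_rt
    (yb.fbt + cl.FXt) rfl
    cl.fm cl.e_fm
    (cl.rt * cl.c1) rfl
    (cl.S8 + cl.rt * cl.c1) rfl
    (cl.S8 + cl.rt * cl.c1 + cl.fm) rfl
    cl.Bm cl.e_Bm
    ((1 / 1024) * mu) (congrArg (fun y : ℝ => y * mu) zLHIII_1073741824_0)
    (cl.Bm - (1 / 1024) * mu) rfl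
    yb.m1 yb.e_m1
    (yb.m1 + (2 : ℝ)) rfl
    (2 * yb.beta) (congrArg (fun y : ℝ => y * yb.beta) zLHIII_2199023255552_0)
    (yb.m1 + (2 : ℝ) - 2 * yb.beta) rfl
    ((v.h + (1 : ℝ)) * (yb.m1 + (2 : ℝ) - 2 * yb.beta)) rfl
    (yb.m1 * (2 * yb.beta)) rfl
    (yb.m1 * (2 * yb.beta) + (1 : ℝ)) rfl).2
    ((yb.m1 * (2 * yb.beta) + (1 : ℝ))⁻¹) rfl
    ((v.h + (1 : ℝ)) * (yb.m1 + (2 : ℝ) - 2 * yb.beta) * (yb.m1 * (2 * yb.beta) + (1 : ℝ))⁻¹) rfl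
    (xa.AE * yb.fxe) rfl
    ((1 / 2) * v2.lm) (congrArg (fun y : ℝ => y * v2.lm) zLHIII_549755813888_0)
    (v.K + (1 / 2) * v2.lm) rfl
    (xa.AE * yb.fxe * (v.K + (1 / 2) * v2.lm)) rfl
    (2 * (xa.AE * yb.fxe * (v.K + (1 / 2) * v2.lm))) (congrArg (fun y : ℝ => y * (xa.AE * yb.fxe * (v.K + (1 / 2) * v2.lm))) zLHIII_2199023255552_0)
    (yb.src + 2 * (xa.AE * yb.fxe * (v.K + (1 / 2) * v2.lm))) rfl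
    (2 * (yb.src + 2 * (xa.AE * yb.fxe * (v.K + (1 / 2) * v2.lm)))) (congrArg (fun y : ℝ => y * (yb.src + 2 * (xa.AE * yb.fxe * (v.K + (1 / 2) * v2.lm)))) zLHIII_2199023255552_0)
    (2 * (yb.src + 2 * (xa.AE * yb.fxe * (v.K + (1 / 2) * v2.lm))) * yb.NN) rfl
    (v.tu * yb.eN) rfl
    (v.op1 - v.tu * yb.eN) rfl).2
    ((v.op1 - v.tu * yb.eN)⁻¹) rfl
    (2 * (yb.src + 2 * (xa.AE * yb.fxe * (v.K + (1 / 2) * v2.lm))) * yb.NN * (v.op1 - v.tu * yb.eN)⁻¹) rfl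
    yb.V yb.e_V
    (al * v.nj * (al * v.nj)) rfl
    (13 : ℝ) zLHIII_14293651161088_0
    (10 : ℝ) zLHIII_10995116277760_0).2
    ((10 : ℝ)⁻¹) rfl
    ((13 : ℝ) * (10 : ℝ)⁻¹) rfl
    (al * v.nj * (al * v.nj) * ((13 : ℝ) * (10 : ℝ)⁻¹)) rfl
    ((1 : ℝ) * (1 : ℝ)) rfl
    (25 * ((1 : ℝ) * (1 : ℝ))) (congrArg (fun y : ℝ => y * ((1 : ℝ) * (1 : ℝ))) zLHIII_27487790694400_0)
    yb.C2 yb.e_C2
    yb.gr yb.e_gr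
    (2 * v.c0 - v.t) rfl
    yb.Gt yb.e_Gt
    yb.au (yb.e_au.trans (congrArg (fun y : ℝ => y * 1) e_r.symm))
    (v.op1 * yb.fxe) rfl
    (v.op1 * yb.fxe * xa.iG4) rfl
    yb.inner yb.e_inner
    (v.tu * yb.eN + (2 : ℝ)) rfl
    yb.ezs yb.e_ezs
    (yb.C2 * yb.gr) rfl
    (yb.NN * yb.ezs) rfl
    (yb.au * yb.inner) rfl
    (yb.NN * yb.ezs * (yb.au * yb.inner)) rfl
    yb.Rg0 yb.e_Rg0
    ((1 / 2) * (v.tu * yb.eN)) (congrArg (fun y : ℝ => y * (v.tu * yb.eN)) zLHIII_549755813888_0)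
    ((1 : ℝ) + (1 / 2) * (v.tu * yb.eN)) rfl
    (yb.NN * ((1 : ℝ) + (1 / 2) * (v.tu * yb.eN))) rfl
    (v.t * v.om1) rfl
    (v.t * v.om1 * v2.bsum) rfl
    (v.op1 * v.aQ) rfl).2
    ((v.op1 * v.aQ)⁻¹) rfl
    (v.t * v.om1 * v2.bsum * (v.op1 * v.aQ)⁻¹) rfl
    (yb.NN * ((1 : ℝ) + (1 / 2) * (v.tu * yb.eN)) * (v.t * v.om1 * v2.bsum * (v.op1 * v.aQ)⁻¹)) rfl
    yb.Rh yb.e_Rh
    (v2.lm * yb.Rg0) rfl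
    ((1 : ℝ) - v2.lm) rfl
    (v.u2 * yb.Rh) rfl
    (((1 : ℝ) - v2.lm) * (v.u2 * yb.Rh)) rfl
    (yb.C2 * (((1 : ℝ) - v2.lm) * (v.u2 * yb.Rh))) rfl
    yb.Rg yb.e_Rg
  change 0 < (1 : ℝ) - xa.XM at p_XM
  obtain ⟨p_QX, s12⟩ := s11
  change 0 < (1 : ℝ) - xa.QX at p_QX
  obtain ⟨p_e2, s13⟩ := s12
    (2 * (v.tu2 * yb.epd)) (congrArg (fun y : ℝ => y * (v.tu2 * yb.epd)) zLHIII_2199023255552_0)
    (v.aQ - 2 * (v.tu2 * yb.epd)) rfl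
  change 0 < v.aQ - 2 * (v.tu2 * yb.epd) at p_e2
  obtain ⟨p_rl, s14⟩ := s13
  change 0 < yb.rl at p_rl
  obtain ⟨p_hgp, s15⟩ := s14
    ((1 / 2 : ℝ) - hgp) rfl
  change 0 < (1 / 2 : ℝ) - hgp at p_hgp
  obtain ⟨p_l1, s16⟩ := s15
    ((5 / 8) * (1 : ℝ)) (congrArg (fun y : ℝ => y * (1 : ℝ)) zLHIII_687194767360_0)
    ((5 / 8) * (1 : ℝ) - xa.l1) rfl
  change 0 < (5 / 8) * (1 : ℝ) - xa.l1 at p_l1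
  obtain ⟨p_a0, s17⟩ := s16
    ((11 / 32) * (1 : ℝ)) (congrArg (fun y : ℝ => y * (1 : ℝ)) zLHIII_377957122048_0)
    ((11 / 32) * (1 : ℝ) - xa.a0) rfl
  change 0 < (11 / 32) * (1 : ℝ) - xa.a0 at p_a0
  obtain ⟨p_S, s18⟩ := s17
  change 0 < v.op1 - v.tu * yb.eN at p_S
  obtain ⟨p_zp, s19⟩ := s18
  change 0 < (1 : ℝ) - yb.zp at p_zp
  obtain ⟨p_rr, s20⟩ := s19
    ((5 / 8) * (1 : ℝ) - yb.rr) rfl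
  change 0 < (5 / 8) * (1 : ℝ) - yb.rr at p_rr
  obtain ⟨p_V, s21⟩ := s20
  change 0 < yb.V at p_V
  obtain ⟨p_B, s22⟩ := s21
  change 0 < cl.Bm - (1 / 1024) * mu at p_B
  obtain ⟨p_Rg, s23⟩ := s22
  change 0 < yb.Rg at p_Rg
  obtain ⟨p_Rh, s24⟩ := s23
  change 0 < yb.Rh at p_Rh
  have hQ := qb_s G f lv.e_rhi e_q e_th
  have hq := hQ.le
  have hQp := qb_p G f p_rplo.le lv.e_rphi e_qp e_thp
  have hqp := hQp.le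
  have hq0 : 0 < q := lt_of_lt_of_le (by rw [G.q_eq]; exact G.q0) hq
  have hcc : cc ≤ Real.cos (v.e * (Qk κ (shf κ τ)).arg) := cc_p (arg_x G v5 hsc e_w e_x) e_cc
  have hgR := gR_GS G.e0 G.κ0 G.s0 b hQ hcc G.h1_eq p_o2 p_W (qa_rhi G f).1 (qa_rhi G f).2 e_x2 e_G e_g
  have hγ := gam_GS G.e0 G.κ0 G.s0 hgR e_g e_gar e_ga
  have hccp : ccp ≤ Real.cos (v.e * (Qk κ (shf κ (shf κ τ))).arg) := cc_p (arg_xp G v3 v5 hsc e_w e_x e_xp) e_ccp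
  have hgRp := gR_GS G.e0 G.κ0 (shf_re' G.κ0 G.s0) b' hQp hccp (G.hp_eq v3) p_o2p p_Wp (qa_rphi G f).1 (qa_rphi G f).2 e_x2p e_Gp e_gp
  have hγp := gam_GS G.e0 G.κ0 (shf_re' G.κ0 G.s0) hgRp e_gp e_gapr e_gap
  have hn1 := n1_one G hγ hq e_hg e_Qb e_Q1
  have hlx : al * lsx = v.h1t * lsf * ga := by linear_combination al * e_lsx - v.h1t * lsf * e_ga - v.h1t * lsf * gar * hsc.rau
  have fr := fr_g G hγ hq hq0 e_hg e_lsf p_hg e_Qb e_ls (hsc.al0 G) hlx hn1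
  have hgu : al * gu = gap * 1 := by linear_combination al * e_gu - e_gap - gapr * hsc.rau
  obtain ⟨lf0, Ex, hφ⟩ := ph_near G v2 hsc hγ (near_zH G hsc e_ga e_zph) p_z1 e_kz (near_pH hsc e_ga e_phux) e_lf e_L p_L e_Ei e_Eh
  have as8 : As8 xa yb := ⟨p_XM, p_QX, p_e2, p_rl, p_l1, p_a0, p_S, p_zp, p_rr, p_V, p_Rg, p_Rh⟩
  exact far_Cl G D hsc hA0 hA as8 fr hgu hγp hφ pk f p_rplo e_hgp p_hgp p_lspa p_pe p_yy cl e_srcx e_srcs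
    ht'.symm f.r0 rfl p_B

theorem far_LHIII1 {κ : ℝ} {τ : ℂ} {R w : ℝ} {v : B1} (D : PtE (3 * 5⁻¹) v.e κ τ R w)
    (G : Geo κ (shf κ τ) v) (v2 : B2 v) (v3 : B3 v) (v5 : V5 v) {l1 : Lg v.D} {l2 : Lg v.D2}
    (lv : LV v l1 l2) (he2 : 2 ≤ v.e) {al g de : ℝ}
    (hde0 : 0 < de) (hde : de = v.u * g) (ht : v.t = al * v.u * (g * g))
    (hee : v.e * (de * de) = 1)
    (h : RAs Pool.Agent.helper71.FJ.Crt.LHIII.prog1 [al, v.u, g, v.n]) :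
    FarPt v.e κ (1 - Real.sinh κ / 1024) w (2 * AL v.e v.K * Real.sinh κ ^ 2) R
      (RE v.e κ (w * R)) τ := by
  obtain ⟨mu, e_mu⟩ : ∃ zz : ℝ, zz = g * g := ⟨_, rfl⟩
  obtain ⟨r, e_r⟩ : ∃ zz : ℝ, zz = al * v.u := ⟨_, rfl⟩
  have ht' : v.t = r * mu := by rw [e_r, e_mu]; exact ht
  obtain ⟨eps, e_eps⟩ : ∃ zz : ℝ, zz = de * de := ⟨_, rfl⟩
  obtain ⟨tr, e_tr⟩ : ∃ zz : ℝ, zz = v.t * r := ⟨_, rfl⟩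
  obtain ⟨q, e_q⟩ : ∃ zz : ℝ, zz = Real.exp (-(r * lv.rlo)) := ⟨_, rfl⟩
  obtain ⟨th, e_th⟩ : ∃ zz : ℝ, zz = q * (r * lv.er) := ⟨_, rfl⟩
  obtain ⟨qp, e_qp⟩ : ∃ zz : ℝ, zz = Real.exp (-(r * lv.rplo)) := ⟨_, rfl⟩
  obtain ⟨thp, e_thp⟩ : ∃ zz : ℝ, zz = qp * (r * lv.erp) := ⟨_, rfl⟩
  obtain ⟨wv, e_w⟩ : ∃ zz : ℝ, zz = al * ((1 : ℝ) * (v.c0 + v.R))⁻¹ := ⟨_, rfl⟩
  obtain ⟨xv, e_x⟩ : ∃ zz : ℝ, zz = wv * wv * v5.sn := ⟨_, rfl⟩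
  obtain ⟨cc, e_cc⟩ : ∃ zz : ℝ, zz = (1 : ℝ) - xv * ((1 / 2 : ℝ) - xv * ((21845 / 524288 : ℝ) - (11651 / 8388608) * xv)) := ⟨_, rfl⟩
  obtain ⟨b⟩ := exGE q th cc v.h1
  obtain ⟨x2, e_x2⟩ : ∃ zz : ℝ, zz = 2 * (r * lv.rhi) := ⟨_, rfl⟩
  obtain ⟨Gv, e_G⟩ : ∃ zz : ℝ, zz = lv.rhi * ((1 : ℝ) - x2 * ((1 / 2 : ℝ) - (2731 / 16384) * x2)) * b.W⁻¹ := ⟨_, rfl⟩
  obtain ⟨gv, e_g⟩ : ∃ zz : ℝ, zz = r * Gv := ⟨_, rfl⟩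
  obtain ⟨gar, e_gar⟩ : ∃ zz : ℝ, zz = Gv * (gv + (1 / 2 : ℝ))⁻¹ := ⟨_, rfl⟩
  obtain ⟨ga, e_ga⟩ : ∃ zz : ℝ, zz = r * gar := ⟨_, rfl⟩
  obtain ⟨hg, e_hg⟩ : ∃ zz : ℝ, zz = v.h1 * ga := ⟨_, rfl⟩
  obtain ⟨lsf, e_lsf⟩ : ∃ zz : ℝ, zz = ((1 : ℝ) - (1 / 2) * hg) * ((1 : ℝ) - hg)⁻¹ := ⟨_, rfl⟩
  obtain ⟨Qb, e_Qb⟩ : ∃ zz : ℝ, zz = q * (hg + (1 : ℝ)) := ⟨_, rfl⟩
  obtain ⟨lsx, e_lsx⟩ : ∃ zz : ℝ, zz = v.h1t * lsf * (v.u * gar) := ⟨_, rfl⟩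
  obtain ⟨ls, e_ls⟩ : ∃ zz : ℝ, zz = hg * lsf := ⟨_, rfl⟩
  obtain ⟨xpv, e_xp⟩ : ∃ zz : ℝ, zz = xv * v.SQ⁻¹ := ⟨_, rfl⟩
  obtain ⟨ccp, e_ccp⟩ : ∃ zz : ℝ, zz = (1 : ℝ) - xpv * ((1 / 2 : ℝ) - xpv * ((21845 / 524288 : ℝ) - (11651 / 8388608) * xpv)) := ⟨_, rfl⟩
  obtain ⟨b'⟩ := exGE qp thp ccp v3.hp
  obtain ⟨x2p, e_x2p⟩ : ∃ zz : ℝ, zz = 2 * (r * lv.rphi) := ⟨_, rfl⟩
  obtain ⟨Gpv, e_Gp⟩ : ∃ zz : ℝ, zz = lv.rphi * ((1 : ℝ) - x2p * ((1 / 2 : ℝ) - (2731 / 16384) * x2p)) * b'.W⁻¹ := ⟨_, rfl⟩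
  obtain ⟨gpv, e_gp⟩ : ∃ zz : ℝ, zz = r * Gpv := ⟨_, rfl⟩
  obtain ⟨gapr, e_gapr⟩ : ∃ zz : ℝ, zz = Gpv * (gpv + (1 / 2 : ℝ))⁻¹ := ⟨_, rfl⟩
  obtain ⟨gap, e_gap⟩ : ∃ zz : ℝ, zz = r * gapr := ⟨_, rfl⟩
  obtain ⟨hgp, e_hgp⟩ : ∃ zz : ℝ, zz = v3.hp * gap := ⟨_, rfl⟩
  obtain ⟨gu, e_gu⟩ : ∃ zz : ℝ, zz = v.u * gapr := ⟨_, rfl⟩
  obtain ⟨G4, e_G4⟩ : ∃ zz : ℝ, zz = (1 / 2) * (4 * (1 : ℝ) + al * v.nj) := ⟨_, rfl⟩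
  obtain ⟨Ei, e_Ei⟩ : ∃ zz : ℝ, zz = 2 * eps + (1 : ℝ) := ⟨_, rfl⟩
  obtain ⟨Eh, e_Eh⟩ : ∃ zz : ℝ, zz = eps + (1 : ℝ) := ⟨_, rfl⟩
  obtain ⟨phux, e_phux⟩ : ∃ zz : ℝ, zz = (13 / 16 : ℝ) := ⟨_, rfl⟩
  obtain ⟨Q1, e_Q1⟩ : ∃ zz : ℝ, zz = Qb + (1 : ℝ) := ⟨_, rfl⟩
  obtain ⟨xa⟩ := exKa v2 eps al 1 G4 Qb Q1 ls lsx phux Ei Eh
  obtain ⟨srcx, e_srcx⟩ : ∃ zz : ℝ, zz = v.om1 * ((1 / 2) * (v.u * v2.bsum * v.aQ⁻¹)) + xa.kl := ⟨_, rfl⟩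
  obtain ⟨srcs, e_srcs⟩ : ∃ zz : ℝ, zz = v.t * srcx := ⟨_, rfl⟩
  obtain ⟨yb⟩ := exKb (3 * 5⁻¹) xa tr gap gu srcs
  obtain ⟨pk⟩ := exPk v5 lv.rplo v3.hp hgp gu yb.yy
  obtain ⟨cl⟩ := exCl yb r mu pk.ye srcx
  have hsc := sc_HIII hde ht' e_mu hee e_r e_tr e_eps
  obtain ⟨hA0, hA⟩ := hA_L G hsc e_G4
  have f := lv.f G hsc.hr
  obtain ⟨p_o2, s0⟩ := ((((((((((h
    (1 : ℝ) zLHIII_1099511627776_0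
    de hde
    mu e_mu
    r e_r
    v.t ht'
    eps e_eps
    tr e_tr
    (1 / 2 : ℝ) zLHIII_549755813888_0
    v.tu v.e_tu
    (v.tu * v.n) rfl
    v.h (v.e_h.trans (congrArg (fun y : ℝ => y * (v.tu * v.n)) zLHIII_549755813888_0))
    v.u2 v.e_u2
    (v.h * v.h) rfl
    v.jm v.e_jm).2
    v.j v.e_j
    (v.h * v.j) rfl
    v.K (v.e_K.trans (congrArg (fun y : ℝ => y * (v.h * v.j)) zLHIII_2199023255552_0))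
    (2 * v.j) (congrArg (fun y : ℝ => y * v.j) zLHIII_2199023255552_0)
    v.c0 v.e_c0
    v.m v.e_m
    v.nj v.e_nj
    v.om v.e_om
    v.om1 v.e_om1
    v.op1 v.e_op1
    v.R v.e_R
    v.nj2 v.e_nj2
    v2.Y (v2.e_Y.trans (congrArg (fun y : ℝ => y * v.h) zLHIII_10774999203840_0))
    ((341 / 8192) * v2.Y) (congrArg (fun y : ℝ => y * v2.Y) zLHIII_45768245248_0)
    (1365 / 8192 : ℝ) zLHIII_183207198720_0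
    ((341 / 8192) * v2.Y + (1365 / 8192 : ℝ)) rfl
    (v2.Y * ((341 / 8192) * v2.Y + (1365 / 8192 : ℝ))) rfl
    ((1 / 2 : ℝ) + v2.Y * ((341 / 8192) * v2.Y + (1365 / 8192 : ℝ))) rfl
    (v2.Y * ((1 / 2 : ℝ) + v2.Y * ((341 / 8192) * v2.Y + (1365 / 8192 : ℝ)))) rfl
    v2.pY v2.e_pY
    (v2.Y * v2.pY) rfl
    ((1 / 2) * (v2.Y * v2.pY)) (congrArg (fun y : ℝ => y * (v2.Y * v2.pY)) zLHIII_549755813888_0)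
    ((1 : ℝ) + (1 / 2) * (v2.Y * v2.pY)) rfl
    v2.Yp v2.e_Yp
    (v.K * v.om) rfl
    (2 * v.c0) (congrArg (fun y : ℝ => y * v.c0) zLHIII_2199023255552_0)
    (v.K * v.om + 2 * v.c0) rfl
    v.Dt v.e_Dt
    v.D v.e_D
    v.SQ v.e_SQ
    (v.K * v.K) rfl
    (2 * (v.K * v.K)) (congrArg (fun y : ℝ => y * (v.K * v.K)) zLHIII_2199023255552_0)
    v.c2 v.e_c2
    (v.c0 * v.Dt) rfl
    v.rhat v.e_rhat).2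
    v.LQ v.e_LQ
    ((1 / 2) * v.LQ) (congrArg (fun y : ℝ => y * v.LQ) zLHIII_549755813888_0)
    v.aQ v.e_aQ
    (3 : ℝ) zLHIII_3298534883328_0).2
    ((3 : ℝ)⁻¹) rfl
    ((1 : ℝ) * (3 : ℝ)⁻¹) rfl
    (2 : ℝ) zLHIII_2199023255552_0
    (v.D + (2 : ℝ)) rfl).2
    ((v.D + (2 : ℝ))⁻¹) rfl
    l1.zL l1.e_zL
    l1.zz l1.e_zz
    ((1 : ℝ) - l1.zL) rfl
    (l1.zz * ((1 : ℝ) * (3 : ℝ)⁻¹)) rfl
    ((1 : ℝ) + l1.zz * ((1 : ℝ) * (3 : ℝ)⁻¹)) rfl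
    l1.Lv l1.e_Lv
    (l1.zz * l1.zz) rfl
    l1.eL (l1.e_eL.trans (congrArg (fun y : ℝ => y * (l1.zz * l1.zz)) zLHIII_219915747328_0))
    (v.Dt * l1.Lv) rfl
    lv.rlo (lv.e_rlo.trans (congrArg (fun y : ℝ => y * (v.Dt * l1.Lv)) zLHIII_549755813888_0))
    (v.Dt * l1.eL) rfl
    lv.er (lv.e_er.trans (congrArg (fun y : ℝ => y * (v.Dt * l1.eL)) zLHIII_549755813888_0))
    lv.rhi lv.e_rhi
    (v.c0 * v.rhat) rfl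
    lv.D2R (lv.e_D2R.trans (congrArg (fun y : ℝ => y * (v.c0 * v.rhat)) zLHIII_4398046511104_0))
    (v.c0 * v.R) rfl
    (v.c0 * v.R * v.rhat) rfl
    v.D2 (v.e_D2.trans (congrArg (fun y : ℝ => y * (v.c0 * v.R * v.rhat)) zLHIII_4398046511104_0))
    (v.D2 + (2 : ℝ)) rfl).2
    ((v.D2 + (2 : ℝ))⁻¹) rfl
    l2.zL l2.e_zL
    l2.zz l2.e_zz
    ((1 : ℝ) - l2.zL) rfl
    (l2.zz * ((1 : ℝ) * (3 : ℝ)⁻¹)) rfl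
    ((1 : ℝ) + l2.zz * ((1 : ℝ) * (3 : ℝ)⁻¹)) rfl
    l2.Lv l2.e_Lv
    (l2.zz * l2.zz) rfl
    l2.eL (l2.e_eL.trans (congrArg (fun y : ℝ => y * (l2.zz * l2.zz)) zLHIII_219915747328_0))
    (lv.D2R * l2.Lv) rfl
    ((1 / 2) * (lv.D2R * l2.Lv)) (congrArg (fun y : ℝ => y * (lv.D2R * l2.Lv)) zLHIII_549755813888_0)
    lv.rplo lv.e_rplo
    (lv.D2R * l2.eL) rfl
    ((1 / 2) * (lv.D2R * l2.eL)) (congrArg (fun y : ℝ => y * (lv.D2R * l2.eL)) zLHIII_549755813888_0)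
    lv.erp lv.e_erp
    lv.rphi lv.e_rphi
    (r * lv.rlo) rfl
    (-(r * lv.rlo)) rfl
    q e_q
    (r * lv.er) rfl
    th e_th
    (r * lv.rplo) rfl
    (-(r * lv.rplo)) rfl
    qp e_qp
    (r * lv.erp) rfl
    thp e_thp
    (v.om * v.K) rfl
    (v.c0 + v.om * v.K) rfl).2
    v.ioK v.e_ioK
    v.h1t v.e_h1t
    (v.om1 * v.t) rfl
    v.h1 v.e_h1
    ((1 : ℝ) - v.u2) rfl
    v.f2 v.e_f2
    v.tu2 v.e_tu2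
    ((1 : ℝ) - v.nj2) rfl
    v5.sn v5.e_sn
    (v.R * v.rhat) rfl).2
    (v.SQ⁻¹) rfl
    v5.R1 v5.e_R1
    (v.c0 + v5.R1) rfl
    v5.Qr v5.e_Qr
    (v5.Qr * v5.Qr) rfl).2
    ((v5.Qr * v5.Qr)⁻¹) rfl
    v5.Th v5.e_Th
    (v.c0 + v.R) rfl
    ((1 : ℝ) * (v.c0 + v.R)) rfl).2
    (((1 : ℝ) * (v.c0 + v.R))⁻¹) rfl
    wv e_w
    (wv * wv) rfl
    xv e_x
    (21845 / 524288 : ℝ) zLHIII_45812285440_0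
    ((11651 / 8388608) * xv) (congrArg (fun y : ℝ => y * xv) zLHIII_1527119872_0)
    ((21845 / 524288 : ℝ) - (11651 / 8388608) * xv) rfl
    (xv * ((21845 / 524288 : ℝ) - (11651 / 8388608) * xv)) rfl
    ((1 / 2 : ℝ) - xv * ((21845 / 524288 : ℝ) - (11651 / 8388608) * xv)) rfl
    (xv * ((1 / 2 : ℝ) - xv * ((21845 / 524288 : ℝ) - (11651 / 8388608) * xv))) rfl
    cc e_cc
    b.q1 b.e_q1
    (q * q) rfl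
    (q * q + (1 : ℝ)) rfl
    (q * cc) rfl
    (2 * (q * cc)) (congrArg (fun y : ℝ => y * (q * cc)) zLHIII_2199023255552_0)
    (q * q + (1 : ℝ) + 2 * (q * cc)) rfl
    (4 * th) (congrArg (fun y : ℝ => y * th) zLHIII_4398046511104_0)
    b.o2 b.e_o2).2
    (b.q1⁻¹) rfl
    (b.o2 * b.q1⁻¹) rfl
    b.P1 b.e_P1
    (q * v.h1) rfl
    b.qh (b.e_qh.trans (congrArg (fun y : ℝ => y * (q * v.h1)) zLHIII_549755813888_0))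
    (b.qh * b.P1) rfl
    b.W b.e_W
  change 0 < b.o2 at p_o2
  obtain ⟨p_W, s1⟩ := s0
  change 0 < b.W at p_W
  obtain ⟨p_hg, s2⟩ := (((s1
    (r * lv.rhi) rfl
    x2 (e_x2.trans (congrArg (fun y : ℝ => y * (r * lv.rhi)) zLHIII_2199023255552_0))
    ((2731 / 16384) * x2) (congrArg (fun y : ℝ => y * x2) zLHIII_183274307584_0)
    ((1 / 2 : ℝ) - (2731 / 16384) * x2) rfl
    (x2 * ((1 / 2 : ℝ) - (2731 / 16384) * x2)) rfl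
    ((1 : ℝ) - x2 * ((1 / 2 : ℝ) - (2731 / 16384) * x2)) rfl
    (lv.rhi * ((1 : ℝ) - x2 * ((1 / 2 : ℝ) - (2731 / 16384) * x2))) rfl).2
    (b.W⁻¹) rfl
    Gv e_G
    gv e_g
    (gv + (1 / 2 : ℝ)) rfl).2
    ((gv + (1 / 2 : ℝ))⁻¹) rfl
    gar e_gar
    ga e_ga
    hg e_hg
    ((1 / 2) * hg) (congrArg (fun y : ℝ => y * hg) zLHIII_549755813888_0)
    ((1 : ℝ) - (1 / 2) * hg) rfl
    ((1 : ℝ) - hg) rfl).2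
    (((1 : ℝ) - hg)⁻¹) rfl
    lsf e_lsf
    (hg + (1 : ℝ)) rfl
    Qb e_Qb
    (v.h1t * lsf) rfl
    (v.u * gar) rfl
    lsx e_lsx
    ls e_ls
  change 0 < (1 : ℝ) - hg at p_hg
  obtain ⟨p_rplo, s3⟩ := (s2
    (v.om1 * v.op1) rfl
    (v.c0 + v.t) rfl
    (v.om * v.c0) rfl
    (v.om * v.c0 * v.K) rfl
    (2 * (v.om * v.c0 * v.K)) (congrArg (fun y : ℝ => y * (v.om * v.c0 * v.K)) zLHIII_2199023255552_0)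
    (v.c2 + 2 * (v.om * v.c0 * v.K)) rfl
    ((v.c0 + v.t) * (v.c2 + 2 * (v.om * v.c0 * v.K))) rfl).2
    (((v.c0 + v.t) * (v.c2 + 2 * (v.om * v.c0 * v.K)))⁻¹) rfl
    v3.hpt v3.e_hpt
    v3.hp v3.e_hp
  change 0 < lv.rplo at p_rplo
  obtain ⟨p_o2p, s4⟩ := (s3
    xpv e_xp
    ((11651 / 8388608) * xpv) (congrArg (fun y : ℝ => y * xpv) zLHIII_1527119872_0)
    ((21845 / 524288 : ℝ) - (11651 / 8388608) * xpv) rfl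
    (xpv * ((21845 / 524288 : ℝ) - (11651 / 8388608) * xpv)) rfl
    ((1 / 2 : ℝ) - xpv * ((21845 / 524288 : ℝ) - (11651 / 8388608) * xpv)) rfl
    (xpv * ((1 / 2 : ℝ) - xpv * ((21845 / 524288 : ℝ) - (11651 / 8388608) * xpv))) rfl
    ccp e_ccp
    b'.q1 b'.e_q1
    (qp * qp) rfl
    (qp * qp + (1 : ℝ)) rfl
    (qp * ccp) rfl
    (2 * (qp * ccp)) (congrArg (fun y : ℝ => y * (qp * ccp)) zLHIII_2199023255552_0)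
    (qp * qp + (1 : ℝ) + 2 * (qp * ccp)) rfl
    (4 * thp) (congrArg (fun y : ℝ => y * thp) zLHIII_4398046511104_0)
    b'.o2 b'.e_o2).2
    (b'.q1⁻¹) rfl
    (b'.o2 * b'.q1⁻¹) rfl
    b'.P1 b'.e_P1
    (qp * v3.hp) rfl
    b'.qh (b'.e_qh.trans (congrArg (fun y : ℝ => y * (qp * v3.hp)) zLHIII_549755813888_0))
    (b'.qh * b'.P1) rfl
    b'.W b'.e_W
  change 0 < b'.o2 at p_o2p
  obtain ⟨p_Wp, s5⟩ := s4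
  change 0 < b'.W at p_Wp
  obtain ⟨p_cone, s6⟩ := (((((((s5
    (r * lv.rphi) rfl
    x2p (e_x2p.trans (congrArg (fun y : ℝ => y * (r * lv.rphi)) zLHIII_2199023255552_0))
    ((2731 / 16384) * x2p) (congrArg (fun y : ℝ => y * x2p) zLHIII_183274307584_0)
    ((1 / 2 : ℝ) - (2731 / 16384) * x2p) rfl
    (x2p * ((1 / 2 : ℝ) - (2731 / 16384) * x2p)) rfl
    ((1 : ℝ) - x2p * ((1 / 2 : ℝ) - (2731 / 16384) * x2p)) rfl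
    (lv.rphi * ((1 : ℝ) - x2p * ((1 / 2 : ℝ) - (2731 / 16384) * x2p))) rfl).2
    (b'.W⁻¹) rfl
    Gpv e_Gp
    gpv e_gp
    (gpv + (1 / 2 : ℝ)) rfl).2
    ((gpv + (1 / 2 : ℝ))⁻¹) rfl
    gapr e_gapr
    gap e_gap
    hgp e_hgp
    gu e_gu
    (v.h + (1 : ℝ)) rfl).2
    v2.ih v2.e_ih
    (v.h * v2.ih) rfl
    v2.rh (v2.e_rh.trans (congrArg (fun y : ℝ => y * (v.h * v2.ih)) zLHIII_2199023255552_0))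
    v2.mi v2.e_mi
    v2.hm v2.e_hm
    v2.nih v2.e_nih
    (v2.nih * v2.mi) rfl
    v2.bsum v2.e_bsum
    ((209 / 1024) * v.j) (congrArg (fun y : ℝ => y * v.j) zLHIII_224412041216_0)).2
    (v2.Yp⁻¹) rfl
    v2.lm v2.e_lm
    (4 * (1 : ℝ)) (congrArg (fun y : ℝ => y * (1 : ℝ)) zLHIII_4398046511104_0)
    (al * v.nj) rfl
    (4 * (1 : ℝ) + al * v.nj) rfl
    G4 (e_G4.trans (congrArg (fun y : ℝ => y * (4 * (1 : ℝ) + al * v.nj)) zLHIII_549755813888_0))).2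
    xa.iG4 xa.e_iG4
    xa.alG xa.e_alG
    xa.AE xa.e_AE
    (xa.AE * v.op1) rfl
    xa.XeE xa.e_XeE
    (xa.alG * v.op1) rfl
    xa.XM xa.e_XM
    ((1 : ℝ) - xa.XM) rfl).2
    xa.iX xa.e_iX
    xa.QX xa.e_QX
    ((1 : ℝ) - xa.QX) rfl).2
    xa.iQX xa.e_iQX
    (2 * eps) (congrArg (fun y : ℝ => y * eps) zLHIII_2199023255552_0)
    Ei e_Ei
    Eh e_Eh
    phux (e_phux.trans zLHIII_893353197568_0)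
    (169 / 256 : ℝ) zLHIII_725849473024_0
    ((169 / 256 : ℝ) - gar) rfl
  change 0 < (169 / 256 : ℝ) - gar at p_cone
  obtain ⟨p_lspa, s7⟩ := ((((((((s6
    (v.h * v.nj) rfl
    ((1 : ℝ) - v.f2) rfl
    (v.h * v.om) rfl
    (2 * (v.h * v.om)) (congrArg (fun y : ℝ => y * (v.h * v.om)) zLHIII_2199023255552_0)
    ((1 : ℝ) - v.f2 - 2 * (v.h * v.om)) rfl
    (v.h * v.nj * (v.h * v.nj)) rfl
    xa.N1 xa.e_N1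
    (xa.N1 + (1 : ℝ)) rfl
    xa.s (xa.e_s.trans (congrArg (fun y : ℝ => y * (xa.N1 + (1 : ℝ))) zLHIII_549755813888_0))
    ((1 / 2) * v.R) (congrArg (fun y : ℝ => y * v.R) zLHIII_549755813888_0)
    (v.j - (1 / 2) * v.R) rfl
    (v.tu2 * ((1 : ℝ) - v.f2)) rfl
    (v.tu2 * ((1 : ℝ) - v.f2) * v.jm) rfl
    ((1 / 8) * (v.tu2 * ((1 : ℝ) - v.f2) * v.jm)) (congrArg (fun y : ℝ => y * (v.tu2 * ((1 : ℝ) - v.f2) * v.jm)) zLHIII_137438953472_0)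
    (v.j - (1 / 2) * v.R + (1 / 8) * (v.tu2 * ((1 : ℝ) - v.f2) * v.jm)) rfl
    xa.k0 xa.e_k0
    Q1 e_Q1
    (Q1 * xa.iX) rfl
    (Qb * xa.iQX) rfl
    (Q1 * xa.iX + Qb * xa.iQX) rfl
    (xa.XM * (Q1 * xa.iX + Qb * xa.iQX)) rfl
    (ls + xa.XM * (Q1 * xa.iX + Qb * xa.iQX)) rfl
    xa.a0 xa.e_a0
    (Q1 * xa.XM) rfl
    (Q1 * xa.XM * xa.iX) rfl
    (ls + Q1 * xa.XM * xa.iX) rfl
    xa.l1 xa.e_l1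
    ((13 / 64) * xa.l1) (congrArg (fun y : ℝ => y * xa.l1) zLHIII_223338299392_0)
    ((1 / 2 : ℝ) + (13 / 64) * xa.l1) rfl
    (xa.l1 * ((1 / 2 : ℝ) + (13 / 64) * xa.l1)) rfl
    xa.Na xa.e_Na
    ((13 / 16) * xa.a0) (congrArg (fun y : ℝ => y * xa.a0) zLHIII_893353197568_0)
    ((1 : ℝ) + (13 / 16) * xa.a0) rfl
    (xa.a0 * ((1 : ℝ) + (13 / 16) * xa.a0)) rfl
    xa.Nb xa.e_Nb
    (v2.rh * v2.nih) rfl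
    (v2.rh * v2.nih * Ei) rfl
    xa.rn xa.e_rn
    (xa.k0 * xa.Na) rfl
    (v.aQ + (1 / 2 : ℝ)) rfl
    (xa.rn * (v.aQ + (1 / 2 : ℝ))) rfl
    xa.ka xa.e_ka
    (v.aQ + (1 : ℝ)) rfl
    xa.kb xa.e_kb
    (Eh * (v.aQ + (1 : ℝ))) rfl
    (Eh * (v.aQ + (1 : ℝ)) * v2.nih) rfl
    xa.lfk xa.e_lfk
    (xa.ka * lsx) rfl
    (xa.lfk * phux) rfl
    xa.kl xa.e_kl
    (v.u * v2.bsum) rfl).2
    (v.aQ⁻¹) rfl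
    (v.u * v2.bsum * v.aQ⁻¹) rfl
    ((1 / 2) * (v.u * v2.bsum * v.aQ⁻¹)) (congrArg (fun y : ℝ => y * (v.u * v2.bsum * v.aQ⁻¹)) zLHIII_549755813888_0)
    (v.om1 * ((1 / 2) * (v.u * v2.bsum * v.aQ⁻¹))) rfl
    srcx e_srcx
    srcs e_srcs
    yb.src yb.e_src
    (xa.ka * Q1) rfl
    (xa.ka * Q1 * xa.iX) rfl
    (xa.kb * Qb) rfl
    (xa.kb * Qb * xa.iQX) rfl
    yb.fxe yb.e_fxe
    (v.om1 * yb.src) rfl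
    (xa.XeE * yb.fxe) rfl
    yb.epd yb.e_epd
    (v.tu2 * yb.epd) rfl
    (v.tu2 * yb.epd * v.aQ⁻¹) rfl
    ((1 : ℝ) - v.tu2 * yb.epd * v.aQ⁻¹) rfl).2
    yb.NN yb.e_NN
    yb.eN yb.e_eN
    yb.d yb.e_d
    yb.eta yb.e_eta
    (yb.eta * v.aQ⁻¹) rfl
    ((1 : ℝ) - yb.eta * v.aQ⁻¹) rfl
    (v.rhat * ((1 : ℝ) - yb.eta * v.aQ⁻¹)) rfl
    yb.rl yb.e_rl).2
    yb.irl yb.e_irl
    yb.yy yb.e_yy
    (v.aQ - yb.eta) rfl).2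
    yb.q0 yb.e_q0
    yb.zp yb.e_zp
    ((1 / 2) * yb.zp) (congrArg (fun y : ℝ => y * yb.zp) zLHIII_549755813888_0)
    ((1 : ℝ) - (1 / 2) * yb.zp) rfl
    ((1 : ℝ) - yb.zp) rfl).2
    (((1 : ℝ) - yb.zp)⁻¹) rfl
    yb.kzp yb.e_kzp
    (v.u * yb.q0) rfl
    (gu * yb.irl) rfl
    (gu * yb.irl * yb.kzp) rfl
    yb.Cu yb.e_Cu
    (tr * yb.eN) rfl
    (yb.q0 * (tr * yb.eN)) rfl
    (gap * yb.irl) rfl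
    (gap * yb.irl * yb.kzp) rfl
    (gap * yb.irl * yb.kzp * yb.d) rfl
    yb.rr yb.e_rr
    ((13 / 64) * yb.rr) (congrArg (fun y : ℝ => y * yb.rr) zLHIII_223338299392_0)
    ((1 / 2 : ℝ) + (13 / 64) * yb.rr) rfl
    (yb.rr * ((1 / 2 : ℝ) + (13 / 64) * yb.rr)) rfl
    ((1 : ℝ) + yb.rr * ((1 / 2 : ℝ) + (13 / 64) * yb.rr)) rfl
    (yb.Cu * ((1 : ℝ) + yb.rr * ((1 / 2 : ℝ) + (13 / 64) * yb.rr))) rfl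
    yb.CuN yb.e_CuN
    yb.fbt yb.e_fbt
    yb.XLt yb.e_XLt
    (5 : ℝ) zLHIII_5497558138880_0).2
    ((5 : ℝ)⁻¹) rfl
    yb.beta yb.e_beta
    ((v.h + (1 : ℝ)) * v.op1) rfl
    yb.b1 yb.e_b1
    pk.omr pk.e_omr
    pk.omp pk.e_omp
    ((1 / 2) * hgp) (congrArg (fun y : ℝ => y * hgp) zLHIII_549755813888_0)
    ((1 : ℝ) - (1 / 2) * hgp) rfl
    ((1 : ℝ) - hgp) rfl).2
    (((1 : ℝ) - hgp)⁻¹) rfl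
    (((1 : ℝ) - (1 / 2) * hgp) * ((1 : ℝ) - hgp)⁻¹) rfl
    pk.lspf pk.e_lspf
    (v.tu2 * v5.Th) rfl
    ((2731 / 4096) * (v.tu2 * v5.Th)) (congrArg (fun y : ℝ => y * (v.tu2 * v5.Th)) zLHIII_733097230336_0)
    ((1 : ℝ) - (2731 / 4096) * (v.tu2 * v5.Th)) rfl
    (v5.Th * ((1 : ℝ) - (2731 / 4096) * (v.tu2 * v5.Th))) rfl
    (lv.rplo * lv.rplo) rfl
    (v.u2 * (lv.rplo * lv.rplo)) rfl
    pk.E0 pk.e_E0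
    pk.lspa pk.e_lspa
    (pk.E0 + (1 : ℝ)) rfl
    (pk.lspa * (pk.E0 + (1 : ℝ))) rfl
    (pk.E0 - pk.lspa * (pk.E0 + (1 : ℝ))) rfl
    ((2731 / 8192) * (v.K * v.K)) (congrArg (fun y : ℝ => y * (v.K * v.K)) zLHIII_366548615168_0)
    ((1 : ℝ) - (2731 / 8192) * (v.K * v.K)) rfl
    (v.nj2 * ((1 : ℝ) - (2731 / 8192) * (v.K * v.K))) rfl
    (pk.E0 - pk.lspa * (pk.E0 + (1 : ℝ)) + v.nj2 * ((1 : ℝ) - (2731 / 8192) * (v.K * v.K))) rfl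
    (pk.omr * (pk.E0 - pk.lspa * (pk.E0 + (1 : ℝ)) + v.nj2 * ((1 : ℝ) - (2731 / 8192) * (v.K * v.K)))) rfl
    (pk.omp * pk.omp) rfl
    ((1 : ℝ) + pk.omp * pk.omp) rfl).2
    (((1 : ℝ) + pk.omp * pk.omp)⁻¹) rfl
    pk.pe pk.e_pe
    ((1 : ℝ) - yb.yy) rfl
    pk.ye pk.e_ye
    ((1 : ℝ) - pk.lspa) rfl
  change 0 < (1 : ℝ) - pk.lspa at p_lspa
  obtain ⟨p_pe, s8⟩ := s7
  change 0 < pk.pe at p_pe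
  obtain ⟨p_yy, s9⟩ := s8
  change 0 < (1 : ℝ) - yb.yy at p_yy
  obtain ⟨p_XM, s10⟩ := ((((((s9
    (yb.CuN * G4) rfl
    (yb.CuN * G4 * srcx) rfl).2
    (v.op1⁻¹) rfl
    cl.FXt cl.e_FXt
    (r * pk.ye) rfl
    ((1 / 2) * (r * pk.ye)) (congrArg (fun y : ℝ => y * (r * pk.ye)) zLHIII_549755813888_0)
    ((1 : ℝ) - (1 / 2) * (r * pk.ye)) rfl
    (pk.ye * ((1 : ℝ) - (1 / 2) * (r * pk.ye))) rfl
    cl.S1 cl.e_S1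
    (v.u * v.n) rfl
    (v.u * v.n * (v.h + (1 : ℝ))) rfl
    (v.u * v.n * (v.h + (1 : ℝ)) * v.j) rfl
    cl.a4 cl.e_a4
    (cl.S1 + cl.a4) rfl
    (cl.S1 * cl.a4) rfl
    (r * (cl.S1 * cl.a4)) rfl
    cl.S4 cl.e_S4
    cl.Dh cl.e_Dh
    ((3 / 8) * v.D) (congrArg (fun y : ℝ => y * v.D) zLHIII_412316860416_0)
    ((1 / 2 : ℝ) - (3 / 8) * v.D) rfl
    (cl.Dh * ((1 / 2 : ℝ) - (3 / 8) * v.D)) rfl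
    (mu * (cl.Dh * ((1 / 2 : ℝ) - (3 / 8) * v.D))) rfl
    cl.a5 cl.e_a5
    (cl.S4 + cl.a5) rfl
    (cl.S4 * cl.a5) rfl
    (r * (cl.S4 * cl.a5)) rfl
    cl.S5 cl.e_S5
    (v.u * yb.eN) rfl
    (v.u * yb.eN * v.op1⁻¹) rfl
    cl.a6 cl.e_a6
    (cl.S5 + cl.a6) rfl
    (cl.S5 * cl.a6) rfl
    (r * (cl.S5 * cl.a6)) rfl
    cl.S6 cl.e_S6
    cl.a7 cl.e_a7
    (cl.S6 - cl.a7) rfl
    (v.t * yb.b1) rfl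
    ((1 : ℝ) + v.t * yb.b1) rfl).2
    (((1 : ℝ) + v.t * yb.b1)⁻¹) rfl
    cl.S7 cl.e_S7
    (v.u * v.tu) rfl
    (v.u * v.tu * yb.eN) rfl
    (v.u * v.tu * yb.eN * yb.q0) rfl
    cl.a8 cl.e_a8
    (cl.S7 + cl.a8) rfl
    (cl.S7 * cl.a8) rfl
    (r * (cl.S7 * cl.a8)) rfl
    cl.S8 cl.e_S8
    (r * cl.S8) rfl
    cl.c1 cl.e_c1
    (yb.fbt * xa.XM) rfl
    (v.t * yb.XLt) rfl
    (cl.FXt * (v.t * yb.XLt)) rfl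
    (yb.fbt * xa.XM + cl.FXt * (v.t * yb.XLt)) rfl
    cl.rt cl.e_rt
    (yb.fbt + cl.FXt) rfl
    cl.fm cl.e_fm
    (cl.rt * cl.c1) rfl
    (cl.S8 + cl.rt * cl.c1) rfl
    (cl.S8 + cl.rt * cl.c1 + cl.fm) rfl
    cl.Bm cl.e_Bm
    ((1 / 1024) * mu) (congrArg (fun y : ℝ => y * mu) zLHIII_1073741824_0)
    (cl.Bm - (1 / 1024) * mu) rfl
    yb.m1 yb.e_m1
    (yb.m1 + (2 : ℝ)) rfl
    (2 * yb.beta) (congrArg (fun y : ℝ => y * yb.beta) zLHIII_2199023255552_0)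
    (yb.m1 + (2 : ℝ) - 2 * yb.beta) rfl
    ((v.h + (1 : ℝ)) * (yb.m1 + (2 : ℝ) - 2 * yb.beta)) rfl
    (yb.m1 * (2 * yb.beta)) rfl
    (yb.m1 * (2 * yb.beta) + (1 : ℝ)) rfl).2
    ((yb.m1 * (2 * yb.beta) + (1 : ℝ))⁻¹) rfl
    ((v.h + (1 : ℝ)) * (yb.m1 + (2 : ℝ) - 2 * yb.beta) * (yb.m1 * (2 * yb.beta) + (1 : ℝ))⁻¹) rfl
    (xa.AE * yb.fxe) rfl
    ((1 / 2) * v2.lm) (congrArg (fun y : ℝ => y * v2.lm) zLHIII_549755813888_0)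
    (v.K + (1 / 2) * v2.lm) rfl
    (xa.AE * yb.fxe * (v.K + (1 / 2) * v2.lm)) rfl
    (2 * (xa.AE * yb.fxe * (v.K + (1 / 2) * v2.lm))) (congrArg (fun y : ℝ => y * (xa.AE * yb.fxe * (v.K + (1 / 2) * v2.lm))) zLHIII_2199023255552_0)
    (yb.src + 2 * (xa.AE * yb.fxe * (v.K + (1 / 2) * v2.lm))) rfl
    (2 * (yb.src + 2 * (xa.AE * yb.fxe * (v.K + (1 / 2) * v2.lm)))) (congrArg (fun y : ℝ => y * (yb.src + 2 * (xa.AE * yb.fxe * (v.K + (1 / 2) * v2.lm)))) zLHIII_2199023255552_0)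
    (2 * (yb.src + 2 * (xa.AE * yb.fxe * (v.K + (1 / 2) * v2.lm))) * yb.NN) rfl
    (v.tu * yb.eN) rfl
    (v.op1 - v.tu * yb.eN) rfl).2
    ((v.op1 - v.tu * yb.eN)⁻¹) rfl
    (2 * (yb.src + 2 * (xa.AE * yb.fxe * (v.K + (1 / 2) * v2.lm))) * yb.NN * (v.op1 - v.tu * yb.eN)⁻¹) rfl
    yb.V yb.e_V
    (al * v.nj * (al * v.nj)) rfl
    (13 : ℝ) zLHIII_14293651161088_0
    (10 : ℝ) zLHIII_10995116277760_0).2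
    ((10 : ℝ)⁻¹) rfl
    ((13 : ℝ) * (10 : ℝ)⁻¹) rfl
    (al * v.nj * (al * v.nj) * ((13 : ℝ) * (10 : ℝ)⁻¹)) rfl
    ((1 : ℝ) * (1 : ℝ)) rfl
    (25 * ((1 : ℝ) * (1 : ℝ))) (congrArg (fun y : ℝ => y * ((1 : ℝ) * (1 : ℝ))) zLHIII_27487790694400_0)
    yb.C2 yb.e_C2
    yb.gr yb.e_gr
    (2 * v.c0 - v.t) rfl
    yb.Gt yb.e_Gt
    yb.au (yb.e_au.trans (congrArg (fun y : ℝ => y * 1) e_r.symm))
    (v.op1 * yb.fxe) rfl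
    (v.op1 * yb.fxe * xa.iG4) rfl
    yb.inner yb.e_inner
    (v.tu * yb.eN + (2 : ℝ)) rfl
    yb.ezs yb.e_ezs
    (yb.C2 * yb.gr) rfl
    (yb.NN * yb.ezs) rfl
    (yb.au * yb.inner) rfl
    (yb.NN * yb.ezs * (yb.au * yb.inner)) rfl
    yb.Rg0 yb.e_Rg0
    ((1 / 2) * (v.tu * yb.eN)) (congrArg (fun y : ℝ => y * (v.tu * yb.eN)) zLHIII_549755813888_0)
    ((1 : ℝ) + (1 / 2) * (v.tu * yb.eN)) rfl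
    (yb.NN * ((1 : ℝ) + (1 / 2) * (v.tu * yb.eN))) rfl
    (v.t * v.om1) rfl
    (v.t * v.om1 * v2.bsum) rfl
    (v.op1 * v.aQ) rfl).2
    ((v.op1 * v.aQ)⁻¹) rfl
    (v.t * v.om1 * v2.bsum * (v.op1 * v.aQ)⁻¹) rfl
    (yb.NN * ((1 : ℝ) + (1 / 2) * (v.tu * yb.eN)) * (v.t * v.om1 * v2.bsum * (v.op1 * v.aQ)⁻¹)) rfl
    yb.Rh yb.e_Rh
    (v2.lm * yb.Rg0) rfl
    ((1 : ℝ) - v2.lm) rfl
    (v.u2 * yb.Rh) rfl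
    (((1 : ℝ) - v2.lm) * (v.u2 * yb.Rh)) rfl
    (yb.C2 * (((1 : ℝ) - v2.lm) * (v.u2 * yb.Rh))) rfl
    yb.Rg yb.e_Rg
  change 0 < (1 : ℝ) - xa.XM at p_XM
  obtain ⟨p_QX, s11⟩ := s10
  change 0 < (1 : ℝ) - xa.QX at p_QX
  obtain ⟨p_e2, s12⟩ := s11
    (2 * (v.tu2 * yb.epd)) (congrArg (fun y : ℝ => y * (v.tu2 * yb.epd)) zLHIII_2199023255552_0)
    (v.aQ - 2 * (v.tu2 * yb.epd)) rfl
  change 0 < v.aQ - 2 * (v.tu2 * yb.epd) at p_e2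
  obtain ⟨p_rl, s13⟩ := s12
  change 0 < yb.rl at p_rl
  obtain ⟨p_hgp, s14⟩ := s13
    ((1 / 2 : ℝ) - hgp) rfl
  change 0 < (1 / 2 : ℝ) - hgp at p_hgp
  obtain ⟨p_l1, s15⟩ := s14
    ((5 / 8) * (1 : ℝ)) (congrArg (fun y : ℝ => y * (1 : ℝ)) zLHIII_687194767360_0)
    ((5 / 8) * (1 : ℝ) - xa.l1) rfl
  change 0 < (5 / 8) * (1 : ℝ) - xa.l1 at p_l1
  obtain ⟨p_a0, s16⟩ := s15
    ((11 / 32) * (1 : ℝ)) (congrArg (fun y : ℝ => y * (1 : ℝ)) zLHIII_377957122048_0)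
    ((11 / 32) * (1 : ℝ) - xa.a0) rfl
  change 0 < (11 / 32) * (1 : ℝ) - xa.a0 at p_a0
  obtain ⟨p_S, s17⟩ := s16
  change 0 < v.op1 - v.tu * yb.eN at p_S
  obtain ⟨p_zp, s18⟩ := s17
  change 0 < (1 : ℝ) - yb.zp at p_zp
  obtain ⟨p_rr, s19⟩ := s18
    ((5 / 8) * (1 : ℝ) - yb.rr) rfl
  change 0 < (5 / 8) * (1 : ℝ) - yb.rr at p_rr
  obtain ⟨p_V, s20⟩ := s19
  change 0 < yb.V at p_V
  obtain ⟨p_B, s21⟩ := s20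
  change 0 < cl.Bm - (1 / 1024) * mu at p_B
  obtain ⟨p_Rg, s22⟩ := s21
  change 0 < yb.Rg at p_Rg
  obtain ⟨p_Rh, s23⟩ := s22
  change 0 < yb.Rh at p_Rh
  have hQ := qb_s G f lv.e_rhi e_q e_th
  have hq := hQ.le
  have hQp := qb_p G f p_rplo.le lv.e_rphi e_qp e_thp
  have hqp := hQp.le
  have hq0 : 0 < q := lt_of_lt_of_le (by rw [G.q_eq]; exact G.q0) hq
  have hcc : cc ≤ Real.cos (v.e * (Qk κ (shf κ τ)).arg) := cc_p (arg_x G v5 hsc e_w e_x) e_cc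
  have hgR := gR_GS G.e0 G.κ0 G.s0 b hQ hcc G.h1_eq p_o2 p_W (qa_rhi G f).1 (qa_rhi G f).2 e_x2 e_G e_g
  have hγ := gam_GS G.e0 G.κ0 G.s0 hgR e_g e_gar e_ga
  have hccp : ccp ≤ Real.cos (v.e * (Qk κ (shf κ (shf κ τ))).arg) := cc_p (arg_xp G v3 v5 hsc e_w e_x e_xp) e_ccp
  have hgRp := gR_GS G.e0 G.κ0 (shf_re' G.κ0 G.s0) b' hQp hccp (G.hp_eq v3) p_o2p p_Wp (qa_rphi G f).1 (qa_rphi G f).2 e_x2p e_Gp e_gp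
  have hγp := gam_GS G.e0 G.κ0 (shf_re' G.κ0 G.s0) hgRp e_gp e_gapr e_gap
  have hn1 := n1_one G hγ hq e_hg e_Qb e_Q1
  have hlx : al * lsx = v.h1t * lsf * ga := by linear_combination al * e_lsx - v.h1t * lsf * e_ga - v.h1t * lsf * gar * hsc.rau
  have fr := fr_g G hγ hq hq0 e_hg e_lsf p_hg e_Qb e_ls (hsc.al0 G) hlx hn1
  have hgu : al * gu = gap * 1 := by linear_combination al * e_gu - e_gap - gapr * hsc.rau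
  obtain ⟨lf0, Ex, hφ⟩ := ph_cone G v2 hsc he2 hγ e_ga (by norm_num) (by linarith) e_phux e_Ei e_Eh
  have as8 : As8 xa yb := ⟨p_XM, p_QX, p_e2, p_rl, p_l1, p_a0, p_S, p_zp, p_rr, p_V, p_Rg, p_Rh⟩
  exact far_Cl G D hsc hA0 hA as8 fr hgu hγp hφ pk f p_rplo e_hgp p_hgp p_lspa p_pe p_yy cl e_srcx e_srcs
    ht'.symm f.r0 rfl p_B

theorem far_LHIII2 {κ : ℝ} {τ : ℂ} {R w : ℝ} {v : B1} (D : PtE (3 * 5⁻¹) v.e κ τ R w)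
    (G : Geo κ (shf κ τ) v) (v2 : B2 v) (v3 : B3 v) (v5 : V5 v) {l1 : Lg v.D} {l2 : Lg v.D2}
    (lv : LV v l1 l2) (he2 : 2 ≤ v.e) {al g de : ℝ}
    (hde0 : 0 < de) (hde : de = v.u * g) (ht : v.t = al * v.u * (g * g))
    (hee : v.e * (de * de) = 1)
    (h : RAs Pool.Agent.helper71.FJ.Crt.LHIII.prog2 [al, v.u, g, v.n]) :
    FarPt v.e κ (1 - Real.sinh κ / 1024) w (2 * AL v.e v.K * Real.sinh κ ^ 2) R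
      (RE v.e κ (w * R)) τ := by
  obtain ⟨mu, e_mu⟩ : ∃ zz : ℝ, zz = g * g := ⟨_, rfl⟩
  obtain ⟨r, e_r⟩ : ∃ zz : ℝ, zz = al * v.u := ⟨_, rfl⟩
  have ht' : v.t = r * mu := by rw [e_r, e_mu]; exact ht
  obtain ⟨eps, e_eps⟩ : ∃ zz : ℝ, zz = de * de := ⟨_, rfl⟩
  obtain ⟨tr, e_tr⟩ : ∃ zz : ℝ, zz = v.t * r := ⟨_, rfl⟩
  obtain ⟨q, e_q⟩ : ∃ zz : ℝ, zz = Real.exp (-(r * lv.rlo)) := ⟨_, rfl⟩
  obtain ⟨th, e_th⟩ : ∃ zz : ℝ, zz = q * (r * lv.er) := ⟨_, rfl⟩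
  obtain ⟨qp, e_qp⟩ : ∃ zz : ℝ, zz = Real.exp (-(r * lv.rplo)) := ⟨_, rfl⟩
  obtain ⟨thp, e_thp⟩ : ∃ zz : ℝ, zz = qp * (r * lv.erp) := ⟨_, rfl⟩
  obtain ⟨wv, e_w⟩ : ∃ zz : ℝ, zz = al * ((1 : ℝ) * (v.c0 + v.R))⁻¹ := ⟨_, rfl⟩
  obtain ⟨xv, e_x⟩ : ∃ zz : ℝ, zz = wv * wv * v5.sn := ⟨_, rfl⟩
  obtain ⟨cc, e_cc⟩ : ∃ zz : ℝ, zz = (1 : ℝ) - xv * ((1 / 2 : ℝ) - xv * ((21845 / 524288 : ℝ) - (11651 / 8388608) * xv)) := ⟨_, rfl⟩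
  obtain ⟨b⟩ := exGE q th cc v.h1
  obtain ⟨x2, e_x2⟩ : ∃ zz : ℝ, zz = 2 * (r * lv.rhi) := ⟨_, rfl⟩
  obtain ⟨Gv, e_G⟩ : ∃ zz : ℝ, zz = lv.rhi * ((1 : ℝ) - x2 * ((1 / 2 : ℝ) - (2731 / 16384) * x2)) * b.W⁻¹ := ⟨_, rfl⟩
  obtain ⟨gv, e_g⟩ : ∃ zz : ℝ, zz = r * Gv := ⟨_, rfl⟩
  obtain ⟨gar, e_gar⟩ : ∃ zz : ℝ, zz = Gv * (gv + (1 / 2 : ℝ))⁻¹ := ⟨_, rfl⟩
  obtain ⟨ga, e_ga⟩ : ∃ zz : ℝ, zz = r * gar := ⟨_, rfl⟩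
  obtain ⟨hg, e_hg⟩ : ∃ zz : ℝ, zz = v.h1 * ga := ⟨_, rfl⟩
  obtain ⟨lsf, e_lsf⟩ : ∃ zz : ℝ, zz = ((1 : ℝ) - (1 / 2) * hg) * ((1 : ℝ) - hg)⁻¹ := ⟨_, rfl⟩
  obtain ⟨Qb, e_Qb⟩ : ∃ zz : ℝ, zz = q * (hg + (1 : ℝ)) := ⟨_, rfl⟩
  obtain ⟨lsx, e_lsx⟩ : ∃ zz : ℝ, zz = v.h1t * lsf * (v.u * gar) := ⟨_, rfl⟩
  obtain ⟨ls, e_ls⟩ : ∃ zz : ℝ, zz = hg * lsf := ⟨_, rfl⟩
  obtain ⟨xpv, e_xp⟩ : ∃ zz : ℝ, zz = xv * v.SQ⁻¹ := ⟨_, rfl⟩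
  obtain ⟨ccp, e_ccp⟩ : ∃ zz : ℝ, zz = (1 : ℝ) - xpv * ((1 / 2 : ℝ) - xpv * ((21845 / 524288 : ℝ) - (11651 / 8388608) * xpv)) := ⟨_, rfl⟩
  obtain ⟨b'⟩ := exGE qp thp ccp v3.hp
  obtain ⟨x2p, e_x2p⟩ : ∃ zz : ℝ, zz = 2 * (r * lv.rphi) := ⟨_, rfl⟩
  obtain ⟨Gpv, e_Gp⟩ : ∃ zz : ℝ, zz = lv.rphi * ((1 : ℝ) - x2p * ((1 / 2 : ℝ) - (2731 / 16384) * x2p)) * b'.W⁻¹ := ⟨_, rfl⟩
  obtain ⟨gpv, e_gp⟩ : ∃ zz : ℝ, zz = r * Gpv := ⟨_, rfl⟩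
  obtain ⟨gapr, e_gapr⟩ : ∃ zz : ℝ, zz = Gpv * (gpv + (1 / 2 : ℝ))⁻¹ := ⟨_, rfl⟩
  obtain ⟨gap, e_gap⟩ : ∃ zz : ℝ, zz = r * gapr := ⟨_, rfl⟩
  obtain ⟨hgp, e_hgp⟩ : ∃ zz : ℝ, zz = v3.hp * gap := ⟨_, rfl⟩
  obtain ⟨gu, e_gu⟩ : ∃ zz : ℝ, zz = v.u * gapr := ⟨_, rfl⟩
  obtain ⟨G4, e_G4⟩ : ∃ zz : ℝ, zz = (1 / 2) * (4 * (1 : ℝ) + al * v.nj) := ⟨_, rfl⟩
  obtain ⟨Ei, e_Ei⟩ : ∃ zz : ℝ, zz = 2 * eps + (1 : ℝ) := ⟨_, rfl⟩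
  obtain ⟨Eh, e_Eh⟩ : ∃ zz : ℝ, zz = eps + (1 : ℝ) := ⟨_, rfl⟩
  obtain ⟨phux, e_phux⟩ : ∃ zz : ℝ, zz = (1 / 2) * ((1 / 2) * gar + 2 * (v.u * al⁻¹)) := ⟨_, rfl⟩
  obtain ⟨Q1, e_Q1⟩ : ∃ zz : ℝ, zz = Qb + (1 : ℝ) := ⟨_, rfl⟩
  obtain ⟨xa⟩ := exKa v2 eps al 1 G4 Qb Q1 ls lsx phux Ei Eh
  obtain ⟨srcx, e_srcx⟩ : ∃ zz : ℝ, zz = v.om1 * ((1 / 2) * (v.u * v2.bsum * v.aQ⁻¹)) + xa.kl := ⟨_, rfl⟩
  obtain ⟨srcs, e_srcs⟩ : ∃ zz : ℝ, zz = v.t * srcx := ⟨_, rfl⟩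
  obtain ⟨yb⟩ := exKb (3 * 5⁻¹) xa tr gap gu srcs
  obtain ⟨pk⟩ := exPk v5 lv.rplo v3.hp hgp gu yb.yy
  obtain ⟨cl⟩ := exCl yb r mu pk.ye srcx
  have hsc := sc_HIII hde ht' e_mu hee e_r e_tr e_eps
  obtain ⟨hA0, hA⟩ := hA_L G hsc e_G4
  have f := lv.f G hsc.hr
  obtain ⟨p_o2, s0⟩ := ((((((((((h
    (1 : ℝ) zLHIII_1099511627776_0
    de hde
    mu e_mu
    r e_r
    v.t ht'
    eps e_eps
    tr e_tr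
    (1 / 2 : ℝ) zLHIII_549755813888_0
    v.tu v.e_tu
    (v.tu * v.n) rfl
    v.h (v.e_h.trans (congrArg (fun y : ℝ => y * (v.tu * v.n)) zLHIII_549755813888_0))
    v.u2 v.e_u2
    (v.h * v.h) rfl
    v.jm v.e_jm).2
    v.j v.e_j
    (v.h * v.j) rfl
    v.K (v.e_K.trans (congrArg (fun y : ℝ => y * (v.h * v.j)) zLHIII_2199023255552_0))
    (2 * v.j) (congrArg (fun y : ℝ => y * v.j) zLHIII_2199023255552_0)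
    v.c0 v.e_c0
    v.m v.e_m
    v.nj v.e_nj
    v.om v.e_om
    v.om1 v.e_om1
    v.op1 v.e_op1
    v.R v.e_R
    v.nj2 v.e_nj2
    v2.Y (v2.e_Y.trans (congrArg (fun y : ℝ => y * v.h) zLHIII_10774999203840_0))
    ((341 / 8192) * v2.Y) (congrArg (fun y : ℝ => y * v2.Y) zLHIII_45768245248_0)
    (1365 / 8192 : ℝ) zLHIII_183207198720_0
    ((341 / 8192) * v2.Y + (1365 / 8192 : ℝ)) rfl
    (v2.Y * ((341 / 8192) * v2.Y + (1365 / 8192 : ℝ))) rfl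
    ((1 / 2 : ℝ) + v2.Y * ((341 / 8192) * v2.Y + (1365 / 8192 : ℝ))) rfl
    (v2.Y * ((1 / 2 : ℝ) + v2.Y * ((341 / 8192) * v2.Y + (1365 / 8192 : ℝ)))) rfl
    v2.pY v2.e_pY
    (v2.Y * v2.pY) rfl
    ((1 / 2) * (v2.Y * v2.pY)) (congrArg (fun y : ℝ => y * (v2.Y * v2.pY)) zLHIII_549755813888_0)
    ((1 : ℝ) + (1 / 2) * (v2.Y * v2.pY)) rfl
    v2.Yp v2.e_Yp
    (v.K * v.om) rfl
    (2 * v.c0) (congrArg (fun y : ℝ => y * v.c0) zLHIII_2199023255552_0)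
    (v.K * v.om + 2 * v.c0) rfl
    v.Dt v.e_Dt
    v.D v.e_D
    v.SQ v.e_SQ
    (v.K * v.K) rfl
    (2 * (v.K * v.K)) (congrArg (fun y : ℝ => y * (v.K * v.K)) zLHIII_2199023255552_0)
    v.c2 v.e_c2
    (v.c0 * v.Dt) rfl
    v.rhat v.e_rhat).2
    v.LQ v.e_LQ
    ((1 / 2) * v.LQ) (congrArg (fun y : ℝ => y * v.LQ) zLHIII_549755813888_0)
    v.aQ v.e_aQ
    (3 : ℝ) zLHIII_3298534883328_0).2
    ((3 : ℝ)⁻¹) rfl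
    ((1 : ℝ) * (3 : ℝ)⁻¹) rfl
    (2 : ℝ) zLHIII_2199023255552_0
    (v.D + (2 : ℝ)) rfl).2
    ((v.D + (2 : ℝ))⁻¹) rfl
    l1.zL l1.e_zL
    l1.zz l1.e_zz
    ((1 : ℝ) - l1.zL) rfl
    (l1.zz * ((1 : ℝ) * (3 : ℝ)⁻¹)) rfl
    ((1 : ℝ) + l1.zz * ((1 : ℝ) * (3 : ℝ)⁻¹)) rfl
    l1.Lv l1.e_Lv
    (l1.zz * l1.zz) rfl
    l1.eL (l1.e_eL.trans (congrArg (fun y : ℝ => y * (l1.zz * l1.zz)) zLHIII_219915747328_0))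
    (v.Dt * l1.Lv) rfl
    lv.rlo (lv.e_rlo.trans (congrArg (fun y : ℝ => y * (v.Dt * l1.Lv)) zLHIII_549755813888_0))
    (v.Dt * l1.eL) rfl
    lv.er (lv.e_er.trans (congrArg (fun y : ℝ => y * (v.Dt * l1.eL)) zLHIII_549755813888_0))
    lv.rhi lv.e_rhi
    (v.c0 * v.rhat) rfl
    lv.D2R (lv.e_D2R.trans (congrArg (fun y : ℝ => y * (v.c0 * v.rhat)) zLHIII_4398046511104_0))
    (v.c0 * v.R) rfl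
    (v.c0 * v.R * v.rhat) rfl
    v.D2 (v.e_D2.trans (congrArg (fun y : ℝ => y * (v.c0 * v.R * v.rhat)) zLHIII_4398046511104_0))
    (v.D2 + (2 : ℝ)) rfl).2
    ((v.D2 + (2 : ℝ))⁻¹) rfl
    l2.zL l2.e_zL
    l2.zz l2.e_zz
    ((1 : ℝ) - l2.zL) rfl
    (l2.zz * ((1 : ℝ) * (3 : ℝ)⁻¹)) rfl
    ((1 : ℝ) + l2.zz * ((1 : ℝ) * (3 : ℝ)⁻¹)) rfl
    l2.Lv l2.e_Lv
    (l2.zz * l2.zz) rfl
    l2.eL (l2.e_eL.trans (congrArg (fun y : ℝ => y * (l2.zz * l2.zz)) zLHIII_219915747328_0))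
    (lv.D2R * l2.Lv) rfl
    ((1 / 2) * (lv.D2R * l2.Lv)) (congrArg (fun y : ℝ => y * (lv.D2R * l2.Lv)) zLHIII_549755813888_0)
    lv.rplo lv.e_rplo
    (lv.D2R * l2.eL) rfl
    ((1 / 2) * (lv.D2R * l2.eL)) (congrArg (fun y : ℝ => y * (lv.D2R * l2.eL)) zLHIII_549755813888_0)
    lv.erp lv.e_erp
    lv.rphi lv.e_rphi
    (r * lv.rlo) rfl
    (-(r * lv.rlo)) rfl
    q e_q
    (r * lv.er) rfl
    th e_th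
    (r * lv.rplo) rfl
    (-(r * lv.rplo)) rfl
    qp e_qp
    (r * lv.erp) rfl
    thp e_thp
    (v.om * v.K) rfl
    (v.c0 + v.om * v.K) rfl).2
    v.ioK v.e_ioK
    v.h1t v.e_h1t
    (v.om1 * v.t) rfl
    v.h1 v.e_h1
    ((1 : ℝ) - v.u2) rfl
    v.f2 v.e_f2
    v.tu2 v.e_tu2
    ((1 : ℝ) - v.nj2) rfl
    v5.sn v5.e_sn
    (v.R * v.rhat) rfl).2
    (v.SQ⁻¹) rfl
    v5.R1 v5.e_R1
    (v.c0 + v5.R1) rfl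
    v5.Qr v5.e_Qr
    (v5.Qr * v5.Qr) rfl).2
    ((v5.Qr * v5.Qr)⁻¹) rfl
    v5.Th v5.e_Th
    (v.c0 + v.R) rfl
    ((1 : ℝ) * (v.c0 + v.R)) rfl).2
    (((1 : ℝ) * (v.c0 + v.R))⁻¹) rfl
    wv e_w
    (wv * wv) rfl
    xv e_x
    (21845 / 524288 : ℝ) zLHIII_45812285440_0
    ((11651 / 8388608) * xv) (congrArg (fun y : ℝ => y * xv) zLHIII_1527119872_0)
    ((21845 / 524288 : ℝ) - (11651 / 8388608) * xv) rfl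
    (xv * ((21845 / 524288 : ℝ) - (11651 / 8388608) * xv)) rfl
    ((1 / 2 : ℝ) - xv * ((21845 / 524288 : ℝ) - (11651 / 8388608) * xv)) rfl
    (xv * ((1 / 2 : ℝ) - xv * ((21845 / 524288 : ℝ) - (11651 / 8388608) * xv))) rfl
    cc e_cc
    b.q1 b.e_q1
    (q * q) rfl
    (q * q + (1 : ℝ)) rfl
    (q * cc) rfl
    (2 * (q * cc)) (congrArg (fun y : ℝ => y * (q * cc)) zLHIII_2199023255552_0)
    (q * q + (1 : ℝ) + 2 * (q * cc)) rfl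
    (4 * th) (congrArg (fun y : ℝ => y * th) zLHIII_4398046511104_0)
    b.o2 b.e_o2).2
    (b.q1⁻¹) rfl
    (b.o2 * b.q1⁻¹) rfl
    b.P1 b.e_P1
    (q * v.h1) rfl
    b.qh (b.e_qh.trans (congrArg (fun y : ℝ => y * (q * v.h1)) zLHIII_549755813888_0))
    (b.qh * b.P1) rfl
    b.W b.e_W
  change 0 < b.o2 at p_o2
  obtain ⟨p_W, s1⟩ := s0
  change 0 < b.W at p_W
  obtain ⟨p_hg, s2⟩ := (((s1
    (r * lv.rhi) rfl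
    x2 (e_x2.trans (congrArg (fun y : ℝ => y * (r * lv.rhi)) zLHIII_2199023255552_0))
    ((2731 / 16384) * x2) (congrArg (fun y : ℝ => y * x2) zLHIII_183274307584_0)
    ((1 / 2 : ℝ) - (2731 / 16384) * x2) rfl
    (x2 * ((1 / 2 : ℝ) - (2731 / 16384) * x2)) rfl
    ((1 : ℝ) - x2 * ((1 / 2 : ℝ) - (2731 / 16384) * x2)) rfl
    (lv.rhi * ((1 : ℝ) - x2 * ((1 / 2 : ℝ) - (2731 / 16384) * x2))) rfl).2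
    (b.W⁻¹) rfl
    Gv e_G
    gv e_g
    (gv + (1 / 2 : ℝ)) rfl).2
    ((gv + (1 / 2 : ℝ))⁻¹) rfl
    gar e_gar
    ga e_ga
    hg e_hg
    ((1 / 2) * hg) (congrArg (fun y : ℝ => y * hg) zLHIII_549755813888_0)
    ((1 : ℝ) - (1 / 2) * hg) rfl
    ((1 : ℝ) - hg) rfl).2
    (((1 : ℝ) - hg)⁻¹) rfl
    lsf e_lsf
    (hg + (1 : ℝ)) rfl
    Qb e_Qb
    (v.h1t * lsf) rfl
    (v.u * gar) rfl
    lsx e_lsx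
    ls e_ls
  change 0 < (1 : ℝ) - hg at p_hg
  obtain ⟨p_rplo, s3⟩ := (s2
    (v.om1 * v.op1) rfl
    (v.c0 + v.t) rfl
    (v.om * v.c0) rfl
    (v.om * v.c0 * v.K) rfl
    (2 * (v.om * v.c0 * v.K)) (congrArg (fun y : ℝ => y * (v.om * v.c0 * v.K)) zLHIII_2199023255552_0)
    (v.c2 + 2 * (v.om * v.c0 * v.K)) rfl
    ((v.c0 + v.t) * (v.c2 + 2 * (v.om * v.c0 * v.K))) rfl).2
    (((v.c0 + v.t) * (v.c2 + 2 * (v.om * v.c0 * v.K)))⁻¹) rfl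
    v3.hpt v3.e_hpt
    v3.hp v3.e_hp
  change 0 < lv.rplo at p_rplo
  obtain ⟨p_o2p, s4⟩ := (s3
    xpv e_xp
    ((11651 / 8388608) * xpv) (congrArg (fun y : ℝ => y * xpv) zLHIII_1527119872_0)
    ((21845 / 524288 : ℝ) - (11651 / 8388608) * xpv) rfl
    (xpv * ((21845 / 524288 : ℝ) - (11651 / 8388608) * xpv)) rfl
    ((1 / 2 : ℝ) - xpv * ((21845 / 524288 : ℝ) - (11651 / 8388608) * xpv)) rfl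
    (xpv * ((1 / 2 : ℝ) - xpv * ((21845 / 524288 : ℝ) - (11651 / 8388608) * xpv))) rfl
    ccp e_ccp
    b'.q1 b'.e_q1
    (qp * qp) rfl
    (qp * qp + (1 : ℝ)) rfl
    (qp * ccp) rfl
    (2 * (qp * ccp)) (congrArg (fun y : ℝ => y * (qp * ccp)) zLHIII_2199023255552_0)
    (qp * qp + (1 : ℝ) + 2 * (qp * ccp)) rfl
    (4 * thp) (congrArg (fun y : ℝ => y * thp) zLHIII_4398046511104_0)
    b'.o2 b'.e_o2).2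
    (b'.q1⁻¹) rfl
    (b'.o2 * b'.q1⁻¹) rfl
    b'.P1 b'.e_P1
    (qp * v3.hp) rfl
    b'.qh (b'.e_qh.trans (congrArg (fun y : ℝ => y * (qp * v3.hp)) zLHIII_549755813888_0))
    (b'.qh * b'.P1) rfl
    b'.W b'.e_W
  change 0 < b'.o2 at p_o2p
  obtain ⟨p_Wp, s5⟩ := s4
  change 0 < b'.W at p_Wp
  obtain ⟨p_lspa, s6⟩ := ((((((((((((((((s5
    (r * lv.rphi) rfl
    x2p (e_x2p.trans (congrArg (fun y : ℝ => y * (r * lv.rphi)) zLHIII_2199023255552_0))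
    ((2731 / 16384) * x2p) (congrArg (fun y : ℝ => y * x2p) zLHIII_183274307584_0)
    ((1 / 2 : ℝ) - (2731 / 16384) * x2p) rfl
    (x2p * ((1 / 2 : ℝ) - (2731 / 16384) * x2p)) rfl
    ((1 : ℝ) - x2p * ((1 / 2 : ℝ) - (2731 / 16384) * x2p)) rfl
    (lv.rphi * ((1 : ℝ) - x2p * ((1 / 2 : ℝ) - (2731 / 16384) * x2p))) rfl).2
    (b'.W⁻¹) rfl
    Gpv e_Gp
    gpv e_gp
    (gpv + (1 / 2 : ℝ)) rfl).2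
    ((gpv + (1 / 2 : ℝ))⁻¹) rfl
    gapr e_gapr
    gap e_gap
    hgp e_hgp
    gu e_gu
    (v.h + (1 : ℝ)) rfl).2
    v2.ih v2.e_ih
    (v.h * v2.ih) rfl
    v2.rh (v2.e_rh.trans (congrArg (fun y : ℝ => y * (v.h * v2.ih)) zLHIII_2199023255552_0))
    v2.mi v2.e_mi
    v2.hm v2.e_hm
    v2.nih v2.e_nih
    (v2.nih * v2.mi) rfl
    v2.bsum v2.e_bsum
    ((209 / 1024) * v.j) (congrArg (fun y : ℝ => y * v.j) zLHIII_224412041216_0)).2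
    (v2.Yp⁻¹) rfl
    v2.lm v2.e_lm
    (4 * (1 : ℝ)) (congrArg (fun y : ℝ => y * (1 : ℝ)) zLHIII_4398046511104_0)
    (al * v.nj) rfl
    (4 * (1 : ℝ) + al * v.nj) rfl
    G4 (e_G4.trans (congrArg (fun y : ℝ => y * (4 * (1 : ℝ) + al * v.nj)) zLHIII_549755813888_0))).2
    xa.iG4 xa.e_iG4
    xa.alG xa.e_alG
    xa.AE xa.e_AE
    (xa.AE * v.op1) rfl
    xa.XeE xa.e_XeE
    (xa.alG * v.op1) rfl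
    xa.XM xa.e_XM
    ((1 : ℝ) - xa.XM) rfl).2
    xa.iX xa.e_iX
    xa.QX xa.e_QX
    ((1 : ℝ) - xa.QX) rfl).2
    xa.iQX xa.e_iQX
    (2 * eps) (congrArg (fun y : ℝ => y * eps) zLHIII_2199023255552_0)
    Ei e_Ei
    Eh e_Eh
    ((1 / 2) * gar) (congrArg (fun y : ℝ => y * gar) zLHIII_549755813888_0)).2
    (al⁻¹) rfl
    (v.u * al⁻¹) rfl
    (2 * (v.u * al⁻¹)) (congrArg (fun y : ℝ => y * (v.u * al⁻¹)) zLHIII_2199023255552_0)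
    ((1 / 2) * gar + 2 * (v.u * al⁻¹)) rfl
    phux (e_phux.trans (congrArg (fun y : ℝ => y * ((1 / 2) * gar + 2 * (v.u * al⁻¹))) zLHIII_549755813888_0))
    (v.h * v.nj) rfl
    ((1 : ℝ) - v.f2) rfl
    (v.h * v.om) rfl
    (2 * (v.h * v.om)) (congrArg (fun y : ℝ => y * (v.h * v.om)) zLHIII_2199023255552_0)
    ((1 : ℝ) - v.f2 - 2 * (v.h * v.om)) rfl
    (v.h * v.nj * (v.h * v.nj)) rfl
    xa.N1 xa.e_N1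
    (xa.N1 + (1 : ℝ)) rfl
    xa.s (xa.e_s.trans (congrArg (fun y : ℝ => y * (xa.N1 + (1 : ℝ))) zLHIII_549755813888_0))
    ((1 / 2) * v.R) (congrArg (fun y : ℝ => y * v.R) zLHIII_549755813888_0)
    (v.j - (1 / 2) * v.R) rfl
    (v.tu2 * ((1 : ℝ) - v.f2)) rfl
    (v.tu2 * ((1 : ℝ) - v.f2) * v.jm) rfl
    ((1 / 8) * (v.tu2 * ((1 : ℝ) - v.f2) * v.jm)) (congrArg (fun y : ℝ => y * (v.tu2 * ((1 : ℝ) - v.f2) * v.jm)) zLHIII_137438953472_0)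
    (v.j - (1 / 2) * v.R + (1 / 8) * (v.tu2 * ((1 : ℝ) - v.f2) * v.jm)) rfl
    xa.k0 xa.e_k0
    Q1 e_Q1
    (Q1 * xa.iX) rfl
    (Qb * xa.iQX) rfl
    (Q1 * xa.iX + Qb * xa.iQX) rfl
    (xa.XM * (Q1 * xa.iX + Qb * xa.iQX)) rfl
    (ls + xa.XM * (Q1 * xa.iX + Qb * xa.iQX)) rfl
    xa.a0 xa.e_a0
    (Q1 * xa.XM) rfl
    (Q1 * xa.XM * xa.iX) rfl
    (ls + Q1 * xa.XM * xa.iX) rfl
    xa.l1 xa.e_l1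
    ((13 / 64) * xa.l1) (congrArg (fun y : ℝ => y * xa.l1) zLHIII_223338299392_0)
    ((1 / 2 : ℝ) + (13 / 64) * xa.l1) rfl
    (xa.l1 * ((1 / 2 : ℝ) + (13 / 64) * xa.l1)) rfl
    xa.Na xa.e_Na
    ((13 / 16) * xa.a0) (congrArg (fun y : ℝ => y * xa.a0) zLHIII_893353197568_0)
    ((1 : ℝ) + (13 / 16) * xa.a0) rfl
    (xa.a0 * ((1 : ℝ) + (13 / 16) * xa.a0)) rfl
    xa.Nb xa.e_Nb
    (v2.rh * v2.nih) rfl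
    (v2.rh * v2.nih * Ei) rfl
    xa.rn xa.e_rn
    (xa.k0 * xa.Na) rfl
    (v.aQ + (1 / 2 : ℝ)) rfl
    (xa.rn * (v.aQ + (1 / 2 : ℝ))) rfl
    xa.ka xa.e_ka
    (v.aQ + (1 : ℝ)) rfl
    xa.kb xa.e_kb
    (Eh * (v.aQ + (1 : ℝ))) rfl
    (Eh * (v.aQ + (1 : ℝ)) * v2.nih) rfl
    xa.lfk xa.e_lfk
    (xa.ka * lsx) rfl
    (xa.lfk * phux) rfl
    xa.kl xa.e_kl
    (v.u * v2.bsum) rfl).2
    (v.aQ⁻¹) rfl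
    (v.u * v2.bsum * v.aQ⁻¹) rfl
    ((1 / 2) * (v.u * v2.bsum * v.aQ⁻¹)) (congrArg (fun y : ℝ => y * (v.u * v2.bsum * v.aQ⁻¹)) zLHIII_549755813888_0)
    (v.om1 * ((1 / 2) * (v.u * v2.bsum * v.aQ⁻¹))) rfl
    srcx e_srcx
    srcs e_srcs
    yb.src yb.e_src
    (xa.ka * Q1) rfl
    (xa.ka * Q1 * xa.iX) rfl
    (xa.kb * Qb) rfl
    (xa.kb * Qb * xa.iQX) rfl
    yb.fxe yb.e_fxe
    (v.om1 * yb.src) rfl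
    (xa.XeE * yb.fxe) rfl
    yb.epd yb.e_epd
    (v.tu2 * yb.epd) rfl
    (v.tu2 * yb.epd * v.aQ⁻¹) rfl
    ((1 : ℝ) - v.tu2 * yb.epd * v.aQ⁻¹) rfl).2
    yb.NN yb.e_NN
    yb.eN yb.e_eN
    yb.d yb.e_d
    yb.eta yb.e_eta
    (yb.eta * v.aQ⁻¹) rfl
    ((1 : ℝ) - yb.eta * v.aQ⁻¹) rfl
    (v.rhat * ((1 : ℝ) - yb.eta * v.aQ⁻¹)) rfl
    yb.rl yb.e_rl).2
    yb.irl yb.e_irl
    yb.yy yb.e_yy
    (v.aQ - yb.eta) rfl).2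
    yb.q0 yb.e_q0
    yb.zp yb.e_zp
    ((1 / 2) * yb.zp) (congrArg (fun y : ℝ => y * yb.zp) zLHIII_549755813888_0)
    ((1 : ℝ) - (1 / 2) * yb.zp) rfl
    ((1 : ℝ) - yb.zp) rfl).2
    (((1 : ℝ) - yb.zp)⁻¹) rfl
    yb.kzp yb.e_kzp
    (v.u * yb.q0) rfl
    (gu * yb.irl) rfl
    (gu * yb.irl * yb.kzp) rfl
    yb.Cu yb.e_Cu
    (tr * yb.eN) rfl
    (yb.q0 * (tr * yb.eN)) rfl
    (gap * yb.irl) rfl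
    (gap * yb.irl * yb.kzp) rfl
    (gap * yb.irl * yb.kzp * yb.d) rfl
    yb.rr yb.e_rr
    ((13 / 64) * yb.rr) (congrArg (fun y : ℝ => y * yb.rr) zLHIII_223338299392_0)
    ((1 / 2 : ℝ) + (13 / 64) * yb.rr) rfl
    (yb.rr * ((1 / 2 : ℝ) + (13 / 64) * yb.rr)) rfl
    ((1 : ℝ) + yb.rr * ((1 / 2 : ℝ) + (13 / 64) * yb.rr)) rfl
    (yb.Cu * ((1 : ℝ) + yb.rr * ((1 / 2 : ℝ) + (13 / 64) * yb.rr))) rfl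
    yb.CuN yb.e_CuN
    yb.fbt yb.e_fbt
    yb.XLt yb.e_XLt
    (5 : ℝ) zLHIII_5497558138880_0).2
    ((5 : ℝ)⁻¹) rfl
    yb.beta yb.e_beta
    ((v.h + (1 : ℝ)) * v.op1) rfl
    yb.b1 yb.e_b1
    pk.omr pk.e_omr
    pk.omp pk.e_omp
    ((1 / 2) * hgp) (congrArg (fun y : ℝ => y * hgp) zLHIII_549755813888_0)
    ((1 : ℝ) - (1 / 2) * hgp) rfl
    ((1 : ℝ) - hgp) rfl).2
    (((1 : ℝ) - hgp)⁻¹) rfl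
    (((1 : ℝ) - (1 / 2) * hgp) * ((1 : ℝ) - hgp)⁻¹) rfl
    pk.lspf pk.e_lspf
    (v.tu2 * v5.Th) rfl
    ((2731 / 4096) * (v.tu2 * v5.Th)) (congrArg (fun y : ℝ => y * (v.tu2 * v5.Th)) zLHIII_733097230336_0)
    ((1 : ℝ) - (2731 / 4096) * (v.tu2 * v5.Th)) rfl
    (v5.Th * ((1 : ℝ) - (2731 / 4096) * (v.tu2 * v5.Th))) rfl
    (lv.rplo * lv.rplo) rfl
    (v.u2 * (lv.rplo * lv.rplo)) rfl
    pk.E0 pk.e_E0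
    pk.lspa pk.e_lspa
    (pk.E0 + (1 : ℝ)) rfl
    (pk.lspa * (pk.E0 + (1 : ℝ))) rfl
    (pk.E0 - pk.lspa * (pk.E0 + (1 : ℝ))) rfl
    ((2731 / 8192) * (v.K * v.K)) (congrArg (fun y : ℝ => y * (v.K * v.K)) zLHIII_366548615168_0)
    ((1 : ℝ) - (2731 / 8192) * (v.K * v.K)) rfl
    (v.nj2 * ((1 : ℝ) - (2731 / 8192) * (v.K * v.K))) rfl
    (pk.E0 - pk.lspa * (pk.E0 + (1 : ℝ)) + v.nj2 * ((1 : ℝ) - (2731 / 8192) * (v.K * v.K))) rfl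
    (pk.omr * (pk.E0 - pk.lspa * (pk.E0 + (1 : ℝ)) + v.nj2 * ((1 : ℝ) - (2731 / 8192) * (v.K * v.K)))) rfl
    (pk.omp * pk.omp) rfl
    ((1 : ℝ) + pk.omp * pk.omp) rfl).2
    (((1 : ℝ) + pk.omp * pk.omp)⁻¹) rfl
    pk.pe pk.e_pe
    ((1 : ℝ) - yb.yy) rfl
    pk.ye pk.e_ye
    ((1 : ℝ) - pk.lspa) rfl
  change 0 < (1 : ℝ) - pk.lspa at p_lspa
  obtain ⟨p_pe, s7⟩ := s6
  change 0 < pk.pe at p_pe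
  obtain ⟨p_yy, s8⟩ := s7
  change 0 < (1 : ℝ) - yb.yy at p_yy
  obtain ⟨p_XM, s9⟩ := ((((((s8
    (yb.CuN * G4) rfl
    (yb.CuN * G4 * srcx) rfl).2
    (v.op1⁻¹) rfl
    cl.FXt cl.e_FXt
    (r * pk.ye) rfl
    ((1 / 2) * (r * pk.ye)) (congrArg (fun y : ℝ => y * (r * pk.ye)) zLHIII_549755813888_0)
    ((1 : ℝ) - (1 / 2) * (r * pk.ye)) rfl
    (pk.ye * ((1 : ℝ) - (1 / 2) * (r * pk.ye))) rfl
    cl.S1 cl.e_S1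
    (v.u * v.n) rfl
    (v.u * v.n * (v.h + (1 : ℝ))) rfl
    (v.u * v.n * (v.h + (1 : ℝ)) * v.j) rfl
    cl.a4 cl.e_a4
    (cl.S1 + cl.a4) rfl
    (cl.S1 * cl.a4) rfl
    (r * (cl.S1 * cl.a4)) rfl
    cl.S4 cl.e_S4
    cl.Dh cl.e_Dh
    ((3 / 8) * v.D) (congrArg (fun y : ℝ => y * v.D) zLHIII_412316860416_0)
    ((1 / 2 : ℝ) - (3 / 8) * v.D) rfl
    (cl.Dh * ((1 / 2 : ℝ) - (3 / 8) * v.D)) rfl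
    (mu * (cl.Dh * ((1 / 2 : ℝ) - (3 / 8) * v.D))) rfl
    cl.a5 cl.e_a5
    (cl.S4 + cl.a5) rfl
    (cl.S4 * cl.a5) rfl
    (r * (cl.S4 * cl.a5)) rfl
    cl.S5 cl.e_S5
    (v.u * yb.eN) rfl
    (v.u * yb.eN * v.op1⁻¹) rfl
    cl.a6 cl.e_a6
    (cl.S5 + cl.a6) rfl
    (cl.S5 * cl.a6) rfl
    (r * (cl.S5 * cl.a6)) rfl
    cl.S6 cl.e_S6
    cl.a7 cl.e_a7
    (cl.S6 - cl.a7) rfl
    (v.t * yb.b1) rfl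
    ((1 : ℝ) + v.t * yb.b1) rfl).2
    (((1 : ℝ) + v.t * yb.b1)⁻¹) rfl
    cl.S7 cl.e_S7
    (v.u * v.tu) rfl
    (v.u * v.tu * yb.eN) rfl
    (v.u * v.tu * yb.eN * yb.q0) rfl
    cl.a8 cl.e_a8
    (cl.S7 + cl.a8) rfl
    (cl.S7 * cl.a8) rfl
    (r * (cl.S7 * cl.a8)) rfl
    cl.S8 cl.e_S8
    (r * cl.S8) rfl
    cl.c1 cl.e_c1
    (yb.fbt * xa.XM) rfl
    (v.t * yb.XLt) rfl
    (cl.FXt * (v.t * yb.XLt)) rfl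
    (yb.fbt * xa.XM + cl.FXt * (v.t * yb.XLt)) rfl
    cl.rt cl.e_rt
    (yb.fbt + cl.FXt) rfl
    cl.fm cl.e_fm
    (cl.rt * cl.c1) rfl
    (cl.S8 + cl.rt * cl.c1) rfl
    (cl.S8 + cl.rt * cl.c1 + cl.fm) rfl
    cl.Bm cl.e_Bm
    ((1 / 1024) * mu) (congrArg (fun y : ℝ => y * mu) zLHIII_1073741824_0)
    (cl.Bm - (1 / 1024) * mu) rfl
    yb.m1 yb.e_m1
    (yb.m1 + (2 : ℝ)) rfl
    (2 * yb.beta) (congrArg (fun y : ℝ => y * yb.beta) zLHIII_2199023255552_0)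
    (yb.m1 + (2 : ℝ) - 2 * yb.beta) rfl
    ((v.h + (1 : ℝ)) * (yb.m1 + (2 : ℝ) - 2 * yb.beta)) rfl
    (yb.m1 * (2 * yb.beta)) rfl
    (yb.m1 * (2 * yb.beta) + (1 : ℝ)) rfl).2
    ((yb.m1 * (2 * yb.beta) + (1 : ℝ))⁻¹) rfl
    ((v.h + (1 : ℝ)) * (yb.m1 + (2 : ℝ) - 2 * yb.beta) * (yb.m1 * (2 * yb.beta) + (1 : ℝ))⁻¹) rfl
    (xa.AE * yb.fxe) rfl
    ((1 / 2) * v2.lm) (congrArg (fun y : ℝ => y * v2.lm) zLHIII_549755813888_0)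
    (v.K + (1 / 2) * v2.lm) rfl
    (xa.AE * yb.fxe * (v.K + (1 / 2) * v2.lm)) rfl
    (2 * (xa.AE * yb.fxe * (v.K + (1 / 2) * v2.lm))) (congrArg (fun y : ℝ => y * (xa.AE * yb.fxe * (v.K + (1 / 2) * v2.lm))) zLHIII_2199023255552_0)
    (yb.src + 2 * (xa.AE * yb.fxe * (v.K + (1 / 2) * v2.lm))) rfl
    (2 * (yb.src + 2 * (xa.AE * yb.fxe * (v.K + (1 / 2) * v2.lm)))) (congrArg (fun y : ℝ => y * (yb.src + 2 * (xa.AE * yb.fxe * (v.K + (1 / 2) * v2.lm)))) zLHIII_2199023255552_0)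
    (2 * (yb.src + 2 * (xa.AE * yb.fxe * (v.K + (1 / 2) * v2.lm))) * yb.NN) rfl
    (v.tu * yb.eN) rfl
    (v.op1 - v.tu * yb.eN) rfl).2
    ((v.op1 - v.tu * yb.eN)⁻¹) rfl
    (2 * (yb.src + 2 * (xa.AE * yb.fxe * (v.K + (1 / 2) * v2.lm))) * yb.NN * (v.op1 - v.tu * yb.eN)⁻¹) rfl
    yb.V yb.e_V
    (al * v.nj * (al * v.nj)) rfl
    (13 : ℝ) zLHIII_14293651161088_0
    (10 : ℝ) zLHIII_10995116277760_0).2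
    ((10 : ℝ)⁻¹) rfl
    ((13 : ℝ) * (10 : ℝ)⁻¹) rfl
    (al * v.nj * (al * v.nj) * ((13 : ℝ) * (10 : ℝ)⁻¹)) rfl
    ((1 : ℝ) * (1 : ℝ)) rfl
    (25 * ((1 : ℝ) * (1 : ℝ))) (congrArg (fun y : ℝ => y * ((1 : ℝ) * (1 : ℝ))) zLHIII_27487790694400_0)
    yb.C2 yb.e_C2
    yb.gr yb.e_gr
    (2 * v.c0 - v.t) rfl
    yb.Gt yb.e_Gt
    yb.au (yb.e_au.trans (congrArg (fun y : ℝ => y * 1) e_r.symm))
    (v.op1 * yb.fxe) rfl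
    (v.op1 * yb.fxe * xa.iG4) rfl
    yb.inner yb.e_inner
    (v.tu * yb.eN + (2 : ℝ)) rfl
    yb.ezs yb.e_ezs
    (yb.C2 * yb.gr) rfl
    (yb.NN * yb.ezs) rfl
    (yb.au * yb.inner) rfl
    (yb.NN * yb.ezs * (yb.au * yb.inner)) rfl
    yb.Rg0 yb.e_Rg0
    ((1 / 2) * (v.tu * yb.eN)) (congrArg (fun y : ℝ => y * (v.tu * yb.eN)) zLHIII_549755813888_0)
    ((1 : ℝ) + (1 / 2) * (v.tu * yb.eN)) rfl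
    (yb.NN * ((1 : ℝ) + (1 / 2) * (v.tu * yb.eN))) rfl
    (v.t * v.om1) rfl
    (v.t * v.om1 * v2.bsum) rfl
    (v.op1 * v.aQ) rfl).2
    ((v.op1 * v.aQ)⁻¹) rfl
    (v.t * v.om1 * v2.bsum * (v.op1 * v.aQ)⁻¹) rfl
    (yb.NN * ((1 : ℝ) + (1 / 2) * (v.tu * yb.eN)) * (v.t * v.om1 * v2.bsum * (v.op1 * v.aQ)⁻¹)) rfl
    yb.Rh yb.e_Rh
    (v2.lm * yb.Rg0) rfl
    ((1 : ℝ) - v2.lm) rfl
    (v.u2 * yb.Rh) rfl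
    (((1 : ℝ) - v2.lm) * (v.u2 * yb.Rh)) rfl
    (yb.C2 * (((1 : ℝ) - v2.lm) * (v.u2 * yb.Rh))) rfl
    yb.Rg yb.e_Rg
  change 0 < (1 : ℝ) - xa.XM at p_XM
  obtain ⟨p_QX, s10⟩ := s9
  change 0 < (1 : ℝ) - xa.QX at p_QX
  obtain ⟨p_e2, s11⟩ := s10
    (2 * (v.tu2 * yb.epd)) (congrArg (fun y : ℝ => y * (v.tu2 * yb.epd)) zLHIII_2199023255552_0)
    (v.aQ - 2 * (v.tu2 * yb.epd)) rfl
  change 0 < v.aQ - 2 * (v.tu2 * yb.epd) at p_e2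
  obtain ⟨p_rl, s12⟩ := s11
  change 0 < yb.rl at p_rl
  obtain ⟨p_hgp, s13⟩ := s12
    ((1 / 2 : ℝ) - hgp) rfl
  change 0 < (1 / 2 : ℝ) - hgp at p_hgp
  obtain ⟨p_l1, s14⟩ := s13
    ((5 / 8) * (1 : ℝ)) (congrArg (fun y : ℝ => y * (1 : ℝ)) zLHIII_687194767360_0)
    ((5 / 8) * (1 : ℝ) - xa.l1) rfl
  change 0 < (5 / 8) * (1 : ℝ) - xa.l1 at p_l1
  obtain ⟨p_a0, s15⟩ := s14
    ((11 / 32) * (1 : ℝ)) (congrArg (fun y : ℝ => y * (1 : ℝ)) zLHIII_377957122048_0)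
    ((11 / 32) * (1 : ℝ) - xa.a0) rfl
  change 0 < (11 / 32) * (1 : ℝ) - xa.a0 at p_a0
  obtain ⟨p_S, s16⟩ := s15
  change 0 < v.op1 - v.tu * yb.eN at p_S
  obtain ⟨p_zp, s17⟩ := s16
  change 0 < (1 : ℝ) - yb.zp at p_zp
  obtain ⟨p_rr, s18⟩ := s17
    ((5 / 8) * (1 : ℝ) - yb.rr) rfl
  change 0 < (5 / 8) * (1 : ℝ) - yb.rr at p_rr
  obtain ⟨p_V, s19⟩ := s18
  change 0 < yb.V at p_V
  obtain ⟨p_B, s20⟩ := s19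
  change 0 < cl.Bm - (1 / 1024) * mu at p_B
  obtain ⟨p_Rg, s21⟩ := s20
  change 0 < yb.Rg at p_Rg
  obtain ⟨p_Rh, s22⟩ := s21
  change 0 < yb.Rh at p_Rh
  have hQ := qb_s G f lv.e_rhi e_q e_th
  have hq := hQ.le
  have hQp := qb_p G f p_rplo.le lv.e_rphi e_qp e_thp
  have hqp := hQp.le
  have hq0 : 0 < q := lt_of_lt_of_le (by rw [G.q_eq]; exact G.q0) hq
  have hcc : cc ≤ Real.cos (v.e * (Qk κ (shf κ τ)).arg) := cc_p (arg_x G v5 hsc e_w e_x) e_cc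
  have hgR := gR_GS G.e0 G.κ0 G.s0 b hQ hcc G.h1_eq p_o2 p_W (qa_rhi G f).1 (qa_rhi G f).2 e_x2 e_G e_g
  have hγ := gam_GS G.e0 G.κ0 G.s0 hgR e_g e_gar e_ga
  have hccp : ccp ≤ Real.cos (v.e * (Qk κ (shf κ (shf κ τ))).arg) := cc_p (arg_xp G v3 v5 hsc e_w e_x e_xp) e_ccp
  have hgRp := gR_GS G.e0 G.κ0 (shf_re' G.κ0 G.s0) b' hQp hccp (G.hp_eq v3) p_o2p p_Wp (qa_rphi G f).1 (qa_rphi G f).2 e_x2p e_Gp e_gp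
  have hγp := gam_GS G.e0 G.κ0 (shf_re' G.κ0 G.s0) hgRp e_gp e_gapr e_gap
  have hn1 := n1_one G hγ hq e_hg e_Qb e_Q1
  have hlx : al * lsx = v.h1t * lsf * ga := by linear_combination al * e_lsx - v.h1t * lsf * e_ga - v.h1t * lsf * gar * hsc.rau
  have fr := fr_g G hγ hq hq0 e_hg e_lsf p_hg e_Qb e_ls (hsc.al0 G) hlx hn1
  have hgu : al * gu = gap * 1 := by linear_combination al * e_gu - e_gap - gapr * hsc.rau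
  obtain ⟨lf0, Ex, hφ⟩ := ph_sq3 G v2 hsc he2 hγ e_ga (by norm_num) (by norm_num) (by norm_num) e_phux e_Ei e_Eh
  have as8 : As8 xa yb := ⟨p_XM, p_QX, p_e2, p_rl, p_l1, p_a0, p_S, p_zp, p_rr, p_V, p_Rg, p_Rh⟩
  exact far_Cl G D hsc hA0 hA as8 fr hgu hγp hφ pk f p_rplo e_hgp p_hgp p_lspa p_pe p_yy cl e_srcx e_srcs
    ht'.symm f.r0 rfl p_B

theorem far_LHIII3 {κ : ℝ} {τ : ℂ} {R w : ℝ} {v : B1} (D : PtE (3 * 5⁻¹) v.e κ τ R w)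
    (G : Geo κ (shf κ τ) v) (v2 : B2 v) (v3 : B3 v) (v5 : V5 v) {l1 : Lg v.D} {l2 : Lg v.D2}
    (lv : LV v l1 l2) (he2 : 2 ≤ v.e) {al g de : ℝ}
    (hde0 : 0 < de) (hde : de = v.u * g) (ht : v.t = al * v.u * (g * g))
    (hee : v.e * (de * de) = 1)
    (h : RAs Pool.Agent.helper71.FJ.Crt.LHIII.prog3 [al, v.u, g, v.n]) :
    FarPt v.e κ (1 - Real.sinh κ / 1024) w (2 * AL v.e v.K * Real.sinh κ ^ 2) R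
      (RE v.e κ (w * R)) τ := by
  obtain ⟨mu, e_mu⟩ : ∃ zz : ℝ, zz = g * g := ⟨_, rfl⟩
  obtain ⟨r, e_r⟩ : ∃ zz : ℝ, zz = al * v.u := ⟨_, rfl⟩
  have ht' : v.t = r * mu := by rw [e_r, e_mu]; exact ht
  obtain ⟨eps, e_eps⟩ : ∃ zz : ℝ, zz = de * de := ⟨_, rfl⟩
  obtain ⟨tr, e_tr⟩ : ∃ zz : ℝ, zz = v.t * r := ⟨_, rfl⟩
  obtain ⟨q, e_q⟩ : ∃ zz : ℝ, zz = Real.exp (-(r * lv.rlo)) := ⟨_, rfl⟩
  obtain ⟨th, e_th⟩ : ∃ zz : ℝ, zz = q * (r * lv.er) := ⟨_, rfl⟩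
  obtain ⟨qp, e_qp⟩ : ∃ zz : ℝ, zz = Real.exp (-(r * lv.rplo)) := ⟨_, rfl⟩
  obtain ⟨thp, e_thp⟩ : ∃ zz : ℝ, zz = qp * (r * lv.erp) := ⟨_, rfl⟩
  obtain ⟨wv, e_w⟩ : ∃ zz : ℝ, zz = al * ((1 : ℝ) * (v.c0 + v.R))⁻¹ := ⟨_, rfl⟩
  obtain ⟨xv, e_x⟩ : ∃ zz : ℝ, zz = wv * wv * v5.sn := ⟨_, rfl⟩
  obtain ⟨cc, e_cc⟩ : ∃ zz : ℝ, zz = (1 : ℝ) - xv * ((1 / 2 : ℝ) - xv * ((21845 / 524288 : ℝ) - (11651 / 8388608) * xv)) := ⟨_, rfl⟩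
  obtain ⟨b⟩ := exGE q th cc v.h1
  obtain ⟨x2, e_x2⟩ : ∃ zz : ℝ, zz = 2 * (r * lv.rhi) := ⟨_, rfl⟩
  obtain ⟨Gv, e_G⟩ : ∃ zz : ℝ, zz = lv.rhi * ((1 : ℝ) - x2 * ((1 / 2 : ℝ) - (2731 / 16384) * x2)) * b.W⁻¹ := ⟨_, rfl⟩
  obtain ⟨gv, e_g⟩ : ∃ zz : ℝ, zz = r * Gv := ⟨_, rfl⟩
  obtain ⟨gar, e_gar⟩ : ∃ zz : ℝ, zz = Gv * (gv + (1 / 2 : ℝ))⁻¹ := ⟨_, rfl⟩
  obtain ⟨ga, e_ga⟩ : ∃ zz : ℝ, zz = r * gar := ⟨_, rfl⟩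
  obtain ⟨hg, e_hg⟩ : ∃ zz : ℝ, zz = v.h1 * ga := ⟨_, rfl⟩
  obtain ⟨lsf, e_lsf⟩ : ∃ zz : ℝ, zz = ((1 : ℝ) - (1 / 2) * hg) * ((1 : ℝ) - hg)⁻¹ := ⟨_, rfl⟩
  obtain ⟨Qb, e_Qb⟩ : ∃ zz : ℝ, zz = q * (hg + (1 : ℝ)) := ⟨_, rfl⟩
  obtain ⟨lsx, e_lsx⟩ : ∃ zz : ℝ, zz = v.h1t * lsf * (v.u * gar) := ⟨_, rfl⟩
  obtain ⟨ls, e_ls⟩ : ∃ zz : ℝ, zz = hg * lsf := ⟨_, rfl⟩
  obtain ⟨xpv, e_xp⟩ : ∃ zz : ℝ, zz = xv * v.SQ⁻¹ := ⟨_, rfl⟩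
  obtain ⟨ccp, e_ccp⟩ : ∃ zz : ℝ, zz = (1 : ℝ) - xpv * ((1 / 2 : ℝ) - xpv * ((21845 / 524288 : ℝ) - (11651 / 8388608) * xpv)) := ⟨_, rfl⟩
  obtain ⟨b'⟩ := exGE qp thp ccp v3.hp
  obtain ⟨x2p, e_x2p⟩ : ∃ zz : ℝ, zz = 2 * (r * lv.rphi) := ⟨_, rfl⟩
  obtain ⟨Gpv, e_Gp⟩ : ∃ zz : ℝ, zz = lv.rphi * ((1 : ℝ) - x2p * ((1 / 2 : ℝ) - (2731 / 16384) * x2p)) * b'.W⁻¹ := ⟨_, rfl⟩
  obtain ⟨gpv, e_gp⟩ : ∃ zz : ℝ, zz = r * Gpv := ⟨_, rfl⟩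
  obtain ⟨gapr, e_gapr⟩ : ∃ zz : ℝ, zz = Gpv * (gpv + (1 / 2 : ℝ))⁻¹ := ⟨_, rfl⟩
  obtain ⟨gap, e_gap⟩ : ∃ zz : ℝ, zz = r * gapr := ⟨_, rfl⟩
  obtain ⟨hgp, e_hgp⟩ : ∃ zz : ℝ, zz = v3.hp * gap := ⟨_, rfl⟩
  obtain ⟨gu, e_gu⟩ : ∃ zz : ℝ, zz = v.u * gapr := ⟨_, rfl⟩
  obtain ⟨G4, e_G4⟩ : ∃ zz : ℝ, zz = (1 / 2) * (4 * (1 : ℝ) + al * v.nj) := ⟨_, rfl⟩
  obtain ⟨zph, e_zph⟩ : ∃ zz : ℝ, zz = v.om1 * al * gar * v.nj⁻¹ := ⟨_, rfl⟩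
  obtain ⟨kz, e_kz⟩ : ∃ zz : ℝ, zz = ((1 : ℝ) - (1 / 2) * zph) * ((1 : ℝ) - zph)⁻¹ := ⟨_, rfl⟩
  obtain ⟨phux, e_phux⟩ : ∃ zz : ℝ, zz = v.u * gar * kz := ⟨_, rfl⟩
  obtain ⟨lf, e_lf⟩ : ∃ zz : ℝ, zz = zph * kz := ⟨_, rfl⟩
  obtain ⟨Lf, e_L⟩ : ∃ zz : ℝ, zz = lf * eps := ⟨_, rfl⟩
  obtain ⟨Ei, e_Ei⟩ : ∃ zz : ℝ, zz = (1 : ℝ) + Lf * ((45 / 16) * Lf + (2 : ℝ)) := ⟨_, rfl⟩
  obtain ⟨Eh, e_Eh⟩ : ∃ zz : ℝ, zz = (1 : ℝ) + Lf * ((45 / 32) * Lf + (1 : ℝ)) := ⟨_, rfl⟩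
  obtain ⟨Q1, e_Q1⟩ : ∃ zz : ℝ, zz = Qb + (1 : ℝ) := ⟨_, rfl⟩
  obtain ⟨xa⟩ := exKa v2 eps al 1 G4 Qb Q1 ls lsx phux Ei Eh
  obtain ⟨srcs, e_srcs⟩ : ∃ zz : ℝ, zz = v.om1 * ((1 / 2) * (v.tu * v2.bsum * v.aQ⁻¹)) + v.t * xa.kl := ⟨_, rfl⟩
  obtain ⟨yb⟩ := exKb (3 * 5⁻¹) xa tr gap gu srcs
  obtain ⟨pk⟩ := exPk v5 lv.rplo v3.hp hgp gu yb.yy
  obtain ⟨Ee, e_Ee⟩ : ∃ zz : ℝ, zz = Real.exp (-(r * pk.ye)) := ⟨_, rfl⟩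
  obtain ⟨cd⟩ := exCd yb Ee
  have hsc := sc_HIII hde ht' e_mu hee e_r e_tr e_eps
  obtain ⟨hA0, hA⟩ := hA_L G hsc e_G4
  have f := lv.f G hsc.hr
  obtain ⟨p_o2, s0⟩ := ((((((((((h
    (1 : ℝ) zLHIII_1099511627776_0
    de hde
    mu e_mu
    r e_r
    v.t ht'
    eps e_eps
    tr e_tr
    (1 / 2 : ℝ) zLHIII_549755813888_0
    v.tu v.e_tu
    (v.tu * v.n) rfl
    v.h (v.e_h.trans (congrArg (fun y : ℝ => y * (v.tu * v.n)) zLHIII_549755813888_0))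
    v.u2 v.e_u2
    (v.h * v.h) rfl
    v.jm v.e_jm).2
    v.j v.e_j
    (v.h * v.j) rfl
    v.K (v.e_K.trans (congrArg (fun y : ℝ => y * (v.h * v.j)) zLHIII_2199023255552_0))
    (2 * v.j) (congrArg (fun y : ℝ => y * v.j) zLHIII_2199023255552_0)
    v.c0 v.e_c0
    v.m v.e_m
    v.nj v.e_nj
    v.om v.e_om
    v.om1 v.e_om1
    v.op1 v.e_op1
    v.R v.e_R
    v.nj2 v.e_nj2
    v2.Y (v2.e_Y.trans (congrArg (fun y : ℝ => y * v.h) zLHIII_10774999203840_0))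
    ((341 / 8192) * v2.Y) (congrArg (fun y : ℝ => y * v2.Y) zLHIII_45768245248_0)
    (1365 / 8192 : ℝ) zLHIII_183207198720_0
    ((341 / 8192) * v2.Y + (1365 / 8192 : ℝ)) rfl
    (v2.Y * ((341 / 8192) * v2.Y + (1365 / 8192 : ℝ))) rfl
    ((1 / 2 : ℝ) + v2.Y * ((341 / 8192) * v2.Y + (1365 / 8192 : ℝ))) rfl
    (v2.Y * ((1 / 2 : ℝ) + v2.Y * ((341 / 8192) * v2.Y + (1365 / 8192 : ℝ)))) rfl
    v2.pY v2.e_pY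
    (v2.Y * v2.pY) rfl
    ((1 / 2) * (v2.Y * v2.pY)) (congrArg (fun y : ℝ => y * (v2.Y * v2.pY)) zLHIII_549755813888_0)
    ((1 : ℝ) + (1 / 2) * (v2.Y * v2.pY)) rfl
    v2.Yp v2.e_Yp
    (v.K * v.om) rfl
    (2 * v.c0) (congrArg (fun y : ℝ => y * v.c0) zLHIII_2199023255552_0)
    (v.K * v.om + 2 * v.c0) rfl
    v.Dt v.e_Dt
    v.D v.e_D
    v.SQ v.e_SQ
    (v.K * v.K) rfl
    (2 * (v.K * v.K)) (congrArg (fun y : ℝ => y * (v.K * v.K)) zLHIII_2199023255552_0)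
    v.c2 v.e_c2
    (v.c0 * v.Dt) rfl
    v.rhat v.e_rhat).2
    v.LQ v.e_LQ
    ((1 / 2) * v.LQ) (congrArg (fun y : ℝ => y * v.LQ) zLHIII_549755813888_0)
    v.aQ v.e_aQ
    (3 : ℝ) zLHIII_3298534883328_0).2
    ((3 : ℝ)⁻¹) rfl
    ((1 : ℝ) * (3 : ℝ)⁻¹) rfl
    (2 : ℝ) zLHIII_2199023255552_0
    (v.D + (2 : ℝ)) rfl).2
    ((v.D + (2 : ℝ))⁻¹) rfl
    l1.zL l1.e_zL
    l1.zz l1.e_zz
    ((1 : ℝ) - l1.zL) rfl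
    (l1.zz * ((1 : ℝ) * (3 : ℝ)⁻¹)) rfl
    ((1 : ℝ) + l1.zz * ((1 : ℝ) * (3 : ℝ)⁻¹)) rfl
    l1.Lv l1.e_Lv
    (l1.zz * l1.zz) rfl
    l1.eL (l1.e_eL.trans (congrArg (fun y : ℝ => y * (l1.zz * l1.zz)) zLHIII_219915747328_0))
    (v.Dt * l1.Lv) rfl
    lv.rlo (lv.e_rlo.trans (congrArg (fun y : ℝ => y * (v.Dt * l1.Lv)) zLHIII_549755813888_0))
    (v.Dt * l1.eL) rfl
    lv.er (lv.e_er.trans (congrArg (fun y : ℝ => y * (v.Dt * l1.eL)) zLHIII_549755813888_0))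
    lv.rhi lv.e_rhi
    (v.c0 * v.rhat) rfl
    lv.D2R (lv.e_D2R.trans (congrArg (fun y : ℝ => y * (v.c0 * v.rhat)) zLHIII_4398046511104_0))
    (v.c0 * v.R) rfl
    (v.c0 * v.R * v.rhat) rfl
    v.D2 (v.e_D2.trans (congrArg (fun y : ℝ => y * (v.c0 * v.R * v.rhat)) zLHIII_4398046511104_0))
    (v.D2 + (2 : ℝ)) rfl).2
    ((v.D2 + (2 : ℝ))⁻¹) rfl
    l2.zL l2.e_zL
    l2.zz l2.e_zz
    ((1 : ℝ) - l2.zL) rfl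
    (l2.zz * ((1 : ℝ) * (3 : ℝ)⁻¹)) rfl
    ((1 : ℝ) + l2.zz * ((1 : ℝ) * (3 : ℝ)⁻¹)) rfl
    l2.Lv l2.e_Lv
    (l2.zz * l2.zz) rfl
    l2.eL (l2.e_eL.trans (congrArg (fun y : ℝ => y * (l2.zz * l2.zz)) zLHIII_219915747328_0))
    (lv.D2R * l2.Lv) rfl
    ((1 / 2) * (lv.D2R * l2.Lv)) (congrArg (fun y : ℝ => y * (lv.D2R * l2.Lv)) zLHIII_549755813888_0)
    lv.rplo lv.e_rplo
    (lv.D2R * l2.eL) rfl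
    ((1 / 2) * (lv.D2R * l2.eL)) (congrArg (fun y : ℝ => y * (lv.D2R * l2.eL)) zLHIII_549755813888_0)
    lv.erp lv.e_erp
    lv.rphi lv.e_rphi
    (r * lv.rlo) rfl
    (-(r * lv.rlo)) rfl
    q e_q
    (r * lv.er) rfl
    th e_th
    (r * lv.rplo) rfl
    (-(r * lv.rplo)) rfl
    qp e_qp
    (r * lv.erp) rfl
    thp e_thp
    (v.om * v.K) rfl
    (v.c0 + v.om * v.K) rfl).2
    v.ioK v.e_ioK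
    v.h1t v.e_h1t
    (v.om1 * v.t) rfl
    v.h1 v.e_h1
    ((1 : ℝ) - v.u2) rfl
    v.f2 v.e_f2
    v.tu2 v.e_tu2
    ((1 : ℝ) - v.nj2) rfl
    v5.sn v5.e_sn
    (v.R * v.rhat) rfl).2
    (v.SQ⁻¹) rfl
    v5.R1 v5.e_R1
    (v.c0 + v5.R1) rfl
    v5.Qr v5.e_Qr
    (v5.Qr * v5.Qr) rfl).2
    ((v5.Qr * v5.Qr)⁻¹) rfl
    v5.Th v5.e_Th
    (v.c0 + v.R) rfl
    ((1 : ℝ) * (v.c0 + v.R)) rfl).2
    (((1 : ℝ) * (v.c0 + v.R))⁻¹) rfl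
    wv e_w
    (wv * wv) rfl
    xv e_x
    (21845 / 524288 : ℝ) zLHIII_45812285440_0
    ((11651 / 8388608) * xv) (congrArg (fun y : ℝ => y * xv) zLHIII_1527119872_0)
    ((21845 / 524288 : ℝ) - (11651 / 8388608) * xv) rfl
    (xv * ((21845 / 524288 : ℝ) - (11651 / 8388608) * xv)) rfl
    ((1 / 2 : ℝ) - xv * ((21845 / 524288 : ℝ) - (11651 / 8388608) * xv)) rfl
    (xv * ((1 / 2 : ℝ) - xv * ((21845 / 524288 : ℝ) - (11651 / 8388608) * xv))) rfl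
    cc e_cc
    b.q1 b.e_q1
    (q * q) rfl
    (q * q + (1 : ℝ)) rfl
    (q * cc) rfl
    (2 * (q * cc)) (congrArg (fun y : ℝ => y * (q * cc)) zLHIII_2199023255552_0)
    (q * q + (1 : ℝ) + 2 * (q * cc)) rfl
    (4 * th) (congrArg (fun y : ℝ => y * th) zLHIII_4398046511104_0)
    b.o2 b.e_o2).2
    (b.q1⁻¹) rfl
    (b.o2 * b.q1⁻¹) rfl
    b.P1 b.e_P1
    (q * v.h1) rfl
    b.qh (b.e_qh.trans (congrArg (fun y : ℝ => y * (q * v.h1)) zLHIII_549755813888_0))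
    (b.qh * b.P1) rfl
    b.W b.e_W
  change 0 < b.o2 at p_o2
  obtain ⟨p_W, s1⟩ := s0
  change 0 < b.W at p_W
  obtain ⟨p_hg, s2⟩ := (((s1
    (r * lv.rhi) rfl
    x2 (e_x2.trans (congrArg (fun y : ℝ => y * (r * lv.rhi)) zLHIII_2199023255552_0))
    ((2731 / 16384) * x2) (congrArg (fun y : ℝ => y * x2) zLHIII_183274307584_0)
    ((1 / 2 : ℝ) - (2731 / 16384) * x2) rfl
    (x2 * ((1 / 2 : ℝ) - (2731 / 16384) * x2)) rfl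
    ((1 : ℝ) - x2 * ((1 / 2 : ℝ) - (2731 / 16384) * x2)) rfl
    (lv.rhi * ((1 : ℝ) - x2 * ((1 / 2 : ℝ) - (2731 / 16384) * x2))) rfl).2
    (b.W⁻¹) rfl
    Gv e_G
    gv e_g
    (gv + (1 / 2 : ℝ)) rfl).2
    ((gv + (1 / 2 : ℝ))⁻¹) rfl
    gar e_gar
    ga e_ga
    hg e_hg
    ((1 / 2) * hg) (congrArg (fun y : ℝ => y * hg) zLHIII_549755813888_0)
    ((1 : ℝ) - (1 / 2) * hg) rfl
    ((1 : ℝ) - hg) rfl).2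
    (((1 : ℝ) - hg)⁻¹) rfl
    lsf e_lsf
    (hg + (1 : ℝ)) rfl
    Qb e_Qb
    (v.h1t * lsf) rfl
    (v.u * gar) rfl
    lsx e_lsx
    ls e_ls
  change 0 < (1 : ℝ) - hg at p_hg
  obtain ⟨p_rplo, s3⟩ := (s2
    (v.om1 * v.op1) rfl
    (v.c0 + v.t) rfl
    (v.om * v.c0) rfl
    (v.om * v.c0 * v.K) rfl
    (2 * (v.om * v.c0 * v.K)) (congrArg (fun y : ℝ => y * (v.om * v.c0 * v.K)) zLHIII_2199023255552_0)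
    (v.c2 + 2 * (v.om * v.c0 * v.K)) rfl
    ((v.c0 + v.t) * (v.c2 + 2 * (v.om * v.c0 * v.K))) rfl).2
    (((v.c0 + v.t) * (v.c2 + 2 * (v.om * v.c0 * v.K)))⁻¹) rfl
    v3.hpt v3.e_hpt
    v3.hp v3.e_hp
  change 0 < lv.rplo at p_rplo
  obtain ⟨p_o2p, s4⟩ := (s3
    xpv e_xp
    ((11651 / 8388608) * xpv) (congrArg (fun y : ℝ => y * xpv) zLHIII_1527119872_0)
    ((21845 / 524288 : ℝ) - (11651 / 8388608) * xpv) rfl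
    (xpv * ((21845 / 524288 : ℝ) - (11651 / 8388608) * xpv)) rfl
    ((1 / 2 : ℝ) - xpv * ((21845 / 524288 : ℝ) - (11651 / 8388608) * xpv)) rfl
    (xpv * ((1 / 2 : ℝ) - xpv * ((21845 / 524288 : ℝ) - (11651 / 8388608) * xpv))) rfl
    ccp e_ccp
    b'.q1 b'.e_q1
    (qp * qp) rfl
    (qp * qp + (1 : ℝ)) rfl
    (qp * ccp) rfl
    (2 * (qp * ccp)) (congrArg (fun y : ℝ => y * (qp * ccp)) zLHIII_2199023255552_0)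
    (qp * qp + (1 : ℝ) + 2 * (qp * ccp)) rfl
    (4 * thp) (congrArg (fun y : ℝ => y * thp) zLHIII_4398046511104_0)
    b'.o2 b'.e_o2).2
    (b'.q1⁻¹) rfl
    (b'.o2 * b'.q1⁻¹) rfl
    b'.P1 b'.e_P1
    (qp * v3.hp) rfl
    b'.qh (b'.e_qh.trans (congrArg (fun y : ℝ => y * (qp * v3.hp)) zLHIII_549755813888_0))
    (b'.qh * b'.P1) rfl
    b'.W b'.e_W
  change 0 < b'.o2 at p_o2p
  obtain ⟨p_Wp, s5⟩ := s4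
  change 0 < b'.W at p_Wp
  obtain ⟨p_z1, s6⟩ := (((((((((s5
    (r * lv.rphi) rfl
    x2p (e_x2p.trans (congrArg (fun y : ℝ => y * (r * lv.rphi)) zLHIII_2199023255552_0))
    ((2731 / 16384) * x2p) (congrArg (fun y : ℝ => y * x2p) zLHIII_183274307584_0)
    ((1 / 2 : ℝ) - (2731 / 16384) * x2p) rfl
    (x2p * ((1 / 2 : ℝ) - (2731 / 16384) * x2p)) rfl
    ((1 : ℝ) - x2p * ((1 / 2 : ℝ) - (2731 / 16384) * x2p)) rfl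
    (lv.rphi * ((1 : ℝ) - x2p * ((1 / 2 : ℝ) - (2731 / 16384) * x2p))) rfl).2
    (b'.W⁻¹) rfl
    Gpv e_Gp
    gpv e_gp
    (gpv + (1 / 2 : ℝ)) rfl).2
    ((gpv + (1 / 2 : ℝ))⁻¹) rfl
    gapr e_gapr
    gap e_gap
    hgp e_hgp
    gu e_gu
    (v.h + (1 : ℝ)) rfl).2
    v2.ih v2.e_ih
    (v.h * v2.ih) rfl
    v2.rh (v2.e_rh.trans (congrArg (fun y : ℝ => y * (v.h * v2.ih)) zLHIII_2199023255552_0))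
    v2.mi v2.e_mi
    v2.hm v2.e_hm
    v2.nih v2.e_nih
    (v2.nih * v2.mi) rfl
    v2.bsum v2.e_bsum
    ((209 / 1024) * v.j) (congrArg (fun y : ℝ => y * v.j) zLHIII_224412041216_0)).2
    (v2.Yp⁻¹) rfl
    v2.lm v2.e_lm
    (4 * (1 : ℝ)) (congrArg (fun y : ℝ => y * (1 : ℝ)) zLHIII_4398046511104_0)
    (al * v.nj) rfl
    (4 * (1 : ℝ) + al * v.nj) rfl
    G4 (e_G4.trans (congrArg (fun y : ℝ => y * (4 * (1 : ℝ) + al * v.nj)) zLHIII_549755813888_0))).2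
    xa.iG4 xa.e_iG4
    xa.alG xa.e_alG
    xa.AE xa.e_AE
    (xa.AE * v.op1) rfl
    xa.XeE xa.e_XeE
    (xa.alG * v.op1) rfl
    xa.XM xa.e_XM
    ((1 : ℝ) - xa.XM) rfl).2
    xa.iX xa.e_iX
    xa.QX xa.e_QX
    ((1 : ℝ) - xa.QX) rfl).2
    xa.iQX xa.e_iQX
    (v.om1 * al) rfl
    (v.om1 * al * gar) rfl).2
    (v.nj⁻¹) rfl
    zph e_zph
    ((1 / 2) * zph) (congrArg (fun y : ℝ => y * zph) zLHIII_549755813888_0)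
    ((1 : ℝ) - (1 / 2) * zph) rfl
    ((1 : ℝ) - zph) rfl).2
    (((1 : ℝ) - zph)⁻¹) rfl
    kz e_kz
    phux e_phux
    lf e_lf
    Lf e_L
  change 0 < (1 : ℝ) - zph at p_z1
  obtain ⟨p_L, s7⟩ := s6
    ((5 / 4) * Lf) (congrArg (fun y : ℝ => y * Lf) zLHIII_1374389534720_0)
    ((1 / 2 : ℝ) - (5 / 4) * Lf) rfl
  change 0 < (1 / 2 : ℝ) - (5 / 4) * Lf at p_L
  obtain ⟨p_lspa, s8⟩ := ((((((((s7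
    ((45 / 16) * Lf) (congrArg (fun y : ℝ => y * Lf) zLHIII_3092376453120_0)
    ((45 / 16) * Lf + (2 : ℝ)) rfl
    (Lf * ((45 / 16) * Lf + (2 : ℝ))) rfl
    Ei e_Ei
    ((45 / 32) * Lf) (congrArg (fun y : ℝ => y * Lf) zLHIII_1546188226560_0)
    ((45 / 32) * Lf + (1 : ℝ)) rfl
    (Lf * ((45 / 32) * Lf + (1 : ℝ))) rfl
    Eh e_Eh
    (v.h * v.nj) rfl
    ((1 : ℝ) - v.f2) rfl
    (v.h * v.om) rfl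
    (2 * (v.h * v.om)) (congrArg (fun y : ℝ => y * (v.h * v.om)) zLHIII_2199023255552_0)
    ((1 : ℝ) - v.f2 - 2 * (v.h * v.om)) rfl
    (v.h * v.nj * (v.h * v.nj)) rfl
    xa.N1 xa.e_N1
    (xa.N1 + (1 : ℝ)) rfl
    xa.s (xa.e_s.trans (congrArg (fun y : ℝ => y * (xa.N1 + (1 : ℝ))) zLHIII_549755813888_0))
    ((1 / 2) * v.R) (congrArg (fun y : ℝ => y * v.R) zLHIII_549755813888_0)
    (v.j - (1 / 2) * v.R) rfl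
    (v.tu2 * ((1 : ℝ) - v.f2)) rfl
    (v.tu2 * ((1 : ℝ) - v.f2) * v.jm) rfl
    ((1 / 8) * (v.tu2 * ((1 : ℝ) - v.f2) * v.jm)) (congrArg (fun y : ℝ => y * (v.tu2 * ((1 : ℝ) - v.f2) * v.jm)) zLHIII_137438953472_0)
    (v.j - (1 / 2) * v.R + (1 / 8) * (v.tu2 * ((1 : ℝ) - v.f2) * v.jm)) rfl
    xa.k0 xa.e_k0
    Q1 e_Q1
    (Q1 * xa.iX) rfl
    (Qb * xa.iQX) rfl
    (Q1 * xa.iX + Qb * xa.iQX) rfl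
    (xa.XM * (Q1 * xa.iX + Qb * xa.iQX)) rfl
    (ls + xa.XM * (Q1 * xa.iX + Qb * xa.iQX)) rfl
    xa.a0 xa.e_a0
    (Q1 * xa.XM) rfl
    (Q1 * xa.XM * xa.iX) rfl
    (ls + Q1 * xa.XM * xa.iX) rfl
    xa.l1 xa.e_l1
    ((13 / 64) * xa.l1) (congrArg (fun y : ℝ => y * xa.l1) zLHIII_223338299392_0)
    ((1 / 2 : ℝ) + (13 / 64) * xa.l1) rfl
    (xa.l1 * ((1 / 2 : ℝ) + (13 / 64) * xa.l1)) rfl
    xa.Na xa.e_Na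
    ((13 / 16) * xa.a0) (congrArg (fun y : ℝ => y * xa.a0) zLHIII_893353197568_0)
    ((1 : ℝ) + (13 / 16) * xa.a0) rfl
    (xa.a0 * ((1 : ℝ) + (13 / 16) * xa.a0)) rfl
    xa.Nb xa.e_Nb
    (v2.rh * v2.nih) rfl
    (v2.rh * v2.nih * Ei) rfl
    xa.rn xa.e_rn
    (xa.k0 * xa.Na) rfl
    (v.aQ + (1 / 2 : ℝ)) rfl
    (xa.rn * (v.aQ + (1 / 2 : ℝ))) rfl
    xa.ka xa.e_ka
    (v.aQ + (1 : ℝ)) rfl
    xa.kb xa.e_kb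
    (Eh * (v.aQ + (1 : ℝ))) rfl
    (Eh * (v.aQ + (1 : ℝ)) * v2.nih) rfl
    xa.lfk xa.e_lfk
    (xa.ka * lsx) rfl
    (xa.lfk * phux) rfl
    xa.kl xa.e_kl
    (v.tu * v2.bsum) rfl).2
    (v.aQ⁻¹) rfl
    (v.tu * v2.bsum * v.aQ⁻¹) rfl
    ((1 / 2) * (v.tu * v2.bsum * v.aQ⁻¹)) (congrArg (fun y : ℝ => y * (v.tu * v2.bsum * v.aQ⁻¹)) zLHIII_549755813888_0)
    (v.om1 * ((1 / 2) * (v.tu * v2.bsum * v.aQ⁻¹))) rfl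
    (v.t * xa.kl) rfl
    srcs e_srcs
    yb.src yb.e_src
    (xa.ka * Q1) rfl
    (xa.ka * Q1 * xa.iX) rfl
    (xa.kb * Qb) rfl
    (xa.kb * Qb * xa.iQX) rfl
    yb.fxe yb.e_fxe
    (v.om1 * yb.src) rfl
    (xa.XeE * yb.fxe) rfl
    yb.epd yb.e_epd
    (v.tu2 * yb.epd) rfl
    (v.tu2 * yb.epd * v.aQ⁻¹) rfl
    ((1 : ℝ) - v.tu2 * yb.epd * v.aQ⁻¹) rfl).2
    yb.NN yb.e_NN
    yb.eN yb.e_eN
    yb.d yb.e_d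
    yb.eta yb.e_eta
    (yb.eta * v.aQ⁻¹) rfl
    ((1 : ℝ) - yb.eta * v.aQ⁻¹) rfl
    (v.rhat * ((1 : ℝ) - yb.eta * v.aQ⁻¹)) rfl
    yb.rl yb.e_rl).2
    yb.irl yb.e_irl
    yb.yy yb.e_yy
    (v.aQ - yb.eta) rfl).2
    yb.q0 yb.e_q0
    yb.zp yb.e_zp
    ((1 / 2) * yb.zp) (congrArg (fun y : ℝ => y * yb.zp) zLHIII_549755813888_0)
    ((1 : ℝ) - (1 / 2) * yb.zp) rfl
    ((1 : ℝ) - yb.zp) rfl).2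
    (((1 : ℝ) - yb.zp)⁻¹) rfl
    yb.kzp yb.e_kzp
    (v.u * yb.q0) rfl
    (gu * yb.irl) rfl
    (gu * yb.irl * yb.kzp) rfl
    yb.Cu yb.e_Cu
    (tr * yb.eN) rfl
    (yb.q0 * (tr * yb.eN)) rfl
    (gap * yb.irl) rfl
    (gap * yb.irl * yb.kzp) rfl
    (gap * yb.irl * yb.kzp * yb.d) rfl
    yb.rr yb.e_rr
    ((13 / 64) * yb.rr) (congrArg (fun y : ℝ => y * yb.rr) zLHIII_223338299392_0)
    ((1 / 2 : ℝ) + (13 / 64) * yb.rr) rfl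
    (yb.rr * ((1 / 2 : ℝ) + (13 / 64) * yb.rr)) rfl
    ((1 : ℝ) + yb.rr * ((1 / 2 : ℝ) + (13 / 64) * yb.rr)) rfl
    (yb.Cu * ((1 : ℝ) + yb.rr * ((1 / 2 : ℝ) + (13 / 64) * yb.rr))) rfl
    yb.CuN yb.e_CuN
    yb.fbt yb.e_fbt
    yb.XLt yb.e_XLt
    (5 : ℝ) zLHIII_5497558138880_0).2
    ((5 : ℝ)⁻¹) rfl
    yb.beta yb.e_beta
    ((v.h + (1 : ℝ)) * v.op1) rfl
    yb.b1 yb.e_b1
    pk.omr pk.e_omr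
    pk.omp pk.e_omp
    ((1 / 2) * hgp) (congrArg (fun y : ℝ => y * hgp) zLHIII_549755813888_0)
    ((1 : ℝ) - (1 / 2) * hgp) rfl
    ((1 : ℝ) - hgp) rfl).2
    (((1 : ℝ) - hgp)⁻¹) rfl
    (((1 : ℝ) - (1 / 2) * hgp) * ((1 : ℝ) - hgp)⁻¹) rfl
    pk.lspf pk.e_lspf
    (v.tu2 * v5.Th) rfl
    ((2731 / 4096) * (v.tu2 * v5.Th)) (congrArg (fun y : ℝ => y * (v.tu2 * v5.Th)) zLHIII_733097230336_0)
    ((1 : ℝ) - (2731 / 4096) * (v.tu2 * v5.Th)) rfl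
    (v5.Th * ((1 : ℝ) - (2731 / 4096) * (v.tu2 * v5.Th))) rfl
    (lv.rplo * lv.rplo) rfl
    (v.u2 * (lv.rplo * lv.rplo)) rfl
    pk.E0 pk.e_E0
    pk.lspa pk.e_lspa
    (pk.E0 + (1 : ℝ)) rfl
    (pk.lspa * (pk.E0 + (1 : ℝ))) rfl
    (pk.E0 - pk.lspa * (pk.E0 + (1 : ℝ))) rfl
    ((2731 / 8192) * (v.K * v.K)) (congrArg (fun y : ℝ => y * (v.K * v.K)) zLHIII_366548615168_0)
    ((1 : ℝ) - (2731 / 8192) * (v.K * v.K)) rfl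
    (v.nj2 * ((1 : ℝ) - (2731 / 8192) * (v.K * v.K))) rfl
    (pk.E0 - pk.lspa * (pk.E0 + (1 : ℝ)) + v.nj2 * ((1 : ℝ) - (2731 / 8192) * (v.K * v.K))) rfl
    (pk.omr * (pk.E0 - pk.lspa * (pk.E0 + (1 : ℝ)) + v.nj2 * ((1 : ℝ) - (2731 / 8192) * (v.K * v.K)))) rfl
    (pk.omp * pk.omp) rfl
    ((1 : ℝ) + pk.omp * pk.omp) rfl).2
    (((1 : ℝ) + pk.omp * pk.omp)⁻¹) rfl
    pk.pe pk.e_pe
    ((1 : ℝ) - yb.yy) rfl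
    pk.ye pk.e_ye
    ((1 : ℝ) - pk.lspa) rfl
  change 0 < (1 : ℝ) - pk.lspa at p_lspa
  obtain ⟨p_pe, s9⟩ := s8
  change 0 < pk.pe at p_pe
  obtain ⟨p_yy, s10⟩ := s9
  change 0 < (1 : ℝ) - yb.yy at p_yy
  obtain ⟨p_XM, s11⟩ := ((((((s10
    (yb.CuN * G4) rfl
    (yb.CuN * G4 * srcs) rfl).2
    (v.op1⁻¹) rfl
    cd.FX cd.e_FX
    (r * pk.ye) rfl
    (-(r * pk.ye)) rfl
    Ee e_Ee
    (v.t * yb.b1) rfl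
    ((1 : ℝ) + v.t * yb.b1) rfl).2
    cd.Lam cd.e_Lam
    (Ee * cd.Lam) rfl
    (Ee * cd.Lam * v.m) rfl
    (v.tu * yb.eN) rfl
    (v.tu * yb.eN * v.op1⁻¹) rfl
    ((1 : ℝ) + v.tu * yb.eN * v.op1⁻¹) rfl
    (Ee * cd.Lam * v.m * ((1 : ℝ) + v.tu * yb.eN * v.op1⁻¹)) rfl
    cd.c1 cd.e_c1
    cd.fb cd.e_fb
    (cd.fb * xa.XM) rfl
    (v.t * yb.XLt) rfl
    (cd.FX * (v.t * yb.XLt)) rfl
    cd.r2 cd.e_r2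
    (cd.fb + cd.FX) rfl
    ((1 : ℝ) + cd.r2) rfl
    (cd.c1 * ((1 : ℝ) + cd.r2)) rfl
    (cd.fb + cd.FX + cd.c1 * ((1 : ℝ) + cd.r2)) rfl
    cd.Bm cd.e_Bm
    ((1 / 1024) * v.t) (congrArg (fun y : ℝ => y * v.t) zLHIII_1073741824_0)
    (cd.Bm - (1 / 1024) * v.t) rfl
    yb.m1 yb.e_m1
    (yb.m1 + (2 : ℝ)) rfl
    (2 * yb.beta) (congrArg (fun y : ℝ => y * yb.beta) zLHIII_2199023255552_0)
    (yb.m1 + (2 : ℝ) - 2 * yb.beta) rfl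
    ((v.h + (1 : ℝ)) * (yb.m1 + (2 : ℝ) - 2 * yb.beta)) rfl
    (yb.m1 * (2 * yb.beta)) rfl
    (yb.m1 * (2 * yb.beta) + (1 : ℝ)) rfl).2
    ((yb.m1 * (2 * yb.beta) + (1 : ℝ))⁻¹) rfl
    ((v.h + (1 : ℝ)) * (yb.m1 + (2 : ℝ) - 2 * yb.beta) * (yb.m1 * (2 * yb.beta) + (1 : ℝ))⁻¹) rfl
    (xa.AE * yb.fxe) rfl
    ((1 / 2) * v2.lm) (congrArg (fun y : ℝ => y * v2.lm) zLHIII_549755813888_0)
    (v.K + (1 / 2) * v2.lm) rfl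
    (xa.AE * yb.fxe * (v.K + (1 / 2) * v2.lm)) rfl
    (2 * (xa.AE * yb.fxe * (v.K + (1 / 2) * v2.lm))) (congrArg (fun y : ℝ => y * (xa.AE * yb.fxe * (v.K + (1 / 2) * v2.lm))) zLHIII_2199023255552_0)
    (yb.src + 2 * (xa.AE * yb.fxe * (v.K + (1 / 2) * v2.lm))) rfl
    (2 * (yb.src + 2 * (xa.AE * yb.fxe * (v.K + (1 / 2) * v2.lm)))) (congrArg (fun y : ℝ => y * (yb.src + 2 * (xa.AE * yb.fxe * (v.K + (1 / 2) * v2.lm)))) zLHIII_2199023255552_0)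
    (2 * (yb.src + 2 * (xa.AE * yb.fxe * (v.K + (1 / 2) * v2.lm))) * yb.NN) rfl
    (v.op1 - v.tu * yb.eN) rfl).2
    ((v.op1 - v.tu * yb.eN)⁻¹) rfl
    (2 * (yb.src + 2 * (xa.AE * yb.fxe * (v.K + (1 / 2) * v2.lm))) * yb.NN * (v.op1 - v.tu * yb.eN)⁻¹) rfl
    yb.V yb.e_V
    (al * v.nj * (al * v.nj)) rfl
    (13 : ℝ) zLHIII_14293651161088_0
    (10 : ℝ) zLHIII_10995116277760_0).2
    ((10 : ℝ)⁻¹) rfl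
    ((13 : ℝ) * (10 : ℝ)⁻¹) rfl
    (al * v.nj * (al * v.nj) * ((13 : ℝ) * (10 : ℝ)⁻¹)) rfl
    ((1 : ℝ) * (1 : ℝ)) rfl
    (25 * ((1 : ℝ) * (1 : ℝ))) (congrArg (fun y : ℝ => y * ((1 : ℝ) * (1 : ℝ))) zLHIII_27487790694400_0)
    yb.C2 yb.e_C2
    yb.gr (yb.e_gr.trans (congrArg (fun y : ℝ => yb.b1 * y) cd.e_Lam.symm))
    (2 * v.c0 - v.t) rfl
    yb.Gt yb.e_Gt
    yb.au (yb.e_au.trans (congrArg (fun y : ℝ => y * 1) e_r.symm))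
    (v.op1 * yb.fxe) rfl
    (v.op1 * yb.fxe * xa.iG4) rfl
    yb.inner yb.e_inner
    (v.tu * yb.eN + (2 : ℝ)) rfl
    yb.ezs yb.e_ezs
    (yb.C2 * yb.gr) rfl
    (yb.NN * yb.ezs) rfl
    (yb.au * yb.inner) rfl
    (yb.NN * yb.ezs * (yb.au * yb.inner)) rfl
    yb.Rg0 yb.e_Rg0
    ((1 / 2) * (v.tu * yb.eN)) (congrArg (fun y : ℝ => y * (v.tu * yb.eN)) zLHIII_549755813888_0)
    ((1 : ℝ) + (1 / 2) * (v.tu * yb.eN)) rfl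
    (yb.NN * ((1 : ℝ) + (1 / 2) * (v.tu * yb.eN))) rfl
    (v.t * v.om1) rfl
    (v.t * v.om1 * v2.bsum) rfl
    (v.op1 * v.aQ) rfl).2
    ((v.op1 * v.aQ)⁻¹) rfl
    (v.t * v.om1 * v2.bsum * (v.op1 * v.aQ)⁻¹) rfl
    (yb.NN * ((1 : ℝ) + (1 / 2) * (v.tu * yb.eN)) * (v.t * v.om1 * v2.bsum * (v.op1 * v.aQ)⁻¹)) rfl
    yb.Rh yb.e_Rh
    (v2.lm * yb.Rg0) rfl
    ((1 : ℝ) - v2.lm) rfl
    (v.u2 * yb.Rh) rfl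
    (((1 : ℝ) - v2.lm) * (v.u2 * yb.Rh)) rfl
    (yb.C2 * (((1 : ℝ) - v2.lm) * (v.u2 * yb.Rh))) rfl
    yb.Rg yb.e_Rg
  change 0 < (1 : ℝ) - xa.XM at p_XM
  obtain ⟨p_QX, s12⟩ := s11
  change 0 < (1 : ℝ) - xa.QX at p_QX
  obtain ⟨p_e2, s13⟩ := s12
    (2 * (v.tu2 * yb.epd)) (congrArg (fun y : ℝ => y * (v.tu2 * yb.epd)) zLHIII_2199023255552_0)
    (v.aQ - 2 * (v.tu2 * yb.epd)) rfl
  change 0 < v.aQ - 2 * (v.tu2 * yb.epd) at p_e2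
  obtain ⟨p_rl, s14⟩ := s13
  change 0 < yb.rl at p_rl
  obtain ⟨p_hgp, s15⟩ := s14
    ((1 / 2 : ℝ) - hgp) rfl
  change 0 < (1 / 2 : ℝ) - hgp at p_hgp
  obtain ⟨p_l1, s16⟩ := s15
    ((5 / 8) * (1 : ℝ)) (congrArg (fun y : ℝ => y * (1 : ℝ)) zLHIII_687194767360_0)
    ((5 / 8) * (1 : ℝ) - xa.l1) rfl
  change 0 < (5 / 8) * (1 : ℝ) - xa.l1 at p_l1
  obtain ⟨p_a0, s17⟩ := s16
    ((11 / 32) * (1 : ℝ)) (congrArg (fun y : ℝ => y * (1 : ℝ)) zLHIII_377957122048_0)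
    ((11 / 32) * (1 : ℝ) - xa.a0) rfl
  change 0 < (11 / 32) * (1 : ℝ) - xa.a0 at p_a0
  obtain ⟨p_S, s18⟩ := s17
  change 0 < v.op1 - v.tu * yb.eN at p_S
  obtain ⟨p_zp, s19⟩ := s18
  change 0 < (1 : ℝ) - yb.zp at p_zp
  obtain ⟨p_rr, s20⟩ := s19
    ((5 / 8) * (1 : ℝ) - yb.rr) rfl
  change 0 < (5 / 8) * (1 : ℝ) - yb.rr at p_rr
  obtain ⟨p_V, s21⟩ := s20
  change 0 < yb.V at p_V
  obtain ⟨p_B, s22⟩ := s21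
  change 0 < cd.Bm - (1 / 1024) * v.t at p_B
  obtain ⟨p_Rg, s23⟩ := s22
  change 0 < yb.Rg at p_Rg
  obtain ⟨p_Rh, s24⟩ := s23
  change 0 < yb.Rh at p_Rh
  have hQ := qb_s G f lv.e_rhi e_q e_th
  have hq := hQ.le
  have hQp := qb_p G f p_rplo.le lv.e_rphi e_qp e_thp
  have hqp := hQp.le
  have hq0 : 0 < q := lt_of_lt_of_le (by rw [G.q_eq]; exact G.q0) hq
  have hcc : cc ≤ Real.cos (v.e * (Qk κ (shf κ τ)).arg) := cc_p (arg_x G v5 hsc e_w e_x) e_cc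
  have hgR := gR_GS G.e0 G.κ0 G.s0 b hQ hcc G.h1_eq p_o2 p_W (qa_rhi G f).1 (qa_rhi G f).2 e_x2 e_G e_g
  have hγ := gam_GS G.e0 G.κ0 G.s0 hgR e_g e_gar e_ga
  have hccp : ccp ≤ Real.cos (v.e * (Qk κ (shf κ (shf κ τ))).arg) := cc_p (arg_xp G v3 v5 hsc e_w e_x e_xp) e_ccp
  have hgRp := gR_GS G.e0 G.κ0 (shf_re' G.κ0 G.s0) b' hQp hccp (G.hp_eq v3) p_o2p p_Wp (qa_rphi G f).1 (qa_rphi G f).2 e_x2p e_Gp e_gp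
  have hγp := gam_GS G.e0 G.κ0 (shf_re' G.κ0 G.s0) hgRp e_gp e_gapr e_gap
  have hn1 := n1_one G hγ hq e_hg e_Qb e_Q1
  have hlx : al * lsx = v.h1t * lsf * ga := by linear_combination al * e_lsx - v.h1t * lsf * e_ga - v.h1t * lsf * gar * hsc.rau
  have fr := fr_g G hγ hq hq0 e_hg e_lsf p_hg e_Qb e_ls (hsc.al0 G) hlx hn1
  have hgu : al * gu = gap * 1 := by linear_combination al * e_gu - e_gap - gapr * hsc.rau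
  obtain ⟨lf0, Ex, hφ⟩ := ph_near G v2 hsc hγ (near_zH G hsc e_ga e_zph) p_z1 e_kz (near_pH hsc e_ga e_phux) e_lf e_L p_L e_Ei e_Eh
  have as8 : As8 xa yb := ⟨p_XM, p_QX, p_e2, p_rl, p_l1, p_a0, p_S, p_zp, p_rr, p_V, p_Rg, p_Rh⟩
  exact far_Cd G D hsc hA0 hA as8 fr hgu hγp hφ pk f p_rplo e_hgp p_hgp p_lspa p_pe p_yy cd e_srcs v.e_tu
    (le_of_eq e_Ee.symm) p_B

theorem far_LHIII4 {κ : ℝ} {τ : ℂ} {R w : ℝ} {v : B1} (D : PtE (3 * 5⁻¹) v.e κ τ R w)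
    (G : Geo κ (shf κ τ) v) (v2 : B2 v) (v3 : B3 v) (v5 : V5 v) {l1 : Lg v.D} {l2 : Lg v.D2}
    (lv : LV v l1 l2) (he2 : 2 ≤ v.e) {al g de : ℝ}
    (hde0 : 0 < de) (hde : de = v.u * g) (ht : v.t = al * v.u * (g * g))
    (hee : v.e * (de * de) = 1)
    (h : RAs Pool.Agent.helper71.FJ.Crt.LHIII.prog4 [al, v.u, g, v.n]) :
    FarPt v.e κ (1 - Real.sinh κ / 1024) w (2 * AL v.e v.K * Real.sinh κ ^ 2) R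
      (RE v.e κ (w * R)) τ := by
  obtain ⟨mu, e_mu⟩ : ∃ zz : ℝ, zz = g * g := ⟨_, rfl⟩
  obtain ⟨r, e_r⟩ : ∃ zz : ℝ, zz = al * v.u := ⟨_, rfl⟩
  have ht' : v.t = r * mu := by rw [e_r, e_mu]; exact ht
  obtain ⟨eps, e_eps⟩ : ∃ zz : ℝ, zz = de * de := ⟨_, rfl⟩
  obtain ⟨tr, e_tr⟩ : ∃ zz : ℝ, zz = v.t * r := ⟨_, rfl⟩
  obtain ⟨q, e_q⟩ : ∃ zz : ℝ, zz = Real.exp (-(r * lv.rlo)) := ⟨_, rfl⟩
  obtain ⟨th, e_th⟩ : ∃ zz : ℝ, zz = q * (r * lv.er) := ⟨_, rfl⟩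
  obtain ⟨qp, e_qp⟩ : ∃ zz : ℝ, zz = Real.exp (-(r * lv.rplo)) := ⟨_, rfl⟩
  obtain ⟨thp, e_thp⟩ : ∃ zz : ℝ, zz = qp * (r * lv.erp) := ⟨_, rfl⟩
  obtain ⟨wv, e_w⟩ : ∃ zz : ℝ, zz = al * ((1 : ℝ) * (v.c0 + v.R))⁻¹ := ⟨_, rfl⟩
  obtain ⟨xv, e_x⟩ : ∃ zz : ℝ, zz = wv * wv * v5.sn := ⟨_, rfl⟩
  obtain ⟨cc, e_cc⟩ : ∃ zz : ℝ, zz = (1 : ℝ) - xv * ((1 / 2 : ℝ) - xv * ((21845 / 524288 : ℝ) - (11651 / 8388608) * xv)) := ⟨_, rfl⟩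
  obtain ⟨b⟩ := exGE q th cc v.h1
  obtain ⟨x2, e_x2⟩ : ∃ zz : ℝ, zz = 2 * (r * lv.rhi) := ⟨_, rfl⟩
  obtain ⟨Gv, e_G⟩ : ∃ zz : ℝ, zz = lv.rhi * ((1 : ℝ) - x2 * ((1 / 2 : ℝ) - (2731 / 16384) * x2)) * b.W⁻¹ := ⟨_, rfl⟩
  obtain ⟨gv, e_g⟩ : ∃ zz : ℝ, zz = r * Gv := ⟨_, rfl⟩
  obtain ⟨gar, e_gar⟩ : ∃ zz : ℝ, zz = Gv * (gv + (1 / 2 : ℝ))⁻¹ := ⟨_, rfl⟩
  obtain ⟨ga, e_ga⟩ : ∃ zz : ℝ, zz = r * gar := ⟨_, rfl⟩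
  obtain ⟨hg, e_hg⟩ : ∃ zz : ℝ, zz = v.h1 * ga := ⟨_, rfl⟩
  obtain ⟨lsf, e_lsf⟩ : ∃ zz : ℝ, zz = ((1 : ℝ) - (1 / 2) * hg) * ((1 : ℝ) - hg)⁻¹ := ⟨_, rfl⟩
  obtain ⟨Qb, e_Qb⟩ : ∃ zz : ℝ, zz = q * (hg + (1 : ℝ)) := ⟨_, rfl⟩
  obtain ⟨lsx, e_lsx⟩ : ∃ zz : ℝ, zz = v.h1t * lsf * (v.u * gar) := ⟨_, rfl⟩
  obtain ⟨ls, e_ls⟩ : ∃ zz : ℝ, zz = hg * lsf := ⟨_, rfl⟩
  obtain ⟨xpv, e_xp⟩ : ∃ zz : ℝ, zz = xv * v.SQ⁻¹ := ⟨_, rfl⟩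
  obtain ⟨ccp, e_ccp⟩ : ∃ zz : ℝ, zz = (1 : ℝ) - xpv * ((1 / 2 : ℝ) - xpv * ((21845 / 524288 : ℝ) - (11651 / 8388608) * xpv)) := ⟨_, rfl⟩
  obtain ⟨b'⟩ := exGE qp thp ccp v3.hp
  obtain ⟨x2p, e_x2p⟩ : ∃ zz : ℝ, zz = 2 * (r * lv.rphi) := ⟨_, rfl⟩
  obtain ⟨Gpv, e_Gp⟩ : ∃ zz : ℝ, zz = lv.rphi * ((1 : ℝ) - x2p * ((1 / 2 : ℝ) - (2731 / 16384) * x2p)) * b'.W⁻¹ := ⟨_, rfl⟩
  obtain ⟨gpv, e_gp⟩ : ∃ zz : ℝ, zz = r * Gpv := ⟨_, rfl⟩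
  obtain ⟨gapr, e_gapr⟩ : ∃ zz : ℝ, zz = Gpv * (gpv + (1 / 2 : ℝ))⁻¹ := ⟨_, rfl⟩
  obtain ⟨gap, e_gap⟩ : ∃ zz : ℝ, zz = r * gapr := ⟨_, rfl⟩
  obtain ⟨hgp, e_hgp⟩ : ∃ zz : ℝ, zz = v3.hp * gap := ⟨_, rfl⟩
  obtain ⟨gu, e_gu⟩ : ∃ zz : ℝ, zz = v.u * gapr := ⟨_, rfl⟩
  obtain ⟨G4, e_G4⟩ : ∃ zz : ℝ, zz = (1 / 2) * (4 * (1 : ℝ) + al * v.nj) := ⟨_, rfl⟩
  obtain ⟨Ei, e_Ei⟩ : ∃ zz : ℝ, zz = 2 * eps + (1 : ℝ) := ⟨_, rfl⟩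
  obtain ⟨Eh, e_Eh⟩ : ∃ zz : ℝ, zz = eps + (1 : ℝ) := ⟨_, rfl⟩
  obtain ⟨phux, e_phux⟩ : ∃ zz : ℝ, zz = (1 / 2) * ((1 / 2) * gar + 2 * (v.u * al⁻¹)) := ⟨_, rfl⟩
  obtain ⟨Q1, e_Q1⟩ : ∃ zz : ℝ, zz = Qb + (1 : ℝ) := ⟨_, rfl⟩
  obtain ⟨xa⟩ := exKa v2 eps al 1 G4 Qb Q1 ls lsx phux Ei Eh
  obtain ⟨srcs, e_srcs⟩ : ∃ zz : ℝ, zz = v.om1 * ((1 / 2) * (v.tu * v2.bsum * v.aQ⁻¹)) + v.t * xa.kl := ⟨_, rfl⟩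
  obtain ⟨yb⟩ := exKb (3 * 5⁻¹) xa tr gap gu srcs
  obtain ⟨pk⟩ := exPk v5 lv.rplo v3.hp hgp gu yb.yy
  obtain ⟨Ee, e_Ee⟩ : ∃ zz : ℝ, zz = Real.exp (-(r * pk.ye)) := ⟨_, rfl⟩
  obtain ⟨cd⟩ := exCd yb Ee
  have hsc := sc_HIII hde ht' e_mu hee e_r e_tr e_eps
  obtain ⟨hA0, hA⟩ := hA_L G hsc e_G4
  have f := lv.f G hsc.hr
  obtain ⟨p_o2, s0⟩ := ((((((((((h
    (1 : ℝ) zLHIII_1099511627776_0
    de hde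
    mu e_mu
    r e_r
    v.t ht'
    eps e_eps
    tr e_tr
    (1 / 2 : ℝ) zLHIII_549755813888_0
    v.tu v.e_tu
    (v.tu * v.n) rfl
    v.h (v.e_h.trans (congrArg (fun y : ℝ => y * (v.tu * v.n)) zLHIII_549755813888_0))
    v.u2 v.e_u2
    (v.h * v.h) rfl
    v.jm v.e_jm).2
    v.j v.e_j
    (v.h * v.j) rfl
    v.K (v.e_K.trans (congrArg (fun y : ℝ => y * (v.h * v.j)) zLHIII_2199023255552_0))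
    (2 * v.j) (congrArg (fun y : ℝ => y * v.j) zLHIII_2199023255552_0)
    v.c0 v.e_c0
    v.m v.e_m
    v.nj v.e_nj
    v.om v.e_om
    v.om1 v.e_om1
    v.op1 v.e_op1
    v.R v.e_R
    v.nj2 v.e_nj2
    v2.Y (v2.e_Y.trans (congrArg (fun y : ℝ => y * v.h) zLHIII_10774999203840_0))
    ((341 / 8192) * v2.Y) (congrArg (fun y : ℝ => y * v2.Y) zLHIII_45768245248_0)
    (1365 / 8192 : ℝ) zLHIII_183207198720_0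
    ((341 / 8192) * v2.Y + (1365 / 8192 : ℝ)) rfl
    (v2.Y * ((341 / 8192) * v2.Y + (1365 / 8192 : ℝ))) rfl
    ((1 / 2 : ℝ) + v2.Y * ((341 / 8192) * v2.Y + (1365 / 8192 : ℝ))) rfl
    (v2.Y * ((1 / 2 : ℝ) + v2.Y * ((341 / 8192) * v2.Y + (1365 / 8192 : ℝ)))) rfl
    v2.pY v2.e_pY
    (v2.Y * v2.pY) rfl
    ((1 / 2) * (v2.Y * v2.pY)) (congrArg (fun y : ℝ => y * (v2.Y * v2.pY)) zLHIII_549755813888_0)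
    ((1 : ℝ) + (1 / 2) * (v2.Y * v2.pY)) rfl
    v2.Yp v2.e_Yp
    (v.K * v.om) rfl
    (2 * v.c0) (congrArg (fun y : ℝ => y * v.c0) zLHIII_2199023255552_0)
    (v.K * v.om + 2 * v.c0) rfl
    v.Dt v.e_Dt
    v.D v.e_D
    v.SQ v.e_SQ
    (v.K * v.K) rfl
    (2 * (v.K * v.K)) (congrArg (fun y : ℝ => y * (v.K * v.K)) zLHIII_2199023255552_0)
    v.c2 v.e_c2
    (v.c0 * v.Dt) rfl
    v.rhat v.e_rhat).2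
    v.LQ v.e_LQ
    ((1 / 2) * v.LQ) (congrArg (fun y : ℝ => y * v.LQ) zLHIII_549755813888_0)
    v.aQ v.e_aQ
    (3 : ℝ) zLHIII_3298534883328_0).2
    ((3 : ℝ)⁻¹) rfl
    ((1 : ℝ) * (3 : ℝ)⁻¹) rfl
    (2 : ℝ) zLHIII_2199023255552_0
    (v.D + (2 : ℝ)) rfl).2
    ((v.D + (2 : ℝ))⁻¹) rfl
    l1.zL l1.e_zL
    l1.zz l1.e_zz
    ((1 : ℝ) - l1.zL) rfl
    (l1.zz * ((1 : ℝ) * (3 : ℝ)⁻¹)) rfl
    ((1 : ℝ) + l1.zz * ((1 : ℝ) * (3 : ℝ)⁻¹)) rfl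
    l1.Lv l1.e_Lv
    (l1.zz * l1.zz) rfl
    l1.eL (l1.e_eL.trans (congrArg (fun y : ℝ => y * (l1.zz * l1.zz)) zLHIII_219915747328_0))
    (v.Dt * l1.Lv) rfl
    lv.rlo (lv.e_rlo.trans (congrArg (fun y : ℝ => y * (v.Dt * l1.Lv)) zLHIII_549755813888_0))
    (v.Dt * l1.eL) rfl
    lv.er (lv.e_er.trans (congrArg (fun y : ℝ => y * (v.Dt * l1.eL)) zLHIII_549755813888_0))
    lv.rhi lv.e_rhi
    (v.c0 * v.rhat) rfl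
    lv.D2R (lv.e_D2R.trans (congrArg (fun y : ℝ => y * (v.c0 * v.rhat)) zLHIII_4398046511104_0))
    (v.c0 * v.R) rfl
    (v.c0 * v.R * v.rhat) rfl
    v.D2 (v.e_D2.trans (congrArg (fun y : ℝ => y * (v.c0 * v.R * v.rhat)) zLHIII_4398046511104_0))
    (v.D2 + (2 : ℝ)) rfl).2
    ((v.D2 + (2 : ℝ))⁻¹) rfl
    l2.zL l2.e_zL
    l2.zz l2.e_zz
    ((1 : ℝ) - l2.zL) rfl
    (l2.zz * ((1 : ℝ) * (3 : ℝ)⁻¹)) rfl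
    ((1 : ℝ) + l2.zz * ((1 : ℝ) * (3 : ℝ)⁻¹)) rfl
    l2.Lv l2.e_Lv
    (l2.zz * l2.zz) rfl
    l2.eL (l2.e_eL.trans (congrArg (fun y : ℝ => y * (l2.zz * l2.zz)) zLHIII_219915747328_0))
    (lv.D2R * l2.Lv) rfl
    ((1 / 2) * (lv.D2R * l2.Lv)) (congrArg (fun y : ℝ => y * (lv.D2R * l2.Lv)) zLHIII_549755813888_0)
    lv.rplo lv.e_rplo
    (lv.D2R * l2.eL) rfl
    ((1 / 2) * (lv.D2R * l2.eL)) (congrArg (fun y : ℝ => y * (lv.D2R * l2.eL)) zLHIII_549755813888_0)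
    lv.erp lv.e_erp
    lv.rphi lv.e_rphi
    (r * lv.rlo) rfl
    (-(r * lv.rlo)) rfl
    q e_q
    (r * lv.er) rfl
    th e_th
    (r * lv.rplo) rfl
    (-(r * lv.rplo)) rfl
    qp e_qp
    (r * lv.erp) rfl
    thp e_thp
    (v.om * v.K) rfl
    (v.c0 + v.om * v.K) rfl).2
    v.ioK v.e_ioK
    v.h1t v.e_h1t
    (v.om1 * v.t) rfl
    v.h1 v.e_h1
    ((1 : ℝ) - v.u2) rfl
    v.f2 v.e_f2
    v.tu2 v.e_tu2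
    ((1 : ℝ) - v.nj2) rfl
    v5.sn v5.e_sn
    (v.R * v.rhat) rfl).2
    (v.SQ⁻¹) rfl
    v5.R1 v5.e_R1
    (v.c0 + v5.R1) rfl
    v5.Qr v5.e_Qr
    (v5.Qr * v5.Qr) rfl).2
    ((v5.Qr * v5.Qr)⁻¹) rfl
    v5.Th v5.e_Th
    (v.c0 + v.R) rfl
    ((1 : ℝ) * (v.c0 + v.R)) rfl).2
    (((1 : ℝ) * (v.c0 + v.R))⁻¹) rfl
    wv e_w
    (wv * wv) rfl
    xv e_x
    (21845 / 524288 : ℝ) zLHIII_45812285440_0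
    ((11651 / 8388608) * xv) (congrArg (fun y : ℝ => y * xv) zLHIII_1527119872_0)
    ((21845 / 524288 : ℝ) - (11651 / 8388608) * xv) rfl
    (xv * ((21845 / 524288 : ℝ) - (11651 / 8388608) * xv)) rfl
    ((1 / 2 : ℝ) - xv * ((21845 / 524288 : ℝ) - (11651 / 8388608) * xv)) rfl
    (xv * ((1 / 2 : ℝ) - xv * ((21845 / 524288 : ℝ) - (11651 / 8388608) * xv))) rfl
    cc e_cc
    b.q1 b.e_q1
    (q * q) rfl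
    (q * q + (1 : ℝ)) rfl
    (q * cc) rfl
    (2 * (q * cc)) (congrArg (fun y : ℝ => y * (q * cc)) zLHIII_2199023255552_0)
    (q * q + (1 : ℝ) + 2 * (q * cc)) rfl
    (4 * th) (congrArg (fun y : ℝ => y * th) zLHIII_4398046511104_0)
    b.o2 b.e_o2).2
    (b.q1⁻¹) rfl
    (b.o2 * b.q1⁻¹) rfl
    b.P1 b.e_P1
    (q * v.h1) rfl
    b.qh (b.e_qh.trans (congrArg (fun y : ℝ => y * (q * v.h1)) zLHIII_549755813888_0))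
    (b.qh * b.P1) rfl
    b.W b.e_W
  change 0 < b.o2 at p_o2
  obtain ⟨p_W, s1⟩ := s0
  change 0 < b.W at p_W
  obtain ⟨p_hg, s2⟩ := (((s1
    (r * lv.rhi) rfl
    x2 (e_x2.trans (congrArg (fun y : ℝ => y * (r * lv.rhi)) zLHIII_2199023255552_0))
    ((2731 / 16384) * x2) (congrArg (fun y : ℝ => y * x2) zLHIII_183274307584_0)
    ((1 / 2 : ℝ) - (2731 / 16384) * x2) rfl
    (x2 * ((1 / 2 : ℝ) - (2731 / 16384) * x2)) rfl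
    ((1 : ℝ) - x2 * ((1 / 2 : ℝ) - (2731 / 16384) * x2)) rfl
    (lv.rhi * ((1 : ℝ) - x2 * ((1 / 2 : ℝ) - (2731 / 16384) * x2))) rfl).2
    (b.W⁻¹) rfl
    Gv e_G
    gv e_g
    (gv + (1 / 2 : ℝ)) rfl).2
    ((gv + (1 / 2 : ℝ))⁻¹) rfl
    gar e_gar
    ga e_ga
    hg e_hg
    ((1 / 2) * hg) (congrArg (fun y : ℝ => y * hg) zLHIII_549755813888_0)
    ((1 : ℝ) - (1 / 2) * hg) rfl
    ((1 : ℝ) - hg) rfl).2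
    (((1 : ℝ) - hg)⁻¹) rfl
    lsf e_lsf
    (hg + (1 : ℝ)) rfl
    Qb e_Qb
    (v.h1t * lsf) rfl
    (v.u * gar) rfl
    lsx e_lsx
    ls e_ls
  change 0 < (1 : ℝ) - hg at p_hg
  obtain ⟨p_rplo, s3⟩ := (s2
    (v.om1 * v.op1) rfl
    (v.c0 + v.t) rfl
    (v.om * v.c0) rfl
    (v.om * v.c0 * v.K) rfl
    (2 * (v.om * v.c0 * v.K)) (congrArg (fun y : ℝ => y * (v.om * v.c0 * v.K)) zLHIII_2199023255552_0)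
    (v.c2 + 2 * (v.om * v.c0 * v.K)) rfl
    ((v.c0 + v.t) * (v.c2 + 2 * (v.om * v.c0 * v.K))) rfl).2
    (((v.c0 + v.t) * (v.c2 + 2 * (v.om * v.c0 * v.K)))⁻¹) rfl
    v3.hpt v3.e_hpt
    v3.hp v3.e_hp
  change 0 < lv.rplo at p_rplo
  obtain ⟨p_o2p, s4⟩ := (s3
    xpv e_xp
    ((11651 / 8388608) * xpv) (congrArg (fun y : ℝ => y * xpv) zLHIII_1527119872_0)
    ((21845 / 524288 : ℝ) - (11651 / 8388608) * xpv) rfl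
    (xpv * ((21845 / 524288 : ℝ) - (11651 / 8388608) * xpv)) rfl
    ((1 / 2 : ℝ) - xpv * ((21845 / 524288 : ℝ) - (11651 / 8388608) * xpv)) rfl
    (xpv * ((1 / 2 : ℝ) - xpv * ((21845 / 524288 : ℝ) - (11651 / 8388608) * xpv))) rfl
    ccp e_ccp
    b'.q1 b'.e_q1
    (qp * qp) rfl
    (qp * qp + (1 : ℝ)) rfl
    (qp * ccp) rfl
    (2 * (qp * ccp)) (congrArg (fun y : ℝ => y * (qp * ccp)) zLHIII_2199023255552_0)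
    (qp * qp + (1 : ℝ) + 2 * (qp * ccp)) rfl
    (4 * thp) (congrArg (fun y : ℝ => y * thp) zLHIII_4398046511104_0)
    b'.o2 b'.e_o2).2
    (b'.q1⁻¹) rfl
    (b'.o2 * b'.q1⁻¹) rfl
    b'.P1 b'.e_P1
    (qp * v3.hp) rfl
    b'.qh (b'.e_qh.trans (congrArg (fun y : ℝ => y * (qp * v3.hp)) zLHIII_549755813888_0))
    (b'.qh * b'.P1) rfl
    b'.W b'.e_W
  change 0 < b'.o2 at p_o2p
  obtain ⟨p_Wp, s5⟩ := s4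
  change 0 < b'.W at p_Wp
  obtain ⟨p_lspa, s6⟩ := ((((((((((((((((s5
    (r * lv.rphi) rfl
    x2p (e_x2p.trans (congrArg (fun y : ℝ => y * (r * lv.rphi)) zLHIII_2199023255552_0))
    ((2731 / 16384) * x2p) (congrArg (fun y : ℝ => y * x2p) zLHIII_183274307584_0)
    ((1 / 2 : ℝ) - (2731 / 16384) * x2p) rfl
    (x2p * ((1 / 2 : ℝ) - (2731 / 16384) * x2p)) rfl
    ((1 : ℝ) - x2p * ((1 / 2 : ℝ) - (2731 / 16384) * x2p)) rfl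
    (lv.rphi * ((1 : ℝ) - x2p * ((1 / 2 : ℝ) - (2731 / 16384) * x2p))) rfl).2
    (b'.W⁻¹) rfl
    Gpv e_Gp
    gpv e_gp
    (gpv + (1 / 2 : ℝ)) rfl).2
    ((gpv + (1 / 2 : ℝ))⁻¹) rfl
    gapr e_gapr
    gap e_gap
    hgp e_hgp
    gu e_gu
    (v.h + (1 : ℝ)) rfl).2
    v2.ih v2.e_ih
    (v.h * v2.ih) rfl
    v2.rh (v2.e_rh.trans (congrArg (fun y : ℝ => y * (v.h * v2.ih)) zLHIII_2199023255552_0))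
    v2.mi v2.e_mi
    v2.hm v2.e_hm
    v2.nih v2.e_nih
    (v2.nih * v2.mi) rfl
    v2.bsum v2.e_bsum
    ((209 / 1024) * v.j) (congrArg (fun y : ℝ => y * v.j) zLHIII_224412041216_0)).2
    (v2.Yp⁻¹) rfl
    v2.lm v2.e_lm
    (4 * (1 : ℝ)) (congrArg (fun y : ℝ => y * (1 : ℝ)) zLHIII_4398046511104_0)
    (al * v.nj) rfl
    (4 * (1 : ℝ) + al * v.nj) rfl
    G4 (e_G4.trans (congrArg (fun y : ℝ => y * (4 * (1 : ℝ) + al * v.nj)) zLHIII_549755813888_0))).2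
    xa.iG4 xa.e_iG4
    xa.alG xa.e_alG
    xa.AE xa.e_AE
    (xa.AE * v.op1) rfl
    xa.XeE xa.e_XeE
    (xa.alG * v.op1) rfl
    xa.XM xa.e_XM
    ((1 : ℝ) - xa.XM) rfl).2
    xa.iX xa.e_iX
    xa.QX xa.e_QX
    ((1 : ℝ) - xa.QX) rfl).2
    xa.iQX xa.e_iQX
    (2 * eps) (congrArg (fun y : ℝ => y * eps) zLHIII_2199023255552_0)
    Ei e_Ei
    Eh e_Eh
    ((1 / 2) * gar) (congrArg (fun y : ℝ => y * gar) zLHIII_549755813888_0)).2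
    (al⁻¹) rfl
    (v.u * al⁻¹) rfl
    (2 * (v.u * al⁻¹)) (congrArg (fun y : ℝ => y * (v.u * al⁻¹)) zLHIII_2199023255552_0)
    ((1 / 2) * gar + 2 * (v.u * al⁻¹)) rfl
    phux (e_phux.trans (congrArg (fun y : ℝ => y * ((1 / 2) * gar + 2 * (v.u * al⁻¹))) zLHIII_549755813888_0))
    (v.h * v.nj) rfl
    ((1 : ℝ) - v.f2) rfl
    (v.h * v.om) rfl
    (2 * (v.h * v.om)) (congrArg (fun y : ℝ => y * (v.h * v.om)) zLHIII_2199023255552_0)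
    ((1 : ℝ) - v.f2 - 2 * (v.h * v.om)) rfl
    (v.h * v.nj * (v.h * v.nj)) rfl
    xa.N1 xa.e_N1
    (xa.N1 + (1 : ℝ)) rfl
    xa.s (xa.e_s.trans (congrArg (fun y : ℝ => y * (xa.N1 + (1 : ℝ))) zLHIII_549755813888_0))
    ((1 / 2) * v.R) (congrArg (fun y : ℝ => y * v.R) zLHIII_549755813888_0)
    (v.j - (1 / 2) * v.R) rfl
    (v.tu2 * ((1 : ℝ) - v.f2)) rfl
    (v.tu2 * ((1 : ℝ) - v.f2) * v.jm) rfl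
    ((1 / 8) * (v.tu2 * ((1 : ℝ) - v.f2) * v.jm)) (congrArg (fun y : ℝ => y * (v.tu2 * ((1 : ℝ) - v.f2) * v.jm)) zLHIII_137438953472_0)
    (v.j - (1 / 2) * v.R + (1 / 8) * (v.tu2 * ((1 : ℝ) - v.f2) * v.jm)) rfl
    xa.k0 xa.e_k0
    Q1 e_Q1
    (Q1 * xa.iX) rfl
    (Qb * xa.iQX) rfl
    (Q1 * xa.iX + Qb * xa.iQX) rfl
    (xa.XM * (Q1 * xa.iX + Qb * xa.iQX)) rfl
    (ls + xa.XM * (Q1 * xa.iX + Qb * xa.iQX)) rfl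
    xa.a0 xa.e_a0
    (Q1 * xa.XM) rfl
    (Q1 * xa.XM * xa.iX) rfl
    (ls + Q1 * xa.XM * xa.iX) rfl
    xa.l1 xa.e_l1
    ((13 / 64) * xa.l1) (congrArg (fun y : ℝ => y * xa.l1) zLHIII_223338299392_0)
    ((1 / 2 : ℝ) + (13 / 64) * xa.l1) rfl
    (xa.l1 * ((1 / 2 : ℝ) + (13 / 64) * xa.l1)) rfl
    xa.Na xa.e_Na
    ((13 / 16) * xa.a0) (congrArg (fun y : ℝ => y * xa.a0) zLHIII_893353197568_0)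
    ((1 : ℝ) + (13 / 16) * xa.a0) rfl
    (xa.a0 * ((1 : ℝ) + (13 / 16) * xa.a0)) rfl
    xa.Nb xa.e_Nb
    (v2.rh * v2.nih) rfl
    (v2.rh * v2.nih * Ei) rfl
    xa.rn xa.e_rn
    (xa.k0 * xa.Na) rfl
    (v.aQ + (1 / 2 : ℝ)) rfl
    (xa.rn * (v.aQ + (1 / 2 : ℝ))) rfl
    xa.ka xa.e_ka
    (v.aQ + (1 : ℝ)) rfl
    xa.kb xa.e_kb
    (Eh * (v.aQ + (1 : ℝ))) rfl
    (Eh * (v.aQ + (1 : ℝ)) * v2.nih) rfl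
    xa.lfk xa.e_lfk
    (xa.ka * lsx) rfl
    (xa.lfk * phux) rfl
    xa.kl xa.e_kl
    (v.tu * v2.bsum) rfl).2
    (v.aQ⁻¹) rfl
    (v.tu * v2.bsum * v.aQ⁻¹) rfl
    ((1 / 2) * (v.tu * v2.bsum * v.aQ⁻¹)) (congrArg (fun y : ℝ => y * (v.tu * v2.bsum * v.aQ⁻¹)) zLHIII_549755813888_0)
    (v.om1 * ((1 / 2) * (v.tu * v2.bsum * v.aQ⁻¹))) rfl
    (v.t * xa.kl) rfl
    srcs e_srcs
    yb.src yb.e_src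
    (xa.ka * Q1) rfl
    (xa.ka * Q1 * xa.iX) rfl
    (xa.kb * Qb) rfl
    (xa.kb * Qb * xa.iQX) rfl
    yb.fxe yb.e_fxe
    (v.om1 * yb.src) rfl
    (xa.XeE * yb.fxe) rfl
    yb.epd yb.e_epd
    (v.tu2 * yb.epd) rfl
    (v.tu2 * yb.epd * v.aQ⁻¹) rfl
    ((1 : ℝ) - v.tu2 * yb.epd * v.aQ⁻¹) rfl).2
    yb.NN yb.e_NN
    yb.eN yb.e_eN
    yb.d yb.e_d
    yb.eta yb.e_eta
    (yb.eta * v.aQ⁻¹) rfl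
    ((1 : ℝ) - yb.eta * v.aQ⁻¹) rfl
    (v.rhat * ((1 : ℝ) - yb.eta * v.aQ⁻¹)) rfl
    yb.rl yb.e_rl).2
    yb.irl yb.e_irl
    yb.yy yb.e_yy
    (v.aQ - yb.eta) rfl).2
    yb.q0 yb.e_q0
    yb.zp yb.e_zp
    ((1 / 2) * yb.zp) (congrArg (fun y : ℝ => y * yb.zp) zLHIII_549755813888_0)
    ((1 : ℝ) - (1 / 2) * yb.zp) rfl
    ((1 : ℝ) - yb.zp) rfl).2
    (((1 : ℝ) - yb.zp)⁻¹) rfl
    yb.kzp yb.e_kzp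
    (v.u * yb.q0) rfl
    (gu * yb.irl) rfl
    (gu * yb.irl * yb.kzp) rfl
    yb.Cu yb.e_Cu
    (tr * yb.eN) rfl
    (yb.q0 * (tr * yb.eN)) rfl
    (gap * yb.irl) rfl
    (gap * yb.irl * yb.kzp) rfl
    (gap * yb.irl * yb.kzp * yb.d) rfl
    yb.rr yb.e_rr
    ((13 / 64) * yb.rr) (congrArg (fun y : ℝ => y * yb.rr) zLHIII_223338299392_0)
    ((1 / 2 : ℝ) + (13 / 64) * yb.rr) rfl
    (yb.rr * ((1 / 2 : ℝ) + (13 / 64) * yb.rr)) rfl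
    ((1 : ℝ) + yb.rr * ((1 / 2 : ℝ) + (13 / 64) * yb.rr)) rfl
    (yb.Cu * ((1 : ℝ) + yb.rr * ((1 / 2 : ℝ) + (13 / 64) * yb.rr))) rfl
    yb.CuN yb.e_CuN
    yb.fbt yb.e_fbt
    yb.XLt yb.e_XLt
    (5 : ℝ) zLHIII_5497558138880_0).2
    ((5 : ℝ)⁻¹) rfl
    yb.beta yb.e_beta
    ((v.h + (1 : ℝ)) * v.op1) rfl
    yb.b1 yb.e_b1
    pk.omr pk.e_omr
    pk.omp pk.e_omp
    ((1 / 2) * hgp) (congrArg (fun y : ℝ => y * hgp) zLHIII_549755813888_0)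
    ((1 : ℝ) - (1 / 2) * hgp) rfl
    ((1 : ℝ) - hgp) rfl).2
    (((1 : ℝ) - hgp)⁻¹) rfl
    (((1 : ℝ) - (1 / 2) * hgp) * ((1 : ℝ) - hgp)⁻¹) rfl
    pk.lspf pk.e_lspf
    (v.tu2 * v5.Th) rfl
    ((2731 / 4096) * (v.tu2 * v5.Th)) (congrArg (fun y : ℝ => y * (v.tu2 * v5.Th)) zLHIII_733097230336_0)
    ((1 : ℝ) - (2731 / 4096) * (v.tu2 * v5.Th)) rfl
    (v5.Th * ((1 : ℝ) - (2731 / 4096) * (v.tu2 * v5.Th))) rfl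
    (lv.rplo * lv.rplo) rfl
    (v.u2 * (lv.rplo * lv.rplo)) rfl
    pk.E0 pk.e_E0
    pk.lspa pk.e_lspa
    (pk.E0 + (1 : ℝ)) rfl
    (pk.lspa * (pk.E0 + (1 : ℝ))) rfl
    (pk.E0 - pk.lspa * (pk.E0 + (1 : ℝ))) rfl
    ((2731 / 8192) * (v.K * v.K)) (congrArg (fun y : ℝ => y * (v.K * v.K)) zLHIII_366548615168_0)
    ((1 : ℝ) - (2731 / 8192) * (v.K * v.K)) rfl
    (v.nj2 * ((1 : ℝ) - (2731 / 8192) * (v.K * v.K))) rfl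
    (pk.E0 - pk.lspa * (pk.E0 + (1 : ℝ)) + v.nj2 * ((1 : ℝ) - (2731 / 8192) * (v.K * v.K))) rfl
    (pk.omr * (pk.E0 - pk.lspa * (pk.E0 + (1 : ℝ)) + v.nj2 * ((1 : ℝ) - (2731 / 8192) * (v.K * v.K)))) rfl
    (pk.omp * pk.omp) rfl
    ((1 : ℝ) + pk.omp * pk.omp) rfl).2
    (((1 : ℝ) + pk.omp * pk.omp)⁻¹) rfl
    pk.pe pk.e_pe
    ((1 : ℝ) - yb.yy) rfl
    pk.ye pk.e_ye
    ((1 : ℝ) - pk.lspa) rfl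
  change 0 < (1 : ℝ) - pk.lspa at p_lspa
  obtain ⟨p_pe, s7⟩ := s6
  change 0 < pk.pe at p_pe
  obtain ⟨p_yy, s8⟩ := s7
  change 0 < (1 : ℝ) - yb.yy at p_yy
  obtain ⟨p_XM, s9⟩ := ((((((s8
    (yb.CuN * G4) rfl
    (yb.CuN * G4 * srcs) rfl).2
    (v.op1⁻¹) rfl
    cd.FX cd.e_FX
    (r * pk.ye) rfl
    (-(r * pk.ye)) rfl
    Ee e_Ee
    (v.t * yb.b1) rfl
    ((1 : ℝ) + v.t * yb.b1) rfl).2
    cd.Lam cd.e_Lam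
    (Ee * cd.Lam) rfl
    (Ee * cd.Lam * v.m) rfl
    (v.tu * yb.eN) rfl
    (v.tu * yb.eN * v.op1⁻¹) rfl
    ((1 : ℝ) + v.tu * yb.eN * v.op1⁻¹) rfl
    (Ee * cd.Lam * v.m * ((1 : ℝ) + v.tu * yb.eN * v.op1⁻¹)) rfl
    cd.c1 cd.e_c1
    cd.fb cd.e_fb
    (cd.fb * xa.XM) rfl
    (v.t * yb.XLt) rfl
    (cd.FX * (v.t * yb.XLt)) rfl
    cd.r2 cd.e_r2
    (cd.fb + cd.FX) rfl
    ((1 : ℝ) + cd.r2) rfl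
    (cd.c1 * ((1 : ℝ) + cd.r2)) rfl
    (cd.fb + cd.FX + cd.c1 * ((1 : ℝ) + cd.r2)) rfl
    cd.Bm cd.e_Bm
    ((1 / 1024) * v.t) (congrArg (fun y : ℝ => y * v.t) zLHIII_1073741824_0)
    (cd.Bm - (1 / 1024) * v.t) rfl
    yb.m1 yb.e_m1
    (yb.m1 + (2 : ℝ)) rfl
    (2 * yb.beta) (congrArg (fun y : ℝ => y * yb.beta) zLHIII_2199023255552_0)
    (yb.m1 + (2 : ℝ) - 2 * yb.beta) rfl
    ((v.h + (1 : ℝ)) * (yb.m1 + (2 : ℝ) - 2 * yb.beta)) rfl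
    (yb.m1 * (2 * yb.beta)) rfl
    (yb.m1 * (2 * yb.beta) + (1 : ℝ)) rfl).2
    ((yb.m1 * (2 * yb.beta) + (1 : ℝ))⁻¹) rfl
    ((v.h + (1 : ℝ)) * (yb.m1 + (2 : ℝ) - 2 * yb.beta) * (yb.m1 * (2 * yb.beta) + (1 : ℝ))⁻¹) rfl
    (xa.AE * yb.fxe) rfl
    ((1 / 2) * v2.lm) (congrArg (fun y : ℝ => y * v2.lm) zLHIII_549755813888_0)
    (v.K + (1 / 2) * v2.lm) rfl
    (xa.AE * yb.fxe * (v.K + (1 / 2) * v2.lm)) rfl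
    (2 * (xa.AE * yb.fxe * (v.K + (1 / 2) * v2.lm))) (congrArg (fun y : ℝ => y * (xa.AE * yb.fxe * (v.K + (1 / 2) * v2.lm))) zLHIII_2199023255552_0)
    (yb.src + 2 * (xa.AE * yb.fxe * (v.K + (1 / 2) * v2.lm))) rfl
    (2 * (yb.src + 2 * (xa.AE * yb.fxe * (v.K + (1 / 2) * v2.lm)))) (congrArg (fun y : ℝ => y * (yb.src + 2 * (xa.AE * yb.fxe * (v.K + (1 / 2) * v2.lm)))) zLHIII_2199023255552_0)
    (2 * (yb.src + 2 * (xa.AE * yb.fxe * (v.K + (1 / 2) * v2.lm))) * yb.NN) rfl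
    (v.op1 - v.tu * yb.eN) rfl).2
    ((v.op1 - v.tu * yb.eN)⁻¹) rfl
    (2 * (yb.src + 2 * (xa.AE * yb.fxe * (v.K + (1 / 2) * v2.lm))) * yb.NN * (v.op1 - v.tu * yb.eN)⁻¹) rfl
    yb.V yb.e_V
    (al * v.nj * (al * v.nj)) rfl
    (13 : ℝ) zLHIII_14293651161088_0
    (10 : ℝ) zLHIII_10995116277760_0).2
    ((10 : ℝ)⁻¹) rfl
    ((13 : ℝ) * (10 : ℝ)⁻¹) rfl
    (al * v.nj * (al * v.nj) * ((13 : ℝ) * (10 : ℝ)⁻¹)) rfl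
    ((1 : ℝ) * (1 : ℝ)) rfl
    (25 * ((1 : ℝ) * (1 : ℝ))) (congrArg (fun y : ℝ => y * ((1 : ℝ) * (1 : ℝ))) zLHIII_27487790694400_0)
    yb.C2 yb.e_C2
    yb.gr (yb.e_gr.trans (congrArg (fun y : ℝ => yb.b1 * y) cd.e_Lam.symm))
    (2 * v.c0 - v.t) rfl
    yb.Gt yb.e_Gt
    yb.au (yb.e_au.trans (congrArg (fun y : ℝ => y * 1) e_r.symm))
    (v.op1 * yb.fxe) rfl
    (v.op1 * yb.fxe * xa.iG4) rfl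
    yb.inner yb.e_inner
    (v.tu * yb.eN + (2 : ℝ)) rfl
    yb.ezs yb.e_ezs
    (yb.C2 * yb.gr) rfl
    (yb.NN * yb.ezs) rfl
    (yb.au * yb.inner) rfl
    (yb.NN * yb.ezs * (yb.au * yb.inner)) rfl
    yb.Rg0 yb.e_Rg0
    ((1 / 2) * (v.tu * yb.eN)) (congrArg (fun y : ℝ => y * (v.tu * yb.eN)) zLHIII_549755813888_0)
    ((1 : ℝ) + (1 / 2) * (v.tu * yb.eN)) rfl
    (yb.NN * ((1 : ℝ) + (1 / 2) * (v.tu * yb.eN))) rfl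
    (v.t * v.om1) rfl
    (v.t * v.om1 * v2.bsum) rfl
    (v.op1 * v.aQ) rfl).2
    ((v.op1 * v.aQ)⁻¹) rfl
    (v.t * v.om1 * v2.bsum * (v.op1 * v.aQ)⁻¹) rfl
    (yb.NN * ((1 : ℝ) + (1 / 2) * (v.tu * yb.eN)) * (v.t * v.om1 * v2.bsum * (v.op1 * v.aQ)⁻¹)) rfl
    yb.Rh yb.e_Rh
    (v2.lm * yb.Rg0) rfl
    ((1 : ℝ) - v2.lm) rfl
    (v.u2 * yb.Rh) rfl
    (((1 : ℝ) - v2.lm) * (v.u2 * yb.Rh)) rfl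
    (yb.C2 * (((1 : ℝ) - v2.lm) * (v.u2 * yb.Rh))) rfl
    yb.Rg yb.e_Rg
  change 0 < (1 : ℝ) - xa.XM at p_XM
  obtain ⟨p_QX, s10⟩ := s9
  change 0 < (1 : ℝ) - xa.QX at p_QX
  obtain ⟨p_e2, s11⟩ := s10
    (2 * (v.tu2 * yb.epd)) (congrArg (fun y : ℝ => y * (v.tu2 * yb.epd)) zLHIII_2199023255552_0)
    (v.aQ - 2 * (v.tu2 * yb.epd)) rfl
  change 0 < v.aQ - 2 * (v.tu2 * yb.epd) at p_e2
  obtain ⟨p_rl, s12⟩ := s11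
  change 0 < yb.rl at p_rl
  obtain ⟨p_hgp, s13⟩ := s12
    ((1 / 2 : ℝ) - hgp) rfl
  change 0 < (1 / 2 : ℝ) - hgp at p_hgp
  obtain ⟨p_l1, s14⟩ := s13
    ((5 / 8) * (1 : ℝ)) (congrArg (fun y : ℝ => y * (1 : ℝ)) zLHIII_687194767360_0)
    ((5 / 8) * (1 : ℝ) - xa.l1) rfl
  change 0 < (5 / 8) * (1 : ℝ) - xa.l1 at p_l1
  obtain ⟨p_a0, s15⟩ := s14
    ((11 / 32) * (1 : ℝ)) (congrArg (fun y : ℝ => y * (1 : ℝ)) zLHIII_377957122048_0)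
    ((11 / 32) * (1 : ℝ) - xa.a0) rfl
  change 0 < (11 / 32) * (1 : ℝ) - xa.a0 at p_a0
  obtain ⟨p_S, s16⟩ := s15
  change 0 < v.op1 - v.tu * yb.eN at p_S
  obtain ⟨p_zp, s17⟩ := s16
  change 0 < (1 : ℝ) - yb.zp at p_zp
  obtain ⟨p_rr, s18⟩ := s17
    ((5 / 8) * (1 : ℝ) - yb.rr) rfl
  change 0 < (5 / 8) * (1 : ℝ) - yb.rr at p_rr
  obtain ⟨p_V, s19⟩ := s18
  change 0 < yb.V at p_V
  obtain ⟨p_B, s20⟩ := s19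
  change 0 < cd.Bm - (1 / 1024) * v.t at p_B
  obtain ⟨p_Rg, s21⟩ := s20
  change 0 < yb.Rg at p_Rg
  obtain ⟨p_Rh, s22⟩ := s21
  change 0 < yb.Rh at p_Rh
  have hQ := qb_s G f lv.e_rhi e_q e_th
  have hq := hQ.le
  have hQp := qb_p G f p_rplo.le lv.e_rphi e_qp e_thp
  have hqp := hQp.le
  have hq0 : 0 < q := lt_of_lt_of_le (by rw [G.q_eq]; exact G.q0) hq
  have hcc : cc ≤ Real.cos (v.e * (Qk κ (shf κ τ)).arg) := cc_p (arg_x G v5 hsc e_w e_x) e_cc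
  have hgR := gR_GS G.e0 G.κ0 G.s0 b hQ hcc G.h1_eq p_o2 p_W (qa_rhi G f).1 (qa_rhi G f).2 e_x2 e_G e_g
  have hγ := gam_GS G.e0 G.κ0 G.s0 hgR e_g e_gar e_ga
  have hccp : ccp ≤ Real.cos (v.e * (Qk κ (shf κ (shf κ τ))).arg) := cc_p (arg_xp G v3 v5 hsc e_w e_x e_xp) e_ccp
  have hgRp := gR_GS G.e0 G.κ0 (shf_re' G.κ0 G.s0) b' hQp hccp (G.hp_eq v3) p_o2p p_Wp (qa_rphi G f).1 (qa_rphi G f).2 e_x2p e_Gp e_gp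
  have hγp := gam_GS G.e0 G.κ0 (shf_re' G.κ0 G.s0) hgRp e_gp e_gapr e_gap
  have hn1 := n1_one G hγ hq e_hg e_Qb e_Q1
  have hlx : al * lsx = v.h1t * lsf * ga := by linear_combination al * e_lsx - v.h1t * lsf * e_ga - v.h1t * lsf * gar * hsc.rau
  have fr := fr_g G hγ hq hq0 e_hg e_lsf p_hg e_Qb e_ls (hsc.al0 G) hlx hn1
  have hgu : al * gu = gap * 1 := by linear_combination al * e_gu - e_gap - gapr * hsc.rau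
  obtain ⟨lf0, Ex, hφ⟩ := ph_sq3 G v2 hsc he2 hγ e_ga (by norm_num) (by norm_num) (by norm_num) e_phux e_Ei e_Eh
  have as8 : As8 xa yb := ⟨p_XM, p_QX, p_e2, p_rl, p_l1, p_a0, p_S, p_zp, p_rr, p_V, p_Rg, p_Rh⟩
  exact far_Cd G D hsc hA0 hA as8 fr hgu hγp hφ pk f p_rplo e_hgp p_hgp p_lspa p_pe p_yy cd e_srcs v.e_tu
    (le_of_eq e_Ee.symm) p_B

theorem dom_LHIII5 {κ : ℝ} {τ : ℂ} {R w : ℝ} {v : B1} (D : PtE (3 * 5⁻¹) v.e κ τ R w)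
    (G : Geo κ (shf κ τ) v) (v2 : B2 v) (he2 : 2 ≤ v.e) {al g de : ℝ}
    (hde0 : 0 < de) (hde : de = v.u * g) (ht : v.t = al * v.u * (g * g))
    (hee : v.e * (de * de) = 1)
    (hE : 50 ≤ v.e)
    (h : RAs Pool.Agent.helper71.FJ.Crt.LHIII.prog5 [al, v.u, g, v.n]) : False := by
  obtain ⟨mu, e_mu⟩ : ∃ zz : ℝ, zz = g * g := ⟨_, rfl⟩
  obtain ⟨r, e_r⟩ : ∃ zz : ℝ, zz = al * v.u := ⟨_, rfl⟩
  have ht' : v.t = r * mu := by rw [e_r, e_mu]; exact ht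
  obtain ⟨eps, e_eps⟩ : ∃ zz : ℝ, zz = de * de := ⟨_, rfl⟩
  obtain ⟨tr, e_tr⟩ : ∃ zz : ℝ, zz = v.t * r := ⟨_, rfl⟩
  have hsc := sc_HIII hde ht' e_mu hee e_r e_tr e_eps
  obtain ⟨p_B, s0⟩ := h
    (1 : ℝ) zLHIII_1099511627776_0
    de hde
    mu e_mu
    r e_r
    v.t ht'
    eps e_eps
    tr e_tr
    (5243 / 262144 : ℝ) zLHIII_21990735872_0
    (eps - (5243 / 262144 : ℝ)) rfl
  change 0 < eps - (5243 / 262144 : ℝ) at p_B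
  exact dm_lo hsc.ee hE (by norm_num) (by norm_num) p_B

theorem dom_LHIII6 {κ : ℝ} {τ : ℂ} {R w : ℝ} {v : B1} (D : PtE (3 * 5⁻¹) v.e κ τ R w)
    (G : Geo κ (shf κ τ) v) (v2 : B2 v) (he2 : 2 ≤ v.e) {al g de : ℝ}
    (hde0 : 0 < de) (hde : de = v.u * g) (ht : v.t = al * v.u * (g * g))
    (hee : v.e * (de * de) = 1)
    (hE1 : v.e ≤ 100)
    (h : RAs Pool.Agent.helper71.FJ.Crt.LHIII.prog6 [al, v.u, g, v.n]) : False := by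
  obtain ⟨mu, e_mu⟩ : ∃ zz : ℝ, zz = g * g := ⟨_, rfl⟩
  obtain ⟨r, e_r⟩ : ∃ zz : ℝ, zz = al * v.u := ⟨_, rfl⟩
  have ht' : v.t = r * mu := by rw [e_r, e_mu]; exact ht
  obtain ⟨eps, e_eps⟩ : ∃ zz : ℝ, zz = de * de := ⟨_, rfl⟩
  obtain ⟨tr, e_tr⟩ : ∃ zz : ℝ, zz = v.t * r := ⟨_, rfl⟩
  have hsc := sc_HIII hde ht' e_mu hee e_r e_tr e_eps
  obtain ⟨p_B, s0⟩ := h
    (1 : ℝ) zLHIII_1099511627776_0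
    de hde
    mu e_mu
    r e_r
    v.t ht'
    eps e_eps
    tr e_tr
    (10485 / 1048576 : ℝ) zLHIII_10994319360_0
    ((10485 / 1048576 : ℝ) - eps) rfl
  change 0 < (10485 / 1048576 : ℝ) - eps at p_B
  exact dm_hi hsc.ee G.e0 hE1 (by norm_num) p_B

theorem dom_LHIII7 {κ : ℝ} {τ : ℂ} {R w : ℝ} {v : B1} (D : PtE (3 * 5⁻¹) v.e κ τ R w)
    (G : Geo κ (shf κ τ) v) (v2 : B2 v) (he2 : 2 ≤ v.e) {al g de : ℝ}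
    (hde0 : 0 < de) (hde : de = v.u * g) (ht : v.t = al * v.u * (g * g))
    (hee : v.e * (de * de) = 1)
    (hb : 1 / 2 < v.e * v.K)
    (h : RAs Pool.Agent.helper71.FJ.Crt.LHIII.prog7 [al, v.u, g, v.n]) : False := by
  obtain ⟨mu, e_mu⟩ : ∃ zz : ℝ, zz = g * g := ⟨_, rfl⟩
  obtain ⟨r, e_r⟩ : ∃ zz : ℝ, zz = al * v.u := ⟨_, rfl⟩
  have ht' : v.t = r * mu := by rw [e_r, e_mu]; exact ht
  obtain ⟨eps, e_eps⟩ : ∃ zz : ℝ, zz = de * de := ⟨_, rfl⟩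
  obtain ⟨tr, e_tr⟩ : ∃ zz : ℝ, zz = v.t * r := ⟨_, rfl⟩
  have hsc := sc_HIII hde ht' e_mu hee e_r e_tr e_eps
  obtain ⟨p_B, s0⟩ := (h
    (1 : ℝ) zLHIII_1099511627776_0
    de hde
    mu e_mu
    r e_r
    v.t ht'
    eps e_eps
    tr e_tr
    (1 / 2 : ℝ) zLHIII_549755813888_0
    v.tu v.e_tu
    (v.tu * v.n) rfl
    v.h (v.e_h.trans (congrArg (fun y : ℝ => y * (v.tu * v.n)) zLHIII_549755813888_0))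
    v.u2 v.e_u2
    (v.h * v.h) rfl
    v.jm v.e_jm).2
    v.j v.e_j
    (v.h * v.j) rfl
    v.K (v.e_K.trans (congrArg (fun y : ℝ => y * (v.h * v.j)) zLHIII_2199023255552_0))
    (2 * v.j) (congrArg (fun y : ℝ => y * v.j) zLHIII_2199023255552_0)
    v.c0 v.e_c0
    v.m v.e_m
    v.nj v.e_nj
    v.om v.e_om
    v.om1 v.e_om1
    v.op1 v.e_op1
    v.R v.e_R
    v.nj2 v.e_nj2
    ((1 / 2) * (1 : ℝ)) (congrArg (fun y : ℝ => y * (1 : ℝ)) zLHIII_549755813888_0)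
    (al * v.nj) rfl
    ((1 / 2) * (1 : ℝ) - al * v.nj) rfl
  change 0 < (1 / 2) * (1 : ℝ) - al * v.nj at p_B
  exact dm_b G hsc hb p_B

theorem ptLHIII {κ : ℝ} {τ : ℂ} {R w : ℝ} {v : B1} (D : PtE (3 * 5⁻¹) v.e κ τ R w)
    (G : Geo κ (shf κ τ) v) (he2 : 2 ≤ v.e) {al g de : ℝ}
    (hde0 : 0 < de) (hde : de = v.u * g) (ht : v.t = al * v.u * (g * g))
    (hee : v.e * (de * de) = 1)
    (hE : 50 ≤ v.e)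
    (hE1 : v.e ≤ 100)
    (hK : v.e * v.K ^ 2 ≤ 22716 / 16384 + 1925 / 1024 * de)
    (hb : 1 / 2 < v.e * v.K)
    (hal : v.e * v.tu ≤ 313 / 128)
    (h : ∃ ops ∈ Pool.Agent.helper71.FJ.Crt.LHIII.progs, RAs ops [al, v.u, g, v.n]) :
    FarPt v.e κ (1 - Real.sinh κ / 1024) w (2 * AL v.e v.K * Real.sinh κ ^ 2) R
      (RE v.e κ (w * R)) τ := by
  obtain ⟨v2⟩ := exB2 v
  obtain ⟨v3⟩ := exB3 v
  obtain ⟨v5⟩ := exV5 v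
  obtain ⟨l1⟩ := exLg v.D
  obtain ⟨l2⟩ := exLg v.D2
  obtain ⟨lv⟩ := exLV v l1 l2
  obtain ⟨ops, ho, hr⟩ := h
  rw [Pool.Agent.helper71.FJ.Crt.LHIII.progs] at ho
  simp only [List.mem_cons, List.not_mem_nil, or_false] at ho
  rcases ho with rfl | rfl | rfl | rfl | rfl | rfl | rfl | rfl
  · exact far_LHIII0 D G v2 v3 v5 lv he2 hde0 hde ht hee hr
  · exact far_LHIII1 D G v2 v3 v5 lv he2 hde0 hde ht hee hr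
  · exact far_LHIII2 D G v2 v3 v5 lv he2 hde0 hde ht hee hr
  · exact far_LHIII3 D G v2 v3 v5 lv he2 hde0 hde ht hee hr
  · exact far_LHIII4 D G v2 v3 v5 lv he2 hde0 hde ht hee hr
  · exact (dom_LHIII5 D G v2 he2 hde0 hde ht hee hE hr).elim
  · exact (dom_LHIII6 D G v2 he2 hde0 hde ht hee hE1 hr).elim
  · exact (dom_LHIII7 D G v2 he2 hde0 hde ht hee hb hr).elim

end Pool.Agent.helper71.FJ
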