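import Pool.Agent.helper31.IC.EngD
import Pool.Agent.helper14.QF.Inst

/-!
Generated: straight line program(s) and compiled form(s).
-/

namespace Pool.Agent.helper71.FJ.Crt.LMa

open Pool.Agent.helper31.IA (Z Op)
open Pool.Agent.helper31.IC

set_option maxRecDepth 100000

abbrev opsE : Ops := Pool.Agent.helper14.QF.opsF

def prog0 : List Op := [
  .const ⟨1099511627776, 0, 0, 0⟩,
  .mul 2 3,
  .mul 0 2,
  .mul 5 0,
  .mul 6 6,
  .mul 6 0,
  .mul 3 3,
  .mul 8 1,
  .const ⟨549755813888, 0, 0, 0⟩,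
  .mul 10 5,
  .mul 0 13,
  .scale ⟨549755813888, 0, 0, 0⟩ 0,
  .mul 8 8,
  .mul 1 1,
  .sub 13 0,
  .inv 0,
  .mul 4 0,
  .scale ⟨2199023255552, 0, 0, 0⟩ 0,
  .scale ⟨2199023255552, 0, 0, 0⟩ 2,
  .sub 0 18,
  .add 0 2,
  .mul 24 5,
  .mul 18 0,
  .sub 22 0,
  .add 23 1,
  .mul 26 12,
  .mul 4 4,
  .scale ⟨10774999203840, 0, 0, 0⟩ 15,
  .scale ⟨45768245248, 0, 0, 0⟩ 0,
  .const ⟨183207198720, 0, 0, 0⟩,
  .add 1 0,
  .mul 3 0,
  .add 23 0,
  .mul 5 0,
  .add 33 0,
  .mul 7 0,
  .scale ⟨549755813888, 0, 0, 0⟩ 0,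
  .add 36 0,
  .mul 3 0,
  .mul 21 16,
  .scale ⟨2199023255552, 0, 0, 0⟩ 20,
  .add 1 0,
  .add 0 43,
  .mul 17 0,
  .add 0 43,
  .mul 27 27,
  .scale ⟨2199023255552, 0, 0, 0⟩ 0,
  .add 0 46,
  .mul 28 5,
  .sub 0 48,
  .log 5,
  .scale ⟨549755813888, 0, 0, 0⟩ 0,
  .exp 0,
  .const ⟨3298534883328, 0, 0, 0⟩,
  .inv 0,
  .mul 54 0,
  .const ⟨2199023255552, 0, 0, 0⟩,
  .add 13 0,
  .inv 0,
  .mul 15 0,
  .mul 0 0,
  .sub 60 1,
  .mul 1 6,
  .add 62 0,
  .mul 2 0,
  .mul 4 4,
  .scale ⟨219915747328, 0, 0, 0⟩ 0,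
  .mul 24 2,
  .scale ⟨549755813888, 0, 0, 0⟩ 0,
  .mul 26 2,
  .scale ⟨549755813888, 0, 0, 0⟩ 0,
  .add 2 0,
  .mul 52 22,
  .scale ⟨4398046511104, 0, 0, 0⟩ 0,
  .mul 54 48,
  .mul 0 25,
  .scale ⟨4398046511104, 0, 0, 0⟩ 0,
  .add 0 20,
  .inv 0,
  .mul 2 0,
  .mul 0 0,
  .sub 80 1,
  .mul 1 26,
  .add 82 0,
  .mul 2 0,
  .mul 4 4,
  .scale ⟨219915747328, 0, 0, 0⟩ 0,
  .mul 13 2,
  .scale ⟨549755813888, 0, 0, 0⟩ 0,
  .sub 0 17,
  .mul 16 3,
  .scale ⟨549755813888, 0, 0, 0⟩ 0,
  .add 0 21,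
  .add 3 0,
  .mul 88 25,
  .neg 0,
  .exp 0,
  .mul 91 26,
  .mul 1 0,
  .mul 93 9,
  .neg 0,
  .exp 0,
  .mul 96 9,
  .mul 1 0,
  .mul 81 86,
  .add 85 0,
  .inv 0,
  .mul 82 0,
  .mul 84 109,
  .mul 0 1,
  .sub 109 97,
  .mul 84 0,
  .mul 102 102,
  .sub 112 86,
  .mul 3 0,
  .mul 89 65,
  .inv 71,
  .mul 1 0,
  .add 98 0,
  .mul 74 0,
  .mul 0 0,
  .inv 0,
  .mul 7 0,
  .add 103 97,
  .mul 124 0,
  .inv 0,
  .mul 125 0,
  .mul 0 0,
  .mul 0 13,
  .const ⟨10849087389696, 0, 0, 0⟩,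
  .sub 0 1,
  .pos 0,
  .const ⟨13, 0, 0, 0⟩,
  .const ⟨2295, 0, 0, 0⟩,
  .mul 4 1,
  .sub 1 0,
  .const ⟨302996, 0, 0, 0⟩,
  .mul 7 1,
  .sub 1 0,
  .const ⟨27269633, 0, 0, 0⟩,
  .mul 10 1,
  .sub 1 0,
  .const ⟨1527099484, 0, 0, 0⟩,
  .mul 13 1,
  .sub 1 0,
  .const ⟨45812984490, 0, 0, 0⟩,
  .mul 16 1,
  .sub 1 0,
  .mul 18 0,
  .sub 139 0,
  .mul 20 0,
  .sub 149 0,
  .add 54 150,
  .mul 55 55,
  .add 0 152,
  .mul 57 3,
  .scale ⟨2199023255552, 0, 0, 0⟩ 0,
  .add 2 0,
  .scale ⟨4398046511104, 0, 0, 0⟩ 58,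
  .sub 1 0,
  .inv 7,
  .mul 1 0,
  .add 0 9,
  .mul 65 52,
  .scale ⟨549755813888, 0, 0, 0⟩ 0,
  .mul 0 2,
  .sub 6 0,
  .pos 7,
  .pos 0,
  .sub 165 69,
  .mul 0 15,
  .scale ⟨2199023255552, 0, 0, 0⟩ 69,
  .add 1 0,
  .inv 4,
  .mul 1 0,
  .scale ⟨549755813888, 0, 0, 0⟩ 0,
  .add 0 164,
  .inv 0,
  .mul 2 0,
  .mul 66 0,
  .scale ⟨549755813888, 0, 0, 0⟩ 0,
  .sub 177 0,
  .sub 178 2,
  .inv 0,
  .mul 2 0,
  .add 5 181,
  .mul 86 0,
  .mul 76 2,
  .mul 0 9,
  .mul 9 4,
  .pos 7,
  .mul 163 162,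
  .add 168 189,
  .mul 166 169,
  .mul 0 172,
  .scale ⟨2199023255552, 0, 0, 0⟩ 0,
  .add 144 0,
  .mul 4 0,
  .inv 0,
  .mul 7 0,
  .mul 197 0,
  .pos 107,
  .mul 68 80,
  .sub 68 0,
  .pos 0,
  .mul 1 67,
  .sub 67 0,
  .mul 3 0,
  .sub 66 0,
  .mul 5 0,
  .sub 65 0,
  .mul 7 0,
  .sub 64 0,
  .mul 9 0,
  .sub 63 0,
  .mul 11 0,
  .sub 201 0,
  .mul 13 0,
  .sub 211 0,
  .add 111 212,
  .mul 112 112,
  .add 0 214,
  .mul 114 3,
  .scale ⟨2199023255552, 0, 0, 0⟩ 0,
  .add 2 0,
  .scale ⟨4398046511104, 0, 0, 0⟩ 115,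
  .sub 1 0,
  .inv 7,
  .mul 1 0,
  .add 0 9,
  .mul 122 27,
  .scale ⟨549755813888, 0, 0, 0⟩ 0,
  .mul 0 2,
  .sub 6 0,
  .pos 7,
  .pos 0,
  .sub 227 126,
  .mul 0 15,
  .scale ⟨2199023255552, 0, 0, 0⟩ 126,
  .add 1 0,
  .inv 4,
  .mul 1 0,
  .scale ⟨549755813888, 0, 0, 0⟩ 0,
  .add 0 226,
  .inv 0,
  .mul 2 0,
  .mul 41 0,
  .mul 1 239,
  .add 228 239,
  .inv 0,
  .mul 230 0,
  .scale ⟨2199023255552, 0, 0, 0⟩ 0,
  .sub 243 0,
  .sub 244 233,
  .mul 249 4,
  .mul 0 2,
  .add 223 0,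
  .scale ⟨224412041216, 0, 0, 0⟩ 233,
  .inv 211,
  .mul 1 0,
  .scale ⟨4398046511104, 0, 0, 0⟩ 252,
  .mul 252 231,
  .add 1 0,
  .scale ⟨549755813888, 0, 0, 0⟩ 0,
  .inv 0,
  .mul 256 0,
  .mul 258 1,
  .mul 0 234,
  .mul 0 8,
  .mul 3 236,
  .mul 0 10,
  .sub 262 0,
  .inv 0,
  .mul 81 2,
  .sub 265 0,
  .inv 0,
  .scale ⟨2199023255552, 0, 0, 0⟩ 261,
  .add 0 268,
  .add 263 269,
  .scale ⟨3573412790272, 0, 0, 0⟩ 248,
  .const ⟨339302416384, 0, 0, 0⟩,
  .add 1 0,
  .scale ⟨549755813888, 0, 0, 0⟩ 0,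
  .mul 263 253,
  .sub 275 164,
  .mul 265 254,
  .scale ⟨2199023255552, 0, 0, 0⟩ 0,
  .sub 2 0,
  .mul 4 4,
  .add 1 0,
  .add 0 281,
  .scale ⟨549755813888, 0, 0, 0⟩ 0,
  .scale ⟨549755813888, 0, 0, 0⟩ 258,
  .sub 269 0,
  .mul 173 9,
  .mul 0 272,
  .scale ⟨137438953472, 0, 0, 0⟩ 0,
  .add 3 0,
  .mul 6 0,
  .const ⟨1, 0, 0, 0⟩,
  .const ⟨12, 0, 0, 0⟩,
  .mul 164 1,
  .sub 1 0,
  .const ⟨2296, 0, 0, 0⟩,
  .mul 167 1,
  .sub 1 0,
  .const ⟨302995, 0, 0, 0⟩,
  .mul 170 1,
  .sub 1 0,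
  .const ⟨27269634, 0, 0, 0⟩,
  .mul 173 1,
  .sub 1 0,
  .const ⟨1527099483, 0, 0, 0⟩,
  .mul 176 1,
  .sub 1 0,
  .const ⟨45812984491, 0, 0, 0⟩,
  .mul 179 1,
  .sub 1 0,
  .mul 181 0,
  .sub 302 0,
  .mul 183 0,
  .sub 312 0,
  .mul 185 307,
  .mul 0 0,
  .scale ⟨369367187456, 0, 0, 0⟩ 0,
  .add 3 0,
  .mul 221 0,
  .scale ⟨2199023255552, 0, 0, 0⟩ 0,
  .add 166 0,
  .add 0 152,
  .const ⟨8589934592, 0, 0, 0⟩,
  .add 1 0,
  .log 0,
  .scale ⟨549755813888, 0, 0, 0⟩ 0,
  .exp 0,
  .mul 230 150,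
  .add 1 0,
  .mul 0 64,
  .mul 146 62,
  .add 1 0,
  .mul 69 0,
  .add 146 0,
  .mul 0 327,
  .mul 6 72,
  .mul 0 71,
  .add 150 0,
  .mul 0 331,
  .scale ⟨223338299392, 0, 0, 0⟩ 0,
  .add 331 0,
  .mul 2 0,
  .add 341 0,
  .scale ⟨893353197568, 0, 0, 0⟩ 8,
  .add 343 0,
  .mul 10 0,
  .add 345 0,
  .mul 103 100,
  .mul 0 78,
  .mul 0 2,
  .mul 59 7,
  .add 298 342,
  .mul 2 0,
  .add 2 0,
  .add 301 353,
  .mul 5 0,
  .mul 85 1,
  .mul 0 110,
  .mul 0 112,
  .mul 5 173,
  .mul 1 85,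
  .add 1 0,
  .mul 356 113,
  .inv 310,
  .mul 1 0,
  .scale ⟨549755813888, 0, 0, 0⟩ 0,
  .mul 342 0,
  .add 0 5,
  .mul 369 0,
  .mul 369 0,
  .mul 16 41,
  .mul 0 106,
  .mul 16 188,
  .mul 0 105,
  .add 2 0,
  .mul 351 5,
  .mul 115 1,
  .add 1 0,
  .mul 265 0,
  .mul 0 15,
  .sub 379 0,
  .inv 0,
  .mul 4 0,
  .mul 384 0,
  .mul 271 1,
  .mul 0 21,
  .sub 385 0,
  .mul 337 0,
  .sub 0 4,
  .inv 0,
  .mul 6 0,
  .sub 338 6,
  .inv 0,
  .mul 2 155,
  .scale ⟨549755813888, 0, 0, 0⟩ 0,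
  .sub 394 0,
  .sub 395 2,
  .inv 0,
  .mul 2 0,
  .mul 395 6,
  .mul 160 10,
  .mul 0 2,
  .add 2 0,
  .mul 395 20,
  .mul 11 0,
  .mul 167 15,
  .mul 0 7,
  .mul 0 23,
  .add 3 0,
  .scale ⟨223338299392, 0, 0, 0⟩ 0,
  .add 401 0,
  .mul 2 0,
  .add 411 0,
  .mul 10 0,
  .mul 0 32,
  .mul 0 40,
  .mul 154 392,
  .const ⟨5497558138880, 0, 0, 0⟩,
  .inv 0,
  .mul 365 0,
  .mul 179 395,
  .mul 0 1,
  .mul 233 315,
  .mul 400 0,
  .scale ⟨549755813888, 0, 0, 0⟩ 185,
  .sub 424 0,
  .sub 425 187,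
  .inv 0,
  .mul 2 0,
  .mul 0 232,
  .mul 317 307,
  .scale ⟨733097230336, 0, 0, 0⟩ 0,
  .sub 431 0,
  .mul 310 0,
  .mul 344 344,
  .mul 422 0,
  .add 2 0,
  .mul 7 197,
  .add 1 437,
  .mul 1 0,
  .sub 3 0,
  .scale ⟨366548615168, 0, 0, 0⟩ 395,
  .sub 441 0,
  .mul 416 0,
  .add 3 0,
  .mul 22 0,
  .mul 22 22,
  .add 446 0,
  .inv 0,
  .mul 3 0,
  .sub 449 59,
  .mul 0 1,
  .sub 451 14,
  .pos 0,
  .pos 3,
  .pos 2,
  .mul 38 197,
  .mul 0 86,
  .inv 430,
  .mul 1 0,
  .mul 452 5,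
  .mul 459 0,
  .scale ⟨549755813888, 0, 0, 0⟩ 0,
  .sub 459 0,
  .mul 3 0,
  .neg 0,
  .mul 459 466,
  .mul 0 223,
  .mul 0 449,
  .mul 465 0,
  .add 4 0,
  .mul 5 1,
  .mul 470 0,
  .add 2 0,
  .mul 458 428,
  .scale ⟨412316860416, 0, 0, 0⟩ 428,
  .sub 464 0,
  .mul 2 0,
  .mul 474 0,
  .neg 0,
  .add 6 0,
  .mul 7 1,
  .mul 480 0,
  .add 2 0,
  .mul 477 98,
  .mul 0 26,
  .mul 482 0,
  .add 3 0,
  .mul 4 1,
  .mul 487 0,
  .add 2 0,
  .mul 487 66,
  .sub 1 0,
  .mul 491 68,
  .add 490 0,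
  .inv 0,
  .mul 3 0,
  .mul 490 484,
  .mul 0 112,
  .mul 0 103,
  .mul 496 0,
  .add 4 0,
  .mul 5 1,
  .mul 501 0,
  .add 2 0,
  .mul 503 0,
  .add 502 0,
  .mul 88 241,
  .mul 506 88,
  .mul 49 0,
  .add 2 0,
  .mul 507 0,
  .add 93 52,
  .mul 509 0,
  .mul 2 7,
  .add 10 0,
  .add 0 2,
  .neg 0,
  .scale ⟨1073741824, 0, 0, 0⟩ 514,
  .sub 1 0,
  .sub 496 516,
  .add 0 461,
  .scale ⟨2199023255552, 0, 0, 0⟩ 99,
  .sub 1 0,
  .mul 280 0,
  .mul 4 2,
  .add 0 522,
  .inv 0,
  .mul 3 0,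
  .mul 267 151,
  .scale ⟨549755813888, 0, 0, 0⟩ 275,
  .add 510 0,
  .mul 2 0,
  .scale ⟨2199023255552, 0, 0, 0⟩ 0,
  .add 161 0,
  .scale ⟨2199023255552, 0, 0, 0⟩ 0,
  .mul 0 151,
  .mul 524 151,
  .sub 510 0,
  .inv 0,
  .mul 3 0,
  .sub 12 0,
  .mul 285 285,
  .const ⟨14293651161088, 0, 0, 0⟩,
  .const ⟨10995116277760, 0, 0, 0⟩,
  .inv 0,
  .mul 2 0,
  .mul 4 0,
  .mul 545 545,
  .scale ⟨27487790694400, 0, 0, 0⟩ 0,
  .add 2 0,
  .mul 126 55,
  .sub 508 550,
  .sub 0 510,
  .mul 550 547,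
  .mul 0 552,
  .mul 528 178,
  .mul 0 297,
  .add 193 0,
  .add 21 499,
  .mul 556 0,
  .mul 10 9,
  .mul 177 1,
  .mul 7 4,
  .mul 1 0,
  .sub 3 0,
  .scale ⟨549755813888, 0, 0, 0⟩ 28,
  .add 563 0,
  .mul 183 0,
  .mul 567 542,
  .mul 0 318,
  .mul 543 515,
  .inv 0,
  .mul 2 0,
  .mul 5 0,
  .sub 21 0,
  .mul 321 10,
  .sub 573 322,
  .mul 562 2,
  .mul 1 0,
  .mul 29 0,
  .add 4 0,
  .pos 315,
  .pos 312,
  .scale ⟨2199023255552, 0, 0, 0⟩ 200,
  .sub 527 0,
  .pos 0,
  .pos 192,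
  .sub 572 342,
  .pos 0,
  .scale ⟨687194767360, 0, 0, 0⟩ 581,
  .sub 0 244,
  .pos 0,
  .scale ⟨377957122048, 0, 0, 0⟩ 583,
  .sub 0 250,
  .pos 0,
  .pos 50,
  .pos 189,
  .sub 3 177,
  .pos 0,
  .pos 48,
  .pos 70,
  .pos 8,
  .pos 14]

def chk0 {α : Type} (cst : Z → α) (add sub mul : α → α → α) (scale : Z → α → α)
    (neg inv exp log : α → α) (ok : α → Bool) (isPos : Nat → α → Bool) (isLt : α → Nat → Bool) :
    List α → Bool
  | [x0, x1, x2, x3] =>
  let v0 := cst ⟨1099511627776, 0, 0, 0⟩; ok v0 && (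
  let v1 := mul x1 x2; ok v1 && (
  let v2 := mul v1 x0; ok v2 && (
  let v3 := mul x2 v2; ok v3 && (
  let v4 := mul x2 x2; ok v4 && (
  let v5 := mul x1 v4; ok v5 && (
  let v6 := mul v2 v2; ok v6 && (
  let v7 := mul x1 v5; ok v7 && (
  let v8 := cst ⟨549755813888, 0, 0, 0⟩; ok v8 && (
  let v9 := mul x1 v3; ok v9 && (
  let v10 := mul v9 x3; ok v10 && (
  let v11 := scale ⟨549755813888, 0, 0, 0⟩ v10; ok v11 && (
  let v12 := mul v3 v3; ok v12 && (
  let v13 := mul v11 v11; ok v13 && (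
  let v14 := sub v0 v13; ok v14 && (
  let v15 := inv v14; ok v15 && (
  let v16 := mul v11 v15; ok v16 && (
  let v17 := scale ⟨2199023255552, 0, 0, 0⟩ v16; ok v17 && (
  let v18 := scale ⟨2199023255552, 0, 0, 0⟩ v15; ok v18 && (
  let v19 := sub v18 v0; ok v19 && (
  let v20 := add v19 v17; ok v20 && (
  let v21 := mul x3 v15; ok v21 && (
  let v22 := mul v3 v21; ok v22 && (
  let v23 := sub v0 v22; ok v23 && (
  let v24 := add v0 v22; ok v24 && (
  let v25 := mul x1 v12; ok v25 && (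
  let v26 := mul v21 v21; ok v26 && (
  let v27 := scale ⟨10774999203840, 0, 0, 0⟩ v11; ok v27 && (
  let v28 := scale ⟨45768245248, 0, 0, 0⟩ v27; ok v28 && (
  let v29 := cst ⟨183207198720, 0, 0, 0⟩; ok v29 && (
  let v30 := add v28 v29; ok v30 && (
  let v31 := mul v27 v30; ok v31 && (
  let v32 := add v8 v31; ok v32 && (
  let v33 := mul v27 v32; ok v33 && (
  let v34 := add v0 v33; ok v34 && (
  let v35 := mul v27 v34; ok v35 && (
  let v36 := scale ⟨549755813888, 0, 0, 0⟩ v35; ok v36 && (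
  let v37 := add v0 v36; ok v37 && (
  let v38 := mul v34 v37; ok v38 && (
  let v39 := mul v17 v22; ok v39 && (
  let v40 := scale ⟨2199023255552, 0, 0, 0⟩ v19; ok v40 && (
  let v41 := add v39 v40; ok v41 && (
  let v42 := add v41 x1; ok v42 && (
  let v43 := mul v25 v42; ok v43 && (
  let v44 := add v43 v0; ok v44 && (
  let v45 := mul v17 v17; ok v45 && (
  let v46 := scale ⟨2199023255552, 0, 0, 0⟩ v45; ok v46 && (
  let v47 := add v46 v0; ok v47 && (
  let v48 := mul v19 v42; ok v48 && (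
  let v49 := sub v48 v0; ok v49 && (
  let v50 := log v44; ok v50 && (
  let v51 := scale ⟨549755813888, 0, 0, 0⟩ v50; ok v51 && (
  let v52 := exp v51; ok v52 && (
  let v53 := cst ⟨3298534883328, 0, 0, 0⟩; ok v53 && (
  let v54 := inv v53; ok v54 && (
  let v55 := mul v0 v54; ok v55 && (
  let v56 := cst ⟨2199023255552, 0, 0, 0⟩; ok v56 && (
  let v57 := add v43 v56; ok v57 && (
  let v58 := inv v57; ok v58 && (
  let v59 := mul v43 v58; ok v59 && (
  let v60 := mul v59 v59; ok v60 && (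
  let v61 := sub v0 v59; ok v61 && (
  let v62 := mul v60 v55; ok v62 && (
  let v63 := add v0 v62; ok v63 && (
  let v64 := mul v61 v63; ok v64 && (
  let v65 := mul v60 v60; ok v65 && (
  let v66 := scale ⟨219915747328, 0, 0, 0⟩ v65; ok v66 && (
  let v67 := mul v42 v64; ok v67 && (
  let v68 := scale ⟨549755813888, 0, 0, 0⟩ v67; ok v68 && (
  let v69 := mul v42 v66; ok v69 && (
  let v70 := scale ⟨549755813888, 0, 0, 0⟩ v69; ok v70 && (
  let v71 := add v68 v70; ok v71 && (
  let v72 := mul v19 v49; ok v72 && (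
  let v73 := scale ⟨4398046511104, 0, 0, 0⟩ v72; ok v73 && (
  let v74 := mul v19 v25; ok v74 && (
  let v75 := mul v74 v49; ok v75 && (
  let v76 := scale ⟨4398046511104, 0, 0, 0⟩ v75; ok v76 && (
  let v77 := add v76 v56; ok v77 && (
  let v78 := inv v77; ok v78 && (
  let v79 := mul v76 v78; ok v79 && (
  let v80 := mul v79 v79; ok v80 && (
  let v81 := sub v0 v79; ok v81 && (
  let v82 := mul v80 v55; ok v82 && (
  let v83 := add v0 v82; ok v83 && (
  let v84 := mul v81 v83; ok v84 && (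
  let v85 := mul v80 v80; ok v85 && (
  let v86 := scale ⟨219915747328, 0, 0, 0⟩ v85; ok v86 && (
  let v87 := mul v73 v84; ok v87 && (
  let v88 := scale ⟨549755813888, 0, 0, 0⟩ v87; ok v88 && (
  let v89 := sub v88 v71; ok v89 && (
  let v90 := mul v73 v86; ok v90 && (
  let v91 := scale ⟨549755813888, 0, 0, 0⟩ v90; ok v91 && (
  let v92 := add v91 v70; ok v92 && (
  let v93 := add v89 v92; ok v93 && (
  let v94 := mul v5 v68; ok v94 && (
  let v95 := neg v94; ok v95 && (
  let v96 := exp v95; ok v96 && (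
  let v97 := mul v5 v70; ok v97 && (
  let v98 := mul v96 v97; ok v98 && (
  let v99 := mul v5 v89; ok v99 && (
  let v100 := neg v99; ok v100 && (
  let v101 := exp v100; ok v101 && (
  let v102 := mul v5 v92; ok v102 && (
  let v103 := mul v101 v102; ok v103 && (
  let v104 := mul v22 v17; ok v104 && (
  let v105 := add v19 v104; ok v105 && (
  let v106 := inv v105; ok v106 && (
  let v107 := mul v24 v106; ok v107 && (
  let v108 := mul v23 x1; ok v108 && (
  let v109 := mul v108 v107; ok v109 && (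
  let v110 := sub v0 v12; ok v110 && (
  let v111 := mul v26 v110; ok v111 && (
  let v112 := mul v9 v9; ok v112 && (
  let v113 := sub v0 v26; ok v113 && (
  let v114 := mul v110 v113; ok v114 && (
  let v115 := mul v25 v49; ok v115 && (
  let v116 := inv v44; ok v116 && (
  let v117 := mul v115 v116; ok v117 && (
  let v118 := add v19 v117; ok v118 && (
  let v119 := mul v44 v118; ok v119 && (
  let v120 := mul v119 v119; ok v120 && (
  let v121 := inv v120; ok v121 && (
  let v122 := mul v114 v121; ok v122 && (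
  let v123 := add v19 v25; ok v123 && (
  let v124 := mul x0 v123; ok v124 && (
  let v125 := inv v124; ok v125 && (
  let v126 := mul v0 v125; ok v126 && (
  let v127 := mul v126 v126; ok v127 && (
  let v128 := mul v127 v114; ok v128 && (
  let v129 := cst ⟨10849087389696, 0, 0, 0⟩; ok v129 && (
  let v130 := sub v129 v128; ok v130 && (
  isPos 4 v130 && (
  let v131 := cst ⟨13, 0, 0, 0⟩; ok v131 && (
  let v132 := cst ⟨2295, 0, 0, 0⟩; ok v132 && (
  let v133 := mul v128 v131; ok v133 && (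
  let v134 := sub v132 v133; ok v134 && (
  let v135 := cst ⟨302996, 0, 0, 0⟩; ok v135 && (
  let v136 := mul v128 v134; ok v136 && (
  let v137 := sub v135 v136; ok v137 && (
  let v138 := cst ⟨27269633, 0, 0, 0⟩; ok v138 && (
  let v139 := mul v128 v137; ok v139 && (
  let v140 := sub v138 v139; ok v140 && (
  let v141 := cst ⟨1527099484, 0, 0, 0⟩; ok v141 && (
  let v142 := mul v128 v140; ok v142 && (
  let v143 := sub v141 v142; ok v143 && (
  let v144 := cst ⟨45812984490, 0, 0, 0⟩; ok v144 && (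
  let v145 := mul v128 v143; ok v145 && (
  let v146 := sub v144 v145; ok v146 && (
  let v147 := mul v128 v146; ok v147 && (
  let v148 := sub v8 v147; ok v148 && (
  let v149 := mul v128 v148; ok v149 && (
  let v150 := sub v0 v149; ok v150 && (
  let v151 := add v96 v0; ok v151 && (
  let v152 := mul v96 v96; ok v152 && (
  let v153 := add v152 v0; ok v153 && (
  let v154 := mul v96 v150; ok v154 && (
  let v155 := scale ⟨2199023255552, 0, 0, 0⟩ v154; ok v155 && (
  let v156 := add v153 v155; ok v156 && (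
  let v157 := scale ⟨4398046511104, 0, 0, 0⟩ v98; ok v157 && (
  let v158 := sub v156 v157; ok v158 && (
  let v159 := inv v151; ok v159 && (
  let v160 := mul v158 v159; ok v160 && (
  let v161 := add v160 v151; ok v161 && (
  let v162 := mul v96 v109; ok v162 && (
  let v163 := scale ⟨549755813888, 0, 0, 0⟩ v162; ok v163 && (
  let v164 := mul v163 v161; ok v164 && (
  let v165 := sub v158 v164; ok v165 && (
  isPos 4 v158 && (
  isPos 4 v165 && (
  let v166 := sub v0 v96; ok v166 && (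
  let v167 := mul v166 v151; ok v167 && (
  let v168 := scale ⟨2199023255552, 0, 0, 0⟩ v98; ok v168 && (
  let v169 := add v167 v168; ok v169 && (
  let v170 := inv v165; ok v170 && (
  let v171 := mul v169 v170; ok v171 && (
  let v172 := scale ⟨549755813888, 0, 0, 0⟩ v171; ok v172 && (
  let v173 := add v172 v8; ok v173 && (
  let v174 := inv v173; ok v174 && (
  let v175 := mul v172 v174; ok v175 && (
  let v176 := mul v109 v175; ok v176 && (
  let v177 := scale ⟨549755813888, 0, 0, 0⟩ v176; ok v177 && (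
  let v178 := sub v0 v177; ok v178 && (
  let v179 := sub v0 v176; ok v179 && (
  let v180 := inv v179; ok v180 && (
  let v181 := mul v178 v180; ok v181 && (
  let v182 := add v176 v0; ok v182 && (
  let v183 := mul v96 v182; ok v183 && (
  let v184 := mul v107 v181; ok v184 && (
  let v185 := mul v184 v175; ok v185 && (
  let v186 := mul v176 v181; ok v186 && (
  isPos 4 v179 && (
  let v187 := mul v23 v24; ok v187 && (
  let v188 := add v19 x1; ok v188 && (
  let v189 := mul v22 v19; ok v189 && (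
  let v190 := mul v189 v17; ok v190 && (
  let v191 := scale ⟨2199023255552, 0, 0, 0⟩ v190; ok v191 && (
  let v192 := add v47 v191; ok v192 && (
  let v193 := mul v188 v192; ok v193 && (
  let v194 := inv v193; ok v194 && (
  let v195 := mul v187 v194; ok v195 && (
  let v196 := mul x1 v195; ok v196 && (
  isPos 4 v89 && (
  let v197 := mul v128 v116; ok v197 && (
  let v198 := sub v129 v197; ok v198 && (
  isPos 4 v198 && (
  let v199 := mul v197 v131; ok v199 && (
  let v200 := sub v132 v199; ok v200 && (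
  let v201 := mul v197 v200; ok v201 && (
  let v202 := sub v135 v201; ok v202 && (
  let v203 := mul v197 v202; ok v203 && (
  let v204 := sub v138 v203; ok v204 && (
  let v205 := mul v197 v204; ok v205 && (
  let v206 := sub v141 v205; ok v206 && (
  let v207 := mul v197 v206; ok v207 && (
  let v208 := sub v144 v207; ok v208 && (
  let v209 := mul v197 v208; ok v209 && (
  let v210 := sub v8 v209; ok v210 && (
  let v211 := mul v197 v210; ok v211 && (
  let v212 := sub v0 v211; ok v212 && (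
  let v213 := add v101 v0; ok v213 && (
  let v214 := mul v101 v101; ok v214 && (
  let v215 := add v214 v0; ok v215 && (
  let v216 := mul v101 v212; ok v216 && (
  let v217 := scale ⟨2199023255552, 0, 0, 0⟩ v216; ok v217 && (
  let v218 := add v215 v217; ok v218 && (
  let v219 := scale ⟨4398046511104, 0, 0, 0⟩ v103; ok v219 && (
  let v220 := sub v218 v219; ok v220 && (
  let v221 := inv v213; ok v221 && (
  let v222 := mul v220 v221; ok v222 && (
  let v223 := add v222 v213; ok v223 && (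
  let v224 := mul v101 v196; ok v224 && (
  let v225 := scale ⟨549755813888, 0, 0, 0⟩ v224; ok v225 && (
  let v226 := mul v225 v223; ok v226 && (
  let v227 := sub v220 v226; ok v227 && (
  isPos 4 v220 && (
  isPos 4 v227 && (
  let v228 := sub v0 v101; ok v228 && (
  let v229 := mul v228 v213; ok v229 && (
  let v230 := scale ⟨2199023255552, 0, 0, 0⟩ v103; ok v230 && (
  let v231 := add v229 v230; ok v231 && (
  let v232 := inv v227; ok v232 && (
  let v233 := mul v231 v232; ok v233 && (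
  let v234 := scale ⟨549755813888, 0, 0, 0⟩ v233; ok v234 && (
  let v235 := add v234 v8; ok v235 && (
  let v236 := inv v235; ok v236 && (
  let v237 := mul v234 v236; ok v237 && (
  let v238 := mul v196 v237; ok v238 && (
  let v239 := mul v237 x0; ok v239 && (
  let v240 := add v11 v0; ok v240 && (
  let v241 := inv v240; ok v241 && (
  let v242 := mul v11 v241; ok v242 && (
  let v243 := scale ⟨2199023255552, 0, 0, 0⟩ v242; ok v243 && (
  let v244 := sub v0 v243; ok v244 && (
  let v245 := sub v0 v11; ok v245 && (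
  let v246 := mul x3 v241; ok v246 && (
  let v247 := mul v246 v244; ok v247 && (
  let v248 := add v24 v247; ok v248 && (
  let v249 := scale ⟨224412041216, 0, 0, 0⟩ v15; ok v249 && (
  let v250 := inv v38; ok v250 && (
  let v251 := mul v249 v250; ok v251 && (
  let v252 := scale ⟨4398046511104, 0, 0, 0⟩ x0; ok v252 && (
  let v253 := mul v0 v21; ok v253 && (
  let v254 := add v252 v253; ok v254 && (
  let v255 := scale ⟨549755813888, 0, 0, 0⟩ v254; ok v255 && (
  let v256 := inv v255; ok v256 && (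
  let v257 := mul v0 v256; ok v257 && (
  let v258 := mul x0 v256; ok v258 && (
  let v259 := mul v258 v24; ok v259 && (
  let v260 := mul v259 v251; ok v260 && (
  let v261 := mul v257 v24; ok v261 && (
  let v262 := mul v261 v251; ok v262 && (
  let v263 := sub v0 v262; ok v263 && (
  let v264 := inv v263; ok v264 && (
  let v265 := mul v183 v262; ok v265 && (
  let v266 := sub v0 v265; ok v266 && (
  let v267 := inv v266; ok v267 && (
  let v268 := scale ⟨2199023255552, 0, 0, 0⟩ v6; ok v268 && (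
  let v269 := add v268 v0; ok v269 && (
  let v270 := add v6 v0; ok v270 && (
  let v271 := scale ⟨3573412790272, 0, 0, 0⟩ v22; ok v271 && (
  let v272 := cst ⟨339302416384, 0, 0, 0⟩; ok v272 && (
  let v273 := add v271 v272; ok v273 && (
  let v274 := scale ⟨549755813888, 0, 0, 0⟩ v273; ok v274 && (
  let v275 := mul v11 v21; ok v275 && (
  let v276 := sub v0 v111; ok v276 && (
  let v277 := mul v11 v22; ok v277 && (
  let v278 := scale ⟨2199023255552, 0, 0, 0⟩ v277; ok v278 && (
  let v279 := sub v276 v278; ok v279 && (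
  let v280 := mul v275 v275; ok v280 && (
  let v281 := add v279 v280; ok v281 && (
  let v282 := add v281 v0; ok v282 && (
  let v283 := scale ⟨549755813888, 0, 0, 0⟩ v282; ok v283 && (
  let v284 := scale ⟨549755813888, 0, 0, 0⟩ v25; ok v284 && (
  let v285 := sub v15 v284; ok v285 && (
  let v286 := mul v112 v276; ok v286 && (
  let v287 := mul v286 v14; ok v287 && (
  let v288 := scale ⟨137438953472, 0, 0, 0⟩ v287; ok v288 && (
  let v289 := add v285 v288; ok v289 && (
  let v290 := mul v283 v289; ok v290 && (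
  let v291 := cst ⟨1, 0, 0, 0⟩; ok v291 && (
  let v292 := cst ⟨12, 0, 0, 0⟩; ok v292 && (
  let v293 := mul v128 v291; ok v293 && (
  let v294 := sub v292 v293; ok v294 && (
  let v295 := cst ⟨2296, 0, 0, 0⟩; ok v295 && (
  let v296 := mul v128 v294; ok v296 && (
  let v297 := sub v295 v296; ok v297 && (
  let v298 := cst ⟨302995, 0, 0, 0⟩; ok v298 && (
  let v299 := mul v128 v297; ok v299 && (
  let v300 := sub v298 v299; ok v300 && (
  let v301 := cst ⟨27269634, 0, 0, 0⟩; ok v301 && (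
  let v302 := mul v128 v300; ok v302 && (
  let v303 := sub v301 v302; ok v303 && (
  let v304 := cst ⟨1527099483, 0, 0, 0⟩; ok v304 && (
  let v305 := mul v128 v303; ok v305 && (
  let v306 := sub v304 v305; ok v306 && (
  let v307 := cst ⟨45812984491, 0, 0, 0⟩; ok v307 && (
  let v308 := mul v128 v306; ok v308 && (
  let v309 := sub v307 v308; ok v309 && (
  let v310 := mul v128 v309; ok v310 && (
  let v311 := sub v8 v310; ok v311 && (
  let v312 := mul v128 v311; ok v312 && (
  let v313 := sub v0 v312; ok v313 && (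
  let v314 := mul v128 v6; ok v314 && (
  let v315 := mul v314 v314; ok v315 && (
  let v316 := scale ⟨369367187456, 0, 0, 0⟩ v315; ok v316 && (
  let v317 := add v313 v316; ok v317 && (
  let v318 := mul v96 v317; ok v318 && (
  let v319 := scale ⟨2199023255552, 0, 0, 0⟩ v318; ok v319 && (
  let v320 := add v153 v319; ok v320 && (
  let v321 := add v320 v168; ok v321 && (
  let v322 := cst ⟨8589934592, 0, 0, 0⟩; ok v322 && (
  let v323 := add v321 v322; ok v323 && (
  let v324 := log v323; ok v324 && (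
  let v325 := scale ⟨549755813888, 0, 0, 0⟩ v324; ok v325 && (
  let v326 := exp v325; ok v326 && (
  let v327 := mul v96 v176; ok v327 && (
  let v328 := add v326 v327; ok v328 && (
  let v329 := mul v328 v264; ok v329 && (
  let v330 := mul v183 v267; ok v330 && (
  let v331 := add v329 v330; ok v331 && (
  let v332 := mul v262 v331; ok v332 && (
  let v333 := add v186 v332; ok v333 && (
  let v334 := mul v333 v6; ok v334 && (
  let v335 := mul v328 v262; ok v335 && (
  let v336 := mul v335 v264; ok v336 && (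
  let v337 := add v186 v336; ok v337 && (
  let v338 := mul v337 v6; ok v338 && (
  let v339 := scale ⟨223338299392, 0, 0, 0⟩ v338; ok v339 && (
  let v340 := add v8 v339; ok v340 && (
  let v341 := mul v338 v340; ok v341 && (
  let v342 := add v0 v341; ok v342 && (
  let v343 := scale ⟨893353197568, 0, 0, 0⟩ v334; ok v343 && (
  let v344 := add v0 v343; ok v344 && (
  let v345 := mul v334 v344; ok v345 && (
  let v346 := add v0 v345; ok v346 && (
  let v347 := mul v243 v246; ok v347 && (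
  let v348 := mul v347 v269; ok v348 && (
  let v349 := mul v348 v346; ok v349 && (
  let v350 := mul v290 v342; ok v350 && (
  let v351 := add v52 v8; ok v351 && (
  let v352 := mul v349 v351; ok v352 && (
  let v353 := add v350 v352; ok v353 && (
  let v354 := add v52 v0; ok v354 && (
  let v355 := mul v349 v354; ok v355 && (
  let v356 := mul v270 v354; ok v356 && (
  let v357 := mul v356 v246; ok v357 && (
  let v358 := mul v357 v245; ok v358 && (
  let v359 := mul v353 v185; ok v359 && (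
  let v360 := mul v358 v274; ok v360 && (
  let v361 := add v359 v360; ok v361 && (
  let v362 := mul v5 v248; ok v362 && (
  let v363 := inv v52; ok v363 && (
  let v364 := mul v362 v363; ok v364 && (
  let v365 := scale ⟨549755813888, 0, 0, 0⟩ v364; ok v365 && (
  let v366 := mul v23 v365; ok v366 && (
  let v367 := add v366 v361; ok v367 && (
  let v368 := mul x1 v367; ok v368 && (
  let v369 := mul x0 v368; ok v369 && (
  let v370 := mul v353 v328; ok v370 && (
  let v371 := mul v370 v264; ok v371 && (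
  let v372 := mul v355 v183; ok v372 && (
  let v373 := mul v372 v267; ok v373 && (
  let v374 := add v371 v373; ok v374 && (
  let v375 := mul v23 v369; ok v375 && (
  let v376 := mul v260 v374; ok v376 && (
  let v377 := add v375 v376; ok v377 && (
  let v378 := mul v112 v377; ok v378 && (
  let v379 := mul v378 v363; ok v379 && (
  let v380 := sub v0 v379; ok v380 && (
  let v381 := inv v380; ok v381 && (
  let v382 := mul v377 v381; ok v382 && (
  let v383 := mul x1 v382; ok v383 && (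
  let v384 := mul v112 v382; ok v384 && (
  let v385 := mul v384 v363; ok v385 && (
  let v386 := sub v0 v385; ok v386 && (
  let v387 := mul v49 v386; ok v387 && (
  let v388 := sub v387 v383; ok v388 && (
  let v389 := inv v388; ok v389 && (
  let v390 := mul v383 v389; ok v390 && (
  let v391 := sub v52 v384; ok v391 && (
  let v392 := inv v391; ok v392 && (
  let v393 := mul v390 v237; ok v393 && (
  let v394 := scale ⟨549755813888, 0, 0, 0⟩ v393; ok v394 && (
  let v395 := sub v0 v394; ok v395 && (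
  let v396 := sub v0 v393; ok v396 && (
  let v397 := inv v396; ok v397 && (
  let v398 := mul v395 v397; ok v398 && (
  let v399 := mul v3 v392; ok v399 && (
  let v400 := mul v239 v389; ok v400 && (
  let v401 := mul v400 v398; ok v401 && (
  let v402 := add v399 v401; ok v402 && (
  let v403 := mul v7 v382; ok v403 && (
  let v404 := mul v392 v403; ok v404 && (
  let v405 := mul v237 v389; ok v405 && (
  let v406 := mul v405 v398; ok v406 && (
  let v407 := mul v406 v383; ok v407 && (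
  let v408 := add v404 v407; ok v408 && (
  let v409 := scale ⟨223338299392, 0, 0, 0⟩ v408; ok v409 && (
  let v410 := add v8 v409; ok v410 && (
  let v411 := mul v408 v410; ok v411 && (
  let v412 := add v0 v411; ok v412 && (
  let v413 := mul v402 v412; ok v413 && (
  let v414 := mul v413 v381; ok v414 && (
  let v415 := mul v414 v374; ok v415 && (
  let v416 := mul v261 v23; ok v416 && (
  let v417 := cst ⟨5497558138880, 0, 0, 0⟩; ok v417 && (
  let v418 := inv v417; ok v418 && (
  let v419 := mul v53 v418; ok v419 && (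
  let v420 := mul v240 v24; ok v420 && (
  let v421 := mul v420 v419; ok v421 && (
  let v422 := mul v188 v106; ok v422 && (
  let v423 := mul v22 v422; ok v423 && (
  let v424 := scale ⟨549755813888, 0, 0, 0⟩ v238; ok v424 && (
  let v425 := sub v0 v424; ok v425 && (
  let v426 := sub v0 v238; ok v426 && (
  let v427 := inv v426; ok v427 && (
  let v428 := mul v425 v427; ok v428 && (
  let v429 := mul v428 v196; ok v429 && (
  let v430 := mul v112 v122; ok v430 && (
  let v431 := scale ⟨733097230336, 0, 0, 0⟩ v430; ok v431 && (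
  let v432 := sub v0 v431; ok v432 && (
  let v433 := mul v122 v432; ok v433 && (
  let v434 := mul v89 v89; ok v434 && (
  let v435 := mul v12 v434; ok v435 && (
  let v436 := add v433 v435; ok v436 && (
  let v437 := mul v429 v239; ok v437 && (
  let v438 := add v436 v0; ok v438 && (
  let v439 := mul v437 v438; ok v439 && (
  let v440 := sub v436 v439; ok v440 && (
  let v441 := scale ⟨366548615168, 0, 0, 0⟩ v45; ok v441 && (
  let v442 := sub v0 v441; ok v442 && (
  let v443 := mul v26 v442; ok v443 && (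
  let v444 := add v440 v443; ok v444 && (
  let v445 := mul v422 v444; ok v445 && (
  let v446 := mul v423 v423; ok v446 && (
  let v447 := add v0 v446; ok v447 && (
  let v448 := inv v447; ok v448 && (
  let v449 := mul v445 v448; ok v449 && (
  let v450 := sub v0 v390; ok v450 && (
  let v451 := mul v450 v449; ok v451 && (
  let v452 := sub v0 v437; ok v452 && (
  isPos 4 v452 && (
  isPos 4 v449 && (
  isPos 4 v450 && (
  let v453 := mul v414 v255; ok v453 && (
  let v454 := mul v453 v367; ok v454 && (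
  let v455 := inv v24; ok v455 && (
  let v456 := mul v454 v455; ok v456 && (
  let v457 := mul v4 v451; ok v457 && (
  let v458 := mul x1 v457; ok v458 && (
  let v459 := scale ⟨549755813888, 0, 0, 0⟩ v458; ok v459 && (
  let v460 := sub v0 v459; ok v460 && (
  let v461 := mul v457 v460; ok v461 && (
  let v462 := neg v461; ok v462 && (
  let v463 := mul v3 x3; ok v463 && (
  let v464 := mul v463 v240; ok v464 && (
  let v465 := mul v464 v15; ok v465 && (
  let v466 := mul v0 v465; ok v466 && (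
  let v467 := add v462 v466; ok v467 && (
  let v468 := mul v462 v466; ok v468 && (
  let v469 := mul x1 v468; ok v469 && (
  let v470 := add v467 v469; ok v470 && (
  let v471 := mul v12 v42; ok v471 && (
  let v472 := scale ⟨412316860416, 0, 0, 0⟩ v43; ok v472 && (
  let v473 := sub v8 v472; ok v473 && (
  let v474 := mul v471 v473; ok v474 && (
  let v475 := mul v0 v474; ok v475 && (
  let v476 := neg v475; ok v476 && (
  let v477 := add v470 v476; ok v477 && (
  let v478 := mul v470 v476; ok v478 && (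
  let v479 := mul x1 v478; ok v479 && (
  let v480 := add v477 v479; ok v480 && (
  let v481 := mul v3 v382; ok v481 && (
  let v482 := mul v481 v455; ok v482 && (
  let v483 := mul v0 v482; ok v483 && (
  let v484 := add v480 v483; ok v484 && (
  let v485 := mul v480 v483; ok v485 && (
  let v486 := mul x1 v485; ok v486 && (
  let v487 := add v484 v486; ok v487 && (
  let v488 := mul v0 v421; ok v488 && (
  let v489 := sub v487 v488; ok v489 && (
  let v490 := mul x1 v421; ok v490 && (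
  let v491 := add v0 v490; ok v491 && (
  let v492 := inv v491; ok v492 && (
  let v493 := mul v489 v492; ok v493 && (
  let v494 := mul v3 v9; ok v494 && (
  let v495 := mul v494 v382; ok v495 && (
  let v496 := mul v495 v392; ok v496 && (
  let v497 := mul v0 v496; ok v497 && (
  let v498 := add v493 v497; ok v498 && (
  let v499 := mul v493 v497; ok v499 && (
  let v500 := mul x1 v499; ok v500 && (
  let v501 := add v498 v500; ok v501 && (
  let v502 := mul x1 v501; ok v502 && (
  let v503 := add v0 v502; ok v503 && (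
  let v504 := mul v415 v262; ok v504 && (
  let v505 := mul x1 v416; ok v505 && (
  let v506 := mul v456 v505; ok v506 && (
  let v507 := add v504 v506; ok v507 && (
  let v508 := mul v0 v507; ok v508 && (
  let v509 := add v415 v456; ok v509 && (
  let v510 := mul v0 v509; ok v510 && (
  let v511 := mul v508 v503; ok v511 && (
  let v512 := add v501 v511; ok v512 && (
  let v513 := add v512 v510; ok v513 && (
  let v514 := neg v513; ok v514 && (
  let v515 := scale ⟨1073741824, 0, 0, 0⟩ v0; ok v515 && (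
  let v516 := sub v514 v515; ok v516 && (
  let v517 := sub v20 v0; ok v517 && (
  let v518 := add v517 v56; ok v518 && (
  let v519 := scale ⟨2199023255552, 0, 0, 0⟩ v419; ok v519 && (
  let v520 := sub v518 v519; ok v520 && (
  let v521 := mul v240 v520; ok v521 && (
  let v522 := mul v517 v519; ok v522 && (
  let v523 := add v522 v0; ok v523 && (
  let v524 := inv v523; ok v524 && (
  let v525 := mul v521 v524; ok v525 && (
  let v526 := mul v258 v374; ok v526 && (
  let v527 := scale ⟨549755813888, 0, 0, 0⟩ v251; ok v527 && (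
  let v528 := add v17 v527; ok v528 && (
  let v529 := mul v526 v528; ok v529 && (
  let v530 := scale ⟨2199023255552, 0, 0, 0⟩ v529; ok v530 && (
  let v531 := add v369 v530; ok v531 && (
  let v532 := scale ⟨2199023255552, 0, 0, 0⟩ v531; ok v532 && (
  let v533 := mul v532 v381; ok v533 && (
  let v534 := mul v9 v382; ok v534 && (
  let v535 := sub v24 v534; ok v535 && (
  let v536 := inv v535; ok v536 && (
  let v537 := mul v533 v536; ok v537 && (
  let v538 := sub v525 v537; ok v538 && (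
  let v539 := mul v253 v253; ok v539 && (
  let v540 := cst ⟨14293651161088, 0, 0, 0⟩; ok v540 && (
  let v541 := cst ⟨10995116277760, 0, 0, 0⟩; ok v541 && (
  let v542 := inv v541; ok v542 && (
  let v543 := mul v540 v542; ok v543 && (
  let v544 := mul v539 v543; ok v544 && (
  let v545 := mul x0 x0; ok v545 && (
  let v546 := scale ⟨27487790694400, 0, 0, 0⟩ v545; ok v546 && (
  let v547 := add v544 v546; ok v547 && (
  let v548 := mul v421 v492; ok v548 && (
  let v549 := sub v40 x1; ok v549 && (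
  let v550 := sub v549 v39; ok v550 && (
  let v551 := mul v0 v3; ok v551 && (
  let v552 := mul v551 x0; ok v552 && (
  let v553 := mul v24 v374; ok v553 && (
  let v554 := mul v553 v256; ok v554 && (
  let v555 := add v361 v554; ok v555 && (
  let v556 := add v534 v56; ok v556 && (
  let v557 := mul v0 v556; ok v557 && (
  let v558 := mul v547 v548; ok v558 && (
  let v559 := mul v381 v557; ok v559 && (
  let v560 := mul v552 v555; ok v560 && (
  let v561 := mul v559 v560; ok v561 && (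
  let v562 := sub v558 v561; ok v562 && (
  let v563 := scale ⟨549755813888, 0, 0, 0⟩ v534; ok v563 && (
  let v564 := add v0 v563; ok v564 && (
  let v565 := mul v381 v564; ok v565 && (
  let v566 := mul x1 v23; ok v566 && (
  let v567 := mul v566 v248; ok v567 && (
  let v568 := mul v24 v52; ok v568 && (
  let v569 := inv v568; ok v569 && (
  let v570 := mul v567 v569; ok v570 && (
  let v571 := mul v565 v570; ok v571 && (
  let v572 := sub v550 v571; ok v572 && (
  let v573 := mul v251 v562; ok v573 && (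
  let v574 := sub v0 v251; ok v574 && (
  let v575 := mul v12 v572; ok v575 && (
  let v576 := mul v574 v575; ok v576 && (
  let v577 := mul v547 v576; ok v577 && (
  let v578 := add v573 v577; ok v578 && (
  isPos 4 v263 && (
  isPos 4 v266 && (
  let v579 := scale ⟨2199023255552, 0, 0, 0⟩ v378; ok v579 && (
  let v580 := sub v52 v579; ok v580 && (
  isPos 4 v580 && (
  isPos 4 v388 && (
  let v581 := sub v8 v238; ok v581 && (
  isPos 4 v581 && (
  let v582 := scale ⟨687194767360, 0, 0, 0⟩ v0; ok v582 && (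
  let v583 := sub v582 v338; ok v583 && (
  isPos 4 v583 && (
  let v584 := scale ⟨377957122048, 0, 0, 0⟩ v0; ok v584 && (
  let v585 := sub v584 v334; ok v585 && (
  isPos 4 v585 && (
  isPos 4 v535 && (
  isPos 4 v396 && (
  let v586 := sub v582 v408; ok v586 && (
  isPos 4 v586 && (
  isPos 4 v538 && (
  isPos 4 v516 && (
  isPos 4 v578 && (
  isPos 4 v572 && (
  true))))))))))))))))))))))))))))))))))))))))))))))))))))))))))))))))))))))))))))))))))))))))))))))))))))))))))))))))))))))))))))))))))))))))))))))))))))))))))))))))))))))))))))))))))))))))))))))))))))))))))))))))))))))))))))))))))))))))))))))))))))))))))))))))))))))))))))))))))))))))))))))))))))))))))))))))))))))))))))))))))))))))))))))))))))))))))))))))))))))))))))))))))))))))))))))))))))))))))))))))))))))))))))))))))))))))))))))))))))))))))))))))))))))))))))))))))))))))))))))))))))))))))))))))))))))))))))))))))))))))))))))))))))))))))))))))))))))))))))))))))))))))))))))))))))))))))))))))))))))))))))))))))))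
  | _ => false

set_option maxRecDepth 1000000 in
theorem chk0_eq (O : Ops) (m : List O.α)
    (h : chk0 O.cst O.add O.sub O.mul O.scale O.neg O.inv O.exp O.log O.ok O.isPos O.isLt m = true) :
    runG O 4 prog0 m = true := by
  match m, h with
  | [x0, x1, x2, x3], h => exact h

def chkB0 : List opsE.α → Bool :=
  chk0 opsE.cst opsE.add opsE.sub opsE.mul opsE.scale opsE.neg opsE.inv opsE.exp opsE.log opsE.ok opsE.isPos opsE.isLt

theorem chkB0_eq (m : List opsE.α) (h : chkB0 m = true) : runG opsE 4 prog0 m = true :=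
  chk0_eq opsE m h

def prog1 : List Op := [
  .const ⟨1099511627776, 0, 0, 0⟩,
  .mul 2 3,
  .mul 0 2,
  .mul 5 0,
  .mul 6 6,
  .mul 6 0,
  .mul 3 3,
  .mul 8 1,
  .const ⟨549755813888, 0, 0, 0⟩,
  .mul 10 5,
  .mul 0 13,
  .scale ⟨549755813888, 0, 0, 0⟩ 0,
  .mul 8 8,
  .mul 1 1,
  .sub 13 0,
  .inv 0,
  .mul 4 0,
  .scale ⟨2199023255552, 0, 0, 0⟩ 0,
  .scale ⟨2199023255552, 0, 0, 0⟩ 2,
  .sub 0 18,
  .add 0 2,
  .mul 24 5,
  .mul 18 0,
  .sub 22 0,
  .add 23 1,
  .mul 26 12,
  .mul 4 4,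
  .scale ⟨10774999203840, 0, 0, 0⟩ 15,
  .scale ⟨45768245248, 0, 0, 0⟩ 0,
  .const ⟨183207198720, 0, 0, 0⟩,
  .add 1 0,
  .mul 3 0,
  .add 23 0,
  .mul 5 0,
  .add 33 0,
  .mul 7 0,
  .scale ⟨549755813888, 0, 0, 0⟩ 0,
  .add 36 0,
  .mul 3 0,
  .mul 21 16,
  .scale ⟨2199023255552, 0, 0, 0⟩ 20,
  .add 1 0,
  .add 0 43,
  .mul 17 0,
  .add 0 43,
  .mul 27 27,
  .scale ⟨2199023255552, 0, 0, 0⟩ 0,
  .add 0 46,
  .mul 28 5,
  .sub 0 48,
  .log 5,
  .scale ⟨549755813888, 0, 0, 0⟩ 0,
  .exp 0,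
  .const ⟨3298534883328, 0, 0, 0⟩,
  .inv 0,
  .mul 54 0,
  .const ⟨2199023255552, 0, 0, 0⟩,
  .add 13 0,
  .inv 0,
  .mul 15 0,
  .mul 0 0,
  .sub 60 1,
  .mul 1 6,
  .add 62 0,
  .mul 2 0,
  .mul 4 4,
  .scale ⟨219915747328, 0, 0, 0⟩ 0,
  .mul 24 2,
  .scale ⟨549755813888, 0, 0, 0⟩ 0,
  .mul 26 2,
  .scale ⟨549755813888, 0, 0, 0⟩ 0,
  .add 2 0,
  .mul 52 22,
  .scale ⟨4398046511104, 0, 0, 0⟩ 0,
  .mul 54 48,
  .mul 0 25,
  .scale ⟨4398046511104, 0, 0, 0⟩ 0,
  .add 0 20,
  .inv 0,
  .mul 2 0,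
  .mul 0 0,
  .sub 80 1,
  .mul 1 26,
  .add 82 0,
  .mul 2 0,
  .mul 4 4,
  .scale ⟨219915747328, 0, 0, 0⟩ 0,
  .mul 13 2,
  .scale ⟨549755813888, 0, 0, 0⟩ 0,
  .sub 0 17,
  .mul 16 3,
  .scale ⟨549755813888, 0, 0, 0⟩ 0,
  .add 0 21,
  .add 3 0,
  .mul 88 25,
  .neg 0,
  .exp 0,
  .mul 91 26,
  .mul 1 0,
  .mul 93 9,
  .neg 0,
  .exp 0,
  .mul 96 9,
  .mul 1 0,
  .mul 81 86,
  .add 85 0,
  .inv 0,
  .mul 82 0,
  .mul 84 109,
  .mul 0 1,
  .sub 109 97,
  .mul 84 0,
  .mul 102 102,
  .sub 112 86,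
  .mul 3 0,
  .mul 89 65,
  .inv 71,
  .mul 1 0,
  .add 98 0,
  .mul 74 0,
  .mul 0 0,
  .inv 0,
  .mul 7 0,
  .add 103 97,
  .mul 124 0,
  .inv 0,
  .mul 125 0,
  .mul 0 0,
  .mul 0 13,
  .const ⟨10849087389696, 0, 0, 0⟩,
  .sub 0 1,
  .pos 0,
  .const ⟨13, 0, 0, 0⟩,
  .const ⟨2295, 0, 0, 0⟩,
  .mul 4 1,
  .sub 1 0,
  .const ⟨302996, 0, 0, 0⟩,
  .mul 7 1,
  .sub 1 0,
  .const ⟨27269633, 0, 0, 0⟩,
  .mul 10 1,
  .sub 1 0,
  .const ⟨1527099484, 0, 0, 0⟩,
  .mul 13 1,
  .sub 1 0,
  .const ⟨45812984490, 0, 0, 0⟩,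
  .mul 16 1,
  .sub 1 0,
  .mul 18 0,
  .sub 139 0,
  .mul 20 0,
  .sub 149 0,
  .add 54 150,
  .mul 55 55,
  .add 0 152,
  .mul 57 3,
  .scale ⟨2199023255552, 0, 0, 0⟩ 0,
  .add 2 0,
  .scale ⟨4398046511104, 0, 0, 0⟩ 58,
  .sub 1 0,
  .inv 7,
  .mul 1 0,
  .add 0 9,
  .mul 65 52,
  .scale ⟨549755813888, 0, 0, 0⟩ 0,
  .mul 0 2,
  .sub 6 0,
  .pos 7,
  .pos 0,
  .sub 165 69,
  .mul 0 15,
  .scale ⟨2199023255552, 0, 0, 0⟩ 69,
  .add 1 0,
  .inv 4,
  .mul 1 0,
  .scale ⟨549755813888, 0, 0, 0⟩ 0,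
  .add 0 164,
  .inv 0,
  .mul 2 0,
  .mul 66 0,
  .scale ⟨549755813888, 0, 0, 0⟩ 0,
  .sub 177 0,
  .sub 178 2,
  .inv 0,
  .mul 2 0,
  .add 5 181,
  .mul 86 0,
  .mul 76 2,
  .mul 0 9,
  .mul 9 4,
  .pos 7,
  .mul 163 162,
  .add 168 189,
  .mul 166 169,
  .mul 0 172,
  .scale ⟨2199023255552, 0, 0, 0⟩ 0,
  .add 144 0,
  .mul 4 0,
  .inv 0,
  .mul 7 0,
  .mul 197 0,
  .pos 107,
  .mul 68 80,
  .sub 68 0,
  .pos 0,
  .mul 1 67,
  .sub 67 0,
  .mul 3 0,
  .sub 66 0,
  .mul 5 0,
  .sub 65 0,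
  .mul 7 0,
  .sub 64 0,
  .mul 9 0,
  .sub 63 0,
  .mul 11 0,
  .sub 201 0,
  .mul 13 0,
  .sub 211 0,
  .add 111 212,
  .mul 112 112,
  .add 0 214,
  .mul 114 3,
  .scale ⟨2199023255552, 0, 0, 0⟩ 0,
  .add 2 0,
  .scale ⟨4398046511104, 0, 0, 0⟩ 115,
  .sub 1 0,
  .inv 7,
  .mul 1 0,
  .add 0 9,
  .mul 122 27,
  .scale ⟨549755813888, 0, 0, 0⟩ 0,
  .mul 0 2,
  .sub 6 0,
  .pos 7,
  .pos 0,
  .sub 227 126,
  .mul 0 15,
  .scale ⟨2199023255552, 0, 0, 0⟩ 126,
  .add 1 0,
  .inv 4,
  .mul 1 0,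
  .scale ⟨549755813888, 0, 0, 0⟩ 0,
  .add 0 226,
  .inv 0,
  .mul 2 0,
  .mul 41 0,
  .mul 1 239,
  .add 228 239,
  .inv 0,
  .mul 230 0,
  .scale ⟨2199023255552, 0, 0, 0⟩ 0,
  .sub 243 0,
  .sub 244 233,
  .mul 249 4,
  .mul 0 2,
  .add 223 0,
  .scale ⟨224412041216, 0, 0, 0⟩ 233,
  .inv 211,
  .mul 1 0,
  .scale ⟨4398046511104, 0, 0, 0⟩ 252,
  .mul 252 231,
  .add 1 0,
  .scale ⟨549755813888, 0, 0, 0⟩ 0,
  .inv 0,
  .mul 256 0,
  .mul 258 1,
  .mul 0 234,
  .mul 0 8,
  .mul 3 236,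
  .mul 0 10,
  .sub 262 0,
  .inv 0,
  .mul 81 2,
  .sub 265 0,
  .inv 0,
  .scale ⟨2199023255552, 0, 0, 0⟩ 261,
  .add 0 268,
  .add 263 269,
  .mul 271 249,
  .scale ⟨1099511627776, 0, 0, 0⟩ 0,
  .scale ⟨1099511627776, 0, 0, 0⟩ 274,
  .add 1 0,
  .mul 277 0,
  .scale ⟨549755813888, 0, 0, 0⟩ 0,
  .mul 265 255,
  .sub 277 166,
  .mul 267 256,
  .scale ⟨2199023255552, 0, 0, 0⟩ 0,
  .sub 2 0,
  .mul 4 4,
  .add 1 0,
  .add 0 283,
  .scale ⟨549755813888, 0, 0, 0⟩ 0,
  .scale ⟨549755813888, 0, 0, 0⟩ 260,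
  .sub 271 0,
  .mul 175 9,
  .mul 0 274,
  .scale ⟨137438953472, 0, 0, 0⟩ 0,
  .add 3 0,
  .mul 6 0,
  .const ⟨1, 0, 0, 0⟩,
  .const ⟨12, 0, 0, 0⟩,
  .mul 166 1,
  .sub 1 0,
  .const ⟨2296, 0, 0, 0⟩,
  .mul 169 1,
  .sub 1 0,
  .const ⟨302995, 0, 0, 0⟩,
  .mul 172 1,
  .sub 1 0,
  .const ⟨27269634, 0, 0, 0⟩,
  .mul 175 1,
  .sub 1 0,
  .const ⟨1527099483, 0, 0, 0⟩,
  .mul 178 1,
  .sub 1 0,
  .const ⟨45812984491, 0, 0, 0⟩,
  .mul 181 1,
  .sub 1 0,
  .mul 183 0,
  .sub 304 0,
  .mul 185 0,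
  .sub 314 0,
  .mul 187 309,
  .mul 0 0,
  .scale ⟨369367187456, 0, 0, 0⟩ 0,
  .add 3 0,
  .mul 223 0,
  .scale ⟨2199023255552, 0, 0, 0⟩ 0,
  .add 168 0,
  .add 0 154,
  .const ⟨8589934592, 0, 0, 0⟩,
  .add 1 0,
  .log 0,
  .scale ⟨549755813888, 0, 0, 0⟩ 0,
  .exp 0,
  .mul 232 152,
  .add 1 0,
  .mul 0 66,
  .mul 148 64,
  .add 1 0,
  .mul 71 0,
  .add 148 0,
  .mul 0 329,
  .mul 6 74,
  .mul 0 73,
  .add 152 0,
  .mul 0 333,
  .scale ⟨223338299392, 0, 0, 0⟩ 0,
  .add 333 0,
  .mul 2 0,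
  .add 343 0,
  .scale ⟨893353197568, 0, 0, 0⟩ 8,
  .add 345 0,
  .mul 10 0,
  .add 347 0,
  .mul 105 102,
  .mul 0 80,
  .mul 0 2,
  .mul 59 7,
  .add 300 344,
  .mul 2 0,
  .add 2 0,
  .add 303 355,
  .mul 5 0,
  .mul 87 1,
  .mul 0 112,
  .mul 0 114,
  .mul 5 175,
  .mul 1 85,
  .add 1 0,
  .mul 358 115,
  .inv 312,
  .mul 1 0,
  .scale ⟨549755813888, 0, 0, 0⟩ 0,
  .mul 344 0,
  .add 0 5,
  .mul 371 0,
  .mul 371 0,
  .mul 16 41,
  .mul 0 108,
  .mul 16 190,
  .mul 0 107,
  .add 2 0,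
  .mul 353 5,
  .mul 117 1,
  .add 1 0,
  .mul 267 0,
  .mul 0 15,
  .sub 381 0,
  .inv 0,
  .mul 4 0,
  .mul 386 0,
  .mul 273 1,
  .mul 0 21,
  .sub 387 0,
  .mul 339 0,
  .sub 0 4,
  .inv 0,
  .mul 6 0,
  .sub 340 6,
  .inv 0,
  .mul 2 157,
  .scale ⟨549755813888, 0, 0, 0⟩ 0,
  .sub 396 0,
  .sub 397 2,
  .inv 0,
  .mul 2 0,
  .mul 397 6,
  .mul 162 10,
  .mul 0 2,
  .add 2 0,
  .mul 397 20,
  .mul 11 0,
  .mul 169 15,
  .mul 0 7,
  .mul 0 23,
  .add 3 0,
  .scale ⟨223338299392, 0, 0, 0⟩ 0,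
  .add 403 0,
  .mul 2 0,
  .add 413 0,
  .mul 10 0,
  .mul 0 32,
  .mul 0 40,
  .mul 156 394,
  .const ⟨5497558138880, 0, 0, 0⟩,
  .inv 0,
  .mul 367 0,
  .mul 181 397,
  .mul 0 1,
  .mul 235 317,
  .mul 402 0,
  .scale ⟨549755813888, 0, 0, 0⟩ 187,
  .sub 426 0,
  .sub 427 189,
  .inv 0,
  .mul 2 0,
  .mul 0 234,
  .mul 319 309,
  .scale ⟨733097230336, 0, 0, 0⟩ 0,
  .sub 433 0,
  .mul 312 0,
  .mul 346 346,
  .mul 424 0,
  .add 2 0,
  .mul 7 199,
  .add 1 439,
  .mul 1 0,
  .sub 3 0,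
  .scale ⟨366548615168, 0, 0, 0⟩ 397,
  .sub 443 0,
  .mul 418 0,
  .add 3 0,
  .mul 22 0,
  .mul 22 22,
  .add 448 0,
  .inv 0,
  .mul 3 0,
  .sub 451 59,
  .mul 0 1,
  .sub 453 14,
  .pos 0,
  .pos 3,
  .pos 2,
  .mul 38 199,
  .mul 0 86,
  .inv 432,
  .mul 1 0,
  .mul 454 5,
  .mul 461 0,
  .scale ⟨549755813888, 0, 0, 0⟩ 0,
  .sub 461 0,
  .mul 3 0,
  .neg 0,
  .mul 461 468,
  .mul 0 225,
  .mul 0 451,
  .mul 467 0,
  .add 4 0,
  .mul 5 1,
  .mul 472 0,
  .add 2 0,
  .mul 460 430,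
  .scale ⟨412316860416, 0, 0, 0⟩ 430,
  .sub 466 0,
  .mul 2 0,
  .mul 476 0,
  .neg 0,
  .add 6 0,
  .mul 7 1,
  .mul 482 0,
  .add 2 0,
  .mul 479 98,
  .mul 0 26,
  .mul 484 0,
  .add 3 0,
  .mul 4 1,
  .mul 489 0,
  .add 2 0,
  .mul 489 66,
  .sub 1 0,
  .mul 493 68,
  .add 492 0,
  .inv 0,
  .mul 3 0,
  .mul 492 486,
  .mul 0 112,
  .mul 0 103,
  .mul 498 0,
  .add 4 0,
  .mul 5 1,
  .mul 503 0,
  .add 2 0,
  .mul 505 0,
  .add 504 0,
  .mul 88 243,
  .mul 508 88,
  .mul 49 0,
  .add 2 0,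
  .mul 509 0,
  .add 93 52,
  .mul 511 0,
  .mul 2 7,
  .add 10 0,
  .add 0 2,
  .neg 0,
  .scale ⟨1073741824, 0, 0, 0⟩ 516,
  .sub 1 0,
  .sub 498 518,
  .add 0 463,
  .scale ⟨2199023255552, 0, 0, 0⟩ 99,
  .sub 1 0,
  .mul 282 0,
  .mul 4 2,
  .add 0 524,
  .inv 0,
  .mul 3 0,
  .mul 269 151,
  .scale ⟨549755813888, 0, 0, 0⟩ 277,
  .add 512 0,
  .mul 2 0,
  .scale ⟨2199023255552, 0, 0, 0⟩ 0,
  .add 161 0,
  .scale ⟨2199023255552, 0, 0, 0⟩ 0,
  .mul 0 151,
  .mul 526 151,
  .sub 512 0,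
  .inv 0,
  .mul 3 0,
  .sub 12 0,
  .mul 287 287,
  .const ⟨14293651161088, 0, 0, 0⟩,
  .const ⟨10995116277760, 0, 0, 0⟩,
  .inv 0,
  .mul 2 0,
  .mul 4 0,
  .mul 547 547,
  .scale ⟨27487790694400, 0, 0, 0⟩ 0,
  .add 2 0,
  .mul 126 55,
  .sub 510 552,
  .sub 0 512,
  .mul 552 549,
  .mul 0 554,
  .mul 530 178,
  .mul 0 299,
  .add 193 0,
  .add 21 501,
  .mul 558 0,
  .mul 10 9,
  .mul 177 1,
  .mul 7 4,
  .mul 1 0,
  .sub 3 0,
  .scale ⟨549755813888, 0, 0, 0⟩ 28,
  .add 565 0,
  .mul 183 0,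
  .mul 569 544,
  .mul 0 320,
  .mul 545 517,
  .inv 0,
  .mul 2 0,
  .mul 5 0,
  .sub 21 0,
  .mul 323 10,
  .sub 575 324,
  .mul 564 2,
  .mul 1 0,
  .mul 29 0,
  .add 4 0,
  .pos 317,
  .pos 314,
  .scale ⟨2199023255552, 0, 0, 0⟩ 200,
  .sub 529 0,
  .pos 0,
  .pos 192,
  .sub 574 344,
  .pos 0,
  .scale ⟨687194767360, 0, 0, 0⟩ 583,
  .sub 0 244,
  .pos 0,
  .scale ⟨377957122048, 0, 0, 0⟩ 585,
  .sub 0 250,
  .pos 0,
  .pos 50,
  .pos 189,
  .sub 3 177,
  .pos 0,
  .pos 48,
  .pos 70,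
  .pos 8,
  .pos 14]

def chk1 {α : Type} (cst : Z → α) (add sub mul : α → α → α) (scale : Z → α → α)
    (neg inv exp log : α → α) (ok : α → Bool) (isPos : Nat → α → Bool) (isLt : α → Nat → Bool) :
    List α → Bool
  | [x0, x1, x2, x3] =>
  let v0 := cst ⟨1099511627776, 0, 0, 0⟩; ok v0 && (
  let v1 := mul x1 x2; ok v1 && (
  let v2 := mul v1 x0; ok v2 && (
  let v3 := mul x2 v2; ok v3 && (
  let v4 := mul x2 x2; ok v4 && (
  let v5 := mul x1 v4; ok v5 && (
  let v6 := mul v2 v2; ok v6 && (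
  let v7 := mul x1 v5; ok v7 && (
  let v8 := cst ⟨549755813888, 0, 0, 0⟩; ok v8 && (
  let v9 := mul x1 v3; ok v9 && (
  let v10 := mul v9 x3; ok v10 && (
  let v11 := scale ⟨549755813888, 0, 0, 0⟩ v10; ok v11 && (
  let v12 := mul v3 v3; ok v12 && (
  let v13 := mul v11 v11; ok v13 && (
  let v14 := sub v0 v13; ok v14 && (
  let v15 := inv v14; ok v15 && (
  let v16 := mul v11 v15; ok v16 && (
  let v17 := scale ⟨2199023255552, 0, 0, 0⟩ v16; ok v17 && (
  let v18 := scale ⟨2199023255552, 0, 0, 0⟩ v15; ok v18 && (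
  let v19 := sub v18 v0; ok v19 && (
  let v20 := add v19 v17; ok v20 && (
  let v21 := mul x3 v15; ok v21 && (
  let v22 := mul v3 v21; ok v22 && (
  let v23 := sub v0 v22; ok v23 && (
  let v24 := add v0 v22; ok v24 && (
  let v25 := mul x1 v12; ok v25 && (
  let v26 := mul v21 v21; ok v26 && (
  let v27 := scale ⟨10774999203840, 0, 0, 0⟩ v11; ok v27 && (
  let v28 := scale ⟨45768245248, 0, 0, 0⟩ v27; ok v28 && (
  let v29 := cst ⟨183207198720, 0, 0, 0⟩; ok v29 && (
  let v30 := add v28 v29; ok v30 && (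
  let v31 := mul v27 v30; ok v31 && (
  let v32 := add v8 v31; ok v32 && (
  let v33 := mul v27 v32; ok v33 && (
  let v34 := add v0 v33; ok v34 && (
  let v35 := mul v27 v34; ok v35 && (
  let v36 := scale ⟨549755813888, 0, 0, 0⟩ v35; ok v36 && (
  let v37 := add v0 v36; ok v37 && (
  let v38 := mul v34 v37; ok v38 && (
  let v39 := mul v17 v22; ok v39 && (
  let v40 := scale ⟨2199023255552, 0, 0, 0⟩ v19; ok v40 && (
  let v41 := add v39 v40; ok v41 && (
  let v42 := add v41 x1; ok v42 && (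
  let v43 := mul v25 v42; ok v43 && (
  let v44 := add v43 v0; ok v44 && (
  let v45 := mul v17 v17; ok v45 && (
  let v46 := scale ⟨2199023255552, 0, 0, 0⟩ v45; ok v46 && (
  let v47 := add v46 v0; ok v47 && (
  let v48 := mul v19 v42; ok v48 && (
  let v49 := sub v48 v0; ok v49 && (
  let v50 := log v44; ok v50 && (
  let v51 := scale ⟨549755813888, 0, 0, 0⟩ v50; ok v51 && (
  let v52 := exp v51; ok v52 && (
  let v53 := cst ⟨3298534883328, 0, 0, 0⟩; ok v53 && (
  let v54 := inv v53; ok v54 && (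
  let v55 := mul v0 v54; ok v55 && (
  let v56 := cst ⟨2199023255552, 0, 0, 0⟩; ok v56 && (
  let v57 := add v43 v56; ok v57 && (
  let v58 := inv v57; ok v58 && (
  let v59 := mul v43 v58; ok v59 && (
  let v60 := mul v59 v59; ok v60 && (
  let v61 := sub v0 v59; ok v61 && (
  let v62 := mul v60 v55; ok v62 && (
  let v63 := add v0 v62; ok v63 && (
  let v64 := mul v61 v63; ok v64 && (
  let v65 := mul v60 v60; ok v65 && (
  let v66 := scale ⟨219915747328, 0, 0, 0⟩ v65; ok v66 && (
  let v67 := mul v42 v64; ok v67 && (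
  let v68 := scale ⟨549755813888, 0, 0, 0⟩ v67; ok v68 && (
  let v69 := mul v42 v66; ok v69 && (
  let v70 := scale ⟨549755813888, 0, 0, 0⟩ v69; ok v70 && (
  let v71 := add v68 v70; ok v71 && (
  let v72 := mul v19 v49; ok v72 && (
  let v73 := scale ⟨4398046511104, 0, 0, 0⟩ v72; ok v73 && (
  let v74 := mul v19 v25; ok v74 && (
  let v75 := mul v74 v49; ok v75 && (
  let v76 := scale ⟨4398046511104, 0, 0, 0⟩ v75; ok v76 && (
  let v77 := add v76 v56; ok v77 && (
  let v78 := inv v77; ok v78 && (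
  let v79 := mul v76 v78; ok v79 && (
  let v80 := mul v79 v79; ok v80 && (
  let v81 := sub v0 v79; ok v81 && (
  let v82 := mul v80 v55; ok v82 && (
  let v83 := add v0 v82; ok v83 && (
  let v84 := mul v81 v83; ok v84 && (
  let v85 := mul v80 v80; ok v85 && (
  let v86 := scale ⟨219915747328, 0, 0, 0⟩ v85; ok v86 && (
  let v87 := mul v73 v84; ok v87 && (
  let v88 := scale ⟨549755813888, 0, 0, 0⟩ v87; ok v88 && (
  let v89 := sub v88 v71; ok v89 && (
  let v90 := mul v73 v86; ok v90 && (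
  let v91 := scale ⟨549755813888, 0, 0, 0⟩ v90; ok v91 && (
  let v92 := add v91 v70; ok v92 && (
  let v93 := add v89 v92; ok v93 && (
  let v94 := mul v5 v68; ok v94 && (
  let v95 := neg v94; ok v95 && (
  let v96 := exp v95; ok v96 && (
  let v97 := mul v5 v70; ok v97 && (
  let v98 := mul v96 v97; ok v98 && (
  let v99 := mul v5 v89; ok v99 && (
  let v100 := neg v99; ok v100 && (
  let v101 := exp v100; ok v101 && (
  let v102 := mul v5 v92; ok v102 && (
  let v103 := mul v101 v102; ok v103 && (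
  let v104 := mul v22 v17; ok v104 && (
  let v105 := add v19 v104; ok v105 && (
  let v106 := inv v105; ok v106 && (
  let v107 := mul v24 v106; ok v107 && (
  let v108 := mul v23 x1; ok v108 && (
  let v109 := mul v108 v107; ok v109 && (
  let v110 := sub v0 v12; ok v110 && (
  let v111 := mul v26 v110; ok v111 && (
  let v112 := mul v9 v9; ok v112 && (
  let v113 := sub v0 v26; ok v113 && (
  let v114 := mul v110 v113; ok v114 && (
  let v115 := mul v25 v49; ok v115 && (
  let v116 := inv v44; ok v116 && (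
  let v117 := mul v115 v116; ok v117 && (
  let v118 := add v19 v117; ok v118 && (
  let v119 := mul v44 v118; ok v119 && (
  let v120 := mul v119 v119; ok v120 && (
  let v121 := inv v120; ok v121 && (
  let v122 := mul v114 v121; ok v122 && (
  let v123 := add v19 v25; ok v123 && (
  let v124 := mul x0 v123; ok v124 && (
  let v125 := inv v124; ok v125 && (
  let v126 := mul v0 v125; ok v126 && (
  let v127 := mul v126 v126; ok v127 && (
  let v128 := mul v127 v114; ok v128 && (
  let v129 := cst ⟨10849087389696, 0, 0, 0⟩; ok v129 && (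
  let v130 := sub v129 v128; ok v130 && (
  isPos 4 v130 && (
  let v131 := cst ⟨13, 0, 0, 0⟩; ok v131 && (
  let v132 := cst ⟨2295, 0, 0, 0⟩; ok v132 && (
  let v133 := mul v128 v131; ok v133 && (
  let v134 := sub v132 v133; ok v134 && (
  let v135 := cst ⟨302996, 0, 0, 0⟩; ok v135 && (
  let v136 := mul v128 v134; ok v136 && (
  let v137 := sub v135 v136; ok v137 && (
  let v138 := cst ⟨27269633, 0, 0, 0⟩; ok v138 && (
  let v139 := mul v128 v137; ok v139 && (
  let v140 := sub v138 v139; ok v140 && (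
  let v141 := cst ⟨1527099484, 0, 0, 0⟩; ok v141 && (
  let v142 := mul v128 v140; ok v142 && (
  let v143 := sub v141 v142; ok v143 && (
  let v144 := cst ⟨45812984490, 0, 0, 0⟩; ok v144 && (
  let v145 := mul v128 v143; ok v145 && (
  let v146 := sub v144 v145; ok v146 && (
  let v147 := mul v128 v146; ok v147 && (
  let v148 := sub v8 v147; ok v148 && (
  let v149 := mul v128 v148; ok v149 && (
  let v150 := sub v0 v149; ok v150 && (
  let v151 := add v96 v0; ok v151 && (
  let v152 := mul v96 v96; ok v152 && (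
  let v153 := add v152 v0; ok v153 && (
  let v154 := mul v96 v150; ok v154 && (
  let v155 := scale ⟨2199023255552, 0, 0, 0⟩ v154; ok v155 && (
  let v156 := add v153 v155; ok v156 && (
  let v157 := scale ⟨4398046511104, 0, 0, 0⟩ v98; ok v157 && (
  let v158 := sub v156 v157; ok v158 && (
  let v159 := inv v151; ok v159 && (
  let v160 := mul v158 v159; ok v160 && (
  let v161 := add v160 v151; ok v161 && (
  let v162 := mul v96 v109; ok v162 && (
  let v163 := scale ⟨549755813888, 0, 0, 0⟩ v162; ok v163 && (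
  let v164 := mul v163 v161; ok v164 && (
  let v165 := sub v158 v164; ok v165 && (
  isPos 4 v158 && (
  isPos 4 v165 && (
  let v166 := sub v0 v96; ok v166 && (
  let v167 := mul v166 v151; ok v167 && (
  let v168 := scale ⟨2199023255552, 0, 0, 0⟩ v98; ok v168 && (
  let v169 := add v167 v168; ok v169 && (
  let v170 := inv v165; ok v170 && (
  let v171 := mul v169 v170; ok v171 && (
  let v172 := scale ⟨549755813888, 0, 0, 0⟩ v171; ok v172 && (
  let v173 := add v172 v8; ok v173 && (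
  let v174 := inv v173; ok v174 && (
  let v175 := mul v172 v174; ok v175 && (
  let v176 := mul v109 v175; ok v176 && (
  let v177 := scale ⟨549755813888, 0, 0, 0⟩ v176; ok v177 && (
  let v178 := sub v0 v177; ok v178 && (
  let v179 := sub v0 v176; ok v179 && (
  let v180 := inv v179; ok v180 && (
  let v181 := mul v178 v180; ok v181 && (
  let v182 := add v176 v0; ok v182 && (
  let v183 := mul v96 v182; ok v183 && (
  let v184 := mul v107 v181; ok v184 && (
  let v185 := mul v184 v175; ok v185 && (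
  let v186 := mul v176 v181; ok v186 && (
  isPos 4 v179 && (
  let v187 := mul v23 v24; ok v187 && (
  let v188 := add v19 x1; ok v188 && (
  let v189 := mul v22 v19; ok v189 && (
  let v190 := mul v189 v17; ok v190 && (
  let v191 := scale ⟨2199023255552, 0, 0, 0⟩ v190; ok v191 && (
  let v192 := add v47 v191; ok v192 && (
  let v193 := mul v188 v192; ok v193 && (
  let v194 := inv v193; ok v194 && (
  let v195 := mul v187 v194; ok v195 && (
  let v196 := mul x1 v195; ok v196 && (
  isPos 4 v89 && (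
  let v197 := mul v128 v116; ok v197 && (
  let v198 := sub v129 v197; ok v198 && (
  isPos 4 v198 && (
  let v199 := mul v197 v131; ok v199 && (
  let v200 := sub v132 v199; ok v200 && (
  let v201 := mul v197 v200; ok v201 && (
  let v202 := sub v135 v201; ok v202 && (
  let v203 := mul v197 v202; ok v203 && (
  let v204 := sub v138 v203; ok v204 && (
  let v205 := mul v197 v204; ok v205 && (
  let v206 := sub v141 v205; ok v206 && (
  let v207 := mul v197 v206; ok v207 && (
  let v208 := sub v144 v207; ok v208 && (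
  let v209 := mul v197 v208; ok v209 && (
  let v210 := sub v8 v209; ok v210 && (
  let v211 := mul v197 v210; ok v211 && (
  let v212 := sub v0 v211; ok v212 && (
  let v213 := add v101 v0; ok v213 && (
  let v214 := mul v101 v101; ok v214 && (
  let v215 := add v214 v0; ok v215 && (
  let v216 := mul v101 v212; ok v216 && (
  let v217 := scale ⟨2199023255552, 0, 0, 0⟩ v216; ok v217 && (
  let v218 := add v215 v217; ok v218 && (
  let v219 := scale ⟨4398046511104, 0, 0, 0⟩ v103; ok v219 && (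
  let v220 := sub v218 v219; ok v220 && (
  let v221 := inv v213; ok v221 && (
  let v222 := mul v220 v221; ok v222 && (
  let v223 := add v222 v213; ok v223 && (
  let v224 := mul v101 v196; ok v224 && (
  let v225 := scale ⟨549755813888, 0, 0, 0⟩ v224; ok v225 && (
  let v226 := mul v225 v223; ok v226 && (
  let v227 := sub v220 v226; ok v227 && (
  isPos 4 v220 && (
  isPos 4 v227 && (
  let v228 := sub v0 v101; ok v228 && (
  let v229 := mul v228 v213; ok v229 && (
  let v230 := scale ⟨2199023255552, 0, 0, 0⟩ v103; ok v230 && (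
  let v231 := add v229 v230; ok v231 && (
  let v232 := inv v227; ok v232 && (
  let v233 := mul v231 v232; ok v233 && (
  let v234 := scale ⟨549755813888, 0, 0, 0⟩ v233; ok v234 && (
  let v235 := add v234 v8; ok v235 && (
  let v236 := inv v235; ok v236 && (
  let v237 := mul v234 v236; ok v237 && (
  let v238 := mul v196 v237; ok v238 && (
  let v239 := mul v237 x0; ok v239 && (
  let v240 := add v11 v0; ok v240 && (
  let v241 := inv v240; ok v241 && (
  let v242 := mul v11 v241; ok v242 && (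
  let v243 := scale ⟨2199023255552, 0, 0, 0⟩ v242; ok v243 && (
  let v244 := sub v0 v243; ok v244 && (
  let v245 := sub v0 v11; ok v245 && (
  let v246 := mul x3 v241; ok v246 && (
  let v247 := mul v246 v244; ok v247 && (
  let v248 := add v24 v247; ok v248 && (
  let v249 := scale ⟨224412041216, 0, 0, 0⟩ v15; ok v249 && (
  let v250 := inv v38; ok v250 && (
  let v251 := mul v249 v250; ok v251 && (
  let v252 := scale ⟨4398046511104, 0, 0, 0⟩ x0; ok v252 && (
  let v253 := mul v0 v21; ok v253 && (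
  let v254 := add v252 v253; ok v254 && (
  let v255 := scale ⟨549755813888, 0, 0, 0⟩ v254; ok v255 && (
  let v256 := inv v255; ok v256 && (
  let v257 := mul v0 v256; ok v257 && (
  let v258 := mul x0 v256; ok v258 && (
  let v259 := mul v258 v24; ok v259 && (
  let v260 := mul v259 v251; ok v260 && (
  let v261 := mul v257 v24; ok v261 && (
  let v262 := mul v261 v251; ok v262 && (
  let v263 := sub v0 v262; ok v263 && (
  let v264 := inv v263; ok v264 && (
  let v265 := mul v183 v262; ok v265 && (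
  let v266 := sub v0 v265; ok v266 && (
  let v267 := inv v266; ok v267 && (
  let v268 := scale ⟨2199023255552, 0, 0, 0⟩ v6; ok v268 && (
  let v269 := add v268 v0; ok v269 && (
  let v270 := add v6 v0; ok v270 && (
  let v271 := mul x0 v21; ok v271 && (
  let v272 := scale ⟨1099511627776, 0, 0, 0⟩ v271; ok v272 && (
  let v273 := scale ⟨1099511627776, 0, 0, 0⟩ x1; ok v273 && (
  let v274 := add v272 v273; ok v274 && (
  let v275 := mul x2 v274; ok v275 && (
  let v276 := scale ⟨549755813888, 0, 0, 0⟩ v275; ok v276 && (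
  let v277 := mul v11 v21; ok v277 && (
  let v278 := sub v0 v111; ok v278 && (
  let v279 := mul v11 v22; ok v279 && (
  let v280 := scale ⟨2199023255552, 0, 0, 0⟩ v279; ok v280 && (
  let v281 := sub v278 v280; ok v281 && (
  let v282 := mul v277 v277; ok v282 && (
  let v283 := add v281 v282; ok v283 && (
  let v284 := add v283 v0; ok v284 && (
  let v285 := scale ⟨549755813888, 0, 0, 0⟩ v284; ok v285 && (
  let v286 := scale ⟨549755813888, 0, 0, 0⟩ v25; ok v286 && (
  let v287 := sub v15 v286; ok v287 && (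
  let v288 := mul v112 v278; ok v288 && (
  let v289 := mul v288 v14; ok v289 && (
  let v290 := scale ⟨137438953472, 0, 0, 0⟩ v289; ok v290 && (
  let v291 := add v287 v290; ok v291 && (
  let v292 := mul v285 v291; ok v292 && (
  let v293 := cst ⟨1, 0, 0, 0⟩; ok v293 && (
  let v294 := cst ⟨12, 0, 0, 0⟩; ok v294 && (
  let v295 := mul v128 v293; ok v295 && (
  let v296 := sub v294 v295; ok v296 && (
  let v297 := cst ⟨2296, 0, 0, 0⟩; ok v297 && (
  let v298 := mul v128 v296; ok v298 && (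
  let v299 := sub v297 v298; ok v299 && (
  let v300 := cst ⟨302995, 0, 0, 0⟩; ok v300 && (
  let v301 := mul v128 v299; ok v301 && (
  let v302 := sub v300 v301; ok v302 && (
  let v303 := cst ⟨27269634, 0, 0, 0⟩; ok v303 && (
  let v304 := mul v128 v302; ok v304 && (
  let v305 := sub v303 v304; ok v305 && (
  let v306 := cst ⟨1527099483, 0, 0, 0⟩; ok v306 && (
  let v307 := mul v128 v305; ok v307 && (
  let v308 := sub v306 v307; ok v308 && (
  let v309 := cst ⟨45812984491, 0, 0, 0⟩; ok v309 && (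
  let v310 := mul v128 v308; ok v310 && (
  let v311 := sub v309 v310; ok v311 && (
  let v312 := mul v128 v311; ok v312 && (
  let v313 := sub v8 v312; ok v313 && (
  let v314 := mul v128 v313; ok v314 && (
  let v315 := sub v0 v314; ok v315 && (
  let v316 := mul v128 v6; ok v316 && (
  let v317 := mul v316 v316; ok v317 && (
  let v318 := scale ⟨369367187456, 0, 0, 0⟩ v317; ok v318 && (
  let v319 := add v315 v318; ok v319 && (
  let v320 := mul v96 v319; ok v320 && (
  let v321 := scale ⟨2199023255552, 0, 0, 0⟩ v320; ok v321 && (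
  let v322 := add v153 v321; ok v322 && (
  let v323 := add v322 v168; ok v323 && (
  let v324 := cst ⟨8589934592, 0, 0, 0⟩; ok v324 && (
  let v325 := add v323 v324; ok v325 && (
  let v326 := log v325; ok v326 && (
  let v327 := scale ⟨549755813888, 0, 0, 0⟩ v326; ok v327 && (
  let v328 := exp v327; ok v328 && (
  let v329 := mul v96 v176; ok v329 && (
  let v330 := add v328 v329; ok v330 && (
  let v331 := mul v330 v264; ok v331 && (
  let v332 := mul v183 v267; ok v332 && (
  let v333 := add v331 v332; ok v333 && (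
  let v334 := mul v262 v333; ok v334 && (
  let v335 := add v186 v334; ok v335 && (
  let v336 := mul v335 v6; ok v336 && (
  let v337 := mul v330 v262; ok v337 && (
  let v338 := mul v337 v264; ok v338 && (
  let v339 := add v186 v338; ok v339 && (
  let v340 := mul v339 v6; ok v340 && (
  let v341 := scale ⟨223338299392, 0, 0, 0⟩ v340; ok v341 && (
  let v342 := add v8 v341; ok v342 && (
  let v343 := mul v340 v342; ok v343 && (
  let v344 := add v0 v343; ok v344 && (
  let v345 := scale ⟨893353197568, 0, 0, 0⟩ v336; ok v345 && (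
  let v346 := add v0 v345; ok v346 && (
  let v347 := mul v336 v346; ok v347 && (
  let v348 := add v0 v347; ok v348 && (
  let v349 := mul v243 v246; ok v349 && (
  let v350 := mul v349 v269; ok v350 && (
  let v351 := mul v350 v348; ok v351 && (
  let v352 := mul v292 v344; ok v352 && (
  let v353 := add v52 v8; ok v353 && (
  let v354 := mul v351 v353; ok v354 && (
  let v355 := add v352 v354; ok v355 && (
  let v356 := add v52 v0; ok v356 && (
  let v357 := mul v351 v356; ok v357 && (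
  let v358 := mul v270 v356; ok v358 && (
  let v359 := mul v358 v246; ok v359 && (
  let v360 := mul v359 v245; ok v360 && (
  let v361 := mul v355 v185; ok v361 && (
  let v362 := mul v360 v276; ok v362 && (
  let v363 := add v361 v362; ok v363 && (
  let v364 := mul v5 v248; ok v364 && (
  let v365 := inv v52; ok v365 && (
  let v366 := mul v364 v365; ok v366 && (
  let v367 := scale ⟨549755813888, 0, 0, 0⟩ v366; ok v367 && (
  let v368 := mul v23 v367; ok v368 && (
  let v369 := add v368 v363; ok v369 && (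
  let v370 := mul x1 v369; ok v370 && (
  let v371 := mul x0 v370; ok v371 && (
  let v372 := mul v355 v330; ok v372 && (
  let v373 := mul v372 v264; ok v373 && (
  let v374 := mul v357 v183; ok v374 && (
  let v375 := mul v374 v267; ok v375 && (
  let v376 := add v373 v375; ok v376 && (
  let v377 := mul v23 v371; ok v377 && (
  let v378 := mul v260 v376; ok v378 && (
  let v379 := add v377 v378; ok v379 && (
  let v380 := mul v112 v379; ok v380 && (
  let v381 := mul v380 v365; ok v381 && (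
  let v382 := sub v0 v381; ok v382 && (
  let v383 := inv v382; ok v383 && (
  let v384 := mul v379 v383; ok v384 && (
  let v385 := mul x1 v384; ok v385 && (
  let v386 := mul v112 v384; ok v386 && (
  let v387 := mul v386 v365; ok v387 && (
  let v388 := sub v0 v387; ok v388 && (
  let v389 := mul v49 v388; ok v389 && (
  let v390 := sub v389 v385; ok v390 && (
  let v391 := inv v390; ok v391 && (
  let v392 := mul v385 v391; ok v392 && (
  let v393 := sub v52 v386; ok v393 && (
  let v394 := inv v393; ok v394 && (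
  let v395 := mul v392 v237; ok v395 && (
  let v396 := scale ⟨549755813888, 0, 0, 0⟩ v395; ok v396 && (
  let v397 := sub v0 v396; ok v397 && (
  let v398 := sub v0 v395; ok v398 && (
  let v399 := inv v398; ok v399 && (
  let v400 := mul v397 v399; ok v400 && (
  let v401 := mul v3 v394; ok v401 && (
  let v402 := mul v239 v391; ok v402 && (
  let v403 := mul v402 v400; ok v403 && (
  let v404 := add v401 v403; ok v404 && (
  let v405 := mul v7 v384; ok v405 && (
  let v406 := mul v394 v405; ok v406 && (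
  let v407 := mul v237 v391; ok v407 && (
  let v408 := mul v407 v400; ok v408 && (
  let v409 := mul v408 v385; ok v409 && (
  let v410 := add v406 v409; ok v410 && (
  let v411 := scale ⟨223338299392, 0, 0, 0⟩ v410; ok v411 && (
  let v412 := add v8 v411; ok v412 && (
  let v413 := mul v410 v412; ok v413 && (
  let v414 := add v0 v413; ok v414 && (
  let v415 := mul v404 v414; ok v415 && (
  let v416 := mul v415 v383; ok v416 && (
  let v417 := mul v416 v376; ok v417 && (
  let v418 := mul v261 v23; ok v418 && (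
  let v419 := cst ⟨5497558138880, 0, 0, 0⟩; ok v419 && (
  let v420 := inv v419; ok v420 && (
  let v421 := mul v53 v420; ok v421 && (
  let v422 := mul v240 v24; ok v422 && (
  let v423 := mul v422 v421; ok v423 && (
  let v424 := mul v188 v106; ok v424 && (
  let v425 := mul v22 v424; ok v425 && (
  let v426 := scale ⟨549755813888, 0, 0, 0⟩ v238; ok v426 && (
  let v427 := sub v0 v426; ok v427 && (
  let v428 := sub v0 v238; ok v428 && (
  let v429 := inv v428; ok v429 && (
  let v430 := mul v427 v429; ok v430 && (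
  let v431 := mul v430 v196; ok v431 && (
  let v432 := mul v112 v122; ok v432 && (
  let v433 := scale ⟨733097230336, 0, 0, 0⟩ v432; ok v433 && (
  let v434 := sub v0 v433; ok v434 && (
  let v435 := mul v122 v434; ok v435 && (
  let v436 := mul v89 v89; ok v436 && (
  let v437 := mul v12 v436; ok v437 && (
  let v438 := add v435 v437; ok v438 && (
  let v439 := mul v431 v239; ok v439 && (
  let v440 := add v438 v0; ok v440 && (
  let v441 := mul v439 v440; ok v441 && (
  let v442 := sub v438 v441; ok v442 && (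
  let v443 := scale ⟨366548615168, 0, 0, 0⟩ v45; ok v443 && (
  let v444 := sub v0 v443; ok v444 && (
  let v445 := mul v26 v444; ok v445 && (
  let v446 := add v442 v445; ok v446 && (
  let v447 := mul v424 v446; ok v447 && (
  let v448 := mul v425 v425; ok v448 && (
  let v449 := add v0 v448; ok v449 && (
  let v450 := inv v449; ok v450 && (
  let v451 := mul v447 v450; ok v451 && (
  let v452 := sub v0 v392; ok v452 && (
  let v453 := mul v452 v451; ok v453 && (
  let v454 := sub v0 v439; ok v454 && (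
  isPos 4 v454 && (
  isPos 4 v451 && (
  isPos 4 v452 && (
  let v455 := mul v416 v255; ok v455 && (
  let v456 := mul v455 v369; ok v456 && (
  let v457 := inv v24; ok v457 && (
  let v458 := mul v456 v457; ok v458 && (
  let v459 := mul v4 v453; ok v459 && (
  let v460 := mul x1 v459; ok v460 && (
  let v461 := scale ⟨549755813888, 0, 0, 0⟩ v460; ok v461 && (
  let v462 := sub v0 v461; ok v462 && (
  let v463 := mul v459 v462; ok v463 && (
  let v464 := neg v463; ok v464 && (
  let v465 := mul v3 x3; ok v465 && (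
  let v466 := mul v465 v240; ok v466 && (
  let v467 := mul v466 v15; ok v467 && (
  let v468 := mul v0 v467; ok v468 && (
  let v469 := add v464 v468; ok v469 && (
  let v470 := mul v464 v468; ok v470 && (
  let v471 := mul x1 v470; ok v471 && (
  let v472 := add v469 v471; ok v472 && (
  let v473 := mul v12 v42; ok v473 && (
  let v474 := scale ⟨412316860416, 0, 0, 0⟩ v43; ok v474 && (
  let v475 := sub v8 v474; ok v475 && (
  let v476 := mul v473 v475; ok v476 && (
  let v477 := mul v0 v476; ok v477 && (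
  let v478 := neg v477; ok v478 && (
  let v479 := add v472 v478; ok v479 && (
  let v480 := mul v472 v478; ok v480 && (
  let v481 := mul x1 v480; ok v481 && (
  let v482 := add v479 v481; ok v482 && (
  let v483 := mul v3 v384; ok v483 && (
  let v484 := mul v483 v457; ok v484 && (
  let v485 := mul v0 v484; ok v485 && (
  let v486 := add v482 v485; ok v486 && (
  let v487 := mul v482 v485; ok v487 && (
  let v488 := mul x1 v487; ok v488 && (
  let v489 := add v486 v488; ok v489 && (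
  let v490 := mul v0 v423; ok v490 && (
  let v491 := sub v489 v490; ok v491 && (
  let v492 := mul x1 v423; ok v492 && (
  let v493 := add v0 v492; ok v493 && (
  let v494 := inv v493; ok v494 && (
  let v495 := mul v491 v494; ok v495 && (
  let v496 := mul v3 v9; ok v496 && (
  let v497 := mul v496 v384; ok v497 && (
  let v498 := mul v497 v394; ok v498 && (
  let v499 := mul v0 v498; ok v499 && (
  let v500 := add v495 v499; ok v500 && (
  let v501 := mul v495 v499; ok v501 && (
  let v502 := mul x1 v501; ok v502 && (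
  let v503 := add v500 v502; ok v503 && (
  let v504 := mul x1 v503; ok v504 && (
  let v505 := add v0 v504; ok v505 && (
  let v506 := mul v417 v262; ok v506 && (
  let v507 := mul x1 v418; ok v507 && (
  let v508 := mul v458 v507; ok v508 && (
  let v509 := add v506 v508; ok v509 && (
  let v510 := mul v0 v509; ok v510 && (
  let v511 := add v417 v458; ok v511 && (
  let v512 := mul v0 v511; ok v512 && (
  let v513 := mul v510 v505; ok v513 && (
  let v514 := add v503 v513; ok v514 && (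
  let v515 := add v514 v512; ok v515 && (
  let v516 := neg v515; ok v516 && (
  let v517 := scale ⟨1073741824, 0, 0, 0⟩ v0; ok v517 && (
  let v518 := sub v516 v517; ok v518 && (
  let v519 := sub v20 v0; ok v519 && (
  let v520 := add v519 v56; ok v520 && (
  let v521 := scale ⟨2199023255552, 0, 0, 0⟩ v421; ok v521 && (
  let v522 := sub v520 v521; ok v522 && (
  let v523 := mul v240 v522; ok v523 && (
  let v524 := mul v519 v521; ok v524 && (
  let v525 := add v524 v0; ok v525 && (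
  let v526 := inv v525; ok v526 && (
  let v527 := mul v523 v526; ok v527 && (
  let v528 := mul v258 v376; ok v528 && (
  let v529 := scale ⟨549755813888, 0, 0, 0⟩ v251; ok v529 && (
  let v530 := add v17 v529; ok v530 && (
  let v531 := mul v528 v530; ok v531 && (
  let v532 := scale ⟨2199023255552, 0, 0, 0⟩ v531; ok v532 && (
  let v533 := add v371 v532; ok v533 && (
  let v534 := scale ⟨2199023255552, 0, 0, 0⟩ v533; ok v534 && (
  let v535 := mul v534 v383; ok v535 && (
  let v536 := mul v9 v384; ok v536 && (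
  let v537 := sub v24 v536; ok v537 && (
  let v538 := inv v537; ok v538 && (
  let v539 := mul v535 v538; ok v539 && (
  let v540 := sub v527 v539; ok v540 && (
  let v541 := mul v253 v253; ok v541 && (
  let v542 := cst ⟨14293651161088, 0, 0, 0⟩; ok v542 && (
  let v543 := cst ⟨10995116277760, 0, 0, 0⟩; ok v543 && (
  let v544 := inv v543; ok v544 && (
  let v545 := mul v542 v544; ok v545 && (
  let v546 := mul v541 v545; ok v546 && (
  let v547 := mul x0 x0; ok v547 && (
  let v548 := scale ⟨27487790694400, 0, 0, 0⟩ v547; ok v548 && (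
  let v549 := add v546 v548; ok v549 && (
  let v550 := mul v423 v494; ok v550 && (
  let v551 := sub v40 x1; ok v551 && (
  let v552 := sub v551 v39; ok v552 && (
  let v553 := mul v0 v3; ok v553 && (
  let v554 := mul v553 x0; ok v554 && (
  let v555 := mul v24 v376; ok v555 && (
  let v556 := mul v555 v256; ok v556 && (
  let v557 := add v363 v556; ok v557 && (
  let v558 := add v536 v56; ok v558 && (
  let v559 := mul v0 v558; ok v559 && (
  let v560 := mul v549 v550; ok v560 && (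
  let v561 := mul v383 v559; ok v561 && (
  let v562 := mul v554 v557; ok v562 && (
  let v563 := mul v561 v562; ok v563 && (
  let v564 := sub v560 v563; ok v564 && (
  let v565 := scale ⟨549755813888, 0, 0, 0⟩ v536; ok v565 && (
  let v566 := add v0 v565; ok v566 && (
  let v567 := mul v383 v566; ok v567 && (
  let v568 := mul x1 v23; ok v568 && (
  let v569 := mul v568 v248; ok v569 && (
  let v570 := mul v24 v52; ok v570 && (
  let v571 := inv v570; ok v571 && (
  let v572 := mul v569 v571; ok v572 && (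
  let v573 := mul v567 v572; ok v573 && (
  let v574 := sub v552 v573; ok v574 && (
  let v575 := mul v251 v564; ok v575 && (
  let v576 := sub v0 v251; ok v576 && (
  let v577 := mul v12 v574; ok v577 && (
  let v578 := mul v576 v577; ok v578 && (
  let v579 := mul v549 v578; ok v579 && (
  let v580 := add v575 v579; ok v580 && (
  isPos 4 v263 && (
  isPos 4 v266 && (
  let v581 := scale ⟨2199023255552, 0, 0, 0⟩ v380; ok v581 && (
  let v582 := sub v52 v581; ok v582 && (
  isPos 4 v582 && (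
  isPos 4 v390 && (
  let v583 := sub v8 v238; ok v583 && (
  isPos 4 v583 && (
  let v584 := scale ⟨687194767360, 0, 0, 0⟩ v0; ok v584 && (
  let v585 := sub v584 v340; ok v585 && (
  isPos 4 v585 && (
  let v586 := scale ⟨377957122048, 0, 0, 0⟩ v0; ok v586 && (
  let v587 := sub v586 v336; ok v587 && (
  isPos 4 v587 && (
  isPos 4 v537 && (
  isPos 4 v398 && (
  let v588 := sub v584 v410; ok v588 && (
  isPos 4 v588 && (
  isPos 4 v540 && (
  isPos 4 v518 && (
  isPos 4 v580 && (
  isPos 4 v574 && (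
  true))))))))))))))))))))))))))))))))))))))))))))))))))))))))))))))))))))))))))))))))))))))))))))))))))))))))))))))))))))))))))))))))))))))))))))))))))))))))))))))))))))))))))))))))))))))))))))))))))))))))))))))))))))))))))))))))))))))))))))))))))))))))))))))))))))))))))))))))))))))))))))))))))))))))))))))))))))))))))))))))))))))))))))))))))))))))))))))))))))))))))))))))))))))))))))))))))))))))))))))))))))))))))))))))))))))))))))))))))))))))))))))))))))))))))))))))))))))))))))))))))))))))))))))))))))))))))))))))))))))))))))))))))))))))))))))))))))))))))))))))))))))))))))))))))))))))))))))))))))))))))))))))))))))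
  | _ => false

set_option maxRecDepth 1000000 in
theorem chk1_eq (O : Ops) (m : List O.α)
    (h : chk1 O.cst O.add O.sub O.mul O.scale O.neg O.inv O.exp O.log O.ok O.isPos O.isLt m = true) :
    runG O 4 prog1 m = true := by
  match m, h with
  | [x0, x1, x2, x3], h => exact h

def chkB1 : List opsE.α → Bool :=
  chk1 opsE.cst opsE.add opsE.sub opsE.mul opsE.scale opsE.neg opsE.inv opsE.exp opsE.log opsE.ok opsE.isPos opsE.isLt

theorem chkB1_eq (m : List opsE.α) (h : chkB1 m = true) : runG opsE 4 prog1 m = true :=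
  chk1_eq opsE m h

def prog2 : List Op := [
  .const ⟨1099511627776, 0, 0, 0⟩,
  .mul 2 3,
  .mul 0 2,
  .mul 5 0,
  .mul 6 6,
  .mul 6 0,
  .mul 3 3,
  .mul 8 1,
  .const ⟨549755813888, 0, 0, 0⟩,
  .mul 10 5,
  .mul 0 13,
  .scale ⟨549755813888, 0, 0, 0⟩ 0,
  .mul 8 8,
  .mul 1 1,
  .sub 13 0,
  .inv 0,
  .mul 4 0,
  .scale ⟨2199023255552, 0, 0, 0⟩ 0,
  .scale ⟨2199023255552, 0, 0, 0⟩ 2,
  .sub 0 18,
  .add 0 2,
  .mul 24 5,
  .mul 18 0,
  .sub 22 0,
  .add 23 1,
  .mul 26 12,
  .mul 4 4,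
  .scale ⟨10774999203840, 0, 0, 0⟩ 15,
  .scale ⟨45768245248, 0, 0, 0⟩ 0,
  .const ⟨183207198720, 0, 0, 0⟩,
  .add 1 0,
  .mul 3 0,
  .add 23 0,
  .mul 5 0,
  .add 33 0,
  .mul 7 0,
  .scale ⟨549755813888, 0, 0, 0⟩ 0,
  .add 36 0,
  .mul 3 0,
  .mul 21 16,
  .scale ⟨2199023255552, 0, 0, 0⟩ 20,
  .add 1 0,
  .add 0 43,
  .mul 17 0,
  .add 0 43,
  .mul 27 27,
  .scale ⟨2199023255552, 0, 0, 0⟩ 0,
  .add 0 46,
  .mul 28 5,
  .sub 0 48,
  .log 5,
  .scale ⟨549755813888, 0, 0, 0⟩ 0,
  .exp 0,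
  .const ⟨3298534883328, 0, 0, 0⟩,
  .inv 0,
  .mul 54 0,
  .const ⟨2199023255552, 0, 0, 0⟩,
  .add 13 0,
  .inv 0,
  .mul 15 0,
  .mul 0 0,
  .sub 60 1,
  .mul 1 6,
  .add 62 0,
  .mul 2 0,
  .mul 4 4,
  .scale ⟨219915747328, 0, 0, 0⟩ 0,
  .mul 24 2,
  .scale ⟨549755813888, 0, 0, 0⟩ 0,
  .mul 26 2,
  .scale ⟨549755813888, 0, 0, 0⟩ 0,
  .add 2 0,
  .mul 52 22,
  .scale ⟨4398046511104, 0, 0, 0⟩ 0,
  .mul 54 48,
  .mul 0 25,
  .scale ⟨4398046511104, 0, 0, 0⟩ 0,
  .add 0 20,
  .inv 0,
  .mul 2 0,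
  .mul 0 0,
  .sub 80 1,
  .mul 1 26,
  .add 82 0,
  .mul 2 0,
  .mul 4 4,
  .scale ⟨219915747328, 0, 0, 0⟩ 0,
  .mul 13 2,
  .scale ⟨549755813888, 0, 0, 0⟩ 0,
  .sub 0 17,
  .mul 16 3,
  .scale ⟨549755813888, 0, 0, 0⟩ 0,
  .add 0 21,
  .add 3 0,
  .mul 88 25,
  .neg 0,
  .exp 0,
  .mul 91 26,
  .mul 1 0,
  .mul 93 9,
  .neg 0,
  .exp 0,
  .mul 96 9,
  .mul 1 0,
  .mul 81 86,
  .add 85 0,
  .inv 0,
  .mul 82 0,
  .mul 84 109,
  .mul 0 1,
  .sub 109 97,
  .mul 84 0,
  .mul 102 102,
  .sub 112 86,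
  .mul 3 0,
  .mul 89 65,
  .inv 71,
  .mul 1 0,
  .add 98 0,
  .mul 74 0,
  .mul 0 0,
  .inv 0,
  .mul 7 0,
  .add 103 97,
  .mul 124 0,
  .inv 0,
  .mul 125 0,
  .mul 0 0,
  .mul 0 13,
  .mul 19 128,
  .scale ⟨549755813888, 0, 0, 0⟩ 0,
  .sub 130 0,
  .sub 131 2,
  .inv 0,
  .mul 2 0,
  .add 5 134,
  .mul 39 0,
  .mul 29 2,
  .mul 0 137,
  .mul 9 4,
  .pos 7,
  .mul 116 115,
  .add 121 142,
  .mul 119 122,
  .mul 0 125,
  .scale ⟨2199023255552, 0, 0, 0⟩ 0,
  .add 97 0,
  .mul 4 0,
  .inv 0,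
  .mul 7 0,
  .mul 150 0,
  .pos 60,
  .mul 21 33,
  .const ⟨10849087389696, 0, 0, 0⟩,
  .sub 0 1,
  .pos 0,
  .const ⟨13, 0, 0, 0⟩,
  .const ⟨2295, 0, 0, 0⟩,
  .mul 4 1,
  .sub 1 0,
  .const ⟨302996, 0, 0, 0⟩,
  .mul 7 1,
  .sub 1 0,
  .const ⟨27269633, 0, 0, 0⟩,
  .mul 10 1,
  .sub 1 0,
  .const ⟨1527099484, 0, 0, 0⟩,
  .mul 13 1,
  .sub 1 0,
  .const ⟨45812984490, 0, 0, 0⟩,
  .mul 16 1,
  .sub 1 0,
  .mul 18 0,
  .sub 161 0,
  .mul 20 0,
  .sub 171 0,
  .add 71 172,
  .mul 72 72,
  .add 0 174,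
  .mul 74 3,
  .scale ⟨2199023255552, 0, 0, 0⟩ 0,
  .add 2 0,
  .scale ⟨4398046511104, 0, 0, 0⟩ 75,
  .sub 1 0,
  .inv 7,
  .mul 1 0,
  .add 0 9,
  .mul 82 34,
  .scale ⟨549755813888, 0, 0, 0⟩ 0,
  .mul 0 2,
  .sub 6 0,
  .pos 7,
  .pos 0,
  .sub 187 86,
  .mul 0 15,
  .scale ⟨2199023255552, 0, 0, 0⟩ 86,
  .add 1 0,
  .inv 4,
  .mul 1 0,
  .scale ⟨549755813888, 0, 0, 0⟩ 0,
  .add 0 186,
  .inv 0,
  .mul 2 0,
  .mul 48 0,
  .mul 1 199,
  .add 188 199,
  .inv 0,
  .mul 190 0,
  .scale ⟨2199023255552, 0, 0, 0⟩ 0,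
  .sub 203 0,
  .sub 204 193,
  .mul 209 4,
  .mul 0 2,
  .add 183 0,
  .scale ⟨224412041216, 0, 0, 0⟩ 193,
  .inv 171,
  .mul 1 0,
  .scale ⟨4398046511104, 0, 0, 0⟩ 212,
  .mul 212 191,
  .add 1 0,
  .scale ⟨549755813888, 0, 0, 0⟩ 0,
  .inv 0,
  .mul 216 0,
  .mul 218 1,
  .mul 0 194,
  .mul 0 8,
  .mul 3 196,
  .mul 0 10,
  .sub 222 0,
  .inv 0,
  .mul 88 2,
  .sub 225 0,
  .inv 0,
  .scale ⟨2199023255552, 0, 0, 0⟩ 221,
  .add 0 228,
  .add 223 229,
  .mul 231 209,
  .scale ⟨2199023255552, 0, 0, 0⟩ 0,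
  .scale ⟨549755813888, 0, 0, 0⟩ 234,
  .add 1 0,
  .mul 237 0,
  .scale ⟨549755813888, 0, 0, 0⟩ 0,
  .mul 225 215,
  .sub 237 126,
  .mul 227 216,
  .scale ⟨2199023255552, 0, 0, 0⟩ 0,
  .sub 2 0,
  .mul 4 4,
  .add 1 0,
  .add 0 243,
  .scale ⟨549755813888, 0, 0, 0⟩ 0,
  .scale ⟨549755813888, 0, 0, 0⟩ 220,
  .sub 231 0,
  .mul 135 9,
  .mul 0 234,
  .scale ⟨137438953472, 0, 0, 0⟩ 0,
  .add 3 0,
  .mul 6 0,
  .const ⟨1, 0, 0, 0⟩,
  .const ⟨12, 0, 0, 0⟩,
  .mul 126 1,
  .sub 1 0,
  .const ⟨2296, 0, 0, 0⟩,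
  .mul 129 1,
  .sub 1 0,
  .const ⟨302995, 0, 0, 0⟩,
  .mul 132 1,
  .sub 1 0,
  .const ⟨27269634, 0, 0, 0⟩,
  .mul 135 1,
  .sub 1 0,
  .const ⟨1527099483, 0, 0, 0⟩,
  .mul 138 1,
  .sub 1 0,
  .const ⟨45812984491, 0, 0, 0⟩,
  .mul 141 1,
  .sub 1 0,
  .mul 143 0,
  .sub 264 0,
  .mul 145 0,
  .sub 274 0,
  .mul 147 269,
  .mul 180 180,
  .add 0 277,
  .mul 2 2,
  .scale ⟨369367187456, 0, 0, 0⟩ 0,
  .add 5 0,
  .mul 185 0,
  .scale ⟨2199023255552, 0, 0, 0⟩ 0,
  .add 5 0,
  .scale ⟨2199023255552, 0, 0, 0⟩ 186,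
  .add 1 0,
  .const ⟨8589934592, 0, 0, 0⟩,
  .add 1 0,
  .log 0,
  .scale ⟨549755813888, 0, 0, 0⟩ 0,
  .exp 0,
  .mul 195 162,
  .add 1 0,
  .mul 0 69,
  .mul 158 67,
  .add 1 0,
  .mul 74 0,
  .add 158 0,
  .mul 0 292,
  .mul 6 77,
  .mul 0 76,
  .add 162 0,
  .mul 0 296,
  .scale ⟨223338299392, 0, 0, 0⟩ 0,
  .add 296 0,
  .mul 2 0,
  .add 306 0,
  .scale ⟨893353197568, 0, 0, 0⟩ 8,
  .add 308 0,
  .mul 10 0,
  .add 310 0,
  .mul 108 105,
  .mul 0 83,
  .mul 0 2,
  .mul 62 7,
  .add 263 307,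
  .mul 2 0,
  .add 2 0,
  .add 266 318,
  .mul 5 0,
  .mul 90 1,
  .mul 0 115,
  .mul 0 117,
  .mul 5 185,
  .mul 1 88,
  .add 1 0,
  .mul 321 118,
  .inv 275,
  .mul 1 0,
  .scale ⟨549755813888, 0, 0, 0⟩ 0,
  .mul 307 0,
  .add 0 5,
  .mul 334 0,
  .mul 334 0,
  .mul 16 41,
  .mul 0 111,
  .mul 16 200,
  .mul 0 110,
  .add 2 0,
  .mul 316 5,
  .mul 120 1,
  .add 1 0,
  .mul 230 0,
  .mul 0 15,
  .sub 344 0,
  .inv 0,
  .mul 4 0,
  .mul 349 0,
  .mul 236 1,
  .mul 0 21,
  .sub 350 0,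
  .mul 302 0,
  .sub 0 4,
  .inv 0,
  .mul 6 0,
  .sub 303 6,
  .inv 0,
  .mul 2 160,
  .scale ⟨549755813888, 0, 0, 0⟩ 0,
  .sub 359 0,
  .sub 360 2,
  .inv 0,
  .mul 2 0,
  .mul 360 6,
  .mul 165 10,
  .mul 0 2,
  .add 2 0,
  .mul 360 20,
  .mul 11 0,
  .mul 172 15,
  .mul 0 7,
  .mul 0 23,
  .add 3 0,
  .scale ⟨223338299392, 0, 0, 0⟩ 0,
  .add 366 0,
  .mul 2 0,
  .add 376 0,
  .mul 10 0,
  .mul 0 32,
  .mul 0 40,
  .mul 159 357,
  .const ⟨5497558138880, 0, 0, 0⟩,
  .inv 0,
  .mul 330 0,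
  .mul 184 360,
  .mul 0 1,
  .mul 245 280,
  .mul 365 0,
  .scale ⟨549755813888, 0, 0, 0⟩ 190,
  .sub 389 0,
  .sub 390 192,
  .inv 0,
  .mul 2 0,
  .mul 0 244,
  .mul 282 272,
  .scale ⟨733097230336, 0, 0, 0⟩ 0,
  .sub 396 0,
  .mul 275 0,
  .mul 309 309,
  .mul 387 0,
  .add 2 0,
  .mul 7 202,
  .add 1 402,
  .mul 1 0,
  .sub 3 0,
  .scale ⟨366548615168, 0, 0, 0⟩ 360,
  .sub 406 0,
  .mul 381 0,
  .add 3 0,
  .mul 22 0,
  .mul 22 22,
  .add 411 0,
  .inv 0,
  .mul 3 0,
  .sub 414 59,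
  .mul 0 1,
  .sub 416 14,
  .pos 0,
  .pos 3,
  .pos 2,
  .mul 38 202,
  .mul 0 86,
  .inv 395,
  .mul 1 0,
  .mul 417 5,
  .mul 424 0,
  .scale ⟨549755813888, 0, 0, 0⟩ 0,
  .sub 424 0,
  .mul 3 0,
  .neg 0,
  .mul 424 431,
  .mul 0 228,
  .mul 0 414,
  .mul 430 0,
  .add 4 0,
  .mul 5 1,
  .mul 435 0,
  .add 2 0,
  .mul 423 393,
  .scale ⟨412316860416, 0, 0, 0⟩ 393,
  .sub 429 0,
  .mul 2 0,
  .mul 439 0,
  .neg 0,
  .add 6 0,
  .mul 7 1,
  .mul 445 0,
  .add 2 0,
  .mul 442 98,
  .mul 0 26,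
  .mul 447 0,
  .add 3 0,
  .mul 4 1,
  .mul 452 0,
  .add 2 0,
  .mul 452 66,
  .sub 1 0,
  .mul 456 68,
  .add 455 0,
  .inv 0,
  .mul 3 0,
  .mul 455 449,
  .mul 0 112,
  .mul 0 103,
  .mul 461 0,
  .add 4 0,
  .mul 5 1,
  .mul 466 0,
  .add 2 0,
  .mul 468 0,
  .add 467 0,
  .mul 88 246,
  .mul 471 88,
  .mul 49 0,
  .add 2 0,
  .mul 472 0,
  .add 93 52,
  .mul 474 0,
  .mul 2 7,
  .add 10 0,
  .add 0 2,
  .neg 0,
  .scale ⟨1073741824, 0, 0, 0⟩ 479,
  .sub 1 0,
  .sub 461 481,
  .add 0 426,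
  .scale ⟨2199023255552, 0, 0, 0⟩ 99,
  .sub 1 0,
  .mul 285 0,
  .mul 4 2,
  .add 0 487,
  .inv 0,
  .mul 3 0,
  .mul 272 151,
  .scale ⟨549755813888, 0, 0, 0⟩ 280,
  .add 475 0,
  .mul 2 0,
  .scale ⟨2199023255552, 0, 0, 0⟩ 0,
  .add 161 0,
  .scale ⟨2199023255552, 0, 0, 0⟩ 0,
  .mul 0 151,
  .mul 489 151,
  .sub 475 0,
  .inv 0,
  .mul 3 0,
  .sub 12 0,
  .mul 290 290,
  .const ⟨14293651161088, 0, 0, 0⟩,
  .const ⟨10995116277760, 0, 0, 0⟩,
  .inv 0,
  .mul 2 0,
  .mul 4 0,
  .mul 510 510,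
  .scale ⟨27487790694400, 0, 0, 0⟩ 0,
  .add 2 0,
  .mul 126 55,
  .sub 473 515,
  .sub 0 475,
  .mul 515 512,
  .mul 0 517,
  .mul 493 178,
  .mul 0 302,
  .add 193 0,
  .add 21 464,
  .mul 521 0,
  .mul 10 9,
  .mul 177 1,
  .mul 7 4,
  .mul 1 0,
  .sub 3 0,
  .scale ⟨549755813888, 0, 0, 0⟩ 28,
  .add 528 0,
  .mul 183 0,
  .mul 532 507,
  .mul 0 323,
  .mul 508 480,
  .inv 0,
  .mul 2 0,
  .mul 5 0,
  .sub 21 0,
  .mul 326 10,
  .sub 538 327,
  .mul 527 2,
  .mul 1 0,
  .mul 29 0,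
  .add 4 0,
  .pos 320,
  .pos 317,
  .scale ⟨2199023255552, 0, 0, 0⟩ 200,
  .sub 492 0,
  .pos 0,
  .pos 192,
  .sub 537 347,
  .pos 0,
  .scale ⟨687194767360, 0, 0, 0⟩ 546,
  .sub 0 244,
  .pos 0,
  .scale ⟨377957122048, 0, 0, 0⟩ 548,
  .sub 0 250,
  .pos 0,
  .pos 50,
  .pos 189,
  .sub 3 177,
  .pos 0,
  .pos 48,
  .pos 70,
  .pos 8,
  .pos 14]

def chk2 {α : Type} (cst : Z → α) (add sub mul : α → α → α) (scale : Z → α → α)
    (neg inv exp log : α → α) (ok : α → Bool) (isPos : Nat → α → Bool) (isLt : α → Nat → Bool) :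
    List α → Bool
  | [x0, x1, x2, x3] =>
  let v0 := cst ⟨1099511627776, 0, 0, 0⟩; ok v0 && (
  let v1 := mul x1 x2; ok v1 && (
  let v2 := mul v1 x0; ok v2 && (
  let v3 := mul x2 v2; ok v3 && (
  let v4 := mul x2 x2; ok v4 && (
  let v5 := mul x1 v4; ok v5 && (
  let v6 := mul v2 v2; ok v6 && (
  let v7 := mul x1 v5; ok v7 && (
  let v8 := cst ⟨549755813888, 0, 0, 0⟩; ok v8 && (
  let v9 := mul x1 v3; ok v9 && (
  let v10 := mul v9 x3; ok v10 && (
  let v11 := scale ⟨549755813888, 0, 0, 0⟩ v10; ok v11 && (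
  let v12 := mul v3 v3; ok v12 && (
  let v13 := mul v11 v11; ok v13 && (
  let v14 := sub v0 v13; ok v14 && (
  let v15 := inv v14; ok v15 && (
  let v16 := mul v11 v15; ok v16 && (
  let v17 := scale ⟨2199023255552, 0, 0, 0⟩ v16; ok v17 && (
  let v18 := scale ⟨2199023255552, 0, 0, 0⟩ v15; ok v18 && (
  let v19 := sub v18 v0; ok v19 && (
  let v20 := add v19 v17; ok v20 && (
  let v21 := mul x3 v15; ok v21 && (
  let v22 := mul v3 v21; ok v22 && (
  let v23 := sub v0 v22; ok v23 && (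
  let v24 := add v0 v22; ok v24 && (
  let v25 := mul x1 v12; ok v25 && (
  let v26 := mul v21 v21; ok v26 && (
  let v27 := scale ⟨10774999203840, 0, 0, 0⟩ v11; ok v27 && (
  let v28 := scale ⟨45768245248, 0, 0, 0⟩ v27; ok v28 && (
  let v29 := cst ⟨183207198720, 0, 0, 0⟩; ok v29 && (
  let v30 := add v28 v29; ok v30 && (
  let v31 := mul v27 v30; ok v31 && (
  let v32 := add v8 v31; ok v32 && (
  let v33 := mul v27 v32; ok v33 && (
  let v34 := add v0 v33; ok v34 && (
  let v35 := mul v27 v34; ok v35 && (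
  let v36 := scale ⟨549755813888, 0, 0, 0⟩ v35; ok v36 && (
  let v37 := add v0 v36; ok v37 && (
  let v38 := mul v34 v37; ok v38 && (
  let v39 := mul v17 v22; ok v39 && (
  let v40 := scale ⟨2199023255552, 0, 0, 0⟩ v19; ok v40 && (
  let v41 := add v39 v40; ok v41 && (
  let v42 := add v41 x1; ok v42 && (
  let v43 := mul v25 v42; ok v43 && (
  let v44 := add v43 v0; ok v44 && (
  let v45 := mul v17 v17; ok v45 && (
  let v46 := scale ⟨2199023255552, 0, 0, 0⟩ v45; ok v46 && (
  let v47 := add v46 v0; ok v47 && (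
  let v48 := mul v19 v42; ok v48 && (
  let v49 := sub v48 v0; ok v49 && (
  let v50 := log v44; ok v50 && (
  let v51 := scale ⟨549755813888, 0, 0, 0⟩ v50; ok v51 && (
  let v52 := exp v51; ok v52 && (
  let v53 := cst ⟨3298534883328, 0, 0, 0⟩; ok v53 && (
  let v54 := inv v53; ok v54 && (
  let v55 := mul v0 v54; ok v55 && (
  let v56 := cst ⟨2199023255552, 0, 0, 0⟩; ok v56 && (
  let v57 := add v43 v56; ok v57 && (
  let v58 := inv v57; ok v58 && (
  let v59 := mul v43 v58; ok v59 && (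
  let v60 := mul v59 v59; ok v60 && (
  let v61 := sub v0 v59; ok v61 && (
  let v62 := mul v60 v55; ok v62 && (
  let v63 := add v0 v62; ok v63 && (
  let v64 := mul v61 v63; ok v64 && (
  let v65 := mul v60 v60; ok v65 && (
  let v66 := scale ⟨219915747328, 0, 0, 0⟩ v65; ok v66 && (
  let v67 := mul v42 v64; ok v67 && (
  let v68 := scale ⟨549755813888, 0, 0, 0⟩ v67; ok v68 && (
  let v69 := mul v42 v66; ok v69 && (
  let v70 := scale ⟨549755813888, 0, 0, 0⟩ v69; ok v70 && (
  let v71 := add v68 v70; ok v71 && (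
  let v72 := mul v19 v49; ok v72 && (
  let v73 := scale ⟨4398046511104, 0, 0, 0⟩ v72; ok v73 && (
  let v74 := mul v19 v25; ok v74 && (
  let v75 := mul v74 v49; ok v75 && (
  let v76 := scale ⟨4398046511104, 0, 0, 0⟩ v75; ok v76 && (
  let v77 := add v76 v56; ok v77 && (
  let v78 := inv v77; ok v78 && (
  let v79 := mul v76 v78; ok v79 && (
  let v80 := mul v79 v79; ok v80 && (
  let v81 := sub v0 v79; ok v81 && (
  let v82 := mul v80 v55; ok v82 && (
  let v83 := add v0 v82; ok v83 && (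
  let v84 := mul v81 v83; ok v84 && (
  let v85 := mul v80 v80; ok v85 && (
  let v86 := scale ⟨219915747328, 0, 0, 0⟩ v85; ok v86 && (
  let v87 := mul v73 v84; ok v87 && (
  let v88 := scale ⟨549755813888, 0, 0, 0⟩ v87; ok v88 && (
  let v89 := sub v88 v71; ok v89 && (
  let v90 := mul v73 v86; ok v90 && (
  let v91 := scale ⟨549755813888, 0, 0, 0⟩ v90; ok v91 && (
  let v92 := add v91 v70; ok v92 && (
  let v93 := add v89 v92; ok v93 && (
  let v94 := mul v5 v68; ok v94 && (
  let v95 := neg v94; ok v95 && (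
  let v96 := exp v95; ok v96 && (
  let v97 := mul v5 v70; ok v97 && (
  let v98 := mul v96 v97; ok v98 && (
  let v99 := mul v5 v89; ok v99 && (
  let v100 := neg v99; ok v100 && (
  let v101 := exp v100; ok v101 && (
  let v102 := mul v5 v92; ok v102 && (
  let v103 := mul v101 v102; ok v103 && (
  let v104 := mul v22 v17; ok v104 && (
  let v105 := add v19 v104; ok v105 && (
  let v106 := inv v105; ok v106 && (
  let v107 := mul v24 v106; ok v107 && (
  let v108 := mul v23 x1; ok v108 && (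
  let v109 := mul v108 v107; ok v109 && (
  let v110 := sub v0 v12; ok v110 && (
  let v111 := mul v26 v110; ok v111 && (
  let v112 := mul v9 v9; ok v112 && (
  let v113 := sub v0 v26; ok v113 && (
  let v114 := mul v110 v113; ok v114 && (
  let v115 := mul v25 v49; ok v115 && (
  let v116 := inv v44; ok v116 && (
  let v117 := mul v115 v116; ok v117 && (
  let v118 := add v19 v117; ok v118 && (
  let v119 := mul v44 v118; ok v119 && (
  let v120 := mul v119 v119; ok v120 && (
  let v121 := inv v120; ok v121 && (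
  let v122 := mul v114 v121; ok v122 && (
  let v123 := add v19 v25; ok v123 && (
  let v124 := mul x0 v123; ok v124 && (
  let v125 := inv v124; ok v125 && (
  let v126 := mul v0 v125; ok v126 && (
  let v127 := mul v126 v126; ok v127 && (
  let v128 := mul v127 v114; ok v128 && (
  let v129 := mul v109 v0; ok v129 && (
  let v130 := scale ⟨549755813888, 0, 0, 0⟩ v129; ok v130 && (
  let v131 := sub v0 v130; ok v131 && (
  let v132 := sub v0 v129; ok v132 && (
  let v133 := inv v132; ok v133 && (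
  let v134 := mul v131 v133; ok v134 && (
  let v135 := add v129 v0; ok v135 && (
  let v136 := mul v96 v135; ok v136 && (
  let v137 := mul v107 v134; ok v137 && (
  let v138 := mul v137 v0; ok v138 && (
  let v139 := mul v129 v134; ok v139 && (
  isPos 4 v132 && (
  let v140 := mul v23 v24; ok v140 && (
  let v141 := add v19 x1; ok v141 && (
  let v142 := mul v22 v19; ok v142 && (
  let v143 := mul v142 v17; ok v143 && (
  let v144 := scale ⟨2199023255552, 0, 0, 0⟩ v143; ok v144 && (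
  let v145 := add v47 v144; ok v145 && (
  let v146 := mul v141 v145; ok v146 && (
  let v147 := inv v146; ok v147 && (
  let v148 := mul v140 v147; ok v148 && (
  let v149 := mul x1 v148; ok v149 && (
  isPos 4 v89 && (
  let v150 := mul v128 v116; ok v150 && (
  let v151 := cst ⟨10849087389696, 0, 0, 0⟩; ok v151 && (
  let v152 := sub v151 v150; ok v152 && (
  isPos 4 v152 && (
  let v153 := cst ⟨13, 0, 0, 0⟩; ok v153 && (
  let v154 := cst ⟨2295, 0, 0, 0⟩; ok v154 && (
  let v155 := mul v150 v153; ok v155 && (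
  let v156 := sub v154 v155; ok v156 && (
  let v157 := cst ⟨302996, 0, 0, 0⟩; ok v157 && (
  let v158 := mul v150 v156; ok v158 && (
  let v159 := sub v157 v158; ok v159 && (
  let v160 := cst ⟨27269633, 0, 0, 0⟩; ok v160 && (
  let v161 := mul v150 v159; ok v161 && (
  let v162 := sub v160 v161; ok v162 && (
  let v163 := cst ⟨1527099484, 0, 0, 0⟩; ok v163 && (
  let v164 := mul v150 v162; ok v164 && (
  let v165 := sub v163 v164; ok v165 && (
  let v166 := cst ⟨45812984490, 0, 0, 0⟩; ok v166 && (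
  let v167 := mul v150 v165; ok v167 && (
  let v168 := sub v166 v167; ok v168 && (
  let v169 := mul v150 v168; ok v169 && (
  let v170 := sub v8 v169; ok v170 && (
  let v171 := mul v150 v170; ok v171 && (
  let v172 := sub v0 v171; ok v172 && (
  let v173 := add v101 v0; ok v173 && (
  let v174 := mul v101 v101; ok v174 && (
  let v175 := add v174 v0; ok v175 && (
  let v176 := mul v101 v172; ok v176 && (
  let v177 := scale ⟨2199023255552, 0, 0, 0⟩ v176; ok v177 && (
  let v178 := add v175 v177; ok v178 && (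
  let v179 := scale ⟨4398046511104, 0, 0, 0⟩ v103; ok v179 && (
  let v180 := sub v178 v179; ok v180 && (
  let v181 := inv v173; ok v181 && (
  let v182 := mul v180 v181; ok v182 && (
  let v183 := add v182 v173; ok v183 && (
  let v184 := mul v101 v149; ok v184 && (
  let v185 := scale ⟨549755813888, 0, 0, 0⟩ v184; ok v185 && (
  let v186 := mul v185 v183; ok v186 && (
  let v187 := sub v180 v186; ok v187 && (
  isPos 4 v180 && (
  isPos 4 v187 && (
  let v188 := sub v0 v101; ok v188 && (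
  let v189 := mul v188 v173; ok v189 && (
  let v190 := scale ⟨2199023255552, 0, 0, 0⟩ v103; ok v190 && (
  let v191 := add v189 v190; ok v191 && (
  let v192 := inv v187; ok v192 && (
  let v193 := mul v191 v192; ok v193 && (
  let v194 := scale ⟨549755813888, 0, 0, 0⟩ v193; ok v194 && (
  let v195 := add v194 v8; ok v195 && (
  let v196 := inv v195; ok v196 && (
  let v197 := mul v194 v196; ok v197 && (
  let v198 := mul v149 v197; ok v198 && (
  let v199 := mul v197 x0; ok v199 && (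
  let v200 := add v11 v0; ok v200 && (
  let v201 := inv v200; ok v201 && (
  let v202 := mul v11 v201; ok v202 && (
  let v203 := scale ⟨2199023255552, 0, 0, 0⟩ v202; ok v203 && (
  let v204 := sub v0 v203; ok v204 && (
  let v205 := sub v0 v11; ok v205 && (
  let v206 := mul x3 v201; ok v206 && (
  let v207 := mul v206 v204; ok v207 && (
  let v208 := add v24 v207; ok v208 && (
  let v209 := scale ⟨224412041216, 0, 0, 0⟩ v15; ok v209 && (
  let v210 := inv v38; ok v210 && (
  let v211 := mul v209 v210; ok v211 && (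
  let v212 := scale ⟨4398046511104, 0, 0, 0⟩ x0; ok v212 && (
  let v213 := mul v0 v21; ok v213 && (
  let v214 := add v212 v213; ok v214 && (
  let v215 := scale ⟨549755813888, 0, 0, 0⟩ v214; ok v215 && (
  let v216 := inv v215; ok v216 && (
  let v217 := mul v0 v216; ok v217 && (
  let v218 := mul x0 v216; ok v218 && (
  let v219 := mul v218 v24; ok v219 && (
  let v220 := mul v219 v211; ok v220 && (
  let v221 := mul v217 v24; ok v221 && (
  let v222 := mul v221 v211; ok v222 && (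
  let v223 := sub v0 v222; ok v223 && (
  let v224 := inv v223; ok v224 && (
  let v225 := mul v136 v222; ok v225 && (
  let v226 := sub v0 v225; ok v226 && (
  let v227 := inv v226; ok v227 && (
  let v228 := scale ⟨2199023255552, 0, 0, 0⟩ v6; ok v228 && (
  let v229 := add v228 v0; ok v229 && (
  let v230 := add v6 v0; ok v230 && (
  let v231 := mul x0 v21; ok v231 && (
  let v232 := scale ⟨2199023255552, 0, 0, 0⟩ v231; ok v232 && (
  let v233 := scale ⟨549755813888, 0, 0, 0⟩ x1; ok v233 && (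
  let v234 := add v232 v233; ok v234 && (
  let v235 := mul x2 v234; ok v235 && (
  let v236 := scale ⟨549755813888, 0, 0, 0⟩ v235; ok v236 && (
  let v237 := mul v11 v21; ok v237 && (
  let v238 := sub v0 v111; ok v238 && (
  let v239 := mul v11 v22; ok v239 && (
  let v240 := scale ⟨2199023255552, 0, 0, 0⟩ v239; ok v240 && (
  let v241 := sub v238 v240; ok v241 && (
  let v242 := mul v237 v237; ok v242 && (
  let v243 := add v241 v242; ok v243 && (
  let v244 := add v243 v0; ok v244 && (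
  let v245 := scale ⟨549755813888, 0, 0, 0⟩ v244; ok v245 && (
  let v246 := scale ⟨549755813888, 0, 0, 0⟩ v25; ok v246 && (
  let v247 := sub v15 v246; ok v247 && (
  let v248 := mul v112 v238; ok v248 && (
  let v249 := mul v248 v14; ok v249 && (
  let v250 := scale ⟨137438953472, 0, 0, 0⟩ v249; ok v250 && (
  let v251 := add v247 v250; ok v251 && (
  let v252 := mul v245 v251; ok v252 && (
  let v253 := cst ⟨1, 0, 0, 0⟩; ok v253 && (
  let v254 := cst ⟨12, 0, 0, 0⟩; ok v254 && (
  let v255 := mul v128 v253; ok v255 && (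
  let v256 := sub v254 v255; ok v256 && (
  let v257 := cst ⟨2296, 0, 0, 0⟩; ok v257 && (
  let v258 := mul v128 v256; ok v258 && (
  let v259 := sub v257 v258; ok v259 && (
  let v260 := cst ⟨302995, 0, 0, 0⟩; ok v260 && (
  let v261 := mul v128 v259; ok v261 && (
  let v262 := sub v260 v261; ok v262 && (
  let v263 := cst ⟨27269634, 0, 0, 0⟩; ok v263 && (
  let v264 := mul v128 v262; ok v264 && (
  let v265 := sub v263 v264; ok v265 && (
  let v266 := cst ⟨1527099483, 0, 0, 0⟩; ok v266 && (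
  let v267 := mul v128 v265; ok v267 && (
  let v268 := sub v266 v267; ok v268 && (
  let v269 := cst ⟨45812984491, 0, 0, 0⟩; ok v269 && (
  let v270 := mul v128 v268; ok v270 && (
  let v271 := sub v269 v270; ok v271 && (
  let v272 := mul v128 v271; ok v272 && (
  let v273 := sub v8 v272; ok v273 && (
  let v274 := mul v128 v273; ok v274 && (
  let v275 := sub v0 v274; ok v275 && (
  let v276 := mul v128 v6; ok v276 && (
  let v277 := mul v96 v96; ok v277 && (
  let v278 := add v277 v0; ok v278 && (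
  let v279 := mul v276 v276; ok v279 && (
  let v280 := scale ⟨369367187456, 0, 0, 0⟩ v279; ok v280 && (
  let v281 := add v275 v280; ok v281 && (
  let v282 := mul v96 v281; ok v282 && (
  let v283 := scale ⟨2199023255552, 0, 0, 0⟩ v282; ok v283 && (
  let v284 := add v278 v283; ok v284 && (
  let v285 := scale ⟨2199023255552, 0, 0, 0⟩ v98; ok v285 && (
  let v286 := add v284 v285; ok v286 && (
  let v287 := cst ⟨8589934592, 0, 0, 0⟩; ok v287 && (
  let v288 := add v286 v287; ok v288 && (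
  let v289 := log v288; ok v289 && (
  let v290 := scale ⟨549755813888, 0, 0, 0⟩ v289; ok v290 && (
  let v291 := exp v290; ok v291 && (
  let v292 := mul v96 v129; ok v292 && (
  let v293 := add v291 v292; ok v293 && (
  let v294 := mul v293 v224; ok v294 && (
  let v295 := mul v136 v227; ok v295 && (
  let v296 := add v294 v295; ok v296 && (
  let v297 := mul v222 v296; ok v297 && (
  let v298 := add v139 v297; ok v298 && (
  let v299 := mul v298 v6; ok v299 && (
  let v300 := mul v293 v222; ok v300 && (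
  let v301 := mul v300 v224; ok v301 && (
  let v302 := add v139 v301; ok v302 && (
  let v303 := mul v302 v6; ok v303 && (
  let v304 := scale ⟨223338299392, 0, 0, 0⟩ v303; ok v304 && (
  let v305 := add v8 v304; ok v305 && (
  let v306 := mul v303 v305; ok v306 && (
  let v307 := add v0 v306; ok v307 && (
  let v308 := scale ⟨893353197568, 0, 0, 0⟩ v299; ok v308 && (
  let v309 := add v0 v308; ok v309 && (
  let v310 := mul v299 v309; ok v310 && (
  let v311 := add v0 v310; ok v311 && (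
  let v312 := mul v203 v206; ok v312 && (
  let v313 := mul v312 v229; ok v313 && (
  let v314 := mul v313 v311; ok v314 && (
  let v315 := mul v252 v307; ok v315 && (
  let v316 := add v52 v8; ok v316 && (
  let v317 := mul v314 v316; ok v317 && (
  let v318 := add v315 v317; ok v318 && (
  let v319 := add v52 v0; ok v319 && (
  let v320 := mul v314 v319; ok v320 && (
  let v321 := mul v230 v319; ok v321 && (
  let v322 := mul v321 v206; ok v322 && (
  let v323 := mul v322 v205; ok v323 && (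
  let v324 := mul v318 v138; ok v324 && (
  let v325 := mul v323 v236; ok v325 && (
  let v326 := add v324 v325; ok v326 && (
  let v327 := mul v5 v208; ok v327 && (
  let v328 := inv v52; ok v328 && (
  let v329 := mul v327 v328; ok v329 && (
  let v330 := scale ⟨549755813888, 0, 0, 0⟩ v329; ok v330 && (
  let v331 := mul v23 v330; ok v331 && (
  let v332 := add v331 v326; ok v332 && (
  let v333 := mul x1 v332; ok v333 && (
  let v334 := mul x0 v333; ok v334 && (
  let v335 := mul v318 v293; ok v335 && (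
  let v336 := mul v335 v224; ok v336 && (
  let v337 := mul v320 v136; ok v337 && (
  let v338 := mul v337 v227; ok v338 && (
  let v339 := add v336 v338; ok v339 && (
  let v340 := mul v23 v334; ok v340 && (
  let v341 := mul v220 v339; ok v341 && (
  let v342 := add v340 v341; ok v342 && (
  let v343 := mul v112 v342; ok v343 && (
  let v344 := mul v343 v328; ok v344 && (
  let v345 := sub v0 v344; ok v345 && (
  let v346 := inv v345; ok v346 && (
  let v347 := mul v342 v346; ok v347 && (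
  let v348 := mul x1 v347; ok v348 && (
  let v349 := mul v112 v347; ok v349 && (
  let v350 := mul v349 v328; ok v350 && (
  let v351 := sub v0 v350; ok v351 && (
  let v352 := mul v49 v351; ok v352 && (
  let v353 := sub v352 v348; ok v353 && (
  let v354 := inv v353; ok v354 && (
  let v355 := mul v348 v354; ok v355 && (
  let v356 := sub v52 v349; ok v356 && (
  let v357 := inv v356; ok v357 && (
  let v358 := mul v355 v197; ok v358 && (
  let v359 := scale ⟨549755813888, 0, 0, 0⟩ v358; ok v359 && (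
  let v360 := sub v0 v359; ok v360 && (
  let v361 := sub v0 v358; ok v361 && (
  let v362 := inv v361; ok v362 && (
  let v363 := mul v360 v362; ok v363 && (
  let v364 := mul v3 v357; ok v364 && (
  let v365 := mul v199 v354; ok v365 && (
  let v366 := mul v365 v363; ok v366 && (
  let v367 := add v364 v366; ok v367 && (
  let v368 := mul v7 v347; ok v368 && (
  let v369 := mul v357 v368; ok v369 && (
  let v370 := mul v197 v354; ok v370 && (
  let v371 := mul v370 v363; ok v371 && (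
  let v372 := mul v371 v348; ok v372 && (
  let v373 := add v369 v372; ok v373 && (
  let v374 := scale ⟨223338299392, 0, 0, 0⟩ v373; ok v374 && (
  let v375 := add v8 v374; ok v375 && (
  let v376 := mul v373 v375; ok v376 && (
  let v377 := add v0 v376; ok v377 && (
  let v378 := mul v367 v377; ok v378 && (
  let v379 := mul v378 v346; ok v379 && (
  let v380 := mul v379 v339; ok v380 && (
  let v381 := mul v221 v23; ok v381 && (
  let v382 := cst ⟨5497558138880, 0, 0, 0⟩; ok v382 && (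
  let v383 := inv v382; ok v383 && (
  let v384 := mul v53 v383; ok v384 && (
  let v385 := mul v200 v24; ok v385 && (
  let v386 := mul v385 v384; ok v386 && (
  let v387 := mul v141 v106; ok v387 && (
  let v388 := mul v22 v387; ok v388 && (
  let v389 := scale ⟨549755813888, 0, 0, 0⟩ v198; ok v389 && (
  let v390 := sub v0 v389; ok v390 && (
  let v391 := sub v0 v198; ok v391 && (
  let v392 := inv v391; ok v392 && (
  let v393 := mul v390 v392; ok v393 && (
  let v394 := mul v393 v149; ok v394 && (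
  let v395 := mul v112 v122; ok v395 && (
  let v396 := scale ⟨733097230336, 0, 0, 0⟩ v395; ok v396 && (
  let v397 := sub v0 v396; ok v397 && (
  let v398 := mul v122 v397; ok v398 && (
  let v399 := mul v89 v89; ok v399 && (
  let v400 := mul v12 v399; ok v400 && (
  let v401 := add v398 v400; ok v401 && (
  let v402 := mul v394 v199; ok v402 && (
  let v403 := add v401 v0; ok v403 && (
  let v404 := mul v402 v403; ok v404 && (
  let v405 := sub v401 v404; ok v405 && (
  let v406 := scale ⟨366548615168, 0, 0, 0⟩ v45; ok v406 && (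
  let v407 := sub v0 v406; ok v407 && (
  let v408 := mul v26 v407; ok v408 && (
  let v409 := add v405 v408; ok v409 && (
  let v410 := mul v387 v409; ok v410 && (
  let v411 := mul v388 v388; ok v411 && (
  let v412 := add v0 v411; ok v412 && (
  let v413 := inv v412; ok v413 && (
  let v414 := mul v410 v413; ok v414 && (
  let v415 := sub v0 v355; ok v415 && (
  let v416 := mul v415 v414; ok v416 && (
  let v417 := sub v0 v402; ok v417 && (
  isPos 4 v417 && (
  isPos 4 v414 && (
  isPos 4 v415 && (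
  let v418 := mul v379 v215; ok v418 && (
  let v419 := mul v418 v332; ok v419 && (
  let v420 := inv v24; ok v420 && (
  let v421 := mul v419 v420; ok v421 && (
  let v422 := mul v4 v416; ok v422 && (
  let v423 := mul x1 v422; ok v423 && (
  let v424 := scale ⟨549755813888, 0, 0, 0⟩ v423; ok v424 && (
  let v425 := sub v0 v424; ok v425 && (
  let v426 := mul v422 v425; ok v426 && (
  let v427 := neg v426; ok v427 && (
  let v428 := mul v3 x3; ok v428 && (
  let v429 := mul v428 v200; ok v429 && (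
  let v430 := mul v429 v15; ok v430 && (
  let v431 := mul v0 v430; ok v431 && (
  let v432 := add v427 v431; ok v432 && (
  let v433 := mul v427 v431; ok v433 && (
  let v434 := mul x1 v433; ok v434 && (
  let v435 := add v432 v434; ok v435 && (
  let v436 := mul v12 v42; ok v436 && (
  let v437 := scale ⟨412316860416, 0, 0, 0⟩ v43; ok v437 && (
  let v438 := sub v8 v437; ok v438 && (
  let v439 := mul v436 v438; ok v439 && (
  let v440 := mul v0 v439; ok v440 && (
  let v441 := neg v440; ok v441 && (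
  let v442 := add v435 v441; ok v442 && (
  let v443 := mul v435 v441; ok v443 && (
  let v444 := mul x1 v443; ok v444 && (
  let v445 := add v442 v444; ok v445 && (
  let v446 := mul v3 v347; ok v446 && (
  let v447 := mul v446 v420; ok v447 && (
  let v448 := mul v0 v447; ok v448 && (
  let v449 := add v445 v448; ok v449 && (
  let v450 := mul v445 v448; ok v450 && (
  let v451 := mul x1 v450; ok v451 && (
  let v452 := add v449 v451; ok v452 && (
  let v453 := mul v0 v386; ok v453 && (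
  let v454 := sub v452 v453; ok v454 && (
  let v455 := mul x1 v386; ok v455 && (
  let v456 := add v0 v455; ok v456 && (
  let v457 := inv v456; ok v457 && (
  let v458 := mul v454 v457; ok v458 && (
  let v459 := mul v3 v9; ok v459 && (
  let v460 := mul v459 v347; ok v460 && (
  let v461 := mul v460 v357; ok v461 && (
  let v462 := mul v0 v461; ok v462 && (
  let v463 := add v458 v462; ok v463 && (
  let v464 := mul v458 v462; ok v464 && (
  let v465 := mul x1 v464; ok v465 && (
  let v466 := add v463 v465; ok v466 && (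
  let v467 := mul x1 v466; ok v467 && (
  let v468 := add v0 v467; ok v468 && (
  let v469 := mul v380 v222; ok v469 && (
  let v470 := mul x1 v381; ok v470 && (
  let v471 := mul v421 v470; ok v471 && (
  let v472 := add v469 v471; ok v472 && (
  let v473 := mul v0 v472; ok v473 && (
  let v474 := add v380 v421; ok v474 && (
  let v475 := mul v0 v474; ok v475 && (
  let v476 := mul v473 v468; ok v476 && (
  let v477 := add v466 v476; ok v477 && (
  let v478 := add v477 v475; ok v478 && (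
  let v479 := neg v478; ok v479 && (
  let v480 := scale ⟨1073741824, 0, 0, 0⟩ v0; ok v480 && (
  let v481 := sub v479 v480; ok v481 && (
  let v482 := sub v20 v0; ok v482 && (
  let v483 := add v482 v56; ok v483 && (
  let v484 := scale ⟨2199023255552, 0, 0, 0⟩ v384; ok v484 && (
  let v485 := sub v483 v484; ok v485 && (
  let v486 := mul v200 v485; ok v486 && (
  let v487 := mul v482 v484; ok v487 && (
  let v488 := add v487 v0; ok v488 && (
  let v489 := inv v488; ok v489 && (
  let v490 := mul v486 v489; ok v490 && (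
  let v491 := mul v218 v339; ok v491 && (
  let v492 := scale ⟨549755813888, 0, 0, 0⟩ v211; ok v492 && (
  let v493 := add v17 v492; ok v493 && (
  let v494 := mul v491 v493; ok v494 && (
  let v495 := scale ⟨2199023255552, 0, 0, 0⟩ v494; ok v495 && (
  let v496 := add v334 v495; ok v496 && (
  let v497 := scale ⟨2199023255552, 0, 0, 0⟩ v496; ok v497 && (
  let v498 := mul v497 v346; ok v498 && (
  let v499 := mul v9 v347; ok v499 && (
  let v500 := sub v24 v499; ok v500 && (
  let v501 := inv v500; ok v501 && (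
  let v502 := mul v498 v501; ok v502 && (
  let v503 := sub v490 v502; ok v503 && (
  let v504 := mul v213 v213; ok v504 && (
  let v505 := cst ⟨14293651161088, 0, 0, 0⟩; ok v505 && (
  let v506 := cst ⟨10995116277760, 0, 0, 0⟩; ok v506 && (
  let v507 := inv v506; ok v507 && (
  let v508 := mul v505 v507; ok v508 && (
  let v509 := mul v504 v508; ok v509 && (
  let v510 := mul x0 x0; ok v510 && (
  let v511 := scale ⟨27487790694400, 0, 0, 0⟩ v510; ok v511 && (
  let v512 := add v509 v511; ok v512 && (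
  let v513 := mul v386 v457; ok v513 && (
  let v514 := sub v40 x1; ok v514 && (
  let v515 := sub v514 v39; ok v515 && (
  let v516 := mul v0 v3; ok v516 && (
  let v517 := mul v516 x0; ok v517 && (
  let v518 := mul v24 v339; ok v518 && (
  let v519 := mul v518 v216; ok v519 && (
  let v520 := add v326 v519; ok v520 && (
  let v521 := add v499 v56; ok v521 && (
  let v522 := mul v0 v521; ok v522 && (
  let v523 := mul v512 v513; ok v523 && (
  let v524 := mul v346 v522; ok v524 && (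
  let v525 := mul v517 v520; ok v525 && (
  let v526 := mul v524 v525; ok v526 && (
  let v527 := sub v523 v526; ok v527 && (
  let v528 := scale ⟨549755813888, 0, 0, 0⟩ v499; ok v528 && (
  let v529 := add v0 v528; ok v529 && (
  let v530 := mul v346 v529; ok v530 && (
  let v531 := mul x1 v23; ok v531 && (
  let v532 := mul v531 v208; ok v532 && (
  let v533 := mul v24 v52; ok v533 && (
  let v534 := inv v533; ok v534 && (
  let v535 := mul v532 v534; ok v535 && (
  let v536 := mul v530 v535; ok v536 && (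
  let v537 := sub v515 v536; ok v537 && (
  let v538 := mul v211 v527; ok v538 && (
  let v539 := sub v0 v211; ok v539 && (
  let v540 := mul v12 v537; ok v540 && (
  let v541 := mul v539 v540; ok v541 && (
  let v542 := mul v512 v541; ok v542 && (
  let v543 := add v538 v542; ok v543 && (
  isPos 4 v223 && (
  isPos 4 v226 && (
  let v544 := scale ⟨2199023255552, 0, 0, 0⟩ v343; ok v544 && (
  let v545 := sub v52 v544; ok v545 && (
  isPos 4 v545 && (
  isPos 4 v353 && (
  let v546 := sub v8 v198; ok v546 && (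
  isPos 4 v546 && (
  let v547 := scale ⟨687194767360, 0, 0, 0⟩ v0; ok v547 && (
  let v548 := sub v547 v303; ok v548 && (
  isPos 4 v548 && (
  let v549 := scale ⟨377957122048, 0, 0, 0⟩ v0; ok v549 && (
  let v550 := sub v549 v299; ok v550 && (
  isPos 4 v550 && (
  isPos 4 v500 && (
  isPos 4 v361 && (
  let v551 := sub v547 v373; ok v551 && (
  isPos 4 v551 && (
  isPos 4 v503 && (
  isPos 4 v481 && (
  isPos 4 v543 && (
  isPos 4 v537 && (
  true))))))))))))))))))))))))))))))))))))))))))))))))))))))))))))))))))))))))))))))))))))))))))))))))))))))))))))))))))))))))))))))))))))))))))))))))))))))))))))))))))))))))))))))))))))))))))))))))))))))))))))))))))))))))))))))))))))))))))))))))))))))))))))))))))))))))))))))))))))))))))))))))))))))))))))))))))))))))))))))))))))))))))))))))))))))))))))))))))))))))))))))))))))))))))))))))))))))))))))))))))))))))))))))))))))))))))))))))))))))))))))))))))))))))))))))))))))))))))))))))))))))))))))))))))))))))))))))))))))))))))))))))))))))))))))))))))))))))))))))))))))))))))))))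
  | _ => false

set_option maxRecDepth 1000000 in
theorem chk2_eq (O : Ops) (m : List O.α)
    (h : chk2 O.cst O.add O.sub O.mul O.scale O.neg O.inv O.exp O.log O.ok O.isPos O.isLt m = true) :
    runG O 4 prog2 m = true := by
  match m, h with
  | [x0, x1, x2, x3], h => exact h

def chkB2 : List opsE.α → Bool :=
  chk2 opsE.cst opsE.add opsE.sub opsE.mul opsE.scale opsE.neg opsE.inv opsE.exp opsE.log opsE.ok opsE.isPos opsE.isLt

theorem chkB2_eq (m : List opsE.α) (h : chkB2 m = true) : runG opsE 4 prog2 m = true :=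
  chk2_eq opsE m h

def prog3 : List Op := [
  .const ⟨1099511627776, 0, 0, 0⟩,
  .mul 2 3,
  .mul 0 2,
  .mul 5 0,
  .mul 6 6,
  .mul 6 0,
  .mul 3 3,
  .mul 8 1,
  .const ⟨549755813888, 0, 0, 0⟩,
  .mul 10 5,
  .mul 0 13,
  .scale ⟨549755813888, 0, 0, 0⟩ 0,
  .mul 8 8,
  .mul 1 1,
  .sub 13 0,
  .inv 0,
  .mul 4 0,
  .scale ⟨2199023255552, 0, 0, 0⟩ 0,
  .scale ⟨2199023255552, 0, 0, 0⟩ 2,
  .sub 0 18,
  .add 0 2,
  .mul 24 5,
  .mul 18 0,
  .sub 22 0,
  .add 23 1,
  .mul 26 12,
  .mul 4 4,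
  .scale ⟨10774999203840, 0, 0, 0⟩ 15,
  .scale ⟨45768245248, 0, 0, 0⟩ 0,
  .const ⟨183207198720, 0, 0, 0⟩,
  .add 1 0,
  .mul 3 0,
  .add 23 0,
  .mul 5 0,
  .add 33 0,
  .mul 7 0,
  .scale ⟨549755813888, 0, 0, 0⟩ 0,
  .add 36 0,
  .mul 3 0,
  .mul 21 16,
  .scale ⟨2199023255552, 0, 0, 0⟩ 20,
  .add 1 0,
  .add 0 43,
  .mul 17 0,
  .add 0 43,
  .mul 27 27,
  .scale ⟨2199023255552, 0, 0, 0⟩ 0,
  .add 0 46,
  .mul 28 5,
  .sub 0 48,
  .log 5,
  .scale ⟨549755813888, 0, 0, 0⟩ 0,
  .exp 0,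
  .const ⟨3298534883328, 0, 0, 0⟩,
  .inv 0,
  .mul 54 0,
  .const ⟨2199023255552, 0, 0, 0⟩,
  .add 13 0,
  .inv 0,
  .mul 15 0,
  .mul 0 0,
  .sub 60 1,
  .mul 1 6,
  .add 62 0,
  .mul 2 0,
  .mul 4 4,
  .scale ⟨219915747328, 0, 0, 0⟩ 0,
  .mul 24 2,
  .scale ⟨549755813888, 0, 0, 0⟩ 0,
  .mul 26 2,
  .scale ⟨549755813888, 0, 0, 0⟩ 0,
  .add 2 0,
  .mul 52 22,
  .scale ⟨4398046511104, 0, 0, 0⟩ 0,
  .mul 54 48,
  .mul 0 25,
  .scale ⟨4398046511104, 0, 0, 0⟩ 0,
  .add 0 20,
  .inv 0,
  .mul 2 0,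
  .mul 0 0,
  .sub 80 1,
  .mul 1 26,
  .add 82 0,
  .mul 2 0,
  .mul 4 4,
  .scale ⟨219915747328, 0, 0, 0⟩ 0,
  .mul 13 2,
  .scale ⟨549755813888, 0, 0, 0⟩ 0,
  .sub 0 17,
  .mul 16 3,
  .scale ⟨549755813888, 0, 0, 0⟩ 0,
  .add 0 21,
  .add 3 0,
  .mul 88 25,
  .neg 0,
  .exp 0,
  .mul 91 26,
  .mul 1 0,
  .mul 76 81,
  .add 80 0,
  .inv 0,
  .mul 77 0,
  .mul 79 104,
  .mul 0 1,
  .sub 104 92,
  .mul 79 0,
  .mul 97 97,
  .sub 107 81,
  .mul 3 0,
  .mul 84 60,
  .inv 66,
  .mul 1 0,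
  .add 93 0,
  .mul 69 0,
  .mul 0 0,
  .inv 0,
  .mul 7 0,
  .add 98 92,
  .mul 119 0,
  .inv 0,
  .mul 120 0,
  .mul 0 0,
  .mul 0 13,
  .mul 19 123,
  .scale ⟨549755813888, 0, 0, 0⟩ 0,
  .sub 125 0,
  .sub 126 2,
  .inv 0,
  .mul 2 0,
  .add 5 129,
  .mul 34 0,
  .mul 29 2,
  .mul 0 132,
  .mul 9 4,
  .pos 7,
  .mul 111 110,
  .add 116 137,
  .mul 114 117,
  .mul 0 120,
  .scale ⟨2199023255552, 0, 0, 0⟩ 0,
  .add 92 0,
  .mul 4 0,
  .inv 0,
  .mul 7 0,
  .mul 145 0,
  .pos 55,
  .mul 0 144,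
  .mul 145 146,
  .add 135 146,
  .inv 0,
  .mul 137 0,
  .scale ⟨2199023255552, 0, 0, 0⟩ 0,
  .sub 150 0,
  .sub 151 140,
  .mul 156 4,
  .mul 0 2,
  .add 130 0,
  .scale ⟨224412041216, 0, 0, 0⟩ 140,
  .inv 118,
  .mul 1 0,
  .scale ⟨4398046511104, 0, 0, 0⟩ 159,
  .mul 159 138,
  .add 1 0,
  .scale ⟨549755813888, 0, 0, 0⟩ 0,
  .inv 0,
  .mul 163 0,
  .mul 165 1,
  .mul 0 141,
  .mul 0 8,
  .mul 3 143,
  .mul 0 10,
  .sub 169 0,
  .inv 0,
  .mul 40 2,
  .sub 172 0,
  .inv 0,
  .scale ⟨2199023255552, 0, 0, 0⟩ 168,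
  .add 0 175,
  .add 170 176,
  .mul 178 156,
  .scale ⟨2199023255552, 0, 0, 0⟩ 0,
  .scale ⟨549755813888, 0, 0, 0⟩ 181,
  .add 1 0,
  .mul 184 0,
  .scale ⟨549755813888, 0, 0, 0⟩ 0,
  .mul 172 162,
  .sub 184 78,
  .mul 174 163,
  .scale ⟨2199023255552, 0, 0, 0⟩ 0,
  .sub 2 0,
  .mul 4 4,
  .add 1 0,
  .add 0 190,
  .scale ⟨549755813888, 0, 0, 0⟩ 0,
  .scale ⟨549755813888, 0, 0, 0⟩ 167,
  .sub 178 0,
  .mul 87 9,
  .mul 0 181,
  .scale ⟨137438953472, 0, 0, 0⟩ 0,
  .add 3 0,
  .mul 6 0,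
  .const ⟨1, 0, 0, 0⟩,
  .const ⟨12, 0, 0, 0⟩,
  .mul 78 1,
  .sub 1 0,
  .const ⟨2296, 0, 0, 0⟩,
  .mul 81 1,
  .sub 1 0,
  .const ⟨302995, 0, 0, 0⟩,
  .mul 84 1,
  .sub 1 0,
  .const ⟨27269634, 0, 0, 0⟩,
  .mul 87 1,
  .sub 1 0,
  .const ⟨1527099483, 0, 0, 0⟩,
  .mul 90 1,
  .sub 1 0,
  .const ⟨45812984491, 0, 0, 0⟩,
  .mul 93 1,
  .sub 1 0,
  .mul 95 0,
  .sub 211 0,
  .mul 97 0,
  .sub 221 0,
  .mul 99 216,
  .mul 127 127,
  .add 0 224,
  .mul 2 2,
  .scale ⟨369367187456, 0, 0, 0⟩ 0,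
  .add 5 0,
  .mul 132 0,
  .scale ⟨2199023255552, 0, 0, 0⟩ 0,
  .add 5 0,
  .scale ⟨2199023255552, 0, 0, 0⟩ 133,
  .add 1 0,
  .const ⟨8589934592, 0, 0, 0⟩,
  .add 1 0,
  .log 0,
  .scale ⟨549755813888, 0, 0, 0⟩ 0,
  .exp 0,
  .mul 142 114,
  .add 1 0,
  .mul 0 69,
  .mul 110 67,
  .add 1 0,
  .mul 74 0,
  .add 110 0,
  .mul 0 239,
  .mul 6 77,
  .mul 0 76,
  .add 114 0,
  .mul 0 243,
  .scale ⟨223338299392, 0, 0, 0⟩ 0,
  .add 243 0,
  .mul 2 0,
  .add 253 0,
  .scale ⟨893353197568, 0, 0, 0⟩ 8,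
  .add 255 0,
  .mul 10 0,
  .add 257 0,
  .mul 108 105,
  .mul 0 83,
  .mul 0 2,
  .mul 62 7,
  .add 210 254,
  .mul 2 0,
  .add 2 0,
  .add 213 265,
  .mul 5 0,
  .mul 90 1,
  .mul 0 115,
  .mul 0 117,
  .mul 5 137,
  .mul 1 88,
  .add 1 0,
  .mul 268 118,
  .inv 222,
  .mul 1 0,
  .scale ⟨549755813888, 0, 0, 0⟩ 0,
  .mul 254 0,
  .add 0 5,
  .mul 281 0,
  .mul 281 0,
  .mul 16 41,
  .mul 0 111,
  .mul 16 152,
  .mul 0 110,
  .add 2 0,
  .mul 263 5,
  .mul 120 1,
  .add 1 0,
  .mul 182 0,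
  .mul 0 15,
  .sub 291 0,
  .inv 0,
  .mul 4 0,
  .mul 296 0,
  .mul 188 1,
  .mul 0 21,
  .sub 297 0,
  .mul 249 0,
  .sub 0 4,
  .inv 0,
  .mul 6 0,
  .sub 250 6,
  .inv 0,
  .mul 2 304,
  .scale ⟨549755813888, 0, 0, 0⟩ 0,
  .sub 306 0,
  .sub 307 2,
  .inv 0,
  .mul 2 0,
  .mul 307 6,
  .mul 165 10,
  .mul 0 2,
  .add 2 0,
  .mul 307 20,
  .mul 11 0,
  .mul 316 15,
  .mul 0 7,
  .mul 0 23,
  .add 3 0,
  .scale ⟨223338299392, 0, 0, 0⟩ 0,
  .add 313 0,
  .mul 2 0,
  .add 323 0,
  .mul 10 0,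
  .mul 0 32,
  .mul 0 40,
  .mul 159 304,
  .const ⟨5497558138880, 0, 0, 0⟩,
  .inv 0,
  .mul 277 0,
  .mul 184 307,
  .mul 0 1,
  .mul 197 232,
  .mul 312 0,
  .scale ⟨549755813888, 0, 0, 0⟩ 190,
  .sub 336 0,
  .sub 337 192,
  .inv 0,
  .mul 2 0,
  .mul 0 196,
  .mul 234 224,
  .scale ⟨733097230336, 0, 0, 0⟩ 0,
  .sub 343 0,
  .mul 227 0,
  .mul 256 256,
  .mul 334 0,
  .add 2 0,
  .mul 7 202,
  .add 1 349,
  .mul 1 0,
  .sub 3 0,
  .scale ⟨366548615168, 0, 0, 0⟩ 307,
  .sub 353 0,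
  .mul 328 0,
  .add 3 0,
  .mul 22 0,
  .mul 22 22,
  .add 358 0,
  .inv 0,
  .mul 3 0,
  .sub 361 59,
  .mul 0 1,
  .sub 363 14,
  .pos 0,
  .pos 3,
  .pos 2,
  .mul 38 202,
  .mul 0 86,
  .inv 342,
  .mul 1 0,
  .mul 364 5,
  .mul 371 0,
  .scale ⟨549755813888, 0, 0, 0⟩ 0,
  .sub 371 0,
  .mul 3 0,
  .neg 0,
  .mul 371 378,
  .mul 0 228,
  .mul 0 361,
  .mul 377 0,
  .add 4 0,
  .mul 5 1,
  .mul 382 0,
  .add 2 0,
  .mul 370 340,
  .scale ⟨412316860416, 0, 0, 0⟩ 340,
  .sub 376 0,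
  .mul 2 0,
  .mul 386 0,
  .neg 0,
  .add 6 0,
  .mul 7 1,
  .mul 392 0,
  .add 2 0,
  .mul 389 98,
  .mul 0 26,
  .mul 394 0,
  .add 3 0,
  .mul 4 1,
  .mul 399 0,
  .add 2 0,
  .mul 399 66,
  .sub 1 0,
  .mul 403 68,
  .add 402 0,
  .inv 0,
  .mul 3 0,
  .mul 402 396,
  .mul 0 112,
  .mul 0 103,
  .mul 408 0,
  .add 4 0,
  .mul 5 1,
  .mul 413 0,
  .add 2 0,
  .mul 415 0,
  .add 414 0,
  .mul 88 246,
  .mul 418 88,
  .mul 49 0,
  .add 2 0,
  .mul 419 0,
  .add 93 52,
  .mul 421 0,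
  .mul 2 7,
  .add 10 0,
  .add 0 2,
  .neg 0,
  .scale ⟨1073741824, 0, 0, 0⟩ 426,
  .sub 1 0,
  .sub 408 428,
  .add 0 373,
  .scale ⟨2199023255552, 0, 0, 0⟩ 99,
  .sub 1 0,
  .mul 285 0,
  .mul 4 2,
  .add 0 434,
  .inv 0,
  .mul 3 0,
  .mul 272 151,
  .scale ⟨549755813888, 0, 0, 0⟩ 280,
  .add 422 0,
  .mul 2 0,
  .scale ⟨2199023255552, 0, 0, 0⟩ 0,
  .add 161 0,
  .scale ⟨2199023255552, 0, 0, 0⟩ 0,
  .mul 0 151,
  .mul 436 151,
  .sub 422 0,
  .inv 0,
  .mul 3 0,
  .sub 12 0,
  .mul 290 290,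
  .const ⟨14293651161088, 0, 0, 0⟩,
  .const ⟨10995116277760, 0, 0, 0⟩,
  .inv 0,
  .mul 2 0,
  .mul 4 0,
  .mul 457 457,
  .scale ⟨27487790694400, 0, 0, 0⟩ 0,
  .add 2 0,
  .mul 126 55,
  .sub 420 462,
  .sub 0 422,
  .mul 462 459,
  .mul 0 464,
  .mul 440 178,
  .mul 0 302,
  .add 193 0,
  .add 21 411,
  .mul 468 0,
  .mul 10 9,
  .mul 177 1,
  .mul 7 4,
  .mul 1 0,
  .sub 3 0,
  .scale ⟨549755813888, 0, 0, 0⟩ 28,
  .add 475 0,
  .mul 183 0,
  .mul 479 454,
  .mul 0 323,
  .mul 455 427,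
  .inv 0,
  .mul 2 0,
  .mul 5 0,
  .sub 21 0,
  .mul 326 10,
  .sub 485 327,
  .mul 474 2,
  .mul 1 0,
  .mul 29 0,
  .add 4 0,
  .pos 320,
  .pos 317,
  .scale ⟨2199023255552, 0, 0, 0⟩ 200,
  .sub 439 0,
  .pos 0,
  .pos 192,
  .sub 484 347,
  .pos 0,
  .scale ⟨687194767360, 0, 0, 0⟩ 493,
  .sub 0 244,
  .pos 0,
  .scale ⟨377957122048, 0, 0, 0⟩ 495,
  .sub 0 250,
  .pos 0,
  .pos 50,
  .pos 189,
  .sub 3 177,
  .pos 0,
  .pos 48,
  .pos 70,
  .pos 8,
  .pos 14]

def chk3 {α : Type} (cst : Z → α) (add sub mul : α → α → α) (scale : Z → α → α)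
    (neg inv exp log : α → α) (ok : α → Bool) (isPos : Nat → α → Bool) (isLt : α → Nat → Bool) :
    List α → Bool
  | [x0, x1, x2, x3] =>
  let v0 := cst ⟨1099511627776, 0, 0, 0⟩; ok v0 && (
  let v1 := mul x1 x2; ok v1 && (
  let v2 := mul v1 x0; ok v2 && (
  let v3 := mul x2 v2; ok v3 && (
  let v4 := mul x2 x2; ok v4 && (
  let v5 := mul x1 v4; ok v5 && (
  let v6 := mul v2 v2; ok v6 && (
  let v7 := mul x1 v5; ok v7 && (
  let v8 := cst ⟨549755813888, 0, 0, 0⟩; ok v8 && (
  let v9 := mul x1 v3; ok v9 && (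
  let v10 := mul v9 x3; ok v10 && (
  let v11 := scale ⟨549755813888, 0, 0, 0⟩ v10; ok v11 && (
  let v12 := mul v3 v3; ok v12 && (
  let v13 := mul v11 v11; ok v13 && (
  let v14 := sub v0 v13; ok v14 && (
  let v15 := inv v14; ok v15 && (
  let v16 := mul v11 v15; ok v16 && (
  let v17 := scale ⟨2199023255552, 0, 0, 0⟩ v16; ok v17 && (
  let v18 := scale ⟨2199023255552, 0, 0, 0⟩ v15; ok v18 && (
  let v19 := sub v18 v0; ok v19 && (
  let v20 := add v19 v17; ok v20 && (
  let v21 := mul x3 v15; ok v21 && (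
  let v22 := mul v3 v21; ok v22 && (
  let v23 := sub v0 v22; ok v23 && (
  let v24 := add v0 v22; ok v24 && (
  let v25 := mul x1 v12; ok v25 && (
  let v26 := mul v21 v21; ok v26 && (
  let v27 := scale ⟨10774999203840, 0, 0, 0⟩ v11; ok v27 && (
  let v28 := scale ⟨45768245248, 0, 0, 0⟩ v27; ok v28 && (
  let v29 := cst ⟨183207198720, 0, 0, 0⟩; ok v29 && (
  let v30 := add v28 v29; ok v30 && (
  let v31 := mul v27 v30; ok v31 && (
  let v32 := add v8 v31; ok v32 && (
  let v33 := mul v27 v32; ok v33 && (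
  let v34 := add v0 v33; ok v34 && (
  let v35 := mul v27 v34; ok v35 && (
  let v36 := scale ⟨549755813888, 0, 0, 0⟩ v35; ok v36 && (
  let v37 := add v0 v36; ok v37 && (
  let v38 := mul v34 v37; ok v38 && (
  let v39 := mul v17 v22; ok v39 && (
  let v40 := scale ⟨2199023255552, 0, 0, 0⟩ v19; ok v40 && (
  let v41 := add v39 v40; ok v41 && (
  let v42 := add v41 x1; ok v42 && (
  let v43 := mul v25 v42; ok v43 && (
  let v44 := add v43 v0; ok v44 && (
  let v45 := mul v17 v17; ok v45 && (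
  let v46 := scale ⟨2199023255552, 0, 0, 0⟩ v45; ok v46 && (
  let v47 := add v46 v0; ok v47 && (
  let v48 := mul v19 v42; ok v48 && (
  let v49 := sub v48 v0; ok v49 && (
  let v50 := log v44; ok v50 && (
  let v51 := scale ⟨549755813888, 0, 0, 0⟩ v50; ok v51 && (
  let v52 := exp v51; ok v52 && (
  let v53 := cst ⟨3298534883328, 0, 0, 0⟩; ok v53 && (
  let v54 := inv v53; ok v54 && (
  let v55 := mul v0 v54; ok v55 && (
  let v56 := cst ⟨2199023255552, 0, 0, 0⟩; ok v56 && (
  let v57 := add v43 v56; ok v57 && (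
  let v58 := inv v57; ok v58 && (
  let v59 := mul v43 v58; ok v59 && (
  let v60 := mul v59 v59; ok v60 && (
  let v61 := sub v0 v59; ok v61 && (
  let v62 := mul v60 v55; ok v62 && (
  let v63 := add v0 v62; ok v63 && (
  let v64 := mul v61 v63; ok v64 && (
  let v65 := mul v60 v60; ok v65 && (
  let v66 := scale ⟨219915747328, 0, 0, 0⟩ v65; ok v66 && (
  let v67 := mul v42 v64; ok v67 && (
  let v68 := scale ⟨549755813888, 0, 0, 0⟩ v67; ok v68 && (
  let v69 := mul v42 v66; ok v69 && (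
  let v70 := scale ⟨549755813888, 0, 0, 0⟩ v69; ok v70 && (
  let v71 := add v68 v70; ok v71 && (
  let v72 := mul v19 v49; ok v72 && (
  let v73 := scale ⟨4398046511104, 0, 0, 0⟩ v72; ok v73 && (
  let v74 := mul v19 v25; ok v74 && (
  let v75 := mul v74 v49; ok v75 && (
  let v76 := scale ⟨4398046511104, 0, 0, 0⟩ v75; ok v76 && (
  let v77 := add v76 v56; ok v77 && (
  let v78 := inv v77; ok v78 && (
  let v79 := mul v76 v78; ok v79 && (
  let v80 := mul v79 v79; ok v80 && (
  let v81 := sub v0 v79; ok v81 && (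
  let v82 := mul v80 v55; ok v82 && (
  let v83 := add v0 v82; ok v83 && (
  let v84 := mul v81 v83; ok v84 && (
  let v85 := mul v80 v80; ok v85 && (
  let v86 := scale ⟨219915747328, 0, 0, 0⟩ v85; ok v86 && (
  let v87 := mul v73 v84; ok v87 && (
  let v88 := scale ⟨549755813888, 0, 0, 0⟩ v87; ok v88 && (
  let v89 := sub v88 v71; ok v89 && (
  let v90 := mul v73 v86; ok v90 && (
  let v91 := scale ⟨549755813888, 0, 0, 0⟩ v90; ok v91 && (
  let v92 := add v91 v70; ok v92 && (
  let v93 := add v89 v92; ok v93 && (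
  let v94 := mul v5 v68; ok v94 && (
  let v95 := neg v94; ok v95 && (
  let v96 := exp v95; ok v96 && (
  let v97 := mul v5 v70; ok v97 && (
  let v98 := mul v96 v97; ok v98 && (
  let v99 := mul v22 v17; ok v99 && (
  let v100 := add v19 v99; ok v100 && (
  let v101 := inv v100; ok v101 && (
  let v102 := mul v24 v101; ok v102 && (
  let v103 := mul v23 x1; ok v103 && (
  let v104 := mul v103 v102; ok v104 && (
  let v105 := sub v0 v12; ok v105 && (
  let v106 := mul v26 v105; ok v106 && (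
  let v107 := mul v9 v9; ok v107 && (
  let v108 := sub v0 v26; ok v108 && (
  let v109 := mul v105 v108; ok v109 && (
  let v110 := mul v25 v49; ok v110 && (
  let v111 := inv v44; ok v111 && (
  let v112 := mul v110 v111; ok v112 && (
  let v113 := add v19 v112; ok v113 && (
  let v114 := mul v44 v113; ok v114 && (
  let v115 := mul v114 v114; ok v115 && (
  let v116 := inv v115; ok v116 && (
  let v117 := mul v109 v116; ok v117 && (
  let v118 := add v19 v25; ok v118 && (
  let v119 := mul x0 v118; ok v119 && (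
  let v120 := inv v119; ok v120 && (
  let v121 := mul v0 v120; ok v121 && (
  let v122 := mul v121 v121; ok v122 && (
  let v123 := mul v122 v109; ok v123 && (
  let v124 := mul v104 v0; ok v124 && (
  let v125 := scale ⟨549755813888, 0, 0, 0⟩ v124; ok v125 && (
  let v126 := sub v0 v125; ok v126 && (
  let v127 := sub v0 v124; ok v127 && (
  let v128 := inv v127; ok v128 && (
  let v129 := mul v126 v128; ok v129 && (
  let v130 := add v124 v0; ok v130 && (
  let v131 := mul v96 v130; ok v131 && (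
  let v132 := mul v102 v129; ok v132 && (
  let v133 := mul v132 v0; ok v133 && (
  let v134 := mul v124 v129; ok v134 && (
  isPos 4 v127 && (
  let v135 := mul v23 v24; ok v135 && (
  let v136 := add v19 x1; ok v136 && (
  let v137 := mul v22 v19; ok v137 && (
  let v138 := mul v137 v17; ok v138 && (
  let v139 := scale ⟨2199023255552, 0, 0, 0⟩ v138; ok v139 && (
  let v140 := add v47 v139; ok v140 && (
  let v141 := mul v136 v140; ok v141 && (
  let v142 := inv v141; ok v142 && (
  let v143 := mul v135 v142; ok v143 && (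
  let v144 := mul x1 v143; ok v144 && (
  isPos 4 v89 && (
  let v145 := mul v144 v0; ok v145 && (
  let v146 := mul v0 x0; ok v146 && (
  let v147 := add v11 v0; ok v147 && (
  let v148 := inv v147; ok v148 && (
  let v149 := mul v11 v148; ok v149 && (
  let v150 := scale ⟨2199023255552, 0, 0, 0⟩ v149; ok v150 && (
  let v151 := sub v0 v150; ok v151 && (
  let v152 := sub v0 v11; ok v152 && (
  let v153 := mul x3 v148; ok v153 && (
  let v154 := mul v153 v151; ok v154 && (
  let v155 := add v24 v154; ok v155 && (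
  let v156 := scale ⟨224412041216, 0, 0, 0⟩ v15; ok v156 && (
  let v157 := inv v38; ok v157 && (
  let v158 := mul v156 v157; ok v158 && (
  let v159 := scale ⟨4398046511104, 0, 0, 0⟩ x0; ok v159 && (
  let v160 := mul v0 v21; ok v160 && (
  let v161 := add v159 v160; ok v161 && (
  let v162 := scale ⟨549755813888, 0, 0, 0⟩ v161; ok v162 && (
  let v163 := inv v162; ok v163 && (
  let v164 := mul v0 v163; ok v164 && (
  let v165 := mul x0 v163; ok v165 && (
  let v166 := mul v165 v24; ok v166 && (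
  let v167 := mul v166 v158; ok v167 && (
  let v168 := mul v164 v24; ok v168 && (
  let v169 := mul v168 v158; ok v169 && (
  let v170 := sub v0 v169; ok v170 && (
  let v171 := inv v170; ok v171 && (
  let v172 := mul v131 v169; ok v172 && (
  let v173 := sub v0 v172; ok v173 && (
  let v174 := inv v173; ok v174 && (
  let v175 := scale ⟨2199023255552, 0, 0, 0⟩ v6; ok v175 && (
  let v176 := add v175 v0; ok v176 && (
  let v177 := add v6 v0; ok v177 && (
  let v178 := mul x0 v21; ok v178 && (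
  let v179 := scale ⟨2199023255552, 0, 0, 0⟩ v178; ok v179 && (
  let v180 := scale ⟨549755813888, 0, 0, 0⟩ x1; ok v180 && (
  let v181 := add v179 v180; ok v181 && (
  let v182 := mul x2 v181; ok v182 && (
  let v183 := scale ⟨549755813888, 0, 0, 0⟩ v182; ok v183 && (
  let v184 := mul v11 v21; ok v184 && (
  let v185 := sub v0 v106; ok v185 && (
  let v186 := mul v11 v22; ok v186 && (
  let v187 := scale ⟨2199023255552, 0, 0, 0⟩ v186; ok v187 && (
  let v188 := sub v185 v187; ok v188 && (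
  let v189 := mul v184 v184; ok v189 && (
  let v190 := add v188 v189; ok v190 && (
  let v191 := add v190 v0; ok v191 && (
  let v192 := scale ⟨549755813888, 0, 0, 0⟩ v191; ok v192 && (
  let v193 := scale ⟨549755813888, 0, 0, 0⟩ v25; ok v193 && (
  let v194 := sub v15 v193; ok v194 && (
  let v195 := mul v107 v185; ok v195 && (
  let v196 := mul v195 v14; ok v196 && (
  let v197 := scale ⟨137438953472, 0, 0, 0⟩ v196; ok v197 && (
  let v198 := add v194 v197; ok v198 && (
  let v199 := mul v192 v198; ok v199 && (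
  let v200 := cst ⟨1, 0, 0, 0⟩; ok v200 && (
  let v201 := cst ⟨12, 0, 0, 0⟩; ok v201 && (
  let v202 := mul v123 v200; ok v202 && (
  let v203 := sub v201 v202; ok v203 && (
  let v204 := cst ⟨2296, 0, 0, 0⟩; ok v204 && (
  let v205 := mul v123 v203; ok v205 && (
  let v206 := sub v204 v205; ok v206 && (
  let v207 := cst ⟨302995, 0, 0, 0⟩; ok v207 && (
  let v208 := mul v123 v206; ok v208 && (
  let v209 := sub v207 v208; ok v209 && (
  let v210 := cst ⟨27269634, 0, 0, 0⟩; ok v210 && (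
  let v211 := mul v123 v209; ok v211 && (
  let v212 := sub v210 v211; ok v212 && (
  let v213 := cst ⟨1527099483, 0, 0, 0⟩; ok v213 && (
  let v214 := mul v123 v212; ok v214 && (
  let v215 := sub v213 v214; ok v215 && (
  let v216 := cst ⟨45812984491, 0, 0, 0⟩; ok v216 && (
  let v217 := mul v123 v215; ok v217 && (
  let v218 := sub v216 v217; ok v218 && (
  let v219 := mul v123 v218; ok v219 && (
  let v220 := sub v8 v219; ok v220 && (
  let v221 := mul v123 v220; ok v221 && (
  let v222 := sub v0 v221; ok v222 && (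
  let v223 := mul v123 v6; ok v223 && (
  let v224 := mul v96 v96; ok v224 && (
  let v225 := add v224 v0; ok v225 && (
  let v226 := mul v223 v223; ok v226 && (
  let v227 := scale ⟨369367187456, 0, 0, 0⟩ v226; ok v227 && (
  let v228 := add v222 v227; ok v228 && (
  let v229 := mul v96 v228; ok v229 && (
  let v230 := scale ⟨2199023255552, 0, 0, 0⟩ v229; ok v230 && (
  let v231 := add v225 v230; ok v231 && (
  let v232 := scale ⟨2199023255552, 0, 0, 0⟩ v98; ok v232 && (
  let v233 := add v231 v232; ok v233 && (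
  let v234 := cst ⟨8589934592, 0, 0, 0⟩; ok v234 && (
  let v235 := add v233 v234; ok v235 && (
  let v236 := log v235; ok v236 && (
  let v237 := scale ⟨549755813888, 0, 0, 0⟩ v236; ok v237 && (
  let v238 := exp v237; ok v238 && (
  let v239 := mul v96 v124; ok v239 && (
  let v240 := add v238 v239; ok v240 && (
  let v241 := mul v240 v171; ok v241 && (
  let v242 := mul v131 v174; ok v242 && (
  let v243 := add v241 v242; ok v243 && (
  let v244 := mul v169 v243; ok v244 && (
  let v245 := add v134 v244; ok v245 && (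
  let v246 := mul v245 v6; ok v246 && (
  let v247 := mul v240 v169; ok v247 && (
  let v248 := mul v247 v171; ok v248 && (
  let v249 := add v134 v248; ok v249 && (
  let v250 := mul v249 v6; ok v250 && (
  let v251 := scale ⟨223338299392, 0, 0, 0⟩ v250; ok v251 && (
  let v252 := add v8 v251; ok v252 && (
  let v253 := mul v250 v252; ok v253 && (
  let v254 := add v0 v253; ok v254 && (
  let v255 := scale ⟨893353197568, 0, 0, 0⟩ v246; ok v255 && (
  let v256 := add v0 v255; ok v256 && (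
  let v257 := mul v246 v256; ok v257 && (
  let v258 := add v0 v257; ok v258 && (
  let v259 := mul v150 v153; ok v259 && (
  let v260 := mul v259 v176; ok v260 && (
  let v261 := mul v260 v258; ok v261 && (
  let v262 := mul v199 v254; ok v262 && (
  let v263 := add v52 v8; ok v263 && (
  let v264 := mul v261 v263; ok v264 && (
  let v265 := add v262 v264; ok v265 && (
  let v266 := add v52 v0; ok v266 && (
  let v267 := mul v261 v266; ok v267 && (
  let v268 := mul v177 v266; ok v268 && (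
  let v269 := mul v268 v153; ok v269 && (
  let v270 := mul v269 v152; ok v270 && (
  let v271 := mul v265 v133; ok v271 && (
  let v272 := mul v270 v183; ok v272 && (
  let v273 := add v271 v272; ok v273 && (
  let v274 := mul v5 v155; ok v274 && (
  let v275 := inv v52; ok v275 && (
  let v276 := mul v274 v275; ok v276 && (
  let v277 := scale ⟨549755813888, 0, 0, 0⟩ v276; ok v277 && (
  let v278 := mul v23 v277; ok v278 && (
  let v279 := add v278 v273; ok v279 && (
  let v280 := mul x1 v279; ok v280 && (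
  let v281 := mul x0 v280; ok v281 && (
  let v282 := mul v265 v240; ok v282 && (
  let v283 := mul v282 v171; ok v283 && (
  let v284 := mul v267 v131; ok v284 && (
  let v285 := mul v284 v174; ok v285 && (
  let v286 := add v283 v285; ok v286 && (
  let v287 := mul v23 v281; ok v287 && (
  let v288 := mul v167 v286; ok v288 && (
  let v289 := add v287 v288; ok v289 && (
  let v290 := mul v107 v289; ok v290 && (
  let v291 := mul v290 v275; ok v291 && (
  let v292 := sub v0 v291; ok v292 && (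
  let v293 := inv v292; ok v293 && (
  let v294 := mul v289 v293; ok v294 && (
  let v295 := mul x1 v294; ok v295 && (
  let v296 := mul v107 v294; ok v296 && (
  let v297 := mul v296 v275; ok v297 && (
  let v298 := sub v0 v297; ok v298 && (
  let v299 := mul v49 v298; ok v299 && (
  let v300 := sub v299 v295; ok v300 && (
  let v301 := inv v300; ok v301 && (
  let v302 := mul v295 v301; ok v302 && (
  let v303 := sub v52 v296; ok v303 && (
  let v304 := inv v303; ok v304 && (
  let v305 := mul v302 v0; ok v305 && (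
  let v306 := scale ⟨549755813888, 0, 0, 0⟩ v305; ok v306 && (
  let v307 := sub v0 v306; ok v307 && (
  let v308 := sub v0 v305; ok v308 && (
  let v309 := inv v308; ok v309 && (
  let v310 := mul v307 v309; ok v310 && (
  let v311 := mul v3 v304; ok v311 && (
  let v312 := mul v146 v301; ok v312 && (
  let v313 := mul v312 v310; ok v313 && (
  let v314 := add v311 v313; ok v314 && (
  let v315 := mul v7 v294; ok v315 && (
  let v316 := mul v304 v315; ok v316 && (
  let v317 := mul v0 v301; ok v317 && (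
  let v318 := mul v317 v310; ok v318 && (
  let v319 := mul v318 v295; ok v319 && (
  let v320 := add v316 v319; ok v320 && (
  let v321 := scale ⟨223338299392, 0, 0, 0⟩ v320; ok v321 && (
  let v322 := add v8 v321; ok v322 && (
  let v323 := mul v320 v322; ok v323 && (
  let v324 := add v0 v323; ok v324 && (
  let v325 := mul v314 v324; ok v325 && (
  let v326 := mul v325 v293; ok v326 && (
  let v327 := mul v326 v286; ok v327 && (
  let v328 := mul v168 v23; ok v328 && (
  let v329 := cst ⟨5497558138880, 0, 0, 0⟩; ok v329 && (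
  let v330 := inv v329; ok v330 && (
  let v331 := mul v53 v330; ok v331 && (
  let v332 := mul v147 v24; ok v332 && (
  let v333 := mul v332 v331; ok v333 && (
  let v334 := mul v136 v101; ok v334 && (
  let v335 := mul v22 v334; ok v335 && (
  let v336 := scale ⟨549755813888, 0, 0, 0⟩ v145; ok v336 && (
  let v337 := sub v0 v336; ok v337 && (
  let v338 := sub v0 v145; ok v338 && (
  let v339 := inv v338; ok v339 && (
  let v340 := mul v337 v339; ok v340 && (
  let v341 := mul v340 v144; ok v341 && (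
  let v342 := mul v107 v117; ok v342 && (
  let v343 := scale ⟨733097230336, 0, 0, 0⟩ v342; ok v343 && (
  let v344 := sub v0 v343; ok v344 && (
  let v345 := mul v117 v344; ok v345 && (
  let v346 := mul v89 v89; ok v346 && (
  let v347 := mul v12 v346; ok v347 && (
  let v348 := add v345 v347; ok v348 && (
  let v349 := mul v341 v146; ok v349 && (
  let v350 := add v348 v0; ok v350 && (
  let v351 := mul v349 v350; ok v351 && (
  let v352 := sub v348 v351; ok v352 && (
  let v353 := scale ⟨366548615168, 0, 0, 0⟩ v45; ok v353 && (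
  let v354 := sub v0 v353; ok v354 && (
  let v355 := mul v26 v354; ok v355 && (
  let v356 := add v352 v355; ok v356 && (
  let v357 := mul v334 v356; ok v357 && (
  let v358 := mul v335 v335; ok v358 && (
  let v359 := add v0 v358; ok v359 && (
  let v360 := inv v359; ok v360 && (
  let v361 := mul v357 v360; ok v361 && (
  let v362 := sub v0 v302; ok v362 && (
  let v363 := mul v362 v361; ok v363 && (
  let v364 := sub v0 v349; ok v364 && (
  isPos 4 v364 && (
  isPos 4 v361 && (
  isPos 4 v362 && (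
  let v365 := mul v326 v162; ok v365 && (
  let v366 := mul v365 v279; ok v366 && (
  let v367 := inv v24; ok v367 && (
  let v368 := mul v366 v367; ok v368 && (
  let v369 := mul v4 v363; ok v369 && (
  let v370 := mul x1 v369; ok v370 && (
  let v371 := scale ⟨549755813888, 0, 0, 0⟩ v370; ok v371 && (
  let v372 := sub v0 v371; ok v372 && (
  let v373 := mul v369 v372; ok v373 && (
  let v374 := neg v373; ok v374 && (
  let v375 := mul v3 x3; ok v375 && (
  let v376 := mul v375 v147; ok v376 && (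
  let v377 := mul v376 v15; ok v377 && (
  let v378 := mul v0 v377; ok v378 && (
  let v379 := add v374 v378; ok v379 && (
  let v380 := mul v374 v378; ok v380 && (
  let v381 := mul x1 v380; ok v381 && (
  let v382 := add v379 v381; ok v382 && (
  let v383 := mul v12 v42; ok v383 && (
  let v384 := scale ⟨412316860416, 0, 0, 0⟩ v43; ok v384 && (
  let v385 := sub v8 v384; ok v385 && (
  let v386 := mul v383 v385; ok v386 && (
  let v387 := mul v0 v386; ok v387 && (
  let v388 := neg v387; ok v388 && (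
  let v389 := add v382 v388; ok v389 && (
  let v390 := mul v382 v388; ok v390 && (
  let v391 := mul x1 v390; ok v391 && (
  let v392 := add v389 v391; ok v392 && (
  let v393 := mul v3 v294; ok v393 && (
  let v394 := mul v393 v367; ok v394 && (
  let v395 := mul v0 v394; ok v395 && (
  let v396 := add v392 v395; ok v396 && (
  let v397 := mul v392 v395; ok v397 && (
  let v398 := mul x1 v397; ok v398 && (
  let v399 := add v396 v398; ok v399 && (
  let v400 := mul v0 v333; ok v400 && (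
  let v401 := sub v399 v400; ok v401 && (
  let v402 := mul x1 v333; ok v402 && (
  let v403 := add v0 v402; ok v403 && (
  let v404 := inv v403; ok v404 && (
  let v405 := mul v401 v404; ok v405 && (
  let v406 := mul v3 v9; ok v406 && (
  let v407 := mul v406 v294; ok v407 && (
  let v408 := mul v407 v304; ok v408 && (
  let v409 := mul v0 v408; ok v409 && (
  let v410 := add v405 v409; ok v410 && (
  let v411 := mul v405 v409; ok v411 && (
  let v412 := mul x1 v411; ok v412 && (
  let v413 := add v410 v412; ok v413 && (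
  let v414 := mul x1 v413; ok v414 && (
  let v415 := add v0 v414; ok v415 && (
  let v416 := mul v327 v169; ok v416 && (
  let v417 := mul x1 v328; ok v417 && (
  let v418 := mul v368 v417; ok v418 && (
  let v419 := add v416 v418; ok v419 && (
  let v420 := mul v0 v419; ok v420 && (
  let v421 := add v327 v368; ok v421 && (
  let v422 := mul v0 v421; ok v422 && (
  let v423 := mul v420 v415; ok v423 && (
  let v424 := add v413 v423; ok v424 && (
  let v425 := add v424 v422; ok v425 && (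
  let v426 := neg v425; ok v426 && (
  let v427 := scale ⟨1073741824, 0, 0, 0⟩ v0; ok v427 && (
  let v428 := sub v426 v427; ok v428 && (
  let v429 := sub v20 v0; ok v429 && (
  let v430 := add v429 v56; ok v430 && (
  let v431 := scale ⟨2199023255552, 0, 0, 0⟩ v331; ok v431 && (
  let v432 := sub v430 v431; ok v432 && (
  let v433 := mul v147 v432; ok v433 && (
  let v434 := mul v429 v431; ok v434 && (
  let v435 := add v434 v0; ok v435 && (
  let v436 := inv v435; ok v436 && (
  let v437 := mul v433 v436; ok v437 && (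
  let v438 := mul v165 v286; ok v438 && (
  let v439 := scale ⟨549755813888, 0, 0, 0⟩ v158; ok v439 && (
  let v440 := add v17 v439; ok v440 && (
  let v441 := mul v438 v440; ok v441 && (
  let v442 := scale ⟨2199023255552, 0, 0, 0⟩ v441; ok v442 && (
  let v443 := add v281 v442; ok v443 && (
  let v444 := scale ⟨2199023255552, 0, 0, 0⟩ v443; ok v444 && (
  let v445 := mul v444 v293; ok v445 && (
  let v446 := mul v9 v294; ok v446 && (
  let v447 := sub v24 v446; ok v447 && (
  let v448 := inv v447; ok v448 && (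
  let v449 := mul v445 v448; ok v449 && (
  let v450 := sub v437 v449; ok v450 && (
  let v451 := mul v160 v160; ok v451 && (
  let v452 := cst ⟨14293651161088, 0, 0, 0⟩; ok v452 && (
  let v453 := cst ⟨10995116277760, 0, 0, 0⟩; ok v453 && (
  let v454 := inv v453; ok v454 && (
  let v455 := mul v452 v454; ok v455 && (
  let v456 := mul v451 v455; ok v456 && (
  let v457 := mul x0 x0; ok v457 && (
  let v458 := scale ⟨27487790694400, 0, 0, 0⟩ v457; ok v458 && (
  let v459 := add v456 v458; ok v459 && (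
  let v460 := mul v333 v404; ok v460 && (
  let v461 := sub v40 x1; ok v461 && (
  let v462 := sub v461 v39; ok v462 && (
  let v463 := mul v0 v3; ok v463 && (
  let v464 := mul v463 x0; ok v464 && (
  let v465 := mul v24 v286; ok v465 && (
  let v466 := mul v465 v163; ok v466 && (
  let v467 := add v273 v466; ok v467 && (
  let v468 := add v446 v56; ok v468 && (
  let v469 := mul v0 v468; ok v469 && (
  let v470 := mul v459 v460; ok v470 && (
  let v471 := mul v293 v469; ok v471 && (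
  let v472 := mul v464 v467; ok v472 && (
  let v473 := mul v471 v472; ok v473 && (
  let v474 := sub v470 v473; ok v474 && (
  let v475 := scale ⟨549755813888, 0, 0, 0⟩ v446; ok v475 && (
  let v476 := add v0 v475; ok v476 && (
  let v477 := mul v293 v476; ok v477 && (
  let v478 := mul x1 v23; ok v478 && (
  let v479 := mul v478 v155; ok v479 && (
  let v480 := mul v24 v52; ok v480 && (
  let v481 := inv v480; ok v481 && (
  let v482 := mul v479 v481; ok v482 && (
  let v483 := mul v477 v482; ok v483 && (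
  let v484 := sub v462 v483; ok v484 && (
  let v485 := mul v158 v474; ok v485 && (
  let v486 := sub v0 v158; ok v486 && (
  let v487 := mul v12 v484; ok v487 && (
  let v488 := mul v486 v487; ok v488 && (
  let v489 := mul v459 v488; ok v489 && (
  let v490 := add v485 v489; ok v490 && (
  isPos 4 v170 && (
  isPos 4 v173 && (
  let v491 := scale ⟨2199023255552, 0, 0, 0⟩ v290; ok v491 && (
  let v492 := sub v52 v491; ok v492 && (
  isPos 4 v492 && (
  isPos 4 v300 && (
  let v493 := sub v8 v145; ok v493 && (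
  isPos 4 v493 && (
  let v494 := scale ⟨687194767360, 0, 0, 0⟩ v0; ok v494 && (
  let v495 := sub v494 v250; ok v495 && (
  isPos 4 v495 && (
  let v496 := scale ⟨377957122048, 0, 0, 0⟩ v0; ok v496 && (
  let v497 := sub v496 v246; ok v497 && (
  isPos 4 v497 && (
  isPos 4 v447 && (
  isPos 4 v308 && (
  let v498 := sub v494 v320; ok v498 && (
  isPos 4 v498 && (
  isPos 4 v450 && (
  isPos 4 v428 && (
  isPos 4 v490 && (
  isPos 4 v484 && (
  true))))))))))))))))))))))))))))))))))))))))))))))))))))))))))))))))))))))))))))))))))))))))))))))))))))))))))))))))))))))))))))))))))))))))))))))))))))))))))))))))))))))))))))))))))))))))))))))))))))))))))))))))))))))))))))))))))))))))))))))))))))))))))))))))))))))))))))))))))))))))))))))))))))))))))))))))))))))))))))))))))))))))))))))))))))))))))))))))))))))))))))))))))))))))))))))))))))))))))))))))))))))))))))))))))))))))))))))))))))))))))))))))))))))))))))))))))))))))))))))))))))))))))))))))))))))))))))))))))))))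
  | _ => false

set_option maxRecDepth 1000000 in
theorem chk3_eq (O : Ops) (m : List O.α)
    (h : chk3 O.cst O.add O.sub O.mul O.scale O.neg O.inv O.exp O.log O.ok O.isPos O.isLt m = true) :
    runG O 4 prog3 m = true := by
  match m, h with
  | [x0, x1, x2, x3], h => exact h

def chkB3 : List opsE.α → Bool :=
  chk3 opsE.cst opsE.add opsE.sub opsE.mul opsE.scale opsE.neg opsE.inv opsE.exp opsE.log opsE.ok opsE.isPos opsE.isLt

theorem chkB3_eq (m : List opsE.α) (h : chkB3 m = true) : runG opsE 4 prog3 m = true :=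
  chk3_eq opsE m h

def prog4 : List Op := [
  .const ⟨1099511627776, 0, 0, 0⟩,
  .mul 2 3,
  .mul 0 2,
  .mul 5 0,
  .mul 6 6,
  .mul 6 0,
  .mul 3 3,
  .mul 8 1,
  .const ⟨549755813888, 0, 0, 0⟩,
  .mul 10 5,
  .mul 0 13,
  .scale ⟨549755813888, 0, 0, 0⟩ 0,
  .mul 8 8,
  .mul 1 1,
  .sub 13 0,
  .inv 0,
  .mul 4 0,
  .scale ⟨2199023255552, 0, 0, 0⟩ 0,
  .scale ⟨2199023255552, 0, 0, 0⟩ 2,
  .sub 0 18,
  .add 0 2,
  .mul 24 5,
  .mul 18 0,
  .sub 22 0,
  .add 23 1,
  .mul 26 12,
  .mul 4 4,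
  .scale ⟨10774999203840, 0, 0, 0⟩ 15,
  .scale ⟨45768245248, 0, 0, 0⟩ 0,
  .const ⟨183207198720, 0, 0, 0⟩,
  .add 1 0,
  .mul 3 0,
  .add 23 0,
  .mul 5 0,
  .add 33 0,
  .mul 7 0,
  .scale ⟨549755813888, 0, 0, 0⟩ 0,
  .add 36 0,
  .mul 3 0,
  .mul 21 16,
  .scale ⟨2199023255552, 0, 0, 0⟩ 20,
  .add 1 0,
  .add 0 43,
  .mul 17 0,
  .add 0 43,
  .mul 27 27,
  .scale ⟨2199023255552, 0, 0, 0⟩ 0,
  .add 0 46,
  .mul 28 5,
  .sub 0 48,
  .log 5,
  .scale ⟨549755813888, 0, 0, 0⟩ 0,
  .exp 0,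
  .const ⟨3298534883328, 0, 0, 0⟩,
  .inv 0,
  .mul 54 0,
  .const ⟨2199023255552, 0, 0, 0⟩,
  .add 13 0,
  .inv 0,
  .mul 15 0,
  .mul 0 0,
  .sub 60 1,
  .mul 1 6,
  .add 62 0,
  .mul 2 0,
  .mul 4 4,
  .scale ⟨219915747328, 0, 0, 0⟩ 0,
  .mul 24 2,
  .scale ⟨549755813888, 0, 0, 0⟩ 0,
  .mul 26 2,
  .scale ⟨549755813888, 0, 0, 0⟩ 0,
  .add 2 0,
  .mul 52 22,
  .scale ⟨4398046511104, 0, 0, 0⟩ 0,
  .mul 54 48,
  .mul 0 25,
  .scale ⟨4398046511104, 0, 0, 0⟩ 0,
  .add 0 20,
  .inv 0,
  .mul 2 0,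
  .mul 0 0,
  .sub 80 1,
  .mul 1 26,
  .add 82 0,
  .mul 2 0,
  .mul 4 4,
  .scale ⟨219915747328, 0, 0, 0⟩ 0,
  .mul 13 2,
  .scale ⟨549755813888, 0, 0, 0⟩ 0,
  .sub 0 17,
  .mul 16 3,
  .scale ⟨549755813888, 0, 0, 0⟩ 0,
  .add 0 21,
  .add 3 0,
  .mul 88 25,
  .neg 0,
  .exp 0,
  .mul 91 26,
  .mul 1 0,
  .mul 76 81,
  .add 80 0,
  .inv 0,
  .mul 77 0,
  .mul 79 104,
  .mul 0 1,
  .sub 104 92,
  .mul 79 0,
  .mul 97 97,
  .sub 107 81,
  .mul 3 0,
  .mul 84 60,
  .inv 66,
  .mul 1 0,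
  .add 93 0,
  .mul 69 0,
  .mul 0 0,
  .inv 0,
  .mul 7 0,
  .add 98 92,
  .mul 119 0,
  .inv 0,
  .mul 120 0,
  .mul 0 0,
  .mul 0 13,
  .mul 19 123,
  .scale ⟨549755813888, 0, 0, 0⟩ 0,
  .sub 125 0,
  .sub 126 2,
  .inv 0,
  .mul 2 0,
  .add 5 129,
  .mul 34 0,
  .mul 29 2,
  .mul 0 132,
  .mul 9 4,
  .pos 7,
  .mul 111 110,
  .add 116 137,
  .mul 114 117,
  .mul 0 120,
  .scale ⟨2199023255552, 0, 0, 0⟩ 0,
  .add 92 0,
  .mul 4 0,
  .inv 0,
  .mul 7 0,
  .mul 145 0,
  .pos 55,
  .mul 0 144,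
  .mul 145 146,
  .add 135 146,
  .inv 0,
  .mul 137 0,
  .scale ⟨2199023255552, 0, 0, 0⟩ 0,
  .sub 150 0,
  .sub 151 140,
  .mul 156 4,
  .mul 0 2,
  .add 130 0,
  .scale ⟨224412041216, 0, 0, 0⟩ 140,
  .inv 118,
  .mul 1 0,
  .scale ⟨4398046511104, 0, 0, 0⟩ 159,
  .mul 159 138,
  .add 1 0,
  .scale ⟨549755813888, 0, 0, 0⟩ 0,
  .inv 0,
  .mul 163 0,
  .mul 165 1,
  .mul 0 141,
  .mul 0 8,
  .mul 3 143,
  .mul 0 10,
  .sub 169 0,
  .inv 0,
  .mul 40 2,
  .sub 172 0,
  .inv 0,
  .scale ⟨2199023255552, 0, 0, 0⟩ 168,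
  .add 0 175,
  .add 170 176,
  .scale ⟨3573412790272, 0, 0, 0⟩ 155,
  .const ⟨339302416384, 0, 0, 0⟩,
  .add 1 0,
  .scale ⟨549755813888, 0, 0, 0⟩ 0,
  .mul 170 160,
  .sub 182 76,
  .mul 172 161,
  .scale ⟨2199023255552, 0, 0, 0⟩ 0,
  .sub 2 0,
  .mul 4 4,
  .add 1 0,
  .add 0 188,
  .scale ⟨549755813888, 0, 0, 0⟩ 0,
  .scale ⟨549755813888, 0, 0, 0⟩ 165,
  .sub 176 0,
  .mul 85 9,
  .mul 0 179,
  .scale ⟨137438953472, 0, 0, 0⟩ 0,
  .add 3 0,
  .mul 6 0,
  .const ⟨1, 0, 0, 0⟩,
  .const ⟨12, 0, 0, 0⟩,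
  .mul 76 1,
  .sub 1 0,
  .const ⟨2296, 0, 0, 0⟩,
  .mul 79 1,
  .sub 1 0,
  .const ⟨302995, 0, 0, 0⟩,
  .mul 82 1,
  .sub 1 0,
  .const ⟨27269634, 0, 0, 0⟩,
  .mul 85 1,
  .sub 1 0,
  .const ⟨1527099483, 0, 0, 0⟩,
  .mul 88 1,
  .sub 1 0,
  .const ⟨45812984491, 0, 0, 0⟩,
  .mul 91 1,
  .sub 1 0,
  .mul 93 0,
  .sub 209 0,
  .mul 95 0,
  .sub 219 0,
  .mul 97 214,
  .mul 125 125,
  .add 0 222,
  .mul 2 2,
  .scale ⟨369367187456, 0, 0, 0⟩ 0,
  .add 5 0,
  .mul 130 0,
  .scale ⟨2199023255552, 0, 0, 0⟩ 0,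
  .add 5 0,
  .scale ⟨2199023255552, 0, 0, 0⟩ 131,
  .add 1 0,
  .const ⟨8589934592, 0, 0, 0⟩,
  .add 1 0,
  .log 0,
  .scale ⟨549755813888, 0, 0, 0⟩ 0,
  .exp 0,
  .mul 140 112,
  .add 1 0,
  .mul 0 67,
  .mul 108 65,
  .add 1 0,
  .mul 72 0,
  .add 108 0,
  .mul 0 237,
  .mul 6 75,
  .mul 0 74,
  .add 112 0,
  .mul 0 241,
  .scale ⟨223338299392, 0, 0, 0⟩ 0,
  .add 241 0,
  .mul 2 0,
  .add 251 0,
  .scale ⟨893353197568, 0, 0, 0⟩ 8,
  .add 253 0,
  .mul 10 0,
  .add 255 0,
  .mul 106 103,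
  .mul 0 81,
  .mul 0 2,
  .mul 62 7,
  .add 208 252,
  .mul 2 0,
  .add 2 0,
  .add 211 263,
  .mul 5 0,
  .mul 88 1,
  .mul 0 113,
  .mul 0 115,
  .mul 5 135,
  .mul 1 88,
  .add 1 0,
  .mul 266 116,
  .inv 220,
  .mul 1 0,
  .scale ⟨549755813888, 0, 0, 0⟩ 0,
  .mul 252 0,
  .add 0 5,
  .mul 279 0,
  .mul 279 0,
  .mul 16 41,
  .mul 0 109,
  .mul 16 150,
  .mul 0 108,
  .add 2 0,
  .mul 261 5,
  .mul 118 1,
  .add 1 0,
  .mul 180 0,
  .mul 0 15,
  .sub 289 0,
  .inv 0,
  .mul 4 0,
  .mul 294 0,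
  .mul 186 1,
  .mul 0 21,
  .sub 295 0,
  .mul 247 0,
  .sub 0 4,
  .inv 0,
  .mul 6 0,
  .sub 248 6,
  .inv 0,
  .mul 2 302,
  .scale ⟨549755813888, 0, 0, 0⟩ 0,
  .sub 304 0,
  .sub 305 2,
  .inv 0,
  .mul 2 0,
  .mul 305 6,
  .mul 163 10,
  .mul 0 2,
  .add 2 0,
  .mul 305 20,
  .mul 11 0,
  .mul 314 15,
  .mul 0 7,
  .mul 0 23,
  .add 3 0,
  .scale ⟨223338299392, 0, 0, 0⟩ 0,
  .add 311 0,
  .mul 2 0,
  .add 321 0,
  .mul 10 0,
  .mul 0 32,
  .mul 0 40,
  .mul 157 302,
  .const ⟨5497558138880, 0, 0, 0⟩,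
  .inv 0,
  .mul 275 0,
  .mul 182 305,
  .mul 0 1,
  .mul 195 230,
  .mul 310 0,
  .scale ⟨549755813888, 0, 0, 0⟩ 188,
  .sub 334 0,
  .sub 335 190,
  .inv 0,
  .mul 2 0,
  .mul 0 194,
  .mul 232 222,
  .scale ⟨733097230336, 0, 0, 0⟩ 0,
  .sub 341 0,
  .mul 225 0,
  .mul 254 254,
  .mul 332 0,
  .add 2 0,
  .mul 7 200,
  .add 1 347,
  .mul 1 0,
  .sub 3 0,
  .scale ⟨366548615168, 0, 0, 0⟩ 305,
  .sub 351 0,
  .mul 326 0,
  .add 3 0,
  .mul 22 0,
  .mul 22 22,
  .add 356 0,
  .inv 0,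
  .mul 3 0,
  .sub 359 59,
  .mul 0 1,
  .sub 361 14,
  .pos 0,
  .pos 3,
  .pos 2,
  .mul 38 200,
  .mul 0 86,
  .inv 340,
  .mul 1 0,
  .mul 362 5,
  .mul 369 0,
  .scale ⟨549755813888, 0, 0, 0⟩ 0,
  .sub 369 0,
  .mul 3 0,
  .neg 0,
  .mul 369 376,
  .mul 0 226,
  .mul 0 359,
  .mul 375 0,
  .add 4 0,
  .mul 5 1,
  .mul 380 0,
  .add 2 0,
  .mul 368 338,
  .scale ⟨412316860416, 0, 0, 0⟩ 338,
  .sub 374 0,
  .mul 2 0,
  .mul 384 0,
  .neg 0,
  .add 6 0,
  .mul 7 1,
  .mul 390 0,
  .add 2 0,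
  .mul 387 98,
  .mul 0 26,
  .mul 392 0,
  .add 3 0,
  .mul 4 1,
  .mul 397 0,
  .add 2 0,
  .mul 397 66,
  .sub 1 0,
  .mul 401 68,
  .add 400 0,
  .inv 0,
  .mul 3 0,
  .mul 400 394,
  .mul 0 112,
  .mul 0 103,
  .mul 406 0,
  .add 4 0,
  .mul 5 1,
  .mul 411 0,
  .add 2 0,
  .mul 413 0,
  .add 412 0,
  .mul 88 244,
  .mul 416 88,
  .mul 49 0,
  .add 2 0,
  .mul 417 0,
  .add 93 52,
  .mul 419 0,
  .mul 2 7,
  .add 10 0,
  .add 0 2,
  .neg 0,
  .scale ⟨1073741824, 0, 0, 0⟩ 424,
  .sub 1 0,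
  .sub 406 426,
  .add 0 371,
  .scale ⟨2199023255552, 0, 0, 0⟩ 99,
  .sub 1 0,
  .mul 283 0,
  .mul 4 2,
  .add 0 432,
  .inv 0,
  .mul 3 0,
  .mul 270 151,
  .scale ⟨549755813888, 0, 0, 0⟩ 278,
  .add 420 0,
  .mul 2 0,
  .scale ⟨2199023255552, 0, 0, 0⟩ 0,
  .add 161 0,
  .scale ⟨2199023255552, 0, 0, 0⟩ 0,
  .mul 0 151,
  .mul 434 151,
  .sub 420 0,
  .inv 0,
  .mul 3 0,
  .sub 12 0,
  .mul 288 288,
  .const ⟨14293651161088, 0, 0, 0⟩,
  .const ⟨10995116277760, 0, 0, 0⟩,
  .inv 0,
  .mul 2 0,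
  .mul 4 0,
  .mul 455 455,
  .scale ⟨27487790694400, 0, 0, 0⟩ 0,
  .add 2 0,
  .mul 126 55,
  .sub 418 460,
  .sub 0 420,
  .mul 460 457,
  .mul 0 462,
  .mul 438 178,
  .mul 0 300,
  .add 193 0,
  .add 21 409,
  .mul 466 0,
  .mul 10 9,
  .mul 177 1,
  .mul 7 4,
  .mul 1 0,
  .sub 3 0,
  .scale ⟨549755813888, 0, 0, 0⟩ 28,
  .add 473 0,
  .mul 183 0,
  .mul 477 452,
  .mul 0 321,
  .mul 453 425,
  .inv 0,
  .mul 2 0,
  .mul 5 0,
  .sub 21 0,
  .mul 324 10,
  .sub 483 325,
  .mul 472 2,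
  .mul 1 0,
  .mul 29 0,
  .add 4 0,
  .pos 318,
  .pos 315,
  .scale ⟨2199023255552, 0, 0, 0⟩ 200,
  .sub 437 0,
  .pos 0,
  .pos 192,
  .sub 482 345,
  .pos 0,
  .scale ⟨687194767360, 0, 0, 0⟩ 491,
  .sub 0 244,
  .pos 0,
  .scale ⟨377957122048, 0, 0, 0⟩ 493,
  .sub 0 250,
  .pos 0,
  .pos 50,
  .pos 189,
  .sub 3 177,
  .pos 0,
  .pos 48,
  .pos 70,
  .pos 8,
  .pos 14]

def chk4 {α : Type} (cst : Z → α) (add sub mul : α → α → α) (scale : Z → α → α)
    (neg inv exp log : α → α) (ok : α → Bool) (isPos : Nat → α → Bool) (isLt : α → Nat → Bool) :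
    List α → Bool
  | [x0, x1, x2, x3] =>
  let v0 := cst ⟨1099511627776, 0, 0, 0⟩; ok v0 && (
  let v1 := mul x1 x2; ok v1 && (
  let v2 := mul v1 x0; ok v2 && (
  let v3 := mul x2 v2; ok v3 && (
  let v4 := mul x2 x2; ok v4 && (
  let v5 := mul x1 v4; ok v5 && (
  let v6 := mul v2 v2; ok v6 && (
  let v7 := mul x1 v5; ok v7 && (
  let v8 := cst ⟨549755813888, 0, 0, 0⟩; ok v8 && (
  let v9 := mul x1 v3; ok v9 && (
  let v10 := mul v9 x3; ok v10 && (
  let v11 := scale ⟨549755813888, 0, 0, 0⟩ v10; ok v11 && (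
  let v12 := mul v3 v3; ok v12 && (
  let v13 := mul v11 v11; ok v13 && (
  let v14 := sub v0 v13; ok v14 && (
  let v15 := inv v14; ok v15 && (
  let v16 := mul v11 v15; ok v16 && (
  let v17 := scale ⟨2199023255552, 0, 0, 0⟩ v16; ok v17 && (
  let v18 := scale ⟨2199023255552, 0, 0, 0⟩ v15; ok v18 && (
  let v19 := sub v18 v0; ok v19 && (
  let v20 := add v19 v17; ok v20 && (
  let v21 := mul x3 v15; ok v21 && (
  let v22 := mul v3 v21; ok v22 && (
  let v23 := sub v0 v22; ok v23 && (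
  let v24 := add v0 v22; ok v24 && (
  let v25 := mul x1 v12; ok v25 && (
  let v26 := mul v21 v21; ok v26 && (
  let v27 := scale ⟨10774999203840, 0, 0, 0⟩ v11; ok v27 && (
  let v28 := scale ⟨45768245248, 0, 0, 0⟩ v27; ok v28 && (
  let v29 := cst ⟨183207198720, 0, 0, 0⟩; ok v29 && (
  let v30 := add v28 v29; ok v30 && (
  let v31 := mul v27 v30; ok v31 && (
  let v32 := add v8 v31; ok v32 && (
  let v33 := mul v27 v32; ok v33 && (
  let v34 := add v0 v33; ok v34 && (
  let v35 := mul v27 v34; ok v35 && (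
  let v36 := scale ⟨549755813888, 0, 0, 0⟩ v35; ok v36 && (
  let v37 := add v0 v36; ok v37 && (
  let v38 := mul v34 v37; ok v38 && (
  let v39 := mul v17 v22; ok v39 && (
  let v40 := scale ⟨2199023255552, 0, 0, 0⟩ v19; ok v40 && (
  let v41 := add v39 v40; ok v41 && (
  let v42 := add v41 x1; ok v42 && (
  let v43 := mul v25 v42; ok v43 && (
  let v44 := add v43 v0; ok v44 && (
  let v45 := mul v17 v17; ok v45 && (
  let v46 := scale ⟨2199023255552, 0, 0, 0⟩ v45; ok v46 && (
  let v47 := add v46 v0; ok v47 && (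
  let v48 := mul v19 v42; ok v48 && (
  let v49 := sub v48 v0; ok v49 && (
  let v50 := log v44; ok v50 && (
  let v51 := scale ⟨549755813888, 0, 0, 0⟩ v50; ok v51 && (
  let v52 := exp v51; ok v52 && (
  let v53 := cst ⟨3298534883328, 0, 0, 0⟩; ok v53 && (
  let v54 := inv v53; ok v54 && (
  let v55 := mul v0 v54; ok v55 && (
  let v56 := cst ⟨2199023255552, 0, 0, 0⟩; ok v56 && (
  let v57 := add v43 v56; ok v57 && (
  let v58 := inv v57; ok v58 && (
  let v59 := mul v43 v58; ok v59 && (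
  let v60 := mul v59 v59; ok v60 && (
  let v61 := sub v0 v59; ok v61 && (
  let v62 := mul v60 v55; ok v62 && (
  let v63 := add v0 v62; ok v63 && (
  let v64 := mul v61 v63; ok v64 && (
  let v65 := mul v60 v60; ok v65 && (
  let v66 := scale ⟨219915747328, 0, 0, 0⟩ v65; ok v66 && (
  let v67 := mul v42 v64; ok v67 && (
  let v68 := scale ⟨549755813888, 0, 0, 0⟩ v67; ok v68 && (
  let v69 := mul v42 v66; ok v69 && (
  let v70 := scale ⟨549755813888, 0, 0, 0⟩ v69; ok v70 && (
  let v71 := add v68 v70; ok v71 && (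
  let v72 := mul v19 v49; ok v72 && (
  let v73 := scale ⟨4398046511104, 0, 0, 0⟩ v72; ok v73 && (
  let v74 := mul v19 v25; ok v74 && (
  let v75 := mul v74 v49; ok v75 && (
  let v76 := scale ⟨4398046511104, 0, 0, 0⟩ v75; ok v76 && (
  let v77 := add v76 v56; ok v77 && (
  let v78 := inv v77; ok v78 && (
  let v79 := mul v76 v78; ok v79 && (
  let v80 := mul v79 v79; ok v80 && (
  let v81 := sub v0 v79; ok v81 && (
  let v82 := mul v80 v55; ok v82 && (
  let v83 := add v0 v82; ok v83 && (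
  let v84 := mul v81 v83; ok v84 && (
  let v85 := mul v80 v80; ok v85 && (
  let v86 := scale ⟨219915747328, 0, 0, 0⟩ v85; ok v86 && (
  let v87 := mul v73 v84; ok v87 && (
  let v88 := scale ⟨549755813888, 0, 0, 0⟩ v87; ok v88 && (
  let v89 := sub v88 v71; ok v89 && (
  let v90 := mul v73 v86; ok v90 && (
  let v91 := scale ⟨549755813888, 0, 0, 0⟩ v90; ok v91 && (
  let v92 := add v91 v70; ok v92 && (
  let v93 := add v89 v92; ok v93 && (
  let v94 := mul v5 v68; ok v94 && (
  let v95 := neg v94; ok v95 && (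
  let v96 := exp v95; ok v96 && (
  let v97 := mul v5 v70; ok v97 && (
  let v98 := mul v96 v97; ok v98 && (
  let v99 := mul v22 v17; ok v99 && (
  let v100 := add v19 v99; ok v100 && (
  let v101 := inv v100; ok v101 && (
  let v102 := mul v24 v101; ok v102 && (
  let v103 := mul v23 x1; ok v103 && (
  let v104 := mul v103 v102; ok v104 && (
  let v105 := sub v0 v12; ok v105 && (
  let v106 := mul v26 v105; ok v106 && (
  let v107 := mul v9 v9; ok v107 && (
  let v108 := sub v0 v26; ok v108 && (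
  let v109 := mul v105 v108; ok v109 && (
  let v110 := mul v25 v49; ok v110 && (
  let v111 := inv v44; ok v111 && (
  let v112 := mul v110 v111; ok v112 && (
  let v113 := add v19 v112; ok v113 && (
  let v114 := mul v44 v113; ok v114 && (
  let v115 := mul v114 v114; ok v115 && (
  let v116 := inv v115; ok v116 && (
  let v117 := mul v109 v116; ok v117 && (
  let v118 := add v19 v25; ok v118 && (
  let v119 := mul x0 v118; ok v119 && (
  let v120 := inv v119; ok v120 && (
  let v121 := mul v0 v120; ok v121 && (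
  let v122 := mul v121 v121; ok v122 && (
  let v123 := mul v122 v109; ok v123 && (
  let v124 := mul v104 v0; ok v124 && (
  let v125 := scale ⟨549755813888, 0, 0, 0⟩ v124; ok v125 && (
  let v126 := sub v0 v125; ok v126 && (
  let v127 := sub v0 v124; ok v127 && (
  let v128 := inv v127; ok v128 && (
  let v129 := mul v126 v128; ok v129 && (
  let v130 := add v124 v0; ok v130 && (
  let v131 := mul v96 v130; ok v131 && (
  let v132 := mul v102 v129; ok v132 && (
  let v133 := mul v132 v0; ok v133 && (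
  let v134 := mul v124 v129; ok v134 && (
  isPos 4 v127 && (
  let v135 := mul v23 v24; ok v135 && (
  let v136 := add v19 x1; ok v136 && (
  let v137 := mul v22 v19; ok v137 && (
  let v138 := mul v137 v17; ok v138 && (
  let v139 := scale ⟨2199023255552, 0, 0, 0⟩ v138; ok v139 && (
  let v140 := add v47 v139; ok v140 && (
  let v141 := mul v136 v140; ok v141 && (
  let v142 := inv v141; ok v142 && (
  let v143 := mul v135 v142; ok v143 && (
  let v144 := mul x1 v143; ok v144 && (
  isPos 4 v89 && (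
  let v145 := mul v144 v0; ok v145 && (
  let v146 := mul v0 x0; ok v146 && (
  let v147 := add v11 v0; ok v147 && (
  let v148 := inv v147; ok v148 && (
  let v149 := mul v11 v148; ok v149 && (
  let v150 := scale ⟨2199023255552, 0, 0, 0⟩ v149; ok v150 && (
  let v151 := sub v0 v150; ok v151 && (
  let v152 := sub v0 v11; ok v152 && (
  let v153 := mul x3 v148; ok v153 && (
  let v154 := mul v153 v151; ok v154 && (
  let v155 := add v24 v154; ok v155 && (
  let v156 := scale ⟨224412041216, 0, 0, 0⟩ v15; ok v156 && (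
  let v157 := inv v38; ok v157 && (
  let v158 := mul v156 v157; ok v158 && (
  let v159 := scale ⟨4398046511104, 0, 0, 0⟩ x0; ok v159 && (
  let v160 := mul v0 v21; ok v160 && (
  let v161 := add v159 v160; ok v161 && (
  let v162 := scale ⟨549755813888, 0, 0, 0⟩ v161; ok v162 && (
  let v163 := inv v162; ok v163 && (
  let v164 := mul v0 v163; ok v164 && (
  let v165 := mul x0 v163; ok v165 && (
  let v166 := mul v165 v24; ok v166 && (
  let v167 := mul v166 v158; ok v167 && (
  let v168 := mul v164 v24; ok v168 && (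
  let v169 := mul v168 v158; ok v169 && (
  let v170 := sub v0 v169; ok v170 && (
  let v171 := inv v170; ok v171 && (
  let v172 := mul v131 v169; ok v172 && (
  let v173 := sub v0 v172; ok v173 && (
  let v174 := inv v173; ok v174 && (
  let v175 := scale ⟨2199023255552, 0, 0, 0⟩ v6; ok v175 && (
  let v176 := add v175 v0; ok v176 && (
  let v177 := add v6 v0; ok v177 && (
  let v178 := scale ⟨3573412790272, 0, 0, 0⟩ v22; ok v178 && (
  let v179 := cst ⟨339302416384, 0, 0, 0⟩; ok v179 && (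
  let v180 := add v178 v179; ok v180 && (
  let v181 := scale ⟨549755813888, 0, 0, 0⟩ v180; ok v181 && (
  let v182 := mul v11 v21; ok v182 && (
  let v183 := sub v0 v106; ok v183 && (
  let v184 := mul v11 v22; ok v184 && (
  let v185 := scale ⟨2199023255552, 0, 0, 0⟩ v184; ok v185 && (
  let v186 := sub v183 v185; ok v186 && (
  let v187 := mul v182 v182; ok v187 && (
  let v188 := add v186 v187; ok v188 && (
  let v189 := add v188 v0; ok v189 && (
  let v190 := scale ⟨549755813888, 0, 0, 0⟩ v189; ok v190 && (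
  let v191 := scale ⟨549755813888, 0, 0, 0⟩ v25; ok v191 && (
  let v192 := sub v15 v191; ok v192 && (
  let v193 := mul v107 v183; ok v193 && (
  let v194 := mul v193 v14; ok v194 && (
  let v195 := scale ⟨137438953472, 0, 0, 0⟩ v194; ok v195 && (
  let v196 := add v192 v195; ok v196 && (
  let v197 := mul v190 v196; ok v197 && (
  let v198 := cst ⟨1, 0, 0, 0⟩; ok v198 && (
  let v199 := cst ⟨12, 0, 0, 0⟩; ok v199 && (
  let v200 := mul v123 v198; ok v200 && (
  let v201 := sub v199 v200; ok v201 && (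
  let v202 := cst ⟨2296, 0, 0, 0⟩; ok v202 && (
  let v203 := mul v123 v201; ok v203 && (
  let v204 := sub v202 v203; ok v204 && (
  let v205 := cst ⟨302995, 0, 0, 0⟩; ok v205 && (
  let v206 := mul v123 v204; ok v206 && (
  let v207 := sub v205 v206; ok v207 && (
  let v208 := cst ⟨27269634, 0, 0, 0⟩; ok v208 && (
  let v209 := mul v123 v207; ok v209 && (
  let v210 := sub v208 v209; ok v210 && (
  let v211 := cst ⟨1527099483, 0, 0, 0⟩; ok v211 && (
  let v212 := mul v123 v210; ok v212 && (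
  let v213 := sub v211 v212; ok v213 && (
  let v214 := cst ⟨45812984491, 0, 0, 0⟩; ok v214 && (
  let v215 := mul v123 v213; ok v215 && (
  let v216 := sub v214 v215; ok v216 && (
  let v217 := mul v123 v216; ok v217 && (
  let v218 := sub v8 v217; ok v218 && (
  let v219 := mul v123 v218; ok v219 && (
  let v220 := sub v0 v219; ok v220 && (
  let v221 := mul v123 v6; ok v221 && (
  let v222 := mul v96 v96; ok v222 && (
  let v223 := add v222 v0; ok v223 && (
  let v224 := mul v221 v221; ok v224 && (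
  let v225 := scale ⟨369367187456, 0, 0, 0⟩ v224; ok v225 && (
  let v226 := add v220 v225; ok v226 && (
  let v227 := mul v96 v226; ok v227 && (
  let v228 := scale ⟨2199023255552, 0, 0, 0⟩ v227; ok v228 && (
  let v229 := add v223 v228; ok v229 && (
  let v230 := scale ⟨2199023255552, 0, 0, 0⟩ v98; ok v230 && (
  let v231 := add v229 v230; ok v231 && (
  let v232 := cst ⟨8589934592, 0, 0, 0⟩; ok v232 && (
  let v233 := add v231 v232; ok v233 && (
  let v234 := log v233; ok v234 && (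
  let v235 := scale ⟨549755813888, 0, 0, 0⟩ v234; ok v235 && (
  let v236 := exp v235; ok v236 && (
  let v237 := mul v96 v124; ok v237 && (
  let v238 := add v236 v237; ok v238 && (
  let v239 := mul v238 v171; ok v239 && (
  let v240 := mul v131 v174; ok v240 && (
  let v241 := add v239 v240; ok v241 && (
  let v242 := mul v169 v241; ok v242 && (
  let v243 := add v134 v242; ok v243 && (
  let v244 := mul v243 v6; ok v244 && (
  let v245 := mul v238 v169; ok v245 && (
  let v246 := mul v245 v171; ok v246 && (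
  let v247 := add v134 v246; ok v247 && (
  let v248 := mul v247 v6; ok v248 && (
  let v249 := scale ⟨223338299392, 0, 0, 0⟩ v248; ok v249 && (
  let v250 := add v8 v249; ok v250 && (
  let v251 := mul v248 v250; ok v251 && (
  let v252 := add v0 v251; ok v252 && (
  let v253 := scale ⟨893353197568, 0, 0, 0⟩ v244; ok v253 && (
  let v254 := add v0 v253; ok v254 && (
  let v255 := mul v244 v254; ok v255 && (
  let v256 := add v0 v255; ok v256 && (
  let v257 := mul v150 v153; ok v257 && (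
  let v258 := mul v257 v176; ok v258 && (
  let v259 := mul v258 v256; ok v259 && (
  let v260 := mul v197 v252; ok v260 && (
  let v261 := add v52 v8; ok v261 && (
  let v262 := mul v259 v261; ok v262 && (
  let v263 := add v260 v262; ok v263 && (
  let v264 := add v52 v0; ok v264 && (
  let v265 := mul v259 v264; ok v265 && (
  let v266 := mul v177 v264; ok v266 && (
  let v267 := mul v266 v153; ok v267 && (
  let v268 := mul v267 v152; ok v268 && (
  let v269 := mul v263 v133; ok v269 && (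
  let v270 := mul v268 v181; ok v270 && (
  let v271 := add v269 v270; ok v271 && (
  let v272 := mul v5 v155; ok v272 && (
  let v273 := inv v52; ok v273 && (
  let v274 := mul v272 v273; ok v274 && (
  let v275 := scale ⟨549755813888, 0, 0, 0⟩ v274; ok v275 && (
  let v276 := mul v23 v275; ok v276 && (
  let v277 := add v276 v271; ok v277 && (
  let v278 := mul x1 v277; ok v278 && (
  let v279 := mul x0 v278; ok v279 && (
  let v280 := mul v263 v238; ok v280 && (
  let v281 := mul v280 v171; ok v281 && (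
  let v282 := mul v265 v131; ok v282 && (
  let v283 := mul v282 v174; ok v283 && (
  let v284 := add v281 v283; ok v284 && (
  let v285 := mul v23 v279; ok v285 && (
  let v286 := mul v167 v284; ok v286 && (
  let v287 := add v285 v286; ok v287 && (
  let v288 := mul v107 v287; ok v288 && (
  let v289 := mul v288 v273; ok v289 && (
  let v290 := sub v0 v289; ok v290 && (
  let v291 := inv v290; ok v291 && (
  let v292 := mul v287 v291; ok v292 && (
  let v293 := mul x1 v292; ok v293 && (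
  let v294 := mul v107 v292; ok v294 && (
  let v295 := mul v294 v273; ok v295 && (
  let v296 := sub v0 v295; ok v296 && (
  let v297 := mul v49 v296; ok v297 && (
  let v298 := sub v297 v293; ok v298 && (
  let v299 := inv v298; ok v299 && (
  let v300 := mul v293 v299; ok v300 && (
  let v301 := sub v52 v294; ok v301 && (
  let v302 := inv v301; ok v302 && (
  let v303 := mul v300 v0; ok v303 && (
  let v304 := scale ⟨549755813888, 0, 0, 0⟩ v303; ok v304 && (
  let v305 := sub v0 v304; ok v305 && (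
  let v306 := sub v0 v303; ok v306 && (
  let v307 := inv v306; ok v307 && (
  let v308 := mul v305 v307; ok v308 && (
  let v309 := mul v3 v302; ok v309 && (
  let v310 := mul v146 v299; ok v310 && (
  let v311 := mul v310 v308; ok v311 && (
  let v312 := add v309 v311; ok v312 && (
  let v313 := mul v7 v292; ok v313 && (
  let v314 := mul v302 v313; ok v314 && (
  let v315 := mul v0 v299; ok v315 && (
  let v316 := mul v315 v308; ok v316 && (
  let v317 := mul v316 v293; ok v317 && (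
  let v318 := add v314 v317; ok v318 && (
  let v319 := scale ⟨223338299392, 0, 0, 0⟩ v318; ok v319 && (
  let v320 := add v8 v319; ok v320 && (
  let v321 := mul v318 v320; ok v321 && (
  let v322 := add v0 v321; ok v322 && (
  let v323 := mul v312 v322; ok v323 && (
  let v324 := mul v323 v291; ok v324 && (
  let v325 := mul v324 v284; ok v325 && (
  let v326 := mul v168 v23; ok v326 && (
  let v327 := cst ⟨5497558138880, 0, 0, 0⟩; ok v327 && (
  let v328 := inv v327; ok v328 && (
  let v329 := mul v53 v328; ok v329 && (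
  let v330 := mul v147 v24; ok v330 && (
  let v331 := mul v330 v329; ok v331 && (
  let v332 := mul v136 v101; ok v332 && (
  let v333 := mul v22 v332; ok v333 && (
  let v334 := scale ⟨549755813888, 0, 0, 0⟩ v145; ok v334 && (
  let v335 := sub v0 v334; ok v335 && (
  let v336 := sub v0 v145; ok v336 && (
  let v337 := inv v336; ok v337 && (
  let v338 := mul v335 v337; ok v338 && (
  let v339 := mul v338 v144; ok v339 && (
  let v340 := mul v107 v117; ok v340 && (
  let v341 := scale ⟨733097230336, 0, 0, 0⟩ v340; ok v341 && (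
  let v342 := sub v0 v341; ok v342 && (
  let v343 := mul v117 v342; ok v343 && (
  let v344 := mul v89 v89; ok v344 && (
  let v345 := mul v12 v344; ok v345 && (
  let v346 := add v343 v345; ok v346 && (
  let v347 := mul v339 v146; ok v347 && (
  let v348 := add v346 v0; ok v348 && (
  let v349 := mul v347 v348; ok v349 && (
  let v350 := sub v346 v349; ok v350 && (
  let v351 := scale ⟨366548615168, 0, 0, 0⟩ v45; ok v351 && (
  let v352 := sub v0 v351; ok v352 && (
  let v353 := mul v26 v352; ok v353 && (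
  let v354 := add v350 v353; ok v354 && (
  let v355 := mul v332 v354; ok v355 && (
  let v356 := mul v333 v333; ok v356 && (
  let v357 := add v0 v356; ok v357 && (
  let v358 := inv v357; ok v358 && (
  let v359 := mul v355 v358; ok v359 && (
  let v360 := sub v0 v300; ok v360 && (
  let v361 := mul v360 v359; ok v361 && (
  let v362 := sub v0 v347; ok v362 && (
  isPos 4 v362 && (
  isPos 4 v359 && (
  isPos 4 v360 && (
  let v363 := mul v324 v162; ok v363 && (
  let v364 := mul v363 v277; ok v364 && (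
  let v365 := inv v24; ok v365 && (
  let v366 := mul v364 v365; ok v366 && (
  let v367 := mul v4 v361; ok v367 && (
  let v368 := mul x1 v367; ok v368 && (
  let v369 := scale ⟨549755813888, 0, 0, 0⟩ v368; ok v369 && (
  let v370 := sub v0 v369; ok v370 && (
  let v371 := mul v367 v370; ok v371 && (
  let v372 := neg v371; ok v372 && (
  let v373 := mul v3 x3; ok v373 && (
  let v374 := mul v373 v147; ok v374 && (
  let v375 := mul v374 v15; ok v375 && (
  let v376 := mul v0 v375; ok v376 && (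
  let v377 := add v372 v376; ok v377 && (
  let v378 := mul v372 v376; ok v378 && (
  let v379 := mul x1 v378; ok v379 && (
  let v380 := add v377 v379; ok v380 && (
  let v381 := mul v12 v42; ok v381 && (
  let v382 := scale ⟨412316860416, 0, 0, 0⟩ v43; ok v382 && (
  let v383 := sub v8 v382; ok v383 && (
  let v384 := mul v381 v383; ok v384 && (
  let v385 := mul v0 v384; ok v385 && (
  let v386 := neg v385; ok v386 && (
  let v387 := add v380 v386; ok v387 && (
  let v388 := mul v380 v386; ok v388 && (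
  let v389 := mul x1 v388; ok v389 && (
  let v390 := add v387 v389; ok v390 && (
  let v391 := mul v3 v292; ok v391 && (
  let v392 := mul v391 v365; ok v392 && (
  let v393 := mul v0 v392; ok v393 && (
  let v394 := add v390 v393; ok v394 && (
  let v395 := mul v390 v393; ok v395 && (
  let v396 := mul x1 v395; ok v396 && (
  let v397 := add v394 v396; ok v397 && (
  let v398 := mul v0 v331; ok v398 && (
  let v399 := sub v397 v398; ok v399 && (
  let v400 := mul x1 v331; ok v400 && (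
  let v401 := add v0 v400; ok v401 && (
  let v402 := inv v401; ok v402 && (
  let v403 := mul v399 v402; ok v403 && (
  let v404 := mul v3 v9; ok v404 && (
  let v405 := mul v404 v292; ok v405 && (
  let v406 := mul v405 v302; ok v406 && (
  let v407 := mul v0 v406; ok v407 && (
  let v408 := add v403 v407; ok v408 && (
  let v409 := mul v403 v407; ok v409 && (
  let v410 := mul x1 v409; ok v410 && (
  let v411 := add v408 v410; ok v411 && (
  let v412 := mul x1 v411; ok v412 && (
  let v413 := add v0 v412; ok v413 && (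
  let v414 := mul v325 v169; ok v414 && (
  let v415 := mul x1 v326; ok v415 && (
  let v416 := mul v366 v415; ok v416 && (
  let v417 := add v414 v416; ok v417 && (
  let v418 := mul v0 v417; ok v418 && (
  let v419 := add v325 v366; ok v419 && (
  let v420 := mul v0 v419; ok v420 && (
  let v421 := mul v418 v413; ok v421 && (
  let v422 := add v411 v421; ok v422 && (
  let v423 := add v422 v420; ok v423 && (
  let v424 := neg v423; ok v424 && (
  let v425 := scale ⟨1073741824, 0, 0, 0⟩ v0; ok v425 && (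
  let v426 := sub v424 v425; ok v426 && (
  let v427 := sub v20 v0; ok v427 && (
  let v428 := add v427 v56; ok v428 && (
  let v429 := scale ⟨2199023255552, 0, 0, 0⟩ v329; ok v429 && (
  let v430 := sub v428 v429; ok v430 && (
  let v431 := mul v147 v430; ok v431 && (
  let v432 := mul v427 v429; ok v432 && (
  let v433 := add v432 v0; ok v433 && (
  let v434 := inv v433; ok v434 && (
  let v435 := mul v431 v434; ok v435 && (
  let v436 := mul v165 v284; ok v436 && (
  let v437 := scale ⟨549755813888, 0, 0, 0⟩ v158; ok v437 && (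
  let v438 := add v17 v437; ok v438 && (
  let v439 := mul v436 v438; ok v439 && (
  let v440 := scale ⟨2199023255552, 0, 0, 0⟩ v439; ok v440 && (
  let v441 := add v279 v440; ok v441 && (
  let v442 := scale ⟨2199023255552, 0, 0, 0⟩ v441; ok v442 && (
  let v443 := mul v442 v291; ok v443 && (
  let v444 := mul v9 v292; ok v444 && (
  let v445 := sub v24 v444; ok v445 && (
  let v446 := inv v445; ok v446 && (
  let v447 := mul v443 v446; ok v447 && (
  let v448 := sub v435 v447; ok v448 && (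
  let v449 := mul v160 v160; ok v449 && (
  let v450 := cst ⟨14293651161088, 0, 0, 0⟩; ok v450 && (
  let v451 := cst ⟨10995116277760, 0, 0, 0⟩; ok v451 && (
  let v452 := inv v451; ok v452 && (
  let v453 := mul v450 v452; ok v453 && (
  let v454 := mul v449 v453; ok v454 && (
  let v455 := mul x0 x0; ok v455 && (
  let v456 := scale ⟨27487790694400, 0, 0, 0⟩ v455; ok v456 && (
  let v457 := add v454 v456; ok v457 && (
  let v458 := mul v331 v402; ok v458 && (
  let v459 := sub v40 x1; ok v459 && (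
  let v460 := sub v459 v39; ok v460 && (
  let v461 := mul v0 v3; ok v461 && (
  let v462 := mul v461 x0; ok v462 && (
  let v463 := mul v24 v284; ok v463 && (
  let v464 := mul v463 v163; ok v464 && (
  let v465 := add v271 v464; ok v465 && (
  let v466 := add v444 v56; ok v466 && (
  let v467 := mul v0 v466; ok v467 && (
  let v468 := mul v457 v458; ok v468 && (
  let v469 := mul v291 v467; ok v469 && (
  let v470 := mul v462 v465; ok v470 && (
  let v471 := mul v469 v470; ok v471 && (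
  let v472 := sub v468 v471; ok v472 && (
  let v473 := scale ⟨549755813888, 0, 0, 0⟩ v444; ok v473 && (
  let v474 := add v0 v473; ok v474 && (
  let v475 := mul v291 v474; ok v475 && (
  let v476 := mul x1 v23; ok v476 && (
  let v477 := mul v476 v155; ok v477 && (
  let v478 := mul v24 v52; ok v478 && (
  let v479 := inv v478; ok v479 && (
  let v480 := mul v477 v479; ok v480 && (
  let v481 := mul v475 v480; ok v481 && (
  let v482 := sub v460 v481; ok v482 && (
  let v483 := mul v158 v472; ok v483 && (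
  let v484 := sub v0 v158; ok v484 && (
  let v485 := mul v12 v482; ok v485 && (
  let v486 := mul v484 v485; ok v486 && (
  let v487 := mul v457 v486; ok v487 && (
  let v488 := add v483 v487; ok v488 && (
  isPos 4 v170 && (
  isPos 4 v173 && (
  let v489 := scale ⟨2199023255552, 0, 0, 0⟩ v288; ok v489 && (
  let v490 := sub v52 v489; ok v490 && (
  isPos 4 v490 && (
  isPos 4 v298 && (
  let v491 := sub v8 v145; ok v491 && (
  isPos 4 v491 && (
  let v492 := scale ⟨687194767360, 0, 0, 0⟩ v0; ok v492 && (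
  let v493 := sub v492 v248; ok v493 && (
  isPos 4 v493 && (
  let v494 := scale ⟨377957122048, 0, 0, 0⟩ v0; ok v494 && (
  let v495 := sub v494 v244; ok v495 && (
  isPos 4 v495 && (
  isPos 4 v445 && (
  isPos 4 v306 && (
  let v496 := sub v492 v318; ok v496 && (
  isPos 4 v496 && (
  isPos 4 v448 && (
  isPos 4 v426 && (
  isPos 4 v488 && (
  isPos 4 v482 && (
  true))))))))))))))))))))))))))))))))))))))))))))))))))))))))))))))))))))))))))))))))))))))))))))))))))))))))))))))))))))))))))))))))))))))))))))))))))))))))))))))))))))))))))))))))))))))))))))))))))))))))))))))))))))))))))))))))))))))))))))))))))))))))))))))))))))))))))))))))))))))))))))))))))))))))))))))))))))))))))))))))))))))))))))))))))))))))))))))))))))))))))))))))))))))))))))))))))))))))))))))))))))))))))))))))))))))))))))))))))))))))))))))))))))))))))))))))))))))))))))))))))))))))))))))))))))))))))))))))))))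
  | _ => false

set_option maxRecDepth 1000000 in
theorem chk4_eq (O : Ops) (m : List O.α)
    (h : chk4 O.cst O.add O.sub O.mul O.scale O.neg O.inv O.exp O.log O.ok O.isPos O.isLt m = true) :
    runG O 4 prog4 m = true := by
  match m, h with
  | [x0, x1, x2, x3], h => exact h

def chkB4 : List opsE.α → Bool :=
  chk4 opsE.cst opsE.add opsE.sub opsE.mul opsE.scale opsE.neg opsE.inv opsE.exp opsE.log opsE.ok opsE.isPos opsE.isLt

theorem chkB4_eq (m : List opsE.α) (h : chkB4 m = true) : runG opsE 4 prog4 m = true :=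
  chk4_eq opsE m h

def prog5 : List Op := [
  .const ⟨1099511627776, 0, 0, 0⟩,
  .mul 2 3,
  .mul 0 2,
  .mul 5 0,
  .mul 6 6,
  .mul 6 0,
  .mul 3 3,
  .mul 8 1,
  .const ⟨549755813888, 0, 0, 0⟩,
  .mul 10 5,
  .mul 0 13,
  .scale ⟨549755813888, 0, 0, 0⟩ 0,
  .mul 8 8,
  .mul 1 1,
  .sub 13 0,
  .inv 0,
  .mul 4 0,
  .scale ⟨2199023255552, 0, 0, 0⟩ 0,
  .scale ⟨2199023255552, 0, 0, 0⟩ 2,
  .sub 0 18,
  .add 0 2,
  .mul 24 5,
  .mul 18 0,
  .sub 22 0,
  .add 23 1,
  .mul 26 12,
  .mul 4 4,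
  .scale ⟨10774999203840, 0, 0, 0⟩ 15,
  .scale ⟨45768245248, 0, 0, 0⟩ 0,
  .const ⟨183207198720, 0, 0, 0⟩,
  .add 1 0,
  .mul 3 0,
  .add 23 0,
  .mul 5 0,
  .add 33 0,
  .mul 7 0,
  .scale ⟨549755813888, 0, 0, 0⟩ 0,
  .add 36 0,
  .mul 3 0,
  .mul 21 16,
  .scale ⟨2199023255552, 0, 0, 0⟩ 20,
  .add 1 0,
  .add 0 43,
  .mul 17 0,
  .add 0 43,
  .mul 27 27,
  .scale ⟨2199023255552, 0, 0, 0⟩ 0,
  .add 0 46,
  .mul 28 5,
  .sub 0 48,
  .log 5,
  .scale ⟨549755813888, 0, 0, 0⟩ 0,
  .exp 0,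
  .const ⟨3298534883328, 0, 0, 0⟩,
  .inv 0,
  .mul 54 0,
  .const ⟨2199023255552, 0, 0, 0⟩,
  .add 13 0,
  .inv 0,
  .mul 15 0,
  .mul 0 0,
  .sub 60 1,
  .mul 1 6,
  .add 62 0,
  .mul 2 0,
  .mul 4 4,
  .scale ⟨219915747328, 0, 0, 0⟩ 0,
  .mul 24 2,
  .scale ⟨549755813888, 0, 0, 0⟩ 0,
  .mul 26 2,
  .scale ⟨549755813888, 0, 0, 0⟩ 0,
  .add 2 0,
  .mul 52 22,
  .scale ⟨4398046511104, 0, 0, 0⟩ 0,
  .mul 54 48,
  .mul 0 25,
  .scale ⟨4398046511104, 0, 0, 0⟩ 0,
  .add 0 20,
  .inv 0,
  .mul 2 0,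
  .mul 0 0,
  .sub 80 1,
  .mul 1 26,
  .add 82 0,
  .mul 2 0,
  .mul 4 4,
  .scale ⟨219915747328, 0, 0, 0⟩ 0,
  .mul 13 2,
  .scale ⟨549755813888, 0, 0, 0⟩ 0,
  .sub 0 17,
  .mul 16 3,
  .scale ⟨549755813888, 0, 0, 0⟩ 0,
  .add 0 21,
  .add 3 0,
  .mul 88 25,
  .neg 0,
  .exp 0,
  .mul 91 26,
  .mul 1 0,
  .mul 76 81,
  .add 80 0,
  .inv 0,
  .mul 77 0,
  .mul 79 104,
  .mul 0 1,
  .sub 104 92,
  .mul 79 0,
  .mul 97 97,
  .sub 107 81,
  .mul 3 0,
  .mul 84 60,
  .inv 66,
  .mul 1 0,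
  .add 93 0,
  .mul 69 0,
  .mul 0 0,
  .inv 0,
  .mul 7 0,
  .mul 13 117,
  .scale ⟨549755813888, 0, 0, 0⟩ 0,
  .sub 119 0,
  .sub 120 2,
  .inv 0,
  .mul 2 0,
  .add 5 123,
  .mul 28 0,
  .mul 23 2,
  .mul 0 126,
  .mul 9 4,
  .pos 7,
  .mul 105 104,
  .add 110 131,
  .mul 108 111,
  .mul 0 114,
  .scale ⟨2199023255552, 0, 0, 0⟩ 0,
  .add 86 0,
  .mul 4 0,
  .inv 0,
  .mul 7 0,
  .mul 139 0,
  .pos 49,
  .mul 0 138,
  .mul 139 140,
  .add 129 140,
  .inv 0,
  .mul 131 0,
  .scale ⟨2199023255552, 0, 0, 0⟩ 0,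
  .sub 144 0,
  .sub 145 134,
  .mul 150 4,
  .mul 0 2,
  .add 124 0,
  .scale ⟨224412041216, 0, 0, 0⟩ 134,
  .inv 112,
  .mul 1 0,
  .scale ⟨4398046511104, 0, 0, 0⟩ 153,
  .mul 153 132,
  .add 1 0,
  .scale ⟨549755813888, 0, 0, 0⟩ 0,
  .inv 0,
  .mul 157 0,
  .mul 159 1,
  .mul 0 135,
  .mul 0 8,
  .mul 3 137,
  .mul 0 10,
  .sub 163 0,
  .inv 0,
  .mul 40 2,
  .sub 166 0,
  .inv 0,
  .scale ⟨2199023255552, 0, 0, 0⟩ 162,
  .add 0 169,
  .add 164 170,
  .scale ⟨3573412790272, 0, 0, 0⟩ 149,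
  .const ⟨339302416384, 0, 0, 0⟩,
  .add 1 0,
  .scale ⟨549755813888, 0, 0, 0⟩ 0,
  .mul 164 154,
  .sub 176 70,
  .mul 166 155,
  .scale ⟨2199023255552, 0, 0, 0⟩ 0,
  .sub 2 0,
  .mul 4 4,
  .add 1 0,
  .add 0 182,
  .scale ⟨549755813888, 0, 0, 0⟩ 0,
  .scale ⟨549755813888, 0, 0, 0⟩ 159,
  .sub 170 0,
  .mul 79 9,
  .mul 0 173,
  .scale ⟨137438953472, 0, 0, 0⟩ 0,
  .add 3 0,
  .mul 6 0,
  .add 66 191,
  .mul 0 27,
  .mul 68 25,
  .add 1 0,
  .mul 32 0,
  .add 68 0,
  .mul 0 191,
  .mul 6 35,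
  .mul 0 34,
  .add 72 0,
  .mul 0 195,
  .scale ⟨223338299392, 0, 0, 0⟩ 0,
  .add 195 0,
  .mul 2 0,
  .add 205 0,
  .scale ⟨893353197568, 0, 0, 0⟩ 8,
  .add 207 0,
  .mul 10 0,
  .add 209 0,
  .mul 66 63,
  .mul 0 41,
  .mul 0 2,
  .mul 22 7,
  .add 162 206,
  .mul 2 0,
  .add 2 0,
  .add 165 217,
  .mul 5 0,
  .mul 48 1,
  .mul 0 73,
  .mul 0 75,
  .mul 5 95,
  .mul 1 48,
  .add 1 0,
  .mul 220 76,
  .inv 174,
  .mul 1 0,
  .scale ⟨549755813888, 0, 0, 0⟩ 0,
  .mul 206 0,
  .add 0 5,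
  .mul 233 0,
  .mul 233 0,
  .mul 16 41,
  .mul 0 69,
  .mul 16 110,
  .mul 0 68,
  .add 2 0,
  .mul 215 5,
  .mul 78 1,
  .add 1 0,
  .mul 134 0,
  .mul 0 15,
  .sub 243 0,
  .inv 0,
  .mul 4 0,
  .mul 248 0,
  .mul 140 1,
  .mul 0 21,
  .sub 249 0,
  .mul 201 0,
  .sub 0 4,
  .inv 0,
  .mul 6 0,
  .sub 202 6,
  .inv 0,
  .mul 2 256,
  .scale ⟨549755813888, 0, 0, 0⟩ 0,
  .sub 258 0,
  .sub 259 2,
  .inv 0,
  .mul 2 0,
  .mul 259 6,
  .mul 123 10,
  .mul 0 2,
  .add 2 0,
  .mul 259 20,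
  .mul 11 0,
  .mul 268 15,
  .mul 0 7,
  .mul 0 23,
  .add 3 0,
  .scale ⟨223338299392, 0, 0, 0⟩ 0,
  .add 265 0,
  .mul 2 0,
  .add 275 0,
  .mul 10 0,
  .mul 0 32,
  .mul 0 40,
  .mul 117 256,
  .const ⟨5497558138880, 0, 0, 0⟩,
  .inv 0,
  .mul 229 0,
  .mul 142 259,
  .mul 0 1,
  .mul 155 184,
  .mul 264 0,
  .scale ⟨549755813888, 0, 0, 0⟩ 148,
  .sub 288 0,
  .sub 289 150,
  .inv 0,
  .mul 2 0,
  .mul 0 154,
  .mul 186 176,
  .scale ⟨733097230336, 0, 0, 0⟩ 0,
  .sub 295 0,
  .mul 179 0,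
  .mul 208 208,
  .mul 286 0,
  .add 2 0,
  .mul 7 160,
  .add 1 301,
  .mul 1 0,
  .sub 3 0,
  .scale ⟨366548615168, 0, 0, 0⟩ 259,
  .sub 305 0,
  .mul 280 0,
  .add 3 0,
  .mul 22 0,
  .mul 22 22,
  .add 310 0,
  .inv 0,
  .mul 3 0,
  .sub 313 59,
  .mul 0 1,
  .sub 315 14,
  .pos 0,
  .pos 3,
  .pos 2,
  .mul 38 160,
  .mul 0 86,
  .inv 294,
  .mul 1 0,
  .mul 316 5,
  .mul 323 0,
  .scale ⟨549755813888, 0, 0, 0⟩ 0,
  .sub 323 0,
  .mul 3 0,
  .neg 0,
  .mul 323 330,
  .mul 0 186,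
  .mul 0 313,
  .mul 329 0,
  .add 4 0,
  .mul 5 1,
  .mul 334 0,
  .add 2 0,
  .mul 322 292,
  .scale ⟨412316860416, 0, 0, 0⟩ 292,
  .sub 328 0,
  .mul 2 0,
  .mul 338 0,
  .neg 0,
  .add 6 0,
  .mul 7 1,
  .mul 344 0,
  .add 2 0,
  .mul 341 98,
  .mul 0 26,
  .mul 346 0,
  .add 3 0,
  .mul 4 1,
  .mul 351 0,
  .add 2 0,
  .mul 351 66,
  .sub 1 0,
  .mul 355 68,
  .add 354 0,
  .inv 0,
  .mul 3 0,
  .mul 354 348,
  .mul 0 112,
  .mul 0 103,
  .mul 360 0,
  .add 4 0,
  .mul 5 1,
  .mul 365 0,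
  .add 2 0,
  .mul 367 0,
  .add 366 0,
  .mul 88 204,
  .mul 370 88,
  .mul 49 0,
  .add 2 0,
  .mul 371 0,
  .add 93 52,
  .mul 373 0,
  .mul 2 7,
  .add 10 0,
  .add 0 2,
  .neg 0,
  .scale ⟨1073741824, 0, 0, 0⟩ 378,
  .sub 1 0,
  .sub 360 380,
  .add 0 325,
  .scale ⟨2199023255552, 0, 0, 0⟩ 99,
  .sub 1 0,
  .mul 243 0,
  .mul 4 2,
  .add 0 386,
  .inv 0,
  .mul 3 0,
  .mul 230 151,
  .scale ⟨549755813888, 0, 0, 0⟩ 238,
  .add 374 0,
  .mul 2 0,
  .scale ⟨2199023255552, 0, 0, 0⟩ 0,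
  .add 161 0,
  .scale ⟨2199023255552, 0, 0, 0⟩ 0,
  .mul 0 151,
  .mul 388 151,
  .sub 374 0,
  .inv 0,
  .mul 3 0,
  .sub 12 0,
  .mul 248 248,
  .const ⟨14293651161088, 0, 0, 0⟩,
  .const ⟨10995116277760, 0, 0, 0⟩,
  .inv 0,
  .mul 2 0,
  .mul 4 0,
  .mul 409 409,
  .scale ⟨27487790694400, 0, 0, 0⟩ 0,
  .add 2 0,
  .mul 126 55,
  .sub 372 414,
  .sub 0 374,
  .mul 414 411,
  .mul 0 416,
  .mul 392 178,
  .mul 0 260,
  .add 193 0,
  .add 21 363,
  .mul 420 0,
  .mul 10 9,
  .mul 177 1,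
  .mul 7 4,
  .mul 1 0,
  .sub 3 0,
  .scale ⟨549755813888, 0, 0, 0⟩ 28,
  .add 427 0,
  .mul 183 0,
  .mul 431 406,
  .mul 0 281,
  .mul 407 379,
  .inv 0,
  .mul 2 0,
  .mul 5 0,
  .sub 21 0,
  .mul 284 10,
  .sub 437 285,
  .mul 426 2,
  .mul 1 0,
  .mul 29 0,
  .add 4 0,
  .pos 278,
  .pos 275,
  .scale ⟨2199023255552, 0, 0, 0⟩ 200,
  .sub 391 0,
  .pos 0,
  .pos 192,
  .sub 436 305,
  .pos 0,
  .scale ⟨687194767360, 0, 0, 0⟩ 445,
  .sub 0 244,
  .pos 0,
  .scale ⟨377957122048, 0, 0, 0⟩ 447,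
  .sub 0 250,
  .pos 0,
  .pos 50,
  .pos 189,
  .sub 3 177,
  .pos 0,
  .pos 48,
  .pos 70,
  .pos 8,
  .pos 14]

def chk5 {α : Type} (cst : Z → α) (add sub mul : α → α → α) (scale : Z → α → α)
    (neg inv exp log : α → α) (ok : α → Bool) (isPos : Nat → α → Bool) (isLt : α → Nat → Bool) :
    List α → Bool
  | [x0, x1, x2, x3] =>
  let v0 := cst ⟨1099511627776, 0, 0, 0⟩; ok v0 && (
  let v1 := mul x1 x2; ok v1 && (
  let v2 := mul v1 x0; ok v2 && (
  let v3 := mul x2 v2; ok v3 && (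
  let v4 := mul x2 x2; ok v4 && (
  let v5 := mul x1 v4; ok v5 && (
  let v6 := mul v2 v2; ok v6 && (
  let v7 := mul x1 v5; ok v7 && (
  let v8 := cst ⟨549755813888, 0, 0, 0⟩; ok v8 && (
  let v9 := mul x1 v3; ok v9 && (
  let v10 := mul v9 x3; ok v10 && (
  let v11 := scale ⟨549755813888, 0, 0, 0⟩ v10; ok v11 && (
  let v12 := mul v3 v3; ok v12 && (
  let v13 := mul v11 v11; ok v13 && (
  let v14 := sub v0 v13; ok v14 && (
  let v15 := inv v14; ok v15 && (
  let v16 := mul v11 v15; ok v16 && (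
  let v17 := scale ⟨2199023255552, 0, 0, 0⟩ v16; ok v17 && (
  let v18 := scale ⟨2199023255552, 0, 0, 0⟩ v15; ok v18 && (
  let v19 := sub v18 v0; ok v19 && (
  let v20 := add v19 v17; ok v20 && (
  let v21 := mul x3 v15; ok v21 && (
  let v22 := mul v3 v21; ok v22 && (
  let v23 := sub v0 v22; ok v23 && (
  let v24 := add v0 v22; ok v24 && (
  let v25 := mul x1 v12; ok v25 && (
  let v26 := mul v21 v21; ok v26 && (
  let v27 := scale ⟨10774999203840, 0, 0, 0⟩ v11; ok v27 && (
  let v28 := scale ⟨45768245248, 0, 0, 0⟩ v27; ok v28 && (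
  let v29 := cst ⟨183207198720, 0, 0, 0⟩; ok v29 && (
  let v30 := add v28 v29; ok v30 && (
  let v31 := mul v27 v30; ok v31 && (
  let v32 := add v8 v31; ok v32 && (
  let v33 := mul v27 v32; ok v33 && (
  let v34 := add v0 v33; ok v34 && (
  let v35 := mul v27 v34; ok v35 && (
  let v36 := scale ⟨549755813888, 0, 0, 0⟩ v35; ok v36 && (
  let v37 := add v0 v36; ok v37 && (
  let v38 := mul v34 v37; ok v38 && (
  let v39 := mul v17 v22; ok v39 && (
  let v40 := scale ⟨2199023255552, 0, 0, 0⟩ v19; ok v40 && (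
  let v41 := add v39 v40; ok v41 && (
  let v42 := add v41 x1; ok v42 && (
  let v43 := mul v25 v42; ok v43 && (
  let v44 := add v43 v0; ok v44 && (
  let v45 := mul v17 v17; ok v45 && (
  let v46 := scale ⟨2199023255552, 0, 0, 0⟩ v45; ok v46 && (
  let v47 := add v46 v0; ok v47 && (
  let v48 := mul v19 v42; ok v48 && (
  let v49 := sub v48 v0; ok v49 && (
  let v50 := log v44; ok v50 && (
  let v51 := scale ⟨549755813888, 0, 0, 0⟩ v50; ok v51 && (
  let v52 := exp v51; ok v52 && (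
  let v53 := cst ⟨3298534883328, 0, 0, 0⟩; ok v53 && (
  let v54 := inv v53; ok v54 && (
  let v55 := mul v0 v54; ok v55 && (
  let v56 := cst ⟨2199023255552, 0, 0, 0⟩; ok v56 && (
  let v57 := add v43 v56; ok v57 && (
  let v58 := inv v57; ok v58 && (
  let v59 := mul v43 v58; ok v59 && (
  let v60 := mul v59 v59; ok v60 && (
  let v61 := sub v0 v59; ok v61 && (
  let v62 := mul v60 v55; ok v62 && (
  let v63 := add v0 v62; ok v63 && (
  let v64 := mul v61 v63; ok v64 && (
  let v65 := mul v60 v60; ok v65 && (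
  let v66 := scale ⟨219915747328, 0, 0, 0⟩ v65; ok v66 && (
  let v67 := mul v42 v64; ok v67 && (
  let v68 := scale ⟨549755813888, 0, 0, 0⟩ v67; ok v68 && (
  let v69 := mul v42 v66; ok v69 && (
  let v70 := scale ⟨549755813888, 0, 0, 0⟩ v69; ok v70 && (
  let v71 := add v68 v70; ok v71 && (
  let v72 := mul v19 v49; ok v72 && (
  let v73 := scale ⟨4398046511104, 0, 0, 0⟩ v72; ok v73 && (
  let v74 := mul v19 v25; ok v74 && (
  let v75 := mul v74 v49; ok v75 && (
  let v76 := scale ⟨4398046511104, 0, 0, 0⟩ v75; ok v76 && (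
  let v77 := add v76 v56; ok v77 && (
  let v78 := inv v77; ok v78 && (
  let v79 := mul v76 v78; ok v79 && (
  let v80 := mul v79 v79; ok v80 && (
  let v81 := sub v0 v79; ok v81 && (
  let v82 := mul v80 v55; ok v82 && (
  let v83 := add v0 v82; ok v83 && (
  let v84 := mul v81 v83; ok v84 && (
  let v85 := mul v80 v80; ok v85 && (
  let v86 := scale ⟨219915747328, 0, 0, 0⟩ v85; ok v86 && (
  let v87 := mul v73 v84; ok v87 && (
  let v88 := scale ⟨549755813888, 0, 0, 0⟩ v87; ok v88 && (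
  let v89 := sub v88 v71; ok v89 && (
  let v90 := mul v73 v86; ok v90 && (
  let v91 := scale ⟨549755813888, 0, 0, 0⟩ v90; ok v91 && (
  let v92 := add v91 v70; ok v92 && (
  let v93 := add v89 v92; ok v93 && (
  let v94 := mul v5 v68; ok v94 && (
  let v95 := neg v94; ok v95 && (
  let v96 := exp v95; ok v96 && (
  let v97 := mul v5 v70; ok v97 && (
  let v98 := mul v96 v97; ok v98 && (
  let v99 := mul v22 v17; ok v99 && (
  let v100 := add v19 v99; ok v100 && (
  let v101 := inv v100; ok v101 && (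
  let v102 := mul v24 v101; ok v102 && (
  let v103 := mul v23 x1; ok v103 && (
  let v104 := mul v103 v102; ok v104 && (
  let v105 := sub v0 v12; ok v105 && (
  let v106 := mul v26 v105; ok v106 && (
  let v107 := mul v9 v9; ok v107 && (
  let v108 := sub v0 v26; ok v108 && (
  let v109 := mul v105 v108; ok v109 && (
  let v110 := mul v25 v49; ok v110 && (
  let v111 := inv v44; ok v111 && (
  let v112 := mul v110 v111; ok v112 && (
  let v113 := add v19 v112; ok v113 && (
  let v114 := mul v44 v113; ok v114 && (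
  let v115 := mul v114 v114; ok v115 && (
  let v116 := inv v115; ok v116 && (
  let v117 := mul v109 v116; ok v117 && (
  let v118 := mul v104 v0; ok v118 && (
  let v119 := scale ⟨549755813888, 0, 0, 0⟩ v118; ok v119 && (
  let v120 := sub v0 v119; ok v120 && (
  let v121 := sub v0 v118; ok v121 && (
  let v122 := inv v121; ok v122 && (
  let v123 := mul v120 v122; ok v123 && (
  let v124 := add v118 v0; ok v124 && (
  let v125 := mul v96 v124; ok v125 && (
  let v126 := mul v102 v123; ok v126 && (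
  let v127 := mul v126 v0; ok v127 && (
  let v128 := mul v118 v123; ok v128 && (
  isPos 4 v121 && (
  let v129 := mul v23 v24; ok v129 && (
  let v130 := add v19 x1; ok v130 && (
  let v131 := mul v22 v19; ok v131 && (
  let v132 := mul v131 v17; ok v132 && (
  let v133 := scale ⟨2199023255552, 0, 0, 0⟩ v132; ok v133 && (
  let v134 := add v47 v133; ok v134 && (
  let v135 := mul v130 v134; ok v135 && (
  let v136 := inv v135; ok v136 && (
  let v137 := mul v129 v136; ok v137 && (
  let v138 := mul x1 v137; ok v138 && (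
  isPos 4 v89 && (
  let v139 := mul v138 v0; ok v139 && (
  let v140 := mul v0 x0; ok v140 && (
  let v141 := add v11 v0; ok v141 && (
  let v142 := inv v141; ok v142 && (
  let v143 := mul v11 v142; ok v143 && (
  let v144 := scale ⟨2199023255552, 0, 0, 0⟩ v143; ok v144 && (
  let v145 := sub v0 v144; ok v145 && (
  let v146 := sub v0 v11; ok v146 && (
  let v147 := mul x3 v142; ok v147 && (
  let v148 := mul v147 v145; ok v148 && (
  let v149 := add v24 v148; ok v149 && (
  let v150 := scale ⟨224412041216, 0, 0, 0⟩ v15; ok v150 && (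
  let v151 := inv v38; ok v151 && (
  let v152 := mul v150 v151; ok v152 && (
  let v153 := scale ⟨4398046511104, 0, 0, 0⟩ x0; ok v153 && (
  let v154 := mul v0 v21; ok v154 && (
  let v155 := add v153 v154; ok v155 && (
  let v156 := scale ⟨549755813888, 0, 0, 0⟩ v155; ok v156 && (
  let v157 := inv v156; ok v157 && (
  let v158 := mul v0 v157; ok v158 && (
  let v159 := mul x0 v157; ok v159 && (
  let v160 := mul v159 v24; ok v160 && (
  let v161 := mul v160 v152; ok v161 && (
  let v162 := mul v158 v24; ok v162 && (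
  let v163 := mul v162 v152; ok v163 && (
  let v164 := sub v0 v163; ok v164 && (
  let v165 := inv v164; ok v165 && (
  let v166 := mul v125 v163; ok v166 && (
  let v167 := sub v0 v166; ok v167 && (
  let v168 := inv v167; ok v168 && (
  let v169 := scale ⟨2199023255552, 0, 0, 0⟩ v6; ok v169 && (
  let v170 := add v169 v0; ok v170 && (
  let v171 := add v6 v0; ok v171 && (
  let v172 := scale ⟨3573412790272, 0, 0, 0⟩ v22; ok v172 && (
  let v173 := cst ⟨339302416384, 0, 0, 0⟩; ok v173 && (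
  let v174 := add v172 v173; ok v174 && (
  let v175 := scale ⟨549755813888, 0, 0, 0⟩ v174; ok v175 && (
  let v176 := mul v11 v21; ok v176 && (
  let v177 := sub v0 v106; ok v177 && (
  let v178 := mul v11 v22; ok v178 && (
  let v179 := scale ⟨2199023255552, 0, 0, 0⟩ v178; ok v179 && (
  let v180 := sub v177 v179; ok v180 && (
  let v181 := mul v176 v176; ok v181 && (
  let v182 := add v180 v181; ok v182 && (
  let v183 := add v182 v0; ok v183 && (
  let v184 := scale ⟨549755813888, 0, 0, 0⟩ v183; ok v184 && (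
  let v185 := scale ⟨549755813888, 0, 0, 0⟩ v25; ok v185 && (
  let v186 := sub v15 v185; ok v186 && (
  let v187 := mul v107 v177; ok v187 && (
  let v188 := mul v187 v14; ok v188 && (
  let v189 := scale ⟨137438953472, 0, 0, 0⟩ v188; ok v189 && (
  let v190 := add v186 v189; ok v190 && (
  let v191 := mul v184 v190; ok v191 && (
  let v192 := add v125 v0; ok v192 && (
  let v193 := mul v192 v165; ok v193 && (
  let v194 := mul v125 v168; ok v194 && (
  let v195 := add v193 v194; ok v195 && (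
  let v196 := mul v163 v195; ok v196 && (
  let v197 := add v128 v196; ok v197 && (
  let v198 := mul v197 v6; ok v198 && (
  let v199 := mul v192 v163; ok v199 && (
  let v200 := mul v199 v165; ok v200 && (
  let v201 := add v128 v200; ok v201 && (
  let v202 := mul v201 v6; ok v202 && (
  let v203 := scale ⟨223338299392, 0, 0, 0⟩ v202; ok v203 && (
  let v204 := add v8 v203; ok v204 && (
  let v205 := mul v202 v204; ok v205 && (
  let v206 := add v0 v205; ok v206 && (
  let v207 := scale ⟨893353197568, 0, 0, 0⟩ v198; ok v207 && (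
  let v208 := add v0 v207; ok v208 && (
  let v209 := mul v198 v208; ok v209 && (
  let v210 := add v0 v209; ok v210 && (
  let v211 := mul v144 v147; ok v211 && (
  let v212 := mul v211 v170; ok v212 && (
  let v213 := mul v212 v210; ok v213 && (
  let v214 := mul v191 v206; ok v214 && (
  let v215 := add v52 v8; ok v215 && (
  let v216 := mul v213 v215; ok v216 && (
  let v217 := add v214 v216; ok v217 && (
  let v218 := add v52 v0; ok v218 && (
  let v219 := mul v213 v218; ok v219 && (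
  let v220 := mul v171 v218; ok v220 && (
  let v221 := mul v220 v147; ok v221 && (
  let v222 := mul v221 v146; ok v222 && (
  let v223 := mul v217 v127; ok v223 && (
  let v224 := mul v222 v175; ok v224 && (
  let v225 := add v223 v224; ok v225 && (
  let v226 := mul v5 v149; ok v226 && (
  let v227 := inv v52; ok v227 && (
  let v228 := mul v226 v227; ok v228 && (
  let v229 := scale ⟨549755813888, 0, 0, 0⟩ v228; ok v229 && (
  let v230 := mul v23 v229; ok v230 && (
  let v231 := add v230 v225; ok v231 && (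
  let v232 := mul x1 v231; ok v232 && (
  let v233 := mul x0 v232; ok v233 && (
  let v234 := mul v217 v192; ok v234 && (
  let v235 := mul v234 v165; ok v235 && (
  let v236 := mul v219 v125; ok v236 && (
  let v237 := mul v236 v168; ok v237 && (
  let v238 := add v235 v237; ok v238 && (
  let v239 := mul v23 v233; ok v239 && (
  let v240 := mul v161 v238; ok v240 && (
  let v241 := add v239 v240; ok v241 && (
  let v242 := mul v107 v241; ok v242 && (
  let v243 := mul v242 v227; ok v243 && (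
  let v244 := sub v0 v243; ok v244 && (
  let v245 := inv v244; ok v245 && (
  let v246 := mul v241 v245; ok v246 && (
  let v247 := mul x1 v246; ok v247 && (
  let v248 := mul v107 v246; ok v248 && (
  let v249 := mul v248 v227; ok v249 && (
  let v250 := sub v0 v249; ok v250 && (
  let v251 := mul v49 v250; ok v251 && (
  let v252 := sub v251 v247; ok v252 && (
  let v253 := inv v252; ok v253 && (
  let v254 := mul v247 v253; ok v254 && (
  let v255 := sub v52 v248; ok v255 && (
  let v256 := inv v255; ok v256 && (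
  let v257 := mul v254 v0; ok v257 && (
  let v258 := scale ⟨549755813888, 0, 0, 0⟩ v257; ok v258 && (
  let v259 := sub v0 v258; ok v259 && (
  let v260 := sub v0 v257; ok v260 && (
  let v261 := inv v260; ok v261 && (
  let v262 := mul v259 v261; ok v262 && (
  let v263 := mul v3 v256; ok v263 && (
  let v264 := mul v140 v253; ok v264 && (
  let v265 := mul v264 v262; ok v265 && (
  let v266 := add v263 v265; ok v266 && (
  let v267 := mul v7 v246; ok v267 && (
  let v268 := mul v256 v267; ok v268 && (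
  let v269 := mul v0 v253; ok v269 && (
  let v270 := mul v269 v262; ok v270 && (
  let v271 := mul v270 v247; ok v271 && (
  let v272 := add v268 v271; ok v272 && (
  let v273 := scale ⟨223338299392, 0, 0, 0⟩ v272; ok v273 && (
  let v274 := add v8 v273; ok v274 && (
  let v275 := mul v272 v274; ok v275 && (
  let v276 := add v0 v275; ok v276 && (
  let v277 := mul v266 v276; ok v277 && (
  let v278 := mul v277 v245; ok v278 && (
  let v279 := mul v278 v238; ok v279 && (
  let v280 := mul v162 v23; ok v280 && (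
  let v281 := cst ⟨5497558138880, 0, 0, 0⟩; ok v281 && (
  let v282 := inv v281; ok v282 && (
  let v283 := mul v53 v282; ok v283 && (
  let v284 := mul v141 v24; ok v284 && (
  let v285 := mul v284 v283; ok v285 && (
  let v286 := mul v130 v101; ok v286 && (
  let v287 := mul v22 v286; ok v287 && (
  let v288 := scale ⟨549755813888, 0, 0, 0⟩ v139; ok v288 && (
  let v289 := sub v0 v288; ok v289 && (
  let v290 := sub v0 v139; ok v290 && (
  let v291 := inv v290; ok v291 && (
  let v292 := mul v289 v291; ok v292 && (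
  let v293 := mul v292 v138; ok v293 && (
  let v294 := mul v107 v117; ok v294 && (
  let v295 := scale ⟨733097230336, 0, 0, 0⟩ v294; ok v295 && (
  let v296 := sub v0 v295; ok v296 && (
  let v297 := mul v117 v296; ok v297 && (
  let v298 := mul v89 v89; ok v298 && (
  let v299 := mul v12 v298; ok v299 && (
  let v300 := add v297 v299; ok v300 && (
  let v301 := mul v293 v140; ok v301 && (
  let v302 := add v300 v0; ok v302 && (
  let v303 := mul v301 v302; ok v303 && (
  let v304 := sub v300 v303; ok v304 && (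
  let v305 := scale ⟨366548615168, 0, 0, 0⟩ v45; ok v305 && (
  let v306 := sub v0 v305; ok v306 && (
  let v307 := mul v26 v306; ok v307 && (
  let v308 := add v304 v307; ok v308 && (
  let v309 := mul v286 v308; ok v309 && (
  let v310 := mul v287 v287; ok v310 && (
  let v311 := add v0 v310; ok v311 && (
  let v312 := inv v311; ok v312 && (
  let v313 := mul v309 v312; ok v313 && (
  let v314 := sub v0 v254; ok v314 && (
  let v315 := mul v314 v313; ok v315 && (
  let v316 := sub v0 v301; ok v316 && (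
  isPos 4 v316 && (
  isPos 4 v313 && (
  isPos 4 v314 && (
  let v317 := mul v278 v156; ok v317 && (
  let v318 := mul v317 v231; ok v318 && (
  let v319 := inv v24; ok v319 && (
  let v320 := mul v318 v319; ok v320 && (
  let v321 := mul v4 v315; ok v321 && (
  let v322 := mul x1 v321; ok v322 && (
  let v323 := scale ⟨549755813888, 0, 0, 0⟩ v322; ok v323 && (
  let v324 := sub v0 v323; ok v324 && (
  let v325 := mul v321 v324; ok v325 && (
  let v326 := neg v325; ok v326 && (
  let v327 := mul v3 x3; ok v327 && (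
  let v328 := mul v327 v141; ok v328 && (
  let v329 := mul v328 v15; ok v329 && (
  let v330 := mul v0 v329; ok v330 && (
  let v331 := add v326 v330; ok v331 && (
  let v332 := mul v326 v330; ok v332 && (
  let v333 := mul x1 v332; ok v333 && (
  let v334 := add v331 v333; ok v334 && (
  let v335 := mul v12 v42; ok v335 && (
  let v336 := scale ⟨412316860416, 0, 0, 0⟩ v43; ok v336 && (
  let v337 := sub v8 v336; ok v337 && (
  let v338 := mul v335 v337; ok v338 && (
  let v339 := mul v0 v338; ok v339 && (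
  let v340 := neg v339; ok v340 && (
  let v341 := add v334 v340; ok v341 && (
  let v342 := mul v334 v340; ok v342 && (
  let v343 := mul x1 v342; ok v343 && (
  let v344 := add v341 v343; ok v344 && (
  let v345 := mul v3 v246; ok v345 && (
  let v346 := mul v345 v319; ok v346 && (
  let v347 := mul v0 v346; ok v347 && (
  let v348 := add v344 v347; ok v348 && (
  let v349 := mul v344 v347; ok v349 && (
  let v350 := mul x1 v349; ok v350 && (
  let v351 := add v348 v350; ok v351 && (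
  let v352 := mul v0 v285; ok v352 && (
  let v353 := sub v351 v352; ok v353 && (
  let v354 := mul x1 v285; ok v354 && (
  let v355 := add v0 v354; ok v355 && (
  let v356 := inv v355; ok v356 && (
  let v357 := mul v353 v356; ok v357 && (
  let v358 := mul v3 v9; ok v358 && (
  let v359 := mul v358 v246; ok v359 && (
  let v360 := mul v359 v256; ok v360 && (
  let v361 := mul v0 v360; ok v361 && (
  let v362 := add v357 v361; ok v362 && (
  let v363 := mul v357 v361; ok v363 && (
  let v364 := mul x1 v363; ok v364 && (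
  let v365 := add v362 v364; ok v365 && (
  let v366 := mul x1 v365; ok v366 && (
  let v367 := add v0 v366; ok v367 && (
  let v368 := mul v279 v163; ok v368 && (
  let v369 := mul x1 v280; ok v369 && (
  let v370 := mul v320 v369; ok v370 && (
  let v371 := add v368 v370; ok v371 && (
  let v372 := mul v0 v371; ok v372 && (
  let v373 := add v279 v320; ok v373 && (
  let v374 := mul v0 v373; ok v374 && (
  let v375 := mul v372 v367; ok v375 && (
  let v376 := add v365 v375; ok v376 && (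
  let v377 := add v376 v374; ok v377 && (
  let v378 := neg v377; ok v378 && (
  let v379 := scale ⟨1073741824, 0, 0, 0⟩ v0; ok v379 && (
  let v380 := sub v378 v379; ok v380 && (
  let v381 := sub v20 v0; ok v381 && (
  let v382 := add v381 v56; ok v382 && (
  let v383 := scale ⟨2199023255552, 0, 0, 0⟩ v283; ok v383 && (
  let v384 := sub v382 v383; ok v384 && (
  let v385 := mul v141 v384; ok v385 && (
  let v386 := mul v381 v383; ok v386 && (
  let v387 := add v386 v0; ok v387 && (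
  let v388 := inv v387; ok v388 && (
  let v389 := mul v385 v388; ok v389 && (
  let v390 := mul v159 v238; ok v390 && (
  let v391 := scale ⟨549755813888, 0, 0, 0⟩ v152; ok v391 && (
  let v392 := add v17 v391; ok v392 && (
  let v393 := mul v390 v392; ok v393 && (
  let v394 := scale ⟨2199023255552, 0, 0, 0⟩ v393; ok v394 && (
  let v395 := add v233 v394; ok v395 && (
  let v396 := scale ⟨2199023255552, 0, 0, 0⟩ v395; ok v396 && (
  let v397 := mul v396 v245; ok v397 && (
  let v398 := mul v9 v246; ok v398 && (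
  let v399 := sub v24 v398; ok v399 && (
  let v400 := inv v399; ok v400 && (
  let v401 := mul v397 v400; ok v401 && (
  let v402 := sub v389 v401; ok v402 && (
  let v403 := mul v154 v154; ok v403 && (
  let v404 := cst ⟨14293651161088, 0, 0, 0⟩; ok v404 && (
  let v405 := cst ⟨10995116277760, 0, 0, 0⟩; ok v405 && (
  let v406 := inv v405; ok v406 && (
  let v407 := mul v404 v406; ok v407 && (
  let v408 := mul v403 v407; ok v408 && (
  let v409 := mul x0 x0; ok v409 && (
  let v410 := scale ⟨27487790694400, 0, 0, 0⟩ v409; ok v410 && (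
  let v411 := add v408 v410; ok v411 && (
  let v412 := mul v285 v356; ok v412 && (
  let v413 := sub v40 x1; ok v413 && (
  let v414 := sub v413 v39; ok v414 && (
  let v415 := mul v0 v3; ok v415 && (
  let v416 := mul v415 x0; ok v416 && (
  let v417 := mul v24 v238; ok v417 && (
  let v418 := mul v417 v157; ok v418 && (
  let v419 := add v225 v418; ok v419 && (
  let v420 := add v398 v56; ok v420 && (
  let v421 := mul v0 v420; ok v421 && (
  let v422 := mul v411 v412; ok v422 && (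
  let v423 := mul v245 v421; ok v423 && (
  let v424 := mul v416 v419; ok v424 && (
  let v425 := mul v423 v424; ok v425 && (
  let v426 := sub v422 v425; ok v426 && (
  let v427 := scale ⟨549755813888, 0, 0, 0⟩ v398; ok v427 && (
  let v428 := add v0 v427; ok v428 && (
  let v429 := mul v245 v428; ok v429 && (
  let v430 := mul x1 v23; ok v430 && (
  let v431 := mul v430 v149; ok v431 && (
  let v432 := mul v24 v52; ok v432 && (
  let v433 := inv v432; ok v433 && (
  let v434 := mul v431 v433; ok v434 && (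
  let v435 := mul v429 v434; ok v435 && (
  let v436 := sub v414 v435; ok v436 && (
  let v437 := mul v152 v426; ok v437 && (
  let v438 := sub v0 v152; ok v438 && (
  let v439 := mul v12 v436; ok v439 && (
  let v440 := mul v438 v439; ok v440 && (
  let v441 := mul v411 v440; ok v441 && (
  let v442 := add v437 v441; ok v442 && (
  isPos 4 v164 && (
  isPos 4 v167 && (
  let v443 := scale ⟨2199023255552, 0, 0, 0⟩ v242; ok v443 && (
  let v444 := sub v52 v443; ok v444 && (
  isPos 4 v444 && (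
  isPos 4 v252 && (
  let v445 := sub v8 v139; ok v445 && (
  isPos 4 v445 && (
  let v446 := scale ⟨687194767360, 0, 0, 0⟩ v0; ok v446 && (
  let v447 := sub v446 v202; ok v447 && (
  isPos 4 v447 && (
  let v448 := scale ⟨377957122048, 0, 0, 0⟩ v0; ok v448 && (
  let v449 := sub v448 v198; ok v449 && (
  isPos 4 v449 && (
  isPos 4 v399 && (
  isPos 4 v260 && (
  let v450 := sub v446 v272; ok v450 && (
  isPos 4 v450 && (
  isPos 4 v402 && (
  isPos 4 v380 && (
  isPos 4 v442 && (
  isPos 4 v436 && (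
  true))))))))))))))))))))))))))))))))))))))))))))))))))))))))))))))))))))))))))))))))))))))))))))))))))))))))))))))))))))))))))))))))))))))))))))))))))))))))))))))))))))))))))))))))))))))))))))))))))))))))))))))))))))))))))))))))))))))))))))))))))))))))))))))))))))))))))))))))))))))))))))))))))))))))))))))))))))))))))))))))))))))))))))))))))))))))))))))))))))))))))))))))))))))))))))))))))))))))))))))))))))))))))))))))))))))))))))))))))))))))))))))))))))))))))))))))))))))
  | _ => false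

set_option maxRecDepth 1000000 in
theorem chk5_eq (O : Ops) (m : List O.α)
    (h : chk5 O.cst O.add O.sub O.mul O.scale O.neg O.inv O.exp O.log O.ok O.isPos O.isLt m = true) :
    runG O 4 prog5 m = true := by
  match m, h with
  | [x0, x1, x2, x3], h => exact h

def chkB5 : List opsE.α → Bool :=
  chk5 opsE.cst opsE.add opsE.sub opsE.mul opsE.scale opsE.neg opsE.inv opsE.exp opsE.log opsE.ok opsE.isPos opsE.isLt

theorem chkB5_eq (m : List opsE.α) (h : chkB5 m = true) : runG opsE 4 prog5 m = true :=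
  chk5_eq opsE m h

def prog6 : List Op := [
  .const ⟨1099511627776, 0, 0, 0⟩,
  .mul 2 3,
  .mul 0 2,
  .mul 5 0,
  .mul 6 6,
  .mul 6 0,
  .mul 3 3,
  .mul 8 1,
  .const ⟨549755813888, 0, 0, 0⟩,
  .mul 10 5,
  .mul 0 13,
  .scale ⟨549755813888, 0, 0, 0⟩ 0,
  .mul 8 8,
  .mul 1 1,
  .sub 13 0,
  .inv 0,
  .mul 4 0,
  .scale ⟨2199023255552, 0, 0, 0⟩ 0,
  .scale ⟨2199023255552, 0, 0, 0⟩ 2,
  .sub 0 18,
  .add 0 2,
  .mul 24 5,
  .mul 18 0,
  .sub 22 0,
  .add 23 1,
  .mul 26 12,
  .mul 4 4,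
  .scale ⟨10774999203840, 0, 0, 0⟩ 15,
  .scale ⟨45768245248, 0, 0, 0⟩ 0,
  .const ⟨183207198720, 0, 0, 0⟩,
  .add 1 0,
  .mul 3 0,
  .add 23 0,
  .mul 5 0,
  .add 33 0,
  .mul 7 0,
  .scale ⟨549755813888, 0, 0, 0⟩ 0,
  .add 36 0,
  .mul 3 0,
  .scale ⟨224412041216, 0, 0, 0⟩ 23,
  .inv 1,
  .mul 1 0,
  .sub 43 24,
  .sub 0 1,
  .pos 0]

def chk6 {α : Type} (cst : Z → α) (add sub mul : α → α → α) (scale : Z → α → α)
    (neg inv exp log : α → α) (ok : α → Bool) (isPos : Nat → α → Bool) (isLt : α → Nat → Bool) :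
    List α → Bool
  | [x0, x1, x2, x3] =>
  let v0 := cst ⟨1099511627776, 0, 0, 0⟩; ok v0 && (
  let v1 := mul x1 x2; ok v1 && (
  let v2 := mul v1 x0; ok v2 && (
  let v3 := mul x2 v2; ok v3 && (
  let v4 := mul x2 x2; ok v4 && (
  let v5 := mul x1 v4; ok v5 && (
  let v6 := mul v2 v2; ok v6 && (
  let v7 := mul x1 v5; ok v7 && (
  let v8 := cst ⟨549755813888, 0, 0, 0⟩; ok v8 && (
  let v9 := mul x1 v3; ok v9 && (
  let v10 := mul v9 x3; ok v10 && (
  let v11 := scale ⟨549755813888, 0, 0, 0⟩ v10; ok v11 && (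
  let v12 := mul v3 v3; ok v12 && (
  let v13 := mul v11 v11; ok v13 && (
  let v14 := sub v0 v13; ok v14 && (
  let v15 := inv v14; ok v15 && (
  let v16 := mul v11 v15; ok v16 && (
  let v17 := scale ⟨2199023255552, 0, 0, 0⟩ v16; ok v17 && (
  let v18 := scale ⟨2199023255552, 0, 0, 0⟩ v15; ok v18 && (
  let v19 := sub v18 v0; ok v19 && (
  let v20 := add v19 v17; ok v20 && (
  let v21 := mul x3 v15; ok v21 && (
  let v22 := mul v3 v21; ok v22 && (
  let v23 := sub v0 v22; ok v23 && (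
  let v24 := add v0 v22; ok v24 && (
  let v25 := mul x1 v12; ok v25 && (
  let v26 := mul v21 v21; ok v26 && (
  let v27 := scale ⟨10774999203840, 0, 0, 0⟩ v11; ok v27 && (
  let v28 := scale ⟨45768245248, 0, 0, 0⟩ v27; ok v28 && (
  let v29 := cst ⟨183207198720, 0, 0, 0⟩; ok v29 && (
  let v30 := add v28 v29; ok v30 && (
  let v31 := mul v27 v30; ok v31 && (
  let v32 := add v8 v31; ok v32 && (
  let v33 := mul v27 v32; ok v33 && (
  let v34 := add v0 v33; ok v34 && (
  let v35 := mul v27 v34; ok v35 && (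
  let v36 := scale ⟨549755813888, 0, 0, 0⟩ v35; ok v36 && (
  let v37 := add v0 v36; ok v37 && (
  let v38 := mul v34 v37; ok v38 && (
  let v39 := scale ⟨224412041216, 0, 0, 0⟩ v15; ok v39 && (
  let v40 := inv v38; ok v40 && (
  let v41 := mul v39 v40; ok v41 && (
  let v42 := sub x1 v17; ok v42 && (
  let v43 := sub v42 v41; ok v43 && (
  isPos 4 v43 && (
  true)))))))))))))))))))))))))))))))))))))))))))))
  | _ => false

set_option maxRecDepth 1000000 in
theorem chk6_eq (O : Ops) (m : List O.α)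
    (h : chk6 O.cst O.add O.sub O.mul O.scale O.neg O.inv O.exp O.log O.ok O.isPos O.isLt m = true) :
    runG O 4 prog6 m = true := by
  match m, h with
  | [x0, x1, x2, x3], h => exact h

def chkB6 : List opsE.α → Bool :=
  chk6 opsE.cst opsE.add opsE.sub opsE.mul opsE.scale opsE.neg opsE.inv opsE.exp opsE.log opsE.ok opsE.isPos opsE.isLt

theorem chkB6_eq (m : List opsE.α) (h : chkB6 m = true) : runG opsE 4 prog6 m = true :=
  chk6_eq opsE m h

def prog7 : List Op := [
  .const ⟨1099511627776, 0, 0, 0⟩,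
  .mul 2 3,
  .mul 0 2,
  .mul 5 0,
  .mul 6 6,
  .mul 6 0,
  .mul 3 3,
  .mul 8 1,
  .const ⟨21990735872, 0, 0, 0⟩,
  .sub 2 0,
  .pos 0]

def chk7 {α : Type} (cst : Z → α) (add sub mul : α → α → α) (scale : Z → α → α)
    (neg inv exp log : α → α) (ok : α → Bool) (isPos : Nat → α → Bool) (isLt : α → Nat → Bool) :
    List α → Bool
  | [x0, x1, x2, x3] =>
  let v0 := cst ⟨1099511627776, 0, 0, 0⟩; ok v0 && (
  let v1 := mul x1 x2; ok v1 && (
  let v2 := mul v1 x0; ok v2 && (
  let v3 := mul x2 v2; ok v3 && (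
  let v4 := mul x2 x2; ok v4 && (
  let v5 := mul x1 v4; ok v5 && (
  let v6 := mul v2 v2; ok v6 && (
  let v7 := mul x1 v5; ok v7 && (
  let v8 := cst ⟨21990735872, 0, 0, 0⟩; ok v8 && (
  let v9 := sub v6 v8; ok v9 && (
  isPos 4 v9 && (
  true)))))))))))
  | _ => false

set_option maxRecDepth 1000000 in
theorem chk7_eq (O : Ops) (m : List O.α)
    (h : chk7 O.cst O.add O.sub O.mul O.scale O.neg O.inv O.exp O.log O.ok O.isPos O.isLt m = true) :
    runG O 4 prog7 m = true := by
  match m, h with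
  | [x0, x1, x2, x3], h => exact h

def chkB7 : List opsE.α → Bool :=
  chk7 opsE.cst opsE.add opsE.sub opsE.mul opsE.scale opsE.neg opsE.inv opsE.exp opsE.log opsE.ok opsE.isPos opsE.isLt

theorem chkB7_eq (m : List opsE.α) (h : chkB7 m = true) : runG opsE 4 prog7 m = true :=
  chk7_eq opsE m h

def prog8 : List Op := [
  .const ⟨1099511627776, 0, 0, 0⟩,
  .mul 2 3,
  .mul 0 2,
  .mul 5 0,
  .mul 6 6,
  .mul 6 0,
  .mul 3 3,
  .mul 8 1,
  .const ⟨10994319360, 0, 0, 0⟩,
  .sub 0 2,
  .pos 0]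

def chk8 {α : Type} (cst : Z → α) (add sub mul : α → α → α) (scale : Z → α → α)
    (neg inv exp log : α → α) (ok : α → Bool) (isPos : Nat → α → Bool) (isLt : α → Nat → Bool) :
    List α → Bool
  | [x0, x1, x2, x3] =>
  let v0 := cst ⟨1099511627776, 0, 0, 0⟩; ok v0 && (
  let v1 := mul x1 x2; ok v1 && (
  let v2 := mul v1 x0; ok v2 && (
  let v3 := mul x2 v2; ok v3 && (
  let v4 := mul x2 x2; ok v4 && (
  let v5 := mul x1 v4; ok v5 && (
  let v6 := mul v2 v2; ok v6 && (
  let v7 := mul x1 v5; ok v7 && (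
  let v8 := cst ⟨10994319360, 0, 0, 0⟩; ok v8 && (
  let v9 := sub v8 v6; ok v9 && (
  isPos 4 v9 && (
  true)))))))))))
  | _ => false

set_option maxRecDepth 1000000 in
theorem chk8_eq (O : Ops) (m : List O.α)
    (h : chk8 O.cst O.add O.sub O.mul O.scale O.neg O.inv O.exp O.log O.ok O.isPos O.isLt m = true) :
    runG O 4 prog8 m = true := by
  match m, h with
  | [x0, x1, x2, x3], h => exact h

def chkB8 : List opsE.α → Bool :=
  chk8 opsE.cst opsE.add opsE.sub opsE.mul opsE.scale opsE.neg opsE.inv opsE.exp opsE.log opsE.ok opsE.isPos opsE.isLt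

theorem chkB8_eq (m : List opsE.α) (h : chkB8 m = true) : runG opsE 4 prog8 m = true :=
  chk8_eq opsE m h

def prog9 : List Op := [
  .const ⟨1099511627776, 0, 0, 0⟩,
  .mul 2 3,
  .mul 0 2,
  .mul 5 0,
  .mul 6 6,
  .mul 6 0,
  .mul 3 3,
  .mul 8 1,
  .const ⟨549755813888, 0, 0, 0⟩,
  .mul 10 5,
  .mul 0 13,
  .scale ⟨549755813888, 0, 0, 0⟩ 0,
  .mul 8 8,
  .mul 1 1,
  .sub 13 0,
  .inv 0,
  .mul 4 0,
  .scale ⟨2199023255552, 0, 0, 0⟩ 0,
  .scale ⟨2199023255552, 0, 0, 0⟩ 2,
  .sub 0 18,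
  .add 0 2,
  .mul 24 5,
  .mul 18 0,
  .sub 22 0,
  .add 23 1,
  .mul 26 12,
  .mul 4 4,
  .scale ⟨549755813888, 0, 0, 0⟩ 27,
  .mul 27 6,
  .sub 1 0,
  .pos 0]

def chk9 {α : Type} (cst : Z → α) (add sub mul : α → α → α) (scale : Z → α → α)
    (neg inv exp log : α → α) (ok : α → Bool) (isPos : Nat → α → Bool) (isLt : α → Nat → Bool) :
    List α → Bool
  | [x0, x1, x2, x3] =>
  let v0 := cst ⟨1099511627776, 0, 0, 0⟩; ok v0 && (
  let v1 := mul x1 x2; ok v1 && (
  let v2 := mul v1 x0; ok v2 && (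
  let v3 := mul x2 v2; ok v3 && (
  let v4 := mul x2 x2; ok v4 && (
  let v5 := mul x1 v4; ok v5 && (
  let v6 := mul v2 v2; ok v6 && (
  let v7 := mul x1 v5; ok v7 && (
  let v8 := cst ⟨549755813888, 0, 0, 0⟩; ok v8 && (
  let v9 := mul x1 v3; ok v9 && (
  let v10 := mul v9 x3; ok v10 && (
  let v11 := scale ⟨549755813888, 0, 0, 0⟩ v10; ok v11 && (
  let v12 := mul v3 v3; ok v12 && (
  let v13 := mul v11 v11; ok v13 && (
  let v14 := sub v0 v13; ok v14 && (
  let v15 := inv v14; ok v15 && (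
  let v16 := mul v11 v15; ok v16 && (
  let v17 := scale ⟨2199023255552, 0, 0, 0⟩ v16; ok v17 && (
  let v18 := scale ⟨2199023255552, 0, 0, 0⟩ v15; ok v18 && (
  let v19 := sub v18 v0; ok v19 && (
  let v20 := add v19 v17; ok v20 && (
  let v21 := mul x3 v15; ok v21 && (
  let v22 := mul v3 v21; ok v22 && (
  let v23 := sub v0 v22; ok v23 && (
  let v24 := add v0 v22; ok v24 && (
  let v25 := mul x1 v12; ok v25 && (
  let v26 := mul v21 v21; ok v26 && (
  let v27 := scale ⟨549755813888, 0, 0, 0⟩ x0; ok v27 && (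
  let v28 := mul v0 v21; ok v28 && (
  let v29 := sub v27 v28; ok v29 && (
  isPos 4 v29 && (
  true)))))))))))))))))))))))))))))))
  | _ => false

set_option maxRecDepth 1000000 in
theorem chk9_eq (O : Ops) (m : List O.α)
    (h : chk9 O.cst O.add O.sub O.mul O.scale O.neg O.inv O.exp O.log O.ok O.isPos O.isLt m = true) :
    runG O 4 prog9 m = true := by
  match m, h with
  | [x0, x1, x2, x3], h => exact h

def chkB9 : List opsE.α → Bool :=
  chk9 opsE.cst opsE.add opsE.sub opsE.mul opsE.scale opsE.neg opsE.inv opsE.exp opsE.log opsE.ok opsE.isPos opsE.isLt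

theorem chkB9_eq (m : List opsE.α) (h : chkB9 m = true) : runG opsE 4 prog9 m = true :=
  chk9_eq opsE m h

def progs : List (List Op) := [prog0, prog1, prog2, prog3, prog4, prog5, prog6, prog7, prog8, prog9]

def chks : List (List opsE.α → Bool) := [chkB0, chkB1, chkB2, chkB3, chkB4, chkB5, chkB6, chkB7, chkB8, chkB9]

theorem chks_eq : List.Forall₂ (fun (ops : List Op) (chk : List opsE.α → Bool) =>
    ∀ m, chk m = true → runG opsE 4 ops m = true) progs chks :=
  List.Forall₂.cons chkB0_eq (List.Forall₂.cons chkB1_eq (List.Forall₂.cons chkB2_eq (List.Forall₂.cons chkB3_eq (List.Forall₂.cons chkB4_eq (List.Forall₂.cons chkB5_eq (List.Forall₂.cons chkB6_eq (List.Forall₂.cons chkB7_eq (List.Forall₂.cons chkB8_eq (List.Forall₂.cons chkB9_eq List.Forall₂.nil)))))))))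

end Pool.Agent.helper71.FJ.Crt.LMa
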