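import Pool.Agent.helper71.FJ.Phx
import Pool.Agent.helper71.FJ.Crt.LMaP

/-!
Generated: meaning of the programs.
-/

set_option maxRecDepth 4000

namespace Pool.Agent.helper71.FJ

open Complex Pool.Agent.helper31.EQ.Y Pool.Agent.helper31.EQ.R
open Pool.Agent.helper12.EQL Pool.Agent.helper12.RP Pool.Agent.helper12.FF Pool.Agent.helper63.FF
open Pool.Agent.helper31.IA (Z Op InBox)
open Pool.Agent.helper71.FF (B1 B2 B3 Geo PhiB RAs zv exB1 exB2 exB3 AL A5 shf_re')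
open Pool.Agent.helper71.FG (PtE RE AQ gam_le_one)

theorem zLMa_1_0 : (1 / 1099511627776 : ℝ) = zv 1 0 := by unfold zv; norm_num

theorem zLMa_12_0 : (3 / 274877906944 : ℝ) = zv 12 0 := by unfold zv; norm_num

theorem zLMa_13_0 : (13 / 1099511627776 : ℝ) = zv 13 0 := by unfold zv; norm_num

theorem zLMa_2295_0 : (2295 / 1099511627776 : ℝ) = zv 2295 0 := by unfold zv; norm_num

theorem zLMa_2296_0 : (287 / 137438953472 : ℝ) = zv 2296 0 := by unfold zv; norm_num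

theorem zLMa_302995_0 : (302995 / 1099511627776 : ℝ) = zv 302995 0 := by unfold zv; norm_num

theorem zLMa_302996_0 : (75749 / 274877906944 : ℝ) = zv 302996 0 := by unfold zv; norm_num

theorem zLMa_27269633_0 : (27269633 / 1099511627776 : ℝ) = zv 27269633 0 := by unfold zv; norm_num

theorem zLMa_27269634_0 : (13634817 / 549755813888 : ℝ) = zv 27269634 0 := by unfold zv; norm_num

theorem zLMa_1073741824_0 : (1 / 1024 : ℝ) = zv 1073741824 0 := by unfold zv; norm_num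

theorem zLMa_1527099483_0 : (1527099483 / 1099511627776 : ℝ) = zv 1527099483 0 := by unfold zv; norm_num

theorem zLMa_1527099484_0 : (381774871 / 274877906944 : ℝ) = zv 1527099484 0 := by unfold zv; norm_num

theorem zLMa_8589934592_0 : (1 / 128 : ℝ) = zv 8589934592 0 := by unfold zv; norm_num

theorem zLMa_10994319360_0 : (10485 / 1048576 : ℝ) = zv 10994319360 0 := by unfold zv; norm_num

theorem zLMa_21990735872_0 : (5243 / 262144 : ℝ) = zv 21990735872 0 := by unfold zv; norm_num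

theorem zLMa_45768245248_0 : (341 / 8192 : ℝ) = zv 45768245248 0 := by unfold zv; norm_num

theorem zLMa_45812984490_0 : (22906492245 / 549755813888 : ℝ) = zv 45812984490 0 := by unfold zv; norm_num

theorem zLMa_45812984491_0 : (45812984491 / 1099511627776 : ℝ) = zv 45812984491 0 := by unfold zv; norm_num

theorem zLMa_137438953472_0 : (1 / 8 : ℝ) = zv 137438953472 0 := by unfold zv; norm_num

theorem zLMa_183207198720_0 : (1365 / 8192 : ℝ) = zv 183207198720 0 := by unfold zv; norm_num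

theorem zLMa_219915747328_0 : (3277 / 16384 : ℝ) = zv 219915747328 0 := by unfold zv; norm_num

theorem zLMa_223338299392_0 : (13 / 64 : ℝ) = zv 223338299392 0 := by unfold zv; norm_num

theorem zLMa_224412041216_0 : (209 / 1024 : ℝ) = zv 224412041216 0 := by unfold zv; norm_num

theorem zLMa_339302416384_0 : (79 / 256 : ℝ) = zv 339302416384 0 := by unfold zv; norm_num

theorem zLMa_366548615168_0 : (2731 / 8192 : ℝ) = zv 366548615168 0 := by unfold zv; norm_num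

theorem zLMa_369367187456_0 : (43 / 128 : ℝ) = zv 369367187456 0 := by unfold zv; norm_num

theorem zLMa_377957122048_0 : (11 / 32 : ℝ) = zv 377957122048 0 := by unfold zv; norm_num

theorem zLMa_412316860416_0 : (3 / 8 : ℝ) = zv 412316860416 0 := by unfold zv; norm_num

theorem zLMa_549755813888_0 : (1 / 2 : ℝ) = zv 549755813888 0 := by unfold zv; norm_num

theorem zLMa_687194767360_0 : (5 / 8 : ℝ) = zv 687194767360 0 := by unfold zv; norm_num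

theorem zLMa_733097230336_0 : (2731 / 4096 : ℝ) = zv 733097230336 0 := by unfold zv; norm_num

theorem zLMa_893353197568_0 : (13 / 16 : ℝ) = zv 893353197568 0 := by unfold zv; norm_num

theorem zLMa_1099511627776_0 : (1 : ℝ) = zv 1099511627776 0 := by unfold zv; norm_num

theorem zLMa_2199023255552_0 : (2 : ℝ) = zv 2199023255552 0 := by unfold zv; norm_num

theorem zLMa_3298534883328_0 : (3 : ℝ) = zv 3298534883328 0 := by unfold zv; norm_num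

theorem zLMa_3573412790272_0 : (13 / 4 : ℝ) = zv 3573412790272 0 := by unfold zv; norm_num

theorem zLMa_4398046511104_0 : (4 : ℝ) = zv 4398046511104 0 := by unfold zv; norm_num

theorem zLMa_5497558138880_0 : (5 : ℝ) = zv 5497558138880 0 := by unfold zv; norm_num

theorem zLMa_10774999203840_0 : (10035 / 1024 : ℝ) = zv 10774999203840 0 := by unfold zv; norm_num

theorem zLMa_10849087389696_0 : (1263 / 128 : ℝ) = zv 10849087389696 0 := by unfold zv; norm_num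

theorem zLMa_10995116277760_0 : (10 : ℝ) = zv 10995116277760 0 := by unfold zv; norm_num

theorem zLMa_14293651161088_0 : (13 : ℝ) = zv 14293651161088 0 := by unfold zv; norm_num

theorem zLMa_27487790694400_0 : (25 : ℝ) = zv 27487790694400 0 := by unfold zv; norm_num

theorem far_LMa0 {κ : ℝ} {τ : ℂ} {R w : ℝ} {v : B1} (D : PtE (3 * 5⁻¹) v.e κ τ R w)
    (G : Geo κ (shf κ τ) v) (v2 : B2 v) (v3 : B3 v) (v5 : V5 v) {l1 : Lg v.D} {l2 : Lg v.D2}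
    (lv : LV v l1 l2) (he2 : 2 ≤ v.e) {S z de : ℝ}
    (hde0 : 0 < de) (hde : de = v.t * z * S) (hu : v.u = z * de) (hz0 : 0 < z)
    (hee : v.e * (de * de) = 1)
    (h : RAs Pool.Agent.helper71.FJ.Crt.LMa.prog0 [S, v.t, z, v.n]) :
    FarPt v.e κ (1 - Real.sinh κ / 1024) w (2 * AL v.e v.K * Real.sinh κ ^ 2) R
      (RE v.e κ (w * R)) τ := by
  obtain ⟨tz, e_tz⟩ : ∃ zz : ℝ, zz = v.t * z := ⟨_, rfl⟩
  have hde' : de = tz * S := by rw [e_tz]; exact hde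
  obtain ⟨z2, e_z2⟩ : ∃ zz : ℝ, zz = z * z := ⟨_, rfl⟩
  obtain ⟨r, e_r⟩ : ∃ zz : ℝ, zz = v.t * z2 := ⟨_, rfl⟩
  obtain ⟨eps, e_eps⟩ : ∃ zz : ℝ, zz = de * de := ⟨_, rfl⟩
  obtain ⟨tr, e_tr⟩ : ∃ zz : ℝ, zz = v.t * r := ⟨_, rfl⟩
  obtain ⟨q, e_q⟩ : ∃ zz : ℝ, zz = Real.exp (-(r * lv.rlo)) := ⟨_, rfl⟩
  obtain ⟨th, e_th⟩ : ∃ zz : ℝ, zz = q * (r * lv.er) := ⟨_, rfl⟩
  obtain ⟨qp, e_qp⟩ : ∃ zz : ℝ, zz = Real.exp (-(r * lv.rplo)) := ⟨_, rfl⟩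
  obtain ⟨thp, e_thp⟩ : ∃ zz : ℝ, zz = qp * (r * lv.erp) := ⟨_, rfl⟩
  obtain ⟨wv, e_w⟩ : ∃ zz : ℝ, zz = (1 : ℝ) * (S * (v.c0 + v.R))⁻¹ := ⟨_, rfl⟩
  obtain ⟨xv, e_x⟩ : ∃ zz : ℝ, zz = wv * wv * v5.sn := ⟨_, rfl⟩
  obtain ⟨cc, e_cc⟩ : ∃ zz : ℝ, zz = (1 : ℝ) - xv * ((1 / 2 : ℝ) - xv * ((22906492245 / 549755813888 : ℝ) - xv * ((381774871 / 274877906944 : ℝ) - xv * ((27269633 / 1099511627776 : ℝ) - xv * ((75749 / 274877906944 : ℝ) - xv * ((2295 / 1099511627776 : ℝ) - xv * (13 / 1099511627776 : ℝ))))))) := ⟨_, rfl⟩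
  obtain ⟨b⟩ := exGE q th cc v.h1
  obtain ⟨gv, e_g⟩ : ∃ zz : ℝ, zz = (1 / 2) * ((((1 : ℝ) - q) * b.q1 + 2 * th) * b.W⁻¹) := ⟨_, rfl⟩
  obtain ⟨ga, e_ga⟩ : ∃ zz : ℝ, zz = gv * (gv + (1 / 2 : ℝ))⁻¹ := ⟨_, rfl⟩
  obtain ⟨hg, e_hg⟩ : ∃ zz : ℝ, zz = v.h1 * ga := ⟨_, rfl⟩
  obtain ⟨lsf, e_lsf⟩ : ∃ zz : ℝ, zz = ((1 : ℝ) - (1 / 2) * hg) * ((1 : ℝ) - hg)⁻¹ := ⟨_, rfl⟩
  obtain ⟨Qb, e_Qb⟩ : ∃ zz : ℝ, zz = q * (hg + (1 : ℝ)) := ⟨_, rfl⟩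
  obtain ⟨lsx, e_lsx⟩ : ∃ zz : ℝ, zz = v.h1t * lsf * ga := ⟨_, rfl⟩
  obtain ⟨ls, e_ls⟩ : ∃ zz : ℝ, zz = hg * lsf := ⟨_, rfl⟩
  obtain ⟨xpv, e_xp⟩ : ∃ zz : ℝ, zz = xv * v.SQ⁻¹ := ⟨_, rfl⟩
  obtain ⟨ccp, e_ccp⟩ : ∃ zz : ℝ, zz = (1 : ℝ) - xpv * ((1 / 2 : ℝ) - xpv * ((22906492245 / 549755813888 : ℝ) - xpv * ((381774871 / 274877906944 : ℝ) - xpv * ((27269633 / 1099511627776 : ℝ) - xpv * ((75749 / 274877906944 : ℝ) - xpv * ((2295 / 1099511627776 : ℝ) - xpv * (13 / 1099511627776 : ℝ))))))) := ⟨_, rfl⟩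
  obtain ⟨b'⟩ := exGE qp thp ccp v3.hp
  obtain ⟨gpv, e_gp⟩ : ∃ zz : ℝ, zz = (1 / 2) * ((((1 : ℝ) - qp) * b'.q1 + 2 * thp) * b'.W⁻¹) := ⟨_, rfl⟩
  obtain ⟨gap, e_gap⟩ : ∃ zz : ℝ, zz = gpv * (gpv + (1 / 2 : ℝ))⁻¹ := ⟨_, rfl⟩
  obtain ⟨hgp, e_hgp⟩ : ∃ zz : ℝ, zz = v3.hp * gap := ⟨_, rfl⟩
  obtain ⟨gu, e_gu⟩ : ∃ zz : ℝ, zz = gap * S := ⟨_, rfl⟩
  obtain ⟨G4, e_G4⟩ : ∃ zz : ℝ, zz = (1 / 2) * (4 * S + (1 : ℝ) * v.nj) := ⟨_, rfl⟩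
  obtain ⟨Ei, e_Ei⟩ : ∃ zz : ℝ, zz = 2 * eps + (1 : ℝ) := ⟨_, rfl⟩
  obtain ⟨Eh, e_Eh⟩ : ∃ zz : ℝ, zz = eps + (1 : ℝ) := ⟨_, rfl⟩
  obtain ⟨phux, e_phux⟩ : ∃ zz : ℝ, zz = (1 / 2) * ((13 / 4) * v.om + (79 / 256 : ℝ)) := ⟨_, rfl⟩
  obtain ⟨cu, e_cu⟩ : ∃ zz : ℝ, zz = (1 : ℝ) - xv * ((1 / 2 : ℝ) - xv * ((45812984491 / 1099511627776 : ℝ) - xv * ((1527099483 / 1099511627776 : ℝ) - xv * ((13634817 / 549755813888 : ℝ) - xv * ((302995 / 1099511627776 : ℝ) - xv * ((287 / 137438953472 : ℝ) - xv * ((3 / 274877906944 : ℝ) - xv * (1 / 1099511627776 : ℝ)))))))) := ⟨_, rfl⟩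
  obtain ⟨xe, e_xe⟩ : ∃ zz : ℝ, zz = xv * eps := ⟨_, rfl⟩
  obtain ⟨o2u, e_o2u⟩ : ∃ zz : ℝ, zz = q * q + (1 : ℝ) + 2 * (q * (cu + (43 / 128) * (xe * xe))) + 2 * th := ⟨_, rfl⟩
  obtain ⟨ooo, e_ooo⟩ : ∃ zz : ℝ, zz = Real.exp ((1 / 2) * Real.log (o2u + (1 / 128 : ℝ))) := ⟨_, rfl⟩
  obtain ⟨Q1, e_Q1⟩ : ∃ zz : ℝ, zz = ooo + q * hg := ⟨_, rfl⟩
  obtain ⟨xa⟩ := exKa v2 eps 1 S G4 Qb Q1 ls lsx phux Ei Eh
  obtain ⟨srcx, e_srcx⟩ : ∃ zz : ℝ, zz = v.om1 * ((1 / 2) * (r * v2.bsum * v.aQ⁻¹)) + xa.kl := ⟨_, rfl⟩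
  obtain ⟨srcs, e_srcs⟩ : ∃ zz : ℝ, zz = v.t * srcx := ⟨_, rfl⟩
  obtain ⟨yb⟩ := exKb (3 * 5⁻¹) xa tr gap gu srcs
  obtain ⟨pk⟩ := exPk v5 lv.rplo v3.hp hgp gu yb.yy
  obtain ⟨y1, e_y1⟩ : ∃ zz : ℝ, zz = z2 * pk.ye := ⟨_, rfl⟩
  obtain ⟨cl⟩ := exCl yb v.t 1 y1 srcx
  have hsc := sc_Ma hde' e_tz hu hee hde0 G.t0 hz0.le e_z2 e_r e_tr e_eps
  obtain ⟨hA0, hA⟩ := hA_L G hsc e_G4
  have f := lv.f G hsc.hr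
  obtain ⟨p_xq, s0⟩ := (((((((((h
    (1 : ℝ) zLMa_1099511627776_0
    tz e_tz
    de hde'
    v.u hu
    z2 e_z2
    r e_r
    eps e_eps
    tr e_tr
    (1 / 2 : ℝ) zLMa_549755813888_0
    v.tu v.e_tu
    (v.tu * v.n) rfl
    v.h (v.e_h.trans (congrArg (fun y : ℝ => y * (v.tu * v.n)) zLMa_549755813888_0))
    v.u2 v.e_u2
    (v.h * v.h) rfl
    v.jm v.e_jm).2
    v.j v.e_j
    (v.h * v.j) rfl
    v.K (v.e_K.trans (congrArg (fun y : ℝ => y * (v.h * v.j)) zLMa_2199023255552_0))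
    (2 * v.j) (congrArg (fun y : ℝ => y * v.j) zLMa_2199023255552_0)
    v.c0 v.e_c0
    v.m v.e_m
    v.nj v.e_nj
    v.om v.e_om
    v.om1 v.e_om1
    v.op1 v.e_op1
    v.R v.e_R
    v.nj2 v.e_nj2
    v2.Y (v2.e_Y.trans (congrArg (fun y : ℝ => y * v.h) zLMa_10774999203840_0))
    ((341 / 8192) * v2.Y) (congrArg (fun y : ℝ => y * v2.Y) zLMa_45768245248_0)
    (1365 / 8192 : ℝ) zLMa_183207198720_0
    ((341 / 8192) * v2.Y + (1365 / 8192 : ℝ)) rfl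
    (v2.Y * ((341 / 8192) * v2.Y + (1365 / 8192 : ℝ))) rfl
    ((1 / 2 : ℝ) + v2.Y * ((341 / 8192) * v2.Y + (1365 / 8192 : ℝ))) rfl
    (v2.Y * ((1 / 2 : ℝ) + v2.Y * ((341 / 8192) * v2.Y + (1365 / 8192 : ℝ)))) rfl
    v2.pY v2.e_pY
    (v2.Y * v2.pY) rfl
    ((1 / 2) * (v2.Y * v2.pY)) (congrArg (fun y : ℝ => y * (v2.Y * v2.pY)) zLMa_549755813888_0)
    ((1 : ℝ) + (1 / 2) * (v2.Y * v2.pY)) rfl
    v2.Yp v2.e_Yp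
    (v.K * v.om) rfl
    (2 * v.c0) (congrArg (fun y : ℝ => y * v.c0) zLMa_2199023255552_0)
    (v.K * v.om + 2 * v.c0) rfl
    v.Dt v.e_Dt
    v.D v.e_D
    v.SQ v.e_SQ
    (v.K * v.K) rfl
    (2 * (v.K * v.K)) (congrArg (fun y : ℝ => y * (v.K * v.K)) zLMa_2199023255552_0)
    v.c2 v.e_c2
    (v.c0 * v.Dt) rfl
    v.rhat v.e_rhat).2
    v.LQ v.e_LQ
    ((1 / 2) * v.LQ) (congrArg (fun y : ℝ => y * v.LQ) zLMa_549755813888_0)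
    v.aQ v.e_aQ
    (3 : ℝ) zLMa_3298534883328_0).2
    ((3 : ℝ)⁻¹) rfl
    ((1 : ℝ) * (3 : ℝ)⁻¹) rfl
    (2 : ℝ) zLMa_2199023255552_0
    (v.D + (2 : ℝ)) rfl).2
    ((v.D + (2 : ℝ))⁻¹) rfl
    l1.zL l1.e_zL
    l1.zz l1.e_zz
    ((1 : ℝ) - l1.zL) rfl
    (l1.zz * ((1 : ℝ) * (3 : ℝ)⁻¹)) rfl
    ((1 : ℝ) + l1.zz * ((1 : ℝ) * (3 : ℝ)⁻¹)) rfl
    l1.Lv l1.e_Lv
    (l1.zz * l1.zz) rfl
    l1.eL (l1.e_eL.trans (congrArg (fun y : ℝ => y * (l1.zz * l1.zz)) zLMa_219915747328_0))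
    (v.Dt * l1.Lv) rfl
    lv.rlo (lv.e_rlo.trans (congrArg (fun y : ℝ => y * (v.Dt * l1.Lv)) zLMa_549755813888_0))
    (v.Dt * l1.eL) rfl
    lv.er (lv.e_er.trans (congrArg (fun y : ℝ => y * (v.Dt * l1.eL)) zLMa_549755813888_0))
    lv.rhi lv.e_rhi
    (v.c0 * v.rhat) rfl
    lv.D2R (lv.e_D2R.trans (congrArg (fun y : ℝ => y * (v.c0 * v.rhat)) zLMa_4398046511104_0))
    (v.c0 * v.R) rfl
    (v.c0 * v.R * v.rhat) rfl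
    v.D2 (v.e_D2.trans (congrArg (fun y : ℝ => y * (v.c0 * v.R * v.rhat)) zLMa_4398046511104_0))
    (v.D2 + (2 : ℝ)) rfl).2
    ((v.D2 + (2 : ℝ))⁻¹) rfl
    l2.zL l2.e_zL
    l2.zz l2.e_zz
    ((1 : ℝ) - l2.zL) rfl
    (l2.zz * ((1 : ℝ) * (3 : ℝ)⁻¹)) rfl
    ((1 : ℝ) + l2.zz * ((1 : ℝ) * (3 : ℝ)⁻¹)) rfl
    l2.Lv l2.e_Lv
    (l2.zz * l2.zz) rfl
    l2.eL (l2.e_eL.trans (congrArg (fun y : ℝ => y * (l2.zz * l2.zz)) zLMa_219915747328_0))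
    (lv.D2R * l2.Lv) rfl
    ((1 / 2) * (lv.D2R * l2.Lv)) (congrArg (fun y : ℝ => y * (lv.D2R * l2.Lv)) zLMa_549755813888_0)
    lv.rplo lv.e_rplo
    (lv.D2R * l2.eL) rfl
    ((1 / 2) * (lv.D2R * l2.eL)) (congrArg (fun y : ℝ => y * (lv.D2R * l2.eL)) zLMa_549755813888_0)
    lv.erp lv.e_erp
    lv.rphi lv.e_rphi
    (r * lv.rlo) rfl
    (-(r * lv.rlo)) rfl
    q e_q
    (r * lv.er) rfl
    th e_th
    (r * lv.rplo) rfl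
    (-(r * lv.rplo)) rfl
    qp e_qp
    (r * lv.erp) rfl
    thp e_thp
    (v.om * v.K) rfl
    (v.c0 + v.om * v.K) rfl).2
    v.ioK v.e_ioK
    v.h1t v.e_h1t
    (v.om1 * v.t) rfl
    v.h1 v.e_h1
    ((1 : ℝ) - v.u2) rfl
    v.f2 v.e_f2
    v.tu2 v.e_tu2
    ((1 : ℝ) - v.nj2) rfl
    v5.sn v5.e_sn
    (v.R * v.rhat) rfl).2
    (v.SQ⁻¹) rfl
    v5.R1 v5.e_R1
    (v.c0 + v5.R1) rfl
    v5.Qr v5.e_Qr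
    (v5.Qr * v5.Qr) rfl).2
    ((v5.Qr * v5.Qr)⁻¹) rfl
    v5.Th v5.e_Th
    (v.c0 + v.R) rfl
    (S * (v.c0 + v.R)) rfl).2
    ((S * (v.c0 + v.R))⁻¹) rfl
    wv e_w
    (wv * wv) rfl
    xv e_x
    (1263 / 128 : ℝ) zLMa_10849087389696_0
    ((1263 / 128 : ℝ) - xv) rfl
  change 0 < (1263 / 128 : ℝ) - xv at p_xq
  obtain ⟨p_o2, s1⟩ := (s0
    (13 / 1099511627776 : ℝ) zLMa_13_0
    (2295 / 1099511627776 : ℝ) zLMa_2295_0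
    (xv * (13 / 1099511627776 : ℝ)) rfl
    ((2295 / 1099511627776 : ℝ) - xv * (13 / 1099511627776 : ℝ)) rfl
    (75749 / 274877906944 : ℝ) zLMa_302996_0
    (xv * ((2295 / 1099511627776 : ℝ) - xv * (13 / 1099511627776 : ℝ))) rfl
    ((75749 / 274877906944 : ℝ) - xv * ((2295 / 1099511627776 : ℝ) - xv * (13 / 1099511627776 : ℝ))) rfl
    (27269633 / 1099511627776 : ℝ) zLMa_27269633_0
    (xv * ((75749 / 274877906944 : ℝ) - xv * ((2295 / 1099511627776 : ℝ) - xv * (13 / 1099511627776 : ℝ)))) rfl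
    ((27269633 / 1099511627776 : ℝ) - xv * ((75749 / 274877906944 : ℝ) - xv * ((2295 / 1099511627776 : ℝ) - xv * (13 / 1099511627776 : ℝ)))) rfl
    (381774871 / 274877906944 : ℝ) zLMa_1527099484_0
    (xv * ((27269633 / 1099511627776 : ℝ) - xv * ((75749 / 274877906944 : ℝ) - xv * ((2295 / 1099511627776 : ℝ) - xv * (13 / 1099511627776 : ℝ))))) rfl
    ((381774871 / 274877906944 : ℝ) - xv * ((27269633 / 1099511627776 : ℝ) - xv * ((75749 / 274877906944 : ℝ) - xv * ((2295 / 1099511627776 : ℝ) - xv * (13 / 1099511627776 : ℝ))))) rfl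
    (22906492245 / 549755813888 : ℝ) zLMa_45812984490_0
    (xv * ((381774871 / 274877906944 : ℝ) - xv * ((27269633 / 1099511627776 : ℝ) - xv * ((75749 / 274877906944 : ℝ) - xv * ((2295 / 1099511627776 : ℝ) - xv * (13 / 1099511627776 : ℝ)))))) rfl
    ((22906492245 / 549755813888 : ℝ) - xv * ((381774871 / 274877906944 : ℝ) - xv * ((27269633 / 1099511627776 : ℝ) - xv * ((75749 / 274877906944 : ℝ) - xv * ((2295 / 1099511627776 : ℝ) - xv * (13 / 1099511627776 : ℝ)))))) rfl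
    (xv * ((22906492245 / 549755813888 : ℝ) - xv * ((381774871 / 274877906944 : ℝ) - xv * ((27269633 / 1099511627776 : ℝ) - xv * ((75749 / 274877906944 : ℝ) - xv * ((2295 / 1099511627776 : ℝ) - xv * (13 / 1099511627776 : ℝ))))))) rfl
    ((1 / 2 : ℝ) - xv * ((22906492245 / 549755813888 : ℝ) - xv * ((381774871 / 274877906944 : ℝ) - xv * ((27269633 / 1099511627776 : ℝ) - xv * ((75749 / 274877906944 : ℝ) - xv * ((2295 / 1099511627776 : ℝ) - xv * (13 / 1099511627776 : ℝ))))))) rfl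
    (xv * ((1 / 2 : ℝ) - xv * ((22906492245 / 549755813888 : ℝ) - xv * ((381774871 / 274877906944 : ℝ) - xv * ((27269633 / 1099511627776 : ℝ) - xv * ((75749 / 274877906944 : ℝ) - xv * ((2295 / 1099511627776 : ℝ) - xv * (13 / 1099511627776 : ℝ)))))))) rfl
    cc e_cc
    b.q1 b.e_q1
    (q * q) rfl
    (q * q + (1 : ℝ)) rfl
    (q * cc) rfl
    (2 * (q * cc)) (congrArg (fun y : ℝ => y * (q * cc)) zLMa_2199023255552_0)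
    (q * q + (1 : ℝ) + 2 * (q * cc)) rfl
    (4 * th) (congrArg (fun y : ℝ => y * th) zLMa_4398046511104_0)
    b.o2 b.e_o2).2
    (b.q1⁻¹) rfl
    (b.o2 * b.q1⁻¹) rfl
    b.P1 b.e_P1
    (q * v.h1) rfl
    b.qh (b.e_qh.trans (congrArg (fun y : ℝ => y * (q * v.h1)) zLMa_549755813888_0))
    (b.qh * b.P1) rfl
    b.W b.e_W
  change 0 < b.o2 at p_o2
  obtain ⟨p_W, s2⟩ := s1
  change 0 < b.W at p_W
  obtain ⟨p_hg, s3⟩ := (((s2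
    ((1 : ℝ) - q) rfl
    (((1 : ℝ) - q) * b.q1) rfl
    (2 * th) (congrArg (fun y : ℝ => y * th) zLMa_2199023255552_0)
    (((1 : ℝ) - q) * b.q1 + 2 * th) rfl).2
    (b.W⁻¹) rfl
    ((((1 : ℝ) - q) * b.q1 + 2 * th) * b.W⁻¹) rfl
    gv (e_g.trans (congrArg (fun y : ℝ => y * ((((1 : ℝ) - q) * b.q1 + 2 * th) * b.W⁻¹)) zLMa_549755813888_0))
    (gv + (1 / 2 : ℝ)) rfl).2
    ((gv + (1 / 2 : ℝ))⁻¹) rfl
    ga e_ga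
    hg e_hg
    ((1 / 2) * hg) (congrArg (fun y : ℝ => y * hg) zLMa_549755813888_0)
    ((1 : ℝ) - (1 / 2) * hg) rfl
    ((1 : ℝ) - hg) rfl).2
    (((1 : ℝ) - hg)⁻¹) rfl
    lsf e_lsf
    (hg + (1 : ℝ)) rfl
    Qb e_Qb
    (v.h1t * lsf) rfl
    lsx e_lsx
    ls e_ls
  change 0 < (1 : ℝ) - hg at p_hg
  obtain ⟨p_rplo, s4⟩ := (s3
    (v.om1 * v.op1) rfl
    (v.c0 + v.t) rfl
    (v.om * v.c0) rfl
    (v.om * v.c0 * v.K) rfl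
    (2 * (v.om * v.c0 * v.K)) (congrArg (fun y : ℝ => y * (v.om * v.c0 * v.K)) zLMa_2199023255552_0)
    (v.c2 + 2 * (v.om * v.c0 * v.K)) rfl
    ((v.c0 + v.t) * (v.c2 + 2 * (v.om * v.c0 * v.K))) rfl).2
    (((v.c0 + v.t) * (v.c2 + 2 * (v.om * v.c0 * v.K)))⁻¹) rfl
    v3.hpt v3.e_hpt
    v3.hp v3.e_hp
  change 0 < lv.rplo at p_rplo
  obtain ⟨p_xqp, s5⟩ := s4
    xpv e_xp
    ((1263 / 128 : ℝ) - xpv) rfl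
  change 0 < (1263 / 128 : ℝ) - xpv at p_xqp
  obtain ⟨p_o2p, s6⟩ := (s5
    (xpv * (13 / 1099511627776 : ℝ)) rfl
    ((2295 / 1099511627776 : ℝ) - xpv * (13 / 1099511627776 : ℝ)) rfl
    (xpv * ((2295 / 1099511627776 : ℝ) - xpv * (13 / 1099511627776 : ℝ))) rfl
    ((75749 / 274877906944 : ℝ) - xpv * ((2295 / 1099511627776 : ℝ) - xpv * (13 / 1099511627776 : ℝ))) rfl
    (xpv * ((75749 / 274877906944 : ℝ) - xpv * ((2295 / 1099511627776 : ℝ) - xpv * (13 / 1099511627776 : ℝ)))) rfl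
    ((27269633 / 1099511627776 : ℝ) - xpv * ((75749 / 274877906944 : ℝ) - xpv * ((2295 / 1099511627776 : ℝ) - xpv * (13 / 1099511627776 : ℝ)))) rfl
    (xpv * ((27269633 / 1099511627776 : ℝ) - xpv * ((75749 / 274877906944 : ℝ) - xpv * ((2295 / 1099511627776 : ℝ) - xpv * (13 / 1099511627776 : ℝ))))) rfl
    ((381774871 / 274877906944 : ℝ) - xpv * ((27269633 / 1099511627776 : ℝ) - xpv * ((75749 / 274877906944 : ℝ) - xpv * ((2295 / 1099511627776 : ℝ) - xpv * (13 / 1099511627776 : ℝ))))) rfl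
    (xpv * ((381774871 / 274877906944 : ℝ) - xpv * ((27269633 / 1099511627776 : ℝ) - xpv * ((75749 / 274877906944 : ℝ) - xpv * ((2295 / 1099511627776 : ℝ) - xpv * (13 / 1099511627776 : ℝ)))))) rfl
    ((22906492245 / 549755813888 : ℝ) - xpv * ((381774871 / 274877906944 : ℝ) - xpv * ((27269633 / 1099511627776 : ℝ) - xpv * ((75749 / 274877906944 : ℝ) - xpv * ((2295 / 1099511627776 : ℝ) - xpv * (13 / 1099511627776 : ℝ)))))) rfl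
    (xpv * ((22906492245 / 549755813888 : ℝ) - xpv * ((381774871 / 274877906944 : ℝ) - xpv * ((27269633 / 1099511627776 : ℝ) - xpv * ((75749 / 274877906944 : ℝ) - xpv * ((2295 / 1099511627776 : ℝ) - xpv * (13 / 1099511627776 : ℝ))))))) rfl
    ((1 / 2 : ℝ) - xpv * ((22906492245 / 549755813888 : ℝ) - xpv * ((381774871 / 274877906944 : ℝ) - xpv * ((27269633 / 1099511627776 : ℝ) - xpv * ((75749 / 274877906944 : ℝ) - xpv * ((2295 / 1099511627776 : ℝ) - xpv * (13 / 1099511627776 : ℝ))))))) rfl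
    (xpv * ((1 / 2 : ℝ) - xpv * ((22906492245 / 549755813888 : ℝ) - xpv * ((381774871 / 274877906944 : ℝ) - xpv * ((27269633 / 1099511627776 : ℝ) - xpv * ((75749 / 274877906944 : ℝ) - xpv * ((2295 / 1099511627776 : ℝ) - xpv * (13 / 1099511627776 : ℝ)))))))) rfl
    ccp e_ccp
    b'.q1 b'.e_q1
    (qp * qp) rfl
    (qp * qp + (1 : ℝ)) rfl
    (qp * ccp) rfl
    (2 * (qp * ccp)) (congrArg (fun y : ℝ => y * (qp * ccp)) zLMa_2199023255552_0)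
    (qp * qp + (1 : ℝ) + 2 * (qp * ccp)) rfl
    (4 * thp) (congrArg (fun y : ℝ => y * thp) zLMa_4398046511104_0)
    b'.o2 b'.e_o2).2
    (b'.q1⁻¹) rfl
    (b'.o2 * b'.q1⁻¹) rfl
    b'.P1 b'.e_P1
    (qp * v3.hp) rfl
    b'.qh (b'.e_qh.trans (congrArg (fun y : ℝ => y * (qp * v3.hp)) zLMa_549755813888_0))
    (b'.qh * b'.P1) rfl
    b'.W b'.e_W
  change 0 < b'.o2 at p_o2p
  obtain ⟨p_Wp, s7⟩ := s6
  change 0 < b'.W at p_Wp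
  obtain ⟨p_lspa, s8⟩ := ((((((((((((((((s7
    ((1 : ℝ) - qp) rfl
    (((1 : ℝ) - qp) * b'.q1) rfl
    (2 * thp) (congrArg (fun y : ℝ => y * thp) zLMa_2199023255552_0)
    (((1 : ℝ) - qp) * b'.q1 + 2 * thp) rfl).2
    (b'.W⁻¹) rfl
    ((((1 : ℝ) - qp) * b'.q1 + 2 * thp) * b'.W⁻¹) rfl
    gpv (e_gp.trans (congrArg (fun y : ℝ => y * ((((1 : ℝ) - qp) * b'.q1 + 2 * thp) * b'.W⁻¹)) zLMa_549755813888_0))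
    (gpv + (1 / 2 : ℝ)) rfl).2
    ((gpv + (1 / 2 : ℝ))⁻¹) rfl
    gap e_gap
    hgp e_hgp
    gu e_gu
    (v.h + (1 : ℝ)) rfl).2
    v2.ih v2.e_ih
    (v.h * v2.ih) rfl
    v2.rh (v2.e_rh.trans (congrArg (fun y : ℝ => y * (v.h * v2.ih)) zLMa_2199023255552_0))
    v2.mi v2.e_mi
    v2.hm v2.e_hm
    v2.nih v2.e_nih
    (v2.nih * v2.mi) rfl
    v2.bsum v2.e_bsum
    ((209 / 1024) * v.j) (congrArg (fun y : ℝ => y * v.j) zLMa_224412041216_0)).2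
    (v2.Yp⁻¹) rfl
    v2.lm v2.e_lm
    (4 * S) (congrArg (fun y : ℝ => y * S) zLMa_4398046511104_0)
    ((1 : ℝ) * v.nj) rfl
    (4 * S + (1 : ℝ) * v.nj) rfl
    G4 (e_G4.trans (congrArg (fun y : ℝ => y * (4 * S + (1 : ℝ) * v.nj)) zLMa_549755813888_0))).2
    xa.iG4 xa.e_iG4
    xa.alG xa.e_alG
    xa.AE xa.e_AE
    (xa.AE * v.op1) rfl
    xa.XeE xa.e_XeE
    (xa.alG * v.op1) rfl
    xa.XM xa.e_XM
    ((1 : ℝ) - xa.XM) rfl).2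
    xa.iX xa.e_iX
    xa.QX xa.e_QX
    ((1 : ℝ) - xa.QX) rfl).2
    xa.iQX xa.e_iQX
    (2 * eps) (congrArg (fun y : ℝ => y * eps) zLMa_2199023255552_0)
    Ei e_Ei
    Eh e_Eh
    ((13 / 4) * v.om) (congrArg (fun y : ℝ => y * v.om) zLMa_3573412790272_0)
    (79 / 256 : ℝ) zLMa_339302416384_0
    ((13 / 4) * v.om + (79 / 256 : ℝ)) rfl
    phux (e_phux.trans (congrArg (fun y : ℝ => y * ((13 / 4) * v.om + (79 / 256 : ℝ))) zLMa_549755813888_0))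
    (v.h * v.nj) rfl
    ((1 : ℝ) - v.f2) rfl
    (v.h * v.om) rfl
    (2 * (v.h * v.om)) (congrArg (fun y : ℝ => y * (v.h * v.om)) zLMa_2199023255552_0)
    ((1 : ℝ) - v.f2 - 2 * (v.h * v.om)) rfl
    (v.h * v.nj * (v.h * v.nj)) rfl
    xa.N1 xa.e_N1
    (xa.N1 + (1 : ℝ)) rfl
    xa.s (xa.e_s.trans (congrArg (fun y : ℝ => y * (xa.N1 + (1 : ℝ))) zLMa_549755813888_0))
    ((1 / 2) * v.R) (congrArg (fun y : ℝ => y * v.R) zLMa_549755813888_0)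
    (v.j - (1 / 2) * v.R) rfl
    (v.tu2 * ((1 : ℝ) - v.f2)) rfl
    (v.tu2 * ((1 : ℝ) - v.f2) * v.jm) rfl
    ((1 / 8) * (v.tu2 * ((1 : ℝ) - v.f2) * v.jm)) (congrArg (fun y : ℝ => y * (v.tu2 * ((1 : ℝ) - v.f2) * v.jm)) zLMa_137438953472_0)
    (v.j - (1 / 2) * v.R + (1 / 8) * (v.tu2 * ((1 : ℝ) - v.f2) * v.jm)) rfl
    xa.k0 xa.e_k0
    (1 / 1099511627776 : ℝ) zLMa_1_0
    (3 / 274877906944 : ℝ) zLMa_12_0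
    (xv * (1 / 1099511627776 : ℝ)) rfl
    ((3 / 274877906944 : ℝ) - xv * (1 / 1099511627776 : ℝ)) rfl
    (287 / 137438953472 : ℝ) zLMa_2296_0
    (xv * ((3 / 274877906944 : ℝ) - xv * (1 / 1099511627776 : ℝ))) rfl
    ((287 / 137438953472 : ℝ) - xv * ((3 / 274877906944 : ℝ) - xv * (1 / 1099511627776 : ℝ))) rfl
    (302995 / 1099511627776 : ℝ) zLMa_302995_0
    (xv * ((287 / 137438953472 : ℝ) - xv * ((3 / 274877906944 : ℝ) - xv * (1 / 1099511627776 : ℝ)))) rfl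
    ((302995 / 1099511627776 : ℝ) - xv * ((287 / 137438953472 : ℝ) - xv * ((3 / 274877906944 : ℝ) - xv * (1 / 1099511627776 : ℝ)))) rfl
    (13634817 / 549755813888 : ℝ) zLMa_27269634_0
    (xv * ((302995 / 1099511627776 : ℝ) - xv * ((287 / 137438953472 : ℝ) - xv * ((3 / 274877906944 : ℝ) - xv * (1 / 1099511627776 : ℝ))))) rfl
    ((13634817 / 549755813888 : ℝ) - xv * ((302995 / 1099511627776 : ℝ) - xv * ((287 / 137438953472 : ℝ) - xv * ((3 / 274877906944 : ℝ) - xv * (1 / 1099511627776 : ℝ))))) rfl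
    (1527099483 / 1099511627776 : ℝ) zLMa_1527099483_0
    (xv * ((13634817 / 549755813888 : ℝ) - xv * ((302995 / 1099511627776 : ℝ) - xv * ((287 / 137438953472 : ℝ) - xv * ((3 / 274877906944 : ℝ) - xv * (1 / 1099511627776 : ℝ)))))) rfl
    ((1527099483 / 1099511627776 : ℝ) - xv * ((13634817 / 549755813888 : ℝ) - xv * ((302995 / 1099511627776 : ℝ) - xv * ((287 / 137438953472 : ℝ) - xv * ((3 / 274877906944 : ℝ) - xv * (1 / 1099511627776 : ℝ)))))) rfl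
    (45812984491 / 1099511627776 : ℝ) zLMa_45812984491_0
    (xv * ((1527099483 / 1099511627776 : ℝ) - xv * ((13634817 / 549755813888 : ℝ) - xv * ((302995 / 1099511627776 : ℝ) - xv * ((287 / 137438953472 : ℝ) - xv * ((3 / 274877906944 : ℝ) - xv * (1 / 1099511627776 : ℝ))))))) rfl
    ((45812984491 / 1099511627776 : ℝ) - xv * ((1527099483 / 1099511627776 : ℝ) - xv * ((13634817 / 549755813888 : ℝ) - xv * ((302995 / 1099511627776 : ℝ) - xv * ((287 / 137438953472 : ℝ) - xv * ((3 / 274877906944 : ℝ) - xv * (1 / 1099511627776 : ℝ))))))) rfl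
    (xv * ((45812984491 / 1099511627776 : ℝ) - xv * ((1527099483 / 1099511627776 : ℝ) - xv * ((13634817 / 549755813888 : ℝ) - xv * ((302995 / 1099511627776 : ℝ) - xv * ((287 / 137438953472 : ℝ) - xv * ((3 / 274877906944 : ℝ) - xv * (1 / 1099511627776 : ℝ)))))))) rfl
    ((1 / 2 : ℝ) - xv * ((45812984491 / 1099511627776 : ℝ) - xv * ((1527099483 / 1099511627776 : ℝ) - xv * ((13634817 / 549755813888 : ℝ) - xv * ((302995 / 1099511627776 : ℝ) - xv * ((287 / 137438953472 : ℝ) - xv * ((3 / 274877906944 : ℝ) - xv * (1 / 1099511627776 : ℝ)))))))) rfl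
    (xv * ((1 / 2 : ℝ) - xv * ((45812984491 / 1099511627776 : ℝ) - xv * ((1527099483 / 1099511627776 : ℝ) - xv * ((13634817 / 549755813888 : ℝ) - xv * ((302995 / 1099511627776 : ℝ) - xv * ((287 / 137438953472 : ℝ) - xv * ((3 / 274877906944 : ℝ) - xv * (1 / 1099511627776 : ℝ))))))))) rfl
    cu e_cu
    xe e_xe
    (xe * xe) rfl
    ((43 / 128) * (xe * xe)) (congrArg (fun y : ℝ => y * (xe * xe)) zLMa_369367187456_0)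
    (cu + (43 / 128) * (xe * xe)) rfl
    (q * (cu + (43 / 128) * (xe * xe))) rfl
    (2 * (q * (cu + (43 / 128) * (xe * xe)))) (congrArg (fun y : ℝ => y * (q * (cu + (43 / 128) * (xe * xe)))) zLMa_2199023255552_0)
    (q * q + (1 : ℝ) + 2 * (q * (cu + (43 / 128) * (xe * xe)))) rfl
    o2u e_o2u
    (1 / 128 : ℝ) zLMa_8589934592_0
    (o2u + (1 / 128 : ℝ)) rfl).2
    (Real.log (o2u + (1 / 128 : ℝ))) rfl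
    ((1 / 2) * Real.log (o2u + (1 / 128 : ℝ))) (congrArg (fun y : ℝ => y * Real.log (o2u + (1 / 128 : ℝ))) zLMa_549755813888_0)
    ooo e_ooo
    (q * hg) rfl
    Q1 e_Q1
    (Q1 * xa.iX) rfl
    (Qb * xa.iQX) rfl
    (Q1 * xa.iX + Qb * xa.iQX) rfl
    (xa.XM * (Q1 * xa.iX + Qb * xa.iQX)) rfl
    (ls + xa.XM * (Q1 * xa.iX + Qb * xa.iQX)) rfl
    xa.a0 xa.e_a0
    (Q1 * xa.XM) rfl
    (Q1 * xa.XM * xa.iX) rfl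
    (ls + Q1 * xa.XM * xa.iX) rfl
    xa.l1 xa.e_l1
    ((13 / 64) * xa.l1) (congrArg (fun y : ℝ => y * xa.l1) zLMa_223338299392_0)
    ((1 / 2 : ℝ) + (13 / 64) * xa.l1) rfl
    (xa.l1 * ((1 / 2 : ℝ) + (13 / 64) * xa.l1)) rfl
    xa.Na xa.e_Na
    ((13 / 16) * xa.a0) (congrArg (fun y : ℝ => y * xa.a0) zLMa_893353197568_0)
    ((1 : ℝ) + (13 / 16) * xa.a0) rfl
    (xa.a0 * ((1 : ℝ) + (13 / 16) * xa.a0)) rfl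
    xa.Nb xa.e_Nb
    (v2.rh * v2.nih) rfl
    (v2.rh * v2.nih * Ei) rfl
    xa.rn xa.e_rn
    (xa.k0 * xa.Na) rfl
    (v.aQ + (1 / 2 : ℝ)) rfl
    (xa.rn * (v.aQ + (1 / 2 : ℝ))) rfl
    xa.ka xa.e_ka
    (v.aQ + (1 : ℝ)) rfl
    xa.kb xa.e_kb
    (Eh * (v.aQ + (1 : ℝ))) rfl
    (Eh * (v.aQ + (1 : ℝ)) * v2.nih) rfl
    xa.lfk xa.e_lfk
    (xa.ka * lsx) rfl
    (xa.lfk * phux) rfl
    xa.kl xa.e_kl
    (r * v2.bsum) rfl).2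
    (v.aQ⁻¹) rfl
    (r * v2.bsum * v.aQ⁻¹) rfl
    ((1 / 2) * (r * v2.bsum * v.aQ⁻¹)) (congrArg (fun y : ℝ => y * (r * v2.bsum * v.aQ⁻¹)) zLMa_549755813888_0)
    (v.om1 * ((1 / 2) * (r * v2.bsum * v.aQ⁻¹))) rfl
    srcx e_srcx
    srcs e_srcs
    yb.src yb.e_src
    (xa.ka * Q1) rfl
    (xa.ka * Q1 * xa.iX) rfl
    (xa.kb * Qb) rfl
    (xa.kb * Qb * xa.iQX) rfl
    yb.fxe yb.e_fxe
    (v.om1 * yb.src) rfl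
    (xa.XeE * yb.fxe) rfl
    yb.epd yb.e_epd
    (v.tu2 * yb.epd) rfl
    (v.tu2 * yb.epd * v.aQ⁻¹) rfl
    ((1 : ℝ) - v.tu2 * yb.epd * v.aQ⁻¹) rfl).2
    yb.NN yb.e_NN
    yb.eN yb.e_eN
    yb.d yb.e_d
    yb.eta yb.e_eta
    (yb.eta * v.aQ⁻¹) rfl
    ((1 : ℝ) - yb.eta * v.aQ⁻¹) rfl
    (v.rhat * ((1 : ℝ) - yb.eta * v.aQ⁻¹)) rfl
    yb.rl yb.e_rl).2
    yb.irl yb.e_irl
    yb.yy yb.e_yy
    (v.aQ - yb.eta) rfl).2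
    yb.q0 yb.e_q0
    yb.zp yb.e_zp
    ((1 / 2) * yb.zp) (congrArg (fun y : ℝ => y * yb.zp) zLMa_549755813888_0)
    ((1 : ℝ) - (1 / 2) * yb.zp) rfl
    ((1 : ℝ) - yb.zp) rfl).2
    (((1 : ℝ) - yb.zp)⁻¹) rfl
    yb.kzp yb.e_kzp
    (v.u * yb.q0) rfl
    (gu * yb.irl) rfl
    (gu * yb.irl * yb.kzp) rfl
    yb.Cu yb.e_Cu
    (tr * yb.eN) rfl
    (yb.q0 * (tr * yb.eN)) rfl
    (gap * yb.irl) rfl
    (gap * yb.irl * yb.kzp) rfl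
    (gap * yb.irl * yb.kzp * yb.d) rfl
    yb.rr yb.e_rr
    ((13 / 64) * yb.rr) (congrArg (fun y : ℝ => y * yb.rr) zLMa_223338299392_0)
    ((1 / 2 : ℝ) + (13 / 64) * yb.rr) rfl
    (yb.rr * ((1 / 2 : ℝ) + (13 / 64) * yb.rr)) rfl
    ((1 : ℝ) + yb.rr * ((1 / 2 : ℝ) + (13 / 64) * yb.rr)) rfl
    (yb.Cu * ((1 : ℝ) + yb.rr * ((1 / 2 : ℝ) + (13 / 64) * yb.rr))) rfl
    yb.CuN yb.e_CuN
    yb.fbt yb.e_fbt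
    yb.XLt yb.e_XLt
    (5 : ℝ) zLMa_5497558138880_0).2
    ((5 : ℝ)⁻¹) rfl
    yb.beta yb.e_beta
    ((v.h + (1 : ℝ)) * v.op1) rfl
    yb.b1 yb.e_b1
    pk.omr pk.e_omr
    pk.omp pk.e_omp
    ((1 / 2) * hgp) (congrArg (fun y : ℝ => y * hgp) zLMa_549755813888_0)
    ((1 : ℝ) - (1 / 2) * hgp) rfl
    ((1 : ℝ) - hgp) rfl).2
    (((1 : ℝ) - hgp)⁻¹) rfl
    (((1 : ℝ) - (1 / 2) * hgp) * ((1 : ℝ) - hgp)⁻¹) rfl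
    pk.lspf pk.e_lspf
    (v.tu2 * v5.Th) rfl
    ((2731 / 4096) * (v.tu2 * v5.Th)) (congrArg (fun y : ℝ => y * (v.tu2 * v5.Th)) zLMa_733097230336_0)
    ((1 : ℝ) - (2731 / 4096) * (v.tu2 * v5.Th)) rfl
    (v5.Th * ((1 : ℝ) - (2731 / 4096) * (v.tu2 * v5.Th))) rfl
    (lv.rplo * lv.rplo) rfl
    (v.u2 * (lv.rplo * lv.rplo)) rfl
    pk.E0 pk.e_E0
    pk.lspa pk.e_lspa
    (pk.E0 + (1 : ℝ)) rfl
    (pk.lspa * (pk.E0 + (1 : ℝ))) rfl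
    (pk.E0 - pk.lspa * (pk.E0 + (1 : ℝ))) rfl
    ((2731 / 8192) * (v.K * v.K)) (congrArg (fun y : ℝ => y * (v.K * v.K)) zLMa_366548615168_0)
    ((1 : ℝ) - (2731 / 8192) * (v.K * v.K)) rfl
    (v.nj2 * ((1 : ℝ) - (2731 / 8192) * (v.K * v.K))) rfl
    (pk.E0 - pk.lspa * (pk.E0 + (1 : ℝ)) + v.nj2 * ((1 : ℝ) - (2731 / 8192) * (v.K * v.K))) rfl
    (pk.omr * (pk.E0 - pk.lspa * (pk.E0 + (1 : ℝ)) + v.nj2 * ((1 : ℝ) - (2731 / 8192) * (v.K * v.K)))) rfl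
    (pk.omp * pk.omp) rfl
    ((1 : ℝ) + pk.omp * pk.omp) rfl).2
    (((1 : ℝ) + pk.omp * pk.omp)⁻¹) rfl
    pk.pe pk.e_pe
    ((1 : ℝ) - yb.yy) rfl
    pk.ye pk.e_ye
    ((1 : ℝ) - pk.lspa) rfl
  change 0 < (1 : ℝ) - pk.lspa at p_lspa
  obtain ⟨p_pe, s9⟩ := s8
  change 0 < pk.pe at p_pe
  obtain ⟨p_yy, s10⟩ := s9
  change 0 < (1 : ℝ) - yb.yy at p_yy
  obtain ⟨p_XM, s11⟩ := ((((((s10
    (yb.CuN * G4) rfl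
    (yb.CuN * G4 * srcx) rfl).2
    (v.op1⁻¹) rfl
    cl.FXt cl.e_FXt
    y1 e_y1
    (v.t * y1) rfl
    ((1 / 2) * (v.t * y1)) (congrArg (fun y : ℝ => y * (v.t * y1)) zLMa_549755813888_0)
    ((1 : ℝ) - (1 / 2) * (v.t * y1)) rfl
    (y1 * ((1 : ℝ) - (1 / 2) * (v.t * y1))) rfl
    cl.S1 cl.e_S1
    (v.u * v.n) rfl
    (v.u * v.n * (v.h + (1 : ℝ))) rfl
    (v.u * v.n * (v.h + (1 : ℝ)) * v.j) rfl
    cl.a4 cl.e_a4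
    (cl.S1 + cl.a4) rfl
    (cl.S1 * cl.a4) rfl
    (v.t * (cl.S1 * cl.a4)) rfl
    cl.S4 cl.e_S4
    cl.Dh cl.e_Dh
    ((3 / 8) * v.D) (congrArg (fun y : ℝ => y * v.D) zLMa_412316860416_0)
    ((1 / 2 : ℝ) - (3 / 8) * v.D) rfl
    (cl.Dh * ((1 / 2 : ℝ) - (3 / 8) * v.D)) rfl
    ((1 : ℝ) * (cl.Dh * ((1 / 2 : ℝ) - (3 / 8) * v.D))) rfl
    cl.a5 cl.e_a5
    (cl.S4 + cl.a5) rfl
    (cl.S4 * cl.a5) rfl
    (v.t * (cl.S4 * cl.a5)) rfl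
    cl.S5 cl.e_S5
    (v.u * yb.eN) rfl
    (v.u * yb.eN * v.op1⁻¹) rfl
    cl.a6 cl.e_a6
    (cl.S5 + cl.a6) rfl
    (cl.S5 * cl.a6) rfl
    (v.t * (cl.S5 * cl.a6)) rfl
    cl.S6 cl.e_S6
    cl.a7 cl.e_a7
    (cl.S6 - cl.a7) rfl
    (v.t * yb.b1) rfl
    ((1 : ℝ) + v.t * yb.b1) rfl).2
    (((1 : ℝ) + v.t * yb.b1)⁻¹) rfl
    cl.S7 cl.e_S7
    (v.u * v.tu) rfl
    (v.u * v.tu * yb.eN) rfl
    (v.u * v.tu * yb.eN * yb.q0) rfl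
    cl.a8 cl.e_a8
    (cl.S7 + cl.a8) rfl
    (cl.S7 * cl.a8) rfl
    (v.t * (cl.S7 * cl.a8)) rfl
    cl.S8 cl.e_S8
    (v.t * cl.S8) rfl
    cl.c1 cl.e_c1
    (yb.fbt * xa.XM) rfl
    (v.t * yb.XLt) rfl
    (cl.FXt * (v.t * yb.XLt)) rfl
    (yb.fbt * xa.XM + cl.FXt * (v.t * yb.XLt)) rfl
    cl.rt cl.e_rt
    (yb.fbt + cl.FXt) rfl
    cl.fm cl.e_fm
    (cl.rt * cl.c1) rfl
    (cl.S8 + cl.rt * cl.c1) rfl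
    (cl.S8 + cl.rt * cl.c1 + cl.fm) rfl
    cl.Bm cl.e_Bm
    ((1 / 1024) * (1 : ℝ)) (congrArg (fun y : ℝ => y * (1 : ℝ)) zLMa_1073741824_0)
    (cl.Bm - (1 / 1024) * (1 : ℝ)) rfl
    yb.m1 yb.e_m1
    (yb.m1 + (2 : ℝ)) rfl
    (2 * yb.beta) (congrArg (fun y : ℝ => y * yb.beta) zLMa_2199023255552_0)
    (yb.m1 + (2 : ℝ) - 2 * yb.beta) rfl
    ((v.h + (1 : ℝ)) * (yb.m1 + (2 : ℝ) - 2 * yb.beta)) rfl
    (yb.m1 * (2 * yb.beta)) rfl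
    (yb.m1 * (2 * yb.beta) + (1 : ℝ)) rfl).2
    ((yb.m1 * (2 * yb.beta) + (1 : ℝ))⁻¹) rfl
    ((v.h + (1 : ℝ)) * (yb.m1 + (2 : ℝ) - 2 * yb.beta) * (yb.m1 * (2 * yb.beta) + (1 : ℝ))⁻¹) rfl
    (xa.AE * yb.fxe) rfl
    ((1 / 2) * v2.lm) (congrArg (fun y : ℝ => y * v2.lm) zLMa_549755813888_0)
    (v.K + (1 / 2) * v2.lm) rfl
    (xa.AE * yb.fxe * (v.K + (1 / 2) * v2.lm)) rfl
    (2 * (xa.AE * yb.fxe * (v.K + (1 / 2) * v2.lm))) (congrArg (fun y : ℝ => y * (xa.AE * yb.fxe * (v.K + (1 / 2) * v2.lm))) zLMa_2199023255552_0)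
    (yb.src + 2 * (xa.AE * yb.fxe * (v.K + (1 / 2) * v2.lm))) rfl
    (2 * (yb.src + 2 * (xa.AE * yb.fxe * (v.K + (1 / 2) * v2.lm)))) (congrArg (fun y : ℝ => y * (yb.src + 2 * (xa.AE * yb.fxe * (v.K + (1 / 2) * v2.lm)))) zLMa_2199023255552_0)
    (2 * (yb.src + 2 * (xa.AE * yb.fxe * (v.K + (1 / 2) * v2.lm))) * yb.NN) rfl
    (v.tu * yb.eN) rfl
    (v.op1 - v.tu * yb.eN) rfl).2
    ((v.op1 - v.tu * yb.eN)⁻¹) rfl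
    (2 * (yb.src + 2 * (xa.AE * yb.fxe * (v.K + (1 / 2) * v2.lm))) * yb.NN * (v.op1 - v.tu * yb.eN)⁻¹) rfl
    yb.V yb.e_V
    ((1 : ℝ) * v.nj * ((1 : ℝ) * v.nj)) rfl
    (13 : ℝ) zLMa_14293651161088_0
    (10 : ℝ) zLMa_10995116277760_0).2
    ((10 : ℝ)⁻¹) rfl
    ((13 : ℝ) * (10 : ℝ)⁻¹) rfl
    ((1 : ℝ) * v.nj * ((1 : ℝ) * v.nj) * ((13 : ℝ) * (10 : ℝ)⁻¹)) rfl
    (S * S) rfl
    (25 * (S * S)) (congrArg (fun y : ℝ => y * (S * S)) zLMa_27487790694400_0)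
    yb.C2 yb.e_C2
    yb.gr yb.e_gr
    (2 * v.c0 - v.t) rfl
    yb.Gt yb.e_Gt
    ((1 : ℝ) * v.u) rfl
    yb.au yb.e_au
    (v.op1 * yb.fxe) rfl
    (v.op1 * yb.fxe * xa.iG4) rfl
    yb.inner yb.e_inner
    (v.tu * yb.eN + (2 : ℝ)) rfl
    yb.ezs yb.e_ezs
    (yb.C2 * yb.gr) rfl
    (yb.NN * yb.ezs) rfl
    (yb.au * yb.inner) rfl
    (yb.NN * yb.ezs * (yb.au * yb.inner)) rfl
    yb.Rg0 yb.e_Rg0
    ((1 / 2) * (v.tu * yb.eN)) (congrArg (fun y : ℝ => y * (v.tu * yb.eN)) zLMa_549755813888_0)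
    ((1 : ℝ) + (1 / 2) * (v.tu * yb.eN)) rfl
    (yb.NN * ((1 : ℝ) + (1 / 2) * (v.tu * yb.eN))) rfl
    (v.t * v.om1) rfl
    (v.t * v.om1 * v2.bsum) rfl
    (v.op1 * v.aQ) rfl).2
    ((v.op1 * v.aQ)⁻¹) rfl
    (v.t * v.om1 * v2.bsum * (v.op1 * v.aQ)⁻¹) rfl
    (yb.NN * ((1 : ℝ) + (1 / 2) * (v.tu * yb.eN)) * (v.t * v.om1 * v2.bsum * (v.op1 * v.aQ)⁻¹)) rfl
    yb.Rh yb.e_Rh
    (v2.lm * yb.Rg0) rfl
    ((1 : ℝ) - v2.lm) rfl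
    (v.u2 * yb.Rh) rfl
    (((1 : ℝ) - v2.lm) * (v.u2 * yb.Rh)) rfl
    (yb.C2 * (((1 : ℝ) - v2.lm) * (v.u2 * yb.Rh))) rfl
    yb.Rg yb.e_Rg
  change 0 < (1 : ℝ) - xa.XM at p_XM
  obtain ⟨p_QX, s12⟩ := s11
  change 0 < (1 : ℝ) - xa.QX at p_QX
  obtain ⟨p_e2, s13⟩ := s12
    (2 * (v.tu2 * yb.epd)) (congrArg (fun y : ℝ => y * (v.tu2 * yb.epd)) zLMa_2199023255552_0)
    (v.aQ - 2 * (v.tu2 * yb.epd)) rfl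
  change 0 < v.aQ - 2 * (v.tu2 * yb.epd) at p_e2
  obtain ⟨p_rl, s14⟩ := s13
  change 0 < yb.rl at p_rl
  obtain ⟨p_hgp, s15⟩ := s14
    ((1 / 2 : ℝ) - hgp) rfl
  change 0 < (1 / 2 : ℝ) - hgp at p_hgp
  obtain ⟨p_l1, s16⟩ := s15
    ((5 / 8) * (1 : ℝ)) (congrArg (fun y : ℝ => y * (1 : ℝ)) zLMa_687194767360_0)
    ((5 / 8) * (1 : ℝ) - xa.l1) rfl
  change 0 < (5 / 8) * (1 : ℝ) - xa.l1 at p_l1
  obtain ⟨p_a0, s17⟩ := s16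
    ((11 / 32) * (1 : ℝ)) (congrArg (fun y : ℝ => y * (1 : ℝ)) zLMa_377957122048_0)
    ((11 / 32) * (1 : ℝ) - xa.a0) rfl
  change 0 < (11 / 32) * (1 : ℝ) - xa.a0 at p_a0
  obtain ⟨p_S, s18⟩ := s17
  change 0 < v.op1 - v.tu * yb.eN at p_S
  obtain ⟨p_zp, s19⟩ := s18
  change 0 < (1 : ℝ) - yb.zp at p_zp
  obtain ⟨p_rr, s20⟩ := s19
    ((5 / 8) * (1 : ℝ) - yb.rr) rfl
  change 0 < (5 / 8) * (1 : ℝ) - yb.rr at p_rr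
  obtain ⟨p_V, s21⟩ := s20
  change 0 < yb.V at p_V
  obtain ⟨p_B, s22⟩ := s21
  change 0 < cl.Bm - (1 / 1024) * (1 : ℝ) at p_B
  obtain ⟨p_Rg, s23⟩ := s22
  change 0 < yb.Rg at p_Rg
  obtain ⟨p_Rh, s24⟩ := s23
  change 0 < yb.Rh at p_Rh
  have hQ := qb_s G f lv.e_rhi e_q e_th
  have hq := hQ.le
  have hQp := qb_p G f p_rplo.le lv.e_rphi e_qp e_thp
  have hqp := hQp.le
  have hq0 : 0 < q := lt_of_lt_of_le (by rw [G.q_eq]; exact G.q0) hq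
  have hcc : cc ≤ Real.cos (v.e * (Qk κ (shf κ τ)).arg) := cc_q (arg_x G v5 hsc e_w e_x) e_cc p_xq
  have hgR := gR_GD G.e0 G.κ0 G.s0 b hQ hcc G.h1_eq p_o2 p_W e_g
  have hγ := gam_g G.e0 G.κ0 G.s0 hgR e_ga
  have hccp : ccp ≤ Real.cos (v.e * (Qk κ (shf κ (shf κ τ))).arg) := cc_q (arg_xp G v3 v5 hsc e_w e_x e_xp) e_ccp p_xqp
  have hgRp := gR_GD G.e0 G.κ0 (shf_re' G.κ0 G.s0) b' hQp hccp (G.hp_eq v3) p_o2p p_Wp e_gp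
  have hγp := gam_g G.e0 G.κ0 (shf_re' G.κ0 G.s0) hgRp e_gap
  have hoo := oo_sharp8 G.κ0 G.s0 hQ (Qre0 G) hsc.ee (x_eq G v5 hsc e_w e_x) e_cu e_xe e_o2u e_ooo
  have hn1 : ‖1 + qq v.e κ (shf κ τ)‖ ≤ Q1 := by
    rw [e_Q1]; exact n1_sharp8 G.e0 G.κ0 G.s0 hq hoo (hg_le G hγ e_hg)
  have hlx : 1 * lsx = v.h1t * lsf * ga := by rw [e_lsx, one_mul]
  have fr := fr_g G hγ hq hq0 e_hg e_lsf p_hg e_Qb e_ls (hsc.al0 G) hlx hn1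
  have hgu : 1 * gu = gap * S := by rw [e_gu]; ring
  obtain ⟨lf0, Ex, hφ⟩ := ph_slM G v2 hsc he2 (by norm_num) (by norm_num) (by norm_num) e_phux e_Ei e_Eh
  have as8 : As8 xa yb := ⟨p_XM, p_QX, p_e2, p_rl, p_l1, p_a0, p_S, p_zp, p_rr, p_V, p_Rg, p_Rh⟩
  exact far_Cl G D hsc hA0 hA as8 fr hgu hγp hφ pk f p_rplo e_hgp p_hgp p_lspa p_pe p_yy cl e_srcx e_srcs
    (mul_one v.t) G.t0 (by linear_combination v.t * e_y1 - pk.ye * e_r) p_B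

theorem far_LMa1 {κ : ℝ} {τ : ℂ} {R w : ℝ} {v : B1} (D : PtE (3 * 5⁻¹) v.e κ τ R w)
    (G : Geo κ (shf κ τ) v) (v2 : B2 v) (v3 : B3 v) (v5 : V5 v) {l1 : Lg v.D} {l2 : Lg v.D2}
    (lv : LV v l1 l2) (he2 : 2 ≤ v.e) {S z de : ℝ}
    (hde0 : 0 < de) (hde : de = v.t * z * S) (hu : v.u = z * de) (hz0 : 0 < z)
    (hee : v.e * (de * de) = 1)
    (h : RAs Pool.Agent.helper71.FJ.Crt.LMa.prog1 [S, v.t, z, v.n]) :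
    FarPt v.e κ (1 - Real.sinh κ / 1024) w (2 * AL v.e v.K * Real.sinh κ ^ 2) R
      (RE v.e κ (w * R)) τ := by
  obtain ⟨tz, e_tz⟩ : ∃ zz : ℝ, zz = v.t * z := ⟨_, rfl⟩
  have hde' : de = tz * S := by rw [e_tz]; exact hde
  obtain ⟨z2, e_z2⟩ : ∃ zz : ℝ, zz = z * z := ⟨_, rfl⟩
  obtain ⟨r, e_r⟩ : ∃ zz : ℝ, zz = v.t * z2 := ⟨_, rfl⟩
  obtain ⟨eps, e_eps⟩ : ∃ zz : ℝ, zz = de * de := ⟨_, rfl⟩
  obtain ⟨tr, e_tr⟩ : ∃ zz : ℝ, zz = v.t * r := ⟨_, rfl⟩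
  obtain ⟨q, e_q⟩ : ∃ zz : ℝ, zz = Real.exp (-(r * lv.rlo)) := ⟨_, rfl⟩
  obtain ⟨th, e_th⟩ : ∃ zz : ℝ, zz = q * (r * lv.er) := ⟨_, rfl⟩
  obtain ⟨qp, e_qp⟩ : ∃ zz : ℝ, zz = Real.exp (-(r * lv.rplo)) := ⟨_, rfl⟩
  obtain ⟨thp, e_thp⟩ : ∃ zz : ℝ, zz = qp * (r * lv.erp) := ⟨_, rfl⟩
  obtain ⟨wv, e_w⟩ : ∃ zz : ℝ, zz = (1 : ℝ) * (S * (v.c0 + v.R))⁻¹ := ⟨_, rfl⟩
  obtain ⟨xv, e_x⟩ : ∃ zz : ℝ, zz = wv * wv * v5.sn := ⟨_, rfl⟩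
  obtain ⟨cc, e_cc⟩ : ∃ zz : ℝ, zz = (1 : ℝ) - xv * ((1 / 2 : ℝ) - xv * ((22906492245 / 549755813888 : ℝ) - xv * ((381774871 / 274877906944 : ℝ) - xv * ((27269633 / 1099511627776 : ℝ) - xv * ((75749 / 274877906944 : ℝ) - xv * ((2295 / 1099511627776 : ℝ) - xv * (13 / 1099511627776 : ℝ))))))) := ⟨_, rfl⟩
  obtain ⟨b⟩ := exGE q th cc v.h1
  obtain ⟨gv, e_g⟩ : ∃ zz : ℝ, zz = (1 / 2) * ((((1 : ℝ) - q) * b.q1 + 2 * th) * b.W⁻¹) := ⟨_, rfl⟩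
  obtain ⟨ga, e_ga⟩ : ∃ zz : ℝ, zz = gv * (gv + (1 / 2 : ℝ))⁻¹ := ⟨_, rfl⟩
  obtain ⟨hg, e_hg⟩ : ∃ zz : ℝ, zz = v.h1 * ga := ⟨_, rfl⟩
  obtain ⟨lsf, e_lsf⟩ : ∃ zz : ℝ, zz = ((1 : ℝ) - (1 / 2) * hg) * ((1 : ℝ) - hg)⁻¹ := ⟨_, rfl⟩
  obtain ⟨Qb, e_Qb⟩ : ∃ zz : ℝ, zz = q * (hg + (1 : ℝ)) := ⟨_, rfl⟩
  obtain ⟨lsx, e_lsx⟩ : ∃ zz : ℝ, zz = v.h1t * lsf * ga := ⟨_, rfl⟩
  obtain ⟨ls, e_ls⟩ : ∃ zz : ℝ, zz = hg * lsf := ⟨_, rfl⟩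
  obtain ⟨xpv, e_xp⟩ : ∃ zz : ℝ, zz = xv * v.SQ⁻¹ := ⟨_, rfl⟩
  obtain ⟨ccp, e_ccp⟩ : ∃ zz : ℝ, zz = (1 : ℝ) - xpv * ((1 / 2 : ℝ) - xpv * ((22906492245 / 549755813888 : ℝ) - xpv * ((381774871 / 274877906944 : ℝ) - xpv * ((27269633 / 1099511627776 : ℝ) - xpv * ((75749 / 274877906944 : ℝ) - xpv * ((2295 / 1099511627776 : ℝ) - xpv * (13 / 1099511627776 : ℝ))))))) := ⟨_, rfl⟩
  obtain ⟨b'⟩ := exGE qp thp ccp v3.hp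
  obtain ⟨gpv, e_gp⟩ : ∃ zz : ℝ, zz = (1 / 2) * ((((1 : ℝ) - qp) * b'.q1 + 2 * thp) * b'.W⁻¹) := ⟨_, rfl⟩
  obtain ⟨gap, e_gap⟩ : ∃ zz : ℝ, zz = gpv * (gpv + (1 / 2 : ℝ))⁻¹ := ⟨_, rfl⟩
  obtain ⟨hgp, e_hgp⟩ : ∃ zz : ℝ, zz = v3.hp * gap := ⟨_, rfl⟩
  obtain ⟨gu, e_gu⟩ : ∃ zz : ℝ, zz = gap * S := ⟨_, rfl⟩
  obtain ⟨G4, e_G4⟩ : ∃ zz : ℝ, zz = (1 / 2) * (4 * S + (1 : ℝ) * v.nj) := ⟨_, rfl⟩
  obtain ⟨Ei, e_Ei⟩ : ∃ zz : ℝ, zz = 2 * eps + (1 : ℝ) := ⟨_, rfl⟩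
  obtain ⟨Eh, e_Eh⟩ : ∃ zz : ℝ, zz = eps + (1 : ℝ) := ⟨_, rfl⟩
  obtain ⟨phux, e_phux⟩ : ∃ zz : ℝ, zz = (1 / 2) * (z * (1 * (S * v.nj) + 1 * v.t)) := ⟨_, rfl⟩
  obtain ⟨cu, e_cu⟩ : ∃ zz : ℝ, zz = (1 : ℝ) - xv * ((1 / 2 : ℝ) - xv * ((45812984491 / 1099511627776 : ℝ) - xv * ((1527099483 / 1099511627776 : ℝ) - xv * ((13634817 / 549755813888 : ℝ) - xv * ((302995 / 1099511627776 : ℝ) - xv * ((287 / 137438953472 : ℝ) - xv * ((3 / 274877906944 : ℝ) - xv * (1 / 1099511627776 : ℝ)))))))) := ⟨_, rfl⟩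
  obtain ⟨xe, e_xe⟩ : ∃ zz : ℝ, zz = xv * eps := ⟨_, rfl⟩
  obtain ⟨o2u, e_o2u⟩ : ∃ zz : ℝ, zz = q * q + (1 : ℝ) + 2 * (q * (cu + (43 / 128) * (xe * xe))) + 2 * th := ⟨_, rfl⟩
  obtain ⟨ooo, e_ooo⟩ : ∃ zz : ℝ, zz = Real.exp ((1 / 2) * Real.log (o2u + (1 / 128 : ℝ))) := ⟨_, rfl⟩
  obtain ⟨Q1, e_Q1⟩ : ∃ zz : ℝ, zz = ooo + q * hg := ⟨_, rfl⟩
  obtain ⟨xa⟩ := exKa v2 eps 1 S G4 Qb Q1 ls lsx phux Ei Eh
  obtain ⟨srcx, e_srcx⟩ : ∃ zz : ℝ, zz = v.om1 * ((1 / 2) * (r * v2.bsum * v.aQ⁻¹)) + xa.kl := ⟨_, rfl⟩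
  obtain ⟨srcs, e_srcs⟩ : ∃ zz : ℝ, zz = v.t * srcx := ⟨_, rfl⟩
  obtain ⟨yb⟩ := exKb (3 * 5⁻¹) xa tr gap gu srcs
  obtain ⟨pk⟩ := exPk v5 lv.rplo v3.hp hgp gu yb.yy
  obtain ⟨y1, e_y1⟩ : ∃ zz : ℝ, zz = z2 * pk.ye := ⟨_, rfl⟩
  obtain ⟨cl⟩ := exCl yb v.t 1 y1 srcx
  have hsc := sc_Ma hde' e_tz hu hee hde0 G.t0 hz0.le e_z2 e_r e_tr e_eps
  obtain ⟨hA0, hA⟩ := hA_L G hsc e_G4
  have f := lv.f G hsc.hr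
  obtain ⟨p_xq, s0⟩ := (((((((((h
    (1 : ℝ) zLMa_1099511627776_0
    tz e_tz
    de hde'
    v.u hu
    z2 e_z2
    r e_r
    eps e_eps
    tr e_tr
    (1 / 2 : ℝ) zLMa_549755813888_0
    v.tu v.e_tu
    (v.tu * v.n) rfl
    v.h (v.e_h.trans (congrArg (fun y : ℝ => y * (v.tu * v.n)) zLMa_549755813888_0))
    v.u2 v.e_u2
    (v.h * v.h) rfl
    v.jm v.e_jm).2
    v.j v.e_j
    (v.h * v.j) rfl
    v.K (v.e_K.trans (congrArg (fun y : ℝ => y * (v.h * v.j)) zLMa_2199023255552_0))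
    (2 * v.j) (congrArg (fun y : ℝ => y * v.j) zLMa_2199023255552_0)
    v.c0 v.e_c0
    v.m v.e_m
    v.nj v.e_nj
    v.om v.e_om
    v.om1 v.e_om1
    v.op1 v.e_op1
    v.R v.e_R
    v.nj2 v.e_nj2
    v2.Y (v2.e_Y.trans (congrArg (fun y : ℝ => y * v.h) zLMa_10774999203840_0))
    ((341 / 8192) * v2.Y) (congrArg (fun y : ℝ => y * v2.Y) zLMa_45768245248_0)
    (1365 / 8192 : ℝ) zLMa_183207198720_0
    ((341 / 8192) * v2.Y + (1365 / 8192 : ℝ)) rfl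
    (v2.Y * ((341 / 8192) * v2.Y + (1365 / 8192 : ℝ))) rfl
    ((1 / 2 : ℝ) + v2.Y * ((341 / 8192) * v2.Y + (1365 / 8192 : ℝ))) rfl
    (v2.Y * ((1 / 2 : ℝ) + v2.Y * ((341 / 8192) * v2.Y + (1365 / 8192 : ℝ)))) rfl
    v2.pY v2.e_pY
    (v2.Y * v2.pY) rfl
    ((1 / 2) * (v2.Y * v2.pY)) (congrArg (fun y : ℝ => y * (v2.Y * v2.pY)) zLMa_549755813888_0)
    ((1 : ℝ) + (1 / 2) * (v2.Y * v2.pY)) rfl
    v2.Yp v2.e_Yp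
    (v.K * v.om) rfl
    (2 * v.c0) (congrArg (fun y : ℝ => y * v.c0) zLMa_2199023255552_0)
    (v.K * v.om + 2 * v.c0) rfl
    v.Dt v.e_Dt
    v.D v.e_D
    v.SQ v.e_SQ
    (v.K * v.K) rfl
    (2 * (v.K * v.K)) (congrArg (fun y : ℝ => y * (v.K * v.K)) zLMa_2199023255552_0)
    v.c2 v.e_c2
    (v.c0 * v.Dt) rfl
    v.rhat v.e_rhat).2
    v.LQ v.e_LQ
    ((1 / 2) * v.LQ) (congrArg (fun y : ℝ => y * v.LQ) zLMa_549755813888_0)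
    v.aQ v.e_aQ
    (3 : ℝ) zLMa_3298534883328_0).2
    ((3 : ℝ)⁻¹) rfl
    ((1 : ℝ) * (3 : ℝ)⁻¹) rfl
    (2 : ℝ) zLMa_2199023255552_0
    (v.D + (2 : ℝ)) rfl).2
    ((v.D + (2 : ℝ))⁻¹) rfl
    l1.zL l1.e_zL
    l1.zz l1.e_zz
    ((1 : ℝ) - l1.zL) rfl
    (l1.zz * ((1 : ℝ) * (3 : ℝ)⁻¹)) rfl
    ((1 : ℝ) + l1.zz * ((1 : ℝ) * (3 : ℝ)⁻¹)) rfl
    l1.Lv l1.e_Lv
    (l1.zz * l1.zz) rfl
    l1.eL (l1.e_eL.trans (congrArg (fun y : ℝ => y * (l1.zz * l1.zz)) zLMa_219915747328_0))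
    (v.Dt * l1.Lv) rfl
    lv.rlo (lv.e_rlo.trans (congrArg (fun y : ℝ => y * (v.Dt * l1.Lv)) zLMa_549755813888_0))
    (v.Dt * l1.eL) rfl
    lv.er (lv.e_er.trans (congrArg (fun y : ℝ => y * (v.Dt * l1.eL)) zLMa_549755813888_0))
    lv.rhi lv.e_rhi
    (v.c0 * v.rhat) rfl
    lv.D2R (lv.e_D2R.trans (congrArg (fun y : ℝ => y * (v.c0 * v.rhat)) zLMa_4398046511104_0))
    (v.c0 * v.R) rfl
    (v.c0 * v.R * v.rhat) rfl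
    v.D2 (v.e_D2.trans (congrArg (fun y : ℝ => y * (v.c0 * v.R * v.rhat)) zLMa_4398046511104_0))
    (v.D2 + (2 : ℝ)) rfl).2
    ((v.D2 + (2 : ℝ))⁻¹) rfl
    l2.zL l2.e_zL
    l2.zz l2.e_zz
    ((1 : ℝ) - l2.zL) rfl
    (l2.zz * ((1 : ℝ) * (3 : ℝ)⁻¹)) rfl
    ((1 : ℝ) + l2.zz * ((1 : ℝ) * (3 : ℝ)⁻¹)) rfl
    l2.Lv l2.e_Lv
    (l2.zz * l2.zz) rfl
    l2.eL (l2.e_eL.trans (congrArg (fun y : ℝ => y * (l2.zz * l2.zz)) zLMa_219915747328_0))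
    (lv.D2R * l2.Lv) rfl
    ((1 / 2) * (lv.D2R * l2.Lv)) (congrArg (fun y : ℝ => y * (lv.D2R * l2.Lv)) zLMa_549755813888_0)
    lv.rplo lv.e_rplo
    (lv.D2R * l2.eL) rfl
    ((1 / 2) * (lv.D2R * l2.eL)) (congrArg (fun y : ℝ => y * (lv.D2R * l2.eL)) zLMa_549755813888_0)
    lv.erp lv.e_erp
    lv.rphi lv.e_rphi
    (r * lv.rlo) rfl
    (-(r * lv.rlo)) rfl
    q e_q
    (r * lv.er) rfl
    th e_th
    (r * lv.rplo) rfl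
    (-(r * lv.rplo)) rfl
    qp e_qp
    (r * lv.erp) rfl
    thp e_thp
    (v.om * v.K) rfl
    (v.c0 + v.om * v.K) rfl).2
    v.ioK v.e_ioK
    v.h1t v.e_h1t
    (v.om1 * v.t) rfl
    v.h1 v.e_h1
    ((1 : ℝ) - v.u2) rfl
    v.f2 v.e_f2
    v.tu2 v.e_tu2
    ((1 : ℝ) - v.nj2) rfl
    v5.sn v5.e_sn
    (v.R * v.rhat) rfl).2
    (v.SQ⁻¹) rfl
    v5.R1 v5.e_R1
    (v.c0 + v5.R1) rfl
    v5.Qr v5.e_Qr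
    (v5.Qr * v5.Qr) rfl).2
    ((v5.Qr * v5.Qr)⁻¹) rfl
    v5.Th v5.e_Th
    (v.c0 + v.R) rfl
    (S * (v.c0 + v.R)) rfl).2
    ((S * (v.c0 + v.R))⁻¹) rfl
    wv e_w
    (wv * wv) rfl
    xv e_x
    (1263 / 128 : ℝ) zLMa_10849087389696_0
    ((1263 / 128 : ℝ) - xv) rfl
  change 0 < (1263 / 128 : ℝ) - xv at p_xq
  obtain ⟨p_o2, s1⟩ := (s0
    (13 / 1099511627776 : ℝ) zLMa_13_0
    (2295 / 1099511627776 : ℝ) zLMa_2295_0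
    (xv * (13 / 1099511627776 : ℝ)) rfl
    ((2295 / 1099511627776 : ℝ) - xv * (13 / 1099511627776 : ℝ)) rfl
    (75749 / 274877906944 : ℝ) zLMa_302996_0
    (xv * ((2295 / 1099511627776 : ℝ) - xv * (13 / 1099511627776 : ℝ))) rfl
    ((75749 / 274877906944 : ℝ) - xv * ((2295 / 1099511627776 : ℝ) - xv * (13 / 1099511627776 : ℝ))) rfl
    (27269633 / 1099511627776 : ℝ) zLMa_27269633_0
    (xv * ((75749 / 274877906944 : ℝ) - xv * ((2295 / 1099511627776 : ℝ) - xv * (13 / 1099511627776 : ℝ)))) rfl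
    ((27269633 / 1099511627776 : ℝ) - xv * ((75749 / 274877906944 : ℝ) - xv * ((2295 / 1099511627776 : ℝ) - xv * (13 / 1099511627776 : ℝ)))) rfl
    (381774871 / 274877906944 : ℝ) zLMa_1527099484_0
    (xv * ((27269633 / 1099511627776 : ℝ) - xv * ((75749 / 274877906944 : ℝ) - xv * ((2295 / 1099511627776 : ℝ) - xv * (13 / 1099511627776 : ℝ))))) rfl
    ((381774871 / 274877906944 : ℝ) - xv * ((27269633 / 1099511627776 : ℝ) - xv * ((75749 / 274877906944 : ℝ) - xv * ((2295 / 1099511627776 : ℝ) - xv * (13 / 1099511627776 : ℝ))))) rfl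
    (22906492245 / 549755813888 : ℝ) zLMa_45812984490_0
    (xv * ((381774871 / 274877906944 : ℝ) - xv * ((27269633 / 1099511627776 : ℝ) - xv * ((75749 / 274877906944 : ℝ) - xv * ((2295 / 1099511627776 : ℝ) - xv * (13 / 1099511627776 : ℝ)))))) rfl
    ((22906492245 / 549755813888 : ℝ) - xv * ((381774871 / 274877906944 : ℝ) - xv * ((27269633 / 1099511627776 : ℝ) - xv * ((75749 / 274877906944 : ℝ) - xv * ((2295 / 1099511627776 : ℝ) - xv * (13 / 1099511627776 : ℝ)))))) rfl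
    (xv * ((22906492245 / 549755813888 : ℝ) - xv * ((381774871 / 274877906944 : ℝ) - xv * ((27269633 / 1099511627776 : ℝ) - xv * ((75749 / 274877906944 : ℝ) - xv * ((2295 / 1099511627776 : ℝ) - xv * (13 / 1099511627776 : ℝ))))))) rfl
    ((1 / 2 : ℝ) - xv * ((22906492245 / 549755813888 : ℝ) - xv * ((381774871 / 274877906944 : ℝ) - xv * ((27269633 / 1099511627776 : ℝ) - xv * ((75749 / 274877906944 : ℝ) - xv * ((2295 / 1099511627776 : ℝ) - xv * (13 / 1099511627776 : ℝ))))))) rfl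
    (xv * ((1 / 2 : ℝ) - xv * ((22906492245 / 549755813888 : ℝ) - xv * ((381774871 / 274877906944 : ℝ) - xv * ((27269633 / 1099511627776 : ℝ) - xv * ((75749 / 274877906944 : ℝ) - xv * ((2295 / 1099511627776 : ℝ) - xv * (13 / 1099511627776 : ℝ)))))))) rfl
    cc e_cc
    b.q1 b.e_q1
    (q * q) rfl
    (q * q + (1 : ℝ)) rfl
    (q * cc) rfl
    (2 * (q * cc)) (congrArg (fun y : ℝ => y * (q * cc)) zLMa_2199023255552_0)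
    (q * q + (1 : ℝ) + 2 * (q * cc)) rfl
    (4 * th) (congrArg (fun y : ℝ => y * th) zLMa_4398046511104_0)
    b.o2 b.e_o2).2
    (b.q1⁻¹) rfl
    (b.o2 * b.q1⁻¹) rfl
    b.P1 b.e_P1
    (q * v.h1) rfl
    b.qh (b.e_qh.trans (congrArg (fun y : ℝ => y * (q * v.h1)) zLMa_549755813888_0))
    (b.qh * b.P1) rfl
    b.W b.e_W
  change 0 < b.o2 at p_o2
  obtain ⟨p_W, s2⟩ := s1
  change 0 < b.W at p_W
  obtain ⟨p_hg, s3⟩ := (((s2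
    ((1 : ℝ) - q) rfl
    (((1 : ℝ) - q) * b.q1) rfl
    (2 * th) (congrArg (fun y : ℝ => y * th) zLMa_2199023255552_0)
    (((1 : ℝ) - q) * b.q1 + 2 * th) rfl).2
    (b.W⁻¹) rfl
    ((((1 : ℝ) - q) * b.q1 + 2 * th) * b.W⁻¹) rfl
    gv (e_g.trans (congrArg (fun y : ℝ => y * ((((1 : ℝ) - q) * b.q1 + 2 * th) * b.W⁻¹)) zLMa_549755813888_0))
    (gv + (1 / 2 : ℝ)) rfl).2
    ((gv + (1 / 2 : ℝ))⁻¹) rfl
    ga e_ga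
    hg e_hg
    ((1 / 2) * hg) (congrArg (fun y : ℝ => y * hg) zLMa_549755813888_0)
    ((1 : ℝ) - (1 / 2) * hg) rfl
    ((1 : ℝ) - hg) rfl).2
    (((1 : ℝ) - hg)⁻¹) rfl
    lsf e_lsf
    (hg + (1 : ℝ)) rfl
    Qb e_Qb
    (v.h1t * lsf) rfl
    lsx e_lsx
    ls e_ls
  change 0 < (1 : ℝ) - hg at p_hg
  obtain ⟨p_rplo, s4⟩ := (s3
    (v.om1 * v.op1) rfl
    (v.c0 + v.t) rfl
    (v.om * v.c0) rfl
    (v.om * v.c0 * v.K) rfl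
    (2 * (v.om * v.c0 * v.K)) (congrArg (fun y : ℝ => y * (v.om * v.c0 * v.K)) zLMa_2199023255552_0)
    (v.c2 + 2 * (v.om * v.c0 * v.K)) rfl
    ((v.c0 + v.t) * (v.c2 + 2 * (v.om * v.c0 * v.K))) rfl).2
    (((v.c0 + v.t) * (v.c2 + 2 * (v.om * v.c0 * v.K)))⁻¹) rfl
    v3.hpt v3.e_hpt
    v3.hp v3.e_hp
  change 0 < lv.rplo at p_rplo
  obtain ⟨p_xqp, s5⟩ := s4
    xpv e_xp
    ((1263 / 128 : ℝ) - xpv) rfl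
  change 0 < (1263 / 128 : ℝ) - xpv at p_xqp
  obtain ⟨p_o2p, s6⟩ := (s5
    (xpv * (13 / 1099511627776 : ℝ)) rfl
    ((2295 / 1099511627776 : ℝ) - xpv * (13 / 1099511627776 : ℝ)) rfl
    (xpv * ((2295 / 1099511627776 : ℝ) - xpv * (13 / 1099511627776 : ℝ))) rfl
    ((75749 / 274877906944 : ℝ) - xpv * ((2295 / 1099511627776 : ℝ) - xpv * (13 / 1099511627776 : ℝ))) rfl
    (xpv * ((75749 / 274877906944 : ℝ) - xpv * ((2295 / 1099511627776 : ℝ) - xpv * (13 / 1099511627776 : ℝ)))) rfl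
    ((27269633 / 1099511627776 : ℝ) - xpv * ((75749 / 274877906944 : ℝ) - xpv * ((2295 / 1099511627776 : ℝ) - xpv * (13 / 1099511627776 : ℝ)))) rfl
    (xpv * ((27269633 / 1099511627776 : ℝ) - xpv * ((75749 / 274877906944 : ℝ) - xpv * ((2295 / 1099511627776 : ℝ) - xpv * (13 / 1099511627776 : ℝ))))) rfl
    ((381774871 / 274877906944 : ℝ) - xpv * ((27269633 / 1099511627776 : ℝ) - xpv * ((75749 / 274877906944 : ℝ) - xpv * ((2295 / 1099511627776 : ℝ) - xpv * (13 / 1099511627776 : ℝ))))) rfl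
    (xpv * ((381774871 / 274877906944 : ℝ) - xpv * ((27269633 / 1099511627776 : ℝ) - xpv * ((75749 / 274877906944 : ℝ) - xpv * ((2295 / 1099511627776 : ℝ) - xpv * (13 / 1099511627776 : ℝ)))))) rfl
    ((22906492245 / 549755813888 : ℝ) - xpv * ((381774871 / 274877906944 : ℝ) - xpv * ((27269633 / 1099511627776 : ℝ) - xpv * ((75749 / 274877906944 : ℝ) - xpv * ((2295 / 1099511627776 : ℝ) - xpv * (13 / 1099511627776 : ℝ)))))) rfl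
    (xpv * ((22906492245 / 549755813888 : ℝ) - xpv * ((381774871 / 274877906944 : ℝ) - xpv * ((27269633 / 1099511627776 : ℝ) - xpv * ((75749 / 274877906944 : ℝ) - xpv * ((2295 / 1099511627776 : ℝ) - xpv * (13 / 1099511627776 : ℝ))))))) rfl
    ((1 / 2 : ℝ) - xpv * ((22906492245 / 549755813888 : ℝ) - xpv * ((381774871 / 274877906944 : ℝ) - xpv * ((27269633 / 1099511627776 : ℝ) - xpv * ((75749 / 274877906944 : ℝ) - xpv * ((2295 / 1099511627776 : ℝ) - xpv * (13 / 1099511627776 : ℝ))))))) rfl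
    (xpv * ((1 / 2 : ℝ) - xpv * ((22906492245 / 549755813888 : ℝ) - xpv * ((381774871 / 274877906944 : ℝ) - xpv * ((27269633 / 1099511627776 : ℝ) - xpv * ((75749 / 274877906944 : ℝ) - xpv * ((2295 / 1099511627776 : ℝ) - xpv * (13 / 1099511627776 : ℝ)))))))) rfl
    ccp e_ccp
    b'.q1 b'.e_q1
    (qp * qp) rfl
    (qp * qp + (1 : ℝ)) rfl
    (qp * ccp) rfl
    (2 * (qp * ccp)) (congrArg (fun y : ℝ => y * (qp * ccp)) zLMa_2199023255552_0)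
    (qp * qp + (1 : ℝ) + 2 * (qp * ccp)) rfl
    (4 * thp) (congrArg (fun y : ℝ => y * thp) zLMa_4398046511104_0)
    b'.o2 b'.e_o2).2
    (b'.q1⁻¹) rfl
    (b'.o2 * b'.q1⁻¹) rfl
    b'.P1 b'.e_P1
    (qp * v3.hp) rfl
    b'.qh (b'.e_qh.trans (congrArg (fun y : ℝ => y * (qp * v3.hp)) zLMa_549755813888_0))
    (b'.qh * b'.P1) rfl
    b'.W b'.e_W
  change 0 < b'.o2 at p_o2p
  obtain ⟨p_Wp, s7⟩ := s6
  change 0 < b'.W at p_Wp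
  obtain ⟨p_lspa, s8⟩ := ((((((((((((((((s7
    ((1 : ℝ) - qp) rfl
    (((1 : ℝ) - qp) * b'.q1) rfl
    (2 * thp) (congrArg (fun y : ℝ => y * thp) zLMa_2199023255552_0)
    (((1 : ℝ) - qp) * b'.q1 + 2 * thp) rfl).2
    (b'.W⁻¹) rfl
    ((((1 : ℝ) - qp) * b'.q1 + 2 * thp) * b'.W⁻¹) rfl
    gpv (e_gp.trans (congrArg (fun y : ℝ => y * ((((1 : ℝ) - qp) * b'.q1 + 2 * thp) * b'.W⁻¹)) zLMa_549755813888_0))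
    (gpv + (1 / 2 : ℝ)) rfl).2
    ((gpv + (1 / 2 : ℝ))⁻¹) rfl
    gap e_gap
    hgp e_hgp
    gu e_gu
    (v.h + (1 : ℝ)) rfl).2
    v2.ih v2.e_ih
    (v.h * v2.ih) rfl
    v2.rh (v2.e_rh.trans (congrArg (fun y : ℝ => y * (v.h * v2.ih)) zLMa_2199023255552_0))
    v2.mi v2.e_mi
    v2.hm v2.e_hm
    v2.nih v2.e_nih
    (v2.nih * v2.mi) rfl
    v2.bsum v2.e_bsum
    ((209 / 1024) * v.j) (congrArg (fun y : ℝ => y * v.j) zLMa_224412041216_0)).2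
    (v2.Yp⁻¹) rfl
    v2.lm v2.e_lm
    (4 * S) (congrArg (fun y : ℝ => y * S) zLMa_4398046511104_0)
    ((1 : ℝ) * v.nj) rfl
    (4 * S + (1 : ℝ) * v.nj) rfl
    G4 (e_G4.trans (congrArg (fun y : ℝ => y * (4 * S + (1 : ℝ) * v.nj)) zLMa_549755813888_0))).2
    xa.iG4 xa.e_iG4
    xa.alG xa.e_alG
    xa.AE xa.e_AE
    (xa.AE * v.op1) rfl
    xa.XeE xa.e_XeE
    (xa.alG * v.op1) rfl
    xa.XM xa.e_XM
    ((1 : ℝ) - xa.XM) rfl).2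
    xa.iX xa.e_iX
    xa.QX xa.e_QX
    ((1 : ℝ) - xa.QX) rfl).2
    xa.iQX xa.e_iQX
    (2 * eps) (congrArg (fun y : ℝ => y * eps) zLMa_2199023255552_0)
    Ei e_Ei
    Eh e_Eh
    (S * v.nj) rfl
    (1 * (S * v.nj)) (congrArg (fun y : ℝ => y * (S * v.nj)) zLMa_1099511627776_0)
    (1 * v.t) (congrArg (fun y : ℝ => y * v.t) zLMa_1099511627776_0)
    (1 * (S * v.nj) + 1 * v.t) rfl
    (z * (1 * (S * v.nj) + 1 * v.t)) rfl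
    phux (e_phux.trans (congrArg (fun y : ℝ => y * (z * (1 * (S * v.nj) + 1 * v.t))) zLMa_549755813888_0))
    (v.h * v.nj) rfl
    ((1 : ℝ) - v.f2) rfl
    (v.h * v.om) rfl
    (2 * (v.h * v.om)) (congrArg (fun y : ℝ => y * (v.h * v.om)) zLMa_2199023255552_0)
    ((1 : ℝ) - v.f2 - 2 * (v.h * v.om)) rfl
    (v.h * v.nj * (v.h * v.nj)) rfl
    xa.N1 xa.e_N1
    (xa.N1 + (1 : ℝ)) rfl
    xa.s (xa.e_s.trans (congrArg (fun y : ℝ => y * (xa.N1 + (1 : ℝ))) zLMa_549755813888_0))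
    ((1 / 2) * v.R) (congrArg (fun y : ℝ => y * v.R) zLMa_549755813888_0)
    (v.j - (1 / 2) * v.R) rfl
    (v.tu2 * ((1 : ℝ) - v.f2)) rfl
    (v.tu2 * ((1 : ℝ) - v.f2) * v.jm) rfl
    ((1 / 8) * (v.tu2 * ((1 : ℝ) - v.f2) * v.jm)) (congrArg (fun y : ℝ => y * (v.tu2 * ((1 : ℝ) - v.f2) * v.jm)) zLMa_137438953472_0)
    (v.j - (1 / 2) * v.R + (1 / 8) * (v.tu2 * ((1 : ℝ) - v.f2) * v.jm)) rfl
    xa.k0 xa.e_k0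
    (1 / 1099511627776 : ℝ) zLMa_1_0
    (3 / 274877906944 : ℝ) zLMa_12_0
    (xv * (1 / 1099511627776 : ℝ)) rfl
    ((3 / 274877906944 : ℝ) - xv * (1 / 1099511627776 : ℝ)) rfl
    (287 / 137438953472 : ℝ) zLMa_2296_0
    (xv * ((3 / 274877906944 : ℝ) - xv * (1 / 1099511627776 : ℝ))) rfl
    ((287 / 137438953472 : ℝ) - xv * ((3 / 274877906944 : ℝ) - xv * (1 / 1099511627776 : ℝ))) rfl
    (302995 / 1099511627776 : ℝ) zLMa_302995_0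
    (xv * ((287 / 137438953472 : ℝ) - xv * ((3 / 274877906944 : ℝ) - xv * (1 / 1099511627776 : ℝ)))) rfl
    ((302995 / 1099511627776 : ℝ) - xv * ((287 / 137438953472 : ℝ) - xv * ((3 / 274877906944 : ℝ) - xv * (1 / 1099511627776 : ℝ)))) rfl
    (13634817 / 549755813888 : ℝ) zLMa_27269634_0
    (xv * ((302995 / 1099511627776 : ℝ) - xv * ((287 / 137438953472 : ℝ) - xv * ((3 / 274877906944 : ℝ) - xv * (1 / 1099511627776 : ℝ))))) rfl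
    ((13634817 / 549755813888 : ℝ) - xv * ((302995 / 1099511627776 : ℝ) - xv * ((287 / 137438953472 : ℝ) - xv * ((3 / 274877906944 : ℝ) - xv * (1 / 1099511627776 : ℝ))))) rfl
    (1527099483 / 1099511627776 : ℝ) zLMa_1527099483_0
    (xv * ((13634817 / 549755813888 : ℝ) - xv * ((302995 / 1099511627776 : ℝ) - xv * ((287 / 137438953472 : ℝ) - xv * ((3 / 274877906944 : ℝ) - xv * (1 / 1099511627776 : ℝ)))))) rfl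
    ((1527099483 / 1099511627776 : ℝ) - xv * ((13634817 / 549755813888 : ℝ) - xv * ((302995 / 1099511627776 : ℝ) - xv * ((287 / 137438953472 : ℝ) - xv * ((3 / 274877906944 : ℝ) - xv * (1 / 1099511627776 : ℝ)))))) rfl
    (45812984491 / 1099511627776 : ℝ) zLMa_45812984491_0
    (xv * ((1527099483 / 1099511627776 : ℝ) - xv * ((13634817 / 549755813888 : ℝ) - xv * ((302995 / 1099511627776 : ℝ) - xv * ((287 / 137438953472 : ℝ) - xv * ((3 / 274877906944 : ℝ) - xv * (1 / 1099511627776 : ℝ))))))) rfl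
    ((45812984491 / 1099511627776 : ℝ) - xv * ((1527099483 / 1099511627776 : ℝ) - xv * ((13634817 / 549755813888 : ℝ) - xv * ((302995 / 1099511627776 : ℝ) - xv * ((287 / 137438953472 : ℝ) - xv * ((3 / 274877906944 : ℝ) - xv * (1 / 1099511627776 : ℝ))))))) rfl
    (xv * ((45812984491 / 1099511627776 : ℝ) - xv * ((1527099483 / 1099511627776 : ℝ) - xv * ((13634817 / 549755813888 : ℝ) - xv * ((302995 / 1099511627776 : ℝ) - xv * ((287 / 137438953472 : ℝ) - xv * ((3 / 274877906944 : ℝ) - xv * (1 / 1099511627776 : ℝ)))))))) rfl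
    ((1 / 2 : ℝ) - xv * ((45812984491 / 1099511627776 : ℝ) - xv * ((1527099483 / 1099511627776 : ℝ) - xv * ((13634817 / 549755813888 : ℝ) - xv * ((302995 / 1099511627776 : ℝ) - xv * ((287 / 137438953472 : ℝ) - xv * ((3 / 274877906944 : ℝ) - xv * (1 / 1099511627776 : ℝ)))))))) rfl
    (xv * ((1 / 2 : ℝ) - xv * ((45812984491 / 1099511627776 : ℝ) - xv * ((1527099483 / 1099511627776 : ℝ) - xv * ((13634817 / 549755813888 : ℝ) - xv * ((302995 / 1099511627776 : ℝ) - xv * ((287 / 137438953472 : ℝ) - xv * ((3 / 274877906944 : ℝ) - xv * (1 / 1099511627776 : ℝ))))))))) rfl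
    cu e_cu
    xe e_xe
    (xe * xe) rfl
    ((43 / 128) * (xe * xe)) (congrArg (fun y : ℝ => y * (xe * xe)) zLMa_369367187456_0)
    (cu + (43 / 128) * (xe * xe)) rfl
    (q * (cu + (43 / 128) * (xe * xe))) rfl
    (2 * (q * (cu + (43 / 128) * (xe * xe)))) (congrArg (fun y : ℝ => y * (q * (cu + (43 / 128) * (xe * xe)))) zLMa_2199023255552_0)
    (q * q + (1 : ℝ) + 2 * (q * (cu + (43 / 128) * (xe * xe)))) rfl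
    o2u e_o2u
    (1 / 128 : ℝ) zLMa_8589934592_0
    (o2u + (1 / 128 : ℝ)) rfl).2
    (Real.log (o2u + (1 / 128 : ℝ))) rfl
    ((1 / 2) * Real.log (o2u + (1 / 128 : ℝ))) (congrArg (fun y : ℝ => y * Real.log (o2u + (1 / 128 : ℝ))) zLMa_549755813888_0)
    ooo e_ooo
    (q * hg) rfl
    Q1 e_Q1
    (Q1 * xa.iX) rfl
    (Qb * xa.iQX) rfl
    (Q1 * xa.iX + Qb * xa.iQX) rfl
    (xa.XM * (Q1 * xa.iX + Qb * xa.iQX)) rfl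
    (ls + xa.XM * (Q1 * xa.iX + Qb * xa.iQX)) rfl
    xa.a0 xa.e_a0
    (Q1 * xa.XM) rfl
    (Q1 * xa.XM * xa.iX) rfl
    (ls + Q1 * xa.XM * xa.iX) rfl
    xa.l1 xa.e_l1
    ((13 / 64) * xa.l1) (congrArg (fun y : ℝ => y * xa.l1) zLMa_223338299392_0)
    ((1 / 2 : ℝ) + (13 / 64) * xa.l1) rfl
    (xa.l1 * ((1 / 2 : ℝ) + (13 / 64) * xa.l1)) rfl
    xa.Na xa.e_Na
    ((13 / 16) * xa.a0) (congrArg (fun y : ℝ => y * xa.a0) zLMa_893353197568_0)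
    ((1 : ℝ) + (13 / 16) * xa.a0) rfl
    (xa.a0 * ((1 : ℝ) + (13 / 16) * xa.a0)) rfl
    xa.Nb xa.e_Nb
    (v2.rh * v2.nih) rfl
    (v2.rh * v2.nih * Ei) rfl
    xa.rn xa.e_rn
    (xa.k0 * xa.Na) rfl
    (v.aQ + (1 / 2 : ℝ)) rfl
    (xa.rn * (v.aQ + (1 / 2 : ℝ))) rfl
    xa.ka xa.e_ka
    (v.aQ + (1 : ℝ)) rfl
    xa.kb xa.e_kb
    (Eh * (v.aQ + (1 : ℝ))) rfl
    (Eh * (v.aQ + (1 : ℝ)) * v2.nih) rfl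
    xa.lfk xa.e_lfk
    (xa.ka * lsx) rfl
    (xa.lfk * phux) rfl
    xa.kl xa.e_kl
    (r * v2.bsum) rfl).2
    (v.aQ⁻¹) rfl
    (r * v2.bsum * v.aQ⁻¹) rfl
    ((1 / 2) * (r * v2.bsum * v.aQ⁻¹)) (congrArg (fun y : ℝ => y * (r * v2.bsum * v.aQ⁻¹)) zLMa_549755813888_0)
    (v.om1 * ((1 / 2) * (r * v2.bsum * v.aQ⁻¹))) rfl
    srcx e_srcx
    srcs e_srcs
    yb.src yb.e_src
    (xa.ka * Q1) rfl
    (xa.ka * Q1 * xa.iX) rfl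
    (xa.kb * Qb) rfl
    (xa.kb * Qb * xa.iQX) rfl
    yb.fxe yb.e_fxe
    (v.om1 * yb.src) rfl
    (xa.XeE * yb.fxe) rfl
    yb.epd yb.e_epd
    (v.tu2 * yb.epd) rfl
    (v.tu2 * yb.epd * v.aQ⁻¹) rfl
    ((1 : ℝ) - v.tu2 * yb.epd * v.aQ⁻¹) rfl).2
    yb.NN yb.e_NN
    yb.eN yb.e_eN
    yb.d yb.e_d
    yb.eta yb.e_eta
    (yb.eta * v.aQ⁻¹) rfl
    ((1 : ℝ) - yb.eta * v.aQ⁻¹) rfl
    (v.rhat * ((1 : ℝ) - yb.eta * v.aQ⁻¹)) rfl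
    yb.rl yb.e_rl).2
    yb.irl yb.e_irl
    yb.yy yb.e_yy
    (v.aQ - yb.eta) rfl).2
    yb.q0 yb.e_q0
    yb.zp yb.e_zp
    ((1 / 2) * yb.zp) (congrArg (fun y : ℝ => y * yb.zp) zLMa_549755813888_0)
    ((1 : ℝ) - (1 / 2) * yb.zp) rfl
    ((1 : ℝ) - yb.zp) rfl).2
    (((1 : ℝ) - yb.zp)⁻¹) rfl
    yb.kzp yb.e_kzp
    (v.u * yb.q0) rfl
    (gu * yb.irl) rfl
    (gu * yb.irl * yb.kzp) rfl
    yb.Cu yb.e_Cu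
    (tr * yb.eN) rfl
    (yb.q0 * (tr * yb.eN)) rfl
    (gap * yb.irl) rfl
    (gap * yb.irl * yb.kzp) rfl
    (gap * yb.irl * yb.kzp * yb.d) rfl
    yb.rr yb.e_rr
    ((13 / 64) * yb.rr) (congrArg (fun y : ℝ => y * yb.rr) zLMa_223338299392_0)
    ((1 / 2 : ℝ) + (13 / 64) * yb.rr) rfl
    (yb.rr * ((1 / 2 : ℝ) + (13 / 64) * yb.rr)) rfl
    ((1 : ℝ) + yb.rr * ((1 / 2 : ℝ) + (13 / 64) * yb.rr)) rfl
    (yb.Cu * ((1 : ℝ) + yb.rr * ((1 / 2 : ℝ) + (13 / 64) * yb.rr))) rfl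
    yb.CuN yb.e_CuN
    yb.fbt yb.e_fbt
    yb.XLt yb.e_XLt
    (5 : ℝ) zLMa_5497558138880_0).2
    ((5 : ℝ)⁻¹) rfl
    yb.beta yb.e_beta
    ((v.h + (1 : ℝ)) * v.op1) rfl
    yb.b1 yb.e_b1
    pk.omr pk.e_omr
    pk.omp pk.e_omp
    ((1 / 2) * hgp) (congrArg (fun y : ℝ => y * hgp) zLMa_549755813888_0)
    ((1 : ℝ) - (1 / 2) * hgp) rfl
    ((1 : ℝ) - hgp) rfl).2
    (((1 : ℝ) - hgp)⁻¹) rfl
    (((1 : ℝ) - (1 / 2) * hgp) * ((1 : ℝ) - hgp)⁻¹) rfl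
    pk.lspf pk.e_lspf
    (v.tu2 * v5.Th) rfl
    ((2731 / 4096) * (v.tu2 * v5.Th)) (congrArg (fun y : ℝ => y * (v.tu2 * v5.Th)) zLMa_733097230336_0)
    ((1 : ℝ) - (2731 / 4096) * (v.tu2 * v5.Th)) rfl
    (v5.Th * ((1 : ℝ) - (2731 / 4096) * (v.tu2 * v5.Th))) rfl
    (lv.rplo * lv.rplo) rfl
    (v.u2 * (lv.rplo * lv.rplo)) rfl
    pk.E0 pk.e_E0
    pk.lspa pk.e_lspa
    (pk.E0 + (1 : ℝ)) rfl
    (pk.lspa * (pk.E0 + (1 : ℝ))) rfl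
    (pk.E0 - pk.lspa * (pk.E0 + (1 : ℝ))) rfl
    ((2731 / 8192) * (v.K * v.K)) (congrArg (fun y : ℝ => y * (v.K * v.K)) zLMa_366548615168_0)
    ((1 : ℝ) - (2731 / 8192) * (v.K * v.K)) rfl
    (v.nj2 * ((1 : ℝ) - (2731 / 8192) * (v.K * v.K))) rfl
    (pk.E0 - pk.lspa * (pk.E0 + (1 : ℝ)) + v.nj2 * ((1 : ℝ) - (2731 / 8192) * (v.K * v.K))) rfl
    (pk.omr * (pk.E0 - pk.lspa * (pk.E0 + (1 : ℝ)) + v.nj2 * ((1 : ℝ) - (2731 / 8192) * (v.K * v.K)))) rfl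
    (pk.omp * pk.omp) rfl
    ((1 : ℝ) + pk.omp * pk.omp) rfl).2
    (((1 : ℝ) + pk.omp * pk.omp)⁻¹) rfl
    pk.pe pk.e_pe
    ((1 : ℝ) - yb.yy) rfl
    pk.ye pk.e_ye
    ((1 : ℝ) - pk.lspa) rfl
  change 0 < (1 : ℝ) - pk.lspa at p_lspa
  obtain ⟨p_pe, s9⟩ := s8
  change 0 < pk.pe at p_pe
  obtain ⟨p_yy, s10⟩ := s9
  change 0 < (1 : ℝ) - yb.yy at p_yy
  obtain ⟨p_XM, s11⟩ := ((((((s10
    (yb.CuN * G4) rfl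
    (yb.CuN * G4 * srcx) rfl).2
    (v.op1⁻¹) rfl
    cl.FXt cl.e_FXt
    y1 e_y1
    (v.t * y1) rfl
    ((1 / 2) * (v.t * y1)) (congrArg (fun y : ℝ => y * (v.t * y1)) zLMa_549755813888_0)
    ((1 : ℝ) - (1 / 2) * (v.t * y1)) rfl
    (y1 * ((1 : ℝ) - (1 / 2) * (v.t * y1))) rfl
    cl.S1 cl.e_S1
    (v.u * v.n) rfl
    (v.u * v.n * (v.h + (1 : ℝ))) rfl
    (v.u * v.n * (v.h + (1 : ℝ)) * v.j) rfl
    cl.a4 cl.e_a4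
    (cl.S1 + cl.a4) rfl
    (cl.S1 * cl.a4) rfl
    (v.t * (cl.S1 * cl.a4)) rfl
    cl.S4 cl.e_S4
    cl.Dh cl.e_Dh
    ((3 / 8) * v.D) (congrArg (fun y : ℝ => y * v.D) zLMa_412316860416_0)
    ((1 / 2 : ℝ) - (3 / 8) * v.D) rfl
    (cl.Dh * ((1 / 2 : ℝ) - (3 / 8) * v.D)) rfl
    ((1 : ℝ) * (cl.Dh * ((1 / 2 : ℝ) - (3 / 8) * v.D))) rfl
    cl.a5 cl.e_a5
    (cl.S4 + cl.a5) rfl
    (cl.S4 * cl.a5) rfl
    (v.t * (cl.S4 * cl.a5)) rfl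
    cl.S5 cl.e_S5
    (v.u * yb.eN) rfl
    (v.u * yb.eN * v.op1⁻¹) rfl
    cl.a6 cl.e_a6
    (cl.S5 + cl.a6) rfl
    (cl.S5 * cl.a6) rfl
    (v.t * (cl.S5 * cl.a6)) rfl
    cl.S6 cl.e_S6
    cl.a7 cl.e_a7
    (cl.S6 - cl.a7) rfl
    (v.t * yb.b1) rfl
    ((1 : ℝ) + v.t * yb.b1) rfl).2
    (((1 : ℝ) + v.t * yb.b1)⁻¹) rfl
    cl.S7 cl.e_S7
    (v.u * v.tu) rfl
    (v.u * v.tu * yb.eN) rfl
    (v.u * v.tu * yb.eN * yb.q0) rfl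
    cl.a8 cl.e_a8
    (cl.S7 + cl.a8) rfl
    (cl.S7 * cl.a8) rfl
    (v.t * (cl.S7 * cl.a8)) rfl
    cl.S8 cl.e_S8
    (v.t * cl.S8) rfl
    cl.c1 cl.e_c1
    (yb.fbt * xa.XM) rfl
    (v.t * yb.XLt) rfl
    (cl.FXt * (v.t * yb.XLt)) rfl
    (yb.fbt * xa.XM + cl.FXt * (v.t * yb.XLt)) rfl
    cl.rt cl.e_rt
    (yb.fbt + cl.FXt) rfl
    cl.fm cl.e_fm
    (cl.rt * cl.c1) rfl
    (cl.S8 + cl.rt * cl.c1) rfl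
    (cl.S8 + cl.rt * cl.c1 + cl.fm) rfl
    cl.Bm cl.e_Bm
    ((1 / 1024) * (1 : ℝ)) (congrArg (fun y : ℝ => y * (1 : ℝ)) zLMa_1073741824_0)
    (cl.Bm - (1 / 1024) * (1 : ℝ)) rfl
    yb.m1 yb.e_m1
    (yb.m1 + (2 : ℝ)) rfl
    (2 * yb.beta) (congrArg (fun y : ℝ => y * yb.beta) zLMa_2199023255552_0)
    (yb.m1 + (2 : ℝ) - 2 * yb.beta) rfl
    ((v.h + (1 : ℝ)) * (yb.m1 + (2 : ℝ) - 2 * yb.beta)) rfl
    (yb.m1 * (2 * yb.beta)) rfl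
    (yb.m1 * (2 * yb.beta) + (1 : ℝ)) rfl).2
    ((yb.m1 * (2 * yb.beta) + (1 : ℝ))⁻¹) rfl
    ((v.h + (1 : ℝ)) * (yb.m1 + (2 : ℝ) - 2 * yb.beta) * (yb.m1 * (2 * yb.beta) + (1 : ℝ))⁻¹) rfl
    (xa.AE * yb.fxe) rfl
    ((1 / 2) * v2.lm) (congrArg (fun y : ℝ => y * v2.lm) zLMa_549755813888_0)
    (v.K + (1 / 2) * v2.lm) rfl
    (xa.AE * yb.fxe * (v.K + (1 / 2) * v2.lm)) rfl
    (2 * (xa.AE * yb.fxe * (v.K + (1 / 2) * v2.lm))) (congrArg (fun y : ℝ => y * (xa.AE * yb.fxe * (v.K + (1 / 2) * v2.lm))) zLMa_2199023255552_0)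
    (yb.src + 2 * (xa.AE * yb.fxe * (v.K + (1 / 2) * v2.lm))) rfl
    (2 * (yb.src + 2 * (xa.AE * yb.fxe * (v.K + (1 / 2) * v2.lm)))) (congrArg (fun y : ℝ => y * (yb.src + 2 * (xa.AE * yb.fxe * (v.K + (1 / 2) * v2.lm)))) zLMa_2199023255552_0)
    (2 * (yb.src + 2 * (xa.AE * yb.fxe * (v.K + (1 / 2) * v2.lm))) * yb.NN) rfl
    (v.tu * yb.eN) rfl
    (v.op1 - v.tu * yb.eN) rfl).2
    ((v.op1 - v.tu * yb.eN)⁻¹) rfl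
    (2 * (yb.src + 2 * (xa.AE * yb.fxe * (v.K + (1 / 2) * v2.lm))) * yb.NN * (v.op1 - v.tu * yb.eN)⁻¹) rfl
    yb.V yb.e_V
    ((1 : ℝ) * v.nj * ((1 : ℝ) * v.nj)) rfl
    (13 : ℝ) zLMa_14293651161088_0
    (10 : ℝ) zLMa_10995116277760_0).2
    ((10 : ℝ)⁻¹) rfl
    ((13 : ℝ) * (10 : ℝ)⁻¹) rfl
    ((1 : ℝ) * v.nj * ((1 : ℝ) * v.nj) * ((13 : ℝ) * (10 : ℝ)⁻¹)) rfl
    (S * S) rfl
    (25 * (S * S)) (congrArg (fun y : ℝ => y * (S * S)) zLMa_27487790694400_0)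
    yb.C2 yb.e_C2
    yb.gr yb.e_gr
    (2 * v.c0 - v.t) rfl
    yb.Gt yb.e_Gt
    ((1 : ℝ) * v.u) rfl
    yb.au yb.e_au
    (v.op1 * yb.fxe) rfl
    (v.op1 * yb.fxe * xa.iG4) rfl
    yb.inner yb.e_inner
    (v.tu * yb.eN + (2 : ℝ)) rfl
    yb.ezs yb.e_ezs
    (yb.C2 * yb.gr) rfl
    (yb.NN * yb.ezs) rfl
    (yb.au * yb.inner) rfl
    (yb.NN * yb.ezs * (yb.au * yb.inner)) rfl
    yb.Rg0 yb.e_Rg0
    ((1 / 2) * (v.tu * yb.eN)) (congrArg (fun y : ℝ => y * (v.tu * yb.eN)) zLMa_549755813888_0)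
    ((1 : ℝ) + (1 / 2) * (v.tu * yb.eN)) rfl
    (yb.NN * ((1 : ℝ) + (1 / 2) * (v.tu * yb.eN))) rfl
    (v.t * v.om1) rfl
    (v.t * v.om1 * v2.bsum) rfl
    (v.op1 * v.aQ) rfl).2
    ((v.op1 * v.aQ)⁻¹) rfl
    (v.t * v.om1 * v2.bsum * (v.op1 * v.aQ)⁻¹) rfl
    (yb.NN * ((1 : ℝ) + (1 / 2) * (v.tu * yb.eN)) * (v.t * v.om1 * v2.bsum * (v.op1 * v.aQ)⁻¹)) rfl
    yb.Rh yb.e_Rh
    (v2.lm * yb.Rg0) rfl
    ((1 : ℝ) - v2.lm) rfl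
    (v.u2 * yb.Rh) rfl
    (((1 : ℝ) - v2.lm) * (v.u2 * yb.Rh)) rfl
    (yb.C2 * (((1 : ℝ) - v2.lm) * (v.u2 * yb.Rh))) rfl
    yb.Rg yb.e_Rg
  change 0 < (1 : ℝ) - xa.XM at p_XM
  obtain ⟨p_QX, s12⟩ := s11
  change 0 < (1 : ℝ) - xa.QX at p_QX
  obtain ⟨p_e2, s13⟩ := s12
    (2 * (v.tu2 * yb.epd)) (congrArg (fun y : ℝ => y * (v.tu2 * yb.epd)) zLMa_2199023255552_0)
    (v.aQ - 2 * (v.tu2 * yb.epd)) rfl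
  change 0 < v.aQ - 2 * (v.tu2 * yb.epd) at p_e2
  obtain ⟨p_rl, s14⟩ := s13
  change 0 < yb.rl at p_rl
  obtain ⟨p_hgp, s15⟩ := s14
    ((1 / 2 : ℝ) - hgp) rfl
  change 0 < (1 / 2 : ℝ) - hgp at p_hgp
  obtain ⟨p_l1, s16⟩ := s15
    ((5 / 8) * (1 : ℝ)) (congrArg (fun y : ℝ => y * (1 : ℝ)) zLMa_687194767360_0)
    ((5 / 8) * (1 : ℝ) - xa.l1) rfl
  change 0 < (5 / 8) * (1 : ℝ) - xa.l1 at p_l1
  obtain ⟨p_a0, s17⟩ := s16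
    ((11 / 32) * (1 : ℝ)) (congrArg (fun y : ℝ => y * (1 : ℝ)) zLMa_377957122048_0)
    ((11 / 32) * (1 : ℝ) - xa.a0) rfl
  change 0 < (11 / 32) * (1 : ℝ) - xa.a0 at p_a0
  obtain ⟨p_S, s18⟩ := s17
  change 0 < v.op1 - v.tu * yb.eN at p_S
  obtain ⟨p_zp, s19⟩ := s18
  change 0 < (1 : ℝ) - yb.zp at p_zp
  obtain ⟨p_rr, s20⟩ := s19
    ((5 / 8) * (1 : ℝ) - yb.rr) rfl
  change 0 < (5 / 8) * (1 : ℝ) - yb.rr at p_rr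
  obtain ⟨p_V, s21⟩ := s20
  change 0 < yb.V at p_V
  obtain ⟨p_B, s22⟩ := s21
  change 0 < cl.Bm - (1 / 1024) * (1 : ℝ) at p_B
  obtain ⟨p_Rg, s23⟩ := s22
  change 0 < yb.Rg at p_Rg
  obtain ⟨p_Rh, s24⟩ := s23
  change 0 < yb.Rh at p_Rh
  have hQ := qb_s G f lv.e_rhi e_q e_th
  have hq := hQ.le
  have hQp := qb_p G f p_rplo.le lv.e_rphi e_qp e_thp
  have hqp := hQp.le
  have hq0 : 0 < q := lt_of_lt_of_le (by rw [G.q_eq]; exact G.q0) hq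
  have hcc : cc ≤ Real.cos (v.e * (Qk κ (shf κ τ)).arg) := cc_q (arg_x G v5 hsc e_w e_x) e_cc p_xq
  have hgR := gR_GD G.e0 G.κ0 G.s0 b hQ hcc G.h1_eq p_o2 p_W e_g
  have hγ := gam_g G.e0 G.κ0 G.s0 hgR e_ga
  have hccp : ccp ≤ Real.cos (v.e * (Qk κ (shf κ (shf κ τ))).arg) := cc_q (arg_xp G v3 v5 hsc e_w e_x e_xp) e_ccp p_xqp
  have hgRp := gR_GD G.e0 G.κ0 (shf_re' G.κ0 G.s0) b' hQp hccp (G.hp_eq v3) p_o2p p_Wp e_gp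
  have hγp := gam_g G.e0 G.κ0 (shf_re' G.κ0 G.s0) hgRp e_gap
  have hoo := oo_sharp8 G.κ0 G.s0 hQ (Qre0 G) hsc.ee (x_eq G v5 hsc e_w e_x) e_cu e_xe e_o2u e_ooo
  have hn1 : ‖1 + qq v.e κ (shf κ τ)‖ ≤ Q1 := by
    rw [e_Q1]; exact n1_sharp8 G.e0 G.κ0 G.s0 hq hoo (hg_le G hγ e_hg)
  have hlx : 1 * lsx = v.h1t * lsf * ga := by rw [e_lsx, one_mul]
  have fr := fr_g G hγ hq hq0 e_hg e_lsf p_hg e_Qb e_ls (hsc.al0 G) hlx hn1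
  have hgu : 1 * gu = gap * S := by rw [e_gu]; ring
  obtain ⟨lf0, Ex, hφ⟩ := ph_slz G v2 hsc e_tz hde' hu hz0 he2 (by norm_num) (by norm_num) (by norm_num) e_phux e_Ei e_Eh
  have as8 : As8 xa yb := ⟨p_XM, p_QX, p_e2, p_rl, p_l1, p_a0, p_S, p_zp, p_rr, p_V, p_Rg, p_Rh⟩
  exact far_Cl G D hsc hA0 hA as8 fr hgu hγp hφ pk f p_rplo e_hgp p_hgp p_lspa p_pe p_yy cl e_srcx e_srcs
    (mul_one v.t) G.t0 (by linear_combination v.t * e_y1 - pk.ye * e_r) p_B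

theorem far_LMa2 {κ : ℝ} {τ : ℂ} {R w : ℝ} {v : B1} (D : PtE (3 * 5⁻¹) v.e κ τ R w)
    (G : Geo κ (shf κ τ) v) (v2 : B2 v) (v3 : B3 v) (v5 : V5 v) {l1 : Lg v.D} {l2 : Lg v.D2}
    (lv : LV v l1 l2) (he2 : 2 ≤ v.e) {S z de : ℝ}
    (hde0 : 0 < de) (hde : de = v.t * z * S) (hu : v.u = z * de) (hz0 : 0 < z)
    (hee : v.e * (de * de) = 1)
    (h : RAs Pool.Agent.helper71.FJ.Crt.LMa.prog2 [S, v.t, z, v.n]) :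
    FarPt v.e κ (1 - Real.sinh κ / 1024) w (2 * AL v.e v.K * Real.sinh κ ^ 2) R
      (RE v.e κ (w * R)) τ := by
  obtain ⟨tz, e_tz⟩ : ∃ zz : ℝ, zz = v.t * z := ⟨_, rfl⟩
  have hde' : de = tz * S := by rw [e_tz]; exact hde
  obtain ⟨z2, e_z2⟩ : ∃ zz : ℝ, zz = z * z := ⟨_, rfl⟩
  obtain ⟨r, e_r⟩ : ∃ zz : ℝ, zz = v.t * z2 := ⟨_, rfl⟩
  obtain ⟨eps, e_eps⟩ : ∃ zz : ℝ, zz = de * de := ⟨_, rfl⟩
  obtain ⟨tr, e_tr⟩ : ∃ zz : ℝ, zz = v.t * r := ⟨_, rfl⟩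
  obtain ⟨q, e_q⟩ : ∃ zz : ℝ, zz = Real.exp (-(r * lv.rlo)) := ⟨_, rfl⟩
  obtain ⟨th, e_th⟩ : ∃ zz : ℝ, zz = q * (r * lv.er) := ⟨_, rfl⟩
  obtain ⟨qp, e_qp⟩ : ∃ zz : ℝ, zz = Real.exp (-(r * lv.rplo)) := ⟨_, rfl⟩
  obtain ⟨thp, e_thp⟩ : ∃ zz : ℝ, zz = qp * (r * lv.erp) := ⟨_, rfl⟩
  obtain ⟨wv, e_w⟩ : ∃ zz : ℝ, zz = (1 : ℝ) * (S * (v.c0 + v.R))⁻¹ := ⟨_, rfl⟩
  obtain ⟨xv, e_x⟩ : ∃ zz : ℝ, zz = wv * wv * v5.sn := ⟨_, rfl⟩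
  obtain ⟨hg, e_hg⟩ : ∃ zz : ℝ, zz = v.h1 * (1 : ℝ) := ⟨_, rfl⟩
  obtain ⟨lsf, e_lsf⟩ : ∃ zz : ℝ, zz = ((1 : ℝ) - (1 / 2) * hg) * ((1 : ℝ) - hg)⁻¹ := ⟨_, rfl⟩
  obtain ⟨Qb, e_Qb⟩ : ∃ zz : ℝ, zz = q * (hg + (1 : ℝ)) := ⟨_, rfl⟩
  obtain ⟨lsx, e_lsx⟩ : ∃ zz : ℝ, zz = v.h1t * lsf * (1 : ℝ) := ⟨_, rfl⟩
  obtain ⟨ls, e_ls⟩ : ∃ zz : ℝ, zz = hg * lsf := ⟨_, rfl⟩
  obtain ⟨xpv, e_xp⟩ : ∃ zz : ℝ, zz = xv * v.SQ⁻¹ := ⟨_, rfl⟩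
  obtain ⟨ccp, e_ccp⟩ : ∃ zz : ℝ, zz = (1 : ℝ) - xpv * ((1 / 2 : ℝ) - xpv * ((22906492245 / 549755813888 : ℝ) - xpv * ((381774871 / 274877906944 : ℝ) - xpv * ((27269633 / 1099511627776 : ℝ) - xpv * ((75749 / 274877906944 : ℝ) - xpv * ((2295 / 1099511627776 : ℝ) - xpv * (13 / 1099511627776 : ℝ))))))) := ⟨_, rfl⟩
  obtain ⟨b'⟩ := exGE qp thp ccp v3.hp
  obtain ⟨gpv, e_gp⟩ : ∃ zz : ℝ, zz = (1 / 2) * ((((1 : ℝ) - qp) * b'.q1 + 2 * thp) * b'.W⁻¹) := ⟨_, rfl⟩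
  obtain ⟨gap, e_gap⟩ : ∃ zz : ℝ, zz = gpv * (gpv + (1 / 2 : ℝ))⁻¹ := ⟨_, rfl⟩
  obtain ⟨hgp, e_hgp⟩ : ∃ zz : ℝ, zz = v3.hp * gap := ⟨_, rfl⟩
  obtain ⟨gu, e_gu⟩ : ∃ zz : ℝ, zz = gap * S := ⟨_, rfl⟩
  obtain ⟨G4, e_G4⟩ : ∃ zz : ℝ, zz = (1 / 2) * (4 * S + (1 : ℝ) * v.nj) := ⟨_, rfl⟩
  obtain ⟨Ei, e_Ei⟩ : ∃ zz : ℝ, zz = 2 * eps + (1 : ℝ) := ⟨_, rfl⟩
  obtain ⟨Eh, e_Eh⟩ : ∃ zz : ℝ, zz = eps + (1 : ℝ) := ⟨_, rfl⟩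
  obtain ⟨phux, e_phux⟩ : ∃ zz : ℝ, zz = (1 / 2) * (z * (2 * (S * v.nj) + (1 / 2) * v.t)) := ⟨_, rfl⟩
  obtain ⟨cu, e_cu⟩ : ∃ zz : ℝ, zz = (1 : ℝ) - xv * ((1 / 2 : ℝ) - xv * ((45812984491 / 1099511627776 : ℝ) - xv * ((1527099483 / 1099511627776 : ℝ) - xv * ((13634817 / 549755813888 : ℝ) - xv * ((302995 / 1099511627776 : ℝ) - xv * ((287 / 137438953472 : ℝ) - xv * ((3 / 274877906944 : ℝ) - xv * (1 / 1099511627776 : ℝ)))))))) := ⟨_, rfl⟩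
  obtain ⟨xe, e_xe⟩ : ∃ zz : ℝ, zz = xv * eps := ⟨_, rfl⟩
  obtain ⟨o2u, e_o2u⟩ : ∃ zz : ℝ, zz = q * q + (1 : ℝ) + 2 * (q * (cu + (43 / 128) * (xe * xe))) + 2 * th := ⟨_, rfl⟩
  obtain ⟨ooo, e_ooo⟩ : ∃ zz : ℝ, zz = Real.exp ((1 / 2) * Real.log (o2u + (1 / 128 : ℝ))) := ⟨_, rfl⟩
  obtain ⟨Q1, e_Q1⟩ : ∃ zz : ℝ, zz = ooo + q * hg := ⟨_, rfl⟩
  obtain ⟨xa⟩ := exKa v2 eps 1 S G4 Qb Q1 ls lsx phux Ei Eh
  obtain ⟨srcx, e_srcx⟩ : ∃ zz : ℝ, zz = v.om1 * ((1 / 2) * (r * v2.bsum * v.aQ⁻¹)) + xa.kl := ⟨_, rfl⟩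
  obtain ⟨srcs, e_srcs⟩ : ∃ zz : ℝ, zz = v.t * srcx := ⟨_, rfl⟩
  obtain ⟨yb⟩ := exKb (3 * 5⁻¹) xa tr gap gu srcs
  obtain ⟨pk⟩ := exPk v5 lv.rplo v3.hp hgp gu yb.yy
  obtain ⟨y1, e_y1⟩ : ∃ zz : ℝ, zz = z2 * pk.ye := ⟨_, rfl⟩
  obtain ⟨cl⟩ := exCl yb v.t 1 y1 srcx
  have hsc := sc_Ma hde' e_tz hu hee hde0 G.t0 hz0.le e_z2 e_r e_tr e_eps
  obtain ⟨hA0, hA⟩ := hA_L G hsc e_G4
  have f := lv.f G hsc.hr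
  obtain ⟨p_hg, s0⟩ := ((((((((((h
    (1 : ℝ) zLMa_1099511627776_0
    tz e_tz
    de hde'
    v.u hu
    z2 e_z2
    r e_r
    eps e_eps
    tr e_tr
    (1 / 2 : ℝ) zLMa_549755813888_0
    v.tu v.e_tu
    (v.tu * v.n) rfl
    v.h (v.e_h.trans (congrArg (fun y : ℝ => y * (v.tu * v.n)) zLMa_549755813888_0))
    v.u2 v.e_u2
    (v.h * v.h) rfl
    v.jm v.e_jm).2
    v.j v.e_j
    (v.h * v.j) rfl
    v.K (v.e_K.trans (congrArg (fun y : ℝ => y * (v.h * v.j)) zLMa_2199023255552_0))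
    (2 * v.j) (congrArg (fun y : ℝ => y * v.j) zLMa_2199023255552_0)
    v.c0 v.e_c0
    v.m v.e_m
    v.nj v.e_nj
    v.om v.e_om
    v.om1 v.e_om1
    v.op1 v.e_op1
    v.R v.e_R
    v.nj2 v.e_nj2
    v2.Y (v2.e_Y.trans (congrArg (fun y : ℝ => y * v.h) zLMa_10774999203840_0))
    ((341 / 8192) * v2.Y) (congrArg (fun y : ℝ => y * v2.Y) zLMa_45768245248_0)
    (1365 / 8192 : ℝ) zLMa_183207198720_0
    ((341 / 8192) * v2.Y + (1365 / 8192 : ℝ)) rfl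
    (v2.Y * ((341 / 8192) * v2.Y + (1365 / 8192 : ℝ))) rfl
    ((1 / 2 : ℝ) + v2.Y * ((341 / 8192) * v2.Y + (1365 / 8192 : ℝ))) rfl
    (v2.Y * ((1 / 2 : ℝ) + v2.Y * ((341 / 8192) * v2.Y + (1365 / 8192 : ℝ)))) rfl
    v2.pY v2.e_pY
    (v2.Y * v2.pY) rfl
    ((1 / 2) * (v2.Y * v2.pY)) (congrArg (fun y : ℝ => y * (v2.Y * v2.pY)) zLMa_549755813888_0)
    ((1 : ℝ) + (1 / 2) * (v2.Y * v2.pY)) rfl
    v2.Yp v2.e_Yp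
    (v.K * v.om) rfl
    (2 * v.c0) (congrArg (fun y : ℝ => y * v.c0) zLMa_2199023255552_0)
    (v.K * v.om + 2 * v.c0) rfl
    v.Dt v.e_Dt
    v.D v.e_D
    v.SQ v.e_SQ
    (v.K * v.K) rfl
    (2 * (v.K * v.K)) (congrArg (fun y : ℝ => y * (v.K * v.K)) zLMa_2199023255552_0)
    v.c2 v.e_c2
    (v.c0 * v.Dt) rfl
    v.rhat v.e_rhat).2
    v.LQ v.e_LQ
    ((1 / 2) * v.LQ) (congrArg (fun y : ℝ => y * v.LQ) zLMa_549755813888_0)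
    v.aQ v.e_aQ
    (3 : ℝ) zLMa_3298534883328_0).2
    ((3 : ℝ)⁻¹) rfl
    ((1 : ℝ) * (3 : ℝ)⁻¹) rfl
    (2 : ℝ) zLMa_2199023255552_0
    (v.D + (2 : ℝ)) rfl).2
    ((v.D + (2 : ℝ))⁻¹) rfl
    l1.zL l1.e_zL
    l1.zz l1.e_zz
    ((1 : ℝ) - l1.zL) rfl
    (l1.zz * ((1 : ℝ) * (3 : ℝ)⁻¹)) rfl
    ((1 : ℝ) + l1.zz * ((1 : ℝ) * (3 : ℝ)⁻¹)) rfl
    l1.Lv l1.e_Lv
    (l1.zz * l1.zz) rfl
    l1.eL (l1.e_eL.trans (congrArg (fun y : ℝ => y * (l1.zz * l1.zz)) zLMa_219915747328_0))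
    (v.Dt * l1.Lv) rfl
    lv.rlo (lv.e_rlo.trans (congrArg (fun y : ℝ => y * (v.Dt * l1.Lv)) zLMa_549755813888_0))
    (v.Dt * l1.eL) rfl
    lv.er (lv.e_er.trans (congrArg (fun y : ℝ => y * (v.Dt * l1.eL)) zLMa_549755813888_0))
    lv.rhi lv.e_rhi
    (v.c0 * v.rhat) rfl
    lv.D2R (lv.e_D2R.trans (congrArg (fun y : ℝ => y * (v.c0 * v.rhat)) zLMa_4398046511104_0))
    (v.c0 * v.R) rfl
    (v.c0 * v.R * v.rhat) rfl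
    v.D2 (v.e_D2.trans (congrArg (fun y : ℝ => y * (v.c0 * v.R * v.rhat)) zLMa_4398046511104_0))
    (v.D2 + (2 : ℝ)) rfl).2
    ((v.D2 + (2 : ℝ))⁻¹) rfl
    l2.zL l2.e_zL
    l2.zz l2.e_zz
    ((1 : ℝ) - l2.zL) rfl
    (l2.zz * ((1 : ℝ) * (3 : ℝ)⁻¹)) rfl
    ((1 : ℝ) + l2.zz * ((1 : ℝ) * (3 : ℝ)⁻¹)) rfl
    l2.Lv l2.e_Lv
    (l2.zz * l2.zz) rfl
    l2.eL (l2.e_eL.trans (congrArg (fun y : ℝ => y * (l2.zz * l2.zz)) zLMa_219915747328_0))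
    (lv.D2R * l2.Lv) rfl
    ((1 / 2) * (lv.D2R * l2.Lv)) (congrArg (fun y : ℝ => y * (lv.D2R * l2.Lv)) zLMa_549755813888_0)
    lv.rplo lv.e_rplo
    (lv.D2R * l2.eL) rfl
    ((1 / 2) * (lv.D2R * l2.eL)) (congrArg (fun y : ℝ => y * (lv.D2R * l2.eL)) zLMa_549755813888_0)
    lv.erp lv.e_erp
    lv.rphi lv.e_rphi
    (r * lv.rlo) rfl
    (-(r * lv.rlo)) rfl
    q e_q
    (r * lv.er) rfl
    th e_th
    (r * lv.rplo) rfl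
    (-(r * lv.rplo)) rfl
    qp e_qp
    (r * lv.erp) rfl
    thp e_thp
    (v.om * v.K) rfl
    (v.c0 + v.om * v.K) rfl).2
    v.ioK v.e_ioK
    v.h1t v.e_h1t
    (v.om1 * v.t) rfl
    v.h1 v.e_h1
    ((1 : ℝ) - v.u2) rfl
    v.f2 v.e_f2
    v.tu2 v.e_tu2
    ((1 : ℝ) - v.nj2) rfl
    v5.sn v5.e_sn
    (v.R * v.rhat) rfl).2
    (v.SQ⁻¹) rfl
    v5.R1 v5.e_R1
    (v.c0 + v5.R1) rfl
    v5.Qr v5.e_Qr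
    (v5.Qr * v5.Qr) rfl).2
    ((v5.Qr * v5.Qr)⁻¹) rfl
    v5.Th v5.e_Th
    (v.c0 + v.R) rfl
    (S * (v.c0 + v.R)) rfl).2
    ((S * (v.c0 + v.R))⁻¹) rfl
    wv e_w
    (wv * wv) rfl
    xv e_x
    hg e_hg
    ((1 / 2) * hg) (congrArg (fun y : ℝ => y * hg) zLMa_549755813888_0)
    ((1 : ℝ) - (1 / 2) * hg) rfl
    ((1 : ℝ) - hg) rfl).2
    (((1 : ℝ) - hg)⁻¹) rfl
    lsf e_lsf
    (hg + (1 : ℝ)) rfl
    Qb e_Qb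
    (v.h1t * lsf) rfl
    lsx e_lsx
    ls e_ls
  change 0 < (1 : ℝ) - hg at p_hg
  obtain ⟨p_rplo, s1⟩ := (s0
    (v.om1 * v.op1) rfl
    (v.c0 + v.t) rfl
    (v.om * v.c0) rfl
    (v.om * v.c0 * v.K) rfl
    (2 * (v.om * v.c0 * v.K)) (congrArg (fun y : ℝ => y * (v.om * v.c0 * v.K)) zLMa_2199023255552_0)
    (v.c2 + 2 * (v.om * v.c0 * v.K)) rfl
    ((v.c0 + v.t) * (v.c2 + 2 * (v.om * v.c0 * v.K))) rfl).2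
    (((v.c0 + v.t) * (v.c2 + 2 * (v.om * v.c0 * v.K)))⁻¹) rfl
    v3.hpt v3.e_hpt
    v3.hp v3.e_hp
  change 0 < lv.rplo at p_rplo
  obtain ⟨p_xqp, s2⟩ := s1
    xpv e_xp
    (1263 / 128 : ℝ) zLMa_10849087389696_0
    ((1263 / 128 : ℝ) - xpv) rfl
  change 0 < (1263 / 128 : ℝ) - xpv at p_xqp
  obtain ⟨p_o2p, s3⟩ := (s2
    (13 / 1099511627776 : ℝ) zLMa_13_0
    (2295 / 1099511627776 : ℝ) zLMa_2295_0
    (xpv * (13 / 1099511627776 : ℝ)) rfl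
    ((2295 / 1099511627776 : ℝ) - xpv * (13 / 1099511627776 : ℝ)) rfl
    (75749 / 274877906944 : ℝ) zLMa_302996_0
    (xpv * ((2295 / 1099511627776 : ℝ) - xpv * (13 / 1099511627776 : ℝ))) rfl
    ((75749 / 274877906944 : ℝ) - xpv * ((2295 / 1099511627776 : ℝ) - xpv * (13 / 1099511627776 : ℝ))) rfl
    (27269633 / 1099511627776 : ℝ) zLMa_27269633_0
    (xpv * ((75749 / 274877906944 : ℝ) - xpv * ((2295 / 1099511627776 : ℝ) - xpv * (13 / 1099511627776 : ℝ)))) rfl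
    ((27269633 / 1099511627776 : ℝ) - xpv * ((75749 / 274877906944 : ℝ) - xpv * ((2295 / 1099511627776 : ℝ) - xpv * (13 / 1099511627776 : ℝ)))) rfl
    (381774871 / 274877906944 : ℝ) zLMa_1527099484_0
    (xpv * ((27269633 / 1099511627776 : ℝ) - xpv * ((75749 / 274877906944 : ℝ) - xpv * ((2295 / 1099511627776 : ℝ) - xpv * (13 / 1099511627776 : ℝ))))) rfl
    ((381774871 / 274877906944 : ℝ) - xpv * ((27269633 / 1099511627776 : ℝ) - xpv * ((75749 / 274877906944 : ℝ) - xpv * ((2295 / 1099511627776 : ℝ) - xpv * (13 / 1099511627776 : ℝ))))) rfl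
    (22906492245 / 549755813888 : ℝ) zLMa_45812984490_0
    (xpv * ((381774871 / 274877906944 : ℝ) - xpv * ((27269633 / 1099511627776 : ℝ) - xpv * ((75749 / 274877906944 : ℝ) - xpv * ((2295 / 1099511627776 : ℝ) - xpv * (13 / 1099511627776 : ℝ)))))) rfl
    ((22906492245 / 549755813888 : ℝ) - xpv * ((381774871 / 274877906944 : ℝ) - xpv * ((27269633 / 1099511627776 : ℝ) - xpv * ((75749 / 274877906944 : ℝ) - xpv * ((2295 / 1099511627776 : ℝ) - xpv * (13 / 1099511627776 : ℝ)))))) rfl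
    (xpv * ((22906492245 / 549755813888 : ℝ) - xpv * ((381774871 / 274877906944 : ℝ) - xpv * ((27269633 / 1099511627776 : ℝ) - xpv * ((75749 / 274877906944 : ℝ) - xpv * ((2295 / 1099511627776 : ℝ) - xpv * (13 / 1099511627776 : ℝ))))))) rfl
    ((1 / 2 : ℝ) - xpv * ((22906492245 / 549755813888 : ℝ) - xpv * ((381774871 / 274877906944 : ℝ) - xpv * ((27269633 / 1099511627776 : ℝ) - xpv * ((75749 / 274877906944 : ℝ) - xpv * ((2295 / 1099511627776 : ℝ) - xpv * (13 / 1099511627776 : ℝ))))))) rfl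
    (xpv * ((1 / 2 : ℝ) - xpv * ((22906492245 / 549755813888 : ℝ) - xpv * ((381774871 / 274877906944 : ℝ) - xpv * ((27269633 / 1099511627776 : ℝ) - xpv * ((75749 / 274877906944 : ℝ) - xpv * ((2295 / 1099511627776 : ℝ) - xpv * (13 / 1099511627776 : ℝ)))))))) rfl
    ccp e_ccp
    b'.q1 b'.e_q1
    (qp * qp) rfl
    (qp * qp + (1 : ℝ)) rfl
    (qp * ccp) rfl
    (2 * (qp * ccp)) (congrArg (fun y : ℝ => y * (qp * ccp)) zLMa_2199023255552_0)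
    (qp * qp + (1 : ℝ) + 2 * (qp * ccp)) rfl
    (4 * thp) (congrArg (fun y : ℝ => y * thp) zLMa_4398046511104_0)
    b'.o2 b'.e_o2).2
    (b'.q1⁻¹) rfl
    (b'.o2 * b'.q1⁻¹) rfl
    b'.P1 b'.e_P1
    (qp * v3.hp) rfl
    b'.qh (b'.e_qh.trans (congrArg (fun y : ℝ => y * (qp * v3.hp)) zLMa_549755813888_0))
    (b'.qh * b'.P1) rfl
    b'.W b'.e_W
  change 0 < b'.o2 at p_o2p
  obtain ⟨p_Wp, s4⟩ := s3
  change 0 < b'.W at p_Wp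
  obtain ⟨p_lspa, s5⟩ := ((((((((((((((((s4
    ((1 : ℝ) - qp) rfl
    (((1 : ℝ) - qp) * b'.q1) rfl
    (2 * thp) (congrArg (fun y : ℝ => y * thp) zLMa_2199023255552_0)
    (((1 : ℝ) - qp) * b'.q1 + 2 * thp) rfl).2
    (b'.W⁻¹) rfl
    ((((1 : ℝ) - qp) * b'.q1 + 2 * thp) * b'.W⁻¹) rfl
    gpv (e_gp.trans (congrArg (fun y : ℝ => y * ((((1 : ℝ) - qp) * b'.q1 + 2 * thp) * b'.W⁻¹)) zLMa_549755813888_0))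
    (gpv + (1 / 2 : ℝ)) rfl).2
    ((gpv + (1 / 2 : ℝ))⁻¹) rfl
    gap e_gap
    hgp e_hgp
    gu e_gu
    (v.h + (1 : ℝ)) rfl).2
    v2.ih v2.e_ih
    (v.h * v2.ih) rfl
    v2.rh (v2.e_rh.trans (congrArg (fun y : ℝ => y * (v.h * v2.ih)) zLMa_2199023255552_0))
    v2.mi v2.e_mi
    v2.hm v2.e_hm
    v2.nih v2.e_nih
    (v2.nih * v2.mi) rfl
    v2.bsum v2.e_bsum
    ((209 / 1024) * v.j) (congrArg (fun y : ℝ => y * v.j) zLMa_224412041216_0)).2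
    (v2.Yp⁻¹) rfl
    v2.lm v2.e_lm
    (4 * S) (congrArg (fun y : ℝ => y * S) zLMa_4398046511104_0)
    ((1 : ℝ) * v.nj) rfl
    (4 * S + (1 : ℝ) * v.nj) rfl
    G4 (e_G4.trans (congrArg (fun y : ℝ => y * (4 * S + (1 : ℝ) * v.nj)) zLMa_549755813888_0))).2
    xa.iG4 xa.e_iG4
    xa.alG xa.e_alG
    xa.AE xa.e_AE
    (xa.AE * v.op1) rfl
    xa.XeE xa.e_XeE
    (xa.alG * v.op1) rfl
    xa.XM xa.e_XM
    ((1 : ℝ) - xa.XM) rfl).2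
    xa.iX xa.e_iX
    xa.QX xa.e_QX
    ((1 : ℝ) - xa.QX) rfl).2
    xa.iQX xa.e_iQX
    (2 * eps) (congrArg (fun y : ℝ => y * eps) zLMa_2199023255552_0)
    Ei e_Ei
    Eh e_Eh
    (S * v.nj) rfl
    (2 * (S * v.nj)) (congrArg (fun y : ℝ => y * (S * v.nj)) zLMa_2199023255552_0)
    ((1 / 2) * v.t) (congrArg (fun y : ℝ => y * v.t) zLMa_549755813888_0)
    (2 * (S * v.nj) + (1 / 2) * v.t) rfl
    (z * (2 * (S * v.nj) + (1 / 2) * v.t)) rfl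
    phux (e_phux.trans (congrArg (fun y : ℝ => y * (z * (2 * (S * v.nj) + (1 / 2) * v.t))) zLMa_549755813888_0))
    (v.h * v.nj) rfl
    ((1 : ℝ) - v.f2) rfl
    (v.h * v.om) rfl
    (2 * (v.h * v.om)) (congrArg (fun y : ℝ => y * (v.h * v.om)) zLMa_2199023255552_0)
    ((1 : ℝ) - v.f2 - 2 * (v.h * v.om)) rfl
    (v.h * v.nj * (v.h * v.nj)) rfl
    xa.N1 xa.e_N1
    (xa.N1 + (1 : ℝ)) rfl
    xa.s (xa.e_s.trans (congrArg (fun y : ℝ => y * (xa.N1 + (1 : ℝ))) zLMa_549755813888_0))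
    ((1 / 2) * v.R) (congrArg (fun y : ℝ => y * v.R) zLMa_549755813888_0)
    (v.j - (1 / 2) * v.R) rfl
    (v.tu2 * ((1 : ℝ) - v.f2)) rfl
    (v.tu2 * ((1 : ℝ) - v.f2) * v.jm) rfl
    ((1 / 8) * (v.tu2 * ((1 : ℝ) - v.f2) * v.jm)) (congrArg (fun y : ℝ => y * (v.tu2 * ((1 : ℝ) - v.f2) * v.jm)) zLMa_137438953472_0)
    (v.j - (1 / 2) * v.R + (1 / 8) * (v.tu2 * ((1 : ℝ) - v.f2) * v.jm)) rfl
    xa.k0 xa.e_k0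
    (1 / 1099511627776 : ℝ) zLMa_1_0
    (3 / 274877906944 : ℝ) zLMa_12_0
    (xv * (1 / 1099511627776 : ℝ)) rfl
    ((3 / 274877906944 : ℝ) - xv * (1 / 1099511627776 : ℝ)) rfl
    (287 / 137438953472 : ℝ) zLMa_2296_0
    (xv * ((3 / 274877906944 : ℝ) - xv * (1 / 1099511627776 : ℝ))) rfl
    ((287 / 137438953472 : ℝ) - xv * ((3 / 274877906944 : ℝ) - xv * (1 / 1099511627776 : ℝ))) rfl
    (302995 / 1099511627776 : ℝ) zLMa_302995_0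
    (xv * ((287 / 137438953472 : ℝ) - xv * ((3 / 274877906944 : ℝ) - xv * (1 / 1099511627776 : ℝ)))) rfl
    ((302995 / 1099511627776 : ℝ) - xv * ((287 / 137438953472 : ℝ) - xv * ((3 / 274877906944 : ℝ) - xv * (1 / 1099511627776 : ℝ)))) rfl
    (13634817 / 549755813888 : ℝ) zLMa_27269634_0
    (xv * ((302995 / 1099511627776 : ℝ) - xv * ((287 / 137438953472 : ℝ) - xv * ((3 / 274877906944 : ℝ) - xv * (1 / 1099511627776 : ℝ))))) rfl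
    ((13634817 / 549755813888 : ℝ) - xv * ((302995 / 1099511627776 : ℝ) - xv * ((287 / 137438953472 : ℝ) - xv * ((3 / 274877906944 : ℝ) - xv * (1 / 1099511627776 : ℝ))))) rfl
    (1527099483 / 1099511627776 : ℝ) zLMa_1527099483_0
    (xv * ((13634817 / 549755813888 : ℝ) - xv * ((302995 / 1099511627776 : ℝ) - xv * ((287 / 137438953472 : ℝ) - xv * ((3 / 274877906944 : ℝ) - xv * (1 / 1099511627776 : ℝ)))))) rfl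
    ((1527099483 / 1099511627776 : ℝ) - xv * ((13634817 / 549755813888 : ℝ) - xv * ((302995 / 1099511627776 : ℝ) - xv * ((287 / 137438953472 : ℝ) - xv * ((3 / 274877906944 : ℝ) - xv * (1 / 1099511627776 : ℝ)))))) rfl
    (45812984491 / 1099511627776 : ℝ) zLMa_45812984491_0
    (xv * ((1527099483 / 1099511627776 : ℝ) - xv * ((13634817 / 549755813888 : ℝ) - xv * ((302995 / 1099511627776 : ℝ) - xv * ((287 / 137438953472 : ℝ) - xv * ((3 / 274877906944 : ℝ) - xv * (1 / 1099511627776 : ℝ))))))) rfl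
    ((45812984491 / 1099511627776 : ℝ) - xv * ((1527099483 / 1099511627776 : ℝ) - xv * ((13634817 / 549755813888 : ℝ) - xv * ((302995 / 1099511627776 : ℝ) - xv * ((287 / 137438953472 : ℝ) - xv * ((3 / 274877906944 : ℝ) - xv * (1 / 1099511627776 : ℝ))))))) rfl
    (xv * ((45812984491 / 1099511627776 : ℝ) - xv * ((1527099483 / 1099511627776 : ℝ) - xv * ((13634817 / 549755813888 : ℝ) - xv * ((302995 / 1099511627776 : ℝ) - xv * ((287 / 137438953472 : ℝ) - xv * ((3 / 274877906944 : ℝ) - xv * (1 / 1099511627776 : ℝ)))))))) rfl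
    ((1 / 2 : ℝ) - xv * ((45812984491 / 1099511627776 : ℝ) - xv * ((1527099483 / 1099511627776 : ℝ) - xv * ((13634817 / 549755813888 : ℝ) - xv * ((302995 / 1099511627776 : ℝ) - xv * ((287 / 137438953472 : ℝ) - xv * ((3 / 274877906944 : ℝ) - xv * (1 / 1099511627776 : ℝ)))))))) rfl
    (xv * ((1 / 2 : ℝ) - xv * ((45812984491 / 1099511627776 : ℝ) - xv * ((1527099483 / 1099511627776 : ℝ) - xv * ((13634817 / 549755813888 : ℝ) - xv * ((302995 / 1099511627776 : ℝ) - xv * ((287 / 137438953472 : ℝ) - xv * ((3 / 274877906944 : ℝ) - xv * (1 / 1099511627776 : ℝ))))))))) rfl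
    cu e_cu
    xe e_xe
    (q * q) rfl
    (q * q + (1 : ℝ)) rfl
    (xe * xe) rfl
    ((43 / 128) * (xe * xe)) (congrArg (fun y : ℝ => y * (xe * xe)) zLMa_369367187456_0)
    (cu + (43 / 128) * (xe * xe)) rfl
    (q * (cu + (43 / 128) * (xe * xe))) rfl
    (2 * (q * (cu + (43 / 128) * (xe * xe)))) (congrArg (fun y : ℝ => y * (q * (cu + (43 / 128) * (xe * xe)))) zLMa_2199023255552_0)
    (q * q + (1 : ℝ) + 2 * (q * (cu + (43 / 128) * (xe * xe)))) rfl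
    (2 * th) (congrArg (fun y : ℝ => y * th) zLMa_2199023255552_0)
    o2u e_o2u
    (1 / 128 : ℝ) zLMa_8589934592_0
    (o2u + (1 / 128 : ℝ)) rfl).2
    (Real.log (o2u + (1 / 128 : ℝ))) rfl
    ((1 / 2) * Real.log (o2u + (1 / 128 : ℝ))) (congrArg (fun y : ℝ => y * Real.log (o2u + (1 / 128 : ℝ))) zLMa_549755813888_0)
    ooo e_ooo
    (q * hg) rfl
    Q1 e_Q1
    (Q1 * xa.iX) rfl
    (Qb * xa.iQX) rfl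
    (Q1 * xa.iX + Qb * xa.iQX) rfl
    (xa.XM * (Q1 * xa.iX + Qb * xa.iQX)) rfl
    (ls + xa.XM * (Q1 * xa.iX + Qb * xa.iQX)) rfl
    xa.a0 xa.e_a0
    (Q1 * xa.XM) rfl
    (Q1 * xa.XM * xa.iX) rfl
    (ls + Q1 * xa.XM * xa.iX) rfl
    xa.l1 xa.e_l1
    ((13 / 64) * xa.l1) (congrArg (fun y : ℝ => y * xa.l1) zLMa_223338299392_0)
    ((1 / 2 : ℝ) + (13 / 64) * xa.l1) rfl
    (xa.l1 * ((1 / 2 : ℝ) + (13 / 64) * xa.l1)) rfl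
    xa.Na xa.e_Na
    ((13 / 16) * xa.a0) (congrArg (fun y : ℝ => y * xa.a0) zLMa_893353197568_0)
    ((1 : ℝ) + (13 / 16) * xa.a0) rfl
    (xa.a0 * ((1 : ℝ) + (13 / 16) * xa.a0)) rfl
    xa.Nb xa.e_Nb
    (v2.rh * v2.nih) rfl
    (v2.rh * v2.nih * Ei) rfl
    xa.rn xa.e_rn
    (xa.k0 * xa.Na) rfl
    (v.aQ + (1 / 2 : ℝ)) rfl
    (xa.rn * (v.aQ + (1 / 2 : ℝ))) rfl
    xa.ka xa.e_ka
    (v.aQ + (1 : ℝ)) rfl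
    xa.kb xa.e_kb
    (Eh * (v.aQ + (1 : ℝ))) rfl
    (Eh * (v.aQ + (1 : ℝ)) * v2.nih) rfl
    xa.lfk xa.e_lfk
    (xa.ka * lsx) rfl
    (xa.lfk * phux) rfl
    xa.kl xa.e_kl
    (r * v2.bsum) rfl).2
    (v.aQ⁻¹) rfl
    (r * v2.bsum * v.aQ⁻¹) rfl
    ((1 / 2) * (r * v2.bsum * v.aQ⁻¹)) (congrArg (fun y : ℝ => y * (r * v2.bsum * v.aQ⁻¹)) zLMa_549755813888_0)
    (v.om1 * ((1 / 2) * (r * v2.bsum * v.aQ⁻¹))) rfl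
    srcx e_srcx
    srcs e_srcs
    yb.src yb.e_src
    (xa.ka * Q1) rfl
    (xa.ka * Q1 * xa.iX) rfl
    (xa.kb * Qb) rfl
    (xa.kb * Qb * xa.iQX) rfl
    yb.fxe yb.e_fxe
    (v.om1 * yb.src) rfl
    (xa.XeE * yb.fxe) rfl
    yb.epd yb.e_epd
    (v.tu2 * yb.epd) rfl
    (v.tu2 * yb.epd * v.aQ⁻¹) rfl
    ((1 : ℝ) - v.tu2 * yb.epd * v.aQ⁻¹) rfl).2
    yb.NN yb.e_NN
    yb.eN yb.e_eN
    yb.d yb.e_d
    yb.eta yb.e_eta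
    (yb.eta * v.aQ⁻¹) rfl
    ((1 : ℝ) - yb.eta * v.aQ⁻¹) rfl
    (v.rhat * ((1 : ℝ) - yb.eta * v.aQ⁻¹)) rfl
    yb.rl yb.e_rl).2
    yb.irl yb.e_irl
    yb.yy yb.e_yy
    (v.aQ - yb.eta) rfl).2
    yb.q0 yb.e_q0
    yb.zp yb.e_zp
    ((1 / 2) * yb.zp) (congrArg (fun y : ℝ => y * yb.zp) zLMa_549755813888_0)
    ((1 : ℝ) - (1 / 2) * yb.zp) rfl
    ((1 : ℝ) - yb.zp) rfl).2
    (((1 : ℝ) - yb.zp)⁻¹) rfl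
    yb.kzp yb.e_kzp
    (v.u * yb.q0) rfl
    (gu * yb.irl) rfl
    (gu * yb.irl * yb.kzp) rfl
    yb.Cu yb.e_Cu
    (tr * yb.eN) rfl
    (yb.q0 * (tr * yb.eN)) rfl
    (gap * yb.irl) rfl
    (gap * yb.irl * yb.kzp) rfl
    (gap * yb.irl * yb.kzp * yb.d) rfl
    yb.rr yb.e_rr
    ((13 / 64) * yb.rr) (congrArg (fun y : ℝ => y * yb.rr) zLMa_223338299392_0)
    ((1 / 2 : ℝ) + (13 / 64) * yb.rr) rfl
    (yb.rr * ((1 / 2 : ℝ) + (13 / 64) * yb.rr)) rfl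
    ((1 : ℝ) + yb.rr * ((1 / 2 : ℝ) + (13 / 64) * yb.rr)) rfl
    (yb.Cu * ((1 : ℝ) + yb.rr * ((1 / 2 : ℝ) + (13 / 64) * yb.rr))) rfl
    yb.CuN yb.e_CuN
    yb.fbt yb.e_fbt
    yb.XLt yb.e_XLt
    (5 : ℝ) zLMa_5497558138880_0).2
    ((5 : ℝ)⁻¹) rfl
    yb.beta yb.e_beta
    ((v.h + (1 : ℝ)) * v.op1) rfl
    yb.b1 yb.e_b1
    pk.omr pk.e_omr
    pk.omp pk.e_omp
    ((1 / 2) * hgp) (congrArg (fun y : ℝ => y * hgp) zLMa_549755813888_0)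
    ((1 : ℝ) - (1 / 2) * hgp) rfl
    ((1 : ℝ) - hgp) rfl).2
    (((1 : ℝ) - hgp)⁻¹) rfl
    (((1 : ℝ) - (1 / 2) * hgp) * ((1 : ℝ) - hgp)⁻¹) rfl
    pk.lspf pk.e_lspf
    (v.tu2 * v5.Th) rfl
    ((2731 / 4096) * (v.tu2 * v5.Th)) (congrArg (fun y : ℝ => y * (v.tu2 * v5.Th)) zLMa_733097230336_0)
    ((1 : ℝ) - (2731 / 4096) * (v.tu2 * v5.Th)) rfl
    (v5.Th * ((1 : ℝ) - (2731 / 4096) * (v.tu2 * v5.Th))) rfl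
    (lv.rplo * lv.rplo) rfl
    (v.u2 * (lv.rplo * lv.rplo)) rfl
    pk.E0 pk.e_E0
    pk.lspa pk.e_lspa
    (pk.E0 + (1 : ℝ)) rfl
    (pk.lspa * (pk.E0 + (1 : ℝ))) rfl
    (pk.E0 - pk.lspa * (pk.E0 + (1 : ℝ))) rfl
    ((2731 / 8192) * (v.K * v.K)) (congrArg (fun y : ℝ => y * (v.K * v.K)) zLMa_366548615168_0)
    ((1 : ℝ) - (2731 / 8192) * (v.K * v.K)) rfl
    (v.nj2 * ((1 : ℝ) - (2731 / 8192) * (v.K * v.K))) rfl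
    (pk.E0 - pk.lspa * (pk.E0 + (1 : ℝ)) + v.nj2 * ((1 : ℝ) - (2731 / 8192) * (v.K * v.K))) rfl
    (pk.omr * (pk.E0 - pk.lspa * (pk.E0 + (1 : ℝ)) + v.nj2 * ((1 : ℝ) - (2731 / 8192) * (v.K * v.K)))) rfl
    (pk.omp * pk.omp) rfl
    ((1 : ℝ) + pk.omp * pk.omp) rfl).2
    (((1 : ℝ) + pk.omp * pk.omp)⁻¹) rfl
    pk.pe pk.e_pe
    ((1 : ℝ) - yb.yy) rfl
    pk.ye pk.e_ye
    ((1 : ℝ) - pk.lspa) rfl
  change 0 < (1 : ℝ) - pk.lspa at p_lspa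
  obtain ⟨p_pe, s6⟩ := s5
  change 0 < pk.pe at p_pe
  obtain ⟨p_yy, s7⟩ := s6
  change 0 < (1 : ℝ) - yb.yy at p_yy
  obtain ⟨p_XM, s8⟩ := ((((((s7
    (yb.CuN * G4) rfl
    (yb.CuN * G4 * srcx) rfl).2
    (v.op1⁻¹) rfl
    cl.FXt cl.e_FXt
    y1 e_y1
    (v.t * y1) rfl
    ((1 / 2) * (v.t * y1)) (congrArg (fun y : ℝ => y * (v.t * y1)) zLMa_549755813888_0)
    ((1 : ℝ) - (1 / 2) * (v.t * y1)) rfl
    (y1 * ((1 : ℝ) - (1 / 2) * (v.t * y1))) rfl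
    cl.S1 cl.e_S1
    (v.u * v.n) rfl
    (v.u * v.n * (v.h + (1 : ℝ))) rfl
    (v.u * v.n * (v.h + (1 : ℝ)) * v.j) rfl
    cl.a4 cl.e_a4
    (cl.S1 + cl.a4) rfl
    (cl.S1 * cl.a4) rfl
    (v.t * (cl.S1 * cl.a4)) rfl
    cl.S4 cl.e_S4
    cl.Dh cl.e_Dh
    ((3 / 8) * v.D) (congrArg (fun y : ℝ => y * v.D) zLMa_412316860416_0)
    ((1 / 2 : ℝ) - (3 / 8) * v.D) rfl
    (cl.Dh * ((1 / 2 : ℝ) - (3 / 8) * v.D)) rfl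
    ((1 : ℝ) * (cl.Dh * ((1 / 2 : ℝ) - (3 / 8) * v.D))) rfl
    cl.a5 cl.e_a5
    (cl.S4 + cl.a5) rfl
    (cl.S4 * cl.a5) rfl
    (v.t * (cl.S4 * cl.a5)) rfl
    cl.S5 cl.e_S5
    (v.u * yb.eN) rfl
    (v.u * yb.eN * v.op1⁻¹) rfl
    cl.a6 cl.e_a6
    (cl.S5 + cl.a6) rfl
    (cl.S5 * cl.a6) rfl
    (v.t * (cl.S5 * cl.a6)) rfl
    cl.S6 cl.e_S6
    cl.a7 cl.e_a7
    (cl.S6 - cl.a7) rfl
    (v.t * yb.b1) rfl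
    ((1 : ℝ) + v.t * yb.b1) rfl).2
    (((1 : ℝ) + v.t * yb.b1)⁻¹) rfl
    cl.S7 cl.e_S7
    (v.u * v.tu) rfl
    (v.u * v.tu * yb.eN) rfl
    (v.u * v.tu * yb.eN * yb.q0) rfl
    cl.a8 cl.e_a8
    (cl.S7 + cl.a8) rfl
    (cl.S7 * cl.a8) rfl
    (v.t * (cl.S7 * cl.a8)) rfl
    cl.S8 cl.e_S8
    (v.t * cl.S8) rfl
    cl.c1 cl.e_c1
    (yb.fbt * xa.XM) rfl
    (v.t * yb.XLt) rfl
    (cl.FXt * (v.t * yb.XLt)) rfl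
    (yb.fbt * xa.XM + cl.FXt * (v.t * yb.XLt)) rfl
    cl.rt cl.e_rt
    (yb.fbt + cl.FXt) rfl
    cl.fm cl.e_fm
    (cl.rt * cl.c1) rfl
    (cl.S8 + cl.rt * cl.c1) rfl
    (cl.S8 + cl.rt * cl.c1 + cl.fm) rfl
    cl.Bm cl.e_Bm
    ((1 / 1024) * (1 : ℝ)) (congrArg (fun y : ℝ => y * (1 : ℝ)) zLMa_1073741824_0)
    (cl.Bm - (1 / 1024) * (1 : ℝ)) rfl
    yb.m1 yb.e_m1
    (yb.m1 + (2 : ℝ)) rfl
    (2 * yb.beta) (congrArg (fun y : ℝ => y * yb.beta) zLMa_2199023255552_0)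
    (yb.m1 + (2 : ℝ) - 2 * yb.beta) rfl
    ((v.h + (1 : ℝ)) * (yb.m1 + (2 : ℝ) - 2 * yb.beta)) rfl
    (yb.m1 * (2 * yb.beta)) rfl
    (yb.m1 * (2 * yb.beta) + (1 : ℝ)) rfl).2
    ((yb.m1 * (2 * yb.beta) + (1 : ℝ))⁻¹) rfl
    ((v.h + (1 : ℝ)) * (yb.m1 + (2 : ℝ) - 2 * yb.beta) * (yb.m1 * (2 * yb.beta) + (1 : ℝ))⁻¹) rfl
    (xa.AE * yb.fxe) rfl
    ((1 / 2) * v2.lm) (congrArg (fun y : ℝ => y * v2.lm) zLMa_549755813888_0)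
    (v.K + (1 / 2) * v2.lm) rfl
    (xa.AE * yb.fxe * (v.K + (1 / 2) * v2.lm)) rfl
    (2 * (xa.AE * yb.fxe * (v.K + (1 / 2) * v2.lm))) (congrArg (fun y : ℝ => y * (xa.AE * yb.fxe * (v.K + (1 / 2) * v2.lm))) zLMa_2199023255552_0)
    (yb.src + 2 * (xa.AE * yb.fxe * (v.K + (1 / 2) * v2.lm))) rfl
    (2 * (yb.src + 2 * (xa.AE * yb.fxe * (v.K + (1 / 2) * v2.lm)))) (congrArg (fun y : ℝ => y * (yb.src + 2 * (xa.AE * yb.fxe * (v.K + (1 / 2) * v2.lm)))) zLMa_2199023255552_0)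
    (2 * (yb.src + 2 * (xa.AE * yb.fxe * (v.K + (1 / 2) * v2.lm))) * yb.NN) rfl
    (v.tu * yb.eN) rfl
    (v.op1 - v.tu * yb.eN) rfl).2
    ((v.op1 - v.tu * yb.eN)⁻¹) rfl
    (2 * (yb.src + 2 * (xa.AE * yb.fxe * (v.K + (1 / 2) * v2.lm))) * yb.NN * (v.op1 - v.tu * yb.eN)⁻¹) rfl
    yb.V yb.e_V
    ((1 : ℝ) * v.nj * ((1 : ℝ) * v.nj)) rfl
    (13 : ℝ) zLMa_14293651161088_0
    (10 : ℝ) zLMa_10995116277760_0).2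
    ((10 : ℝ)⁻¹) rfl
    ((13 : ℝ) * (10 : ℝ)⁻¹) rfl
    ((1 : ℝ) * v.nj * ((1 : ℝ) * v.nj) * ((13 : ℝ) * (10 : ℝ)⁻¹)) rfl
    (S * S) rfl
    (25 * (S * S)) (congrArg (fun y : ℝ => y * (S * S)) zLMa_27487790694400_0)
    yb.C2 yb.e_C2
    yb.gr yb.e_gr
    (2 * v.c0 - v.t) rfl
    yb.Gt yb.e_Gt
    ((1 : ℝ) * v.u) rfl
    yb.au yb.e_au
    (v.op1 * yb.fxe) rfl
    (v.op1 * yb.fxe * xa.iG4) rfl
    yb.inner yb.e_inner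
    (v.tu * yb.eN + (2 : ℝ)) rfl
    yb.ezs yb.e_ezs
    (yb.C2 * yb.gr) rfl
    (yb.NN * yb.ezs) rfl
    (yb.au * yb.inner) rfl
    (yb.NN * yb.ezs * (yb.au * yb.inner)) rfl
    yb.Rg0 yb.e_Rg0
    ((1 / 2) * (v.tu * yb.eN)) (congrArg (fun y : ℝ => y * (v.tu * yb.eN)) zLMa_549755813888_0)
    ((1 : ℝ) + (1 / 2) * (v.tu * yb.eN)) rfl
    (yb.NN * ((1 : ℝ) + (1 / 2) * (v.tu * yb.eN))) rfl
    (v.t * v.om1) rfl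
    (v.t * v.om1 * v2.bsum) rfl
    (v.op1 * v.aQ) rfl).2
    ((v.op1 * v.aQ)⁻¹) rfl
    (v.t * v.om1 * v2.bsum * (v.op1 * v.aQ)⁻¹) rfl
    (yb.NN * ((1 : ℝ) + (1 / 2) * (v.tu * yb.eN)) * (v.t * v.om1 * v2.bsum * (v.op1 * v.aQ)⁻¹)) rfl
    yb.Rh yb.e_Rh
    (v2.lm * yb.Rg0) rfl
    ((1 : ℝ) - v2.lm) rfl
    (v.u2 * yb.Rh) rfl
    (((1 : ℝ) - v2.lm) * (v.u2 * yb.Rh)) rfl
    (yb.C2 * (((1 : ℝ) - v2.lm) * (v.u2 * yb.Rh))) rfl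
    yb.Rg yb.e_Rg
  change 0 < (1 : ℝ) - xa.XM at p_XM
  obtain ⟨p_QX, s9⟩ := s8
  change 0 < (1 : ℝ) - xa.QX at p_QX
  obtain ⟨p_e2, s10⟩ := s9
    (2 * (v.tu2 * yb.epd)) (congrArg (fun y : ℝ => y * (v.tu2 * yb.epd)) zLMa_2199023255552_0)
    (v.aQ - 2 * (v.tu2 * yb.epd)) rfl
  change 0 < v.aQ - 2 * (v.tu2 * yb.epd) at p_e2
  obtain ⟨p_rl, s11⟩ := s10
  change 0 < yb.rl at p_rl
  obtain ⟨p_hgp, s12⟩ := s11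
    ((1 / 2 : ℝ) - hgp) rfl
  change 0 < (1 / 2 : ℝ) - hgp at p_hgp
  obtain ⟨p_l1, s13⟩ := s12
    ((5 / 8) * (1 : ℝ)) (congrArg (fun y : ℝ => y * (1 : ℝ)) zLMa_687194767360_0)
    ((5 / 8) * (1 : ℝ) - xa.l1) rfl
  change 0 < (5 / 8) * (1 : ℝ) - xa.l1 at p_l1
  obtain ⟨p_a0, s14⟩ := s13
    ((11 / 32) * (1 : ℝ)) (congrArg (fun y : ℝ => y * (1 : ℝ)) zLMa_377957122048_0)
    ((11 / 32) * (1 : ℝ) - xa.a0) rfl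
  change 0 < (11 / 32) * (1 : ℝ) - xa.a0 at p_a0
  obtain ⟨p_S, s15⟩ := s14
  change 0 < v.op1 - v.tu * yb.eN at p_S
  obtain ⟨p_zp, s16⟩ := s15
  change 0 < (1 : ℝ) - yb.zp at p_zp
  obtain ⟨p_rr, s17⟩ := s16
    ((5 / 8) * (1 : ℝ) - yb.rr) rfl
  change 0 < (5 / 8) * (1 : ℝ) - yb.rr at p_rr
  obtain ⟨p_V, s18⟩ := s17
  change 0 < yb.V at p_V
  obtain ⟨p_B, s19⟩ := s18
  change 0 < cl.Bm - (1 / 1024) * (1 : ℝ) at p_B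
  obtain ⟨p_Rg, s20⟩ := s19
  change 0 < yb.Rg at p_Rg
  obtain ⟨p_Rh, s21⟩ := s20
  change 0 < yb.Rh at p_Rh
  have hQ := qb_s G f lv.e_rhi e_q e_th
  have hq := hQ.le
  have hQp := qb_p G f p_rplo.le lv.e_rphi e_qp e_thp
  have hqp := hQp.le
  have hq0 : 0 < q := lt_of_lt_of_le (by rw [G.q_eq]; exact G.q0) hq
  have hγ := gam_le_one G.e0 G.κ0 G.s0
  have hccp : ccp ≤ Real.cos (v.e * (Qk κ (shf κ (shf κ τ))).arg) := cc_q (arg_xp G v3 v5 hsc e_w e_x e_xp) e_ccp p_xqp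
  have hgRp := gR_GD G.e0 G.κ0 (shf_re' G.κ0 G.s0) b' hQp hccp (G.hp_eq v3) p_o2p p_Wp e_gp
  have hγp := gam_g G.e0 G.κ0 (shf_re' G.κ0 G.s0) hgRp e_gap
  have hoo := oo_sharp8 G.κ0 G.s0 hQ (Qre0 G) hsc.ee (x_eq G v5 hsc e_w e_x) e_cu e_xe e_o2u e_ooo
  have hn1 : ‖1 + qq v.e κ (shf κ τ)‖ ≤ Q1 := by
    rw [e_Q1]; exact n1_sharp8 G.e0 G.κ0 G.s0 hq hoo (hg_le G hγ e_hg)
  have hlx : 1 * lsx = v.h1t * lsf * 1 := by rw [e_lsx, one_mul]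
  have fr := fr_g G hγ hq hq0 e_hg e_lsf p_hg e_Qb e_ls (hsc.al0 G) hlx hn1
  have hgu : 1 * gu = gap * S := by rw [e_gu]; ring
  obtain ⟨lf0, Ex, hφ⟩ := ph_slz G v2 hsc e_tz hde' hu hz0 he2 (by norm_num) (by norm_num) (by norm_num) e_phux e_Ei e_Eh
  have as8 : As8 xa yb := ⟨p_XM, p_QX, p_e2, p_rl, p_l1, p_a0, p_S, p_zp, p_rr, p_V, p_Rg, p_Rh⟩
  exact far_Cl G D hsc hA0 hA as8 fr hgu hγp hφ pk f p_rplo e_hgp p_hgp p_lspa p_pe p_yy cl e_srcx e_srcs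
    (mul_one v.t) G.t0 (by linear_combination v.t * e_y1 - pk.ye * e_r) p_B

theorem far_LMa3 {κ : ℝ} {τ : ℂ} {R w : ℝ} {v : B1} (D : PtE (3 * 5⁻¹) v.e κ τ R w)
    (G : Geo κ (shf κ τ) v) (v2 : B2 v) (v3 : B3 v) (v5 : V5 v) {l1 : Lg v.D} {l2 : Lg v.D2}
    (lv : LV v l1 l2) (he2 : 2 ≤ v.e) {S z de : ℝ}
    (hde0 : 0 < de) (hde : de = v.t * z * S) (hu : v.u = z * de) (hz0 : 0 < z)
    (hee : v.e * (de * de) = 1)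
    (h : RAs Pool.Agent.helper71.FJ.Crt.LMa.prog3 [S, v.t, z, v.n]) :
    FarPt v.e κ (1 - Real.sinh κ / 1024) w (2 * AL v.e v.K * Real.sinh κ ^ 2) R
      (RE v.e κ (w * R)) τ := by
  obtain ⟨tz, e_tz⟩ : ∃ zz : ℝ, zz = v.t * z := ⟨_, rfl⟩
  have hde' : de = tz * S := by rw [e_tz]; exact hde
  obtain ⟨z2, e_z2⟩ : ∃ zz : ℝ, zz = z * z := ⟨_, rfl⟩
  obtain ⟨r, e_r⟩ : ∃ zz : ℝ, zz = v.t * z2 := ⟨_, rfl⟩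
  obtain ⟨eps, e_eps⟩ : ∃ zz : ℝ, zz = de * de := ⟨_, rfl⟩
  obtain ⟨tr, e_tr⟩ : ∃ zz : ℝ, zz = v.t * r := ⟨_, rfl⟩
  obtain ⟨q, e_q⟩ : ∃ zz : ℝ, zz = Real.exp (-(r * lv.rlo)) := ⟨_, rfl⟩
  obtain ⟨th, e_th⟩ : ∃ zz : ℝ, zz = q * (r * lv.er) := ⟨_, rfl⟩
  obtain ⟨wv, e_w⟩ : ∃ zz : ℝ, zz = (1 : ℝ) * (S * (v.c0 + v.R))⁻¹ := ⟨_, rfl⟩
  obtain ⟨xv, e_x⟩ : ∃ zz : ℝ, zz = wv * wv * v5.sn := ⟨_, rfl⟩
  obtain ⟨hg, e_hg⟩ : ∃ zz : ℝ, zz = v.h1 * (1 : ℝ) := ⟨_, rfl⟩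
  obtain ⟨lsf, e_lsf⟩ : ∃ zz : ℝ, zz = ((1 : ℝ) - (1 / 2) * hg) * ((1 : ℝ) - hg)⁻¹ := ⟨_, rfl⟩
  obtain ⟨Qb, e_Qb⟩ : ∃ zz : ℝ, zz = q * (hg + (1 : ℝ)) := ⟨_, rfl⟩
  obtain ⟨lsx, e_lsx⟩ : ∃ zz : ℝ, zz = v.h1t * lsf * (1 : ℝ) := ⟨_, rfl⟩
  obtain ⟨ls, e_ls⟩ : ∃ zz : ℝ, zz = hg * lsf := ⟨_, rfl⟩
  obtain ⟨hgp, e_hgp⟩ : ∃ zz : ℝ, zz = v3.hp * (1 : ℝ) := ⟨_, rfl⟩
  obtain ⟨gu, e_gu⟩ : ∃ zz : ℝ, zz = (1 : ℝ) * S := ⟨_, rfl⟩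
  obtain ⟨G4, e_G4⟩ : ∃ zz : ℝ, zz = (1 / 2) * (4 * S + (1 : ℝ) * v.nj) := ⟨_, rfl⟩
  obtain ⟨Ei, e_Ei⟩ : ∃ zz : ℝ, zz = 2 * eps + (1 : ℝ) := ⟨_, rfl⟩
  obtain ⟨Eh, e_Eh⟩ : ∃ zz : ℝ, zz = eps + (1 : ℝ) := ⟨_, rfl⟩
  obtain ⟨phux, e_phux⟩ : ∃ zz : ℝ, zz = (1 / 2) * (z * (2 * (S * v.nj) + (1 / 2) * v.t)) := ⟨_, rfl⟩
  obtain ⟨cu, e_cu⟩ : ∃ zz : ℝ, zz = (1 : ℝ) - xv * ((1 / 2 : ℝ) - xv * ((45812984491 / 1099511627776 : ℝ) - xv * ((1527099483 / 1099511627776 : ℝ) - xv * ((13634817 / 549755813888 : ℝ) - xv * ((302995 / 1099511627776 : ℝ) - xv * ((287 / 137438953472 : ℝ) - xv * ((3 / 274877906944 : ℝ) - xv * (1 / 1099511627776 : ℝ)))))))) := ⟨_, rfl⟩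
  obtain ⟨xe, e_xe⟩ : ∃ zz : ℝ, zz = xv * eps := ⟨_, rfl⟩
  obtain ⟨o2u, e_o2u⟩ : ∃ zz : ℝ, zz = q * q + (1 : ℝ) + 2 * (q * (cu + (43 / 128) * (xe * xe))) + 2 * th := ⟨_, rfl⟩
  obtain ⟨ooo, e_ooo⟩ : ∃ zz : ℝ, zz = Real.exp ((1 / 2) * Real.log (o2u + (1 / 128 : ℝ))) := ⟨_, rfl⟩
  obtain ⟨Q1, e_Q1⟩ : ∃ zz : ℝ, zz = ooo + q * hg := ⟨_, rfl⟩
  obtain ⟨xa⟩ := exKa v2 eps 1 S G4 Qb Q1 ls lsx phux Ei Eh
  obtain ⟨srcx, e_srcx⟩ : ∃ zz : ℝ, zz = v.om1 * ((1 / 2) * (r * v2.bsum * v.aQ⁻¹)) + xa.kl := ⟨_, rfl⟩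
  obtain ⟨srcs, e_srcs⟩ : ∃ zz : ℝ, zz = v.t * srcx := ⟨_, rfl⟩
  obtain ⟨yb⟩ := exKb (3 * 5⁻¹) xa tr 1 gu srcs
  obtain ⟨pk⟩ := exPk v5 lv.rplo v3.hp hgp gu yb.yy
  obtain ⟨y1, e_y1⟩ : ∃ zz : ℝ, zz = z2 * pk.ye := ⟨_, rfl⟩
  obtain ⟨cl⟩ := exCl yb v.t 1 y1 srcx
  have hsc := sc_Ma hde' e_tz hu hee hde0 G.t0 hz0.le e_z2 e_r e_tr e_eps
  obtain ⟨hA0, hA⟩ := hA_L G hsc e_G4
  have f := lv.f G hsc.hr
  obtain ⟨p_hg, s0⟩ := ((((((((((h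
    (1 : ℝ) zLMa_1099511627776_0
    tz e_tz
    de hde'
    v.u hu
    z2 e_z2
    r e_r
    eps e_eps
    tr e_tr
    (1 / 2 : ℝ) zLMa_549755813888_0
    v.tu v.e_tu
    (v.tu * v.n) rfl
    v.h (v.e_h.trans (congrArg (fun y : ℝ => y * (v.tu * v.n)) zLMa_549755813888_0))
    v.u2 v.e_u2
    (v.h * v.h) rfl
    v.jm v.e_jm).2
    v.j v.e_j
    (v.h * v.j) rfl
    v.K (v.e_K.trans (congrArg (fun y : ℝ => y * (v.h * v.j)) zLMa_2199023255552_0))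
    (2 * v.j) (congrArg (fun y : ℝ => y * v.j) zLMa_2199023255552_0)
    v.c0 v.e_c0
    v.m v.e_m
    v.nj v.e_nj
    v.om v.e_om
    v.om1 v.e_om1
    v.op1 v.e_op1
    v.R v.e_R
    v.nj2 v.e_nj2
    v2.Y (v2.e_Y.trans (congrArg (fun y : ℝ => y * v.h) zLMa_10774999203840_0))
    ((341 / 8192) * v2.Y) (congrArg (fun y : ℝ => y * v2.Y) zLMa_45768245248_0)
    (1365 / 8192 : ℝ) zLMa_183207198720_0
    ((341 / 8192) * v2.Y + (1365 / 8192 : ℝ)) rfl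
    (v2.Y * ((341 / 8192) * v2.Y + (1365 / 8192 : ℝ))) rfl
    ((1 / 2 : ℝ) + v2.Y * ((341 / 8192) * v2.Y + (1365 / 8192 : ℝ))) rfl
    (v2.Y * ((1 / 2 : ℝ) + v2.Y * ((341 / 8192) * v2.Y + (1365 / 8192 : ℝ)))) rfl
    v2.pY v2.e_pY
    (v2.Y * v2.pY) rfl
    ((1 / 2) * (v2.Y * v2.pY)) (congrArg (fun y : ℝ => y * (v2.Y * v2.pY)) zLMa_549755813888_0)
    ((1 : ℝ) + (1 / 2) * (v2.Y * v2.pY)) rfl
    v2.Yp v2.e_Yp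
    (v.K * v.om) rfl
    (2 * v.c0) (congrArg (fun y : ℝ => y * v.c0) zLMa_2199023255552_0)
    (v.K * v.om + 2 * v.c0) rfl
    v.Dt v.e_Dt
    v.D v.e_D
    v.SQ v.e_SQ
    (v.K * v.K) rfl
    (2 * (v.K * v.K)) (congrArg (fun y : ℝ => y * (v.K * v.K)) zLMa_2199023255552_0)
    v.c2 v.e_c2
    (v.c0 * v.Dt) rfl
    v.rhat v.e_rhat).2
    v.LQ v.e_LQ
    ((1 / 2) * v.LQ) (congrArg (fun y : ℝ => y * v.LQ) zLMa_549755813888_0)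
    v.aQ v.e_aQ
    (3 : ℝ) zLMa_3298534883328_0).2
    ((3 : ℝ)⁻¹) rfl
    ((1 : ℝ) * (3 : ℝ)⁻¹) rfl
    (2 : ℝ) zLMa_2199023255552_0
    (v.D + (2 : ℝ)) rfl).2
    ((v.D + (2 : ℝ))⁻¹) rfl
    l1.zL l1.e_zL
    l1.zz l1.e_zz
    ((1 : ℝ) - l1.zL) rfl
    (l1.zz * ((1 : ℝ) * (3 : ℝ)⁻¹)) rfl
    ((1 : ℝ) + l1.zz * ((1 : ℝ) * (3 : ℝ)⁻¹)) rfl
    l1.Lv l1.e_Lv
    (l1.zz * l1.zz) rfl
    l1.eL (l1.e_eL.trans (congrArg (fun y : ℝ => y * (l1.zz * l1.zz)) zLMa_219915747328_0))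
    (v.Dt * l1.Lv) rfl
    lv.rlo (lv.e_rlo.trans (congrArg (fun y : ℝ => y * (v.Dt * l1.Lv)) zLMa_549755813888_0))
    (v.Dt * l1.eL) rfl
    lv.er (lv.e_er.trans (congrArg (fun y : ℝ => y * (v.Dt * l1.eL)) zLMa_549755813888_0))
    lv.rhi lv.e_rhi
    (v.c0 * v.rhat) rfl
    lv.D2R (lv.e_D2R.trans (congrArg (fun y : ℝ => y * (v.c0 * v.rhat)) zLMa_4398046511104_0))
    (v.c0 * v.R) rfl
    (v.c0 * v.R * v.rhat) rfl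
    v.D2 (v.e_D2.trans (congrArg (fun y : ℝ => y * (v.c0 * v.R * v.rhat)) zLMa_4398046511104_0))
    (v.D2 + (2 : ℝ)) rfl).2
    ((v.D2 + (2 : ℝ))⁻¹) rfl
    l2.zL l2.e_zL
    l2.zz l2.e_zz
    ((1 : ℝ) - l2.zL) rfl
    (l2.zz * ((1 : ℝ) * (3 : ℝ)⁻¹)) rfl
    ((1 : ℝ) + l2.zz * ((1 : ℝ) * (3 : ℝ)⁻¹)) rfl
    l2.Lv l2.e_Lv
    (l2.zz * l2.zz) rfl
    l2.eL (l2.e_eL.trans (congrArg (fun y : ℝ => y * (l2.zz * l2.zz)) zLMa_219915747328_0))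
    (lv.D2R * l2.Lv) rfl
    ((1 / 2) * (lv.D2R * l2.Lv)) (congrArg (fun y : ℝ => y * (lv.D2R * l2.Lv)) zLMa_549755813888_0)
    lv.rplo lv.e_rplo
    (lv.D2R * l2.eL) rfl
    ((1 / 2) * (lv.D2R * l2.eL)) (congrArg (fun y : ℝ => y * (lv.D2R * l2.eL)) zLMa_549755813888_0)
    lv.erp lv.e_erp
    lv.rphi lv.e_rphi
    (r * lv.rlo) rfl
    (-(r * lv.rlo)) rfl
    q e_q
    (r * lv.er) rfl
    th e_th
    (v.om * v.K) rfl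
    (v.c0 + v.om * v.K) rfl).2
    v.ioK v.e_ioK
    v.h1t v.e_h1t
    (v.om1 * v.t) rfl
    v.h1 v.e_h1
    ((1 : ℝ) - v.u2) rfl
    v.f2 v.e_f2
    v.tu2 v.e_tu2
    ((1 : ℝ) - v.nj2) rfl
    v5.sn v5.e_sn
    (v.R * v.rhat) rfl).2
    (v.SQ⁻¹) rfl
    v5.R1 v5.e_R1
    (v.c0 + v5.R1) rfl
    v5.Qr v5.e_Qr
    (v5.Qr * v5.Qr) rfl).2
    ((v5.Qr * v5.Qr)⁻¹) rfl
    v5.Th v5.e_Th
    (v.c0 + v.R) rfl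
    (S * (v.c0 + v.R)) rfl).2
    ((S * (v.c0 + v.R))⁻¹) rfl
    wv e_w
    (wv * wv) rfl
    xv e_x
    hg e_hg
    ((1 / 2) * hg) (congrArg (fun y : ℝ => y * hg) zLMa_549755813888_0)
    ((1 : ℝ) - (1 / 2) * hg) rfl
    ((1 : ℝ) - hg) rfl).2
    (((1 : ℝ) - hg)⁻¹) rfl
    lsf e_lsf
    (hg + (1 : ℝ)) rfl
    Qb e_Qb
    (v.h1t * lsf) rfl
    lsx e_lsx
    ls e_ls
  change 0 < (1 : ℝ) - hg at p_hg
  obtain ⟨p_rplo, s1⟩ := (s0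
    (v.om1 * v.op1) rfl
    (v.c0 + v.t) rfl
    (v.om * v.c0) rfl
    (v.om * v.c0 * v.K) rfl
    (2 * (v.om * v.c0 * v.K)) (congrArg (fun y : ℝ => y * (v.om * v.c0 * v.K)) zLMa_2199023255552_0)
    (v.c2 + 2 * (v.om * v.c0 * v.K)) rfl
    ((v.c0 + v.t) * (v.c2 + 2 * (v.om * v.c0 * v.K))) rfl).2
    (((v.c0 + v.t) * (v.c2 + 2 * (v.om * v.c0 * v.K)))⁻¹) rfl
    v3.hpt v3.e_hpt
    v3.hp v3.e_hp
  change 0 < lv.rplo at p_rplo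
  obtain ⟨p_lspa, s2⟩ := ((((((((((((((s1
    hgp e_hgp
    gu e_gu
    (v.h + (1 : ℝ)) rfl).2
    v2.ih v2.e_ih
    (v.h * v2.ih) rfl
    v2.rh (v2.e_rh.trans (congrArg (fun y : ℝ => y * (v.h * v2.ih)) zLMa_2199023255552_0))
    v2.mi v2.e_mi
    v2.hm v2.e_hm
    v2.nih v2.e_nih
    (v2.nih * v2.mi) rfl
    v2.bsum v2.e_bsum
    ((209 / 1024) * v.j) (congrArg (fun y : ℝ => y * v.j) zLMa_224412041216_0)).2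
    (v2.Yp⁻¹) rfl
    v2.lm v2.e_lm
    (4 * S) (congrArg (fun y : ℝ => y * S) zLMa_4398046511104_0)
    ((1 : ℝ) * v.nj) rfl
    (4 * S + (1 : ℝ) * v.nj) rfl
    G4 (e_G4.trans (congrArg (fun y : ℝ => y * (4 * S + (1 : ℝ) * v.nj)) zLMa_549755813888_0))).2
    xa.iG4 xa.e_iG4
    xa.alG xa.e_alG
    xa.AE xa.e_AE
    (xa.AE * v.op1) rfl
    xa.XeE xa.e_XeE
    (xa.alG * v.op1) rfl
    xa.XM xa.e_XM
    ((1 : ℝ) - xa.XM) rfl).2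
    xa.iX xa.e_iX
    xa.QX xa.e_QX
    ((1 : ℝ) - xa.QX) rfl).2
    xa.iQX xa.e_iQX
    (2 * eps) (congrArg (fun y : ℝ => y * eps) zLMa_2199023255552_0)
    Ei e_Ei
    Eh e_Eh
    (S * v.nj) rfl
    (2 * (S * v.nj)) (congrArg (fun y : ℝ => y * (S * v.nj)) zLMa_2199023255552_0)
    ((1 / 2) * v.t) (congrArg (fun y : ℝ => y * v.t) zLMa_549755813888_0)
    (2 * (S * v.nj) + (1 / 2) * v.t) rfl
    (z * (2 * (S * v.nj) + (1 / 2) * v.t)) rfl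
    phux (e_phux.trans (congrArg (fun y : ℝ => y * (z * (2 * (S * v.nj) + (1 / 2) * v.t))) zLMa_549755813888_0))
    (v.h * v.nj) rfl
    ((1 : ℝ) - v.f2) rfl
    (v.h * v.om) rfl
    (2 * (v.h * v.om)) (congrArg (fun y : ℝ => y * (v.h * v.om)) zLMa_2199023255552_0)
    ((1 : ℝ) - v.f2 - 2 * (v.h * v.om)) rfl
    (v.h * v.nj * (v.h * v.nj)) rfl
    xa.N1 xa.e_N1
    (xa.N1 + (1 : ℝ)) rfl
    xa.s (xa.e_s.trans (congrArg (fun y : ℝ => y * (xa.N1 + (1 : ℝ))) zLMa_549755813888_0))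
    ((1 / 2) * v.R) (congrArg (fun y : ℝ => y * v.R) zLMa_549755813888_0)
    (v.j - (1 / 2) * v.R) rfl
    (v.tu2 * ((1 : ℝ) - v.f2)) rfl
    (v.tu2 * ((1 : ℝ) - v.f2) * v.jm) rfl
    ((1 / 8) * (v.tu2 * ((1 : ℝ) - v.f2) * v.jm)) (congrArg (fun y : ℝ => y * (v.tu2 * ((1 : ℝ) - v.f2) * v.jm)) zLMa_137438953472_0)
    (v.j - (1 / 2) * v.R + (1 / 8) * (v.tu2 * ((1 : ℝ) - v.f2) * v.jm)) rfl
    xa.k0 xa.e_k0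
    (1 / 1099511627776 : ℝ) zLMa_1_0
    (3 / 274877906944 : ℝ) zLMa_12_0
    (xv * (1 / 1099511627776 : ℝ)) rfl
    ((3 / 274877906944 : ℝ) - xv * (1 / 1099511627776 : ℝ)) rfl
    (287 / 137438953472 : ℝ) zLMa_2296_0
    (xv * ((3 / 274877906944 : ℝ) - xv * (1 / 1099511627776 : ℝ))) rfl
    ((287 / 137438953472 : ℝ) - xv * ((3 / 274877906944 : ℝ) - xv * (1 / 1099511627776 : ℝ))) rfl
    (302995 / 1099511627776 : ℝ) zLMa_302995_0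
    (xv * ((287 / 137438953472 : ℝ) - xv * ((3 / 274877906944 : ℝ) - xv * (1 / 1099511627776 : ℝ)))) rfl
    ((302995 / 1099511627776 : ℝ) - xv * ((287 / 137438953472 : ℝ) - xv * ((3 / 274877906944 : ℝ) - xv * (1 / 1099511627776 : ℝ)))) rfl
    (13634817 / 549755813888 : ℝ) zLMa_27269634_0
    (xv * ((302995 / 1099511627776 : ℝ) - xv * ((287 / 137438953472 : ℝ) - xv * ((3 / 274877906944 : ℝ) - xv * (1 / 1099511627776 : ℝ))))) rfl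
    ((13634817 / 549755813888 : ℝ) - xv * ((302995 / 1099511627776 : ℝ) - xv * ((287 / 137438953472 : ℝ) - xv * ((3 / 274877906944 : ℝ) - xv * (1 / 1099511627776 : ℝ))))) rfl
    (1527099483 / 1099511627776 : ℝ) zLMa_1527099483_0
    (xv * ((13634817 / 549755813888 : ℝ) - xv * ((302995 / 1099511627776 : ℝ) - xv * ((287 / 137438953472 : ℝ) - xv * ((3 / 274877906944 : ℝ) - xv * (1 / 1099511627776 : ℝ)))))) rfl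
    ((1527099483 / 1099511627776 : ℝ) - xv * ((13634817 / 549755813888 : ℝ) - xv * ((302995 / 1099511627776 : ℝ) - xv * ((287 / 137438953472 : ℝ) - xv * ((3 / 274877906944 : ℝ) - xv * (1 / 1099511627776 : ℝ)))))) rfl
    (45812984491 / 1099511627776 : ℝ) zLMa_45812984491_0
    (xv * ((1527099483 / 1099511627776 : ℝ) - xv * ((13634817 / 549755813888 : ℝ) - xv * ((302995 / 1099511627776 : ℝ) - xv * ((287 / 137438953472 : ℝ) - xv * ((3 / 274877906944 : ℝ) - xv * (1 / 1099511627776 : ℝ))))))) rfl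
    ((45812984491 / 1099511627776 : ℝ) - xv * ((1527099483 / 1099511627776 : ℝ) - xv * ((13634817 / 549755813888 : ℝ) - xv * ((302995 / 1099511627776 : ℝ) - xv * ((287 / 137438953472 : ℝ) - xv * ((3 / 274877906944 : ℝ) - xv * (1 / 1099511627776 : ℝ))))))) rfl
    (xv * ((45812984491 / 1099511627776 : ℝ) - xv * ((1527099483 / 1099511627776 : ℝ) - xv * ((13634817 / 549755813888 : ℝ) - xv * ((302995 / 1099511627776 : ℝ) - xv * ((287 / 137438953472 : ℝ) - xv * ((3 / 274877906944 : ℝ) - xv * (1 / 1099511627776 : ℝ)))))))) rfl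
    ((1 / 2 : ℝ) - xv * ((45812984491 / 1099511627776 : ℝ) - xv * ((1527099483 / 1099511627776 : ℝ) - xv * ((13634817 / 549755813888 : ℝ) - xv * ((302995 / 1099511627776 : ℝ) - xv * ((287 / 137438953472 : ℝ) - xv * ((3 / 274877906944 : ℝ) - xv * (1 / 1099511627776 : ℝ)))))))) rfl
    (xv * ((1 / 2 : ℝ) - xv * ((45812984491 / 1099511627776 : ℝ) - xv * ((1527099483 / 1099511627776 : ℝ) - xv * ((13634817 / 549755813888 : ℝ) - xv * ((302995 / 1099511627776 : ℝ) - xv * ((287 / 137438953472 : ℝ) - xv * ((3 / 274877906944 : ℝ) - xv * (1 / 1099511627776 : ℝ))))))))) rfl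
    cu e_cu
    xe e_xe
    (q * q) rfl
    (q * q + (1 : ℝ)) rfl
    (xe * xe) rfl
    ((43 / 128) * (xe * xe)) (congrArg (fun y : ℝ => y * (xe * xe)) zLMa_369367187456_0)
    (cu + (43 / 128) * (xe * xe)) rfl
    (q * (cu + (43 / 128) * (xe * xe))) rfl
    (2 * (q * (cu + (43 / 128) * (xe * xe)))) (congrArg (fun y : ℝ => y * (q * (cu + (43 / 128) * (xe * xe)))) zLMa_2199023255552_0)
    (q * q + (1 : ℝ) + 2 * (q * (cu + (43 / 128) * (xe * xe)))) rfl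
    (2 * th) (congrArg (fun y : ℝ => y * th) zLMa_2199023255552_0)
    o2u e_o2u
    (1 / 128 : ℝ) zLMa_8589934592_0
    (o2u + (1 / 128 : ℝ)) rfl).2
    (Real.log (o2u + (1 / 128 : ℝ))) rfl
    ((1 / 2) * Real.log (o2u + (1 / 128 : ℝ))) (congrArg (fun y : ℝ => y * Real.log (o2u + (1 / 128 : ℝ))) zLMa_549755813888_0)
    ooo e_ooo
    (q * hg) rfl
    Q1 e_Q1
    (Q1 * xa.iX) rfl
    (Qb * xa.iQX) rfl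
    (Q1 * xa.iX + Qb * xa.iQX) rfl
    (xa.XM * (Q1 * xa.iX + Qb * xa.iQX)) rfl
    (ls + xa.XM * (Q1 * xa.iX + Qb * xa.iQX)) rfl
    xa.a0 xa.e_a0
    (Q1 * xa.XM) rfl
    (Q1 * xa.XM * xa.iX) rfl
    (ls + Q1 * xa.XM * xa.iX) rfl
    xa.l1 xa.e_l1
    ((13 / 64) * xa.l1) (congrArg (fun y : ℝ => y * xa.l1) zLMa_223338299392_0)
    ((1 / 2 : ℝ) + (13 / 64) * xa.l1) rfl
    (xa.l1 * ((1 / 2 : ℝ) + (13 / 64) * xa.l1)) rfl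
    xa.Na xa.e_Na
    ((13 / 16) * xa.a0) (congrArg (fun y : ℝ => y * xa.a0) zLMa_893353197568_0)
    ((1 : ℝ) + (13 / 16) * xa.a0) rfl
    (xa.a0 * ((1 : ℝ) + (13 / 16) * xa.a0)) rfl
    xa.Nb xa.e_Nb
    (v2.rh * v2.nih) rfl
    (v2.rh * v2.nih * Ei) rfl
    xa.rn xa.e_rn
    (xa.k0 * xa.Na) rfl
    (v.aQ + (1 / 2 : ℝ)) rfl
    (xa.rn * (v.aQ + (1 / 2 : ℝ))) rfl
    xa.ka xa.e_ka
    (v.aQ + (1 : ℝ)) rfl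
    xa.kb xa.e_kb
    (Eh * (v.aQ + (1 : ℝ))) rfl
    (Eh * (v.aQ + (1 : ℝ)) * v2.nih) rfl
    xa.lfk xa.e_lfk
    (xa.ka * lsx) rfl
    (xa.lfk * phux) rfl
    xa.kl xa.e_kl
    (r * v2.bsum) rfl).2
    (v.aQ⁻¹) rfl
    (r * v2.bsum * v.aQ⁻¹) rfl
    ((1 / 2) * (r * v2.bsum * v.aQ⁻¹)) (congrArg (fun y : ℝ => y * (r * v2.bsum * v.aQ⁻¹)) zLMa_549755813888_0)
    (v.om1 * ((1 / 2) * (r * v2.bsum * v.aQ⁻¹))) rfl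
    srcx e_srcx
    srcs e_srcs
    yb.src yb.e_src
    (xa.ka * Q1) rfl
    (xa.ka * Q1 * xa.iX) rfl
    (xa.kb * Qb) rfl
    (xa.kb * Qb * xa.iQX) rfl
    yb.fxe yb.e_fxe
    (v.om1 * yb.src) rfl
    (xa.XeE * yb.fxe) rfl
    yb.epd yb.e_epd
    (v.tu2 * yb.epd) rfl
    (v.tu2 * yb.epd * v.aQ⁻¹) rfl
    ((1 : ℝ) - v.tu2 * yb.epd * v.aQ⁻¹) rfl).2
    yb.NN yb.e_NN
    yb.eN yb.e_eN
    yb.d yb.e_d
    yb.eta yb.e_eta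
    (yb.eta * v.aQ⁻¹) rfl
    ((1 : ℝ) - yb.eta * v.aQ⁻¹) rfl
    (v.rhat * ((1 : ℝ) - yb.eta * v.aQ⁻¹)) rfl
    yb.rl yb.e_rl).2
    yb.irl yb.e_irl
    yb.yy yb.e_yy
    (v.aQ - yb.eta) rfl).2
    yb.q0 yb.e_q0
    yb.zp yb.e_zp
    ((1 / 2) * yb.zp) (congrArg (fun y : ℝ => y * yb.zp) zLMa_549755813888_0)
    ((1 : ℝ) - (1 / 2) * yb.zp) rfl
    ((1 : ℝ) - yb.zp) rfl).2
    (((1 : ℝ) - yb.zp)⁻¹) rfl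
    yb.kzp yb.e_kzp
    (v.u * yb.q0) rfl
    (gu * yb.irl) rfl
    (gu * yb.irl * yb.kzp) rfl
    yb.Cu yb.e_Cu
    (tr * yb.eN) rfl
    (yb.q0 * (tr * yb.eN)) rfl
    ((1 : ℝ) * yb.irl) rfl
    ((1 : ℝ) * yb.irl * yb.kzp) rfl
    ((1 : ℝ) * yb.irl * yb.kzp * yb.d) rfl
    yb.rr yb.e_rr
    ((13 / 64) * yb.rr) (congrArg (fun y : ℝ => y * yb.rr) zLMa_223338299392_0)
    ((1 / 2 : ℝ) + (13 / 64) * yb.rr) rfl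
    (yb.rr * ((1 / 2 : ℝ) + (13 / 64) * yb.rr)) rfl
    ((1 : ℝ) + yb.rr * ((1 / 2 : ℝ) + (13 / 64) * yb.rr)) rfl
    (yb.Cu * ((1 : ℝ) + yb.rr * ((1 / 2 : ℝ) + (13 / 64) * yb.rr))) rfl
    yb.CuN yb.e_CuN
    yb.fbt yb.e_fbt
    yb.XLt yb.e_XLt
    (5 : ℝ) zLMa_5497558138880_0).2
    ((5 : ℝ)⁻¹) rfl
    yb.beta yb.e_beta
    ((v.h + (1 : ℝ)) * v.op1) rfl
    yb.b1 yb.e_b1
    pk.omr pk.e_omr
    pk.omp pk.e_omp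
    ((1 / 2) * hgp) (congrArg (fun y : ℝ => y * hgp) zLMa_549755813888_0)
    ((1 : ℝ) - (1 / 2) * hgp) rfl
    ((1 : ℝ) - hgp) rfl).2
    (((1 : ℝ) - hgp)⁻¹) rfl
    (((1 : ℝ) - (1 / 2) * hgp) * ((1 : ℝ) - hgp)⁻¹) rfl
    pk.lspf pk.e_lspf
    (v.tu2 * v5.Th) rfl
    ((2731 / 4096) * (v.tu2 * v5.Th)) (congrArg (fun y : ℝ => y * (v.tu2 * v5.Th)) zLMa_733097230336_0)
    ((1 : ℝ) - (2731 / 4096) * (v.tu2 * v5.Th)) rfl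
    (v5.Th * ((1 : ℝ) - (2731 / 4096) * (v.tu2 * v5.Th))) rfl
    (lv.rplo * lv.rplo) rfl
    (v.u2 * (lv.rplo * lv.rplo)) rfl
    pk.E0 pk.e_E0
    pk.lspa pk.e_lspa
    (pk.E0 + (1 : ℝ)) rfl
    (pk.lspa * (pk.E0 + (1 : ℝ))) rfl
    (pk.E0 - pk.lspa * (pk.E0 + (1 : ℝ))) rfl
    ((2731 / 8192) * (v.K * v.K)) (congrArg (fun y : ℝ => y * (v.K * v.K)) zLMa_366548615168_0)
    ((1 : ℝ) - (2731 / 8192) * (v.K * v.K)) rfl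
    (v.nj2 * ((1 : ℝ) - (2731 / 8192) * (v.K * v.K))) rfl
    (pk.E0 - pk.lspa * (pk.E0 + (1 : ℝ)) + v.nj2 * ((1 : ℝ) - (2731 / 8192) * (v.K * v.K))) rfl
    (pk.omr * (pk.E0 - pk.lspa * (pk.E0 + (1 : ℝ)) + v.nj2 * ((1 : ℝ) - (2731 / 8192) * (v.K * v.K)))) rfl
    (pk.omp * pk.omp) rfl
    ((1 : ℝ) + pk.omp * pk.omp) rfl).2
    (((1 : ℝ) + pk.omp * pk.omp)⁻¹) rfl
    pk.pe pk.e_pe
    ((1 : ℝ) - yb.yy) rfl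
    pk.ye pk.e_ye
    ((1 : ℝ) - pk.lspa) rfl
  change 0 < (1 : ℝ) - pk.lspa at p_lspa
  obtain ⟨p_pe, s3⟩ := s2
  change 0 < pk.pe at p_pe
  obtain ⟨p_yy, s4⟩ := s3
  change 0 < (1 : ℝ) - yb.yy at p_yy
  obtain ⟨p_XM, s5⟩ := ((((((s4
    (yb.CuN * G4) rfl
    (yb.CuN * G4 * srcx) rfl).2
    (v.op1⁻¹) rfl
    cl.FXt cl.e_FXt
    y1 e_y1
    (v.t * y1) rfl
    ((1 / 2) * (v.t * y1)) (congrArg (fun y : ℝ => y * (v.t * y1)) zLMa_549755813888_0)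
    ((1 : ℝ) - (1 / 2) * (v.t * y1)) rfl
    (y1 * ((1 : ℝ) - (1 / 2) * (v.t * y1))) rfl
    cl.S1 cl.e_S1
    (v.u * v.n) rfl
    (v.u * v.n * (v.h + (1 : ℝ))) rfl
    (v.u * v.n * (v.h + (1 : ℝ)) * v.j) rfl
    cl.a4 cl.e_a4
    (cl.S1 + cl.a4) rfl
    (cl.S1 * cl.a4) rfl
    (v.t * (cl.S1 * cl.a4)) rfl
    cl.S4 cl.e_S4
    cl.Dh cl.e_Dh
    ((3 / 8) * v.D) (congrArg (fun y : ℝ => y * v.D) zLMa_412316860416_0)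
    ((1 / 2 : ℝ) - (3 / 8) * v.D) rfl
    (cl.Dh * ((1 / 2 : ℝ) - (3 / 8) * v.D)) rfl
    ((1 : ℝ) * (cl.Dh * ((1 / 2 : ℝ) - (3 / 8) * v.D))) rfl
    cl.a5 cl.e_a5
    (cl.S4 + cl.a5) rfl
    (cl.S4 * cl.a5) rfl
    (v.t * (cl.S4 * cl.a5)) rfl
    cl.S5 cl.e_S5
    (v.u * yb.eN) rfl
    (v.u * yb.eN * v.op1⁻¹) rfl
    cl.a6 cl.e_a6
    (cl.S5 + cl.a6) rfl
    (cl.S5 * cl.a6) rfl
    (v.t * (cl.S5 * cl.a6)) rfl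
    cl.S6 cl.e_S6
    cl.a7 cl.e_a7
    (cl.S6 - cl.a7) rfl
    (v.t * yb.b1) rfl
    ((1 : ℝ) + v.t * yb.b1) rfl).2
    (((1 : ℝ) + v.t * yb.b1)⁻¹) rfl
    cl.S7 cl.e_S7
    (v.u * v.tu) rfl
    (v.u * v.tu * yb.eN) rfl
    (v.u * v.tu * yb.eN * yb.q0) rfl
    cl.a8 cl.e_a8
    (cl.S7 + cl.a8) rfl
    (cl.S7 * cl.a8) rfl
    (v.t * (cl.S7 * cl.a8)) rfl
    cl.S8 cl.e_S8
    (v.t * cl.S8) rfl
    cl.c1 cl.e_c1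
    (yb.fbt * xa.XM) rfl
    (v.t * yb.XLt) rfl
    (cl.FXt * (v.t * yb.XLt)) rfl
    (yb.fbt * xa.XM + cl.FXt * (v.t * yb.XLt)) rfl
    cl.rt cl.e_rt
    (yb.fbt + cl.FXt) rfl
    cl.fm cl.e_fm
    (cl.rt * cl.c1) rfl
    (cl.S8 + cl.rt * cl.c1) rfl
    (cl.S8 + cl.rt * cl.c1 + cl.fm) rfl
    cl.Bm cl.e_Bm
    ((1 / 1024) * (1 : ℝ)) (congrArg (fun y : ℝ => y * (1 : ℝ)) zLMa_1073741824_0)
    (cl.Bm - (1 / 1024) * (1 : ℝ)) rfl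
    yb.m1 yb.e_m1
    (yb.m1 + (2 : ℝ)) rfl
    (2 * yb.beta) (congrArg (fun y : ℝ => y * yb.beta) zLMa_2199023255552_0)
    (yb.m1 + (2 : ℝ) - 2 * yb.beta) rfl
    ((v.h + (1 : ℝ)) * (yb.m1 + (2 : ℝ) - 2 * yb.beta)) rfl
    (yb.m1 * (2 * yb.beta)) rfl
    (yb.m1 * (2 * yb.beta) + (1 : ℝ)) rfl).2
    ((yb.m1 * (2 * yb.beta) + (1 : ℝ))⁻¹) rfl
    ((v.h + (1 : ℝ)) * (yb.m1 + (2 : ℝ) - 2 * yb.beta) * (yb.m1 * (2 * yb.beta) + (1 : ℝ))⁻¹) rfl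
    (xa.AE * yb.fxe) rfl
    ((1 / 2) * v2.lm) (congrArg (fun y : ℝ => y * v2.lm) zLMa_549755813888_0)
    (v.K + (1 / 2) * v2.lm) rfl
    (xa.AE * yb.fxe * (v.K + (1 / 2) * v2.lm)) rfl
    (2 * (xa.AE * yb.fxe * (v.K + (1 / 2) * v2.lm))) (congrArg (fun y : ℝ => y * (xa.AE * yb.fxe * (v.K + (1 / 2) * v2.lm))) zLMa_2199023255552_0)
    (yb.src + 2 * (xa.AE * yb.fxe * (v.K + (1 / 2) * v2.lm))) rfl
    (2 * (yb.src + 2 * (xa.AE * yb.fxe * (v.K + (1 / 2) * v2.lm)))) (congrArg (fun y : ℝ => y * (yb.src + 2 * (xa.AE * yb.fxe * (v.K + (1 / 2) * v2.lm)))) zLMa_2199023255552_0)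
    (2 * (yb.src + 2 * (xa.AE * yb.fxe * (v.K + (1 / 2) * v2.lm))) * yb.NN) rfl
    (v.tu * yb.eN) rfl
    (v.op1 - v.tu * yb.eN) rfl).2
    ((v.op1 - v.tu * yb.eN)⁻¹) rfl
    (2 * (yb.src + 2 * (xa.AE * yb.fxe * (v.K + (1 / 2) * v2.lm))) * yb.NN * (v.op1 - v.tu * yb.eN)⁻¹) rfl
    yb.V yb.e_V
    ((1 : ℝ) * v.nj * ((1 : ℝ) * v.nj)) rfl
    (13 : ℝ) zLMa_14293651161088_0
    (10 : ℝ) zLMa_10995116277760_0).2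
    ((10 : ℝ)⁻¹) rfl
    ((13 : ℝ) * (10 : ℝ)⁻¹) rfl
    ((1 : ℝ) * v.nj * ((1 : ℝ) * v.nj) * ((13 : ℝ) * (10 : ℝ)⁻¹)) rfl
    (S * S) rfl
    (25 * (S * S)) (congrArg (fun y : ℝ => y * (S * S)) zLMa_27487790694400_0)
    yb.C2 yb.e_C2
    yb.gr yb.e_gr
    (2 * v.c0 - v.t) rfl
    yb.Gt yb.e_Gt
    ((1 : ℝ) * v.u) rfl
    yb.au yb.e_au
    (v.op1 * yb.fxe) rfl
    (v.op1 * yb.fxe * xa.iG4) rfl
    yb.inner yb.e_inner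
    (v.tu * yb.eN + (2 : ℝ)) rfl
    yb.ezs yb.e_ezs
    (yb.C2 * yb.gr) rfl
    (yb.NN * yb.ezs) rfl
    (yb.au * yb.inner) rfl
    (yb.NN * yb.ezs * (yb.au * yb.inner)) rfl
    yb.Rg0 yb.e_Rg0
    ((1 / 2) * (v.tu * yb.eN)) (congrArg (fun y : ℝ => y * (v.tu * yb.eN)) zLMa_549755813888_0)
    ((1 : ℝ) + (1 / 2) * (v.tu * yb.eN)) rfl
    (yb.NN * ((1 : ℝ) + (1 / 2) * (v.tu * yb.eN))) rfl
    (v.t * v.om1) rfl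
    (v.t * v.om1 * v2.bsum) rfl
    (v.op1 * v.aQ) rfl).2
    ((v.op1 * v.aQ)⁻¹) rfl
    (v.t * v.om1 * v2.bsum * (v.op1 * v.aQ)⁻¹) rfl
    (yb.NN * ((1 : ℝ) + (1 / 2) * (v.tu * yb.eN)) * (v.t * v.om1 * v2.bsum * (v.op1 * v.aQ)⁻¹)) rfl
    yb.Rh yb.e_Rh
    (v2.lm * yb.Rg0) rfl
    ((1 : ℝ) - v2.lm) rfl
    (v.u2 * yb.Rh) rfl
    (((1 : ℝ) - v2.lm) * (v.u2 * yb.Rh)) rfl
    (yb.C2 * (((1 : ℝ) - v2.lm) * (v.u2 * yb.Rh))) rfl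
    yb.Rg yb.e_Rg
  change 0 < (1 : ℝ) - xa.XM at p_XM
  obtain ⟨p_QX, s6⟩ := s5
  change 0 < (1 : ℝ) - xa.QX at p_QX
  obtain ⟨p_e2, s7⟩ := s6
    (2 * (v.tu2 * yb.epd)) (congrArg (fun y : ℝ => y * (v.tu2 * yb.epd)) zLMa_2199023255552_0)
    (v.aQ - 2 * (v.tu2 * yb.epd)) rfl
  change 0 < v.aQ - 2 * (v.tu2 * yb.epd) at p_e2
  obtain ⟨p_rl, s8⟩ := s7
  change 0 < yb.rl at p_rl
  obtain ⟨p_hgp, s9⟩ := s8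
    ((1 / 2 : ℝ) - hgp) rfl
  change 0 < (1 / 2 : ℝ) - hgp at p_hgp
  obtain ⟨p_l1, s10⟩ := s9
    ((5 / 8) * (1 : ℝ)) (congrArg (fun y : ℝ => y * (1 : ℝ)) zLMa_687194767360_0)
    ((5 / 8) * (1 : ℝ) - xa.l1) rfl
  change 0 < (5 / 8) * (1 : ℝ) - xa.l1 at p_l1
  obtain ⟨p_a0, s11⟩ := s10
    ((11 / 32) * (1 : ℝ)) (congrArg (fun y : ℝ => y * (1 : ℝ)) zLMa_377957122048_0)
    ((11 / 32) * (1 : ℝ) - xa.a0) rfl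
  change 0 < (11 / 32) * (1 : ℝ) - xa.a0 at p_a0
  obtain ⟨p_S, s12⟩ := s11
  change 0 < v.op1 - v.tu * yb.eN at p_S
  obtain ⟨p_zp, s13⟩ := s12
  change 0 < (1 : ℝ) - yb.zp at p_zp
  obtain ⟨p_rr, s14⟩ := s13
    ((5 / 8) * (1 : ℝ) - yb.rr) rfl
  change 0 < (5 / 8) * (1 : ℝ) - yb.rr at p_rr
  obtain ⟨p_V, s15⟩ := s14
  change 0 < yb.V at p_V
  obtain ⟨p_B, s16⟩ := s15
  change 0 < cl.Bm - (1 / 1024) * (1 : ℝ) at p_B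
  obtain ⟨p_Rg, s17⟩ := s16
  change 0 < yb.Rg at p_Rg
  obtain ⟨p_Rh, s18⟩ := s17
  change 0 < yb.Rh at p_Rh
  have hQ := qb_s G f lv.e_rhi e_q e_th
  have hq := hQ.le
  have hq0 : 0 < q := lt_of_lt_of_le (by rw [G.q_eq]; exact G.q0) hq
  have hγ := gam_le_one G.e0 G.κ0 G.s0
  have hγp := gam_le_one G.e0 G.κ0 (shf_re' G.κ0 G.s0)
  have hoo := oo_sharp8 G.κ0 G.s0 hQ (Qre0 G) hsc.ee (x_eq G v5 hsc e_w e_x) e_cu e_xe e_o2u e_ooo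
  have hn1 : ‖1 + qq v.e κ (shf κ τ)‖ ≤ Q1 := by
    rw [e_Q1]; exact n1_sharp8 G.e0 G.κ0 G.s0 hq hoo (hg_le G hγ e_hg)
  have hlx : 1 * lsx = v.h1t * lsf * 1 := by rw [e_lsx, one_mul]
  have fr := fr_g G hγ hq hq0 e_hg e_lsf p_hg e_Qb e_ls (hsc.al0 G) hlx hn1
  have hgu : 1 * gu = 1 * S := by rw [e_gu]; ring
  obtain ⟨lf0, Ex, hφ⟩ := ph_slz G v2 hsc e_tz hde' hu hz0 he2 (by norm_num) (by norm_num) (by norm_num) e_phux e_Ei e_Eh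
  have as8 : As8 xa yb := ⟨p_XM, p_QX, p_e2, p_rl, p_l1, p_a0, p_S, p_zp, p_rr, p_V, p_Rg, p_Rh⟩
  exact far_Cl G D hsc hA0 hA as8 fr hgu hγp hφ pk f p_rplo e_hgp p_hgp p_lspa p_pe p_yy cl e_srcx e_srcs
    (mul_one v.t) G.t0 (by linear_combination v.t * e_y1 - pk.ye * e_r) p_B

theorem far_LMa4 {κ : ℝ} {τ : ℂ} {R w : ℝ} {v : B1} (D : PtE (3 * 5⁻¹) v.e κ τ R w)
    (G : Geo κ (shf κ τ) v) (v2 : B2 v) (v3 : B3 v) (v5 : V5 v) {l1 : Lg v.D} {l2 : Lg v.D2}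
    (lv : LV v l1 l2) (he2 : 2 ≤ v.e) {S z de : ℝ}
    (hde0 : 0 < de) (hde : de = v.t * z * S) (hu : v.u = z * de) (hz0 : 0 < z)
    (hee : v.e * (de * de) = 1)
    (h : RAs Pool.Agent.helper71.FJ.Crt.LMa.prog4 [S, v.t, z, v.n]) :
    FarPt v.e κ (1 - Real.sinh κ / 1024) w (2 * AL v.e v.K * Real.sinh κ ^ 2) R
      (RE v.e κ (w * R)) τ := by
  obtain ⟨tz, e_tz⟩ : ∃ zz : ℝ, zz = v.t * z := ⟨_, rfl⟩
  have hde' : de = tz * S := by rw [e_tz]; exact hde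
  obtain ⟨z2, e_z2⟩ : ∃ zz : ℝ, zz = z * z := ⟨_, rfl⟩
  obtain ⟨r, e_r⟩ : ∃ zz : ℝ, zz = v.t * z2 := ⟨_, rfl⟩
  obtain ⟨eps, e_eps⟩ : ∃ zz : ℝ, zz = de * de := ⟨_, rfl⟩
  obtain ⟨tr, e_tr⟩ : ∃ zz : ℝ, zz = v.t * r := ⟨_, rfl⟩
  obtain ⟨q, e_q⟩ : ∃ zz : ℝ, zz = Real.exp (-(r * lv.rlo)) := ⟨_, rfl⟩
  obtain ⟨th, e_th⟩ : ∃ zz : ℝ, zz = q * (r * lv.er) := ⟨_, rfl⟩
  obtain ⟨wv, e_w⟩ : ∃ zz : ℝ, zz = (1 : ℝ) * (S * (v.c0 + v.R))⁻¹ := ⟨_, rfl⟩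
  obtain ⟨xv, e_x⟩ : ∃ zz : ℝ, zz = wv * wv * v5.sn := ⟨_, rfl⟩
  obtain ⟨hg, e_hg⟩ : ∃ zz : ℝ, zz = v.h1 * (1 : ℝ) := ⟨_, rfl⟩
  obtain ⟨lsf, e_lsf⟩ : ∃ zz : ℝ, zz = ((1 : ℝ) - (1 / 2) * hg) * ((1 : ℝ) - hg)⁻¹ := ⟨_, rfl⟩
  obtain ⟨Qb, e_Qb⟩ : ∃ zz : ℝ, zz = q * (hg + (1 : ℝ)) := ⟨_, rfl⟩
  obtain ⟨lsx, e_lsx⟩ : ∃ zz : ℝ, zz = v.h1t * lsf * (1 : ℝ) := ⟨_, rfl⟩
  obtain ⟨ls, e_ls⟩ : ∃ zz : ℝ, zz = hg * lsf := ⟨_, rfl⟩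
  obtain ⟨hgp, e_hgp⟩ : ∃ zz : ℝ, zz = v3.hp * (1 : ℝ) := ⟨_, rfl⟩
  obtain ⟨gu, e_gu⟩ : ∃ zz : ℝ, zz = (1 : ℝ) * S := ⟨_, rfl⟩
  obtain ⟨G4, e_G4⟩ : ∃ zz : ℝ, zz = (1 / 2) * (4 * S + (1 : ℝ) * v.nj) := ⟨_, rfl⟩
  obtain ⟨Ei, e_Ei⟩ : ∃ zz : ℝ, zz = 2 * eps + (1 : ℝ) := ⟨_, rfl⟩
  obtain ⟨Eh, e_Eh⟩ : ∃ zz : ℝ, zz = eps + (1 : ℝ) := ⟨_, rfl⟩
  obtain ⟨phux, e_phux⟩ : ∃ zz : ℝ, zz = (1 / 2) * ((13 / 4) * v.om + (79 / 256 : ℝ)) := ⟨_, rfl⟩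
  obtain ⟨cu, e_cu⟩ : ∃ zz : ℝ, zz = (1 : ℝ) - xv * ((1 / 2 : ℝ) - xv * ((45812984491 / 1099511627776 : ℝ) - xv * ((1527099483 / 1099511627776 : ℝ) - xv * ((13634817 / 549755813888 : ℝ) - xv * ((302995 / 1099511627776 : ℝ) - xv * ((287 / 137438953472 : ℝ) - xv * ((3 / 274877906944 : ℝ) - xv * (1 / 1099511627776 : ℝ)))))))) := ⟨_, rfl⟩
  obtain ⟨xe, e_xe⟩ : ∃ zz : ℝ, zz = xv * eps := ⟨_, rfl⟩
  obtain ⟨o2u, e_o2u⟩ : ∃ zz : ℝ, zz = q * q + (1 : ℝ) + 2 * (q * (cu + (43 / 128) * (xe * xe))) + 2 * th := ⟨_, rfl⟩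
  obtain ⟨ooo, e_ooo⟩ : ∃ zz : ℝ, zz = Real.exp ((1 / 2) * Real.log (o2u + (1 / 128 : ℝ))) := ⟨_, rfl⟩
  obtain ⟨Q1, e_Q1⟩ : ∃ zz : ℝ, zz = ooo + q * hg := ⟨_, rfl⟩
  obtain ⟨xa⟩ := exKa v2 eps 1 S G4 Qb Q1 ls lsx phux Ei Eh
  obtain ⟨srcx, e_srcx⟩ : ∃ zz : ℝ, zz = v.om1 * ((1 / 2) * (r * v2.bsum * v.aQ⁻¹)) + xa.kl := ⟨_, rfl⟩
  obtain ⟨srcs, e_srcs⟩ : ∃ zz : ℝ, zz = v.t * srcx := ⟨_, rfl⟩
  obtain ⟨yb⟩ := exKb (3 * 5⁻¹) xa tr 1 gu srcs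
  obtain ⟨pk⟩ := exPk v5 lv.rplo v3.hp hgp gu yb.yy
  obtain ⟨y1, e_y1⟩ : ∃ zz : ℝ, zz = z2 * pk.ye := ⟨_, rfl⟩
  obtain ⟨cl⟩ := exCl yb v.t 1 y1 srcx
  have hsc := sc_Ma hde' e_tz hu hee hde0 G.t0 hz0.le e_z2 e_r e_tr e_eps
  obtain ⟨hA0, hA⟩ := hA_L G hsc e_G4
  have f := lv.f G hsc.hr
  obtain ⟨p_hg, s0⟩ := ((((((((((h
    (1 : ℝ) zLMa_1099511627776_0
    tz e_tz
    de hde'
    v.u hu
    z2 e_z2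
    r e_r
    eps e_eps
    tr e_tr
    (1 / 2 : ℝ) zLMa_549755813888_0
    v.tu v.e_tu
    (v.tu * v.n) rfl
    v.h (v.e_h.trans (congrArg (fun y : ℝ => y * (v.tu * v.n)) zLMa_549755813888_0))
    v.u2 v.e_u2
    (v.h * v.h) rfl
    v.jm v.e_jm).2
    v.j v.e_j
    (v.h * v.j) rfl
    v.K (v.e_K.trans (congrArg (fun y : ℝ => y * (v.h * v.j)) zLMa_2199023255552_0))
    (2 * v.j) (congrArg (fun y : ℝ => y * v.j) zLMa_2199023255552_0)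
    v.c0 v.e_c0
    v.m v.e_m
    v.nj v.e_nj
    v.om v.e_om
    v.om1 v.e_om1
    v.op1 v.e_op1
    v.R v.e_R
    v.nj2 v.e_nj2
    v2.Y (v2.e_Y.trans (congrArg (fun y : ℝ => y * v.h) zLMa_10774999203840_0))
    ((341 / 8192) * v2.Y) (congrArg (fun y : ℝ => y * v2.Y) zLMa_45768245248_0)
    (1365 / 8192 : ℝ) zLMa_183207198720_0
    ((341 / 8192) * v2.Y + (1365 / 8192 : ℝ)) rfl
    (v2.Y * ((341 / 8192) * v2.Y + (1365 / 8192 : ℝ))) rfl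
    ((1 / 2 : ℝ) + v2.Y * ((341 / 8192) * v2.Y + (1365 / 8192 : ℝ))) rfl
    (v2.Y * ((1 / 2 : ℝ) + v2.Y * ((341 / 8192) * v2.Y + (1365 / 8192 : ℝ)))) rfl
    v2.pY v2.e_pY
    (v2.Y * v2.pY) rfl
    ((1 / 2) * (v2.Y * v2.pY)) (congrArg (fun y : ℝ => y * (v2.Y * v2.pY)) zLMa_549755813888_0)
    ((1 : ℝ) + (1 / 2) * (v2.Y * v2.pY)) rfl
    v2.Yp v2.e_Yp
    (v.K * v.om) rfl
    (2 * v.c0) (congrArg (fun y : ℝ => y * v.c0) zLMa_2199023255552_0)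
    (v.K * v.om + 2 * v.c0) rfl
    v.Dt v.e_Dt
    v.D v.e_D
    v.SQ v.e_SQ
    (v.K * v.K) rfl
    (2 * (v.K * v.K)) (congrArg (fun y : ℝ => y * (v.K * v.K)) zLMa_2199023255552_0)
    v.c2 v.e_c2
    (v.c0 * v.Dt) rfl
    v.rhat v.e_rhat).2
    v.LQ v.e_LQ
    ((1 / 2) * v.LQ) (congrArg (fun y : ℝ => y * v.LQ) zLMa_549755813888_0)
    v.aQ v.e_aQ
    (3 : ℝ) zLMa_3298534883328_0).2
    ((3 : ℝ)⁻¹) rfl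
    ((1 : ℝ) * (3 : ℝ)⁻¹) rfl
    (2 : ℝ) zLMa_2199023255552_0
    (v.D + (2 : ℝ)) rfl).2
    ((v.D + (2 : ℝ))⁻¹) rfl
    l1.zL l1.e_zL
    l1.zz l1.e_zz
    ((1 : ℝ) - l1.zL) rfl
    (l1.zz * ((1 : ℝ) * (3 : ℝ)⁻¹)) rfl
    ((1 : ℝ) + l1.zz * ((1 : ℝ) * (3 : ℝ)⁻¹)) rfl
    l1.Lv l1.e_Lv
    (l1.zz * l1.zz) rfl
    l1.eL (l1.e_eL.trans (congrArg (fun y : ℝ => y * (l1.zz * l1.zz)) zLMa_219915747328_0))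
    (v.Dt * l1.Lv) rfl
    lv.rlo (lv.e_rlo.trans (congrArg (fun y : ℝ => y * (v.Dt * l1.Lv)) zLMa_549755813888_0))
    (v.Dt * l1.eL) rfl
    lv.er (lv.e_er.trans (congrArg (fun y : ℝ => y * (v.Dt * l1.eL)) zLMa_549755813888_0))
    lv.rhi lv.e_rhi
    (v.c0 * v.rhat) rfl
    lv.D2R (lv.e_D2R.trans (congrArg (fun y : ℝ => y * (v.c0 * v.rhat)) zLMa_4398046511104_0))
    (v.c0 * v.R) rfl
    (v.c0 * v.R * v.rhat) rfl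
    v.D2 (v.e_D2.trans (congrArg (fun y : ℝ => y * (v.c0 * v.R * v.rhat)) zLMa_4398046511104_0))
    (v.D2 + (2 : ℝ)) rfl).2
    ((v.D2 + (2 : ℝ))⁻¹) rfl
    l2.zL l2.e_zL
    l2.zz l2.e_zz
    ((1 : ℝ) - l2.zL) rfl
    (l2.zz * ((1 : ℝ) * (3 : ℝ)⁻¹)) rfl
    ((1 : ℝ) + l2.zz * ((1 : ℝ) * (3 : ℝ)⁻¹)) rfl
    l2.Lv l2.e_Lv
    (l2.zz * l2.zz) rfl
    l2.eL (l2.e_eL.trans (congrArg (fun y : ℝ => y * (l2.zz * l2.zz)) zLMa_219915747328_0))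
    (lv.D2R * l2.Lv) rfl
    ((1 / 2) * (lv.D2R * l2.Lv)) (congrArg (fun y : ℝ => y * (lv.D2R * l2.Lv)) zLMa_549755813888_0)
    lv.rplo lv.e_rplo
    (lv.D2R * l2.eL) rfl
    ((1 / 2) * (lv.D2R * l2.eL)) (congrArg (fun y : ℝ => y * (lv.D2R * l2.eL)) zLMa_549755813888_0)
    lv.erp lv.e_erp
    lv.rphi lv.e_rphi
    (r * lv.rlo) rfl
    (-(r * lv.rlo)) rfl
    q e_q
    (r * lv.er) rfl
    th e_th
    (v.om * v.K) rfl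
    (v.c0 + v.om * v.K) rfl).2
    v.ioK v.e_ioK
    v.h1t v.e_h1t
    (v.om1 * v.t) rfl
    v.h1 v.e_h1
    ((1 : ℝ) - v.u2) rfl
    v.f2 v.e_f2
    v.tu2 v.e_tu2
    ((1 : ℝ) - v.nj2) rfl
    v5.sn v5.e_sn
    (v.R * v.rhat) rfl).2
    (v.SQ⁻¹) rfl
    v5.R1 v5.e_R1
    (v.c0 + v5.R1) rfl
    v5.Qr v5.e_Qr
    (v5.Qr * v5.Qr) rfl).2
    ((v5.Qr * v5.Qr)⁻¹) rfl
    v5.Th v5.e_Th
    (v.c0 + v.R) rfl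
    (S * (v.c0 + v.R)) rfl).2
    ((S * (v.c0 + v.R))⁻¹) rfl
    wv e_w
    (wv * wv) rfl
    xv e_x
    hg e_hg
    ((1 / 2) * hg) (congrArg (fun y : ℝ => y * hg) zLMa_549755813888_0)
    ((1 : ℝ) - (1 / 2) * hg) rfl
    ((1 : ℝ) - hg) rfl).2
    (((1 : ℝ) - hg)⁻¹) rfl
    lsf e_lsf
    (hg + (1 : ℝ)) rfl
    Qb e_Qb
    (v.h1t * lsf) rfl
    lsx e_lsx
    ls e_ls
  change 0 < (1 : ℝ) - hg at p_hg
  obtain ⟨p_rplo, s1⟩ := (s0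
    (v.om1 * v.op1) rfl
    (v.c0 + v.t) rfl
    (v.om * v.c0) rfl
    (v.om * v.c0 * v.K) rfl
    (2 * (v.om * v.c0 * v.K)) (congrArg (fun y : ℝ => y * (v.om * v.c0 * v.K)) zLMa_2199023255552_0)
    (v.c2 + 2 * (v.om * v.c0 * v.K)) rfl
    ((v.c0 + v.t) * (v.c2 + 2 * (v.om * v.c0 * v.K))) rfl).2
    (((v.c0 + v.t) * (v.c2 + 2 * (v.om * v.c0 * v.K)))⁻¹) rfl
    v3.hpt v3.e_hpt
    v3.hp v3.e_hp
  change 0 < lv.rplo at p_rplo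
  obtain ⟨p_lspa, s2⟩ := ((((((((((((((s1
    hgp e_hgp
    gu e_gu
    (v.h + (1 : ℝ)) rfl).2
    v2.ih v2.e_ih
    (v.h * v2.ih) rfl
    v2.rh (v2.e_rh.trans (congrArg (fun y : ℝ => y * (v.h * v2.ih)) zLMa_2199023255552_0))
    v2.mi v2.e_mi
    v2.hm v2.e_hm
    v2.nih v2.e_nih
    (v2.nih * v2.mi) rfl
    v2.bsum v2.e_bsum
    ((209 / 1024) * v.j) (congrArg (fun y : ℝ => y * v.j) zLMa_224412041216_0)).2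
    (v2.Yp⁻¹) rfl
    v2.lm v2.e_lm
    (4 * S) (congrArg (fun y : ℝ => y * S) zLMa_4398046511104_0)
    ((1 : ℝ) * v.nj) rfl
    (4 * S + (1 : ℝ) * v.nj) rfl
    G4 (e_G4.trans (congrArg (fun y : ℝ => y * (4 * S + (1 : ℝ) * v.nj)) zLMa_549755813888_0))).2
    xa.iG4 xa.e_iG4
    xa.alG xa.e_alG
    xa.AE xa.e_AE
    (xa.AE * v.op1) rfl
    xa.XeE xa.e_XeE
    (xa.alG * v.op1) rfl
    xa.XM xa.e_XM
    ((1 : ℝ) - xa.XM) rfl).2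
    xa.iX xa.e_iX
    xa.QX xa.e_QX
    ((1 : ℝ) - xa.QX) rfl).2
    xa.iQX xa.e_iQX
    (2 * eps) (congrArg (fun y : ℝ => y * eps) zLMa_2199023255552_0)
    Ei e_Ei
    Eh e_Eh
    ((13 / 4) * v.om) (congrArg (fun y : ℝ => y * v.om) zLMa_3573412790272_0)
    (79 / 256 : ℝ) zLMa_339302416384_0
    ((13 / 4) * v.om + (79 / 256 : ℝ)) rfl
    phux (e_phux.trans (congrArg (fun y : ℝ => y * ((13 / 4) * v.om + (79 / 256 : ℝ))) zLMa_549755813888_0))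
    (v.h * v.nj) rfl
    ((1 : ℝ) - v.f2) rfl
    (v.h * v.om) rfl
    (2 * (v.h * v.om)) (congrArg (fun y : ℝ => y * (v.h * v.om)) zLMa_2199023255552_0)
    ((1 : ℝ) - v.f2 - 2 * (v.h * v.om)) rfl
    (v.h * v.nj * (v.h * v.nj)) rfl
    xa.N1 xa.e_N1
    (xa.N1 + (1 : ℝ)) rfl
    xa.s (xa.e_s.trans (congrArg (fun y : ℝ => y * (xa.N1 + (1 : ℝ))) zLMa_549755813888_0))
    ((1 / 2) * v.R) (congrArg (fun y : ℝ => y * v.R) zLMa_549755813888_0)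
    (v.j - (1 / 2) * v.R) rfl
    (v.tu2 * ((1 : ℝ) - v.f2)) rfl
    (v.tu2 * ((1 : ℝ) - v.f2) * v.jm) rfl
    ((1 / 8) * (v.tu2 * ((1 : ℝ) - v.f2) * v.jm)) (congrArg (fun y : ℝ => y * (v.tu2 * ((1 : ℝ) - v.f2) * v.jm)) zLMa_137438953472_0)
    (v.j - (1 / 2) * v.R + (1 / 8) * (v.tu2 * ((1 : ℝ) - v.f2) * v.jm)) rfl
    xa.k0 xa.e_k0
    (1 / 1099511627776 : ℝ) zLMa_1_0
    (3 / 274877906944 : ℝ) zLMa_12_0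
    (xv * (1 / 1099511627776 : ℝ)) rfl
    ((3 / 274877906944 : ℝ) - xv * (1 / 1099511627776 : ℝ)) rfl
    (287 / 137438953472 : ℝ) zLMa_2296_0
    (xv * ((3 / 274877906944 : ℝ) - xv * (1 / 1099511627776 : ℝ))) rfl
    ((287 / 137438953472 : ℝ) - xv * ((3 / 274877906944 : ℝ) - xv * (1 / 1099511627776 : ℝ))) rfl
    (302995 / 1099511627776 : ℝ) zLMa_302995_0
    (xv * ((287 / 137438953472 : ℝ) - xv * ((3 / 274877906944 : ℝ) - xv * (1 / 1099511627776 : ℝ)))) rfl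
    ((302995 / 1099511627776 : ℝ) - xv * ((287 / 137438953472 : ℝ) - xv * ((3 / 274877906944 : ℝ) - xv * (1 / 1099511627776 : ℝ)))) rfl
    (13634817 / 549755813888 : ℝ) zLMa_27269634_0
    (xv * ((302995 / 1099511627776 : ℝ) - xv * ((287 / 137438953472 : ℝ) - xv * ((3 / 274877906944 : ℝ) - xv * (1 / 1099511627776 : ℝ))))) rfl
    ((13634817 / 549755813888 : ℝ) - xv * ((302995 / 1099511627776 : ℝ) - xv * ((287 / 137438953472 : ℝ) - xv * ((3 / 274877906944 : ℝ) - xv * (1 / 1099511627776 : ℝ))))) rfl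
    (1527099483 / 1099511627776 : ℝ) zLMa_1527099483_0
    (xv * ((13634817 / 549755813888 : ℝ) - xv * ((302995 / 1099511627776 : ℝ) - xv * ((287 / 137438953472 : ℝ) - xv * ((3 / 274877906944 : ℝ) - xv * (1 / 1099511627776 : ℝ)))))) rfl
    ((1527099483 / 1099511627776 : ℝ) - xv * ((13634817 / 549755813888 : ℝ) - xv * ((302995 / 1099511627776 : ℝ) - xv * ((287 / 137438953472 : ℝ) - xv * ((3 / 274877906944 : ℝ) - xv * (1 / 1099511627776 : ℝ)))))) rfl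
    (45812984491 / 1099511627776 : ℝ) zLMa_45812984491_0
    (xv * ((1527099483 / 1099511627776 : ℝ) - xv * ((13634817 / 549755813888 : ℝ) - xv * ((302995 / 1099511627776 : ℝ) - xv * ((287 / 137438953472 : ℝ) - xv * ((3 / 274877906944 : ℝ) - xv * (1 / 1099511627776 : ℝ))))))) rfl
    ((45812984491 / 1099511627776 : ℝ) - xv * ((1527099483 / 1099511627776 : ℝ) - xv * ((13634817 / 549755813888 : ℝ) - xv * ((302995 / 1099511627776 : ℝ) - xv * ((287 / 137438953472 : ℝ) - xv * ((3 / 274877906944 : ℝ) - xv * (1 / 1099511627776 : ℝ))))))) rfl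
    (xv * ((45812984491 / 1099511627776 : ℝ) - xv * ((1527099483 / 1099511627776 : ℝ) - xv * ((13634817 / 549755813888 : ℝ) - xv * ((302995 / 1099511627776 : ℝ) - xv * ((287 / 137438953472 : ℝ) - xv * ((3 / 274877906944 : ℝ) - xv * (1 / 1099511627776 : ℝ)))))))) rfl
    ((1 / 2 : ℝ) - xv * ((45812984491 / 1099511627776 : ℝ) - xv * ((1527099483 / 1099511627776 : ℝ) - xv * ((13634817 / 549755813888 : ℝ) - xv * ((302995 / 1099511627776 : ℝ) - xv * ((287 / 137438953472 : ℝ) - xv * ((3 / 274877906944 : ℝ) - xv * (1 / 1099511627776 : ℝ)))))))) rfl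
    (xv * ((1 / 2 : ℝ) - xv * ((45812984491 / 1099511627776 : ℝ) - xv * ((1527099483 / 1099511627776 : ℝ) - xv * ((13634817 / 549755813888 : ℝ) - xv * ((302995 / 1099511627776 : ℝ) - xv * ((287 / 137438953472 : ℝ) - xv * ((3 / 274877906944 : ℝ) - xv * (1 / 1099511627776 : ℝ))))))))) rfl
    cu e_cu
    xe e_xe
    (q * q) rfl
    (q * q + (1 : ℝ)) rfl
    (xe * xe) rfl
    ((43 / 128) * (xe * xe)) (congrArg (fun y : ℝ => y * (xe * xe)) zLMa_369367187456_0)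
    (cu + (43 / 128) * (xe * xe)) rfl
    (q * (cu + (43 / 128) * (xe * xe))) rfl
    (2 * (q * (cu + (43 / 128) * (xe * xe)))) (congrArg (fun y : ℝ => y * (q * (cu + (43 / 128) * (xe * xe)))) zLMa_2199023255552_0)
    (q * q + (1 : ℝ) + 2 * (q * (cu + (43 / 128) * (xe * xe)))) rfl
    (2 * th) (congrArg (fun y : ℝ => y * th) zLMa_2199023255552_0)
    o2u e_o2u
    (1 / 128 : ℝ) zLMa_8589934592_0
    (o2u + (1 / 128 : ℝ)) rfl).2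
    (Real.log (o2u + (1 / 128 : ℝ))) rfl
    ((1 / 2) * Real.log (o2u + (1 / 128 : ℝ))) (congrArg (fun y : ℝ => y * Real.log (o2u + (1 / 128 : ℝ))) zLMa_549755813888_0)
    ooo e_ooo
    (q * hg) rfl
    Q1 e_Q1
    (Q1 * xa.iX) rfl
    (Qb * xa.iQX) rfl
    (Q1 * xa.iX + Qb * xa.iQX) rfl
    (xa.XM * (Q1 * xa.iX + Qb * xa.iQX)) rfl
    (ls + xa.XM * (Q1 * xa.iX + Qb * xa.iQX)) rfl
    xa.a0 xa.e_a0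
    (Q1 * xa.XM) rfl
    (Q1 * xa.XM * xa.iX) rfl
    (ls + Q1 * xa.XM * xa.iX) rfl
    xa.l1 xa.e_l1
    ((13 / 64) * xa.l1) (congrArg (fun y : ℝ => y * xa.l1) zLMa_223338299392_0)
    ((1 / 2 : ℝ) + (13 / 64) * xa.l1) rfl
    (xa.l1 * ((1 / 2 : ℝ) + (13 / 64) * xa.l1)) rfl
    xa.Na xa.e_Na
    ((13 / 16) * xa.a0) (congrArg (fun y : ℝ => y * xa.a0) zLMa_893353197568_0)
    ((1 : ℝ) + (13 / 16) * xa.a0) rfl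
    (xa.a0 * ((1 : ℝ) + (13 / 16) * xa.a0)) rfl
    xa.Nb xa.e_Nb
    (v2.rh * v2.nih) rfl
    (v2.rh * v2.nih * Ei) rfl
    xa.rn xa.e_rn
    (xa.k0 * xa.Na) rfl
    (v.aQ + (1 / 2 : ℝ)) rfl
    (xa.rn * (v.aQ + (1 / 2 : ℝ))) rfl
    xa.ka xa.e_ka
    (v.aQ + (1 : ℝ)) rfl
    xa.kb xa.e_kb
    (Eh * (v.aQ + (1 : ℝ))) rfl
    (Eh * (v.aQ + (1 : ℝ)) * v2.nih) rfl
    xa.lfk xa.e_lfk
    (xa.ka * lsx) rfl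
    (xa.lfk * phux) rfl
    xa.kl xa.e_kl
    (r * v2.bsum) rfl).2
    (v.aQ⁻¹) rfl
    (r * v2.bsum * v.aQ⁻¹) rfl
    ((1 / 2) * (r * v2.bsum * v.aQ⁻¹)) (congrArg (fun y : ℝ => y * (r * v2.bsum * v.aQ⁻¹)) zLMa_549755813888_0)
    (v.om1 * ((1 / 2) * (r * v2.bsum * v.aQ⁻¹))) rfl
    srcx e_srcx
    srcs e_srcs
    yb.src yb.e_src
    (xa.ka * Q1) rfl
    (xa.ka * Q1 * xa.iX) rfl
    (xa.kb * Qb) rfl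
    (xa.kb * Qb * xa.iQX) rfl
    yb.fxe yb.e_fxe
    (v.om1 * yb.src) rfl
    (xa.XeE * yb.fxe) rfl
    yb.epd yb.e_epd
    (v.tu2 * yb.epd) rfl
    (v.tu2 * yb.epd * v.aQ⁻¹) rfl
    ((1 : ℝ) - v.tu2 * yb.epd * v.aQ⁻¹) rfl).2
    yb.NN yb.e_NN
    yb.eN yb.e_eN
    yb.d yb.e_d
    yb.eta yb.e_eta
    (yb.eta * v.aQ⁻¹) rfl
    ((1 : ℝ) - yb.eta * v.aQ⁻¹) rfl
    (v.rhat * ((1 : ℝ) - yb.eta * v.aQ⁻¹)) rfl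
    yb.rl yb.e_rl).2
    yb.irl yb.e_irl
    yb.yy yb.e_yy
    (v.aQ - yb.eta) rfl).2
    yb.q0 yb.e_q0
    yb.zp yb.e_zp
    ((1 / 2) * yb.zp) (congrArg (fun y : ℝ => y * yb.zp) zLMa_549755813888_0)
    ((1 : ℝ) - (1 / 2) * yb.zp) rfl
    ((1 : ℝ) - yb.zp) rfl).2
    (((1 : ℝ) - yb.zp)⁻¹) rfl
    yb.kzp yb.e_kzp
    (v.u * yb.q0) rfl
    (gu * yb.irl) rfl
    (gu * yb.irl * yb.kzp) rfl
    yb.Cu yb.e_Cu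
    (tr * yb.eN) rfl
    (yb.q0 * (tr * yb.eN)) rfl
    ((1 : ℝ) * yb.irl) rfl
    ((1 : ℝ) * yb.irl * yb.kzp) rfl
    ((1 : ℝ) * yb.irl * yb.kzp * yb.d) rfl
    yb.rr yb.e_rr
    ((13 / 64) * yb.rr) (congrArg (fun y : ℝ => y * yb.rr) zLMa_223338299392_0)
    ((1 / 2 : ℝ) + (13 / 64) * yb.rr) rfl
    (yb.rr * ((1 / 2 : ℝ) + (13 / 64) * yb.rr)) rfl
    ((1 : ℝ) + yb.rr * ((1 / 2 : ℝ) + (13 / 64) * yb.rr)) rfl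
    (yb.Cu * ((1 : ℝ) + yb.rr * ((1 / 2 : ℝ) + (13 / 64) * yb.rr))) rfl
    yb.CuN yb.e_CuN
    yb.fbt yb.e_fbt
    yb.XLt yb.e_XLt
    (5 : ℝ) zLMa_5497558138880_0).2
    ((5 : ℝ)⁻¹) rfl
    yb.beta yb.e_beta
    ((v.h + (1 : ℝ)) * v.op1) rfl
    yb.b1 yb.e_b1
    pk.omr pk.e_omr
    pk.omp pk.e_omp
    ((1 / 2) * hgp) (congrArg (fun y : ℝ => y * hgp) zLMa_549755813888_0)
    ((1 : ℝ) - (1 / 2) * hgp) rfl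
    ((1 : ℝ) - hgp) rfl).2
    (((1 : ℝ) - hgp)⁻¹) rfl
    (((1 : ℝ) - (1 / 2) * hgp) * ((1 : ℝ) - hgp)⁻¹) rfl
    pk.lspf pk.e_lspf
    (v.tu2 * v5.Th) rfl
    ((2731 / 4096) * (v.tu2 * v5.Th)) (congrArg (fun y : ℝ => y * (v.tu2 * v5.Th)) zLMa_733097230336_0)
    ((1 : ℝ) - (2731 / 4096) * (v.tu2 * v5.Th)) rfl
    (v5.Th * ((1 : ℝ) - (2731 / 4096) * (v.tu2 * v5.Th))) rfl
    (lv.rplo * lv.rplo) rfl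
    (v.u2 * (lv.rplo * lv.rplo)) rfl
    pk.E0 pk.e_E0
    pk.lspa pk.e_lspa
    (pk.E0 + (1 : ℝ)) rfl
    (pk.lspa * (pk.E0 + (1 : ℝ))) rfl
    (pk.E0 - pk.lspa * (pk.E0 + (1 : ℝ))) rfl
    ((2731 / 8192) * (v.K * v.K)) (congrArg (fun y : ℝ => y * (v.K * v.K)) zLMa_366548615168_0)
    ((1 : ℝ) - (2731 / 8192) * (v.K * v.K)) rfl
    (v.nj2 * ((1 : ℝ) - (2731 / 8192) * (v.K * v.K))) rfl
    (pk.E0 - pk.lspa * (pk.E0 + (1 : ℝ)) + v.nj2 * ((1 : ℝ) - (2731 / 8192) * (v.K * v.K))) rfl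
    (pk.omr * (pk.E0 - pk.lspa * (pk.E0 + (1 : ℝ)) + v.nj2 * ((1 : ℝ) - (2731 / 8192) * (v.K * v.K)))) rfl
    (pk.omp * pk.omp) rfl
    ((1 : ℝ) + pk.omp * pk.omp) rfl).2
    (((1 : ℝ) + pk.omp * pk.omp)⁻¹) rfl
    pk.pe pk.e_pe
    ((1 : ℝ) - yb.yy) rfl
    pk.ye pk.e_ye
    ((1 : ℝ) - pk.lspa) rfl
  change 0 < (1 : ℝ) - pk.lspa at p_lspa
  obtain ⟨p_pe, s3⟩ := s2
  change 0 < pk.pe at p_pe
  obtain ⟨p_yy, s4⟩ := s3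
  change 0 < (1 : ℝ) - yb.yy at p_yy
  obtain ⟨p_XM, s5⟩ := ((((((s4
    (yb.CuN * G4) rfl
    (yb.CuN * G4 * srcx) rfl).2
    (v.op1⁻¹) rfl
    cl.FXt cl.e_FXt
    y1 e_y1
    (v.t * y1) rfl
    ((1 / 2) * (v.t * y1)) (congrArg (fun y : ℝ => y * (v.t * y1)) zLMa_549755813888_0)
    ((1 : ℝ) - (1 / 2) * (v.t * y1)) rfl
    (y1 * ((1 : ℝ) - (1 / 2) * (v.t * y1))) rfl
    cl.S1 cl.e_S1
    (v.u * v.n) rfl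
    (v.u * v.n * (v.h + (1 : ℝ))) rfl
    (v.u * v.n * (v.h + (1 : ℝ)) * v.j) rfl
    cl.a4 cl.e_a4
    (cl.S1 + cl.a4) rfl
    (cl.S1 * cl.a4) rfl
    (v.t * (cl.S1 * cl.a4)) rfl
    cl.S4 cl.e_S4
    cl.Dh cl.e_Dh
    ((3 / 8) * v.D) (congrArg (fun y : ℝ => y * v.D) zLMa_412316860416_0)
    ((1 / 2 : ℝ) - (3 / 8) * v.D) rfl
    (cl.Dh * ((1 / 2 : ℝ) - (3 / 8) * v.D)) rfl
    ((1 : ℝ) * (cl.Dh * ((1 / 2 : ℝ) - (3 / 8) * v.D))) rfl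
    cl.a5 cl.e_a5
    (cl.S4 + cl.a5) rfl
    (cl.S4 * cl.a5) rfl
    (v.t * (cl.S4 * cl.a5)) rfl
    cl.S5 cl.e_S5
    (v.u * yb.eN) rfl
    (v.u * yb.eN * v.op1⁻¹) rfl
    cl.a6 cl.e_a6
    (cl.S5 + cl.a6) rfl
    (cl.S5 * cl.a6) rfl
    (v.t * (cl.S5 * cl.a6)) rfl
    cl.S6 cl.e_S6
    cl.a7 cl.e_a7
    (cl.S6 - cl.a7) rfl
    (v.t * yb.b1) rfl
    ((1 : ℝ) + v.t * yb.b1) rfl).2
    (((1 : ℝ) + v.t * yb.b1)⁻¹) rfl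
    cl.S7 cl.e_S7
    (v.u * v.tu) rfl
    (v.u * v.tu * yb.eN) rfl
    (v.u * v.tu * yb.eN * yb.q0) rfl
    cl.a8 cl.e_a8
    (cl.S7 + cl.a8) rfl
    (cl.S7 * cl.a8) rfl
    (v.t * (cl.S7 * cl.a8)) rfl
    cl.S8 cl.e_S8
    (v.t * cl.S8) rfl
    cl.c1 cl.e_c1
    (yb.fbt * xa.XM) rfl
    (v.t * yb.XLt) rfl
    (cl.FXt * (v.t * yb.XLt)) rfl
    (yb.fbt * xa.XM + cl.FXt * (v.t * yb.XLt)) rfl
    cl.rt cl.e_rt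
    (yb.fbt + cl.FXt) rfl
    cl.fm cl.e_fm
    (cl.rt * cl.c1) rfl
    (cl.S8 + cl.rt * cl.c1) rfl
    (cl.S8 + cl.rt * cl.c1 + cl.fm) rfl
    cl.Bm cl.e_Bm
    ((1 / 1024) * (1 : ℝ)) (congrArg (fun y : ℝ => y * (1 : ℝ)) zLMa_1073741824_0)
    (cl.Bm - (1 / 1024) * (1 : ℝ)) rfl
    yb.m1 yb.e_m1
    (yb.m1 + (2 : ℝ)) rfl
    (2 * yb.beta) (congrArg (fun y : ℝ => y * yb.beta) zLMa_2199023255552_0)
    (yb.m1 + (2 : ℝ) - 2 * yb.beta) rfl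
    ((v.h + (1 : ℝ)) * (yb.m1 + (2 : ℝ) - 2 * yb.beta)) rfl
    (yb.m1 * (2 * yb.beta)) rfl
    (yb.m1 * (2 * yb.beta) + (1 : ℝ)) rfl).2
    ((yb.m1 * (2 * yb.beta) + (1 : ℝ))⁻¹) rfl
    ((v.h + (1 : ℝ)) * (yb.m1 + (2 : ℝ) - 2 * yb.beta) * (yb.m1 * (2 * yb.beta) + (1 : ℝ))⁻¹) rfl
    (xa.AE * yb.fxe) rfl
    ((1 / 2) * v2.lm) (congrArg (fun y : ℝ => y * v2.lm) zLMa_549755813888_0)
    (v.K + (1 / 2) * v2.lm) rfl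
    (xa.AE * yb.fxe * (v.K + (1 / 2) * v2.lm)) rfl
    (2 * (xa.AE * yb.fxe * (v.K + (1 / 2) * v2.lm))) (congrArg (fun y : ℝ => y * (xa.AE * yb.fxe * (v.K + (1 / 2) * v2.lm))) zLMa_2199023255552_0)
    (yb.src + 2 * (xa.AE * yb.fxe * (v.K + (1 / 2) * v2.lm))) rfl
    (2 * (yb.src + 2 * (xa.AE * yb.fxe * (v.K + (1 / 2) * v2.lm)))) (congrArg (fun y : ℝ => y * (yb.src + 2 * (xa.AE * yb.fxe * (v.K + (1 / 2) * v2.lm)))) zLMa_2199023255552_0)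
    (2 * (yb.src + 2 * (xa.AE * yb.fxe * (v.K + (1 / 2) * v2.lm))) * yb.NN) rfl
    (v.tu * yb.eN) rfl
    (v.op1 - v.tu * yb.eN) rfl).2
    ((v.op1 - v.tu * yb.eN)⁻¹) rfl
    (2 * (yb.src + 2 * (xa.AE * yb.fxe * (v.K + (1 / 2) * v2.lm))) * yb.NN * (v.op1 - v.tu * yb.eN)⁻¹) rfl
    yb.V yb.e_V
    ((1 : ℝ) * v.nj * ((1 : ℝ) * v.nj)) rfl
    (13 : ℝ) zLMa_14293651161088_0
    (10 : ℝ) zLMa_10995116277760_0).2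
    ((10 : ℝ)⁻¹) rfl
    ((13 : ℝ) * (10 : ℝ)⁻¹) rfl
    ((1 : ℝ) * v.nj * ((1 : ℝ) * v.nj) * ((13 : ℝ) * (10 : ℝ)⁻¹)) rfl
    (S * S) rfl
    (25 * (S * S)) (congrArg (fun y : ℝ => y * (S * S)) zLMa_27487790694400_0)
    yb.C2 yb.e_C2
    yb.gr yb.e_gr
    (2 * v.c0 - v.t) rfl
    yb.Gt yb.e_Gt
    ((1 : ℝ) * v.u) rfl
    yb.au yb.e_au
    (v.op1 * yb.fxe) rfl
    (v.op1 * yb.fxe * xa.iG4) rfl
    yb.inner yb.e_inner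
    (v.tu * yb.eN + (2 : ℝ)) rfl
    yb.ezs yb.e_ezs
    (yb.C2 * yb.gr) rfl
    (yb.NN * yb.ezs) rfl
    (yb.au * yb.inner) rfl
    (yb.NN * yb.ezs * (yb.au * yb.inner)) rfl
    yb.Rg0 yb.e_Rg0
    ((1 / 2) * (v.tu * yb.eN)) (congrArg (fun y : ℝ => y * (v.tu * yb.eN)) zLMa_549755813888_0)
    ((1 : ℝ) + (1 / 2) * (v.tu * yb.eN)) rfl
    (yb.NN * ((1 : ℝ) + (1 / 2) * (v.tu * yb.eN))) rfl
    (v.t * v.om1) rfl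
    (v.t * v.om1 * v2.bsum) rfl
    (v.op1 * v.aQ) rfl).2
    ((v.op1 * v.aQ)⁻¹) rfl
    (v.t * v.om1 * v2.bsum * (v.op1 * v.aQ)⁻¹) rfl
    (yb.NN * ((1 : ℝ) + (1 / 2) * (v.tu * yb.eN)) * (v.t * v.om1 * v2.bsum * (v.op1 * v.aQ)⁻¹)) rfl
    yb.Rh yb.e_Rh
    (v2.lm * yb.Rg0) rfl
    ((1 : ℝ) - v2.lm) rfl
    (v.u2 * yb.Rh) rfl
    (((1 : ℝ) - v2.lm) * (v.u2 * yb.Rh)) rfl
    (yb.C2 * (((1 : ℝ) - v2.lm) * (v.u2 * yb.Rh))) rfl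
    yb.Rg yb.e_Rg
  change 0 < (1 : ℝ) - xa.XM at p_XM
  obtain ⟨p_QX, s6⟩ := s5
  change 0 < (1 : ℝ) - xa.QX at p_QX
  obtain ⟨p_e2, s7⟩ := s6
    (2 * (v.tu2 * yb.epd)) (congrArg (fun y : ℝ => y * (v.tu2 * yb.epd)) zLMa_2199023255552_0)
    (v.aQ - 2 * (v.tu2 * yb.epd)) rfl
  change 0 < v.aQ - 2 * (v.tu2 * yb.epd) at p_e2
  obtain ⟨p_rl, s8⟩ := s7
  change 0 < yb.rl at p_rl
  obtain ⟨p_hgp, s9⟩ := s8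
    ((1 / 2 : ℝ) - hgp) rfl
  change 0 < (1 / 2 : ℝ) - hgp at p_hgp
  obtain ⟨p_l1, s10⟩ := s9
    ((5 / 8) * (1 : ℝ)) (congrArg (fun y : ℝ => y * (1 : ℝ)) zLMa_687194767360_0)
    ((5 / 8) * (1 : ℝ) - xa.l1) rfl
  change 0 < (5 / 8) * (1 : ℝ) - xa.l1 at p_l1
  obtain ⟨p_a0, s11⟩ := s10
    ((11 / 32) * (1 : ℝ)) (congrArg (fun y : ℝ => y * (1 : ℝ)) zLMa_377957122048_0)
    ((11 / 32) * (1 : ℝ) - xa.a0) rfl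
  change 0 < (11 / 32) * (1 : ℝ) - xa.a0 at p_a0
  obtain ⟨p_S, s12⟩ := s11
  change 0 < v.op1 - v.tu * yb.eN at p_S
  obtain ⟨p_zp, s13⟩ := s12
  change 0 < (1 : ℝ) - yb.zp at p_zp
  obtain ⟨p_rr, s14⟩ := s13
    ((5 / 8) * (1 : ℝ) - yb.rr) rfl
  change 0 < (5 / 8) * (1 : ℝ) - yb.rr at p_rr
  obtain ⟨p_V, s15⟩ := s14
  change 0 < yb.V at p_V
  obtain ⟨p_B, s16⟩ := s15
  change 0 < cl.Bm - (1 / 1024) * (1 : ℝ) at p_B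
  obtain ⟨p_Rg, s17⟩ := s16
  change 0 < yb.Rg at p_Rg
  obtain ⟨p_Rh, s18⟩ := s17
  change 0 < yb.Rh at p_Rh
  have hQ := qb_s G f lv.e_rhi e_q e_th
  have hq := hQ.le
  have hq0 : 0 < q := lt_of_lt_of_le (by rw [G.q_eq]; exact G.q0) hq
  have hγ := gam_le_one G.e0 G.κ0 G.s0
  have hγp := gam_le_one G.e0 G.κ0 (shf_re' G.κ0 G.s0)
  have hoo := oo_sharp8 G.κ0 G.s0 hQ (Qre0 G) hsc.ee (x_eq G v5 hsc e_w e_x) e_cu e_xe e_o2u e_ooo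
  have hn1 : ‖1 + qq v.e κ (shf κ τ)‖ ≤ Q1 := by
    rw [e_Q1]; exact n1_sharp8 G.e0 G.κ0 G.s0 hq hoo (hg_le G hγ e_hg)
  have hlx : 1 * lsx = v.h1t * lsf * 1 := by rw [e_lsx, one_mul]
  have fr := fr_g G hγ hq hq0 e_hg e_lsf p_hg e_Qb e_ls (hsc.al0 G) hlx hn1
  have hgu : 1 * gu = 1 * S := by rw [e_gu]; ring
  obtain ⟨lf0, Ex, hφ⟩ := ph_slM G v2 hsc he2 (by norm_num) (by norm_num) (by norm_num) e_phux e_Ei e_Eh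
  have as8 : As8 xa yb := ⟨p_XM, p_QX, p_e2, p_rl, p_l1, p_a0, p_S, p_zp, p_rr, p_V, p_Rg, p_Rh⟩
  exact far_Cl G D hsc hA0 hA as8 fr hgu hγp hφ pk f p_rplo e_hgp p_hgp p_lspa p_pe p_yy cl e_srcx e_srcs
    (mul_one v.t) G.t0 (by linear_combination v.t * e_y1 - pk.ye * e_r) p_B

theorem far_LMa5 {κ : ℝ} {τ : ℂ} {R w : ℝ} {v : B1} (D : PtE (3 * 5⁻¹) v.e κ τ R w)
    (G : Geo κ (shf κ τ) v) (v2 : B2 v) (v3 : B3 v) (v5 : V5 v) {l1 : Lg v.D} {l2 : Lg v.D2}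
    (lv : LV v l1 l2) (he2 : 2 ≤ v.e) {S z de : ℝ}
    (hde0 : 0 < de) (hde : de = v.t * z * S) (hu : v.u = z * de) (hz0 : 0 < z)
    (hee : v.e * (de * de) = 1)
    (h : RAs Pool.Agent.helper71.FJ.Crt.LMa.prog5 [S, v.t, z, v.n]) :
    FarPt v.e κ (1 - Real.sinh κ / 1024) w (2 * AL v.e v.K * Real.sinh κ ^ 2) R
      (RE v.e κ (w * R)) τ := by
  obtain ⟨tz, e_tz⟩ : ∃ zz : ℝ, zz = v.t * z := ⟨_, rfl⟩
  have hde' : de = tz * S := by rw [e_tz]; exact hde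
  obtain ⟨z2, e_z2⟩ : ∃ zz : ℝ, zz = z * z := ⟨_, rfl⟩
  obtain ⟨r, e_r⟩ : ∃ zz : ℝ, zz = v.t * z2 := ⟨_, rfl⟩
  obtain ⟨eps, e_eps⟩ : ∃ zz : ℝ, zz = de * de := ⟨_, rfl⟩
  obtain ⟨tr, e_tr⟩ : ∃ zz : ℝ, zz = v.t * r := ⟨_, rfl⟩
  obtain ⟨q, e_q⟩ : ∃ zz : ℝ, zz = Real.exp (-(r * lv.rlo)) := ⟨_, rfl⟩
  obtain ⟨th, e_th⟩ : ∃ zz : ℝ, zz = q * (r * lv.er) := ⟨_, rfl⟩
  obtain ⟨hg, e_hg⟩ : ∃ zz : ℝ, zz = v.h1 * (1 : ℝ) := ⟨_, rfl⟩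
  obtain ⟨lsf, e_lsf⟩ : ∃ zz : ℝ, zz = ((1 : ℝ) - (1 / 2) * hg) * ((1 : ℝ) - hg)⁻¹ := ⟨_, rfl⟩
  obtain ⟨Qb, e_Qb⟩ : ∃ zz : ℝ, zz = q * (hg + (1 : ℝ)) := ⟨_, rfl⟩
  obtain ⟨lsx, e_lsx⟩ : ∃ zz : ℝ, zz = v.h1t * lsf * (1 : ℝ) := ⟨_, rfl⟩
  obtain ⟨ls, e_ls⟩ : ∃ zz : ℝ, zz = hg * lsf := ⟨_, rfl⟩
  obtain ⟨hgp, e_hgp⟩ : ∃ zz : ℝ, zz = v3.hp * (1 : ℝ) := ⟨_, rfl⟩
  obtain ⟨gu, e_gu⟩ : ∃ zz : ℝ, zz = (1 : ℝ) * S := ⟨_, rfl⟩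
  obtain ⟨G4, e_G4⟩ : ∃ zz : ℝ, zz = (1 / 2) * (4 * S + (1 : ℝ) * v.nj) := ⟨_, rfl⟩
  obtain ⟨Ei, e_Ei⟩ : ∃ zz : ℝ, zz = 2 * eps + (1 : ℝ) := ⟨_, rfl⟩
  obtain ⟨Eh, e_Eh⟩ : ∃ zz : ℝ, zz = eps + (1 : ℝ) := ⟨_, rfl⟩
  obtain ⟨phux, e_phux⟩ : ∃ zz : ℝ, zz = (1 / 2) * ((13 / 4) * v.om + (79 / 256 : ℝ)) := ⟨_, rfl⟩
  obtain ⟨Q1, e_Q1⟩ : ∃ zz : ℝ, zz = Qb + (1 : ℝ) := ⟨_, rfl⟩
  obtain ⟨xa⟩ := exKa v2 eps 1 S G4 Qb Q1 ls lsx phux Ei Eh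
  obtain ⟨srcx, e_srcx⟩ : ∃ zz : ℝ, zz = v.om1 * ((1 / 2) * (r * v2.bsum * v.aQ⁻¹)) + xa.kl := ⟨_, rfl⟩
  obtain ⟨srcs, e_srcs⟩ : ∃ zz : ℝ, zz = v.t * srcx := ⟨_, rfl⟩
  obtain ⟨yb⟩ := exKb (3 * 5⁻¹) xa tr 1 gu srcs
  obtain ⟨pk⟩ := exPk v5 lv.rplo v3.hp hgp gu yb.yy
  obtain ⟨y1, e_y1⟩ : ∃ zz : ℝ, zz = z2 * pk.ye := ⟨_, rfl⟩
  obtain ⟨cl⟩ := exCl yb v.t 1 y1 srcx
  have hsc := sc_Ma hde' e_tz hu hee hde0 G.t0 hz0.le e_z2 e_r e_tr e_eps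
  obtain ⟨hA0, hA⟩ := hA_L G hsc e_G4
  have f := lv.f G hsc.hr
  obtain ⟨p_hg, s0⟩ := (((((((((h
    (1 : ℝ) zLMa_1099511627776_0
    tz e_tz
    de hde'
    v.u hu
    z2 e_z2
    r e_r
    eps e_eps
    tr e_tr
    (1 / 2 : ℝ) zLMa_549755813888_0
    v.tu v.e_tu
    (v.tu * v.n) rfl
    v.h (v.e_h.trans (congrArg (fun y : ℝ => y * (v.tu * v.n)) zLMa_549755813888_0))
    v.u2 v.e_u2
    (v.h * v.h) rfl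
    v.jm v.e_jm).2
    v.j v.e_j
    (v.h * v.j) rfl
    v.K (v.e_K.trans (congrArg (fun y : ℝ => y * (v.h * v.j)) zLMa_2199023255552_0))
    (2 * v.j) (congrArg (fun y : ℝ => y * v.j) zLMa_2199023255552_0)
    v.c0 v.e_c0
    v.m v.e_m
    v.nj v.e_nj
    v.om v.e_om
    v.om1 v.e_om1
    v.op1 v.e_op1
    v.R v.e_R
    v.nj2 v.e_nj2
    v2.Y (v2.e_Y.trans (congrArg (fun y : ℝ => y * v.h) zLMa_10774999203840_0))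
    ((341 / 8192) * v2.Y) (congrArg (fun y : ℝ => y * v2.Y) zLMa_45768245248_0)
    (1365 / 8192 : ℝ) zLMa_183207198720_0
    ((341 / 8192) * v2.Y + (1365 / 8192 : ℝ)) rfl
    (v2.Y * ((341 / 8192) * v2.Y + (1365 / 8192 : ℝ))) rfl
    ((1 / 2 : ℝ) + v2.Y * ((341 / 8192) * v2.Y + (1365 / 8192 : ℝ))) rfl
    (v2.Y * ((1 / 2 : ℝ) + v2.Y * ((341 / 8192) * v2.Y + (1365 / 8192 : ℝ)))) rfl
    v2.pY v2.e_pY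
    (v2.Y * v2.pY) rfl
    ((1 / 2) * (v2.Y * v2.pY)) (congrArg (fun y : ℝ => y * (v2.Y * v2.pY)) zLMa_549755813888_0)
    ((1 : ℝ) + (1 / 2) * (v2.Y * v2.pY)) rfl
    v2.Yp v2.e_Yp
    (v.K * v.om) rfl
    (2 * v.c0) (congrArg (fun y : ℝ => y * v.c0) zLMa_2199023255552_0)
    (v.K * v.om + 2 * v.c0) rfl
    v.Dt v.e_Dt
    v.D v.e_D
    v.SQ v.e_SQ
    (v.K * v.K) rfl
    (2 * (v.K * v.K)) (congrArg (fun y : ℝ => y * (v.K * v.K)) zLMa_2199023255552_0)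
    v.c2 v.e_c2
    (v.c0 * v.Dt) rfl
    v.rhat v.e_rhat).2
    v.LQ v.e_LQ
    ((1 / 2) * v.LQ) (congrArg (fun y : ℝ => y * v.LQ) zLMa_549755813888_0)
    v.aQ v.e_aQ
    (3 : ℝ) zLMa_3298534883328_0).2
    ((3 : ℝ)⁻¹) rfl
    ((1 : ℝ) * (3 : ℝ)⁻¹) rfl
    (2 : ℝ) zLMa_2199023255552_0
    (v.D + (2 : ℝ)) rfl).2
    ((v.D + (2 : ℝ))⁻¹) rfl
    l1.zL l1.e_zL
    l1.zz l1.e_zz
    ((1 : ℝ) - l1.zL) rfl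
    (l1.zz * ((1 : ℝ) * (3 : ℝ)⁻¹)) rfl
    ((1 : ℝ) + l1.zz * ((1 : ℝ) * (3 : ℝ)⁻¹)) rfl
    l1.Lv l1.e_Lv
    (l1.zz * l1.zz) rfl
    l1.eL (l1.e_eL.trans (congrArg (fun y : ℝ => y * (l1.zz * l1.zz)) zLMa_219915747328_0))
    (v.Dt * l1.Lv) rfl
    lv.rlo (lv.e_rlo.trans (congrArg (fun y : ℝ => y * (v.Dt * l1.Lv)) zLMa_549755813888_0))
    (v.Dt * l1.eL) rfl
    lv.er (lv.e_er.trans (congrArg (fun y : ℝ => y * (v.Dt * l1.eL)) zLMa_549755813888_0))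
    lv.rhi lv.e_rhi
    (v.c0 * v.rhat) rfl
    lv.D2R (lv.e_D2R.trans (congrArg (fun y : ℝ => y * (v.c0 * v.rhat)) zLMa_4398046511104_0))
    (v.c0 * v.R) rfl
    (v.c0 * v.R * v.rhat) rfl
    v.D2 (v.e_D2.trans (congrArg (fun y : ℝ => y * (v.c0 * v.R * v.rhat)) zLMa_4398046511104_0))
    (v.D2 + (2 : ℝ)) rfl).2
    ((v.D2 + (2 : ℝ))⁻¹) rfl
    l2.zL l2.e_zL
    l2.zz l2.e_zz
    ((1 : ℝ) - l2.zL) rfl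
    (l2.zz * ((1 : ℝ) * (3 : ℝ)⁻¹)) rfl
    ((1 : ℝ) + l2.zz * ((1 : ℝ) * (3 : ℝ)⁻¹)) rfl
    l2.Lv l2.e_Lv
    (l2.zz * l2.zz) rfl
    l2.eL (l2.e_eL.trans (congrArg (fun y : ℝ => y * (l2.zz * l2.zz)) zLMa_219915747328_0))
    (lv.D2R * l2.Lv) rfl
    ((1 / 2) * (lv.D2R * l2.Lv)) (congrArg (fun y : ℝ => y * (lv.D2R * l2.Lv)) zLMa_549755813888_0)
    lv.rplo lv.e_rplo
    (lv.D2R * l2.eL) rfl
    ((1 / 2) * (lv.D2R * l2.eL)) (congrArg (fun y : ℝ => y * (lv.D2R * l2.eL)) zLMa_549755813888_0)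
    lv.erp lv.e_erp
    lv.rphi lv.e_rphi
    (r * lv.rlo) rfl
    (-(r * lv.rlo)) rfl
    q e_q
    (r * lv.er) rfl
    th e_th
    (v.om * v.K) rfl
    (v.c0 + v.om * v.K) rfl).2
    v.ioK v.e_ioK
    v.h1t v.e_h1t
    (v.om1 * v.t) rfl
    v.h1 v.e_h1
    ((1 : ℝ) - v.u2) rfl
    v.f2 v.e_f2
    v.tu2 v.e_tu2
    ((1 : ℝ) - v.nj2) rfl
    v5.sn v5.e_sn
    (v.R * v.rhat) rfl).2
    (v.SQ⁻¹) rfl
    v5.R1 v5.e_R1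
    (v.c0 + v5.R1) rfl
    v5.Qr v5.e_Qr
    (v5.Qr * v5.Qr) rfl).2
    ((v5.Qr * v5.Qr)⁻¹) rfl
    v5.Th v5.e_Th
    hg e_hg
    ((1 / 2) * hg) (congrArg (fun y : ℝ => y * hg) zLMa_549755813888_0)
    ((1 : ℝ) - (1 / 2) * hg) rfl
    ((1 : ℝ) - hg) rfl).2
    (((1 : ℝ) - hg)⁻¹) rfl
    lsf e_lsf
    (hg + (1 : ℝ)) rfl
    Qb e_Qb
    (v.h1t * lsf) rfl
    lsx e_lsx
    ls e_ls
  change 0 < (1 : ℝ) - hg at p_hg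
  obtain ⟨p_rplo, s1⟩ := (s0
    (v.om1 * v.op1) rfl
    (v.c0 + v.t) rfl
    (v.om * v.c0) rfl
    (v.om * v.c0 * v.K) rfl
    (2 * (v.om * v.c0 * v.K)) (congrArg (fun y : ℝ => y * (v.om * v.c0 * v.K)) zLMa_2199023255552_0)
    (v.c2 + 2 * (v.om * v.c0 * v.K)) rfl
    ((v.c0 + v.t) * (v.c2 + 2 * (v.om * v.c0 * v.K))) rfl).2
    (((v.c0 + v.t) * (v.c2 + 2 * (v.om * v.c0 * v.K)))⁻¹) rfl
    v3.hpt v3.e_hpt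
    v3.hp v3.e_hp
  change 0 < lv.rplo at p_rplo
  obtain ⟨p_lspa, s2⟩ := (((((((((((((s1
    hgp e_hgp
    gu e_gu
    (v.h + (1 : ℝ)) rfl).2
    v2.ih v2.e_ih
    (v.h * v2.ih) rfl
    v2.rh (v2.e_rh.trans (congrArg (fun y : ℝ => y * (v.h * v2.ih)) zLMa_2199023255552_0))
    v2.mi v2.e_mi
    v2.hm v2.e_hm
    v2.nih v2.e_nih
    (v2.nih * v2.mi) rfl
    v2.bsum v2.e_bsum
    ((209 / 1024) * v.j) (congrArg (fun y : ℝ => y * v.j) zLMa_224412041216_0)).2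
    (v2.Yp⁻¹) rfl
    v2.lm v2.e_lm
    (4 * S) (congrArg (fun y : ℝ => y * S) zLMa_4398046511104_0)
    ((1 : ℝ) * v.nj) rfl
    (4 * S + (1 : ℝ) * v.nj) rfl
    G4 (e_G4.trans (congrArg (fun y : ℝ => y * (4 * S + (1 : ℝ) * v.nj)) zLMa_549755813888_0))).2
    xa.iG4 xa.e_iG4
    xa.alG xa.e_alG
    xa.AE xa.e_AE
    (xa.AE * v.op1) rfl
    xa.XeE xa.e_XeE
    (xa.alG * v.op1) rfl
    xa.XM xa.e_XM
    ((1 : ℝ) - xa.XM) rfl).2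
    xa.iX xa.e_iX
    xa.QX xa.e_QX
    ((1 : ℝ) - xa.QX) rfl).2
    xa.iQX xa.e_iQX
    (2 * eps) (congrArg (fun y : ℝ => y * eps) zLMa_2199023255552_0)
    Ei e_Ei
    Eh e_Eh
    ((13 / 4) * v.om) (congrArg (fun y : ℝ => y * v.om) zLMa_3573412790272_0)
    (79 / 256 : ℝ) zLMa_339302416384_0
    ((13 / 4) * v.om + (79 / 256 : ℝ)) rfl
    phux (e_phux.trans (congrArg (fun y : ℝ => y * ((13 / 4) * v.om + (79 / 256 : ℝ))) zLMa_549755813888_0))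
    (v.h * v.nj) rfl
    ((1 : ℝ) - v.f2) rfl
    (v.h * v.om) rfl
    (2 * (v.h * v.om)) (congrArg (fun y : ℝ => y * (v.h * v.om)) zLMa_2199023255552_0)
    ((1 : ℝ) - v.f2 - 2 * (v.h * v.om)) rfl
    (v.h * v.nj * (v.h * v.nj)) rfl
    xa.N1 xa.e_N1
    (xa.N1 + (1 : ℝ)) rfl
    xa.s (xa.e_s.trans (congrArg (fun y : ℝ => y * (xa.N1 + (1 : ℝ))) zLMa_549755813888_0))
    ((1 / 2) * v.R) (congrArg (fun y : ℝ => y * v.R) zLMa_549755813888_0)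
    (v.j - (1 / 2) * v.R) rfl
    (v.tu2 * ((1 : ℝ) - v.f2)) rfl
    (v.tu2 * ((1 : ℝ) - v.f2) * v.jm) rfl
    ((1 / 8) * (v.tu2 * ((1 : ℝ) - v.f2) * v.jm)) (congrArg (fun y : ℝ => y * (v.tu2 * ((1 : ℝ) - v.f2) * v.jm)) zLMa_137438953472_0)
    (v.j - (1 / 2) * v.R + (1 / 8) * (v.tu2 * ((1 : ℝ) - v.f2) * v.jm)) rfl
    xa.k0 xa.e_k0
    Q1 e_Q1
    (Q1 * xa.iX) rfl
    (Qb * xa.iQX) rfl
    (Q1 * xa.iX + Qb * xa.iQX) rfl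
    (xa.XM * (Q1 * xa.iX + Qb * xa.iQX)) rfl
    (ls + xa.XM * (Q1 * xa.iX + Qb * xa.iQX)) rfl
    xa.a0 xa.e_a0
    (Q1 * xa.XM) rfl
    (Q1 * xa.XM * xa.iX) rfl
    (ls + Q1 * xa.XM * xa.iX) rfl
    xa.l1 xa.e_l1
    ((13 / 64) * xa.l1) (congrArg (fun y : ℝ => y * xa.l1) zLMa_223338299392_0)
    ((1 / 2 : ℝ) + (13 / 64) * xa.l1) rfl
    (xa.l1 * ((1 / 2 : ℝ) + (13 / 64) * xa.l1)) rfl
    xa.Na xa.e_Na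
    ((13 / 16) * xa.a0) (congrArg (fun y : ℝ => y * xa.a0) zLMa_893353197568_0)
    ((1 : ℝ) + (13 / 16) * xa.a0) rfl
    (xa.a0 * ((1 : ℝ) + (13 / 16) * xa.a0)) rfl
    xa.Nb xa.e_Nb
    (v2.rh * v2.nih) rfl
    (v2.rh * v2.nih * Ei) rfl
    xa.rn xa.e_rn
    (xa.k0 * xa.Na) rfl
    (v.aQ + (1 / 2 : ℝ)) rfl
    (xa.rn * (v.aQ + (1 / 2 : ℝ))) rfl
    xa.ka xa.e_ka
    (v.aQ + (1 : ℝ)) rfl
    xa.kb xa.e_kb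
    (Eh * (v.aQ + (1 : ℝ))) rfl
    (Eh * (v.aQ + (1 : ℝ)) * v2.nih) rfl
    xa.lfk xa.e_lfk
    (xa.ka * lsx) rfl
    (xa.lfk * phux) rfl
    xa.kl xa.e_kl
    (r * v2.bsum) rfl).2
    (v.aQ⁻¹) rfl
    (r * v2.bsum * v.aQ⁻¹) rfl
    ((1 / 2) * (r * v2.bsum * v.aQ⁻¹)) (congrArg (fun y : ℝ => y * (r * v2.bsum * v.aQ⁻¹)) zLMa_549755813888_0)
    (v.om1 * ((1 / 2) * (r * v2.bsum * v.aQ⁻¹))) rfl
    srcx e_srcx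
    srcs e_srcs
    yb.src yb.e_src
    (xa.ka * Q1) rfl
    (xa.ka * Q1 * xa.iX) rfl
    (xa.kb * Qb) rfl
    (xa.kb * Qb * xa.iQX) rfl
    yb.fxe yb.e_fxe
    (v.om1 * yb.src) rfl
    (xa.XeE * yb.fxe) rfl
    yb.epd yb.e_epd
    (v.tu2 * yb.epd) rfl
    (v.tu2 * yb.epd * v.aQ⁻¹) rfl
    ((1 : ℝ) - v.tu2 * yb.epd * v.aQ⁻¹) rfl).2
    yb.NN yb.e_NN
    yb.eN yb.e_eN
    yb.d yb.e_d
    yb.eta yb.e_eta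
    (yb.eta * v.aQ⁻¹) rfl
    ((1 : ℝ) - yb.eta * v.aQ⁻¹) rfl
    (v.rhat * ((1 : ℝ) - yb.eta * v.aQ⁻¹)) rfl
    yb.rl yb.e_rl).2
    yb.irl yb.e_irl
    yb.yy yb.e_yy
    (v.aQ - yb.eta) rfl).2
    yb.q0 yb.e_q0
    yb.zp yb.e_zp
    ((1 / 2) * yb.zp) (congrArg (fun y : ℝ => y * yb.zp) zLMa_549755813888_0)
    ((1 : ℝ) - (1 / 2) * yb.zp) rfl
    ((1 : ℝ) - yb.zp) rfl).2
    (((1 : ℝ) - yb.zp)⁻¹) rfl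
    yb.kzp yb.e_kzp
    (v.u * yb.q0) rfl
    (gu * yb.irl) rfl
    (gu * yb.irl * yb.kzp) rfl
    yb.Cu yb.e_Cu
    (tr * yb.eN) rfl
    (yb.q0 * (tr * yb.eN)) rfl
    ((1 : ℝ) * yb.irl) rfl
    ((1 : ℝ) * yb.irl * yb.kzp) rfl
    ((1 : ℝ) * yb.irl * yb.kzp * yb.d) rfl
    yb.rr yb.e_rr
    ((13 / 64) * yb.rr) (congrArg (fun y : ℝ => y * yb.rr) zLMa_223338299392_0)
    ((1 / 2 : ℝ) + (13 / 64) * yb.rr) rfl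
    (yb.rr * ((1 / 2 : ℝ) + (13 / 64) * yb.rr)) rfl
    ((1 : ℝ) + yb.rr * ((1 / 2 : ℝ) + (13 / 64) * yb.rr)) rfl
    (yb.Cu * ((1 : ℝ) + yb.rr * ((1 / 2 : ℝ) + (13 / 64) * yb.rr))) rfl
    yb.CuN yb.e_CuN
    yb.fbt yb.e_fbt
    yb.XLt yb.e_XLt
    (5 : ℝ) zLMa_5497558138880_0).2
    ((5 : ℝ)⁻¹) rfl
    yb.beta yb.e_beta
    ((v.h + (1 : ℝ)) * v.op1) rfl
    yb.b1 yb.e_b1
    pk.omr pk.e_omr
    pk.omp pk.e_omp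
    ((1 / 2) * hgp) (congrArg (fun y : ℝ => y * hgp) zLMa_549755813888_0)
    ((1 : ℝ) - (1 / 2) * hgp) rfl
    ((1 : ℝ) - hgp) rfl).2
    (((1 : ℝ) - hgp)⁻¹) rfl
    (((1 : ℝ) - (1 / 2) * hgp) * ((1 : ℝ) - hgp)⁻¹) rfl
    pk.lspf pk.e_lspf
    (v.tu2 * v5.Th) rfl
    ((2731 / 4096) * (v.tu2 * v5.Th)) (congrArg (fun y : ℝ => y * (v.tu2 * v5.Th)) zLMa_733097230336_0)
    ((1 : ℝ) - (2731 / 4096) * (v.tu2 * v5.Th)) rfl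
    (v5.Th * ((1 : ℝ) - (2731 / 4096) * (v.tu2 * v5.Th))) rfl
    (lv.rplo * lv.rplo) rfl
    (v.u2 * (lv.rplo * lv.rplo)) rfl
    pk.E0 pk.e_E0
    pk.lspa pk.e_lspa
    (pk.E0 + (1 : ℝ)) rfl
    (pk.lspa * (pk.E0 + (1 : ℝ))) rfl
    (pk.E0 - pk.lspa * (pk.E0 + (1 : ℝ))) rfl
    ((2731 / 8192) * (v.K * v.K)) (congrArg (fun y : ℝ => y * (v.K * v.K)) zLMa_366548615168_0)
    ((1 : ℝ) - (2731 / 8192) * (v.K * v.K)) rfl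
    (v.nj2 * ((1 : ℝ) - (2731 / 8192) * (v.K * v.K))) rfl
    (pk.E0 - pk.lspa * (pk.E0 + (1 : ℝ)) + v.nj2 * ((1 : ℝ) - (2731 / 8192) * (v.K * v.K))) rfl
    (pk.omr * (pk.E0 - pk.lspa * (pk.E0 + (1 : ℝ)) + v.nj2 * ((1 : ℝ) - (2731 / 8192) * (v.K * v.K)))) rfl
    (pk.omp * pk.omp) rfl
    ((1 : ℝ) + pk.omp * pk.omp) rfl).2
    (((1 : ℝ) + pk.omp * pk.omp)⁻¹) rfl
    pk.pe pk.e_pe
    ((1 : ℝ) - yb.yy) rfl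
    pk.ye pk.e_ye
    ((1 : ℝ) - pk.lspa) rfl
  change 0 < (1 : ℝ) - pk.lspa at p_lspa
  obtain ⟨p_pe, s3⟩ := s2
  change 0 < pk.pe at p_pe
  obtain ⟨p_yy, s4⟩ := s3
  change 0 < (1 : ℝ) - yb.yy at p_yy
  obtain ⟨p_XM, s5⟩ := ((((((s4
    (yb.CuN * G4) rfl
    (yb.CuN * G4 * srcx) rfl).2
    (v.op1⁻¹) rfl
    cl.FXt cl.e_FXt
    y1 e_y1
    (v.t * y1) rfl
    ((1 / 2) * (v.t * y1)) (congrArg (fun y : ℝ => y * (v.t * y1)) zLMa_549755813888_0)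
    ((1 : ℝ) - (1 / 2) * (v.t * y1)) rfl
    (y1 * ((1 : ℝ) - (1 / 2) * (v.t * y1))) rfl
    cl.S1 cl.e_S1
    (v.u * v.n) rfl
    (v.u * v.n * (v.h + (1 : ℝ))) rfl
    (v.u * v.n * (v.h + (1 : ℝ)) * v.j) rfl
    cl.a4 cl.e_a4
    (cl.S1 + cl.a4) rfl
    (cl.S1 * cl.a4) rfl
    (v.t * (cl.S1 * cl.a4)) rfl
    cl.S4 cl.e_S4
    cl.Dh cl.e_Dh
    ((3 / 8) * v.D) (congrArg (fun y : ℝ => y * v.D) zLMa_412316860416_0)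
    ((1 / 2 : ℝ) - (3 / 8) * v.D) rfl
    (cl.Dh * ((1 / 2 : ℝ) - (3 / 8) * v.D)) rfl
    ((1 : ℝ) * (cl.Dh * ((1 / 2 : ℝ) - (3 / 8) * v.D))) rfl
    cl.a5 cl.e_a5
    (cl.S4 + cl.a5) rfl
    (cl.S4 * cl.a5) rfl
    (v.t * (cl.S4 * cl.a5)) rfl
    cl.S5 cl.e_S5
    (v.u * yb.eN) rfl
    (v.u * yb.eN * v.op1⁻¹) rfl
    cl.a6 cl.e_a6
    (cl.S5 + cl.a6) rfl
    (cl.S5 * cl.a6) rfl
    (v.t * (cl.S5 * cl.a6)) rfl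
    cl.S6 cl.e_S6
    cl.a7 cl.e_a7
    (cl.S6 - cl.a7) rfl
    (v.t * yb.b1) rfl
    ((1 : ℝ) + v.t * yb.b1) rfl).2
    (((1 : ℝ) + v.t * yb.b1)⁻¹) rfl
    cl.S7 cl.e_S7
    (v.u * v.tu) rfl
    (v.u * v.tu * yb.eN) rfl
    (v.u * v.tu * yb.eN * yb.q0) rfl
    cl.a8 cl.e_a8
    (cl.S7 + cl.a8) rfl
    (cl.S7 * cl.a8) rfl
    (v.t * (cl.S7 * cl.a8)) rfl
    cl.S8 cl.e_S8
    (v.t * cl.S8) rfl
    cl.c1 cl.e_c1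
    (yb.fbt * xa.XM) rfl
    (v.t * yb.XLt) rfl
    (cl.FXt * (v.t * yb.XLt)) rfl
    (yb.fbt * xa.XM + cl.FXt * (v.t * yb.XLt)) rfl
    cl.rt cl.e_rt
    (yb.fbt + cl.FXt) rfl
    cl.fm cl.e_fm
    (cl.rt * cl.c1) rfl
    (cl.S8 + cl.rt * cl.c1) rfl
    (cl.S8 + cl.rt * cl.c1 + cl.fm) rfl
    cl.Bm cl.e_Bm
    ((1 / 1024) * (1 : ℝ)) (congrArg (fun y : ℝ => y * (1 : ℝ)) zLMa_1073741824_0)
    (cl.Bm - (1 / 1024) * (1 : ℝ)) rfl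
    yb.m1 yb.e_m1
    (yb.m1 + (2 : ℝ)) rfl
    (2 * yb.beta) (congrArg (fun y : ℝ => y * yb.beta) zLMa_2199023255552_0)
    (yb.m1 + (2 : ℝ) - 2 * yb.beta) rfl
    ((v.h + (1 : ℝ)) * (yb.m1 + (2 : ℝ) - 2 * yb.beta)) rfl
    (yb.m1 * (2 * yb.beta)) rfl
    (yb.m1 * (2 * yb.beta) + (1 : ℝ)) rfl).2
    ((yb.m1 * (2 * yb.beta) + (1 : ℝ))⁻¹) rfl
    ((v.h + (1 : ℝ)) * (yb.m1 + (2 : ℝ) - 2 * yb.beta) * (yb.m1 * (2 * yb.beta) + (1 : ℝ))⁻¹) rfl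
    (xa.AE * yb.fxe) rfl
    ((1 / 2) * v2.lm) (congrArg (fun y : ℝ => y * v2.lm) zLMa_549755813888_0)
    (v.K + (1 / 2) * v2.lm) rfl
    (xa.AE * yb.fxe * (v.K + (1 / 2) * v2.lm)) rfl
    (2 * (xa.AE * yb.fxe * (v.K + (1 / 2) * v2.lm))) (congrArg (fun y : ℝ => y * (xa.AE * yb.fxe * (v.K + (1 / 2) * v2.lm))) zLMa_2199023255552_0)
    (yb.src + 2 * (xa.AE * yb.fxe * (v.K + (1 / 2) * v2.lm))) rfl
    (2 * (yb.src + 2 * (xa.AE * yb.fxe * (v.K + (1 / 2) * v2.lm)))) (congrArg (fun y : ℝ => y * (yb.src + 2 * (xa.AE * yb.fxe * (v.K + (1 / 2) * v2.lm)))) zLMa_2199023255552_0)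
    (2 * (yb.src + 2 * (xa.AE * yb.fxe * (v.K + (1 / 2) * v2.lm))) * yb.NN) rfl
    (v.tu * yb.eN) rfl
    (v.op1 - v.tu * yb.eN) rfl).2
    ((v.op1 - v.tu * yb.eN)⁻¹) rfl
    (2 * (yb.src + 2 * (xa.AE * yb.fxe * (v.K + (1 / 2) * v2.lm))) * yb.NN * (v.op1 - v.tu * yb.eN)⁻¹) rfl
    yb.V yb.e_V
    ((1 : ℝ) * v.nj * ((1 : ℝ) * v.nj)) rfl
    (13 : ℝ) zLMa_14293651161088_0
    (10 : ℝ) zLMa_10995116277760_0).2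
    ((10 : ℝ)⁻¹) rfl
    ((13 : ℝ) * (10 : ℝ)⁻¹) rfl
    ((1 : ℝ) * v.nj * ((1 : ℝ) * v.nj) * ((13 : ℝ) * (10 : ℝ)⁻¹)) rfl
    (S * S) rfl
    (25 * (S * S)) (congrArg (fun y : ℝ => y * (S * S)) zLMa_27487790694400_0)
    yb.C2 yb.e_C2
    yb.gr yb.e_gr
    (2 * v.c0 - v.t) rfl
    yb.Gt yb.e_Gt
    ((1 : ℝ) * v.u) rfl
    yb.au yb.e_au
    (v.op1 * yb.fxe) rfl
    (v.op1 * yb.fxe * xa.iG4) rfl
    yb.inner yb.e_inner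
    (v.tu * yb.eN + (2 : ℝ)) rfl
    yb.ezs yb.e_ezs
    (yb.C2 * yb.gr) rfl
    (yb.NN * yb.ezs) rfl
    (yb.au * yb.inner) rfl
    (yb.NN * yb.ezs * (yb.au * yb.inner)) rfl
    yb.Rg0 yb.e_Rg0
    ((1 / 2) * (v.tu * yb.eN)) (congrArg (fun y : ℝ => y * (v.tu * yb.eN)) zLMa_549755813888_0)
    ((1 : ℝ) + (1 / 2) * (v.tu * yb.eN)) rfl
    (yb.NN * ((1 : ℝ) + (1 / 2) * (v.tu * yb.eN))) rfl
    (v.t * v.om1) rfl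
    (v.t * v.om1 * v2.bsum) rfl
    (v.op1 * v.aQ) rfl).2
    ((v.op1 * v.aQ)⁻¹) rfl
    (v.t * v.om1 * v2.bsum * (v.op1 * v.aQ)⁻¹) rfl
    (yb.NN * ((1 : ℝ) + (1 / 2) * (v.tu * yb.eN)) * (v.t * v.om1 * v2.bsum * (v.op1 * v.aQ)⁻¹)) rfl
    yb.Rh yb.e_Rh
    (v2.lm * yb.Rg0) rfl
    ((1 : ℝ) - v2.lm) rfl
    (v.u2 * yb.Rh) rfl
    (((1 : ℝ) - v2.lm) * (v.u2 * yb.Rh)) rfl
    (yb.C2 * (((1 : ℝ) - v2.lm) * (v.u2 * yb.Rh))) rfl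
    yb.Rg yb.e_Rg
  change 0 < (1 : ℝ) - xa.XM at p_XM
  obtain ⟨p_QX, s6⟩ := s5
  change 0 < (1 : ℝ) - xa.QX at p_QX
  obtain ⟨p_e2, s7⟩ := s6
    (2 * (v.tu2 * yb.epd)) (congrArg (fun y : ℝ => y * (v.tu2 * yb.epd)) zLMa_2199023255552_0)
    (v.aQ - 2 * (v.tu2 * yb.epd)) rfl
  change 0 < v.aQ - 2 * (v.tu2 * yb.epd) at p_e2
  obtain ⟨p_rl, s8⟩ := s7
  change 0 < yb.rl at p_rl
  obtain ⟨p_hgp, s9⟩ := s8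
    ((1 / 2 : ℝ) - hgp) rfl
  change 0 < (1 / 2 : ℝ) - hgp at p_hgp
  obtain ⟨p_l1, s10⟩ := s9
    ((5 / 8) * (1 : ℝ)) (congrArg (fun y : ℝ => y * (1 : ℝ)) zLMa_687194767360_0)
    ((5 / 8) * (1 : ℝ) - xa.l1) rfl
  change 0 < (5 / 8) * (1 : ℝ) - xa.l1 at p_l1
  obtain ⟨p_a0, s11⟩ := s10
    ((11 / 32) * (1 : ℝ)) (congrArg (fun y : ℝ => y * (1 : ℝ)) zLMa_377957122048_0)
    ((11 / 32) * (1 : ℝ) - xa.a0) rfl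
  change 0 < (11 / 32) * (1 : ℝ) - xa.a0 at p_a0
  obtain ⟨p_S, s12⟩ := s11
  change 0 < v.op1 - v.tu * yb.eN at p_S
  obtain ⟨p_zp, s13⟩ := s12
  change 0 < (1 : ℝ) - yb.zp at p_zp
  obtain ⟨p_rr, s14⟩ := s13
    ((5 / 8) * (1 : ℝ) - yb.rr) rfl
  change 0 < (5 / 8) * (1 : ℝ) - yb.rr at p_rr
  obtain ⟨p_V, s15⟩ := s14
  change 0 < yb.V at p_V
  obtain ⟨p_B, s16⟩ := s15
  change 0 < cl.Bm - (1 / 1024) * (1 : ℝ) at p_B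
  obtain ⟨p_Rg, s17⟩ := s16
  change 0 < yb.Rg at p_Rg
  obtain ⟨p_Rh, s18⟩ := s17
  change 0 < yb.Rh at p_Rh
  have hQ := qb_s G f lv.e_rhi e_q e_th
  have hq := hQ.le
  have hq0 : 0 < q := lt_of_lt_of_le (by rw [G.q_eq]; exact G.q0) hq
  have hγ := gam_le_one G.e0 G.κ0 G.s0
  have hγp := gam_le_one G.e0 G.κ0 (shf_re' G.κ0 G.s0)
  have hn1 := n1_one G hγ hq e_hg e_Qb e_Q1
  have hlx : 1 * lsx = v.h1t * lsf * 1 := by rw [e_lsx, one_mul]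
  have fr := fr_g G hγ hq hq0 e_hg e_lsf p_hg e_Qb e_ls (hsc.al0 G) hlx hn1
  have hgu : 1 * gu = 1 * S := by rw [e_gu]; ring
  obtain ⟨lf0, Ex, hφ⟩ := ph_slM G v2 hsc he2 (by norm_num) (by norm_num) (by norm_num) e_phux e_Ei e_Eh
  have as8 : As8 xa yb := ⟨p_XM, p_QX, p_e2, p_rl, p_l1, p_a0, p_S, p_zp, p_rr, p_V, p_Rg, p_Rh⟩
  exact far_Cl G D hsc hA0 hA as8 fr hgu hγp hφ pk f p_rplo e_hgp p_hgp p_lspa p_pe p_yy cl e_srcx e_srcs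
    (mul_one v.t) G.t0 (by linear_combination v.t * e_y1 - pk.ye * e_r) p_B

theorem dom_LMa6 {κ : ℝ} {τ : ℂ} {R w : ℝ} {v : B1} (D : PtE (3 * 5⁻¹) v.e κ τ R w)
    (G : Geo κ (shf κ τ) v) (v2 : B2 v) (he2 : 2 ≤ v.e) {S z de : ℝ}
    (hde0 : 0 < de) (hde : de = v.t * z * S) (hu : v.u = z * de) (hz0 : 0 < z)
    (hee : v.e * (de * de) = 1)
    (h : RAs Pool.Agent.helper71.FJ.Crt.LMa.prog6 [S, v.t, z, v.n]) : False := by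
  obtain ⟨tz, e_tz⟩ : ∃ zz : ℝ, zz = v.t * z := ⟨_, rfl⟩
  have hde' : de = tz * S := by rw [e_tz]; exact hde
  obtain ⟨z2, e_z2⟩ : ∃ zz : ℝ, zz = z * z := ⟨_, rfl⟩
  obtain ⟨r, e_r⟩ : ∃ zz : ℝ, zz = v.t * z2 := ⟨_, rfl⟩
  obtain ⟨eps, e_eps⟩ : ∃ zz : ℝ, zz = de * de := ⟨_, rfl⟩
  obtain ⟨tr, e_tr⟩ : ∃ zz : ℝ, zz = v.t * r := ⟨_, rfl⟩
  have hsc := sc_Ma hde' e_tz hu hee hde0 G.t0 hz0.le e_z2 e_r e_tr e_eps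
  obtain ⟨p_B, s0⟩ := ((h
    (1 : ℝ) zLMa_1099511627776_0
    tz e_tz
    de hde'
    v.u hu
    z2 e_z2
    r e_r
    eps e_eps
    tr e_tr
    (1 / 2 : ℝ) zLMa_549755813888_0
    v.tu v.e_tu
    (v.tu * v.n) rfl
    v.h (v.e_h.trans (congrArg (fun y : ℝ => y * (v.tu * v.n)) zLMa_549755813888_0))
    v.u2 v.e_u2
    (v.h * v.h) rfl
    v.jm v.e_jm).2
    v.j v.e_j
    (v.h * v.j) rfl
    v.K (v.e_K.trans (congrArg (fun y : ℝ => y * (v.h * v.j)) zLMa_2199023255552_0))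
    (2 * v.j) (congrArg (fun y : ℝ => y * v.j) zLMa_2199023255552_0)
    v.c0 v.e_c0
    v.m v.e_m
    v.nj v.e_nj
    v.om v.e_om
    v.om1 v.e_om1
    v.op1 v.e_op1
    v.R v.e_R
    v.nj2 v.e_nj2
    v2.Y (v2.e_Y.trans (congrArg (fun y : ℝ => y * v.h) zLMa_10774999203840_0))
    ((341 / 8192) * v2.Y) (congrArg (fun y : ℝ => y * v2.Y) zLMa_45768245248_0)
    (1365 / 8192 : ℝ) zLMa_183207198720_0
    ((341 / 8192) * v2.Y + (1365 / 8192 : ℝ)) rfl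
    (v2.Y * ((341 / 8192) * v2.Y + (1365 / 8192 : ℝ))) rfl
    ((1 / 2 : ℝ) + v2.Y * ((341 / 8192) * v2.Y + (1365 / 8192 : ℝ))) rfl
    (v2.Y * ((1 / 2 : ℝ) + v2.Y * ((341 / 8192) * v2.Y + (1365 / 8192 : ℝ)))) rfl
    v2.pY v2.e_pY
    (v2.Y * v2.pY) rfl
    ((1 / 2) * (v2.Y * v2.pY)) (congrArg (fun y : ℝ => y * (v2.Y * v2.pY)) zLMa_549755813888_0)
    ((1 : ℝ) + (1 / 2) * (v2.Y * v2.pY)) rfl
    v2.Yp v2.e_Yp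
    ((209 / 1024) * v.j) (congrArg (fun y : ℝ => y * v.j) zLMa_224412041216_0)).2
    (v2.Yp⁻¹) rfl
    v2.lm v2.e_lm
    (v.t - v.K) rfl
    (v.t - v.K - v2.lm) rfl
  change 0 < v.t - v.K - v2.lm at p_B
  exact Pool.Agent.helper71.FG.dT_core G v2 D p_B

theorem dom_LMa7 {κ : ℝ} {τ : ℂ} {R w : ℝ} {v : B1} (D : PtE (3 * 5⁻¹) v.e κ τ R w)
    (G : Geo κ (shf κ τ) v) (v2 : B2 v) (he2 : 2 ≤ v.e) {S z de : ℝ}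
    (hde0 : 0 < de) (hde : de = v.t * z * S) (hu : v.u = z * de) (hz0 : 0 < z)
    (hee : v.e * (de * de) = 1)
    (hE : 50 ≤ v.e)
    (h : RAs Pool.Agent.helper71.FJ.Crt.LMa.prog7 [S, v.t, z, v.n]) : False := by
  obtain ⟨tz, e_tz⟩ : ∃ zz : ℝ, zz = v.t * z := ⟨_, rfl⟩
  have hde' : de = tz * S := by rw [e_tz]; exact hde
  obtain ⟨z2, e_z2⟩ : ∃ zz : ℝ, zz = z * z := ⟨_, rfl⟩
  obtain ⟨r, e_r⟩ : ∃ zz : ℝ, zz = v.t * z2 := ⟨_, rfl⟩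
  obtain ⟨eps, e_eps⟩ : ∃ zz : ℝ, zz = de * de := ⟨_, rfl⟩
  obtain ⟨tr, e_tr⟩ : ∃ zz : ℝ, zz = v.t * r := ⟨_, rfl⟩
  have hsc := sc_Ma hde' e_tz hu hee hde0 G.t0 hz0.le e_z2 e_r e_tr e_eps
  obtain ⟨p_B, s0⟩ := h
    (1 : ℝ) zLMa_1099511627776_0
    tz e_tz
    de hde'
    v.u hu
    z2 e_z2
    r e_r
    eps e_eps
    tr e_tr
    (5243 / 262144 : ℝ) zLMa_21990735872_0
    (eps - (5243 / 262144 : ℝ)) rfl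
  change 0 < eps - (5243 / 262144 : ℝ) at p_B
  exact dm_lo hsc.ee hE (by norm_num) (by norm_num) p_B

theorem dom_LMa8 {κ : ℝ} {τ : ℂ} {R w : ℝ} {v : B1} (D : PtE (3 * 5⁻¹) v.e κ τ R w)
    (G : Geo κ (shf κ τ) v) (v2 : B2 v) (he2 : 2 ≤ v.e) {S z de : ℝ}
    (hde0 : 0 < de) (hde : de = v.t * z * S) (hu : v.u = z * de) (hz0 : 0 < z)
    (hee : v.e * (de * de) = 1)
    (hE1 : v.e ≤ 100)
    (h : RAs Pool.Agent.helper71.FJ.Crt.LMa.prog8 [S, v.t, z, v.n]) : False := by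
  obtain ⟨tz, e_tz⟩ : ∃ zz : ℝ, zz = v.t * z := ⟨_, rfl⟩
  have hde' : de = tz * S := by rw [e_tz]; exact hde
  obtain ⟨z2, e_z2⟩ : ∃ zz : ℝ, zz = z * z := ⟨_, rfl⟩
  obtain ⟨r, e_r⟩ : ∃ zz : ℝ, zz = v.t * z2 := ⟨_, rfl⟩
  obtain ⟨eps, e_eps⟩ : ∃ zz : ℝ, zz = de * de := ⟨_, rfl⟩
  obtain ⟨tr, e_tr⟩ : ∃ zz : ℝ, zz = v.t * r := ⟨_, rfl⟩
  have hsc := sc_Ma hde' e_tz hu hee hde0 G.t0 hz0.le e_z2 e_r e_tr e_eps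
  obtain ⟨p_B, s0⟩ := h
    (1 : ℝ) zLMa_1099511627776_0
    tz e_tz
    de hde'
    v.u hu
    z2 e_z2
    r e_r
    eps e_eps
    tr e_tr
    (10485 / 1048576 : ℝ) zLMa_10994319360_0
    ((10485 / 1048576 : ℝ) - eps) rfl
  change 0 < (10485 / 1048576 : ℝ) - eps at p_B
  exact dm_hi hsc.ee G.e0 hE1 (by norm_num) p_B

theorem dom_LMa9 {κ : ℝ} {τ : ℂ} {R w : ℝ} {v : B1} (D : PtE (3 * 5⁻¹) v.e κ τ R w)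
    (G : Geo κ (shf κ τ) v) (v2 : B2 v) (he2 : 2 ≤ v.e) {S z de : ℝ}
    (hde0 : 0 < de) (hde : de = v.t * z * S) (hu : v.u = z * de) (hz0 : 0 < z)
    (hee : v.e * (de * de) = 1)
    (hb : 1 / 2 < v.e * v.K)
    (h : RAs Pool.Agent.helper71.FJ.Crt.LMa.prog9 [S, v.t, z, v.n]) : False := by
  obtain ⟨tz, e_tz⟩ : ∃ zz : ℝ, zz = v.t * z := ⟨_, rfl⟩
  have hde' : de = tz * S := by rw [e_tz]; exact hde
  obtain ⟨z2, e_z2⟩ : ∃ zz : ℝ, zz = z * z := ⟨_, rfl⟩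
  obtain ⟨r, e_r⟩ : ∃ zz : ℝ, zz = v.t * z2 := ⟨_, rfl⟩
  obtain ⟨eps, e_eps⟩ : ∃ zz : ℝ, zz = de * de := ⟨_, rfl⟩
  obtain ⟨tr, e_tr⟩ : ∃ zz : ℝ, zz = v.t * r := ⟨_, rfl⟩
  have hsc := sc_Ma hde' e_tz hu hee hde0 G.t0 hz0.le e_z2 e_r e_tr e_eps
  obtain ⟨p_B, s0⟩ := (h
    (1 : ℝ) zLMa_1099511627776_0
    tz e_tz
    de hde'
    v.u hu
    z2 e_z2
    r e_r
    eps e_eps
    tr e_tr
    (1 / 2 : ℝ) zLMa_549755813888_0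
    v.tu v.e_tu
    (v.tu * v.n) rfl
    v.h (v.e_h.trans (congrArg (fun y : ℝ => y * (v.tu * v.n)) zLMa_549755813888_0))
    v.u2 v.e_u2
    (v.h * v.h) rfl
    v.jm v.e_jm).2
    v.j v.e_j
    (v.h * v.j) rfl
    v.K (v.e_K.trans (congrArg (fun y : ℝ => y * (v.h * v.j)) zLMa_2199023255552_0))
    (2 * v.j) (congrArg (fun y : ℝ => y * v.j) zLMa_2199023255552_0)
    v.c0 v.e_c0
    v.m v.e_m
    v.nj v.e_nj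
    v.om v.e_om
    v.om1 v.e_om1
    v.op1 v.e_op1
    v.R v.e_R
    v.nj2 v.e_nj2
    ((1 / 2) * S) (congrArg (fun y : ℝ => y * S) zLMa_549755813888_0)
    ((1 : ℝ) * v.nj) rfl
    ((1 / 2) * S - (1 : ℝ) * v.nj) rfl
  change 0 < (1 / 2) * S - (1 : ℝ) * v.nj at p_B
  exact dm_b G hsc hb p_B

theorem ptLMa {κ : ℝ} {τ : ℂ} {R w : ℝ} {v : B1} (D : PtE (3 * 5⁻¹) v.e κ τ R w)
    (G : Geo κ (shf κ τ) v) (he2 : 2 ≤ v.e) {S z de : ℝ}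
    (hde0 : 0 < de) (hde : de = v.t * z * S) (hu : v.u = z * de) (hz0 : 0 < z)
    (hee : v.e * (de * de) = 1)
    (hE : 50 ≤ v.e)
    (hE1 : v.e ≤ 100)
    (hK : v.e * v.K ^ 2 ≤ 22716 / 16384 + 1925 / 1024 * de)
    (hb : 1 / 2 < v.e * v.K)
    (hz2 : z ≤ 2)
    (h : ∃ ops ∈ Pool.Agent.helper71.FJ.Crt.LMa.progs, RAs ops [S, v.t, z, v.n]) :
    FarPt v.e κ (1 - Real.sinh κ / 1024) w (2 * AL v.e v.K * Real.sinh κ ^ 2) R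
      (RE v.e κ (w * R)) τ := by
  obtain ⟨v2⟩ := exB2 v
  obtain ⟨v3⟩ := exB3 v
  obtain ⟨v5⟩ := exV5 v
  obtain ⟨l1⟩ := exLg v.D
  obtain ⟨l2⟩ := exLg v.D2
  obtain ⟨lv⟩ := exLV v l1 l2
  obtain ⟨ops, ho, hr⟩ := h
  rw [Pool.Agent.helper71.FJ.Crt.LMa.progs] at ho
  simp only [List.mem_cons, List.not_mem_nil, or_false] at ho
  rcases ho with rfl | rfl | rfl | rfl | rfl | rfl | rfl | rfl | rfl | rfl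
  · exact far_LMa0 D G v2 v3 v5 lv he2 hde0 hde hu hz0 hee hr
  · exact far_LMa1 D G v2 v3 v5 lv he2 hde0 hde hu hz0 hee hr
  · exact far_LMa2 D G v2 v3 v5 lv he2 hde0 hde hu hz0 hee hr
  · exact far_LMa3 D G v2 v3 v5 lv he2 hde0 hde hu hz0 hee hr
  · exact far_LMa4 D G v2 v3 v5 lv he2 hde0 hde hu hz0 hee hr
  · exact far_LMa5 D G v2 v3 v5 lv he2 hde0 hde hu hz0 hee hr
  · exact (dom_LMa6 D G v2 he2 hde0 hde hu hz0 hee  hr).elim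
  · exact (dom_LMa7 D G v2 he2 hde0 hde hu hz0 hee hE hr).elim
  · exact (dom_LMa8 D G v2 he2 hde0 hde hu hz0 hee hE1 hr).elim
  · exact (dom_LMa9 D G v2 he2 hde0 hde hu hz0 hee hb hr).elim

end Pool.Agent.helper71.FJ
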