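import Pool.Agent.helper31.IC.EngD
import Pool.Agent.helper14.QF.Inst

/-!
Generated: straight line program(s) and compiled form(s).
-/

namespace Pool.Agent.helper71.FJ.Crt.LMb

open Pool.Agent.helper31.IA (Z Op)
open Pool.Agent.helper31.IC

set_option maxRecDepth 100000

abbrev opsE : Ops := Pool.Agent.helper14.QF.opsF

def prog0 : List Op := [
  .const ⟨1099511627776, 0, 0, 0⟩,
  .mul 2 1,
  .mul 4 4,
  .mul 4 0,
  .mul 5 6,
  .mul 0 5,
  .mul 0 0,
  .mul 3 8,
  .const ⟨549755813888, 0, 0, 0⟩,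
  .mul 5 7,
  .mul 0 13,
  .scale ⟨549755813888, 0, 0, 0⟩ 0,
  .mul 10 10,
  .mul 1 1,
  .sub 13 0,
  .inv 0,
  .mul 4 0,
  .scale ⟨2199023255552, 0, 0, 0⟩ 0,
  .scale ⟨2199023255552, 0, 0, 0⟩ 2,
  .sub 0 18,
  .add 0 2,
  .mul 24 5,
  .mul 20 0,
  .sub 22 0,
  .add 23 1,
  .mul 21 12,
  .mul 4 4,
  .scale ⟨10774999203840, 0, 0, 0⟩ 15,
  .scale ⟨45768245248, 0, 0, 0⟩ 0,
  .const ⟨183207198720, 0, 0, 0⟩,
  .add 1 0,
  .mul 3 0,
  .add 23 0,
  .mul 5 0,
  .add 33 0,
  .mul 7 0,
  .scale ⟨549755813888, 0, 0, 0⟩ 0,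
  .add 36 0,
  .mul 3 0,
  .mul 21 16,
  .scale ⟨2199023255552, 0, 0, 0⟩ 20,
  .add 1 0,
  .add 0 38,
  .mul 17 0,
  .add 0 43,
  .mul 27 27,
  .scale ⟨2199023255552, 0, 0, 0⟩ 0,
  .add 0 46,
  .mul 28 5,
  .sub 0 48,
  .log 5,
  .scale ⟨549755813888, 0, 0, 0⟩ 0,
  .exp 0,
  .const ⟨3298534883328, 0, 0, 0⟩,
  .inv 0,
  .mul 54 0,
  .const ⟨2199023255552, 0, 0, 0⟩,
  .add 13 0,
  .inv 0,
  .mul 15 0,
  .mul 0 0,
  .sub 60 1,
  .mul 1 6,
  .add 62 0,
  .mul 2 0,
  .mul 4 4,
  .scale ⟨219915747328, 0, 0, 0⟩ 0,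
  .mul 24 2,
  .scale ⟨549755813888, 0, 0, 0⟩ 0,
  .mul 26 2,
  .scale ⟨549755813888, 0, 0, 0⟩ 0,
  .add 2 0,
  .mul 52 22,
  .scale ⟨4398046511104, 0, 0, 0⟩ 0,
  .mul 54 48,
  .mul 0 25,
  .scale ⟨4398046511104, 0, 0, 0⟩ 0,
  .add 0 20,
  .inv 0,
  .mul 2 0,
  .mul 0 0,
  .sub 80 1,
  .mul 1 26,
  .add 82 0,
  .mul 2 0,
  .mul 4 4,
  .scale ⟨219915747328, 0, 0, 0⟩ 0,
  .mul 13 2,
  .scale ⟨549755813888, 0, 0, 0⟩ 0,
  .sub 0 17,
  .mul 16 3,
  .scale ⟨549755813888, 0, 0, 0⟩ 0,
  .add 0 21,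
  .add 3 0,
  .mul 95 25,
  .neg 0,
  .exp 0,
  .mul 98 26,
  .mul 1 0,
  .mul 76 81,
  .add 80 0,
  .inv 0,
  .mul 77 0,
  .mul 79 99,
  .mul 0 1,
  .sub 104 92,
  .mul 79 0,
  .mul 97 97,
  .sub 107 81,
  .mul 3 0,
  .mul 84 60,
  .inv 66,
  .mul 1 0,
  .add 93 0,
  .mul 69 0,
  .mul 0 0,
  .inv 0,
  .mul 7 0,
  .mul 13 117,
  .scale ⟨549755813888, 0, 0, 0⟩ 0,
  .sub 119 0,
  .sub 120 2,
  .inv 0,
  .mul 2 0,
  .add 5 123,
  .mul 28 0,
  .mul 23 2,
  .mul 0 126,
  .mul 9 4,
  .pos 7,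
  .mul 105 104,
  .add 110 126,
  .mul 108 111,
  .mul 0 114,
  .scale ⟨2199023255552, 0, 0, 0⟩ 0,
  .add 86 0,
  .mul 4 0,
  .inv 0,
  .mul 7 0,
  .mul 134 0,
  .pos 49,
  .mul 0 138,
  .mul 139 140,
  .add 129 140,
  .inv 0,
  .mul 131 0,
  .scale ⟨2199023255552, 0, 0, 0⟩ 0,
  .sub 144 0,
  .sub 145 134,
  .mul 150 4,
  .mul 0 2,
  .add 124 0,
  .scale ⟨224412041216, 0, 0, 0⟩ 134,
  .inv 112,
  .mul 1 0,
  .scale ⟨4398046511104, 0, 0, 0⟩ 153,
  .mul 153 132,
  .add 1 0,
  .scale ⟨549755813888, 0, 0, 0⟩ 0,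
  .inv 0,
  .mul 157 0,
  .mul 159 1,
  .mul 0 135,
  .mul 0 8,
  .mul 3 137,
  .mul 0 10,
  .sub 163 0,
  .inv 0,
  .mul 40 2,
  .sub 166 0,
  .inv 0,
  .scale ⟨2199023255552, 0, 0, 0⟩ 162,
  .add 0 169,
  .add 164 170,
  .scale ⟨3573412790272, 0, 0, 0⟩ 149,
  .const ⟨339302416384, 0, 0, 0⟩,
  .add 1 0,
  .scale ⟨549755813888, 0, 0, 0⟩ 0,
  .mul 164 154,
  .sub 176 70,
  .mul 166 155,
  .scale ⟨2199023255552, 0, 0, 0⟩ 0,
  .sub 2 0,
  .mul 4 4,
  .add 1 0,
  .add 0 182,
  .scale ⟨549755813888, 0, 0, 0⟩ 0,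
  .scale ⟨549755813888, 0, 0, 0⟩ 159,
  .sub 170 0,
  .mul 79 9,
  .mul 0 173,
  .scale ⟨137438953472, 0, 0, 0⟩ 0,
  .add 3 0,
  .mul 6 0,
  .add 66 191,
  .mul 0 27,
  .mul 68 25,
  .add 1 0,
  .mul 32 0,
  .add 68 0,
  .mul 0 191,
  .mul 6 35,
  .mul 0 34,
  .add 72 0,
  .mul 0 195,
  .scale ⟨223338299392, 0, 0, 0⟩ 0,
  .add 195 0,
  .mul 2 0,
  .add 205 0,
  .scale ⟨893353197568, 0, 0, 0⟩ 8,
  .add 207 0,
  .mul 10 0,
  .add 209 0,
  .mul 66 63,
  .mul 0 41,
  .mul 0 2,
  .mul 22 7,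
  .add 162 206,
  .mul 2 0,
  .add 2 0,
  .add 165 217,
  .mul 5 0,
  .mul 48 1,
  .mul 0 73,
  .mul 0 75,
  .mul 5 95,
  .mul 1 48,
  .add 1 0,
  .mul 227 76,
  .inv 174,
  .mul 1 0,
  .scale ⟨549755813888, 0, 0, 0⟩ 0,
  .mul 206 0,
  .add 0 5,
  .mul 228 0,
  .mul 233 0,
  .mul 16 41,
  .mul 0 69,
  .mul 16 110,
  .mul 0 68,
  .add 2 0,
  .mul 215 5,
  .mul 78 1,
  .add 1 0,
  .mul 134 0,
  .mul 0 15,
  .sub 243 0,
  .inv 0,
  .mul 4 0,
  .mul 243 0,
  .mul 140 1,
  .mul 0 21,
  .sub 249 0,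
  .mul 201 0,
  .sub 0 4,
  .inv 0,
  .mul 6 0,
  .sub 202 6,
  .inv 0,
  .mul 2 256,
  .scale ⟨549755813888, 0, 0, 0⟩ 0,
  .sub 258 0,
  .sub 259 2,
  .inv 0,
  .mul 2 0,
  .mul 261 6,
  .mul 123 10,
  .mul 0 2,
  .add 2 0,
  .mul 259 20,
  .mul 11 0,
  .mul 268 15,
  .mul 0 7,
  .mul 0 23,
  .add 3 0,
  .scale ⟨223338299392, 0, 0, 0⟩ 0,
  .add 265 0,
  .mul 2 0,
  .add 275 0,
  .mul 10 0,
  .mul 0 32,
  .mul 0 40,
  .mul 117 256,
  .const ⟨5497558138880, 0, 0, 0⟩,
  .inv 0,
  .mul 229 0,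
  .mul 142 259,
  .mul 0 1,
  .mul 155 184,
  .mul 264 0,
  .scale ⟨549755813888, 0, 0, 0⟩ 148,
  .sub 288 0,
  .sub 289 150,
  .inv 0,
  .mul 2 0,
  .mul 0 154,
  .mul 186 176,
  .scale ⟨733097230336, 0, 0, 0⟩ 0,
  .sub 295 0,
  .mul 179 0,
  .mul 208 208,
  .mul 286 0,
  .add 2 0,
  .mul 7 160,
  .add 1 301,
  .mul 1 0,
  .sub 3 0,
  .scale ⟨366548615168, 0, 0, 0⟩ 259,
  .sub 305 0,
  .mul 280 0,
  .add 3 0,
  .mul 22 0,
  .mul 22 22,
  .add 310 0,
  .inv 0,
  .mul 3 0,
  .sub 313 59,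
  .mul 0 1,
  .sub 315 14,
  .pos 0,
  .pos 3,
  .pos 2,
  .mul 38 160,
  .mul 0 86,
  .inv 294,
  .mul 1 0,
  .mul 322 5,
  .scale ⟨549755813888, 0, 0, 0⟩ 0,
  .sub 322 0,
  .mul 8 0,
  .neg 0,
  .mul 324 329,
  .mul 0 185,
  .mul 0 312,
  .mul 326 0,
  .add 4 0,
  .mul 5 1,
  .mul 333 0,
  .add 2 0,
  .mul 321 291,
  .scale ⟨412316860416, 0, 0, 0⟩ 291,
  .sub 327 0,
  .mul 2 0,
  .mul 335 0,
  .neg 0,
  .add 6 0,
  .mul 7 1,
  .mul 343 0,
  .add 2 0,
  .mul 342 97,
  .mul 0 25,
  .mul 343 0,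
  .add 3 0,
  .mul 4 1,
  .mul 350 0,
  .add 2 0,
  .mul 348 65,
  .sub 1 0,
  .mul 349 67,
  .add 353 0,
  .inv 0,
  .mul 3 0,
  .mul 355 347,
  .mul 0 111,
  .mul 0 102,
  .mul 357 0,
  .add 4 0,
  .mul 5 1,
  .mul 364 0,
  .add 2 0,
  .mul 366 0,
  .add 365 0,
  .mul 87 203,
  .mul 364 87,
  .mul 48 0,
  .add 2 0,
  .mul 368 0,
  .add 92 51,
  .mul 370 0,
  .mul 2 7,
  .add 10 0,
  .add 0 2,
  .neg 0,
  .scale ⟨1073741824, 0, 0, 0⟩ 375,
  .sub 1 0,
  .sub 359 379,
  .add 0 324,
  .scale ⟨2199023255552, 0, 0, 0⟩ 98,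
  .sub 1 0,
  .mul 242 0,
  .mul 4 2,
  .add 0 385,
  .inv 0,
  .mul 3 0,
  .mul 229 150,
  .scale ⟨549755813888, 0, 0, 0⟩ 237,
  .add 373 0,
  .mul 2 0,
  .scale ⟨2199023255552, 0, 0, 0⟩ 0,
  .add 160 0,
  .scale ⟨2199023255552, 0, 0, 0⟩ 0,
  .mul 0 150,
  .mul 387 150,
  .sub 373 0,
  .inv 0,
  .mul 3 0,
  .sub 12 0,
  .mul 247 247,
  .const ⟨14293651161088, 0, 0, 0⟩,
  .const ⟨10995116277760, 0, 0, 0⟩,
  .inv 0,
  .mul 2 0,
  .mul 4 0,
  .mul 408 408,
  .scale ⟨27487790694400, 0, 0, 0⟩ 0,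
  .add 2 0,
  .mul 125 55,
  .sub 371 408,
  .sub 0 373,
  .mul 413 412,
  .mul 0 415,
  .mul 391 177,
  .mul 0 259,
  .add 192 0,
  .add 21 362,
  .mul 419 0,
  .mul 10 9,
  .mul 176 1,
  .mul 7 4,
  .mul 1 0,
  .sub 3 0,
  .scale ⟨549755813888, 0, 0, 0⟩ 28,
  .add 426 0,
  .mul 182 0,
  .mul 425 405,
  .mul 0 280,
  .mul 406 378,
  .inv 0,
  .mul 2 0,
  .mul 5 0,
  .sub 21 0,
  .mul 283 10,
  .sub 436 284,
  .mul 425 2,
  .mul 1 0,
  .mul 29 0,
  .add 4 0,
  .pos 277,
  .pos 274,
  .scale ⟨2199023255552, 0, 0, 0⟩ 199,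
  .sub 390 0,
  .pos 0,
  .pos 191,
  .sub 435 304,
  .pos 0,
  .scale ⟨687194767360, 0, 0, 0⟩ 444,
  .sub 0 243,
  .pos 0,
  .scale ⟨377957122048, 0, 0, 0⟩ 446,
  .sub 0 249,
  .pos 0,
  .pos 50,
  .pos 188,
  .sub 3 176,
  .pos 0,
  .pos 48,
  .pos 70,
  .pos 8,
  .pos 14]

def chk0 {α : Type} (cst : Z → α) (add sub mul : α → α → α) (scale : Z → α → α)
    (neg inv exp log : α → α) (ok : α → Bool) (isPos : Nat → α → Bool) (isLt : α → Nat → Bool) :
    List α → Bool
  | [x0, x1, x2, x3] =>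
  let v0 := cst ⟨1099511627776, 0, 0, 0⟩; ok v0 && (
  let v1 := mul x1 x0; ok v1 && (
  let v2 := mul x2 x2; ok v2 && (
  let v3 := mul x1 v2; ok v3 && (
  let v4 := mul x1 x2; ok v4 && (
  let v5 := mul v4 x0; ok v5 && (
  let v6 := mul v5 v5; ok v6 && (
  let v7 := mul v3 x1; ok v7 && (
  let v8 := cst ⟨549755813888, 0, 0, 0⟩; ok v8 && (
  let v9 := mul v3 v1; ok v9 && (
  let v10 := mul v9 x3; ok v10 && (
  let v11 := scale ⟨549755813888, 0, 0, 0⟩ v10; ok v11 && (
  let v12 := mul v1 v1; ok v12 && (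
  let v13 := mul v11 v11; ok v13 && (
  let v14 := sub v0 v13; ok v14 && (
  let v15 := inv v14; ok v15 && (
  let v16 := mul v11 v15; ok v16 && (
  let v17 := scale ⟨2199023255552, 0, 0, 0⟩ v16; ok v17 && (
  let v18 := scale ⟨2199023255552, 0, 0, 0⟩ v15; ok v18 && (
  let v19 := sub v18 v0; ok v19 && (
  let v20 := add v19 v17; ok v20 && (
  let v21 := mul x3 v15; ok v21 && (
  let v22 := mul v1 v21; ok v22 && (
  let v23 := sub v0 v22; ok v23 && (
  let v24 := add v0 v22; ok v24 && (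
  let v25 := mul v3 v12; ok v25 && (
  let v26 := mul v21 v21; ok v26 && (
  let v27 := scale ⟨10774999203840, 0, 0, 0⟩ v11; ok v27 && (
  let v28 := scale ⟨45768245248, 0, 0, 0⟩ v27; ok v28 && (
  let v29 := cst ⟨183207198720, 0, 0, 0⟩; ok v29 && (
  let v30 := add v28 v29; ok v30 && (
  let v31 := mul v27 v30; ok v31 && (
  let v32 := add v8 v31; ok v32 && (
  let v33 := mul v27 v32; ok v33 && (
  let v34 := add v0 v33; ok v34 && (
  let v35 := mul v27 v34; ok v35 && (
  let v36 := scale ⟨549755813888, 0, 0, 0⟩ v35; ok v36 && (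
  let v37 := add v0 v36; ok v37 && (
  let v38 := mul v34 v37; ok v38 && (
  let v39 := mul v17 v22; ok v39 && (
  let v40 := scale ⟨2199023255552, 0, 0, 0⟩ v19; ok v40 && (
  let v41 := add v39 v40; ok v41 && (
  let v42 := add v41 v3; ok v42 && (
  let v43 := mul v25 v42; ok v43 && (
  let v44 := add v43 v0; ok v44 && (
  let v45 := mul v17 v17; ok v45 && (
  let v46 := scale ⟨2199023255552, 0, 0, 0⟩ v45; ok v46 && (
  let v47 := add v46 v0; ok v47 && (
  let v48 := mul v19 v42; ok v48 && (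
  let v49 := sub v48 v0; ok v49 && (
  let v50 := log v44; ok v50 && (
  let v51 := scale ⟨549755813888, 0, 0, 0⟩ v50; ok v51 && (
  let v52 := exp v51; ok v52 && (
  let v53 := cst ⟨3298534883328, 0, 0, 0⟩; ok v53 && (
  let v54 := inv v53; ok v54 && (
  let v55 := mul v0 v54; ok v55 && (
  let v56 := cst ⟨2199023255552, 0, 0, 0⟩; ok v56 && (
  let v57 := add v43 v56; ok v57 && (
  let v58 := inv v57; ok v58 && (
  let v59 := mul v43 v58; ok v59 && (
  let v60 := mul v59 v59; ok v60 && (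
  let v61 := sub v0 v59; ok v61 && (
  let v62 := mul v60 v55; ok v62 && (
  let v63 := add v0 v62; ok v63 && (
  let v64 := mul v61 v63; ok v64 && (
  let v65 := mul v60 v60; ok v65 && (
  let v66 := scale ⟨219915747328, 0, 0, 0⟩ v65; ok v66 && (
  let v67 := mul v42 v64; ok v67 && (
  let v68 := scale ⟨549755813888, 0, 0, 0⟩ v67; ok v68 && (
  let v69 := mul v42 v66; ok v69 && (
  let v70 := scale ⟨549755813888, 0, 0, 0⟩ v69; ok v70 && (
  let v71 := add v68 v70; ok v71 && (
  let v72 := mul v19 v49; ok v72 && (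
  let v73 := scale ⟨4398046511104, 0, 0, 0⟩ v72; ok v73 && (
  let v74 := mul v19 v25; ok v74 && (
  let v75 := mul v74 v49; ok v75 && (
  let v76 := scale ⟨4398046511104, 0, 0, 0⟩ v75; ok v76 && (
  let v77 := add v76 v56; ok v77 && (
  let v78 := inv v77; ok v78 && (
  let v79 := mul v76 v78; ok v79 && (
  let v80 := mul v79 v79; ok v80 && (
  let v81 := sub v0 v79; ok v81 && (
  let v82 := mul v80 v55; ok v82 && (
  let v83 := add v0 v82; ok v83 && (
  let v84 := mul v81 v83; ok v84 && (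
  let v85 := mul v80 v80; ok v85 && (
  let v86 := scale ⟨219915747328, 0, 0, 0⟩ v85; ok v86 && (
  let v87 := mul v73 v84; ok v87 && (
  let v88 := scale ⟨549755813888, 0, 0, 0⟩ v87; ok v88 && (
  let v89 := sub v88 v71; ok v89 && (
  let v90 := mul v73 v86; ok v90 && (
  let v91 := scale ⟨549755813888, 0, 0, 0⟩ v90; ok v91 && (
  let v92 := add v91 v70; ok v92 && (
  let v93 := add v89 v92; ok v93 && (
  let v94 := mul x1 v68; ok v94 && (
  let v95 := neg v94; ok v95 && (
  let v96 := exp v95; ok v96 && (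
  let v97 := mul x1 v70; ok v97 && (
  let v98 := mul v96 v97; ok v98 && (
  let v99 := mul v22 v17; ok v99 && (
  let v100 := add v19 v99; ok v100 && (
  let v101 := inv v100; ok v101 && (
  let v102 := mul v24 v101; ok v102 && (
  let v103 := mul v23 v3; ok v103 && (
  let v104 := mul v103 v102; ok v104 && (
  let v105 := sub v0 v12; ok v105 && (
  let v106 := mul v26 v105; ok v106 && (
  let v107 := mul v9 v9; ok v107 && (
  let v108 := sub v0 v26; ok v108 && (
  let v109 := mul v105 v108; ok v109 && (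
  let v110 := mul v25 v49; ok v110 && (
  let v111 := inv v44; ok v111 && (
  let v112 := mul v110 v111; ok v112 && (
  let v113 := add v19 v112; ok v113 && (
  let v114 := mul v44 v113; ok v114 && (
  let v115 := mul v114 v114; ok v115 && (
  let v116 := inv v115; ok v116 && (
  let v117 := mul v109 v116; ok v117 && (
  let v118 := mul v104 v0; ok v118 && (
  let v119 := scale ⟨549755813888, 0, 0, 0⟩ v118; ok v119 && (
  let v120 := sub v0 v119; ok v120 && (
  let v121 := sub v0 v118; ok v121 && (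
  let v122 := inv v121; ok v122 && (
  let v123 := mul v120 v122; ok v123 && (
  let v124 := add v118 v0; ok v124 && (
  let v125 := mul v96 v124; ok v125 && (
  let v126 := mul v102 v123; ok v126 && (
  let v127 := mul v126 v0; ok v127 && (
  let v128 := mul v118 v123; ok v128 && (
  isPos 4 v121 && (
  let v129 := mul v23 v24; ok v129 && (
  let v130 := add v19 v3; ok v130 && (
  let v131 := mul v22 v19; ok v131 && (
  let v132 := mul v131 v17; ok v132 && (
  let v133 := scale ⟨2199023255552, 0, 0, 0⟩ v132; ok v133 && (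
  let v134 := add v47 v133; ok v134 && (
  let v135 := mul v130 v134; ok v135 && (
  let v136 := inv v135; ok v136 && (
  let v137 := mul v129 v136; ok v137 && (
  let v138 := mul v3 v137; ok v138 && (
  isPos 4 v89 && (
  let v139 := mul v138 v0; ok v139 && (
  let v140 := mul v0 x0; ok v140 && (
  let v141 := add v11 v0; ok v141 && (
  let v142 := inv v141; ok v142 && (
  let v143 := mul v11 v142; ok v143 && (
  let v144 := scale ⟨2199023255552, 0, 0, 0⟩ v143; ok v144 && (
  let v145 := sub v0 v144; ok v145 && (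
  let v146 := sub v0 v11; ok v146 && (
  let v147 := mul x3 v142; ok v147 && (
  let v148 := mul v147 v145; ok v148 && (
  let v149 := add v24 v148; ok v149 && (
  let v150 := scale ⟨224412041216, 0, 0, 0⟩ v15; ok v150 && (
  let v151 := inv v38; ok v151 && (
  let v152 := mul v150 v151; ok v152 && (
  let v153 := scale ⟨4398046511104, 0, 0, 0⟩ x0; ok v153 && (
  let v154 := mul v0 v21; ok v154 && (
  let v155 := add v153 v154; ok v155 && (
  let v156 := scale ⟨549755813888, 0, 0, 0⟩ v155; ok v156 && (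
  let v157 := inv v156; ok v157 && (
  let v158 := mul v0 v157; ok v158 && (
  let v159 := mul x0 v157; ok v159 && (
  let v160 := mul v159 v24; ok v160 && (
  let v161 := mul v160 v152; ok v161 && (
  let v162 := mul v158 v24; ok v162 && (
  let v163 := mul v162 v152; ok v163 && (
  let v164 := sub v0 v163; ok v164 && (
  let v165 := inv v164; ok v165 && (
  let v166 := mul v125 v163; ok v166 && (
  let v167 := sub v0 v166; ok v167 && (
  let v168 := inv v167; ok v168 && (
  let v169 := scale ⟨2199023255552, 0, 0, 0⟩ v6; ok v169 && (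
  let v170 := add v169 v0; ok v170 && (
  let v171 := add v6 v0; ok v171 && (
  let v172 := scale ⟨3573412790272, 0, 0, 0⟩ v22; ok v172 && (
  let v173 := cst ⟨339302416384, 0, 0, 0⟩; ok v173 && (
  let v174 := add v172 v173; ok v174 && (
  let v175 := scale ⟨549755813888, 0, 0, 0⟩ v174; ok v175 && (
  let v176 := mul v11 v21; ok v176 && (
  let v177 := sub v0 v106; ok v177 && (
  let v178 := mul v11 v22; ok v178 && (
  let v179 := scale ⟨2199023255552, 0, 0, 0⟩ v178; ok v179 && (
  let v180 := sub v177 v179; ok v180 && (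
  let v181 := mul v176 v176; ok v181 && (
  let v182 := add v180 v181; ok v182 && (
  let v183 := add v182 v0; ok v183 && (
  let v184 := scale ⟨549755813888, 0, 0, 0⟩ v183; ok v184 && (
  let v185 := scale ⟨549755813888, 0, 0, 0⟩ v25; ok v185 && (
  let v186 := sub v15 v185; ok v186 && (
  let v187 := mul v107 v177; ok v187 && (
  let v188 := mul v187 v14; ok v188 && (
  let v189 := scale ⟨137438953472, 0, 0, 0⟩ v188; ok v189 && (
  let v190 := add v186 v189; ok v190 && (
  let v191 := mul v184 v190; ok v191 && (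
  let v192 := add v125 v0; ok v192 && (
  let v193 := mul v192 v165; ok v193 && (
  let v194 := mul v125 v168; ok v194 && (
  let v195 := add v193 v194; ok v195 && (
  let v196 := mul v163 v195; ok v196 && (
  let v197 := add v128 v196; ok v197 && (
  let v198 := mul v197 v6; ok v198 && (
  let v199 := mul v192 v163; ok v199 && (
  let v200 := mul v199 v165; ok v200 && (
  let v201 := add v128 v200; ok v201 && (
  let v202 := mul v201 v6; ok v202 && (
  let v203 := scale ⟨223338299392, 0, 0, 0⟩ v202; ok v203 && (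
  let v204 := add v8 v203; ok v204 && (
  let v205 := mul v202 v204; ok v205 && (
  let v206 := add v0 v205; ok v206 && (
  let v207 := scale ⟨893353197568, 0, 0, 0⟩ v198; ok v207 && (
  let v208 := add v0 v207; ok v208 && (
  let v209 := mul v198 v208; ok v209 && (
  let v210 := add v0 v209; ok v210 && (
  let v211 := mul v144 v147; ok v211 && (
  let v212 := mul v211 v170; ok v212 && (
  let v213 := mul v212 v210; ok v213 && (
  let v214 := mul v191 v206; ok v214 && (
  let v215 := add v52 v8; ok v215 && (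
  let v216 := mul v213 v215; ok v216 && (
  let v217 := add v214 v216; ok v217 && (
  let v218 := add v52 v0; ok v218 && (
  let v219 := mul v213 v218; ok v219 && (
  let v220 := mul v171 v218; ok v220 && (
  let v221 := mul v220 v147; ok v221 && (
  let v222 := mul v221 v146; ok v222 && (
  let v223 := mul v217 v127; ok v223 && (
  let v224 := mul v222 v175; ok v224 && (
  let v225 := add v223 v224; ok v225 && (
  let v226 := mul x1 v149; ok v226 && (
  let v227 := inv v52; ok v227 && (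
  let v228 := mul v226 v227; ok v228 && (
  let v229 := scale ⟨549755813888, 0, 0, 0⟩ v228; ok v229 && (
  let v230 := mul v23 v229; ok v230 && (
  let v231 := add v230 v225; ok v231 && (
  let v232 := mul v3 v231; ok v232 && (
  let v233 := mul x0 v232; ok v233 && (
  let v234 := mul v217 v192; ok v234 && (
  let v235 := mul v234 v165; ok v235 && (
  let v236 := mul v219 v125; ok v236 && (
  let v237 := mul v236 v168; ok v237 && (
  let v238 := add v235 v237; ok v238 && (
  let v239 := mul v23 v233; ok v239 && (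
  let v240 := mul v161 v238; ok v240 && (
  let v241 := add v239 v240; ok v241 && (
  let v242 := mul v107 v241; ok v242 && (
  let v243 := mul v242 v227; ok v243 && (
  let v244 := sub v0 v243; ok v244 && (
  let v245 := inv v244; ok v245 && (
  let v246 := mul v241 v245; ok v246 && (
  let v247 := mul v3 v246; ok v247 && (
  let v248 := mul v107 v246; ok v248 && (
  let v249 := mul v248 v227; ok v249 && (
  let v250 := sub v0 v249; ok v250 && (
  let v251 := mul v49 v250; ok v251 && (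
  let v252 := sub v251 v247; ok v252 && (
  let v253 := inv v252; ok v253 && (
  let v254 := mul v247 v253; ok v254 && (
  let v255 := sub v52 v248; ok v255 && (
  let v256 := inv v255; ok v256 && (
  let v257 := mul v254 v0; ok v257 && (
  let v258 := scale ⟨549755813888, 0, 0, 0⟩ v257; ok v258 && (
  let v259 := sub v0 v258; ok v259 && (
  let v260 := sub v0 v257; ok v260 && (
  let v261 := inv v260; ok v261 && (
  let v262 := mul v259 v261; ok v262 && (
  let v263 := mul v1 v256; ok v263 && (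
  let v264 := mul v140 v253; ok v264 && (
  let v265 := mul v264 v262; ok v265 && (
  let v266 := add v263 v265; ok v266 && (
  let v267 := mul v7 v246; ok v267 && (
  let v268 := mul v256 v267; ok v268 && (
  let v269 := mul v0 v253; ok v269 && (
  let v270 := mul v269 v262; ok v270 && (
  let v271 := mul v270 v247; ok v271 && (
  let v272 := add v268 v271; ok v272 && (
  let v273 := scale ⟨223338299392, 0, 0, 0⟩ v272; ok v273 && (
  let v274 := add v8 v273; ok v274 && (
  let v275 := mul v272 v274; ok v275 && (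
  let v276 := add v0 v275; ok v276 && (
  let v277 := mul v266 v276; ok v277 && (
  let v278 := mul v277 v245; ok v278 && (
  let v279 := mul v278 v238; ok v279 && (
  let v280 := mul v162 v23; ok v280 && (
  let v281 := cst ⟨5497558138880, 0, 0, 0⟩; ok v281 && (
  let v282 := inv v281; ok v282 && (
  let v283 := mul v53 v282; ok v283 && (
  let v284 := mul v141 v24; ok v284 && (
  let v285 := mul v284 v283; ok v285 && (
  let v286 := mul v130 v101; ok v286 && (
  let v287 := mul v22 v286; ok v287 && (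
  let v288 := scale ⟨549755813888, 0, 0, 0⟩ v139; ok v288 && (
  let v289 := sub v0 v288; ok v289 && (
  let v290 := sub v0 v139; ok v290 && (
  let v291 := inv v290; ok v291 && (
  let v292 := mul v289 v291; ok v292 && (
  let v293 := mul v292 v138; ok v293 && (
  let v294 := mul v107 v117; ok v294 && (
  let v295 := scale ⟨733097230336, 0, 0, 0⟩ v294; ok v295 && (
  let v296 := sub v0 v295; ok v296 && (
  let v297 := mul v117 v296; ok v297 && (
  let v298 := mul v89 v89; ok v298 && (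
  let v299 := mul v12 v298; ok v299 && (
  let v300 := add v297 v299; ok v300 && (
  let v301 := mul v293 v140; ok v301 && (
  let v302 := add v300 v0; ok v302 && (
  let v303 := mul v301 v302; ok v303 && (
  let v304 := sub v300 v303; ok v304 && (
  let v305 := scale ⟨366548615168, 0, 0, 0⟩ v45; ok v305 && (
  let v306 := sub v0 v305; ok v306 && (
  let v307 := mul v26 v306; ok v307 && (
  let v308 := add v304 v307; ok v308 && (
  let v309 := mul v286 v308; ok v309 && (
  let v310 := mul v287 v287; ok v310 && (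
  let v311 := add v0 v310; ok v311 && (
  let v312 := inv v311; ok v312 && (
  let v313 := mul v309 v312; ok v313 && (
  let v314 := sub v0 v254; ok v314 && (
  let v315 := mul v314 v313; ok v315 && (
  let v316 := sub v0 v301; ok v316 && (
  isPos 4 v316 && (
  isPos 4 v313 && (
  isPos 4 v314 && (
  let v317 := mul v278 v156; ok v317 && (
  let v318 := mul v317 v231; ok v318 && (
  let v319 := inv v24; ok v319 && (
  let v320 := mul v318 v319; ok v320 && (
  let v321 := mul x1 v315; ok v321 && (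
  let v322 := scale ⟨549755813888, 0, 0, 0⟩ v321; ok v322 && (
  let v323 := sub v0 v322; ok v323 && (
  let v324 := mul v315 v323; ok v324 && (
  let v325 := neg v324; ok v325 && (
  let v326 := mul v1 x3; ok v326 && (
  let v327 := mul v326 v141; ok v327 && (
  let v328 := mul v327 v15; ok v328 && (
  let v329 := mul v2 v328; ok v329 && (
  let v330 := add v325 v329; ok v330 && (
  let v331 := mul v325 v329; ok v331 && (
  let v332 := mul x1 v331; ok v332 && (
  let v333 := add v330 v332; ok v333 && (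
  let v334 := mul v12 v42; ok v334 && (
  let v335 := scale ⟨412316860416, 0, 0, 0⟩ v43; ok v335 && (
  let v336 := sub v8 v335; ok v336 && (
  let v337 := mul v334 v336; ok v337 && (
  let v338 := mul v2 v337; ok v338 && (
  let v339 := neg v338; ok v339 && (
  let v340 := add v333 v339; ok v340 && (
  let v341 := mul v333 v339; ok v341 && (
  let v342 := mul x1 v341; ok v342 && (
  let v343 := add v340 v342; ok v343 && (
  let v344 := mul v1 v246; ok v344 && (
  let v345 := mul v344 v319; ok v345 && (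
  let v346 := mul v2 v345; ok v346 && (
  let v347 := add v343 v346; ok v347 && (
  let v348 := mul v343 v346; ok v348 && (
  let v349 := mul x1 v348; ok v349 && (
  let v350 := add v347 v349; ok v350 && (
  let v351 := mul v2 v285; ok v351 && (
  let v352 := sub v350 v351; ok v352 && (
  let v353 := mul v3 v285; ok v353 && (
  let v354 := add v0 v353; ok v354 && (
  let v355 := inv v354; ok v355 && (
  let v356 := mul v352 v355; ok v356 && (
  let v357 := mul v1 v9; ok v357 && (
  let v358 := mul v357 v246; ok v358 && (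
  let v359 := mul v358 v256; ok v359 && (
  let v360 := mul v2 v359; ok v360 && (
  let v361 := add v356 v360; ok v361 && (
  let v362 := mul v356 v360; ok v362 && (
  let v363 := mul x1 v362; ok v363 && (
  let v364 := add v361 v363; ok v364 && (
  let v365 := mul x1 v364; ok v365 && (
  let v366 := add v0 v365; ok v366 && (
  let v367 := mul v279 v163; ok v367 && (
  let v368 := mul v3 v280; ok v368 && (
  let v369 := mul v320 v368; ok v369 && (
  let v370 := add v367 v369; ok v370 && (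
  let v371 := mul v2 v370; ok v371 && (
  let v372 := add v279 v320; ok v372 && (
  let v373 := mul v2 v372; ok v373 && (
  let v374 := mul v371 v366; ok v374 && (
  let v375 := add v364 v374; ok v375 && (
  let v376 := add v375 v373; ok v376 && (
  let v377 := neg v376; ok v377 && (
  let v378 := scale ⟨1073741824, 0, 0, 0⟩ v2; ok v378 && (
  let v379 := sub v377 v378; ok v379 && (
  let v380 := sub v20 v0; ok v380 && (
  let v381 := add v380 v56; ok v381 && (
  let v382 := scale ⟨2199023255552, 0, 0, 0⟩ v283; ok v382 && (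
  let v383 := sub v381 v382; ok v383 && (
  let v384 := mul v141 v383; ok v384 && (
  let v385 := mul v380 v382; ok v385 && (
  let v386 := add v385 v0; ok v386 && (
  let v387 := inv v386; ok v387 && (
  let v388 := mul v384 v387; ok v388 && (
  let v389 := mul v159 v238; ok v389 && (
  let v390 := scale ⟨549755813888, 0, 0, 0⟩ v152; ok v390 && (
  let v391 := add v17 v390; ok v391 && (
  let v392 := mul v389 v391; ok v392 && (
  let v393 := scale ⟨2199023255552, 0, 0, 0⟩ v392; ok v393 && (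
  let v394 := add v233 v393; ok v394 && (
  let v395 := scale ⟨2199023255552, 0, 0, 0⟩ v394; ok v395 && (
  let v396 := mul v395 v245; ok v396 && (
  let v397 := mul v9 v246; ok v397 && (
  let v398 := sub v24 v397; ok v398 && (
  let v399 := inv v398; ok v399 && (
  let v400 := mul v396 v399; ok v400 && (
  let v401 := sub v388 v400; ok v401 && (
  let v402 := mul v154 v154; ok v402 && (
  let v403 := cst ⟨14293651161088, 0, 0, 0⟩; ok v403 && (
  let v404 := cst ⟨10995116277760, 0, 0, 0⟩; ok v404 && (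
  let v405 := inv v404; ok v405 && (
  let v406 := mul v403 v405; ok v406 && (
  let v407 := mul v402 v406; ok v407 && (
  let v408 := mul x0 x0; ok v408 && (
  let v409 := scale ⟨27487790694400, 0, 0, 0⟩ v408; ok v409 && (
  let v410 := add v407 v409; ok v410 && (
  let v411 := mul v285 v355; ok v411 && (
  let v412 := sub v40 v3; ok v412 && (
  let v413 := sub v412 v39; ok v413 && (
  let v414 := mul v0 v1; ok v414 && (
  let v415 := mul v414 x0; ok v415 && (
  let v416 := mul v24 v238; ok v416 && (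
  let v417 := mul v416 v157; ok v417 && (
  let v418 := add v225 v417; ok v418 && (
  let v419 := add v397 v56; ok v419 && (
  let v420 := mul v0 v419; ok v420 && (
  let v421 := mul v410 v411; ok v421 && (
  let v422 := mul v245 v420; ok v422 && (
  let v423 := mul v415 v418; ok v423 && (
  let v424 := mul v422 v423; ok v424 && (
  let v425 := sub v421 v424; ok v425 && (
  let v426 := scale ⟨549755813888, 0, 0, 0⟩ v397; ok v426 && (
  let v427 := add v0 v426; ok v427 && (
  let v428 := mul v245 v427; ok v428 && (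
  let v429 := mul v3 v23; ok v429 && (
  let v430 := mul v429 v149; ok v430 && (
  let v431 := mul v24 v52; ok v431 && (
  let v432 := inv v431; ok v432 && (
  let v433 := mul v430 v432; ok v433 && (
  let v434 := mul v428 v433; ok v434 && (
  let v435 := sub v413 v434; ok v435 && (
  let v436 := mul v152 v425; ok v436 && (
  let v437 := sub v0 v152; ok v437 && (
  let v438 := mul v12 v435; ok v438 && (
  let v439 := mul v437 v438; ok v439 && (
  let v440 := mul v410 v439; ok v440 && (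
  let v441 := add v436 v440; ok v441 && (
  isPos 4 v164 && (
  isPos 4 v167 && (
  let v442 := scale ⟨2199023255552, 0, 0, 0⟩ v242; ok v442 && (
  let v443 := sub v52 v442; ok v443 && (
  isPos 4 v443 && (
  isPos 4 v252 && (
  let v444 := sub v8 v139; ok v444 && (
  isPos 4 v444 && (
  let v445 := scale ⟨687194767360, 0, 0, 0⟩ v0; ok v445 && (
  let v446 := sub v445 v202; ok v446 && (
  isPos 4 v446 && (
  let v447 := scale ⟨377957122048, 0, 0, 0⟩ v0; ok v447 && (
  let v448 := sub v447 v198; ok v448 && (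
  isPos 4 v448 && (
  isPos 4 v398 && (
  isPos 4 v260 && (
  let v449 := sub v445 v272; ok v449 && (
  isPos 4 v449 && (
  isPos 4 v401 && (
  isPos 4 v379 && (
  isPos 4 v441 && (
  isPos 4 v435 && (
  true)))))))))))))))))))))))))))))))))))))))))))))))))))))))))))))))))))))))))))))))))))))))))))))))))))))))))))))))))))))))))))))))))))))))))))))))))))))))))))))))))))))))))))))))))))))))))))))))))))))))))))))))))))))))))))))))))))))))))))))))))))))))))))))))))))))))))))))))))))))))))))))))))))))))))))))))))))))))))))))))))))))))))))))))))))))))))))))))))))))))))))))))))))))))))))))))))))))))))))))))))))))))))))))))))))))))))))))))))))))))))))))))))))))))))))))))))))))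
  | _ => false

set_option maxRecDepth 1000000 in
theorem chk0_eq (O : Ops) (m : List O.α)
    (h : chk0 O.cst O.add O.sub O.mul O.scale O.neg O.inv O.exp O.log O.ok O.isPos O.isLt m = true) :
    runG O 4 prog0 m = true := by
  match m, h with
  | [x0, x1, x2, x3], h => exact h

def chkB0 : List opsE.α → Bool :=
  chk0 opsE.cst opsE.add opsE.sub opsE.mul opsE.scale opsE.neg opsE.inv opsE.exp opsE.log opsE.ok opsE.isPos opsE.isLt

theorem chkB0_eq (m : List opsE.α) (h : chkB0 m = true) : runG opsE 4 prog0 m = true :=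
  chk0_eq opsE m h

def prog1 : List Op := [
  .const ⟨1099511627776, 0, 0, 0⟩,
  .mul 2 1,
  .mul 4 4,
  .mul 4 0,
  .mul 5 6,
  .mul 0 5,
  .mul 0 0,
  .mul 3 8,
  .const ⟨549755813888, 0, 0, 0⟩,
  .mul 5 7,
  .mul 0 13,
  .scale ⟨549755813888, 0, 0, 0⟩ 0,
  .mul 10 10,
  .mul 1 1,
  .sub 13 0,
  .inv 0,
  .mul 4 0,
  .scale ⟨2199023255552, 0, 0, 0⟩ 0,
  .scale ⟨2199023255552, 0, 0, 0⟩ 2,
  .sub 0 18,
  .add 0 2,
  .mul 24 5,
  .mul 20 0,
  .sub 22 0,
  .add 23 1,
  .mul 21 12,
  .mul 4 4,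
  .scale ⟨10774999203840, 0, 0, 0⟩ 15,
  .scale ⟨45768245248, 0, 0, 0⟩ 0,
  .const ⟨183207198720, 0, 0, 0⟩,
  .add 1 0,
  .mul 3 0,
  .add 23 0,
  .mul 5 0,
  .add 33 0,
  .mul 7 0,
  .scale ⟨549755813888, 0, 0, 0⟩ 0,
  .add 36 0,
  .mul 3 0,
  .mul 21 16,
  .scale ⟨2199023255552, 0, 0, 0⟩ 20,
  .add 1 0,
  .add 0 38,
  .mul 17 0,
  .add 0 43,
  .mul 27 27,
  .scale ⟨2199023255552, 0, 0, 0⟩ 0,
  .add 0 46,
  .mul 28 5,
  .sub 0 48,
  .log 5,
  .scale ⟨549755813888, 0, 0, 0⟩ 0,
  .exp 0,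
  .const ⟨3298534883328, 0, 0, 0⟩,
  .inv 0,
  .mul 54 0,
  .const ⟨2199023255552, 0, 0, 0⟩,
  .add 13 0,
  .inv 0,
  .mul 15 0,
  .mul 0 0,
  .sub 60 1,
  .mul 1 6,
  .add 62 0,
  .mul 2 0,
  .mul 4 4,
  .scale ⟨219915747328, 0, 0, 0⟩ 0,
  .mul 24 2,
  .scale ⟨549755813888, 0, 0, 0⟩ 0,
  .mul 26 2,
  .scale ⟨549755813888, 0, 0, 0⟩ 0,
  .add 2 0,
  .mul 52 22,
  .scale ⟨4398046511104, 0, 0, 0⟩ 0,
  .mul 54 48,
  .mul 0 25,
  .scale ⟨4398046511104, 0, 0, 0⟩ 0,
  .add 0 20,
  .inv 0,
  .mul 2 0,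
  .mul 0 0,
  .sub 80 1,
  .mul 1 26,
  .add 82 0,
  .mul 2 0,
  .mul 4 4,
  .scale ⟨219915747328, 0, 0, 0⟩ 0,
  .mul 13 2,
  .scale ⟨549755813888, 0, 0, 0⟩ 0,
  .sub 0 17,
  .mul 16 3,
  .scale ⟨549755813888, 0, 0, 0⟩ 0,
  .add 0 21,
  .add 3 0,
  .mul 95 25,
  .neg 0,
  .exp 0,
  .mul 98 26,
  .mul 1 0,
  .mul 100 9,
  .neg 0,
  .exp 0,
  .mul 103 9,
  .mul 1 0,
  .mul 81 86,
  .add 85 0,
  .inv 0,
  .mul 82 0,
  .mul 84 104,
  .mul 0 1,
  .sub 109 97,
  .mul 84 0,
  .mul 102 102,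
  .sub 112 86,
  .mul 3 0,
  .mul 89 65,
  .inv 71,
  .mul 1 0,
  .add 98 0,
  .mul 74 0,
  .mul 0 0,
  .inv 0,
  .mul 7 0,
  .add 103 97,
  .mul 124 0,
  .inv 0,
  .mul 125 0,
  .mul 0 0,
  .mul 0 13,
  .const ⟨10849087389696, 0, 0, 0⟩,
  .sub 0 1,
  .pos 0,
  .const ⟨13, 0, 0, 0⟩,
  .const ⟨2295, 0, 0, 0⟩,
  .mul 4 1,
  .sub 1 0,
  .const ⟨302996, 0, 0, 0⟩,
  .mul 7 1,
  .sub 1 0,
  .const ⟨27269633, 0, 0, 0⟩,
  .mul 10 1,
  .sub 1 0,
  .const ⟨1527099484, 0, 0, 0⟩,
  .mul 13 1,
  .sub 1 0,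
  .const ⟨45812984490, 0, 0, 0⟩,
  .mul 16 1,
  .sub 1 0,
  .mul 18 0,
  .sub 139 0,
  .mul 20 0,
  .sub 149 0,
  .add 54 150,
  .mul 55 55,
  .add 0 152,
  .mul 57 3,
  .scale ⟨2199023255552, 0, 0, 0⟩ 0,
  .add 2 0,
  .scale ⟨4398046511104, 0, 0, 0⟩ 58,
  .sub 1 0,
  .inv 7,
  .mul 1 0,
  .add 0 9,
  .mul 65 52,
  .scale ⟨549755813888, 0, 0, 0⟩ 0,
  .mul 0 2,
  .sub 6 0,
  .pos 7,
  .pos 0,
  .sub 165 69,
  .mul 0 15,
  .scale ⟨2199023255552, 0, 0, 0⟩ 69,
  .add 1 0,
  .inv 4,
  .mul 1 0,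
  .scale ⟨549755813888, 0, 0, 0⟩ 0,
  .add 0 164,
  .inv 0,
  .mul 2 0,
  .mul 66 0,
  .scale ⟨549755813888, 0, 0, 0⟩ 0,
  .sub 177 0,
  .sub 178 2,
  .inv 0,
  .mul 2 0,
  .add 5 181,
  .mul 86 0,
  .mul 76 2,
  .mul 0 9,
  .mul 9 4,
  .pos 7,
  .mul 163 162,
  .add 168 184,
  .mul 166 169,
  .mul 0 172,
  .scale ⟨2199023255552, 0, 0, 0⟩ 0,
  .add 144 0,
  .mul 4 0,
  .inv 0,
  .mul 7 0,
  .mul 192 0,
  .pos 107,
  .mul 68 80,
  .sub 68 0,
  .pos 0,
  .mul 1 67,
  .sub 67 0,
  .mul 3 0,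
  .sub 66 0,
  .mul 5 0,
  .sub 65 0,
  .mul 7 0,
  .sub 64 0,
  .mul 9 0,
  .sub 63 0,
  .mul 11 0,
  .sub 201 0,
  .mul 13 0,
  .sub 211 0,
  .add 111 212,
  .mul 112 112,
  .add 0 214,
  .mul 114 3,
  .scale ⟨2199023255552, 0, 0, 0⟩ 0,
  .add 2 0,
  .scale ⟨4398046511104, 0, 0, 0⟩ 115,
  .sub 1 0,
  .inv 7,
  .mul 1 0,
  .add 0 9,
  .mul 122 27,
  .scale ⟨549755813888, 0, 0, 0⟩ 0,
  .mul 0 2,
  .sub 6 0,
  .pos 7,
  .pos 0,
  .sub 227 126,
  .mul 0 15,
  .scale ⟨2199023255552, 0, 0, 0⟩ 126,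
  .add 1 0,
  .inv 4,
  .mul 1 0,
  .scale ⟨549755813888, 0, 0, 0⟩ 0,
  .add 0 226,
  .inv 0,
  .mul 2 0,
  .mul 41 0,
  .mul 1 239,
  .add 228 239,
  .inv 0,
  .mul 230 0,
  .scale ⟨2199023255552, 0, 0, 0⟩ 0,
  .sub 243 0,
  .sub 244 233,
  .mul 249 4,
  .mul 0 2,
  .add 223 0,
  .scale ⟨224412041216, 0, 0, 0⟩ 233,
  .inv 211,
  .mul 1 0,
  .scale ⟨4398046511104, 0, 0, 0⟩ 252,
  .mul 252 231,
  .add 1 0,
  .scale ⟨549755813888, 0, 0, 0⟩ 0,
  .inv 0,
  .mul 256 0,
  .mul 258 1,
  .mul 0 234,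
  .mul 0 8,
  .mul 3 236,
  .mul 0 10,
  .sub 262 0,
  .inv 0,
  .mul 81 2,
  .sub 265 0,
  .inv 0,
  .mul 244 92,
  .inv 246,
  .mul 1 0,
  .scale ⟨549755813888, 0, 0, 0⟩ 0,
  .sub 271 0,
  .sub 272 2,
  .inv 0,
  .mul 2 0,
  .mul 0 100,
  .mul 6 1,
  .mul 0 271,
  .pos 5,
  .scale ⟨1374389534720, 0, 0, 0⟩ 0,
  .sub 271 0,
  .pos 0,
  .scale ⟨3092376453120, 0, 0, 0⟩ 2,
  .add 0 225,
  .mul 4 0,
  .add 283 0,
  .scale ⟨1546188226560, 0, 0, 0⟩ 6,
  .add 0 285,
  .mul 8 0,
  .add 287 0,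
  .mul 277 267,
  .sub 289 178,
  .mul 279 268,
  .scale ⟨2199023255552, 0, 0, 0⟩ 0,
  .sub 2 0,
  .mul 4 4,
  .add 1 0,
  .add 0 295,
  .scale ⟨549755813888, 0, 0, 0⟩ 0,
  .scale ⟨549755813888, 0, 0, 0⟩ 272,
  .sub 283 0,
  .mul 187 9,
  .mul 0 286,
  .scale ⟨137438953472, 0, 0, 0⟩ 0,
  .add 3 0,
  .mul 6 0,
  .const ⟨1, 0, 0, 0⟩,
  .const ⟨12, 0, 0, 0⟩,
  .mul 178 1,
  .sub 1 0,
  .const ⟨2296, 0, 0, 0⟩,
  .mul 181 1,
  .sub 1 0,
  .const ⟨302995, 0, 0, 0⟩,
  .mul 184 1,
  .sub 1 0,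
  .const ⟨27269634, 0, 0, 0⟩,
  .mul 187 1,
  .sub 1 0,
  .const ⟨1527099483, 0, 0, 0⟩,
  .mul 190 1,
  .sub 1 0,
  .const ⟨45812984491, 0, 0, 0⟩,
  .mul 193 1,
  .sub 1 0,
  .mul 195 0,
  .sub 316 0,
  .mul 197 0,
  .sub 326 0,
  .mul 199 321,
  .mul 0 0,
  .scale ⟨369367187456, 0, 0, 0⟩ 0,
  .add 3 0,
  .mul 235 0,
  .scale ⟨2199023255552, 0, 0, 0⟩ 0,
  .add 180 0,
  .add 0 166,
  .const ⟨8589934592, 0, 0, 0⟩,
  .add 1 0,
  .log 0,
  .scale ⟨549755813888, 0, 0, 0⟩ 0,
  .exp 0,
  .mul 244 164,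
  .add 1 0,
  .mul 0 78,
  .mul 160 76,
  .add 1 0,
  .mul 83 0,
  .add 160 0,
  .mul 0 341,
  .mul 6 86,
  .mul 0 85,
  .add 164 0,
  .mul 0 345,
  .scale ⟨223338299392, 0, 0, 0⟩ 0,
  .add 345 0,
  .mul 2 0,
  .add 355 0,
  .scale ⟨893353197568, 0, 0, 0⟩ 8,
  .add 357 0,
  .mul 10 0,
  .add 359 0,
  .mul 117 114,
  .mul 0 77,
  .mul 0 2,
  .mul 59 7,
  .add 312 356,
  .mul 2 0,
  .add 2 0,
  .add 315 367,
  .mul 5 0,
  .mul 81 1,
  .mul 0 124,
  .mul 0 126,
  .mul 5 187,
  .mul 1 97,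
  .add 1 0,
  .mul 368 127,
  .inv 324,
  .mul 1 0,
  .scale ⟨549755813888, 0, 0, 0⟩ 0,
  .mul 356 0,
  .mul 377 5,
  .add 1 0,
  .mul 383 0,
  .mul 16 41,
  .mul 0 120,
  .mul 16 202,
  .mul 0 119,
  .add 2 0,
  .mul 365 5,
  .mul 129 1,
  .add 1 0,
  .mul 279 0,
  .mul 0 15,
  .sub 393 0,
  .inv 0,
  .mul 4 0,
  .mul 393 0,
  .mul 285 1,
  .mul 0 21,
  .sub 399 0,
  .mul 351 0,
  .sub 0 4,
  .inv 0,
  .mul 6 0,
  .sub 352 6,
  .inv 0,
  .mul 2 169,
  .scale ⟨549755813888, 0, 0, 0⟩ 0,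
  .sub 408 0,
  .sub 409 2,
  .inv 0,
  .mul 2 0,
  .mul 411 6,
  .mul 174 10,
  .mul 0 2,
  .add 2 0,
  .mul 409 20,
  .mul 11 0,
  .mul 181 15,
  .mul 0 7,
  .mul 0 23,
  .add 3 0,
  .scale ⟨223338299392, 0, 0, 0⟩ 0,
  .add 415 0,
  .mul 2 0,
  .add 425 0,
  .mul 10 0,
  .mul 0 32,
  .mul 0 40,
  .mul 168 406,
  .const ⟨5497558138880, 0, 0, 0⟩,
  .inv 0,
  .mul 379 0,
  .mul 193 409,
  .mul 0 1,
  .mul 247 329,
  .mul 414 0,
  .scale ⟨549755813888, 0, 0, 0⟩ 199,
  .sub 438 0,
  .sub 439 201,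
  .inv 0,
  .mul 2 0,
  .mul 0 246,
  .mul 331 321,
  .scale ⟨733097230336, 0, 0, 0⟩ 0,
  .sub 445 0,
  .mul 324 0,
  .mul 358 358,
  .mul 436 0,
  .add 2 0,
  .mul 7 211,
  .add 1 451,
  .mul 1 0,
  .sub 3 0,
  .scale ⟨366548615168, 0, 0, 0⟩ 409,
  .sub 455 0,
  .mul 430 0,
  .add 3 0,
  .mul 22 0,
  .mul 22 22,
  .add 460 0,
  .inv 0,
  .mul 3 0,
  .sub 463 59,
  .mul 0 1,
  .sub 465 14,
  .pos 0,
  .pos 3,
  .pos 2,
  .mul 38 211,
  .mul 0 85,
  .inv 444,
  .mul 1 0,
  .mul 472 5,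
  .neg 0,
  .exp 0,
  .mul 470 38,
  .add 474 0,
  .inv 0,
  .mul 3 0,
  .mul 0 457,
  .mul 469 82,
  .mul 0 10,
  .add 480 0,
  .mul 3 0,
  .mul 0 76,
  .mul 480 54,
  .mul 0 222,
  .mul 482 55,
  .mul 16 0,
  .add 2 0,
  .add 4 18,
  .add 489 1,
  .mul 7 0,
  .add 2 0,
  .sub 492 0,
  .scale ⟨1073741824, 0, 0, 0⟩ 490,
  .sub 1 0,
  .sub 475 495,
  .add 0 440,
  .scale ⟨2199023255552, 0, 0, 0⟩ 64,
  .sub 1 0,
  .mul 259 0,
  .mul 4 2,
  .add 0 501,
  .inv 0,
  .mul 3 0,
  .mul 246 116,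
  .scale ⟨549755813888, 0, 0, 0⟩ 254,
  .add 489 0,
  .mul 2 0,
  .scale ⟨2199023255552, 0, 0, 0⟩ 0,
  .add 126 0,
  .scale ⟨2199023255552, 0, 0, 0⟩ 0,
  .mul 0 116,
  .sub 488 33,
  .inv 0,
  .mul 2 0,
  .sub 11 0,
  .mul 263 263,
  .const ⟨14293651161088, 0, 0, 0⟩,
  .const ⟨10995116277760, 0, 0, 0⟩,
  .inv 0,
  .mul 2 0,
  .mul 4 0,
  .mul 523 523,
  .scale ⟨27487790694400, 0, 0, 0⟩ 0,
  .add 2 0,
  .mul 90 49,
  .sub 486 523,
  .sub 0 488,
  .mul 528 527,
  .mul 0 530,
  .mul 506 142,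
  .mul 0 275,
  .add 157 0,
  .add 54 477,
  .mul 534 0,
  .mul 10 9,
  .mul 141 1,
  .mul 7 4,
  .mul 1 0,
  .sub 3 0,
  .scale ⟨549755813888, 0, 0, 0⟩ 61,
  .add 541 0,
  .mul 147 0,
  .mul 540 520,
  .mul 0 296,
  .mul 521 493,
  .inv 0,
  .mul 2 0,
  .mul 5 0,
  .sub 21 0,
  .mul 299 10,
  .sub 551 300,
  .mul 540 2,
  .mul 1 0,
  .mul 29 0,
  .add 4 0,
  .pos 293,
  .pos 290,
  .scale ⟨2199023255552, 0, 0, 0⟩ 164,
  .sub 505 0,
  .pos 0,
  .pos 156,
  .sub 550 320,
  .pos 0,
  .scale ⟨687194767360, 0, 0, 0⟩ 559,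
  .sub 0 208,
  .pos 0,
  .scale ⟨377957122048, 0, 0, 0⟩ 561,
  .sub 0 214,
  .pos 0,
  .pos 50,
  .pos 153,
  .sub 3 141,
  .pos 0,
  .pos 48,
  .pos 69,
  .pos 8,
  .pos 14]

def chk1 {α : Type} (cst : Z → α) (add sub mul : α → α → α) (scale : Z → α → α)
    (neg inv exp log : α → α) (ok : α → Bool) (isPos : Nat → α → Bool) (isLt : α → Nat → Bool) :
    List α → Bool
  | [x0, x1, x2, x3] =>
  let v0 := cst ⟨1099511627776, 0, 0, 0⟩; ok v0 && (
  let v1 := mul x1 x0; ok v1 && (
  let v2 := mul x2 x2; ok v2 && (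
  let v3 := mul x1 v2; ok v3 && (
  let v4 := mul x1 x2; ok v4 && (
  let v5 := mul v4 x0; ok v5 && (
  let v6 := mul v5 v5; ok v6 && (
  let v7 := mul v3 x1; ok v7 && (
  let v8 := cst ⟨549755813888, 0, 0, 0⟩; ok v8 && (
  let v9 := mul v3 v1; ok v9 && (
  let v10 := mul v9 x3; ok v10 && (
  let v11 := scale ⟨549755813888, 0, 0, 0⟩ v10; ok v11 && (
  let v12 := mul v1 v1; ok v12 && (
  let v13 := mul v11 v11; ok v13 && (
  let v14 := sub v0 v13; ok v14 && (
  let v15 := inv v14; ok v15 && (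
  let v16 := mul v11 v15; ok v16 && (
  let v17 := scale ⟨2199023255552, 0, 0, 0⟩ v16; ok v17 && (
  let v18 := scale ⟨2199023255552, 0, 0, 0⟩ v15; ok v18 && (
  let v19 := sub v18 v0; ok v19 && (
  let v20 := add v19 v17; ok v20 && (
  let v21 := mul x3 v15; ok v21 && (
  let v22 := mul v1 v21; ok v22 && (
  let v23 := sub v0 v22; ok v23 && (
  let v24 := add v0 v22; ok v24 && (
  let v25 := mul v3 v12; ok v25 && (
  let v26 := mul v21 v21; ok v26 && (
  let v27 := scale ⟨10774999203840, 0, 0, 0⟩ v11; ok v27 && (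
  let v28 := scale ⟨45768245248, 0, 0, 0⟩ v27; ok v28 && (
  let v29 := cst ⟨183207198720, 0, 0, 0⟩; ok v29 && (
  let v30 := add v28 v29; ok v30 && (
  let v31 := mul v27 v30; ok v31 && (
  let v32 := add v8 v31; ok v32 && (
  let v33 := mul v27 v32; ok v33 && (
  let v34 := add v0 v33; ok v34 && (
  let v35 := mul v27 v34; ok v35 && (
  let v36 := scale ⟨549755813888, 0, 0, 0⟩ v35; ok v36 && (
  let v37 := add v0 v36; ok v37 && (
  let v38 := mul v34 v37; ok v38 && (
  let v39 := mul v17 v22; ok v39 && (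
  let v40 := scale ⟨2199023255552, 0, 0, 0⟩ v19; ok v40 && (
  let v41 := add v39 v40; ok v41 && (
  let v42 := add v41 v3; ok v42 && (
  let v43 := mul v25 v42; ok v43 && (
  let v44 := add v43 v0; ok v44 && (
  let v45 := mul v17 v17; ok v45 && (
  let v46 := scale ⟨2199023255552, 0, 0, 0⟩ v45; ok v46 && (
  let v47 := add v46 v0; ok v47 && (
  let v48 := mul v19 v42; ok v48 && (
  let v49 := sub v48 v0; ok v49 && (
  let v50 := log v44; ok v50 && (
  let v51 := scale ⟨549755813888, 0, 0, 0⟩ v50; ok v51 && (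
  let v52 := exp v51; ok v52 && (
  let v53 := cst ⟨3298534883328, 0, 0, 0⟩; ok v53 && (
  let v54 := inv v53; ok v54 && (
  let v55 := mul v0 v54; ok v55 && (
  let v56 := cst ⟨2199023255552, 0, 0, 0⟩; ok v56 && (
  let v57 := add v43 v56; ok v57 && (
  let v58 := inv v57; ok v58 && (
  let v59 := mul v43 v58; ok v59 && (
  let v60 := mul v59 v59; ok v60 && (
  let v61 := sub v0 v59; ok v61 && (
  let v62 := mul v60 v55; ok v62 && (
  let v63 := add v0 v62; ok v63 && (
  let v64 := mul v61 v63; ok v64 && (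
  let v65 := mul v60 v60; ok v65 && (
  let v66 := scale ⟨219915747328, 0, 0, 0⟩ v65; ok v66 && (
  let v67 := mul v42 v64; ok v67 && (
  let v68 := scale ⟨549755813888, 0, 0, 0⟩ v67; ok v68 && (
  let v69 := mul v42 v66; ok v69 && (
  let v70 := scale ⟨549755813888, 0, 0, 0⟩ v69; ok v70 && (
  let v71 := add v68 v70; ok v71 && (
  let v72 := mul v19 v49; ok v72 && (
  let v73 := scale ⟨4398046511104, 0, 0, 0⟩ v72; ok v73 && (
  let v74 := mul v19 v25; ok v74 && (
  let v75 := mul v74 v49; ok v75 && (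
  let v76 := scale ⟨4398046511104, 0, 0, 0⟩ v75; ok v76 && (
  let v77 := add v76 v56; ok v77 && (
  let v78 := inv v77; ok v78 && (
  let v79 := mul v76 v78; ok v79 && (
  let v80 := mul v79 v79; ok v80 && (
  let v81 := sub v0 v79; ok v81 && (
  let v82 := mul v80 v55; ok v82 && (
  let v83 := add v0 v82; ok v83 && (
  let v84 := mul v81 v83; ok v84 && (
  let v85 := mul v80 v80; ok v85 && (
  let v86 := scale ⟨219915747328, 0, 0, 0⟩ v85; ok v86 && (
  let v87 := mul v73 v84; ok v87 && (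
  let v88 := scale ⟨549755813888, 0, 0, 0⟩ v87; ok v88 && (
  let v89 := sub v88 v71; ok v89 && (
  let v90 := mul v73 v86; ok v90 && (
  let v91 := scale ⟨549755813888, 0, 0, 0⟩ v90; ok v91 && (
  let v92 := add v91 v70; ok v92 && (
  let v93 := add v89 v92; ok v93 && (
  let v94 := mul x1 v68; ok v94 && (
  let v95 := neg v94; ok v95 && (
  let v96 := exp v95; ok v96 && (
  let v97 := mul x1 v70; ok v97 && (
  let v98 := mul v96 v97; ok v98 && (
  let v99 := mul x1 v89; ok v99 && (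
  let v100 := neg v99; ok v100 && (
  let v101 := exp v100; ok v101 && (
  let v102 := mul x1 v92; ok v102 && (
  let v103 := mul v101 v102; ok v103 && (
  let v104 := mul v22 v17; ok v104 && (
  let v105 := add v19 v104; ok v105 && (
  let v106 := inv v105; ok v106 && (
  let v107 := mul v24 v106; ok v107 && (
  let v108 := mul v23 v3; ok v108 && (
  let v109 := mul v108 v107; ok v109 && (
  let v110 := sub v0 v12; ok v110 && (
  let v111 := mul v26 v110; ok v111 && (
  let v112 := mul v9 v9; ok v112 && (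
  let v113 := sub v0 v26; ok v113 && (
  let v114 := mul v110 v113; ok v114 && (
  let v115 := mul v25 v49; ok v115 && (
  let v116 := inv v44; ok v116 && (
  let v117 := mul v115 v116; ok v117 && (
  let v118 := add v19 v117; ok v118 && (
  let v119 := mul v44 v118; ok v119 && (
  let v120 := mul v119 v119; ok v120 && (
  let v121 := inv v120; ok v121 && (
  let v122 := mul v114 v121; ok v122 && (
  let v123 := add v19 v25; ok v123 && (
  let v124 := mul x0 v123; ok v124 && (
  let v125 := inv v124; ok v125 && (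
  let v126 := mul v0 v125; ok v126 && (
  let v127 := mul v126 v126; ok v127 && (
  let v128 := mul v127 v114; ok v128 && (
  let v129 := cst ⟨10849087389696, 0, 0, 0⟩; ok v129 && (
  let v130 := sub v129 v128; ok v130 && (
  isPos 4 v130 && (
  let v131 := cst ⟨13, 0, 0, 0⟩; ok v131 && (
  let v132 := cst ⟨2295, 0, 0, 0⟩; ok v132 && (
  let v133 := mul v128 v131; ok v133 && (
  let v134 := sub v132 v133; ok v134 && (
  let v135 := cst ⟨302996, 0, 0, 0⟩; ok v135 && (
  let v136 := mul v128 v134; ok v136 && (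
  let v137 := sub v135 v136; ok v137 && (
  let v138 := cst ⟨27269633, 0, 0, 0⟩; ok v138 && (
  let v139 := mul v128 v137; ok v139 && (
  let v140 := sub v138 v139; ok v140 && (
  let v141 := cst ⟨1527099484, 0, 0, 0⟩; ok v141 && (
  let v142 := mul v128 v140; ok v142 && (
  let v143 := sub v141 v142; ok v143 && (
  let v144 := cst ⟨45812984490, 0, 0, 0⟩; ok v144 && (
  let v145 := mul v128 v143; ok v145 && (
  let v146 := sub v144 v145; ok v146 && (
  let v147 := mul v128 v146; ok v147 && (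
  let v148 := sub v8 v147; ok v148 && (
  let v149 := mul v128 v148; ok v149 && (
  let v150 := sub v0 v149; ok v150 && (
  let v151 := add v96 v0; ok v151 && (
  let v152 := mul v96 v96; ok v152 && (
  let v153 := add v152 v0; ok v153 && (
  let v154 := mul v96 v150; ok v154 && (
  let v155 := scale ⟨2199023255552, 0, 0, 0⟩ v154; ok v155 && (
  let v156 := add v153 v155; ok v156 && (
  let v157 := scale ⟨4398046511104, 0, 0, 0⟩ v98; ok v157 && (
  let v158 := sub v156 v157; ok v158 && (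
  let v159 := inv v151; ok v159 && (
  let v160 := mul v158 v159; ok v160 && (
  let v161 := add v160 v151; ok v161 && (
  let v162 := mul v96 v109; ok v162 && (
  let v163 := scale ⟨549755813888, 0, 0, 0⟩ v162; ok v163 && (
  let v164 := mul v163 v161; ok v164 && (
  let v165 := sub v158 v164; ok v165 && (
  isPos 4 v158 && (
  isPos 4 v165 && (
  let v166 := sub v0 v96; ok v166 && (
  let v167 := mul v166 v151; ok v167 && (
  let v168 := scale ⟨2199023255552, 0, 0, 0⟩ v98; ok v168 && (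
  let v169 := add v167 v168; ok v169 && (
  let v170 := inv v165; ok v170 && (
  let v171 := mul v169 v170; ok v171 && (
  let v172 := scale ⟨549755813888, 0, 0, 0⟩ v171; ok v172 && (
  let v173 := add v172 v8; ok v173 && (
  let v174 := inv v173; ok v174 && (
  let v175 := mul v172 v174; ok v175 && (
  let v176 := mul v109 v175; ok v176 && (
  let v177 := scale ⟨549755813888, 0, 0, 0⟩ v176; ok v177 && (
  let v178 := sub v0 v177; ok v178 && (
  let v179 := sub v0 v176; ok v179 && (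
  let v180 := inv v179; ok v180 && (
  let v181 := mul v178 v180; ok v181 && (
  let v182 := add v176 v0; ok v182 && (
  let v183 := mul v96 v182; ok v183 && (
  let v184 := mul v107 v181; ok v184 && (
  let v185 := mul v184 v175; ok v185 && (
  let v186 := mul v176 v181; ok v186 && (
  isPos 4 v179 && (
  let v187 := mul v23 v24; ok v187 && (
  let v188 := add v19 v3; ok v188 && (
  let v189 := mul v22 v19; ok v189 && (
  let v190 := mul v189 v17; ok v190 && (
  let v191 := scale ⟨2199023255552, 0, 0, 0⟩ v190; ok v191 && (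
  let v192 := add v47 v191; ok v192 && (
  let v193 := mul v188 v192; ok v193 && (
  let v194 := inv v193; ok v194 && (
  let v195 := mul v187 v194; ok v195 && (
  let v196 := mul v3 v195; ok v196 && (
  isPos 4 v89 && (
  let v197 := mul v128 v116; ok v197 && (
  let v198 := sub v129 v197; ok v198 && (
  isPos 4 v198 && (
  let v199 := mul v197 v131; ok v199 && (
  let v200 := sub v132 v199; ok v200 && (
  let v201 := mul v197 v200; ok v201 && (
  let v202 := sub v135 v201; ok v202 && (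
  let v203 := mul v197 v202; ok v203 && (
  let v204 := sub v138 v203; ok v204 && (
  let v205 := mul v197 v204; ok v205 && (
  let v206 := sub v141 v205; ok v206 && (
  let v207 := mul v197 v206; ok v207 && (
  let v208 := sub v144 v207; ok v208 && (
  let v209 := mul v197 v208; ok v209 && (
  let v210 := sub v8 v209; ok v210 && (
  let v211 := mul v197 v210; ok v211 && (
  let v212 := sub v0 v211; ok v212 && (
  let v213 := add v101 v0; ok v213 && (
  let v214 := mul v101 v101; ok v214 && (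
  let v215 := add v214 v0; ok v215 && (
  let v216 := mul v101 v212; ok v216 && (
  let v217 := scale ⟨2199023255552, 0, 0, 0⟩ v216; ok v217 && (
  let v218 := add v215 v217; ok v218 && (
  let v219 := scale ⟨4398046511104, 0, 0, 0⟩ v103; ok v219 && (
  let v220 := sub v218 v219; ok v220 && (
  let v221 := inv v213; ok v221 && (
  let v222 := mul v220 v221; ok v222 && (
  let v223 := add v222 v213; ok v223 && (
  let v224 := mul v101 v196; ok v224 && (
  let v225 := scale ⟨549755813888, 0, 0, 0⟩ v224; ok v225 && (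
  let v226 := mul v225 v223; ok v226 && (
  let v227 := sub v220 v226; ok v227 && (
  isPos 4 v220 && (
  isPos 4 v227 && (
  let v228 := sub v0 v101; ok v228 && (
  let v229 := mul v228 v213; ok v229 && (
  let v230 := scale ⟨2199023255552, 0, 0, 0⟩ v103; ok v230 && (
  let v231 := add v229 v230; ok v231 && (
  let v232 := inv v227; ok v232 && (
  let v233 := mul v231 v232; ok v233 && (
  let v234 := scale ⟨549755813888, 0, 0, 0⟩ v233; ok v234 && (
  let v235 := add v234 v8; ok v235 && (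
  let v236 := inv v235; ok v236 && (
  let v237 := mul v234 v236; ok v237 && (
  let v238 := mul v196 v237; ok v238 && (
  let v239 := mul v237 x0; ok v239 && (
  let v240 := add v11 v0; ok v240 && (
  let v241 := inv v240; ok v241 && (
  let v242 := mul v11 v241; ok v242 && (
  let v243 := scale ⟨2199023255552, 0, 0, 0⟩ v242; ok v243 && (
  let v244 := sub v0 v243; ok v244 && (
  let v245 := sub v0 v11; ok v245 && (
  let v246 := mul x3 v241; ok v246 && (
  let v247 := mul v246 v244; ok v247 && (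
  let v248 := add v24 v247; ok v248 && (
  let v249 := scale ⟨224412041216, 0, 0, 0⟩ v15; ok v249 && (
  let v250 := inv v38; ok v250 && (
  let v251 := mul v249 v250; ok v251 && (
  let v252 := scale ⟨4398046511104, 0, 0, 0⟩ x0; ok v252 && (
  let v253 := mul v0 v21; ok v253 && (
  let v254 := add v252 v253; ok v254 && (
  let v255 := scale ⟨549755813888, 0, 0, 0⟩ v254; ok v255 && (
  let v256 := inv v255; ok v256 && (
  let v257 := mul v0 v256; ok v257 && (
  let v258 := mul x0 v256; ok v258 && (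
  let v259 := mul v258 v24; ok v259 && (
  let v260 := mul v259 v251; ok v260 && (
  let v261 := mul v257 v24; ok v261 && (
  let v262 := mul v261 v251; ok v262 && (
  let v263 := sub v0 v262; ok v263 && (
  let v264 := inv v263; ok v264 && (
  let v265 := mul v183 v262; ok v265 && (
  let v266 := sub v0 v265; ok v266 && (
  let v267 := inv v266; ok v267 && (
  let v268 := mul v23 v175; ok v268 && (
  let v269 := inv v22; ok v269 && (
  let v270 := mul v268 v269; ok v270 && (
  let v271 := scale ⟨549755813888, 0, 0, 0⟩ v270; ok v271 && (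
  let v272 := sub v0 v271; ok v272 && (
  let v273 := sub v0 v270; ok v273 && (
  let v274 := inv v273; ok v274 && (
  let v275 := mul v272 v274; ok v275 && (
  let v276 := mul v275 v175; ok v276 && (
  let v277 := mul v270 v275; ok v277 && (
  let v278 := mul v277 v6; ok v278 && (
  isPos 4 v273 && (
  let v279 := scale ⟨1374389534720, 0, 0, 0⟩ v278; ok v279 && (
  let v280 := sub v8 v279; ok v280 && (
  isPos 4 v280 && (
  let v281 := scale ⟨3092376453120, 0, 0, 0⟩ v278; ok v281 && (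
  let v282 := add v281 v56; ok v282 && (
  let v283 := mul v278 v282; ok v283 && (
  let v284 := add v0 v283; ok v284 && (
  let v285 := scale ⟨1546188226560, 0, 0, 0⟩ v278; ok v285 && (
  let v286 := add v285 v0; ok v286 && (
  let v287 := mul v278 v286; ok v287 && (
  let v288 := add v0 v287; ok v288 && (
  let v289 := mul v11 v21; ok v289 && (
  let v290 := sub v0 v111; ok v290 && (
  let v291 := mul v11 v22; ok v291 && (
  let v292 := scale ⟨2199023255552, 0, 0, 0⟩ v291; ok v292 && (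
  let v293 := sub v290 v292; ok v293 && (
  let v294 := mul v289 v289; ok v294 && (
  let v295 := add v293 v294; ok v295 && (
  let v296 := add v295 v0; ok v296 && (
  let v297 := scale ⟨549755813888, 0, 0, 0⟩ v296; ok v297 && (
  let v298 := scale ⟨549755813888, 0, 0, 0⟩ v25; ok v298 && (
  let v299 := sub v15 v298; ok v299 && (
  let v300 := mul v112 v290; ok v300 && (
  let v301 := mul v300 v14; ok v301 && (
  let v302 := scale ⟨137438953472, 0, 0, 0⟩ v301; ok v302 && (
  let v303 := add v299 v302; ok v303 && (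
  let v304 := mul v297 v303; ok v304 && (
  let v305 := cst ⟨1, 0, 0, 0⟩; ok v305 && (
  let v306 := cst ⟨12, 0, 0, 0⟩; ok v306 && (
  let v307 := mul v128 v305; ok v307 && (
  let v308 := sub v306 v307; ok v308 && (
  let v309 := cst ⟨2296, 0, 0, 0⟩; ok v309 && (
  let v310 := mul v128 v308; ok v310 && (
  let v311 := sub v309 v310; ok v311 && (
  let v312 := cst ⟨302995, 0, 0, 0⟩; ok v312 && (
  let v313 := mul v128 v311; ok v313 && (
  let v314 := sub v312 v313; ok v314 && (
  let v315 := cst ⟨27269634, 0, 0, 0⟩; ok v315 && (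
  let v316 := mul v128 v314; ok v316 && (
  let v317 := sub v315 v316; ok v317 && (
  let v318 := cst ⟨1527099483, 0, 0, 0⟩; ok v318 && (
  let v319 := mul v128 v317; ok v319 && (
  let v320 := sub v318 v319; ok v320 && (
  let v321 := cst ⟨45812984491, 0, 0, 0⟩; ok v321 && (
  let v322 := mul v128 v320; ok v322 && (
  let v323 := sub v321 v322; ok v323 && (
  let v324 := mul v128 v323; ok v324 && (
  let v325 := sub v8 v324; ok v325 && (
  let v326 := mul v128 v325; ok v326 && (
  let v327 := sub v0 v326; ok v327 && (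
  let v328 := mul v128 v6; ok v328 && (
  let v329 := mul v328 v328; ok v329 && (
  let v330 := scale ⟨369367187456, 0, 0, 0⟩ v329; ok v330 && (
  let v331 := add v327 v330; ok v331 && (
  let v332 := mul v96 v331; ok v332 && (
  let v333 := scale ⟨2199023255552, 0, 0, 0⟩ v332; ok v333 && (
  let v334 := add v153 v333; ok v334 && (
  let v335 := add v334 v168; ok v335 && (
  let v336 := cst ⟨8589934592, 0, 0, 0⟩; ok v336 && (
  let v337 := add v335 v336; ok v337 && (
  let v338 := log v337; ok v338 && (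
  let v339 := scale ⟨549755813888, 0, 0, 0⟩ v338; ok v339 && (
  let v340 := exp v339; ok v340 && (
  let v341 := mul v96 v176; ok v341 && (
  let v342 := add v340 v341; ok v342 && (
  let v343 := mul v342 v264; ok v343 && (
  let v344 := mul v183 v267; ok v344 && (
  let v345 := add v343 v344; ok v345 && (
  let v346 := mul v262 v345; ok v346 && (
  let v347 := add v186 v346; ok v347 && (
  let v348 := mul v347 v6; ok v348 && (
  let v349 := mul v342 v262; ok v349 && (
  let v350 := mul v349 v264; ok v350 && (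
  let v351 := add v186 v350; ok v351 && (
  let v352 := mul v351 v6; ok v352 && (
  let v353 := scale ⟨223338299392, 0, 0, 0⟩ v352; ok v353 && (
  let v354 := add v8 v353; ok v354 && (
  let v355 := mul v352 v354; ok v355 && (
  let v356 := add v0 v355; ok v356 && (
  let v357 := scale ⟨893353197568, 0, 0, 0⟩ v348; ok v357 && (
  let v358 := add v0 v357; ok v358 && (
  let v359 := mul v348 v358; ok v359 && (
  let v360 := add v0 v359; ok v360 && (
  let v361 := mul v243 v246; ok v361 && (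
  let v362 := mul v361 v284; ok v362 && (
  let v363 := mul v362 v360; ok v363 && (
  let v364 := mul v304 v356; ok v364 && (
  let v365 := add v52 v8; ok v365 && (
  let v366 := mul v363 v365; ok v366 && (
  let v367 := add v364 v366; ok v367 && (
  let v368 := add v52 v0; ok v368 && (
  let v369 := mul v363 v368; ok v369 && (
  let v370 := mul v288 v368; ok v370 && (
  let v371 := mul v370 v246; ok v371 && (
  let v372 := mul v371 v245; ok v372 && (
  let v373 := mul v367 v185; ok v373 && (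
  let v374 := mul v372 v276; ok v374 && (
  let v375 := add v373 v374; ok v375 && (
  let v376 := mul v7 v248; ok v376 && (
  let v377 := inv v52; ok v377 && (
  let v378 := mul v376 v377; ok v378 && (
  let v379 := scale ⟨549755813888, 0, 0, 0⟩ v378; ok v379 && (
  let v380 := mul v23 v379; ok v380 && (
  let v381 := mul v3 v375; ok v381 && (
  let v382 := add v380 v381; ok v382 && (
  let v383 := mul x0 v382; ok v383 && (
  let v384 := mul v367 v342; ok v384 && (
  let v385 := mul v384 v264; ok v385 && (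
  let v386 := mul v369 v183; ok v386 && (
  let v387 := mul v386 v267; ok v387 && (
  let v388 := add v385 v387; ok v388 && (
  let v389 := mul v23 v383; ok v389 && (
  let v390 := mul v260 v388; ok v390 && (
  let v391 := add v389 v390; ok v391 && (
  let v392 := mul v112 v391; ok v392 && (
  let v393 := mul v392 v377; ok v393 && (
  let v394 := sub v0 v393; ok v394 && (
  let v395 := inv v394; ok v395 && (
  let v396 := mul v391 v395; ok v396 && (
  let v397 := mul v3 v396; ok v397 && (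
  let v398 := mul v112 v396; ok v398 && (
  let v399 := mul v398 v377; ok v399 && (
  let v400 := sub v0 v399; ok v400 && (
  let v401 := mul v49 v400; ok v401 && (
  let v402 := sub v401 v397; ok v402 && (
  let v403 := inv v402; ok v403 && (
  let v404 := mul v397 v403; ok v404 && (
  let v405 := sub v52 v398; ok v405 && (
  let v406 := inv v405; ok v406 && (
  let v407 := mul v404 v237; ok v407 && (
  let v408 := scale ⟨549755813888, 0, 0, 0⟩ v407; ok v408 && (
  let v409 := sub v0 v408; ok v409 && (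
  let v410 := sub v0 v407; ok v410 && (
  let v411 := inv v410; ok v411 && (
  let v412 := mul v409 v411; ok v412 && (
  let v413 := mul v1 v406; ok v413 && (
  let v414 := mul v239 v403; ok v414 && (
  let v415 := mul v414 v412; ok v415 && (
  let v416 := add v413 v415; ok v416 && (
  let v417 := mul v7 v396; ok v417 && (
  let v418 := mul v406 v417; ok v418 && (
  let v419 := mul v237 v403; ok v419 && (
  let v420 := mul v419 v412; ok v420 && (
  let v421 := mul v420 v397; ok v421 && (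
  let v422 := add v418 v421; ok v422 && (
  let v423 := scale ⟨223338299392, 0, 0, 0⟩ v422; ok v423 && (
  let v424 := add v8 v423; ok v424 && (
  let v425 := mul v422 v424; ok v425 && (
  let v426 := add v0 v425; ok v426 && (
  let v427 := mul v416 v426; ok v427 && (
  let v428 := mul v427 v395; ok v428 && (
  let v429 := mul v428 v388; ok v429 && (
  let v430 := mul v261 v23; ok v430 && (
  let v431 := cst ⟨5497558138880, 0, 0, 0⟩; ok v431 && (
  let v432 := inv v431; ok v432 && (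
  let v433 := mul v53 v432; ok v433 && (
  let v434 := mul v240 v24; ok v434 && (
  let v435 := mul v434 v433; ok v435 && (
  let v436 := mul v188 v106; ok v436 && (
  let v437 := mul v22 v436; ok v437 && (
  let v438 := scale ⟨549755813888, 0, 0, 0⟩ v238; ok v438 && (
  let v439 := sub v0 v438; ok v439 && (
  let v440 := sub v0 v238; ok v440 && (
  let v441 := inv v440; ok v441 && (
  let v442 := mul v439 v441; ok v442 && (
  let v443 := mul v442 v196; ok v443 && (
  let v444 := mul v112 v122; ok v444 && (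
  let v445 := scale ⟨733097230336, 0, 0, 0⟩ v444; ok v445 && (
  let v446 := sub v0 v445; ok v446 && (
  let v447 := mul v122 v446; ok v447 && (
  let v448 := mul v89 v89; ok v448 && (
  let v449 := mul v12 v448; ok v449 && (
  let v450 := add v447 v449; ok v450 && (
  let v451 := mul v443 v239; ok v451 && (
  let v452 := add v450 v0; ok v452 && (
  let v453 := mul v451 v452; ok v453 && (
  let v454 := sub v450 v453; ok v454 && (
  let v455 := scale ⟨366548615168, 0, 0, 0⟩ v45; ok v455 && (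
  let v456 := sub v0 v455; ok v456 && (
  let v457 := mul v26 v456; ok v457 && (
  let v458 := add v454 v457; ok v458 && (
  let v459 := mul v436 v458; ok v459 && (
  let v460 := mul v437 v437; ok v460 && (
  let v461 := add v0 v460; ok v461 && (
  let v462 := inv v461; ok v462 && (
  let v463 := mul v459 v462; ok v463 && (
  let v464 := sub v0 v404; ok v464 && (
  let v465 := mul v464 v463; ok v465 && (
  let v466 := sub v0 v451; ok v466 && (
  isPos 4 v466 && (
  isPos 4 v463 && (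
  isPos 4 v464 && (
  let v467 := mul v428 v255; ok v467 && (
  let v468 := mul v467 v382; ok v468 && (
  let v469 := inv v24; ok v469 && (
  let v470 := mul v468 v469; ok v470 && (
  let v471 := mul x1 v465; ok v471 && (
  let v472 := neg v471; ok v472 && (
  let v473 := exp v472; ok v473 && (
  let v474 := mul v3 v435; ok v474 && (
  let v475 := add v0 v474; ok v475 && (
  let v476 := inv v475; ok v476 && (
  let v477 := mul v473 v476; ok v477 && (
  let v478 := mul v477 v20; ok v478 && (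
  let v479 := mul v9 v396; ok v479 && (
  let v480 := mul v479 v469; ok v480 && (
  let v481 := add v0 v480; ok v481 && (
  let v482 := mul v478 v481; ok v482 && (
  let v483 := mul v482 v406; ok v483 && (
  let v484 := mul v3 v429; ok v484 && (
  let v485 := mul v484 v262; ok v485 && (
  let v486 := mul v3 v430; ok v486 && (
  let v487 := mul v470 v486; ok v487 && (
  let v488 := add v485 v487; ok v488 && (
  let v489 := add v484 v470; ok v489 && (
  let v490 := add v0 v488; ok v490 && (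
  let v491 := mul v483 v490; ok v491 && (
  let v492 := add v489 v491; ok v492 && (
  let v493 := sub v0 v492; ok v493 && (
  let v494 := scale ⟨1073741824, 0, 0, 0⟩ v3; ok v494 && (
  let v495 := sub v493 v494; ok v495 && (
  let v496 := sub v20 v0; ok v496 && (
  let v497 := add v496 v56; ok v497 && (
  let v498 := scale ⟨2199023255552, 0, 0, 0⟩ v433; ok v498 && (
  let v499 := sub v497 v498; ok v499 && (
  let v500 := mul v240 v499; ok v500 && (
  let v501 := mul v496 v498; ok v501 && (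
  let v502 := add v501 v0; ok v502 && (
  let v503 := inv v502; ok v503 && (
  let v504 := mul v500 v503; ok v504 && (
  let v505 := mul v258 v388; ok v505 && (
  let v506 := scale ⟨549755813888, 0, 0, 0⟩ v251; ok v506 && (
  let v507 := add v17 v506; ok v507 && (
  let v508 := mul v505 v507; ok v508 && (
  let v509 := scale ⟨2199023255552, 0, 0, 0⟩ v508; ok v509 && (
  let v510 := add v383 v509; ok v510 && (
  let v511 := scale ⟨2199023255552, 0, 0, 0⟩ v510; ok v511 && (
  let v512 := mul v511 v395; ok v512 && (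
  let v513 := sub v24 v479; ok v513 && (
  let v514 := inv v513; ok v514 && (
  let v515 := mul v512 v514; ok v515 && (
  let v516 := sub v504 v515; ok v516 && (
  let v517 := mul v253 v253; ok v517 && (
  let v518 := cst ⟨14293651161088, 0, 0, 0⟩; ok v518 && (
  let v519 := cst ⟨10995116277760, 0, 0, 0⟩; ok v519 && (
  let v520 := inv v519; ok v520 && (
  let v521 := mul v518 v520; ok v521 && (
  let v522 := mul v517 v521; ok v522 && (
  let v523 := mul x0 x0; ok v523 && (
  let v524 := scale ⟨27487790694400, 0, 0, 0⟩ v523; ok v524 && (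
  let v525 := add v522 v524; ok v525 && (
  let v526 := mul v435 v476; ok v526 && (
  let v527 := sub v40 v3; ok v527 && (
  let v528 := sub v527 v39; ok v528 && (
  let v529 := mul v0 v1; ok v529 && (
  let v530 := mul v529 x0; ok v530 && (
  let v531 := mul v24 v388; ok v531 && (
  let v532 := mul v531 v256; ok v532 && (
  let v533 := add v375 v532; ok v533 && (
  let v534 := add v479 v56; ok v534 && (
  let v535 := mul v0 v534; ok v535 && (
  let v536 := mul v525 v526; ok v536 && (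
  let v537 := mul v395 v535; ok v537 && (
  let v538 := mul v530 v533; ok v538 && (
  let v539 := mul v537 v538; ok v539 && (
  let v540 := sub v536 v539; ok v540 && (
  let v541 := scale ⟨549755813888, 0, 0, 0⟩ v479; ok v541 && (
  let v542 := add v0 v541; ok v542 && (
  let v543 := mul v395 v542; ok v543 && (
  let v544 := mul v3 v23; ok v544 && (
  let v545 := mul v544 v248; ok v545 && (
  let v546 := mul v24 v52; ok v546 && (
  let v547 := inv v546; ok v547 && (
  let v548 := mul v545 v547; ok v548 && (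
  let v549 := mul v543 v548; ok v549 && (
  let v550 := sub v528 v549; ok v550 && (
  let v551 := mul v251 v540; ok v551 && (
  let v552 := sub v0 v251; ok v552 && (
  let v553 := mul v12 v550; ok v553 && (
  let v554 := mul v552 v553; ok v554 && (
  let v555 := mul v525 v554; ok v555 && (
  let v556 := add v551 v555; ok v556 && (
  isPos 4 v263 && (
  isPos 4 v266 && (
  let v557 := scale ⟨2199023255552, 0, 0, 0⟩ v392; ok v557 && (
  let v558 := sub v52 v557; ok v558 && (
  isPos 4 v558 && (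
  isPos 4 v402 && (
  let v559 := sub v8 v238; ok v559 && (
  isPos 4 v559 && (
  let v560 := scale ⟨687194767360, 0, 0, 0⟩ v0; ok v560 && (
  let v561 := sub v560 v352; ok v561 && (
  isPos 4 v561 && (
  let v562 := scale ⟨377957122048, 0, 0, 0⟩ v0; ok v562 && (
  let v563 := sub v562 v348; ok v563 && (
  isPos 4 v563 && (
  isPos 4 v513 && (
  isPos 4 v410 && (
  let v564 := sub v560 v422; ok v564 && (
  isPos 4 v564 && (
  isPos 4 v516 && (
  isPos 4 v495 && (
  isPos 4 v556 && (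
  isPos 4 v550 && (
  true))))))))))))))))))))))))))))))))))))))))))))))))))))))))))))))))))))))))))))))))))))))))))))))))))))))))))))))))))))))))))))))))))))))))))))))))))))))))))))))))))))))))))))))))))))))))))))))))))))))))))))))))))))))))))))))))))))))))))))))))))))))))))))))))))))))))))))))))))))))))))))))))))))))))))))))))))))))))))))))))))))))))))))))))))))))))))))))))))))))))))))))))))))))))))))))))))))))))))))))))))))))))))))))))))))))))))))))))))))))))))))))))))))))))))))))))))))))))))))))))))))))))))))))))))))))))))))))))))))))))))))))))))))))))))))))))))))))))))))))))))))))))))))))))))))))))))))))))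
  | _ => false

set_option maxRecDepth 1000000 in
theorem chk1_eq (O : Ops) (m : List O.α)
    (h : chk1 O.cst O.add O.sub O.mul O.scale O.neg O.inv O.exp O.log O.ok O.isPos O.isLt m = true) :
    runG O 4 prog1 m = true := by
  match m, h with
  | [x0, x1, x2, x3], h => exact h

def chkB1 : List opsE.α → Bool :=
  chk1 opsE.cst opsE.add opsE.sub opsE.mul opsE.scale opsE.neg opsE.inv opsE.exp opsE.log opsE.ok opsE.isPos opsE.isLt

theorem chkB1_eq (m : List opsE.α) (h : chkB1 m = true) : runG opsE 4 prog1 m = true :=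
  chk1_eq opsE m h

def prog2 : List Op := [
  .const ⟨1099511627776, 0, 0, 0⟩,
  .mul 2 1,
  .mul 4 4,
  .mul 4 0,
  .mul 5 6,
  .mul 0 5,
  .mul 0 0,
  .mul 3 8,
  .const ⟨549755813888, 0, 0, 0⟩,
  .mul 5 7,
  .mul 0 13,
  .scale ⟨549755813888, 0, 0, 0⟩ 0,
  .mul 10 10,
  .mul 1 1,
  .sub 13 0,
  .inv 0,
  .mul 4 0,
  .scale ⟨2199023255552, 0, 0, 0⟩ 0,
  .scale ⟨2199023255552, 0, 0, 0⟩ 2,
  .sub 0 18,
  .add 0 2,
  .mul 24 5,
  .mul 20 0,
  .sub 22 0,
  .add 23 1,
  .mul 21 12,
  .mul 4 4,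
  .scale ⟨10774999203840, 0, 0, 0⟩ 15,
  .scale ⟨45768245248, 0, 0, 0⟩ 0,
  .const ⟨183207198720, 0, 0, 0⟩,
  .add 1 0,
  .mul 3 0,
  .add 23 0,
  .mul 5 0,
  .add 33 0,
  .mul 7 0,
  .scale ⟨549755813888, 0, 0, 0⟩ 0,
  .add 36 0,
  .mul 3 0,
  .mul 21 16,
  .scale ⟨2199023255552, 0, 0, 0⟩ 20,
  .add 1 0,
  .add 0 38,
  .mul 17 0,
  .add 0 43,
  .mul 27 27,
  .scale ⟨2199023255552, 0, 0, 0⟩ 0,
  .add 0 46,
  .mul 28 5,
  .sub 0 48,
  .log 5,
  .scale ⟨549755813888, 0, 0, 0⟩ 0,
  .exp 0,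
  .const ⟨3298534883328, 0, 0, 0⟩,
  .inv 0,
  .mul 54 0,
  .const ⟨2199023255552, 0, 0, 0⟩,
  .add 13 0,
  .inv 0,
  .mul 15 0,
  .mul 0 0,
  .sub 60 1,
  .mul 1 6,
  .add 62 0,
  .mul 2 0,
  .mul 4 4,
  .scale ⟨219915747328, 0, 0, 0⟩ 0,
  .mul 24 2,
  .scale ⟨549755813888, 0, 0, 0⟩ 0,
  .mul 26 2,
  .scale ⟨549755813888, 0, 0, 0⟩ 0,
  .add 2 0,
  .mul 52 22,
  .scale ⟨4398046511104, 0, 0, 0⟩ 0,
  .mul 54 48,
  .mul 0 25,
  .scale ⟨4398046511104, 0, 0, 0⟩ 0,
  .add 0 20,
  .inv 0,
  .mul 2 0,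
  .mul 0 0,
  .sub 80 1,
  .mul 1 26,
  .add 82 0,
  .mul 2 0,
  .mul 4 4,
  .scale ⟨219915747328, 0, 0, 0⟩ 0,
  .mul 13 2,
  .scale ⟨549755813888, 0, 0, 0⟩ 0,
  .sub 0 17,
  .mul 16 3,
  .scale ⟨549755813888, 0, 0, 0⟩ 0,
  .add 0 21,
  .add 3 0,
  .mul 95 25,
  .neg 0,
  .exp 0,
  .mul 98 26,
  .mul 1 0,
  .mul 100 9,
  .neg 0,
  .exp 0,
  .mul 103 9,
  .mul 1 0,
  .mul 81 86,
  .add 85 0,
  .inv 0,
  .mul 82 0,
  .mul 84 104,
  .mul 0 1,
  .sub 109 97,
  .mul 84 0,
  .mul 102 102,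
  .sub 112 86,
  .mul 3 0,
  .mul 89 65,
  .inv 71,
  .mul 1 0,
  .add 98 0,
  .mul 74 0,
  .mul 0 0,
  .inv 0,
  .mul 7 0,
  .add 103 97,
  .mul 124 0,
  .inv 0,
  .mul 125 0,
  .mul 0 0,
  .mul 0 13,
  .const ⟨10849087389696, 0, 0, 0⟩,
  .sub 0 1,
  .pos 0,
  .const ⟨13, 0, 0, 0⟩,
  .const ⟨2295, 0, 0, 0⟩,
  .mul 4 1,
  .sub 1 0,
  .const ⟨302996, 0, 0, 0⟩,
  .mul 7 1,
  .sub 1 0,
  .const ⟨27269633, 0, 0, 0⟩,
  .mul 10 1,
  .sub 1 0,
  .const ⟨1527099484, 0, 0, 0⟩,
  .mul 13 1,
  .sub 1 0,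
  .const ⟨45812984490, 0, 0, 0⟩,
  .mul 16 1,
  .sub 1 0,
  .mul 18 0,
  .sub 139 0,
  .mul 20 0,
  .sub 149 0,
  .add 54 150,
  .mul 55 55,
  .add 0 152,
  .mul 57 3,
  .scale ⟨2199023255552, 0, 0, 0⟩ 0,
  .add 2 0,
  .scale ⟨4398046511104, 0, 0, 0⟩ 58,
  .sub 1 0,
  .inv 7,
  .mul 1 0,
  .add 0 9,
  .mul 65 52,
  .scale ⟨549755813888, 0, 0, 0⟩ 0,
  .mul 0 2,
  .sub 6 0,
  .pos 7,
  .pos 0,
  .sub 165 69,
  .mul 0 15,
  .scale ⟨2199023255552, 0, 0, 0⟩ 69,
  .add 1 0,
  .inv 4,
  .mul 1 0,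
  .scale ⟨549755813888, 0, 0, 0⟩ 0,
  .add 0 164,
  .inv 0,
  .mul 2 0,
  .mul 66 0,
  .scale ⟨549755813888, 0, 0, 0⟩ 0,
  .sub 177 0,
  .sub 178 2,
  .inv 0,
  .mul 2 0,
  .add 5 181,
  .mul 86 0,
  .mul 76 2,
  .mul 0 9,
  .mul 9 4,
  .pos 7,
  .mul 163 162,
  .add 168 184,
  .mul 166 169,
  .mul 0 172,
  .scale ⟨2199023255552, 0, 0, 0⟩ 0,
  .add 144 0,
  .mul 4 0,
  .inv 0,
  .mul 7 0,
  .mul 192 0,
  .pos 107,
  .mul 68 80,
  .sub 68 0,
  .pos 0,
  .mul 1 67,
  .sub 67 0,
  .mul 3 0,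
  .sub 66 0,
  .mul 5 0,
  .sub 65 0,
  .mul 7 0,
  .sub 64 0,
  .mul 9 0,
  .sub 63 0,
  .mul 11 0,
  .sub 201 0,
  .mul 13 0,
  .sub 211 0,
  .add 111 212,
  .mul 112 112,
  .add 0 214,
  .mul 114 3,
  .scale ⟨2199023255552, 0, 0, 0⟩ 0,
  .add 2 0,
  .scale ⟨4398046511104, 0, 0, 0⟩ 115,
  .sub 1 0,
  .inv 7,
  .mul 1 0,
  .add 0 9,
  .mul 122 27,
  .scale ⟨549755813888, 0, 0, 0⟩ 0,
  .mul 0 2,
  .sub 6 0,
  .pos 7,
  .pos 0,
  .sub 227 126,
  .mul 0 15,
  .scale ⟨2199023255552, 0, 0, 0⟩ 126,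
  .add 1 0,
  .inv 4,
  .mul 1 0,
  .scale ⟨549755813888, 0, 0, 0⟩ 0,
  .add 0 226,
  .inv 0,
  .mul 2 0,
  .mul 41 0,
  .mul 1 239,
  .add 228 239,
  .inv 0,
  .mul 230 0,
  .scale ⟨2199023255552, 0, 0, 0⟩ 0,
  .sub 243 0,
  .sub 244 233,
  .mul 249 4,
  .mul 0 2,
  .add 223 0,
  .scale ⟨224412041216, 0, 0, 0⟩ 233,
  .inv 211,
  .mul 1 0,
  .scale ⟨4398046511104, 0, 0, 0⟩ 252,
  .mul 252 231,
  .add 1 0,
  .scale ⟨549755813888, 0, 0, 0⟩ 0,
  .inv 0,
  .mul 256 0,
  .mul 258 1,
  .mul 0 234,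
  .mul 0 8,
  .mul 3 236,
  .mul 0 10,
  .sub 262 0,
  .inv 0,
  .mul 81 2,
  .sub 265 0,
  .inv 0,
  .scale ⟨2199023255552, 0, 0, 0⟩ 261,
  .add 0 268,
  .add 263 269,
  .scale ⟨3573412790272, 0, 0, 0⟩ 248,
  .const ⟨339302416384, 0, 0, 0⟩,
  .add 1 0,
  .scale ⟨549755813888, 0, 0, 0⟩ 0,
  .mul 263 253,
  .sub 275 164,
  .mul 265 254,
  .scale ⟨2199023255552, 0, 0, 0⟩ 0,
  .sub 2 0,
  .mul 4 4,
  .add 1 0,
  .add 0 281,
  .scale ⟨549755813888, 0, 0, 0⟩ 0,
  .scale ⟨549755813888, 0, 0, 0⟩ 258,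
  .sub 269 0,
  .mul 173 9,
  .mul 0 272,
  .scale ⟨137438953472, 0, 0, 0⟩ 0,
  .add 3 0,
  .mul 6 0,
  .const ⟨1, 0, 0, 0⟩,
  .const ⟨12, 0, 0, 0⟩,
  .mul 164 1,
  .sub 1 0,
  .const ⟨2296, 0, 0, 0⟩,
  .mul 167 1,
  .sub 1 0,
  .const ⟨302995, 0, 0, 0⟩,
  .mul 170 1,
  .sub 1 0,
  .const ⟨27269634, 0, 0, 0⟩,
  .mul 173 1,
  .sub 1 0,
  .const ⟨1527099483, 0, 0, 0⟩,
  .mul 176 1,
  .sub 1 0,
  .const ⟨45812984491, 0, 0, 0⟩,
  .mul 179 1,
  .sub 1 0,
  .mul 181 0,
  .sub 302 0,
  .mul 183 0,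
  .sub 312 0,
  .mul 185 307,
  .mul 0 0,
  .scale ⟨369367187456, 0, 0, 0⟩ 0,
  .add 3 0,
  .mul 221 0,
  .scale ⟨2199023255552, 0, 0, 0⟩ 0,
  .add 166 0,
  .add 0 152,
  .const ⟨8589934592, 0, 0, 0⟩,
  .add 1 0,
  .log 0,
  .scale ⟨549755813888, 0, 0, 0⟩ 0,
  .exp 0,
  .mul 230 150,
  .add 1 0,
  .mul 0 64,
  .mul 146 62,
  .add 1 0,
  .mul 69 0,
  .add 146 0,
  .mul 0 327,
  .mul 6 72,
  .mul 0 71,
  .add 150 0,
  .mul 0 331,
  .scale ⟨223338299392, 0, 0, 0⟩ 0,
  .add 331 0,
  .mul 2 0,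
  .add 341 0,
  .scale ⟨893353197568, 0, 0, 0⟩ 8,
  .add 343 0,
  .mul 10 0,
  .add 345 0,
  .mul 103 100,
  .mul 0 78,
  .mul 0 2,
  .mul 59 7,
  .add 298 342,
  .mul 2 0,
  .add 2 0,
  .add 301 353,
  .mul 5 0,
  .mul 85 1,
  .mul 0 110,
  .mul 0 112,
  .mul 5 173,
  .mul 1 85,
  .add 1 0,
  .mul 354 113,
  .inv 310,
  .mul 1 0,
  .scale ⟨549755813888, 0, 0, 0⟩ 0,
  .mul 342 0,
  .mul 363 5,
  .add 1 0,
  .mul 369 0,
  .mul 16 41,
  .mul 0 106,
  .mul 16 188,
  .mul 0 105,
  .add 2 0,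
  .mul 351 5,
  .mul 115 1,
  .add 1 0,
  .mul 265 0,
  .mul 0 15,
  .sub 379 0,
  .inv 0,
  .mul 4 0,
  .mul 379 0,
  .mul 271 1,
  .mul 0 21,
  .sub 385 0,
  .mul 337 0,
  .sub 0 4,
  .inv 0,
  .mul 6 0,
  .sub 338 6,
  .inv 0,
  .mul 2 155,
  .scale ⟨549755813888, 0, 0, 0⟩ 0,
  .sub 394 0,
  .sub 395 2,
  .inv 0,
  .mul 2 0,
  .mul 397 6,
  .mul 160 10,
  .mul 0 2,
  .add 2 0,
  .mul 395 20,
  .mul 11 0,
  .mul 167 15,
  .mul 0 7,
  .mul 0 23,
  .add 3 0,
  .scale ⟨223338299392, 0, 0, 0⟩ 0,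
  .add 401 0,
  .mul 2 0,
  .add 411 0,
  .mul 10 0,
  .mul 0 32,
  .mul 0 40,
  .mul 154 392,
  .const ⟨5497558138880, 0, 0, 0⟩,
  .inv 0,
  .mul 365 0,
  .mul 179 395,
  .mul 0 1,
  .mul 233 315,
  .mul 400 0,
  .scale ⟨549755813888, 0, 0, 0⟩ 185,
  .sub 424 0,
  .sub 425 187,
  .inv 0,
  .mul 2 0,
  .mul 0 232,
  .mul 317 307,
  .scale ⟨733097230336, 0, 0, 0⟩ 0,
  .sub 431 0,
  .mul 310 0,
  .mul 344 344,
  .mul 422 0,
  .add 2 0,
  .mul 7 197,
  .add 1 437,
  .mul 1 0,
  .sub 3 0,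
  .scale ⟨366548615168, 0, 0, 0⟩ 395,
  .sub 441 0,
  .mul 416 0,
  .add 3 0,
  .mul 22 0,
  .mul 22 22,
  .add 446 0,
  .inv 0,
  .mul 3 0,
  .sub 449 59,
  .mul 0 1,
  .sub 451 14,
  .pos 0,
  .pos 3,
  .pos 2,
  .mul 38 197,
  .mul 0 85,
  .inv 430,
  .mul 1 0,
  .mul 458 5,
  .neg 0,
  .exp 0,
  .mul 456 38,
  .add 460 0,
  .inv 0,
  .mul 3 0,
  .mul 0 443,
  .mul 455 82,
  .mul 0 10,
  .add 466 0,
  .mul 3 0,
  .mul 0 76,
  .mul 466 54,
  .mul 0 208,
  .mul 468 55,
  .mul 16 0,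
  .add 2 0,
  .add 4 18,
  .add 475 1,
  .mul 7 0,
  .add 2 0,
  .sub 478 0,
  .scale ⟨1073741824, 0, 0, 0⟩ 476,
  .sub 1 0,
  .sub 461 481,
  .add 0 426,
  .scale ⟨2199023255552, 0, 0, 0⟩ 64,
  .sub 1 0,
  .mul 245 0,
  .mul 4 2,
  .add 0 487,
  .inv 0,
  .mul 3 0,
  .mul 232 116,
  .scale ⟨549755813888, 0, 0, 0⟩ 240,
  .add 475 0,
  .mul 2 0,
  .scale ⟨2199023255552, 0, 0, 0⟩ 0,
  .add 126 0,
  .scale ⟨2199023255552, 0, 0, 0⟩ 0,
  .mul 0 116,
  .sub 474 33,
  .inv 0,
  .mul 2 0,
  .sub 11 0,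
  .mul 249 249,
  .const ⟨14293651161088, 0, 0, 0⟩,
  .const ⟨10995116277760, 0, 0, 0⟩,
  .inv 0,
  .mul 2 0,
  .mul 4 0,
  .mul 509 509,
  .scale ⟨27487790694400, 0, 0, 0⟩ 0,
  .add 2 0,
  .mul 90 49,
  .sub 472 509,
  .sub 0 474,
  .mul 514 513,
  .mul 0 516,
  .mul 492 142,
  .mul 0 261,
  .add 157 0,
  .add 54 463,
  .mul 520 0,
  .mul 10 9,
  .mul 141 1,
  .mul 7 4,
  .mul 1 0,
  .sub 3 0,
  .scale ⟨549755813888, 0, 0, 0⟩ 61,
  .add 527 0,
  .mul 147 0,
  .mul 526 506,
  .mul 0 282,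
  .mul 507 479,
  .inv 0,
  .mul 2 0,
  .mul 5 0,
  .sub 21 0,
  .mul 285 10,
  .sub 537 286,
  .mul 526 2,
  .mul 1 0,
  .mul 29 0,
  .add 4 0,
  .pos 279,
  .pos 276,
  .scale ⟨2199023255552, 0, 0, 0⟩ 164,
  .sub 491 0,
  .pos 0,
  .pos 156,
  .sub 536 306,
  .pos 0,
  .scale ⟨687194767360, 0, 0, 0⟩ 545,
  .sub 0 208,
  .pos 0,
  .scale ⟨377957122048, 0, 0, 0⟩ 547,
  .sub 0 214,
  .pos 0,
  .pos 50,
  .pos 153,
  .sub 3 141,
  .pos 0,
  .pos 48,
  .pos 69,
  .pos 8,
  .pos 14]

def chk2 {α : Type} (cst : Z → α) (add sub mul : α → α → α) (scale : Z → α → α)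
    (neg inv exp log : α → α) (ok : α → Bool) (isPos : Nat → α → Bool) (isLt : α → Nat → Bool) :
    List α → Bool
  | [x0, x1, x2, x3] =>
  let v0 := cst ⟨1099511627776, 0, 0, 0⟩; ok v0 && (
  let v1 := mul x1 x0; ok v1 && (
  let v2 := mul x2 x2; ok v2 && (
  let v3 := mul x1 v2; ok v3 && (
  let v4 := mul x1 x2; ok v4 && (
  let v5 := mul v4 x0; ok v5 && (
  let v6 := mul v5 v5; ok v6 && (
  let v7 := mul v3 x1; ok v7 && (
  let v8 := cst ⟨549755813888, 0, 0, 0⟩; ok v8 && (
  let v9 := mul v3 v1; ok v9 && (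
  let v10 := mul v9 x3; ok v10 && (
  let v11 := scale ⟨549755813888, 0, 0, 0⟩ v10; ok v11 && (
  let v12 := mul v1 v1; ok v12 && (
  let v13 := mul v11 v11; ok v13 && (
  let v14 := sub v0 v13; ok v14 && (
  let v15 := inv v14; ok v15 && (
  let v16 := mul v11 v15; ok v16 && (
  let v17 := scale ⟨2199023255552, 0, 0, 0⟩ v16; ok v17 && (
  let v18 := scale ⟨2199023255552, 0, 0, 0⟩ v15; ok v18 && (
  let v19 := sub v18 v0; ok v19 && (
  let v20 := add v19 v17; ok v20 && (
  let v21 := mul x3 v15; ok v21 && (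
  let v22 := mul v1 v21; ok v22 && (
  let v23 := sub v0 v22; ok v23 && (
  let v24 := add v0 v22; ok v24 && (
  let v25 := mul v3 v12; ok v25 && (
  let v26 := mul v21 v21; ok v26 && (
  let v27 := scale ⟨10774999203840, 0, 0, 0⟩ v11; ok v27 && (
  let v28 := scale ⟨45768245248, 0, 0, 0⟩ v27; ok v28 && (
  let v29 := cst ⟨183207198720, 0, 0, 0⟩; ok v29 && (
  let v30 := add v28 v29; ok v30 && (
  let v31 := mul v27 v30; ok v31 && (
  let v32 := add v8 v31; ok v32 && (
  let v33 := mul v27 v32; ok v33 && (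
  let v34 := add v0 v33; ok v34 && (
  let v35 := mul v27 v34; ok v35 && (
  let v36 := scale ⟨549755813888, 0, 0, 0⟩ v35; ok v36 && (
  let v37 := add v0 v36; ok v37 && (
  let v38 := mul v34 v37; ok v38 && (
  let v39 := mul v17 v22; ok v39 && (
  let v40 := scale ⟨2199023255552, 0, 0, 0⟩ v19; ok v40 && (
  let v41 := add v39 v40; ok v41 && (
  let v42 := add v41 v3; ok v42 && (
  let v43 := mul v25 v42; ok v43 && (
  let v44 := add v43 v0; ok v44 && (
  let v45 := mul v17 v17; ok v45 && (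
  let v46 := scale ⟨2199023255552, 0, 0, 0⟩ v45; ok v46 && (
  let v47 := add v46 v0; ok v47 && (
  let v48 := mul v19 v42; ok v48 && (
  let v49 := sub v48 v0; ok v49 && (
  let v50 := log v44; ok v50 && (
  let v51 := scale ⟨549755813888, 0, 0, 0⟩ v50; ok v51 && (
  let v52 := exp v51; ok v52 && (
  let v53 := cst ⟨3298534883328, 0, 0, 0⟩; ok v53 && (
  let v54 := inv v53; ok v54 && (
  let v55 := mul v0 v54; ok v55 && (
  let v56 := cst ⟨2199023255552, 0, 0, 0⟩; ok v56 && (
  let v57 := add v43 v56; ok v57 && (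
  let v58 := inv v57; ok v58 && (
  let v59 := mul v43 v58; ok v59 && (
  let v60 := mul v59 v59; ok v60 && (
  let v61 := sub v0 v59; ok v61 && (
  let v62 := mul v60 v55; ok v62 && (
  let v63 := add v0 v62; ok v63 && (
  let v64 := mul v61 v63; ok v64 && (
  let v65 := mul v60 v60; ok v65 && (
  let v66 := scale ⟨219915747328, 0, 0, 0⟩ v65; ok v66 && (
  let v67 := mul v42 v64; ok v67 && (
  let v68 := scale ⟨549755813888, 0, 0, 0⟩ v67; ok v68 && (
  let v69 := mul v42 v66; ok v69 && (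
  let v70 := scale ⟨549755813888, 0, 0, 0⟩ v69; ok v70 && (
  let v71 := add v68 v70; ok v71 && (
  let v72 := mul v19 v49; ok v72 && (
  let v73 := scale ⟨4398046511104, 0, 0, 0⟩ v72; ok v73 && (
  let v74 := mul v19 v25; ok v74 && (
  let v75 := mul v74 v49; ok v75 && (
  let v76 := scale ⟨4398046511104, 0, 0, 0⟩ v75; ok v76 && (
  let v77 := add v76 v56; ok v77 && (
  let v78 := inv v77; ok v78 && (
  let v79 := mul v76 v78; ok v79 && (
  let v80 := mul v79 v79; ok v80 && (
  let v81 := sub v0 v79; ok v81 && (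
  let v82 := mul v80 v55; ok v82 && (
  let v83 := add v0 v82; ok v83 && (
  let v84 := mul v81 v83; ok v84 && (
  let v85 := mul v80 v80; ok v85 && (
  let v86 := scale ⟨219915747328, 0, 0, 0⟩ v85; ok v86 && (
  let v87 := mul v73 v84; ok v87 && (
  let v88 := scale ⟨549755813888, 0, 0, 0⟩ v87; ok v88 && (
  let v89 := sub v88 v71; ok v89 && (
  let v90 := mul v73 v86; ok v90 && (
  let v91 := scale ⟨549755813888, 0, 0, 0⟩ v90; ok v91 && (
  let v92 := add v91 v70; ok v92 && (
  let v93 := add v89 v92; ok v93 && (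
  let v94 := mul x1 v68; ok v94 && (
  let v95 := neg v94; ok v95 && (
  let v96 := exp v95; ok v96 && (
  let v97 := mul x1 v70; ok v97 && (
  let v98 := mul v96 v97; ok v98 && (
  let v99 := mul x1 v89; ok v99 && (
  let v100 := neg v99; ok v100 && (
  let v101 := exp v100; ok v101 && (
  let v102 := mul x1 v92; ok v102 && (
  let v103 := mul v101 v102; ok v103 && (
  let v104 := mul v22 v17; ok v104 && (
  let v105 := add v19 v104; ok v105 && (
  let v106 := inv v105; ok v106 && (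
  let v107 := mul v24 v106; ok v107 && (
  let v108 := mul v23 v3; ok v108 && (
  let v109 := mul v108 v107; ok v109 && (
  let v110 := sub v0 v12; ok v110 && (
  let v111 := mul v26 v110; ok v111 && (
  let v112 := mul v9 v9; ok v112 && (
  let v113 := sub v0 v26; ok v113 && (
  let v114 := mul v110 v113; ok v114 && (
  let v115 := mul v25 v49; ok v115 && (
  let v116 := inv v44; ok v116 && (
  let v117 := mul v115 v116; ok v117 && (
  let v118 := add v19 v117; ok v118 && (
  let v119 := mul v44 v118; ok v119 && (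
  let v120 := mul v119 v119; ok v120 && (
  let v121 := inv v120; ok v121 && (
  let v122 := mul v114 v121; ok v122 && (
  let v123 := add v19 v25; ok v123 && (
  let v124 := mul x0 v123; ok v124 && (
  let v125 := inv v124; ok v125 && (
  let v126 := mul v0 v125; ok v126 && (
  let v127 := mul v126 v126; ok v127 && (
  let v128 := mul v127 v114; ok v128 && (
  let v129 := cst ⟨10849087389696, 0, 0, 0⟩; ok v129 && (
  let v130 := sub v129 v128; ok v130 && (
  isPos 4 v130 && (
  let v131 := cst ⟨13, 0, 0, 0⟩; ok v131 && (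
  let v132 := cst ⟨2295, 0, 0, 0⟩; ok v132 && (
  let v133 := mul v128 v131; ok v133 && (
  let v134 := sub v132 v133; ok v134 && (
  let v135 := cst ⟨302996, 0, 0, 0⟩; ok v135 && (
  let v136 := mul v128 v134; ok v136 && (
  let v137 := sub v135 v136; ok v137 && (
  let v138 := cst ⟨27269633, 0, 0, 0⟩; ok v138 && (
  let v139 := mul v128 v137; ok v139 && (
  let v140 := sub v138 v139; ok v140 && (
  let v141 := cst ⟨1527099484, 0, 0, 0⟩; ok v141 && (
  let v142 := mul v128 v140; ok v142 && (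
  let v143 := sub v141 v142; ok v143 && (
  let v144 := cst ⟨45812984490, 0, 0, 0⟩; ok v144 && (
  let v145 := mul v128 v143; ok v145 && (
  let v146 := sub v144 v145; ok v146 && (
  let v147 := mul v128 v146; ok v147 && (
  let v148 := sub v8 v147; ok v148 && (
  let v149 := mul v128 v148; ok v149 && (
  let v150 := sub v0 v149; ok v150 && (
  let v151 := add v96 v0; ok v151 && (
  let v152 := mul v96 v96; ok v152 && (
  let v153 := add v152 v0; ok v153 && (
  let v154 := mul v96 v150; ok v154 && (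
  let v155 := scale ⟨2199023255552, 0, 0, 0⟩ v154; ok v155 && (
  let v156 := add v153 v155; ok v156 && (
  let v157 := scale ⟨4398046511104, 0, 0, 0⟩ v98; ok v157 && (
  let v158 := sub v156 v157; ok v158 && (
  let v159 := inv v151; ok v159 && (
  let v160 := mul v158 v159; ok v160 && (
  let v161 := add v160 v151; ok v161 && (
  let v162 := mul v96 v109; ok v162 && (
  let v163 := scale ⟨549755813888, 0, 0, 0⟩ v162; ok v163 && (
  let v164 := mul v163 v161; ok v164 && (
  let v165 := sub v158 v164; ok v165 && (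
  isPos 4 v158 && (
  isPos 4 v165 && (
  let v166 := sub v0 v96; ok v166 && (
  let v167 := mul v166 v151; ok v167 && (
  let v168 := scale ⟨2199023255552, 0, 0, 0⟩ v98; ok v168 && (
  let v169 := add v167 v168; ok v169 && (
  let v170 := inv v165; ok v170 && (
  let v171 := mul v169 v170; ok v171 && (
  let v172 := scale ⟨549755813888, 0, 0, 0⟩ v171; ok v172 && (
  let v173 := add v172 v8; ok v173 && (
  let v174 := inv v173; ok v174 && (
  let v175 := mul v172 v174; ok v175 && (
  let v176 := mul v109 v175; ok v176 && (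
  let v177 := scale ⟨549755813888, 0, 0, 0⟩ v176; ok v177 && (
  let v178 := sub v0 v177; ok v178 && (
  let v179 := sub v0 v176; ok v179 && (
  let v180 := inv v179; ok v180 && (
  let v181 := mul v178 v180; ok v181 && (
  let v182 := add v176 v0; ok v182 && (
  let v183 := mul v96 v182; ok v183 && (
  let v184 := mul v107 v181; ok v184 && (
  let v185 := mul v184 v175; ok v185 && (
  let v186 := mul v176 v181; ok v186 && (
  isPos 4 v179 && (
  let v187 := mul v23 v24; ok v187 && (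
  let v188 := add v19 v3; ok v188 && (
  let v189 := mul v22 v19; ok v189 && (
  let v190 := mul v189 v17; ok v190 && (
  let v191 := scale ⟨2199023255552, 0, 0, 0⟩ v190; ok v191 && (
  let v192 := add v47 v191; ok v192 && (
  let v193 := mul v188 v192; ok v193 && (
  let v194 := inv v193; ok v194 && (
  let v195 := mul v187 v194; ok v195 && (
  let v196 := mul v3 v195; ok v196 && (
  isPos 4 v89 && (
  let v197 := mul v128 v116; ok v197 && (
  let v198 := sub v129 v197; ok v198 && (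
  isPos 4 v198 && (
  let v199 := mul v197 v131; ok v199 && (
  let v200 := sub v132 v199; ok v200 && (
  let v201 := mul v197 v200; ok v201 && (
  let v202 := sub v135 v201; ok v202 && (
  let v203 := mul v197 v202; ok v203 && (
  let v204 := sub v138 v203; ok v204 && (
  let v205 := mul v197 v204; ok v205 && (
  let v206 := sub v141 v205; ok v206 && (
  let v207 := mul v197 v206; ok v207 && (
  let v208 := sub v144 v207; ok v208 && (
  let v209 := mul v197 v208; ok v209 && (
  let v210 := sub v8 v209; ok v210 && (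
  let v211 := mul v197 v210; ok v211 && (
  let v212 := sub v0 v211; ok v212 && (
  let v213 := add v101 v0; ok v213 && (
  let v214 := mul v101 v101; ok v214 && (
  let v215 := add v214 v0; ok v215 && (
  let v216 := mul v101 v212; ok v216 && (
  let v217 := scale ⟨2199023255552, 0, 0, 0⟩ v216; ok v217 && (
  let v218 := add v215 v217; ok v218 && (
  let v219 := scale ⟨4398046511104, 0, 0, 0⟩ v103; ok v219 && (
  let v220 := sub v218 v219; ok v220 && (
  let v221 := inv v213; ok v221 && (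
  let v222 := mul v220 v221; ok v222 && (
  let v223 := add v222 v213; ok v223 && (
  let v224 := mul v101 v196; ok v224 && (
  let v225 := scale ⟨549755813888, 0, 0, 0⟩ v224; ok v225 && (
  let v226 := mul v225 v223; ok v226 && (
  let v227 := sub v220 v226; ok v227 && (
  isPos 4 v220 && (
  isPos 4 v227 && (
  let v228 := sub v0 v101; ok v228 && (
  let v229 := mul v228 v213; ok v229 && (
  let v230 := scale ⟨2199023255552, 0, 0, 0⟩ v103; ok v230 && (
  let v231 := add v229 v230; ok v231 && (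
  let v232 := inv v227; ok v232 && (
  let v233 := mul v231 v232; ok v233 && (
  let v234 := scale ⟨549755813888, 0, 0, 0⟩ v233; ok v234 && (
  let v235 := add v234 v8; ok v235 && (
  let v236 := inv v235; ok v236 && (
  let v237 := mul v234 v236; ok v237 && (
  let v238 := mul v196 v237; ok v238 && (
  let v239 := mul v237 x0; ok v239 && (
  let v240 := add v11 v0; ok v240 && (
  let v241 := inv v240; ok v241 && (
  let v242 := mul v11 v241; ok v242 && (
  let v243 := scale ⟨2199023255552, 0, 0, 0⟩ v242; ok v243 && (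
  let v244 := sub v0 v243; ok v244 && (
  let v245 := sub v0 v11; ok v245 && (
  let v246 := mul x3 v241; ok v246 && (
  let v247 := mul v246 v244; ok v247 && (
  let v248 := add v24 v247; ok v248 && (
  let v249 := scale ⟨224412041216, 0, 0, 0⟩ v15; ok v249 && (
  let v250 := inv v38; ok v250 && (
  let v251 := mul v249 v250; ok v251 && (
  let v252 := scale ⟨4398046511104, 0, 0, 0⟩ x0; ok v252 && (
  let v253 := mul v0 v21; ok v253 && (
  let v254 := add v252 v253; ok v254 && (
  let v255 := scale ⟨549755813888, 0, 0, 0⟩ v254; ok v255 && (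
  let v256 := inv v255; ok v256 && (
  let v257 := mul v0 v256; ok v257 && (
  let v258 := mul x0 v256; ok v258 && (
  let v259 := mul v258 v24; ok v259 && (
  let v260 := mul v259 v251; ok v260 && (
  let v261 := mul v257 v24; ok v261 && (
  let v262 := mul v261 v251; ok v262 && (
  let v263 := sub v0 v262; ok v263 && (
  let v264 := inv v263; ok v264 && (
  let v265 := mul v183 v262; ok v265 && (
  let v266 := sub v0 v265; ok v266 && (
  let v267 := inv v266; ok v267 && (
  let v268 := scale ⟨2199023255552, 0, 0, 0⟩ v6; ok v268 && (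
  let v269 := add v268 v0; ok v269 && (
  let v270 := add v6 v0; ok v270 && (
  let v271 := scale ⟨3573412790272, 0, 0, 0⟩ v22; ok v271 && (
  let v272 := cst ⟨339302416384, 0, 0, 0⟩; ok v272 && (
  let v273 := add v271 v272; ok v273 && (
  let v274 := scale ⟨549755813888, 0, 0, 0⟩ v273; ok v274 && (
  let v275 := mul v11 v21; ok v275 && (
  let v276 := sub v0 v111; ok v276 && (
  let v277 := mul v11 v22; ok v277 && (
  let v278 := scale ⟨2199023255552, 0, 0, 0⟩ v277; ok v278 && (
  let v279 := sub v276 v278; ok v279 && (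
  let v280 := mul v275 v275; ok v280 && (
  let v281 := add v279 v280; ok v281 && (
  let v282 := add v281 v0; ok v282 && (
  let v283 := scale ⟨549755813888, 0, 0, 0⟩ v282; ok v283 && (
  let v284 := scale ⟨549755813888, 0, 0, 0⟩ v25; ok v284 && (
  let v285 := sub v15 v284; ok v285 && (
  let v286 := mul v112 v276; ok v286 && (
  let v287 := mul v286 v14; ok v287 && (
  let v288 := scale ⟨137438953472, 0, 0, 0⟩ v287; ok v288 && (
  let v289 := add v285 v288; ok v289 && (
  let v290 := mul v283 v289; ok v290 && (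
  let v291 := cst ⟨1, 0, 0, 0⟩; ok v291 && (
  let v292 := cst ⟨12, 0, 0, 0⟩; ok v292 && (
  let v293 := mul v128 v291; ok v293 && (
  let v294 := sub v292 v293; ok v294 && (
  let v295 := cst ⟨2296, 0, 0, 0⟩; ok v295 && (
  let v296 := mul v128 v294; ok v296 && (
  let v297 := sub v295 v296; ok v297 && (
  let v298 := cst ⟨302995, 0, 0, 0⟩; ok v298 && (
  let v299 := mul v128 v297; ok v299 && (
  let v300 := sub v298 v299; ok v300 && (
  let v301 := cst ⟨27269634, 0, 0, 0⟩; ok v301 && (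
  let v302 := mul v128 v300; ok v302 && (
  let v303 := sub v301 v302; ok v303 && (
  let v304 := cst ⟨1527099483, 0, 0, 0⟩; ok v304 && (
  let v305 := mul v128 v303; ok v305 && (
  let v306 := sub v304 v305; ok v306 && (
  let v307 := cst ⟨45812984491, 0, 0, 0⟩; ok v307 && (
  let v308 := mul v128 v306; ok v308 && (
  let v309 := sub v307 v308; ok v309 && (
  let v310 := mul v128 v309; ok v310 && (
  let v311 := sub v8 v310; ok v311 && (
  let v312 := mul v128 v311; ok v312 && (
  let v313 := sub v0 v312; ok v313 && (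
  let v314 := mul v128 v6; ok v314 && (
  let v315 := mul v314 v314; ok v315 && (
  let v316 := scale ⟨369367187456, 0, 0, 0⟩ v315; ok v316 && (
  let v317 := add v313 v316; ok v317 && (
  let v318 := mul v96 v317; ok v318 && (
  let v319 := scale ⟨2199023255552, 0, 0, 0⟩ v318; ok v319 && (
  let v320 := add v153 v319; ok v320 && (
  let v321 := add v320 v168; ok v321 && (
  let v322 := cst ⟨8589934592, 0, 0, 0⟩; ok v322 && (
  let v323 := add v321 v322; ok v323 && (
  let v324 := log v323; ok v324 && (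
  let v325 := scale ⟨549755813888, 0, 0, 0⟩ v324; ok v325 && (
  let v326 := exp v325; ok v326 && (
  let v327 := mul v96 v176; ok v327 && (
  let v328 := add v326 v327; ok v328 && (
  let v329 := mul v328 v264; ok v329 && (
  let v330 := mul v183 v267; ok v330 && (
  let v331 := add v329 v330; ok v331 && (
  let v332 := mul v262 v331; ok v332 && (
  let v333 := add v186 v332; ok v333 && (
  let v334 := mul v333 v6; ok v334 && (
  let v335 := mul v328 v262; ok v335 && (
  let v336 := mul v335 v264; ok v336 && (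
  let v337 := add v186 v336; ok v337 && (
  let v338 := mul v337 v6; ok v338 && (
  let v339 := scale ⟨223338299392, 0, 0, 0⟩ v338; ok v339 && (
  let v340 := add v8 v339; ok v340 && (
  let v341 := mul v338 v340; ok v341 && (
  let v342 := add v0 v341; ok v342 && (
  let v343 := scale ⟨893353197568, 0, 0, 0⟩ v334; ok v343 && (
  let v344 := add v0 v343; ok v344 && (
  let v345 := mul v334 v344; ok v345 && (
  let v346 := add v0 v345; ok v346 && (
  let v347 := mul v243 v246; ok v347 && (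
  let v348 := mul v347 v269; ok v348 && (
  let v349 := mul v348 v346; ok v349 && (
  let v350 := mul v290 v342; ok v350 && (
  let v351 := add v52 v8; ok v351 && (
  let v352 := mul v349 v351; ok v352 && (
  let v353 := add v350 v352; ok v353 && (
  let v354 := add v52 v0; ok v354 && (
  let v355 := mul v349 v354; ok v355 && (
  let v356 := mul v270 v354; ok v356 && (
  let v357 := mul v356 v246; ok v357 && (
  let v358 := mul v357 v245; ok v358 && (
  let v359 := mul v353 v185; ok v359 && (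
  let v360 := mul v358 v274; ok v360 && (
  let v361 := add v359 v360; ok v361 && (
  let v362 := mul v7 v248; ok v362 && (
  let v363 := inv v52; ok v363 && (
  let v364 := mul v362 v363; ok v364 && (
  let v365 := scale ⟨549755813888, 0, 0, 0⟩ v364; ok v365 && (
  let v366 := mul v23 v365; ok v366 && (
  let v367 := mul v3 v361; ok v367 && (
  let v368 := add v366 v367; ok v368 && (
  let v369 := mul x0 v368; ok v369 && (
  let v370 := mul v353 v328; ok v370 && (
  let v371 := mul v370 v264; ok v371 && (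
  let v372 := mul v355 v183; ok v372 && (
  let v373 := mul v372 v267; ok v373 && (
  let v374 := add v371 v373; ok v374 && (
  let v375 := mul v23 v369; ok v375 && (
  let v376 := mul v260 v374; ok v376 && (
  let v377 := add v375 v376; ok v377 && (
  let v378 := mul v112 v377; ok v378 && (
  let v379 := mul v378 v363; ok v379 && (
  let v380 := sub v0 v379; ok v380 && (
  let v381 := inv v380; ok v381 && (
  let v382 := mul v377 v381; ok v382 && (
  let v383 := mul v3 v382; ok v383 && (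
  let v384 := mul v112 v382; ok v384 && (
  let v385 := mul v384 v363; ok v385 && (
  let v386 := sub v0 v385; ok v386 && (
  let v387 := mul v49 v386; ok v387 && (
  let v388 := sub v387 v383; ok v388 && (
  let v389 := inv v388; ok v389 && (
  let v390 := mul v383 v389; ok v390 && (
  let v391 := sub v52 v384; ok v391 && (
  let v392 := inv v391; ok v392 && (
  let v393 := mul v390 v237; ok v393 && (
  let v394 := scale ⟨549755813888, 0, 0, 0⟩ v393; ok v394 && (
  let v395 := sub v0 v394; ok v395 && (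
  let v396 := sub v0 v393; ok v396 && (
  let v397 := inv v396; ok v397 && (
  let v398 := mul v395 v397; ok v398 && (
  let v399 := mul v1 v392; ok v399 && (
  let v400 := mul v239 v389; ok v400 && (
  let v401 := mul v400 v398; ok v401 && (
  let v402 := add v399 v401; ok v402 && (
  let v403 := mul v7 v382; ok v403 && (
  let v404 := mul v392 v403; ok v404 && (
  let v405 := mul v237 v389; ok v405 && (
  let v406 := mul v405 v398; ok v406 && (
  let v407 := mul v406 v383; ok v407 && (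
  let v408 := add v404 v407; ok v408 && (
  let v409 := scale ⟨223338299392, 0, 0, 0⟩ v408; ok v409 && (
  let v410 := add v8 v409; ok v410 && (
  let v411 := mul v408 v410; ok v411 && (
  let v412 := add v0 v411; ok v412 && (
  let v413 := mul v402 v412; ok v413 && (
  let v414 := mul v413 v381; ok v414 && (
  let v415 := mul v414 v374; ok v415 && (
  let v416 := mul v261 v23; ok v416 && (
  let v417 := cst ⟨5497558138880, 0, 0, 0⟩; ok v417 && (
  let v418 := inv v417; ok v418 && (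
  let v419 := mul v53 v418; ok v419 && (
  let v420 := mul v240 v24; ok v420 && (
  let v421 := mul v420 v419; ok v421 && (
  let v422 := mul v188 v106; ok v422 && (
  let v423 := mul v22 v422; ok v423 && (
  let v424 := scale ⟨549755813888, 0, 0, 0⟩ v238; ok v424 && (
  let v425 := sub v0 v424; ok v425 && (
  let v426 := sub v0 v238; ok v426 && (
  let v427 := inv v426; ok v427 && (
  let v428 := mul v425 v427; ok v428 && (
  let v429 := mul v428 v196; ok v429 && (
  let v430 := mul v112 v122; ok v430 && (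
  let v431 := scale ⟨733097230336, 0, 0, 0⟩ v430; ok v431 && (
  let v432 := sub v0 v431; ok v432 && (
  let v433 := mul v122 v432; ok v433 && (
  let v434 := mul v89 v89; ok v434 && (
  let v435 := mul v12 v434; ok v435 && (
  let v436 := add v433 v435; ok v436 && (
  let v437 := mul v429 v239; ok v437 && (
  let v438 := add v436 v0; ok v438 && (
  let v439 := mul v437 v438; ok v439 && (
  let v440 := sub v436 v439; ok v440 && (
  let v441 := scale ⟨366548615168, 0, 0, 0⟩ v45; ok v441 && (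
  let v442 := sub v0 v441; ok v442 && (
  let v443 := mul v26 v442; ok v443 && (
  let v444 := add v440 v443; ok v444 && (
  let v445 := mul v422 v444; ok v445 && (
  let v446 := mul v423 v423; ok v446 && (
  let v447 := add v0 v446; ok v447 && (
  let v448 := inv v447; ok v448 && (
  let v449 := mul v445 v448; ok v449 && (
  let v450 := sub v0 v390; ok v450 && (
  let v451 := mul v450 v449; ok v451 && (
  let v452 := sub v0 v437; ok v452 && (
  isPos 4 v452 && (
  isPos 4 v449 && (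
  isPos 4 v450 && (
  let v453 := mul v414 v255; ok v453 && (
  let v454 := mul v453 v368; ok v454 && (
  let v455 := inv v24; ok v455 && (
  let v456 := mul v454 v455; ok v456 && (
  let v457 := mul x1 v451; ok v457 && (
  let v458 := neg v457; ok v458 && (
  let v459 := exp v458; ok v459 && (
  let v460 := mul v3 v421; ok v460 && (
  let v461 := add v0 v460; ok v461 && (
  let v462 := inv v461; ok v462 && (
  let v463 := mul v459 v462; ok v463 && (
  let v464 := mul v463 v20; ok v464 && (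
  let v465 := mul v9 v382; ok v465 && (
  let v466 := mul v465 v455; ok v466 && (
  let v467 := add v0 v466; ok v467 && (
  let v468 := mul v464 v467; ok v468 && (
  let v469 := mul v468 v392; ok v469 && (
  let v470 := mul v3 v415; ok v470 && (
  let v471 := mul v470 v262; ok v471 && (
  let v472 := mul v3 v416; ok v472 && (
  let v473 := mul v456 v472; ok v473 && (
  let v474 := add v471 v473; ok v474 && (
  let v475 := add v470 v456; ok v475 && (
  let v476 := add v0 v474; ok v476 && (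
  let v477 := mul v469 v476; ok v477 && (
  let v478 := add v475 v477; ok v478 && (
  let v479 := sub v0 v478; ok v479 && (
  let v480 := scale ⟨1073741824, 0, 0, 0⟩ v3; ok v480 && (
  let v481 := sub v479 v480; ok v481 && (
  let v482 := sub v20 v0; ok v482 && (
  let v483 := add v482 v56; ok v483 && (
  let v484 := scale ⟨2199023255552, 0, 0, 0⟩ v419; ok v484 && (
  let v485 := sub v483 v484; ok v485 && (
  let v486 := mul v240 v485; ok v486 && (
  let v487 := mul v482 v484; ok v487 && (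
  let v488 := add v487 v0; ok v488 && (
  let v489 := inv v488; ok v489 && (
  let v490 := mul v486 v489; ok v490 && (
  let v491 := mul v258 v374; ok v491 && (
  let v492 := scale ⟨549755813888, 0, 0, 0⟩ v251; ok v492 && (
  let v493 := add v17 v492; ok v493 && (
  let v494 := mul v491 v493; ok v494 && (
  let v495 := scale ⟨2199023255552, 0, 0, 0⟩ v494; ok v495 && (
  let v496 := add v369 v495; ok v496 && (
  let v497 := scale ⟨2199023255552, 0, 0, 0⟩ v496; ok v497 && (
  let v498 := mul v497 v381; ok v498 && (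
  let v499 := sub v24 v465; ok v499 && (
  let v500 := inv v499; ok v500 && (
  let v501 := mul v498 v500; ok v501 && (
  let v502 := sub v490 v501; ok v502 && (
  let v503 := mul v253 v253; ok v503 && (
  let v504 := cst ⟨14293651161088, 0, 0, 0⟩; ok v504 && (
  let v505 := cst ⟨10995116277760, 0, 0, 0⟩; ok v505 && (
  let v506 := inv v505; ok v506 && (
  let v507 := mul v504 v506; ok v507 && (
  let v508 := mul v503 v507; ok v508 && (
  let v509 := mul x0 x0; ok v509 && (
  let v510 := scale ⟨27487790694400, 0, 0, 0⟩ v509; ok v510 && (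
  let v511 := add v508 v510; ok v511 && (
  let v512 := mul v421 v462; ok v512 && (
  let v513 := sub v40 v3; ok v513 && (
  let v514 := sub v513 v39; ok v514 && (
  let v515 := mul v0 v1; ok v515 && (
  let v516 := mul v515 x0; ok v516 && (
  let v517 := mul v24 v374; ok v517 && (
  let v518 := mul v517 v256; ok v518 && (
  let v519 := add v361 v518; ok v519 && (
  let v520 := add v465 v56; ok v520 && (
  let v521 := mul v0 v520; ok v521 && (
  let v522 := mul v511 v512; ok v522 && (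
  let v523 := mul v381 v521; ok v523 && (
  let v524 := mul v516 v519; ok v524 && (
  let v525 := mul v523 v524; ok v525 && (
  let v526 := sub v522 v525; ok v526 && (
  let v527 := scale ⟨549755813888, 0, 0, 0⟩ v465; ok v527 && (
  let v528 := add v0 v527; ok v528 && (
  let v529 := mul v381 v528; ok v529 && (
  let v530 := mul v3 v23; ok v530 && (
  let v531 := mul v530 v248; ok v531 && (
  let v532 := mul v24 v52; ok v532 && (
  let v533 := inv v532; ok v533 && (
  let v534 := mul v531 v533; ok v534 && (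
  let v535 := mul v529 v534; ok v535 && (
  let v536 := sub v514 v535; ok v536 && (
  let v537 := mul v251 v526; ok v537 && (
  let v538 := sub v0 v251; ok v538 && (
  let v539 := mul v12 v536; ok v539 && (
  let v540 := mul v538 v539; ok v540 && (
  let v541 := mul v511 v540; ok v541 && (
  let v542 := add v537 v541; ok v542 && (
  isPos 4 v263 && (
  isPos 4 v266 && (
  let v543 := scale ⟨2199023255552, 0, 0, 0⟩ v378; ok v543 && (
  let v544 := sub v52 v543; ok v544 && (
  isPos 4 v544 && (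
  isPos 4 v388 && (
  let v545 := sub v8 v238; ok v545 && (
  isPos 4 v545 && (
  let v546 := scale ⟨687194767360, 0, 0, 0⟩ v0; ok v546 && (
  let v547 := sub v546 v338; ok v547 && (
  isPos 4 v547 && (
  let v548 := scale ⟨377957122048, 0, 0, 0⟩ v0; ok v548 && (
  let v549 := sub v548 v334; ok v549 && (
  isPos 4 v549 && (
  isPos 4 v499 && (
  isPos 4 v396 && (
  let v550 := sub v546 v408; ok v550 && (
  isPos 4 v550 && (
  isPos 4 v502 && (
  isPos 4 v481 && (
  isPos 4 v542 && (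
  isPos 4 v536 && (
  true))))))))))))))))))))))))))))))))))))))))))))))))))))))))))))))))))))))))))))))))))))))))))))))))))))))))))))))))))))))))))))))))))))))))))))))))))))))))))))))))))))))))))))))))))))))))))))))))))))))))))))))))))))))))))))))))))))))))))))))))))))))))))))))))))))))))))))))))))))))))))))))))))))))))))))))))))))))))))))))))))))))))))))))))))))))))))))))))))))))))))))))))))))))))))))))))))))))))))))))))))))))))))))))))))))))))))))))))))))))))))))))))))))))))))))))))))))))))))))))))))))))))))))))))))))))))))))))))))))))))))))))))))))))))))))))))))))))))))))))))))))))))))))))))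
  | _ => false

set_option maxRecDepth 1000000 in
theorem chk2_eq (O : Ops) (m : List O.α)
    (h : chk2 O.cst O.add O.sub O.mul O.scale O.neg O.inv O.exp O.log O.ok O.isPos O.isLt m = true) :
    runG O 4 prog2 m = true := by
  match m, h with
  | [x0, x1, x2, x3], h => exact h

def chkB2 : List opsE.α → Bool :=
  chk2 opsE.cst opsE.add opsE.sub opsE.mul opsE.scale opsE.neg opsE.inv opsE.exp opsE.log opsE.ok opsE.isPos opsE.isLt

theorem chkB2_eq (m : List opsE.α) (h : chkB2 m = true) : runG opsE 4 prog2 m = true :=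
  chk2_eq opsE m h

def prog3 : List Op := [
  .const ⟨1099511627776, 0, 0, 0⟩,
  .mul 2 1,
  .mul 4 4,
  .mul 4 0,
  .mul 5 6,
  .mul 0 5,
  .mul 0 0,
  .mul 3 8,
  .const ⟨549755813888, 0, 0, 0⟩,
  .mul 5 7,
  .mul 0 13,
  .scale ⟨549755813888, 0, 0, 0⟩ 0,
  .mul 10 10,
  .mul 1 1,
  .sub 13 0,
  .inv 0,
  .mul 4 0,
  .scale ⟨2199023255552, 0, 0, 0⟩ 0,
  .scale ⟨2199023255552, 0, 0, 0⟩ 2,
  .sub 0 18,
  .add 0 2,
  .mul 24 5,
  .mul 20 0,
  .sub 22 0,
  .add 23 1,
  .mul 21 12,
  .mul 4 4,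
  .scale ⟨10774999203840, 0, 0, 0⟩ 15,
  .scale ⟨45768245248, 0, 0, 0⟩ 0,
  .const ⟨183207198720, 0, 0, 0⟩,
  .add 1 0,
  .mul 3 0,
  .add 23 0,
  .mul 5 0,
  .add 33 0,
  .mul 7 0,
  .scale ⟨549755813888, 0, 0, 0⟩ 0,
  .add 36 0,
  .mul 3 0,
  .mul 21 16,
  .scale ⟨2199023255552, 0, 0, 0⟩ 20,
  .add 1 0,
  .add 0 38,
  .mul 17 0,
  .add 0 43,
  .mul 27 27,
  .scale ⟨2199023255552, 0, 0, 0⟩ 0,
  .add 0 46,
  .mul 28 5,
  .sub 0 48,
  .log 5,
  .scale ⟨549755813888, 0, 0, 0⟩ 0,
  .exp 0,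
  .const ⟨3298534883328, 0, 0, 0⟩,
  .inv 0,
  .mul 54 0,
  .const ⟨2199023255552, 0, 0, 0⟩,
  .add 13 0,
  .inv 0,
  .mul 15 0,
  .mul 0 0,
  .sub 60 1,
  .mul 1 6,
  .add 62 0,
  .mul 2 0,
  .mul 4 4,
  .scale ⟨219915747328, 0, 0, 0⟩ 0,
  .mul 24 2,
  .scale ⟨549755813888, 0, 0, 0⟩ 0,
  .mul 26 2,
  .scale ⟨549755813888, 0, 0, 0⟩ 0,
  .add 2 0,
  .mul 52 22,
  .scale ⟨4398046511104, 0, 0, 0⟩ 0,
  .mul 54 48,
  .mul 0 25,
  .scale ⟨4398046511104, 0, 0, 0⟩ 0,
  .add 0 20,
  .inv 0,
  .mul 2 0,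
  .mul 0 0,
  .sub 80 1,
  .mul 1 26,
  .add 82 0,
  .mul 2 0,
  .mul 4 4,
  .scale ⟨219915747328, 0, 0, 0⟩ 0,
  .mul 13 2,
  .scale ⟨549755813888, 0, 0, 0⟩ 0,
  .sub 0 17,
  .mul 16 3,
  .scale ⟨549755813888, 0, 0, 0⟩ 0,
  .add 0 21,
  .add 3 0,
  .mul 95 25,
  .neg 0,
  .exp 0,
  .mul 98 26,
  .mul 1 0,
  .mul 76 81,
  .add 80 0,
  .inv 0,
  .mul 77 0,
  .mul 79 99,
  .mul 0 1,
  .sub 104 92,
  .mul 79 0,
  .mul 97 97,
  .sub 107 81,
  .mul 3 0,
  .mul 84 60,
  .inv 66,
  .mul 1 0,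
  .add 93 0,
  .mul 69 0,
  .mul 0 0,
  .inv 0,
  .mul 7 0,
  .mul 13 117,
  .scale ⟨549755813888, 0, 0, 0⟩ 0,
  .sub 119 0,
  .sub 120 2,
  .inv 0,
  .mul 2 0,
  .add 5 123,
  .mul 28 0,
  .mul 23 2,
  .mul 0 126,
  .mul 9 4,
  .pos 7,
  .mul 105 104,
  .add 110 126,
  .mul 108 111,
  .mul 0 114,
  .scale ⟨2199023255552, 0, 0, 0⟩ 0,
  .add 86 0,
  .mul 4 0,
  .inv 0,
  .mul 7 0,
  .mul 134 0,
  .pos 49,
  .mul 0 138,
  .mul 139 140,
  .add 129 140,
  .inv 0,
  .mul 131 0,
  .scale ⟨2199023255552, 0, 0, 0⟩ 0,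
  .sub 144 0,
  .sub 145 134,
  .mul 150 4,
  .mul 0 2,
  .add 124 0,
  .scale ⟨224412041216, 0, 0, 0⟩ 134,
  .inv 112,
  .mul 1 0,
  .scale ⟨4398046511104, 0, 0, 0⟩ 153,
  .mul 153 132,
  .add 1 0,
  .scale ⟨549755813888, 0, 0, 0⟩ 0,
  .inv 0,
  .mul 157 0,
  .mul 159 1,
  .mul 0 135,
  .mul 0 8,
  .mul 3 137,
  .mul 0 10,
  .sub 163 0,
  .inv 0,
  .mul 40 2,
  .sub 166 0,
  .inv 0,
  .scale ⟨2199023255552, 0, 0, 0⟩ 162,
  .add 0 169,
  .add 164 170,
  .scale ⟨3573412790272, 0, 0, 0⟩ 149,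
  .const ⟨339302416384, 0, 0, 0⟩,
  .add 1 0,
  .scale ⟨549755813888, 0, 0, 0⟩ 0,
  .mul 164 154,
  .sub 176 70,
  .mul 166 155,
  .scale ⟨2199023255552, 0, 0, 0⟩ 0,
  .sub 2 0,
  .mul 4 4,
  .add 1 0,
  .add 0 182,
  .scale ⟨549755813888, 0, 0, 0⟩ 0,
  .scale ⟨549755813888, 0, 0, 0⟩ 159,
  .sub 170 0,
  .mul 79 9,
  .mul 0 173,
  .scale ⟨137438953472, 0, 0, 0⟩ 0,
  .add 3 0,
  .mul 6 0,
  .add 66 191,
  .mul 0 27,
  .mul 68 25,
  .add 1 0,
  .mul 32 0,
  .add 68 0,
  .mul 0 191,
  .mul 6 35,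
  .mul 0 34,
  .add 72 0,
  .mul 0 195,
  .scale ⟨223338299392, 0, 0, 0⟩ 0,
  .add 195 0,
  .mul 2 0,
  .add 205 0,
  .scale ⟨893353197568, 0, 0, 0⟩ 8,
  .add 207 0,
  .mul 10 0,
  .add 209 0,
  .mul 66 63,
  .mul 0 41,
  .mul 0 2,
  .mul 22 7,
  .add 162 206,
  .mul 2 0,
  .add 2 0,
  .add 165 217,
  .mul 5 0,
  .mul 48 1,
  .mul 0 73,
  .mul 0 75,
  .mul 5 95,
  .mul 1 48,
  .add 1 0,
  .mul 218 76,
  .inv 174,
  .mul 1 0,
  .scale ⟨549755813888, 0, 0, 0⟩ 0,
  .mul 206 0,
  .mul 227 5,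
  .add 1 0,
  .mul 233 0,
  .mul 16 41,
  .mul 0 69,
  .mul 16 110,
  .mul 0 68,
  .add 2 0,
  .mul 215 5,
  .mul 78 1,
  .add 1 0,
  .mul 134 0,
  .mul 0 15,
  .sub 243 0,
  .inv 0,
  .mul 4 0,
  .mul 243 0,
  .mul 140 1,
  .mul 0 21,
  .sub 249 0,
  .mul 201 0,
  .sub 0 4,
  .inv 0,
  .mul 6 0,
  .sub 202 6,
  .inv 0,
  .mul 2 256,
  .scale ⟨549755813888, 0, 0, 0⟩ 0,
  .sub 258 0,
  .sub 259 2,
  .inv 0,
  .mul 2 0,
  .mul 261 6,
  .mul 123 10,
  .mul 0 2,
  .add 2 0,
  .mul 259 20,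
  .mul 11 0,
  .mul 268 15,
  .mul 0 7,
  .mul 0 23,
  .add 3 0,
  .scale ⟨223338299392, 0, 0, 0⟩ 0,
  .add 265 0,
  .mul 2 0,
  .add 275 0,
  .mul 10 0,
  .mul 0 32,
  .mul 0 40,
  .mul 117 256,
  .const ⟨5497558138880, 0, 0, 0⟩,
  .inv 0,
  .mul 229 0,
  .mul 142 259,
  .mul 0 1,
  .mul 155 184,
  .mul 264 0,
  .scale ⟨549755813888, 0, 0, 0⟩ 148,
  .sub 288 0,
  .sub 289 150,
  .inv 0,
  .mul 2 0,
  .mul 0 154,
  .mul 186 176,
  .scale ⟨733097230336, 0, 0, 0⟩ 0,
  .sub 295 0,
  .mul 179 0,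
  .mul 208 208,
  .mul 286 0,
  .add 2 0,
  .mul 7 160,
  .add 1 301,
  .mul 1 0,
  .sub 3 0,
  .scale ⟨366548615168, 0, 0, 0⟩ 259,
  .sub 305 0,
  .mul 280 0,
  .add 3 0,
  .mul 22 0,
  .mul 22 22,
  .add 310 0,
  .inv 0,
  .mul 3 0,
  .sub 313 59,
  .mul 0 1,
  .sub 315 14,
  .pos 0,
  .pos 3,
  .pos 2,
  .mul 38 160,
  .mul 0 85,
  .inv 294,
  .mul 1 0,
  .mul 322 5,
  .neg 0,
  .exp 0,
  .mul 320 38,
  .add 324 0,
  .inv 0,
  .mul 3 0,
  .mul 0 307,
  .mul 319 82,
  .mul 0 10,
  .add 330 0,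
  .mul 3 0,
  .mul 0 76,
  .mul 330 54,
  .mul 0 171,
  .mul 332 55,
  .mul 16 0,
  .add 2 0,
  .add 4 18,
  .add 339 1,
  .mul 7 0,
  .add 2 0,
  .sub 342 0,
  .scale ⟨1073741824, 0, 0, 0⟩ 340,
  .sub 1 0,
  .sub 325 345,
  .add 0 290,
  .scale ⟨2199023255552, 0, 0, 0⟩ 64,
  .sub 1 0,
  .mul 208 0,
  .mul 4 2,
  .add 0 351,
  .inv 0,
  .mul 3 0,
  .mul 195 116,
  .scale ⟨549755813888, 0, 0, 0⟩ 203,
  .add 339 0,
  .mul 2 0,
  .scale ⟨2199023255552, 0, 0, 0⟩ 0,
  .add 126 0,
  .scale ⟨2199023255552, 0, 0, 0⟩ 0,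
  .mul 0 116,
  .sub 338 33,
  .inv 0,
  .mul 2 0,
  .sub 11 0,
  .mul 212 212,
  .const ⟨14293651161088, 0, 0, 0⟩,
  .const ⟨10995116277760, 0, 0, 0⟩,
  .inv 0,
  .mul 2 0,
  .mul 4 0,
  .mul 373 373,
  .scale ⟨27487790694400, 0, 0, 0⟩ 0,
  .add 2 0,
  .mul 90 49,
  .sub 336 373,
  .sub 0 338,
  .mul 378 377,
  .mul 0 380,
  .mul 356 142,
  .mul 0 224,
  .add 157 0,
  .add 54 327,
  .mul 384 0,
  .mul 10 9,
  .mul 141 1,
  .mul 7 4,
  .mul 1 0,
  .sub 3 0,
  .scale ⟨549755813888, 0, 0, 0⟩ 61,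
  .add 391 0,
  .mul 147 0,
  .mul 390 370,
  .mul 0 245,
  .mul 371 343,
  .inv 0,
  .mul 2 0,
  .mul 5 0,
  .sub 21 0,
  .mul 248 10,
  .sub 401 249,
  .mul 390 2,
  .mul 1 0,
  .mul 29 0,
  .add 4 0,
  .pos 242,
  .pos 239,
  .scale ⟨2199023255552, 0, 0, 0⟩ 164,
  .sub 355 0,
  .pos 0,
  .pos 156,
  .sub 400 269,
  .pos 0,
  .scale ⟨687194767360, 0, 0, 0⟩ 409,
  .sub 0 208,
  .pos 0,
  .scale ⟨377957122048, 0, 0, 0⟩ 411,
  .sub 0 214,
  .pos 0,
  .pos 50,
  .pos 153,
  .sub 3 141,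
  .pos 0,
  .pos 48,
  .pos 69,
  .pos 8,
  .pos 14]

def chk3 {α : Type} (cst : Z → α) (add sub mul : α → α → α) (scale : Z → α → α)
    (neg inv exp log : α → α) (ok : α → Bool) (isPos : Nat → α → Bool) (isLt : α → Nat → Bool) :
    List α → Bool
  | [x0, x1, x2, x3] =>
  let v0 := cst ⟨1099511627776, 0, 0, 0⟩; ok v0 && (
  let v1 := mul x1 x0; ok v1 && (
  let v2 := mul x2 x2; ok v2 && (
  let v3 := mul x1 v2; ok v3 && (
  let v4 := mul x1 x2; ok v4 && (
  let v5 := mul v4 x0; ok v5 && (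
  let v6 := mul v5 v5; ok v6 && (
  let v7 := mul v3 x1; ok v7 && (
  let v8 := cst ⟨549755813888, 0, 0, 0⟩; ok v8 && (
  let v9 := mul v3 v1; ok v9 && (
  let v10 := mul v9 x3; ok v10 && (
  let v11 := scale ⟨549755813888, 0, 0, 0⟩ v10; ok v11 && (
  let v12 := mul v1 v1; ok v12 && (
  let v13 := mul v11 v11; ok v13 && (
  let v14 := sub v0 v13; ok v14 && (
  let v15 := inv v14; ok v15 && (
  let v16 := mul v11 v15; ok v16 && (
  let v17 := scale ⟨2199023255552, 0, 0, 0⟩ v16; ok v17 && (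
  let v18 := scale ⟨2199023255552, 0, 0, 0⟩ v15; ok v18 && (
  let v19 := sub v18 v0; ok v19 && (
  let v20 := add v19 v17; ok v20 && (
  let v21 := mul x3 v15; ok v21 && (
  let v22 := mul v1 v21; ok v22 && (
  let v23 := sub v0 v22; ok v23 && (
  let v24 := add v0 v22; ok v24 && (
  let v25 := mul v3 v12; ok v25 && (
  let v26 := mul v21 v21; ok v26 && (
  let v27 := scale ⟨10774999203840, 0, 0, 0⟩ v11; ok v27 && (
  let v28 := scale ⟨45768245248, 0, 0, 0⟩ v27; ok v28 && (
  let v29 := cst ⟨183207198720, 0, 0, 0⟩; ok v29 && (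
  let v30 := add v28 v29; ok v30 && (
  let v31 := mul v27 v30; ok v31 && (
  let v32 := add v8 v31; ok v32 && (
  let v33 := mul v27 v32; ok v33 && (
  let v34 := add v0 v33; ok v34 && (
  let v35 := mul v27 v34; ok v35 && (
  let v36 := scale ⟨549755813888, 0, 0, 0⟩ v35; ok v36 && (
  let v37 := add v0 v36; ok v37 && (
  let v38 := mul v34 v37; ok v38 && (
  let v39 := mul v17 v22; ok v39 && (
  let v40 := scale ⟨2199023255552, 0, 0, 0⟩ v19; ok v40 && (
  let v41 := add v39 v40; ok v41 && (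
  let v42 := add v41 v3; ok v42 && (
  let v43 := mul v25 v42; ok v43 && (
  let v44 := add v43 v0; ok v44 && (
  let v45 := mul v17 v17; ok v45 && (
  let v46 := scale ⟨2199023255552, 0, 0, 0⟩ v45; ok v46 && (
  let v47 := add v46 v0; ok v47 && (
  let v48 := mul v19 v42; ok v48 && (
  let v49 := sub v48 v0; ok v49 && (
  let v50 := log v44; ok v50 && (
  let v51 := scale ⟨549755813888, 0, 0, 0⟩ v50; ok v51 && (
  let v52 := exp v51; ok v52 && (
  let v53 := cst ⟨3298534883328, 0, 0, 0⟩; ok v53 && (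
  let v54 := inv v53; ok v54 && (
  let v55 := mul v0 v54; ok v55 && (
  let v56 := cst ⟨2199023255552, 0, 0, 0⟩; ok v56 && (
  let v57 := add v43 v56; ok v57 && (
  let v58 := inv v57; ok v58 && (
  let v59 := mul v43 v58; ok v59 && (
  let v60 := mul v59 v59; ok v60 && (
  let v61 := sub v0 v59; ok v61 && (
  let v62 := mul v60 v55; ok v62 && (
  let v63 := add v0 v62; ok v63 && (
  let v64 := mul v61 v63; ok v64 && (
  let v65 := mul v60 v60; ok v65 && (
  let v66 := scale ⟨219915747328, 0, 0, 0⟩ v65; ok v66 && (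
  let v67 := mul v42 v64; ok v67 && (
  let v68 := scale ⟨549755813888, 0, 0, 0⟩ v67; ok v68 && (
  let v69 := mul v42 v66; ok v69 && (
  let v70 := scale ⟨549755813888, 0, 0, 0⟩ v69; ok v70 && (
  let v71 := add v68 v70; ok v71 && (
  let v72 := mul v19 v49; ok v72 && (
  let v73 := scale ⟨4398046511104, 0, 0, 0⟩ v72; ok v73 && (
  let v74 := mul v19 v25; ok v74 && (
  let v75 := mul v74 v49; ok v75 && (
  let v76 := scale ⟨4398046511104, 0, 0, 0⟩ v75; ok v76 && (
  let v77 := add v76 v56; ok v77 && (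
  let v78 := inv v77; ok v78 && (
  let v79 := mul v76 v78; ok v79 && (
  let v80 := mul v79 v79; ok v80 && (
  let v81 := sub v0 v79; ok v81 && (
  let v82 := mul v80 v55; ok v82 && (
  let v83 := add v0 v82; ok v83 && (
  let v84 := mul v81 v83; ok v84 && (
  let v85 := mul v80 v80; ok v85 && (
  let v86 := scale ⟨219915747328, 0, 0, 0⟩ v85; ok v86 && (
  let v87 := mul v73 v84; ok v87 && (
  let v88 := scale ⟨549755813888, 0, 0, 0⟩ v87; ok v88 && (
  let v89 := sub v88 v71; ok v89 && (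
  let v90 := mul v73 v86; ok v90 && (
  let v91 := scale ⟨549755813888, 0, 0, 0⟩ v90; ok v91 && (
  let v92 := add v91 v70; ok v92 && (
  let v93 := add v89 v92; ok v93 && (
  let v94 := mul x1 v68; ok v94 && (
  let v95 := neg v94; ok v95 && (
  let v96 := exp v95; ok v96 && (
  let v97 := mul x1 v70; ok v97 && (
  let v98 := mul v96 v97; ok v98 && (
  let v99 := mul v22 v17; ok v99 && (
  let v100 := add v19 v99; ok v100 && (
  let v101 := inv v100; ok v101 && (
  let v102 := mul v24 v101; ok v102 && (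
  let v103 := mul v23 v3; ok v103 && (
  let v104 := mul v103 v102; ok v104 && (
  let v105 := sub v0 v12; ok v105 && (
  let v106 := mul v26 v105; ok v106 && (
  let v107 := mul v9 v9; ok v107 && (
  let v108 := sub v0 v26; ok v108 && (
  let v109 := mul v105 v108; ok v109 && (
  let v110 := mul v25 v49; ok v110 && (
  let v111 := inv v44; ok v111 && (
  let v112 := mul v110 v111; ok v112 && (
  let v113 := add v19 v112; ok v113 && (
  let v114 := mul v44 v113; ok v114 && (
  let v115 := mul v114 v114; ok v115 && (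
  let v116 := inv v115; ok v116 && (
  let v117 := mul v109 v116; ok v117 && (
  let v118 := mul v104 v0; ok v118 && (
  let v119 := scale ⟨549755813888, 0, 0, 0⟩ v118; ok v119 && (
  let v120 := sub v0 v119; ok v120 && (
  let v121 := sub v0 v118; ok v121 && (
  let v122 := inv v121; ok v122 && (
  let v123 := mul v120 v122; ok v123 && (
  let v124 := add v118 v0; ok v124 && (
  let v125 := mul v96 v124; ok v125 && (
  let v126 := mul v102 v123; ok v126 && (
  let v127 := mul v126 v0; ok v127 && (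
  let v128 := mul v118 v123; ok v128 && (
  isPos 4 v121 && (
  let v129 := mul v23 v24; ok v129 && (
  let v130 := add v19 v3; ok v130 && (
  let v131 := mul v22 v19; ok v131 && (
  let v132 := mul v131 v17; ok v132 && (
  let v133 := scale ⟨2199023255552, 0, 0, 0⟩ v132; ok v133 && (
  let v134 := add v47 v133; ok v134 && (
  let v135 := mul v130 v134; ok v135 && (
  let v136 := inv v135; ok v136 && (
  let v137 := mul v129 v136; ok v137 && (
  let v138 := mul v3 v137; ok v138 && (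
  isPos 4 v89 && (
  let v139 := mul v138 v0; ok v139 && (
  let v140 := mul v0 x0; ok v140 && (
  let v141 := add v11 v0; ok v141 && (
  let v142 := inv v141; ok v142 && (
  let v143 := mul v11 v142; ok v143 && (
  let v144 := scale ⟨2199023255552, 0, 0, 0⟩ v143; ok v144 && (
  let v145 := sub v0 v144; ok v145 && (
  let v146 := sub v0 v11; ok v146 && (
  let v147 := mul x3 v142; ok v147 && (
  let v148 := mul v147 v145; ok v148 && (
  let v149 := add v24 v148; ok v149 && (
  let v150 := scale ⟨224412041216, 0, 0, 0⟩ v15; ok v150 && (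
  let v151 := inv v38; ok v151 && (
  let v152 := mul v150 v151; ok v152 && (
  let v153 := scale ⟨4398046511104, 0, 0, 0⟩ x0; ok v153 && (
  let v154 := mul v0 v21; ok v154 && (
  let v155 := add v153 v154; ok v155 && (
  let v156 := scale ⟨549755813888, 0, 0, 0⟩ v155; ok v156 && (
  let v157 := inv v156; ok v157 && (
  let v158 := mul v0 v157; ok v158 && (
  let v159 := mul x0 v157; ok v159 && (
  let v160 := mul v159 v24; ok v160 && (
  let v161 := mul v160 v152; ok v161 && (
  let v162 := mul v158 v24; ok v162 && (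
  let v163 := mul v162 v152; ok v163 && (
  let v164 := sub v0 v163; ok v164 && (
  let v165 := inv v164; ok v165 && (
  let v166 := mul v125 v163; ok v166 && (
  let v167 := sub v0 v166; ok v167 && (
  let v168 := inv v167; ok v168 && (
  let v169 := scale ⟨2199023255552, 0, 0, 0⟩ v6; ok v169 && (
  let v170 := add v169 v0; ok v170 && (
  let v171 := add v6 v0; ok v171 && (
  let v172 := scale ⟨3573412790272, 0, 0, 0⟩ v22; ok v172 && (
  let v173 := cst ⟨339302416384, 0, 0, 0⟩; ok v173 && (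
  let v174 := add v172 v173; ok v174 && (
  let v175 := scale ⟨549755813888, 0, 0, 0⟩ v174; ok v175 && (
  let v176 := mul v11 v21; ok v176 && (
  let v177 := sub v0 v106; ok v177 && (
  let v178 := mul v11 v22; ok v178 && (
  let v179 := scale ⟨2199023255552, 0, 0, 0⟩ v178; ok v179 && (
  let v180 := sub v177 v179; ok v180 && (
  let v181 := mul v176 v176; ok v181 && (
  let v182 := add v180 v181; ok v182 && (
  let v183 := add v182 v0; ok v183 && (
  let v184 := scale ⟨549755813888, 0, 0, 0⟩ v183; ok v184 && (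
  let v185 := scale ⟨549755813888, 0, 0, 0⟩ v25; ok v185 && (
  let v186 := sub v15 v185; ok v186 && (
  let v187 := mul v107 v177; ok v187 && (
  let v188 := mul v187 v14; ok v188 && (
  let v189 := scale ⟨137438953472, 0, 0, 0⟩ v188; ok v189 && (
  let v190 := add v186 v189; ok v190 && (
  let v191 := mul v184 v190; ok v191 && (
  let v192 := add v125 v0; ok v192 && (
  let v193 := mul v192 v165; ok v193 && (
  let v194 := mul v125 v168; ok v194 && (
  let v195 := add v193 v194; ok v195 && (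
  let v196 := mul v163 v195; ok v196 && (
  let v197 := add v128 v196; ok v197 && (
  let v198 := mul v197 v6; ok v198 && (
  let v199 := mul v192 v163; ok v199 && (
  let v200 := mul v199 v165; ok v200 && (
  let v201 := add v128 v200; ok v201 && (
  let v202 := mul v201 v6; ok v202 && (
  let v203 := scale ⟨223338299392, 0, 0, 0⟩ v202; ok v203 && (
  let v204 := add v8 v203; ok v204 && (
  let v205 := mul v202 v204; ok v205 && (
  let v206 := add v0 v205; ok v206 && (
  let v207 := scale ⟨893353197568, 0, 0, 0⟩ v198; ok v207 && (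
  let v208 := add v0 v207; ok v208 && (
  let v209 := mul v198 v208; ok v209 && (
  let v210 := add v0 v209; ok v210 && (
  let v211 := mul v144 v147; ok v211 && (
  let v212 := mul v211 v170; ok v212 && (
  let v213 := mul v212 v210; ok v213 && (
  let v214 := mul v191 v206; ok v214 && (
  let v215 := add v52 v8; ok v215 && (
  let v216 := mul v213 v215; ok v216 && (
  let v217 := add v214 v216; ok v217 && (
  let v218 := add v52 v0; ok v218 && (
  let v219 := mul v213 v218; ok v219 && (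
  let v220 := mul v171 v218; ok v220 && (
  let v221 := mul v220 v147; ok v221 && (
  let v222 := mul v221 v146; ok v222 && (
  let v223 := mul v217 v127; ok v223 && (
  let v224 := mul v222 v175; ok v224 && (
  let v225 := add v223 v224; ok v225 && (
  let v226 := mul v7 v149; ok v226 && (
  let v227 := inv v52; ok v227 && (
  let v228 := mul v226 v227; ok v228 && (
  let v229 := scale ⟨549755813888, 0, 0, 0⟩ v228; ok v229 && (
  let v230 := mul v23 v229; ok v230 && (
  let v231 := mul v3 v225; ok v231 && (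
  let v232 := add v230 v231; ok v232 && (
  let v233 := mul x0 v232; ok v233 && (
  let v234 := mul v217 v192; ok v234 && (
  let v235 := mul v234 v165; ok v235 && (
  let v236 := mul v219 v125; ok v236 && (
  let v237 := mul v236 v168; ok v237 && (
  let v238 := add v235 v237; ok v238 && (
  let v239 := mul v23 v233; ok v239 && (
  let v240 := mul v161 v238; ok v240 && (
  let v241 := add v239 v240; ok v241 && (
  let v242 := mul v107 v241; ok v242 && (
  let v243 := mul v242 v227; ok v243 && (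
  let v244 := sub v0 v243; ok v244 && (
  let v245 := inv v244; ok v245 && (
  let v246 := mul v241 v245; ok v246 && (
  let v247 := mul v3 v246; ok v247 && (
  let v248 := mul v107 v246; ok v248 && (
  let v249 := mul v248 v227; ok v249 && (
  let v250 := sub v0 v249; ok v250 && (
  let v251 := mul v49 v250; ok v251 && (
  let v252 := sub v251 v247; ok v252 && (
  let v253 := inv v252; ok v253 && (
  let v254 := mul v247 v253; ok v254 && (
  let v255 := sub v52 v248; ok v255 && (
  let v256 := inv v255; ok v256 && (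
  let v257 := mul v254 v0; ok v257 && (
  let v258 := scale ⟨549755813888, 0, 0, 0⟩ v257; ok v258 && (
  let v259 := sub v0 v258; ok v259 && (
  let v260 := sub v0 v257; ok v260 && (
  let v261 := inv v260; ok v261 && (
  let v262 := mul v259 v261; ok v262 && (
  let v263 := mul v1 v256; ok v263 && (
  let v264 := mul v140 v253; ok v264 && (
  let v265 := mul v264 v262; ok v265 && (
  let v266 := add v263 v265; ok v266 && (
  let v267 := mul v7 v246; ok v267 && (
  let v268 := mul v256 v267; ok v268 && (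
  let v269 := mul v0 v253; ok v269 && (
  let v270 := mul v269 v262; ok v270 && (
  let v271 := mul v270 v247; ok v271 && (
  let v272 := add v268 v271; ok v272 && (
  let v273 := scale ⟨223338299392, 0, 0, 0⟩ v272; ok v273 && (
  let v274 := add v8 v273; ok v274 && (
  let v275 := mul v272 v274; ok v275 && (
  let v276 := add v0 v275; ok v276 && (
  let v277 := mul v266 v276; ok v277 && (
  let v278 := mul v277 v245; ok v278 && (
  let v279 := mul v278 v238; ok v279 && (
  let v280 := mul v162 v23; ok v280 && (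
  let v281 := cst ⟨5497558138880, 0, 0, 0⟩; ok v281 && (
  let v282 := inv v281; ok v282 && (
  let v283 := mul v53 v282; ok v283 && (
  let v284 := mul v141 v24; ok v284 && (
  let v285 := mul v284 v283; ok v285 && (
  let v286 := mul v130 v101; ok v286 && (
  let v287 := mul v22 v286; ok v287 && (
  let v288 := scale ⟨549755813888, 0, 0, 0⟩ v139; ok v288 && (
  let v289 := sub v0 v288; ok v289 && (
  let v290 := sub v0 v139; ok v290 && (
  let v291 := inv v290; ok v291 && (
  let v292 := mul v289 v291; ok v292 && (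
  let v293 := mul v292 v138; ok v293 && (
  let v294 := mul v107 v117; ok v294 && (
  let v295 := scale ⟨733097230336, 0, 0, 0⟩ v294; ok v295 && (
  let v296 := sub v0 v295; ok v296 && (
  let v297 := mul v117 v296; ok v297 && (
  let v298 := mul v89 v89; ok v298 && (
  let v299 := mul v12 v298; ok v299 && (
  let v300 := add v297 v299; ok v300 && (
  let v301 := mul v293 v140; ok v301 && (
  let v302 := add v300 v0; ok v302 && (
  let v303 := mul v301 v302; ok v303 && (
  let v304 := sub v300 v303; ok v304 && (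
  let v305 := scale ⟨366548615168, 0, 0, 0⟩ v45; ok v305 && (
  let v306 := sub v0 v305; ok v306 && (
  let v307 := mul v26 v306; ok v307 && (
  let v308 := add v304 v307; ok v308 && (
  let v309 := mul v286 v308; ok v309 && (
  let v310 := mul v287 v287; ok v310 && (
  let v311 := add v0 v310; ok v311 && (
  let v312 := inv v311; ok v312 && (
  let v313 := mul v309 v312; ok v313 && (
  let v314 := sub v0 v254; ok v314 && (
  let v315 := mul v314 v313; ok v315 && (
  let v316 := sub v0 v301; ok v316 && (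
  isPos 4 v316 && (
  isPos 4 v313 && (
  isPos 4 v314 && (
  let v317 := mul v278 v156; ok v317 && (
  let v318 := mul v317 v232; ok v318 && (
  let v319 := inv v24; ok v319 && (
  let v320 := mul v318 v319; ok v320 && (
  let v321 := mul x1 v315; ok v321 && (
  let v322 := neg v321; ok v322 && (
  let v323 := exp v322; ok v323 && (
  let v324 := mul v3 v285; ok v324 && (
  let v325 := add v0 v324; ok v325 && (
  let v326 := inv v325; ok v326 && (
  let v327 := mul v323 v326; ok v327 && (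
  let v328 := mul v327 v20; ok v328 && (
  let v329 := mul v9 v246; ok v329 && (
  let v330 := mul v329 v319; ok v330 && (
  let v331 := add v0 v330; ok v331 && (
  let v332 := mul v328 v331; ok v332 && (
  let v333 := mul v332 v256; ok v333 && (
  let v334 := mul v3 v279; ok v334 && (
  let v335 := mul v334 v163; ok v335 && (
  let v336 := mul v3 v280; ok v336 && (
  let v337 := mul v320 v336; ok v337 && (
  let v338 := add v335 v337; ok v338 && (
  let v339 := add v334 v320; ok v339 && (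
  let v340 := add v0 v338; ok v340 && (
  let v341 := mul v333 v340; ok v341 && (
  let v342 := add v339 v341; ok v342 && (
  let v343 := sub v0 v342; ok v343 && (
  let v344 := scale ⟨1073741824, 0, 0, 0⟩ v3; ok v344 && (
  let v345 := sub v343 v344; ok v345 && (
  let v346 := sub v20 v0; ok v346 && (
  let v347 := add v346 v56; ok v347 && (
  let v348 := scale ⟨2199023255552, 0, 0, 0⟩ v283; ok v348 && (
  let v349 := sub v347 v348; ok v349 && (
  let v350 := mul v141 v349; ok v350 && (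
  let v351 := mul v346 v348; ok v351 && (
  let v352 := add v351 v0; ok v352 && (
  let v353 := inv v352; ok v353 && (
  let v354 := mul v350 v353; ok v354 && (
  let v355 := mul v159 v238; ok v355 && (
  let v356 := scale ⟨549755813888, 0, 0, 0⟩ v152; ok v356 && (
  let v357 := add v17 v356; ok v357 && (
  let v358 := mul v355 v357; ok v358 && (
  let v359 := scale ⟨2199023255552, 0, 0, 0⟩ v358; ok v359 && (
  let v360 := add v233 v359; ok v360 && (
  let v361 := scale ⟨2199023255552, 0, 0, 0⟩ v360; ok v361 && (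
  let v362 := mul v361 v245; ok v362 && (
  let v363 := sub v24 v329; ok v363 && (
  let v364 := inv v363; ok v364 && (
  let v365 := mul v362 v364; ok v365 && (
  let v366 := sub v354 v365; ok v366 && (
  let v367 := mul v154 v154; ok v367 && (
  let v368 := cst ⟨14293651161088, 0, 0, 0⟩; ok v368 && (
  let v369 := cst ⟨10995116277760, 0, 0, 0⟩; ok v369 && (
  let v370 := inv v369; ok v370 && (
  let v371 := mul v368 v370; ok v371 && (
  let v372 := mul v367 v371; ok v372 && (
  let v373 := mul x0 x0; ok v373 && (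
  let v374 := scale ⟨27487790694400, 0, 0, 0⟩ v373; ok v374 && (
  let v375 := add v372 v374; ok v375 && (
  let v376 := mul v285 v326; ok v376 && (
  let v377 := sub v40 v3; ok v377 && (
  let v378 := sub v377 v39; ok v378 && (
  let v379 := mul v0 v1; ok v379 && (
  let v380 := mul v379 x0; ok v380 && (
  let v381 := mul v24 v238; ok v381 && (
  let v382 := mul v381 v157; ok v382 && (
  let v383 := add v225 v382; ok v383 && (
  let v384 := add v329 v56; ok v384 && (
  let v385 := mul v0 v384; ok v385 && (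
  let v386 := mul v375 v376; ok v386 && (
  let v387 := mul v245 v385; ok v387 && (
  let v388 := mul v380 v383; ok v388 && (
  let v389 := mul v387 v388; ok v389 && (
  let v390 := sub v386 v389; ok v390 && (
  let v391 := scale ⟨549755813888, 0, 0, 0⟩ v329; ok v391 && (
  let v392 := add v0 v391; ok v392 && (
  let v393 := mul v245 v392; ok v393 && (
  let v394 := mul v3 v23; ok v394 && (
  let v395 := mul v394 v149; ok v395 && (
  let v396 := mul v24 v52; ok v396 && (
  let v397 := inv v396; ok v397 && (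
  let v398 := mul v395 v397; ok v398 && (
  let v399 := mul v393 v398; ok v399 && (
  let v400 := sub v378 v399; ok v400 && (
  let v401 := mul v152 v390; ok v401 && (
  let v402 := sub v0 v152; ok v402 && (
  let v403 := mul v12 v400; ok v403 && (
  let v404 := mul v402 v403; ok v404 && (
  let v405 := mul v375 v404; ok v405 && (
  let v406 := add v401 v405; ok v406 && (
  isPos 4 v164 && (
  isPos 4 v167 && (
  let v407 := scale ⟨2199023255552, 0, 0, 0⟩ v242; ok v407 && (
  let v408 := sub v52 v407; ok v408 && (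
  isPos 4 v408 && (
  isPos 4 v252 && (
  let v409 := sub v8 v139; ok v409 && (
  isPos 4 v409 && (
  let v410 := scale ⟨687194767360, 0, 0, 0⟩ v0; ok v410 && (
  let v411 := sub v410 v202; ok v411 && (
  isPos 4 v411 && (
  let v412 := scale ⟨377957122048, 0, 0, 0⟩ v0; ok v412 && (
  let v413 := sub v412 v198; ok v413 && (
  isPos 4 v413 && (
  isPos 4 v363 && (
  isPos 4 v260 && (
  let v414 := sub v410 v272; ok v414 && (
  isPos 4 v414 && (
  isPos 4 v366 && (
  isPos 4 v345 && (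
  isPos 4 v406 && (
  isPos 4 v400 && (
  true))))))))))))))))))))))))))))))))))))))))))))))))))))))))))))))))))))))))))))))))))))))))))))))))))))))))))))))))))))))))))))))))))))))))))))))))))))))))))))))))))))))))))))))))))))))))))))))))))))))))))))))))))))))))))))))))))))))))))))))))))))))))))))))))))))))))))))))))))))))))))))))))))))))))))))))))))))))))))))))))))))))))))))))))))))))))))))))))))))))))))))))))))))))))))))))))))))))))))))))))))))))))))))))))))))))))))))))))))
  | _ => false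

set_option maxRecDepth 1000000 in
theorem chk3_eq (O : Ops) (m : List O.α)
    (h : chk3 O.cst O.add O.sub O.mul O.scale O.neg O.inv O.exp O.log O.ok O.isPos O.isLt m = true) :
    runG O 4 prog3 m = true := by
  match m, h with
  | [x0, x1, x2, x3], h => exact h

def chkB3 : List opsE.α → Bool :=
  chk3 opsE.cst opsE.add opsE.sub opsE.mul opsE.scale opsE.neg opsE.inv opsE.exp opsE.log opsE.ok opsE.isPos opsE.isLt

theorem chkB3_eq (m : List opsE.α) (h : chkB3 m = true) : runG opsE 4 prog3 m = true :=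
  chk3_eq opsE m h

def prog4 : List Op := [
  .const ⟨1099511627776, 0, 0, 0⟩,
  .mul 2 1,
  .mul 4 4,
  .mul 4 0,
  .mul 5 6,
  .mul 0 5,
  .mul 0 0,
  .mul 3 8,
  .const ⟨549755813888, 0, 0, 0⟩,
  .mul 5 7,
  .mul 0 13,
  .scale ⟨549755813888, 0, 0, 0⟩ 0,
  .mul 10 10,
  .mul 1 1,
  .sub 13 0,
  .inv 0,
  .mul 4 0,
  .scale ⟨2199023255552, 0, 0, 0⟩ 0,
  .scale ⟨2199023255552, 0, 0, 0⟩ 2,
  .sub 0 18,
  .add 0 2,
  .mul 24 5,
  .mul 20 0,
  .sub 22 0,
  .add 23 1,
  .mul 21 12,
  .mul 4 4,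
  .scale ⟨10774999203840, 0, 0, 0⟩ 15,
  .scale ⟨45768245248, 0, 0, 0⟩ 0,
  .const ⟨183207198720, 0, 0, 0⟩,
  .add 1 0,
  .mul 3 0,
  .add 23 0,
  .mul 5 0,
  .add 33 0,
  .mul 7 0,
  .scale ⟨549755813888, 0, 0, 0⟩ 0,
  .add 36 0,
  .mul 3 0,
  .mul 21 16,
  .scale ⟨2199023255552, 0, 0, 0⟩ 20,
  .add 1 0,
  .add 0 38,
  .mul 17 0,
  .add 0 43,
  .mul 27 27,
  .scale ⟨2199023255552, 0, 0, 0⟩ 0,
  .add 0 46,
  .mul 28 5,
  .sub 0 48,
  .log 5,
  .scale ⟨549755813888, 0, 0, 0⟩ 0,
  .exp 0,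
  .const ⟨3298534883328, 0, 0, 0⟩,
  .inv 0,
  .mul 54 0,
  .const ⟨2199023255552, 0, 0, 0⟩,
  .add 13 0,
  .inv 0,
  .mul 15 0,
  .mul 0 0,
  .sub 60 1,
  .mul 1 6,
  .add 62 0,
  .mul 2 0,
  .mul 4 4,
  .scale ⟨219915747328, 0, 0, 0⟩ 0,
  .mul 24 2,
  .scale ⟨549755813888, 0, 0, 0⟩ 0,
  .mul 26 2,
  .scale ⟨549755813888, 0, 0, 0⟩ 0,
  .add 2 0,
  .mul 52 22,
  .scale ⟨4398046511104, 0, 0, 0⟩ 0,
  .mul 54 48,
  .mul 0 25,
  .scale ⟨4398046511104, 0, 0, 0⟩ 0,
  .add 0 20,
  .inv 0,
  .mul 2 0,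
  .mul 0 0,
  .sub 80 1,
  .mul 1 26,
  .add 82 0,
  .mul 2 0,
  .mul 4 4,
  .scale ⟨219915747328, 0, 0, 0⟩ 0,
  .mul 13 2,
  .scale ⟨549755813888, 0, 0, 0⟩ 0,
  .sub 0 17,
  .mul 16 3,
  .scale ⟨549755813888, 0, 0, 0⟩ 0,
  .add 0 21,
  .add 3 0,
  .mul 95 25,
  .neg 0,
  .exp 0,
  .mul 98 26,
  .mul 1 0,
  .mul 100 9,
  .neg 0,
  .exp 0,
  .mul 103 9,
  .mul 1 0,
  .mul 81 86,
  .add 85 0,
  .inv 0,
  .mul 82 0,
  .mul 84 104,
  .mul 0 1,
  .sub 109 97,
  .mul 84 0,
  .mul 102 102,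
  .sub 112 86,
  .mul 3 0,
  .mul 89 65,
  .inv 71,
  .mul 1 0,
  .add 98 0,
  .mul 74 0,
  .mul 0 0,
  .inv 0,
  .mul 7 0,
  .add 13 122,
  .mul 27 0,
  .sub 124 0,
  .pos 0,
  .add 29 125,
  .inv 1,
  .mul 1 0,
  .scale ⟨549755813888, 0, 0, 0⟩ 0,
  .add 0 121,
  .inv 0,
  .mul 2 0,
  .mul 23 0,
  .scale ⟨549755813888, 0, 0, 0⟩ 0,
  .sub 134 0,
  .sub 135 2,
  .inv 0,
  .mul 2 0,
  .add 5 138,
  .mul 43 0,
  .mul 33 2,
  .mul 0 9,
  .mul 9 4,
  .pos 7,
  .mul 120 119,
  .add 125 141,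
  .mul 123 126,
  .mul 0 129,
  .scale ⟨2199023255552, 0, 0, 0⟩ 0,
  .add 101 0,
  .mul 4 0,
  .inv 0,
  .mul 7 0,
  .mul 149 0,
  .pos 64,
  .add 0 153,
  .mul 53 0,
  .sub 155 0,
  .pos 0,
  .add 55 156,
  .inv 1,
  .mul 1 0,
  .scale ⟨549755813888, 0, 0, 0⟩ 0,
  .add 0 152,
  .inv 0,
  .mul 2 0,
  .mul 10 0,
  .mul 1 165,
  .add 154 165,
  .inv 0,
  .mul 156 0,
  .scale ⟨2199023255552, 0, 0, 0⟩ 0,
  .sub 169 0,
  .sub 170 159,
  .mul 175 4,
  .mul 0 2,
  .add 149 0,
  .scale ⟨224412041216, 0, 0, 0⟩ 159,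
  .inv 137,
  .mul 1 0,
  .scale ⟨4398046511104, 0, 0, 0⟩ 178,
  .mul 178 157,
  .add 1 0,
  .scale ⟨549755813888, 0, 0, 0⟩ 0,
  .inv 0,
  .mul 182 0,
  .mul 184 1,
  .mul 0 160,
  .mul 0 8,
  .mul 3 162,
  .mul 0 10,
  .sub 188 0,
  .inv 0,
  .mul 50 2,
  .sub 191 0,
  .inv 0,
  .scale ⟨2199023255552, 0, 0, 0⟩ 187,
  .add 0 194,
  .add 189 195,
  .scale ⟨1099511627776, 0, 0, 0⟩ 174,
  .add 0 197,
  .scale ⟨549755813888, 0, 0, 0⟩ 0,
  .mul 188 178,
  .sub 200 89,
  .mul 190 179,
  .scale ⟨2199023255552, 0, 0, 0⟩ 0,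
  .sub 2 0,
  .mul 4 4,
  .add 1 0,
  .add 0 206,
  .scale ⟨549755813888, 0, 0, 0⟩ 0,
  .scale ⟨549755813888, 0, 0, 0⟩ 183,
  .sub 194 0,
  .mul 98 9,
  .mul 0 197,
  .scale ⟨137438953472, 0, 0, 0⟩ 0,
  .add 3 0,
  .mul 6 0,
  .add 75 215,
  .mul 0 26,
  .mul 77 24,
  .add 1 0,
  .mul 31 0,
  .add 77 0,
  .mul 0 215,
  .mul 6 34,
  .mul 0 33,
  .add 81 0,
  .mul 0 219,
  .scale ⟨223338299392, 0, 0, 0⟩ 0,
  .add 219 0,
  .mul 2 0,
  .add 229 0,
  .scale ⟨893353197568, 0, 0, 0⟩ 8,
  .add 231 0,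
  .mul 10 0,
  .add 233 0,
  .mul 65 62,
  .mul 0 40,
  .mul 0 2,
  .mul 22 7,
  .add 186 230,
  .mul 2 0,
  .add 2 0,
  .add 189 241,
  .mul 5 0,
  .mul 47 1,
  .mul 0 72,
  .mul 0 74,
  .mul 5 104,
  .mul 1 48,
  .add 1 0,
  .mul 242 75,
  .inv 198,
  .mul 1 0,
  .scale ⟨549755813888, 0, 0, 0⟩ 0,
  .mul 230 0,
  .mul 251 5,
  .add 1 0,
  .mul 257 0,
  .mul 16 41,
  .mul 0 68,
  .mul 16 119,
  .mul 0 67,
  .add 2 0,
  .mul 239 5,
  .mul 77 1,
  .add 1 0,
  .mul 153 0,
  .mul 0 15,
  .sub 267 0,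
  .inv 0,
  .mul 4 0,
  .mul 267 0,
  .mul 159 1,
  .mul 0 21,
  .sub 273 0,
  .mul 225 0,
  .sub 0 4,
  .inv 0,
  .mul 6 0,
  .sub 226 6,
  .inv 0,
  .mul 2 117,
  .scale ⟨549755813888, 0, 0, 0⟩ 0,
  .sub 282 0,
  .sub 283 2,
  .inv 0,
  .mul 2 0,
  .mul 285 6,
  .mul 122 10,
  .mul 0 2,
  .add 2 0,
  .mul 283 20,
  .mul 11 0,
  .mul 129 15,
  .mul 0 7,
  .mul 0 23,
  .add 3 0,
  .scale ⟨223338299392, 0, 0, 0⟩ 0,
  .add 289 0,
  .mul 2 0,
  .add 299 0,
  .mul 10 0,
  .mul 0 32,
  .mul 0 40,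
  .mul 116 280,
  .const ⟨5497558138880, 0, 0, 0⟩,
  .inv 0,
  .mul 253 0,
  .mul 141 283,
  .mul 0 1,
  .mul 164 203,
  .mul 288 0,
  .scale ⟨549755813888, 0, 0, 0⟩ 147,
  .sub 312 0,
  .sub 313 149,
  .inv 0,
  .mul 2 0,
  .mul 0 163,
  .mul 205 195,
  .scale ⟨733097230336, 0, 0, 0⟩ 0,
  .sub 319 0,
  .mul 198 0,
  .mul 232 232,
  .mul 310 0,
  .add 2 0,
  .mul 7 159,
  .add 1 325,
  .mul 1 0,
  .sub 3 0,
  .scale ⟨366548615168, 0, 0, 0⟩ 283,
  .sub 329 0,
  .mul 304 0,
  .add 3 0,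
  .mul 22 0,
  .mul 22 22,
  .add 334 0,
  .inv 0,
  .mul 3 0,
  .sub 337 59,
  .mul 0 1,
  .sub 339 14,
  .pos 0,
  .pos 3,
  .pos 2,
  .mul 38 159,
  .mul 0 85,
  .inv 318,
  .mul 1 0,
  .mul 346 5,
  .neg 0,
  .exp 0,
  .mul 344 38,
  .add 348 0,
  .inv 0,
  .mul 3 0,
  .mul 0 331,
  .mul 343 82,
  .mul 0 10,
  .add 354 0,
  .mul 3 0,
  .mul 0 76,
  .mul 354 54,
  .mul 0 170,
  .mul 356 55,
  .mul 16 0,
  .add 2 0,
  .add 4 18,
  .add 363 1,
  .mul 7 0,
  .add 2 0,
  .sub 366 0,
  .scale ⟨1073741824, 0, 0, 0⟩ 364,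
  .sub 1 0,
  .sub 349 369,
  .add 0 314,
  .scale ⟨2199023255552, 0, 0, 0⟩ 64,
  .sub 1 0,
  .mul 207 0,
  .mul 4 2,
  .add 0 375,
  .inv 0,
  .mul 3 0,
  .mul 194 116,
  .scale ⟨549755813888, 0, 0, 0⟩ 202,
  .add 363 0,
  .mul 2 0,
  .scale ⟨2199023255552, 0, 0, 0⟩ 0,
  .add 126 0,
  .scale ⟨2199023255552, 0, 0, 0⟩ 0,
  .mul 0 116,
  .sub 362 33,
  .inv 0,
  .mul 2 0,
  .sub 11 0,
  .mul 211 211,
  .const ⟨14293651161088, 0, 0, 0⟩,
  .const ⟨10995116277760, 0, 0, 0⟩,
  .inv 0,
  .mul 2 0,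
  .mul 4 0,
  .mul 397 397,
  .scale ⟨27487790694400, 0, 0, 0⟩ 0,
  .add 2 0,
  .mul 90 49,
  .sub 360 397,
  .sub 0 362,
  .mul 402 401,
  .mul 0 404,
  .mul 380 142,
  .mul 0 223,
  .add 157 0,
  .add 54 351,
  .mul 408 0,
  .mul 10 9,
  .mul 141 1,
  .mul 7 4,
  .mul 1 0,
  .sub 3 0,
  .scale ⟨549755813888, 0, 0, 0⟩ 61,
  .add 415 0,
  .mul 147 0,
  .mul 414 394,
  .mul 0 244,
  .mul 395 367,
  .inv 0,
  .mul 2 0,
  .mul 5 0,
  .sub 21 0,
  .mul 247 10,
  .sub 425 248,
  .mul 414 2,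
  .mul 1 0,
  .mul 29 0,
  .add 4 0,
  .pos 241,
  .pos 238,
  .scale ⟨2199023255552, 0, 0, 0⟩ 164,
  .sub 379 0,
  .pos 0,
  .pos 156,
  .sub 424 268,
  .pos 0,
  .scale ⟨687194767360, 0, 0, 0⟩ 433,
  .sub 0 208,
  .pos 0,
  .scale ⟨377957122048, 0, 0, 0⟩ 435,
  .sub 0 214,
  .pos 0,
  .pos 50,
  .pos 153,
  .sub 3 141,
  .pos 0,
  .pos 48,
  .pos 69,
  .pos 8,
  .pos 14]

def chk4 {α : Type} (cst : Z → α) (add sub mul : α → α → α) (scale : Z → α → α)
    (neg inv exp log : α → α) (ok : α → Bool) (isPos : Nat → α → Bool) (isLt : α → Nat → Bool) :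
    List α → Bool
  | [x0, x1, x2, x3] =>
  let v0 := cst ⟨1099511627776, 0, 0, 0⟩; ok v0 && (
  let v1 := mul x1 x0; ok v1 && (
  let v2 := mul x2 x2; ok v2 && (
  let v3 := mul x1 v2; ok v3 && (
  let v4 := mul x1 x2; ok v4 && (
  let v5 := mul v4 x0; ok v5 && (
  let v6 := mul v5 v5; ok v6 && (
  let v7 := mul v3 x1; ok v7 && (
  let v8 := cst ⟨549755813888, 0, 0, 0⟩; ok v8 && (
  let v9 := mul v3 v1; ok v9 && (
  let v10 := mul v9 x3; ok v10 && (
  let v11 := scale ⟨549755813888, 0, 0, 0⟩ v10; ok v11 && (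
  let v12 := mul v1 v1; ok v12 && (
  let v13 := mul v11 v11; ok v13 && (
  let v14 := sub v0 v13; ok v14 && (
  let v15 := inv v14; ok v15 && (
  let v16 := mul v11 v15; ok v16 && (
  let v17 := scale ⟨2199023255552, 0, 0, 0⟩ v16; ok v17 && (
  let v18 := scale ⟨2199023255552, 0, 0, 0⟩ v15; ok v18 && (
  let v19 := sub v18 v0; ok v19 && (
  let v20 := add v19 v17; ok v20 && (
  let v21 := mul x3 v15; ok v21 && (
  let v22 := mul v1 v21; ok v22 && (
  let v23 := sub v0 v22; ok v23 && (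
  let v24 := add v0 v22; ok v24 && (
  let v25 := mul v3 v12; ok v25 && (
  let v26 := mul v21 v21; ok v26 && (
  let v27 := scale ⟨10774999203840, 0, 0, 0⟩ v11; ok v27 && (
  let v28 := scale ⟨45768245248, 0, 0, 0⟩ v27; ok v28 && (
  let v29 := cst ⟨183207198720, 0, 0, 0⟩; ok v29 && (
  let v30 := add v28 v29; ok v30 && (
  let v31 := mul v27 v30; ok v31 && (
  let v32 := add v8 v31; ok v32 && (
  let v33 := mul v27 v32; ok v33 && (
  let v34 := add v0 v33; ok v34 && (
  let v35 := mul v27 v34; ok v35 && (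
  let v36 := scale ⟨549755813888, 0, 0, 0⟩ v35; ok v36 && (
  let v37 := add v0 v36; ok v37 && (
  let v38 := mul v34 v37; ok v38 && (
  let v39 := mul v17 v22; ok v39 && (
  let v40 := scale ⟨2199023255552, 0, 0, 0⟩ v19; ok v40 && (
  let v41 := add v39 v40; ok v41 && (
  let v42 := add v41 v3; ok v42 && (
  let v43 := mul v25 v42; ok v43 && (
  let v44 := add v43 v0; ok v44 && (
  let v45 := mul v17 v17; ok v45 && (
  let v46 := scale ⟨2199023255552, 0, 0, 0⟩ v45; ok v46 && (
  let v47 := add v46 v0; ok v47 && (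
  let v48 := mul v19 v42; ok v48 && (
  let v49 := sub v48 v0; ok v49 && (
  let v50 := log v44; ok v50 && (
  let v51 := scale ⟨549755813888, 0, 0, 0⟩ v50; ok v51 && (
  let v52 := exp v51; ok v52 && (
  let v53 := cst ⟨3298534883328, 0, 0, 0⟩; ok v53 && (
  let v54 := inv v53; ok v54 && (
  let v55 := mul v0 v54; ok v55 && (
  let v56 := cst ⟨2199023255552, 0, 0, 0⟩; ok v56 && (
  let v57 := add v43 v56; ok v57 && (
  let v58 := inv v57; ok v58 && (
  let v59 := mul v43 v58; ok v59 && (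
  let v60 := mul v59 v59; ok v60 && (
  let v61 := sub v0 v59; ok v61 && (
  let v62 := mul v60 v55; ok v62 && (
  let v63 := add v0 v62; ok v63 && (
  let v64 := mul v61 v63; ok v64 && (
  let v65 := mul v60 v60; ok v65 && (
  let v66 := scale ⟨219915747328, 0, 0, 0⟩ v65; ok v66 && (
  let v67 := mul v42 v64; ok v67 && (
  let v68 := scale ⟨549755813888, 0, 0, 0⟩ v67; ok v68 && (
  let v69 := mul v42 v66; ok v69 && (
  let v70 := scale ⟨549755813888, 0, 0, 0⟩ v69; ok v70 && (
  let v71 := add v68 v70; ok v71 && (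
  let v72 := mul v19 v49; ok v72 && (
  let v73 := scale ⟨4398046511104, 0, 0, 0⟩ v72; ok v73 && (
  let v74 := mul v19 v25; ok v74 && (
  let v75 := mul v74 v49; ok v75 && (
  let v76 := scale ⟨4398046511104, 0, 0, 0⟩ v75; ok v76 && (
  let v77 := add v76 v56; ok v77 && (
  let v78 := inv v77; ok v78 && (
  let v79 := mul v76 v78; ok v79 && (
  let v80 := mul v79 v79; ok v80 && (
  let v81 := sub v0 v79; ok v81 && (
  let v82 := mul v80 v55; ok v82 && (
  let v83 := add v0 v82; ok v83 && (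
  let v84 := mul v81 v83; ok v84 && (
  let v85 := mul v80 v80; ok v85 && (
  let v86 := scale ⟨219915747328, 0, 0, 0⟩ v85; ok v86 && (
  let v87 := mul v73 v84; ok v87 && (
  let v88 := scale ⟨549755813888, 0, 0, 0⟩ v87; ok v88 && (
  let v89 := sub v88 v71; ok v89 && (
  let v90 := mul v73 v86; ok v90 && (
  let v91 := scale ⟨549755813888, 0, 0, 0⟩ v90; ok v91 && (
  let v92 := add v91 v70; ok v92 && (
  let v93 := add v89 v92; ok v93 && (
  let v94 := mul x1 v68; ok v94 && (
  let v95 := neg v94; ok v95 && (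
  let v96 := exp v95; ok v96 && (
  let v97 := mul x1 v70; ok v97 && (
  let v98 := mul v96 v97; ok v98 && (
  let v99 := mul x1 v89; ok v99 && (
  let v100 := neg v99; ok v100 && (
  let v101 := exp v100; ok v101 && (
  let v102 := mul x1 v92; ok v102 && (
  let v103 := mul v101 v102; ok v103 && (
  let v104 := mul v22 v17; ok v104 && (
  let v105 := add v19 v104; ok v105 && (
  let v106 := inv v105; ok v106 && (
  let v107 := mul v24 v106; ok v107 && (
  let v108 := mul v23 v3; ok v108 && (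
  let v109 := mul v108 v107; ok v109 && (
  let v110 := sub v0 v12; ok v110 && (
  let v111 := mul v26 v110; ok v111 && (
  let v112 := mul v9 v9; ok v112 && (
  let v113 := sub v0 v26; ok v113 && (
  let v114 := mul v110 v113; ok v114 && (
  let v115 := mul v25 v49; ok v115 && (
  let v116 := inv v44; ok v116 && (
  let v117 := mul v115 v116; ok v117 && (
  let v118 := add v19 v117; ok v118 && (
  let v119 := mul v44 v118; ok v119 && (
  let v120 := mul v119 v119; ok v120 && (
  let v121 := inv v120; ok v121 && (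
  let v122 := mul v114 v121; ok v122 && (
  let v123 := add v109 v0; ok v123 && (
  let v124 := mul v96 v123; ok v124 && (
  let v125 := sub v0 v124; ok v125 && (
  isPos 4 v125 && (
  let v126 := add v96 v0; ok v126 && (
  let v127 := inv v125; ok v127 && (
  let v128 := mul v126 v127; ok v128 && (
  let v129 := scale ⟨549755813888, 0, 0, 0⟩ v128; ok v129 && (
  let v130 := add v129 v8; ok v130 && (
  let v131 := inv v130; ok v131 && (
  let v132 := mul v129 v131; ok v132 && (
  let v133 := mul v109 v132; ok v133 && (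
  let v134 := scale ⟨549755813888, 0, 0, 0⟩ v133; ok v134 && (
  let v135 := sub v0 v134; ok v135 && (
  let v136 := sub v0 v133; ok v136 && (
  let v137 := inv v136; ok v137 && (
  let v138 := mul v135 v137; ok v138 && (
  let v139 := add v133 v0; ok v139 && (
  let v140 := mul v96 v139; ok v140 && (
  let v141 := mul v107 v138; ok v141 && (
  let v142 := mul v141 v132; ok v142 && (
  let v143 := mul v133 v138; ok v143 && (
  isPos 4 v136 && (
  let v144 := mul v23 v24; ok v144 && (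
  let v145 := add v19 v3; ok v145 && (
  let v146 := mul v22 v19; ok v146 && (
  let v147 := mul v146 v17; ok v147 && (
  let v148 := scale ⟨2199023255552, 0, 0, 0⟩ v147; ok v148 && (
  let v149 := add v47 v148; ok v149 && (
  let v150 := mul v145 v149; ok v150 && (
  let v151 := inv v150; ok v151 && (
  let v152 := mul v144 v151; ok v152 && (
  let v153 := mul v3 v152; ok v153 && (
  isPos 4 v89 && (
  let v154 := add v153 v0; ok v154 && (
  let v155 := mul v101 v154; ok v155 && (
  let v156 := sub v0 v155; ok v156 && (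
  isPos 4 v156 && (
  let v157 := add v101 v0; ok v157 && (
  let v158 := inv v156; ok v158 && (
  let v159 := mul v157 v158; ok v159 && (
  let v160 := scale ⟨549755813888, 0, 0, 0⟩ v159; ok v160 && (
  let v161 := add v160 v8; ok v161 && (
  let v162 := inv v161; ok v162 && (
  let v163 := mul v160 v162; ok v163 && (
  let v164 := mul v153 v163; ok v164 && (
  let v165 := mul v163 x0; ok v165 && (
  let v166 := add v11 v0; ok v166 && (
  let v167 := inv v166; ok v167 && (
  let v168 := mul v11 v167; ok v168 && (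
  let v169 := scale ⟨2199023255552, 0, 0, 0⟩ v168; ok v169 && (
  let v170 := sub v0 v169; ok v170 && (
  let v171 := sub v0 v11; ok v171 && (
  let v172 := mul x3 v167; ok v172 && (
  let v173 := mul v172 v170; ok v173 && (
  let v174 := add v24 v173; ok v174 && (
  let v175 := scale ⟨224412041216, 0, 0, 0⟩ v15; ok v175 && (
  let v176 := inv v38; ok v176 && (
  let v177 := mul v175 v176; ok v177 && (
  let v178 := scale ⟨4398046511104, 0, 0, 0⟩ x0; ok v178 && (
  let v179 := mul v0 v21; ok v179 && (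
  let v180 := add v178 v179; ok v180 && (
  let v181 := scale ⟨549755813888, 0, 0, 0⟩ v180; ok v181 && (
  let v182 := inv v181; ok v182 && (
  let v183 := mul v0 v182; ok v183 && (
  let v184 := mul x0 v182; ok v184 && (
  let v185 := mul v184 v24; ok v185 && (
  let v186 := mul v185 v177; ok v186 && (
  let v187 := mul v183 v24; ok v187 && (
  let v188 := mul v187 v177; ok v188 && (
  let v189 := sub v0 v188; ok v189 && (
  let v190 := inv v189; ok v190 && (
  let v191 := mul v140 v188; ok v191 && (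
  let v192 := sub v0 v191; ok v192 && (
  let v193 := inv v192; ok v193 && (
  let v194 := scale ⟨2199023255552, 0, 0, 0⟩ v6; ok v194 && (
  let v195 := add v194 v0; ok v195 && (
  let v196 := add v6 v0; ok v196 && (
  let v197 := scale ⟨1099511627776, 0, 0, 0⟩ v22; ok v197 && (
  let v198 := add v197 v0; ok v198 && (
  let v199 := scale ⟨549755813888, 0, 0, 0⟩ v198; ok v199 && (
  let v200 := mul v11 v21; ok v200 && (
  let v201 := sub v0 v111; ok v201 && (
  let v202 := mul v11 v22; ok v202 && (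
  let v203 := scale ⟨2199023255552, 0, 0, 0⟩ v202; ok v203 && (
  let v204 := sub v201 v203; ok v204 && (
  let v205 := mul v200 v200; ok v205 && (
  let v206 := add v204 v205; ok v206 && (
  let v207 := add v206 v0; ok v207 && (
  let v208 := scale ⟨549755813888, 0, 0, 0⟩ v207; ok v208 && (
  let v209 := scale ⟨549755813888, 0, 0, 0⟩ v25; ok v209 && (
  let v210 := sub v15 v209; ok v210 && (
  let v211 := mul v112 v201; ok v211 && (
  let v212 := mul v211 v14; ok v212 && (
  let v213 := scale ⟨137438953472, 0, 0, 0⟩ v212; ok v213 && (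
  let v214 := add v210 v213; ok v214 && (
  let v215 := mul v208 v214; ok v215 && (
  let v216 := add v140 v0; ok v216 && (
  let v217 := mul v216 v190; ok v217 && (
  let v218 := mul v140 v193; ok v218 && (
  let v219 := add v217 v218; ok v219 && (
  let v220 := mul v188 v219; ok v220 && (
  let v221 := add v143 v220; ok v221 && (
  let v222 := mul v221 v6; ok v222 && (
  let v223 := mul v216 v188; ok v223 && (
  let v224 := mul v223 v190; ok v224 && (
  let v225 := add v143 v224; ok v225 && (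
  let v226 := mul v225 v6; ok v226 && (
  let v227 := scale ⟨223338299392, 0, 0, 0⟩ v226; ok v227 && (
  let v228 := add v8 v227; ok v228 && (
  let v229 := mul v226 v228; ok v229 && (
  let v230 := add v0 v229; ok v230 && (
  let v231 := scale ⟨893353197568, 0, 0, 0⟩ v222; ok v231 && (
  let v232 := add v0 v231; ok v232 && (
  let v233 := mul v222 v232; ok v233 && (
  let v234 := add v0 v233; ok v234 && (
  let v235 := mul v169 v172; ok v235 && (
  let v236 := mul v235 v195; ok v236 && (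
  let v237 := mul v236 v234; ok v237 && (
  let v238 := mul v215 v230; ok v238 && (
  let v239 := add v52 v8; ok v239 && (
  let v240 := mul v237 v239; ok v240 && (
  let v241 := add v238 v240; ok v241 && (
  let v242 := add v52 v0; ok v242 && (
  let v243 := mul v237 v242; ok v243 && (
  let v244 := mul v196 v242; ok v244 && (
  let v245 := mul v244 v172; ok v245 && (
  let v246 := mul v245 v171; ok v246 && (
  let v247 := mul v241 v142; ok v247 && (
  let v248 := mul v246 v199; ok v248 && (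
  let v249 := add v247 v248; ok v249 && (
  let v250 := mul v7 v174; ok v250 && (
  let v251 := inv v52; ok v251 && (
  let v252 := mul v250 v251; ok v252 && (
  let v253 := scale ⟨549755813888, 0, 0, 0⟩ v252; ok v253 && (
  let v254 := mul v23 v253; ok v254 && (
  let v255 := mul v3 v249; ok v255 && (
  let v256 := add v254 v255; ok v256 && (
  let v257 := mul x0 v256; ok v257 && (
  let v258 := mul v241 v216; ok v258 && (
  let v259 := mul v258 v190; ok v259 && (
  let v260 := mul v243 v140; ok v260 && (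
  let v261 := mul v260 v193; ok v261 && (
  let v262 := add v259 v261; ok v262 && (
  let v263 := mul v23 v257; ok v263 && (
  let v264 := mul v186 v262; ok v264 && (
  let v265 := add v263 v264; ok v265 && (
  let v266 := mul v112 v265; ok v266 && (
  let v267 := mul v266 v251; ok v267 && (
  let v268 := sub v0 v267; ok v268 && (
  let v269 := inv v268; ok v269 && (
  let v270 := mul v265 v269; ok v270 && (
  let v271 := mul v3 v270; ok v271 && (
  let v272 := mul v112 v270; ok v272 && (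
  let v273 := mul v272 v251; ok v273 && (
  let v274 := sub v0 v273; ok v274 && (
  let v275 := mul v49 v274; ok v275 && (
  let v276 := sub v275 v271; ok v276 && (
  let v277 := inv v276; ok v277 && (
  let v278 := mul v271 v277; ok v278 && (
  let v279 := sub v52 v272; ok v279 && (
  let v280 := inv v279; ok v280 && (
  let v281 := mul v278 v163; ok v281 && (
  let v282 := scale ⟨549755813888, 0, 0, 0⟩ v281; ok v282 && (
  let v283 := sub v0 v282; ok v283 && (
  let v284 := sub v0 v281; ok v284 && (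
  let v285 := inv v284; ok v285 && (
  let v286 := mul v283 v285; ok v286 && (
  let v287 := mul v1 v280; ok v287 && (
  let v288 := mul v165 v277; ok v288 && (
  let v289 := mul v288 v286; ok v289 && (
  let v290 := add v287 v289; ok v290 && (
  let v291 := mul v7 v270; ok v291 && (
  let v292 := mul v280 v291; ok v292 && (
  let v293 := mul v163 v277; ok v293 && (
  let v294 := mul v293 v286; ok v294 && (
  let v295 := mul v294 v271; ok v295 && (
  let v296 := add v292 v295; ok v296 && (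
  let v297 := scale ⟨223338299392, 0, 0, 0⟩ v296; ok v297 && (
  let v298 := add v8 v297; ok v298 && (
  let v299 := mul v296 v298; ok v299 && (
  let v300 := add v0 v299; ok v300 && (
  let v301 := mul v290 v300; ok v301 && (
  let v302 := mul v301 v269; ok v302 && (
  let v303 := mul v302 v262; ok v303 && (
  let v304 := mul v187 v23; ok v304 && (
  let v305 := cst ⟨5497558138880, 0, 0, 0⟩; ok v305 && (
  let v306 := inv v305; ok v306 && (
  let v307 := mul v53 v306; ok v307 && (
  let v308 := mul v166 v24; ok v308 && (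
  let v309 := mul v308 v307; ok v309 && (
  let v310 := mul v145 v106; ok v310 && (
  let v311 := mul v22 v310; ok v311 && (
  let v312 := scale ⟨549755813888, 0, 0, 0⟩ v164; ok v312 && (
  let v313 := sub v0 v312; ok v313 && (
  let v314 := sub v0 v164; ok v314 && (
  let v315 := inv v314; ok v315 && (
  let v316 := mul v313 v315; ok v316 && (
  let v317 := mul v316 v153; ok v317 && (
  let v318 := mul v112 v122; ok v318 && (
  let v319 := scale ⟨733097230336, 0, 0, 0⟩ v318; ok v319 && (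
  let v320 := sub v0 v319; ok v320 && (
  let v321 := mul v122 v320; ok v321 && (
  let v322 := mul v89 v89; ok v322 && (
  let v323 := mul v12 v322; ok v323 && (
  let v324 := add v321 v323; ok v324 && (
  let v325 := mul v317 v165; ok v325 && (
  let v326 := add v324 v0; ok v326 && (
  let v327 := mul v325 v326; ok v327 && (
  let v328 := sub v324 v327; ok v328 && (
  let v329 := scale ⟨366548615168, 0, 0, 0⟩ v45; ok v329 && (
  let v330 := sub v0 v329; ok v330 && (
  let v331 := mul v26 v330; ok v331 && (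
  let v332 := add v328 v331; ok v332 && (
  let v333 := mul v310 v332; ok v333 && (
  let v334 := mul v311 v311; ok v334 && (
  let v335 := add v0 v334; ok v335 && (
  let v336 := inv v335; ok v336 && (
  let v337 := mul v333 v336; ok v337 && (
  let v338 := sub v0 v278; ok v338 && (
  let v339 := mul v338 v337; ok v339 && (
  let v340 := sub v0 v325; ok v340 && (
  isPos 4 v340 && (
  isPos 4 v337 && (
  isPos 4 v338 && (
  let v341 := mul v302 v181; ok v341 && (
  let v342 := mul v341 v256; ok v342 && (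
  let v343 := inv v24; ok v343 && (
  let v344 := mul v342 v343; ok v344 && (
  let v345 := mul x1 v339; ok v345 && (
  let v346 := neg v345; ok v346 && (
  let v347 := exp v346; ok v347 && (
  let v348 := mul v3 v309; ok v348 && (
  let v349 := add v0 v348; ok v349 && (
  let v350 := inv v349; ok v350 && (
  let v351 := mul v347 v350; ok v351 && (
  let v352 := mul v351 v20; ok v352 && (
  let v353 := mul v9 v270; ok v353 && (
  let v354 := mul v353 v343; ok v354 && (
  let v355 := add v0 v354; ok v355 && (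
  let v356 := mul v352 v355; ok v356 && (
  let v357 := mul v356 v280; ok v357 && (
  let v358 := mul v3 v303; ok v358 && (
  let v359 := mul v358 v188; ok v359 && (
  let v360 := mul v3 v304; ok v360 && (
  let v361 := mul v344 v360; ok v361 && (
  let v362 := add v359 v361; ok v362 && (
  let v363 := add v358 v344; ok v363 && (
  let v364 := add v0 v362; ok v364 && (
  let v365 := mul v357 v364; ok v365 && (
  let v366 := add v363 v365; ok v366 && (
  let v367 := sub v0 v366; ok v367 && (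
  let v368 := scale ⟨1073741824, 0, 0, 0⟩ v3; ok v368 && (
  let v369 := sub v367 v368; ok v369 && (
  let v370 := sub v20 v0; ok v370 && (
  let v371 := add v370 v56; ok v371 && (
  let v372 := scale ⟨2199023255552, 0, 0, 0⟩ v307; ok v372 && (
  let v373 := sub v371 v372; ok v373 && (
  let v374 := mul v166 v373; ok v374 && (
  let v375 := mul v370 v372; ok v375 && (
  let v376 := add v375 v0; ok v376 && (
  let v377 := inv v376; ok v377 && (
  let v378 := mul v374 v377; ok v378 && (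
  let v379 := mul v184 v262; ok v379 && (
  let v380 := scale ⟨549755813888, 0, 0, 0⟩ v177; ok v380 && (
  let v381 := add v17 v380; ok v381 && (
  let v382 := mul v379 v381; ok v382 && (
  let v383 := scale ⟨2199023255552, 0, 0, 0⟩ v382; ok v383 && (
  let v384 := add v257 v383; ok v384 && (
  let v385 := scale ⟨2199023255552, 0, 0, 0⟩ v384; ok v385 && (
  let v386 := mul v385 v269; ok v386 && (
  let v387 := sub v24 v353; ok v387 && (
  let v388 := inv v387; ok v388 && (
  let v389 := mul v386 v388; ok v389 && (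
  let v390 := sub v378 v389; ok v390 && (
  let v391 := mul v179 v179; ok v391 && (
  let v392 := cst ⟨14293651161088, 0, 0, 0⟩; ok v392 && (
  let v393 := cst ⟨10995116277760, 0, 0, 0⟩; ok v393 && (
  let v394 := inv v393; ok v394 && (
  let v395 := mul v392 v394; ok v395 && (
  let v396 := mul v391 v395; ok v396 && (
  let v397 := mul x0 x0; ok v397 && (
  let v398 := scale ⟨27487790694400, 0, 0, 0⟩ v397; ok v398 && (
  let v399 := add v396 v398; ok v399 && (
  let v400 := mul v309 v350; ok v400 && (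
  let v401 := sub v40 v3; ok v401 && (
  let v402 := sub v401 v39; ok v402 && (
  let v403 := mul v0 v1; ok v403 && (
  let v404 := mul v403 x0; ok v404 && (
  let v405 := mul v24 v262; ok v405 && (
  let v406 := mul v405 v182; ok v406 && (
  let v407 := add v249 v406; ok v407 && (
  let v408 := add v353 v56; ok v408 && (
  let v409 := mul v0 v408; ok v409 && (
  let v410 := mul v399 v400; ok v410 && (
  let v411 := mul v269 v409; ok v411 && (
  let v412 := mul v404 v407; ok v412 && (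
  let v413 := mul v411 v412; ok v413 && (
  let v414 := sub v410 v413; ok v414 && (
  let v415 := scale ⟨549755813888, 0, 0, 0⟩ v353; ok v415 && (
  let v416 := add v0 v415; ok v416 && (
  let v417 := mul v269 v416; ok v417 && (
  let v418 := mul v3 v23; ok v418 && (
  let v419 := mul v418 v174; ok v419 && (
  let v420 := mul v24 v52; ok v420 && (
  let v421 := inv v420; ok v421 && (
  let v422 := mul v419 v421; ok v422 && (
  let v423 := mul v417 v422; ok v423 && (
  let v424 := sub v402 v423; ok v424 && (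
  let v425 := mul v177 v414; ok v425 && (
  let v426 := sub v0 v177; ok v426 && (
  let v427 := mul v12 v424; ok v427 && (
  let v428 := mul v426 v427; ok v428 && (
  let v429 := mul v399 v428; ok v429 && (
  let v430 := add v425 v429; ok v430 && (
  isPos 4 v189 && (
  isPos 4 v192 && (
  let v431 := scale ⟨2199023255552, 0, 0, 0⟩ v266; ok v431 && (
  let v432 := sub v52 v431; ok v432 && (
  isPos 4 v432 && (
  isPos 4 v276 && (
  let v433 := sub v8 v164; ok v433 && (
  isPos 4 v433 && (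
  let v434 := scale ⟨687194767360, 0, 0, 0⟩ v0; ok v434 && (
  let v435 := sub v434 v226; ok v435 && (
  isPos 4 v435 && (
  let v436 := scale ⟨377957122048, 0, 0, 0⟩ v0; ok v436 && (
  let v437 := sub v436 v222; ok v437 && (
  isPos 4 v437 && (
  isPos 4 v387 && (
  isPos 4 v284 && (
  let v438 := sub v434 v296; ok v438 && (
  isPos 4 v438 && (
  isPos 4 v390 && (
  isPos 4 v369 && (
  isPos 4 v430 && (
  isPos 4 v424 && (
  true))))))))))))))))))))))))))))))))))))))))))))))))))))))))))))))))))))))))))))))))))))))))))))))))))))))))))))))))))))))))))))))))))))))))))))))))))))))))))))))))))))))))))))))))))))))))))))))))))))))))))))))))))))))))))))))))))))))))))))))))))))))))))))))))))))))))))))))))))))))))))))))))))))))))))))))))))))))))))))))))))))))))))))))))))))))))))))))))))))))))))))))))))))))))))))))))))))))))))))))))))))))))))))))))))))))))))))))))))))))))))))))))))))))))))))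
  | _ => false

set_option maxRecDepth 1000000 in
theorem chk4_eq (O : Ops) (m : List O.α)
    (h : chk4 O.cst O.add O.sub O.mul O.scale O.neg O.inv O.exp O.log O.ok O.isPos O.isLt m = true) :
    runG O 4 prog4 m = true := by
  match m, h with
  | [x0, x1, x2, x3], h => exact h

def chkB4 : List opsE.α → Bool :=
  chk4 opsE.cst opsE.add opsE.sub opsE.mul opsE.scale opsE.neg opsE.inv opsE.exp opsE.log opsE.ok opsE.isPos opsE.isLt

theorem chkB4_eq (m : List opsE.α) (h : chkB4 m = true) : runG opsE 4 prog4 m = true :=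
  chk4_eq opsE m h

def prog5 : List Op := [
  .const ⟨1099511627776, 0, 0, 0⟩,
  .mul 2 1,
  .mul 4 4,
  .mul 4 0,
  .mul 5 6,
  .mul 0 5,
  .mul 0 0,
  .mul 3 8,
  .const ⟨549755813888, 0, 0, 0⟩,
  .mul 5 7,
  .mul 0 13,
  .scale ⟨549755813888, 0, 0, 0⟩ 0,
  .mul 10 10,
  .mul 1 1,
  .sub 13 0,
  .inv 0,
  .mul 4 0,
  .scale ⟨2199023255552, 0, 0, 0⟩ 0,
  .scale ⟨2199023255552, 0, 0, 0⟩ 2,
  .sub 0 18,
  .add 0 2,
  .mul 24 5,
  .mul 20 0,
  .sub 22 0,
  .add 23 1,
  .mul 21 12,
  .mul 4 4,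
  .mul 19 0,
  .scale ⟨2066953011200, 0, 0, 0⟩ 22,
  .const ⟨1524444954624, 0, 0, 0⟩,
  .add 1 0,
  .sub 3 0,
  .pos 0]

def chk5 {α : Type} (cst : Z → α) (add sub mul : α → α → α) (scale : Z → α → α)
    (neg inv exp log : α → α) (ok : α → Bool) (isPos : Nat → α → Bool) (isLt : α → Nat → Bool) :
    List α → Bool
  | [x0, x1, x2, x3] =>
  let v0 := cst ⟨1099511627776, 0, 0, 0⟩; ok v0 && (
  let v1 := mul x1 x0; ok v1 && (
  let v2 := mul x2 x2; ok v2 && (
  let v3 := mul x1 v2; ok v3 && (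
  let v4 := mul x1 x2; ok v4 && (
  let v5 := mul v4 x0; ok v5 && (
  let v6 := mul v5 v5; ok v6 && (
  let v7 := mul v3 x1; ok v7 && (
  let v8 := cst ⟨549755813888, 0, 0, 0⟩; ok v8 && (
  let v9 := mul v3 v1; ok v9 && (
  let v10 := mul v9 x3; ok v10 && (
  let v11 := scale ⟨549755813888, 0, 0, 0⟩ v10; ok v11 && (
  let v12 := mul v1 v1; ok v12 && (
  let v13 := mul v11 v11; ok v13 && (
  let v14 := sub v0 v13; ok v14 && (
  let v15 := inv v14; ok v15 && (
  let v16 := mul v11 v15; ok v16 && (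
  let v17 := scale ⟨2199023255552, 0, 0, 0⟩ v16; ok v17 && (
  let v18 := scale ⟨2199023255552, 0, 0, 0⟩ v15; ok v18 && (
  let v19 := sub v18 v0; ok v19 && (
  let v20 := add v19 v17; ok v20 && (
  let v21 := mul x3 v15; ok v21 && (
  let v22 := mul v1 v21; ok v22 && (
  let v23 := sub v0 v22; ok v23 && (
  let v24 := add v0 v22; ok v24 && (
  let v25 := mul v3 v12; ok v25 && (
  let v26 := mul v21 v21; ok v26 && (
  let v27 := mul v7 v26; ok v27 && (
  let v28 := scale ⟨2066953011200, 0, 0, 0⟩ v5; ok v28 && (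
  let v29 := cst ⟨1524444954624, 0, 0, 0⟩; ok v29 && (
  let v30 := add v28 v29; ok v30 && (
  let v31 := sub v27 v30; ok v31 && (
  isPos 4 v31 && (
  true)))))))))))))))))))))))))))))))))
  | _ => false

set_option maxRecDepth 1000000 in
theorem chk5_eq (O : Ops) (m : List O.α)
    (h : chk5 O.cst O.add O.sub O.mul O.scale O.neg O.inv O.exp O.log O.ok O.isPos O.isLt m = true) :
    runG O 4 prog5 m = true := by
  match m, h with
  | [x0, x1, x2, x3], h => exact h

def chkB5 : List opsE.α → Bool :=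
  chk5 opsE.cst opsE.add opsE.sub opsE.mul opsE.scale opsE.neg opsE.inv opsE.exp opsE.log opsE.ok opsE.isPos opsE.isLt

theorem chkB5_eq (m : List opsE.α) (h : chkB5 m = true) : runG opsE 4 prog5 m = true :=
  chk5_eq opsE m h

def prog6 : List Op := [
  .const ⟨1099511627776, 0, 0, 0⟩,
  .mul 2 1,
  .mul 4 4,
  .mul 4 0,
  .mul 5 6,
  .mul 0 5,
  .mul 0 0,
  .mul 3 8,
  .const ⟨549755813888, 0, 0, 0⟩,
  .mul 5 7,
  .mul 0 13,
  .scale ⟨549755813888, 0, 0, 0⟩ 0,
  .mul 10 10,
  .mul 1 1,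
  .sub 13 0,
  .inv 0,
  .mul 4 0,
  .scale ⟨2199023255552, 0, 0, 0⟩ 0,
  .scale ⟨2199023255552, 0, 0, 0⟩ 2,
  .sub 0 18,
  .add 0 2,
  .mul 24 5,
  .mul 20 0,
  .sub 22 0,
  .add 23 1,
  .mul 21 12,
  .mul 4 4,
  .scale ⟨10774999203840, 0, 0, 0⟩ 15,
  .scale ⟨45768245248, 0, 0, 0⟩ 0,
  .const ⟨183207198720, 0, 0, 0⟩,
  .add 1 0,
  .mul 3 0,
  .add 23 0,
  .mul 5 0,
  .add 33 0,
  .mul 7 0,
  .scale ⟨549755813888, 0, 0, 0⟩ 0,
  .add 36 0,
  .mul 3 0,
  .scale ⟨224412041216, 0, 0, 0⟩ 23,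
  .inv 1,
  .mul 1 0,
  .sub 38 24,
  .sub 0 1,
  .pos 0]

def chk6 {α : Type} (cst : Z → α) (add sub mul : α → α → α) (scale : Z → α → α)
    (neg inv exp log : α → α) (ok : α → Bool) (isPos : Nat → α → Bool) (isLt : α → Nat → Bool) :
    List α → Bool
  | [x0, x1, x2, x3] =>
  let v0 := cst ⟨1099511627776, 0, 0, 0⟩; ok v0 && (
  let v1 := mul x1 x0; ok v1 && (
  let v2 := mul x2 x2; ok v2 && (
  let v3 := mul x1 v2; ok v3 && (
  let v4 := mul x1 x2; ok v4 && (
  let v5 := mul v4 x0; ok v5 && (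
  let v6 := mul v5 v5; ok v6 && (
  let v7 := mul v3 x1; ok v7 && (
  let v8 := cst ⟨549755813888, 0, 0, 0⟩; ok v8 && (
  let v9 := mul v3 v1; ok v9 && (
  let v10 := mul v9 x3; ok v10 && (
  let v11 := scale ⟨549755813888, 0, 0, 0⟩ v10; ok v11 && (
  let v12 := mul v1 v1; ok v12 && (
  let v13 := mul v11 v11; ok v13 && (
  let v14 := sub v0 v13; ok v14 && (
  let v15 := inv v14; ok v15 && (
  let v16 := mul v11 v15; ok v16 && (
  let v17 := scale ⟨2199023255552, 0, 0, 0⟩ v16; ok v17 && (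
  let v18 := scale ⟨2199023255552, 0, 0, 0⟩ v15; ok v18 && (
  let v19 := sub v18 v0; ok v19 && (
  let v20 := add v19 v17; ok v20 && (
  let v21 := mul x3 v15; ok v21 && (
  let v22 := mul v1 v21; ok v22 && (
  let v23 := sub v0 v22; ok v23 && (
  let v24 := add v0 v22; ok v24 && (
  let v25 := mul v3 v12; ok v25 && (
  let v26 := mul v21 v21; ok v26 && (
  let v27 := scale ⟨10774999203840, 0, 0, 0⟩ v11; ok v27 && (
  let v28 := scale ⟨45768245248, 0, 0, 0⟩ v27; ok v28 && (
  let v29 := cst ⟨183207198720, 0, 0, 0⟩; ok v29 && (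
  let v30 := add v28 v29; ok v30 && (
  let v31 := mul v27 v30; ok v31 && (
  let v32 := add v8 v31; ok v32 && (
  let v33 := mul v27 v32; ok v33 && (
  let v34 := add v0 v33; ok v34 && (
  let v35 := mul v27 v34; ok v35 && (
  let v36 := scale ⟨549755813888, 0, 0, 0⟩ v35; ok v36 && (
  let v37 := add v0 v36; ok v37 && (
  let v38 := mul v34 v37; ok v38 && (
  let v39 := scale ⟨224412041216, 0, 0, 0⟩ v15; ok v39 && (
  let v40 := inv v38; ok v40 && (
  let v41 := mul v39 v40; ok v41 && (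
  let v42 := sub v3 v17; ok v42 && (
  let v43 := sub v42 v41; ok v43 && (
  isPos 4 v43 && (
  true)))))))))))))))))))))))))))))))))))))))))))))
  | _ => false

set_option maxRecDepth 1000000 in
theorem chk6_eq (O : Ops) (m : List O.α)
    (h : chk6 O.cst O.add O.sub O.mul O.scale O.neg O.inv O.exp O.log O.ok O.isPos O.isLt m = true) :
    runG O 4 prog6 m = true := by
  match m, h with
  | [x0, x1, x2, x3], h => exact h

def chkB6 : List opsE.α → Bool :=
  chk6 opsE.cst opsE.add opsE.sub opsE.mul opsE.scale opsE.neg opsE.inv opsE.exp opsE.log opsE.ok opsE.isPos opsE.isLt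

theorem chkB6_eq (m : List opsE.α) (h : chkB6 m = true) : runG opsE 4 prog6 m = true :=
  chk6_eq opsE m h

def prog7 : List Op := [
  .const ⟨1099511627776, 0, 0, 0⟩,
  .mul 2 1,
  .mul 4 4,
  .mul 4 0,
  .mul 5 6,
  .mul 0 5,
  .mul 0 0,
  .mul 3 8,
  .const ⟨549755813888, 0, 0, 0⟩,
  .mul 5 7,
  .mul 0 13,
  .scale ⟨549755813888, 0, 0, 0⟩ 0,
  .mul 10 10,
  .mul 1 1,
  .sub 13 0,
  .inv 0,
  .mul 4 0,
  .scale ⟨2199023255552, 0, 0, 0⟩ 0,
  .scale ⟨2199023255552, 0, 0, 0⟩ 2,
  .sub 0 18,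
  .add 0 2,
  .mul 24 5,
  .mul 20 0,
  .sub 22 0,
  .add 23 1,
  .mul 21 12,
  .mul 4 4,
  .scale ⟨2199023255552, 0, 0, 0⟩ 7,
  .sub 0 24,
  .mul 11 6,
  .sub 1 0,
  .mul 30 9,
  .mul 0 0,
  .const ⟨14293651161088, 0, 0, 0⟩,
  .const ⟨10995116277760, 0, 0, 0⟩,
  .inv 0,
  .mul 2 0,
  .mul 4 0,
  .mul 38 38,
  .scale ⟨27487790694400, 0, 0, 0⟩ 0,
  .add 2 0,
  .mul 40 40,
  .mul 18 17,
  .mul 1 0,
  .mul 40 20,
  .sub 44 0,
  .mul 20 15,
  .sub 46 0,
  .mul 2 0,
  .mul 8 0,
  .sub 6 0,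
  .pos 0]

def chk7 {α : Type} (cst : Z → α) (add sub mul : α → α → α) (scale : Z → α → α)
    (neg inv exp log : α → α) (ok : α → Bool) (isPos : Nat → α → Bool) (isLt : α → Nat → Bool) :
    List α → Bool
  | [x0, x1, x2, x3] =>
  let v0 := cst ⟨1099511627776, 0, 0, 0⟩; ok v0 && (
  let v1 := mul x1 x0; ok v1 && (
  let v2 := mul x2 x2; ok v2 && (
  let v3 := mul x1 v2; ok v3 && (
  let v4 := mul x1 x2; ok v4 && (
  let v5 := mul v4 x0; ok v5 && (
  let v6 := mul v5 v5; ok v6 && (
  let v7 := mul v3 x1; ok v7 && (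
  let v8 := cst ⟨549755813888, 0, 0, 0⟩; ok v8 && (
  let v9 := mul v3 v1; ok v9 && (
  let v10 := mul v9 x3; ok v10 && (
  let v11 := scale ⟨549755813888, 0, 0, 0⟩ v10; ok v11 && (
  let v12 := mul v1 v1; ok v12 && (
  let v13 := mul v11 v11; ok v13 && (
  let v14 := sub v0 v13; ok v14 && (
  let v15 := inv v14; ok v15 && (
  let v16 := mul v11 v15; ok v16 && (
  let v17 := scale ⟨2199023255552, 0, 0, 0⟩ v16; ok v17 && (
  let v18 := scale ⟨2199023255552, 0, 0, 0⟩ v15; ok v18 && (
  let v19 := sub v18 v0; ok v19 && (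
  let v20 := add v19 v17; ok v20 && (
  let v21 := mul x3 v15; ok v21 && (
  let v22 := mul v1 v21; ok v22 && (
  let v23 := sub v0 v22; ok v23 && (
  let v24 := add v0 v22; ok v24 && (
  let v25 := mul v3 v12; ok v25 && (
  let v26 := mul v21 v21; ok v26 && (
  let v27 := scale ⟨2199023255552, 0, 0, 0⟩ v19; ok v27 && (
  let v28 := sub v27 v3; ok v28 && (
  let v29 := mul v17 v22; ok v29 && (
  let v30 := sub v28 v29; ok v30 && (
  let v31 := mul v0 v21; ok v31 && (
  let v32 := mul v31 v31; ok v32 && (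
  let v33 := cst ⟨14293651161088, 0, 0, 0⟩; ok v33 && (
  let v34 := cst ⟨10995116277760, 0, 0, 0⟩; ok v34 && (
  let v35 := inv v34; ok v35 && (
  let v36 := mul v33 v35; ok v36 && (
  let v37 := mul v32 v36; ok v37 && (
  let v38 := mul x0 x0; ok v38 && (
  let v39 := scale ⟨27487790694400, 0, 0, 0⟩ v38; ok v39 && (
  let v40 := add v37 v39; ok v40 && (
  let v41 := mul v0 v0; ok v41 && (
  let v42 := mul v23 v24; ok v42 && (
  let v43 := mul v41 v42; ok v43 && (
  let v44 := mul v3 v23; ok v44 && (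
  let v45 := sub v0 v44; ok v45 && (
  let v46 := mul v25 v30; ok v46 && (
  let v47 := sub v0 v46; ok v47 && (
  let v48 := mul v45 v47; ok v48 && (
  let v49 := mul v40 v48; ok v49 && (
  let v50 := sub v43 v49; ok v50 && (
  isPos 4 v50 && (
  true))))))))))))))))))))))))))))))))))))))))))))))))))))
  | _ => false

set_option maxRecDepth 1000000 in
theorem chk7_eq (O : Ops) (m : List O.α)
    (h : chk7 O.cst O.add O.sub O.mul O.scale O.neg O.inv O.exp O.log O.ok O.isPos O.isLt m = true) :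
    runG O 4 prog7 m = true := by
  match m, h with
  | [x0, x1, x2, x3], h => exact h

def chkB7 : List opsE.α → Bool :=
  chk7 opsE.cst opsE.add opsE.sub opsE.mul opsE.scale opsE.neg opsE.inv opsE.exp opsE.log opsE.ok opsE.isPos opsE.isLt

theorem chkB7_eq (m : List opsE.α) (h : chkB7 m = true) : runG opsE 4 prog7 m = true :=
  chk7_eq opsE m h

def prog8 : List Op := [
  .const ⟨1099511627776, 0, 0, 0⟩,
  .mul 2 1,
  .mul 4 4,
  .mul 4 0,
  .mul 5 6,
  .mul 0 5,
  .mul 0 0,
  .mul 3 8,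
  .const ⟨21990735872, 0, 0, 0⟩,
  .sub 2 0,
  .pos 0]

def chk8 {α : Type} (cst : Z → α) (add sub mul : α → α → α) (scale : Z → α → α)
    (neg inv exp log : α → α) (ok : α → Bool) (isPos : Nat → α → Bool) (isLt : α → Nat → Bool) :
    List α → Bool
  | [x0, x1, x2, x3] =>
  let v0 := cst ⟨1099511627776, 0, 0, 0⟩; ok v0 && (
  let v1 := mul x1 x0; ok v1 && (
  let v2 := mul x2 x2; ok v2 && (
  let v3 := mul x1 v2; ok v3 && (
  let v4 := mul x1 x2; ok v4 && (
  let v5 := mul v4 x0; ok v5 && (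
  let v6 := mul v5 v5; ok v6 && (
  let v7 := mul v3 x1; ok v7 && (
  let v8 := cst ⟨21990735872, 0, 0, 0⟩; ok v8 && (
  let v9 := sub v6 v8; ok v9 && (
  isPos 4 v9 && (
  true)))))))))))
  | _ => false

set_option maxRecDepth 1000000 in
theorem chk8_eq (O : Ops) (m : List O.α)
    (h : chk8 O.cst O.add O.sub O.mul O.scale O.neg O.inv O.exp O.log O.ok O.isPos O.isLt m = true) :
    runG O 4 prog8 m = true := by
  match m, h with
  | [x0, x1, x2, x3], h => exact h

def chkB8 : List opsE.α → Bool :=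
  chk8 opsE.cst opsE.add opsE.sub opsE.mul opsE.scale opsE.neg opsE.inv opsE.exp opsE.log opsE.ok opsE.isPos opsE.isLt

theorem chkB8_eq (m : List opsE.α) (h : chkB8 m = true) : runG opsE 4 prog8 m = true :=
  chk8_eq opsE m h

def prog9 : List Op := [
  .const ⟨1099511627776, 0, 0, 0⟩,
  .mul 2 1,
  .mul 4 4,
  .mul 4 0,
  .mul 5 6,
  .mul 0 5,
  .mul 0 0,
  .mul 3 8,
  .const ⟨10994319360, 0, 0, 0⟩,
  .sub 0 2,
  .pos 0]

def chk9 {α : Type} (cst : Z → α) (add sub mul : α → α → α) (scale : Z → α → α)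
    (neg inv exp log : α → α) (ok : α → Bool) (isPos : Nat → α → Bool) (isLt : α → Nat → Bool) :
    List α → Bool
  | [x0, x1, x2, x3] =>
  let v0 := cst ⟨1099511627776, 0, 0, 0⟩; ok v0 && (
  let v1 := mul x1 x0; ok v1 && (
  let v2 := mul x2 x2; ok v2 && (
  let v3 := mul x1 v2; ok v3 && (
  let v4 := mul x1 x2; ok v4 && (
  let v5 := mul v4 x0; ok v5 && (
  let v6 := mul v5 v5; ok v6 && (
  let v7 := mul v3 x1; ok v7 && (
  let v8 := cst ⟨10994319360, 0, 0, 0⟩; ok v8 && (
  let v9 := sub v8 v6; ok v9 && (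
  isPos 4 v9 && (
  true)))))))))))
  | _ => false

set_option maxRecDepth 1000000 in
theorem chk9_eq (O : Ops) (m : List O.α)
    (h : chk9 O.cst O.add O.sub O.mul O.scale O.neg O.inv O.exp O.log O.ok O.isPos O.isLt m = true) :
    runG O 4 prog9 m = true := by
  match m, h with
  | [x0, x1, x2, x3], h => exact h

def chkB9 : List opsE.α → Bool :=
  chk9 opsE.cst opsE.add opsE.sub opsE.mul opsE.scale opsE.neg opsE.inv opsE.exp opsE.log opsE.ok opsE.isPos opsE.isLt

theorem chkB9_eq (m : List opsE.α) (h : chkB9 m = true) : runG opsE 4 prog9 m = true :=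
  chk9_eq opsE m h

def prog10 : List Op := [
  .const ⟨1099511627776, 0, 0, 0⟩,
  .mul 2 1,
  .mul 4 4,
  .mul 4 0,
  .mul 5 6,
  .mul 0 5,
  .mul 0 0,
  .mul 3 8,
  .sub 6 7,
  .pos 0]

def chk10 {α : Type} (cst : Z → α) (add sub mul : α → α → α) (scale : Z → α → α)
    (neg inv exp log : α → α) (ok : α → Bool) (isPos : Nat → α → Bool) (isLt : α → Nat → Bool) :
    List α → Bool
  | [x0, x1, x2, x3] =>
  let v0 := cst ⟨1099511627776, 0, 0, 0⟩; ok v0 && (
  let v1 := mul x1 x0; ok v1 && (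
  let v2 := mul x2 x2; ok v2 && (
  let v3 := mul x1 v2; ok v3 && (
  let v4 := mul x1 x2; ok v4 && (
  let v5 := mul v4 x0; ok v5 && (
  let v6 := mul v5 v5; ok v6 && (
  let v7 := mul v3 x1; ok v7 && (
  let v8 := sub v1 v0; ok v8 && (
  isPos 4 v8 && (
  true))))))))))
  | _ => false

set_option maxRecDepth 1000000 in
theorem chk10_eq (O : Ops) (m : List O.α)
    (h : chk10 O.cst O.add O.sub O.mul O.scale O.neg O.inv O.exp O.log O.ok O.isPos O.isLt m = true) :
    runG O 4 prog10 m = true := by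
  match m, h with
  | [x0, x1, x2, x3], h => exact h

def chkB10 : List opsE.α → Bool :=
  chk10 opsE.cst opsE.add opsE.sub opsE.mul opsE.scale opsE.neg opsE.inv opsE.exp opsE.log opsE.ok opsE.isPos opsE.isLt

theorem chkB10_eq (m : List opsE.α) (h : chkB10 m = true) : runG opsE 4 prog10 m = true :=
  chk10_eq opsE m h

def prog11 : List Op := [
  .const ⟨1099511627776, 0, 0, 0⟩,
  .mul 2 1,
  .mul 4 4,
  .mul 4 0,
  .mul 5 6,
  .mul 0 5,
  .mul 0 0,
  .mul 3 8,
  .const ⟨549755813888, 0, 0, 0⟩,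
  .mul 5 7,
  .mul 0 13,
  .scale ⟨549755813888, 0, 0, 0⟩ 0,
  .mul 10 10,
  .mul 1 1,
  .sub 13 0,
  .inv 0,
  .mul 4 0,
  .scale ⟨2199023255552, 0, 0, 0⟩ 0,
  .scale ⟨2199023255552, 0, 0, 0⟩ 2,
  .sub 0 18,
  .add 0 2,
  .mul 24 5,
  .mul 20 0,
  .sub 22 0,
  .add 23 1,
  .mul 21 12,
  .mul 4 4,
  .scale ⟨549755813888, 0, 0, 0⟩ 27,
  .mul 27 6,
  .sub 1 0,
  .pos 0]

def chk11 {α : Type} (cst : Z → α) (add sub mul : α → α → α) (scale : Z → α → α)
    (neg inv exp log : α → α) (ok : α → Bool) (isPos : Nat → α → Bool) (isLt : α → Nat → Bool) :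
    List α → Bool
  | [x0, x1, x2, x3] =>
  let v0 := cst ⟨1099511627776, 0, 0, 0⟩; ok v0 && (
  let v1 := mul x1 x0; ok v1 && (
  let v2 := mul x2 x2; ok v2 && (
  let v3 := mul x1 v2; ok v3 && (
  let v4 := mul x1 x2; ok v4 && (
  let v5 := mul v4 x0; ok v5 && (
  let v6 := mul v5 v5; ok v6 && (
  let v7 := mul v3 x1; ok v7 && (
  let v8 := cst ⟨549755813888, 0, 0, 0⟩; ok v8 && (
  let v9 := mul v3 v1; ok v9 && (
  let v10 := mul v9 x3; ok v10 && (
  let v11 := scale ⟨549755813888, 0, 0, 0⟩ v10; ok v11 && (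
  let v12 := mul v1 v1; ok v12 && (
  let v13 := mul v11 v11; ok v13 && (
  let v14 := sub v0 v13; ok v14 && (
  let v15 := inv v14; ok v15 && (
  let v16 := mul v11 v15; ok v16 && (
  let v17 := scale ⟨2199023255552, 0, 0, 0⟩ v16; ok v17 && (
  let v18 := scale ⟨2199023255552, 0, 0, 0⟩ v15; ok v18 && (
  let v19 := sub v18 v0; ok v19 && (
  let v20 := add v19 v17; ok v20 && (
  let v21 := mul x3 v15; ok v21 && (
  let v22 := mul v1 v21; ok v22 && (
  let v23 := sub v0 v22; ok v23 && (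
  let v24 := add v0 v22; ok v24 && (
  let v25 := mul v3 v12; ok v25 && (
  let v26 := mul v21 v21; ok v26 && (
  let v27 := scale ⟨549755813888, 0, 0, 0⟩ x0; ok v27 && (
  let v28 := mul v0 v21; ok v28 && (
  let v29 := sub v27 v28; ok v29 && (
  isPos 4 v29 && (
  true)))))))))))))))))))))))))))))))
  | _ => false

set_option maxRecDepth 1000000 in
theorem chk11_eq (O : Ops) (m : List O.α)
    (h : chk11 O.cst O.add O.sub O.mul O.scale O.neg O.inv O.exp O.log O.ok O.isPos O.isLt m = true) :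
    runG O 4 prog11 m = true := by
  match m, h with
  | [x0, x1, x2, x3], h => exact h

def chkB11 : List opsE.α → Bool :=
  chk11 opsE.cst opsE.add opsE.sub opsE.mul opsE.scale opsE.neg opsE.inv opsE.exp opsE.log opsE.ok opsE.isPos opsE.isLt

theorem chkB11_eq (m : List opsE.α) (h : chkB11 m = true) : runG opsE 4 prog11 m = true :=
  chk11_eq opsE m h

def progs : List (List Op) := [prog0, prog1, prog2, prog3, prog4, prog5, prog6, prog7, prog8, prog9, prog10, prog11]

def chks : List (List opsE.α → Bool) := [chkB0, chkB1, chkB2, chkB3, chkB4, chkB5, chkB6, chkB7, chkB8, chkB9, chkB10, chkB11]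

theorem chks_eq : List.Forall₂ (fun (ops : List Op) (chk : List opsE.α → Bool) =>
    ∀ m, chk m = true → runG opsE 4 ops m = true) progs chks :=
  List.Forall₂.cons chkB0_eq (List.Forall₂.cons chkB1_eq (List.Forall₂.cons chkB2_eq (List.Forall₂.cons chkB3_eq (List.Forall₂.cons chkB4_eq (List.Forall₂.cons chkB5_eq (List.Forall₂.cons chkB6_eq (List.Forall₂.cons chkB7_eq (List.Forall₂.cons chkB8_eq (List.Forall₂.cons chkB9_eq (List.Forall₂.cons chkB10_eq (List.Forall₂.cons chkB11_eq List.Forall₂.nil)))))))))))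

end Pool.Agent.helper71.FJ.Crt.LMb
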