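import Pool.Agent.helper31.IC.EngD
import Pool.Agent.helper14.QF.Inst

/-!
Generated: straight line program(s) and compiled form(s).
-/

namespace Pool.Agent.helper71.FJ.Crt.LMc

open Pool.Agent.helper31.IA (Z Op)
open Pool.Agent.helper31.IC

set_option maxRecDepth 100000

abbrev opsE : Ops := Pool.Agent.helper14.QF.opsF

def prog0 : List Op := [
  .const ⟨1099511627776, 0, 0, 0⟩,
  .mul 2 1,
  .mul 4 2,
  .mul 0 4,
  .mul 0 2,
  .const ⟨549755813888, 0, 0, 0⟩,
  .mul 2 9,
  .scale ⟨549755813888, 0, 0, 0⟩ 0,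
  .mul 9 9,
  .mul 1 1,
  .sub 9 0,
  .inv 0,
  .mul 4 0,
  .scale ⟨2199023255552, 0, 0, 0⟩ 0,
  .scale ⟨2199023255552, 0, 0, 0⟩ 2,
  .sub 0 14,
  .add 0 2,
  .mul 20 5,
  .mul 19 0,
  .sub 18 0,
  .add 19 1,
  .mul 18 12,
  .mul 4 4,
  .scale ⟨10774999203840, 0, 0, 0⟩ 15,
  .scale ⟨45768245248, 0, 0, 0⟩ 0,
  .const ⟨183207198720, 0, 0, 0⟩,
  .add 1 0,
  .mul 3 0,
  .add 22 0,
  .mul 5 0,
  .add 29 0,
  .mul 7 0,
  .scale ⟨549755813888, 0, 0, 0⟩ 0,
  .add 32 0,
  .mul 3 0,
  .mul 21 16,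
  .scale ⟨2199023255552, 0, 0, 0⟩ 20,
  .add 1 0,
  .add 0 35,
  .mul 17 0,
  .add 0 39,
  .mul 27 27,
  .scale ⟨2199023255552, 0, 0, 0⟩ 0,
  .add 0 42,
  .mul 28 5,
  .sub 0 44,
  .log 5,
  .scale ⟨549755813888, 0, 0, 0⟩ 0,
  .exp 0,
  .const ⟨3298534883328, 0, 0, 0⟩,
  .inv 0,
  .mul 50 0,
  .const ⟨2199023255552, 0, 0, 0⟩,
  .add 13 0,
  .inv 0,
  .mul 15 0,
  .mul 0 0,
  .sub 56 1,
  .mul 1 6,
  .add 58 0,
  .mul 2 0,
  .mul 4 4,
  .scale ⟨219915747328, 0, 0, 0⟩ 0,
  .mul 24 2,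
  .scale ⟨549755813888, 0, 0, 0⟩ 0,
  .mul 26 2,
  .scale ⟨549755813888, 0, 0, 0⟩ 0,
  .add 2 0,
  .mul 52 22,
  .scale ⟨4398046511104, 0, 0, 0⟩ 0,
  .mul 54 48,
  .mul 0 25,
  .scale ⟨4398046511104, 0, 0, 0⟩ 0,
  .add 0 20,
  .inv 0,
  .mul 2 0,
  .mul 0 0,
  .sub 76 1,
  .mul 1 26,
  .add 78 0,
  .mul 2 0,
  .mul 4 4,
  .scale ⟨219915747328, 0, 0, 0⟩ 0,
  .mul 13 2,
  .scale ⟨549755813888, 0, 0, 0⟩ 0,
  .sub 0 17,
  .mul 16 3,
  .scale ⟨549755813888, 0, 0, 0⟩ 0,
  .add 0 21,
  .add 3 0,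
  .mul 90 90,
  .mul 91 26,
  .add 1 0,
  .mul 28 28,
  .scale ⟨549755813888, 0, 0, 0⟩ 0,
  .add 2 0,
  .inv 0,
  .mul 6 0,
  .mul 98 12,
  .add 8 0,
  .mul 14 14,
  .scale ⟨549755813888, 0, 0, 0⟩ 0,
  .add 2 0,
  .inv 0,
  .mul 13 0,
  .mul 86 91,
  .add 90 0,
  .inv 0,
  .mul 87 0,
  .mul 89 106,
  .mul 0 1,
  .sub 110 102,
  .mul 89 0,
  .mul 109 109,
  .sub 113 91,
  .mul 3 0,
  .mul 94 70,
  .inv 76,
  .mul 1 0,
  .add 103 0,
  .mul 79 0,
  .mul 0 0,
  .inv 0,
  .mul 7 0,
  .add 13 123,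
  .mul 27 0,
  .sub 125 0,
  .pos 0,
  .add 29 126,
  .inv 1,
  .mul 1 0,
  .scale ⟨549755813888, 0, 0, 0⟩ 0,
  .add 0 125,
  .inv 0,
  .mul 2 0,
  .mul 23 0,
  .scale ⟨549755813888, 0, 0, 0⟩ 0,
  .sub 135 0,
  .sub 136 2,
  .inv 0,
  .mul 2 0,
  .add 5 139,
  .mul 43 0,
  .mul 33 2,
  .mul 0 9,
  .mul 9 4,
  .pos 7,
  .mul 125 124,
  .add 130 143,
  .mul 128 131,
  .mul 0 134,
  .scale ⟨2199023255552, 0, 0, 0⟩ 0,
  .add 106 0,
  .mul 4 0,
  .inv 0,
  .mul 7 0,
  .mul 151 0,
  .pos 69,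
  .add 0 154,
  .mul 51 0,
  .sub 156 0,
  .pos 0,
  .add 53 157,
  .inv 1,
  .mul 1 0,
  .scale ⟨549755813888, 0, 0, 0⟩ 0,
  .add 0 156,
  .inv 0,
  .mul 2 0,
  .mul 10 0,
  .mul 1 164,
  .add 159 166,
  .inv 0,
  .mul 161 0,
  .scale ⟨2199023255552, 0, 0, 0⟩ 0,
  .sub 170 0,
  .sub 171 164,
  .mul 176 4,
  .mul 0 2,
  .add 154 0,
  .scale ⟨224412041216, 0, 0, 0⟩ 164,
  .inv 142,
  .mul 1 0,
  .scale ⟨4398046511104, 0, 0, 0⟩ 177,
  .mul 179 162,
  .add 1 0,
  .scale ⟨549755813888, 0, 0, 0⟩ 0,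
  .inv 0,
  .mul 183 0,
  .mul 183 1,
  .mul 0 165,
  .mul 0 8,
  .mul 3 167,
  .mul 0 10,
  .sub 189 0,
  .inv 0,
  .mul 50 2,
  .sub 192 0,
  .inv 0,
  .scale ⟨2199023255552, 0, 0, 0⟩ 190,
  .add 0 195,
  .add 192 196,
  .scale ⟨3573412790272, 0, 0, 0⟩ 179,
  .const ⟨339302416384, 0, 0, 0⟩,
  .add 1 0,
  .scale ⟨549755813888, 0, 0, 0⟩ 0,
  .mul 194 184,
  .sub 202 90,
  .mul 196 185,
  .scale ⟨2199023255552, 0, 0, 0⟩ 0,
  .sub 2 0,
  .mul 4 4,
  .add 1 0,
  .add 0 208,
  .scale ⟨549755813888, 0, 0, 0⟩ 0,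
  .scale ⟨549755813888, 0, 0, 0⟩ 189,
  .sub 200 0,
  .mul 99 9,
  .mul 0 203,
  .scale ⟨137438953472, 0, 0, 0⟩ 0,
  .add 3 0,
  .mul 6 0,
  .add 76 217,
  .mul 0 27,
  .mul 78 25,
  .add 1 0,
  .mul 32 0,
  .add 78 0,
  .mul 0 219,
  .mul 6 35,
  .mul 0 34,
  .add 82 0,
  .mul 0 223,
  .scale ⟨223338299392, 0, 0, 0⟩ 0,
  .add 224 0,
  .mul 2 0,
  .add 231 0,
  .scale ⟨893353197568, 0, 0, 0⟩ 8,
  .add 233 0,
  .mul 10 0,
  .add 235 0,
  .mul 66 63,
  .mul 0 41,
  .mul 0 2,
  .mul 22 7,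
  .add 192 235,
  .mul 2 0,
  .add 2 0,
  .add 195 243,
  .mul 5 0,
  .mul 48 1,
  .mul 0 73,
  .mul 0 75,
  .mul 5 105,
  .mul 1 48,
  .add 1 0,
  .mul 254 76,
  .inv 204,
  .mul 1 0,
  .scale ⟨549755813888, 0, 0, 0⟩ 0,
  .mul 236 0,
  .mul 254 5,
  .add 1 0,
  .mul 257 0,
  .mul 16 41,
  .mul 0 69,
  .mul 16 120,
  .mul 0 68,
  .add 2 0,
  .mul 245 5,
  .mul 78 1,
  .add 1 0,
  .mul 154 0,
  .mul 0 15,
  .sub 269 0,
  .inv 0,
  .mul 4 0,
  .mul 270 0,
  .mul 160 1,
  .mul 0 21,
  .sub 275 0,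
  .mul 231 0,
  .sub 0 4,
  .inv 0,
  .mul 6 0,
  .sub 232 6,
  .inv 0,
  .mul 2 118,
  .scale ⟨549755813888, 0, 0, 0⟩ 0,
  .sub 284 0,
  .sub 285 2,
  .inv 0,
  .mul 2 0,
  .mul 290 6,
  .mul 123 10,
  .mul 0 2,
  .add 2 0,
  .mul 295 20,
  .mul 11 0,
  .mul 130 15,
  .mul 0 7,
  .mul 0 23,
  .add 3 0,
  .scale ⟨223338299392, 0, 0, 0⟩ 0,
  .add 294 0,
  .mul 2 0,
  .add 301 0,
  .mul 10 0,
  .mul 0 32,
  .mul 0 40,
  .mul 117 286,
  .const ⟨5497558138880, 0, 0, 0⟩,
  .inv 0,
  .mul 259 0,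
  .mul 142 289,
  .mul 0 1,
  .mul 165 204,
  .mul 294 0,
  .scale ⟨549755813888, 0, 0, 0⟩ 148,
  .sub 314 0,
  .sub 315 150,
  .inv 0,
  .mul 2 0,
  .mul 0 164,
  .mul 206 196,
  .scale ⟨733097230336, 0, 0, 0⟩ 0,
  .sub 321 0,
  .mul 199 0,
  .mul 315 223,
  .add 1 0,
  .mul 6 159,
  .add 1 326,
  .mul 1 0,
  .sub 3 0,
  .scale ⟨366548615168, 0, 0, 0⟩ 288,
  .sub 330 0,
  .mul 309 0,
  .add 3 0,
  .mul 21 0,
  .mul 21 21,
  .add 335 0,
  .inv 0,
  .mul 3 0,
  .sub 338 58,
  .mul 0 1,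
  .sub 340 14,
  .pos 0,
  .pos 3,
  .pos 2,
  .mul 37 159,
  .mul 0 84,
  .inv 323,
  .mul 1 0,
  .mul 346 5,
  .add 256 0,
  .mul 7 7,
  .scale ⟨549755813888, 0, 0, 0⟩ 0,
  .add 2 0,
  .inv 0,
  .mul 261 0,
  .mul 350 41,
  .add 353 0,
  .inv 0,
  .mul 3 0,
  .mul 0 340,
  .mul 354 85,
  .mul 0 14,
  .add 359 0,
  .mul 3 0,
  .mul 0 79,
  .mul 360 57,
  .mul 0 174,
  .mul 362 58,
  .mul 20 0,
  .add 2 0,
  .add 4 22,
  .add 368 1,
  .mul 7 0,
  .add 2 0,
  .sub 371 0,
  .scale ⟨1073741824, 0, 0, 0⟩ 370,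
  .sub 1 0,
  .sub 358 374,
  .add 0 323,
  .scale ⟨2199023255552, 0, 0, 0⟩ 67,
  .sub 1 0,
  .mul 211 0,
  .mul 4 2,
  .add 0 380,
  .inv 0,
  .mul 3 0,
  .mul 198 119,
  .scale ⟨549755813888, 0, 0, 0⟩ 206,
  .add 372 0,
  .mul 2 0,
  .scale ⟨2199023255552, 0, 0, 0⟩ 0,
  .add 129 0,
  .scale ⟨2199023255552, 0, 0, 0⟩ 0,
  .mul 0 119,
  .sub 371 33,
  .inv 0,
  .mul 2 0,
  .sub 11 0,
  .mul 215 215,
  .const ⟨14293651161088, 0, 0, 0⟩,
  .const ⟨10995116277760, 0, 0, 0⟩,
  .inv 0,
  .mul 2 0,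
  .mul 4 0,
  .mul 400 400,
  .scale ⟨27487790694400, 0, 0, 0⟩ 0,
  .add 2 0,
  .mul 93 49,
  .sub 369 403,
  .sub 0 371,
  .mul 407 409,
  .mul 0 407,
  .mul 389 145,
  .mul 0 227,
  .add 160 0,
  .add 54 360,
  .mul 413 0,
  .mul 10 9,
  .mul 144 1,
  .mul 7 4,
  .mul 1 0,
  .sub 3 0,
  .scale ⟨549755813888, 0, 0, 0⟩ 61,
  .add 420 0,
  .mul 150 0,
  .mul 420 403,
  .mul 0 248,
  .mul 404 376,
  .inv 0,
  .mul 2 0,
  .mul 5 0,
  .sub 21 0,
  .mul 251 10,
  .sub 430 252,
  .mul 423 2,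
  .mul 1 0,
  .mul 29 0,
  .add 4 0,
  .pos 245,
  .pos 242,
  .scale ⟨2199023255552, 0, 0, 0⟩ 167,
  .sub 388 0,
  .pos 0,
  .pos 159,
  .sub 432 272,
  .pos 0,
  .scale ⟨687194767360, 0, 0, 0⟩ 438,
  .sub 0 211,
  .pos 0,
  .scale ⟨377957122048, 0, 0, 0⟩ 440,
  .sub 0 217,
  .pos 0,
  .pos 50,
  .pos 156,
  .sub 3 144,
  .pos 0,
  .pos 48,
  .pos 69,
  .pos 8,
  .pos 14]

def chk0 {α : Type} (cst : Z → α) (add sub mul : α → α → α) (scale : Z → α → α)
    (neg inv exp log : α → α) (ok : α → Bool) (isPos : Nat → α → Bool) (isLt : α → Nat → Bool) :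
    List α → Bool
  | [x0, x1, x2, x3] =>
  let v0 := cst ⟨1099511627776, 0, 0, 0⟩; ok v0 && (
  let v1 := mul x1 x0; ok v1 && (
  let v2 := mul x2 x0; ok v2 && (
  let v3 := mul v2 x1; ok v3 && (
  let v4 := mul v3 v1; ok v4 && (
  let v5 := cst ⟨549755813888, 0, 0, 0⟩; ok v5 && (
  let v6 := mul v3 x3; ok v6 && (
  let v7 := scale ⟨549755813888, 0, 0, 0⟩ v6; ok v7 && (
  let v8 := mul x1 x1; ok v8 && (
  let v9 := mul v7 v7; ok v9 && (
  let v10 := sub v0 v9; ok v10 && (
  let v11 := inv v10; ok v11 && (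
  let v12 := mul v7 v11; ok v12 && (
  let v13 := scale ⟨2199023255552, 0, 0, 0⟩ v12; ok v13 && (
  let v14 := scale ⟨2199023255552, 0, 0, 0⟩ v11; ok v14 && (
  let v15 := sub v14 v0; ok v15 && (
  let v16 := add v15 v13; ok v16 && (
  let v17 := mul x3 v11; ok v17 && (
  let v18 := mul x1 v17; ok v18 && (
  let v19 := sub v0 v18; ok v19 && (
  let v20 := add v0 v18; ok v20 && (
  let v21 := mul v2 v8; ok v21 && (
  let v22 := mul v17 v17; ok v22 && (
  let v23 := scale ⟨10774999203840, 0, 0, 0⟩ v7; ok v23 && (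
  let v24 := scale ⟨45768245248, 0, 0, 0⟩ v23; ok v24 && (
  let v25 := cst ⟨183207198720, 0, 0, 0⟩; ok v25 && (
  let v26 := add v24 v25; ok v26 && (
  let v27 := mul v23 v26; ok v27 && (
  let v28 := add v5 v27; ok v28 && (
  let v29 := mul v23 v28; ok v29 && (
  let v30 := add v0 v29; ok v30 && (
  let v31 := mul v23 v30; ok v31 && (
  let v32 := scale ⟨549755813888, 0, 0, 0⟩ v31; ok v32 && (
  let v33 := add v0 v32; ok v33 && (
  let v34 := mul v30 v33; ok v34 && (
  let v35 := mul v13 v18; ok v35 && (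
  let v36 := scale ⟨2199023255552, 0, 0, 0⟩ v15; ok v36 && (
  let v37 := add v35 v36; ok v37 && (
  let v38 := add v37 v2; ok v38 && (
  let v39 := mul v21 v38; ok v39 && (
  let v40 := add v39 v0; ok v40 && (
  let v41 := mul v13 v13; ok v41 && (
  let v42 := scale ⟨2199023255552, 0, 0, 0⟩ v41; ok v42 && (
  let v43 := add v42 v0; ok v43 && (
  let v44 := mul v15 v38; ok v44 && (
  let v45 := sub v44 v0; ok v45 && (
  let v46 := log v40; ok v46 && (
  let v47 := scale ⟨549755813888, 0, 0, 0⟩ v46; ok v47 && (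
  let v48 := exp v47; ok v48 && (
  let v49 := cst ⟨3298534883328, 0, 0, 0⟩; ok v49 && (
  let v50 := inv v49; ok v50 && (
  let v51 := mul v0 v50; ok v51 && (
  let v52 := cst ⟨2199023255552, 0, 0, 0⟩; ok v52 && (
  let v53 := add v39 v52; ok v53 && (
  let v54 := inv v53; ok v54 && (
  let v55 := mul v39 v54; ok v55 && (
  let v56 := mul v55 v55; ok v56 && (
  let v57 := sub v0 v55; ok v57 && (
  let v58 := mul v56 v51; ok v58 && (
  let v59 := add v0 v58; ok v59 && (
  let v60 := mul v57 v59; ok v60 && (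
  let v61 := mul v56 v56; ok v61 && (
  let v62 := scale ⟨219915747328, 0, 0, 0⟩ v61; ok v62 && (
  let v63 := mul v38 v60; ok v63 && (
  let v64 := scale ⟨549755813888, 0, 0, 0⟩ v63; ok v64 && (
  let v65 := mul v38 v62; ok v65 && (
  let v66 := scale ⟨549755813888, 0, 0, 0⟩ v65; ok v66 && (
  let v67 := add v64 v66; ok v67 && (
  let v68 := mul v15 v45; ok v68 && (
  let v69 := scale ⟨4398046511104, 0, 0, 0⟩ v68; ok v69 && (
  let v70 := mul v15 v21; ok v70 && (
  let v71 := mul v70 v45; ok v71 && (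
  let v72 := scale ⟨4398046511104, 0, 0, 0⟩ v71; ok v72 && (
  let v73 := add v72 v52; ok v73 && (
  let v74 := inv v73; ok v74 && (
  let v75 := mul v72 v74; ok v75 && (
  let v76 := mul v75 v75; ok v76 && (
  let v77 := sub v0 v75; ok v77 && (
  let v78 := mul v76 v51; ok v78 && (
  let v79 := add v0 v78; ok v79 && (
  let v80 := mul v77 v79; ok v80 && (
  let v81 := mul v76 v76; ok v81 && (
  let v82 := scale ⟨219915747328, 0, 0, 0⟩ v81; ok v82 && (
  let v83 := mul v69 v80; ok v83 && (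
  let v84 := scale ⟨549755813888, 0, 0, 0⟩ v83; ok v84 && (
  let v85 := sub v84 v67; ok v85 && (
  let v86 := mul v69 v82; ok v86 && (
  let v87 := scale ⟨549755813888, 0, 0, 0⟩ v86; ok v87 && (
  let v88 := add v87 v66; ok v88 && (
  let v89 := add v85 v88; ok v89 && (
  let v90 := mul x0 x0; ok v90 && (
  let v91 := mul x0 v64; ok v91 && (
  let v92 := add v90 v91; ok v92 && (
  let v93 := mul v64 v64; ok v93 && (
  let v94 := scale ⟨549755813888, 0, 0, 0⟩ v93; ok v94 && (
  let v95 := add v92 v94; ok v95 && (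
  let v96 := inv v95; ok v96 && (
  let v97 := mul v90 v96; ok v97 && (
  let v98 := mul x0 v85; ok v98 && (
  let v99 := add v90 v98; ok v99 && (
  let v100 := mul v85 v85; ok v100 && (
  let v101 := scale ⟨549755813888, 0, 0, 0⟩ v100; ok v101 && (
  let v102 := add v99 v101; ok v102 && (
  let v103 := inv v102; ok v103 && (
  let v104 := mul v90 v103; ok v104 && (
  let v105 := mul v18 v13; ok v105 && (
  let v106 := add v15 v105; ok v106 && (
  let v107 := inv v106; ok v107 && (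
  let v108 := mul v20 v107; ok v108 && (
  let v109 := mul v19 v2; ok v109 && (
  let v110 := mul v109 v108; ok v110 && (
  let v111 := sub v0 v8; ok v111 && (
  let v112 := mul v22 v111; ok v112 && (
  let v113 := mul v3 v3; ok v113 && (
  let v114 := sub v0 v22; ok v114 && (
  let v115 := mul v111 v114; ok v115 && (
  let v116 := mul v21 v45; ok v116 && (
  let v117 := inv v40; ok v117 && (
  let v118 := mul v116 v117; ok v118 && (
  let v119 := add v15 v118; ok v119 && (
  let v120 := mul v40 v119; ok v120 && (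
  let v121 := mul v120 v120; ok v121 && (
  let v122 := inv v121; ok v122 && (
  let v123 := mul v115 v122; ok v123 && (
  let v124 := add v110 v0; ok v124 && (
  let v125 := mul v97 v124; ok v125 && (
  let v126 := sub v0 v125; ok v126 && (
  isPos 4 v126 && (
  let v127 := add v97 v0; ok v127 && (
  let v128 := inv v126; ok v128 && (
  let v129 := mul v127 v128; ok v129 && (
  let v130 := scale ⟨549755813888, 0, 0, 0⟩ v129; ok v130 && (
  let v131 := add v130 v5; ok v131 && (
  let v132 := inv v131; ok v132 && (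
  let v133 := mul v130 v132; ok v133 && (
  let v134 := mul v110 v133; ok v134 && (
  let v135 := scale ⟨549755813888, 0, 0, 0⟩ v134; ok v135 && (
  let v136 := sub v0 v135; ok v136 && (
  let v137 := sub v0 v134; ok v137 && (
  let v138 := inv v137; ok v138 && (
  let v139 := mul v136 v138; ok v139 && (
  let v140 := add v134 v0; ok v140 && (
  let v141 := mul v97 v140; ok v141 && (
  let v142 := mul v108 v139; ok v142 && (
  let v143 := mul v142 v133; ok v143 && (
  let v144 := mul v134 v139; ok v144 && (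
  isPos 4 v137 && (
  let v145 := mul v19 v20; ok v145 && (
  let v146 := add v15 v2; ok v146 && (
  let v147 := mul v18 v15; ok v147 && (
  let v148 := mul v147 v13; ok v148 && (
  let v149 := scale ⟨2199023255552, 0, 0, 0⟩ v148; ok v149 && (
  let v150 := add v43 v149; ok v150 && (
  let v151 := mul v146 v150; ok v151 && (
  let v152 := inv v151; ok v152 && (
  let v153 := mul v145 v152; ok v153 && (
  let v154 := mul v2 v153; ok v154 && (
  isPos 4 v85 && (
  let v155 := add v154 v0; ok v155 && (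
  let v156 := mul v104 v155; ok v156 && (
  let v157 := sub v0 v156; ok v157 && (
  isPos 4 v157 && (
  let v158 := add v104 v0; ok v158 && (
  let v159 := inv v157; ok v159 && (
  let v160 := mul v158 v159; ok v160 && (
  let v161 := scale ⟨549755813888, 0, 0, 0⟩ v160; ok v161 && (
  let v162 := add v161 v5; ok v162 && (
  let v163 := inv v162; ok v163 && (
  let v164 := mul v161 v163; ok v164 && (
  let v165 := mul v154 v164; ok v165 && (
  let v166 := mul v164 v1; ok v166 && (
  let v167 := add v7 v0; ok v167 && (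
  let v168 := inv v167; ok v168 && (
  let v169 := mul v7 v168; ok v169 && (
  let v170 := scale ⟨2199023255552, 0, 0, 0⟩ v169; ok v170 && (
  let v171 := sub v0 v170; ok v171 && (
  let v172 := sub v0 v7; ok v172 && (
  let v173 := mul x3 v168; ok v173 && (
  let v174 := mul v173 v171; ok v174 && (
  let v175 := add v20 v174; ok v175 && (
  let v176 := scale ⟨224412041216, 0, 0, 0⟩ v11; ok v176 && (
  let v177 := inv v34; ok v177 && (
  let v178 := mul v176 v177; ok v178 && (
  let v179 := scale ⟨4398046511104, 0, 0, 0⟩ v1; ok v179 && (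
  let v180 := mul v0 v17; ok v180 && (
  let v181 := add v179 v180; ok v181 && (
  let v182 := scale ⟨549755813888, 0, 0, 0⟩ v181; ok v182 && (
  let v183 := inv v182; ok v183 && (
  let v184 := mul v0 v183; ok v184 && (
  let v185 := mul v1 v183; ok v185 && (
  let v186 := mul v185 v20; ok v186 && (
  let v187 := mul v186 v178; ok v187 && (
  let v188 := mul v184 v20; ok v188 && (
  let v189 := mul v188 v178; ok v189 && (
  let v190 := sub v0 v189; ok v190 && (
  let v191 := inv v190; ok v191 && (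
  let v192 := mul v141 v189; ok v192 && (
  let v193 := sub v0 v192; ok v193 && (
  let v194 := inv v193; ok v194 && (
  let v195 := scale ⟨2199023255552, 0, 0, 0⟩ v4; ok v195 && (
  let v196 := add v195 v0; ok v196 && (
  let v197 := add v4 v0; ok v197 && (
  let v198 := scale ⟨3573412790272, 0, 0, 0⟩ v18; ok v198 && (
  let v199 := cst ⟨339302416384, 0, 0, 0⟩; ok v199 && (
  let v200 := add v198 v199; ok v200 && (
  let v201 := scale ⟨549755813888, 0, 0, 0⟩ v200; ok v201 && (
  let v202 := mul v7 v17; ok v202 && (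
  let v203 := sub v0 v112; ok v203 && (
  let v204 := mul v7 v18; ok v204 && (
  let v205 := scale ⟨2199023255552, 0, 0, 0⟩ v204; ok v205 && (
  let v206 := sub v203 v205; ok v206 && (
  let v207 := mul v202 v202; ok v207 && (
  let v208 := add v206 v207; ok v208 && (
  let v209 := add v208 v0; ok v209 && (
  let v210 := scale ⟨549755813888, 0, 0, 0⟩ v209; ok v210 && (
  let v211 := scale ⟨549755813888, 0, 0, 0⟩ v21; ok v211 && (
  let v212 := sub v11 v211; ok v212 && (
  let v213 := mul v113 v203; ok v213 && (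
  let v214 := mul v213 v10; ok v214 && (
  let v215 := scale ⟨137438953472, 0, 0, 0⟩ v214; ok v215 && (
  let v216 := add v212 v215; ok v216 && (
  let v217 := mul v210 v216; ok v217 && (
  let v218 := add v141 v0; ok v218 && (
  let v219 := mul v218 v191; ok v219 && (
  let v220 := mul v141 v194; ok v220 && (
  let v221 := add v219 v220; ok v221 && (
  let v222 := mul v189 v221; ok v222 && (
  let v223 := add v144 v222; ok v223 && (
  let v224 := mul v223 v4; ok v224 && (
  let v225 := mul v218 v189; ok v225 && (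
  let v226 := mul v225 v191; ok v226 && (
  let v227 := add v144 v226; ok v227 && (
  let v228 := mul v227 v4; ok v228 && (
  let v229 := scale ⟨223338299392, 0, 0, 0⟩ v228; ok v229 && (
  let v230 := add v5 v229; ok v230 && (
  let v231 := mul v228 v230; ok v231 && (
  let v232 := add v0 v231; ok v232 && (
  let v233 := scale ⟨893353197568, 0, 0, 0⟩ v224; ok v233 && (
  let v234 := add v0 v233; ok v234 && (
  let v235 := mul v224 v234; ok v235 && (
  let v236 := add v0 v235; ok v236 && (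
  let v237 := mul v170 v173; ok v237 && (
  let v238 := mul v237 v196; ok v238 && (
  let v239 := mul v238 v236; ok v239 && (
  let v240 := mul v217 v232; ok v240 && (
  let v241 := add v48 v5; ok v241 && (
  let v242 := mul v239 v241; ok v242 && (
  let v243 := add v240 v242; ok v243 && (
  let v244 := add v48 v0; ok v244 && (
  let v245 := mul v239 v244; ok v245 && (
  let v246 := mul v197 v244; ok v246 && (
  let v247 := mul v246 v173; ok v247 && (
  let v248 := mul v247 v172; ok v248 && (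
  let v249 := mul v243 v143; ok v249 && (
  let v250 := mul v248 v201; ok v250 && (
  let v251 := add v249 v250; ok v251 && (
  let v252 := mul x2 v175; ok v252 && (
  let v253 := inv v48; ok v253 && (
  let v254 := mul v252 v253; ok v254 && (
  let v255 := scale ⟨549755813888, 0, 0, 0⟩ v254; ok v255 && (
  let v256 := mul v19 v255; ok v256 && (
  let v257 := mul v2 v251; ok v257 && (
  let v258 := add v256 v257; ok v258 && (
  let v259 := mul v1 v258; ok v259 && (
  let v260 := mul v243 v218; ok v260 && (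
  let v261 := mul v260 v191; ok v261 && (
  let v262 := mul v245 v141; ok v262 && (
  let v263 := mul v262 v194; ok v263 && (
  let v264 := add v261 v263; ok v264 && (
  let v265 := mul v19 v259; ok v265 && (
  let v266 := mul v187 v264; ok v266 && (
  let v267 := add v265 v266; ok v267 && (
  let v268 := mul v113 v267; ok v268 && (
  let v269 := mul v268 v253; ok v269 && (
  let v270 := sub v0 v269; ok v270 && (
  let v271 := inv v270; ok v271 && (
  let v272 := mul v267 v271; ok v272 && (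
  let v273 := mul v2 v272; ok v273 && (
  let v274 := mul v113 v272; ok v274 && (
  let v275 := mul v274 v253; ok v275 && (
  let v276 := sub v0 v275; ok v276 && (
  let v277 := mul v45 v276; ok v277 && (
  let v278 := sub v277 v273; ok v278 && (
  let v279 := inv v278; ok v279 && (
  let v280 := mul v273 v279; ok v280 && (
  let v281 := sub v48 v274; ok v281 && (
  let v282 := inv v281; ok v282 && (
  let v283 := mul v280 v164; ok v283 && (
  let v284 := scale ⟨549755813888, 0, 0, 0⟩ v283; ok v284 && (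
  let v285 := sub v0 v284; ok v285 && (
  let v286 := sub v0 v283; ok v286 && (
  let v287 := inv v286; ok v287 && (
  let v288 := mul v285 v287; ok v288 && (
  let v289 := mul x1 v282; ok v289 && (
  let v290 := mul v166 v279; ok v290 && (
  let v291 := mul v290 v288; ok v291 && (
  let v292 := add v289 v291; ok v292 && (
  let v293 := mul x2 v272; ok v293 && (
  let v294 := mul v282 v293; ok v294 && (
  let v295 := mul v164 v279; ok v295 && (
  let v296 := mul v295 v288; ok v296 && (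
  let v297 := mul v296 v273; ok v297 && (
  let v298 := add v294 v297; ok v298 && (
  let v299 := scale ⟨223338299392, 0, 0, 0⟩ v298; ok v299 && (
  let v300 := add v5 v299; ok v300 && (
  let v301 := mul v298 v300; ok v301 && (
  let v302 := add v0 v301; ok v302 && (
  let v303 := mul v292 v302; ok v303 && (
  let v304 := mul v303 v271; ok v304 && (
  let v305 := mul v304 v264; ok v305 && (
  let v306 := mul v188 v19; ok v306 && (
  let v307 := cst ⟨5497558138880, 0, 0, 0⟩; ok v307 && (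
  let v308 := inv v307; ok v308 && (
  let v309 := mul v49 v308; ok v309 && (
  let v310 := mul v167 v20; ok v310 && (
  let v311 := mul v310 v309; ok v311 && (
  let v312 := mul v146 v107; ok v312 && (
  let v313 := mul v18 v312; ok v313 && (
  let v314 := scale ⟨549755813888, 0, 0, 0⟩ v165; ok v314 && (
  let v315 := sub v0 v314; ok v315 && (
  let v316 := sub v0 v165; ok v316 && (
  let v317 := inv v316; ok v317 && (
  let v318 := mul v315 v317; ok v318 && (
  let v319 := mul v318 v154; ok v319 && (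
  let v320 := mul v113 v123; ok v320 && (
  let v321 := scale ⟨733097230336, 0, 0, 0⟩ v320; ok v321 && (
  let v322 := sub v0 v321; ok v322 && (
  let v323 := mul v123 v322; ok v323 && (
  let v324 := mul v8 v100; ok v324 && (
  let v325 := add v323 v324; ok v325 && (
  let v326 := mul v319 v166; ok v326 && (
  let v327 := add v325 v0; ok v327 && (
  let v328 := mul v326 v327; ok v328 && (
  let v329 := sub v325 v328; ok v329 && (
  let v330 := scale ⟨366548615168, 0, 0, 0⟩ v41; ok v330 && (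
  let v331 := sub v0 v330; ok v331 && (
  let v332 := mul v22 v331; ok v332 && (
  let v333 := add v329 v332; ok v333 && (
  let v334 := mul v312 v333; ok v334 && (
  let v335 := mul v313 v313; ok v335 && (
  let v336 := add v0 v335; ok v336 && (
  let v337 := inv v336; ok v337 && (
  let v338 := mul v334 v337; ok v338 && (
  let v339 := sub v0 v280; ok v339 && (
  let v340 := mul v339 v338; ok v340 && (
  let v341 := sub v0 v326; ok v341 && (
  isPos 4 v341 && (
  isPos 4 v338 && (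
  isPos 4 v339 && (
  let v342 := mul v304 v182; ok v342 && (
  let v343 := mul v342 v258; ok v343 && (
  let v344 := inv v20; ok v344 && (
  let v345 := mul v343 v344; ok v345 && (
  let v346 := mul x0 v340; ok v346 && (
  let v347 := add v90 v346; ok v347 && (
  let v348 := mul v340 v340; ok v348 && (
  let v349 := scale ⟨549755813888, 0, 0, 0⟩ v348; ok v349 && (
  let v350 := add v347 v349; ok v350 && (
  let v351 := inv v350; ok v351 && (
  let v352 := mul v90 v351; ok v352 && (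
  let v353 := mul v2 v311; ok v353 && (
  let v354 := add v0 v353; ok v354 && (
  let v355 := inv v354; ok v355 && (
  let v356 := mul v352 v355; ok v356 && (
  let v357 := mul v356 v16; ok v357 && (
  let v358 := mul v3 v272; ok v358 && (
  let v359 := mul v358 v344; ok v359 && (
  let v360 := add v0 v359; ok v360 && (
  let v361 := mul v357 v360; ok v361 && (
  let v362 := mul v361 v282; ok v362 && (
  let v363 := mul v2 v305; ok v363 && (
  let v364 := mul v363 v189; ok v364 && (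
  let v365 := mul v2 v306; ok v365 && (
  let v366 := mul v345 v365; ok v366 && (
  let v367 := add v364 v366; ok v367 && (
  let v368 := add v363 v345; ok v368 && (
  let v369 := add v0 v367; ok v369 && (
  let v370 := mul v362 v369; ok v370 && (
  let v371 := add v368 v370; ok v371 && (
  let v372 := sub v0 v371; ok v372 && (
  let v373 := scale ⟨1073741824, 0, 0, 0⟩ v2; ok v373 && (
  let v374 := sub v372 v373; ok v374 && (
  let v375 := sub v16 v0; ok v375 && (
  let v376 := add v375 v52; ok v376 && (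
  let v377 := scale ⟨2199023255552, 0, 0, 0⟩ v309; ok v377 && (
  let v378 := sub v376 v377; ok v378 && (
  let v379 := mul v167 v378; ok v379 && (
  let v380 := mul v375 v377; ok v380 && (
  let v381 := add v380 v0; ok v381 && (
  let v382 := inv v381; ok v382 && (
  let v383 := mul v379 v382; ok v383 && (
  let v384 := mul v185 v264; ok v384 && (
  let v385 := scale ⟨549755813888, 0, 0, 0⟩ v178; ok v385 && (
  let v386 := add v13 v385; ok v386 && (
  let v387 := mul v384 v386; ok v387 && (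
  let v388 := scale ⟨2199023255552, 0, 0, 0⟩ v387; ok v388 && (
  let v389 := add v259 v388; ok v389 && (
  let v390 := scale ⟨2199023255552, 0, 0, 0⟩ v389; ok v390 && (
  let v391 := mul v390 v271; ok v391 && (
  let v392 := sub v20 v358; ok v392 && (
  let v393 := inv v392; ok v393 && (
  let v394 := mul v391 v393; ok v394 && (
  let v395 := sub v383 v394; ok v395 && (
  let v396 := mul v180 v180; ok v396 && (
  let v397 := cst ⟨14293651161088, 0, 0, 0⟩; ok v397 && (
  let v398 := cst ⟨10995116277760, 0, 0, 0⟩; ok v398 && (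
  let v399 := inv v398; ok v399 && (
  let v400 := mul v397 v399; ok v400 && (
  let v401 := mul v396 v400; ok v401 && (
  let v402 := mul v1 v1; ok v402 && (
  let v403 := scale ⟨27487790694400, 0, 0, 0⟩ v402; ok v403 && (
  let v404 := add v401 v403; ok v404 && (
  let v405 := mul v311 v355; ok v405 && (
  let v406 := sub v36 v2; ok v406 && (
  let v407 := sub v406 v35; ok v407 && (
  let v408 := mul v0 x1; ok v408 && (
  let v409 := mul v408 v1; ok v409 && (
  let v410 := mul v20 v264; ok v410 && (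
  let v411 := mul v410 v183; ok v411 && (
  let v412 := add v251 v411; ok v412 && (
  let v413 := add v358 v52; ok v413 && (
  let v414 := mul v0 v413; ok v414 && (
  let v415 := mul v404 v405; ok v415 && (
  let v416 := mul v271 v414; ok v416 && (
  let v417 := mul v409 v412; ok v417 && (
  let v418 := mul v416 v417; ok v418 && (
  let v419 := sub v415 v418; ok v419 && (
  let v420 := scale ⟨549755813888, 0, 0, 0⟩ v358; ok v420 && (
  let v421 := add v0 v420; ok v421 && (
  let v422 := mul v271 v421; ok v422 && (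
  let v423 := mul v2 v19; ok v423 && (
  let v424 := mul v423 v175; ok v424 && (
  let v425 := mul v20 v48; ok v425 && (
  let v426 := inv v425; ok v426 && (
  let v427 := mul v424 v426; ok v427 && (
  let v428 := mul v422 v427; ok v428 && (
  let v429 := sub v407 v428; ok v429 && (
  let v430 := mul v178 v419; ok v430 && (
  let v431 := sub v0 v178; ok v431 && (
  let v432 := mul v8 v429; ok v432 && (
  let v433 := mul v431 v432; ok v433 && (
  let v434 := mul v404 v433; ok v434 && (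
  let v435 := add v430 v434; ok v435 && (
  isPos 4 v190 && (
  isPos 4 v193 && (
  let v436 := scale ⟨2199023255552, 0, 0, 0⟩ v268; ok v436 && (
  let v437 := sub v48 v436; ok v437 && (
  isPos 4 v437 && (
  isPos 4 v278 && (
  let v438 := sub v5 v165; ok v438 && (
  isPos 4 v438 && (
  let v439 := scale ⟨687194767360, 0, 0, 0⟩ v0; ok v439 && (
  let v440 := sub v439 v228; ok v440 && (
  isPos 4 v440 && (
  let v441 := scale ⟨377957122048, 0, 0, 0⟩ v0; ok v441 && (
  let v442 := sub v441 v224; ok v442 && (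
  isPos 4 v442 && (
  isPos 4 v392 && (
  isPos 4 v286 && (
  let v443 := sub v439 v298; ok v443 && (
  isPos 4 v443 && (
  isPos 4 v395 && (
  isPos 4 v374 && (
  isPos 4 v435 && (
  isPos 4 v429 && (
  true)))))))))))))))))))))))))))))))))))))))))))))))))))))))))))))))))))))))))))))))))))))))))))))))))))))))))))))))))))))))))))))))))))))))))))))))))))))))))))))))))))))))))))))))))))))))))))))))))))))))))))))))))))))))))))))))))))))))))))))))))))))))))))))))))))))))))))))))))))))))))))))))))))))))))))))))))))))))))))))))))))))))))))))))))))))))))))))))))))))))))))))))))))))))))))))))))))))))))))))))))))))))))))))))))))))))))))))))))))))))))))))))))))))))))))))))))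
  | _ => false

set_option maxRecDepth 1000000 in
theorem chk0_eq (O : Ops) (m : List O.α)
    (h : chk0 O.cst O.add O.sub O.mul O.scale O.neg O.inv O.exp O.log O.ok O.isPos O.isLt m = true) :
    runG O 4 prog0 m = true := by
  match m, h with
  | [x0, x1, x2, x3], h => exact h

def chkB0 : List opsE.α → Bool :=
  chk0 opsE.cst opsE.add opsE.sub opsE.mul opsE.scale opsE.neg opsE.inv opsE.exp opsE.log opsE.ok opsE.isPos opsE.isLt

theorem chkB0_eq (m : List opsE.α) (h : chkB0 m = true) : runG opsE 4 prog0 m = true :=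
  chk0_eq opsE m h

def prog1 : List Op := [
  .const ⟨1099511627776, 0, 0, 0⟩,
  .mul 2 1,
  .mul 4 2,
  .mul 0 4,
  .mul 0 2,
  .const ⟨549755813888, 0, 0, 0⟩,
  .mul 2 9,
  .scale ⟨549755813888, 0, 0, 0⟩ 0,
  .mul 9 9,
  .mul 1 1,
  .sub 9 0,
  .inv 0,
  .mul 4 0,
  .scale ⟨2199023255552, 0, 0, 0⟩ 0,
  .scale ⟨2199023255552, 0, 0, 0⟩ 2,
  .sub 0 14,
  .add 0 2,
  .mul 20 5,
  .mul 19 0,
  .sub 18 0,
  .add 19 1,
  .mul 18 12,
  .mul 4 4,
  .scale ⟨10774999203840, 0, 0, 0⟩ 15,
  .scale ⟨45768245248, 0, 0, 0⟩ 0,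
  .const ⟨183207198720, 0, 0, 0⟩,
  .add 1 0,
  .mul 3 0,
  .add 22 0,
  .mul 5 0,
  .add 29 0,
  .mul 7 0,
  .scale ⟨549755813888, 0, 0, 0⟩ 0,
  .add 32 0,
  .mul 3 0,
  .mul 21 16,
  .scale ⟨2199023255552, 0, 0, 0⟩ 20,
  .add 1 0,
  .add 0 35,
  .mul 17 0,
  .add 0 39,
  .mul 27 27,
  .scale ⟨2199023255552, 0, 0, 0⟩ 0,
  .add 0 42,
  .mul 28 5,
  .sub 0 44,
  .log 5,
  .scale ⟨549755813888, 0, 0, 0⟩ 0,
  .exp 0,
  .const ⟨3298534883328, 0, 0, 0⟩,
  .inv 0,
  .mul 50 0,
  .const ⟨2199023255552, 0, 0, 0⟩,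
  .add 13 0,
  .inv 0,
  .mul 15 0,
  .mul 0 0,
  .sub 56 1,
  .mul 1 6,
  .add 58 0,
  .mul 2 0,
  .mul 4 4,
  .scale ⟨219915747328, 0, 0, 0⟩ 0,
  .mul 24 2,
  .scale ⟨549755813888, 0, 0, 0⟩ 0,
  .mul 26 2,
  .scale ⟨549755813888, 0, 0, 0⟩ 0,
  .add 2 0,
  .mul 52 22,
  .scale ⟨4398046511104, 0, 0, 0⟩ 0,
  .mul 54 48,
  .mul 0 25,
  .scale ⟨4398046511104, 0, 0, 0⟩ 0,
  .add 0 20,
  .inv 0,
  .mul 2 0,
  .mul 0 0,
  .sub 76 1,
  .mul 1 26,
  .add 78 0,
  .mul 2 0,
  .mul 4 4,
  .scale ⟨219915747328, 0, 0, 0⟩ 0,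
  .mul 13 2,
  .scale ⟨549755813888, 0, 0, 0⟩ 0,
  .sub 0 17,
  .mul 16 3,
  .scale ⟨549755813888, 0, 0, 0⟩ 0,
  .add 0 21,
  .add 3 0,
  .mul 90 90,
  .mul 91 26,
  .add 1 0,
  .mul 28 28,
  .scale ⟨549755813888, 0, 0, 0⟩ 0,
  .add 2 0,
  .inv 0,
  .mul 6 0,
  .mul 98 12,
  .add 8 0,
  .mul 14 14,
  .scale ⟨549755813888, 0, 0, 0⟩ 0,
  .add 2 0,
  .inv 0,
  .mul 13 0,
  .mul 86 91,
  .add 90 0,
  .inv 0,
  .mul 87 0,
  .mul 89 106,
  .mul 0 1,
  .sub 110 102,
  .mul 89 0,
  .mul 109 109,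
  .sub 113 91,
  .mul 3 0,
  .mul 94 70,
  .inv 76,
  .mul 1 0,
  .add 103 0,
  .mul 79 0,
  .mul 0 0,
  .inv 0,
  .mul 7 0,
  .add 13 123,
  .mul 27 0,
  .sub 125 0,
  .pos 0,
  .add 29 126,
  .inv 1,
  .mul 1 0,
  .scale ⟨549755813888, 0, 0, 0⟩ 0,
  .add 0 125,
  .inv 0,
  .mul 2 0,
  .mul 23 0,
  .scale ⟨549755813888, 0, 0, 0⟩ 0,
  .sub 135 0,
  .sub 136 2,
  .inv 0,
  .mul 2 0,
  .add 5 139,
  .mul 43 0,
  .mul 33 2,
  .mul 0 9,
  .mul 9 4,
  .pos 7,
  .mul 125 124,
  .add 130 143,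
  .mul 128 131,
  .mul 0 134,
  .scale ⟨2199023255552, 0, 0, 0⟩ 0,
  .add 106 0,
  .mul 4 0,
  .inv 0,
  .mul 7 0,
  .mul 151 0,
  .pos 69,
  .add 0 154,
  .mul 51 0,
  .sub 156 0,
  .pos 0,
  .add 53 157,
  .inv 1,
  .mul 1 0,
  .scale ⟨549755813888, 0, 0, 0⟩ 0,
  .add 0 156,
  .inv 0,
  .mul 2 0,
  .mul 10 0,
  .mul 1 164,
  .add 159 166,
  .inv 0,
  .mul 161 0,
  .scale ⟨2199023255552, 0, 0, 0⟩ 0,
  .sub 170 0,
  .sub 171 164,
  .mul 176 4,
  .mul 0 2,
  .add 154 0,
  .scale ⟨224412041216, 0, 0, 0⟩ 164,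
  .inv 142,
  .mul 1 0,
  .scale ⟨4398046511104, 0, 0, 0⟩ 177,
  .mul 179 162,
  .add 1 0,
  .scale ⟨549755813888, 0, 0, 0⟩ 0,
  .inv 0,
  .mul 183 0,
  .mul 183 1,
  .mul 0 165,
  .mul 0 8,
  .mul 3 167,
  .mul 0 10,
  .sub 189 0,
  .inv 0,
  .mul 50 2,
  .sub 192 0,
  .inv 0,
  .scale ⟨2199023255552, 0, 0, 0⟩ 190,
  .add 0 195,
  .add 192 196,
  .scale ⟨1099511627776, 0, 0, 0⟩ 179,
  .add 0 198,
  .scale ⟨549755813888, 0, 0, 0⟩ 0,
  .mul 193 183,
  .sub 201 89,
  .mul 195 184,
  .scale ⟨2199023255552, 0, 0, 0⟩ 0,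
  .sub 2 0,
  .mul 4 4,
  .add 1 0,
  .add 0 207,
  .scale ⟨549755813888, 0, 0, 0⟩ 0,
  .scale ⟨549755813888, 0, 0, 0⟩ 188,
  .sub 199 0,
  .mul 98 9,
  .mul 0 202,
  .scale ⟨137438953472, 0, 0, 0⟩ 0,
  .add 3 0,
  .mul 6 0,
  .add 75 216,
  .mul 0 26,
  .mul 77 24,
  .add 1 0,
  .mul 31 0,
  .add 77 0,
  .mul 0 218,
  .mul 6 34,
  .mul 0 33,
  .add 81 0,
  .mul 0 222,
  .scale ⟨223338299392, 0, 0, 0⟩ 0,
  .add 223 0,
  .mul 2 0,
  .add 230 0,
  .scale ⟨893353197568, 0, 0, 0⟩ 8,
  .add 232 0,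
  .mul 10 0,
  .add 234 0,
  .mul 65 62,
  .mul 0 40,
  .mul 0 2,
  .mul 22 7,
  .add 191 234,
  .mul 2 0,
  .add 2 0,
  .add 194 242,
  .mul 5 0,
  .mul 47 1,
  .mul 0 72,
  .mul 0 74,
  .mul 5 104,
  .mul 1 48,
  .add 1 0,
  .mul 253 75,
  .inv 203,
  .mul 1 0,
  .scale ⟨549755813888, 0, 0, 0⟩ 0,
  .mul 235 0,
  .mul 253 5,
  .add 1 0,
  .mul 256 0,
  .mul 16 41,
  .mul 0 68,
  .mul 16 119,
  .mul 0 67,
  .add 2 0,
  .mul 244 5,
  .mul 77 1,
  .add 1 0,
  .mul 153 0,
  .mul 0 15,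
  .sub 268 0,
  .inv 0,
  .mul 4 0,
  .mul 269 0,
  .mul 159 1,
  .mul 0 21,
  .sub 274 0,
  .mul 230 0,
  .sub 0 4,
  .inv 0,
  .mul 6 0,
  .sub 231 6,
  .inv 0,
  .mul 2 117,
  .scale ⟨549755813888, 0, 0, 0⟩ 0,
  .sub 283 0,
  .sub 284 2,
  .inv 0,
  .mul 2 0,
  .mul 289 6,
  .mul 122 10,
  .mul 0 2,
  .add 2 0,
  .mul 294 20,
  .mul 11 0,
  .mul 129 15,
  .mul 0 7,
  .mul 0 23,
  .add 3 0,
  .scale ⟨223338299392, 0, 0, 0⟩ 0,
  .add 293 0,
  .mul 2 0,
  .add 300 0,
  .mul 10 0,
  .mul 0 32,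
  .mul 0 40,
  .mul 116 285,
  .const ⟨5497558138880, 0, 0, 0⟩,
  .inv 0,
  .mul 258 0,
  .mul 141 288,
  .mul 0 1,
  .mul 164 203,
  .mul 293 0,
  .scale ⟨549755813888, 0, 0, 0⟩ 147,
  .sub 313 0,
  .sub 314 149,
  .inv 0,
  .mul 2 0,
  .mul 0 163,
  .mul 205 195,
  .scale ⟨733097230336, 0, 0, 0⟩ 0,
  .sub 320 0,
  .mul 198 0,
  .mul 314 222,
  .add 1 0,
  .mul 6 158,
  .add 1 325,
  .mul 1 0,
  .sub 3 0,
  .scale ⟨366548615168, 0, 0, 0⟩ 287,
  .sub 329 0,
  .mul 308 0,
  .add 3 0,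
  .mul 21 0,
  .mul 21 21,
  .add 334 0,
  .inv 0,
  .mul 3 0,
  .sub 337 58,
  .mul 0 1,
  .sub 339 14,
  .pos 0,
  .pos 3,
  .pos 2,
  .mul 37 158,
  .mul 0 84,
  .inv 322,
  .mul 1 0,
  .mul 345 5,
  .add 255 0,
  .mul 7 7,
  .scale ⟨549755813888, 0, 0, 0⟩ 0,
  .add 2 0,
  .inv 0,
  .mul 260 0,
  .mul 349 41,
  .add 352 0,
  .inv 0,
  .mul 3 0,
  .mul 0 339,
  .mul 353 85,
  .mul 0 14,
  .add 358 0,
  .mul 3 0,
  .mul 0 79,
  .mul 359 57,
  .mul 0 173,
  .mul 361 58,
  .mul 20 0,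
  .add 2 0,
  .add 4 22,
  .add 367 1,
  .mul 7 0,
  .add 2 0,
  .sub 370 0,
  .scale ⟨1073741824, 0, 0, 0⟩ 369,
  .sub 1 0,
  .sub 357 373,
  .add 0 322,
  .scale ⟨2199023255552, 0, 0, 0⟩ 67,
  .sub 1 0,
  .mul 210 0,
  .mul 4 2,
  .add 0 379,
  .inv 0,
  .mul 3 0,
  .mul 197 119,
  .scale ⟨549755813888, 0, 0, 0⟩ 205,
  .add 371 0,
  .mul 2 0,
  .scale ⟨2199023255552, 0, 0, 0⟩ 0,
  .add 129 0,
  .scale ⟨2199023255552, 0, 0, 0⟩ 0,
  .mul 0 119,
  .sub 370 33,
  .inv 0,
  .mul 2 0,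
  .sub 11 0,
  .mul 214 214,
  .const ⟨14293651161088, 0, 0, 0⟩,
  .const ⟨10995116277760, 0, 0, 0⟩,
  .inv 0,
  .mul 2 0,
  .mul 4 0,
  .mul 399 399,
  .scale ⟨27487790694400, 0, 0, 0⟩ 0,
  .add 2 0,
  .mul 93 49,
  .sub 368 402,
  .sub 0 370,
  .mul 406 408,
  .mul 0 406,
  .mul 388 145,
  .mul 0 226,
  .add 160 0,
  .add 54 359,
  .mul 412 0,
  .mul 10 9,
  .mul 144 1,
  .mul 7 4,
  .mul 1 0,
  .sub 3 0,
  .scale ⟨549755813888, 0, 0, 0⟩ 61,
  .add 419 0,
  .mul 150 0,
  .mul 419 402,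
  .mul 0 247,
  .mul 403 375,
  .inv 0,
  .mul 2 0,
  .mul 5 0,
  .sub 21 0,
  .mul 250 10,
  .sub 429 251,
  .mul 422 2,
  .mul 1 0,
  .mul 29 0,
  .add 4 0,
  .pos 244,
  .pos 241,
  .scale ⟨2199023255552, 0, 0, 0⟩ 167,
  .sub 387 0,
  .pos 0,
  .pos 159,
  .sub 431 271,
  .pos 0,
  .scale ⟨687194767360, 0, 0, 0⟩ 437,
  .sub 0 211,
  .pos 0,
  .scale ⟨377957122048, 0, 0, 0⟩ 439,
  .sub 0 217,
  .pos 0,
  .pos 50,
  .pos 156,
  .sub 3 144,
  .pos 0,
  .pos 48,
  .pos 69,
  .pos 8,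
  .pos 14]

def chk1 {α : Type} (cst : Z → α) (add sub mul : α → α → α) (scale : Z → α → α)
    (neg inv exp log : α → α) (ok : α → Bool) (isPos : Nat → α → Bool) (isLt : α → Nat → Bool) :
    List α → Bool
  | [x0, x1, x2, x3] =>
  let v0 := cst ⟨1099511627776, 0, 0, 0⟩; ok v0 && (
  let v1 := mul x1 x0; ok v1 && (
  let v2 := mul x2 x0; ok v2 && (
  let v3 := mul v2 x1; ok v3 && (
  let v4 := mul v3 v1; ok v4 && (
  let v5 := cst ⟨549755813888, 0, 0, 0⟩; ok v5 && (
  let v6 := mul v3 x3; ok v6 && (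
  let v7 := scale ⟨549755813888, 0, 0, 0⟩ v6; ok v7 && (
  let v8 := mul x1 x1; ok v8 && (
  let v9 := mul v7 v7; ok v9 && (
  let v10 := sub v0 v9; ok v10 && (
  let v11 := inv v10; ok v11 && (
  let v12 := mul v7 v11; ok v12 && (
  let v13 := scale ⟨2199023255552, 0, 0, 0⟩ v12; ok v13 && (
  let v14 := scale ⟨2199023255552, 0, 0, 0⟩ v11; ok v14 && (
  let v15 := sub v14 v0; ok v15 && (
  let v16 := add v15 v13; ok v16 && (
  let v17 := mul x3 v11; ok v17 && (
  let v18 := mul x1 v17; ok v18 && (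
  let v19 := sub v0 v18; ok v19 && (
  let v20 := add v0 v18; ok v20 && (
  let v21 := mul v2 v8; ok v21 && (
  let v22 := mul v17 v17; ok v22 && (
  let v23 := scale ⟨10774999203840, 0, 0, 0⟩ v7; ok v23 && (
  let v24 := scale ⟨45768245248, 0, 0, 0⟩ v23; ok v24 && (
  let v25 := cst ⟨183207198720, 0, 0, 0⟩; ok v25 && (
  let v26 := add v24 v25; ok v26 && (
  let v27 := mul v23 v26; ok v27 && (
  let v28 := add v5 v27; ok v28 && (
  let v29 := mul v23 v28; ok v29 && (
  let v30 := add v0 v29; ok v30 && (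
  let v31 := mul v23 v30; ok v31 && (
  let v32 := scale ⟨549755813888, 0, 0, 0⟩ v31; ok v32 && (
  let v33 := add v0 v32; ok v33 && (
  let v34 := mul v30 v33; ok v34 && (
  let v35 := mul v13 v18; ok v35 && (
  let v36 := scale ⟨2199023255552, 0, 0, 0⟩ v15; ok v36 && (
  let v37 := add v35 v36; ok v37 && (
  let v38 := add v37 v2; ok v38 && (
  let v39 := mul v21 v38; ok v39 && (
  let v40 := add v39 v0; ok v40 && (
  let v41 := mul v13 v13; ok v41 && (
  let v42 := scale ⟨2199023255552, 0, 0, 0⟩ v41; ok v42 && (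
  let v43 := add v42 v0; ok v43 && (
  let v44 := mul v15 v38; ok v44 && (
  let v45 := sub v44 v0; ok v45 && (
  let v46 := log v40; ok v46 && (
  let v47 := scale ⟨549755813888, 0, 0, 0⟩ v46; ok v47 && (
  let v48 := exp v47; ok v48 && (
  let v49 := cst ⟨3298534883328, 0, 0, 0⟩; ok v49 && (
  let v50 := inv v49; ok v50 && (
  let v51 := mul v0 v50; ok v51 && (
  let v52 := cst ⟨2199023255552, 0, 0, 0⟩; ok v52 && (
  let v53 := add v39 v52; ok v53 && (
  let v54 := inv v53; ok v54 && (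
  let v55 := mul v39 v54; ok v55 && (
  let v56 := mul v55 v55; ok v56 && (
  let v57 := sub v0 v55; ok v57 && (
  let v58 := mul v56 v51; ok v58 && (
  let v59 := add v0 v58; ok v59 && (
  let v60 := mul v57 v59; ok v60 && (
  let v61 := mul v56 v56; ok v61 && (
  let v62 := scale ⟨219915747328, 0, 0, 0⟩ v61; ok v62 && (
  let v63 := mul v38 v60; ok v63 && (
  let v64 := scale ⟨549755813888, 0, 0, 0⟩ v63; ok v64 && (
  let v65 := mul v38 v62; ok v65 && (
  let v66 := scale ⟨549755813888, 0, 0, 0⟩ v65; ok v66 && (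
  let v67 := add v64 v66; ok v67 && (
  let v68 := mul v15 v45; ok v68 && (
  let v69 := scale ⟨4398046511104, 0, 0, 0⟩ v68; ok v69 && (
  let v70 := mul v15 v21; ok v70 && (
  let v71 := mul v70 v45; ok v71 && (
  let v72 := scale ⟨4398046511104, 0, 0, 0⟩ v71; ok v72 && (
  let v73 := add v72 v52; ok v73 && (
  let v74 := inv v73; ok v74 && (
  let v75 := mul v72 v74; ok v75 && (
  let v76 := mul v75 v75; ok v76 && (
  let v77 := sub v0 v75; ok v77 && (
  let v78 := mul v76 v51; ok v78 && (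
  let v79 := add v0 v78; ok v79 && (
  let v80 := mul v77 v79; ok v80 && (
  let v81 := mul v76 v76; ok v81 && (
  let v82 := scale ⟨219915747328, 0, 0, 0⟩ v81; ok v82 && (
  let v83 := mul v69 v80; ok v83 && (
  let v84 := scale ⟨549755813888, 0, 0, 0⟩ v83; ok v84 && (
  let v85 := sub v84 v67; ok v85 && (
  let v86 := mul v69 v82; ok v86 && (
  let v87 := scale ⟨549755813888, 0, 0, 0⟩ v86; ok v87 && (
  let v88 := add v87 v66; ok v88 && (
  let v89 := add v85 v88; ok v89 && (
  let v90 := mul x0 x0; ok v90 && (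
  let v91 := mul x0 v64; ok v91 && (
  let v92 := add v90 v91; ok v92 && (
  let v93 := mul v64 v64; ok v93 && (
  let v94 := scale ⟨549755813888, 0, 0, 0⟩ v93; ok v94 && (
  let v95 := add v92 v94; ok v95 && (
  let v96 := inv v95; ok v96 && (
  let v97 := mul v90 v96; ok v97 && (
  let v98 := mul x0 v85; ok v98 && (
  let v99 := add v90 v98; ok v99 && (
  let v100 := mul v85 v85; ok v100 && (
  let v101 := scale ⟨549755813888, 0, 0, 0⟩ v100; ok v101 && (
  let v102 := add v99 v101; ok v102 && (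
  let v103 := inv v102; ok v103 && (
  let v104 := mul v90 v103; ok v104 && (
  let v105 := mul v18 v13; ok v105 && (
  let v106 := add v15 v105; ok v106 && (
  let v107 := inv v106; ok v107 && (
  let v108 := mul v20 v107; ok v108 && (
  let v109 := mul v19 v2; ok v109 && (
  let v110 := mul v109 v108; ok v110 && (
  let v111 := sub v0 v8; ok v111 && (
  let v112 := mul v22 v111; ok v112 && (
  let v113 := mul v3 v3; ok v113 && (
  let v114 := sub v0 v22; ok v114 && (
  let v115 := mul v111 v114; ok v115 && (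
  let v116 := mul v21 v45; ok v116 && (
  let v117 := inv v40; ok v117 && (
  let v118 := mul v116 v117; ok v118 && (
  let v119 := add v15 v118; ok v119 && (
  let v120 := mul v40 v119; ok v120 && (
  let v121 := mul v120 v120; ok v121 && (
  let v122 := inv v121; ok v122 && (
  let v123 := mul v115 v122; ok v123 && (
  let v124 := add v110 v0; ok v124 && (
  let v125 := mul v97 v124; ok v125 && (
  let v126 := sub v0 v125; ok v126 && (
  isPos 4 v126 && (
  let v127 := add v97 v0; ok v127 && (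
  let v128 := inv v126; ok v128 && (
  let v129 := mul v127 v128; ok v129 && (
  let v130 := scale ⟨549755813888, 0, 0, 0⟩ v129; ok v130 && (
  let v131 := add v130 v5; ok v131 && (
  let v132 := inv v131; ok v132 && (
  let v133 := mul v130 v132; ok v133 && (
  let v134 := mul v110 v133; ok v134 && (
  let v135 := scale ⟨549755813888, 0, 0, 0⟩ v134; ok v135 && (
  let v136 := sub v0 v135; ok v136 && (
  let v137 := sub v0 v134; ok v137 && (
  let v138 := inv v137; ok v138 && (
  let v139 := mul v136 v138; ok v139 && (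
  let v140 := add v134 v0; ok v140 && (
  let v141 := mul v97 v140; ok v141 && (
  let v142 := mul v108 v139; ok v142 && (
  let v143 := mul v142 v133; ok v143 && (
  let v144 := mul v134 v139; ok v144 && (
  isPos 4 v137 && (
  let v145 := mul v19 v20; ok v145 && (
  let v146 := add v15 v2; ok v146 && (
  let v147 := mul v18 v15; ok v147 && (
  let v148 := mul v147 v13; ok v148 && (
  let v149 := scale ⟨2199023255552, 0, 0, 0⟩ v148; ok v149 && (
  let v150 := add v43 v149; ok v150 && (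
  let v151 := mul v146 v150; ok v151 && (
  let v152 := inv v151; ok v152 && (
  let v153 := mul v145 v152; ok v153 && (
  let v154 := mul v2 v153; ok v154 && (
  isPos 4 v85 && (
  let v155 := add v154 v0; ok v155 && (
  let v156 := mul v104 v155; ok v156 && (
  let v157 := sub v0 v156; ok v157 && (
  isPos 4 v157 && (
  let v158 := add v104 v0; ok v158 && (
  let v159 := inv v157; ok v159 && (
  let v160 := mul v158 v159; ok v160 && (
  let v161 := scale ⟨549755813888, 0, 0, 0⟩ v160; ok v161 && (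
  let v162 := add v161 v5; ok v162 && (
  let v163 := inv v162; ok v163 && (
  let v164 := mul v161 v163; ok v164 && (
  let v165 := mul v154 v164; ok v165 && (
  let v166 := mul v164 v1; ok v166 && (
  let v167 := add v7 v0; ok v167 && (
  let v168 := inv v167; ok v168 && (
  let v169 := mul v7 v168; ok v169 && (
  let v170 := scale ⟨2199023255552, 0, 0, 0⟩ v169; ok v170 && (
  let v171 := sub v0 v170; ok v171 && (
  let v172 := sub v0 v7; ok v172 && (
  let v173 := mul x3 v168; ok v173 && (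
  let v174 := mul v173 v171; ok v174 && (
  let v175 := add v20 v174; ok v175 && (
  let v176 := scale ⟨224412041216, 0, 0, 0⟩ v11; ok v176 && (
  let v177 := inv v34; ok v177 && (
  let v178 := mul v176 v177; ok v178 && (
  let v179 := scale ⟨4398046511104, 0, 0, 0⟩ v1; ok v179 && (
  let v180 := mul v0 v17; ok v180 && (
  let v181 := add v179 v180; ok v181 && (
  let v182 := scale ⟨549755813888, 0, 0, 0⟩ v181; ok v182 && (
  let v183 := inv v182; ok v183 && (
  let v184 := mul v0 v183; ok v184 && (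
  let v185 := mul v1 v183; ok v185 && (
  let v186 := mul v185 v20; ok v186 && (
  let v187 := mul v186 v178; ok v187 && (
  let v188 := mul v184 v20; ok v188 && (
  let v189 := mul v188 v178; ok v189 && (
  let v190 := sub v0 v189; ok v190 && (
  let v191 := inv v190; ok v191 && (
  let v192 := mul v141 v189; ok v192 && (
  let v193 := sub v0 v192; ok v193 && (
  let v194 := inv v193; ok v194 && (
  let v195 := scale ⟨2199023255552, 0, 0, 0⟩ v4; ok v195 && (
  let v196 := add v195 v0; ok v196 && (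
  let v197 := add v4 v0; ok v197 && (
  let v198 := scale ⟨1099511627776, 0, 0, 0⟩ v18; ok v198 && (
  let v199 := add v198 v0; ok v199 && (
  let v200 := scale ⟨549755813888, 0, 0, 0⟩ v199; ok v200 && (
  let v201 := mul v7 v17; ok v201 && (
  let v202 := sub v0 v112; ok v202 && (
  let v203 := mul v7 v18; ok v203 && (
  let v204 := scale ⟨2199023255552, 0, 0, 0⟩ v203; ok v204 && (
  let v205 := sub v202 v204; ok v205 && (
  let v206 := mul v201 v201; ok v206 && (
  let v207 := add v205 v206; ok v207 && (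
  let v208 := add v207 v0; ok v208 && (
  let v209 := scale ⟨549755813888, 0, 0, 0⟩ v208; ok v209 && (
  let v210 := scale ⟨549755813888, 0, 0, 0⟩ v21; ok v210 && (
  let v211 := sub v11 v210; ok v211 && (
  let v212 := mul v113 v202; ok v212 && (
  let v213 := mul v212 v10; ok v213 && (
  let v214 := scale ⟨137438953472, 0, 0, 0⟩ v213; ok v214 && (
  let v215 := add v211 v214; ok v215 && (
  let v216 := mul v209 v215; ok v216 && (
  let v217 := add v141 v0; ok v217 && (
  let v218 := mul v217 v191; ok v218 && (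
  let v219 := mul v141 v194; ok v219 && (
  let v220 := add v218 v219; ok v220 && (
  let v221 := mul v189 v220; ok v221 && (
  let v222 := add v144 v221; ok v222 && (
  let v223 := mul v222 v4; ok v223 && (
  let v224 := mul v217 v189; ok v224 && (
  let v225 := mul v224 v191; ok v225 && (
  let v226 := add v144 v225; ok v226 && (
  let v227 := mul v226 v4; ok v227 && (
  let v228 := scale ⟨223338299392, 0, 0, 0⟩ v227; ok v228 && (
  let v229 := add v5 v228; ok v229 && (
  let v230 := mul v227 v229; ok v230 && (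
  let v231 := add v0 v230; ok v231 && (
  let v232 := scale ⟨893353197568, 0, 0, 0⟩ v223; ok v232 && (
  let v233 := add v0 v232; ok v233 && (
  let v234 := mul v223 v233; ok v234 && (
  let v235 := add v0 v234; ok v235 && (
  let v236 := mul v170 v173; ok v236 && (
  let v237 := mul v236 v196; ok v237 && (
  let v238 := mul v237 v235; ok v238 && (
  let v239 := mul v216 v231; ok v239 && (
  let v240 := add v48 v5; ok v240 && (
  let v241 := mul v238 v240; ok v241 && (
  let v242 := add v239 v241; ok v242 && (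
  let v243 := add v48 v0; ok v243 && (
  let v244 := mul v238 v243; ok v244 && (
  let v245 := mul v197 v243; ok v245 && (
  let v246 := mul v245 v173; ok v246 && (
  let v247 := mul v246 v172; ok v247 && (
  let v248 := mul v242 v143; ok v248 && (
  let v249 := mul v247 v200; ok v249 && (
  let v250 := add v248 v249; ok v250 && (
  let v251 := mul x2 v175; ok v251 && (
  let v252 := inv v48; ok v252 && (
  let v253 := mul v251 v252; ok v253 && (
  let v254 := scale ⟨549755813888, 0, 0, 0⟩ v253; ok v254 && (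
  let v255 := mul v19 v254; ok v255 && (
  let v256 := mul v2 v250; ok v256 && (
  let v257 := add v255 v256; ok v257 && (
  let v258 := mul v1 v257; ok v258 && (
  let v259 := mul v242 v217; ok v259 && (
  let v260 := mul v259 v191; ok v260 && (
  let v261 := mul v244 v141; ok v261 && (
  let v262 := mul v261 v194; ok v262 && (
  let v263 := add v260 v262; ok v263 && (
  let v264 := mul v19 v258; ok v264 && (
  let v265 := mul v187 v263; ok v265 && (
  let v266 := add v264 v265; ok v266 && (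
  let v267 := mul v113 v266; ok v267 && (
  let v268 := mul v267 v252; ok v268 && (
  let v269 := sub v0 v268; ok v269 && (
  let v270 := inv v269; ok v270 && (
  let v271 := mul v266 v270; ok v271 && (
  let v272 := mul v2 v271; ok v272 && (
  let v273 := mul v113 v271; ok v273 && (
  let v274 := mul v273 v252; ok v274 && (
  let v275 := sub v0 v274; ok v275 && (
  let v276 := mul v45 v275; ok v276 && (
  let v277 := sub v276 v272; ok v277 && (
  let v278 := inv v277; ok v278 && (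
  let v279 := mul v272 v278; ok v279 && (
  let v280 := sub v48 v273; ok v280 && (
  let v281 := inv v280; ok v281 && (
  let v282 := mul v279 v164; ok v282 && (
  let v283 := scale ⟨549755813888, 0, 0, 0⟩ v282; ok v283 && (
  let v284 := sub v0 v283; ok v284 && (
  let v285 := sub v0 v282; ok v285 && (
  let v286 := inv v285; ok v286 && (
  let v287 := mul v284 v286; ok v287 && (
  let v288 := mul x1 v281; ok v288 && (
  let v289 := mul v166 v278; ok v289 && (
  let v290 := mul v289 v287; ok v290 && (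
  let v291 := add v288 v290; ok v291 && (
  let v292 := mul x2 v271; ok v292 && (
  let v293 := mul v281 v292; ok v293 && (
  let v294 := mul v164 v278; ok v294 && (
  let v295 := mul v294 v287; ok v295 && (
  let v296 := mul v295 v272; ok v296 && (
  let v297 := add v293 v296; ok v297 && (
  let v298 := scale ⟨223338299392, 0, 0, 0⟩ v297; ok v298 && (
  let v299 := add v5 v298; ok v299 && (
  let v300 := mul v297 v299; ok v300 && (
  let v301 := add v0 v300; ok v301 && (
  let v302 := mul v291 v301; ok v302 && (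
  let v303 := mul v302 v270; ok v303 && (
  let v304 := mul v303 v263; ok v304 && (
  let v305 := mul v188 v19; ok v305 && (
  let v306 := cst ⟨5497558138880, 0, 0, 0⟩; ok v306 && (
  let v307 := inv v306; ok v307 && (
  let v308 := mul v49 v307; ok v308 && (
  let v309 := mul v167 v20; ok v309 && (
  let v310 := mul v309 v308; ok v310 && (
  let v311 := mul v146 v107; ok v311 && (
  let v312 := mul v18 v311; ok v312 && (
  let v313 := scale ⟨549755813888, 0, 0, 0⟩ v165; ok v313 && (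
  let v314 := sub v0 v313; ok v314 && (
  let v315 := sub v0 v165; ok v315 && (
  let v316 := inv v315; ok v316 && (
  let v317 := mul v314 v316; ok v317 && (
  let v318 := mul v317 v154; ok v318 && (
  let v319 := mul v113 v123; ok v319 && (
  let v320 := scale ⟨733097230336, 0, 0, 0⟩ v319; ok v320 && (
  let v321 := sub v0 v320; ok v321 && (
  let v322 := mul v123 v321; ok v322 && (
  let v323 := mul v8 v100; ok v323 && (
  let v324 := add v322 v323; ok v324 && (
  let v325 := mul v318 v166; ok v325 && (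
  let v326 := add v324 v0; ok v326 && (
  let v327 := mul v325 v326; ok v327 && (
  let v328 := sub v324 v327; ok v328 && (
  let v329 := scale ⟨366548615168, 0, 0, 0⟩ v41; ok v329 && (
  let v330 := sub v0 v329; ok v330 && (
  let v331 := mul v22 v330; ok v331 && (
  let v332 := add v328 v331; ok v332 && (
  let v333 := mul v311 v332; ok v333 && (
  let v334 := mul v312 v312; ok v334 && (
  let v335 := add v0 v334; ok v335 && (
  let v336 := inv v335; ok v336 && (
  let v337 := mul v333 v336; ok v337 && (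
  let v338 := sub v0 v279; ok v338 && (
  let v339 := mul v338 v337; ok v339 && (
  let v340 := sub v0 v325; ok v340 && (
  isPos 4 v340 && (
  isPos 4 v337 && (
  isPos 4 v338 && (
  let v341 := mul v303 v182; ok v341 && (
  let v342 := mul v341 v257; ok v342 && (
  let v343 := inv v20; ok v343 && (
  let v344 := mul v342 v343; ok v344 && (
  let v345 := mul x0 v339; ok v345 && (
  let v346 := add v90 v345; ok v346 && (
  let v347 := mul v339 v339; ok v347 && (
  let v348 := scale ⟨549755813888, 0, 0, 0⟩ v347; ok v348 && (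
  let v349 := add v346 v348; ok v349 && (
  let v350 := inv v349; ok v350 && (
  let v351 := mul v90 v350; ok v351 && (
  let v352 := mul v2 v310; ok v352 && (
  let v353 := add v0 v352; ok v353 && (
  let v354 := inv v353; ok v354 && (
  let v355 := mul v351 v354; ok v355 && (
  let v356 := mul v355 v16; ok v356 && (
  let v357 := mul v3 v271; ok v357 && (
  let v358 := mul v357 v343; ok v358 && (
  let v359 := add v0 v358; ok v359 && (
  let v360 := mul v356 v359; ok v360 && (
  let v361 := mul v360 v281; ok v361 && (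
  let v362 := mul v2 v304; ok v362 && (
  let v363 := mul v362 v189; ok v363 && (
  let v364 := mul v2 v305; ok v364 && (
  let v365 := mul v344 v364; ok v365 && (
  let v366 := add v363 v365; ok v366 && (
  let v367 := add v362 v344; ok v367 && (
  let v368 := add v0 v366; ok v368 && (
  let v369 := mul v361 v368; ok v369 && (
  let v370 := add v367 v369; ok v370 && (
  let v371 := sub v0 v370; ok v371 && (
  let v372 := scale ⟨1073741824, 0, 0, 0⟩ v2; ok v372 && (
  let v373 := sub v371 v372; ok v373 && (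
  let v374 := sub v16 v0; ok v374 && (
  let v375 := add v374 v52; ok v375 && (
  let v376 := scale ⟨2199023255552, 0, 0, 0⟩ v308; ok v376 && (
  let v377 := sub v375 v376; ok v377 && (
  let v378 := mul v167 v377; ok v378 && (
  let v379 := mul v374 v376; ok v379 && (
  let v380 := add v379 v0; ok v380 && (
  let v381 := inv v380; ok v381 && (
  let v382 := mul v378 v381; ok v382 && (
  let v383 := mul v185 v263; ok v383 && (
  let v384 := scale ⟨549755813888, 0, 0, 0⟩ v178; ok v384 && (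
  let v385 := add v13 v384; ok v385 && (
  let v386 := mul v383 v385; ok v386 && (
  let v387 := scale ⟨2199023255552, 0, 0, 0⟩ v386; ok v387 && (
  let v388 := add v258 v387; ok v388 && (
  let v389 := scale ⟨2199023255552, 0, 0, 0⟩ v388; ok v389 && (
  let v390 := mul v389 v270; ok v390 && (
  let v391 := sub v20 v357; ok v391 && (
  let v392 := inv v391; ok v392 && (
  let v393 := mul v390 v392; ok v393 && (
  let v394 := sub v382 v393; ok v394 && (
  let v395 := mul v180 v180; ok v395 && (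
  let v396 := cst ⟨14293651161088, 0, 0, 0⟩; ok v396 && (
  let v397 := cst ⟨10995116277760, 0, 0, 0⟩; ok v397 && (
  let v398 := inv v397; ok v398 && (
  let v399 := mul v396 v398; ok v399 && (
  let v400 := mul v395 v399; ok v400 && (
  let v401 := mul v1 v1; ok v401 && (
  let v402 := scale ⟨27487790694400, 0, 0, 0⟩ v401; ok v402 && (
  let v403 := add v400 v402; ok v403 && (
  let v404 := mul v310 v354; ok v404 && (
  let v405 := sub v36 v2; ok v405 && (
  let v406 := sub v405 v35; ok v406 && (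
  let v407 := mul v0 x1; ok v407 && (
  let v408 := mul v407 v1; ok v408 && (
  let v409 := mul v20 v263; ok v409 && (
  let v410 := mul v409 v183; ok v410 && (
  let v411 := add v250 v410; ok v411 && (
  let v412 := add v357 v52; ok v412 && (
  let v413 := mul v0 v412; ok v413 && (
  let v414 := mul v403 v404; ok v414 && (
  let v415 := mul v270 v413; ok v415 && (
  let v416 := mul v408 v411; ok v416 && (
  let v417 := mul v415 v416; ok v417 && (
  let v418 := sub v414 v417; ok v418 && (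
  let v419 := scale ⟨549755813888, 0, 0, 0⟩ v357; ok v419 && (
  let v420 := add v0 v419; ok v420 && (
  let v421 := mul v270 v420; ok v421 && (
  let v422 := mul v2 v19; ok v422 && (
  let v423 := mul v422 v175; ok v423 && (
  let v424 := mul v20 v48; ok v424 && (
  let v425 := inv v424; ok v425 && (
  let v426 := mul v423 v425; ok v426 && (
  let v427 := mul v421 v426; ok v427 && (
  let v428 := sub v406 v427; ok v428 && (
  let v429 := mul v178 v418; ok v429 && (
  let v430 := sub v0 v178; ok v430 && (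
  let v431 := mul v8 v428; ok v431 && (
  let v432 := mul v430 v431; ok v432 && (
  let v433 := mul v403 v432; ok v433 && (
  let v434 := add v429 v433; ok v434 && (
  isPos 4 v190 && (
  isPos 4 v193 && (
  let v435 := scale ⟨2199023255552, 0, 0, 0⟩ v267; ok v435 && (
  let v436 := sub v48 v435; ok v436 && (
  isPos 4 v436 && (
  isPos 4 v277 && (
  let v437 := sub v5 v165; ok v437 && (
  isPos 4 v437 && (
  let v438 := scale ⟨687194767360, 0, 0, 0⟩ v0; ok v438 && (
  let v439 := sub v438 v227; ok v439 && (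
  isPos 4 v439 && (
  let v440 := scale ⟨377957122048, 0, 0, 0⟩ v0; ok v440 && (
  let v441 := sub v440 v223; ok v441 && (
  isPos 4 v441 && (
  isPos 4 v391 && (
  isPos 4 v285 && (
  let v442 := sub v438 v297; ok v442 && (
  isPos 4 v442 && (
  isPos 4 v394 && (
  isPos 4 v373 && (
  isPos 4 v434 && (
  isPos 4 v428 && (
  true))))))))))))))))))))))))))))))))))))))))))))))))))))))))))))))))))))))))))))))))))))))))))))))))))))))))))))))))))))))))))))))))))))))))))))))))))))))))))))))))))))))))))))))))))))))))))))))))))))))))))))))))))))))))))))))))))))))))))))))))))))))))))))))))))))))))))))))))))))))))))))))))))))))))))))))))))))))))))))))))))))))))))))))))))))))))))))))))))))))))))))))))))))))))))))))))))))))))))))))))))))))))))))))))))))))))))))))))))))))))))))))))))))))))))))))))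
  | _ => false

set_option maxRecDepth 1000000 in
theorem chk1_eq (O : Ops) (m : List O.α)
    (h : chk1 O.cst O.add O.sub O.mul O.scale O.neg O.inv O.exp O.log O.ok O.isPos O.isLt m = true) :
    runG O 4 prog1 m = true := by
  match m, h with
  | [x0, x1, x2, x3], h => exact h

def chkB1 : List opsE.α → Bool :=
  chk1 opsE.cst opsE.add opsE.sub opsE.mul opsE.scale opsE.neg opsE.inv opsE.exp opsE.log opsE.ok opsE.isPos opsE.isLt

theorem chkB1_eq (m : List opsE.α) (h : chkB1 m = true) : runG opsE 4 prog1 m = true :=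
  chk1_eq opsE m h

def prog2 : List Op := [
  .const ⟨1099511627776, 0, 0, 0⟩,
  .mul 2 1,
  .mul 4 2,
  .mul 0 4,
  .mul 0 2,
  .const ⟨549755813888, 0, 0, 0⟩,
  .mul 2 9,
  .scale ⟨549755813888, 0, 0, 0⟩ 0,
  .mul 9 9,
  .mul 1 1,
  .sub 9 0,
  .inv 0,
  .mul 4 0,
  .scale ⟨2199023255552, 0, 0, 0⟩ 0,
  .scale ⟨2199023255552, 0, 0, 0⟩ 2,
  .sub 0 14,
  .add 0 2,
  .mul 20 5,
  .mul 19 0,
  .sub 18 0,
  .add 19 1,
  .mul 18 12,
  .mul 4 4,
  .mul 25 0,
  .scale ⟨5497558138880, 0, 0, 0⟩ 19,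
  .const ⟨55834574848, 0, 0, 0⟩,
  .add 1 0,
  .scale ⟨2066953011200, 0, 0, 0⟩ 0,
  .const ⟨1524444954624, 0, 0, 0⟩,
  .add 1 0,
  .sub 6 0,
  .pos 0]

def chk2 {α : Type} (cst : Z → α) (add sub mul : α → α → α) (scale : Z → α → α)
    (neg inv exp log : α → α) (ok : α → Bool) (isPos : Nat → α → Bool) (isLt : α → Nat → Bool) :
    List α → Bool
  | [x0, x1, x2, x3] =>
  let v0 := cst ⟨1099511627776, 0, 0, 0⟩; ok v0 && (
  let v1 := mul x1 x0; ok v1 && (
  let v2 := mul x2 x0; ok v2 && (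
  let v3 := mul v2 x1; ok v3 && (
  let v4 := mul v3 v1; ok v4 && (
  let v5 := cst ⟨549755813888, 0, 0, 0⟩; ok v5 && (
  let v6 := mul v3 x3; ok v6 && (
  let v7 := scale ⟨549755813888, 0, 0, 0⟩ v6; ok v7 && (
  let v8 := mul x1 x1; ok v8 && (
  let v9 := mul v7 v7; ok v9 && (
  let v10 := sub v0 v9; ok v10 && (
  let v11 := inv v10; ok v11 && (
  let v12 := mul v7 v11; ok v12 && (
  let v13 := scale ⟨2199023255552, 0, 0, 0⟩ v12; ok v13 && (
  let v14 := scale ⟨2199023255552, 0, 0, 0⟩ v11; ok v14 && (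
  let v15 := sub v14 v0; ok v15 && (
  let v16 := add v15 v13; ok v16 && (
  let v17 := mul x3 v11; ok v17 && (
  let v18 := mul x1 v17; ok v18 && (
  let v19 := sub v0 v18; ok v19 && (
  let v20 := add v0 v18; ok v20 && (
  let v21 := mul v2 v8; ok v21 && (
  let v22 := mul v17 v17; ok v22 && (
  let v23 := mul x2 v22; ok v23 && (
  let v24 := scale ⟨5497558138880, 0, 0, 0⟩ v4; ok v24 && (
  let v25 := cst ⟨55834574848, 0, 0, 0⟩; ok v25 && (
  let v26 := add v24 v25; ok v26 && (
  let v27 := scale ⟨2066953011200, 0, 0, 0⟩ v26; ok v27 && (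
  let v28 := cst ⟨1524444954624, 0, 0, 0⟩; ok v28 && (
  let v29 := add v27 v28; ok v29 && (
  let v30 := sub v23 v29; ok v30 && (
  isPos 4 v30 && (
  true))))))))))))))))))))))))))))))))
  | _ => false

set_option maxRecDepth 1000000 in
theorem chk2_eq (O : Ops) (m : List O.α)
    (h : chk2 O.cst O.add O.sub O.mul O.scale O.neg O.inv O.exp O.log O.ok O.isPos O.isLt m = true) :
    runG O 4 prog2 m = true := by
  match m, h with
  | [x0, x1, x2, x3], h => exact h

def chkB2 : List opsE.α → Bool :=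
  chk2 opsE.cst opsE.add opsE.sub opsE.mul opsE.scale opsE.neg opsE.inv opsE.exp opsE.log opsE.ok opsE.isPos opsE.isLt

theorem chkB2_eq (m : List opsE.α) (h : chkB2 m = true) : runG opsE 4 prog2 m = true :=
  chk2_eq opsE m h

def prog3 : List Op := [
  .const ⟨1099511627776, 0, 0, 0⟩,
  .mul 2 1,
  .mul 4 2,
  .mul 0 4,
  .mul 0 2,
  .const ⟨549755813888, 0, 0, 0⟩,
  .mul 2 9,
  .scale ⟨549755813888, 0, 0, 0⟩ 0,
  .mul 9 9,
  .mul 1 1,
  .sub 9 0,
  .inv 0,
  .mul 4 0,
  .scale ⟨2199023255552, 0, 0, 0⟩ 0,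
  .scale ⟨2199023255552, 0, 0, 0⟩ 2,
  .sub 0 14,
  .add 0 2,
  .mul 20 5,
  .mul 19 0,
  .sub 18 0,
  .add 19 1,
  .mul 18 12,
  .mul 4 4,
  .scale ⟨10774999203840, 0, 0, 0⟩ 15,
  .scale ⟨45768245248, 0, 0, 0⟩ 0,
  .const ⟨183207198720, 0, 0, 0⟩,
  .add 1 0,
  .mul 3 0,
  .add 22 0,
  .mul 5 0,
  .add 29 0,
  .mul 7 0,
  .scale ⟨549755813888, 0, 0, 0⟩ 0,
  .add 32 0,
  .mul 3 0,
  .scale ⟨224412041216, 0, 0, 0⟩ 23,
  .inv 1,
  .mul 1 0,
  .sub 35 24,
  .sub 0 1,
  .pos 0]

def chk3 {α : Type} (cst : Z → α) (add sub mul : α → α → α) (scale : Z → α → α)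
    (neg inv exp log : α → α) (ok : α → Bool) (isPos : Nat → α → Bool) (isLt : α → Nat → Bool) :
    List α → Bool
  | [x0, x1, x2, x3] =>
  let v0 := cst ⟨1099511627776, 0, 0, 0⟩; ok v0 && (
  let v1 := mul x1 x0; ok v1 && (
  let v2 := mul x2 x0; ok v2 && (
  let v3 := mul v2 x1; ok v3 && (
  let v4 := mul v3 v1; ok v4 && (
  let v5 := cst ⟨549755813888, 0, 0, 0⟩; ok v5 && (
  let v6 := mul v3 x3; ok v6 && (
  let v7 := scale ⟨549755813888, 0, 0, 0⟩ v6; ok v7 && (
  let v8 := mul x1 x1; ok v8 && (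
  let v9 := mul v7 v7; ok v9 && (
  let v10 := sub v0 v9; ok v10 && (
  let v11 := inv v10; ok v11 && (
  let v12 := mul v7 v11; ok v12 && (
  let v13 := scale ⟨2199023255552, 0, 0, 0⟩ v12; ok v13 && (
  let v14 := scale ⟨2199023255552, 0, 0, 0⟩ v11; ok v14 && (
  let v15 := sub v14 v0; ok v15 && (
  let v16 := add v15 v13; ok v16 && (
  let v17 := mul x3 v11; ok v17 && (
  let v18 := mul x1 v17; ok v18 && (
  let v19 := sub v0 v18; ok v19 && (
  let v20 := add v0 v18; ok v20 && (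
  let v21 := mul v2 v8; ok v21 && (
  let v22 := mul v17 v17; ok v22 && (
  let v23 := scale ⟨10774999203840, 0, 0, 0⟩ v7; ok v23 && (
  let v24 := scale ⟨45768245248, 0, 0, 0⟩ v23; ok v24 && (
  let v25 := cst ⟨183207198720, 0, 0, 0⟩; ok v25 && (
  let v26 := add v24 v25; ok v26 && (
  let v27 := mul v23 v26; ok v27 && (
  let v28 := add v5 v27; ok v28 && (
  let v29 := mul v23 v28; ok v29 && (
  let v30 := add v0 v29; ok v30 && (
  let v31 := mul v23 v30; ok v31 && (
  let v32 := scale ⟨549755813888, 0, 0, 0⟩ v31; ok v32 && (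
  let v33 := add v0 v32; ok v33 && (
  let v34 := mul v30 v33; ok v34 && (
  let v35 := scale ⟨224412041216, 0, 0, 0⟩ v11; ok v35 && (
  let v36 := inv v34; ok v36 && (
  let v37 := mul v35 v36; ok v37 && (
  let v38 := sub v2 v13; ok v38 && (
  let v39 := sub v38 v37; ok v39 && (
  isPos 4 v39 && (
  true)))))))))))))))))))))))))))))))))))))))))
  | _ => false

set_option maxRecDepth 1000000 in
theorem chk3_eq (O : Ops) (m : List O.α)
    (h : chk3 O.cst O.add O.sub O.mul O.scale O.neg O.inv O.exp O.log O.ok O.isPos O.isLt m = true) :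
    runG O 4 prog3 m = true := by
  match m, h with
  | [x0, x1, x2, x3], h => exact h

def chkB3 : List opsE.α → Bool :=
  chk3 opsE.cst opsE.add opsE.sub opsE.mul opsE.scale opsE.neg opsE.inv opsE.exp opsE.log opsE.ok opsE.isPos opsE.isLt

theorem chkB3_eq (m : List opsE.α) (h : chkB3 m = true) : runG opsE 4 prog3 m = true :=
  chk3_eq opsE m h

def prog4 : List Op := [
  .const ⟨1099511627776, 0, 0, 0⟩,
  .mul 2 1,
  .mul 4 2,
  .mul 0 4,
  .mul 0 2,
  .const ⟨549755813888, 0, 0, 0⟩,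
  .mul 2 9,
  .scale ⟨549755813888, 0, 0, 0⟩ 0,
  .mul 9 9,
  .mul 1 1,
  .sub 9 0,
  .inv 0,
  .mul 4 0,
  .scale ⟨2199023255552, 0, 0, 0⟩ 0,
  .scale ⟨2199023255552, 0, 0, 0⟩ 2,
  .sub 0 14,
  .add 0 2,
  .mul 20 5,
  .mul 19 0,
  .sub 18 0,
  .add 19 1,
  .mul 18 12,
  .mul 4 4,
  .scale ⟨2199023255552, 0, 0, 0⟩ 7,
  .sub 0 21,
  .mul 11 6,
  .sub 1 0,
  .mul 26 9,
  .mul 0 0,
  .const ⟨14293651161088, 0, 0, 0⟩,
  .const ⟨10995116277760, 0, 0, 0⟩,
  .inv 0,
  .mul 2 0,
  .mul 4 0,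
  .mul 32 32,
  .scale ⟨27487790694400, 0, 0, 0⟩ 0,
  .add 2 0,
  .mul 36 36,
  .mul 18 17,
  .mul 1 0,
  .mul 37 20,
  .sub 40 0,
  .mul 20 15,
  .sub 42 0,
  .mul 2 0,
  .mul 8 0,
  .sub 6 0,
  .pos 0]

def chk4 {α : Type} (cst : Z → α) (add sub mul : α → α → α) (scale : Z → α → α)
    (neg inv exp log : α → α) (ok : α → Bool) (isPos : Nat → α → Bool) (isLt : α → Nat → Bool) :
    List α → Bool
  | [x0, x1, x2, x3] =>
  let v0 := cst ⟨1099511627776, 0, 0, 0⟩; ok v0 && (
  let v1 := mul x1 x0; ok v1 && (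
  let v2 := mul x2 x0; ok v2 && (
  let v3 := mul v2 x1; ok v3 && (
  let v4 := mul v3 v1; ok v4 && (
  let v5 := cst ⟨549755813888, 0, 0, 0⟩; ok v5 && (
  let v6 := mul v3 x3; ok v6 && (
  let v7 := scale ⟨549755813888, 0, 0, 0⟩ v6; ok v7 && (
  let v8 := mul x1 x1; ok v8 && (
  let v9 := mul v7 v7; ok v9 && (
  let v10 := sub v0 v9; ok v10 && (
  let v11 := inv v10; ok v11 && (
  let v12 := mul v7 v11; ok v12 && (
  let v13 := scale ⟨2199023255552, 0, 0, 0⟩ v12; ok v13 && (
  let v14 := scale ⟨2199023255552, 0, 0, 0⟩ v11; ok v14 && (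
  let v15 := sub v14 v0; ok v15 && (
  let v16 := add v15 v13; ok v16 && (
  let v17 := mul x3 v11; ok v17 && (
  let v18 := mul x1 v17; ok v18 && (
  let v19 := sub v0 v18; ok v19 && (
  let v20 := add v0 v18; ok v20 && (
  let v21 := mul v2 v8; ok v21 && (
  let v22 := mul v17 v17; ok v22 && (
  let v23 := scale ⟨2199023255552, 0, 0, 0⟩ v15; ok v23 && (
  let v24 := sub v23 v2; ok v24 && (
  let v25 := mul v13 v18; ok v25 && (
  let v26 := sub v24 v25; ok v26 && (
  let v27 := mul v0 v17; ok v27 && (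
  let v28 := mul v27 v27; ok v28 && (
  let v29 := cst ⟨14293651161088, 0, 0, 0⟩; ok v29 && (
  let v30 := cst ⟨10995116277760, 0, 0, 0⟩; ok v30 && (
  let v31 := inv v30; ok v31 && (
  let v32 := mul v29 v31; ok v32 && (
  let v33 := mul v28 v32; ok v33 && (
  let v34 := mul v1 v1; ok v34 && (
  let v35 := scale ⟨27487790694400, 0, 0, 0⟩ v34; ok v35 && (
  let v36 := add v33 v35; ok v36 && (
  let v37 := mul v0 v0; ok v37 && (
  let v38 := mul v19 v20; ok v38 && (
  let v39 := mul v37 v38; ok v39 && (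
  let v40 := mul v2 v19; ok v40 && (
  let v41 := sub v0 v40; ok v41 && (
  let v42 := mul v21 v26; ok v42 && (
  let v43 := sub v0 v42; ok v43 && (
  let v44 := mul v41 v43; ok v44 && (
  let v45 := mul v36 v44; ok v45 && (
  let v46 := sub v39 v45; ok v46 && (
  isPos 4 v46 && (
  true))))))))))))))))))))))))))))))))))))))))))))))))
  | _ => false

set_option maxRecDepth 1000000 in
theorem chk4_eq (O : Ops) (m : List O.α)
    (h : chk4 O.cst O.add O.sub O.mul O.scale O.neg O.inv O.exp O.log O.ok O.isPos O.isLt m = true) :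
    runG O 4 prog4 m = true := by
  match m, h with
  | [x0, x1, x2, x3], h => exact h

def chkB4 : List opsE.α → Bool :=
  chk4 opsE.cst opsE.add opsE.sub opsE.mul opsE.scale opsE.neg opsE.inv opsE.exp opsE.log opsE.ok opsE.isPos opsE.isLt

theorem chkB4_eq (m : List opsE.α) (h : chkB4 m = true) : runG opsE 4 prog4 m = true :=
  chk4_eq opsE m h

def prog5 : List Op := [
  .const ⟨1099511627776, 0, 0, 0⟩,
  .mul 2 1,
  .mul 4 2,
  .mul 0 4,
  .mul 0 2,
  .const ⟨21990735872, 0, 0, 0⟩,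
  .sub 1 0,
  .pos 0]

def chk5 {α : Type} (cst : Z → α) (add sub mul : α → α → α) (scale : Z → α → α)
    (neg inv exp log : α → α) (ok : α → Bool) (isPos : Nat → α → Bool) (isLt : α → Nat → Bool) :
    List α → Bool
  | [x0, x1, x2, x3] =>
  let v0 := cst ⟨1099511627776, 0, 0, 0⟩; ok v0 && (
  let v1 := mul x1 x0; ok v1 && (
  let v2 := mul x2 x0; ok v2 && (
  let v3 := mul v2 x1; ok v3 && (
  let v4 := mul v3 v1; ok v4 && (
  let v5 := cst ⟨21990735872, 0, 0, 0⟩; ok v5 && (
  let v6 := sub v4 v5; ok v6 && (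
  isPos 4 v6 && (
  true))))))))
  | _ => false

set_option maxRecDepth 1000000 in
theorem chk5_eq (O : Ops) (m : List O.α)
    (h : chk5 O.cst O.add O.sub O.mul O.scale O.neg O.inv O.exp O.log O.ok O.isPos O.isLt m = true) :
    runG O 4 prog5 m = true := by
  match m, h with
  | [x0, x1, x2, x3], h => exact h

def chkB5 : List opsE.α → Bool :=
  chk5 opsE.cst opsE.add opsE.sub opsE.mul opsE.scale opsE.neg opsE.inv opsE.exp opsE.log opsE.ok opsE.isPos opsE.isLt

theorem chkB5_eq (m : List opsE.α) (h : chkB5 m = true) : runG opsE 4 prog5 m = true :=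
  chk5_eq opsE m h

def prog6 : List Op := [
  .const ⟨1099511627776, 0, 0, 0⟩,
  .mul 2 1,
  .mul 4 2,
  .mul 0 4,
  .mul 0 2,
  .const ⟨10994319360, 0, 0, 0⟩,
  .sub 0 1,
  .pos 0]

def chk6 {α : Type} (cst : Z → α) (add sub mul : α → α → α) (scale : Z → α → α)
    (neg inv exp log : α → α) (ok : α → Bool) (isPos : Nat → α → Bool) (isLt : α → Nat → Bool) :
    List α → Bool
  | [x0, x1, x2, x3] =>
  let v0 := cst ⟨1099511627776, 0, 0, 0⟩; ok v0 && (
  let v1 := mul x1 x0; ok v1 && (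
  let v2 := mul x2 x0; ok v2 && (
  let v3 := mul v2 x1; ok v3 && (
  let v4 := mul v3 v1; ok v4 && (
  let v5 := cst ⟨10994319360, 0, 0, 0⟩; ok v5 && (
  let v6 := sub v5 v4; ok v6 && (
  isPos 4 v6 && (
  true))))))))
  | _ => false

set_option maxRecDepth 1000000 in
theorem chk6_eq (O : Ops) (m : List O.α)
    (h : chk6 O.cst O.add O.sub O.mul O.scale O.neg O.inv O.exp O.log O.ok O.isPos O.isLt m = true) :
    runG O 4 prog6 m = true := by
  match m, h with
  | [x0, x1, x2, x3], h => exact h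

def chkB6 : List opsE.α → Bool :=
  chk6 opsE.cst opsE.add opsE.sub opsE.mul opsE.scale opsE.neg opsE.inv opsE.exp opsE.log opsE.ok opsE.isPos opsE.isLt

theorem chkB6_eq (m : List opsE.α) (h : chkB6 m = true) : runG opsE 4 prog6 m = true :=
  chk6_eq opsE m h

def progs : List (List Op) := [prog0, prog1, prog2, prog3, prog4, prog5, prog6]

def chks : List (List opsE.α → Bool) := [chkB0, chkB1, chkB2, chkB3, chkB4, chkB5, chkB6]

theorem chks_eq : List.Forall₂ (fun (ops : List Op) (chk : List opsE.α → Bool) =>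
    ∀ m, chk m = true → runG opsE 4 ops m = true) progs chks :=
  List.Forall₂.cons chkB0_eq (List.Forall₂.cons chkB1_eq (List.Forall₂.cons chkB2_eq (List.Forall₂.cons chkB3_eq (List.Forall₂.cons chkB4_eq (List.Forall₂.cons chkB5_eq (List.Forall₂.cons chkB6_eq List.Forall₂.nil))))))

end Pool.Agent.helper71.FJ.Crt.LMc
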