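import Pool.Agent.helper71.FJ.Phx
import Pool.Agent.helper71.FJ.Crt.LMcP

/-!
Generated: meaning of the programs.
-/

set_option maxRecDepth 4000

namespace Pool.Agent.helper71.FJ

open Complex Pool.Agent.helper31.EQ.Y Pool.Agent.helper31.EQ.R
open Pool.Agent.helper12.EQL Pool.Agent.helper12.RP Pool.Agent.helper12.FF Pool.Agent.helper63.FF
open Pool.Agent.helper31.IA (Z Op InBox)
open Pool.Agent.helper71.FF (B1 B2 B3 Geo PhiB RAs zv exB1 exB2 exB3 AL A5 shf_re')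
open Pool.Agent.helper71.FG (PtE RE AQ gam_le_one)

theorem zLMc_1073741824_0 : (1 / 1024 : ℝ) = zv 1073741824 0 := by unfold zv; norm_num

theorem zLMc_10994319360_0 : (10485 / 1048576 : ℝ) = zv 10994319360 0 := by unfold zv; norm_num

theorem zLMc_21990735872_0 : (5243 / 262144 : ℝ) = zv 21990735872 0 := by unfold zv; norm_num

theorem zLMc_45768245248_0 : (341 / 8192 : ℝ) = zv 45768245248 0 := by unfold zv; norm_num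

theorem zLMc_55834574848_0 : (13 / 256 : ℝ) = zv 55834574848 0 := by unfold zv; norm_num

theorem zLMc_137438953472_0 : (1 / 8 : ℝ) = zv 137438953472 0 := by unfold zv; norm_num

theorem zLMc_183207198720_0 : (1365 / 8192 : ℝ) = zv 183207198720 0 := by unfold zv; norm_num

theorem zLMc_219915747328_0 : (3277 / 16384 : ℝ) = zv 219915747328 0 := by unfold zv; norm_num

theorem zLMc_223338299392_0 : (13 / 64 : ℝ) = zv 223338299392 0 := by unfold zv; norm_num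

theorem zLMc_224412041216_0 : (209 / 1024 : ℝ) = zv 224412041216 0 := by unfold zv; norm_num

theorem zLMc_339302416384_0 : (79 / 256 : ℝ) = zv 339302416384 0 := by unfold zv; norm_num

theorem zLMc_366548615168_0 : (2731 / 8192 : ℝ) = zv 366548615168 0 := by unfold zv; norm_num

theorem zLMc_377957122048_0 : (11 / 32 : ℝ) = zv 377957122048 0 := by unfold zv; norm_num

theorem zLMc_549755813888_0 : (1 / 2 : ℝ) = zv 549755813888 0 := by unfold zv; norm_num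

theorem zLMc_687194767360_0 : (5 / 8 : ℝ) = zv 687194767360 0 := by unfold zv; norm_num

theorem zLMc_733097230336_0 : (2731 / 4096 : ℝ) = zv 733097230336 0 := by unfold zv; norm_num

theorem zLMc_893353197568_0 : (13 / 16 : ℝ) = zv 893353197568 0 := by unfold zv; norm_num

theorem zLMc_1099511627776_0 : (1 : ℝ) = zv 1099511627776 0 := by unfold zv; norm_num

theorem zLMc_1524444954624_0 : (5679 / 4096 : ℝ) = zv 1524444954624 0 := by unfold zv; norm_num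

theorem zLMc_2066953011200_0 : (1925 / 1024 : ℝ) = zv 2066953011200 0 := by unfold zv; norm_num

theorem zLMc_2199023255552_0 : (2 : ℝ) = zv 2199023255552 0 := by unfold zv; norm_num

theorem zLMc_3298534883328_0 : (3 : ℝ) = zv 3298534883328 0 := by unfold zv; norm_num

theorem zLMc_3573412790272_0 : (13 / 4 : ℝ) = zv 3573412790272 0 := by unfold zv; norm_num

theorem zLMc_4398046511104_0 : (4 : ℝ) = zv 4398046511104 0 := by unfold zv; norm_num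

theorem zLMc_5497558138880_0 : (5 : ℝ) = zv 5497558138880 0 := by unfold zv; norm_num

theorem zLMc_10774999203840_0 : (10035 / 1024 : ℝ) = zv 10774999203840 0 := by unfold zv; norm_num

theorem zLMc_10995116277760_0 : (10 : ℝ) = zv 10995116277760 0 := by unfold zv; norm_num

theorem zLMc_14293651161088_0 : (13 : ℝ) = zv 14293651161088 0 := by unfold zv; norm_num

theorem zLMc_27487790694400_0 : (25 : ℝ) = zv 27487790694400 0 := by unfold zv; norm_num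

theorem far_LMc0 {κ : ℝ} {τ : ℂ} {R w : ℝ} {v : B1} (D : PtE (3 * 5⁻¹) v.e κ τ R w)
    (G : Geo κ (shf κ τ) v) (v2 : B2 v) (v3 : B3 v) (v5 : V5 v) {l1 : Lg v.D} {l2 : Lg v.D2}
    (lv : LV v l1 l2) (he2 : 2 ≤ v.e) {ri tr de : ℝ}
    (hde0 : 0 < de) (hri0 : 0 < ri) (ht : v.t = tr * ri)
    (heps : de * de = v.t * v.u * (v.u * ri)) (hee : v.e * (de * de) = 1)
    (h : RAs Pool.Agent.helper71.FJ.Crt.LMc.prog0 [ri, v.u, tr, v.n]) :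
    FarPt v.e κ (1 - Real.sinh κ / 1024) w (2 * AL v.e v.K * Real.sinh κ ^ 2) R
      (RE v.e κ (w * R)) τ := by
  obtain ⟨S, e_S⟩ : ∃ zz : ℝ, zz = v.u * ri := ⟨_, rfl⟩
  obtain ⟨eps, e_eps⟩ : ∃ zz : ℝ, zz = v.tu * S := ⟨_, rfl⟩
  have e_eps' : eps = v.t * v.u * S := by first | exact e_eps | rw [e_eps, v.e_tu]
  have hee' : v.e * eps = 1 := by rw [e_eps', e_S, ← heps]; exact hee
  obtain ⟨r, hri⟩ : ∃ r : ℝ, r * ri = 1 := ⟨ri⁻¹, inv_mul_cancel₀ hri0.ne'⟩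
  obtain ⟨q, e_q⟩ : ∃ zz : ℝ, zz = ri * ri * (ri * ri + ri * lv.rlo + (1 / 2) * (lv.rlo * lv.rlo))⁻¹ := ⟨_, rfl⟩
  obtain ⟨qp, e_qp⟩ : ∃ zz : ℝ, zz = ri * ri * (ri * ri + ri * lv.rplo + (1 / 2) * (lv.rplo * lv.rplo))⁻¹ := ⟨_, rfl⟩
  obtain ⟨gv, e_g⟩ : ∃ zz : ℝ, zz = (1 / 2) * ((q + (1 : ℝ)) * ((1 : ℝ) - q * (v.h1 + (1 : ℝ)))⁻¹) := ⟨_, rfl⟩
  obtain ⟨ga, e_ga⟩ : ∃ zz : ℝ, zz = gv * (gv + (1 / 2 : ℝ))⁻¹ := ⟨_, rfl⟩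
  obtain ⟨hg, e_hg⟩ : ∃ zz : ℝ, zz = v.h1 * ga := ⟨_, rfl⟩
  obtain ⟨lsf, e_lsf⟩ : ∃ zz : ℝ, zz = ((1 : ℝ) - (1 / 2) * hg) * ((1 : ℝ) - hg)⁻¹ := ⟨_, rfl⟩
  obtain ⟨Qb, e_Qb⟩ : ∃ zz : ℝ, zz = q * (hg + (1 : ℝ)) := ⟨_, rfl⟩
  obtain ⟨lsx, e_lsx⟩ : ∃ zz : ℝ, zz = v.h1t * lsf * ga := ⟨_, rfl⟩
  obtain ⟨ls, e_ls⟩ : ∃ zz : ℝ, zz = hg * lsf := ⟨_, rfl⟩
  obtain ⟨gpv, e_gp⟩ : ∃ zz : ℝ, zz = (1 / 2) * ((qp + (1 : ℝ)) * ((1 : ℝ) - qp * (v3.hp + (1 : ℝ)))⁻¹) := ⟨_, rfl⟩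
  obtain ⟨gap, e_gap⟩ : ∃ zz : ℝ, zz = gpv * (gpv + (1 / 2 : ℝ))⁻¹ := ⟨_, rfl⟩
  obtain ⟨hgp, e_hgp⟩ : ∃ zz : ℝ, zz = v3.hp * gap := ⟨_, rfl⟩
  obtain ⟨gu, e_gu⟩ : ∃ zz : ℝ, zz = gap * S := ⟨_, rfl⟩
  obtain ⟨G4, e_G4⟩ : ∃ zz : ℝ, zz = (1 / 2) * (4 * S + (1 : ℝ) * v.nj) := ⟨_, rfl⟩
  obtain ⟨Ei, e_Ei⟩ : ∃ zz : ℝ, zz = 2 * eps + (1 : ℝ) := ⟨_, rfl⟩
  obtain ⟨Eh, e_Eh⟩ : ∃ zz : ℝ, zz = eps + (1 : ℝ) := ⟨_, rfl⟩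
  obtain ⟨phux, e_phux⟩ : ∃ zz : ℝ, zz = (1 / 2) * ((13 / 4) * v.om + (79 / 256 : ℝ)) := ⟨_, rfl⟩
  obtain ⟨Q1, e_Q1⟩ : ∃ zz : ℝ, zz = Qb + (1 : ℝ) := ⟨_, rfl⟩
  obtain ⟨xa⟩ := exKa v2 eps 1 S G4 Qb Q1 ls lsx phux Ei Eh
  obtain ⟨srcs, e_srcs⟩ : ∃ zz : ℝ, zz = v.om1 * ((1 / 2) * (tr * v2.bsum * v.aQ⁻¹)) + v.t * xa.kl := ⟨_, rfl⟩
  obtain ⟨yb⟩ := exKb (3 * 5⁻¹) xa tr gap gu srcs
  obtain ⟨pk⟩ := exPk v5 lv.rplo v3.hp hgp gu yb.yy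
  obtain ⟨Ee, e_Ee⟩ : ∃ zz : ℝ, zz = ri * ri * (ri * ri + ri * pk.ye + (1 / 2) * (pk.ye * pk.ye))⁻¹ := ⟨_, rfl⟩
  obtain ⟨cd⟩ := exCd yb Ee
  have hsc := sc_Mc e_S ht e_eps' hri hri0 G.u0 hee'
  obtain ⟨hA0, hA⟩ := hA_L G hsc e_G4
  have f := lv.f G hsc.hr
  obtain ⟨p_gC, s0⟩ := ((((((((((h
    (1 : ℝ) zLMc_1099511627776_0
    S e_S
    v.t ht
    v.tu v.e_tu
    eps e_eps
    (1 / 2 : ℝ) zLMc_549755813888_0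
    (v.tu * v.n) rfl
    v.h (v.e_h.trans (congrArg (fun y : ℝ => y * (v.tu * v.n)) zLMc_549755813888_0))
    v.u2 v.e_u2
    (v.h * v.h) rfl
    v.jm v.e_jm).2
    v.j v.e_j
    (v.h * v.j) rfl
    v.K (v.e_K.trans (congrArg (fun y : ℝ => y * (v.h * v.j)) zLMc_2199023255552_0))
    (2 * v.j) (congrArg (fun y : ℝ => y * v.j) zLMc_2199023255552_0)
    v.c0 v.e_c0
    v.m v.e_m
    v.nj v.e_nj
    v.om v.e_om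
    v.om1 v.e_om1
    v.op1 v.e_op1
    v.R v.e_R
    v.nj2 v.e_nj2
    v2.Y (v2.e_Y.trans (congrArg (fun y : ℝ => y * v.h) zLMc_10774999203840_0))
    ((341 / 8192) * v2.Y) (congrArg (fun y : ℝ => y * v2.Y) zLMc_45768245248_0)
    (1365 / 8192 : ℝ) zLMc_183207198720_0
    ((341 / 8192) * v2.Y + (1365 / 8192 : ℝ)) rfl
    (v2.Y * ((341 / 8192) * v2.Y + (1365 / 8192 : ℝ))) rfl
    ((1 / 2 : ℝ) + v2.Y * ((341 / 8192) * v2.Y + (1365 / 8192 : ℝ))) rfl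
    (v2.Y * ((1 / 2 : ℝ) + v2.Y * ((341 / 8192) * v2.Y + (1365 / 8192 : ℝ)))) rfl
    v2.pY v2.e_pY
    (v2.Y * v2.pY) rfl
    ((1 / 2) * (v2.Y * v2.pY)) (congrArg (fun y : ℝ => y * (v2.Y * v2.pY)) zLMc_549755813888_0)
    ((1 : ℝ) + (1 / 2) * (v2.Y * v2.pY)) rfl
    v2.Yp v2.e_Yp
    (v.K * v.om) rfl
    (2 * v.c0) (congrArg (fun y : ℝ => y * v.c0) zLMc_2199023255552_0)
    (v.K * v.om + 2 * v.c0) rfl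
    v.Dt v.e_Dt
    v.D v.e_D
    v.SQ v.e_SQ
    (v.K * v.K) rfl
    (2 * (v.K * v.K)) (congrArg (fun y : ℝ => y * (v.K * v.K)) zLMc_2199023255552_0)
    v.c2 v.e_c2
    (v.c0 * v.Dt) rfl
    v.rhat v.e_rhat).2
    v.LQ v.e_LQ
    ((1 / 2) * v.LQ) (congrArg (fun y : ℝ => y * v.LQ) zLMc_549755813888_0)
    v.aQ v.e_aQ
    (3 : ℝ) zLMc_3298534883328_0).2
    ((3 : ℝ)⁻¹) rfl
    ((1 : ℝ) * (3 : ℝ)⁻¹) rfl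
    (2 : ℝ) zLMc_2199023255552_0
    (v.D + (2 : ℝ)) rfl).2
    ((v.D + (2 : ℝ))⁻¹) rfl
    l1.zL l1.e_zL
    l1.zz l1.e_zz
    ((1 : ℝ) - l1.zL) rfl
    (l1.zz * ((1 : ℝ) * (3 : ℝ)⁻¹)) rfl
    ((1 : ℝ) + l1.zz * ((1 : ℝ) * (3 : ℝ)⁻¹)) rfl
    l1.Lv l1.e_Lv
    (l1.zz * l1.zz) rfl
    l1.eL (l1.e_eL.trans (congrArg (fun y : ℝ => y * (l1.zz * l1.zz)) zLMc_219915747328_0))
    (v.Dt * l1.Lv) rfl
    lv.rlo (lv.e_rlo.trans (congrArg (fun y : ℝ => y * (v.Dt * l1.Lv)) zLMc_549755813888_0))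
    (v.Dt * l1.eL) rfl
    lv.er (lv.e_er.trans (congrArg (fun y : ℝ => y * (v.Dt * l1.eL)) zLMc_549755813888_0))
    lv.rhi lv.e_rhi
    (v.c0 * v.rhat) rfl
    lv.D2R (lv.e_D2R.trans (congrArg (fun y : ℝ => y * (v.c0 * v.rhat)) zLMc_4398046511104_0))
    (v.c0 * v.R) rfl
    (v.c0 * v.R * v.rhat) rfl
    v.D2 (v.e_D2.trans (congrArg (fun y : ℝ => y * (v.c0 * v.R * v.rhat)) zLMc_4398046511104_0))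
    (v.D2 + (2 : ℝ)) rfl).2
    ((v.D2 + (2 : ℝ))⁻¹) rfl
    l2.zL l2.e_zL
    l2.zz l2.e_zz
    ((1 : ℝ) - l2.zL) rfl
    (l2.zz * ((1 : ℝ) * (3 : ℝ)⁻¹)) rfl
    ((1 : ℝ) + l2.zz * ((1 : ℝ) * (3 : ℝ)⁻¹)) rfl
    l2.Lv l2.e_Lv
    (l2.zz * l2.zz) rfl
    l2.eL (l2.e_eL.trans (congrArg (fun y : ℝ => y * (l2.zz * l2.zz)) zLMc_219915747328_0))
    (lv.D2R * l2.Lv) rfl
    ((1 / 2) * (lv.D2R * l2.Lv)) (congrArg (fun y : ℝ => y * (lv.D2R * l2.Lv)) zLMc_549755813888_0)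
    lv.rplo lv.e_rplo
    (lv.D2R * l2.eL) rfl
    ((1 / 2) * (lv.D2R * l2.eL)) (congrArg (fun y : ℝ => y * (lv.D2R * l2.eL)) zLMc_549755813888_0)
    lv.erp lv.e_erp
    lv.rphi lv.e_rphi
    (ri * ri) rfl
    (ri * lv.rlo) rfl
    (ri * ri + ri * lv.rlo) rfl
    (lv.rlo * lv.rlo) rfl
    ((1 / 2) * (lv.rlo * lv.rlo)) (congrArg (fun y : ℝ => y * (lv.rlo * lv.rlo)) zLMc_549755813888_0)
    (ri * ri + ri * lv.rlo + (1 / 2) * (lv.rlo * lv.rlo)) rfl).2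
    ((ri * ri + ri * lv.rlo + (1 / 2) * (lv.rlo * lv.rlo))⁻¹) rfl
    q e_q
    (ri * lv.rplo) rfl
    (ri * ri + ri * lv.rplo) rfl
    (lv.rplo * lv.rplo) rfl
    ((1 / 2) * (lv.rplo * lv.rplo)) (congrArg (fun y : ℝ => y * (lv.rplo * lv.rplo)) zLMc_549755813888_0)
    (ri * ri + ri * lv.rplo + (1 / 2) * (lv.rplo * lv.rplo)) rfl).2
    ((ri * ri + ri * lv.rplo + (1 / 2) * (lv.rplo * lv.rplo))⁻¹) rfl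
    qp e_qp
    (v.om * v.K) rfl
    (v.c0 + v.om * v.K) rfl).2
    v.ioK v.e_ioK
    v.h1t v.e_h1t
    (v.om1 * v.t) rfl
    v.h1 v.e_h1
    ((1 : ℝ) - v.u2) rfl
    v.f2 v.e_f2
    v.tu2 v.e_tu2
    ((1 : ℝ) - v.nj2) rfl
    v5.sn v5.e_sn
    (v.R * v.rhat) rfl).2
    (v.SQ⁻¹) rfl
    v5.R1 v5.e_R1
    (v.c0 + v5.R1) rfl
    v5.Qr v5.e_Qr
    (v5.Qr * v5.Qr) rfl).2
    ((v5.Qr * v5.Qr)⁻¹) rfl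
    v5.Th v5.e_Th
    (v.h1 + (1 : ℝ)) rfl
    (q * (v.h1 + (1 : ℝ))) rfl
    ((1 : ℝ) - q * (v.h1 + (1 : ℝ))) rfl
  change 0 < (1 : ℝ) - q * (v.h1 + (1 : ℝ)) at p_gC
  obtain ⟨p_hg, s1⟩ := (((s0
    (q + (1 : ℝ)) rfl).2
    (((1 : ℝ) - q * (v.h1 + (1 : ℝ)))⁻¹) rfl
    ((q + (1 : ℝ)) * ((1 : ℝ) - q * (v.h1 + (1 : ℝ)))⁻¹) rfl
    gv (e_g.trans (congrArg (fun y : ℝ => y * ((q + (1 : ℝ)) * ((1 : ℝ) - q * (v.h1 + (1 : ℝ)))⁻¹)) zLMc_549755813888_0))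
    (gv + (1 / 2 : ℝ)) rfl).2
    ((gv + (1 / 2 : ℝ))⁻¹) rfl
    ga e_ga
    hg e_hg
    ((1 / 2) * hg) (congrArg (fun y : ℝ => y * hg) zLMc_549755813888_0)
    ((1 : ℝ) - (1 / 2) * hg) rfl
    ((1 : ℝ) - hg) rfl).2
    (((1 : ℝ) - hg)⁻¹) rfl
    lsf e_lsf
    (hg + (1 : ℝ)) rfl
    Qb e_Qb
    (v.h1t * lsf) rfl
    lsx e_lsx
    ls e_ls
  change 0 < (1 : ℝ) - hg at p_hg
  obtain ⟨p_rplo, s2⟩ := (s1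
    (v.om1 * v.op1) rfl
    (v.c0 + v.t) rfl
    (v.om * v.c0) rfl
    (v.om * v.c0 * v.K) rfl
    (2 * (v.om * v.c0 * v.K)) (congrArg (fun y : ℝ => y * (v.om * v.c0 * v.K)) zLMc_2199023255552_0)
    (v.c2 + 2 * (v.om * v.c0 * v.K)) rfl
    ((v.c0 + v.t) * (v.c2 + 2 * (v.om * v.c0 * v.K))) rfl).2
    (((v.c0 + v.t) * (v.c2 + 2 * (v.om * v.c0 * v.K)))⁻¹) rfl
    v3.hpt v3.e_hpt
    v3.hp v3.e_hp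
  change 0 < lv.rplo at p_rplo
  obtain ⟨p_gCp, s3⟩ := s2
    (v3.hp + (1 : ℝ)) rfl
    (qp * (v3.hp + (1 : ℝ))) rfl
    ((1 : ℝ) - qp * (v3.hp + (1 : ℝ))) rfl
  change 0 < (1 : ℝ) - qp * (v3.hp + (1 : ℝ)) at p_gCp
  obtain ⟨p_lspa, s4⟩ := (((((((((((((((s3
    (qp + (1 : ℝ)) rfl).2
    (((1 : ℝ) - qp * (v3.hp + (1 : ℝ)))⁻¹) rfl
    ((qp + (1 : ℝ)) * ((1 : ℝ) - qp * (v3.hp + (1 : ℝ)))⁻¹) rfl
    gpv (e_gp.trans (congrArg (fun y : ℝ => y * ((qp + (1 : ℝ)) * ((1 : ℝ) - qp * (v3.hp + (1 : ℝ)))⁻¹)) zLMc_549755813888_0))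
    (gpv + (1 / 2 : ℝ)) rfl).2
    ((gpv + (1 / 2 : ℝ))⁻¹) rfl
    gap e_gap
    hgp e_hgp
    gu e_gu
    (v.h + (1 : ℝ)) rfl).2
    v2.ih v2.e_ih
    (v.h * v2.ih) rfl
    v2.rh (v2.e_rh.trans (congrArg (fun y : ℝ => y * (v.h * v2.ih)) zLMc_2199023255552_0))
    v2.mi v2.e_mi
    v2.hm v2.e_hm
    v2.nih v2.e_nih
    (v2.nih * v2.mi) rfl
    v2.bsum v2.e_bsum
    ((209 / 1024) * v.j) (congrArg (fun y : ℝ => y * v.j) zLMc_224412041216_0)).2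
    (v2.Yp⁻¹) rfl
    v2.lm v2.e_lm
    (4 * S) (congrArg (fun y : ℝ => y * S) zLMc_4398046511104_0)
    ((1 : ℝ) * v.nj) rfl
    (4 * S + (1 : ℝ) * v.nj) rfl
    G4 (e_G4.trans (congrArg (fun y : ℝ => y * (4 * S + (1 : ℝ) * v.nj)) zLMc_549755813888_0))).2
    xa.iG4 xa.e_iG4
    xa.alG xa.e_alG
    xa.AE xa.e_AE
    (xa.AE * v.op1) rfl
    xa.XeE xa.e_XeE
    (xa.alG * v.op1) rfl
    xa.XM xa.e_XM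
    ((1 : ℝ) - xa.XM) rfl).2
    xa.iX xa.e_iX
    xa.QX xa.e_QX
    ((1 : ℝ) - xa.QX) rfl).2
    xa.iQX xa.e_iQX
    (2 * eps) (congrArg (fun y : ℝ => y * eps) zLMc_2199023255552_0)
    Ei e_Ei
    Eh e_Eh
    ((13 / 4) * v.om) (congrArg (fun y : ℝ => y * v.om) zLMc_3573412790272_0)
    (79 / 256 : ℝ) zLMc_339302416384_0
    ((13 / 4) * v.om + (79 / 256 : ℝ)) rfl
    phux (e_phux.trans (congrArg (fun y : ℝ => y * ((13 / 4) * v.om + (79 / 256 : ℝ))) zLMc_549755813888_0))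
    (v.h * v.nj) rfl
    ((1 : ℝ) - v.f2) rfl
    (v.h * v.om) rfl
    (2 * (v.h * v.om)) (congrArg (fun y : ℝ => y * (v.h * v.om)) zLMc_2199023255552_0)
    ((1 : ℝ) - v.f2 - 2 * (v.h * v.om)) rfl
    (v.h * v.nj * (v.h * v.nj)) rfl
    xa.N1 xa.e_N1
    (xa.N1 + (1 : ℝ)) rfl
    xa.s (xa.e_s.trans (congrArg (fun y : ℝ => y * (xa.N1 + (1 : ℝ))) zLMc_549755813888_0))
    ((1 / 2) * v.R) (congrArg (fun y : ℝ => y * v.R) zLMc_549755813888_0)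
    (v.j - (1 / 2) * v.R) rfl
    (v.tu2 * ((1 : ℝ) - v.f2)) rfl
    (v.tu2 * ((1 : ℝ) - v.f2) * v.jm) rfl
    ((1 / 8) * (v.tu2 * ((1 : ℝ) - v.f2) * v.jm)) (congrArg (fun y : ℝ => y * (v.tu2 * ((1 : ℝ) - v.f2) * v.jm)) zLMc_137438953472_0)
    (v.j - (1 / 2) * v.R + (1 / 8) * (v.tu2 * ((1 : ℝ) - v.f2) * v.jm)) rfl
    xa.k0 xa.e_k0
    Q1 e_Q1
    (Q1 * xa.iX) rfl
    (Qb * xa.iQX) rfl
    (Q1 * xa.iX + Qb * xa.iQX) rfl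
    (xa.XM * (Q1 * xa.iX + Qb * xa.iQX)) rfl
    (ls + xa.XM * (Q1 * xa.iX + Qb * xa.iQX)) rfl
    xa.a0 xa.e_a0
    (Q1 * xa.XM) rfl
    (Q1 * xa.XM * xa.iX) rfl
    (ls + Q1 * xa.XM * xa.iX) rfl
    xa.l1 xa.e_l1
    ((13 / 64) * xa.l1) (congrArg (fun y : ℝ => y * xa.l1) zLMc_223338299392_0)
    ((1 / 2 : ℝ) + (13 / 64) * xa.l1) rfl
    (xa.l1 * ((1 / 2 : ℝ) + (13 / 64) * xa.l1)) rfl
    xa.Na xa.e_Na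
    ((13 / 16) * xa.a0) (congrArg (fun y : ℝ => y * xa.a0) zLMc_893353197568_0)
    ((1 : ℝ) + (13 / 16) * xa.a0) rfl
    (xa.a0 * ((1 : ℝ) + (13 / 16) * xa.a0)) rfl
    xa.Nb xa.e_Nb
    (v2.rh * v2.nih) rfl
    (v2.rh * v2.nih * Ei) rfl
    xa.rn xa.e_rn
    (xa.k0 * xa.Na) rfl
    (v.aQ + (1 / 2 : ℝ)) rfl
    (xa.rn * (v.aQ + (1 / 2 : ℝ))) rfl
    xa.ka xa.e_ka
    (v.aQ + (1 : ℝ)) rfl
    xa.kb xa.e_kb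
    (Eh * (v.aQ + (1 : ℝ))) rfl
    (Eh * (v.aQ + (1 : ℝ)) * v2.nih) rfl
    xa.lfk xa.e_lfk
    (xa.ka * lsx) rfl
    (xa.lfk * phux) rfl
    xa.kl xa.e_kl
    (tr * v2.bsum) rfl).2
    (v.aQ⁻¹) rfl
    (tr * v2.bsum * v.aQ⁻¹) rfl
    ((1 / 2) * (tr * v2.bsum * v.aQ⁻¹)) (congrArg (fun y : ℝ => y * (tr * v2.bsum * v.aQ⁻¹)) zLMc_549755813888_0)
    (v.om1 * ((1 / 2) * (tr * v2.bsum * v.aQ⁻¹))) rfl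
    (v.t * xa.kl) rfl
    srcs e_srcs
    yb.src yb.e_src
    (xa.ka * Q1) rfl
    (xa.ka * Q1 * xa.iX) rfl
    (xa.kb * Qb) rfl
    (xa.kb * Qb * xa.iQX) rfl
    yb.fxe yb.e_fxe
    (v.om1 * yb.src) rfl
    (xa.XeE * yb.fxe) rfl
    yb.epd yb.e_epd
    (v.tu2 * yb.epd) rfl
    (v.tu2 * yb.epd * v.aQ⁻¹) rfl
    ((1 : ℝ) - v.tu2 * yb.epd * v.aQ⁻¹) rfl).2
    yb.NN yb.e_NN
    yb.eN yb.e_eN
    yb.d yb.e_d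
    yb.eta yb.e_eta
    (yb.eta * v.aQ⁻¹) rfl
    ((1 : ℝ) - yb.eta * v.aQ⁻¹) rfl
    (v.rhat * ((1 : ℝ) - yb.eta * v.aQ⁻¹)) rfl
    yb.rl yb.e_rl).2
    yb.irl yb.e_irl
    yb.yy yb.e_yy
    (v.aQ - yb.eta) rfl).2
    yb.q0 yb.e_q0
    yb.zp yb.e_zp
    ((1 / 2) * yb.zp) (congrArg (fun y : ℝ => y * yb.zp) zLMc_549755813888_0)
    ((1 : ℝ) - (1 / 2) * yb.zp) rfl
    ((1 : ℝ) - yb.zp) rfl).2
    (((1 : ℝ) - yb.zp)⁻¹) rfl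
    yb.kzp yb.e_kzp
    (v.u * yb.q0) rfl
    (gu * yb.irl) rfl
    (gu * yb.irl * yb.kzp) rfl
    yb.Cu yb.e_Cu
    (tr * yb.eN) rfl
    (yb.q0 * (tr * yb.eN)) rfl
    (gap * yb.irl) rfl
    (gap * yb.irl * yb.kzp) rfl
    (gap * yb.irl * yb.kzp * yb.d) rfl
    yb.rr yb.e_rr
    ((13 / 64) * yb.rr) (congrArg (fun y : ℝ => y * yb.rr) zLMc_223338299392_0)
    ((1 / 2 : ℝ) + (13 / 64) * yb.rr) rfl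
    (yb.rr * ((1 / 2 : ℝ) + (13 / 64) * yb.rr)) rfl
    ((1 : ℝ) + yb.rr * ((1 / 2 : ℝ) + (13 / 64) * yb.rr)) rfl
    (yb.Cu * ((1 : ℝ) + yb.rr * ((1 / 2 : ℝ) + (13 / 64) * yb.rr))) rfl
    yb.CuN yb.e_CuN
    yb.fbt yb.e_fbt
    yb.XLt yb.e_XLt
    (5 : ℝ) zLMc_5497558138880_0).2
    ((5 : ℝ)⁻¹) rfl
    yb.beta yb.e_beta
    ((v.h + (1 : ℝ)) * v.op1) rfl
    yb.b1 yb.e_b1
    pk.omr pk.e_omr
    pk.omp pk.e_omp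
    ((1 / 2) * hgp) (congrArg (fun y : ℝ => y * hgp) zLMc_549755813888_0)
    ((1 : ℝ) - (1 / 2) * hgp) rfl
    ((1 : ℝ) - hgp) rfl).2
    (((1 : ℝ) - hgp)⁻¹) rfl
    (((1 : ℝ) - (1 / 2) * hgp) * ((1 : ℝ) - hgp)⁻¹) rfl
    pk.lspf pk.e_lspf
    (v.tu2 * v5.Th) rfl
    ((2731 / 4096) * (v.tu2 * v5.Th)) (congrArg (fun y : ℝ => y * (v.tu2 * v5.Th)) zLMc_733097230336_0)
    ((1 : ℝ) - (2731 / 4096) * (v.tu2 * v5.Th)) rfl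
    (v5.Th * ((1 : ℝ) - (2731 / 4096) * (v.tu2 * v5.Th))) rfl
    (v.u2 * (lv.rplo * lv.rplo)) rfl
    pk.E0 pk.e_E0
    pk.lspa pk.e_lspa
    (pk.E0 + (1 : ℝ)) rfl
    (pk.lspa * (pk.E0 + (1 : ℝ))) rfl
    (pk.E0 - pk.lspa * (pk.E0 + (1 : ℝ))) rfl
    ((2731 / 8192) * (v.K * v.K)) (congrArg (fun y : ℝ => y * (v.K * v.K)) zLMc_366548615168_0)
    ((1 : ℝ) - (2731 / 8192) * (v.K * v.K)) rfl
    (v.nj2 * ((1 : ℝ) - (2731 / 8192) * (v.K * v.K))) rfl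
    (pk.E0 - pk.lspa * (pk.E0 + (1 : ℝ)) + v.nj2 * ((1 : ℝ) - (2731 / 8192) * (v.K * v.K))) rfl
    (pk.omr * (pk.E0 - pk.lspa * (pk.E0 + (1 : ℝ)) + v.nj2 * ((1 : ℝ) - (2731 / 8192) * (v.K * v.K)))) rfl
    (pk.omp * pk.omp) rfl
    ((1 : ℝ) + pk.omp * pk.omp) rfl).2
    (((1 : ℝ) + pk.omp * pk.omp)⁻¹) rfl
    pk.pe pk.e_pe
    ((1 : ℝ) - yb.yy) rfl
    pk.ye pk.e_ye
    ((1 : ℝ) - pk.lspa) rfl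
  change 0 < (1 : ℝ) - pk.lspa at p_lspa
  obtain ⟨p_pe, s5⟩ := s4
  change 0 < pk.pe at p_pe
  obtain ⟨p_yy, s6⟩ := s5
  change 0 < (1 : ℝ) - yb.yy at p_yy
  obtain ⟨p_XM, s7⟩ := (((((((s6
    (yb.CuN * G4) rfl
    (yb.CuN * G4 * srcs) rfl).2
    (v.op1⁻¹) rfl
    cd.FX cd.e_FX
    (ri * pk.ye) rfl
    (ri * ri + ri * pk.ye) rfl
    (pk.ye * pk.ye) rfl
    ((1 / 2) * (pk.ye * pk.ye)) (congrArg (fun y : ℝ => y * (pk.ye * pk.ye)) zLMc_549755813888_0)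
    (ri * ri + ri * pk.ye + (1 / 2) * (pk.ye * pk.ye)) rfl).2
    ((ri * ri + ri * pk.ye + (1 / 2) * (pk.ye * pk.ye))⁻¹) rfl
    Ee e_Ee
    (v.t * yb.b1) rfl
    ((1 : ℝ) + v.t * yb.b1) rfl).2
    cd.Lam cd.e_Lam
    (Ee * cd.Lam) rfl
    (Ee * cd.Lam * v.m) rfl
    (v.tu * yb.eN) rfl
    (v.tu * yb.eN * v.op1⁻¹) rfl
    ((1 : ℝ) + v.tu * yb.eN * v.op1⁻¹) rfl
    (Ee * cd.Lam * v.m * ((1 : ℝ) + v.tu * yb.eN * v.op1⁻¹)) rfl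
    cd.c1 cd.e_c1
    cd.fb cd.e_fb
    (cd.fb * xa.XM) rfl
    (v.t * yb.XLt) rfl
    (cd.FX * (v.t * yb.XLt)) rfl
    cd.r2 cd.e_r2
    (cd.fb + cd.FX) rfl
    ((1 : ℝ) + cd.r2) rfl
    (cd.c1 * ((1 : ℝ) + cd.r2)) rfl
    (cd.fb + cd.FX + cd.c1 * ((1 : ℝ) + cd.r2)) rfl
    cd.Bm cd.e_Bm
    ((1 / 1024) * v.t) (congrArg (fun y : ℝ => y * v.t) zLMc_1073741824_0)
    (cd.Bm - (1 / 1024) * v.t) rfl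
    yb.m1 yb.e_m1
    (yb.m1 + (2 : ℝ)) rfl
    (2 * yb.beta) (congrArg (fun y : ℝ => y * yb.beta) zLMc_2199023255552_0)
    (yb.m1 + (2 : ℝ) - 2 * yb.beta) rfl
    ((v.h + (1 : ℝ)) * (yb.m1 + (2 : ℝ) - 2 * yb.beta)) rfl
    (yb.m1 * (2 * yb.beta)) rfl
    (yb.m1 * (2 * yb.beta) + (1 : ℝ)) rfl).2
    ((yb.m1 * (2 * yb.beta) + (1 : ℝ))⁻¹) rfl
    ((v.h + (1 : ℝ)) * (yb.m1 + (2 : ℝ) - 2 * yb.beta) * (yb.m1 * (2 * yb.beta) + (1 : ℝ))⁻¹) rfl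
    (xa.AE * yb.fxe) rfl
    ((1 / 2) * v2.lm) (congrArg (fun y : ℝ => y * v2.lm) zLMc_549755813888_0)
    (v.K + (1 / 2) * v2.lm) rfl
    (xa.AE * yb.fxe * (v.K + (1 / 2) * v2.lm)) rfl
    (2 * (xa.AE * yb.fxe * (v.K + (1 / 2) * v2.lm))) (congrArg (fun y : ℝ => y * (xa.AE * yb.fxe * (v.K + (1 / 2) * v2.lm))) zLMc_2199023255552_0)
    (yb.src + 2 * (xa.AE * yb.fxe * (v.K + (1 / 2) * v2.lm))) rfl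
    (2 * (yb.src + 2 * (xa.AE * yb.fxe * (v.K + (1 / 2) * v2.lm)))) (congrArg (fun y : ℝ => y * (yb.src + 2 * (xa.AE * yb.fxe * (v.K + (1 / 2) * v2.lm)))) zLMc_2199023255552_0)
    (2 * (yb.src + 2 * (xa.AE * yb.fxe * (v.K + (1 / 2) * v2.lm))) * yb.NN) rfl
    (v.op1 - v.tu * yb.eN) rfl).2
    ((v.op1 - v.tu * yb.eN)⁻¹) rfl
    (2 * (yb.src + 2 * (xa.AE * yb.fxe * (v.K + (1 / 2) * v2.lm))) * yb.NN * (v.op1 - v.tu * yb.eN)⁻¹) rfl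
    yb.V yb.e_V
    ((1 : ℝ) * v.nj * ((1 : ℝ) * v.nj)) rfl
    (13 : ℝ) zLMc_14293651161088_0
    (10 : ℝ) zLMc_10995116277760_0).2
    ((10 : ℝ)⁻¹) rfl
    ((13 : ℝ) * (10 : ℝ)⁻¹) rfl
    ((1 : ℝ) * v.nj * ((1 : ℝ) * v.nj) * ((13 : ℝ) * (10 : ℝ)⁻¹)) rfl
    (S * S) rfl
    (25 * (S * S)) (congrArg (fun y : ℝ => y * (S * S)) zLMc_27487790694400_0)
    yb.C2 yb.e_C2
    yb.gr (yb.e_gr.trans (congrArg (fun y : ℝ => yb.b1 * y) cd.e_Lam.symm))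
    (2 * v.c0 - v.t) rfl
    yb.Gt yb.e_Gt
    ((1 : ℝ) * v.u) rfl
    yb.au yb.e_au
    (v.op1 * yb.fxe) rfl
    (v.op1 * yb.fxe * xa.iG4) rfl
    yb.inner yb.e_inner
    (v.tu * yb.eN + (2 : ℝ)) rfl
    yb.ezs yb.e_ezs
    (yb.C2 * yb.gr) rfl
    (yb.NN * yb.ezs) rfl
    (yb.au * yb.inner) rfl
    (yb.NN * yb.ezs * (yb.au * yb.inner)) rfl
    yb.Rg0 yb.e_Rg0
    ((1 / 2) * (v.tu * yb.eN)) (congrArg (fun y : ℝ => y * (v.tu * yb.eN)) zLMc_549755813888_0)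
    ((1 : ℝ) + (1 / 2) * (v.tu * yb.eN)) rfl
    (yb.NN * ((1 : ℝ) + (1 / 2) * (v.tu * yb.eN))) rfl
    (v.t * v.om1) rfl
    (v.t * v.om1 * v2.bsum) rfl
    (v.op1 * v.aQ) rfl).2
    ((v.op1 * v.aQ)⁻¹) rfl
    (v.t * v.om1 * v2.bsum * (v.op1 * v.aQ)⁻¹) rfl
    (yb.NN * ((1 : ℝ) + (1 / 2) * (v.tu * yb.eN)) * (v.t * v.om1 * v2.bsum * (v.op1 * v.aQ)⁻¹)) rfl
    yb.Rh yb.e_Rh
    (v2.lm * yb.Rg0) rfl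
    ((1 : ℝ) - v2.lm) rfl
    (v.u2 * yb.Rh) rfl
    (((1 : ℝ) - v2.lm) * (v.u2 * yb.Rh)) rfl
    (yb.C2 * (((1 : ℝ) - v2.lm) * (v.u2 * yb.Rh))) rfl
    yb.Rg yb.e_Rg
  change 0 < (1 : ℝ) - xa.XM at p_XM
  obtain ⟨p_QX, s8⟩ := s7
  change 0 < (1 : ℝ) - xa.QX at p_QX
  obtain ⟨p_e2, s9⟩ := s8
    (2 * (v.tu2 * yb.epd)) (congrArg (fun y : ℝ => y * (v.tu2 * yb.epd)) zLMc_2199023255552_0)
    (v.aQ - 2 * (v.tu2 * yb.epd)) rfl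
  change 0 < v.aQ - 2 * (v.tu2 * yb.epd) at p_e2
  obtain ⟨p_rl, s10⟩ := s9
  change 0 < yb.rl at p_rl
  obtain ⟨p_hgp, s11⟩ := s10
    ((1 / 2 : ℝ) - hgp) rfl
  change 0 < (1 / 2 : ℝ) - hgp at p_hgp
  obtain ⟨p_l1, s12⟩ := s11
    ((5 / 8) * (1 : ℝ)) (congrArg (fun y : ℝ => y * (1 : ℝ)) zLMc_687194767360_0)
    ((5 / 8) * (1 : ℝ) - xa.l1) rfl
  change 0 < (5 / 8) * (1 : ℝ) - xa.l1 at p_l1
  obtain ⟨p_a0, s13⟩ := s12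
    ((11 / 32) * (1 : ℝ)) (congrArg (fun y : ℝ => y * (1 : ℝ)) zLMc_377957122048_0)
    ((11 / 32) * (1 : ℝ) - xa.a0) rfl
  change 0 < (11 / 32) * (1 : ℝ) - xa.a0 at p_a0
  obtain ⟨p_S, s14⟩ := s13
  change 0 < v.op1 - v.tu * yb.eN at p_S
  obtain ⟨p_zp, s15⟩ := s14
  change 0 < (1 : ℝ) - yb.zp at p_zp
  obtain ⟨p_rr, s16⟩ := s15
    ((5 / 8) * (1 : ℝ) - yb.rr) rfl
  change 0 < (5 / 8) * (1 : ℝ) - yb.rr at p_rr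
  obtain ⟨p_V, s17⟩ := s16
  change 0 < yb.V at p_V
  obtain ⟨p_B, s18⟩ := s17
  change 0 < cd.Bm - (1 / 1024) * v.t at p_B
  obtain ⟨p_Rg, s19⟩ := s18
  change 0 < yb.Rg at p_Rg
  obtain ⟨p_Rh, s20⟩ := s19
  change 0 < yb.Rh at p_Rh
  have hq := qb_c G f hri e_q
  have hqp := qb_cp G f hri p_rplo e_qp
  have hq0 : 0 < q := lt_of_lt_of_le (by rw [G.q_eq]; exact G.q0) hq
  have hgR := gR_GC G.e0 G.κ0 G.s0 hq G.h1_eq p_gC e_g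
  have hγ := gam_g G.e0 G.κ0 G.s0 hgR e_ga
  have hgRp := gR_GC G.e0 G.κ0 (shf_re' G.κ0 G.s0) hqp (G.hp_eq v3) p_gCp e_gp
  have hγp := gam_g G.e0 G.κ0 (shf_re' G.κ0 G.s0) hgRp e_gap
  have hn1 := n1_one G hγ hq e_hg e_Qb e_Q1
  have hlx : 1 * lsx = v.h1t * lsf * ga := by rw [e_lsx, one_mul]
  have fr := fr_g G hγ hq hq0 e_hg e_lsf p_hg e_Qb e_ls (hsc.al0 G) hlx hn1
  have hgu : 1 * gu = gap * S := by rw [e_gu]; ring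
  obtain ⟨lf0, Ex, hφ⟩ := ph_slM G v2 hsc he2 (by norm_num) (by norm_num) (by norm_num) e_phux e_Ei e_Eh
  have as8 : As8 xa yb := ⟨p_XM, p_QX, p_e2, p_rl, p_l1, p_a0, p_S, p_zp, p_rr, p_V, p_Rg, p_Rh⟩
  exact far_Cd G D hsc hA0 hA as8 fr hgu hγp hφ pk f p_rplo e_hgp p_hgp p_lspa p_pe p_yy cd e_srcs hsc.htr
    (exp_quad hri f.r0 (by rw [pk.e_ye]; exact mul_nonneg p_yy.le p_pe.le) e_Ee) p_B

theorem far_LMc1 {κ : ℝ} {τ : ℂ} {R w : ℝ} {v : B1} (D : PtE (3 * 5⁻¹) v.e κ τ R w)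
    (G : Geo κ (shf κ τ) v) (v2 : B2 v) (v3 : B3 v) (v5 : V5 v) {l1 : Lg v.D} {l2 : Lg v.D2}
    (lv : LV v l1 l2) (he2 : 2 ≤ v.e) {ri tr de : ℝ}
    (hde0 : 0 < de) (hri0 : 0 < ri) (ht : v.t = tr * ri)
    (heps : de * de = v.t * v.u * (v.u * ri)) (hee : v.e * (de * de) = 1)
    (h : RAs Pool.Agent.helper71.FJ.Crt.LMc.prog1 [ri, v.u, tr, v.n]) :
    FarPt v.e κ (1 - Real.sinh κ / 1024) w (2 * AL v.e v.K * Real.sinh κ ^ 2) R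
      (RE v.e κ (w * R)) τ := by
  obtain ⟨S, e_S⟩ : ∃ zz : ℝ, zz = v.u * ri := ⟨_, rfl⟩
  obtain ⟨eps, e_eps⟩ : ∃ zz : ℝ, zz = v.tu * S := ⟨_, rfl⟩
  have e_eps' : eps = v.t * v.u * S := by first | exact e_eps | rw [e_eps, v.e_tu]
  have hee' : v.e * eps = 1 := by rw [e_eps', e_S, ← heps]; exact hee
  obtain ⟨r, hri⟩ : ∃ r : ℝ, r * ri = 1 := ⟨ri⁻¹, inv_mul_cancel₀ hri0.ne'⟩
  obtain ⟨q, e_q⟩ : ∃ zz : ℝ, zz = ri * ri * (ri * ri + ri * lv.rlo + (1 / 2) * (lv.rlo * lv.rlo))⁻¹ := ⟨_, rfl⟩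
  obtain ⟨qp, e_qp⟩ : ∃ zz : ℝ, zz = ri * ri * (ri * ri + ri * lv.rplo + (1 / 2) * (lv.rplo * lv.rplo))⁻¹ := ⟨_, rfl⟩
  obtain ⟨gv, e_g⟩ : ∃ zz : ℝ, zz = (1 / 2) * ((q + (1 : ℝ)) * ((1 : ℝ) - q * (v.h1 + (1 : ℝ)))⁻¹) := ⟨_, rfl⟩
  obtain ⟨ga, e_ga⟩ : ∃ zz : ℝ, zz = gv * (gv + (1 / 2 : ℝ))⁻¹ := ⟨_, rfl⟩
  obtain ⟨hg, e_hg⟩ : ∃ zz : ℝ, zz = v.h1 * ga := ⟨_, rfl⟩
  obtain ⟨lsf, e_lsf⟩ : ∃ zz : ℝ, zz = ((1 : ℝ) - (1 / 2) * hg) * ((1 : ℝ) - hg)⁻¹ := ⟨_, rfl⟩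
  obtain ⟨Qb, e_Qb⟩ : ∃ zz : ℝ, zz = q * (hg + (1 : ℝ)) := ⟨_, rfl⟩
  obtain ⟨lsx, e_lsx⟩ : ∃ zz : ℝ, zz = v.h1t * lsf * ga := ⟨_, rfl⟩
  obtain ⟨ls, e_ls⟩ : ∃ zz : ℝ, zz = hg * lsf := ⟨_, rfl⟩
  obtain ⟨gpv, e_gp⟩ : ∃ zz : ℝ, zz = (1 / 2) * ((qp + (1 : ℝ)) * ((1 : ℝ) - qp * (v3.hp + (1 : ℝ)))⁻¹) := ⟨_, rfl⟩
  obtain ⟨gap, e_gap⟩ : ∃ zz : ℝ, zz = gpv * (gpv + (1 / 2 : ℝ))⁻¹ := ⟨_, rfl⟩
  obtain ⟨hgp, e_hgp⟩ : ∃ zz : ℝ, zz = v3.hp * gap := ⟨_, rfl⟩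
  obtain ⟨gu, e_gu⟩ : ∃ zz : ℝ, zz = gap * S := ⟨_, rfl⟩
  obtain ⟨G4, e_G4⟩ : ∃ zz : ℝ, zz = (1 / 2) * (4 * S + (1 : ℝ) * v.nj) := ⟨_, rfl⟩
  obtain ⟨Ei, e_Ei⟩ : ∃ zz : ℝ, zz = 2 * eps + (1 : ℝ) := ⟨_, rfl⟩
  obtain ⟨Eh, e_Eh⟩ : ∃ zz : ℝ, zz = eps + (1 : ℝ) := ⟨_, rfl⟩
  obtain ⟨phux, e_phux⟩ : ∃ zz : ℝ, zz = (1 / 2) * (1 * v.om + (1 : ℝ)) := ⟨_, rfl⟩
  obtain ⟨Q1, e_Q1⟩ : ∃ zz : ℝ, zz = Qb + (1 : ℝ) := ⟨_, rfl⟩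
  obtain ⟨xa⟩ := exKa v2 eps 1 S G4 Qb Q1 ls lsx phux Ei Eh
  obtain ⟨srcs, e_srcs⟩ : ∃ zz : ℝ, zz = v.om1 * ((1 / 2) * (tr * v2.bsum * v.aQ⁻¹)) + v.t * xa.kl := ⟨_, rfl⟩
  obtain ⟨yb⟩ := exKb (3 * 5⁻¹) xa tr gap gu srcs
  obtain ⟨pk⟩ := exPk v5 lv.rplo v3.hp hgp gu yb.yy
  obtain ⟨Ee, e_Ee⟩ : ∃ zz : ℝ, zz = ri * ri * (ri * ri + ri * pk.ye + (1 / 2) * (pk.ye * pk.ye))⁻¹ := ⟨_, rfl⟩
  obtain ⟨cd⟩ := exCd yb Ee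
  have hsc := sc_Mc e_S ht e_eps' hri hri0 G.u0 hee'
  obtain ⟨hA0, hA⟩ := hA_L G hsc e_G4
  have f := lv.f G hsc.hr
  obtain ⟨p_gC, s0⟩ := ((((((((((h
    (1 : ℝ) zLMc_1099511627776_0
    S e_S
    v.t ht
    v.tu v.e_tu
    eps e_eps
    (1 / 2 : ℝ) zLMc_549755813888_0
    (v.tu * v.n) rfl
    v.h (v.e_h.trans (congrArg (fun y : ℝ => y * (v.tu * v.n)) zLMc_549755813888_0))
    v.u2 v.e_u2
    (v.h * v.h) rfl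
    v.jm v.e_jm).2
    v.j v.e_j
    (v.h * v.j) rfl
    v.K (v.e_K.trans (congrArg (fun y : ℝ => y * (v.h * v.j)) zLMc_2199023255552_0))
    (2 * v.j) (congrArg (fun y : ℝ => y * v.j) zLMc_2199023255552_0)
    v.c0 v.e_c0
    v.m v.e_m
    v.nj v.e_nj
    v.om v.e_om
    v.om1 v.e_om1
    v.op1 v.e_op1
    v.R v.e_R
    v.nj2 v.e_nj2
    v2.Y (v2.e_Y.trans (congrArg (fun y : ℝ => y * v.h) zLMc_10774999203840_0))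
    ((341 / 8192) * v2.Y) (congrArg (fun y : ℝ => y * v2.Y) zLMc_45768245248_0)
    (1365 / 8192 : ℝ) zLMc_183207198720_0
    ((341 / 8192) * v2.Y + (1365 / 8192 : ℝ)) rfl
    (v2.Y * ((341 / 8192) * v2.Y + (1365 / 8192 : ℝ))) rfl
    ((1 / 2 : ℝ) + v2.Y * ((341 / 8192) * v2.Y + (1365 / 8192 : ℝ))) rfl
    (v2.Y * ((1 / 2 : ℝ) + v2.Y * ((341 / 8192) * v2.Y + (1365 / 8192 : ℝ)))) rfl
    v2.pY v2.e_pY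
    (v2.Y * v2.pY) rfl
    ((1 / 2) * (v2.Y * v2.pY)) (congrArg (fun y : ℝ => y * (v2.Y * v2.pY)) zLMc_549755813888_0)
    ((1 : ℝ) + (1 / 2) * (v2.Y * v2.pY)) rfl
    v2.Yp v2.e_Yp
    (v.K * v.om) rfl
    (2 * v.c0) (congrArg (fun y : ℝ => y * v.c0) zLMc_2199023255552_0)
    (v.K * v.om + 2 * v.c0) rfl
    v.Dt v.e_Dt
    v.D v.e_D
    v.SQ v.e_SQ
    (v.K * v.K) rfl
    (2 * (v.K * v.K)) (congrArg (fun y : ℝ => y * (v.K * v.K)) zLMc_2199023255552_0)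
    v.c2 v.e_c2
    (v.c0 * v.Dt) rfl
    v.rhat v.e_rhat).2
    v.LQ v.e_LQ
    ((1 / 2) * v.LQ) (congrArg (fun y : ℝ => y * v.LQ) zLMc_549755813888_0)
    v.aQ v.e_aQ
    (3 : ℝ) zLMc_3298534883328_0).2
    ((3 : ℝ)⁻¹) rfl
    ((1 : ℝ) * (3 : ℝ)⁻¹) rfl
    (2 : ℝ) zLMc_2199023255552_0
    (v.D + (2 : ℝ)) rfl).2
    ((v.D + (2 : ℝ))⁻¹) rfl
    l1.zL l1.e_zL
    l1.zz l1.e_zz
    ((1 : ℝ) - l1.zL) rfl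
    (l1.zz * ((1 : ℝ) * (3 : ℝ)⁻¹)) rfl
    ((1 : ℝ) + l1.zz * ((1 : ℝ) * (3 : ℝ)⁻¹)) rfl
    l1.Lv l1.e_Lv
    (l1.zz * l1.zz) rfl
    l1.eL (l1.e_eL.trans (congrArg (fun y : ℝ => y * (l1.zz * l1.zz)) zLMc_219915747328_0))
    (v.Dt * l1.Lv) rfl
    lv.rlo (lv.e_rlo.trans (congrArg (fun y : ℝ => y * (v.Dt * l1.Lv)) zLMc_549755813888_0))
    (v.Dt * l1.eL) rfl
    lv.er (lv.e_er.trans (congrArg (fun y : ℝ => y * (v.Dt * l1.eL)) zLMc_549755813888_0))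
    lv.rhi lv.e_rhi
    (v.c0 * v.rhat) rfl
    lv.D2R (lv.e_D2R.trans (congrArg (fun y : ℝ => y * (v.c0 * v.rhat)) zLMc_4398046511104_0))
    (v.c0 * v.R) rfl
    (v.c0 * v.R * v.rhat) rfl
    v.D2 (v.e_D2.trans (congrArg (fun y : ℝ => y * (v.c0 * v.R * v.rhat)) zLMc_4398046511104_0))
    (v.D2 + (2 : ℝ)) rfl).2
    ((v.D2 + (2 : ℝ))⁻¹) rfl
    l2.zL l2.e_zL
    l2.zz l2.e_zz
    ((1 : ℝ) - l2.zL) rfl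
    (l2.zz * ((1 : ℝ) * (3 : ℝ)⁻¹)) rfl
    ((1 : ℝ) + l2.zz * ((1 : ℝ) * (3 : ℝ)⁻¹)) rfl
    l2.Lv l2.e_Lv
    (l2.zz * l2.zz) rfl
    l2.eL (l2.e_eL.trans (congrArg (fun y : ℝ => y * (l2.zz * l2.zz)) zLMc_219915747328_0))
    (lv.D2R * l2.Lv) rfl
    ((1 / 2) * (lv.D2R * l2.Lv)) (congrArg (fun y : ℝ => y * (lv.D2R * l2.Lv)) zLMc_549755813888_0)
    lv.rplo lv.e_rplo
    (lv.D2R * l2.eL) rfl
    ((1 / 2) * (lv.D2R * l2.eL)) (congrArg (fun y : ℝ => y * (lv.D2R * l2.eL)) zLMc_549755813888_0)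
    lv.erp lv.e_erp
    lv.rphi lv.e_rphi
    (ri * ri) rfl
    (ri * lv.rlo) rfl
    (ri * ri + ri * lv.rlo) rfl
    (lv.rlo * lv.rlo) rfl
    ((1 / 2) * (lv.rlo * lv.rlo)) (congrArg (fun y : ℝ => y * (lv.rlo * lv.rlo)) zLMc_549755813888_0)
    (ri * ri + ri * lv.rlo + (1 / 2) * (lv.rlo * lv.rlo)) rfl).2
    ((ri * ri + ri * lv.rlo + (1 / 2) * (lv.rlo * lv.rlo))⁻¹) rfl
    q e_q
    (ri * lv.rplo) rfl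
    (ri * ri + ri * lv.rplo) rfl
    (lv.rplo * lv.rplo) rfl
    ((1 / 2) * (lv.rplo * lv.rplo)) (congrArg (fun y : ℝ => y * (lv.rplo * lv.rplo)) zLMc_549755813888_0)
    (ri * ri + ri * lv.rplo + (1 / 2) * (lv.rplo * lv.rplo)) rfl).2
    ((ri * ri + ri * lv.rplo + (1 / 2) * (lv.rplo * lv.rplo))⁻¹) rfl
    qp e_qp
    (v.om * v.K) rfl
    (v.c0 + v.om * v.K) rfl).2
    v.ioK v.e_ioK
    v.h1t v.e_h1t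
    (v.om1 * v.t) rfl
    v.h1 v.e_h1
    ((1 : ℝ) - v.u2) rfl
    v.f2 v.e_f2
    v.tu2 v.e_tu2
    ((1 : ℝ) - v.nj2) rfl
    v5.sn v5.e_sn
    (v.R * v.rhat) rfl).2
    (v.SQ⁻¹) rfl
    v5.R1 v5.e_R1
    (v.c0 + v5.R1) rfl
    v5.Qr v5.e_Qr
    (v5.Qr * v5.Qr) rfl).2
    ((v5.Qr * v5.Qr)⁻¹) rfl
    v5.Th v5.e_Th
    (v.h1 + (1 : ℝ)) rfl
    (q * (v.h1 + (1 : ℝ))) rfl
    ((1 : ℝ) - q * (v.h1 + (1 : ℝ))) rfl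
  change 0 < (1 : ℝ) - q * (v.h1 + (1 : ℝ)) at p_gC
  obtain ⟨p_hg, s1⟩ := (((s0
    (q + (1 : ℝ)) rfl).2
    (((1 : ℝ) - q * (v.h1 + (1 : ℝ)))⁻¹) rfl
    ((q + (1 : ℝ)) * ((1 : ℝ) - q * (v.h1 + (1 : ℝ)))⁻¹) rfl
    gv (e_g.trans (congrArg (fun y : ℝ => y * ((q + (1 : ℝ)) * ((1 : ℝ) - q * (v.h1 + (1 : ℝ)))⁻¹)) zLMc_549755813888_0))
    (gv + (1 / 2 : ℝ)) rfl).2
    ((gv + (1 / 2 : ℝ))⁻¹) rfl
    ga e_ga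
    hg e_hg
    ((1 / 2) * hg) (congrArg (fun y : ℝ => y * hg) zLMc_549755813888_0)
    ((1 : ℝ) - (1 / 2) * hg) rfl
    ((1 : ℝ) - hg) rfl).2
    (((1 : ℝ) - hg)⁻¹) rfl
    lsf e_lsf
    (hg + (1 : ℝ)) rfl
    Qb e_Qb
    (v.h1t * lsf) rfl
    lsx e_lsx
    ls e_ls
  change 0 < (1 : ℝ) - hg at p_hg
  obtain ⟨p_rplo, s2⟩ := (s1
    (v.om1 * v.op1) rfl
    (v.c0 + v.t) rfl
    (v.om * v.c0) rfl
    (v.om * v.c0 * v.K) rfl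
    (2 * (v.om * v.c0 * v.K)) (congrArg (fun y : ℝ => y * (v.om * v.c0 * v.K)) zLMc_2199023255552_0)
    (v.c2 + 2 * (v.om * v.c0 * v.K)) rfl
    ((v.c0 + v.t) * (v.c2 + 2 * (v.om * v.c0 * v.K))) rfl).2
    (((v.c0 + v.t) * (v.c2 + 2 * (v.om * v.c0 * v.K)))⁻¹) rfl
    v3.hpt v3.e_hpt
    v3.hp v3.e_hp
  change 0 < lv.rplo at p_rplo
  obtain ⟨p_gCp, s3⟩ := s2
    (v3.hp + (1 : ℝ)) rfl
    (qp * (v3.hp + (1 : ℝ))) rfl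
    ((1 : ℝ) - qp * (v3.hp + (1 : ℝ))) rfl
  change 0 < (1 : ℝ) - qp * (v3.hp + (1 : ℝ)) at p_gCp
  obtain ⟨p_lspa, s4⟩ := (((((((((((((((s3
    (qp + (1 : ℝ)) rfl).2
    (((1 : ℝ) - qp * (v3.hp + (1 : ℝ)))⁻¹) rfl
    ((qp + (1 : ℝ)) * ((1 : ℝ) - qp * (v3.hp + (1 : ℝ)))⁻¹) rfl
    gpv (e_gp.trans (congrArg (fun y : ℝ => y * ((qp + (1 : ℝ)) * ((1 : ℝ) - qp * (v3.hp + (1 : ℝ)))⁻¹)) zLMc_549755813888_0))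
    (gpv + (1 / 2 : ℝ)) rfl).2
    ((gpv + (1 / 2 : ℝ))⁻¹) rfl
    gap e_gap
    hgp e_hgp
    gu e_gu
    (v.h + (1 : ℝ)) rfl).2
    v2.ih v2.e_ih
    (v.h * v2.ih) rfl
    v2.rh (v2.e_rh.trans (congrArg (fun y : ℝ => y * (v.h * v2.ih)) zLMc_2199023255552_0))
    v2.mi v2.e_mi
    v2.hm v2.e_hm
    v2.nih v2.e_nih
    (v2.nih * v2.mi) rfl
    v2.bsum v2.e_bsum
    ((209 / 1024) * v.j) (congrArg (fun y : ℝ => y * v.j) zLMc_224412041216_0)).2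
    (v2.Yp⁻¹) rfl
    v2.lm v2.e_lm
    (4 * S) (congrArg (fun y : ℝ => y * S) zLMc_4398046511104_0)
    ((1 : ℝ) * v.nj) rfl
    (4 * S + (1 : ℝ) * v.nj) rfl
    G4 (e_G4.trans (congrArg (fun y : ℝ => y * (4 * S + (1 : ℝ) * v.nj)) zLMc_549755813888_0))).2
    xa.iG4 xa.e_iG4
    xa.alG xa.e_alG
    xa.AE xa.e_AE
    (xa.AE * v.op1) rfl
    xa.XeE xa.e_XeE
    (xa.alG * v.op1) rfl
    xa.XM xa.e_XM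
    ((1 : ℝ) - xa.XM) rfl).2
    xa.iX xa.e_iX
    xa.QX xa.e_QX
    ((1 : ℝ) - xa.QX) rfl).2
    xa.iQX xa.e_iQX
    (2 * eps) (congrArg (fun y : ℝ => y * eps) zLMc_2199023255552_0)
    Ei e_Ei
    Eh e_Eh
    (1 * v.om) (congrArg (fun y : ℝ => y * v.om) zLMc_1099511627776_0)
    (1 * v.om + (1 : ℝ)) rfl
    phux (e_phux.trans (congrArg (fun y : ℝ => y * (1 * v.om + (1 : ℝ))) zLMc_549755813888_0))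
    (v.h * v.nj) rfl
    ((1 : ℝ) - v.f2) rfl
    (v.h * v.om) rfl
    (2 * (v.h * v.om)) (congrArg (fun y : ℝ => y * (v.h * v.om)) zLMc_2199023255552_0)
    ((1 : ℝ) - v.f2 - 2 * (v.h * v.om)) rfl
    (v.h * v.nj * (v.h * v.nj)) rfl
    xa.N1 xa.e_N1
    (xa.N1 + (1 : ℝ)) rfl
    xa.s (xa.e_s.trans (congrArg (fun y : ℝ => y * (xa.N1 + (1 : ℝ))) zLMc_549755813888_0))
    ((1 / 2) * v.R) (congrArg (fun y : ℝ => y * v.R) zLMc_549755813888_0)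
    (v.j - (1 / 2) * v.R) rfl
    (v.tu2 * ((1 : ℝ) - v.f2)) rfl
    (v.tu2 * ((1 : ℝ) - v.f2) * v.jm) rfl
    ((1 / 8) * (v.tu2 * ((1 : ℝ) - v.f2) * v.jm)) (congrArg (fun y : ℝ => y * (v.tu2 * ((1 : ℝ) - v.f2) * v.jm)) zLMc_137438953472_0)
    (v.j - (1 / 2) * v.R + (1 / 8) * (v.tu2 * ((1 : ℝ) - v.f2) * v.jm)) rfl
    xa.k0 xa.e_k0
    Q1 e_Q1
    (Q1 * xa.iX) rfl
    (Qb * xa.iQX) rfl
    (Q1 * xa.iX + Qb * xa.iQX) rfl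
    (xa.XM * (Q1 * xa.iX + Qb * xa.iQX)) rfl
    (ls + xa.XM * (Q1 * xa.iX + Qb * xa.iQX)) rfl
    xa.a0 xa.e_a0
    (Q1 * xa.XM) rfl
    (Q1 * xa.XM * xa.iX) rfl
    (ls + Q1 * xa.XM * xa.iX) rfl
    xa.l1 xa.e_l1
    ((13 / 64) * xa.l1) (congrArg (fun y : ℝ => y * xa.l1) zLMc_223338299392_0)
    ((1 / 2 : ℝ) + (13 / 64) * xa.l1) rfl
    (xa.l1 * ((1 / 2 : ℝ) + (13 / 64) * xa.l1)) rfl
    xa.Na xa.e_Na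
    ((13 / 16) * xa.a0) (congrArg (fun y : ℝ => y * xa.a0) zLMc_893353197568_0)
    ((1 : ℝ) + (13 / 16) * xa.a0) rfl
    (xa.a0 * ((1 : ℝ) + (13 / 16) * xa.a0)) rfl
    xa.Nb xa.e_Nb
    (v2.rh * v2.nih) rfl
    (v2.rh * v2.nih * Ei) rfl
    xa.rn xa.e_rn
    (xa.k0 * xa.Na) rfl
    (v.aQ + (1 / 2 : ℝ)) rfl
    (xa.rn * (v.aQ + (1 / 2 : ℝ))) rfl
    xa.ka xa.e_ka
    (v.aQ + (1 : ℝ)) rfl
    xa.kb xa.e_kb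
    (Eh * (v.aQ + (1 : ℝ))) rfl
    (Eh * (v.aQ + (1 : ℝ)) * v2.nih) rfl
    xa.lfk xa.e_lfk
    (xa.ka * lsx) rfl
    (xa.lfk * phux) rfl
    xa.kl xa.e_kl
    (tr * v2.bsum) rfl).2
    (v.aQ⁻¹) rfl
    (tr * v2.bsum * v.aQ⁻¹) rfl
    ((1 / 2) * (tr * v2.bsum * v.aQ⁻¹)) (congrArg (fun y : ℝ => y * (tr * v2.bsum * v.aQ⁻¹)) zLMc_549755813888_0)
    (v.om1 * ((1 / 2) * (tr * v2.bsum * v.aQ⁻¹))) rfl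
    (v.t * xa.kl) rfl
    srcs e_srcs
    yb.src yb.e_src
    (xa.ka * Q1) rfl
    (xa.ka * Q1 * xa.iX) rfl
    (xa.kb * Qb) rfl
    (xa.kb * Qb * xa.iQX) rfl
    yb.fxe yb.e_fxe
    (v.om1 * yb.src) rfl
    (xa.XeE * yb.fxe) rfl
    yb.epd yb.e_epd
    (v.tu2 * yb.epd) rfl
    (v.tu2 * yb.epd * v.aQ⁻¹) rfl
    ((1 : ℝ) - v.tu2 * yb.epd * v.aQ⁻¹) rfl).2
    yb.NN yb.e_NN
    yb.eN yb.e_eN
    yb.d yb.e_d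
    yb.eta yb.e_eta
    (yb.eta * v.aQ⁻¹) rfl
    ((1 : ℝ) - yb.eta * v.aQ⁻¹) rfl
    (v.rhat * ((1 : ℝ) - yb.eta * v.aQ⁻¹)) rfl
    yb.rl yb.e_rl).2
    yb.irl yb.e_irl
    yb.yy yb.e_yy
    (v.aQ - yb.eta) rfl).2
    yb.q0 yb.e_q0
    yb.zp yb.e_zp
    ((1 / 2) * yb.zp) (congrArg (fun y : ℝ => y * yb.zp) zLMc_549755813888_0)
    ((1 : ℝ) - (1 / 2) * yb.zp) rfl
    ((1 : ℝ) - yb.zp) rfl).2
    (((1 : ℝ) - yb.zp)⁻¹) rfl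
    yb.kzp yb.e_kzp
    (v.u * yb.q0) rfl
    (gu * yb.irl) rfl
    (gu * yb.irl * yb.kzp) rfl
    yb.Cu yb.e_Cu
    (tr * yb.eN) rfl
    (yb.q0 * (tr * yb.eN)) rfl
    (gap * yb.irl) rfl
    (gap * yb.irl * yb.kzp) rfl
    (gap * yb.irl * yb.kzp * yb.d) rfl
    yb.rr yb.e_rr
    ((13 / 64) * yb.rr) (congrArg (fun y : ℝ => y * yb.rr) zLMc_223338299392_0)
    ((1 / 2 : ℝ) + (13 / 64) * yb.rr) rfl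
    (yb.rr * ((1 / 2 : ℝ) + (13 / 64) * yb.rr)) rfl
    ((1 : ℝ) + yb.rr * ((1 / 2 : ℝ) + (13 / 64) * yb.rr)) rfl
    (yb.Cu * ((1 : ℝ) + yb.rr * ((1 / 2 : ℝ) + (13 / 64) * yb.rr))) rfl
    yb.CuN yb.e_CuN
    yb.fbt yb.e_fbt
    yb.XLt yb.e_XLt
    (5 : ℝ) zLMc_5497558138880_0).2
    ((5 : ℝ)⁻¹) rfl
    yb.beta yb.e_beta
    ((v.h + (1 : ℝ)) * v.op1) rfl
    yb.b1 yb.e_b1
    pk.omr pk.e_omr
    pk.omp pk.e_omp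
    ((1 / 2) * hgp) (congrArg (fun y : ℝ => y * hgp) zLMc_549755813888_0)
    ((1 : ℝ) - (1 / 2) * hgp) rfl
    ((1 : ℝ) - hgp) rfl).2
    (((1 : ℝ) - hgp)⁻¹) rfl
    (((1 : ℝ) - (1 / 2) * hgp) * ((1 : ℝ) - hgp)⁻¹) rfl
    pk.lspf pk.e_lspf
    (v.tu2 * v5.Th) rfl
    ((2731 / 4096) * (v.tu2 * v5.Th)) (congrArg (fun y : ℝ => y * (v.tu2 * v5.Th)) zLMc_733097230336_0)
    ((1 : ℝ) - (2731 / 4096) * (v.tu2 * v5.Th)) rfl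
    (v5.Th * ((1 : ℝ) - (2731 / 4096) * (v.tu2 * v5.Th))) rfl
    (v.u2 * (lv.rplo * lv.rplo)) rfl
    pk.E0 pk.e_E0
    pk.lspa pk.e_lspa
    (pk.E0 + (1 : ℝ)) rfl
    (pk.lspa * (pk.E0 + (1 : ℝ))) rfl
    (pk.E0 - pk.lspa * (pk.E0 + (1 : ℝ))) rfl
    ((2731 / 8192) * (v.K * v.K)) (congrArg (fun y : ℝ => y * (v.K * v.K)) zLMc_366548615168_0)
    ((1 : ℝ) - (2731 / 8192) * (v.K * v.K)) rfl
    (v.nj2 * ((1 : ℝ) - (2731 / 8192) * (v.K * v.K))) rfl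
    (pk.E0 - pk.lspa * (pk.E0 + (1 : ℝ)) + v.nj2 * ((1 : ℝ) - (2731 / 8192) * (v.K * v.K))) rfl
    (pk.omr * (pk.E0 - pk.lspa * (pk.E0 + (1 : ℝ)) + v.nj2 * ((1 : ℝ) - (2731 / 8192) * (v.K * v.K)))) rfl
    (pk.omp * pk.omp) rfl
    ((1 : ℝ) + pk.omp * pk.omp) rfl).2
    (((1 : ℝ) + pk.omp * pk.omp)⁻¹) rfl
    pk.pe pk.e_pe
    ((1 : ℝ) - yb.yy) rfl
    pk.ye pk.e_ye
    ((1 : ℝ) - pk.lspa) rfl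
  change 0 < (1 : ℝ) - pk.lspa at p_lspa
  obtain ⟨p_pe, s5⟩ := s4
  change 0 < pk.pe at p_pe
  obtain ⟨p_yy, s6⟩ := s5
  change 0 < (1 : ℝ) - yb.yy at p_yy
  obtain ⟨p_XM, s7⟩ := (((((((s6
    (yb.CuN * G4) rfl
    (yb.CuN * G4 * srcs) rfl).2
    (v.op1⁻¹) rfl
    cd.FX cd.e_FX
    (ri * pk.ye) rfl
    (ri * ri + ri * pk.ye) rfl
    (pk.ye * pk.ye) rfl
    ((1 / 2) * (pk.ye * pk.ye)) (congrArg (fun y : ℝ => y * (pk.ye * pk.ye)) zLMc_549755813888_0)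
    (ri * ri + ri * pk.ye + (1 / 2) * (pk.ye * pk.ye)) rfl).2
    ((ri * ri + ri * pk.ye + (1 / 2) * (pk.ye * pk.ye))⁻¹) rfl
    Ee e_Ee
    (v.t * yb.b1) rfl
    ((1 : ℝ) + v.t * yb.b1) rfl).2
    cd.Lam cd.e_Lam
    (Ee * cd.Lam) rfl
    (Ee * cd.Lam * v.m) rfl
    (v.tu * yb.eN) rfl
    (v.tu * yb.eN * v.op1⁻¹) rfl
    ((1 : ℝ) + v.tu * yb.eN * v.op1⁻¹) rfl
    (Ee * cd.Lam * v.m * ((1 : ℝ) + v.tu * yb.eN * v.op1⁻¹)) rfl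
    cd.c1 cd.e_c1
    cd.fb cd.e_fb
    (cd.fb * xa.XM) rfl
    (v.t * yb.XLt) rfl
    (cd.FX * (v.t * yb.XLt)) rfl
    cd.r2 cd.e_r2
    (cd.fb + cd.FX) rfl
    ((1 : ℝ) + cd.r2) rfl
    (cd.c1 * ((1 : ℝ) + cd.r2)) rfl
    (cd.fb + cd.FX + cd.c1 * ((1 : ℝ) + cd.r2)) rfl
    cd.Bm cd.e_Bm
    ((1 / 1024) * v.t) (congrArg (fun y : ℝ => y * v.t) zLMc_1073741824_0)
    (cd.Bm - (1 / 1024) * v.t) rfl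
    yb.m1 yb.e_m1
    (yb.m1 + (2 : ℝ)) rfl
    (2 * yb.beta) (congrArg (fun y : ℝ => y * yb.beta) zLMc_2199023255552_0)
    (yb.m1 + (2 : ℝ) - 2 * yb.beta) rfl
    ((v.h + (1 : ℝ)) * (yb.m1 + (2 : ℝ) - 2 * yb.beta)) rfl
    (yb.m1 * (2 * yb.beta)) rfl
    (yb.m1 * (2 * yb.beta) + (1 : ℝ)) rfl).2
    ((yb.m1 * (2 * yb.beta) + (1 : ℝ))⁻¹) rfl
    ((v.h + (1 : ℝ)) * (yb.m1 + (2 : ℝ) - 2 * yb.beta) * (yb.m1 * (2 * yb.beta) + (1 : ℝ))⁻¹) rfl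
    (xa.AE * yb.fxe) rfl
    ((1 / 2) * v2.lm) (congrArg (fun y : ℝ => y * v2.lm) zLMc_549755813888_0)
    (v.K + (1 / 2) * v2.lm) rfl
    (xa.AE * yb.fxe * (v.K + (1 / 2) * v2.lm)) rfl
    (2 * (xa.AE * yb.fxe * (v.K + (1 / 2) * v2.lm))) (congrArg (fun y : ℝ => y * (xa.AE * yb.fxe * (v.K + (1 / 2) * v2.lm))) zLMc_2199023255552_0)
    (yb.src + 2 * (xa.AE * yb.fxe * (v.K + (1 / 2) * v2.lm))) rfl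
    (2 * (yb.src + 2 * (xa.AE * yb.fxe * (v.K + (1 / 2) * v2.lm)))) (congrArg (fun y : ℝ => y * (yb.src + 2 * (xa.AE * yb.fxe * (v.K + (1 / 2) * v2.lm)))) zLMc_2199023255552_0)
    (2 * (yb.src + 2 * (xa.AE * yb.fxe * (v.K + (1 / 2) * v2.lm))) * yb.NN) rfl
    (v.op1 - v.tu * yb.eN) rfl).2
    ((v.op1 - v.tu * yb.eN)⁻¹) rfl
    (2 * (yb.src + 2 * (xa.AE * yb.fxe * (v.K + (1 / 2) * v2.lm))) * yb.NN * (v.op1 - v.tu * yb.eN)⁻¹) rfl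
    yb.V yb.e_V
    ((1 : ℝ) * v.nj * ((1 : ℝ) * v.nj)) rfl
    (13 : ℝ) zLMc_14293651161088_0
    (10 : ℝ) zLMc_10995116277760_0).2
    ((10 : ℝ)⁻¹) rfl
    ((13 : ℝ) * (10 : ℝ)⁻¹) rfl
    ((1 : ℝ) * v.nj * ((1 : ℝ) * v.nj) * ((13 : ℝ) * (10 : ℝ)⁻¹)) rfl
    (S * S) rfl
    (25 * (S * S)) (congrArg (fun y : ℝ => y * (S * S)) zLMc_27487790694400_0)
    yb.C2 yb.e_C2
    yb.gr (yb.e_gr.trans (congrArg (fun y : ℝ => yb.b1 * y) cd.e_Lam.symm))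
    (2 * v.c0 - v.t) rfl
    yb.Gt yb.e_Gt
    ((1 : ℝ) * v.u) rfl
    yb.au yb.e_au
    (v.op1 * yb.fxe) rfl
    (v.op1 * yb.fxe * xa.iG4) rfl
    yb.inner yb.e_inner
    (v.tu * yb.eN + (2 : ℝ)) rfl
    yb.ezs yb.e_ezs
    (yb.C2 * yb.gr) rfl
    (yb.NN * yb.ezs) rfl
    (yb.au * yb.inner) rfl
    (yb.NN * yb.ezs * (yb.au * yb.inner)) rfl
    yb.Rg0 yb.e_Rg0
    ((1 / 2) * (v.tu * yb.eN)) (congrArg (fun y : ℝ => y * (v.tu * yb.eN)) zLMc_549755813888_0)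
    ((1 : ℝ) + (1 / 2) * (v.tu * yb.eN)) rfl
    (yb.NN * ((1 : ℝ) + (1 / 2) * (v.tu * yb.eN))) rfl
    (v.t * v.om1) rfl
    (v.t * v.om1 * v2.bsum) rfl
    (v.op1 * v.aQ) rfl).2
    ((v.op1 * v.aQ)⁻¹) rfl
    (v.t * v.om1 * v2.bsum * (v.op1 * v.aQ)⁻¹) rfl
    (yb.NN * ((1 : ℝ) + (1 / 2) * (v.tu * yb.eN)) * (v.t * v.om1 * v2.bsum * (v.op1 * v.aQ)⁻¹)) rfl
    yb.Rh yb.e_Rh
    (v2.lm * yb.Rg0) rfl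
    ((1 : ℝ) - v2.lm) rfl
    (v.u2 * yb.Rh) rfl
    (((1 : ℝ) - v2.lm) * (v.u2 * yb.Rh)) rfl
    (yb.C2 * (((1 : ℝ) - v2.lm) * (v.u2 * yb.Rh))) rfl
    yb.Rg yb.e_Rg
  change 0 < (1 : ℝ) - xa.XM at p_XM
  obtain ⟨p_QX, s8⟩ := s7
  change 0 < (1 : ℝ) - xa.QX at p_QX
  obtain ⟨p_e2, s9⟩ := s8
    (2 * (v.tu2 * yb.epd)) (congrArg (fun y : ℝ => y * (v.tu2 * yb.epd)) zLMc_2199023255552_0)
    (v.aQ - 2 * (v.tu2 * yb.epd)) rfl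
  change 0 < v.aQ - 2 * (v.tu2 * yb.epd) at p_e2
  obtain ⟨p_rl, s10⟩ := s9
  change 0 < yb.rl at p_rl
  obtain ⟨p_hgp, s11⟩ := s10
    ((1 / 2 : ℝ) - hgp) rfl
  change 0 < (1 / 2 : ℝ) - hgp at p_hgp
  obtain ⟨p_l1, s12⟩ := s11
    ((5 / 8) * (1 : ℝ)) (congrArg (fun y : ℝ => y * (1 : ℝ)) zLMc_687194767360_0)
    ((5 / 8) * (1 : ℝ) - xa.l1) rfl
  change 0 < (5 / 8) * (1 : ℝ) - xa.l1 at p_l1
  obtain ⟨p_a0, s13⟩ := s12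
    ((11 / 32) * (1 : ℝ)) (congrArg (fun y : ℝ => y * (1 : ℝ)) zLMc_377957122048_0)
    ((11 / 32) * (1 : ℝ) - xa.a0) rfl
  change 0 < (11 / 32) * (1 : ℝ) - xa.a0 at p_a0
  obtain ⟨p_S, s14⟩ := s13
  change 0 < v.op1 - v.tu * yb.eN at p_S
  obtain ⟨p_zp, s15⟩ := s14
  change 0 < (1 : ℝ) - yb.zp at p_zp
  obtain ⟨p_rr, s16⟩ := s15
    ((5 / 8) * (1 : ℝ) - yb.rr) rfl
  change 0 < (5 / 8) * (1 : ℝ) - yb.rr at p_rr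
  obtain ⟨p_V, s17⟩ := s16
  change 0 < yb.V at p_V
  obtain ⟨p_B, s18⟩ := s17
  change 0 < cd.Bm - (1 / 1024) * v.t at p_B
  obtain ⟨p_Rg, s19⟩ := s18
  change 0 < yb.Rg at p_Rg
  obtain ⟨p_Rh, s20⟩ := s19
  change 0 < yb.Rh at p_Rh
  have hq := qb_c G f hri e_q
  have hqp := qb_cp G f hri p_rplo e_qp
  have hq0 : 0 < q := lt_of_lt_of_le (by rw [G.q_eq]; exact G.q0) hq
  have hgR := gR_GC G.e0 G.κ0 G.s0 hq G.h1_eq p_gC e_g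
  have hγ := gam_g G.e0 G.κ0 G.s0 hgR e_ga
  have hgRp := gR_GC G.e0 G.κ0 (shf_re' G.κ0 G.s0) hqp (G.hp_eq v3) p_gCp e_gp
  have hγp := gam_g G.e0 G.κ0 (shf_re' G.κ0 G.s0) hgRp e_gap
  have hn1 := n1_one G hγ hq e_hg e_Qb e_Q1
  have hlx : 1 * lsx = v.h1t * lsf * ga := by rw [e_lsx, one_mul]
  have fr := fr_g G hγ hq hq0 e_hg e_lsf p_hg e_Qb e_ls (hsc.al0 G) hlx hn1
  have hgu : 1 * gu = gap * S := by rw [e_gu]; ring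
  obtain ⟨lf0, Ex, hφ⟩ := ph_slM G v2 hsc he2 (by norm_num) (by norm_num) (by norm_num) e_phux e_Ei e_Eh
  have as8 : As8 xa yb := ⟨p_XM, p_QX, p_e2, p_rl, p_l1, p_a0, p_S, p_zp, p_rr, p_V, p_Rg, p_Rh⟩
  exact far_Cd G D hsc hA0 hA as8 fr hgu hγp hφ pk f p_rplo e_hgp p_hgp p_lspa p_pe p_yy cd e_srcs hsc.htr
    (exp_quad hri f.r0 (by rw [pk.e_ye]; exact mul_nonneg p_yy.le p_pe.le) e_Ee) p_B

theorem dom_LMc2 {κ : ℝ} {τ : ℂ} {R w : ℝ} {v : B1} (D : PtE (3 * 5⁻¹) v.e κ τ R w)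
    (G : Geo κ (shf κ τ) v) (v2 : B2 v) (he2 : 2 ≤ v.e) {ri tr de : ℝ}
    (hde0 : 0 < de) (hri0 : 0 < ri) (ht : v.t = tr * ri)
    (heps : de * de = v.t * v.u * (v.u * ri)) (hee : v.e * (de * de) = 1)
    (hK : v.e * v.K ^ 2 ≤ 22716 / 16384 + 1925 / 1024 * de)
    (h : RAs Pool.Agent.helper71.FJ.Crt.LMc.prog2 [ri, v.u, tr, v.n]) : False := by
  obtain ⟨S, e_S⟩ : ∃ zz : ℝ, zz = v.u * ri := ⟨_, rfl⟩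
  obtain ⟨eps, e_eps⟩ : ∃ zz : ℝ, zz = v.tu * S := ⟨_, rfl⟩
  have e_eps' : eps = v.t * v.u * S := by first | exact e_eps | rw [e_eps, v.e_tu]
  have hee' : v.e * eps = 1 := by rw [e_eps', e_S, ← heps]; exact hee
  obtain ⟨r, hri⟩ : ∃ r : ℝ, r * ri = 1 := ⟨ri⁻¹, inv_mul_cancel₀ hri0.ne'⟩
  have hsc := sc_Mc e_S ht e_eps' hri hri0 G.u0 hee'
  obtain ⟨p_B, s0⟩ := (h
    (1 : ℝ) zLMc_1099511627776_0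
    S e_S
    v.t ht
    v.tu v.e_tu
    eps e_eps
    (1 / 2 : ℝ) zLMc_549755813888_0
    (v.tu * v.n) rfl
    v.h (v.e_h.trans (congrArg (fun y : ℝ => y * (v.tu * v.n)) zLMc_549755813888_0))
    v.u2 v.e_u2
    (v.h * v.h) rfl
    v.jm v.e_jm).2
    v.j v.e_j
    (v.h * v.j) rfl
    v.K (v.e_K.trans (congrArg (fun y : ℝ => y * (v.h * v.j)) zLMc_2199023255552_0))
    (2 * v.j) (congrArg (fun y : ℝ => y * v.j) zLMc_2199023255552_0)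
    v.c0 v.e_c0
    v.m v.e_m
    v.nj v.e_nj
    v.om v.e_om
    v.om1 v.e_om1
    v.op1 v.e_op1
    v.R v.e_R
    v.nj2 v.e_nj2
    (tr * v.nj2) rfl
    (5 * eps) (congrArg (fun y : ℝ => y * eps) zLMc_5497558138880_0)
    (13 / 256 : ℝ) zLMc_55834574848_0
    (5 * eps + (13 / 256 : ℝ)) rfl
    ((1925 / 1024) * (5 * eps + (13 / 256 : ℝ))) (congrArg (fun y : ℝ => y * (5 * eps + (13 / 256 : ℝ))) zLMc_2066953011200_0)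
    (5679 / 4096 : ℝ) zLMc_1524444954624_0
    ((1925 / 1024) * (5 * eps + (13 / 256 : ℝ)) + (5679 / 4096 : ℝ)) rfl
    (tr * v.nj2 - ((1925 / 1024) * (5 * eps + (13 / 256 : ℝ)) + (5679 / 4096 : ℝ))) rfl
  change 0 < tr * v.nj2 - ((1925 / 1024) * (5 * eps + (13 / 256 : ℝ)) + (5679 / 4096 : ℝ)) at p_B
  have h8 := (dm_de (de := de) (eps := eps) (by rw [e_eps', e_S, heps])).1
  have h9 := dm_tr G hsc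
  linarith

theorem dom_LMc3 {κ : ℝ} {τ : ℂ} {R w : ℝ} {v : B1} (D : PtE (3 * 5⁻¹) v.e κ τ R w)
    (G : Geo κ (shf κ τ) v) (v2 : B2 v) (he2 : 2 ≤ v.e) {ri tr de : ℝ}
    (hde0 : 0 < de) (hri0 : 0 < ri) (ht : v.t = tr * ri)
    (heps : de * de = v.t * v.u * (v.u * ri)) (hee : v.e * (de * de) = 1)
    (h : RAs Pool.Agent.helper71.FJ.Crt.LMc.prog3 [ri, v.u, tr, v.n]) : False := by
  obtain ⟨S, e_S⟩ : ∃ zz : ℝ, zz = v.u * ri := ⟨_, rfl⟩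
  obtain ⟨eps, e_eps⟩ : ∃ zz : ℝ, zz = v.tu * S := ⟨_, rfl⟩
  have e_eps' : eps = v.t * v.u * S := by first | exact e_eps | rw [e_eps, v.e_tu]
  have hee' : v.e * eps = 1 := by rw [e_eps', e_S, ← heps]; exact hee
  obtain ⟨r, hri⟩ : ∃ r : ℝ, r * ri = 1 := ⟨ri⁻¹, inv_mul_cancel₀ hri0.ne'⟩
  have hsc := sc_Mc e_S ht e_eps' hri hri0 G.u0 hee'
  obtain ⟨p_B, s0⟩ := ((h
    (1 : ℝ) zLMc_1099511627776_0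
    S e_S
    v.t ht
    v.tu v.e_tu
    eps e_eps
    (1 / 2 : ℝ) zLMc_549755813888_0
    (v.tu * v.n) rfl
    v.h (v.e_h.trans (congrArg (fun y : ℝ => y * (v.tu * v.n)) zLMc_549755813888_0))
    v.u2 v.e_u2
    (v.h * v.h) rfl
    v.jm v.e_jm).2
    v.j v.e_j
    (v.h * v.j) rfl
    v.K (v.e_K.trans (congrArg (fun y : ℝ => y * (v.h * v.j)) zLMc_2199023255552_0))
    (2 * v.j) (congrArg (fun y : ℝ => y * v.j) zLMc_2199023255552_0)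
    v.c0 v.e_c0
    v.m v.e_m
    v.nj v.e_nj
    v.om v.e_om
    v.om1 v.e_om1
    v.op1 v.e_op1
    v.R v.e_R
    v.nj2 v.e_nj2
    v2.Y (v2.e_Y.trans (congrArg (fun y : ℝ => y * v.h) zLMc_10774999203840_0))
    ((341 / 8192) * v2.Y) (congrArg (fun y : ℝ => y * v2.Y) zLMc_45768245248_0)
    (1365 / 8192 : ℝ) zLMc_183207198720_0
    ((341 / 8192) * v2.Y + (1365 / 8192 : ℝ)) rfl
    (v2.Y * ((341 / 8192) * v2.Y + (1365 / 8192 : ℝ))) rfl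
    ((1 / 2 : ℝ) + v2.Y * ((341 / 8192) * v2.Y + (1365 / 8192 : ℝ))) rfl
    (v2.Y * ((1 / 2 : ℝ) + v2.Y * ((341 / 8192) * v2.Y + (1365 / 8192 : ℝ)))) rfl
    v2.pY v2.e_pY
    (v2.Y * v2.pY) rfl
    ((1 / 2) * (v2.Y * v2.pY)) (congrArg (fun y : ℝ => y * (v2.Y * v2.pY)) zLMc_549755813888_0)
    ((1 : ℝ) + (1 / 2) * (v2.Y * v2.pY)) rfl
    v2.Yp v2.e_Yp
    ((209 / 1024) * v.j) (congrArg (fun y : ℝ => y * v.j) zLMc_224412041216_0)).2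
    (v2.Yp⁻¹) rfl
    v2.lm v2.e_lm
    (v.t - v.K) rfl
    (v.t - v.K - v2.lm) rfl
  change 0 < v.t - v.K - v2.lm at p_B
  exact Pool.Agent.helper71.FG.dT_core G v2 D p_B

theorem dom_LMc4 {κ : ℝ} {τ : ℂ} {R w : ℝ} {v : B1} (D : PtE (3 * 5⁻¹) v.e κ τ R w)
    (G : Geo κ (shf κ τ) v) (v2 : B2 v) (he2 : 2 ≤ v.e) {ri tr de : ℝ}
    (hde0 : 0 < de) (hri0 : 0 < ri) (ht : v.t = tr * ri)
    (heps : de * de = v.t * v.u * (v.u * ri)) (hee : v.e * (de * de) = 1)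
    (h : RAs Pool.Agent.helper71.FJ.Crt.LMc.prog4 [ri, v.u, tr, v.n]) : False := by
  obtain ⟨S, e_S⟩ : ∃ zz : ℝ, zz = v.u * ri := ⟨_, rfl⟩
  obtain ⟨eps, e_eps⟩ : ∃ zz : ℝ, zz = v.tu * S := ⟨_, rfl⟩
  have e_eps' : eps = v.t * v.u * S := by first | exact e_eps | rw [e_eps, v.e_tu]
  have hee' : v.e * eps = 1 := by rw [e_eps', e_S, ← heps]; exact hee
  obtain ⟨r, hri⟩ : ∃ r : ℝ, r * ri = 1 := ⟨ri⁻¹, inv_mul_cancel₀ hri0.ne'⟩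
  obtain ⟨Gt, e_Gt⟩ : ∃ zz : ℝ, zz = 2 * v.c0 - v.t - v.K * v.om := ⟨_, rfl⟩
  obtain ⟨C2, e_C2⟩ : ∃ zz : ℝ, zz = (1 : ℝ) * v.nj * ((1 : ℝ) * v.nj) * ((13 : ℝ) * (10 : ℝ)⁻¹) + 25 * (S * S) := ⟨_, rfl⟩
  have hsc := sc_Mc e_S ht e_eps' hri hri0 G.u0 hee'
  obtain ⟨p_B, s0⟩ := ((h
    (1 : ℝ) zLMc_1099511627776_0
    S e_S
    v.t ht
    v.tu v.e_tu
    eps e_eps
    (1 / 2 : ℝ) zLMc_549755813888_0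
    (v.tu * v.n) rfl
    v.h (v.e_h.trans (congrArg (fun y : ℝ => y * (v.tu * v.n)) zLMc_549755813888_0))
    v.u2 v.e_u2
    (v.h * v.h) rfl
    v.jm v.e_jm).2
    v.j v.e_j
    (v.h * v.j) rfl
    v.K (v.e_K.trans (congrArg (fun y : ℝ => y * (v.h * v.j)) zLMc_2199023255552_0))
    (2 * v.j) (congrArg (fun y : ℝ => y * v.j) zLMc_2199023255552_0)
    v.c0 v.e_c0
    v.m v.e_m
    v.nj v.e_nj
    v.om v.e_om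
    v.om1 v.e_om1
    v.op1 v.e_op1
    v.R v.e_R
    v.nj2 v.e_nj2
    (2 * v.c0) (congrArg (fun y : ℝ => y * v.c0) zLMc_2199023255552_0)
    (2 * v.c0 - v.t) rfl
    (v.K * v.om) rfl
    Gt e_Gt
    ((1 : ℝ) * v.nj) rfl
    ((1 : ℝ) * v.nj * ((1 : ℝ) * v.nj)) rfl
    (13 : ℝ) zLMc_14293651161088_0
    (10 : ℝ) zLMc_10995116277760_0).2
    ((10 : ℝ)⁻¹) rfl
    ((13 : ℝ) * (10 : ℝ)⁻¹) rfl
    ((1 : ℝ) * v.nj * ((1 : ℝ) * v.nj) * ((13 : ℝ) * (10 : ℝ)⁻¹)) rfl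
    (S * S) rfl
    (25 * (S * S)) (congrArg (fun y : ℝ => y * (S * S)) zLMc_27487790694400_0)
    C2 e_C2
    ((1 : ℝ) * (1 : ℝ)) rfl
    (v.om1 * v.op1) rfl
    ((1 : ℝ) * (1 : ℝ) * (v.om1 * v.op1)) rfl
    (v.t * v.om1) rfl
    ((1 : ℝ) - v.t * v.om1) rfl
    (v.R * Gt) rfl
    ((1 : ℝ) - v.R * Gt) rfl
    (((1 : ℝ) - v.t * v.om1) * ((1 : ℝ) - v.R * Gt)) rfl
    (C2 * (((1 : ℝ) - v.t * v.om1) * ((1 : ℝ) - v.R * Gt))) rfl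
    ((1 : ℝ) * (1 : ℝ) * (v.om1 * v.op1) - C2 * (((1 : ℝ) - v.t * v.om1) * ((1 : ℝ) - v.R * Gt))) rfl
  change 0 < (1 : ℝ) * (1 : ℝ) * (v.om1 * v.op1) - C2 * (((1 : ℝ) - v.t * v.om1) * ((1 : ℝ) - v.R * Gt)) at p_B
  exact dm_R G v2 D hsc e_C2 e_Gt p_B

theorem dom_LMc5 {κ : ℝ} {τ : ℂ} {R w : ℝ} {v : B1} (D : PtE (3 * 5⁻¹) v.e κ τ R w)
    (G : Geo κ (shf κ τ) v) (v2 : B2 v) (he2 : 2 ≤ v.e) {ri tr de : ℝ}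
    (hde0 : 0 < de) (hri0 : 0 < ri) (ht : v.t = tr * ri)
    (heps : de * de = v.t * v.u * (v.u * ri)) (hee : v.e * (de * de) = 1)
    (hE : 50 ≤ v.e)
    (h : RAs Pool.Agent.helper71.FJ.Crt.LMc.prog5 [ri, v.u, tr, v.n]) : False := by
  obtain ⟨S, e_S⟩ : ∃ zz : ℝ, zz = v.u * ri := ⟨_, rfl⟩
  obtain ⟨eps, e_eps⟩ : ∃ zz : ℝ, zz = v.t * v.u * S := ⟨_, rfl⟩
  have e_eps' : eps = v.t * v.u * S := by first | exact e_eps | rw [e_eps, v.e_tu]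
  have hee' : v.e * eps = 1 := by rw [e_eps', e_S, ← heps]; exact hee
  obtain ⟨r, hri⟩ : ∃ r : ℝ, r * ri = 1 := ⟨ri⁻¹, inv_mul_cancel₀ hri0.ne'⟩
  have hsc := sc_Mc e_S ht e_eps' hri hri0 G.u0 hee'
  obtain ⟨p_B, s0⟩ := h
    (1 : ℝ) zLMc_1099511627776_0
    S e_S
    v.t ht
    (v.t * v.u) rfl
    eps e_eps
    (5243 / 262144 : ℝ) zLMc_21990735872_0
    (eps - (5243 / 262144 : ℝ)) rfl
  change 0 < eps - (5243 / 262144 : ℝ) at p_B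
  exact dm_lo hsc.ee hE (by norm_num) (by norm_num) p_B

theorem dom_LMc6 {κ : ℝ} {τ : ℂ} {R w : ℝ} {v : B1} (D : PtE (3 * 5⁻¹) v.e κ τ R w)
    (G : Geo κ (shf κ τ) v) (v2 : B2 v) (he2 : 2 ≤ v.e) {ri tr de : ℝ}
    (hde0 : 0 < de) (hri0 : 0 < ri) (ht : v.t = tr * ri)
    (heps : de * de = v.t * v.u * (v.u * ri)) (hee : v.e * (de * de) = 1)
    (hE1 : v.e ≤ 100)
    (h : RAs Pool.Agent.helper71.FJ.Crt.LMc.prog6 [ri, v.u, tr, v.n]) : False := by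
  obtain ⟨S, e_S⟩ : ∃ zz : ℝ, zz = v.u * ri := ⟨_, rfl⟩
  obtain ⟨eps, e_eps⟩ : ∃ zz : ℝ, zz = v.t * v.u * S := ⟨_, rfl⟩
  have e_eps' : eps = v.t * v.u * S := by first | exact e_eps | rw [e_eps, v.e_tu]
  have hee' : v.e * eps = 1 := by rw [e_eps', e_S, ← heps]; exact hee
  obtain ⟨r, hri⟩ : ∃ r : ℝ, r * ri = 1 := ⟨ri⁻¹, inv_mul_cancel₀ hri0.ne'⟩
  have hsc := sc_Mc e_S ht e_eps' hri hri0 G.u0 hee'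
  obtain ⟨p_B, s0⟩ := h
    (1 : ℝ) zLMc_1099511627776_0
    S e_S
    v.t ht
    (v.t * v.u) rfl
    eps e_eps
    (10485 / 1048576 : ℝ) zLMc_10994319360_0
    ((10485 / 1048576 : ℝ) - eps) rfl
  change 0 < (10485 / 1048576 : ℝ) - eps at p_B
  exact dm_hi hsc.ee G.e0 hE1 (by norm_num) p_B

theorem ptLMc {κ : ℝ} {τ : ℂ} {R w : ℝ} {v : B1} (D : PtE (3 * 5⁻¹) v.e κ τ R w)
    (G : Geo κ (shf κ τ) v) (he2 : 2 ≤ v.e) {ri tr de : ℝ}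
    (hde0 : 0 < de) (hri0 : 0 < ri) (ht : v.t = tr * ri)
    (heps : de * de = v.t * v.u * (v.u * ri)) (hee : v.e * (de * de) = 1)
    (hE : 50 ≤ v.e)
    (hE1 : v.e ≤ 100)
    (hK : v.e * v.K ^ 2 ≤ 22716 / 16384 + 1925 / 1024 * de)
    (hb : 1 / 2 < v.e * v.K)
    (h : ∃ ops ∈ Pool.Agent.helper71.FJ.Crt.LMc.progs, RAs ops [ri, v.u, tr, v.n]) :
    FarPt v.e κ (1 - Real.sinh κ / 1024) w (2 * AL v.e v.K * Real.sinh κ ^ 2) R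
      (RE v.e κ (w * R)) τ := by
  obtain ⟨v2⟩ := exB2 v
  obtain ⟨v3⟩ := exB3 v
  obtain ⟨v5⟩ := exV5 v
  obtain ⟨l1⟩ := exLg v.D
  obtain ⟨l2⟩ := exLg v.D2
  obtain ⟨lv⟩ := exLV v l1 l2
  obtain ⟨ops, ho, hr⟩ := h
  rw [Pool.Agent.helper71.FJ.Crt.LMc.progs] at ho
  simp only [List.mem_cons, List.not_mem_nil, or_false] at ho
  rcases ho with rfl | rfl | rfl | rfl | rfl | rfl | rfl
  · exact far_LMc0 D G v2 v3 v5 lv he2 hde0 hri0 ht heps hee hr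
  · exact far_LMc1 D G v2 v3 v5 lv he2 hde0 hri0 ht heps hee hr
  · exact (dom_LMc2 D G v2 he2 hde0 hri0 ht heps hee hK hr).elim
  · exact (dom_LMc3 D G v2 he2 hde0 hri0 ht heps hee  hr).elim
  · exact (dom_LMc4 D G v2 he2 hde0 hri0 ht heps hee  hr).elim
  · exact (dom_LMc5 D G v2 he2 hde0 hri0 ht heps hee hE hr).elim
  · exact (dom_LMc6 D G v2 he2 hde0 hri0 ht heps hee hE1 hr).elim

end Pool.Agent.helper71.FJ
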