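import Pool.Agent.helper31.IC.EngD
import Pool.Agent.helper14.QF.Inst

/-!
Generated: straight line program(s) and compiled form(s).
-/

namespace Pool.Agent.helper71.FJ.Crt.XHIII

open Pool.Agent.helper31.IA (Z Op)
open Pool.Agent.helper31.IC

set_option maxRecDepth 100000

abbrev opsE : Ops := Pool.Agent.helper14.QF.opsF

def prog0 : List Op := [
  .const ⟨1099511627776, 0, 0, 0⟩,
  .mul 2 3,
  .mul 4 4,
  .mul 3 4,
  .mul 0 1,
  .mul 3 3,
  .mul 1 2,
  .const ⟨549755813888, 0, 0, 0⟩,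
  .mul 3 9,
  .mul 0 12,
  .scale ⟨549755813888, 0, 0, 0⟩ 0,
  .mul 12 12,
  .mul 1 1,
  .sub 12 0,
  .inv 0,
  .mul 4 0,
  .scale ⟨2199023255552, 0, 0, 0⟩ 0,
  .scale ⟨2199023255552, 0, 0, 0⟩ 2,
  .sub 0 17,
  .add 0 2,
  .mul 23 5,
  .mul 22 0,
  .sub 21 0,
  .add 22 1,
  .mul 19 12,
  .mul 4 4,
  .scale ⟨10774999203840, 0, 0, 0⟩ 15,
  .scale ⟨45768245248, 0, 0, 0⟩ 0,
  .const ⟨183207198720, 0, 0, 0⟩,
  .add 1 0,
  .mul 3 0,
  .add 23 0,
  .mul 5 0,
  .add 32 0,
  .mul 7 0,
  .scale ⟨549755813888, 0, 0, 0⟩ 0,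
  .add 35 0,
  .mul 3 0,
  .mul 21 16,
  .scale ⟨2199023255552, 0, 0, 0⟩ 20,
  .add 1 0,
  .add 0 36,
  .mul 17 0,
  .add 0 42,
  .mul 27 27,
  .scale ⟨2199023255552, 0, 0, 0⟩ 0,
  .add 0 45,
  .mul 28 5,
  .sub 0 47,
  .log 5,
  .scale ⟨549755813888, 0, 0, 0⟩ 0,
  .exp 0,
  .const ⟨3298534883328, 0, 0, 0⟩,
  .inv 0,
  .mul 53 0,
  .const ⟨2199023255552, 0, 0, 0⟩,
  .add 13 0,
  .inv 0,
  .mul 15 0,
  .mul 0 0,
  .sub 59 1,
  .mul 1 6,
  .add 61 0,
  .mul 2 0,
  .mul 4 4,
  .scale ⟨219915747328, 0, 0, 0⟩ 0,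
  .mul 24 2,
  .scale ⟨549755813888, 0, 0, 0⟩ 0,
  .mul 26 2,
  .scale ⟨549755813888, 0, 0, 0⟩ 0,
  .add 2 0,
  .mul 52 22,
  .scale ⟨4398046511104, 0, 0, 0⟩ 0,
  .mul 54 48,
  .mul 0 25,
  .scale ⟨4398046511104, 0, 0, 0⟩ 0,
  .add 0 20,
  .inv 0,
  .mul 2 0,
  .mul 0 0,
  .sub 79 1,
  .mul 1 26,
  .add 81 0,
  .mul 2 0,
  .mul 4 4,
  .scale ⟨219915747328, 0, 0, 0⟩ 0,
  .mul 13 2,
  .scale ⟨549755813888, 0, 0, 0⟩ 0,
  .sub 0 17,
  .mul 16 3,
  .scale ⟨549755813888, 0, 0, 0⟩ 0,
  .add 0 21,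
  .add 3 0,
  .mul 89 25,
  .neg 0,
  .exp 0,
  .mul 92 26,
  .mul 1 0,
  .mul 94 9,
  .neg 0,
  .exp 0,
  .mul 97 9,
  .mul 1 0,
  .mul 81 86,
  .add 85 0,
  .inv 0,
  .mul 82 0,
  .mul 84 102,
  .mul 0 1,
  .sub 108 97,
  .mul 84 0,
  .mul 102 102,
  .sub 111 86,
  .mul 3 0,
  .mul 89 65,
  .inv 71,
  .mul 1 0,
  .add 98 0,
  .mul 74 0,
  .mul 0 0,
  .inv 0,
  .mul 7 0,
  .add 103 97,
  .mul 122 0,
  .inv 0,
  .mul 125 0,
  .mul 0 0,
  .mul 0 13,
  .const ⟨45812285440, 0, 0, 0⟩,
  .scale ⟨1527119872, 0, 0, 0⟩ 1,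
  .sub 1 0,
  .mul 3 0,
  .sub 124 0,
  .mul 5 0,
  .sub 133 0,
  .add 39 134,
  .mul 40 40,
  .add 0 136,
  .mul 42 3,
  .scale ⟨2199023255552, 0, 0, 0⟩ 0,
  .add 2 0,
  .scale ⟨4398046511104, 0, 0, 0⟩ 43,
  .sub 1 0,
  .inv 7,
  .mul 1 0,
  .add 0 9,
  .mul 50 37,
  .scale ⟨549755813888, 0, 0, 0⟩ 0,
  .mul 0 2,
  .sub 6 0,
  .pos 7,
  .pos 0,
  .mul 146 79,
  .scale ⟨2199023255552, 0, 0, 0⟩ 0,
  .scale ⟨183274307584, 0, 0, 0⟩ 0,
  .sub 145 0,
  .mul 2 0,
  .sub 154 0,
  .mul 85 0,
  .inv 7,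
  .mul 1 0,
  .mul 155 0,
  .add 0 152,
  .inv 0,
  .mul 3 0,
  .mul 159 0,
  .mul 55 0,
  .scale ⟨549755813888, 0, 0, 0⟩ 0,
  .sub 165 0,
  .sub 166 2,
  .inv 0,
  .mul 2 0,
  .add 5 169,
  .mul 75 0,
  .mul 65 2,
  .mul 174 10,
  .mul 1 0,
  .mul 10 5,
  .pos 8,
  .mul 153 152,
  .add 158 172,
  .mul 156 159,
  .mul 0 162,
  .scale ⟨2199023255552, 0, 0, 0⟩ 0,
  .add 134 0,
  .mul 4 0,
  .inv 0,
  .mul 7 0,
  .mul 180 0,
  .pos 97,
  .mul 58 70,
  .scale ⟨1527119872, 0, 0, 0⟩ 0,
  .sub 59 0,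
  .mul 2 0,
  .sub 182 0,
  .mul 4 0,
  .sub 191 0,
  .add 92 192,
  .mul 93 93,
  .add 0 194,
  .mul 95 3,
  .scale ⟨2199023255552, 0, 0, 0⟩ 0,
  .add 2 0,
  .scale ⟨4398046511104, 0, 0, 0⟩ 96,
  .sub 1 0,
  .inv 7,
  .mul 1 0,
  .add 0 9,
  .mul 103 18,
  .scale ⟨549755813888, 0, 0, 0⟩ 0,
  .mul 0 2,
  .sub 6 0,
  .pos 7,
  .pos 0,
  .mul 204 115,
  .scale ⟨2199023255552, 0, 0, 0⟩ 0,
  .scale ⟨183274307584, 0, 0, 0⟩ 0,
  .sub 203 0,
  .mul 2 0,
  .sub 212 0,
  .mul 121 0,
  .inv 7,
  .mul 1 0,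
  .mul 213 0,
  .add 0 210,
  .inv 0,
  .mul 3 0,
  .mul 217 0,
  .mul 36 0,
  .mul 224 2,
  .add 213 223,
  .inv 0,
  .mul 215 0,
  .scale ⟨2199023255552, 0, 0, 0⟩ 0,
  .sub 227 0,
  .sub 228 218,
  .mul 233 4,
  .mul 0 2,
  .add 208 0,
  .scale ⟨224412041216, 0, 0, 0⟩ 218,
  .inv 196,
  .mul 1 0,
  .scale ⟨5497558138880, 0, 0, 0⟩ 235,
  .inv 0,
  .mul 238 0,
  .mul 238 1,
  .mul 0 216,
  .mul 0 5,
  .mul 3 218,
  .mul 0 7,
  .sub 243 0,
  .inv 0,
  .mul 74 2,
  .sub 246 0,
  .inv 0,
  .mul 226 249,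
  .mul 0 87,
  .inv 230,
  .mul 1 0,
  .scale ⟨549755813888, 0, 0, 0⟩ 0,
  .sub 253 0,
  .sub 254 2,
  .inv 0,
  .mul 2 0,
  .mul 84 0,
  .mul 6 1,
  .mul 0 254,
  .pos 5,
  .scale ⟨1374389534720, 0, 0, 0⟩ 0,
  .sub 254 0,
  .pos 0,
  .scale ⟨3092376453120, 0, 0, 0⟩ 2,
  .add 0 208,
  .mul 4 0,
  .add 265 0,
  .scale ⟨1546188226560, 0, 0, 0⟩ 6,
  .add 0 267,
  .mul 8 0,
  .add 269 0,
  .mul 260 250,
  .sub 271 161,
  .mul 262 251,
  .scale ⟨2199023255552, 0, 0, 0⟩ 0,
  .sub 2 0,
  .mul 4 4,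
  .add 1 0,
  .add 0 277,
  .scale ⟨549755813888, 0, 0, 0⟩ 0,
  .scale ⟨549755813888, 0, 0, 0⟩ 255,
  .sub 266 0,
  .mul 170 9,
  .mul 0 269,
  .scale ⟨137438953472, 0, 0, 0⟩ 0,
  .add 3 0,
  .mul 6 0,
  .add 115 286,
  .mul 0 42,
  .mul 117 40,
  .add 1 0,
  .mul 47 0,
  .add 116 0,
  .mul 0 287,
  .mul 6 50,
  .mul 0 49,
  .add 120 0,
  .mul 0 291,
  .scale ⟨223338299392, 0, 0, 0⟩ 0,
  .add 291 0,
  .mul 2 0,
  .add 300 0,
  .scale ⟨893353197568, 0, 0, 0⟩ 8,
  .add 302 0,
  .mul 10 0,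
  .add 304 0,
  .mul 78 75,
  .mul 0 40,
  .mul 0 2,
  .mul 22 7,
  .add 258 302,
  .mul 2 0,
  .add 2 0,
  .add 261 312,
  .mul 5 0,
  .mul 44 1,
  .mul 0 85,
  .mul 0 87,
  .mul 5 143,
  .mul 1 60,
  .add 1 0,
  .mul 322 88,
  .inv 270,
  .mul 1 0,
  .scale ⟨549755813888, 0, 0, 0⟩ 0,
  .mul 302 0,
  .add 0 5,
  .mul 322 0,
  .mul 327 0,
  .mul 16 41,
  .mul 0 84,
  .mul 16 159,
  .mul 0 83,
  .add 2 0,
  .mul 311 5,
  .mul 93 1,
  .add 1 0,
  .mul 225 0,
  .mul 0 15,
  .sub 338 0,
  .inv 0,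
  .mul 4 0,
  .mul 337 0,
  .mul 231 1,
  .mul 0 21,
  .sub 344 0,
  .mul 297 0,
  .sub 0 4,
  .inv 0,
  .mul 6 0,
  .sub 298 6,
  .inv 0,
  .mul 2 130,
  .scale ⟨549755813888, 0, 0, 0⟩ 0,
  .sub 353 0,
  .sub 354 2,
  .inv 0,
  .mul 2 0,
  .mul 359 6,
  .mul 135 10,
  .mul 0 2,
  .add 2 0,
  .mul 355 20,
  .mul 11 0,
  .mul 142 15,
  .mul 0 7,
  .mul 0 23,
  .add 3 0,
  .scale ⟨223338299392, 0, 0, 0⟩ 0,
  .add 361 0,
  .mul 2 0,
  .add 370 0,
  .mul 10 0,
  .mul 0 32,
  .mul 0 40,
  .mul 132 352,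
  .const ⟨5497558138880, 0, 0, 0⟩,
  .inv 0,
  .mul 325 0,
  .mul 154 355,
  .mul 0 1,
  .mul 203 275,
  .mul 360 0,
  .scale ⟨549755813888, 0, 0, 0⟩ 160,
  .sub 383 0,
  .sub 384 162,
  .inv 0,
  .mul 2 0,
  .mul 0 202,
  .mul 277 267,
  .scale ⟨733097230336, 0, 0, 0⟩ 0,
  .sub 390 0,
  .mul 270 0,
  .mul 304 304,
  .mul 382 0,
  .add 2 0,
  .mul 7 172,
  .add 1 396,
  .mul 1 0,
  .sub 3 0,
  .scale ⟨366548615168, 0, 0, 0⟩ 355,
  .sub 400 0,
  .mul 376 0,
  .add 3 0,
  .mul 22 0,
  .mul 22 22,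
  .add 405 0,
  .inv 0,
  .mul 3 0,
  .sub 408 59,
  .mul 0 1,
  .sub 410 14,
  .pos 0,
  .pos 3,
  .pos 2,
  .mul 38 175,
  .mul 0 86,
  .inv 390,
  .mul 1 0,
  .mul 412 5,
  .scale ⟨549755813888, 0, 0, 0⟩ 0,
  .sub 417 0,
  .mul 8 0,
  .neg 0,
  .mul 422 424,
  .mul 0 197,
  .mul 0 408,
  .mul 421 0,
  .add 4 0,
  .mul 5 1,
  .mul 423 0,
  .add 2 0,
  .mul 417 387,
  .scale ⟨412316860416, 0, 0, 0⟩ 387,
  .sub 423 0,
  .mul 2 0,
  .mul 430 0,
  .neg 0,
  .add 6 0,
  .mul 7 1,
  .mul 433 0,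
  .add 2 0,
  .mul 440 97,
  .mul 0 25,
  .mul 438 0,
  .add 3 0,
  .mul 4 1,
  .mul 440 0,
  .add 2 0,
  .mul 443 65,
  .sub 1 0,
  .mul 443 67,
  .add 448 0,
  .inv 0,
  .mul 3 0,
  .mul 453 443,
  .mul 0 111,
  .mul 0 102,
  .mul 452 0,
  .add 4 0,
  .mul 5 1,
  .mul 454 0,
  .add 2 0,
  .mul 456 0,
  .add 460 0,
  .mul 87 218,
  .mul 458 87,
  .mul 48 0,
  .add 2 0,
  .mul 463 0,
  .add 92 51,
  .mul 465 0,
  .mul 2 7,
  .add 10 0,
  .add 0 2,
  .neg 0,
  .scale ⟨1073741824, 0, 0, 0⟩ 470,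
  .sub 1 0,
  .sub 455 474,
  .add 0 420,
  .scale ⟨2199023255552, 0, 0, 0⟩ 98,
  .sub 1 0,
  .mul 254 0,
  .mul 4 2,
  .add 0 480,
  .inv 0,
  .mul 3 0,
  .mul 244 150,
  .scale ⟨549755813888, 0, 0, 0⟩ 249,
  .add 469 0,
  .mul 2 0,
  .scale ⟨2199023255552, 0, 0, 0⟩ 0,
  .add 160 0,
  .scale ⟨2199023255552, 0, 0, 0⟩ 0,
  .mul 0 150,
  .mul 483 150,
  .sub 469 0,
  .inv 0,
  .mul 3 0,
  .sub 12 0,
  .mul 497 476,
  .mul 0 0,
  .const ⟨14293651161088, 0, 0, 0⟩,
  .const ⟨10995116277760, 0, 0, 0⟩,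
  .inv 0,
  .mul 2 0,
  .mul 4 0,
  .mul 503 503,
  .scale ⟨27487790694400, 0, 0, 0⟩ 0,
  .add 2 0,
  .mul 126 56,
  .sub 468 503,
  .sub 0 470,
  .mul 506 509,
  .mul 487 177,
  .mul 0 274,
  .add 192 0,
  .add 21 458,
  .mul 515 0,
  .mul 9 8,
  .mul 176 1,
  .mul 7 4,
  .mul 1 0,
  .sub 3 0,
  .scale ⟨549755813888, 0, 0, 0⟩ 28,
  .add 521 0,
  .mul 182 0,
  .mul 519 501,
  .mul 0 292,
  .mul 502 474,
  .inv 0,
  .mul 2 0,
  .mul 5 0,
  .sub 20 0,
  .mul 295 10,
  .sub 531 296,
  .mul 521 2,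
  .mul 1 0,
  .mul 28 0,
  .add 4 0,
  .pos 292,
  .pos 289,
  .scale ⟨2199023255552, 0, 0, 0⟩ 199,
  .sub 486 0,
  .pos 0,
  .pos 191,
  .sub 531 316,
  .pos 0,
  .scale ⟨687194767360, 0, 0, 0⟩ 539,
  .sub 0 243,
  .pos 0,
  .scale ⟨377957122048, 0, 0, 0⟩ 541,
  .sub 0 249,
  .pos 0,
  .pos 50,
  .pos 188,
  .sub 3 176,
  .pos 0,
  .pos 48,
  .pos 70,
  .pos 8,
  .pos 14]

def chk0 {α : Type} (cst : Z → α) (add sub mul : α → α → α) (scale : Z → α → α)
    (neg inv exp log : α → α) (ok : α → Bool) (isPos : Nat → α → Bool) (isLt : α → Nat → Bool) :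
    List α → Bool
  | [x0, x1, x2, x3] =>
  let v0 := cst ⟨1099511627776, 0, 0, 0⟩; ok v0 && (
  let v1 := mul x1 x2; ok v1 && (
  let v2 := mul x2 x2; ok v2 && (
  let v3 := mul x0 x1; ok v3 && (
  let v4 := mul v3 v2; ok v4 && (
  let v5 := mul v1 v1; ok v5 && (
  let v6 := mul v4 v3; ok v6 && (
  let v7 := cst ⟨549755813888, 0, 0, 0⟩; ok v7 && (
  let v8 := mul v4 x1; ok v8 && (
  let v9 := mul v8 x3; ok v9 && (
  let v10 := scale ⟨549755813888, 0, 0, 0⟩ v9; ok v10 && (
  let v11 := mul x1 x1; ok v11 && (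
  let v12 := mul v10 v10; ok v12 && (
  let v13 := sub v0 v12; ok v13 && (
  let v14 := inv v13; ok v14 && (
  let v15 := mul v10 v14; ok v15 && (
  let v16 := scale ⟨2199023255552, 0, 0, 0⟩ v15; ok v16 && (
  let v17 := scale ⟨2199023255552, 0, 0, 0⟩ v14; ok v17 && (
  let v18 := sub v17 v0; ok v18 && (
  let v19 := add v18 v16; ok v19 && (
  let v20 := mul x3 v14; ok v20 && (
  let v21 := mul x1 v20; ok v21 && (
  let v22 := sub v0 v21; ok v22 && (
  let v23 := add v0 v21; ok v23 && (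
  let v24 := mul v4 v11; ok v24 && (
  let v25 := mul v20 v20; ok v25 && (
  let v26 := scale ⟨10774999203840, 0, 0, 0⟩ v10; ok v26 && (
  let v27 := scale ⟨45768245248, 0, 0, 0⟩ v26; ok v27 && (
  let v28 := cst ⟨183207198720, 0, 0, 0⟩; ok v28 && (
  let v29 := add v27 v28; ok v29 && (
  let v30 := mul v26 v29; ok v30 && (
  let v31 := add v7 v30; ok v31 && (
  let v32 := mul v26 v31; ok v32 && (
  let v33 := add v0 v32; ok v33 && (
  let v34 := mul v26 v33; ok v34 && (
  let v35 := scale ⟨549755813888, 0, 0, 0⟩ v34; ok v35 && (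
  let v36 := add v0 v35; ok v36 && (
  let v37 := mul v33 v36; ok v37 && (
  let v38 := mul v16 v21; ok v38 && (
  let v39 := scale ⟨2199023255552, 0, 0, 0⟩ v18; ok v39 && (
  let v40 := add v38 v39; ok v40 && (
  let v41 := add v40 v4; ok v41 && (
  let v42 := mul v24 v41; ok v42 && (
  let v43 := add v42 v0; ok v43 && (
  let v44 := mul v16 v16; ok v44 && (
  let v45 := scale ⟨2199023255552, 0, 0, 0⟩ v44; ok v45 && (
  let v46 := add v45 v0; ok v46 && (
  let v47 := mul v18 v41; ok v47 && (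
  let v48 := sub v47 v0; ok v48 && (
  let v49 := log v43; ok v49 && (
  let v50 := scale ⟨549755813888, 0, 0, 0⟩ v49; ok v50 && (
  let v51 := exp v50; ok v51 && (
  let v52 := cst ⟨3298534883328, 0, 0, 0⟩; ok v52 && (
  let v53 := inv v52; ok v53 && (
  let v54 := mul v0 v53; ok v54 && (
  let v55 := cst ⟨2199023255552, 0, 0, 0⟩; ok v55 && (
  let v56 := add v42 v55; ok v56 && (
  let v57 := inv v56; ok v57 && (
  let v58 := mul v42 v57; ok v58 && (
  let v59 := mul v58 v58; ok v59 && (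
  let v60 := sub v0 v58; ok v60 && (
  let v61 := mul v59 v54; ok v61 && (
  let v62 := add v0 v61; ok v62 && (
  let v63 := mul v60 v62; ok v63 && (
  let v64 := mul v59 v59; ok v64 && (
  let v65 := scale ⟨219915747328, 0, 0, 0⟩ v64; ok v65 && (
  let v66 := mul v41 v63; ok v66 && (
  let v67 := scale ⟨549755813888, 0, 0, 0⟩ v66; ok v67 && (
  let v68 := mul v41 v65; ok v68 && (
  let v69 := scale ⟨549755813888, 0, 0, 0⟩ v68; ok v69 && (
  let v70 := add v67 v69; ok v70 && (
  let v71 := mul v18 v48; ok v71 && (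
  let v72 := scale ⟨4398046511104, 0, 0, 0⟩ v71; ok v72 && (
  let v73 := mul v18 v24; ok v73 && (
  let v74 := mul v73 v48; ok v74 && (
  let v75 := scale ⟨4398046511104, 0, 0, 0⟩ v74; ok v75 && (
  let v76 := add v75 v55; ok v76 && (
  let v77 := inv v76; ok v77 && (
  let v78 := mul v75 v77; ok v78 && (
  let v79 := mul v78 v78; ok v79 && (
  let v80 := sub v0 v78; ok v80 && (
  let v81 := mul v79 v54; ok v81 && (
  let v82 := add v0 v81; ok v82 && (
  let v83 := mul v80 v82; ok v83 && (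
  let v84 := mul v79 v79; ok v84 && (
  let v85 := scale ⟨219915747328, 0, 0, 0⟩ v84; ok v85 && (
  let v86 := mul v72 v83; ok v86 && (
  let v87 := scale ⟨549755813888, 0, 0, 0⟩ v86; ok v87 && (
  let v88 := sub v87 v70; ok v88 && (
  let v89 := mul v72 v85; ok v89 && (
  let v90 := scale ⟨549755813888, 0, 0, 0⟩ v89; ok v90 && (
  let v91 := add v90 v69; ok v91 && (
  let v92 := add v88 v91; ok v92 && (
  let v93 := mul v3 v67; ok v93 && (
  let v94 := neg v93; ok v94 && (
  let v95 := exp v94; ok v95 && (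
  let v96 := mul v3 v69; ok v96 && (
  let v97 := mul v95 v96; ok v97 && (
  let v98 := mul v3 v88; ok v98 && (
  let v99 := neg v98; ok v99 && (
  let v100 := exp v99; ok v100 && (
  let v101 := mul v3 v91; ok v101 && (
  let v102 := mul v100 v101; ok v102 && (
  let v103 := mul v21 v16; ok v103 && (
  let v104 := add v18 v103; ok v104 && (
  let v105 := inv v104; ok v105 && (
  let v106 := mul v23 v105; ok v106 && (
  let v107 := mul v22 v4; ok v107 && (
  let v108 := mul v107 v106; ok v108 && (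
  let v109 := sub v0 v11; ok v109 && (
  let v110 := mul v25 v109; ok v110 && (
  let v111 := mul v8 v8; ok v111 && (
  let v112 := sub v0 v25; ok v112 && (
  let v113 := mul v109 v112; ok v113 && (
  let v114 := mul v24 v48; ok v114 && (
  let v115 := inv v43; ok v115 && (
  let v116 := mul v114 v115; ok v116 && (
  let v117 := add v18 v116; ok v117 && (
  let v118 := mul v43 v117; ok v118 && (
  let v119 := mul v118 v118; ok v119 && (
  let v120 := inv v119; ok v120 && (
  let v121 := mul v113 v120; ok v121 && (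
  let v122 := add v18 v24; ok v122 && (
  let v123 := mul v0 v122; ok v123 && (
  let v124 := inv v123; ok v124 && (
  let v125 := mul x0 v124; ok v125 && (
  let v126 := mul v125 v125; ok v126 && (
  let v127 := mul v126 v113; ok v127 && (
  let v128 := cst ⟨45812285440, 0, 0, 0⟩; ok v128 && (
  let v129 := scale ⟨1527119872, 0, 0, 0⟩ v127; ok v129 && (
  let v130 := sub v128 v129; ok v130 && (
  let v131 := mul v127 v130; ok v131 && (
  let v132 := sub v7 v131; ok v132 && (
  let v133 := mul v127 v132; ok v133 && (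
  let v134 := sub v0 v133; ok v134 && (
  let v135 := add v95 v0; ok v135 && (
  let v136 := mul v95 v95; ok v136 && (
  let v137 := add v136 v0; ok v137 && (
  let v138 := mul v95 v134; ok v138 && (
  let v139 := scale ⟨2199023255552, 0, 0, 0⟩ v138; ok v139 && (
  let v140 := add v137 v139; ok v140 && (
  let v141 := scale ⟨4398046511104, 0, 0, 0⟩ v97; ok v141 && (
  let v142 := sub v140 v141; ok v142 && (
  let v143 := inv v135; ok v143 && (
  let v144 := mul v142 v143; ok v144 && (
  let v145 := add v144 v135; ok v145 && (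
  let v146 := mul v95 v108; ok v146 && (
  let v147 := scale ⟨549755813888, 0, 0, 0⟩ v146; ok v147 && (
  let v148 := mul v147 v145; ok v148 && (
  let v149 := sub v142 v148; ok v149 && (
  isPos 4 v142 && (
  isPos 4 v149 && (
  let v150 := mul v3 v70; ok v150 && (
  let v151 := scale ⟨2199023255552, 0, 0, 0⟩ v150; ok v151 && (
  let v152 := scale ⟨183274307584, 0, 0, 0⟩ v151; ok v152 && (
  let v153 := sub v7 v152; ok v153 && (
  let v154 := mul v151 v153; ok v154 && (
  let v155 := sub v0 v154; ok v155 && (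
  let v156 := mul v70 v155; ok v156 && (
  let v157 := inv v149; ok v157 && (
  let v158 := mul v156 v157; ok v158 && (
  let v159 := mul v3 v158; ok v159 && (
  let v160 := add v159 v7; ok v160 && (
  let v161 := inv v160; ok v161 && (
  let v162 := mul v158 v161; ok v162 && (
  let v163 := mul v3 v162; ok v163 && (
  let v164 := mul v108 v163; ok v164 && (
  let v165 := scale ⟨549755813888, 0, 0, 0⟩ v164; ok v165 && (
  let v166 := sub v0 v165; ok v166 && (
  let v167 := sub v0 v164; ok v167 && (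
  let v168 := inv v167; ok v168 && (
  let v169 := mul v166 v168; ok v169 && (
  let v170 := add v164 v0; ok v170 && (
  let v171 := mul v95 v170; ok v171 && (
  let v172 := mul v106 v169; ok v172 && (
  let v173 := mul x1 v162; ok v173 && (
  let v174 := mul v172 v173; ok v174 && (
  let v175 := mul v164 v169; ok v175 && (
  isPos 4 v167 && (
  let v176 := mul v22 v23; ok v176 && (
  let v177 := add v18 v4; ok v177 && (
  let v178 := mul v21 v18; ok v178 && (
  let v179 := mul v178 v16; ok v179 && (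
  let v180 := scale ⟨2199023255552, 0, 0, 0⟩ v179; ok v180 && (
  let v181 := add v46 v180; ok v181 && (
  let v182 := mul v177 v181; ok v182 && (
  let v183 := inv v182; ok v183 && (
  let v184 := mul v176 v183; ok v184 && (
  let v185 := mul v4 v184; ok v185 && (
  isPos 4 v88 && (
  let v186 := mul v127 v115; ok v186 && (
  let v187 := scale ⟨1527119872, 0, 0, 0⟩ v186; ok v187 && (
  let v188 := sub v128 v187; ok v188 && (
  let v189 := mul v186 v188; ok v189 && (
  let v190 := sub v7 v189; ok v190 && (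
  let v191 := mul v186 v190; ok v191 && (
  let v192 := sub v0 v191; ok v192 && (
  let v193 := add v100 v0; ok v193 && (
  let v194 := mul v100 v100; ok v194 && (
  let v195 := add v194 v0; ok v195 && (
  let v196 := mul v100 v192; ok v196 && (
  let v197 := scale ⟨2199023255552, 0, 0, 0⟩ v196; ok v197 && (
  let v198 := add v195 v197; ok v198 && (
  let v199 := scale ⟨4398046511104, 0, 0, 0⟩ v102; ok v199 && (
  let v200 := sub v198 v199; ok v200 && (
  let v201 := inv v193; ok v201 && (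
  let v202 := mul v200 v201; ok v202 && (
  let v203 := add v202 v193; ok v203 && (
  let v204 := mul v100 v185; ok v204 && (
  let v205 := scale ⟨549755813888, 0, 0, 0⟩ v204; ok v205 && (
  let v206 := mul v205 v203; ok v206 && (
  let v207 := sub v200 v206; ok v207 && (
  isPos 4 v200 && (
  isPos 4 v207 && (
  let v208 := mul v3 v92; ok v208 && (
  let v209 := scale ⟨2199023255552, 0, 0, 0⟩ v208; ok v209 && (
  let v210 := scale ⟨183274307584, 0, 0, 0⟩ v209; ok v210 && (
  let v211 := sub v7 v210; ok v211 && (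
  let v212 := mul v209 v211; ok v212 && (
  let v213 := sub v0 v212; ok v213 && (
  let v214 := mul v92 v213; ok v214 && (
  let v215 := inv v207; ok v215 && (
  let v216 := mul v214 v215; ok v216 && (
  let v217 := mul v3 v216; ok v217 && (
  let v218 := add v217 v7; ok v218 && (
  let v219 := inv v218; ok v219 && (
  let v220 := mul v216 v219; ok v220 && (
  let v221 := mul v3 v220; ok v221 && (
  let v222 := mul v185 v221; ok v222 && (
  let v223 := mul x1 v220; ok v223 && (
  let v224 := add v10 v0; ok v224 && (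
  let v225 := inv v224; ok v225 && (
  let v226 := mul v10 v225; ok v226 && (
  let v227 := scale ⟨2199023255552, 0, 0, 0⟩ v226; ok v227 && (
  let v228 := sub v0 v227; ok v228 && (
  let v229 := sub v0 v10; ok v229 && (
  let v230 := mul x3 v225; ok v230 && (
  let v231 := mul v230 v228; ok v231 && (
  let v232 := add v23 v231; ok v232 && (
  let v233 := scale ⟨224412041216, 0, 0, 0⟩ v14; ok v233 && (
  let v234 := inv v37; ok v234 && (
  let v235 := mul v233 v234; ok v235 && (
  let v236 := scale ⟨5497558138880, 0, 0, 0⟩ v0; ok v236 && (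
  let v237 := inv v236; ok v237 && (
  let v238 := mul x0 v237; ok v238 && (
  let v239 := mul v0 v237; ok v239 && (
  let v240 := mul v239 v23; ok v240 && (
  let v241 := mul v240 v235; ok v241 && (
  let v242 := mul v238 v23; ok v242 && (
  let v243 := mul v242 v235; ok v243 && (
  let v244 := sub v0 v243; ok v244 && (
  let v245 := inv v244; ok v245 && (
  let v246 := mul v171 v243; ok v246 && (
  let v247 := sub v0 v246; ok v247 && (
  let v248 := inv v247; ok v248 && (
  let v249 := mul v22 x0; ok v249 && (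
  let v250 := mul v249 v162; ok v250 && (
  let v251 := inv v20; ok v251 && (
  let v252 := mul v250 v251; ok v252 && (
  let v253 := scale ⟨549755813888, 0, 0, 0⟩ v252; ok v253 && (
  let v254 := sub v0 v253; ok v254 && (
  let v255 := sub v0 v252; ok v255 && (
  let v256 := inv v255; ok v256 && (
  let v257 := mul v254 v256; ok v257 && (
  let v258 := mul v173 v257; ok v258 && (
  let v259 := mul v252 v257; ok v259 && (
  let v260 := mul v259 v5; ok v260 && (
  isPos 4 v255 && (
  let v261 := scale ⟨1374389534720, 0, 0, 0⟩ v260; ok v261 && (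
  let v262 := sub v7 v261; ok v262 && (
  isPos 4 v262 && (
  let v263 := scale ⟨3092376453120, 0, 0, 0⟩ v260; ok v263 && (
  let v264 := add v263 v55; ok v264 && (
  let v265 := mul v260 v264; ok v265 && (
  let v266 := add v0 v265; ok v266 && (
  let v267 := scale ⟨1546188226560, 0, 0, 0⟩ v260; ok v267 && (
  let v268 := add v267 v0; ok v268 && (
  let v269 := mul v260 v268; ok v269 && (
  let v270 := add v0 v269; ok v270 && (
  let v271 := mul v10 v20; ok v271 && (
  let v272 := sub v0 v110; ok v272 && (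
  let v273 := mul v10 v21; ok v273 && (
  let v274 := scale ⟨2199023255552, 0, 0, 0⟩ v273; ok v274 && (
  let v275 := sub v272 v274; ok v275 && (
  let v276 := mul v271 v271; ok v276 && (
  let v277 := add v275 v276; ok v277 && (
  let v278 := add v277 v0; ok v278 && (
  let v279 := scale ⟨549755813888, 0, 0, 0⟩ v278; ok v279 && (
  let v280 := scale ⟨549755813888, 0, 0, 0⟩ v24; ok v280 && (
  let v281 := sub v14 v280; ok v281 && (
  let v282 := mul v111 v272; ok v282 && (
  let v283 := mul v282 v13; ok v283 && (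
  let v284 := scale ⟨137438953472, 0, 0, 0⟩ v283; ok v284 && (
  let v285 := add v281 v284; ok v285 && (
  let v286 := mul v279 v285; ok v286 && (
  let v287 := add v171 v0; ok v287 && (
  let v288 := mul v287 v245; ok v288 && (
  let v289 := mul v171 v248; ok v289 && (
  let v290 := add v288 v289; ok v290 && (
  let v291 := mul v243 v290; ok v291 && (
  let v292 := add v175 v291; ok v292 && (
  let v293 := mul v292 v5; ok v293 && (
  let v294 := mul v287 v243; ok v294 && (
  let v295 := mul v294 v245; ok v295 && (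
  let v296 := add v175 v295; ok v296 && (
  let v297 := mul v296 v5; ok v297 && (
  let v298 := scale ⟨223338299392, 0, 0, 0⟩ v297; ok v298 && (
  let v299 := add v7 v298; ok v299 && (
  let v300 := mul v297 v299; ok v300 && (
  let v301 := add v0 v300; ok v301 && (
  let v302 := scale ⟨893353197568, 0, 0, 0⟩ v293; ok v302 && (
  let v303 := add v0 v302; ok v303 && (
  let v304 := mul v293 v303; ok v304 && (
  let v305 := add v0 v304; ok v305 && (
  let v306 := mul v227 v230; ok v306 && (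
  let v307 := mul v306 v266; ok v307 && (
  let v308 := mul v307 v305; ok v308 && (
  let v309 := mul v286 v301; ok v309 && (
  let v310 := add v51 v7; ok v310 && (
  let v311 := mul v308 v310; ok v311 && (
  let v312 := add v309 v311; ok v312 && (
  let v313 := add v51 v0; ok v313 && (
  let v314 := mul v308 v313; ok v314 && (
  let v315 := mul v270 v313; ok v315 && (
  let v316 := mul v315 v230; ok v316 && (
  let v317 := mul v316 v229; ok v317 && (
  let v318 := mul v312 v174; ok v318 && (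
  let v319 := mul v317 v258; ok v319 && (
  let v320 := add v318 v319; ok v320 && (
  let v321 := mul x1 v232; ok v321 && (
  let v322 := inv v51; ok v322 && (
  let v323 := mul v321 v322; ok v323 && (
  let v324 := scale ⟨549755813888, 0, 0, 0⟩ v323; ok v324 && (
  let v325 := mul v22 v324; ok v325 && (
  let v326 := add v325 v320; ok v326 && (
  let v327 := mul v4 v326; ok v327 && (
  let v328 := mul v0 v327; ok v328 && (
  let v329 := mul v312 v287; ok v329 && (
  let v330 := mul v329 v245; ok v330 && (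
  let v331 := mul v314 v171; ok v331 && (
  let v332 := mul v331 v248; ok v332 && (
  let v333 := add v330 v332; ok v333 && (
  let v334 := mul v22 v328; ok v334 && (
  let v335 := mul v241 v333; ok v335 && (
  let v336 := add v334 v335; ok v336 && (
  let v337 := mul v111 v336; ok v337 && (
  let v338 := mul v337 v322; ok v338 && (
  let v339 := sub v0 v338; ok v339 && (
  let v340 := inv v339; ok v340 && (
  let v341 := mul v336 v340; ok v341 && (
  let v342 := mul v4 v341; ok v342 && (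
  let v343 := mul v111 v341; ok v343 && (
  let v344 := mul v343 v322; ok v344 && (
  let v345 := sub v0 v344; ok v345 && (
  let v346 := mul v48 v345; ok v346 && (
  let v347 := sub v346 v342; ok v347 && (
  let v348 := inv v347; ok v348 && (
  let v349 := mul v342 v348; ok v349 && (
  let v350 := sub v51 v343; ok v350 && (
  let v351 := inv v350; ok v351 && (
  let v352 := mul v349 v221; ok v352 && (
  let v353 := scale ⟨549755813888, 0, 0, 0⟩ v352; ok v353 && (
  let v354 := sub v0 v353; ok v354 && (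
  let v355 := sub v0 v352; ok v355 && (
  let v356 := inv v355; ok v356 && (
  let v357 := mul v354 v356; ok v357 && (
  let v358 := mul x1 v351; ok v358 && (
  let v359 := mul v223 v348; ok v359 && (
  let v360 := mul v359 v357; ok v360 && (
  let v361 := add v358 v360; ok v361 && (
  let v362 := mul v6 v341; ok v362 && (
  let v363 := mul v351 v362; ok v363 && (
  let v364 := mul v221 v348; ok v364 && (
  let v365 := mul v364 v357; ok v365 && (
  let v366 := mul v365 v342; ok v366 && (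
  let v367 := add v363 v366; ok v367 && (
  let v368 := scale ⟨223338299392, 0, 0, 0⟩ v367; ok v368 && (
  let v369 := add v7 v368; ok v369 && (
  let v370 := mul v367 v369; ok v370 && (
  let v371 := add v0 v370; ok v371 && (
  let v372 := mul v361 v371; ok v372 && (
  let v373 := mul v372 v340; ok v373 && (
  let v374 := mul v373 v333; ok v374 && (
  let v375 := mul v242 v22; ok v375 && (
  let v376 := cst ⟨5497558138880, 0, 0, 0⟩; ok v376 && (
  let v377 := inv v376; ok v377 && (
  let v378 := mul v52 v377; ok v378 && (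
  let v379 := mul v224 v23; ok v379 && (
  let v380 := mul v379 v378; ok v380 && (
  let v381 := mul v177 v105; ok v381 && (
  let v382 := mul v21 v381; ok v382 && (
  let v383 := scale ⟨549755813888, 0, 0, 0⟩ v222; ok v383 && (
  let v384 := sub v0 v383; ok v384 && (
  let v385 := sub v0 v222; ok v385 && (
  let v386 := inv v385; ok v386 && (
  let v387 := mul v384 v386; ok v387 && (
  let v388 := mul v387 v185; ok v388 && (
  let v389 := mul v111 v121; ok v389 && (
  let v390 := scale ⟨733097230336, 0, 0, 0⟩ v389; ok v390 && (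
  let v391 := sub v0 v390; ok v391 && (
  let v392 := mul v121 v391; ok v392 && (
  let v393 := mul v88 v88; ok v393 && (
  let v394 := mul v11 v393; ok v394 && (
  let v395 := add v392 v394; ok v395 && (
  let v396 := mul v388 v223; ok v396 && (
  let v397 := add v395 v0; ok v397 && (
  let v398 := mul v396 v397; ok v398 && (
  let v399 := sub v395 v398; ok v399 && (
  let v400 := scale ⟨366548615168, 0, 0, 0⟩ v44; ok v400 && (
  let v401 := sub v0 v400; ok v401 && (
  let v402 := mul v25 v401; ok v402 && (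
  let v403 := add v399 v402; ok v403 && (
  let v404 := mul v381 v403; ok v404 && (
  let v405 := mul v382 v382; ok v405 && (
  let v406 := add v0 v405; ok v406 && (
  let v407 := inv v406; ok v407 && (
  let v408 := mul v404 v407; ok v408 && (
  let v409 := sub v0 v349; ok v409 && (
  let v410 := mul v409 v408; ok v410 && (
  let v411 := sub v0 v396; ok v411 && (
  isPos 4 v411 && (
  isPos 4 v408 && (
  isPos 4 v409 && (
  let v412 := mul v373 v236; ok v412 && (
  let v413 := mul v412 v326; ok v413 && (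
  let v414 := inv v23; ok v414 && (
  let v415 := mul v413 v414; ok v415 && (
  let v416 := mul v3 v410; ok v416 && (
  let v417 := scale ⟨549755813888, 0, 0, 0⟩ v416; ok v417 && (
  let v418 := sub v0 v417; ok v418 && (
  let v419 := mul v410 v418; ok v419 && (
  let v420 := neg v419; ok v420 && (
  let v421 := mul x1 x3; ok v421 && (
  let v422 := mul v421 v224; ok v422 && (
  let v423 := mul v422 v14; ok v423 && (
  let v424 := mul v2 v423; ok v424 && (
  let v425 := add v420 v424; ok v425 && (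
  let v426 := mul v420 v424; ok v426 && (
  let v427 := mul v3 v426; ok v427 && (
  let v428 := add v425 v427; ok v428 && (
  let v429 := mul v11 v41; ok v429 && (
  let v430 := scale ⟨412316860416, 0, 0, 0⟩ v42; ok v430 && (
  let v431 := sub v7 v430; ok v431 && (
  let v432 := mul v429 v431; ok v432 && (
  let v433 := mul v2 v432; ok v433 && (
  let v434 := neg v433; ok v434 && (
  let v435 := add v428 v434; ok v435 && (
  let v436 := mul v428 v434; ok v436 && (
  let v437 := mul v3 v436; ok v437 && (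
  let v438 := add v435 v437; ok v438 && (
  let v439 := mul x1 v341; ok v439 && (
  let v440 := mul v439 v414; ok v440 && (
  let v441 := mul v2 v440; ok v441 && (
  let v442 := add v438 v441; ok v442 && (
  let v443 := mul v438 v441; ok v443 && (
  let v444 := mul v3 v443; ok v444 && (
  let v445 := add v442 v444; ok v445 && (
  let v446 := mul v2 v380; ok v446 && (
  let v447 := sub v445 v446; ok v447 && (
  let v448 := mul v4 v380; ok v448 && (
  let v449 := add v0 v448; ok v449 && (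
  let v450 := inv v449; ok v450 && (
  let v451 := mul v447 v450; ok v451 && (
  let v452 := mul x1 v8; ok v452 && (
  let v453 := mul v452 v341; ok v453 && (
  let v454 := mul v453 v351; ok v454 && (
  let v455 := mul v2 v454; ok v455 && (
  let v456 := add v451 v455; ok v456 && (
  let v457 := mul v451 v455; ok v457 && (
  let v458 := mul v3 v457; ok v458 && (
  let v459 := add v456 v458; ok v459 && (
  let v460 := mul v3 v459; ok v460 && (
  let v461 := add v0 v460; ok v461 && (
  let v462 := mul v374 v243; ok v462 && (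
  let v463 := mul v4 v375; ok v463 && (
  let v464 := mul v415 v463; ok v464 && (
  let v465 := add v462 v464; ok v465 && (
  let v466 := mul v2 v465; ok v466 && (
  let v467 := add v374 v415; ok v467 && (
  let v468 := mul v2 v467; ok v468 && (
  let v469 := mul v466 v461; ok v469 && (
  let v470 := add v459 v469; ok v470 && (
  let v471 := add v470 v468; ok v471 && (
  let v472 := neg v471; ok v472 && (
  let v473 := scale ⟨1073741824, 0, 0, 0⟩ v2; ok v473 && (
  let v474 := sub v472 v473; ok v474 && (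
  let v475 := sub v19 v0; ok v475 && (
  let v476 := add v475 v55; ok v476 && (
  let v477 := scale ⟨2199023255552, 0, 0, 0⟩ v378; ok v477 && (
  let v478 := sub v476 v477; ok v478 && (
  let v479 := mul v224 v478; ok v479 && (
  let v480 := mul v475 v477; ok v480 && (
  let v481 := add v480 v0; ok v481 && (
  let v482 := inv v481; ok v482 && (
  let v483 := mul v479 v482; ok v483 && (
  let v484 := mul v239 v333; ok v484 && (
  let v485 := scale ⟨549755813888, 0, 0, 0⟩ v235; ok v485 && (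
  let v486 := add v16 v485; ok v486 && (
  let v487 := mul v484 v486; ok v487 && (
  let v488 := scale ⟨2199023255552, 0, 0, 0⟩ v487; ok v488 && (
  let v489 := add v328 v488; ok v489 && (
  let v490 := scale ⟨2199023255552, 0, 0, 0⟩ v489; ok v490 && (
  let v491 := mul v490 v340; ok v491 && (
  let v492 := mul v8 v341; ok v492 && (
  let v493 := sub v23 v492; ok v493 && (
  let v494 := inv v493; ok v494 && (
  let v495 := mul v491 v494; ok v495 && (
  let v496 := sub v483 v495; ok v496 && (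
  let v497 := mul x0 v20; ok v497 && (
  let v498 := mul v497 v497; ok v498 && (
  let v499 := cst ⟨14293651161088, 0, 0, 0⟩; ok v499 && (
  let v500 := cst ⟨10995116277760, 0, 0, 0⟩; ok v500 && (
  let v501 := inv v500; ok v501 && (
  let v502 := mul v499 v501; ok v502 && (
  let v503 := mul v498 v502; ok v503 && (
  let v504 := mul v0 v0; ok v504 && (
  let v505 := scale ⟨27487790694400, 0, 0, 0⟩ v504; ok v505 && (
  let v506 := add v503 v505; ok v506 && (
  let v507 := mul v380 v450; ok v507 && (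
  let v508 := sub v39 v4; ok v508 && (
  let v509 := sub v508 v38; ok v509 && (
  let v510 := mul v3 v0; ok v510 && (
  let v511 := mul v23 v333; ok v511 && (
  let v512 := mul v511 v237; ok v512 && (
  let v513 := add v320 v512; ok v513 && (
  let v514 := add v492 v55; ok v514 && (
  let v515 := mul x0 v514; ok v515 && (
  let v516 := mul v506 v507; ok v516 && (
  let v517 := mul v340 v515; ok v517 && (
  let v518 := mul v510 v513; ok v518 && (
  let v519 := mul v517 v518; ok v519 && (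
  let v520 := sub v516 v519; ok v520 && (
  let v521 := scale ⟨549755813888, 0, 0, 0⟩ v492; ok v521 && (
  let v522 := add v0 v521; ok v522 && (
  let v523 := mul v340 v522; ok v523 && (
  let v524 := mul v4 v22; ok v524 && (
  let v525 := mul v524 v232; ok v525 && (
  let v526 := mul v23 v51; ok v526 && (
  let v527 := inv v526; ok v527 && (
  let v528 := mul v525 v527; ok v528 && (
  let v529 := mul v523 v528; ok v529 && (
  let v530 := sub v509 v529; ok v530 && (
  let v531 := mul v235 v520; ok v531 && (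
  let v532 := sub v0 v235; ok v532 && (
  let v533 := mul v11 v530; ok v533 && (
  let v534 := mul v532 v533; ok v534 && (
  let v535 := mul v506 v534; ok v535 && (
  let v536 := add v531 v535; ok v536 && (
  isPos 4 v244 && (
  isPos 4 v247 && (
  let v537 := scale ⟨2199023255552, 0, 0, 0⟩ v337; ok v537 && (
  let v538 := sub v51 v537; ok v538 && (
  isPos 4 v538 && (
  isPos 4 v347 && (
  let v539 := sub v7 v222; ok v539 && (
  isPos 4 v539 && (
  let v540 := scale ⟨687194767360, 0, 0, 0⟩ v0; ok v540 && (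
  let v541 := sub v540 v297; ok v541 && (
  isPos 4 v541 && (
  let v542 := scale ⟨377957122048, 0, 0, 0⟩ v0; ok v542 && (
  let v543 := sub v542 v293; ok v543 && (
  isPos 4 v543 && (
  isPos 4 v493 && (
  isPos 4 v355 && (
  let v544 := sub v540 v367; ok v544 && (
  isPos 4 v544 && (
  isPos 4 v496 && (
  isPos 4 v474 && (
  isPos 4 v536 && (
  isPos 4 v530 && (
  true))))))))))))))))))))))))))))))))))))))))))))))))))))))))))))))))))))))))))))))))))))))))))))))))))))))))))))))))))))))))))))))))))))))))))))))))))))))))))))))))))))))))))))))))))))))))))))))))))))))))))))))))))))))))))))))))))))))))))))))))))))))))))))))))))))))))))))))))))))))))))))))))))))))))))))))))))))))))))))))))))))))))))))))))))))))))))))))))))))))))))))))))))))))))))))))))))))))))))))))))))))))))))))))))))))))))))))))))))))))))))))))))))))))))))))))))))))))))))))))))))))))))))))))))))))))))))))))))))))))))))))))))))))))))))))))))))))))))))))))))))))))))))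
  | _ => false

set_option maxRecDepth 1000000 in
theorem chk0_eq (O : Ops) (m : List O.α)
    (h : chk0 O.cst O.add O.sub O.mul O.scale O.neg O.inv O.exp O.log O.ok O.isPos O.isLt m = true) :
    runG O 4 prog0 m = true := by
  match m, h with
  | [x0, x1, x2, x3], h => exact h

def chkB0 : List opsE.α → Bool :=
  chk0 opsE.cst opsE.add opsE.sub opsE.mul opsE.scale opsE.neg opsE.inv opsE.exp opsE.log opsE.ok opsE.isPos opsE.isLt

theorem chkB0_eq (m : List opsE.α) (h : chkB0 m = true) : runG opsE 4 prog0 m = true :=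
  chk0_eq opsE m h

def prog1 : List Op := [
  .const ⟨1099511627776, 0, 0, 0⟩,
  .mul 2 3,
  .mul 4 4,
  .mul 3 4,
  .mul 0 1,
  .mul 3 3,
  .mul 1 2,
  .const ⟨549755813888, 0, 0, 0⟩,
  .mul 3 9,
  .mul 0 12,
  .scale ⟨549755813888, 0, 0, 0⟩ 0,
  .mul 12 12,
  .mul 1 1,
  .sub 12 0,
  .inv 0,
  .mul 4 0,
  .scale ⟨2199023255552, 0, 0, 0⟩ 0,
  .scale ⟨2199023255552, 0, 0, 0⟩ 2,
  .sub 0 17,
  .add 0 2,
  .mul 23 5,
  .mul 22 0,
  .sub 21 0,
  .add 22 1,
  .mul 19 12,
  .mul 4 4,
  .scale ⟨10774999203840, 0, 0, 0⟩ 15,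
  .scale ⟨45768245248, 0, 0, 0⟩ 0,
  .const ⟨183207198720, 0, 0, 0⟩,
  .add 1 0,
  .mul 3 0,
  .add 23 0,
  .mul 5 0,
  .add 32 0,
  .mul 7 0,
  .scale ⟨549755813888, 0, 0, 0⟩ 0,
  .add 35 0,
  .mul 3 0,
  .mul 21 16,
  .scale ⟨2199023255552, 0, 0, 0⟩ 20,
  .add 1 0,
  .add 0 36,
  .mul 17 0,
  .add 0 42,
  .mul 27 27,
  .scale ⟨2199023255552, 0, 0, 0⟩ 0,
  .add 0 45,
  .mul 28 5,
  .sub 0 47,
  .log 5,
  .scale ⟨549755813888, 0, 0, 0⟩ 0,
  .exp 0,
  .const ⟨3298534883328, 0, 0, 0⟩,
  .inv 0,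
  .mul 53 0,
  .const ⟨2199023255552, 0, 0, 0⟩,
  .add 13 0,
  .inv 0,
  .mul 15 0,
  .mul 0 0,
  .sub 59 1,
  .mul 1 6,
  .add 61 0,
  .mul 2 0,
  .mul 4 4,
  .scale ⟨219915747328, 0, 0, 0⟩ 0,
  .mul 24 2,
  .scale ⟨549755813888, 0, 0, 0⟩ 0,
  .mul 26 2,
  .scale ⟨549755813888, 0, 0, 0⟩ 0,
  .add 2 0,
  .mul 52 22,
  .scale ⟨4398046511104, 0, 0, 0⟩ 0,
  .mul 54 48,
  .mul 0 25,
  .scale ⟨4398046511104, 0, 0, 0⟩ 0,
  .add 0 20,
  .inv 0,
  .mul 2 0,
  .mul 0 0,
  .sub 79 1,
  .mul 1 26,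
  .add 81 0,
  .mul 2 0,
  .mul 4 4,
  .scale ⟨219915747328, 0, 0, 0⟩ 0,
  .mul 13 2,
  .scale ⟨549755813888, 0, 0, 0⟩ 0,
  .sub 0 17,
  .mul 16 3,
  .scale ⟨549755813888, 0, 0, 0⟩ 0,
  .add 0 21,
  .add 3 0,
  .mul 89 25,
  .neg 0,
  .exp 0,
  .mul 92 26,
  .mul 1 0,
  .mul 94 9,
  .neg 0,
  .exp 0,
  .mul 97 9,
  .mul 1 0,
  .mul 81 86,
  .add 85 0,
  .inv 0,
  .mul 82 0,
  .mul 84 102,
  .mul 0 1,
  .sub 108 97,
  .mul 84 0,
  .mul 102 102,
  .sub 111 86,
  .mul 3 0,
  .mul 89 65,
  .inv 71,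
  .mul 1 0,
  .add 98 0,
  .mul 74 0,
  .mul 0 0,
  .inv 0,
  .mul 7 0,
  .add 103 97,
  .mul 122 0,
  .inv 0,
  .mul 125 0,
  .mul 0 0,
  .mul 0 13,
  .const ⟨45812285440, 0, 0, 0⟩,
  .scale ⟨1527119872, 0, 0, 0⟩ 1,
  .sub 1 0,
  .mul 3 0,
  .sub 124 0,
  .mul 5 0,
  .sub 133 0,
  .add 39 134,
  .mul 40 40,
  .add 0 136,
  .mul 42 3,
  .scale ⟨2199023255552, 0, 0, 0⟩ 0,
  .add 2 0,
  .scale ⟨4398046511104, 0, 0, 0⟩ 43,
  .sub 1 0,
  .inv 7,
  .mul 1 0,
  .add 0 9,
  .mul 50 37,
  .scale ⟨549755813888, 0, 0, 0⟩ 0,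
  .mul 0 2,
  .sub 6 0,
  .pos 7,
  .pos 0,
  .mul 146 79,
  .scale ⟨2199023255552, 0, 0, 0⟩ 0,
  .scale ⟨183274307584, 0, 0, 0⟩ 0,
  .sub 145 0,
  .mul 2 0,
  .sub 154 0,
  .mul 85 0,
  .inv 7,
  .mul 1 0,
  .mul 155 0,
  .add 0 152,
  .inv 0,
  .mul 3 0,
  .mul 159 0,
  .mul 55 0,
  .scale ⟨549755813888, 0, 0, 0⟩ 0,
  .sub 165 0,
  .sub 166 2,
  .inv 0,
  .mul 2 0,
  .add 5 169,
  .mul 75 0,
  .mul 65 2,
  .mul 174 10,
  .mul 1 0,
  .mul 10 5,
  .pos 8,
  .mul 153 152,
  .add 158 172,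
  .mul 156 159,
  .mul 0 162,
  .scale ⟨2199023255552, 0, 0, 0⟩ 0,
  .add 134 0,
  .mul 4 0,
  .inv 0,
  .mul 7 0,
  .mul 180 0,
  .pos 97,
  .mul 58 70,
  .scale ⟨1527119872, 0, 0, 0⟩ 0,
  .sub 59 0,
  .mul 2 0,
  .sub 182 0,
  .mul 4 0,
  .sub 191 0,
  .add 92 192,
  .mul 93 93,
  .add 0 194,
  .mul 95 3,
  .scale ⟨2199023255552, 0, 0, 0⟩ 0,
  .add 2 0,
  .scale ⟨4398046511104, 0, 0, 0⟩ 96,
  .sub 1 0,
  .inv 7,
  .mul 1 0,
  .add 0 9,
  .mul 103 18,
  .scale ⟨549755813888, 0, 0, 0⟩ 0,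
  .mul 0 2,
  .sub 6 0,
  .pos 7,
  .pos 0,
  .mul 204 115,
  .scale ⟨2199023255552, 0, 0, 0⟩ 0,
  .scale ⟨183274307584, 0, 0, 0⟩ 0,
  .sub 203 0,
  .mul 2 0,
  .sub 212 0,
  .mul 121 0,
  .inv 7,
  .mul 1 0,
  .mul 213 0,
  .add 0 210,
  .inv 0,
  .mul 3 0,
  .mul 217 0,
  .mul 36 0,
  .mul 224 2,
  .add 213 223,
  .inv 0,
  .mul 215 0,
  .scale ⟨2199023255552, 0, 0, 0⟩ 0,
  .sub 227 0,
  .sub 228 218,
  .mul 233 4,
  .mul 0 2,
  .add 208 0,
  .scale ⟨224412041216, 0, 0, 0⟩ 218,
  .inv 196,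
  .mul 1 0,
  .scale ⟨5497558138880, 0, 0, 0⟩ 235,
  .inv 0,
  .mul 238 0,
  .mul 238 1,
  .mul 0 216,
  .mul 0 5,
  .mul 3 218,
  .mul 0 7,
  .sub 243 0,
  .inv 0,
  .mul 74 2,
  .sub 246 0,
  .inv 0,
  .scale ⟨2199023255552, 0, 0, 0⟩ 243,
  .add 0 249,
  .add 245 250,
  .const ⟨893353197568, 0, 0, 0⟩,
  .const ⟨725849473024, 0, 0, 0⟩,
  .sub 0 91,
  .pos 0,
  .mul 244 234,
  .sub 255 145,
  .mul 246 235,
  .scale ⟨2199023255552, 0, 0, 0⟩ 0,
  .sub 2 0,
  .mul 4 4,
  .add 1 0,
  .add 0 261,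
  .scale ⟨549755813888, 0, 0, 0⟩ 0,
  .scale ⟨549755813888, 0, 0, 0⟩ 239,
  .sub 250 0,
  .mul 154 9,
  .mul 0 253,
  .scale ⟨137438953472, 0, 0, 0⟩ 0,
  .add 3 0,
  .mul 6 0,
  .add 99 270,
  .mul 0 26,
  .mul 101 24,
  .add 1 0,
  .mul 31 0,
  .add 100 0,
  .mul 0 271,
  .mul 6 34,
  .mul 0 33,
  .add 104 0,
  .mul 0 275,
  .scale ⟨223338299392, 0, 0, 0⟩ 0,
  .add 275 0,
  .mul 2 0,
  .add 284 0,
  .scale ⟨893353197568, 0, 0, 0⟩ 8,
  .add 286 0,
  .mul 10 0,
  .add 288 0,
  .mul 62 59,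
  .mul 0 40,
  .mul 0 2,
  .mul 22 7,
  .add 242 286,
  .mul 2 0,
  .add 2 0,
  .add 245 296,
  .mul 5 0,
  .mul 47 1,
  .mul 0 69,
  .mul 0 71,
  .mul 5 127,
  .mul 1 50,
  .add 1 0,
  .mul 306 72,
  .inv 254,
  .mul 1 0,
  .scale ⟨549755813888, 0, 0, 0⟩ 0,
  .mul 286 0,
  .add 0 5,
  .mul 306 0,
  .mul 311 0,
  .mul 16 41,
  .mul 0 68,
  .mul 16 143,
  .mul 0 67,
  .add 2 0,
  .mul 295 5,
  .mul 77 1,
  .add 1 0,
  .mul 209 0,
  .mul 0 15,
  .sub 322 0,
  .inv 0,
  .mul 4 0,
  .mul 321 0,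
  .mul 215 1,
  .mul 0 21,
  .sub 328 0,
  .mul 281 0,
  .sub 0 4,
  .inv 0,
  .mul 6 0,
  .sub 282 6,
  .inv 0,
  .mul 2 114,
  .scale ⟨549755813888, 0, 0, 0⟩ 0,
  .sub 337 0,
  .sub 338 2,
  .inv 0,
  .mul 2 0,
  .mul 343 6,
  .mul 119 10,
  .mul 0 2,
  .add 2 0,
  .mul 339 20,
  .mul 11 0,
  .mul 126 15,
  .mul 0 7,
  .mul 0 23,
  .add 3 0,
  .scale ⟨223338299392, 0, 0, 0⟩ 0,
  .add 345 0,
  .mul 2 0,
  .add 354 0,
  .mul 10 0,
  .mul 0 32,
  .mul 0 40,
  .mul 116 336,
  .const ⟨5497558138880, 0, 0, 0⟩,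
  .inv 0,
  .mul 309 0,
  .mul 138 339,
  .mul 0 1,
  .mul 187 259,
  .mul 344 0,
  .scale ⟨549755813888, 0, 0, 0⟩ 144,
  .sub 367 0,
  .sub 368 146,
  .inv 0,
  .mul 2 0,
  .mul 0 186,
  .mul 261 251,
  .scale ⟨733097230336, 0, 0, 0⟩ 0,
  .sub 374 0,
  .mul 254 0,
  .mul 288 288,
  .mul 366 0,
  .add 2 0,
  .mul 7 156,
  .add 1 380,
  .mul 1 0,
  .sub 3 0,
  .scale ⟨366548615168, 0, 0, 0⟩ 339,
  .sub 384 0,
  .mul 360 0,
  .add 3 0,
  .mul 22 0,
  .mul 22 22,
  .add 389 0,
  .inv 0,
  .mul 3 0,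
  .sub 392 59,
  .mul 0 1,
  .sub 394 14,
  .pos 0,
  .pos 3,
  .pos 2,
  .mul 38 159,
  .mul 0 86,
  .inv 374,
  .mul 1 0,
  .mul 396 5,
  .scale ⟨549755813888, 0, 0, 0⟩ 0,
  .sub 401 0,
  .mul 8 0,
  .neg 0,
  .mul 406 408,
  .mul 0 181,
  .mul 0 392,
  .mul 405 0,
  .add 4 0,
  .mul 5 1,
  .mul 407 0,
  .add 2 0,
  .mul 401 371,
  .scale ⟨412316860416, 0, 0, 0⟩ 371,
  .sub 407 0,
  .mul 2 0,
  .mul 414 0,
  .neg 0,
  .add 6 0,
  .mul 7 1,
  .mul 417 0,
  .add 2 0,
  .mul 424 97,
  .mul 0 25,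
  .mul 422 0,
  .add 3 0,
  .mul 4 1,
  .mul 424 0,
  .add 2 0,
  .mul 427 65,
  .sub 1 0,
  .mul 427 67,
  .add 432 0,
  .inv 0,
  .mul 3 0,
  .mul 437 427,
  .mul 0 111,
  .mul 0 102,
  .mul 436 0,
  .add 4 0,
  .mul 5 1,
  .mul 438 0,
  .add 2 0,
  .mul 440 0,
  .add 444 0,
  .mul 87 202,
  .mul 442 87,
  .mul 48 0,
  .add 2 0,
  .mul 447 0,
  .add 92 51,
  .mul 449 0,
  .mul 2 7,
  .add 10 0,
  .add 0 2,
  .neg 0,
  .scale ⟨1073741824, 0, 0, 0⟩ 454,
  .sub 1 0,
  .sub 439 458,
  .add 0 404,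
  .scale ⟨2199023255552, 0, 0, 0⟩ 98,
  .sub 1 0,
  .mul 238 0,
  .mul 4 2,
  .add 0 464,
  .inv 0,
  .mul 3 0,
  .mul 228 150,
  .scale ⟨549755813888, 0, 0, 0⟩ 233,
  .add 453 0,
  .mul 2 0,
  .scale ⟨2199023255552, 0, 0, 0⟩ 0,
  .add 160 0,
  .scale ⟨2199023255552, 0, 0, 0⟩ 0,
  .mul 0 150,
  .mul 467 150,
  .sub 453 0,
  .inv 0,
  .mul 3 0,
  .sub 12 0,
  .mul 481 460,
  .mul 0 0,
  .const ⟨14293651161088, 0, 0, 0⟩,
  .const ⟨10995116277760, 0, 0, 0⟩,
  .inv 0,
  .mul 2 0,
  .mul 4 0,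
  .mul 487 487,
  .scale ⟨27487790694400, 0, 0, 0⟩ 0,
  .add 2 0,
  .mul 126 56,
  .sub 452 487,
  .sub 0 454,
  .mul 490 493,
  .mul 471 177,
  .mul 0 258,
  .add 192 0,
  .add 21 442,
  .mul 499 0,
  .mul 9 8,
  .mul 176 1,
  .mul 7 4,
  .mul 1 0,
  .sub 3 0,
  .scale ⟨549755813888, 0, 0, 0⟩ 28,
  .add 505 0,
  .mul 182 0,
  .mul 503 485,
  .mul 0 276,
  .mul 486 458,
  .inv 0,
  .mul 2 0,
  .mul 5 0,
  .sub 20 0,
  .mul 279 10,
  .sub 515 280,
  .mul 505 2,
  .mul 1 0,
  .mul 28 0,
  .add 4 0,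
  .pos 276,
  .pos 273,
  .scale ⟨2199023255552, 0, 0, 0⟩ 199,
  .sub 470 0,
  .pos 0,
  .pos 191,
  .sub 515 300,
  .pos 0,
  .scale ⟨687194767360, 0, 0, 0⟩ 523,
  .sub 0 243,
  .pos 0,
  .scale ⟨377957122048, 0, 0, 0⟩ 525,
  .sub 0 249,
  .pos 0,
  .pos 50,
  .pos 188,
  .sub 3 176,
  .pos 0,
  .pos 48,
  .pos 70,
  .pos 8,
  .pos 14]

def chk1 {α : Type} (cst : Z → α) (add sub mul : α → α → α) (scale : Z → α → α)
    (neg inv exp log : α → α) (ok : α → Bool) (isPos : Nat → α → Bool) (isLt : α → Nat → Bool) :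
    List α → Bool
  | [x0, x1, x2, x3] =>
  let v0 := cst ⟨1099511627776, 0, 0, 0⟩; ok v0 && (
  let v1 := mul x1 x2; ok v1 && (
  let v2 := mul x2 x2; ok v2 && (
  let v3 := mul x0 x1; ok v3 && (
  let v4 := mul v3 v2; ok v4 && (
  let v5 := mul v1 v1; ok v5 && (
  let v6 := mul v4 v3; ok v6 && (
  let v7 := cst ⟨549755813888, 0, 0, 0⟩; ok v7 && (
  let v8 := mul v4 x1; ok v8 && (
  let v9 := mul v8 x3; ok v9 && (
  let v10 := scale ⟨549755813888, 0, 0, 0⟩ v9; ok v10 && (
  let v11 := mul x1 x1; ok v11 && (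
  let v12 := mul v10 v10; ok v12 && (
  let v13 := sub v0 v12; ok v13 && (
  let v14 := inv v13; ok v14 && (
  let v15 := mul v10 v14; ok v15 && (
  let v16 := scale ⟨2199023255552, 0, 0, 0⟩ v15; ok v16 && (
  let v17 := scale ⟨2199023255552, 0, 0, 0⟩ v14; ok v17 && (
  let v18 := sub v17 v0; ok v18 && (
  let v19 := add v18 v16; ok v19 && (
  let v20 := mul x3 v14; ok v20 && (
  let v21 := mul x1 v20; ok v21 && (
  let v22 := sub v0 v21; ok v22 && (
  let v23 := add v0 v21; ok v23 && (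
  let v24 := mul v4 v11; ok v24 && (
  let v25 := mul v20 v20; ok v25 && (
  let v26 := scale ⟨10774999203840, 0, 0, 0⟩ v10; ok v26 && (
  let v27 := scale ⟨45768245248, 0, 0, 0⟩ v26; ok v27 && (
  let v28 := cst ⟨183207198720, 0, 0, 0⟩; ok v28 && (
  let v29 := add v27 v28; ok v29 && (
  let v30 := mul v26 v29; ok v30 && (
  let v31 := add v7 v30; ok v31 && (
  let v32 := mul v26 v31; ok v32 && (
  let v33 := add v0 v32; ok v33 && (
  let v34 := mul v26 v33; ok v34 && (
  let v35 := scale ⟨549755813888, 0, 0, 0⟩ v34; ok v35 && (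
  let v36 := add v0 v35; ok v36 && (
  let v37 := mul v33 v36; ok v37 && (
  let v38 := mul v16 v21; ok v38 && (
  let v39 := scale ⟨2199023255552, 0, 0, 0⟩ v18; ok v39 && (
  let v40 := add v38 v39; ok v40 && (
  let v41 := add v40 v4; ok v41 && (
  let v42 := mul v24 v41; ok v42 && (
  let v43 := add v42 v0; ok v43 && (
  let v44 := mul v16 v16; ok v44 && (
  let v45 := scale ⟨2199023255552, 0, 0, 0⟩ v44; ok v45 && (
  let v46 := add v45 v0; ok v46 && (
  let v47 := mul v18 v41; ok v47 && (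
  let v48 := sub v47 v0; ok v48 && (
  let v49 := log v43; ok v49 && (
  let v50 := scale ⟨549755813888, 0, 0, 0⟩ v49; ok v50 && (
  let v51 := exp v50; ok v51 && (
  let v52 := cst ⟨3298534883328, 0, 0, 0⟩; ok v52 && (
  let v53 := inv v52; ok v53 && (
  let v54 := mul v0 v53; ok v54 && (
  let v55 := cst ⟨2199023255552, 0, 0, 0⟩; ok v55 && (
  let v56 := add v42 v55; ok v56 && (
  let v57 := inv v56; ok v57 && (
  let v58 := mul v42 v57; ok v58 && (
  let v59 := mul v58 v58; ok v59 && (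
  let v60 := sub v0 v58; ok v60 && (
  let v61 := mul v59 v54; ok v61 && (
  let v62 := add v0 v61; ok v62 && (
  let v63 := mul v60 v62; ok v63 && (
  let v64 := mul v59 v59; ok v64 && (
  let v65 := scale ⟨219915747328, 0, 0, 0⟩ v64; ok v65 && (
  let v66 := mul v41 v63; ok v66 && (
  let v67 := scale ⟨549755813888, 0, 0, 0⟩ v66; ok v67 && (
  let v68 := mul v41 v65; ok v68 && (
  let v69 := scale ⟨549755813888, 0, 0, 0⟩ v68; ok v69 && (
  let v70 := add v67 v69; ok v70 && (
  let v71 := mul v18 v48; ok v71 && (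
  let v72 := scale ⟨4398046511104, 0, 0, 0⟩ v71; ok v72 && (
  let v73 := mul v18 v24; ok v73 && (
  let v74 := mul v73 v48; ok v74 && (
  let v75 := scale ⟨4398046511104, 0, 0, 0⟩ v74; ok v75 && (
  let v76 := add v75 v55; ok v76 && (
  let v77 := inv v76; ok v77 && (
  let v78 := mul v75 v77; ok v78 && (
  let v79 := mul v78 v78; ok v79 && (
  let v80 := sub v0 v78; ok v80 && (
  let v81 := mul v79 v54; ok v81 && (
  let v82 := add v0 v81; ok v82 && (
  let v83 := mul v80 v82; ok v83 && (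
  let v84 := mul v79 v79; ok v84 && (
  let v85 := scale ⟨219915747328, 0, 0, 0⟩ v84; ok v85 && (
  let v86 := mul v72 v83; ok v86 && (
  let v87 := scale ⟨549755813888, 0, 0, 0⟩ v86; ok v87 && (
  let v88 := sub v87 v70; ok v88 && (
  let v89 := mul v72 v85; ok v89 && (
  let v90 := scale ⟨549755813888, 0, 0, 0⟩ v89; ok v90 && (
  let v91 := add v90 v69; ok v91 && (
  let v92 := add v88 v91; ok v92 && (
  let v93 := mul v3 v67; ok v93 && (
  let v94 := neg v93; ok v94 && (
  let v95 := exp v94; ok v95 && (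
  let v96 := mul v3 v69; ok v96 && (
  let v97 := mul v95 v96; ok v97 && (
  let v98 := mul v3 v88; ok v98 && (
  let v99 := neg v98; ok v99 && (
  let v100 := exp v99; ok v100 && (
  let v101 := mul v3 v91; ok v101 && (
  let v102 := mul v100 v101; ok v102 && (
  let v103 := mul v21 v16; ok v103 && (
  let v104 := add v18 v103; ok v104 && (
  let v105 := inv v104; ok v105 && (
  let v106 := mul v23 v105; ok v106 && (
  let v107 := mul v22 v4; ok v107 && (
  let v108 := mul v107 v106; ok v108 && (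
  let v109 := sub v0 v11; ok v109 && (
  let v110 := mul v25 v109; ok v110 && (
  let v111 := mul v8 v8; ok v111 && (
  let v112 := sub v0 v25; ok v112 && (
  let v113 := mul v109 v112; ok v113 && (
  let v114 := mul v24 v48; ok v114 && (
  let v115 := inv v43; ok v115 && (
  let v116 := mul v114 v115; ok v116 && (
  let v117 := add v18 v116; ok v117 && (
  let v118 := mul v43 v117; ok v118 && (
  let v119 := mul v118 v118; ok v119 && (
  let v120 := inv v119; ok v120 && (
  let v121 := mul v113 v120; ok v121 && (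
  let v122 := add v18 v24; ok v122 && (
  let v123 := mul v0 v122; ok v123 && (
  let v124 := inv v123; ok v124 && (
  let v125 := mul x0 v124; ok v125 && (
  let v126 := mul v125 v125; ok v126 && (
  let v127 := mul v126 v113; ok v127 && (
  let v128 := cst ⟨45812285440, 0, 0, 0⟩; ok v128 && (
  let v129 := scale ⟨1527119872, 0, 0, 0⟩ v127; ok v129 && (
  let v130 := sub v128 v129; ok v130 && (
  let v131 := mul v127 v130; ok v131 && (
  let v132 := sub v7 v131; ok v132 && (
  let v133 := mul v127 v132; ok v133 && (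
  let v134 := sub v0 v133; ok v134 && (
  let v135 := add v95 v0; ok v135 && (
  let v136 := mul v95 v95; ok v136 && (
  let v137 := add v136 v0; ok v137 && (
  let v138 := mul v95 v134; ok v138 && (
  let v139 := scale ⟨2199023255552, 0, 0, 0⟩ v138; ok v139 && (
  let v140 := add v137 v139; ok v140 && (
  let v141 := scale ⟨4398046511104, 0, 0, 0⟩ v97; ok v141 && (
  let v142 := sub v140 v141; ok v142 && (
  let v143 := inv v135; ok v143 && (
  let v144 := mul v142 v143; ok v144 && (
  let v145 := add v144 v135; ok v145 && (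
  let v146 := mul v95 v108; ok v146 && (
  let v147 := scale ⟨549755813888, 0, 0, 0⟩ v146; ok v147 && (
  let v148 := mul v147 v145; ok v148 && (
  let v149 := sub v142 v148; ok v149 && (
  isPos 4 v142 && (
  isPos 4 v149 && (
  let v150 := mul v3 v70; ok v150 && (
  let v151 := scale ⟨2199023255552, 0, 0, 0⟩ v150; ok v151 && (
  let v152 := scale ⟨183274307584, 0, 0, 0⟩ v151; ok v152 && (
  let v153 := sub v7 v152; ok v153 && (
  let v154 := mul v151 v153; ok v154 && (
  let v155 := sub v0 v154; ok v155 && (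
  let v156 := mul v70 v155; ok v156 && (
  let v157 := inv v149; ok v157 && (
  let v158 := mul v156 v157; ok v158 && (
  let v159 := mul v3 v158; ok v159 && (
  let v160 := add v159 v7; ok v160 && (
  let v161 := inv v160; ok v161 && (
  let v162 := mul v158 v161; ok v162 && (
  let v163 := mul v3 v162; ok v163 && (
  let v164 := mul v108 v163; ok v164 && (
  let v165 := scale ⟨549755813888, 0, 0, 0⟩ v164; ok v165 && (
  let v166 := sub v0 v165; ok v166 && (
  let v167 := sub v0 v164; ok v167 && (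
  let v168 := inv v167; ok v168 && (
  let v169 := mul v166 v168; ok v169 && (
  let v170 := add v164 v0; ok v170 && (
  let v171 := mul v95 v170; ok v171 && (
  let v172 := mul v106 v169; ok v172 && (
  let v173 := mul x1 v162; ok v173 && (
  let v174 := mul v172 v173; ok v174 && (
  let v175 := mul v164 v169; ok v175 && (
  isPos 4 v167 && (
  let v176 := mul v22 v23; ok v176 && (
  let v177 := add v18 v4; ok v177 && (
  let v178 := mul v21 v18; ok v178 && (
  let v179 := mul v178 v16; ok v179 && (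
  let v180 := scale ⟨2199023255552, 0, 0, 0⟩ v179; ok v180 && (
  let v181 := add v46 v180; ok v181 && (
  let v182 := mul v177 v181; ok v182 && (
  let v183 := inv v182; ok v183 && (
  let v184 := mul v176 v183; ok v184 && (
  let v185 := mul v4 v184; ok v185 && (
  isPos 4 v88 && (
  let v186 := mul v127 v115; ok v186 && (
  let v187 := scale ⟨1527119872, 0, 0, 0⟩ v186; ok v187 && (
  let v188 := sub v128 v187; ok v188 && (
  let v189 := mul v186 v188; ok v189 && (
  let v190 := sub v7 v189; ok v190 && (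
  let v191 := mul v186 v190; ok v191 && (
  let v192 := sub v0 v191; ok v192 && (
  let v193 := add v100 v0; ok v193 && (
  let v194 := mul v100 v100; ok v194 && (
  let v195 := add v194 v0; ok v195 && (
  let v196 := mul v100 v192; ok v196 && (
  let v197 := scale ⟨2199023255552, 0, 0, 0⟩ v196; ok v197 && (
  let v198 := add v195 v197; ok v198 && (
  let v199 := scale ⟨4398046511104, 0, 0, 0⟩ v102; ok v199 && (
  let v200 := sub v198 v199; ok v200 && (
  let v201 := inv v193; ok v201 && (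
  let v202 := mul v200 v201; ok v202 && (
  let v203 := add v202 v193; ok v203 && (
  let v204 := mul v100 v185; ok v204 && (
  let v205 := scale ⟨549755813888, 0, 0, 0⟩ v204; ok v205 && (
  let v206 := mul v205 v203; ok v206 && (
  let v207 := sub v200 v206; ok v207 && (
  isPos 4 v200 && (
  isPos 4 v207 && (
  let v208 := mul v3 v92; ok v208 && (
  let v209 := scale ⟨2199023255552, 0, 0, 0⟩ v208; ok v209 && (
  let v210 := scale ⟨183274307584, 0, 0, 0⟩ v209; ok v210 && (
  let v211 := sub v7 v210; ok v211 && (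
  let v212 := mul v209 v211; ok v212 && (
  let v213 := sub v0 v212; ok v213 && (
  let v214 := mul v92 v213; ok v214 && (
  let v215 := inv v207; ok v215 && (
  let v216 := mul v214 v215; ok v216 && (
  let v217 := mul v3 v216; ok v217 && (
  let v218 := add v217 v7; ok v218 && (
  let v219 := inv v218; ok v219 && (
  let v220 := mul v216 v219; ok v220 && (
  let v221 := mul v3 v220; ok v221 && (
  let v222 := mul v185 v221; ok v222 && (
  let v223 := mul x1 v220; ok v223 && (
  let v224 := add v10 v0; ok v224 && (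
  let v225 := inv v224; ok v225 && (
  let v226 := mul v10 v225; ok v226 && (
  let v227 := scale ⟨2199023255552, 0, 0, 0⟩ v226; ok v227 && (
  let v228 := sub v0 v227; ok v228 && (
  let v229 := sub v0 v10; ok v229 && (
  let v230 := mul x3 v225; ok v230 && (
  let v231 := mul v230 v228; ok v231 && (
  let v232 := add v23 v231; ok v232 && (
  let v233 := scale ⟨224412041216, 0, 0, 0⟩ v14; ok v233 && (
  let v234 := inv v37; ok v234 && (
  let v235 := mul v233 v234; ok v235 && (
  let v236 := scale ⟨5497558138880, 0, 0, 0⟩ v0; ok v236 && (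
  let v237 := inv v236; ok v237 && (
  let v238 := mul x0 v237; ok v238 && (
  let v239 := mul v0 v237; ok v239 && (
  let v240 := mul v239 v23; ok v240 && (
  let v241 := mul v240 v235; ok v241 && (
  let v242 := mul v238 v23; ok v242 && (
  let v243 := mul v242 v235; ok v243 && (
  let v244 := sub v0 v243; ok v244 && (
  let v245 := inv v244; ok v245 && (
  let v246 := mul v171 v243; ok v246 && (
  let v247 := sub v0 v246; ok v247 && (
  let v248 := inv v247; ok v248 && (
  let v249 := scale ⟨2199023255552, 0, 0, 0⟩ v5; ok v249 && (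
  let v250 := add v249 v0; ok v250 && (
  let v251 := add v5 v0; ok v251 && (
  let v252 := cst ⟨893353197568, 0, 0, 0⟩; ok v252 && (
  let v253 := cst ⟨725849473024, 0, 0, 0⟩; ok v253 && (
  let v254 := sub v253 v162; ok v254 && (
  isPos 4 v254 && (
  let v255 := mul v10 v20; ok v255 && (
  let v256 := sub v0 v110; ok v256 && (
  let v257 := mul v10 v21; ok v257 && (
  let v258 := scale ⟨2199023255552, 0, 0, 0⟩ v257; ok v258 && (
  let v259 := sub v256 v258; ok v259 && (
  let v260 := mul v255 v255; ok v260 && (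
  let v261 := add v259 v260; ok v261 && (
  let v262 := add v261 v0; ok v262 && (
  let v263 := scale ⟨549755813888, 0, 0, 0⟩ v262; ok v263 && (
  let v264 := scale ⟨549755813888, 0, 0, 0⟩ v24; ok v264 && (
  let v265 := sub v14 v264; ok v265 && (
  let v266 := mul v111 v256; ok v266 && (
  let v267 := mul v266 v13; ok v267 && (
  let v268 := scale ⟨137438953472, 0, 0, 0⟩ v267; ok v268 && (
  let v269 := add v265 v268; ok v269 && (
  let v270 := mul v263 v269; ok v270 && (
  let v271 := add v171 v0; ok v271 && (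
  let v272 := mul v271 v245; ok v272 && (
  let v273 := mul v171 v248; ok v273 && (
  let v274 := add v272 v273; ok v274 && (
  let v275 := mul v243 v274; ok v275 && (
  let v276 := add v175 v275; ok v276 && (
  let v277 := mul v276 v5; ok v277 && (
  let v278 := mul v271 v243; ok v278 && (
  let v279 := mul v278 v245; ok v279 && (
  let v280 := add v175 v279; ok v280 && (
  let v281 := mul v280 v5; ok v281 && (
  let v282 := scale ⟨223338299392, 0, 0, 0⟩ v281; ok v282 && (
  let v283 := add v7 v282; ok v283 && (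
  let v284 := mul v281 v283; ok v284 && (
  let v285 := add v0 v284; ok v285 && (
  let v286 := scale ⟨893353197568, 0, 0, 0⟩ v277; ok v286 && (
  let v287 := add v0 v286; ok v287 && (
  let v288 := mul v277 v287; ok v288 && (
  let v289 := add v0 v288; ok v289 && (
  let v290 := mul v227 v230; ok v290 && (
  let v291 := mul v290 v250; ok v291 && (
  let v292 := mul v291 v289; ok v292 && (
  let v293 := mul v270 v285; ok v293 && (
  let v294 := add v51 v7; ok v294 && (
  let v295 := mul v292 v294; ok v295 && (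
  let v296 := add v293 v295; ok v296 && (
  let v297 := add v51 v0; ok v297 && (
  let v298 := mul v292 v297; ok v298 && (
  let v299 := mul v251 v297; ok v299 && (
  let v300 := mul v299 v230; ok v300 && (
  let v301 := mul v300 v229; ok v301 && (
  let v302 := mul v296 v174; ok v302 && (
  let v303 := mul v301 v252; ok v303 && (
  let v304 := add v302 v303; ok v304 && (
  let v305 := mul x1 v232; ok v305 && (
  let v306 := inv v51; ok v306 && (
  let v307 := mul v305 v306; ok v307 && (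
  let v308 := scale ⟨549755813888, 0, 0, 0⟩ v307; ok v308 && (
  let v309 := mul v22 v308; ok v309 && (
  let v310 := add v309 v304; ok v310 && (
  let v311 := mul v4 v310; ok v311 && (
  let v312 := mul v0 v311; ok v312 && (
  let v313 := mul v296 v271; ok v313 && (
  let v314 := mul v313 v245; ok v314 && (
  let v315 := mul v298 v171; ok v315 && (
  let v316 := mul v315 v248; ok v316 && (
  let v317 := add v314 v316; ok v317 && (
  let v318 := mul v22 v312; ok v318 && (
  let v319 := mul v241 v317; ok v319 && (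
  let v320 := add v318 v319; ok v320 && (
  let v321 := mul v111 v320; ok v321 && (
  let v322 := mul v321 v306; ok v322 && (
  let v323 := sub v0 v322; ok v323 && (
  let v324 := inv v323; ok v324 && (
  let v325 := mul v320 v324; ok v325 && (
  let v326 := mul v4 v325; ok v326 && (
  let v327 := mul v111 v325; ok v327 && (
  let v328 := mul v327 v306; ok v328 && (
  let v329 := sub v0 v328; ok v329 && (
  let v330 := mul v48 v329; ok v330 && (
  let v331 := sub v330 v326; ok v331 && (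
  let v332 := inv v331; ok v332 && (
  let v333 := mul v326 v332; ok v333 && (
  let v334 := sub v51 v327; ok v334 && (
  let v335 := inv v334; ok v335 && (
  let v336 := mul v333 v221; ok v336 && (
  let v337 := scale ⟨549755813888, 0, 0, 0⟩ v336; ok v337 && (
  let v338 := sub v0 v337; ok v338 && (
  let v339 := sub v0 v336; ok v339 && (
  let v340 := inv v339; ok v340 && (
  let v341 := mul v338 v340; ok v341 && (
  let v342 := mul x1 v335; ok v342 && (
  let v343 := mul v223 v332; ok v343 && (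
  let v344 := mul v343 v341; ok v344 && (
  let v345 := add v342 v344; ok v345 && (
  let v346 := mul v6 v325; ok v346 && (
  let v347 := mul v335 v346; ok v347 && (
  let v348 := mul v221 v332; ok v348 && (
  let v349 := mul v348 v341; ok v349 && (
  let v350 := mul v349 v326; ok v350 && (
  let v351 := add v347 v350; ok v351 && (
  let v352 := scale ⟨223338299392, 0, 0, 0⟩ v351; ok v352 && (
  let v353 := add v7 v352; ok v353 && (
  let v354 := mul v351 v353; ok v354 && (
  let v355 := add v0 v354; ok v355 && (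
  let v356 := mul v345 v355; ok v356 && (
  let v357 := mul v356 v324; ok v357 && (
  let v358 := mul v357 v317; ok v358 && (
  let v359 := mul v242 v22; ok v359 && (
  let v360 := cst ⟨5497558138880, 0, 0, 0⟩; ok v360 && (
  let v361 := inv v360; ok v361 && (
  let v362 := mul v52 v361; ok v362 && (
  let v363 := mul v224 v23; ok v363 && (
  let v364 := mul v363 v362; ok v364 && (
  let v365 := mul v177 v105; ok v365 && (
  let v366 := mul v21 v365; ok v366 && (
  let v367 := scale ⟨549755813888, 0, 0, 0⟩ v222; ok v367 && (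
  let v368 := sub v0 v367; ok v368 && (
  let v369 := sub v0 v222; ok v369 && (
  let v370 := inv v369; ok v370 && (
  let v371 := mul v368 v370; ok v371 && (
  let v372 := mul v371 v185; ok v372 && (
  let v373 := mul v111 v121; ok v373 && (
  let v374 := scale ⟨733097230336, 0, 0, 0⟩ v373; ok v374 && (
  let v375 := sub v0 v374; ok v375 && (
  let v376 := mul v121 v375; ok v376 && (
  let v377 := mul v88 v88; ok v377 && (
  let v378 := mul v11 v377; ok v378 && (
  let v379 := add v376 v378; ok v379 && (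
  let v380 := mul v372 v223; ok v380 && (
  let v381 := add v379 v0; ok v381 && (
  let v382 := mul v380 v381; ok v382 && (
  let v383 := sub v379 v382; ok v383 && (
  let v384 := scale ⟨366548615168, 0, 0, 0⟩ v44; ok v384 && (
  let v385 := sub v0 v384; ok v385 && (
  let v386 := mul v25 v385; ok v386 && (
  let v387 := add v383 v386; ok v387 && (
  let v388 := mul v365 v387; ok v388 && (
  let v389 := mul v366 v366; ok v389 && (
  let v390 := add v0 v389; ok v390 && (
  let v391 := inv v390; ok v391 && (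
  let v392 := mul v388 v391; ok v392 && (
  let v393 := sub v0 v333; ok v393 && (
  let v394 := mul v393 v392; ok v394 && (
  let v395 := sub v0 v380; ok v395 && (
  isPos 4 v395 && (
  isPos 4 v392 && (
  isPos 4 v393 && (
  let v396 := mul v357 v236; ok v396 && (
  let v397 := mul v396 v310; ok v397 && (
  let v398 := inv v23; ok v398 && (
  let v399 := mul v397 v398; ok v399 && (
  let v400 := mul v3 v394; ok v400 && (
  let v401 := scale ⟨549755813888, 0, 0, 0⟩ v400; ok v401 && (
  let v402 := sub v0 v401; ok v402 && (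
  let v403 := mul v394 v402; ok v403 && (
  let v404 := neg v403; ok v404 && (
  let v405 := mul x1 x3; ok v405 && (
  let v406 := mul v405 v224; ok v406 && (
  let v407 := mul v406 v14; ok v407 && (
  let v408 := mul v2 v407; ok v408 && (
  let v409 := add v404 v408; ok v409 && (
  let v410 := mul v404 v408; ok v410 && (
  let v411 := mul v3 v410; ok v411 && (
  let v412 := add v409 v411; ok v412 && (
  let v413 := mul v11 v41; ok v413 && (
  let v414 := scale ⟨412316860416, 0, 0, 0⟩ v42; ok v414 && (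
  let v415 := sub v7 v414; ok v415 && (
  let v416 := mul v413 v415; ok v416 && (
  let v417 := mul v2 v416; ok v417 && (
  let v418 := neg v417; ok v418 && (
  let v419 := add v412 v418; ok v419 && (
  let v420 := mul v412 v418; ok v420 && (
  let v421 := mul v3 v420; ok v421 && (
  let v422 := add v419 v421; ok v422 && (
  let v423 := mul x1 v325; ok v423 && (
  let v424 := mul v423 v398; ok v424 && (
  let v425 := mul v2 v424; ok v425 && (
  let v426 := add v422 v425; ok v426 && (
  let v427 := mul v422 v425; ok v427 && (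
  let v428 := mul v3 v427; ok v428 && (
  let v429 := add v426 v428; ok v429 && (
  let v430 := mul v2 v364; ok v430 && (
  let v431 := sub v429 v430; ok v431 && (
  let v432 := mul v4 v364; ok v432 && (
  let v433 := add v0 v432; ok v433 && (
  let v434 := inv v433; ok v434 && (
  let v435 := mul v431 v434; ok v435 && (
  let v436 := mul x1 v8; ok v436 && (
  let v437 := mul v436 v325; ok v437 && (
  let v438 := mul v437 v335; ok v438 && (
  let v439 := mul v2 v438; ok v439 && (
  let v440 := add v435 v439; ok v440 && (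
  let v441 := mul v435 v439; ok v441 && (
  let v442 := mul v3 v441; ok v442 && (
  let v443 := add v440 v442; ok v443 && (
  let v444 := mul v3 v443; ok v444 && (
  let v445 := add v0 v444; ok v445 && (
  let v446 := mul v358 v243; ok v446 && (
  let v447 := mul v4 v359; ok v447 && (
  let v448 := mul v399 v447; ok v448 && (
  let v449 := add v446 v448; ok v449 && (
  let v450 := mul v2 v449; ok v450 && (
  let v451 := add v358 v399; ok v451 && (
  let v452 := mul v2 v451; ok v452 && (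
  let v453 := mul v450 v445; ok v453 && (
  let v454 := add v443 v453; ok v454 && (
  let v455 := add v454 v452; ok v455 && (
  let v456 := neg v455; ok v456 && (
  let v457 := scale ⟨1073741824, 0, 0, 0⟩ v2; ok v457 && (
  let v458 := sub v456 v457; ok v458 && (
  let v459 := sub v19 v0; ok v459 && (
  let v460 := add v459 v55; ok v460 && (
  let v461 := scale ⟨2199023255552, 0, 0, 0⟩ v362; ok v461 && (
  let v462 := sub v460 v461; ok v462 && (
  let v463 := mul v224 v462; ok v463 && (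
  let v464 := mul v459 v461; ok v464 && (
  let v465 := add v464 v0; ok v465 && (
  let v466 := inv v465; ok v466 && (
  let v467 := mul v463 v466; ok v467 && (
  let v468 := mul v239 v317; ok v468 && (
  let v469 := scale ⟨549755813888, 0, 0, 0⟩ v235; ok v469 && (
  let v470 := add v16 v469; ok v470 && (
  let v471 := mul v468 v470; ok v471 && (
  let v472 := scale ⟨2199023255552, 0, 0, 0⟩ v471; ok v472 && (
  let v473 := add v312 v472; ok v473 && (
  let v474 := scale ⟨2199023255552, 0, 0, 0⟩ v473; ok v474 && (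
  let v475 := mul v474 v324; ok v475 && (
  let v476 := mul v8 v325; ok v476 && (
  let v477 := sub v23 v476; ok v477 && (
  let v478 := inv v477; ok v478 && (
  let v479 := mul v475 v478; ok v479 && (
  let v480 := sub v467 v479; ok v480 && (
  let v481 := mul x0 v20; ok v481 && (
  let v482 := mul v481 v481; ok v482 && (
  let v483 := cst ⟨14293651161088, 0, 0, 0⟩; ok v483 && (
  let v484 := cst ⟨10995116277760, 0, 0, 0⟩; ok v484 && (
  let v485 := inv v484; ok v485 && (
  let v486 := mul v483 v485; ok v486 && (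
  let v487 := mul v482 v486; ok v487 && (
  let v488 := mul v0 v0; ok v488 && (
  let v489 := scale ⟨27487790694400, 0, 0, 0⟩ v488; ok v489 && (
  let v490 := add v487 v489; ok v490 && (
  let v491 := mul v364 v434; ok v491 && (
  let v492 := sub v39 v4; ok v492 && (
  let v493 := sub v492 v38; ok v493 && (
  let v494 := mul v3 v0; ok v494 && (
  let v495 := mul v23 v317; ok v495 && (
  let v496 := mul v495 v237; ok v496 && (
  let v497 := add v304 v496; ok v497 && (
  let v498 := add v476 v55; ok v498 && (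
  let v499 := mul x0 v498; ok v499 && (
  let v500 := mul v490 v491; ok v500 && (
  let v501 := mul v324 v499; ok v501 && (
  let v502 := mul v494 v497; ok v502 && (
  let v503 := mul v501 v502; ok v503 && (
  let v504 := sub v500 v503; ok v504 && (
  let v505 := scale ⟨549755813888, 0, 0, 0⟩ v476; ok v505 && (
  let v506 := add v0 v505; ok v506 && (
  let v507 := mul v324 v506; ok v507 && (
  let v508 := mul v4 v22; ok v508 && (
  let v509 := mul v508 v232; ok v509 && (
  let v510 := mul v23 v51; ok v510 && (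
  let v511 := inv v510; ok v511 && (
  let v512 := mul v509 v511; ok v512 && (
  let v513 := mul v507 v512; ok v513 && (
  let v514 := sub v493 v513; ok v514 && (
  let v515 := mul v235 v504; ok v515 && (
  let v516 := sub v0 v235; ok v516 && (
  let v517 := mul v11 v514; ok v517 && (
  let v518 := mul v516 v517; ok v518 && (
  let v519 := mul v490 v518; ok v519 && (
  let v520 := add v515 v519; ok v520 && (
  isPos 4 v244 && (
  isPos 4 v247 && (
  let v521 := scale ⟨2199023255552, 0, 0, 0⟩ v321; ok v521 && (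
  let v522 := sub v51 v521; ok v522 && (
  isPos 4 v522 && (
  isPos 4 v331 && (
  let v523 := sub v7 v222; ok v523 && (
  isPos 4 v523 && (
  let v524 := scale ⟨687194767360, 0, 0, 0⟩ v0; ok v524 && (
  let v525 := sub v524 v281; ok v525 && (
  isPos 4 v525 && (
  let v526 := scale ⟨377957122048, 0, 0, 0⟩ v0; ok v526 && (
  let v527 := sub v526 v277; ok v527 && (
  isPos 4 v527 && (
  isPos 4 v477 && (
  isPos 4 v339 && (
  let v528 := sub v524 v351; ok v528 && (
  isPos 4 v528 && (
  isPos 4 v480 && (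
  isPos 4 v458 && (
  isPos 4 v520 && (
  isPos 4 v514 && (
  true)))))))))))))))))))))))))))))))))))))))))))))))))))))))))))))))))))))))))))))))))))))))))))))))))))))))))))))))))))))))))))))))))))))))))))))))))))))))))))))))))))))))))))))))))))))))))))))))))))))))))))))))))))))))))))))))))))))))))))))))))))))))))))))))))))))))))))))))))))))))))))))))))))))))))))))))))))))))))))))))))))))))))))))))))))))))))))))))))))))))))))))))))))))))))))))))))))))))))))))))))))))))))))))))))))))))))))))))))))))))))))))))))))))))))))))))))))))))))))))))))))))))))))))))))))))))))))))))))))))))))))))))))))))))))))))))))))))))))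
  | _ => false

set_option maxRecDepth 1000000 in
theorem chk1_eq (O : Ops) (m : List O.α)
    (h : chk1 O.cst O.add O.sub O.mul O.scale O.neg O.inv O.exp O.log O.ok O.isPos O.isLt m = true) :
    runG O 4 prog1 m = true := by
  match m, h with
  | [x0, x1, x2, x3], h => exact h

def chkB1 : List opsE.α → Bool :=
  chk1 opsE.cst opsE.add opsE.sub opsE.mul opsE.scale opsE.neg opsE.inv opsE.exp opsE.log opsE.ok opsE.isPos opsE.isLt

theorem chkB1_eq (m : List opsE.α) (h : chkB1 m = true) : runG opsE 4 prog1 m = true :=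
  chk1_eq opsE m h

def prog2 : List Op := [
  .const ⟨1099511627776, 0, 0, 0⟩,
  .mul 2 3,
  .mul 4 4,
  .mul 3 4,
  .mul 0 1,
  .mul 3 3,
  .mul 1 2,
  .const ⟨549755813888, 0, 0, 0⟩,
  .mul 3 9,
  .mul 0 12,
  .scale ⟨549755813888, 0, 0, 0⟩ 0,
  .mul 12 12,
  .mul 1 1,
  .sub 12 0,
  .inv 0,
  .mul 4 0,
  .scale ⟨2199023255552, 0, 0, 0⟩ 0,
  .scale ⟨2199023255552, 0, 0, 0⟩ 2,
  .sub 0 17,
  .add 0 2,
  .mul 23 5,
  .mul 22 0,
  .sub 21 0,
  .add 22 1,
  .mul 19 12,
  .mul 4 4,
  .scale ⟨10774999203840, 0, 0, 0⟩ 15,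
  .scale ⟨45768245248, 0, 0, 0⟩ 0,
  .const ⟨183207198720, 0, 0, 0⟩,
  .add 1 0,
  .mul 3 0,
  .add 23 0,
  .mul 5 0,
  .add 32 0,
  .mul 7 0,
  .scale ⟨549755813888, 0, 0, 0⟩ 0,
  .add 35 0,
  .mul 3 0,
  .mul 21 16,
  .scale ⟨2199023255552, 0, 0, 0⟩ 20,
  .add 1 0,
  .add 0 36,
  .mul 17 0,
  .add 0 42,
  .mul 27 27,
  .scale ⟨2199023255552, 0, 0, 0⟩ 0,
  .add 0 45,
  .mul 28 5,
  .sub 0 47,
  .log 5,
  .scale ⟨549755813888, 0, 0, 0⟩ 0,
  .exp 0,
  .const ⟨3298534883328, 0, 0, 0⟩,
  .inv 0,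
  .mul 53 0,
  .const ⟨2199023255552, 0, 0, 0⟩,
  .add 13 0,
  .inv 0,
  .mul 15 0,
  .mul 0 0,
  .sub 59 1,
  .mul 1 6,
  .add 61 0,
  .mul 2 0,
  .mul 4 4,
  .scale ⟨219915747328, 0, 0, 0⟩ 0,
  .mul 24 2,
  .scale ⟨549755813888, 0, 0, 0⟩ 0,
  .mul 26 2,
  .scale ⟨549755813888, 0, 0, 0⟩ 0,
  .add 2 0,
  .mul 52 22,
  .scale ⟨4398046511104, 0, 0, 0⟩ 0,
  .mul 54 48,
  .mul 0 25,
  .scale ⟨4398046511104, 0, 0, 0⟩ 0,
  .add 0 20,
  .inv 0,
  .mul 2 0,
  .mul 0 0,
  .sub 79 1,
  .mul 1 26,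
  .add 81 0,
  .mul 2 0,
  .mul 4 4,
  .scale ⟨219915747328, 0, 0, 0⟩ 0,
  .mul 13 2,
  .scale ⟨549755813888, 0, 0, 0⟩ 0,
  .sub 0 17,
  .mul 16 3,
  .scale ⟨549755813888, 0, 0, 0⟩ 0,
  .add 0 21,
  .add 3 0,
  .mul 89 25,
  .neg 0,
  .exp 0,
  .mul 92 26,
  .mul 1 0,
  .mul 94 9,
  .neg 0,
  .exp 0,
  .mul 97 9,
  .mul 1 0,
  .mul 81 86,
  .add 85 0,
  .inv 0,
  .mul 82 0,
  .mul 84 102,
  .mul 0 1,
  .sub 108 97,
  .mul 84 0,
  .mul 102 102,
  .sub 111 86,
  .mul 3 0,
  .mul 89 65,
  .inv 71,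
  .mul 1 0,
  .add 98 0,
  .mul 74 0,
  .mul 0 0,
  .inv 0,
  .mul 7 0,
  .add 103 97,
  .mul 122 0,
  .inv 0,
  .mul 125 0,
  .mul 0 0,
  .mul 0 13,
  .const ⟨45812285440, 0, 0, 0⟩,
  .scale ⟨1527119872, 0, 0, 0⟩ 1,
  .sub 1 0,
  .mul 3 0,
  .sub 124 0,
  .mul 5 0,
  .sub 133 0,
  .add 39 134,
  .mul 40 40,
  .add 0 136,
  .mul 42 3,
  .scale ⟨2199023255552, 0, 0, 0⟩ 0,
  .add 2 0,
  .scale ⟨4398046511104, 0, 0, 0⟩ 43,
  .sub 1 0,
  .inv 7,
  .mul 1 0,
  .add 0 9,
  .mul 50 37,
  .scale ⟨549755813888, 0, 0, 0⟩ 0,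
  .mul 0 2,
  .sub 6 0,
  .pos 7,
  .pos 0,
  .mul 146 79,
  .scale ⟨2199023255552, 0, 0, 0⟩ 0,
  .scale ⟨183274307584, 0, 0, 0⟩ 0,
  .sub 145 0,
  .mul 2 0,
  .sub 154 0,
  .mul 85 0,
  .inv 7,
  .mul 1 0,
  .mul 155 0,
  .add 0 152,
  .inv 0,
  .mul 3 0,
  .mul 159 0,
  .mul 55 0,
  .scale ⟨549755813888, 0, 0, 0⟩ 0,
  .sub 165 0,
  .sub 166 2,
  .inv 0,
  .mul 2 0,
  .add 5 169,
  .mul 75 0,
  .mul 65 2,
  .mul 174 10,
  .mul 1 0,
  .mul 10 5,
  .pos 8,
  .mul 153 152,
  .add 158 172,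
  .mul 156 159,
  .mul 0 162,
  .scale ⟨2199023255552, 0, 0, 0⟩ 0,
  .add 134 0,
  .mul 4 0,
  .inv 0,
  .mul 7 0,
  .mul 180 0,
  .pos 97,
  .mul 58 70,
  .scale ⟨1527119872, 0, 0, 0⟩ 0,
  .sub 59 0,
  .mul 2 0,
  .sub 182 0,
  .mul 4 0,
  .sub 191 0,
  .add 92 192,
  .mul 93 93,
  .add 0 194,
  .mul 95 3,
  .scale ⟨2199023255552, 0, 0, 0⟩ 0,
  .add 2 0,
  .scale ⟨4398046511104, 0, 0, 0⟩ 96,
  .sub 1 0,
  .inv 7,
  .mul 1 0,
  .add 0 9,
  .mul 103 18,
  .scale ⟨549755813888, 0, 0, 0⟩ 0,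
  .mul 0 2,
  .sub 6 0,
  .pos 7,
  .pos 0,
  .mul 204 115,
  .scale ⟨2199023255552, 0, 0, 0⟩ 0,
  .scale ⟨183274307584, 0, 0, 0⟩ 0,
  .sub 203 0,
  .mul 2 0,
  .sub 212 0,
  .mul 121 0,
  .inv 7,
  .mul 1 0,
  .mul 213 0,
  .add 0 210,
  .inv 0,
  .mul 3 0,
  .mul 217 0,
  .mul 36 0,
  .mul 224 2,
  .add 213 223,
  .inv 0,
  .mul 215 0,
  .scale ⟨2199023255552, 0, 0, 0⟩ 0,
  .sub 227 0,
  .sub 228 218,
  .mul 233 4,
  .mul 0 2,
  .add 208 0,
  .scale ⟨224412041216, 0, 0, 0⟩ 218,
  .inv 196,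
  .mul 1 0,
  .scale ⟨5497558138880, 0, 0, 0⟩ 235,
  .inv 0,
  .mul 238 0,
  .mul 238 1,
  .mul 0 216,
  .mul 0 5,
  .mul 3 218,
  .mul 0 7,
  .sub 243 0,
  .inv 0,
  .mul 74 2,
  .sub 246 0,
  .inv 0,
  .scale ⟨2199023255552, 0, 0, 0⟩ 243,
  .add 0 249,
  .add 245 250,
  .scale ⟨549755813888, 0, 0, 0⟩ 89,
  .inv 253,
  .mul 255 0,
  .scale ⟨2199023255552, 0, 0, 0⟩ 0,
  .add 3 0,
  .scale ⟨549755813888, 0, 0, 0⟩ 0,
  .mul 247 237,
  .sub 258 148,
  .mul 249 238,
  .scale ⟨2199023255552, 0, 0, 0⟩ 0,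
  .sub 2 0,
  .mul 4 4,
  .add 1 0,
  .add 0 264,
  .scale ⟨549755813888, 0, 0, 0⟩ 0,
  .scale ⟨549755813888, 0, 0, 0⟩ 242,
  .sub 253 0,
  .mul 157 9,
  .mul 0 256,
  .scale ⟨137438953472, 0, 0, 0⟩ 0,
  .add 3 0,
  .mul 6 0,
  .add 102 273,
  .mul 0 29,
  .mul 104 27,
  .add 1 0,
  .mul 34 0,
  .add 103 0,
  .mul 0 274,
  .mul 6 37,
  .mul 0 36,
  .add 107 0,
  .mul 0 278,
  .scale ⟨223338299392, 0, 0, 0⟩ 0,
  .add 278 0,
  .mul 2 0,
  .add 287 0,
  .scale ⟨893353197568, 0, 0, 0⟩ 8,
  .add 289 0,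
  .mul 10 0,
  .add 291 0,
  .mul 65 62,
  .mul 0 43,
  .mul 0 2,
  .mul 22 7,
  .add 245 289,
  .mul 2 0,
  .add 2 0,
  .add 248 299,
  .mul 5 0,
  .mul 50 1,
  .mul 0 72,
  .mul 0 74,
  .mul 5 130,
  .mul 1 48,
  .add 1 0,
  .mul 309 75,
  .inv 257,
  .mul 1 0,
  .scale ⟨549755813888, 0, 0, 0⟩ 0,
  .mul 289 0,
  .add 0 5,
  .mul 309 0,
  .mul 314 0,
  .mul 16 41,
  .mul 0 71,
  .mul 16 146,
  .mul 0 70,
  .add 2 0,
  .mul 298 5,
  .mul 80 1,
  .add 1 0,
  .mul 212 0,
  .mul 0 15,
  .sub 325 0,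
  .inv 0,
  .mul 4 0,
  .mul 324 0,
  .mul 218 1,
  .mul 0 21,
  .sub 331 0,
  .mul 284 0,
  .sub 0 4,
  .inv 0,
  .mul 6 0,
  .sub 285 6,
  .inv 0,
  .mul 2 117,
  .scale ⟨549755813888, 0, 0, 0⟩ 0,
  .sub 340 0,
  .sub 341 2,
  .inv 0,
  .mul 2 0,
  .mul 346 6,
  .mul 122 10,
  .mul 0 2,
  .add 2 0,
  .mul 342 20,
  .mul 11 0,
  .mul 129 15,
  .mul 0 7,
  .mul 0 23,
  .add 3 0,
  .scale ⟨223338299392, 0, 0, 0⟩ 0,
  .add 348 0,
  .mul 2 0,
  .add 357 0,
  .mul 10 0,
  .mul 0 32,
  .mul 0 40,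
  .mul 119 339,
  .const ⟨5497558138880, 0, 0, 0⟩,
  .inv 0,
  .mul 312 0,
  .mul 141 342,
  .mul 0 1,
  .mul 190 262,
  .mul 347 0,
  .scale ⟨549755813888, 0, 0, 0⟩ 147,
  .sub 370 0,
  .sub 371 149,
  .inv 0,
  .mul 2 0,
  .mul 0 189,
  .mul 264 254,
  .scale ⟨733097230336, 0, 0, 0⟩ 0,
  .sub 377 0,
  .mul 257 0,
  .mul 291 291,
  .mul 369 0,
  .add 2 0,
  .mul 7 159,
  .add 1 383,
  .mul 1 0,
  .sub 3 0,
  .scale ⟨366548615168, 0, 0, 0⟩ 342,
  .sub 387 0,
  .mul 363 0,
  .add 3 0,
  .mul 22 0,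
  .mul 22 22,
  .add 392 0,
  .inv 0,
  .mul 3 0,
  .sub 395 59,
  .mul 0 1,
  .sub 397 14,
  .pos 0,
  .pos 3,
  .pos 2,
  .mul 38 162,
  .mul 0 86,
  .inv 377,
  .mul 1 0,
  .mul 399 5,
  .scale ⟨549755813888, 0, 0, 0⟩ 0,
  .sub 404 0,
  .mul 8 0,
  .neg 0,
  .mul 409 411,
  .mul 0 184,
  .mul 0 395,
  .mul 408 0,
  .add 4 0,
  .mul 5 1,
  .mul 410 0,
  .add 2 0,
  .mul 404 374,
  .scale ⟨412316860416, 0, 0, 0⟩ 374,
  .sub 410 0,
  .mul 2 0,
  .mul 417 0,
  .neg 0,
  .add 6 0,
  .mul 7 1,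
  .mul 420 0,
  .add 2 0,
  .mul 427 97,
  .mul 0 25,
  .mul 425 0,
  .add 3 0,
  .mul 4 1,
  .mul 427 0,
  .add 2 0,
  .mul 430 65,
  .sub 1 0,
  .mul 430 67,
  .add 435 0,
  .inv 0,
  .mul 3 0,
  .mul 440 430,
  .mul 0 111,
  .mul 0 102,
  .mul 439 0,
  .add 4 0,
  .mul 5 1,
  .mul 441 0,
  .add 2 0,
  .mul 443 0,
  .add 447 0,
  .mul 87 205,
  .mul 445 87,
  .mul 48 0,
  .add 2 0,
  .mul 450 0,
  .add 92 51,
  .mul 452 0,
  .mul 2 7,
  .add 10 0,
  .add 0 2,
  .neg 0,
  .scale ⟨1073741824, 0, 0, 0⟩ 457,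
  .sub 1 0,
  .sub 442 461,
  .add 0 407,
  .scale ⟨2199023255552, 0, 0, 0⟩ 98,
  .sub 1 0,
  .mul 241 0,
  .mul 4 2,
  .add 0 467,
  .inv 0,
  .mul 3 0,
  .mul 231 150,
  .scale ⟨549755813888, 0, 0, 0⟩ 236,
  .add 456 0,
  .mul 2 0,
  .scale ⟨2199023255552, 0, 0, 0⟩ 0,
  .add 160 0,
  .scale ⟨2199023255552, 0, 0, 0⟩ 0,
  .mul 0 150,
  .mul 470 150,
  .sub 456 0,
  .inv 0,
  .mul 3 0,
  .sub 12 0,
  .mul 484 463,
  .mul 0 0,
  .const ⟨14293651161088, 0, 0, 0⟩,
  .const ⟨10995116277760, 0, 0, 0⟩,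
  .inv 0,
  .mul 2 0,
  .mul 4 0,
  .mul 490 490,
  .scale ⟨27487790694400, 0, 0, 0⟩ 0,
  .add 2 0,
  .mul 126 56,
  .sub 455 490,
  .sub 0 457,
  .mul 493 496,
  .mul 474 177,
  .mul 0 261,
  .add 192 0,
  .add 21 445,
  .mul 502 0,
  .mul 9 8,
  .mul 176 1,
  .mul 7 4,
  .mul 1 0,
  .sub 3 0,
  .scale ⟨549755813888, 0, 0, 0⟩ 28,
  .add 508 0,
  .mul 182 0,
  .mul 506 488,
  .mul 0 279,
  .mul 489 461,
  .inv 0,
  .mul 2 0,
  .mul 5 0,
  .sub 20 0,
  .mul 282 10,
  .sub 518 283,
  .mul 508 2,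
  .mul 1 0,
  .mul 28 0,
  .add 4 0,
  .pos 279,
  .pos 276,
  .scale ⟨2199023255552, 0, 0, 0⟩ 199,
  .sub 473 0,
  .pos 0,
  .pos 191,
  .sub 518 303,
  .pos 0,
  .scale ⟨687194767360, 0, 0, 0⟩ 526,
  .sub 0 243,
  .pos 0,
  .scale ⟨377957122048, 0, 0, 0⟩ 528,
  .sub 0 249,
  .pos 0,
  .pos 50,
  .pos 188,
  .sub 3 176,
  .pos 0,
  .pos 48,
  .pos 70,
  .pos 8,
  .pos 14]

def chk2 {α : Type} (cst : Z → α) (add sub mul : α → α → α) (scale : Z → α → α)
    (neg inv exp log : α → α) (ok : α → Bool) (isPos : Nat → α → Bool) (isLt : α → Nat → Bool) :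
    List α → Bool
  | [x0, x1, x2, x3] =>
  let v0 := cst ⟨1099511627776, 0, 0, 0⟩; ok v0 && (
  let v1 := mul x1 x2; ok v1 && (
  let v2 := mul x2 x2; ok v2 && (
  let v3 := mul x0 x1; ok v3 && (
  let v4 := mul v3 v2; ok v4 && (
  let v5 := mul v1 v1; ok v5 && (
  let v6 := mul v4 v3; ok v6 && (
  let v7 := cst ⟨549755813888, 0, 0, 0⟩; ok v7 && (
  let v8 := mul v4 x1; ok v8 && (
  let v9 := mul v8 x3; ok v9 && (
  let v10 := scale ⟨549755813888, 0, 0, 0⟩ v9; ok v10 && (
  let v11 := mul x1 x1; ok v11 && (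
  let v12 := mul v10 v10; ok v12 && (
  let v13 := sub v0 v12; ok v13 && (
  let v14 := inv v13; ok v14 && (
  let v15 := mul v10 v14; ok v15 && (
  let v16 := scale ⟨2199023255552, 0, 0, 0⟩ v15; ok v16 && (
  let v17 := scale ⟨2199023255552, 0, 0, 0⟩ v14; ok v17 && (
  let v18 := sub v17 v0; ok v18 && (
  let v19 := add v18 v16; ok v19 && (
  let v20 := mul x3 v14; ok v20 && (
  let v21 := mul x1 v20; ok v21 && (
  let v22 := sub v0 v21; ok v22 && (
  let v23 := add v0 v21; ok v23 && (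
  let v24 := mul v4 v11; ok v24 && (
  let v25 := mul v20 v20; ok v25 && (
  let v26 := scale ⟨10774999203840, 0, 0, 0⟩ v10; ok v26 && (
  let v27 := scale ⟨45768245248, 0, 0, 0⟩ v26; ok v27 && (
  let v28 := cst ⟨183207198720, 0, 0, 0⟩; ok v28 && (
  let v29 := add v27 v28; ok v29 && (
  let v30 := mul v26 v29; ok v30 && (
  let v31 := add v7 v30; ok v31 && (
  let v32 := mul v26 v31; ok v32 && (
  let v33 := add v0 v32; ok v33 && (
  let v34 := mul v26 v33; ok v34 && (
  let v35 := scale ⟨549755813888, 0, 0, 0⟩ v34; ok v35 && (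
  let v36 := add v0 v35; ok v36 && (
  let v37 := mul v33 v36; ok v37 && (
  let v38 := mul v16 v21; ok v38 && (
  let v39 := scale ⟨2199023255552, 0, 0, 0⟩ v18; ok v39 && (
  let v40 := add v38 v39; ok v40 && (
  let v41 := add v40 v4; ok v41 && (
  let v42 := mul v24 v41; ok v42 && (
  let v43 := add v42 v0; ok v43 && (
  let v44 := mul v16 v16; ok v44 && (
  let v45 := scale ⟨2199023255552, 0, 0, 0⟩ v44; ok v45 && (
  let v46 := add v45 v0; ok v46 && (
  let v47 := mul v18 v41; ok v47 && (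
  let v48 := sub v47 v0; ok v48 && (
  let v49 := log v43; ok v49 && (
  let v50 := scale ⟨549755813888, 0, 0, 0⟩ v49; ok v50 && (
  let v51 := exp v50; ok v51 && (
  let v52 := cst ⟨3298534883328, 0, 0, 0⟩; ok v52 && (
  let v53 := inv v52; ok v53 && (
  let v54 := mul v0 v53; ok v54 && (
  let v55 := cst ⟨2199023255552, 0, 0, 0⟩; ok v55 && (
  let v56 := add v42 v55; ok v56 && (
  let v57 := inv v56; ok v57 && (
  let v58 := mul v42 v57; ok v58 && (
  let v59 := mul v58 v58; ok v59 && (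
  let v60 := sub v0 v58; ok v60 && (
  let v61 := mul v59 v54; ok v61 && (
  let v62 := add v0 v61; ok v62 && (
  let v63 := mul v60 v62; ok v63 && (
  let v64 := mul v59 v59; ok v64 && (
  let v65 := scale ⟨219915747328, 0, 0, 0⟩ v64; ok v65 && (
  let v66 := mul v41 v63; ok v66 && (
  let v67 := scale ⟨549755813888, 0, 0, 0⟩ v66; ok v67 && (
  let v68 := mul v41 v65; ok v68 && (
  let v69 := scale ⟨549755813888, 0, 0, 0⟩ v68; ok v69 && (
  let v70 := add v67 v69; ok v70 && (
  let v71 := mul v18 v48; ok v71 && (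
  let v72 := scale ⟨4398046511104, 0, 0, 0⟩ v71; ok v72 && (
  let v73 := mul v18 v24; ok v73 && (
  let v74 := mul v73 v48; ok v74 && (
  let v75 := scale ⟨4398046511104, 0, 0, 0⟩ v74; ok v75 && (
  let v76 := add v75 v55; ok v76 && (
  let v77 := inv v76; ok v77 && (
  let v78 := mul v75 v77; ok v78 && (
  let v79 := mul v78 v78; ok v79 && (
  let v80 := sub v0 v78; ok v80 && (
  let v81 := mul v79 v54; ok v81 && (
  let v82 := add v0 v81; ok v82 && (
  let v83 := mul v80 v82; ok v83 && (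
  let v84 := mul v79 v79; ok v84 && (
  let v85 := scale ⟨219915747328, 0, 0, 0⟩ v84; ok v85 && (
  let v86 := mul v72 v83; ok v86 && (
  let v87 := scale ⟨549755813888, 0, 0, 0⟩ v86; ok v87 && (
  let v88 := sub v87 v70; ok v88 && (
  let v89 := mul v72 v85; ok v89 && (
  let v90 := scale ⟨549755813888, 0, 0, 0⟩ v89; ok v90 && (
  let v91 := add v90 v69; ok v91 && (
  let v92 := add v88 v91; ok v92 && (
  let v93 := mul v3 v67; ok v93 && (
  let v94 := neg v93; ok v94 && (
  let v95 := exp v94; ok v95 && (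
  let v96 := mul v3 v69; ok v96 && (
  let v97 := mul v95 v96; ok v97 && (
  let v98 := mul v3 v88; ok v98 && (
  let v99 := neg v98; ok v99 && (
  let v100 := exp v99; ok v100 && (
  let v101 := mul v3 v91; ok v101 && (
  let v102 := mul v100 v101; ok v102 && (
  let v103 := mul v21 v16; ok v103 && (
  let v104 := add v18 v103; ok v104 && (
  let v105 := inv v104; ok v105 && (
  let v106 := mul v23 v105; ok v106 && (
  let v107 := mul v22 v4; ok v107 && (
  let v108 := mul v107 v106; ok v108 && (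
  let v109 := sub v0 v11; ok v109 && (
  let v110 := mul v25 v109; ok v110 && (
  let v111 := mul v8 v8; ok v111 && (
  let v112 := sub v0 v25; ok v112 && (
  let v113 := mul v109 v112; ok v113 && (
  let v114 := mul v24 v48; ok v114 && (
  let v115 := inv v43; ok v115 && (
  let v116 := mul v114 v115; ok v116 && (
  let v117 := add v18 v116; ok v117 && (
  let v118 := mul v43 v117; ok v118 && (
  let v119 := mul v118 v118; ok v119 && (
  let v120 := inv v119; ok v120 && (
  let v121 := mul v113 v120; ok v121 && (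
  let v122 := add v18 v24; ok v122 && (
  let v123 := mul v0 v122; ok v123 && (
  let v124 := inv v123; ok v124 && (
  let v125 := mul x0 v124; ok v125 && (
  let v126 := mul v125 v125; ok v126 && (
  let v127 := mul v126 v113; ok v127 && (
  let v128 := cst ⟨45812285440, 0, 0, 0⟩; ok v128 && (
  let v129 := scale ⟨1527119872, 0, 0, 0⟩ v127; ok v129 && (
  let v130 := sub v128 v129; ok v130 && (
  let v131 := mul v127 v130; ok v131 && (
  let v132 := sub v7 v131; ok v132 && (
  let v133 := mul v127 v132; ok v133 && (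
  let v134 := sub v0 v133; ok v134 && (
  let v135 := add v95 v0; ok v135 && (
  let v136 := mul v95 v95; ok v136 && (
  let v137 := add v136 v0; ok v137 && (
  let v138 := mul v95 v134; ok v138 && (
  let v139 := scale ⟨2199023255552, 0, 0, 0⟩ v138; ok v139 && (
  let v140 := add v137 v139; ok v140 && (
  let v141 := scale ⟨4398046511104, 0, 0, 0⟩ v97; ok v141 && (
  let v142 := sub v140 v141; ok v142 && (
  let v143 := inv v135; ok v143 && (
  let v144 := mul v142 v143; ok v144 && (
  let v145 := add v144 v135; ok v145 && (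
  let v146 := mul v95 v108; ok v146 && (
  let v147 := scale ⟨549755813888, 0, 0, 0⟩ v146; ok v147 && (
  let v148 := mul v147 v145; ok v148 && (
  let v149 := sub v142 v148; ok v149 && (
  isPos 4 v142 && (
  isPos 4 v149 && (
  let v150 := mul v3 v70; ok v150 && (
  let v151 := scale ⟨2199023255552, 0, 0, 0⟩ v150; ok v151 && (
  let v152 := scale ⟨183274307584, 0, 0, 0⟩ v151; ok v152 && (
  let v153 := sub v7 v152; ok v153 && (
  let v154 := mul v151 v153; ok v154 && (
  let v155 := sub v0 v154; ok v155 && (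
  let v156 := mul v70 v155; ok v156 && (
  let v157 := inv v149; ok v157 && (
  let v158 := mul v156 v157; ok v158 && (
  let v159 := mul v3 v158; ok v159 && (
  let v160 := add v159 v7; ok v160 && (
  let v161 := inv v160; ok v161 && (
  let v162 := mul v158 v161; ok v162 && (
  let v163 := mul v3 v162; ok v163 && (
  let v164 := mul v108 v163; ok v164 && (
  let v165 := scale ⟨549755813888, 0, 0, 0⟩ v164; ok v165 && (
  let v166 := sub v0 v165; ok v166 && (
  let v167 := sub v0 v164; ok v167 && (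
  let v168 := inv v167; ok v168 && (
  let v169 := mul v166 v168; ok v169 && (
  let v170 := add v164 v0; ok v170 && (
  let v171 := mul v95 v170; ok v171 && (
  let v172 := mul v106 v169; ok v172 && (
  let v173 := mul x1 v162; ok v173 && (
  let v174 := mul v172 v173; ok v174 && (
  let v175 := mul v164 v169; ok v175 && (
  isPos 4 v167 && (
  let v176 := mul v22 v23; ok v176 && (
  let v177 := add v18 v4; ok v177 && (
  let v178 := mul v21 v18; ok v178 && (
  let v179 := mul v178 v16; ok v179 && (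
  let v180 := scale ⟨2199023255552, 0, 0, 0⟩ v179; ok v180 && (
  let v181 := add v46 v180; ok v181 && (
  let v182 := mul v177 v181; ok v182 && (
  let v183 := inv v182; ok v183 && (
  let v184 := mul v176 v183; ok v184 && (
  let v185 := mul v4 v184; ok v185 && (
  isPos 4 v88 && (
  let v186 := mul v127 v115; ok v186 && (
  let v187 := scale ⟨1527119872, 0, 0, 0⟩ v186; ok v187 && (
  let v188 := sub v128 v187; ok v188 && (
  let v189 := mul v186 v188; ok v189 && (
  let v190 := sub v7 v189; ok v190 && (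
  let v191 := mul v186 v190; ok v191 && (
  let v192 := sub v0 v191; ok v192 && (
  let v193 := add v100 v0; ok v193 && (
  let v194 := mul v100 v100; ok v194 && (
  let v195 := add v194 v0; ok v195 && (
  let v196 := mul v100 v192; ok v196 && (
  let v197 := scale ⟨2199023255552, 0, 0, 0⟩ v196; ok v197 && (
  let v198 := add v195 v197; ok v198 && (
  let v199 := scale ⟨4398046511104, 0, 0, 0⟩ v102; ok v199 && (
  let v200 := sub v198 v199; ok v200 && (
  let v201 := inv v193; ok v201 && (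
  let v202 := mul v200 v201; ok v202 && (
  let v203 := add v202 v193; ok v203 && (
  let v204 := mul v100 v185; ok v204 && (
  let v205 := scale ⟨549755813888, 0, 0, 0⟩ v204; ok v205 && (
  let v206 := mul v205 v203; ok v206 && (
  let v207 := sub v200 v206; ok v207 && (
  isPos 4 v200 && (
  isPos 4 v207 && (
  let v208 := mul v3 v92; ok v208 && (
  let v209 := scale ⟨2199023255552, 0, 0, 0⟩ v208; ok v209 && (
  let v210 := scale ⟨183274307584, 0, 0, 0⟩ v209; ok v210 && (
  let v211 := sub v7 v210; ok v211 && (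
  let v212 := mul v209 v211; ok v212 && (
  let v213 := sub v0 v212; ok v213 && (
  let v214 := mul v92 v213; ok v214 && (
  let v215 := inv v207; ok v215 && (
  let v216 := mul v214 v215; ok v216 && (
  let v217 := mul v3 v216; ok v217 && (
  let v218 := add v217 v7; ok v218 && (
  let v219 := inv v218; ok v219 && (
  let v220 := mul v216 v219; ok v220 && (
  let v221 := mul v3 v220; ok v221 && (
  let v222 := mul v185 v221; ok v222 && (
  let v223 := mul x1 v220; ok v223 && (
  let v224 := add v10 v0; ok v224 && (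
  let v225 := inv v224; ok v225 && (
  let v226 := mul v10 v225; ok v226 && (
  let v227 := scale ⟨2199023255552, 0, 0, 0⟩ v226; ok v227 && (
  let v228 := sub v0 v227; ok v228 && (
  let v229 := sub v0 v10; ok v229 && (
  let v230 := mul x3 v225; ok v230 && (
  let v231 := mul v230 v228; ok v231 && (
  let v232 := add v23 v231; ok v232 && (
  let v233 := scale ⟨224412041216, 0, 0, 0⟩ v14; ok v233 && (
  let v234 := inv v37; ok v234 && (
  let v235 := mul v233 v234; ok v235 && (
  let v236 := scale ⟨5497558138880, 0, 0, 0⟩ v0; ok v236 && (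
  let v237 := inv v236; ok v237 && (
  let v238 := mul x0 v237; ok v238 && (
  let v239 := mul v0 v237; ok v239 && (
  let v240 := mul v239 v23; ok v240 && (
  let v241 := mul v240 v235; ok v241 && (
  let v242 := mul v238 v23; ok v242 && (
  let v243 := mul v242 v235; ok v243 && (
  let v244 := sub v0 v243; ok v244 && (
  let v245 := inv v244; ok v245 && (
  let v246 := mul v171 v243; ok v246 && (
  let v247 := sub v0 v246; ok v247 && (
  let v248 := inv v247; ok v248 && (
  let v249 := scale ⟨2199023255552, 0, 0, 0⟩ v5; ok v249 && (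
  let v250 := add v249 v0; ok v250 && (
  let v251 := add v5 v0; ok v251 && (
  let v252 := scale ⟨549755813888, 0, 0, 0⟩ v162; ok v252 && (
  let v253 := inv x0; ok v253 && (
  let v254 := mul x1 v253; ok v254 && (
  let v255 := scale ⟨2199023255552, 0, 0, 0⟩ v254; ok v255 && (
  let v256 := add v252 v255; ok v256 && (
  let v257 := scale ⟨549755813888, 0, 0, 0⟩ v256; ok v257 && (
  let v258 := mul v10 v20; ok v258 && (
  let v259 := sub v0 v110; ok v259 && (
  let v260 := mul v10 v21; ok v260 && (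
  let v261 := scale ⟨2199023255552, 0, 0, 0⟩ v260; ok v261 && (
  let v262 := sub v259 v261; ok v262 && (
  let v263 := mul v258 v258; ok v263 && (
  let v264 := add v262 v263; ok v264 && (
  let v265 := add v264 v0; ok v265 && (
  let v266 := scale ⟨549755813888, 0, 0, 0⟩ v265; ok v266 && (
  let v267 := scale ⟨549755813888, 0, 0, 0⟩ v24; ok v267 && (
  let v268 := sub v14 v267; ok v268 && (
  let v269 := mul v111 v259; ok v269 && (
  let v270 := mul v269 v13; ok v270 && (
  let v271 := scale ⟨137438953472, 0, 0, 0⟩ v270; ok v271 && (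
  let v272 := add v268 v271; ok v272 && (
  let v273 := mul v266 v272; ok v273 && (
  let v274 := add v171 v0; ok v274 && (
  let v275 := mul v274 v245; ok v275 && (
  let v276 := mul v171 v248; ok v276 && (
  let v277 := add v275 v276; ok v277 && (
  let v278 := mul v243 v277; ok v278 && (
  let v279 := add v175 v278; ok v279 && (
  let v280 := mul v279 v5; ok v280 && (
  let v281 := mul v274 v243; ok v281 && (
  let v282 := mul v281 v245; ok v282 && (
  let v283 := add v175 v282; ok v283 && (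
  let v284 := mul v283 v5; ok v284 && (
  let v285 := scale ⟨223338299392, 0, 0, 0⟩ v284; ok v285 && (
  let v286 := add v7 v285; ok v286 && (
  let v287 := mul v284 v286; ok v287 && (
  let v288 := add v0 v287; ok v288 && (
  let v289 := scale ⟨893353197568, 0, 0, 0⟩ v280; ok v289 && (
  let v290 := add v0 v289; ok v290 && (
  let v291 := mul v280 v290; ok v291 && (
  let v292 := add v0 v291; ok v292 && (
  let v293 := mul v227 v230; ok v293 && (
  let v294 := mul v293 v250; ok v294 && (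
  let v295 := mul v294 v292; ok v295 && (
  let v296 := mul v273 v288; ok v296 && (
  let v297 := add v51 v7; ok v297 && (
  let v298 := mul v295 v297; ok v298 && (
  let v299 := add v296 v298; ok v299 && (
  let v300 := add v51 v0; ok v300 && (
  let v301 := mul v295 v300; ok v301 && (
  let v302 := mul v251 v300; ok v302 && (
  let v303 := mul v302 v230; ok v303 && (
  let v304 := mul v303 v229; ok v304 && (
  let v305 := mul v299 v174; ok v305 && (
  let v306 := mul v304 v257; ok v306 && (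
  let v307 := add v305 v306; ok v307 && (
  let v308 := mul x1 v232; ok v308 && (
  let v309 := inv v51; ok v309 && (
  let v310 := mul v308 v309; ok v310 && (
  let v311 := scale ⟨549755813888, 0, 0, 0⟩ v310; ok v311 && (
  let v312 := mul v22 v311; ok v312 && (
  let v313 := add v312 v307; ok v313 && (
  let v314 := mul v4 v313; ok v314 && (
  let v315 := mul v0 v314; ok v315 && (
  let v316 := mul v299 v274; ok v316 && (
  let v317 := mul v316 v245; ok v317 && (
  let v318 := mul v301 v171; ok v318 && (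
  let v319 := mul v318 v248; ok v319 && (
  let v320 := add v317 v319; ok v320 && (
  let v321 := mul v22 v315; ok v321 && (
  let v322 := mul v241 v320; ok v322 && (
  let v323 := add v321 v322; ok v323 && (
  let v324 := mul v111 v323; ok v324 && (
  let v325 := mul v324 v309; ok v325 && (
  let v326 := sub v0 v325; ok v326 && (
  let v327 := inv v326; ok v327 && (
  let v328 := mul v323 v327; ok v328 && (
  let v329 := mul v4 v328; ok v329 && (
  let v330 := mul v111 v328; ok v330 && (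
  let v331 := mul v330 v309; ok v331 && (
  let v332 := sub v0 v331; ok v332 && (
  let v333 := mul v48 v332; ok v333 && (
  let v334 := sub v333 v329; ok v334 && (
  let v335 := inv v334; ok v335 && (
  let v336 := mul v329 v335; ok v336 && (
  let v337 := sub v51 v330; ok v337 && (
  let v338 := inv v337; ok v338 && (
  let v339 := mul v336 v221; ok v339 && (
  let v340 := scale ⟨549755813888, 0, 0, 0⟩ v339; ok v340 && (
  let v341 := sub v0 v340; ok v341 && (
  let v342 := sub v0 v339; ok v342 && (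
  let v343 := inv v342; ok v343 && (
  let v344 := mul v341 v343; ok v344 && (
  let v345 := mul x1 v338; ok v345 && (
  let v346 := mul v223 v335; ok v346 && (
  let v347 := mul v346 v344; ok v347 && (
  let v348 := add v345 v347; ok v348 && (
  let v349 := mul v6 v328; ok v349 && (
  let v350 := mul v338 v349; ok v350 && (
  let v351 := mul v221 v335; ok v351 && (
  let v352 := mul v351 v344; ok v352 && (
  let v353 := mul v352 v329; ok v353 && (
  let v354 := add v350 v353; ok v354 && (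
  let v355 := scale ⟨223338299392, 0, 0, 0⟩ v354; ok v355 && (
  let v356 := add v7 v355; ok v356 && (
  let v357 := mul v354 v356; ok v357 && (
  let v358 := add v0 v357; ok v358 && (
  let v359 := mul v348 v358; ok v359 && (
  let v360 := mul v359 v327; ok v360 && (
  let v361 := mul v360 v320; ok v361 && (
  let v362 := mul v242 v22; ok v362 && (
  let v363 := cst ⟨5497558138880, 0, 0, 0⟩; ok v363 && (
  let v364 := inv v363; ok v364 && (
  let v365 := mul v52 v364; ok v365 && (
  let v366 := mul v224 v23; ok v366 && (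
  let v367 := mul v366 v365; ok v367 && (
  let v368 := mul v177 v105; ok v368 && (
  let v369 := mul v21 v368; ok v369 && (
  let v370 := scale ⟨549755813888, 0, 0, 0⟩ v222; ok v370 && (
  let v371 := sub v0 v370; ok v371 && (
  let v372 := sub v0 v222; ok v372 && (
  let v373 := inv v372; ok v373 && (
  let v374 := mul v371 v373; ok v374 && (
  let v375 := mul v374 v185; ok v375 && (
  let v376 := mul v111 v121; ok v376 && (
  let v377 := scale ⟨733097230336, 0, 0, 0⟩ v376; ok v377 && (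
  let v378 := sub v0 v377; ok v378 && (
  let v379 := mul v121 v378; ok v379 && (
  let v380 := mul v88 v88; ok v380 && (
  let v381 := mul v11 v380; ok v381 && (
  let v382 := add v379 v381; ok v382 && (
  let v383 := mul v375 v223; ok v383 && (
  let v384 := add v382 v0; ok v384 && (
  let v385 := mul v383 v384; ok v385 && (
  let v386 := sub v382 v385; ok v386 && (
  let v387 := scale ⟨366548615168, 0, 0, 0⟩ v44; ok v387 && (
  let v388 := sub v0 v387; ok v388 && (
  let v389 := mul v25 v388; ok v389 && (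
  let v390 := add v386 v389; ok v390 && (
  let v391 := mul v368 v390; ok v391 && (
  let v392 := mul v369 v369; ok v392 && (
  let v393 := add v0 v392; ok v393 && (
  let v394 := inv v393; ok v394 && (
  let v395 := mul v391 v394; ok v395 && (
  let v396 := sub v0 v336; ok v396 && (
  let v397 := mul v396 v395; ok v397 && (
  let v398 := sub v0 v383; ok v398 && (
  isPos 4 v398 && (
  isPos 4 v395 && (
  isPos 4 v396 && (
  let v399 := mul v360 v236; ok v399 && (
  let v400 := mul v399 v313; ok v400 && (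
  let v401 := inv v23; ok v401 && (
  let v402 := mul v400 v401; ok v402 && (
  let v403 := mul v3 v397; ok v403 && (
  let v404 := scale ⟨549755813888, 0, 0, 0⟩ v403; ok v404 && (
  let v405 := sub v0 v404; ok v405 && (
  let v406 := mul v397 v405; ok v406 && (
  let v407 := neg v406; ok v407 && (
  let v408 := mul x1 x3; ok v408 && (
  let v409 := mul v408 v224; ok v409 && (
  let v410 := mul v409 v14; ok v410 && (
  let v411 := mul v2 v410; ok v411 && (
  let v412 := add v407 v411; ok v412 && (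
  let v413 := mul v407 v411; ok v413 && (
  let v414 := mul v3 v413; ok v414 && (
  let v415 := add v412 v414; ok v415 && (
  let v416 := mul v11 v41; ok v416 && (
  let v417 := scale ⟨412316860416, 0, 0, 0⟩ v42; ok v417 && (
  let v418 := sub v7 v417; ok v418 && (
  let v419 := mul v416 v418; ok v419 && (
  let v420 := mul v2 v419; ok v420 && (
  let v421 := neg v420; ok v421 && (
  let v422 := add v415 v421; ok v422 && (
  let v423 := mul v415 v421; ok v423 && (
  let v424 := mul v3 v423; ok v424 && (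
  let v425 := add v422 v424; ok v425 && (
  let v426 := mul x1 v328; ok v426 && (
  let v427 := mul v426 v401; ok v427 && (
  let v428 := mul v2 v427; ok v428 && (
  let v429 := add v425 v428; ok v429 && (
  let v430 := mul v425 v428; ok v430 && (
  let v431 := mul v3 v430; ok v431 && (
  let v432 := add v429 v431; ok v432 && (
  let v433 := mul v2 v367; ok v433 && (
  let v434 := sub v432 v433; ok v434 && (
  let v435 := mul v4 v367; ok v435 && (
  let v436 := add v0 v435; ok v436 && (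
  let v437 := inv v436; ok v437 && (
  let v438 := mul v434 v437; ok v438 && (
  let v439 := mul x1 v8; ok v439 && (
  let v440 := mul v439 v328; ok v440 && (
  let v441 := mul v440 v338; ok v441 && (
  let v442 := mul v2 v441; ok v442 && (
  let v443 := add v438 v442; ok v443 && (
  let v444 := mul v438 v442; ok v444 && (
  let v445 := mul v3 v444; ok v445 && (
  let v446 := add v443 v445; ok v446 && (
  let v447 := mul v3 v446; ok v447 && (
  let v448 := add v0 v447; ok v448 && (
  let v449 := mul v361 v243; ok v449 && (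
  let v450 := mul v4 v362; ok v450 && (
  let v451 := mul v402 v450; ok v451 && (
  let v452 := add v449 v451; ok v452 && (
  let v453 := mul v2 v452; ok v453 && (
  let v454 := add v361 v402; ok v454 && (
  let v455 := mul v2 v454; ok v455 && (
  let v456 := mul v453 v448; ok v456 && (
  let v457 := add v446 v456; ok v457 && (
  let v458 := add v457 v455; ok v458 && (
  let v459 := neg v458; ok v459 && (
  let v460 := scale ⟨1073741824, 0, 0, 0⟩ v2; ok v460 && (
  let v461 := sub v459 v460; ok v461 && (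
  let v462 := sub v19 v0; ok v462 && (
  let v463 := add v462 v55; ok v463 && (
  let v464 := scale ⟨2199023255552, 0, 0, 0⟩ v365; ok v464 && (
  let v465 := sub v463 v464; ok v465 && (
  let v466 := mul v224 v465; ok v466 && (
  let v467 := mul v462 v464; ok v467 && (
  let v468 := add v467 v0; ok v468 && (
  let v469 := inv v468; ok v469 && (
  let v470 := mul v466 v469; ok v470 && (
  let v471 := mul v239 v320; ok v471 && (
  let v472 := scale ⟨549755813888, 0, 0, 0⟩ v235; ok v472 && (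
  let v473 := add v16 v472; ok v473 && (
  let v474 := mul v471 v473; ok v474 && (
  let v475 := scale ⟨2199023255552, 0, 0, 0⟩ v474; ok v475 && (
  let v476 := add v315 v475; ok v476 && (
  let v477 := scale ⟨2199023255552, 0, 0, 0⟩ v476; ok v477 && (
  let v478 := mul v477 v327; ok v478 && (
  let v479 := mul v8 v328; ok v479 && (
  let v480 := sub v23 v479; ok v480 && (
  let v481 := inv v480; ok v481 && (
  let v482 := mul v478 v481; ok v482 && (
  let v483 := sub v470 v482; ok v483 && (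
  let v484 := mul x0 v20; ok v484 && (
  let v485 := mul v484 v484; ok v485 && (
  let v486 := cst ⟨14293651161088, 0, 0, 0⟩; ok v486 && (
  let v487 := cst ⟨10995116277760, 0, 0, 0⟩; ok v487 && (
  let v488 := inv v487; ok v488 && (
  let v489 := mul v486 v488; ok v489 && (
  let v490 := mul v485 v489; ok v490 && (
  let v491 := mul v0 v0; ok v491 && (
  let v492 := scale ⟨27487790694400, 0, 0, 0⟩ v491; ok v492 && (
  let v493 := add v490 v492; ok v493 && (
  let v494 := mul v367 v437; ok v494 && (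
  let v495 := sub v39 v4; ok v495 && (
  let v496 := sub v495 v38; ok v496 && (
  let v497 := mul v3 v0; ok v497 && (
  let v498 := mul v23 v320; ok v498 && (
  let v499 := mul v498 v237; ok v499 && (
  let v500 := add v307 v499; ok v500 && (
  let v501 := add v479 v55; ok v501 && (
  let v502 := mul x0 v501; ok v502 && (
  let v503 := mul v493 v494; ok v503 && (
  let v504 := mul v327 v502; ok v504 && (
  let v505 := mul v497 v500; ok v505 && (
  let v506 := mul v504 v505; ok v506 && (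
  let v507 := sub v503 v506; ok v507 && (
  let v508 := scale ⟨549755813888, 0, 0, 0⟩ v479; ok v508 && (
  let v509 := add v0 v508; ok v509 && (
  let v510 := mul v327 v509; ok v510 && (
  let v511 := mul v4 v22; ok v511 && (
  let v512 := mul v511 v232; ok v512 && (
  let v513 := mul v23 v51; ok v513 && (
  let v514 := inv v513; ok v514 && (
  let v515 := mul v512 v514; ok v515 && (
  let v516 := mul v510 v515; ok v516 && (
  let v517 := sub v496 v516; ok v517 && (
  let v518 := mul v235 v507; ok v518 && (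
  let v519 := sub v0 v235; ok v519 && (
  let v520 := mul v11 v517; ok v520 && (
  let v521 := mul v519 v520; ok v521 && (
  let v522 := mul v493 v521; ok v522 && (
  let v523 := add v518 v522; ok v523 && (
  isPos 4 v244 && (
  isPos 4 v247 && (
  let v524 := scale ⟨2199023255552, 0, 0, 0⟩ v324; ok v524 && (
  let v525 := sub v51 v524; ok v525 && (
  isPos 4 v525 && (
  isPos 4 v334 && (
  let v526 := sub v7 v222; ok v526 && (
  isPos 4 v526 && (
  let v527 := scale ⟨687194767360, 0, 0, 0⟩ v0; ok v527 && (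
  let v528 := sub v527 v284; ok v528 && (
  isPos 4 v528 && (
  let v529 := scale ⟨377957122048, 0, 0, 0⟩ v0; ok v529 && (
  let v530 := sub v529 v280; ok v530 && (
  isPos 4 v530 && (
  isPos 4 v480 && (
  isPos 4 v342 && (
  let v531 := sub v527 v354; ok v531 && (
  isPos 4 v531 && (
  isPos 4 v483 && (
  isPos 4 v461 && (
  isPos 4 v523 && (
  isPos 4 v517 && (
  true)))))))))))))))))))))))))))))))))))))))))))))))))))))))))))))))))))))))))))))))))))))))))))))))))))))))))))))))))))))))))))))))))))))))))))))))))))))))))))))))))))))))))))))))))))))))))))))))))))))))))))))))))))))))))))))))))))))))))))))))))))))))))))))))))))))))))))))))))))))))))))))))))))))))))))))))))))))))))))))))))))))))))))))))))))))))))))))))))))))))))))))))))))))))))))))))))))))))))))))))))))))))))))))))))))))))))))))))))))))))))))))))))))))))))))))))))))))))))))))))))))))))))))))))))))))))))))))))))))))))))))))))))))))))))))))))))))))))))))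
  | _ => false

set_option maxRecDepth 1000000 in
theorem chk2_eq (O : Ops) (m : List O.α)
    (h : chk2 O.cst O.add O.sub O.mul O.scale O.neg O.inv O.exp O.log O.ok O.isPos O.isLt m = true) :
    runG O 4 prog2 m = true := by
  match m, h with
  | [x0, x1, x2, x3], h => exact h

def chkB2 : List opsE.α → Bool :=
  chk2 opsE.cst opsE.add opsE.sub opsE.mul opsE.scale opsE.neg opsE.inv opsE.exp opsE.log opsE.ok opsE.isPos opsE.isLt

theorem chkB2_eq (m : List opsE.α) (h : chkB2 m = true) : runG opsE 4 prog2 m = true :=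
  chk2_eq opsE m h

def prog3 : List Op := [
  .const ⟨1099511627776, 0, 0, 0⟩,
  .mul 2 3,
  .mul 4 4,
  .mul 3 4,
  .mul 0 1,
  .mul 3 3,
  .mul 1 2,
  .const ⟨549755813888, 0, 0, 0⟩,
  .mul 3 9,
  .mul 0 12,
  .scale ⟨549755813888, 0, 0, 0⟩ 0,
  .mul 12 12,
  .mul 1 1,
  .sub 12 0,
  .inv 0,
  .mul 4 0,
  .scale ⟨2199023255552, 0, 0, 0⟩ 0,
  .scale ⟨2199023255552, 0, 0, 0⟩ 2,
  .sub 0 17,
  .add 0 2,
  .mul 23 5,
  .mul 22 0,
  .sub 21 0,
  .add 22 1,
  .mul 19 12,
  .mul 4 4,
  .scale ⟨10774999203840, 0, 0, 0⟩ 15,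
  .scale ⟨45768245248, 0, 0, 0⟩ 0,
  .const ⟨183207198720, 0, 0, 0⟩,
  .add 1 0,
  .mul 3 0,
  .add 23 0,
  .mul 5 0,
  .add 32 0,
  .mul 7 0,
  .scale ⟨549755813888, 0, 0, 0⟩ 0,
  .add 35 0,
  .mul 3 0,
  .mul 21 16,
  .scale ⟨2199023255552, 0, 0, 0⟩ 20,
  .add 1 0,
  .add 0 36,
  .mul 17 0,
  .add 0 42,
  .mul 27 27,
  .scale ⟨2199023255552, 0, 0, 0⟩ 0,
  .add 0 45,
  .mul 28 5,
  .sub 0 47,
  .log 5,
  .scale ⟨549755813888, 0, 0, 0⟩ 0,
  .exp 0,
  .const ⟨3298534883328, 0, 0, 0⟩,
  .inv 0,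
  .mul 53 0,
  .const ⟨2199023255552, 0, 0, 0⟩,
  .add 13 0,
  .inv 0,
  .mul 15 0,
  .mul 0 0,
  .sub 59 1,
  .mul 1 6,
  .add 61 0,
  .mul 2 0,
  .mul 4 4,
  .scale ⟨219915747328, 0, 0, 0⟩ 0,
  .mul 24 2,
  .scale ⟨549755813888, 0, 0, 0⟩ 0,
  .mul 26 2,
  .scale ⟨549755813888, 0, 0, 0⟩ 0,
  .add 2 0,
  .mul 52 22,
  .scale ⟨4398046511104, 0, 0, 0⟩ 0,
  .mul 54 48,
  .mul 0 25,
  .scale ⟨4398046511104, 0, 0, 0⟩ 0,
  .add 0 20,
  .inv 0,
  .mul 2 0,
  .mul 0 0,
  .sub 79 1,
  .mul 1 26,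
  .add 81 0,
  .mul 2 0,
  .mul 4 4,
  .scale ⟨219915747328, 0, 0, 0⟩ 0,
  .mul 13 2,
  .scale ⟨549755813888, 0, 0, 0⟩ 0,
  .sub 0 17,
  .mul 16 3,
  .scale ⟨549755813888, 0, 0, 0⟩ 0,
  .add 0 21,
  .add 3 0,
  .mul 89 25,
  .neg 0,
  .exp 0,
  .mul 92 26,
  .mul 1 0,
  .mul 94 9,
  .neg 0,
  .exp 0,
  .mul 97 9,
  .mul 1 0,
  .mul 81 86,
  .add 85 0,
  .inv 0,
  .mul 82 0,
  .mul 84 102,
  .mul 0 1,
  .sub 108 97,
  .mul 84 0,
  .mul 102 102,
  .sub 111 86,
  .mul 3 0,
  .mul 89 65,
  .inv 71,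
  .mul 1 0,
  .add 98 0,
  .mul 74 0,
  .mul 0 0,
  .inv 0,
  .mul 7 0,
  .add 103 97,
  .mul 122 0,
  .inv 0,
  .mul 125 0,
  .mul 0 0,
  .mul 0 13,
  .const ⟨45812285440, 0, 0, 0⟩,
  .scale ⟨1527119872, 0, 0, 0⟩ 1,
  .sub 1 0,
  .mul 3 0,
  .sub 124 0,
  .mul 5 0,
  .sub 133 0,
  .add 39 134,
  .mul 40 40,
  .add 0 136,
  .mul 42 3,
  .scale ⟨2199023255552, 0, 0, 0⟩ 0,
  .add 2 0,
  .scale ⟨4398046511104, 0, 0, 0⟩ 43,
  .sub 1 0,
  .inv 7,
  .mul 1 0,
  .add 0 9,
  .mul 50 37,
  .scale ⟨549755813888, 0, 0, 0⟩ 0,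
  .mul 0 2,
  .sub 6 0,
  .pos 7,
  .pos 0,
  .mul 146 79,
  .scale ⟨2199023255552, 0, 0, 0⟩ 0,
  .scale ⟨183274307584, 0, 0, 0⟩ 0,
  .sub 145 0,
  .mul 2 0,
  .sub 154 0,
  .mul 85 0,
  .inv 7,
  .mul 1 0,
  .mul 155 0,
  .add 0 152,
  .inv 0,
  .mul 3 0,
  .mul 159 0,
  .mul 55 0,
  .scale ⟨549755813888, 0, 0, 0⟩ 0,
  .sub 165 0,
  .sub 166 2,
  .inv 0,
  .mul 2 0,
  .add 5 169,
  .mul 75 0,
  .mul 65 2,
  .mul 174 10,
  .mul 1 0,
  .mul 10 5,
  .pos 8,
  .mul 153 152,
  .add 158 172,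
  .mul 156 159,
  .mul 0 162,
  .scale ⟨2199023255552, 0, 0, 0⟩ 0,
  .add 134 0,
  .mul 4 0,
  .inv 0,
  .mul 7 0,
  .mul 180 0,
  .pos 97,
  .mul 58 70,
  .scale ⟨1527119872, 0, 0, 0⟩ 0,
  .sub 59 0,
  .mul 2 0,
  .sub 182 0,
  .mul 4 0,
  .sub 191 0,
  .add 92 192,
  .mul 93 93,
  .add 0 194,
  .mul 95 3,
  .scale ⟨2199023255552, 0, 0, 0⟩ 0,
  .add 2 0,
  .scale ⟨4398046511104, 0, 0, 0⟩ 96,
  .sub 1 0,
  .inv 7,
  .mul 1 0,
  .add 0 9,
  .mul 103 18,
  .scale ⟨549755813888, 0, 0, 0⟩ 0,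
  .mul 0 2,
  .sub 6 0,
  .pos 7,
  .pos 0,
  .mul 204 115,
  .scale ⟨2199023255552, 0, 0, 0⟩ 0,
  .scale ⟨183274307584, 0, 0, 0⟩ 0,
  .sub 203 0,
  .mul 2 0,
  .sub 212 0,
  .mul 121 0,
  .inv 7,
  .mul 1 0,
  .mul 213 0,
  .add 0 210,
  .inv 0,
  .mul 3 0,
  .mul 217 0,
  .mul 36 0,
  .mul 224 2,
  .add 213 223,
  .inv 0,
  .mul 215 0,
  .scale ⟨2199023255552, 0, 0, 0⟩ 0,
  .sub 227 0,
  .sub 228 218,
  .mul 233 4,
  .mul 0 2,
  .add 208 0,
  .scale ⟨224412041216, 0, 0, 0⟩ 218,
  .inv 196,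
  .mul 1 0,
  .scale ⟨5497558138880, 0, 0, 0⟩ 235,
  .inv 0,
  .mul 238 0,
  .mul 238 1,
  .mul 0 216,
  .mul 0 5,
  .mul 3 218,
  .mul 0 7,
  .sub 243 0,
  .inv 0,
  .mul 74 2,
  .sub 246 0,
  .inv 0,
  .mul 226 249,
  .mul 0 87,
  .inv 230,
  .mul 1 0,
  .scale ⟨549755813888, 0, 0, 0⟩ 0,
  .sub 253 0,
  .sub 254 2,
  .inv 0,
  .mul 2 0,
  .mul 84 0,
  .mul 6 1,
  .mul 0 254,
  .pos 5,
  .scale ⟨1374389534720, 0, 0, 0⟩ 0,
  .sub 254 0,
  .pos 0,
  .scale ⟨3092376453120, 0, 0, 0⟩ 2,
  .add 0 208,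
  .mul 4 0,
  .add 265 0,
  .scale ⟨1546188226560, 0, 0, 0⟩ 6,
  .add 0 267,
  .mul 8 0,
  .add 269 0,
  .mul 260 250,
  .sub 271 161,
  .mul 262 251,
  .scale ⟨2199023255552, 0, 0, 0⟩ 0,
  .sub 2 0,
  .mul 4 4,
  .add 1 0,
  .add 0 277,
  .scale ⟨549755813888, 0, 0, 0⟩ 0,
  .scale ⟨549755813888, 0, 0, 0⟩ 255,
  .sub 266 0,
  .mul 170 9,
  .mul 0 269,
  .scale ⟨137438953472, 0, 0, 0⟩ 0,
  .add 3 0,
  .mul 6 0,
  .add 115 286,
  .mul 0 42,
  .mul 117 40,
  .add 1 0,
  .mul 47 0,
  .add 116 0,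
  .mul 0 287,
  .mul 6 50,
  .mul 0 49,
  .add 120 0,
  .mul 0 291,
  .scale ⟨223338299392, 0, 0, 0⟩ 0,
  .add 291 0,
  .mul 2 0,
  .add 300 0,
  .scale ⟨893353197568, 0, 0, 0⟩ 8,
  .add 302 0,
  .mul 10 0,
  .add 304 0,
  .mul 78 75,
  .mul 0 40,
  .mul 0 2,
  .mul 22 7,
  .add 258 302,
  .mul 2 0,
  .add 2 0,
  .add 261 312,
  .mul 5 0,
  .mul 44 1,
  .mul 0 85,
  .mul 0 87,
  .mul 5 143,
  .mul 1 60,
  .add 1 0,
  .mul 312 88,
  .inv 270,
  .mul 1 0,
  .scale ⟨549755813888, 0, 0, 0⟩ 0,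
  .mul 302 0,
  .mul 321 5,
  .add 1 0,
  .mul 327 0,
  .mul 16 41,
  .mul 0 84,
  .mul 16 159,
  .mul 0 83,
  .add 2 0,
  .mul 311 5,
  .mul 93 1,
  .add 1 0,
  .mul 225 0,
  .mul 0 15,
  .sub 338 0,
  .inv 0,
  .mul 4 0,
  .mul 337 0,
  .mul 231 1,
  .mul 0 21,
  .sub 344 0,
  .mul 297 0,
  .sub 0 4,
  .inv 0,
  .mul 6 0,
  .sub 298 6,
  .inv 0,
  .mul 2 130,
  .scale ⟨549755813888, 0, 0, 0⟩ 0,
  .sub 353 0,
  .sub 354 2,
  .inv 0,
  .mul 2 0,
  .mul 359 6,
  .mul 135 10,
  .mul 0 2,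
  .add 2 0,
  .mul 355 20,
  .mul 11 0,
  .mul 142 15,
  .mul 0 7,
  .mul 0 23,
  .add 3 0,
  .scale ⟨223338299392, 0, 0, 0⟩ 0,
  .add 361 0,
  .mul 2 0,
  .add 370 0,
  .mul 10 0,
  .mul 0 32,
  .mul 0 40,
  .mul 132 352,
  .const ⟨5497558138880, 0, 0, 0⟩,
  .inv 0,
  .mul 325 0,
  .mul 154 355,
  .mul 0 1,
  .mul 203 275,
  .mul 360 0,
  .scale ⟨549755813888, 0, 0, 0⟩ 160,
  .sub 383 0,
  .sub 384 162,
  .inv 0,
  .mul 2 0,
  .mul 0 202,
  .mul 277 267,
  .scale ⟨733097230336, 0, 0, 0⟩ 0,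
  .sub 390 0,
  .mul 270 0,
  .mul 304 304,
  .mul 382 0,
  .add 2 0,
  .mul 7 172,
  .add 1 396,
  .mul 1 0,
  .sub 3 0,
  .scale ⟨366548615168, 0, 0, 0⟩ 355,
  .sub 400 0,
  .mul 376 0,
  .add 3 0,
  .mul 22 0,
  .mul 22 22,
  .add 405 0,
  .inv 0,
  .mul 3 0,
  .sub 408 59,
  .mul 0 1,
  .sub 410 14,
  .pos 0,
  .pos 3,
  .pos 2,
  .mul 38 175,
  .mul 0 85,
  .inv 390,
  .mul 1 0,
  .mul 412 5,
  .neg 0,
  .exp 0,
  .mul 414 38,
  .add 419 0,
  .inv 0,
  .mul 3 0,
  .mul 0 403,
  .mul 415 82,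
  .mul 0 10,
  .add 425 0,
  .mul 3 0,
  .mul 0 76,
  .mul 424 54,
  .mul 0 186,
  .mul 426 55,
  .mul 16 0,
  .add 2 0,
  .add 4 18,
  .add 434 1,
  .mul 7 0,
  .add 2 0,
  .sub 437 0,
  .scale ⟨1073741824, 0, 0, 0⟩ 434,
  .sub 1 0,
  .sub 421 440,
  .add 0 386,
  .scale ⟨2199023255552, 0, 0, 0⟩ 64,
  .sub 1 0,
  .mul 220 0,
  .mul 4 2,
  .add 0 446,
  .inv 0,
  .mul 3 0,
  .mul 210 116,
  .scale ⟨549755813888, 0, 0, 0⟩ 215,
  .add 435 0,
  .mul 2 0,
  .scale ⟨2199023255552, 0, 0, 0⟩ 0,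
  .add 126 0,
  .scale ⟨2199023255552, 0, 0, 0⟩ 0,
  .mul 0 116,
  .sub 434 33,
  .inv 0,
  .mul 2 0,
  .sub 11 0,
  .mul 462 441,
  .mul 0 0,
  .const ⟨14293651161088, 0, 0, 0⟩,
  .const ⟨10995116277760, 0, 0, 0⟩,
  .inv 0,
  .mul 2 0,
  .mul 4 0,
  .mul 468 468,
  .scale ⟨27487790694400, 0, 0, 0⟩ 0,
  .add 2 0,
  .mul 91 50,
  .sub 433 468,
  .sub 0 435,
  .mul 471 474,
  .mul 452 142,
  .mul 0 239,
  .add 157 0,
  .add 54 423,
  .mul 480 0,
  .mul 9 8,
  .mul 141 1,
  .mul 7 4,
  .mul 1 0,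
  .sub 3 0,
  .scale ⟨549755813888, 0, 0, 0⟩ 61,
  .add 486 0,
  .mul 147 0,
  .mul 484 466,
  .mul 0 257,
  .mul 467 439,
  .inv 0,
  .mul 2 0,
  .mul 5 0,
  .sub 20 0,
  .mul 260 10,
  .sub 496 261,
  .mul 486 2,
  .mul 1 0,
  .mul 28 0,
  .add 4 0,
  .pos 257,
  .pos 254,
  .scale ⟨2199023255552, 0, 0, 0⟩ 164,
  .sub 451 0,
  .pos 0,
  .pos 156,
  .sub 496 281,
  .pos 0,
  .scale ⟨687194767360, 0, 0, 0⟩ 504,
  .sub 0 208,
  .pos 0,
  .scale ⟨377957122048, 0, 0, 0⟩ 506,
  .sub 0 214,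
  .pos 0,
  .pos 50,
  .pos 153,
  .sub 3 141,
  .pos 0,
  .pos 48,
  .pos 69,
  .pos 8,
  .pos 14]

def chk3 {α : Type} (cst : Z → α) (add sub mul : α → α → α) (scale : Z → α → α)
    (neg inv exp log : α → α) (ok : α → Bool) (isPos : Nat → α → Bool) (isLt : α → Nat → Bool) :
    List α → Bool
  | [x0, x1, x2, x3] =>
  let v0 := cst ⟨1099511627776, 0, 0, 0⟩; ok v0 && (
  let v1 := mul x1 x2; ok v1 && (
  let v2 := mul x2 x2; ok v2 && (
  let v3 := mul x0 x1; ok v3 && (
  let v4 := mul v3 v2; ok v4 && (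
  let v5 := mul v1 v1; ok v5 && (
  let v6 := mul v4 v3; ok v6 && (
  let v7 := cst ⟨549755813888, 0, 0, 0⟩; ok v7 && (
  let v8 := mul v4 x1; ok v8 && (
  let v9 := mul v8 x3; ok v9 && (
  let v10 := scale ⟨549755813888, 0, 0, 0⟩ v9; ok v10 && (
  let v11 := mul x1 x1; ok v11 && (
  let v12 := mul v10 v10; ok v12 && (
  let v13 := sub v0 v12; ok v13 && (
  let v14 := inv v13; ok v14 && (
  let v15 := mul v10 v14; ok v15 && (
  let v16 := scale ⟨2199023255552, 0, 0, 0⟩ v15; ok v16 && (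
  let v17 := scale ⟨2199023255552, 0, 0, 0⟩ v14; ok v17 && (
  let v18 := sub v17 v0; ok v18 && (
  let v19 := add v18 v16; ok v19 && (
  let v20 := mul x3 v14; ok v20 && (
  let v21 := mul x1 v20; ok v21 && (
  let v22 := sub v0 v21; ok v22 && (
  let v23 := add v0 v21; ok v23 && (
  let v24 := mul v4 v11; ok v24 && (
  let v25 := mul v20 v20; ok v25 && (
  let v26 := scale ⟨10774999203840, 0, 0, 0⟩ v10; ok v26 && (
  let v27 := scale ⟨45768245248, 0, 0, 0⟩ v26; ok v27 && (
  let v28 := cst ⟨183207198720, 0, 0, 0⟩; ok v28 && (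
  let v29 := add v27 v28; ok v29 && (
  let v30 := mul v26 v29; ok v30 && (
  let v31 := add v7 v30; ok v31 && (
  let v32 := mul v26 v31; ok v32 && (
  let v33 := add v0 v32; ok v33 && (
  let v34 := mul v26 v33; ok v34 && (
  let v35 := scale ⟨549755813888, 0, 0, 0⟩ v34; ok v35 && (
  let v36 := add v0 v35; ok v36 && (
  let v37 := mul v33 v36; ok v37 && (
  let v38 := mul v16 v21; ok v38 && (
  let v39 := scale ⟨2199023255552, 0, 0, 0⟩ v18; ok v39 && (
  let v40 := add v38 v39; ok v40 && (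
  let v41 := add v40 v4; ok v41 && (
  let v42 := mul v24 v41; ok v42 && (
  let v43 := add v42 v0; ok v43 && (
  let v44 := mul v16 v16; ok v44 && (
  let v45 := scale ⟨2199023255552, 0, 0, 0⟩ v44; ok v45 && (
  let v46 := add v45 v0; ok v46 && (
  let v47 := mul v18 v41; ok v47 && (
  let v48 := sub v47 v0; ok v48 && (
  let v49 := log v43; ok v49 && (
  let v50 := scale ⟨549755813888, 0, 0, 0⟩ v49; ok v50 && (
  let v51 := exp v50; ok v51 && (
  let v52 := cst ⟨3298534883328, 0, 0, 0⟩; ok v52 && (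
  let v53 := inv v52; ok v53 && (
  let v54 := mul v0 v53; ok v54 && (
  let v55 := cst ⟨2199023255552, 0, 0, 0⟩; ok v55 && (
  let v56 := add v42 v55; ok v56 && (
  let v57 := inv v56; ok v57 && (
  let v58 := mul v42 v57; ok v58 && (
  let v59 := mul v58 v58; ok v59 && (
  let v60 := sub v0 v58; ok v60 && (
  let v61 := mul v59 v54; ok v61 && (
  let v62 := add v0 v61; ok v62 && (
  let v63 := mul v60 v62; ok v63 && (
  let v64 := mul v59 v59; ok v64 && (
  let v65 := scale ⟨219915747328, 0, 0, 0⟩ v64; ok v65 && (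
  let v66 := mul v41 v63; ok v66 && (
  let v67 := scale ⟨549755813888, 0, 0, 0⟩ v66; ok v67 && (
  let v68 := mul v41 v65; ok v68 && (
  let v69 := scale ⟨549755813888, 0, 0, 0⟩ v68; ok v69 && (
  let v70 := add v67 v69; ok v70 && (
  let v71 := mul v18 v48; ok v71 && (
  let v72 := scale ⟨4398046511104, 0, 0, 0⟩ v71; ok v72 && (
  let v73 := mul v18 v24; ok v73 && (
  let v74 := mul v73 v48; ok v74 && (
  let v75 := scale ⟨4398046511104, 0, 0, 0⟩ v74; ok v75 && (
  let v76 := add v75 v55; ok v76 && (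
  let v77 := inv v76; ok v77 && (
  let v78 := mul v75 v77; ok v78 && (
  let v79 := mul v78 v78; ok v79 && (
  let v80 := sub v0 v78; ok v80 && (
  let v81 := mul v79 v54; ok v81 && (
  let v82 := add v0 v81; ok v82 && (
  let v83 := mul v80 v82; ok v83 && (
  let v84 := mul v79 v79; ok v84 && (
  let v85 := scale ⟨219915747328, 0, 0, 0⟩ v84; ok v85 && (
  let v86 := mul v72 v83; ok v86 && (
  let v87 := scale ⟨549755813888, 0, 0, 0⟩ v86; ok v87 && (
  let v88 := sub v87 v70; ok v88 && (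
  let v89 := mul v72 v85; ok v89 && (
  let v90 := scale ⟨549755813888, 0, 0, 0⟩ v89; ok v90 && (
  let v91 := add v90 v69; ok v91 && (
  let v92 := add v88 v91; ok v92 && (
  let v93 := mul v3 v67; ok v93 && (
  let v94 := neg v93; ok v94 && (
  let v95 := exp v94; ok v95 && (
  let v96 := mul v3 v69; ok v96 && (
  let v97 := mul v95 v96; ok v97 && (
  let v98 := mul v3 v88; ok v98 && (
  let v99 := neg v98; ok v99 && (
  let v100 := exp v99; ok v100 && (
  let v101 := mul v3 v91; ok v101 && (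
  let v102 := mul v100 v101; ok v102 && (
  let v103 := mul v21 v16; ok v103 && (
  let v104 := add v18 v103; ok v104 && (
  let v105 := inv v104; ok v105 && (
  let v106 := mul v23 v105; ok v106 && (
  let v107 := mul v22 v4; ok v107 && (
  let v108 := mul v107 v106; ok v108 && (
  let v109 := sub v0 v11; ok v109 && (
  let v110 := mul v25 v109; ok v110 && (
  let v111 := mul v8 v8; ok v111 && (
  let v112 := sub v0 v25; ok v112 && (
  let v113 := mul v109 v112; ok v113 && (
  let v114 := mul v24 v48; ok v114 && (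
  let v115 := inv v43; ok v115 && (
  let v116 := mul v114 v115; ok v116 && (
  let v117 := add v18 v116; ok v117 && (
  let v118 := mul v43 v117; ok v118 && (
  let v119 := mul v118 v118; ok v119 && (
  let v120 := inv v119; ok v120 && (
  let v121 := mul v113 v120; ok v121 && (
  let v122 := add v18 v24; ok v122 && (
  let v123 := mul v0 v122; ok v123 && (
  let v124 := inv v123; ok v124 && (
  let v125 := mul x0 v124; ok v125 && (
  let v126 := mul v125 v125; ok v126 && (
  let v127 := mul v126 v113; ok v127 && (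
  let v128 := cst ⟨45812285440, 0, 0, 0⟩; ok v128 && (
  let v129 := scale ⟨1527119872, 0, 0, 0⟩ v127; ok v129 && (
  let v130 := sub v128 v129; ok v130 && (
  let v131 := mul v127 v130; ok v131 && (
  let v132 := sub v7 v131; ok v132 && (
  let v133 := mul v127 v132; ok v133 && (
  let v134 := sub v0 v133; ok v134 && (
  let v135 := add v95 v0; ok v135 && (
  let v136 := mul v95 v95; ok v136 && (
  let v137 := add v136 v0; ok v137 && (
  let v138 := mul v95 v134; ok v138 && (
  let v139 := scale ⟨2199023255552, 0, 0, 0⟩ v138; ok v139 && (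
  let v140 := add v137 v139; ok v140 && (
  let v141 := scale ⟨4398046511104, 0, 0, 0⟩ v97; ok v141 && (
  let v142 := sub v140 v141; ok v142 && (
  let v143 := inv v135; ok v143 && (
  let v144 := mul v142 v143; ok v144 && (
  let v145 := add v144 v135; ok v145 && (
  let v146 := mul v95 v108; ok v146 && (
  let v147 := scale ⟨549755813888, 0, 0, 0⟩ v146; ok v147 && (
  let v148 := mul v147 v145; ok v148 && (
  let v149 := sub v142 v148; ok v149 && (
  isPos 4 v142 && (
  isPos 4 v149 && (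
  let v150 := mul v3 v70; ok v150 && (
  let v151 := scale ⟨2199023255552, 0, 0, 0⟩ v150; ok v151 && (
  let v152 := scale ⟨183274307584, 0, 0, 0⟩ v151; ok v152 && (
  let v153 := sub v7 v152; ok v153 && (
  let v154 := mul v151 v153; ok v154 && (
  let v155 := sub v0 v154; ok v155 && (
  let v156 := mul v70 v155; ok v156 && (
  let v157 := inv v149; ok v157 && (
  let v158 := mul v156 v157; ok v158 && (
  let v159 := mul v3 v158; ok v159 && (
  let v160 := add v159 v7; ok v160 && (
  let v161 := inv v160; ok v161 && (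
  let v162 := mul v158 v161; ok v162 && (
  let v163 := mul v3 v162; ok v163 && (
  let v164 := mul v108 v163; ok v164 && (
  let v165 := scale ⟨549755813888, 0, 0, 0⟩ v164; ok v165 && (
  let v166 := sub v0 v165; ok v166 && (
  let v167 := sub v0 v164; ok v167 && (
  let v168 := inv v167; ok v168 && (
  let v169 := mul v166 v168; ok v169 && (
  let v170 := add v164 v0; ok v170 && (
  let v171 := mul v95 v170; ok v171 && (
  let v172 := mul v106 v169; ok v172 && (
  let v173 := mul x1 v162; ok v173 && (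
  let v174 := mul v172 v173; ok v174 && (
  let v175 := mul v164 v169; ok v175 && (
  isPos 4 v167 && (
  let v176 := mul v22 v23; ok v176 && (
  let v177 := add v18 v4; ok v177 && (
  let v178 := mul v21 v18; ok v178 && (
  let v179 := mul v178 v16; ok v179 && (
  let v180 := scale ⟨2199023255552, 0, 0, 0⟩ v179; ok v180 && (
  let v181 := add v46 v180; ok v181 && (
  let v182 := mul v177 v181; ok v182 && (
  let v183 := inv v182; ok v183 && (
  let v184 := mul v176 v183; ok v184 && (
  let v185 := mul v4 v184; ok v185 && (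
  isPos 4 v88 && (
  let v186 := mul v127 v115; ok v186 && (
  let v187 := scale ⟨1527119872, 0, 0, 0⟩ v186; ok v187 && (
  let v188 := sub v128 v187; ok v188 && (
  let v189 := mul v186 v188; ok v189 && (
  let v190 := sub v7 v189; ok v190 && (
  let v191 := mul v186 v190; ok v191 && (
  let v192 := sub v0 v191; ok v192 && (
  let v193 := add v100 v0; ok v193 && (
  let v194 := mul v100 v100; ok v194 && (
  let v195 := add v194 v0; ok v195 && (
  let v196 := mul v100 v192; ok v196 && (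
  let v197 := scale ⟨2199023255552, 0, 0, 0⟩ v196; ok v197 && (
  let v198 := add v195 v197; ok v198 && (
  let v199 := scale ⟨4398046511104, 0, 0, 0⟩ v102; ok v199 && (
  let v200 := sub v198 v199; ok v200 && (
  let v201 := inv v193; ok v201 && (
  let v202 := mul v200 v201; ok v202 && (
  let v203 := add v202 v193; ok v203 && (
  let v204 := mul v100 v185; ok v204 && (
  let v205 := scale ⟨549755813888, 0, 0, 0⟩ v204; ok v205 && (
  let v206 := mul v205 v203; ok v206 && (
  let v207 := sub v200 v206; ok v207 && (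
  isPos 4 v200 && (
  isPos 4 v207 && (
  let v208 := mul v3 v92; ok v208 && (
  let v209 := scale ⟨2199023255552, 0, 0, 0⟩ v208; ok v209 && (
  let v210 := scale ⟨183274307584, 0, 0, 0⟩ v209; ok v210 && (
  let v211 := sub v7 v210; ok v211 && (
  let v212 := mul v209 v211; ok v212 && (
  let v213 := sub v0 v212; ok v213 && (
  let v214 := mul v92 v213; ok v214 && (
  let v215 := inv v207; ok v215 && (
  let v216 := mul v214 v215; ok v216 && (
  let v217 := mul v3 v216; ok v217 && (
  let v218 := add v217 v7; ok v218 && (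
  let v219 := inv v218; ok v219 && (
  let v220 := mul v216 v219; ok v220 && (
  let v221 := mul v3 v220; ok v221 && (
  let v222 := mul v185 v221; ok v222 && (
  let v223 := mul x1 v220; ok v223 && (
  let v224 := add v10 v0; ok v224 && (
  let v225 := inv v224; ok v225 && (
  let v226 := mul v10 v225; ok v226 && (
  let v227 := scale ⟨2199023255552, 0, 0, 0⟩ v226; ok v227 && (
  let v228 := sub v0 v227; ok v228 && (
  let v229 := sub v0 v10; ok v229 && (
  let v230 := mul x3 v225; ok v230 && (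
  let v231 := mul v230 v228; ok v231 && (
  let v232 := add v23 v231; ok v232 && (
  let v233 := scale ⟨224412041216, 0, 0, 0⟩ v14; ok v233 && (
  let v234 := inv v37; ok v234 && (
  let v235 := mul v233 v234; ok v235 && (
  let v236 := scale ⟨5497558138880, 0, 0, 0⟩ v0; ok v236 && (
  let v237 := inv v236; ok v237 && (
  let v238 := mul x0 v237; ok v238 && (
  let v239 := mul v0 v237; ok v239 && (
  let v240 := mul v239 v23; ok v240 && (
  let v241 := mul v240 v235; ok v241 && (
  let v242 := mul v238 v23; ok v242 && (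
  let v243 := mul v242 v235; ok v243 && (
  let v244 := sub v0 v243; ok v244 && (
  let v245 := inv v244; ok v245 && (
  let v246 := mul v171 v243; ok v246 && (
  let v247 := sub v0 v246; ok v247 && (
  let v248 := inv v247; ok v248 && (
  let v249 := mul v22 x0; ok v249 && (
  let v250 := mul v249 v162; ok v250 && (
  let v251 := inv v20; ok v251 && (
  let v252 := mul v250 v251; ok v252 && (
  let v253 := scale ⟨549755813888, 0, 0, 0⟩ v252; ok v253 && (
  let v254 := sub v0 v253; ok v254 && (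
  let v255 := sub v0 v252; ok v255 && (
  let v256 := inv v255; ok v256 && (
  let v257 := mul v254 v256; ok v257 && (
  let v258 := mul v173 v257; ok v258 && (
  let v259 := mul v252 v257; ok v259 && (
  let v260 := mul v259 v5; ok v260 && (
  isPos 4 v255 && (
  let v261 := scale ⟨1374389534720, 0, 0, 0⟩ v260; ok v261 && (
  let v262 := sub v7 v261; ok v262 && (
  isPos 4 v262 && (
  let v263 := scale ⟨3092376453120, 0, 0, 0⟩ v260; ok v263 && (
  let v264 := add v263 v55; ok v264 && (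
  let v265 := mul v260 v264; ok v265 && (
  let v266 := add v0 v265; ok v266 && (
  let v267 := scale ⟨1546188226560, 0, 0, 0⟩ v260; ok v267 && (
  let v268 := add v267 v0; ok v268 && (
  let v269 := mul v260 v268; ok v269 && (
  let v270 := add v0 v269; ok v270 && (
  let v271 := mul v10 v20; ok v271 && (
  let v272 := sub v0 v110; ok v272 && (
  let v273 := mul v10 v21; ok v273 && (
  let v274 := scale ⟨2199023255552, 0, 0, 0⟩ v273; ok v274 && (
  let v275 := sub v272 v274; ok v275 && (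
  let v276 := mul v271 v271; ok v276 && (
  let v277 := add v275 v276; ok v277 && (
  let v278 := add v277 v0; ok v278 && (
  let v279 := scale ⟨549755813888, 0, 0, 0⟩ v278; ok v279 && (
  let v280 := scale ⟨549755813888, 0, 0, 0⟩ v24; ok v280 && (
  let v281 := sub v14 v280; ok v281 && (
  let v282 := mul v111 v272; ok v282 && (
  let v283 := mul v282 v13; ok v283 && (
  let v284 := scale ⟨137438953472, 0, 0, 0⟩ v283; ok v284 && (
  let v285 := add v281 v284; ok v285 && (
  let v286 := mul v279 v285; ok v286 && (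
  let v287 := add v171 v0; ok v287 && (
  let v288 := mul v287 v245; ok v288 && (
  let v289 := mul v171 v248; ok v289 && (
  let v290 := add v288 v289; ok v290 && (
  let v291 := mul v243 v290; ok v291 && (
  let v292 := add v175 v291; ok v292 && (
  let v293 := mul v292 v5; ok v293 && (
  let v294 := mul v287 v243; ok v294 && (
  let v295 := mul v294 v245; ok v295 && (
  let v296 := add v175 v295; ok v296 && (
  let v297 := mul v296 v5; ok v297 && (
  let v298 := scale ⟨223338299392, 0, 0, 0⟩ v297; ok v298 && (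
  let v299 := add v7 v298; ok v299 && (
  let v300 := mul v297 v299; ok v300 && (
  let v301 := add v0 v300; ok v301 && (
  let v302 := scale ⟨893353197568, 0, 0, 0⟩ v293; ok v302 && (
  let v303 := add v0 v302; ok v303 && (
  let v304 := mul v293 v303; ok v304 && (
  let v305 := add v0 v304; ok v305 && (
  let v306 := mul v227 v230; ok v306 && (
  let v307 := mul v306 v266; ok v307 && (
  let v308 := mul v307 v305; ok v308 && (
  let v309 := mul v286 v301; ok v309 && (
  let v310 := add v51 v7; ok v310 && (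
  let v311 := mul v308 v310; ok v311 && (
  let v312 := add v309 v311; ok v312 && (
  let v313 := add v51 v0; ok v313 && (
  let v314 := mul v308 v313; ok v314 && (
  let v315 := mul v270 v313; ok v315 && (
  let v316 := mul v315 v230; ok v316 && (
  let v317 := mul v316 v229; ok v317 && (
  let v318 := mul v312 v174; ok v318 && (
  let v319 := mul v317 v258; ok v319 && (
  let v320 := add v318 v319; ok v320 && (
  let v321 := mul v8 v232; ok v321 && (
  let v322 := inv v51; ok v322 && (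
  let v323 := mul v321 v322; ok v323 && (
  let v324 := scale ⟨549755813888, 0, 0, 0⟩ v323; ok v324 && (
  let v325 := mul v22 v324; ok v325 && (
  let v326 := mul v4 v320; ok v326 && (
  let v327 := add v325 v326; ok v327 && (
  let v328 := mul v0 v327; ok v328 && (
  let v329 := mul v312 v287; ok v329 && (
  let v330 := mul v329 v245; ok v330 && (
  let v331 := mul v314 v171; ok v331 && (
  let v332 := mul v331 v248; ok v332 && (
  let v333 := add v330 v332; ok v333 && (
  let v334 := mul v22 v328; ok v334 && (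
  let v335 := mul v241 v333; ok v335 && (
  let v336 := add v334 v335; ok v336 && (
  let v337 := mul v111 v336; ok v337 && (
  let v338 := mul v337 v322; ok v338 && (
  let v339 := sub v0 v338; ok v339 && (
  let v340 := inv v339; ok v340 && (
  let v341 := mul v336 v340; ok v341 && (
  let v342 := mul v4 v341; ok v342 && (
  let v343 := mul v111 v341; ok v343 && (
  let v344 := mul v343 v322; ok v344 && (
  let v345 := sub v0 v344; ok v345 && (
  let v346 := mul v48 v345; ok v346 && (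
  let v347 := sub v346 v342; ok v347 && (
  let v348 := inv v347; ok v348 && (
  let v349 := mul v342 v348; ok v349 && (
  let v350 := sub v51 v343; ok v350 && (
  let v351 := inv v350; ok v351 && (
  let v352 := mul v349 v221; ok v352 && (
  let v353 := scale ⟨549755813888, 0, 0, 0⟩ v352; ok v353 && (
  let v354 := sub v0 v353; ok v354 && (
  let v355 := sub v0 v352; ok v355 && (
  let v356 := inv v355; ok v356 && (
  let v357 := mul v354 v356; ok v357 && (
  let v358 := mul x1 v351; ok v358 && (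
  let v359 := mul v223 v348; ok v359 && (
  let v360 := mul v359 v357; ok v360 && (
  let v361 := add v358 v360; ok v361 && (
  let v362 := mul v6 v341; ok v362 && (
  let v363 := mul v351 v362; ok v363 && (
  let v364 := mul v221 v348; ok v364 && (
  let v365 := mul v364 v357; ok v365 && (
  let v366 := mul v365 v342; ok v366 && (
  let v367 := add v363 v366; ok v367 && (
  let v368 := scale ⟨223338299392, 0, 0, 0⟩ v367; ok v368 && (
  let v369 := add v7 v368; ok v369 && (
  let v370 := mul v367 v369; ok v370 && (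
  let v371 := add v0 v370; ok v371 && (
  let v372 := mul v361 v371; ok v372 && (
  let v373 := mul v372 v340; ok v373 && (
  let v374 := mul v373 v333; ok v374 && (
  let v375 := mul v242 v22; ok v375 && (
  let v376 := cst ⟨5497558138880, 0, 0, 0⟩; ok v376 && (
  let v377 := inv v376; ok v377 && (
  let v378 := mul v52 v377; ok v378 && (
  let v379 := mul v224 v23; ok v379 && (
  let v380 := mul v379 v378; ok v380 && (
  let v381 := mul v177 v105; ok v381 && (
  let v382 := mul v21 v381; ok v382 && (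
  let v383 := scale ⟨549755813888, 0, 0, 0⟩ v222; ok v383 && (
  let v384 := sub v0 v383; ok v384 && (
  let v385 := sub v0 v222; ok v385 && (
  let v386 := inv v385; ok v386 && (
  let v387 := mul v384 v386; ok v387 && (
  let v388 := mul v387 v185; ok v388 && (
  let v389 := mul v111 v121; ok v389 && (
  let v390 := scale ⟨733097230336, 0, 0, 0⟩ v389; ok v390 && (
  let v391 := sub v0 v390; ok v391 && (
  let v392 := mul v121 v391; ok v392 && (
  let v393 := mul v88 v88; ok v393 && (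
  let v394 := mul v11 v393; ok v394 && (
  let v395 := add v392 v394; ok v395 && (
  let v396 := mul v388 v223; ok v396 && (
  let v397 := add v395 v0; ok v397 && (
  let v398 := mul v396 v397; ok v398 && (
  let v399 := sub v395 v398; ok v399 && (
  let v400 := scale ⟨366548615168, 0, 0, 0⟩ v44; ok v400 && (
  let v401 := sub v0 v400; ok v401 && (
  let v402 := mul v25 v401; ok v402 && (
  let v403 := add v399 v402; ok v403 && (
  let v404 := mul v381 v403; ok v404 && (
  let v405 := mul v382 v382; ok v405 && (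
  let v406 := add v0 v405; ok v406 && (
  let v407 := inv v406; ok v407 && (
  let v408 := mul v404 v407; ok v408 && (
  let v409 := sub v0 v349; ok v409 && (
  let v410 := mul v409 v408; ok v410 && (
  let v411 := sub v0 v396; ok v411 && (
  isPos 4 v411 && (
  isPos 4 v408 && (
  isPos 4 v409 && (
  let v412 := mul v373 v236; ok v412 && (
  let v413 := mul v412 v327; ok v413 && (
  let v414 := inv v23; ok v414 && (
  let v415 := mul v413 v414; ok v415 && (
  let v416 := mul v3 v410; ok v416 && (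
  let v417 := neg v416; ok v417 && (
  let v418 := exp v417; ok v418 && (
  let v419 := mul v4 v380; ok v419 && (
  let v420 := add v0 v419; ok v420 && (
  let v421 := inv v420; ok v421 && (
  let v422 := mul v418 v421; ok v422 && (
  let v423 := mul v422 v19; ok v423 && (
  let v424 := mul v8 v341; ok v424 && (
  let v425 := mul v424 v414; ok v425 && (
  let v426 := add v0 v425; ok v426 && (
  let v427 := mul v423 v426; ok v427 && (
  let v428 := mul v427 v351; ok v428 && (
  let v429 := mul v4 v374; ok v429 && (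
  let v430 := mul v429 v243; ok v430 && (
  let v431 := mul v4 v375; ok v431 && (
  let v432 := mul v415 v431; ok v432 && (
  let v433 := add v430 v432; ok v433 && (
  let v434 := add v429 v415; ok v434 && (
  let v435 := add v0 v433; ok v435 && (
  let v436 := mul v428 v435; ok v436 && (
  let v437 := add v434 v436; ok v437 && (
  let v438 := sub v0 v437; ok v438 && (
  let v439 := scale ⟨1073741824, 0, 0, 0⟩ v4; ok v439 && (
  let v440 := sub v438 v439; ok v440 && (
  let v441 := sub v19 v0; ok v441 && (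
  let v442 := add v441 v55; ok v442 && (
  let v443 := scale ⟨2199023255552, 0, 0, 0⟩ v378; ok v443 && (
  let v444 := sub v442 v443; ok v444 && (
  let v445 := mul v224 v444; ok v445 && (
  let v446 := mul v441 v443; ok v446 && (
  let v447 := add v446 v0; ok v447 && (
  let v448 := inv v447; ok v448 && (
  let v449 := mul v445 v448; ok v449 && (
  let v450 := mul v239 v333; ok v450 && (
  let v451 := scale ⟨549755813888, 0, 0, 0⟩ v235; ok v451 && (
  let v452 := add v16 v451; ok v452 && (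
  let v453 := mul v450 v452; ok v453 && (
  let v454 := scale ⟨2199023255552, 0, 0, 0⟩ v453; ok v454 && (
  let v455 := add v328 v454; ok v455 && (
  let v456 := scale ⟨2199023255552, 0, 0, 0⟩ v455; ok v456 && (
  let v457 := mul v456 v340; ok v457 && (
  let v458 := sub v23 v424; ok v458 && (
  let v459 := inv v458; ok v459 && (
  let v460 := mul v457 v459; ok v460 && (
  let v461 := sub v449 v460; ok v461 && (
  let v462 := mul x0 v20; ok v462 && (
  let v463 := mul v462 v462; ok v463 && (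
  let v464 := cst ⟨14293651161088, 0, 0, 0⟩; ok v464 && (
  let v465 := cst ⟨10995116277760, 0, 0, 0⟩; ok v465 && (
  let v466 := inv v465; ok v466 && (
  let v467 := mul v464 v466; ok v467 && (
  let v468 := mul v463 v467; ok v468 && (
  let v469 := mul v0 v0; ok v469 && (
  let v470 := scale ⟨27487790694400, 0, 0, 0⟩ v469; ok v470 && (
  let v471 := add v468 v470; ok v471 && (
  let v472 := mul v380 v421; ok v472 && (
  let v473 := sub v39 v4; ok v473 && (
  let v474 := sub v473 v38; ok v474 && (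
  let v475 := mul v3 v0; ok v475 && (
  let v476 := mul v23 v333; ok v476 && (
  let v477 := mul v476 v237; ok v477 && (
  let v478 := add v320 v477; ok v478 && (
  let v479 := add v424 v55; ok v479 && (
  let v480 := mul x0 v479; ok v480 && (
  let v481 := mul v471 v472; ok v481 && (
  let v482 := mul v340 v480; ok v482 && (
  let v483 := mul v475 v478; ok v483 && (
  let v484 := mul v482 v483; ok v484 && (
  let v485 := sub v481 v484; ok v485 && (
  let v486 := scale ⟨549755813888, 0, 0, 0⟩ v424; ok v486 && (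
  let v487 := add v0 v486; ok v487 && (
  let v488 := mul v340 v487; ok v488 && (
  let v489 := mul v4 v22; ok v489 && (
  let v490 := mul v489 v232; ok v490 && (
  let v491 := mul v23 v51; ok v491 && (
  let v492 := inv v491; ok v492 && (
  let v493 := mul v490 v492; ok v493 && (
  let v494 := mul v488 v493; ok v494 && (
  let v495 := sub v474 v494; ok v495 && (
  let v496 := mul v235 v485; ok v496 && (
  let v497 := sub v0 v235; ok v497 && (
  let v498 := mul v11 v495; ok v498 && (
  let v499 := mul v497 v498; ok v499 && (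
  let v500 := mul v471 v499; ok v500 && (
  let v501 := add v496 v500; ok v501 && (
  isPos 4 v244 && (
  isPos 4 v247 && (
  let v502 := scale ⟨2199023255552, 0, 0, 0⟩ v337; ok v502 && (
  let v503 := sub v51 v502; ok v503 && (
  isPos 4 v503 && (
  isPos 4 v347 && (
  let v504 := sub v7 v222; ok v504 && (
  isPos 4 v504 && (
  let v505 := scale ⟨687194767360, 0, 0, 0⟩ v0; ok v505 && (
  let v506 := sub v505 v297; ok v506 && (
  isPos 4 v506 && (
  let v507 := scale ⟨377957122048, 0, 0, 0⟩ v0; ok v507 && (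
  let v508 := sub v507 v293; ok v508 && (
  isPos 4 v508 && (
  isPos 4 v458 && (
  isPos 4 v355 && (
  let v509 := sub v505 v367; ok v509 && (
  isPos 4 v509 && (
  isPos 4 v461 && (
  isPos 4 v440 && (
  isPos 4 v501 && (
  isPos 4 v495 && (
  true)))))))))))))))))))))))))))))))))))))))))))))))))))))))))))))))))))))))))))))))))))))))))))))))))))))))))))))))))))))))))))))))))))))))))))))))))))))))))))))))))))))))))))))))))))))))))))))))))))))))))))))))))))))))))))))))))))))))))))))))))))))))))))))))))))))))))))))))))))))))))))))))))))))))))))))))))))))))))))))))))))))))))))))))))))))))))))))))))))))))))))))))))))))))))))))))))))))))))))))))))))))))))))))))))))))))))))))))))))))))))))))))))))))))))))))))))))))))))))))))))))))))))))))))))))))))))))))))))))))))))))))))))))))))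
  | _ => false

set_option maxRecDepth 1000000 in
theorem chk3_eq (O : Ops) (m : List O.α)
    (h : chk3 O.cst O.add O.sub O.mul O.scale O.neg O.inv O.exp O.log O.ok O.isPos O.isLt m = true) :
    runG O 4 prog3 m = true := by
  match m, h with
  | [x0, x1, x2, x3], h => exact h

def chkB3 : List opsE.α → Bool :=
  chk3 opsE.cst opsE.add opsE.sub opsE.mul opsE.scale opsE.neg opsE.inv opsE.exp opsE.log opsE.ok opsE.isPos opsE.isLt

theorem chkB3_eq (m : List opsE.α) (h : chkB3 m = true) : runG opsE 4 prog3 m = true :=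
  chk3_eq opsE m h

def prog4 : List Op := [
  .const ⟨1099511627776, 0, 0, 0⟩,
  .mul 2 3,
  .mul 4 4,
  .mul 3 4,
  .mul 0 1,
  .mul 3 3,
  .mul 1 2,
  .const ⟨549755813888, 0, 0, 0⟩,
  .mul 3 9,
  .mul 0 12,
  .scale ⟨549755813888, 0, 0, 0⟩ 0,
  .mul 12 12,
  .mul 1 1,
  .sub 12 0,
  .inv 0,
  .mul 4 0,
  .scale ⟨2199023255552, 0, 0, 0⟩ 0,
  .scale ⟨2199023255552, 0, 0, 0⟩ 2,
  .sub 0 17,
  .add 0 2,
  .mul 23 5,
  .mul 22 0,
  .sub 21 0,
  .add 22 1,
  .mul 19 12,
  .mul 4 4,
  .scale ⟨10774999203840, 0, 0, 0⟩ 15,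
  .scale ⟨45768245248, 0, 0, 0⟩ 0,
  .const ⟨183207198720, 0, 0, 0⟩,
  .add 1 0,
  .mul 3 0,
  .add 23 0,
  .mul 5 0,
  .add 32 0,
  .mul 7 0,
  .scale ⟨549755813888, 0, 0, 0⟩ 0,
  .add 35 0,
  .mul 3 0,
  .mul 21 16,
  .scale ⟨2199023255552, 0, 0, 0⟩ 20,
  .add 1 0,
  .add 0 36,
  .mul 17 0,
  .add 0 42,
  .mul 27 27,
  .scale ⟨2199023255552, 0, 0, 0⟩ 0,
  .add 0 45,
  .mul 28 5,
  .sub 0 47,
  .log 5,
  .scale ⟨549755813888, 0, 0, 0⟩ 0,
  .exp 0,
  .const ⟨3298534883328, 0, 0, 0⟩,
  .inv 0,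
  .mul 53 0,
  .const ⟨2199023255552, 0, 0, 0⟩,
  .add 13 0,
  .inv 0,
  .mul 15 0,
  .mul 0 0,
  .sub 59 1,
  .mul 1 6,
  .add 61 0,
  .mul 2 0,
  .mul 4 4,
  .scale ⟨219915747328, 0, 0, 0⟩ 0,
  .mul 24 2,
  .scale ⟨549755813888, 0, 0, 0⟩ 0,
  .mul 26 2,
  .scale ⟨549755813888, 0, 0, 0⟩ 0,
  .add 2 0,
  .mul 52 22,
  .scale ⟨4398046511104, 0, 0, 0⟩ 0,
  .mul 54 48,
  .mul 0 25,
  .scale ⟨4398046511104, 0, 0, 0⟩ 0,
  .add 0 20,
  .inv 0,
  .mul 2 0,
  .mul 0 0,
  .sub 79 1,
  .mul 1 26,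
  .add 81 0,
  .mul 2 0,
  .mul 4 4,
  .scale ⟨219915747328, 0, 0, 0⟩ 0,
  .mul 13 2,
  .scale ⟨549755813888, 0, 0, 0⟩ 0,
  .sub 0 17,
  .mul 16 3,
  .scale ⟨549755813888, 0, 0, 0⟩ 0,
  .add 0 21,
  .add 3 0,
  .mul 89 25,
  .neg 0,
  .exp 0,
  .mul 92 26,
  .mul 1 0,
  .mul 94 9,
  .neg 0,
  .exp 0,
  .mul 97 9,
  .mul 1 0,
  .mul 81 86,
  .add 85 0,
  .inv 0,
  .mul 82 0,
  .mul 84 102,
  .mul 0 1,
  .sub 108 97,
  .mul 84 0,
  .mul 102 102,
  .sub 111 86,
  .mul 3 0,
  .mul 89 65,
  .inv 71,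
  .mul 1 0,
  .add 98 0,
  .mul 74 0,
  .mul 0 0,
  .inv 0,
  .mul 7 0,
  .add 103 97,
  .mul 122 0,
  .inv 0,
  .mul 125 0,
  .mul 0 0,
  .mul 0 13,
  .const ⟨45812285440, 0, 0, 0⟩,
  .scale ⟨1527119872, 0, 0, 0⟩ 1,
  .sub 1 0,
  .mul 3 0,
  .sub 124 0,
  .mul 5 0,
  .sub 133 0,
  .add 39 134,
  .mul 40 40,
  .add 0 136,
  .mul 42 3,
  .scale ⟨2199023255552, 0, 0, 0⟩ 0,
  .add 2 0,
  .scale ⟨4398046511104, 0, 0, 0⟩ 43,
  .sub 1 0,
  .inv 7,
  .mul 1 0,
  .add 0 9,
  .mul 50 37,
  .scale ⟨549755813888, 0, 0, 0⟩ 0,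
  .mul 0 2,
  .sub 6 0,
  .pos 7,
  .pos 0,
  .mul 146 79,
  .scale ⟨2199023255552, 0, 0, 0⟩ 0,
  .scale ⟨183274307584, 0, 0, 0⟩ 0,
  .sub 145 0,
  .mul 2 0,
  .sub 154 0,
  .mul 85 0,
  .inv 7,
  .mul 1 0,
  .mul 155 0,
  .add 0 152,
  .inv 0,
  .mul 3 0,
  .mul 159 0,
  .mul 55 0,
  .scale ⟨549755813888, 0, 0, 0⟩ 0,
  .sub 165 0,
  .sub 166 2,
  .inv 0,
  .mul 2 0,
  .add 5 169,
  .mul 75 0,
  .mul 65 2,
  .mul 174 10,
  .mul 1 0,
  .mul 10 5,
  .pos 8,
  .mul 153 152,
  .add 158 172,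
  .mul 156 159,
  .mul 0 162,
  .scale ⟨2199023255552, 0, 0, 0⟩ 0,
  .add 134 0,
  .mul 4 0,
  .inv 0,
  .mul 7 0,
  .mul 180 0,
  .pos 97,
  .mul 58 70,
  .scale ⟨1527119872, 0, 0, 0⟩ 0,
  .sub 59 0,
  .mul 2 0,
  .sub 182 0,
  .mul 4 0,
  .sub 191 0,
  .add 92 192,
  .mul 93 93,
  .add 0 194,
  .mul 95 3,
  .scale ⟨2199023255552, 0, 0, 0⟩ 0,
  .add 2 0,
  .scale ⟨4398046511104, 0, 0, 0⟩ 96,
  .sub 1 0,
  .inv 7,
  .mul 1 0,
  .add 0 9,
  .mul 103 18,
  .scale ⟨549755813888, 0, 0, 0⟩ 0,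
  .mul 0 2,
  .sub 6 0,
  .pos 7,
  .pos 0,
  .mul 204 115,
  .scale ⟨2199023255552, 0, 0, 0⟩ 0,
  .scale ⟨183274307584, 0, 0, 0⟩ 0,
  .sub 203 0,
  .mul 2 0,
  .sub 212 0,
  .mul 121 0,
  .inv 7,
  .mul 1 0,
  .mul 213 0,
  .add 0 210,
  .inv 0,
  .mul 3 0,
  .mul 217 0,
  .mul 36 0,
  .mul 224 2,
  .add 213 223,
  .inv 0,
  .mul 215 0,
  .scale ⟨2199023255552, 0, 0, 0⟩ 0,
  .sub 227 0,
  .sub 228 218,
  .mul 233 4,
  .mul 0 2,
  .add 208 0,
  .scale ⟨224412041216, 0, 0, 0⟩ 218,
  .inv 196,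
  .mul 1 0,
  .scale ⟨5497558138880, 0, 0, 0⟩ 235,
  .inv 0,
  .mul 238 0,
  .mul 238 1,
  .mul 0 216,
  .mul 0 5,
  .mul 3 218,
  .mul 0 7,
  .sub 243 0,
  .inv 0,
  .mul 74 2,
  .sub 246 0,
  .inv 0,
  .scale ⟨2199023255552, 0, 0, 0⟩ 243,
  .add 0 249,
  .add 245 250,
  .scale ⟨549755813888, 0, 0, 0⟩ 89,
  .inv 253,
  .mul 255 0,
  .scale ⟨2199023255552, 0, 0, 0⟩ 0,
  .add 3 0,
  .scale ⟨549755813888, 0, 0, 0⟩ 0,
  .mul 247 237,
  .sub 258 148,
  .mul 249 238,
  .scale ⟨2199023255552, 0, 0, 0⟩ 0,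
  .sub 2 0,
  .mul 4 4,
  .add 1 0,
  .add 0 264,
  .scale ⟨549755813888, 0, 0, 0⟩ 0,
  .scale ⟨549755813888, 0, 0, 0⟩ 242,
  .sub 253 0,
  .mul 157 9,
  .mul 0 256,
  .scale ⟨137438953472, 0, 0, 0⟩ 0,
  .add 3 0,
  .mul 6 0,
  .add 102 273,
  .mul 0 29,
  .mul 104 27,
  .add 1 0,
  .mul 34 0,
  .add 103 0,
  .mul 0 274,
  .mul 6 37,
  .mul 0 36,
  .add 107 0,
  .mul 0 278,
  .scale ⟨223338299392, 0, 0, 0⟩ 0,
  .add 278 0,
  .mul 2 0,
  .add 287 0,
  .scale ⟨893353197568, 0, 0, 0⟩ 8,
  .add 289 0,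
  .mul 10 0,
  .add 291 0,
  .mul 65 62,
  .mul 0 43,
  .mul 0 2,
  .mul 22 7,
  .add 245 289,
  .mul 2 0,
  .add 2 0,
  .add 248 299,
  .mul 5 0,
  .mul 50 1,
  .mul 0 72,
  .mul 0 74,
  .mul 5 130,
  .mul 1 48,
  .add 1 0,
  .mul 299 75,
  .inv 257,
  .mul 1 0,
  .scale ⟨549755813888, 0, 0, 0⟩ 0,
  .mul 289 0,
  .mul 308 5,
  .add 1 0,
  .mul 314 0,
  .mul 16 41,
  .mul 0 71,
  .mul 16 146,
  .mul 0 70,
  .add 2 0,
  .mul 298 5,
  .mul 80 1,
  .add 1 0,
  .mul 212 0,
  .mul 0 15,
  .sub 325 0,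
  .inv 0,
  .mul 4 0,
  .mul 324 0,
  .mul 218 1,
  .mul 0 21,
  .sub 331 0,
  .mul 284 0,
  .sub 0 4,
  .inv 0,
  .mul 6 0,
  .sub 285 6,
  .inv 0,
  .mul 2 117,
  .scale ⟨549755813888, 0, 0, 0⟩ 0,
  .sub 340 0,
  .sub 341 2,
  .inv 0,
  .mul 2 0,
  .mul 346 6,
  .mul 122 10,
  .mul 0 2,
  .add 2 0,
  .mul 342 20,
  .mul 11 0,
  .mul 129 15,
  .mul 0 7,
  .mul 0 23,
  .add 3 0,
  .scale ⟨223338299392, 0, 0, 0⟩ 0,
  .add 348 0,
  .mul 2 0,
  .add 357 0,
  .mul 10 0,
  .mul 0 32,
  .mul 0 40,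
  .mul 119 339,
  .const ⟨5497558138880, 0, 0, 0⟩,
  .inv 0,
  .mul 312 0,
  .mul 141 342,
  .mul 0 1,
  .mul 190 262,
  .mul 347 0,
  .scale ⟨549755813888, 0, 0, 0⟩ 147,
  .sub 370 0,
  .sub 371 149,
  .inv 0,
  .mul 2 0,
  .mul 0 189,
  .mul 264 254,
  .scale ⟨733097230336, 0, 0, 0⟩ 0,
  .sub 377 0,
  .mul 257 0,
  .mul 291 291,
  .mul 369 0,
  .add 2 0,
  .mul 7 159,
  .add 1 383,
  .mul 1 0,
  .sub 3 0,
  .scale ⟨366548615168, 0, 0, 0⟩ 342,
  .sub 387 0,
  .mul 363 0,
  .add 3 0,
  .mul 22 0,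
  .mul 22 22,
  .add 392 0,
  .inv 0,
  .mul 3 0,
  .sub 395 59,
  .mul 0 1,
  .sub 397 14,
  .pos 0,
  .pos 3,
  .pos 2,
  .mul 38 162,
  .mul 0 85,
  .inv 377,
  .mul 1 0,
  .mul 399 5,
  .neg 0,
  .exp 0,
  .mul 401 38,
  .add 406 0,
  .inv 0,
  .mul 3 0,
  .mul 0 390,
  .mul 402 82,
  .mul 0 10,
  .add 412 0,
  .mul 3 0,
  .mul 0 76,
  .mul 411 54,
  .mul 0 173,
  .mul 413 55,
  .mul 16 0,
  .add 2 0,
  .add 4 18,
  .add 421 1,
  .mul 7 0,
  .add 2 0,
  .sub 424 0,
  .scale ⟨1073741824, 0, 0, 0⟩ 421,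
  .sub 1 0,
  .sub 408 427,
  .add 0 373,
  .scale ⟨2199023255552, 0, 0, 0⟩ 64,
  .sub 1 0,
  .mul 207 0,
  .mul 4 2,
  .add 0 433,
  .inv 0,
  .mul 3 0,
  .mul 197 116,
  .scale ⟨549755813888, 0, 0, 0⟩ 202,
  .add 422 0,
  .mul 2 0,
  .scale ⟨2199023255552, 0, 0, 0⟩ 0,
  .add 126 0,
  .scale ⟨2199023255552, 0, 0, 0⟩ 0,
  .mul 0 116,
  .sub 421 33,
  .inv 0,
  .mul 2 0,
  .sub 11 0,
  .mul 449 428,
  .mul 0 0,
  .const ⟨14293651161088, 0, 0, 0⟩,
  .const ⟨10995116277760, 0, 0, 0⟩,
  .inv 0,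
  .mul 2 0,
  .mul 4 0,
  .mul 455 455,
  .scale ⟨27487790694400, 0, 0, 0⟩ 0,
  .add 2 0,
  .mul 91 50,
  .sub 420 455,
  .sub 0 422,
  .mul 458 461,
  .mul 439 142,
  .mul 0 226,
  .add 157 0,
  .add 54 410,
  .mul 467 0,
  .mul 9 8,
  .mul 141 1,
  .mul 7 4,
  .mul 1 0,
  .sub 3 0,
  .scale ⟨549755813888, 0, 0, 0⟩ 61,
  .add 473 0,
  .mul 147 0,
  .mul 471 453,
  .mul 0 244,
  .mul 454 426,
  .inv 0,
  .mul 2 0,
  .mul 5 0,
  .sub 20 0,
  .mul 247 10,
  .sub 483 248,
  .mul 473 2,
  .mul 1 0,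
  .mul 28 0,
  .add 4 0,
  .pos 244,
  .pos 241,
  .scale ⟨2199023255552, 0, 0, 0⟩ 164,
  .sub 438 0,
  .pos 0,
  .pos 156,
  .sub 483 268,
  .pos 0,
  .scale ⟨687194767360, 0, 0, 0⟩ 491,
  .sub 0 208,
  .pos 0,
  .scale ⟨377957122048, 0, 0, 0⟩ 493,
  .sub 0 214,
  .pos 0,
  .pos 50,
  .pos 153,
  .sub 3 141,
  .pos 0,
  .pos 48,
  .pos 69,
  .pos 8,
  .pos 14]

def chk4 {α : Type} (cst : Z → α) (add sub mul : α → α → α) (scale : Z → α → α)
    (neg inv exp log : α → α) (ok : α → Bool) (isPos : Nat → α → Bool) (isLt : α → Nat → Bool) :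
    List α → Bool
  | [x0, x1, x2, x3] =>
  let v0 := cst ⟨1099511627776, 0, 0, 0⟩; ok v0 && (
  let v1 := mul x1 x2; ok v1 && (
  let v2 := mul x2 x2; ok v2 && (
  let v3 := mul x0 x1; ok v3 && (
  let v4 := mul v3 v2; ok v4 && (
  let v5 := mul v1 v1; ok v5 && (
  let v6 := mul v4 v3; ok v6 && (
  let v7 := cst ⟨549755813888, 0, 0, 0⟩; ok v7 && (
  let v8 := mul v4 x1; ok v8 && (
  let v9 := mul v8 x3; ok v9 && (
  let v10 := scale ⟨549755813888, 0, 0, 0⟩ v9; ok v10 && (
  let v11 := mul x1 x1; ok v11 && (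
  let v12 := mul v10 v10; ok v12 && (
  let v13 := sub v0 v12; ok v13 && (
  let v14 := inv v13; ok v14 && (
  let v15 := mul v10 v14; ok v15 && (
  let v16 := scale ⟨2199023255552, 0, 0, 0⟩ v15; ok v16 && (
  let v17 := scale ⟨2199023255552, 0, 0, 0⟩ v14; ok v17 && (
  let v18 := sub v17 v0; ok v18 && (
  let v19 := add v18 v16; ok v19 && (
  let v20 := mul x3 v14; ok v20 && (
  let v21 := mul x1 v20; ok v21 && (
  let v22 := sub v0 v21; ok v22 && (
  let v23 := add v0 v21; ok v23 && (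
  let v24 := mul v4 v11; ok v24 && (
  let v25 := mul v20 v20; ok v25 && (
  let v26 := scale ⟨10774999203840, 0, 0, 0⟩ v10; ok v26 && (
  let v27 := scale ⟨45768245248, 0, 0, 0⟩ v26; ok v27 && (
  let v28 := cst ⟨183207198720, 0, 0, 0⟩; ok v28 && (
  let v29 := add v27 v28; ok v29 && (
  let v30 := mul v26 v29; ok v30 && (
  let v31 := add v7 v30; ok v31 && (
  let v32 := mul v26 v31; ok v32 && (
  let v33 := add v0 v32; ok v33 && (
  let v34 := mul v26 v33; ok v34 && (
  let v35 := scale ⟨549755813888, 0, 0, 0⟩ v34; ok v35 && (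
  let v36 := add v0 v35; ok v36 && (
  let v37 := mul v33 v36; ok v37 && (
  let v38 := mul v16 v21; ok v38 && (
  let v39 := scale ⟨2199023255552, 0, 0, 0⟩ v18; ok v39 && (
  let v40 := add v38 v39; ok v40 && (
  let v41 := add v40 v4; ok v41 && (
  let v42 := mul v24 v41; ok v42 && (
  let v43 := add v42 v0; ok v43 && (
  let v44 := mul v16 v16; ok v44 && (
  let v45 := scale ⟨2199023255552, 0, 0, 0⟩ v44; ok v45 && (
  let v46 := add v45 v0; ok v46 && (
  let v47 := mul v18 v41; ok v47 && (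
  let v48 := sub v47 v0; ok v48 && (
  let v49 := log v43; ok v49 && (
  let v50 := scale ⟨549755813888, 0, 0, 0⟩ v49; ok v50 && (
  let v51 := exp v50; ok v51 && (
  let v52 := cst ⟨3298534883328, 0, 0, 0⟩; ok v52 && (
  let v53 := inv v52; ok v53 && (
  let v54 := mul v0 v53; ok v54 && (
  let v55 := cst ⟨2199023255552, 0, 0, 0⟩; ok v55 && (
  let v56 := add v42 v55; ok v56 && (
  let v57 := inv v56; ok v57 && (
  let v58 := mul v42 v57; ok v58 && (
  let v59 := mul v58 v58; ok v59 && (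
  let v60 := sub v0 v58; ok v60 && (
  let v61 := mul v59 v54; ok v61 && (
  let v62 := add v0 v61; ok v62 && (
  let v63 := mul v60 v62; ok v63 && (
  let v64 := mul v59 v59; ok v64 && (
  let v65 := scale ⟨219915747328, 0, 0, 0⟩ v64; ok v65 && (
  let v66 := mul v41 v63; ok v66 && (
  let v67 := scale ⟨549755813888, 0, 0, 0⟩ v66; ok v67 && (
  let v68 := mul v41 v65; ok v68 && (
  let v69 := scale ⟨549755813888, 0, 0, 0⟩ v68; ok v69 && (
  let v70 := add v67 v69; ok v70 && (
  let v71 := mul v18 v48; ok v71 && (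
  let v72 := scale ⟨4398046511104, 0, 0, 0⟩ v71; ok v72 && (
  let v73 := mul v18 v24; ok v73 && (
  let v74 := mul v73 v48; ok v74 && (
  let v75 := scale ⟨4398046511104, 0, 0, 0⟩ v74; ok v75 && (
  let v76 := add v75 v55; ok v76 && (
  let v77 := inv v76; ok v77 && (
  let v78 := mul v75 v77; ok v78 && (
  let v79 := mul v78 v78; ok v79 && (
  let v80 := sub v0 v78; ok v80 && (
  let v81 := mul v79 v54; ok v81 && (
  let v82 := add v0 v81; ok v82 && (
  let v83 := mul v80 v82; ok v83 && (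
  let v84 := mul v79 v79; ok v84 && (
  let v85 := scale ⟨219915747328, 0, 0, 0⟩ v84; ok v85 && (
  let v86 := mul v72 v83; ok v86 && (
  let v87 := scale ⟨549755813888, 0, 0, 0⟩ v86; ok v87 && (
  let v88 := sub v87 v70; ok v88 && (
  let v89 := mul v72 v85; ok v89 && (
  let v90 := scale ⟨549755813888, 0, 0, 0⟩ v89; ok v90 && (
  let v91 := add v90 v69; ok v91 && (
  let v92 := add v88 v91; ok v92 && (
  let v93 := mul v3 v67; ok v93 && (
  let v94 := neg v93; ok v94 && (
  let v95 := exp v94; ok v95 && (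
  let v96 := mul v3 v69; ok v96 && (
  let v97 := mul v95 v96; ok v97 && (
  let v98 := mul v3 v88; ok v98 && (
  let v99 := neg v98; ok v99 && (
  let v100 := exp v99; ok v100 && (
  let v101 := mul v3 v91; ok v101 && (
  let v102 := mul v100 v101; ok v102 && (
  let v103 := mul v21 v16; ok v103 && (
  let v104 := add v18 v103; ok v104 && (
  let v105 := inv v104; ok v105 && (
  let v106 := mul v23 v105; ok v106 && (
  let v107 := mul v22 v4; ok v107 && (
  let v108 := mul v107 v106; ok v108 && (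
  let v109 := sub v0 v11; ok v109 && (
  let v110 := mul v25 v109; ok v110 && (
  let v111 := mul v8 v8; ok v111 && (
  let v112 := sub v0 v25; ok v112 && (
  let v113 := mul v109 v112; ok v113 && (
  let v114 := mul v24 v48; ok v114 && (
  let v115 := inv v43; ok v115 && (
  let v116 := mul v114 v115; ok v116 && (
  let v117 := add v18 v116; ok v117 && (
  let v118 := mul v43 v117; ok v118 && (
  let v119 := mul v118 v118; ok v119 && (
  let v120 := inv v119; ok v120 && (
  let v121 := mul v113 v120; ok v121 && (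
  let v122 := add v18 v24; ok v122 && (
  let v123 := mul v0 v122; ok v123 && (
  let v124 := inv v123; ok v124 && (
  let v125 := mul x0 v124; ok v125 && (
  let v126 := mul v125 v125; ok v126 && (
  let v127 := mul v126 v113; ok v127 && (
  let v128 := cst ⟨45812285440, 0, 0, 0⟩; ok v128 && (
  let v129 := scale ⟨1527119872, 0, 0, 0⟩ v127; ok v129 && (
  let v130 := sub v128 v129; ok v130 && (
  let v131 := mul v127 v130; ok v131 && (
  let v132 := sub v7 v131; ok v132 && (
  let v133 := mul v127 v132; ok v133 && (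
  let v134 := sub v0 v133; ok v134 && (
  let v135 := add v95 v0; ok v135 && (
  let v136 := mul v95 v95; ok v136 && (
  let v137 := add v136 v0; ok v137 && (
  let v138 := mul v95 v134; ok v138 && (
  let v139 := scale ⟨2199023255552, 0, 0, 0⟩ v138; ok v139 && (
  let v140 := add v137 v139; ok v140 && (
  let v141 := scale ⟨4398046511104, 0, 0, 0⟩ v97; ok v141 && (
  let v142 := sub v140 v141; ok v142 && (
  let v143 := inv v135; ok v143 && (
  let v144 := mul v142 v143; ok v144 && (
  let v145 := add v144 v135; ok v145 && (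
  let v146 := mul v95 v108; ok v146 && (
  let v147 := scale ⟨549755813888, 0, 0, 0⟩ v146; ok v147 && (
  let v148 := mul v147 v145; ok v148 && (
  let v149 := sub v142 v148; ok v149 && (
  isPos 4 v142 && (
  isPos 4 v149 && (
  let v150 := mul v3 v70; ok v150 && (
  let v151 := scale ⟨2199023255552, 0, 0, 0⟩ v150; ok v151 && (
  let v152 := scale ⟨183274307584, 0, 0, 0⟩ v151; ok v152 && (
  let v153 := sub v7 v152; ok v153 && (
  let v154 := mul v151 v153; ok v154 && (
  let v155 := sub v0 v154; ok v155 && (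
  let v156 := mul v70 v155; ok v156 && (
  let v157 := inv v149; ok v157 && (
  let v158 := mul v156 v157; ok v158 && (
  let v159 := mul v3 v158; ok v159 && (
  let v160 := add v159 v7; ok v160 && (
  let v161 := inv v160; ok v161 && (
  let v162 := mul v158 v161; ok v162 && (
  let v163 := mul v3 v162; ok v163 && (
  let v164 := mul v108 v163; ok v164 && (
  let v165 := scale ⟨549755813888, 0, 0, 0⟩ v164; ok v165 && (
  let v166 := sub v0 v165; ok v166 && (
  let v167 := sub v0 v164; ok v167 && (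
  let v168 := inv v167; ok v168 && (
  let v169 := mul v166 v168; ok v169 && (
  let v170 := add v164 v0; ok v170 && (
  let v171 := mul v95 v170; ok v171 && (
  let v172 := mul v106 v169; ok v172 && (
  let v173 := mul x1 v162; ok v173 && (
  let v174 := mul v172 v173; ok v174 && (
  let v175 := mul v164 v169; ok v175 && (
  isPos 4 v167 && (
  let v176 := mul v22 v23; ok v176 && (
  let v177 := add v18 v4; ok v177 && (
  let v178 := mul v21 v18; ok v178 && (
  let v179 := mul v178 v16; ok v179 && (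
  let v180 := scale ⟨2199023255552, 0, 0, 0⟩ v179; ok v180 && (
  let v181 := add v46 v180; ok v181 && (
  let v182 := mul v177 v181; ok v182 && (
  let v183 := inv v182; ok v183 && (
  let v184 := mul v176 v183; ok v184 && (
  let v185 := mul v4 v184; ok v185 && (
  isPos 4 v88 && (
  let v186 := mul v127 v115; ok v186 && (
  let v187 := scale ⟨1527119872, 0, 0, 0⟩ v186; ok v187 && (
  let v188 := sub v128 v187; ok v188 && (
  let v189 := mul v186 v188; ok v189 && (
  let v190 := sub v7 v189; ok v190 && (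
  let v191 := mul v186 v190; ok v191 && (
  let v192 := sub v0 v191; ok v192 && (
  let v193 := add v100 v0; ok v193 && (
  let v194 := mul v100 v100; ok v194 && (
  let v195 := add v194 v0; ok v195 && (
  let v196 := mul v100 v192; ok v196 && (
  let v197 := scale ⟨2199023255552, 0, 0, 0⟩ v196; ok v197 && (
  let v198 := add v195 v197; ok v198 && (
  let v199 := scale ⟨4398046511104, 0, 0, 0⟩ v102; ok v199 && (
  let v200 := sub v198 v199; ok v200 && (
  let v201 := inv v193; ok v201 && (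
  let v202 := mul v200 v201; ok v202 && (
  let v203 := add v202 v193; ok v203 && (
  let v204 := mul v100 v185; ok v204 && (
  let v205 := scale ⟨549755813888, 0, 0, 0⟩ v204; ok v205 && (
  let v206 := mul v205 v203; ok v206 && (
  let v207 := sub v200 v206; ok v207 && (
  isPos 4 v200 && (
  isPos 4 v207 && (
  let v208 := mul v3 v92; ok v208 && (
  let v209 := scale ⟨2199023255552, 0, 0, 0⟩ v208; ok v209 && (
  let v210 := scale ⟨183274307584, 0, 0, 0⟩ v209; ok v210 && (
  let v211 := sub v7 v210; ok v211 && (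
  let v212 := mul v209 v211; ok v212 && (
  let v213 := sub v0 v212; ok v213 && (
  let v214 := mul v92 v213; ok v214 && (
  let v215 := inv v207; ok v215 && (
  let v216 := mul v214 v215; ok v216 && (
  let v217 := mul v3 v216; ok v217 && (
  let v218 := add v217 v7; ok v218 && (
  let v219 := inv v218; ok v219 && (
  let v220 := mul v216 v219; ok v220 && (
  let v221 := mul v3 v220; ok v221 && (
  let v222 := mul v185 v221; ok v222 && (
  let v223 := mul x1 v220; ok v223 && (
  let v224 := add v10 v0; ok v224 && (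
  let v225 := inv v224; ok v225 && (
  let v226 := mul v10 v225; ok v226 && (
  let v227 := scale ⟨2199023255552, 0, 0, 0⟩ v226; ok v227 && (
  let v228 := sub v0 v227; ok v228 && (
  let v229 := sub v0 v10; ok v229 && (
  let v230 := mul x3 v225; ok v230 && (
  let v231 := mul v230 v228; ok v231 && (
  let v232 := add v23 v231; ok v232 && (
  let v233 := scale ⟨224412041216, 0, 0, 0⟩ v14; ok v233 && (
  let v234 := inv v37; ok v234 && (
  let v235 := mul v233 v234; ok v235 && (
  let v236 := scale ⟨5497558138880, 0, 0, 0⟩ v0; ok v236 && (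
  let v237 := inv v236; ok v237 && (
  let v238 := mul x0 v237; ok v238 && (
  let v239 := mul v0 v237; ok v239 && (
  let v240 := mul v239 v23; ok v240 && (
  let v241 := mul v240 v235; ok v241 && (
  let v242 := mul v238 v23; ok v242 && (
  let v243 := mul v242 v235; ok v243 && (
  let v244 := sub v0 v243; ok v244 && (
  let v245 := inv v244; ok v245 && (
  let v246 := mul v171 v243; ok v246 && (
  let v247 := sub v0 v246; ok v247 && (
  let v248 := inv v247; ok v248 && (
  let v249 := scale ⟨2199023255552, 0, 0, 0⟩ v5; ok v249 && (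
  let v250 := add v249 v0; ok v250 && (
  let v251 := add v5 v0; ok v251 && (
  let v252 := scale ⟨549755813888, 0, 0, 0⟩ v162; ok v252 && (
  let v253 := inv x0; ok v253 && (
  let v254 := mul x1 v253; ok v254 && (
  let v255 := scale ⟨2199023255552, 0, 0, 0⟩ v254; ok v255 && (
  let v256 := add v252 v255; ok v256 && (
  let v257 := scale ⟨549755813888, 0, 0, 0⟩ v256; ok v257 && (
  let v258 := mul v10 v20; ok v258 && (
  let v259 := sub v0 v110; ok v259 && (
  let v260 := mul v10 v21; ok v260 && (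
  let v261 := scale ⟨2199023255552, 0, 0, 0⟩ v260; ok v261 && (
  let v262 := sub v259 v261; ok v262 && (
  let v263 := mul v258 v258; ok v263 && (
  let v264 := add v262 v263; ok v264 && (
  let v265 := add v264 v0; ok v265 && (
  let v266 := scale ⟨549755813888, 0, 0, 0⟩ v265; ok v266 && (
  let v267 := scale ⟨549755813888, 0, 0, 0⟩ v24; ok v267 && (
  let v268 := sub v14 v267; ok v268 && (
  let v269 := mul v111 v259; ok v269 && (
  let v270 := mul v269 v13; ok v270 && (
  let v271 := scale ⟨137438953472, 0, 0, 0⟩ v270; ok v271 && (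
  let v272 := add v268 v271; ok v272 && (
  let v273 := mul v266 v272; ok v273 && (
  let v274 := add v171 v0; ok v274 && (
  let v275 := mul v274 v245; ok v275 && (
  let v276 := mul v171 v248; ok v276 && (
  let v277 := add v275 v276; ok v277 && (
  let v278 := mul v243 v277; ok v278 && (
  let v279 := add v175 v278; ok v279 && (
  let v280 := mul v279 v5; ok v280 && (
  let v281 := mul v274 v243; ok v281 && (
  let v282 := mul v281 v245; ok v282 && (
  let v283 := add v175 v282; ok v283 && (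
  let v284 := mul v283 v5; ok v284 && (
  let v285 := scale ⟨223338299392, 0, 0, 0⟩ v284; ok v285 && (
  let v286 := add v7 v285; ok v286 && (
  let v287 := mul v284 v286; ok v287 && (
  let v288 := add v0 v287; ok v288 && (
  let v289 := scale ⟨893353197568, 0, 0, 0⟩ v280; ok v289 && (
  let v290 := add v0 v289; ok v290 && (
  let v291 := mul v280 v290; ok v291 && (
  let v292 := add v0 v291; ok v292 && (
  let v293 := mul v227 v230; ok v293 && (
  let v294 := mul v293 v250; ok v294 && (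
  let v295 := mul v294 v292; ok v295 && (
  let v296 := mul v273 v288; ok v296 && (
  let v297 := add v51 v7; ok v297 && (
  let v298 := mul v295 v297; ok v298 && (
  let v299 := add v296 v298; ok v299 && (
  let v300 := add v51 v0; ok v300 && (
  let v301 := mul v295 v300; ok v301 && (
  let v302 := mul v251 v300; ok v302 && (
  let v303 := mul v302 v230; ok v303 && (
  let v304 := mul v303 v229; ok v304 && (
  let v305 := mul v299 v174; ok v305 && (
  let v306 := mul v304 v257; ok v306 && (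
  let v307 := add v305 v306; ok v307 && (
  let v308 := mul v8 v232; ok v308 && (
  let v309 := inv v51; ok v309 && (
  let v310 := mul v308 v309; ok v310 && (
  let v311 := scale ⟨549755813888, 0, 0, 0⟩ v310; ok v311 && (
  let v312 := mul v22 v311; ok v312 && (
  let v313 := mul v4 v307; ok v313 && (
  let v314 := add v312 v313; ok v314 && (
  let v315 := mul v0 v314; ok v315 && (
  let v316 := mul v299 v274; ok v316 && (
  let v317 := mul v316 v245; ok v317 && (
  let v318 := mul v301 v171; ok v318 && (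
  let v319 := mul v318 v248; ok v319 && (
  let v320 := add v317 v319; ok v320 && (
  let v321 := mul v22 v315; ok v321 && (
  let v322 := mul v241 v320; ok v322 && (
  let v323 := add v321 v322; ok v323 && (
  let v324 := mul v111 v323; ok v324 && (
  let v325 := mul v324 v309; ok v325 && (
  let v326 := sub v0 v325; ok v326 && (
  let v327 := inv v326; ok v327 && (
  let v328 := mul v323 v327; ok v328 && (
  let v329 := mul v4 v328; ok v329 && (
  let v330 := mul v111 v328; ok v330 && (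
  let v331 := mul v330 v309; ok v331 && (
  let v332 := sub v0 v331; ok v332 && (
  let v333 := mul v48 v332; ok v333 && (
  let v334 := sub v333 v329; ok v334 && (
  let v335 := inv v334; ok v335 && (
  let v336 := mul v329 v335; ok v336 && (
  let v337 := sub v51 v330; ok v337 && (
  let v338 := inv v337; ok v338 && (
  let v339 := mul v336 v221; ok v339 && (
  let v340 := scale ⟨549755813888, 0, 0, 0⟩ v339; ok v340 && (
  let v341 := sub v0 v340; ok v341 && (
  let v342 := sub v0 v339; ok v342 && (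
  let v343 := inv v342; ok v343 && (
  let v344 := mul v341 v343; ok v344 && (
  let v345 := mul x1 v338; ok v345 && (
  let v346 := mul v223 v335; ok v346 && (
  let v347 := mul v346 v344; ok v347 && (
  let v348 := add v345 v347; ok v348 && (
  let v349 := mul v6 v328; ok v349 && (
  let v350 := mul v338 v349; ok v350 && (
  let v351 := mul v221 v335; ok v351 && (
  let v352 := mul v351 v344; ok v352 && (
  let v353 := mul v352 v329; ok v353 && (
  let v354 := add v350 v353; ok v354 && (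
  let v355 := scale ⟨223338299392, 0, 0, 0⟩ v354; ok v355 && (
  let v356 := add v7 v355; ok v356 && (
  let v357 := mul v354 v356; ok v357 && (
  let v358 := add v0 v357; ok v358 && (
  let v359 := mul v348 v358; ok v359 && (
  let v360 := mul v359 v327; ok v360 && (
  let v361 := mul v360 v320; ok v361 && (
  let v362 := mul v242 v22; ok v362 && (
  let v363 := cst ⟨5497558138880, 0, 0, 0⟩; ok v363 && (
  let v364 := inv v363; ok v364 && (
  let v365 := mul v52 v364; ok v365 && (
  let v366 := mul v224 v23; ok v366 && (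
  let v367 := mul v366 v365; ok v367 && (
  let v368 := mul v177 v105; ok v368 && (
  let v369 := mul v21 v368; ok v369 && (
  let v370 := scale ⟨549755813888, 0, 0, 0⟩ v222; ok v370 && (
  let v371 := sub v0 v370; ok v371 && (
  let v372 := sub v0 v222; ok v372 && (
  let v373 := inv v372; ok v373 && (
  let v374 := mul v371 v373; ok v374 && (
  let v375 := mul v374 v185; ok v375 && (
  let v376 := mul v111 v121; ok v376 && (
  let v377 := scale ⟨733097230336, 0, 0, 0⟩ v376; ok v377 && (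
  let v378 := sub v0 v377; ok v378 && (
  let v379 := mul v121 v378; ok v379 && (
  let v380 := mul v88 v88; ok v380 && (
  let v381 := mul v11 v380; ok v381 && (
  let v382 := add v379 v381; ok v382 && (
  let v383 := mul v375 v223; ok v383 && (
  let v384 := add v382 v0; ok v384 && (
  let v385 := mul v383 v384; ok v385 && (
  let v386 := sub v382 v385; ok v386 && (
  let v387 := scale ⟨366548615168, 0, 0, 0⟩ v44; ok v387 && (
  let v388 := sub v0 v387; ok v388 && (
  let v389 := mul v25 v388; ok v389 && (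
  let v390 := add v386 v389; ok v390 && (
  let v391 := mul v368 v390; ok v391 && (
  let v392 := mul v369 v369; ok v392 && (
  let v393 := add v0 v392; ok v393 && (
  let v394 := inv v393; ok v394 && (
  let v395 := mul v391 v394; ok v395 && (
  let v396 := sub v0 v336; ok v396 && (
  let v397 := mul v396 v395; ok v397 && (
  let v398 := sub v0 v383; ok v398 && (
  isPos 4 v398 && (
  isPos 4 v395 && (
  isPos 4 v396 && (
  let v399 := mul v360 v236; ok v399 && (
  let v400 := mul v399 v314; ok v400 && (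
  let v401 := inv v23; ok v401 && (
  let v402 := mul v400 v401; ok v402 && (
  let v403 := mul v3 v397; ok v403 && (
  let v404 := neg v403; ok v404 && (
  let v405 := exp v404; ok v405 && (
  let v406 := mul v4 v367; ok v406 && (
  let v407 := add v0 v406; ok v407 && (
  let v408 := inv v407; ok v408 && (
  let v409 := mul v405 v408; ok v409 && (
  let v410 := mul v409 v19; ok v410 && (
  let v411 := mul v8 v328; ok v411 && (
  let v412 := mul v411 v401; ok v412 && (
  let v413 := add v0 v412; ok v413 && (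
  let v414 := mul v410 v413; ok v414 && (
  let v415 := mul v414 v338; ok v415 && (
  let v416 := mul v4 v361; ok v416 && (
  let v417 := mul v416 v243; ok v417 && (
  let v418 := mul v4 v362; ok v418 && (
  let v419 := mul v402 v418; ok v419 && (
  let v420 := add v417 v419; ok v420 && (
  let v421 := add v416 v402; ok v421 && (
  let v422 := add v0 v420; ok v422 && (
  let v423 := mul v415 v422; ok v423 && (
  let v424 := add v421 v423; ok v424 && (
  let v425 := sub v0 v424; ok v425 && (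
  let v426 := scale ⟨1073741824, 0, 0, 0⟩ v4; ok v426 && (
  let v427 := sub v425 v426; ok v427 && (
  let v428 := sub v19 v0; ok v428 && (
  let v429 := add v428 v55; ok v429 && (
  let v430 := scale ⟨2199023255552, 0, 0, 0⟩ v365; ok v430 && (
  let v431 := sub v429 v430; ok v431 && (
  let v432 := mul v224 v431; ok v432 && (
  let v433 := mul v428 v430; ok v433 && (
  let v434 := add v433 v0; ok v434 && (
  let v435 := inv v434; ok v435 && (
  let v436 := mul v432 v435; ok v436 && (
  let v437 := mul v239 v320; ok v437 && (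
  let v438 := scale ⟨549755813888, 0, 0, 0⟩ v235; ok v438 && (
  let v439 := add v16 v438; ok v439 && (
  let v440 := mul v437 v439; ok v440 && (
  let v441 := scale ⟨2199023255552, 0, 0, 0⟩ v440; ok v441 && (
  let v442 := add v315 v441; ok v442 && (
  let v443 := scale ⟨2199023255552, 0, 0, 0⟩ v442; ok v443 && (
  let v444 := mul v443 v327; ok v444 && (
  let v445 := sub v23 v411; ok v445 && (
  let v446 := inv v445; ok v446 && (
  let v447 := mul v444 v446; ok v447 && (
  let v448 := sub v436 v447; ok v448 && (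
  let v449 := mul x0 v20; ok v449 && (
  let v450 := mul v449 v449; ok v450 && (
  let v451 := cst ⟨14293651161088, 0, 0, 0⟩; ok v451 && (
  let v452 := cst ⟨10995116277760, 0, 0, 0⟩; ok v452 && (
  let v453 := inv v452; ok v453 && (
  let v454 := mul v451 v453; ok v454 && (
  let v455 := mul v450 v454; ok v455 && (
  let v456 := mul v0 v0; ok v456 && (
  let v457 := scale ⟨27487790694400, 0, 0, 0⟩ v456; ok v457 && (
  let v458 := add v455 v457; ok v458 && (
  let v459 := mul v367 v408; ok v459 && (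
  let v460 := sub v39 v4; ok v460 && (
  let v461 := sub v460 v38; ok v461 && (
  let v462 := mul v3 v0; ok v462 && (
  let v463 := mul v23 v320; ok v463 && (
  let v464 := mul v463 v237; ok v464 && (
  let v465 := add v307 v464; ok v465 && (
  let v466 := add v411 v55; ok v466 && (
  let v467 := mul x0 v466; ok v467 && (
  let v468 := mul v458 v459; ok v468 && (
  let v469 := mul v327 v467; ok v469 && (
  let v470 := mul v462 v465; ok v470 && (
  let v471 := mul v469 v470; ok v471 && (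
  let v472 := sub v468 v471; ok v472 && (
  let v473 := scale ⟨549755813888, 0, 0, 0⟩ v411; ok v473 && (
  let v474 := add v0 v473; ok v474 && (
  let v475 := mul v327 v474; ok v475 && (
  let v476 := mul v4 v22; ok v476 && (
  let v477 := mul v476 v232; ok v477 && (
  let v478 := mul v23 v51; ok v478 && (
  let v479 := inv v478; ok v479 && (
  let v480 := mul v477 v479; ok v480 && (
  let v481 := mul v475 v480; ok v481 && (
  let v482 := sub v461 v481; ok v482 && (
  let v483 := mul v235 v472; ok v483 && (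
  let v484 := sub v0 v235; ok v484 && (
  let v485 := mul v11 v482; ok v485 && (
  let v486 := mul v484 v485; ok v486 && (
  let v487 := mul v458 v486; ok v487 && (
  let v488 := add v483 v487; ok v488 && (
  isPos 4 v244 && (
  isPos 4 v247 && (
  let v489 := scale ⟨2199023255552, 0, 0, 0⟩ v324; ok v489 && (
  let v490 := sub v51 v489; ok v490 && (
  isPos 4 v490 && (
  isPos 4 v334 && (
  let v491 := sub v7 v222; ok v491 && (
  isPos 4 v491 && (
  let v492 := scale ⟨687194767360, 0, 0, 0⟩ v0; ok v492 && (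
  let v493 := sub v492 v284; ok v493 && (
  isPos 4 v493 && (
  let v494 := scale ⟨377957122048, 0, 0, 0⟩ v0; ok v494 && (
  let v495 := sub v494 v280; ok v495 && (
  isPos 4 v495 && (
  isPos 4 v445 && (
  isPos 4 v342 && (
  let v496 := sub v492 v354; ok v496 && (
  isPos 4 v496 && (
  isPos 4 v448 && (
  isPos 4 v427 && (
  isPos 4 v488 && (
  isPos 4 v482 && (
  true))))))))))))))))))))))))))))))))))))))))))))))))))))))))))))))))))))))))))))))))))))))))))))))))))))))))))))))))))))))))))))))))))))))))))))))))))))))))))))))))))))))))))))))))))))))))))))))))))))))))))))))))))))))))))))))))))))))))))))))))))))))))))))))))))))))))))))))))))))))))))))))))))))))))))))))))))))))))))))))))))))))))))))))))))))))))))))))))))))))))))))))))))))))))))))))))))))))))))))))))))))))))))))))))))))))))))))))))))))))))))))))))))))))))))))))))))))))))))))))))))))))))))))))))))))))))))))))))))))))))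
  | _ => false

set_option maxRecDepth 1000000 in
theorem chk4_eq (O : Ops) (m : List O.α)
    (h : chk4 O.cst O.add O.sub O.mul O.scale O.neg O.inv O.exp O.log O.ok O.isPos O.isLt m = true) :
    runG O 4 prog4 m = true := by
  match m, h with
  | [x0, x1, x2, x3], h => exact h

def chkB4 : List opsE.α → Bool :=
  chk4 opsE.cst opsE.add opsE.sub opsE.mul opsE.scale opsE.neg opsE.inv opsE.exp opsE.log opsE.ok opsE.isPos opsE.isLt

theorem chkB4_eq (m : List opsE.α) (h : chkB4 m = true) : runG opsE 4 prog4 m = true :=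
  chk4_eq opsE m h

def prog5 : List Op := [
  .const ⟨1099511627776, 0, 0, 0⟩,
  .mul 2 3,
  .mul 4 4,
  .mul 3 4,
  .mul 0 1,
  .mul 3 3,
  .mul 1 2,
  .const ⟨21990735872, 0, 0, 0⟩,
  .sub 2 0,
  .pos 0]

def chk5 {α : Type} (cst : Z → α) (add sub mul : α → α → α) (scale : Z → α → α)
    (neg inv exp log : α → α) (ok : α → Bool) (isPos : Nat → α → Bool) (isLt : α → Nat → Bool) :
    List α → Bool
  | [x0, x1, x2, x3] =>
  let v0 := cst ⟨1099511627776, 0, 0, 0⟩; ok v0 && (
  let v1 := mul x1 x2; ok v1 && (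
  let v2 := mul x2 x2; ok v2 && (
  let v3 := mul x0 x1; ok v3 && (
  let v4 := mul v3 v2; ok v4 && (
  let v5 := mul v1 v1; ok v5 && (
  let v6 := mul v4 v3; ok v6 && (
  let v7 := cst ⟨21990735872, 0, 0, 0⟩; ok v7 && (
  let v8 := sub v5 v7; ok v8 && (
  isPos 4 v8 && (
  true))))))))))
  | _ => false

set_option maxRecDepth 1000000 in
theorem chk5_eq (O : Ops) (m : List O.α)
    (h : chk5 O.cst O.add O.sub O.mul O.scale O.neg O.inv O.exp O.log O.ok O.isPos O.isLt m = true) :
    runG O 4 prog5 m = true := by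
  match m, h with
  | [x0, x1, x2, x3], h => exact h

def chkB5 : List opsE.α → Bool :=
  chk5 opsE.cst opsE.add opsE.sub opsE.mul opsE.scale opsE.neg opsE.inv opsE.exp opsE.log opsE.ok opsE.isPos opsE.isLt

theorem chkB5_eq (m : List opsE.α) (h : chkB5 m = true) : runG opsE 4 prog5 m = true :=
  chk5_eq opsE m h

def prog6 : List Op := [
  .const ⟨1099511627776, 0, 0, 0⟩,
  .mul 2 3,
  .mul 4 4,
  .mul 3 4,
  .mul 0 1,
  .mul 3 3,
  .mul 1 2,
  .const ⟨10994319360, 0, 0, 0⟩,
  .sub 0 2,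
  .pos 0]

def chk6 {α : Type} (cst : Z → α) (add sub mul : α → α → α) (scale : Z → α → α)
    (neg inv exp log : α → α) (ok : α → Bool) (isPos : Nat → α → Bool) (isLt : α → Nat → Bool) :
    List α → Bool
  | [x0, x1, x2, x3] =>
  let v0 := cst ⟨1099511627776, 0, 0, 0⟩; ok v0 && (
  let v1 := mul x1 x2; ok v1 && (
  let v2 := mul x2 x2; ok v2 && (
  let v3 := mul x0 x1; ok v3 && (
  let v4 := mul v3 v2; ok v4 && (
  let v5 := mul v1 v1; ok v5 && (
  let v6 := mul v4 v3; ok v6 && (
  let v7 := cst ⟨10994319360, 0, 0, 0⟩; ok v7 && (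
  let v8 := sub v7 v5; ok v8 && (
  isPos 4 v8 && (
  true))))))))))
  | _ => false

set_option maxRecDepth 1000000 in
theorem chk6_eq (O : Ops) (m : List O.α)
    (h : chk6 O.cst O.add O.sub O.mul O.scale O.neg O.inv O.exp O.log O.ok O.isPos O.isLt m = true) :
    runG O 4 prog6 m = true := by
  match m, h with
  | [x0, x1, x2, x3], h => exact h

def chkB6 : List opsE.α → Bool :=
  chk6 opsE.cst opsE.add opsE.sub opsE.mul opsE.scale opsE.neg opsE.inv opsE.exp opsE.log opsE.ok opsE.isPos opsE.isLt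

theorem chkB6_eq (m : List opsE.α) (h : chkB6 m = true) : runG opsE 4 prog6 m = true :=
  chk6_eq opsE m h

def prog7 : List Op := [
  .const ⟨1099511627776, 0, 0, 0⟩,
  .mul 2 3,
  .mul 4 4,
  .mul 3 4,
  .mul 0 1,
  .mul 3 3,
  .mul 1 2,
  .const ⟨549755813888, 0, 0, 0⟩,
  .mul 3 9,
  .mul 0 12,
  .scale ⟨549755813888, 0, 0, 0⟩ 0,
  .mul 12 12,
  .mul 1 1,
  .sub 12 0,
  .inv 0,
  .mul 4 0,
  .scale ⟨2199023255552, 0, 0, 0⟩ 0,
  .scale ⟨2199023255552, 0, 0, 0⟩ 2,
  .sub 0 17,
  .add 0 2,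
  .mul 23 5,
  .mul 22 0,
  .sub 21 0,
  .add 22 1,
  .mul 19 12,
  .mul 4 4,
  .mul 26 5,
  .scale ⟨554050781184, 0, 0, 0⟩ 26,
  .sub 1 0,
  .pos 0]

def chk7 {α : Type} (cst : Z → α) (add sub mul : α → α → α) (scale : Z → α → α)
    (neg inv exp log : α → α) (ok : α → Bool) (isPos : Nat → α → Bool) (isLt : α → Nat → Bool) :
    List α → Bool
  | [x0, x1, x2, x3] =>
  let v0 := cst ⟨1099511627776, 0, 0, 0⟩; ok v0 && (
  let v1 := mul x1 x2; ok v1 && (
  let v2 := mul x2 x2; ok v2 && (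
  let v3 := mul x0 x1; ok v3 && (
  let v4 := mul v3 v2; ok v4 && (
  let v5 := mul v1 v1; ok v5 && (
  let v6 := mul v4 v3; ok v6 && (
  let v7 := cst ⟨549755813888, 0, 0, 0⟩; ok v7 && (
  let v8 := mul v4 x1; ok v8 && (
  let v9 := mul v8 x3; ok v9 && (
  let v10 := scale ⟨549755813888, 0, 0, 0⟩ v9; ok v10 && (
  let v11 := mul x1 x1; ok v11 && (
  let v12 := mul v10 v10; ok v12 && (
  let v13 := sub v0 v12; ok v13 && (
  let v14 := inv v13; ok v14 && (
  let v15 := mul v10 v14; ok v15 && (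
  let v16 := scale ⟨2199023255552, 0, 0, 0⟩ v15; ok v16 && (
  let v17 := scale ⟨2199023255552, 0, 0, 0⟩ v14; ok v17 && (
  let v18 := sub v17 v0; ok v18 && (
  let v19 := add v18 v16; ok v19 && (
  let v20 := mul x3 v14; ok v20 && (
  let v21 := mul x1 v20; ok v21 && (
  let v22 := sub v0 v21; ok v22 && (
  let v23 := add v0 v21; ok v23 && (
  let v24 := mul v4 v11; ok v24 && (
  let v25 := mul v20 v20; ok v25 && (
  let v26 := mul x0 v20; ok v26 && (
  let v27 := scale ⟨554050781184, 0, 0, 0⟩ v0; ok v27 && (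
  let v28 := sub v26 v27; ok v28 && (
  isPos 4 v28 && (
  true))))))))))))))))))))))))))))))
  | _ => false

set_option maxRecDepth 1000000 in
theorem chk7_eq (O : Ops) (m : List O.α)
    (h : chk7 O.cst O.add O.sub O.mul O.scale O.neg O.inv O.exp O.log O.ok O.isPos O.isLt m = true) :
    runG O 4 prog7 m = true := by
  match m, h with
  | [x0, x1, x2, x3], h => exact h

def chkB7 : List opsE.α → Bool :=
  chk7 opsE.cst opsE.add opsE.sub opsE.mul opsE.scale opsE.neg opsE.inv opsE.exp opsE.log opsE.ok opsE.isPos opsE.isLt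

theorem chkB7_eq (m : List opsE.α) (h : chkB7 m = true) : runG opsE 4 prog7 m = true :=
  chk7_eq opsE m h

def progs : List (List Op) := [prog0, prog1, prog2, prog3, prog4, prog5, prog6, prog7]

def chks : List (List opsE.α → Bool) := [chkB0, chkB1, chkB2, chkB3, chkB4, chkB5, chkB6, chkB7]

theorem chks_eq : List.Forall₂ (fun (ops : List Op) (chk : List opsE.α → Bool) =>
    ∀ m, chk m = true → runG opsE 4 ops m = true) progs chks :=
  List.Forall₂.cons chkB0_eq (List.Forall₂.cons chkB1_eq (List.Forall₂.cons chkB2_eq (List.Forall₂.cons chkB3_eq (List.Forall₂.cons chkB4_eq (List.Forall₂.cons chkB5_eq (List.Forall₂.cons chkB6_eq (List.Forall₂.cons chkB7_eq List.Forall₂.nil)))))))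

end Pool.Agent.helper71.FJ.Crt.XHIII
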