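import Pool.Agent.helper31.IC.EngD
import Pool.Agent.helper14.QF.Inst

/-!
Generated: straight line program(s) and compiled form(s).
-/

namespace Pool.Agent.helper71.FJ.Crt.XMa

open Pool.Agent.helper31.IA (Z Op)
open Pool.Agent.helper31.IC

set_option maxRecDepth 100000

abbrev opsE : Ops := Pool.Agent.helper14.QF.opsF

def prog0 : List Op := [
  .const ⟨1099511627776, 0, 0, 0⟩,
  .mul 2 3,
  .mul 0 2,
  .mul 5 0,
  .mul 6 6,
  .mul 6 0,
  .mul 3 3,
  .mul 8 1,
  .const ⟨549755813888, 0, 0, 0⟩,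
  .mul 10 5,
  .mul 0 13,
  .scale ⟨549755813888, 0, 0, 0⟩ 0,
  .mul 8 8,
  .mul 1 1,
  .sub 13 0,
  .inv 0,
  .mul 4 0,
  .scale ⟨2199023255552, 0, 0, 0⟩ 0,
  .scale ⟨2199023255552, 0, 0, 0⟩ 2,
  .sub 0 18,
  .add 0 2,
  .mul 24 5,
  .mul 18 0,
  .sub 22 0,
  .add 23 1,
  .mul 26 12,
  .mul 4 4,
  .scale ⟨10774999203840, 0, 0, 0⟩ 15,
  .scale ⟨45768245248, 0, 0, 0⟩ 0,
  .const ⟨183207198720, 0, 0, 0⟩,
  .add 1 0,
  .mul 3 0,
  .add 23 0,
  .mul 5 0,
  .add 33 0,
  .mul 7 0,
  .scale ⟨549755813888, 0, 0, 0⟩ 0,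
  .add 36 0,
  .mul 3 0,
  .mul 21 16,
  .scale ⟨2199023255552, 0, 0, 0⟩ 20,
  .add 1 0,
  .add 0 43,
  .mul 17 0,
  .add 0 43,
  .mul 27 27,
  .scale ⟨2199023255552, 0, 0, 0⟩ 0,
  .add 0 46,
  .mul 28 5,
  .sub 0 48,
  .log 5,
  .scale ⟨549755813888, 0, 0, 0⟩ 0,
  .exp 0,
  .const ⟨3298534883328, 0, 0, 0⟩,
  .inv 0,
  .mul 54 0,
  .const ⟨2199023255552, 0, 0, 0⟩,
  .add 13 0,
  .inv 0,
  .mul 15 0,
  .mul 0 0,
  .sub 60 1,
  .mul 1 6,
  .add 62 0,
  .mul 2 0,
  .mul 4 4,
  .scale ⟨219915747328, 0, 0, 0⟩ 0,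
  .mul 24 2,
  .scale ⟨549755813888, 0, 0, 0⟩ 0,
  .mul 26 2,
  .scale ⟨549755813888, 0, 0, 0⟩ 0,
  .add 2 0,
  .mul 52 22,
  .scale ⟨4398046511104, 0, 0, 0⟩ 0,
  .mul 54 48,
  .mul 0 25,
  .scale ⟨4398046511104, 0, 0, 0⟩ 0,
  .add 0 20,
  .inv 0,
  .mul 2 0,
  .mul 0 0,
  .sub 80 1,
  .mul 1 26,
  .add 82 0,
  .mul 2 0,
  .mul 4 4,
  .scale ⟨219915747328, 0, 0, 0⟩ 0,
  .mul 13 2,
  .scale ⟨549755813888, 0, 0, 0⟩ 0,
  .sub 0 17,
  .mul 16 3,
  .scale ⟨549755813888, 0, 0, 0⟩ 0,
  .add 0 21,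
  .add 3 0,
  .mul 88 25,
  .neg 0,
  .exp 0,
  .mul 91 26,
  .mul 1 0,
  .mul 93 9,
  .neg 0,
  .exp 0,
  .mul 96 9,
  .mul 1 0,
  .mul 81 86,
  .add 85 0,
  .inv 0,
  .mul 82 0,
  .mul 84 109,
  .mul 0 1,
  .sub 109 97,
  .mul 84 0,
  .mul 102 102,
  .sub 112 86,
  .mul 3 0,
  .mul 89 65,
  .inv 71,
  .mul 1 0,
  .add 98 0,
  .mul 74 0,
  .mul 0 0,
  .inv 0,
  .mul 7 0,
  .add 103 97,
  .mul 124 0,
  .inv 0,
  .mul 125 0,
  .mul 0 0,
  .mul 0 13,
  .const ⟨10849087389696, 0, 0, 0⟩,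
  .sub 0 1,
  .pos 0,
  .const ⟨13, 0, 0, 0⟩,
  .const ⟨2295, 0, 0, 0⟩,
  .mul 4 1,
  .sub 1 0,
  .const ⟨302996, 0, 0, 0⟩,
  .mul 7 1,
  .sub 1 0,
  .const ⟨27269633, 0, 0, 0⟩,
  .mul 10 1,
  .sub 1 0,
  .const ⟨1527099484, 0, 0, 0⟩,
  .mul 13 1,
  .sub 1 0,
  .const ⟨45812984490, 0, 0, 0⟩,
  .mul 16 1,
  .sub 1 0,
  .mul 18 0,
  .sub 139 0,
  .mul 20 0,
  .sub 149 0,
  .add 54 150,
  .mul 55 55,
  .add 0 152,
  .mul 57 3,
  .scale ⟨2199023255552, 0, 0, 0⟩ 0,
  .add 2 0,
  .scale ⟨4398046511104, 0, 0, 0⟩ 58,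
  .sub 1 0,
  .inv 7,
  .mul 1 0,
  .add 0 9,
  .mul 65 52,
  .scale ⟨549755813888, 0, 0, 0⟩ 0,
  .mul 0 2,
  .sub 6 0,
  .pos 7,
  .pos 0,
  .sub 165 69,
  .mul 0 15,
  .scale ⟨2199023255552, 0, 0, 0⟩ 69,
  .add 1 0,
  .inv 4,
  .mul 1 0,
  .scale ⟨549755813888, 0, 0, 0⟩ 0,
  .add 0 164,
  .inv 0,
  .mul 2 0,
  .mul 66 0,
  .scale ⟨549755813888, 0, 0, 0⟩ 0,
  .sub 177 0,
  .sub 178 2,
  .inv 0,
  .mul 2 0,
  .add 5 181,
  .mul 86 0,
  .mul 76 2,
  .mul 0 9,
  .mul 9 4,
  .pos 7,
  .mul 163 162,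
  .add 168 189,
  .mul 166 169,
  .mul 0 172,
  .scale ⟨2199023255552, 0, 0, 0⟩ 0,
  .add 144 0,
  .mul 4 0,
  .inv 0,
  .mul 7 0,
  .mul 197 0,
  .pos 107,
  .mul 68 80,
  .sub 68 0,
  .pos 0,
  .mul 1 67,
  .sub 67 0,
  .mul 3 0,
  .sub 66 0,
  .mul 5 0,
  .sub 65 0,
  .mul 7 0,
  .sub 64 0,
  .mul 9 0,
  .sub 63 0,
  .mul 11 0,
  .sub 201 0,
  .mul 13 0,
  .sub 211 0,
  .add 111 212,
  .mul 112 112,
  .add 0 214,
  .mul 114 3,
  .scale ⟨2199023255552, 0, 0, 0⟩ 0,
  .add 2 0,
  .scale ⟨4398046511104, 0, 0, 0⟩ 115,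
  .sub 1 0,
  .inv 7,
  .mul 1 0,
  .add 0 9,
  .mul 122 27,
  .scale ⟨549755813888, 0, 0, 0⟩ 0,
  .mul 0 2,
  .sub 6 0,
  .pos 7,
  .pos 0,
  .sub 227 126,
  .mul 0 15,
  .scale ⟨2199023255552, 0, 0, 0⟩ 126,
  .add 1 0,
  .inv 4,
  .mul 1 0,
  .scale ⟨549755813888, 0, 0, 0⟩ 0,
  .add 0 226,
  .inv 0,
  .mul 2 0,
  .mul 41 0,
  .mul 1 239,
  .add 228 239,
  .inv 0,
  .mul 230 0,
  .scale ⟨2199023255552, 0, 0, 0⟩ 0,
  .sub 243 0,
  .sub 244 233,
  .mul 249 4,
  .mul 0 2,
  .add 223 0,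
  .scale ⟨224412041216, 0, 0, 0⟩ 233,
  .inv 211,
  .mul 1 0,
  .scale ⟨5497558138880, 0, 0, 0⟩ 252,
  .inv 0,
  .mul 253 0,
  .mul 255 1,
  .mul 0 231,
  .mul 0 5,
  .mul 3 233,
  .mul 0 7,
  .sub 259 0,
  .inv 0,
  .mul 78 2,
  .sub 262 0,
  .inv 0,
  .scale ⟨2199023255552, 0, 0, 0⟩ 258,
  .add 0 265,
  .add 260 266,
  .scale ⟨3573412790272, 0, 0, 0⟩ 245,
  .const ⟨339302416384, 0, 0, 0⟩,
  .add 1 0,
  .scale ⟨549755813888, 0, 0, 0⟩ 0,
  .mul 260 250,
  .sub 272 161,
  .mul 262 251,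
  .scale ⟨2199023255552, 0, 0, 0⟩ 0,
  .sub 2 0,
  .mul 4 4,
  .add 1 0,
  .add 0 278,
  .scale ⟨549755813888, 0, 0, 0⟩ 0,
  .scale ⟨549755813888, 0, 0, 0⟩ 255,
  .sub 266 0,
  .mul 170 9,
  .mul 0 269,
  .scale ⟨137438953472, 0, 0, 0⟩ 0,
  .add 3 0,
  .mul 6 0,
  .const ⟨1, 0, 0, 0⟩,
  .const ⟨12, 0, 0, 0⟩,
  .mul 161 1,
  .sub 1 0,
  .const ⟨2296, 0, 0, 0⟩,
  .mul 164 1,
  .sub 1 0,
  .const ⟨302995, 0, 0, 0⟩,
  .mul 167 1,
  .sub 1 0,
  .const ⟨27269634, 0, 0, 0⟩,
  .mul 170 1,
  .sub 1 0,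
  .const ⟨1527099483, 0, 0, 0⟩,
  .mul 173 1,
  .sub 1 0,
  .const ⟨45812984491, 0, 0, 0⟩,
  .mul 176 1,
  .sub 1 0,
  .mul 178 0,
  .sub 299 0,
  .mul 180 0,
  .sub 309 0,
  .mul 182 304,
  .mul 0 0,
  .scale ⟨369367187456, 0, 0, 0⟩ 0,
  .add 3 0,
  .mul 218 0,
  .scale ⟨2199023255552, 0, 0, 0⟩ 0,
  .add 163 0,
  .add 0 149,
  .const ⟨8589934592, 0, 0, 0⟩,
  .add 1 0,
  .log 0,
  .scale ⟨549755813888, 0, 0, 0⟩ 0,
  .exp 0,
  .mul 227 147,
  .add 1 0,
  .mul 0 64,
  .mul 143 62,
  .add 1 0,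
  .mul 69 0,
  .add 143 0,
  .mul 0 324,
  .mul 6 72,
  .mul 0 71,
  .add 147 0,
  .mul 0 328,
  .scale ⟨223338299392, 0, 0, 0⟩ 0,
  .add 328 0,
  .mul 2 0,
  .add 338 0,
  .scale ⟨893353197568, 0, 0, 0⟩ 8,
  .add 340 0,
  .mul 10 0,
  .add 342 0,
  .mul 100 97,
  .mul 0 78,
  .mul 0 2,
  .mul 59 7,
  .add 295 339,
  .mul 2 0,
  .add 2 0,
  .add 298 350,
  .mul 5 0,
  .mul 85 1,
  .mul 0 107,
  .mul 0 109,
  .mul 5 170,
  .mul 1 85,
  .add 1 0,
  .mul 353 110,
  .inv 307,
  .mul 1 0,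
  .scale ⟨549755813888, 0, 0, 0⟩ 0,
  .mul 339 0,
  .add 0 5,
  .mul 366 0,
  .mul 366 0,
  .mul 16 41,
  .mul 0 106,
  .mul 16 185,
  .mul 0 105,
  .add 2 0,
  .mul 348 5,
  .mul 115 1,
  .add 1 0,
  .mul 262 0,
  .mul 0 15,
  .sub 376 0,
  .inv 0,
  .mul 4 0,
  .mul 381 0,
  .mul 268 1,
  .mul 0 21,
  .sub 382 0,
  .mul 334 0,
  .sub 0 4,
  .inv 0,
  .mul 6 0,
  .sub 335 6,
  .inv 0,
  .mul 2 152,
  .scale ⟨549755813888, 0, 0, 0⟩ 0,
  .sub 391 0,
  .sub 392 2,
  .inv 0,
  .mul 2 0,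
  .mul 392 6,
  .mul 157 10,
  .mul 0 2,
  .add 2 0,
  .mul 392 20,
  .mul 11 0,
  .mul 164 15,
  .mul 0 7,
  .mul 0 23,
  .add 3 0,
  .scale ⟨223338299392, 0, 0, 0⟩ 0,
  .add 398 0,
  .mul 2 0,
  .add 408 0,
  .mul 10 0,
  .mul 0 32,
  .mul 0 40,
  .mul 154 389,
  .const ⟨5497558138880, 0, 0, 0⟩,
  .inv 0,
  .mul 362 0,
  .mul 176 392,
  .mul 0 1,
  .mul 230 312,
  .mul 397 0,
  .scale ⟨549755813888, 0, 0, 0⟩ 182,
  .sub 421 0,
  .sub 422 184,
  .inv 0,
  .mul 2 0,
  .mul 0 229,
  .mul 314 304,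
  .scale ⟨733097230336, 0, 0, 0⟩ 0,
  .sub 428 0,
  .mul 307 0,
  .mul 341 341,
  .mul 419 0,
  .add 2 0,
  .mul 7 194,
  .add 1 434,
  .mul 1 0,
  .sub 3 0,
  .scale ⟨366548615168, 0, 0, 0⟩ 392,
  .sub 438 0,
  .mul 413 0,
  .add 3 0,
  .mul 22 0,
  .mul 22 22,
  .add 443 0,
  .inv 0,
  .mul 3 0,
  .sub 446 59,
  .mul 0 1,
  .sub 448 14,
  .pos 0,
  .pos 3,
  .pos 2,
  .mul 38 197,
  .mul 0 86,
  .inv 427,
  .mul 1 0,
  .mul 449 5,
  .mul 456 0,
  .scale ⟨549755813888, 0, 0, 0⟩ 0,
  .sub 456 0,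
  .mul 3 0,
  .neg 0,
  .mul 456 463,
  .mul 0 220,
  .mul 0 446,
  .mul 462 0,
  .add 4 0,
  .mul 5 1,
  .mul 467 0,
  .add 2 0,
  .mul 455 425,
  .scale ⟨412316860416, 0, 0, 0⟩ 425,
  .sub 461 0,
  .mul 2 0,
  .mul 471 0,
  .neg 0,
  .add 6 0,
  .mul 7 1,
  .mul 477 0,
  .add 2 0,
  .mul 474 98,
  .mul 0 26,
  .mul 479 0,
  .add 3 0,
  .mul 4 1,
  .mul 484 0,
  .add 2 0,
  .mul 484 66,
  .sub 1 0,
  .mul 488 68,
  .add 487 0,
  .inv 0,
  .mul 3 0,
  .mul 487 481,
  .mul 0 112,
  .mul 0 103,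
  .mul 493 0,
  .add 4 0,
  .mul 5 1,
  .mul 498 0,
  .add 2 0,
  .mul 500 0,
  .add 499 0,
  .mul 88 241,
  .mul 503 88,
  .mul 49 0,
  .add 2 0,
  .mul 504 0,
  .add 93 52,
  .mul 506 0,
  .mul 2 7,
  .add 10 0,
  .add 0 2,
  .neg 0,
  .scale ⟨1073741824, 0, 0, 0⟩ 511,
  .sub 1 0,
  .sub 493 513,
  .add 0 458,
  .scale ⟨2199023255552, 0, 0, 0⟩ 99,
  .sub 1 0,
  .mul 277 0,
  .mul 4 2,
  .add 0 519,
  .inv 0,
  .mul 3 0,
  .mul 267 151,
  .scale ⟨549755813888, 0, 0, 0⟩ 272,
  .add 507 0,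
  .mul 2 0,
  .scale ⟨2199023255552, 0, 0, 0⟩ 0,
  .add 161 0,
  .scale ⟨2199023255552, 0, 0, 0⟩ 0,
  .mul 0 151,
  .mul 521 151,
  .sub 507 0,
  .inv 0,
  .mul 3 0,
  .sub 12 0,
  .mul 535 514,
  .mul 0 0,
  .const ⟨14293651161088, 0, 0, 0⟩,
  .const ⟨10995116277760, 0, 0, 0⟩,
  .inv 0,
  .mul 2 0,
  .mul 4 0,
  .mul 543 543,
  .scale ⟨27487790694400, 0, 0, 0⟩ 0,
  .add 2 0,
  .mul 127 56,
  .sub 506 548,
  .sub 0 508,
  .mul 548 545,
  .mul 0 550,
  .mul 526 179,
  .mul 0 298,
  .add 194 0,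
  .add 22 497,
  .mul 554 0,
  .mul 10 9,
  .mul 178 1,
  .mul 7 4,
  .mul 1 0,
  .sub 3 0,
  .scale ⟨549755813888, 0, 0, 0⟩ 29,
  .add 561 0,
  .mul 184 0,
  .mul 565 540,
  .mul 0 316,
  .mul 541 513,
  .inv 0,
  .mul 2 0,
  .mul 5 0,
  .sub 21 0,
  .mul 319 10,
  .sub 571 320,
  .mul 560 2,
  .mul 1 0,
  .mul 29 0,
  .add 4 0,
  .pos 316,
  .pos 313,
  .scale ⟨2199023255552, 0, 0, 0⟩ 201,
  .sub 525 0,
  .pos 0,
  .pos 193,
  .sub 570 340,
  .pos 0,
  .scale ⟨687194767360, 0, 0, 0⟩ 579,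
  .sub 0 245,
  .pos 0,
  .scale ⟨377957122048, 0, 0, 0⟩ 581,
  .sub 0 251,
  .pos 0,
  .pos 51,
  .pos 190,
  .sub 3 178,
  .pos 0,
  .pos 49,
  .pos 71,
  .pos 8,
  .pos 14]

def chk0 {α : Type} (cst : Z → α) (add sub mul : α → α → α) (scale : Z → α → α)
    (neg inv exp log : α → α) (ok : α → Bool) (isPos : Nat → α → Bool) (isLt : α → Nat → Bool) :
    List α → Bool
  | [x0, x1, x2, x3] =>
  let v0 := cst ⟨1099511627776, 0, 0, 0⟩; ok v0 && (
  let v1 := mul x1 x2; ok v1 && (
  let v2 := mul v1 x0; ok v2 && (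
  let v3 := mul x2 v2; ok v3 && (
  let v4 := mul x2 x2; ok v4 && (
  let v5 := mul x1 v4; ok v5 && (
  let v6 := mul v2 v2; ok v6 && (
  let v7 := mul x1 v5; ok v7 && (
  let v8 := cst ⟨549755813888, 0, 0, 0⟩; ok v8 && (
  let v9 := mul x1 v3; ok v9 && (
  let v10 := mul v9 x3; ok v10 && (
  let v11 := scale ⟨549755813888, 0, 0, 0⟩ v10; ok v11 && (
  let v12 := mul v3 v3; ok v12 && (
  let v13 := mul v11 v11; ok v13 && (
  let v14 := sub v0 v13; ok v14 && (
  let v15 := inv v14; ok v15 && (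
  let v16 := mul v11 v15; ok v16 && (
  let v17 := scale ⟨2199023255552, 0, 0, 0⟩ v16; ok v17 && (
  let v18 := scale ⟨2199023255552, 0, 0, 0⟩ v15; ok v18 && (
  let v19 := sub v18 v0; ok v19 && (
  let v20 := add v19 v17; ok v20 && (
  let v21 := mul x3 v15; ok v21 && (
  let v22 := mul v3 v21; ok v22 && (
  let v23 := sub v0 v22; ok v23 && (
  let v24 := add v0 v22; ok v24 && (
  let v25 := mul x1 v12; ok v25 && (
  let v26 := mul v21 v21; ok v26 && (
  let v27 := scale ⟨10774999203840, 0, 0, 0⟩ v11; ok v27 && (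
  let v28 := scale ⟨45768245248, 0, 0, 0⟩ v27; ok v28 && (
  let v29 := cst ⟨183207198720, 0, 0, 0⟩; ok v29 && (
  let v30 := add v28 v29; ok v30 && (
  let v31 := mul v27 v30; ok v31 && (
  let v32 := add v8 v31; ok v32 && (
  let v33 := mul v27 v32; ok v33 && (
  let v34 := add v0 v33; ok v34 && (
  let v35 := mul v27 v34; ok v35 && (
  let v36 := scale ⟨549755813888, 0, 0, 0⟩ v35; ok v36 && (
  let v37 := add v0 v36; ok v37 && (
  let v38 := mul v34 v37; ok v38 && (
  let v39 := mul v17 v22; ok v39 && (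
  let v40 := scale ⟨2199023255552, 0, 0, 0⟩ v19; ok v40 && (
  let v41 := add v39 v40; ok v41 && (
  let v42 := add v41 x1; ok v42 && (
  let v43 := mul v25 v42; ok v43 && (
  let v44 := add v43 v0; ok v44 && (
  let v45 := mul v17 v17; ok v45 && (
  let v46 := scale ⟨2199023255552, 0, 0, 0⟩ v45; ok v46 && (
  let v47 := add v46 v0; ok v47 && (
  let v48 := mul v19 v42; ok v48 && (
  let v49 := sub v48 v0; ok v49 && (
  let v50 := log v44; ok v50 && (
  let v51 := scale ⟨549755813888, 0, 0, 0⟩ v50; ok v51 && (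
  let v52 := exp v51; ok v52 && (
  let v53 := cst ⟨3298534883328, 0, 0, 0⟩; ok v53 && (
  let v54 := inv v53; ok v54 && (
  let v55 := mul v0 v54; ok v55 && (
  let v56 := cst ⟨2199023255552, 0, 0, 0⟩; ok v56 && (
  let v57 := add v43 v56; ok v57 && (
  let v58 := inv v57; ok v58 && (
  let v59 := mul v43 v58; ok v59 && (
  let v60 := mul v59 v59; ok v60 && (
  let v61 := sub v0 v59; ok v61 && (
  let v62 := mul v60 v55; ok v62 && (
  let v63 := add v0 v62; ok v63 && (
  let v64 := mul v61 v63; ok v64 && (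
  let v65 := mul v60 v60; ok v65 && (
  let v66 := scale ⟨219915747328, 0, 0, 0⟩ v65; ok v66 && (
  let v67 := mul v42 v64; ok v67 && (
  let v68 := scale ⟨549755813888, 0, 0, 0⟩ v67; ok v68 && (
  let v69 := mul v42 v66; ok v69 && (
  let v70 := scale ⟨549755813888, 0, 0, 0⟩ v69; ok v70 && (
  let v71 := add v68 v70; ok v71 && (
  let v72 := mul v19 v49; ok v72 && (
  let v73 := scale ⟨4398046511104, 0, 0, 0⟩ v72; ok v73 && (
  let v74 := mul v19 v25; ok v74 && (
  let v75 := mul v74 v49; ok v75 && (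
  let v76 := scale ⟨4398046511104, 0, 0, 0⟩ v75; ok v76 && (
  let v77 := add v76 v56; ok v77 && (
  let v78 := inv v77; ok v78 && (
  let v79 := mul v76 v78; ok v79 && (
  let v80 := mul v79 v79; ok v80 && (
  let v81 := sub v0 v79; ok v81 && (
  let v82 := mul v80 v55; ok v82 && (
  let v83 := add v0 v82; ok v83 && (
  let v84 := mul v81 v83; ok v84 && (
  let v85 := mul v80 v80; ok v85 && (
  let v86 := scale ⟨219915747328, 0, 0, 0⟩ v85; ok v86 && (
  let v87 := mul v73 v84; ok v87 && (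
  let v88 := scale ⟨549755813888, 0, 0, 0⟩ v87; ok v88 && (
  let v89 := sub v88 v71; ok v89 && (
  let v90 := mul v73 v86; ok v90 && (
  let v91 := scale ⟨549755813888, 0, 0, 0⟩ v90; ok v91 && (
  let v92 := add v91 v70; ok v92 && (
  let v93 := add v89 v92; ok v93 && (
  let v94 := mul v5 v68; ok v94 && (
  let v95 := neg v94; ok v95 && (
  let v96 := exp v95; ok v96 && (
  let v97 := mul v5 v70; ok v97 && (
  let v98 := mul v96 v97; ok v98 && (
  let v99 := mul v5 v89; ok v99 && (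
  let v100 := neg v99; ok v100 && (
  let v101 := exp v100; ok v101 && (
  let v102 := mul v5 v92; ok v102 && (
  let v103 := mul v101 v102; ok v103 && (
  let v104 := mul v22 v17; ok v104 && (
  let v105 := add v19 v104; ok v105 && (
  let v106 := inv v105; ok v106 && (
  let v107 := mul v24 v106; ok v107 && (
  let v108 := mul v23 x1; ok v108 && (
  let v109 := mul v108 v107; ok v109 && (
  let v110 := sub v0 v12; ok v110 && (
  let v111 := mul v26 v110; ok v111 && (
  let v112 := mul v9 v9; ok v112 && (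
  let v113 := sub v0 v26; ok v113 && (
  let v114 := mul v110 v113; ok v114 && (
  let v115 := mul v25 v49; ok v115 && (
  let v116 := inv v44; ok v116 && (
  let v117 := mul v115 v116; ok v117 && (
  let v118 := add v19 v117; ok v118 && (
  let v119 := mul v44 v118; ok v119 && (
  let v120 := mul v119 v119; ok v120 && (
  let v121 := inv v120; ok v121 && (
  let v122 := mul v114 v121; ok v122 && (
  let v123 := add v19 v25; ok v123 && (
  let v124 := mul x0 v123; ok v124 && (
  let v125 := inv v124; ok v125 && (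
  let v126 := mul v0 v125; ok v126 && (
  let v127 := mul v126 v126; ok v127 && (
  let v128 := mul v127 v114; ok v128 && (
  let v129 := cst ⟨10849087389696, 0, 0, 0⟩; ok v129 && (
  let v130 := sub v129 v128; ok v130 && (
  isPos 4 v130 && (
  let v131 := cst ⟨13, 0, 0, 0⟩; ok v131 && (
  let v132 := cst ⟨2295, 0, 0, 0⟩; ok v132 && (
  let v133 := mul v128 v131; ok v133 && (
  let v134 := sub v132 v133; ok v134 && (
  let v135 := cst ⟨302996, 0, 0, 0⟩; ok v135 && (
  let v136 := mul v128 v134; ok v136 && (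
  let v137 := sub v135 v136; ok v137 && (
  let v138 := cst ⟨27269633, 0, 0, 0⟩; ok v138 && (
  let v139 := mul v128 v137; ok v139 && (
  let v140 := sub v138 v139; ok v140 && (
  let v141 := cst ⟨1527099484, 0, 0, 0⟩; ok v141 && (
  let v142 := mul v128 v140; ok v142 && (
  let v143 := sub v141 v142; ok v143 && (
  let v144 := cst ⟨45812984490, 0, 0, 0⟩; ok v144 && (
  let v145 := mul v128 v143; ok v145 && (
  let v146 := sub v144 v145; ok v146 && (
  let v147 := mul v128 v146; ok v147 && (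
  let v148 := sub v8 v147; ok v148 && (
  let v149 := mul v128 v148; ok v149 && (
  let v150 := sub v0 v149; ok v150 && (
  let v151 := add v96 v0; ok v151 && (
  let v152 := mul v96 v96; ok v152 && (
  let v153 := add v152 v0; ok v153 && (
  let v154 := mul v96 v150; ok v154 && (
  let v155 := scale ⟨2199023255552, 0, 0, 0⟩ v154; ok v155 && (
  let v156 := add v153 v155; ok v156 && (
  let v157 := scale ⟨4398046511104, 0, 0, 0⟩ v98; ok v157 && (
  let v158 := sub v156 v157; ok v158 && (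
  let v159 := inv v151; ok v159 && (
  let v160 := mul v158 v159; ok v160 && (
  let v161 := add v160 v151; ok v161 && (
  let v162 := mul v96 v109; ok v162 && (
  let v163 := scale ⟨549755813888, 0, 0, 0⟩ v162; ok v163 && (
  let v164 := mul v163 v161; ok v164 && (
  let v165 := sub v158 v164; ok v165 && (
  isPos 4 v158 && (
  isPos 4 v165 && (
  let v166 := sub v0 v96; ok v166 && (
  let v167 := mul v166 v151; ok v167 && (
  let v168 := scale ⟨2199023255552, 0, 0, 0⟩ v98; ok v168 && (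
  let v169 := add v167 v168; ok v169 && (
  let v170 := inv v165; ok v170 && (
  let v171 := mul v169 v170; ok v171 && (
  let v172 := scale ⟨549755813888, 0, 0, 0⟩ v171; ok v172 && (
  let v173 := add v172 v8; ok v173 && (
  let v174 := inv v173; ok v174 && (
  let v175 := mul v172 v174; ok v175 && (
  let v176 := mul v109 v175; ok v176 && (
  let v177 := scale ⟨549755813888, 0, 0, 0⟩ v176; ok v177 && (
  let v178 := sub v0 v177; ok v178 && (
  let v179 := sub v0 v176; ok v179 && (
  let v180 := inv v179; ok v180 && (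
  let v181 := mul v178 v180; ok v181 && (
  let v182 := add v176 v0; ok v182 && (
  let v183 := mul v96 v182; ok v183 && (
  let v184 := mul v107 v181; ok v184 && (
  let v185 := mul v184 v175; ok v185 && (
  let v186 := mul v176 v181; ok v186 && (
  isPos 4 v179 && (
  let v187 := mul v23 v24; ok v187 && (
  let v188 := add v19 x1; ok v188 && (
  let v189 := mul v22 v19; ok v189 && (
  let v190 := mul v189 v17; ok v190 && (
  let v191 := scale ⟨2199023255552, 0, 0, 0⟩ v190; ok v191 && (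
  let v192 := add v47 v191; ok v192 && (
  let v193 := mul v188 v192; ok v193 && (
  let v194 := inv v193; ok v194 && (
  let v195 := mul v187 v194; ok v195 && (
  let v196 := mul x1 v195; ok v196 && (
  isPos 4 v89 && (
  let v197 := mul v128 v116; ok v197 && (
  let v198 := sub v129 v197; ok v198 && (
  isPos 4 v198 && (
  let v199 := mul v197 v131; ok v199 && (
  let v200 := sub v132 v199; ok v200 && (
  let v201 := mul v197 v200; ok v201 && (
  let v202 := sub v135 v201; ok v202 && (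
  let v203 := mul v197 v202; ok v203 && (
  let v204 := sub v138 v203; ok v204 && (
  let v205 := mul v197 v204; ok v205 && (
  let v206 := sub v141 v205; ok v206 && (
  let v207 := mul v197 v206; ok v207 && (
  let v208 := sub v144 v207; ok v208 && (
  let v209 := mul v197 v208; ok v209 && (
  let v210 := sub v8 v209; ok v210 && (
  let v211 := mul v197 v210; ok v211 && (
  let v212 := sub v0 v211; ok v212 && (
  let v213 := add v101 v0; ok v213 && (
  let v214 := mul v101 v101; ok v214 && (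
  let v215 := add v214 v0; ok v215 && (
  let v216 := mul v101 v212; ok v216 && (
  let v217 := scale ⟨2199023255552, 0, 0, 0⟩ v216; ok v217 && (
  let v218 := add v215 v217; ok v218 && (
  let v219 := scale ⟨4398046511104, 0, 0, 0⟩ v103; ok v219 && (
  let v220 := sub v218 v219; ok v220 && (
  let v221 := inv v213; ok v221 && (
  let v222 := mul v220 v221; ok v222 && (
  let v223 := add v222 v213; ok v223 && (
  let v224 := mul v101 v196; ok v224 && (
  let v225 := scale ⟨549755813888, 0, 0, 0⟩ v224; ok v225 && (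
  let v226 := mul v225 v223; ok v226 && (
  let v227 := sub v220 v226; ok v227 && (
  isPos 4 v220 && (
  isPos 4 v227 && (
  let v228 := sub v0 v101; ok v228 && (
  let v229 := mul v228 v213; ok v229 && (
  let v230 := scale ⟨2199023255552, 0, 0, 0⟩ v103; ok v230 && (
  let v231 := add v229 v230; ok v231 && (
  let v232 := inv v227; ok v232 && (
  let v233 := mul v231 v232; ok v233 && (
  let v234 := scale ⟨549755813888, 0, 0, 0⟩ v233; ok v234 && (
  let v235 := add v234 v8; ok v235 && (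
  let v236 := inv v235; ok v236 && (
  let v237 := mul v234 v236; ok v237 && (
  let v238 := mul v196 v237; ok v238 && (
  let v239 := mul v237 x0; ok v239 && (
  let v240 := add v11 v0; ok v240 && (
  let v241 := inv v240; ok v241 && (
  let v242 := mul v11 v241; ok v242 && (
  let v243 := scale ⟨2199023255552, 0, 0, 0⟩ v242; ok v243 && (
  let v244 := sub v0 v243; ok v244 && (
  let v245 := sub v0 v11; ok v245 && (
  let v246 := mul x3 v241; ok v246 && (
  let v247 := mul v246 v244; ok v247 && (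
  let v248 := add v24 v247; ok v248 && (
  let v249 := scale ⟨224412041216, 0, 0, 0⟩ v15; ok v249 && (
  let v250 := inv v38; ok v250 && (
  let v251 := mul v249 v250; ok v251 && (
  let v252 := scale ⟨5497558138880, 0, 0, 0⟩ x0; ok v252 && (
  let v253 := inv v252; ok v253 && (
  let v254 := mul v0 v253; ok v254 && (
  let v255 := mul x0 v253; ok v255 && (
  let v256 := mul v255 v24; ok v256 && (
  let v257 := mul v256 v251; ok v257 && (
  let v258 := mul v254 v24; ok v258 && (
  let v259 := mul v258 v251; ok v259 && (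
  let v260 := sub v0 v259; ok v260 && (
  let v261 := inv v260; ok v261 && (
  let v262 := mul v183 v259; ok v262 && (
  let v263 := sub v0 v262; ok v263 && (
  let v264 := inv v263; ok v264 && (
  let v265 := scale ⟨2199023255552, 0, 0, 0⟩ v6; ok v265 && (
  let v266 := add v265 v0; ok v266 && (
  let v267 := add v6 v0; ok v267 && (
  let v268 := scale ⟨3573412790272, 0, 0, 0⟩ v22; ok v268 && (
  let v269 := cst ⟨339302416384, 0, 0, 0⟩; ok v269 && (
  let v270 := add v268 v269; ok v270 && (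
  let v271 := scale ⟨549755813888, 0, 0, 0⟩ v270; ok v271 && (
  let v272 := mul v11 v21; ok v272 && (
  let v273 := sub v0 v111; ok v273 && (
  let v274 := mul v11 v22; ok v274 && (
  let v275 := scale ⟨2199023255552, 0, 0, 0⟩ v274; ok v275 && (
  let v276 := sub v273 v275; ok v276 && (
  let v277 := mul v272 v272; ok v277 && (
  let v278 := add v276 v277; ok v278 && (
  let v279 := add v278 v0; ok v279 && (
  let v280 := scale ⟨549755813888, 0, 0, 0⟩ v279; ok v280 && (
  let v281 := scale ⟨549755813888, 0, 0, 0⟩ v25; ok v281 && (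
  let v282 := sub v15 v281; ok v282 && (
  let v283 := mul v112 v273; ok v283 && (
  let v284 := mul v283 v14; ok v284 && (
  let v285 := scale ⟨137438953472, 0, 0, 0⟩ v284; ok v285 && (
  let v286 := add v282 v285; ok v286 && (
  let v287 := mul v280 v286; ok v287 && (
  let v288 := cst ⟨1, 0, 0, 0⟩; ok v288 && (
  let v289 := cst ⟨12, 0, 0, 0⟩; ok v289 && (
  let v290 := mul v128 v288; ok v290 && (
  let v291 := sub v289 v290; ok v291 && (
  let v292 := cst ⟨2296, 0, 0, 0⟩; ok v292 && (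
  let v293 := mul v128 v291; ok v293 && (
  let v294 := sub v292 v293; ok v294 && (
  let v295 := cst ⟨302995, 0, 0, 0⟩; ok v295 && (
  let v296 := mul v128 v294; ok v296 && (
  let v297 := sub v295 v296; ok v297 && (
  let v298 := cst ⟨27269634, 0, 0, 0⟩; ok v298 && (
  let v299 := mul v128 v297; ok v299 && (
  let v300 := sub v298 v299; ok v300 && (
  let v301 := cst ⟨1527099483, 0, 0, 0⟩; ok v301 && (
  let v302 := mul v128 v300; ok v302 && (
  let v303 := sub v301 v302; ok v303 && (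
  let v304 := cst ⟨45812984491, 0, 0, 0⟩; ok v304 && (
  let v305 := mul v128 v303; ok v305 && (
  let v306 := sub v304 v305; ok v306 && (
  let v307 := mul v128 v306; ok v307 && (
  let v308 := sub v8 v307; ok v308 && (
  let v309 := mul v128 v308; ok v309 && (
  let v310 := sub v0 v309; ok v310 && (
  let v311 := mul v128 v6; ok v311 && (
  let v312 := mul v311 v311; ok v312 && (
  let v313 := scale ⟨369367187456, 0, 0, 0⟩ v312; ok v313 && (
  let v314 := add v310 v313; ok v314 && (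
  let v315 := mul v96 v314; ok v315 && (
  let v316 := scale ⟨2199023255552, 0, 0, 0⟩ v315; ok v316 && (
  let v317 := add v153 v316; ok v317 && (
  let v318 := add v317 v168; ok v318 && (
  let v319 := cst ⟨8589934592, 0, 0, 0⟩; ok v319 && (
  let v320 := add v318 v319; ok v320 && (
  let v321 := log v320; ok v321 && (
  let v322 := scale ⟨549755813888, 0, 0, 0⟩ v321; ok v322 && (
  let v323 := exp v322; ok v323 && (
  let v324 := mul v96 v176; ok v324 && (
  let v325 := add v323 v324; ok v325 && (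
  let v326 := mul v325 v261; ok v326 && (
  let v327 := mul v183 v264; ok v327 && (
  let v328 := add v326 v327; ok v328 && (
  let v329 := mul v259 v328; ok v329 && (
  let v330 := add v186 v329; ok v330 && (
  let v331 := mul v330 v6; ok v331 && (
  let v332 := mul v325 v259; ok v332 && (
  let v333 := mul v332 v261; ok v333 && (
  let v334 := add v186 v333; ok v334 && (
  let v335 := mul v334 v6; ok v335 && (
  let v336 := scale ⟨223338299392, 0, 0, 0⟩ v335; ok v336 && (
  let v337 := add v8 v336; ok v337 && (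
  let v338 := mul v335 v337; ok v338 && (
  let v339 := add v0 v338; ok v339 && (
  let v340 := scale ⟨893353197568, 0, 0, 0⟩ v331; ok v340 && (
  let v341 := add v0 v340; ok v341 && (
  let v342 := mul v331 v341; ok v342 && (
  let v343 := add v0 v342; ok v343 && (
  let v344 := mul v243 v246; ok v344 && (
  let v345 := mul v344 v266; ok v345 && (
  let v346 := mul v345 v343; ok v346 && (
  let v347 := mul v287 v339; ok v347 && (
  let v348 := add v52 v8; ok v348 && (
  let v349 := mul v346 v348; ok v349 && (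
  let v350 := add v347 v349; ok v350 && (
  let v351 := add v52 v0; ok v351 && (
  let v352 := mul v346 v351; ok v352 && (
  let v353 := mul v267 v351; ok v353 && (
  let v354 := mul v353 v246; ok v354 && (
  let v355 := mul v354 v245; ok v355 && (
  let v356 := mul v350 v185; ok v356 && (
  let v357 := mul v355 v271; ok v357 && (
  let v358 := add v356 v357; ok v358 && (
  let v359 := mul v5 v248; ok v359 && (
  let v360 := inv v52; ok v360 && (
  let v361 := mul v359 v360; ok v361 && (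
  let v362 := scale ⟨549755813888, 0, 0, 0⟩ v361; ok v362 && (
  let v363 := mul v23 v362; ok v363 && (
  let v364 := add v363 v358; ok v364 && (
  let v365 := mul x1 v364; ok v365 && (
  let v366 := mul x0 v365; ok v366 && (
  let v367 := mul v350 v325; ok v367 && (
  let v368 := mul v367 v261; ok v368 && (
  let v369 := mul v352 v183; ok v369 && (
  let v370 := mul v369 v264; ok v370 && (
  let v371 := add v368 v370; ok v371 && (
  let v372 := mul v23 v366; ok v372 && (
  let v373 := mul v257 v371; ok v373 && (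
  let v374 := add v372 v373; ok v374 && (
  let v375 := mul v112 v374; ok v375 && (
  let v376 := mul v375 v360; ok v376 && (
  let v377 := sub v0 v376; ok v377 && (
  let v378 := inv v377; ok v378 && (
  let v379 := mul v374 v378; ok v379 && (
  let v380 := mul x1 v379; ok v380 && (
  let v381 := mul v112 v379; ok v381 && (
  let v382 := mul v381 v360; ok v382 && (
  let v383 := sub v0 v382; ok v383 && (
  let v384 := mul v49 v383; ok v384 && (
  let v385 := sub v384 v380; ok v385 && (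
  let v386 := inv v385; ok v386 && (
  let v387 := mul v380 v386; ok v387 && (
  let v388 := sub v52 v381; ok v388 && (
  let v389 := inv v388; ok v389 && (
  let v390 := mul v387 v237; ok v390 && (
  let v391 := scale ⟨549755813888, 0, 0, 0⟩ v390; ok v391 && (
  let v392 := sub v0 v391; ok v392 && (
  let v393 := sub v0 v390; ok v393 && (
  let v394 := inv v393; ok v394 && (
  let v395 := mul v392 v394; ok v395 && (
  let v396 := mul v3 v389; ok v396 && (
  let v397 := mul v239 v386; ok v397 && (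
  let v398 := mul v397 v395; ok v398 && (
  let v399 := add v396 v398; ok v399 && (
  let v400 := mul v7 v379; ok v400 && (
  let v401 := mul v389 v400; ok v401 && (
  let v402 := mul v237 v386; ok v402 && (
  let v403 := mul v402 v395; ok v403 && (
  let v404 := mul v403 v380; ok v404 && (
  let v405 := add v401 v404; ok v405 && (
  let v406 := scale ⟨223338299392, 0, 0, 0⟩ v405; ok v406 && (
  let v407 := add v8 v406; ok v407 && (
  let v408 := mul v405 v407; ok v408 && (
  let v409 := add v0 v408; ok v409 && (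
  let v410 := mul v399 v409; ok v410 && (
  let v411 := mul v410 v378; ok v411 && (
  let v412 := mul v411 v371; ok v412 && (
  let v413 := mul v258 v23; ok v413 && (
  let v414 := cst ⟨5497558138880, 0, 0, 0⟩; ok v414 && (
  let v415 := inv v414; ok v415 && (
  let v416 := mul v53 v415; ok v416 && (
  let v417 := mul v240 v24; ok v417 && (
  let v418 := mul v417 v416; ok v418 && (
  let v419 := mul v188 v106; ok v419 && (
  let v420 := mul v22 v419; ok v420 && (
  let v421 := scale ⟨549755813888, 0, 0, 0⟩ v238; ok v421 && (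
  let v422 := sub v0 v421; ok v422 && (
  let v423 := sub v0 v238; ok v423 && (
  let v424 := inv v423; ok v424 && (
  let v425 := mul v422 v424; ok v425 && (
  let v426 := mul v425 v196; ok v426 && (
  let v427 := mul v112 v122; ok v427 && (
  let v428 := scale ⟨733097230336, 0, 0, 0⟩ v427; ok v428 && (
  let v429 := sub v0 v428; ok v429 && (
  let v430 := mul v122 v429; ok v430 && (
  let v431 := mul v89 v89; ok v431 && (
  let v432 := mul v12 v431; ok v432 && (
  let v433 := add v430 v432; ok v433 && (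
  let v434 := mul v426 v239; ok v434 && (
  let v435 := add v433 v0; ok v435 && (
  let v436 := mul v434 v435; ok v436 && (
  let v437 := sub v433 v436; ok v437 && (
  let v438 := scale ⟨366548615168, 0, 0, 0⟩ v45; ok v438 && (
  let v439 := sub v0 v438; ok v439 && (
  let v440 := mul v26 v439; ok v440 && (
  let v441 := add v437 v440; ok v441 && (
  let v442 := mul v419 v441; ok v442 && (
  let v443 := mul v420 v420; ok v443 && (
  let v444 := add v0 v443; ok v444 && (
  let v445 := inv v444; ok v445 && (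
  let v446 := mul v442 v445; ok v446 && (
  let v447 := sub v0 v387; ok v447 && (
  let v448 := mul v447 v446; ok v448 && (
  let v449 := sub v0 v434; ok v449 && (
  isPos 4 v449 && (
  isPos 4 v446 && (
  isPos 4 v447 && (
  let v450 := mul v411 v252; ok v450 && (
  let v451 := mul v450 v364; ok v451 && (
  let v452 := inv v24; ok v452 && (
  let v453 := mul v451 v452; ok v453 && (
  let v454 := mul v4 v448; ok v454 && (
  let v455 := mul x1 v454; ok v455 && (
  let v456 := scale ⟨549755813888, 0, 0, 0⟩ v455; ok v456 && (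
  let v457 := sub v0 v456; ok v457 && (
  let v458 := mul v454 v457; ok v458 && (
  let v459 := neg v458; ok v459 && (
  let v460 := mul v3 x3; ok v460 && (
  let v461 := mul v460 v240; ok v461 && (
  let v462 := mul v461 v15; ok v462 && (
  let v463 := mul v0 v462; ok v463 && (
  let v464 := add v459 v463; ok v464 && (
  let v465 := mul v459 v463; ok v465 && (
  let v466 := mul x1 v465; ok v466 && (
  let v467 := add v464 v466; ok v467 && (
  let v468 := mul v12 v42; ok v468 && (
  let v469 := scale ⟨412316860416, 0, 0, 0⟩ v43; ok v469 && (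
  let v470 := sub v8 v469; ok v470 && (
  let v471 := mul v468 v470; ok v471 && (
  let v472 := mul v0 v471; ok v472 && (
  let v473 := neg v472; ok v473 && (
  let v474 := add v467 v473; ok v474 && (
  let v475 := mul v467 v473; ok v475 && (
  let v476 := mul x1 v475; ok v476 && (
  let v477 := add v474 v476; ok v477 && (
  let v478 := mul v3 v379; ok v478 && (
  let v479 := mul v478 v452; ok v479 && (
  let v480 := mul v0 v479; ok v480 && (
  let v481 := add v477 v480; ok v481 && (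
  let v482 := mul v477 v480; ok v482 && (
  let v483 := mul x1 v482; ok v483 && (
  let v484 := add v481 v483; ok v484 && (
  let v485 := mul v0 v418; ok v485 && (
  let v486 := sub v484 v485; ok v486 && (
  let v487 := mul x1 v418; ok v487 && (
  let v488 := add v0 v487; ok v488 && (
  let v489 := inv v488; ok v489 && (
  let v490 := mul v486 v489; ok v490 && (
  let v491 := mul v3 v9; ok v491 && (
  let v492 := mul v491 v379; ok v492 && (
  let v493 := mul v492 v389; ok v493 && (
  let v494 := mul v0 v493; ok v494 && (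
  let v495 := add v490 v494; ok v495 && (
  let v496 := mul v490 v494; ok v496 && (
  let v497 := mul x1 v496; ok v497 && (
  let v498 := add v495 v497; ok v498 && (
  let v499 := mul x1 v498; ok v499 && (
  let v500 := add v0 v499; ok v500 && (
  let v501 := mul v412 v259; ok v501 && (
  let v502 := mul x1 v413; ok v502 && (
  let v503 := mul v453 v502; ok v503 && (
  let v504 := add v501 v503; ok v504 && (
  let v505 := mul v0 v504; ok v505 && (
  let v506 := add v412 v453; ok v506 && (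
  let v507 := mul v0 v506; ok v507 && (
  let v508 := mul v505 v500; ok v508 && (
  let v509 := add v498 v508; ok v509 && (
  let v510 := add v509 v507; ok v510 && (
  let v511 := neg v510; ok v511 && (
  let v512 := scale ⟨1073741824, 0, 0, 0⟩ v0; ok v512 && (
  let v513 := sub v511 v512; ok v513 && (
  let v514 := sub v20 v0; ok v514 && (
  let v515 := add v514 v56; ok v515 && (
  let v516 := scale ⟨2199023255552, 0, 0, 0⟩ v416; ok v516 && (
  let v517 := sub v515 v516; ok v517 && (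
  let v518 := mul v240 v517; ok v518 && (
  let v519 := mul v514 v516; ok v519 && (
  let v520 := add v519 v0; ok v520 && (
  let v521 := inv v520; ok v521 && (
  let v522 := mul v518 v521; ok v522 && (
  let v523 := mul v255 v371; ok v523 && (
  let v524 := scale ⟨549755813888, 0, 0, 0⟩ v251; ok v524 && (
  let v525 := add v17 v524; ok v525 && (
  let v526 := mul v523 v525; ok v526 && (
  let v527 := scale ⟨2199023255552, 0, 0, 0⟩ v526; ok v527 && (
  let v528 := add v366 v527; ok v528 && (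
  let v529 := scale ⟨2199023255552, 0, 0, 0⟩ v528; ok v529 && (
  let v530 := mul v529 v378; ok v530 && (
  let v531 := mul v9 v379; ok v531 && (
  let v532 := sub v24 v531; ok v532 && (
  let v533 := inv v532; ok v533 && (
  let v534 := mul v530 v533; ok v534 && (
  let v535 := sub v522 v534; ok v535 && (
  let v536 := mul v0 v21; ok v536 && (
  let v537 := mul v536 v536; ok v537 && (
  let v538 := cst ⟨14293651161088, 0, 0, 0⟩; ok v538 && (
  let v539 := cst ⟨10995116277760, 0, 0, 0⟩; ok v539 && (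
  let v540 := inv v539; ok v540 && (
  let v541 := mul v538 v540; ok v541 && (
  let v542 := mul v537 v541; ok v542 && (
  let v543 := mul x0 x0; ok v543 && (
  let v544 := scale ⟨27487790694400, 0, 0, 0⟩ v543; ok v544 && (
  let v545 := add v542 v544; ok v545 && (
  let v546 := mul v418 v489; ok v546 && (
  let v547 := sub v40 x1; ok v547 && (
  let v548 := sub v547 v39; ok v548 && (
  let v549 := mul v0 v3; ok v549 && (
  let v550 := mul v549 x0; ok v550 && (
  let v551 := mul v24 v371; ok v551 && (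
  let v552 := mul v551 v253; ok v552 && (
  let v553 := add v358 v552; ok v553 && (
  let v554 := add v531 v56; ok v554 && (
  let v555 := mul v0 v554; ok v555 && (
  let v556 := mul v545 v546; ok v556 && (
  let v557 := mul v378 v555; ok v557 && (
  let v558 := mul v550 v553; ok v558 && (
  let v559 := mul v557 v558; ok v559 && (
  let v560 := sub v556 v559; ok v560 && (
  let v561 := scale ⟨549755813888, 0, 0, 0⟩ v531; ok v561 && (
  let v562 := add v0 v561; ok v562 && (
  let v563 := mul v378 v562; ok v563 && (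
  let v564 := mul x1 v23; ok v564 && (
  let v565 := mul v564 v248; ok v565 && (
  let v566 := mul v24 v52; ok v566 && (
  let v567 := inv v566; ok v567 && (
  let v568 := mul v565 v567; ok v568 && (
  let v569 := mul v563 v568; ok v569 && (
  let v570 := sub v548 v569; ok v570 && (
  let v571 := mul v251 v560; ok v571 && (
  let v572 := sub v0 v251; ok v572 && (
  let v573 := mul v12 v570; ok v573 && (
  let v574 := mul v572 v573; ok v574 && (
  let v575 := mul v545 v574; ok v575 && (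
  let v576 := add v571 v575; ok v576 && (
  isPos 4 v260 && (
  isPos 4 v263 && (
  let v577 := scale ⟨2199023255552, 0, 0, 0⟩ v375; ok v577 && (
  let v578 := sub v52 v577; ok v578 && (
  isPos 4 v578 && (
  isPos 4 v385 && (
  let v579 := sub v8 v238; ok v579 && (
  isPos 4 v579 && (
  let v580 := scale ⟨687194767360, 0, 0, 0⟩ v0; ok v580 && (
  let v581 := sub v580 v335; ok v581 && (
  isPos 4 v581 && (
  let v582 := scale ⟨377957122048, 0, 0, 0⟩ v0; ok v582 && (
  let v583 := sub v582 v331; ok v583 && (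
  isPos 4 v583 && (
  isPos 4 v532 && (
  isPos 4 v393 && (
  let v584 := sub v580 v405; ok v584 && (
  isPos 4 v584 && (
  isPos 4 v535 && (
  isPos 4 v513 && (
  isPos 4 v576 && (
  isPos 4 v570 && (
  true))))))))))))))))))))))))))))))))))))))))))))))))))))))))))))))))))))))))))))))))))))))))))))))))))))))))))))))))))))))))))))))))))))))))))))))))))))))))))))))))))))))))))))))))))))))))))))))))))))))))))))))))))))))))))))))))))))))))))))))))))))))))))))))))))))))))))))))))))))))))))))))))))))))))))))))))))))))))))))))))))))))))))))))))))))))))))))))))))))))))))))))))))))))))))))))))))))))))))))))))))))))))))))))))))))))))))))))))))))))))))))))))))))))))))))))))))))))))))))))))))))))))))))))))))))))))))))))))))))))))))))))))))))))))))))))))))))))))))))))))))))))))))))))))))))))))))))))))))))))))))))))))))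
  | _ => false

set_option maxRecDepth 1000000 in
theorem chk0_eq (O : Ops) (m : List O.α)
    (h : chk0 O.cst O.add O.sub O.mul O.scale O.neg O.inv O.exp O.log O.ok O.isPos O.isLt m = true) :
    runG O 4 prog0 m = true := by
  match m, h with
  | [x0, x1, x2, x3], h => exact h

def chkB0 : List opsE.α → Bool :=
  chk0 opsE.cst opsE.add opsE.sub opsE.mul opsE.scale opsE.neg opsE.inv opsE.exp opsE.log opsE.ok opsE.isPos opsE.isLt

theorem chkB0_eq (m : List opsE.α) (h : chkB0 m = true) : runG opsE 4 prog0 m = true :=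
  chk0_eq opsE m h

def prog1 : List Op := [
  .const ⟨1099511627776, 0, 0, 0⟩,
  .mul 2 3,
  .mul 0 2,
  .mul 5 0,
  .mul 6 6,
  .mul 6 0,
  .mul 3 3,
  .mul 8 1,
  .const ⟨549755813888, 0, 0, 0⟩,
  .mul 10 5,
  .mul 0 13,
  .scale ⟨549755813888, 0, 0, 0⟩ 0,
  .mul 8 8,
  .mul 1 1,
  .sub 13 0,
  .inv 0,
  .mul 4 0,
  .scale ⟨2199023255552, 0, 0, 0⟩ 0,
  .scale ⟨2199023255552, 0, 0, 0⟩ 2,
  .sub 0 18,
  .add 0 2,
  .mul 24 5,
  .mul 18 0,
  .sub 22 0,
  .add 23 1,
  .mul 26 12,
  .mul 4 4,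
  .scale ⟨10774999203840, 0, 0, 0⟩ 15,
  .scale ⟨45768245248, 0, 0, 0⟩ 0,
  .const ⟨183207198720, 0, 0, 0⟩,
  .add 1 0,
  .mul 3 0,
  .add 23 0,
  .mul 5 0,
  .add 33 0,
  .mul 7 0,
  .scale ⟨549755813888, 0, 0, 0⟩ 0,
  .add 36 0,
  .mul 3 0,
  .mul 21 16,
  .scale ⟨2199023255552, 0, 0, 0⟩ 20,
  .add 1 0,
  .add 0 43,
  .mul 17 0,
  .add 0 43,
  .mul 27 27,
  .scale ⟨2199023255552, 0, 0, 0⟩ 0,
  .add 0 46,
  .mul 28 5,
  .sub 0 48,
  .log 5,
  .scale ⟨549755813888, 0, 0, 0⟩ 0,
  .exp 0,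
  .const ⟨3298534883328, 0, 0, 0⟩,
  .inv 0,
  .mul 54 0,
  .const ⟨2199023255552, 0, 0, 0⟩,
  .add 13 0,
  .inv 0,
  .mul 15 0,
  .mul 0 0,
  .sub 60 1,
  .mul 1 6,
  .add 62 0,
  .mul 2 0,
  .mul 4 4,
  .scale ⟨219915747328, 0, 0, 0⟩ 0,
  .mul 24 2,
  .scale ⟨549755813888, 0, 0, 0⟩ 0,
  .mul 26 2,
  .scale ⟨549755813888, 0, 0, 0⟩ 0,
  .add 2 0,
  .mul 52 22,
  .scale ⟨4398046511104, 0, 0, 0⟩ 0,
  .mul 54 48,
  .mul 0 25,
  .scale ⟨4398046511104, 0, 0, 0⟩ 0,
  .add 0 20,
  .inv 0,
  .mul 2 0,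
  .mul 0 0,
  .sub 80 1,
  .mul 1 26,
  .add 82 0,
  .mul 2 0,
  .mul 4 4,
  .scale ⟨219915747328, 0, 0, 0⟩ 0,
  .mul 13 2,
  .scale ⟨549755813888, 0, 0, 0⟩ 0,
  .sub 0 17,
  .mul 16 3,
  .scale ⟨549755813888, 0, 0, 0⟩ 0,
  .add 0 21,
  .add 3 0,
  .mul 88 25,
  .neg 0,
  .exp 0,
  .mul 91 26,
  .mul 1 0,
  .mul 93 9,
  .neg 0,
  .exp 0,
  .mul 96 9,
  .mul 1 0,
  .mul 81 86,
  .add 85 0,
  .inv 0,
  .mul 82 0,
  .mul 84 109,
  .mul 0 1,
  .sub 109 97,
  .mul 84 0,
  .mul 102 102,
  .sub 112 86,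
  .mul 3 0,
  .mul 89 65,
  .inv 71,
  .mul 1 0,
  .add 98 0,
  .mul 74 0,
  .mul 0 0,
  .inv 0,
  .mul 7 0,
  .add 103 97,
  .mul 124 0,
  .inv 0,
  .mul 125 0,
  .mul 0 0,
  .mul 0 13,
  .mul 19 128,
  .scale ⟨549755813888, 0, 0, 0⟩ 0,
  .sub 130 0,
  .sub 131 2,
  .inv 0,
  .mul 2 0,
  .add 5 134,
  .mul 39 0,
  .mul 29 2,
  .mul 0 137,
  .mul 9 4,
  .pos 7,
  .mul 116 115,
  .add 121 142,
  .mul 119 122,
  .mul 0 125,
  .scale ⟨2199023255552, 0, 0, 0⟩ 0,
  .add 97 0,
  .mul 4 0,
  .inv 0,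
  .mul 7 0,
  .mul 150 0,
  .pos 60,
  .mul 21 33,
  .const ⟨10849087389696, 0, 0, 0⟩,
  .sub 0 1,
  .pos 0,
  .const ⟨13, 0, 0, 0⟩,
  .const ⟨2295, 0, 0, 0⟩,
  .mul 4 1,
  .sub 1 0,
  .const ⟨302996, 0, 0, 0⟩,
  .mul 7 1,
  .sub 1 0,
  .const ⟨27269633, 0, 0, 0⟩,
  .mul 10 1,
  .sub 1 0,
  .const ⟨1527099484, 0, 0, 0⟩,
  .mul 13 1,
  .sub 1 0,
  .const ⟨45812984490, 0, 0, 0⟩,
  .mul 16 1,
  .sub 1 0,
  .mul 18 0,
  .sub 161 0,
  .mul 20 0,
  .sub 171 0,
  .add 71 172,
  .mul 72 72,
  .add 0 174,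
  .mul 74 3,
  .scale ⟨2199023255552, 0, 0, 0⟩ 0,
  .add 2 0,
  .scale ⟨4398046511104, 0, 0, 0⟩ 75,
  .sub 1 0,
  .inv 7,
  .mul 1 0,
  .add 0 9,
  .mul 82 34,
  .scale ⟨549755813888, 0, 0, 0⟩ 0,
  .mul 0 2,
  .sub 6 0,
  .pos 7,
  .pos 0,
  .sub 187 86,
  .mul 0 15,
  .scale ⟨2199023255552, 0, 0, 0⟩ 86,
  .add 1 0,
  .inv 4,
  .mul 1 0,
  .scale ⟨549755813888, 0, 0, 0⟩ 0,
  .add 0 186,
  .inv 0,
  .mul 2 0,
  .mul 48 0,
  .mul 1 199,
  .add 188 199,
  .inv 0,
  .mul 190 0,
  .scale ⟨2199023255552, 0, 0, 0⟩ 0,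
  .sub 203 0,
  .sub 204 193,
  .mul 209 4,
  .mul 0 2,
  .add 183 0,
  .scale ⟨224412041216, 0, 0, 0⟩ 193,
  .inv 171,
  .mul 1 0,
  .scale ⟨5497558138880, 0, 0, 0⟩ 212,
  .inv 0,
  .mul 213 0,
  .mul 215 1,
  .mul 0 191,
  .mul 0 5,
  .mul 3 193,
  .mul 0 7,
  .sub 219 0,
  .inv 0,
  .mul 85 2,
  .sub 222 0,
  .inv 0,
  .scale ⟨2199023255552, 0, 0, 0⟩ 218,
  .add 0 225,
  .add 220 226,
  .mul 228 206,
  .scale ⟨2199023255552, 0, 0, 0⟩ 0,
  .scale ⟨549755813888, 0, 0, 0⟩ 231,
  .add 1 0,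
  .mul 234 0,
  .scale ⟨549755813888, 0, 0, 0⟩ 0,
  .mul 222 212,
  .sub 234 123,
  .mul 224 213,
  .scale ⟨2199023255552, 0, 0, 0⟩ 0,
  .sub 2 0,
  .mul 4 4,
  .add 1 0,
  .add 0 240,
  .scale ⟨549755813888, 0, 0, 0⟩ 0,
  .scale ⟨549755813888, 0, 0, 0⟩ 217,
  .sub 228 0,
  .mul 132 9,
  .mul 0 231,
  .scale ⟨137438953472, 0, 0, 0⟩ 0,
  .add 3 0,
  .mul 6 0,
  .const ⟨1, 0, 0, 0⟩,
  .const ⟨12, 0, 0, 0⟩,
  .mul 123 1,
  .sub 1 0,
  .const ⟨2296, 0, 0, 0⟩,
  .mul 126 1,
  .sub 1 0,
  .const ⟨302995, 0, 0, 0⟩,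
  .mul 129 1,
  .sub 1 0,
  .const ⟨27269634, 0, 0, 0⟩,
  .mul 132 1,
  .sub 1 0,
  .const ⟨1527099483, 0, 0, 0⟩,
  .mul 135 1,
  .sub 1 0,
  .const ⟨45812984491, 0, 0, 0⟩,
  .mul 138 1,
  .sub 1 0,
  .mul 140 0,
  .sub 261 0,
  .mul 142 0,
  .sub 271 0,
  .mul 144 266,
  .mul 177 177,
  .add 0 274,
  .mul 2 2,
  .scale ⟨369367187456, 0, 0, 0⟩ 0,
  .add 5 0,
  .mul 182 0,
  .scale ⟨2199023255552, 0, 0, 0⟩ 0,
  .add 5 0,
  .scale ⟨2199023255552, 0, 0, 0⟩ 183,
  .add 1 0,
  .const ⟨8589934592, 0, 0, 0⟩,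
  .add 1 0,
  .log 0,
  .scale ⟨549755813888, 0, 0, 0⟩ 0,
  .exp 0,
  .mul 192 159,
  .add 1 0,
  .mul 0 69,
  .mul 155 67,
  .add 1 0,
  .mul 74 0,
  .add 155 0,
  .mul 0 289,
  .mul 6 77,
  .mul 0 76,
  .add 159 0,
  .mul 0 293,
  .scale ⟨223338299392, 0, 0, 0⟩ 0,
  .add 293 0,
  .mul 2 0,
  .add 303 0,
  .scale ⟨893353197568, 0, 0, 0⟩ 8,
  .add 305 0,
  .mul 10 0,
  .add 307 0,
  .mul 105 102,
  .mul 0 83,
  .mul 0 2,
  .mul 62 7,
  .add 260 304,
  .mul 2 0,
  .add 2 0,
  .add 263 315,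
  .mul 5 0,
  .mul 90 1,
  .mul 0 112,
  .mul 0 114,
  .mul 5 182,
  .mul 1 88,
  .add 1 0,
  .mul 318 115,
  .inv 272,
  .mul 1 0,
  .scale ⟨549755813888, 0, 0, 0⟩ 0,
  .mul 304 0,
  .add 0 5,
  .mul 331 0,
  .mul 331 0,
  .mul 16 41,
  .mul 0 111,
  .mul 16 197,
  .mul 0 110,
  .add 2 0,
  .mul 313 5,
  .mul 120 1,
  .add 1 0,
  .mul 227 0,
  .mul 0 15,
  .sub 341 0,
  .inv 0,
  .mul 4 0,
  .mul 346 0,
  .mul 233 1,
  .mul 0 21,
  .sub 347 0,
  .mul 299 0,
  .sub 0 4,
  .inv 0,
  .mul 6 0,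
  .sub 300 6,
  .inv 0,
  .mul 2 157,
  .scale ⟨549755813888, 0, 0, 0⟩ 0,
  .sub 356 0,
  .sub 357 2,
  .inv 0,
  .mul 2 0,
  .mul 357 6,
  .mul 162 10,
  .mul 0 2,
  .add 2 0,
  .mul 357 20,
  .mul 11 0,
  .mul 169 15,
  .mul 0 7,
  .mul 0 23,
  .add 3 0,
  .scale ⟨223338299392, 0, 0, 0⟩ 0,
  .add 363 0,
  .mul 2 0,
  .add 373 0,
  .mul 10 0,
  .mul 0 32,
  .mul 0 40,
  .mul 159 354,
  .const ⟨5497558138880, 0, 0, 0⟩,
  .inv 0,
  .mul 327 0,
  .mul 181 357,
  .mul 0 1,
  .mul 242 277,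
  .mul 362 0,
  .scale ⟨549755813888, 0, 0, 0⟩ 187,
  .sub 386 0,
  .sub 387 189,
  .inv 0,
  .mul 2 0,
  .mul 0 241,
  .mul 279 269,
  .scale ⟨733097230336, 0, 0, 0⟩ 0,
  .sub 393 0,
  .mul 272 0,
  .mul 306 306,
  .mul 384 0,
  .add 2 0,
  .mul 7 199,
  .add 1 399,
  .mul 1 0,
  .sub 3 0,
  .scale ⟨366548615168, 0, 0, 0⟩ 357,
  .sub 403 0,
  .mul 378 0,
  .add 3 0,
  .mul 22 0,
  .mul 22 22,
  .add 408 0,
  .inv 0,
  .mul 3 0,
  .sub 411 59,
  .mul 0 1,
  .sub 413 14,
  .pos 0,
  .pos 3,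
  .pos 2,
  .mul 38 202,
  .mul 0 86,
  .inv 392,
  .mul 1 0,
  .mul 414 5,
  .mul 421 0,
  .scale ⟨549755813888, 0, 0, 0⟩ 0,
  .sub 421 0,
  .mul 3 0,
  .neg 0,
  .mul 421 428,
  .mul 0 225,
  .mul 0 411,
  .mul 427 0,
  .add 4 0,
  .mul 5 1,
  .mul 432 0,
  .add 2 0,
  .mul 420 390,
  .scale ⟨412316860416, 0, 0, 0⟩ 390,
  .sub 426 0,
  .mul 2 0,
  .mul 436 0,
  .neg 0,
  .add 6 0,
  .mul 7 1,
  .mul 442 0,
  .add 2 0,
  .mul 439 98,
  .mul 0 26,
  .mul 444 0,
  .add 3 0,
  .mul 4 1,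
  .mul 449 0,
  .add 2 0,
  .mul 449 66,
  .sub 1 0,
  .mul 453 68,
  .add 452 0,
  .inv 0,
  .mul 3 0,
  .mul 452 446,
  .mul 0 112,
  .mul 0 103,
  .mul 458 0,
  .add 4 0,
  .mul 5 1,
  .mul 463 0,
  .add 2 0,
  .mul 465 0,
  .add 464 0,
  .mul 88 246,
  .mul 468 88,
  .mul 49 0,
  .add 2 0,
  .mul 469 0,
  .add 93 52,
  .mul 471 0,
  .mul 2 7,
  .add 10 0,
  .add 0 2,
  .neg 0,
  .scale ⟨1073741824, 0, 0, 0⟩ 476,
  .sub 1 0,
  .sub 458 478,
  .add 0 423,
  .scale ⟨2199023255552, 0, 0, 0⟩ 99,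
  .sub 1 0,
  .mul 282 0,
  .mul 4 2,
  .add 0 484,
  .inv 0,
  .mul 3 0,
  .mul 272 151,
  .scale ⟨549755813888, 0, 0, 0⟩ 277,
  .add 472 0,
  .mul 2 0,
  .scale ⟨2199023255552, 0, 0, 0⟩ 0,
  .add 161 0,
  .scale ⟨2199023255552, 0, 0, 0⟩ 0,
  .mul 0 151,
  .mul 486 151,
  .sub 472 0,
  .inv 0,
  .mul 3 0,
  .sub 12 0,
  .mul 500 479,
  .mul 0 0,
  .const ⟨14293651161088, 0, 0, 0⟩,
  .const ⟨10995116277760, 0, 0, 0⟩,
  .inv 0,
  .mul 2 0,
  .mul 4 0,
  .mul 508 508,
  .scale ⟨27487790694400, 0, 0, 0⟩ 0,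
  .add 2 0,
  .mul 127 56,
  .sub 471 513,
  .sub 0 473,
  .mul 513 510,
  .mul 0 515,
  .mul 491 179,
  .mul 0 303,
  .add 194 0,
  .add 22 462,
  .mul 519 0,
  .mul 10 9,
  .mul 178 1,
  .mul 7 4,
  .mul 1 0,
  .sub 3 0,
  .scale ⟨549755813888, 0, 0, 0⟩ 29,
  .add 526 0,
  .mul 184 0,
  .mul 530 505,
  .mul 0 321,
  .mul 506 478,
  .inv 0,
  .mul 2 0,
  .mul 5 0,
  .sub 21 0,
  .mul 324 10,
  .sub 536 325,
  .mul 525 2,
  .mul 1 0,
  .mul 29 0,
  .add 4 0,
  .pos 321,
  .pos 318,
  .scale ⟨2199023255552, 0, 0, 0⟩ 201,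
  .sub 490 0,
  .pos 0,
  .pos 193,
  .sub 535 345,
  .pos 0,
  .scale ⟨687194767360, 0, 0, 0⟩ 544,
  .sub 0 245,
  .pos 0,
  .scale ⟨377957122048, 0, 0, 0⟩ 546,
  .sub 0 251,
  .pos 0,
  .pos 51,
  .pos 190,
  .sub 3 178,
  .pos 0,
  .pos 49,
  .pos 71,
  .pos 8,
  .pos 14]

def chk1 {α : Type} (cst : Z → α) (add sub mul : α → α → α) (scale : Z → α → α)
    (neg inv exp log : α → α) (ok : α → Bool) (isPos : Nat → α → Bool) (isLt : α → Nat → Bool) :
    List α → Bool
  | [x0, x1, x2, x3] =>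
  let v0 := cst ⟨1099511627776, 0, 0, 0⟩; ok v0 && (
  let v1 := mul x1 x2; ok v1 && (
  let v2 := mul v1 x0; ok v2 && (
  let v3 := mul x2 v2; ok v3 && (
  let v4 := mul x2 x2; ok v4 && (
  let v5 := mul x1 v4; ok v5 && (
  let v6 := mul v2 v2; ok v6 && (
  let v7 := mul x1 v5; ok v7 && (
  let v8 := cst ⟨549755813888, 0, 0, 0⟩; ok v8 && (
  let v9 := mul x1 v3; ok v9 && (
  let v10 := mul v9 x3; ok v10 && (
  let v11 := scale ⟨549755813888, 0, 0, 0⟩ v10; ok v11 && (
  let v12 := mul v3 v3; ok v12 && (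
  let v13 := mul v11 v11; ok v13 && (
  let v14 := sub v0 v13; ok v14 && (
  let v15 := inv v14; ok v15 && (
  let v16 := mul v11 v15; ok v16 && (
  let v17 := scale ⟨2199023255552, 0, 0, 0⟩ v16; ok v17 && (
  let v18 := scale ⟨2199023255552, 0, 0, 0⟩ v15; ok v18 && (
  let v19 := sub v18 v0; ok v19 && (
  let v20 := add v19 v17; ok v20 && (
  let v21 := mul x3 v15; ok v21 && (
  let v22 := mul v3 v21; ok v22 && (
  let v23 := sub v0 v22; ok v23 && (
  let v24 := add v0 v22; ok v24 && (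
  let v25 := mul x1 v12; ok v25 && (
  let v26 := mul v21 v21; ok v26 && (
  let v27 := scale ⟨10774999203840, 0, 0, 0⟩ v11; ok v27 && (
  let v28 := scale ⟨45768245248, 0, 0, 0⟩ v27; ok v28 && (
  let v29 := cst ⟨183207198720, 0, 0, 0⟩; ok v29 && (
  let v30 := add v28 v29; ok v30 && (
  let v31 := mul v27 v30; ok v31 && (
  let v32 := add v8 v31; ok v32 && (
  let v33 := mul v27 v32; ok v33 && (
  let v34 := add v0 v33; ok v34 && (
  let v35 := mul v27 v34; ok v35 && (
  let v36 := scale ⟨549755813888, 0, 0, 0⟩ v35; ok v36 && (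
  let v37 := add v0 v36; ok v37 && (
  let v38 := mul v34 v37; ok v38 && (
  let v39 := mul v17 v22; ok v39 && (
  let v40 := scale ⟨2199023255552, 0, 0, 0⟩ v19; ok v40 && (
  let v41 := add v39 v40; ok v41 && (
  let v42 := add v41 x1; ok v42 && (
  let v43 := mul v25 v42; ok v43 && (
  let v44 := add v43 v0; ok v44 && (
  let v45 := mul v17 v17; ok v45 && (
  let v46 := scale ⟨2199023255552, 0, 0, 0⟩ v45; ok v46 && (
  let v47 := add v46 v0; ok v47 && (
  let v48 := mul v19 v42; ok v48 && (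
  let v49 := sub v48 v0; ok v49 && (
  let v50 := log v44; ok v50 && (
  let v51 := scale ⟨549755813888, 0, 0, 0⟩ v50; ok v51 && (
  let v52 := exp v51; ok v52 && (
  let v53 := cst ⟨3298534883328, 0, 0, 0⟩; ok v53 && (
  let v54 := inv v53; ok v54 && (
  let v55 := mul v0 v54; ok v55 && (
  let v56 := cst ⟨2199023255552, 0, 0, 0⟩; ok v56 && (
  let v57 := add v43 v56; ok v57 && (
  let v58 := inv v57; ok v58 && (
  let v59 := mul v43 v58; ok v59 && (
  let v60 := mul v59 v59; ok v60 && (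
  let v61 := sub v0 v59; ok v61 && (
  let v62 := mul v60 v55; ok v62 && (
  let v63 := add v0 v62; ok v63 && (
  let v64 := mul v61 v63; ok v64 && (
  let v65 := mul v60 v60; ok v65 && (
  let v66 := scale ⟨219915747328, 0, 0, 0⟩ v65; ok v66 && (
  let v67 := mul v42 v64; ok v67 && (
  let v68 := scale ⟨549755813888, 0, 0, 0⟩ v67; ok v68 && (
  let v69 := mul v42 v66; ok v69 && (
  let v70 := scale ⟨549755813888, 0, 0, 0⟩ v69; ok v70 && (
  let v71 := add v68 v70; ok v71 && (
  let v72 := mul v19 v49; ok v72 && (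
  let v73 := scale ⟨4398046511104, 0, 0, 0⟩ v72; ok v73 && (
  let v74 := mul v19 v25; ok v74 && (
  let v75 := mul v74 v49; ok v75 && (
  let v76 := scale ⟨4398046511104, 0, 0, 0⟩ v75; ok v76 && (
  let v77 := add v76 v56; ok v77 && (
  let v78 := inv v77; ok v78 && (
  let v79 := mul v76 v78; ok v79 && (
  let v80 := mul v79 v79; ok v80 && (
  let v81 := sub v0 v79; ok v81 && (
  let v82 := mul v80 v55; ok v82 && (
  let v83 := add v0 v82; ok v83 && (
  let v84 := mul v81 v83; ok v84 && (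
  let v85 := mul v80 v80; ok v85 && (
  let v86 := scale ⟨219915747328, 0, 0, 0⟩ v85; ok v86 && (
  let v87 := mul v73 v84; ok v87 && (
  let v88 := scale ⟨549755813888, 0, 0, 0⟩ v87; ok v88 && (
  let v89 := sub v88 v71; ok v89 && (
  let v90 := mul v73 v86; ok v90 && (
  let v91 := scale ⟨549755813888, 0, 0, 0⟩ v90; ok v91 && (
  let v92 := add v91 v70; ok v92 && (
  let v93 := add v89 v92; ok v93 && (
  let v94 := mul v5 v68; ok v94 && (
  let v95 := neg v94; ok v95 && (
  let v96 := exp v95; ok v96 && (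
  let v97 := mul v5 v70; ok v97 && (
  let v98 := mul v96 v97; ok v98 && (
  let v99 := mul v5 v89; ok v99 && (
  let v100 := neg v99; ok v100 && (
  let v101 := exp v100; ok v101 && (
  let v102 := mul v5 v92; ok v102 && (
  let v103 := mul v101 v102; ok v103 && (
  let v104 := mul v22 v17; ok v104 && (
  let v105 := add v19 v104; ok v105 && (
  let v106 := inv v105; ok v106 && (
  let v107 := mul v24 v106; ok v107 && (
  let v108 := mul v23 x1; ok v108 && (
  let v109 := mul v108 v107; ok v109 && (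
  let v110 := sub v0 v12; ok v110 && (
  let v111 := mul v26 v110; ok v111 && (
  let v112 := mul v9 v9; ok v112 && (
  let v113 := sub v0 v26; ok v113 && (
  let v114 := mul v110 v113; ok v114 && (
  let v115 := mul v25 v49; ok v115 && (
  let v116 := inv v44; ok v116 && (
  let v117 := mul v115 v116; ok v117 && (
  let v118 := add v19 v117; ok v118 && (
  let v119 := mul v44 v118; ok v119 && (
  let v120 := mul v119 v119; ok v120 && (
  let v121 := inv v120; ok v121 && (
  let v122 := mul v114 v121; ok v122 && (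
  let v123 := add v19 v25; ok v123 && (
  let v124 := mul x0 v123; ok v124 && (
  let v125 := inv v124; ok v125 && (
  let v126 := mul v0 v125; ok v126 && (
  let v127 := mul v126 v126; ok v127 && (
  let v128 := mul v127 v114; ok v128 && (
  let v129 := mul v109 v0; ok v129 && (
  let v130 := scale ⟨549755813888, 0, 0, 0⟩ v129; ok v130 && (
  let v131 := sub v0 v130; ok v131 && (
  let v132 := sub v0 v129; ok v132 && (
  let v133 := inv v132; ok v133 && (
  let v134 := mul v131 v133; ok v134 && (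
  let v135 := add v129 v0; ok v135 && (
  let v136 := mul v96 v135; ok v136 && (
  let v137 := mul v107 v134; ok v137 && (
  let v138 := mul v137 v0; ok v138 && (
  let v139 := mul v129 v134; ok v139 && (
  isPos 4 v132 && (
  let v140 := mul v23 v24; ok v140 && (
  let v141 := add v19 x1; ok v141 && (
  let v142 := mul v22 v19; ok v142 && (
  let v143 := mul v142 v17; ok v143 && (
  let v144 := scale ⟨2199023255552, 0, 0, 0⟩ v143; ok v144 && (
  let v145 := add v47 v144; ok v145 && (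
  let v146 := mul v141 v145; ok v146 && (
  let v147 := inv v146; ok v147 && (
  let v148 := mul v140 v147; ok v148 && (
  let v149 := mul x1 v148; ok v149 && (
  isPos 4 v89 && (
  let v150 := mul v128 v116; ok v150 && (
  let v151 := cst ⟨10849087389696, 0, 0, 0⟩; ok v151 && (
  let v152 := sub v151 v150; ok v152 && (
  isPos 4 v152 && (
  let v153 := cst ⟨13, 0, 0, 0⟩; ok v153 && (
  let v154 := cst ⟨2295, 0, 0, 0⟩; ok v154 && (
  let v155 := mul v150 v153; ok v155 && (
  let v156 := sub v154 v155; ok v156 && (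
  let v157 := cst ⟨302996, 0, 0, 0⟩; ok v157 && (
  let v158 := mul v150 v156; ok v158 && (
  let v159 := sub v157 v158; ok v159 && (
  let v160 := cst ⟨27269633, 0, 0, 0⟩; ok v160 && (
  let v161 := mul v150 v159; ok v161 && (
  let v162 := sub v160 v161; ok v162 && (
  let v163 := cst ⟨1527099484, 0, 0, 0⟩; ok v163 && (
  let v164 := mul v150 v162; ok v164 && (
  let v165 := sub v163 v164; ok v165 && (
  let v166 := cst ⟨45812984490, 0, 0, 0⟩; ok v166 && (
  let v167 := mul v150 v165; ok v167 && (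
  let v168 := sub v166 v167; ok v168 && (
  let v169 := mul v150 v168; ok v169 && (
  let v170 := sub v8 v169; ok v170 && (
  let v171 := mul v150 v170; ok v171 && (
  let v172 := sub v0 v171; ok v172 && (
  let v173 := add v101 v0; ok v173 && (
  let v174 := mul v101 v101; ok v174 && (
  let v175 := add v174 v0; ok v175 && (
  let v176 := mul v101 v172; ok v176 && (
  let v177 := scale ⟨2199023255552, 0, 0, 0⟩ v176; ok v177 && (
  let v178 := add v175 v177; ok v178 && (
  let v179 := scale ⟨4398046511104, 0, 0, 0⟩ v103; ok v179 && (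
  let v180 := sub v178 v179; ok v180 && (
  let v181 := inv v173; ok v181 && (
  let v182 := mul v180 v181; ok v182 && (
  let v183 := add v182 v173; ok v183 && (
  let v184 := mul v101 v149; ok v184 && (
  let v185 := scale ⟨549755813888, 0, 0, 0⟩ v184; ok v185 && (
  let v186 := mul v185 v183; ok v186 && (
  let v187 := sub v180 v186; ok v187 && (
  isPos 4 v180 && (
  isPos 4 v187 && (
  let v188 := sub v0 v101; ok v188 && (
  let v189 := mul v188 v173; ok v189 && (
  let v190 := scale ⟨2199023255552, 0, 0, 0⟩ v103; ok v190 && (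
  let v191 := add v189 v190; ok v191 && (
  let v192 := inv v187; ok v192 && (
  let v193 := mul v191 v192; ok v193 && (
  let v194 := scale ⟨549755813888, 0, 0, 0⟩ v193; ok v194 && (
  let v195 := add v194 v8; ok v195 && (
  let v196 := inv v195; ok v196 && (
  let v197 := mul v194 v196; ok v197 && (
  let v198 := mul v149 v197; ok v198 && (
  let v199 := mul v197 x0; ok v199 && (
  let v200 := add v11 v0; ok v200 && (
  let v201 := inv v200; ok v201 && (
  let v202 := mul v11 v201; ok v202 && (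
  let v203 := scale ⟨2199023255552, 0, 0, 0⟩ v202; ok v203 && (
  let v204 := sub v0 v203; ok v204 && (
  let v205 := sub v0 v11; ok v205 && (
  let v206 := mul x3 v201; ok v206 && (
  let v207 := mul v206 v204; ok v207 && (
  let v208 := add v24 v207; ok v208 && (
  let v209 := scale ⟨224412041216, 0, 0, 0⟩ v15; ok v209 && (
  let v210 := inv v38; ok v210 && (
  let v211 := mul v209 v210; ok v211 && (
  let v212 := scale ⟨5497558138880, 0, 0, 0⟩ x0; ok v212 && (
  let v213 := inv v212; ok v213 && (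
  let v214 := mul v0 v213; ok v214 && (
  let v215 := mul x0 v213; ok v215 && (
  let v216 := mul v215 v24; ok v216 && (
  let v217 := mul v216 v211; ok v217 && (
  let v218 := mul v214 v24; ok v218 && (
  let v219 := mul v218 v211; ok v219 && (
  let v220 := sub v0 v219; ok v220 && (
  let v221 := inv v220; ok v221 && (
  let v222 := mul v136 v219; ok v222 && (
  let v223 := sub v0 v222; ok v223 && (
  let v224 := inv v223; ok v224 && (
  let v225 := scale ⟨2199023255552, 0, 0, 0⟩ v6; ok v225 && (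
  let v226 := add v225 v0; ok v226 && (
  let v227 := add v6 v0; ok v227 && (
  let v228 := mul x0 v21; ok v228 && (
  let v229 := scale ⟨2199023255552, 0, 0, 0⟩ v228; ok v229 && (
  let v230 := scale ⟨549755813888, 0, 0, 0⟩ x1; ok v230 && (
  let v231 := add v229 v230; ok v231 && (
  let v232 := mul x2 v231; ok v232 && (
  let v233 := scale ⟨549755813888, 0, 0, 0⟩ v232; ok v233 && (
  let v234 := mul v11 v21; ok v234 && (
  let v235 := sub v0 v111; ok v235 && (
  let v236 := mul v11 v22; ok v236 && (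
  let v237 := scale ⟨2199023255552, 0, 0, 0⟩ v236; ok v237 && (
  let v238 := sub v235 v237; ok v238 && (
  let v239 := mul v234 v234; ok v239 && (
  let v240 := add v238 v239; ok v240 && (
  let v241 := add v240 v0; ok v241 && (
  let v242 := scale ⟨549755813888, 0, 0, 0⟩ v241; ok v242 && (
  let v243 := scale ⟨549755813888, 0, 0, 0⟩ v25; ok v243 && (
  let v244 := sub v15 v243; ok v244 && (
  let v245 := mul v112 v235; ok v245 && (
  let v246 := mul v245 v14; ok v246 && (
  let v247 := scale ⟨137438953472, 0, 0, 0⟩ v246; ok v247 && (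
  let v248 := add v244 v247; ok v248 && (
  let v249 := mul v242 v248; ok v249 && (
  let v250 := cst ⟨1, 0, 0, 0⟩; ok v250 && (
  let v251 := cst ⟨12, 0, 0, 0⟩; ok v251 && (
  let v252 := mul v128 v250; ok v252 && (
  let v253 := sub v251 v252; ok v253 && (
  let v254 := cst ⟨2296, 0, 0, 0⟩; ok v254 && (
  let v255 := mul v128 v253; ok v255 && (
  let v256 := sub v254 v255; ok v256 && (
  let v257 := cst ⟨302995, 0, 0, 0⟩; ok v257 && (
  let v258 := mul v128 v256; ok v258 && (
  let v259 := sub v257 v258; ok v259 && (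
  let v260 := cst ⟨27269634, 0, 0, 0⟩; ok v260 && (
  let v261 := mul v128 v259; ok v261 && (
  let v262 := sub v260 v261; ok v262 && (
  let v263 := cst ⟨1527099483, 0, 0, 0⟩; ok v263 && (
  let v264 := mul v128 v262; ok v264 && (
  let v265 := sub v263 v264; ok v265 && (
  let v266 := cst ⟨45812984491, 0, 0, 0⟩; ok v266 && (
  let v267 := mul v128 v265; ok v267 && (
  let v268 := sub v266 v267; ok v268 && (
  let v269 := mul v128 v268; ok v269 && (
  let v270 := sub v8 v269; ok v270 && (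
  let v271 := mul v128 v270; ok v271 && (
  let v272 := sub v0 v271; ok v272 && (
  let v273 := mul v128 v6; ok v273 && (
  let v274 := mul v96 v96; ok v274 && (
  let v275 := add v274 v0; ok v275 && (
  let v276 := mul v273 v273; ok v276 && (
  let v277 := scale ⟨369367187456, 0, 0, 0⟩ v276; ok v277 && (
  let v278 := add v272 v277; ok v278 && (
  let v279 := mul v96 v278; ok v279 && (
  let v280 := scale ⟨2199023255552, 0, 0, 0⟩ v279; ok v280 && (
  let v281 := add v275 v280; ok v281 && (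
  let v282 := scale ⟨2199023255552, 0, 0, 0⟩ v98; ok v282 && (
  let v283 := add v281 v282; ok v283 && (
  let v284 := cst ⟨8589934592, 0, 0, 0⟩; ok v284 && (
  let v285 := add v283 v284; ok v285 && (
  let v286 := log v285; ok v286 && (
  let v287 := scale ⟨549755813888, 0, 0, 0⟩ v286; ok v287 && (
  let v288 := exp v287; ok v288 && (
  let v289 := mul v96 v129; ok v289 && (
  let v290 := add v288 v289; ok v290 && (
  let v291 := mul v290 v221; ok v291 && (
  let v292 := mul v136 v224; ok v292 && (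
  let v293 := add v291 v292; ok v293 && (
  let v294 := mul v219 v293; ok v294 && (
  let v295 := add v139 v294; ok v295 && (
  let v296 := mul v295 v6; ok v296 && (
  let v297 := mul v290 v219; ok v297 && (
  let v298 := mul v297 v221; ok v298 && (
  let v299 := add v139 v298; ok v299 && (
  let v300 := mul v299 v6; ok v300 && (
  let v301 := scale ⟨223338299392, 0, 0, 0⟩ v300; ok v301 && (
  let v302 := add v8 v301; ok v302 && (
  let v303 := mul v300 v302; ok v303 && (
  let v304 := add v0 v303; ok v304 && (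
  let v305 := scale ⟨893353197568, 0, 0, 0⟩ v296; ok v305 && (
  let v306 := add v0 v305; ok v306 && (
  let v307 := mul v296 v306; ok v307 && (
  let v308 := add v0 v307; ok v308 && (
  let v309 := mul v203 v206; ok v309 && (
  let v310 := mul v309 v226; ok v310 && (
  let v311 := mul v310 v308; ok v311 && (
  let v312 := mul v249 v304; ok v312 && (
  let v313 := add v52 v8; ok v313 && (
  let v314 := mul v311 v313; ok v314 && (
  let v315 := add v312 v314; ok v315 && (
  let v316 := add v52 v0; ok v316 && (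
  let v317 := mul v311 v316; ok v317 && (
  let v318 := mul v227 v316; ok v318 && (
  let v319 := mul v318 v206; ok v319 && (
  let v320 := mul v319 v205; ok v320 && (
  let v321 := mul v315 v138; ok v321 && (
  let v322 := mul v320 v233; ok v322 && (
  let v323 := add v321 v322; ok v323 && (
  let v324 := mul v5 v208; ok v324 && (
  let v325 := inv v52; ok v325 && (
  let v326 := mul v324 v325; ok v326 && (
  let v327 := scale ⟨549755813888, 0, 0, 0⟩ v326; ok v327 && (
  let v328 := mul v23 v327; ok v328 && (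
  let v329 := add v328 v323; ok v329 && (
  let v330 := mul x1 v329; ok v330 && (
  let v331 := mul x0 v330; ok v331 && (
  let v332 := mul v315 v290; ok v332 && (
  let v333 := mul v332 v221; ok v333 && (
  let v334 := mul v317 v136; ok v334 && (
  let v335 := mul v334 v224; ok v335 && (
  let v336 := add v333 v335; ok v336 && (
  let v337 := mul v23 v331; ok v337 && (
  let v338 := mul v217 v336; ok v338 && (
  let v339 := add v337 v338; ok v339 && (
  let v340 := mul v112 v339; ok v340 && (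
  let v341 := mul v340 v325; ok v341 && (
  let v342 := sub v0 v341; ok v342 && (
  let v343 := inv v342; ok v343 && (
  let v344 := mul v339 v343; ok v344 && (
  let v345 := mul x1 v344; ok v345 && (
  let v346 := mul v112 v344; ok v346 && (
  let v347 := mul v346 v325; ok v347 && (
  let v348 := sub v0 v347; ok v348 && (
  let v349 := mul v49 v348; ok v349 && (
  let v350 := sub v349 v345; ok v350 && (
  let v351 := inv v350; ok v351 && (
  let v352 := mul v345 v351; ok v352 && (
  let v353 := sub v52 v346; ok v353 && (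
  let v354 := inv v353; ok v354 && (
  let v355 := mul v352 v197; ok v355 && (
  let v356 := scale ⟨549755813888, 0, 0, 0⟩ v355; ok v356 && (
  let v357 := sub v0 v356; ok v357 && (
  let v358 := sub v0 v355; ok v358 && (
  let v359 := inv v358; ok v359 && (
  let v360 := mul v357 v359; ok v360 && (
  let v361 := mul v3 v354; ok v361 && (
  let v362 := mul v199 v351; ok v362 && (
  let v363 := mul v362 v360; ok v363 && (
  let v364 := add v361 v363; ok v364 && (
  let v365 := mul v7 v344; ok v365 && (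
  let v366 := mul v354 v365; ok v366 && (
  let v367 := mul v197 v351; ok v367 && (
  let v368 := mul v367 v360; ok v368 && (
  let v369 := mul v368 v345; ok v369 && (
  let v370 := add v366 v369; ok v370 && (
  let v371 := scale ⟨223338299392, 0, 0, 0⟩ v370; ok v371 && (
  let v372 := add v8 v371; ok v372 && (
  let v373 := mul v370 v372; ok v373 && (
  let v374 := add v0 v373; ok v374 && (
  let v375 := mul v364 v374; ok v375 && (
  let v376 := mul v375 v343; ok v376 && (
  let v377 := mul v376 v336; ok v377 && (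
  let v378 := mul v218 v23; ok v378 && (
  let v379 := cst ⟨5497558138880, 0, 0, 0⟩; ok v379 && (
  let v380 := inv v379; ok v380 && (
  let v381 := mul v53 v380; ok v381 && (
  let v382 := mul v200 v24; ok v382 && (
  let v383 := mul v382 v381; ok v383 && (
  let v384 := mul v141 v106; ok v384 && (
  let v385 := mul v22 v384; ok v385 && (
  let v386 := scale ⟨549755813888, 0, 0, 0⟩ v198; ok v386 && (
  let v387 := sub v0 v386; ok v387 && (
  let v388 := sub v0 v198; ok v388 && (
  let v389 := inv v388; ok v389 && (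
  let v390 := mul v387 v389; ok v390 && (
  let v391 := mul v390 v149; ok v391 && (
  let v392 := mul v112 v122; ok v392 && (
  let v393 := scale ⟨733097230336, 0, 0, 0⟩ v392; ok v393 && (
  let v394 := sub v0 v393; ok v394 && (
  let v395 := mul v122 v394; ok v395 && (
  let v396 := mul v89 v89; ok v396 && (
  let v397 := mul v12 v396; ok v397 && (
  let v398 := add v395 v397; ok v398 && (
  let v399 := mul v391 v199; ok v399 && (
  let v400 := add v398 v0; ok v400 && (
  let v401 := mul v399 v400; ok v401 && (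
  let v402 := sub v398 v401; ok v402 && (
  let v403 := scale ⟨366548615168, 0, 0, 0⟩ v45; ok v403 && (
  let v404 := sub v0 v403; ok v404 && (
  let v405 := mul v26 v404; ok v405 && (
  let v406 := add v402 v405; ok v406 && (
  let v407 := mul v384 v406; ok v407 && (
  let v408 := mul v385 v385; ok v408 && (
  let v409 := add v0 v408; ok v409 && (
  let v410 := inv v409; ok v410 && (
  let v411 := mul v407 v410; ok v411 && (
  let v412 := sub v0 v352; ok v412 && (
  let v413 := mul v412 v411; ok v413 && (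
  let v414 := sub v0 v399; ok v414 && (
  isPos 4 v414 && (
  isPos 4 v411 && (
  isPos 4 v412 && (
  let v415 := mul v376 v212; ok v415 && (
  let v416 := mul v415 v329; ok v416 && (
  let v417 := inv v24; ok v417 && (
  let v418 := mul v416 v417; ok v418 && (
  let v419 := mul v4 v413; ok v419 && (
  let v420 := mul x1 v419; ok v420 && (
  let v421 := scale ⟨549755813888, 0, 0, 0⟩ v420; ok v421 && (
  let v422 := sub v0 v421; ok v422 && (
  let v423 := mul v419 v422; ok v423 && (
  let v424 := neg v423; ok v424 && (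
  let v425 := mul v3 x3; ok v425 && (
  let v426 := mul v425 v200; ok v426 && (
  let v427 := mul v426 v15; ok v427 && (
  let v428 := mul v0 v427; ok v428 && (
  let v429 := add v424 v428; ok v429 && (
  let v430 := mul v424 v428; ok v430 && (
  let v431 := mul x1 v430; ok v431 && (
  let v432 := add v429 v431; ok v432 && (
  let v433 := mul v12 v42; ok v433 && (
  let v434 := scale ⟨412316860416, 0, 0, 0⟩ v43; ok v434 && (
  let v435 := sub v8 v434; ok v435 && (
  let v436 := mul v433 v435; ok v436 && (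
  let v437 := mul v0 v436; ok v437 && (
  let v438 := neg v437; ok v438 && (
  let v439 := add v432 v438; ok v439 && (
  let v440 := mul v432 v438; ok v440 && (
  let v441 := mul x1 v440; ok v441 && (
  let v442 := add v439 v441; ok v442 && (
  let v443 := mul v3 v344; ok v443 && (
  let v444 := mul v443 v417; ok v444 && (
  let v445 := mul v0 v444; ok v445 && (
  let v446 := add v442 v445; ok v446 && (
  let v447 := mul v442 v445; ok v447 && (
  let v448 := mul x1 v447; ok v448 && (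
  let v449 := add v446 v448; ok v449 && (
  let v450 := mul v0 v383; ok v450 && (
  let v451 := sub v449 v450; ok v451 && (
  let v452 := mul x1 v383; ok v452 && (
  let v453 := add v0 v452; ok v453 && (
  let v454 := inv v453; ok v454 && (
  let v455 := mul v451 v454; ok v455 && (
  let v456 := mul v3 v9; ok v456 && (
  let v457 := mul v456 v344; ok v457 && (
  let v458 := mul v457 v354; ok v458 && (
  let v459 := mul v0 v458; ok v459 && (
  let v460 := add v455 v459; ok v460 && (
  let v461 := mul v455 v459; ok v461 && (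
  let v462 := mul x1 v461; ok v462 && (
  let v463 := add v460 v462; ok v463 && (
  let v464 := mul x1 v463; ok v464 && (
  let v465 := add v0 v464; ok v465 && (
  let v466 := mul v377 v219; ok v466 && (
  let v467 := mul x1 v378; ok v467 && (
  let v468 := mul v418 v467; ok v468 && (
  let v469 := add v466 v468; ok v469 && (
  let v470 := mul v0 v469; ok v470 && (
  let v471 := add v377 v418; ok v471 && (
  let v472 := mul v0 v471; ok v472 && (
  let v473 := mul v470 v465; ok v473 && (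
  let v474 := add v463 v473; ok v474 && (
  let v475 := add v474 v472; ok v475 && (
  let v476 := neg v475; ok v476 && (
  let v477 := scale ⟨1073741824, 0, 0, 0⟩ v0; ok v477 && (
  let v478 := sub v476 v477; ok v478 && (
  let v479 := sub v20 v0; ok v479 && (
  let v480 := add v479 v56; ok v480 && (
  let v481 := scale ⟨2199023255552, 0, 0, 0⟩ v381; ok v481 && (
  let v482 := sub v480 v481; ok v482 && (
  let v483 := mul v200 v482; ok v483 && (
  let v484 := mul v479 v481; ok v484 && (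
  let v485 := add v484 v0; ok v485 && (
  let v486 := inv v485; ok v486 && (
  let v487 := mul v483 v486; ok v487 && (
  let v488 := mul v215 v336; ok v488 && (
  let v489 := scale ⟨549755813888, 0, 0, 0⟩ v211; ok v489 && (
  let v490 := add v17 v489; ok v490 && (
  let v491 := mul v488 v490; ok v491 && (
  let v492 := scale ⟨2199023255552, 0, 0, 0⟩ v491; ok v492 && (
  let v493 := add v331 v492; ok v493 && (
  let v494 := scale ⟨2199023255552, 0, 0, 0⟩ v493; ok v494 && (
  let v495 := mul v494 v343; ok v495 && (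
  let v496 := mul v9 v344; ok v496 && (
  let v497 := sub v24 v496; ok v497 && (
  let v498 := inv v497; ok v498 && (
  let v499 := mul v495 v498; ok v499 && (
  let v500 := sub v487 v499; ok v500 && (
  let v501 := mul v0 v21; ok v501 && (
  let v502 := mul v501 v501; ok v502 && (
  let v503 := cst ⟨14293651161088, 0, 0, 0⟩; ok v503 && (
  let v504 := cst ⟨10995116277760, 0, 0, 0⟩; ok v504 && (
  let v505 := inv v504; ok v505 && (
  let v506 := mul v503 v505; ok v506 && (
  let v507 := mul v502 v506; ok v507 && (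
  let v508 := mul x0 x0; ok v508 && (
  let v509 := scale ⟨27487790694400, 0, 0, 0⟩ v508; ok v509 && (
  let v510 := add v507 v509; ok v510 && (
  let v511 := mul v383 v454; ok v511 && (
  let v512 := sub v40 x1; ok v512 && (
  let v513 := sub v512 v39; ok v513 && (
  let v514 := mul v0 v3; ok v514 && (
  let v515 := mul v514 x0; ok v515 && (
  let v516 := mul v24 v336; ok v516 && (
  let v517 := mul v516 v213; ok v517 && (
  let v518 := add v323 v517; ok v518 && (
  let v519 := add v496 v56; ok v519 && (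
  let v520 := mul v0 v519; ok v520 && (
  let v521 := mul v510 v511; ok v521 && (
  let v522 := mul v343 v520; ok v522 && (
  let v523 := mul v515 v518; ok v523 && (
  let v524 := mul v522 v523; ok v524 && (
  let v525 := sub v521 v524; ok v525 && (
  let v526 := scale ⟨549755813888, 0, 0, 0⟩ v496; ok v526 && (
  let v527 := add v0 v526; ok v527 && (
  let v528 := mul v343 v527; ok v528 && (
  let v529 := mul x1 v23; ok v529 && (
  let v530 := mul v529 v208; ok v530 && (
  let v531 := mul v24 v52; ok v531 && (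
  let v532 := inv v531; ok v532 && (
  let v533 := mul v530 v532; ok v533 && (
  let v534 := mul v528 v533; ok v534 && (
  let v535 := sub v513 v534; ok v535 && (
  let v536 := mul v211 v525; ok v536 && (
  let v537 := sub v0 v211; ok v537 && (
  let v538 := mul v12 v535; ok v538 && (
  let v539 := mul v537 v538; ok v539 && (
  let v540 := mul v510 v539; ok v540 && (
  let v541 := add v536 v540; ok v541 && (
  isPos 4 v220 && (
  isPos 4 v223 && (
  let v542 := scale ⟨2199023255552, 0, 0, 0⟩ v340; ok v542 && (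
  let v543 := sub v52 v542; ok v543 && (
  isPos 4 v543 && (
  isPos 4 v350 && (
  let v544 := sub v8 v198; ok v544 && (
  isPos 4 v544 && (
  let v545 := scale ⟨687194767360, 0, 0, 0⟩ v0; ok v545 && (
  let v546 := sub v545 v300; ok v546 && (
  isPos 4 v546 && (
  let v547 := scale ⟨377957122048, 0, 0, 0⟩ v0; ok v547 && (
  let v548 := sub v547 v296; ok v548 && (
  isPos 4 v548 && (
  isPos 4 v497 && (
  isPos 4 v358 && (
  let v549 := sub v545 v370; ok v549 && (
  isPos 4 v549 && (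
  isPos 4 v500 && (
  isPos 4 v478 && (
  isPos 4 v541 && (
  isPos 4 v535 && (
  true))))))))))))))))))))))))))))))))))))))))))))))))))))))))))))))))))))))))))))))))))))))))))))))))))))))))))))))))))))))))))))))))))))))))))))))))))))))))))))))))))))))))))))))))))))))))))))))))))))))))))))))))))))))))))))))))))))))))))))))))))))))))))))))))))))))))))))))))))))))))))))))))))))))))))))))))))))))))))))))))))))))))))))))))))))))))))))))))))))))))))))))))))))))))))))))))))))))))))))))))))))))))))))))))))))))))))))))))))))))))))))))))))))))))))))))))))))))))))))))))))))))))))))))))))))))))))))))))))))))))))))))))))))))))))))))))))))))))))))))))))))))))))))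
  | _ => false

set_option maxRecDepth 1000000 in
theorem chk1_eq (O : Ops) (m : List O.α)
    (h : chk1 O.cst O.add O.sub O.mul O.scale O.neg O.inv O.exp O.log O.ok O.isPos O.isLt m = true) :
    runG O 4 prog1 m = true := by
  match m, h with
  | [x0, x1, x2, x3], h => exact h

def chkB1 : List opsE.α → Bool :=
  chk1 opsE.cst opsE.add opsE.sub opsE.mul opsE.scale opsE.neg opsE.inv opsE.exp opsE.log opsE.ok opsE.isPos opsE.isLt

theorem chkB1_eq (m : List opsE.α) (h : chkB1 m = true) : runG opsE 4 prog1 m = true :=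
  chk1_eq opsE m h

def prog2 : List Op := [
  .const ⟨1099511627776, 0, 0, 0⟩,
  .mul 2 3,
  .mul 0 2,
  .mul 5 0,
  .mul 6 6,
  .mul 6 0,
  .mul 3 3,
  .mul 8 1,
  .const ⟨549755813888, 0, 0, 0⟩,
  .mul 10 5,
  .mul 0 13,
  .scale ⟨549755813888, 0, 0, 0⟩ 0,
  .mul 8 8,
  .mul 1 1,
  .sub 13 0,
  .inv 0,
  .mul 4 0,
  .scale ⟨2199023255552, 0, 0, 0⟩ 0,
  .scale ⟨2199023255552, 0, 0, 0⟩ 2,
  .sub 0 18,
  .add 0 2,
  .mul 24 5,
  .mul 18 0,
  .sub 22 0,
  .add 23 1,
  .mul 26 12,
  .mul 4 4,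
  .scale ⟨10774999203840, 0, 0, 0⟩ 15,
  .scale ⟨45768245248, 0, 0, 0⟩ 0,
  .const ⟨183207198720, 0, 0, 0⟩,
  .add 1 0,
  .mul 3 0,
  .add 23 0,
  .mul 5 0,
  .add 33 0,
  .mul 7 0,
  .scale ⟨549755813888, 0, 0, 0⟩ 0,
  .add 36 0,
  .mul 3 0,
  .mul 21 16,
  .scale ⟨2199023255552, 0, 0, 0⟩ 20,
  .add 1 0,
  .add 0 43,
  .mul 17 0,
  .add 0 43,
  .mul 27 27,
  .scale ⟨2199023255552, 0, 0, 0⟩ 0,
  .add 0 46,
  .mul 28 5,
  .sub 0 48,
  .log 5,
  .scale ⟨549755813888, 0, 0, 0⟩ 0,
  .exp 0,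
  .const ⟨3298534883328, 0, 0, 0⟩,
  .inv 0,
  .mul 54 0,
  .const ⟨2199023255552, 0, 0, 0⟩,
  .add 13 0,
  .inv 0,
  .mul 15 0,
  .mul 0 0,
  .sub 60 1,
  .mul 1 6,
  .add 62 0,
  .mul 2 0,
  .mul 4 4,
  .scale ⟨219915747328, 0, 0, 0⟩ 0,
  .mul 24 2,
  .scale ⟨549755813888, 0, 0, 0⟩ 0,
  .mul 26 2,
  .scale ⟨549755813888, 0, 0, 0⟩ 0,
  .add 2 0,
  .mul 52 22,
  .scale ⟨4398046511104, 0, 0, 0⟩ 0,
  .mul 54 48,
  .mul 0 25,
  .scale ⟨4398046511104, 0, 0, 0⟩ 0,
  .add 0 20,
  .inv 0,
  .mul 2 0,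
  .mul 0 0,
  .sub 80 1,
  .mul 1 26,
  .add 82 0,
  .mul 2 0,
  .mul 4 4,
  .scale ⟨219915747328, 0, 0, 0⟩ 0,
  .mul 13 2,
  .scale ⟨549755813888, 0, 0, 0⟩ 0,
  .sub 0 17,
  .mul 16 3,
  .scale ⟨549755813888, 0, 0, 0⟩ 0,
  .add 0 21,
  .add 3 0,
  .mul 88 25,
  .neg 0,
  .exp 0,
  .mul 91 26,
  .mul 1 0,
  .mul 76 81,
  .add 80 0,
  .inv 0,
  .mul 77 0,
  .mul 79 104,
  .mul 0 1,
  .sub 104 92,
  .mul 79 0,
  .mul 97 97,
  .sub 107 81,
  .mul 3 0,
  .mul 84 60,
  .inv 66,
  .mul 1 0,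
  .add 93 0,
  .mul 69 0,
  .mul 0 0,
  .inv 0,
  .mul 7 0,
  .add 98 92,
  .mul 119 0,
  .inv 0,
  .mul 120 0,
  .mul 0 0,
  .mul 0 13,
  .mul 19 123,
  .scale ⟨549755813888, 0, 0, 0⟩ 0,
  .sub 125 0,
  .sub 126 2,
  .inv 0,
  .mul 2 0,
  .add 5 129,
  .mul 34 0,
  .mul 29 2,
  .mul 0 132,
  .mul 9 4,
  .pos 7,
  .mul 111 110,
  .add 116 137,
  .mul 114 117,
  .mul 0 120,
  .scale ⟨2199023255552, 0, 0, 0⟩ 0,
  .add 92 0,
  .mul 4 0,
  .inv 0,
  .mul 7 0,
  .mul 145 0,
  .pos 55,
  .mul 0 144,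
  .mul 145 146,
  .add 135 146,
  .inv 0,
  .mul 137 0,
  .scale ⟨2199023255552, 0, 0, 0⟩ 0,
  .sub 150 0,
  .sub 151 140,
  .mul 156 4,
  .mul 0 2,
  .add 130 0,
  .scale ⟨224412041216, 0, 0, 0⟩ 140,
  .inv 118,
  .mul 1 0,
  .scale ⟨5497558138880, 0, 0, 0⟩ 159,
  .inv 0,
  .mul 160 0,
  .mul 162 1,
  .mul 0 138,
  .mul 0 5,
  .mul 3 140,
  .mul 0 7,
  .sub 166 0,
  .inv 0,
  .mul 37 2,
  .sub 169 0,
  .inv 0,
  .scale ⟨2199023255552, 0, 0, 0⟩ 165,
  .add 0 172,
  .add 167 173,
  .mul 175 153,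
  .scale ⟨2199023255552, 0, 0, 0⟩ 0,
  .scale ⟨549755813888, 0, 0, 0⟩ 178,
  .add 1 0,
  .mul 181 0,
  .scale ⟨549755813888, 0, 0, 0⟩ 0,
  .mul 169 159,
  .sub 181 75,
  .mul 171 160,
  .scale ⟨2199023255552, 0, 0, 0⟩ 0,
  .sub 2 0,
  .mul 4 4,
  .add 1 0,
  .add 0 187,
  .scale ⟨549755813888, 0, 0, 0⟩ 0,
  .scale ⟨549755813888, 0, 0, 0⟩ 164,
  .sub 175 0,
  .mul 84 9,
  .mul 0 178,
  .scale ⟨137438953472, 0, 0, 0⟩ 0,
  .add 3 0,
  .mul 6 0,
  .const ⟨1, 0, 0, 0⟩,
  .const ⟨12, 0, 0, 0⟩,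
  .mul 75 1,
  .sub 1 0,
  .const ⟨2296, 0, 0, 0⟩,
  .mul 78 1,
  .sub 1 0,
  .const ⟨302995, 0, 0, 0⟩,
  .mul 81 1,
  .sub 1 0,
  .const ⟨27269634, 0, 0, 0⟩,
  .mul 84 1,
  .sub 1 0,
  .const ⟨1527099483, 0, 0, 0⟩,
  .mul 87 1,
  .sub 1 0,
  .const ⟨45812984491, 0, 0, 0⟩,
  .mul 90 1,
  .sub 1 0,
  .mul 92 0,
  .sub 208 0,
  .mul 94 0,
  .sub 218 0,
  .mul 96 213,
  .mul 124 124,
  .add 0 221,
  .mul 2 2,
  .scale ⟨369367187456, 0, 0, 0⟩ 0,
  .add 5 0,
  .mul 129 0,
  .scale ⟨2199023255552, 0, 0, 0⟩ 0,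
  .add 5 0,
  .scale ⟨2199023255552, 0, 0, 0⟩ 130,
  .add 1 0,
  .const ⟨8589934592, 0, 0, 0⟩,
  .add 1 0,
  .log 0,
  .scale ⟨549755813888, 0, 0, 0⟩ 0,
  .exp 0,
  .mul 139 111,
  .add 1 0,
  .mul 0 69,
  .mul 107 67,
  .add 1 0,
  .mul 74 0,
  .add 107 0,
  .mul 0 236,
  .mul 6 77,
  .mul 0 76,
  .add 111 0,
  .mul 0 240,
  .scale ⟨223338299392, 0, 0, 0⟩ 0,
  .add 240 0,
  .mul 2 0,
  .add 250 0,
  .scale ⟨893353197568, 0, 0, 0⟩ 8,
  .add 252 0,
  .mul 10 0,
  .add 254 0,
  .mul 105 102,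
  .mul 0 83,
  .mul 0 2,
  .mul 62 7,
  .add 207 251,
  .mul 2 0,
  .add 2 0,
  .add 210 262,
  .mul 5 0,
  .mul 90 1,
  .mul 0 112,
  .mul 0 114,
  .mul 5 134,
  .mul 1 88,
  .add 1 0,
  .mul 265 115,
  .inv 219,
  .mul 1 0,
  .scale ⟨549755813888, 0, 0, 0⟩ 0,
  .mul 251 0,
  .add 0 5,
  .mul 278 0,
  .mul 278 0,
  .mul 16 41,
  .mul 0 111,
  .mul 16 149,
  .mul 0 110,
  .add 2 0,
  .mul 260 5,
  .mul 120 1,
  .add 1 0,
  .mul 179 0,
  .mul 0 15,
  .sub 288 0,
  .inv 0,
  .mul 4 0,
  .mul 293 0,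
  .mul 185 1,
  .mul 0 21,
  .sub 294 0,
  .mul 246 0,
  .sub 0 4,
  .inv 0,
  .mul 6 0,
  .sub 247 6,
  .inv 0,
  .mul 2 301,
  .scale ⟨549755813888, 0, 0, 0⟩ 0,
  .sub 303 0,
  .sub 304 2,
  .inv 0,
  .mul 2 0,
  .mul 304 6,
  .mul 162 10,
  .mul 0 2,
  .add 2 0,
  .mul 304 20,
  .mul 11 0,
  .mul 313 15,
  .mul 0 7,
  .mul 0 23,
  .add 3 0,
  .scale ⟨223338299392, 0, 0, 0⟩ 0,
  .add 310 0,
  .mul 2 0,
  .add 320 0,
  .mul 10 0,
  .mul 0 32,
  .mul 0 40,
  .mul 159 301,
  .const ⟨5497558138880, 0, 0, 0⟩,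
  .inv 0,
  .mul 274 0,
  .mul 181 304,
  .mul 0 1,
  .mul 194 229,
  .mul 309 0,
  .scale ⟨549755813888, 0, 0, 0⟩ 187,
  .sub 333 0,
  .sub 334 189,
  .inv 0,
  .mul 2 0,
  .mul 0 193,
  .mul 231 221,
  .scale ⟨733097230336, 0, 0, 0⟩ 0,
  .sub 340 0,
  .mul 224 0,
  .mul 253 253,
  .mul 331 0,
  .add 2 0,
  .mul 7 199,
  .add 1 346,
  .mul 1 0,
  .sub 3 0,
  .scale ⟨366548615168, 0, 0, 0⟩ 304,
  .sub 350 0,
  .mul 325 0,
  .add 3 0,
  .mul 22 0,
  .mul 22 22,
  .add 355 0,
  .inv 0,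
  .mul 3 0,
  .sub 358 59,
  .mul 0 1,
  .sub 360 14,
  .pos 0,
  .pos 3,
  .pos 2,
  .mul 38 202,
  .mul 0 86,
  .inv 339,
  .mul 1 0,
  .mul 361 5,
  .mul 368 0,
  .scale ⟨549755813888, 0, 0, 0⟩ 0,
  .sub 368 0,
  .mul 3 0,
  .neg 0,
  .mul 368 375,
  .mul 0 225,
  .mul 0 358,
  .mul 374 0,
  .add 4 0,
  .mul 5 1,
  .mul 379 0,
  .add 2 0,
  .mul 367 337,
  .scale ⟨412316860416, 0, 0, 0⟩ 337,
  .sub 373 0,
  .mul 2 0,
  .mul 383 0,
  .neg 0,
  .add 6 0,
  .mul 7 1,
  .mul 389 0,
  .add 2 0,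
  .mul 386 98,
  .mul 0 26,
  .mul 391 0,
  .add 3 0,
  .mul 4 1,
  .mul 396 0,
  .add 2 0,
  .mul 396 66,
  .sub 1 0,
  .mul 400 68,
  .add 399 0,
  .inv 0,
  .mul 3 0,
  .mul 399 393,
  .mul 0 112,
  .mul 0 103,
  .mul 405 0,
  .add 4 0,
  .mul 5 1,
  .mul 410 0,
  .add 2 0,
  .mul 412 0,
  .add 411 0,
  .mul 88 246,
  .mul 415 88,
  .mul 49 0,
  .add 2 0,
  .mul 416 0,
  .add 93 52,
  .mul 418 0,
  .mul 2 7,
  .add 10 0,
  .add 0 2,
  .neg 0,
  .scale ⟨1073741824, 0, 0, 0⟩ 423,
  .sub 1 0,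
  .sub 405 425,
  .add 0 370,
  .scale ⟨2199023255552, 0, 0, 0⟩ 99,
  .sub 1 0,
  .mul 282 0,
  .mul 4 2,
  .add 0 431,
  .inv 0,
  .mul 3 0,
  .mul 272 151,
  .scale ⟨549755813888, 0, 0, 0⟩ 277,
  .add 419 0,
  .mul 2 0,
  .scale ⟨2199023255552, 0, 0, 0⟩ 0,
  .add 161 0,
  .scale ⟨2199023255552, 0, 0, 0⟩ 0,
  .mul 0 151,
  .mul 433 151,
  .sub 419 0,
  .inv 0,
  .mul 3 0,
  .sub 12 0,
  .mul 447 426,
  .mul 0 0,
  .const ⟨14293651161088, 0, 0, 0⟩,
  .const ⟨10995116277760, 0, 0, 0⟩,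
  .inv 0,
  .mul 2 0,
  .mul 4 0,
  .mul 455 455,
  .scale ⟨27487790694400, 0, 0, 0⟩ 0,
  .add 2 0,
  .mul 127 56,
  .sub 418 460,
  .sub 0 420,
  .mul 460 457,
  .mul 0 462,
  .mul 438 179,
  .mul 0 303,
  .add 194 0,
  .add 22 409,
  .mul 466 0,
  .mul 10 9,
  .mul 178 1,
  .mul 7 4,
  .mul 1 0,
  .sub 3 0,
  .scale ⟨549755813888, 0, 0, 0⟩ 29,
  .add 473 0,
  .mul 184 0,
  .mul 477 452,
  .mul 0 321,
  .mul 453 425,
  .inv 0,
  .mul 2 0,
  .mul 5 0,
  .sub 21 0,
  .mul 324 10,
  .sub 483 325,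
  .mul 472 2,
  .mul 1 0,
  .mul 29 0,
  .add 4 0,
  .pos 321,
  .pos 318,
  .scale ⟨2199023255552, 0, 0, 0⟩ 201,
  .sub 437 0,
  .pos 0,
  .pos 193,
  .sub 482 345,
  .pos 0,
  .scale ⟨687194767360, 0, 0, 0⟩ 491,
  .sub 0 245,
  .pos 0,
  .scale ⟨377957122048, 0, 0, 0⟩ 493,
  .sub 0 251,
  .pos 0,
  .pos 51,
  .pos 190,
  .sub 3 178,
  .pos 0,
  .pos 49,
  .pos 71,
  .pos 8,
  .pos 14]

def chk2 {α : Type} (cst : Z → α) (add sub mul : α → α → α) (scale : Z → α → α)
    (neg inv exp log : α → α) (ok : α → Bool) (isPos : Nat → α → Bool) (isLt : α → Nat → Bool) :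
    List α → Bool
  | [x0, x1, x2, x3] =>
  let v0 := cst ⟨1099511627776, 0, 0, 0⟩; ok v0 && (
  let v1 := mul x1 x2; ok v1 && (
  let v2 := mul v1 x0; ok v2 && (
  let v3 := mul x2 v2; ok v3 && (
  let v4 := mul x2 x2; ok v4 && (
  let v5 := mul x1 v4; ok v5 && (
  let v6 := mul v2 v2; ok v6 && (
  let v7 := mul x1 v5; ok v7 && (
  let v8 := cst ⟨549755813888, 0, 0, 0⟩; ok v8 && (
  let v9 := mul x1 v3; ok v9 && (
  let v10 := mul v9 x3; ok v10 && (
  let v11 := scale ⟨549755813888, 0, 0, 0⟩ v10; ok v11 && (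
  let v12 := mul v3 v3; ok v12 && (
  let v13 := mul v11 v11; ok v13 && (
  let v14 := sub v0 v13; ok v14 && (
  let v15 := inv v14; ok v15 && (
  let v16 := mul v11 v15; ok v16 && (
  let v17 := scale ⟨2199023255552, 0, 0, 0⟩ v16; ok v17 && (
  let v18 := scale ⟨2199023255552, 0, 0, 0⟩ v15; ok v18 && (
  let v19 := sub v18 v0; ok v19 && (
  let v20 := add v19 v17; ok v20 && (
  let v21 := mul x3 v15; ok v21 && (
  let v22 := mul v3 v21; ok v22 && (
  let v23 := sub v0 v22; ok v23 && (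
  let v24 := add v0 v22; ok v24 && (
  let v25 := mul x1 v12; ok v25 && (
  let v26 := mul v21 v21; ok v26 && (
  let v27 := scale ⟨10774999203840, 0, 0, 0⟩ v11; ok v27 && (
  let v28 := scale ⟨45768245248, 0, 0, 0⟩ v27; ok v28 && (
  let v29 := cst ⟨183207198720, 0, 0, 0⟩; ok v29 && (
  let v30 := add v28 v29; ok v30 && (
  let v31 := mul v27 v30; ok v31 && (
  let v32 := add v8 v31; ok v32 && (
  let v33 := mul v27 v32; ok v33 && (
  let v34 := add v0 v33; ok v34 && (
  let v35 := mul v27 v34; ok v35 && (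
  let v36 := scale ⟨549755813888, 0, 0, 0⟩ v35; ok v36 && (
  let v37 := add v0 v36; ok v37 && (
  let v38 := mul v34 v37; ok v38 && (
  let v39 := mul v17 v22; ok v39 && (
  let v40 := scale ⟨2199023255552, 0, 0, 0⟩ v19; ok v40 && (
  let v41 := add v39 v40; ok v41 && (
  let v42 := add v41 x1; ok v42 && (
  let v43 := mul v25 v42; ok v43 && (
  let v44 := add v43 v0; ok v44 && (
  let v45 := mul v17 v17; ok v45 && (
  let v46 := scale ⟨2199023255552, 0, 0, 0⟩ v45; ok v46 && (
  let v47 := add v46 v0; ok v47 && (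
  let v48 := mul v19 v42; ok v48 && (
  let v49 := sub v48 v0; ok v49 && (
  let v50 := log v44; ok v50 && (
  let v51 := scale ⟨549755813888, 0, 0, 0⟩ v50; ok v51 && (
  let v52 := exp v51; ok v52 && (
  let v53 := cst ⟨3298534883328, 0, 0, 0⟩; ok v53 && (
  let v54 := inv v53; ok v54 && (
  let v55 := mul v0 v54; ok v55 && (
  let v56 := cst ⟨2199023255552, 0, 0, 0⟩; ok v56 && (
  let v57 := add v43 v56; ok v57 && (
  let v58 := inv v57; ok v58 && (
  let v59 := mul v43 v58; ok v59 && (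
  let v60 := mul v59 v59; ok v60 && (
  let v61 := sub v0 v59; ok v61 && (
  let v62 := mul v60 v55; ok v62 && (
  let v63 := add v0 v62; ok v63 && (
  let v64 := mul v61 v63; ok v64 && (
  let v65 := mul v60 v60; ok v65 && (
  let v66 := scale ⟨219915747328, 0, 0, 0⟩ v65; ok v66 && (
  let v67 := mul v42 v64; ok v67 && (
  let v68 := scale ⟨549755813888, 0, 0, 0⟩ v67; ok v68 && (
  let v69 := mul v42 v66; ok v69 && (
  let v70 := scale ⟨549755813888, 0, 0, 0⟩ v69; ok v70 && (
  let v71 := add v68 v70; ok v71 && (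
  let v72 := mul v19 v49; ok v72 && (
  let v73 := scale ⟨4398046511104, 0, 0, 0⟩ v72; ok v73 && (
  let v74 := mul v19 v25; ok v74 && (
  let v75 := mul v74 v49; ok v75 && (
  let v76 := scale ⟨4398046511104, 0, 0, 0⟩ v75; ok v76 && (
  let v77 := add v76 v56; ok v77 && (
  let v78 := inv v77; ok v78 && (
  let v79 := mul v76 v78; ok v79 && (
  let v80 := mul v79 v79; ok v80 && (
  let v81 := sub v0 v79; ok v81 && (
  let v82 := mul v80 v55; ok v82 && (
  let v83 := add v0 v82; ok v83 && (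
  let v84 := mul v81 v83; ok v84 && (
  let v85 := mul v80 v80; ok v85 && (
  let v86 := scale ⟨219915747328, 0, 0, 0⟩ v85; ok v86 && (
  let v87 := mul v73 v84; ok v87 && (
  let v88 := scale ⟨549755813888, 0, 0, 0⟩ v87; ok v88 && (
  let v89 := sub v88 v71; ok v89 && (
  let v90 := mul v73 v86; ok v90 && (
  let v91 := scale ⟨549755813888, 0, 0, 0⟩ v90; ok v91 && (
  let v92 := add v91 v70; ok v92 && (
  let v93 := add v89 v92; ok v93 && (
  let v94 := mul v5 v68; ok v94 && (
  let v95 := neg v94; ok v95 && (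
  let v96 := exp v95; ok v96 && (
  let v97 := mul v5 v70; ok v97 && (
  let v98 := mul v96 v97; ok v98 && (
  let v99 := mul v22 v17; ok v99 && (
  let v100 := add v19 v99; ok v100 && (
  let v101 := inv v100; ok v101 && (
  let v102 := mul v24 v101; ok v102 && (
  let v103 := mul v23 x1; ok v103 && (
  let v104 := mul v103 v102; ok v104 && (
  let v105 := sub v0 v12; ok v105 && (
  let v106 := mul v26 v105; ok v106 && (
  let v107 := mul v9 v9; ok v107 && (
  let v108 := sub v0 v26; ok v108 && (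
  let v109 := mul v105 v108; ok v109 && (
  let v110 := mul v25 v49; ok v110 && (
  let v111 := inv v44; ok v111 && (
  let v112 := mul v110 v111; ok v112 && (
  let v113 := add v19 v112; ok v113 && (
  let v114 := mul v44 v113; ok v114 && (
  let v115 := mul v114 v114; ok v115 && (
  let v116 := inv v115; ok v116 && (
  let v117 := mul v109 v116; ok v117 && (
  let v118 := add v19 v25; ok v118 && (
  let v119 := mul x0 v118; ok v119 && (
  let v120 := inv v119; ok v120 && (
  let v121 := mul v0 v120; ok v121 && (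
  let v122 := mul v121 v121; ok v122 && (
  let v123 := mul v122 v109; ok v123 && (
  let v124 := mul v104 v0; ok v124 && (
  let v125 := scale ⟨549755813888, 0, 0, 0⟩ v124; ok v125 && (
  let v126 := sub v0 v125; ok v126 && (
  let v127 := sub v0 v124; ok v127 && (
  let v128 := inv v127; ok v128 && (
  let v129 := mul v126 v128; ok v129 && (
  let v130 := add v124 v0; ok v130 && (
  let v131 := mul v96 v130; ok v131 && (
  let v132 := mul v102 v129; ok v132 && (
  let v133 := mul v132 v0; ok v133 && (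
  let v134 := mul v124 v129; ok v134 && (
  isPos 4 v127 && (
  let v135 := mul v23 v24; ok v135 && (
  let v136 := add v19 x1; ok v136 && (
  let v137 := mul v22 v19; ok v137 && (
  let v138 := mul v137 v17; ok v138 && (
  let v139 := scale ⟨2199023255552, 0, 0, 0⟩ v138; ok v139 && (
  let v140 := add v47 v139; ok v140 && (
  let v141 := mul v136 v140; ok v141 && (
  let v142 := inv v141; ok v142 && (
  let v143 := mul v135 v142; ok v143 && (
  let v144 := mul x1 v143; ok v144 && (
  isPos 4 v89 && (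
  let v145 := mul v144 v0; ok v145 && (
  let v146 := mul v0 x0; ok v146 && (
  let v147 := add v11 v0; ok v147 && (
  let v148 := inv v147; ok v148 && (
  let v149 := mul v11 v148; ok v149 && (
  let v150 := scale ⟨2199023255552, 0, 0, 0⟩ v149; ok v150 && (
  let v151 := sub v0 v150; ok v151 && (
  let v152 := sub v0 v11; ok v152 && (
  let v153 := mul x3 v148; ok v153 && (
  let v154 := mul v153 v151; ok v154 && (
  let v155 := add v24 v154; ok v155 && (
  let v156 := scale ⟨224412041216, 0, 0, 0⟩ v15; ok v156 && (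
  let v157 := inv v38; ok v157 && (
  let v158 := mul v156 v157; ok v158 && (
  let v159 := scale ⟨5497558138880, 0, 0, 0⟩ x0; ok v159 && (
  let v160 := inv v159; ok v160 && (
  let v161 := mul v0 v160; ok v161 && (
  let v162 := mul x0 v160; ok v162 && (
  let v163 := mul v162 v24; ok v163 && (
  let v164 := mul v163 v158; ok v164 && (
  let v165 := mul v161 v24; ok v165 && (
  let v166 := mul v165 v158; ok v166 && (
  let v167 := sub v0 v166; ok v167 && (
  let v168 := inv v167; ok v168 && (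
  let v169 := mul v131 v166; ok v169 && (
  let v170 := sub v0 v169; ok v170 && (
  let v171 := inv v170; ok v171 && (
  let v172 := scale ⟨2199023255552, 0, 0, 0⟩ v6; ok v172 && (
  let v173 := add v172 v0; ok v173 && (
  let v174 := add v6 v0; ok v174 && (
  let v175 := mul x0 v21; ok v175 && (
  let v176 := scale ⟨2199023255552, 0, 0, 0⟩ v175; ok v176 && (
  let v177 := scale ⟨549755813888, 0, 0, 0⟩ x1; ok v177 && (
  let v178 := add v176 v177; ok v178 && (
  let v179 := mul x2 v178; ok v179 && (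
  let v180 := scale ⟨549755813888, 0, 0, 0⟩ v179; ok v180 && (
  let v181 := mul v11 v21; ok v181 && (
  let v182 := sub v0 v106; ok v182 && (
  let v183 := mul v11 v22; ok v183 && (
  let v184 := scale ⟨2199023255552, 0, 0, 0⟩ v183; ok v184 && (
  let v185 := sub v182 v184; ok v185 && (
  let v186 := mul v181 v181; ok v186 && (
  let v187 := add v185 v186; ok v187 && (
  let v188 := add v187 v0; ok v188 && (
  let v189 := scale ⟨549755813888, 0, 0, 0⟩ v188; ok v189 && (
  let v190 := scale ⟨549755813888, 0, 0, 0⟩ v25; ok v190 && (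
  let v191 := sub v15 v190; ok v191 && (
  let v192 := mul v107 v182; ok v192 && (
  let v193 := mul v192 v14; ok v193 && (
  let v194 := scale ⟨137438953472, 0, 0, 0⟩ v193; ok v194 && (
  let v195 := add v191 v194; ok v195 && (
  let v196 := mul v189 v195; ok v196 && (
  let v197 := cst ⟨1, 0, 0, 0⟩; ok v197 && (
  let v198 := cst ⟨12, 0, 0, 0⟩; ok v198 && (
  let v199 := mul v123 v197; ok v199 && (
  let v200 := sub v198 v199; ok v200 && (
  let v201 := cst ⟨2296, 0, 0, 0⟩; ok v201 && (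
  let v202 := mul v123 v200; ok v202 && (
  let v203 := sub v201 v202; ok v203 && (
  let v204 := cst ⟨302995, 0, 0, 0⟩; ok v204 && (
  let v205 := mul v123 v203; ok v205 && (
  let v206 := sub v204 v205; ok v206 && (
  let v207 := cst ⟨27269634, 0, 0, 0⟩; ok v207 && (
  let v208 := mul v123 v206; ok v208 && (
  let v209 := sub v207 v208; ok v209 && (
  let v210 := cst ⟨1527099483, 0, 0, 0⟩; ok v210 && (
  let v211 := mul v123 v209; ok v211 && (
  let v212 := sub v210 v211; ok v212 && (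
  let v213 := cst ⟨45812984491, 0, 0, 0⟩; ok v213 && (
  let v214 := mul v123 v212; ok v214 && (
  let v215 := sub v213 v214; ok v215 && (
  let v216 := mul v123 v215; ok v216 && (
  let v217 := sub v8 v216; ok v217 && (
  let v218 := mul v123 v217; ok v218 && (
  let v219 := sub v0 v218; ok v219 && (
  let v220 := mul v123 v6; ok v220 && (
  let v221 := mul v96 v96; ok v221 && (
  let v222 := add v221 v0; ok v222 && (
  let v223 := mul v220 v220; ok v223 && (
  let v224 := scale ⟨369367187456, 0, 0, 0⟩ v223; ok v224 && (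
  let v225 := add v219 v224; ok v225 && (
  let v226 := mul v96 v225; ok v226 && (
  let v227 := scale ⟨2199023255552, 0, 0, 0⟩ v226; ok v227 && (
  let v228 := add v222 v227; ok v228 && (
  let v229 := scale ⟨2199023255552, 0, 0, 0⟩ v98; ok v229 && (
  let v230 := add v228 v229; ok v230 && (
  let v231 := cst ⟨8589934592, 0, 0, 0⟩; ok v231 && (
  let v232 := add v230 v231; ok v232 && (
  let v233 := log v232; ok v233 && (
  let v234 := scale ⟨549755813888, 0, 0, 0⟩ v233; ok v234 && (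
  let v235 := exp v234; ok v235 && (
  let v236 := mul v96 v124; ok v236 && (
  let v237 := add v235 v236; ok v237 && (
  let v238 := mul v237 v168; ok v238 && (
  let v239 := mul v131 v171; ok v239 && (
  let v240 := add v238 v239; ok v240 && (
  let v241 := mul v166 v240; ok v241 && (
  let v242 := add v134 v241; ok v242 && (
  let v243 := mul v242 v6; ok v243 && (
  let v244 := mul v237 v166; ok v244 && (
  let v245 := mul v244 v168; ok v245 && (
  let v246 := add v134 v245; ok v246 && (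
  let v247 := mul v246 v6; ok v247 && (
  let v248 := scale ⟨223338299392, 0, 0, 0⟩ v247; ok v248 && (
  let v249 := add v8 v248; ok v249 && (
  let v250 := mul v247 v249; ok v250 && (
  let v251 := add v0 v250; ok v251 && (
  let v252 := scale ⟨893353197568, 0, 0, 0⟩ v243; ok v252 && (
  let v253 := add v0 v252; ok v253 && (
  let v254 := mul v243 v253; ok v254 && (
  let v255 := add v0 v254; ok v255 && (
  let v256 := mul v150 v153; ok v256 && (
  let v257 := mul v256 v173; ok v257 && (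
  let v258 := mul v257 v255; ok v258 && (
  let v259 := mul v196 v251; ok v259 && (
  let v260 := add v52 v8; ok v260 && (
  let v261 := mul v258 v260; ok v261 && (
  let v262 := add v259 v261; ok v262 && (
  let v263 := add v52 v0; ok v263 && (
  let v264 := mul v258 v263; ok v264 && (
  let v265 := mul v174 v263; ok v265 && (
  let v266 := mul v265 v153; ok v266 && (
  let v267 := mul v266 v152; ok v267 && (
  let v268 := mul v262 v133; ok v268 && (
  let v269 := mul v267 v180; ok v269 && (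
  let v270 := add v268 v269; ok v270 && (
  let v271 := mul v5 v155; ok v271 && (
  let v272 := inv v52; ok v272 && (
  let v273 := mul v271 v272; ok v273 && (
  let v274 := scale ⟨549755813888, 0, 0, 0⟩ v273; ok v274 && (
  let v275 := mul v23 v274; ok v275 && (
  let v276 := add v275 v270; ok v276 && (
  let v277 := mul x1 v276; ok v277 && (
  let v278 := mul x0 v277; ok v278 && (
  let v279 := mul v262 v237; ok v279 && (
  let v280 := mul v279 v168; ok v280 && (
  let v281 := mul v264 v131; ok v281 && (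
  let v282 := mul v281 v171; ok v282 && (
  let v283 := add v280 v282; ok v283 && (
  let v284 := mul v23 v278; ok v284 && (
  let v285 := mul v164 v283; ok v285 && (
  let v286 := add v284 v285; ok v286 && (
  let v287 := mul v107 v286; ok v287 && (
  let v288 := mul v287 v272; ok v288 && (
  let v289 := sub v0 v288; ok v289 && (
  let v290 := inv v289; ok v290 && (
  let v291 := mul v286 v290; ok v291 && (
  let v292 := mul x1 v291; ok v292 && (
  let v293 := mul v107 v291; ok v293 && (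
  let v294 := mul v293 v272; ok v294 && (
  let v295 := sub v0 v294; ok v295 && (
  let v296 := mul v49 v295; ok v296 && (
  let v297 := sub v296 v292; ok v297 && (
  let v298 := inv v297; ok v298 && (
  let v299 := mul v292 v298; ok v299 && (
  let v300 := sub v52 v293; ok v300 && (
  let v301 := inv v300; ok v301 && (
  let v302 := mul v299 v0; ok v302 && (
  let v303 := scale ⟨549755813888, 0, 0, 0⟩ v302; ok v303 && (
  let v304 := sub v0 v303; ok v304 && (
  let v305 := sub v0 v302; ok v305 && (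
  let v306 := inv v305; ok v306 && (
  let v307 := mul v304 v306; ok v307 && (
  let v308 := mul v3 v301; ok v308 && (
  let v309 := mul v146 v298; ok v309 && (
  let v310 := mul v309 v307; ok v310 && (
  let v311 := add v308 v310; ok v311 && (
  let v312 := mul v7 v291; ok v312 && (
  let v313 := mul v301 v312; ok v313 && (
  let v314 := mul v0 v298; ok v314 && (
  let v315 := mul v314 v307; ok v315 && (
  let v316 := mul v315 v292; ok v316 && (
  let v317 := add v313 v316; ok v317 && (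
  let v318 := scale ⟨223338299392, 0, 0, 0⟩ v317; ok v318 && (
  let v319 := add v8 v318; ok v319 && (
  let v320 := mul v317 v319; ok v320 && (
  let v321 := add v0 v320; ok v321 && (
  let v322 := mul v311 v321; ok v322 && (
  let v323 := mul v322 v290; ok v323 && (
  let v324 := mul v323 v283; ok v324 && (
  let v325 := mul v165 v23; ok v325 && (
  let v326 := cst ⟨5497558138880, 0, 0, 0⟩; ok v326 && (
  let v327 := inv v326; ok v327 && (
  let v328 := mul v53 v327; ok v328 && (
  let v329 := mul v147 v24; ok v329 && (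
  let v330 := mul v329 v328; ok v330 && (
  let v331 := mul v136 v101; ok v331 && (
  let v332 := mul v22 v331; ok v332 && (
  let v333 := scale ⟨549755813888, 0, 0, 0⟩ v145; ok v333 && (
  let v334 := sub v0 v333; ok v334 && (
  let v335 := sub v0 v145; ok v335 && (
  let v336 := inv v335; ok v336 && (
  let v337 := mul v334 v336; ok v337 && (
  let v338 := mul v337 v144; ok v338 && (
  let v339 := mul v107 v117; ok v339 && (
  let v340 := scale ⟨733097230336, 0, 0, 0⟩ v339; ok v340 && (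
  let v341 := sub v0 v340; ok v341 && (
  let v342 := mul v117 v341; ok v342 && (
  let v343 := mul v89 v89; ok v343 && (
  let v344 := mul v12 v343; ok v344 && (
  let v345 := add v342 v344; ok v345 && (
  let v346 := mul v338 v146; ok v346 && (
  let v347 := add v345 v0; ok v347 && (
  let v348 := mul v346 v347; ok v348 && (
  let v349 := sub v345 v348; ok v349 && (
  let v350 := scale ⟨366548615168, 0, 0, 0⟩ v45; ok v350 && (
  let v351 := sub v0 v350; ok v351 && (
  let v352 := mul v26 v351; ok v352 && (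
  let v353 := add v349 v352; ok v353 && (
  let v354 := mul v331 v353; ok v354 && (
  let v355 := mul v332 v332; ok v355 && (
  let v356 := add v0 v355; ok v356 && (
  let v357 := inv v356; ok v357 && (
  let v358 := mul v354 v357; ok v358 && (
  let v359 := sub v0 v299; ok v359 && (
  let v360 := mul v359 v358; ok v360 && (
  let v361 := sub v0 v346; ok v361 && (
  isPos 4 v361 && (
  isPos 4 v358 && (
  isPos 4 v359 && (
  let v362 := mul v323 v159; ok v362 && (
  let v363 := mul v362 v276; ok v363 && (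
  let v364 := inv v24; ok v364 && (
  let v365 := mul v363 v364; ok v365 && (
  let v366 := mul v4 v360; ok v366 && (
  let v367 := mul x1 v366; ok v367 && (
  let v368 := scale ⟨549755813888, 0, 0, 0⟩ v367; ok v368 && (
  let v369 := sub v0 v368; ok v369 && (
  let v370 := mul v366 v369; ok v370 && (
  let v371 := neg v370; ok v371 && (
  let v372 := mul v3 x3; ok v372 && (
  let v373 := mul v372 v147; ok v373 && (
  let v374 := mul v373 v15; ok v374 && (
  let v375 := mul v0 v374; ok v375 && (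
  let v376 := add v371 v375; ok v376 && (
  let v377 := mul v371 v375; ok v377 && (
  let v378 := mul x1 v377; ok v378 && (
  let v379 := add v376 v378; ok v379 && (
  let v380 := mul v12 v42; ok v380 && (
  let v381 := scale ⟨412316860416, 0, 0, 0⟩ v43; ok v381 && (
  let v382 := sub v8 v381; ok v382 && (
  let v383 := mul v380 v382; ok v383 && (
  let v384 := mul v0 v383; ok v384 && (
  let v385 := neg v384; ok v385 && (
  let v386 := add v379 v385; ok v386 && (
  let v387 := mul v379 v385; ok v387 && (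
  let v388 := mul x1 v387; ok v388 && (
  let v389 := add v386 v388; ok v389 && (
  let v390 := mul v3 v291; ok v390 && (
  let v391 := mul v390 v364; ok v391 && (
  let v392 := mul v0 v391; ok v392 && (
  let v393 := add v389 v392; ok v393 && (
  let v394 := mul v389 v392; ok v394 && (
  let v395 := mul x1 v394; ok v395 && (
  let v396 := add v393 v395; ok v396 && (
  let v397 := mul v0 v330; ok v397 && (
  let v398 := sub v396 v397; ok v398 && (
  let v399 := mul x1 v330; ok v399 && (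
  let v400 := add v0 v399; ok v400 && (
  let v401 := inv v400; ok v401 && (
  let v402 := mul v398 v401; ok v402 && (
  let v403 := mul v3 v9; ok v403 && (
  let v404 := mul v403 v291; ok v404 && (
  let v405 := mul v404 v301; ok v405 && (
  let v406 := mul v0 v405; ok v406 && (
  let v407 := add v402 v406; ok v407 && (
  let v408 := mul v402 v406; ok v408 && (
  let v409 := mul x1 v408; ok v409 && (
  let v410 := add v407 v409; ok v410 && (
  let v411 := mul x1 v410; ok v411 && (
  let v412 := add v0 v411; ok v412 && (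
  let v413 := mul v324 v166; ok v413 && (
  let v414 := mul x1 v325; ok v414 && (
  let v415 := mul v365 v414; ok v415 && (
  let v416 := add v413 v415; ok v416 && (
  let v417 := mul v0 v416; ok v417 && (
  let v418 := add v324 v365; ok v418 && (
  let v419 := mul v0 v418; ok v419 && (
  let v420 := mul v417 v412; ok v420 && (
  let v421 := add v410 v420; ok v421 && (
  let v422 := add v421 v419; ok v422 && (
  let v423 := neg v422; ok v423 && (
  let v424 := scale ⟨1073741824, 0, 0, 0⟩ v0; ok v424 && (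
  let v425 := sub v423 v424; ok v425 && (
  let v426 := sub v20 v0; ok v426 && (
  let v427 := add v426 v56; ok v427 && (
  let v428 := scale ⟨2199023255552, 0, 0, 0⟩ v328; ok v428 && (
  let v429 := sub v427 v428; ok v429 && (
  let v430 := mul v147 v429; ok v430 && (
  let v431 := mul v426 v428; ok v431 && (
  let v432 := add v431 v0; ok v432 && (
  let v433 := inv v432; ok v433 && (
  let v434 := mul v430 v433; ok v434 && (
  let v435 := mul v162 v283; ok v435 && (
  let v436 := scale ⟨549755813888, 0, 0, 0⟩ v158; ok v436 && (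
  let v437 := add v17 v436; ok v437 && (
  let v438 := mul v435 v437; ok v438 && (
  let v439 := scale ⟨2199023255552, 0, 0, 0⟩ v438; ok v439 && (
  let v440 := add v278 v439; ok v440 && (
  let v441 := scale ⟨2199023255552, 0, 0, 0⟩ v440; ok v441 && (
  let v442 := mul v441 v290; ok v442 && (
  let v443 := mul v9 v291; ok v443 && (
  let v444 := sub v24 v443; ok v444 && (
  let v445 := inv v444; ok v445 && (
  let v446 := mul v442 v445; ok v446 && (
  let v447 := sub v434 v446; ok v447 && (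
  let v448 := mul v0 v21; ok v448 && (
  let v449 := mul v448 v448; ok v449 && (
  let v450 := cst ⟨14293651161088, 0, 0, 0⟩; ok v450 && (
  let v451 := cst ⟨10995116277760, 0, 0, 0⟩; ok v451 && (
  let v452 := inv v451; ok v452 && (
  let v453 := mul v450 v452; ok v453 && (
  let v454 := mul v449 v453; ok v454 && (
  let v455 := mul x0 x0; ok v455 && (
  let v456 := scale ⟨27487790694400, 0, 0, 0⟩ v455; ok v456 && (
  let v457 := add v454 v456; ok v457 && (
  let v458 := mul v330 v401; ok v458 && (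
  let v459 := sub v40 x1; ok v459 && (
  let v460 := sub v459 v39; ok v460 && (
  let v461 := mul v0 v3; ok v461 && (
  let v462 := mul v461 x0; ok v462 && (
  let v463 := mul v24 v283; ok v463 && (
  let v464 := mul v463 v160; ok v464 && (
  let v465 := add v270 v464; ok v465 && (
  let v466 := add v443 v56; ok v466 && (
  let v467 := mul v0 v466; ok v467 && (
  let v468 := mul v457 v458; ok v468 && (
  let v469 := mul v290 v467; ok v469 && (
  let v470 := mul v462 v465; ok v470 && (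
  let v471 := mul v469 v470; ok v471 && (
  let v472 := sub v468 v471; ok v472 && (
  let v473 := scale ⟨549755813888, 0, 0, 0⟩ v443; ok v473 && (
  let v474 := add v0 v473; ok v474 && (
  let v475 := mul v290 v474; ok v475 && (
  let v476 := mul x1 v23; ok v476 && (
  let v477 := mul v476 v155; ok v477 && (
  let v478 := mul v24 v52; ok v478 && (
  let v479 := inv v478; ok v479 && (
  let v480 := mul v477 v479; ok v480 && (
  let v481 := mul v475 v480; ok v481 && (
  let v482 := sub v460 v481; ok v482 && (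
  let v483 := mul v158 v472; ok v483 && (
  let v484 := sub v0 v158; ok v484 && (
  let v485 := mul v12 v482; ok v485 && (
  let v486 := mul v484 v485; ok v486 && (
  let v487 := mul v457 v486; ok v487 && (
  let v488 := add v483 v487; ok v488 && (
  isPos 4 v167 && (
  isPos 4 v170 && (
  let v489 := scale ⟨2199023255552, 0, 0, 0⟩ v287; ok v489 && (
  let v490 := sub v52 v489; ok v490 && (
  isPos 4 v490 && (
  isPos 4 v297 && (
  let v491 := sub v8 v145; ok v491 && (
  isPos 4 v491 && (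
  let v492 := scale ⟨687194767360, 0, 0, 0⟩ v0; ok v492 && (
  let v493 := sub v492 v247; ok v493 && (
  isPos 4 v493 && (
  let v494 := scale ⟨377957122048, 0, 0, 0⟩ v0; ok v494 && (
  let v495 := sub v494 v243; ok v495 && (
  isPos 4 v495 && (
  isPos 4 v444 && (
  isPos 4 v305 && (
  let v496 := sub v492 v317; ok v496 && (
  isPos 4 v496 && (
  isPos 4 v447 && (
  isPos 4 v425 && (
  isPos 4 v488 && (
  isPos 4 v482 && (
  true))))))))))))))))))))))))))))))))))))))))))))))))))))))))))))))))))))))))))))))))))))))))))))))))))))))))))))))))))))))))))))))))))))))))))))))))))))))))))))))))))))))))))))))))))))))))))))))))))))))))))))))))))))))))))))))))))))))))))))))))))))))))))))))))))))))))))))))))))))))))))))))))))))))))))))))))))))))))))))))))))))))))))))))))))))))))))))))))))))))))))))))))))))))))))))))))))))))))))))))))))))))))))))))))))))))))))))))))))))))))))))))))))))))))))))))))))))))))))))))))))))))))))))))))))))))))))))))))))))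
  | _ => false

set_option maxRecDepth 1000000 in
theorem chk2_eq (O : Ops) (m : List O.α)
    (h : chk2 O.cst O.add O.sub O.mul O.scale O.neg O.inv O.exp O.log O.ok O.isPos O.isLt m = true) :
    runG O 4 prog2 m = true := by
  match m, h with
  | [x0, x1, x2, x3], h => exact h

def chkB2 : List opsE.α → Bool :=
  chk2 opsE.cst opsE.add opsE.sub opsE.mul opsE.scale opsE.neg opsE.inv opsE.exp opsE.log opsE.ok opsE.isPos opsE.isLt

theorem chkB2_eq (m : List opsE.α) (h : chkB2 m = true) : runG opsE 4 prog2 m = true :=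
  chk2_eq opsE m h

def prog3 : List Op := [
  .const ⟨1099511627776, 0, 0, 0⟩,
  .mul 2 3,
  .mul 0 2,
  .mul 5 0,
  .mul 6 6,
  .mul 6 0,
  .mul 3 3,
  .mul 8 1,
  .const ⟨549755813888, 0, 0, 0⟩,
  .mul 10 5,
  .mul 0 13,
  .scale ⟨549755813888, 0, 0, 0⟩ 0,
  .mul 8 8,
  .mul 1 1,
  .sub 13 0,
  .inv 0,
  .mul 4 0,
  .scale ⟨2199023255552, 0, 0, 0⟩ 0,
  .scale ⟨2199023255552, 0, 0, 0⟩ 2,
  .sub 0 18,
  .add 0 2,
  .mul 24 5,
  .mul 18 0,
  .sub 22 0,
  .add 23 1,
  .mul 26 12,
  .mul 4 4,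
  .scale ⟨10774999203840, 0, 0, 0⟩ 15,
  .scale ⟨45768245248, 0, 0, 0⟩ 0,
  .const ⟨183207198720, 0, 0, 0⟩,
  .add 1 0,
  .mul 3 0,
  .add 23 0,
  .mul 5 0,
  .add 33 0,
  .mul 7 0,
  .scale ⟨549755813888, 0, 0, 0⟩ 0,
  .add 36 0,
  .mul 3 0,
  .mul 21 16,
  .scale ⟨2199023255552, 0, 0, 0⟩ 20,
  .add 1 0,
  .add 0 43,
  .mul 17 0,
  .add 0 43,
  .mul 27 27,
  .scale ⟨2199023255552, 0, 0, 0⟩ 0,
  .add 0 46,
  .mul 28 5,
  .sub 0 48,
  .log 5,
  .scale ⟨549755813888, 0, 0, 0⟩ 0,
  .exp 0,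
  .const ⟨3298534883328, 0, 0, 0⟩,
  .inv 0,
  .mul 54 0,
  .const ⟨2199023255552, 0, 0, 0⟩,
  .add 13 0,
  .inv 0,
  .mul 15 0,
  .mul 0 0,
  .sub 60 1,
  .mul 1 6,
  .add 62 0,
  .mul 2 0,
  .mul 4 4,
  .scale ⟨219915747328, 0, 0, 0⟩ 0,
  .mul 24 2,
  .scale ⟨549755813888, 0, 0, 0⟩ 0,
  .mul 26 2,
  .scale ⟨549755813888, 0, 0, 0⟩ 0,
  .add 2 0,
  .mul 52 22,
  .scale ⟨4398046511104, 0, 0, 0⟩ 0,
  .mul 54 48,
  .mul 0 25,
  .scale ⟨4398046511104, 0, 0, 0⟩ 0,
  .add 0 20,
  .inv 0,
  .mul 2 0,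
  .mul 0 0,
  .sub 80 1,
  .mul 1 26,
  .add 82 0,
  .mul 2 0,
  .mul 4 4,
  .scale ⟨219915747328, 0, 0, 0⟩ 0,
  .mul 13 2,
  .scale ⟨549755813888, 0, 0, 0⟩ 0,
  .sub 0 17,
  .mul 16 3,
  .scale ⟨549755813888, 0, 0, 0⟩ 0,
  .add 0 21,
  .add 3 0,
  .mul 88 25,
  .neg 0,
  .exp 0,
  .mul 91 26,
  .mul 1 0,
  .mul 76 81,
  .add 80 0,
  .inv 0,
  .mul 77 0,
  .mul 79 104,
  .mul 0 1,
  .sub 104 92,
  .mul 79 0,
  .mul 97 97,
  .sub 107 81,
  .mul 3 0,
  .mul 84 60,
  .inv 66,
  .mul 1 0,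
  .add 93 0,
  .mul 69 0,
  .mul 0 0,
  .inv 0,
  .mul 7 0,
  .add 98 92,
  .mul 119 0,
  .inv 0,
  .mul 120 0,
  .mul 0 0,
  .mul 0 13,
  .mul 19 123,
  .scale ⟨549755813888, 0, 0, 0⟩ 0,
  .sub 125 0,
  .sub 126 2,
  .inv 0,
  .mul 2 0,
  .add 5 129,
  .mul 34 0,
  .mul 29 2,
  .mul 0 132,
  .mul 9 4,
  .pos 7,
  .mul 111 110,
  .add 116 137,
  .mul 114 117,
  .mul 0 120,
  .scale ⟨2199023255552, 0, 0, 0⟩ 0,
  .add 92 0,
  .mul 4 0,
  .inv 0,
  .mul 7 0,
  .mul 145 0,
  .pos 55,
  .mul 0 144,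
  .mul 145 146,
  .add 135 146,
  .inv 0,
  .mul 137 0,
  .scale ⟨2199023255552, 0, 0, 0⟩ 0,
  .sub 150 0,
  .sub 151 140,
  .mul 156 4,
  .mul 0 2,
  .add 130 0,
  .scale ⟨224412041216, 0, 0, 0⟩ 140,
  .inv 118,
  .mul 1 0,
  .scale ⟨5497558138880, 0, 0, 0⟩ 159,
  .inv 0,
  .mul 160 0,
  .mul 162 1,
  .mul 0 138,
  .mul 0 5,
  .mul 3 140,
  .mul 0 7,
  .sub 166 0,
  .inv 0,
  .mul 37 2,
  .sub 169 0,
  .inv 0,
  .scale ⟨2199023255552, 0, 0, 0⟩ 165,
  .add 0 172,
  .add 167 173,
  .scale ⟨3573412790272, 0, 0, 0⟩ 152,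
  .const ⟨339302416384, 0, 0, 0⟩,
  .add 1 0,
  .scale ⟨549755813888, 0, 0, 0⟩ 0,
  .mul 167 157,
  .sub 179 73,
  .mul 169 158,
  .scale ⟨2199023255552, 0, 0, 0⟩ 0,
  .sub 2 0,
  .mul 4 4,
  .add 1 0,
  .add 0 185,
  .scale ⟨549755813888, 0, 0, 0⟩ 0,
  .scale ⟨549755813888, 0, 0, 0⟩ 162,
  .sub 173 0,
  .mul 82 9,
  .mul 0 176,
  .scale ⟨137438953472, 0, 0, 0⟩ 0,
  .add 3 0,
  .mul 6 0,
  .const ⟨1, 0, 0, 0⟩,
  .const ⟨12, 0, 0, 0⟩,
  .mul 73 1,
  .sub 1 0,
  .const ⟨2296, 0, 0, 0⟩,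
  .mul 76 1,
  .sub 1 0,
  .const ⟨302995, 0, 0, 0⟩,
  .mul 79 1,
  .sub 1 0,
  .const ⟨27269634, 0, 0, 0⟩,
  .mul 82 1,
  .sub 1 0,
  .const ⟨1527099483, 0, 0, 0⟩,
  .mul 85 1,
  .sub 1 0,
  .const ⟨45812984491, 0, 0, 0⟩,
  .mul 88 1,
  .sub 1 0,
  .mul 90 0,
  .sub 206 0,
  .mul 92 0,
  .sub 216 0,
  .mul 94 211,
  .mul 122 122,
  .add 0 219,
  .mul 2 2,
  .scale ⟨369367187456, 0, 0, 0⟩ 0,
  .add 5 0,
  .mul 127 0,
  .scale ⟨2199023255552, 0, 0, 0⟩ 0,
  .add 5 0,
  .scale ⟨2199023255552, 0, 0, 0⟩ 128,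
  .add 1 0,
  .const ⟨8589934592, 0, 0, 0⟩,
  .add 1 0,
  .log 0,
  .scale ⟨549755813888, 0, 0, 0⟩ 0,
  .exp 0,
  .mul 137 109,
  .add 1 0,
  .mul 0 67,
  .mul 105 65,
  .add 1 0,
  .mul 72 0,
  .add 105 0,
  .mul 0 234,
  .mul 6 75,
  .mul 0 74,
  .add 109 0,
  .mul 0 238,
  .scale ⟨223338299392, 0, 0, 0⟩ 0,
  .add 238 0,
  .mul 2 0,
  .add 248 0,
  .scale ⟨893353197568, 0, 0, 0⟩ 8,
  .add 250 0,
  .mul 10 0,
  .add 252 0,
  .mul 103 100,
  .mul 0 81,
  .mul 0 2,
  .mul 62 7,
  .add 205 249,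
  .mul 2 0,
  .add 2 0,
  .add 208 260,
  .mul 5 0,
  .mul 88 1,
  .mul 0 110,
  .mul 0 112,
  .mul 5 132,
  .mul 1 88,
  .add 1 0,
  .mul 263 113,
  .inv 217,
  .mul 1 0,
  .scale ⟨549755813888, 0, 0, 0⟩ 0,
  .mul 249 0,
  .add 0 5,
  .mul 276 0,
  .mul 276 0,
  .mul 16 41,
  .mul 0 109,
  .mul 16 147,
  .mul 0 108,
  .add 2 0,
  .mul 258 5,
  .mul 118 1,
  .add 1 0,
  .mul 177 0,
  .mul 0 15,
  .sub 286 0,
  .inv 0,
  .mul 4 0,
  .mul 291 0,
  .mul 183 1,
  .mul 0 21,
  .sub 292 0,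
  .mul 244 0,
  .sub 0 4,
  .inv 0,
  .mul 6 0,
  .sub 245 6,
  .inv 0,
  .mul 2 299,
  .scale ⟨549755813888, 0, 0, 0⟩ 0,
  .sub 301 0,
  .sub 302 2,
  .inv 0,
  .mul 2 0,
  .mul 302 6,
  .mul 160 10,
  .mul 0 2,
  .add 2 0,
  .mul 302 20,
  .mul 11 0,
  .mul 311 15,
  .mul 0 7,
  .mul 0 23,
  .add 3 0,
  .scale ⟨223338299392, 0, 0, 0⟩ 0,
  .add 308 0,
  .mul 2 0,
  .add 318 0,
  .mul 10 0,
  .mul 0 32,
  .mul 0 40,
  .mul 157 299,
  .const ⟨5497558138880, 0, 0, 0⟩,
  .inv 0,
  .mul 272 0,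
  .mul 179 302,
  .mul 0 1,
  .mul 192 227,
  .mul 307 0,
  .scale ⟨549755813888, 0, 0, 0⟩ 185,
  .sub 331 0,
  .sub 332 187,
  .inv 0,
  .mul 2 0,
  .mul 0 191,
  .mul 229 219,
  .scale ⟨733097230336, 0, 0, 0⟩ 0,
  .sub 338 0,
  .mul 222 0,
  .mul 251 251,
  .mul 329 0,
  .add 2 0,
  .mul 7 197,
  .add 1 344,
  .mul 1 0,
  .sub 3 0,
  .scale ⟨366548615168, 0, 0, 0⟩ 302,
  .sub 348 0,
  .mul 323 0,
  .add 3 0,
  .mul 22 0,
  .mul 22 22,
  .add 353 0,
  .inv 0,
  .mul 3 0,
  .sub 356 59,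
  .mul 0 1,
  .sub 358 14,
  .pos 0,
  .pos 3,
  .pos 2,
  .mul 38 200,
  .mul 0 86,
  .inv 337,
  .mul 1 0,
  .mul 359 5,
  .mul 366 0,
  .scale ⟨549755813888, 0, 0, 0⟩ 0,
  .sub 366 0,
  .mul 3 0,
  .neg 0,
  .mul 366 373,
  .mul 0 223,
  .mul 0 356,
  .mul 372 0,
  .add 4 0,
  .mul 5 1,
  .mul 377 0,
  .add 2 0,
  .mul 365 335,
  .scale ⟨412316860416, 0, 0, 0⟩ 335,
  .sub 371 0,
  .mul 2 0,
  .mul 381 0,
  .neg 0,
  .add 6 0,
  .mul 7 1,
  .mul 387 0,
  .add 2 0,
  .mul 384 98,
  .mul 0 26,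
  .mul 389 0,
  .add 3 0,
  .mul 4 1,
  .mul 394 0,
  .add 2 0,
  .mul 394 66,
  .sub 1 0,
  .mul 398 68,
  .add 397 0,
  .inv 0,
  .mul 3 0,
  .mul 397 391,
  .mul 0 112,
  .mul 0 103,
  .mul 403 0,
  .add 4 0,
  .mul 5 1,
  .mul 408 0,
  .add 2 0,
  .mul 410 0,
  .add 409 0,
  .mul 88 244,
  .mul 413 88,
  .mul 49 0,
  .add 2 0,
  .mul 414 0,
  .add 93 52,
  .mul 416 0,
  .mul 2 7,
  .add 10 0,
  .add 0 2,
  .neg 0,
  .scale ⟨1073741824, 0, 0, 0⟩ 421,
  .sub 1 0,
  .sub 403 423,
  .add 0 368,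
  .scale ⟨2199023255552, 0, 0, 0⟩ 99,
  .sub 1 0,
  .mul 280 0,
  .mul 4 2,
  .add 0 429,
  .inv 0,
  .mul 3 0,
  .mul 270 151,
  .scale ⟨549755813888, 0, 0, 0⟩ 275,
  .add 417 0,
  .mul 2 0,
  .scale ⟨2199023255552, 0, 0, 0⟩ 0,
  .add 161 0,
  .scale ⟨2199023255552, 0, 0, 0⟩ 0,
  .mul 0 151,
  .mul 431 151,
  .sub 417 0,
  .inv 0,
  .mul 3 0,
  .sub 12 0,
  .mul 445 424,
  .mul 0 0,
  .const ⟨14293651161088, 0, 0, 0⟩,
  .const ⟨10995116277760, 0, 0, 0⟩,
  .inv 0,
  .mul 2 0,
  .mul 4 0,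
  .mul 453 453,
  .scale ⟨27487790694400, 0, 0, 0⟩ 0,
  .add 2 0,
  .mul 127 56,
  .sub 416 458,
  .sub 0 418,
  .mul 458 455,
  .mul 0 460,
  .mul 436 179,
  .mul 0 301,
  .add 194 0,
  .add 22 407,
  .mul 464 0,
  .mul 10 9,
  .mul 178 1,
  .mul 7 4,
  .mul 1 0,
  .sub 3 0,
  .scale ⟨549755813888, 0, 0, 0⟩ 29,
  .add 471 0,
  .mul 184 0,
  .mul 475 450,
  .mul 0 319,
  .mul 451 423,
  .inv 0,
  .mul 2 0,
  .mul 5 0,
  .sub 21 0,
  .mul 322 10,
  .sub 481 323,
  .mul 470 2,
  .mul 1 0,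
  .mul 29 0,
  .add 4 0,
  .pos 319,
  .pos 316,
  .scale ⟨2199023255552, 0, 0, 0⟩ 201,
  .sub 435 0,
  .pos 0,
  .pos 193,
  .sub 480 343,
  .pos 0,
  .scale ⟨687194767360, 0, 0, 0⟩ 489,
  .sub 0 245,
  .pos 0,
  .scale ⟨377957122048, 0, 0, 0⟩ 491,
  .sub 0 251,
  .pos 0,
  .pos 51,
  .pos 190,
  .sub 3 178,
  .pos 0,
  .pos 49,
  .pos 71,
  .pos 8,
  .pos 14]

def chk3 {α : Type} (cst : Z → α) (add sub mul : α → α → α) (scale : Z → α → α)
    (neg inv exp log : α → α) (ok : α → Bool) (isPos : Nat → α → Bool) (isLt : α → Nat → Bool) :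
    List α → Bool
  | [x0, x1, x2, x3] =>
  let v0 := cst ⟨1099511627776, 0, 0, 0⟩; ok v0 && (
  let v1 := mul x1 x2; ok v1 && (
  let v2 := mul v1 x0; ok v2 && (
  let v3 := mul x2 v2; ok v3 && (
  let v4 := mul x2 x2; ok v4 && (
  let v5 := mul x1 v4; ok v5 && (
  let v6 := mul v2 v2; ok v6 && (
  let v7 := mul x1 v5; ok v7 && (
  let v8 := cst ⟨549755813888, 0, 0, 0⟩; ok v8 && (
  let v9 := mul x1 v3; ok v9 && (
  let v10 := mul v9 x3; ok v10 && (
  let v11 := scale ⟨549755813888, 0, 0, 0⟩ v10; ok v11 && (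
  let v12 := mul v3 v3; ok v12 && (
  let v13 := mul v11 v11; ok v13 && (
  let v14 := sub v0 v13; ok v14 && (
  let v15 := inv v14; ok v15 && (
  let v16 := mul v11 v15; ok v16 && (
  let v17 := scale ⟨2199023255552, 0, 0, 0⟩ v16; ok v17 && (
  let v18 := scale ⟨2199023255552, 0, 0, 0⟩ v15; ok v18 && (
  let v19 := sub v18 v0; ok v19 && (
  let v20 := add v19 v17; ok v20 && (
  let v21 := mul x3 v15; ok v21 && (
  let v22 := mul v3 v21; ok v22 && (
  let v23 := sub v0 v22; ok v23 && (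
  let v24 := add v0 v22; ok v24 && (
  let v25 := mul x1 v12; ok v25 && (
  let v26 := mul v21 v21; ok v26 && (
  let v27 := scale ⟨10774999203840, 0, 0, 0⟩ v11; ok v27 && (
  let v28 := scale ⟨45768245248, 0, 0, 0⟩ v27; ok v28 && (
  let v29 := cst ⟨183207198720, 0, 0, 0⟩; ok v29 && (
  let v30 := add v28 v29; ok v30 && (
  let v31 := mul v27 v30; ok v31 && (
  let v32 := add v8 v31; ok v32 && (
  let v33 := mul v27 v32; ok v33 && (
  let v34 := add v0 v33; ok v34 && (
  let v35 := mul v27 v34; ok v35 && (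
  let v36 := scale ⟨549755813888, 0, 0, 0⟩ v35; ok v36 && (
  let v37 := add v0 v36; ok v37 && (
  let v38 := mul v34 v37; ok v38 && (
  let v39 := mul v17 v22; ok v39 && (
  let v40 := scale ⟨2199023255552, 0, 0, 0⟩ v19; ok v40 && (
  let v41 := add v39 v40; ok v41 && (
  let v42 := add v41 x1; ok v42 && (
  let v43 := mul v25 v42; ok v43 && (
  let v44 := add v43 v0; ok v44 && (
  let v45 := mul v17 v17; ok v45 && (
  let v46 := scale ⟨2199023255552, 0, 0, 0⟩ v45; ok v46 && (
  let v47 := add v46 v0; ok v47 && (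
  let v48 := mul v19 v42; ok v48 && (
  let v49 := sub v48 v0; ok v49 && (
  let v50 := log v44; ok v50 && (
  let v51 := scale ⟨549755813888, 0, 0, 0⟩ v50; ok v51 && (
  let v52 := exp v51; ok v52 && (
  let v53 := cst ⟨3298534883328, 0, 0, 0⟩; ok v53 && (
  let v54 := inv v53; ok v54 && (
  let v55 := mul v0 v54; ok v55 && (
  let v56 := cst ⟨2199023255552, 0, 0, 0⟩; ok v56 && (
  let v57 := add v43 v56; ok v57 && (
  let v58 := inv v57; ok v58 && (
  let v59 := mul v43 v58; ok v59 && (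
  let v60 := mul v59 v59; ok v60 && (
  let v61 := sub v0 v59; ok v61 && (
  let v62 := mul v60 v55; ok v62 && (
  let v63 := add v0 v62; ok v63 && (
  let v64 := mul v61 v63; ok v64 && (
  let v65 := mul v60 v60; ok v65 && (
  let v66 := scale ⟨219915747328, 0, 0, 0⟩ v65; ok v66 && (
  let v67 := mul v42 v64; ok v67 && (
  let v68 := scale ⟨549755813888, 0, 0, 0⟩ v67; ok v68 && (
  let v69 := mul v42 v66; ok v69 && (
  let v70 := scale ⟨549755813888, 0, 0, 0⟩ v69; ok v70 && (
  let v71 := add v68 v70; ok v71 && (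
  let v72 := mul v19 v49; ok v72 && (
  let v73 := scale ⟨4398046511104, 0, 0, 0⟩ v72; ok v73 && (
  let v74 := mul v19 v25; ok v74 && (
  let v75 := mul v74 v49; ok v75 && (
  let v76 := scale ⟨4398046511104, 0, 0, 0⟩ v75; ok v76 && (
  let v77 := add v76 v56; ok v77 && (
  let v78 := inv v77; ok v78 && (
  let v79 := mul v76 v78; ok v79 && (
  let v80 := mul v79 v79; ok v80 && (
  let v81 := sub v0 v79; ok v81 && (
  let v82 := mul v80 v55; ok v82 && (
  let v83 := add v0 v82; ok v83 && (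
  let v84 := mul v81 v83; ok v84 && (
  let v85 := mul v80 v80; ok v85 && (
  let v86 := scale ⟨219915747328, 0, 0, 0⟩ v85; ok v86 && (
  let v87 := mul v73 v84; ok v87 && (
  let v88 := scale ⟨549755813888, 0, 0, 0⟩ v87; ok v88 && (
  let v89 := sub v88 v71; ok v89 && (
  let v90 := mul v73 v86; ok v90 && (
  let v91 := scale ⟨549755813888, 0, 0, 0⟩ v90; ok v91 && (
  let v92 := add v91 v70; ok v92 && (
  let v93 := add v89 v92; ok v93 && (
  let v94 := mul v5 v68; ok v94 && (
  let v95 := neg v94; ok v95 && (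
  let v96 := exp v95; ok v96 && (
  let v97 := mul v5 v70; ok v97 && (
  let v98 := mul v96 v97; ok v98 && (
  let v99 := mul v22 v17; ok v99 && (
  let v100 := add v19 v99; ok v100 && (
  let v101 := inv v100; ok v101 && (
  let v102 := mul v24 v101; ok v102 && (
  let v103 := mul v23 x1; ok v103 && (
  let v104 := mul v103 v102; ok v104 && (
  let v105 := sub v0 v12; ok v105 && (
  let v106 := mul v26 v105; ok v106 && (
  let v107 := mul v9 v9; ok v107 && (
  let v108 := sub v0 v26; ok v108 && (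
  let v109 := mul v105 v108; ok v109 && (
  let v110 := mul v25 v49; ok v110 && (
  let v111 := inv v44; ok v111 && (
  let v112 := mul v110 v111; ok v112 && (
  let v113 := add v19 v112; ok v113 && (
  let v114 := mul v44 v113; ok v114 && (
  let v115 := mul v114 v114; ok v115 && (
  let v116 := inv v115; ok v116 && (
  let v117 := mul v109 v116; ok v117 && (
  let v118 := add v19 v25; ok v118 && (
  let v119 := mul x0 v118; ok v119 && (
  let v120 := inv v119; ok v120 && (
  let v121 := mul v0 v120; ok v121 && (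
  let v122 := mul v121 v121; ok v122 && (
  let v123 := mul v122 v109; ok v123 && (
  let v124 := mul v104 v0; ok v124 && (
  let v125 := scale ⟨549755813888, 0, 0, 0⟩ v124; ok v125 && (
  let v126 := sub v0 v125; ok v126 && (
  let v127 := sub v0 v124; ok v127 && (
  let v128 := inv v127; ok v128 && (
  let v129 := mul v126 v128; ok v129 && (
  let v130 := add v124 v0; ok v130 && (
  let v131 := mul v96 v130; ok v131 && (
  let v132 := mul v102 v129; ok v132 && (
  let v133 := mul v132 v0; ok v133 && (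
  let v134 := mul v124 v129; ok v134 && (
  isPos 4 v127 && (
  let v135 := mul v23 v24; ok v135 && (
  let v136 := add v19 x1; ok v136 && (
  let v137 := mul v22 v19; ok v137 && (
  let v138 := mul v137 v17; ok v138 && (
  let v139 := scale ⟨2199023255552, 0, 0, 0⟩ v138; ok v139 && (
  let v140 := add v47 v139; ok v140 && (
  let v141 := mul v136 v140; ok v141 && (
  let v142 := inv v141; ok v142 && (
  let v143 := mul v135 v142; ok v143 && (
  let v144 := mul x1 v143; ok v144 && (
  isPos 4 v89 && (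
  let v145 := mul v144 v0; ok v145 && (
  let v146 := mul v0 x0; ok v146 && (
  let v147 := add v11 v0; ok v147 && (
  let v148 := inv v147; ok v148 && (
  let v149 := mul v11 v148; ok v149 && (
  let v150 := scale ⟨2199023255552, 0, 0, 0⟩ v149; ok v150 && (
  let v151 := sub v0 v150; ok v151 && (
  let v152 := sub v0 v11; ok v152 && (
  let v153 := mul x3 v148; ok v153 && (
  let v154 := mul v153 v151; ok v154 && (
  let v155 := add v24 v154; ok v155 && (
  let v156 := scale ⟨224412041216, 0, 0, 0⟩ v15; ok v156 && (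
  let v157 := inv v38; ok v157 && (
  let v158 := mul v156 v157; ok v158 && (
  let v159 := scale ⟨5497558138880, 0, 0, 0⟩ x0; ok v159 && (
  let v160 := inv v159; ok v160 && (
  let v161 := mul v0 v160; ok v161 && (
  let v162 := mul x0 v160; ok v162 && (
  let v163 := mul v162 v24; ok v163 && (
  let v164 := mul v163 v158; ok v164 && (
  let v165 := mul v161 v24; ok v165 && (
  let v166 := mul v165 v158; ok v166 && (
  let v167 := sub v0 v166; ok v167 && (
  let v168 := inv v167; ok v168 && (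
  let v169 := mul v131 v166; ok v169 && (
  let v170 := sub v0 v169; ok v170 && (
  let v171 := inv v170; ok v171 && (
  let v172 := scale ⟨2199023255552, 0, 0, 0⟩ v6; ok v172 && (
  let v173 := add v172 v0; ok v173 && (
  let v174 := add v6 v0; ok v174 && (
  let v175 := scale ⟨3573412790272, 0, 0, 0⟩ v22; ok v175 && (
  let v176 := cst ⟨339302416384, 0, 0, 0⟩; ok v176 && (
  let v177 := add v175 v176; ok v177 && (
  let v178 := scale ⟨549755813888, 0, 0, 0⟩ v177; ok v178 && (
  let v179 := mul v11 v21; ok v179 && (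
  let v180 := sub v0 v106; ok v180 && (
  let v181 := mul v11 v22; ok v181 && (
  let v182 := scale ⟨2199023255552, 0, 0, 0⟩ v181; ok v182 && (
  let v183 := sub v180 v182; ok v183 && (
  let v184 := mul v179 v179; ok v184 && (
  let v185 := add v183 v184; ok v185 && (
  let v186 := add v185 v0; ok v186 && (
  let v187 := scale ⟨549755813888, 0, 0, 0⟩ v186; ok v187 && (
  let v188 := scale ⟨549755813888, 0, 0, 0⟩ v25; ok v188 && (
  let v189 := sub v15 v188; ok v189 && (
  let v190 := mul v107 v180; ok v190 && (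
  let v191 := mul v190 v14; ok v191 && (
  let v192 := scale ⟨137438953472, 0, 0, 0⟩ v191; ok v192 && (
  let v193 := add v189 v192; ok v193 && (
  let v194 := mul v187 v193; ok v194 && (
  let v195 := cst ⟨1, 0, 0, 0⟩; ok v195 && (
  let v196 := cst ⟨12, 0, 0, 0⟩; ok v196 && (
  let v197 := mul v123 v195; ok v197 && (
  let v198 := sub v196 v197; ok v198 && (
  let v199 := cst ⟨2296, 0, 0, 0⟩; ok v199 && (
  let v200 := mul v123 v198; ok v200 && (
  let v201 := sub v199 v200; ok v201 && (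
  let v202 := cst ⟨302995, 0, 0, 0⟩; ok v202 && (
  let v203 := mul v123 v201; ok v203 && (
  let v204 := sub v202 v203; ok v204 && (
  let v205 := cst ⟨27269634, 0, 0, 0⟩; ok v205 && (
  let v206 := mul v123 v204; ok v206 && (
  let v207 := sub v205 v206; ok v207 && (
  let v208 := cst ⟨1527099483, 0, 0, 0⟩; ok v208 && (
  let v209 := mul v123 v207; ok v209 && (
  let v210 := sub v208 v209; ok v210 && (
  let v211 := cst ⟨45812984491, 0, 0, 0⟩; ok v211 && (
  let v212 := mul v123 v210; ok v212 && (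
  let v213 := sub v211 v212; ok v213 && (
  let v214 := mul v123 v213; ok v214 && (
  let v215 := sub v8 v214; ok v215 && (
  let v216 := mul v123 v215; ok v216 && (
  let v217 := sub v0 v216; ok v217 && (
  let v218 := mul v123 v6; ok v218 && (
  let v219 := mul v96 v96; ok v219 && (
  let v220 := add v219 v0; ok v220 && (
  let v221 := mul v218 v218; ok v221 && (
  let v222 := scale ⟨369367187456, 0, 0, 0⟩ v221; ok v222 && (
  let v223 := add v217 v222; ok v223 && (
  let v224 := mul v96 v223; ok v224 && (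
  let v225 := scale ⟨2199023255552, 0, 0, 0⟩ v224; ok v225 && (
  let v226 := add v220 v225; ok v226 && (
  let v227 := scale ⟨2199023255552, 0, 0, 0⟩ v98; ok v227 && (
  let v228 := add v226 v227; ok v228 && (
  let v229 := cst ⟨8589934592, 0, 0, 0⟩; ok v229 && (
  let v230 := add v228 v229; ok v230 && (
  let v231 := log v230; ok v231 && (
  let v232 := scale ⟨549755813888, 0, 0, 0⟩ v231; ok v232 && (
  let v233 := exp v232; ok v233 && (
  let v234 := mul v96 v124; ok v234 && (
  let v235 := add v233 v234; ok v235 && (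
  let v236 := mul v235 v168; ok v236 && (
  let v237 := mul v131 v171; ok v237 && (
  let v238 := add v236 v237; ok v238 && (
  let v239 := mul v166 v238; ok v239 && (
  let v240 := add v134 v239; ok v240 && (
  let v241 := mul v240 v6; ok v241 && (
  let v242 := mul v235 v166; ok v242 && (
  let v243 := mul v242 v168; ok v243 && (
  let v244 := add v134 v243; ok v244 && (
  let v245 := mul v244 v6; ok v245 && (
  let v246 := scale ⟨223338299392, 0, 0, 0⟩ v245; ok v246 && (
  let v247 := add v8 v246; ok v247 && (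
  let v248 := mul v245 v247; ok v248 && (
  let v249 := add v0 v248; ok v249 && (
  let v250 := scale ⟨893353197568, 0, 0, 0⟩ v241; ok v250 && (
  let v251 := add v0 v250; ok v251 && (
  let v252 := mul v241 v251; ok v252 && (
  let v253 := add v0 v252; ok v253 && (
  let v254 := mul v150 v153; ok v254 && (
  let v255 := mul v254 v173; ok v255 && (
  let v256 := mul v255 v253; ok v256 && (
  let v257 := mul v194 v249; ok v257 && (
  let v258 := add v52 v8; ok v258 && (
  let v259 := mul v256 v258; ok v259 && (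
  let v260 := add v257 v259; ok v260 && (
  let v261 := add v52 v0; ok v261 && (
  let v262 := mul v256 v261; ok v262 && (
  let v263 := mul v174 v261; ok v263 && (
  let v264 := mul v263 v153; ok v264 && (
  let v265 := mul v264 v152; ok v265 && (
  let v266 := mul v260 v133; ok v266 && (
  let v267 := mul v265 v178; ok v267 && (
  let v268 := add v266 v267; ok v268 && (
  let v269 := mul v5 v155; ok v269 && (
  let v270 := inv v52; ok v270 && (
  let v271 := mul v269 v270; ok v271 && (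
  let v272 := scale ⟨549755813888, 0, 0, 0⟩ v271; ok v272 && (
  let v273 := mul v23 v272; ok v273 && (
  let v274 := add v273 v268; ok v274 && (
  let v275 := mul x1 v274; ok v275 && (
  let v276 := mul x0 v275; ok v276 && (
  let v277 := mul v260 v235; ok v277 && (
  let v278 := mul v277 v168; ok v278 && (
  let v279 := mul v262 v131; ok v279 && (
  let v280 := mul v279 v171; ok v280 && (
  let v281 := add v278 v280; ok v281 && (
  let v282 := mul v23 v276; ok v282 && (
  let v283 := mul v164 v281; ok v283 && (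
  let v284 := add v282 v283; ok v284 && (
  let v285 := mul v107 v284; ok v285 && (
  let v286 := mul v285 v270; ok v286 && (
  let v287 := sub v0 v286; ok v287 && (
  let v288 := inv v287; ok v288 && (
  let v289 := mul v284 v288; ok v289 && (
  let v290 := mul x1 v289; ok v290 && (
  let v291 := mul v107 v289; ok v291 && (
  let v292 := mul v291 v270; ok v292 && (
  let v293 := sub v0 v292; ok v293 && (
  let v294 := mul v49 v293; ok v294 && (
  let v295 := sub v294 v290; ok v295 && (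
  let v296 := inv v295; ok v296 && (
  let v297 := mul v290 v296; ok v297 && (
  let v298 := sub v52 v291; ok v298 && (
  let v299 := inv v298; ok v299 && (
  let v300 := mul v297 v0; ok v300 && (
  let v301 := scale ⟨549755813888, 0, 0, 0⟩ v300; ok v301 && (
  let v302 := sub v0 v301; ok v302 && (
  let v303 := sub v0 v300; ok v303 && (
  let v304 := inv v303; ok v304 && (
  let v305 := mul v302 v304; ok v305 && (
  let v306 := mul v3 v299; ok v306 && (
  let v307 := mul v146 v296; ok v307 && (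
  let v308 := mul v307 v305; ok v308 && (
  let v309 := add v306 v308; ok v309 && (
  let v310 := mul v7 v289; ok v310 && (
  let v311 := mul v299 v310; ok v311 && (
  let v312 := mul v0 v296; ok v312 && (
  let v313 := mul v312 v305; ok v313 && (
  let v314 := mul v313 v290; ok v314 && (
  let v315 := add v311 v314; ok v315 && (
  let v316 := scale ⟨223338299392, 0, 0, 0⟩ v315; ok v316 && (
  let v317 := add v8 v316; ok v317 && (
  let v318 := mul v315 v317; ok v318 && (
  let v319 := add v0 v318; ok v319 && (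
  let v320 := mul v309 v319; ok v320 && (
  let v321 := mul v320 v288; ok v321 && (
  let v322 := mul v321 v281; ok v322 && (
  let v323 := mul v165 v23; ok v323 && (
  let v324 := cst ⟨5497558138880, 0, 0, 0⟩; ok v324 && (
  let v325 := inv v324; ok v325 && (
  let v326 := mul v53 v325; ok v326 && (
  let v327 := mul v147 v24; ok v327 && (
  let v328 := mul v327 v326; ok v328 && (
  let v329 := mul v136 v101; ok v329 && (
  let v330 := mul v22 v329; ok v330 && (
  let v331 := scale ⟨549755813888, 0, 0, 0⟩ v145; ok v331 && (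
  let v332 := sub v0 v331; ok v332 && (
  let v333 := sub v0 v145; ok v333 && (
  let v334 := inv v333; ok v334 && (
  let v335 := mul v332 v334; ok v335 && (
  let v336 := mul v335 v144; ok v336 && (
  let v337 := mul v107 v117; ok v337 && (
  let v338 := scale ⟨733097230336, 0, 0, 0⟩ v337; ok v338 && (
  let v339 := sub v0 v338; ok v339 && (
  let v340 := mul v117 v339; ok v340 && (
  let v341 := mul v89 v89; ok v341 && (
  let v342 := mul v12 v341; ok v342 && (
  let v343 := add v340 v342; ok v343 && (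
  let v344 := mul v336 v146; ok v344 && (
  let v345 := add v343 v0; ok v345 && (
  let v346 := mul v344 v345; ok v346 && (
  let v347 := sub v343 v346; ok v347 && (
  let v348 := scale ⟨366548615168, 0, 0, 0⟩ v45; ok v348 && (
  let v349 := sub v0 v348; ok v349 && (
  let v350 := mul v26 v349; ok v350 && (
  let v351 := add v347 v350; ok v351 && (
  let v352 := mul v329 v351; ok v352 && (
  let v353 := mul v330 v330; ok v353 && (
  let v354 := add v0 v353; ok v354 && (
  let v355 := inv v354; ok v355 && (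
  let v356 := mul v352 v355; ok v356 && (
  let v357 := sub v0 v297; ok v357 && (
  let v358 := mul v357 v356; ok v358 && (
  let v359 := sub v0 v344; ok v359 && (
  isPos 4 v359 && (
  isPos 4 v356 && (
  isPos 4 v357 && (
  let v360 := mul v321 v159; ok v360 && (
  let v361 := mul v360 v274; ok v361 && (
  let v362 := inv v24; ok v362 && (
  let v363 := mul v361 v362; ok v363 && (
  let v364 := mul v4 v358; ok v364 && (
  let v365 := mul x1 v364; ok v365 && (
  let v366 := scale ⟨549755813888, 0, 0, 0⟩ v365; ok v366 && (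
  let v367 := sub v0 v366; ok v367 && (
  let v368 := mul v364 v367; ok v368 && (
  let v369 := neg v368; ok v369 && (
  let v370 := mul v3 x3; ok v370 && (
  let v371 := mul v370 v147; ok v371 && (
  let v372 := mul v371 v15; ok v372 && (
  let v373 := mul v0 v372; ok v373 && (
  let v374 := add v369 v373; ok v374 && (
  let v375 := mul v369 v373; ok v375 && (
  let v376 := mul x1 v375; ok v376 && (
  let v377 := add v374 v376; ok v377 && (
  let v378 := mul v12 v42; ok v378 && (
  let v379 := scale ⟨412316860416, 0, 0, 0⟩ v43; ok v379 && (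
  let v380 := sub v8 v379; ok v380 && (
  let v381 := mul v378 v380; ok v381 && (
  let v382 := mul v0 v381; ok v382 && (
  let v383 := neg v382; ok v383 && (
  let v384 := add v377 v383; ok v384 && (
  let v385 := mul v377 v383; ok v385 && (
  let v386 := mul x1 v385; ok v386 && (
  let v387 := add v384 v386; ok v387 && (
  let v388 := mul v3 v289; ok v388 && (
  let v389 := mul v388 v362; ok v389 && (
  let v390 := mul v0 v389; ok v390 && (
  let v391 := add v387 v390; ok v391 && (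
  let v392 := mul v387 v390; ok v392 && (
  let v393 := mul x1 v392; ok v393 && (
  let v394 := add v391 v393; ok v394 && (
  let v395 := mul v0 v328; ok v395 && (
  let v396 := sub v394 v395; ok v396 && (
  let v397 := mul x1 v328; ok v397 && (
  let v398 := add v0 v397; ok v398 && (
  let v399 := inv v398; ok v399 && (
  let v400 := mul v396 v399; ok v400 && (
  let v401 := mul v3 v9; ok v401 && (
  let v402 := mul v401 v289; ok v402 && (
  let v403 := mul v402 v299; ok v403 && (
  let v404 := mul v0 v403; ok v404 && (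
  let v405 := add v400 v404; ok v405 && (
  let v406 := mul v400 v404; ok v406 && (
  let v407 := mul x1 v406; ok v407 && (
  let v408 := add v405 v407; ok v408 && (
  let v409 := mul x1 v408; ok v409 && (
  let v410 := add v0 v409; ok v410 && (
  let v411 := mul v322 v166; ok v411 && (
  let v412 := mul x1 v323; ok v412 && (
  let v413 := mul v363 v412; ok v413 && (
  let v414 := add v411 v413; ok v414 && (
  let v415 := mul v0 v414; ok v415 && (
  let v416 := add v322 v363; ok v416 && (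
  let v417 := mul v0 v416; ok v417 && (
  let v418 := mul v415 v410; ok v418 && (
  let v419 := add v408 v418; ok v419 && (
  let v420 := add v419 v417; ok v420 && (
  let v421 := neg v420; ok v421 && (
  let v422 := scale ⟨1073741824, 0, 0, 0⟩ v0; ok v422 && (
  let v423 := sub v421 v422; ok v423 && (
  let v424 := sub v20 v0; ok v424 && (
  let v425 := add v424 v56; ok v425 && (
  let v426 := scale ⟨2199023255552, 0, 0, 0⟩ v326; ok v426 && (
  let v427 := sub v425 v426; ok v427 && (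
  let v428 := mul v147 v427; ok v428 && (
  let v429 := mul v424 v426; ok v429 && (
  let v430 := add v429 v0; ok v430 && (
  let v431 := inv v430; ok v431 && (
  let v432 := mul v428 v431; ok v432 && (
  let v433 := mul v162 v281; ok v433 && (
  let v434 := scale ⟨549755813888, 0, 0, 0⟩ v158; ok v434 && (
  let v435 := add v17 v434; ok v435 && (
  let v436 := mul v433 v435; ok v436 && (
  let v437 := scale ⟨2199023255552, 0, 0, 0⟩ v436; ok v437 && (
  let v438 := add v276 v437; ok v438 && (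
  let v439 := scale ⟨2199023255552, 0, 0, 0⟩ v438; ok v439 && (
  let v440 := mul v439 v288; ok v440 && (
  let v441 := mul v9 v289; ok v441 && (
  let v442 := sub v24 v441; ok v442 && (
  let v443 := inv v442; ok v443 && (
  let v444 := mul v440 v443; ok v444 && (
  let v445 := sub v432 v444; ok v445 && (
  let v446 := mul v0 v21; ok v446 && (
  let v447 := mul v446 v446; ok v447 && (
  let v448 := cst ⟨14293651161088, 0, 0, 0⟩; ok v448 && (
  let v449 := cst ⟨10995116277760, 0, 0, 0⟩; ok v449 && (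
  let v450 := inv v449; ok v450 && (
  let v451 := mul v448 v450; ok v451 && (
  let v452 := mul v447 v451; ok v452 && (
  let v453 := mul x0 x0; ok v453 && (
  let v454 := scale ⟨27487790694400, 0, 0, 0⟩ v453; ok v454 && (
  let v455 := add v452 v454; ok v455 && (
  let v456 := mul v328 v399; ok v456 && (
  let v457 := sub v40 x1; ok v457 && (
  let v458 := sub v457 v39; ok v458 && (
  let v459 := mul v0 v3; ok v459 && (
  let v460 := mul v459 x0; ok v460 && (
  let v461 := mul v24 v281; ok v461 && (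
  let v462 := mul v461 v160; ok v462 && (
  let v463 := add v268 v462; ok v463 && (
  let v464 := add v441 v56; ok v464 && (
  let v465 := mul v0 v464; ok v465 && (
  let v466 := mul v455 v456; ok v466 && (
  let v467 := mul v288 v465; ok v467 && (
  let v468 := mul v460 v463; ok v468 && (
  let v469 := mul v467 v468; ok v469 && (
  let v470 := sub v466 v469; ok v470 && (
  let v471 := scale ⟨549755813888, 0, 0, 0⟩ v441; ok v471 && (
  let v472 := add v0 v471; ok v472 && (
  let v473 := mul v288 v472; ok v473 && (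
  let v474 := mul x1 v23; ok v474 && (
  let v475 := mul v474 v155; ok v475 && (
  let v476 := mul v24 v52; ok v476 && (
  let v477 := inv v476; ok v477 && (
  let v478 := mul v475 v477; ok v478 && (
  let v479 := mul v473 v478; ok v479 && (
  let v480 := sub v458 v479; ok v480 && (
  let v481 := mul v158 v470; ok v481 && (
  let v482 := sub v0 v158; ok v482 && (
  let v483 := mul v12 v480; ok v483 && (
  let v484 := mul v482 v483; ok v484 && (
  let v485 := mul v455 v484; ok v485 && (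
  let v486 := add v481 v485; ok v486 && (
  isPos 4 v167 && (
  isPos 4 v170 && (
  let v487 := scale ⟨2199023255552, 0, 0, 0⟩ v285; ok v487 && (
  let v488 := sub v52 v487; ok v488 && (
  isPos 4 v488 && (
  isPos 4 v295 && (
  let v489 := sub v8 v145; ok v489 && (
  isPos 4 v489 && (
  let v490 := scale ⟨687194767360, 0, 0, 0⟩ v0; ok v490 && (
  let v491 := sub v490 v245; ok v491 && (
  isPos 4 v491 && (
  let v492 := scale ⟨377957122048, 0, 0, 0⟩ v0; ok v492 && (
  let v493 := sub v492 v241; ok v493 && (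
  isPos 4 v493 && (
  isPos 4 v442 && (
  isPos 4 v303 && (
  let v494 := sub v490 v315; ok v494 && (
  isPos 4 v494 && (
  isPos 4 v445 && (
  isPos 4 v423 && (
  isPos 4 v486 && (
  isPos 4 v480 && (
  true))))))))))))))))))))))))))))))))))))))))))))))))))))))))))))))))))))))))))))))))))))))))))))))))))))))))))))))))))))))))))))))))))))))))))))))))))))))))))))))))))))))))))))))))))))))))))))))))))))))))))))))))))))))))))))))))))))))))))))))))))))))))))))))))))))))))))))))))))))))))))))))))))))))))))))))))))))))))))))))))))))))))))))))))))))))))))))))))))))))))))))))))))))))))))))))))))))))))))))))))))))))))))))))))))))))))))))))))))))))))))))))))))))))))))))))))))))))))))))))))))))))))))))))))))))))))))))))))))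
  | _ => false

set_option maxRecDepth 1000000 in
theorem chk3_eq (O : Ops) (m : List O.α)
    (h : chk3 O.cst O.add O.sub O.mul O.scale O.neg O.inv O.exp O.log O.ok O.isPos O.isLt m = true) :
    runG O 4 prog3 m = true := by
  match m, h with
  | [x0, x1, x2, x3], h => exact h

def chkB3 : List opsE.α → Bool :=
  chk3 opsE.cst opsE.add opsE.sub opsE.mul opsE.scale opsE.neg opsE.inv opsE.exp opsE.log opsE.ok opsE.isPos opsE.isLt

theorem chkB3_eq (m : List opsE.α) (h : chkB3 m = true) : runG opsE 4 prog3 m = true :=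
  chk3_eq opsE m h

def prog4 : List Op := [
  .const ⟨1099511627776, 0, 0, 0⟩,
  .mul 2 3,
  .mul 0 2,
  .mul 5 0,
  .mul 6 6,
  .mul 6 0,
  .mul 3 3,
  .mul 8 1,
  .const ⟨549755813888, 0, 0, 0⟩,
  .mul 10 5,
  .mul 0 13,
  .scale ⟨549755813888, 0, 0, 0⟩ 0,
  .mul 8 8,
  .mul 1 1,
  .sub 13 0,
  .inv 0,
  .mul 4 0,
  .scale ⟨2199023255552, 0, 0, 0⟩ 0,
  .scale ⟨2199023255552, 0, 0, 0⟩ 2,
  .sub 0 18,
  .add 0 2,
  .mul 24 5,
  .mul 18 0,
  .sub 22 0,
  .add 23 1,
  .mul 26 12,
  .mul 4 4,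
  .scale ⟨10774999203840, 0, 0, 0⟩ 15,
  .scale ⟨45768245248, 0, 0, 0⟩ 0,
  .const ⟨183207198720, 0, 0, 0⟩,
  .add 1 0,
  .mul 3 0,
  .add 23 0,
  .mul 5 0,
  .add 33 0,
  .mul 7 0,
  .scale ⟨549755813888, 0, 0, 0⟩ 0,
  .add 36 0,
  .mul 3 0,
  .mul 21 16,
  .scale ⟨2199023255552, 0, 0, 0⟩ 20,
  .add 1 0,
  .add 0 43,
  .mul 17 0,
  .add 0 43,
  .mul 27 27,
  .scale ⟨2199023255552, 0, 0, 0⟩ 0,
  .add 0 46,
  .mul 28 5,
  .sub 0 48,
  .log 5,
  .scale ⟨549755813888, 0, 0, 0⟩ 0,
  .exp 0,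
  .const ⟨3298534883328, 0, 0, 0⟩,
  .inv 0,
  .mul 54 0,
  .const ⟨2199023255552, 0, 0, 0⟩,
  .add 13 0,
  .inv 0,
  .mul 15 0,
  .mul 0 0,
  .sub 60 1,
  .mul 1 6,
  .add 62 0,
  .mul 2 0,
  .mul 4 4,
  .scale ⟨219915747328, 0, 0, 0⟩ 0,
  .mul 24 2,
  .scale ⟨549755813888, 0, 0, 0⟩ 0,
  .mul 26 2,
  .scale ⟨549755813888, 0, 0, 0⟩ 0,
  .add 2 0,
  .mul 52 22,
  .scale ⟨4398046511104, 0, 0, 0⟩ 0,
  .mul 54 48,
  .mul 0 25,
  .scale ⟨4398046511104, 0, 0, 0⟩ 0,
  .add 0 20,
  .inv 0,
  .mul 2 0,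
  .mul 0 0,
  .sub 80 1,
  .mul 1 26,
  .add 82 0,
  .mul 2 0,
  .mul 4 4,
  .scale ⟨219915747328, 0, 0, 0⟩ 0,
  .mul 13 2,
  .scale ⟨549755813888, 0, 0, 0⟩ 0,
  .sub 0 17,
  .mul 16 3,
  .scale ⟨549755813888, 0, 0, 0⟩ 0,
  .add 0 21,
  .add 3 0,
  .mul 88 25,
  .neg 0,
  .exp 0,
  .mul 91 26,
  .mul 1 0,
  .mul 76 81,
  .add 80 0,
  .inv 0,
  .mul 77 0,
  .mul 79 104,
  .mul 0 1,
  .sub 104 92,
  .mul 79 0,
  .mul 97 97,
  .sub 107 81,
  .mul 3 0,
  .mul 84 60,
  .inv 66,
  .mul 1 0,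
  .add 93 0,
  .mul 69 0,
  .mul 0 0,
  .inv 0,
  .mul 7 0,
  .mul 13 117,
  .scale ⟨549755813888, 0, 0, 0⟩ 0,
  .sub 119 0,
  .sub 120 2,
  .inv 0,
  .mul 2 0,
  .add 5 123,
  .mul 28 0,
  .mul 23 2,
  .mul 0 126,
  .mul 9 4,
  .pos 7,
  .mul 105 104,
  .add 110 131,
  .mul 108 111,
  .mul 0 114,
  .scale ⟨2199023255552, 0, 0, 0⟩ 0,
  .add 86 0,
  .mul 4 0,
  .inv 0,
  .mul 7 0,
  .mul 139 0,
  .pos 49,
  .mul 0 138,
  .mul 139 140,
  .add 129 140,
  .inv 0,
  .mul 131 0,
  .scale ⟨2199023255552, 0, 0, 0⟩ 0,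
  .sub 144 0,
  .sub 145 134,
  .mul 150 4,
  .mul 0 2,
  .add 124 0,
  .scale ⟨224412041216, 0, 0, 0⟩ 134,
  .inv 112,
  .mul 1 0,
  .scale ⟨5497558138880, 0, 0, 0⟩ 153,
  .inv 0,
  .mul 154 0,
  .mul 156 1,
  .mul 0 132,
  .mul 0 5,
  .mul 3 134,
  .mul 0 7,
  .sub 160 0,
  .inv 0,
  .mul 37 2,
  .sub 163 0,
  .inv 0,
  .scale ⟨2199023255552, 0, 0, 0⟩ 159,
  .add 0 166,
  .add 161 167,
  .scale ⟨3573412790272, 0, 0, 0⟩ 146,
  .const ⟨339302416384, 0, 0, 0⟩,
  .add 1 0,
  .scale ⟨549755813888, 0, 0, 0⟩ 0,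
  .mul 161 151,
  .sub 173 67,
  .mul 163 152,
  .scale ⟨2199023255552, 0, 0, 0⟩ 0,
  .sub 2 0,
  .mul 4 4,
  .add 1 0,
  .add 0 179,
  .scale ⟨549755813888, 0, 0, 0⟩ 0,
  .scale ⟨549755813888, 0, 0, 0⟩ 156,
  .sub 167 0,
  .mul 76 9,
  .mul 0 170,
  .scale ⟨137438953472, 0, 0, 0⟩ 0,
  .add 3 0,
  .mul 6 0,
  .add 63 188,
  .mul 0 27,
  .mul 65 25,
  .add 1 0,
  .mul 32 0,
  .add 65 0,
  .mul 0 188,
  .mul 6 35,
  .mul 0 34,
  .add 69 0,
  .mul 0 192,
  .scale ⟨223338299392, 0, 0, 0⟩ 0,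
  .add 192 0,
  .mul 2 0,
  .add 202 0,
  .scale ⟨893353197568, 0, 0, 0⟩ 8,
  .add 204 0,
  .mul 10 0,
  .add 206 0,
  .mul 63 60,
  .mul 0 41,
  .mul 0 2,
  .mul 22 7,
  .add 159 203,
  .mul 2 0,
  .add 2 0,
  .add 162 214,
  .mul 5 0,
  .mul 48 1,
  .mul 0 70,
  .mul 0 72,
  .mul 5 92,
  .mul 1 48,
  .add 1 0,
  .mul 217 73,
  .inv 171,
  .mul 1 0,
  .scale ⟨549755813888, 0, 0, 0⟩ 0,
  .mul 203 0,
  .add 0 5,
  .mul 230 0,
  .mul 230 0,
  .mul 16 41,
  .mul 0 69,
  .mul 16 107,
  .mul 0 68,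
  .add 2 0,
  .mul 212 5,
  .mul 78 1,
  .add 1 0,
  .mul 131 0,
  .mul 0 15,
  .sub 240 0,
  .inv 0,
  .mul 4 0,
  .mul 245 0,
  .mul 137 1,
  .mul 0 21,
  .sub 246 0,
  .mul 198 0,
  .sub 0 4,
  .inv 0,
  .mul 6 0,
  .sub 199 6,
  .inv 0,
  .mul 2 253,
  .scale ⟨549755813888, 0, 0, 0⟩ 0,
  .sub 255 0,
  .sub 256 2,
  .inv 0,
  .mul 2 0,
  .mul 256 6,
  .mul 120 10,
  .mul 0 2,
  .add 2 0,
  .mul 256 20,
  .mul 11 0,
  .mul 265 15,
  .mul 0 7,
  .mul 0 23,
  .add 3 0,
  .scale ⟨223338299392, 0, 0, 0⟩ 0,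
  .add 262 0,
  .mul 2 0,
  .add 272 0,
  .mul 10 0,
  .mul 0 32,
  .mul 0 40,
  .mul 117 253,
  .const ⟨5497558138880, 0, 0, 0⟩,
  .inv 0,
  .mul 226 0,
  .mul 139 256,
  .mul 0 1,
  .mul 152 181,
  .mul 261 0,
  .scale ⟨549755813888, 0, 0, 0⟩ 145,
  .sub 285 0,
  .sub 286 147,
  .inv 0,
  .mul 2 0,
  .mul 0 151,
  .mul 183 173,
  .scale ⟨733097230336, 0, 0, 0⟩ 0,
  .sub 292 0,
  .mul 176 0,
  .mul 205 205,
  .mul 283 0,
  .add 2 0,
  .mul 7 157,
  .add 1 298,
  .mul 1 0,
  .sub 3 0,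
  .scale ⟨366548615168, 0, 0, 0⟩ 256,
  .sub 302 0,
  .mul 277 0,
  .add 3 0,
  .mul 22 0,
  .mul 22 22,
  .add 307 0,
  .inv 0,
  .mul 3 0,
  .sub 310 59,
  .mul 0 1,
  .sub 312 14,
  .pos 0,
  .pos 3,
  .pos 2,
  .mul 38 160,
  .mul 0 86,
  .inv 291,
  .mul 1 0,
  .mul 313 5,
  .mul 320 0,
  .scale ⟨549755813888, 0, 0, 0⟩ 0,
  .sub 320 0,
  .mul 3 0,
  .neg 0,
  .mul 320 327,
  .mul 0 183,
  .mul 0 310,
  .mul 326 0,
  .add 4 0,
  .mul 5 1,
  .mul 331 0,
  .add 2 0,
  .mul 319 289,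
  .scale ⟨412316860416, 0, 0, 0⟩ 289,
  .sub 325 0,
  .mul 2 0,
  .mul 335 0,
  .neg 0,
  .add 6 0,
  .mul 7 1,
  .mul 341 0,
  .add 2 0,
  .mul 338 98,
  .mul 0 26,
  .mul 343 0,
  .add 3 0,
  .mul 4 1,
  .mul 348 0,
  .add 2 0,
  .mul 348 66,
  .sub 1 0,
  .mul 352 68,
  .add 351 0,
  .inv 0,
  .mul 3 0,
  .mul 351 345,
  .mul 0 112,
  .mul 0 103,
  .mul 357 0,
  .add 4 0,
  .mul 5 1,
  .mul 362 0,
  .add 2 0,
  .mul 364 0,
  .add 363 0,
  .mul 88 204,
  .mul 367 88,
  .mul 49 0,
  .add 2 0,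
  .mul 368 0,
  .add 93 52,
  .mul 370 0,
  .mul 2 7,
  .add 10 0,
  .add 0 2,
  .neg 0,
  .scale ⟨1073741824, 0, 0, 0⟩ 375,
  .sub 1 0,
  .sub 357 377,
  .add 0 322,
  .scale ⟨2199023255552, 0, 0, 0⟩ 99,
  .sub 1 0,
  .mul 240 0,
  .mul 4 2,
  .add 0 383,
  .inv 0,
  .mul 3 0,
  .mul 230 151,
  .scale ⟨549755813888, 0, 0, 0⟩ 235,
  .add 371 0,
  .mul 2 0,
  .scale ⟨2199023255552, 0, 0, 0⟩ 0,
  .add 161 0,
  .scale ⟨2199023255552, 0, 0, 0⟩ 0,
  .mul 0 151,
  .mul 385 151,
  .sub 371 0,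
  .inv 0,
  .mul 3 0,
  .sub 12 0,
  .mul 399 378,
  .mul 0 0,
  .const ⟨14293651161088, 0, 0, 0⟩,
  .const ⟨10995116277760, 0, 0, 0⟩,
  .inv 0,
  .mul 2 0,
  .mul 4 0,
  .mul 407 407,
  .scale ⟨27487790694400, 0, 0, 0⟩ 0,
  .add 2 0,
  .mul 127 56,
  .sub 370 412,
  .sub 0 372,
  .mul 412 409,
  .mul 0 414,
  .mul 390 179,
  .mul 0 261,
  .add 194 0,
  .add 22 361,
  .mul 418 0,
  .mul 10 9,
  .mul 178 1,
  .mul 7 4,
  .mul 1 0,
  .sub 3 0,
  .scale ⟨549755813888, 0, 0, 0⟩ 29,
  .add 425 0,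
  .mul 184 0,
  .mul 429 404,
  .mul 0 279,
  .mul 405 377,
  .inv 0,
  .mul 2 0,
  .mul 5 0,
  .sub 21 0,
  .mul 282 10,
  .sub 435 283,
  .mul 424 2,
  .mul 1 0,
  .mul 29 0,
  .add 4 0,
  .pos 279,
  .pos 276,
  .scale ⟨2199023255552, 0, 0, 0⟩ 201,
  .sub 389 0,
  .pos 0,
  .pos 193,
  .sub 434 303,
  .pos 0,
  .scale ⟨687194767360, 0, 0, 0⟩ 443,
  .sub 0 245,
  .pos 0,
  .scale ⟨377957122048, 0, 0, 0⟩ 445,
  .sub 0 251,
  .pos 0,
  .pos 51,
  .pos 190,
  .sub 3 178,
  .pos 0,
  .pos 49,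
  .pos 71,
  .pos 8,
  .pos 14]

def chk4 {α : Type} (cst : Z → α) (add sub mul : α → α → α) (scale : Z → α → α)
    (neg inv exp log : α → α) (ok : α → Bool) (isPos : Nat → α → Bool) (isLt : α → Nat → Bool) :
    List α → Bool
  | [x0, x1, x2, x3] =>
  let v0 := cst ⟨1099511627776, 0, 0, 0⟩; ok v0 && (
  let v1 := mul x1 x2; ok v1 && (
  let v2 := mul v1 x0; ok v2 && (
  let v3 := mul x2 v2; ok v3 && (
  let v4 := mul x2 x2; ok v4 && (
  let v5 := mul x1 v4; ok v5 && (
  let v6 := mul v2 v2; ok v6 && (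
  let v7 := mul x1 v5; ok v7 && (
  let v8 := cst ⟨549755813888, 0, 0, 0⟩; ok v8 && (
  let v9 := mul x1 v3; ok v9 && (
  let v10 := mul v9 x3; ok v10 && (
  let v11 := scale ⟨549755813888, 0, 0, 0⟩ v10; ok v11 && (
  let v12 := mul v3 v3; ok v12 && (
  let v13 := mul v11 v11; ok v13 && (
  let v14 := sub v0 v13; ok v14 && (
  let v15 := inv v14; ok v15 && (
  let v16 := mul v11 v15; ok v16 && (
  let v17 := scale ⟨2199023255552, 0, 0, 0⟩ v16; ok v17 && (
  let v18 := scale ⟨2199023255552, 0, 0, 0⟩ v15; ok v18 && (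
  let v19 := sub v18 v0; ok v19 && (
  let v20 := add v19 v17; ok v20 && (
  let v21 := mul x3 v15; ok v21 && (
  let v22 := mul v3 v21; ok v22 && (
  let v23 := sub v0 v22; ok v23 && (
  let v24 := add v0 v22; ok v24 && (
  let v25 := mul x1 v12; ok v25 && (
  let v26 := mul v21 v21; ok v26 && (
  let v27 := scale ⟨10774999203840, 0, 0, 0⟩ v11; ok v27 && (
  let v28 := scale ⟨45768245248, 0, 0, 0⟩ v27; ok v28 && (
  let v29 := cst ⟨183207198720, 0, 0, 0⟩; ok v29 && (
  let v30 := add v28 v29; ok v30 && (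
  let v31 := mul v27 v30; ok v31 && (
  let v32 := add v8 v31; ok v32 && (
  let v33 := mul v27 v32; ok v33 && (
  let v34 := add v0 v33; ok v34 && (
  let v35 := mul v27 v34; ok v35 && (
  let v36 := scale ⟨549755813888, 0, 0, 0⟩ v35; ok v36 && (
  let v37 := add v0 v36; ok v37 && (
  let v38 := mul v34 v37; ok v38 && (
  let v39 := mul v17 v22; ok v39 && (
  let v40 := scale ⟨2199023255552, 0, 0, 0⟩ v19; ok v40 && (
  let v41 := add v39 v40; ok v41 && (
  let v42 := add v41 x1; ok v42 && (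
  let v43 := mul v25 v42; ok v43 && (
  let v44 := add v43 v0; ok v44 && (
  let v45 := mul v17 v17; ok v45 && (
  let v46 := scale ⟨2199023255552, 0, 0, 0⟩ v45; ok v46 && (
  let v47 := add v46 v0; ok v47 && (
  let v48 := mul v19 v42; ok v48 && (
  let v49 := sub v48 v0; ok v49 && (
  let v50 := log v44; ok v50 && (
  let v51 := scale ⟨549755813888, 0, 0, 0⟩ v50; ok v51 && (
  let v52 := exp v51; ok v52 && (
  let v53 := cst ⟨3298534883328, 0, 0, 0⟩; ok v53 && (
  let v54 := inv v53; ok v54 && (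
  let v55 := mul v0 v54; ok v55 && (
  let v56 := cst ⟨2199023255552, 0, 0, 0⟩; ok v56 && (
  let v57 := add v43 v56; ok v57 && (
  let v58 := inv v57; ok v58 && (
  let v59 := mul v43 v58; ok v59 && (
  let v60 := mul v59 v59; ok v60 && (
  let v61 := sub v0 v59; ok v61 && (
  let v62 := mul v60 v55; ok v62 && (
  let v63 := add v0 v62; ok v63 && (
  let v64 := mul v61 v63; ok v64 && (
  let v65 := mul v60 v60; ok v65 && (
  let v66 := scale ⟨219915747328, 0, 0, 0⟩ v65; ok v66 && (
  let v67 := mul v42 v64; ok v67 && (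
  let v68 := scale ⟨549755813888, 0, 0, 0⟩ v67; ok v68 && (
  let v69 := mul v42 v66; ok v69 && (
  let v70 := scale ⟨549755813888, 0, 0, 0⟩ v69; ok v70 && (
  let v71 := add v68 v70; ok v71 && (
  let v72 := mul v19 v49; ok v72 && (
  let v73 := scale ⟨4398046511104, 0, 0, 0⟩ v72; ok v73 && (
  let v74 := mul v19 v25; ok v74 && (
  let v75 := mul v74 v49; ok v75 && (
  let v76 := scale ⟨4398046511104, 0, 0, 0⟩ v75; ok v76 && (
  let v77 := add v76 v56; ok v77 && (
  let v78 := inv v77; ok v78 && (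
  let v79 := mul v76 v78; ok v79 && (
  let v80 := mul v79 v79; ok v80 && (
  let v81 := sub v0 v79; ok v81 && (
  let v82 := mul v80 v55; ok v82 && (
  let v83 := add v0 v82; ok v83 && (
  let v84 := mul v81 v83; ok v84 && (
  let v85 := mul v80 v80; ok v85 && (
  let v86 := scale ⟨219915747328, 0, 0, 0⟩ v85; ok v86 && (
  let v87 := mul v73 v84; ok v87 && (
  let v88 := scale ⟨549755813888, 0, 0, 0⟩ v87; ok v88 && (
  let v89 := sub v88 v71; ok v89 && (
  let v90 := mul v73 v86; ok v90 && (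
  let v91 := scale ⟨549755813888, 0, 0, 0⟩ v90; ok v91 && (
  let v92 := add v91 v70; ok v92 && (
  let v93 := add v89 v92; ok v93 && (
  let v94 := mul v5 v68; ok v94 && (
  let v95 := neg v94; ok v95 && (
  let v96 := exp v95; ok v96 && (
  let v97 := mul v5 v70; ok v97 && (
  let v98 := mul v96 v97; ok v98 && (
  let v99 := mul v22 v17; ok v99 && (
  let v100 := add v19 v99; ok v100 && (
  let v101 := inv v100; ok v101 && (
  let v102 := mul v24 v101; ok v102 && (
  let v103 := mul v23 x1; ok v103 && (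
  let v104 := mul v103 v102; ok v104 && (
  let v105 := sub v0 v12; ok v105 && (
  let v106 := mul v26 v105; ok v106 && (
  let v107 := mul v9 v9; ok v107 && (
  let v108 := sub v0 v26; ok v108 && (
  let v109 := mul v105 v108; ok v109 && (
  let v110 := mul v25 v49; ok v110 && (
  let v111 := inv v44; ok v111 && (
  let v112 := mul v110 v111; ok v112 && (
  let v113 := add v19 v112; ok v113 && (
  let v114 := mul v44 v113; ok v114 && (
  let v115 := mul v114 v114; ok v115 && (
  let v116 := inv v115; ok v116 && (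
  let v117 := mul v109 v116; ok v117 && (
  let v118 := mul v104 v0; ok v118 && (
  let v119 := scale ⟨549755813888, 0, 0, 0⟩ v118; ok v119 && (
  let v120 := sub v0 v119; ok v120 && (
  let v121 := sub v0 v118; ok v121 && (
  let v122 := inv v121; ok v122 && (
  let v123 := mul v120 v122; ok v123 && (
  let v124 := add v118 v0; ok v124 && (
  let v125 := mul v96 v124; ok v125 && (
  let v126 := mul v102 v123; ok v126 && (
  let v127 := mul v126 v0; ok v127 && (
  let v128 := mul v118 v123; ok v128 && (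
  isPos 4 v121 && (
  let v129 := mul v23 v24; ok v129 && (
  let v130 := add v19 x1; ok v130 && (
  let v131 := mul v22 v19; ok v131 && (
  let v132 := mul v131 v17; ok v132 && (
  let v133 := scale ⟨2199023255552, 0, 0, 0⟩ v132; ok v133 && (
  let v134 := add v47 v133; ok v134 && (
  let v135 := mul v130 v134; ok v135 && (
  let v136 := inv v135; ok v136 && (
  let v137 := mul v129 v136; ok v137 && (
  let v138 := mul x1 v137; ok v138 && (
  isPos 4 v89 && (
  let v139 := mul v138 v0; ok v139 && (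
  let v140 := mul v0 x0; ok v140 && (
  let v141 := add v11 v0; ok v141 && (
  let v142 := inv v141; ok v142 && (
  let v143 := mul v11 v142; ok v143 && (
  let v144 := scale ⟨2199023255552, 0, 0, 0⟩ v143; ok v144 && (
  let v145 := sub v0 v144; ok v145 && (
  let v146 := sub v0 v11; ok v146 && (
  let v147 := mul x3 v142; ok v147 && (
  let v148 := mul v147 v145; ok v148 && (
  let v149 := add v24 v148; ok v149 && (
  let v150 := scale ⟨224412041216, 0, 0, 0⟩ v15; ok v150 && (
  let v151 := inv v38; ok v151 && (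
  let v152 := mul v150 v151; ok v152 && (
  let v153 := scale ⟨5497558138880, 0, 0, 0⟩ x0; ok v153 && (
  let v154 := inv v153; ok v154 && (
  let v155 := mul v0 v154; ok v155 && (
  let v156 := mul x0 v154; ok v156 && (
  let v157 := mul v156 v24; ok v157 && (
  let v158 := mul v157 v152; ok v158 && (
  let v159 := mul v155 v24; ok v159 && (
  let v160 := mul v159 v152; ok v160 && (
  let v161 := sub v0 v160; ok v161 && (
  let v162 := inv v161; ok v162 && (
  let v163 := mul v125 v160; ok v163 && (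
  let v164 := sub v0 v163; ok v164 && (
  let v165 := inv v164; ok v165 && (
  let v166 := scale ⟨2199023255552, 0, 0, 0⟩ v6; ok v166 && (
  let v167 := add v166 v0; ok v167 && (
  let v168 := add v6 v0; ok v168 && (
  let v169 := scale ⟨3573412790272, 0, 0, 0⟩ v22; ok v169 && (
  let v170 := cst ⟨339302416384, 0, 0, 0⟩; ok v170 && (
  let v171 := add v169 v170; ok v171 && (
  let v172 := scale ⟨549755813888, 0, 0, 0⟩ v171; ok v172 && (
  let v173 := mul v11 v21; ok v173 && (
  let v174 := sub v0 v106; ok v174 && (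
  let v175 := mul v11 v22; ok v175 && (
  let v176 := scale ⟨2199023255552, 0, 0, 0⟩ v175; ok v176 && (
  let v177 := sub v174 v176; ok v177 && (
  let v178 := mul v173 v173; ok v178 && (
  let v179 := add v177 v178; ok v179 && (
  let v180 := add v179 v0; ok v180 && (
  let v181 := scale ⟨549755813888, 0, 0, 0⟩ v180; ok v181 && (
  let v182 := scale ⟨549755813888, 0, 0, 0⟩ v25; ok v182 && (
  let v183 := sub v15 v182; ok v183 && (
  let v184 := mul v107 v174; ok v184 && (
  let v185 := mul v184 v14; ok v185 && (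
  let v186 := scale ⟨137438953472, 0, 0, 0⟩ v185; ok v186 && (
  let v187 := add v183 v186; ok v187 && (
  let v188 := mul v181 v187; ok v188 && (
  let v189 := add v125 v0; ok v189 && (
  let v190 := mul v189 v162; ok v190 && (
  let v191 := mul v125 v165; ok v191 && (
  let v192 := add v190 v191; ok v192 && (
  let v193 := mul v160 v192; ok v193 && (
  let v194 := add v128 v193; ok v194 && (
  let v195 := mul v194 v6; ok v195 && (
  let v196 := mul v189 v160; ok v196 && (
  let v197 := mul v196 v162; ok v197 && (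
  let v198 := add v128 v197; ok v198 && (
  let v199 := mul v198 v6; ok v199 && (
  let v200 := scale ⟨223338299392, 0, 0, 0⟩ v199; ok v200 && (
  let v201 := add v8 v200; ok v201 && (
  let v202 := mul v199 v201; ok v202 && (
  let v203 := add v0 v202; ok v203 && (
  let v204 := scale ⟨893353197568, 0, 0, 0⟩ v195; ok v204 && (
  let v205 := add v0 v204; ok v205 && (
  let v206 := mul v195 v205; ok v206 && (
  let v207 := add v0 v206; ok v207 && (
  let v208 := mul v144 v147; ok v208 && (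
  let v209 := mul v208 v167; ok v209 && (
  let v210 := mul v209 v207; ok v210 && (
  let v211 := mul v188 v203; ok v211 && (
  let v212 := add v52 v8; ok v212 && (
  let v213 := mul v210 v212; ok v213 && (
  let v214 := add v211 v213; ok v214 && (
  let v215 := add v52 v0; ok v215 && (
  let v216 := mul v210 v215; ok v216 && (
  let v217 := mul v168 v215; ok v217 && (
  let v218 := mul v217 v147; ok v218 && (
  let v219 := mul v218 v146; ok v219 && (
  let v220 := mul v214 v127; ok v220 && (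
  let v221 := mul v219 v172; ok v221 && (
  let v222 := add v220 v221; ok v222 && (
  let v223 := mul v5 v149; ok v223 && (
  let v224 := inv v52; ok v224 && (
  let v225 := mul v223 v224; ok v225 && (
  let v226 := scale ⟨549755813888, 0, 0, 0⟩ v225; ok v226 && (
  let v227 := mul v23 v226; ok v227 && (
  let v228 := add v227 v222; ok v228 && (
  let v229 := mul x1 v228; ok v229 && (
  let v230 := mul x0 v229; ok v230 && (
  let v231 := mul v214 v189; ok v231 && (
  let v232 := mul v231 v162; ok v232 && (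
  let v233 := mul v216 v125; ok v233 && (
  let v234 := mul v233 v165; ok v234 && (
  let v235 := add v232 v234; ok v235 && (
  let v236 := mul v23 v230; ok v236 && (
  let v237 := mul v158 v235; ok v237 && (
  let v238 := add v236 v237; ok v238 && (
  let v239 := mul v107 v238; ok v239 && (
  let v240 := mul v239 v224; ok v240 && (
  let v241 := sub v0 v240; ok v241 && (
  let v242 := inv v241; ok v242 && (
  let v243 := mul v238 v242; ok v243 && (
  let v244 := mul x1 v243; ok v244 && (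
  let v245 := mul v107 v243; ok v245 && (
  let v246 := mul v245 v224; ok v246 && (
  let v247 := sub v0 v246; ok v247 && (
  let v248 := mul v49 v247; ok v248 && (
  let v249 := sub v248 v244; ok v249 && (
  let v250 := inv v249; ok v250 && (
  let v251 := mul v244 v250; ok v251 && (
  let v252 := sub v52 v245; ok v252 && (
  let v253 := inv v252; ok v253 && (
  let v254 := mul v251 v0; ok v254 && (
  let v255 := scale ⟨549755813888, 0, 0, 0⟩ v254; ok v255 && (
  let v256 := sub v0 v255; ok v256 && (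
  let v257 := sub v0 v254; ok v257 && (
  let v258 := inv v257; ok v258 && (
  let v259 := mul v256 v258; ok v259 && (
  let v260 := mul v3 v253; ok v260 && (
  let v261 := mul v140 v250; ok v261 && (
  let v262 := mul v261 v259; ok v262 && (
  let v263 := add v260 v262; ok v263 && (
  let v264 := mul v7 v243; ok v264 && (
  let v265 := mul v253 v264; ok v265 && (
  let v266 := mul v0 v250; ok v266 && (
  let v267 := mul v266 v259; ok v267 && (
  let v268 := mul v267 v244; ok v268 && (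
  let v269 := add v265 v268; ok v269 && (
  let v270 := scale ⟨223338299392, 0, 0, 0⟩ v269; ok v270 && (
  let v271 := add v8 v270; ok v271 && (
  let v272 := mul v269 v271; ok v272 && (
  let v273 := add v0 v272; ok v273 && (
  let v274 := mul v263 v273; ok v274 && (
  let v275 := mul v274 v242; ok v275 && (
  let v276 := mul v275 v235; ok v276 && (
  let v277 := mul v159 v23; ok v277 && (
  let v278 := cst ⟨5497558138880, 0, 0, 0⟩; ok v278 && (
  let v279 := inv v278; ok v279 && (
  let v280 := mul v53 v279; ok v280 && (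
  let v281 := mul v141 v24; ok v281 && (
  let v282 := mul v281 v280; ok v282 && (
  let v283 := mul v130 v101; ok v283 && (
  let v284 := mul v22 v283; ok v284 && (
  let v285 := scale ⟨549755813888, 0, 0, 0⟩ v139; ok v285 && (
  let v286 := sub v0 v285; ok v286 && (
  let v287 := sub v0 v139; ok v287 && (
  let v288 := inv v287; ok v288 && (
  let v289 := mul v286 v288; ok v289 && (
  let v290 := mul v289 v138; ok v290 && (
  let v291 := mul v107 v117; ok v291 && (
  let v292 := scale ⟨733097230336, 0, 0, 0⟩ v291; ok v292 && (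
  let v293 := sub v0 v292; ok v293 && (
  let v294 := mul v117 v293; ok v294 && (
  let v295 := mul v89 v89; ok v295 && (
  let v296 := mul v12 v295; ok v296 && (
  let v297 := add v294 v296; ok v297 && (
  let v298 := mul v290 v140; ok v298 && (
  let v299 := add v297 v0; ok v299 && (
  let v300 := mul v298 v299; ok v300 && (
  let v301 := sub v297 v300; ok v301 && (
  let v302 := scale ⟨366548615168, 0, 0, 0⟩ v45; ok v302 && (
  let v303 := sub v0 v302; ok v303 && (
  let v304 := mul v26 v303; ok v304 && (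
  let v305 := add v301 v304; ok v305 && (
  let v306 := mul v283 v305; ok v306 && (
  let v307 := mul v284 v284; ok v307 && (
  let v308 := add v0 v307; ok v308 && (
  let v309 := inv v308; ok v309 && (
  let v310 := mul v306 v309; ok v310 && (
  let v311 := sub v0 v251; ok v311 && (
  let v312 := mul v311 v310; ok v312 && (
  let v313 := sub v0 v298; ok v313 && (
  isPos 4 v313 && (
  isPos 4 v310 && (
  isPos 4 v311 && (
  let v314 := mul v275 v153; ok v314 && (
  let v315 := mul v314 v228; ok v315 && (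
  let v316 := inv v24; ok v316 && (
  let v317 := mul v315 v316; ok v317 && (
  let v318 := mul v4 v312; ok v318 && (
  let v319 := mul x1 v318; ok v319 && (
  let v320 := scale ⟨549755813888, 0, 0, 0⟩ v319; ok v320 && (
  let v321 := sub v0 v320; ok v321 && (
  let v322 := mul v318 v321; ok v322 && (
  let v323 := neg v322; ok v323 && (
  let v324 := mul v3 x3; ok v324 && (
  let v325 := mul v324 v141; ok v325 && (
  let v326 := mul v325 v15; ok v326 && (
  let v327 := mul v0 v326; ok v327 && (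
  let v328 := add v323 v327; ok v328 && (
  let v329 := mul v323 v327; ok v329 && (
  let v330 := mul x1 v329; ok v330 && (
  let v331 := add v328 v330; ok v331 && (
  let v332 := mul v12 v42; ok v332 && (
  let v333 := scale ⟨412316860416, 0, 0, 0⟩ v43; ok v333 && (
  let v334 := sub v8 v333; ok v334 && (
  let v335 := mul v332 v334; ok v335 && (
  let v336 := mul v0 v335; ok v336 && (
  let v337 := neg v336; ok v337 && (
  let v338 := add v331 v337; ok v338 && (
  let v339 := mul v331 v337; ok v339 && (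
  let v340 := mul x1 v339; ok v340 && (
  let v341 := add v338 v340; ok v341 && (
  let v342 := mul v3 v243; ok v342 && (
  let v343 := mul v342 v316; ok v343 && (
  let v344 := mul v0 v343; ok v344 && (
  let v345 := add v341 v344; ok v345 && (
  let v346 := mul v341 v344; ok v346 && (
  let v347 := mul x1 v346; ok v347 && (
  let v348 := add v345 v347; ok v348 && (
  let v349 := mul v0 v282; ok v349 && (
  let v350 := sub v348 v349; ok v350 && (
  let v351 := mul x1 v282; ok v351 && (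
  let v352 := add v0 v351; ok v352 && (
  let v353 := inv v352; ok v353 && (
  let v354 := mul v350 v353; ok v354 && (
  let v355 := mul v3 v9; ok v355 && (
  let v356 := mul v355 v243; ok v356 && (
  let v357 := mul v356 v253; ok v357 && (
  let v358 := mul v0 v357; ok v358 && (
  let v359 := add v354 v358; ok v359 && (
  let v360 := mul v354 v358; ok v360 && (
  let v361 := mul x1 v360; ok v361 && (
  let v362 := add v359 v361; ok v362 && (
  let v363 := mul x1 v362; ok v363 && (
  let v364 := add v0 v363; ok v364 && (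
  let v365 := mul v276 v160; ok v365 && (
  let v366 := mul x1 v277; ok v366 && (
  let v367 := mul v317 v366; ok v367 && (
  let v368 := add v365 v367; ok v368 && (
  let v369 := mul v0 v368; ok v369 && (
  let v370 := add v276 v317; ok v370 && (
  let v371 := mul v0 v370; ok v371 && (
  let v372 := mul v369 v364; ok v372 && (
  let v373 := add v362 v372; ok v373 && (
  let v374 := add v373 v371; ok v374 && (
  let v375 := neg v374; ok v375 && (
  let v376 := scale ⟨1073741824, 0, 0, 0⟩ v0; ok v376 && (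
  let v377 := sub v375 v376; ok v377 && (
  let v378 := sub v20 v0; ok v378 && (
  let v379 := add v378 v56; ok v379 && (
  let v380 := scale ⟨2199023255552, 0, 0, 0⟩ v280; ok v380 && (
  let v381 := sub v379 v380; ok v381 && (
  let v382 := mul v141 v381; ok v382 && (
  let v383 := mul v378 v380; ok v383 && (
  let v384 := add v383 v0; ok v384 && (
  let v385 := inv v384; ok v385 && (
  let v386 := mul v382 v385; ok v386 && (
  let v387 := mul v156 v235; ok v387 && (
  let v388 := scale ⟨549755813888, 0, 0, 0⟩ v152; ok v388 && (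
  let v389 := add v17 v388; ok v389 && (
  let v390 := mul v387 v389; ok v390 && (
  let v391 := scale ⟨2199023255552, 0, 0, 0⟩ v390; ok v391 && (
  let v392 := add v230 v391; ok v392 && (
  let v393 := scale ⟨2199023255552, 0, 0, 0⟩ v392; ok v393 && (
  let v394 := mul v393 v242; ok v394 && (
  let v395 := mul v9 v243; ok v395 && (
  let v396 := sub v24 v395; ok v396 && (
  let v397 := inv v396; ok v397 && (
  let v398 := mul v394 v397; ok v398 && (
  let v399 := sub v386 v398; ok v399 && (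
  let v400 := mul v0 v21; ok v400 && (
  let v401 := mul v400 v400; ok v401 && (
  let v402 := cst ⟨14293651161088, 0, 0, 0⟩; ok v402 && (
  let v403 := cst ⟨10995116277760, 0, 0, 0⟩; ok v403 && (
  let v404 := inv v403; ok v404 && (
  let v405 := mul v402 v404; ok v405 && (
  let v406 := mul v401 v405; ok v406 && (
  let v407 := mul x0 x0; ok v407 && (
  let v408 := scale ⟨27487790694400, 0, 0, 0⟩ v407; ok v408 && (
  let v409 := add v406 v408; ok v409 && (
  let v410 := mul v282 v353; ok v410 && (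
  let v411 := sub v40 x1; ok v411 && (
  let v412 := sub v411 v39; ok v412 && (
  let v413 := mul v0 v3; ok v413 && (
  let v414 := mul v413 x0; ok v414 && (
  let v415 := mul v24 v235; ok v415 && (
  let v416 := mul v415 v154; ok v416 && (
  let v417 := add v222 v416; ok v417 && (
  let v418 := add v395 v56; ok v418 && (
  let v419 := mul v0 v418; ok v419 && (
  let v420 := mul v409 v410; ok v420 && (
  let v421 := mul v242 v419; ok v421 && (
  let v422 := mul v414 v417; ok v422 && (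
  let v423 := mul v421 v422; ok v423 && (
  let v424 := sub v420 v423; ok v424 && (
  let v425 := scale ⟨549755813888, 0, 0, 0⟩ v395; ok v425 && (
  let v426 := add v0 v425; ok v426 && (
  let v427 := mul v242 v426; ok v427 && (
  let v428 := mul x1 v23; ok v428 && (
  let v429 := mul v428 v149; ok v429 && (
  let v430 := mul v24 v52; ok v430 && (
  let v431 := inv v430; ok v431 && (
  let v432 := mul v429 v431; ok v432 && (
  let v433 := mul v427 v432; ok v433 && (
  let v434 := sub v412 v433; ok v434 && (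
  let v435 := mul v152 v424; ok v435 && (
  let v436 := sub v0 v152; ok v436 && (
  let v437 := mul v12 v434; ok v437 && (
  let v438 := mul v436 v437; ok v438 && (
  let v439 := mul v409 v438; ok v439 && (
  let v440 := add v435 v439; ok v440 && (
  isPos 4 v161 && (
  isPos 4 v164 && (
  let v441 := scale ⟨2199023255552, 0, 0, 0⟩ v239; ok v441 && (
  let v442 := sub v52 v441; ok v442 && (
  isPos 4 v442 && (
  isPos 4 v249 && (
  let v443 := sub v8 v139; ok v443 && (
  isPos 4 v443 && (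
  let v444 := scale ⟨687194767360, 0, 0, 0⟩ v0; ok v444 && (
  let v445 := sub v444 v199; ok v445 && (
  isPos 4 v445 && (
  let v446 := scale ⟨377957122048, 0, 0, 0⟩ v0; ok v446 && (
  let v447 := sub v446 v195; ok v447 && (
  isPos 4 v447 && (
  isPos 4 v396 && (
  isPos 4 v257 && (
  let v448 := sub v444 v269; ok v448 && (
  isPos 4 v448 && (
  isPos 4 v399 && (
  isPos 4 v377 && (
  isPos 4 v440 && (
  isPos 4 v434 && (
  true))))))))))))))))))))))))))))))))))))))))))))))))))))))))))))))))))))))))))))))))))))))))))))))))))))))))))))))))))))))))))))))))))))))))))))))))))))))))))))))))))))))))))))))))))))))))))))))))))))))))))))))))))))))))))))))))))))))))))))))))))))))))))))))))))))))))))))))))))))))))))))))))))))))))))))))))))))))))))))))))))))))))))))))))))))))))))))))))))))))))))))))))))))))))))))))))))))))))))))))))))))))))))))))))))))))))))))))))))))))))))))))))))))))))))))))))))))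
  | _ => false

set_option maxRecDepth 1000000 in
theorem chk4_eq (O : Ops) (m : List O.α)
    (h : chk4 O.cst O.add O.sub O.mul O.scale O.neg O.inv O.exp O.log O.ok O.isPos O.isLt m = true) :
    runG O 4 prog4 m = true := by
  match m, h with
  | [x0, x1, x2, x3], h => exact h

def chkB4 : List opsE.α → Bool :=
  chk4 opsE.cst opsE.add opsE.sub opsE.mul opsE.scale opsE.neg opsE.inv opsE.exp opsE.log opsE.ok opsE.isPos opsE.isLt

theorem chkB4_eq (m : List opsE.α) (h : chkB4 m = true) : runG opsE 4 prog4 m = true :=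
  chk4_eq opsE m h

def prog5 : List Op := [
  .const ⟨1099511627776, 0, 0, 0⟩,
  .mul 2 3,
  .mul 0 2,
  .mul 5 0,
  .mul 6 6,
  .mul 6 0,
  .mul 3 3,
  .mul 8 1,
  .const ⟨549755813888, 0, 0, 0⟩,
  .mul 10 5,
  .mul 0 13,
  .scale ⟨549755813888, 0, 0, 0⟩ 0,
  .mul 8 8,
  .mul 1 1,
  .sub 13 0,
  .inv 0,
  .mul 4 0,
  .scale ⟨2199023255552, 0, 0, 0⟩ 0,
  .scale ⟨2199023255552, 0, 0, 0⟩ 2,
  .sub 0 18,
  .add 0 2,
  .mul 24 5,
  .mul 18 0,
  .sub 22 0,
  .add 23 1,
  .mul 26 12,
  .mul 4 4,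
  .scale ⟨10774999203840, 0, 0, 0⟩ 15,
  .scale ⟨45768245248, 0, 0, 0⟩ 0,
  .const ⟨183207198720, 0, 0, 0⟩,
  .add 1 0,
  .mul 3 0,
  .add 23 0,
  .mul 5 0,
  .add 33 0,
  .mul 7 0,
  .scale ⟨549755813888, 0, 0, 0⟩ 0,
  .add 36 0,
  .mul 3 0,
  .scale ⟨224412041216, 0, 0, 0⟩ 23,
  .inv 1,
  .mul 1 0,
  .sub 43 24,
  .sub 0 1,
  .pos 0]

def chk5 {α : Type} (cst : Z → α) (add sub mul : α → α → α) (scale : Z → α → α)
    (neg inv exp log : α → α) (ok : α → Bool) (isPos : Nat → α → Bool) (isLt : α → Nat → Bool) :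
    List α → Bool
  | [x0, x1, x2, x3] =>
  let v0 := cst ⟨1099511627776, 0, 0, 0⟩; ok v0 && (
  let v1 := mul x1 x2; ok v1 && (
  let v2 := mul v1 x0; ok v2 && (
  let v3 := mul x2 v2; ok v3 && (
  let v4 := mul x2 x2; ok v4 && (
  let v5 := mul x1 v4; ok v5 && (
  let v6 := mul v2 v2; ok v6 && (
  let v7 := mul x1 v5; ok v7 && (
  let v8 := cst ⟨549755813888, 0, 0, 0⟩; ok v8 && (
  let v9 := mul x1 v3; ok v9 && (
  let v10 := mul v9 x3; ok v10 && (
  let v11 := scale ⟨549755813888, 0, 0, 0⟩ v10; ok v11 && (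
  let v12 := mul v3 v3; ok v12 && (
  let v13 := mul v11 v11; ok v13 && (
  let v14 := sub v0 v13; ok v14 && (
  let v15 := inv v14; ok v15 && (
  let v16 := mul v11 v15; ok v16 && (
  let v17 := scale ⟨2199023255552, 0, 0, 0⟩ v16; ok v17 && (
  let v18 := scale ⟨2199023255552, 0, 0, 0⟩ v15; ok v18 && (
  let v19 := sub v18 v0; ok v19 && (
  let v20 := add v19 v17; ok v20 && (
  let v21 := mul x3 v15; ok v21 && (
  let v22 := mul v3 v21; ok v22 && (
  let v23 := sub v0 v22; ok v23 && (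
  let v24 := add v0 v22; ok v24 && (
  let v25 := mul x1 v12; ok v25 && (
  let v26 := mul v21 v21; ok v26 && (
  let v27 := scale ⟨10774999203840, 0, 0, 0⟩ v11; ok v27 && (
  let v28 := scale ⟨45768245248, 0, 0, 0⟩ v27; ok v28 && (
  let v29 := cst ⟨183207198720, 0, 0, 0⟩; ok v29 && (
  let v30 := add v28 v29; ok v30 && (
  let v31 := mul v27 v30; ok v31 && (
  let v32 := add v8 v31; ok v32 && (
  let v33 := mul v27 v32; ok v33 && (
  let v34 := add v0 v33; ok v34 && (
  let v35 := mul v27 v34; ok v35 && (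
  let v36 := scale ⟨549755813888, 0, 0, 0⟩ v35; ok v36 && (
  let v37 := add v0 v36; ok v37 && (
  let v38 := mul v34 v37; ok v38 && (
  let v39 := scale ⟨224412041216, 0, 0, 0⟩ v15; ok v39 && (
  let v40 := inv v38; ok v40 && (
  let v41 := mul v39 v40; ok v41 && (
  let v42 := sub x1 v17; ok v42 && (
  let v43 := sub v42 v41; ok v43 && (
  isPos 4 v43 && (
  true)))))))))))))))))))))))))))))))))))))))))))))
  | _ => false

set_option maxRecDepth 1000000 in
theorem chk5_eq (O : Ops) (m : List O.α)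
    (h : chk5 O.cst O.add O.sub O.mul O.scale O.neg O.inv O.exp O.log O.ok O.isPos O.isLt m = true) :
    runG O 4 prog5 m = true := by
  match m, h with
  | [x0, x1, x2, x3], h => exact h

def chkB5 : List opsE.α → Bool :=
  chk5 opsE.cst opsE.add opsE.sub opsE.mul opsE.scale opsE.neg opsE.inv opsE.exp opsE.log opsE.ok opsE.isPos opsE.isLt

theorem chkB5_eq (m : List opsE.α) (h : chkB5 m = true) : runG opsE 4 prog5 m = true :=
  chk5_eq opsE m h

def prog6 : List Op := [
  .const ⟨1099511627776, 0, 0, 0⟩,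
  .mul 2 3,
  .mul 0 2,
  .mul 5 0,
  .mul 6 6,
  .mul 6 0,
  .mul 3 3,
  .mul 8 1,
  .const ⟨549755813888, 0, 0, 0⟩,
  .mul 10 5,
  .mul 0 13,
  .scale ⟨549755813888, 0, 0, 0⟩ 0,
  .mul 8 8,
  .mul 1 1,
  .sub 13 0,
  .inv 0,
  .mul 4 0,
  .scale ⟨2199023255552, 0, 0, 0⟩ 0,
  .scale ⟨2199023255552, 0, 0, 0⟩ 2,
  .sub 0 18,
  .add 0 2,
  .mul 24 5,
  .mul 18 0,
  .sub 22 0,
  .add 23 1,
  .mul 26 12,
  .mul 4 4,
  .scale ⟨2199023255552, 0, 0, 0⟩ 7,
  .sub 0 29,
  .mul 11 6,
  .sub 1 0,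
  .mul 30 9,
  .mul 0 0,
  .const ⟨14293651161088, 0, 0, 0⟩,
  .const ⟨10995116277760, 0, 0, 0⟩,
  .inv 0,
  .mul 2 0,
  .mul 4 0,
  .mul 38 38,
  .scale ⟨27487790694400, 0, 0, 0⟩ 0,
  .add 2 0,
  .mul 40 40,
  .mul 18 17,
  .mul 1 0,
  .mul 45 20,
  .sub 44 0,
  .mul 20 15,
  .sub 46 0,
  .mul 2 0,
  .mul 8 0,
  .sub 6 0,
  .pos 0]

def chk6 {α : Type} (cst : Z → α) (add sub mul : α → α → α) (scale : Z → α → α)
    (neg inv exp log : α → α) (ok : α → Bool) (isPos : Nat → α → Bool) (isLt : α → Nat → Bool) :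
    List α → Bool
  | [x0, x1, x2, x3] =>
  let v0 := cst ⟨1099511627776, 0, 0, 0⟩; ok v0 && (
  let v1 := mul x1 x2; ok v1 && (
  let v2 := mul v1 x0; ok v2 && (
  let v3 := mul x2 v2; ok v3 && (
  let v4 := mul x2 x2; ok v4 && (
  let v5 := mul x1 v4; ok v5 && (
  let v6 := mul v2 v2; ok v6 && (
  let v7 := mul x1 v5; ok v7 && (
  let v8 := cst ⟨549755813888, 0, 0, 0⟩; ok v8 && (
  let v9 := mul x1 v3; ok v9 && (
  let v10 := mul v9 x3; ok v10 && (
  let v11 := scale ⟨549755813888, 0, 0, 0⟩ v10; ok v11 && (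
  let v12 := mul v3 v3; ok v12 && (
  let v13 := mul v11 v11; ok v13 && (
  let v14 := sub v0 v13; ok v14 && (
  let v15 := inv v14; ok v15 && (
  let v16 := mul v11 v15; ok v16 && (
  let v17 := scale ⟨2199023255552, 0, 0, 0⟩ v16; ok v17 && (
  let v18 := scale ⟨2199023255552, 0, 0, 0⟩ v15; ok v18 && (
  let v19 := sub v18 v0; ok v19 && (
  let v20 := add v19 v17; ok v20 && (
  let v21 := mul x3 v15; ok v21 && (
  let v22 := mul v3 v21; ok v22 && (
  let v23 := sub v0 v22; ok v23 && (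
  let v24 := add v0 v22; ok v24 && (
  let v25 := mul x1 v12; ok v25 && (
  let v26 := mul v21 v21; ok v26 && (
  let v27 := scale ⟨2199023255552, 0, 0, 0⟩ v19; ok v27 && (
  let v28 := sub v27 x1; ok v28 && (
  let v29 := mul v17 v22; ok v29 && (
  let v30 := sub v28 v29; ok v30 && (
  let v31 := mul v0 v21; ok v31 && (
  let v32 := mul v31 v31; ok v32 && (
  let v33 := cst ⟨14293651161088, 0, 0, 0⟩; ok v33 && (
  let v34 := cst ⟨10995116277760, 0, 0, 0⟩; ok v34 && (
  let v35 := inv v34; ok v35 && (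
  let v36 := mul v33 v35; ok v36 && (
  let v37 := mul v32 v36; ok v37 && (
  let v38 := mul x0 x0; ok v38 && (
  let v39 := scale ⟨27487790694400, 0, 0, 0⟩ v38; ok v39 && (
  let v40 := add v37 v39; ok v40 && (
  let v41 := mul v0 v0; ok v41 && (
  let v42 := mul v23 v24; ok v42 && (
  let v43 := mul v41 v42; ok v43 && (
  let v44 := mul x1 v23; ok v44 && (
  let v45 := sub v0 v44; ok v45 && (
  let v46 := mul v25 v30; ok v46 && (
  let v47 := sub v0 v46; ok v47 && (
  let v48 := mul v45 v47; ok v48 && (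
  let v49 := mul v40 v48; ok v49 && (
  let v50 := sub v43 v49; ok v50 && (
  isPos 4 v50 && (
  true))))))))))))))))))))))))))))))))))))))))))))))))))))
  | _ => false

set_option maxRecDepth 1000000 in
theorem chk6_eq (O : Ops) (m : List O.α)
    (h : chk6 O.cst O.add O.sub O.mul O.scale O.neg O.inv O.exp O.log O.ok O.isPos O.isLt m = true) :
    runG O 4 prog6 m = true := by
  match m, h with
  | [x0, x1, x2, x3], h => exact h

def chkB6 : List opsE.α → Bool :=
  chk6 opsE.cst opsE.add opsE.sub opsE.mul opsE.scale opsE.neg opsE.inv opsE.exp opsE.log opsE.ok opsE.isPos opsE.isLt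

theorem chkB6_eq (m : List opsE.α) (h : chkB6 m = true) : runG opsE 4 prog6 m = true :=
  chk6_eq opsE m h

def prog7 : List Op := [
  .const ⟨1099511627776, 0, 0, 0⟩,
  .mul 2 3,
  .mul 0 2,
  .mul 5 0,
  .mul 6 6,
  .mul 6 0,
  .mul 3 3,
  .mul 8 1,
  .const ⟨10994319360, 0, 0, 0⟩,
  .sub 0 2,
  .pos 0]

def chk7 {α : Type} (cst : Z → α) (add sub mul : α → α → α) (scale : Z → α → α)
    (neg inv exp log : α → α) (ok : α → Bool) (isPos : Nat → α → Bool) (isLt : α → Nat → Bool) :
    List α → Bool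
  | [x0, x1, x2, x3] =>
  let v0 := cst ⟨1099511627776, 0, 0, 0⟩; ok v0 && (
  let v1 := mul x1 x2; ok v1 && (
  let v2 := mul v1 x0; ok v2 && (
  let v3 := mul x2 v2; ok v3 && (
  let v4 := mul x2 x2; ok v4 && (
  let v5 := mul x1 v4; ok v5 && (
  let v6 := mul v2 v2; ok v6 && (
  let v7 := mul x1 v5; ok v7 && (
  let v8 := cst ⟨10994319360, 0, 0, 0⟩; ok v8 && (
  let v9 := sub v8 v6; ok v9 && (
  isPos 4 v9 && (
  true)))))))))))
  | _ => false

set_option maxRecDepth 1000000 in
theorem chk7_eq (O : Ops) (m : List O.α)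
    (h : chk7 O.cst O.add O.sub O.mul O.scale O.neg O.inv O.exp O.log O.ok O.isPos O.isLt m = true) :
    runG O 4 prog7 m = true := by
  match m, h with
  | [x0, x1, x2, x3], h => exact h

def chkB7 : List opsE.α → Bool :=
  chk7 opsE.cst opsE.add opsE.sub opsE.mul opsE.scale opsE.neg opsE.inv opsE.exp opsE.log opsE.ok opsE.isPos opsE.isLt

theorem chkB7_eq (m : List opsE.α) (h : chkB7 m = true) : runG opsE 4 prog7 m = true :=
  chk7_eq opsE m h

def prog8 : List Op := [
  .const ⟨1099511627776, 0, 0, 0⟩,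
  .mul 2 3,
  .mul 0 2,
  .mul 5 0,
  .mul 6 6,
  .mul 6 0,
  .mul 3 3,
  .mul 8 1,
  .const ⟨549755813888, 0, 0, 0⟩,
  .mul 10 5,
  .mul 0 13,
  .scale ⟨549755813888, 0, 0, 0⟩ 0,
  .mul 8 8,
  .mul 1 1,
  .sub 13 0,
  .inv 0,
  .mul 4 0,
  .scale ⟨2199023255552, 0, 0, 0⟩ 0,
  .scale ⟨2199023255552, 0, 0, 0⟩ 2,
  .sub 0 18,
  .add 0 2,
  .mul 24 5,
  .mul 18 0,
  .sub 22 0,
  .add 23 1,
  .mul 26 12,
  .mul 4 4,
  .mul 26 5,
  .scale ⟨554050781184, 0, 0, 0⟩ 28,
  .sub 1 0,
  .pos 0]

def chk8 {α : Type} (cst : Z → α) (add sub mul : α → α → α) (scale : Z → α → α)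
    (neg inv exp log : α → α) (ok : α → Bool) (isPos : Nat → α → Bool) (isLt : α → Nat → Bool) :
    List α → Bool
  | [x0, x1, x2, x3] =>
  let v0 := cst ⟨1099511627776, 0, 0, 0⟩; ok v0 && (
  let v1 := mul x1 x2; ok v1 && (
  let v2 := mul v1 x0; ok v2 && (
  let v3 := mul x2 v2; ok v3 && (
  let v4 := mul x2 x2; ok v4 && (
  let v5 := mul x1 v4; ok v5 && (
  let v6 := mul v2 v2; ok v6 && (
  let v7 := mul x1 v5; ok v7 && (
  let v8 := cst ⟨549755813888, 0, 0, 0⟩; ok v8 && (
  let v9 := mul x1 v3; ok v9 && (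
  let v10 := mul v9 x3; ok v10 && (
  let v11 := scale ⟨549755813888, 0, 0, 0⟩ v10; ok v11 && (
  let v12 := mul v3 v3; ok v12 && (
  let v13 := mul v11 v11; ok v13 && (
  let v14 := sub v0 v13; ok v14 && (
  let v15 := inv v14; ok v15 && (
  let v16 := mul v11 v15; ok v16 && (
  let v17 := scale ⟨2199023255552, 0, 0, 0⟩ v16; ok v17 && (
  let v18 := scale ⟨2199023255552, 0, 0, 0⟩ v15; ok v18 && (
  let v19 := sub v18 v0; ok v19 && (
  let v20 := add v19 v17; ok v20 && (
  let v21 := mul x3 v15; ok v21 && (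
  let v22 := mul v3 v21; ok v22 && (
  let v23 := sub v0 v22; ok v23 && (
  let v24 := add v0 v22; ok v24 && (
  let v25 := mul x1 v12; ok v25 && (
  let v26 := mul v21 v21; ok v26 && (
  let v27 := mul v0 v21; ok v27 && (
  let v28 := scale ⟨554050781184, 0, 0, 0⟩ x0; ok v28 && (
  let v29 := sub v27 v28; ok v29 && (
  isPos 4 v29 && (
  true)))))))))))))))))))))))))))))))
  | _ => false

set_option maxRecDepth 1000000 in
theorem chk8_eq (O : Ops) (m : List O.α)
    (h : chk8 O.cst O.add O.sub O.mul O.scale O.neg O.inv O.exp O.log O.ok O.isPos O.isLt m = true) :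
    runG O 4 prog8 m = true := by
  match m, h with
  | [x0, x1, x2, x3], h => exact h

def chkB8 : List opsE.α → Bool :=
  chk8 opsE.cst opsE.add opsE.sub opsE.mul opsE.scale opsE.neg opsE.inv opsE.exp opsE.log opsE.ok opsE.isPos opsE.isLt

theorem chkB8_eq (m : List opsE.α) (h : chkB8 m = true) : runG opsE 4 prog8 m = true :=
  chk8_eq opsE m h

def progs : List (List Op) := [prog0, prog1, prog2, prog3, prog4, prog5, prog6, prog7, prog8]

def chks : List (List opsE.α → Bool) := [chkB0, chkB1, chkB2, chkB3, chkB4, chkB5, chkB6, chkB7, chkB8]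

theorem chks_eq : List.Forall₂ (fun (ops : List Op) (chk : List opsE.α → Bool) =>
    ∀ m, chk m = true → runG opsE 4 ops m = true) progs chks :=
  List.Forall₂.cons chkB0_eq (List.Forall₂.cons chkB1_eq (List.Forall₂.cons chkB2_eq (List.Forall₂.cons chkB3_eq (List.Forall₂.cons chkB4_eq (List.Forall₂.cons chkB5_eq (List.Forall₂.cons chkB6_eq (List.Forall₂.cons chkB7_eq (List.Forall₂.cons chkB8_eq List.Forall₂.nil))))))))

end Pool.Agent.helper71.FJ.Crt.XMa
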