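import Pool.Agent.helper71.FJ.Crt.QHIIIP

/-!
Generated certificates.
-/

namespace Pool.Agent.helper71.FJ.Crt.QHIII

open Pool.Agent.helper31.IA (Z Op)
open Pool.Agent.helper31.IC

mutual
theorem c0_m1_t0 : CovD 0 progs [(1680405954560, 336081190912), (68719476736, 68719476736), (274877906944, 274877906944), (549755813888, 549755813888)] :=
  Pool.Agent.helper14.QF.covD_F chks_eq (.n 3 (.n 0 (.l 2) (.n 3 (.l 2) (.l 2))) (.n 0 (.n 1 (.l 2) (.l 2)) (.n 3 (.l 2) (.l 2))))
    [(1680405954560, 336081190912), (68719476736, 68719476736), (274877906944, 274877906944), (549755813888, 549755813888)] rfl (by decide +kernel)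
theorem c0_m1_t1 : CovD 0 progs [(1680405954560, 336081190912), (206158430208, 68719476736), (274877906944, 274877906944), (549755813888, 549755813888)] :=
  Pool.Agent.helper14.QF.covD_F chks_eq (.n 0 (.n 1 (.n 3 (.l 2) (.l 2)) (.n 3 (.n 0 (.l 2) (.l 2)) (.n 3 (.l 2) (.l 2)))) (.n 2 (.n 3 (.n 0 (.l 2) (.l 2)) (.n 3 (.l 2) (.l 2))) (.n 1 (.n 3 (.n 0 (.l 2) (.l 2)) (.n 3 (.l 2) (.l 2))) (.n 3 (.n 3 (.l 2) (.l 2)) (.n 3 (.l 2) (.l 2))))))
    [(1680405954560, 336081190912), (206158430208, 68719476736), (274877906944, 274877906944), (549755813888, 549755813888)] rfl (by decide +kernel)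
end
mutual
theorem c0_m1_t3 : CovD 0 progs [(1680405954560, 336081190912), (343597383680, 68719476736), (274877906944, 274877906944), (274877906944, 274877906944)] :=
  Pool.Agent.helper14.QF.covD_F chks_eq (.n 0 (.n 2 (.l 2) (.n 1 (.n 3 (.l 2) (.l 2)) (.n 2 (.l 2) (.l 5)))) (.n 1 (.n 2 (.l 2) (.n 0 (.n 3 (.l 2) (.l 2)) (.n 2 (.l 2) (.n 2 (.l 4) (.l 5))))) (.n 2 (.l 2) (.n 2 (.n 0 (.l 2) (.l 4)) (.l 5)))))
    [(1680405954560, 336081190912), (343597383680, 68719476736), (274877906944, 274877906944), (274877906944, 274877906944)] rfl (by decide +kernel)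
theorem c0_m1_t4 : CovD 0 progs [(1680405954560, 336081190912), (343597383680, 68719476736), (274877906944, 274877906944), (824633720832, 274877906944)] :=
  Pool.Agent.helper14.QF.covD_F chks_eq (.n 2 (.n 0 (.l 2) (.n 3 (.l 2) (.l 2))) (.n 2 (.n 0 (.n 3 (.l 2) (.l 2)) (.n 1 (.n 3 (.l 2) (.l 2)) (.n 3 (.l 2) (.l 2)))) (.n 1 (.n 2 (.n 0 (.l 2) (.n 3 (.l 2) (.l 2))) (.l 5)) (.l 5))))
    [(1680405954560, 336081190912), (343597383680, 68719476736), (274877906944, 274877906944), (824633720832, 274877906944)] rfl (by decide +kernel)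
end
mutual
theorem c0_m1_t6 : CovD 0 progs [(1680405954560, 336081190912), (481036337152, 68719476736), (274877906944, 274877906944), (549755813888, 549755813888)] :=
  Pool.Agent.helper14.QF.covD_F chks_eq (.n 2 (.n 0 (.n 3 (.n 0 (.l 2) (.l 2)) (.n 3 (.l 2) (.l 2))) (.n 1 (.n 3 (.l 2) (.n 3 (.l 2) (.l 1))) (.n 3 (.n 0 (.l 2) (.l 2)) (.n 3 (.l 2) (.l 2))))) (.n 2 (.n 2 (.n 1 (.n 0 (.n 3 (.l 2) (.l 2)) (.n 3 (.l 4) (.n 3 (.l 2) (.l 2)))) (.l 5)) (.l 5)) (.l 5)))
    [(1680405954560, 336081190912), (481036337152, 68719476736), (274877906944, 274877906944), (549755813888, 549755813888)] rfl (by decide +kernel)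
theorem c0_m1_t9 : CovD 0 progs [(2184527740928, 168040595456), (137438953472, 137438953472), (274877906944, 274877906944), (137438953472, 137438953472)] :=
  Pool.Agent.helper14.QF.covD_F chks_eq (.n 0 (.n 1 (.l 2) (.n 1 (.l 2) (.n 1 (.l 2) (.l 2)))) (.n 1 (.n 1 (.l 2) (.l 2)) (.n 2 (.l 2) (.n 1 (.l 2) (.n 0 (.l 2) (.l 2))))))
    [(2184527740928, 168040595456), (137438953472, 137438953472), (274877906944, 274877906944), (137438953472, 137438953472)] rfl (by decide +kernel)
end
mutual
theorem c0_m1_t10 : CovD 0 progs [(2436588634112, 84020297728), (137438953472, 137438953472), (274877906944, 274877906944), (137438953472, 137438953472)] :=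
  Pool.Agent.helper14.QF.covD_F chks_eq (.n 1 (.n 1 (.l 2) (.n 1 (.l 2) (.l 2))) (.n 1 (.n 2 (.l 2) (.n 1 (.l 2) (.l 2))) (.n 2 (.l 2) (.n 2 (.l 2) (.n 0 (.l 2) (.l 4))))))
    [(2436588634112, 84020297728), (137438953472, 137438953472), (274877906944, 274877906944), (137438953472, 137438953472)] rfl (by decide +kernel)
theorem c0_m1_t11 : CovD 0 progs [(2604629229568, 84020297728), (137438953472, 137438953472), (274877906944, 274877906944), (137438953472, 137438953472)] :=
  Pool.Agent.helper14.QF.covD_F chks_eq (.n 3 (.n 1 (.n 1 (.n 1 (.l 2) (.l 2)) (.n 1 (.l 2) (.n 0 (.l 2) (.l 2)))) (.n 1 (.n 2 (.l 2) (.n 1 (.l 2) (.l 2))) (.n 2 (.l 2) (.n 1 (.l 2) (.l 4))))) (.n 1 (.n 1 (.n 1 (.l 2) (.l 2)) (.n 2 (.l 2) (.n 1 (.l 2) (.l 2)))) (.n 1 (.n 2 (.l 2) (.n 0 (.l 2) (.n 1 (.l 2) (.l 2)))) (.n 2 (.l 2) (.n 2 (.l 2) (.n 1 (.l 2) (.l 2)))))))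
    [(2604629229568, 84020297728), (137438953472, 137438953472), (274877906944, 274877906944), (137438953472, 137438953472)] rfl (by decide +kernel)
end
mutual
theorem c0_m1_t14 : CovD 0 progs [(2184527740928, 168040595456), (137438953472, 137438953472), (274877906944, 274877906944), (412316860416, 137438953472)] :=
  Pool.Agent.helper14.QF.covD_F chks_eq (.n 0 (.n 1 (.n 0 (.l 2) (.l 2)) (.n 1 (.l 2) (.n 1 (.l 2) (.n 2 (.l 2) (.l 2))))) (.n 1 (.n 1 (.l 2) (.l 2)) (.n 1 (.n 3 (.l 2) (.l 2)) (.n 2 (.l 2) (.n 3 (.l 2) (.l 2))))))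
    [(2184527740928, 168040595456), (137438953472, 137438953472), (274877906944, 274877906944), (412316860416, 137438953472)] rfl (by decide +kernel)
theorem c0_m1_t15 : CovD 0 progs [(2436588634112, 84020297728), (137438953472, 137438953472), (274877906944, 274877906944), (412316860416, 137438953472)] :=
  Pool.Agent.helper14.QF.covD_F chks_eq (.n 1 (.n 1 (.n 0 (.l 2) (.l 2)) (.n 3 (.l 2) (.l 2))) (.n 1 (.n 2 (.l 2) (.n 3 (.l 2) (.l 2))) (.n 2 (.l 2) (.n 2 (.l 2) (.n 3 (.l 4) (.l 2))))))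
    [(2436588634112, 84020297728), (137438953472, 137438953472), (274877906944, 274877906944), (412316860416, 137438953472)] rfl (by decide +kernel)
end
mutual
theorem c0_m1_t16 : CovD 0 progs [(2604629229568, 84020297728), (137438953472, 137438953472), (274877906944, 274877906944), (412316860416, 137438953472)] :=
  Pool.Agent.helper14.QF.covD_F chks_eq (.n 1 (.n 1 (.n 3 (.n 0 (.l 2) (.l 2)) (.l 2)) (.n 1 (.n 3 (.l 2) (.l 2)) (.n 3 (.n 0 (.l 2) (.l 2)) (.l 2)))) (.n 1 (.n 1 (.n 2 (.l 2) (.n 3 (.l 2) (.l 2))) (.n 2 (.l 2) (.n 3 (.n 0 (.l 2) (.l 2)) (.l 2)))) (.n 1 (.n 2 (.l 2) (.n 2 (.l 2) (.n 3 (.l 2) (.l 2)))) (.n 2 (.l 2) (.n 2 (.l 2) (.n 3 (.l 2) (.l 2)))))))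
    [(2604629229568, 84020297728), (137438953472, 137438953472), (274877906944, 274877906944), (412316860416, 137438953472)] rfl (by decide +kernel)
theorem c0_m1_t20 : CovD 0 progs [(2352568336384, 336081190912), (309237645312, 34359738368), (274877906944, 274877906944), (274877906944, 274877906944)] :=
  Pool.Agent.helper14.QF.covD_F chks_eq (.n 2 (.n 0 (.n 3 (.l 2) (.l 2)) (.n 0 (.n 3 (.l 2) (.l 2)) (.n 3 (.l 2) (.l 2)))) (.n 2 (.n 0 (.n 3 (.l 2) (.n 0 (.l 2) (.l 2))) (.n 0 (.n 3 (.l 2) (.l 4)) (.n 3 (.l 4) (.n 1 (.l 2) (.l 2))))) (.n 2 (.n 1 (.n 0 (.n 3 (.l 2) (.l 2)) (.n 3 (.n 0 (.l 2) (.l 2)) (.n 3 (.l 4) (.l 2)))) (.l 5)) (.l 5))))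
    [(2352568336384, 336081190912), (309237645312, 34359738368), (274877906944, 274877906944), (274877906944, 274877906944)] rfl (by decide +kernel)
end
mutual
theorem c0_m1_t21 : CovD 0 progs [(2352568336384, 336081190912), (377957122048, 34359738368), (274877906944, 274877906944), (274877906944, 274877906944)] :=
  Pool.Agent.helper14.QF.covD_F chks_eq (.n 2 (.n 0 (.n 3 (.l 2) (.l 2)) (.n 0 (.n 3 (.l 2) (.l 2)) (.n 3 (.l 2) (.l 4)))) (.n 2 (.n 0 (.n 3 (.l 4) (.n 0 (.l 2) (.l 2))) (.n 0 (.n 3 (.l 2) (.n 0 (.l 2) (.l 4))) (.n 1 (.n 3 (.l 2) (.l 4)) (.n 3 (.l 2) (.l 4))))) (.l 5)))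
    [(2352568336384, 336081190912), (377957122048, 34359738368), (274877906944, 274877906944), (274877906944, 274877906944)] rfl (by decide +kernel)
theorem c0_m1_t23 : CovD 0 progs [(2352568336384, 336081190912), (481036337152, 68719476736), (274877906944, 274877906944), (274877906944, 274877906944)] :=
  Pool.Agent.helper14.QF.covD_F chks_eq (.n 2 (.n 1 (.n 0 (.n 3 (.l 2) (.l 4)) (.n 0 (.n 3 (.l 2) (.l 2)) (.n 3 (.l 4) (.n 0 (.l 2) (.l 4))))) (.n 0 (.n 2 (.l 2) (.n 0 (.l 2) (.l 4))) (.n 2 (.n 0 (.l 2) (.l 2)) (.n 3 (.l 4) (.n 0 (.l 2) (.l 4)))))) (.n 2 (.n 2 (.n 1 (.n 0 (.n 3 (.l 2) (.l 4)) (.n 2 (.n 3 (.l 2) (.l 4)) (.l 5))) (.l 5)) (.l 5)) (.l 5)))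
    [(2352568336384, 336081190912), (481036337152, 68719476736), (274877906944, 274877906944), (274877906944, 274877906944)] rfl (by decide +kernel)
end
mutual
theorem c0_m1_t26 : CovD 0 progs [(2352568336384, 336081190912), (68719476736, 68719476736), (274877906944, 274877906944), (687194767360, 137438953472)] :=
  Pool.Agent.helper14.QF.covD_F chks_eq (.n 3 (.n 0 (.n 0 (.l 2) (.l 2)) (.n 0 (.n 1 (.l 2) (.l 2)) (.n 1 (.l 2) (.n 0 (.l 2) (.l 2))))) (.n 0 (.l 2) (.n 1 (.l 2) (.l 2))))
    [(2352568336384, 336081190912), (68719476736, 68719476736), (274877906944, 274877906944), (687194767360, 137438953472)] rfl (by decide +kernel)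
theorem c0_m1_t27 : CovD 0 progs [(2352568336384, 336081190912), (206158430208, 68719476736), (274877906944, 274877906944), (687194767360, 137438953472)] :=
  Pool.Agent.helper14.QF.covD_F chks_eq (.n 1 (.n 0 (.n 0 (.l 2) (.n 1 (.l 2) (.l 2))) (.n 2 (.n 3 (.l 2) (.l 2)) (.n 0 (.n 3 (.l 2) (.l 2)) (.n 3 (.n 0 (.l 2) (.l 2)) (.l 2))))) (.n 0 (.n 2 (.l 2) (.n 2 (.l 2) (.n 3 (.l 2) (.l 2)))) (.n 2 (.n 3 (.l 2) (.l 2)) (.n 2 (.n 3 (.l 2) (.l 2)) (.n 0 (.n 3 (.l 2) (.l 2)) (.n 3 (.n 0 (.l 2) (.l 4)) (.l 4)))))))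
    [(2352568336384, 336081190912), (206158430208, 68719476736), (274877906944, 274877906944), (687194767360, 137438953472)] rfl (by decide +kernel)
end
mutual
theorem c0_m1_t29 : CovD 0 progs [(2352568336384, 336081190912), (137438953472, 137438953472), (274877906944, 274877906944), (962072674304, 137438953472)] :=
  Pool.Agent.helper14.QF.covD_F chks_eq (.n 1 (.n 1 (.n 3 (.l 2) (.l 2)) (.n 3 (.n 0 (.l 2) (.l 2)) (.l 2))) (.n 1 (.n 3 (.n 0 (.l 2) (.n 0 (.l 2) (.l 2))) (.l 2)) (.n 2 (.n 3 (.l 2) (.l 2)) (.n 0 (.n 3 (.l 2) (.l 2)) (.n 1 (.n 3 (.l 2) (.l 2)) (.n 3 (.l 2) (.l 2)))))))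
    [(2352568336384, 336081190912), (137438953472, 137438953472), (274877906944, 274877906944), (962072674304, 137438953472)] rfl (by decide +kernel)
theorem c0_m1_t31 : CovD 0 progs [(2352568336384, 336081190912), (309237645312, 34359738368), (274877906944, 274877906944), (824633720832, 274877906944)] :=
  Pool.Agent.helper14.QF.covD_F chks_eq (.n 2 (.n 3 (.n 0 (.l 2) (.n 0 (.l 2) (.l 2))) (.n 3 (.l 2) (.l 2))) (.n 2 (.n 0 (.n 3 (.n 0 (.l 2) (.l 2)) (.l 2)) (.n 3 (.n 3 (.l 4) (.l 2)) (.n 3 (.l 2) (.l 2)))) (.n 2 (.n 1 (.n 3 (.n 0 (.l 2) (.n 3 (.l 2) (.l 2))) (.n 3 (.l 2) (.l 2))) (.l 5)) (.l 5))))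
    [(2352568336384, 336081190912), (309237645312, 34359738368), (274877906944, 274877906944), (824633720832, 274877906944)] rfl (by decide +kernel)
end
mutual
theorem c0_m1_t32 : CovD 0 progs [(2352568336384, 336081190912), (377957122048, 34359738368), (274877906944, 274877906944), (824633720832, 274877906944)] :=
  Pool.Agent.helper14.QF.covD_F chks_eq (.n 2 (.n 3 (.n 0 (.l 2) (.n 0 (.l 2) (.l 4))) (.n 0 (.l 2) (.n 1 (.l 2) (.l 2)))) (.n 2 (.n 0 (.n 0 (.n 3 (.l 2) (.l 2)) (.n 3 (.l 4) (.l 4))) (.n 1 (.n 0 (.n 3 (.l 2) (.l 2)) (.n 3 (.l 4) (.l 4))) (.n 2 (.n 3 (.l 4) (.l 2)) (.l 5)))) (.l 5)))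
    [(2352568336384, 336081190912), (377957122048, 34359738368), (274877906944, 274877906944), (824633720832, 274877906944)] rfl (by decide +kernel)
theorem c0_m1_t34 : CovD 0 progs [(2352568336384, 336081190912), (481036337152, 68719476736), (137438953472, 137438953472), (824633720832, 274877906944)] :=
  Pool.Agent.helper14.QF.covD_F chks_eq (.n 0 (.n 1 (.n 3 (.l 4) (.l 4)) (.n 2 (.n 3 (.l 2) (.l 2)) (.n 3 (.l 4) (.l 4)))) (.n 1 (.n 3 (.n 3 (.l 4) (.l 4)) (.n 3 (.l 4) (.l 4))) (.n 2 (.n 3 (.l 2) (.l 2)) (.n 3 (.n 0 (.l 4) (.l 4)) (.n 3 (.l 4) (.l 4))))))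
    [(2352568336384, 336081190912), (481036337152, 68719476736), (137438953472, 137438953472), (824633720832, 274877906944)] rfl (by decide +kernel)
theorem c0_m1_t35 : CovD 0 progs [(2352568336384, 336081190912), (481036337152, 68719476736), (412316860416, 137438953472), (824633720832, 274877906944)] :=
  Pool.Agent.helper14.QF.covD_F chks_eq (.n 2 (.n 2 (.n 1 (.n 2 (.n 3 (.n 0 (.l 2) (.n 0 (.l 2) (.l 2))) (.n 3 (.l 4) (.l 4))) (.l 5)) (.l 5)) (.l 5)) (.l 5))
    [(2352568336384, 336081190912), (481036337152, 68719476736), (412316860416, 137438953472), (824633720832, 274877906944)] rfl (by decide +kernel)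
end
theorem c0_m1_t2 : CovD 0 progs [(1680405954560, 336081190912), (137438953472, 137438953472), (274877906944, 274877906944), (549755813888, 549755813888)] :=
  covD_split 1 (by decide +kernel) c0_m1_t0 c0_m1_t1
theorem c0_m1_t5 : CovD 0 progs [(1680405954560, 336081190912), (343597383680, 68719476736), (274877906944, 274877906944), (549755813888, 549755813888)] :=
  covD_split 3 (by decide +kernel) c0_m1_t3 c0_m1_t4
theorem c0_m1_t7 : CovD 0 progs [(1680405954560, 336081190912), (412316860416, 137438953472), (274877906944, 274877906944), (549755813888, 549755813888)] :=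
  covD_split 1 (by decide +kernel) c0_m1_t5 c0_m1_t6
theorem c0_m1_t8 : CovD 0 progs [(1680405954560, 336081190912), (274877906944, 274877906944), (274877906944, 274877906944), (549755813888, 549755813888)] :=
  covD_split 1 (by decide +kernel) c0_m1_t2 c0_m1_t7
theorem c0_m1_t12 : CovD 0 progs [(2520608931840, 168040595456), (137438953472, 137438953472), (274877906944, 274877906944), (137438953472, 137438953472)] :=
  covD_split 0 (by decide +kernel) c0_m1_t10 c0_m1_t11
theorem c0_m1_t13 : CovD 0 progs [(2352568336384, 336081190912), (137438953472, 137438953472), (274877906944, 274877906944), (137438953472, 137438953472)] :=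
  covD_split 0 (by decide +kernel) c0_m1_t9 c0_m1_t12
theorem c0_m1_t17 : CovD 0 progs [(2520608931840, 168040595456), (137438953472, 137438953472), (274877906944, 274877906944), (412316860416, 137438953472)] :=
  covD_split 0 (by decide +kernel) c0_m1_t15 c0_m1_t16
theorem c0_m1_t18 : CovD 0 progs [(2352568336384, 336081190912), (137438953472, 137438953472), (274877906944, 274877906944), (412316860416, 137438953472)] :=
  covD_split 0 (by decide +kernel) c0_m1_t14 c0_m1_t17
theorem c0_m1_t19 : CovD 0 progs [(2352568336384, 336081190912), (137438953472, 137438953472), (274877906944, 274877906944), (274877906944, 274877906944)] :=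
  covD_split 3 (by decide +kernel) c0_m1_t13 c0_m1_t18
theorem c0_m1_t22 : CovD 0 progs [(2352568336384, 336081190912), (343597383680, 68719476736), (274877906944, 274877906944), (274877906944, 274877906944)] :=
  covD_split 1 (by decide +kernel) c0_m1_t20 c0_m1_t21
theorem c0_m1_t24 : CovD 0 progs [(2352568336384, 336081190912), (412316860416, 137438953472), (274877906944, 274877906944), (274877906944, 274877906944)] :=
  covD_split 1 (by decide +kernel) c0_m1_t22 c0_m1_t23
theorem c0_m1_t25 : CovD 0 progs [(2352568336384, 336081190912), (274877906944, 274877906944), (274877906944, 274877906944), (274877906944, 274877906944)] :=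
  covD_split 1 (by decide +kernel) c0_m1_t19 c0_m1_t24
theorem c0_m1_t28 : CovD 0 progs [(2352568336384, 336081190912), (137438953472, 137438953472), (274877906944, 274877906944), (687194767360, 137438953472)] :=
  covD_split 1 (by decide +kernel) c0_m1_t26 c0_m1_t27
theorem c0_m1_t30 : CovD 0 progs [(2352568336384, 336081190912), (137438953472, 137438953472), (274877906944, 274877906944), (824633720832, 274877906944)] :=
  covD_split 3 (by decide +kernel) c0_m1_t28 c0_m1_t29
theorem c0_m1_t33 : CovD 0 progs [(2352568336384, 336081190912), (343597383680, 68719476736), (274877906944, 274877906944), (824633720832, 274877906944)] :=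
  covD_split 1 (by decide +kernel) c0_m1_t31 c0_m1_t32
theorem c0_m1_t36 : CovD 0 progs [(2352568336384, 336081190912), (481036337152, 68719476736), (274877906944, 274877906944), (824633720832, 274877906944)] :=
  covD_split 2 (by decide +kernel) c0_m1_t34 c0_m1_t35
theorem c0_m1_t37 : CovD 0 progs [(2352568336384, 336081190912), (412316860416, 137438953472), (274877906944, 274877906944), (824633720832, 274877906944)] :=
  covD_split 1 (by decide +kernel) c0_m1_t33 c0_m1_t36
theorem c0_m1_t38 : CovD 0 progs [(2352568336384, 336081190912), (274877906944, 274877906944), (274877906944, 274877906944), (824633720832, 274877906944)] :=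
  covD_split 1 (by decide +kernel) c0_m1_t30 c0_m1_t37
theorem c0_m1_t39 : CovD 0 progs [(2352568336384, 336081190912), (274877906944, 274877906944), (274877906944, 274877906944), (549755813888, 549755813888)] :=
  covD_split 3 (by decide +kernel) c0_m1_t25 c0_m1_t38
theorem c0_m1 : CovD 0 progs [(2016487145472, 672162381824), (274877906944, 274877906944), (274877906944, 274877906944), (549755813888, 549755813888)] :=
  covD_split 0 (by decide +kernel) c0_m1_t8 c0_m1_t39

end Pool.Agent.helper71.FJ.Crt.QHIII
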