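import Pool.Agent.helper71.FJ.Crt.QHIIIP

/-!
Generated certificates.
-/

namespace Pool.Agent.helper71.FJ.Crt.QHIII

open Pool.Agent.helper31.IA (Z Op)
open Pool.Agent.helper31.IC

mutual
theorem c0_m2_t0 : CovD 0 progs [(1680405954560, 336081190912), (618475290624, 68719476736), (137438953472, 137438953472), (549755813888, 549755813888)] :=
  Pool.Agent.helper14.QF.covD_F chks_eq (.n 0 (.n 2 (.n 3 (.l 2) (.l 2)) (.n 1 (.n 3 (.l 1) (.l 4)) (.n 3 (.l 4) (.n 0 (.l 4) (.l 4))))) (.n 2 (.n 3 (.l 2) (.n 0 (.l 2) (.l 2))) (.n 2 (.n 3 (.l 4) (.n 1 (.l 2) (.l 4))) (.n 2 (.n 1 (.n 3 (.l 2) (.l 4)) (.l 5)) (.l 5)))))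
    [(1680405954560, 336081190912), (618475290624, 68719476736), (137438953472, 137438953472), (549755813888, 549755813888)] rfl (by decide +kernel)
theorem c0_m2_t1 : CovD 0 progs [(2352568336384, 336081190912), (618475290624, 68719476736), (68719476736, 68719476736), (549755813888, 549755813888)] :=
  Pool.Agent.helper14.QF.covD_F chks_eq (.n 0 (.n 0 (.n 3 (.l 2) (.n 1 (.l 2) (.l 2))) (.n 3 (.l 2) (.n 3 (.l 2) (.l 2)))) (.n 1 (.n 3 (.n 0 (.l 2) (.l 2)) (.n 3 (.l 2) (.n 0 (.l 1) (.l 2)))) (.n 3 (.n 0 (.l 2) (.l 2)) (.n 3 (.l 2) (.n 0 (.l 1) (.l 2))))))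
    [(2352568336384, 336081190912), (618475290624, 68719476736), (68719476736, 68719476736), (549755813888, 549755813888)] rfl (by decide +kernel)
end
mutual
theorem c0_m2_t2 : CovD 0 progs [(2352568336384, 336081190912), (618475290624, 68719476736), (206158430208, 68719476736), (549755813888, 549755813888)] :=
  Pool.Agent.helper14.QF.covD_F chks_eq (.n 2 (.n 0 (.n 0 (.n 3 (.l 4) (.n 1 (.l 2) (.l 4))) (.n 3 (.l 4) (.n 1 (.l 4) (.l 4)))) (.n 1 (.n 3 (.n 0 (.l 2) (.l 4)) (.n 3 (.l 4) (.l 4))) (.n 3 (.n 0 (.l 4) (.l 4)) (.n 3 (.l 4) (.n 0 (.l 4) (.l 4)))))) (.n 2 (.n 1 (.n 0 (.n 3 (.l 4) (.n 3 (.l 2) (.l 2))) (.n 3 (.n 0 (.l 4) (.l 4)) (.n 3 (.l 4) (.l 4)))) (.l 5)) (.l 5)))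
    [(2352568336384, 336081190912), (618475290624, 68719476736), (206158430208, 68719476736), (549755813888, 549755813888)] rfl (by decide +kernel)
theorem c0_m2_t5 : CovD 0 progs [(2016487145472, 672162381824), (618475290624, 68719476736), (412316860416, 137438953472), (549755813888, 549755813888)] :=
  Pool.Agent.helper14.QF.covD_F chks_eq (.n 2 (.n 1 (.l 5) (.l 5)) (.l 5))
    [(2016487145472, 672162381824), (618475290624, 68719476736), (412316860416, 137438953472), (549755813888, 549755813888)] rfl (by decide +kernel)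
end
mutual
theorem c0_m2_t7 : CovD 0 progs [(2016487145472, 672162381824), (755914244096, 68719476736), (68719476736, 68719476736), (549755813888, 549755813888)] :=
  Pool.Agent.helper14.QF.covD_F chks_eq (.n 3 (.n 0 (.n 0 (.l 1) (.l 4)) (.n 0 (.n 0 (.l 4) (.l 4)) (.n 0 (.n 0 (.l 4) (.l 4)) (.n 1 (.l 4) (.l 4))))) (.n 0 (.n 0 (.l 4) (.n 1 (.l 2) (.l 4))) (.n 0 (.n 0 (.n 1 (.l 2) (.l 4)) (.n 1 (.l 4) (.l 4))) (.n 1 (.n 3 (.l 4) (.n 0 (.l 2) (.l 4))) (.n 3 (.l 4) (.n 0 (.l 4) (.l 4)))))))
    [(2016487145472, 672162381824), (755914244096, 68719476736), (68719476736, 68719476736), (549755813888, 549755813888)] rfl (by decide +kernel)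
theorem c0_m2_t8 : CovD 0 progs [(2016487145472, 672162381824), (721554505728, 34359738368), (206158430208, 68719476736), (549755813888, 549755813888)] :=
  Pool.Agent.helper14.QF.covD_F chks_eq (.n 2 (.n 0 (.n 0 (.n 3 (.l 1) (.l 2)) (.n 3 (.l 4) (.l 4))) (.n 0 (.n 3 (.l 4) (.n 3 (.l 4) (.l 4))) (.n 3 (.n 0 (.l 4) (.l 4)) (.n 3 (.l 4) (.n 0 (.l 4) (.l 4)))))) (.l 5))
    [(2016487145472, 672162381824), (721554505728, 34359738368), (206158430208, 68719476736), (549755813888, 549755813888)] rfl (by decide +kernel)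
end
mutual
theorem c0_m2_t9 : CovD 0 progs [(2016487145472, 672162381824), (790273982464, 34359738368), (206158430208, 68719476736), (549755813888, 549755813888)] :=
  Pool.Agent.helper14.QF.covD_F chks_eq (.n 2 (.n 2 (.n 0 (.n 0 (.n 3 (.l 1) (.l 1)) (.n 3 (.l 1) (.l 4))) (.n 0 (.n 3 (.l 4) (.n 0 (.l 4) (.l 4))) (.n 3 (.l 4) (.n 0 (.l 4) (.l 4))))) (.l 5)) (.l 5))
    [(2016487145472, 672162381824), (790273982464, 34359738368), (206158430208, 68719476736), (549755813888, 549755813888)] rfl (by decide +kernel)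
theorem c0_m2_t12 : CovD 0 progs [(2016487145472, 672162381824), (755914244096, 68719476736), (412316860416, 137438953472), (549755813888, 549755813888)] :=
  Pool.Agent.helper14.QF.covD_F chks_eq (.n 2 (.l 5) (.l 5))
    [(2016487145472, 672162381824), (755914244096, 68719476736), (412316860416, 137438953472), (549755813888, 549755813888)] rfl (by decide +kernel)
end
mutual
theorem c0_m2_t15 : CovD 0 progs [(1680405954560, 336081190912), (893353197568, 68719476736), (68719476736, 68719476736), (549755813888, 549755813888)] :=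
  Pool.Agent.helper14.QF.covD_F chks_eq (.n 0 (.n 3 (.l 4) (.n 0 (.l 4) (.l 4))) (.n 0 (.n 3 (.l 4) (.l 4)) (.n 3 (.l 4) (.n 0 (.l 4) (.l 4)))))
    [(1680405954560, 336081190912), (893353197568, 68719476736), (68719476736, 68719476736), (549755813888, 549755813888)] rfl (by decide +kernel)
theorem c0_m2_t16 : CovD 0 progs [(2352568336384, 336081190912), (893353197568, 68719476736), (68719476736, 68719476736), (549755813888, 549755813888)] :=
  Pool.Agent.helper14.QF.covD_F chks_eq (.n 0 (.n 0 (.n 3 (.l 4) (.n 1 (.l 4) (.l 4))) (.n 1 (.n 3 (.l 4) (.l 4)) (.n 3 (.l 4) (.l 4)))) (.n 0 (.n 1 (.n 3 (.l 4) (.n 0 (.l 4) (.l 4))) (.n 3 (.l 4) (.n 0 (.l 4) (.l 4)))) (.n 1 (.n 3 (.l 4) (.n 0 (.l 4) (.l 4))) (.n 3 (.l 4) (.n 0 (.l 4) (.l 4))))))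
    [(2352568336384, 336081190912), (893353197568, 68719476736), (68719476736, 68719476736), (549755813888, 549755813888)] rfl (by decide +kernel)
end
mutual
theorem c0_m2_t18 : CovD 0 progs [(2016487145472, 672162381824), (1030792151040, 68719476736), (34359738368, 34359738368), (549755813888, 549755813888)] :=
  Pool.Agent.helper14.QF.covD_F chks_eq (.n 3 (.n 0 (.n 0 (.l 1) (.n 0 (.l 4) (.l 4))) (.n 0 (.n 0 (.l 4) (.l 4)) (.n 0 (.l 4) (.l 4)))) (.n 0 (.n 0 (.l 4) (.n 0 (.l 4) (.l 4))) (.n 0 (.n 0 (.l 4) (.l 4)) (.n 1 (.l 4) (.l 4)))))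
    [(2016487145472, 672162381824), (1030792151040, 68719476736), (34359738368, 34359738368), (549755813888, 549755813888)] rfl (by decide +kernel)
theorem c0_m2_t19 : CovD 0 progs [(2016487145472, 672162381824), (1030792151040, 68719476736), (103079215104, 34359738368), (549755813888, 549755813888)] :=
  Pool.Agent.helper14.QF.covD_F chks_eq (.n 3 (.n 0 (.n 0 (.l 4) (.n 0 (.l 4) (.l 4))) (.n 0 (.n 0 (.l 4) (.l 4)) (.n 1 (.l 4) (.n 0 (.l 4) (.l 4))))) (.n 0 (.n 0 (.n 0 (.l 4) (.l 4)) (.n 1 (.l 4) (.l 4))) (.n 0 (.n 0 (.n 0 (.l 4) (.l 4)) (.n 1 (.l 4) (.l 4))) (.n 0 (.n 1 (.l 4) (.l 4)) (.n 1 (.l 4) (.l 4))))))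
    [(2016487145472, 672162381824), (1030792151040, 68719476736), (103079215104, 34359738368), (549755813888, 549755813888)] rfl (by decide +kernel)
end
mutual
theorem c0_m2_t22 : CovD 0 progs [(2016487145472, 672162381824), (962072674304, 137438953472), (206158430208, 68719476736), (549755813888, 549755813888)] :=
  Pool.Agent.helper14.QF.covD_F chks_eq (.n 2 (.n 2 (.n 2 (.n 1 (.n 1 (.n 0 (.n 0 (.n 3 (.l 1) (.l 1)) (.n 3 (.l 2) (.l 4))) (.n 0 (.n 3 (.l 4) (.l 4)) (.n 3 (.l 4) (.n 0 (.l 4) (.l 4))))) (.n 1 (.l 5) (.l 5))) (.l 5)) (.n 1 (.l 5) (.l 5))) (.l 5)) (.l 5))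
    [(2016487145472, 672162381824), (962072674304, 137438953472), (206158430208, 68719476736), (549755813888, 549755813888)] rfl (by decide +kernel)
theorem c0_m2_t24 : CovD 0 progs [(2016487145472, 672162381824), (962072674304, 137438953472), (412316860416, 137438953472), (549755813888, 549755813888)] :=
  Pool.Agent.helper14.QF.covD_F chks_eq (.n 2 (.n 1 (.l 5) (.l 5)) (.l 5))
    [(2016487145472, 672162381824), (962072674304, 137438953472), (412316860416, 137438953472), (549755813888, 549755813888)] rfl (by decide +kernel)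
end
theorem c0_m2_t3 : CovD 0 progs [(2352568336384, 336081190912), (618475290624, 68719476736), (137438953472, 137438953472), (549755813888, 549755813888)] :=
  covD_split 2 (by decide +kernel) c0_m2_t1 c0_m2_t2
theorem c0_m2_t4 : CovD 0 progs [(2016487145472, 672162381824), (618475290624, 68719476736), (137438953472, 137438953472), (549755813888, 549755813888)] :=
  covD_split 0 (by decide +kernel) c0_m2_t0 c0_m2_t3
theorem c0_m2_t6 : CovD 0 progs [(2016487145472, 672162381824), (618475290624, 68719476736), (274877906944, 274877906944), (549755813888, 549755813888)] :=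
  covD_split 2 (by decide +kernel) c0_m2_t4 c0_m2_t5
theorem c0_m2_t10 : CovD 0 progs [(2016487145472, 672162381824), (755914244096, 68719476736), (206158430208, 68719476736), (549755813888, 549755813888)] :=
  covD_split 1 (by decide +kernel) c0_m2_t8 c0_m2_t9
theorem c0_m2_t11 : CovD 0 progs [(2016487145472, 672162381824), (755914244096, 68719476736), (137438953472, 137438953472), (549755813888, 549755813888)] :=
  covD_split 2 (by decide +kernel) c0_m2_t7 c0_m2_t10
theorem c0_m2_t13 : CovD 0 progs [(2016487145472, 672162381824), (755914244096, 68719476736), (274877906944, 274877906944), (549755813888, 549755813888)] :=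
  covD_split 2 (by decide +kernel) c0_m2_t11 c0_m2_t12
theorem c0_m2_t14 : CovD 0 progs [(2016487145472, 672162381824), (687194767360, 137438953472), (274877906944, 274877906944), (549755813888, 549755813888)] :=
  covD_split 1 (by decide +kernel) c0_m2_t6 c0_m2_t13
theorem c0_m2_t17 : CovD 0 progs [(2016487145472, 672162381824), (893353197568, 68719476736), (68719476736, 68719476736), (549755813888, 549755813888)] :=
  covD_split 0 (by decide +kernel) c0_m2_t15 c0_m2_t16
theorem c0_m2_t20 : CovD 0 progs [(2016487145472, 672162381824), (1030792151040, 68719476736), (68719476736, 68719476736), (549755813888, 549755813888)] :=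
  covD_split 2 (by decide +kernel) c0_m2_t18 c0_m2_t19
theorem c0_m2_t21 : CovD 0 progs [(2016487145472, 672162381824), (962072674304, 137438953472), (68719476736, 68719476736), (549755813888, 549755813888)] :=
  covD_split 1 (by decide +kernel) c0_m2_t17 c0_m2_t20
theorem c0_m2_t23 : CovD 0 progs [(2016487145472, 672162381824), (962072674304, 137438953472), (137438953472, 137438953472), (549755813888, 549755813888)] :=
  covD_split 2 (by decide +kernel) c0_m2_t21 c0_m2_t22
theorem c0_m2_t25 : CovD 0 progs [(2016487145472, 672162381824), (962072674304, 137438953472), (274877906944, 274877906944), (549755813888, 549755813888)] :=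
  covD_split 2 (by decide +kernel) c0_m2_t23 c0_m2_t24
theorem c0_m2 : CovD 0 progs [(2016487145472, 672162381824), (824633720832, 274877906944), (274877906944, 274877906944), (549755813888, 549755813888)] :=
  covD_split 1 (by decide +kernel) c0_m2_t14 c0_m2_t25

end Pool.Agent.helper71.FJ.Crt.QHIII
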