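import Pool.Agent.helper71.FJ.Crt.QHIc0_0

/-!
Generated certificates, assembled.
-/

namespace Pool.Agent.helper71.FJ.Crt.QHI

open Pool.Agent.helper31.IA (Z Op)
open Pool.Agent.helper31.IC


theorem c0_all : CovD 0 progs [(549755813888, 549755813888), (1099511627776, 1099511627776), (55029268480, 55029268480), (549755813888, 549755813888)] := c0_m0

end Pool.Agent.helper71.FJ.Crt.QHI
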