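import Pool.Agent.helper71.FJ.Crt.QHIP

/-!
Generated certificates.
-/

namespace Pool.Agent.helper71.FJ.Crt.QHI

open Pool.Agent.helper31.IA (Z Op)
open Pool.Agent.helper31.IC

mutual
theorem c1_m1_t0 : CovD 0 progs [(1236950581248, 137438953472), (549755813888, 549755813888), (55029268480, 55029268480), (412316860416, 137438953472)] :=
  Pool.Agent.helper14.QF.covD_F chks_eq (.n 1 (.l 1) (.n 1 (.l 2) (.l 2)))
    [(1236950581248, 137438953472), (549755813888, 549755813888), (55029268480, 55029268480), (412316860416, 137438953472)] rfl (by decide +kernel)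
theorem c1_m1_t1 : CovD 0 progs [(1236950581248, 137438953472), (1374389534720, 274877906944), (55029268480, 55029268480), (412316860416, 137438953472)] :=
  Pool.Agent.helper14.QF.covD_F chks_eq (.n 1 (.n 1 (.l 2) (.l 2)) (.n 0 (.n 2 (.l 2) (.l 2)) (.n 2 (.l 2) (.n 1 (.l 2) (.l 3)))))
    [(1236950581248, 137438953472), (1374389534720, 274877906944), (55029268480, 55029268480), (412316860416, 137438953472)] rfl (by decide +kernel)
end
mutual
theorem c1_m1_t2 : CovD 0 progs [(1168231104512, 68719476736), (1924145348608, 274877906944), (55029268480, 55029268480), (343597383680, 68719476736)] :=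
  Pool.Agent.helper14.QF.covD_F chks_eq (.n 1 (.n 2 (.l 2) (.n 1 (.l 2) (.l 2))) (.n 1 (.n 2 (.l 2) (.n 0 (.l 2) (.l 3))) (.n 2 (.n 0 (.l 2) (.l 2)) (.n 2 (.l 2) (.n 0 (.l 2) (.l 2))))))
    [(1168231104512, 68719476736), (1924145348608, 274877906944), (55029268480, 55029268480), (343597383680, 68719476736)] rfl (by decide +kernel)
theorem c1_m1_t3 : CovD 0 progs [(1271310319616, 34359738368), (1924145348608, 274877906944), (55029268480, 55029268480), (343597383680, 68719476736)] :=
  Pool.Agent.helper14.QF.covD_F chks_eq (.n 1 (.n 2 (.l 2) (.n 1 (.l 2) (.l 2))) (.n 1 (.n 2 (.l 2) (.n 2 (.l 2) (.l 2))) (.n 2 (.n 2 (.l 2) (.l 2)) (.n 0 (.n 2 (.l 2) (.l 2)) (.n 2 (.l 2) (.l 2))))))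
    [(1271310319616, 34359738368), (1924145348608, 274877906944), (55029268480, 55029268480), (343597383680, 68719476736)] rfl (by decide +kernel)
end
mutual
theorem c1_m1_t4 : CovD 0 progs [(1340029796352, 34359738368), (1924145348608, 274877906944), (55029268480, 55029268480), (343597383680, 68719476736)] :=
  Pool.Agent.helper14.QF.covD_F chks_eq (.n 1 (.n 1 (.n 2 (.l 2) (.l 2)) (.n 2 (.l 2) (.n 1 (.l 2) (.l 3)))) (.n 1 (.n 2 (.n 2 (.l 2) (.l 2)) (.n 2 (.l 2) (.n 0 (.l 2) (.l 2)))) (.n 1 (.n 2 (.n 2 (.l 2) (.l 2)) (.n 2 (.l 2) (.l 3))) (.n 0 (.n 2 (.n 2 (.l 2) (.l 2)) (.n 2 (.l 2) (.l 2))) (.n 2 (.n 2 (.l 2) (.l 2)) (.n 2 (.l 2) (.l 3)))))))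
    [(1340029796352, 34359738368), (1924145348608, 274877906944), (55029268480, 55029268480), (343597383680, 68719476736)] rfl (by decide +kernel)
theorem c1_m1_t7 : CovD 0 progs [(1168231104512, 68719476736), (1924145348608, 274877906944), (55029268480, 55029268480), (481036337152, 68719476736)] :=
  Pool.Agent.helper14.QF.covD_F chks_eq (.n 1 (.n 2 (.l 2) (.n 0 (.l 2) (.l 3))) (.n 1 (.n 2 (.l 2) (.n 0 (.l 2) (.l 2))) (.n 2 (.n 0 (.l 2) (.l 2)) (.n 2 (.l 2) (.l 3)))))
    [(1168231104512, 68719476736), (1924145348608, 274877906944), (55029268480, 55029268480), (481036337152, 68719476736)] rfl (by decide +kernel)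
end
mutual
theorem c1_m1_t8 : CovD 0 progs [(1305670057984, 68719476736), (1924145348608, 274877906944), (55029268480, 55029268480), (481036337152, 68719476736)] :=
  Pool.Agent.helper14.QF.covD_F chks_eq (.n 1 (.n 1 (.n 2 (.l 2) (.l 3)) (.n 2 (.l 2) (.n 2 (.l 2) (.l 2)))) (.n 1 (.n 2 (.n 2 (.l 2) (.l 2)) (.n 0 (.n 1 (.l 2) (.l 3)) (.n 2 (.l 2) (.l 3)))) (.n 0 (.n 2 (.n 2 (.l 2) (.l 2)) (.n 2 (.l 2) (.l 3))) (.n 2 (.n 0 (.n 2 (.l 2) (.l 2)) (.n 2 (.l 2) (.l 2))) (.n 2 (.n 1 (.l 2) (.l 3)) (.n 2 (.l 3) (.l 3)))))))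
    [(1305670057984, 68719476736), (1924145348608, 274877906944), (55029268480, 55029268480), (481036337152, 68719476736)] rfl (by decide +kernel)
theorem c1_m1_t13 : CovD 0 progs [(1511828488192, 137438953472), (549755813888, 549755813888), (55029268480, 55029268480), (343597383680, 68719476736)] :=
  Pool.Agent.helper14.QF.covD_F chks_eq (.n 1 (.l 2) (.n 1 (.l 2) (.l 2)))
    [(1511828488192, 137438953472), (549755813888, 549755813888), (55029268480, 55029268480), (343597383680, 68719476736)] rfl (by decide +kernel)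
end
mutual
theorem c1_m1_t14 : CovD 0 progs [(1511828488192, 137438953472), (1374389534720, 274877906944), (55029268480, 55029268480), (343597383680, 68719476736)] :=
  Pool.Agent.helper14.QF.covD_F chks_eq (.n 2 (.n 1 (.l 2) (.n 0 (.n 0 (.l 2) (.l 2)) (.n 1 (.l 2) (.n 0 (.l 2) (.l 2))))) (.n 1 (.n 1 (.l 2) (.l 2)) (.n 0 (.n 1 (.l 2) (.n 0 (.l 2) (.l 2))) (.n 1 (.n 0 (.l 2) (.l 2)) (.n 2 (.l 2) (.n 1 (.l 2) (.l 3)))))))
    [(1511828488192, 137438953472), (1374389534720, 274877906944), (55029268480, 55029268480), (343597383680, 68719476736)] rfl (by decide +kernel)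
theorem c1_m1_t15 : CovD 0 progs [(1443109011456, 68719476736), (1786706395136, 137438953472), (55029268480, 55029268480), (343597383680, 68719476736)] :=
  Pool.Agent.helper14.QF.covD_F chks_eq (.n 1 (.n 2 (.n 0 (.l 2) (.l 2)) (.n 2 (.l 2) (.n 0 (.l 2) (.l 2)))) (.n 0 (.n 2 (.n 0 (.l 2) (.l 3)) (.n 2 (.l 2) (.n 0 (.l 2) (.l 2)))) (.n 2 (.n 2 (.l 2) (.l 2)) (.n 1 (.n 2 (.l 2) (.l 2)) (.n 2 (.l 2) (.n 0 (.l 2) (.l 2)))))))
    [(1443109011456, 68719476736), (1786706395136, 137438953472), (55029268480, 55029268480), (343597383680, 68719476736)] rfl (by decide +kernel)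
end
mutual
theorem c1_m1_t16 : CovD 0 progs [(1408749273088, 34359738368), (1992864825344, 68719476736), (55029268480, 55029268480), (343597383680, 68719476736)] :=
  Pool.Agent.helper14.QF.covD_F chks_eq (.n 1 (.n 2 (.n 2 (.l 2) (.l 2)) (.n 2 (.l 2) (.l 2))) (.n 2 (.n 2 (.l 2) (.l 2)) (.n 0 (.n 2 (.l 2) (.l 2)) (.n 2 (.l 2) (.l 2)))))
    [(1408749273088, 34359738368), (1992864825344, 68719476736), (55029268480, 55029268480), (343597383680, 68719476736)] rfl (by decide +kernel)
theorem c1_m1_t17 : CovD 0 progs [(1408749273088, 34359738368), (2130303778816, 68719476736), (55029268480, 55029268480), (343597383680, 68719476736)] :=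
  Pool.Agent.helper14.QF.covD_F chks_eq (.n 1 (.n 2 (.n 2 (.n 2 (.l 2) (.l 2)) (.n 0 (.l 2) (.n 1 (.l 2) (.l 3)))) (.n 0 (.n 2 (.l 2) (.l 2)) (.n 1 (.n 2 (.l 2) (.l 2)) (.n 2 (.l 2) (.l 3))))) (.n 1 (.n 0 (.n 2 (.n 2 (.l 2) (.l 2)) (.n 2 (.l 2) (.l 2))) (.l 5)) (.l 5)))
    [(1408749273088, 34359738368), (2130303778816, 68719476736), (55029268480, 55029268480), (343597383680, 68719476736)] rfl (by decide +kernel)
end
mutual
theorem c1_m1_t19 : CovD 0 progs [(1477468749824, 34359738368), (2061584302080, 137438953472), (55029268480, 55029268480), (343597383680, 68719476736)] :=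
  Pool.Agent.helper14.QF.covD_F chks_eq (.n 1 (.n 1 (.n 2 (.n 2 (.l 2) (.n 0 (.l 2) (.l 2))) (.n 2 (.n 2 (.l 2) (.l 2)) (.n 2 (.l 2) (.l 3)))) (.n 1 (.n 2 (.n 0 (.n 2 (.l 2) (.l 2)) (.n 2 (.l 2) (.l 2))) (.n 2 (.n 0 (.l 2) (.l 3)) (.n 2 (.l 2) (.l 2)))) (.n 0 (.n 2 (.n 2 (.l 2) (.l 2)) (.n 2 (.l 2) (.l 2))) (.l 5)))) (.l 5))
    [(1477468749824, 34359738368), (2061584302080, 137438953472), (55029268480, 55029268480), (343597383680, 68719476736)] rfl (by decide +kernel)
theorem c1_m1_t22 : CovD 0 progs [(1546188226560, 34359738368), (1786706395136, 137438953472), (55029268480, 55029268480), (343597383680, 68719476736)] :=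
  Pool.Agent.helper14.QF.covD_F chks_eq (.n 1 (.n 2 (.n 2 (.l 2) (.l 2)) (.n 1 (.n 2 (.l 2) (.l 2)) (.n 2 (.l 2) (.l 2)))) (.n 1 (.n 2 (.n 2 (.l 2) (.l 2)) (.n 0 (.n 2 (.l 2) (.l 2)) (.n 2 (.l 2) (.l 2)))) (.n 2 (.n 2 (.n 0 (.l 2) (.l 2)) (.n 2 (.l 2) (.l 2))) (.n 0 (.n 2 (.l 2) (.n 0 (.l 2) (.l 2))) (.n 2 (.n 1 (.l 2) (.l 2)) (.n 2 (.l 2) (.l 2)))))))
    [(1546188226560, 34359738368), (1786706395136, 137438953472), (55029268480, 55029268480), (343597383680, 68719476736)] rfl (by decide +kernel)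
end
mutual
theorem c1_m1_t23 : CovD 0 progs [(1546188226560, 34359738368), (2061584302080, 137438953472), (55029268480, 55029268480), (343597383680, 68719476736)] :=
  Pool.Agent.helper14.QF.covD_F chks_eq (.n 0 (.n 1 (.n 1 (.n 1 (.n 2 (.n 2 (.l 2) (.l 2)) (.n 2 (.l 2) (.l 3))) (.l 5)) (.l 5)) (.l 5)) (.l 5))
    [(1546188226560, 34359738368), (2061584302080, 137438953472), (55029268480, 55029268480), (343597383680, 68719476736)] rfl (by decide +kernel)
theorem c1_m1_t25 : CovD 0 progs [(1614907703296, 34359738368), (1717986918400, 68719476736), (55029268480, 55029268480), (343597383680, 68719476736)] :=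
  Pool.Agent.helper14.QF.covD_F chks_eq (.n 1 (.n 2 (.n 0 (.l 2) (.l 2)) (.n 2 (.l 2) (.l 3))) (.n 2 (.n 2 (.l 2) (.l 2)) (.n 2 (.n 0 (.l 2) (.l 2)) (.n 2 (.l 2) (.l 2)))))
    [(1614907703296, 34359738368), (1717986918400, 68719476736), (55029268480, 55029268480), (343597383680, 68719476736)] rfl (by decide +kernel)
end
mutual
theorem c1_m1_t26 : CovD 0 progs [(1614907703296, 34359738368), (1855425871872, 68719476736), (55029268480, 55029268480), (343597383680, 68719476736)] :=
  Pool.Agent.helper14.QF.covD_F chks_eq (.n 1 (.n 2 (.n 0 (.n 2 (.l 2) (.l 2)) (.n 2 (.l 2) (.n 1 (.l 2) (.l 2)))) (.n 2 (.n 0 (.n 0 (.l 2) (.l 2)) (.n 2 (.l 2) (.l 2))) (.n 2 (.n 0 (.l 2) (.l 3)) (.n 3 (.l 2) (.l 2))))) (.n 1 (.n 0 (.n 0 (.n 2 (.n 2 (.l 2) (.l 2)) (.n 2 (.l 2) (.l 2))) (.l 5)) (.l 5)) (.l 5)))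
    [(1614907703296, 34359738368), (1855425871872, 68719476736), (55029268480, 55029268480), (343597383680, 68719476736)] rfl (by decide +kernel)
theorem c1_m1_t28 : CovD 0 progs [(1614907703296, 34359738368), (2061584302080, 137438953472), (55029268480, 55029268480), (343597383680, 68719476736)] :=
  Pool.Agent.helper14.QF.covD_F chks_eq (.l 5)
    [(1614907703296, 34359738368), (2061584302080, 137438953472), (55029268480, 55029268480), (343597383680, 68719476736)] rfl (by decide +kernel)
end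
mutual
theorem c1_m1_t34 : CovD 0 progs [(1511828488192, 137438953472), (549755813888, 549755813888), (55029268480, 55029268480), (481036337152, 68719476736)] :=
  Pool.Agent.helper14.QF.covD_F chks_eq (.n 1 (.l 2) (.n 1 (.l 2) (.l 2)))
    [(1511828488192, 137438953472), (549755813888, 549755813888), (55029268480, 55029268480), (481036337152, 68719476736)] rfl (by decide +kernel)
theorem c1_m1_t35 : CovD 0 progs [(1511828488192, 137438953472), (1374389534720, 274877906944), (55029268480, 55029268480), (481036337152, 68719476736)] :=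
  Pool.Agent.helper14.QF.covD_F chks_eq (.n 1 (.n 1 (.l 2) (.n 2 (.l 2) (.l 2))) (.n 1 (.n 2 (.l 2) (.n 2 (.l 2) (.l 3))) (.n 0 (.n 2 (.l 2) (.l 3)) (.n 2 (.n 0 (.l 2) (.l 2)) (.n 2 (.l 2) (.n 0 (.l 2) (.l 2)))))))
    [(1511828488192, 137438953472), (1374389534720, 274877906944), (55029268480, 55029268480), (481036337152, 68719476736)] rfl (by decide +kernel)
end
mutual
theorem c1_m1_t36 : CovD 0 progs [(1408749273088, 34359738368), (1924145348608, 274877906944), (55029268480, 55029268480), (481036337152, 68719476736)] :=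
  Pool.Agent.helper14.QF.covD_F chks_eq (.n 1 (.n 1 (.n 2 (.l 2) (.l 3)) (.n 2 (.l 2) (.n 2 (.l 2) (.l 2)))) (.n 1 (.n 2 (.n 2 (.l 2) (.l 2)) (.n 1 (.n 2 (.l 2) (.l 2)) (.n 2 (.l 2) (.l 3)))) (.n 0 (.n 2 (.n 1 (.n 2 (.l 2) (.l 2)) (.n 2 (.l 2) (.l 2))) (.n 2 (.n 1 (.l 2) (.l 3)) (.n 2 (.l 3) (.l 3)))) (.n 1 (.n 2 (.n 2 (.l 2) (.l 2)) (.n 2 (.l 2) (.l 3))) (.l 5)))))
    [(1408749273088, 34359738368), (1924145348608, 274877906944), (55029268480, 55029268480), (481036337152, 68719476736)] rfl (by decide +kernel)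
theorem c1_m1_t37 : CovD 0 progs [(1477468749824, 34359738368), (1786706395136, 137438953472), (55029268480, 55029268480), (481036337152, 68719476736)] :=
  Pool.Agent.helper14.QF.covD_F chks_eq (.n 1 (.n 2 (.l 2) (.n 2 (.l 2) (.l 2))) (.n 2 (.n 2 (.l 2) (.l 2)) (.n 1 (.n 2 (.l 2) (.l 2)) (.n 2 (.l 2) (.l 2)))))
    [(1477468749824, 34359738368), (1786706395136, 137438953472), (55029268480, 55029268480), (481036337152, 68719476736)] rfl (by decide +kernel)
end
mutual
theorem c1_m1_t38 : CovD 0 progs [(1477468749824, 34359738368), (2061584302080, 137438953472), (55029268480, 55029268480), (481036337152, 68719476736)] :=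
  Pool.Agent.helper14.QF.covD_F chks_eq (.n 1 (.n 1 (.n 2 (.n 2 (.l 2) (.l 2)) (.n 0 (.n 2 (.l 2) (.l 2)) (.n 2 (.l 2) (.l 2)))) (.n 2 (.n 2 (.n 0 (.l 2) (.l 2)) (.n 2 (.l 2) (.l 2))) (.n 2 (.n 2 (.l 2) (.l 3)) (.n 0 (.l 3) (.n 0 (.l 3) (.l 5)))))) (.l 5))
    [(1477468749824, 34359738368), (2061584302080, 137438953472), (55029268480, 55029268480), (481036337152, 68719476736)] rfl (by decide +kernel)
theorem c1_m1_t41 : CovD 0 progs [(1546188226560, 34359738368), (1924145348608, 274877906944), (55029268480, 55029268480), (481036337152, 68719476736)] :=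
  Pool.Agent.helper14.QF.covD_F chks_eq (.n 1 (.n 1 (.n 2 (.n 0 (.l 2) (.l 2)) (.n 2 (.l 2) (.n 0 (.l 2) (.l 2)))) (.n 1 (.n 2 (.n 2 (.l 2) (.l 2)) (.n 2 (.l 2) (.l 3))) (.n 2 (.n 2 (.l 2) (.l 2)) (.n 2 (.n 0 (.l 2) (.l 2)) (.n 2 (.l 2) (.l 2)))))) (.n 0 (.n 1 (.n 1 (.n 1 (.n 2 (.n 2 (.l 2) (.l 2)) (.n 2 (.l 2) (.l 2))) (.l 5)) (.l 5)) (.l 5)) (.l 5)))
    [(1546188226560, 34359738368), (1924145348608, 274877906944), (55029268480, 55029268480), (481036337152, 68719476736)] rfl (by decide +kernel)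
theorem c1_m1_t42 : CovD 0 progs [(1614907703296, 34359738368), (1924145348608, 274877906944), (55029268480, 55029268480), (481036337152, 68719476736)] :=
  Pool.Agent.helper14.QF.covD_F chks_eq (.n 1 (.n 1 (.n 2 (.n 2 (.l 2) (.l 2)) (.n 1 (.n 2 (.l 2) (.l 2)) (.n 2 (.l 2) (.n 0 (.l 2) (.l 2))))) (.n 1 (.n 2 (.n 2 (.l 2) (.l 3)) (.n 2 (.n 2 (.l 2) (.l 2)) (.n 0 (.l 3) (.n 1 (.l 2) (.l 3))))) (.n 1 (.n 0 (.n 2 (.n 2 (.l 2) (.l 2)) (.n 2 (.l 2) (.l 2))) (.l 5)) (.l 5)))) (.l 5))
    [(1614907703296, 34359738368), (1924145348608, 274877906944), (55029268480, 55029268480), (481036337152, 68719476736)] rfl (by decide +kernel)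
end
theorem c1_m1_t5 : CovD 0 progs [(1305670057984, 68719476736), (1924145348608, 274877906944), (55029268480, 55029268480), (343597383680, 68719476736)] :=
  covD_split 0 (by decide +kernel) c1_m1_t3 c1_m1_t4
theorem c1_m1_t6 : CovD 0 progs [(1236950581248, 137438953472), (1924145348608, 274877906944), (55029268480, 55029268480), (343597383680, 68719476736)] :=
  covD_split 0 (by decide +kernel) c1_m1_t2 c1_m1_t5
theorem c1_m1_t9 : CovD 0 progs [(1236950581248, 137438953472), (1924145348608, 274877906944), (55029268480, 55029268480), (481036337152, 68719476736)] :=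
  covD_split 0 (by decide +kernel) c1_m1_t7 c1_m1_t8
theorem c1_m1_t10 : CovD 0 progs [(1236950581248, 137438953472), (1924145348608, 274877906944), (55029268480, 55029268480), (412316860416, 137438953472)] :=
  covD_split 3 (by decide +kernel) c1_m1_t6 c1_m1_t9
theorem c1_m1_t11 : CovD 0 progs [(1236950581248, 137438953472), (1649267441664, 549755813888), (55029268480, 55029268480), (412316860416, 137438953472)] :=
  covD_split 1 (by decide +kernel) c1_m1_t1 c1_m1_t10
theorem c1_m1_t12 : CovD 0 progs [(1236950581248, 137438953472), (1099511627776, 1099511627776), (55029268480, 55029268480), (412316860416, 137438953472)] :=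
  covD_split 1 (by decide +kernel) c1_m1_t0 c1_m1_t11
theorem c1_m1_t18 : CovD 0 progs [(1408749273088, 34359738368), (2061584302080, 137438953472), (55029268480, 55029268480), (343597383680, 68719476736)] :=
  covD_split 1 (by decide +kernel) c1_m1_t16 c1_m1_t17
theorem c1_m1_t20 : CovD 0 progs [(1443109011456, 68719476736), (2061584302080, 137438953472), (55029268480, 55029268480), (343597383680, 68719476736)] :=
  covD_split 0 (by decide +kernel) c1_m1_t18 c1_m1_t19
theorem c1_m1_t21 : CovD 0 progs [(1443109011456, 68719476736), (1924145348608, 274877906944), (55029268480, 55029268480), (343597383680, 68719476736)] :=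
  covD_split 1 (by decide +kernel) c1_m1_t15 c1_m1_t20
theorem c1_m1_t24 : CovD 0 progs [(1546188226560, 34359738368), (1924145348608, 274877906944), (55029268480, 55029268480), (343597383680, 68719476736)] :=
  covD_split 1 (by decide +kernel) c1_m1_t22 c1_m1_t23
theorem c1_m1_t27 : CovD 0 progs [(1614907703296, 34359738368), (1786706395136, 137438953472), (55029268480, 55029268480), (343597383680, 68719476736)] :=
  covD_split 1 (by decide +kernel) c1_m1_t25 c1_m1_t26
theorem c1_m1_t29 : CovD 0 progs [(1614907703296, 34359738368), (1924145348608, 274877906944), (55029268480, 55029268480), (343597383680, 68719476736)] :=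
  covD_split 1 (by decide +kernel) c1_m1_t27 c1_m1_t28
theorem c1_m1_t30 : CovD 0 progs [(1580547964928, 68719476736), (1924145348608, 274877906944), (55029268480, 55029268480), (343597383680, 68719476736)] :=
  covD_split 0 (by decide +kernel) c1_m1_t24 c1_m1_t29
theorem c1_m1_t31 : CovD 0 progs [(1511828488192, 137438953472), (1924145348608, 274877906944), (55029268480, 55029268480), (343597383680, 68719476736)] :=
  covD_split 0 (by decide +kernel) c1_m1_t21 c1_m1_t30
theorem c1_m1_t32 : CovD 0 progs [(1511828488192, 137438953472), (1649267441664, 549755813888), (55029268480, 55029268480), (343597383680, 68719476736)] :=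
  covD_split 1 (by decide +kernel) c1_m1_t14 c1_m1_t31
theorem c1_m1_t33 : CovD 0 progs [(1511828488192, 137438953472), (1099511627776, 1099511627776), (55029268480, 55029268480), (343597383680, 68719476736)] :=
  covD_split 1 (by decide +kernel) c1_m1_t13 c1_m1_t32
theorem c1_m1_t39 : CovD 0 progs [(1477468749824, 34359738368), (1924145348608, 274877906944), (55029268480, 55029268480), (481036337152, 68719476736)] :=
  covD_split 1 (by decide +kernel) c1_m1_t37 c1_m1_t38
theorem c1_m1_t40 : CovD 0 progs [(1443109011456, 68719476736), (1924145348608, 274877906944), (55029268480, 55029268480), (481036337152, 68719476736)] :=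
  covD_split 0 (by decide +kernel) c1_m1_t36 c1_m1_t39
theorem c1_m1_t43 : CovD 0 progs [(1580547964928, 68719476736), (1924145348608, 274877906944), (55029268480, 55029268480), (481036337152, 68719476736)] :=
  covD_split 0 (by decide +kernel) c1_m1_t41 c1_m1_t42
theorem c1_m1_t44 : CovD 0 progs [(1511828488192, 137438953472), (1924145348608, 274877906944), (55029268480, 55029268480), (481036337152, 68719476736)] :=
  covD_split 0 (by decide +kernel) c1_m1_t40 c1_m1_t43
theorem c1_m1_t45 : CovD 0 progs [(1511828488192, 137438953472), (1649267441664, 549755813888), (55029268480, 55029268480), (481036337152, 68719476736)] :=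
  covD_split 1 (by decide +kernel) c1_m1_t35 c1_m1_t44
theorem c1_m1_t46 : CovD 0 progs [(1511828488192, 137438953472), (1099511627776, 1099511627776), (55029268480, 55029268480), (481036337152, 68719476736)] :=
  covD_split 1 (by decide +kernel) c1_m1_t34 c1_m1_t45
theorem c1_m1_t47 : CovD 0 progs [(1511828488192, 137438953472), (1099511627776, 1099511627776), (55029268480, 55029268480), (412316860416, 137438953472)] :=
  covD_split 3 (by decide +kernel) c1_m1_t33 c1_m1_t46
theorem c1_m1 : CovD 0 progs [(1374389534720, 274877906944), (1099511627776, 1099511627776), (55029268480, 55029268480), (412316860416, 137438953472)] :=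
  covD_split 0 (by decide +kernel) c1_m1_t12 c1_m1_t47

end Pool.Agent.helper71.FJ.Crt.QHI
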