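import Pool.Agent.helper71.FJ.Crt.QHIP

/-!
Generated certificates.
-/

namespace Pool.Agent.helper71.FJ.Crt.QHI

open Pool.Agent.helper31.IA (Z Op)
open Pool.Agent.helper31.IC

mutual
theorem c1_m2_t0 : CovD 0 progs [(1374389534720, 274877906944), (549755813888, 549755813888), (55029268480, 55029268480), (618475290624, 68719476736)] :=
  Pool.Agent.helper14.QF.covD_F chks_eq (.n 1 (.l 2) (.n 1 (.l 2) (.l 3)))
    [(1374389534720, 274877906944), (549755813888, 549755813888), (55029268480, 55029268480), (618475290624, 68719476736)] rfl (by decide +kernel)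
theorem c1_m2_t1 : CovD 0 progs [(1374389534720, 274877906944), (1374389534720, 274877906944), (55029268480, 55029268480), (618475290624, 68719476736)] :=
  Pool.Agent.helper14.QF.covD_F chks_eq (.n 0 (.n 1 (.l 3) (.n 1 (.l 3) (.n 2 (.l 2) (.l 2)))) (.n 1 (.n 2 (.l 2) (.l 3)) (.n 0 (.n 2 (.l 2) (.n 1 (.l 2) (.l 2))) (.n 1 (.n 2 (.l 2) (.l 2)) (.n 2 (.l 2) (.n 2 (.l 2) (.l 2)))))))
    [(1374389534720, 274877906944), (1374389534720, 274877906944), (55029268480, 55029268480), (618475290624, 68719476736)] rfl (by decide +kernel)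
end
mutual
theorem c1_m2_t2 : CovD 0 progs [(1236950581248, 137438953472), (1786706395136, 137438953472), (55029268480, 55029268480), (618475290624, 68719476736)] :=
  Pool.Agent.helper14.QF.covD_F chks_eq (.n 0 (.n 2 (.l 2) (.l 3)) (.n 1 (.n 2 (.l 2) (.l 2)) (.n 2 (.l 2) (.n 0 (.l 2) (.l 3)))))
    [(1236950581248, 137438953472), (1786706395136, 137438953472), (55029268480, 55029268480), (618475290624, 68719476736)] rfl (by decide +kernel)
theorem c1_m2_t3 : CovD 0 progs [(1443109011456, 68719476736), (1786706395136, 137438953472), (55029268480, 55029268480), (618475290624, 68719476736)] :=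
  Pool.Agent.helper14.QF.covD_F chks_eq (.n 1 (.n 2 (.l 2) (.n 2 (.l 2) (.l 2))) (.n 2 (.n 2 (.l 2) (.l 2)) (.n 2 (.l 2) (.n 0 (.l 2) (.l 3)))))
    [(1443109011456, 68719476736), (1786706395136, 137438953472), (55029268480, 55029268480), (618475290624, 68719476736)] rfl (by decide +kernel)
end
mutual
theorem c1_m2_t4 : CovD 0 progs [(1580547964928, 68719476736), (1786706395136, 137438953472), (55029268480, 55029268480), (618475290624, 68719476736)] :=
  Pool.Agent.helper14.QF.covD_F chks_eq (.n 1 (.n 2 (.n 2 (.l 2) (.l 2)) (.n 0 (.n 2 (.l 2) (.l 2)) (.n 2 (.l 2) (.n 0 (.l 2) (.l 3))))) (.n 1 (.n 2 (.n 2 (.l 2) (.l 2)) (.n 2 (.n 0 (.l 2) (.l 2)) (.n 3 (.l 3) (.l 2)))) (.n 0 (.n 2 (.n 2 (.l 2) (.l 2)) (.n 2 (.l 2) (.l 3))) (.n 0 (.n 1 (.n 2 (.l 2) (.n 2 (.l 2) (.l 2))) (.l 5)) (.l 5)))))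
    [(1580547964928, 68719476736), (1786706395136, 137438953472), (55029268480, 55029268480), (618475290624, 68719476736)] rfl (by decide +kernel)
theorem c1_m2_t7 : CovD 0 progs [(1236950581248, 137438953472), (2061584302080, 137438953472), (55029268480, 55029268480), (618475290624, 68719476736)] :=
  Pool.Agent.helper14.QF.covD_F chks_eq (.n 2 (.n 0 (.n 1 (.l 2) (.l 2)) (.n 0 (.n 2 (.l 2) (.l 2)) (.n 1 (.l 2) (.n 2 (.l 2) (.l 2))))) (.n 0 (.n 1 (.l 3) (.n 2 (.l 2) (.l 2))) (.n 1 (.n 2 (.l 2) (.l 3)) (.n 0 (.n 2 (.l 2) (.l 2)) (.n 2 (.l 2) (.n 0 (.l 2) (.l 3)))))))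
    [(1236950581248, 137438953472), (2061584302080, 137438953472), (55029268480, 55029268480), (618475290624, 68719476736)] rfl (by decide +kernel)
end
mutual
theorem c1_m2_t8 : CovD 0 progs [(1511828488192, 137438953472), (1992864825344, 68719476736), (55029268480, 55029268480), (618475290624, 68719476736)] :=
  Pool.Agent.helper14.QF.covD_F chks_eq (.n 0 (.n 2 (.n 2 (.n 3 (.l 2) (.l 2)) (.n 3 (.l 2) (.l 2))) (.n 0 (.n 2 (.l 2) (.n 0 (.l 2) (.l 2))) (.n 2 (.n 1 (.l 2) (.l 2)) (.n 3 (.l 3) (.l 2))))) (.n 1 (.n 0 (.n 0 (.n 1 (.n 2 (.l 2) (.n 2 (.l 2) (.l 2))) (.l 5)) (.l 5)) (.l 5)) (.l 5)))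
    [(1511828488192, 137438953472), (1992864825344, 68719476736), (55029268480, 55029268480), (618475290624, 68719476736)] rfl (by decide +kernel)
theorem c1_m2_t9 : CovD 0 progs [(1511828488192, 137438953472), (2130303778816, 68719476736), (55029268480, 55029268480), (618475290624, 68719476736)] :=
  Pool.Agent.helper14.QF.covD_F chks_eq (.n 0 (.n 0 (.n 1 (.n 2 (.n 2 (.l 2) (.l 2)) (.n 2 (.l 2) (.l 3))) (.n 0 (.n 2 (.n 2 (.l 2) (.l 2)) (.n 2 (.l 2) (.l 2))) (.l 5))) (.l 5)) (.l 5))
    [(1511828488192, 137438953472), (2130303778816, 68719476736), (55029268480, 55029268480), (618475290624, 68719476736)] rfl (by decide +kernel)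
end
mutual
theorem c1_m2_t15 : CovD 0 progs [(1374389534720, 274877906944), (549755813888, 549755813888), (55029268480, 55029268480), (755914244096, 68719476736)] :=
  Pool.Agent.helper14.QF.covD_F chks_eq (.n 1 (.l 2) (.n 1 (.l 2) (.l 3)))
    [(1374389534720, 274877906944), (549755813888, 549755813888), (55029268480, 55029268480), (755914244096, 68719476736)] rfl (by decide +kernel)
theorem c1_m2_t16 : CovD 0 progs [(1236950581248, 137438953472), (1649267441664, 549755813888), (55029268480, 55029268480), (755914244096, 68719476736)] :=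
  Pool.Agent.helper14.QF.covD_F chks_eq (.n 2 (.n 1 (.l 2) (.n 0 (.n 1 (.l 2) (.l 2)) (.n 1 (.l 2) (.n 1 (.l 2) (.n 2 (.l 2) (.l 2)))))) (.n 1 (.n 1 (.l 2) (.l 3)) (.n 0 (.n 1 (.l 2) (.n 2 (.l 2) (.l 3))) (.n 1 (.n 1 (.l 2) (.l 3)) (.n 1 (.n 2 (.l 2) (.l 2)) (.n 2 (.l 2) (.l 3)))))))
    [(1236950581248, 137438953472), (1649267441664, 549755813888), (55029268480, 55029268480), (755914244096, 68719476736)] rfl (by decide +kernel)
end
mutual
theorem c1_m2_t17 : CovD 0 progs [(1511828488192, 137438953472), (1374389534720, 274877906944), (55029268480, 55029268480), (755914244096, 68719476736)] :=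
  Pool.Agent.helper14.QF.covD_F chks_eq (.n 1 (.n 2 (.l 2) (.l 2)) (.n 0 (.n 2 (.l 2) (.l 3)) (.n 2 (.l 2) (.n 2 (.l 2) (.l 3)))))
    [(1511828488192, 137438953472), (1374389534720, 274877906944), (55029268480, 55029268480), (755914244096, 68719476736)] rfl (by decide +kernel)
theorem c1_m2_t18 : CovD 0 progs [(1511828488192, 137438953472), (1786706395136, 137438953472), (55029268480, 55029268480), (755914244096, 68719476736)] :=
  Pool.Agent.helper14.QF.covD_F chks_eq (.n 0 (.n 2 (.n 2 (.l 2) (.l 2)) (.n 1 (.l 3) (.n 2 (.l 2) (.l 2)))) (.n 2 (.n 2 (.n 3 (.l 2) (.l 2)) (.n 3 (.l 2) (.l 2))) (.n 1 (.n 2 (.l 2) (.l 3)) (.n 2 (.n 0 (.l 2) (.l 2)) (.n 3 (.l 3) (.l 2))))))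
    [(1511828488192, 137438953472), (1786706395136, 137438953472), (55029268480, 55029268480), (755914244096, 68719476736)] rfl (by decide +kernel)
end
mutual
theorem c1_m2_t19 : CovD 0 progs [(1511828488192, 137438953472), (2061584302080, 137438953472), (55029268480, 55029268480), (755914244096, 68719476736)] :=
  Pool.Agent.helper14.QF.covD_F chks_eq (.n 0 (.n 1 (.n 2 (.n 2 (.l 2) (.l 2)) (.n 2 (.l 2) (.n 0 (.l 2) (.l 3)))) (.n 0 (.n 2 (.n 2 (.l 2) (.l 2)) (.n 2 (.l 2) (.n 0 (.l 2) (.l 3)))) (.l 5))) (.n 0 (.n 0 (.n 1 (.n 1 (.n 1 (.n 2 (.l 2) (.l 3)) (.l 5)) (.l 5)) (.l 5)) (.l 5)) (.l 5)))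
    [(1511828488192, 137438953472), (2061584302080, 137438953472), (55029268480, 55029268480), (755914244096, 68719476736)] rfl (by decide +kernel)
theorem c1_m2_t25 : CovD 0 progs [(1374389534720, 274877906944), (549755813888, 549755813888), (55029268480, 55029268480), (893353197568, 68719476736)] :=
  Pool.Agent.helper14.QF.covD_F chks_eq (.n 1 (.l 2) (.n 1 (.l 2) (.l 3)))
    [(1374389534720, 274877906944), (549755813888, 549755813888), (55029268480, 55029268480), (893353197568, 68719476736)] rfl (by decide +kernel)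
end
mutual
theorem c1_m2_t26 : CovD 0 progs [(1374389534720, 274877906944), (1374389534720, 274877906944), (55029268480, 55029268480), (893353197568, 68719476736)] :=
  Pool.Agent.helper14.QF.covD_F chks_eq (.n 1 (.n 2 (.l 2) (.l 3)) (.n 0 (.n 1 (.l 2) (.l 3)) (.n 2 (.l 2) (.n 0 (.l 2) (.l 3)))))
    [(1374389534720, 274877906944), (1374389534720, 274877906944), (55029268480, 55029268480), (893353197568, 68719476736)] rfl (by decide +kernel)
theorem c1_m2_t27 : CovD 0 progs [(1374389534720, 274877906944), (1786706395136, 137438953472), (55029268480, 55029268480), (893353197568, 68719476736)] :=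
  Pool.Agent.helper14.QF.covD_F chks_eq (.n 0 (.n 2 (.l 2) (.n 0 (.l 2) (.l 3))) (.n 0 (.n 2 (.l 2) (.n 1 (.l 2) (.l 3))) (.n 2 (.n 2 (.l 2) (.l 2)) (.n 2 (.l 2) (.n 1 (.l 2) (.l 2))))))
    [(1374389534720, 274877906944), (1786706395136, 137438953472), (55029268480, 55029268480), (893353197568, 68719476736)] rfl (by decide +kernel)
end
mutual
theorem c1_m2_t28 : CovD 0 progs [(1374389534720, 274877906944), (2061584302080, 137438953472), (55029268480, 55029268480), (893353197568, 68719476736)] :=
  Pool.Agent.helper14.QF.covD_F chks_eq (.n 0 (.n 2 (.n 2 (.l 2) (.l 2)) (.n 0 (.n 0 (.l 2) (.l 3)) (.n 2 (.l 2) (.l 3)))) (.n 0 (.n 2 (.n 3 (.n 0 (.l 2) (.l 2)) (.l 2)) (.n 2 (.n 0 (.l 2) (.l 2)) (.n 3 (.l 3) (.l 2)))) (.n 0 (.n 1 (.n 1 (.n 0 (.n 2 (.l 2) (.l 3)) (.l 5)) (.l 5)) (.l 5)) (.l 5))))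
    [(1374389534720, 274877906944), (2061584302080, 137438953472), (55029268480, 55029268480), (893353197568, 68719476736)] rfl (by decide +kernel)
theorem c1_m2_t32 : CovD 0 progs [(1374389534720, 274877906944), (1099511627776, 1099511627776), (55029268480, 55029268480), (1030792151040, 68719476736)] :=
  Pool.Agent.helper14.QF.covD_F chks_eq (.n 1 (.n 1 (.l 0) (.n 1 (.l 2) (.l 3))) (.n 1 (.n 2 (.l 2) (.n 0 (.l 3) (.n 1 (.l 2) (.l 2)))) (.n 0 (.n 1 (.n 2 (.l 2) (.l 3)) (.n 2 (.l 2) (.n 1 (.l 2) (.l 3)))) (.n 2 (.n 3 (.n 2 (.l 2) (.l 2)) (.l 2)) (.n 1 (.n 2 (.l 2) (.l 3)) (.n 2 (.n 2 (.l 2) (.l 2)) (.n 3 (.l 3) (.l 2))))))))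
    [(1374389534720, 274877906944), (1099511627776, 1099511627776), (55029268480, 55029268480), (1030792151040, 68719476736)] rfl (by decide +kernel)
end
theorem c1_m2_t5 : CovD 0 progs [(1511828488192, 137438953472), (1786706395136, 137438953472), (55029268480, 55029268480), (618475290624, 68719476736)] :=
  covD_split 0 (by decide +kernel) c1_m2_t3 c1_m2_t4
theorem c1_m2_t6 : CovD 0 progs [(1374389534720, 274877906944), (1786706395136, 137438953472), (55029268480, 55029268480), (618475290624, 68719476736)] :=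
  covD_split 0 (by decide +kernel) c1_m2_t2 c1_m2_t5
theorem c1_m2_t10 : CovD 0 progs [(1511828488192, 137438953472), (2061584302080, 137438953472), (55029268480, 55029268480), (618475290624, 68719476736)] :=
  covD_split 1 (by decide +kernel) c1_m2_t8 c1_m2_t9
theorem c1_m2_t11 : CovD 0 progs [(1374389534720, 274877906944), (2061584302080, 137438953472), (55029268480, 55029268480), (618475290624, 68719476736)] :=
  covD_split 0 (by decide +kernel) c1_m2_t7 c1_m2_t10
theorem c1_m2_t12 : CovD 0 progs [(1374389534720, 274877906944), (1924145348608, 274877906944), (55029268480, 55029268480), (618475290624, 68719476736)] :=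
  covD_split 1 (by decide +kernel) c1_m2_t6 c1_m2_t11
theorem c1_m2_t13 : CovD 0 progs [(1374389534720, 274877906944), (1649267441664, 549755813888), (55029268480, 55029268480), (618475290624, 68719476736)] :=
  covD_split 1 (by decide +kernel) c1_m2_t1 c1_m2_t12
theorem c1_m2_t14 : CovD 0 progs [(1374389534720, 274877906944), (1099511627776, 1099511627776), (55029268480, 55029268480), (618475290624, 68719476736)] :=
  covD_split 1 (by decide +kernel) c1_m2_t0 c1_m2_t13
theorem c1_m2_t20 : CovD 0 progs [(1511828488192, 137438953472), (1924145348608, 274877906944), (55029268480, 55029268480), (755914244096, 68719476736)] :=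
  covD_split 1 (by decide +kernel) c1_m2_t18 c1_m2_t19
theorem c1_m2_t21 : CovD 0 progs [(1511828488192, 137438953472), (1649267441664, 549755813888), (55029268480, 55029268480), (755914244096, 68719476736)] :=
  covD_split 1 (by decide +kernel) c1_m2_t17 c1_m2_t20
theorem c1_m2_t22 : CovD 0 progs [(1374389534720, 274877906944), (1649267441664, 549755813888), (55029268480, 55029268480), (755914244096, 68719476736)] :=
  covD_split 0 (by decide +kernel) c1_m2_t16 c1_m2_t21
theorem c1_m2_t23 : CovD 0 progs [(1374389534720, 274877906944), (1099511627776, 1099511627776), (55029268480, 55029268480), (755914244096, 68719476736)] :=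
  covD_split 1 (by decide +kernel) c1_m2_t15 c1_m2_t22
theorem c1_m2_t24 : CovD 0 progs [(1374389534720, 274877906944), (1099511627776, 1099511627776), (55029268480, 55029268480), (687194767360, 137438953472)] :=
  covD_split 3 (by decide +kernel) c1_m2_t14 c1_m2_t23
theorem c1_m2_t29 : CovD 0 progs [(1374389534720, 274877906944), (1924145348608, 274877906944), (55029268480, 55029268480), (893353197568, 68719476736)] :=
  covD_split 1 (by decide +kernel) c1_m2_t27 c1_m2_t28
theorem c1_m2_t30 : CovD 0 progs [(1374389534720, 274877906944), (1649267441664, 549755813888), (55029268480, 55029268480), (893353197568, 68719476736)] :=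
  covD_split 1 (by decide +kernel) c1_m2_t26 c1_m2_t29
theorem c1_m2_t31 : CovD 0 progs [(1374389534720, 274877906944), (1099511627776, 1099511627776), (55029268480, 55029268480), (893353197568, 68719476736)] :=
  covD_split 1 (by decide +kernel) c1_m2_t25 c1_m2_t30
theorem c1_m2_t33 : CovD 0 progs [(1374389534720, 274877906944), (1099511627776, 1099511627776), (55029268480, 55029268480), (962072674304, 137438953472)] :=
  covD_split 3 (by decide +kernel) c1_m2_t31 c1_m2_t32
theorem c1_m2 : CovD 0 progs [(1374389534720, 274877906944), (1099511627776, 1099511627776), (55029268480, 55029268480), (824633720832, 274877906944)] :=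
  covD_split 3 (by decide +kernel) c1_m2_t24 c1_m2_t33

end Pool.Agent.helper71.FJ.Crt.QHI
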