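import Pool.Agent.helper71.FJ.Crt.QHIP

/-!
Generated certificates.
-/

namespace Pool.Agent.helper71.FJ.Crt.QHI

open Pool.Agent.helper31.IA (Z Op)
open Pool.Agent.helper31.IC

mutual
theorem c1_m3_t0 : CovD 0 progs [(1924145348608, 274877906944), (274877906944, 274877906944), (55029268480, 55029268480), (549755813888, 549755813888)] :=
  Pool.Agent.helper14.QF.covD_F chks_eq (.n 1 (.l 2) (.l 3))
    [(1924145348608, 274877906944), (274877906944, 274877906944), (55029268480, 55029268480), (549755813888, 549755813888)] rfl (by decide +kernel)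
theorem c1_m3_t1 : CovD 0 progs [(1924145348608, 274877906944), (687194767360, 137438953472), (55029268480, 55029268480), (549755813888, 549755813888)] :=
  Pool.Agent.helper14.QF.covD_F chks_eq (.n 3 (.n 0 (.l 2) (.n 1 (.l 2) (.l 3))) (.n 1 (.l 2) (.n 3 (.l 2) (.l 2))))
    [(1924145348608, 274877906944), (687194767360, 137438953472), (55029268480, 55029268480), (549755813888, 549755813888)] rfl (by decide +kernel)
end
mutual
theorem c1_m3_t2 : CovD 0 progs [(1924145348608, 274877906944), (893353197568, 68719476736), (55029268480, 55029268480), (549755813888, 549755813888)] :=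
  Pool.Agent.helper14.QF.covD_F chks_eq (.n 2 (.n 3 (.n 3 (.l 2) (.l 2)) (.n 3 (.l 2) (.l 2))) (.n 3 (.n 0 (.l 2) (.n 3 (.l 2) (.l 2))) (.n 3 (.l 2) (.l 2))))
    [(1924145348608, 274877906944), (893353197568, 68719476736), (55029268480, 55029268480), (549755813888, 549755813888)] rfl (by decide +kernel)
theorem c1_m3_t3 : CovD 0 progs [(1924145348608, 274877906944), (1030792151040, 68719476736), (55029268480, 55029268480), (549755813888, 549755813888)] :=
  Pool.Agent.helper14.QF.covD_F chks_eq (.n 2 (.n 3 (.n 1 (.n 3 (.l 2) (.l 2)) (.n 0 (.l 2) (.n 3 (.l 2) (.l 2)))) (.n 3 (.n 0 (.l 2) (.l 2)) (.l 2))) (.n 0 (.n 3 (.n 3 (.l 2) (.l 2)) (.n 3 (.l 2) (.l 2))) (.n 3 (.n 1 (.n 3 (.l 2) (.l 2)) (.n 3 (.n 2 (.l 2) (.l 2)) (.n 3 (.l 3) (.l 2)))) (.n 3 (.n 3 (.l 2) (.l 2)) (.l 2)))))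
    [(1924145348608, 274877906944), (1030792151040, 68719476736), (55029268480, 55029268480), (549755813888, 549755813888)] rfl (by decide +kernel)
end
theorem c1_m3_t4 : CovD 0 progs [(1924145348608, 274877906944), (962072674304, 137438953472), (55029268480, 55029268480), (549755813888, 549755813888)] :=
  covD_split 1 (by decide +kernel) c1_m3_t2 c1_m3_t3
theorem c1_m3_t5 : CovD 0 progs [(1924145348608, 274877906944), (824633720832, 274877906944), (55029268480, 55029268480), (549755813888, 549755813888)] :=
  covD_split 1 (by decide +kernel) c1_m3_t1 c1_m3_t4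
theorem c1_m3 : CovD 0 progs [(1924145348608, 274877906944), (549755813888, 549755813888), (55029268480, 55029268480), (549755813888, 549755813888)] :=
  covD_split 1 (by decide +kernel) c1_m3_t0 c1_m3_t5

end Pool.Agent.helper71.FJ.Crt.QHI
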