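import Pool.Agent.helper71.FJ.Crt.QHIP

/-!
Generated certificates.
-/

namespace Pool.Agent.helper71.FJ.Crt.QHI

open Pool.Agent.helper31.IA (Z Op)
open Pool.Agent.helper31.IC

mutual
theorem c1_m4_t0 : CovD 0 progs [(1924145348608, 274877906944), (1168231104512, 68719476736), (27514634240, 27514634240), (549755813888, 549755813888)] :=
  Pool.Agent.helper14.QF.covD_F chks_eq (.n 0 (.n 3 (.n 3 (.l 2) (.n 0 (.l 2) (.l 2))) (.n 3 (.l 2) (.l 2))) (.n 2 (.n 3 (.n 0 (.n 3 (.l 2) (.l 2)) (.n 3 (.n 0 (.l 2) (.l 2)) (.n 3 (.l 2) (.l 2)))) (.n 3 (.n 3 (.l 2) (.l 2)) (.l 2))) (.n 3 (.n 0 (.n 3 (.l 2) (.l 2)) (.n 3 (.n 1 (.l 2) (.l 2)) (.n 3 (.l 2) (.l 2)))) (.n 3 (.n 3 (.l 2) (.l 2)) (.n 0 (.l 2) (.l 2))))))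
    [(1924145348608, 274877906944), (1168231104512, 68719476736), (27514634240, 27514634240), (549755813888, 549755813888)] rfl (by decide +kernel)
theorem c1_m4_t1 : CovD 0 progs [(1786706395136, 137438953472), (1305670057984, 68719476736), (27514634240, 27514634240), (549755813888, 549755813888)] :=
  Pool.Agent.helper14.QF.covD_F chks_eq (.n 0 (.n 3 (.n 3 (.l 2) (.l 2)) (.n 3 (.l 2) (.l 2))) (.n 1 (.n 3 (.n 3 (.l 2) (.l 2)) (.n 3 (.l 2) (.l 2))) (.n 3 (.n 3 (.l 2) (.n 2 (.l 2) (.l 2))) (.n 2 (.n 3 (.l 2) (.l 2)) (.n 3 (.l 2) (.l 2))))))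
    [(1786706395136, 137438953472), (1305670057984, 68719476736), (27514634240, 27514634240), (549755813888, 549755813888)] rfl (by decide +kernel)
end
mutual
theorem c1_m4_t2 : CovD 0 progs [(2061584302080, 137438953472), (1271310319616, 34359738368), (27514634240, 27514634240), (549755813888, 549755813888)] :=
  Pool.Agent.helper14.QF.covD_F chks_eq (.n 2 (.n 3 (.n 0 (.n 3 (.l 2) (.l 2)) (.n 3 (.n 3 (.l 2) (.l 2)) (.n 3 (.l 2) (.l 2)))) (.n 3 (.n 3 (.l 2) (.l 2)) (.n 3 (.l 2) (.l 2)))) (.n 3 (.n 0 (.n 3 (.l 2) (.n 0 (.l 2) (.l 2))) (.n 3 (.n 3 (.l 2) (.l 2)) (.n 3 (.l 2) (.l 2)))) (.n 3 (.n 3 (.l 2) (.l 2)) (.n 3 (.l 2) (.l 2)))))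
    [(2061584302080, 137438953472), (1271310319616, 34359738368), (27514634240, 27514634240), (549755813888, 549755813888)] rfl (by decide +kernel)
theorem c1_m4_t3 : CovD 0 progs [(2061584302080, 137438953472), (1340029796352, 34359738368), (13757317120, 13757317120), (549755813888, 549755813888)] :=
  Pool.Agent.helper14.QF.covD_F chks_eq (.n 3 (.n 1 (.n 0 (.n 3 (.l 2) (.l 2)) (.n 3 (.n 3 (.l 2) (.l 2)) (.n 3 (.l 2) (.l 2)))) (.n 0 (.n 3 (.l 2) (.n 0 (.l 2) (.l 2))) (.n 3 (.n 0 (.l 2) (.n 3 (.l 2) (.l 2))) (.n 3 (.n 0 (.l 2) (.l 2)) (.l 2))))) (.n 3 (.n 3 (.n 0 (.l 2) (.l 2)) (.l 2)) (.n 3 (.l 2) (.l 2))))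
    [(2061584302080, 137438953472), (1340029796352, 34359738368), (13757317120, 13757317120), (549755813888, 549755813888)] rfl (by decide +kernel)
end
mutual
theorem c1_m4_t4 : CovD 0 progs [(2061584302080, 137438953472), (1340029796352, 34359738368), (41271951360, 13757317120), (274877906944, 274877906944)] :=
  Pool.Agent.helper14.QF.covD_F chks_eq (.n 3 (.n 0 (.n 3 (.l 2) (.l 2)) (.n 0 (.n 1 (.l 2) (.n 3 (.l 2) (.l 2))) (.n 1 (.n 3 (.l 2) (.l 2)) (.n 2 (.n 3 (.l 2) (.l 2)) (.n 3 (.l 2) (.n 0 (.l 2) (.l 2))))))) (.n 0 (.n 3 (.l 2) (.l 2)) (.n 0 (.n 3 (.l 2) (.l 2)) (.n 3 (.n 0 (.l 2) (.n 1 (.l 2) (.l 2))) (.l 2)))))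
    [(2061584302080, 137438953472), (1340029796352, 34359738368), (41271951360, 13757317120), (274877906944, 274877906944)] rfl (by decide +kernel)
theorem c1_m4_t5 : CovD 0 progs [(2061584302080, 137438953472), (1340029796352, 34359738368), (41271951360, 13757317120), (824633720832, 274877906944)] :=
  Pool.Agent.helper14.QF.covD_F chks_eq (.n 3 (.n 3 (.n 0 (.l 2) (.l 2)) (.l 2)) (.n 3 (.l 2) (.l 2)))
    [(2061584302080, 137438953472), (1340029796352, 34359738368), (41271951360, 13757317120), (824633720832, 274877906944)] rfl (by decide +kernel)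
end
mutual
theorem c1_m4_t11 : CovD 0 progs [(1786706395136, 137438953472), (1408749273088, 34359738368), (27514634240, 27514634240), (549755813888, 549755813888)] :=
  Pool.Agent.helper14.QF.covD_F chks_eq (.n 2 (.n 3 (.n 0 (.n 3 (.l 2) (.l 2)) (.n 3 (.l 2) (.n 0 (.l 2) (.l 2)))) (.n 3 (.n 3 (.l 2) (.l 2)) (.n 0 (.l 2) (.l 2)))) (.n 3 (.n 0 (.n 3 (.l 2) (.l 2)) (.n 3 (.n 0 (.l 2) (.l 2)) (.n 3 (.l 2) (.l 2)))) (.n 3 (.n 3 (.l 2) (.l 2)) (.n 2 (.l 2) (.l 2)))))
    [(1786706395136, 137438953472), (1408749273088, 34359738368), (27514634240, 27514634240), (549755813888, 549755813888)] rfl (by decide +kernel)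
theorem c1_m4_t12 : CovD 0 progs [(2061584302080, 137438953472), (1391569403904, 17179869184), (13757317120, 13757317120), (549755813888, 549755813888)] :=
  Pool.Agent.helper14.QF.covD_F chks_eq (.n 3 (.n 3 (.n 0 (.n 0 (.l 2) (.l 2)) (.n 0 (.n 3 (.l 2) (.l 2)) (.n 0 (.n 3 (.l 2) (.l 2)) (.l 5)))) (.n 0 (.n 3 (.l 2) (.l 2)) (.n 0 (.n 3 (.l 2) (.l 2)) (.n 0 (.n 3 (.l 2) (.l 2)) (.l 5))))) (.n 3 (.n 3 (.n 0 (.l 2) (.l 2)) (.l 2)) (.n 3 (.l 2) (.l 2))))
    [(2061584302080, 137438953472), (1391569403904, 17179869184), (13757317120, 13757317120), (549755813888, 549755813888)] rfl (by decide +kernel)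
end
mutual
theorem c1_m4_t13 : CovD 0 progs [(2061584302080, 137438953472), (1425929142272, 17179869184), (13757317120, 13757317120), (549755813888, 549755813888)] :=
  Pool.Agent.helper14.QF.covD_F chks_eq (.n 3 (.n 0 (.n 3 (.n 0 (.l 2) (.n 0 (.l 2) (.l 2))) (.n 3 (.l 2) (.l 2))) (.n 0 (.n 3 (.n 2 (.n 3 (.l 2) (.l 2)) (.n 3 (.l 2) (.l 2))) (.n 3 (.l 2) (.l 2))) (.l 5))) (.n 3 (.n 3 (.n 0 (.l 2) (.l 2)) (.l 2)) (.n 3 (.l 2) (.l 2))))
    [(2061584302080, 137438953472), (1425929142272, 17179869184), (13757317120, 13757317120), (549755813888, 549755813888)] rfl (by decide +kernel)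
theorem c1_m4_t15 : CovD 0 progs [(2061584302080, 137438953472), (1391569403904, 17179869184), (41271951360, 13757317120), (274877906944, 274877906944)] :=
  Pool.Agent.helper14.QF.covD_F chks_eq (.n 3 (.n 3 (.n 0 (.l 2) (.n 0 (.n 0 (.l 2) (.l 2)) (.n 0 (.n 1 (.l 2) (.l 5)) (.l 5)))) (.n 0 (.l 2) (.n 0 (.n 2 (.l 2) (.l 2)) (.n 0 (.n 1 (.l 2) (.l 5)) (.l 5))))) (.n 0 (.n 3 (.l 2) (.l 2)) (.n 0 (.n 3 (.l 2) (.l 2)) (.n 0 (.n 1 (.n 3 (.l 2) (.l 2)) (.l 5)) (.l 5)))))
    [(2061584302080, 137438953472), (1391569403904, 17179869184), (41271951360, 13757317120), (274877906944, 274877906944)] rfl (by decide +kernel)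
end
mutual
theorem c1_m4_t16 : CovD 0 progs [(2061584302080, 137438953472), (1425929142272, 17179869184), (41271951360, 13757317120), (274877906944, 274877906944)] :=
  Pool.Agent.helper14.QF.covD_F chks_eq (.n 0 (.n 2 (.n 3 (.n 3 (.l 2) (.l 2)) (.n 3 (.l 2) (.l 2))) (.n 3 (.n 0 (.l 2) (.n 3 (.l 2) (.l 2))) (.n 3 (.l 2) (.l 2)))) (.n 0 (.n 1 (.n 3 (.n 2 (.n 3 (.l 2) (.l 2)) (.n 3 (.l 2) (.l 2))) (.n 3 (.n 0 (.l 2) (.l 2)) (.l 2))) (.n 0 (.n 0 (.n 3 (.n 3 (.l 2) (.l 2)) (.n 3 (.l 2) (.l 2))) (.l 5)) (.l 5))) (.l 5)))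
    [(2061584302080, 137438953472), (1425929142272, 17179869184), (41271951360, 13757317120), (274877906944, 274877906944)] rfl (by decide +kernel)
theorem c1_m4_t18 : CovD 0 progs [(2061584302080, 137438953472), (1408749273088, 34359738368), (41271951360, 13757317120), (824633720832, 274877906944)] :=
  Pool.Agent.helper14.QF.covD_F chks_eq (.n 3 (.n 0 (.n 3 (.l 2) (.l 2)) (.n 3 (.n 0 (.l 2) (.l 2)) (.l 2))) (.n 3 (.l 2) (.l 2)))
    [(2061584302080, 137438953472), (1408749273088, 34359738368), (41271951360, 13757317120), (824633720832, 274877906944)] rfl (by decide +kernel)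
end
mutual
theorem c1_m4_t22 : CovD 0 progs [(1786706395136, 137438953472), (1477468749824, 34359738368), (27514634240, 27514634240), (549755813888, 549755813888)] :=
  Pool.Agent.helper14.QF.covD_F chks_eq (.n 2 (.n 3 (.n 0 (.n 3 (.l 2) (.l 2)) (.n 3 (.n 0 (.l 2) (.n 0 (.l 2) (.l 2))) (.n 3 (.l 2) (.l 2)))) (.n 3 (.n 3 (.l 2) (.l 2)) (.n 3 (.l 2) (.l 2)))) (.n 3 (.n 0 (.n 3 (.l 2) (.n 0 (.l 2) (.l 2))) (.n 3 (.n 0 (.l 2) (.n 3 (.l 2) (.l 2))) (.n 3 (.l 2) (.l 2)))) (.n 3 (.n 3 (.l 2) (.l 2)) (.n 3 (.l 2) (.l 2)))))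
    [(1786706395136, 137438953472), (1477468749824, 34359738368), (27514634240, 27514634240), (549755813888, 549755813888)] rfl (by decide +kernel)
theorem c1_m4_t23 : CovD 0 progs [(1992864825344, 68719476736), (1477468749824, 34359738368), (13757317120, 13757317120), (549755813888, 549755813888)] :=
  Pool.Agent.helper14.QF.covD_F chks_eq (.n 3 (.n 3 (.n 0 (.n 3 (.l 2) (.n 0 (.l 2) (.l 2))) (.n 1 (.n 3 (.l 2) (.l 2)) (.n 0 (.n 0 (.n 1 (.l 2) (.l 5)) (.l 5)) (.l 5)))) (.n 3 (.n 0 (.l 2) (.n 1 (.l 2) (.n 0 (.l 2) (.l 2)))) (.n 3 (.l 2) (.l 2)))) (.n 3 (.n 3 (.l 2) (.l 2)) (.n 3 (.l 2) (.l 2))))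
    [(1992864825344, 68719476736), (1477468749824, 34359738368), (13757317120, 13757317120), (549755813888, 549755813888)] rfl (by decide +kernel)
end
mutual
theorem c1_m4_t24 : CovD 0 progs [(1992864825344, 68719476736), (1477468749824, 34359738368), (41271951360, 13757317120), (274877906944, 274877906944)] :=
  Pool.Agent.helper14.QF.covD_F chks_eq (.n 0 (.n 3 (.n 1 (.n 3 (.l 2) (.l 2)) (.n 2 (.n 3 (.l 2) (.l 2)) (.n 3 (.l 2) (.l 2)))) (.n 3 (.n 2 (.l 2) (.l 2)) (.l 2))) (.n 1 (.n 3 (.n 0 (.n 3 (.l 2) (.l 2)) (.n 1 (.n 3 (.l 2) (.l 2)) (.l 5))) (.n 3 (.n 2 (.l 2) (.l 2)) (.l 2))) (.n 1 (.n 0 (.n 0 (.n 3 (.n 3 (.l 2) (.l 2)) (.n 3 (.l 2) (.l 2))) (.l 5)) (.l 5)) (.l 5))))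
    [(1992864825344, 68719476736), (1477468749824, 34359738368), (41271951360, 13757317120), (274877906944, 274877906944)] rfl (by decide +kernel)
theorem c1_m4_t25 : CovD 0 progs [(1992864825344, 68719476736), (1477468749824, 34359738368), (41271951360, 13757317120), (824633720832, 274877906944)] :=
  Pool.Agent.helper14.QF.covD_F chks_eq (.n 3 (.n 3 (.n 0 (.l 2) (.l 2)) (.l 2)) (.n 3 (.l 2) (.l 2)))
    [(1992864825344, 68719476736), (1477468749824, 34359738368), (41271951360, 13757317120), (824633720832, 274877906944)] rfl (by decide +kernel)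
end
mutual
theorem c1_m4_t28 : CovD 0 progs [(2130303778816, 68719476736), (1477468749824, 34359738368), (27514634240, 27514634240), (549755813888, 549755813888)] :=
  Pool.Agent.helper14.QF.covD_F chks_eq (.l 5)
    [(2130303778816, 68719476736), (1477468749824, 34359738368), (27514634240, 27514634240), (549755813888, 549755813888)] rfl (by decide +kernel)
theorem c1_m4_t32 : CovD 0 progs [(1786706395136, 137438953472), (1546188226560, 34359738368), (13757317120, 13757317120), (549755813888, 549755813888)] :=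
  Pool.Agent.helper14.QF.covD_F chks_eq (.n 3 (.n 3 (.n 1 (.n 0 (.l 2) (.n 0 (.l 2) (.n 0 (.l 2) (.l 2)))) (.n 0 (.l 2) (.n 0 (.l 2) (.n 3 (.l 2) (.l 2))))) (.n 0 (.n 3 (.l 2) (.l 2)) (.n 0 (.n 3 (.l 2) (.l 2)) (.n 3 (.n 0 (.l 2) (.l 2)) (.l 2))))) (.n 3 (.n 3 (.n 0 (.l 2) (.l 2)) (.l 2)) (.n 3 (.l 2) (.l 2))))
    [(1786706395136, 137438953472), (1546188226560, 34359738368), (13757317120, 13757317120), (549755813888, 549755813888)] rfl (by decide +kernel)
end
mutual
theorem c1_m4_t33 : CovD 0 progs [(1786706395136, 137438953472), (1546188226560, 34359738368), (41271951360, 13757317120), (274877906944, 274877906944)] :=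
  Pool.Agent.helper14.QF.covD_F chks_eq (.n 3 (.n 3 (.n 0 (.l 2) (.n 0 (.l 2) (.n 1 (.l 2) (.n 2 (.l 2) (.l 2))))) (.n 0 (.l 2) (.n 0 (.l 2) (.n 0 (.n 1 (.l 2) (.l 2)) (.n 1 (.l 2) (.n 2 (.l 2) (.l 2))))))) (.n 0 (.n 3 (.l 2) (.l 2)) (.n 0 (.n 3 (.l 2) (.l 2)) (.n 3 (.n 0 (.l 2) (.n 1 (.l 2) (.l 2))) (.l 2)))))
    [(1786706395136, 137438953472), (1546188226560, 34359738368), (41271951360, 13757317120), (274877906944, 274877906944)] rfl (by decide +kernel)
theorem c1_m4_t34 : CovD 0 progs [(1786706395136, 137438953472), (1546188226560, 34359738368), (41271951360, 13757317120), (824633720832, 274877906944)] :=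
  Pool.Agent.helper14.QF.covD_F chks_eq (.n 3 (.n 3 (.n 0 (.l 2) (.l 2)) (.l 2)) (.n 3 (.l 2) (.l 2)))
    [(1786706395136, 137438953472), (1546188226560, 34359738368), (41271951360, 13757317120), (824633720832, 274877906944)] rfl (by decide +kernel)
end
mutual
theorem c1_m4_t37 : CovD 0 progs [(2061584302080, 137438953472), (1546188226560, 34359738368), (27514634240, 27514634240), (549755813888, 549755813888)] :=
  Pool.Agent.helper14.QF.covD_F chks_eq (.n 1 (.n 0 (.n 0 (.n 0 (.n 2 (.n 3 (.n 3 (.n 2 (.l 2) (.l 2)) (.n 3 (.l 2) (.l 2))) (.n 3 (.n 3 (.l 2) (.l 2)) (.n 3 (.l 2) (.l 2)))) (.n 3 (.n 3 (.n 1 (.n 3 (.l 2) (.l 2)) (.n 3 (.l 2) (.l 2))) (.n 3 (.l 2) (.l 2))) (.n 3 (.n 3 (.l 2) (.l 2)) (.n 3 (.l 2) (.l 2))))) (.l 5)) (.l 5)) (.l 5)) (.l 5))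
    [(2061584302080, 137438953472), (1546188226560, 34359738368), (27514634240, 27514634240), (549755813888, 549755813888)] rfl (by decide +kernel)
theorem c1_m4_t39 : CovD 0 progs [(1786706395136, 137438953472), (1614907703296, 34359738368), (13757317120, 13757317120), (274877906944, 274877906944)] :=
  Pool.Agent.helper14.QF.covD_F chks_eq (.n 3 (.n 0 (.n 0 (.l 2) (.n 3 (.l 2) (.l 2))) (.n 0 (.n 2 (.n 3 (.l 2) (.l 2)) (.n 3 (.l 2) (.n 0 (.l 2) (.l 2)))) (.n 1 (.n 0 (.n 3 (.l 2) (.l 2)) (.l 5)) (.l 5)))) (.n 0 (.n 3 (.n 0 (.l 2) (.l 2)) (.l 2)) (.n 0 (.n 3 (.n 0 (.l 2) (.l 2)) (.l 2)) (.n 0 (.n 0 (.n 3 (.l 2) (.l 2)) (.l 5)) (.l 5)))))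
    [(1786706395136, 137438953472), (1614907703296, 34359738368), (13757317120, 13757317120), (274877906944, 274877906944)] rfl (by decide +kernel)
end
mutual
theorem c1_m4_t40 : CovD 0 progs [(1786706395136, 137438953472), (1614907703296, 34359738368), (13757317120, 13757317120), (824633720832, 274877906944)] :=
  Pool.Agent.helper14.QF.covD_F chks_eq (.n 3 (.n 0 (.n 3 (.l 2) (.l 2)) (.n 3 (.n 0 (.l 2) (.l 2)) (.l 2))) (.n 3 (.l 2) (.l 2)))
    [(1786706395136, 137438953472), (1614907703296, 34359738368), (13757317120, 13757317120), (824633720832, 274877906944)] rfl (by decide +kernel)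
theorem c1_m4_t42 : CovD 0 progs [(1786706395136, 137438953472), (1614907703296, 34359738368), (41271951360, 13757317120), (137438953472, 137438953472)] :=
  Pool.Agent.helper14.QF.covD_F chks_eq (.n 1 (.n 0 (.n 3 (.l 2) (.l 2)) (.n 0 (.n 0 (.n 2 (.l 2) (.l 2)) (.n 3 (.l 2) (.l 2))) (.n 0 (.n 0 (.n 3 (.l 2) (.l 2)) (.l 5)) (.l 5)))) (.n 0 (.n 0 (.l 2) (.n 3 (.l 2) (.l 2))) (.n 0 (.n 0 (.n 3 (.l 2) (.l 2)) (.n 0 (.n 3 (.l 2) (.l 2)) (.l 5))) (.l 5))))
    [(1786706395136, 137438953472), (1614907703296, 34359738368), (41271951360, 13757317120), (137438953472, 137438953472)] rfl (by decide +kernel)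
end
mutual
theorem c1_m4_t43 : CovD 0 progs [(1786706395136, 137438953472), (1614907703296, 34359738368), (41271951360, 13757317120), (412316860416, 137438953472)] :=
  Pool.Agent.helper14.QF.covD_F chks_eq (.n 0 (.n 3 (.n 0 (.l 2) (.l 2)) (.l 2)) (.n 0 (.n 0 (.n 3 (.l 2) (.l 2)) (.n 3 (.n 2 (.l 2) (.l 2)) (.l 2))) (.n 0 (.n 0 (.n 1 (.n 3 (.l 2) (.l 2)) (.l 5)) (.l 5)) (.l 5))))
    [(1786706395136, 137438953472), (1614907703296, 34359738368), (41271951360, 13757317120), (412316860416, 137438953472)] rfl (by decide +kernel)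
theorem c1_m4_t45 : CovD 0 progs [(1786706395136, 137438953472), (1614907703296, 34359738368), (41271951360, 13757317120), (824633720832, 274877906944)] :=
  Pool.Agent.helper14.QF.covD_F chks_eq (.n 3 (.n 0 (.n 3 (.l 2) (.l 2)) (.n 3 (.n 0 (.l 2) (.l 2)) (.l 2))) (.n 3 (.l 2) (.l 2)))
    [(1786706395136, 137438953472), (1614907703296, 34359738368), (41271951360, 13757317120), (824633720832, 274877906944)] rfl (by decide +kernel)
theorem c1_m4_t48 : CovD 0 progs [(2061584302080, 137438953472), (1614907703296, 34359738368), (27514634240, 27514634240), (549755813888, 549755813888)] :=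
  Pool.Agent.helper14.QF.covD_F chks_eq (.l 5)
    [(2061584302080, 137438953472), (1614907703296, 34359738368), (27514634240, 27514634240), (549755813888, 549755813888)] rfl (by decide +kernel)
end
theorem c1_m4_t6 : CovD 0 progs [(2061584302080, 137438953472), (1340029796352, 34359738368), (41271951360, 13757317120), (549755813888, 549755813888)] :=
  covD_split 3 (by decide +kernel) c1_m4_t4 c1_m4_t5
theorem c1_m4_t7 : CovD 0 progs [(2061584302080, 137438953472), (1340029796352, 34359738368), (27514634240, 27514634240), (549755813888, 549755813888)] :=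
  covD_split 2 (by decide +kernel) c1_m4_t3 c1_m4_t6
theorem c1_m4_t8 : CovD 0 progs [(2061584302080, 137438953472), (1305670057984, 68719476736), (27514634240, 27514634240), (549755813888, 549755813888)] :=
  covD_split 1 (by decide +kernel) c1_m4_t2 c1_m4_t7
theorem c1_m4_t9 : CovD 0 progs [(1924145348608, 274877906944), (1305670057984, 68719476736), (27514634240, 27514634240), (549755813888, 549755813888)] :=
  covD_split 0 (by decide +kernel) c1_m4_t1 c1_m4_t8
theorem c1_m4_t10 : CovD 0 progs [(1924145348608, 274877906944), (1236950581248, 137438953472), (27514634240, 27514634240), (549755813888, 549755813888)] :=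
  covD_split 1 (by decide +kernel) c1_m4_t0 c1_m4_t9
theorem c1_m4_t14 : CovD 0 progs [(2061584302080, 137438953472), (1408749273088, 34359738368), (13757317120, 13757317120), (549755813888, 549755813888)] :=
  covD_split 1 (by decide +kernel) c1_m4_t12 c1_m4_t13
theorem c1_m4_t17 : CovD 0 progs [(2061584302080, 137438953472), (1408749273088, 34359738368), (41271951360, 13757317120), (274877906944, 274877906944)] :=
  covD_split 1 (by decide +kernel) c1_m4_t15 c1_m4_t16
theorem c1_m4_t19 : CovD 0 progs [(2061584302080, 137438953472), (1408749273088, 34359738368), (41271951360, 13757317120), (549755813888, 549755813888)] :=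
  covD_split 3 (by decide +kernel) c1_m4_t17 c1_m4_t18
theorem c1_m4_t20 : CovD 0 progs [(2061584302080, 137438953472), (1408749273088, 34359738368), (27514634240, 27514634240), (549755813888, 549755813888)] :=
  covD_split 2 (by decide +kernel) c1_m4_t14 c1_m4_t19
theorem c1_m4_t21 : CovD 0 progs [(1924145348608, 274877906944), (1408749273088, 34359738368), (27514634240, 27514634240), (549755813888, 549755813888)] :=
  covD_split 0 (by decide +kernel) c1_m4_t11 c1_m4_t20
theorem c1_m4_t26 : CovD 0 progs [(1992864825344, 68719476736), (1477468749824, 34359738368), (41271951360, 13757317120), (549755813888, 549755813888)] :=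
  covD_split 3 (by decide +kernel) c1_m4_t24 c1_m4_t25
theorem c1_m4_t27 : CovD 0 progs [(1992864825344, 68719476736), (1477468749824, 34359738368), (27514634240, 27514634240), (549755813888, 549755813888)] :=
  covD_split 2 (by decide +kernel) c1_m4_t23 c1_m4_t26
theorem c1_m4_t29 : CovD 0 progs [(2061584302080, 137438953472), (1477468749824, 34359738368), (27514634240, 27514634240), (549755813888, 549755813888)] :=
  covD_split 0 (by decide +kernel) c1_m4_t27 c1_m4_t28
theorem c1_m4_t30 : CovD 0 progs [(1924145348608, 274877906944), (1477468749824, 34359738368), (27514634240, 27514634240), (549755813888, 549755813888)] :=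
  covD_split 0 (by decide +kernel) c1_m4_t22 c1_m4_t29
theorem c1_m4_t31 : CovD 0 progs [(1924145348608, 274877906944), (1443109011456, 68719476736), (27514634240, 27514634240), (549755813888, 549755813888)] :=
  covD_split 1 (by decide +kernel) c1_m4_t21 c1_m4_t30
theorem c1_m4_t35 : CovD 0 progs [(1786706395136, 137438953472), (1546188226560, 34359738368), (41271951360, 13757317120), (549755813888, 549755813888)] :=
  covD_split 3 (by decide +kernel) c1_m4_t33 c1_m4_t34
theorem c1_m4_t36 : CovD 0 progs [(1786706395136, 137438953472), (1546188226560, 34359738368), (27514634240, 27514634240), (549755813888, 549755813888)] :=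
  covD_split 2 (by decide +kernel) c1_m4_t32 c1_m4_t35
theorem c1_m4_t38 : CovD 0 progs [(1924145348608, 274877906944), (1546188226560, 34359738368), (27514634240, 27514634240), (549755813888, 549755813888)] :=
  covD_split 0 (by decide +kernel) c1_m4_t36 c1_m4_t37
theorem c1_m4_t41 : CovD 0 progs [(1786706395136, 137438953472), (1614907703296, 34359738368), (13757317120, 13757317120), (549755813888, 549755813888)] :=
  covD_split 3 (by decide +kernel) c1_m4_t39 c1_m4_t40
theorem c1_m4_t44 : CovD 0 progs [(1786706395136, 137438953472), (1614907703296, 34359738368), (41271951360, 13757317120), (274877906944, 274877906944)] :=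
  covD_split 3 (by decide +kernel) c1_m4_t42 c1_m4_t43
theorem c1_m4_t46 : CovD 0 progs [(1786706395136, 137438953472), (1614907703296, 34359738368), (41271951360, 13757317120), (549755813888, 549755813888)] :=
  covD_split 3 (by decide +kernel) c1_m4_t44 c1_m4_t45
theorem c1_m4_t47 : CovD 0 progs [(1786706395136, 137438953472), (1614907703296, 34359738368), (27514634240, 27514634240), (549755813888, 549755813888)] :=
  covD_split 2 (by decide +kernel) c1_m4_t41 c1_m4_t46
theorem c1_m4_t49 : CovD 0 progs [(1924145348608, 274877906944), (1614907703296, 34359738368), (27514634240, 27514634240), (549755813888, 549755813888)] :=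
  covD_split 0 (by decide +kernel) c1_m4_t47 c1_m4_t48
theorem c1_m4_t50 : CovD 0 progs [(1924145348608, 274877906944), (1580547964928, 68719476736), (27514634240, 27514634240), (549755813888, 549755813888)] :=
  covD_split 1 (by decide +kernel) c1_m4_t38 c1_m4_t49
theorem c1_m4_t51 : CovD 0 progs [(1924145348608, 274877906944), (1511828488192, 137438953472), (27514634240, 27514634240), (549755813888, 549755813888)] :=
  covD_split 1 (by decide +kernel) c1_m4_t31 c1_m4_t50
theorem c1_m4 : CovD 0 progs [(1924145348608, 274877906944), (1374389534720, 274877906944), (27514634240, 27514634240), (549755813888, 549755813888)] :=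
  covD_split 1 (by decide +kernel) c1_m4_t10 c1_m4_t51

end Pool.Agent.helper71.FJ.Crt.QHI
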