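import Pool.Agent.helper71.FJ.Crt.QHIP

/-!
Generated certificates.
-/

namespace Pool.Agent.helper71.FJ.Crt.QHI

open Pool.Agent.helper31.IA (Z Op)
open Pool.Agent.helper31.IC

mutual
theorem c1_m6_t0 : CovD 0 progs [(1786706395136, 137438953472), (1168231104512, 68719476736), (82543902720, 27514634240), (549755813888, 549755813888)] :=
  Pool.Agent.helper14.QF.covD_F chks_eq (.n 3 (.n 0 (.n 3 (.l 2) (.l 2)) (.n 1 (.n 3 (.l 2) (.l 2)) (.n 3 (.l 2) (.l 3)))) (.n 3 (.n 2 (.l 2) (.l 3)) (.l 2)))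
    [(1786706395136, 137438953472), (1168231104512, 68719476736), (82543902720, 27514634240), (549755813888, 549755813888)] rfl (by decide +kernel)
theorem c1_m6_t1 : CovD 0 progs [(2061584302080, 137438953472), (1168231104512, 68719476736), (68786585600, 13757317120), (549755813888, 549755813888)] :=
  Pool.Agent.helper14.QF.covD_F chks_eq (.n 3 (.n 0 (.n 3 (.l 2) (.l 2)) (.n 1 (.n 3 (.l 2) (.l 2)) (.n 3 (.n 3 (.l 2) (.l 2)) (.n 3 (.l 2) (.l 2))))) (.n 3 (.n 3 (.l 2) (.l 2)) (.n 2 (.l 2) (.l 2))))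
    [(2061584302080, 137438953472), (1168231104512, 68719476736), (68786585600, 13757317120), (549755813888, 549755813888)] rfl (by decide +kernel)
end
mutual
theorem c1_m6_t2 : CovD 0 progs [(2061584302080, 137438953472), (1168231104512, 68719476736), (96301219840, 13757317120), (274877906944, 274877906944)] :=
  Pool.Agent.helper14.QF.covD_F chks_eq (.n 0 (.n 3 (.n 0 (.l 2) (.n 1 (.l 2) (.l 2))) (.n 3 (.l 3) (.l 2))) (.n 1 (.n 3 (.n 0 (.l 2) (.l 2)) (.n 3 (.l 2) (.l 2))) (.n 0 (.n 3 (.n 1 (.l 2) (.l 2)) (.n 3 (.l 2) (.l 2))) (.n 3 (.n 3 (.l 2) (.n 0 (.l 2) (.l 2))) (.n 3 (.n 0 (.l 2) (.l 2)) (.l 2))))))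
    [(2061584302080, 137438953472), (1168231104512, 68719476736), (96301219840, 13757317120), (274877906944, 274877906944)] rfl (by decide +kernel)
theorem c1_m6_t3 : CovD 0 progs [(2061584302080, 137438953472), (1168231104512, 68719476736), (96301219840, 13757317120), (824633720832, 274877906944)] :=
  Pool.Agent.helper14.QF.covD_F chks_eq (.n 3 (.n 3 (.n 0 (.l 2) (.n 0 (.l 2) (.l 2))) (.l 2)) (.n 3 (.l 2) (.l 2)))
    [(2061584302080, 137438953472), (1168231104512, 68719476736), (96301219840, 13757317120), (824633720832, 274877906944)] rfl (by decide +kernel)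
end
mutual
theorem c1_m6_t7 : CovD 0 progs [(1786706395136, 137438953472), (1305670057984, 68719476736), (82543902720, 27514634240), (549755813888, 549755813888)] :=
  Pool.Agent.helper14.QF.covD_F chks_eq (.n 2 (.n 3 (.n 0 (.n 3 (.l 2) (.l 2)) (.n 1 (.n 3 (.l 2) (.l 2)) (.n 3 (.l 2) (.l 2)))) (.n 3 (.n 3 (.l 2) (.l 2)) (.l 2))) (.n 0 (.n 3 (.n 3 (.l 2) (.n 0 (.l 2) (.l 2))) (.n 3 (.l 2) (.l 2))) (.n 3 (.n 1 (.n 3 (.l 2) (.n 0 (.l 2) (.l 2))) (.n 3 (.n 3 (.l 2) (.l 2)) (.n 3 (.l 2) (.l 2)))) (.n 3 (.n 3 (.l 2) (.l 2)) (.l 2)))))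
    [(1786706395136, 137438953472), (1305670057984, 68719476736), (82543902720, 27514634240), (549755813888, 549755813888)] rfl (by decide +kernel)
theorem c1_m6_t8 : CovD 0 progs [(2061584302080, 137438953472), (1271310319616, 34359738368), (68786585600, 13757317120), (274877906944, 274877906944)] :=
  Pool.Agent.helper14.QF.covD_F chks_eq (.n 0 (.n 0 (.n 3 (.l 2) (.l 2)) (.n 3 (.l 2) (.l 3))) (.n 0 (.n 3 (.n 3 (.l 2) (.l 2)) (.n 3 (.l 2) (.l 2))) (.n 3 (.n 1 (.n 2 (.l 2) (.l 2)) (.n 3 (.l 2) (.l 2))) (.n 3 (.n 0 (.l 2) (.l 2)) (.l 2)))))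
    [(2061584302080, 137438953472), (1271310319616, 34359738368), (68786585600, 13757317120), (274877906944, 274877906944)] rfl (by decide +kernel)
end
mutual
theorem c1_m6_t9 : CovD 0 progs [(1992864825344, 68719476736), (1340029796352, 34359738368), (68786585600, 13757317120), (274877906944, 274877906944)] :=
  Pool.Agent.helper14.QF.covD_F chks_eq (.n 3 (.n 0 (.n 0 (.l 2) (.l 2)) (.n 1 (.l 2) (.n 3 (.l 2) (.l 2)))) (.n 3 (.n 0 (.l 2) (.l 2)) (.l 2)))
    [(1992864825344, 68719476736), (1340029796352, 34359738368), (68786585600, 13757317120), (274877906944, 274877906944)] rfl (by decide +kernel)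
theorem c1_m6_t10 : CovD 0 progs [(2095944040448, 34359738368), (1340029796352, 34359738368), (68786585600, 13757317120), (274877906944, 274877906944)] :=
  Pool.Agent.helper14.QF.covD_F chks_eq (.n 1 (.n 3 (.n 3 (.l 2) (.l 2)) (.n 3 (.l 2) (.l 2))) (.n 3 (.n 0 (.n 3 (.l 2) (.l 2)) (.n 3 (.l 2) (.l 2))) (.n 3 (.n 0 (.l 2) (.l 2)) (.l 2))))
    [(2095944040448, 34359738368), (1340029796352, 34359738368), (68786585600, 13757317120), (274877906944, 274877906944)] rfl (by decide +kernel)
end
mutual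
theorem c1_m6_t11 : CovD 0 progs [(2164663517184, 34359738368), (1340029796352, 34359738368), (68786585600, 13757317120), (274877906944, 274877906944)] :=
  Pool.Agent.helper14.QF.covD_F chks_eq (.n 1 (.n 3 (.n 2 (.n 3 (.l 2) (.l 2)) (.n 3 (.l 2) (.n 0 (.l 2) (.l 2)))) (.n 3 (.n 2 (.l 2) (.l 2)) (.l 2))) (.n 2 (.n 3 (.n 3 (.n 0 (.l 2) (.l 2)) (.n 3 (.l 2) (.l 2))) (.n 3 (.n 0 (.l 2) (.l 2)) (.l 2))) (.n 3 (.n 0 (.n 3 (.l 2) (.l 2)) (.n 1 (.n 3 (.l 2) (.l 2)) (.n 3 (.l 2) (.l 2)))) (.n 3 (.n 3 (.l 2) (.l 2)) (.l 2)))))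
    [(2164663517184, 34359738368), (1340029796352, 34359738368), (68786585600, 13757317120), (274877906944, 274877906944)] rfl (by decide +kernel)
theorem c1_m6_t15 : CovD 0 progs [(2061584302080, 137438953472), (1305670057984, 68719476736), (68786585600, 13757317120), (824633720832, 274877906944)] :=
  Pool.Agent.helper14.QF.covD_F chks_eq (.n 3 (.n 0 (.n 3 (.l 2) (.l 2)) (.n 3 (.n 0 (.l 2) (.n 1 (.l 2) (.l 2))) (.l 2))) (.n 3 (.l 2) (.l 2)))
    [(2061584302080, 137438953472), (1305670057984, 68719476736), (68786585600, 13757317120), (824633720832, 274877906944)] rfl (by decide +kernel)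
end
mutual
theorem c1_m6_t17 : CovD 0 progs [(1992864825344, 68719476736), (1271310319616, 34359738368), (96301219840, 13757317120), (274877906944, 274877906944)] :=
  Pool.Agent.helper14.QF.covD_F chks_eq (.n 3 (.n 0 (.l 2) (.n 3 (.l 2) (.l 2))) (.n 3 (.n 0 (.l 2) (.l 2)) (.l 2)))
    [(1992864825344, 68719476736), (1271310319616, 34359738368), (96301219840, 13757317120), (274877906944, 274877906944)] rfl (by decide +kernel)
theorem c1_m6_t18 : CovD 0 progs [(2130303778816, 68719476736), (1271310319616, 34359738368), (96301219840, 13757317120), (274877906944, 274877906944)] :=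
  Pool.Agent.helper14.QF.covD_F chks_eq (.n 0 (.n 3 (.n 1 (.n 2 (.l 2) (.l 3)) (.n 3 (.l 2) (.l 2))) (.n 3 (.n 1 (.l 2) (.l 2)) (.l 3))) (.n 1 (.n 3 (.n 3 (.l 2) (.n 0 (.l 2) (.l 2))) (.n 3 (.n 0 (.l 2) (.l 2)) (.l 2))) (.n 2 (.n 3 (.n 3 (.l 2) (.l 2)) (.n 3 (.l 2) (.l 2))) (.n 3 (.n 3 (.l 2) (.n 0 (.l 2) (.l 2))) (.n 3 (.n 0 (.l 2) (.l 2)) (.l 2))))))
    [(2130303778816, 68719476736), (1271310319616, 34359738368), (96301219840, 13757317120), (274877906944, 274877906944)] rfl (by decide +kernel)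
end
mutual
theorem c1_m6_t20 : CovD 0 progs [(2061584302080, 137438953472), (1271310319616, 34359738368), (96301219840, 13757317120), (824633720832, 274877906944)] :=
  Pool.Agent.helper14.QF.covD_F chks_eq (.n 3 (.n 3 (.n 0 (.l 2) (.n 0 (.l 2) (.l 3))) (.l 3)) (.n 3 (.l 2) (.l 2)))
    [(2061584302080, 137438953472), (1271310319616, 34359738368), (96301219840, 13757317120), (824633720832, 274877906944)] rfl (by decide +kernel)
theorem c1_m6_t22 : CovD 0 progs [(1992864825344, 68719476736), (1340029796352, 34359738368), (96301219840, 13757317120), (274877906944, 274877906944)] :=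
  Pool.Agent.helper14.QF.covD_F chks_eq (.n 0 (.n 3 (.n 3 (.l 2) (.l 3)) (.n 3 (.l 2) (.l 2))) (.n 1 (.n 3 (.n 3 (.l 2) (.l 2)) (.n 3 (.l 2) (.l 2))) (.n 3 (.n 3 (.l 2) (.n 0 (.l 2) (.l 2))) (.n 3 (.n 0 (.l 2) (.l 2)) (.l 2)))))
    [(1992864825344, 68719476736), (1340029796352, 34359738368), (96301219840, 13757317120), (274877906944, 274877906944)] rfl (by decide +kernel)
end
mutual
theorem c1_m6_t23 : CovD 0 progs [(2095944040448, 34359738368), (1340029796352, 34359738368), (96301219840, 13757317120), (274877906944, 274877906944)] :=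
  Pool.Agent.helper14.QF.covD_F chks_eq (.n 2 (.n 3 (.n 1 (.n 3 (.l 2) (.l 2)) (.n 3 (.l 2) (.n 0 (.l 2) (.l 2)))) (.n 3 (.n 1 (.l 2) (.l 2)) (.l 2))) (.n 1 (.n 3 (.n 3 (.l 2) (.l 2)) (.n 3 (.l 2) (.l 2))) (.n 3 (.n 3 (.n 0 (.l 2) (.l 2)) (.n 3 (.l 2) (.l 2))) (.n 3 (.n 3 (.l 2) (.l 2)) (.l 3)))))
    [(2095944040448, 34359738368), (1340029796352, 34359738368), (96301219840, 13757317120), (274877906944, 274877906944)] rfl (by decide +kernel)
theorem c1_m6_t24 : CovD 0 progs [(2164663517184, 34359738368), (1340029796352, 34359738368), (89422561280, 6878658560), (274877906944, 274877906944)] :=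
  Pool.Agent.helper14.QF.covD_F chks_eq (.n 3 (.n 0 (.n 1 (.n 3 (.l 2) (.l 2)) (.n 3 (.l 2) (.n 0 (.l 2) (.l 2)))) (.n 1 (.n 3 (.l 2) (.l 3)) (.n 3 (.n 1 (.l 2) (.l 2)) (.n 3 (.l 2) (.l 2))))) (.n 3 (.n 0 (.n 3 (.l 2) (.l 2)) (.n 1 (.l 2) (.n 3 (.l 2) (.l 2)))) (.n 3 (.l 3) (.l 2))))
    [(2164663517184, 34359738368), (1340029796352, 34359738368), (89422561280, 6878658560), (274877906944, 274877906944)] rfl (by decide +kernel)
end
mutual
theorem c1_m6_t25 : CovD 0 progs [(2164663517184, 34359738368), (1340029796352, 34359738368), (103179878400, 6878658560), (137438953472, 137438953472)] :=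
  Pool.Agent.helper14.QF.covD_F chks_eq (.n 0 (.n 1 (.n 3 (.l 2) (.l 3)) (.n 3 (.n 0 (.l 2) (.l 2)) (.n 3 (.l 2) (.l 2)))) (.n 1 (.n 3 (.n 0 (.l 2) (.l 2)) (.n 3 (.l 2) (.l 2))) (.n 1 (.n 3 (.l 2) (.n 3 (.l 2) (.l 2))) (.n 0 (.n 1 (.n 3 (.l 2) (.l 2)) (.l 5)) (.l 5)))))
    [(2164663517184, 34359738368), (1340029796352, 34359738368), (103179878400, 6878658560), (137438953472, 137438953472)] rfl (by decide +kernel)
theorem c1_m6_t26 : CovD 0 progs [(2164663517184, 34359738368), (1340029796352, 34359738368), (103179878400, 6878658560), (412316860416, 137438953472)] :=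
  Pool.Agent.helper14.QF.covD_F chks_eq (.n 3 (.n 0 (.n 1 (.l 2) (.n 3 (.l 2) (.l 2))) (.n 1 (.n 3 (.l 2) (.l 2)) (.n 3 (.n 0 (.l 2) (.l 2)) (.l 2)))) (.n 3 (.n 1 (.l 2) (.l 3)) (.l 3)))
    [(2164663517184, 34359738368), (1340029796352, 34359738368), (103179878400, 6878658560), (412316860416, 137438953472)] rfl (by decide +kernel)
theorem c1_m6_t31 : CovD 0 progs [(2061584302080, 137438953472), (1340029796352, 34359738368), (96301219840, 13757317120), (824633720832, 274877906944)] :=
  Pool.Agent.helper14.QF.covD_F chks_eq (.n 3 (.n 3 (.n 0 (.l 3) (.n 3 (.n 0 (.l 2) (.l 3)) (.l 2))) (.n 3 (.l 3) (.l 2))) (.n 3 (.l 2) (.l 2)))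
    [(2061584302080, 137438953472), (1340029796352, 34359738368), (96301219840, 13757317120), (824633720832, 274877906944)] rfl (by decide +kernel)
end
theorem c1_m6_t4 : CovD 0 progs [(2061584302080, 137438953472), (1168231104512, 68719476736), (96301219840, 13757317120), (549755813888, 549755813888)] :=
  covD_split 3 (by decide +kernel) c1_m6_t2 c1_m6_t3
theorem c1_m6_t5 : CovD 0 progs [(2061584302080, 137438953472), (1168231104512, 68719476736), (82543902720, 27514634240), (549755813888, 549755813888)] :=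
  covD_split 2 (by decide +kernel) c1_m6_t1 c1_m6_t4
theorem c1_m6_t6 : CovD 0 progs [(1924145348608, 274877906944), (1168231104512, 68719476736), (82543902720, 27514634240), (549755813888, 549755813888)] :=
  covD_split 0 (by decide +kernel) c1_m6_t0 c1_m6_t5
theorem c1_m6_t12 : CovD 0 progs [(2130303778816, 68719476736), (1340029796352, 34359738368), (68786585600, 13757317120), (274877906944, 274877906944)] :=
  covD_split 0 (by decide +kernel) c1_m6_t10 c1_m6_t11
theorem c1_m6_t13 : CovD 0 progs [(2061584302080, 137438953472), (1340029796352, 34359738368), (68786585600, 13757317120), (274877906944, 274877906944)] :=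
  covD_split 0 (by decide +kernel) c1_m6_t9 c1_m6_t12
theorem c1_m6_t14 : CovD 0 progs [(2061584302080, 137438953472), (1305670057984, 68719476736), (68786585600, 13757317120), (274877906944, 274877906944)] :=
  covD_split 1 (by decide +kernel) c1_m6_t8 c1_m6_t13
theorem c1_m6_t16 : CovD 0 progs [(2061584302080, 137438953472), (1305670057984, 68719476736), (68786585600, 13757317120), (549755813888, 549755813888)] :=
  covD_split 3 (by decide +kernel) c1_m6_t14 c1_m6_t15
theorem c1_m6_t19 : CovD 0 progs [(2061584302080, 137438953472), (1271310319616, 34359738368), (96301219840, 13757317120), (274877906944, 274877906944)] :=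
  covD_split 0 (by decide +kernel) c1_m6_t17 c1_m6_t18
theorem c1_m6_t21 : CovD 0 progs [(2061584302080, 137438953472), (1271310319616, 34359738368), (96301219840, 13757317120), (549755813888, 549755813888)] :=
  covD_split 3 (by decide +kernel) c1_m6_t19 c1_m6_t20
theorem c1_m6_t27 : CovD 0 progs [(2164663517184, 34359738368), (1340029796352, 34359738368), (103179878400, 6878658560), (274877906944, 274877906944)] :=
  covD_split 3 (by decide +kernel) c1_m6_t25 c1_m6_t26
theorem c1_m6_t28 : CovD 0 progs [(2164663517184, 34359738368), (1340029796352, 34359738368), (96301219840, 13757317120), (274877906944, 274877906944)] :=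
  covD_split 2 (by decide +kernel) c1_m6_t24 c1_m6_t27
theorem c1_m6_t29 : CovD 0 progs [(2130303778816, 68719476736), (1340029796352, 34359738368), (96301219840, 13757317120), (274877906944, 274877906944)] :=
  covD_split 0 (by decide +kernel) c1_m6_t23 c1_m6_t28
theorem c1_m6_t30 : CovD 0 progs [(2061584302080, 137438953472), (1340029796352, 34359738368), (96301219840, 13757317120), (274877906944, 274877906944)] :=
  covD_split 0 (by decide +kernel) c1_m6_t22 c1_m6_t29
theorem c1_m6_t32 : CovD 0 progs [(2061584302080, 137438953472), (1340029796352, 34359738368), (96301219840, 13757317120), (549755813888, 549755813888)] :=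
  covD_split 3 (by decide +kernel) c1_m6_t30 c1_m6_t31
theorem c1_m6_t33 : CovD 0 progs [(2061584302080, 137438953472), (1305670057984, 68719476736), (96301219840, 13757317120), (549755813888, 549755813888)] :=
  covD_split 1 (by decide +kernel) c1_m6_t21 c1_m6_t32
theorem c1_m6_t34 : CovD 0 progs [(2061584302080, 137438953472), (1305670057984, 68719476736), (82543902720, 27514634240), (549755813888, 549755813888)] :=
  covD_split 2 (by decide +kernel) c1_m6_t16 c1_m6_t33
theorem c1_m6_t35 : CovD 0 progs [(1924145348608, 274877906944), (1305670057984, 68719476736), (82543902720, 27514634240), (549755813888, 549755813888)] :=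
  covD_split 0 (by decide +kernel) c1_m6_t7 c1_m6_t34
theorem c1_m6 : CovD 0 progs [(1924145348608, 274877906944), (1236950581248, 137438953472), (82543902720, 27514634240), (549755813888, 549755813888)] :=
  covD_split 1 (by decide +kernel) c1_m6_t6 c1_m6_t35

end Pool.Agent.helper71.FJ.Crt.QHI
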