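import Pool.Agent.helper71.FJ.Crt.QHIP

/-!
Generated certificates.
-/

namespace Pool.Agent.helper71.FJ.Crt.QHI

open Pool.Agent.helper31.IA (Z Op)
open Pool.Agent.helper31.IC

mutual
theorem c1_m7_t0 : CovD 0 progs [(1786706395136, 137438953472), (1443109011456, 68719476736), (68786585600, 13757317120), (274877906944, 274877906944)] :=
  Pool.Agent.helper14.QF.covD_F chks_eq (.n 1 (.n 0 (.n 3 (.l 2) (.l 2)) (.n 3 (.n 3 (.l 2) (.l 3)) (.n 3 (.l 2) (.l 2)))) (.n 0 (.n 0 (.n 3 (.l 2) (.l 2)) (.n 3 (.l 2) (.l 2))) (.n 0 (.n 3 (.n 2 (.l 2) (.l 3)) (.n 3 (.l 2) (.l 2))) (.n 3 (.n 1 (.n 2 (.l 2) (.l 2)) (.n 3 (.l 2) (.l 2))) (.n 3 (.n 0 (.l 2) (.l 2)) (.l 2))))))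
    [(1786706395136, 137438953472), (1443109011456, 68719476736), (68786585600, 13757317120), (274877906944, 274877906944)] rfl (by decide +kernel)
theorem c1_m7_t1 : CovD 0 progs [(1786706395136, 137438953472), (1443109011456, 68719476736), (68786585600, 13757317120), (824633720832, 274877906944)] :=
  Pool.Agent.helper14.QF.covD_F chks_eq (.n 3 (.n 3 (.n 0 (.l 2) (.l 3)) (.l 2)) (.n 3 (.l 2) (.l 2)))
    [(1786706395136, 137438953472), (1443109011456, 68719476736), (68786585600, 13757317120), (824633720832, 274877906944)] rfl (by decide +kernel)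
end
mutual
theorem c1_m7_t3 : CovD 0 progs [(1786706395136, 137438953472), (1408749273088, 34359738368), (96301219840, 13757317120), (274877906944, 274877906944)] :=
  Pool.Agent.helper14.QF.covD_F chks_eq (.n 0 (.n 0 (.n 3 (.l 2) (.l 2)) (.n 3 (.l 2) (.l 3))) (.n 0 (.n 3 (.n 0 (.l 2) (.l 3)) (.n 3 (.l 2) (.l 2))) (.n 3 (.n 3 (.l 2) (.n 0 (.l 2) (.l 2))) (.n 3 (.n 0 (.l 2) (.l 2)) (.l 2)))))
    [(1786706395136, 137438953472), (1408749273088, 34359738368), (96301219840, 13757317120), (274877906944, 274877906944)] rfl (by decide +kernel)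
theorem c1_m7_t4 : CovD 0 progs [(1786706395136, 137438953472), (1477468749824, 34359738368), (96301219840, 13757317120), (274877906944, 274877906944)] :=
  Pool.Agent.helper14.QF.covD_F chks_eq (.n 0 (.n 3 (.n 0 (.l 2) (.n 0 (.l 2) (.l 3))) (.n 3 (.l 3) (.l 2))) (.n 0 (.n 3 (.n 3 (.l 2) (.n 0 (.l 2) (.l 2))) (.n 3 (.n 0 (.l 2) (.l 2)) (.l 2))) (.n 2 (.n 3 (.n 3 (.l 2) (.n 0 (.l 2) (.l 2))) (.n 3 (.l 3) (.l 2))) (.n 3 (.n 1 (.n 3 (.l 2) (.l 2)) (.n 3 (.l 2) (.l 2))) (.n 3 (.n 0 (.l 2) (.l 2)) (.l 3))))))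
    [(1786706395136, 137438953472), (1477468749824, 34359738368), (96301219840, 13757317120), (274877906944, 274877906944)] rfl (by decide +kernel)
end
mutual
theorem c1_m7_t6 : CovD 0 progs [(1786706395136, 137438953472), (1443109011456, 68719476736), (96301219840, 13757317120), (824633720832, 274877906944)] :=
  Pool.Agent.helper14.QF.covD_F chks_eq (.n 3 (.n 0 (.n 3 (.l 2) (.l 2)) (.n 3 (.n 0 (.l 3) (.n 1 (.l 2) (.l 2))) (.l 3))) (.n 3 (.l 2) (.l 2)))
    [(1786706395136, 137438953472), (1443109011456, 68719476736), (96301219840, 13757317120), (824633720832, 274877906944)] rfl (by decide +kernel)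
theorem c1_m7_t9 : CovD 0 progs [(1992864825344, 68719476736), (1408749273088, 34359738368), (68786585600, 13757317120), (274877906944, 274877906944)] :=
  Pool.Agent.helper14.QF.covD_F chks_eq (.n 1 (.n 3 (.n 0 (.n 0 (.l 2) (.l 2)) (.n 3 (.l 2) (.n 0 (.l 2) (.l 2)))) (.n 3 (.n 0 (.l 2) (.l 2)) (.l 2))) (.n 0 (.n 3 (.n 3 (.l 2) (.l 2)) (.n 3 (.l 2) (.l 2))) (.n 3 (.n 2 (.n 3 (.l 2) (.l 2)) (.n 3 (.l 2) (.n 0 (.l 2) (.l 2)))) (.n 3 (.n 2 (.l 2) (.l 2)) (.l 2)))))
    [(1992864825344, 68719476736), (1408749273088, 34359738368), (68786585600, 13757317120), (274877906944, 274877906944)] rfl (by decide +kernel)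
end
mutual
theorem c1_m7_t10 : CovD 0 progs [(1992864825344, 68719476736), (1460288880640, 17179869184), (68786585600, 13757317120), (137438953472, 137438953472)] :=
  Pool.Agent.helper14.QF.covD_F chks_eq (.n 0 (.n 0 (.n 3 (.l 2) (.l 2)) (.n 3 (.l 2) (.l 2))) (.n 1 (.n 2 (.n 3 (.l 2) (.l 2)) (.n 3 (.l 2) (.n 0 (.l 2) (.l 2)))) (.n 0 (.n 3 (.l 2) (.n 0 (.l 2) (.l 2))) (.l 5))))
    [(1992864825344, 68719476736), (1460288880640, 17179869184), (68786585600, 13757317120), (137438953472, 137438953472)] rfl (by decide +kernel)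
theorem c1_m7_t11 : CovD 0 progs [(1992864825344, 68719476736), (1494648619008, 17179869184), (68786585600, 13757317120), (137438953472, 137438953472)] :=
  Pool.Agent.helper14.QF.covD_F chks_eq (.n 0 (.n 0 (.n 3 (.l 2) (.n 0 (.l 2) (.l 2))) (.n 2 (.n 3 (.l 2) (.l 2)) (.n 3 (.l 2) (.l 2)))) (.n 1 (.n 0 (.n 0 (.n 3 (.l 2) (.l 2)) (.l 5)) (.l 5)) (.l 5)))
    [(1992864825344, 68719476736), (1494648619008, 17179869184), (68786585600, 13757317120), (137438953472, 137438953472)] rfl (by decide +kernel)
end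
mutual
theorem c1_m7_t13 : CovD 0 progs [(1992864825344, 68719476736), (1477468749824, 34359738368), (68786585600, 13757317120), (412316860416, 137438953472)] :=
  Pool.Agent.helper14.QF.covD_F chks_eq (.n 0 (.n 2 (.n 3 (.n 0 (.l 2) (.l 2)) (.l 2)) (.n 3 (.n 3 (.l 2) (.l 2)) (.l 2))) (.n 1 (.n 1 (.n 3 (.n 2 (.l 2) (.l 2)) (.l 2)) (.n 0 (.n 3 (.l 2) (.l 2)) (.l 5))) (.n 0 (.n 0 (.n 1 (.n 3 (.l 2) (.l 2)) (.l 5)) (.l 5)) (.l 5))))
    [(1992864825344, 68719476736), (1477468749824, 34359738368), (68786585600, 13757317120), (412316860416, 137438953472)] rfl (by decide +kernel)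
theorem c1_m7_t16 : CovD 0 progs [(1992864825344, 68719476736), (1443109011456, 68719476736), (68786585600, 13757317120), (824633720832, 274877906944)] :=
  Pool.Agent.helper14.QF.covD_F chks_eq (.n 3 (.n 3 (.n 1 (.l 2) (.n 3 (.l 3) (.l 2))) (.l 3)) (.n 3 (.l 2) (.l 2)))
    [(1992864825344, 68719476736), (1443109011456, 68719476736), (68786585600, 13757317120), (824633720832, 274877906944)] rfl (by decide +kernel)
end
mutual
theorem c1_m7_t18 : CovD 0 progs [(1958505086976, 34359738368), (1408749273088, 34359738368), (96301219840, 13757317120), (274877906944, 274877906944)] :=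
  Pool.Agent.helper14.QF.covD_F chks_eq (.n 1 (.n 3 (.n 3 (.l 2) (.l 2)) (.n 3 (.l 2) (.l 2))) (.n 3 (.n 0 (.n 3 (.l 2) (.l 2)) (.n 3 (.l 2) (.l 2))) (.n 3 (.n 0 (.l 2) (.l 2)) (.l 3))))
    [(1958505086976, 34359738368), (1408749273088, 34359738368), (96301219840, 13757317120), (274877906944, 274877906944)] rfl (by decide +kernel)
theorem c1_m7_t19 : CovD 0 progs [(1958505086976, 34359738368), (1460288880640, 17179869184), (96301219840, 13757317120), (274877906944, 274877906944)] :=
  Pool.Agent.helper14.QF.covD_F chks_eq (.n 2 (.n 3 (.n 3 (.l 2) (.l 3)) (.n 3 (.l 2) (.l 2))) (.n 3 (.n 3 (.l 2) (.n 0 (.l 2) (.l 2))) (.n 3 (.n 0 (.l 2) (.l 2)) (.l 2))))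
    [(1958505086976, 34359738368), (1460288880640, 17179869184), (96301219840, 13757317120), (274877906944, 274877906944)] rfl (by decide +kernel)
end
mutual
theorem c1_m7_t20 : CovD 0 progs [(1958505086976, 34359738368), (1494648619008, 17179869184), (96301219840, 13757317120), (274877906944, 274877906944)] :=
  Pool.Agent.helper14.QF.covD_F chks_eq (.n 3 (.n 2 (.n 3 (.n 0 (.l 2) (.l 2)) (.n 3 (.l 2) (.l 2))) (.n 0 (.n 3 (.l 2) (.l 2)) (.n 3 (.l 2) (.n 1 (.l 2) (.l 3))))) (.n 3 (.n 2 (.n 0 (.l 2) (.l 2)) (.n 3 (.l 2) (.l 2))) (.n 3 (.l 3) (.l 2))))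
    [(1958505086976, 34359738368), (1494648619008, 17179869184), (96301219840, 13757317120), (274877906944, 274877906944)] rfl (by decide +kernel)
theorem c1_m7_t23 : CovD 0 progs [(2027224563712, 34359738368), (1408749273088, 34359738368), (96301219840, 13757317120), (274877906944, 274877906944)] :=
  Pool.Agent.helper14.QF.covD_F chks_eq (.n 3 (.n 0 (.n 1 (.n 3 (.l 2) (.l 2)) (.n 2 (.n 3 (.l 2) (.l 2)) (.n 3 (.l 2) (.l 2)))) (.n 1 (.n 3 (.l 2) (.n 1 (.l 2) (.l 3))) (.n 2 (.n 3 (.l 2) (.l 2)) (.n 3 (.l 2) (.n 0 (.l 2) (.l 3)))))) (.n 3 (.n 1 (.n 3 (.l 3) (.l 2)) (.n 2 (.n 0 (.l 2) (.l 2)) (.n 3 (.l 2) (.l 2)))) (.n 3 (.n 1 (.l 2) (.l 3)) (.l 3))))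
    [(2027224563712, 34359738368), (1408749273088, 34359738368), (96301219840, 13757317120), (274877906944, 274877906944)] rfl (by decide +kernel)
end
mutual
theorem c1_m7_t24 : CovD 0 progs [(2027224563712, 34359738368), (1460288880640, 17179869184), (96301219840, 13757317120), (274877906944, 274877906944)] :=
  Pool.Agent.helper14.QF.covD_F chks_eq (.n 1 (.n 3 (.n 3 (.n 0 (.l 2) (.n 2 (.l 2) (.l 2))) (.n 2 (.n 0 (.l 2) (.l 2)) (.n 3 (.l 2) (.l 2)))) (.n 3 (.n 0 (.n 2 (.l 2) (.l 2)) (.n 3 (.l 3) (.l 2))) (.n 3 (.l 2) (.l 2)))) (.n 0 (.n 2 (.n 3 (.n 3 (.l 2) (.l 2)) (.n 3 (.l 2) (.l 2))) (.n 3 (.n 3 (.l 2) (.l 2)) (.n 3 (.l 2) (.l 2)))) (.l 5)))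
    [(2027224563712, 34359738368), (1460288880640, 17179869184), (96301219840, 13757317120), (274877906944, 274877906944)] rfl (by decide +kernel)
theorem c1_m7_t25 : CovD 0 progs [(2027224563712, 34359738368), (1494648619008, 17179869184), (96301219840, 13757317120), (274877906944, 274877906944)] :=
  Pool.Agent.helper14.QF.covD_F chks_eq (.n 1 (.n 0 (.n 0 (.n 3 (.n 3 (.l 2) (.n 2 (.l 2) (.l 2))) (.n 3 (.n 2 (.l 2) (.l 2)) (.l 3))) (.l 5)) (.l 5)) (.l 5))
    [(2027224563712, 34359738368), (1494648619008, 17179869184), (96301219840, 13757317120), (274877906944, 274877906944)] rfl (by decide +kernel)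
end
mutual
theorem c1_m7_t29 : CovD 0 progs [(1992864825344, 68719476736), (1443109011456, 68719476736), (96301219840, 13757317120), (824633720832, 274877906944)] :=
  Pool.Agent.helper14.QF.covD_F chks_eq (.n 3 (.n 1 (.n 3 (.n 0 (.l 2) (.n 1 (.l 2) (.l 3))) (.l 2)) (.n 0 (.n 3 (.n 2 (.l 2) (.l 3)) (.l 2)) (.n 3 (.n 3 (.n 0 (.l 2) (.l 3)) (.l 2)) (.l 3)))) (.n 3 (.l 2) (.l 2)))
    [(1992864825344, 68719476736), (1443109011456, 68719476736), (96301219840, 13757317120), (824633720832, 274877906944)] rfl (by decide +kernel)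
theorem c1_m7_t32 : CovD 0 progs [(2095944040448, 34359738368), (1391569403904, 17179869184), (68786585600, 13757317120), (274877906944, 274877906944)] :=
  Pool.Agent.helper14.QF.covD_F chks_eq (.n 2 (.n 3 (.n 3 (.l 2) (.n 0 (.l 2) (.l 2))) (.n 3 (.l 2) (.l 2))) (.n 3 (.n 3 (.n 0 (.l 2) (.l 2)) (.n 3 (.l 2) (.l 2))) (.n 3 (.n 0 (.l 2) (.l 2)) (.l 2))))
    [(2095944040448, 34359738368), (1391569403904, 17179869184), (68786585600, 13757317120), (274877906944, 274877906944)] rfl (by decide +kernel)
end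
mutual
theorem c1_m7_t33 : CovD 0 progs [(2095944040448, 34359738368), (1425929142272, 17179869184), (68786585600, 13757317120), (274877906944, 274877906944)] :=
  Pool.Agent.helper14.QF.covD_F chks_eq (.n 3 (.n 0 (.n 2 (.n 3 (.l 2) (.l 2)) (.n 3 (.l 2) (.n 0 (.l 2) (.l 2)))) (.n 1 (.n 0 (.n 0 (.n 3 (.l 2) (.l 2)) (.l 5)) (.l 5)) (.l 5))) (.n 3 (.n 0 (.n 2 (.l 2) (.l 2)) (.n 0 (.n 3 (.l 2) (.l 2)) (.l 5))) (.n 3 (.l 2) (.l 2))))
    [(2095944040448, 34359738368), (1425929142272, 17179869184), (68786585600, 13757317120), (274877906944, 274877906944)] rfl (by decide +kernel)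
theorem c1_m7_t35 : CovD 0 progs [(2095944040448, 34359738368), (1408749273088, 34359738368), (68786585600, 13757317120), (824633720832, 274877906944)] :=
  Pool.Agent.helper14.QF.covD_F chks_eq (.n 3 (.n 3 (.n 0 (.l 2) (.l 2)) (.l 2)) (.n 3 (.l 2) (.l 2)))
    [(2095944040448, 34359738368), (1408749273088, 34359738368), (68786585600, 13757317120), (824633720832, 274877906944)] rfl (by decide +kernel)
end
mutual
theorem c1_m7_t37 : CovD 0 progs [(2095944040448, 34359738368), (1391569403904, 17179869184), (96301219840, 13757317120), (274877906944, 274877906944)] :=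
  Pool.Agent.helper14.QF.covD_F chks_eq (.n 2 (.n 3 (.n 0 (.n 3 (.l 2) (.l 2)) (.n 1 (.n 3 (.l 2) (.l 2)) (.n 3 (.l 2) (.l 2)))) (.n 3 (.n 3 (.l 2) (.l 2)) (.l 3))) (.n 3 (.n 0 (.n 3 (.l 2) (.n 0 (.l 2) (.l 2))) (.n 3 (.n 1 (.l 2) (.l 2)) (.n 3 (.l 2) (.l 2)))) (.n 3 (.n 3 (.n 0 (.l 2) (.l 2)) (.l 3)) (.n 3 (.l 2) (.l 2)))))
    [(2095944040448, 34359738368), (1391569403904, 17179869184), (96301219840, 13757317120), (274877906944, 274877906944)] rfl (by decide +kernel)
theorem c1_m7_t38 : CovD 0 progs [(2095944040448, 34359738368), (1425929142272, 17179869184), (96301219840, 13757317120), (274877906944, 274877906944)] :=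
  Pool.Agent.helper14.QF.covD_F chks_eq (.n 0 (.n 3 (.n 2 (.n 3 (.n 0 (.l 2) (.l 2)) (.n 3 (.l 2) (.l 2))) (.n 3 (.n 1 (.l 2) (.l 2)) (.n 3 (.l 3) (.l 2)))) (.n 3 (.n 2 (.n 1 (.l 2) (.l 2)) (.n 3 (.l 2) (.l 2))) (.n 3 (.l 3) (.l 2)))) (.n 1 (.n 0 (.n 1 (.n 0 (.n 0 (.n 1 (.n 3 (.n 3 (.l 2) (.l 2)) (.n 3 (.l 2) (.l 2))) (.l 5)) (.l 5)) (.l 5)) (.l 5)) (.l 5)) (.l 5)))
    [(2095944040448, 34359738368), (1425929142272, 17179869184), (96301219840, 13757317120), (274877906944, 274877906944)] rfl (by decide +kernel)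
end
mutual
theorem c1_m7_t40 : CovD 0 progs [(2095944040448, 34359738368), (1408749273088, 34359738368), (96301219840, 13757317120), (824633720832, 274877906944)] :=
  Pool.Agent.helper14.QF.covD_F chks_eq (.n 3 (.n 3 (.n 2 (.l 3) (.n 3 (.l 2) (.l 2))) (.l 3)) (.n 3 (.l 2) (.l 2)))
    [(2095944040448, 34359738368), (1408749273088, 34359738368), (96301219840, 13757317120), (824633720832, 274877906944)] rfl (by decide +kernel)
theorem c1_m7_t43 : CovD 0 progs [(2095944040448, 34359738368), (1477468749824, 34359738368), (82543902720, 27514634240), (549755813888, 549755813888)] :=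
  Pool.Agent.helper14.QF.covD_F chks_eq (.l 5)
    [(2095944040448, 34359738368), (1477468749824, 34359738368), (82543902720, 27514634240), (549755813888, 549755813888)] rfl (by decide +kernel)
end
mutual
theorem c1_m7_t45 : CovD 0 progs [(2147483648000, 17179869184), (1382979469312, 8589934592), (68786585600, 13757317120), (549755813888, 549755813888)] :=
  Pool.Agent.helper14.QF.covD_F chks_eq (.n 3 (.n 3 (.n 2 (.n 3 (.l 2) (.l 2)) (.n 3 (.l 2) (.l 2))) (.n 3 (.n 2 (.l 2) (.l 2)) (.l 2))) (.n 3 (.n 3 (.l 2) (.l 2)) (.n 3 (.l 2) (.l 2))))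
    [(2147483648000, 17179869184), (1382979469312, 8589934592), (68786585600, 13757317120), (549755813888, 549755813888)] rfl (by decide +kernel)
theorem c1_m7_t46 : CovD 0 progs [(2147483648000, 17179869184), (1382979469312, 8589934592), (96301219840, 13757317120), (549755813888, 549755813888)] :=
  Pool.Agent.helper14.QF.covD_F chks_eq (.n 3 (.n 3 (.n 2 (.n 3 (.l 2) (.n 0 (.l 2) (.l 2))) (.n 3 (.n 0 (.l 2) (.l 2)) (.n 3 (.l 2) (.l 2)))) (.n 3 (.n 2 (.n 0 (.l 2) (.l 2)) (.n 3 (.l 2) (.l 2))) (.n 3 (.l 2) (.l 2)))) (.n 3 (.n 3 (.l 2) (.l 2)) (.n 3 (.l 2) (.l 2))))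
    [(2147483648000, 17179869184), (1382979469312, 8589934592), (96301219840, 13757317120), (549755813888, 549755813888)] rfl (by decide +kernel)
end
mutual
theorem c1_m7_t48 : CovD 0 progs [(2147483648000, 17179869184), (1400159338496, 8589934592), (82543902720, 27514634240), (549755813888, 549755813888)] :=
  Pool.Agent.helper14.QF.covD_F chks_eq (.l 5)
    [(2147483648000, 17179869184), (1400159338496, 8589934592), (82543902720, 27514634240), (549755813888, 549755813888)] rfl (by decide +kernel)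
theorem c1_m7_t50 : CovD 0 progs [(2147483648000, 17179869184), (1425929142272, 17179869184), (82543902720, 27514634240), (549755813888, 549755813888)] :=
  Pool.Agent.helper14.QF.covD_F chks_eq (.l 5)
    [(2147483648000, 17179869184), (1425929142272, 17179869184), (82543902720, 27514634240), (549755813888, 549755813888)] rfl (by decide +kernel)
end
mutual
theorem c1_m7_t52 : CovD 0 progs [(2147483648000, 17179869184), (1477468749824, 34359738368), (82543902720, 27514634240), (549755813888, 549755813888)] :=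
  Pool.Agent.helper14.QF.covD_F chks_eq (.l 5)
    [(2147483648000, 17179869184), (1477468749824, 34359738368), (82543902720, 27514634240), (549755813888, 549755813888)] rfl (by decide +kernel)
theorem c1_m7_t54 : CovD 0 progs [(2181843386368, 17179869184), (1443109011456, 68719476736), (82543902720, 27514634240), (549755813888, 549755813888)] :=
  Pool.Agent.helper14.QF.covD_F chks_eq (.l 5)
    [(2181843386368, 17179869184), (1443109011456, 68719476736), (82543902720, 27514634240), (549755813888, 549755813888)] rfl (by decide +kernel)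
end
theorem c1_m7_t2 : CovD 0 progs [(1786706395136, 137438953472), (1443109011456, 68719476736), (68786585600, 13757317120), (549755813888, 549755813888)] :=
  covD_split 3 (by decide +kernel) c1_m7_t0 c1_m7_t1
theorem c1_m7_t5 : CovD 0 progs [(1786706395136, 137438953472), (1443109011456, 68719476736), (96301219840, 13757317120), (274877906944, 274877906944)] :=
  covD_split 1 (by decide +kernel) c1_m7_t3 c1_m7_t4
theorem c1_m7_t7 : CovD 0 progs [(1786706395136, 137438953472), (1443109011456, 68719476736), (96301219840, 13757317120), (549755813888, 549755813888)] :=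
  covD_split 3 (by decide +kernel) c1_m7_t5 c1_m7_t6
theorem c1_m7_t8 : CovD 0 progs [(1786706395136, 137438953472), (1443109011456, 68719476736), (82543902720, 27514634240), (549755813888, 549755813888)] :=
  covD_split 2 (by decide +kernel) c1_m7_t2 c1_m7_t7
theorem c1_m7_t12 : CovD 0 progs [(1992864825344, 68719476736), (1477468749824, 34359738368), (68786585600, 13757317120), (137438953472, 137438953472)] :=
  covD_split 1 (by decide +kernel) c1_m7_t10 c1_m7_t11
theorem c1_m7_t14 : CovD 0 progs [(1992864825344, 68719476736), (1477468749824, 34359738368), (68786585600, 13757317120), (274877906944, 274877906944)] :=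
  covD_split 3 (by decide +kernel) c1_m7_t12 c1_m7_t13
theorem c1_m7_t15 : CovD 0 progs [(1992864825344, 68719476736), (1443109011456, 68719476736), (68786585600, 13757317120), (274877906944, 274877906944)] :=
  covD_split 1 (by decide +kernel) c1_m7_t9 c1_m7_t14
theorem c1_m7_t17 : CovD 0 progs [(1992864825344, 68719476736), (1443109011456, 68719476736), (68786585600, 13757317120), (549755813888, 549755813888)] :=
  covD_split 3 (by decide +kernel) c1_m7_t15 c1_m7_t16
theorem c1_m7_t21 : CovD 0 progs [(1958505086976, 34359738368), (1477468749824, 34359738368), (96301219840, 13757317120), (274877906944, 274877906944)] :=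
  covD_split 1 (by decide +kernel) c1_m7_t19 c1_m7_t20
theorem c1_m7_t22 : CovD 0 progs [(1958505086976, 34359738368), (1443109011456, 68719476736), (96301219840, 13757317120), (274877906944, 274877906944)] :=
  covD_split 1 (by decide +kernel) c1_m7_t18 c1_m7_t21
theorem c1_m7_t26 : CovD 0 progs [(2027224563712, 34359738368), (1477468749824, 34359738368), (96301219840, 13757317120), (274877906944, 274877906944)] :=
  covD_split 1 (by decide +kernel) c1_m7_t24 c1_m7_t25
theorem c1_m7_t27 : CovD 0 progs [(2027224563712, 34359738368), (1443109011456, 68719476736), (96301219840, 13757317120), (274877906944, 274877906944)] :=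
  covD_split 1 (by decide +kernel) c1_m7_t23 c1_m7_t26
theorem c1_m7_t28 : CovD 0 progs [(1992864825344, 68719476736), (1443109011456, 68719476736), (96301219840, 13757317120), (274877906944, 274877906944)] :=
  covD_split 0 (by decide +kernel) c1_m7_t22 c1_m7_t27
theorem c1_m7_t30 : CovD 0 progs [(1992864825344, 68719476736), (1443109011456, 68719476736), (96301219840, 13757317120), (549755813888, 549755813888)] :=
  covD_split 3 (by decide +kernel) c1_m7_t28 c1_m7_t29
theorem c1_m7_t31 : CovD 0 progs [(1992864825344, 68719476736), (1443109011456, 68719476736), (82543902720, 27514634240), (549755813888, 549755813888)] :=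
  covD_split 2 (by decide +kernel) c1_m7_t17 c1_m7_t30
theorem c1_m7_t34 : CovD 0 progs [(2095944040448, 34359738368), (1408749273088, 34359738368), (68786585600, 13757317120), (274877906944, 274877906944)] :=
  covD_split 1 (by decide +kernel) c1_m7_t32 c1_m7_t33
theorem c1_m7_t36 : CovD 0 progs [(2095944040448, 34359738368), (1408749273088, 34359738368), (68786585600, 13757317120), (549755813888, 549755813888)] :=
  covD_split 3 (by decide +kernel) c1_m7_t34 c1_m7_t35
theorem c1_m7_t39 : CovD 0 progs [(2095944040448, 34359738368), (1408749273088, 34359738368), (96301219840, 13757317120), (274877906944, 274877906944)] :=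
  covD_split 1 (by decide +kernel) c1_m7_t37 c1_m7_t38
theorem c1_m7_t41 : CovD 0 progs [(2095944040448, 34359738368), (1408749273088, 34359738368), (96301219840, 13757317120), (549755813888, 549755813888)] :=
  covD_split 3 (by decide +kernel) c1_m7_t39 c1_m7_t40
theorem c1_m7_t42 : CovD 0 progs [(2095944040448, 34359738368), (1408749273088, 34359738368), (82543902720, 27514634240), (549755813888, 549755813888)] :=
  covD_split 2 (by decide +kernel) c1_m7_t36 c1_m7_t41
theorem c1_m7_t44 : CovD 0 progs [(2095944040448, 34359738368), (1443109011456, 68719476736), (82543902720, 27514634240), (549755813888, 549755813888)] :=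
  covD_split 1 (by decide +kernel) c1_m7_t42 c1_m7_t43
theorem c1_m7_t47 : CovD 0 progs [(2147483648000, 17179869184), (1382979469312, 8589934592), (82543902720, 27514634240), (549755813888, 549755813888)] :=
  covD_split 2 (by decide +kernel) c1_m7_t45 c1_m7_t46
theorem c1_m7_t49 : CovD 0 progs [(2147483648000, 17179869184), (1391569403904, 17179869184), (82543902720, 27514634240), (549755813888, 549755813888)] :=
  covD_split 1 (by decide +kernel) c1_m7_t47 c1_m7_t48
theorem c1_m7_t51 : CovD 0 progs [(2147483648000, 17179869184), (1408749273088, 34359738368), (82543902720, 27514634240), (549755813888, 549755813888)] :=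
  covD_split 1 (by decide +kernel) c1_m7_t49 c1_m7_t50
theorem c1_m7_t53 : CovD 0 progs [(2147483648000, 17179869184), (1443109011456, 68719476736), (82543902720, 27514634240), (549755813888, 549755813888)] :=
  covD_split 1 (by decide +kernel) c1_m7_t51 c1_m7_t52
theorem c1_m7_t55 : CovD 0 progs [(2164663517184, 34359738368), (1443109011456, 68719476736), (82543902720, 27514634240), (549755813888, 549755813888)] :=
  covD_split 0 (by decide +kernel) c1_m7_t53 c1_m7_t54
theorem c1_m7_t56 : CovD 0 progs [(2130303778816, 68719476736), (1443109011456, 68719476736), (82543902720, 27514634240), (549755813888, 549755813888)] :=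
  covD_split 0 (by decide +kernel) c1_m7_t44 c1_m7_t55
theorem c1_m7_t57 : CovD 0 progs [(2061584302080, 137438953472), (1443109011456, 68719476736), (82543902720, 27514634240), (549755813888, 549755813888)] :=
  covD_split 0 (by decide +kernel) c1_m7_t31 c1_m7_t56
theorem c1_m7 : CovD 0 progs [(1924145348608, 274877906944), (1443109011456, 68719476736), (82543902720, 27514634240), (549755813888, 549755813888)] :=
  covD_split 0 (by decide +kernel) c1_m7_t8 c1_m7_t57

end Pool.Agent.helper71.FJ.Crt.QHI
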