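import Pool.Agent.helper71.FJ.Crt.QHIc1_0
import Pool.Agent.helper71.FJ.Crt.QHIc1_1
import Pool.Agent.helper71.FJ.Crt.QHIc1_2
import Pool.Agent.helper71.FJ.Crt.QHIc1_3
import Pool.Agent.helper71.FJ.Crt.QHIc1_4
import Pool.Agent.helper71.FJ.Crt.QHIc1_5
import Pool.Agent.helper71.FJ.Crt.QHIc1_6
import Pool.Agent.helper71.FJ.Crt.QHIc1_7
import Pool.Agent.helper71.FJ.Crt.QHIc1_8
import Pool.Agent.helper71.FJ.Crt.QHIc1_9

/-!
Generated certificates, assembled.
-/

namespace Pool.Agent.helper71.FJ.Crt.QHI

open Pool.Agent.helper31.IA (Z Op)
open Pool.Agent.helper31.IC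

theorem c1_top0 : CovD 0 progs [(1374389534720, 274877906944), (1099511627776, 1099511627776), (55029268480, 55029268480), (274877906944, 274877906944)] :=
  covD_split 3 (by decide +kernel) c1_m0 c1_m1
theorem c1_top1 : CovD 0 progs [(1374389534720, 274877906944), (1099511627776, 1099511627776), (55029268480, 55029268480), (549755813888, 549755813888)] :=
  covD_split 3 (by decide +kernel) c1_top0 c1_m2
theorem c1_top2 : CovD 0 progs [(1924145348608, 274877906944), (1649267441664, 549755813888), (27514634240, 27514634240), (549755813888, 549755813888)] :=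
  covD_split 1 (by decide +kernel) c1_m4 c1_m5
theorem c1_top3 : CovD 0 progs [(1924145348608, 274877906944), (1511828488192, 137438953472), (82543902720, 27514634240), (549755813888, 549755813888)] :=
  covD_split 1 (by decide +kernel) c1_m7 c1_m8
theorem c1_top4 : CovD 0 progs [(1924145348608, 274877906944), (1374389534720, 274877906944), (82543902720, 27514634240), (549755813888, 549755813888)] :=
  covD_split 1 (by decide +kernel) c1_m6 c1_top3
theorem c1_top5 : CovD 0 progs [(1924145348608, 274877906944), (1649267441664, 549755813888), (82543902720, 27514634240), (549755813888, 549755813888)] :=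
  covD_split 1 (by decide +kernel) c1_top4 c1_m9
theorem c1_top6 : CovD 0 progs [(1924145348608, 274877906944), (1649267441664, 549755813888), (55029268480, 55029268480), (549755813888, 549755813888)] :=
  covD_split 2 (by decide +kernel) c1_top2 c1_top5
theorem c1_top7 : CovD 0 progs [(1924145348608, 274877906944), (1099511627776, 1099511627776), (55029268480, 55029268480), (549755813888, 549755813888)] :=
  covD_split 1 (by decide +kernel) c1_m3 c1_top6
theorem c1_top8 : CovD 0 progs [(1649267441664, 549755813888), (1099511627776, 1099511627776), (55029268480, 55029268480), (549755813888, 549755813888)] :=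
  covD_split 0 (by decide +kernel) c1_top1 c1_top7

theorem c1_all : CovD 0 progs [(1649267441664, 549755813888), (1099511627776, 1099511627776), (55029268480, 55029268480), (549755813888, 549755813888)] := c1_top8

end Pool.Agent.helper71.FJ.Crt.QHI
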