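import Pool.Agent.helper71.FJ.Crt.QMaP

/-!
Generated certificates.
-/

namespace Pool.Agent.helper71.FJ.Crt.QMa

open Pool.Agent.helper31.IA (Z Op)
open Pool.Agent.helper31.IC

mutual
theorem c0_m11_t0 : CovD 0 progs [(183207198720, 14092861440), (47244640256, 47244640256), (137438953472, 137438953472), (962072674304, 137438953472)] :=
  Pool.Agent.helper14.QF.covD_F chks_eq (.l 6)
    [(183207198720, 14092861440), (47244640256, 47244640256), (137438953472, 137438953472), (962072674304, 137438953472)] rfl (by decide +kernel)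
theorem c0_m11_t1 : CovD 0 progs [(204346490880, 7046430720), (47244640256, 47244640256), (68719476736, 68719476736), (893353197568, 68719476736)] :=
  Pool.Agent.helper14.QF.covD_F chks_eq (.l 6)
    [(204346490880, 7046430720), (47244640256, 47244640256), (68719476736, 68719476736), (893353197568, 68719476736)] rfl (by decide +kernel)
end
mutual
theorem c0_m11_t2 : CovD 0 progs [(214916136960, 3523215360), (23622320128, 23622320128), (68719476736, 68719476736), (893353197568, 68719476736)] :=
  Pool.Agent.helper14.QF.covD_F chks_eq (.l 6)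
    [(214916136960, 3523215360), (23622320128, 23622320128), (68719476736, 68719476736), (893353197568, 68719476736)] rfl (by decide +kernel)
theorem c0_m11_t3 : CovD 0 progs [(220200960000, 1761607680), (23622320128, 23622320128), (68719476736, 68719476736), (893353197568, 68719476736)] :=
  Pool.Agent.helper14.QF.covD_F chks_eq (.n 2 (.l 6) (.l 6))
    [(220200960000, 1761607680), (23622320128, 23622320128), (68719476736, 68719476736), (893353197568, 68719476736)] rfl (by decide +kernel)
end
mutual
theorem c0_m11_t4 : CovD 0 progs [(223724175360, 1761607680), (23622320128, 23622320128), (17179869184, 17179869184), (893353197568, 68719476736)] :=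
  Pool.Agent.helper14.QF.covD_F chks_eq (.n 3 (.n 0 (.l 6) (.n 0 (.n 1 (.l 6) (.n 1 (.l 6) (.n 3 (.n 3 (.n 3 (.n 0 (.l 4) (.l 4)) (.l 4)) (.l 6)) (.l 6)))) (.n 1 (.l 6) (.n 3 (.n 3 (.n 3 (.n 0 (.l 4) (.l 4)) (.l 4)) (.l 6)) (.l 6))))) (.l 6))
    [(223724175360, 1761607680), (23622320128, 23622320128), (17179869184, 17179869184), (893353197568, 68719476736)] rfl (by decide +kernel)
theorem c0_m11_t5 : CovD 0 progs [(223724175360, 1761607680), (23622320128, 23622320128), (51539607552, 17179869184), (893353197568, 68719476736)] :=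
  Pool.Agent.helper14.QF.covD_F chks_eq (.n 3 (.n 0 (.l 6) (.n 0 (.n 0 (.n 2 (.l 6) (.l 6)) (.n 3 (.n 3 (.n 3 (.l 4) (.l 4)) (.l 6)) (.l 6))) (.n 1 (.l 6) (.n 3 (.n 3 (.n 3 (.n 0 (.l 4) (.l 4)) (.l 4)) (.l 6)) (.l 6))))) (.l 6))
    [(223724175360, 1761607680), (23622320128, 23622320128), (51539607552, 17179869184), (893353197568, 68719476736)] rfl (by decide +kernel)
end
mutual
theorem c0_m11_t7 : CovD 0 progs [(223724175360, 1761607680), (23622320128, 23622320128), (103079215104, 34359738368), (893353197568, 68719476736)] :=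
  Pool.Agent.helper14.QF.covD_F chks_eq (.n 1 (.l 6) (.n 3 (.n 0 (.l 6) (.n 2 (.n 2 (.n 3 (.n 2 (.n 3 (.n 3 (.n 3 (.l 4) (.l 4)) (.l 6)) (.l 6)) (.l 6)) (.l 6)) (.l 6)) (.l 6))) (.l 6)))
    [(223724175360, 1761607680), (23622320128, 23622320128), (103079215104, 34359738368), (893353197568, 68719476736)] rfl (by decide +kernel)
theorem c0_m11_t11 : CovD 0 progs [(214916136960, 3523215360), (70866960384, 23622320128), (34359738368, 34359738368), (841813590016, 17179869184)] :=
  Pool.Agent.helper14.QF.covD_F chks_eq (.l 6)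
    [(214916136960, 3523215360), (70866960384, 23622320128), (34359738368, 34359738368), (841813590016, 17179869184)] rfl (by decide +kernel)
end
mutual
theorem c0_m11_t12 : CovD 0 progs [(221962567680, 3523215360), (70866960384, 23622320128), (34359738368, 34359738368), (833223655424, 8589934592)] :=
  Pool.Agent.helper14.QF.covD_F chks_eq (.n 0 (.n 3 (.n 1 (.n 0 (.l 4) (.n 0 (.l 4) (.l 4))) (.n 0 (.l 4) (.n 0 (.l 4) (.l 4)))) (.n 0 (.n 0 (.l 4) (.l 4)) (.n 3 (.l 4) (.l 4)))) (.n 3 (.n 0 (.n 0 (.l 4) (.l 4)) (.n 3 (.l 4) (.l 4))) (.n 3 (.n 0 (.l 4) (.l 4)) (.n 0 (.l 4) (.l 4)))))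
    [(221962567680, 3523215360), (70866960384, 23622320128), (34359738368, 34359738368), (833223655424, 8589934592)] rfl (by decide +kernel)
theorem c0_m11_t13 : CovD 0 progs [(221962567680, 3523215360), (70866960384, 23622320128), (34359738368, 34359738368), (850403524608, 8589934592)] :=
  Pool.Agent.helper14.QF.covD_F chks_eq (.n 0 (.n 0 (.l 6) (.n 0 (.l 6) (.n 3 (.l 4) (.l 4)))) (.n 0 (.n 0 (.n 3 (.l 4) (.l 4)) (.n 3 (.l 4) (.l 4))) (.n 0 (.n 3 (.l 4) (.l 4)) (.n 3 (.l 4) (.l 4)))))
    [(221962567680, 3523215360), (70866960384, 23622320128), (34359738368, 34359738368), (850403524608, 8589934592)] rfl (by decide +kernel)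
end
mutual
theorem c0_m11_t16 : CovD 0 progs [(218439352320, 7046430720), (70866960384, 23622320128), (34359738368, 34359738368), (876173328384, 17179869184)] :=
  Pool.Agent.helper14.QF.covD_F chks_eq (.n 0 (.l 6) (.n 0 (.l 6) (.n 0 (.n 0 (.l 6) (.n 3 (.n 3 (.l 4) (.l 4)) (.l 6))) (.n 0 (.n 3 (.n 3 (.l 4) (.l 4)) (.l 6)) (.n 3 (.n 3 (.l 4) (.l 4)) (.l 4))))))
    [(218439352320, 7046430720), (70866960384, 23622320128), (34359738368, 34359738368), (876173328384, 17179869184)] rfl (by decide +kernel)
theorem c0_m11_t18 : CovD 0 progs [(218439352320, 7046430720), (70866960384, 23622320128), (34359738368, 34359738368), (927712935936, 34359738368)] :=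
  Pool.Agent.helper14.QF.covD_F chks_eq (.l 6)
    [(218439352320, 7046430720), (70866960384, 23622320128), (34359738368, 34359738368), (927712935936, 34359738368)] rfl (by decide +kernel)
end
mutual
theorem c0_m11_t20 : CovD 0 progs [(214916136960, 3523215360), (70866960384, 23622320128), (103079215104, 34359738368), (893353197568, 68719476736)] :=
  Pool.Agent.helper14.QF.covD_F chks_eq (.l 6)
    [(214916136960, 3523215360), (70866960384, 23622320128), (103079215104, 34359738368), (893353197568, 68719476736)] rfl (by decide +kernel)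
theorem c0_m11_t21 : CovD 0 progs [(220200960000, 1761607680), (70866960384, 23622320128), (103079215104, 34359738368), (893353197568, 68719476736)] :=
  Pool.Agent.helper14.QF.covD_F chks_eq (.n 3 (.n 1 (.l 6) (.n 3 (.n 0 (.l 6) (.n 0 (.n 3 (.n 3 (.l 4) (.l 6)) (.l 6)) (.n 3 (.n 3 (.l 4) (.n 0 (.l 4) (.l 4))) (.l 6)))) (.l 6))) (.l 6))
    [(220200960000, 1761607680), (70866960384, 23622320128), (103079215104, 34359738368), (893353197568, 68719476736)] rfl (by decide +kernel)
end
mutual
theorem c0_m11_t22 : CovD 0 progs [(222843371520, 880803840), (70866960384, 23622320128), (103079215104, 34359738368), (893353197568, 68719476736)] :=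
  Pool.Agent.helper14.QF.covD_F chks_eq (.n 0 (.n 3 (.n 3 (.n 3 (.n 0 (.n 3 (.l 4) (.l 4)) (.n 3 (.l 4) (.l 4))) (.n 3 (.l 4) (.l 4))) (.l 6)) (.l 6)) (.n 3 (.n 2 (.n 3 (.n 3 (.n 0 (.n 3 (.l 4) (.l 4)) (.n 3 (.l 4) (.l 4))) (.n 3 (.l 4) (.l 4))) (.l 6)) (.n 1 (.l 6) (.n 3 (.n 3 (.n 3 (.l 4) (.n 0 (.l 4) (.l 4))) (.l 6)) (.l 6)))) (.l 6)))
    [(222843371520, 880803840), (70866960384, 23622320128), (103079215104, 34359738368), (893353197568, 68719476736)] rfl (by decide +kernel)
theorem c0_m11_t23 : CovD 0 progs [(224164577280, 440401920), (70866960384, 23622320128), (103079215104, 34359738368), (893353197568, 68719476736)] :=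
  Pool.Agent.helper14.QF.covD_F chks_eq (.n 1 (.n 3 (.n 3 (.n 3 (.n 3 (.n 0 (.l 4) (.l 4)) (.l 4)) (.n 2 (.l 6) (.l 6))) (.l 6)) (.l 6)) (.n 3 (.n 1 (.n 3 (.n 3 (.n 3 (.n 0 (.l 4) (.l 4)) (.l 4)) (.n 3 (.l 4) (.l 4))) (.l 6)) (.n 3 (.n 3 (.n 3 (.n 0 (.l 4) (.l 4)) (.l 4)) (.n 3 (.l 4) (.l 4))) (.n 2 (.n 2 (.l 6) (.l 6)) (.l 6)))) (.l 6)))
    [(224164577280, 440401920), (70866960384, 23622320128), (103079215104, 34359738368), (893353197568, 68719476736)] rfl (by decide +kernel)
end
mutual
theorem c0_m11_t24 : CovD 0 progs [(225045381120, 440401920), (70866960384, 23622320128), (103079215104, 34359738368), (893353197568, 68719476736)] :=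
  Pool.Agent.helper14.QF.covD_F chks_eq (.n 3 (.n 3 (.n 3 (.n 0 (.n 3 (.l 4) (.l 4)) (.n 3 (.l 4) (.l 4))) (.n 3 (.l 4) (.l 4))) (.n 3 (.n 3 (.l 4) (.l 4)) (.l 4))) (.l 6))
    [(225045381120, 440401920), (70866960384, 23622320128), (103079215104, 34359738368), (893353197568, 68719476736)] rfl (by decide +kernel)
theorem c0_m11_t32 : CovD 0 progs [(211392921600, 14092861440), (47244640256, 47244640256), (68719476736, 68719476736), (1030792151040, 68719476736)] :=
  Pool.Agent.helper14.QF.covD_F chks_eq (.l 6)
    [(211392921600, 14092861440), (47244640256, 47244640256), (68719476736, 68719476736), (1030792151040, 68719476736)] rfl (by decide +kernel)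
theorem c0_m11_t34 : CovD 0 progs [(211392921600, 14092861440), (47244640256, 47244640256), (206158430208, 68719476736), (962072674304, 137438953472)] :=
  Pool.Agent.helper14.QF.covD_F chks_eq (.n 0 (.l 6) (.n 3 (.n 0 (.l 6) (.n 2 (.n 1 (.l 6) (.n 0 (.l 6) (.n 3 (.n 2 (.n 1 (.l 6) (.n 3 (.n 0 (.n 1 (.l 6) (.l 6)) (.n 0 (.n 3 (.n 3 (.n 0 (.l 4) (.l 4)) (.l 4)) (.l 6)) (.n 3 (.n 3 (.n 0 (.l 4) (.l 4)) (.l 4)) (.l 6)))) (.l 6))) (.l 6)) (.l 6)))) (.l 6))) (.l 6)))
    [(211392921600, 14092861440), (47244640256, 47244640256), (206158430208, 68719476736), (962072674304, 137438953472)] rfl (by decide +kernel)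
end
theorem c0_m11_t6 : CovD 0 progs [(223724175360, 1761607680), (23622320128, 23622320128), (34359738368, 34359738368), (893353197568, 68719476736)] :=
  covD_split 2 (by decide +kernel) c0_m11_t4 c0_m11_t5
theorem c0_m11_t8 : CovD 0 progs [(223724175360, 1761607680), (23622320128, 23622320128), (68719476736, 68719476736), (893353197568, 68719476736)] :=
  covD_split 2 (by decide +kernel) c0_m11_t6 c0_m11_t7
theorem c0_m11_t9 : CovD 0 progs [(221962567680, 3523215360), (23622320128, 23622320128), (68719476736, 68719476736), (893353197568, 68719476736)] :=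
  covD_split 0 (by decide +kernel) c0_m11_t3 c0_m11_t8
theorem c0_m11_t10 : CovD 0 progs [(218439352320, 7046430720), (23622320128, 23622320128), (68719476736, 68719476736), (893353197568, 68719476736)] :=
  covD_split 0 (by decide +kernel) c0_m11_t2 c0_m11_t9
theorem c0_m11_t14 : CovD 0 progs [(221962567680, 3523215360), (70866960384, 23622320128), (34359738368, 34359738368), (841813590016, 17179869184)] :=
  covD_split 3 (by decide +kernel) c0_m11_t12 c0_m11_t13
theorem c0_m11_t15 : CovD 0 progs [(218439352320, 7046430720), (70866960384, 23622320128), (34359738368, 34359738368), (841813590016, 17179869184)] :=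
  covD_split 0 (by decide +kernel) c0_m11_t11 c0_m11_t14
theorem c0_m11_t17 : CovD 0 progs [(218439352320, 7046430720), (70866960384, 23622320128), (34359738368, 34359738368), (858993459200, 34359738368)] :=
  covD_split 3 (by decide +kernel) c0_m11_t15 c0_m11_t16
theorem c0_m11_t19 : CovD 0 progs [(218439352320, 7046430720), (70866960384, 23622320128), (34359738368, 34359738368), (893353197568, 68719476736)] :=
  covD_split 3 (by decide +kernel) c0_m11_t17 c0_m11_t18
theorem c0_m11_t25 : CovD 0 progs [(224604979200, 880803840), (70866960384, 23622320128), (103079215104, 34359738368), (893353197568, 68719476736)] :=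
  covD_split 0 (by decide +kernel) c0_m11_t23 c0_m11_t24
theorem c0_m11_t26 : CovD 0 progs [(223724175360, 1761607680), (70866960384, 23622320128), (103079215104, 34359738368), (893353197568, 68719476736)] :=
  covD_split 0 (by decide +kernel) c0_m11_t22 c0_m11_t25
theorem c0_m11_t27 : CovD 0 progs [(221962567680, 3523215360), (70866960384, 23622320128), (103079215104, 34359738368), (893353197568, 68719476736)] :=
  covD_split 0 (by decide +kernel) c0_m11_t21 c0_m11_t26
theorem c0_m11_t28 : CovD 0 progs [(218439352320, 7046430720), (70866960384, 23622320128), (103079215104, 34359738368), (893353197568, 68719476736)] :=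
  covD_split 0 (by decide +kernel) c0_m11_t20 c0_m11_t27
theorem c0_m11_t29 : CovD 0 progs [(218439352320, 7046430720), (70866960384, 23622320128), (68719476736, 68719476736), (893353197568, 68719476736)] :=
  covD_split 2 (by decide +kernel) c0_m11_t19 c0_m11_t28
theorem c0_m11_t30 : CovD 0 progs [(218439352320, 7046430720), (47244640256, 47244640256), (68719476736, 68719476736), (893353197568, 68719476736)] :=
  covD_split 1 (by decide +kernel) c0_m11_t10 c0_m11_t29
theorem c0_m11_t31 : CovD 0 progs [(211392921600, 14092861440), (47244640256, 47244640256), (68719476736, 68719476736), (893353197568, 68719476736)] :=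
  covD_split 0 (by decide +kernel) c0_m11_t1 c0_m11_t30
theorem c0_m11_t33 : CovD 0 progs [(211392921600, 14092861440), (47244640256, 47244640256), (68719476736, 68719476736), (962072674304, 137438953472)] :=
  covD_split 3 (by decide +kernel) c0_m11_t31 c0_m11_t32
theorem c0_m11_t35 : CovD 0 progs [(211392921600, 14092861440), (47244640256, 47244640256), (137438953472, 137438953472), (962072674304, 137438953472)] :=
  covD_split 2 (by decide +kernel) c0_m11_t33 c0_m11_t34
theorem c0_m11 : CovD 0 progs [(197300060160, 28185722880), (47244640256, 47244640256), (137438953472, 137438953472), (962072674304, 137438953472)] :=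
  covD_split 0 (by decide +kernel) c0_m11_t0 c0_m11_t35

end Pool.Agent.helper71.FJ.Crt.QMa
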