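import Pool.Agent.helper71.FJ.Crt.QMaP

/-!
Generated certificates.
-/

namespace Pool.Agent.helper71.FJ.Crt.QMa

open Pool.Agent.helper31.IA (Z Op)
open Pool.Agent.helper31.IC

theorem c0_m12 : CovD 0 progs [(183207198720, 14092861440), (141733920768, 47244640256), (68719476736, 68719476736), (962072674304, 137438953472)] :=
  Pool.Agent.helper14.QF.covD_F chks_eq (.l 6)
    [(183207198720, 14092861440), (141733920768, 47244640256), (68719476736, 68719476736), (962072674304, 137438953472)] rfl (by decide +kernel)

end Pool.Agent.helper71.FJ.Crt.QMa
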