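import Pool.Agent.helper71.FJ.Crt.QMaP

/-!
Generated certificates.
-/

namespace Pool.Agent.helper71.FJ.Crt.QMa

open Pool.Agent.helper31.IA (Z Op)
open Pool.Agent.helper31.IC

mutual
theorem c0_m14_t0 : CovD 0 progs [(214916136960, 3523215360), (106300440576, 11811160064), (17179869184, 17179869184), (858993459200, 34359738368)] :=
  Pool.Agent.helper14.QF.covD_F chks_eq (.n 0 (.l 6) (.n 0 (.l 6) (.n 3 (.n 3 (.n 3 (.l 4) (.n 0 (.l 4) (.l 4))) (.l 6)) (.l 6))))
    [(214916136960, 3523215360), (106300440576, 11811160064), (17179869184, 17179869184), (858993459200, 34359738368)] rfl (by decide +kernel)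
theorem c0_m14_t1 : CovD 0 progs [(221962567680, 3523215360), (106300440576, 11811160064), (17179869184, 17179869184), (833223655424, 8589934592)] :=
  Pool.Agent.helper14.QF.covD_F chks_eq (.n 3 (.n 0 (.n 0 (.l 4) (.n 0 (.l 4) (.l 4))) (.n 0 (.n 0 (.l 4) (.l 4)) (.n 3 (.l 4) (.l 4)))) (.n 0 (.n 0 (.n 0 (.l 4) (.l 4)) (.n 3 (.l 4) (.l 4))) (.n 0 (.n 3 (.l 4) (.l 4)) (.n 0 (.l 4) (.l 4)))))
    [(221962567680, 3523215360), (106300440576, 11811160064), (17179869184, 17179869184), (833223655424, 8589934592)] rfl (by decide +kernel)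
end
mutual
theorem c0_m14_t2 : CovD 0 progs [(221962567680, 3523215360), (106300440576, 11811160064), (17179869184, 17179869184), (850403524608, 8589934592)] :=
  Pool.Agent.helper14.QF.covD_F chks_eq (.n 3 (.n 3 (.n 0 (.n 0 (.l 4) (.l 4)) (.l 4)) (.n 0 (.n 0 (.l 4) (.l 4)) (.l 4))) (.n 0 (.n 0 (.l 4) (.l 4)) (.n 0 (.n 0 (.l 4) (.l 4)) (.n 0 (.l 4) (.l 4)))))
    [(221962567680, 3523215360), (106300440576, 11811160064), (17179869184, 17179869184), (850403524608, 8589934592)] rfl (by decide +kernel)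
theorem c0_m14_t4 : CovD 0 progs [(221962567680, 3523215360), (106300440576, 11811160064), (17179869184, 17179869184), (876173328384, 17179869184)] :=
  Pool.Agent.helper14.QF.covD_F chks_eq (.n 3 (.n 0 (.n 0 (.l 6) (.n 0 (.l 6) (.n 3 (.l 4) (.l 4)))) (.n 0 (.n 3 (.n 0 (.l 4) (.l 4)) (.l 4)) (.n 3 (.n 0 (.l 4) (.l 4)) (.l 4)))) (.n 0 (.l 6) (.n 3 (.l 4) (.l 4))))
    [(221962567680, 3523215360), (106300440576, 11811160064), (17179869184, 17179869184), (876173328384, 17179869184)] rfl (by decide +kernel)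
end
mutual
theorem c0_m14_t7 : CovD 0 progs [(214916136960, 3523215360), (106300440576, 11811160064), (51539607552, 17179869184), (858993459200, 34359738368)] :=
  Pool.Agent.helper14.QF.covD_F chks_eq (.n 0 (.l 6) (.n 0 (.l 6) (.n 1 (.l 6) (.n 3 (.n 3 (.n 3 (.l 4) (.l 6)) (.l 6)) (.l 6)))))
    [(214916136960, 3523215360), (106300440576, 11811160064), (51539607552, 17179869184), (858993459200, 34359738368)] rfl (by decide +kernel)
theorem c0_m14_t8 : CovD 0 progs [(220200960000, 1761607680), (106300440576, 11811160064), (51539607552, 17179869184), (858993459200, 34359738368)] :=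
  Pool.Agent.helper14.QF.covD_F chks_eq (.n 0 (.n 0 (.n 3 (.n 3 (.n 3 (.l 4) (.l 4)) (.l 6)) (.l 6)) (.n 3 (.n 3 (.n 3 (.l 4) (.l 4)) (.n 3 (.n 0 (.l 4) (.l 4)) (.l 4))) (.l 6))) (.n 3 (.n 3 (.n 3 (.n 0 (.l 4) (.l 4)) (.n 3 (.l 4) (.l 4))) (.n 3 (.n 3 (.l 4) (.l 4)) (.l 4))) (.n 3 (.n 0 (.l 6) (.n 3 (.l 4) (.l 4))) (.l 6))))
    [(220200960000, 1761607680), (106300440576, 11811160064), (51539607552, 17179869184), (858993459200, 34359738368)] rfl (by decide +kernel)
end
mutual
theorem c0_m14_t9 : CovD 0 progs [(222843371520, 880803840), (106300440576, 11811160064), (51539607552, 17179869184), (858993459200, 34359738368)] :=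
  Pool.Agent.helper14.QF.covD_F chks_eq (.n 3 (.n 0 (.n 3 (.n 3 (.l 4) (.n 0 (.l 4) (.l 4))) (.n 3 (.l 4) (.l 4))) (.n 3 (.n 3 (.l 4) (.n 0 (.l 4) (.l 4))) (.n 3 (.l 4) (.l 4)))) (.n 3 (.n 3 (.n 0 (.l 4) (.l 4)) (.l 4)) (.n 3 (.l 4) (.l 4))))
    [(222843371520, 880803840), (106300440576, 11811160064), (51539607552, 17179869184), (858993459200, 34359738368)] rfl (by decide +kernel)
theorem c0_m14_t10 : CovD 0 progs [(224604979200, 880803840), (106300440576, 11811160064), (51539607552, 17179869184), (858993459200, 34359738368)] :=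
  Pool.Agent.helper14.QF.covD_F chks_eq (.n 0 (.n 0 (.n 3 (.n 3 (.n 3 (.l 4) (.l 4)) (.n 3 (.l 4) (.l 4))) (.n 3 (.n 3 (.l 4) (.l 4)) (.l 4))) (.n 3 (.n 3 (.n 3 (.l 4) (.l 4)) (.n 3 (.l 4) (.l 4))) (.n 3 (.n 3 (.l 4) (.l 4)) (.l 4)))) (.n 3 (.n 3 (.n 3 (.n 0 (.l 4) (.l 4)) (.l 4)) (.n 3 (.l 4) (.l 4))) (.n 3 (.n 3 (.l 4) (.l 4)) (.l 4))))
    [(224604979200, 880803840), (106300440576, 11811160064), (51539607552, 17179869184), (858993459200, 34359738368)] rfl (by decide +kernel)
end
mutual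
theorem c0_m14_t15 : CovD 0 progs [(218439352320, 7046430720), (106300440576, 11811160064), (34359738368, 34359738368), (927712935936, 34359738368)] :=
  Pool.Agent.helper14.QF.covD_F chks_eq (.n 3 (.n 2 (.n 2 (.n 3 (.l 6) (.l 6)) (.l 6)) (.l 6)) (.l 6))
    [(218439352320, 7046430720), (106300440576, 11811160064), (34359738368, 34359738368), (927712935936, 34359738368)] rfl (by decide +kernel)
theorem c0_m14_t17 : CovD 0 progs [(214916136960, 3523215360), (129922760704, 11811160064), (17179869184, 17179869184), (858993459200, 34359738368)] :=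
  Pool.Agent.helper14.QF.covD_F chks_eq (.n 3 (.n 3 (.n 3 (.n 0 (.l 4) (.n 0 (.l 4) (.l 4))) (.n 0 (.l 6) (.n 0 (.l 4) (.n 0 (.l 4) (.l 4))))) (.n 3 (.n 0 (.l 6) (.n 0 (.l 6) (.n 3 (.l 4) (.l 4)))) (.n 0 (.l 6) (.n 0 (.l 6) (.n 0 (.l 6) (.l 4)))))) (.l 6))
    [(214916136960, 3523215360), (129922760704, 11811160064), (17179869184, 17179869184), (858993459200, 34359738368)] rfl (by decide +kernel)
end
mutual
theorem c0_m14_t18 : CovD 0 progs [(220200960000, 1761607680), (129922760704, 11811160064), (17179869184, 17179869184), (841813590016, 17179869184)] :=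
  Pool.Agent.helper14.QF.covD_F chks_eq (.n 0 (.n 3 (.n 3 (.l 4) (.n 0 (.l 4) (.l 4))) (.n 3 (.n 3 (.l 4) (.l 4)) (.l 4))) (.n 0 (.n 3 (.n 3 (.l 4) (.n 0 (.l 4) (.l 4))) (.n 3 (.n 0 (.l 4) (.l 4)) (.l 4))) (.n 3 (.n 3 (.l 4) (.n 0 (.l 4) (.l 4))) (.n 3 (.l 4) (.l 4)))))
    [(220200960000, 1761607680), (129922760704, 11811160064), (17179869184, 17179869184), (841813590016, 17179869184)] rfl (by decide +kernel)
theorem c0_m14_t19 : CovD 0 progs [(223724175360, 1761607680), (129922760704, 11811160064), (17179869184, 17179869184), (841813590016, 17179869184)] :=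
  Pool.Agent.helper14.QF.covD_F chks_eq (.n 0 (.n 0 (.n 3 (.n 3 (.l 4) (.n 0 (.l 4) (.l 4))) (.n 3 (.l 4) (.l 4))) (.n 3 (.n 3 (.l 4) (.n 0 (.l 4) (.l 4))) (.n 3 (.l 4) (.l 4)))) (.n 0 (.n 3 (.n 3 (.n 0 (.l 4) (.l 4)) (.l 4)) (.n 3 (.l 4) (.l 4))) (.n 3 (.n 3 (.n 0 (.l 4) (.l 4)) (.l 4)) (.n 3 (.l 4) (.l 4)))))
    [(223724175360, 1761607680), (129922760704, 11811160064), (17179869184, 17179869184), (841813590016, 17179869184)] rfl (by decide +kernel)
end
mutual
theorem c0_m14_t21 : CovD 0 progs [(220200960000, 1761607680), (129922760704, 11811160064), (4294967296, 4294967296), (867583393792, 8589934592)] :=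
  Pool.Agent.helper14.QF.covD_F chks_eq (.n 2 (.n 3 (.n 0 (.n 0 (.l 4) (.l 4)) (.n 0 (.l 4) (.l 4))) (.n 0 (.n 0 (.l 4) (.l 4)) (.n 0 (.l 4) (.l 4)))) (.n 3 (.n 0 (.n 0 (.l 4) (.l 4)) (.n 0 (.l 4) (.l 4))) (.n 0 (.n 0 (.l 4) (.l 4)) (.n 0 (.l 4) (.l 4)))))
    [(220200960000, 1761607680), (129922760704, 11811160064), (4294967296, 4294967296), (867583393792, 8589934592)] rfl (by decide +kernel)
theorem c0_m14_t22 : CovD 0 progs [(220200960000, 1761607680), (129922760704, 11811160064), (12884901888, 4294967296), (867583393792, 8589934592)] :=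
  Pool.Agent.helper14.QF.covD_F chks_eq (.n 2 (.n 3 (.n 0 (.n 0 (.l 4) (.l 4)) (.n 0 (.l 4) (.l 4))) (.n 0 (.n 0 (.l 4) (.l 4)) (.n 0 (.l 4) (.l 4)))) (.n 3 (.n 0 (.n 0 (.l 4) (.l 4)) (.n 0 (.l 4) (.l 4))) (.n 0 (.n 0 (.l 4) (.l 4)) (.n 0 (.l 4) (.l 4)))))
    [(220200960000, 1761607680), (129922760704, 11811160064), (12884901888, 4294967296), (867583393792, 8589934592)] rfl (by decide +kernel)
end
mutual
theorem c0_m14_t24 : CovD 0 progs [(220200960000, 1761607680), (129922760704, 11811160064), (21474836480, 4294967296), (867583393792, 8589934592)] :=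
  Pool.Agent.helper14.QF.covD_F chks_eq (.n 2 (.n 3 (.n 0 (.n 0 (.l 4) (.l 4)) (.n 0 (.l 4) (.l 4))) (.n 0 (.n 0 (.l 4) (.l 4)) (.n 0 (.l 4) (.l 4)))) (.n 3 (.n 0 (.n 0 (.l 4) (.l 4)) (.n 0 (.l 4) (.l 4))) (.n 0 (.n 0 (.l 4) (.l 4)) (.n 0 (.l 4) (.l 4)))))
    [(220200960000, 1761607680), (129922760704, 11811160064), (21474836480, 4294967296), (867583393792, 8589934592)] rfl (by decide +kernel)
theorem c0_m14_t25 : CovD 0 progs [(220200960000, 1761607680), (129922760704, 11811160064), (30064771072, 4294967296), (867583393792, 8589934592)] :=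
  Pool.Agent.helper14.QF.covD_F chks_eq (.n 2 (.n 3 (.n 0 (.n 0 (.l 4) (.l 4)) (.n 0 (.l 4) (.l 4))) (.n 0 (.n 0 (.l 4) (.l 4)) (.n 0 (.l 4) (.l 4)))) (.n 3 (.n 0 (.n 0 (.l 4) (.l 4)) (.n 0 (.l 4) (.l 4))) (.n 0 (.l 6) (.n 0 (.l 4) (.l 4)))))
    [(220200960000, 1761607680), (129922760704, 11811160064), (30064771072, 4294967296), (867583393792, 8589934592)] rfl (by decide +kernel)
end
mutual
theorem c0_m14_t28 : CovD 0 progs [(223724175360, 1761607680), (129922760704, 11811160064), (17179869184, 17179869184), (867583393792, 8589934592)] :=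
  Pool.Agent.helper14.QF.covD_F chks_eq (.n 0 (.n 3 (.n 0 (.l 4) (.l 4)) (.l 4)) (.n 3 (.n 0 (.l 4) (.l 4)) (.l 4)))
    [(223724175360, 1761607680), (129922760704, 11811160064), (17179869184, 17179869184), (867583393792, 8589934592)] rfl (by decide +kernel)
theorem c0_m14_t30 : CovD 0 progs [(221962567680, 3523215360), (129922760704, 11811160064), (17179869184, 17179869184), (884763262976, 8589934592)] :=
  Pool.Agent.helper14.QF.covD_F chks_eq (.n 0 (.n 0 (.l 6) (.n 3 (.l 4) (.l 4))) (.n 3 (.l 4) (.l 4)))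
    [(221962567680, 3523215360), (129922760704, 11811160064), (17179869184, 17179869184), (884763262976, 8589934592)] rfl (by decide +kernel)
end
mutual
theorem c0_m14_t34 : CovD 0 progs [(214916136960, 3523215360), (129922760704, 11811160064), (51539607552, 17179869184), (858993459200, 34359738368)] :=
  Pool.Agent.helper14.QF.covD_F chks_eq (.n 0 (.l 6) (.n 0 (.n 3 (.n 3 (.n 3 (.l 4) (.l 4)) (.l 6)) (.l 6)) (.n 0 (.n 3 (.n 3 (.n 3 (.l 4) (.l 4)) (.n 0 (.l 6) (.n 3 (.l 4) (.l 4)))) (.l 6)) (.n 3 (.n 3 (.n 3 (.l 4) (.l 4)) (.n 0 (.n 3 (.l 4) (.l 4)) (.n 3 (.l 4) (.l 4)))) (.l 6)))))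
    [(214916136960, 3523215360), (129922760704, 11811160064), (51539607552, 17179869184), (858993459200, 34359738368)] rfl (by decide +kernel)
theorem c0_m14_t35 : CovD 0 progs [(220200960000, 1761607680), (129922760704, 11811160064), (51539607552, 17179869184), (841813590016, 17179869184)] :=
  Pool.Agent.helper14.QF.covD_F chks_eq (.n 0 (.n 3 (.n 3 (.l 4) (.n 0 (.l 4) (.l 4))) (.n 3 (.n 3 (.l 4) (.l 4)) (.l 4))) (.n 0 (.n 3 (.n 3 (.l 4) (.n 0 (.l 4) (.l 4))) (.n 3 (.n 0 (.l 4) (.l 4)) (.l 4))) (.n 3 (.n 3 (.l 4) (.n 0 (.l 4) (.l 4))) (.n 3 (.l 4) (.l 4)))))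
    [(220200960000, 1761607680), (129922760704, 11811160064), (51539607552, 17179869184), (841813590016, 17179869184)] rfl (by decide +kernel)
end
mutual
theorem c0_m14_t36 : CovD 0 progs [(223724175360, 1761607680), (129922760704, 11811160064), (51539607552, 17179869184), (841813590016, 17179869184)] :=
  Pool.Agent.helper14.QF.covD_F chks_eq (.n 0 (.n 0 (.n 3 (.n 3 (.l 4) (.n 0 (.l 4) (.l 4))) (.n 3 (.l 4) (.l 4))) (.n 3 (.n 3 (.l 4) (.n 0 (.l 4) (.l 4))) (.n 3 (.l 4) (.l 4)))) (.n 0 (.n 3 (.n 3 (.n 0 (.l 4) (.l 4)) (.l 4)) (.n 3 (.l 4) (.l 4))) (.n 3 (.n 3 (.n 0 (.l 4) (.l 4)) (.l 4)) (.n 3 (.l 4) (.l 4)))))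
    [(223724175360, 1761607680), (129922760704, 11811160064), (51539607552, 17179869184), (841813590016, 17179869184)] rfl (by decide +kernel)
theorem c0_m14_t38 : CovD 0 progs [(221962567680, 3523215360), (129922760704, 11811160064), (51539607552, 17179869184), (876173328384, 17179869184)] :=
  Pool.Agent.helper14.QF.covD_F chks_eq (.n 3 (.n 3 (.n 3 (.n 0 (.n 0 (.l 4) (.l 4)) (.n 0 (.l 4) (.l 4))) (.n 0 (.n 0 (.l 4) (.l 4)) (.n 0 (.l 4) (.l 4)))) (.n 3 (.n 0 (.n 0 (.l 4) (.l 4)) (.l 4)) (.n 0 (.n 0 (.l 4) (.l 4)) (.l 4)))) (.n 0 (.n 0 (.l 6) (.n 3 (.l 4) (.l 4))) (.n 3 (.l 4) (.l 4))))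
    [(221962567680, 3523215360), (129922760704, 11811160064), (51539607552, 17179869184), (876173328384, 17179869184)] rfl (by decide +kernel)
theorem c0_m14_t42 : CovD 0 progs [(218439352320, 7046430720), (129922760704, 11811160064), (34359738368, 34359738368), (927712935936, 34359738368)] :=
  Pool.Agent.helper14.QF.covD_F chks_eq (.n 0 (.l 6) (.n 0 (.l 6) (.n 3 (.n 3 (.l 4) (.l 4)) (.l 6))))
    [(218439352320, 7046430720), (129922760704, 11811160064), (34359738368, 34359738368), (927712935936, 34359738368)] rfl (by decide +kernel)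
end
theorem c0_m14_t3 : CovD 0 progs [(221962567680, 3523215360), (106300440576, 11811160064), (17179869184, 17179869184), (841813590016, 17179869184)] :=
  covD_split 3 (by decide +kernel) c0_m14_t1 c0_m14_t2
theorem c0_m14_t5 : CovD 0 progs [(221962567680, 3523215360), (106300440576, 11811160064), (17179869184, 17179869184), (858993459200, 34359738368)] :=
  covD_split 3 (by decide +kernel) c0_m14_t3 c0_m14_t4
theorem c0_m14_t6 : CovD 0 progs [(218439352320, 7046430720), (106300440576, 11811160064), (17179869184, 17179869184), (858993459200, 34359738368)] :=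
  covD_split 0 (by decide +kernel) c0_m14_t0 c0_m14_t5
theorem c0_m14_t11 : CovD 0 progs [(223724175360, 1761607680), (106300440576, 11811160064), (51539607552, 17179869184), (858993459200, 34359738368)] :=
  covD_split 0 (by decide +kernel) c0_m14_t9 c0_m14_t10
theorem c0_m14_t12 : CovD 0 progs [(221962567680, 3523215360), (106300440576, 11811160064), (51539607552, 17179869184), (858993459200, 34359738368)] :=
  covD_split 0 (by decide +kernel) c0_m14_t8 c0_m14_t11
theorem c0_m14_t13 : CovD 0 progs [(218439352320, 7046430720), (106300440576, 11811160064), (51539607552, 17179869184), (858993459200, 34359738368)] :=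
  covD_split 0 (by decide +kernel) c0_m14_t7 c0_m14_t12
theorem c0_m14_t14 : CovD 0 progs [(218439352320, 7046430720), (106300440576, 11811160064), (34359738368, 34359738368), (858993459200, 34359738368)] :=
  covD_split 2 (by decide +kernel) c0_m14_t6 c0_m14_t13
theorem c0_m14_t16 : CovD 0 progs [(218439352320, 7046430720), (106300440576, 11811160064), (34359738368, 34359738368), (893353197568, 68719476736)] :=
  covD_split 3 (by decide +kernel) c0_m14_t14 c0_m14_t15
theorem c0_m14_t20 : CovD 0 progs [(221962567680, 3523215360), (129922760704, 11811160064), (17179869184, 17179869184), (841813590016, 17179869184)] :=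
  covD_split 0 (by decide +kernel) c0_m14_t18 c0_m14_t19
theorem c0_m14_t23 : CovD 0 progs [(220200960000, 1761607680), (129922760704, 11811160064), (8589934592, 8589934592), (867583393792, 8589934592)] :=
  covD_split 2 (by decide +kernel) c0_m14_t21 c0_m14_t22
theorem c0_m14_t26 : CovD 0 progs [(220200960000, 1761607680), (129922760704, 11811160064), (25769803776, 8589934592), (867583393792, 8589934592)] :=
  covD_split 2 (by decide +kernel) c0_m14_t24 c0_m14_t25
theorem c0_m14_t27 : CovD 0 progs [(220200960000, 1761607680), (129922760704, 11811160064), (17179869184, 17179869184), (867583393792, 8589934592)] :=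
  covD_split 2 (by decide +kernel) c0_m14_t23 c0_m14_t26
theorem c0_m14_t29 : CovD 0 progs [(221962567680, 3523215360), (129922760704, 11811160064), (17179869184, 17179869184), (867583393792, 8589934592)] :=
  covD_split 0 (by decide +kernel) c0_m14_t27 c0_m14_t28
theorem c0_m14_t31 : CovD 0 progs [(221962567680, 3523215360), (129922760704, 11811160064), (17179869184, 17179869184), (876173328384, 17179869184)] :=
  covD_split 3 (by decide +kernel) c0_m14_t29 c0_m14_t30
theorem c0_m14_t32 : CovD 0 progs [(221962567680, 3523215360), (129922760704, 11811160064), (17179869184, 17179869184), (858993459200, 34359738368)] :=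
  covD_split 3 (by decide +kernel) c0_m14_t20 c0_m14_t31
theorem c0_m14_t33 : CovD 0 progs [(218439352320, 7046430720), (129922760704, 11811160064), (17179869184, 17179869184), (858993459200, 34359738368)] :=
  covD_split 0 (by decide +kernel) c0_m14_t17 c0_m14_t32
theorem c0_m14_t37 : CovD 0 progs [(221962567680, 3523215360), (129922760704, 11811160064), (51539607552, 17179869184), (841813590016, 17179869184)] :=
  covD_split 0 (by decide +kernel) c0_m14_t35 c0_m14_t36
theorem c0_m14_t39 : CovD 0 progs [(221962567680, 3523215360), (129922760704, 11811160064), (51539607552, 17179869184), (858993459200, 34359738368)] :=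
  covD_split 3 (by decide +kernel) c0_m14_t37 c0_m14_t38
theorem c0_m14_t40 : CovD 0 progs [(218439352320, 7046430720), (129922760704, 11811160064), (51539607552, 17179869184), (858993459200, 34359738368)] :=
  covD_split 0 (by decide +kernel) c0_m14_t34 c0_m14_t39
theorem c0_m14_t41 : CovD 0 progs [(218439352320, 7046430720), (129922760704, 11811160064), (34359738368, 34359738368), (858993459200, 34359738368)] :=
  covD_split 2 (by decide +kernel) c0_m14_t33 c0_m14_t40
theorem c0_m14_t43 : CovD 0 progs [(218439352320, 7046430720), (129922760704, 11811160064), (34359738368, 34359738368), (893353197568, 68719476736)] :=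
  covD_split 3 (by decide +kernel) c0_m14_t41 c0_m14_t42
theorem c0_m14 : CovD 0 progs [(218439352320, 7046430720), (118111600640, 23622320128), (34359738368, 34359738368), (893353197568, 68719476736)] :=
  covD_split 1 (by decide +kernel) c0_m14_t16 c0_m14_t43

end Pool.Agent.helper71.FJ.Crt.QMa
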