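import Pool.Agent.helper71.FJ.Crt.QMaP

/-!
Generated certificates.
-/

namespace Pool.Agent.helper71.FJ.Crt.QMa

open Pool.Agent.helper31.IA (Z Op)
open Pool.Agent.helper31.IC

mutual
theorem c0_m15_t0 : CovD 0 progs [(214916136960, 3523215360), (106300440576, 11811160064), (85899345920, 17179869184), (858993459200, 34359738368)] :=
  Pool.Agent.helper14.QF.covD_F chks_eq (.n 2 (.n 3 (.l 6) (.l 6)) (.l 6))
    [(214916136960, 3523215360), (106300440576, 11811160064), (85899345920, 17179869184), (858993459200, 34359738368)] rfl (by decide +kernel)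
theorem c0_m15_t1 : CovD 0 progs [(219320156160, 880803840), (106300440576, 11811160064), (85899345920, 17179869184), (858993459200, 34359738368)] :=
  Pool.Agent.helper14.QF.covD_F chks_eq (.n 3 (.n 3 (.n 3 (.l 4) (.n 0 (.l 4) (.l 4))) (.l 6)) (.l 6))
    [(219320156160, 880803840), (106300440576, 11811160064), (85899345920, 17179869184), (858993459200, 34359738368)] rfl (by decide +kernel)
end
mutual
theorem c0_m15_t2 : CovD 0 progs [(221081763840, 880803840), (106300440576, 11811160064), (85899345920, 17179869184), (858993459200, 34359738368)] :=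
  Pool.Agent.helper14.QF.covD_F chks_eq (.n 0 (.n 0 (.n 3 (.n 3 (.n 3 (.l 4) (.l 4)) (.n 3 (.l 4) (.l 4))) (.l 6)) (.n 3 (.n 3 (.n 3 (.l 4) (.l 4)) (.n 3 (.l 4) (.l 4))) (.l 6))) (.n 0 (.n 3 (.n 3 (.n 3 (.l 4) (.l 4)) (.n 3 (.l 4) (.l 4))) (.l 6)) (.n 3 (.n 3 (.n 3 (.l 4) (.l 4)) (.n 3 (.l 4) (.l 4))) (.l 6))))
    [(221081763840, 880803840), (106300440576, 11811160064), (85899345920, 17179869184), (858993459200, 34359738368)] rfl (by decide +kernel)
theorem c0_m15_t4 : CovD 0 progs [(222843371520, 880803840), (106300440576, 11811160064), (85899345920, 17179869184), (858993459200, 34359738368)] :=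
  Pool.Agent.helper14.QF.covD_F chks_eq (.n 3 (.n 0 (.n 3 (.n 3 (.l 4) (.n 0 (.l 4) (.l 4))) (.n 3 (.l 4) (.l 4))) (.n 3 (.n 3 (.l 4) (.n 0 (.l 4) (.l 4))) (.n 3 (.l 4) (.l 4)))) (.n 3 (.n 3 (.n 0 (.l 4) (.l 4)) (.l 4)) (.l 6)))
    [(222843371520, 880803840), (106300440576, 11811160064), (85899345920, 17179869184), (858993459200, 34359738368)] rfl (by decide +kernel)
end
mutual
theorem c0_m15_t5 : CovD 0 progs [(224604979200, 880803840), (106300440576, 11811160064), (85899345920, 17179869184), (858993459200, 34359738368)] :=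
  Pool.Agent.helper14.QF.covD_F chks_eq (.n 0 (.n 0 (.n 3 (.n 3 (.n 3 (.l 4) (.l 4)) (.n 3 (.l 4) (.l 4))) (.n 3 (.n 3 (.l 4) (.l 4)) (.l 4))) (.n 3 (.n 3 (.n 3 (.l 4) (.l 4)) (.n 3 (.l 4) (.l 4))) (.n 3 (.n 3 (.l 4) (.l 4)) (.l 4)))) (.n 3 (.n 3 (.n 3 (.n 0 (.l 4) (.l 4)) (.l 4)) (.n 3 (.l 4) (.l 4))) (.n 3 (.n 3 (.l 4) (.l 4)) (.l 4))))
    [(224604979200, 880803840), (106300440576, 11811160064), (85899345920, 17179869184), (858993459200, 34359738368)] rfl (by decide +kernel)
theorem c0_m15_t9 : CovD 0 progs [(218439352320, 7046430720), (106300440576, 11811160064), (120259084288, 17179869184), (828928688128, 4294967296)] :=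
  Pool.Agent.helper14.QF.covD_F chks_eq (.n 0 (.l 6) (.n 0 (.n 0 (.l 4) (.n 0 (.l 4) (.l 4))) (.n 0 (.n 0 (.l 4) (.l 4)) (.n 3 (.l 4) (.l 4)))))
    [(218439352320, 7046430720), (106300440576, 11811160064), (120259084288, 17179869184), (828928688128, 4294967296)] rfl (by decide +kernel)
end
mutual
theorem c0_m15_t10 : CovD 0 progs [(218439352320, 7046430720), (106300440576, 11811160064), (120259084288, 17179869184), (837518622720, 4294967296)] :=
  Pool.Agent.helper14.QF.covD_F chks_eq (.n 3 (.n 1 (.n 0 (.l 6) (.n 0 (.n 0 (.l 4) (.l 4)) (.n 0 (.l 4) (.l 4)))) (.n 0 (.l 6) (.n 0 (.n 0 (.l 4) (.l 4)) (.n 0 (.l 4) (.l 4))))) (.n 2 (.n 1 (.n 0 (.l 6) (.n 0 (.l 6) (.n 0 (.l 4) (.l 4)))) (.n 0 (.l 6) (.n 0 (.n 0 (.l 4) (.l 4)) (.n 0 (.l 4) (.l 4))))) (.n 0 (.l 6) (.n 0 (.l 6) (.n 0 (.l 4) (.l 4))))))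
    [(218439352320, 7046430720), (106300440576, 11811160064), (120259084288, 17179869184), (837518622720, 4294967296)] rfl (by decide +kernel)
theorem c0_m15_t12 : CovD 0 progs [(218439352320, 7046430720), (106300440576, 11811160064), (120259084288, 17179869184), (850403524608, 8589934592)] :=
  Pool.Agent.helper14.QF.covD_F chks_eq (.n 3 (.n 0 (.l 6) (.n 3 (.n 0 (.n 0 (.l 4) (.l 4)) (.l 4)) (.n 0 (.l 6) (.l 4)))) (.n 0 (.l 6) (.n 0 (.l 6) (.n 0 (.n 0 (.l 4) (.l 4)) (.n 0 (.l 4) (.l 4))))))
    [(218439352320, 7046430720), (106300440576, 11811160064), (120259084288, 17179869184), (850403524608, 8589934592)] rfl (by decide +kernel)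
end
mutual
theorem c0_m15_t14 : CovD 0 progs [(218439352320, 7046430720), (106300440576, 11811160064), (120259084288, 17179869184), (876173328384, 17179869184)] :=
  Pool.Agent.helper14.QF.covD_F chks_eq (.n 0 (.l 6) (.n 0 (.l 6) (.n 0 (.n 0 (.l 6) (.n 3 (.n 3 (.l 4) (.l 4)) (.l 6))) (.n 3 (.n 3 (.n 0 (.l 4) (.l 4)) (.l 4)) (.l 6)))))
    [(218439352320, 7046430720), (106300440576, 11811160064), (120259084288, 17179869184), (876173328384, 17179869184)] rfl (by decide +kernel)
theorem c0_m15_t17 : CovD 0 progs [(218439352320, 7046430720), (106300440576, 11811160064), (103079215104, 34359738368), (927712935936, 34359738368)] :=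
  Pool.Agent.helper14.QF.covD_F chks_eq (.l 6)
    [(218439352320, 7046430720), (106300440576, 11811160064), (103079215104, 34359738368), (927712935936, 34359738368)] rfl (by decide +kernel)
end
mutual
theorem c0_m15_t19 : CovD 0 progs [(214916136960, 3523215360), (129922760704, 11811160064), (85899345920, 17179869184), (858993459200, 34359738368)] :=
  Pool.Agent.helper14.QF.covD_F chks_eq (.n 0 (.l 6) (.n 0 (.n 1 (.l 6) (.n 3 (.n 3 (.n 3 (.l 4) (.l 4)) (.l 6)) (.l 6))) (.n 0 (.n 3 (.n 3 (.n 3 (.l 4) (.l 4)) (.l 6)) (.l 6)) (.n 3 (.n 3 (.n 3 (.l 4) (.l 4)) (.n 3 (.n 0 (.l 4) (.l 4)) (.l 6))) (.l 6)))))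
    [(214916136960, 3523215360), (129922760704, 11811160064), (85899345920, 17179869184), (858993459200, 34359738368)] rfl (by decide +kernel)
theorem c0_m15_t20 : CovD 0 progs [(220200960000, 1761607680), (129922760704, 11811160064), (85899345920, 17179869184), (841813590016, 17179869184)] :=
  Pool.Agent.helper14.QF.covD_F chks_eq (.n 0 (.n 3 (.n 3 (.l 4) (.n 0 (.l 4) (.l 4))) (.n 3 (.n 3 (.l 4) (.l 4)) (.l 4))) (.n 0 (.n 3 (.n 3 (.l 4) (.n 0 (.l 4) (.l 4))) (.n 3 (.n 0 (.l 4) (.l 4)) (.l 4))) (.n 3 (.n 3 (.l 4) (.n 0 (.l 4) (.l 4))) (.n 3 (.l 4) (.l 4)))))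
    [(220200960000, 1761607680), (129922760704, 11811160064), (85899345920, 17179869184), (841813590016, 17179869184)] rfl (by decide +kernel)
end
mutual
theorem c0_m15_t21 : CovD 0 progs [(223724175360, 1761607680), (129922760704, 11811160064), (85899345920, 17179869184), (841813590016, 17179869184)] :=
  Pool.Agent.helper14.QF.covD_F chks_eq (.n 0 (.n 0 (.n 3 (.n 3 (.l 4) (.n 0 (.l 4) (.l 4))) (.n 3 (.l 4) (.l 4))) (.n 3 (.n 3 (.l 4) (.n 0 (.l 4) (.l 4))) (.n 3 (.l 4) (.l 4)))) (.n 0 (.n 3 (.n 3 (.n 0 (.l 4) (.l 4)) (.l 4)) (.n 3 (.l 4) (.l 4))) (.n 3 (.n 3 (.n 0 (.l 4) (.l 4)) (.l 4)) (.n 3 (.l 4) (.l 4)))))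
    [(223724175360, 1761607680), (129922760704, 11811160064), (85899345920, 17179869184), (841813590016, 17179869184)] rfl (by decide +kernel)
theorem c0_m15_t23 : CovD 0 progs [(220200960000, 1761607680), (129922760704, 11811160064), (85899345920, 17179869184), (876173328384, 17179869184)] :=
  Pool.Agent.helper14.QF.covD_F chks_eq (.n 2 (.n 0 (.n 0 (.l 6) (.n 3 (.n 3 (.l 4) (.l 4)) (.l 6))) (.n 0 (.n 3 (.n 3 (.l 4) (.l 4)) (.l 6)) (.n 3 (.n 3 (.l 4) (.l 4)) (.l 6)))) (.n 2 (.n 0 (.l 6) (.n 0 (.n 3 (.n 3 (.l 4) (.l 4)) (.l 6)) (.n 3 (.n 3 (.l 4) (.l 4)) (.l 6)))) (.n 0 (.l 6) (.n 0 (.n 3 (.n 3 (.l 4) (.l 4)) (.l 6)) (.n 3 (.n 3 (.l 4) (.l 4)) (.l 6))))))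
    [(220200960000, 1761607680), (129922760704, 11811160064), (85899345920, 17179869184), (876173328384, 17179869184)] rfl (by decide +kernel)
end
mutual
theorem c0_m15_t24 : CovD 0 progs [(223724175360, 1761607680), (129922760704, 11811160064), (85899345920, 17179869184), (876173328384, 17179869184)] :=
  Pool.Agent.helper14.QF.covD_F chks_eq (.n 3 (.n 0 (.n 3 (.n 0 (.l 4) (.l 4)) (.l 4)) (.n 3 (.n 0 (.l 4) (.l 4)) (.l 4))) (.n 3 (.l 4) (.l 4)))
    [(223724175360, 1761607680), (129922760704, 11811160064), (85899345920, 17179869184), (876173328384, 17179869184)] rfl (by decide +kernel)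
theorem c0_m15_t28 : CovD 0 progs [(214916136960, 3523215360), (129922760704, 11811160064), (120259084288, 17179869184), (858993459200, 34359738368)] :=
  Pool.Agent.helper14.QF.covD_F chks_eq (.n 0 (.l 6) (.n 0 (.l 6) (.n 3 (.n 3 (.n 3 (.l 4) (.n 0 (.l 4) (.l 4))) (.l 6)) (.l 6))))
    [(214916136960, 3523215360), (129922760704, 11811160064), (120259084288, 17179869184), (858993459200, 34359738368)] rfl (by decide +kernel)
end
mutual
theorem c0_m15_t29 : CovD 0 progs [(220200960000, 1761607680), (129922760704, 11811160064), (120259084288, 17179869184), (858993459200, 34359738368)] :=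
  Pool.Agent.helper14.QF.covD_F chks_eq (.n 0 (.n 3 (.n 3 (.n 3 (.l 4) (.n 0 (.l 4) (.l 4))) (.n 3 (.n 3 (.l 4) (.l 4)) (.l 4))) (.l 6)) (.n 3 (.n 3 (.n 3 (.n 0 (.l 4) (.l 4)) (.n 3 (.l 4) (.l 4))) (.n 3 (.n 3 (.l 4) (.l 4)) (.l 4))) (.n 3 (.n 0 (.l 6) (.n 3 (.l 4) (.l 4))) (.l 6))))
    [(220200960000, 1761607680), (129922760704, 11811160064), (120259084288, 17179869184), (858993459200, 34359738368)] rfl (by decide +kernel)
theorem c0_m15_t30 : CovD 0 progs [(222843371520, 880803840), (129922760704, 11811160064), (120259084288, 17179869184), (858993459200, 34359738368)] :=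
  Pool.Agent.helper14.QF.covD_F chks_eq (.n 0 (.n 3 (.n 3 (.n 3 (.l 4) (.n 0 (.l 4) (.l 4))) (.n 3 (.l 4) (.l 4))) (.n 3 (.n 3 (.l 4) (.l 4)) (.l 6))) (.n 0 (.n 3 (.n 3 (.n 3 (.l 4) (.l 4)) (.n 3 (.l 4) (.l 4))) (.n 3 (.n 3 (.l 4) (.l 4)) (.n 0 (.l 4) (.l 4)))) (.n 3 (.n 3 (.n 3 (.l 4) (.l 4)) (.n 3 (.l 4) (.l 4))) (.n 3 (.n 3 (.l 4) (.l 4)) (.l 4)))))
    [(222843371520, 880803840), (129922760704, 11811160064), (120259084288, 17179869184), (858993459200, 34359738368)] rfl (by decide +kernel)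
end
mutual
theorem c0_m15_t31 : CovD 0 progs [(224604979200, 880803840), (129922760704, 11811160064), (120259084288, 17179869184), (858993459200, 34359738368)] :=
  Pool.Agent.helper14.QF.covD_F chks_eq (.n 0 (.n 0 (.n 3 (.n 3 (.n 3 (.l 4) (.l 4)) (.n 3 (.l 4) (.l 4))) (.n 3 (.n 3 (.l 4) (.l 4)) (.l 4))) (.n 3 (.n 3 (.n 3 (.l 4) (.l 4)) (.n 3 (.l 4) (.l 4))) (.n 3 (.n 3 (.l 4) (.l 4)) (.l 4)))) (.n 3 (.n 3 (.n 3 (.n 0 (.l 4) (.l 4)) (.l 4)) (.n 3 (.l 4) (.l 4))) (.n 3 (.n 3 (.l 4) (.l 4)) (.l 4))))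
    [(224604979200, 880803840), (129922760704, 11811160064), (120259084288, 17179869184), (858993459200, 34359738368)] rfl (by decide +kernel)
theorem c0_m15_t36 : CovD 0 progs [(218439352320, 7046430720), (129922760704, 11811160064), (103079215104, 34359738368), (927712935936, 34359738368)] :=
  Pool.Agent.helper14.QF.covD_F chks_eq (.n 0 (.l 6) (.n 0 (.l 6) (.n 3 (.n 3 (.l 4) (.l 4)) (.l 6))))
    [(218439352320, 7046430720), (129922760704, 11811160064), (103079215104, 34359738368), (927712935936, 34359738368)] rfl (by decide +kernel)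
end
theorem c0_m15_t3 : CovD 0 progs [(220200960000, 1761607680), (106300440576, 11811160064), (85899345920, 17179869184), (858993459200, 34359738368)] :=
  covD_split 0 (by decide +kernel) c0_m15_t1 c0_m15_t2
theorem c0_m15_t6 : CovD 0 progs [(223724175360, 1761607680), (106300440576, 11811160064), (85899345920, 17179869184), (858993459200, 34359738368)] :=
  covD_split 0 (by decide +kernel) c0_m15_t4 c0_m15_t5
theorem c0_m15_t7 : CovD 0 progs [(221962567680, 3523215360), (106300440576, 11811160064), (85899345920, 17179869184), (858993459200, 34359738368)] :=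
  covD_split 0 (by decide +kernel) c0_m15_t3 c0_m15_t6
theorem c0_m15_t8 : CovD 0 progs [(218439352320, 7046430720), (106300440576, 11811160064), (85899345920, 17179869184), (858993459200, 34359738368)] :=
  covD_split 0 (by decide +kernel) c0_m15_t0 c0_m15_t7
theorem c0_m15_t11 : CovD 0 progs [(218439352320, 7046430720), (106300440576, 11811160064), (120259084288, 17179869184), (833223655424, 8589934592)] :=
  covD_split 3 (by decide +kernel) c0_m15_t9 c0_m15_t10
theorem c0_m15_t13 : CovD 0 progs [(218439352320, 7046430720), (106300440576, 11811160064), (120259084288, 17179869184), (841813590016, 17179869184)] :=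
  covD_split 3 (by decide +kernel) c0_m15_t11 c0_m15_t12
theorem c0_m15_t15 : CovD 0 progs [(218439352320, 7046430720), (106300440576, 11811160064), (120259084288, 17179869184), (858993459200, 34359738368)] :=
  covD_split 3 (by decide +kernel) c0_m15_t13 c0_m15_t14
theorem c0_m15_t16 : CovD 0 progs [(218439352320, 7046430720), (106300440576, 11811160064), (103079215104, 34359738368), (858993459200, 34359738368)] :=
  covD_split 2 (by decide +kernel) c0_m15_t8 c0_m15_t15
theorem c0_m15_t18 : CovD 0 progs [(218439352320, 7046430720), (106300440576, 11811160064), (103079215104, 34359738368), (893353197568, 68719476736)] :=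
  covD_split 3 (by decide +kernel) c0_m15_t16 c0_m15_t17
theorem c0_m15_t22 : CovD 0 progs [(221962567680, 3523215360), (129922760704, 11811160064), (85899345920, 17179869184), (841813590016, 17179869184)] :=
  covD_split 0 (by decide +kernel) c0_m15_t20 c0_m15_t21
theorem c0_m15_t25 : CovD 0 progs [(221962567680, 3523215360), (129922760704, 11811160064), (85899345920, 17179869184), (876173328384, 17179869184)] :=
  covD_split 0 (by decide +kernel) c0_m15_t23 c0_m15_t24
theorem c0_m15_t26 : CovD 0 progs [(221962567680, 3523215360), (129922760704, 11811160064), (85899345920, 17179869184), (858993459200, 34359738368)] :=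
  covD_split 3 (by decide +kernel) c0_m15_t22 c0_m15_t25
theorem c0_m15_t27 : CovD 0 progs [(218439352320, 7046430720), (129922760704, 11811160064), (85899345920, 17179869184), (858993459200, 34359738368)] :=
  covD_split 0 (by decide +kernel) c0_m15_t19 c0_m15_t26
theorem c0_m15_t32 : CovD 0 progs [(223724175360, 1761607680), (129922760704, 11811160064), (120259084288, 17179869184), (858993459200, 34359738368)] :=
  covD_split 0 (by decide +kernel) c0_m15_t30 c0_m15_t31
theorem c0_m15_t33 : CovD 0 progs [(221962567680, 3523215360), (129922760704, 11811160064), (120259084288, 17179869184), (858993459200, 34359738368)] :=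
  covD_split 0 (by decide +kernel) c0_m15_t29 c0_m15_t32
theorem c0_m15_t34 : CovD 0 progs [(218439352320, 7046430720), (129922760704, 11811160064), (120259084288, 17179869184), (858993459200, 34359738368)] :=
  covD_split 0 (by decide +kernel) c0_m15_t28 c0_m15_t33
theorem c0_m15_t35 : CovD 0 progs [(218439352320, 7046430720), (129922760704, 11811160064), (103079215104, 34359738368), (858993459200, 34359738368)] :=
  covD_split 2 (by decide +kernel) c0_m15_t27 c0_m15_t34
theorem c0_m15_t37 : CovD 0 progs [(218439352320, 7046430720), (129922760704, 11811160064), (103079215104, 34359738368), (893353197568, 68719476736)] :=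
  covD_split 3 (by decide +kernel) c0_m15_t35 c0_m15_t36
theorem c0_m15 : CovD 0 progs [(218439352320, 7046430720), (118111600640, 23622320128), (103079215104, 34359738368), (893353197568, 68719476736)] :=
  covD_split 1 (by decide +kernel) c0_m15_t18 c0_m15_t37

end Pool.Agent.helper71.FJ.Crt.QMa
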