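import Pool.Agent.helper71.FJ.Crt.QMaP

/-!
Generated certificates.
-/

namespace Pool.Agent.helper71.FJ.Crt.QMa

open Pool.Agent.helper31.IA (Z Op)
open Pool.Agent.helper31.IC

mutual
theorem c0_m17_t0 : CovD 0 progs [(204346490880, 7046430720), (153545080832, 11811160064), (34359738368, 34359738368), (858993459200, 34359738368)] :=
  Pool.Agent.helper14.QF.covD_F chks_eq (.l 6)
    [(204346490880, 7046430720), (153545080832, 11811160064), (34359738368, 34359738368), (858993459200, 34359738368)] rfl (by decide +kernel)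
theorem c0_m17_t1 : CovD 0 progs [(218439352320, 7046430720), (153545080832, 11811160064), (34359738368, 34359738368), (833223655424, 8589934592)] :=
  Pool.Agent.helper14.QF.covD_F chks_eq (.n 0 (.n 0 (.n 3 (.l 4) (.n 0 (.l 4) (.l 4))) (.n 0 (.n 3 (.l 4) (.l 4)) (.n 3 (.l 4) (.n 0 (.l 4) (.l 4))))) (.n 3 (.n 0 (.n 0 (.l 4) (.n 0 (.l 4) (.l 4))) (.n 0 (.n 0 (.l 4) (.l 4)) (.n 3 (.l 4) (.l 4)))) (.n 0 (.n 0 (.n 0 (.l 4) (.l 4)) (.n 3 (.l 4) (.l 4))) (.n 0 (.n 3 (.l 4) (.l 4)) (.n 0 (.l 4) (.l 4))))))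
    [(218439352320, 7046430720), (153545080832, 11811160064), (34359738368, 34359738368), (833223655424, 8589934592)] rfl (by decide +kernel)
end
mutual
theorem c0_m17_t2 : CovD 0 progs [(218439352320, 7046430720), (153545080832, 11811160064), (34359738368, 34359738368), (846108557312, 4294967296)] :=
  Pool.Agent.helper14.QF.covD_F chks_eq (.n 3 (.n 3 (.n 0 (.n 0 (.l 4) (.n 0 (.l 4) (.l 4))) (.n 0 (.n 0 (.l 4) (.l 4)) (.l 4))) (.n 0 (.n 0 (.l 4) (.n 0 (.l 4) (.l 4))) (.n 0 (.n 0 (.l 4) (.l 4)) (.l 4)))) (.n 0 (.n 0 (.n 0 (.l 4) (.l 4)) (.n 0 (.l 4) (.l 4))) (.n 0 (.n 0 (.l 4) (.l 4)) (.l 4))))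
    [(218439352320, 7046430720), (153545080832, 11811160064), (34359738368, 34359738368), (846108557312, 4294967296)] rfl (by decide +kernel)
theorem c0_m17_t3 : CovD 0 progs [(218439352320, 7046430720), (153545080832, 11811160064), (34359738368, 34359738368), (854698491904, 4294967296)] :=
  Pool.Agent.helper14.QF.covD_F chks_eq (.n 3 (.n 0 (.n 0 (.l 6) (.n 0 (.l 4) (.l 4))) (.n 0 (.l 4) (.n 0 (.l 4) (.l 4)))) (.n 0 (.n 0 (.l 6) (.n 0 (.l 4) (.l 4))) (.n 0 (.l 4) (.n 0 (.l 4) (.l 4)))))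
    [(218439352320, 7046430720), (153545080832, 11811160064), (34359738368, 34359738368), (854698491904, 4294967296)] rfl (by decide +kernel)
end
mutual
theorem c0_m17_t6 : CovD 0 progs [(218439352320, 7046430720), (153545080832, 11811160064), (34359738368, 34359738368), (867583393792, 8589934592)] :=
  Pool.Agent.helper14.QF.covD_F chks_eq (.n 3 (.n 3 (.n 0 (.n 0 (.l 6) (.n 0 (.l 4) (.l 4))) (.n 0 (.n 0 (.l 4) (.l 4)) (.n 0 (.l 4) (.l 4)))) (.n 0 (.n 0 (.l 6) (.l 4)) (.n 0 (.n 0 (.l 4) (.l 4)) (.n 0 (.l 4) (.l 4))))) (.n 0 (.n 0 (.l 6) (.n 0 (.l 6) (.n 3 (.l 4) (.l 4)))) (.n 0 (.n 0 (.n 0 (.l 4) (.l 4)) (.n 0 (.l 4) (.l 4))) (.n 0 (.l 4) (.l 4)))))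
    [(218439352320, 7046430720), (153545080832, 11811160064), (34359738368, 34359738368), (867583393792, 8589934592)] rfl (by decide +kernel)
theorem c0_m17_t7 : CovD 0 progs [(218439352320, 7046430720), (153545080832, 11811160064), (34359738368, 34359738368), (884763262976, 8589934592)] :=
  Pool.Agent.helper14.QF.covD_F chks_eq (.n 0 (.n 2 (.l 6) (.l 6)) (.n 0 (.n 3 (.n 0 (.l 4) (.l 4)) (.l 4)) (.n 3 (.l 4) (.l 4))))
    [(218439352320, 7046430720), (153545080832, 11811160064), (34359738368, 34359738368), (884763262976, 8589934592)] rfl (by decide +kernel)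
theorem c0_m17_t11 : CovD 0 progs [(211392921600, 14092861440), (153545080832, 11811160064), (34359738368, 34359738368), (927712935936, 34359738368)] :=
  Pool.Agent.helper14.QF.covD_F chks_eq (.n 3 (.n 3 (.n 0 (.l 6) (.n 0 (.l 6) (.n 0 (.n 0 (.l 6) (.l 4)) (.l 4)))) (.n 0 (.l 6) (.n 0 (.l 6) (.n 0 (.l 4) (.l 4))))) (.n 0 (.l 6) (.n 0 (.l 6) (.n 3 (.l 4) (.l 3)))))
    [(211392921600, 14092861440), (153545080832, 11811160064), (34359738368, 34359738368), (927712935936, 34359738368)] rfl (by decide +kernel)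
end
theorem c0_m17_t4 : CovD 0 progs [(218439352320, 7046430720), (153545080832, 11811160064), (34359738368, 34359738368), (850403524608, 8589934592)] :=
  covD_split 3 (by decide +kernel) c0_m17_t2 c0_m17_t3
theorem c0_m17_t5 : CovD 0 progs [(218439352320, 7046430720), (153545080832, 11811160064), (34359738368, 34359738368), (841813590016, 17179869184)] :=
  covD_split 3 (by decide +kernel) c0_m17_t1 c0_m17_t4
theorem c0_m17_t8 : CovD 0 progs [(218439352320, 7046430720), (153545080832, 11811160064), (34359738368, 34359738368), (876173328384, 17179869184)] :=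
  covD_split 3 (by decide +kernel) c0_m17_t6 c0_m17_t7
theorem c0_m17_t9 : CovD 0 progs [(218439352320, 7046430720), (153545080832, 11811160064), (34359738368, 34359738368), (858993459200, 34359738368)] :=
  covD_split 3 (by decide +kernel) c0_m17_t5 c0_m17_t8
theorem c0_m17_t10 : CovD 0 progs [(211392921600, 14092861440), (153545080832, 11811160064), (34359738368, 34359738368), (858993459200, 34359738368)] :=
  covD_split 0 (by decide +kernel) c0_m17_t0 c0_m17_t9
theorem c0_m17 : CovD 0 progs [(211392921600, 14092861440), (153545080832, 11811160064), (34359738368, 34359738368), (893353197568, 68719476736)] :=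
  covD_split 3 (by decide +kernel) c0_m17_t10 c0_m17_t11

end Pool.Agent.helper71.FJ.Crt.QMa
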