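import Pool.Agent.helper71.FJ.Crt.QMaP

/-!
Generated certificates.
-/

namespace Pool.Agent.helper71.FJ.Crt.QMa

open Pool.Agent.helper31.IA (Z Op)
open Pool.Agent.helper31.IC

mutual
theorem c0_m2_t0 : CovD 0 progs [(197300060160, 28185722880), (94489280512, 94489280512), (137438953472, 137438953472), (68719476736, 68719476736)] :=
  Pool.Agent.helper14.QF.covD_F chks_eq (.n 0 (.l 12) (.n 0 (.l 12) (.n 0 (.n 0 (.l 12) (.n 0 (.l 12) (.l 10))) (.n 0 (.n 0 (.l 10) (.l 10)) (.l 10)))))
    [(197300060160, 28185722880), (94489280512, 94489280512), (137438953472, 137438953472), (68719476736, 68719476736)] rfl (by decide +kernel)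
theorem c0_m2_t1 : CovD 0 progs [(197300060160, 28185722880), (94489280512, 94489280512), (137438953472, 137438953472), (171798691840, 34359738368)] :=
  Pool.Agent.helper14.QF.covD_F chks_eq (.n 1 (.n 1 (.n 0 (.l 12) (.n 0 (.l 12) (.n 0 (.n 0 (.n 0 (.l 12) (.l 10)) (.n 0 (.l 10) (.l 10))) (.n 0 (.l 10) (.l 10))))) (.n 0 (.l 12) (.n 0 (.l 12) (.n 0 (.l 12) (.n 0 (.l 10) (.l 10)))))) (.n 3 (.l 12) (.n 0 (.l 12) (.n 0 (.l 12) (.n 0 (.l 12) (.n 0 (.l 10) (.l 10)))))))
    [(197300060160, 28185722880), (94489280512, 94489280512), (137438953472, 137438953472), (171798691840, 34359738368)] rfl (by decide +kernel)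
end
mutual
theorem c0_m2_t2 : CovD 0 progs [(197300060160, 28185722880), (94489280512, 94489280512), (137438953472, 137438953472), (223338299392, 17179869184)] :=
  Pool.Agent.helper14.QF.covD_F chks_eq (.n 3 (.n 0 (.l 12) (.n 0 (.l 12) (.n 0 (.n 0 (.l 10) (.l 10)) (.l 10)))) (.n 0 (.l 12) (.n 0 (.l 12) (.n 0 (.n 0 (.l 10) (.l 10)) (.l 10)))))
    [(197300060160, 28185722880), (94489280512, 94489280512), (137438953472, 137438953472), (223338299392, 17179869184)] rfl (by decide +kernel)
theorem c0_m2_t3 : CovD 0 progs [(197300060160, 28185722880), (94489280512, 94489280512), (137438953472, 137438953472), (257698037760, 17179869184)] :=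
  Pool.Agent.helper14.QF.covD_F chks_eq (.n 1 (.n 1 (.n 0 (.l 12) (.n 0 (.n 0 (.l 12) (.n 0 (.l 12) (.n 0 (.l 10) (.l 10)))) (.n 0 (.n 0 (.l 10) (.l 10)) (.l 10)))) (.n 0 (.l 12) (.n 0 (.l 12) (.n 0 (.n 0 (.l 10) (.l 10)) (.l 10))))) (.n 0 (.l 12) (.n 0 (.l 12) (.n 0 (.l 12) (.n 0 (.l 10) (.l 10))))))
    [(197300060160, 28185722880), (94489280512, 94489280512), (137438953472, 137438953472), (257698037760, 17179869184)] rfl (by decide +kernel)
end
mutual
theorem c0_m2_t7 : CovD 0 progs [(197300060160, 28185722880), (47244640256, 47244640256), (68719476736, 68719476736), (292057776128, 17179869184)] :=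
  Pool.Agent.helper14.QF.covD_F chks_eq (.n 1 (.n 0 (.l 12) (.n 0 (.n 0 (.l 12) (.n 0 (.l 12) (.n 0 (.l 10) (.l 10)))) (.n 0 (.n 0 (.l 10) (.l 10)) (.l 10)))) (.n 0 (.l 12) (.n 0 (.l 12) (.n 0 (.n 0 (.l 10) (.l 10)) (.l 10)))))
    [(197300060160, 28185722880), (47244640256, 47244640256), (68719476736, 68719476736), (292057776128, 17179869184)] rfl (by decide +kernel)
theorem c0_m2_t8 : CovD 0 progs [(197300060160, 28185722880), (47244640256, 47244640256), (68719476736, 68719476736), (326417514496, 17179869184)] :=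
  Pool.Agent.helper14.QF.covD_F chks_eq (.n 1 (.n 0 (.l 12) (.n 0 (.n 3 (.n 0 (.l 12) (.n 0 (.n 0 (.l 10) (.l 10)) (.l 10))) (.n 0 (.l 12) (.n 0 (.n 0 (.l 10) (.l 10)) (.l 10)))) (.n 0 (.n 0 (.l 10) (.l 10)) (.l 10)))) (.n 0 (.l 12) (.n 0 (.n 0 (.l 12) (.n 0 (.l 12) (.n 0 (.l 10) (.l 10)))) (.n 0 (.n 0 (.l 10) (.l 10)) (.l 10)))))
    [(197300060160, 28185722880), (47244640256, 47244640256), (68719476736, 68719476736), (326417514496, 17179869184)] rfl (by decide +kernel)
end
mutual
theorem c0_m2_t10 : CovD 0 progs [(197300060160, 28185722880), (47244640256, 47244640256), (68719476736, 68719476736), (360777252864, 17179869184)] :=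
  Pool.Agent.helper14.QF.covD_F chks_eq (.n 1 (.n 0 (.l 12) (.n 0 (.n 3 (.n 0 (.n 0 (.l 12) (.n 0 (.l 10) (.l 10))) (.n 0 (.n 0 (.l 10) (.l 10)) (.l 10))) (.n 0 (.n 0 (.l 12) (.n 0 (.l 10) (.l 10))) (.n 0 (.l 10) (.l 10)))) (.n 0 (.n 0 (.l 10) (.l 10)) (.l 10)))) (.n 0 (.l 12) (.n 0 (.n 0 (.l 12) (.n 0 (.n 0 (.l 10) (.l 10)) (.l 10))) (.n 0 (.n 0 (.l 10) (.l 10)) (.l 10)))))
    [(197300060160, 28185722880), (47244640256, 47244640256), (68719476736, 68719476736), (360777252864, 17179869184)] rfl (by decide +kernel)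
theorem c0_m2_t11 : CovD 0 progs [(183207198720, 14092861440), (23622320128, 23622320128), (68719476736, 68719476736), (395136991232, 17179869184)] :=
  Pool.Agent.helper14.QF.covD_F chks_eq (.l 12)
    [(183207198720, 14092861440), (23622320128, 23622320128), (68719476736, 68719476736), (395136991232, 17179869184)] rfl (by decide +kernel)
end
mutual
theorem c0_m2_t12 : CovD 0 progs [(211392921600, 14092861440), (23622320128, 23622320128), (68719476736, 68719476736), (395136991232, 17179869184)] :=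
  Pool.Agent.helper14.QF.covD_F chks_eq (.n 1 (.n 0 (.n 0 (.n 0 (.n 0 (.n 0 (.l 12) (.n 0 (.l 12) (.l 10))) (.n 3 (.l 10) (.l 10))) (.n 0 (.n 0 (.l 10) (.l 10)) (.l 10))) (.n 0 (.n 0 (.l 10) (.l 10)) (.l 10))) (.n 0 (.n 0 (.l 10) (.l 10)) (.l 10))) (.n 0 (.n 0 (.n 0 (.l 12) (.n 0 (.n 0 (.l 10) (.l 10)) (.l 10))) (.n 0 (.n 0 (.l 10) (.l 10)) (.l 10))) (.n 0 (.n 0 (.l 10) (.l 10)) (.l 10))))
    [(211392921600, 14092861440), (23622320128, 23622320128), (68719476736, 68719476736), (395136991232, 17179869184)] rfl (by decide +kernel)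
theorem c0_m2_t14 : CovD 0 progs [(197300060160, 28185722880), (70866960384, 23622320128), (68719476736, 68719476736), (395136991232, 17179869184)] :=
  Pool.Agent.helper14.QF.covD_F chks_eq (.n 0 (.l 12) (.n 0 (.n 0 (.n 0 (.l 12) (.n 0 (.l 12) (.l 10))) (.n 0 (.n 0 (.l 10) (.l 10)) (.l 10))) (.n 0 (.n 0 (.l 10) (.l 10)) (.l 10))))
    [(197300060160, 28185722880), (70866960384, 23622320128), (68719476736, 68719476736), (395136991232, 17179869184)] rfl (by decide +kernel)
end
mutual
theorem c0_m2_t18 : CovD 0 progs [(197300060160, 28185722880), (11811160064, 11811160064), (68719476736, 68719476736), (429496729600, 17179869184)] :=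
  Pool.Agent.helper14.QF.covD_F chks_eq (.n 0 (.n 0 (.l 6) (.n 2 (.n 1 (.l 6) (.n 3 (.l 12) (.l 6))) (.l 6))) (.n 0 (.n 0 (.n 3 (.n 0 (.n 0 (.l 10) (.l 10)) (.l 10)) (.n 0 (.n 0 (.l 10) (.l 10)) (.l 10))) (.n 0 (.l 10) (.l 10))) (.n 0 (.l 10) (.l 4))))
    [(197300060160, 28185722880), (11811160064, 11811160064), (68719476736, 68719476736), (429496729600, 17179869184)] rfl (by decide +kernel)
theorem c0_m2_t19 : CovD 0 progs [(197300060160, 28185722880), (35433480192, 11811160064), (68719476736, 68719476736), (429496729600, 17179869184)] :=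
  Pool.Agent.helper14.QF.covD_F chks_eq (.n 0 (.l 12) (.n 0 (.n 3 (.n 0 (.n 0 (.n 0 (.l 10) (.l 10)) (.l 10)) (.n 0 (.l 10) (.l 10))) (.n 0 (.n 0 (.n 0 (.l 10) (.l 10)) (.l 10)) (.n 0 (.l 10) (.l 10)))) (.n 0 (.l 10) (.l 4))))
    [(197300060160, 28185722880), (35433480192, 11811160064), (68719476736, 68719476736), (429496729600, 17179869184)] rfl (by decide +kernel)
end
mutual
theorem c0_m2_t21 : CovD 0 progs [(197300060160, 28185722880), (70866960384, 23622320128), (68719476736, 68719476736), (429496729600, 17179869184)] :=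
  Pool.Agent.helper14.QF.covD_F chks_eq (.n 3 (.n 0 (.l 12) (.n 0 (.n 0 (.n 0 (.l 12) (.l 10)) (.n 0 (.l 10) (.l 10))) (.n 0 (.l 10) (.l 10)))) (.n 0 (.l 12) (.n 0 (.n 0 (.n 0 (.n 0 (.l 10) (.l 10)) (.l 10)) (.n 0 (.l 10) (.l 10))) (.n 0 (.l 10) (.l 4)))))
    [(197300060160, 28185722880), (70866960384, 23622320128), (68719476736, 68719476736), (429496729600, 17179869184)] rfl (by decide +kernel)
theorem c0_m2_t23 : CovD 0 progs [(197300060160, 28185722880), (23622320128, 23622320128), (68719476736, 68719476736), (463856467968, 17179869184)] :=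
  Pool.Agent.helper14.QF.covD_F chks_eq (.n 0 (.n 0 (.l 6) (.n 0 (.l 6) (.n 0 (.l 6) (.n 0 (.n 2 (.l 6) (.l 6)) (.n 3 (.l 10) (.l 10)))))) (.n 0 (.n 0 (.n 0 (.n 0 (.n 0 (.l 10) (.l 10)) (.l 10)) (.n 0 (.l 10) (.l 10))) (.n 0 (.l 10) (.l 10))) (.n 0 (.l 10) (.l 4))))
    [(197300060160, 28185722880), (23622320128, 23622320128), (68719476736, 68719476736), (463856467968, 17179869184)] rfl (by decide +kernel)
end
mutual
theorem c0_m2_t24 : CovD 0 progs [(197300060160, 28185722880), (70866960384, 23622320128), (68719476736, 68719476736), (463856467968, 17179869184)] :=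
  Pool.Agent.helper14.QF.covD_F chks_eq (.n 3 (.n 0 (.l 12) (.n 0 (.n 0 (.n 0 (.n 0 (.l 10) (.l 10)) (.l 10)) (.n 0 (.l 10) (.l 10))) (.n 0 (.l 10) (.l 4)))) (.n 0 (.n 0 (.l 6) (.n 0 (.l 6) (.n 0 (.l 12) (.n 0 (.l 10) (.l 10))))) (.n 0 (.n 0 (.n 0 (.l 10) (.l 10)) (.l 10)) (.n 0 (.l 4) (.l 4)))))
    [(197300060160, 28185722880), (70866960384, 23622320128), (68719476736, 68719476736), (463856467968, 17179869184)] rfl (by decide +kernel)
theorem c0_m2_t27 : CovD 0 progs [(197300060160, 28185722880), (47244640256, 47244640256), (68719476736, 68719476736), (498216206336, 17179869184)] :=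
  Pool.Agent.helper14.QF.covD_F chks_eq (.n 0 (.n 0 (.l 6) (.n 0 (.l 6) (.n 0 (.n 1 (.l 6) (.n 1 (.l 6) (.l 12))) (.n 0 (.n 0 (.l 10) (.l 10)) (.l 10))))) (.n 0 (.n 0 (.n 0 (.n 0 (.l 10) (.l 10)) (.l 10)) (.n 0 (.l 10) (.l 4))) (.n 0 (.l 4) (.l 4))))
    [(197300060160, 28185722880), (47244640256, 47244640256), (68719476736, 68719476736), (498216206336, 17179869184)] rfl (by decide +kernel)
end
mutual
theorem c0_m2_t28 : CovD 0 progs [(197300060160, 28185722880), (47244640256, 47244640256), (68719476736, 68719476736), (532575944704, 17179869184)] :=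
  Pool.Agent.helper14.QF.covD_F chks_eq (.n 1 (.n 0 (.l 6) (.n 0 (.n 0 (.n 0 (.l 10) (.l 4)) (.l 4)) (.n 0 (.l 4) (.l 4)))) (.n 0 (.n 3 (.n 0 (.l 6) (.n 0 (.l 6) (.n 0 (.n 0 (.l 6) (.l 10)) (.l 10)))) (.n 0 (.l 6) (.n 0 (.l 6) (.n 0 (.l 6) (.l 4))))) (.n 0 (.n 0 (.n 0 (.l 10) (.l 4)) (.l 10)) (.n 0 (.l 4) (.l 4)))))
    [(197300060160, 28185722880), (47244640256, 47244640256), (68719476736, 68719476736), (532575944704, 17179869184)] rfl (by decide +kernel)
theorem c0_m2_t32 : CovD 0 progs [(183207198720, 14092861440), (47244640256, 47244640256), (206158430208, 68719476736), (412316860416, 137438953472)] :=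
  Pool.Agent.helper14.QF.covD_F chks_eq (.n 3 (.l 12) (.n 0 (.l 6) (.n 0 (.l 6) (.n 2 (.n 1 (.l 6) (.n 3 (.n 1 (.n 3 (.l 12) (.l 6)) (.l 12)) (.n 2 (.l 6) (.l 6)))) (.l 6)))))
    [(183207198720, 14092861440), (47244640256, 47244640256), (206158430208, 68719476736), (412316860416, 137438953472)] rfl (by decide +kernel)
end
mutual
theorem c0_m2_t33 : CovD 0 progs [(200823275520, 3523215360), (47244640256, 47244640256), (206158430208, 68719476736), (343597383680, 68719476736)] :=
  Pool.Agent.helper14.QF.covD_F chks_eq (.n 3 (.l 12) (.n 1 (.n 0 (.n 1 (.n 2 (.n 3 (.l 12) (.n 0 (.n 1 (.l 6) (.l 6)) (.n 3 (.l 10) (.l 10)))) (.l 6)) (.l 12)) (.n 0 (.n 0 (.n 3 (.l 12) (.l 10)) (.n 3 (.l 10) (.l 10))) (.n 3 (.n 0 (.l 10) (.l 10)) (.l 10)))) (.n 0 (.l 12) (.n 0 (.l 12) (.n 3 (.l 12) (.l 10))))))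
    [(200823275520, 3523215360), (47244640256, 47244640256), (206158430208, 68719476736), (343597383680, 68719476736)] rfl (by decide +kernel)
theorem c0_m2_t34 : CovD 0 progs [(207869706240, 3523215360), (47244640256, 47244640256), (206158430208, 68719476736), (343597383680, 68719476736)] :=
  Pool.Agent.helper14.QF.covD_F chks_eq (.n 0 (.n 0 (.n 3 (.n 0 (.l 12) (.n 3 (.l 10) (.l 10))) (.n 3 (.l 10) (.l 10))) (.n 3 (.n 3 (.l 12) (.l 10)) (.n 3 (.l 10) (.l 10)))) (.n 0 (.n 3 (.n 3 (.l 10) (.l 10)) (.n 0 (.l 10) (.l 10))) (.n 0 (.n 3 (.l 10) (.l 10)) (.n 3 (.l 10) (.l 10)))))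
    [(207869706240, 3523215360), (47244640256, 47244640256), (206158430208, 68719476736), (343597383680, 68719476736)] rfl (by decide +kernel)
end
mutual
theorem c0_m2_t36 : CovD 0 progs [(204346490880, 7046430720), (47244640256, 47244640256), (206158430208, 68719476736), (446676598784, 34359738368)] :=
  Pool.Agent.helper14.QF.covD_F chks_eq (.n 3 (.n 0 (.n 3 (.n 0 (.n 0 (.l 10) (.l 10)) (.l 10)) (.n 0 (.n 0 (.l 10) (.l 10)) (.l 10))) (.n 0 (.l 10) (.l 10))) (.n 1 (.n 3 (.n 0 (.n 0 (.n 0 (.l 10) (.l 10)) (.l 10)) (.n 0 (.l 4) (.l 4))) (.n 0 (.n 0 (.l 10) (.l 10)) (.l 10))) (.n 0 (.n 0 (.n 0 (.n 0 (.l 10) (.l 10)) (.l 10)) (.n 0 (.l 10) (.l 10))) (.n 0 (.l 10) (.l 10)))))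
    [(204346490880, 7046430720), (47244640256, 47244640256), (206158430208, 68719476736), (446676598784, 34359738368)] rfl (by decide +kernel)
theorem c0_m2_t37 : CovD 0 progs [(204346490880, 7046430720), (47244640256, 47244640256), (206158430208, 68719476736), (515396075520, 34359738368)] :=
  Pool.Agent.helper14.QF.covD_F chks_eq (.n 1 (.n 0 (.n 0 (.n 2 (.l 6) (.l 6)) (.n 3 (.l 10) (.l 4))) (.n 3 (.n 0 (.l 4) (.l 4)) (.l 4))) (.n 0 (.n 3 (.n 0 (.n 0 (.l 10) (.l 10)) (.l 10)) (.n 0 (.l 10) (.l 4))) (.n 3 (.n 0 (.l 4) (.l 4)) (.l 4))))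
    [(204346490880, 7046430720), (47244640256, 47244640256), (206158430208, 68719476736), (515396075520, 34359738368)] rfl (by decide +kernel)
end
mutual
theorem c0_m2_t40 : CovD 0 progs [(218439352320, 7046430720), (47244640256, 47244640256), (206158430208, 68719476736), (412316860416, 137438953472)] :=
  Pool.Agent.helper14.QF.covD_F chks_eq (.n 0 (.n 0 (.n 0 (.n 3 (.n 3 (.l 10) (.l 10)) (.n 3 (.l 10) (.l 4))) (.n 3 (.n 3 (.l 10) (.l 10)) (.n 3 (.l 10) (.l 4)))) (.n 3 (.n 3 (.l 10) (.l 10)) (.n 3 (.l 10) (.l 4)))) (.n 0 (.n 3 (.n 3 (.l 10) (.l 10)) (.n 3 (.l 10) (.l 4))) (.n 3 (.n 3 (.l 10) (.l 10)) (.n 3 (.l 4) (.l 4)))))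
    [(218439352320, 7046430720), (47244640256, 47244640256), (206158430208, 68719476736), (412316860416, 137438953472)] rfl (by decide +kernel)
theorem c0_m2_t44 : CovD 0 progs [(183207198720, 14092861440), (141733920768, 47244640256), (137438953472, 137438953472), (412316860416, 137438953472)] :=
  Pool.Agent.helper14.QF.covD_F chks_eq (.n 0 (.l 12) (.n 0 (.l 12) (.n 0 (.n 0 (.l 12) (.n 1 (.n 1 (.n 3 (.l 12) (.n 3 (.l 12) (.n 3 (.l 12) (.n 0 (.l 10) (.l 10))))) (.l 12)) (.l 12))) (.n 1 (.n 3 (.l 12) (.n 3 (.l 12) (.n 3 (.l 12) (.n 0 (.l 10) (.l 10))))) (.l 12)))))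
    [(183207198720, 14092861440), (141733920768, 47244640256), (137438953472, 137438953472), (412316860416, 137438953472)] rfl (by decide +kernel)
end
mutual
theorem c0_m2_t45 : CovD 0 progs [(200823275520, 3523215360), (118111600640, 23622320128), (137438953472, 137438953472), (412316860416, 137438953472)] :=
  Pool.Agent.helper14.QF.covD_F chks_eq (.n 0 (.n 3 (.l 12) (.n 3 (.l 12) (.n 3 (.n 0 (.l 10) (.l 10)) (.l 10)))) (.n 1 (.n 3 (.l 12) (.n 3 (.n 3 (.l 12) (.n 0 (.l 10) (.l 10))) (.n 3 (.l 10) (.l 10)))) (.n 3 (.l 12) (.n 3 (.l 12) (.n 3 (.l 10) (.l 10))))))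
    [(200823275520, 3523215360), (118111600640, 23622320128), (137438953472, 137438953472), (412316860416, 137438953472)] rfl (by decide +kernel)
theorem c0_m2_t46 : CovD 0 progs [(207869706240, 3523215360), (118111600640, 23622320128), (137438953472, 137438953472), (412316860416, 137438953472)] :=
  Pool.Agent.helper14.QF.covD_F chks_eq (.n 0 (.n 0 (.n 3 (.l 12) (.n 3 (.n 3 (.l 10) (.l 10)) (.n 0 (.l 10) (.l 10)))) (.n 3 (.l 12) (.n 3 (.n 0 (.l 10) (.l 10)) (.l 10)))) (.n 0 (.n 3 (.l 12) (.n 3 (.l 10) (.l 10))) (.n 3 (.n 3 (.l 12) (.n 0 (.l 10) (.l 10))) (.n 3 (.l 10) (.l 10)))))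
    [(207869706240, 3523215360), (118111600640, 23622320128), (137438953472, 137438953472), (412316860416, 137438953472)] rfl (by decide +kernel)
end
mutual
theorem c0_m2_t48 : CovD 0 progs [(218439352320, 7046430720), (118111600640, 23622320128), (137438953472, 137438953472), (412316860416, 137438953472)] :=
  Pool.Agent.helper14.QF.covD_F chks_eq (.n 0 (.n 0 (.n 3 (.n 3 (.l 12) (.n 0 (.l 10) (.l 10))) (.n 3 (.l 10) (.l 10))) (.n 3 (.n 3 (.n 0 (.l 10) (.l 10)) (.l 10)) (.n 3 (.l 10) (.l 10)))) (.n 0 (.n 3 (.n 3 (.l 10) (.l 10)) (.n 3 (.l 10) (.l 10))) (.n 3 (.n 3 (.l 10) (.l 10)) (.n 3 (.l 10) (.l 4)))))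
    [(218439352320, 7046430720), (118111600640, 23622320128), (137438953472, 137438953472), (412316860416, 137438953472)] rfl (by decide +kernel)
theorem c0_m2_t50 : CovD 0 progs [(204346490880, 7046430720), (165356240896, 23622320128), (137438953472, 137438953472), (412316860416, 137438953472)] :=
  Pool.Agent.helper14.QF.covD_F chks_eq (.n 0 (.n 0 (.n 3 (.l 12) (.n 3 (.l 12) (.n 3 (.l 12) (.l 10)))) (.n 3 (.l 12) (.n 3 (.l 12) (.n 3 (.l 10) (.l 10))))) (.n 0 (.n 3 (.l 12) (.n 3 (.l 12) (.n 3 (.l 10) (.l 10)))) (.n 0 (.n 3 (.l 12) (.n 3 (.l 10) (.l 10))) (.n 3 (.l 12) (.n 3 (.l 10) (.l 10))))))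
    [(204346490880, 7046430720), (165356240896, 23622320128), (137438953472, 137438953472), (412316860416, 137438953472)] rfl (by decide +kernel)
theorem c0_m2_t51 : CovD 0 progs [(218439352320, 7046430720), (165356240896, 23622320128), (137438953472, 137438953472), (412316860416, 137438953472)] :=
  Pool.Agent.helper14.QF.covD_F chks_eq (.n 0 (.n 0 (.n 3 (.l 12) (.n 3 (.n 0 (.l 10) (.l 10)) (.l 10))) (.n 3 (.n 3 (.l 12) (.l 10)) (.n 3 (.l 10) (.l 10)))) (.n 0 (.n 3 (.n 3 (.l 10) (.l 10)) (.n 3 (.l 10) (.l 10))) (.n 3 (.n 3 (.l 10) (.l 10)) (.n 3 (.l 10) (.l 10)))))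
    [(218439352320, 7046430720), (165356240896, 23622320128), (137438953472, 137438953472), (412316860416, 137438953472)] rfl (by decide +kernel)
end
theorem c0_m2_t4 : CovD 0 progs [(197300060160, 28185722880), (94489280512, 94489280512), (137438953472, 137438953472), (240518168576, 34359738368)] :=
  covD_split 3 (by decide +kernel) c0_m2_t2 c0_m2_t3
theorem c0_m2_t5 : CovD 0 progs [(197300060160, 28185722880), (94489280512, 94489280512), (137438953472, 137438953472), (206158430208, 68719476736)] :=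
  covD_split 3 (by decide +kernel) c0_m2_t1 c0_m2_t4
theorem c0_m2_t6 : CovD 0 progs [(197300060160, 28185722880), (94489280512, 94489280512), (137438953472, 137438953472), (137438953472, 137438953472)] :=
  covD_split 3 (by decide +kernel) c0_m2_t0 c0_m2_t5
theorem c0_m2_t9 : CovD 0 progs [(197300060160, 28185722880), (47244640256, 47244640256), (68719476736, 68719476736), (309237645312, 34359738368)] :=
  covD_split 3 (by decide +kernel) c0_m2_t7 c0_m2_t8
theorem c0_m2_t13 : CovD 0 progs [(197300060160, 28185722880), (23622320128, 23622320128), (68719476736, 68719476736), (395136991232, 17179869184)] :=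
  covD_split 0 (by decide +kernel) c0_m2_t11 c0_m2_t12
theorem c0_m2_t15 : CovD 0 progs [(197300060160, 28185722880), (47244640256, 47244640256), (68719476736, 68719476736), (395136991232, 17179869184)] :=
  covD_split 1 (by decide +kernel) c0_m2_t13 c0_m2_t14
theorem c0_m2_t16 : CovD 0 progs [(197300060160, 28185722880), (47244640256, 47244640256), (68719476736, 68719476736), (377957122048, 34359738368)] :=
  covD_split 3 (by decide +kernel) c0_m2_t10 c0_m2_t15
theorem c0_m2_t17 : CovD 0 progs [(197300060160, 28185722880), (47244640256, 47244640256), (68719476736, 68719476736), (343597383680, 68719476736)] :=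
  covD_split 3 (by decide +kernel) c0_m2_t9 c0_m2_t16
theorem c0_m2_t20 : CovD 0 progs [(197300060160, 28185722880), (23622320128, 23622320128), (68719476736, 68719476736), (429496729600, 17179869184)] :=
  covD_split 1 (by decide +kernel) c0_m2_t18 c0_m2_t19
theorem c0_m2_t22 : CovD 0 progs [(197300060160, 28185722880), (47244640256, 47244640256), (68719476736, 68719476736), (429496729600, 17179869184)] :=
  covD_split 1 (by decide +kernel) c0_m2_t20 c0_m2_t21
theorem c0_m2_t25 : CovD 0 progs [(197300060160, 28185722880), (47244640256, 47244640256), (68719476736, 68719476736), (463856467968, 17179869184)] :=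
  covD_split 1 (by decide +kernel) c0_m2_t23 c0_m2_t24
theorem c0_m2_t26 : CovD 0 progs [(197300060160, 28185722880), (47244640256, 47244640256), (68719476736, 68719476736), (446676598784, 34359738368)] :=
  covD_split 3 (by decide +kernel) c0_m2_t22 c0_m2_t25
theorem c0_m2_t29 : CovD 0 progs [(197300060160, 28185722880), (47244640256, 47244640256), (68719476736, 68719476736), (515396075520, 34359738368)] :=
  covD_split 3 (by decide +kernel) c0_m2_t27 c0_m2_t28
theorem c0_m2_t30 : CovD 0 progs [(197300060160, 28185722880), (47244640256, 47244640256), (68719476736, 68719476736), (481036337152, 68719476736)] :=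
  covD_split 3 (by decide +kernel) c0_m2_t26 c0_m2_t29
theorem c0_m2_t31 : CovD 0 progs [(197300060160, 28185722880), (47244640256, 47244640256), (68719476736, 68719476736), (412316860416, 137438953472)] :=
  covD_split 3 (by decide +kernel) c0_m2_t17 c0_m2_t30
theorem c0_m2_t35 : CovD 0 progs [(204346490880, 7046430720), (47244640256, 47244640256), (206158430208, 68719476736), (343597383680, 68719476736)] :=
  covD_split 0 (by decide +kernel) c0_m2_t33 c0_m2_t34
theorem c0_m2_t38 : CovD 0 progs [(204346490880, 7046430720), (47244640256, 47244640256), (206158430208, 68719476736), (481036337152, 68719476736)] :=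
  covD_split 3 (by decide +kernel) c0_m2_t36 c0_m2_t37
theorem c0_m2_t39 : CovD 0 progs [(204346490880, 7046430720), (47244640256, 47244640256), (206158430208, 68719476736), (412316860416, 137438953472)] :=
  covD_split 3 (by decide +kernel) c0_m2_t35 c0_m2_t38
theorem c0_m2_t41 : CovD 0 progs [(211392921600, 14092861440), (47244640256, 47244640256), (206158430208, 68719476736), (412316860416, 137438953472)] :=
  covD_split 0 (by decide +kernel) c0_m2_t39 c0_m2_t40
theorem c0_m2_t42 : CovD 0 progs [(197300060160, 28185722880), (47244640256, 47244640256), (206158430208, 68719476736), (412316860416, 137438953472)] :=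
  covD_split 0 (by decide +kernel) c0_m2_t32 c0_m2_t41
theorem c0_m2_t43 : CovD 0 progs [(197300060160, 28185722880), (47244640256, 47244640256), (137438953472, 137438953472), (412316860416, 137438953472)] :=
  covD_split 2 (by decide +kernel) c0_m2_t31 c0_m2_t42
theorem c0_m2_t47 : CovD 0 progs [(204346490880, 7046430720), (118111600640, 23622320128), (137438953472, 137438953472), (412316860416, 137438953472)] :=
  covD_split 0 (by decide +kernel) c0_m2_t45 c0_m2_t46
theorem c0_m2_t49 : CovD 0 progs [(211392921600, 14092861440), (118111600640, 23622320128), (137438953472, 137438953472), (412316860416, 137438953472)] :=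
  covD_split 0 (by decide +kernel) c0_m2_t47 c0_m2_t48
theorem c0_m2_t52 : CovD 0 progs [(211392921600, 14092861440), (165356240896, 23622320128), (137438953472, 137438953472), (412316860416, 137438953472)] :=
  covD_split 0 (by decide +kernel) c0_m2_t50 c0_m2_t51
theorem c0_m2_t53 : CovD 0 progs [(211392921600, 14092861440), (141733920768, 47244640256), (137438953472, 137438953472), (412316860416, 137438953472)] :=
  covD_split 1 (by decide +kernel) c0_m2_t49 c0_m2_t52
theorem c0_m2_t54 : CovD 0 progs [(197300060160, 28185722880), (141733920768, 47244640256), (137438953472, 137438953472), (412316860416, 137438953472)] :=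
  covD_split 0 (by decide +kernel) c0_m2_t44 c0_m2_t53
theorem c0_m2_t55 : CovD 0 progs [(197300060160, 28185722880), (94489280512, 94489280512), (137438953472, 137438953472), (412316860416, 137438953472)] :=
  covD_split 1 (by decide +kernel) c0_m2_t43 c0_m2_t54
theorem c0_m2 : CovD 0 progs [(197300060160, 28185722880), (94489280512, 94489280512), (137438953472, 137438953472), (274877906944, 274877906944)] :=
  covD_split 3 (by decide +kernel) c0_m2_t6 c0_m2_t55

end Pool.Agent.helper71.FJ.Crt.QMa
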