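import Pool.Agent.helper71.FJ.Crt.QMaP

/-!
Generated certificates.
-/

namespace Pool.Agent.helper71.FJ.Crt.QMa

open Pool.Agent.helper31.IA (Z Op)
open Pool.Agent.helper31.IC

mutual
theorem c0_m20_t0 : CovD 0 progs [(211392921600, 14092861440), (171261820928, 5905580032), (85899345920, 17179869184), (828928688128, 4294967296)] :=
  Pool.Agent.helper14.QF.covD_F chks_eq (.n 0 (.l 6) (.n 0 (.n 0 (.l 4) (.n 0 (.l 4) (.l 4))) (.n 0 (.n 0 (.l 4) (.n 0 (.l 4) (.l 4))) (.n 0 (.n 0 (.l 4) (.l 4)) (.n 3 (.l 4) (.l 4))))))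
    [(211392921600, 14092861440), (171261820928, 5905580032), (85899345920, 17179869184), (828928688128, 4294967296)] rfl (by decide +kernel)
theorem c0_m20_t1 : CovD 0 progs [(211392921600, 14092861440), (171261820928, 5905580032), (85899345920, 17179869184), (837518622720, 4294967296)] :=
  Pool.Agent.helper14.QF.covD_F chks_eq (.n 0 (.l 6) (.n 0 (.n 0 (.n 0 (.l 4) (.l 4)) (.n 0 (.l 4) (.n 0 (.l 4) (.l 4)))) (.n 0 (.n 0 (.n 0 (.l 4) (.l 4)) (.n 3 (.l 4) (.l 4))) (.n 0 (.n 3 (.l 4) (.l 4)) (.n 0 (.l 4) (.l 4))))))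
    [(211392921600, 14092861440), (171261820928, 5905580032), (85899345920, 17179869184), (837518622720, 4294967296)] rfl (by decide +kernel)
end
mutual
theorem c0_m20_t3 : CovD 0 progs [(211392921600, 14092861440), (171261820928, 5905580032), (85899345920, 17179869184), (846108557312, 4294967296)] :=
  Pool.Agent.helper14.QF.covD_F chks_eq (.n 0 (.l 6) (.n 0 (.n 0 (.n 0 (.l 4) (.n 0 (.l 4) (.l 4))) (.n 0 (.n 0 (.l 4) (.l 4)) (.n 3 (.l 4) (.l 4)))) (.n 0 (.n 0 (.n 3 (.l 4) (.l 4)) (.n 3 (.l 4) (.l 4))) (.n 0 (.l 4) (.l 4)))))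
    [(211392921600, 14092861440), (171261820928, 5905580032), (85899345920, 17179869184), (846108557312, 4294967296)] rfl (by decide +kernel)
theorem c0_m20_t4 : CovD 0 progs [(211392921600, 14092861440), (171261820928, 5905580032), (85899345920, 17179869184), (854698491904, 4294967296)] :=
  Pool.Agent.helper14.QF.covD_F chks_eq (.n 0 (.l 6) (.n 0 (.n 0 (.l 6) (.n 0 (.n 3 (.l 4) (.l 4)) (.n 3 (.l 4) (.l 4)))) (.n 0 (.n 0 (.l 4) (.l 4)) (.n 0 (.n 0 (.l 4) (.l 4)) (.n 0 (.l 4) (.l 4))))))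
    [(211392921600, 14092861440), (171261820928, 5905580032), (85899345920, 17179869184), (854698491904, 4294967296)] rfl (by decide +kernel)
end
mutual
theorem c0_m20_t7 : CovD 0 progs [(211392921600, 14092861440), (171261820928, 5905580032), (85899345920, 17179869184), (867583393792, 8589934592)] :=
  Pool.Agent.helper14.QF.covD_F chks_eq (.n 3 (.n 0 (.l 6) (.n 0 (.n 0 (.l 6) (.n 0 (.n 0 (.l 4) (.l 4)) (.l 4))) (.n 0 (.n 0 (.n 0 (.l 4) (.l 4)) (.n 0 (.l 4) (.l 4))) (.n 0 (.n 0 (.l 4) (.l 4)) (.n 0 (.l 4) (.l 4)))))) (.n 0 (.l 6) (.n 0 (.n 0 (.l 6) (.n 0 (.l 6) (.n 3 (.l 4) (.l 4)))) (.n 0 (.n 0 (.n 0 (.l 4) (.l 4)) (.n 0 (.l 4) (.l 4))) (.n 0 (.l 4) (.l 4))))))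
    [(211392921600, 14092861440), (171261820928, 5905580032), (85899345920, 17179869184), (867583393792, 8589934592)] rfl (by decide +kernel)
theorem c0_m20_t8 : CovD 0 progs [(211392921600, 14092861440), (171261820928, 5905580032), (85899345920, 17179869184), (884763262976, 8589934592)] :=
  Pool.Agent.helper14.QF.covD_F chks_eq (.n 3 (.n 0 (.l 6) (.n 0 (.n 0 (.l 6) (.n 0 (.l 6) (.n 0 (.l 4) (.l 4)))) (.n 0 (.n 0 (.l 4) (.l 4)) (.l 4)))) (.n 0 (.l 6) (.n 0 (.l 6) (.n 0 (.l 4) (.l 4)))))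
    [(211392921600, 14092861440), (171261820928, 5905580032), (85899345920, 17179869184), (884763262976, 8589934592)] rfl (by decide +kernel)
end
mutual
theorem c0_m20_t11 : CovD 0 progs [(204346490880, 7046430720), (183072980992, 5905580032), (85899345920, 17179869184), (858993459200, 34359738368)] :=
  Pool.Agent.helper14.QF.covD_F chks_eq (.n 0 (.l 6) (.n 0 (.l 6) (.n 2 (.n 3 (.n 3 (.n 3 (.l 4) (.l 4)) (.l 6)) (.l 6)) (.l 6))))
    [(204346490880, 7046430720), (183072980992, 5905580032), (85899345920, 17179869184), (858993459200, 34359738368)] rfl (by decide +kernel)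
theorem c0_m20_t12 : CovD 0 progs [(213154529280, 1761607680), (183072980992, 5905580032), (85899345920, 17179869184), (858993459200, 34359738368)] :=
  Pool.Agent.helper14.QF.covD_F chks_eq (.n 0 (.n 3 (.n 3 (.n 3 (.l 4) (.l 4)) (.n 2 (.l 6) (.l 6))) (.l 6)) (.n 0 (.n 3 (.n 3 (.n 3 (.l 4) (.l 4)) (.n 3 (.l 4) (.l 6))) (.l 6)) (.n 3 (.n 3 (.n 3 (.l 4) (.l 4)) (.n 3 (.l 4) (.n 0 (.l 4) (.l 4)))) (.l 6))))
    [(213154529280, 1761607680), (183072980992, 5905580032), (85899345920, 17179869184), (858993459200, 34359738368)] rfl (by decide +kernel)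
end
mutual
theorem c0_m20_t13 : CovD 0 progs [(215796940800, 880803840), (183072980992, 5905580032), (85899345920, 17179869184), (858993459200, 34359738368)] :=
  Pool.Agent.helper14.QF.covD_F chks_eq (.n 0 (.n 3 (.n 3 (.n 3 (.l 4) (.l 4)) (.n 3 (.l 4) (.n 3 (.l 4) (.l 4)))) (.n 3 (.n 3 (.l 4) (.l 4)) (.l 6))) (.n 3 (.n 3 (.n 3 (.l 4) (.l 4)) (.n 3 (.l 4) (.n 3 (.l 4) (.l 4)))) (.n 3 (.n 3 (.l 4) (.n 0 (.l 4) (.l 4))) (.l 6))))
    [(215796940800, 880803840), (183072980992, 5905580032), (85899345920, 17179869184), (858993459200, 34359738368)] rfl (by decide +kernel)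
theorem c0_m20_t14 : CovD 0 progs [(217558548480, 880803840), (183072980992, 5905580032), (85899345920, 17179869184), (858993459200, 34359738368)] :=
  Pool.Agent.helper14.QF.covD_F chks_eq (.n 3 (.n 3 (.n 3 (.l 4) (.n 0 (.l 4) (.l 4))) (.n 3 (.n 3 (.l 4) (.l 4)) (.n 3 (.l 4) (.l 4)))) (.n 3 (.n 3 (.l 4) (.n 3 (.l 4) (.l 4))) (.n 3 (.n 0 (.l 4) (.l 4)) (.l 4))))
    [(217558548480, 880803840), (183072980992, 5905580032), (85899345920, 17179869184), (858993459200, 34359738368)] rfl (by decide +kernel)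
end
mutual
theorem c0_m20_t17 : CovD 0 progs [(220200960000, 1761607680), (183072980992, 5905580032), (85899345920, 17179869184), (858993459200, 34359738368)] :=
  Pool.Agent.helper14.QF.covD_F chks_eq (.n 3 (.n 0 (.n 3 (.n 3 (.l 4) (.n 0 (.l 4) (.l 4))) (.n 3 (.n 3 (.l 4) (.l 4)) (.l 4))) (.n 3 (.n 3 (.n 0 (.l 4) (.l 4)) (.n 3 (.l 4) (.l 4))) (.n 3 (.n 3 (.l 4) (.l 4)) (.l 4)))) (.n 3 (.n 0 (.n 0 (.n 3 (.l 4) (.l 4)) (.n 3 (.l 4) (.l 4))) (.n 0 (.n 3 (.l 4) (.l 4)) (.n 3 (.l 4) (.l 4)))) (.n 3 (.n 0 (.l 4) (.l 4)) (.l 4))))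
    [(220200960000, 1761607680), (183072980992, 5905580032), (85899345920, 17179869184), (858993459200, 34359738368)] rfl (by decide +kernel)
theorem c0_m20_t18 : CovD 0 progs [(223724175360, 1761607680), (183072980992, 5905580032), (85899345920, 17179869184), (858993459200, 34359738368)] :=
  Pool.Agent.helper14.QF.covD_F chks_eq (.n 3 (.n 0 (.n 3 (.n 3 (.n 0 (.l 4) (.l 4)) (.n 3 (.l 4) (.l 4))) (.n 3 (.l 4) (.n 0 (.l 4) (.l 4)))) (.n 3 (.n 3 (.n 3 (.l 4) (.l 4)) (.n 0 (.l 4) (.l 4))) (.n 3 (.l 4) (.n 0 (.l 4) (.l 4))))) (.n 3 (.n 0 (.n 3 (.n 0 (.l 4) (.l 4)) (.l 4)) (.n 3 (.n 0 (.l 4) (.l 4)) (.l 4))) (.n 3 (.l 4) (.l 4))))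
    [(223724175360, 1761607680), (183072980992, 5905580032), (85899345920, 17179869184), (858993459200, 34359738368)] rfl (by decide +kernel)
end
mutual
theorem c0_m20_t23 : CovD 0 progs [(204346490880, 7046430720), (177167400960, 11811160064), (120259084288, 17179869184), (858993459200, 34359738368)] :=
  Pool.Agent.helper14.QF.covD_F chks_eq (.l 6)
    [(204346490880, 7046430720), (177167400960, 11811160064), (120259084288, 17179869184), (858993459200, 34359738368)] rfl (by decide +kernel)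
theorem c0_m20_t24 : CovD 0 progs [(218439352320, 7046430720), (177167400960, 11811160064), (120259084288, 17179869184), (833223655424, 8589934592)] :=
  Pool.Agent.helper14.QF.covD_F chks_eq (.n 3 (.n 0 (.n 0 (.l 4) (.n 0 (.l 4) (.l 4))) (.n 0 (.n 0 (.l 4) (.n 0 (.l 4) (.l 4))) (.n 0 (.n 0 (.l 4) (.l 4)) (.n 3 (.l 4) (.l 4))))) (.n 0 (.n 0 (.n 0 (.l 4) (.l 4)) (.n 0 (.l 4) (.n 0 (.l 4) (.l 4)))) (.n 0 (.n 0 (.n 0 (.l 4) (.l 4)) (.n 3 (.l 4) (.l 4))) (.n 0 (.n 3 (.l 4) (.l 4)) (.n 0 (.l 4) (.l 4))))))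
    [(218439352320, 7046430720), (177167400960, 11811160064), (120259084288, 17179869184), (833223655424, 8589934592)] rfl (by decide +kernel)
end
mutual
theorem c0_m20_t25 : CovD 0 progs [(218439352320, 7046430720), (177167400960, 11811160064), (120259084288, 17179869184), (846108557312, 4294967296)] :=
  Pool.Agent.helper14.QF.covD_F chks_eq (.n 1 (.n 0 (.n 0 (.l 6) (.n 0 (.n 0 (.l 4) (.l 4)) (.n 3 (.l 4) (.l 4)))) (.n 0 (.n 0 (.n 3 (.l 4) (.l 4)) (.n 3 (.l 4) (.l 4))) (.n 0 (.l 4) (.l 4)))) (.n 0 (.n 0 (.n 0 (.l 4) (.n 0 (.l 4) (.l 4))) (.n 0 (.n 0 (.l 4) (.l 4)) (.n 3 (.l 4) (.l 4)))) (.n 0 (.n 0 (.n 3 (.l 4) (.l 4)) (.n 3 (.l 4) (.l 4))) (.n 0 (.l 4) (.l 4)))))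
    [(218439352320, 7046430720), (177167400960, 11811160064), (120259084288, 17179869184), (846108557312, 4294967296)] rfl (by decide +kernel)
theorem c0_m20_t26 : CovD 0 progs [(218439352320, 7046430720), (177167400960, 11811160064), (120259084288, 17179869184), (854698491904, 4294967296)] :=
  Pool.Agent.helper14.QF.covD_F chks_eq (.n 0 (.n 0 (.l 6) (.n 0 (.n 3 (.l 4) (.l 4)) (.n 3 (.l 4) (.l 4)))) (.n 0 (.n 0 (.l 4) (.l 4)) (.n 0 (.n 0 (.l 4) (.l 4)) (.n 0 (.l 4) (.l 4)))))
    [(218439352320, 7046430720), (177167400960, 11811160064), (120259084288, 17179869184), (854698491904, 4294967296)] rfl (by decide +kernel)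
end
mutual
theorem c0_m20_t29 : CovD 0 progs [(214916136960, 3523215360), (177167400960, 11811160064), (120259084288, 17179869184), (876173328384, 17179869184)] :=
  Pool.Agent.helper14.QF.covD_F chks_eq (.n 3 (.n 3 (.n 0 (.l 6) (.n 0 (.n 0 (.l 4) (.l 4)) (.l 4))) (.n 0 (.l 6) (.n 0 (.l 6) (.n 3 (.l 4) (.l 4))))) (.n 0 (.l 6) (.n 0 (.l 6) (.n 0 (.l 6) (.n 3 (.l 4) (.l 4))))))
    [(214916136960, 3523215360), (177167400960, 11811160064), (120259084288, 17179869184), (876173328384, 17179869184)] rfl (by decide +kernel)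
theorem c0_m20_t30 : CovD 0 progs [(221962567680, 3523215360), (171261820928, 5905580032), (120259084288, 17179869184), (876173328384, 17179869184)] :=
  Pool.Agent.helper14.QF.covD_F chks_eq (.n 0 (.n 0 (.n 0 (.n 3 (.n 3 (.l 4) (.l 4)) (.l 6)) (.n 3 (.n 3 (.l 4) (.l 4)) (.n 3 (.l 4) (.l 4)))) (.n 0 (.n 3 (.n 3 (.l 4) (.l 4)) (.n 3 (.l 4) (.l 4))) (.n 3 (.n 3 (.l 4) (.l 4)) (.n 3 (.l 4) (.l 4))))) (.n 3 (.n 0 (.n 3 (.n 0 (.l 4) (.l 4)) (.l 4)) (.n 3 (.n 0 (.l 4) (.l 4)) (.l 4))) (.n 3 (.l 4) (.l 4))))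
    [(221962567680, 3523215360), (171261820928, 5905580032), (120259084288, 17179869184), (876173328384, 17179869184)] rfl (by decide +kernel)
end
mutual
theorem c0_m20_t31 : CovD 0 progs [(221962567680, 3523215360), (183072980992, 5905580032), (120259084288, 17179869184), (876173328384, 17179869184)] :=
  Pool.Agent.helper14.QF.covD_F chks_eq (.n 0 (.n 3 (.n 3 (.n 0 (.n 0 (.l 4) (.l 4)) (.n 0 (.l 4) (.l 4))) (.n 0 (.n 0 (.l 4) (.l 4)) (.n 0 (.l 4) (.l 4)))) (.n 3 (.n 0 (.l 4) (.l 4)) (.l 4))) (.n 3 (.n 0 (.n 3 (.n 0 (.l 4) (.l 4)) (.l 4)) (.n 3 (.n 0 (.l 4) (.l 4)) (.l 4))) (.n 3 (.l 4) (.l 4))))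
    [(221962567680, 3523215360), (183072980992, 5905580032), (120259084288, 17179869184), (876173328384, 17179869184)] rfl (by decide +kernel)
theorem c0_m20_t37 : CovD 0 progs [(211392921600, 14092861440), (177167400960, 11811160064), (103079215104, 34359738368), (927712935936, 34359738368)] :=
  Pool.Agent.helper14.QF.covD_F chks_eq (.n 3 (.n 3 (.n 0 (.l 6) (.n 0 (.l 6) (.n 0 (.n 3 (.l 4) (.l 4)) (.l 4)))) (.n 0 (.l 6) (.n 0 (.l 6) (.n 0 (.l 4) (.l 4))))) (.n 0 (.l 6) (.n 0 (.l 6) (.n 3 (.l 4) (.l 4)))))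
    [(211392921600, 14092861440), (177167400960, 11811160064), (103079215104, 34359738368), (927712935936, 34359738368)] rfl (by decide +kernel)
end
theorem c0_m20_t2 : CovD 0 progs [(211392921600, 14092861440), (171261820928, 5905580032), (85899345920, 17179869184), (833223655424, 8589934592)] :=
  covD_split 3 (by decide +kernel) c0_m20_t0 c0_m20_t1
theorem c0_m20_t5 : CovD 0 progs [(211392921600, 14092861440), (171261820928, 5905580032), (85899345920, 17179869184), (850403524608, 8589934592)] :=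
  covD_split 3 (by decide +kernel) c0_m20_t3 c0_m20_t4
theorem c0_m20_t6 : CovD 0 progs [(211392921600, 14092861440), (171261820928, 5905580032), (85899345920, 17179869184), (841813590016, 17179869184)] :=
  covD_split 3 (by decide +kernel) c0_m20_t2 c0_m20_t5
theorem c0_m20_t9 : CovD 0 progs [(211392921600, 14092861440), (171261820928, 5905580032), (85899345920, 17179869184), (876173328384, 17179869184)] :=
  covD_split 3 (by decide +kernel) c0_m20_t7 c0_m20_t8
theorem c0_m20_t10 : CovD 0 progs [(211392921600, 14092861440), (171261820928, 5905580032), (85899345920, 17179869184), (858993459200, 34359738368)] :=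
  covD_split 3 (by decide +kernel) c0_m20_t6 c0_m20_t9
theorem c0_m20_t15 : CovD 0 progs [(216677744640, 1761607680), (183072980992, 5905580032), (85899345920, 17179869184), (858993459200, 34359738368)] :=
  covD_split 0 (by decide +kernel) c0_m20_t13 c0_m20_t14
theorem c0_m20_t16 : CovD 0 progs [(214916136960, 3523215360), (183072980992, 5905580032), (85899345920, 17179869184), (858993459200, 34359738368)] :=
  covD_split 0 (by decide +kernel) c0_m20_t12 c0_m20_t15
theorem c0_m20_t19 : CovD 0 progs [(221962567680, 3523215360), (183072980992, 5905580032), (85899345920, 17179869184), (858993459200, 34359738368)] :=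
  covD_split 0 (by decide +kernel) c0_m20_t17 c0_m20_t18
theorem c0_m20_t20 : CovD 0 progs [(218439352320, 7046430720), (183072980992, 5905580032), (85899345920, 17179869184), (858993459200, 34359738368)] :=
  covD_split 0 (by decide +kernel) c0_m20_t16 c0_m20_t19
theorem c0_m20_t21 : CovD 0 progs [(211392921600, 14092861440), (183072980992, 5905580032), (85899345920, 17179869184), (858993459200, 34359738368)] :=
  covD_split 0 (by decide +kernel) c0_m20_t11 c0_m20_t20
theorem c0_m20_t22 : CovD 0 progs [(211392921600, 14092861440), (177167400960, 11811160064), (85899345920, 17179869184), (858993459200, 34359738368)] :=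
  covD_split 1 (by decide +kernel) c0_m20_t10 c0_m20_t21
theorem c0_m20_t27 : CovD 0 progs [(218439352320, 7046430720), (177167400960, 11811160064), (120259084288, 17179869184), (850403524608, 8589934592)] :=
  covD_split 3 (by decide +kernel) c0_m20_t25 c0_m20_t26
theorem c0_m20_t28 : CovD 0 progs [(218439352320, 7046430720), (177167400960, 11811160064), (120259084288, 17179869184), (841813590016, 17179869184)] :=
  covD_split 3 (by decide +kernel) c0_m20_t24 c0_m20_t27
theorem c0_m20_t32 : CovD 0 progs [(221962567680, 3523215360), (177167400960, 11811160064), (120259084288, 17179869184), (876173328384, 17179869184)] :=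
  covD_split 1 (by decide +kernel) c0_m20_t30 c0_m20_t31
theorem c0_m20_t33 : CovD 0 progs [(218439352320, 7046430720), (177167400960, 11811160064), (120259084288, 17179869184), (876173328384, 17179869184)] :=
  covD_split 0 (by decide +kernel) c0_m20_t29 c0_m20_t32
theorem c0_m20_t34 : CovD 0 progs [(218439352320, 7046430720), (177167400960, 11811160064), (120259084288, 17179869184), (858993459200, 34359738368)] :=
  covD_split 3 (by decide +kernel) c0_m20_t28 c0_m20_t33
theorem c0_m20_t35 : CovD 0 progs [(211392921600, 14092861440), (177167400960, 11811160064), (120259084288, 17179869184), (858993459200, 34359738368)] :=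
  covD_split 0 (by decide +kernel) c0_m20_t23 c0_m20_t34
theorem c0_m20_t36 : CovD 0 progs [(211392921600, 14092861440), (177167400960, 11811160064), (103079215104, 34359738368), (858993459200, 34359738368)] :=
  covD_split 2 (by decide +kernel) c0_m20_t22 c0_m20_t35
theorem c0_m20 : CovD 0 progs [(211392921600, 14092861440), (177167400960, 11811160064), (103079215104, 34359738368), (893353197568, 68719476736)] :=
  covD_split 3 (by decide +kernel) c0_m20_t36 c0_m20_t37

end Pool.Agent.helper71.FJ.Crt.QMa
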