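import Pool.Agent.helper71.FJ.Crt.QMaP

/-!
Generated certificates.
-/

namespace Pool.Agent.helper71.FJ.Crt.QMa

open Pool.Agent.helper31.IA (Z Op)
open Pool.Agent.helper31.IC

mutual
theorem c0_m23_t0 : CovD 0 progs [(204346490880, 7046430720), (118111600640, 23622320128), (206158430208, 68719476736), (893353197568, 68719476736)] :=
  Pool.Agent.helper14.QF.covD_F chks_eq (.l 6)
    [(204346490880, 7046430720), (118111600640, 23622320128), (206158430208, 68719476736), (893353197568, 68719476736)] rfl (by decide +kernel)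
theorem c0_m23_t1 : CovD 0 progs [(218439352320, 7046430720), (118111600640, 23622320128), (171798691840, 34359738368), (833223655424, 8589934592)] :=
  Pool.Agent.helper14.QF.covD_F chks_eq (.n 0 (.l 6) (.n 0 (.n 3 (.n 0 (.l 4) (.n 0 (.l 4) (.l 4))) (.n 0 (.n 0 (.l 4) (.l 4)) (.n 3 (.l 4) (.l 4)))) (.n 3 (.n 0 (.n 0 (.l 4) (.l 4)) (.n 3 (.l 4) (.l 4))) (.n 0 (.n 3 (.l 4) (.l 4)) (.n 0 (.l 4) (.l 4))))))
    [(218439352320, 7046430720), (118111600640, 23622320128), (171798691840, 34359738368), (833223655424, 8589934592)] rfl (by decide +kernel)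
end
mutual
theorem c0_m23_t2 : CovD 0 progs [(218439352320, 7046430720), (118111600640, 23622320128), (171798691840, 34359738368), (850403524608, 8589934592)] :=
  Pool.Agent.helper14.QF.covD_F chks_eq (.n 1 (.n 3 (.n 0 (.l 6) (.n 0 (.l 6) (.n 0 (.l 4) (.l 4)))) (.n 0 (.l 6) (.n 0 (.l 6) (.n 0 (.l 6) (.n 0 (.l 4) (.l 4)))))) (.n 0 (.l 6) (.n 0 (.n 0 (.l 6) (.n 3 (.n 3 (.l 4) (.l 4)) (.l 4))) (.n 0 (.n 3 (.l 4) (.n 0 (.l 4) (.l 4))) (.n 3 (.l 4) (.n 0 (.l 4) (.l 4)))))))
    [(218439352320, 7046430720), (118111600640, 23622320128), (171798691840, 34359738368), (850403524608, 8589934592)] rfl (by decide +kernel)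
theorem c0_m23_t4 : CovD 0 progs [(218439352320, 7046430720), (118111600640, 23622320128), (171798691840, 34359738368), (876173328384, 17179869184)] :=
  Pool.Agent.helper14.QF.covD_F chks_eq (.n 0 (.l 6) (.n 0 (.l 6) (.n 0 (.n 2 (.n 0 (.n 2 (.l 6) (.l 6)) (.n 3 (.n 3 (.l 4) (.l 4)) (.l 6))) (.l 6)) (.n 0 (.n 2 (.n 3 (.n 3 (.l 4) (.l 4)) (.l 6)) (.l 6)) (.n 3 (.n 3 (.l 4) (.l 4)) (.l 4))))))
    [(218439352320, 7046430720), (118111600640, 23622320128), (171798691840, 34359738368), (876173328384, 17179869184)] rfl (by decide +kernel)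
end
mutual
theorem c0_m23_t6 : CovD 0 progs [(218439352320, 7046430720), (118111600640, 23622320128), (171798691840, 34359738368), (927712935936, 34359738368)] :=
  Pool.Agent.helper14.QF.covD_F chks_eq (.l 6)
    [(218439352320, 7046430720), (118111600640, 23622320128), (171798691840, 34359738368), (927712935936, 34359738368)] rfl (by decide +kernel)
theorem c0_m23_t8 : CovD 0 progs [(218439352320, 7046430720), (118111600640, 23622320128), (240518168576, 34359738368), (893353197568, 68719476736)] :=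
  Pool.Agent.helper14.QF.covD_F chks_eq (.n 0 (.l 6) (.n 0 (.l 6) (.n 2 (.n 3 (.n 0 (.n 1 (.l 6) (.n 3 (.l 6) (.l 6))) (.n 0 (.n 2 (.n 3 (.n 2 (.n 3 (.n 0 (.n 3 (.l 4) (.l 4)) (.n 3 (.l 4) (.l 4))) (.l 6)) (.l 6)) (.l 6)) (.l 6)) (.n 1 (.l 6) (.n 3 (.n 3 (.n 3 (.n 0 (.l 4) (.l 4)) (.l 4)) (.l 6)) (.l 6))))) (.l 6)) (.l 6))))
    [(218439352320, 7046430720), (118111600640, 23622320128), (240518168576, 34359738368), (893353197568, 68719476736)] rfl (by decide +kernel)
end
theorem c0_m23_t3 : CovD 0 progs [(218439352320, 7046430720), (118111600640, 23622320128), (171798691840, 34359738368), (841813590016, 17179869184)] :=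
  covD_split 3 (by decide +kernel) c0_m23_t1 c0_m23_t2
theorem c0_m23_t5 : CovD 0 progs [(218439352320, 7046430720), (118111600640, 23622320128), (171798691840, 34359738368), (858993459200, 34359738368)] :=
  covD_split 3 (by decide +kernel) c0_m23_t3 c0_m23_t4
theorem c0_m23_t7 : CovD 0 progs [(218439352320, 7046430720), (118111600640, 23622320128), (171798691840, 34359738368), (893353197568, 68719476736)] :=
  covD_split 3 (by decide +kernel) c0_m23_t5 c0_m23_t6
theorem c0_m23_t9 : CovD 0 progs [(218439352320, 7046430720), (118111600640, 23622320128), (206158430208, 68719476736), (893353197568, 68719476736)] :=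
  covD_split 2 (by decide +kernel) c0_m23_t7 c0_m23_t8
theorem c0_m23 : CovD 0 progs [(211392921600, 14092861440), (118111600640, 23622320128), (206158430208, 68719476736), (893353197568, 68719476736)] :=
  covD_split 0 (by decide +kernel) c0_m23_t0 c0_m23_t9

end Pool.Agent.helper71.FJ.Crt.QMa
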