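import Pool.Agent.helper71.FJ.Crt.QMaP

/-!
Generated certificates.
-/

namespace Pool.Agent.helper71.FJ.Crt.QMa

open Pool.Agent.helper31.IA (Z Op)
open Pool.Agent.helper31.IC

mutual
theorem c0_m24_t0 : CovD 0 progs [(204346490880, 7046430720), (165356240896, 23622320128), (171798691840, 34359738368), (893353197568, 68719476736)] :=
  Pool.Agent.helper14.QF.covD_F chks_eq (.l 6)
    [(204346490880, 7046430720), (165356240896, 23622320128), (171798691840, 34359738368), (893353197568, 68719476736)] rfl (by decide +kernel)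
theorem c0_m24_t1 : CovD 0 progs [(214916136960, 3523215360), (147639500800, 5905580032), (171798691840, 34359738368), (858993459200, 34359738368)] :=
  Pool.Agent.helper14.QF.covD_F chks_eq (.n 0 (.l 6) (.n 0 (.l 6) (.n 2 (.n 2 (.n 3 (.n 3 (.n 3 (.l 4) (.l 6)) (.l 6)) (.l 6)) (.l 6)) (.l 6))))
    [(214916136960, 3523215360), (147639500800, 5905580032), (171798691840, 34359738368), (858993459200, 34359738368)] rfl (by decide +kernel)
end
mutual
theorem c0_m24_t2 : CovD 0 progs [(219320156160, 880803840), (147639500800, 5905580032), (171798691840, 34359738368), (858993459200, 34359738368)] :=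
  Pool.Agent.helper14.QF.covD_F chks_eq (.n 3 (.n 3 (.n 3 (.l 4) (.n 0 (.l 4) (.l 4))) (.n 3 (.n 3 (.l 4) (.l 4)) (.l 4))) (.l 6))
    [(219320156160, 880803840), (147639500800, 5905580032), (171798691840, 34359738368), (858993459200, 34359738368)] rfl (by decide +kernel)
theorem c0_m24_t3 : CovD 0 progs [(221081763840, 880803840), (147639500800, 5905580032), (171798691840, 34359738368), (858993459200, 34359738368)] :=
  Pool.Agent.helper14.QF.covD_F chks_eq (.n 0 (.n 3 (.n 3 (.n 3 (.l 4) (.n 0 (.l 4) (.l 4))) (.n 3 (.n 0 (.l 4) (.l 4)) (.l 4))) (.l 6)) (.n 2 (.n 3 (.n 3 (.n 3 (.l 4) (.n 0 (.l 4) (.l 4))) (.n 3 (.l 4) (.l 4))) (.n 3 (.n 3 (.l 4) (.l 4)) (.l 6))) (.n 3 (.n 3 (.n 3 (.l 4) (.n 0 (.l 4) (.l 4))) (.n 3 (.l 4) (.l 4))) (.l 6))))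
    [(221081763840, 880803840), (147639500800, 5905580032), (171798691840, 34359738368), (858993459200, 34359738368)] rfl (by decide +kernel)
end
mutual
theorem c0_m24_t5 : CovD 0 progs [(222402969600, 440401920), (147639500800, 5905580032), (171798691840, 34359738368), (858993459200, 34359738368)] :=
  Pool.Agent.helper14.QF.covD_F chks_eq (.n 2 (.n 3 (.n 3 (.n 3 (.l 4) (.n 0 (.l 4) (.l 4))) (.n 3 (.l 4) (.l 4))) (.n 3 (.n 3 (.l 4) (.l 4)) (.l 6))) (.n 2 (.n 3 (.n 3 (.n 3 (.l 4) (.n 0 (.l 4) (.l 4))) (.n 3 (.l 4) (.l 4))) (.l 6)) (.n 3 (.n 3 (.n 3 (.l 4) (.n 0 (.l 4) (.l 4))) (.l 6)) (.l 6))))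
    [(222402969600, 440401920), (147639500800, 5905580032), (171798691840, 34359738368), (858993459200, 34359738368)] rfl (by decide +kernel)
theorem c0_m24_t6 : CovD 0 progs [(223283773440, 440401920), (147639500800, 5905580032), (171798691840, 34359738368), (858993459200, 34359738368)] :=
  Pool.Agent.helper14.QF.covD_F chks_eq (.n 2 (.n 3 (.n 3 (.n 3 (.l 4) (.n 0 (.l 4) (.l 4))) (.n 3 (.l 4) (.l 4))) (.n 3 (.n 3 (.l 4) (.l 4)) (.n 0 (.l 6) (.l 4)))) (.n 3 (.n 3 (.n 3 (.l 4) (.n 0 (.l 4) (.l 4))) (.n 3 (.l 4) (.l 4))) (.l 6)))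
    [(223283773440, 440401920), (147639500800, 5905580032), (171798691840, 34359738368), (858993459200, 34359738368)] rfl (by decide +kernel)
end
mutual
theorem c0_m24_t8 : CovD 0 progs [(224604979200, 880803840), (147639500800, 5905580032), (171798691840, 34359738368), (858993459200, 34359738368)] :=
  Pool.Agent.helper14.QF.covD_F chks_eq (.n 0 (.n 0 (.n 3 (.n 3 (.n 3 (.l 4) (.l 4)) (.n 3 (.l 4) (.l 4))) (.n 3 (.n 3 (.l 4) (.l 4)) (.l 4))) (.n 3 (.n 3 (.n 3 (.l 4) (.l 4)) (.n 3 (.l 4) (.l 4))) (.n 3 (.n 3 (.l 4) (.l 4)) (.l 4)))) (.n 3 (.n 3 (.n 3 (.n 0 (.l 4) (.l 4)) (.l 4)) (.n 3 (.l 4) (.l 4))) (.n 3 (.n 3 (.l 4) (.l 4)) (.l 4))))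
    [(224604979200, 880803840), (147639500800, 5905580032), (171798691840, 34359738368), (858993459200, 34359738368)] rfl (by decide +kernel)
theorem c0_m24_t12 : CovD 0 progs [(214916136960, 3523215360), (159450660864, 5905580032), (171798691840, 34359738368), (858993459200, 34359738368)] :=
  Pool.Agent.helper14.QF.covD_F chks_eq (.n 0 (.l 6) (.n 0 (.n 2 (.n 2 (.n 3 (.n 3 (.n 3 (.l 4) (.l 4)) (.l 6)) (.l 6)) (.l 6)) (.l 6)) (.n 2 (.n 3 (.n 3 (.n 3 (.l 4) (.n 0 (.l 4) (.l 4))) (.n 2 (.l 6) (.l 6))) (.l 6)) (.l 6))))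
    [(214916136960, 3523215360), (159450660864, 5905580032), (171798691840, 34359738368), (858993459200, 34359738368)] rfl (by decide +kernel)
end
mutual
theorem c0_m24_t13 : CovD 0 progs [(219320156160, 880803840), (159450660864, 5905580032), (171798691840, 34359738368), (858993459200, 34359738368)] :=
  Pool.Agent.helper14.QF.covD_F chks_eq (.n 2 (.n 3 (.n 3 (.n 3 (.l 4) (.n 0 (.l 4) (.l 4))) (.n 3 (.n 3 (.l 4) (.l 4)) (.l 4))) (.l 6)) (.n 3 (.n 3 (.n 3 (.l 4) (.n 0 (.l 4) (.l 4))) (.l 6)) (.l 6)))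
    [(219320156160, 880803840), (159450660864, 5905580032), (171798691840, 34359738368), (858993459200, 34359738368)] rfl (by decide +kernel)
theorem c0_m24_t14 : CovD 0 progs [(220641361920, 440401920), (159450660864, 5905580032), (171798691840, 34359738368), (858993459200, 34359738368)] :=
  Pool.Agent.helper14.QF.covD_F chks_eq (.n 2 (.n 3 (.n 3 (.n 3 (.l 4) (.n 0 (.l 4) (.l 4))) (.n 3 (.n 0 (.l 4) (.l 4)) (.l 4))) (.n 3 (.n 3 (.l 4) (.l 4)) (.l 6))) (.n 3 (.n 3 (.n 3 (.l 4) (.n 0 (.l 4) (.l 4))) (.n 3 (.n 0 (.l 4) (.l 4)) (.l 4))) (.l 6)))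
    [(220641361920, 440401920), (159450660864, 5905580032), (171798691840, 34359738368), (858993459200, 34359738368)] rfl (by decide +kernel)
end
mutual
theorem c0_m24_t15 : CovD 0 progs [(221522165760, 440401920), (159450660864, 5905580032), (171798691840, 34359738368), (858993459200, 34359738368)] :=
  Pool.Agent.helper14.QF.covD_F chks_eq (.n 2 (.n 3 (.n 3 (.n 3 (.l 4) (.n 0 (.l 4) (.l 4))) (.n 3 (.l 4) (.l 4))) (.n 3 (.n 3 (.l 4) (.l 4)) (.l 6))) (.n 2 (.n 3 (.n 3 (.n 3 (.l 4) (.n 0 (.l 4) (.l 4))) (.n 3 (.l 4) (.l 4))) (.l 6)) (.n 3 (.n 3 (.n 3 (.l 4) (.n 0 (.l 4) (.l 4))) (.n 3 (.l 4) (.l 4))) (.l 6))))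
    [(221522165760, 440401920), (159450660864, 5905580032), (171798691840, 34359738368), (858993459200, 34359738368)] rfl (by decide +kernel)
theorem c0_m24_t18 : CovD 0 progs [(222843371520, 880803840), (159450660864, 5905580032), (171798691840, 34359738368), (858993459200, 34359738368)] :=
  Pool.Agent.helper14.QF.covD_F chks_eq (.n 3 (.n 0 (.n 3 (.n 3 (.l 4) (.n 0 (.l 4) (.l 4))) (.n 3 (.l 4) (.l 4))) (.n 3 (.n 3 (.l 4) (.n 0 (.l 4) (.l 4))) (.n 3 (.l 4) (.l 4)))) (.n 3 (.n 3 (.n 0 (.l 4) (.l 4)) (.l 4)) (.n 3 (.l 4) (.l 4))))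
    [(222843371520, 880803840), (159450660864, 5905580032), (171798691840, 34359738368), (858993459200, 34359738368)] rfl (by decide +kernel)
end
mutual
theorem c0_m24_t19 : CovD 0 progs [(224604979200, 880803840), (159450660864, 5905580032), (171798691840, 34359738368), (858993459200, 34359738368)] :=
  Pool.Agent.helper14.QF.covD_F chks_eq (.n 0 (.n 0 (.n 3 (.n 3 (.n 3 (.l 4) (.l 4)) (.n 3 (.l 4) (.l 4))) (.n 3 (.n 3 (.l 4) (.l 4)) (.l 4))) (.n 3 (.n 3 (.n 3 (.l 4) (.l 4)) (.n 3 (.l 4) (.l 4))) (.n 3 (.n 3 (.l 4) (.l 4)) (.l 4)))) (.n 3 (.n 3 (.n 3 (.n 0 (.l 4) (.l 4)) (.l 4)) (.n 3 (.l 4) (.l 4))) (.n 3 (.n 3 (.l 4) (.l 4)) (.l 4))))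
    [(224604979200, 880803840), (159450660864, 5905580032), (171798691840, 34359738368), (858993459200, 34359738368)] rfl (by decide +kernel)
theorem c0_m24_t24 : CovD 0 progs [(218439352320, 7046430720), (153545080832, 11811160064), (171798691840, 34359738368), (927712935936, 34359738368)] :=
  Pool.Agent.helper14.QF.covD_F chks_eq (.n 0 (.l 6) (.n 0 (.l 6) (.n 3 (.n 3 (.l 4) (.l 4)) (.l 6))))
    [(218439352320, 7046430720), (153545080832, 11811160064), (171798691840, 34359738368), (927712935936, 34359738368)] rfl (by decide +kernel)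
end
mutual
theorem c0_m24_t26 : CovD 0 progs [(214916136960, 3523215360), (171261820928, 5905580032), (171798691840, 34359738368), (858993459200, 34359738368)] :=
  Pool.Agent.helper14.QF.covD_F chks_eq (.n 0 (.n 2 (.l 6) (.l 6)) (.n 0 (.n 2 (.n 3 (.n 3 (.n 3 (.l 4) (.l 4)) (.l 6)) (.l 6)) (.l 6)) (.n 3 (.n 3 (.n 3 (.l 4) (.n 0 (.l 4) (.l 4))) (.n 3 (.n 3 (.l 4) (.l 4)) (.n 3 (.l 4) (.l 4)))) (.l 6))))
    [(214916136960, 3523215360), (171261820928, 5905580032), (171798691840, 34359738368), (858993459200, 34359738368)] rfl (by decide +kernel)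
theorem c0_m24_t27 : CovD 0 progs [(219320156160, 880803840), (171261820928, 5905580032), (171798691840, 34359738368), (858993459200, 34359738368)] :=
  Pool.Agent.helper14.QF.covD_F chks_eq (.n 2 (.n 3 (.n 3 (.n 3 (.l 4) (.n 0 (.l 4) (.l 4))) (.n 3 (.n 3 (.l 4) (.l 4)) (.l 4))) (.n 3 (.n 0 (.n 3 (.l 4) (.l 4)) (.n 3 (.l 4) (.l 4))) (.l 6))) (.n 2 (.n 3 (.n 3 (.n 3 (.l 4) (.n 0 (.l 4) (.l 4))) (.n 3 (.n 3 (.l 4) (.l 4)) (.l 4))) (.l 6)) (.n 3 (.n 3 (.n 3 (.l 4) (.n 0 (.l 4) (.l 4))) (.l 6)) (.l 6))))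
    [(219320156160, 880803840), (171261820928, 5905580032), (171798691840, 34359738368), (858993459200, 34359738368)] rfl (by decide +kernel)
end
mutual
theorem c0_m24_t28 : CovD 0 progs [(220641361920, 440401920), (171261820928, 5905580032), (171798691840, 34359738368), (858993459200, 34359738368)] :=
  Pool.Agent.helper14.QF.covD_F chks_eq (.n 2 (.n 3 (.n 3 (.n 3 (.l 4) (.n 0 (.l 4) (.l 4))) (.n 3 (.n 0 (.l 4) (.l 4)) (.l 4))) (.n 3 (.n 3 (.l 4) (.l 4)) (.l 6))) (.n 0 (.n 3 (.n 3 (.n 3 (.l 4) (.l 4)) (.n 3 (.l 4) (.l 4))) (.l 6)) (.n 3 (.n 3 (.n 3 (.l 4) (.l 4)) (.n 3 (.l 4) (.l 4))) (.l 6))))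
    [(220641361920, 440401920), (171261820928, 5905580032), (171798691840, 34359738368), (858993459200, 34359738368)] rfl (by decide +kernel)
theorem c0_m24_t29 : CovD 0 progs [(221522165760, 440401920), (171261820928, 5905580032), (171798691840, 34359738368), (858993459200, 34359738368)] :=
  Pool.Agent.helper14.QF.covD_F chks_eq (.n 2 (.n 3 (.n 3 (.n 3 (.l 4) (.n 0 (.l 4) (.l 4))) (.n 3 (.l 4) (.l 4))) (.n 3 (.n 3 (.l 4) (.l 4)) (.n 3 (.l 4) (.l 4)))) (.n 3 (.n 3 (.n 3 (.l 4) (.n 0 (.l 4) (.l 4))) (.n 3 (.l 4) (.l 4))) (.n 3 (.n 3 (.l 4) (.l 4)) (.l 6))))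
    [(221522165760, 440401920), (171261820928, 5905580032), (171798691840, 34359738368), (858993459200, 34359738368)] rfl (by decide +kernel)
end
mutual
theorem c0_m24_t32 : CovD 0 progs [(222843371520, 880803840), (171261820928, 5905580032), (171798691840, 34359738368), (858993459200, 34359738368)] :=
  Pool.Agent.helper14.QF.covD_F chks_eq (.n 3 (.n 0 (.n 3 (.n 3 (.l 4) (.n 0 (.l 4) (.l 4))) (.n 3 (.l 4) (.l 4))) (.n 3 (.n 3 (.l 4) (.n 0 (.l 4) (.l 4))) (.n 3 (.l 4) (.l 4)))) (.n 3 (.n 3 (.n 0 (.l 4) (.l 4)) (.l 4)) (.n 3 (.l 4) (.l 4))))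
    [(222843371520, 880803840), (171261820928, 5905580032), (171798691840, 34359738368), (858993459200, 34359738368)] rfl (by decide +kernel)
theorem c0_m24_t33 : CovD 0 progs [(224604979200, 880803840), (171261820928, 5905580032), (171798691840, 34359738368), (858993459200, 34359738368)] :=
  Pool.Agent.helper14.QF.covD_F chks_eq (.n 0 (.n 0 (.n 3 (.n 3 (.n 3 (.l 4) (.l 4)) (.n 3 (.l 4) (.l 4))) (.n 3 (.n 3 (.l 4) (.l 4)) (.l 4))) (.n 3 (.n 3 (.n 3 (.l 4) (.l 4)) (.n 3 (.l 4) (.l 4))) (.n 3 (.n 3 (.l 4) (.l 4)) (.l 4)))) (.n 3 (.n 3 (.n 3 (.n 0 (.l 4) (.l 4)) (.l 4)) (.n 3 (.l 4) (.l 4))) (.n 3 (.n 3 (.l 4) (.l 4)) (.l 4))))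
    [(224604979200, 880803840), (171261820928, 5905580032), (171798691840, 34359738368), (858993459200, 34359738368)] rfl (by decide +kernel)
end
mutual
theorem c0_m24_t37 : CovD 0 progs [(213154529280, 1761607680), (183072980992, 5905580032), (171798691840, 34359738368), (858993459200, 34359738368)] :=
  Pool.Agent.helper14.QF.covD_F chks_eq (.n 2 (.n 3 (.n 3 (.n 3 (.l 4) (.l 6)) (.l 6)) (.l 6)) (.l 6))
    [(213154529280, 1761607680), (183072980992, 5905580032), (171798691840, 34359738368), (858993459200, 34359738368)] rfl (by decide +kernel)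
theorem c0_m24_t38 : CovD 0 progs [(215796940800, 880803840), (183072980992, 5905580032), (171798691840, 34359738368), (858993459200, 34359738368)] :=
  Pool.Agent.helper14.QF.covD_F chks_eq (.n 3 (.n 3 (.n 3 (.l 4) (.l 4)) (.n 3 (.n 0 (.l 4) (.l 4)) (.n 2 (.l 6) (.l 6)))) (.l 6))
    [(215796940800, 880803840), (183072980992, 5905580032), (171798691840, 34359738368), (858993459200, 34359738368)] rfl (by decide +kernel)
end
mutual
theorem c0_m24_t39 : CovD 0 progs [(217118146560, 440401920), (183072980992, 5905580032), (171798691840, 34359738368), (858993459200, 34359738368)] :=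
  Pool.Agent.helper14.QF.covD_F chks_eq (.n 0 (.n 3 (.n 3 (.n 3 (.l 4) (.l 4)) (.n 3 (.l 4) (.l 4))) (.l 6)) (.n 2 (.n 3 (.n 3 (.n 3 (.l 4) (.l 4)) (.n 3 (.l 4) (.l 4))) (.l 6)) (.n 3 (.n 3 (.n 3 (.l 4) (.l 4)) (.l 6)) (.l 6))))
    [(217118146560, 440401920), (183072980992, 5905580032), (171798691840, 34359738368), (858993459200, 34359738368)] rfl (by decide +kernel)
theorem c0_m24_t40 : CovD 0 progs [(217998950400, 440401920), (183072980992, 5905580032), (171798691840, 34359738368), (858993459200, 34359738368)] :=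
  Pool.Agent.helper14.QF.covD_F chks_eq (.n 2 (.n 3 (.n 3 (.n 3 (.l 4) (.l 4)) (.n 3 (.n 0 (.l 4) (.l 4)) (.l 4))) (.n 3 (.n 3 (.l 4) (.l 6)) (.l 6))) (.n 3 (.n 3 (.n 3 (.l 4) (.l 4)) (.n 3 (.n 0 (.l 4) (.l 4)) (.l 4))) (.l 6)))
    [(217998950400, 440401920), (183072980992, 5905580032), (171798691840, 34359738368), (858993459200, 34359738368)] rfl (by decide +kernel)
end
mutual
theorem c0_m24_t44 : CovD 0 progs [(220200960000, 1761607680), (183072980992, 5905580032), (171798691840, 34359738368), (841813590016, 17179869184)] :=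
  Pool.Agent.helper14.QF.covD_F chks_eq (.n 0 (.n 3 (.n 3 (.l 4) (.n 0 (.l 4) (.l 4))) (.n 3 (.n 3 (.l 4) (.l 4)) (.l 4))) (.n 0 (.n 3 (.n 3 (.l 4) (.n 0 (.l 4) (.l 4))) (.n 3 (.n 0 (.l 4) (.l 4)) (.l 4))) (.n 3 (.n 3 (.l 4) (.n 0 (.l 4) (.l 4))) (.n 3 (.l 4) (.l 4)))))
    [(220200960000, 1761607680), (183072980992, 5905580032), (171798691840, 34359738368), (841813590016, 17179869184)] rfl (by decide +kernel)
theorem c0_m24_t45 : CovD 0 progs [(223724175360, 1761607680), (183072980992, 5905580032), (171798691840, 34359738368), (841813590016, 17179869184)] :=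
  Pool.Agent.helper14.QF.covD_F chks_eq (.n 0 (.n 0 (.n 3 (.n 3 (.l 4) (.n 0 (.l 4) (.l 4))) (.n 3 (.l 4) (.l 4))) (.n 3 (.n 3 (.l 4) (.n 0 (.l 4) (.l 4))) (.n 3 (.l 4) (.l 4)))) (.n 3 (.n 3 (.n 3 (.l 4) (.l 4)) (.n 0 (.l 4) (.l 4))) (.n 3 (.l 4) (.n 0 (.l 4) (.l 4)))))
    [(223724175360, 1761607680), (183072980992, 5905580032), (171798691840, 34359738368), (841813590016, 17179869184)] rfl (by decide +kernel)
end
mutual
theorem c0_m24_t47 : CovD 0 progs [(221962567680, 3523215360), (183072980992, 5905580032), (171798691840, 34359738368), (876173328384, 17179869184)] :=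
  Pool.Agent.helper14.QF.covD_F chks_eq (.n 3 (.n 3 (.n 3 (.n 0 (.n 0 (.l 4) (.l 4)) (.n 0 (.l 4) (.l 4))) (.n 0 (.n 0 (.l 4) (.l 4)) (.n 0 (.l 4) (.l 4)))) (.n 0 (.n 0 (.n 0 (.l 4) (.l 4)) (.n 0 (.l 4) (.l 4))) (.n 0 (.l 4) (.l 4)))) (.n 0 (.n 3 (.n 0 (.l 4) (.l 4)) (.l 4)) (.n 3 (.l 4) (.l 4))))
    [(221962567680, 3523215360), (183072980992, 5905580032), (171798691840, 34359738368), (876173328384, 17179869184)] rfl (by decide +kernel)
theorem c0_m24_t51 : CovD 0 progs [(218439352320, 7046430720), (177167400960, 11811160064), (171798691840, 34359738368), (927712935936, 34359738368)] :=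
  Pool.Agent.helper14.QF.covD_F chks_eq (.n 0 (.l 6) (.n 0 (.n 2 (.n 3 (.l 6) (.l 6)) (.l 6)) (.n 3 (.n 3 (.l 4) (.l 4)) (.l 6))))
    [(218439352320, 7046430720), (177167400960, 11811160064), (171798691840, 34359738368), (927712935936, 34359738368)] rfl (by decide +kernel)
end
theorem c0_m24_t4 : CovD 0 progs [(220200960000, 1761607680), (147639500800, 5905580032), (171798691840, 34359738368), (858993459200, 34359738368)] :=
  covD_split 0 (by decide +kernel) c0_m24_t2 c0_m24_t3
theorem c0_m24_t7 : CovD 0 progs [(222843371520, 880803840), (147639500800, 5905580032), (171798691840, 34359738368), (858993459200, 34359738368)] :=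
  covD_split 0 (by decide +kernel) c0_m24_t5 c0_m24_t6
theorem c0_m24_t9 : CovD 0 progs [(223724175360, 1761607680), (147639500800, 5905580032), (171798691840, 34359738368), (858993459200, 34359738368)] :=
  covD_split 0 (by decide +kernel) c0_m24_t7 c0_m24_t8
theorem c0_m24_t10 : CovD 0 progs [(221962567680, 3523215360), (147639500800, 5905580032), (171798691840, 34359738368), (858993459200, 34359738368)] :=
  covD_split 0 (by decide +kernel) c0_m24_t4 c0_m24_t9
theorem c0_m24_t11 : CovD 0 progs [(218439352320, 7046430720), (147639500800, 5905580032), (171798691840, 34359738368), (858993459200, 34359738368)] :=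
  covD_split 0 (by decide +kernel) c0_m24_t1 c0_m24_t10
theorem c0_m24_t16 : CovD 0 progs [(221081763840, 880803840), (159450660864, 5905580032), (171798691840, 34359738368), (858993459200, 34359738368)] :=
  covD_split 0 (by decide +kernel) c0_m24_t14 c0_m24_t15
theorem c0_m24_t17 : CovD 0 progs [(220200960000, 1761607680), (159450660864, 5905580032), (171798691840, 34359738368), (858993459200, 34359738368)] :=
  covD_split 0 (by decide +kernel) c0_m24_t13 c0_m24_t16
theorem c0_m24_t20 : CovD 0 progs [(223724175360, 1761607680), (159450660864, 5905580032), (171798691840, 34359738368), (858993459200, 34359738368)] :=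
  covD_split 0 (by decide +kernel) c0_m24_t18 c0_m24_t19
theorem c0_m24_t21 : CovD 0 progs [(221962567680, 3523215360), (159450660864, 5905580032), (171798691840, 34359738368), (858993459200, 34359738368)] :=
  covD_split 0 (by decide +kernel) c0_m24_t17 c0_m24_t20
theorem c0_m24_t22 : CovD 0 progs [(218439352320, 7046430720), (159450660864, 5905580032), (171798691840, 34359738368), (858993459200, 34359738368)] :=
  covD_split 0 (by decide +kernel) c0_m24_t12 c0_m24_t21
theorem c0_m24_t23 : CovD 0 progs [(218439352320, 7046430720), (153545080832, 11811160064), (171798691840, 34359738368), (858993459200, 34359738368)] :=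
  covD_split 1 (by decide +kernel) c0_m24_t11 c0_m24_t22
theorem c0_m24_t25 : CovD 0 progs [(218439352320, 7046430720), (153545080832, 11811160064), (171798691840, 34359738368), (893353197568, 68719476736)] :=
  covD_split 3 (by decide +kernel) c0_m24_t23 c0_m24_t24
theorem c0_m24_t30 : CovD 0 progs [(221081763840, 880803840), (171261820928, 5905580032), (171798691840, 34359738368), (858993459200, 34359738368)] :=
  covD_split 0 (by decide +kernel) c0_m24_t28 c0_m24_t29
theorem c0_m24_t31 : CovD 0 progs [(220200960000, 1761607680), (171261820928, 5905580032), (171798691840, 34359738368), (858993459200, 34359738368)] :=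
  covD_split 0 (by decide +kernel) c0_m24_t27 c0_m24_t30
theorem c0_m24_t34 : CovD 0 progs [(223724175360, 1761607680), (171261820928, 5905580032), (171798691840, 34359738368), (858993459200, 34359738368)] :=
  covD_split 0 (by decide +kernel) c0_m24_t32 c0_m24_t33
theorem c0_m24_t35 : CovD 0 progs [(221962567680, 3523215360), (171261820928, 5905580032), (171798691840, 34359738368), (858993459200, 34359738368)] :=
  covD_split 0 (by decide +kernel) c0_m24_t31 c0_m24_t34
theorem c0_m24_t36 : CovD 0 progs [(218439352320, 7046430720), (171261820928, 5905580032), (171798691840, 34359738368), (858993459200, 34359738368)] :=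
  covD_split 0 (by decide +kernel) c0_m24_t26 c0_m24_t35
theorem c0_m24_t41 : CovD 0 progs [(217558548480, 880803840), (183072980992, 5905580032), (171798691840, 34359738368), (858993459200, 34359738368)] :=
  covD_split 0 (by decide +kernel) c0_m24_t39 c0_m24_t40
theorem c0_m24_t42 : CovD 0 progs [(216677744640, 1761607680), (183072980992, 5905580032), (171798691840, 34359738368), (858993459200, 34359738368)] :=
  covD_split 0 (by decide +kernel) c0_m24_t38 c0_m24_t41
theorem c0_m24_t43 : CovD 0 progs [(214916136960, 3523215360), (183072980992, 5905580032), (171798691840, 34359738368), (858993459200, 34359738368)] :=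
  covD_split 0 (by decide +kernel) c0_m24_t37 c0_m24_t42
theorem c0_m24_t46 : CovD 0 progs [(221962567680, 3523215360), (183072980992, 5905580032), (171798691840, 34359738368), (841813590016, 17179869184)] :=
  covD_split 0 (by decide +kernel) c0_m24_t44 c0_m24_t45
theorem c0_m24_t48 : CovD 0 progs [(221962567680, 3523215360), (183072980992, 5905580032), (171798691840, 34359738368), (858993459200, 34359738368)] :=
  covD_split 3 (by decide +kernel) c0_m24_t46 c0_m24_t47
theorem c0_m24_t49 : CovD 0 progs [(218439352320, 7046430720), (183072980992, 5905580032), (171798691840, 34359738368), (858993459200, 34359738368)] :=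
  covD_split 0 (by decide +kernel) c0_m24_t43 c0_m24_t48
theorem c0_m24_t50 : CovD 0 progs [(218439352320, 7046430720), (177167400960, 11811160064), (171798691840, 34359738368), (858993459200, 34359738368)] :=
  covD_split 1 (by decide +kernel) c0_m24_t36 c0_m24_t49
theorem c0_m24_t52 : CovD 0 progs [(218439352320, 7046430720), (177167400960, 11811160064), (171798691840, 34359738368), (893353197568, 68719476736)] :=
  covD_split 3 (by decide +kernel) c0_m24_t50 c0_m24_t51
theorem c0_m24_t53 : CovD 0 progs [(218439352320, 7046430720), (165356240896, 23622320128), (171798691840, 34359738368), (893353197568, 68719476736)] :=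
  covD_split 1 (by decide +kernel) c0_m24_t25 c0_m24_t52
theorem c0_m24 : CovD 0 progs [(211392921600, 14092861440), (165356240896, 23622320128), (171798691840, 34359738368), (893353197568, 68719476736)] :=
  covD_split 0 (by decide +kernel) c0_m24_t0 c0_m24_t53

end Pool.Agent.helper71.FJ.Crt.QMa
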