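import Pool.Agent.helper71.FJ.Crt.QMaP

/-!
Generated certificates.
-/

namespace Pool.Agent.helper71.FJ.Crt.QMa

open Pool.Agent.helper31.IA (Z Op)
open Pool.Agent.helper31.IC

mutual
theorem c0_m25_t0 : CovD 0 progs [(204346490880, 7046430720), (165356240896, 23622320128), (240518168576, 34359738368), (893353197568, 68719476736)] :=
  Pool.Agent.helper14.QF.covD_F chks_eq (.l 6)
    [(204346490880, 7046430720), (165356240896, 23622320128), (240518168576, 34359738368), (893353197568, 68719476736)] rfl (by decide +kernel)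
theorem c0_m25_t1 : CovD 0 progs [(214916136960, 3523215360), (165356240896, 23622320128), (240518168576, 34359738368), (893353197568, 68719476736)] :=
  Pool.Agent.helper14.QF.covD_F chks_eq (.n 2 (.n 3 (.n 3 (.l 6) (.l 6)) (.l 6)) (.l 6))
    [(214916136960, 3523215360), (165356240896, 23622320128), (240518168576, 34359738368), (893353197568, 68719476736)] rfl (by decide +kernel)
end
mutual
theorem c0_m25_t2 : CovD 0 progs [(219320156160, 880803840), (165356240896, 23622320128), (240518168576, 34359738368), (893353197568, 68719476736)] :=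
  Pool.Agent.helper14.QF.covD_F chks_eq (.n 2 (.n 1 (.l 6) (.n 3 (.n 3 (.n 3 (.n 3 (.l 4) (.n 0 (.l 4) (.l 4))) (.l 6)) (.l 6)) (.l 6))) (.l 6))
    [(219320156160, 880803840), (165356240896, 23622320128), (240518168576, 34359738368), (893353197568, 68719476736)] rfl (by decide +kernel)
theorem c0_m25_t3 : CovD 0 progs [(220641361920, 440401920), (165356240896, 23622320128), (240518168576, 34359738368), (893353197568, 68719476736)] :=
  Pool.Agent.helper14.QF.covD_F chks_eq (.n 3 (.n 2 (.n 3 (.n 3 (.n 0 (.n 3 (.l 4) (.l 4)) (.n 3 (.l 4) (.l 4))) (.n 0 (.n 3 (.l 4) (.l 4)) (.n 3 (.l 4) (.l 4)))) (.l 6)) (.l 6)) (.l 6))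
    [(220641361920, 440401920), (165356240896, 23622320128), (240518168576, 34359738368), (893353197568, 68719476736)] rfl (by decide +kernel)
end
mutual
theorem c0_m25_t4 : CovD 0 progs [(221522165760, 440401920), (165356240896, 23622320128), (223338299392, 17179869184), (893353197568, 68719476736)] :=
  Pool.Agent.helper14.QF.covD_F chks_eq (.n 2 (.n 2 (.n 3 (.n 3 (.n 3 (.n 0 (.n 3 (.l 4) (.l 4)) (.n 3 (.l 4) (.l 4))) (.n 3 (.l 4) (.l 4))) (.l 6)) (.l 6)) (.n 3 (.n 3 (.n 3 (.n 0 (.n 3 (.l 4) (.l 4)) (.n 3 (.l 4) (.l 4))) (.n 3 (.l 4) (.l 4))) (.l 6)) (.l 6))) (.n 3 (.n 1 (.l 6) (.n 3 (.n 3 (.n 3 (.l 4) (.n 0 (.l 4) (.l 4))) (.l 6)) (.l 6))) (.l 6)))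
    [(221522165760, 440401920), (165356240896, 23622320128), (223338299392, 17179869184), (893353197568, 68719476736)] rfl (by decide +kernel)
theorem c0_m25_t5 : CovD 0 progs [(221522165760, 440401920), (165356240896, 23622320128), (257698037760, 17179869184), (893353197568, 68719476736)] :=
  Pool.Agent.helper14.QF.covD_F chks_eq (.n 2 (.n 3 (.n 2 (.n 3 (.n 3 (.n 3 (.l 4) (.l 6)) (.l 6)) (.l 6)) (.l 6)) (.l 6)) (.l 6))
    [(221522165760, 440401920), (165356240896, 23622320128), (257698037760, 17179869184), (893353197568, 68719476736)] rfl (by decide +kernel)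
end
mutual
theorem c0_m25_t9 : CovD 0 progs [(222402969600, 440401920), (153545080832, 11811160064), (240518168576, 34359738368), (893353197568, 68719476736)] :=
  Pool.Agent.helper14.QF.covD_F chks_eq (.n 2 (.n 3 (.n 3 (.n 3 (.n 3 (.l 4) (.n 0 (.l 4) (.l 4))) (.l 6)) (.l 6)) (.l 6)) (.l 6))
    [(222402969600, 440401920), (153545080832, 11811160064), (240518168576, 34359738368), (893353197568, 68719476736)] rfl (by decide +kernel)
theorem c0_m25_t10 : CovD 0 progs [(222402969600, 440401920), (177167400960, 11811160064), (240518168576, 34359738368), (893353197568, 68719476736)] :=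
  Pool.Agent.helper14.QF.covD_F chks_eq (.n 3 (.n 1 (.n 3 (.n 3 (.n 3 (.l 4) (.n 0 (.l 4) (.l 4))) (.n 3 (.l 4) (.l 4))) (.l 6)) (.n 2 (.n 3 (.n 3 (.n 3 (.l 4) (.n 0 (.l 4) (.l 4))) (.n 3 (.l 4) (.l 4))) (.n 3 (.n 3 (.l 4) (.l 4)) (.l 6))) (.n 2 (.n 3 (.n 3 (.n 3 (.l 4) (.n 0 (.l 4) (.l 4))) (.l 6)) (.l 6)) (.l 6)))) (.l 6))
    [(222402969600, 440401920), (177167400960, 11811160064), (240518168576, 34359738368), (893353197568, 68719476736)] rfl (by decide +kernel)
end
mutual
theorem c0_m25_t12 : CovD 0 progs [(223283773440, 440401920), (165356240896, 23622320128), (223338299392, 17179869184), (893353197568, 68719476736)] :=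
  Pool.Agent.helper14.QF.covD_F chks_eq (.n 2 (.n 3 (.n 3 (.n 3 (.n 0 (.n 3 (.l 4) (.l 4)) (.n 3 (.l 4) (.l 4))) (.n 3 (.l 4) (.l 4))) (.n 3 (.n 3 (.l 4) (.l 4)) (.l 6))) (.l 6)) (.n 3 (.n 3 (.n 3 (.n 0 (.n 3 (.l 4) (.l 4)) (.n 3 (.l 4) (.l 4))) (.n 3 (.l 4) (.l 4))) (.l 6)) (.l 6)))
    [(223283773440, 440401920), (165356240896, 23622320128), (223338299392, 17179869184), (893353197568, 68719476736)] rfl (by decide +kernel)
theorem c0_m25_t13 : CovD 0 progs [(223283773440, 440401920), (165356240896, 23622320128), (257698037760, 17179869184), (893353197568, 68719476736)] :=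
  Pool.Agent.helper14.QF.covD_F chks_eq (.n 3 (.n 1 (.l 6) (.n 3 (.n 3 (.n 3 (.l 4) (.n 0 (.l 4) (.l 4))) (.n 3 (.l 4) (.l 4))) (.l 6))) (.l 6))
    [(223283773440, 440401920), (165356240896, 23622320128), (257698037760, 17179869184), (893353197568, 68719476736)] rfl (by decide +kernel)
end
mutual
theorem c0_m25_t16 : CovD 0 progs [(224164577280, 440401920), (165356240896, 23622320128), (223338299392, 17179869184), (893353197568, 68719476736)] :=
  Pool.Agent.helper14.QF.covD_F chks_eq (.n 3 (.n 3 (.n 3 (.n 0 (.n 3 (.l 4) (.l 4)) (.n 3 (.l 4) (.l 4))) (.n 3 (.l 4) (.l 4))) (.n 3 (.n 3 (.l 4) (.l 4)) (.n 0 (.l 4) (.l 4)))) (.l 6))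
    [(224164577280, 440401920), (165356240896, 23622320128), (223338299392, 17179869184), (893353197568, 68719476736)] rfl (by decide +kernel)
theorem c0_m25_t17 : CovD 0 progs [(224164577280, 440401920), (165356240896, 23622320128), (257698037760, 17179869184), (893353197568, 68719476736)] :=
  Pool.Agent.helper14.QF.covD_F chks_eq (.n 2 (.n 3 (.n 2 (.n 3 (.n 3 (.n 3 (.n 0 (.l 4) (.l 4)) (.l 4)) (.n 3 (.l 4) (.l 4))) (.l 6)) (.n 1 (.l 6) (.n 3 (.n 3 (.n 3 (.l 4) (.l 4)) (.n 3 (.l 4) (.l 4))) (.l 6)))) (.l 6)) (.n 1 (.l 6) (.n 3 (.n 3 (.n 3 (.n 3 (.l 4) (.l 4)) (.l 6)) (.l 6)) (.l 6))))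
    [(224164577280, 440401920), (165356240896, 23622320128), (257698037760, 17179869184), (893353197568, 68719476736)] rfl (by decide +kernel)
theorem c0_m25_t19 : CovD 0 progs [(225045381120, 440401920), (165356240896, 23622320128), (240518168576, 34359738368), (893353197568, 68719476736)] :=
  Pool.Agent.helper14.QF.covD_F chks_eq (.n 3 (.n 3 (.n 3 (.n 0 (.n 3 (.l 4) (.l 4)) (.n 3 (.l 4) (.l 4))) (.n 3 (.l 4) (.l 4))) (.n 3 (.n 3 (.l 4) (.l 4)) (.l 4))) (.l 6))
    [(225045381120, 440401920), (165356240896, 23622320128), (240518168576, 34359738368), (893353197568, 68719476736)] rfl (by decide +kernel)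
end
theorem c0_m25_t6 : CovD 0 progs [(221522165760, 440401920), (165356240896, 23622320128), (240518168576, 34359738368), (893353197568, 68719476736)] :=
  covD_split 2 (by decide +kernel) c0_m25_t4 c0_m25_t5
theorem c0_m25_t7 : CovD 0 progs [(221081763840, 880803840), (165356240896, 23622320128), (240518168576, 34359738368), (893353197568, 68719476736)] :=
  covD_split 0 (by decide +kernel) c0_m25_t3 c0_m25_t6
theorem c0_m25_t8 : CovD 0 progs [(220200960000, 1761607680), (165356240896, 23622320128), (240518168576, 34359738368), (893353197568, 68719476736)] :=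
  covD_split 0 (by decide +kernel) c0_m25_t2 c0_m25_t7
theorem c0_m25_t11 : CovD 0 progs [(222402969600, 440401920), (165356240896, 23622320128), (240518168576, 34359738368), (893353197568, 68719476736)] :=
  covD_split 1 (by decide +kernel) c0_m25_t9 c0_m25_t10
theorem c0_m25_t14 : CovD 0 progs [(223283773440, 440401920), (165356240896, 23622320128), (240518168576, 34359738368), (893353197568, 68719476736)] :=
  covD_split 2 (by decide +kernel) c0_m25_t12 c0_m25_t13
theorem c0_m25_t15 : CovD 0 progs [(222843371520, 880803840), (165356240896, 23622320128), (240518168576, 34359738368), (893353197568, 68719476736)] :=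
  covD_split 0 (by decide +kernel) c0_m25_t11 c0_m25_t14
theorem c0_m25_t18 : CovD 0 progs [(224164577280, 440401920), (165356240896, 23622320128), (240518168576, 34359738368), (893353197568, 68719476736)] :=
  covD_split 2 (by decide +kernel) c0_m25_t16 c0_m25_t17
theorem c0_m25_t20 : CovD 0 progs [(224604979200, 880803840), (165356240896, 23622320128), (240518168576, 34359738368), (893353197568, 68719476736)] :=
  covD_split 0 (by decide +kernel) c0_m25_t18 c0_m25_t19
theorem c0_m25_t21 : CovD 0 progs [(223724175360, 1761607680), (165356240896, 23622320128), (240518168576, 34359738368), (893353197568, 68719476736)] :=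
  covD_split 0 (by decide +kernel) c0_m25_t15 c0_m25_t20
theorem c0_m25_t22 : CovD 0 progs [(221962567680, 3523215360), (165356240896, 23622320128), (240518168576, 34359738368), (893353197568, 68719476736)] :=
  covD_split 0 (by decide +kernel) c0_m25_t8 c0_m25_t21
theorem c0_m25_t23 : CovD 0 progs [(218439352320, 7046430720), (165356240896, 23622320128), (240518168576, 34359738368), (893353197568, 68719476736)] :=
  covD_split 0 (by decide +kernel) c0_m25_t1 c0_m25_t22
theorem c0_m25 : CovD 0 progs [(211392921600, 14092861440), (165356240896, 23622320128), (240518168576, 34359738368), (893353197568, 68719476736)] :=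
  covD_split 0 (by decide +kernel) c0_m25_t0 c0_m25_t23

end Pool.Agent.helper71.FJ.Crt.QMa
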