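import Pool.Agent.helper71.FJ.Crt.QMaP

/-!
Generated certificates.
-/

namespace Pool.Agent.helper71.FJ.Crt.QMa

open Pool.Agent.helper31.IA (Z Op)
open Pool.Agent.helper31.IC

mutual
theorem c0_m3_t0 : CovD 0 progs [(183207198720, 14092861440), (94489280512, 94489280512), (343597383680, 68719476736), (274877906944, 274877906944)] :=
  Pool.Agent.helper14.QF.covD_F chks_eq (.n 3 (.l 12) (.n 3 (.l 12) (.n 1 (.l 6) (.n 1 (.l 6) (.l 12)))))
    [(183207198720, 14092861440), (94489280512, 94489280512), (343597383680, 68719476736), (274877906944, 274877906944)] rfl (by decide +kernel)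
theorem c0_m3_t1 : CovD 0 progs [(200823275520, 3523215360), (94489280512, 94489280512), (343597383680, 68719476736), (274877906944, 274877906944)] :=
  Pool.Agent.helper14.QF.covD_F chks_eq (.n 0 (.n 3 (.l 12) (.n 1 (.n 1 (.l 6) (.n 3 (.l 12) (.l 6))) (.n 3 (.l 12) (.n 3 (.l 12) (.n 1 (.l 6) (.n 3 (.l 12) (.l 10))))))) (.n 1 (.n 3 (.l 12) (.n 2 (.n 3 (.n 3 (.l 12) (.n 1 (.l 6) (.n 1 (.l 6) (.l 12)))) (.l 6)) (.l 6))) (.n 3 (.l 12) (.n 3 (.l 12) (.n 3 (.n 3 (.l 12) (.n 0 (.l 10) (.l 10))) (.n 3 (.l 10) (.l 4)))))))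
    [(200823275520, 3523215360), (94489280512, 94489280512), (343597383680, 68719476736), (274877906944, 274877906944)] rfl (by decide +kernel)
end
mutual
theorem c0_m3_t2 : CovD 0 progs [(206108098560, 1761607680), (94489280512, 94489280512), (343597383680, 68719476736), (274877906944, 274877906944)] :=
  Pool.Agent.helper14.QF.covD_F chks_eq (.n 3 (.l 12) (.n 3 (.n 0 (.n 1 (.n 2 (.n 3 (.n 0 (.l 12) (.n 3 (.l 10) (.l 10))) (.n 3 (.l 10) (.l 10))) (.l 6)) (.l 12)) (.n 3 (.n 3 (.l 12) (.l 10)) (.n 3 (.l 10) (.l 10)))) (.n 3 (.n 0 (.n 3 (.l 10) (.l 10)) (.n 3 (.l 10) (.l 10))) (.n 3 (.l 10) (.l 4)))))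
    [(206108098560, 1761607680), (94489280512, 94489280512), (343597383680, 68719476736), (274877906944, 274877906944)] rfl (by decide +kernel)
theorem c0_m3_t3 : CovD 0 progs [(209631313920, 1761607680), (94489280512, 94489280512), (343597383680, 68719476736), (274877906944, 274877906944)] :=
  Pool.Agent.helper14.QF.covD_F chks_eq (.n 0 (.n 3 (.l 12) (.n 3 (.n 3 (.n 3 (.l 10) (.l 10)) (.n 3 (.l 10) (.l 10))) (.n 3 (.n 0 (.l 10) (.l 10)) (.l 10)))) (.n 0 (.n 3 (.l 12) (.n 3 (.n 3 (.n 0 (.l 10) (.l 10)) (.l 10)) (.n 3 (.l 10) (.l 10)))) (.n 3 (.n 1 (.n 1 (.n 3 (.l 12) (.n 3 (.l 10) (.l 10))) (.l 12)) (.l 12)) (.n 3 (.n 3 (.l 10) (.l 10)) (.n 3 (.l 10) (.l 4))))))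
    [(209631313920, 1761607680), (94489280512, 94489280512), (343597383680, 68719476736), (274877906944, 274877906944)] rfl (by decide +kernel)
end
mutual
theorem c0_m3_t6 : CovD 0 progs [(212273725440, 880803840), (94489280512, 94489280512), (343597383680, 68719476736), (274877906944, 274877906944)] :=
  Pool.Agent.helper14.QF.covD_F chks_eq (.n 1 (.n 3 (.n 0 (.n 3 (.l 12) (.n 3 (.l 10) (.l 10))) (.n 3 (.l 12) (.n 3 (.l 10) (.l 10)))) (.n 3 (.n 3 (.n 0 (.l 10) (.l 10)) (.l 10)) (.n 3 (.l 10) (.l 4)))) (.n 3 (.l 12) (.n 3 (.n 3 (.l 12) (.l 10)) (.n 3 (.l 10) (.l 4)))))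
    [(212273725440, 880803840), (94489280512, 94489280512), (343597383680, 68719476736), (274877906944, 274877906944)] rfl (by decide +kernel)
theorem c0_m3_t7 : CovD 0 progs [(214035333120, 880803840), (94489280512, 94489280512), (343597383680, 68719476736), (274877906944, 274877906944)] :=
  Pool.Agent.helper14.QF.covD_F chks_eq (.n 1 (.n 3 (.n 3 (.l 12) (.n 3 (.l 10) (.l 10))) (.n 3 (.n 3 (.l 10) (.l 10)) (.n 3 (.l 4) (.l 4)))) (.n 3 (.l 12) (.n 3 (.n 3 (.l 10) (.l 10)) (.n 3 (.l 10) (.l 4)))))
    [(214035333120, 880803840), (94489280512, 94489280512), (343597383680, 68719476736), (274877906944, 274877906944)] rfl (by decide +kernel)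
end
mutual
theorem c0_m3_t9 : CovD 0 progs [(216677744640, 1761607680), (94489280512, 94489280512), (343597383680, 68719476736), (274877906944, 274877906944)] :=
  Pool.Agent.helper14.QF.covD_F chks_eq (.n 0 (.n 1 (.n 3 (.n 3 (.l 12) (.n 3 (.l 10) (.l 10))) (.n 3 (.n 3 (.l 10) (.l 10)) (.n 3 (.l 4) (.l 4)))) (.n 3 (.l 12) (.n 3 (.n 3 (.l 10) (.l 10)) (.n 3 (.l 10) (.l 4))))) (.n 1 (.n 3 (.n 3 (.l 10) (.n 3 (.l 10) (.l 10))) (.n 3 (.n 3 (.l 10) (.l 10)) (.n 3 (.l 4) (.l 4)))) (.n 3 (.l 12) (.n 3 (.n 3 (.l 10) (.l 10)) (.n 3 (.l 10) (.l 4))))))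
    [(216677744640, 1761607680), (94489280512, 94489280512), (343597383680, 68719476736), (274877906944, 274877906944)] rfl (by decide +kernel)
theorem c0_m3_t11 : CovD 0 progs [(221962567680, 3523215360), (94489280512, 94489280512), (343597383680, 68719476736), (274877906944, 274877906944)] :=
  Pool.Agent.helper14.QF.covD_F chks_eq (.n 0 (.n 1 (.n 3 (.n 3 (.n 0 (.l 10) (.l 10)) (.n 3 (.l 10) (.l 10))) (.n 3 (.n 3 (.l 10) (.l 10)) (.n 3 (.l 4) (.l 4)))) (.n 3 (.n 3 (.l 12) (.n 3 (.l 10) (.l 10))) (.n 3 (.n 3 (.l 10) (.l 10)) (.n 3 (.l 10) (.l 4))))) (.n 3 (.n 3 (.l 10) (.n 3 (.l 10) (.l 10))) (.n 3 (.n 3 (.l 10) (.l 10)) (.n 3 (.l 10) (.l 4)))))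
    [(221962567680, 3523215360), (94489280512, 94489280512), (343597383680, 68719476736), (274877906944, 274877906944)] rfl (by decide +kernel)
end
mutual
theorem c0_m3_t15 : CovD 0 progs [(183207198720, 14092861440), (47244640256, 47244640256), (481036337152, 68719476736), (274877906944, 274877906944)] :=
  Pool.Agent.helper14.QF.covD_F chks_eq (.n 3 (.l 12) (.l 6))
    [(183207198720, 14092861440), (47244640256, 47244640256), (481036337152, 68719476736), (274877906944, 274877906944)] rfl (by decide +kernel)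
theorem c0_m3_t16 : CovD 0 progs [(204346490880, 7046430720), (47244640256, 47244640256), (481036337152, 68719476736), (274877906944, 274877906944)] :=
  Pool.Agent.helper14.QF.covD_F chks_eq (.n 3 (.n 1 (.n 3 (.l 12) (.l 6)) (.l 12)) (.l 6))
    [(204346490880, 7046430720), (47244640256, 47244640256), (481036337152, 68719476736), (274877906944, 274877906944)] rfl (by decide +kernel)
end
mutual
theorem c0_m3_t17 : CovD 0 progs [(214916136960, 3523215360), (47244640256, 47244640256), (481036337152, 68719476736), (274877906944, 274877906944)] :=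
  Pool.Agent.helper14.QF.covD_F chks_eq (.n 3 (.n 3 (.n 1 (.n 1 (.n 3 (.l 12) (.l 6)) (.l 12)) (.l 12)) (.n 2 (.n 1 (.l 6) (.n 1 (.n 3 (.l 12) (.l 6)) (.l 12))) (.l 6))) (.n 1 (.l 6) (.n 2 (.n 3 (.l 6) (.l 6)) (.l 6))))
    [(214916136960, 3523215360), (47244640256, 47244640256), (481036337152, 68719476736), (274877906944, 274877906944)] rfl (by decide +kernel)
theorem c0_m3_t18 : CovD 0 progs [(221962567680, 3523215360), (47244640256, 47244640256), (481036337152, 68719476736), (274877906944, 274877906944)] :=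
  Pool.Agent.helper14.QF.covD_F chks_eq (.n 0 (.n 3 (.n 3 (.n 0 (.l 10) (.l 10)) (.n 3 (.l 10) (.l 10))) (.n 2 (.n 3 (.n 3 (.l 10) (.l 4)) (.l 6)) (.l 6))) (.n 3 (.n 3 (.l 10) (.n 3 (.l 10) (.l 10))) (.n 3 (.n 3 (.l 4) (.l 4)) (.n 3 (.l 4) (.l 4)))))
    [(221962567680, 3523215360), (47244640256, 47244640256), (481036337152, 68719476736), (274877906944, 274877906944)] rfl (by decide +kernel)
end
mutual
theorem c0_m3_t22 : CovD 0 progs [(183207198720, 14092861440), (141733920768, 47244640256), (481036337152, 68719476736), (274877906944, 274877906944)] :=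
  Pool.Agent.helper14.QF.covD_F chks_eq (.n 3 (.l 12) (.l 6))
    [(183207198720, 14092861440), (141733920768, 47244640256), (481036337152, 68719476736), (274877906944, 274877906944)] rfl (by decide +kernel)
theorem c0_m3_t23 : CovD 0 progs [(211392921600, 14092861440), (141733920768, 47244640256), (481036337152, 68719476736), (137438953472, 137438953472)] :=
  Pool.Agent.helper14.QF.covD_F chks_eq (.n 0 (.l 12) (.n 0 (.l 12) (.n 1 (.n 3 (.l 12) (.n 0 (.n 3 (.l 10) (.l 10)) (.n 0 (.l 10) (.l 10)))) (.l 12))))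
    [(211392921600, 14092861440), (141733920768, 47244640256), (481036337152, 68719476736), (137438953472, 137438953472)] rfl (by decide +kernel)
end
mutual
theorem c0_m3_t24 : CovD 0 progs [(204346490880, 7046430720), (141733920768, 47244640256), (481036337152, 68719476736), (412316860416, 137438953472)] :=
  Pool.Agent.helper14.QF.covD_F chks_eq (.n 2 (.n 3 (.n 1 (.l 6) (.l 12)) (.n 2 (.l 6) (.l 6))) (.l 6))
    [(204346490880, 7046430720), (141733920768, 47244640256), (481036337152, 68719476736), (412316860416, 137438953472)] rfl (by decide +kernel)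
theorem c0_m3_t25 : CovD 0 progs [(218439352320, 7046430720), (141733920768, 47244640256), (481036337152, 68719476736), (412316860416, 137438953472)] :=
  Pool.Agent.helper14.QF.covD_F chks_eq (.n 3 (.n 3 (.n 3 (.n 0 (.l 12) (.n 0 (.l 10) (.l 10))) (.n 0 (.n 0 (.l 10) (.l 10)) (.l 10))) (.n 0 (.n 0 (.n 0 (.l 10) (.l 10)) (.l 10)) (.n 0 (.l 10) (.l 4)))) (.n 0 (.n 3 (.n 0 (.n 0 (.l 4) (.l 4)) (.l 4)) (.n 0 (.l 4) (.l 4))) (.n 0 (.n 3 (.l 4) (.l 4)) (.n 3 (.l 4) (.l 4)))))
    [(218439352320, 7046430720), (141733920768, 47244640256), (481036337152, 68719476736), (412316860416, 137438953472)] rfl (by decide +kernel)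
end
theorem c0_m3_t4 : CovD 0 progs [(207869706240, 3523215360), (94489280512, 94489280512), (343597383680, 68719476736), (274877906944, 274877906944)] :=
  covD_split 0 (by decide +kernel) c0_m3_t2 c0_m3_t3
theorem c0_m3_t5 : CovD 0 progs [(204346490880, 7046430720), (94489280512, 94489280512), (343597383680, 68719476736), (274877906944, 274877906944)] :=
  covD_split 0 (by decide +kernel) c0_m3_t1 c0_m3_t4
theorem c0_m3_t8 : CovD 0 progs [(213154529280, 1761607680), (94489280512, 94489280512), (343597383680, 68719476736), (274877906944, 274877906944)] :=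
  covD_split 0 (by decide +kernel) c0_m3_t6 c0_m3_t7
theorem c0_m3_t10 : CovD 0 progs [(214916136960, 3523215360), (94489280512, 94489280512), (343597383680, 68719476736), (274877906944, 274877906944)] :=
  covD_split 0 (by decide +kernel) c0_m3_t8 c0_m3_t9
theorem c0_m3_t12 : CovD 0 progs [(218439352320, 7046430720), (94489280512, 94489280512), (343597383680, 68719476736), (274877906944, 274877906944)] :=
  covD_split 0 (by decide +kernel) c0_m3_t10 c0_m3_t11
theorem c0_m3_t13 : CovD 0 progs [(211392921600, 14092861440), (94489280512, 94489280512), (343597383680, 68719476736), (274877906944, 274877906944)] :=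
  covD_split 0 (by decide +kernel) c0_m3_t5 c0_m3_t12
theorem c0_m3_t14 : CovD 0 progs [(197300060160, 28185722880), (94489280512, 94489280512), (343597383680, 68719476736), (274877906944, 274877906944)] :=
  covD_split 0 (by decide +kernel) c0_m3_t0 c0_m3_t13
theorem c0_m3_t19 : CovD 0 progs [(218439352320, 7046430720), (47244640256, 47244640256), (481036337152, 68719476736), (274877906944, 274877906944)] :=
  covD_split 0 (by decide +kernel) c0_m3_t17 c0_m3_t18
theorem c0_m3_t20 : CovD 0 progs [(211392921600, 14092861440), (47244640256, 47244640256), (481036337152, 68719476736), (274877906944, 274877906944)] :=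
  covD_split 0 (by decide +kernel) c0_m3_t16 c0_m3_t19
theorem c0_m3_t21 : CovD 0 progs [(197300060160, 28185722880), (47244640256, 47244640256), (481036337152, 68719476736), (274877906944, 274877906944)] :=
  covD_split 0 (by decide +kernel) c0_m3_t15 c0_m3_t20
theorem c0_m3_t26 : CovD 0 progs [(211392921600, 14092861440), (141733920768, 47244640256), (481036337152, 68719476736), (412316860416, 137438953472)] :=
  covD_split 0 (by decide +kernel) c0_m3_t24 c0_m3_t25
theorem c0_m3_t27 : CovD 0 progs [(211392921600, 14092861440), (141733920768, 47244640256), (481036337152, 68719476736), (274877906944, 274877906944)] :=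
  covD_split 3 (by decide +kernel) c0_m3_t23 c0_m3_t26
theorem c0_m3_t28 : CovD 0 progs [(197300060160, 28185722880), (141733920768, 47244640256), (481036337152, 68719476736), (274877906944, 274877906944)] :=
  covD_split 0 (by decide +kernel) c0_m3_t22 c0_m3_t27
theorem c0_m3_t29 : CovD 0 progs [(197300060160, 28185722880), (94489280512, 94489280512), (481036337152, 68719476736), (274877906944, 274877906944)] :=
  covD_split 1 (by decide +kernel) c0_m3_t21 c0_m3_t28
theorem c0_m3 : CovD 0 progs [(197300060160, 28185722880), (94489280512, 94489280512), (412316860416, 137438953472), (274877906944, 274877906944)] :=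
  covD_split 2 (by decide +kernel) c0_m3_t14 c0_m3_t29

end Pool.Agent.helper71.FJ.Crt.QMa
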