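import Pool.Agent.helper71.FJ.Crt.QMaP

/-!
Generated certificates.
-/

namespace Pool.Agent.helper71.FJ.Crt.QMa

open Pool.Agent.helper31.IA (Z Op)
open Pool.Agent.helper31.IC

mutual
theorem c0_m31_t0 : CovD 0 progs [(140928614400, 28185722880), (212600881152, 23622320128), (137438953472, 137438953472), (687194767360, 137438953472)] :=
  Pool.Agent.helper14.QF.covD_F chks_eq (.l 6)
    [(140928614400, 28185722880), (212600881152, 23622320128), (137438953472, 137438953472), (687194767360, 137438953472)] rfl (by decide +kernel)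
theorem c0_m31_t1 : CovD 0 progs [(197300060160, 28185722880), (212600881152, 23622320128), (137438953472, 137438953472), (584115552256, 34359738368)] :=
  Pool.Agent.helper14.QF.covD_F chks_eq (.n 3 (.n 0 (.l 12) (.n 0 (.n 0 (.n 0 (.l 10) (.l 10)) (.l 10)) (.n 0 (.l 10) (.l 4)))) (.n 0 (.n 0 (.l 12) (.n 0 (.l 12) (.n 0 (.l 12) (.l 10)))) (.n 0 (.n 0 (.n 0 (.l 4) (.l 4)) (.l 4)) (.n 0 (.l 4) (.l 4)))))
    [(197300060160, 28185722880), (212600881152, 23622320128), (137438953472, 137438953472), (584115552256, 34359738368)] rfl (by decide +kernel)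
end
mutual
theorem c0_m31_t2 : CovD 0 progs [(197300060160, 28185722880), (212600881152, 23622320128), (137438953472, 137438953472), (652835028992, 34359738368)] :=
  Pool.Agent.helper14.QF.covD_F chks_eq (.n 3 (.n 0 (.n 0 (.l 12) (.n 0 (.l 12) (.n 0 (.l 4) (.l 4)))) (.n 0 (.n 0 (.l 4) (.l 4)) (.n 0 (.l 4) (.l 4)))) (.n 3 (.n 0 (.n 0 (.l 12) (.n 0 (.n 0 (.l 4) (.l 4)) (.l 4))) (.n 0 (.n 0 (.l 4) (.l 4)) (.n 0 (.l 4) (.l 4)))) (.n 0 (.n 0 (.l 12) (.n 0 (.n 0 (.l 4) (.l 4)) (.l 4))) (.n 0 (.n 0 (.l 4) (.l 4)) (.n 0 (.l 4) (.l 4))))))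
    [(197300060160, 28185722880), (212600881152, 23622320128), (137438953472, 137438953472), (652835028992, 34359738368)] rfl (by decide +kernel)
theorem c0_m31_t4 : CovD 0 progs [(183207198720, 14092861440), (212600881152, 23622320128), (68719476736, 68719476736), (755914244096, 68719476736)] :=
  Pool.Agent.helper14.QF.covD_F chks_eq (.n 3 (.n 0 (.l 6) (.n 0 (.l 6) (.n 3 (.l 4) (.l 4)))) (.n 2 (.l 6) (.l 6)))
    [(183207198720, 14092861440), (212600881152, 23622320128), (68719476736, 68719476736), (755914244096, 68719476736)] rfl (by decide +kernel)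
end
mutual
theorem c0_m31_t5 : CovD 0 progs [(204346490880, 7046430720), (212600881152, 23622320128), (68719476736, 68719476736), (755914244096, 68719476736)] :=
  Pool.Agent.helper14.QF.covD_F chks_eq (.n 0 (.n 0 (.n 3 (.n 3 (.l 4) (.l 4)) (.n 3 (.l 4) (.n 0 (.l 4) (.l 4)))) (.n 3 (.n 3 (.l 4) (.l 4)) (.n 3 (.l 4) (.n 3 (.l 4) (.l 4))))) (.n 0 (.n 3 (.n 3 (.l 4) (.l 4)) (.n 3 (.l 4) (.n 3 (.l 4) (.l 4)))) (.n 3 (.n 3 (.l 4) (.l 4)) (.n 3 (.l 4) (.n 3 (.l 4) (.l 4))))))
    [(204346490880, 7046430720), (212600881152, 23622320128), (68719476736, 68719476736), (755914244096, 68719476736)] rfl (by decide +kernel)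
theorem c0_m31_t6 : CovD 0 progs [(214916136960, 3523215360), (212600881152, 23622320128), (68719476736, 68719476736), (755914244096, 68719476736)] :=
  Pool.Agent.helper14.QF.covD_F chks_eq (.n 3 (.n 3 (.l 4) (.n 0 (.l 4) (.l 4))) (.n 3 (.n 3 (.l 4) (.n 0 (.l 4) (.l 4))) (.n 0 (.n 3 (.l 4) (.n 0 (.l 4) (.l 4))) (.n 3 (.l 4) (.n 3 (.l 4) (.l 4))))))
    [(214916136960, 3523215360), (212600881152, 23622320128), (68719476736, 68719476736), (755914244096, 68719476736)] rfl (by decide +kernel)
end
mutual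
theorem c0_m31_t7 : CovD 0 progs [(220200960000, 1761607680), (212600881152, 23622320128), (68719476736, 68719476736), (755914244096, 68719476736)] :=
  Pool.Agent.helper14.QF.covD_F chks_eq (.n 0 (.n 0 (.n 3 (.n 3 (.l 4) (.l 4)) (.n 3 (.l 4) (.n 3 (.l 4) (.n 0 (.l 4) (.l 4))))) (.n 3 (.n 3 (.l 4) (.l 4)) (.n 3 (.l 4) (.n 3 (.l 4) (.n 3 (.l 4) (.l 4)))))) (.n 3 (.n 3 (.l 4) (.l 4)) (.n 3 (.n 3 (.l 4) (.l 4)) (.n 3 (.l 4) (.n 3 (.l 4) (.l 4))))))
    [(220200960000, 1761607680), (212600881152, 23622320128), (68719476736, 68719476736), (755914244096, 68719476736)] rfl (by decide +kernel)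
theorem c0_m31_t8 : CovD 0 progs [(223724175360, 1761607680), (212600881152, 23622320128), (68719476736, 68719476736), (755914244096, 68719476736)] :=
  Pool.Agent.helper14.QF.covD_F chks_eq (.n 0 (.n 3 (.n 3 (.l 4) (.l 4)) (.n 3 (.n 3 (.l 4) (.l 4)) (.n 3 (.n 0 (.l 4) (.l 4)) (.n 3 (.l 4) (.l 4))))) (.n 0 (.n 3 (.n 3 (.l 4) (.l 4)) (.n 3 (.n 3 (.l 4) (.l 4)) (.n 3 (.l 4) (.n 3 (.l 4) (.l 4))))) (.n 3 (.n 3 (.l 4) (.l 4)) (.n 3 (.n 3 (.l 4) (.l 4)) (.n 3 (.l 4) (.n 3 (.l 4) (.l 4)))))))
    [(223724175360, 1761607680), (212600881152, 23622320128), (68719476736, 68719476736), (755914244096, 68719476736)] rfl (by decide +kernel)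
end
mutual
theorem c0_m31_t13 : CovD 0 progs [(183207198720, 14092861440), (200789721088, 11811160064), (206158430208, 68719476736), (755914244096, 68719476736)] :=
  Pool.Agent.helper14.QF.covD_F chks_eq (.n 2 (.l 6) (.l 6))
    [(183207198720, 14092861440), (200789721088, 11811160064), (206158430208, 68719476736), (755914244096, 68719476736)] rfl (by decide +kernel)
theorem c0_m31_t14 : CovD 0 progs [(211392921600, 14092861440), (200789721088, 11811160064), (206158430208, 68719476736), (721554505728, 34359738368)] :=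
  Pool.Agent.helper14.QF.covD_F chks_eq (.n 3 (.n 0 (.n 0 (.l 4) (.l 4)) (.n 0 (.l 4) (.n 0 (.l 4) (.l 4)))) (.n 0 (.n 0 (.l 4) (.n 0 (.l 4) (.l 4))) (.n 0 (.n 0 (.l 4) (.l 4)) (.n 0 (.l 4) (.l 4)))))
    [(211392921600, 14092861440), (200789721088, 11811160064), (206158430208, 68719476736), (721554505728, 34359738368)] rfl (by decide +kernel)
end
mutual
theorem c0_m31_t15 : CovD 0 progs [(211392921600, 14092861440), (200789721088, 11811160064), (206158430208, 68719476736), (773094113280, 17179869184)] :=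
  Pool.Agent.helper14.QF.covD_F chks_eq (.n 3 (.n 0 (.n 0 (.l 4) (.l 4)) (.n 0 (.l 4) (.n 0 (.l 4) (.l 4)))) (.n 0 (.n 0 (.l 4) (.l 4)) (.n 0 (.n 0 (.l 4) (.l 4)) (.n 0 (.l 4) (.n 0 (.l 4) (.l 4))))))
    [(211392921600, 14092861440), (200789721088, 11811160064), (206158430208, 68719476736), (773094113280, 17179869184)] rfl (by decide +kernel)
theorem c0_m31_t16 : CovD 0 progs [(204346490880, 7046430720), (200789721088, 11811160064), (206158430208, 68719476736), (807453851648, 17179869184)] :=
  Pool.Agent.helper14.QF.covD_F chks_eq (.n 3 (.n 0 (.l 4) (.n 0 (.l 4) (.l 4))) (.n 0 (.l 6) (.n 0 (.l 4) (.l 4))))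
    [(204346490880, 7046430720), (200789721088, 11811160064), (206158430208, 68719476736), (807453851648, 17179869184)] rfl (by decide +kernel)
end
mutual
theorem c0_m31_t17 : CovD 0 progs [(218439352320, 7046430720), (200789721088, 11811160064), (206158430208, 68719476736), (807453851648, 17179869184)] :=
  Pool.Agent.helper14.QF.covD_F chks_eq (.n 3 (.n 3 (.n 0 (.l 4) (.n 0 (.l 4) (.l 4))) (.n 0 (.n 0 (.l 4) (.l 4)) (.n 0 (.l 4) (.l 4)))) (.n 3 (.n 0 (.n 0 (.l 4) (.l 4)) (.n 3 (.n 0 (.l 4) (.l 4)) (.n 0 (.l 4) (.l 4)))) (.n 3 (.n 0 (.n 0 (.l 4) (.l 4)) (.n 3 (.n 0 (.l 4) (.l 4)) (.n 0 (.l 4) (.l 4)))) (.n 0 (.n 0 (.l 4) (.l 4)) (.n 0 (.l 4) (.n 0 (.l 4) (.l 4)))))))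
    [(218439352320, 7046430720), (200789721088, 11811160064), (206158430208, 68719476736), (807453851648, 17179869184)] rfl (by decide +kernel)
theorem c0_m31_t22 : CovD 0 progs [(183207198720, 14092861440), (218506461184, 5905580032), (206158430208, 68719476736), (755914244096, 68719476736)] :=
  Pool.Agent.helper14.QF.covD_F chks_eq (.n 2 (.n 2 (.n 2 (.n 3 (.l 6) (.l 6)) (.l 6)) (.l 6)) (.l 6))
    [(183207198720, 14092861440), (218506461184, 5905580032), (206158430208, 68719476736), (755914244096, 68719476736)] rfl (by decide +kernel)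
end
mutual
theorem c0_m31_t23 : CovD 0 progs [(204346490880, 7046430720), (218506461184, 5905580032), (206158430208, 68719476736), (755914244096, 68719476736)] :=
  Pool.Agent.helper14.QF.covD_F chks_eq (.n 0 (.n 3 (.n 3 (.l 4) (.l 4)) (.n 0 (.l 6) (.n 3 (.l 4) (.l 6)))) (.n 0 (.n 3 (.n 3 (.l 4) (.l 4)) (.n 3 (.l 4) (.n 3 (.l 4) (.l 4)))) (.n 3 (.n 3 (.l 4) (.l 4)) (.n 3 (.l 4) (.n 3 (.l 4) (.l 4))))))
    [(204346490880, 7046430720), (218506461184, 5905580032), (206158430208, 68719476736), (755914244096, 68719476736)] rfl (by decide +kernel)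
theorem c0_m31_t24 : CovD 0 progs [(218439352320, 7046430720), (218506461184, 5905580032), (206158430208, 68719476736), (721554505728, 34359738368)] :=
  Pool.Agent.helper14.QF.covD_F chks_eq (.n 0 (.n 3 (.l 4) (.n 0 (.l 4) (.l 4))) (.n 0 (.n 3 (.l 4) (.l 4)) (.n 3 (.l 4) (.l 4))))
    [(218439352320, 7046430720), (218506461184, 5905580032), (206158430208, 68719476736), (721554505728, 34359738368)] rfl (by decide +kernel)
end
mutual
theorem c0_m31_t25 : CovD 0 progs [(218439352320, 7046430720), (218506461184, 5905580032), (206158430208, 68719476736), (773094113280, 17179869184)] :=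
  Pool.Agent.helper14.QF.covD_F chks_eq (.n 0 (.n 3 (.l 4) (.n 0 (.l 4) (.l 4))) (.n 0 (.n 3 (.l 4) (.l 4)) (.n 3 (.l 4) (.n 0 (.l 4) (.l 4)))))
    [(218439352320, 7046430720), (218506461184, 5905580032), (206158430208, 68719476736), (773094113280, 17179869184)] rfl (by decide +kernel)
theorem c0_m31_t26 : CovD 0 progs [(218439352320, 7046430720), (218506461184, 5905580032), (206158430208, 68719476736), (807453851648, 17179869184)] :=
  Pool.Agent.helper14.QF.covD_F chks_eq (.n 3 (.n 3 (.n 0 (.l 4) (.n 0 (.l 4) (.l 4))) (.n 0 (.n 0 (.l 4) (.l 4)) (.n 0 (.l 4) (.l 4)))) (.n 3 (.n 0 (.n 0 (.l 4) (.l 4)) (.n 3 (.n 0 (.l 4) (.l 4)) (.n 0 (.l 4) (.l 4)))) (.n 0 (.n 0 (.l 4) (.l 4)) (.n 0 (.n 0 (.l 4) (.l 4)) (.n 0 (.l 4) (.n 0 (.l 4) (.l 4)))))))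
    [(218439352320, 7046430720), (218506461184, 5905580032), (206158430208, 68719476736), (807453851648, 17179869184)] rfl (by decide +kernel)
end
mutual
theorem c0_m31_t31 : CovD 0 progs [(183207198720, 14092861440), (230317621248, 5905580032), (206158430208, 68719476736), (755914244096, 68719476736)] :=
  Pool.Agent.helper14.QF.covD_F chks_eq (.n 0 (.l 6) (.n 0 (.l 6) (.n 2 (.n 3 (.n 3 (.l 4) (.l 4)) (.l 6)) (.l 6))))
    [(183207198720, 14092861440), (230317621248, 5905580032), (206158430208, 68719476736), (755914244096, 68719476736)] rfl (by decide +kernel)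
theorem c0_m31_t32 : CovD 0 progs [(204346490880, 7046430720), (230317621248, 5905580032), (206158430208, 68719476736), (755914244096, 68719476736)] :=
  Pool.Agent.helper14.QF.covD_F chks_eq (.n 0 (.n 3 (.n 3 (.l 4) (.l 4)) (.n 2 (.n 0 (.l 6) (.n 3 (.l 4) (.l 6))) (.l 6))) (.n 1 (.n 0 (.n 3 (.n 3 (.l 4) (.l 4)) (.n 3 (.l 4) (.n 3 (.l 4) (.l 4)))) (.n 3 (.n 3 (.l 4) (.l 4)) (.n 3 (.l 4) (.n 3 (.l 4) (.l 4))))) (.l 11)))
    [(204346490880, 7046430720), (230317621248, 5905580032), (206158430208, 68719476736), (755914244096, 68719476736)] rfl (by decide +kernel)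
end
mutual
theorem c0_m31_t33 : CovD 0 progs [(218439352320, 7046430720), (230317621248, 5905580032), (206158430208, 68719476736), (721554505728, 34359738368)] :=
  Pool.Agent.helper14.QF.covD_F chks_eq (.n 0 (.n 3 (.l 4) (.n 0 (.l 4) (.l 4))) (.n 0 (.n 3 (.l 4) (.l 4)) (.n 3 (.l 4) (.l 4))))
    [(218439352320, 7046430720), (230317621248, 5905580032), (206158430208, 68719476736), (721554505728, 34359738368)] rfl (by decide +kernel)
theorem c0_m31_t34 : CovD 0 progs [(218439352320, 7046430720), (230317621248, 5905580032), (206158430208, 68719476736), (773094113280, 17179869184)] :=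
  Pool.Agent.helper14.QF.covD_F chks_eq (.n 0 (.n 3 (.l 4) (.n 0 (.l 4) (.l 4))) (.n 0 (.n 3 (.l 4) (.l 4)) (.n 3 (.l 4) (.n 0 (.l 4) (.l 4)))))
    [(218439352320, 7046430720), (230317621248, 5905580032), (206158430208, 68719476736), (773094113280, 17179869184)] rfl (by decide +kernel)
theorem c0_m31_t35 : CovD 0 progs [(218439352320, 7046430720), (230317621248, 5905580032), (206158430208, 68719476736), (807453851648, 17179869184)] :=
  Pool.Agent.helper14.QF.covD_F chks_eq (.n 3 (.n 3 (.n 0 (.l 4) (.n 0 (.l 4) (.l 4))) (.n 0 (.n 0 (.l 4) (.l 4)) (.n 0 (.l 4) (.l 4)))) (.n 3 (.n 0 (.n 0 (.l 4) (.l 4)) (.n 3 (.n 0 (.l 4) (.l 4)) (.n 0 (.l 4) (.l 4)))) (.n 0 (.n 0 (.l 4) (.l 4)) (.n 3 (.n 3 (.n 0 (.l 4) (.l 4)) (.n 0 (.l 4) (.l 4))) (.n 3 (.n 0 (.l 4) (.l 4)) (.n 0 (.l 4) (.n 0 (.l 4) (.l 4))))))))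
    [(218439352320, 7046430720), (230317621248, 5905580032), (206158430208, 68719476736), (807453851648, 17179869184)] rfl (by decide +kernel)
end
theorem c0_m31_t3 : CovD 0 progs [(197300060160, 28185722880), (212600881152, 23622320128), (137438953472, 137438953472), (618475290624, 68719476736)] :=
  covD_split 3 (by decide +kernel) c0_m31_t1 c0_m31_t2
theorem c0_m31_t9 : CovD 0 progs [(221962567680, 3523215360), (212600881152, 23622320128), (68719476736, 68719476736), (755914244096, 68719476736)] :=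
  covD_split 0 (by decide +kernel) c0_m31_t7 c0_m31_t8
theorem c0_m31_t10 : CovD 0 progs [(218439352320, 7046430720), (212600881152, 23622320128), (68719476736, 68719476736), (755914244096, 68719476736)] :=
  covD_split 0 (by decide +kernel) c0_m31_t6 c0_m31_t9
theorem c0_m31_t11 : CovD 0 progs [(211392921600, 14092861440), (212600881152, 23622320128), (68719476736, 68719476736), (755914244096, 68719476736)] :=
  covD_split 0 (by decide +kernel) c0_m31_t5 c0_m31_t10
theorem c0_m31_t12 : CovD 0 progs [(197300060160, 28185722880), (212600881152, 23622320128), (68719476736, 68719476736), (755914244096, 68719476736)] :=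
  covD_split 0 (by decide +kernel) c0_m31_t4 c0_m31_t11
theorem c0_m31_t18 : CovD 0 progs [(211392921600, 14092861440), (200789721088, 11811160064), (206158430208, 68719476736), (807453851648, 17179869184)] :=
  covD_split 0 (by decide +kernel) c0_m31_t16 c0_m31_t17
theorem c0_m31_t19 : CovD 0 progs [(211392921600, 14092861440), (200789721088, 11811160064), (206158430208, 68719476736), (790273982464, 34359738368)] :=
  covD_split 3 (by decide +kernel) c0_m31_t15 c0_m31_t18
theorem c0_m31_t20 : CovD 0 progs [(211392921600, 14092861440), (200789721088, 11811160064), (206158430208, 68719476736), (755914244096, 68719476736)] :=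
  covD_split 3 (by decide +kernel) c0_m31_t14 c0_m31_t19
theorem c0_m31_t21 : CovD 0 progs [(197300060160, 28185722880), (200789721088, 11811160064), (206158430208, 68719476736), (755914244096, 68719476736)] :=
  covD_split 0 (by decide +kernel) c0_m31_t13 c0_m31_t20
theorem c0_m31_t27 : CovD 0 progs [(218439352320, 7046430720), (218506461184, 5905580032), (206158430208, 68719476736), (790273982464, 34359738368)] :=
  covD_split 3 (by decide +kernel) c0_m31_t25 c0_m31_t26
theorem c0_m31_t28 : CovD 0 progs [(218439352320, 7046430720), (218506461184, 5905580032), (206158430208, 68719476736), (755914244096, 68719476736)] :=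
  covD_split 3 (by decide +kernel) c0_m31_t24 c0_m31_t27
theorem c0_m31_t29 : CovD 0 progs [(211392921600, 14092861440), (218506461184, 5905580032), (206158430208, 68719476736), (755914244096, 68719476736)] :=
  covD_split 0 (by decide +kernel) c0_m31_t23 c0_m31_t28
theorem c0_m31_t30 : CovD 0 progs [(197300060160, 28185722880), (218506461184, 5905580032), (206158430208, 68719476736), (755914244096, 68719476736)] :=
  covD_split 0 (by decide +kernel) c0_m31_t22 c0_m31_t29
theorem c0_m31_t36 : CovD 0 progs [(218439352320, 7046430720), (230317621248, 5905580032), (206158430208, 68719476736), (790273982464, 34359738368)] :=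
  covD_split 3 (by decide +kernel) c0_m31_t34 c0_m31_t35
theorem c0_m31_t37 : CovD 0 progs [(218439352320, 7046430720), (230317621248, 5905580032), (206158430208, 68719476736), (755914244096, 68719476736)] :=
  covD_split 3 (by decide +kernel) c0_m31_t33 c0_m31_t36
theorem c0_m31_t38 : CovD 0 progs [(211392921600, 14092861440), (230317621248, 5905580032), (206158430208, 68719476736), (755914244096, 68719476736)] :=
  covD_split 0 (by decide +kernel) c0_m31_t32 c0_m31_t37
theorem c0_m31_t39 : CovD 0 progs [(197300060160, 28185722880), (230317621248, 5905580032), (206158430208, 68719476736), (755914244096, 68719476736)] :=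
  covD_split 0 (by decide +kernel) c0_m31_t31 c0_m31_t38
theorem c0_m31_t40 : CovD 0 progs [(197300060160, 28185722880), (224412041216, 11811160064), (206158430208, 68719476736), (755914244096, 68719476736)] :=
  covD_split 1 (by decide +kernel) c0_m31_t30 c0_m31_t39
theorem c0_m31_t41 : CovD 0 progs [(197300060160, 28185722880), (212600881152, 23622320128), (206158430208, 68719476736), (755914244096, 68719476736)] :=
  covD_split 1 (by decide +kernel) c0_m31_t21 c0_m31_t40
theorem c0_m31_t42 : CovD 0 progs [(197300060160, 28185722880), (212600881152, 23622320128), (137438953472, 137438953472), (755914244096, 68719476736)] :=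
  covD_split 2 (by decide +kernel) c0_m31_t12 c0_m31_t41
theorem c0_m31_t43 : CovD 0 progs [(197300060160, 28185722880), (212600881152, 23622320128), (137438953472, 137438953472), (687194767360, 137438953472)] :=
  covD_split 3 (by decide +kernel) c0_m31_t3 c0_m31_t42
theorem c0_m31 : CovD 0 progs [(169114337280, 56371445760), (212600881152, 23622320128), (137438953472, 137438953472), (687194767360, 137438953472)] :=
  covD_split 0 (by decide +kernel) c0_m31_t0 c0_m31_t43

end Pool.Agent.helper71.FJ.Crt.QMa
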