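import Pool.Agent.helper71.FJ.Crt.QMaP

/-!
Generated certificates.
-/

namespace Pool.Agent.helper71.FJ.Crt.QMa

open Pool.Agent.helper31.IA (Z Op)
open Pool.Agent.helper31.IC

mutual
theorem c0_m34_t0 : CovD 0 progs [(204346490880, 7046430720), (200789721088, 11811160064), (34359738368, 34359738368), (858993459200, 34359738368)] :=
  Pool.Agent.helper14.QF.covD_F chks_eq (.n 0 (.l 6) (.n 0 (.n 0 (.l 6) (.n 3 (.n 3 (.l 4) (.l 6)) (.l 6))) (.n 0 (.n 3 (.n 3 (.l 4) (.n 3 (.l 4) (.l 4))) (.l 6)) (.n 0 (.n 3 (.n 3 (.l 4) (.n 3 (.l 4) (.l 4))) (.l 6)) (.n 3 (.n 3 (.l 4) (.n 3 (.l 4) (.l 4))) (.n 2 (.l 6) (.l 6)))))))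
    [(204346490880, 7046430720), (200789721088, 11811160064), (34359738368, 34359738368), (858993459200, 34359738368)] rfl (by decide +kernel)
theorem c0_m34_t1 : CovD 0 progs [(218439352320, 7046430720), (200789721088, 11811160064), (34359738368, 34359738368), (833223655424, 8589934592)] :=
  Pool.Agent.helper14.QF.covD_F chks_eq (.n 3 (.n 0 (.n 0 (.l 4) (.n 0 (.l 4) (.l 4))) (.n 0 (.n 0 (.l 4) (.n 0 (.l 4) (.l 4))) (.n 0 (.n 0 (.l 4) (.l 4)) (.n 3 (.l 4) (.l 4))))) (.n 3 (.n 0 (.n 0 (.l 4) (.n 0 (.l 4) (.l 4))) (.n 0 (.n 0 (.l 4) (.l 4)) (.n 0 (.l 4) (.l 4)))) (.n 0 (.n 0 (.l 4) (.n 0 (.l 4) (.l 4))) (.n 0 (.n 0 (.l 4) (.l 4)) (.n 0 (.l 4) (.l 4))))))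
    [(218439352320, 7046430720), (200789721088, 11811160064), (34359738368, 34359738368), (833223655424, 8589934592)] rfl (by decide +kernel)
end
mutual
theorem c0_m34_t2 : CovD 0 progs [(218439352320, 7046430720), (200789721088, 11811160064), (34359738368, 34359738368), (846108557312, 4294967296)] :=
  Pool.Agent.helper14.QF.covD_F chks_eq (.n 0 (.n 0 (.n 0 (.l 4) (.n 0 (.l 4) (.l 4))) (.n 0 (.n 3 (.l 4) (.l 4)) (.n 3 (.l 4) (.l 4)))) (.n 0 (.n 0 (.n 3 (.l 4) (.l 4)) (.n 3 (.l 4) (.l 4))) (.n 0 (.l 4) (.l 4))))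
    [(218439352320, 7046430720), (200789721088, 11811160064), (34359738368, 34359738368), (846108557312, 4294967296)] rfl (by decide +kernel)
theorem c0_m34_t3 : CovD 0 progs [(218439352320, 7046430720), (200789721088, 11811160064), (34359738368, 34359738368), (854698491904, 4294967296)] :=
  Pool.Agent.helper14.QF.covD_F chks_eq (.n 0 (.n 0 (.n 0 (.n 3 (.l 4) (.l 4)) (.n 3 (.l 4) (.l 4))) (.n 0 (.n 3 (.l 4) (.l 4)) (.n 3 (.l 4) (.l 4)))) (.n 0 (.n 0 (.l 4) (.l 4)) (.n 0 (.n 0 (.l 4) (.l 4)) (.n 0 (.l 4) (.l 4)))))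
    [(218439352320, 7046430720), (200789721088, 11811160064), (34359738368, 34359738368), (854698491904, 4294967296)] rfl (by decide +kernel)
end
mutual
theorem c0_m34_t6 : CovD 0 progs [(218439352320, 7046430720), (200789721088, 11811160064), (34359738368, 34359738368), (863288426496, 4294967296)] :=
  Pool.Agent.helper14.QF.covD_F chks_eq (.n 3 (.n 0 (.n 0 (.n 0 (.l 4) (.l 4)) (.n 0 (.l 4) (.l 4))) (.n 0 (.n 0 (.l 4) (.l 4)) (.n 0 (.l 4) (.l 4)))) (.n 0 (.n 0 (.n 0 (.l 4) (.l 4)) (.l 4)) (.n 0 (.n 0 (.l 4) (.l 4)) (.n 0 (.l 4) (.l 4)))))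
    [(218439352320, 7046430720), (200789721088, 11811160064), (34359738368, 34359738368), (863288426496, 4294967296)] rfl (by decide +kernel)
theorem c0_m34_t7 : CovD 0 progs [(218439352320, 7046430720), (200789721088, 11811160064), (34359738368, 34359738368), (871878361088, 4294967296)] :=
  Pool.Agent.helper14.QF.covD_F chks_eq (.n 0 (.n 0 (.n 0 (.n 0 (.l 4) (.l 4)) (.l 4)) (.n 0 (.n 3 (.l 4) (.l 4)) (.n 3 (.l 4) (.l 4)))) (.n 0 (.n 0 (.n 0 (.l 4) (.l 4)) (.n 0 (.l 4) (.l 4))) (.n 0 (.l 4) (.l 4))))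
    [(218439352320, 7046430720), (200789721088, 11811160064), (34359738368, 34359738368), (871878361088, 4294967296)] rfl (by decide +kernel)
end
mutual
theorem c0_m34_t9 : CovD 0 progs [(218439352320, 7046430720), (200789721088, 11811160064), (34359738368, 34359738368), (880468295680, 4294967296)] :=
  Pool.Agent.helper14.QF.covD_F chks_eq (.n 1 (.n 3 (.n 3 (.n 0 (.n 0 (.l 4) (.l 4)) (.n 0 (.l 4) (.l 4))) (.n 0 (.n 0 (.n 0 (.l 4) (.l 4)) (.l 4)) (.n 0 (.l 4) (.l 4)))) (.n 0 (.n 0 (.l 6) (.n 0 (.l 4) (.l 4))) (.n 0 (.l 4) (.l 4)))) (.n 0 (.n 0 (.n 0 (.l 6) (.n 3 (.l 4) (.l 4))) (.n 0 (.n 3 (.l 4) (.l 4)) (.n 0 (.l 4) (.l 4)))) (.n 0 (.n 0 (.l 4) (.l 4)) (.l 4))))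
    [(218439352320, 7046430720), (200789721088, 11811160064), (34359738368, 34359738368), (880468295680, 4294967296)] rfl (by decide +kernel)
theorem c0_m34_t10 : CovD 0 progs [(218439352320, 7046430720), (200789721088, 11811160064), (34359738368, 34359738368), (889058230272, 4294967296)] :=
  Pool.Agent.helper14.QF.covD_F chks_eq (.n 3 (.n 0 (.n 0 (.n 0 (.l 4) (.l 4)) (.l 4)) (.n 0 (.l 4) (.l 4))) (.n 0 (.n 0 (.n 0 (.l 4) (.l 4)) (.l 4)) (.l 4)))
    [(218439352320, 7046430720), (200789721088, 11811160064), (34359738368, 34359738368), (889058230272, 4294967296)] rfl (by decide +kernel)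
end
mutual
theorem c0_m34_t15 : CovD 0 progs [(211392921600, 14092861440), (200789721088, 11811160064), (34359738368, 34359738368), (927712935936, 34359738368)] :=
  Pool.Agent.helper14.QF.covD_F chks_eq (.n 3 (.n 3 (.n 0 (.l 6) (.n 0 (.n 0 (.l 6) (.n 3 (.l 4) (.l 4))) (.n 0 (.n 3 (.l 4) (.l 4)) (.l 4)))) (.n 3 (.n 0 (.l 6) (.n 0 (.n 0 (.l 4) (.l 4)) (.l 4))) (.n 0 (.l 6) (.n 0 (.l 4) (.l 4))))) (.n 0 (.l 6) (.n 0 (.l 6) (.n 3 (.l 4) (.l 4)))))
    [(211392921600, 14092861440), (200789721088, 11811160064), (34359738368, 34359738368), (927712935936, 34359738368)] rfl (by decide +kernel)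
theorem c0_m34_t17 : CovD 0 progs [(204346490880, 7046430720), (218506461184, 5905580032), (34359738368, 34359738368), (858993459200, 34359738368)] :=
  Pool.Agent.helper14.QF.covD_F chks_eq (.n 3 (.n 3 (.n 3 (.n 0 (.l 4) (.n 0 (.l 4) (.l 4))) (.n 0 (.l 6) (.n 0 (.l 4) (.l 4)))) (.n 3 (.n 0 (.l 6) (.n 0 (.l 4) (.n 0 (.l 4) (.l 4)))) (.n 0 (.l 6) (.n 0 (.l 6) (.n 0 (.l 4) (.n 0 (.l 4) (.l 4))))))) (.n 0 (.l 6) (.n 0 (.l 6) (.n 0 (.l 6) (.n 3 (.n 3 (.n 3 (.l 4) (.l 4)) (.n 3 (.l 4) (.l 4))) (.l 6))))))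
    [(204346490880, 7046430720), (218506461184, 5905580032), (34359738368, 34359738368), (858993459200, 34359738368)] rfl (by decide +kernel)
end
mutual
theorem c0_m34_t18 : CovD 0 progs [(204346490880, 7046430720), (230317621248, 5905580032), (34359738368, 34359738368), (841813590016, 17179869184)] :=
  Pool.Agent.helper14.QF.covD_F chks_eq (.n 3 (.n 0 (.l 6) (.n 0 (.n 0 (.l 4) (.l 4)) (.n 3 (.l 4) (.l 4)))) (.n 3 (.n 0 (.l 6) (.n 0 (.l 4) (.n 0 (.l 4) (.l 4)))) (.n 0 (.l 6) (.n 1 (.n 0 (.l 6) (.n 0 (.l 4) (.n 0 (.l 4) (.l 4)))) (.l 11)))))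
    [(204346490880, 7046430720), (230317621248, 5905580032), (34359738368, 34359738368), (841813590016, 17179869184)] rfl (by decide +kernel)
theorem c0_m34_t19 : CovD 0 progs [(204346490880, 7046430720), (230317621248, 5905580032), (34359738368, 34359738368), (876173328384, 17179869184)] :=
  Pool.Agent.helper14.QF.covD_F chks_eq (.n 0 (.l 6) (.n 0 (.l 6) (.n 1 (.n 1 (.n 1 (.n 0 (.l 6) (.n 1 (.n 1 (.n 1 (.n 3 (.n 3 (.n 3 (.l 4) (.l 4)) (.n 3 (.l 4) (.l 4))) (.l 6)) (.l 11)) (.l 11)) (.l 11))) (.l 11)) (.l 11)) (.l 11))))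
    [(204346490880, 7046430720), (230317621248, 5905580032), (34359738368, 34359738368), (876173328384, 17179869184)] rfl (by decide +kernel)
end
mutual
theorem c0_m34_t22 : CovD 0 progs [(213154529280, 1761607680), (224412041216, 11811160064), (34359738368, 34359738368), (841813590016, 17179869184)] :=
  Pool.Agent.helper14.QF.covD_F chks_eq (.n 3 (.n 3 (.l 4) (.n 0 (.l 4) (.l 4))) (.n 3 (.n 0 (.l 4) (.n 0 (.l 4) (.l 4))) (.n 0 (.n 3 (.l 4) (.l 4)) (.n 3 (.l 4) (.l 4)))))
    [(213154529280, 1761607680), (224412041216, 11811160064), (34359738368, 34359738368), (841813590016, 17179869184)] rfl (by decide +kernel)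
theorem c0_m34_t23 : CovD 0 progs [(213154529280, 1761607680), (224412041216, 11811160064), (34359738368, 34359738368), (876173328384, 17179869184)] :=
  Pool.Agent.helper14.QF.covD_F chks_eq (.n 3 (.n 3 (.n 0 (.n 3 (.l 4) (.l 4)) (.n 3 (.l 4) (.l 4))) (.n 0 (.n 0 (.l 4) (.l 4)) (.l 4))) (.n 3 (.n 0 (.n 3 (.l 4) (.l 4)) (.n 3 (.l 4) (.l 4))) (.n 0 (.n 3 (.l 4) (.l 4)) (.n 0 (.l 4) (.l 4)))))
    [(213154529280, 1761607680), (224412041216, 11811160064), (34359738368, 34359738368), (876173328384, 17179869184)] rfl (by decide +kernel)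
end
mutual
theorem c0_m34_t25 : CovD 0 progs [(216677744640, 1761607680), (224412041216, 11811160064), (34359738368, 34359738368), (841813590016, 17179869184)] :=
  Pool.Agent.helper14.QF.covD_F chks_eq (.n 3 (.n 0 (.n 3 (.l 4) (.l 4)) (.n 3 (.l 4) (.n 0 (.l 4) (.l 4)))) (.n 3 (.n 0 (.n 3 (.l 4) (.l 4)) (.n 3 (.l 4) (.l 4))) (.n 0 (.n 3 (.l 4) (.l 4)) (.n 3 (.l 4) (.l 4)))))
    [(216677744640, 1761607680), (224412041216, 11811160064), (34359738368, 34359738368), (841813590016, 17179869184)] rfl (by decide +kernel)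
theorem c0_m34_t26 : CovD 0 progs [(216677744640, 1761607680), (224412041216, 11811160064), (34359738368, 34359738368), (876173328384, 17179869184)] :=
  Pool.Agent.helper14.QF.covD_F chks_eq (.n 0 (.n 0 (.n 3 (.n 3 (.l 4) (.l 4)) (.n 3 (.n 0 (.l 4) (.l 4)) (.l 4))) (.n 3 (.n 3 (.l 4) (.n 0 (.l 4) (.l 4))) (.n 3 (.l 4) (.l 4)))) (.n 3 (.n 3 (.l 4) (.n 3 (.l 4) (.l 4))) (.n 3 (.n 0 (.l 4) (.l 4)) (.l 4))))
    [(216677744640, 1761607680), (224412041216, 11811160064), (34359738368, 34359738368), (876173328384, 17179869184)] rfl (by decide +kernel)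
end
mutual
theorem c0_m34_t29 : CovD 0 progs [(219320156160, 880803840), (224412041216, 11811160064), (34359738368, 34359738368), (858993459200, 34359738368)] :=
  Pool.Agent.helper14.QF.covD_F chks_eq (.n 0 (.n 3 (.n 3 (.n 3 (.l 4) (.l 4)) (.n 3 (.n 0 (.l 4) (.l 4)) (.l 4))) (.n 3 (.n 3 (.l 4) (.l 4)) (.n 3 (.l 4) (.l 4)))) (.n 3 (.n 3 (.n 3 (.l 4) (.l 4)) (.n 3 (.n 0 (.l 4) (.l 4)) (.l 4))) (.n 3 (.n 3 (.l 4) (.l 4)) (.n 3 (.l 4) (.l 4)))))
    [(219320156160, 880803840), (224412041216, 11811160064), (34359738368, 34359738368), (858993459200, 34359738368)] rfl (by decide +kernel)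
theorem c0_m34_t30 : CovD 0 progs [(220641361920, 440401920), (224412041216, 11811160064), (34359738368, 34359738368), (858993459200, 34359738368)] :=
  Pool.Agent.helper14.QF.covD_F chks_eq (.n 2 (.n 3 (.n 3 (.n 3 (.l 4) (.n 0 (.l 4) (.l 4))) (.n 3 (.n 0 (.l 4) (.l 4)) (.l 4))) (.n 3 (.n 3 (.l 4) (.l 4)) (.n 3 (.l 4) (.l 4)))) (.n 3 (.n 3 (.n 3 (.l 4) (.n 0 (.l 4) (.l 4))) (.n 3 (.n 0 (.l 4) (.l 4)) (.l 4))) (.n 3 (.n 3 (.l 4) (.l 4)) (.n 3 (.l 4) (.l 4)))))
    [(220641361920, 440401920), (224412041216, 11811160064), (34359738368, 34359738368), (858993459200, 34359738368)] rfl (by decide +kernel)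
end
mutual
theorem c0_m34_t31 : CovD 0 progs [(221522165760, 440401920), (224412041216, 11811160064), (34359738368, 34359738368), (858993459200, 34359738368)] :=
  Pool.Agent.helper14.QF.covD_F chks_eq (.n 3 (.n 3 (.n 3 (.l 4) (.n 0 (.l 4) (.l 4))) (.n 3 (.l 4) (.l 4))) (.n 3 (.n 3 (.l 4) (.l 4)) (.n 3 (.l 4) (.l 4))))
    [(221522165760, 440401920), (224412041216, 11811160064), (34359738368, 34359738368), (858993459200, 34359738368)] rfl (by decide +kernel)
theorem c0_m34_t34 : CovD 0 progs [(223724175360, 1761607680), (224412041216, 11811160064), (34359738368, 34359738368), (858993459200, 34359738368)] :=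
  Pool.Agent.helper14.QF.covD_F chks_eq (.n 3 (.n 3 (.n 3 (.n 0 (.n 0 (.l 4) (.l 4)) (.n 3 (.l 4) (.l 4))) (.n 0 (.n 3 (.l 4) (.l 4)) (.n 0 (.l 4) (.l 4)))) (.n 0 (.n 3 (.l 4) (.n 0 (.l 4) (.l 4))) (.n 3 (.l 4) (.n 0 (.l 4) (.l 4))))) (.n 3 (.n 0 (.n 3 (.n 0 (.l 4) (.l 4)) (.l 4)) (.n 3 (.n 0 (.l 4) (.l 4)) (.l 4))) (.n 3 (.l 4) (.l 4))))
    [(223724175360, 1761607680), (224412041216, 11811160064), (34359738368, 34359738368), (858993459200, 34359738368)] rfl (by decide +kernel)
theorem c0_m34_t38 : CovD 0 progs [(211392921600, 14092861440), (224412041216, 11811160064), (34359738368, 34359738368), (927712935936, 34359738368)] :=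
  Pool.Agent.helper14.QF.covD_F chks_eq (.n 3 (.n 3 (.n 3 (.n 0 (.l 6) (.n 0 (.n 0 (.n 0 (.l 4) (.l 4)) (.l 4)) (.n 0 (.l 4) (.l 4)))) (.n 0 (.l 6) (.n 0 (.n 0 (.l 4) (.l 4)) (.l 4)))) (.n 0 (.l 6) (.n 0 (.n 0 (.l 6) (.l 4)) (.n 0 (.l 4) (.l 4))))) (.n 0 (.l 6) (.n 3 (.n 0 (.n 0 (.l 4) (.l 4)) (.l 4)) (.l 4))))
    [(211392921600, 14092861440), (224412041216, 11811160064), (34359738368, 34359738368), (927712935936, 34359738368)] rfl (by decide +kernel)
end
theorem c0_m34_t4 : CovD 0 progs [(218439352320, 7046430720), (200789721088, 11811160064), (34359738368, 34359738368), (850403524608, 8589934592)] :=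
  covD_split 3 (by decide +kernel) c0_m34_t2 c0_m34_t3
theorem c0_m34_t5 : CovD 0 progs [(218439352320, 7046430720), (200789721088, 11811160064), (34359738368, 34359738368), (841813590016, 17179869184)] :=
  covD_split 3 (by decide +kernel) c0_m34_t1 c0_m34_t4
theorem c0_m34_t8 : CovD 0 progs [(218439352320, 7046430720), (200789721088, 11811160064), (34359738368, 34359738368), (867583393792, 8589934592)] :=
  covD_split 3 (by decide +kernel) c0_m34_t6 c0_m34_t7
theorem c0_m34_t11 : CovD 0 progs [(218439352320, 7046430720), (200789721088, 11811160064), (34359738368, 34359738368), (884763262976, 8589934592)] :=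
  covD_split 3 (by decide +kernel) c0_m34_t9 c0_m34_t10
theorem c0_m34_t12 : CovD 0 progs [(218439352320, 7046430720), (200789721088, 11811160064), (34359738368, 34359738368), (876173328384, 17179869184)] :=
  covD_split 3 (by decide +kernel) c0_m34_t8 c0_m34_t11
theorem c0_m34_t13 : CovD 0 progs [(218439352320, 7046430720), (200789721088, 11811160064), (34359738368, 34359738368), (858993459200, 34359738368)] :=
  covD_split 3 (by decide +kernel) c0_m34_t5 c0_m34_t12
theorem c0_m34_t14 : CovD 0 progs [(211392921600, 14092861440), (200789721088, 11811160064), (34359738368, 34359738368), (858993459200, 34359738368)] :=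
  covD_split 0 (by decide +kernel) c0_m34_t0 c0_m34_t13
theorem c0_m34_t16 : CovD 0 progs [(211392921600, 14092861440), (200789721088, 11811160064), (34359738368, 34359738368), (893353197568, 68719476736)] :=
  covD_split 3 (by decide +kernel) c0_m34_t14 c0_m34_t15
theorem c0_m34_t20 : CovD 0 progs [(204346490880, 7046430720), (230317621248, 5905580032), (34359738368, 34359738368), (858993459200, 34359738368)] :=
  covD_split 3 (by decide +kernel) c0_m34_t18 c0_m34_t19
theorem c0_m34_t21 : CovD 0 progs [(204346490880, 7046430720), (224412041216, 11811160064), (34359738368, 34359738368), (858993459200, 34359738368)] :=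
  covD_split 1 (by decide +kernel) c0_m34_t17 c0_m34_t20
theorem c0_m34_t24 : CovD 0 progs [(213154529280, 1761607680), (224412041216, 11811160064), (34359738368, 34359738368), (858993459200, 34359738368)] :=
  covD_split 3 (by decide +kernel) c0_m34_t22 c0_m34_t23
theorem c0_m34_t27 : CovD 0 progs [(216677744640, 1761607680), (224412041216, 11811160064), (34359738368, 34359738368), (858993459200, 34359738368)] :=
  covD_split 3 (by decide +kernel) c0_m34_t25 c0_m34_t26
theorem c0_m34_t28 : CovD 0 progs [(214916136960, 3523215360), (224412041216, 11811160064), (34359738368, 34359738368), (858993459200, 34359738368)] :=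
  covD_split 0 (by decide +kernel) c0_m34_t24 c0_m34_t27
theorem c0_m34_t32 : CovD 0 progs [(221081763840, 880803840), (224412041216, 11811160064), (34359738368, 34359738368), (858993459200, 34359738368)] :=
  covD_split 0 (by decide +kernel) c0_m34_t30 c0_m34_t31
theorem c0_m34_t33 : CovD 0 progs [(220200960000, 1761607680), (224412041216, 11811160064), (34359738368, 34359738368), (858993459200, 34359738368)] :=
  covD_split 0 (by decide +kernel) c0_m34_t29 c0_m34_t32
theorem c0_m34_t35 : CovD 0 progs [(221962567680, 3523215360), (224412041216, 11811160064), (34359738368, 34359738368), (858993459200, 34359738368)] :=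
  covD_split 0 (by decide +kernel) c0_m34_t33 c0_m34_t34
theorem c0_m34_t36 : CovD 0 progs [(218439352320, 7046430720), (224412041216, 11811160064), (34359738368, 34359738368), (858993459200, 34359738368)] :=
  covD_split 0 (by decide +kernel) c0_m34_t28 c0_m34_t35
theorem c0_m34_t37 : CovD 0 progs [(211392921600, 14092861440), (224412041216, 11811160064), (34359738368, 34359738368), (858993459200, 34359738368)] :=
  covD_split 0 (by decide +kernel) c0_m34_t21 c0_m34_t36
theorem c0_m34_t39 : CovD 0 progs [(211392921600, 14092861440), (224412041216, 11811160064), (34359738368, 34359738368), (893353197568, 68719476736)] :=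
  covD_split 3 (by decide +kernel) c0_m34_t37 c0_m34_t38
theorem c0_m34 : CovD 0 progs [(211392921600, 14092861440), (212600881152, 23622320128), (34359738368, 34359738368), (893353197568, 68719476736)] :=
  covD_split 1 (by decide +kernel) c0_m34_t16 c0_m34_t39

end Pool.Agent.helper71.FJ.Crt.QMa
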