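import Pool.Agent.helper71.FJ.Crt.QMaP

/-!
Generated certificates.
-/

namespace Pool.Agent.helper71.FJ.Crt.QMa

open Pool.Agent.helper31.IA (Z Op)
open Pool.Agent.helper31.IC

mutual
theorem c0_m35_t0 : CovD 0 progs [(204346490880, 7046430720), (194884141056, 5905580032), (85899345920, 17179869184), (858993459200, 34359738368)] :=
  Pool.Agent.helper14.QF.covD_F chks_eq (.n 0 (.l 6) (.n 0 (.l 6) (.n 3 (.n 3 (.n 3 (.l 4) (.l 4)) (.l 6)) (.l 6))))
    [(204346490880, 7046430720), (194884141056, 5905580032), (85899345920, 17179869184), (858993459200, 34359738368)] rfl (by decide +kernel)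
theorem c0_m35_t1 : CovD 0 progs [(213154529280, 1761607680), (194884141056, 5905580032), (85899345920, 17179869184), (858993459200, 34359738368)] :=
  Pool.Agent.helper14.QF.covD_F chks_eq (.n 0 (.n 0 (.n 3 (.n 3 (.l 4) (.n 3 (.l 4) (.l 4))) (.l 6)) (.n 3 (.n 3 (.n 0 (.l 4) (.l 4)) (.n 3 (.l 4) (.n 0 (.l 4) (.l 4)))) (.l 6))) (.n 3 (.n 3 (.n 3 (.l 4) (.l 4)) (.n 3 (.n 0 (.l 4) (.l 4)) (.n 3 (.l 4) (.l 4)))) (.n 3 (.n 3 (.n 3 (.l 4) (.l 4)) (.l 4)) (.l 6))))
    [(213154529280, 1761607680), (194884141056, 5905580032), (85899345920, 17179869184), (858993459200, 34359738368)] rfl (by decide +kernel)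
end
mutual
theorem c0_m35_t2 : CovD 0 progs [(215796940800, 880803840), (194884141056, 5905580032), (85899345920, 17179869184), (858993459200, 34359738368)] :=
  Pool.Agent.helper14.QF.covD_F chks_eq (.n 0 (.n 3 (.n 3 (.n 3 (.l 4) (.l 4)) (.n 3 (.l 4) (.n 3 (.l 4) (.l 4)))) (.n 3 (.n 3 (.l 4) (.l 4)) (.l 6))) (.n 3 (.n 3 (.n 3 (.l 4) (.l 4)) (.n 3 (.l 4) (.n 3 (.l 4) (.l 4)))) (.n 3 (.n 3 (.l 4) (.n 0 (.l 4) (.l 4))) (.n 3 (.l 4) (.l 4)))))
    [(215796940800, 880803840), (194884141056, 5905580032), (85899345920, 17179869184), (858993459200, 34359738368)] rfl (by decide +kernel)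
theorem c0_m35_t3 : CovD 0 progs [(217558548480, 880803840), (194884141056, 5905580032), (85899345920, 17179869184), (858993459200, 34359738368)] :=
  Pool.Agent.helper14.QF.covD_F chks_eq (.n 3 (.n 3 (.n 3 (.l 4) (.n 0 (.l 4) (.l 4))) (.n 3 (.n 3 (.l 4) (.l 4)) (.n 3 (.l 4) (.l 4)))) (.n 3 (.n 3 (.l 4) (.n 3 (.l 4) (.l 4))) (.n 3 (.n 0 (.l 4) (.l 4)) (.l 4))))
    [(217558548480, 880803840), (194884141056, 5905580032), (85899345920, 17179869184), (858993459200, 34359738368)] rfl (by decide +kernel)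
end
mutual
theorem c0_m35_t6 : CovD 0 progs [(220200960000, 1761607680), (194884141056, 5905580032), (85899345920, 17179869184), (841813590016, 17179869184)] :=
  Pool.Agent.helper14.QF.covD_F chks_eq (.n 0 (.n 3 (.n 3 (.l 4) (.n 0 (.l 4) (.l 4))) (.n 3 (.n 3 (.l 4) (.l 4)) (.l 4))) (.n 0 (.n 3 (.n 3 (.l 4) (.n 0 (.l 4) (.l 4))) (.n 3 (.n 0 (.l 4) (.l 4)) (.l 4))) (.n 3 (.n 3 (.l 4) (.n 0 (.l 4) (.l 4))) (.n 3 (.l 4) (.l 4)))))
    [(220200960000, 1761607680), (194884141056, 5905580032), (85899345920, 17179869184), (841813590016, 17179869184)] rfl (by decide +kernel)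
theorem c0_m35_t7 : CovD 0 progs [(220200960000, 1761607680), (194884141056, 5905580032), (85899345920, 17179869184), (876173328384, 17179869184)] :=
  Pool.Agent.helper14.QF.covD_F chks_eq (.n 3 (.n 0 (.n 0 (.n 3 (.l 4) (.l 4)) (.n 3 (.l 4) (.l 4))) (.n 0 (.n 3 (.l 4) (.l 4)) (.n 3 (.l 4) (.l 4)))) (.n 3 (.n 0 (.l 4) (.l 4)) (.l 4)))
    [(220200960000, 1761607680), (194884141056, 5905580032), (85899345920, 17179869184), (876173328384, 17179869184)] rfl (by decide +kernel)
end
mutual
theorem c0_m35_t9 : CovD 0 progs [(223724175360, 1761607680), (194884141056, 5905580032), (85899345920, 17179869184), (858993459200, 34359738368)] :=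
  Pool.Agent.helper14.QF.covD_F chks_eq (.n 3 (.n 0 (.n 3 (.n 3 (.n 0 (.l 4) (.l 4)) (.n 3 (.l 4) (.l 4))) (.n 3 (.l 4) (.n 0 (.l 4) (.l 4)))) (.n 3 (.n 3 (.n 3 (.l 4) (.l 4)) (.n 0 (.l 4) (.l 4))) (.n 3 (.l 4) (.n 0 (.l 4) (.l 4))))) (.n 3 (.n 0 (.n 3 (.n 0 (.l 4) (.l 4)) (.l 4)) (.n 3 (.n 0 (.l 4) (.l 4)) (.l 4))) (.n 3 (.l 4) (.l 4))))
    [(223724175360, 1761607680), (194884141056, 5905580032), (85899345920, 17179869184), (858993459200, 34359738368)] rfl (by decide +kernel)
theorem c0_m35_t13 : CovD 0 progs [(211392921600, 14092861440), (206695301120, 5905580032), (85899345920, 17179869184), (828928688128, 4294967296)] :=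
  Pool.Agent.helper14.QF.covD_F chks_eq (.n 0 (.n 0 (.l 4) (.n 0 (.l 4) (.l 4))) (.n 0 (.n 0 (.l 4) (.n 0 (.l 4) (.l 4))) (.n 0 (.n 0 (.l 4) (.n 0 (.l 4) (.l 4))) (.n 0 (.n 0 (.l 4) (.l 4)) (.n 3 (.l 4) (.l 4))))))
    [(211392921600, 14092861440), (206695301120, 5905580032), (85899345920, 17179869184), (828928688128, 4294967296)] rfl (by decide +kernel)
end
mutual
theorem c0_m35_t14 : CovD 0 progs [(211392921600, 14092861440), (206695301120, 5905580032), (85899345920, 17179869184), (837518622720, 4294967296)] :=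
  Pool.Agent.helper14.QF.covD_F chks_eq (.n 0 (.n 0 (.l 6) (.n 0 (.l 4) (.l 4))) (.n 0 (.n 0 (.n 0 (.l 4) (.l 4)) (.n 0 (.l 4) (.n 0 (.l 4) (.l 4)))) (.n 0 (.n 0 (.n 0 (.l 4) (.l 4)) (.n 3 (.l 4) (.l 4))) (.n 0 (.n 3 (.l 4) (.l 4)) (.n 0 (.l 4) (.l 4))))))
    [(211392921600, 14092861440), (206695301120, 5905580032), (85899345920, 17179869184), (837518622720, 4294967296)] rfl (by decide +kernel)
theorem c0_m35_t16 : CovD 0 progs [(204346490880, 7046430720), (206695301120, 5905580032), (85899345920, 17179869184), (850403524608, 8589934592)] :=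
  Pool.Agent.helper14.QF.covD_F chks_eq (.n 0 (.l 6) (.n 0 (.l 6) (.n 0 (.l 6) (.n 3 (.l 4) (.l 6)))))
    [(204346490880, 7046430720), (206695301120, 5905580032), (85899345920, 17179869184), (850403524608, 8589934592)] rfl (by decide +kernel)
end
mutual
theorem c0_m35_t17 : CovD 0 progs [(214916136960, 3523215360), (206695301120, 5905580032), (85899345920, 17179869184), (850403524608, 8589934592)] :=
  Pool.Agent.helper14.QF.covD_F chks_eq (.n 0 (.n 0 (.n 3 (.l 4) (.n 3 (.l 4) (.l 4))) (.n 3 (.n 0 (.l 4) (.l 4)) (.n 3 (.l 4) (.l 4)))) (.n 0 (.n 3 (.n 0 (.l 4) (.l 4)) (.n 3 (.l 4) (.l 4))) (.n 3 (.n 3 (.l 4) (.l 4)) (.n 3 (.l 4) (.l 4)))))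
    [(214916136960, 3523215360), (206695301120, 5905580032), (85899345920, 17179869184), (850403524608, 8589934592)] rfl (by decide +kernel)
theorem c0_m35_t18 : CovD 0 progs [(221962567680, 3523215360), (206695301120, 5905580032), (85899345920, 17179869184), (850403524608, 8589934592)] :=
  Pool.Agent.helper14.QF.covD_F chks_eq (.n 0 (.n 0 (.n 3 (.n 3 (.l 4) (.l 4)) (.l 4)) (.n 3 (.n 3 (.l 4) (.l 4)) (.l 4))) (.n 0 (.n 3 (.l 4) (.n 0 (.l 4) (.l 4))) (.n 3 (.l 4) (.n 0 (.l 4) (.l 4)))))
    [(221962567680, 3523215360), (206695301120, 5905580032), (85899345920, 17179869184), (850403524608, 8589934592)] rfl (by decide +kernel)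
end
mutual
theorem c0_m35_t22 : CovD 0 progs [(204346490880, 7046430720), (206695301120, 5905580032), (85899345920, 17179869184), (876173328384, 17179869184)] :=
  Pool.Agent.helper14.QF.covD_F chks_eq (.l 6)
    [(204346490880, 7046430720), (206695301120, 5905580032), (85899345920, 17179869184), (876173328384, 17179869184)] rfl (by decide +kernel)
theorem c0_m35_t23 : CovD 0 progs [(214916136960, 3523215360), (206695301120, 5905580032), (85899345920, 17179869184), (876173328384, 17179869184)] :=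
  Pool.Agent.helper14.QF.covD_F chks_eq (.n 0 (.n 0 (.n 3 (.n 3 (.n 3 (.l 4) (.l 4)) (.l 6)) (.l 6)) (.n 3 (.n 3 (.n 3 (.l 4) (.l 4)) (.l 4)) (.n 3 (.n 3 (.l 4) (.l 4)) (.l 6)))) (.n 0 (.n 3 (.n 3 (.n 0 (.l 4) (.l 4)) (.n 3 (.l 4) (.l 4))) (.n 3 (.n 3 (.l 4) (.l 4)) (.l 4))) (.n 3 (.n 3 (.l 4) (.n 3 (.l 4) (.l 4))) (.n 3 (.n 0 (.l 4) (.l 4)) (.l 4)))))
    [(214916136960, 3523215360), (206695301120, 5905580032), (85899345920, 17179869184), (876173328384, 17179869184)] rfl (by decide +kernel)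
end
mutual
theorem c0_m35_t24 : CovD 0 progs [(221962567680, 3523215360), (206695301120, 5905580032), (85899345920, 17179869184), (876173328384, 17179869184)] :=
  Pool.Agent.helper14.QF.covD_F chks_eq (.n 0 (.n 3 (.n 0 (.n 0 (.n 3 (.l 4) (.l 4)) (.n 3 (.l 4) (.l 4))) (.n 0 (.n 3 (.l 4) (.l 4)) (.n 3 (.l 4) (.l 4)))) (.n 3 (.n 0 (.l 4) (.l 4)) (.l 4))) (.n 3 (.n 0 (.n 3 (.n 0 (.l 4) (.l 4)) (.l 4)) (.n 3 (.n 0 (.l 4) (.l 4)) (.l 4))) (.n 3 (.l 4) (.l 4))))
    [(221962567680, 3523215360), (206695301120, 5905580032), (85899345920, 17179869184), (876173328384, 17179869184)] rfl (by decide +kernel)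
theorem c0_m35_t29 : CovD 0 progs [(204346490880, 7046430720), (194884141056, 5905580032), (120259084288, 17179869184), (858993459200, 34359738368)] :=
  Pool.Agent.helper14.QF.covD_F chks_eq (.n 0 (.l 6) (.n 0 (.l 6) (.n 2 (.n 3 (.n 3 (.n 3 (.l 4) (.l 4)) (.l 6)) (.l 6)) (.l 6))))
    [(204346490880, 7046430720), (194884141056, 5905580032), (120259084288, 17179869184), (858993459200, 34359738368)] rfl (by decide +kernel)
end
mutual
theorem c0_m35_t30 : CovD 0 progs [(213154529280, 1761607680), (194884141056, 5905580032), (120259084288, 17179869184), (858993459200, 34359738368)] :=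
  Pool.Agent.helper14.QF.covD_F chks_eq (.n 0 (.n 3 (.n 3 (.n 3 (.l 4) (.l 4)) (.n 3 (.l 4) (.l 6))) (.l 6)) (.n 0 (.n 3 (.n 3 (.n 3 (.l 4) (.l 4)) (.n 3 (.l 4) (.n 0 (.l 4) (.l 4)))) (.l 6)) (.n 3 (.n 3 (.n 3 (.l 4) (.l 4)) (.n 3 (.l 4) (.n 0 (.l 4) (.l 4)))) (.n 2 (.l 6) (.l 6)))))
    [(213154529280, 1761607680), (194884141056, 5905580032), (120259084288, 17179869184), (858993459200, 34359738368)] rfl (by decide +kernel)
theorem c0_m35_t31 : CovD 0 progs [(215796940800, 880803840), (194884141056, 5905580032), (120259084288, 17179869184), (858993459200, 34359738368)] :=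
  Pool.Agent.helper14.QF.covD_F chks_eq (.n 0 (.n 3 (.n 3 (.n 3 (.l 4) (.l 4)) (.n 3 (.l 4) (.n 3 (.l 4) (.l 4)))) (.n 3 (.n 3 (.l 4) (.l 4)) (.l 6))) (.n 3 (.n 3 (.n 3 (.l 4) (.l 4)) (.n 3 (.l 4) (.n 3 (.l 4) (.l 4)))) (.n 3 (.n 3 (.l 4) (.n 0 (.l 4) (.l 4))) (.l 6))))
    [(215796940800, 880803840), (194884141056, 5905580032), (120259084288, 17179869184), (858993459200, 34359738368)] rfl (by decide +kernel)
end
mutual
theorem c0_m35_t32 : CovD 0 progs [(217558548480, 880803840), (194884141056, 5905580032), (120259084288, 17179869184), (858993459200, 34359738368)] :=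
  Pool.Agent.helper14.QF.covD_F chks_eq (.n 3 (.n 3 (.n 3 (.l 4) (.n 0 (.l 4) (.l 4))) (.n 3 (.n 3 (.l 4) (.l 4)) (.n 3 (.l 4) (.l 4)))) (.n 3 (.n 3 (.l 4) (.n 3 (.l 4) (.l 4))) (.n 3 (.n 0 (.l 4) (.l 4)) (.l 4))))
    [(217558548480, 880803840), (194884141056, 5905580032), (120259084288, 17179869184), (858993459200, 34359738368)] rfl (by decide +kernel)
theorem c0_m35_t35 : CovD 0 progs [(220200960000, 1761607680), (194884141056, 5905580032), (120259084288, 17179869184), (841813590016, 17179869184)] :=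
  Pool.Agent.helper14.QF.covD_F chks_eq (.n 0 (.n 3 (.n 3 (.l 4) (.n 0 (.l 4) (.l 4))) (.n 3 (.n 3 (.l 4) (.l 4)) (.l 4))) (.n 0 (.n 3 (.n 3 (.l 4) (.n 0 (.l 4) (.l 4))) (.n 3 (.n 0 (.l 4) (.l 4)) (.l 4))) (.n 3 (.n 3 (.l 4) (.n 0 (.l 4) (.l 4))) (.n 3 (.l 4) (.l 4)))))
    [(220200960000, 1761607680), (194884141056, 5905580032), (120259084288, 17179869184), (841813590016, 17179869184)] rfl (by decide +kernel)
end
mutual
theorem c0_m35_t36 : CovD 0 progs [(220200960000, 1761607680), (194884141056, 5905580032), (120259084288, 17179869184), (876173328384, 17179869184)] :=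
  Pool.Agent.helper14.QF.covD_F chks_eq (.n 3 (.n 3 (.n 0 (.n 0 (.l 4) (.l 4)) (.n 0 (.l 4) (.l 4))) (.n 0 (.n 0 (.l 4) (.l 4)) (.n 0 (.l 4) (.l 4)))) (.n 3 (.n 0 (.l 4) (.l 4)) (.l 4)))
    [(220200960000, 1761607680), (194884141056, 5905580032), (120259084288, 17179869184), (876173328384, 17179869184)] rfl (by decide +kernel)
theorem c0_m35_t38 : CovD 0 progs [(223724175360, 1761607680), (194884141056, 5905580032), (120259084288, 17179869184), (841813590016, 17179869184)] :=
  Pool.Agent.helper14.QF.covD_F chks_eq (.n 0 (.n 3 (.n 3 (.n 0 (.l 4) (.l 4)) (.n 3 (.l 4) (.l 4))) (.n 3 (.l 4) (.n 0 (.l 4) (.l 4)))) (.n 0 (.n 3 (.n 3 (.n 0 (.l 4) (.l 4)) (.l 4)) (.n 3 (.l 4) (.l 4))) (.n 3 (.n 3 (.n 0 (.l 4) (.l 4)) (.l 4)) (.n 3 (.l 4) (.l 4)))))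
    [(223724175360, 1761607680), (194884141056, 5905580032), (120259084288, 17179869184), (841813590016, 17179869184)] rfl (by decide +kernel)
end
mutual
theorem c0_m35_t39 : CovD 0 progs [(223724175360, 1761607680), (194884141056, 5905580032), (120259084288, 17179869184), (876173328384, 17179869184)] :=
  Pool.Agent.helper14.QF.covD_F chks_eq (.n 3 (.n 0 (.n 3 (.n 0 (.l 4) (.l 4)) (.l 4)) (.n 3 (.n 0 (.l 4) (.l 4)) (.l 4))) (.n 3 (.l 4) (.l 4)))
    [(223724175360, 1761607680), (194884141056, 5905580032), (120259084288, 17179869184), (876173328384, 17179869184)] rfl (by decide +kernel)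
theorem c0_m35_t44 : CovD 0 progs [(204346490880, 7046430720), (206695301120, 5905580032), (120259084288, 17179869184), (858993459200, 34359738368)] :=
  Pool.Agent.helper14.QF.covD_F chks_eq (.n 0 (.l 6) (.n 0 (.l 6) (.n 3 (.n 3 (.n 3 (.l 4) (.l 4)) (.l 6)) (.l 6))))
    [(204346490880, 7046430720), (206695301120, 5905580032), (120259084288, 17179869184), (858993459200, 34359738368)] rfl (by decide +kernel)
end
mutual
theorem c0_m35_t45 : CovD 0 progs [(213154529280, 1761607680), (206695301120, 5905580032), (120259084288, 17179869184), (858993459200, 34359738368)] :=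
  Pool.Agent.helper14.QF.covD_F chks_eq (.n 0 (.n 3 (.n 3 (.n 3 (.l 4) (.l 4)) (.n 3 (.l 4) (.n 3 (.l 4) (.l 4)))) (.l 6)) (.n 3 (.n 3 (.n 3 (.l 4) (.l 4)) (.n 3 (.n 0 (.l 4) (.l 4)) (.n 3 (.l 4) (.l 4)))) (.n 3 (.n 3 (.n 3 (.l 4) (.l 4)) (.l 4)) (.l 6))))
    [(213154529280, 1761607680), (206695301120, 5905580032), (120259084288, 17179869184), (858993459200, 34359738368)] rfl (by decide +kernel)
theorem c0_m35_t46 : CovD 0 progs [(215796940800, 880803840), (206695301120, 5905580032), (120259084288, 17179869184), (858993459200, 34359738368)] :=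
  Pool.Agent.helper14.QF.covD_F chks_eq (.n 0 (.n 3 (.n 3 (.n 3 (.l 4) (.l 4)) (.n 3 (.l 4) (.n 3 (.l 4) (.l 4)))) (.n 3 (.n 3 (.l 4) (.l 4)) (.n 2 (.l 6) (.l 6)))) (.n 3 (.n 3 (.n 3 (.l 4) (.l 4)) (.n 3 (.l 4) (.n 3 (.l 4) (.l 4)))) (.n 3 (.n 3 (.l 4) (.n 0 (.l 4) (.l 4))) (.n 3 (.l 4) (.l 4)))))
    [(215796940800, 880803840), (206695301120, 5905580032), (120259084288, 17179869184), (858993459200, 34359738368)] rfl (by decide +kernel)
end
mutual
theorem c0_m35_t47 : CovD 0 progs [(217558548480, 880803840), (206695301120, 5905580032), (120259084288, 17179869184), (858993459200, 34359738368)] :=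
  Pool.Agent.helper14.QF.covD_F chks_eq (.n 3 (.n 3 (.n 3 (.l 4) (.n 0 (.l 4) (.l 4))) (.n 3 (.n 3 (.l 4) (.l 4)) (.n 3 (.l 4) (.l 4)))) (.n 3 (.n 3 (.l 4) (.n 3 (.l 4) (.l 4))) (.n 3 (.n 0 (.l 4) (.l 4)) (.l 4))))
    [(217558548480, 880803840), (206695301120, 5905580032), (120259084288, 17179869184), (858993459200, 34359738368)] rfl (by decide +kernel)
theorem c0_m35_t50 : CovD 0 progs [(220200960000, 1761607680), (206695301120, 5905580032), (120259084288, 17179869184), (858993459200, 34359738368)] :=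
  Pool.Agent.helper14.QF.covD_F chks_eq (.n 3 (.n 0 (.n 3 (.n 3 (.l 4) (.n 0 (.l 4) (.l 4))) (.n 3 (.n 3 (.l 4) (.l 4)) (.l 4))) (.n 3 (.n 3 (.n 0 (.l 4) (.l 4)) (.n 3 (.l 4) (.l 4))) (.n 3 (.n 3 (.l 4) (.l 4)) (.l 4)))) (.n 3 (.n 3 (.n 0 (.n 0 (.l 4) (.l 4)) (.n 0 (.l 4) (.l 4))) (.n 0 (.n 0 (.l 4) (.l 4)) (.n 0 (.l 4) (.l 4)))) (.n 3 (.n 0 (.l 4) (.l 4)) (.l 4))))
    [(220200960000, 1761607680), (206695301120, 5905580032), (120259084288, 17179869184), (858993459200, 34359738368)] rfl (by decide +kernel)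
end
mutual
theorem c0_m35_t51 : CovD 0 progs [(223724175360, 1761607680), (206695301120, 5905580032), (120259084288, 17179869184), (858993459200, 34359738368)] :=
  Pool.Agent.helper14.QF.covD_F chks_eq (.n 3 (.n 0 (.n 3 (.n 3 (.n 0 (.l 4) (.l 4)) (.n 3 (.l 4) (.l 4))) (.n 3 (.l 4) (.n 0 (.l 4) (.l 4)))) (.n 3 (.n 3 (.n 3 (.l 4) (.l 4)) (.n 0 (.l 4) (.l 4))) (.n 3 (.l 4) (.n 0 (.l 4) (.l 4))))) (.n 3 (.n 0 (.n 3 (.n 0 (.l 4) (.l 4)) (.l 4)) (.n 3 (.n 0 (.l 4) (.l 4)) (.l 4))) (.n 3 (.l 4) (.l 4))))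
    [(223724175360, 1761607680), (206695301120, 5905580032), (120259084288, 17179869184), (858993459200, 34359738368)] rfl (by decide +kernel)
theorem c0_m35_t57 : CovD 0 progs [(211392921600, 14092861440), (200789721088, 11811160064), (103079215104, 34359738368), (927712935936, 34359738368)] :=
  Pool.Agent.helper14.QF.covD_F chks_eq (.n 3 (.n 3 (.n 3 (.n 0 (.l 6) (.n 0 (.n 0 (.l 6) (.l 4)) (.n 0 (.l 4) (.l 4)))) (.n 0 (.l 6) (.n 0 (.n 0 (.l 4) (.l 4)) (.l 4)))) (.n 0 (.l 6) (.n 0 (.l 6) (.n 0 (.l 4) (.l 4))))) (.n 0 (.l 6) (.n 0 (.l 6) (.n 3 (.l 4) (.l 4)))))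
    [(211392921600, 14092861440), (200789721088, 11811160064), (103079215104, 34359738368), (927712935936, 34359738368)] rfl (by decide +kernel)
end
theorem c0_m35_t4 : CovD 0 progs [(216677744640, 1761607680), (194884141056, 5905580032), (85899345920, 17179869184), (858993459200, 34359738368)] :=
  covD_split 0 (by decide +kernel) c0_m35_t2 c0_m35_t3
theorem c0_m35_t5 : CovD 0 progs [(214916136960, 3523215360), (194884141056, 5905580032), (85899345920, 17179869184), (858993459200, 34359738368)] :=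
  covD_split 0 (by decide +kernel) c0_m35_t1 c0_m35_t4
theorem c0_m35_t8 : CovD 0 progs [(220200960000, 1761607680), (194884141056, 5905580032), (85899345920, 17179869184), (858993459200, 34359738368)] :=
  covD_split 3 (by decide +kernel) c0_m35_t6 c0_m35_t7
theorem c0_m35_t10 : CovD 0 progs [(221962567680, 3523215360), (194884141056, 5905580032), (85899345920, 17179869184), (858993459200, 34359738368)] :=
  covD_split 0 (by decide +kernel) c0_m35_t8 c0_m35_t9
theorem c0_m35_t11 : CovD 0 progs [(218439352320, 7046430720), (194884141056, 5905580032), (85899345920, 17179869184), (858993459200, 34359738368)] :=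
  covD_split 0 (by decide +kernel) c0_m35_t5 c0_m35_t10
theorem c0_m35_t12 : CovD 0 progs [(211392921600, 14092861440), (194884141056, 5905580032), (85899345920, 17179869184), (858993459200, 34359738368)] :=
  covD_split 0 (by decide +kernel) c0_m35_t0 c0_m35_t11
theorem c0_m35_t15 : CovD 0 progs [(211392921600, 14092861440), (206695301120, 5905580032), (85899345920, 17179869184), (833223655424, 8589934592)] :=
  covD_split 3 (by decide +kernel) c0_m35_t13 c0_m35_t14
theorem c0_m35_t19 : CovD 0 progs [(218439352320, 7046430720), (206695301120, 5905580032), (85899345920, 17179869184), (850403524608, 8589934592)] :=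
  covD_split 0 (by decide +kernel) c0_m35_t17 c0_m35_t18
theorem c0_m35_t20 : CovD 0 progs [(211392921600, 14092861440), (206695301120, 5905580032), (85899345920, 17179869184), (850403524608, 8589934592)] :=
  covD_split 0 (by decide +kernel) c0_m35_t16 c0_m35_t19
theorem c0_m35_t21 : CovD 0 progs [(211392921600, 14092861440), (206695301120, 5905580032), (85899345920, 17179869184), (841813590016, 17179869184)] :=
  covD_split 3 (by decide +kernel) c0_m35_t15 c0_m35_t20
theorem c0_m35_t25 : CovD 0 progs [(218439352320, 7046430720), (206695301120, 5905580032), (85899345920, 17179869184), (876173328384, 17179869184)] :=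
  covD_split 0 (by decide +kernel) c0_m35_t23 c0_m35_t24
theorem c0_m35_t26 : CovD 0 progs [(211392921600, 14092861440), (206695301120, 5905580032), (85899345920, 17179869184), (876173328384, 17179869184)] :=
  covD_split 0 (by decide +kernel) c0_m35_t22 c0_m35_t25
theorem c0_m35_t27 : CovD 0 progs [(211392921600, 14092861440), (206695301120, 5905580032), (85899345920, 17179869184), (858993459200, 34359738368)] :=
  covD_split 3 (by decide +kernel) c0_m35_t21 c0_m35_t26
theorem c0_m35_t28 : CovD 0 progs [(211392921600, 14092861440), (200789721088, 11811160064), (85899345920, 17179869184), (858993459200, 34359738368)] :=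
  covD_split 1 (by decide +kernel) c0_m35_t12 c0_m35_t27
theorem c0_m35_t33 : CovD 0 progs [(216677744640, 1761607680), (194884141056, 5905580032), (120259084288, 17179869184), (858993459200, 34359738368)] :=
  covD_split 0 (by decide +kernel) c0_m35_t31 c0_m35_t32
theorem c0_m35_t34 : CovD 0 progs [(214916136960, 3523215360), (194884141056, 5905580032), (120259084288, 17179869184), (858993459200, 34359738368)] :=
  covD_split 0 (by decide +kernel) c0_m35_t30 c0_m35_t33
theorem c0_m35_t37 : CovD 0 progs [(220200960000, 1761607680), (194884141056, 5905580032), (120259084288, 17179869184), (858993459200, 34359738368)] :=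
  covD_split 3 (by decide +kernel) c0_m35_t35 c0_m35_t36
theorem c0_m35_t40 : CovD 0 progs [(223724175360, 1761607680), (194884141056, 5905580032), (120259084288, 17179869184), (858993459200, 34359738368)] :=
  covD_split 3 (by decide +kernel) c0_m35_t38 c0_m35_t39
theorem c0_m35_t41 : CovD 0 progs [(221962567680, 3523215360), (194884141056, 5905580032), (120259084288, 17179869184), (858993459200, 34359738368)] :=
  covD_split 0 (by decide +kernel) c0_m35_t37 c0_m35_t40
theorem c0_m35_t42 : CovD 0 progs [(218439352320, 7046430720), (194884141056, 5905580032), (120259084288, 17179869184), (858993459200, 34359738368)] :=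
  covD_split 0 (by decide +kernel) c0_m35_t34 c0_m35_t41
theorem c0_m35_t43 : CovD 0 progs [(211392921600, 14092861440), (194884141056, 5905580032), (120259084288, 17179869184), (858993459200, 34359738368)] :=
  covD_split 0 (by decide +kernel) c0_m35_t29 c0_m35_t42
theorem c0_m35_t48 : CovD 0 progs [(216677744640, 1761607680), (206695301120, 5905580032), (120259084288, 17179869184), (858993459200, 34359738368)] :=
  covD_split 0 (by decide +kernel) c0_m35_t46 c0_m35_t47
theorem c0_m35_t49 : CovD 0 progs [(214916136960, 3523215360), (206695301120, 5905580032), (120259084288, 17179869184), (858993459200, 34359738368)] :=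
  covD_split 0 (by decide +kernel) c0_m35_t45 c0_m35_t48
theorem c0_m35_t52 : CovD 0 progs [(221962567680, 3523215360), (206695301120, 5905580032), (120259084288, 17179869184), (858993459200, 34359738368)] :=
  covD_split 0 (by decide +kernel) c0_m35_t50 c0_m35_t51
theorem c0_m35_t53 : CovD 0 progs [(218439352320, 7046430720), (206695301120, 5905580032), (120259084288, 17179869184), (858993459200, 34359738368)] :=
  covD_split 0 (by decide +kernel) c0_m35_t49 c0_m35_t52
theorem c0_m35_t54 : CovD 0 progs [(211392921600, 14092861440), (206695301120, 5905580032), (120259084288, 17179869184), (858993459200, 34359738368)] :=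
  covD_split 0 (by decide +kernel) c0_m35_t44 c0_m35_t53
theorem c0_m35_t55 : CovD 0 progs [(211392921600, 14092861440), (200789721088, 11811160064), (120259084288, 17179869184), (858993459200, 34359738368)] :=
  covD_split 1 (by decide +kernel) c0_m35_t43 c0_m35_t54
theorem c0_m35_t56 : CovD 0 progs [(211392921600, 14092861440), (200789721088, 11811160064), (103079215104, 34359738368), (858993459200, 34359738368)] :=
  covD_split 2 (by decide +kernel) c0_m35_t28 c0_m35_t55
theorem c0_m35 : CovD 0 progs [(211392921600, 14092861440), (200789721088, 11811160064), (103079215104, 34359738368), (893353197568, 68719476736)] :=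
  covD_split 3 (by decide +kernel) c0_m35_t56 c0_m35_t57

end Pool.Agent.helper71.FJ.Crt.QMa
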