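import Pool.Agent.helper71.FJ.Crt.QMaP

/-!
Generated certificates.
-/

namespace Pool.Agent.helper71.FJ.Crt.QMa

open Pool.Agent.helper31.IA (Z Op)
open Pool.Agent.helper31.IC

mutual
theorem c0_m39_t0 : CovD 0 progs [(204346490880, 7046430720), (194884141056, 5905580032), (171798691840, 34359738368), (858993459200, 34359738368)] :=
  Pool.Agent.helper14.QF.covD_F chks_eq (.l 6)
    [(204346490880, 7046430720), (194884141056, 5905580032), (171798691840, 34359738368), (858993459200, 34359738368)] rfl (by decide +kernel)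
theorem c0_m39_t1 : CovD 0 progs [(214916136960, 3523215360), (194884141056, 5905580032), (171798691840, 34359738368), (841813590016, 17179869184)] :=
  Pool.Agent.helper14.QF.covD_F chks_eq (.n 3 (.n 3 (.n 0 (.l 4) (.n 0 (.l 4) (.l 4))) (.n 0 (.n 0 (.l 4) (.l 4)) (.n 0 (.l 4) (.n 0 (.l 4) (.l 4))))) (.n 3 (.n 0 (.n 0 (.l 4) (.n 0 (.l 4) (.l 4))) (.n 0 (.n 0 (.l 4) (.l 4)) (.n 3 (.l 4) (.l 4)))) (.n 0 (.l 6) (.n 0 (.n 3 (.l 4) (.l 4)) (.n 3 (.l 4) (.l 4))))))
    [(214916136960, 3523215360), (194884141056, 5905580032), (171798691840, 34359738368), (841813590016, 17179869184)] rfl (by decide +kernel)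
end
mutual
theorem c0_m39_t2 : CovD 0 progs [(220200960000, 1761607680), (194884141056, 5905580032), (171798691840, 34359738368), (841813590016, 17179869184)] :=
  Pool.Agent.helper14.QF.covD_F chks_eq (.n 0 (.n 3 (.n 3 (.l 4) (.n 0 (.l 4) (.l 4))) (.n 3 (.n 3 (.l 4) (.l 4)) (.l 4))) (.n 0 (.n 3 (.n 3 (.l 4) (.n 0 (.l 4) (.l 4))) (.n 3 (.n 0 (.l 4) (.l 4)) (.l 4))) (.n 3 (.n 3 (.l 4) (.n 0 (.l 4) (.l 4))) (.n 3 (.l 4) (.l 4)))))
    [(220200960000, 1761607680), (194884141056, 5905580032), (171798691840, 34359738368), (841813590016, 17179869184)] rfl (by decide +kernel)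
theorem c0_m39_t3 : CovD 0 progs [(223724175360, 1761607680), (194884141056, 5905580032), (171798691840, 34359738368), (841813590016, 17179869184)] :=
  Pool.Agent.helper14.QF.covD_F chks_eq (.n 0 (.n 0 (.n 3 (.n 3 (.l 4) (.n 0 (.l 4) (.l 4))) (.n 3 (.l 4) (.l 4))) (.n 3 (.n 3 (.l 4) (.n 0 (.l 4) (.l 4))) (.n 3 (.l 4) (.l 4)))) (.n 0 (.n 3 (.n 3 (.n 0 (.l 4) (.l 4)) (.l 4)) (.n 3 (.l 4) (.l 4))) (.n 3 (.n 3 (.n 0 (.l 4) (.l 4)) (.l 4)) (.n 3 (.l 4) (.l 4)))))
    [(223724175360, 1761607680), (194884141056, 5905580032), (171798691840, 34359738368), (841813590016, 17179869184)] rfl (by decide +kernel)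
end
mutual
theorem c0_m39_t6 : CovD 0 progs [(218439352320, 7046430720), (194884141056, 5905580032), (171798691840, 34359738368), (867583393792, 8589934592)] :=
  Pool.Agent.helper14.QF.covD_F chks_eq (.n 3 (.n 0 (.n 0 (.l 6) (.n 0 (.n 0 (.l 4) (.l 4)) (.l 4))) (.n 3 (.n 0 (.n 0 (.l 4) (.l 4)) (.n 0 (.l 4) (.l 4))) (.n 0 (.n 0 (.l 4) (.l 4)) (.n 0 (.l 4) (.l 4))))) (.n 0 (.n 0 (.l 6) (.n 0 (.l 6) (.n 3 (.l 4) (.l 4)))) (.n 0 (.n 0 (.n 0 (.l 4) (.l 4)) (.n 0 (.l 4) (.l 4))) (.n 0 (.l 4) (.l 4)))))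
    [(218439352320, 7046430720), (194884141056, 5905580032), (171798691840, 34359738368), (867583393792, 8589934592)] rfl (by decide +kernel)
theorem c0_m39_t7 : CovD 0 progs [(218439352320, 7046430720), (194884141056, 5905580032), (171798691840, 34359738368), (884763262976, 8589934592)] :=
  Pool.Agent.helper14.QF.covD_F chks_eq (.n 0 (.n 2 (.l 6) (.l 6)) (.n 0 (.n 3 (.n 0 (.l 4) (.l 4)) (.l 4)) (.n 3 (.l 4) (.l 4))))
    [(218439352320, 7046430720), (194884141056, 5905580032), (171798691840, 34359738368), (884763262976, 8589934592)] rfl (by decide +kernel)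
end
mutual
theorem c0_m39_t11 : CovD 0 progs [(204346490880, 7046430720), (206695301120, 5905580032), (154618822656, 17179869184), (858993459200, 34359738368)] :=
  Pool.Agent.helper14.QF.covD_F chks_eq (.n 2 (.n 3 (.l 6) (.l 6)) (.l 6))
    [(204346490880, 7046430720), (206695301120, 5905580032), (154618822656, 17179869184), (858993459200, 34359738368)] rfl (by decide +kernel)
theorem c0_m39_t12 : CovD 0 progs [(213154529280, 1761607680), (206695301120, 5905580032), (154618822656, 17179869184), (858993459200, 34359738368)] :=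
  Pool.Agent.helper14.QF.covD_F chks_eq (.n 0 (.n 3 (.n 3 (.n 3 (.l 4) (.l 4)) (.l 6)) (.l 6)) (.n 0 (.n 2 (.n 3 (.n 3 (.n 3 (.l 4) (.l 4)) (.n 3 (.l 4) (.l 6))) (.l 6)) (.n 3 (.n 3 (.n 3 (.l 4) (.l 4)) (.l 6)) (.l 6))) (.n 3 (.n 3 (.n 3 (.l 4) (.l 4)) (.n 3 (.l 4) (.n 0 (.l 4) (.l 4)))) (.l 6))))
    [(213154529280, 1761607680), (206695301120, 5905580032), (154618822656, 17179869184), (858993459200, 34359738368)] rfl (by decide +kernel)
end
mutual
theorem c0_m39_t13 : CovD 0 progs [(215796940800, 880803840), (206695301120, 5905580032), (154618822656, 17179869184), (858993459200, 34359738368)] :=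
  Pool.Agent.helper14.QF.covD_F chks_eq (.n 0 (.n 3 (.n 3 (.n 3 (.l 4) (.l 4)) (.n 3 (.l 4) (.n 3 (.l 4) (.l 4)))) (.n 3 (.n 3 (.l 4) (.l 4)) (.l 6))) (.n 3 (.n 3 (.n 3 (.l 4) (.l 4)) (.n 3 (.l 4) (.n 3 (.l 4) (.l 4)))) (.n 3 (.n 3 (.l 4) (.n 0 (.l 4) (.l 4))) (.l 6))))
    [(215796940800, 880803840), (206695301120, 5905580032), (154618822656, 17179869184), (858993459200, 34359738368)] rfl (by decide +kernel)
theorem c0_m39_t14 : CovD 0 progs [(217558548480, 880803840), (206695301120, 5905580032), (154618822656, 17179869184), (858993459200, 34359738368)] :=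
  Pool.Agent.helper14.QF.covD_F chks_eq (.n 3 (.n 3 (.n 3 (.l 4) (.n 0 (.l 4) (.l 4))) (.n 3 (.n 3 (.l 4) (.l 4)) (.n 3 (.l 4) (.l 4)))) (.n 3 (.n 3 (.l 4) (.n 3 (.l 4) (.l 4))) (.n 3 (.n 0 (.l 4) (.l 4)) (.l 4))))
    [(217558548480, 880803840), (206695301120, 5905580032), (154618822656, 17179869184), (858993459200, 34359738368)] rfl (by decide +kernel)
end
mutual
theorem c0_m39_t17 : CovD 0 progs [(220200960000, 1761607680), (206695301120, 5905580032), (154618822656, 17179869184), (841813590016, 17179869184)] :=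
  Pool.Agent.helper14.QF.covD_F chks_eq (.n 0 (.n 3 (.n 3 (.l 4) (.n 0 (.l 4) (.l 4))) (.n 3 (.n 3 (.l 4) (.l 4)) (.l 4))) (.n 0 (.n 3 (.n 3 (.l 4) (.n 0 (.l 4) (.l 4))) (.n 3 (.n 0 (.l 4) (.l 4)) (.l 4))) (.n 3 (.n 3 (.l 4) (.n 0 (.l 4) (.l 4))) (.n 3 (.l 4) (.l 4)))))
    [(220200960000, 1761607680), (206695301120, 5905580032), (154618822656, 17179869184), (841813590016, 17179869184)] rfl (by decide +kernel)
theorem c0_m39_t18 : CovD 0 progs [(220200960000, 1761607680), (206695301120, 5905580032), (154618822656, 17179869184), (876173328384, 17179869184)] :=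
  Pool.Agent.helper14.QF.covD_F chks_eq (.n 3 (.n 3 (.n 0 (.n 0 (.l 4) (.l 4)) (.n 0 (.l 4) (.l 4))) (.n 0 (.n 0 (.l 4) (.l 4)) (.n 0 (.l 4) (.l 4)))) (.n 3 (.n 0 (.l 4) (.l 4)) (.l 4)))
    [(220200960000, 1761607680), (206695301120, 5905580032), (154618822656, 17179869184), (876173328384, 17179869184)] rfl (by decide +kernel)
end
mutual
theorem c0_m39_t20 : CovD 0 progs [(223724175360, 1761607680), (206695301120, 5905580032), (154618822656, 17179869184), (841813590016, 17179869184)] :=
  Pool.Agent.helper14.QF.covD_F chks_eq (.n 0 (.n 0 (.n 3 (.n 3 (.l 4) (.n 0 (.l 4) (.l 4))) (.n 3 (.l 4) (.l 4))) (.n 3 (.n 3 (.l 4) (.n 0 (.l 4) (.l 4))) (.n 3 (.l 4) (.l 4)))) (.n 0 (.n 3 (.n 3 (.n 0 (.l 4) (.l 4)) (.l 4)) (.n 3 (.l 4) (.l 4))) (.n 3 (.n 3 (.n 0 (.l 4) (.l 4)) (.l 4)) (.n 3 (.l 4) (.l 4)))))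
    [(223724175360, 1761607680), (206695301120, 5905580032), (154618822656, 17179869184), (841813590016, 17179869184)] rfl (by decide +kernel)
theorem c0_m39_t21 : CovD 0 progs [(223724175360, 1761607680), (206695301120, 5905580032), (154618822656, 17179869184), (876173328384, 17179869184)] :=
  Pool.Agent.helper14.QF.covD_F chks_eq (.n 3 (.n 0 (.n 3 (.n 0 (.l 4) (.l 4)) (.l 4)) (.n 3 (.n 0 (.l 4) (.l 4)) (.l 4))) (.n 3 (.l 4) (.l 4)))
    [(223724175360, 1761607680), (206695301120, 5905580032), (154618822656, 17179869184), (876173328384, 17179869184)] rfl (by decide +kernel)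
end
mutual
theorem c0_m39_t26 : CovD 0 progs [(204346490880, 7046430720), (206695301120, 5905580032), (188978561024, 17179869184), (858993459200, 34359738368)] :=
  Pool.Agent.helper14.QF.covD_F chks_eq (.l 6)
    [(204346490880, 7046430720), (206695301120, 5905580032), (188978561024, 17179869184), (858993459200, 34359738368)] rfl (by decide +kernel)
theorem c0_m39_t27 : CovD 0 progs [(213154529280, 1761607680), (206695301120, 5905580032), (188978561024, 17179869184), (858993459200, 34359738368)] :=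
  Pool.Agent.helper14.QF.covD_F chks_eq (.n 0 (.l 6) (.n 3 (.n 3 (.n 3 (.l 4) (.l 4)) (.l 6)) (.l 6)))
    [(213154529280, 1761607680), (206695301120, 5905580032), (188978561024, 17179869184), (858993459200, 34359738368)] rfl (by decide +kernel)
end
mutual
theorem c0_m39_t28 : CovD 0 progs [(215796940800, 880803840), (206695301120, 5905580032), (188978561024, 17179869184), (858993459200, 34359738368)] :=
  Pool.Agent.helper14.QF.covD_F chks_eq (.n 0 (.n 3 (.n 3 (.n 3 (.l 4) (.l 4)) (.n 3 (.l 4) (.l 6))) (.l 6)) (.n 3 (.n 3 (.n 3 (.l 4) (.l 4)) (.n 3 (.l 4) (.n 0 (.l 6) (.l 4)))) (.l 6)))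
    [(215796940800, 880803840), (206695301120, 5905580032), (188978561024, 17179869184), (858993459200, 34359738368)] rfl (by decide +kernel)
theorem c0_m39_t29 : CovD 0 progs [(217558548480, 880803840), (206695301120, 5905580032), (188978561024, 17179869184), (858993459200, 34359738368)] :=
  Pool.Agent.helper14.QF.covD_F chks_eq (.n 3 (.n 2 (.n 3 (.n 3 (.l 4) (.n 0 (.l 4) (.l 4))) (.n 3 (.n 3 (.l 4) (.l 4)) (.n 3 (.l 4) (.l 4)))) (.n 0 (.n 3 (.n 3 (.l 4) (.l 4)) (.n 3 (.n 0 (.l 4) (.l 4)) (.l 6))) (.n 3 (.n 3 (.l 4) (.l 4)) (.n 3 (.n 0 (.l 4) (.l 4)) (.l 4))))) (.n 3 (.n 3 (.l 4) (.n 3 (.l 4) (.l 4))) (.l 6)))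
    [(217558548480, 880803840), (206695301120, 5905580032), (188978561024, 17179869184), (858993459200, 34359738368)] rfl (by decide +kernel)
end
mutual
theorem c0_m39_t32 : CovD 0 progs [(220200960000, 1761607680), (206695301120, 5905580032), (188978561024, 17179869184), (841813590016, 17179869184)] :=
  Pool.Agent.helper14.QF.covD_F chks_eq (.n 0 (.n 3 (.n 3 (.l 4) (.n 0 (.l 4) (.l 4))) (.n 3 (.n 3 (.l 4) (.l 4)) (.l 4))) (.n 0 (.n 3 (.n 3 (.l 4) (.n 0 (.l 4) (.l 4))) (.n 3 (.n 0 (.l 4) (.l 4)) (.l 4))) (.n 3 (.n 3 (.l 4) (.n 0 (.l 4) (.l 4))) (.n 3 (.l 4) (.l 4)))))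
    [(220200960000, 1761607680), (206695301120, 5905580032), (188978561024, 17179869184), (841813590016, 17179869184)] rfl (by decide +kernel)
theorem c0_m39_t33 : CovD 0 progs [(223724175360, 1761607680), (206695301120, 5905580032), (188978561024, 17179869184), (841813590016, 17179869184)] :=
  Pool.Agent.helper14.QF.covD_F chks_eq (.n 0 (.n 0 (.n 3 (.n 3 (.l 4) (.n 0 (.l 4) (.l 4))) (.n 3 (.l 4) (.l 4))) (.n 3 (.n 3 (.l 4) (.n 0 (.l 4) (.l 4))) (.n 3 (.l 4) (.l 4)))) (.n 0 (.n 3 (.n 3 (.n 0 (.l 4) (.l 4)) (.l 4)) (.n 3 (.l 4) (.l 4))) (.n 3 (.n 3 (.n 0 (.l 4) (.l 4)) (.l 4)) (.n 3 (.l 4) (.l 4)))))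
    [(223724175360, 1761607680), (206695301120, 5905580032), (188978561024, 17179869184), (841813590016, 17179869184)] rfl (by decide +kernel)
end
mutual
theorem c0_m39_t35 : CovD 0 progs [(221962567680, 3523215360), (206695301120, 5905580032), (188978561024, 17179869184), (876173328384, 17179869184)] :=
  Pool.Agent.helper14.QF.covD_F chks_eq (.n 0 (.n 0 (.n 0 (.n 3 (.n 3 (.l 4) (.l 4)) (.l 6)) (.n 3 (.n 3 (.l 4) (.l 4)) (.n 3 (.l 4) (.l 4)))) (.n 3 (.n 0 (.n 3 (.l 4) (.l 4)) (.n 3 (.l 4) (.l 4))) (.n 3 (.l 4) (.l 4)))) (.n 3 (.n 0 (.n 3 (.n 0 (.l 4) (.l 4)) (.l 4)) (.n 3 (.n 0 (.l 4) (.l 4)) (.l 4))) (.n 3 (.l 4) (.l 4))))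
    [(221962567680, 3523215360), (206695301120, 5905580032), (188978561024, 17179869184), (876173328384, 17179869184)] rfl (by decide +kernel)
theorem c0_m39_t41 : CovD 0 progs [(211392921600, 14092861440), (200789721088, 11811160064), (171798691840, 34359738368), (927712935936, 34359738368)] :=
  Pool.Agent.helper14.QF.covD_F chks_eq (.n 0 (.l 6) (.n 3 (.n 3 (.n 0 (.l 6) (.n 0 (.n 3 (.l 4) (.l 4)) (.l 4))) (.n 0 (.l 6) (.n 0 (.l 4) (.l 4)))) (.n 0 (.l 6) (.n 3 (.l 4) (.l 4)))))
    [(211392921600, 14092861440), (200789721088, 11811160064), (171798691840, 34359738368), (927712935936, 34359738368)] rfl (by decide +kernel)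
end
theorem c0_m39_t4 : CovD 0 progs [(221962567680, 3523215360), (194884141056, 5905580032), (171798691840, 34359738368), (841813590016, 17179869184)] :=
  covD_split 0 (by decide +kernel) c0_m39_t2 c0_m39_t3
theorem c0_m39_t5 : CovD 0 progs [(218439352320, 7046430720), (194884141056, 5905580032), (171798691840, 34359738368), (841813590016, 17179869184)] :=
  covD_split 0 (by decide +kernel) c0_m39_t1 c0_m39_t4
theorem c0_m39_t8 : CovD 0 progs [(218439352320, 7046430720), (194884141056, 5905580032), (171798691840, 34359738368), (876173328384, 17179869184)] :=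
  covD_split 3 (by decide +kernel) c0_m39_t6 c0_m39_t7
theorem c0_m39_t9 : CovD 0 progs [(218439352320, 7046430720), (194884141056, 5905580032), (171798691840, 34359738368), (858993459200, 34359738368)] :=
  covD_split 3 (by decide +kernel) c0_m39_t5 c0_m39_t8
theorem c0_m39_t10 : CovD 0 progs [(211392921600, 14092861440), (194884141056, 5905580032), (171798691840, 34359738368), (858993459200, 34359738368)] :=
  covD_split 0 (by decide +kernel) c0_m39_t0 c0_m39_t9
theorem c0_m39_t15 : CovD 0 progs [(216677744640, 1761607680), (206695301120, 5905580032), (154618822656, 17179869184), (858993459200, 34359738368)] :=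
  covD_split 0 (by decide +kernel) c0_m39_t13 c0_m39_t14
theorem c0_m39_t16 : CovD 0 progs [(214916136960, 3523215360), (206695301120, 5905580032), (154618822656, 17179869184), (858993459200, 34359738368)] :=
  covD_split 0 (by decide +kernel) c0_m39_t12 c0_m39_t15
theorem c0_m39_t19 : CovD 0 progs [(220200960000, 1761607680), (206695301120, 5905580032), (154618822656, 17179869184), (858993459200, 34359738368)] :=
  covD_split 3 (by decide +kernel) c0_m39_t17 c0_m39_t18
theorem c0_m39_t22 : CovD 0 progs [(223724175360, 1761607680), (206695301120, 5905580032), (154618822656, 17179869184), (858993459200, 34359738368)] :=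
  covD_split 3 (by decide +kernel) c0_m39_t20 c0_m39_t21
theorem c0_m39_t23 : CovD 0 progs [(221962567680, 3523215360), (206695301120, 5905580032), (154618822656, 17179869184), (858993459200, 34359738368)] :=
  covD_split 0 (by decide +kernel) c0_m39_t19 c0_m39_t22
theorem c0_m39_t24 : CovD 0 progs [(218439352320, 7046430720), (206695301120, 5905580032), (154618822656, 17179869184), (858993459200, 34359738368)] :=
  covD_split 0 (by decide +kernel) c0_m39_t16 c0_m39_t23
theorem c0_m39_t25 : CovD 0 progs [(211392921600, 14092861440), (206695301120, 5905580032), (154618822656, 17179869184), (858993459200, 34359738368)] :=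
  covD_split 0 (by decide +kernel) c0_m39_t11 c0_m39_t24
theorem c0_m39_t30 : CovD 0 progs [(216677744640, 1761607680), (206695301120, 5905580032), (188978561024, 17179869184), (858993459200, 34359738368)] :=
  covD_split 0 (by decide +kernel) c0_m39_t28 c0_m39_t29
theorem c0_m39_t31 : CovD 0 progs [(214916136960, 3523215360), (206695301120, 5905580032), (188978561024, 17179869184), (858993459200, 34359738368)] :=
  covD_split 0 (by decide +kernel) c0_m39_t27 c0_m39_t30
theorem c0_m39_t34 : CovD 0 progs [(221962567680, 3523215360), (206695301120, 5905580032), (188978561024, 17179869184), (841813590016, 17179869184)] :=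
  covD_split 0 (by decide +kernel) c0_m39_t32 c0_m39_t33
theorem c0_m39_t36 : CovD 0 progs [(221962567680, 3523215360), (206695301120, 5905580032), (188978561024, 17179869184), (858993459200, 34359738368)] :=
  covD_split 3 (by decide +kernel) c0_m39_t34 c0_m39_t35
theorem c0_m39_t37 : CovD 0 progs [(218439352320, 7046430720), (206695301120, 5905580032), (188978561024, 17179869184), (858993459200, 34359738368)] :=
  covD_split 0 (by decide +kernel) c0_m39_t31 c0_m39_t36
theorem c0_m39_t38 : CovD 0 progs [(211392921600, 14092861440), (206695301120, 5905580032), (188978561024, 17179869184), (858993459200, 34359738368)] :=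
  covD_split 0 (by decide +kernel) c0_m39_t26 c0_m39_t37
theorem c0_m39_t39 : CovD 0 progs [(211392921600, 14092861440), (206695301120, 5905580032), (171798691840, 34359738368), (858993459200, 34359738368)] :=
  covD_split 2 (by decide +kernel) c0_m39_t25 c0_m39_t38
theorem c0_m39_t40 : CovD 0 progs [(211392921600, 14092861440), (200789721088, 11811160064), (171798691840, 34359738368), (858993459200, 34359738368)] :=
  covD_split 1 (by decide +kernel) c0_m39_t10 c0_m39_t39
theorem c0_m39 : CovD 0 progs [(211392921600, 14092861440), (200789721088, 11811160064), (171798691840, 34359738368), (893353197568, 68719476736)] :=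
  covD_split 3 (by decide +kernel) c0_m39_t40 c0_m39_t41

end Pool.Agent.helper71.FJ.Crt.QMa
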