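import Pool.Agent.helper71.FJ.Crt.QMaP

/-!
Generated certificates.
-/

namespace Pool.Agent.helper71.FJ.Crt.QMa

open Pool.Agent.helper31.IA (Z Op)
open Pool.Agent.helper31.IC

mutual
theorem c0_m40_t0 : CovD 0 progs [(204346490880, 7046430720), (218506461184, 5905580032), (154618822656, 17179869184), (858993459200, 34359738368)] :=
  Pool.Agent.helper14.QF.covD_F chks_eq (.n 0 (.l 6) (.n 0 (.l 6) (.n 3 (.n 3 (.n 3 (.l 4) (.l 4)) (.l 6)) (.l 6))))
    [(204346490880, 7046430720), (218506461184, 5905580032), (154618822656, 17179869184), (858993459200, 34359738368)] rfl (by decide +kernel)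
theorem c0_m40_t1 : CovD 0 progs [(213154529280, 1761607680), (218506461184, 5905580032), (154618822656, 17179869184), (858993459200, 34359738368)] :=
  Pool.Agent.helper14.QF.covD_F chks_eq (.n 0 (.n 3 (.n 3 (.n 3 (.l 4) (.l 4)) (.n 3 (.l 4) (.n 3 (.l 4) (.l 4)))) (.l 6)) (.n 0 (.n 3 (.n 3 (.n 3 (.l 4) (.l 4)) (.n 3 (.l 4) (.n 0 (.l 4) (.l 4)))) (.n 2 (.n 3 (.l 6) (.l 6)) (.l 6))) (.n 3 (.n 3 (.n 3 (.l 4) (.l 4)) (.n 3 (.l 4) (.n 0 (.l 4) (.l 4)))) (.n 2 (.n 3 (.n 3 (.n 0 (.l 4) (.l 4)) (.l 4)) (.l 6)) (.l 6)))))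
    [(213154529280, 1761607680), (218506461184, 5905580032), (154618822656, 17179869184), (858993459200, 34359738368)] rfl (by decide +kernel)
end
mutual
theorem c0_m40_t2 : CovD 0 progs [(215796940800, 880803840), (218506461184, 5905580032), (154618822656, 17179869184), (858993459200, 34359738368)] :=
  Pool.Agent.helper14.QF.covD_F chks_eq (.n 0 (.n 3 (.n 3 (.n 3 (.l 4) (.l 4)) (.n 3 (.l 4) (.n 3 (.l 4) (.l 4)))) (.n 3 (.n 3 (.l 4) (.l 4)) (.l 6))) (.n 3 (.n 3 (.n 3 (.l 4) (.l 4)) (.n 3 (.l 4) (.n 3 (.l 4) (.l 4)))) (.n 3 (.n 3 (.l 4) (.n 0 (.l 4) (.l 4))) (.n 3 (.l 4) (.l 4)))))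
    [(215796940800, 880803840), (218506461184, 5905580032), (154618822656, 17179869184), (858993459200, 34359738368)] rfl (by decide +kernel)
theorem c0_m40_t3 : CovD 0 progs [(217558548480, 880803840), (218506461184, 5905580032), (154618822656, 17179869184), (858993459200, 34359738368)] :=
  Pool.Agent.helper14.QF.covD_F chks_eq (.n 3 (.n 3 (.n 3 (.l 4) (.n 0 (.l 4) (.l 4))) (.n 3 (.n 3 (.l 4) (.l 4)) (.n 3 (.l 4) (.l 4)))) (.n 3 (.n 3 (.l 4) (.n 3 (.l 4) (.l 4))) (.n 3 (.n 0 (.l 4) (.l 4)) (.l 4))))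
    [(217558548480, 880803840), (218506461184, 5905580032), (154618822656, 17179869184), (858993459200, 34359738368)] rfl (by decide +kernel)
end
mutual
theorem c0_m40_t6 : CovD 0 progs [(220200960000, 1761607680), (218506461184, 5905580032), (154618822656, 17179869184), (841813590016, 17179869184)] :=
  Pool.Agent.helper14.QF.covD_F chks_eq (.n 0 (.n 3 (.n 3 (.l 4) (.n 0 (.l 4) (.l 4))) (.n 3 (.n 3 (.l 4) (.l 4)) (.l 4))) (.n 0 (.n 3 (.n 3 (.l 4) (.n 0 (.l 4) (.l 4))) (.n 3 (.n 0 (.l 4) (.l 4)) (.l 4))) (.n 3 (.n 3 (.l 4) (.n 0 (.l 4) (.l 4))) (.n 3 (.l 4) (.l 4)))))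
    [(220200960000, 1761607680), (218506461184, 5905580032), (154618822656, 17179869184), (841813590016, 17179869184)] rfl (by decide +kernel)
theorem c0_m40_t7 : CovD 0 progs [(220200960000, 1761607680), (218506461184, 5905580032), (154618822656, 17179869184), (876173328384, 17179869184)] :=
  Pool.Agent.helper14.QF.covD_F chks_eq (.n 3 (.n 3 (.n 0 (.n 0 (.l 4) (.l 4)) (.n 0 (.l 4) (.l 4))) (.n 0 (.n 0 (.l 4) (.l 4)) (.n 0 (.l 4) (.l 4)))) (.n 3 (.n 0 (.l 4) (.l 4)) (.l 4)))
    [(220200960000, 1761607680), (218506461184, 5905580032), (154618822656, 17179869184), (876173328384, 17179869184)] rfl (by decide +kernel)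
end
mutual
theorem c0_m40_t9 : CovD 0 progs [(223724175360, 1761607680), (218506461184, 5905580032), (154618822656, 17179869184), (841813590016, 17179869184)] :=
  Pool.Agent.helper14.QF.covD_F chks_eq (.n 0 (.n 0 (.n 3 (.n 3 (.l 4) (.n 0 (.l 4) (.l 4))) (.n 3 (.l 4) (.l 4))) (.n 3 (.n 3 (.l 4) (.n 0 (.l 4) (.l 4))) (.n 3 (.l 4) (.l 4)))) (.n 0 (.n 3 (.n 3 (.n 0 (.l 4) (.l 4)) (.l 4)) (.n 3 (.l 4) (.l 4))) (.n 3 (.n 3 (.n 0 (.l 4) (.l 4)) (.l 4)) (.n 3 (.l 4) (.l 4)))))
    [(223724175360, 1761607680), (218506461184, 5905580032), (154618822656, 17179869184), (841813590016, 17179869184)] rfl (by decide +kernel)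
theorem c0_m40_t10 : CovD 0 progs [(223724175360, 1761607680), (218506461184, 5905580032), (154618822656, 17179869184), (876173328384, 17179869184)] :=
  Pool.Agent.helper14.QF.covD_F chks_eq (.n 3 (.n 0 (.n 3 (.n 0 (.l 4) (.l 4)) (.l 4)) (.n 3 (.n 0 (.l 4) (.l 4)) (.l 4))) (.n 3 (.l 4) (.l 4)))
    [(223724175360, 1761607680), (218506461184, 5905580032), (154618822656, 17179869184), (876173328384, 17179869184)] rfl (by decide +kernel)
end
mutual
theorem c0_m40_t15 : CovD 0 progs [(204346490880, 7046430720), (218506461184, 5905580032), (188978561024, 17179869184), (858993459200, 34359738368)] :=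
  Pool.Agent.helper14.QF.covD_F chks_eq (.l 6)
    [(204346490880, 7046430720), (218506461184, 5905580032), (188978561024, 17179869184), (858993459200, 34359738368)] rfl (by decide +kernel)
theorem c0_m40_t16 : CovD 0 progs [(213154529280, 1761607680), (218506461184, 5905580032), (188978561024, 17179869184), (858993459200, 34359738368)] :=
  Pool.Agent.helper14.QF.covD_F chks_eq (.n 0 (.n 2 (.n 3 (.n 3 (.n 3 (.l 4) (.l 4)) (.l 6)) (.l 6)) (.l 6)) (.n 2 (.n 0 (.n 3 (.n 3 (.n 3 (.l 4) (.l 4)) (.l 6)) (.l 6)) (.n 3 (.n 3 (.n 3 (.l 4) (.l 4)) (.n 3 (.l 4) (.l 6))) (.l 6))) (.n 3 (.n 3 (.n 3 (.l 4) (.l 4)) (.l 6)) (.l 6))))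
    [(213154529280, 1761607680), (218506461184, 5905580032), (188978561024, 17179869184), (858993459200, 34359738368)] rfl (by decide +kernel)
end
mutual
theorem c0_m40_t17 : CovD 0 progs [(215796940800, 880803840), (218506461184, 5905580032), (188978561024, 17179869184), (858993459200, 34359738368)] :=
  Pool.Agent.helper14.QF.covD_F chks_eq (.n 0 (.n 2 (.n 3 (.n 3 (.n 3 (.l 4) (.l 4)) (.n 3 (.l 4) (.n 3 (.l 4) (.l 4)))) (.l 6)) (.n 3 (.n 3 (.n 3 (.l 4) (.l 4)) (.n 3 (.l 4) (.l 6))) (.l 6))) (.n 3 (.n 3 (.n 3 (.l 4) (.l 4)) (.n 3 (.l 4) (.n 3 (.l 4) (.l 4)))) (.n 3 (.n 3 (.l 4) (.l 4)) (.l 6))))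
    [(215796940800, 880803840), (218506461184, 5905580032), (188978561024, 17179869184), (858993459200, 34359738368)] rfl (by decide +kernel)
theorem c0_m40_t18 : CovD 0 progs [(217558548480, 880803840), (218506461184, 5905580032), (188978561024, 17179869184), (858993459200, 34359738368)] :=
  Pool.Agent.helper14.QF.covD_F chks_eq (.n 3 (.n 3 (.n 3 (.l 4) (.n 0 (.l 4) (.l 4))) (.n 3 (.n 3 (.l 4) (.l 4)) (.n 3 (.l 4) (.l 4)))) (.n 3 (.n 3 (.l 4) (.n 3 (.l 4) (.l 4))) (.n 0 (.l 6) (.n 3 (.l 4) (.l 4)))))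
    [(217558548480, 880803840), (218506461184, 5905580032), (188978561024, 17179869184), (858993459200, 34359738368)] rfl (by decide +kernel)
end
mutual
theorem c0_m40_t21 : CovD 0 progs [(220200960000, 1761607680), (218506461184, 5905580032), (188978561024, 17179869184), (841813590016, 17179869184)] :=
  Pool.Agent.helper14.QF.covD_F chks_eq (.n 0 (.n 3 (.n 3 (.l 4) (.n 0 (.l 4) (.l 4))) (.n 3 (.n 3 (.l 4) (.l 4)) (.l 4))) (.n 0 (.n 3 (.n 3 (.l 4) (.n 0 (.l 4) (.l 4))) (.n 3 (.n 0 (.l 4) (.l 4)) (.l 4))) (.n 3 (.n 3 (.l 4) (.n 0 (.l 4) (.l 4))) (.n 3 (.l 4) (.l 4)))))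
    [(220200960000, 1761607680), (218506461184, 5905580032), (188978561024, 17179869184), (841813590016, 17179869184)] rfl (by decide +kernel)
theorem c0_m40_t22 : CovD 0 progs [(220200960000, 1761607680), (218506461184, 5905580032), (188978561024, 17179869184), (876173328384, 17179869184)] :=
  Pool.Agent.helper14.QF.covD_F chks_eq (.n 3 (.n 3 (.n 0 (.n 0 (.l 4) (.l 4)) (.n 0 (.l 4) (.l 4))) (.n 0 (.n 0 (.l 4) (.l 4)) (.n 0 (.l 4) (.l 4)))) (.n 3 (.n 0 (.l 4) (.l 4)) (.l 4)))
    [(220200960000, 1761607680), (218506461184, 5905580032), (188978561024, 17179869184), (876173328384, 17179869184)] rfl (by decide +kernel)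
end
mutual
theorem c0_m40_t24 : CovD 0 progs [(223724175360, 1761607680), (218506461184, 5905580032), (188978561024, 17179869184), (841813590016, 17179869184)] :=
  Pool.Agent.helper14.QF.covD_F chks_eq (.n 0 (.n 0 (.n 3 (.n 3 (.l 4) (.n 0 (.l 4) (.l 4))) (.n 3 (.l 4) (.l 4))) (.n 3 (.n 3 (.l 4) (.n 0 (.l 4) (.l 4))) (.n 3 (.l 4) (.l 4)))) (.n 0 (.n 3 (.n 3 (.n 0 (.l 4) (.l 4)) (.l 4)) (.n 3 (.l 4) (.l 4))) (.n 3 (.n 3 (.n 0 (.l 4) (.l 4)) (.l 4)) (.n 3 (.l 4) (.l 4)))))
    [(223724175360, 1761607680), (218506461184, 5905580032), (188978561024, 17179869184), (841813590016, 17179869184)] rfl (by decide +kernel)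
theorem c0_m40_t25 : CovD 0 progs [(223724175360, 1761607680), (218506461184, 5905580032), (188978561024, 17179869184), (876173328384, 17179869184)] :=
  Pool.Agent.helper14.QF.covD_F chks_eq (.n 3 (.n 0 (.n 3 (.n 0 (.l 4) (.l 4)) (.l 4)) (.n 3 (.n 0 (.l 4) (.l 4)) (.l 4))) (.n 3 (.l 4) (.l 4)))
    [(223724175360, 1761607680), (218506461184, 5905580032), (188978561024, 17179869184), (876173328384, 17179869184)] rfl (by decide +kernel)
end
mutual
theorem c0_m40_t31 : CovD 0 progs [(211392921600, 14092861440), (224504315904, 92274688), (171798691840, 34359738368), (828928688128, 4294967296)] :=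
  Pool.Agent.helper14.QF.covD_F chks_eq (.n 0 (.n 0 (.l 4) (.n 0 (.l 4) (.l 4))) (.n 3 (.n 0 (.n 0 (.l 4) (.l 4)) (.n 0 (.n 0 (.l 4) (.l 4)) (.n 0 (.l 4) (.l 4)))) (.n 0 (.n 0 (.l 4) (.l 4)) (.n 0 (.n 0 (.l 4) (.l 4)) (.n 0 (.l 4) (.l 4))))))
    [(211392921600, 14092861440), (224504315904, 92274688), (171798691840, 34359738368), (828928688128, 4294967296)] rfl (by decide +kernel)
theorem c0_m40_t32 : CovD 0 progs [(211392921600, 14092861440), (224504315904, 92274688), (171798691840, 34359738368), (837518622720, 4294967296)] :=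
  Pool.Agent.helper14.QF.covD_F chks_eq (.n 0 (.n 0 (.l 6) (.n 0 (.l 4) (.l 4))) (.n 3 (.n 0 (.n 0 (.l 4) (.n 0 (.l 4) (.l 4))) (.n 0 (.n 0 (.l 4) (.l 4)) (.n 0 (.l 4) (.l 4)))) (.n 0 (.n 0 (.l 4) (.n 0 (.l 4) (.l 4))) (.n 0 (.n 0 (.l 4) (.l 4)) (.n 0 (.l 4) (.l 4))))))
    [(211392921600, 14092861440), (224504315904, 92274688), (171798691840, 34359738368), (837518622720, 4294967296)] rfl (by decide +kernel)
end
mutual
theorem c0_m40_t34 : CovD 0 progs [(211392921600, 14092861440), (224504315904, 92274688), (171798691840, 34359738368), (846108557312, 4294967296)] :=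
  Pool.Agent.helper14.QF.covD_F chks_eq (.n 3 (.n 0 (.l 6) (.n 0 (.n 0 (.n 0 (.l 4) (.l 4)) (.n 0 (.l 4) (.l 4))) (.n 0 (.n 0 (.l 4) (.l 4)) (.l 4)))) (.n 0 (.l 6) (.n 0 (.n 0 (.n 0 (.l 4) (.l 4)) (.n 0 (.l 4) (.l 4))) (.n 0 (.n 0 (.l 4) (.l 4)) (.l 4)))))
    [(211392921600, 14092861440), (224504315904, 92274688), (171798691840, 34359738368), (846108557312, 4294967296)] rfl (by decide +kernel)
theorem c0_m40_t35 : CovD 0 progs [(211392921600, 14092861440), (224504315904, 92274688), (171798691840, 34359738368), (854698491904, 4294967296)] :=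
  Pool.Agent.helper14.QF.covD_F chks_eq (.n 3 (.n 0 (.l 6) (.n 0 (.n 0 (.n 0 (.l 4) (.l 4)) (.n 0 (.l 4) (.l 4))) (.n 0 (.l 4) (.n 0 (.l 4) (.l 4))))) (.n 0 (.l 6) (.n 0 (.n 0 (.n 0 (.l 4) (.l 4)) (.n 0 (.l 4) (.l 4))) (.n 0 (.l 4) (.n 0 (.l 4) (.l 4))))))
    [(211392921600, 14092861440), (224504315904, 92274688), (171798691840, 34359738368), (854698491904, 4294967296)] rfl (by decide +kernel)
end
mutual
theorem c0_m40_t38 : CovD 0 progs [(211392921600, 14092861440), (224688865280, 92274688), (171798691840, 34359738368), (841813590016, 17179869184)] :=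
  Pool.Agent.helper14.QF.covD_F chks_eq (.l 11)
    [(211392921600, 14092861440), (224688865280, 92274688), (171798691840, 34359738368), (841813590016, 17179869184)] rfl (by decide +kernel)
theorem c0_m40_t40 : CovD 0 progs [(211392921600, 14092861440), (224965689344, 184549376), (171798691840, 34359738368), (841813590016, 17179869184)] :=
  Pool.Agent.helper14.QF.covD_F chks_eq (.l 11)
    [(211392921600, 14092861440), (224965689344, 184549376), (171798691840, 34359738368), (841813590016, 17179869184)] rfl (by decide +kernel)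
end
mutual
theorem c0_m40_t42 : CovD 0 progs [(211392921600, 14092861440), (225519337472, 369098752), (171798691840, 34359738368), (841813590016, 17179869184)] :=
  Pool.Agent.helper14.QF.covD_F chks_eq (.l 11)
    [(211392921600, 14092861440), (225519337472, 369098752), (171798691840, 34359738368), (841813590016, 17179869184)] rfl (by decide +kernel)
theorem c0_m40_t44 : CovD 0 progs [(211392921600, 14092861440), (226626633728, 738197504), (171798691840, 34359738368), (841813590016, 17179869184)] :=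
  Pool.Agent.helper14.QF.covD_F chks_eq (.l 11)
    [(211392921600, 14092861440), (226626633728, 738197504), (171798691840, 34359738368), (841813590016, 17179869184)] rfl (by decide +kernel)
end
mutual
theorem c0_m40_t46 : CovD 0 progs [(211392921600, 14092861440), (228841226240, 1476395008), (171798691840, 34359738368), (841813590016, 17179869184)] :=
  Pool.Agent.helper14.QF.covD_F chks_eq (.l 11)
    [(211392921600, 14092861440), (228841226240, 1476395008), (171798691840, 34359738368), (841813590016, 17179869184)] rfl (by decide +kernel)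
theorem c0_m40_t48 : CovD 0 progs [(211392921600, 14092861440), (233270411264, 2952790016), (171798691840, 34359738368), (841813590016, 17179869184)] :=
  Pool.Agent.helper14.QF.covD_F chks_eq (.l 11)
    [(211392921600, 14092861440), (233270411264, 2952790016), (171798691840, 34359738368), (841813590016, 17179869184)] rfl (by decide +kernel)
end
mutual
theorem c0_m40_t50 : CovD 0 progs [(211392921600, 14092861440), (230317621248, 5905580032), (171798691840, 34359738368), (863288426496, 4294967296)] :=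
  Pool.Agent.helper14.QF.covD_F chks_eq (.n 3 (.n 0 (.l 6) (.n 1 (.n 3 (.n 0 (.n 0 (.n 0 (.l 4) (.l 4)) (.l 4)) (.n 0 (.l 4) (.l 4))) (.n 0 (.n 0 (.n 0 (.l 4) (.l 4)) (.l 4)) (.n 0 (.l 4) (.l 4)))) (.l 11))) (.n 0 (.l 6) (.n 0 (.n 0 (.n 0 (.l 4) (.l 4)) (.l 4)) (.n 0 (.n 0 (.l 4) (.l 4)) (.n 0 (.l 4) (.l 4))))))
    [(211392921600, 14092861440), (230317621248, 5905580032), (171798691840, 34359738368), (863288426496, 4294967296)] rfl (by decide +kernel)
theorem c0_m40_t51 : CovD 0 progs [(211392921600, 14092861440), (230317621248, 5905580032), (171798691840, 34359738368), (871878361088, 4294967296)] :=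
  Pool.Agent.helper14.QF.covD_F chks_eq (.n 3 (.n 0 (.l 6) (.n 3 (.n 0 (.n 0 (.l 4) (.l 4)) (.n 0 (.l 4) (.l 4))) (.n 0 (.n 0 (.l 4) (.l 4)) (.n 0 (.l 4) (.l 4))))) (.n 0 (.l 6) (.n 0 (.n 0 (.l 4) (.n 0 (.l 4) (.l 4))) (.n 0 (.n 0 (.l 4) (.l 4)) (.l 4)))))
    [(211392921600, 14092861440), (230317621248, 5905580032), (171798691840, 34359738368), (871878361088, 4294967296)] rfl (by decide +kernel)
end
mutual
theorem c0_m40_t53 : CovD 0 progs [(211392921600, 14092861440), (230317621248, 5905580032), (171798691840, 34359738368), (884763262976, 8589934592)] :=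
  Pool.Agent.helper14.QF.covD_F chks_eq (.n 0 (.l 6) (.n 1 (.n 1 (.n 1 (.n 0 (.n 0 (.l 6) (.n 3 (.n 0 (.n 3 (.l 4) (.l 4)) (.n 0 (.l 4) (.l 4))) (.n 0 (.l 4) (.l 4)))) (.n 0 (.n 3 (.n 0 (.l 4) (.l 4)) (.l 4)) (.n 3 (.l 4) (.l 4)))) (.l 11)) (.l 11)) (.l 11)))
    [(211392921600, 14092861440), (230317621248, 5905580032), (171798691840, 34359738368), (884763262976, 8589934592)] rfl (by decide +kernel)
theorem c0_m40_t57 : CovD 0 progs [(211392921600, 14092861440), (224412041216, 11811160064), (171798691840, 34359738368), (927712935936, 34359738368)] :=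
  Pool.Agent.helper14.QF.covD_F chks_eq (.n 3 (.n 3 (.n 0 (.l 6) (.n 0 (.n 0 (.l 6) (.n 3 (.l 4) (.l 4))) (.n 0 (.n 3 (.l 4) (.l 4)) (.l 4)))) (.n 0 (.l 6) (.n 0 (.l 6) (.n 0 (.l 4) (.l 4))))) (.n 0 (.l 6) (.n 0 (.l 6) (.n 3 (.l 4) (.l 4)))))
    [(211392921600, 14092861440), (224412041216, 11811160064), (171798691840, 34359738368), (927712935936, 34359738368)] rfl (by decide +kernel)
end
theorem c0_m40_t4 : CovD 0 progs [(216677744640, 1761607680), (218506461184, 5905580032), (154618822656, 17179869184), (858993459200, 34359738368)] :=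
  covD_split 0 (by decide +kernel) c0_m40_t2 c0_m40_t3
theorem c0_m40_t5 : CovD 0 progs [(214916136960, 3523215360), (218506461184, 5905580032), (154618822656, 17179869184), (858993459200, 34359738368)] :=
  covD_split 0 (by decide +kernel) c0_m40_t1 c0_m40_t4
theorem c0_m40_t8 : CovD 0 progs [(220200960000, 1761607680), (218506461184, 5905580032), (154618822656, 17179869184), (858993459200, 34359738368)] :=
  covD_split 3 (by decide +kernel) c0_m40_t6 c0_m40_t7
theorem c0_m40_t11 : CovD 0 progs [(223724175360, 1761607680), (218506461184, 5905580032), (154618822656, 17179869184), (858993459200, 34359738368)] :=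
  covD_split 3 (by decide +kernel) c0_m40_t9 c0_m40_t10
theorem c0_m40_t12 : CovD 0 progs [(221962567680, 3523215360), (218506461184, 5905580032), (154618822656, 17179869184), (858993459200, 34359738368)] :=
  covD_split 0 (by decide +kernel) c0_m40_t8 c0_m40_t11
theorem c0_m40_t13 : CovD 0 progs [(218439352320, 7046430720), (218506461184, 5905580032), (154618822656, 17179869184), (858993459200, 34359738368)] :=
  covD_split 0 (by decide +kernel) c0_m40_t5 c0_m40_t12
theorem c0_m40_t14 : CovD 0 progs [(211392921600, 14092861440), (218506461184, 5905580032), (154618822656, 17179869184), (858993459200, 34359738368)] :=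
  covD_split 0 (by decide +kernel) c0_m40_t0 c0_m40_t13
theorem c0_m40_t19 : CovD 0 progs [(216677744640, 1761607680), (218506461184, 5905580032), (188978561024, 17179869184), (858993459200, 34359738368)] :=
  covD_split 0 (by decide +kernel) c0_m40_t17 c0_m40_t18
theorem c0_m40_t20 : CovD 0 progs [(214916136960, 3523215360), (218506461184, 5905580032), (188978561024, 17179869184), (858993459200, 34359738368)] :=
  covD_split 0 (by decide +kernel) c0_m40_t16 c0_m40_t19
theorem c0_m40_t23 : CovD 0 progs [(220200960000, 1761607680), (218506461184, 5905580032), (188978561024, 17179869184), (858993459200, 34359738368)] :=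
  covD_split 3 (by decide +kernel) c0_m40_t21 c0_m40_t22
theorem c0_m40_t26 : CovD 0 progs [(223724175360, 1761607680), (218506461184, 5905580032), (188978561024, 17179869184), (858993459200, 34359738368)] :=
  covD_split 3 (by decide +kernel) c0_m40_t24 c0_m40_t25
theorem c0_m40_t27 : CovD 0 progs [(221962567680, 3523215360), (218506461184, 5905580032), (188978561024, 17179869184), (858993459200, 34359738368)] :=
  covD_split 0 (by decide +kernel) c0_m40_t23 c0_m40_t26
theorem c0_m40_t28 : CovD 0 progs [(218439352320, 7046430720), (218506461184, 5905580032), (188978561024, 17179869184), (858993459200, 34359738368)] :=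
  covD_split 0 (by decide +kernel) c0_m40_t20 c0_m40_t27
theorem c0_m40_t29 : CovD 0 progs [(211392921600, 14092861440), (218506461184, 5905580032), (188978561024, 17179869184), (858993459200, 34359738368)] :=
  covD_split 0 (by decide +kernel) c0_m40_t15 c0_m40_t28
theorem c0_m40_t30 : CovD 0 progs [(211392921600, 14092861440), (218506461184, 5905580032), (171798691840, 34359738368), (858993459200, 34359738368)] :=
  covD_split 2 (by decide +kernel) c0_m40_t14 c0_m40_t29
theorem c0_m40_t33 : CovD 0 progs [(211392921600, 14092861440), (224504315904, 92274688), (171798691840, 34359738368), (833223655424, 8589934592)] :=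
  covD_split 3 (by decide +kernel) c0_m40_t31 c0_m40_t32
theorem c0_m40_t36 : CovD 0 progs [(211392921600, 14092861440), (224504315904, 92274688), (171798691840, 34359738368), (850403524608, 8589934592)] :=
  covD_split 3 (by decide +kernel) c0_m40_t34 c0_m40_t35
theorem c0_m40_t37 : CovD 0 progs [(211392921600, 14092861440), (224504315904, 92274688), (171798691840, 34359738368), (841813590016, 17179869184)] :=
  covD_split 3 (by decide +kernel) c0_m40_t33 c0_m40_t36
theorem c0_m40_t39 : CovD 0 progs [(211392921600, 14092861440), (224596590592, 184549376), (171798691840, 34359738368), (841813590016, 17179869184)] :=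
  covD_split 1 (by decide +kernel) c0_m40_t37 c0_m40_t38
theorem c0_m40_t41 : CovD 0 progs [(211392921600, 14092861440), (224781139968, 369098752), (171798691840, 34359738368), (841813590016, 17179869184)] :=
  covD_split 1 (by decide +kernel) c0_m40_t39 c0_m40_t40
theorem c0_m40_t43 : CovD 0 progs [(211392921600, 14092861440), (225150238720, 738197504), (171798691840, 34359738368), (841813590016, 17179869184)] :=
  covD_split 1 (by decide +kernel) c0_m40_t41 c0_m40_t42
theorem c0_m40_t45 : CovD 0 progs [(211392921600, 14092861440), (225888436224, 1476395008), (171798691840, 34359738368), (841813590016, 17179869184)] :=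
  covD_split 1 (by decide +kernel) c0_m40_t43 c0_m40_t44
theorem c0_m40_t47 : CovD 0 progs [(211392921600, 14092861440), (227364831232, 2952790016), (171798691840, 34359738368), (841813590016, 17179869184)] :=
  covD_split 1 (by decide +kernel) c0_m40_t45 c0_m40_t46
theorem c0_m40_t49 : CovD 0 progs [(211392921600, 14092861440), (230317621248, 5905580032), (171798691840, 34359738368), (841813590016, 17179869184)] :=
  covD_split 1 (by decide +kernel) c0_m40_t47 c0_m40_t48
theorem c0_m40_t52 : CovD 0 progs [(211392921600, 14092861440), (230317621248, 5905580032), (171798691840, 34359738368), (867583393792, 8589934592)] :=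
  covD_split 3 (by decide +kernel) c0_m40_t50 c0_m40_t51
theorem c0_m40_t54 : CovD 0 progs [(211392921600, 14092861440), (230317621248, 5905580032), (171798691840, 34359738368), (876173328384, 17179869184)] :=
  covD_split 3 (by decide +kernel) c0_m40_t52 c0_m40_t53
theorem c0_m40_t55 : CovD 0 progs [(211392921600, 14092861440), (230317621248, 5905580032), (171798691840, 34359738368), (858993459200, 34359738368)] :=
  covD_split 3 (by decide +kernel) c0_m40_t49 c0_m40_t54
theorem c0_m40_t56 : CovD 0 progs [(211392921600, 14092861440), (224412041216, 11811160064), (171798691840, 34359738368), (858993459200, 34359738368)] :=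
  covD_split 1 (by decide +kernel) c0_m40_t30 c0_m40_t55
theorem c0_m40 : CovD 0 progs [(211392921600, 14092861440), (224412041216, 11811160064), (171798691840, 34359738368), (893353197568, 68719476736)] :=
  covD_split 3 (by decide +kernel) c0_m40_t56 c0_m40_t57

end Pool.Agent.helper71.FJ.Crt.QMa
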