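import Pool.Agent.helper71.FJ.Crt.QMaP

/-!
Generated certificates.
-/

namespace Pool.Agent.helper71.FJ.Crt.QMa

open Pool.Agent.helper31.IA (Z Op)
open Pool.Agent.helper31.IC

mutual
theorem c0_m43_t0 : CovD 0 progs [(140928614400, 28185722880), (212600881152, 23622320128), (412316860416, 137438953472), (824633720832, 274877906944)] :=
  Pool.Agent.helper14.QF.covD_F chks_eq (.l 6)
    [(140928614400, 28185722880), (212600881152, 23622320128), (412316860416, 137438953472), (824633720832, 274877906944)] rfl (by decide +kernel)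
theorem c0_m43_t1 : CovD 0 progs [(183207198720, 14092861440), (212600881152, 23622320128), (412316860416, 137438953472), (824633720832, 274877906944)] :=
  Pool.Agent.helper14.QF.covD_F chks_eq (.n 3 (.n 2 (.n 2 (.n 3 (.n 1 (.l 6) (.n 3 (.l 12) (.l 6))) (.l 6)) (.l 6)) (.l 6)) (.l 6))
    [(183207198720, 14092861440), (212600881152, 23622320128), (412316860416, 137438953472), (824633720832, 274877906944)] rfl (by decide +kernel)
end
mutual
theorem c0_m43_t2 : CovD 0 progs [(200823275520, 3523215360), (212600881152, 23622320128), (412316860416, 137438953472), (824633720832, 274877906944)] :=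
  Pool.Agent.helper14.QF.covD_F chks_eq (.n 0 (.n 3 (.n 2 (.n 2 (.n 3 (.n 3 (.n 3 (.l 4) (.l 4)) (.n 0 (.l 6) (.l 4))) (.l 6)) (.l 6)) (.l 6)) (.l 6)) (.n 0 (.n 3 (.n 2 (.n 3 (.n 3 (.n 0 (.l 4) (.l 4)) (.l 4)) (.l 6)) (.l 6)) (.l 6)) (.n 3 (.n 2 (.n 3 (.n 3 (.l 4) (.l 4)) (.n 2 (.l 6) (.l 6))) (.l 6)) (.l 6))))
    [(200823275520, 3523215360), (212600881152, 23622320128), (412316860416, 137438953472), (824633720832, 274877906944)] rfl (by decide +kernel)
theorem c0_m43_t3 : CovD 0 progs [(207869706240, 3523215360), (212600881152, 23622320128), (412316860416, 137438953472), (824633720832, 274877906944)] :=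
  Pool.Agent.helper14.QF.covD_F chks_eq (.n 2 (.n 2 (.n 3 (.n 3 (.n 3 (.n 3 (.l 4) (.l 4)) (.n 3 (.l 4) (.l 4))) (.n 3 (.n 3 (.l 4) (.n 0 (.l 4) (.l 4))) (.l 6))) (.l 6)) (.n 3 (.n 3 (.n 3 (.n 3 (.l 4) (.l 4)) (.n 0 (.l 6) (.l 4))) (.l 6)) (.l 6))) (.n 3 (.n 2 (.n 3 (.l 6) (.l 6)) (.l 6)) (.l 6)))
    [(207869706240, 3523215360), (212600881152, 23622320128), (412316860416, 137438953472), (824633720832, 274877906944)] rfl (by decide +kernel)
end
mutual
theorem c0_m43_t5 : CovD 0 progs [(213154529280, 1761607680), (212600881152, 23622320128), (412316860416, 137438953472), (824633720832, 274877906944)] :=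
  Pool.Agent.helper14.QF.covD_F chks_eq (.n 3 (.n 3 (.n 3 (.l 4) (.n 0 (.l 4) (.l 4))) (.n 3 (.n 3 (.l 4) (.l 4)) (.n 3 (.n 0 (.l 4) (.l 4)) (.n 2 (.n 3 (.l 4) (.l 6)) (.l 6))))) (.n 2 (.n 3 (.l 6) (.l 6)) (.l 6)))
    [(213154529280, 1761607680), (212600881152, 23622320128), (412316860416, 137438953472), (824633720832, 274877906944)] rfl (by decide +kernel)
theorem c0_m43_t6 : CovD 0 progs [(216677744640, 1761607680), (212600881152, 23622320128), (412316860416, 137438953472), (824633720832, 274877906944)] :=
  Pool.Agent.helper14.QF.covD_F chks_eq (.n 3 (.n 3 (.n 3 (.l 4) (.n 0 (.l 4) (.l 4))) (.n 3 (.n 3 (.l 4) (.l 4)) (.n 3 (.n 3 (.l 4) (.l 4)) (.n 2 (.n 2 (.n 3 (.l 4) (.n 3 (.l 4) (.l 4))) (.l 6)) (.l 6))))) (.n 2 (.n 2 (.n 3 (.n 2 (.n 3 (.l 6) (.l 6)) (.l 6)) (.l 6)) (.l 6)) (.l 6)))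
    [(216677744640, 1761607680), (212600881152, 23622320128), (412316860416, 137438953472), (824633720832, 274877906944)] rfl (by decide +kernel)
end
mutual
theorem c0_m43_t8 : CovD 0 progs [(218879754240, 440401920), (212600881152, 23622320128), (343597383680, 68719476736), (687194767360, 137438953472)] :=
  Pool.Agent.helper14.QF.covD_F chks_eq (.n 2 (.n 3 (.n 3 (.l 4) (.l 4)) (.n 3 (.n 3 (.l 4) (.l 4)) (.n 3 (.l 4) (.n 3 (.l 4) (.n 0 (.l 4) (.l 4)))))) (.n 3 (.n 3 (.l 4) (.l 4)) (.n 3 (.n 3 (.l 4) (.l 4)) (.n 3 (.l 4) (.l 6)))))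
    [(218879754240, 440401920), (212600881152, 23622320128), (343597383680, 68719476736), (687194767360, 137438953472)] rfl (by decide +kernel)
theorem c0_m43_t9 : CovD 0 progs [(219760558080, 440401920), (212600881152, 23622320128), (343597383680, 68719476736), (687194767360, 137438953472)] :=
  Pool.Agent.helper14.QF.covD_F chks_eq (.n 2 (.n 3 (.n 3 (.l 4) (.l 4)) (.n 3 (.n 3 (.l 4) (.l 4)) (.n 3 (.l 4) (.n 3 (.l 4) (.n 0 (.l 4) (.l 4)))))) (.n 3 (.n 3 (.l 4) (.l 4)) (.n 3 (.n 3 (.l 4) (.l 4)) (.n 3 (.l 4) (.l 6)))))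
    [(219760558080, 440401920), (212600881152, 23622320128), (343597383680, 68719476736), (687194767360, 137438953472)] rfl (by decide +kernel)
end
mutual
theorem c0_m43_t11 : CovD 0 progs [(221081763840, 880803840), (212600881152, 23622320128), (343597383680, 68719476736), (687194767360, 137438953472)] :=
  Pool.Agent.helper14.QF.covD_F chks_eq (.n 3 (.n 3 (.l 4) (.l 4)) (.n 3 (.n 3 (.l 4) (.l 4)) (.n 3 (.n 3 (.l 4) (.l 4)) (.n 3 (.l 4) (.n 3 (.l 4) (.l 4))))))
    [(221081763840, 880803840), (212600881152, 23622320128), (343597383680, 68719476736), (687194767360, 137438953472)] rfl (by decide +kernel)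
theorem c0_m43_t13 : CovD 0 progs [(220200960000, 1761607680), (212600881152, 23622320128), (343597383680, 68719476736), (962072674304, 137438953472)] :=
  Pool.Agent.helper14.QF.covD_F chks_eq (.n 3 (.n 2 (.n 3 (.n 2 (.n 3 (.n 1 (.n 2 (.l 6) (.l 6)) (.n 3 (.n 0 (.n 3 (.l 4) (.n 0 (.l 4) (.l 4))) (.n 3 (.n 0 (.l 4) (.l 4)) (.n 3 (.l 4) (.l 4)))) (.n 0 (.l 6) (.n 3 (.n 3 (.l 4) (.l 4)) (.l 4))))) (.l 6)) (.l 6)) (.l 6)) (.l 6)) (.l 6))
    [(220200960000, 1761607680), (212600881152, 23622320128), (343597383680, 68719476736), (962072674304, 137438953472)] rfl (by decide +kernel)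
end
mutual
theorem c0_m43_t15 : CovD 0 progs [(220200960000, 1761607680), (212600881152, 23622320128), (481036337152, 68719476736), (824633720832, 274877906944)] :=
  Pool.Agent.helper14.QF.covD_F chks_eq (.n 3 (.n 3 (.n 3 (.l 4) (.n 0 (.l 4) (.l 4))) (.n 3 (.n 3 (.l 4) (.l 4)) (.l 6))) (.l 6))
    [(220200960000, 1761607680), (212600881152, 23622320128), (481036337152, 68719476736), (824633720832, 274877906944)] rfl (by decide +kernel)
theorem c0_m43_t17 : CovD 0 progs [(222843371520, 880803840), (212600881152, 23622320128), (343597383680, 68719476736), (687194767360, 137438953472)] :=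
  Pool.Agent.helper14.QF.covD_F chks_eq (.n 3 (.n 3 (.l 4) (.l 4)) (.n 3 (.n 3 (.l 4) (.l 4)) (.n 3 (.n 3 (.l 4) (.l 4)) (.n 2 (.n 3 (.l 4) (.n 3 (.l 4) (.l 4))) (.n 3 (.l 4) (.l 6))))))
    [(222843371520, 880803840), (212600881152, 23622320128), (343597383680, 68719476736), (687194767360, 137438953472)] rfl (by decide +kernel)
end
mutual
theorem c0_m43_t18 : CovD 0 progs [(222402969600, 440401920), (212600881152, 23622320128), (309237645312, 34359738368), (858993459200, 34359738368)] :=
  Pool.Agent.helper14.QF.covD_F chks_eq (.n 1 (.n 2 (.n 1 (.l 6) (.n 2 (.n 3 (.n 3 (.n 3 (.l 4) (.l 6)) (.l 6)) (.l 6)) (.l 6))) (.l 6)) (.n 1 (.n 2 (.n 3 (.n 3 (.n 3 (.l 4) (.n 0 (.l 4) (.l 4))) (.n 3 (.l 4) (.l 4))) (.l 6)) (.l 6)) (.n 1 (.n 1 (.n 1 (.n 2 (.n 3 (.n 3 (.n 3 (.l 4) (.n 0 (.l 4) (.l 4))) (.n 3 (.l 4) (.l 4))) (.l 6)) (.l 6)) (.l 11)) (.l 11)) (.l 11))))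
    [(222402969600, 440401920), (212600881152, 23622320128), (309237645312, 34359738368), (858993459200, 34359738368)] rfl (by decide +kernel)
theorem c0_m43_t19 : CovD 0 progs [(222402969600, 440401920), (212600881152, 23622320128), (309237645312, 34359738368), (927712935936, 34359738368)] :=
  Pool.Agent.helper14.QF.covD_F chks_eq (.l 6)
    [(222402969600, 440401920), (212600881152, 23622320128), (309237645312, 34359738368), (927712935936, 34359738368)] rfl (by decide +kernel)
end
mutual
theorem c0_m43_t21 : CovD 0 progs [(222402969600, 440401920), (212600881152, 23622320128), (377957122048, 34359738368), (893353197568, 68719476736)] :=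
  Pool.Agent.helper14.QF.covD_F chks_eq (.l 6)
    [(222402969600, 440401920), (212600881152, 23622320128), (377957122048, 34359738368), (893353197568, 68719476736)] rfl (by decide +kernel)
theorem c0_m43_t23 : CovD 0 progs [(222402969600, 440401920), (212600881152, 23622320128), (343597383680, 68719476736), (1030792151040, 68719476736)] :=
  Pool.Agent.helper14.QF.covD_F chks_eq (.l 6)
    [(222402969600, 440401920), (212600881152, 23622320128), (343597383680, 68719476736), (1030792151040, 68719476736)] rfl (by decide +kernel)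
end
mutual
theorem c0_m43_t25 : CovD 0 progs [(223283773440, 440401920), (200789721088, 11811160064), (309237645312, 34359738368), (893353197568, 68719476736)] :=
  Pool.Agent.helper14.QF.covD_F chks_eq (.n 2 (.n 3 (.n 3 (.n 3 (.n 3 (.l 4) (.n 0 (.l 4) (.l 4))) (.l 6)) (.l 6)) (.l 6)) (.l 6))
    [(223283773440, 440401920), (200789721088, 11811160064), (309237645312, 34359738368), (893353197568, 68719476736)] rfl (by decide +kernel)
theorem c0_m43_t26 : CovD 0 progs [(223283773440, 440401920), (224412041216, 11811160064), (309237645312, 34359738368), (893353197568, 68719476736)] :=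
  Pool.Agent.helper14.QF.covD_F chks_eq (.n 3 (.n 1 (.n 2 (.n 2 (.n 3 (.n 3 (.n 3 (.l 4) (.l 4)) (.n 3 (.l 4) (.l 4))) (.l 6)) (.n 3 (.n 3 (.n 3 (.l 4) (.l 4)) (.l 6)) (.l 6))) (.l 6)) (.n 1 (.n 1 (.n 1 (.n 3 (.n 3 (.n 3 (.l 4) (.n 0 (.l 4) (.l 4))) (.n 3 (.l 4) (.l 4))) (.l 6)) (.l 11)) (.l 11)) (.l 11))) (.l 6))
    [(223283773440, 440401920), (224412041216, 11811160064), (309237645312, 34359738368), (893353197568, 68719476736)] rfl (by decide +kernel)
end
mutual
theorem c0_m43_t28 : CovD 0 progs [(223283773440, 440401920), (212600881152, 23622320128), (377957122048, 34359738368), (893353197568, 68719476736)] :=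
  Pool.Agent.helper14.QF.covD_F chks_eq (.l 6)
    [(223283773440, 440401920), (212600881152, 23622320128), (377957122048, 34359738368), (893353197568, 68719476736)] rfl (by decide +kernel)
theorem c0_m43_t30 : CovD 0 progs [(223283773440, 440401920), (212600881152, 23622320128), (343597383680, 68719476736), (1030792151040, 68719476736)] :=
  Pool.Agent.helper14.QF.covD_F chks_eq (.l 6)
    [(223283773440, 440401920), (212600881152, 23622320128), (343597383680, 68719476736), (1030792151040, 68719476736)] rfl (by decide +kernel)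
end
mutual
theorem c0_m43_t34 : CovD 0 progs [(222843371520, 880803840), (212600881152, 23622320128), (481036337152, 68719476736), (824633720832, 274877906944)] :=
  Pool.Agent.helper14.QF.covD_F chks_eq (.n 3 (.n 3 (.n 3 (.l 4) (.l 4)) (.n 3 (.n 3 (.l 4) (.l 4)) (.l 6))) (.l 6))
    [(222843371520, 880803840), (212600881152, 23622320128), (481036337152, 68719476736), (824633720832, 274877906944)] rfl (by decide +kernel)
theorem c0_m43_t36 : CovD 0 progs [(224164577280, 440401920), (212600881152, 23622320128), (343597383680, 68719476736), (687194767360, 137438953472)] :=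
  Pool.Agent.helper14.QF.covD_F chks_eq (.n 2 (.n 3 (.n 3 (.l 4) (.l 4)) (.n 3 (.n 3 (.l 4) (.l 4)) (.n 3 (.n 3 (.l 4) (.l 4)) (.n 3 (.l 4) (.n 3 (.l 4) (.l 4)))))) (.n 3 (.n 3 (.l 4) (.l 4)) (.n 3 (.n 3 (.l 4) (.l 4)) (.n 3 (.n 3 (.l 4) (.l 4)) (.n 3 (.l 4) (.n 3 (.l 4) (.l 4)))))))
    [(224164577280, 440401920), (212600881152, 23622320128), (343597383680, 68719476736), (687194767360, 137438953472)] rfl (by decide +kernel)
end
mutual
theorem c0_m43_t37 : CovD 0 progs [(224164577280, 440401920), (212600881152, 23622320128), (343597383680, 68719476736), (962072674304, 137438953472)] :=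
  Pool.Agent.helper14.QF.covD_F chks_eq (.n 3 (.n 2 (.n 3 (.n 3 (.n 3 (.n 3 (.n 0 (.l 4) (.l 4)) (.l 4)) (.n 3 (.l 4) (.l 4))) (.n 2 (.n 3 (.n 3 (.l 4) (.l 4)) (.l 6)) (.l 6))) (.l 6)) (.n 1 (.l 6) (.l 6))) (.l 6))
    [(224164577280, 440401920), (212600881152, 23622320128), (343597383680, 68719476736), (962072674304, 137438953472)] rfl (by decide +kernel)
theorem c0_m43_t39 : CovD 0 progs [(224164577280, 440401920), (212600881152, 23622320128), (481036337152, 68719476736), (824633720832, 274877906944)] :=
  Pool.Agent.helper14.QF.covD_F chks_eq (.n 3 (.n 3 (.n 3 (.l 4) (.l 4)) (.n 3 (.n 3 (.l 4) (.l 4)) (.l 6))) (.l 6))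
    [(224164577280, 440401920), (212600881152, 23622320128), (481036337152, 68719476736), (824633720832, 274877906944)] rfl (by decide +kernel)
end
mutual
theorem c0_m43_t41 : CovD 0 progs [(225045381120, 440401920), (212600881152, 23622320128), (343597383680, 68719476736), (687194767360, 137438953472)] :=
  Pool.Agent.helper14.QF.covD_F chks_eq (.n 2 (.n 3 (.n 3 (.l 4) (.l 4)) (.n 3 (.n 3 (.l 4) (.l 4)) (.n 3 (.n 3 (.l 4) (.l 4)) (.n 3 (.l 4) (.n 3 (.l 4) (.l 4)))))) (.n 3 (.n 3 (.l 4) (.l 4)) (.n 3 (.n 3 (.l 4) (.l 4)) (.n 3 (.n 3 (.l 4) (.l 4)) (.n 3 (.l 4) (.n 3 (.l 4) (.l 4)))))))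
    [(225045381120, 440401920), (212600881152, 23622320128), (343597383680, 68719476736), (687194767360, 137438953472)] rfl (by decide +kernel)
theorem c0_m43_t42 : CovD 0 progs [(225045381120, 440401920), (212600881152, 23622320128), (343597383680, 68719476736), (962072674304, 137438953472)] :=
  Pool.Agent.helper14.QF.covD_F chks_eq (.n 3 (.n 2 (.n 3 (.n 3 (.n 3 (.n 0 (.n 3 (.l 4) (.l 4)) (.n 3 (.l 4) (.l 4))) (.n 3 (.l 4) (.l 4))) (.n 3 (.n 3 (.l 4) (.l 4)) (.l 4))) (.l 6)) (.n 1 (.l 6) (.n 3 (.l 6) (.l 6)))) (.l 6))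
    [(225045381120, 440401920), (212600881152, 23622320128), (343597383680, 68719476736), (962072674304, 137438953472)] rfl (by decide +kernel)
theorem c0_m43_t44 : CovD 0 progs [(225045381120, 440401920), (212600881152, 23622320128), (481036337152, 68719476736), (824633720832, 274877906944)] :=
  Pool.Agent.helper14.QF.covD_F chks_eq (.n 3 (.n 3 (.n 3 (.l 4) (.l 4)) (.n 2 (.n 3 (.n 3 (.l 4) (.l 4)) (.l 6)) (.l 6))) (.l 6))
    [(225045381120, 440401920), (212600881152, 23622320128), (481036337152, 68719476736), (824633720832, 274877906944)] rfl (by decide +kernel)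
end
theorem c0_m43_t4 : CovD 0 progs [(204346490880, 7046430720), (212600881152, 23622320128), (412316860416, 137438953472), (824633720832, 274877906944)] :=
  covD_split 0 (by decide +kernel) c0_m43_t2 c0_m43_t3
theorem c0_m43_t7 : CovD 0 progs [(214916136960, 3523215360), (212600881152, 23622320128), (412316860416, 137438953472), (824633720832, 274877906944)] :=
  covD_split 0 (by decide +kernel) c0_m43_t5 c0_m43_t6
theorem c0_m43_t10 : CovD 0 progs [(219320156160, 880803840), (212600881152, 23622320128), (343597383680, 68719476736), (687194767360, 137438953472)] :=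
  covD_split 0 (by decide +kernel) c0_m43_t8 c0_m43_t9
theorem c0_m43_t12 : CovD 0 progs [(220200960000, 1761607680), (212600881152, 23622320128), (343597383680, 68719476736), (687194767360, 137438953472)] :=
  covD_split 0 (by decide +kernel) c0_m43_t10 c0_m43_t11
theorem c0_m43_t14 : CovD 0 progs [(220200960000, 1761607680), (212600881152, 23622320128), (343597383680, 68719476736), (824633720832, 274877906944)] :=
  covD_split 3 (by decide +kernel) c0_m43_t12 c0_m43_t13
theorem c0_m43_t16 : CovD 0 progs [(220200960000, 1761607680), (212600881152, 23622320128), (412316860416, 137438953472), (824633720832, 274877906944)] :=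
  covD_split 2 (by decide +kernel) c0_m43_t14 c0_m43_t15
theorem c0_m43_t20 : CovD 0 progs [(222402969600, 440401920), (212600881152, 23622320128), (309237645312, 34359738368), (893353197568, 68719476736)] :=
  covD_split 3 (by decide +kernel) c0_m43_t18 c0_m43_t19
theorem c0_m43_t22 : CovD 0 progs [(222402969600, 440401920), (212600881152, 23622320128), (343597383680, 68719476736), (893353197568, 68719476736)] :=
  covD_split 2 (by decide +kernel) c0_m43_t20 c0_m43_t21
theorem c0_m43_t24 : CovD 0 progs [(222402969600, 440401920), (212600881152, 23622320128), (343597383680, 68719476736), (962072674304, 137438953472)] :=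
  covD_split 3 (by decide +kernel) c0_m43_t22 c0_m43_t23
theorem c0_m43_t27 : CovD 0 progs [(223283773440, 440401920), (212600881152, 23622320128), (309237645312, 34359738368), (893353197568, 68719476736)] :=
  covD_split 1 (by decide +kernel) c0_m43_t25 c0_m43_t26
theorem c0_m43_t29 : CovD 0 progs [(223283773440, 440401920), (212600881152, 23622320128), (343597383680, 68719476736), (893353197568, 68719476736)] :=
  covD_split 2 (by decide +kernel) c0_m43_t27 c0_m43_t28
theorem c0_m43_t31 : CovD 0 progs [(223283773440, 440401920), (212600881152, 23622320128), (343597383680, 68719476736), (962072674304, 137438953472)] :=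
  covD_split 3 (by decide +kernel) c0_m43_t29 c0_m43_t30
theorem c0_m43_t32 : CovD 0 progs [(222843371520, 880803840), (212600881152, 23622320128), (343597383680, 68719476736), (962072674304, 137438953472)] :=
  covD_split 0 (by decide +kernel) c0_m43_t24 c0_m43_t31
theorem c0_m43_t33 : CovD 0 progs [(222843371520, 880803840), (212600881152, 23622320128), (343597383680, 68719476736), (824633720832, 274877906944)] :=
  covD_split 3 (by decide +kernel) c0_m43_t17 c0_m43_t32
theorem c0_m43_t35 : CovD 0 progs [(222843371520, 880803840), (212600881152, 23622320128), (412316860416, 137438953472), (824633720832, 274877906944)] :=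
  covD_split 2 (by decide +kernel) c0_m43_t33 c0_m43_t34
theorem c0_m43_t38 : CovD 0 progs [(224164577280, 440401920), (212600881152, 23622320128), (343597383680, 68719476736), (824633720832, 274877906944)] :=
  covD_split 3 (by decide +kernel) c0_m43_t36 c0_m43_t37
theorem c0_m43_t40 : CovD 0 progs [(224164577280, 440401920), (212600881152, 23622320128), (412316860416, 137438953472), (824633720832, 274877906944)] :=
  covD_split 2 (by decide +kernel) c0_m43_t38 c0_m43_t39
theorem c0_m43_t43 : CovD 0 progs [(225045381120, 440401920), (212600881152, 23622320128), (343597383680, 68719476736), (824633720832, 274877906944)] :=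
  covD_split 3 (by decide +kernel) c0_m43_t41 c0_m43_t42
theorem c0_m43_t45 : CovD 0 progs [(225045381120, 440401920), (212600881152, 23622320128), (412316860416, 137438953472), (824633720832, 274877906944)] :=
  covD_split 2 (by decide +kernel) c0_m43_t43 c0_m43_t44
theorem c0_m43_t46 : CovD 0 progs [(224604979200, 880803840), (212600881152, 23622320128), (412316860416, 137438953472), (824633720832, 274877906944)] :=
  covD_split 0 (by decide +kernel) c0_m43_t40 c0_m43_t45
theorem c0_m43_t47 : CovD 0 progs [(223724175360, 1761607680), (212600881152, 23622320128), (412316860416, 137438953472), (824633720832, 274877906944)] :=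
  covD_split 0 (by decide +kernel) c0_m43_t35 c0_m43_t46
theorem c0_m43_t48 : CovD 0 progs [(221962567680, 3523215360), (212600881152, 23622320128), (412316860416, 137438953472), (824633720832, 274877906944)] :=
  covD_split 0 (by decide +kernel) c0_m43_t16 c0_m43_t47
theorem c0_m43_t49 : CovD 0 progs [(218439352320, 7046430720), (212600881152, 23622320128), (412316860416, 137438953472), (824633720832, 274877906944)] :=
  covD_split 0 (by decide +kernel) c0_m43_t7 c0_m43_t48
theorem c0_m43_t50 : CovD 0 progs [(211392921600, 14092861440), (212600881152, 23622320128), (412316860416, 137438953472), (824633720832, 274877906944)] :=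
  covD_split 0 (by decide +kernel) c0_m43_t4 c0_m43_t49
theorem c0_m43_t51 : CovD 0 progs [(197300060160, 28185722880), (212600881152, 23622320128), (412316860416, 137438953472), (824633720832, 274877906944)] :=
  covD_split 0 (by decide +kernel) c0_m43_t1 c0_m43_t50
theorem c0_m43 : CovD 0 progs [(169114337280, 56371445760), (212600881152, 23622320128), (412316860416, 137438953472), (824633720832, 274877906944)] :=
  covD_split 0 (by decide +kernel) c0_m43_t0 c0_m43_t51

end Pool.Agent.helper71.FJ.Crt.QMa
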