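import Pool.Agent.helper71.FJ.Crt.QMaP

/-!
Generated certificates.
-/

namespace Pool.Agent.helper71.FJ.Crt.QMa

open Pool.Agent.helper31.IA (Z Op)
open Pool.Agent.helper31.IC

mutual
theorem c0_m47_t0 : CovD 0 progs [(112742891520, 112742891520), (94489280512, 94489280512), (1649267441664, 549755813888), (549755813888, 549755813888)] :=
  Pool.Agent.helper14.QF.covD_F chks_eq (.n 3 (.n 2 (.n 0 (.l 12) (.n 0 (.l 12) (.n 2 (.l 6) (.l 6)))) (.n 0 (.l 12) (.n 0 (.l 12) (.n 1 (.l 6) (.n 0 (.l 6) (.l 6)))))) (.n 2 (.n 0 (.n 3 (.n 0 (.l 6) (.l 6)) (.l 6)) (.n 0 (.l 6) (.n 1 (.l 6) (.l 6)))) (.n 0 (.n 3 (.n 0 (.l 6) (.l 6)) (.l 6)) (.n 0 (.n 1 (.l 6) (.l 6)) (.n 1 (.l 6) (.l 6))))))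
    [(112742891520, 112742891520), (94489280512, 94489280512), (1649267441664, 549755813888), (549755813888, 549755813888)] rfl (by decide +kernel)
theorem c0_m47_t1 : CovD 0 progs [(112742891520, 112742891520), (283467841536, 94489280512), (1649267441664, 549755813888), (274877906944, 274877906944)] :=
  Pool.Agent.helper14.QF.covD_F chks_eq (.n 2 (.n 0 (.l 12) (.n 0 (.l 12) (.n 0 (.l 12) (.n 1 (.n 1 (.l 6) (.l 11)) (.l 11))))) (.n 0 (.l 12) (.n 0 (.l 12) (.n 0 (.l 12) (.n 1 (.n 1 (.l 6) (.l 11)) (.l 11))))))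
    [(112742891520, 112742891520), (283467841536, 94489280512), (1649267441664, 549755813888), (274877906944, 274877906944)] rfl (by decide +kernel)
theorem c0_m47_t2 : CovD 0 progs [(112742891520, 112742891520), (283467841536, 94489280512), (1649267441664, 549755813888), (824633720832, 274877906944)] :=
  Pool.Agent.helper14.QF.covD_F chks_eq (.n 2 (.n 1 (.n 0 (.n 0 (.l 6) (.l 6)) (.n 0 (.l 6) (.n 1 (.l 6) (.l 11)))) (.l 11)) (.n 0 (.n 1 (.n 3 (.l 12) (.l 6)) (.l 11)) (.n 0 (.n 1 (.n 1 (.l 6) (.l 11)) (.l 11)) (.n 1 (.n 1 (.n 0 (.l 6) (.l 6)) (.n 1 (.l 11) (.l 11))) (.n 0 (.l 11) (.l 11))))))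
    [(112742891520, 112742891520), (283467841536, 94489280512), (1649267441664, 549755813888), (824633720832, 274877906944)] rfl (by decide +kernel)
end
theorem c0_m47_t3 : CovD 0 progs [(112742891520, 112742891520), (283467841536, 94489280512), (1649267441664, 549755813888), (549755813888, 549755813888)] :=
  covD_split 3 (by decide +kernel) c0_m47_t1 c0_m47_t2
theorem c0_m47 : CovD 0 progs [(112742891520, 112742891520), (188978561024, 188978561024), (1649267441664, 549755813888), (549755813888, 549755813888)] :=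
  covD_split 1 (by decide +kernel) c0_m47_t0 c0_m47_t3

end Pool.Agent.helper71.FJ.Crt.QMa
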