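import Pool.Agent.helper71.FJ.Crt.QMaP

/-!
Generated certificates.
-/

namespace Pool.Agent.helper71.FJ.Crt.QMa

open Pool.Agent.helper31.IA (Z Op)
open Pool.Agent.helper31.IC

mutual
theorem c0_m7_t0 : CovD 0 progs [(197300060160, 28185722880), (23622320128, 23622320128), (68719476736, 68719476736), (618475290624, 68719476736)] :=
  Pool.Agent.helper14.QF.covD_F chks_eq (.n 3 (.n 3 (.n 0 (.l 6) (.n 0 (.n 0 (.n 0 (.l 4) (.l 4)) (.l 4)) (.n 0 (.l 4) (.l 4)))) (.n 0 (.l 6) (.n 0 (.n 0 (.n 0 (.l 4) (.l 4)) (.l 4)) (.n 0 (.l 4) (.l 4))))) (.n 0 (.l 6) (.n 0 (.n 0 (.n 2 (.l 6) (.l 6)) (.n 3 (.l 4) (.l 4))) (.n 0 (.n 0 (.l 4) (.l 4)) (.n 0 (.l 4) (.l 4))))))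
    [(197300060160, 28185722880), (23622320128, 23622320128), (68719476736, 68719476736), (618475290624, 68719476736)] rfl (by decide +kernel)
theorem c0_m7_t1 : CovD 0 progs [(197300060160, 28185722880), (23622320128, 23622320128), (68719476736, 68719476736), (721554505728, 34359738368)] :=
  Pool.Agent.helper14.QF.covD_F chks_eq (.n 3 (.n 0 (.l 6) (.n 0 (.n 0 (.l 4) (.l 4)) (.n 0 (.l 4) (.l 4)))) (.n 0 (.l 6) (.n 0 (.l 6) (.n 0 (.n 0 (.l 4) (.l 4)) (.n 0 (.l 4) (.l 4))))))
    [(197300060160, 28185722880), (23622320128, 23622320128), (68719476736, 68719476736), (721554505728, 34359738368)] rfl (by decide +kernel)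
end
mutual
theorem c0_m7_t2 : CovD 0 progs [(197300060160, 28185722880), (23622320128, 23622320128), (68719476736, 68719476736), (773094113280, 17179869184)] :=
  Pool.Agent.helper14.QF.covD_F chks_eq (.n 3 (.n 0 (.l 6) (.n 0 (.l 6) (.n 0 (.l 4) (.n 0 (.l 4) (.l 4))))) (.n 3 (.n 0 (.l 6) (.n 0 (.l 6) (.n 0 (.l 4) (.n 0 (.l 4) (.l 4))))) (.n 0 (.l 6) (.n 0 (.l 6) (.n 0 (.l 4) (.n 0 (.l 4) (.l 4)))))))
    [(197300060160, 28185722880), (23622320128, 23622320128), (68719476736, 68719476736), (773094113280, 17179869184)] rfl (by decide +kernel)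
theorem c0_m7_t3 : CovD 0 progs [(197300060160, 28185722880), (23622320128, 23622320128), (68719476736, 68719476736), (798863917056, 8589934592)] :=
  Pool.Agent.helper14.QF.covD_F chks_eq (.n 3 (.n 0 (.l 6) (.n 0 (.l 6) (.n 0 (.l 4) (.n 0 (.l 4) (.l 4))))) (.n 0 (.l 6) (.n 0 (.l 6) (.n 0 (.l 6) (.n 0 (.l 4) (.l 4))))))
    [(197300060160, 28185722880), (23622320128, 23622320128), (68719476736, 68719476736), (798863917056, 8589934592)] rfl (by decide +kernel)
end
mutual
theorem c0_m7_t4 : CovD 0 progs [(197300060160, 28185722880), (23622320128, 23622320128), (68719476736, 68719476736), (816043786240, 8589934592)] :=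
  Pool.Agent.helper14.QF.covD_F chks_eq (.n 3 (.n 3 (.n 0 (.l 6) (.n 0 (.l 6) (.n 0 (.l 6) (.n 0 (.l 4) (.l 4))))) (.n 0 (.l 6) (.n 0 (.l 6) (.n 0 (.l 6) (.n 0 (.l 4) (.l 4)))))) (.n 0 (.l 6) (.n 0 (.l 6) (.n 1 (.n 0 (.l 6) (.n 0 (.l 6) (.n 0 (.l 4) (.n 0 (.l 4) (.l 4))))) (.n 0 (.l 6) (.n 0 (.n 0 (.l 4) (.l 4)) (.n 0 (.l 4) (.n 0 (.l 4) (.l 4)))))))))
    [(197300060160, 28185722880), (23622320128, 23622320128), (68719476736, 68719476736), (816043786240, 8589934592)] rfl (by decide +kernel)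
theorem c0_m7_t9 : CovD 0 progs [(183207198720, 14092861440), (70866960384, 23622320128), (68719476736, 68719476736), (618475290624, 68719476736)] :=
  Pool.Agent.helper14.QF.covD_F chks_eq (.n 0 (.l 6) (.n 2 (.n 3 (.n 2 (.l 6) (.l 6)) (.l 6)) (.l 6)))
    [(183207198720, 14092861440), (70866960384, 23622320128), (68719476736, 68719476736), (618475290624, 68719476736)] rfl (by decide +kernel)
end
mutual
theorem c0_m7_t10 : CovD 0 progs [(211392921600, 14092861440), (70866960384, 23622320128), (68719476736, 68719476736), (618475290624, 68719476736)] :=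
  Pool.Agent.helper14.QF.covD_F chks_eq (.n 0 (.n 0 (.n 0 (.n 3 (.n 3 (.l 4) (.l 4)) (.n 0 (.l 4) (.l 4))) (.n 0 (.n 3 (.l 4) (.l 4)) (.n 3 (.l 4) (.l 4)))) (.n 3 (.n 3 (.l 4) (.l 4)) (.n 3 (.l 4) (.l 4)))) (.n 3 (.n 0 (.n 0 (.l 4) (.l 4)) (.n 0 (.l 4) (.l 4))) (.n 0 (.n 0 (.l 4) (.l 4)) (.n 0 (.l 4) (.l 4)))))
    [(211392921600, 14092861440), (70866960384, 23622320128), (68719476736, 68719476736), (618475290624, 68719476736)] rfl (by decide +kernel)
theorem c0_m7_t12 : CovD 0 progs [(197300060160, 28185722880), (70866960384, 23622320128), (68719476736, 68719476736), (721554505728, 34359738368)] :=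
  Pool.Agent.helper14.QF.covD_F chks_eq (.n 0 (.l 6) (.n 0 (.n 0 (.l 6) (.n 3 (.l 4) (.n 0 (.l 4) (.l 4)))) (.n 0 (.n 3 (.l 4) (.n 0 (.l 4) (.l 4))) (.n 3 (.l 4) (.n 0 (.l 4) (.l 4))))))
    [(197300060160, 28185722880), (70866960384, 23622320128), (68719476736, 68719476736), (721554505728, 34359738368)] rfl (by decide +kernel)
end
mutual
theorem c0_m7_t13 : CovD 0 progs [(197300060160, 28185722880), (70866960384, 23622320128), (68719476736, 68719476736), (773094113280, 17179869184)] :=
  Pool.Agent.helper14.QF.covD_F chks_eq (.n 3 (.n 0 (.l 6) (.n 0 (.n 0 (.l 4) (.l 4)) (.n 0 (.l 4) (.n 0 (.l 4) (.l 4))))) (.n 0 (.l 6) (.n 0 (.l 6) (.n 0 (.n 0 (.l 4) (.l 4)) (.n 0 (.l 4) (.l 4))))))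
    [(197300060160, 28185722880), (70866960384, 23622320128), (68719476736, 68719476736), (773094113280, 17179869184)] rfl (by decide +kernel)
theorem c0_m7_t14 : CovD 0 progs [(197300060160, 28185722880), (70866960384, 23622320128), (68719476736, 68719476736), (798863917056, 8589934592)] :=
  Pool.Agent.helper14.QF.covD_F chks_eq (.n 1 (.n 3 (.n 0 (.l 6) (.n 0 (.l 6) (.n 0 (.l 4) (.n 0 (.l 4) (.l 4))))) (.n 0 (.l 6) (.n 0 (.l 6) (.n 0 (.n 0 (.l 4) (.l 4)) (.n 0 (.l 4) (.l 4)))))) (.n 0 (.l 6) (.n 0 (.l 6) (.n 0 (.n 0 (.l 4) (.l 4)) (.n 0 (.n 0 (.l 4) (.l 4)) (.n 3 (.l 4) (.l 4)))))))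
    [(197300060160, 28185722880), (70866960384, 23622320128), (68719476736, 68719476736), (798863917056, 8589934592)] rfl (by decide +kernel)
end
mutual
theorem c0_m7_t15 : CovD 0 progs [(197300060160, 28185722880), (70866960384, 23622320128), (68719476736, 68719476736), (811748818944, 4294967296)] :=
  Pool.Agent.helper14.QF.covD_F chks_eq (.n 0 (.l 6) (.n 0 (.l 6) (.n 0 (.n 0 (.l 4) (.l 4)) (.n 3 (.n 0 (.l 4) (.l 4)) (.n 0 (.l 4) (.l 4))))))
    [(197300060160, 28185722880), (70866960384, 23622320128), (68719476736, 68719476736), (811748818944, 4294967296)] rfl (by decide +kernel)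
theorem c0_m7_t16 : CovD 0 progs [(197300060160, 28185722880), (70866960384, 23622320128), (68719476736, 68719476736), (820338753536, 4294967296)] :=
  Pool.Agent.helper14.QF.covD_F chks_eq (.n 3 (.n 3 (.n 0 (.l 6) (.n 0 (.l 6) (.n 0 (.n 0 (.l 4) (.l 4)) (.n 0 (.l 4) (.l 4))))) (.n 0 (.l 6) (.n 0 (.l 6) (.n 0 (.n 0 (.l 4) (.l 4)) (.n 0 (.l 4) (.l 4)))))) (.n 0 (.l 6) (.n 0 (.l 6) (.n 0 (.n 0 (.l 4) (.l 4)) (.n 3 (.n 0 (.l 4) (.l 4)) (.n 3 (.n 0 (.l 4) (.l 4)) (.n 0 (.l 4) (.l 4))))))))
    [(197300060160, 28185722880), (70866960384, 23622320128), (68719476736, 68719476736), (820338753536, 4294967296)] rfl (by decide +kernel)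
end
mutual
theorem c0_m7_t23 : CovD 0 progs [(197300060160, 28185722880), (47244640256, 47244640256), (206158430208, 68719476736), (618475290624, 68719476736)] :=
  Pool.Agent.helper14.QF.covD_F chks_eq (.n 0 (.l 6) (.n 0 (.n 0 (.n 2 (.n 1 (.l 6) (.n 3 (.n 0 (.l 6) (.n 0 (.l 4) (.l 4))) (.l 6))) (.l 6)) (.n 3 (.n 3 (.l 4) (.l 4)) (.n 3 (.l 4) (.l 4)))) (.n 3 (.n 0 (.n 0 (.l 4) (.l 4)) (.n 0 (.l 4) (.l 4))) (.n 0 (.n 0 (.l 4) (.l 4)) (.n 0 (.l 4) (.l 4))))))
    [(197300060160, 28185722880), (47244640256, 47244640256), (206158430208, 68719476736), (618475290624, 68719476736)] rfl (by decide +kernel)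
theorem c0_m7_t24 : CovD 0 progs [(197300060160, 28185722880), (47244640256, 47244640256), (206158430208, 68719476736), (721554505728, 34359738368)] :=
  Pool.Agent.helper14.QF.covD_F chks_eq (.n 3 (.n 2 (.n 0 (.l 6) (.n 0 (.n 0 (.l 4) (.l 4)) (.n 0 (.l 4) (.l 4)))) (.n 0 (.l 6) (.n 0 (.l 6) (.n 0 (.l 4) (.n 0 (.l 4) (.l 4)))))) (.n 3 (.n 0 (.l 6) (.n 0 (.n 0 (.l 4) (.l 4)) (.n 0 (.l 4) (.l 4)))) (.n 0 (.l 6) (.n 0 (.l 6) (.n 0 (.l 4) (.l 4))))))
    [(197300060160, 28185722880), (47244640256, 47244640256), (206158430208, 68719476736), (721554505728, 34359738368)] rfl (by decide +kernel)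
end
mutual
theorem c0_m7_t25 : CovD 0 progs [(183207198720, 14092861440), (47244640256, 47244640256), (206158430208, 68719476736), (790273982464, 34359738368)] :=
  Pool.Agent.helper14.QF.covD_F chks_eq (.l 6)
    [(183207198720, 14092861440), (47244640256, 47244640256), (206158430208, 68719476736), (790273982464, 34359738368)] rfl (by decide +kernel)
theorem c0_m7_t26 : CovD 0 progs [(204346490880, 7046430720), (47244640256, 47244640256), (206158430208, 68719476736), (790273982464, 34359738368)] :=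
  Pool.Agent.helper14.QF.covD_F chks_eq (.l 6)
    [(204346490880, 7046430720), (47244640256, 47244640256), (206158430208, 68719476736), (790273982464, 34359738368)] rfl (by decide +kernel)
end
mutual
theorem c0_m7_t27 : CovD 0 progs [(214916136960, 3523215360), (47244640256, 47244640256), (206158430208, 68719476736), (790273982464, 34359738368)] :=
  Pool.Agent.helper14.QF.covD_F chks_eq (.n 1 (.l 6) (.n 2 (.n 2 (.n 3 (.n 3 (.l 4) (.l 6)) (.l 6)) (.l 6)) (.l 6)))
    [(214916136960, 3523215360), (47244640256, 47244640256), (206158430208, 68719476736), (790273982464, 34359738368)] rfl (by decide +kernel)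
theorem c0_m7_t28 : CovD 0 progs [(221962567680, 3523215360), (47244640256, 47244640256), (206158430208, 68719476736), (790273982464, 34359738368)] :=
  Pool.Agent.helper14.QF.covD_F chks_eq (.n 3 (.n 0 (.n 3 (.l 4) (.l 4)) (.n 0 (.n 3 (.l 4) (.l 4)) (.n 3 (.l 4) (.l 4)))) (.n 3 (.n 0 (.n 0 (.l 4) (.l 4)) (.n 3 (.l 4) (.n 0 (.l 4) (.l 4)))) (.n 3 (.n 2 (.n 0 (.l 4) (.n 0 (.l 4) (.l 4))) (.l 6)) (.n 3 (.n 0 (.l 4) (.n 0 (.l 4) (.l 4))) (.n 0 (.l 4) (.n 0 (.l 4) (.l 4)))))))
    [(221962567680, 3523215360), (47244640256, 47244640256), (206158430208, 68719476736), (790273982464, 34359738368)] rfl (by decide +kernel)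
end
theorem c0_m7_t5 : CovD 0 progs [(197300060160, 28185722880), (23622320128, 23622320128), (68719476736, 68719476736), (807453851648, 17179869184)] :=
  covD_split 3 (by decide +kernel) c0_m7_t3 c0_m7_t4
theorem c0_m7_t6 : CovD 0 progs [(197300060160, 28185722880), (23622320128, 23622320128), (68719476736, 68719476736), (790273982464, 34359738368)] :=
  covD_split 3 (by decide +kernel) c0_m7_t2 c0_m7_t5
theorem c0_m7_t7 : CovD 0 progs [(197300060160, 28185722880), (23622320128, 23622320128), (68719476736, 68719476736), (755914244096, 68719476736)] :=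
  covD_split 3 (by decide +kernel) c0_m7_t1 c0_m7_t6
theorem c0_m7_t8 : CovD 0 progs [(197300060160, 28185722880), (23622320128, 23622320128), (68719476736, 68719476736), (687194767360, 137438953472)] :=
  covD_split 3 (by decide +kernel) c0_m7_t0 c0_m7_t7
theorem c0_m7_t11 : CovD 0 progs [(197300060160, 28185722880), (70866960384, 23622320128), (68719476736, 68719476736), (618475290624, 68719476736)] :=
  covD_split 0 (by decide +kernel) c0_m7_t9 c0_m7_t10
theorem c0_m7_t17 : CovD 0 progs [(197300060160, 28185722880), (70866960384, 23622320128), (68719476736, 68719476736), (816043786240, 8589934592)] :=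
  covD_split 3 (by decide +kernel) c0_m7_t15 c0_m7_t16
theorem c0_m7_t18 : CovD 0 progs [(197300060160, 28185722880), (70866960384, 23622320128), (68719476736, 68719476736), (807453851648, 17179869184)] :=
  covD_split 3 (by decide +kernel) c0_m7_t14 c0_m7_t17
theorem c0_m7_t19 : CovD 0 progs [(197300060160, 28185722880), (70866960384, 23622320128), (68719476736, 68719476736), (790273982464, 34359738368)] :=
  covD_split 3 (by decide +kernel) c0_m7_t13 c0_m7_t18
theorem c0_m7_t20 : CovD 0 progs [(197300060160, 28185722880), (70866960384, 23622320128), (68719476736, 68719476736), (755914244096, 68719476736)] :=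
  covD_split 3 (by decide +kernel) c0_m7_t12 c0_m7_t19
theorem c0_m7_t21 : CovD 0 progs [(197300060160, 28185722880), (70866960384, 23622320128), (68719476736, 68719476736), (687194767360, 137438953472)] :=
  covD_split 3 (by decide +kernel) c0_m7_t11 c0_m7_t20
theorem c0_m7_t22 : CovD 0 progs [(197300060160, 28185722880), (47244640256, 47244640256), (68719476736, 68719476736), (687194767360, 137438953472)] :=
  covD_split 1 (by decide +kernel) c0_m7_t8 c0_m7_t21
theorem c0_m7_t29 : CovD 0 progs [(218439352320, 7046430720), (47244640256, 47244640256), (206158430208, 68719476736), (790273982464, 34359738368)] :=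
  covD_split 0 (by decide +kernel) c0_m7_t27 c0_m7_t28
theorem c0_m7_t30 : CovD 0 progs [(211392921600, 14092861440), (47244640256, 47244640256), (206158430208, 68719476736), (790273982464, 34359738368)] :=
  covD_split 0 (by decide +kernel) c0_m7_t26 c0_m7_t29
theorem c0_m7_t31 : CovD 0 progs [(197300060160, 28185722880), (47244640256, 47244640256), (206158430208, 68719476736), (790273982464, 34359738368)] :=
  covD_split 0 (by decide +kernel) c0_m7_t25 c0_m7_t30
theorem c0_m7_t32 : CovD 0 progs [(197300060160, 28185722880), (47244640256, 47244640256), (206158430208, 68719476736), (755914244096, 68719476736)] :=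
  covD_split 3 (by decide +kernel) c0_m7_t24 c0_m7_t31
theorem c0_m7_t33 : CovD 0 progs [(197300060160, 28185722880), (47244640256, 47244640256), (206158430208, 68719476736), (687194767360, 137438953472)] :=
  covD_split 3 (by decide +kernel) c0_m7_t23 c0_m7_t32
theorem c0_m7 : CovD 0 progs [(197300060160, 28185722880), (47244640256, 47244640256), (137438953472, 137438953472), (687194767360, 137438953472)] :=
  covD_split 2 (by decide +kernel) c0_m7_t22 c0_m7_t33

end Pool.Agent.helper71.FJ.Crt.QMa
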