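import Pool.Agent.helper71.FJ.Crt.QMaP

/-!
Generated certificates.
-/

namespace Pool.Agent.helper71.FJ.Crt.QMa

open Pool.Agent.helper31.IA (Z Op)
open Pool.Agent.helper31.IC

mutual
theorem c0_m8_t0 : CovD 0 progs [(183207198720, 14092861440), (118111600640, 23622320128), (68719476736, 68719476736), (687194767360, 137438953472)] :=
  Pool.Agent.helper14.QF.covD_F chks_eq (.n 0 (.l 6) (.n 2 (.n 3 (.n 3 (.n 3 (.n 0 (.l 6) (.n 0 (.n 0 (.l 6) (.l 10)) (.l 10))) (.n 0 (.l 6) (.n 0 (.l 4) (.l 4)))) (.n 2 (.n 3 (.n 2 (.l 6) (.l 6)) (.l 6)) (.l 6))) (.l 6)) (.n 0 (.l 6) (.n 0 (.n 0 (.n 3 (.l 6) (.l 6)) (.n 3 (.n 3 (.n 3 (.l 10) (.l 4)) (.l 6)) (.l 6))) (.n 3 (.n 3 (.n 3 (.l 10) (.l 4)) (.l 6)) (.l 6))))))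
    [(183207198720, 14092861440), (118111600640, 23622320128), (68719476736, 68719476736), (687194767360, 137438953472)] rfl (by decide +kernel)
theorem c0_m8_t1 : CovD 0 progs [(200823275520, 3523215360), (118111600640, 23622320128), (68719476736, 68719476736), (687194767360, 137438953472)] :=
  Pool.Agent.helper14.QF.covD_F chks_eq (.n 3 (.n 3 (.n 0 (.n 3 (.l 4) (.l 4)) (.n 0 (.l 4) (.l 4))) (.n 3 (.l 4) (.l 4))) (.n 3 (.n 3 (.l 4) (.l 4)) (.l 6)))
    [(200823275520, 3523215360), (118111600640, 23622320128), (68719476736, 68719476736), (687194767360, 137438953472)] rfl (by decide +kernel)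
end
mutual
theorem c0_m8_t2 : CovD 0 progs [(207869706240, 3523215360), (118111600640, 23622320128), (68719476736, 68719476736), (687194767360, 137438953472)] :=
  Pool.Agent.helper14.QF.covD_F chks_eq (.n 0 (.n 2 (.n 3 (.n 0 (.n 3 (.l 4) (.l 4)) (.n 3 (.l 4) (.l 4))) (.n 3 (.n 3 (.l 4) (.l 4)) (.n 2 (.l 6) (.l 6)))) (.n 3 (.n 0 (.n 3 (.l 4) (.l 4)) (.n 3 (.l 4) (.l 4))) (.n 3 (.n 3 (.l 4) (.l 4)) (.l 6)))) (.n 3 (.n 3 (.l 4) (.l 4)) (.n 3 (.n 3 (.l 4) (.l 4)) (.n 3 (.l 4) (.n 3 (.l 4) (.l 4))))))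
    [(207869706240, 3523215360), (118111600640, 23622320128), (68719476736, 68719476736), (687194767360, 137438953472)] rfl (by decide +kernel)
theorem c0_m8_t4 : CovD 0 progs [(214916136960, 3523215360), (118111600640, 23622320128), (68719476736, 68719476736), (687194767360, 137438953472)] :=
  Pool.Agent.helper14.QF.covD_F chks_eq (.n 0 (.n 0 (.n 3 (.n 3 (.l 4) (.l 4)) (.n 3 (.n 3 (.l 4) (.l 4)) (.n 3 (.l 4) (.n 3 (.l 4) (.l 4))))) (.n 3 (.n 3 (.l 4) (.l 4)) (.n 3 (.n 3 (.l 4) (.l 4)) (.n 3 (.l 4) (.n 3 (.l 4) (.l 4)))))) (.n 3 (.n 3 (.l 4) (.l 4)) (.n 3 (.n 3 (.l 4) (.l 4)) (.n 3 (.n 0 (.l 4) (.l 4)) (.n 3 (.l 4) (.n 3 (.l 4) (.l 4)))))))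
    [(214916136960, 3523215360), (118111600640, 23622320128), (68719476736, 68719476736), (687194767360, 137438953472)] rfl (by decide +kernel)
end
mutual
theorem c0_m8_t5 : CovD 0 progs [(221962567680, 3523215360), (118111600640, 23622320128), (68719476736, 68719476736), (618475290624, 68719476736)] :=
  Pool.Agent.helper14.QF.covD_F chks_eq (.n 0 (.n 3 (.l 4) (.l 4)) (.n 3 (.l 4) (.l 4)))
    [(221962567680, 3523215360), (118111600640, 23622320128), (68719476736, 68719476736), (618475290624, 68719476736)] rfl (by decide +kernel)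
theorem c0_m8_t6 : CovD 0 progs [(221962567680, 3523215360), (118111600640, 23622320128), (68719476736, 68719476736), (721554505728, 34359738368)] :=
  Pool.Agent.helper14.QF.covD_F chks_eq (.n 3 (.l 4) (.n 0 (.l 4) (.l 4)))
    [(221962567680, 3523215360), (118111600640, 23622320128), (68719476736, 68719476736), (721554505728, 34359738368)] rfl (by decide +kernel)
end
mutual
theorem c0_m8_t7 : CovD 0 progs [(220200960000, 1761607680), (118111600640, 23622320128), (68719476736, 68719476736), (790273982464, 34359738368)] :=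
  Pool.Agent.helper14.QF.covD_F chks_eq (.n 0 (.n 3 (.n 0 (.l 4) (.l 4)) (.n 3 (.l 4) (.n 3 (.l 4) (.l 4)))) (.n 3 (.n 3 (.l 4) (.l 4)) (.n 3 (.l 4) (.n 3 (.l 4) (.l 4)))))
    [(220200960000, 1761607680), (118111600640, 23622320128), (68719476736, 68719476736), (790273982464, 34359738368)] rfl (by decide +kernel)
theorem c0_m8_t8 : CovD 0 progs [(223724175360, 1761607680), (118111600640, 23622320128), (68719476736, 68719476736), (790273982464, 34359738368)] :=
  Pool.Agent.helper14.QF.covD_F chks_eq (.n 0 (.n 3 (.n 3 (.l 4) (.l 4)) (.n 3 (.n 0 (.l 4) (.l 4)) (.n 3 (.l 4) (.l 4)))) (.n 0 (.n 3 (.n 3 (.l 4) (.l 4)) (.n 3 (.l 4) (.n 3 (.l 4) (.l 4)))) (.n 3 (.n 3 (.l 4) (.l 4)) (.n 3 (.l 4) (.n 3 (.l 4) (.l 4))))))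
    [(223724175360, 1761607680), (118111600640, 23622320128), (68719476736, 68719476736), (790273982464, 34359738368)] rfl (by decide +kernel)
end
mutual
theorem c0_m8_t15 : CovD 0 progs [(183207198720, 14092861440), (165356240896, 23622320128), (68719476736, 68719476736), (618475290624, 68719476736)] :=
  Pool.Agent.helper14.QF.covD_F chks_eq (.n 3 (.n 3 (.n 0 (.l 6) (.n 0 (.l 12) (.n 0 (.l 12) (.l 10)))) (.n 1 (.n 0 (.l 6) (.n 0 (.l 6) (.n 0 (.n 0 (.l 4) (.l 4)) (.l 4)))) (.n 0 (.l 6) (.n 0 (.l 12) (.n 0 (.n 0 (.l 4) (.l 4)) (.l 4)))))) (.n 3 (.n 0 (.l 6) (.n 0 (.l 6) (.n 0 (.l 4) (.l 4)))) (.n 0 (.l 6) (.n 0 (.l 6) (.n 0 (.l 4) (.l 4))))))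
    [(183207198720, 14092861440), (165356240896, 23622320128), (68719476736, 68719476736), (618475290624, 68719476736)] rfl (by decide +kernel)
theorem c0_m8_t16 : CovD 0 progs [(211392921600, 14092861440), (165356240896, 23622320128), (68719476736, 68719476736), (618475290624, 68719476736)] :=
  Pool.Agent.helper14.QF.covD_F chks_eq (.n 3 (.n 3 (.n 0 (.n 0 (.n 0 (.l 10) (.l 4)) (.l 4)) (.n 0 (.l 4) (.l 4))) (.n 0 (.n 0 (.n 0 (.l 4) (.l 4)) (.l 4)) (.n 0 (.l 4) (.l 4)))) (.n 0 (.n 0 (.n 3 (.l 4) (.l 4)) (.n 3 (.l 4) (.l 4))) (.n 0 (.n 0 (.l 4) (.l 4)) (.n 0 (.l 4) (.l 4)))))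
    [(211392921600, 14092861440), (165356240896, 23622320128), (68719476736, 68719476736), (618475290624, 68719476736)] rfl (by decide +kernel)
end
mutual
theorem c0_m8_t18 : CovD 0 progs [(197300060160, 28185722880), (165356240896, 23622320128), (68719476736, 68719476736), (721554505728, 34359738368)] :=
  Pool.Agent.helper14.QF.covD_F chks_eq (.n 0 (.n 0 (.l 6) (.n 0 (.l 6) (.n 3 (.l 4) (.l 4)))) (.n 0 (.n 0 (.n 3 (.l 4) (.l 4)) (.n 3 (.l 4) (.n 0 (.l 4) (.l 4)))) (.n 0 (.n 3 (.l 4) (.n 0 (.l 4) (.l 4))) (.n 3 (.l 4) (.n 0 (.l 4) (.l 4))))))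
    [(197300060160, 28185722880), (165356240896, 23622320128), (68719476736, 68719476736), (721554505728, 34359738368)] rfl (by decide +kernel)
theorem c0_m8_t19 : CovD 0 progs [(197300060160, 28185722880), (165356240896, 23622320128), (68719476736, 68719476736), (773094113280, 17179869184)] :=
  Pool.Agent.helper14.QF.covD_F chks_eq (.n 3 (.n 0 (.l 6) (.n 0 (.n 0 (.l 4) (.l 4)) (.n 0 (.l 4) (.n 0 (.l 4) (.l 4))))) (.n 0 (.l 6) (.n 0 (.n 0 (.l 4) (.l 4)) (.n 0 (.n 0 (.l 4) (.l 4)) (.n 0 (.l 4) (.n 0 (.l 4) (.l 4)))))))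
    [(197300060160, 28185722880), (165356240896, 23622320128), (68719476736, 68719476736), (773094113280, 17179869184)] rfl (by decide +kernel)
end
mutual
theorem c0_m8_t20 : CovD 0 progs [(197300060160, 28185722880), (165356240896, 23622320128), (68719476736, 68719476736), (798863917056, 8589934592)] :=
  Pool.Agent.helper14.QF.covD_F chks_eq (.n 0 (.l 6) (.n 3 (.n 0 (.n 0 (.l 4) (.l 4)) (.n 0 (.l 4) (.n 0 (.l 4) (.l 4)))) (.n 0 (.n 0 (.l 4) (.l 4)) (.n 0 (.n 0 (.l 4) (.l 4)) (.n 0 (.l 4) (.n 0 (.l 4) (.l 4)))))))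
    [(197300060160, 28185722880), (165356240896, 23622320128), (68719476736, 68719476736), (798863917056, 8589934592)] rfl (by decide +kernel)
theorem c0_m8_t21 : CovD 0 progs [(197300060160, 28185722880), (165356240896, 23622320128), (68719476736, 68719476736), (811748818944, 4294967296)] :=
  Pool.Agent.helper14.QF.covD_F chks_eq (.n 0 (.l 6) (.n 3 (.n 0 (.n 0 (.l 4) (.l 4)) (.n 0 (.n 0 (.l 4) (.l 4)) (.n 0 (.l 4) (.l 4)))) (.n 0 (.n 0 (.l 4) (.l 4)) (.n 0 (.n 0 (.l 4) (.l 4)) (.n 0 (.l 4) (.l 4))))))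
    [(197300060160, 28185722880), (165356240896, 23622320128), (68719476736, 68719476736), (811748818944, 4294967296)] rfl (by decide +kernel)
theorem c0_m8_t22 : CovD 0 progs [(197300060160, 28185722880), (165356240896, 23622320128), (68719476736, 68719476736), (820338753536, 4294967296)] :=
  Pool.Agent.helper14.QF.covD_F chks_eq (.n 0 (.l 6) (.n 0 (.n 0 (.l 4) (.n 0 (.l 4) (.l 4))) (.n 3 (.n 3 (.n 0 (.n 0 (.l 4) (.l 4)) (.n 0 (.l 4) (.l 4))) (.n 0 (.n 0 (.l 4) (.l 4)) (.n 0 (.l 4) (.l 4)))) (.n 0 (.n 0 (.l 4) (.l 4)) (.n 3 (.n 0 (.l 4) (.l 4)) (.n 3 (.n 0 (.l 4) (.l 4)) (.n 0 (.l 4) (.l 4))))))))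
    [(197300060160, 28185722880), (165356240896, 23622320128), (68719476736, 68719476736), (820338753536, 4294967296)] rfl (by decide +kernel)
end
theorem c0_m8_t3 : CovD 0 progs [(204346490880, 7046430720), (118111600640, 23622320128), (68719476736, 68719476736), (687194767360, 137438953472)] :=
  covD_split 0 (by decide +kernel) c0_m8_t1 c0_m8_t2
theorem c0_m8_t9 : CovD 0 progs [(221962567680, 3523215360), (118111600640, 23622320128), (68719476736, 68719476736), (790273982464, 34359738368)] :=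
  covD_split 0 (by decide +kernel) c0_m8_t7 c0_m8_t8
theorem c0_m8_t10 : CovD 0 progs [(221962567680, 3523215360), (118111600640, 23622320128), (68719476736, 68719476736), (755914244096, 68719476736)] :=
  covD_split 3 (by decide +kernel) c0_m8_t6 c0_m8_t9
theorem c0_m8_t11 : CovD 0 progs [(221962567680, 3523215360), (118111600640, 23622320128), (68719476736, 68719476736), (687194767360, 137438953472)] :=
  covD_split 3 (by decide +kernel) c0_m8_t5 c0_m8_t10
theorem c0_m8_t12 : CovD 0 progs [(218439352320, 7046430720), (118111600640, 23622320128), (68719476736, 68719476736), (687194767360, 137438953472)] :=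
  covD_split 0 (by decide +kernel) c0_m8_t4 c0_m8_t11
theorem c0_m8_t13 : CovD 0 progs [(211392921600, 14092861440), (118111600640, 23622320128), (68719476736, 68719476736), (687194767360, 137438953472)] :=
  covD_split 0 (by decide +kernel) c0_m8_t3 c0_m8_t12
theorem c0_m8_t14 : CovD 0 progs [(197300060160, 28185722880), (118111600640, 23622320128), (68719476736, 68719476736), (687194767360, 137438953472)] :=
  covD_split 0 (by decide +kernel) c0_m8_t0 c0_m8_t13
theorem c0_m8_t17 : CovD 0 progs [(197300060160, 28185722880), (165356240896, 23622320128), (68719476736, 68719476736), (618475290624, 68719476736)] :=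
  covD_split 0 (by decide +kernel) c0_m8_t15 c0_m8_t16
theorem c0_m8_t23 : CovD 0 progs [(197300060160, 28185722880), (165356240896, 23622320128), (68719476736, 68719476736), (816043786240, 8589934592)] :=
  covD_split 3 (by decide +kernel) c0_m8_t21 c0_m8_t22
theorem c0_m8_t24 : CovD 0 progs [(197300060160, 28185722880), (165356240896, 23622320128), (68719476736, 68719476736), (807453851648, 17179869184)] :=
  covD_split 3 (by decide +kernel) c0_m8_t20 c0_m8_t23
theorem c0_m8_t25 : CovD 0 progs [(197300060160, 28185722880), (165356240896, 23622320128), (68719476736, 68719476736), (790273982464, 34359738368)] :=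
  covD_split 3 (by decide +kernel) c0_m8_t19 c0_m8_t24
theorem c0_m8_t26 : CovD 0 progs [(197300060160, 28185722880), (165356240896, 23622320128), (68719476736, 68719476736), (755914244096, 68719476736)] :=
  covD_split 3 (by decide +kernel) c0_m8_t18 c0_m8_t25
theorem c0_m8_t27 : CovD 0 progs [(197300060160, 28185722880), (165356240896, 23622320128), (68719476736, 68719476736), (687194767360, 137438953472)] :=
  covD_split 3 (by decide +kernel) c0_m8_t17 c0_m8_t26
theorem c0_m8 : CovD 0 progs [(197300060160, 28185722880), (141733920768, 47244640256), (68719476736, 68719476736), (687194767360, 137438953472)] :=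
  covD_split 1 (by decide +kernel) c0_m8_t14 c0_m8_t27

end Pool.Agent.helper71.FJ.Crt.QMa
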