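import Pool.Agent.helper71.FJ.Crt.QMaP

/-!
Generated certificates.
-/

namespace Pool.Agent.helper71.FJ.Crt.QMa

open Pool.Agent.helper31.IA (Z Op)
open Pool.Agent.helper31.IC

mutual
theorem c0_m9_t0 : CovD 0 progs [(183207198720, 14092861440), (118111600640, 23622320128), (206158430208, 68719476736), (687194767360, 137438953472)] :=
  Pool.Agent.helper14.QF.covD_F chks_eq (.n 0 (.l 6) (.n 0 (.l 6) (.n 0 (.n 3 (.l 6) (.l 6)) (.n 2 (.n 3 (.n 3 (.n 3 (.l 10) (.l 4)) (.l 6)) (.l 6)) (.l 6)))))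
    [(183207198720, 14092861440), (118111600640, 23622320128), (206158430208, 68719476736), (687194767360, 137438953472)] rfl (by decide +kernel)
theorem c0_m9_t1 : CovD 0 progs [(200823275520, 3523215360), (118111600640, 23622320128), (206158430208, 68719476736), (687194767360, 137438953472)] :=
  Pool.Agent.helper14.QF.covD_F chks_eq (.n 0 (.n 3 (.n 3 (.n 3 (.l 4) (.l 4)) (.n 3 (.l 4) (.l 4))) (.l 6)) (.n 0 (.n 3 (.n 3 (.l 4) (.l 4)) (.l 6)) (.n 3 (.n 3 (.l 4) (.l 4)) (.n 2 (.l 6) (.l 6)))))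
    [(200823275520, 3523215360), (118111600640, 23622320128), (206158430208, 68719476736), (687194767360, 137438953472)] rfl (by decide +kernel)
end
mutual
theorem c0_m9_t2 : CovD 0 progs [(207869706240, 3523215360), (118111600640, 23622320128), (206158430208, 68719476736), (687194767360, 137438953472)] :=
  Pool.Agent.helper14.QF.covD_F chks_eq (.n 2 (.n 3 (.n 3 (.n 3 (.l 4) (.l 4)) (.n 3 (.l 4) (.l 4))) (.n 3 (.n 3 (.l 4) (.n 0 (.l 4) (.l 4))) (.l 6))) (.n 3 (.n 3 (.n 3 (.l 4) (.l 4)) (.n 3 (.l 4) (.l 4))) (.n 3 (.n 3 (.l 4) (.l 6)) (.l 6))))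
    [(207869706240, 3523215360), (118111600640, 23622320128), (206158430208, 68719476736), (687194767360, 137438953472)] rfl (by decide +kernel)
theorem c0_m9_t4 : CovD 0 progs [(213154529280, 1761607680), (118111600640, 23622320128), (206158430208, 68719476736), (687194767360, 137438953472)] :=
  Pool.Agent.helper14.QF.covD_F chks_eq (.n 2 (.n 3 (.n 3 (.l 4) (.l 4)) (.n 3 (.n 3 (.l 4) (.l 4)) (.n 3 (.n 0 (.l 4) (.l 4)) (.n 1 (.l 6) (.l 6))))) (.n 3 (.n 3 (.l 4) (.l 4)) (.n 3 (.n 3 (.l 4) (.l 4)) (.l 6))))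
    [(213154529280, 1761607680), (118111600640, 23622320128), (206158430208, 68719476736), (687194767360, 137438953472)] rfl (by decide +kernel)
end
mutual
theorem c0_m9_t5 : CovD 0 progs [(216677744640, 1761607680), (118111600640, 23622320128), (206158430208, 68719476736), (687194767360, 137438953472)] :=
  Pool.Agent.helper14.QF.covD_F chks_eq (.n 0 (.n 3 (.n 3 (.l 4) (.l 4)) (.n 3 (.n 3 (.l 4) (.l 4)) (.n 3 (.l 4) (.n 3 (.l 4) (.l 4))))) (.n 2 (.n 3 (.n 3 (.l 4) (.l 4)) (.n 3 (.n 3 (.l 4) (.l 4)) (.n 3 (.l 4) (.n 3 (.l 4) (.n 0 (.l 4) (.l 4)))))) (.n 3 (.n 3 (.l 4) (.l 4)) (.n 3 (.n 3 (.l 4) (.l 4)) (.n 3 (.l 4) (.l 6))))))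
    [(216677744640, 1761607680), (118111600640, 23622320128), (206158430208, 68719476736), (687194767360, 137438953472)] rfl (by decide +kernel)
theorem c0_m9_t7 : CovD 0 progs [(220200960000, 1761607680), (118111600640, 23622320128), (171798691840, 34359738368), (687194767360, 137438953472)] :=
  Pool.Agent.helper14.QF.covD_F chks_eq (.n 0 (.n 3 (.n 3 (.l 4) (.l 4)) (.n 3 (.n 3 (.l 4) (.l 4)) (.n 3 (.n 0 (.l 4) (.l 4)) (.n 3 (.l 4) (.n 3 (.l 4) (.l 4)))))) (.n 3 (.n 3 (.l 4) (.l 4)) (.n 3 (.n 3 (.l 4) (.l 4)) (.n 3 (.n 3 (.l 4) (.l 4)) (.n 3 (.l 4) (.n 3 (.l 4) (.l 4)))))))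
    [(220200960000, 1761607680), (118111600640, 23622320128), (171798691840, 34359738368), (687194767360, 137438953472)] rfl (by decide +kernel)
end
mutual
theorem c0_m9_t8 : CovD 0 progs [(220200960000, 1761607680), (118111600640, 23622320128), (240518168576, 34359738368), (687194767360, 137438953472)] :=
  Pool.Agent.helper14.QF.covD_F chks_eq (.n 3 (.n 3 (.l 4) (.l 4)) (.n 3 (.n 3 (.l 4) (.l 4)) (.n 3 (.n 3 (.l 4) (.l 4)) (.n 3 (.n 0 (.l 4) (.l 4)) (.n 3 (.l 4) (.l 6))))))
    [(220200960000, 1761607680), (118111600640, 23622320128), (240518168576, 34359738368), (687194767360, 137438953472)] rfl (by decide +kernel)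
theorem c0_m9_t10 : CovD 0 progs [(222843371520, 880803840), (118111600640, 23622320128), (206158430208, 68719476736), (687194767360, 137438953472)] :=
  Pool.Agent.helper14.QF.covD_F chks_eq (.n 2 (.n 3 (.n 3 (.l 4) (.l 4)) (.n 3 (.n 3 (.l 4) (.l 4)) (.n 3 (.n 3 (.l 4) (.l 4)) (.n 3 (.l 4) (.n 3 (.l 4) (.l 4)))))) (.n 3 (.n 3 (.l 4) (.l 4)) (.n 2 (.n 3 (.n 3 (.l 4) (.l 4)) (.n 3 (.n 3 (.l 4) (.l 4)) (.n 3 (.l 4) (.n 3 (.l 4) (.l 4))))) (.n 3 (.n 3 (.l 4) (.l 4)) (.n 3 (.n 3 (.l 4) (.l 4)) (.n 3 (.l 4) (.l 6)))))))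
    [(222843371520, 880803840), (118111600640, 23622320128), (206158430208, 68719476736), (687194767360, 137438953472)] rfl (by decide +kernel)
end
mutual
theorem c0_m9_t11 : CovD 0 progs [(224164577280, 440401920), (118111600640, 23622320128), (171798691840, 34359738368), (687194767360, 137438953472)] :=
  Pool.Agent.helper14.QF.covD_F chks_eq (.n 3 (.n 3 (.l 4) (.l 4)) (.n 3 (.n 3 (.l 4) (.l 4)) (.n 3 (.n 3 (.l 4) (.l 4)) (.n 3 (.l 4) (.n 3 (.l 4) (.l 4))))))
    [(224164577280, 440401920), (118111600640, 23622320128), (171798691840, 34359738368), (687194767360, 137438953472)] rfl (by decide +kernel)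
theorem c0_m9_t12 : CovD 0 progs [(224164577280, 440401920), (118111600640, 23622320128), (240518168576, 34359738368), (687194767360, 137438953472)] :=
  Pool.Agent.helper14.QF.covD_F chks_eq (.n 2 (.n 3 (.n 3 (.l 4) (.l 4)) (.n 3 (.n 3 (.l 4) (.l 4)) (.n 3 (.n 3 (.l 4) (.l 4)) (.n 3 (.l 4) (.n 3 (.l 4) (.l 4)))))) (.n 3 (.n 3 (.l 4) (.l 4)) (.n 3 (.n 3 (.l 4) (.l 4)) (.n 3 (.n 3 (.l 4) (.l 4)) (.n 3 (.l 4) (.l 6))))))
    [(224164577280, 440401920), (118111600640, 23622320128), (240518168576, 34359738368), (687194767360, 137438953472)] rfl (by decide +kernel)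
end
mutual
theorem c0_m9_t14 : CovD 0 progs [(225045381120, 440401920), (118111600640, 23622320128), (206158430208, 68719476736), (687194767360, 137438953472)] :=
  Pool.Agent.helper14.QF.covD_F chks_eq (.n 3 (.n 3 (.l 4) (.l 4)) (.n 3 (.n 3 (.l 4) (.l 4)) (.n 3 (.n 3 (.l 4) (.l 4)) (.n 3 (.l 4) (.n 3 (.l 4) (.l 4))))))
    [(225045381120, 440401920), (118111600640, 23622320128), (206158430208, 68719476736), (687194767360, 137438953472)] rfl (by decide +kernel)
theorem c0_m9_t21 : CovD 0 progs [(197300060160, 28185722880), (165356240896, 23622320128), (206158430208, 68719476736), (584115552256, 34359738368)] :=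
  Pool.Agent.helper14.QF.covD_F chks_eq (.n 0 (.n 3 (.n 0 (.l 6) (.n 0 (.l 12) (.n 0 (.l 12) (.n 0 (.l 10) (.l 4))))) (.n 0 (.l 6) (.n 0 (.l 6) (.n 0 (.n 0 (.l 4) (.l 4)) (.l 4))))) (.n 3 (.n 0 (.n 0 (.n 0 (.l 4) (.l 4)) (.l 4)) (.n 0 (.l 4) (.l 4))) (.n 0 (.n 0 (.n 0 (.l 4) (.l 4)) (.l 4)) (.n 0 (.l 4) (.l 4)))))
    [(197300060160, 28185722880), (165356240896, 23622320128), (206158430208, 68719476736), (584115552256, 34359738368)] rfl (by decide +kernel)
end
mutual
theorem c0_m9_t22 : CovD 0 progs [(197300060160, 28185722880), (165356240896, 23622320128), (206158430208, 68719476736), (652835028992, 34359738368)] :=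
  Pool.Agent.helper14.QF.covD_F chks_eq (.n 0 (.n 0 (.l 6) (.n 0 (.l 6) (.n 0 (.l 6) (.n 3 (.l 4) (.l 4))))) (.n 3 (.n 0 (.n 0 (.l 4) (.l 4)) (.n 0 (.l 4) (.l 4))) (.n 0 (.n 0 (.l 4) (.l 4)) (.n 0 (.l 4) (.l 4)))))
    [(197300060160, 28185722880), (165356240896, 23622320128), (206158430208, 68719476736), (652835028992, 34359738368)] rfl (by decide +kernel)
theorem c0_m9_t24 : CovD 0 progs [(183207198720, 14092861440), (165356240896, 23622320128), (206158430208, 68719476736), (755914244096, 68719476736)] :=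
  Pool.Agent.helper14.QF.covD_F chks_eq (.l 6)
    [(183207198720, 14092861440), (165356240896, 23622320128), (206158430208, 68719476736), (755914244096, 68719476736)] rfl (by decide +kernel)
end
mutual
theorem c0_m9_t25 : CovD 0 progs [(204346490880, 7046430720), (165356240896, 23622320128), (206158430208, 68719476736), (755914244096, 68719476736)] :=
  Pool.Agent.helper14.QF.covD_F chks_eq (.n 0 (.n 3 (.n 3 (.l 4) (.l 4)) (.l 6)) (.n 3 (.n 3 (.l 4) (.n 0 (.l 4) (.l 4))) (.n 0 (.n 3 (.l 4) (.l 6)) (.n 3 (.l 4) (.n 3 (.l 4) (.l 4))))))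
    [(204346490880, 7046430720), (165356240896, 23622320128), (206158430208, 68719476736), (755914244096, 68719476736)] rfl (by decide +kernel)
theorem c0_m9_t26 : CovD 0 progs [(214916136960, 3523215360), (165356240896, 23622320128), (171798691840, 34359738368), (755914244096, 68719476736)] :=
  Pool.Agent.helper14.QF.covD_F chks_eq (.n 0 (.n 0 (.n 3 (.n 3 (.l 4) (.l 4)) (.n 3 (.l 4) (.n 3 (.l 4) (.l 4)))) (.n 3 (.n 3 (.l 4) (.l 4)) (.n 3 (.l 4) (.n 3 (.l 4) (.l 4))))) (.n 3 (.n 3 (.l 4) (.l 4)) (.n 3 (.n 0 (.l 4) (.l 4)) (.n 3 (.l 4) (.n 3 (.l 4) (.l 4))))))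
    [(214916136960, 3523215360), (165356240896, 23622320128), (171798691840, 34359738368), (755914244096, 68719476736)] rfl (by decide +kernel)
end
mutual
theorem c0_m9_t27 : CovD 0 progs [(221962567680, 3523215360), (165356240896, 23622320128), (171798691840, 34359738368), (755914244096, 68719476736)] :=
  Pool.Agent.helper14.QF.covD_F chks_eq (.n 3 (.n 3 (.l 4) (.n 0 (.l 4) (.l 4))) (.n 3 (.n 0 (.n 3 (.l 4) (.l 4)) (.n 3 (.l 4) (.l 4))) (.n 3 (.n 0 (.n 0 (.l 4) (.l 4)) (.n 3 (.l 4) (.l 4))) (.n 0 (.n 0 (.n 3 (.l 4) (.l 4)) (.n 3 (.l 4) (.l 4))) (.n 0 (.n 3 (.l 4) (.l 4)) (.n 0 (.n 3 (.l 4) (.l 4)) (.n 3 (.l 4) (.l 4))))))))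
    [(221962567680, 3523215360), (165356240896, 23622320128), (171798691840, 34359738368), (755914244096, 68719476736)] rfl (by decide +kernel)
theorem c0_m9_t29 : CovD 0 progs [(214916136960, 3523215360), (165356240896, 23622320128), (240518168576, 34359738368), (755914244096, 68719476736)] :=
  Pool.Agent.helper14.QF.covD_F chks_eq (.n 0 (.n 3 (.n 3 (.l 4) (.l 4)) (.n 3 (.n 0 (.l 4) (.l 4)) (.n 3 (.l 4) (.l 6)))) (.n 0 (.n 3 (.n 3 (.l 4) (.l 4)) (.n 3 (.l 4) (.n 3 (.l 4) (.l 4)))) (.n 3 (.n 3 (.l 4) (.l 4)) (.n 3 (.n 0 (.l 4) (.l 4)) (.n 3 (.l 4) (.n 0 (.l 4) (.l 4)))))))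
    [(214916136960, 3523215360), (165356240896, 23622320128), (240518168576, 34359738368), (755914244096, 68719476736)] rfl (by decide +kernel)
end
mutual
theorem c0_m9_t30 : CovD 0 progs [(220200960000, 1761607680), (165356240896, 23622320128), (240518168576, 34359738368), (755914244096, 68719476736)] :=
  Pool.Agent.helper14.QF.covD_F chks_eq (.n 3 (.n 3 (.l 4) (.l 4)) (.n 3 (.n 3 (.l 4) (.l 4)) (.n 0 (.n 3 (.l 4) (.n 3 (.l 4) (.l 4))) (.n 3 (.l 4) (.n 3 (.l 4) (.l 4))))))
    [(220200960000, 1761607680), (165356240896, 23622320128), (240518168576, 34359738368), (755914244096, 68719476736)] rfl (by decide +kernel)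
theorem c0_m9_t31 : CovD 0 progs [(223724175360, 1761607680), (165356240896, 23622320128), (240518168576, 34359738368), (755914244096, 68719476736)] :=
  Pool.Agent.helper14.QF.covD_F chks_eq (.n 0 (.n 3 (.n 3 (.l 4) (.l 4)) (.n 3 (.n 3 (.l 4) (.l 4)) (.n 3 (.n 0 (.l 4) (.l 4)) (.n 3 (.l 4) (.l 4))))) (.n 0 (.n 3 (.n 3 (.l 4) (.l 4)) (.n 3 (.n 3 (.l 4) (.l 4)) (.n 3 (.l 4) (.n 3 (.l 4) (.l 4))))) (.n 3 (.n 3 (.l 4) (.l 4)) (.n 3 (.n 3 (.l 4) (.l 4)) (.n 3 (.l 4) (.n 3 (.l 4) (.l 4)))))))
    [(223724175360, 1761607680), (165356240896, 23622320128), (240518168576, 34359738368), (755914244096, 68719476736)] rfl (by decide +kernel)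
end
theorem c0_m9_t3 : CovD 0 progs [(204346490880, 7046430720), (118111600640, 23622320128), (206158430208, 68719476736), (687194767360, 137438953472)] :=
  covD_split 0 (by decide +kernel) c0_m9_t1 c0_m9_t2
theorem c0_m9_t6 : CovD 0 progs [(214916136960, 3523215360), (118111600640, 23622320128), (206158430208, 68719476736), (687194767360, 137438953472)] :=
  covD_split 0 (by decide +kernel) c0_m9_t4 c0_m9_t5
theorem c0_m9_t9 : CovD 0 progs [(220200960000, 1761607680), (118111600640, 23622320128), (206158430208, 68719476736), (687194767360, 137438953472)] :=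
  covD_split 2 (by decide +kernel) c0_m9_t7 c0_m9_t8
theorem c0_m9_t13 : CovD 0 progs [(224164577280, 440401920), (118111600640, 23622320128), (206158430208, 68719476736), (687194767360, 137438953472)] :=
  covD_split 2 (by decide +kernel) c0_m9_t11 c0_m9_t12
theorem c0_m9_t15 : CovD 0 progs [(224604979200, 880803840), (118111600640, 23622320128), (206158430208, 68719476736), (687194767360, 137438953472)] :=
  covD_split 0 (by decide +kernel) c0_m9_t13 c0_m9_t14
theorem c0_m9_t16 : CovD 0 progs [(223724175360, 1761607680), (118111600640, 23622320128), (206158430208, 68719476736), (687194767360, 137438953472)] :=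
  covD_split 0 (by decide +kernel) c0_m9_t10 c0_m9_t15
theorem c0_m9_t17 : CovD 0 progs [(221962567680, 3523215360), (118111600640, 23622320128), (206158430208, 68719476736), (687194767360, 137438953472)] :=
  covD_split 0 (by decide +kernel) c0_m9_t9 c0_m9_t16
theorem c0_m9_t18 : CovD 0 progs [(218439352320, 7046430720), (118111600640, 23622320128), (206158430208, 68719476736), (687194767360, 137438953472)] :=
  covD_split 0 (by decide +kernel) c0_m9_t6 c0_m9_t17
theorem c0_m9_t19 : CovD 0 progs [(211392921600, 14092861440), (118111600640, 23622320128), (206158430208, 68719476736), (687194767360, 137438953472)] :=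
  covD_split 0 (by decide +kernel) c0_m9_t3 c0_m9_t18
theorem c0_m9_t20 : CovD 0 progs [(197300060160, 28185722880), (118111600640, 23622320128), (206158430208, 68719476736), (687194767360, 137438953472)] :=
  covD_split 0 (by decide +kernel) c0_m9_t0 c0_m9_t19
theorem c0_m9_t23 : CovD 0 progs [(197300060160, 28185722880), (165356240896, 23622320128), (206158430208, 68719476736), (618475290624, 68719476736)] :=
  covD_split 3 (by decide +kernel) c0_m9_t21 c0_m9_t22
theorem c0_m9_t28 : CovD 0 progs [(218439352320, 7046430720), (165356240896, 23622320128), (171798691840, 34359738368), (755914244096, 68719476736)] :=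
  covD_split 0 (by decide +kernel) c0_m9_t26 c0_m9_t27
theorem c0_m9_t32 : CovD 0 progs [(221962567680, 3523215360), (165356240896, 23622320128), (240518168576, 34359738368), (755914244096, 68719476736)] :=
  covD_split 0 (by decide +kernel) c0_m9_t30 c0_m9_t31
theorem c0_m9_t33 : CovD 0 progs [(218439352320, 7046430720), (165356240896, 23622320128), (240518168576, 34359738368), (755914244096, 68719476736)] :=
  covD_split 0 (by decide +kernel) c0_m9_t29 c0_m9_t32
theorem c0_m9_t34 : CovD 0 progs [(218439352320, 7046430720), (165356240896, 23622320128), (206158430208, 68719476736), (755914244096, 68719476736)] :=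
  covD_split 2 (by decide +kernel) c0_m9_t28 c0_m9_t33
theorem c0_m9_t35 : CovD 0 progs [(211392921600, 14092861440), (165356240896, 23622320128), (206158430208, 68719476736), (755914244096, 68719476736)] :=
  covD_split 0 (by decide +kernel) c0_m9_t25 c0_m9_t34
theorem c0_m9_t36 : CovD 0 progs [(197300060160, 28185722880), (165356240896, 23622320128), (206158430208, 68719476736), (755914244096, 68719476736)] :=
  covD_split 0 (by decide +kernel) c0_m9_t24 c0_m9_t35
theorem c0_m9_t37 : CovD 0 progs [(197300060160, 28185722880), (165356240896, 23622320128), (206158430208, 68719476736), (687194767360, 137438953472)] :=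
  covD_split 3 (by decide +kernel) c0_m9_t23 c0_m9_t36
theorem c0_m9 : CovD 0 progs [(197300060160, 28185722880), (141733920768, 47244640256), (206158430208, 68719476736), (687194767360, 137438953472)] :=
  covD_split 1 (by decide +kernel) c0_m9_t20 c0_m9_t37

end Pool.Agent.helper71.FJ.Crt.QMa
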