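import Pool.Agent.helper71.FJ.Crt.QMac0_0
import Pool.Agent.helper71.FJ.Crt.QMac0_1
import Pool.Agent.helper71.FJ.Crt.QMac0_2
import Pool.Agent.helper71.FJ.Crt.QMac0_3
import Pool.Agent.helper71.FJ.Crt.QMac0_4
import Pool.Agent.helper71.FJ.Crt.QMac0_5
import Pool.Agent.helper71.FJ.Crt.QMac0_6
import Pool.Agent.helper71.FJ.Crt.QMac0_7
import Pool.Agent.helper71.FJ.Crt.QMac0_8
import Pool.Agent.helper71.FJ.Crt.QMac0_9
import Pool.Agent.helper71.FJ.Crt.QMac0_10
import Pool.Agent.helper71.FJ.Crt.QMac0_11
import Pool.Agent.helper71.FJ.Crt.QMac0_12
import Pool.Agent.helper71.FJ.Crt.QMac0_13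
import Pool.Agent.helper71.FJ.Crt.QMac0_14
import Pool.Agent.helper71.FJ.Crt.QMac0_15
import Pool.Agent.helper71.FJ.Crt.QMac0_16
import Pool.Agent.helper71.FJ.Crt.QMac0_17
import Pool.Agent.helper71.FJ.Crt.QMac0_18
import Pool.Agent.helper71.FJ.Crt.QMac0_19
import Pool.Agent.helper71.FJ.Crt.QMac0_20
import Pool.Agent.helper71.FJ.Crt.QMac0_21
import Pool.Agent.helper71.FJ.Crt.QMac0_22
import Pool.Agent.helper71.FJ.Crt.QMac0_23
import Pool.Agent.helper71.FJ.Crt.QMac0_24
import Pool.Agent.helper71.FJ.Crt.QMac0_25
import Pool.Agent.helper71.FJ.Crt.QMac0_26
import Pool.Agent.helper71.FJ.Crt.QMac0_27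
import Pool.Agent.helper71.FJ.Crt.QMac0_28
import Pool.Agent.helper71.FJ.Crt.QMac0_29
import Pool.Agent.helper71.FJ.Crt.QMac0_30
import Pool.Agent.helper71.FJ.Crt.QMac0_31
import Pool.Agent.helper71.FJ.Crt.QMac0_32
import Pool.Agent.helper71.FJ.Crt.QMac0_33
import Pool.Agent.helper71.FJ.Crt.QMac0_34
import Pool.Agent.helper71.FJ.Crt.QMac0_35
import Pool.Agent.helper71.FJ.Crt.QMac0_36
import Pool.Agent.helper71.FJ.Crt.QMac0_37
import Pool.Agent.helper71.FJ.Crt.QMac0_38
import Pool.Agent.helper71.FJ.Crt.QMac0_39
import Pool.Agent.helper71.FJ.Crt.QMac0_40
import Pool.Agent.helper71.FJ.Crt.QMac0_41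
import Pool.Agent.helper71.FJ.Crt.QMac0_42
import Pool.Agent.helper71.FJ.Crt.QMac0_43
import Pool.Agent.helper71.FJ.Crt.QMac0_44
import Pool.Agent.helper71.FJ.Crt.QMac0_45
import Pool.Agent.helper71.FJ.Crt.QMac0_46
import Pool.Agent.helper71.FJ.Crt.QMac0_47

/-!
Generated certificates, assembled.
-/

namespace Pool.Agent.helper71.FJ.Crt.QMa

open Pool.Agent.helper31.IA (Z Op)
open Pool.Agent.helper31.IC

theorem c0_top0 : CovD 0 progs [(197300060160, 28185722880), (94489280512, 94489280512), (274877906944, 274877906944), (274877906944, 274877906944)] :=
  covD_split 2 (by decide +kernel) c0_m2 c0_m3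
theorem c0_top1 : CovD 0 progs [(169114337280, 56371445760), (94489280512, 94489280512), (274877906944, 274877906944), (274877906944, 274877906944)] :=
  covD_split 0 (by decide +kernel) c0_m1 c0_top0
theorem c0_top2 : CovD 0 progs [(112742891520, 112742891520), (94489280512, 94489280512), (274877906944, 274877906944), (274877906944, 274877906944)] :=
  covD_split 0 (by decide +kernel) c0_m0 c0_top1
theorem c0_top3 : CovD 0 progs [(112742891520, 112742891520), (94489280512, 94489280512), (549755813888, 549755813888), (274877906944, 274877906944)] :=
  covD_split 2 (by decide +kernel) c0_top2 c0_m4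
theorem c0_top4 : CovD 0 progs [(197300060160, 28185722880), (141733920768, 47244640256), (137438953472, 137438953472), (687194767360, 137438953472)] :=
  covD_split 2 (by decide +kernel) c0_m8 c0_m9
theorem c0_top5 : CovD 0 progs [(197300060160, 28185722880), (94489280512, 94489280512), (137438953472, 137438953472), (687194767360, 137438953472)] :=
  covD_split 1 (by decide +kernel) c0_m7 c0_top4
theorem c0_top6 : CovD 0 progs [(169114337280, 56371445760), (94489280512, 94489280512), (137438953472, 137438953472), (687194767360, 137438953472)] :=
  covD_split 0 (by decide +kernel) c0_m6 c0_top5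
theorem c0_top7 : CovD 0 progs [(218439352320, 7046430720), (118111600640, 23622320128), (68719476736, 68719476736), (893353197568, 68719476736)] :=
  covD_split 2 (by decide +kernel) c0_m14 c0_m15
theorem c0_top8 : CovD 0 progs [(211392921600, 14092861440), (118111600640, 23622320128), (68719476736, 68719476736), (893353197568, 68719476736)] :=
  covD_split 0 (by decide +kernel) c0_m13 c0_top7
theorem c0_top9 : CovD 0 progs [(211392921600, 14092861440), (118111600640, 23622320128), (68719476736, 68719476736), (962072674304, 137438953472)] :=
  covD_split 3 (by decide +kernel) c0_top8 c0_m16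
theorem c0_top10 : CovD 0 progs [(211392921600, 14092861440), (165356240896, 23622320128), (34359738368, 34359738368), (893353197568, 68719476736)] :=
  covD_split 1 (by decide +kernel) c0_m17 c0_m18
theorem c0_top11 : CovD 0 progs [(211392921600, 14092861440), (165356240896, 23622320128), (103079215104, 34359738368), (893353197568, 68719476736)] :=
  covD_split 1 (by decide +kernel) c0_m19 c0_m20
theorem c0_top12 : CovD 0 progs [(211392921600, 14092861440), (165356240896, 23622320128), (68719476736, 68719476736), (893353197568, 68719476736)] :=
  covD_split 2 (by decide +kernel) c0_top10 c0_top11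
theorem c0_top13 : CovD 0 progs [(211392921600, 14092861440), (165356240896, 23622320128), (68719476736, 68719476736), (962072674304, 137438953472)] :=
  covD_split 3 (by decide +kernel) c0_top12 c0_m21
theorem c0_top14 : CovD 0 progs [(211392921600, 14092861440), (141733920768, 47244640256), (68719476736, 68719476736), (962072674304, 137438953472)] :=
  covD_split 1 (by decide +kernel) c0_top9 c0_top13
theorem c0_top15 : CovD 0 progs [(197300060160, 28185722880), (141733920768, 47244640256), (68719476736, 68719476736), (962072674304, 137438953472)] :=
  covD_split 0 (by decide +kernel) c0_m12 c0_top14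
theorem c0_top16 : CovD 0 progs [(211392921600, 14092861440), (165356240896, 23622320128), (206158430208, 68719476736), (893353197568, 68719476736)] :=
  covD_split 2 (by decide +kernel) c0_m24 c0_m25
theorem c0_top17 : CovD 0 progs [(211392921600, 14092861440), (141733920768, 47244640256), (206158430208, 68719476736), (893353197568, 68719476736)] :=
  covD_split 1 (by decide +kernel) c0_m23 c0_top16
theorem c0_top18 : CovD 0 progs [(197300060160, 28185722880), (141733920768, 47244640256), (206158430208, 68719476736), (893353197568, 68719476736)] :=
  covD_split 0 (by decide +kernel) c0_m22 c0_top17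
theorem c0_top19 : CovD 0 progs [(197300060160, 28185722880), (141733920768, 47244640256), (206158430208, 68719476736), (962072674304, 137438953472)] :=
  covD_split 3 (by decide +kernel) c0_top18 c0_m26
theorem c0_top20 : CovD 0 progs [(197300060160, 28185722880), (141733920768, 47244640256), (137438953472, 137438953472), (962072674304, 137438953472)] :=
  covD_split 2 (by decide +kernel) c0_top15 c0_top19
theorem c0_top21 : CovD 0 progs [(197300060160, 28185722880), (94489280512, 94489280512), (137438953472, 137438953472), (962072674304, 137438953472)] :=
  covD_split 1 (by decide +kernel) c0_m11 c0_top20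
theorem c0_top22 : CovD 0 progs [(169114337280, 56371445760), (94489280512, 94489280512), (137438953472, 137438953472), (962072674304, 137438953472)] :=
  covD_split 0 (by decide +kernel) c0_m10 c0_top21
theorem c0_top23 : CovD 0 progs [(169114337280, 56371445760), (94489280512, 94489280512), (137438953472, 137438953472), (824633720832, 274877906944)] :=
  covD_split 3 (by decide +kernel) c0_top6 c0_top22
theorem c0_top24 : CovD 0 progs [(169114337280, 56371445760), (94489280512, 94489280512), (274877906944, 274877906944), (824633720832, 274877906944)] :=
  covD_split 2 (by decide +kernel) c0_top23 c0_m27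
theorem c0_top25 : CovD 0 progs [(112742891520, 112742891520), (94489280512, 94489280512), (274877906944, 274877906944), (824633720832, 274877906944)] :=
  covD_split 0 (by decide +kernel) c0_m5 c0_top24
theorem c0_top26 : CovD 0 progs [(112742891520, 112742891520), (94489280512, 94489280512), (549755813888, 549755813888), (824633720832, 274877906944)] :=
  covD_split 2 (by decide +kernel) c0_top25 c0_m28
theorem c0_top27 : CovD 0 progs [(112742891520, 112742891520), (94489280512, 94489280512), (549755813888, 549755813888), (549755813888, 549755813888)] :=
  covD_split 3 (by decide +kernel) c0_top3 c0_top26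
theorem c0_top28 : CovD 0 progs [(211392921600, 14092861440), (212600881152, 23622320128), (103079215104, 34359738368), (893353197568, 68719476736)] :=
  covD_split 1 (by decide +kernel) c0_m35 c0_m36
theorem c0_top29 : CovD 0 progs [(211392921600, 14092861440), (212600881152, 23622320128), (68719476736, 68719476736), (893353197568, 68719476736)] :=
  covD_split 2 (by decide +kernel) c0_m34 c0_top28
theorem c0_top30 : CovD 0 progs [(211392921600, 14092861440), (212600881152, 23622320128), (68719476736, 68719476736), (962072674304, 137438953472)] :=
  covD_split 3 (by decide +kernel) c0_top29 c0_m37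
theorem c0_top31 : CovD 0 progs [(197300060160, 28185722880), (212600881152, 23622320128), (68719476736, 68719476736), (962072674304, 137438953472)] :=
  covD_split 0 (by decide +kernel) c0_m33 c0_top30
theorem c0_top32 : CovD 0 progs [(211392921600, 14092861440), (212600881152, 23622320128), (171798691840, 34359738368), (893353197568, 68719476736)] :=
  covD_split 1 (by decide +kernel) c0_m39 c0_m40
theorem c0_top33 : CovD 0 progs [(211392921600, 14092861440), (212600881152, 23622320128), (206158430208, 68719476736), (893353197568, 68719476736)] :=
  covD_split 2 (by decide +kernel) c0_top32 c0_m41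
theorem c0_top34 : CovD 0 progs [(211392921600, 14092861440), (212600881152, 23622320128), (206158430208, 68719476736), (962072674304, 137438953472)] :=
  covD_split 3 (by decide +kernel) c0_top33 c0_m42
theorem c0_top35 : CovD 0 progs [(197300060160, 28185722880), (212600881152, 23622320128), (206158430208, 68719476736), (962072674304, 137438953472)] :=
  covD_split 0 (by decide +kernel) c0_m38 c0_top34
theorem c0_top36 : CovD 0 progs [(197300060160, 28185722880), (212600881152, 23622320128), (137438953472, 137438953472), (962072674304, 137438953472)] :=
  covD_split 2 (by decide +kernel) c0_top31 c0_top35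
theorem c0_top37 : CovD 0 progs [(169114337280, 56371445760), (212600881152, 23622320128), (137438953472, 137438953472), (962072674304, 137438953472)] :=
  covD_split 0 (by decide +kernel) c0_m32 c0_top36
theorem c0_top38 : CovD 0 progs [(169114337280, 56371445760), (212600881152, 23622320128), (137438953472, 137438953472), (824633720832, 274877906944)] :=
  covD_split 3 (by decide +kernel) c0_m31 c0_top37
theorem c0_top39 : CovD 0 progs [(169114337280, 56371445760), (212600881152, 23622320128), (274877906944, 274877906944), (824633720832, 274877906944)] :=
  covD_split 2 (by decide +kernel) c0_top38 c0_m43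
theorem c0_top40 : CovD 0 progs [(112742891520, 112742891520), (212600881152, 23622320128), (274877906944, 274877906944), (824633720832, 274877906944)] :=
  covD_split 0 (by decide +kernel) c0_m30 c0_top39
theorem c0_top41 : CovD 0 progs [(112742891520, 112742891520), (236223201280, 47244640256), (274877906944, 274877906944), (824633720832, 274877906944)] :=
  covD_split 1 (by decide +kernel) c0_top40 c0_m44
theorem c0_top42 : CovD 0 progs [(112742891520, 112742891520), (283467841536, 94489280512), (274877906944, 274877906944), (824633720832, 274877906944)] :=
  covD_split 1 (by decide +kernel) c0_top41 c0_m45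
theorem c0_top43 : CovD 0 progs [(112742891520, 112742891520), (283467841536, 94489280512), (549755813888, 549755813888), (824633720832, 274877906944)] :=
  covD_split 2 (by decide +kernel) c0_top42 c0_m46
theorem c0_top44 : CovD 0 progs [(112742891520, 112742891520), (283467841536, 94489280512), (549755813888, 549755813888), (549755813888, 549755813888)] :=
  covD_split 3 (by decide +kernel) c0_m29 c0_top43
theorem c0_top45 : CovD 0 progs [(112742891520, 112742891520), (188978561024, 188978561024), (549755813888, 549755813888), (549755813888, 549755813888)] :=
  covD_split 1 (by decide +kernel) c0_top27 c0_top44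
theorem c0_top46 : CovD 0 progs [(112742891520, 112742891520), (188978561024, 188978561024), (1099511627776, 1099511627776), (549755813888, 549755813888)] :=
  covD_split 2 (by decide +kernel) c0_top45 c0_m47

theorem c0_all : CovD 0 progs [(112742891520, 112742891520), (188978561024, 188978561024), (1099511627776, 1099511627776), (549755813888, 549755813888)] := c0_top46

end Pool.Agent.helper71.FJ.Crt.QMa
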