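import Pool.Agent.helper71.FJ.Crt.QMaP

/-!
Generated certificates.
-/

namespace Pool.Agent.helper71.FJ.Crt.QMa

open Pool.Agent.helper31.IA (Z Op)
open Pool.Agent.helper31.IC

mutual
theorem c1_m1_t0 : CovD 0 progs [(310042951680, 28185722880), (94489280512, 94489280512), (137438953472, 137438953472), (68719476736, 68719476736)] :=
  Pool.Agent.helper14.QF.covD_F chks_eq (.n 0 (.n 0 (.n 0 (.l 8) (.l 8)) (.n 0 (.l 8) (.l 8))) (.n 0 (.n 0 (.l 8) (.n 0 (.l 8) (.l 8))) (.n 0 (.n 0 (.n 0 (.l 8) (.l 8)) (.n 0 (.l 8) (.n 0 (.l 8) (.l 8)))) (.n 0 (.n 0 (.n 1 (.l 4) (.l 4)) (.n 2 (.l 4) (.l 4))) (.n 2 (.n 3 (.l 4) (.n 0 (.l 4) (.l 4))) (.n 3 (.l 4) (.n 0 (.l 4) (.l 4))))))))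
    [(310042951680, 28185722880), (94489280512, 94489280512), (137438953472, 137438953472), (68719476736, 68719476736)] rfl (by decide +kernel)
theorem c1_m1_t1 : CovD 0 progs [(310042951680, 28185722880), (94489280512, 94489280512), (412316860416, 137438953472), (34359738368, 34359738368)] :=
  Pool.Agent.helper14.QF.covD_F chks_eq (.n 0 (.n 0 (.l 8) (.n 0 (.l 4) (.l 4))) (.n 0 (.n 0 (.l 4) (.n 0 (.l 4) (.l 4))) (.n 0 (.n 0 (.l 4) (.n 0 (.l 4) (.l 4))) (.n 0 (.n 1 (.l 4) (.l 4)) (.n 2 (.l 4) (.n 0 (.l 4) (.l 4)))))))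
    [(310042951680, 28185722880), (94489280512, 94489280512), (412316860416, 137438953472), (34359738368, 34359738368)] rfl (by decide +kernel)
end
mutual
theorem c1_m1_t2 : CovD 0 progs [(310042951680, 28185722880), (94489280512, 94489280512), (412316860416, 137438953472), (103079215104, 34359738368)] :=
  Pool.Agent.helper14.QF.covD_F chks_eq (.n 0 (.n 0 (.n 0 (.l 8) (.l 8)) (.n 0 (.l 4) (.l 4))) (.n 0 (.n 0 (.l 4) (.n 0 (.l 4) (.l 4))) (.n 2 (.n 0 (.n 0 (.l 4) (.l 4)) (.n 0 (.n 0 (.l 4) (.l 4)) (.n 0 (.l 4) (.l 4)))) (.n 0 (.n 0 (.l 4) (.l 4)) (.n 0 (.n 0 (.l 4) (.l 4)) (.n 0 (.n 0 (.l 4) (.l 4)) (.n 1 (.l 4) (.l 4))))))))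
    [(310042951680, 28185722880), (94489280512, 94489280512), (412316860416, 137438953472), (103079215104, 34359738368)] rfl (by decide +kernel)
theorem c1_m1_t5 : CovD 0 progs [(295950090240, 14092861440), (94489280512, 94489280512), (137438953472, 137438953472), (171798691840, 34359738368)] :=
  Pool.Agent.helper14.QF.covD_F chks_eq (.n 0 (.n 0 (.l 8) (.l 8)) (.n 0 (.l 8) (.l 8)))
    [(295950090240, 14092861440), (94489280512, 94489280512), (137438953472, 137438953472), (171798691840, 34359738368)] rfl (by decide +kernel)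
end
mutual
theorem c1_m1_t6 : CovD 0 progs [(324135813120, 14092861440), (94489280512, 94489280512), (68719476736, 68719476736), (171798691840, 34359738368)] :=
  Pool.Agent.helper14.QF.covD_F chks_eq (.n 0 (.n 0 (.l 4) (.n 0 (.l 4) (.l 4))) (.n 0 (.n 0 (.l 4) (.n 0 (.l 4) (.l 4))) (.n 0 (.n 0 (.l 4) (.l 4)) (.n 0 (.n 0 (.l 4) (.l 4)) (.n 2 (.l 4) (.l 4))))))
    [(324135813120, 14092861440), (94489280512, 94489280512), (68719476736, 68719476736), (171798691840, 34359738368)] rfl (by decide +kernel)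
theorem c1_m1_t7 : CovD 0 progs [(324135813120, 14092861440), (94489280512, 94489280512), (206158430208, 68719476736), (171798691840, 34359738368)] :=
  Pool.Agent.helper14.QF.covD_F chks_eq (.n 0 (.n 0 (.l 4) (.n 0 (.l 4) (.l 4))) (.n 0 (.n 0 (.l 4) (.n 0 (.l 4) (.l 4))) (.n 0 (.n 0 (.l 4) (.n 0 (.l 4) (.l 4))) (.n 0 (.n 1 (.l 4) (.l 4)) (.n 2 (.l 4) (.l 4))))))
    [(324135813120, 14092861440), (94489280512, 94489280512), (206158430208, 68719476736), (171798691840, 34359738368)] rfl (by decide +kernel)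
end
mutual
theorem c1_m1_t10 : CovD 0 progs [(310042951680, 28185722880), (94489280512, 94489280512), (412316860416, 137438953472), (154618822656, 17179869184)] :=
  Pool.Agent.helper14.QF.covD_F chks_eq (.n 0 (.n 0 (.l 8) (.n 0 (.l 4) (.l 4))) (.n 0 (.n 0 (.l 4) (.n 0 (.l 4) (.l 4))) (.n 2 (.n 0 (.n 0 (.l 4) (.l 4)) (.n 0 (.n 0 (.l 4) (.l 4)) (.n 0 (.l 4) (.l 4)))) (.n 0 (.n 0 (.l 4) (.l 4)) (.n 0 (.n 0 (.l 4) (.l 4)) (.n 0 (.n 1 (.l 4) (.l 4)) (.n 1 (.l 4) (.l 4))))))))
    [(310042951680, 28185722880), (94489280512, 94489280512), (412316860416, 137438953472), (154618822656, 17179869184)] rfl (by decide +kernel)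
theorem c1_m1_t11 : CovD 0 progs [(310042951680, 28185722880), (94489280512, 94489280512), (343597383680, 68719476736), (188978561024, 17179869184)] :=
  Pool.Agent.helper14.QF.covD_F chks_eq (.n 0 (.n 0 (.l 4) (.n 0 (.l 4) (.l 4))) (.n 0 (.n 0 (.l 4) (.n 0 (.l 4) (.l 4))) (.n 0 (.n 0 (.l 4) (.l 4)) (.n 0 (.n 0 (.l 4) (.l 4)) (.n 0 (.n 0 (.l 4) (.l 4)) (.n 1 (.l 4) (.l 4)))))))
    [(310042951680, 28185722880), (94489280512, 94489280512), (343597383680, 68719476736), (188978561024, 17179869184)] rfl (by decide +kernel)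
end
mutual
theorem c1_m1_t12 : CovD 0 progs [(310042951680, 28185722880), (94489280512, 94489280512), (481036337152, 68719476736), (188978561024, 17179869184)] :=
  Pool.Agent.helper14.QF.covD_F chks_eq (.n 0 (.n 0 (.l 4) (.n 0 (.l 4) (.l 4))) (.n 0 (.n 0 (.l 4) (.n 0 (.l 4) (.l 4))) (.n 0 (.n 0 (.l 4) (.n 0 (.l 4) (.l 4))) (.n 0 (.n 1 (.l 4) (.n 0 (.l 4) (.l 4))) (.n 0 (.n 1 (.l 4) (.l 4)) (.n 1 (.l 4) (.n 0 (.l 4) (.l 4))))))))
    [(310042951680, 28185722880), (94489280512, 94489280512), (481036337152, 68719476736), (188978561024, 17179869184)] rfl (by decide +kernel)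
theorem c1_m1_t16 : CovD 0 progs [(310042951680, 28185722880), (94489280512, 94489280512), (137438953472, 137438953472), (223338299392, 17179869184)] :=
  Pool.Agent.helper14.QF.covD_F chks_eq (.n 0 (.n 0 (.l 8) (.n 0 (.l 8) (.l 8))) (.n 0 (.n 0 (.l 8) (.n 0 (.l 4) (.l 4))) (.n 0 (.n 0 (.n 1 (.l 4) (.l 4)) (.n 0 (.n 1 (.l 4) (.l 4)) (.n 1 (.l 4) (.l 4)))) (.n 0 (.n 0 (.n 2 (.l 4) (.l 4)) (.n 2 (.l 4) (.l 4))) (.n 0 (.n 0 (.n 2 (.l 4) (.l 4)) (.n 2 (.l 4) (.l 4))) (.n 1 (.n 2 (.l 4) (.l 4)) (.n 2 (.l 4) (.l 4))))))))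
    [(310042951680, 28185722880), (94489280512, 94489280512), (137438953472, 137438953472), (223338299392, 17179869184)] rfl (by decide +kernel)
end
mutual
theorem c1_m1_t17 : CovD 0 progs [(295950090240, 14092861440), (94489280512, 94489280512), (412316860416, 137438953472), (223338299392, 17179869184)] :=
  Pool.Agent.helper14.QF.covD_F chks_eq (.n 0 (.n 0 (.l 8) (.l 4)) (.n 0 (.l 4) (.l 4)))
    [(295950090240, 14092861440), (94489280512, 94489280512), (412316860416, 137438953472), (223338299392, 17179869184)] rfl (by decide +kernel)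
theorem c1_m1_t18 : CovD 0 progs [(317089382400, 7046430720), (94489280512, 94489280512), (412316860416, 137438953472), (223338299392, 17179869184)] :=
  Pool.Agent.helper14.QF.covD_F chks_eq (.n 0 (.n 0 (.l 4) (.l 4)) (.n 0 (.l 4) (.n 1 (.l 4) (.l 4))))
    [(317089382400, 7046430720), (94489280512, 94489280512), (412316860416, 137438953472), (223338299392, 17179869184)] rfl (by decide +kernel)
end
mutual
theorem c1_m1_t19 : CovD 0 progs [(331182243840, 7046430720), (94489280512, 94489280512), (343597383680, 68719476736), (223338299392, 17179869184)] :=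
  Pool.Agent.helper14.QF.covD_F chks_eq (.n 0 (.n 0 (.l 4) (.n 0 (.l 4) (.l 4))) (.n 0 (.n 0 (.l 4) (.n 1 (.l 4) (.l 4))) (.n 0 (.n 1 (.l 4) (.l 4)) (.n 1 (.l 4) (.l 4)))))
    [(331182243840, 7046430720), (94489280512, 94489280512), (343597383680, 68719476736), (223338299392, 17179869184)] rfl (by decide +kernel)
theorem c1_m1_t20 : CovD 0 progs [(331182243840, 7046430720), (94489280512, 94489280512), (481036337152, 68719476736), (223338299392, 17179869184)] :=
  Pool.Agent.helper14.QF.covD_F chks_eq (.n 0 (.n 0 (.n 0 (.l 4) (.l 4)) (.n 0 (.l 4) (.n 0 (.l 4) (.l 4)))) (.n 0 (.n 0 (.n 1 (.l 4) (.l 4)) (.n 1 (.l 4) (.n 0 (.l 4) (.l 4)))) (.n 0 (.n 1 (.l 4) (.n 0 (.l 4) (.l 4))) (.n 1 (.l 4) (.n 1 (.l 4) (.l 4))))))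
    [(331182243840, 7046430720), (94489280512, 94489280512), (481036337152, 68719476736), (223338299392, 17179869184)] rfl (by decide +kernel)
end
mutual
theorem c1_m1_t25 : CovD 0 progs [(310042951680, 28185722880), (94489280512, 94489280512), (68719476736, 68719476736), (257698037760, 17179869184)] :=
  Pool.Agent.helper14.QF.covD_F chks_eq (.n 0 (.n 0 (.l 8) (.n 0 (.l 4) (.l 4))) (.n 0 (.n 0 (.l 4) (.n 0 (.l 4) (.l 4))) (.n 0 (.n 0 (.n 0 (.l 4) (.l 4)) (.n 0 (.l 4) (.l 4))) (.n 0 (.n 0 (.n 0 (.l 4) (.l 4)) (.n 0 (.l 4) (.l 4))) (.n 0 (.n 0 (.l 4) (.l 4)) (.n 0 (.l 4) (.l 4)))))))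
    [(310042951680, 28185722880), (94489280512, 94489280512), (68719476736, 68719476736), (257698037760, 17179869184)] rfl (by decide +kernel)
theorem c1_m1_t26 : CovD 0 progs [(310042951680, 28185722880), (94489280512, 94489280512), (206158430208, 68719476736), (257698037760, 17179869184)] :=
  Pool.Agent.helper14.QF.covD_F chks_eq (.n 0 (.n 0 (.n 0 (.l 4) (.l 4)) (.n 0 (.l 4) (.l 4))) (.n 0 (.n 0 (.l 4) (.n 0 (.l 4) (.l 4))) (.n 0 (.n 0 (.n 0 (.l 4) (.l 4)) (.n 0 (.l 4) (.l 4))) (.n 0 (.n 0 (.n 0 (.l 4) (.l 4)) (.n 1 (.l 4) (.l 4))) (.n 0 (.n 1 (.l 4) (.l 4)) (.n 1 (.l 4) (.l 4)))))))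
    [(310042951680, 28185722880), (94489280512, 94489280512), (206158430208, 68719476736), (257698037760, 17179869184)] rfl (by decide +kernel)
end
mutual
theorem c1_m1_t28 : CovD 0 progs [(295950090240, 14092861440), (94489280512, 94489280512), (412316860416, 137438953472), (257698037760, 17179869184)] :=
  Pool.Agent.helper14.QF.covD_F chks_eq (.n 0 (.n 0 (.l 4) (.l 4)) (.n 0 (.l 4) (.l 4)))
    [(295950090240, 14092861440), (94489280512, 94489280512), (412316860416, 137438953472), (257698037760, 17179869184)] rfl (by decide +kernel)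
theorem c1_m1_t29 : CovD 0 progs [(317089382400, 7046430720), (94489280512, 94489280512), (412316860416, 137438953472), (257698037760, 17179869184)] :=
  Pool.Agent.helper14.QF.covD_F chks_eq (.n 0 (.n 0 (.l 4) (.l 4)) (.n 0 (.n 0 (.l 4) (.l 4)) (.n 1 (.l 4) (.n 0 (.l 4) (.l 4)))))
    [(317089382400, 7046430720), (94489280512, 94489280512), (412316860416, 137438953472), (257698037760, 17179869184)] rfl (by decide +kernel)
end
mutual
theorem c1_m1_t30 : CovD 0 progs [(331182243840, 7046430720), (94489280512, 94489280512), (343597383680, 68719476736), (257698037760, 17179869184)] :=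
  Pool.Agent.helper14.QF.covD_F chks_eq (.n 0 (.n 0 (.n 0 (.l 4) (.l 4)) (.n 0 (.l 4) (.n 0 (.l 4) (.l 4)))) (.n 0 (.n 0 (.n 1 (.l 4) (.l 4)) (.n 1 (.l 4) (.n 0 (.l 4) (.l 4)))) (.n 0 (.n 1 (.l 4) (.n 0 (.l 4) (.l 4))) (.n 1 (.l 4) (.n 0 (.l 4) (.l 4))))))
    [(331182243840, 7046430720), (94489280512, 94489280512), (343597383680, 68719476736), (257698037760, 17179869184)] rfl (by decide +kernel)
theorem c1_m1_t31 : CovD 0 progs [(331182243840, 7046430720), (94489280512, 94489280512), (481036337152, 68719476736), (257698037760, 17179869184)] :=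
  Pool.Agent.helper14.QF.covD_F chks_eq (.n 0 (.n 0 (.n 0 (.l 4) (.n 0 (.l 4) (.l 4))) (.n 0 (.n 1 (.l 4) (.l 4)) (.n 1 (.l 4) (.n 0 (.l 4) (.l 4))))) (.n 0 (.n 0 (.n 1 (.l 4) (.n 0 (.l 4) (.l 4))) (.n 1 (.n 0 (.l 4) (.l 4)) (.n 1 (.l 4) (.l 4)))) (.n 0 (.n 1 (.n 0 (.l 4) (.l 4)) (.n 1 (.l 4) (.l 4))) (.n 1 (.n 0 (.l 4) (.l 4)) (.n 1 (.l 4) (.l 4))))))
    [(331182243840, 7046430720), (94489280512, 94489280512), (481036337152, 68719476736), (257698037760, 17179869184)] rfl (by decide +kernel)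
end
theorem c1_m1_t3 : CovD 0 progs [(310042951680, 28185722880), (94489280512, 94489280512), (412316860416, 137438953472), (68719476736, 68719476736)] :=
  covD_split 3 (by decide +kernel) c1_m1_t1 c1_m1_t2
theorem c1_m1_t4 : CovD 0 progs [(310042951680, 28185722880), (94489280512, 94489280512), (274877906944, 274877906944), (68719476736, 68719476736)] :=
  covD_split 2 (by decide +kernel) c1_m1_t0 c1_m1_t3
theorem c1_m1_t8 : CovD 0 progs [(324135813120, 14092861440), (94489280512, 94489280512), (137438953472, 137438953472), (171798691840, 34359738368)] :=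
  covD_split 2 (by decide +kernel) c1_m1_t6 c1_m1_t7
theorem c1_m1_t9 : CovD 0 progs [(310042951680, 28185722880), (94489280512, 94489280512), (137438953472, 137438953472), (171798691840, 34359738368)] :=
  covD_split 0 (by decide +kernel) c1_m1_t5 c1_m1_t8
theorem c1_m1_t13 : CovD 0 progs [(310042951680, 28185722880), (94489280512, 94489280512), (412316860416, 137438953472), (188978561024, 17179869184)] :=
  covD_split 2 (by decide +kernel) c1_m1_t11 c1_m1_t12
theorem c1_m1_t14 : CovD 0 progs [(310042951680, 28185722880), (94489280512, 94489280512), (412316860416, 137438953472), (171798691840, 34359738368)] :=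
  covD_split 3 (by decide +kernel) c1_m1_t10 c1_m1_t13
theorem c1_m1_t15 : CovD 0 progs [(310042951680, 28185722880), (94489280512, 94489280512), (274877906944, 274877906944), (171798691840, 34359738368)] :=
  covD_split 2 (by decide +kernel) c1_m1_t9 c1_m1_t14
theorem c1_m1_t21 : CovD 0 progs [(331182243840, 7046430720), (94489280512, 94489280512), (412316860416, 137438953472), (223338299392, 17179869184)] :=
  covD_split 2 (by decide +kernel) c1_m1_t19 c1_m1_t20
theorem c1_m1_t22 : CovD 0 progs [(324135813120, 14092861440), (94489280512, 94489280512), (412316860416, 137438953472), (223338299392, 17179869184)] :=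
  covD_split 0 (by decide +kernel) c1_m1_t18 c1_m1_t21
theorem c1_m1_t23 : CovD 0 progs [(310042951680, 28185722880), (94489280512, 94489280512), (412316860416, 137438953472), (223338299392, 17179869184)] :=
  covD_split 0 (by decide +kernel) c1_m1_t17 c1_m1_t22
theorem c1_m1_t24 : CovD 0 progs [(310042951680, 28185722880), (94489280512, 94489280512), (274877906944, 274877906944), (223338299392, 17179869184)] :=
  covD_split 2 (by decide +kernel) c1_m1_t16 c1_m1_t23
theorem c1_m1_t27 : CovD 0 progs [(310042951680, 28185722880), (94489280512, 94489280512), (137438953472, 137438953472), (257698037760, 17179869184)] :=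
  covD_split 2 (by decide +kernel) c1_m1_t25 c1_m1_t26
theorem c1_m1_t32 : CovD 0 progs [(331182243840, 7046430720), (94489280512, 94489280512), (412316860416, 137438953472), (257698037760, 17179869184)] :=
  covD_split 2 (by decide +kernel) c1_m1_t30 c1_m1_t31
theorem c1_m1_t33 : CovD 0 progs [(324135813120, 14092861440), (94489280512, 94489280512), (412316860416, 137438953472), (257698037760, 17179869184)] :=
  covD_split 0 (by decide +kernel) c1_m1_t29 c1_m1_t32
theorem c1_m1_t34 : CovD 0 progs [(310042951680, 28185722880), (94489280512, 94489280512), (412316860416, 137438953472), (257698037760, 17179869184)] :=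
  covD_split 0 (by decide +kernel) c1_m1_t28 c1_m1_t33
theorem c1_m1_t35 : CovD 0 progs [(310042951680, 28185722880), (94489280512, 94489280512), (274877906944, 274877906944), (257698037760, 17179869184)] :=
  covD_split 2 (by decide +kernel) c1_m1_t27 c1_m1_t34
theorem c1_m1_t36 : CovD 0 progs [(310042951680, 28185722880), (94489280512, 94489280512), (274877906944, 274877906944), (240518168576, 34359738368)] :=
  covD_split 3 (by decide +kernel) c1_m1_t24 c1_m1_t35
theorem c1_m1_t37 : CovD 0 progs [(310042951680, 28185722880), (94489280512, 94489280512), (274877906944, 274877906944), (206158430208, 68719476736)] :=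
  covD_split 3 (by decide +kernel) c1_m1_t15 c1_m1_t36
theorem c1_m1 : CovD 0 progs [(310042951680, 28185722880), (94489280512, 94489280512), (274877906944, 274877906944), (137438953472, 137438953472)] :=
  covD_split 3 (by decide +kernel) c1_m1_t4 c1_m1_t37

end Pool.Agent.helper71.FJ.Crt.QMa
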