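import Pool.Agent.helper71.FJ.Crt.QMaP

/-!
Generated certificates.
-/

namespace Pool.Agent.helper71.FJ.Crt.QMa

open Pool.Agent.helper31.IA (Z Op)
open Pool.Agent.helper31.IC

mutual
theorem c1_m10_t0 : CovD 0 progs [(352321536000, 14092861440), (94489280512, 94489280512), (68719476736, 68719476736), (292057776128, 17179869184)] :=
  Pool.Agent.helper14.QF.covD_F chks_eq (.n 0 (.n 2 (.n 0 (.n 0 (.l 4) (.n 0 (.l 4) (.l 4))) (.n 0 (.l 4) (.l 8))) (.n 0 (.n 0 (.l 4) (.n 0 (.l 4) (.l 4))) (.n 0 (.l 8) (.l 8)))) (.n 0 (.n 0 (.l 8) (.l 8)) (.l 8)))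
    [(352321536000, 14092861440), (94489280512, 94489280512), (68719476736, 68719476736), (292057776128, 17179869184)] rfl (by decide +kernel)
theorem c1_m10_t1 : CovD 0 progs [(352321536000, 14092861440), (94489280512, 94489280512), (206158430208, 68719476736), (292057776128, 17179869184)] :=
  Pool.Agent.helper14.QF.covD_F chks_eq (.n 0 (.n 0 (.n 0 (.n 2 (.l 4) (.n 0 (.l 4) (.l 4))) (.n 0 (.n 1 (.l 4) (.l 4)) (.n 0 (.l 4) (.l 4)))) (.n 0 (.n 0 (.l 4) (.l 8)) (.l 8))) (.n 0 (.n 0 (.l 8) (.l 8)) (.l 8)))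
    [(352321536000, 14092861440), (94489280512, 94489280512), (206158430208, 68719476736), (292057776128, 17179869184)] rfl (by decide +kernel)
end
mutual
theorem c1_m10_t3 : CovD 0 progs [(380507258880, 14092861440), (94489280512, 94489280512), (137438953472, 137438953472), (292057776128, 17179869184)] :=
  Pool.Agent.helper14.QF.covD_F chks_eq (.n 0 (.n 0 (.l 8) (.l 8)) (.l 8))
    [(380507258880, 14092861440), (94489280512, 94489280512), (137438953472, 137438953472), (292057776128, 17179869184)] rfl (by decide +kernel)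
theorem c1_m10_t5 : CovD 0 progs [(352321536000, 14092861440), (94489280512, 94489280512), (137438953472, 137438953472), (326417514496, 17179869184)] :=
  Pool.Agent.helper14.QF.covD_F chks_eq (.n 0 (.n 3 (.n 0 (.n 0 (.n 0 (.n 2 (.l 4) (.l 4)) (.n 2 (.l 4) (.l 4))) (.n 2 (.l 4) (.n 0 (.l 4) (.l 4)))) (.n 0 (.n 2 (.l 8) (.l 8)) (.n 0 (.l 8) (.l 8)))) (.n 0 (.n 0 (.n 0 (.n 2 (.l 4) (.l 4)) (.n 2 (.l 4) (.l 4))) (.n 2 (.l 8) (.l 8))) (.n 0 (.n 1 (.l 4) (.l 8)) (.l 8)))) (.n 0 (.n 0 (.l 8) (.l 8)) (.l 8)))
    [(352321536000, 14092861440), (94489280512, 94489280512), (137438953472, 137438953472), (326417514496, 17179869184)] rfl (by decide +kernel)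
end
mutual
theorem c1_m10_t6 : CovD 0 progs [(380507258880, 14092861440), (94489280512, 94489280512), (137438953472, 137438953472), (326417514496, 17179869184)] :=
  Pool.Agent.helper14.QF.covD_F chks_eq (.n 0 (.l 8) (.l 8))
    [(380507258880, 14092861440), (94489280512, 94489280512), (137438953472, 137438953472), (326417514496, 17179869184)] rfl (by decide +kernel)
theorem c1_m10_t9 : CovD 0 progs [(341751889920, 3523215360), (94489280512, 94489280512), (343597383680, 68719476736), (309237645312, 34359738368)] :=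
  Pool.Agent.helper14.QF.covD_F chks_eq (.n 0 (.n 0 (.n 1 (.n 3 (.l 4) (.l 4)) (.n 3 (.l 4) (.n 0 (.l 4) (.l 4)))) (.n 1 (.n 3 (.l 4) (.l 4)) (.n 3 (.l 4) (.n 0 (.l 4) (.l 4))))) (.n 0 (.n 1 (.n 3 (.l 4) (.l 4)) (.n 3 (.l 4) (.l 4))) (.n 1 (.n 3 (.l 4) (.l 4)) (.n 3 (.l 4) (.l 4)))))
    [(341751889920, 3523215360), (94489280512, 94489280512), (343597383680, 68719476736), (309237645312, 34359738368)] rfl (by decide +kernel)
end
mutual
theorem c1_m10_t10 : CovD 0 progs [(348798320640, 3523215360), (94489280512, 94489280512), (343597383680, 68719476736), (309237645312, 34359738368)] :=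
  Pool.Agent.helper14.QF.covD_F chks_eq (.n 0 (.n 0 (.n 3 (.n 1 (.l 4) (.l 4)) (.l 4)) (.n 3 (.l 4) (.l 4))) (.n 3 (.n 0 (.l 4) (.l 4)) (.l 8)))
    [(348798320640, 3523215360), (94489280512, 94489280512), (343597383680, 68719476736), (309237645312, 34359738368)] rfl (by decide +kernel)
theorem c1_m10_t12 : CovD 0 progs [(359367966720, 7046430720), (94489280512, 94489280512), (343597383680, 68719476736), (309237645312, 34359738368)] :=
  Pool.Agent.helper14.QF.covD_F chks_eq (.n 0 (.n 0 (.n 3 (.l 8) (.l 8)) (.n 0 (.l 8) (.l 8))) (.n 0 (.l 8) (.l 8)))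
    [(359367966720, 7046430720), (94489280512, 94489280512), (343597383680, 68719476736), (309237645312, 34359738368)] rfl (by decide +kernel)
end
mutual
theorem c1_m10_t14 : CovD 0 progs [(352321536000, 14092861440), (94489280512, 94489280512), (481036337152, 68719476736), (292057776128, 17179869184)] :=
  Pool.Agent.helper14.QF.covD_F chks_eq (.n 0 (.n 0 (.n 0 (.n 0 (.n 1 (.l 4) (.n 1 (.l 4) (.l 4))) (.n 1 (.l 4) (.n 1 (.l 4) (.l 4)))) (.n 0 (.n 1 (.l 4) (.n 1 (.l 4) (.l 4))) (.n 1 (.l 4) (.n 1 (.l 4) (.l 4))))) (.n 0 (.n 0 (.n 1 (.l 4) (.n 0 (.l 4) (.l 4))) (.n 1 (.l 4) (.l 4))) (.n 1 (.l 4) (.l 4)))) (.n 0 (.n 0 (.n 0 (.l 4) (.l 4)) (.l 4)) (.l 8)))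
    [(352321536000, 14092861440), (94489280512, 94489280512), (481036337152, 68719476736), (292057776128, 17179869184)] rfl (by decide +kernel)
theorem c1_m10_t15 : CovD 0 progs [(352321536000, 14092861440), (94489280512, 94489280512), (481036337152, 68719476736), (326417514496, 17179869184)] :=
  Pool.Agent.helper14.QF.covD_F chks_eq (.n 0 (.n 0 (.n 0 (.n 0 (.n 1 (.n 0 (.l 4) (.l 4)) (.n 2 (.l 4) (.l 4))) (.n 1 (.n 0 (.l 4) (.l 4)) (.n 1 (.l 4) (.l 4)))) (.n 0 (.n 1 (.l 4) (.n 0 (.l 4) (.l 4))) (.n 1 (.l 4) (.l 4)))) (.n 0 (.n 1 (.l 4) (.n 0 (.l 4) (.l 4))) (.n 0 (.l 4) (.l 4)))) (.n 0 (.n 0 (.l 4) (.l 8)) (.l 8)))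
    [(352321536000, 14092861440), (94489280512, 94489280512), (481036337152, 68719476736), (326417514496, 17179869184)] rfl (by decide +kernel)
end
mutual
theorem c1_m10_t18 : CovD 0 progs [(380507258880, 14092861440), (94489280512, 94489280512), (412316860416, 137438953472), (309237645312, 34359738368)] :=
  Pool.Agent.helper14.QF.covD_F chks_eq (.n 0 (.n 0 (.n 0 (.l 8) (.l 8)) (.l 8)) (.l 8))
    [(380507258880, 14092861440), (94489280512, 94489280512), (412316860416, 137438953472), (309237645312, 34359738368)] rfl (by decide +kernel)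
theorem c1_m10_t21 : CovD 0 progs [(345275105280, 7046430720), (47244640256, 47244640256), (274877906944, 274877906944), (352187318272, 8589934592)] :=
  Pool.Agent.helper14.QF.covD_F chks_eq (.n 0 (.n 0 (.n 2 (.n 1 (.l 4) (.l 4)) (.n 2 (.l 4) (.l 4))) (.n 2 (.l 4) (.n 0 (.l 4) (.l 4)))) (.n 0 (.n 2 (.l 4) (.l 4)) (.n 1 (.l 8) (.l 8))))
    [(345275105280, 7046430720), (47244640256, 47244640256), (274877906944, 274877906944), (352187318272, 8589934592)] rfl (by decide +kernel)
end
mutual
theorem c1_m10_t22 : CovD 0 progs [(345275105280, 7046430720), (141733920768, 47244640256), (274877906944, 274877906944), (352187318272, 8589934592)] :=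
  Pool.Agent.helper14.QF.covD_F chks_eq (.n 2 (.n 0 (.n 0 (.n 2 (.l 4) (.l 4)) (.n 0 (.l 8) (.l 8))) (.n 0 (.l 8) (.l 8))) (.n 2 (.n 0 (.n 0 (.l 4) (.l 4)) (.l 8)) (.n 0 (.n 0 (.n 0 (.l 4) (.l 4)) (.l 4)) (.n 0 (.l 4) (.l 4)))))
    [(345275105280, 7046430720), (141733920768, 47244640256), (274877906944, 274877906944), (352187318272, 8589934592)] rfl (by decide +kernel)
theorem c1_m10_t24 : CovD 0 progs [(345275105280, 7046430720), (94489280512, 94489280512), (274877906944, 274877906944), (369367187456, 8589934592)] :=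
  Pool.Agent.helper14.QF.covD_F chks_eq (.n 2 (.n 0 (.n 0 (.n 2 (.l 4) (.l 4)) (.n 1 (.l 4) (.l 8))) (.n 0 (.l 8) (.l 8))) (.n 2 (.n 0 (.n 0 (.n 0 (.l 4) (.l 4)) (.l 4)) (.l 8)) (.n 0 (.n 0 (.n 1 (.l 4) (.n 0 (.l 4) (.l 4))) (.n 0 (.l 4) (.l 4))) (.n 0 (.l 4) (.l 4)))))
    [(345275105280, 7046430720), (94489280512, 94489280512), (274877906944, 274877906944), (369367187456, 8589934592)] rfl (by decide +kernel)
end
mutual
theorem c1_m10_t26 : CovD 0 progs [(359367966720, 7046430720), (94489280512, 94489280512), (274877906944, 274877906944), (360777252864, 17179869184)] :=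
  Pool.Agent.helper14.QF.covD_F chks_eq (.n 0 (.n 2 (.n 0 (.l 8) (.l 8)) (.n 2 (.l 8) (.l 8))) (.n 2 (.l 8) (.l 8)))
    [(359367966720, 7046430720), (94489280512, 94489280512), (274877906944, 274877906944), (360777252864, 17179869184)] rfl (by decide +kernel)
theorem c1_m10_t28 : CovD 0 progs [(345275105280, 7046430720), (94489280512, 94489280512), (274877906944, 274877906944), (386547056640, 8589934592)] :=
  Pool.Agent.helper14.QF.covD_F chks_eq (.n 2 (.n 0 (.n 0 (.n 2 (.l 4) (.l 4)) (.n 0 (.l 8) (.l 8))) (.n 0 (.l 8) (.l 8))) (.n 2 (.n 0 (.n 0 (.l 4) (.l 4)) (.l 8)) (.n 0 (.n 0 (.n 1 (.l 4) (.l 4)) (.l 4)) (.l 4))))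
    [(345275105280, 7046430720), (94489280512, 94489280512), (274877906944, 274877906944), (386547056640, 8589934592)] rfl (by decide +kernel)
end
mutual
theorem c1_m10_t29 : CovD 0 progs [(345275105280, 7046430720), (94489280512, 94489280512), (274877906944, 274877906944), (403726925824, 8589934592)] :=
  Pool.Agent.helper14.QF.covD_F chks_eq (.n 2 (.n 0 (.n 0 (.n 1 (.l 4) (.l 8)) (.l 8)) (.n 0 (.l 8) (.l 8))) (.n 0 (.n 0 (.n 1 (.l 4) (.n 0 (.l 4) (.l 8))) (.n 1 (.l 4) (.l 8))) (.n 0 (.l 8) (.l 8))))
    [(345275105280, 7046430720), (94489280512, 94489280512), (274877906944, 274877906944), (403726925824, 8589934592)] rfl (by decide +kernel)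
theorem c1_m10_t31 : CovD 0 progs [(359367966720, 7046430720), (94489280512, 94489280512), (274877906944, 274877906944), (395136991232, 17179869184)] :=
  Pool.Agent.helper14.QF.covD_F chks_eq (.n 0 (.n 2 (.l 8) (.n 0 (.l 8) (.l 8))) (.n 1 (.l 8) (.l 8)))
    [(359367966720, 7046430720), (94489280512, 94489280512), (274877906944, 274877906944), (395136991232, 17179869184)] rfl (by decide +kernel)
end
mutual
theorem c1_m10_t34 : CovD 0 progs [(380507258880, 14092861440), (94489280512, 94489280512), (274877906944, 274877906944), (377957122048, 34359738368)] :=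
  Pool.Agent.helper14.QF.covD_F chks_eq (.n 0 (.n 0 (.n 2 (.l 8) (.l 8)) (.n 0 (.l 9) (.l 9))) (.n 2 (.l 8) (.l 8)))
    [(380507258880, 14092861440), (94489280512, 94489280512), (274877906944, 274877906944), (377957122048, 34359738368)] rfl (by decide +kernel)
theorem c1_m10_t37 : CovD 0 progs [(352321536000, 14092861440), (94489280512, 94489280512), (274877906944, 274877906944), (429496729600, 17179869184)] :=
  Pool.Agent.helper14.QF.covD_F chks_eq (.n 0 (.n 2 (.n 0 (.n 0 (.n 2 (.l 8) (.l 8)) (.n 0 (.l 8) (.l 8))) (.n 0 (.l 8) (.l 8))) (.n 0 (.n 0 (.n 0 (.n 2 (.l 4) (.l 4)) (.n 1 (.l 4) (.l 8))) (.n 1 (.l 4) (.l 8))) (.n 0 (.n 0 (.l 8) (.l 8)) (.l 8)))) (.n 0 (.n 2 (.l 8) (.l 8)) (.n 0 (.l 8) (.l 8))))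
    [(352321536000, 14092861440), (94489280512, 94489280512), (274877906944, 274877906944), (429496729600, 17179869184)] rfl (by decide +kernel)
end
mutual
theorem c1_m10_t38 : CovD 0 progs [(352321536000, 14092861440), (94489280512, 94489280512), (274877906944, 274877906944), (463856467968, 17179869184)] :=
  Pool.Agent.helper14.QF.covD_F chks_eq (.n 0 (.n 2 (.n 0 (.n 0 (.l 8) (.l 8)) (.l 8)) (.n 0 (.n 0 (.n 1 (.l 4) (.l 8)) (.l 8)) (.n 0 (.l 8) (.l 8)))) (.n 0 (.n 1 (.l 8) (.l 8)) (.l 8)))
    [(352321536000, 14092861440), (94489280512, 94489280512), (274877906944, 274877906944), (463856467968, 17179869184)] rfl (by decide +kernel)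
theorem c1_m10_t40 : CovD 0 progs [(380507258880, 14092861440), (94489280512, 94489280512), (274877906944, 274877906944), (446676598784, 34359738368)] :=
  Pool.Agent.helper14.QF.covD_F chks_eq (.n 0 (.n 2 (.l 8) (.n 0 (.l 8) (.l 8))) (.n 2 (.l 8) (.l 8)))
    [(380507258880, 14092861440), (94489280512, 94489280512), (274877906944, 274877906944), (446676598784, 34359738368)] rfl (by decide +kernel)
theorem c1_m10_t42 : CovD 0 progs [(366414397440, 28185722880), (94489280512, 94489280512), (274877906944, 274877906944), (515396075520, 34359738368)] :=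
  Pool.Agent.helper14.QF.covD_F chks_eq (.n 3 (.n 0 (.n 0 (.n 0 (.n 0 (.n 2 (.l 8) (.l 8)) (.n 1 (.l 8) (.l 8))) (.n 2 (.l 8) (.l 8))) (.n 2 (.l 8) (.l 8))) (.n 2 (.l 8) (.n 0 (.l 8) (.l 8)))) (.n 0 (.n 0 (.n 0 (.n 2 (.l 8) (.l 8)) (.n 0 (.l 8) (.l 8))) (.n 0 (.l 8) (.l 9))) (.n 2 (.l 8) (.l 9))))
    [(366414397440, 28185722880), (94489280512, 94489280512), (274877906944, 274877906944), (515396075520, 34359738368)] rfl (by decide +kernel)
end
theorem c1_m10_t2 : CovD 0 progs [(352321536000, 14092861440), (94489280512, 94489280512), (137438953472, 137438953472), (292057776128, 17179869184)] :=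
  covD_split 2 (by decide +kernel) c1_m10_t0 c1_m10_t1
theorem c1_m10_t4 : CovD 0 progs [(366414397440, 28185722880), (94489280512, 94489280512), (137438953472, 137438953472), (292057776128, 17179869184)] :=
  covD_split 0 (by decide +kernel) c1_m10_t2 c1_m10_t3
theorem c1_m10_t7 : CovD 0 progs [(366414397440, 28185722880), (94489280512, 94489280512), (137438953472, 137438953472), (326417514496, 17179869184)] :=
  covD_split 0 (by decide +kernel) c1_m10_t5 c1_m10_t6
theorem c1_m10_t8 : CovD 0 progs [(366414397440, 28185722880), (94489280512, 94489280512), (137438953472, 137438953472), (309237645312, 34359738368)] :=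
  covD_split 3 (by decide +kernel) c1_m10_t4 c1_m10_t7
theorem c1_m10_t11 : CovD 0 progs [(345275105280, 7046430720), (94489280512, 94489280512), (343597383680, 68719476736), (309237645312, 34359738368)] :=
  covD_split 0 (by decide +kernel) c1_m10_t9 c1_m10_t10
theorem c1_m10_t13 : CovD 0 progs [(352321536000, 14092861440), (94489280512, 94489280512), (343597383680, 68719476736), (309237645312, 34359738368)] :=
  covD_split 0 (by decide +kernel) c1_m10_t11 c1_m10_t12
theorem c1_m10_t16 : CovD 0 progs [(352321536000, 14092861440), (94489280512, 94489280512), (481036337152, 68719476736), (309237645312, 34359738368)] :=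
  covD_split 3 (by decide +kernel) c1_m10_t14 c1_m10_t15
theorem c1_m10_t17 : CovD 0 progs [(352321536000, 14092861440), (94489280512, 94489280512), (412316860416, 137438953472), (309237645312, 34359738368)] :=
  covD_split 2 (by decide +kernel) c1_m10_t13 c1_m10_t16
theorem c1_m10_t19 : CovD 0 progs [(366414397440, 28185722880), (94489280512, 94489280512), (412316860416, 137438953472), (309237645312, 34359738368)] :=
  covD_split 0 (by decide +kernel) c1_m10_t17 c1_m10_t18
theorem c1_m10_t20 : CovD 0 progs [(366414397440, 28185722880), (94489280512, 94489280512), (274877906944, 274877906944), (309237645312, 34359738368)] :=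
  covD_split 2 (by decide +kernel) c1_m10_t8 c1_m10_t19
theorem c1_m10_t23 : CovD 0 progs [(345275105280, 7046430720), (94489280512, 94489280512), (274877906944, 274877906944), (352187318272, 8589934592)] :=
  covD_split 1 (by decide +kernel) c1_m10_t21 c1_m10_t22
theorem c1_m10_t25 : CovD 0 progs [(345275105280, 7046430720), (94489280512, 94489280512), (274877906944, 274877906944), (360777252864, 17179869184)] :=
  covD_split 3 (by decide +kernel) c1_m10_t23 c1_m10_t24
theorem c1_m10_t27 : CovD 0 progs [(352321536000, 14092861440), (94489280512, 94489280512), (274877906944, 274877906944), (360777252864, 17179869184)] :=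
  covD_split 0 (by decide +kernel) c1_m10_t25 c1_m10_t26
theorem c1_m10_t30 : CovD 0 progs [(345275105280, 7046430720), (94489280512, 94489280512), (274877906944, 274877906944), (395136991232, 17179869184)] :=
  covD_split 3 (by decide +kernel) c1_m10_t28 c1_m10_t29
theorem c1_m10_t32 : CovD 0 progs [(352321536000, 14092861440), (94489280512, 94489280512), (274877906944, 274877906944), (395136991232, 17179869184)] :=
  covD_split 0 (by decide +kernel) c1_m10_t30 c1_m10_t31
theorem c1_m10_t33 : CovD 0 progs [(352321536000, 14092861440), (94489280512, 94489280512), (274877906944, 274877906944), (377957122048, 34359738368)] :=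
  covD_split 3 (by decide +kernel) c1_m10_t27 c1_m10_t32
theorem c1_m10_t35 : CovD 0 progs [(366414397440, 28185722880), (94489280512, 94489280512), (274877906944, 274877906944), (377957122048, 34359738368)] :=
  covD_split 0 (by decide +kernel) c1_m10_t33 c1_m10_t34
theorem c1_m10_t36 : CovD 0 progs [(366414397440, 28185722880), (94489280512, 94489280512), (274877906944, 274877906944), (343597383680, 68719476736)] :=
  covD_split 3 (by decide +kernel) c1_m10_t20 c1_m10_t35
theorem c1_m10_t39 : CovD 0 progs [(352321536000, 14092861440), (94489280512, 94489280512), (274877906944, 274877906944), (446676598784, 34359738368)] :=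
  covD_split 3 (by decide +kernel) c1_m10_t37 c1_m10_t38
theorem c1_m10_t41 : CovD 0 progs [(366414397440, 28185722880), (94489280512, 94489280512), (274877906944, 274877906944), (446676598784, 34359738368)] :=
  covD_split 0 (by decide +kernel) c1_m10_t39 c1_m10_t40
theorem c1_m10_t43 : CovD 0 progs [(366414397440, 28185722880), (94489280512, 94489280512), (274877906944, 274877906944), (481036337152, 68719476736)] :=
  covD_split 3 (by decide +kernel) c1_m10_t41 c1_m10_t42
theorem c1_m10 : CovD 0 progs [(366414397440, 28185722880), (94489280512, 94489280512), (274877906944, 274877906944), (412316860416, 137438953472)] :=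
  covD_split 3 (by decide +kernel) c1_m10_t36 c1_m10_t43

end Pool.Agent.helper71.FJ.Crt.QMa
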