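import Pool.Agent.helper71.FJ.Crt.QMaP

/-!
Generated certificates.
-/

namespace Pool.Agent.helper71.FJ.Crt.QMa

open Pool.Agent.helper31.IA (Z Op)
open Pool.Agent.helper31.IC

mutual
theorem c1_m100_t0 : CovD 0 progs [(366414397440, 28185722880), (283467841536, 94489280512), (274877906944, 274877906944), (618475290624, 68719476736)] :=
  Pool.Agent.helper14.QF.covD_F chks_eq (.n 1 (.n 1 (.n 3 (.n 0 (.n 0 (.n 3 (.n 0 (.l 8) (.l 8)) (.l 8)) (.n 0 (.l 9) (.l 9))) (.n 2 (.l 8) (.n 0 (.l 8) (.n 0 (.l 7) (.l 0))))) (.n 0 (.n 0 (.n 0 (.l 8) (.l 9)) (.n 2 (.l 8) (.l 8))) (.n 0 (.n 2 (.l 3) (.l 9)) (.l 7)))) (.l 11)) (.l 11))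
    [(366414397440, 28185722880), (283467841536, 94489280512), (274877906944, 274877906944), (618475290624, 68719476736)] rfl (by decide +kernel)
theorem c1_m100_t1 : CovD 0 progs [(366414397440, 28185722880), (283467841536, 94489280512), (274877906944, 274877906944), (755914244096, 68719476736)] :=
  Pool.Agent.helper14.QF.covD_F chks_eq (.n 1 (.n 1 (.n 0 (.n 3 (.n 2 (.l 8) (.n 0 (.l 8) (.l 9))) (.n 3 (.l 3) (.l 0))) (.n 3 (.n 0 (.l 0) (.l 0)) (.l 0))) (.l 11)) (.l 11))
    [(366414397440, 28185722880), (283467841536, 94489280512), (274877906944, 274877906944), (755914244096, 68719476736)] rfl (by decide +kernel)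
end
mutual
theorem c1_m100_t3 : CovD 0 progs [(366414397440, 28185722880), (283467841536, 94489280512), (274877906944, 274877906944), (962072674304, 137438953472)] :=
  Pool.Agent.helper14.QF.covD_F chks_eq (.n 3 (.n 1 (.n 1 (.n 3 (.n 0 (.l 0) (.l 0)) (.l 0)) (.l 11)) (.l 11)) (.n 3 (.l 0) (.l 0)))
    [(366414397440, 28185722880), (283467841536, 94489280512), (274877906944, 274877906944), (962072674304, 137438953472)] rfl (by decide +kernel)
theorem c1_m100_t5 : CovD 0 progs [(422785843200, 28185722880), (283467841536, 94489280512), (274877906944, 274877906944), (824633720832, 274877906944)] :=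
  Pool.Agent.helper14.QF.covD_F chks_eq (.n 3 (.n 3 (.n 1 (.n 1 (.n 0 (.n 3 (.n 2 (.l 3) (.l 3)) (.l 0)) (.n 0 (.l 0) (.l 0))) (.l 11)) (.l 11)) (.n 1 (.n 0 (.n 3 (.l 0) (.l 0)) (.l 0)) (.l 11))) (.n 3 (.n 1 (.n 3 (.l 0) (.l 0)) (.l 11)) (.n 1 (.l 0) (.l 0))))
    [(422785843200, 28185722880), (283467841536, 94489280512), (274877906944, 274877906944), (824633720832, 274877906944)] rfl (by decide +kernel)
end
theorem c1_m100_t2 : CovD 0 progs [(366414397440, 28185722880), (283467841536, 94489280512), (274877906944, 274877906944), (687194767360, 137438953472)] :=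
  covD_split 3 (by decide +kernel) c1_m100_t0 c1_m100_t1
theorem c1_m100_t4 : CovD 0 progs [(366414397440, 28185722880), (283467841536, 94489280512), (274877906944, 274877906944), (824633720832, 274877906944)] :=
  covD_split 3 (by decide +kernel) c1_m100_t2 c1_m100_t3
theorem c1_m100 : CovD 0 progs [(394600120320, 56371445760), (283467841536, 94489280512), (274877906944, 274877906944), (824633720832, 274877906944)] :=
  covD_split 0 (by decide +kernel) c1_m100_t4 c1_m100_t5

end Pool.Agent.helper71.FJ.Crt.QMa
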