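import Pool.Agent.helper71.FJ.Crt.QMaP

/-!
Generated certificates.
-/

namespace Pool.Agent.helper71.FJ.Crt.QMa

open Pool.Agent.helper31.IA (Z Op)
open Pool.Agent.helper31.IC

mutual
theorem c1_m101_t0 : CovD 0 progs [(239578644480, 14092861440), (212600881152, 23622320128), (687194767360, 137438953472), (618475290624, 68719476736)] :=
  Pool.Agent.helper14.QF.covD_F chks_eq (.n 0 (.n 0 (.n 2 (.n 0 (.l 6) (.n 3 (.l 4) (.l 6))) (.l 6)) (.n 3 (.n 0 (.l 4) (.l 4)) (.n 3 (.l 4) (.n 0 (.l 4) (.l 4))))) (.n 3 (.n 0 (.n 3 (.l 4) (.l 4)) (.n 3 (.l 4) (.n 0 (.l 4) (.l 4)))) (.n 2 (.n 0 (.n 3 (.l 4) (.n 0 (.l 4) (.l 4))) (.n 0 (.n 3 (.l 4) (.n 0 (.l 4) (.l 4))) (.n 3 (.l 4) (.n 0 (.l 4) (.l 4))))) (.l 6))))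
    [(239578644480, 14092861440), (212600881152, 23622320128), (687194767360, 137438953472), (618475290624, 68719476736)] rfl (by decide +kernel)
theorem c1_m101_t1 : CovD 0 progs [(267764367360, 14092861440), (212600881152, 23622320128), (618475290624, 68719476736), (566935683072, 17179869184)] :=
  Pool.Agent.helper14.QF.covD_F chks_eq (.n 3 (.n 0 (.n 0 (.l 4) (.l 4)) (.n 0 (.l 4) (.n 0 (.l 4) (.l 4)))) (.n 0 (.n 0 (.l 4) (.l 4)) (.n 0 (.l 4) (.n 0 (.l 4) (.l 4)))))
    [(267764367360, 14092861440), (212600881152, 23622320128), (618475290624, 68719476736), (566935683072, 17179869184)] rfl (by decide +kernel)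
end
mutual
theorem c1_m101_t2 : CovD 0 progs [(267764367360, 14092861440), (212600881152, 23622320128), (618475290624, 68719476736), (601295421440, 17179869184)] :=
  Pool.Agent.helper14.QF.covD_F chks_eq (.n 3 (.n 3 (.n 0 (.n 0 (.l 4) (.l 4)) (.n 0 (.l 4) (.n 0 (.l 4) (.l 4)))) (.n 0 (.n 0 (.l 4) (.l 4)) (.n 0 (.l 4) (.n 0 (.l 4) (.l 4))))) (.n 0 (.n 0 (.l 4) (.n 0 (.l 4) (.l 4))) (.n 0 (.n 0 (.l 4) (.l 4)) (.n 0 (.n 0 (.l 4) (.l 4)) (.n 0 (.n 0 (.l 4) (.l 4)) (.n 2 (.l 4) (.l 4)))))))
    [(267764367360, 14092861440), (212600881152, 23622320128), (618475290624, 68719476736), (601295421440, 17179869184)] rfl (by decide +kernel)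
theorem c1_m101_t4 : CovD 0 progs [(267764367360, 14092861440), (212600881152, 23622320128), (755914244096, 68719476736), (566935683072, 17179869184)] :=
  Pool.Agent.helper14.QF.covD_F chks_eq (.n 3 (.n 0 (.n 0 (.l 4) (.l 4)) (.n 0 (.l 4) (.n 0 (.l 4) (.l 4)))) (.n 0 (.n 0 (.l 4) (.l 4)) (.n 0 (.n 0 (.l 4) (.l 4)) (.n 0 (.l 4) (.l 4)))))
    [(267764367360, 14092861440), (212600881152, 23622320128), (755914244096, 68719476736), (566935683072, 17179869184)] rfl (by decide +kernel)
end
mutual
theorem c1_m101_t5 : CovD 0 progs [(267764367360, 14092861440), (212600881152, 23622320128), (755914244096, 68719476736), (601295421440, 17179869184)] :=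
  Pool.Agent.helper14.QF.covD_F chks_eq (.n 3 (.n 0 (.n 0 (.l 4) (.l 4)) (.n 0 (.n 0 (.l 4) (.l 4)) (.n 0 (.l 4) (.n 0 (.l 4) (.l 4))))) (.n 0 (.n 0 (.l 4) (.n 0 (.l 4) (.l 4))) (.n 0 (.n 0 (.l 4) (.l 4)) (.n 0 (.n 0 (.l 4) (.l 4)) (.n 0 (.n 0 (.l 4) (.l 4)) (.n 2 (.l 4) (.l 4)))))))
    [(267764367360, 14092861440), (212600881152, 23622320128), (755914244096, 68719476736), (601295421440, 17179869184)] rfl (by decide +kernel)
theorem c1_m101_t8 : CovD 0 progs [(257194721280, 3523215360), (212600881152, 23622320128), (687194767360, 137438953472), (652835028992, 34359738368)] :=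
  Pool.Agent.helper14.QF.covD_F chks_eq (.n 0 (.n 3 (.n 0 (.l 4) (.l 4)) (.n 3 (.l 4) (.n 2 (.l 4) (.l 4)))) (.n 3 (.n 3 (.l 4) (.l 4)) (.n 0 (.n 3 (.l 4) (.n 2 (.l 4) (.l 4))) (.n 3 (.l 4) (.n 2 (.l 4) (.l 4))))))
    [(257194721280, 3523215360), (212600881152, 23622320128), (687194767360, 137438953472), (652835028992, 34359738368)] rfl (by decide +kernel)
end
mutual
theorem c1_m101_t9 : CovD 0 progs [(262479544320, 1761607680), (212600881152, 23622320128), (687194767360, 137438953472), (652835028992, 34359738368)] :=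
  Pool.Agent.helper14.QF.covD_F chks_eq (.n 3 (.n 3 (.l 4) (.n 0 (.l 4) (.l 4))) (.n 3 (.n 0 (.n 0 (.l 4) (.l 4)) (.n 2 (.l 4) (.l 4))) (.n 2 (.n 3 (.l 4) (.n 0 (.l 4) (.l 4))) (.n 2 (.n 0 (.l 4) (.l 4)) (.l 6)))))
    [(262479544320, 1761607680), (212600881152, 23622320128), (687194767360, 137438953472), (652835028992, 34359738368)] rfl (by decide +kernel)
theorem c1_m101_t10 : CovD 0 progs [(266002759680, 1761607680), (212600881152, 23622320128), (687194767360, 137438953472), (652835028992, 34359738368)] :=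
  Pool.Agent.helper14.QF.covD_F chks_eq (.n 0 (.n 3 (.n 3 (.l 4) (.n 0 (.l 4) (.l 4))) (.n 2 (.n 3 (.l 4) (.n 3 (.l 4) (.l 4))) (.n 2 (.n 3 (.l 4) (.n 0 (.l 4) (.l 4))) (.l 6)))) (.n 3 (.n 3 (.l 4) (.n 2 (.l 4) (.l 4))) (.n 2 (.n 3 (.n 0 (.l 4) (.l 4)) (.n 3 (.l 4) (.n 0 (.l 4) (.l 4)))) (.n 2 (.n 3 (.l 4) (.n 0 (.l 4) (.l 4))) (.l 6)))))
    [(266002759680, 1761607680), (212600881152, 23622320128), (687194767360, 137438953472), (652835028992, 34359738368)] rfl (by decide +kernel)
end
mutual
theorem c1_m101_t13 : CovD 0 progs [(268645171200, 880803840), (212600881152, 23622320128), (687194767360, 137438953472), (652835028992, 34359738368)] :=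
  Pool.Agent.helper14.QF.covD_F chks_eq (.n 3 (.n 3 (.l 4) (.n 2 (.l 4) (.l 4))) (.n 3 (.n 2 (.n 3 (.l 4) (.l 4)) (.n 2 (.l 4) (.l 4))) (.n 2 (.n 2 (.n 3 (.l 4) (.l 4)) (.n 3 (.l 4) (.l 4))) (.n 2 (.n 3 (.l 4) (.l 4)) (.l 6)))))
    [(268645171200, 880803840), (212600881152, 23622320128), (687194767360, 137438953472), (652835028992, 34359738368)] rfl (by decide +kernel)
theorem c1_m101_t14 : CovD 0 progs [(270406778880, 880803840), (212600881152, 23622320128), (618475290624, 68719476736), (652835028992, 34359738368)] :=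
  Pool.Agent.helper14.QF.covD_F chks_eq (.n 0 (.n 3 (.n 3 (.l 4) (.l 4)) (.n 3 (.n 2 (.l 4) (.l 4)) (.n 3 (.l 4) (.n 1 (.l 4) (.l 4))))) (.n 3 (.n 3 (.l 4) (.l 4)) (.n 2 (.n 3 (.l 4) (.n 1 (.l 4) (.l 4))) (.n 3 (.l 4) (.n 0 (.l 4) (.l 4))))))
    [(270406778880, 880803840), (212600881152, 23622320128), (618475290624, 68719476736), (652835028992, 34359738368)] rfl (by decide +kernel)
end
mutual
theorem c1_m101_t15 : CovD 0 progs [(270406778880, 880803840), (212600881152, 23622320128), (755914244096, 68719476736), (652835028992, 34359738368)] :=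
  Pool.Agent.helper14.QF.covD_F chks_eq (.n 3 (.n 3 (.l 4) (.n 0 (.l 4) (.l 4))) (.n 2 (.n 3 (.n 0 (.l 4) (.l 4)) (.n 3 (.l 4) (.l 4))) (.n 1 (.l 6) (.n 3 (.l 4) (.l 4)))))
    [(270406778880, 880803840), (212600881152, 23622320128), (755914244096, 68719476736), (652835028992, 34359738368)] rfl (by decide +kernel)
theorem c1_m101_t18 : CovD 0 progs [(272168386560, 880803840), (212600881152, 23622320128), (618475290624, 68719476736), (652835028992, 34359738368)] :=
  Pool.Agent.helper14.QF.covD_F chks_eq (.n 0 (.n 3 (.n 3 (.l 4) (.l 4)) (.n 2 (.n 3 (.l 4) (.n 0 (.l 4) (.l 4))) (.n 3 (.l 4) (.n 0 (.l 4) (.l 4))))) (.n 3 (.n 3 (.l 4) (.n 0 (.l 4) (.l 4))) (.n 3 (.n 3 (.l 4) (.n 0 (.l 4) (.l 4))) (.n 2 (.l 4) (.l 4)))))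
    [(272168386560, 880803840), (212600881152, 23622320128), (618475290624, 68719476736), (652835028992, 34359738368)] rfl (by decide +kernel)
end
mutual
theorem c1_m101_t19 : CovD 0 progs [(272168386560, 880803840), (212600881152, 23622320128), (755914244096, 68719476736), (652835028992, 34359738368)] :=
  Pool.Agent.helper14.QF.covD_F chks_eq (.n 1 (.n 2 (.n 3 (.n 3 (.l 4) (.l 4)) (.n 3 (.l 4) (.l 4))) (.l 6)) (.n 3 (.n 3 (.l 4) (.l 4)) (.n 2 (.n 3 (.l 4) (.l 4)) (.n 3 (.l 4) (.l 4)))))
    [(272168386560, 880803840), (212600881152, 23622320128), (755914244096, 68719476736), (652835028992, 34359738368)] rfl (by decide +kernel)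
theorem c1_m101_t21 : CovD 0 progs [(273929994240, 880803840), (212600881152, 23622320128), (687194767360, 137438953472), (652835028992, 34359738368)] :=
  Pool.Agent.helper14.QF.covD_F chks_eq (.n 2 (.n 3 (.n 3 (.l 4) (.n 3 (.l 4) (.l 4))) (.n 2 (.n 3 (.n 3 (.l 4) (.l 4)) (.l 4)) (.n 3 (.n 3 (.l 4) (.l 4)) (.l 4)))) (.n 2 (.n 3 (.n 3 (.l 4) (.n 0 (.l 4) (.l 4))) (.n 3 (.n 0 (.l 4) (.l 4)) (.l 4))) (.n 3 (.n 3 (.l 4) (.l 4)) (.n 1 (.l 6) (.n 3 (.l 4) (.l 4))))))
    [(273929994240, 880803840), (212600881152, 23622320128), (687194767360, 137438953472), (652835028992, 34359738368)] rfl (by decide +kernel)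
end
mutual
theorem c1_m101_t24 : CovD 0 progs [(275691601920, 880803840), (212600881152, 23622320128), (687194767360, 137438953472), (652835028992, 34359738368)] :=
  Pool.Agent.helper14.QF.covD_F chks_eq (.n 1 (.n 2 (.n 3 (.n 3 (.l 4) (.n 3 (.l 4) (.l 4))) (.n 3 (.n 3 (.l 4) (.l 4)) (.l 4))) (.n 3 (.n 3 (.l 4) (.n 2 (.l 4) (.l 4))) (.n 3 (.n 2 (.l 4) (.l 4)) (.l 4)))) (.n 2 (.n 3 (.n 3 (.l 4) (.n 3 (.l 4) (.l 4))) (.n 3 (.n 3 (.l 4) (.l 4)) (.l 4))) (.n 3 (.n 3 (.l 4) (.n 2 (.l 4) (.l 4))) (.n 3 (.n 2 (.l 4) (.l 4)) (.l 4)))))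
    [(275691601920, 880803840), (212600881152, 23622320128), (687194767360, 137438953472), (652835028992, 34359738368)] rfl (by decide +kernel)
theorem c1_m101_t25 : CovD 0 progs [(277453209600, 880803840), (212600881152, 23622320128), (618475290624, 68719476736), (652835028992, 34359738368)] :=
  Pool.Agent.helper14.QF.covD_F chks_eq (.n 2 (.n 0 (.n 3 (.n 3 (.l 4) (.l 4)) (.n 3 (.l 4) (.l 4))) (.n 3 (.n 3 (.l 4) (.n 0 (.l 4) (.l 4))) (.n 3 (.l 4) (.l 4)))) (.n 3 (.n 3 (.l 4) (.n 0 (.l 4) (.l 4))) (.n 3 (.n 0 (.l 4) (.l 4)) (.l 4))))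
    [(277453209600, 880803840), (212600881152, 23622320128), (618475290624, 68719476736), (652835028992, 34359738368)] rfl (by decide +kernel)
end
mutual
theorem c1_m101_t26 : CovD 0 progs [(277453209600, 880803840), (212600881152, 23622320128), (755914244096, 68719476736), (652835028992, 34359738368)] :=
  Pool.Agent.helper14.QF.covD_F chks_eq (.n 2 (.n 3 (.n 3 (.l 4) (.n 0 (.l 4) (.l 4))) (.n 3 (.l 4) (.l 4))) (.n 3 (.n 3 (.l 4) (.n 0 (.l 4) (.l 4))) (.n 1 (.l 4) (.l 4))))
    [(277453209600, 880803840), (212600881152, 23622320128), (755914244096, 68719476736), (652835028992, 34359738368)] rfl (by decide +kernel)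
theorem c1_m101_t29 : CovD 0 progs [(280095621120, 1761607680), (200789721088, 11811160064), (618475290624, 68719476736), (652835028992, 34359738368)] :=
  Pool.Agent.helper14.QF.covD_F chks_eq (.n 2 (.n 3 (.n 3 (.n 3 (.l 4) (.n 0 (.l 4) (.l 4))) (.n 0 (.n 0 (.l 4) (.l 4)) (.l 4))) (.n 3 (.l 4) (.n 3 (.l 4) (.l 4)))) (.n 3 (.n 0 (.n 3 (.l 4) (.l 4)) (.n 3 (.l 4) (.l 4))) (.n 3 (.l 4) (.n 0 (.l 4) (.l 4)))))
    [(280095621120, 1761607680), (200789721088, 11811160064), (618475290624, 68719476736), (652835028992, 34359738368)] rfl (by decide +kernel)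
end
mutual
theorem c1_m101_t30 : CovD 0 progs [(280095621120, 1761607680), (224412041216, 11811160064), (618475290624, 68719476736), (652835028992, 34359738368)] :=
  Pool.Agent.helper14.QF.covD_F chks_eq (.n 2 (.n 3 (.n 3 (.n 0 (.l 4) (.n 0 (.l 4) (.l 4))) (.n 3 (.l 4) (.l 4))) (.n 3 (.l 4) (.n 0 (.l 4) (.l 4)))) (.n 3 (.n 0 (.n 3 (.l 4) (.l 4)) (.n 3 (.l 4) (.l 4))) (.n 3 (.l 4) (.n 0 (.l 4) (.l 4)))))
    [(280095621120, 1761607680), (224412041216, 11811160064), (618475290624, 68719476736), (652835028992, 34359738368)] rfl (by decide +kernel)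
theorem c1_m101_t32 : CovD 0 progs [(280095621120, 1761607680), (212600881152, 23622320128), (755914244096, 68719476736), (652835028992, 34359738368)] :=
  Pool.Agent.helper14.QF.covD_F chks_eq (.n 2 (.n 3 (.n 0 (.n 0 (.n 3 (.l 4) (.l 4)) (.n 3 (.l 4) (.l 4))) (.n 3 (.n 0 (.l 4) (.l 4)) (.l 4))) (.n 3 (.l 4) (.n 3 (.l 4) (.l 4)))) (.n 0 (.n 3 (.n 3 (.l 4) (.n 0 (.l 4) (.l 4))) (.n 3 (.l 4) (.l 4))) (.n 3 (.n 3 (.n 0 (.l 4) (.l 4)) (.l 4)) (.n 3 (.l 4) (.l 4)))))
    [(280095621120, 1761607680), (212600881152, 23622320128), (755914244096, 68719476736), (652835028992, 34359738368)] rfl (by decide +kernel)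
end
mutual
theorem c1_m101_t39 : CovD 0 progs [(253671505920, 28185722880), (259845521408, 23622320128), (687194767360, 137438953472), (618475290624, 68719476736)] :=
  Pool.Agent.helper14.QF.covD_F chks_eq (.l 11)
    [(253671505920, 28185722880), (259845521408, 23622320128), (687194767360, 137438953472), (618475290624, 68719476736)] rfl (by decide +kernel)
theorem c1_m101_t41 : CovD 0 progs [(253671505920, 28185722880), (330712481792, 47244640256), (687194767360, 137438953472), (618475290624, 68719476736)] :=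
  Pool.Agent.helper14.QF.covD_F chks_eq (.l 11)
    [(253671505920, 28185722880), (330712481792, 47244640256), (687194767360, 137438953472), (618475290624, 68719476736)] rfl (by decide +kernel)
end
mutual
theorem c1_m101_t43 : CovD 0 progs [(239578644480, 14092861440), (212600881152, 23622320128), (962072674304, 137438953472), (618475290624, 68719476736)] :=
  Pool.Agent.helper14.QF.covD_F chks_eq (.l 6)
    [(239578644480, 14092861440), (212600881152, 23622320128), (962072674304, 137438953472), (618475290624, 68719476736)] rfl (by decide +kernel)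
theorem c1_m101_t44 : CovD 0 progs [(267764367360, 14092861440), (212600881152, 23622320128), (962072674304, 137438953472), (618475290624, 68719476736)] :=
  Pool.Agent.helper14.QF.covD_F chks_eq (.n 2 (.n 0 (.l 6) (.n 0 (.n 2 (.n 0 (.l 6) (.n 3 (.n 3 (.l 4) (.l 6)) (.l 6))) (.l 6)) (.n 2 (.n 3 (.n 0 (.n 3 (.l 4) (.n 3 (.l 4) (.l 4))) (.n 3 (.n 0 (.l 4) (.l 4)) (.n 1 (.l 6) (.n 3 (.l 4) (.l 4))))) (.n 1 (.l 6) (.n 0 (.n 1 (.l 6) (.n 1 (.l 6) (.l 11))) (.n 3 (.n 3 (.l 4) (.l 4)) (.n 3 (.l 4) (.l 4)))))) (.l 6)))) (.l 6))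
    [(267764367360, 14092861440), (212600881152, 23622320128), (962072674304, 137438953472), (618475290624, 68719476736)] rfl (by decide +kernel)
end
mutual
theorem c1_m101_t46 : CovD 0 progs [(253671505920, 28185722880), (259845521408, 23622320128), (962072674304, 137438953472), (618475290624, 68719476736)] :=
  Pool.Agent.helper14.QF.covD_F chks_eq (.l 11)
    [(253671505920, 28185722880), (259845521408, 23622320128), (962072674304, 137438953472), (618475290624, 68719476736)] rfl (by decide +kernel)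
theorem c1_m101_t48 : CovD 0 progs [(253671505920, 28185722880), (330712481792, 47244640256), (962072674304, 137438953472), (618475290624, 68719476736)] :=
  Pool.Agent.helper14.QF.covD_F chks_eq (.l 11)
    [(253671505920, 28185722880), (330712481792, 47244640256), (962072674304, 137438953472), (618475290624, 68719476736)] rfl (by decide +kernel)
end
theorem c1_m101_t3 : CovD 0 progs [(267764367360, 14092861440), (212600881152, 23622320128), (618475290624, 68719476736), (584115552256, 34359738368)] :=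
  covD_split 3 (by decide +kernel) c1_m101_t1 c1_m101_t2
theorem c1_m101_t6 : CovD 0 progs [(267764367360, 14092861440), (212600881152, 23622320128), (755914244096, 68719476736), (584115552256, 34359738368)] :=
  covD_split 3 (by decide +kernel) c1_m101_t4 c1_m101_t5
theorem c1_m101_t7 : CovD 0 progs [(267764367360, 14092861440), (212600881152, 23622320128), (687194767360, 137438953472), (584115552256, 34359738368)] :=
  covD_split 2 (by decide +kernel) c1_m101_t3 c1_m101_t6
theorem c1_m101_t11 : CovD 0 progs [(264241152000, 3523215360), (212600881152, 23622320128), (687194767360, 137438953472), (652835028992, 34359738368)] :=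
  covD_split 0 (by decide +kernel) c1_m101_t9 c1_m101_t10
theorem c1_m101_t12 : CovD 0 progs [(260717936640, 7046430720), (212600881152, 23622320128), (687194767360, 137438953472), (652835028992, 34359738368)] :=
  covD_split 0 (by decide +kernel) c1_m101_t8 c1_m101_t11
theorem c1_m101_t16 : CovD 0 progs [(270406778880, 880803840), (212600881152, 23622320128), (687194767360, 137438953472), (652835028992, 34359738368)] :=
  covD_split 2 (by decide +kernel) c1_m101_t14 c1_m101_t15
theorem c1_m101_t17 : CovD 0 progs [(269525975040, 1761607680), (212600881152, 23622320128), (687194767360, 137438953472), (652835028992, 34359738368)] :=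
  covD_split 0 (by decide +kernel) c1_m101_t13 c1_m101_t16
theorem c1_m101_t20 : CovD 0 progs [(272168386560, 880803840), (212600881152, 23622320128), (687194767360, 137438953472), (652835028992, 34359738368)] :=
  covD_split 2 (by decide +kernel) c1_m101_t18 c1_m101_t19
theorem c1_m101_t22 : CovD 0 progs [(273049190400, 1761607680), (212600881152, 23622320128), (687194767360, 137438953472), (652835028992, 34359738368)] :=
  covD_split 0 (by decide +kernel) c1_m101_t20 c1_m101_t21
theorem c1_m101_t23 : CovD 0 progs [(271287582720, 3523215360), (212600881152, 23622320128), (687194767360, 137438953472), (652835028992, 34359738368)] :=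
  covD_split 0 (by decide +kernel) c1_m101_t17 c1_m101_t22
theorem c1_m101_t27 : CovD 0 progs [(277453209600, 880803840), (212600881152, 23622320128), (687194767360, 137438953472), (652835028992, 34359738368)] :=
  covD_split 2 (by decide +kernel) c1_m101_t25 c1_m101_t26
theorem c1_m101_t28 : CovD 0 progs [(276572405760, 1761607680), (212600881152, 23622320128), (687194767360, 137438953472), (652835028992, 34359738368)] :=
  covD_split 0 (by decide +kernel) c1_m101_t24 c1_m101_t27
theorem c1_m101_t31 : CovD 0 progs [(280095621120, 1761607680), (212600881152, 23622320128), (618475290624, 68719476736), (652835028992, 34359738368)] :=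
  covD_split 1 (by decide +kernel) c1_m101_t29 c1_m101_t30
theorem c1_m101_t33 : CovD 0 progs [(280095621120, 1761607680), (212600881152, 23622320128), (687194767360, 137438953472), (652835028992, 34359738368)] :=
  covD_split 2 (by decide +kernel) c1_m101_t31 c1_m101_t32
theorem c1_m101_t34 : CovD 0 progs [(278334013440, 3523215360), (212600881152, 23622320128), (687194767360, 137438953472), (652835028992, 34359738368)] :=
  covD_split 0 (by decide +kernel) c1_m101_t28 c1_m101_t33
theorem c1_m101_t35 : CovD 0 progs [(274810798080, 7046430720), (212600881152, 23622320128), (687194767360, 137438953472), (652835028992, 34359738368)] :=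
  covD_split 0 (by decide +kernel) c1_m101_t23 c1_m101_t34
theorem c1_m101_t36 : CovD 0 progs [(267764367360, 14092861440), (212600881152, 23622320128), (687194767360, 137438953472), (652835028992, 34359738368)] :=
  covD_split 0 (by decide +kernel) c1_m101_t12 c1_m101_t35
theorem c1_m101_t37 : CovD 0 progs [(267764367360, 14092861440), (212600881152, 23622320128), (687194767360, 137438953472), (618475290624, 68719476736)] :=
  covD_split 3 (by decide +kernel) c1_m101_t7 c1_m101_t36
theorem c1_m101_t38 : CovD 0 progs [(253671505920, 28185722880), (212600881152, 23622320128), (687194767360, 137438953472), (618475290624, 68719476736)] :=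
  covD_split 0 (by decide +kernel) c1_m101_t0 c1_m101_t37
theorem c1_m101_t40 : CovD 0 progs [(253671505920, 28185722880), (236223201280, 47244640256), (687194767360, 137438953472), (618475290624, 68719476736)] :=
  covD_split 1 (by decide +kernel) c1_m101_t38 c1_m101_t39
theorem c1_m101_t42 : CovD 0 progs [(253671505920, 28185722880), (283467841536, 94489280512), (687194767360, 137438953472), (618475290624, 68719476736)] :=
  covD_split 1 (by decide +kernel) c1_m101_t40 c1_m101_t41
theorem c1_m101_t45 : CovD 0 progs [(253671505920, 28185722880), (212600881152, 23622320128), (962072674304, 137438953472), (618475290624, 68719476736)] :=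
  covD_split 0 (by decide +kernel) c1_m101_t43 c1_m101_t44
theorem c1_m101_t47 : CovD 0 progs [(253671505920, 28185722880), (236223201280, 47244640256), (962072674304, 137438953472), (618475290624, 68719476736)] :=
  covD_split 1 (by decide +kernel) c1_m101_t45 c1_m101_t46
theorem c1_m101_t49 : CovD 0 progs [(253671505920, 28185722880), (283467841536, 94489280512), (962072674304, 137438953472), (618475290624, 68719476736)] :=
  covD_split 1 (by decide +kernel) c1_m101_t47 c1_m101_t48
theorem c1_m101 : CovD 0 progs [(253671505920, 28185722880), (283467841536, 94489280512), (824633720832, 274877906944), (618475290624, 68719476736)] :=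
  covD_split 2 (by decide +kernel) c1_m101_t42 c1_m101_t49

end Pool.Agent.helper71.FJ.Crt.QMa
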