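import Pool.Agent.helper71.FJ.Crt.QMaP

/-!
Generated certificates.
-/

namespace Pool.Agent.helper71.FJ.Crt.QMa

open Pool.Agent.helper31.IA (Z Op)
open Pool.Agent.helper31.IC

mutual
theorem c1_m102_t0 : CovD 0 progs [(232532213760, 7046430720), (212600881152, 23622320128), (584115552256, 34359738368), (755914244096, 68719476736)] :=
  Pool.Agent.helper14.QF.covD_F chks_eq (.n 1 (.l 6) (.l 6))
    [(232532213760, 7046430720), (212600881152, 23622320128), (584115552256, 34359738368), (755914244096, 68719476736)] rfl (by decide +kernel)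
theorem c1_m102_t1 : CovD 0 progs [(243101859840, 3523215360), (212600881152, 23622320128), (584115552256, 34359738368), (755914244096, 68719476736)] :=
  Pool.Agent.helper14.QF.covD_F chks_eq (.n 3 (.n 3 (.n 0 (.n 0 (.l 4) (.l 4)) (.n 3 (.l 4) (.l 4))) (.n 1 (.l 6) (.n 0 (.l 6) (.n 3 (.n 0 (.l 4) (.l 4)) (.n 3 (.l 4) (.n 0 (.l 4) (.l 4))))))) (.n 1 (.l 6) (.n 1 (.l 6) (.n 1 (.l 6) (.l 11)))))
    [(243101859840, 3523215360), (212600881152, 23622320128), (584115552256, 34359738368), (755914244096, 68719476736)] rfl (by decide +kernel)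
end
mutual
theorem c1_m102_t2 : CovD 0 progs [(247505879040, 880803840), (212600881152, 23622320128), (584115552256, 34359738368), (755914244096, 68719476736)] :=
  Pool.Agent.helper14.QF.covD_F chks_eq (.n 3 (.n 3 (.n 3 (.l 4) (.l 4)) (.n 3 (.l 4) (.n 3 (.l 4) (.l 4)))) (.n 2 (.n 1 (.l 6) (.n 3 (.n 3 (.n 3 (.l 4) (.l 4)) (.l 4)) (.l 6))) (.l 6)))
    [(247505879040, 880803840), (212600881152, 23622320128), (584115552256, 34359738368), (755914244096, 68719476736)] rfl (by decide +kernel)
theorem c1_m102_t3 : CovD 0 progs [(249267486720, 880803840), (212600881152, 23622320128), (584115552256, 34359738368), (755914244096, 68719476736)] :=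
  Pool.Agent.helper14.QF.covD_F chks_eq (.n 3 (.n 3 (.n 3 (.l 4) (.l 4)) (.n 3 (.n 0 (.l 4) (.l 4)) (.n 3 (.l 4) (.l 4)))) (.n 1 (.l 6) (.n 2 (.n 3 (.n 3 (.n 3 (.l 4) (.l 4)) (.n 3 (.l 4) (.l 4))) (.n 1 (.l 6) (.n 1 (.l 6) (.l 11)))) (.l 6))))
    [(249267486720, 880803840), (212600881152, 23622320128), (584115552256, 34359738368), (755914244096, 68719476736)] rfl (by decide +kernel)
end
mutual
theorem c1_m102_t5 : CovD 0 progs [(251029094400, 880803840), (212600881152, 23622320128), (584115552256, 34359738368), (755914244096, 68719476736)] :=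
  Pool.Agent.helper14.QF.covD_F chks_eq (.n 3 (.n 3 (.n 3 (.l 4) (.l 4)) (.n 3 (.n 3 (.l 4) (.l 4)) (.n 3 (.l 4) (.n 0 (.l 4) (.l 4))))) (.n 3 (.n 3 (.n 1 (.l 4) (.l 4)) (.n 3 (.l 4) (.l 4))) (.n 3 (.n 3 (.l 4) (.l 4)) (.l 4))))
    [(251029094400, 880803840), (212600881152, 23622320128), (584115552256, 34359738368), (755914244096, 68719476736)] rfl (by decide +kernel)
theorem c1_m102_t6 : CovD 0 progs [(252790702080, 880803840), (212600881152, 23622320128), (584115552256, 34359738368), (755914244096, 68719476736)] :=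
  Pool.Agent.helper14.QF.covD_F chks_eq (.n 3 (.n 3 (.n 3 (.l 4) (.l 4)) (.n 3 (.n 3 (.l 4) (.l 4)) (.n 3 (.l 4) (.l 4)))) (.n 3 (.n 3 (.n 3 (.l 4) (.l 4)) (.n 3 (.l 4) (.l 4))) (.n 3 (.n 0 (.l 4) (.l 4)) (.l 4))))
    [(252790702080, 880803840), (212600881152, 23622320128), (584115552256, 34359738368), (755914244096, 68719476736)] rfl (by decide +kernel)
end
mutual
theorem c1_m102_t11 : CovD 0 progs [(239578644480, 14092861440), (212600881152, 23622320128), (652835028992, 34359738368), (755914244096, 68719476736)] :=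
  Pool.Agent.helper14.QF.covD_F chks_eq (.n 0 (.l 6) (.n 0 (.l 6) (.n 1 (.l 6) (.n 2 (.n 0 (.l 6) (.n 3 (.n 2 (.n 3 (.n 3 (.l 4) (.n 0 (.l 4) (.l 4))) (.l 6)) (.l 6)) (.l 6))) (.l 6)))))
    [(239578644480, 14092861440), (212600881152, 23622320128), (652835028992, 34359738368), (755914244096, 68719476736)] rfl (by decide +kernel)
theorem c1_m102_t13 : CovD 0 progs [(239578644480, 14092861440), (212600881152, 23622320128), (755914244096, 68719476736), (755914244096, 68719476736)] :=
  Pool.Agent.helper14.QF.covD_F chks_eq (.l 6)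
    [(239578644480, 14092861440), (212600881152, 23622320128), (755914244096, 68719476736), (755914244096, 68719476736)] rfl (by decide +kernel)
end
mutual
theorem c1_m102_t15 : CovD 0 progs [(239578644480, 14092861440), (212600881152, 23622320128), (962072674304, 137438953472), (755914244096, 68719476736)] :=
  Pool.Agent.helper14.QF.covD_F chks_eq (.l 6)
    [(239578644480, 14092861440), (212600881152, 23622320128), (962072674304, 137438953472), (755914244096, 68719476736)] rfl (by decide +kernel)
theorem c1_m102_t17 : CovD 0 progs [(239578644480, 14092861440), (259845521408, 23622320128), (824633720832, 274877906944), (755914244096, 68719476736)] :=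
  Pool.Agent.helper14.QF.covD_F chks_eq (.l 11)
    [(239578644480, 14092861440), (259845521408, 23622320128), (824633720832, 274877906944), (755914244096, 68719476736)] rfl (by decide +kernel)
end
mutual
theorem c1_m102_t19 : CovD 0 progs [(239578644480, 14092861440), (330712481792, 47244640256), (824633720832, 274877906944), (755914244096, 68719476736)] :=
  Pool.Agent.helper14.QF.covD_F chks_eq (.l 11)
    [(239578644480, 14092861440), (330712481792, 47244640256), (824633720832, 274877906944), (755914244096, 68719476736)] rfl (by decide +kernel)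
theorem c1_m102_t21 : CovD 0 progs [(260717936640, 7046430720), (212600881152, 23622320128), (618475290624, 68719476736), (691489734656, 4294967296)] :=
  Pool.Agent.helper14.QF.covD_F chks_eq (.n 3 (.n 0 (.n 0 (.l 4) (.l 4)) (.n 0 (.n 0 (.l 4) (.l 4)) (.n 0 (.l 4) (.n 0 (.l 4) (.l 4))))) (.n 0 (.n 0 (.l 4) (.l 4)) (.n 0 (.n 0 (.l 4) (.l 4)) (.n 0 (.l 4) (.n 0 (.l 4) (.l 4))))))
    [(260717936640, 7046430720), (212600881152, 23622320128), (618475290624, 68719476736), (691489734656, 4294967296)] rfl (by decide +kernel)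
end
mutual
theorem c1_m102_t22 : CovD 0 progs [(274810798080, 7046430720), (212600881152, 23622320128), (618475290624, 68719476736), (691489734656, 4294967296)] :=
  Pool.Agent.helper14.QF.covD_F chks_eq (.n 0 (.n 0 (.n 0 (.n 2 (.l 4) (.l 4)) (.n 1 (.l 4) (.l 4))) (.n 2 (.l 4) (.l 4))) (.n 0 (.n 0 (.n 1 (.l 4) (.l 4)) (.n 0 (.l 4) (.l 4))) (.n 0 (.l 4) (.l 4))))
    [(274810798080, 7046430720), (212600881152, 23622320128), (618475290624, 68719476736), (691489734656, 4294967296)] rfl (by decide +kernel)
theorem c1_m102_t24 : CovD 0 progs [(260717936640, 7046430720), (212600881152, 23622320128), (618475290624, 68719476736), (700079669248, 4294967296)] :=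
  Pool.Agent.helper14.QF.covD_F chks_eq (.n 3 (.n 0 (.n 0 (.l 4) (.l 4)) (.n 0 (.n 0 (.l 4) (.l 4)) (.n 0 (.n 0 (.l 4) (.l 4)) (.n 0 (.l 4) (.l 4))))) (.n 0 (.n 0 (.l 4) (.n 0 (.l 4) (.l 4))) (.n 0 (.n 0 (.l 4) (.n 0 (.l 4) (.l 4))) (.n 2 (.l 4) (.l 4)))))
    [(260717936640, 7046430720), (212600881152, 23622320128), (618475290624, 68719476736), (700079669248, 4294967296)] rfl (by decide +kernel)
end
mutual
theorem c1_m102_t25 : CovD 0 progs [(274810798080, 7046430720), (212600881152, 23622320128), (618475290624, 68719476736), (700079669248, 4294967296)] :=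
  Pool.Agent.helper14.QF.covD_F chks_eq (.n 0 (.n 0 (.n 1 (.l 4) (.l 4)) (.n 0 (.n 1 (.l 4) (.l 4)) (.n 1 (.l 4) (.l 4)))) (.n 0 (.n 0 (.n 0 (.l 4) (.l 4)) (.l 4)) (.n 0 (.l 4) (.l 4))))
    [(274810798080, 7046430720), (212600881152, 23622320128), (618475290624, 68719476736), (700079669248, 4294967296)] rfl (by decide +kernel)
theorem c1_m102_t28 : CovD 0 progs [(267764367360, 14092861440), (212600881152, 23622320128), (618475290624, 68719476736), (708669603840, 4294967296)] :=
  Pool.Agent.helper14.QF.covD_F chks_eq (.n 0 (.n 0 (.n 0 (.n 0 (.l 4) (.l 4)) (.n 0 (.l 4) (.n 0 (.l 4) (.l 4)))) (.n 0 (.n 0 (.n 2 (.l 4) (.l 4)) (.n 2 (.l 4) (.l 4))) (.n 2 (.n 0 (.l 4) (.l 4)) (.l 4)))) (.n 0 (.n 0 (.n 2 (.l 4) (.l 4)) (.n 0 (.n 1 (.l 4) (.l 4)) (.n 0 (.l 4) (.l 4)))) (.n 0 (.n 0 (.l 4) (.l 4)) (.l 4))))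
    [(267764367360, 14092861440), (212600881152, 23622320128), (618475290624, 68719476736), (708669603840, 4294967296)] rfl (by decide +kernel)
end
mutual
theorem c1_m102_t29 : CovD 0 progs [(267764367360, 14092861440), (212600881152, 23622320128), (618475290624, 68719476736), (717259538432, 4294967296)] :=
  Pool.Agent.helper14.QF.covD_F chks_eq (.n 0 (.n 0 (.n 0 (.n 0 (.l 4) (.n 0 (.l 4) (.l 4))) (.n 0 (.n 1 (.l 4) (.l 4)) (.n 2 (.l 4) (.l 4)))) (.n 0 (.n 0 (.n 2 (.l 4) (.l 4)) (.n 1 (.l 4) (.l 4))) (.n 2 (.l 4) (.l 4)))) (.n 0 (.n 0 (.n 0 (.n 1 (.l 4) (.l 4)) (.n 1 (.l 4) (.l 4))) (.n 0 (.n 0 (.l 4) (.l 4)) (.l 4))) (.n 0 (.n 0 (.l 4) (.l 4)) (.l 4))))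
    [(267764367360, 14092861440), (212600881152, 23622320128), (618475290624, 68719476736), (717259538432, 4294967296)] rfl (by decide +kernel)
theorem c1_m102_t32 : CovD 0 progs [(267764367360, 14092861440), (212600881152, 23622320128), (618475290624, 68719476736), (725849473024, 4294967296)] :=
  Pool.Agent.helper14.QF.covD_F chks_eq (.n 0 (.n 0 (.n 0 (.n 0 (.n 0 (.l 4) (.l 4)) (.n 2 (.l 4) (.l 4))) (.n 0 (.n 2 (.l 4) (.l 4)) (.n 2 (.l 4) (.l 4)))) (.n 0 (.n 2 (.l 4) (.l 4)) (.n 0 (.n 1 (.l 4) (.l 4)) (.n 1 (.l 4) (.l 4))))) (.n 0 (.n 0 (.n 0 (.n 0 (.l 4) (.l 4)) (.n 0 (.l 4) (.l 4))) (.n 0 (.l 4) (.l 4))) (.n 0 (.l 4) (.l 4))))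
    [(267764367360, 14092861440), (212600881152, 23622320128), (618475290624, 68719476736), (725849473024, 4294967296)] rfl (by decide +kernel)
end
mutual
theorem c1_m102_t33 : CovD 0 progs [(267764367360, 14092861440), (212600881152, 23622320128), (618475290624, 68719476736), (734439407616, 4294967296)] :=
  Pool.Agent.helper14.QF.covD_F chks_eq (.n 0 (.n 2 (.n 3 (.n 0 (.n 0 (.n 0 (.l 4) (.l 4)) (.l 4)) (.n 0 (.l 4) (.l 4))) (.n 0 (.n 0 (.n 0 (.l 4) (.l 4)) (.l 4)) (.n 0 (.l 4) (.l 4)))) (.n 0 (.n 0 (.n 0 (.l 4) (.l 4)) (.n 0 (.l 4) (.l 4))) (.n 0 (.n 0 (.l 4) (.l 4)) (.n 0 (.l 4) (.l 4))))) (.n 0 (.n 0 (.n 0 (.l 4) (.l 4)) (.l 4)) (.n 0 (.l 4) (.l 4))))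
    [(267764367360, 14092861440), (212600881152, 23622320128), (618475290624, 68719476736), (734439407616, 4294967296)] rfl (by decide +kernel)
theorem c1_m102_t35 : CovD 0 progs [(267764367360, 14092861440), (212600881152, 23622320128), (618475290624, 68719476736), (743029342208, 4294967296)] :=
  Pool.Agent.helper14.QF.covD_F chks_eq (.n 0 (.n 2 (.n 0 (.n 0 (.n 0 (.l 4) (.l 4)) (.l 4)) (.n 0 (.n 0 (.l 4) (.l 4)) (.n 0 (.l 4) (.l 4)))) (.n 0 (.n 0 (.n 0 (.l 4) (.l 4)) (.l 4)) (.n 0 (.n 0 (.l 4) (.l 4)) (.n 0 (.l 4) (.l 4))))) (.n 0 (.n 0 (.n 0 (.l 4) (.l 4)) (.l 4)) (.l 4)))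
    [(267764367360, 14092861440), (212600881152, 23622320128), (618475290624, 68719476736), (743029342208, 4294967296)] rfl (by decide +kernel)
end
mutual
theorem c1_m102_t36 : CovD 0 progs [(267764367360, 14092861440), (212600881152, 23622320128), (618475290624, 68719476736), (751619276800, 4294967296)] :=
  Pool.Agent.helper14.QF.covD_F chks_eq (.n 0 (.n 0 (.n 0 (.n 1 (.l 4) (.l 4)) (.n 0 (.n 1 (.l 4) (.l 4)) (.n 2 (.l 4) (.l 4)))) (.n 0 (.n 0 (.n 1 (.l 4) (.l 4)) (.n 0 (.l 4) (.l 4))) (.n 0 (.l 4) (.l 4)))) (.n 0 (.n 0 (.l 4) (.l 4)) (.l 4)))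
    [(267764367360, 14092861440), (212600881152, 23622320128), (618475290624, 68719476736), (751619276800, 4294967296)] rfl (by decide +kernel)
theorem c1_m102_t40 : CovD 0 progs [(267764367360, 14092861440), (259845521408, 23622320128), (618475290624, 68719476736), (721554505728, 34359738368)] :=
  Pool.Agent.helper14.QF.covD_F chks_eq (.l 11)
    [(267764367360, 14092861440), (259845521408, 23622320128), (618475290624, 68719476736), (721554505728, 34359738368)] rfl (by decide +kernel)
end
mutual
theorem c1_m102_t42 : CovD 0 progs [(267764367360, 14092861440), (330712481792, 47244640256), (618475290624, 68719476736), (721554505728, 34359738368)] :=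
  Pool.Agent.helper14.QF.covD_F chks_eq (.l 11)
    [(267764367360, 14092861440), (330712481792, 47244640256), (618475290624, 68719476736), (721554505728, 34359738368)] rfl (by decide +kernel)
theorem c1_m102_t44 : CovD 0 progs [(260717936640, 7046430720), (212600881152, 23622320128), (755914244096, 68719476736), (721554505728, 34359738368)] :=
  Pool.Agent.helper14.QF.covD_F chks_eq (.n 1 (.n 0 (.l 6) (.n 0 (.l 6) (.n 1 (.l 6) (.n 2 (.n 0 (.l 6) (.n 3 (.n 3 (.l 4) (.l 4)) (.l 6))) (.l 6))))) (.n 2 (.n 0 (.l 6) (.n 3 (.n 3 (.n 0 (.n 3 (.l 4) (.l 4)) (.n 3 (.l 4) (.l 4))) (.n 0 (.n 3 (.l 4) (.l 4)) (.l 4))) (.n 3 (.n 0 (.l 4) (.n 0 (.l 4) (.l 4))) (.n 0 (.l 6) (.n 0 (.l 4) (.l 4)))))) (.l 6)))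
    [(260717936640, 7046430720), (212600881152, 23622320128), (755914244096, 68719476736), (721554505728, 34359738368)] rfl (by decide +kernel)
end
mutual
theorem c1_m102_t45 : CovD 0 progs [(271287582720, 3523215360), (212600881152, 23622320128), (721554505728, 34359738368), (721554505728, 34359738368)] :=
  Pool.Agent.helper14.QF.covD_F chks_eq (.n 3 (.n 3 (.n 0 (.n 0 (.n 0 (.l 4) (.l 4)) (.l 4)) (.n 3 (.l 4) (.l 4))) (.n 0 (.n 3 (.l 4) (.n 0 (.l 4) (.l 4))) (.n 3 (.n 0 (.l 4) (.l 4)) (.l 4)))) (.n 0 (.n 3 (.n 3 (.n 0 (.l 4) (.l 4)) (.l 4)) (.n 0 (.l 4) (.l 4))) (.n 3 (.n 0 (.l 4) (.l 4)) (.l 4))))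
    [(271287582720, 3523215360), (212600881152, 23622320128), (721554505728, 34359738368), (721554505728, 34359738368)] rfl (by decide +kernel)
theorem c1_m102_t46 : CovD 0 progs [(271287582720, 3523215360), (212600881152, 23622320128), (790273982464, 34359738368), (721554505728, 34359738368)] :=
  Pool.Agent.helper14.QF.covD_F chks_eq (.n 1 (.l 6) (.n 2 (.n 0 (.l 6) (.n 3 (.n 3 (.l 4) (.l 4)) (.n 3 (.l 4) (.l 4)))) (.l 6)))
    [(271287582720, 3523215360), (212600881152, 23622320128), (790273982464, 34359738368), (721554505728, 34359738368)] rfl (by decide +kernel)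
end
mutual
theorem c1_m102_t48 : CovD 0 progs [(278334013440, 3523215360), (212600881152, 23622320128), (755914244096, 68719476736), (721554505728, 34359738368)] :=
  Pool.Agent.helper14.QF.covD_F chks_eq (.n 0 (.n 3 (.n 3 (.n 2 (.n 3 (.n 0 (.l 4) (.l 4)) (.l 4)) (.n 3 (.l 4) (.l 4))) (.n 2 (.n 3 (.l 4) (.l 4)) (.n 0 (.l 4) (.l 4)))) (.n 3 (.n 3 (.l 4) (.l 4)) (.l 4))) (.n 0 (.n 3 (.n 2 (.n 3 (.n 0 (.l 4) (.l 4)) (.l 4)) (.n 3 (.l 4) (.l 4))) (.n 3 (.l 4) (.l 4))) (.n 3 (.n 3 (.n 2 (.l 4) (.l 4)) (.l 4)) (.n 3 (.l 4) (.l 4)))))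
    [(278334013440, 3523215360), (212600881152, 23622320128), (755914244096, 68719476736), (721554505728, 34359738368)] rfl (by decide +kernel)
theorem c1_m102_t51 : CovD 0 progs [(267764367360, 14092861440), (259845521408, 23622320128), (755914244096, 68719476736), (721554505728, 34359738368)] :=
  Pool.Agent.helper14.QF.covD_F chks_eq (.l 11)
    [(267764367360, 14092861440), (259845521408, 23622320128), (755914244096, 68719476736), (721554505728, 34359738368)] rfl (by decide +kernel)
end
mutual
theorem c1_m102_t53 : CovD 0 progs [(267764367360, 14092861440), (330712481792, 47244640256), (755914244096, 68719476736), (721554505728, 34359738368)] :=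
  Pool.Agent.helper14.QF.covD_F chks_eq (.l 11)
    [(267764367360, 14092861440), (330712481792, 47244640256), (755914244096, 68719476736), (721554505728, 34359738368)] rfl (by decide +kernel)
theorem c1_m102_t56 : CovD 0 progs [(255433113600, 1761607680), (212600881152, 23622320128), (618475290624, 68719476736), (790273982464, 34359738368)] :=
  Pool.Agent.helper14.QF.covD_F chks_eq (.n 2 (.n 3 (.n 3 (.n 0 (.n 3 (.l 4) (.l 4)) (.n 3 (.l 4) (.l 4))) (.n 3 (.n 0 (.l 4) (.l 4)) (.l 4))) (.n 3 (.n 0 (.l 4) (.l 4)) (.l 4))) (.n 1 (.l 6) (.n 1 (.l 6) (.n 1 (.l 6) (.l 11)))))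
    [(255433113600, 1761607680), (212600881152, 23622320128), (618475290624, 68719476736), (790273982464, 34359738368)] rfl (by decide +kernel)
end
mutual
theorem c1_m102_t57 : CovD 0 progs [(258956328960, 1761607680), (212600881152, 23622320128), (618475290624, 68719476736), (790273982464, 34359738368)] :=
  Pool.Agent.helper14.QF.covD_F chks_eq (.n 3 (.n 3 (.n 0 (.n 2 (.n 3 (.l 4) (.l 4)) (.n 3 (.l 4) (.l 4))) (.n 3 (.n 0 (.l 4) (.l 4)) (.l 4))) (.n 3 (.n 0 (.l 4) (.l 4)) (.l 4))) (.n 3 (.n 0 (.l 4) (.l 4)) (.l 4)))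
    [(258956328960, 1761607680), (212600881152, 23622320128), (618475290624, 68719476736), (790273982464, 34359738368)] rfl (by decide +kernel)
theorem c1_m102_t59 : CovD 0 progs [(257194721280, 3523215360), (212600881152, 23622320128), (755914244096, 68719476736), (790273982464, 34359738368)] :=
  Pool.Agent.helper14.QF.covD_F chks_eq (.l 6)
    [(257194721280, 3523215360), (212600881152, 23622320128), (755914244096, 68719476736), (790273982464, 34359738368)] rfl (by decide +kernel)
end
mutual
theorem c1_m102_t61 : CovD 0 progs [(264241152000, 3523215360), (212600881152, 23622320128), (687194767360, 137438953472), (790273982464, 34359738368)] :=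
  Pool.Agent.helper14.QF.covD_F chks_eq (.n 0 (.n 0 (.n 2 (.n 3 (.n 3 (.n 3 (.l 4) (.l 4)) (.l 4)) (.n 3 (.l 4) (.l 4))) (.l 6)) (.n 2 (.n 3 (.n 3 (.n 3 (.l 4) (.l 4)) (.l 4)) (.n 3 (.l 4) (.l 4))) (.n 1 (.l 6) (.l 6)))) (.n 3 (.n 3 (.n 2 (.n 3 (.l 4) (.l 4)) (.n 3 (.l 4) (.l 4))) (.n 2 (.l 4) (.l 4))) (.n 3 (.l 4) (.l 4))))
    [(264241152000, 3523215360), (212600881152, 23622320128), (687194767360, 137438953472), (790273982464, 34359738368)] rfl (by decide +kernel)
theorem c1_m102_t63 : CovD 0 progs [(274810798080, 7046430720), (212600881152, 23622320128), (687194767360, 137438953472), (790273982464, 34359738368)] :=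
  Pool.Agent.helper14.QF.covD_F chks_eq (.n 0 (.n 0 (.n 3 (.n 3 (.n 3 (.n 0 (.l 4) (.l 4)) (.l 4)) (.l 4)) (.n 3 (.l 4) (.l 4))) (.n 3 (.n 3 (.n 0 (.l 4) (.l 4)) (.l 4)) (.l 4))) (.n 3 (.n 3 (.n 0 (.l 4) (.l 4)) (.l 4)) (.n 0 (.l 4) (.l 4))))
    [(274810798080, 7046430720), (212600881152, 23622320128), (687194767360, 137438953472), (790273982464, 34359738368)] rfl (by decide +kernel)
end
mutual
theorem c1_m102_t65 : CovD 0 progs [(267764367360, 14092861440), (259845521408, 23622320128), (687194767360, 137438953472), (790273982464, 34359738368)] :=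
  Pool.Agent.helper14.QF.covD_F chks_eq (.l 11)
    [(267764367360, 14092861440), (259845521408, 23622320128), (687194767360, 137438953472), (790273982464, 34359738368)] rfl (by decide +kernel)
theorem c1_m102_t67 : CovD 0 progs [(267764367360, 14092861440), (330712481792, 47244640256), (687194767360, 137438953472), (790273982464, 34359738368)] :=
  Pool.Agent.helper14.QF.covD_F chks_eq (.l 11)
    [(267764367360, 14092861440), (330712481792, 47244640256), (687194767360, 137438953472), (790273982464, 34359738368)] rfl (by decide +kernel)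
theorem c1_m102_t70 : CovD 0 progs [(267764367360, 14092861440), (283467841536, 94489280512), (962072674304, 137438953472), (755914244096, 68719476736)] :=
  Pool.Agent.helper14.QF.covD_F chks_eq (.n 1 (.n 1 (.n 0 (.l 6) (.n 2 (.n 0 (.l 6) (.n 1 (.l 6) (.n 1 (.l 6) (.n 1 (.n 1 (.l 6) (.l 11)) (.l 11))))) (.l 6))) (.l 11)) (.l 11))
    [(267764367360, 14092861440), (283467841536, 94489280512), (962072674304, 137438953472), (755914244096, 68719476736)] rfl (by decide +kernel)
end
theorem c1_m102_t4 : CovD 0 progs [(248386682880, 1761607680), (212600881152, 23622320128), (584115552256, 34359738368), (755914244096, 68719476736)] :=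
  covD_split 0 (by decide +kernel) c1_m102_t2 c1_m102_t3
theorem c1_m102_t7 : CovD 0 progs [(251909898240, 1761607680), (212600881152, 23622320128), (584115552256, 34359738368), (755914244096, 68719476736)] :=
  covD_split 0 (by decide +kernel) c1_m102_t5 c1_m102_t6
theorem c1_m102_t8 : CovD 0 progs [(250148290560, 3523215360), (212600881152, 23622320128), (584115552256, 34359738368), (755914244096, 68719476736)] :=
  covD_split 0 (by decide +kernel) c1_m102_t4 c1_m102_t7
theorem c1_m102_t9 : CovD 0 progs [(246625075200, 7046430720), (212600881152, 23622320128), (584115552256, 34359738368), (755914244096, 68719476736)] :=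
  covD_split 0 (by decide +kernel) c1_m102_t1 c1_m102_t8
theorem c1_m102_t10 : CovD 0 progs [(239578644480, 14092861440), (212600881152, 23622320128), (584115552256, 34359738368), (755914244096, 68719476736)] :=
  covD_split 0 (by decide +kernel) c1_m102_t0 c1_m102_t9
theorem c1_m102_t12 : CovD 0 progs [(239578644480, 14092861440), (212600881152, 23622320128), (618475290624, 68719476736), (755914244096, 68719476736)] :=
  covD_split 2 (by decide +kernel) c1_m102_t10 c1_m102_t11
theorem c1_m102_t14 : CovD 0 progs [(239578644480, 14092861440), (212600881152, 23622320128), (687194767360, 137438953472), (755914244096, 68719476736)] :=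
  covD_split 2 (by decide +kernel) c1_m102_t12 c1_m102_t13
theorem c1_m102_t16 : CovD 0 progs [(239578644480, 14092861440), (212600881152, 23622320128), (824633720832, 274877906944), (755914244096, 68719476736)] :=
  covD_split 2 (by decide +kernel) c1_m102_t14 c1_m102_t15
theorem c1_m102_t18 : CovD 0 progs [(239578644480, 14092861440), (236223201280, 47244640256), (824633720832, 274877906944), (755914244096, 68719476736)] :=
  covD_split 1 (by decide +kernel) c1_m102_t16 c1_m102_t17
theorem c1_m102_t20 : CovD 0 progs [(239578644480, 14092861440), (283467841536, 94489280512), (824633720832, 274877906944), (755914244096, 68719476736)] :=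
  covD_split 1 (by decide +kernel) c1_m102_t18 c1_m102_t19
theorem c1_m102_t23 : CovD 0 progs [(267764367360, 14092861440), (212600881152, 23622320128), (618475290624, 68719476736), (691489734656, 4294967296)] :=
  covD_split 0 (by decide +kernel) c1_m102_t21 c1_m102_t22
theorem c1_m102_t26 : CovD 0 progs [(267764367360, 14092861440), (212600881152, 23622320128), (618475290624, 68719476736), (700079669248, 4294967296)] :=
  covD_split 0 (by decide +kernel) c1_m102_t24 c1_m102_t25
theorem c1_m102_t27 : CovD 0 progs [(267764367360, 14092861440), (212600881152, 23622320128), (618475290624, 68719476736), (695784701952, 8589934592)] :=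
  covD_split 3 (by decide +kernel) c1_m102_t23 c1_m102_t26
theorem c1_m102_t30 : CovD 0 progs [(267764367360, 14092861440), (212600881152, 23622320128), (618475290624, 68719476736), (712964571136, 8589934592)] :=
  covD_split 3 (by decide +kernel) c1_m102_t28 c1_m102_t29
theorem c1_m102_t31 : CovD 0 progs [(267764367360, 14092861440), (212600881152, 23622320128), (618475290624, 68719476736), (704374636544, 17179869184)] :=
  covD_split 3 (by decide +kernel) c1_m102_t27 c1_m102_t30
theorem c1_m102_t34 : CovD 0 progs [(267764367360, 14092861440), (212600881152, 23622320128), (618475290624, 68719476736), (730144440320, 8589934592)] :=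
  covD_split 3 (by decide +kernel) c1_m102_t32 c1_m102_t33
theorem c1_m102_t37 : CovD 0 progs [(267764367360, 14092861440), (212600881152, 23622320128), (618475290624, 68719476736), (747324309504, 8589934592)] :=
  covD_split 3 (by decide +kernel) c1_m102_t35 c1_m102_t36
theorem c1_m102_t38 : CovD 0 progs [(267764367360, 14092861440), (212600881152, 23622320128), (618475290624, 68719476736), (738734374912, 17179869184)] :=
  covD_split 3 (by decide +kernel) c1_m102_t34 c1_m102_t37
theorem c1_m102_t39 : CovD 0 progs [(267764367360, 14092861440), (212600881152, 23622320128), (618475290624, 68719476736), (721554505728, 34359738368)] :=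
  covD_split 3 (by decide +kernel) c1_m102_t31 c1_m102_t38
theorem c1_m102_t41 : CovD 0 progs [(267764367360, 14092861440), (236223201280, 47244640256), (618475290624, 68719476736), (721554505728, 34359738368)] :=
  covD_split 1 (by decide +kernel) c1_m102_t39 c1_m102_t40
theorem c1_m102_t43 : CovD 0 progs [(267764367360, 14092861440), (283467841536, 94489280512), (618475290624, 68719476736), (721554505728, 34359738368)] :=
  covD_split 1 (by decide +kernel) c1_m102_t41 c1_m102_t42
theorem c1_m102_t47 : CovD 0 progs [(271287582720, 3523215360), (212600881152, 23622320128), (755914244096, 68719476736), (721554505728, 34359738368)] :=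
  covD_split 2 (by decide +kernel) c1_m102_t45 c1_m102_t46
theorem c1_m102_t49 : CovD 0 progs [(274810798080, 7046430720), (212600881152, 23622320128), (755914244096, 68719476736), (721554505728, 34359738368)] :=
  covD_split 0 (by decide +kernel) c1_m102_t47 c1_m102_t48
theorem c1_m102_t50 : CovD 0 progs [(267764367360, 14092861440), (212600881152, 23622320128), (755914244096, 68719476736), (721554505728, 34359738368)] :=
  covD_split 0 (by decide +kernel) c1_m102_t44 c1_m102_t49
theorem c1_m102_t52 : CovD 0 progs [(267764367360, 14092861440), (236223201280, 47244640256), (755914244096, 68719476736), (721554505728, 34359738368)] :=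
  covD_split 1 (by decide +kernel) c1_m102_t50 c1_m102_t51
theorem c1_m102_t54 : CovD 0 progs [(267764367360, 14092861440), (283467841536, 94489280512), (755914244096, 68719476736), (721554505728, 34359738368)] :=
  covD_split 1 (by decide +kernel) c1_m102_t52 c1_m102_t53
theorem c1_m102_t55 : CovD 0 progs [(267764367360, 14092861440), (283467841536, 94489280512), (687194767360, 137438953472), (721554505728, 34359738368)] :=
  covD_split 2 (by decide +kernel) c1_m102_t43 c1_m102_t54
theorem c1_m102_t58 : CovD 0 progs [(257194721280, 3523215360), (212600881152, 23622320128), (618475290624, 68719476736), (790273982464, 34359738368)] :=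
  covD_split 0 (by decide +kernel) c1_m102_t56 c1_m102_t57
theorem c1_m102_t60 : CovD 0 progs [(257194721280, 3523215360), (212600881152, 23622320128), (687194767360, 137438953472), (790273982464, 34359738368)] :=
  covD_split 2 (by decide +kernel) c1_m102_t58 c1_m102_t59
theorem c1_m102_t62 : CovD 0 progs [(260717936640, 7046430720), (212600881152, 23622320128), (687194767360, 137438953472), (790273982464, 34359738368)] :=
  covD_split 0 (by decide +kernel) c1_m102_t60 c1_m102_t61
theorem c1_m102_t64 : CovD 0 progs [(267764367360, 14092861440), (212600881152, 23622320128), (687194767360, 137438953472), (790273982464, 34359738368)] :=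
  covD_split 0 (by decide +kernel) c1_m102_t62 c1_m102_t63
theorem c1_m102_t66 : CovD 0 progs [(267764367360, 14092861440), (236223201280, 47244640256), (687194767360, 137438953472), (790273982464, 34359738368)] :=
  covD_split 1 (by decide +kernel) c1_m102_t64 c1_m102_t65
theorem c1_m102_t68 : CovD 0 progs [(267764367360, 14092861440), (283467841536, 94489280512), (687194767360, 137438953472), (790273982464, 34359738368)] :=
  covD_split 1 (by decide +kernel) c1_m102_t66 c1_m102_t67
theorem c1_m102_t69 : CovD 0 progs [(267764367360, 14092861440), (283467841536, 94489280512), (687194767360, 137438953472), (755914244096, 68719476736)] :=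
  covD_split 3 (by decide +kernel) c1_m102_t55 c1_m102_t68
theorem c1_m102_t71 : CovD 0 progs [(267764367360, 14092861440), (283467841536, 94489280512), (824633720832, 274877906944), (755914244096, 68719476736)] :=
  covD_split 2 (by decide +kernel) c1_m102_t69 c1_m102_t70
theorem c1_m102 : CovD 0 progs [(253671505920, 28185722880), (283467841536, 94489280512), (824633720832, 274877906944), (755914244096, 68719476736)] :=
  covD_split 0 (by decide +kernel) c1_m102_t20 c1_m102_t71

end Pool.Agent.helper71.FJ.Crt.QMa
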