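import Pool.Agent.helper71.FJ.Crt.QMaP

/-!
Generated certificates.
-/

namespace Pool.Agent.helper71.FJ.Crt.QMa

open Pool.Agent.helper31.IA (Z Op)
open Pool.Agent.helper31.IC

mutual
theorem c1_m104_t0 : CovD 0 progs [(282738032640, 880803840), (212600881152, 23622320128), (687194767360, 137438953472), (584115552256, 34359738368)] :=
  Pool.Agent.helper14.QF.covD_F chks_eq (.n 3 (.n 3 (.l 4) (.n 2 (.l 4) (.l 4))) (.n 2 (.n 3 (.n 0 (.l 4) (.l 4)) (.n 3 (.l 4) (.n 0 (.l 4) (.l 4)))) (.n 2 (.n 3 (.l 4) (.l 4)) (.n 3 (.l 4) (.l 4)))))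
    [(282738032640, 880803840), (212600881152, 23622320128), (687194767360, 137438953472), (584115552256, 34359738368)] rfl (by decide +kernel)
theorem c1_m104_t1 : CovD 0 progs [(284499640320, 880803840), (212600881152, 23622320128), (687194767360, 137438953472), (584115552256, 34359738368)] :=
  Pool.Agent.helper14.QF.covD_F chks_eq (.n 2 (.n 3 (.n 3 (.l 4) (.l 4)) (.n 2 (.n 3 (.l 4) (.n 0 (.l 4) (.l 4))) (.n 3 (.l 4) (.n 0 (.l 4) (.l 4))))) (.n 3 (.n 3 (.l 4) (.l 4)) (.n 2 (.n 3 (.l 4) (.n 0 (.l 4) (.l 4))) (.n 3 (.l 4) (.l 4)))))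
    [(284499640320, 880803840), (212600881152, 23622320128), (687194767360, 137438953472), (584115552256, 34359738368)] rfl (by decide +kernel)
end
mutual
theorem c1_m104_t3 : CovD 0 progs [(283618836480, 1761607680), (212600881152, 23622320128), (962072674304, 137438953472), (584115552256, 34359738368)] :=
  Pool.Agent.helper14.QF.covD_F chks_eq (.n 2 (.n 0 (.n 2 (.n 3 (.l 4) (.n 3 (.l 4) (.l 4))) (.l 6)) (.n 3 (.n 3 (.l 4) (.l 4)) (.n 2 (.n 3 (.l 4) (.l 4)) (.n 1 (.l 6) (.l 4))))) (.l 6))
    [(283618836480, 1761607680), (212600881152, 23622320128), (962072674304, 137438953472), (584115552256, 34359738368)] rfl (by decide +kernel)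
theorem c1_m104_t5 : CovD 0 progs [(286261248000, 880803840), (212600881152, 23622320128), (824633720832, 274877906944), (584115552256, 34359738368)] :=
  Pool.Agent.helper14.QF.covD_F chks_eq (.n 2 (.n 2 (.n 3 (.n 3 (.l 4) (.l 4)) (.n 2 (.n 3 (.l 4) (.n 0 (.l 4) (.l 4))) (.n 3 (.l 4) (.n 0 (.l 4) (.l 4))))) (.n 3 (.n 3 (.l 4) (.n 0 (.l 4) (.l 4))) (.n 2 (.n 3 (.l 4) (.n 0 (.l 4) (.l 4))) (.n 3 (.l 4) (.l 4))))) (.n 2 (.n 2 (.n 3 (.n 3 (.l 4) (.l 4)) (.n 3 (.l 4) (.l 4))) (.n 1 (.l 6) (.n 3 (.l 4) (.l 4)))) (.l 6)))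
    [(286261248000, 880803840), (212600881152, 23622320128), (824633720832, 274877906944), (584115552256, 34359738368)] rfl (by decide +kernel)
end
mutual
theorem c1_m104_t6 : CovD 0 progs [(288022855680, 880803840), (212600881152, 23622320128), (824633720832, 274877906944), (584115552256, 34359738368)] :=
  Pool.Agent.helper14.QF.covD_F chks_eq (.n 2 (.n 2 (.n 3 (.n 3 (.l 4) (.n 0 (.l 4) (.l 4))) (.n 3 (.n 3 (.l 4) (.n 0 (.l 4) (.l 4))) (.n 2 (.n 0 (.l 4) (.l 4)) (.l 4)))) (.n 3 (.n 3 (.l 4) (.n 1 (.l 4) (.l 4))) (.n 2 (.n 3 (.l 4) (.l 4)) (.n 3 (.l 4) (.l 4))))) (.n 2 (.n 2 (.n 3 (.n 3 (.l 4) (.l 4)) (.n 3 (.l 4) (.l 4))) (.n 1 (.l 6) (.n 3 (.l 4) (.l 4)))) (.l 6)))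
    [(288022855680, 880803840), (212600881152, 23622320128), (824633720832, 274877906944), (584115552256, 34359738368)] rfl (by decide +kernel)
theorem c1_m104_t9 : CovD 0 progs [(289784463360, 880803840), (212600881152, 23622320128), (687194767360, 137438953472), (584115552256, 34359738368)] :=
  Pool.Agent.helper14.QF.covD_F chks_eq (.n 2 (.n 3 (.n 3 (.l 4) (.n 2 (.l 4) (.l 4))) (.n 2 (.n 3 (.n 0 (.l 4) (.l 4)) (.l 4)) (.n 3 (.n 0 (.l 4) (.l 4)) (.l 4)))) (.n 2 (.n 3 (.n 3 (.l 4) (.l 4)) (.n 3 (.l 4) (.l 4))) (.n 3 (.n 3 (.l 4) (.l 4)) (.n 3 (.l 4) (.l 4)))))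
    [(289784463360, 880803840), (212600881152, 23622320128), (687194767360, 137438953472), (584115552256, 34359738368)] rfl (by decide +kernel)
end
mutual
theorem c1_m104_t10 : CovD 0 progs [(291546071040, 880803840), (212600881152, 23622320128), (687194767360, 137438953472), (584115552256, 34359738368)] :=
  Pool.Agent.helper14.QF.covD_F chks_eq (.n 2 (.n 2 (.n 3 (.n 3 (.l 4) (.n 0 (.l 4) (.l 4))) (.n 3 (.l 4) (.l 4))) (.n 3 (.n 3 (.l 4) (.l 4)) (.n 3 (.l 4) (.l 4)))) (.n 2 (.n 3 (.n 3 (.l 4) (.l 4)) (.n 3 (.l 4) (.l 4))) (.n 3 (.n 3 (.l 4) (.l 4)) (.n 1 (.l 4) (.l 4)))))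
    [(291546071040, 880803840), (212600881152, 23622320128), (687194767360, 137438953472), (584115552256, 34359738368)] rfl (by decide +kernel)
theorem c1_m104_t12 : CovD 0 progs [(290665267200, 1761607680), (212600881152, 23622320128), (962072674304, 137438953472), (584115552256, 34359738368)] :=
  Pool.Agent.helper14.QF.covD_F chks_eq (.n 2 (.n 2 (.n 1 (.n 3 (.n 3 (.l 4) (.l 4)) (.n 0 (.l 4) (.l 4))) (.n 3 (.n 0 (.l 4) (.l 4)) (.l 4))) (.n 1 (.n 1 (.l 6) (.l 6)) (.n 3 (.n 0 (.l 4) (.l 4)) (.l 4)))) (.n 1 (.l 6) (.l 6)))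
    [(290665267200, 1761607680), (212600881152, 23622320128), (962072674304, 137438953472), (584115552256, 34359738368)] rfl (by decide +kernel)
end
mutual
theorem c1_m104_t14 : CovD 0 progs [(294188482560, 1761607680), (212600881152, 23622320128), (618475290624, 68719476736), (584115552256, 34359738368)] :=
  Pool.Agent.helper14.QF.covD_F chks_eq (.n 2 (.n 3 (.n 0 (.n 3 (.l 4) (.n 0 (.l 4) (.l 4))) (.n 3 (.l 4) (.l 4))) (.n 3 (.l 4) (.n 0 (.l 4) (.l 4)))) (.n 3 (.n 0 (.n 3 (.l 4) (.l 4)) (.n 3 (.l 4) (.l 4))) (.n 3 (.l 4) (.n 0 (.l 4) (.l 4)))))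
    [(294188482560, 1761607680), (212600881152, 23622320128), (618475290624, 68719476736), (584115552256, 34359738368)] rfl (by decide +kernel)
theorem c1_m104_t15 : CovD 0 progs [(294188482560, 1761607680), (212600881152, 23622320128), (755914244096, 68719476736), (584115552256, 34359738368)] :=
  Pool.Agent.helper14.QF.covD_F chks_eq (.n 2 (.n 3 (.n 0 (.n 3 (.l 4) (.l 4)) (.n 3 (.l 4) (.l 4))) (.n 3 (.l 4) (.n 0 (.l 4) (.l 4)))) (.n 1 (.n 3 (.n 3 (.l 4) (.l 4)) (.n 0 (.l 4) (.l 4))) (.n 3 (.n 3 (.l 4) (.l 4)) (.l 4))))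
    [(294188482560, 1761607680), (212600881152, 23622320128), (755914244096, 68719476736), (584115552256, 34359738368)] rfl (by decide +kernel)
end
mutual
theorem c1_m104_t17 : CovD 0 progs [(294188482560, 1761607680), (212600881152, 23622320128), (962072674304, 137438953472), (584115552256, 34359738368)] :=
  Pool.Agent.helper14.QF.covD_F chks_eq (.n 2 (.n 1 (.n 2 (.n 3 (.n 3 (.l 4) (.l 4)) (.l 4)) (.n 1 (.l 6) (.n 3 (.l 4) (.l 4)))) (.n 2 (.n 3 (.n 0 (.l 4) (.l 4)) (.l 4)) (.n 3 (.l 4) (.l 4)))) (.n 1 (.l 6) (.n 1 (.l 6) (.n 1 (.l 6) (.l 11)))))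
    [(294188482560, 1761607680), (212600881152, 23622320128), (962072674304, 137438953472), (584115552256, 34359738368)] rfl (by decide +kernel)
theorem c1_m104_t21 : CovD 0 progs [(299473305600, 3523215360), (212600881152, 23622320128), (687194767360, 137438953472), (566935683072, 17179869184)] :=
  Pool.Agent.helper14.QF.covD_F chks_eq (.n 2 (.n 2 (.n 0 (.n 3 (.n 0 (.l 4) (.l 4)) (.l 4)) (.n 3 (.l 4) (.n 0 (.l 4) (.l 4)))) (.n 0 (.n 3 (.n 0 (.l 4) (.l 4)) (.l 4)) (.n 3 (.l 4) (.n 0 (.l 4) (.l 4))))) (.n 0 (.n 2 (.n 3 (.n 0 (.l 4) (.l 4)) (.l 4)) (.n 3 (.n 0 (.l 4) (.l 4)) (.l 4))) (.n 2 (.n 0 (.l 4) (.n 1 (.l 4) (.l 4))) (.n 3 (.l 4) (.l 4)))))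
    [(299473305600, 3523215360), (212600881152, 23622320128), (687194767360, 137438953472), (566935683072, 17179869184)] rfl (by decide +kernel)
end
mutual
theorem c1_m104_t22 : CovD 0 progs [(299473305600, 3523215360), (212600881152, 23622320128), (687194767360, 137438953472), (592705486848, 8589934592)] :=
  Pool.Agent.helper14.QF.covD_F chks_eq (.n 0 (.n 0 (.n 1 (.n 2 (.l 4) (.l 4)) (.n 2 (.l 4) (.l 4))) (.n 2 (.n 2 (.l 4) (.l 4)) (.n 2 (.l 4) (.l 4)))) (.n 0 (.n 2 (.n 2 (.l 4) (.l 4)) (.n 2 (.l 4) (.l 4))) (.n 1 (.n 2 (.l 4) (.l 4)) (.n 2 (.l 4) (.l 4)))))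
    [(299473305600, 3523215360), (212600881152, 23622320128), (687194767360, 137438953472), (592705486848, 8589934592)] rfl (by decide +kernel)
theorem c1_m104_t23 : CovD 0 progs [(299473305600, 3523215360), (212600881152, 23622320128), (687194767360, 137438953472), (609885356032, 8589934592)] :=
  Pool.Agent.helper14.QF.covD_F chks_eq (.n 0 (.n 0 (.n 2 (.n 2 (.l 4) (.l 4)) (.n 2 (.l 4) (.l 4))) (.n 2 (.n 2 (.l 4) (.l 4)) (.n 1 (.l 4) (.l 4)))) (.n 0 (.n 1 (.n 2 (.l 4) (.l 4)) (.n 2 (.l 4) (.l 4))) (.n 2 (.l 4) (.n 0 (.l 4) (.l 4)))))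
    [(299473305600, 3523215360), (212600881152, 23622320128), (687194767360, 137438953472), (609885356032, 8589934592)] rfl (by decide +kernel)
end
mutual
theorem c1_m104_t26 : CovD 0 progs [(299473305600, 3523215360), (212600881152, 23622320128), (962072674304, 137438953472), (584115552256, 34359738368)] :=
  Pool.Agent.helper14.QF.covD_F chks_eq (.n 2 (.n 2 (.n 0 (.n 3 (.n 1 (.l 4) (.l 4)) (.n 3 (.l 4) (.n 0 (.l 4) (.l 4)))) (.n 3 (.n 1 (.l 4) (.l 4)) (.n 3 (.n 0 (.l 4) (.l 4)) (.l 4)))) (.n 3 (.n 1 (.l 4) (.l 4)) (.n 0 (.n 3 (.l 4) (.l 4)) (.n 3 (.l 4) (.l 4))))) (.n 1 (.n 1 (.l 6) (.n 2 (.l 6) (.l 6))) (.n 2 (.n 3 (.l 4) (.n 0 (.l 4) (.l 4))) (.l 6))))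
    [(299473305600, 3523215360), (212600881152, 23622320128), (962072674304, 137438953472), (584115552256, 34359738368)] rfl (by decide +kernel)
theorem c1_m104_t28 : CovD 0 progs [(304758128640, 1761607680), (212600881152, 23622320128), (618475290624, 68719476736), (584115552256, 34359738368)] :=
  Pool.Agent.helper14.QF.covD_F chks_eq (.n 0 (.n 3 (.n 2 (.n 3 (.l 4) (.l 4)) (.n 3 (.l 4) (.l 4))) (.n 3 (.n 0 (.l 4) (.l 4)) (.l 4))) (.n 3 (.n 2 (.n 3 (.l 4) (.l 4)) (.n 3 (.l 4) (.l 4))) (.n 3 (.l 4) (.l 4))))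
    [(304758128640, 1761607680), (212600881152, 23622320128), (618475290624, 68719476736), (584115552256, 34359738368)] rfl (by decide +kernel)
end
mutual
theorem c1_m104_t29 : CovD 0 progs [(304758128640, 1761607680), (212600881152, 23622320128), (755914244096, 68719476736), (584115552256, 34359738368)] :=
  Pool.Agent.helper14.QF.covD_F chks_eq (.n 2 (.n 3 (.n 0 (.n 3 (.l 4) (.l 4)) (.n 3 (.l 4) (.l 4))) (.n 3 (.n 0 (.l 4) (.l 4)) (.l 4))) (.n 3 (.n 3 (.l 4) (.n 0 (.l 4) (.l 4))) (.n 3 (.l 4) (.l 4))))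
    [(304758128640, 1761607680), (212600881152, 23622320128), (755914244096, 68719476736), (584115552256, 34359738368)] rfl (by decide +kernel)
theorem c1_m104_t31 : CovD 0 progs [(304758128640, 1761607680), (212600881152, 23622320128), (962072674304, 137438953472), (584115552256, 34359738368)] :=
  Pool.Agent.helper14.QF.covD_F chks_eq (.n 2 (.n 2 (.n 3 (.n 3 (.l 4) (.l 4)) (.n 3 (.l 4) (.l 4))) (.n 3 (.n 1 (.l 4) (.l 4)) (.n 3 (.l 4) (.l 4)))) (.n 1 (.n 2 (.n 3 (.l 4) (.l 4)) (.l 6)) (.n 0 (.n 3 (.l 4) (.l 4)) (.n 3 (.l 4) (.l 4)))))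
    [(304758128640, 1761607680), (212600881152, 23622320128), (962072674304, 137438953472), (584115552256, 34359738368)] rfl (by decide +kernel)
end
mutual
theorem c1_m104_t33 : CovD 0 progs [(308281344000, 1761607680), (212600881152, 23622320128), (687194767360, 137438953472), (584115552256, 34359738368)] :=
  Pool.Agent.helper14.QF.covD_F chks_eq (.n 2 (.n 3 (.n 0 (.n 1 (.n 3 (.l 4) (.l 4)) (.n 3 (.l 4) (.l 4))) (.n 3 (.n 0 (.l 4) (.l 4)) (.l 4))) (.n 3 (.n 0 (.l 4) (.l 4)) (.l 4))) (.n 3 (.n 2 (.n 3 (.n 0 (.l 4) (.l 4)) (.l 4)) (.n 3 (.n 0 (.l 4) (.l 4)) (.l 4))) (.n 3 (.n 0 (.l 4) (.l 4)) (.l 4))))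
    [(308281344000, 1761607680), (212600881152, 23622320128), (687194767360, 137438953472), (584115552256, 34359738368)] rfl (by decide +kernel)
theorem c1_m104_t34 : CovD 0 progs [(308281344000, 1761607680), (212600881152, 23622320128), (962072674304, 137438953472), (584115552256, 34359738368)] :=
  Pool.Agent.helper14.QF.covD_F chks_eq (.n 2 (.n 3 (.n 2 (.n 3 (.l 4) (.l 4)) (.n 3 (.l 4) (.l 4))) (.n 3 (.n 0 (.l 4) (.l 4)) (.l 4))) (.n 1 (.n 2 (.n 3 (.l 4) (.l 4)) (.l 6)) (.n 0 (.n 3 (.l 4) (.l 4)) (.n 3 (.l 4) (.l 4)))))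
    [(308281344000, 1761607680), (212600881152, 23622320128), (962072674304, 137438953472), (584115552256, 34359738368)] rfl (by decide +kernel)
end
mutual
theorem c1_m104_t39 : CovD 0 progs [(295950090240, 14092861440), (259845521408, 23622320128), (824633720832, 274877906944), (584115552256, 34359738368)] :=
  Pool.Agent.helper14.QF.covD_F chks_eq (.l 11)
    [(295950090240, 14092861440), (259845521408, 23622320128), (824633720832, 274877906944), (584115552256, 34359738368)] rfl (by decide +kernel)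
theorem c1_m104_t41 : CovD 0 progs [(295950090240, 14092861440), (330712481792, 47244640256), (824633720832, 274877906944), (584115552256, 34359738368)] :=
  Pool.Agent.helper14.QF.covD_F chks_eq (.l 11)
    [(295950090240, 14092861440), (330712481792, 47244640256), (824633720832, 274877906944), (584115552256, 34359738368)] rfl (by decide +kernel)
end
theorem c1_m104_t2 : CovD 0 progs [(283618836480, 1761607680), (212600881152, 23622320128), (687194767360, 137438953472), (584115552256, 34359738368)] :=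
  covD_split 0 (by decide +kernel) c1_m104_t0 c1_m104_t1
theorem c1_m104_t4 : CovD 0 progs [(283618836480, 1761607680), (212600881152, 23622320128), (824633720832, 274877906944), (584115552256, 34359738368)] :=
  covD_split 2 (by decide +kernel) c1_m104_t2 c1_m104_t3
theorem c1_m104_t7 : CovD 0 progs [(287142051840, 1761607680), (212600881152, 23622320128), (824633720832, 274877906944), (584115552256, 34359738368)] :=
  covD_split 0 (by decide +kernel) c1_m104_t5 c1_m104_t6
theorem c1_m104_t8 : CovD 0 progs [(285380444160, 3523215360), (212600881152, 23622320128), (824633720832, 274877906944), (584115552256, 34359738368)] :=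
  covD_split 0 (by decide +kernel) c1_m104_t4 c1_m104_t7
theorem c1_m104_t11 : CovD 0 progs [(290665267200, 1761607680), (212600881152, 23622320128), (687194767360, 137438953472), (584115552256, 34359738368)] :=
  covD_split 0 (by decide +kernel) c1_m104_t9 c1_m104_t10
theorem c1_m104_t13 : CovD 0 progs [(290665267200, 1761607680), (212600881152, 23622320128), (824633720832, 274877906944), (584115552256, 34359738368)] :=
  covD_split 2 (by decide +kernel) c1_m104_t11 c1_m104_t12
theorem c1_m104_t16 : CovD 0 progs [(294188482560, 1761607680), (212600881152, 23622320128), (687194767360, 137438953472), (584115552256, 34359738368)] :=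
  covD_split 2 (by decide +kernel) c1_m104_t14 c1_m104_t15
theorem c1_m104_t18 : CovD 0 progs [(294188482560, 1761607680), (212600881152, 23622320128), (824633720832, 274877906944), (584115552256, 34359738368)] :=
  covD_split 2 (by decide +kernel) c1_m104_t16 c1_m104_t17
theorem c1_m104_t19 : CovD 0 progs [(292426874880, 3523215360), (212600881152, 23622320128), (824633720832, 274877906944), (584115552256, 34359738368)] :=
  covD_split 0 (by decide +kernel) c1_m104_t13 c1_m104_t18
theorem c1_m104_t20 : CovD 0 progs [(288903659520, 7046430720), (212600881152, 23622320128), (824633720832, 274877906944), (584115552256, 34359738368)] :=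
  covD_split 0 (by decide +kernel) c1_m104_t8 c1_m104_t19
theorem c1_m104_t24 : CovD 0 progs [(299473305600, 3523215360), (212600881152, 23622320128), (687194767360, 137438953472), (601295421440, 17179869184)] :=
  covD_split 3 (by decide +kernel) c1_m104_t22 c1_m104_t23
theorem c1_m104_t25 : CovD 0 progs [(299473305600, 3523215360), (212600881152, 23622320128), (687194767360, 137438953472), (584115552256, 34359738368)] :=
  covD_split 3 (by decide +kernel) c1_m104_t21 c1_m104_t24
theorem c1_m104_t27 : CovD 0 progs [(299473305600, 3523215360), (212600881152, 23622320128), (824633720832, 274877906944), (584115552256, 34359738368)] :=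
  covD_split 2 (by decide +kernel) c1_m104_t25 c1_m104_t26
theorem c1_m104_t30 : CovD 0 progs [(304758128640, 1761607680), (212600881152, 23622320128), (687194767360, 137438953472), (584115552256, 34359738368)] :=
  covD_split 2 (by decide +kernel) c1_m104_t28 c1_m104_t29
theorem c1_m104_t32 : CovD 0 progs [(304758128640, 1761607680), (212600881152, 23622320128), (824633720832, 274877906944), (584115552256, 34359738368)] :=
  covD_split 2 (by decide +kernel) c1_m104_t30 c1_m104_t31
theorem c1_m104_t35 : CovD 0 progs [(308281344000, 1761607680), (212600881152, 23622320128), (824633720832, 274877906944), (584115552256, 34359738368)] :=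
  covD_split 2 (by decide +kernel) c1_m104_t33 c1_m104_t34
theorem c1_m104_t36 : CovD 0 progs [(306519736320, 3523215360), (212600881152, 23622320128), (824633720832, 274877906944), (584115552256, 34359738368)] :=
  covD_split 0 (by decide +kernel) c1_m104_t32 c1_m104_t35
theorem c1_m104_t37 : CovD 0 progs [(302996520960, 7046430720), (212600881152, 23622320128), (824633720832, 274877906944), (584115552256, 34359738368)] :=
  covD_split 0 (by decide +kernel) c1_m104_t27 c1_m104_t36
theorem c1_m104_t38 : CovD 0 progs [(295950090240, 14092861440), (212600881152, 23622320128), (824633720832, 274877906944), (584115552256, 34359738368)] :=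
  covD_split 0 (by decide +kernel) c1_m104_t20 c1_m104_t37
theorem c1_m104_t40 : CovD 0 progs [(295950090240, 14092861440), (236223201280, 47244640256), (824633720832, 274877906944), (584115552256, 34359738368)] :=
  covD_split 1 (by decide +kernel) c1_m104_t38 c1_m104_t39
theorem c1_m104 : CovD 0 progs [(295950090240, 14092861440), (283467841536, 94489280512), (824633720832, 274877906944), (584115552256, 34359738368)] :=
  covD_split 1 (by decide +kernel) c1_m104_t40 c1_m104_t41

end Pool.Agent.helper71.FJ.Crt.QMa
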