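import Pool.Agent.helper71.FJ.Crt.QMaP

/-!
Generated certificates.
-/

namespace Pool.Agent.helper71.FJ.Crt.QMa

open Pool.Agent.helper31.IA (Z Op)
open Pool.Agent.helper31.IC

mutual
theorem c1_m105_t0 : CovD 0 progs [(283618836480, 1761607680), (212600881152, 23622320128), (618475290624, 68719476736), (652835028992, 34359738368)] :=
  Pool.Agent.helper14.QF.covD_F chks_eq (.n 2 (.n 3 (.n 3 (.n 0 (.n 0 (.l 4) (.l 4)) (.n 0 (.l 4) (.l 4))) (.l 4)) (.n 3 (.n 3 (.l 4) (.n 0 (.l 4) (.l 4))) (.n 3 (.l 4) (.l 4)))) (.n 3 (.n 3 (.n 0 (.n 0 (.l 4) (.l 4)) (.n 0 (.l 4) (.l 4))) (.l 4)) (.n 3 (.n 3 (.l 4) (.l 4)) (.n 3 (.l 4) (.l 4)))))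
    [(283618836480, 1761607680), (212600881152, 23622320128), (618475290624, 68719476736), (652835028992, 34359738368)] rfl (by decide +kernel)
theorem c1_m105_t1 : CovD 0 progs [(283618836480, 1761607680), (212600881152, 23622320128), (755914244096, 68719476736), (652835028992, 34359738368)] :=
  Pool.Agent.helper14.QF.covD_F chks_eq (.n 2 (.n 3 (.n 3 (.n 0 (.n 0 (.l 4) (.l 4)) (.l 4)) (.l 4)) (.n 3 (.n 3 (.l 4) (.l 4)) (.n 3 (.l 4) (.l 4)))) (.n 3 (.n 3 (.n 0 (.l 4) (.l 4)) (.l 4)) (.n 0 (.n 3 (.l 4) (.l 4)) (.n 3 (.l 4) (.l 4)))))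
    [(283618836480, 1761607680), (212600881152, 23622320128), (755914244096, 68719476736), (652835028992, 34359738368)] rfl (by decide +kernel)
end
mutual
theorem c1_m105_t3 : CovD 0 progs [(283618836480, 1761607680), (212600881152, 23622320128), (962072674304, 137438953472), (652835028992, 34359738368)] :=
  Pool.Agent.helper14.QF.covD_F chks_eq (.n 2 (.n 2 (.n 3 (.n 3 (.n 0 (.l 4) (.l 4)) (.l 4)) (.n 1 (.l 6) (.n 3 (.l 4) (.l 4)))) (.l 6)) (.l 6))
    [(283618836480, 1761607680), (212600881152, 23622320128), (962072674304, 137438953472), (652835028992, 34359738368)] rfl (by decide +kernel)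
theorem c1_m105_t5 : CovD 0 progs [(287142051840, 1761607680), (212600881152, 23622320128), (618475290624, 68719476736), (652835028992, 34359738368)] :=
  Pool.Agent.helper14.QF.covD_F chks_eq (.n 3 (.n 2 (.n 3 (.l 4) (.n 3 (.l 4) (.l 4))) (.n 3 (.l 4) (.n 0 (.l 4) (.l 4)))) (.n 3 (.n 2 (.n 3 (.l 4) (.l 4)) (.n 3 (.l 4) (.l 4))) (.n 0 (.n 0 (.l 4) (.l 4)) (.l 4))))
    [(287142051840, 1761607680), (212600881152, 23622320128), (618475290624, 68719476736), (652835028992, 34359738368)] rfl (by decide +kernel)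
end
mutual
theorem c1_m105_t6 : CovD 0 progs [(287142051840, 1761607680), (212600881152, 23622320128), (755914244096, 68719476736), (652835028992, 34359738368)] :=
  Pool.Agent.helper14.QF.covD_F chks_eq (.n 3 (.n 2 (.n 3 (.l 4) (.n 0 (.l 4) (.l 4))) (.n 3 (.l 4) (.n 0 (.l 4) (.l 4)))) (.n 3 (.n 0 (.n 2 (.l 4) (.l 4)) (.n 2 (.l 4) (.l 4))) (.n 3 (.n 0 (.l 4) (.l 4)) (.l 4))))
    [(287142051840, 1761607680), (212600881152, 23622320128), (755914244096, 68719476736), (652835028992, 34359738368)] rfl (by decide +kernel)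
theorem c1_m105_t8 : CovD 0 progs [(287142051840, 1761607680), (212600881152, 23622320128), (962072674304, 137438953472), (652835028992, 34359738368)] :=
  Pool.Agent.helper14.QF.covD_F chks_eq (.n 1 (.n 2 (.n 2 (.n 2 (.n 3 (.l 4) (.n 3 (.l 4) (.l 4))) (.l 6)) (.l 6)) (.l 6)) (.n 2 (.n 2 (.n 3 (.l 4) (.n 3 (.l 4) (.l 4))) (.n 1 (.l 6) (.n 1 (.l 6) (.l 11)))) (.l 6)))
    [(287142051840, 1761607680), (212600881152, 23622320128), (962072674304, 137438953472), (652835028992, 34359738368)] rfl (by decide +kernel)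
end
mutual
theorem c1_m105_t11 : CovD 0 progs [(289784463360, 880803840), (212600881152, 23622320128), (687194767360, 137438953472), (652835028992, 34359738368)] :=
  Pool.Agent.helper14.QF.covD_F chks_eq (.n 2 (.n 3 (.n 2 (.n 3 (.l 4) (.n 0 (.l 4) (.l 4))) (.n 3 (.l 4) (.l 4))) (.n 3 (.n 0 (.l 4) (.l 4)) (.l 4))) (.n 3 (.n 2 (.n 3 (.l 4) (.l 4)) (.n 3 (.l 4) (.l 4))) (.n 3 (.n 1 (.l 4) (.l 4)) (.l 4))))
    [(289784463360, 880803840), (212600881152, 23622320128), (687194767360, 137438953472), (652835028992, 34359738368)] rfl (by decide +kernel)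
theorem c1_m105_t12 : CovD 0 progs [(291546071040, 880803840), (212600881152, 23622320128), (687194767360, 137438953472), (652835028992, 34359738368)] :=
  Pool.Agent.helper14.QF.covD_F chks_eq (.n 2 (.n 3 (.n 2 (.n 3 (.l 4) (.l 4)) (.n 3 (.l 4) (.l 4))) (.n 3 (.l 4) (.l 4))) (.n 3 (.n 2 (.n 3 (.l 4) (.l 4)) (.n 3 (.l 4) (.l 4))) (.n 3 (.n 0 (.l 4) (.l 4)) (.l 4))))
    [(291546071040, 880803840), (212600881152, 23622320128), (687194767360, 137438953472), (652835028992, 34359738368)] rfl (by decide +kernel)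
end
mutual
theorem c1_m105_t14 : CovD 0 progs [(290665267200, 1761607680), (212600881152, 23622320128), (962072674304, 137438953472), (652835028992, 34359738368)] :=
  Pool.Agent.helper14.QF.covD_F chks_eq (.n 2 (.n 2 (.n 3 (.n 0 (.n 3 (.l 4) (.l 4)) (.n 3 (.l 4) (.l 4))) (.n 3 (.l 4) (.l 4))) (.n 1 (.l 6) (.n 0 (.n 3 (.l 4) (.l 4)) (.n 3 (.l 4) (.l 4))))) (.l 6))
    [(290665267200, 1761607680), (212600881152, 23622320128), (962072674304, 137438953472), (652835028992, 34359738368)] rfl (by decide +kernel)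
theorem c1_m105_t16 : CovD 0 progs [(294188482560, 1761607680), (212600881152, 23622320128), (687194767360, 137438953472), (652835028992, 34359738368)] :=
  Pool.Agent.helper14.QF.covD_F chks_eq (.n 0 (.n 2 (.n 3 (.n 2 (.n 3 (.l 4) (.l 4)) (.n 3 (.l 4) (.l 4))) (.n 3 (.l 4) (.l 4))) (.n 3 (.n 2 (.n 3 (.l 4) (.l 4)) (.n 3 (.l 4) (.l 4))) (.n 3 (.l 4) (.l 4)))) (.n 3 (.n 2 (.n 3 (.n 2 (.l 4) (.l 4)) (.l 4)) (.n 2 (.n 3 (.l 4) (.l 4)) (.n 3 (.l 4) (.l 4)))) (.n 3 (.n 2 (.l 4) (.l 4)) (.l 4))))
    [(294188482560, 1761607680), (212600881152, 23622320128), (687194767360, 137438953472), (652835028992, 34359738368)] rfl (by decide +kernel)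
end
mutual
theorem c1_m105_t17 : CovD 0 progs [(294188482560, 1761607680), (212600881152, 23622320128), (962072674304, 137438953472), (652835028992, 34359738368)] :=
  Pool.Agent.helper14.QF.covD_F chks_eq (.n 2 (.n 3 (.n 2 (.n 3 (.n 0 (.l 4) (.l 4)) (.l 4)) (.n 3 (.l 4) (.l 4))) (.n 3 (.n 0 (.l 4) (.l 4)) (.l 4))) (.n 1 (.l 6) (.n 1 (.l 6) (.l 6))))
    [(294188482560, 1761607680), (212600881152, 23622320128), (962072674304, 137438953472), (652835028992, 34359738368)] rfl (by decide +kernel)
theorem c1_m105_t21 : CovD 0 progs [(297711697920, 1761607680), (212600881152, 23622320128), (824633720832, 274877906944), (652835028992, 34359738368)] :=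
  Pool.Agent.helper14.QF.covD_F chks_eq (.n 2 (.n 3 (.n 0 (.n 2 (.n 3 (.n 0 (.l 4) (.l 4)) (.l 4)) (.n 3 (.n 1 (.l 4) (.l 4)) (.l 4))) (.n 2 (.n 3 (.l 4) (.l 4)) (.n 3 (.n 0 (.l 4) (.l 4)) (.l 4)))) (.n 3 (.n 2 (.l 4) (.l 4)) (.l 4))) (.n 2 (.n 3 (.n 2 (.n 3 (.l 4) (.l 4)) (.n 3 (.l 4) (.l 4))) (.n 3 (.l 4) (.l 4))) (.n 1 (.l 6) (.n 2 (.n 3 (.l 4) (.l 4)) (.l 6)))))
    [(297711697920, 1761607680), (212600881152, 23622320128), (824633720832, 274877906944), (652835028992, 34359738368)] rfl (by decide +kernel)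
end
mutual
theorem c1_m105_t22 : CovD 0 progs [(301234913280, 1761607680), (212600881152, 23622320128), (824633720832, 274877906944), (652835028992, 34359738368)] :=
  Pool.Agent.helper14.QF.covD_F chks_eq (.n 2 (.n 3 (.n 2 (.n 3 (.n 0 (.l 4) (.l 4)) (.l 4)) (.n 3 (.n 0 (.l 4) (.l 4)) (.l 4))) (.n 3 (.l 4) (.l 4))) (.n 2 (.n 3 (.n 3 (.n 0 (.l 4) (.l 4)) (.l 4)) (.n 0 (.l 4) (.l 4))) (.n 1 (.l 6) (.n 2 (.n 3 (.l 4) (.l 4)) (.l 6)))))
    [(301234913280, 1761607680), (212600881152, 23622320128), (824633720832, 274877906944), (652835028992, 34359738368)] rfl (by decide +kernel)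
theorem c1_m105_t24 : CovD 0 progs [(306519736320, 3523215360), (212600881152, 23622320128), (824633720832, 274877906944), (652835028992, 34359738368)] :=
  Pool.Agent.helper14.QF.covD_F chks_eq (.n 2 (.n 3 (.n 2 (.n 3 (.n 0 (.l 4) (.l 4)) (.l 4)) (.n 3 (.n 0 (.l 4) (.l 4)) (.l 4))) (.n 0 (.n 0 (.l 4) (.l 4)) (.l 4))) (.n 3 (.n 2 (.n 0 (.n 3 (.l 4) (.l 4)) (.n 0 (.l 4) (.l 4))) (.n 3 (.n 0 (.l 4) (.l 4)) (.l 4))) (.n 3 (.n 2 (.l 4) (.l 4)) (.l 4))))
    [(306519736320, 3523215360), (212600881152, 23622320128), (824633720832, 274877906944), (652835028992, 34359738368)] rfl (by decide +kernel)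
end
mutual
theorem c1_m105_t27 : CovD 0 progs [(295950090240, 14092861440), (259845521408, 23622320128), (824633720832, 274877906944), (652835028992, 34359738368)] :=
  Pool.Agent.helper14.QF.covD_F chks_eq (.l 11)
    [(295950090240, 14092861440), (259845521408, 23622320128), (824633720832, 274877906944), (652835028992, 34359738368)] rfl (by decide +kernel)
theorem c1_m105_t29 : CovD 0 progs [(295950090240, 14092861440), (330712481792, 47244640256), (824633720832, 274877906944), (652835028992, 34359738368)] :=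
  Pool.Agent.helper14.QF.covD_F chks_eq (.l 11)
    [(295950090240, 14092861440), (330712481792, 47244640256), (824633720832, 274877906944), (652835028992, 34359738368)] rfl (by decide +kernel)
end
theorem c1_m105_t2 : CovD 0 progs [(283618836480, 1761607680), (212600881152, 23622320128), (687194767360, 137438953472), (652835028992, 34359738368)] :=
  covD_split 2 (by decide +kernel) c1_m105_t0 c1_m105_t1
theorem c1_m105_t4 : CovD 0 progs [(283618836480, 1761607680), (212600881152, 23622320128), (824633720832, 274877906944), (652835028992, 34359738368)] :=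
  covD_split 2 (by decide +kernel) c1_m105_t2 c1_m105_t3
theorem c1_m105_t7 : CovD 0 progs [(287142051840, 1761607680), (212600881152, 23622320128), (687194767360, 137438953472), (652835028992, 34359738368)] :=
  covD_split 2 (by decide +kernel) c1_m105_t5 c1_m105_t6
theorem c1_m105_t9 : CovD 0 progs [(287142051840, 1761607680), (212600881152, 23622320128), (824633720832, 274877906944), (652835028992, 34359738368)] :=
  covD_split 2 (by decide +kernel) c1_m105_t7 c1_m105_t8
theorem c1_m105_t10 : CovD 0 progs [(285380444160, 3523215360), (212600881152, 23622320128), (824633720832, 274877906944), (652835028992, 34359738368)] :=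
  covD_split 0 (by decide +kernel) c1_m105_t4 c1_m105_t9
theorem c1_m105_t13 : CovD 0 progs [(290665267200, 1761607680), (212600881152, 23622320128), (687194767360, 137438953472), (652835028992, 34359738368)] :=
  covD_split 0 (by decide +kernel) c1_m105_t11 c1_m105_t12
theorem c1_m105_t15 : CovD 0 progs [(290665267200, 1761607680), (212600881152, 23622320128), (824633720832, 274877906944), (652835028992, 34359738368)] :=
  covD_split 2 (by decide +kernel) c1_m105_t13 c1_m105_t14
theorem c1_m105_t18 : CovD 0 progs [(294188482560, 1761607680), (212600881152, 23622320128), (824633720832, 274877906944), (652835028992, 34359738368)] :=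
  covD_split 2 (by decide +kernel) c1_m105_t16 c1_m105_t17
theorem c1_m105_t19 : CovD 0 progs [(292426874880, 3523215360), (212600881152, 23622320128), (824633720832, 274877906944), (652835028992, 34359738368)] :=
  covD_split 0 (by decide +kernel) c1_m105_t15 c1_m105_t18
theorem c1_m105_t20 : CovD 0 progs [(288903659520, 7046430720), (212600881152, 23622320128), (824633720832, 274877906944), (652835028992, 34359738368)] :=
  covD_split 0 (by decide +kernel) c1_m105_t10 c1_m105_t19
theorem c1_m105_t23 : CovD 0 progs [(299473305600, 3523215360), (212600881152, 23622320128), (824633720832, 274877906944), (652835028992, 34359738368)] :=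
  covD_split 0 (by decide +kernel) c1_m105_t21 c1_m105_t22
theorem c1_m105_t25 : CovD 0 progs [(302996520960, 7046430720), (212600881152, 23622320128), (824633720832, 274877906944), (652835028992, 34359738368)] :=
  covD_split 0 (by decide +kernel) c1_m105_t23 c1_m105_t24
theorem c1_m105_t26 : CovD 0 progs [(295950090240, 14092861440), (212600881152, 23622320128), (824633720832, 274877906944), (652835028992, 34359738368)] :=
  covD_split 0 (by decide +kernel) c1_m105_t20 c1_m105_t25
theorem c1_m105_t28 : CovD 0 progs [(295950090240, 14092861440), (236223201280, 47244640256), (824633720832, 274877906944), (652835028992, 34359738368)] :=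
  covD_split 1 (by decide +kernel) c1_m105_t26 c1_m105_t27
theorem c1_m105 : CovD 0 progs [(295950090240, 14092861440), (283467841536, 94489280512), (824633720832, 274877906944), (652835028992, 34359738368)] :=
  covD_split 1 (by decide +kernel) c1_m105_t28 c1_m105_t29

end Pool.Agent.helper71.FJ.Crt.QMa
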