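import Pool.Agent.helper71.FJ.Crt.QMaP

/-!
Generated certificates.
-/

namespace Pool.Agent.helper71.FJ.Crt.QMa

open Pool.Agent.helper31.IA (Z Op)
open Pool.Agent.helper31.IC

mutual
theorem c1_m109_t0 : CovD 0 progs [(345275105280, 7046430720), (236223201280, 47244640256), (824633720832, 274877906944), (618475290624, 68719476736)] :=
  Pool.Agent.helper14.QF.covD_F chks_eq (.n 1 (.n 2 (.n 3 (.n 3 (.l 8) (.l 8)) (.n 0 (.l 8) (.l 8))) (.n 2 (.n 3 (.n 0 (.l 4) (.l 4)) (.n 2 (.l 8) (.l 4))) (.n 3 (.n 0 (.l 4) (.l 4)) (.l 4)))) (.l 11))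
    [(345275105280, 7046430720), (236223201280, 47244640256), (824633720832, 274877906944), (618475290624, 68719476736)] rfl (by decide +kernel)
theorem c1_m109_t1 : CovD 0 progs [(359367966720, 7046430720), (236223201280, 47244640256), (824633720832, 274877906944), (618475290624, 68719476736)] :=
  Pool.Agent.helper14.QF.covD_F chks_eq (.n 1 (.n 2 (.n 3 (.l 8) (.l 8)) (.n 0 (.n 2 (.n 2 (.n 3 (.l 8) (.l 8)) (.n 3 (.l 4) (.n 3 (.l 4) (.l 0)))) (.n 3 (.l 4) (.l 5))) (.n 1 (.n 2 (.n 3 (.l 8) (.l 8)) (.n 0 (.l 4) (.l 5))) (.n 3 (.n 1 (.n 2 (.n 2 (.l 8) (.l 4)) (.l 4)) (.n 1 (.n 2 (.n 2 (.l 8) (.l 4)) (.l 4)) (.l 11))) (.n 3 (.n 2 (.l 3) (.l 0)) (.l 3)))))) (.l 11))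
    [(359367966720, 7046430720), (236223201280, 47244640256), (824633720832, 274877906944), (618475290624, 68719476736)] rfl (by decide +kernel)
end
mutual
theorem c1_m109_t3 : CovD 0 progs [(373460828160, 7046430720), (212600881152, 23622320128), (687194767360, 137438953472), (618475290624, 68719476736)] :=
  Pool.Agent.helper14.QF.covD_F chks_eq (.n 3 (.n 0 (.l 8) (.n 1 (.l 8) (.n 3 (.l 8) (.l 7)))) (.n 3 (.n 2 (.l 0) (.l 7)) (.l 7)))
    [(373460828160, 7046430720), (212600881152, 23622320128), (687194767360, 137438953472), (618475290624, 68719476736)] rfl (by decide +kernel)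
theorem c1_m109_t4 : CovD 0 progs [(373460828160, 7046430720), (212600881152, 23622320128), (962072674304, 137438953472), (618475290624, 68719476736)] :=
  Pool.Agent.helper14.QF.covD_F chks_eq (.n 2 (.n 0 (.n 0 (.n 1 (.l 8) (.n 3 (.n 3 (.n 0 (.l 3) (.l 3)) (.l 0)) (.l 1))) (.n 3 (.n 3 (.n 1 (.l 0) (.l 3)) (.l 3)) (.l 3))) (.n 3 (.n 3 (.n 1 (.l 0) (.l 3)) (.l 0)) (.l 1))) (.n 0 (.n 1 (.n 3 (.l 4) (.l 0)) (.n 3 (.n 1 (.l 5) (.n 3 (.l 3) (.l 0))) (.l 3))) (.n 3 (.n 3 (.n 0 (.l 3) (.l 0)) (.l 0)) (.l 3))))
    [(373460828160, 7046430720), (212600881152, 23622320128), (962072674304, 137438953472), (618475290624, 68719476736)] rfl (by decide +kernel)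
end
mutual
theorem c1_m109_t6 : CovD 0 progs [(387553689600, 7046430720), (212600881152, 23622320128), (824633720832, 274877906944), (618475290624, 68719476736)] :=
  Pool.Agent.helper14.QF.covD_F chks_eq (.n 2 (.n 0 (.n 3 (.n 2 (.l 7) (.n 0 (.l 7) (.l 3))) (.l 0)) (.n 3 (.n 2 (.l 0) (.l 0)) (.l 0))) (.n 2 (.n 3 (.n 3 (.n 0 (.l 3) (.l 0)) (.l 0)) (.l 0)) (.n 3 (.n 3 (.n 0 (.l 0) (.l 0)) (.l 0)) (.l 0))))
    [(387553689600, 7046430720), (212600881152, 23622320128), (824633720832, 274877906944), (618475290624, 68719476736)] rfl (by decide +kernel)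
theorem c1_m109_t8 : CovD 0 progs [(380507258880, 14092861440), (259845521408, 23622320128), (824633720832, 274877906944), (618475290624, 68719476736)] :=
  Pool.Agent.helper14.QF.covD_F chks_eq (.l 11)
    [(380507258880, 14092861440), (259845521408, 23622320128), (824633720832, 274877906944), (618475290624, 68719476736)] rfl (by decide +kernel)
end
mutual
theorem c1_m109_t11 : CovD 0 progs [(366414397440, 28185722880), (330712481792, 47244640256), (824633720832, 274877906944), (618475290624, 68719476736)] :=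
  Pool.Agent.helper14.QF.covD_F chks_eq (.l 11)
    [(366414397440, 28185722880), (330712481792, 47244640256), (824633720832, 274877906944), (618475290624, 68719476736)] rfl (by decide +kernel)
theorem c1_m109_t13 : CovD 0 progs [(366414397440, 28185722880), (236223201280, 47244640256), (824633720832, 274877906944), (755914244096, 68719476736)] :=
  Pool.Agent.helper14.QF.covD_F chks_eq (.n 1 (.n 0 (.n 0 (.n 2 (.n 3 (.l 8) (.n 0 (.l 7) (.l 0))) (.n 3 (.n 2 (.n 2 (.l 8) (.n 3 (.l 4) (.l 0))) (.l 5)) (.n 3 (.l 3) (.l 0)))) (.n 2 (.n 3 (.n 0 (.l 8) (.l 7)) (.l 0)) (.n 3 (.n 3 (.n 2 (.l 0) (.l 0)) (.l 0)) (.l 0)))) (.n 2 (.n 3 (.n 0 (.l 0) (.l 0)) (.l 0)) (.n 3 (.n 0 (.n 2 (.l 0) (.l 0)) (.l 0)) (.l 0)))) (.l 11))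
    [(366414397440, 28185722880), (236223201280, 47244640256), (824633720832, 274877906944), (755914244096, 68719476736)] rfl (by decide +kernel)
end
mutual
theorem c1_m109_t14 : CovD 0 progs [(366414397440, 28185722880), (330712481792, 47244640256), (824633720832, 274877906944), (755914244096, 68719476736)] :=
  Pool.Agent.helper14.QF.covD_F chks_eq (.l 11)
    [(366414397440, 28185722880), (330712481792, 47244640256), (824633720832, 274877906944), (755914244096, 68719476736)] rfl (by decide +kernel)
theorem c1_m109_t17 : CovD 0 progs [(366414397440, 28185722880), (283467841536, 94489280512), (824633720832, 274877906944), (962072674304, 137438953472)] :=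
  Pool.Agent.helper14.QF.covD_F chks_eq (.n 3 (.n 1 (.n 1 (.n 0 (.n 3 (.n 2 (.l 0) (.l 0)) (.l 0)) (.n 3 (.n 0 (.l 0) (.l 0)) (.l 0))) (.l 11)) (.l 11)) (.n 1 (.n 1 (.n 3 (.l 0) (.l 0)) (.l 11)) (.l 11)))
    [(366414397440, 28185722880), (283467841536, 94489280512), (824633720832, 274877906944), (962072674304, 137438953472)] rfl (by decide +kernel)
end
mutual
theorem c1_m109_t19 : CovD 0 progs [(422785843200, 28185722880), (283467841536, 94489280512), (824633720832, 274877906944), (687194767360, 137438953472)] :=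
  Pool.Agent.helper14.QF.covD_F chks_eq (.n 3 (.n 1 (.n 1 (.n 0 (.n 2 (.n 3 (.n 0 (.n 2 (.l 0) (.l 0)) (.l 0)) (.l 0)) (.n 0 (.n 3 (.n 1 (.l 1) (.n 2 (.l 0) (.l 0))) (.l 0)) (.n 3 (.n 0 (.l 0) (.l 0)) (.l 0)))) (.n 2 (.l 0) (.n 3 (.l 0) (.l 0)))) (.l 11)) (.l 11)) (.n 1 (.n 1 (.n 2 (.n 3 (.l 0) (.l 0)) (.n 0 (.n 3 (.l 0) (.l 0)) (.l 0))) (.l 11)) (.l 11)))
    [(422785843200, 28185722880), (283467841536, 94489280512), (824633720832, 274877906944), (687194767360, 137438953472)] rfl (by decide +kernel)
theorem c1_m109_t20 : CovD 0 progs [(422785843200, 28185722880), (283467841536, 94489280512), (824633720832, 274877906944), (962072674304, 137438953472)] :=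
  Pool.Agent.helper14.QF.covD_F chks_eq (.n 3 (.n 1 (.n 1 (.n 3 (.l 0) (.l 0)) (.l 11)) (.l 11)) (.n 1 (.n 2 (.l 0) (.l 0)) (.l 11)))
    [(422785843200, 28185722880), (283467841536, 94489280512), (824633720832, 274877906944), (962072674304, 137438953472)] rfl (by decide +kernel)
end
theorem c1_m109_t2 : CovD 0 progs [(352321536000, 14092861440), (236223201280, 47244640256), (824633720832, 274877906944), (618475290624, 68719476736)] :=
  covD_split 0 (by decide +kernel) c1_m109_t0 c1_m109_t1
theorem c1_m109_t5 : CovD 0 progs [(373460828160, 7046430720), (212600881152, 23622320128), (824633720832, 274877906944), (618475290624, 68719476736)] :=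
  covD_split 2 (by decide +kernel) c1_m109_t3 c1_m109_t4
theorem c1_m109_t7 : CovD 0 progs [(380507258880, 14092861440), (212600881152, 23622320128), (824633720832, 274877906944), (618475290624, 68719476736)] :=
  covD_split 0 (by decide +kernel) c1_m109_t5 c1_m109_t6
theorem c1_m109_t9 : CovD 0 progs [(380507258880, 14092861440), (236223201280, 47244640256), (824633720832, 274877906944), (618475290624, 68719476736)] :=
  covD_split 1 (by decide +kernel) c1_m109_t7 c1_m109_t8
theorem c1_m109_t10 : CovD 0 progs [(366414397440, 28185722880), (236223201280, 47244640256), (824633720832, 274877906944), (618475290624, 68719476736)] :=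
  covD_split 0 (by decide +kernel) c1_m109_t2 c1_m109_t9
theorem c1_m109_t12 : CovD 0 progs [(366414397440, 28185722880), (283467841536, 94489280512), (824633720832, 274877906944), (618475290624, 68719476736)] :=
  covD_split 1 (by decide +kernel) c1_m109_t10 c1_m109_t11
theorem c1_m109_t15 : CovD 0 progs [(366414397440, 28185722880), (283467841536, 94489280512), (824633720832, 274877906944), (755914244096, 68719476736)] :=
  covD_split 1 (by decide +kernel) c1_m109_t13 c1_m109_t14
theorem c1_m109_t16 : CovD 0 progs [(366414397440, 28185722880), (283467841536, 94489280512), (824633720832, 274877906944), (687194767360, 137438953472)] :=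
  covD_split 3 (by decide +kernel) c1_m109_t12 c1_m109_t15
theorem c1_m109_t18 : CovD 0 progs [(366414397440, 28185722880), (283467841536, 94489280512), (824633720832, 274877906944), (824633720832, 274877906944)] :=
  covD_split 3 (by decide +kernel) c1_m109_t16 c1_m109_t17
theorem c1_m109_t21 : CovD 0 progs [(422785843200, 28185722880), (283467841536, 94489280512), (824633720832, 274877906944), (824633720832, 274877906944)] :=
  covD_split 3 (by decide +kernel) c1_m109_t19 c1_m109_t20
theorem c1_m109 : CovD 0 progs [(394600120320, 56371445760), (283467841536, 94489280512), (824633720832, 274877906944), (824633720832, 274877906944)] :=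
  covD_split 0 (by decide +kernel) c1_m109_t18 c1_m109_t21

end Pool.Agent.helper71.FJ.Crt.QMa
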