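import Pool.Agent.helper71.FJ.Crt.QMaP

/-!
Generated certificates.
-/

namespace Pool.Agent.helper71.FJ.Crt.QMa

open Pool.Agent.helper31.IA (Z Op)
open Pool.Agent.helper31.IC

mutual
theorem c1_m11_t0 : CovD 0 progs [(422785843200, 28185722880), (94489280512, 94489280512), (274877906944, 274877906944), (137438953472, 137438953472)] :=
  Pool.Agent.helper14.QF.covD_F chks_eq (.n 3 (.n 0 (.n 0 (.n 1 (.l 8) (.l 9)) (.n 2 (.l 8) (.l 8))) (.n 2 (.l 9) (.n 0 (.l 9) (.n 1 (.l 0) (.l 0))))) (.n 0 (.n 0 (.n 2 (.l 8) (.l 8)) (.n 2 (.l 8) (.l 9))) (.n 0 (.n 1 (.l 0) (.n 2 (.l 8) (.n 0 (.l 9) (.l 7)))) (.n 1 (.l 0) (.n 2 (.l 0) (.l 0))))))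
    [(422785843200, 28185722880), (94489280512, 94489280512), (274877906944, 274877906944), (137438953472, 137438953472)] rfl (by decide +kernel)
theorem c1_m11_t1 : CovD 0 progs [(422785843200, 28185722880), (94489280512, 94489280512), (274877906944, 274877906944), (343597383680, 68719476736)] :=
  Pool.Agent.helper14.QF.covD_F chks_eq (.n 0 (.n 0 (.n 2 (.l 8) (.l 9)) (.n 2 (.l 8) (.n 1 (.l 8) (.n 2 (.l 8) (.l 9))))) (.n 0 (.n 1 (.l 0) (.n 1 (.l 0) (.n 2 (.l 3) (.l 3)))) (.n 1 (.l 0) (.n 0 (.l 1) (.l 0)))))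
    [(422785843200, 28185722880), (94489280512, 94489280512), (274877906944, 274877906944), (343597383680, 68719476736)] rfl (by decide +kernel)
theorem c1_m11_t2 : CovD 0 progs [(422785843200, 28185722880), (94489280512, 94489280512), (274877906944, 274877906944), (481036337152, 68719476736)] :=
  Pool.Agent.helper14.QF.covD_F chks_eq (.n 3 (.n 0 (.n 2 (.l 9) (.n 1 (.l 9) (.n 0 (.l 9) (.l 0)))) (.n 1 (.l 0) (.l 0))) (.n 0 (.n 0 (.n 1 (.l 0) (.n 2 (.l 0) (.l 3))) (.n 1 (.l 0) (.l 0))) (.n 0 (.l 0) (.l 0))))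
    [(422785843200, 28185722880), (94489280512, 94489280512), (274877906944, 274877906944), (481036337152, 68719476736)] rfl (by decide +kernel)
end
theorem c1_m11_t3 : CovD 0 progs [(422785843200, 28185722880), (94489280512, 94489280512), (274877906944, 274877906944), (412316860416, 137438953472)] :=
  covD_split 3 (by decide +kernel) c1_m11_t1 c1_m11_t2
theorem c1_m11 : CovD 0 progs [(422785843200, 28185722880), (94489280512, 94489280512), (274877906944, 274877906944), (274877906944, 274877906944)] :=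
  covD_split 3 (by decide +kernel) c1_m11_t0 c1_m11_t3

end Pool.Agent.helper71.FJ.Crt.QMa
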