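import Pool.Agent.helper71.FJ.Crt.QMaP

/-!
Generated certificates.
-/

namespace Pool.Agent.helper71.FJ.Crt.QMa

open Pool.Agent.helper31.IA (Z Op)
open Pool.Agent.helper31.IC

mutual
theorem c1_m110_t0 : CovD 0 progs [(253671505920, 28185722880), (94489280512, 94489280512), (1374389534720, 274877906944), (274877906944, 274877906944)] :=
  Pool.Agent.helper14.QF.covD_F chks_eq (.n 3 (.n 3 (.n 2 (.l 6) (.l 6)) (.n 2 (.l 6) (.l 6))) (.n 3 (.n 2 (.l 6) (.l 6)) (.n 2 (.l 6) (.l 6))))
    [(253671505920, 28185722880), (94489280512, 94489280512), (1374389534720, 274877906944), (274877906944, 274877906944)] rfl (by decide +kernel)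
theorem c1_m110_t1 : CovD 0 progs [(310042951680, 28185722880), (94489280512, 94489280512), (1374389534720, 274877906944), (137438953472, 137438953472)] :=
  Pool.Agent.helper14.QF.covD_F chks_eq (.n 3 (.n 1 (.n 1 (.l 6) (.l 6)) (.n 2 (.n 0 (.l 6) (.n 1 (.l 6) (.n 0 (.l 6) (.n 1 (.l 6) (.n 0 (.n 0 (.l 6) (.l 6)) (.n 2 (.n 0 (.l 4) (.l 4)) (.l 6))))))) (.l 6))) (.n 1 (.n 2 (.l 6) (.l 6)) (.n 2 (.n 0 (.l 6) (.n 1 (.l 6) (.n 2 (.n 0 (.l 6) (.n 1 (.l 6) (.n 2 (.n 0 (.l 6) (.n 3 (.l 4) (.l 4))) (.l 6)))) (.l 6)))) (.l 6))))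
    [(310042951680, 28185722880), (94489280512, 94489280512), (1374389534720, 274877906944), (137438953472, 137438953472)] rfl (by decide +kernel)
end
mutual
theorem c1_m110_t2 : CovD 0 progs [(310042951680, 28185722880), (94489280512, 94489280512), (1374389534720, 274877906944), (343597383680, 68719476736)] :=
  Pool.Agent.helper14.QF.covD_F chks_eq (.n 1 (.n 2 (.l 6) (.l 6)) (.n 2 (.n 0 (.l 6) (.n 1 (.l 6) (.n 2 (.n 0 (.l 6) (.n 1 (.l 6) (.n 2 (.n 0 (.l 6) (.n 3 (.l 4) (.n 0 (.l 4) (.l 4)))) (.l 6)))) (.l 6)))) (.l 6)))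
    [(310042951680, 28185722880), (94489280512, 94489280512), (1374389534720, 274877906944), (343597383680, 68719476736)] rfl (by decide +kernel)
theorem c1_m110_t3 : CovD 0 progs [(310042951680, 28185722880), (94489280512, 94489280512), (1374389534720, 274877906944), (481036337152, 68719476736)] :=
  Pool.Agent.helper14.QF.covD_F chks_eq (.n 1 (.n 2 (.l 6) (.l 6)) (.n 1 (.n 2 (.l 6) (.l 6)) (.n 2 (.n 0 (.l 6) (.n 2 (.n 0 (.l 6) (.n 1 (.l 6) (.n 2 (.n 0 (.n 0 (.l 6) (.l 6)) (.n 3 (.n 3 (.l 4) (.l 4)) (.n 3 (.l 4) (.l 4)))) (.l 6)))) (.l 6))) (.l 6))))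
    [(310042951680, 28185722880), (94489280512, 94489280512), (1374389534720, 274877906944), (481036337152, 68719476736)] rfl (by decide +kernel)
end
theorem c1_m110_t4 : CovD 0 progs [(310042951680, 28185722880), (94489280512, 94489280512), (1374389534720, 274877906944), (412316860416, 137438953472)] :=
  covD_split 3 (by decide +kernel) c1_m110_t2 c1_m110_t3
theorem c1_m110_t5 : CovD 0 progs [(310042951680, 28185722880), (94489280512, 94489280512), (1374389534720, 274877906944), (274877906944, 274877906944)] :=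
  covD_split 3 (by decide +kernel) c1_m110_t1 c1_m110_t4
theorem c1_m110 : CovD 0 progs [(281857228800, 56371445760), (94489280512, 94489280512), (1374389534720, 274877906944), (274877906944, 274877906944)] :=
  covD_split 0 (by decide +kernel) c1_m110_t0 c1_m110_t5

end Pool.Agent.helper71.FJ.Crt.QMa
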