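import Pool.Agent.helper71.FJ.Crt.QMaP

/-!
Generated certificates.
-/

namespace Pool.Agent.helper71.FJ.Crt.QMa

open Pool.Agent.helper31.IA (Z Op)
open Pool.Agent.helper31.IC

mutual
theorem c1_m112_t0 : CovD 0 progs [(281857228800, 56371445760), (94489280512, 94489280512), (1924145348608, 274877906944), (274877906944, 274877906944)] :=
  Pool.Agent.helper14.QF.covD_F chks_eq (.n 0 (.n 3 (.n 3 (.n 1 (.l 6) (.l 6)) (.n 1 (.l 6) (.l 6))) (.n 3 (.n 1 (.l 6) (.l 6)) (.n 1 (.l 6) (.l 6)))) (.n 3 (.n 3 (.n 1 (.l 6) (.n 1 (.l 6) (.l 6))) (.n 1 (.l 6) (.n 1 (.l 6) (.l 6)))) (.n 3 (.n 1 (.l 6) (.n 2 (.l 6) (.l 6))) (.n 1 (.l 6) (.n 2 (.l 6) (.l 6))))))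
    [(281857228800, 56371445760), (94489280512, 94489280512), (1924145348608, 274877906944), (274877906944, 274877906944)] rfl (by decide +kernel)
theorem c1_m112_t1 : CovD 0 progs [(366414397440, 28185722880), (94489280512, 94489280512), (1924145348608, 274877906944), (137438953472, 137438953472)] :=
  Pool.Agent.helper14.QF.covD_F chks_eq (.n 3 (.n 1 (.l 6) (.n 1 (.l 6) (.n 1 (.l 6) (.n 2 (.l 6) (.l 6))))) (.n 1 (.l 6) (.n 1 (.l 6) (.n 1 (.n 0 (.l 6) (.l 6)) (.n 2 (.n 2 (.l 6) (.l 6)) (.l 6))))))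
    [(366414397440, 28185722880), (94489280512, 94489280512), (1924145348608, 274877906944), (137438953472, 137438953472)] rfl (by decide +kernel)
end
mutual
theorem c1_m112_t2 : CovD 0 progs [(366414397440, 28185722880), (94489280512, 94489280512), (1924145348608, 274877906944), (412316860416, 137438953472)] :=
  Pool.Agent.helper14.QF.covD_F chks_eq (.n 3 (.n 1 (.l 6) (.n 0 (.n 1 (.l 6) (.n 2 (.l 6) (.l 6))) (.n 1 (.l 6) (.n 2 (.n 1 (.l 6) (.n 0 (.l 6) (.l 4))) (.n 2 (.l 6) (.l 6)))))) (.n 1 (.l 6) (.n 1 (.n 1 (.l 6) (.l 6)) (.n 0 (.n 2 (.l 6) (.l 6)) (.n 1 (.n 2 (.l 6) (.l 6)) (.n 0 (.n 2 (.n 0 (.l 4) (.l 4)) (.l 4)) (.n 2 (.l 4) (.l 4))))))))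
    [(366414397440, 28185722880), (94489280512, 94489280512), (1924145348608, 274877906944), (412316860416, 137438953472)] rfl (by decide +kernel)
theorem c1_m112_t4 : CovD 0 progs [(422785843200, 28185722880), (94489280512, 94489280512), (1924145348608, 274877906944), (68719476736, 68719476736)] :=
  Pool.Agent.helper14.QF.covD_F chks_eq (.n 0 (.n 1 (.l 6) (.n 1 (.n 1 (.l 6) (.l 6)) (.n 1 (.n 2 (.l 6) (.l 4)) (.n 2 (.l 4) (.l 4))))) (.n 1 (.n 1 (.l 4) (.l 6)) (.n 1 (.n 1 (.l 4) (.l 4)) (.n 2 (.l 4) (.l 4)))))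
    [(422785843200, 28185722880), (94489280512, 94489280512), (1924145348608, 274877906944), (68719476736, 68719476736)] rfl (by decide +kernel)
end
mutual
theorem c1_m112_t5 : CovD 0 progs [(422785843200, 28185722880), (94489280512, 94489280512), (1924145348608, 274877906944), (206158430208, 68719476736)] :=
  Pool.Agent.helper14.QF.covD_F chks_eq (.n 1 (.n 1 (.l 6) (.l 6)) (.n 1 (.n 2 (.n 0 (.l 6) (.l 4)) (.l 6)) (.n 0 (.n 2 (.n 0 (.n 0 (.l 4) (.l 4)) (.l 4)) (.n 1 (.l 4) (.l 4))) (.n 1 (.n 0 (.l 4) (.l 4)) (.n 2 (.l 4) (.l 4))))))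
    [(422785843200, 28185722880), (94489280512, 94489280512), (1924145348608, 274877906944), (206158430208, 68719476736)] rfl (by decide +kernel)
theorem c1_m112_t7 : CovD 0 progs [(422785843200, 28185722880), (94489280512, 94489280512), (1924145348608, 274877906944), (343597383680, 68719476736)] :=
  Pool.Agent.helper14.QF.covD_F chks_eq (.n 0 (.n 1 (.n 1 (.l 6) (.l 6)) (.n 1 (.n 2 (.l 6) (.l 6)) (.n 0 (.n 2 (.n 0 (.l 4) (.l 4)) (.l 4)) (.n 2 (.l 4) (.l 4))))) (.n 1 (.n 2 (.l 6) (.l 6)) (.n 1 (.n 0 (.l 4) (.l 5)) (.n 1 (.n 2 (.l 4) (.l 4)) (.n 0 (.n 2 (.l 4) (.l 4)) (.n 2 (.l 0) (.l 0)))))))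
    [(422785843200, 28185722880), (94489280512, 94489280512), (1924145348608, 274877906944), (343597383680, 68719476736)] rfl (by decide +kernel)
theorem c1_m112_t8 : CovD 0 progs [(422785843200, 28185722880), (94489280512, 94489280512), (1924145348608, 274877906944), (481036337152, 68719476736)] :=
  Pool.Agent.helper14.QF.covD_F chks_eq (.n 0 (.n 1 (.n 1 (.l 6) (.l 6)) (.n 1 (.n 1 (.l 6) (.n 0 (.l 6) (.l 4))) (.n 0 (.n 2 (.l 4) (.l 5)) (.n 1 (.l 5) (.n 2 (.l 5) (.l 5)))))) (.n 1 (.n 2 (.l 6) (.l 6)) (.n 1 (.n 1 (.l 4) (.l 5)) (.n 1 (.n 2 (.n 0 (.l 0) (.l 0)) (.l 5)) (.n 2 (.n 2 (.l 0) (.l 0)) (.n 0 (.l 0) (.l 0)))))))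
    [(422785843200, 28185722880), (94489280512, 94489280512), (1924145348608, 274877906944), (481036337152, 68719476736)] rfl (by decide +kernel)
end
theorem c1_m112_t3 : CovD 0 progs [(366414397440, 28185722880), (94489280512, 94489280512), (1924145348608, 274877906944), (274877906944, 274877906944)] :=
  covD_split 3 (by decide +kernel) c1_m112_t1 c1_m112_t2
theorem c1_m112_t6 : CovD 0 progs [(422785843200, 28185722880), (94489280512, 94489280512), (1924145348608, 274877906944), (137438953472, 137438953472)] :=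
  covD_split 3 (by decide +kernel) c1_m112_t4 c1_m112_t5
theorem c1_m112_t9 : CovD 0 progs [(422785843200, 28185722880), (94489280512, 94489280512), (1924145348608, 274877906944), (412316860416, 137438953472)] :=
  covD_split 3 (by decide +kernel) c1_m112_t7 c1_m112_t8
theorem c1_m112_t10 : CovD 0 progs [(422785843200, 28185722880), (94489280512, 94489280512), (1924145348608, 274877906944), (274877906944, 274877906944)] :=
  covD_split 3 (by decide +kernel) c1_m112_t6 c1_m112_t9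
theorem c1_m112_t11 : CovD 0 progs [(394600120320, 56371445760), (94489280512, 94489280512), (1924145348608, 274877906944), (274877906944, 274877906944)] :=
  covD_split 0 (by decide +kernel) c1_m112_t3 c1_m112_t10
theorem c1_m112 : CovD 0 progs [(338228674560, 112742891520), (94489280512, 94489280512), (1924145348608, 274877906944), (274877906944, 274877906944)] :=
  covD_split 0 (by decide +kernel) c1_m112_t0 c1_m112_t11

end Pool.Agent.helper71.FJ.Crt.QMa
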