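import Pool.Agent.helper71.FJ.Crt.QMaP

/-!
Generated certificates.
-/

namespace Pool.Agent.helper71.FJ.Crt.QMa

open Pool.Agent.helper31.IA (Z Op)
open Pool.Agent.helper31.IC

mutual
theorem c1_m113_t0 : CovD 0 progs [(253671505920, 28185722880), (94489280512, 94489280512), (1374389534720, 274877906944), (824633720832, 274877906944)] :=
  Pool.Agent.helper14.QF.covD_F chks_eq (.n 3 (.n 3 (.n 2 (.l 6) (.l 6)) (.n 2 (.l 6) (.l 6))) (.n 3 (.n 2 (.l 6) (.l 6)) (.n 2 (.l 6) (.l 6))))
    [(253671505920, 28185722880), (94489280512, 94489280512), (1374389534720, 274877906944), (824633720832, 274877906944)] rfl (by decide +kernel)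
theorem c1_m113_t1 : CovD 0 progs [(310042951680, 28185722880), (94489280512, 94489280512), (1374389534720, 274877906944), (687194767360, 137438953472)] :=
  Pool.Agent.helper14.QF.covD_F chks_eq (.n 3 (.n 1 (.n 2 (.l 6) (.l 6)) (.n 1 (.n 2 (.l 6) (.l 6)) (.n 2 (.n 0 (.l 6) (.n 2 (.n 0 (.l 6) (.n 0 (.n 2 (.l 6) (.l 6)) (.n 3 (.n 3 (.l 4) (.l 4)) (.l 4)))) (.l 6))) (.l 6)))) (.n 1 (.n 1 (.l 6) (.l 6)) (.n 1 (.n 2 (.l 6) (.l 6)) (.n 2 (.n 0 (.l 6) (.n 0 (.l 6) (.n 1 (.l 6) (.n 3 (.l 4) (.l 4))))) (.l 6)))))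
    [(310042951680, 28185722880), (94489280512, 94489280512), (1374389534720, 274877906944), (687194767360, 137438953472)] rfl (by decide +kernel)
end
mutual
theorem c1_m113_t2 : CovD 0 progs [(310042951680, 28185722880), (94489280512, 94489280512), (1374389534720, 274877906944), (962072674304, 137438953472)] :=
  Pool.Agent.helper14.QF.covD_F chks_eq (.n 3 (.n 1 (.n 1 (.l 6) (.l 6)) (.n 1 (.n 1 (.l 6) (.l 6)) (.n 2 (.n 0 (.l 6) (.n 2 (.l 6) (.l 6))) (.l 6)))) (.n 1 (.n 1 (.l 6) (.l 6)) (.n 2 (.n 2 (.l 6) (.l 6)) (.n 0 (.l 6) (.l 6)))))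
    [(310042951680, 28185722880), (94489280512, 94489280512), (1374389534720, 274877906944), (962072674304, 137438953472)] rfl (by decide +kernel)
theorem c1_m113_t5 : CovD 0 progs [(352321536000, 14092861440), (94489280512, 94489280512), (1374389534720, 274877906944), (618475290624, 68719476736)] :=
  Pool.Agent.helper14.QF.covD_F chks_eq (.n 1 (.n 2 (.n 1 (.l 6) (.l 6)) (.l 6)) (.n 2 (.n 3 (.n 1 (.n 0 (.n 0 (.l 6) (.l 4)) (.l 4)) (.n 0 (.n 0 (.n 2 (.l 4) (.l 4)) (.l 4)) (.l 4))) (.n 0 (.n 3 (.l 4) (.l 4)) (.l 4))) (.n 1 (.l 6) (.n 0 (.l 6) (.n 1 (.l 6) (.n 3 (.l 4) (.l 4)))))))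
    [(352321536000, 14092861440), (94489280512, 94489280512), (1374389534720, 274877906944), (618475290624, 68719476736)] rfl (by decide +kernel)
end
mutual
theorem c1_m113_t6 : CovD 0 progs [(380507258880, 14092861440), (94489280512, 94489280512), (1374389534720, 274877906944), (618475290624, 68719476736)] :=
  Pool.Agent.helper14.QF.covD_F chks_eq (.n 1 (.n 2 (.n 0 (.n 3 (.l 4) (.l 4)) (.n 3 (.l 4) (.l 4))) (.l 6)) (.n 1 (.n 2 (.n 3 (.l 4) (.l 4)) (.n 0 (.l 6) (.l 4))) (.n 0 (.n 2 (.n 3 (.l 4) (.l 5)) (.n 3 (.l 4) (.l 4))) (.n 2 (.n 1 (.l 5) (.n 3 (.l 5) (.l 0))) (.l 5)))))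
    [(380507258880, 14092861440), (94489280512, 94489280512), (1374389534720, 274877906944), (618475290624, 68719476736)] rfl (by decide +kernel)
theorem c1_m113_t8 : CovD 0 progs [(366414397440, 28185722880), (94489280512, 94489280512), (1374389534720, 274877906944), (755914244096, 68719476736)] :=
  Pool.Agent.helper14.QF.covD_F chks_eq (.n 0 (.n 1 (.n 1 (.l 6) (.n 2 (.l 6) (.l 6))) (.n 2 (.n 3 (.n 0 (.l 4) (.l 5)) (.n 1 (.l 4) (.l 5))) (.n 1 (.l 6) (.n 3 (.l 4) (.l 4))))) (.n 1 (.n 2 (.n 3 (.l 4) (.l 0)) (.l 6)) (.n 1 (.n 2 (.n 3 (.l 0) (.l 0)) (.n 0 (.l 6) (.l 4))) (.n 2 (.n 3 (.n 2 (.l 0) (.l 0)) (.l 0)) (.n 0 (.l 5) (.n 3 (.l 0) (.l 0)))))))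
    [(366414397440, 28185722880), (94489280512, 94489280512), (1374389534720, 274877906944), (755914244096, 68719476736)] rfl (by decide +kernel)
end
mutual
theorem c1_m113_t10 : CovD 0 progs [(366414397440, 28185722880), (94489280512, 94489280512), (1374389534720, 274877906944), (962072674304, 137438953472)] :=
  Pool.Agent.helper14.QF.covD_F chks_eq (.n 3 (.n 1 (.n 0 (.n 2 (.l 6) (.l 6)) (.n 3 (.l 0) (.l 0))) (.n 2 (.n 0 (.n 3 (.n 0 (.l 5) (.l 0)) (.l 0)) (.n 3 (.l 0) (.l 0))) (.n 1 (.n 1 (.l 6) (.l 6)) (.n 3 (.n 0 (.l 0) (.l 0)) (.l 0))))) (.n 1 (.n 3 (.l 0) (.l 0)) (.n 1 (.n 3 (.l 0) (.l 0)) (.n 3 (.l 0) (.l 0)))))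
    [(366414397440, 28185722880), (94489280512, 94489280512), (1374389534720, 274877906944), (962072674304, 137438953472)] rfl (by decide +kernel)
theorem c1_m113_t12 : CovD 0 progs [(408692981760, 14092861440), (94489280512, 94489280512), (1374389534720, 274877906944), (618475290624, 68719476736)] :=
  Pool.Agent.helper14.QF.covD_F chks_eq (.n 1 (.n 2 (.n 3 (.l 5) (.l 0)) (.n 0 (.l 6) (.l 4))) (.n 1 (.n 2 (.n 2 (.n 0 (.l 5) (.l 0)) (.l 5)) (.n 0 (.l 4) (.l 5))) (.n 0 (.n 2 (.n 3 (.n 1 (.l 0) (.l 0)) (.l 0)) (.n 3 (.l 5) (.l 0))) (.n 2 (.n 3 (.l 0) (.l 0)) (.n 3 (.l 0) (.l 0))))))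
    [(408692981760, 14092861440), (94489280512, 94489280512), (1374389534720, 274877906944), (618475290624, 68719476736)] rfl (by decide +kernel)
end
mutual
theorem c1_m113_t13 : CovD 0 progs [(436878704640, 14092861440), (94489280512, 94489280512), (1374389534720, 274877906944), (618475290624, 68719476736)] :=
  Pool.Agent.helper14.QF.covD_F chks_eq (.n 2 (.n 1 (.n 0 (.l 0) (.l 0)) (.n 1 (.l 0) (.n 1 (.l 0) (.l 0)))) (.n 1 (.l 5) (.n 1 (.n 0 (.l 0) (.l 0)) (.n 1 (.l 0) (.l 0)))))
    [(436878704640, 14092861440), (94489280512, 94489280512), (1374389534720, 274877906944), (618475290624, 68719476736)] rfl (by decide +kernel)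
theorem c1_m113_t15 : CovD 0 progs [(422785843200, 28185722880), (94489280512, 94489280512), (1374389534720, 274877906944), (755914244096, 68719476736)] :=
  Pool.Agent.helper14.QF.covD_F chks_eq (.n 1 (.n 0 (.n 3 (.n 1 (.l 0) (.l 0)) (.l 0)) (.n 1 (.l 0) (.l 0))) (.n 1 (.n 2 (.n 3 (.l 0) (.l 0)) (.n 3 (.l 0) (.l 0))) (.n 0 (.n 2 (.n 1 (.l 0) (.l 1)) (.n 3 (.l 0) (.l 0))) (.n 2 (.l 0) (.l 0)))))
    [(422785843200, 28185722880), (94489280512, 94489280512), (1374389534720, 274877906944), (755914244096, 68719476736)] rfl (by decide +kernel)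
end
mutual
theorem c1_m113_t17 : CovD 0 progs [(422785843200, 28185722880), (94489280512, 94489280512), (1374389534720, 274877906944), (962072674304, 137438953472)] :=
  Pool.Agent.helper14.QF.covD_F chks_eq (.n 3 (.n 1 (.n 3 (.l 0) (.l 0)) (.n 1 (.n 3 (.l 0) (.l 0)) (.n 3 (.n 0 (.l 0) (.l 0)) (.l 0)))) (.n 1 (.n 1 (.l 0) (.l 0)) (.n 1 (.l 0) (.n 1 (.l 0) (.l 0)))))
    [(422785843200, 28185722880), (94489280512, 94489280512), (1374389534720, 274877906944), (962072674304, 137438953472)] rfl (by decide +kernel)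
theorem c1_m113_t21 : CovD 0 progs [(253671505920, 28185722880), (94489280512, 94489280512), (1924145348608, 274877906944), (824633720832, 274877906944)] :=
  Pool.Agent.helper14.QF.covD_F chks_eq (.n 3 (.n 3 (.n 1 (.l 6) (.l 6)) (.n 1 (.l 6) (.n 0 (.l 6) (.l 6)))) (.n 3 (.n 1 (.l 6) (.n 0 (.l 6) (.l 6))) (.n 1 (.l 6) (.n 0 (.l 6) (.l 6)))))
    [(253671505920, 28185722880), (94489280512, 94489280512), (1924145348608, 274877906944), (824633720832, 274877906944)] rfl (by decide +kernel)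
end
mutual
theorem c1_m113_t22 : CovD 0 progs [(310042951680, 28185722880), (94489280512, 94489280512), (1924145348608, 274877906944), (824633720832, 274877906944)] :=
  Pool.Agent.helper14.QF.covD_F chks_eq (.n 3 (.n 3 (.n 1 (.l 6) (.n 1 (.l 6) (.n 1 (.l 6) (.l 6)))) (.n 1 (.l 6) (.n 1 (.l 6) (.n 1 (.l 6) (.l 6))))) (.n 3 (.n 1 (.l 6) (.n 1 (.l 6) (.n 2 (.l 6) (.l 6)))) (.n 1 (.l 6) (.n 1 (.l 6) (.n 2 (.l 6) (.l 6))))))
    [(310042951680, 28185722880), (94489280512, 94489280512), (1924145348608, 274877906944), (824633720832, 274877906944)] rfl (by decide +kernel)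
theorem c1_m113_t24 : CovD 0 progs [(366414397440, 28185722880), (94489280512, 94489280512), (1924145348608, 274877906944), (687194767360, 137438953472)] :=
  Pool.Agent.helper14.QF.covD_F chks_eq (.n 3 (.n 1 (.n 1 (.l 6) (.l 6)) (.n 1 (.n 1 (.l 6) (.l 6)) (.n 0 (.n 2 (.l 6) (.l 6)) (.n 2 (.n 3 (.l 4) (.l 5)) (.n 3 (.l 4) (.l 5)))))) (.n 1 (.n 1 (.l 6) (.l 6)) (.n 1 (.n 1 (.l 6) (.l 6)) (.n 0 (.n 1 (.l 6) (.n 2 (.l 6) (.l 6))) (.n 0 (.n 2 (.l 5) (.l 5)) (.n 1 (.l 5) (.n 2 (.l 5) (.l 0))))))))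
    [(366414397440, 28185722880), (94489280512, 94489280512), (1924145348608, 274877906944), (687194767360, 137438953472)] rfl (by decide +kernel)
end
mutual
theorem c1_m113_t25 : CovD 0 progs [(366414397440, 28185722880), (94489280512, 94489280512), (1924145348608, 274877906944), (962072674304, 137438953472)] :=
  Pool.Agent.helper14.QF.covD_F chks_eq (.n 3 (.n 1 (.n 1 (.l 6) (.l 6)) (.n 1 (.n 1 (.l 6) (.l 6)) (.n 2 (.n 3 (.n 0 (.l 0) (.l 0)) (.l 0)) (.n 1 (.l 6) (.n 0 (.l 6) (.l 0)))))) (.n 1 (.n 1 (.l 6) (.l 6)) (.n 1 (.n 1 (.l 6) (.l 6)) (.n 2 (.n 3 (.l 0) (.l 0)) (.n 3 (.l 0) (.l 0))))))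
    [(366414397440, 28185722880), (94489280512, 94489280512), (1924145348608, 274877906944), (962072674304, 137438953472)] rfl (by decide +kernel)
theorem c1_m113_t27 : CovD 0 progs [(422785843200, 28185722880), (94489280512, 94489280512), (1924145348608, 274877906944), (618475290624, 68719476736)] :=
  Pool.Agent.helper14.QF.covD_F chks_eq (.n 1 (.n 1 (.l 6) (.n 0 (.l 6) (.l 5))) (.n 0 (.n 1 (.n 1 (.l 6) (.l 5)) (.n 1 (.n 2 (.l 5) (.l 5)) (.n 2 (.n 0 (.l 5) (.l 0)) (.n 3 (.l 0) (.l 0))))) (.n 1 (.n 2 (.l 5) (.l 5)) (.n 1 (.n 2 (.l 0) (.l 0)) (.n 2 (.l 0) (.l 0))))))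
    [(422785843200, 28185722880), (94489280512, 94489280512), (1924145348608, 274877906944), (618475290624, 68719476736)] rfl (by decide +kernel)
end
mutual
theorem c1_m113_t28 : CovD 0 progs [(422785843200, 28185722880), (94489280512, 94489280512), (1924145348608, 274877906944), (755914244096, 68719476736)] :=
  Pool.Agent.helper14.QF.covD_F chks_eq (.n 1 (.n 1 (.l 6) (.n 0 (.l 6) (.l 5))) (.n 1 (.n 0 (.n 2 (.l 5) (.l 5)) (.n 2 (.l 0) (.l 0))) (.n 0 (.n 2 (.n 3 (.l 0) (.l 0)) (.n 1 (.l 0) (.l 0))) (.n 0 (.n 2 (.l 0) (.l 0)) (.n 2 (.l 0) (.l 0))))))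
    [(422785843200, 28185722880), (94489280512, 94489280512), (1924145348608, 274877906944), (755914244096, 68719476736)] rfl (by decide +kernel)
theorem c1_m113_t30 : CovD 0 progs [(422785843200, 28185722880), (94489280512, 94489280512), (1924145348608, 274877906944), (962072674304, 137438953472)] :=
  Pool.Agent.helper14.QF.covD_F chks_eq (.n 3 (.n 1 (.n 1 (.l 6) (.n 0 (.l 6) (.l 0))) (.n 1 (.n 3 (.n 0 (.l 0) (.l 0)) (.l 0)) (.n 2 (.n 0 (.l 0) (.l 0)) (.n 3 (.l 1) (.l 0))))) (.n 1 (.n 1 (.l 0) (.n 0 (.l 5) (.l 0))) (.n 1 (.n 1 (.l 0) (.l 0)) (.n 2 (.l 0) (.n 0 (.l 0) (.l 0))))))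
    [(422785843200, 28185722880), (94489280512, 94489280512), (1924145348608, 274877906944), (962072674304, 137438953472)] rfl (by decide +kernel)
end
theorem c1_m113_t3 : CovD 0 progs [(310042951680, 28185722880), (94489280512, 94489280512), (1374389534720, 274877906944), (824633720832, 274877906944)] :=
  covD_split 3 (by decide +kernel) c1_m113_t1 c1_m113_t2
theorem c1_m113_t4 : CovD 0 progs [(281857228800, 56371445760), (94489280512, 94489280512), (1374389534720, 274877906944), (824633720832, 274877906944)] :=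
  covD_split 0 (by decide +kernel) c1_m113_t0 c1_m113_t3
theorem c1_m113_t7 : CovD 0 progs [(366414397440, 28185722880), (94489280512, 94489280512), (1374389534720, 274877906944), (618475290624, 68719476736)] :=
  covD_split 0 (by decide +kernel) c1_m113_t5 c1_m113_t6
theorem c1_m113_t9 : CovD 0 progs [(366414397440, 28185722880), (94489280512, 94489280512), (1374389534720, 274877906944), (687194767360, 137438953472)] :=
  covD_split 3 (by decide +kernel) c1_m113_t7 c1_m113_t8
theorem c1_m113_t11 : CovD 0 progs [(366414397440, 28185722880), (94489280512, 94489280512), (1374389534720, 274877906944), (824633720832, 274877906944)] :=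
  covD_split 3 (by decide +kernel) c1_m113_t9 c1_m113_t10
theorem c1_m113_t14 : CovD 0 progs [(422785843200, 28185722880), (94489280512, 94489280512), (1374389534720, 274877906944), (618475290624, 68719476736)] :=
  covD_split 0 (by decide +kernel) c1_m113_t12 c1_m113_t13
theorem c1_m113_t16 : CovD 0 progs [(422785843200, 28185722880), (94489280512, 94489280512), (1374389534720, 274877906944), (687194767360, 137438953472)] :=
  covD_split 3 (by decide +kernel) c1_m113_t14 c1_m113_t15
theorem c1_m113_t18 : CovD 0 progs [(422785843200, 28185722880), (94489280512, 94489280512), (1374389534720, 274877906944), (824633720832, 274877906944)] :=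
  covD_split 3 (by decide +kernel) c1_m113_t16 c1_m113_t17
theorem c1_m113_t19 : CovD 0 progs [(394600120320, 56371445760), (94489280512, 94489280512), (1374389534720, 274877906944), (824633720832, 274877906944)] :=
  covD_split 0 (by decide +kernel) c1_m113_t11 c1_m113_t18
theorem c1_m113_t20 : CovD 0 progs [(338228674560, 112742891520), (94489280512, 94489280512), (1374389534720, 274877906944), (824633720832, 274877906944)] :=
  covD_split 0 (by decide +kernel) c1_m113_t4 c1_m113_t19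
theorem c1_m113_t23 : CovD 0 progs [(281857228800, 56371445760), (94489280512, 94489280512), (1924145348608, 274877906944), (824633720832, 274877906944)] :=
  covD_split 0 (by decide +kernel) c1_m113_t21 c1_m113_t22
theorem c1_m113_t26 : CovD 0 progs [(366414397440, 28185722880), (94489280512, 94489280512), (1924145348608, 274877906944), (824633720832, 274877906944)] :=
  covD_split 3 (by decide +kernel) c1_m113_t24 c1_m113_t25
theorem c1_m113_t29 : CovD 0 progs [(422785843200, 28185722880), (94489280512, 94489280512), (1924145348608, 274877906944), (687194767360, 137438953472)] :=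
  covD_split 3 (by decide +kernel) c1_m113_t27 c1_m113_t28
theorem c1_m113_t31 : CovD 0 progs [(422785843200, 28185722880), (94489280512, 94489280512), (1924145348608, 274877906944), (824633720832, 274877906944)] :=
  covD_split 3 (by decide +kernel) c1_m113_t29 c1_m113_t30
theorem c1_m113_t32 : CovD 0 progs [(394600120320, 56371445760), (94489280512, 94489280512), (1924145348608, 274877906944), (824633720832, 274877906944)] :=
  covD_split 0 (by decide +kernel) c1_m113_t26 c1_m113_t31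
theorem c1_m113_t33 : CovD 0 progs [(338228674560, 112742891520), (94489280512, 94489280512), (1924145348608, 274877906944), (824633720832, 274877906944)] :=
  covD_split 0 (by decide +kernel) c1_m113_t23 c1_m113_t32
theorem c1_m113 : CovD 0 progs [(338228674560, 112742891520), (94489280512, 94489280512), (1649267441664, 549755813888), (824633720832, 274877906944)] :=
  covD_split 2 (by decide +kernel) c1_m113_t20 c1_m113_t33

end Pool.Agent.helper71.FJ.Crt.QMa
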