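import Pool.Agent.helper71.FJ.Crt.QMaP

/-!
Generated certificates.
-/

namespace Pool.Agent.helper71.FJ.Crt.QMa

open Pool.Agent.helper31.IA (Z Op)
open Pool.Agent.helper31.IC

mutual
theorem c1_m114_t0 : CovD 0 progs [(253671505920, 28185722880), (283467841536, 94489280512), (1374389534720, 274877906944), (274877906944, 274877906944)] :=
  Pool.Agent.helper14.QF.covD_F chks_eq (.n 3 (.n 3 (.n 1 (.n 1 (.n 0 (.l 6) (.l 6)) (.l 11)) (.l 11)) (.n 1 (.n 1 (.n 2 (.l 6) (.l 6)) (.l 11)) (.l 11))) (.n 3 (.n 1 (.n 1 (.n 2 (.l 6) (.l 6)) (.l 11)) (.l 11)) (.n 1 (.n 1 (.n 2 (.l 6) (.l 6)) (.l 11)) (.l 11))))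
    [(253671505920, 28185722880), (283467841536, 94489280512), (1374389534720, 274877906944), (274877906944, 274877906944)] rfl (by decide +kernel)
theorem c1_m114_t1 : CovD 0 progs [(295950090240, 14092861440), (236223201280, 47244640256), (1374389534720, 274877906944), (68719476736, 68719476736)] :=
  Pool.Agent.helper14.QF.covD_F chks_eq (.n 1 (.n 2 (.n 2 (.l 6) (.l 6)) (.l 6)) (.l 11))
    [(295950090240, 14092861440), (236223201280, 47244640256), (1374389534720, 274877906944), (68719476736, 68719476736)] rfl (by decide +kernel)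
end
mutual
theorem c1_m114_t2 : CovD 0 progs [(317089382400, 7046430720), (236223201280, 47244640256), (1374389534720, 274877906944), (68719476736, 68719476736)] :=
  Pool.Agent.helper14.QF.covD_F chks_eq (.n 1 (.n 2 (.n 2 (.n 0 (.l 4) (.n 0 (.l 4) (.l 4))) (.l 6)) (.l 6)) (.l 11))
    [(317089382400, 7046430720), (236223201280, 47244640256), (1374389534720, 274877906944), (68719476736, 68719476736)] rfl (by decide +kernel)
theorem c1_m114_t3 : CovD 0 progs [(331182243840, 7046430720), (236223201280, 47244640256), (1374389534720, 274877906944), (68719476736, 68719476736)] :=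
  Pool.Agent.helper14.QF.covD_F chks_eq (.n 0 (.n 1 (.n 0 (.n 2 (.n 2 (.l 4) (.l 4)) (.l 6)) (.n 2 (.n 2 (.l 4) (.l 4)) (.l 6))) (.l 11)) (.n 0 (.n 1 (.n 2 (.n 2 (.n 0 (.l 4) (.l 4)) (.l 4)) (.l 6)) (.l 11)) (.n 1 (.n 1 (.n 2 (.n 2 (.l 4) (.l 4)) (.l 6)) (.n 2 (.n 2 (.l 4) (.l 4)) (.l 4))) (.l 11))))
    [(331182243840, 7046430720), (236223201280, 47244640256), (1374389534720, 274877906944), (68719476736, 68719476736)] rfl (by decide +kernel)
end
mutual
theorem c1_m114_t6 : CovD 0 progs [(310042951680, 28185722880), (330712481792, 47244640256), (1374389534720, 274877906944), (68719476736, 68719476736)] :=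
  Pool.Agent.helper14.QF.covD_F chks_eq (.l 11)
    [(310042951680, 28185722880), (330712481792, 47244640256), (1374389534720, 274877906944), (68719476736, 68719476736)] rfl (by decide +kernel)
theorem c1_m114_t8 : CovD 0 progs [(295950090240, 14092861440), (283467841536, 94489280512), (1374389534720, 274877906944), (206158430208, 68719476736)] :=
  Pool.Agent.helper14.QF.covD_F chks_eq (.n 1 (.n 1 (.n 2 (.n 0 (.l 6) (.n 2 (.n 2 (.l 6) (.l 6)) (.l 6))) (.l 6)) (.l 11)) (.l 11))
    [(295950090240, 14092861440), (283467841536, 94489280512), (1374389534720, 274877906944), (206158430208, 68719476736)] rfl (by decide +kernel)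
end
mutual
theorem c1_m114_t9 : CovD 0 progs [(317089382400, 7046430720), (283467841536, 94489280512), (1374389534720, 274877906944), (206158430208, 68719476736)] :=
  Pool.Agent.helper14.QF.covD_F chks_eq (.n 1 (.n 1 (.n 2 (.n 2 (.n 0 (.n 0 (.l 4) (.n 0 (.l 4) (.l 4))) (.n 0 (.n 3 (.l 4) (.l 4)) (.n 1 (.n 0 (.l 4) (.l 4)) (.l 4)))) (.l 6)) (.l 6)) (.l 11)) (.l 11))
    [(317089382400, 7046430720), (283467841536, 94489280512), (1374389534720, 274877906944), (206158430208, 68719476736)] rfl (by decide +kernel)
theorem c1_m114_t10 : CovD 0 progs [(327659028480, 3523215360), (283467841536, 94489280512), (1374389534720, 274877906944), (206158430208, 68719476736)] :=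
  Pool.Agent.helper14.QF.covD_F chks_eq (.n 1 (.n 0 (.n 1 (.n 2 (.n 2 (.n 3 (.l 4) (.n 1 (.l 4) (.l 4))) (.n 1 (.l 4) (.l 4))) (.l 6)) (.l 11)) (.n 1 (.n 1 (.n 2 (.n 2 (.n 0 (.l 4) (.l 4)) (.l 4)) (.l 6)) (.n 2 (.n 2 (.n 0 (.l 4) (.l 4)) (.l 4)) (.l 6))) (.l 11))) (.l 11))
    [(327659028480, 3523215360), (283467841536, 94489280512), (1374389534720, 274877906944), (206158430208, 68719476736)] rfl (by decide +kernel)
end
mutual
theorem c1_m114_t11 : CovD 0 progs [(334705459200, 3523215360), (283467841536, 94489280512), (1374389534720, 274877906944), (206158430208, 68719476736)] :=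
  Pool.Agent.helper14.QF.covD_F chks_eq (.n 1 (.n 1 (.n 1 (.n 2 (.n 2 (.n 0 (.n 2 (.l 4) (.l 4)) (.n 0 (.l 4) (.l 4))) (.l 6)) (.l 6)) (.n 2 (.n 2 (.n 3 (.l 4) (.l 4)) (.l 4)) (.n 1 (.l 6) (.l 4)))) (.l 11)) (.l 11))
    [(334705459200, 3523215360), (283467841536, 94489280512), (1374389534720, 274877906944), (206158430208, 68719476736)] rfl (by decide +kernel)
theorem c1_m114_t16 : CovD 0 progs [(295950090240, 14092861440), (283467841536, 94489280512), (1374389534720, 274877906944), (343597383680, 68719476736)] :=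
  Pool.Agent.helper14.QF.covD_F chks_eq (.n 1 (.n 1 (.n 2 (.n 1 (.l 6) (.n 2 (.n 2 (.n 2 (.l 6) (.l 6)) (.l 6)) (.l 6))) (.l 6)) (.l 11)) (.l 11))
    [(295950090240, 14092861440), (283467841536, 94489280512), (1374389534720, 274877906944), (343597383680, 68719476736)] rfl (by decide +kernel)
end
mutual
theorem c1_m114_t17 : CovD 0 progs [(324135813120, 14092861440), (200789721088, 11811160064), (1374389534720, 274877906944), (343597383680, 68719476736)] :=
  Pool.Agent.helper14.QF.covD_F chks_eq (.n 0 (.n 2 (.n 0 (.n 1 (.l 6) (.l 6)) (.n 2 (.n 1 (.l 6) (.n 2 (.n 3 (.l 4) (.l 4)) (.l 6))) (.l 6))) (.l 6)) (.n 0 (.n 2 (.n 2 (.n 3 (.n 0 (.l 4) (.l 4)) (.l 4)) (.l 6)) (.l 6)) (.n 2 (.n 2 (.n 3 (.l 4) (.n 2 (.l 4) (.l 4))) (.n 2 (.l 6) (.l 4))) (.l 6))))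
    [(324135813120, 14092861440), (200789721088, 11811160064), (1374389534720, 274877906944), (343597383680, 68719476736)] rfl (by decide +kernel)
theorem c1_m114_t18 : CovD 0 progs [(324135813120, 14092861440), (224412041216, 11811160064), (1374389534720, 274877906944), (343597383680, 68719476736)] :=
  Pool.Agent.helper14.QF.covD_F chks_eq (.n 0 (.n 2 (.n 2 (.n 0 (.n 0 (.n 3 (.l 4) (.l 4)) (.n 3 (.l 4) (.l 4))) (.n 0 (.n 3 (.l 4) (.l 4)) (.n 3 (.l 4) (.l 4)))) (.n 1 (.l 6) (.l 6))) (.l 6)) (.n 0 (.n 2 (.n 2 (.n 3 (.n 0 (.l 4) (.l 4)) (.l 4)) (.n 1 (.l 6) (.l 4))) (.l 6)) (.n 2 (.n 2 (.n 3 (.l 4) (.n 0 (.l 4) (.l 4))) (.n 1 (.l 4) (.l 4))) (.n 2 (.l 4) (.l 4)))))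
    [(324135813120, 14092861440), (224412041216, 11811160064), (1374389534720, 274877906944), (343597383680, 68719476736)] rfl (by decide +kernel)
end
mutual
theorem c1_m114_t20 : CovD 0 progs [(324135813120, 14092861440), (259845521408, 23622320128), (1374389534720, 274877906944), (343597383680, 68719476736)] :=
  Pool.Agent.helper14.QF.covD_F chks_eq (.l 11)
    [(324135813120, 14092861440), (259845521408, 23622320128), (1374389534720, 274877906944), (343597383680, 68719476736)] rfl (by decide +kernel)
theorem c1_m114_t22 : CovD 0 progs [(324135813120, 14092861440), (330712481792, 47244640256), (1374389534720, 274877906944), (343597383680, 68719476736)] :=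
  Pool.Agent.helper14.QF.covD_F chks_eq (.l 11)
    [(324135813120, 14092861440), (330712481792, 47244640256), (1374389534720, 274877906944), (343597383680, 68719476736)] rfl (by decide +kernel)
end
mutual
theorem c1_m114_t25 : CovD 0 progs [(295950090240, 14092861440), (283467841536, 94489280512), (1374389534720, 274877906944), (481036337152, 68719476736)] :=
  Pool.Agent.helper14.QF.covD_F chks_eq (.n 1 (.n 1 (.n 2 (.n 0 (.l 6) (.n 1 (.l 6) (.n 2 (.n 2 (.n 2 (.l 6) (.l 6)) (.l 6)) (.l 6)))) (.l 6)) (.l 11)) (.l 11))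
    [(295950090240, 14092861440), (283467841536, 94489280512), (1374389534720, 274877906944), (481036337152, 68719476736)] rfl (by decide +kernel)
theorem c1_m114_t26 : CovD 0 progs [(317089382400, 7046430720), (236223201280, 47244640256), (1374389534720, 274877906944), (481036337152, 68719476736)] :=
  Pool.Agent.helper14.QF.covD_F chks_eq (.n 0 (.n 1 (.n 2 (.n 2 (.n 1 (.l 6) (.n 2 (.n 0 (.n 3 (.l 4) (.l 4)) (.n 3 (.l 4) (.l 4))) (.l 6))) (.l 6)) (.l 6)) (.l 11)) (.n 1 (.n 1 (.n 2 (.n 2 (.n 1 (.l 6) (.n 3 (.l 4) (.n 3 (.l 4) (.l 4)))) (.l 6)) (.l 6)) (.n 2 (.n 2 (.n 3 (.n 0 (.l 4) (.l 4)) (.n 3 (.l 4) (.n 0 (.l 4) (.l 4)))) (.n 1 (.l 6) (.l 6))) (.l 6))) (.l 11)))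
    [(317089382400, 7046430720), (236223201280, 47244640256), (1374389534720, 274877906944), (481036337152, 68719476736)] rfl (by decide +kernel)
end
mutual
theorem c1_m114_t27 : CovD 0 progs [(331182243840, 7046430720), (236223201280, 47244640256), (1168231104512, 68719476736), (481036337152, 68719476736)] :=
  Pool.Agent.helper14.QF.covD_F chks_eq (.n 0 (.n 1 (.n 1 (.n 3 (.n 3 (.l 4) (.n 0 (.l 4) (.l 4))) (.n 3 (.n 0 (.l 4) (.l 4)) (.l 4))) (.n 3 (.n 2 (.l 4) (.l 4)) (.n 3 (.l 4) (.l 4)))) (.l 11)) (.n 1 (.n 3 (.n 2 (.n 3 (.l 4) (.l 4)) (.n 3 (.l 4) (.l 4))) (.n 3 (.n 0 (.l 4) (.l 4)) (.l 4))) (.l 11)))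
    [(331182243840, 7046430720), (236223201280, 47244640256), (1168231104512, 68719476736), (481036337152, 68719476736)] rfl (by decide +kernel)
theorem c1_m114_t28 : CovD 0 progs [(331182243840, 7046430720), (236223201280, 47244640256), (1305670057984, 68719476736), (481036337152, 68719476736)] :=
  Pool.Agent.helper14.QF.covD_F chks_eq (.n 0 (.n 1 (.n 1 (.l 6) (.n 3 (.l 4) (.n 0 (.l 4) (.l 4)))) (.l 11)) (.n 1 (.n 1 (.n 0 (.l 6) (.n 3 (.l 4) (.l 4))) (.n 3 (.l 4) (.l 4))) (.l 11)))
    [(331182243840, 7046430720), (236223201280, 47244640256), (1305670057984, 68719476736), (481036337152, 68719476736)] rfl (by decide +kernel)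
end
mutual
theorem c1_m114_t30 : CovD 0 progs [(331182243840, 7046430720), (236223201280, 47244640256), (1511828488192, 137438953472), (481036337152, 68719476736)] :=
  Pool.Agent.helper14.QF.covD_F chks_eq (.n 1 (.n 0 (.n 2 (.l 6) (.l 6)) (.n 1 (.l 6) (.n 2 (.n 3 (.l 4) (.l 4)) (.l 6)))) (.l 11))
    [(331182243840, 7046430720), (236223201280, 47244640256), (1511828488192, 137438953472), (481036337152, 68719476736)] rfl (by decide +kernel)
theorem c1_m114_t33 : CovD 0 progs [(324135813120, 14092861440), (330712481792, 47244640256), (1374389534720, 274877906944), (481036337152, 68719476736)] :=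
  Pool.Agent.helper14.QF.covD_F chks_eq (.l 11)
    [(324135813120, 14092861440), (330712481792, 47244640256), (1374389534720, 274877906944), (481036337152, 68719476736)] rfl (by decide +kernel)
end
theorem c1_m114_t4 : CovD 0 progs [(324135813120, 14092861440), (236223201280, 47244640256), (1374389534720, 274877906944), (68719476736, 68719476736)] :=
  covD_split 0 (by decide +kernel) c1_m114_t2 c1_m114_t3
theorem c1_m114_t5 : CovD 0 progs [(310042951680, 28185722880), (236223201280, 47244640256), (1374389534720, 274877906944), (68719476736, 68719476736)] :=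
  covD_split 0 (by decide +kernel) c1_m114_t1 c1_m114_t4
theorem c1_m114_t7 : CovD 0 progs [(310042951680, 28185722880), (283467841536, 94489280512), (1374389534720, 274877906944), (68719476736, 68719476736)] :=
  covD_split 1 (by decide +kernel) c1_m114_t5 c1_m114_t6
theorem c1_m114_t12 : CovD 0 progs [(331182243840, 7046430720), (283467841536, 94489280512), (1374389534720, 274877906944), (206158430208, 68719476736)] :=
  covD_split 0 (by decide +kernel) c1_m114_t10 c1_m114_t11
theorem c1_m114_t13 : CovD 0 progs [(324135813120, 14092861440), (283467841536, 94489280512), (1374389534720, 274877906944), (206158430208, 68719476736)] :=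
  covD_split 0 (by decide +kernel) c1_m114_t9 c1_m114_t12
theorem c1_m114_t14 : CovD 0 progs [(310042951680, 28185722880), (283467841536, 94489280512), (1374389534720, 274877906944), (206158430208, 68719476736)] :=
  covD_split 0 (by decide +kernel) c1_m114_t8 c1_m114_t13
theorem c1_m114_t15 : CovD 0 progs [(310042951680, 28185722880), (283467841536, 94489280512), (1374389534720, 274877906944), (137438953472, 137438953472)] :=
  covD_split 3 (by decide +kernel) c1_m114_t7 c1_m114_t14
theorem c1_m114_t19 : CovD 0 progs [(324135813120, 14092861440), (212600881152, 23622320128), (1374389534720, 274877906944), (343597383680, 68719476736)] :=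
  covD_split 1 (by decide +kernel) c1_m114_t17 c1_m114_t18
theorem c1_m114_t21 : CovD 0 progs [(324135813120, 14092861440), (236223201280, 47244640256), (1374389534720, 274877906944), (343597383680, 68719476736)] :=
  covD_split 1 (by decide +kernel) c1_m114_t19 c1_m114_t20
theorem c1_m114_t23 : CovD 0 progs [(324135813120, 14092861440), (283467841536, 94489280512), (1374389534720, 274877906944), (343597383680, 68719476736)] :=
  covD_split 1 (by decide +kernel) c1_m114_t21 c1_m114_t22
theorem c1_m114_t24 : CovD 0 progs [(310042951680, 28185722880), (283467841536, 94489280512), (1374389534720, 274877906944), (343597383680, 68719476736)] :=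
  covD_split 0 (by decide +kernel) c1_m114_t16 c1_m114_t23
theorem c1_m114_t29 : CovD 0 progs [(331182243840, 7046430720), (236223201280, 47244640256), (1236950581248, 137438953472), (481036337152, 68719476736)] :=
  covD_split 2 (by decide +kernel) c1_m114_t27 c1_m114_t28
theorem c1_m114_t31 : CovD 0 progs [(331182243840, 7046430720), (236223201280, 47244640256), (1374389534720, 274877906944), (481036337152, 68719476736)] :=
  covD_split 2 (by decide +kernel) c1_m114_t29 c1_m114_t30
theorem c1_m114_t32 : CovD 0 progs [(324135813120, 14092861440), (236223201280, 47244640256), (1374389534720, 274877906944), (481036337152, 68719476736)] :=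
  covD_split 0 (by decide +kernel) c1_m114_t26 c1_m114_t31
theorem c1_m114_t34 : CovD 0 progs [(324135813120, 14092861440), (283467841536, 94489280512), (1374389534720, 274877906944), (481036337152, 68719476736)] :=
  covD_split 1 (by decide +kernel) c1_m114_t32 c1_m114_t33
theorem c1_m114_t35 : CovD 0 progs [(310042951680, 28185722880), (283467841536, 94489280512), (1374389534720, 274877906944), (481036337152, 68719476736)] :=
  covD_split 0 (by decide +kernel) c1_m114_t25 c1_m114_t34
theorem c1_m114_t36 : CovD 0 progs [(310042951680, 28185722880), (283467841536, 94489280512), (1374389534720, 274877906944), (412316860416, 137438953472)] :=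
  covD_split 3 (by decide +kernel) c1_m114_t24 c1_m114_t35
theorem c1_m114_t37 : CovD 0 progs [(310042951680, 28185722880), (283467841536, 94489280512), (1374389534720, 274877906944), (274877906944, 274877906944)] :=
  covD_split 3 (by decide +kernel) c1_m114_t15 c1_m114_t36
theorem c1_m114 : CovD 0 progs [(281857228800, 56371445760), (283467841536, 94489280512), (1374389534720, 274877906944), (274877906944, 274877906944)] :=
  covD_split 0 (by decide +kernel) c1_m114_t0 c1_m114_t37

end Pool.Agent.helper71.FJ.Crt.QMa
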