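import Pool.Agent.helper71.FJ.Crt.QMaP

/-!
Generated certificates.
-/

namespace Pool.Agent.helper71.FJ.Crt.QMa

open Pool.Agent.helper31.IA (Z Op)
open Pool.Agent.helper31.IC

mutual
theorem c1_m115_t0 : CovD 0 progs [(366414397440, 28185722880), (200789721088, 11811160064), (1374389534720, 274877906944), (68719476736, 68719476736)] :=
  Pool.Agent.helper14.QF.covD_F chks_eq (.n 0 (.n 0 (.n 0 (.n 2 (.n 2 (.n 0 (.l 4) (.l 4)) (.l 4)) (.l 6)) (.n 2 (.n 2 (.l 4) (.l 4)) (.l 6))) (.n 2 (.n 0 (.n 2 (.n 0 (.l 4) (.l 4)) (.l 4)) (.n 2 (.l 4) (.l 4))) (.n 2 (.l 4) (.l 4)))) (.n 2 (.n 0 (.n 0 (.n 2 (.l 4) (.l 4)) (.n 0 (.l 4) (.l 4))) (.n 0 (.l 4) (.l 4))) (.n 0 (.n 2 (.l 4) (.l 4)) (.n 0 (.l 4) (.l 4)))))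
    [(366414397440, 28185722880), (200789721088, 11811160064), (1374389534720, 274877906944), (68719476736, 68719476736)] rfl (by decide +kernel)
theorem c1_m115_t1 : CovD 0 progs [(366414397440, 28185722880), (224412041216, 11811160064), (1374389534720, 274877906944), (68719476736, 68719476736)] :=
  Pool.Agent.helper14.QF.covD_F chks_eq (.n 2 (.n 0 (.n 0 (.n 2 (.n 0 (.l 4) (.l 4)) (.l 4)) (.n 0 (.n 2 (.l 4) (.l 4)) (.n 2 (.l 4) (.l 4)))) (.n 0 (.n 2 (.n 0 (.l 4) (.l 4)) (.l 4)) (.n 0 (.l 4) (.l 4)))) (.n 0 (.n 0 (.n 1 (.l 6) (.l 4)) (.n 2 (.l 4) (.l 4))) (.n 0 (.n 2 (.l 4) (.l 4)) (.l 4))))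
    [(366414397440, 28185722880), (224412041216, 11811160064), (1374389534720, 274877906944), (68719476736, 68719476736)] rfl (by decide +kernel)
end
mutual
theorem c1_m115_t3 : CovD 0 progs [(366414397440, 28185722880), (259845521408, 23622320128), (1374389534720, 274877906944), (68719476736, 68719476736)] :=
  Pool.Agent.helper14.QF.covD_F chks_eq (.l 11)
    [(366414397440, 28185722880), (259845521408, 23622320128), (1374389534720, 274877906944), (68719476736, 68719476736)] rfl (by decide +kernel)
theorem c1_m115_t5 : CovD 0 progs [(366414397440, 28185722880), (330712481792, 47244640256), (1374389534720, 274877906944), (68719476736, 68719476736)] :=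
  Pool.Agent.helper14.QF.covD_F chks_eq (.l 11)
    [(366414397440, 28185722880), (330712481792, 47244640256), (1374389534720, 274877906944), (68719476736, 68719476736)] rfl (by decide +kernel)
end
mutual
theorem c1_m115_t7 : CovD 0 progs [(352321536000, 14092861440), (200789721088, 11811160064), (1374389534720, 274877906944), (206158430208, 68719476736)] :=
  Pool.Agent.helper14.QF.covD_F chks_eq (.n 2 (.n 0 (.n 0 (.n 2 (.n 1 (.l 4) (.l 4)) (.l 4)) (.n 2 (.n 2 (.n 0 (.l 4) (.l 4)) (.l 4)) (.n 0 (.l 4) (.l 4)))) (.n 0 (.n 2 (.n 3 (.l 4) (.l 4)) (.n 0 (.l 4) (.l 4))) (.n 2 (.n 3 (.l 4) (.l 4)) (.n 0 (.l 4) (.l 4))))) (.n 2 (.n 0 (.l 6) (.n 0 (.l 4) (.l 4))) (.l 6)))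
    [(352321536000, 14092861440), (200789721088, 11811160064), (1374389534720, 274877906944), (206158430208, 68719476736)] rfl (by decide +kernel)
theorem c1_m115_t8 : CovD 0 progs [(380507258880, 14092861440), (200789721088, 11811160064), (1374389534720, 274877906944), (206158430208, 68719476736)] :=
  Pool.Agent.helper14.QF.covD_F chks_eq (.n 0 (.n 2 (.n 0 (.n 2 (.n 0 (.l 4) (.l 4)) (.l 4)) (.n 2 (.l 4) (.l 4))) (.n 2 (.n 0 (.l 4) (.l 4)) (.l 4))) (.n 2 (.n 3 (.l 4) (.l 4)) (.n 0 (.l 4) (.l 4))))
    [(380507258880, 14092861440), (200789721088, 11811160064), (1374389534720, 274877906944), (206158430208, 68719476736)] rfl (by decide +kernel)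
end
mutual
theorem c1_m115_t10 : CovD 0 progs [(352321536000, 14092861440), (224412041216, 11811160064), (1374389534720, 274877906944), (206158430208, 68719476736)] :=
  Pool.Agent.helper14.QF.covD_F chks_eq (.n 0 (.n 2 (.n 0 (.n 2 (.n 0 (.l 4) (.l 4)) (.l 4)) (.n 2 (.n 0 (.l 4) (.l 4)) (.l 4))) (.n 2 (.l 4) (.l 4))) (.n 0 (.n 2 (.n 2 (.n 2 (.l 4) (.l 4)) (.l 4)) (.n 2 (.l 4) (.l 4))) (.n 2 (.n 2 (.n 0 (.l 4) (.l 4)) (.l 4)) (.n 2 (.l 4) (.l 4)))))
    [(352321536000, 14092861440), (224412041216, 11811160064), (1374389534720, 274877906944), (206158430208, 68719476736)] rfl (by decide +kernel)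
theorem c1_m115_t11 : CovD 0 progs [(380507258880, 14092861440), (224412041216, 11811160064), (1374389534720, 274877906944), (206158430208, 68719476736)] :=
  Pool.Agent.helper14.QF.covD_F chks_eq (.n 0 (.n 2 (.n 2 (.n 3 (.l 4) (.l 4)) (.n 0 (.l 4) (.l 4))) (.n 2 (.l 4) (.l 4))) (.n 2 (.n 2 (.l 4) (.l 4)) (.n 0 (.l 4) (.l 4))))
    [(380507258880, 14092861440), (224412041216, 11811160064), (1374389534720, 274877906944), (206158430208, 68719476736)] rfl (by decide +kernel)
end
mutual
theorem c1_m115_t14 : CovD 0 progs [(366414397440, 28185722880), (259845521408, 23622320128), (1374389534720, 274877906944), (206158430208, 68719476736)] :=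
  Pool.Agent.helper14.QF.covD_F chks_eq (.l 11)
    [(366414397440, 28185722880), (259845521408, 23622320128), (1374389534720, 274877906944), (206158430208, 68719476736)] rfl (by decide +kernel)
theorem c1_m115_t16 : CovD 0 progs [(366414397440, 28185722880), (330712481792, 47244640256), (1374389534720, 274877906944), (206158430208, 68719476736)] :=
  Pool.Agent.helper14.QF.covD_F chks_eq (.l 11)
    [(366414397440, 28185722880), (330712481792, 47244640256), (1374389534720, 274877906944), (206158430208, 68719476736)] rfl (by decide +kernel)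
end
mutual
theorem c1_m115_t19 : CovD 0 progs [(345275105280, 7046430720), (200789721088, 11811160064), (1374389534720, 274877906944), (343597383680, 68719476736)] :=
  Pool.Agent.helper14.QF.covD_F chks_eq (.n 0 (.n 2 (.n 2 (.n 3 (.n 0 (.l 4) (.l 4)) (.n 3 (.l 4) (.l 4))) (.n 2 (.n 3 (.l 4) (.l 4)) (.l 6))) (.l 6)) (.n 2 (.n 2 (.n 0 (.n 3 (.l 4) (.l 4)) (.n 3 (.l 4) (.l 4))) (.n 3 (.l 4) (.l 4))) (.n 1 (.l 6) (.n 2 (.l 4) (.l 4)))))
    [(345275105280, 7046430720), (200789721088, 11811160064), (1374389534720, 274877906944), (343597383680, 68719476736)] rfl (by decide +kernel)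
theorem c1_m115_t20 : CovD 0 progs [(345275105280, 7046430720), (224412041216, 11811160064), (1374389534720, 274877906944), (343597383680, 68719476736)] :=
  Pool.Agent.helper14.QF.covD_F chks_eq (.n 2 (.n 0 (.n 2 (.n 3 (.l 4) (.n 0 (.l 4) (.l 4))) (.n 3 (.l 4) (.l 4))) (.n 2 (.n 0 (.n 3 (.l 4) (.l 4)) (.n 3 (.l 4) (.l 4))) (.n 3 (.l 4) (.l 4)))) (.n 2 (.n 3 (.l 4) (.l 4)) (.n 0 (.l 4) (.l 4))))
    [(345275105280, 7046430720), (224412041216, 11811160064), (1374389534720, 274877906944), (343597383680, 68719476736)] rfl (by decide +kernel)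
end
mutual
theorem c1_m115_t22 : CovD 0 progs [(359367966720, 7046430720), (212600881152, 23622320128), (1374389534720, 274877906944), (343597383680, 68719476736)] :=
  Pool.Agent.helper14.QF.covD_F chks_eq (.n 0 (.n 2 (.n 2 (.n 2 (.n 3 (.l 4) (.l 4)) (.n 3 (.l 4) (.l 4))) (.n 0 (.n 3 (.l 4) (.l 4)) (.n 3 (.l 4) (.l 4)))) (.n 2 (.n 3 (.l 4) (.l 4)) (.n 1 (.l 4) (.l 4)))) (.n 2 (.n 2 (.n 3 (.n 0 (.l 4) (.l 4)) (.l 4)) (.n 3 (.l 4) (.l 4))) (.n 2 (.n 3 (.l 4) (.l 4)) (.n 0 (.l 4) (.l 4)))))
    [(359367966720, 7046430720), (212600881152, 23622320128), (1374389534720, 274877906944), (343597383680, 68719476736)] rfl (by decide +kernel)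
theorem c1_m115_t24 : CovD 0 progs [(380507258880, 14092861440), (212600881152, 23622320128), (1374389534720, 274877906944), (343597383680, 68719476736)] :=
  Pool.Agent.helper14.QF.covD_F chks_eq (.n 0 (.n 2 (.n 2 (.n 3 (.n 0 (.l 4) (.l 4)) (.l 4)) (.n 3 (.n 0 (.l 4) (.l 4)) (.l 4))) (.n 2 (.n 3 (.l 4) (.l 4)) (.n 0 (.l 4) (.l 4)))) (.n 2 (.n 2 (.n 3 (.l 4) (.l 4)) (.n 0 (.l 4) (.l 4))) (.n 2 (.n 0 (.l 4) (.l 4)) (.l 4))))
    [(380507258880, 14092861440), (212600881152, 23622320128), (1374389534720, 274877906944), (343597383680, 68719476736)] rfl (by decide +kernel)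
end
mutual
theorem c1_m115_t26 : CovD 0 progs [(366414397440, 28185722880), (259845521408, 23622320128), (1374389534720, 274877906944), (343597383680, 68719476736)] :=
  Pool.Agent.helper14.QF.covD_F chks_eq (.l 11)
    [(366414397440, 28185722880), (259845521408, 23622320128), (1374389534720, 274877906944), (343597383680, 68719476736)] rfl (by decide +kernel)
theorem c1_m115_t28 : CovD 0 progs [(366414397440, 28185722880), (330712481792, 47244640256), (1374389534720, 274877906944), (343597383680, 68719476736)] :=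
  Pool.Agent.helper14.QF.covD_F chks_eq (.l 11)
    [(366414397440, 28185722880), (330712481792, 47244640256), (1374389534720, 274877906944), (343597383680, 68719476736)] rfl (by decide +kernel)
end
mutual
theorem c1_m115_t30 : CovD 0 progs [(341751889920, 3523215360), (212600881152, 23622320128), (1374389534720, 274877906944), (481036337152, 68719476736)] :=
  Pool.Agent.helper14.QF.covD_F chks_eq (.n 2 (.n 2 (.n 3 (.n 0 (.n 3 (.l 4) (.l 4)) (.n 1 (.l 4) (.l 4))) (.n 3 (.l 4) (.l 4))) (.n 1 (.n 3 (.n 0 (.l 4) (.l 4)) (.l 4)) (.n 3 (.l 4) (.l 4)))) (.n 2 (.n 1 (.l 6) (.n 3 (.l 4) (.l 4))) (.n 3 (.l 4) (.l 4))))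
    [(341751889920, 3523215360), (212600881152, 23622320128), (1374389534720, 274877906944), (481036337152, 68719476736)] rfl (by decide +kernel)
theorem c1_m115_t31 : CovD 0 progs [(348798320640, 3523215360), (212600881152, 23622320128), (1374389534720, 274877906944), (481036337152, 68719476736)] :=
  Pool.Agent.helper14.QF.covD_F chks_eq (.n 2 (.n 2 (.n 3 (.n 3 (.l 4) (.l 4)) (.l 4)) (.n 3 (.n 0 (.l 4) (.l 4)) (.l 4))) (.n 2 (.n 3 (.l 4) (.l 4)) (.n 1 (.l 6) (.l 4))))
    [(348798320640, 3523215360), (212600881152, 23622320128), (1374389534720, 274877906944), (481036337152, 68719476736)] rfl (by decide +kernel)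
end
mutual
theorem c1_m115_t33 : CovD 0 progs [(345275105280, 7046430720), (259845521408, 23622320128), (1374389534720, 274877906944), (481036337152, 68719476736)] :=
  Pool.Agent.helper14.QF.covD_F chks_eq (.l 11)
    [(345275105280, 7046430720), (259845521408, 23622320128), (1374389534720, 274877906944), (481036337152, 68719476736)] rfl (by decide +kernel)
theorem c1_m115_t35 : CovD 0 progs [(359367966720, 7046430720), (236223201280, 47244640256), (1374389534720, 274877906944), (481036337152, 68719476736)] :=
  Pool.Agent.helper14.QF.covD_F chks_eq (.n 1 (.n 2 (.n 0 (.n 2 (.n 3 (.l 4) (.l 4)) (.n 3 (.l 4) (.l 4))) (.n 3 (.n 1 (.l 4) (.l 4)) (.l 4))) (.n 2 (.n 3 (.n 0 (.l 4) (.l 4)) (.l 4)) (.n 3 (.l 4) (.l 4)))) (.l 11))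
    [(359367966720, 7046430720), (236223201280, 47244640256), (1374389534720, 274877906944), (481036337152, 68719476736)] rfl (by decide +kernel)
end
mutual
theorem c1_m115_t37 : CovD 0 progs [(373460828160, 7046430720), (212600881152, 23622320128), (1374389534720, 274877906944), (481036337152, 68719476736)] :=
  Pool.Agent.helper14.QF.covD_F chks_eq (.n 0 (.n 2 (.n 3 (.l 4) (.l 5)) (.n 3 (.l 4) (.l 4))) (.n 2 (.n 2 (.n 1 (.l 4) (.l 5)) (.l 4)) (.n 1 (.l 4) (.l 4))))
    [(373460828160, 7046430720), (212600881152, 23622320128), (1374389534720, 274877906944), (481036337152, 68719476736)] rfl (by decide +kernel)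
theorem c1_m115_t38 : CovD 0 progs [(387553689600, 7046430720), (212600881152, 23622320128), (1374389534720, 274877906944), (481036337152, 68719476736)] :=
  Pool.Agent.helper14.QF.covD_F chks_eq (.n 1 (.n 2 (.n 2 (.n 0 (.l 4) (.n 2 (.l 5) (.l 4))) (.l 4)) (.l 4)) (.n 2 (.n 2 (.n 3 (.n 0 (.l 4) (.n 1 (.l 4) (.n 0 (.l 4) (.l 3)))) (.n 3 (.n 0 (.l 3) (.l 0)) (.l 3))) (.n 0 (.l 5) (.n 3 (.l 4) (.l 3)))) (.n 1 (.l 5) (.n 1 (.n 0 (.l 4) (.l 5)) (.l 11)))))
    [(387553689600, 7046430720), (212600881152, 23622320128), (1374389534720, 274877906944), (481036337152, 68719476736)] rfl (by decide +kernel)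
end
mutual
theorem c1_m115_t40 : CovD 0 progs [(380507258880, 14092861440), (259845521408, 23622320128), (1374389534720, 274877906944), (481036337152, 68719476736)] :=
  Pool.Agent.helper14.QF.covD_F chks_eq (.l 11)
    [(380507258880, 14092861440), (259845521408, 23622320128), (1374389534720, 274877906944), (481036337152, 68719476736)] rfl (by decide +kernel)
theorem c1_m115_t43 : CovD 0 progs [(366414397440, 28185722880), (330712481792, 47244640256), (1374389534720, 274877906944), (481036337152, 68719476736)] :=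
  Pool.Agent.helper14.QF.covD_F chks_eq (.l 11)
    [(366414397440, 28185722880), (330712481792, 47244640256), (1374389534720, 274877906944), (481036337152, 68719476736)] rfl (by decide +kernel)
end
mutual
theorem c1_m115_t47 : CovD 0 progs [(422785843200, 28185722880), (236223201280, 47244640256), (1374389534720, 274877906944), (68719476736, 68719476736)] :=
  Pool.Agent.helper14.QF.covD_F chks_eq (.n 1 (.n 0 (.n 2 (.n 0 (.l 4) (.n 1 (.l 4) (.n 2 (.l 4) (.l 4)))) (.n 2 (.l 4) (.l 4))) (.n 0 (.n 1 (.n 2 (.n 0 (.l 4) (.n 1 (.l 3) (.l 3))) (.l 4)) (.n 2 (.n 0 (.n 2 (.l 3) (.l 0)) (.n 2 (.l 0) (.l 0))) (.n 2 (.l 3) (.l 0)))) (.n 2 (.n 0 (.n 2 (.l 0) (.l 0)) (.n 2 (.l 0) (.l 0))) (.n 2 (.n 0 (.l 0) (.l 0)) (.l 0))))) (.l 11))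
    [(422785843200, 28185722880), (236223201280, 47244640256), (1374389534720, 274877906944), (68719476736, 68719476736)] rfl (by decide +kernel)
theorem c1_m115_t48 : CovD 0 progs [(422785843200, 28185722880), (330712481792, 47244640256), (1374389534720, 274877906944), (68719476736, 68719476736)] :=
  Pool.Agent.helper14.QF.covD_F chks_eq (.l 11)
    [(422785843200, 28185722880), (330712481792, 47244640256), (1374389534720, 274877906944), (68719476736, 68719476736)] rfl (by decide +kernel)
end
mutual
theorem c1_m115_t50 : CovD 0 progs [(408692981760, 14092861440), (212600881152, 23622320128), (1374389534720, 274877906944), (206158430208, 68719476736)] :=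
  Pool.Agent.helper14.QF.covD_F chks_eq (.n 0 (.n 1 (.n 2 (.l 4) (.l 4)) (.n 2 (.n 2 (.l 4) (.l 4)) (.l 4))) (.n 1 (.n 2 (.n 2 (.n 2 (.l 4) (.l 4)) (.l 4)) (.l 4)) (.n 0 (.n 2 (.n 2 (.n 1 (.l 4) (.n 3 (.l 4) (.l 3))) (.l 4)) (.l 4)) (.n 2 (.n 2 (.n 3 (.l 3) (.l 3)) (.n 2 (.l 3) (.l 3))) (.n 2 (.l 3) (.l 0))))))
    [(408692981760, 14092861440), (212600881152, 23622320128), (1374389534720, 274877906944), (206158430208, 68719476736)] rfl (by decide +kernel)
theorem c1_m115_t51 : CovD 0 progs [(436878704640, 14092861440), (212600881152, 23622320128), (1374389534720, 274877906944), (206158430208, 68719476736)] :=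
  Pool.Agent.helper14.QF.covD_F chks_eq (.n 0 (.n 1 (.n 2 (.n 0 (.n 2 (.l 3) (.l 3)) (.n 2 (.l 0) (.l 0))) (.n 2 (.l 3) (.l 0))) (.n 2 (.n 0 (.n 2 (.n 0 (.l 3) (.l 3)) (.l 3)) (.n 2 (.l 3) (.l 0))) (.n 2 (.n 0 (.l 0) (.l 0)) (.l 3)))) (.n 2 (.n 2 (.n 3 (.l 3) (.l 0)) (.n 1 (.l 0) (.l 0))) (.n 0 (.n 2 (.l 0) (.l 0)) (.n 2 (.l 0) (.l 0)))))
    [(436878704640, 14092861440), (212600881152, 23622320128), (1374389534720, 274877906944), (206158430208, 68719476736)] rfl (by decide +kernel)
end
mutual
theorem c1_m115_t53 : CovD 0 progs [(422785843200, 28185722880), (259845521408, 23622320128), (1374389534720, 274877906944), (206158430208, 68719476736)] :=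
  Pool.Agent.helper14.QF.covD_F chks_eq (.l 11)
    [(422785843200, 28185722880), (259845521408, 23622320128), (1374389534720, 274877906944), (206158430208, 68719476736)] rfl (by decide +kernel)
theorem c1_m115_t55 : CovD 0 progs [(422785843200, 28185722880), (330712481792, 47244640256), (1374389534720, 274877906944), (206158430208, 68719476736)] :=
  Pool.Agent.helper14.QF.covD_F chks_eq (.l 11)
    [(422785843200, 28185722880), (330712481792, 47244640256), (1374389534720, 274877906944), (206158430208, 68719476736)] rfl (by decide +kernel)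
end
mutual
theorem c1_m115_t58 : CovD 0 progs [(401646551040, 7046430720), (236223201280, 47244640256), (1374389534720, 274877906944), (343597383680, 68719476736)] :=
  Pool.Agent.helper14.QF.covD_F chks_eq (.n 1 (.n 1 (.n 2 (.n 0 (.l 4) (.n 2 (.n 2 (.l 4) (.l 4)) (.l 4))) (.l 4)) (.n 2 (.n 0 (.n 2 (.n 3 (.l 4) (.n 3 (.l 4) (.l 3))) (.l 4)) (.n 2 (.n 0 (.n 3 (.l 4) (.l 3)) (.n 3 (.l 3) (.l 3))) (.n 3 (.l 4) (.l 3)))) (.n 1 (.l 4) (.n 0 (.l 4) (.n 1 (.l 4) (.l 11)))))) (.l 11))
    [(401646551040, 7046430720), (236223201280, 47244640256), (1374389534720, 274877906944), (343597383680, 68719476736)] rfl (by decide +kernel)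
theorem c1_m115_t59 : CovD 0 progs [(415739412480, 7046430720), (236223201280, 47244640256), (1374389534720, 274877906944), (343597383680, 68719476736)] :=
  Pool.Agent.helper14.QF.covD_F chks_eq (.n 1 (.n 1 (.n 2 (.n 2 (.n 0 (.n 3 (.l 3) (.l 0)) (.n 3 (.l 0) (.l 0))) (.n 3 (.l 4) (.l 3))) (.n 2 (.l 5) (.l 4))) (.n 2 (.n 0 (.n 2 (.n 3 (.n 0 (.l 3) (.l 0)) (.l 3)) (.n 3 (.l 3) (.l 0))) (.n 2 (.n 3 (.l 0) (.l 0)) (.n 2 (.l 3) (.l 0)))) (.n 2 (.n 3 (.l 3) (.l 0)) (.n 1 (.l 3) (.l 13))))) (.l 11))
    [(415739412480, 7046430720), (236223201280, 47244640256), (1374389534720, 274877906944), (343597383680, 68719476736)] rfl (by decide +kernel)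
end
mutual
theorem c1_m115_t61 : CovD 0 progs [(408692981760, 14092861440), (330712481792, 47244640256), (1374389534720, 274877906944), (343597383680, 68719476736)] :=
  Pool.Agent.helper14.QF.covD_F chks_eq (.l 11)
    [(408692981760, 14092861440), (330712481792, 47244640256), (1374389534720, 274877906944), (343597383680, 68719476736)] rfl (by decide +kernel)
theorem c1_m115_t63 : CovD 0 progs [(436878704640, 14092861440), (283467841536, 94489280512), (1374389534720, 274877906944), (343597383680, 68719476736)] :=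
  Pool.Agent.helper14.QF.covD_F chks_eq (.n 1 (.n 1 (.n 2 (.n 0 (.n 0 (.n 2 (.n 3 (.l 3) (.l 0)) (.n 3 (.l 0) (.l 0))) (.n 1 (.n 2 (.l 0) (.l 0)) (.n 2 (.l 0) (.l 0)))) (.n 1 (.n 2 (.l 0) (.l 0)) (.n 2 (.l 0) (.l 0)))) (.n 0 (.n 1 (.n 2 (.l 3) (.l 0)) (.n 2 (.n 0 (.l 0) (.l 0)) (.l 0))) (.n 0 (.n 2 (.l 0) (.l 0)) (.n 1 (.l 0) (.l 0))))) (.l 11)) (.l 11))
    [(436878704640, 14092861440), (283467841536, 94489280512), (1374389534720, 274877906944), (343597383680, 68719476736)] rfl (by decide +kernel)
end
mutual
theorem c1_m115_t65 : CovD 0 progs [(408692981760, 14092861440), (212600881152, 23622320128), (1236950581248, 137438953472), (481036337152, 68719476736)] :=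
  Pool.Agent.helper14.QF.covD_F chks_eq (.n 0 (.n 1 (.n 2 (.n 3 (.n 0 (.l 3) (.l 0)) (.l 3)) (.n 3 (.l 5) (.l 0))) (.n 2 (.n 0 (.n 3 (.n 0 (.l 3) (.l 1)) (.l 0)) (.n 3 (.l 3) (.l 0))) (.n 3 (.n 0 (.l 3) (.l 0)) (.l 3)))) (.n 2 (.n 3 (.n 1 (.l 0) (.l 3)) (.l 0)) (.n 3 (.n 0 (.l 0) (.l 0)) (.l 0))))
    [(408692981760, 14092861440), (212600881152, 23622320128), (1236950581248, 137438953472), (481036337152, 68719476736)] rfl (by decide +kernel)
theorem c1_m115_t66 : CovD 0 progs [(436878704640, 14092861440), (212600881152, 23622320128), (1236950581248, 137438953472), (481036337152, 68719476736)] :=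
  Pool.Agent.helper14.QF.covD_F chks_eq (.n 0 (.n 2 (.n 3 (.l 0) (.l 0)) (.n 3 (.l 0) (.l 0))) (.n 2 (.l 0) (.l 0)))
    [(436878704640, 14092861440), (212600881152, 23622320128), (1236950581248, 137438953472), (481036337152, 68719476736)] rfl (by decide +kernel)
end
mutual
theorem c1_m115_t68 : CovD 0 progs [(422785843200, 28185722880), (259845521408, 23622320128), (1236950581248, 137438953472), (481036337152, 68719476736)] :=
  Pool.Agent.helper14.QF.covD_F chks_eq (.l 11)
    [(422785843200, 28185722880), (259845521408, 23622320128), (1236950581248, 137438953472), (481036337152, 68719476736)] rfl (by decide +kernel)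
theorem c1_m115_t70 : CovD 0 progs [(422785843200, 28185722880), (236223201280, 47244640256), (1511828488192, 137438953472), (481036337152, 68719476736)] :=
  Pool.Agent.helper14.QF.covD_F chks_eq (.n 1 (.n 0 (.n 0 (.n 1 (.n 0 (.l 5) (.n 2 (.l 5) (.l 3))) (.n 2 (.n 3 (.n 0 (.l 0) (.l 0)) (.l 0)) (.n 3 (.l 0) (.l 0)))) (.n 2 (.n 3 (.n 0 (.l 0) (.l 0)) (.l 0)) (.n 3 (.n 0 (.l 0) (.l 0)) (.l 0)))) (.n 0 (.n 1 (.n 2 (.l 0) (.l 0)) (.n 2 (.l 0) (.l 0))) (.n 2 (.l 0) (.l 0)))) (.l 11))
    [(422785843200, 28185722880), (236223201280, 47244640256), (1511828488192, 137438953472), (481036337152, 68719476736)] rfl (by decide +kernel)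
theorem c1_m115_t72 : CovD 0 progs [(422785843200, 28185722880), (330712481792, 47244640256), (1374389534720, 274877906944), (481036337152, 68719476736)] :=
  Pool.Agent.helper14.QF.covD_F chks_eq (.l 11)
    [(422785843200, 28185722880), (330712481792, 47244640256), (1374389534720, 274877906944), (481036337152, 68719476736)] rfl (by decide +kernel)
end
theorem c1_m115_t2 : CovD 0 progs [(366414397440, 28185722880), (212600881152, 23622320128), (1374389534720, 274877906944), (68719476736, 68719476736)] :=
  covD_split 1 (by decide +kernel) c1_m115_t0 c1_m115_t1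
theorem c1_m115_t4 : CovD 0 progs [(366414397440, 28185722880), (236223201280, 47244640256), (1374389534720, 274877906944), (68719476736, 68719476736)] :=
  covD_split 1 (by decide +kernel) c1_m115_t2 c1_m115_t3
theorem c1_m115_t6 : CovD 0 progs [(366414397440, 28185722880), (283467841536, 94489280512), (1374389534720, 274877906944), (68719476736, 68719476736)] :=
  covD_split 1 (by decide +kernel) c1_m115_t4 c1_m115_t5
theorem c1_m115_t9 : CovD 0 progs [(366414397440, 28185722880), (200789721088, 11811160064), (1374389534720, 274877906944), (206158430208, 68719476736)] :=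
  covD_split 0 (by decide +kernel) c1_m115_t7 c1_m115_t8
theorem c1_m115_t12 : CovD 0 progs [(366414397440, 28185722880), (224412041216, 11811160064), (1374389534720, 274877906944), (206158430208, 68719476736)] :=
  covD_split 0 (by decide +kernel) c1_m115_t10 c1_m115_t11
theorem c1_m115_t13 : CovD 0 progs [(366414397440, 28185722880), (212600881152, 23622320128), (1374389534720, 274877906944), (206158430208, 68719476736)] :=
  covD_split 1 (by decide +kernel) c1_m115_t9 c1_m115_t12
theorem c1_m115_t15 : CovD 0 progs [(366414397440, 28185722880), (236223201280, 47244640256), (1374389534720, 274877906944), (206158430208, 68719476736)] :=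
  covD_split 1 (by decide +kernel) c1_m115_t13 c1_m115_t14
theorem c1_m115_t17 : CovD 0 progs [(366414397440, 28185722880), (283467841536, 94489280512), (1374389534720, 274877906944), (206158430208, 68719476736)] :=
  covD_split 1 (by decide +kernel) c1_m115_t15 c1_m115_t16
theorem c1_m115_t18 : CovD 0 progs [(366414397440, 28185722880), (283467841536, 94489280512), (1374389534720, 274877906944), (137438953472, 137438953472)] :=
  covD_split 3 (by decide +kernel) c1_m115_t6 c1_m115_t17
theorem c1_m115_t21 : CovD 0 progs [(345275105280, 7046430720), (212600881152, 23622320128), (1374389534720, 274877906944), (343597383680, 68719476736)] :=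
  covD_split 1 (by decide +kernel) c1_m115_t19 c1_m115_t20
theorem c1_m115_t23 : CovD 0 progs [(352321536000, 14092861440), (212600881152, 23622320128), (1374389534720, 274877906944), (343597383680, 68719476736)] :=
  covD_split 0 (by decide +kernel) c1_m115_t21 c1_m115_t22
theorem c1_m115_t25 : CovD 0 progs [(366414397440, 28185722880), (212600881152, 23622320128), (1374389534720, 274877906944), (343597383680, 68719476736)] :=
  covD_split 0 (by decide +kernel) c1_m115_t23 c1_m115_t24
theorem c1_m115_t27 : CovD 0 progs [(366414397440, 28185722880), (236223201280, 47244640256), (1374389534720, 274877906944), (343597383680, 68719476736)] :=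
  covD_split 1 (by decide +kernel) c1_m115_t25 c1_m115_t26
theorem c1_m115_t29 : CovD 0 progs [(366414397440, 28185722880), (283467841536, 94489280512), (1374389534720, 274877906944), (343597383680, 68719476736)] :=
  covD_split 1 (by decide +kernel) c1_m115_t27 c1_m115_t28
theorem c1_m115_t32 : CovD 0 progs [(345275105280, 7046430720), (212600881152, 23622320128), (1374389534720, 274877906944), (481036337152, 68719476736)] :=
  covD_split 0 (by decide +kernel) c1_m115_t30 c1_m115_t31
theorem c1_m115_t34 : CovD 0 progs [(345275105280, 7046430720), (236223201280, 47244640256), (1374389534720, 274877906944), (481036337152, 68719476736)] :=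
  covD_split 1 (by decide +kernel) c1_m115_t32 c1_m115_t33
theorem c1_m115_t36 : CovD 0 progs [(352321536000, 14092861440), (236223201280, 47244640256), (1374389534720, 274877906944), (481036337152, 68719476736)] :=
  covD_split 0 (by decide +kernel) c1_m115_t34 c1_m115_t35
theorem c1_m115_t39 : CovD 0 progs [(380507258880, 14092861440), (212600881152, 23622320128), (1374389534720, 274877906944), (481036337152, 68719476736)] :=
  covD_split 0 (by decide +kernel) c1_m115_t37 c1_m115_t38
theorem c1_m115_t41 : CovD 0 progs [(380507258880, 14092861440), (236223201280, 47244640256), (1374389534720, 274877906944), (481036337152, 68719476736)] :=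
  covD_split 1 (by decide +kernel) c1_m115_t39 c1_m115_t40
theorem c1_m115_t42 : CovD 0 progs [(366414397440, 28185722880), (236223201280, 47244640256), (1374389534720, 274877906944), (481036337152, 68719476736)] :=
  covD_split 0 (by decide +kernel) c1_m115_t36 c1_m115_t41
theorem c1_m115_t44 : CovD 0 progs [(366414397440, 28185722880), (283467841536, 94489280512), (1374389534720, 274877906944), (481036337152, 68719476736)] :=
  covD_split 1 (by decide +kernel) c1_m115_t42 c1_m115_t43
theorem c1_m115_t45 : CovD 0 progs [(366414397440, 28185722880), (283467841536, 94489280512), (1374389534720, 274877906944), (412316860416, 137438953472)] :=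
  covD_split 3 (by decide +kernel) c1_m115_t29 c1_m115_t44
theorem c1_m115_t46 : CovD 0 progs [(366414397440, 28185722880), (283467841536, 94489280512), (1374389534720, 274877906944), (274877906944, 274877906944)] :=
  covD_split 3 (by decide +kernel) c1_m115_t18 c1_m115_t45
theorem c1_m115_t49 : CovD 0 progs [(422785843200, 28185722880), (283467841536, 94489280512), (1374389534720, 274877906944), (68719476736, 68719476736)] :=
  covD_split 1 (by decide +kernel) c1_m115_t47 c1_m115_t48
theorem c1_m115_t52 : CovD 0 progs [(422785843200, 28185722880), (212600881152, 23622320128), (1374389534720, 274877906944), (206158430208, 68719476736)] :=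
  covD_split 0 (by decide +kernel) c1_m115_t50 c1_m115_t51
theorem c1_m115_t54 : CovD 0 progs [(422785843200, 28185722880), (236223201280, 47244640256), (1374389534720, 274877906944), (206158430208, 68719476736)] :=
  covD_split 1 (by decide +kernel) c1_m115_t52 c1_m115_t53
theorem c1_m115_t56 : CovD 0 progs [(422785843200, 28185722880), (283467841536, 94489280512), (1374389534720, 274877906944), (206158430208, 68719476736)] :=
  covD_split 1 (by decide +kernel) c1_m115_t54 c1_m115_t55
theorem c1_m115_t57 : CovD 0 progs [(422785843200, 28185722880), (283467841536, 94489280512), (1374389534720, 274877906944), (137438953472, 137438953472)] :=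
  covD_split 3 (by decide +kernel) c1_m115_t49 c1_m115_t56
theorem c1_m115_t60 : CovD 0 progs [(408692981760, 14092861440), (236223201280, 47244640256), (1374389534720, 274877906944), (343597383680, 68719476736)] :=
  covD_split 0 (by decide +kernel) c1_m115_t58 c1_m115_t59
theorem c1_m115_t62 : CovD 0 progs [(408692981760, 14092861440), (283467841536, 94489280512), (1374389534720, 274877906944), (343597383680, 68719476736)] :=
  covD_split 1 (by decide +kernel) c1_m115_t60 c1_m115_t61
theorem c1_m115_t64 : CovD 0 progs [(422785843200, 28185722880), (283467841536, 94489280512), (1374389534720, 274877906944), (343597383680, 68719476736)] :=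
  covD_split 0 (by decide +kernel) c1_m115_t62 c1_m115_t63
theorem c1_m115_t67 : CovD 0 progs [(422785843200, 28185722880), (212600881152, 23622320128), (1236950581248, 137438953472), (481036337152, 68719476736)] :=
  covD_split 0 (by decide +kernel) c1_m115_t65 c1_m115_t66
theorem c1_m115_t69 : CovD 0 progs [(422785843200, 28185722880), (236223201280, 47244640256), (1236950581248, 137438953472), (481036337152, 68719476736)] :=
  covD_split 1 (by decide +kernel) c1_m115_t67 c1_m115_t68
theorem c1_m115_t71 : CovD 0 progs [(422785843200, 28185722880), (236223201280, 47244640256), (1374389534720, 274877906944), (481036337152, 68719476736)] :=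
  covD_split 2 (by decide +kernel) c1_m115_t69 c1_m115_t70
theorem c1_m115_t73 : CovD 0 progs [(422785843200, 28185722880), (283467841536, 94489280512), (1374389534720, 274877906944), (481036337152, 68719476736)] :=
  covD_split 1 (by decide +kernel) c1_m115_t71 c1_m115_t72
theorem c1_m115_t74 : CovD 0 progs [(422785843200, 28185722880), (283467841536, 94489280512), (1374389534720, 274877906944), (412316860416, 137438953472)] :=
  covD_split 3 (by decide +kernel) c1_m115_t64 c1_m115_t73
theorem c1_m115_t75 : CovD 0 progs [(422785843200, 28185722880), (283467841536, 94489280512), (1374389534720, 274877906944), (274877906944, 274877906944)] :=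
  covD_split 3 (by decide +kernel) c1_m115_t57 c1_m115_t74
theorem c1_m115 : CovD 0 progs [(394600120320, 56371445760), (283467841536, 94489280512), (1374389534720, 274877906944), (274877906944, 274877906944)] :=
  covD_split 0 (by decide +kernel) c1_m115_t46 c1_m115_t75

end Pool.Agent.helper71.FJ.Crt.QMa
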