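import Pool.Agent.helper71.FJ.Crt.QMaP

/-!
Generated certificates.
-/

namespace Pool.Agent.helper71.FJ.Crt.QMa

open Pool.Agent.helper31.IA (Z Op)
open Pool.Agent.helper31.IC

mutual
theorem c1_m116_t0 : CovD 0 progs [(253671505920, 28185722880), (283467841536, 94489280512), (1924145348608, 274877906944), (274877906944, 274877906944)] :=
  Pool.Agent.helper14.QF.covD_F chks_eq (.n 3 (.n 3 (.n 1 (.n 1 (.l 6) (.l 11)) (.l 11)) (.n 1 (.n 1 (.l 6) (.l 11)) (.l 11))) (.n 3 (.n 1 (.n 1 (.l 6) (.l 11)) (.l 11)) (.n 1 (.n 1 (.n 0 (.l 6) (.l 6)) (.l 11)) (.l 11))))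
    [(253671505920, 28185722880), (283467841536, 94489280512), (1924145348608, 274877906944), (274877906944, 274877906944)] rfl (by decide +kernel)
theorem c1_m116_t1 : CovD 0 progs [(310042951680, 28185722880), (283467841536, 94489280512), (1924145348608, 274877906944), (137438953472, 137438953472)] :=
  Pool.Agent.helper14.QF.covD_F chks_eq (.n 3 (.n 1 (.n 1 (.n 2 (.l 6) (.l 6)) (.l 11)) (.l 11)) (.n 1 (.n 1 (.n 0 (.n 1 (.l 6) (.l 6)) (.n 2 (.l 6) (.l 6))) (.l 11)) (.l 11)))
    [(310042951680, 28185722880), (283467841536, 94489280512), (1924145348608, 274877906944), (137438953472, 137438953472)] rfl (by decide +kernel)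
end
mutual
theorem c1_m116_t2 : CovD 0 progs [(310042951680, 28185722880), (283467841536, 94489280512), (1924145348608, 274877906944), (412316860416, 137438953472)] :=
  Pool.Agent.helper14.QF.covD_F chks_eq (.n 3 (.n 1 (.n 1 (.n 1 (.n 1 (.l 6) (.l 6)) (.n 0 (.l 6) (.n 2 (.l 6) (.n 0 (.l 4) (.l 4))))) (.l 11)) (.l 11)) (.n 1 (.n 1 (.n 1 (.n 2 (.l 6) (.l 6)) (.n 2 (.n 2 (.l 6) (.l 6)) (.n 0 (.l 6) (.n 0 (.l 4) (.l 4))))) (.l 11)) (.l 11)))
    [(310042951680, 28185722880), (283467841536, 94489280512), (1924145348608, 274877906944), (412316860416, 137438953472)] rfl (by decide +kernel)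
theorem c1_m116_t5 : CovD 0 progs [(366414397440, 28185722880), (283467841536, 94489280512), (1924145348608, 274877906944), (68719476736, 68719476736)] :=
  Pool.Agent.helper14.QF.covD_F chks_eq (.n 0 (.n 1 (.n 1 (.n 1 (.n 2 (.l 6) (.l 6)) (.n 2 (.n 0 (.l 4) (.l 4)) (.l 4))) (.l 11)) (.l 11)) (.n 1 (.n 1 (.n 1 (.n 2 (.n 0 (.l 4) (.l 4)) (.l 4)) (.n 2 (.n 0 (.l 4) (.l 4)) (.l 4))) (.l 11)) (.l 11)))
    [(366414397440, 28185722880), (283467841536, 94489280512), (1924145348608, 274877906944), (68719476736, 68719476736)] rfl (by decide +kernel)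
end
mutual
theorem c1_m116_t6 : CovD 0 progs [(366414397440, 28185722880), (283467841536, 94489280512), (1924145348608, 274877906944), (206158430208, 68719476736)] :=
  Pool.Agent.helper14.QF.covD_F chks_eq (.n 0 (.n 1 (.n 1 (.n 1 (.n 2 (.l 6) (.l 6)) (.n 2 (.n 2 (.n 0 (.l 4) (.l 4)) (.l 4)) (.n 0 (.l 4) (.l 4)))) (.l 11)) (.l 11)) (.n 1 (.n 1 (.n 2 (.n 0 (.n 2 (.l 4) (.l 4)) (.n 1 (.l 4) (.l 4))) (.n 1 (.n 0 (.l 4) (.l 4)) (.l 13))) (.l 11)) (.l 11)))
    [(366414397440, 28185722880), (283467841536, 94489280512), (1924145348608, 274877906944), (206158430208, 68719476736)] rfl (by decide +kernel)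
theorem c1_m116_t8 : CovD 0 progs [(366414397440, 28185722880), (283467841536, 94489280512), (1924145348608, 274877906944), (343597383680, 68719476736)] :=
  Pool.Agent.helper14.QF.covD_F chks_eq (.n 0 (.n 1 (.n 1 (.n 1 (.n 2 (.n 2 (.l 6) (.l 6)) (.n 0 (.l 4) (.l 4))) (.n 0 (.n 2 (.n 1 (.l 6) (.l 4)) (.l 4)) (.n 2 (.n 0 (.l 4) (.l 4)) (.l 4)))) (.l 11)) (.l 11)) (.n 1 (.n 1 (.n 0 (.n 2 (.n 2 (.n 0 (.l 4) (.l 4)) (.l 4)) (.n 1 (.l 4) (.l 13))) (.n 1 (.n 2 (.l 4) (.l 4)) (.n 2 (.l 5) (.l 13)))) (.l 11)) (.l 11)))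
    [(366414397440, 28185722880), (283467841536, 94489280512), (1924145348608, 274877906944), (343597383680, 68719476736)] rfl (by decide +kernel)
end
mutual
theorem c1_m116_t9 : CovD 0 progs [(352321536000, 14092861440), (283467841536, 94489280512), (1924145348608, 274877906944), (481036337152, 68719476736)] :=
  Pool.Agent.helper14.QF.covD_F chks_eq (.n 0 (.n 1 (.n 1 (.n 1 (.n 2 (.l 6) (.l 6)) (.n 2 (.n 3 (.l 4) (.l 4)) (.l 5))) (.l 11)) (.l 11)) (.n 1 (.n 1 (.n 1 (.n 2 (.n 3 (.l 4) (.l 4)) (.l 4)) (.n 2 (.n 2 (.l 4) (.l 4)) (.l 13))) (.l 11)) (.l 11)))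
    [(352321536000, 14092861440), (283467841536, 94489280512), (1924145348608, 274877906944), (481036337152, 68719476736)] rfl (by decide +kernel)
theorem c1_m116_t10 : CovD 0 progs [(380507258880, 14092861440), (283467841536, 94489280512), (1924145348608, 274877906944), (481036337152, 68719476736)] :=
  Pool.Agent.helper14.QF.covD_F chks_eq (.n 1 (.n 1 (.n 1 (.n 2 (.n 0 (.n 0 (.l 4) (.l 4)) (.l 4)) (.n 1 (.l 4) (.l 13))) (.n 2 (.n 0 (.n 0 (.l 4) (.l 5)) (.n 1 (.l 5) (.l 13))) (.l 13))) (.l 11)) (.l 11))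
    [(380507258880, 14092861440), (283467841536, 94489280512), (1924145348608, 274877906944), (481036337152, 68719476736)] rfl (by decide +kernel)
end
mutual
theorem c1_m116_t14 : CovD 0 progs [(422785843200, 28185722880), (283467841536, 94489280512), (1924145348608, 274877906944), (137438953472, 137438953472)] :=
  Pool.Agent.helper14.QF.covD_F chks_eq (.n 3 (.n 1 (.n 1 (.n 0 (.n 1 (.n 2 (.l 4) (.l 4)) (.n 2 (.l 4) (.l 13))) (.n 2 (.n 1 (.l 4) (.l 13)) (.l 13))) (.l 11)) (.l 11)) (.n 1 (.n 1 (.n 0 (.n 1 (.n 2 (.l 4) (.l 13)) (.n 2 (.n 0 (.l 4) (.l 13)) (.l 13))) (.n 2 (.n 1 (.n 0 (.l 4) (.n 0 (.l 0) (.l 0))) (.l 13)) (.l 13))) (.l 11)) (.l 11)))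
    [(422785843200, 28185722880), (283467841536, 94489280512), (1924145348608, 274877906944), (137438953472, 137438953472)] rfl (by decide +kernel)
theorem c1_m116_t15 : CovD 0 progs [(422785843200, 28185722880), (283467841536, 94489280512), (1924145348608, 274877906944), (343597383680, 68719476736)] :=
  Pool.Agent.helper14.QF.covD_F chks_eq (.n 1 (.n 1 (.n 0 (.n 1 (.n 2 (.n 2 (.l 4) (.l 5)) (.l 13)) (.n 2 (.n 2 (.l 13) (.l 13)) (.l 13))) (.n 2 (.n 1 (.n 1 (.n 0 (.l 0) (.l 0)) (.l 13)) (.l 13)) (.l 13))) (.l 11)) (.l 11))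
    [(422785843200, 28185722880), (283467841536, 94489280512), (1924145348608, 274877906944), (343597383680, 68719476736)] rfl (by decide +kernel)
theorem c1_m116_t16 : CovD 0 progs [(422785843200, 28185722880), (283467841536, 94489280512), (1924145348608, 274877906944), (481036337152, 68719476736)] :=
  Pool.Agent.helper14.QF.covD_F chks_eq (.n 1 (.n 1 (.n 0 (.n 1 (.n 2 (.n 0 (.n 1 (.l 4) (.l 5)) (.n 2 (.l 0) (.l 0))) (.l 13)) (.n 2 (.n 2 (.l 13) (.l 13)) (.l 13))) (.n 2 (.n 1 (.n 0 (.n 0 (.l 0) (.l 0)) (.l 0)) (.l 13)) (.l 13))) (.l 11)) (.l 11))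
    [(422785843200, 28185722880), (283467841536, 94489280512), (1924145348608, 274877906944), (481036337152, 68719476736)] rfl (by decide +kernel)
end
theorem c1_m116_t3 : CovD 0 progs [(310042951680, 28185722880), (283467841536, 94489280512), (1924145348608, 274877906944), (274877906944, 274877906944)] :=
  covD_split 3 (by decide +kernel) c1_m116_t1 c1_m116_t2
theorem c1_m116_t4 : CovD 0 progs [(281857228800, 56371445760), (283467841536, 94489280512), (1924145348608, 274877906944), (274877906944, 274877906944)] :=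
  covD_split 0 (by decide +kernel) c1_m116_t0 c1_m116_t3
theorem c1_m116_t7 : CovD 0 progs [(366414397440, 28185722880), (283467841536, 94489280512), (1924145348608, 274877906944), (137438953472, 137438953472)] :=
  covD_split 3 (by decide +kernel) c1_m116_t5 c1_m116_t6
theorem c1_m116_t11 : CovD 0 progs [(366414397440, 28185722880), (283467841536, 94489280512), (1924145348608, 274877906944), (481036337152, 68719476736)] :=
  covD_split 0 (by decide +kernel) c1_m116_t9 c1_m116_t10
theorem c1_m116_t12 : CovD 0 progs [(366414397440, 28185722880), (283467841536, 94489280512), (1924145348608, 274877906944), (412316860416, 137438953472)] :=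
  covD_split 3 (by decide +kernel) c1_m116_t8 c1_m116_t11
theorem c1_m116_t13 : CovD 0 progs [(366414397440, 28185722880), (283467841536, 94489280512), (1924145348608, 274877906944), (274877906944, 274877906944)] :=
  covD_split 3 (by decide +kernel) c1_m116_t7 c1_m116_t12
theorem c1_m116_t17 : CovD 0 progs [(422785843200, 28185722880), (283467841536, 94489280512), (1924145348608, 274877906944), (412316860416, 137438953472)] :=
  covD_split 3 (by decide +kernel) c1_m116_t15 c1_m116_t16
theorem c1_m116_t18 : CovD 0 progs [(422785843200, 28185722880), (283467841536, 94489280512), (1924145348608, 274877906944), (274877906944, 274877906944)] :=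
  covD_split 3 (by decide +kernel) c1_m116_t14 c1_m116_t17
theorem c1_m116_t19 : CovD 0 progs [(394600120320, 56371445760), (283467841536, 94489280512), (1924145348608, 274877906944), (274877906944, 274877906944)] :=
  covD_split 0 (by decide +kernel) c1_m116_t13 c1_m116_t18
theorem c1_m116 : CovD 0 progs [(338228674560, 112742891520), (283467841536, 94489280512), (1924145348608, 274877906944), (274877906944, 274877906944)] :=
  covD_split 0 (by decide +kernel) c1_m116_t4 c1_m116_t19

end Pool.Agent.helper71.FJ.Crt.QMa
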