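import Pool.Agent.helper71.FJ.Crt.QMaP

/-!
Generated certificates.
-/

namespace Pool.Agent.helper71.FJ.Crt.QMa

open Pool.Agent.helper31.IA (Z Op)
open Pool.Agent.helper31.IC

mutual
theorem c1_m117_t0 : CovD 0 progs [(253671505920, 28185722880), (283467841536, 94489280512), (1374389534720, 274877906944), (824633720832, 274877906944)] :=
  Pool.Agent.helper14.QF.covD_F chks_eq (.n 3 (.n 3 (.n 1 (.n 1 (.n 2 (.l 6) (.l 6)) (.l 11)) (.l 11)) (.n 1 (.n 1 (.n 2 (.l 6) (.l 6)) (.l 11)) (.l 11))) (.n 3 (.n 1 (.n 1 (.n 1 (.l 6) (.l 6)) (.l 11)) (.l 11)) (.n 1 (.n 1 (.n 0 (.l 6) (.l 6)) (.l 11)) (.l 11))))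
    [(253671505920, 28185722880), (283467841536, 94489280512), (1374389534720, 274877906944), (824633720832, 274877906944)] rfl (by decide +kernel)
theorem c1_m117_t1 : CovD 0 progs [(295950090240, 14092861440), (283467841536, 94489280512), (1374389534720, 274877906944), (618475290624, 68719476736)] :=
  Pool.Agent.helper14.QF.covD_F chks_eq (.n 1 (.n 1 (.n 2 (.n 0 (.l 6) (.n 1 (.l 6) (.n 2 (.n 2 (.l 6) (.l 6)) (.l 6)))) (.l 6)) (.l 11)) (.l 11))
    [(295950090240, 14092861440), (283467841536, 94489280512), (1374389534720, 274877906944), (618475290624, 68719476736)] rfl (by decide +kernel)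
end
mutual
theorem c1_m117_t2 : CovD 0 progs [(317089382400, 7046430720), (236223201280, 47244640256), (1374389534720, 274877906944), (618475290624, 68719476736)] :=
  Pool.Agent.helper14.QF.covD_F chks_eq (.n 0 (.n 1 (.n 2 (.n 2 (.n 1 (.l 6) (.n 2 (.n 3 (.n 3 (.l 4) (.l 4)) (.n 3 (.l 4) (.l 4))) (.l 6))) (.l 6)) (.l 6)) (.l 11)) (.n 1 (.n 2 (.n 2 (.n 3 (.n 0 (.n 1 (.l 6) (.n 3 (.l 4) (.l 4))) (.n 3 (.l 4) (.l 4))) (.n 3 (.l 4) (.l 4))) (.n 1 (.l 6) (.n 1 (.l 6) (.l 6)))) (.n 1 (.l 6) (.l 6))) (.l 11)))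
    [(317089382400, 7046430720), (236223201280, 47244640256), (1374389534720, 274877906944), (618475290624, 68719476736)] rfl (by decide +kernel)
theorem c1_m117_t3 : CovD 0 progs [(331182243840, 7046430720), (236223201280, 47244640256), (1374389534720, 274877906944), (618475290624, 68719476736)] :=
  Pool.Agent.helper14.QF.covD_F chks_eq (.n 1 (.n 2 (.n 3 (.n 0 (.n 2 (.n 3 (.l 4) (.l 4)) (.n 3 (.l 4) (.l 4))) (.n 3 (.n 1 (.l 4) (.l 4)) (.l 4))) (.n 3 (.n 0 (.l 4) (.l 4)) (.l 4))) (.n 1 (.l 6) (.n 0 (.n 2 (.l 6) (.l 6)) (.n 1 (.l 6) (.n 3 (.l 4) (.l 4)))))) (.l 11))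
    [(331182243840, 7046430720), (236223201280, 47244640256), (1374389534720, 274877906944), (618475290624, 68719476736)] rfl (by decide +kernel)
end
mutual
theorem c1_m117_t5 : CovD 0 progs [(324135813120, 14092861440), (330712481792, 47244640256), (1374389534720, 274877906944), (618475290624, 68719476736)] :=
  Pool.Agent.helper14.QF.covD_F chks_eq (.l 11)
    [(324135813120, 14092861440), (330712481792, 47244640256), (1374389534720, 274877906944), (618475290624, 68719476736)] rfl (by decide +kernel)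
theorem c1_m117_t8 : CovD 0 progs [(310042951680, 28185722880), (283467841536, 94489280512), (1374389534720, 274877906944), (755914244096, 68719476736)] :=
  Pool.Agent.helper14.QF.covD_F chks_eq (.n 1 (.n 0 (.n 1 (.n 2 (.n 1 (.l 6) (.n 2 (.l 6) (.l 6))) (.l 6)) (.l 11)) (.n 1 (.n 2 (.n 3 (.n 0 (.n 3 (.n 0 (.l 4) (.l 4)) (.l 4)) (.n 0 (.l 4) (.l 4))) (.n 3 (.l 4) (.l 4))) (.n 1 (.l 6) (.n 0 (.l 6) (.n 3 (.l 4) (.l 4))))) (.l 11))) (.l 11))
    [(310042951680, 28185722880), (283467841536, 94489280512), (1374389534720, 274877906944), (755914244096, 68719476736)] rfl (by decide +kernel)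
end
mutual
theorem c1_m117_t10 : CovD 0 progs [(310042951680, 28185722880), (283467841536, 94489280512), (1374389534720, 274877906944), (962072674304, 137438953472)] :=
  Pool.Agent.helper14.QF.covD_F chks_eq (.n 3 (.n 1 (.n 0 (.n 1 (.n 2 (.n 1 (.l 6) (.l 6)) (.l 6)) (.l 11)) (.n 1 (.n 1 (.n 2 (.n 3 (.l 4) (.l 0)) (.l 6)) (.n 2 (.n 3 (.l 5) (.l 0)) (.n 3 (.l 5) (.l 0)))) (.l 11))) (.l 11)) (.n 1 (.n 0 (.n 1 (.n 2 (.l 6) (.l 6)) (.l 11)) (.n 1 (.n 3 (.n 2 (.l 0) (.l 0)) (.l 0)) (.l 11))) (.l 11)))
    [(310042951680, 28185722880), (283467841536, 94489280512), (1374389534720, 274877906944), (962072674304, 137438953472)] rfl (by decide +kernel)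
theorem c1_m117_t13 : CovD 0 progs [(352321536000, 14092861440), (212600881152, 23622320128), (1374389534720, 274877906944), (618475290624, 68719476736)] :=
  Pool.Agent.helper14.QF.covD_F chks_eq (.n 0 (.n 0 (.n 2 (.n 3 (.n 2 (.l 4) (.l 4)) (.l 4)) (.n 3 (.n 1 (.l 4) (.l 4)) (.l 4))) (.n 2 (.n 3 (.l 4) (.l 4)) (.n 3 (.l 4) (.l 4)))) (.n 2 (.n 2 (.n 3 (.l 4) (.l 5)) (.n 3 (.l 4) (.l 4))) (.n 3 (.l 4) (.l 5))))
    [(352321536000, 14092861440), (212600881152, 23622320128), (1374389534720, 274877906944), (618475290624, 68719476736)] rfl (by decide +kernel)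
end
mutual
theorem c1_m117_t14 : CovD 0 progs [(373460828160, 7046430720), (212600881152, 23622320128), (1374389534720, 274877906944), (618475290624, 68719476736)] :=
  Pool.Agent.helper14.QF.covD_F chks_eq (.n 1 (.n 2 (.n 2 (.n 3 (.l 4) (.l 5)) (.l 5)) (.n 0 (.l 4) (.l 5))) (.n 2 (.n 3 (.n 2 (.n 0 (.l 4) (.n 0 (.l 3) (.l 3))) (.l 5)) (.n 3 (.n 0 (.l 3) (.l 0)) (.l 0))) (.n 3 (.l 5) (.n 2 (.l 0) (.l 0)))))
    [(373460828160, 7046430720), (212600881152, 23622320128), (1374389534720, 274877906944), (618475290624, 68719476736)] rfl (by decide +kernel)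
theorem c1_m117_t15 : CovD 0 progs [(387553689600, 7046430720), (212600881152, 23622320128), (1374389534720, 274877906944), (618475290624, 68719476736)] :=
  Pool.Agent.helper14.QF.covD_F chks_eq (.n 2 (.n 2 (.n 3 (.n 0 (.n 1 (.l 0) (.l 3)) (.l 3)) (.l 0)) (.n 3 (.n 0 (.n 0 (.l 3) (.l 0)) (.l 0)) (.l 0))) (.n 3 (.n 1 (.l 5) (.n 2 (.l 0) (.l 0))) (.n 2 (.l 0) (.l 0))))
    [(387553689600, 7046430720), (212600881152, 23622320128), (1374389534720, 274877906944), (618475290624, 68719476736)] rfl (by decide +kernel)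
end
mutual
theorem c1_m117_t18 : CovD 0 progs [(366414397440, 28185722880), (259845521408, 23622320128), (1374389534720, 274877906944), (618475290624, 68719476736)] :=
  Pool.Agent.helper14.QF.covD_F chks_eq (.l 11)
    [(366414397440, 28185722880), (259845521408, 23622320128), (1374389534720, 274877906944), (618475290624, 68719476736)] rfl (by decide +kernel)
theorem c1_m117_t20 : CovD 0 progs [(366414397440, 28185722880), (330712481792, 47244640256), (1374389534720, 274877906944), (618475290624, 68719476736)] :=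
  Pool.Agent.helper14.QF.covD_F chks_eq (.l 11)
    [(366414397440, 28185722880), (330712481792, 47244640256), (1374389534720, 274877906944), (618475290624, 68719476736)] rfl (by decide +kernel)
end
mutual
theorem c1_m117_t22 : CovD 0 progs [(366414397440, 28185722880), (236223201280, 47244640256), (1374389534720, 274877906944), (755914244096, 68719476736)] :=
  Pool.Agent.helper14.QF.covD_F chks_eq (.n 1 (.n 0 (.n 2 (.n 0 (.n 3 (.l 5) (.n 2 (.l 5) (.l 5))) (.n 2 (.n 3 (.n 0 (.l 5) (.l 0)) (.l 0)) (.n 3 (.l 5) (.l 0)))) (.n 0 (.n 3 (.l 4) (.l 5)) (.n 1 (.l 5) (.n 3 (.l 5) (.l 0))))) (.n 0 (.n 2 (.n 3 (.n 2 (.l 0) (.l 0)) (.l 0)) (.n 3 (.n 1 (.l 0) (.l 0)) (.l 0))) (.n 2 (.n 3 (.l 0) (.l 0)) (.n 3 (.l 1) (.l 0))))) (.l 11))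
    [(366414397440, 28185722880), (236223201280, 47244640256), (1374389534720, 274877906944), (755914244096, 68719476736)] rfl (by decide +kernel)
theorem c1_m117_t23 : CovD 0 progs [(366414397440, 28185722880), (330712481792, 47244640256), (1374389534720, 274877906944), (755914244096, 68719476736)] :=
  Pool.Agent.helper14.QF.covD_F chks_eq (.l 11)
    [(366414397440, 28185722880), (330712481792, 47244640256), (1374389534720, 274877906944), (755914244096, 68719476736)] rfl (by decide +kernel)
end
mutual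
theorem c1_m117_t26 : CovD 0 progs [(366414397440, 28185722880), (283467841536, 94489280512), (1374389534720, 274877906944), (962072674304, 137438953472)] :=
  Pool.Agent.helper14.QF.covD_F chks_eq (.n 3 (.n 1 (.n 1 (.n 2 (.n 3 (.n 0 (.n 0 (.l 0) (.l 0)) (.l 0)) (.l 0)) (.n 0 (.n 3 (.n 0 (.l 0) (.l 0)) (.l 0)) (.n 3 (.l 0) (.l 0)))) (.l 11)) (.l 11)) (.n 1 (.n 1 (.n 3 (.n 2 (.l 0) (.l 0)) (.l 0)) (.l 11)) (.l 11)))
    [(366414397440, 28185722880), (283467841536, 94489280512), (1374389534720, 274877906944), (962072674304, 137438953472)] rfl (by decide +kernel)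
theorem c1_m117_t28 : CovD 0 progs [(422785843200, 28185722880), (283467841536, 94489280512), (1374389534720, 274877906944), (618475290624, 68719476736)] :=
  Pool.Agent.helper14.QF.covD_F chks_eq (.n 1 (.n 1 (.n 0 (.n 2 (.n 2 (.n 3 (.n 0 (.n 0 (.l 0) (.l 0)) (.l 0)) (.l 0)) (.n 3 (.n 0 (.l 0) (.l 0)) (.l 0))) (.n 2 (.n 3 (.n 0 (.l 0) (.l 0)) (.l 0)) (.n 3 (.n 0 (.l 0) (.l 0)) (.l 0)))) (.n 2 (.n 3 (.n 0 (.l 0) (.l 0)) (.l 0)) (.n 3 (.n 0 (.l 0) (.l 0)) (.l 0)))) (.l 11)) (.l 11))
    [(422785843200, 28185722880), (283467841536, 94489280512), (1374389534720, 274877906944), (618475290624, 68719476736)] rfl (by decide +kernel)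
end
mutual
theorem c1_m117_t29 : CovD 0 progs [(422785843200, 28185722880), (283467841536, 94489280512), (1374389534720, 274877906944), (755914244096, 68719476736)] :=
  Pool.Agent.helper14.QF.covD_F chks_eq (.n 1 (.n 1 (.n 0 (.n 2 (.n 3 (.l 0) (.l 0)) (.n 3 (.n 0 (.l 0) (.l 0)) (.l 0))) (.n 1 (.n 2 (.l 0) (.l 0)) (.n 2 (.l 0) (.l 0)))) (.l 11)) (.l 11))
    [(422785843200, 28185722880), (283467841536, 94489280512), (1374389534720, 274877906944), (755914244096, 68719476736)] rfl (by decide +kernel)
theorem c1_m117_t31 : CovD 0 progs [(422785843200, 28185722880), (283467841536, 94489280512), (1374389534720, 274877906944), (962072674304, 137438953472)] :=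
  Pool.Agent.helper14.QF.covD_F chks_eq (.n 3 (.n 1 (.n 1 (.n 2 (.n 0 (.l 0) (.l 0)) (.n 3 (.l 0) (.l 0))) (.l 11)) (.l 11)) (.n 1 (.n 1 (.n 2 (.l 0) (.l 0)) (.n 0 (.l 11) (.l 11))) (.l 11)))
    [(422785843200, 28185722880), (283467841536, 94489280512), (1374389534720, 274877906944), (962072674304, 137438953472)] rfl (by decide +kernel)
end
mutual
theorem c1_m117_t35 : CovD 0 progs [(253671505920, 28185722880), (283467841536, 94489280512), (1924145348608, 274877906944), (824633720832, 274877906944)] :=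
  Pool.Agent.helper14.QF.covD_F chks_eq (.n 3 (.n 3 (.n 1 (.n 1 (.n 0 (.l 6) (.l 6)) (.l 11)) (.l 11)) (.n 1 (.n 1 (.n 1 (.l 6) (.l 6)) (.l 11)) (.l 11))) (.n 3 (.n 1 (.n 1 (.n 1 (.l 6) (.l 6)) (.l 11)) (.l 11)) (.n 1 (.n 1 (.n 2 (.l 6) (.l 6)) (.n 1 (.l 11) (.l 11))) (.n 0 (.l 11) (.l 11)))))
    [(253671505920, 28185722880), (283467841536, 94489280512), (1924145348608, 274877906944), (824633720832, 274877906944)] rfl (by decide +kernel)
theorem c1_m117_t36 : CovD 0 progs [(310042951680, 28185722880), (283467841536, 94489280512), (1924145348608, 274877906944), (618475290624, 68719476736)] :=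
  Pool.Agent.helper14.QF.covD_F chks_eq (.n 1 (.n 1 (.n 1 (.n 2 (.l 6) (.l 6)) (.n 0 (.n 2 (.l 6) (.l 6)) (.n 0 (.n 2 (.l 6) (.n 2 (.l 4) (.l 4))) (.n 0 (.n 2 (.l 6) (.l 4)) (.n 2 (.n 2 (.l 6) (.l 4)) (.l 5)))))) (.l 11)) (.l 11))
    [(310042951680, 28185722880), (283467841536, 94489280512), (1924145348608, 274877906944), (618475290624, 68719476736)] rfl (by decide +kernel)
end
mutual
theorem c1_m117_t37 : CovD 0 progs [(310042951680, 28185722880), (283467841536, 94489280512), (1924145348608, 274877906944), (755914244096, 68719476736)] :=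
  Pool.Agent.helper14.QF.covD_F chks_eq (.n 0 (.n 1 (.n 1 (.n 1 (.l 6) (.n 0 (.l 6) (.n 2 (.l 6) (.n 3 (.l 4) (.l 4))))) (.l 11)) (.l 11)) (.n 1 (.n 0 (.n 1 (.n 1 (.l 6) (.n 2 (.l 6) (.n 3 (.l 4) (.l 5)))) (.l 11)) (.n 1 (.n 2 (.n 3 (.l 4) (.l 4)) (.n 1 (.l 6) (.n 1 (.l 5) (.l 13)))) (.l 11))) (.l 11)))
    [(310042951680, 28185722880), (283467841536, 94489280512), (1924145348608, 274877906944), (755914244096, 68719476736)] rfl (by decide +kernel)
theorem c1_m117_t39 : CovD 0 progs [(310042951680, 28185722880), (283467841536, 94489280512), (1924145348608, 274877906944), (893353197568, 68719476736)] :=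
  Pool.Agent.helper14.QF.covD_F chks_eq (.n 1 (.n 0 (.n 1 (.n 1 (.l 6) (.n 2 (.l 6) (.n 0 (.l 6) (.n 3 (.l 5) (.l 0))))) (.l 11)) (.n 1 (.n 1 (.n 0 (.l 6) (.n 3 (.l 5) (.l 0))) (.n 2 (.n 3 (.l 5) (.l 0)) (.n 3 (.n 0 (.l 0) (.l 0)) (.l 0)))) (.n 1 (.l 11) (.l 11)))) (.n 1 (.l 11) (.l 11)))
    [(310042951680, 28185722880), (283467841536, 94489280512), (1924145348608, 274877906944), (893353197568, 68719476736)] rfl (by decide +kernel)
end
mutual
theorem c1_m117_t40 : CovD 0 progs [(310042951680, 28185722880), (283467841536, 94489280512), (1924145348608, 274877906944), (1030792151040, 68719476736)] :=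
  Pool.Agent.helper14.QF.covD_F chks_eq (.n 2 (.n 1 (.n 1 (.n 0 (.l 6) (.n 3 (.l 0) (.l 0))) (.l 11)) (.l 11)) (.n 1 (.n 1 (.n 0 (.n 1 (.l 6) (.n 3 (.l 0) (.l 0))) (.n 3 (.l 0) (.l 0))) (.n 1 (.l 11) (.l 11))) (.n 0 (.l 11) (.l 11))))
    [(310042951680, 28185722880), (283467841536, 94489280512), (1924145348608, 274877906944), (1030792151040, 68719476736)] rfl (by decide +kernel)
theorem c1_m117_t44 : CovD 0 progs [(366414397440, 28185722880), (236223201280, 47244640256), (1924145348608, 274877906944), (618475290624, 68719476736)] :=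
  Pool.Agent.helper14.QF.covD_F chks_eq (.n 2 (.n 1 (.n 0 (.n 0 (.n 1 (.l 6) (.n 3 (.l 4) (.l 4))) (.n 3 (.l 5) (.n 1 (.l 4) (.l 5)))) (.n 1 (.n 0 (.l 5) (.n 2 (.l 5) (.l 5))) (.n 2 (.n 0 (.n 1 (.l 5) (.l 13)) (.n 3 (.l 0) (.l 0))) (.l 13)))) (.l 11)) (.n 1 (.n 1 (.n 0 (.n 3 (.l 4) (.l 5)) (.n 1 (.n 0 (.l 5) (.l 13)) (.l 13))) (.n 0 (.n 1 (.l 13) (.l 13)) (.l 13))) (.l 11)))
    [(366414397440, 28185722880), (236223201280, 47244640256), (1924145348608, 274877906944), (618475290624, 68719476736)] rfl (by decide +kernel)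
end
mutual
theorem c1_m117_t45 : CovD 0 progs [(366414397440, 28185722880), (330712481792, 47244640256), (1924145348608, 274877906944), (618475290624, 68719476736)] :=
  Pool.Agent.helper14.QF.covD_F chks_eq (.l 11)
    [(366414397440, 28185722880), (330712481792, 47244640256), (1924145348608, 274877906944), (618475290624, 68719476736)] rfl (by decide +kernel)
theorem c1_m117_t47 : CovD 0 progs [(366414397440, 28185722880), (236223201280, 47244640256), (1924145348608, 274877906944), (755914244096, 68719476736)] :=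
  Pool.Agent.helper14.QF.covD_F chks_eq (.n 1 (.n 1 (.n 2 (.n 0 (.n 3 (.l 4) (.l 5)) (.n 3 (.n 0 (.l 0) (.l 0)) (.l 0))) (.n 0 (.n 0 (.l 5) (.n 2 (.l 5) (.l 13))) (.n 3 (.l 0) (.l 0)))) (.n 2 (.n 0 (.n 0 (.n 3 (.l 5) (.l 0)) (.n 3 (.n 0 (.l 0) (.l 0)) (.l 0))) (.n 2 (.n 3 (.l 0) (.l 0)) (.l 13))) (.n 0 (.n 1 (.l 13) (.l 13)) (.l 13)))) (.n 1 (.l 11) (.l 11)))
    [(366414397440, 28185722880), (236223201280, 47244640256), (1924145348608, 274877906944), (755914244096, 68719476736)] rfl (by decide +kernel)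
end
mutual
theorem c1_m117_t48 : CovD 0 progs [(366414397440, 28185722880), (330712481792, 47244640256), (1924145348608, 274877906944), (755914244096, 68719476736)] :=
  Pool.Agent.helper14.QF.covD_F chks_eq (.n 1 (.l 11) (.l 11))
    [(366414397440, 28185722880), (330712481792, 47244640256), (1924145348608, 274877906944), (755914244096, 68719476736)] rfl (by decide +kernel)
theorem c1_m117_t51 : CovD 0 progs [(366414397440, 28185722880), (283467841536, 94489280512), (1924145348608, 274877906944), (893353197568, 68719476736)] :=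
  Pool.Agent.helper14.QF.covD_F chks_eq (.n 1 (.n 1 (.n 2 (.n 0 (.n 3 (.n 0 (.l 0) (.l 0)) (.l 0)) (.n 3 (.l 0) (.l 0))) (.n 1 (.n 3 (.n 0 (.l 0) (.l 0)) (.l 0)) (.n 0 (.n 1 (.l 13) (.l 13)) (.l 13)))) (.n 1 (.n 0 (.l 11) (.l 11)) (.l 11))) (.n 1 (.l 11) (.l 11)))
    [(366414397440, 28185722880), (283467841536, 94489280512), (1924145348608, 274877906944), (893353197568, 68719476736)] rfl (by decide +kernel)
end
mutual
theorem c1_m117_t52 : CovD 0 progs [(366414397440, 28185722880), (283467841536, 94489280512), (1924145348608, 274877906944), (1030792151040, 68719476736)] :=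
  Pool.Agent.helper14.QF.covD_F chks_eq (.n 2 (.n 1 (.n 1 (.n 3 (.l 0) (.l 0)) (.l 11)) (.l 11)) (.n 0 (.n 1 (.n 1 (.n 3 (.l 0) (.l 0)) (.l 13)) (.l 13)) (.n 1 (.n 1 (.n 1 (.l 0) (.l 13)) (.l 13)) (.l 13))))
    [(366414397440, 28185722880), (283467841536, 94489280512), (1924145348608, 274877906944), (1030792151040, 68719476736)] rfl (by decide +kernel)
theorem c1_m117_t55 : CovD 0 progs [(422785843200, 28185722880), (283467841536, 94489280512), (1924145348608, 274877906944), (618475290624, 68719476736)] :=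
  Pool.Agent.helper14.QF.covD_F chks_eq (.n 1 (.n 1 (.n 1 (.n 0 (.n 2 (.n 3 (.n 0 (.l 0) (.l 0)) (.l 0)) (.l 13)) (.n 2 (.n 0 (.l 0) (.l 0)) (.l 13))) (.n 2 (.n 0 (.n 2 (.l 13) (.l 13)) (.l 13)) (.l 13))) (.n 1 (.l 11) (.l 11))) (.n 0 (.l 11) (.l 11)))
    [(422785843200, 28185722880), (283467841536, 94489280512), (1924145348608, 274877906944), (618475290624, 68719476736)] rfl (by decide +kernel)
end
mutual
theorem c1_m117_t56 : CovD 0 progs [(422785843200, 28185722880), (283467841536, 94489280512), (1924145348608, 274877906944), (755914244096, 68719476736)] :=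
  Pool.Agent.helper14.QF.covD_F chks_eq (.n 1 (.n 1 (.n 0 (.n 2 (.n 3 (.n 0 (.l 0) (.l 0)) (.l 0)) (.n 1 (.l 13) (.l 13))) (.n 2 (.n 1 (.l 0) (.l 13)) (.l 13))) (.n 2 (.l 11) (.l 13))) (.n 1 (.l 11) (.l 11)))
    [(422785843200, 28185722880), (283467841536, 94489280512), (1924145348608, 274877906944), (755914244096, 68719476736)] rfl (by decide +kernel)
theorem c1_m117_t58 : CovD 0 progs [(422785843200, 28185722880), (283467841536, 94489280512), (1924145348608, 274877906944), (962072674304, 137438953472)] :=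
  Pool.Agent.helper14.QF.covD_F chks_eq (.n 3 (.n 1 (.n 1 (.n 0 (.n 2 (.n 2 (.l 0) (.l 1)) (.n 1 (.l 1) (.l 13))) (.n 2 (.n 1 (.l 0) (.l 0)) (.l 13))) (.n 2 (.l 11) (.l 13))) (.n 1 (.l 11) (.l 13))) (.n 1 (.n 1 (.n 2 (.n 3 (.l 0) (.l 0)) (.n 0 (.n 1 (.l 0) (.l 13)) (.l 13))) (.n 1 (.n 0 (.l 13) (.l 13)) (.l 11))) (.n 1 (.n 0 (.l 11) (.l 13)) (.l 13))))
    [(422785843200, 28185722880), (283467841536, 94489280512), (1924145348608, 274877906944), (962072674304, 137438953472)] rfl (by decide +kernel)
end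
theorem c1_m117_t4 : CovD 0 progs [(324135813120, 14092861440), (236223201280, 47244640256), (1374389534720, 274877906944), (618475290624, 68719476736)] :=
  covD_split 0 (by decide +kernel) c1_m117_t2 c1_m117_t3
theorem c1_m117_t6 : CovD 0 progs [(324135813120, 14092861440), (283467841536, 94489280512), (1374389534720, 274877906944), (618475290624, 68719476736)] :=
  covD_split 1 (by decide +kernel) c1_m117_t4 c1_m117_t5
theorem c1_m117_t7 : CovD 0 progs [(310042951680, 28185722880), (283467841536, 94489280512), (1374389534720, 274877906944), (618475290624, 68719476736)] :=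
  covD_split 0 (by decide +kernel) c1_m117_t1 c1_m117_t6
theorem c1_m117_t9 : CovD 0 progs [(310042951680, 28185722880), (283467841536, 94489280512), (1374389534720, 274877906944), (687194767360, 137438953472)] :=
  covD_split 3 (by decide +kernel) c1_m117_t7 c1_m117_t8
theorem c1_m117_t11 : CovD 0 progs [(310042951680, 28185722880), (283467841536, 94489280512), (1374389534720, 274877906944), (824633720832, 274877906944)] :=
  covD_split 3 (by decide +kernel) c1_m117_t9 c1_m117_t10
theorem c1_m117_t12 : CovD 0 progs [(281857228800, 56371445760), (283467841536, 94489280512), (1374389534720, 274877906944), (824633720832, 274877906944)] :=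
  covD_split 0 (by decide +kernel) c1_m117_t0 c1_m117_t11
theorem c1_m117_t16 : CovD 0 progs [(380507258880, 14092861440), (212600881152, 23622320128), (1374389534720, 274877906944), (618475290624, 68719476736)] :=
  covD_split 0 (by decide +kernel) c1_m117_t14 c1_m117_t15
theorem c1_m117_t17 : CovD 0 progs [(366414397440, 28185722880), (212600881152, 23622320128), (1374389534720, 274877906944), (618475290624, 68719476736)] :=
  covD_split 0 (by decide +kernel) c1_m117_t13 c1_m117_t16
theorem c1_m117_t19 : CovD 0 progs [(366414397440, 28185722880), (236223201280, 47244640256), (1374389534720, 274877906944), (618475290624, 68719476736)] :=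
  covD_split 1 (by decide +kernel) c1_m117_t17 c1_m117_t18
theorem c1_m117_t21 : CovD 0 progs [(366414397440, 28185722880), (283467841536, 94489280512), (1374389534720, 274877906944), (618475290624, 68719476736)] :=
  covD_split 1 (by decide +kernel) c1_m117_t19 c1_m117_t20
theorem c1_m117_t24 : CovD 0 progs [(366414397440, 28185722880), (283467841536, 94489280512), (1374389534720, 274877906944), (755914244096, 68719476736)] :=
  covD_split 1 (by decide +kernel) c1_m117_t22 c1_m117_t23
theorem c1_m117_t25 : CovD 0 progs [(366414397440, 28185722880), (283467841536, 94489280512), (1374389534720, 274877906944), (687194767360, 137438953472)] :=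
  covD_split 3 (by decide +kernel) c1_m117_t21 c1_m117_t24
theorem c1_m117_t27 : CovD 0 progs [(366414397440, 28185722880), (283467841536, 94489280512), (1374389534720, 274877906944), (824633720832, 274877906944)] :=
  covD_split 3 (by decide +kernel) c1_m117_t25 c1_m117_t26
theorem c1_m117_t30 : CovD 0 progs [(422785843200, 28185722880), (283467841536, 94489280512), (1374389534720, 274877906944), (687194767360, 137438953472)] :=
  covD_split 3 (by decide +kernel) c1_m117_t28 c1_m117_t29
theorem c1_m117_t32 : CovD 0 progs [(422785843200, 28185722880), (283467841536, 94489280512), (1374389534720, 274877906944), (824633720832, 274877906944)] :=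
  covD_split 3 (by decide +kernel) c1_m117_t30 c1_m117_t31
theorem c1_m117_t33 : CovD 0 progs [(394600120320, 56371445760), (283467841536, 94489280512), (1374389534720, 274877906944), (824633720832, 274877906944)] :=
  covD_split 0 (by decide +kernel) c1_m117_t27 c1_m117_t32
theorem c1_m117_t34 : CovD 0 progs [(338228674560, 112742891520), (283467841536, 94489280512), (1374389534720, 274877906944), (824633720832, 274877906944)] :=
  covD_split 0 (by decide +kernel) c1_m117_t12 c1_m117_t33
theorem c1_m117_t38 : CovD 0 progs [(310042951680, 28185722880), (283467841536, 94489280512), (1924145348608, 274877906944), (687194767360, 137438953472)] :=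
  covD_split 3 (by decide +kernel) c1_m117_t36 c1_m117_t37
theorem c1_m117_t41 : CovD 0 progs [(310042951680, 28185722880), (283467841536, 94489280512), (1924145348608, 274877906944), (962072674304, 137438953472)] :=
  covD_split 3 (by decide +kernel) c1_m117_t39 c1_m117_t40
theorem c1_m117_t42 : CovD 0 progs [(310042951680, 28185722880), (283467841536, 94489280512), (1924145348608, 274877906944), (824633720832, 274877906944)] :=
  covD_split 3 (by decide +kernel) c1_m117_t38 c1_m117_t41
theorem c1_m117_t43 : CovD 0 progs [(281857228800, 56371445760), (283467841536, 94489280512), (1924145348608, 274877906944), (824633720832, 274877906944)] :=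
  covD_split 0 (by decide +kernel) c1_m117_t35 c1_m117_t42
theorem c1_m117_t46 : CovD 0 progs [(366414397440, 28185722880), (283467841536, 94489280512), (1924145348608, 274877906944), (618475290624, 68719476736)] :=
  covD_split 1 (by decide +kernel) c1_m117_t44 c1_m117_t45
theorem c1_m117_t49 : CovD 0 progs [(366414397440, 28185722880), (283467841536, 94489280512), (1924145348608, 274877906944), (755914244096, 68719476736)] :=
  covD_split 1 (by decide +kernel) c1_m117_t47 c1_m117_t48
theorem c1_m117_t50 : CovD 0 progs [(366414397440, 28185722880), (283467841536, 94489280512), (1924145348608, 274877906944), (687194767360, 137438953472)] :=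
  covD_split 3 (by decide +kernel) c1_m117_t46 c1_m117_t49
theorem c1_m117_t53 : CovD 0 progs [(366414397440, 28185722880), (283467841536, 94489280512), (1924145348608, 274877906944), (962072674304, 137438953472)] :=
  covD_split 3 (by decide +kernel) c1_m117_t51 c1_m117_t52
theorem c1_m117_t54 : CovD 0 progs [(366414397440, 28185722880), (283467841536, 94489280512), (1924145348608, 274877906944), (824633720832, 274877906944)] :=
  covD_split 3 (by decide +kernel) c1_m117_t50 c1_m117_t53
theorem c1_m117_t57 : CovD 0 progs [(422785843200, 28185722880), (283467841536, 94489280512), (1924145348608, 274877906944), (687194767360, 137438953472)] :=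
  covD_split 3 (by decide +kernel) c1_m117_t55 c1_m117_t56
theorem c1_m117_t59 : CovD 0 progs [(422785843200, 28185722880), (283467841536, 94489280512), (1924145348608, 274877906944), (824633720832, 274877906944)] :=
  covD_split 3 (by decide +kernel) c1_m117_t57 c1_m117_t58
theorem c1_m117_t60 : CovD 0 progs [(394600120320, 56371445760), (283467841536, 94489280512), (1924145348608, 274877906944), (824633720832, 274877906944)] :=
  covD_split 0 (by decide +kernel) c1_m117_t54 c1_m117_t59
theorem c1_m117_t61 : CovD 0 progs [(338228674560, 112742891520), (283467841536, 94489280512), (1924145348608, 274877906944), (824633720832, 274877906944)] :=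
  covD_split 0 (by decide +kernel) c1_m117_t43 c1_m117_t60
theorem c1_m117 : CovD 0 progs [(338228674560, 112742891520), (283467841536, 94489280512), (1649267441664, 549755813888), (824633720832, 274877906944)] :=
  covD_split 2 (by decide +kernel) c1_m117_t34 c1_m117_t61

end Pool.Agent.helper71.FJ.Crt.QMa
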