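import Pool.Agent.helper71.FJ.Crt.QMaP

/-!
Generated certificates.
-/

namespace Pool.Agent.helper71.FJ.Crt.QMa

open Pool.Agent.helper31.IA (Z Op)
open Pool.Agent.helper31.IC

mutual
theorem c1_m12_t0 : CovD 0 progs [(253671505920, 28185722880), (94489280512, 94489280512), (824633720832, 274877906944), (68719476736, 68719476736)] :=
  Pool.Agent.helper14.QF.covD_F chks_eq (.n 0 (.n 0 (.n 0 (.n 2 (.n 0 (.l 10) (.l 10)) (.l 6)) (.n 0 (.n 0 (.l 10) (.l 10)) (.l 10))) (.n 0 (.n 2 (.l 10) (.l 6)) (.n 1 (.l 10) (.l 10)))) (.n 0 (.n 0 (.n 1 (.l 4) (.l 10)) (.n 2 (.l 4) (.l 4))) (.n 0 (.n 1 (.l 4) (.l 8)) (.n 1 (.l 4) (.l 8)))))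
    [(253671505920, 28185722880), (94489280512, 94489280512), (824633720832, 274877906944), (68719476736, 68719476736)] rfl (by decide +kernel)
theorem c1_m12_t1 : CovD 0 progs [(253671505920, 28185722880), (94489280512, 94489280512), (824633720832, 274877906944), (206158430208, 68719476736)] :=
  Pool.Agent.helper14.QF.covD_F chks_eq (.n 2 (.n 0 (.n 0 (.n 3 (.n 0 (.n 0 (.l 10) (.l 10)) (.l 10)) (.n 0 (.n 0 (.l 10) (.l 10)) (.l 10))) (.n 0 (.n 0 (.l 10) (.l 10)) (.n 0 (.l 4) (.l 4)))) (.n 0 (.n 0 (.n 0 (.l 4) (.l 4)) (.l 4)) (.n 0 (.l 4) (.n 0 (.l 4) (.l 4))))) (.n 1 (.l 6) (.n 0 (.l 6) (.n 0 (.n 0 (.l 4) (.l 4)) (.n 0 (.l 4) (.l 4))))))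
    [(253671505920, 28185722880), (94489280512, 94489280512), (824633720832, 274877906944), (206158430208, 68719476736)] rfl (by decide +kernel)
end
mutual
theorem c1_m12_t3 : CovD 0 progs [(253671505920, 28185722880), (94489280512, 94489280512), (687194767360, 137438953472), (343597383680, 68719476736)] :=
  Pool.Agent.helper14.QF.covD_F chks_eq (.n 0 (.n 0 (.n 0 (.n 0 (.n 3 (.l 10) (.l 4)) (.n 3 (.l 4) (.l 4))) (.n 3 (.l 10) (.l 4))) (.n 0 (.n 3 (.l 4) (.l 4)) (.n 3 (.l 4) (.l 4)))) (.n 0 (.n 0 (.n 3 (.l 4) (.l 4)) (.n 3 (.l 4) (.l 4))) (.n 0 (.n 3 (.l 4) (.n 0 (.l 4) (.l 4))) (.n 3 (.l 4) (.n 0 (.l 4) (.l 4))))))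
    [(253671505920, 28185722880), (94489280512, 94489280512), (687194767360, 137438953472), (343597383680, 68719476736)] rfl (by decide +kernel)
theorem c1_m12_t4 : CovD 0 progs [(253671505920, 28185722880), (94489280512, 94489280512), (962072674304, 137438953472), (343597383680, 68719476736)] :=
  Pool.Agent.helper14.QF.covD_F chks_eq (.n 1 (.l 6) (.n 0 (.l 6) (.n 1 (.l 6) (.n 0 (.l 6) (.n 0 (.n 0 (.l 4) (.l 4)) (.n 3 (.l 4) (.l 4)))))))
    [(253671505920, 28185722880), (94489280512, 94489280512), (962072674304, 137438953472), (343597383680, 68719476736)] rfl (by decide +kernel)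
end
mutual
theorem c1_m12_t6 : CovD 0 progs [(239578644480, 14092861440), (94489280512, 94489280512), (687194767360, 137438953472), (481036337152, 68719476736)] :=
  Pool.Agent.helper14.QF.covD_F chks_eq (.n 0 (.n 2 (.n 0 (.n 1 (.l 6) (.n 3 (.l 4) (.l 6))) (.n 1 (.l 6) (.n 3 (.l 4) (.l 4)))) (.l 6)) (.n 0 (.n 0 (.n 3 (.l 4) (.l 4)) (.n 3 (.l 4) (.l 4))) (.n 0 (.n 3 (.l 4) (.l 4)) (.n 3 (.l 4) (.l 4)))))
    [(239578644480, 14092861440), (94489280512, 94489280512), (687194767360, 137438953472), (481036337152, 68719476736)] rfl (by decide +kernel)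
theorem c1_m12_t7 : CovD 0 progs [(260717936640, 7046430720), (94489280512, 94489280512), (687194767360, 137438953472), (481036337152, 68719476736)] :=
  Pool.Agent.helper14.QF.covD_F chks_eq (.n 0 (.n 3 (.n 0 (.l 4) (.l 4)) (.n 3 (.l 4) (.n 0 (.l 4) (.l 4)))) (.n 0 (.n 3 (.l 4) (.n 1 (.l 4) (.l 4))) (.n 3 (.l 4) (.n 3 (.l 4) (.l 4)))))
    [(260717936640, 7046430720), (94489280512, 94489280512), (687194767360, 137438953472), (481036337152, 68719476736)] rfl (by decide +kernel)
end
mutual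
theorem c1_m12_t8 : CovD 0 progs [(274810798080, 7046430720), (94489280512, 94489280512), (687194767360, 137438953472), (481036337152, 68719476736)] :=
  Pool.Agent.helper14.QF.covD_F chks_eq (.n 0 (.n 0 (.n 3 (.l 4) (.n 3 (.l 4) (.l 4))) (.n 3 (.n 0 (.l 4) (.l 4)) (.n 3 (.l 4) (.n 0 (.l 4) (.l 4))))) (.n 0 (.n 3 (.n 0 (.l 4) (.l 4)) (.n 3 (.l 4) (.n 1 (.l 4) (.l 4)))) (.n 1 (.n 3 (.l 4) (.n 3 (.l 4) (.n 0 (.l 4) (.l 4)))) (.n 3 (.l 4) (.n 3 (.l 4) (.n 0 (.l 4) (.l 4)))))))
    [(274810798080, 7046430720), (94489280512, 94489280512), (687194767360, 137438953472), (481036337152, 68719476736)] rfl (by decide +kernel)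
theorem c1_m12_t11 : CovD 0 progs [(253671505920, 28185722880), (94489280512, 94489280512), (962072674304, 137438953472), (481036337152, 68719476736)] :=
  Pool.Agent.helper14.QF.covD_F chks_eq (.n 1 (.l 6) (.n 0 (.l 6) (.n 1 (.l 6) (.n 2 (.n 2 (.l 6) (.l 6)) (.l 6)))))
    [(253671505920, 28185722880), (94489280512, 94489280512), (962072674304, 137438953472), (481036337152, 68719476736)] rfl (by decide +kernel)
end
theorem c1_m12_t2 : CovD 0 progs [(253671505920, 28185722880), (94489280512, 94489280512), (824633720832, 274877906944), (137438953472, 137438953472)] :=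
  covD_split 3 (by decide +kernel) c1_m12_t0 c1_m12_t1
theorem c1_m12_t5 : CovD 0 progs [(253671505920, 28185722880), (94489280512, 94489280512), (824633720832, 274877906944), (343597383680, 68719476736)] :=
  covD_split 2 (by decide +kernel) c1_m12_t3 c1_m12_t4
theorem c1_m12_t9 : CovD 0 progs [(267764367360, 14092861440), (94489280512, 94489280512), (687194767360, 137438953472), (481036337152, 68719476736)] :=
  covD_split 0 (by decide +kernel) c1_m12_t7 c1_m12_t8
theorem c1_m12_t10 : CovD 0 progs [(253671505920, 28185722880), (94489280512, 94489280512), (687194767360, 137438953472), (481036337152, 68719476736)] :=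
  covD_split 0 (by decide +kernel) c1_m12_t6 c1_m12_t9
theorem c1_m12_t12 : CovD 0 progs [(253671505920, 28185722880), (94489280512, 94489280512), (824633720832, 274877906944), (481036337152, 68719476736)] :=
  covD_split 2 (by decide +kernel) c1_m12_t10 c1_m12_t11
theorem c1_m12_t13 : CovD 0 progs [(253671505920, 28185722880), (94489280512, 94489280512), (824633720832, 274877906944), (412316860416, 137438953472)] :=
  covD_split 3 (by decide +kernel) c1_m12_t5 c1_m12_t12
theorem c1_m12 : CovD 0 progs [(253671505920, 28185722880), (94489280512, 94489280512), (824633720832, 274877906944), (274877906944, 274877906944)] :=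
  covD_split 3 (by decide +kernel) c1_m12_t2 c1_m12_t13

end Pool.Agent.helper71.FJ.Crt.QMa
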