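import Pool.Agent.helper71.FJ.Crt.QMaP

/-!
Generated certificates.
-/

namespace Pool.Agent.helper71.FJ.Crt.QMa

open Pool.Agent.helper31.IA (Z Op)
open Pool.Agent.helper31.IC

mutual
theorem c1_m14_t0 : CovD 0 progs [(295950090240, 14092861440), (94489280512, 94489280512), (687194767360, 137438953472), (206158430208, 68719476736)] :=
  Pool.Agent.helper14.QF.covD_F chks_eq (.n 0 (.n 0 (.n 0 (.l 4) (.l 4)) (.n 0 (.l 4) (.l 4))) (.n 0 (.n 3 (.l 4) (.n 0 (.l 4) (.l 4))) (.n 0 (.n 3 (.l 4) (.l 4)) (.n 3 (.l 4) (.n 0 (.l 4) (.l 4))))))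
    [(295950090240, 14092861440), (94489280512, 94489280512), (687194767360, 137438953472), (206158430208, 68719476736)] rfl (by decide +kernel)
theorem c1_m14_t1 : CovD 0 progs [(295950090240, 14092861440), (94489280512, 94489280512), (962072674304, 137438953472), (206158430208, 68719476736)] :=
  Pool.Agent.helper14.QF.covD_F chks_eq (.n 1 (.n 1 (.l 6) (.n 0 (.l 6) (.n 0 (.n 0 (.l 4) (.l 4)) (.n 3 (.l 4) (.l 4))))) (.n 0 (.n 0 (.n 0 (.l 4) (.l 4)) (.n 0 (.l 4) (.l 4))) (.n 0 (.n 3 (.l 4) (.l 4)) (.n 3 (.l 4) (.n 0 (.l 4) (.n 0 (.l 4) (.l 4)))))))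
    [(295950090240, 14092861440), (94489280512, 94489280512), (962072674304, 137438953472), (206158430208, 68719476736)] rfl (by decide +kernel)
end
mutual
theorem c1_m14_t3 : CovD 0 progs [(317089382400, 7046430720), (47244640256, 47244640256), (824633720832, 274877906944), (171798691840, 34359738368)] :=
  Pool.Agent.helper14.QF.covD_F chks_eq (.n 0 (.n 0 (.n 0 (.l 4) (.l 4)) (.n 1 (.l 4) (.l 4))) (.n 0 (.n 2 (.l 4) (.l 4)) (.n 2 (.l 4) (.n 1 (.l 4) (.l 4)))))
    [(317089382400, 7046430720), (47244640256, 47244640256), (824633720832, 274877906944), (171798691840, 34359738368)] rfl (by decide +kernel)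
theorem c1_m14_t4 : CovD 0 progs [(327659028480, 3523215360), (47244640256, 47244640256), (824633720832, 274877906944), (171798691840, 34359738368)] :=
  Pool.Agent.helper14.QF.covD_F chks_eq (.n 2 (.n 0 (.n 0 (.l 4) (.l 4)) (.n 0 (.n 0 (.l 4) (.l 4)) (.n 1 (.l 4) (.l 4)))) (.n 2 (.n 0 (.n 0 (.l 4) (.l 4)) (.n 0 (.l 4) (.n 0 (.l 4) (.l 4)))) (.l 6)))
    [(327659028480, 3523215360), (47244640256, 47244640256), (824633720832, 274877906944), (171798691840, 34359738368)] rfl (by decide +kernel)
end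
mutual
theorem c1_m14_t5 : CovD 0 progs [(334705459200, 3523215360), (23622320128, 23622320128), (824633720832, 274877906944), (171798691840, 34359738368)] :=
  Pool.Agent.helper14.QF.covD_F chks_eq (.n 0 (.n 2 (.n 0 (.l 4) (.n 0 (.l 4) (.l 4))) (.n 2 (.n 0 (.l 4) (.l 4)) (.l 6))) (.n 2 (.n 0 (.n 1 (.l 4) (.l 4)) (.n 2 (.l 4) (.n 0 (.l 4) (.l 4)))) (.n 2 (.n 2 (.n 0 (.l 4) (.l 4)) (.l 6)) (.l 6))))
    [(334705459200, 3523215360), (23622320128, 23622320128), (824633720832, 274877906944), (171798691840, 34359738368)] rfl (by decide +kernel)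
theorem c1_m14_t6 : CovD 0 progs [(334705459200, 3523215360), (70866960384, 23622320128), (824633720832, 274877906944), (171798691840, 34359738368)] :=
  Pool.Agent.helper14.QF.covD_F chks_eq (.n 0 (.n 2 (.n 0 (.n 0 (.l 4) (.l 4)) (.n 2 (.l 4) (.l 4))) (.n 2 (.n 0 (.l 4) (.n 0 (.l 4) (.l 4))) (.l 6))) (.n 0 (.n 2 (.n 2 (.l 4) (.n 0 (.l 4) (.l 4))) (.n 2 (.n 1 (.l 4) (.l 4)) (.l 6))) (.n 2 (.n 0 (.n 2 (.l 4) (.l 4)) (.n 2 (.l 4) (.l 4))) (.n 2 (.n 1 (.l 4) (.l 4)) (.l 6)))))
    [(334705459200, 3523215360), (70866960384, 23622320128), (824633720832, 274877906944), (171798691840, 34359738368)] rfl (by decide +kernel)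
end
mutual
theorem c1_m14_t10 : CovD 0 progs [(317089382400, 7046430720), (141733920768, 47244640256), (687194767360, 137438953472), (171798691840, 34359738368)] :=
  Pool.Agent.helper14.QF.covD_F chks_eq (.n 0 (.n 0 (.l 4) (.l 4)) (.n 0 (.l 4) (.n 0 (.l 4) (.l 4))))
    [(317089382400, 7046430720), (141733920768, 47244640256), (687194767360, 137438953472), (171798691840, 34359738368)] rfl (by decide +kernel)
theorem c1_m14_t11 : CovD 0 progs [(327659028480, 3523215360), (141733920768, 47244640256), (687194767360, 137438953472), (171798691840, 34359738368)] :=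
  Pool.Agent.helper14.QF.covD_F chks_eq (.n 2 (.n 0 (.l 4) (.n 0 (.l 4) (.l 4))) (.n 0 (.n 0 (.l 4) (.l 4)) (.n 0 (.n 0 (.l 4) (.l 4)) (.n 1 (.l 4) (.l 4)))))
    [(327659028480, 3523215360), (141733920768, 47244640256), (687194767360, 137438953472), (171798691840, 34359738368)] rfl (by decide +kernel)
end
mutual
theorem c1_m14_t12 : CovD 0 progs [(332943851520, 1761607680), (141733920768, 47244640256), (687194767360, 137438953472), (171798691840, 34359738368)] :=
  Pool.Agent.helper14.QF.covD_F chks_eq (.n 0 (.n 1 (.n 2 (.l 4) (.l 4)) (.n 2 (.l 4) (.l 4))) (.n 1 (.n 2 (.l 4) (.n 0 (.l 4) (.l 4))) (.n 2 (.l 4) (.n 0 (.l 4) (.l 4)))))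
    [(332943851520, 1761607680), (141733920768, 47244640256), (687194767360, 137438953472), (171798691840, 34359738368)] rfl (by decide +kernel)
theorem c1_m14_t13 : CovD 0 progs [(336467066880, 1761607680), (141733920768, 47244640256), (687194767360, 137438953472), (171798691840, 34359738368)] :=
  Pool.Agent.helper14.QF.covD_F chks_eq (.n 0 (.n 2 (.n 3 (.l 4) (.n 1 (.l 4) (.l 4))) (.n 1 (.n 0 (.l 4) (.l 4)) (.n 1 (.l 4) (.l 4)))) (.n 1 (.n 1 (.n 2 (.l 4) (.l 4)) (.n 2 (.l 4) (.l 4))) (.n 2 (.n 2 (.l 4) (.l 4)) (.n 1 (.l 4) (.l 4)))))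
    [(336467066880, 1761607680), (141733920768, 47244640256), (687194767360, 137438953472), (171798691840, 34359738368)] rfl (by decide +kernel)
end
mutual
theorem c1_m14_t17 : CovD 0 progs [(324135813120, 14092861440), (118111600640, 23622320128), (893353197568, 68719476736), (171798691840, 34359738368)] :=
  Pool.Agent.helper14.QF.covD_F chks_eq (.n 0 (.n 0 (.l 4) (.n 0 (.l 4) (.l 4))) (.n 0 (.n 0 (.l 4) (.n 0 (.l 4) (.l 4))) (.n 0 (.n 3 (.l 4) (.n 0 (.l 4) (.l 4))) (.n 0 (.n 1 (.l 4) (.l 4)) (.n 1 (.l 4) (.l 4))))))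
    [(324135813120, 14092861440), (118111600640, 23622320128), (893353197568, 68719476736), (171798691840, 34359738368)] rfl (by decide +kernel)
theorem c1_m14_t18 : CovD 0 progs [(324135813120, 14092861440), (165356240896, 23622320128), (893353197568, 68719476736), (171798691840, 34359738368)] :=
  Pool.Agent.helper14.QF.covD_F chks_eq (.n 0 (.n 0 (.l 4) (.n 0 (.l 4) (.l 4))) (.n 0 (.n 0 (.l 4) (.n 0 (.l 4) (.l 4))) (.n 0 (.n 0 (.n 0 (.l 4) (.l 4)) (.n 1 (.l 4) (.l 4))) (.n 0 (.n 1 (.l 4) (.l 4)) (.n 1 (.l 4) (.l 4))))))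
    [(324135813120, 14092861440), (165356240896, 23622320128), (893353197568, 68719476736), (171798691840, 34359738368)] rfl (by decide +kernel)
end
mutual
theorem c1_m14_t20 : CovD 0 progs [(324135813120, 14092861440), (118111600640, 23622320128), (1030792151040, 68719476736), (171798691840, 34359738368)] :=
  Pool.Agent.helper14.QF.covD_F chks_eq (.n 1 (.n 0 (.l 6) (.n 0 (.l 6) (.n 0 (.n 0 (.l 4) (.l 4)) (.n 0 (.l 4) (.l 4))))) (.n 0 (.l 6) (.n 0 (.n 0 (.l 4) (.l 4)) (.n 2 (.n 0 (.l 4) (.l 4)) (.l 6)))))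
    [(324135813120, 14092861440), (118111600640, 23622320128), (1030792151040, 68719476736), (171798691840, 34359738368)] rfl (by decide +kernel)
theorem c1_m14_t21 : CovD 0 progs [(324135813120, 14092861440), (165356240896, 23622320128), (1030792151040, 68719476736), (171798691840, 34359738368)] :=
  Pool.Agent.helper14.QF.covD_F chks_eq (.n 2 (.n 0 (.n 0 (.l 4) (.n 0 (.l 4) (.l 4))) (.n 0 (.n 0 (.l 4) (.l 4)) (.n 0 (.n 0 (.l 4) (.l 4)) (.n 0 (.l 4) (.l 4))))) (.n 0 (.n 0 (.l 4) (.n 0 (.l 4) (.l 4))) (.n 0 (.n 0 (.l 4) (.l 4)) (.n 0 (.l 4) (.n 0 (.l 4) (.l 4))))))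
    [(324135813120, 14092861440), (165356240896, 23622320128), (1030792151040, 68719476736), (171798691840, 34359738368)] rfl (by decide +kernel)
end
mutual
theorem c1_m14_t26 : CovD 0 progs [(313566167040, 3523215360), (94489280512, 94489280512), (824633720832, 274877906944), (240518168576, 34359738368)] :=
  Pool.Agent.helper14.QF.covD_F chks_eq (.n 0 (.n 1 (.n 2 (.l 4) (.l 4)) (.n 2 (.l 4) (.n 1 (.l 4) (.l 4)))) (.n 1 (.n 2 (.l 4) (.n 0 (.l 4) (.l 4))) (.n 2 (.n 0 (.l 4) (.l 4)) (.n 2 (.l 4) (.n 0 (.l 4) (.l 4))))))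
    [(313566167040, 3523215360), (94489280512, 94489280512), (824633720832, 274877906944), (240518168576, 34359738368)] rfl (by decide +kernel)
theorem c1_m14_t27 : CovD 0 progs [(320612597760, 3523215360), (47244640256, 47244640256), (824633720832, 274877906944), (240518168576, 34359738368)] :=
  Pool.Agent.helper14.QF.covD_F chks_eq (.n 2 (.n 0 (.n 0 (.l 4) (.l 4)) (.n 3 (.l 4) (.n 0 (.l 4) (.l 4)))) (.n 2 (.n 2 (.n 0 (.l 4) (.n 0 (.l 4) (.l 4))) (.l 6)) (.l 6)))
    [(320612597760, 3523215360), (47244640256, 47244640256), (824633720832, 274877906944), (240518168576, 34359738368)] rfl (by decide +kernel)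
end
mutual
theorem c1_m14_t28 : CovD 0 progs [(320612597760, 3523215360), (141733920768, 47244640256), (824633720832, 274877906944), (240518168576, 34359738368)] :=
  Pool.Agent.helper14.QF.covD_F chks_eq (.n 1 (.n 0 (.n 2 (.n 0 (.l 4) (.l 4)) (.n 2 (.l 4) (.l 4))) (.n 0 (.n 2 (.l 4) (.n 1 (.l 4) (.l 4))) (.n 2 (.n 0 (.l 4) (.l 4)) (.n 2 (.l 4) (.l 4))))) (.n 0 (.n 2 (.n 0 (.l 4) (.l 4)) (.n 2 (.l 4) (.l 4))) (.n 2 (.n 3 (.l 4) (.n 0 (.l 4) (.l 4))) (.n 0 (.n 2 (.l 4) (.l 4)) (.n 2 (.l 4) (.l 4))))))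
    [(320612597760, 3523215360), (141733920768, 47244640256), (824633720832, 274877906944), (240518168576, 34359738368)] rfl (by decide +kernel)
theorem c1_m14_t31 : CovD 0 progs [(327659028480, 3523215360), (23622320128, 23622320128), (824633720832, 274877906944), (240518168576, 34359738368)] :=
  Pool.Agent.helper14.QF.covD_F chks_eq (.n 0 (.n 2 (.n 0 (.l 4) (.n 0 (.l 4) (.l 4))) (.n 2 (.n 0 (.l 4) (.l 4)) (.l 6))) (.n 2 (.n 0 (.n 3 (.l 4) (.l 4)) (.n 3 (.l 4) (.n 0 (.l 4) (.l 4)))) (.n 2 (.n 3 (.l 4) (.n 0 (.l 4) (.l 4))) (.l 6))))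
    [(327659028480, 3523215360), (23622320128, 23622320128), (824633720832, 274877906944), (240518168576, 34359738368)] rfl (by decide +kernel)
end
mutual
theorem c1_m14_t32 : CovD 0 progs [(332943851520, 1761607680), (23622320128, 23622320128), (824633720832, 274877906944), (240518168576, 34359738368)] :=
  Pool.Agent.helper14.QF.covD_F chks_eq (.n 2 (.n 0 (.n 3 (.l 4) (.n 0 (.l 4) (.l 4))) (.n 1 (.n 3 (.l 4) (.l 4)) (.n 3 (.l 4) (.l 4)))) (.n 2 (.n 0 (.n 3 (.l 4) (.l 4)) (.n 2 (.n 3 (.l 4) (.l 4)) (.l 6))) (.l 6)))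
    [(332943851520, 1761607680), (23622320128, 23622320128), (824633720832, 274877906944), (240518168576, 34359738368)] rfl (by decide +kernel)
theorem c1_m14_t33 : CovD 0 progs [(336467066880, 1761607680), (23622320128, 23622320128), (824633720832, 274877906944), (240518168576, 34359738368)] :=
  Pool.Agent.helper14.QF.covD_F chks_eq (.n 2 (.n 0 (.n 1 (.n 3 (.l 4) (.l 4)) (.n 3 (.l 4) (.l 4))) (.n 1 (.n 3 (.l 4) (.l 4)) (.n 3 (.l 4) (.l 4)))) (.n 2 (.n 2 (.n 0 (.n 3 (.l 4) (.l 4)) (.n 3 (.l 4) (.l 4))) (.l 6)) (.l 6)))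
    [(336467066880, 1761607680), (23622320128, 23622320128), (824633720832, 274877906944), (240518168576, 34359738368)] rfl (by decide +kernel)
end
mutual
theorem c1_m14_t36 : CovD 0 progs [(327659028480, 3523215360), (70866960384, 23622320128), (824633720832, 274877906944), (240518168576, 34359738368)] :=
  Pool.Agent.helper14.QF.covD_F chks_eq (.n 2 (.n 0 (.n 3 (.l 4) (.n 0 (.l 4) (.l 4))) (.n 0 (.n 3 (.l 4) (.n 0 (.l 4) (.l 4))) (.n 3 (.l 4) (.n 1 (.l 4) (.l 4))))) (.n 2 (.n 0 (.n 0 (.l 4) (.n 0 (.l 4) (.l 4))) (.n 0 (.n 3 (.l 4) (.l 4)) (.n 3 (.l 4) (.n 0 (.l 4) (.l 4))))) (.l 6)))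
    [(327659028480, 3523215360), (70866960384, 23622320128), (824633720832, 274877906944), (240518168576, 34359738368)] rfl (by decide +kernel)
theorem c1_m14_t37 : CovD 0 progs [(332943851520, 1761607680), (70866960384, 23622320128), (824633720832, 274877906944), (240518168576, 34359738368)] :=
  Pool.Agent.helper14.QF.covD_F chks_eq (.n 2 (.n 0 (.n 2 (.n 3 (.l 4) (.l 4)) (.n 3 (.l 4) (.l 4))) (.n 2 (.n 3 (.l 4) (.l 4)) (.n 3 (.l 4) (.n 0 (.l 4) (.l 4))))) (.n 2 (.n 0 (.n 3 (.l 4) (.n 0 (.l 4) (.l 4))) (.n 1 (.n 3 (.l 4) (.l 4)) (.n 3 (.l 4) (.l 4)))) (.l 6)))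
    [(332943851520, 1761607680), (70866960384, 23622320128), (824633720832, 274877906944), (240518168576, 34359738368)] rfl (by decide +kernel)
end
mutual
theorem c1_m14_t38 : CovD 0 progs [(336467066880, 1761607680), (70866960384, 23622320128), (824633720832, 274877906944), (240518168576, 34359738368)] :=
  Pool.Agent.helper14.QF.covD_F chks_eq (.n 2 (.n 0 (.n 2 (.n 3 (.l 4) (.l 4)) (.n 3 (.l 4) (.n 0 (.l 4) (.l 4)))) (.n 2 (.n 3 (.l 4) (.l 4)) (.n 0 (.n 3 (.l 4) (.l 4)) (.n 3 (.l 4) (.l 4))))) (.n 2 (.n 0 (.n 1 (.n 3 (.l 4) (.l 4)) (.n 3 (.l 4) (.l 4))) (.n 1 (.n 3 (.l 4) (.l 4)) (.n 3 (.l 4) (.l 4)))) (.l 6)))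
    [(336467066880, 1761607680), (70866960384, 23622320128), (824633720832, 274877906944), (240518168576, 34359738368)] rfl (by decide +kernel)
theorem c1_m14_t42 : CovD 0 progs [(327659028480, 3523215360), (118111600640, 23622320128), (687194767360, 137438953472), (240518168576, 34359738368)] :=
  Pool.Agent.helper14.QF.covD_F chks_eq (.n 0 (.n 0 (.n 2 (.l 4) (.l 4)) (.n 2 (.l 4) (.n 0 (.l 4) (.l 4)))) (.n 0 (.n 3 (.l 4) (.n 2 (.l 4) (.l 4))) (.n 2 (.n 3 (.l 4) (.l 4)) (.n 3 (.l 4) (.l 4)))))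
    [(327659028480, 3523215360), (118111600640, 23622320128), (687194767360, 137438953472), (240518168576, 34359738368)] rfl (by decide +kernel)
end
mutual
theorem c1_m14_t43 : CovD 0 progs [(332943851520, 1761607680), (118111600640, 23622320128), (687194767360, 137438953472), (240518168576, 34359738368)] :=
  Pool.Agent.helper14.QF.covD_F chks_eq (.n 0 (.n 2 (.n 3 (.l 4) (.l 4)) (.n 3 (.l 4) (.n 0 (.l 4) (.l 4)))) (.n 2 (.n 3 (.l 4) (.n 0 (.l 4) (.l 4))) (.n 3 (.l 4) (.n 1 (.l 4) (.l 4)))))
    [(332943851520, 1761607680), (118111600640, 23622320128), (687194767360, 137438953472), (240518168576, 34359738368)] rfl (by decide +kernel)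
theorem c1_m14_t44 : CovD 0 progs [(336467066880, 1761607680), (118111600640, 23622320128), (687194767360, 137438953472), (240518168576, 34359738368)] :=
  Pool.Agent.helper14.QF.covD_F chks_eq (.n 0 (.n 2 (.n 3 (.l 4) (.n 0 (.l 4) (.l 4))) (.n 1 (.n 3 (.l 4) (.l 4)) (.n 3 (.l 4) (.l 4)))) (.n 2 (.n 3 (.l 4) (.n 0 (.l 4) (.l 4))) (.n 1 (.n 3 (.l 4) (.l 4)) (.n 3 (.l 4) (.l 4)))))
    [(336467066880, 1761607680), (118111600640, 23622320128), (687194767360, 137438953472), (240518168576, 34359738368)] rfl (by decide +kernel)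
end
mutual
theorem c1_m14_t47 : CovD 0 progs [(331182243840, 7046430720), (106300440576, 11811160064), (893353197568, 68719476736), (240518168576, 34359738368)] :=
  Pool.Agent.helper14.QF.covD_F chks_eq (.n 0 (.n 0 (.n 0 (.l 4) (.l 4)) (.n 3 (.l 4) (.n 0 (.l 4) (.l 4)))) (.n 0 (.n 0 (.n 3 (.l 4) (.l 4)) (.n 3 (.l 4) (.l 4))) (.n 0 (.n 3 (.l 4) (.l 4)) (.n 3 (.l 4) (.l 4)))))
    [(331182243840, 7046430720), (106300440576, 11811160064), (893353197568, 68719476736), (240518168576, 34359738368)] rfl (by decide +kernel)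
theorem c1_m14_t48 : CovD 0 progs [(331182243840, 7046430720), (129922760704, 11811160064), (893353197568, 68719476736), (240518168576, 34359738368)] :=
  Pool.Agent.helper14.QF.covD_F chks_eq (.n 0 (.n 0 (.n 0 (.l 4) (.l 4)) (.n 3 (.l 4) (.n 0 (.l 4) (.l 4)))) (.n 0 (.n 0 (.n 2 (.l 4) (.l 4)) (.n 3 (.l 4) (.l 4))) (.n 0 (.n 2 (.l 4) (.l 4)) (.n 2 (.l 4) (.l 4)))))
    [(331182243840, 7046430720), (129922760704, 11811160064), (893353197568, 68719476736), (240518168576, 34359738368)] rfl (by decide +kernel)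
end
mutual
theorem c1_m14_t50 : CovD 0 progs [(331182243840, 7046430720), (118111600640, 23622320128), (1030792151040, 68719476736), (240518168576, 34359738368)] :=
  Pool.Agent.helper14.QF.covD_F chks_eq (.n 0 (.n 1 (.l 6) (.n 2 (.n 0 (.l 4) (.n 0 (.l 4) (.l 4))) (.l 6))) (.n 0 (.n 2 (.n 1 (.l 6) (.n 0 (.l 4) (.l 4))) (.l 6)) (.n 2 (.n 0 (.n 1 (.l 4) (.l 4)) (.n 1 (.l 4) (.l 4))) (.l 6))))
    [(331182243840, 7046430720), (118111600640, 23622320128), (1030792151040, 68719476736), (240518168576, 34359738368)] rfl (by decide +kernel)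
theorem c1_m14_t53 : CovD 0 progs [(325897420800, 1761607680), (165356240896, 23622320128), (824633720832, 274877906944), (240518168576, 34359738368)] :=
  Pool.Agent.helper14.QF.covD_F chks_eq (.n 2 (.n 2 (.n 3 (.l 4) (.l 4)) (.n 0 (.l 4) (.n 0 (.l 4) (.l 4)))) (.n 2 (.n 3 (.l 4) (.n 0 (.l 4) (.l 4))) (.n 3 (.l 4) (.n 0 (.l 4) (.l 4)))))
    [(325897420800, 1761607680), (165356240896, 23622320128), (824633720832, 274877906944), (240518168576, 34359738368)] rfl (by decide +kernel)
end
mutual
theorem c1_m14_t54 : CovD 0 progs [(329420636160, 1761607680), (165356240896, 23622320128), (824633720832, 274877906944), (240518168576, 34359738368)] :=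
  Pool.Agent.helper14.QF.covD_F chks_eq (.n 2 (.n 2 (.n 3 (.l 4) (.n 0 (.l 4) (.l 4))) (.n 0 (.n 2 (.l 4) (.l 4)) (.n 3 (.l 4) (.n 0 (.l 4) (.l 4))))) (.n 0 (.n 1 (.n 2 (.l 4) (.l 4)) (.n 2 (.l 4) (.l 4))) (.n 2 (.n 3 (.l 4) (.n 1 (.l 4) (.l 4))) (.n 1 (.l 4) (.l 4)))))
    [(329420636160, 1761607680), (165356240896, 23622320128), (824633720832, 274877906944), (240518168576, 34359738368)] rfl (by decide +kernel)
theorem c1_m14_t56 : CovD 0 progs [(332943851520, 1761607680), (165356240896, 23622320128), (824633720832, 274877906944), (240518168576, 34359738368)] :=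
  Pool.Agent.helper14.QF.covD_F chks_eq (.n 2 (.n 2 (.n 0 (.n 3 (.l 4) (.n 0 (.l 4) (.l 4))) (.n 3 (.l 4) (.n 0 (.l 4) (.l 4)))) (.n 2 (.n 3 (.l 4) (.n 0 (.l 4) (.l 4))) (.n 3 (.l 4) (.n 0 (.l 4) (.l 4))))) (.n 2 (.n 2 (.n 3 (.l 4) (.n 0 (.l 4) (.l 4))) (.n 1 (.n 0 (.l 4) (.l 4)) (.l 4))) (.n 1 (.n 2 (.n 0 (.l 4) (.l 4)) (.l 4)) (.n 0 (.l 4) (.l 4)))))
    [(332943851520, 1761607680), (165356240896, 23622320128), (824633720832, 274877906944), (240518168576, 34359738368)] rfl (by decide +kernel)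
end
mutual
theorem c1_m14_t57 : CovD 0 progs [(336467066880, 1761607680), (153545080832, 11811160064), (824633720832, 274877906944), (240518168576, 34359738368)] :=
  Pool.Agent.helper14.QF.covD_F chks_eq (.n 2 (.n 0 (.n 2 (.n 3 (.l 4) (.l 4)) (.n 3 (.l 4) (.l 4))) (.n 2 (.n 3 (.l 4) (.l 4)) (.n 2 (.l 4) (.l 4)))) (.n 2 (.n 0 (.n 2 (.l 4) (.l 4)) (.n 1 (.l 4) (.l 4))) (.n 2 (.l 4) (.l 4))))
    [(336467066880, 1761607680), (153545080832, 11811160064), (824633720832, 274877906944), (240518168576, 34359738368)] rfl (by decide +kernel)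
theorem c1_m14_t58 : CovD 0 progs [(336467066880, 1761607680), (177167400960, 11811160064), (824633720832, 274877906944), (240518168576, 34359738368)] :=
  Pool.Agent.helper14.QF.covD_F chks_eq (.n 2 (.n 0 (.n 2 (.n 3 (.l 4) (.l 4)) (.n 2 (.l 4) (.l 4))) (.n 2 (.n 3 (.l 4) (.l 4)) (.n 2 (.l 4) (.l 4)))) (.n 2 (.n 2 (.n 0 (.l 4) (.l 4)) (.l 4)) (.n 0 (.l 4) (.l 4))))
    [(336467066880, 1761607680), (177167400960, 11811160064), (824633720832, 274877906944), (240518168576, 34359738368)] rfl (by decide +kernel)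
end
theorem c1_m14_t2 : CovD 0 progs [(295950090240, 14092861440), (94489280512, 94489280512), (824633720832, 274877906944), (206158430208, 68719476736)] :=
  covD_split 2 (by decide +kernel) c1_m14_t0 c1_m14_t1
theorem c1_m14_t7 : CovD 0 progs [(334705459200, 3523215360), (47244640256, 47244640256), (824633720832, 274877906944), (171798691840, 34359738368)] :=
  covD_split 1 (by decide +kernel) c1_m14_t5 c1_m14_t6
theorem c1_m14_t8 : CovD 0 progs [(331182243840, 7046430720), (47244640256, 47244640256), (824633720832, 274877906944), (171798691840, 34359738368)] :=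
  covD_split 0 (by decide +kernel) c1_m14_t4 c1_m14_t7
theorem c1_m14_t9 : CovD 0 progs [(324135813120, 14092861440), (47244640256, 47244640256), (824633720832, 274877906944), (171798691840, 34359738368)] :=
  covD_split 0 (by decide +kernel) c1_m14_t3 c1_m14_t8
theorem c1_m14_t14 : CovD 0 progs [(334705459200, 3523215360), (141733920768, 47244640256), (687194767360, 137438953472), (171798691840, 34359738368)] :=
  covD_split 0 (by decide +kernel) c1_m14_t12 c1_m14_t13
theorem c1_m14_t15 : CovD 0 progs [(331182243840, 7046430720), (141733920768, 47244640256), (687194767360, 137438953472), (171798691840, 34359738368)] :=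
  covD_split 0 (by decide +kernel) c1_m14_t11 c1_m14_t14
theorem c1_m14_t16 : CovD 0 progs [(324135813120, 14092861440), (141733920768, 47244640256), (687194767360, 137438953472), (171798691840, 34359738368)] :=
  covD_split 0 (by decide +kernel) c1_m14_t10 c1_m14_t15
theorem c1_m14_t19 : CovD 0 progs [(324135813120, 14092861440), (141733920768, 47244640256), (893353197568, 68719476736), (171798691840, 34359738368)] :=
  covD_split 1 (by decide +kernel) c1_m14_t17 c1_m14_t18
theorem c1_m14_t22 : CovD 0 progs [(324135813120, 14092861440), (141733920768, 47244640256), (1030792151040, 68719476736), (171798691840, 34359738368)] :=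
  covD_split 1 (by decide +kernel) c1_m14_t20 c1_m14_t21
theorem c1_m14_t23 : CovD 0 progs [(324135813120, 14092861440), (141733920768, 47244640256), (962072674304, 137438953472), (171798691840, 34359738368)] :=
  covD_split 2 (by decide +kernel) c1_m14_t19 c1_m14_t22
theorem c1_m14_t24 : CovD 0 progs [(324135813120, 14092861440), (141733920768, 47244640256), (824633720832, 274877906944), (171798691840, 34359738368)] :=
  covD_split 2 (by decide +kernel) c1_m14_t16 c1_m14_t23
theorem c1_m14_t25 : CovD 0 progs [(324135813120, 14092861440), (94489280512, 94489280512), (824633720832, 274877906944), (171798691840, 34359738368)] :=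
  covD_split 1 (by decide +kernel) c1_m14_t9 c1_m14_t24
theorem c1_m14_t29 : CovD 0 progs [(320612597760, 3523215360), (94489280512, 94489280512), (824633720832, 274877906944), (240518168576, 34359738368)] :=
  covD_split 1 (by decide +kernel) c1_m14_t27 c1_m14_t28
theorem c1_m14_t30 : CovD 0 progs [(317089382400, 7046430720), (94489280512, 94489280512), (824633720832, 274877906944), (240518168576, 34359738368)] :=
  covD_split 0 (by decide +kernel) c1_m14_t26 c1_m14_t29
theorem c1_m14_t34 : CovD 0 progs [(334705459200, 3523215360), (23622320128, 23622320128), (824633720832, 274877906944), (240518168576, 34359738368)] :=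
  covD_split 0 (by decide +kernel) c1_m14_t32 c1_m14_t33
theorem c1_m14_t35 : CovD 0 progs [(331182243840, 7046430720), (23622320128, 23622320128), (824633720832, 274877906944), (240518168576, 34359738368)] :=
  covD_split 0 (by decide +kernel) c1_m14_t31 c1_m14_t34
theorem c1_m14_t39 : CovD 0 progs [(334705459200, 3523215360), (70866960384, 23622320128), (824633720832, 274877906944), (240518168576, 34359738368)] :=
  covD_split 0 (by decide +kernel) c1_m14_t37 c1_m14_t38
theorem c1_m14_t40 : CovD 0 progs [(331182243840, 7046430720), (70866960384, 23622320128), (824633720832, 274877906944), (240518168576, 34359738368)] :=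
  covD_split 0 (by decide +kernel) c1_m14_t36 c1_m14_t39
theorem c1_m14_t41 : CovD 0 progs [(331182243840, 7046430720), (47244640256, 47244640256), (824633720832, 274877906944), (240518168576, 34359738368)] :=
  covD_split 1 (by decide +kernel) c1_m14_t35 c1_m14_t40
theorem c1_m14_t45 : CovD 0 progs [(334705459200, 3523215360), (118111600640, 23622320128), (687194767360, 137438953472), (240518168576, 34359738368)] :=
  covD_split 0 (by decide +kernel) c1_m14_t43 c1_m14_t44
theorem c1_m14_t46 : CovD 0 progs [(331182243840, 7046430720), (118111600640, 23622320128), (687194767360, 137438953472), (240518168576, 34359738368)] :=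
  covD_split 0 (by decide +kernel) c1_m14_t42 c1_m14_t45
theorem c1_m14_t49 : CovD 0 progs [(331182243840, 7046430720), (118111600640, 23622320128), (893353197568, 68719476736), (240518168576, 34359738368)] :=
  covD_split 1 (by decide +kernel) c1_m14_t47 c1_m14_t48
theorem c1_m14_t51 : CovD 0 progs [(331182243840, 7046430720), (118111600640, 23622320128), (962072674304, 137438953472), (240518168576, 34359738368)] :=
  covD_split 2 (by decide +kernel) c1_m14_t49 c1_m14_t50
theorem c1_m14_t52 : CovD 0 progs [(331182243840, 7046430720), (118111600640, 23622320128), (824633720832, 274877906944), (240518168576, 34359738368)] :=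
  covD_split 2 (by decide +kernel) c1_m14_t46 c1_m14_t51
theorem c1_m14_t55 : CovD 0 progs [(327659028480, 3523215360), (165356240896, 23622320128), (824633720832, 274877906944), (240518168576, 34359738368)] :=
  covD_split 0 (by decide +kernel) c1_m14_t53 c1_m14_t54
theorem c1_m14_t59 : CovD 0 progs [(336467066880, 1761607680), (165356240896, 23622320128), (824633720832, 274877906944), (240518168576, 34359738368)] :=
  covD_split 1 (by decide +kernel) c1_m14_t57 c1_m14_t58
theorem c1_m14_t60 : CovD 0 progs [(334705459200, 3523215360), (165356240896, 23622320128), (824633720832, 274877906944), (240518168576, 34359738368)] :=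
  covD_split 0 (by decide +kernel) c1_m14_t56 c1_m14_t59
theorem c1_m14_t61 : CovD 0 progs [(331182243840, 7046430720), (165356240896, 23622320128), (824633720832, 274877906944), (240518168576, 34359738368)] :=
  covD_split 0 (by decide +kernel) c1_m14_t55 c1_m14_t60
theorem c1_m14_t62 : CovD 0 progs [(331182243840, 7046430720), (141733920768, 47244640256), (824633720832, 274877906944), (240518168576, 34359738368)] :=
  covD_split 1 (by decide +kernel) c1_m14_t52 c1_m14_t61
theorem c1_m14_t63 : CovD 0 progs [(331182243840, 7046430720), (94489280512, 94489280512), (824633720832, 274877906944), (240518168576, 34359738368)] :=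
  covD_split 1 (by decide +kernel) c1_m14_t41 c1_m14_t62
theorem c1_m14_t64 : CovD 0 progs [(324135813120, 14092861440), (94489280512, 94489280512), (824633720832, 274877906944), (240518168576, 34359738368)] :=
  covD_split 0 (by decide +kernel) c1_m14_t30 c1_m14_t63
theorem c1_m14_t65 : CovD 0 progs [(324135813120, 14092861440), (94489280512, 94489280512), (824633720832, 274877906944), (206158430208, 68719476736)] :=
  covD_split 3 (by decide +kernel) c1_m14_t25 c1_m14_t64
theorem c1_m14 : CovD 0 progs [(310042951680, 28185722880), (94489280512, 94489280512), (824633720832, 274877906944), (206158430208, 68719476736)] :=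
  covD_split 0 (by decide +kernel) c1_m14_t2 c1_m14_t65

end Pool.Agent.helper71.FJ.Crt.QMa
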