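import Pool.Agent.helper71.FJ.Crt.QMaP

/-!
Generated certificates.
-/

namespace Pool.Agent.helper71.FJ.Crt.QMa

open Pool.Agent.helper31.IA (Z Op)
open Pool.Agent.helper31.IC

mutual
theorem c1_m15_t0 : CovD 0 progs [(288903659520, 7046430720), (47244640256, 47244640256), (824633720832, 274877906944), (343597383680, 68719476736)] :=
  Pool.Agent.helper14.QF.covD_F chks_eq (.n 0 (.n 2 (.n 3 (.l 4) (.n 0 (.l 4) (.l 4))) (.l 6)) (.n 2 (.n 3 (.l 4) (.n 0 (.l 4) (.l 4))) (.n 1 (.l 6) (.l 6))))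
    [(288903659520, 7046430720), (47244640256, 47244640256), (824633720832, 274877906944), (343597383680, 68719476736)] rfl (by decide +kernel)
theorem c1_m15_t1 : CovD 0 progs [(299473305600, 3523215360), (47244640256, 47244640256), (824633720832, 274877906944), (343597383680, 68719476736)] :=
  Pool.Agent.helper14.QF.covD_F chks_eq (.n 2 (.n 0 (.n 3 (.l 4) (.n 0 (.l 4) (.l 4))) (.n 3 (.l 4) (.n 3 (.l 4) (.l 4)))) (.n 1 (.l 6) (.n 2 (.l 6) (.l 6))))
    [(299473305600, 3523215360), (47244640256, 47244640256), (824633720832, 274877906944), (343597383680, 68719476736)] rfl (by decide +kernel)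
end
mutual
theorem c1_m15_t2 : CovD 0 progs [(306519736320, 3523215360), (47244640256, 47244640256), (824633720832, 274877906944), (343597383680, 68719476736)] :=
  Pool.Agent.helper14.QF.covD_F chks_eq (.n 3 (.n 2 (.n 0 (.l 4) (.n 0 (.l 4) (.l 4))) (.n 1 (.l 6) (.n 0 (.l 4) (.l 4)))) (.n 3 (.n 0 (.n 2 (.l 4) (.l 4)) (.n 1 (.n 0 (.l 4) (.l 4)) (.n 2 (.l 4) (.l 4)))) (.n 0 (.n 2 (.n 0 (.l 4) (.l 4)) (.n 2 (.l 4) (.l 6))) (.n 2 (.n 0 (.l 4) (.n 0 (.l 4) (.l 4))) (.n 2 (.n 0 (.l 4) (.l 4)) (.l 6))))))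
    [(306519736320, 3523215360), (47244640256, 47244640256), (824633720832, 274877906944), (343597383680, 68719476736)] rfl (by decide +kernel)
theorem c1_m15_t5 : CovD 0 progs [(288903659520, 7046430720), (141733920768, 47244640256), (824633720832, 274877906944), (343597383680, 68719476736)] :=
  Pool.Agent.helper14.QF.covD_F chks_eq (.n 0 (.n 0 (.n 3 (.l 4) (.n 1 (.l 4) (.l 4))) (.n 3 (.l 4) (.n 2 (.l 4) (.l 4)))) (.n 2 (.n 3 (.l 4) (.n 0 (.l 4) (.l 4))) (.n 2 (.n 3 (.l 4) (.n 0 (.l 4) (.l 4))) (.l 6))))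
    [(288903659520, 7046430720), (141733920768, 47244640256), (824633720832, 274877906944), (343597383680, 68719476736)] rfl (by decide +kernel)
end
mutual
theorem c1_m15_t6 : CovD 0 progs [(299473305600, 3523215360), (141733920768, 47244640256), (824633720832, 274877906944), (343597383680, 68719476736)] :=
  Pool.Agent.helper14.QF.covD_F chks_eq (.n 0 (.n 2 (.n 3 (.l 4) (.n 0 (.l 4) (.l 4))) (.n 2 (.n 3 (.l 4) (.n 0 (.l 4) (.l 4))) (.l 6))) (.n 2 (.n 3 (.l 4) (.n 3 (.l 4) (.n 0 (.l 4) (.l 4)))) (.n 2 (.n 3 (.l 4) (.n 3 (.l 4) (.l 4))) (.n 1 (.l 6) (.l 6)))))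
    [(299473305600, 3523215360), (141733920768, 47244640256), (824633720832, 274877906944), (343597383680, 68719476736)] rfl (by decide +kernel)
theorem c1_m15_t7 : CovD 0 progs [(304758128640, 1761607680), (141733920768, 47244640256), (824633720832, 274877906944), (343597383680, 68719476736)] :=
  Pool.Agent.helper14.QF.covD_F chks_eq (.n 2 (.n 3 (.l 4) (.n 3 (.l 4) (.n 0 (.l 4) (.n 1 (.l 4) (.l 4))))) (.n 2 (.n 3 (.l 4) (.n 3 (.l 4) (.n 0 (.l 4) (.l 4)))) (.n 1 (.l 6) (.n 2 (.l 6) (.l 6)))))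
    [(304758128640, 1761607680), (141733920768, 47244640256), (824633720832, 274877906944), (343597383680, 68719476736)] rfl (by decide +kernel)
theorem c1_m15_t8 : CovD 0 progs [(308281344000, 1761607680), (141733920768, 47244640256), (824633720832, 274877906944), (343597383680, 68719476736)] :=
  Pool.Agent.helper14.QF.covD_F chks_eq (.n 1 (.n 2 (.n 3 (.l 4) (.n 3 (.l 4) (.n 0 (.l 4) (.l 4)))) (.n 2 (.n 3 (.l 4) (.n 2 (.n 3 (.l 4) (.l 4)) (.l 6))) (.l 6))) (.n 2 (.n 3 (.n 0 (.l 4) (.l 4)) (.n 3 (.l 4) (.n 0 (.l 4) (.n 1 (.l 4) (.l 4))))) (.n 2 (.n 3 (.l 4) (.n 3 (.l 4) (.n 0 (.l 4) (.l 4)))) (.n 1 (.l 6) (.n 3 (.l 4) (.n 3 (.l 4) (.l 4)))))))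
    [(308281344000, 1761607680), (141733920768, 47244640256), (824633720832, 274877906944), (343597383680, 68719476736)] rfl (by decide +kernel)
end
theorem c1_m15_t3 : CovD 0 progs [(302996520960, 7046430720), (47244640256, 47244640256), (824633720832, 274877906944), (343597383680, 68719476736)] :=
  covD_split 0 (by decide +kernel) c1_m15_t1 c1_m15_t2
theorem c1_m15_t4 : CovD 0 progs [(295950090240, 14092861440), (47244640256, 47244640256), (824633720832, 274877906944), (343597383680, 68719476736)] :=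
  covD_split 0 (by decide +kernel) c1_m15_t0 c1_m15_t3
theorem c1_m15_t9 : CovD 0 progs [(306519736320, 3523215360), (141733920768, 47244640256), (824633720832, 274877906944), (343597383680, 68719476736)] :=
  covD_split 0 (by decide +kernel) c1_m15_t7 c1_m15_t8
theorem c1_m15_t10 : CovD 0 progs [(302996520960, 7046430720), (141733920768, 47244640256), (824633720832, 274877906944), (343597383680, 68719476736)] :=
  covD_split 0 (by decide +kernel) c1_m15_t6 c1_m15_t9
theorem c1_m15_t11 : CovD 0 progs [(295950090240, 14092861440), (141733920768, 47244640256), (824633720832, 274877906944), (343597383680, 68719476736)] :=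
  covD_split 0 (by decide +kernel) c1_m15_t5 c1_m15_t10
theorem c1_m15 : CovD 0 progs [(295950090240, 14092861440), (94489280512, 94489280512), (824633720832, 274877906944), (343597383680, 68719476736)] :=
  covD_split 1 (by decide +kernel) c1_m15_t4 c1_m15_t11

end Pool.Agent.helper71.FJ.Crt.QMa
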