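import Pool.Agent.helper71.FJ.Crt.QMaP

/-!
Generated certificates.
-/

namespace Pool.Agent.helper71.FJ.Crt.QMa

open Pool.Agent.helper31.IA (Z Op)
open Pool.Agent.helper31.IC

mutual
theorem c1_m16_t0 : CovD 0 progs [(313566167040, 3523215360), (94489280512, 94489280512), (687194767360, 137438953472), (309237645312, 34359738368)] :=
  Pool.Agent.helper14.QF.covD_F chks_eq (.n 0 (.n 1 (.n 3 (.l 4) (.l 4)) (.n 3 (.l 4) (.n 0 (.l 4) (.l 4)))) (.n 1 (.n 3 (.l 4) (.n 0 (.l 4) (.l 4))) (.n 2 (.n 3 (.l 4) (.l 4)) (.n 3 (.l 4) (.n 0 (.l 4) (.l 4))))))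
    [(313566167040, 3523215360), (94489280512, 94489280512), (687194767360, 137438953472), (309237645312, 34359738368)] rfl (by decide +kernel)
theorem c1_m16_t1 : CovD 0 progs [(318850990080, 1761607680), (94489280512, 94489280512), (687194767360, 137438953472), (309237645312, 34359738368)] :=
  Pool.Agent.helper14.QF.covD_F chks_eq (.n 1 (.n 0 (.n 3 (.l 4) (.n 0 (.l 4) (.l 4))) (.n 3 (.l 4) (.n 1 (.l 4) (.l 4)))) (.n 2 (.n 3 (.l 4) (.n 0 (.l 4) (.l 4))) (.n 0 (.n 3 (.l 4) (.n 0 (.l 4) (.l 4))) (.n 3 (.l 4) (.n 1 (.l 4) (.l 4))))))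
    [(318850990080, 1761607680), (94489280512, 94489280512), (687194767360, 137438953472), (309237645312, 34359738368)] rfl (by decide +kernel)
end
mutual
theorem c1_m16_t2 : CovD 0 progs [(321493401600, 880803840), (94489280512, 94489280512), (687194767360, 137438953472), (309237645312, 34359738368)] :=
  Pool.Agent.helper14.QF.covD_F chks_eq (.n 1 (.n 1 (.n 3 (.l 4) (.l 4)) (.n 3 (.l 4) (.n 0 (.l 4) (.l 4)))) (.n 1 (.n 3 (.l 4) (.n 2 (.l 4) (.l 4))) (.n 2 (.n 3 (.l 4) (.l 4)) (.n 3 (.l 4) (.l 4)))))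
    [(321493401600, 880803840), (94489280512, 94489280512), (687194767360, 137438953472), (309237645312, 34359738368)] rfl (by decide +kernel)
theorem c1_m16_t3 : CovD 0 progs [(323255009280, 880803840), (94489280512, 94489280512), (687194767360, 137438953472), (309237645312, 34359738368)] :=
  Pool.Agent.helper14.QF.covD_F chks_eq (.n 1 (.n 1 (.n 3 (.l 4) (.n 0 (.l 4) (.l 4))) (.n 3 (.l 4) (.n 2 (.l 4) (.l 4)))) (.n 2 (.n 3 (.l 4) (.n 1 (.l 4) (.n 0 (.l 4) (.l 4)))) (.n 1 (.n 3 (.l 4) (.n 0 (.l 4) (.l 4))) (.n 3 (.l 4) (.n 0 (.l 4) (.l 4))))))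
    [(323255009280, 880803840), (94489280512, 94489280512), (687194767360, 137438953472), (309237645312, 34359738368)] rfl (by decide +kernel)
end
mutual
theorem c1_m16_t7 : CovD 0 progs [(325016616960, 880803840), (94489280512, 94489280512), (687194767360, 137438953472), (309237645312, 34359738368)] :=
  Pool.Agent.helper14.QF.covD_F chks_eq (.n 1 (.n 1 (.n 3 (.l 4) (.n 2 (.l 4) (.l 4))) (.n 2 (.n 3 (.l 4) (.l 4)) (.n 3 (.l 4) (.n 0 (.l 4) (.l 4))))) (.n 1 (.n 2 (.n 3 (.l 4) (.n 0 (.l 4) (.l 4))) (.n 3 (.l 4) (.n 1 (.l 4) (.l 4)))) (.n 2 (.n 3 (.l 4) (.n 0 (.l 4) (.l 4))) (.n 3 (.l 4) (.n 1 (.l 4) (.l 4))))))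
    [(325016616960, 880803840), (94489280512, 94489280512), (687194767360, 137438953472), (309237645312, 34359738368)] rfl (by decide +kernel)
theorem c1_m16_t8 : CovD 0 progs [(326778224640, 880803840), (47244640256, 47244640256), (687194767360, 137438953472), (309237645312, 34359738368)] :=
  Pool.Agent.helper14.QF.covD_F chks_eq (.n 2 (.n 3 (.n 0 (.l 4) (.l 4)) (.n 3 (.l 4) (.n 0 (.l 4) (.l 4)))) (.n 1 (.n 3 (.l 4) (.n 0 (.l 4) (.l 4))) (.n 3 (.l 4) (.n 1 (.l 4) (.l 4)))))
    [(326778224640, 880803840), (47244640256, 47244640256), (687194767360, 137438953472), (309237645312, 34359738368)] rfl (by decide +kernel)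
end
mutual
theorem c1_m16_t9 : CovD 0 progs [(326778224640, 880803840), (141733920768, 47244640256), (687194767360, 137438953472), (309237645312, 34359738368)] :=
  Pool.Agent.helper14.QF.covD_F chks_eq (.n 1 (.n 2 (.n 3 (.l 4) (.n 0 (.l 4) (.l 4))) (.n 3 (.l 4) (.n 1 (.l 4) (.n 0 (.l 4) (.l 4))))) (.n 2 (.n 3 (.l 4) (.n 2 (.l 4) (.l 4))) (.n 2 (.n 3 (.l 4) (.l 4)) (.n 3 (.l 4) (.l 4)))))
    [(326778224640, 880803840), (141733920768, 47244640256), (687194767360, 137438953472), (309237645312, 34359738368)] rfl (by decide +kernel)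
theorem c1_m16_t12 : CovD 0 progs [(328539832320, 880803840), (47244640256, 47244640256), (687194767360, 137438953472), (309237645312, 34359738368)] :=
  Pool.Agent.helper14.QF.covD_F chks_eq (.n 1 (.n 1 (.n 3 (.l 4) (.n 0 (.l 4) (.l 4))) (.n 3 (.l 4) (.n 0 (.l 4) (.l 4)))) (.n 2 (.n 3 (.l 4) (.n 0 (.l 4) (.l 4))) (.n 3 (.n 0 (.l 4) (.l 4)) (.n 3 (.l 4) (.l 4)))))
    [(328539832320, 880803840), (47244640256, 47244640256), (687194767360, 137438953472), (309237645312, 34359738368)] rfl (by decide +kernel)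
end
mutual
theorem c1_m16_t13 : CovD 0 progs [(328539832320, 880803840), (141733920768, 47244640256), (687194767360, 137438953472), (309237645312, 34359738368)] :=
  Pool.Agent.helper14.QF.covD_F chks_eq (.n 1 (.n 2 (.n 3 (.l 4) (.n 2 (.l 4) (.l 4))) (.n 3 (.n 0 (.l 4) (.l 4)) (.n 3 (.l 4) (.n 0 (.l 4) (.l 4))))) (.n 2 (.n 2 (.n 3 (.l 4) (.l 4)) (.n 3 (.l 4) (.l 4))) (.n 2 (.n 3 (.l 4) (.l 4)) (.n 3 (.l 4) (.l 4)))))
    [(328539832320, 880803840), (141733920768, 47244640256), (687194767360, 137438953472), (309237645312, 34359738368)] rfl (by decide +kernel)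
theorem c1_m16_t15 : CovD 0 progs [(330301440000, 880803840), (47244640256, 47244640256), (687194767360, 137438953472), (309237645312, 34359738368)] :=
  Pool.Agent.helper14.QF.covD_F chks_eq (.n 1 (.n 2 (.n 3 (.l 4) (.l 4)) (.n 3 (.l 4) (.n 0 (.l 4) (.l 4)))) (.n 2 (.n 3 (.l 4) (.n 0 (.l 4) (.l 4))) (.n 1 (.n 3 (.l 4) (.l 4)) (.n 3 (.l 4) (.l 4)))))
    [(330301440000, 880803840), (47244640256, 47244640256), (687194767360, 137438953472), (309237645312, 34359738368)] rfl (by decide +kernel)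
end
mutual
theorem c1_m16_t16 : CovD 0 progs [(330301440000, 880803840), (141733920768, 47244640256), (687194767360, 137438953472), (309237645312, 34359738368)] :=
  Pool.Agent.helper14.QF.covD_F chks_eq (.n 1 (.n 1 (.n 2 (.n 3 (.l 4) (.l 4)) (.n 3 (.l 4) (.l 4))) (.n 2 (.n 3 (.l 4) (.l 4)) (.n 3 (.l 4) (.n 0 (.l 4) (.l 4))))) (.n 2 (.n 2 (.n 3 (.l 4) (.l 4)) (.n 3 (.l 4) (.l 4))) (.n 2 (.n 3 (.l 4) (.l 4)) (.n 3 (.l 4) (.l 4)))))
    [(330301440000, 880803840), (141733920768, 47244640256), (687194767360, 137438953472), (309237645312, 34359738368)] rfl (by decide +kernel)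
theorem c1_m16_t20 : CovD 0 progs [(332943851520, 1761607680), (47244640256, 47244640256), (687194767360, 137438953472), (309237645312, 34359738368)] :=
  Pool.Agent.helper14.QF.covD_F chks_eq (.n 1 (.n 0 (.n 1 (.n 3 (.l 4) (.l 4)) (.n 3 (.n 0 (.l 4) (.l 4)) (.l 4))) (.n 2 (.n 3 (.l 4) (.l 4)) (.n 3 (.l 4) (.l 4)))) (.n 2 (.n 0 (.n 3 (.n 0 (.l 4) (.l 4)) (.l 4)) (.n 3 (.l 4) (.l 4))) (.n 1 (.n 3 (.n 0 (.l 4) (.l 4)) (.l 4)) (.n 3 (.n 0 (.l 4) (.l 4)) (.l 4)))))
    [(332943851520, 1761607680), (47244640256, 47244640256), (687194767360, 137438953472), (309237645312, 34359738368)] rfl (by decide +kernel)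
end
mutual
theorem c1_m16_t21 : CovD 0 progs [(332943851520, 1761607680), (118111600640, 23622320128), (687194767360, 137438953472), (309237645312, 34359738368)] :=
  Pool.Agent.helper14.QF.covD_F chks_eq (.n 2 (.n 2 (.n 3 (.n 0 (.l 4) (.l 4)) (.l 4)) (.n 3 (.n 0 (.l 4) (.l 4)) (.l 4))) (.n 0 (.n 1 (.n 3 (.l 4) (.l 4)) (.n 3 (.l 4) (.l 4))) (.n 1 (.n 3 (.l 4) (.l 4)) (.n 3 (.l 4) (.l 4)))))
    [(332943851520, 1761607680), (118111600640, 23622320128), (687194767360, 137438953472), (309237645312, 34359738368)] rfl (by decide +kernel)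
theorem c1_m16_t22 : CovD 0 progs [(332943851520, 1761607680), (165356240896, 23622320128), (687194767360, 137438953472), (309237645312, 34359738368)] :=
  Pool.Agent.helper14.QF.covD_F chks_eq (.n 2 (.n 2 (.n 3 (.n 0 (.l 4) (.l 4)) (.l 4)) (.n 3 (.n 0 (.l 4) (.l 4)) (.l 4))) (.n 2 (.n 3 (.n 0 (.l 4) (.l 4)) (.l 4)) (.n 3 (.n 0 (.l 4) (.l 4)) (.l 4))))
    [(332943851520, 1761607680), (165356240896, 23622320128), (687194767360, 137438953472), (309237645312, 34359738368)] rfl (by decide +kernel)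
end
mutual
theorem c1_m16_t25 : CovD 0 progs [(336467066880, 1761607680), (47244640256, 47244640256), (687194767360, 137438953472), (309237645312, 34359738368)] :=
  Pool.Agent.helper14.QF.covD_F chks_eq (.n 1 (.n 2 (.n 3 (.l 4) (.n 0 (.l 4) (.l 4))) (.n 3 (.l 4) (.n 0 (.l 4) (.l 4)))) (.n 2 (.n 0 (.n 3 (.l 4) (.l 4)) (.n 3 (.l 4) (.l 4))) (.n 3 (.n 1 (.l 4) (.l 4)) (.n 0 (.l 4) (.n 0 (.l 4) (.l 4))))))
    [(336467066880, 1761607680), (47244640256, 47244640256), (687194767360, 137438953472), (309237645312, 34359738368)] rfl (by decide +kernel)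
theorem c1_m16_t26 : CovD 0 progs [(336467066880, 1761607680), (141733920768, 47244640256), (687194767360, 137438953472), (309237645312, 34359738368)] :=
  Pool.Agent.helper14.QF.covD_F chks_eq (.n 1 (.n 2 (.n 0 (.n 3 (.l 4) (.l 4)) (.n 3 (.l 4) (.n 0 (.l 4) (.l 4)))) (.n 1 (.n 3 (.l 4) (.n 0 (.l 4) (.l 4))) (.n 3 (.l 4) (.n 0 (.l 4) (.l 4))))) (.n 2 (.n 2 (.n 3 (.l 4) (.l 4)) (.n 3 (.l 4) (.l 4))) (.n 2 (.n 3 (.l 4) (.l 4)) (.n 1 (.l 4) (.l 4)))))
    [(336467066880, 1761607680), (141733920768, 47244640256), (687194767360, 137438953472), (309237645312, 34359738368)] rfl (by decide +kernel)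
end
mutual
theorem c1_m16_t31 : CovD 0 progs [(313566167040, 3523215360), (94489280512, 94489280512), (893353197568, 68719476736), (309237645312, 34359738368)] :=
  Pool.Agent.helper14.QF.covD_F chks_eq (.n 0 (.n 0 (.n 1 (.l 4) (.l 4)) (.n 1 (.l 4) (.n 1 (.l 4) (.l 4)))) (.n 1 (.n 1 (.l 6) (.n 0 (.l 4) (.l 4))) (.n 1 (.n 3 (.l 4) (.l 4)) (.n 3 (.l 4) (.l 4)))))
    [(313566167040, 3523215360), (94489280512, 94489280512), (893353197568, 68719476736), (309237645312, 34359738368)] rfl (by decide +kernel)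
theorem c1_m16_t32 : CovD 0 progs [(320612597760, 3523215360), (47244640256, 47244640256), (893353197568, 68719476736), (309237645312, 34359738368)] :=
  Pool.Agent.helper14.QF.covD_F chks_eq (.n 2 (.n 0 (.n 1 (.l 6) (.n 3 (.l 4) (.l 4))) (.n 0 (.n 1 (.l 6) (.n 3 (.l 4) (.l 4))) (.n 3 (.l 4) (.n 1 (.l 4) (.l 4))))) (.l 6))
    [(320612597760, 3523215360), (47244640256, 47244640256), (893353197568, 68719476736), (309237645312, 34359738368)] rfl (by decide +kernel)
end
mutual
theorem c1_m16_t33 : CovD 0 progs [(320612597760, 3523215360), (141733920768, 47244640256), (893353197568, 68719476736), (309237645312, 34359738368)] :=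
  Pool.Agent.helper14.QF.covD_F chks_eq (.n 0 (.n 1 (.n 3 (.l 4) (.n 0 (.l 4) (.l 4))) (.n 3 (.l 4) (.n 0 (.l 4) (.l 4)))) (.n 0 (.n 1 (.n 3 (.l 4) (.n 0 (.l 4) (.l 4))) (.n 3 (.l 4) (.n 0 (.l 4) (.l 4)))) (.n 1 (.n 3 (.l 4) (.n 1 (.l 4) (.l 4))) (.n 3 (.l 4) (.n 1 (.l 4) (.l 4))))))
    [(320612597760, 3523215360), (141733920768, 47244640256), (893353197568, 68719476736), (309237645312, 34359738368)] rfl (by decide +kernel)
theorem c1_m16_t36 : CovD 0 progs [(317089382400, 7046430720), (94489280512, 94489280512), (1030792151040, 68719476736), (309237645312, 34359738368)] :=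
  Pool.Agent.helper14.QF.covD_F chks_eq (.n 1 (.l 6) (.n 2 (.n 0 (.n 1 (.l 6) (.n 0 (.l 4) (.n 0 (.l 4) (.l 4)))) (.n 1 (.l 6) (.n 0 (.n 3 (.l 4) (.l 4)) (.n 3 (.l 4) (.n 0 (.l 4) (.l 4)))))) (.n 0 (.l 6) (.n 1 (.l 6) (.n 1 (.l 6) (.n 0 (.l 4) (.l 4)))))))
    [(317089382400, 7046430720), (94489280512, 94489280512), (1030792151040, 68719476736), (309237645312, 34359738368)] rfl (by decide +kernel)
end
mutual
theorem c1_m16_t38 : CovD 0 progs [(331182243840, 7046430720), (23622320128, 23622320128), (962072674304, 137438953472), (309237645312, 34359738368)] :=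
  Pool.Agent.helper14.QF.covD_F chks_eq (.n 0 (.n 2 (.n 2 (.n 0 (.n 0 (.n 3 (.l 4) (.l 4)) (.n 1 (.l 6) (.n 3 (.l 4) (.l 4)))) (.n 2 (.n 0 (.n 3 (.l 4) (.l 4)) (.n 3 (.l 4) (.l 4))) (.l 6))) (.l 6)) (.l 6)) (.n 2 (.n 2 (.n 0 (.n 0 (.n 3 (.l 4) (.l 4)) (.n 3 (.l 4) (.l 4))) (.n 3 (.l 4) (.n 0 (.l 4) (.l 4)))) (.l 6)) (.l 6)))
    [(331182243840, 7046430720), (23622320128, 23622320128), (962072674304, 137438953472), (309237645312, 34359738368)] rfl (by decide +kernel)
theorem c1_m16_t39 : CovD 0 progs [(327659028480, 3523215360), (70866960384, 23622320128), (962072674304, 137438953472), (309237645312, 34359738368)] :=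
  Pool.Agent.helper14.QF.covD_F chks_eq (.n 0 (.n 2 (.n 0 (.n 2 (.n 3 (.l 4) (.l 4)) (.l 6)) (.n 3 (.n 0 (.l 4) (.l 4)) (.n 3 (.l 4) (.n 0 (.l 4) (.l 4))))) (.l 6)) (.n 0 (.n 2 (.n 1 (.n 2 (.n 3 (.l 4) (.l 4)) (.l 6)) (.n 3 (.l 4) (.n 0 (.l 4) (.l 4)))) (.l 6)) (.n 2 (.n 1 (.n 3 (.l 4) (.l 4)) (.n 3 (.l 4) (.n 0 (.l 4) (.l 4)))) (.l 6))))
    [(327659028480, 3523215360), (70866960384, 23622320128), (962072674304, 137438953472), (309237645312, 34359738368)] rfl (by decide +kernel)
end
mutual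
theorem c1_m16_t40 : CovD 0 progs [(334705459200, 3523215360), (70866960384, 23622320128), (962072674304, 137438953472), (309237645312, 34359738368)] :=
  Pool.Agent.helper14.QF.covD_F chks_eq (.n 1 (.n 2 (.n 0 (.n 0 (.n 3 (.l 4) (.l 4)) (.n 3 (.l 4) (.l 4))) (.n 3 (.l 4) (.n 0 (.l 4) (.l 4)))) (.l 6)) (.n 2 (.n 0 (.n 0 (.n 3 (.l 4) (.l 4)) (.n 3 (.l 4) (.l 4))) (.n 3 (.l 4) (.n 0 (.l 4) (.l 4)))) (.l 6)))
    [(334705459200, 3523215360), (70866960384, 23622320128), (962072674304, 137438953472), (309237645312, 34359738368)] rfl (by decide +kernel)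
theorem c1_m16_t43 : CovD 0 progs [(327659028480, 3523215360), (106300440576, 11811160064), (962072674304, 137438953472), (309237645312, 34359738368)] :=
  Pool.Agent.helper14.QF.covD_F chks_eq (.n 0 (.n 2 (.n 0 (.n 3 (.l 4) (.l 4)) (.n 3 (.l 4) (.n 0 (.l 4) (.l 4)))) (.l 6)) (.n 2 (.n 0 (.n 3 (.l 4) (.n 0 (.l 4) (.l 4))) (.n 3 (.l 4) (.n 0 (.l 4) (.l 4)))) (.l 6)))
    [(327659028480, 3523215360), (106300440576, 11811160064), (962072674304, 137438953472), (309237645312, 34359738368)] rfl (by decide +kernel)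
end
mutual
theorem c1_m16_t44 : CovD 0 progs [(327659028480, 3523215360), (129922760704, 11811160064), (962072674304, 137438953472), (309237645312, 34359738368)] :=
  Pool.Agent.helper14.QF.covD_F chks_eq (.n 0 (.n 2 (.n 0 (.n 3 (.l 4) (.l 4)) (.n 3 (.l 4) (.n 0 (.l 4) (.l 4)))) (.n 1 (.l 6) (.n 3 (.l 4) (.l 4)))) (.n 2 (.n 0 (.n 3 (.l 4) (.n 0 (.l 4) (.l 4))) (.n 3 (.l 4) (.l 4))) (.n 2 (.n 3 (.l 4) (.l 4)) (.l 6))))
    [(327659028480, 3523215360), (129922760704, 11811160064), (962072674304, 137438953472), (309237645312, 34359738368)] rfl (by decide +kernel)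
theorem c1_m16_t46 : CovD 0 progs [(334705459200, 3523215360), (118111600640, 23622320128), (962072674304, 137438953472), (309237645312, 34359738368)] :=
  Pool.Agent.helper14.QF.covD_F chks_eq (.n 0 (.n 2 (.n 0 (.n 1 (.n 3 (.l 4) (.l 4)) (.n 3 (.l 4) (.l 4))) (.n 1 (.n 3 (.l 4) (.l 4)) (.n 2 (.l 4) (.l 4)))) (.n 2 (.n 1 (.l 6) (.n 0 (.l 4) (.l 4))) (.l 6))) (.n 2 (.n 1 (.n 3 (.l 4) (.n 0 (.l 4) (.l 4))) (.n 2 (.n 0 (.l 4) (.l 4)) (.l 4))) (.n 2 (.n 1 (.n 0 (.l 4) (.l 4)) (.l 4)) (.l 6))))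
    [(334705459200, 3523215360), (118111600640, 23622320128), (962072674304, 137438953472), (309237645312, 34359738368)] rfl (by decide +kernel)
end
mutual
theorem c1_m16_t48 : CovD 0 progs [(325897420800, 1761607680), (165356240896, 23622320128), (962072674304, 137438953472), (309237645312, 34359738368)] :=
  Pool.Agent.helper14.QF.covD_F chks_eq (.n 1 (.n 2 (.n 0 (.n 3 (.l 4) (.l 4)) (.n 3 (.l 4) (.l 4))) (.n 2 (.n 0 (.l 4) (.l 4)) (.l 6))) (.n 2 (.n 0 (.n 3 (.l 4) (.l 4)) (.n 3 (.l 4) (.l 4))) (.n 2 (.n 0 (.l 4) (.l 4)) (.l 4))))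
    [(325897420800, 1761607680), (165356240896, 23622320128), (962072674304, 137438953472), (309237645312, 34359738368)] rfl (by decide +kernel)
theorem c1_m16_t49 : CovD 0 progs [(329420636160, 1761607680), (165356240896, 23622320128), (962072674304, 137438953472), (309237645312, 34359738368)] :=
  Pool.Agent.helper14.QF.covD_F chks_eq (.n 1 (.n 0 (.n 2 (.n 3 (.l 4) (.l 4)) (.n 2 (.l 4) (.l 4))) (.n 2 (.n 3 (.l 4) (.l 4)) (.n 2 (.l 4) (.l 4)))) (.n 2 (.n 0 (.n 3 (.l 4) (.l 4)) (.n 3 (.l 4) (.l 4))) (.n 3 (.l 4) (.l 4))))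
    [(329420636160, 1761607680), (165356240896, 23622320128), (962072674304, 137438953472), (309237645312, 34359738368)] rfl (by decide +kernel)
theorem c1_m16_t51 : CovD 0 progs [(334705459200, 3523215360), (165356240896, 23622320128), (962072674304, 137438953472), (309237645312, 34359738368)] :=
  Pool.Agent.helper14.QF.covD_F chks_eq (.n 1 (.n 0 (.n 2 (.n 3 (.n 0 (.l 4) (.l 4)) (.l 4)) (.n 2 (.l 4) (.l 4))) (.n 2 (.n 2 (.l 4) (.l 4)) (.n 1 (.l 4) (.l 4)))) (.n 2 (.n 0 (.n 2 (.n 0 (.l 4) (.l 4)) (.l 4)) (.n 1 (.l 4) (.l 4))) (.n 2 (.l 4) (.l 4))))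
    [(334705459200, 3523215360), (165356240896, 23622320128), (962072674304, 137438953472), (309237645312, 34359738368)] rfl (by decide +kernel)
end
theorem c1_m16_t4 : CovD 0 progs [(322374205440, 1761607680), (94489280512, 94489280512), (687194767360, 137438953472), (309237645312, 34359738368)] :=
  covD_split 0 (by decide +kernel) c1_m16_t2 c1_m16_t3
theorem c1_m16_t5 : CovD 0 progs [(320612597760, 3523215360), (94489280512, 94489280512), (687194767360, 137438953472), (309237645312, 34359738368)] :=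
  covD_split 0 (by decide +kernel) c1_m16_t1 c1_m16_t4
theorem c1_m16_t6 : CovD 0 progs [(317089382400, 7046430720), (94489280512, 94489280512), (687194767360, 137438953472), (309237645312, 34359738368)] :=
  covD_split 0 (by decide +kernel) c1_m16_t0 c1_m16_t5
theorem c1_m16_t10 : CovD 0 progs [(326778224640, 880803840), (94489280512, 94489280512), (687194767360, 137438953472), (309237645312, 34359738368)] :=
  covD_split 1 (by decide +kernel) c1_m16_t8 c1_m16_t9
theorem c1_m16_t11 : CovD 0 progs [(325897420800, 1761607680), (94489280512, 94489280512), (687194767360, 137438953472), (309237645312, 34359738368)] :=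
  covD_split 0 (by decide +kernel) c1_m16_t7 c1_m16_t10
theorem c1_m16_t14 : CovD 0 progs [(328539832320, 880803840), (94489280512, 94489280512), (687194767360, 137438953472), (309237645312, 34359738368)] :=
  covD_split 1 (by decide +kernel) c1_m16_t12 c1_m16_t13
theorem c1_m16_t17 : CovD 0 progs [(330301440000, 880803840), (94489280512, 94489280512), (687194767360, 137438953472), (309237645312, 34359738368)] :=
  covD_split 1 (by decide +kernel) c1_m16_t15 c1_m16_t16
theorem c1_m16_t18 : CovD 0 progs [(329420636160, 1761607680), (94489280512, 94489280512), (687194767360, 137438953472), (309237645312, 34359738368)] :=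
  covD_split 0 (by decide +kernel) c1_m16_t14 c1_m16_t17
theorem c1_m16_t19 : CovD 0 progs [(327659028480, 3523215360), (94489280512, 94489280512), (687194767360, 137438953472), (309237645312, 34359738368)] :=
  covD_split 0 (by decide +kernel) c1_m16_t11 c1_m16_t18
theorem c1_m16_t23 : CovD 0 progs [(332943851520, 1761607680), (141733920768, 47244640256), (687194767360, 137438953472), (309237645312, 34359738368)] :=
  covD_split 1 (by decide +kernel) c1_m16_t21 c1_m16_t22
theorem c1_m16_t24 : CovD 0 progs [(332943851520, 1761607680), (94489280512, 94489280512), (687194767360, 137438953472), (309237645312, 34359738368)] :=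
  covD_split 1 (by decide +kernel) c1_m16_t20 c1_m16_t23
theorem c1_m16_t27 : CovD 0 progs [(336467066880, 1761607680), (94489280512, 94489280512), (687194767360, 137438953472), (309237645312, 34359738368)] :=
  covD_split 1 (by decide +kernel) c1_m16_t25 c1_m16_t26
theorem c1_m16_t28 : CovD 0 progs [(334705459200, 3523215360), (94489280512, 94489280512), (687194767360, 137438953472), (309237645312, 34359738368)] :=
  covD_split 0 (by decide +kernel) c1_m16_t24 c1_m16_t27
theorem c1_m16_t29 : CovD 0 progs [(331182243840, 7046430720), (94489280512, 94489280512), (687194767360, 137438953472), (309237645312, 34359738368)] :=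
  covD_split 0 (by decide +kernel) c1_m16_t19 c1_m16_t28
theorem c1_m16_t30 : CovD 0 progs [(324135813120, 14092861440), (94489280512, 94489280512), (687194767360, 137438953472), (309237645312, 34359738368)] :=
  covD_split 0 (by decide +kernel) c1_m16_t6 c1_m16_t29
theorem c1_m16_t34 : CovD 0 progs [(320612597760, 3523215360), (94489280512, 94489280512), (893353197568, 68719476736), (309237645312, 34359738368)] :=
  covD_split 1 (by decide +kernel) c1_m16_t32 c1_m16_t33
theorem c1_m16_t35 : CovD 0 progs [(317089382400, 7046430720), (94489280512, 94489280512), (893353197568, 68719476736), (309237645312, 34359738368)] :=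
  covD_split 0 (by decide +kernel) c1_m16_t31 c1_m16_t34
theorem c1_m16_t37 : CovD 0 progs [(317089382400, 7046430720), (94489280512, 94489280512), (962072674304, 137438953472), (309237645312, 34359738368)] :=
  covD_split 2 (by decide +kernel) c1_m16_t35 c1_m16_t36
theorem c1_m16_t41 : CovD 0 progs [(331182243840, 7046430720), (70866960384, 23622320128), (962072674304, 137438953472), (309237645312, 34359738368)] :=
  covD_split 0 (by decide +kernel) c1_m16_t39 c1_m16_t40
theorem c1_m16_t42 : CovD 0 progs [(331182243840, 7046430720), (47244640256, 47244640256), (962072674304, 137438953472), (309237645312, 34359738368)] :=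
  covD_split 1 (by decide +kernel) c1_m16_t38 c1_m16_t41
theorem c1_m16_t45 : CovD 0 progs [(327659028480, 3523215360), (118111600640, 23622320128), (962072674304, 137438953472), (309237645312, 34359738368)] :=
  covD_split 1 (by decide +kernel) c1_m16_t43 c1_m16_t44
theorem c1_m16_t47 : CovD 0 progs [(331182243840, 7046430720), (118111600640, 23622320128), (962072674304, 137438953472), (309237645312, 34359738368)] :=
  covD_split 0 (by decide +kernel) c1_m16_t45 c1_m16_t46
theorem c1_m16_t50 : CovD 0 progs [(327659028480, 3523215360), (165356240896, 23622320128), (962072674304, 137438953472), (309237645312, 34359738368)] :=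
  covD_split 0 (by decide +kernel) c1_m16_t48 c1_m16_t49
theorem c1_m16_t52 : CovD 0 progs [(331182243840, 7046430720), (165356240896, 23622320128), (962072674304, 137438953472), (309237645312, 34359738368)] :=
  covD_split 0 (by decide +kernel) c1_m16_t50 c1_m16_t51
theorem c1_m16_t53 : CovD 0 progs [(331182243840, 7046430720), (141733920768, 47244640256), (962072674304, 137438953472), (309237645312, 34359738368)] :=
  covD_split 1 (by decide +kernel) c1_m16_t47 c1_m16_t52
theorem c1_m16_t54 : CovD 0 progs [(331182243840, 7046430720), (94489280512, 94489280512), (962072674304, 137438953472), (309237645312, 34359738368)] :=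
  covD_split 1 (by decide +kernel) c1_m16_t42 c1_m16_t53
theorem c1_m16_t55 : CovD 0 progs [(324135813120, 14092861440), (94489280512, 94489280512), (962072674304, 137438953472), (309237645312, 34359738368)] :=
  covD_split 0 (by decide +kernel) c1_m16_t37 c1_m16_t54
theorem c1_m16 : CovD 0 progs [(324135813120, 14092861440), (94489280512, 94489280512), (824633720832, 274877906944), (309237645312, 34359738368)] :=
  covD_split 2 (by decide +kernel) c1_m16_t30 c1_m16_t55

end Pool.Agent.helper71.FJ.Crt.QMa
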