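import Pool.Agent.helper71.FJ.Crt.QMaP

/-!
Generated certificates.
-/

namespace Pool.Agent.helper71.FJ.Crt.QMa

open Pool.Agent.helper31.IA (Z Op)
open Pool.Agent.helper31.IC

mutual
theorem c1_m17_t0 : CovD 0 progs [(313566167040, 3523215360), (47244640256, 47244640256), (687194767360, 137438953472), (377957122048, 34359738368)] :=
  Pool.Agent.helper14.QF.covD_F chks_eq (.n 0 (.n 3 (.n 0 (.l 4) (.n 0 (.l 4) (.l 4))) (.n 0 (.n 1 (.l 4) (.l 4)) (.n 3 (.l 4) (.n 1 (.l 4) (.l 4))))) (.n 0 (.n 2 (.n 3 (.l 4) (.n 0 (.l 4) (.l 4))) (.n 3 (.l 4) (.n 3 (.l 4) (.l 4)))) (.n 3 (.n 1 (.l 4) (.n 0 (.l 4) (.l 4))) (.n 1 (.n 3 (.l 4) (.l 4)) (.n 3 (.l 4) (.n 1 (.l 4) (.l 4)))))))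
    [(313566167040, 3523215360), (47244640256, 47244640256), (687194767360, 137438953472), (377957122048, 34359738368)] rfl (by decide +kernel)
theorem c1_m17_t1 : CovD 0 progs [(317970186240, 880803840), (47244640256, 47244640256), (687194767360, 137438953472), (377957122048, 34359738368)] :=
  Pool.Agent.helper14.QF.covD_F chks_eq (.n 3 (.n 1 (.n 0 (.l 4) (.l 4)) (.n 1 (.l 4) (.l 4))) (.n 1 (.n 3 (.l 4) (.n 0 (.l 4) (.l 4))) (.n 2 (.n 3 (.l 4) (.l 4)) (.n 3 (.l 4) (.l 4)))))
    [(317970186240, 880803840), (47244640256, 47244640256), (687194767360, 137438953472), (377957122048, 34359738368)] rfl (by decide +kernel)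
end
mutual
theorem c1_m17_t2 : CovD 0 progs [(319731793920, 880803840), (47244640256, 47244640256), (687194767360, 137438953472), (377957122048, 34359738368)] :=
  Pool.Agent.helper14.QF.covD_F chks_eq (.n 1 (.n 2 (.n 3 (.l 4) (.n 3 (.l 4) (.l 4))) (.n 3 (.l 4) (.n 3 (.l 4) (.l 4)))) (.n 2 (.n 3 (.l 4) (.n 3 (.l 4) (.l 4))) (.n 3 (.n 0 (.l 4) (.l 4)) (.n 3 (.l 4) (.n 0 (.l 4) (.l 4))))))
    [(319731793920, 880803840), (47244640256, 47244640256), (687194767360, 137438953472), (377957122048, 34359738368)] rfl (by decide +kernel)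
theorem c1_m17_t4 : CovD 0 progs [(321493401600, 880803840), (47244640256, 47244640256), (687194767360, 137438953472), (377957122048, 34359738368)] :=
  Pool.Agent.helper14.QF.covD_F chks_eq (.n 3 (.n 1 (.n 3 (.l 4) (.l 4)) (.n 1 (.n 2 (.l 4) (.l 4)) (.n 3 (.l 4) (.l 4)))) (.n 1 (.n 1 (.n 3 (.l 4) (.l 4)) (.n 3 (.l 4) (.l 4))) (.n 2 (.n 3 (.l 4) (.l 4)) (.n 3 (.l 4) (.n 0 (.l 4) (.l 4))))))
    [(321493401600, 880803840), (47244640256, 47244640256), (687194767360, 137438953472), (377957122048, 34359738368)] rfl (by decide +kernel)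
end
mutual
theorem c1_m17_t5 : CovD 0 progs [(323255009280, 880803840), (47244640256, 47244640256), (687194767360, 137438953472), (377957122048, 34359738368)] :=
  Pool.Agent.helper14.QF.covD_F chks_eq (.n 3 (.n 1 (.n 3 (.l 4) (.n 0 (.l 4) (.l 4))) (.n 2 (.n 0 (.l 4) (.l 4)) (.n 3 (.l 4) (.l 4)))) (.n 1 (.n 1 (.n 3 (.l 4) (.l 4)) (.n 3 (.l 4) (.l 4))) (.n 2 (.n 3 (.l 4) (.l 4)) (.n 3 (.n 0 (.l 4) (.l 4)) (.l 4)))))
    [(323255009280, 880803840), (47244640256, 47244640256), (687194767360, 137438953472), (377957122048, 34359738368)] rfl (by decide +kernel)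
theorem c1_m17_t9 : CovD 0 progs [(327659028480, 3523215360), (47244640256, 47244640256), (618475290624, 68719476736), (377957122048, 34359738368)] :=
  Pool.Agent.helper14.QF.covD_F chks_eq (.n 0 (.n 3 (.n 0 (.n 1 (.n 0 (.l 4) (.l 4)) (.n 3 (.l 4) (.l 4))) (.n 1 (.n 0 (.l 4) (.l 4)) (.n 1 (.l 4) (.l 4)))) (.n 1 (.n 0 (.l 4) (.l 4)) (.n 1 (.l 4) (.l 4)))) (.n 1 (.n 3 (.n 0 (.l 4) (.l 4)) (.n 3 (.l 4) (.l 4))) (.n 3 (.n 3 (.l 4) (.l 4)) (.n 0 (.l 4) (.n 0 (.l 4) (.l 4))))))
    [(327659028480, 3523215360), (47244640256, 47244640256), (618475290624, 68719476736), (377957122048, 34359738368)] rfl (by decide +kernel)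
end
mutual
theorem c1_m17_t10 : CovD 0 progs [(334705459200, 3523215360), (47244640256, 47244640256), (618475290624, 68719476736), (377957122048, 34359738368)] :=
  Pool.Agent.helper14.QF.covD_F chks_eq (.n 0 (.n 1 (.n 3 (.n 0 (.l 4) (.l 4)) (.n 3 (.l 4) (.l 4))) (.n 3 (.n 3 (.l 4) (.l 4)) (.n 3 (.n 0 (.l 4) (.l 4)) (.l 4)))) (.n 3 (.n 1 (.n 0 (.l 4) (.l 4)) (.n 3 (.l 4) (.l 4))) (.n 3 (.n 0 (.l 4) (.l 4)) (.l 4))))
    [(334705459200, 3523215360), (47244640256, 47244640256), (618475290624, 68719476736), (377957122048, 34359738368)] rfl (by decide +kernel)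
theorem c1_m17_t12 : CovD 0 progs [(325897420800, 1761607680), (47244640256, 47244640256), (755914244096, 68719476736), (377957122048, 34359738368)] :=
  Pool.Agent.helper14.QF.covD_F chks_eq (.n 0 (.n 1 (.n 3 (.n 3 (.l 4) (.l 4)) (.n 0 (.l 4) (.l 4))) (.n 3 (.n 3 (.l 4) (.l 4)) (.n 1 (.l 4) (.l 4)))) (.n 1 (.n 3 (.n 0 (.l 4) (.l 4)) (.l 4)) (.n 3 (.n 3 (.l 4) (.l 4)) (.l 4))))
    [(325897420800, 1761607680), (47244640256, 47244640256), (755914244096, 68719476736), (377957122048, 34359738368)] rfl (by decide +kernel)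
end
mutual
theorem c1_m17_t13 : CovD 0 progs [(329420636160, 1761607680), (47244640256, 47244640256), (755914244096, 68719476736), (377957122048, 34359738368)] :=
  Pool.Agent.helper14.QF.covD_F chks_eq (.n 1 (.n 3 (.n 3 (.l 4) (.l 4)) (.n 0 (.l 4) (.n 0 (.l 4) (.l 4)))) (.n 0 (.n 1 (.n 3 (.l 4) (.l 4)) (.n 3 (.l 4) (.l 4))) (.n 3 (.l 4) (.n 1 (.l 4) (.l 4)))))
    [(329420636160, 1761607680), (47244640256, 47244640256), (755914244096, 68719476736), (377957122048, 34359738368)] rfl (by decide +kernel)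
theorem c1_m17_t15 : CovD 0 progs [(334705459200, 3523215360), (47244640256, 47244640256), (755914244096, 68719476736), (377957122048, 34359738368)] :=
  Pool.Agent.helper14.QF.covD_F chks_eq (.n 0 (.n 1 (.n 3 (.n 0 (.l 4) (.l 4)) (.n 3 (.n 0 (.l 4) (.l 4)) (.l 4))) (.n 0 (.n 3 (.n 0 (.l 4) (.l 4)) (.n 3 (.l 4) (.l 4))) (.n 1 (.n 3 (.l 4) (.l 4)) (.n 3 (.l 4) (.l 4))))) (.n 1 (.n 3 (.n 3 (.l 4) (.l 4)) (.n 0 (.l 4) (.l 4))) (.n 3 (.n 0 (.n 1 (.l 4) (.l 4)) (.n 0 (.l 4) (.l 4))) (.n 3 (.l 4) (.l 4)))))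
    [(334705459200, 3523215360), (47244640256, 47244640256), (755914244096, 68719476736), (377957122048, 34359738368)] rfl (by decide +kernel)
end
mutual
theorem c1_m17_t19 : CovD 0 progs [(317089382400, 7046430720), (141733920768, 47244640256), (687194767360, 137438953472), (352187318272, 8589934592)] :=
  Pool.Agent.helper14.QF.covD_F chks_eq (.n 0 (.n 0 (.n 0 (.l 4) (.l 4)) (.n 2 (.l 4) (.n 0 (.l 4) (.l 4)))) (.n 0 (.n 1 (.n 2 (.l 4) (.l 4)) (.n 2 (.l 4) (.n 0 (.l 4) (.l 4)))) (.n 1 (.n 0 (.n 2 (.l 4) (.l 4)) (.n 2 (.l 4) (.l 4))) (.n 2 (.n 0 (.l 4) (.l 4)) (.n 2 (.l 4) (.l 4))))))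
    [(317089382400, 7046430720), (141733920768, 47244640256), (687194767360, 137438953472), (352187318272, 8589934592)] rfl (by decide +kernel)
theorem c1_m17_t20 : CovD 0 progs [(327659028480, 3523215360), (141733920768, 47244640256), (687194767360, 137438953472), (352187318272, 8589934592)] :=
  Pool.Agent.helper14.QF.covD_F chks_eq (.n 0 (.n 0 (.n 1 (.n 2 (.l 4) (.n 0 (.l 4) (.l 4))) (.n 2 (.l 4) (.n 1 (.l 4) (.l 4)))) (.n 1 (.n 2 (.l 4) (.n 0 (.l 4) (.l 4))) (.n 1 (.n 2 (.l 4) (.l 4)) (.n 2 (.l 4) (.l 4))))) (.n 1 (.n 1 (.n 2 (.l 4) (.l 4)) (.n 2 (.l 4) (.l 4))) (.n 1 (.n 2 (.l 4) (.l 4)) (.n 2 (.l 4) (.l 4)))))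
    [(327659028480, 3523215360), (141733920768, 47244640256), (687194767360, 137438953472), (352187318272, 8589934592)] rfl (by decide +kernel)
end
mutual
theorem c1_m17_t21 : CovD 0 progs [(334705459200, 3523215360), (141733920768, 47244640256), (687194767360, 137438953472), (352187318272, 8589934592)] :=
  Pool.Agent.helper14.QF.covD_F chks_eq (.n 0 (.n 1 (.n 2 (.l 4) (.n 1 (.l 4) (.l 4))) (.n 1 (.n 2 (.l 4) (.l 4)) (.n 2 (.l 4) (.l 4)))) (.n 1 (.n 0 (.n 2 (.l 4) (.l 4)) (.n 2 (.l 4) (.l 4))) (.n 1 (.n 2 (.l 4) (.l 4)) (.n 2 (.l 4) (.l 4)))))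
    [(334705459200, 3523215360), (141733920768, 47244640256), (687194767360, 137438953472), (352187318272, 8589934592)] rfl (by decide +kernel)
theorem c1_m17_t24 : CovD 0 progs [(313566167040, 3523215360), (141733920768, 47244640256), (687194767360, 137438953472), (369367187456, 8589934592)] :=
  Pool.Agent.helper14.QF.covD_F chks_eq (.n 0 (.n 2 (.l 4) (.l 4)) (.n 1 (.n 0 (.l 4) (.l 4)) (.n 2 (.l 4) (.l 4))))
    [(313566167040, 3523215360), (141733920768, 47244640256), (687194767360, 137438953472), (369367187456, 8589934592)] rfl (by decide +kernel)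
end
mutual
theorem c1_m17_t25 : CovD 0 progs [(320612597760, 3523215360), (141733920768, 47244640256), (687194767360, 137438953472), (369367187456, 8589934592)] :=
  Pool.Agent.helper14.QF.covD_F chks_eq (.n 0 (.n 0 (.n 2 (.l 4) (.n 1 (.l 4) (.l 4))) (.n 1 (.n 2 (.l 4) (.l 4)) (.n 2 (.l 4) (.l 4)))) (.n 0 (.n 1 (.n 2 (.l 4) (.l 4)) (.n 2 (.l 4) (.n 0 (.l 4) (.l 4)))) (.n 1 (.n 2 (.l 4) (.n 0 (.l 4) (.l 4))) (.n 1 (.n 2 (.l 4) (.l 4)) (.n 2 (.l 4) (.l 4))))))
    [(320612597760, 3523215360), (141733920768, 47244640256), (687194767360, 137438953472), (369367187456, 8589934592)] rfl (by decide +kernel)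
theorem c1_m17_t27 : CovD 0 progs [(331182243840, 7046430720), (118111600640, 23622320128), (687194767360, 137438953472), (369367187456, 8589934592)] :=
  Pool.Agent.helper14.QF.covD_F chks_eq (.n 0 (.n 0 (.n 0 (.n 2 (.l 4) (.n 0 (.l 4) (.l 4))) (.n 2 (.l 4) (.n 0 (.l 4) (.l 4)))) (.n 2 (.l 4) (.n 1 (.l 4) (.l 4)))) (.n 0 (.n 1 (.n 2 (.l 4) (.l 4)) (.n 2 (.l 4) (.l 4))) (.n 0 (.n 2 (.l 4) (.l 4)) (.n 2 (.l 4) (.l 4)))))
    [(331182243840, 7046430720), (118111600640, 23622320128), (687194767360, 137438953472), (369367187456, 8589934592)] rfl (by decide +kernel)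
end
mutual
theorem c1_m17_t28 : CovD 0 progs [(331182243840, 7046430720), (165356240896, 23622320128), (687194767360, 137438953472), (369367187456, 8589934592)] :=
  Pool.Agent.helper14.QF.covD_F chks_eq (.n 2 (.n 0 (.n 0 (.n 2 (.l 4) (.l 4)) (.n 0 (.l 4) (.l 4))) (.n 0 (.n 0 (.l 4) (.l 4)) (.n 0 (.l 4) (.l 4)))) (.n 2 (.n 0 (.n 0 (.l 4) (.l 4)) (.n 0 (.l 4) (.l 4))) (.n 0 (.n 0 (.l 4) (.l 4)) (.n 0 (.l 4) (.l 4)))))
    [(331182243840, 7046430720), (165356240896, 23622320128), (687194767360, 137438953472), (369367187456, 8589934592)] rfl (by decide +kernel)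
theorem c1_m17_t32 : CovD 0 progs [(317089382400, 7046430720), (141733920768, 47244640256), (618475290624, 68719476736), (386547056640, 8589934592)] :=
  Pool.Agent.helper14.QF.covD_F chks_eq (.n 0 (.n 0 (.l 4) (.n 0 (.l 4) (.l 4))) (.n 0 (.n 0 (.n 1 (.l 4) (.l 4)) (.n 1 (.l 4) (.l 4))) (.n 0 (.n 1 (.l 4) (.n 0 (.l 4) (.l 4))) (.n 1 (.l 4) (.n 0 (.l 4) (.l 4))))))
    [(317089382400, 7046430720), (141733920768, 47244640256), (618475290624, 68719476736), (386547056640, 8589934592)] rfl (by decide +kernel)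
end
mutual
theorem c1_m17_t33 : CovD 0 progs [(331182243840, 7046430720), (141733920768, 47244640256), (618475290624, 68719476736), (386547056640, 8589934592)] :=
  Pool.Agent.helper14.QF.covD_F chks_eq (.n 0 (.n 0 (.n 1 (.n 0 (.l 4) (.l 4)) (.n 1 (.l 4) (.l 4))) (.n 0 (.n 1 (.l 4) (.l 4)) (.n 1 (.l 4) (.l 4)))) (.n 0 (.n 0 (.n 1 (.l 4) (.l 4)) (.n 1 (.l 4) (.l 4))) (.n 1 (.l 4) (.n 0 (.l 4) (.l 4)))))
    [(331182243840, 7046430720), (141733920768, 47244640256), (618475290624, 68719476736), (386547056640, 8589934592)] rfl (by decide +kernel)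
theorem c1_m17_t35 : CovD 0 progs [(317089382400, 7046430720), (141733920768, 47244640256), (755914244096, 68719476736), (386547056640, 8589934592)] :=
  Pool.Agent.helper14.QF.covD_F chks_eq (.n 0 (.n 0 (.n 0 (.l 4) (.l 4)) (.n 0 (.n 0 (.l 4) (.l 4)) (.n 1 (.l 4) (.l 4)))) (.n 0 (.n 0 (.n 1 (.l 4) (.l 4)) (.n 1 (.l 4) (.n 0 (.l 4) (.l 4)))) (.n 0 (.n 1 (.n 0 (.l 4) (.l 4)) (.n 1 (.l 4) (.l 4))) (.n 1 (.n 1 (.l 4) (.l 4)) (.n 1 (.l 4) (.l 4))))))
    [(317089382400, 7046430720), (141733920768, 47244640256), (755914244096, 68719476736), (386547056640, 8589934592)] rfl (by decide +kernel)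
end
mutual
theorem c1_m17_t36 : CovD 0 progs [(331182243840, 7046430720), (141733920768, 47244640256), (755914244096, 68719476736), (386547056640, 8589934592)] :=
  Pool.Agent.helper14.QF.covD_F chks_eq (.n 0 (.n 0 (.n 1 (.n 1 (.l 4) (.l 4)) (.n 1 (.l 4) (.l 4))) (.n 1 (.n 1 (.l 4) (.l 4)) (.n 1 (.l 4) (.l 4)))) (.n 0 (.n 1 (.n 1 (.l 4) (.l 4)) (.n 1 (.l 4) (.l 4))) (.n 0 (.n 1 (.l 4) (.l 4)) (.n 1 (.l 4) (.l 4)))))
    [(331182243840, 7046430720), (141733920768, 47244640256), (755914244096, 68719476736), (386547056640, 8589934592)] rfl (by decide +kernel)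
theorem c1_m17_t39 : CovD 0 progs [(313566167040, 3523215360), (141733920768, 47244640256), (687194767360, 137438953472), (403726925824, 8589934592)] :=
  Pool.Agent.helper14.QF.covD_F chks_eq (.n 0 (.n 0 (.n 2 (.l 4) (.l 4)) (.n 2 (.l 4) (.n 1 (.l 4) (.l 4)))) (.n 1 (.n 0 (.n 1 (.l 4) (.l 4)) (.n 2 (.l 4) (.l 4))) (.n 2 (.n 0 (.l 4) (.l 4)) (.n 2 (.l 4) (.l 4)))))
    [(313566167040, 3523215360), (141733920768, 47244640256), (687194767360, 137438953472), (403726925824, 8589934592)] rfl (by decide +kernel)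
end
mutual
theorem c1_m17_t40 : CovD 0 progs [(320612597760, 3523215360), (141733920768, 47244640256), (687194767360, 137438953472), (403726925824, 8589934592)] :=
  Pool.Agent.helper14.QF.covD_F chks_eq (.n 0 (.n 0 (.n 1 (.n 2 (.l 4) (.n 0 (.l 4) (.l 4))) (.n 2 (.l 4) (.n 0 (.l 4) (.l 4)))) (.n 1 (.n 2 (.l 4) (.n 0 (.l 4) (.l 4))) (.n 1 (.n 2 (.l 4) (.l 4)) (.n 2 (.l 4) (.l 4))))) (.n 1 (.n 0 (.n 2 (.l 4) (.n 1 (.l 4) (.l 4))) (.n 2 (.l 4) (.n 1 (.l 4) (.l 4)))) (.n 2 (.n 2 (.l 4) (.l 4)) (.n 2 (.l 4) (.l 4)))))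
    [(320612597760, 3523215360), (141733920768, 47244640256), (687194767360, 137438953472), (403726925824, 8589934592)] rfl (by decide +kernel)
theorem c1_m17_t42 : CovD 0 progs [(327659028480, 3523215360), (141733920768, 47244640256), (687194767360, 137438953472), (403726925824, 8589934592)] :=
  Pool.Agent.helper14.QF.covD_F chks_eq (.n 0 (.n 1 (.n 2 (.l 4) (.n 1 (.l 4) (.l 4))) (.n 1 (.n 2 (.l 4) (.l 4)) (.n 2 (.l 4) (.l 4)))) (.n 1 (.n 1 (.n 2 (.l 4) (.l 4)) (.n 2 (.l 4) (.l 4))) (.n 1 (.n 2 (.l 4) (.l 4)) (.n 2 (.l 4) (.l 4)))))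
    [(327659028480, 3523215360), (141733920768, 47244640256), (687194767360, 137438953472), (403726925824, 8589934592)] rfl (by decide +kernel)
theorem c1_m17_t43 : CovD 0 progs [(334705459200, 3523215360), (141733920768, 47244640256), (687194767360, 137438953472), (403726925824, 8589934592)] :=
  Pool.Agent.helper14.QF.covD_F chks_eq (.n 0 (.n 1 (.n 0 (.n 2 (.l 4) (.l 4)) (.n 2 (.l 4) (.l 4))) (.n 1 (.n 2 (.l 4) (.l 4)) (.n 2 (.l 4) (.l 4)))) (.n 1 (.n 2 (.l 4) (.l 4)) (.n 2 (.l 4) (.n 0 (.l 4) (.l 4)))))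
    [(334705459200, 3523215360), (141733920768, 47244640256), (687194767360, 137438953472), (403726925824, 8589934592)] rfl (by decide +kernel)
end
theorem c1_m17_t3 : CovD 0 progs [(318850990080, 1761607680), (47244640256, 47244640256), (687194767360, 137438953472), (377957122048, 34359738368)] :=
  covD_split 0 (by decide +kernel) c1_m17_t1 c1_m17_t2
theorem c1_m17_t6 : CovD 0 progs [(322374205440, 1761607680), (47244640256, 47244640256), (687194767360, 137438953472), (377957122048, 34359738368)] :=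
  covD_split 0 (by decide +kernel) c1_m17_t4 c1_m17_t5
theorem c1_m17_t7 : CovD 0 progs [(320612597760, 3523215360), (47244640256, 47244640256), (687194767360, 137438953472), (377957122048, 34359738368)] :=
  covD_split 0 (by decide +kernel) c1_m17_t3 c1_m17_t6
theorem c1_m17_t8 : CovD 0 progs [(317089382400, 7046430720), (47244640256, 47244640256), (687194767360, 137438953472), (377957122048, 34359738368)] :=
  covD_split 0 (by decide +kernel) c1_m17_t0 c1_m17_t7
theorem c1_m17_t11 : CovD 0 progs [(331182243840, 7046430720), (47244640256, 47244640256), (618475290624, 68719476736), (377957122048, 34359738368)] :=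
  covD_split 0 (by decide +kernel) c1_m17_t9 c1_m17_t10
theorem c1_m17_t14 : CovD 0 progs [(327659028480, 3523215360), (47244640256, 47244640256), (755914244096, 68719476736), (377957122048, 34359738368)] :=
  covD_split 0 (by decide +kernel) c1_m17_t12 c1_m17_t13
theorem c1_m17_t16 : CovD 0 progs [(331182243840, 7046430720), (47244640256, 47244640256), (755914244096, 68719476736), (377957122048, 34359738368)] :=
  covD_split 0 (by decide +kernel) c1_m17_t14 c1_m17_t15
theorem c1_m17_t17 : CovD 0 progs [(331182243840, 7046430720), (47244640256, 47244640256), (687194767360, 137438953472), (377957122048, 34359738368)] :=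
  covD_split 2 (by decide +kernel) c1_m17_t11 c1_m17_t16
theorem c1_m17_t18 : CovD 0 progs [(324135813120, 14092861440), (47244640256, 47244640256), (687194767360, 137438953472), (377957122048, 34359738368)] :=
  covD_split 0 (by decide +kernel) c1_m17_t8 c1_m17_t17
theorem c1_m17_t22 : CovD 0 progs [(331182243840, 7046430720), (141733920768, 47244640256), (687194767360, 137438953472), (352187318272, 8589934592)] :=
  covD_split 0 (by decide +kernel) c1_m17_t20 c1_m17_t21
theorem c1_m17_t23 : CovD 0 progs [(324135813120, 14092861440), (141733920768, 47244640256), (687194767360, 137438953472), (352187318272, 8589934592)] :=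
  covD_split 0 (by decide +kernel) c1_m17_t19 c1_m17_t22
theorem c1_m17_t26 : CovD 0 progs [(317089382400, 7046430720), (141733920768, 47244640256), (687194767360, 137438953472), (369367187456, 8589934592)] :=
  covD_split 0 (by decide +kernel) c1_m17_t24 c1_m17_t25
theorem c1_m17_t29 : CovD 0 progs [(331182243840, 7046430720), (141733920768, 47244640256), (687194767360, 137438953472), (369367187456, 8589934592)] :=
  covD_split 1 (by decide +kernel) c1_m17_t27 c1_m17_t28
theorem c1_m17_t30 : CovD 0 progs [(324135813120, 14092861440), (141733920768, 47244640256), (687194767360, 137438953472), (369367187456, 8589934592)] :=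
  covD_split 0 (by decide +kernel) c1_m17_t26 c1_m17_t29
theorem c1_m17_t31 : CovD 0 progs [(324135813120, 14092861440), (141733920768, 47244640256), (687194767360, 137438953472), (360777252864, 17179869184)] :=
  covD_split 3 (by decide +kernel) c1_m17_t23 c1_m17_t30
theorem c1_m17_t34 : CovD 0 progs [(324135813120, 14092861440), (141733920768, 47244640256), (618475290624, 68719476736), (386547056640, 8589934592)] :=
  covD_split 0 (by decide +kernel) c1_m17_t32 c1_m17_t33
theorem c1_m17_t37 : CovD 0 progs [(324135813120, 14092861440), (141733920768, 47244640256), (755914244096, 68719476736), (386547056640, 8589934592)] :=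
  covD_split 0 (by decide +kernel) c1_m17_t35 c1_m17_t36
theorem c1_m17_t38 : CovD 0 progs [(324135813120, 14092861440), (141733920768, 47244640256), (687194767360, 137438953472), (386547056640, 8589934592)] :=
  covD_split 2 (by decide +kernel) c1_m17_t34 c1_m17_t37
theorem c1_m17_t41 : CovD 0 progs [(317089382400, 7046430720), (141733920768, 47244640256), (687194767360, 137438953472), (403726925824, 8589934592)] :=
  covD_split 0 (by decide +kernel) c1_m17_t39 c1_m17_t40
theorem c1_m17_t44 : CovD 0 progs [(331182243840, 7046430720), (141733920768, 47244640256), (687194767360, 137438953472), (403726925824, 8589934592)] :=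
  covD_split 0 (by decide +kernel) c1_m17_t42 c1_m17_t43
theorem c1_m17_t45 : CovD 0 progs [(324135813120, 14092861440), (141733920768, 47244640256), (687194767360, 137438953472), (403726925824, 8589934592)] :=
  covD_split 0 (by decide +kernel) c1_m17_t41 c1_m17_t44
theorem c1_m17_t46 : CovD 0 progs [(324135813120, 14092861440), (141733920768, 47244640256), (687194767360, 137438953472), (395136991232, 17179869184)] :=
  covD_split 3 (by decide +kernel) c1_m17_t38 c1_m17_t45
theorem c1_m17_t47 : CovD 0 progs [(324135813120, 14092861440), (141733920768, 47244640256), (687194767360, 137438953472), (377957122048, 34359738368)] :=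
  covD_split 3 (by decide +kernel) c1_m17_t31 c1_m17_t46
theorem c1_m17 : CovD 0 progs [(324135813120, 14092861440), (94489280512, 94489280512), (687194767360, 137438953472), (377957122048, 34359738368)] :=
  covD_split 1 (by decide +kernel) c1_m17_t18 c1_m17_t47

end Pool.Agent.helper71.FJ.Crt.QMa
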