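import Pool.Agent.helper71.FJ.Crt.QMaP

/-!
Generated certificates.
-/

namespace Pool.Agent.helper71.FJ.Crt.QMa

open Pool.Agent.helper31.IA (Z Op)
open Pool.Agent.helper31.IC

mutual
theorem c1_m19_t0 : CovD 0 progs [(288903659520, 7046430720), (94489280512, 94489280512), (687194767360, 137438953472), (446676598784, 34359738368)] :=
  Pool.Agent.helper14.QF.covD_F chks_eq (.n 0 (.n 0 (.n 3 (.l 4) (.n 0 (.l 4) (.l 4))) (.n 3 (.l 4) (.n 1 (.l 4) (.l 4)))) (.n 0 (.n 1 (.n 3 (.l 4) (.l 4)) (.n 3 (.l 4) (.n 0 (.l 4) (.l 4)))) (.n 1 (.n 3 (.l 4) (.n 0 (.l 4) (.l 4))) (.n 3 (.l 4) (.n 0 (.l 4) (.n 0 (.l 4) (.l 4)))))))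
    [(288903659520, 7046430720), (94489280512, 94489280512), (687194767360, 137438953472), (446676598784, 34359738368)] rfl (by decide +kernel)
theorem c1_m19_t1 : CovD 0 progs [(297711697920, 1761607680), (94489280512, 94489280512), (687194767360, 137438953472), (446676598784, 34359738368)] :=
  Pool.Agent.helper14.QF.covD_F chks_eq (.n 1 (.n 3 (.l 4) (.n 3 (.l 4) (.n 0 (.l 4) (.l 4)))) (.n 0 (.n 3 (.l 4) (.n 1 (.l 4) (.l 4))) (.n 3 (.l 4) (.n 2 (.l 4) (.n 0 (.l 4) (.l 4))))))
    [(297711697920, 1761607680), (94489280512, 94489280512), (687194767360, 137438953472), (446676598784, 34359738368)] rfl (by decide +kernel)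
end
mutual
theorem c1_m19_t2 : CovD 0 progs [(301234913280, 1761607680), (94489280512, 94489280512), (687194767360, 137438953472), (446676598784, 34359738368)] :=
  Pool.Agent.helper14.QF.covD_F chks_eq (.n 1 (.n 0 (.n 3 (.l 4) (.n 3 (.l 4) (.l 4))) (.n 3 (.l 4) (.n 3 (.l 4) (.n 1 (.l 4) (.l 4))))) (.n 3 (.n 3 (.l 4) (.n 1 (.l 4) (.l 4))) (.n 2 (.n 3 (.l 4) (.n 0 (.l 4) (.l 4))) (.n 0 (.n 1 (.l 4) (.l 4)) (.n 3 (.l 4) (.n 0 (.l 4) (.l 4)))))))
    [(301234913280, 1761607680), (94489280512, 94489280512), (687194767360, 137438953472), (446676598784, 34359738368)] rfl (by decide +kernel)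
theorem c1_m19_t4 : CovD 0 progs [(303877324800, 880803840), (94489280512, 94489280512), (687194767360, 137438953472), (446676598784, 34359738368)] :=
  Pool.Agent.helper14.QF.covD_F chks_eq (.n 1 (.n 1 (.n 3 (.l 4) (.n 3 (.l 4) (.l 4))) (.n 3 (.l 4) (.n 3 (.l 4) (.l 4)))) (.n 2 (.n 3 (.l 4) (.n 3 (.l 4) (.n 0 (.l 4) (.l 4)))) (.n 3 (.n 0 (.l 4) (.l 4)) (.n 3 (.l 4) (.n 1 (.l 4) (.l 4))))))
    [(303877324800, 880803840), (94489280512, 94489280512), (687194767360, 137438953472), (446676598784, 34359738368)] rfl (by decide +kernel)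
end
mutual
theorem c1_m19_t5 : CovD 0 progs [(305638932480, 880803840), (94489280512, 94489280512), (687194767360, 137438953472), (446676598784, 34359738368)] :=
  Pool.Agent.helper14.QF.covD_F chks_eq (.n 1 (.n 1 (.n 3 (.l 4) (.n 3 (.l 4) (.l 4))) (.n 3 (.l 4) (.n 3 (.l 4) (.n 0 (.l 4) (.l 4))))) (.n 2 (.n 3 (.n 0 (.l 4) (.l 4)) (.n 3 (.l 4) (.n 1 (.l 4) (.l 4)))) (.n 1 (.n 3 (.l 4) (.n 3 (.l 4) (.l 4))) (.n 3 (.l 4) (.n 3 (.l 4) (.n 0 (.l 4) (.l 4)))))))
    [(305638932480, 880803840), (94489280512, 94489280512), (687194767360, 137438953472), (446676598784, 34359738368)] rfl (by decide +kernel)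
theorem c1_m19_t7 : CovD 0 progs [(307400540160, 880803840), (47244640256, 47244640256), (687194767360, 137438953472), (446676598784, 34359738368)] :=
  Pool.Agent.helper14.QF.covD_F chks_eq (.n 3 (.n 3 (.l 4) (.n 1 (.l 4) (.l 4))) (.n 1 (.n 3 (.l 4) (.n 0 (.l 4) (.l 4))) (.n 2 (.n 3 (.l 4) (.l 4)) (.n 3 (.l 4) (.l 4)))))
    [(307400540160, 880803840), (47244640256, 47244640256), (687194767360, 137438953472), (446676598784, 34359738368)] rfl (by decide +kernel)
end
mutual
theorem c1_m19_t8 : CovD 0 progs [(307400540160, 880803840), (141733920768, 47244640256), (687194767360, 137438953472), (446676598784, 34359738368)] :=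
  Pool.Agent.helper14.QF.covD_F chks_eq (.n 1 (.n 3 (.n 3 (.l 4) (.l 4)) (.n 2 (.n 3 (.l 4) (.l 4)) (.n 3 (.l 4) (.n 0 (.l 4) (.l 4))))) (.n 2 (.n 3 (.l 4) (.n 3 (.l 4) (.n 0 (.l 4) (.l 4)))) (.n 3 (.n 0 (.l 4) (.l 4)) (.n 3 (.l 4) (.n 0 (.l 4) (.l 4))))))
    [(307400540160, 880803840), (141733920768, 47244640256), (687194767360, 137438953472), (446676598784, 34359738368)] rfl (by decide +kernel)
theorem c1_m19_t10 : CovD 0 progs [(309162147840, 880803840), (47244640256, 47244640256), (687194767360, 137438953472), (446676598784, 34359738368)] :=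
  Pool.Agent.helper14.QF.covD_F chks_eq (.n 1 (.n 3 (.n 3 (.l 4) (.l 4)) (.n 1 (.n 3 (.l 4) (.l 4)) (.n 3 (.l 4) (.l 4)))) (.n 3 (.n 3 (.l 4) (.l 4)) (.n 2 (.n 3 (.l 4) (.l 4)) (.n 3 (.l 4) (.n 0 (.l 4) (.l 4))))))
    [(309162147840, 880803840), (47244640256, 47244640256), (687194767360, 137438953472), (446676598784, 34359738368)] rfl (by decide +kernel)
end
mutual
theorem c1_m19_t11 : CovD 0 progs [(309162147840, 880803840), (141733920768, 47244640256), (687194767360, 137438953472), (446676598784, 34359738368)] :=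
  Pool.Agent.helper14.QF.covD_F chks_eq (.n 1 (.n 3 (.n 3 (.l 4) (.n 1 (.l 4) (.l 4))) (.n 2 (.n 3 (.l 4) (.n 0 (.l 4) (.l 4))) (.n 3 (.l 4) (.n 1 (.l 4) (.l 4))))) (.n 2 (.n 3 (.n 0 (.l 4) (.l 4)) (.n 3 (.l 4) (.n 0 (.l 4) (.l 4)))) (.n 1 (.n 3 (.l 4) (.n 3 (.l 4) (.l 4))) (.n 3 (.l 4) (.n 3 (.l 4) (.l 4))))))
    [(309162147840, 880803840), (141733920768, 47244640256), (687194767360, 137438953472), (446676598784, 34359738368)] rfl (by decide +kernel)
theorem c1_m19_t17 : CovD 0 progs [(295950090240, 14092861440), (47244640256, 47244640256), (893353197568, 68719476736), (446676598784, 34359738368)] :=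
  Pool.Agent.helper14.QF.covD_F chks_eq (.n 1 (.l 6) (.n 2 (.l 6) (.l 6)))
    [(295950090240, 14092861440), (47244640256, 47244640256), (893353197568, 68719476736), (446676598784, 34359738368)] rfl (by decide +kernel)
end
mutual
theorem c1_m19_t18 : CovD 0 progs [(295950090240, 14092861440), (118111600640, 23622320128), (893353197568, 68719476736), (446676598784, 34359738368)] :=
  Pool.Agent.helper14.QF.covD_F chks_eq (.n 2 (.n 0 (.l 6) (.n 0 (.n 0 (.n 1 (.l 6) (.n 3 (.l 4) (.l 4))) (.n 3 (.l 4) (.n 0 (.l 4) (.l 4)))) (.n 0 (.n 3 (.n 0 (.l 4) (.l 4)) (.n 3 (.l 4) (.n 0 (.l 4) (.l 4)))) (.n 3 (.n 3 (.l 4) (.l 4)) (.n 0 (.n 3 (.l 4) (.l 4)) (.n 3 (.l 4) (.l 4))))))) (.l 6))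
    [(295950090240, 14092861440), (118111600640, 23622320128), (893353197568, 68719476736), (446676598784, 34359738368)] rfl (by decide +kernel)
theorem c1_m19_t19 : CovD 0 progs [(288903659520, 7046430720), (165356240896, 23622320128), (893353197568, 68719476736), (446676598784, 34359738368)] :=
  Pool.Agent.helper14.QF.covD_F chks_eq (.n 0 (.n 3 (.l 4) (.l 4)) (.n 0 (.n 0 (.l 4) (.l 4)) (.n 3 (.l 4) (.l 4))))
    [(288903659520, 7046430720), (165356240896, 23622320128), (893353197568, 68719476736), (446676598784, 34359738368)] rfl (by decide +kernel)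
end
mutual
theorem c1_m19_t20 : CovD 0 progs [(299473305600, 3523215360), (165356240896, 23622320128), (893353197568, 68719476736), (446676598784, 34359738368)] :=
  Pool.Agent.helper14.QF.covD_F chks_eq (.n 0 (.n 3 (.l 4) (.n 0 (.l 4) (.l 4))) (.n 3 (.l 4) (.n 3 (.l 4) (.n 0 (.l 4) (.l 4)))))
    [(299473305600, 3523215360), (165356240896, 23622320128), (893353197568, 68719476736), (446676598784, 34359738368)] rfl (by decide +kernel)
theorem c1_m19_t21 : CovD 0 progs [(306519736320, 3523215360), (165356240896, 23622320128), (893353197568, 68719476736), (446676598784, 34359738368)] :=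
  Pool.Agent.helper14.QF.covD_F chks_eq (.n 0 (.n 0 (.n 3 (.l 4) (.n 3 (.l 4) (.l 4))) (.n 3 (.l 4) (.n 3 (.l 4) (.n 0 (.l 4) (.l 4))))) (.n 0 (.n 1 (.n 3 (.l 4) (.n 2 (.l 4) (.l 4))) (.n 3 (.l 4) (.n 2 (.l 4) (.l 4)))) (.n 1 (.n 3 (.l 4) (.n 3 (.l 4) (.l 4))) (.n 3 (.l 4) (.n 2 (.l 4) (.l 4))))))
    [(306519736320, 3523215360), (165356240896, 23622320128), (893353197568, 68719476736), (446676598784, 34359738368)] rfl (by decide +kernel)
theorem c1_m19_t26 : CovD 0 progs [(295950090240, 14092861440), (94489280512, 94489280512), (1030792151040, 68719476736), (446676598784, 34359738368)] :=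
  Pool.Agent.helper14.QF.covD_F chks_eq (.n 1 (.l 6) (.n 0 (.l 6) (.n 1 (.l 6) (.n 0 (.l 6) (.n 1 (.l 6) (.n 0 (.l 6) (.n 2 (.n 3 (.l 4) (.l 4)) (.l 6))))))))
    [(295950090240, 14092861440), (94489280512, 94489280512), (1030792151040, 68719476736), (446676598784, 34359738368)] rfl (by decide +kernel)
end
theorem c1_m19_t3 : CovD 0 progs [(299473305600, 3523215360), (94489280512, 94489280512), (687194767360, 137438953472), (446676598784, 34359738368)] :=
  covD_split 0 (by decide +kernel) c1_m19_t1 c1_m19_t2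
theorem c1_m19_t6 : CovD 0 progs [(304758128640, 1761607680), (94489280512, 94489280512), (687194767360, 137438953472), (446676598784, 34359738368)] :=
  covD_split 0 (by decide +kernel) c1_m19_t4 c1_m19_t5
theorem c1_m19_t9 : CovD 0 progs [(307400540160, 880803840), (94489280512, 94489280512), (687194767360, 137438953472), (446676598784, 34359738368)] :=
  covD_split 1 (by decide +kernel) c1_m19_t7 c1_m19_t8
theorem c1_m19_t12 : CovD 0 progs [(309162147840, 880803840), (94489280512, 94489280512), (687194767360, 137438953472), (446676598784, 34359738368)] :=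
  covD_split 1 (by decide +kernel) c1_m19_t10 c1_m19_t11
theorem c1_m19_t13 : CovD 0 progs [(308281344000, 1761607680), (94489280512, 94489280512), (687194767360, 137438953472), (446676598784, 34359738368)] :=
  covD_split 0 (by decide +kernel) c1_m19_t9 c1_m19_t12
theorem c1_m19_t14 : CovD 0 progs [(306519736320, 3523215360), (94489280512, 94489280512), (687194767360, 137438953472), (446676598784, 34359738368)] :=
  covD_split 0 (by decide +kernel) c1_m19_t6 c1_m19_t13
theorem c1_m19_t15 : CovD 0 progs [(302996520960, 7046430720), (94489280512, 94489280512), (687194767360, 137438953472), (446676598784, 34359738368)] :=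
  covD_split 0 (by decide +kernel) c1_m19_t3 c1_m19_t14
theorem c1_m19_t16 : CovD 0 progs [(295950090240, 14092861440), (94489280512, 94489280512), (687194767360, 137438953472), (446676598784, 34359738368)] :=
  covD_split 0 (by decide +kernel) c1_m19_t0 c1_m19_t15
theorem c1_m19_t22 : CovD 0 progs [(302996520960, 7046430720), (165356240896, 23622320128), (893353197568, 68719476736), (446676598784, 34359738368)] :=
  covD_split 0 (by decide +kernel) c1_m19_t20 c1_m19_t21
theorem c1_m19_t23 : CovD 0 progs [(295950090240, 14092861440), (165356240896, 23622320128), (893353197568, 68719476736), (446676598784, 34359738368)] :=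
  covD_split 0 (by decide +kernel) c1_m19_t19 c1_m19_t22
theorem c1_m19_t24 : CovD 0 progs [(295950090240, 14092861440), (141733920768, 47244640256), (893353197568, 68719476736), (446676598784, 34359738368)] :=
  covD_split 1 (by decide +kernel) c1_m19_t18 c1_m19_t23
theorem c1_m19_t25 : CovD 0 progs [(295950090240, 14092861440), (94489280512, 94489280512), (893353197568, 68719476736), (446676598784, 34359738368)] :=
  covD_split 1 (by decide +kernel) c1_m19_t17 c1_m19_t24
theorem c1_m19_t27 : CovD 0 progs [(295950090240, 14092861440), (94489280512, 94489280512), (962072674304, 137438953472), (446676598784, 34359738368)] :=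
  covD_split 2 (by decide +kernel) c1_m19_t25 c1_m19_t26
theorem c1_m19 : CovD 0 progs [(295950090240, 14092861440), (94489280512, 94489280512), (824633720832, 274877906944), (446676598784, 34359738368)] :=
  covD_split 2 (by decide +kernel) c1_m19_t16 c1_m19_t27

end Pool.Agent.helper71.FJ.Crt.QMa
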