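import Pool.Agent.helper71.FJ.Crt.QMaP

/-!
Generated certificates.
-/

namespace Pool.Agent.helper71.FJ.Crt.QMa

open Pool.Agent.helper31.IA (Z Op)
open Pool.Agent.helper31.IC

mutual
theorem c1_m2_t0 : CovD 0 progs [(288903659520, 7046430720), (94489280512, 94489280512), (274877906944, 274877906944), (343597383680, 68719476736)] :=
  Pool.Agent.helper14.QF.covD_F chks_eq (.n 0 (.n 3 (.n 0 (.l 8) (.l 8)) (.n 3 (.l 8) (.n 0 (.l 8) (.l 8)))) (.n 0 (.n 3 (.l 8) (.n 2 (.l 4) (.l 4))) (.n 2 (.n 3 (.l 8) (.l 4)) (.n 3 (.l 4) (.n 0 (.l 4) (.l 4))))))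
    [(288903659520, 7046430720), (94489280512, 94489280512), (274877906944, 274877906944), (343597383680, 68719476736)] rfl (by decide +kernel)
theorem c1_m2_t1 : CovD 0 progs [(299473305600, 3523215360), (94489280512, 94489280512), (274877906944, 274877906944), (343597383680, 68719476736)] :=
  Pool.Agent.helper14.QF.covD_F chks_eq (.n 0 (.n 2 (.n 3 (.l 8) (.n 0 (.l 4) (.l 4))) (.n 3 (.l 4) (.n 3 (.l 4) (.l 4)))) (.n 2 (.n 3 (.l 8) (.n 3 (.l 4) (.l 4))) (.n 3 (.l 4) (.n 3 (.l 4) (.n 0 (.l 4) (.l 4))))))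
    [(299473305600, 3523215360), (94489280512, 94489280512), (274877906944, 274877906944), (343597383680, 68719476736)] rfl (by decide +kernel)
end
mutual
theorem c1_m2_t2 : CovD 0 progs [(304758128640, 1761607680), (94489280512, 94489280512), (274877906944, 274877906944), (343597383680, 68719476736)] :=
  Pool.Agent.helper14.QF.covD_F chks_eq (.n 2 (.n 3 (.l 8) (.n 3 (.l 4) (.n 0 (.l 4) (.l 4)))) (.n 2 (.n 3 (.l 4) (.n 3 (.l 4) (.l 4))) (.n 3 (.l 4) (.n 3 (.l 4) (.l 4)))))
    [(304758128640, 1761607680), (94489280512, 94489280512), (274877906944, 274877906944), (343597383680, 68719476736)] rfl (by decide +kernel)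
theorem c1_m2_t3 : CovD 0 progs [(308281344000, 1761607680), (94489280512, 94489280512), (274877906944, 274877906944), (343597383680, 68719476736)] :=
  Pool.Agent.helper14.QF.covD_F chks_eq (.n 3 (.n 2 (.n 0 (.l 4) (.l 4)) (.n 3 (.l 4) (.l 4))) (.n 3 (.n 1 (.n 2 (.l 4) (.l 4)) (.n 2 (.l 4) (.l 4))) (.n 2 (.n 3 (.l 4) (.n 0 (.l 4) (.l 4))) (.n 0 (.n 1 (.l 4) (.l 4)) (.n 2 (.l 4) (.l 4))))))
    [(308281344000, 1761607680), (94489280512, 94489280512), (274877906944, 274877906944), (343597383680, 68719476736)] rfl (by decide +kernel)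
end
theorem c1_m2_t4 : CovD 0 progs [(306519736320, 3523215360), (94489280512, 94489280512), (274877906944, 274877906944), (343597383680, 68719476736)] :=
  covD_split 0 (by decide +kernel) c1_m2_t2 c1_m2_t3
theorem c1_m2_t5 : CovD 0 progs [(302996520960, 7046430720), (94489280512, 94489280512), (274877906944, 274877906944), (343597383680, 68719476736)] :=
  covD_split 0 (by decide +kernel) c1_m2_t1 c1_m2_t4
theorem c1_m2 : CovD 0 progs [(295950090240, 14092861440), (94489280512, 94489280512), (274877906944, 274877906944), (343597383680, 68719476736)] :=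
  covD_split 0 (by decide +kernel) c1_m2_t0 c1_m2_t5

end Pool.Agent.helper71.FJ.Crt.QMa
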