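import Pool.Agent.helper71.FJ.Crt.QMaP

/-!
Generated certificates.
-/

namespace Pool.Agent.helper71.FJ.Crt.QMa

open Pool.Agent.helper31.IA (Z Op)
open Pool.Agent.helper31.IC

mutual
theorem c1_m20_t0 : CovD 0 progs [(285380444160, 3523215360), (47244640256, 47244640256), (687194767360, 137438953472), (515396075520, 34359738368)] :=
  Pool.Agent.helper14.QF.covD_F chks_eq (.n 0 (.n 3 (.l 4) (.n 3 (.l 4) (.l 4))) (.n 3 (.n 0 (.l 4) (.l 4)) (.n 3 (.l 4) (.n 0 (.l 4) (.l 4)))))
    [(285380444160, 3523215360), (47244640256, 47244640256), (687194767360, 137438953472), (515396075520, 34359738368)] rfl (by decide +kernel)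
theorem c1_m20_t1 : CovD 0 progs [(292426874880, 3523215360), (23622320128, 23622320128), (687194767360, 137438953472), (515396075520, 34359738368)] :=
  Pool.Agent.helper14.QF.covD_F chks_eq (.n 3 (.n 0 (.n 0 (.l 4) (.l 4)) (.n 3 (.l 4) (.l 4))) (.n 0 (.n 3 (.l 4) (.n 0 (.l 4) (.l 4))) (.n 0 (.n 3 (.l 4) (.n 0 (.l 4) (.l 4))) (.n 3 (.l 4) (.n 0 (.l 4) (.l 4))))))
    [(292426874880, 3523215360), (23622320128, 23622320128), (687194767360, 137438953472), (515396075520, 34359738368)] rfl (by decide +kernel)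
end
mutual
theorem c1_m20_t2 : CovD 0 progs [(292426874880, 3523215360), (70866960384, 23622320128), (687194767360, 137438953472), (515396075520, 34359738368)] :=
  Pool.Agent.helper14.QF.covD_F chks_eq (.n 0 (.n 3 (.n 0 (.l 4) (.l 4)) (.n 3 (.l 4) (.n 0 (.l 4) (.l 4)))) (.n 0 (.n 3 (.l 4) (.n 3 (.l 4) (.n 0 (.l 4) (.l 4)))) (.n 2 (.n 3 (.l 4) (.n 3 (.l 4) (.l 4))) (.n 2 (.n 3 (.l 4) (.n 3 (.l 4) (.l 4))) (.l 6)))))
    [(292426874880, 3523215360), (70866960384, 23622320128), (687194767360, 137438953472), (515396075520, 34359738368)] rfl (by decide +kernel)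
theorem c1_m20_t5 : CovD 0 progs [(297711697920, 1761607680), (47244640256, 47244640256), (618475290624, 68719476736), (515396075520, 34359738368)] :=
  Pool.Agent.helper14.QF.covD_F chks_eq (.n 0 (.n 3 (.n 3 (.l 4) (.l 4)) (.n 3 (.n 0 (.l 4) (.l 4)) (.n 3 (.l 4) (.l 4)))) (.n 3 (.n 3 (.l 4) (.l 4)) (.n 0 (.n 3 (.l 4) (.n 1 (.l 4) (.l 4))) (.n 3 (.l 4) (.n 1 (.l 4) (.l 4))))))
    [(297711697920, 1761607680), (47244640256, 47244640256), (618475290624, 68719476736), (515396075520, 34359738368)] rfl (by decide +kernel)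
end
mutual
theorem c1_m20_t6 : CovD 0 progs [(301234913280, 1761607680), (47244640256, 47244640256), (618475290624, 68719476736), (515396075520, 34359738368)] :=
  Pool.Agent.helper14.QF.covD_F chks_eq (.n 0 (.n 3 (.n 3 (.l 4) (.n 0 (.l 4) (.l 4))) (.n 1 (.n 3 (.l 4) (.n 0 (.l 4) (.l 4))) (.n 0 (.n 3 (.l 4) (.l 4)) (.n 3 (.l 4) (.l 4))))) (.n 3 (.n 3 (.l 4) (.n 0 (.l 4) (.l 4))) (.n 1 (.n 3 (.n 0 (.l 4) (.l 4)) (.l 4)) (.n 0 (.n 3 (.l 4) (.l 4)) (.n 3 (.l 4) (.l 4))))))
    [(301234913280, 1761607680), (47244640256, 47244640256), (618475290624, 68719476736), (515396075520, 34359738368)] rfl (by decide +kernel)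
theorem c1_m20_t8 : CovD 0 progs [(304758128640, 1761607680), (47244640256, 47244640256), (618475290624, 68719476736), (515396075520, 34359738368)] :=
  Pool.Agent.helper14.QF.covD_F chks_eq (.n 0 (.n 1 (.n 3 (.n 3 (.l 4) (.l 4)) (.n 3 (.l 4) (.l 4))) (.n 3 (.n 3 (.l 4) (.n 0 (.l 4) (.l 4))) (.n 3 (.n 0 (.l 4) (.l 4)) (.l 4)))) (.n 1 (.n 3 (.n 3 (.l 4) (.l 4)) (.n 3 (.l 4) (.l 4))) (.n 3 (.n 3 (.l 4) (.n 0 (.l 4) (.l 4))) (.n 3 (.l 4) (.l 4)))))
    [(304758128640, 1761607680), (47244640256, 47244640256), (618475290624, 68719476736), (515396075520, 34359738368)] rfl (by decide +kernel)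
end
mutual
theorem c1_m20_t9 : CovD 0 progs [(308281344000, 1761607680), (47244640256, 47244640256), (618475290624, 68719476736), (515396075520, 34359738368)] :=
  Pool.Agent.helper14.QF.covD_F chks_eq (.n 0 (.n 1 (.n 3 (.n 3 (.l 4) (.l 4)) (.n 3 (.l 4) (.l 4))) (.n 3 (.n 0 (.n 3 (.l 4) (.l 4)) (.n 3 (.l 4) (.l 4))) (.n 3 (.l 4) (.l 4)))) (.n 1 (.n 3 (.n 3 (.l 4) (.l 4)) (.n 3 (.l 4) (.l 4))) (.n 3 (.n 3 (.n 0 (.l 4) (.l 4)) (.l 4)) (.n 3 (.l 4) (.l 4)))))
    [(308281344000, 1761607680), (47244640256, 47244640256), (618475290624, 68719476736), (515396075520, 34359738368)] rfl (by decide +kernel)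
theorem c1_m20_t12 : CovD 0 progs [(297711697920, 1761607680), (47244640256, 47244640256), (755914244096, 68719476736), (515396075520, 34359738368)] :=
  Pool.Agent.helper14.QF.covD_F chks_eq (.n 0 (.n 3 (.n 3 (.l 4) (.l 4)) (.n 2 (.n 3 (.l 4) (.n 1 (.l 4) (.l 4))) (.n 1 (.l 6) (.l 6)))) (.n 3 (.n 3 (.l 4) (.n 0 (.l 4) (.l 4))) (.n 1 (.n 3 (.l 4) (.n 0 (.l 4) (.l 4))) (.n 3 (.n 0 (.l 4) (.l 4)) (.n 3 (.l 4) (.l 4))))))
    [(297711697920, 1761607680), (47244640256, 47244640256), (755914244096, 68719476736), (515396075520, 34359738368)] rfl (by decide +kernel)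
end
mutual
theorem c1_m20_t13 : CovD 0 progs [(301234913280, 1761607680), (47244640256, 47244640256), (755914244096, 68719476736), (515396075520, 34359738368)] :=
  Pool.Agent.helper14.QF.covD_F chks_eq (.n 0 (.n 3 (.n 3 (.l 4) (.n 1 (.l 4) (.l 4))) (.n 1 (.n 2 (.n 3 (.l 4) (.l 4)) (.l 6)) (.n 3 (.n 0 (.l 4) (.l 4)) (.n 3 (.l 4) (.l 4))))) (.n 1 (.n 2 (.n 3 (.n 3 (.l 4) (.l 4)) (.n 3 (.l 4) (.l 4))) (.l 6)) (.n 3 (.n 3 (.l 4) (.n 0 (.l 4) (.l 4))) (.n 1 (.n 3 (.l 4) (.l 4)) (.n 3 (.l 4) (.l 4))))))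
    [(301234913280, 1761607680), (47244640256, 47244640256), (755914244096, 68719476736), (515396075520, 34359738368)] rfl (by decide +kernel)
theorem c1_m20_t15 : CovD 0 progs [(304758128640, 1761607680), (47244640256, 47244640256), (755914244096, 68719476736), (515396075520, 34359738368)] :=
  Pool.Agent.helper14.QF.covD_F chks_eq (.n 0 (.n 1 (.n 2 (.n 3 (.n 3 (.l 4) (.l 4)) (.n 3 (.l 4) (.l 4))) (.l 6)) (.n 3 (.n 3 (.l 4) (.n 0 (.l 4) (.l 4))) (.n 3 (.n 1 (.l 4) (.l 4)) (.l 4)))) (.n 3 (.n 3 (.n 1 (.l 4) (.n 0 (.l 4) (.l 4))) (.n 1 (.n 0 (.l 4) (.l 4)) (.n 1 (.l 4) (.l 4)))) (.n 1 (.n 3 (.l 4) (.l 4)) (.n 3 (.n 0 (.l 4) (.l 4)) (.l 4)))))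
    [(304758128640, 1761607680), (47244640256, 47244640256), (755914244096, 68719476736), (515396075520, 34359738368)] rfl (by decide +kernel)
end
mutual
theorem c1_m20_t16 : CovD 0 progs [(308281344000, 1761607680), (47244640256, 47244640256), (755914244096, 68719476736), (515396075520, 34359738368)] :=
  Pool.Agent.helper14.QF.covD_F chks_eq (.n 0 (.n 1 (.n 2 (.n 3 (.n 3 (.l 4) (.l 4)) (.n 3 (.l 4) (.l 4))) (.l 6)) (.n 3 (.n 1 (.n 3 (.l 4) (.l 4)) (.n 3 (.l 4) (.l 4))) (.n 3 (.l 4) (.n 0 (.l 4) (.l 4))))) (.n 1 (.n 3 (.n 3 (.n 0 (.l 4) (.l 4)) (.l 4)) (.n 3 (.l 4) (.l 4))) (.n 3 (.n 0 (.n 3 (.l 4) (.l 4)) (.n 3 (.l 4) (.l 4))) (.n 3 (.l 4) (.n 0 (.l 4) (.l 4))))))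
    [(308281344000, 1761607680), (47244640256, 47244640256), (755914244096, 68719476736), (515396075520, 34359738368)] rfl (by decide +kernel)
theorem c1_m20_t21 : CovD 0 progs [(285380444160, 3523215360), (118111600640, 23622320128), (687194767360, 137438953472), (515396075520, 34359738368)] :=
  Pool.Agent.helper14.QF.covD_F chks_eq (.n 0 (.n 3 (.l 4) (.n 0 (.l 4) (.l 4))) (.n 3 (.l 4) (.n 3 (.l 4) (.n 0 (.l 4) (.l 4)))))
    [(285380444160, 3523215360), (118111600640, 23622320128), (687194767360, 137438953472), (515396075520, 34359738368)] rfl (by decide +kernel)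
end
mutual
theorem c1_m20_t22 : CovD 0 progs [(292426874880, 3523215360), (118111600640, 23622320128), (687194767360, 137438953472), (515396075520, 34359738368)] :=
  Pool.Agent.helper14.QF.covD_F chks_eq (.n 0 (.n 0 (.n 3 (.l 4) (.n 3 (.l 4) (.l 4))) (.n 3 (.l 4) (.n 3 (.l 4) (.n 1 (.l 4) (.l 4))))) (.n 0 (.n 2 (.n 3 (.l 4) (.n 3 (.l 4) (.l 4))) (.n 3 (.l 4) (.n 3 (.l 4) (.l 4)))) (.n 3 (.n 3 (.l 4) (.l 4)) (.n 1 (.n 3 (.l 4) (.n 2 (.l 4) (.l 4))) (.n 3 (.l 4) (.n 2 (.l 4) (.l 4)))))))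
    [(292426874880, 3523215360), (118111600640, 23622320128), (687194767360, 137438953472), (515396075520, 34359738368)] rfl (by decide +kernel)
theorem c1_m20_t24 : CovD 0 progs [(297711697920, 1761607680), (118111600640, 23622320128), (687194767360, 137438953472), (515396075520, 34359738368)] :=
  Pool.Agent.helper14.QF.covD_F chks_eq (.n 0 (.n 3 (.n 3 (.l 4) (.n 0 (.l 4) (.l 4))) (.n 2 (.n 3 (.l 4) (.n 0 (.l 4) (.l 4))) (.n 3 (.l 4) (.n 1 (.l 4) (.l 4))))) (.n 3 (.n 3 (.l 4) (.n 2 (.l 4) (.l 4))) (.n 3 (.n 0 (.n 2 (.l 4) (.l 4)) (.n 2 (.l 4) (.l 4))) (.n 2 (.n 3 (.l 4) (.l 4)) (.n 3 (.l 4) (.n 0 (.l 4) (.l 4)))))))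
    [(297711697920, 1761607680), (118111600640, 23622320128), (687194767360, 137438953472), (515396075520, 34359738368)] rfl (by decide +kernel)
end
mutual
theorem c1_m20_t25 : CovD 0 progs [(300354109440, 880803840), (118111600640, 23622320128), (687194767360, 137438953472), (515396075520, 34359738368)] :=
  Pool.Agent.helper14.QF.covD_F chks_eq (.n 2 (.n 3 (.n 3 (.l 4) (.l 4)) (.n 2 (.n 3 (.l 4) (.l 4)) (.n 3 (.l 4) (.l 4)))) (.n 3 (.n 3 (.l 4) (.n 0 (.l 4) (.l 4))) (.n 1 (.n 3 (.l 4) (.n 0 (.l 4) (.l 4))) (.n 3 (.l 4) (.n 0 (.l 4) (.l 4))))))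
    [(300354109440, 880803840), (118111600640, 23622320128), (687194767360, 137438953472), (515396075520, 34359738368)] rfl (by decide +kernel)
theorem c1_m20_t26 : CovD 0 progs [(302115717120, 880803840), (118111600640, 23622320128), (687194767360, 137438953472), (515396075520, 34359738368)] :=
  Pool.Agent.helper14.QF.covD_F chks_eq (.n 2 (.n 3 (.n 3 (.l 4) (.n 0 (.l 4) (.l 4))) (.n 2 (.n 3 (.l 4) (.l 4)) (.n 3 (.l 4) (.l 4)))) (.n 3 (.n 3 (.l 4) (.n 0 (.l 4) (.l 4))) (.n 2 (.n 3 (.l 4) (.l 4)) (.n 3 (.n 0 (.l 4) (.l 4)) (.l 4)))))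
    [(302115717120, 880803840), (118111600640, 23622320128), (687194767360, 137438953472), (515396075520, 34359738368)] rfl (by decide +kernel)
end
mutual
theorem c1_m20_t29 : CovD 0 progs [(303877324800, 880803840), (118111600640, 23622320128), (687194767360, 137438953472), (515396075520, 34359738368)] :=
  Pool.Agent.helper14.QF.covD_F chks_eq (.n 2 (.n 3 (.n 3 (.l 4) (.n 0 (.l 4) (.l 4))) (.n 3 (.n 1 (.l 4) (.l 4)) (.l 4))) (.n 1 (.n 3 (.n 3 (.l 4) (.l 4)) (.n 3 (.l 4) (.l 4))) (.n 3 (.n 3 (.l 4) (.l 4)) (.n 3 (.l 4) (.l 4)))))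
    [(303877324800, 880803840), (118111600640, 23622320128), (687194767360, 137438953472), (515396075520, 34359738368)] rfl (by decide +kernel)
theorem c1_m20_t30 : CovD 0 progs [(305638932480, 880803840), (118111600640, 23622320128), (687194767360, 137438953472), (515396075520, 34359738368)] :=
  Pool.Agent.helper14.QF.covD_F chks_eq (.n 2 (.n 3 (.n 0 (.n 3 (.l 4) (.l 4)) (.n 3 (.l 4) (.l 4))) (.n 3 (.n 0 (.l 4) (.l 4)) (.l 4))) (.n 1 (.n 3 (.n 3 (.l 4) (.l 4)) (.n 1 (.l 4) (.l 4))) (.n 3 (.n 3 (.l 4) (.l 4)) (.n 1 (.l 4) (.l 4)))))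
    [(305638932480, 880803840), (118111600640, 23622320128), (687194767360, 137438953472), (515396075520, 34359738368)] rfl (by decide +kernel)
end
mutual
theorem c1_m20_t32 : CovD 0 progs [(307400540160, 880803840), (118111600640, 23622320128), (687194767360, 137438953472), (515396075520, 34359738368)] :=
  Pool.Agent.helper14.QF.covD_F chks_eq (.n 2 (.n 3 (.n 0 (.n 3 (.l 4) (.l 4)) (.n 3 (.l 4) (.l 4))) (.n 3 (.l 4) (.n 0 (.l 4) (.l 4)))) (.n 1 (.n 3 (.n 3 (.l 4) (.l 4)) (.n 2 (.l 4) (.l 4))) (.n 3 (.n 3 (.l 4) (.l 4)) (.n 2 (.l 4) (.l 4)))))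
    [(307400540160, 880803840), (118111600640, 23622320128), (687194767360, 137438953472), (515396075520, 34359738368)] rfl (by decide +kernel)
theorem c1_m20_t33 : CovD 0 progs [(309162147840, 880803840), (118111600640, 23622320128), (687194767360, 137438953472), (515396075520, 34359738368)] :=
  Pool.Agent.helper14.QF.covD_F chks_eq (.n 2 (.n 3 (.n 3 (.n 0 (.l 4) (.l 4)) (.l 4)) (.n 3 (.l 4) (.n 0 (.l 4) (.l 4)))) (.n 1 (.n 3 (.n 3 (.l 4) (.l 4)) (.n 3 (.l 4) (.l 4))) (.n 3 (.n 3 (.l 4) (.l 4)) (.n 3 (.l 4) (.l 4)))))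
    [(309162147840, 880803840), (118111600640, 23622320128), (687194767360, 137438953472), (515396075520, 34359738368)] rfl (by decide +kernel)
end
mutual
theorem c1_m20_t38 : CovD 0 progs [(285380444160, 3523215360), (165356240896, 23622320128), (687194767360, 137438953472), (515396075520, 34359738368)] :=
  Pool.Agent.helper14.QF.covD_F chks_eq (.n 0 (.n 3 (.l 4) (.n 3 (.l 4) (.l 4))) (.n 3 (.n 0 (.l 4) (.l 4)) (.n 3 (.l 4) (.n 0 (.l 4) (.l 4)))))
    [(285380444160, 3523215360), (165356240896, 23622320128), (687194767360, 137438953472), (515396075520, 34359738368)] rfl (by decide +kernel)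
theorem c1_m20_t39 : CovD 0 progs [(292426874880, 3523215360), (165356240896, 23622320128), (687194767360, 137438953472), (515396075520, 34359738368)] :=
  Pool.Agent.helper14.QF.covD_F chks_eq (.n 0 (.n 3 (.n 3 (.l 4) (.l 4)) (.n 2 (.n 3 (.l 4) (.n 0 (.l 4) (.l 4))) (.n 3 (.l 4) (.n 0 (.l 4) (.l 4))))) (.n 0 (.n 2 (.n 3 (.l 4) (.n 3 (.l 4) (.l 4))) (.n 3 (.l 4) (.n 3 (.l 4) (.n 0 (.l 4) (.l 4))))) (.n 2 (.n 3 (.l 4) (.n 3 (.l 4) (.n 0 (.l 4) (.l 4)))) (.n 3 (.n 0 (.l 4) (.l 4)) (.n 3 (.l 4) (.n 1 (.l 4) (.l 4)))))))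
    [(292426874880, 3523215360), (165356240896, 23622320128), (687194767360, 137438953472), (515396075520, 34359738368)] rfl (by decide +kernel)
end
mutual
theorem c1_m20_t41 : CovD 0 progs [(302996520960, 7046430720), (165356240896, 23622320128), (687194767360, 137438953472), (489626271744, 8589934592)] :=
  Pool.Agent.helper14.QF.covD_F chks_eq (.n 0 (.n 0 (.n 2 (.l 4) (.l 4)) (.n 0 (.n 2 (.l 4) (.l 4)) (.n 2 (.l 4) (.l 4)))) (.n 0 (.n 0 (.n 2 (.l 4) (.n 0 (.l 4) (.l 4))) (.n 1 (.n 2 (.l 4) (.l 4)) (.n 2 (.l 4) (.l 4)))) (.n 0 (.n 1 (.n 2 (.l 4) (.l 4)) (.n 2 (.l 4) (.l 4))) (.n 1 (.n 2 (.l 4) (.l 4)) (.n 2 (.l 4) (.l 4))))))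
    [(302996520960, 7046430720), (165356240896, 23622320128), (687194767360, 137438953472), (489626271744, 8589934592)] rfl (by decide +kernel)
theorem c1_m20_t42 : CovD 0 progs [(299473305600, 3523215360), (165356240896, 23622320128), (687194767360, 137438953472), (506806140928, 8589934592)] :=
  Pool.Agent.helper14.QF.covD_F chks_eq (.n 0 (.n 0 (.n 2 (.l 4) (.l 4)) (.n 2 (.l 4) (.l 4))) (.n 0 (.n 2 (.l 4) (.n 0 (.l 4) (.l 4))) (.n 1 (.n 2 (.l 4) (.l 4)) (.n 2 (.l 4) (.l 4)))))
    [(299473305600, 3523215360), (165356240896, 23622320128), (687194767360, 137438953472), (506806140928, 8589934592)] rfl (by decide +kernel)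
end
mutual
theorem c1_m20_t43 : CovD 0 progs [(306519736320, 3523215360), (165356240896, 23622320128), (687194767360, 137438953472), (506806140928, 8589934592)] :=
  Pool.Agent.helper14.QF.covD_F chks_eq (.n 0 (.n 0 (.n 1 (.n 2 (.l 4) (.l 4)) (.n 2 (.l 4) (.l 4))) (.n 2 (.n 2 (.l 4) (.l 4)) (.n 1 (.l 4) (.l 4)))) (.n 0 (.n 1 (.n 2 (.l 4) (.l 4)) (.n 2 (.l 4) (.l 4))) (.n 1 (.n 2 (.l 4) (.l 4)) (.n 2 (.l 4) (.l 4)))))
    [(306519736320, 3523215360), (165356240896, 23622320128), (687194767360, 137438953472), (506806140928, 8589934592)] rfl (by decide +kernel)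
theorem c1_m20_t46 : CovD 0 progs [(299473305600, 3523215360), (165356240896, 23622320128), (687194767360, 137438953472), (523986010112, 8589934592)] :=
  Pool.Agent.helper14.QF.covD_F chks_eq (.n 0 (.n 0 (.n 2 (.l 4) (.n 0 (.l 4) (.l 4))) (.n 1 (.n 2 (.l 4) (.l 4)) (.n 2 (.l 4) (.l 4)))) (.n 0 (.n 2 (.n 2 (.l 4) (.l 4)) (.n 1 (.l 4) (.l 4))) (.n 2 (.n 2 (.l 4) (.l 4)) (.n 2 (.l 4) (.l 4)))))
    [(299473305600, 3523215360), (165356240896, 23622320128), (687194767360, 137438953472), (523986010112, 8589934592)] rfl (by decide +kernel)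
end
mutual
theorem c1_m20_t47 : CovD 0 progs [(306519736320, 3523215360), (165356240896, 23622320128), (687194767360, 137438953472), (523986010112, 8589934592)] :=
  Pool.Agent.helper14.QF.covD_F chks_eq (.n 0 (.n 0 (.n 2 (.n 2 (.l 4) (.l 4)) (.n 2 (.l 4) (.l 4))) (.n 1 (.n 2 (.l 4) (.l 4)) (.n 2 (.l 4) (.l 4)))) (.n 1 (.n 2 (.l 4) (.l 4)) (.n 2 (.l 4) (.l 4))))
    [(306519736320, 3523215360), (165356240896, 23622320128), (687194767360, 137438953472), (523986010112, 8589934592)] rfl (by decide +kernel)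
theorem c1_m20_t49 : CovD 0 progs [(299473305600, 3523215360), (165356240896, 23622320128), (687194767360, 137438953472), (541165879296, 8589934592)] :=
  Pool.Agent.helper14.QF.covD_F chks_eq (.n 0 (.n 0 (.n 2 (.n 2 (.l 4) (.l 4)) (.n 2 (.l 4) (.l 4))) (.n 2 (.n 2 (.l 4) (.l 4)) (.n 2 (.l 4) (.l 4)))) (.n 0 (.n 2 (.n 2 (.l 4) (.l 4)) (.n 2 (.l 4) (.l 4))) (.n 1 (.n 2 (.l 4) (.l 4)) (.n 2 (.l 4) (.l 4)))))
    [(299473305600, 3523215360), (165356240896, 23622320128), (687194767360, 137438953472), (541165879296, 8589934592)] rfl (by decide +kernel)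
theorem c1_m20_t50 : CovD 0 progs [(306519736320, 3523215360), (165356240896, 23622320128), (687194767360, 137438953472), (541165879296, 8589934592)] :=
  Pool.Agent.helper14.QF.covD_F chks_eq (.n 0 (.n 1 (.n 2 (.l 4) (.l 4)) (.n 2 (.l 4) (.l 4))) (.n 0 (.n 1 (.n 2 (.l 4) (.l 4)) (.n 2 (.l 4) (.l 4))) (.n 1 (.n 2 (.l 4) (.l 4)) (.n 2 (.l 4) (.l 4)))))
    [(306519736320, 3523215360), (165356240896, 23622320128), (687194767360, 137438953472), (541165879296, 8589934592)] rfl (by decide +kernel)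
end
theorem c1_m20_t3 : CovD 0 progs [(292426874880, 3523215360), (47244640256, 47244640256), (687194767360, 137438953472), (515396075520, 34359738368)] :=
  covD_split 1 (by decide +kernel) c1_m20_t1 c1_m20_t2
theorem c1_m20_t4 : CovD 0 progs [(288903659520, 7046430720), (47244640256, 47244640256), (687194767360, 137438953472), (515396075520, 34359738368)] :=
  covD_split 0 (by decide +kernel) c1_m20_t0 c1_m20_t3
theorem c1_m20_t7 : CovD 0 progs [(299473305600, 3523215360), (47244640256, 47244640256), (618475290624, 68719476736), (515396075520, 34359738368)] :=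
  covD_split 0 (by decide +kernel) c1_m20_t5 c1_m20_t6
theorem c1_m20_t10 : CovD 0 progs [(306519736320, 3523215360), (47244640256, 47244640256), (618475290624, 68719476736), (515396075520, 34359738368)] :=
  covD_split 0 (by decide +kernel) c1_m20_t8 c1_m20_t9
theorem c1_m20_t11 : CovD 0 progs [(302996520960, 7046430720), (47244640256, 47244640256), (618475290624, 68719476736), (515396075520, 34359738368)] :=
  covD_split 0 (by decide +kernel) c1_m20_t7 c1_m20_t10
theorem c1_m20_t14 : CovD 0 progs [(299473305600, 3523215360), (47244640256, 47244640256), (755914244096, 68719476736), (515396075520, 34359738368)] :=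
  covD_split 0 (by decide +kernel) c1_m20_t12 c1_m20_t13
theorem c1_m20_t17 : CovD 0 progs [(306519736320, 3523215360), (47244640256, 47244640256), (755914244096, 68719476736), (515396075520, 34359738368)] :=
  covD_split 0 (by decide +kernel) c1_m20_t15 c1_m20_t16
theorem c1_m20_t18 : CovD 0 progs [(302996520960, 7046430720), (47244640256, 47244640256), (755914244096, 68719476736), (515396075520, 34359738368)] :=
  covD_split 0 (by decide +kernel) c1_m20_t14 c1_m20_t17
theorem c1_m20_t19 : CovD 0 progs [(302996520960, 7046430720), (47244640256, 47244640256), (687194767360, 137438953472), (515396075520, 34359738368)] :=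
  covD_split 2 (by decide +kernel) c1_m20_t11 c1_m20_t18
theorem c1_m20_t20 : CovD 0 progs [(295950090240, 14092861440), (47244640256, 47244640256), (687194767360, 137438953472), (515396075520, 34359738368)] :=
  covD_split 0 (by decide +kernel) c1_m20_t4 c1_m20_t19
theorem c1_m20_t23 : CovD 0 progs [(288903659520, 7046430720), (118111600640, 23622320128), (687194767360, 137438953472), (515396075520, 34359738368)] :=
  covD_split 0 (by decide +kernel) c1_m20_t21 c1_m20_t22
theorem c1_m20_t27 : CovD 0 progs [(301234913280, 1761607680), (118111600640, 23622320128), (687194767360, 137438953472), (515396075520, 34359738368)] :=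
  covD_split 0 (by decide +kernel) c1_m20_t25 c1_m20_t26
theorem c1_m20_t28 : CovD 0 progs [(299473305600, 3523215360), (118111600640, 23622320128), (687194767360, 137438953472), (515396075520, 34359738368)] :=
  covD_split 0 (by decide +kernel) c1_m20_t24 c1_m20_t27
theorem c1_m20_t31 : CovD 0 progs [(304758128640, 1761607680), (118111600640, 23622320128), (687194767360, 137438953472), (515396075520, 34359738368)] :=
  covD_split 0 (by decide +kernel) c1_m20_t29 c1_m20_t30
theorem c1_m20_t34 : CovD 0 progs [(308281344000, 1761607680), (118111600640, 23622320128), (687194767360, 137438953472), (515396075520, 34359738368)] :=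
  covD_split 0 (by decide +kernel) c1_m20_t32 c1_m20_t33
theorem c1_m20_t35 : CovD 0 progs [(306519736320, 3523215360), (118111600640, 23622320128), (687194767360, 137438953472), (515396075520, 34359738368)] :=
  covD_split 0 (by decide +kernel) c1_m20_t31 c1_m20_t34
theorem c1_m20_t36 : CovD 0 progs [(302996520960, 7046430720), (118111600640, 23622320128), (687194767360, 137438953472), (515396075520, 34359738368)] :=
  covD_split 0 (by decide +kernel) c1_m20_t28 c1_m20_t35
theorem c1_m20_t37 : CovD 0 progs [(295950090240, 14092861440), (118111600640, 23622320128), (687194767360, 137438953472), (515396075520, 34359738368)] :=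
  covD_split 0 (by decide +kernel) c1_m20_t23 c1_m20_t36
theorem c1_m20_t40 : CovD 0 progs [(288903659520, 7046430720), (165356240896, 23622320128), (687194767360, 137438953472), (515396075520, 34359738368)] :=
  covD_split 0 (by decide +kernel) c1_m20_t38 c1_m20_t39
theorem c1_m20_t44 : CovD 0 progs [(302996520960, 7046430720), (165356240896, 23622320128), (687194767360, 137438953472), (506806140928, 8589934592)] :=
  covD_split 0 (by decide +kernel) c1_m20_t42 c1_m20_t43
theorem c1_m20_t45 : CovD 0 progs [(302996520960, 7046430720), (165356240896, 23622320128), (687194767360, 137438953472), (498216206336, 17179869184)] :=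
  covD_split 3 (by decide +kernel) c1_m20_t41 c1_m20_t44
theorem c1_m20_t48 : CovD 0 progs [(302996520960, 7046430720), (165356240896, 23622320128), (687194767360, 137438953472), (523986010112, 8589934592)] :=
  covD_split 0 (by decide +kernel) c1_m20_t46 c1_m20_t47
theorem c1_m20_t51 : CovD 0 progs [(302996520960, 7046430720), (165356240896, 23622320128), (687194767360, 137438953472), (541165879296, 8589934592)] :=
  covD_split 0 (by decide +kernel) c1_m20_t49 c1_m20_t50
theorem c1_m20_t52 : CovD 0 progs [(302996520960, 7046430720), (165356240896, 23622320128), (687194767360, 137438953472), (532575944704, 17179869184)] :=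
  covD_split 3 (by decide +kernel) c1_m20_t48 c1_m20_t51
theorem c1_m20_t53 : CovD 0 progs [(302996520960, 7046430720), (165356240896, 23622320128), (687194767360, 137438953472), (515396075520, 34359738368)] :=
  covD_split 3 (by decide +kernel) c1_m20_t45 c1_m20_t52
theorem c1_m20_t54 : CovD 0 progs [(295950090240, 14092861440), (165356240896, 23622320128), (687194767360, 137438953472), (515396075520, 34359738368)] :=
  covD_split 0 (by decide +kernel) c1_m20_t40 c1_m20_t53
theorem c1_m20_t55 : CovD 0 progs [(295950090240, 14092861440), (141733920768, 47244640256), (687194767360, 137438953472), (515396075520, 34359738368)] :=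
  covD_split 1 (by decide +kernel) c1_m20_t37 c1_m20_t54
theorem c1_m20 : CovD 0 progs [(295950090240, 14092861440), (94489280512, 94489280512), (687194767360, 137438953472), (515396075520, 34359738368)] :=
  covD_split 1 (by decide +kernel) c1_m20_t20 c1_m20_t55

end Pool.Agent.helper71.FJ.Crt.QMa
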