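import Pool.Agent.helper71.FJ.Crt.QMaP

/-!
Generated certificates.
-/

namespace Pool.Agent.helper71.FJ.Crt.QMa

open Pool.Agent.helper31.IA (Z Op)
open Pool.Agent.helper31.IC

mutual
theorem c1_m22_t0 : CovD 0 progs [(310923755520, 880803840), (47244640256, 47244640256), (687194767360, 137438953472), (446676598784, 34359738368)] :=
  Pool.Agent.helper14.QF.covD_F chks_eq (.n 3 (.n 1 (.n 3 (.l 4) (.l 4)) (.n 3 (.l 4) (.n 0 (.l 4) (.l 4)))) (.n 1 (.n 2 (.n 3 (.l 4) (.l 4)) (.n 3 (.l 4) (.l 4))) (.n 2 (.n 3 (.l 4) (.l 4)) (.n 0 (.n 3 (.l 4) (.l 4)) (.n 3 (.l 4) (.l 4))))))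
    [(310923755520, 880803840), (47244640256, 47244640256), (687194767360, 137438953472), (446676598784, 34359738368)] rfl (by decide +kernel)
theorem c1_m22_t1 : CovD 0 progs [(312685363200, 880803840), (47244640256, 47244640256), (687194767360, 137438953472), (446676598784, 34359738368)] :=
  Pool.Agent.helper14.QF.covD_F chks_eq (.n 3 (.n 1 (.n 3 (.l 4) (.n 0 (.l 4) (.l 4))) (.n 2 (.n 3 (.l 4) (.l 4)) (.n 3 (.l 4) (.l 4)))) (.n 1 (.n 1 (.n 3 (.l 4) (.l 4)) (.n 3 (.l 4) (.l 4))) (.n 2 (.n 3 (.l 4) (.l 4)) (.n 0 (.n 3 (.l 4) (.l 4)) (.n 3 (.l 4) (.l 4))))))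
    [(312685363200, 880803840), (47244640256, 47244640256), (687194767360, 137438953472), (446676598784, 34359738368)] rfl (by decide +kernel)
end
mutual
theorem c1_m22_t3 : CovD 0 progs [(314446970880, 880803840), (47244640256, 47244640256), (687194767360, 137438953472), (446676598784, 34359738368)] :=
  Pool.Agent.helper14.QF.covD_F chks_eq (.n 1 (.n 2 (.n 3 (.n 3 (.l 4) (.l 4)) (.n 3 (.l 4) (.l 4))) (.n 3 (.n 3 (.l 4) (.l 4)) (.n 3 (.l 4) (.l 4)))) (.n 2 (.n 3 (.n 3 (.l 4) (.l 4)) (.n 3 (.l 4) (.l 4))) (.n 3 (.n 3 (.l 4) (.n 0 (.l 4) (.l 4))) (.n 3 (.n 0 (.l 4) (.l 4)) (.l 4)))))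
    [(314446970880, 880803840), (47244640256, 47244640256), (687194767360, 137438953472), (446676598784, 34359738368)] rfl (by decide +kernel)
theorem c1_m22_t4 : CovD 0 progs [(316208578560, 880803840), (47244640256, 47244640256), (687194767360, 137438953472), (446676598784, 34359738368)] :=
  Pool.Agent.helper14.QF.covD_F chks_eq (.n 1 (.n 2 (.n 3 (.n 3 (.l 4) (.l 4)) (.n 0 (.l 4) (.l 4))) (.n 3 (.n 3 (.l 4) (.l 4)) (.n 1 (.l 4) (.l 4)))) (.n 2 (.n 3 (.n 3 (.l 4) (.l 4)) (.n 1 (.l 4) (.l 4))) (.n 3 (.n 3 (.l 4) (.n 0 (.l 4) (.l 4))) (.n 1 (.l 4) (.n 0 (.l 4) (.l 4))))))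
    [(316208578560, 880803840), (47244640256, 47244640256), (687194767360, 137438953472), (446676598784, 34359738368)] rfl (by decide +kernel)
end
mutual
theorem c1_m22_t7 : CovD 0 progs [(317970186240, 880803840), (47244640256, 47244640256), (687194767360, 137438953472), (446676598784, 34359738368)] :=
  Pool.Agent.helper14.QF.covD_F chks_eq (.n 1 (.n 2 (.n 3 (.n 3 (.l 4) (.l 4)) (.l 4)) (.n 3 (.n 3 (.l 4) (.l 4)) (.l 4))) (.n 2 (.n 3 (.n 3 (.l 4) (.l 4)) (.l 4)) (.n 1 (.n 3 (.n 3 (.l 4) (.l 4)) (.l 4)) (.n 3 (.n 3 (.l 4) (.l 4)) (.l 4)))))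
    [(317970186240, 880803840), (47244640256, 47244640256), (687194767360, 137438953472), (446676598784, 34359738368)] rfl (by decide +kernel)
theorem c1_m22_t8 : CovD 0 progs [(319731793920, 880803840), (47244640256, 47244640256), (687194767360, 137438953472), (446676598784, 34359738368)] :=
  Pool.Agent.helper14.QF.covD_F chks_eq (.n 1 (.n 2 (.n 3 (.n 3 (.l 4) (.l 4)) (.n 3 (.l 4) (.l 4))) (.n 3 (.n 3 (.l 4) (.l 4)) (.n 3 (.l 4) (.l 4)))) (.n 2 (.n 3 (.n 3 (.l 4) (.l 4)) (.n 3 (.l 4) (.l 4))) (.n 3 (.n 3 (.n 0 (.l 4) (.l 4)) (.l 4)) (.n 3 (.l 4) (.l 4)))))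
    [(319731793920, 880803840), (47244640256, 47244640256), (687194767360, 137438953472), (446676598784, 34359738368)] rfl (by decide +kernel)
end
mutual
theorem c1_m22_t10 : CovD 0 progs [(321493401600, 880803840), (47244640256, 47244640256), (687194767360, 137438953472), (446676598784, 34359738368)] :=
  Pool.Agent.helper14.QF.covD_F chks_eq (.n 1 (.n 2 (.n 3 (.l 4) (.n 3 (.l 4) (.l 4))) (.n 3 (.l 4) (.n 3 (.l 4) (.l 4)))) (.n 2 (.n 3 (.l 4) (.n 3 (.l 4) (.l 4))) (.n 3 (.n 1 (.l 4) (.l 4)) (.n 3 (.l 4) (.l 4)))))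
    [(321493401600, 880803840), (47244640256, 47244640256), (687194767360, 137438953472), (446676598784, 34359738368)] rfl (by decide +kernel)
theorem c1_m22_t11 : CovD 0 progs [(323255009280, 880803840), (47244640256, 47244640256), (687194767360, 137438953472), (446676598784, 34359738368)] :=
  Pool.Agent.helper14.QF.covD_F chks_eq (.n 1 (.n 2 (.n 3 (.l 4) (.n 3 (.l 4) (.l 4))) (.n 3 (.l 4) (.n 3 (.l 4) (.l 4)))) (.n 2 (.n 3 (.l 4) (.n 3 (.l 4) (.l 4))) (.n 3 (.n 1 (.l 4) (.l 4)) (.n 3 (.l 4) (.l 4)))))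
    [(323255009280, 880803840), (47244640256, 47244640256), (687194767360, 137438953472), (446676598784, 34359738368)] rfl (by decide +kernel)
end
mutual
theorem c1_m22_t15 : CovD 0 progs [(325897420800, 1761607680), (23622320128, 23622320128), (687194767360, 137438953472), (446676598784, 34359738368)] :=
  Pool.Agent.helper14.QF.covD_F chks_eq (.n 2 (.n 3 (.n 3 (.l 4) (.n 0 (.l 4) (.l 4))) (.n 3 (.n 0 (.l 4) (.l 4)) (.l 4))) (.n 3 (.n 3 (.l 4) (.n 0 (.l 4) (.l 4))) (.n 3 (.n 0 (.l 4) (.l 4)) (.l 4))))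
    [(325897420800, 1761607680), (23622320128, 23622320128), (687194767360, 137438953472), (446676598784, 34359738368)] rfl (by decide +kernel)
theorem c1_m22_t16 : CovD 0 progs [(325897420800, 1761607680), (70866960384, 23622320128), (687194767360, 137438953472), (446676598784, 34359738368)] :=
  Pool.Agent.helper14.QF.covD_F chks_eq (.n 0 (.n 2 (.n 3 (.n 1 (.l 4) (.l 4)) (.n 3 (.l 4) (.l 4))) (.n 3 (.n 3 (.l 4) (.l 4)) (.n 3 (.l 4) (.l 4)))) (.n 3 (.n 2 (.n 3 (.l 4) (.l 4)) (.n 3 (.l 4) (.l 4))) (.n 3 (.n 1 (.l 4) (.l 4)) (.l 4))))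
    [(325897420800, 1761607680), (70866960384, 23622320128), (687194767360, 137438953472), (446676598784, 34359738368)] rfl (by decide +kernel)
end
mutual
theorem c1_m22_t18 : CovD 0 progs [(329420636160, 1761607680), (47244640256, 47244640256), (687194767360, 137438953472), (446676598784, 34359738368)] :=
  Pool.Agent.helper14.QF.covD_F chks_eq (.n 3 (.n 3 (.n 0 (.n 1 (.n 0 (.l 4) (.l 4)) (.n 2 (.l 4) (.l 4))) (.n 1 (.l 4) (.n 1 (.l 4) (.l 4)))) (.n 1 (.n 0 (.l 4) (.l 4)) (.n 2 (.l 4) (.n 0 (.l 4) (.l 4))))) (.n 1 (.n 3 (.n 0 (.l 4) (.l 4)) (.l 4)) (.n 2 (.n 3 (.l 4) (.l 4)) (.n 3 (.l 4) (.l 4)))))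
    [(329420636160, 1761607680), (47244640256, 47244640256), (687194767360, 137438953472), (446676598784, 34359738368)] rfl (by decide +kernel)
theorem c1_m22_t20 : CovD 0 progs [(334705459200, 3523215360), (47244640256, 47244640256), (687194767360, 137438953472), (446676598784, 34359738368)] :=
  Pool.Agent.helper14.QF.covD_F chks_eq (.n 0 (.n 3 (.n 1 (.n 3 (.n 0 (.l 4) (.l 4)) (.l 4)) (.n 2 (.n 3 (.l 4) (.l 4)) (.n 3 (.l 4) (.l 4)))) (.n 1 (.n 0 (.l 4) (.l 4)) (.n 3 (.l 4) (.l 4)))) (.n 1 (.n 3 (.n 0 (.l 4) (.l 4)) (.l 4)) (.n 3 (.n 3 (.l 4) (.l 4)) (.l 4))))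
    [(334705459200, 3523215360), (47244640256, 47244640256), (687194767360, 137438953472), (446676598784, 34359738368)] rfl (by decide +kernel)
end
mutual
theorem c1_m22_t23 : CovD 0 progs [(317089382400, 7046430720), (118111600640, 23622320128), (687194767360, 137438953472), (420906795008, 8589934592)] :=
  Pool.Agent.helper14.QF.covD_F chks_eq (.n 0 (.n 0 (.n 0 (.n 0 (.l 4) (.l 4)) (.n 2 (.l 4) (.l 4))) (.n 0 (.n 2 (.l 4) (.l 4)) (.n 2 (.l 4) (.n 0 (.l 4) (.l 4))))) (.n 0 (.n 0 (.n 1 (.n 2 (.l 4) (.l 4)) (.n 2 (.l 4) (.l 4))) (.n 2 (.l 4) (.n 1 (.l 4) (.l 4)))) (.n 1 (.n 2 (.l 4) (.l 4)) (.n 2 (.l 4) (.l 4)))))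
    [(317089382400, 7046430720), (118111600640, 23622320128), (687194767360, 137438953472), (420906795008, 8589934592)] rfl (by decide +kernel)
theorem c1_m22_t24 : CovD 0 progs [(317089382400, 7046430720), (165356240896, 23622320128), (687194767360, 137438953472), (420906795008, 8589934592)] :=
  Pool.Agent.helper14.QF.covD_F chks_eq (.n 0 (.n 0 (.n 0 (.n 2 (.l 4) (.l 4)) (.n 2 (.l 4) (.l 4))) (.n 0 (.n 2 (.l 4) (.n 0 (.l 4) (.l 4))) (.n 1 (.n 2 (.l 4) (.l 4)) (.n 2 (.l 4) (.l 4))))) (.n 0 (.n 0 (.n 1 (.n 2 (.l 4) (.l 4)) (.n 2 (.l 4) (.l 4))) (.n 1 (.n 2 (.l 4) (.l 4)) (.n 2 (.l 4) (.l 4)))) (.n 1 (.n 2 (.l 4) (.l 4)) (.n 2 (.l 4) (.l 4)))))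
    [(317089382400, 7046430720), (165356240896, 23622320128), (687194767360, 137438953472), (420906795008, 8589934592)] rfl (by decide +kernel)
end
mutual
theorem c1_m22_t26 : CovD 0 progs [(327659028480, 3523215360), (141733920768, 47244640256), (687194767360, 137438953472), (420906795008, 8589934592)] :=
  Pool.Agent.helper14.QF.covD_F chks_eq (.n 0 (.n 1 (.n 1 (.n 2 (.l 4) (.l 4)) (.n 2 (.l 4) (.l 4))) (.n 1 (.n 2 (.l 4) (.l 4)) (.n 2 (.l 4) (.l 4)))) (.n 1 (.n 0 (.n 2 (.l 4) (.n 0 (.l 4) (.l 4))) (.n 2 (.l 4) (.l 4))) (.n 2 (.n 0 (.l 4) (.l 4)) (.n 2 (.l 4) (.l 4)))))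
    [(327659028480, 3523215360), (141733920768, 47244640256), (687194767360, 137438953472), (420906795008, 8589934592)] rfl (by decide +kernel)
theorem c1_m22_t27 : CovD 0 progs [(334705459200, 3523215360), (141733920768, 47244640256), (687194767360, 137438953472), (420906795008, 8589934592)] :=
  Pool.Agent.helper14.QF.covD_F chks_eq (.n 0 (.n 0 (.n 1 (.n 2 (.l 4) (.l 4)) (.n 2 (.l 4) (.l 4))) (.n 2 (.l 4) (.n 1 (.l 4) (.l 4)))) (.n 1 (.n 1 (.l 4) (.l 4)) (.n 2 (.l 4) (.l 4))))
    [(334705459200, 3523215360), (141733920768, 47244640256), (687194767360, 137438953472), (420906795008, 8589934592)] rfl (by decide +kernel)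
end
mutual
theorem c1_m22_t30 : CovD 0 progs [(317089382400, 7046430720), (141733920768, 47244640256), (618475290624, 68719476736), (438086664192, 8589934592)] :=
  Pool.Agent.helper14.QF.covD_F chks_eq (.n 0 (.n 0 (.n 0 (.n 1 (.l 4) (.l 4)) (.n 1 (.l 4) (.l 4))) (.n 0 (.n 1 (.l 4) (.n 0 (.l 4) (.l 4))) (.n 0 (.n 1 (.l 4) (.l 4)) (.n 1 (.l 4) (.l 4))))) (.n 0 (.n 1 (.n 2 (.l 4) (.l 4)) (.n 2 (.l 4) (.l 4))) (.n 0 (.n 1 (.l 4) (.l 4)) (.n 1 (.l 4) (.l 4)))))
    [(317089382400, 7046430720), (141733920768, 47244640256), (618475290624, 68719476736), (438086664192, 8589934592)] rfl (by decide +kernel)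
theorem c1_m22_t31 : CovD 0 progs [(331182243840, 7046430720), (141733920768, 47244640256), (618475290624, 68719476736), (438086664192, 8589934592)] :=
  Pool.Agent.helper14.QF.covD_F chks_eq (.n 0 (.n 0 (.n 1 (.n 0 (.l 4) (.l 4)) (.n 2 (.l 4) (.l 4))) (.n 0 (.n 1 (.l 4) (.l 4)) (.n 1 (.l 4) (.l 4)))) (.n 0 (.n 0 (.l 4) (.l 4)) (.l 4)))
    [(331182243840, 7046430720), (141733920768, 47244640256), (618475290624, 68719476736), (438086664192, 8589934592)] rfl (by decide +kernel)
end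
mutual
theorem c1_m22_t33 : CovD 0 progs [(317089382400, 7046430720), (141733920768, 47244640256), (755914244096, 68719476736), (438086664192, 8589934592)] :=
  Pool.Agent.helper14.QF.covD_F chks_eq (.n 0 (.n 0 (.n 0 (.n 1 (.l 4) (.l 4)) (.n 0 (.n 1 (.l 4) (.l 4)) (.n 1 (.l 4) (.l 4)))) (.n 0 (.n 1 (.n 0 (.l 4) (.l 4)) (.n 1 (.l 4) (.l 4))) (.n 1 (.n 1 (.l 4) (.l 4)) (.n 1 (.l 4) (.l 4))))) (.n 0 (.n 1 (.n 0 (.n 1 (.l 4) (.l 4)) (.n 1 (.l 4) (.l 4))) (.n 2 (.l 4) (.l 4))) (.n 1 (.n 1 (.l 4) (.l 4)) (.n 1 (.l 4) (.l 4)))))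
    [(317089382400, 7046430720), (141733920768, 47244640256), (755914244096, 68719476736), (438086664192, 8589934592)] rfl (by decide +kernel)
theorem c1_m22_t34 : CovD 0 progs [(331182243840, 7046430720), (141733920768, 47244640256), (755914244096, 68719476736), (438086664192, 8589934592)] :=
  Pool.Agent.helper14.QF.covD_F chks_eq (.n 0 (.n 0 (.n 1 (.n 0 (.n 0 (.l 4) (.l 4)) (.n 0 (.l 4) (.l 4))) (.n 2 (.l 4) (.l 4))) (.n 1 (.n 0 (.l 4) (.l 4)) (.n 1 (.l 4) (.l 4)))) (.n 0 (.n 1 (.l 4) (.n 0 (.l 4) (.l 4))) (.n 0 (.l 4) (.l 4))))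
    [(331182243840, 7046430720), (141733920768, 47244640256), (755914244096, 68719476736), (438086664192, 8589934592)] rfl (by decide +kernel)
end
mutual
theorem c1_m22_t38 : CovD 0 progs [(317089382400, 7046430720), (141733920768, 47244640256), (618475290624, 68719476736), (455266533376, 8589934592)] :=
  Pool.Agent.helper14.QF.covD_F chks_eq (.n 0 (.n 0 (.n 0 (.n 1 (.l 4) (.n 0 (.l 4) (.l 4))) (.n 0 (.n 1 (.l 4) (.l 4)) (.n 1 (.l 4) (.l 4)))) (.n 0 (.n 1 (.n 0 (.l 4) (.l 4)) (.n 1 (.l 4) (.l 4))) (.n 1 (.l 4) (.n 0 (.l 4) (.l 4))))) (.n 0 (.n 1 (.l 4) (.n 0 (.l 4) (.l 4))) (.n 1 (.n 0 (.l 4) (.l 4)) (.n 2 (.l 4) (.l 4)))))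
    [(317089382400, 7046430720), (141733920768, 47244640256), (618475290624, 68719476736), (455266533376, 8589934592)] rfl (by decide +kernel)
theorem c1_m22_t39 : CovD 0 progs [(331182243840, 7046430720), (141733920768, 47244640256), (618475290624, 68719476736), (455266533376, 8589934592)] :=
  Pool.Agent.helper14.QF.covD_F chks_eq (.n 0 (.n 0 (.n 0 (.n 1 (.l 4) (.l 4)) (.n 1 (.l 4) (.l 4))) (.n 1 (.l 4) (.l 4))) (.n 0 (.l 4) (.l 4)))
    [(331182243840, 7046430720), (141733920768, 47244640256), (618475290624, 68719476736), (455266533376, 8589934592)] rfl (by decide +kernel)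
end
mutual
theorem c1_m22_t41 : CovD 0 progs [(324135813120, 14092861440), (141733920768, 47244640256), (721554505728, 34359738368), (455266533376, 8589934592)] :=
  Pool.Agent.helper14.QF.covD_F chks_eq (.n 0 (.n 0 (.n 0 (.n 0 (.n 1 (.l 4) (.l 4)) (.n 1 (.l 4) (.l 4))) (.n 0 (.n 1 (.l 4) (.l 4)) (.n 1 (.l 4) (.l 4)))) (.n 0 (.n 1 (.l 4) (.l 4)) (.n 1 (.n 0 (.l 4) (.l 4)) (.l 4)))) (.n 0 (.n 0 (.n 1 (.l 4) (.l 4)) (.n 0 (.l 4) (.l 4))) (.n 0 (.l 4) (.l 4))))
    [(324135813120, 14092861440), (141733920768, 47244640256), (721554505728, 34359738368), (455266533376, 8589934592)] rfl (by decide +kernel)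
theorem c1_m22_t42 : CovD 0 progs [(324135813120, 14092861440), (141733920768, 47244640256), (790273982464, 34359738368), (455266533376, 8589934592)] :=
  Pool.Agent.helper14.QF.covD_F chks_eq (.n 0 (.n 0 (.n 0 (.n 0 (.n 1 (.l 4) (.l 4)) (.n 1 (.l 4) (.l 4))) (.n 0 (.n 1 (.l 4) (.l 4)) (.n 1 (.l 4) (.l 4)))) (.n 0 (.n 1 (.l 4) (.l 4)) (.n 1 (.n 0 (.l 4) (.l 4)) (.l 4)))) (.n 0 (.n 0 (.n 1 (.n 0 (.l 4) (.l 4)) (.l 4)) (.n 1 (.l 4) (.l 4))) (.n 0 (.l 4) (.l 4))))
    [(324135813120, 14092861440), (141733920768, 47244640256), (790273982464, 34359738368), (455266533376, 8589934592)] rfl (by decide +kernel)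
end
mutual
theorem c1_m22_t45 : CovD 0 progs [(313566167040, 3523215360), (141733920768, 47244640256), (687194767360, 137438953472), (472446402560, 8589934592)] :=
  Pool.Agent.helper14.QF.covD_F chks_eq (.n 0 (.n 0 (.n 1 (.n 1 (.n 2 (.l 4) (.l 4)) (.n 2 (.l 4) (.l 4))) (.n 1 (.n 2 (.l 4) (.l 4)) (.n 2 (.l 4) (.l 4)))) (.n 1 (.n 1 (.n 2 (.l 4) (.l 4)) (.n 2 (.l 4) (.l 4))) (.n 1 (.n 2 (.l 4) (.l 4)) (.n 2 (.l 4) (.l 4))))) (.n 1 (.n 1 (.n 2 (.l 4) (.l 4)) (.n 2 (.l 4) (.l 4))) (.n 1 (.n 2 (.l 4) (.l 4)) (.n 2 (.l 4) (.l 4)))))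
    [(313566167040, 3523215360), (141733920768, 47244640256), (687194767360, 137438953472), (472446402560, 8589934592)] rfl (by decide +kernel)
theorem c1_m22_t46 : CovD 0 progs [(320612597760, 3523215360), (141733920768, 47244640256), (687194767360, 137438953472), (472446402560, 8589934592)] :=
  Pool.Agent.helper14.QF.covD_F chks_eq (.n 0 (.n 1 (.n 0 (.n 2 (.l 4) (.n 1 (.l 4) (.l 4))) (.n 2 (.l 4) (.n 1 (.l 4) (.l 4)))) (.n 2 (.n 2 (.l 4) (.l 4)) (.n 2 (.l 4) (.l 4)))) (.n 0 (.n 1 (.n 2 (.l 4) (.n 0 (.l 4) (.l 4))) (.n 1 (.n 2 (.l 4) (.l 4)) (.n 2 (.l 4) (.l 4)))) (.n 1 (.n 2 (.l 4) (.l 4)) (.n 2 (.l 4) (.n 0 (.l 4) (.l 4))))))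
    [(320612597760, 3523215360), (141733920768, 47244640256), (687194767360, 137438953472), (472446402560, 8589934592)] rfl (by decide +kernel)
theorem c1_m22_t48 : CovD 0 progs [(331182243840, 7046430720), (141733920768, 47244640256), (687194767360, 137438953472), (472446402560, 8589934592)] :=
  Pool.Agent.helper14.QF.covD_F chks_eq (.n 0 (.n 0 (.n 0 (.n 1 (.n 2 (.l 4) (.l 4)) (.n 2 (.l 4) (.l 4))) (.n 1 (.n 1 (.l 4) (.l 4)) (.n 2 (.l 4) (.l 4)))) (.n 1 (.n 2 (.l 4) (.l 4)) (.n 2 (.l 4) (.l 4)))) (.n 0 (.n 1 (.l 4) (.n 0 (.l 4) (.l 4))) (.n 0 (.l 4) (.l 4))))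
    [(331182243840, 7046430720), (141733920768, 47244640256), (687194767360, 137438953472), (472446402560, 8589934592)] rfl (by decide +kernel)
end
theorem c1_m22_t2 : CovD 0 progs [(311804559360, 1761607680), (47244640256, 47244640256), (687194767360, 137438953472), (446676598784, 34359738368)] :=
  covD_split 0 (by decide +kernel) c1_m22_t0 c1_m22_t1
theorem c1_m22_t5 : CovD 0 progs [(315327774720, 1761607680), (47244640256, 47244640256), (687194767360, 137438953472), (446676598784, 34359738368)] :=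
  covD_split 0 (by decide +kernel) c1_m22_t3 c1_m22_t4
theorem c1_m22_t6 : CovD 0 progs [(313566167040, 3523215360), (47244640256, 47244640256), (687194767360, 137438953472), (446676598784, 34359738368)] :=
  covD_split 0 (by decide +kernel) c1_m22_t2 c1_m22_t5
theorem c1_m22_t9 : CovD 0 progs [(318850990080, 1761607680), (47244640256, 47244640256), (687194767360, 137438953472), (446676598784, 34359738368)] :=
  covD_split 0 (by decide +kernel) c1_m22_t7 c1_m22_t8
theorem c1_m22_t12 : CovD 0 progs [(322374205440, 1761607680), (47244640256, 47244640256), (687194767360, 137438953472), (446676598784, 34359738368)] :=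
  covD_split 0 (by decide +kernel) c1_m22_t10 c1_m22_t11
theorem c1_m22_t13 : CovD 0 progs [(320612597760, 3523215360), (47244640256, 47244640256), (687194767360, 137438953472), (446676598784, 34359738368)] :=
  covD_split 0 (by decide +kernel) c1_m22_t9 c1_m22_t12
theorem c1_m22_t14 : CovD 0 progs [(317089382400, 7046430720), (47244640256, 47244640256), (687194767360, 137438953472), (446676598784, 34359738368)] :=
  covD_split 0 (by decide +kernel) c1_m22_t6 c1_m22_t13
theorem c1_m22_t17 : CovD 0 progs [(325897420800, 1761607680), (47244640256, 47244640256), (687194767360, 137438953472), (446676598784, 34359738368)] :=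
  covD_split 1 (by decide +kernel) c1_m22_t15 c1_m22_t16
theorem c1_m22_t19 : CovD 0 progs [(327659028480, 3523215360), (47244640256, 47244640256), (687194767360, 137438953472), (446676598784, 34359738368)] :=
  covD_split 0 (by decide +kernel) c1_m22_t17 c1_m22_t18
theorem c1_m22_t21 : CovD 0 progs [(331182243840, 7046430720), (47244640256, 47244640256), (687194767360, 137438953472), (446676598784, 34359738368)] :=
  covD_split 0 (by decide +kernel) c1_m22_t19 c1_m22_t20
theorem c1_m22_t22 : CovD 0 progs [(324135813120, 14092861440), (47244640256, 47244640256), (687194767360, 137438953472), (446676598784, 34359738368)] :=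
  covD_split 0 (by decide +kernel) c1_m22_t14 c1_m22_t21
theorem c1_m22_t25 : CovD 0 progs [(317089382400, 7046430720), (141733920768, 47244640256), (687194767360, 137438953472), (420906795008, 8589934592)] :=
  covD_split 1 (by decide +kernel) c1_m22_t23 c1_m22_t24
theorem c1_m22_t28 : CovD 0 progs [(331182243840, 7046430720), (141733920768, 47244640256), (687194767360, 137438953472), (420906795008, 8589934592)] :=
  covD_split 0 (by decide +kernel) c1_m22_t26 c1_m22_t27
theorem c1_m22_t29 : CovD 0 progs [(324135813120, 14092861440), (141733920768, 47244640256), (687194767360, 137438953472), (420906795008, 8589934592)] :=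
  covD_split 0 (by decide +kernel) c1_m22_t25 c1_m22_t28
theorem c1_m22_t32 : CovD 0 progs [(324135813120, 14092861440), (141733920768, 47244640256), (618475290624, 68719476736), (438086664192, 8589934592)] :=
  covD_split 0 (by decide +kernel) c1_m22_t30 c1_m22_t31
theorem c1_m22_t35 : CovD 0 progs [(324135813120, 14092861440), (141733920768, 47244640256), (755914244096, 68719476736), (438086664192, 8589934592)] :=
  covD_split 0 (by decide +kernel) c1_m22_t33 c1_m22_t34
theorem c1_m22_t36 : CovD 0 progs [(324135813120, 14092861440), (141733920768, 47244640256), (687194767360, 137438953472), (438086664192, 8589934592)] :=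
  covD_split 2 (by decide +kernel) c1_m22_t32 c1_m22_t35
theorem c1_m22_t37 : CovD 0 progs [(324135813120, 14092861440), (141733920768, 47244640256), (687194767360, 137438953472), (429496729600, 17179869184)] :=
  covD_split 3 (by decide +kernel) c1_m22_t29 c1_m22_t36
theorem c1_m22_t40 : CovD 0 progs [(324135813120, 14092861440), (141733920768, 47244640256), (618475290624, 68719476736), (455266533376, 8589934592)] :=
  covD_split 0 (by decide +kernel) c1_m22_t38 c1_m22_t39
theorem c1_m22_t43 : CovD 0 progs [(324135813120, 14092861440), (141733920768, 47244640256), (755914244096, 68719476736), (455266533376, 8589934592)] :=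
  covD_split 2 (by decide +kernel) c1_m22_t41 c1_m22_t42
theorem c1_m22_t44 : CovD 0 progs [(324135813120, 14092861440), (141733920768, 47244640256), (687194767360, 137438953472), (455266533376, 8589934592)] :=
  covD_split 2 (by decide +kernel) c1_m22_t40 c1_m22_t43
theorem c1_m22_t47 : CovD 0 progs [(317089382400, 7046430720), (141733920768, 47244640256), (687194767360, 137438953472), (472446402560, 8589934592)] :=
  covD_split 0 (by decide +kernel) c1_m22_t45 c1_m22_t46
theorem c1_m22_t49 : CovD 0 progs [(324135813120, 14092861440), (141733920768, 47244640256), (687194767360, 137438953472), (472446402560, 8589934592)] :=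
  covD_split 0 (by decide +kernel) c1_m22_t47 c1_m22_t48
theorem c1_m22_t50 : CovD 0 progs [(324135813120, 14092861440), (141733920768, 47244640256), (687194767360, 137438953472), (463856467968, 17179869184)] :=
  covD_split 3 (by decide +kernel) c1_m22_t44 c1_m22_t49
theorem c1_m22_t51 : CovD 0 progs [(324135813120, 14092861440), (141733920768, 47244640256), (687194767360, 137438953472), (446676598784, 34359738368)] :=
  covD_split 3 (by decide +kernel) c1_m22_t37 c1_m22_t50
theorem c1_m22 : CovD 0 progs [(324135813120, 14092861440), (94489280512, 94489280512), (687194767360, 137438953472), (446676598784, 34359738368)] :=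
  covD_split 1 (by decide +kernel) c1_m22_t22 c1_m22_t51

end Pool.Agent.helper71.FJ.Crt.QMa
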