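import Pool.Agent.helper71.FJ.Crt.QMaP

/-!
Generated certificates.
-/

namespace Pool.Agent.helper71.FJ.Crt.QMa

open Pool.Agent.helper31.IA (Z Op)
open Pool.Agent.helper31.IC

mutual
theorem c1_m23_t0 : CovD 0 progs [(324135813120, 14092861440), (23622320128, 23622320128), (962072674304, 137438953472), (446676598784, 34359738368)] :=
  Pool.Agent.helper14.QF.covD_F chks_eq (.n 2 (.n 2 (.n 0 (.l 6) (.n 3 (.n 3 (.n 0 (.n 0 (.l 4) (.l 4)) (.n 0 (.l 4) (.l 4))) (.n 0 (.n 0 (.n 0 (.l 4) (.l 4)) (.l 4)) (.n 0 (.l 4) (.l 4)))) (.n 3 (.n 0 (.n 0 (.n 0 (.l 4) (.l 4)) (.l 4)) (.n 0 (.l 4) (.l 4))) (.n 0 (.n 0 (.l 4) (.l 4)) (.l 4))))) (.l 6)) (.l 6))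
    [(324135813120, 14092861440), (23622320128, 23622320128), (962072674304, 137438953472), (446676598784, 34359738368)] rfl (by decide +kernel)
theorem c1_m23_t1 : CovD 0 progs [(313566167040, 3523215360), (70866960384, 23622320128), (962072674304, 137438953472), (446676598784, 34359738368)] :=
  Pool.Agent.helper14.QF.covD_F chks_eq (.n 2 (.n 2 (.n 1 (.l 6) (.n 0 (.n 1 (.l 6) (.n 3 (.n 3 (.l 4) (.l 4)) (.n 3 (.l 4) (.l 4)))) (.n 2 (.n 3 (.n 3 (.l 4) (.n 0 (.l 4) (.l 4))) (.n 3 (.l 4) (.l 4))) (.l 6)))) (.l 6)) (.l 6))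
    [(313566167040, 3523215360), (70866960384, 23622320128), (962072674304, 137438953472), (446676598784, 34359738368)] rfl (by decide +kernel)
end
mutual
theorem c1_m23_t2 : CovD 0 progs [(320612597760, 3523215360), (70866960384, 23622320128), (962072674304, 137438953472), (446676598784, 34359738368)] :=
  Pool.Agent.helper14.QF.covD_F chks_eq (.n 2 (.n 2 (.n 0 (.n 3 (.n 0 (.n 3 (.l 4) (.l 4)) (.n 1 (.l 4) (.l 4))) (.n 3 (.l 4) (.n 0 (.l 4) (.l 4)))) (.n 1 (.n 3 (.l 4) (.n 3 (.l 4) (.l 4))) (.n 3 (.l 4) (.n 3 (.l 4) (.l 4))))) (.l 6)) (.l 6))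
    [(320612597760, 3523215360), (70866960384, 23622320128), (962072674304, 137438953472), (446676598784, 34359738368)] rfl (by decide +kernel)
theorem c1_m23_t4 : CovD 0 progs [(327659028480, 3523215360), (70866960384, 23622320128), (962072674304, 137438953472), (446676598784, 34359738368)] :=
  Pool.Agent.helper14.QF.covD_F chks_eq (.n 0 (.n 2 (.n 2 (.n 3 (.n 0 (.n 1 (.l 4) (.l 4)) (.n 1 (.l 4) (.l 4))) (.n 3 (.n 0 (.l 4) (.l 4)) (.l 4))) (.n 1 (.l 6) (.l 6))) (.l 6)) (.n 2 (.n 3 (.n 0 (.n 3 (.n 0 (.l 4) (.l 4)) (.l 4)) (.n 3 (.l 4) (.l 4))) (.n 3 (.n 0 (.l 4) (.l 4)) (.l 4))) (.l 6)))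
    [(327659028480, 3523215360), (70866960384, 23622320128), (962072674304, 137438953472), (446676598784, 34359738368)] rfl (by decide +kernel)
end
mutual
theorem c1_m23_t5 : CovD 0 progs [(334705459200, 3523215360), (70866960384, 23622320128), (962072674304, 137438953472), (446676598784, 34359738368)] :=
  Pool.Agent.helper14.QF.covD_F chks_eq (.n 2 (.n 0 (.n 3 (.n 3 (.n 0 (.l 4) (.l 4)) (.l 4)) (.n 0 (.l 4) (.l 4))) (.n 3 (.n 0 (.l 4) (.l 4)) (.l 4))) (.l 6))
    [(334705459200, 3523215360), (70866960384, 23622320128), (962072674304, 137438953472), (446676598784, 34359738368)] rfl (by decide +kernel)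
theorem c1_m23_t9 : CovD 0 progs [(317089382400, 7046430720), (106300440576, 11811160064), (962072674304, 137438953472), (446676598784, 34359738368)] :=
  Pool.Agent.helper14.QF.covD_F chks_eq (.n 0 (.n 2 (.n 2 (.n 0 (.n 3 (.n 3 (.l 4) (.l 4)) (.n 2 (.n 3 (.l 4) (.l 4)) (.l 6))) (.n 3 (.n 3 (.l 4) (.l 4)) (.n 3 (.l 4) (.l 4)))) (.l 6)) (.l 6)) (.n 2 (.n 3 (.n 3 (.n 0 (.n 0 (.l 4) (.l 4)) (.l 4)) (.n 2 (.l 4) (.l 4))) (.n 0 (.n 0 (.l 4) (.n 1 (.l 4) (.l 4))) (.n 0 (.n 2 (.l 4) (.l 4)) (.n 3 (.l 4) (.l 4))))) (.l 6)))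
    [(317089382400, 7046430720), (106300440576, 11811160064), (962072674304, 137438953472), (446676598784, 34359738368)] rfl (by decide +kernel)
end
mutual
theorem c1_m23_t10 : CovD 0 progs [(331182243840, 7046430720), (106300440576, 11811160064), (962072674304, 137438953472), (429496729600, 17179869184)] :=
  Pool.Agent.helper14.QF.covD_F chks_eq (.n 3 (.n 0 (.n 2 (.n 0 (.l 4) (.n 0 (.l 4) (.l 4))) (.l 6)) (.n 0 (.n 2 (.l 4) (.l 4)) (.n 0 (.l 4) (.l 4)))) (.n 0 (.n 2 (.n 0 (.n 0 (.l 4) (.l 4)) (.l 4)) (.l 6)) (.n 0 (.n 2 (.l 4) (.l 4)) (.l 4))))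
    [(331182243840, 7046430720), (106300440576, 11811160064), (962072674304, 137438953472), (429496729600, 17179869184)] rfl (by decide +kernel)
theorem c1_m23_t11 : CovD 0 progs [(331182243840, 7046430720), (106300440576, 11811160064), (962072674304, 137438953472), (463856467968, 17179869184)] :=
  Pool.Agent.helper14.QF.covD_F chks_eq (.n 3 (.n 0 (.n 2 (.n 0 (.n 0 (.l 4) (.l 4)) (.l 4)) (.l 6)) (.n 0 (.n 0 (.l 4) (.l 4)) (.l 4))) (.n 0 (.n 2 (.n 0 (.l 4) (.l 4)) (.l 6)) (.n 0 (.l 4) (.l 4))))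
    [(331182243840, 7046430720), (106300440576, 11811160064), (962072674304, 137438953472), (463856467968, 17179869184)] rfl (by decide +kernel)
end
mutual
theorem c1_m23_t14 : CovD 0 progs [(313566167040, 3523215360), (129922760704, 11811160064), (962072674304, 137438953472), (446676598784, 34359738368)] :=
  Pool.Agent.helper14.QF.covD_F chks_eq (.n 2 (.n 0 (.n 3 (.n 3 (.l 4) (.n 0 (.l 4) (.l 4))) (.n 0 (.n 3 (.l 4) (.l 4)) (.n 3 (.l 4) (.l 4)))) (.n 2 (.n 3 (.n 3 (.l 4) (.l 4)) (.n 0 (.l 4) (.l 4))) (.n 3 (.n 0 (.l 4) (.l 4)) (.l 4)))) (.l 6))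
    [(313566167040, 3523215360), (129922760704, 11811160064), (962072674304, 137438953472), (446676598784, 34359738368)] rfl (by decide +kernel)
theorem c1_m23_t15 : CovD 0 progs [(320612597760, 3523215360), (129922760704, 11811160064), (962072674304, 137438953472), (446676598784, 34359738368)] :=
  Pool.Agent.helper14.QF.covD_F chks_eq (.n 2 (.n 0 (.n 2 (.n 3 (.n 0 (.l 4) (.l 4)) (.l 4)) (.n 3 (.n 0 (.l 4) (.l 4)) (.l 4))) (.n 0 (.n 3 (.l 4) (.n 1 (.l 4) (.l 4))) (.n 3 (.l 4) (.n 2 (.l 4) (.l 4))))) (.l 6))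
    [(320612597760, 3523215360), (129922760704, 11811160064), (962072674304, 137438953472), (446676598784, 34359738368)] rfl (by decide +kernel)
end
mutual
theorem c1_m23_t17 : CovD 0 progs [(327659028480, 3523215360), (129922760704, 11811160064), (962072674304, 137438953472), (446676598784, 34359738368)] :=
  Pool.Agent.helper14.QF.covD_F chks_eq (.n 0 (.n 2 (.n 3 (.n 2 (.n 0 (.l 4) (.l 4)) (.l 4)) (.n 3 (.n 0 (.l 4) (.l 4)) (.l 4))) (.n 1 (.l 6) (.n 0 (.l 6) (.n 3 (.l 4) (.l 4))))) (.n 2 (.n 3 (.n 3 (.l 4) (.l 4)) (.n 0 (.l 4) (.l 4))) (.n 2 (.n 3 (.l 4) (.l 4)) (.l 6))))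
    [(327659028480, 3523215360), (129922760704, 11811160064), (962072674304, 137438953472), (446676598784, 34359738368)] rfl (by decide +kernel)
theorem c1_m23_t18 : CovD 0 progs [(334705459200, 3523215360), (129922760704, 11811160064), (962072674304, 137438953472), (446676598784, 34359738368)] :=
  Pool.Agent.helper14.QF.covD_F chks_eq (.n 0 (.n 2 (.n 0 (.n 3 (.l 4) (.l 4)) (.n 3 (.l 4) (.l 4))) (.n 2 (.n 3 (.l 4) (.l 4)) (.l 6))) (.n 2 (.n 3 (.n 0 (.l 4) (.l 4)) (.l 4)) (.n 3 (.l 4) (.l 4))))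
    [(334705459200, 3523215360), (129922760704, 11811160064), (962072674304, 137438953472), (446676598784, 34359738368)] rfl (by decide +kernel)
end
mutual
theorem c1_m23_t22 : CovD 0 progs [(313566167040, 3523215360), (165356240896, 23622320128), (893353197568, 68719476736), (446676598784, 34359738368)] :=
  Pool.Agent.helper14.QF.covD_F chks_eq (.n 0 (.n 1 (.n 3 (.n 3 (.l 4) (.n 0 (.l 4) (.l 4))) (.n 0 (.n 2 (.l 4) (.l 4)) (.n 2 (.l 4) (.l 4)))) (.n 3 (.n 3 (.l 4) (.n 0 (.l 4) (.l 4))) (.n 2 (.n 0 (.l 4) (.l 4)) (.l 4)))) (.n 1 (.n 2 (.n 3 (.n 0 (.l 4) (.l 4)) (.l 4)) (.n 3 (.n 0 (.l 4) (.l 4)) (.l 4))) (.n 2 (.n 3 (.n 0 (.l 4) (.l 4)) (.l 4)) (.n 3 (.l 4) (.l 4)))))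
    [(313566167040, 3523215360), (165356240896, 23622320128), (893353197568, 68719476736), (446676598784, 34359738368)] rfl (by decide +kernel)
theorem c1_m23_t23 : CovD 0 progs [(313566167040, 3523215360), (165356240896, 23622320128), (1030792151040, 68719476736), (446676598784, 34359738368)] :=
  Pool.Agent.helper14.QF.covD_F chks_eq (.n 2 (.n 1 (.l 6) (.n 0 (.n 3 (.l 4) (.l 4)) (.n 3 (.l 4) (.l 4)))) (.l 6))
    [(313566167040, 3523215360), (165356240896, 23622320128), (1030792151040, 68719476736), (446676598784, 34359738368)] rfl (by decide +kernel)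
end
mutual
theorem c1_m23_t25 : CovD 0 progs [(320612597760, 3523215360), (153545080832, 11811160064), (962072674304, 137438953472), (446676598784, 34359738368)] :=
  Pool.Agent.helper14.QF.covD_F chks_eq (.n 2 (.n 0 (.n 2 (.n 3 (.n 0 (.l 4) (.l 4)) (.l 4)) (.n 3 (.l 4) (.l 4))) (.n 2 (.n 3 (.l 4) (.n 0 (.l 4) (.l 4))) (.n 3 (.l 4) (.l 4)))) (.n 2 (.n 0 (.n 1 (.l 6) (.l 4)) (.n 3 (.l 4) (.l 4))) (.l 6)))
    [(320612597760, 3523215360), (153545080832, 11811160064), (962072674304, 137438953472), (446676598784, 34359738368)] rfl (by decide +kernel)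
theorem c1_m23_t26 : CovD 0 progs [(320612597760, 3523215360), (177167400960, 11811160064), (962072674304, 137438953472), (446676598784, 34359738368)] :=
  Pool.Agent.helper14.QF.covD_F chks_eq (.n 0 (.n 2 (.n 2 (.n 3 (.l 4) (.l 4)) (.n 1 (.l 4) (.l 4))) (.n 2 (.l 4) (.l 4))) (.n 2 (.n 3 (.l 4) (.n 2 (.l 4) (.l 4))) (.n 3 (.l 4) (.n 0 (.l 4) (.l 4)))))
    [(320612597760, 3523215360), (177167400960, 11811160064), (962072674304, 137438953472), (446676598784, 34359738368)] rfl (by decide +kernel)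
end
mutual
theorem c1_m23_t29 : CovD 0 progs [(325897420800, 1761607680), (165356240896, 23622320128), (962072674304, 137438953472), (446676598784, 34359738368)] :=
  Pool.Agent.helper14.QF.covD_F chks_eq (.n 1 (.n 2 (.n 3 (.n 2 (.l 4) (.l 4)) (.n 3 (.l 4) (.l 4))) (.n 2 (.n 3 (.l 4) (.l 4)) (.l 6))) (.n 2 (.n 3 (.n 2 (.l 4) (.l 4)) (.n 3 (.l 4) (.l 4))) (.n 0 (.n 3 (.l 4) (.l 4)) (.n 3 (.l 4) (.l 4)))))
    [(325897420800, 1761607680), (165356240896, 23622320128), (962072674304, 137438953472), (446676598784, 34359738368)] rfl (by decide +kernel)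
theorem c1_m23_t30 : CovD 0 progs [(329420636160, 1761607680), (165356240896, 23622320128), (962072674304, 137438953472), (446676598784, 34359738368)] :=
  Pool.Agent.helper14.QF.covD_F chks_eq (.n 1 (.n 2 (.n 3 (.n 3 (.l 4) (.l 4)) (.n 0 (.l 4) (.l 4))) (.n 0 (.n 3 (.l 4) (.l 4)) (.n 3 (.l 4) (.l 4)))) (.n 2 (.n 2 (.n 3 (.l 4) (.l 4)) (.n 3 (.l 4) (.l 4))) (.n 0 (.n 3 (.l 4) (.l 4)) (.n 3 (.l 4) (.l 4)))))
    [(329420636160, 1761607680), (165356240896, 23622320128), (962072674304, 137438953472), (446676598784, 34359738368)] rfl (by decide +kernel)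
theorem c1_m23_t32 : CovD 0 progs [(334705459200, 3523215360), (165356240896, 23622320128), (962072674304, 137438953472), (446676598784, 34359738368)] :=
  Pool.Agent.helper14.QF.covD_F chks_eq (.n 0 (.n 1 (.n 2 (.n 3 (.n 0 (.l 4) (.l 4)) (.l 4)) (.n 3 (.n 0 (.l 4) (.l 4)) (.l 4))) (.n 2 (.n 3 (.n 0 (.l 4) (.l 4)) (.l 4)) (.n 3 (.n 0 (.l 4) (.l 4)) (.l 4)))) (.n 2 (.n 3 (.n 1 (.l 4) (.l 4)) (.l 4)) (.n 1 (.n 3 (.l 4) (.l 4)) (.n 3 (.l 4) (.l 4)))))
    [(334705459200, 3523215360), (165356240896, 23622320128), (962072674304, 137438953472), (446676598784, 34359738368)] rfl (by decide +kernel)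
end
theorem c1_m23_t3 : CovD 0 progs [(317089382400, 7046430720), (70866960384, 23622320128), (962072674304, 137438953472), (446676598784, 34359738368)] :=
  covD_split 0 (by decide +kernel) c1_m23_t1 c1_m23_t2
theorem c1_m23_t6 : CovD 0 progs [(331182243840, 7046430720), (70866960384, 23622320128), (962072674304, 137438953472), (446676598784, 34359738368)] :=
  covD_split 0 (by decide +kernel) c1_m23_t4 c1_m23_t5
theorem c1_m23_t7 : CovD 0 progs [(324135813120, 14092861440), (70866960384, 23622320128), (962072674304, 137438953472), (446676598784, 34359738368)] :=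
  covD_split 0 (by decide +kernel) c1_m23_t3 c1_m23_t6
theorem c1_m23_t8 : CovD 0 progs [(324135813120, 14092861440), (47244640256, 47244640256), (962072674304, 137438953472), (446676598784, 34359738368)] :=
  covD_split 1 (by decide +kernel) c1_m23_t0 c1_m23_t7
theorem c1_m23_t12 : CovD 0 progs [(331182243840, 7046430720), (106300440576, 11811160064), (962072674304, 137438953472), (446676598784, 34359738368)] :=
  covD_split 3 (by decide +kernel) c1_m23_t10 c1_m23_t11
theorem c1_m23_t13 : CovD 0 progs [(324135813120, 14092861440), (106300440576, 11811160064), (962072674304, 137438953472), (446676598784, 34359738368)] :=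
  covD_split 0 (by decide +kernel) c1_m23_t9 c1_m23_t12
theorem c1_m23_t16 : CovD 0 progs [(317089382400, 7046430720), (129922760704, 11811160064), (962072674304, 137438953472), (446676598784, 34359738368)] :=
  covD_split 0 (by decide +kernel) c1_m23_t14 c1_m23_t15
theorem c1_m23_t19 : CovD 0 progs [(331182243840, 7046430720), (129922760704, 11811160064), (962072674304, 137438953472), (446676598784, 34359738368)] :=
  covD_split 0 (by decide +kernel) c1_m23_t17 c1_m23_t18
theorem c1_m23_t20 : CovD 0 progs [(324135813120, 14092861440), (129922760704, 11811160064), (962072674304, 137438953472), (446676598784, 34359738368)] :=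
  covD_split 0 (by decide +kernel) c1_m23_t16 c1_m23_t19
theorem c1_m23_t21 : CovD 0 progs [(324135813120, 14092861440), (118111600640, 23622320128), (962072674304, 137438953472), (446676598784, 34359738368)] :=
  covD_split 1 (by decide +kernel) c1_m23_t13 c1_m23_t20
theorem c1_m23_t24 : CovD 0 progs [(313566167040, 3523215360), (165356240896, 23622320128), (962072674304, 137438953472), (446676598784, 34359738368)] :=
  covD_split 2 (by decide +kernel) c1_m23_t22 c1_m23_t23
theorem c1_m23_t27 : CovD 0 progs [(320612597760, 3523215360), (165356240896, 23622320128), (962072674304, 137438953472), (446676598784, 34359738368)] :=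
  covD_split 1 (by decide +kernel) c1_m23_t25 c1_m23_t26
theorem c1_m23_t28 : CovD 0 progs [(317089382400, 7046430720), (165356240896, 23622320128), (962072674304, 137438953472), (446676598784, 34359738368)] :=
  covD_split 0 (by decide +kernel) c1_m23_t24 c1_m23_t27
theorem c1_m23_t31 : CovD 0 progs [(327659028480, 3523215360), (165356240896, 23622320128), (962072674304, 137438953472), (446676598784, 34359738368)] :=
  covD_split 0 (by decide +kernel) c1_m23_t29 c1_m23_t30
theorem c1_m23_t33 : CovD 0 progs [(331182243840, 7046430720), (165356240896, 23622320128), (962072674304, 137438953472), (446676598784, 34359738368)] :=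
  covD_split 0 (by decide +kernel) c1_m23_t31 c1_m23_t32
theorem c1_m23_t34 : CovD 0 progs [(324135813120, 14092861440), (165356240896, 23622320128), (962072674304, 137438953472), (446676598784, 34359738368)] :=
  covD_split 0 (by decide +kernel) c1_m23_t28 c1_m23_t33
theorem c1_m23_t35 : CovD 0 progs [(324135813120, 14092861440), (141733920768, 47244640256), (962072674304, 137438953472), (446676598784, 34359738368)] :=
  covD_split 1 (by decide +kernel) c1_m23_t21 c1_m23_t34
theorem c1_m23 : CovD 0 progs [(324135813120, 14092861440), (94489280512, 94489280512), (962072674304, 137438953472), (446676598784, 34359738368)] :=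
  covD_split 1 (by decide +kernel) c1_m23_t8 c1_m23_t35

end Pool.Agent.helper71.FJ.Crt.QMa
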