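import Pool.Agent.helper71.FJ.Crt.QMaP

/-!
Generated certificates.
-/

namespace Pool.Agent.helper71.FJ.Crt.QMa

open Pool.Agent.helper31.IA (Z Op)
open Pool.Agent.helper31.IC

mutual
theorem c1_m24_t0 : CovD 0 progs [(311804559360, 1761607680), (47244640256, 47244640256), (618475290624, 68719476736), (515396075520, 34359738368)] :=
  Pool.Agent.helper14.QF.covD_F chks_eq (.n 0 (.n 1 (.n 3 (.n 3 (.l 4) (.l 4)) (.n 3 (.l 4) (.l 4))) (.n 3 (.n 3 (.l 4) (.l 4)) (.n 3 (.l 4) (.l 4)))) (.n 1 (.n 3 (.l 4) (.n 3 (.l 4) (.l 4))) (.n 3 (.n 1 (.l 4) (.l 4)) (.n 3 (.l 4) (.l 4)))))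
    [(311804559360, 1761607680), (47244640256, 47244640256), (618475290624, 68719476736), (515396075520, 34359738368)] rfl (by decide +kernel)
theorem c1_m24_t1 : CovD 0 progs [(315327774720, 1761607680), (47244640256, 47244640256), (618475290624, 68719476736), (515396075520, 34359738368)] :=
  Pool.Agent.helper14.QF.covD_F chks_eq (.n 0 (.n 3 (.n 1 (.n 3 (.l 4) (.l 4)) (.n 3 (.l 4) (.l 4))) (.n 3 (.n 0 (.l 4) (.l 4)) (.l 4))) (.n 3 (.n 1 (.n 3 (.l 4) (.l 4)) (.n 3 (.l 4) (.l 4))) (.n 3 (.l 4) (.l 4))))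
    [(315327774720, 1761607680), (47244640256, 47244640256), (618475290624, 68719476736), (515396075520, 34359738368)] rfl (by decide +kernel)
end
mutual
theorem c1_m24_t3 : CovD 0 progs [(320612597760, 3523215360), (47244640256, 47244640256), (618475290624, 68719476736), (515396075520, 34359738368)] :=
  Pool.Agent.helper14.QF.covD_F chks_eq (.n 0 (.n 0 (.n 3 (.n 1 (.n 3 (.l 4) (.l 4)) (.n 3 (.l 4) (.l 4))) (.n 3 (.l 4) (.l 4))) (.n 3 (.n 3 (.n 0 (.l 4) (.l 4)) (.l 4)) (.n 3 (.l 4) (.l 4)))) (.n 0 (.n 3 (.n 3 (.l 4) (.l 4)) (.n 0 (.l 4) (.l 4))) (.n 3 (.n 3 (.l 4) (.l 4)) (.l 4))))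
    [(320612597760, 3523215360), (47244640256, 47244640256), (618475290624, 68719476736), (515396075520, 34359738368)] rfl (by decide +kernel)
theorem c1_m24_t5 : CovD 0 progs [(313566167040, 3523215360), (47244640256, 47244640256), (721554505728, 34359738368), (515396075520, 34359738368)] :=
  Pool.Agent.helper14.QF.covD_F chks_eq (.n 0 (.n 0 (.n 3 (.n 3 (.n 1 (.l 4) (.l 4)) (.l 4)) (.n 0 (.n 3 (.l 4) (.l 4)) (.n 3 (.l 4) (.l 4)))) (.n 3 (.n 1 (.l 4) (.l 4)) (.n 3 (.n 0 (.l 4) (.l 4)) (.l 4)))) (.n 0 (.n 3 (.n 3 (.l 4) (.n 0 (.l 4) (.l 4))) (.n 3 (.n 0 (.l 4) (.l 4)) (.l 4))) (.n 3 (.n 0 (.n 3 (.l 4) (.l 4)) (.n 3 (.l 4) (.l 4))) (.n 3 (.l 4) (.l 4)))))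
    [(313566167040, 3523215360), (47244640256, 47244640256), (721554505728, 34359738368), (515396075520, 34359738368)] rfl (by decide +kernel)
end
mutual
theorem c1_m24_t6 : CovD 0 progs [(320612597760, 3523215360), (47244640256, 47244640256), (721554505728, 34359738368), (515396075520, 34359738368)] :=
  Pool.Agent.helper14.QF.covD_F chks_eq (.n 0 (.n 0 (.n 3 (.n 3 (.n 0 (.l 4) (.l 4)) (.l 4)) (.n 3 (.l 4) (.l 4))) (.n 3 (.n 3 (.n 0 (.l 4) (.l 4)) (.l 4)) (.n 3 (.l 4) (.l 4)))) (.n 3 (.n 3 (.n 0 (.l 4) (.l 4)) (.l 4)) (.n 3 (.l 4) (.l 4))))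
    [(320612597760, 3523215360), (47244640256, 47244640256), (721554505728, 34359738368), (515396075520, 34359738368)] rfl (by decide +kernel)
theorem c1_m24_t8 : CovD 0 progs [(317089382400, 7046430720), (47244640256, 47244640256), (790273982464, 34359738368), (498216206336, 17179869184)] :=
  Pool.Agent.helper14.QF.covD_F chks_eq (.n 0 (.n 0 (.n 1 (.n 3 (.l 4) (.l 4)) (.n 3 (.n 0 (.l 4) (.l 4)) (.l 4))) (.n 1 (.n 3 (.l 4) (.n 0 (.l 4) (.l 4))) (.n 0 (.n 3 (.l 4) (.l 4)) (.n 3 (.l 4) (.l 4))))) (.n 0 (.n 0 (.n 1 (.n 3 (.l 4) (.l 4)) (.n 3 (.l 4) (.l 4))) (.n 3 (.n 0 (.l 4) (.l 4)) (.l 4))) (.n 0 (.n 3 (.n 0 (.l 4) (.l 4)) (.l 4)) (.n 3 (.l 4) (.l 4)))))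
    [(317089382400, 7046430720), (47244640256, 47244640256), (790273982464, 34359738368), (498216206336, 17179869184)] rfl (by decide +kernel)
end
mutual
theorem c1_m24_t9 : CovD 0 progs [(317089382400, 7046430720), (47244640256, 47244640256), (790273982464, 34359738368), (532575944704, 17179869184)] :=
  Pool.Agent.helper14.QF.covD_F chks_eq (.n 0 (.n 0 (.n 0 (.n 1 (.n 3 (.l 4) (.l 4)) (.n 3 (.l 4) (.l 4))) (.n 1 (.n 3 (.l 4) (.l 4)) (.n 3 (.l 4) (.l 4)))) (.n 0 (.n 3 (.n 1 (.l 4) (.l 4)) (.l 4)) (.n 3 (.n 0 (.l 4) (.l 4)) (.l 4)))) (.n 0 (.n 3 (.n 0 (.l 4) (.l 4)) (.l 4)) (.n 3 (.l 4) (.l 4))))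
    [(317089382400, 7046430720), (47244640256, 47244640256), (790273982464, 34359738368), (532575944704, 17179869184)] rfl (by decide +kernel)
theorem c1_m24_t13 : CovD 0 progs [(311804559360, 1761607680), (118111600640, 23622320128), (687194767360, 137438953472), (515396075520, 34359738368)] :=
  Pool.Agent.helper14.QF.covD_F chks_eq (.n 2 (.n 3 (.n 2 (.n 3 (.l 4) (.l 4)) (.n 3 (.l 4) (.l 4))) (.n 0 (.n 0 (.n 3 (.l 4) (.l 4)) (.n 3 (.l 4) (.l 4))) (.n 3 (.n 0 (.l 4) (.l 4)) (.l 4)))) (.n 2 (.n 3 (.n 1 (.l 4) (.l 4)) (.n 0 (.n 3 (.l 4) (.l 4)) (.n 3 (.l 4) (.l 4)))) (.n 3 (.n 1 (.l 4) (.l 4)) (.n 0 (.n 3 (.l 4) (.l 4)) (.n 3 (.l 4) (.l 4))))))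
    [(311804559360, 1761607680), (118111600640, 23622320128), (687194767360, 137438953472), (515396075520, 34359738368)] rfl (by decide +kernel)
end
mutual
theorem c1_m24_t14 : CovD 0 progs [(311804559360, 1761607680), (165356240896, 23622320128), (687194767360, 137438953472), (515396075520, 34359738368)] :=
  Pool.Agent.helper14.QF.covD_F chks_eq (.n 3 (.n 1 (.n 2 (.n 2 (.l 4) (.l 4)) (.n 2 (.l 4) (.l 4))) (.n 2 (.n 2 (.l 4) (.l 4)) (.n 2 (.l 4) (.l 4)))) (.n 0 (.n 1 (.n 2 (.n 3 (.l 4) (.l 4)) (.n 3 (.l 4) (.l 4))) (.n 2 (.n 3 (.l 4) (.l 4)) (.n 3 (.l 4) (.l 4)))) (.n 2 (.n 3 (.n 0 (.l 4) (.l 4)) (.l 4)) (.n 1 (.n 3 (.l 4) (.l 4)) (.n 3 (.l 4) (.l 4))))))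
    [(311804559360, 1761607680), (165356240896, 23622320128), (687194767360, 137438953472), (515396075520, 34359738368)] rfl (by decide +kernel)
theorem c1_m24_t16 : CovD 0 progs [(315327774720, 1761607680), (141733920768, 47244640256), (687194767360, 137438953472), (498216206336, 17179869184)] :=
  Pool.Agent.helper14.QF.covD_F chks_eq (.n 3 (.n 1 (.n 1 (.n 2 (.l 4) (.l 4)) (.n 2 (.l 4) (.l 4))) (.n 2 (.n 2 (.l 4) (.l 4)) (.n 2 (.l 4) (.l 4)))) (.n 0 (.n 1 (.n 2 (.l 4) (.n 1 (.l 4) (.l 4))) (.n 1 (.n 2 (.l 4) (.l 4)) (.n 2 (.l 4) (.l 4)))) (.n 1 (.n 2 (.l 4) (.n 1 (.l 4) (.l 4))) (.n 1 (.n 2 (.l 4) (.l 4)) (.n 2 (.l 4) (.l 4))))))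
    [(315327774720, 1761607680), (141733920768, 47244640256), (687194767360, 137438953472), (498216206336, 17179869184)] rfl (by decide +kernel)
end
mutual
theorem c1_m24_t17 : CovD 0 progs [(315327774720, 1761607680), (141733920768, 47244640256), (687194767360, 137438953472), (532575944704, 17179869184)] :=
  Pool.Agent.helper14.QF.covD_F chks_eq (.n 0 (.n 1 (.n 2 (.n 3 (.l 4) (.l 4)) (.n 3 (.n 0 (.l 4) (.l 4)) (.l 4))) (.n 2 (.n 3 (.n 0 (.l 4) (.l 4)) (.l 4)) (.n 3 (.n 1 (.l 4) (.l 4)) (.l 4)))) (.n 1 (.n 2 (.n 3 (.l 4) (.l 4)) (.n 3 (.l 4) (.l 4))) (.n 2 (.n 3 (.l 4) (.l 4)) (.n 3 (.n 0 (.l 4) (.l 4)) (.l 4)))))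
    [(315327774720, 1761607680), (141733920768, 47244640256), (687194767360, 137438953472), (532575944704, 17179869184)] rfl (by decide +kernel)
theorem c1_m24_t20 : CovD 0 progs [(317970186240, 880803840), (141733920768, 47244640256), (687194767360, 137438953472), (515396075520, 34359738368)] :=
  Pool.Agent.helper14.QF.covD_F chks_eq (.n 1 (.n 2 (.n 3 (.n 3 (.l 4) (.l 4)) (.n 3 (.l 4) (.l 4))) (.n 3 (.n 1 (.n 3 (.l 4) (.l 4)) (.n 3 (.l 4) (.l 4))) (.n 3 (.l 4) (.l 4)))) (.n 2 (.n 3 (.n 3 (.n 0 (.l 4) (.l 4)) (.l 4)) (.n 3 (.l 4) (.l 4))) (.n 3 (.n 1 (.n 3 (.l 4) (.l 4)) (.n 3 (.l 4) (.l 4))) (.n 3 (.l 4) (.l 4)))))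
    [(317970186240, 880803840), (141733920768, 47244640256), (687194767360, 137438953472), (515396075520, 34359738368)] rfl (by decide +kernel)
end
mutual
theorem c1_m24_t21 : CovD 0 progs [(319731793920, 880803840), (141733920768, 47244640256), (687194767360, 137438953472), (515396075520, 34359738368)] :=
  Pool.Agent.helper14.QF.covD_F chks_eq (.n 2 (.n 3 (.n 1 (.n 3 (.l 4) (.l 4)) (.n 3 (.n 0 (.l 4) (.l 4)) (.l 4))) (.n 3 (.l 4) (.l 4))) (.n 1 (.n 3 (.n 3 (.n 0 (.l 4) (.l 4)) (.l 4)) (.n 3 (.l 4) (.l 4))) (.n 3 (.n 3 (.n 1 (.l 4) (.l 4)) (.l 4)) (.n 3 (.l 4) (.l 4)))))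
    [(319731793920, 880803840), (141733920768, 47244640256), (687194767360, 137438953472), (515396075520, 34359738368)] rfl (by decide +kernel)
theorem c1_m24_t23 : CovD 0 progs [(322374205440, 1761607680), (141733920768, 47244640256), (687194767360, 137438953472), (515396075520, 34359738368)] :=
  Pool.Agent.helper14.QF.covD_F chks_eq (.n 2 (.n 3 (.n 1 (.n 3 (.n 0 (.l 4) (.l 4)) (.l 4)) (.n 3 (.n 0 (.l 4) (.l 4)) (.l 4))) (.n 3 (.n 0 (.l 4) (.l 4)) (.l 4))) (.n 3 (.n 3 (.n 1 (.n 0 (.l 4) (.l 4)) (.n 2 (.l 4) (.l 4))) (.n 0 (.n 1 (.l 4) (.l 4)) (.n 1 (.l 4) (.l 4)))) (.n 3 (.n 1 (.l 4) (.l 4)) (.l 4))))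
    [(322374205440, 1761607680), (141733920768, 47244640256), (687194767360, 137438953472), (515396075520, 34359738368)] rfl (by decide +kernel)
end
mutual
theorem c1_m24_t27 : CovD 0 progs [(325897420800, 1761607680), (94489280512, 94489280512), (687194767360, 137438953472), (515396075520, 34359738368)] :=
  Pool.Agent.helper14.QF.covD_F chks_eq (.n 3 (.n 1 (.n 1 (.n 3 (.l 4) (.l 4)) (.n 3 (.n 0 (.l 4) (.l 4)) (.l 4))) (.n 2 (.n 3 (.n 0 (.l 4) (.l 4)) (.l 4)) (.n 1 (.n 3 (.l 4) (.l 4)) (.n 3 (.n 0 (.l 4) (.l 4)) (.l 4))))) (.n 1 (.n 3 (.l 4) (.l 4)) (.n 2 (.n 0 (.l 4) (.l 4)) (.n 3 (.l 4) (.l 4)))))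
    [(325897420800, 1761607680), (94489280512, 94489280512), (687194767360, 137438953472), (515396075520, 34359738368)] rfl (by decide +kernel)
theorem c1_m24_t28 : CovD 0 progs [(329420636160, 1761607680), (94489280512, 94489280512), (687194767360, 137438953472), (515396075520, 34359738368)] :=
  Pool.Agent.helper14.QF.covD_F chks_eq (.n 3 (.n 1 (.n 3 (.n 0 (.l 4) (.l 4)) (.l 4)) (.n 1 (.n 3 (.l 4) (.l 4)) (.n 3 (.n 1 (.l 4) (.l 4)) (.l 4)))) (.n 1 (.n 0 (.l 4) (.l 4)) (.n 2 (.l 4) (.l 4))))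
    [(329420636160, 1761607680), (94489280512, 94489280512), (687194767360, 137438953472), (515396075520, 34359738368)] rfl (by decide +kernel)
end
mutual
theorem c1_m24_t30 : CovD 0 progs [(334705459200, 3523215360), (94489280512, 94489280512), (687194767360, 137438953472), (515396075520, 34359738368)] :=
  Pool.Agent.helper14.QF.covD_F chks_eq (.n 0 (.n 1 (.n 3 (.n 0 (.l 4) (.l 4)) (.l 4)) (.n 2 (.n 3 (.l 4) (.l 4)) (.n 3 (.n 0 (.l 4) (.l 4)) (.l 4)))) (.n 1 (.n 3 (.l 4) (.l 4)) (.n 3 (.n 1 (.l 4) (.l 4)) (.l 4))))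
    [(334705459200, 3523215360), (94489280512, 94489280512), (687194767360, 137438953472), (515396075520, 34359738368)] rfl (by decide +kernel)
theorem c1_m24_t33 : CovD 0 progs [(317089382400, 7046430720), (47244640256, 47244640256), (962072674304, 137438953472), (515396075520, 34359738368)] :=
  Pool.Agent.helper14.QF.covD_F chks_eq (.n 0 (.n 2 (.n 1 (.l 6) (.n 1 (.l 6) (.n 2 (.n 2 (.n 0 (.l 6) (.n 3 (.n 3 (.l 4) (.l 4)) (.n 3 (.l 4) (.l 4)))) (.l 6)) (.l 6)))) (.l 6)) (.n 2 (.n 2 (.n 1 (.l 6) (.n 0 (.n 2 (.n 1 (.l 6) (.n 3 (.n 3 (.l 4) (.l 4)) (.n 3 (.l 4) (.l 4)))) (.l 6)) (.n 3 (.n 3 (.n 0 (.l 4) (.l 4)) (.l 4)) (.n 0 (.l 4) (.l 4))))) (.l 6)) (.l 6)))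
    [(317089382400, 7046430720), (47244640256, 47244640256), (962072674304, 137438953472), (515396075520, 34359738368)] rfl (by decide +kernel)
end
mutual
theorem c1_m24_t34 : CovD 0 progs [(311804559360, 1761607680), (141733920768, 47244640256), (893353197568, 68719476736), (515396075520, 34359738368)] :=
  Pool.Agent.helper14.QF.covD_F chks_eq (.n 2 (.n 1 (.n 1 (.n 3 (.l 4) (.n 3 (.l 4) (.l 4))) (.n 3 (.l 4) (.n 3 (.l 4) (.l 4)))) (.n 1 (.n 3 (.l 4) (.n 3 (.l 4) (.l 4))) (.n 3 (.l 4) (.n 0 (.l 4) (.l 4))))) (.n 1 (.n 1 (.l 6) (.l 6)) (.n 0 (.n 3 (.l 4) (.n 1 (.l 4) (.l 4))) (.n 3 (.l 4) (.n 1 (.l 4) (.l 4))))))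
    [(311804559360, 1761607680), (141733920768, 47244640256), (893353197568, 68719476736), (515396075520, 34359738368)] rfl (by decide +kernel)
theorem c1_m24_t35 : CovD 0 progs [(315327774720, 1761607680), (141733920768, 47244640256), (893353197568, 68719476736), (515396075520, 34359738368)] :=
  Pool.Agent.helper14.QF.covD_F chks_eq (.n 1 (.n 1 (.n 2 (.n 3 (.n 3 (.l 4) (.l 4)) (.n 3 (.l 4) (.l 4))) (.l 6)) (.n 3 (.n 0 (.n 1 (.l 4) (.l 4)) (.n 2 (.l 4) (.l 4))) (.n 3 (.n 0 (.l 4) (.l 4)) (.l 4)))) (.n 1 (.n 3 (.n 2 (.n 0 (.l 4) (.l 4)) (.l 4)) (.n 3 (.n 0 (.l 4) (.l 4)) (.l 4))) (.n 3 (.n 2 (.l 4) (.l 4)) (.n 3 (.n 0 (.l 4) (.l 4)) (.l 4)))))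
    [(315327774720, 1761607680), (141733920768, 47244640256), (893353197568, 68719476736), (515396075520, 34359738368)] rfl (by decide +kernel)
end
mutual
theorem c1_m24_t37 : CovD 0 progs [(313566167040, 3523215360), (141733920768, 47244640256), (1030792151040, 68719476736), (515396075520, 34359738368)] :=
  Pool.Agent.helper14.QF.covD_F chks_eq (.n 1 (.l 6) (.n 1 (.l 6) (.n 2 (.n 3 (.l 4) (.n 0 (.l 4) (.l 4))) (.l 6))))
    [(313566167040, 3523215360), (141733920768, 47244640256), (1030792151040, 68719476736), (515396075520, 34359738368)] rfl (by decide +kernel)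
theorem c1_m24_t39 : CovD 0 progs [(318850990080, 1761607680), (118111600640, 23622320128), (962072674304, 137438953472), (515396075520, 34359738368)] :=
  Pool.Agent.helper14.QF.covD_F chks_eq (.n 2 (.n 1 (.n 2 (.n 3 (.n 3 (.l 4) (.l 4)) (.n 3 (.l 4) (.l 4))) (.l 6)) (.n 3 (.n 0 (.n 3 (.l 4) (.l 4)) (.n 3 (.l 4) (.l 4))) (.n 3 (.l 4) (.l 4)))) (.l 6))
    [(318850990080, 1761607680), (118111600640, 23622320128), (962072674304, 137438953472), (515396075520, 34359738368)] rfl (by decide +kernel)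
end
mutual
theorem c1_m24_t40 : CovD 0 progs [(318850990080, 1761607680), (165356240896, 23622320128), (962072674304, 137438953472), (515396075520, 34359738368)] :=
  Pool.Agent.helper14.QF.covD_F chks_eq (.n 2 (.n 2 (.n 3 (.n 3 (.n 0 (.l 4) (.l 4)) (.l 4)) (.n 3 (.l 4) (.l 4))) (.n 3 (.n 3 (.l 4) (.l 4)) (.n 3 (.l 4) (.l 4)))) (.n 2 (.n 3 (.n 3 (.l 4) (.l 4)) (.n 3 (.l 4) (.l 4))) (.n 1 (.l 6) (.l 6))))
    [(318850990080, 1761607680), (165356240896, 23622320128), (962072674304, 137438953472), (515396075520, 34359738368)] rfl (by decide +kernel)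
theorem c1_m24_t42 : CovD 0 progs [(322374205440, 1761607680), (141733920768, 47244640256), (962072674304, 137438953472), (515396075520, 34359738368)] :=
  Pool.Agent.helper14.QF.covD_F chks_eq (.n 1 (.n 2 (.n 0 (.n 3 (.n 3 (.n 1 (.l 4) (.l 4)) (.l 4)) (.n 1 (.l 4) (.l 4))) (.n 3 (.n 3 (.l 4) (.l 4)) (.l 4))) (.l 6)) (.n 2 (.n 3 (.n 1 (.n 3 (.l 4) (.l 4)) (.n 3 (.l 4) (.l 4))) (.n 3 (.l 4) (.l 4))) (.n 1 (.n 2 (.n 3 (.l 4) (.l 4)) (.l 6)) (.n 3 (.n 0 (.l 4) (.l 4)) (.l 4)))))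
    [(322374205440, 1761607680), (141733920768, 47244640256), (962072674304, 137438953472), (515396075520, 34359738368)] rfl (by decide +kernel)
end
mutual
theorem c1_m24_t46 : CovD 0 progs [(325897420800, 1761607680), (47244640256, 47244640256), (962072674304, 137438953472), (515396075520, 34359738368)] :=
  Pool.Agent.helper14.QF.covD_F chks_eq (.n 2 (.n 3 (.n 1 (.n 3 (.l 4) (.l 4)) (.n 3 (.l 4) (.l 4))) (.n 3 (.l 4) (.l 4))) (.l 6))
    [(325897420800, 1761607680), (47244640256, 47244640256), (962072674304, 137438953472), (515396075520, 34359738368)] rfl (by decide +kernel)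
theorem c1_m24_t47 : CovD 0 progs [(325897420800, 1761607680), (141733920768, 47244640256), (962072674304, 137438953472), (515396075520, 34359738368)] :=
  Pool.Agent.helper14.QF.covD_F chks_eq (.n 1 (.n 2 (.n 3 (.n 3 (.n 0 (.l 4) (.l 4)) (.l 4)) (.n 0 (.l 4) (.l 4))) (.n 1 (.l 6) (.n 2 (.l 6) (.l 6)))) (.n 2 (.n 3 (.n 3 (.n 0 (.l 4) (.l 4)) (.l 4)) (.n 0 (.l 4) (.l 4))) (.n 3 (.n 3 (.n 0 (.l 4) (.l 4)) (.l 4)) (.n 0 (.l 4) (.l 4)))))
    [(325897420800, 1761607680), (141733920768, 47244640256), (962072674304, 137438953472), (515396075520, 34359738368)] rfl (by decide +kernel)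
end
mutual
theorem c1_m24_t49 : CovD 0 progs [(329420636160, 1761607680), (94489280512, 94489280512), (962072674304, 137438953472), (515396075520, 34359738368)] :=
  Pool.Agent.helper14.QF.covD_F chks_eq (.n 1 (.n 2 (.n 3 (.n 3 (.n 0 (.l 4) (.l 4)) (.l 4)) (.l 4)) (.l 6)) (.n 1 (.n 1 (.n 2 (.n 3 (.l 4) (.l 4)) (.l 6)) (.n 3 (.n 2 (.l 4) (.l 4)) (.l 4))) (.n 2 (.n 3 (.n 0 (.l 4) (.l 4)) (.l 4)) (.n 3 (.n 1 (.l 4) (.l 4)) (.l 4)))))
    [(329420636160, 1761607680), (94489280512, 94489280512), (962072674304, 137438953472), (515396075520, 34359738368)] rfl (by decide +kernel)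
theorem c1_m24_t51 : CovD 0 progs [(334705459200, 3523215360), (94489280512, 94489280512), (962072674304, 137438953472), (515396075520, 34359738368)] :=
  Pool.Agent.helper14.QF.covD_F chks_eq (.n 1 (.n 2 (.n 0 (.n 3 (.n 0 (.l 4) (.l 4)) (.l 4)) (.n 3 (.l 4) (.l 4))) (.l 6)) (.n 1 (.n 0 (.n 3 (.n 2 (.l 4) (.l 4)) (.l 4)) (.n 3 (.n 0 (.l 4) (.l 4)) (.l 4))) (.n 2 (.n 3 (.n 0 (.l 4) (.l 4)) (.l 4)) (.n 3 (.n 0 (.l 4) (.l 4)) (.l 4)))))
    [(334705459200, 3523215360), (94489280512, 94489280512), (962072674304, 137438953472), (515396075520, 34359738368)] rfl (by decide +kernel)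
end
theorem c1_m24_t2 : CovD 0 progs [(313566167040, 3523215360), (47244640256, 47244640256), (618475290624, 68719476736), (515396075520, 34359738368)] :=
  covD_split 0 (by decide +kernel) c1_m24_t0 c1_m24_t1
theorem c1_m24_t4 : CovD 0 progs [(317089382400, 7046430720), (47244640256, 47244640256), (618475290624, 68719476736), (515396075520, 34359738368)] :=
  covD_split 0 (by decide +kernel) c1_m24_t2 c1_m24_t3
theorem c1_m24_t7 : CovD 0 progs [(317089382400, 7046430720), (47244640256, 47244640256), (721554505728, 34359738368), (515396075520, 34359738368)] :=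
  covD_split 0 (by decide +kernel) c1_m24_t5 c1_m24_t6
theorem c1_m24_t10 : CovD 0 progs [(317089382400, 7046430720), (47244640256, 47244640256), (790273982464, 34359738368), (515396075520, 34359738368)] :=
  covD_split 3 (by decide +kernel) c1_m24_t8 c1_m24_t9
theorem c1_m24_t11 : CovD 0 progs [(317089382400, 7046430720), (47244640256, 47244640256), (755914244096, 68719476736), (515396075520, 34359738368)] :=
  covD_split 2 (by decide +kernel) c1_m24_t7 c1_m24_t10
theorem c1_m24_t12 : CovD 0 progs [(317089382400, 7046430720), (47244640256, 47244640256), (687194767360, 137438953472), (515396075520, 34359738368)] :=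
  covD_split 2 (by decide +kernel) c1_m24_t4 c1_m24_t11
theorem c1_m24_t15 : CovD 0 progs [(311804559360, 1761607680), (141733920768, 47244640256), (687194767360, 137438953472), (515396075520, 34359738368)] :=
  covD_split 1 (by decide +kernel) c1_m24_t13 c1_m24_t14
theorem c1_m24_t18 : CovD 0 progs [(315327774720, 1761607680), (141733920768, 47244640256), (687194767360, 137438953472), (515396075520, 34359738368)] :=
  covD_split 3 (by decide +kernel) c1_m24_t16 c1_m24_t17
theorem c1_m24_t19 : CovD 0 progs [(313566167040, 3523215360), (141733920768, 47244640256), (687194767360, 137438953472), (515396075520, 34359738368)] :=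
  covD_split 0 (by decide +kernel) c1_m24_t15 c1_m24_t18
theorem c1_m24_t22 : CovD 0 progs [(318850990080, 1761607680), (141733920768, 47244640256), (687194767360, 137438953472), (515396075520, 34359738368)] :=
  covD_split 0 (by decide +kernel) c1_m24_t20 c1_m24_t21
theorem c1_m24_t24 : CovD 0 progs [(320612597760, 3523215360), (141733920768, 47244640256), (687194767360, 137438953472), (515396075520, 34359738368)] :=
  covD_split 0 (by decide +kernel) c1_m24_t22 c1_m24_t23
theorem c1_m24_t25 : CovD 0 progs [(317089382400, 7046430720), (141733920768, 47244640256), (687194767360, 137438953472), (515396075520, 34359738368)] :=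
  covD_split 0 (by decide +kernel) c1_m24_t19 c1_m24_t24
theorem c1_m24_t26 : CovD 0 progs [(317089382400, 7046430720), (94489280512, 94489280512), (687194767360, 137438953472), (515396075520, 34359738368)] :=
  covD_split 1 (by decide +kernel) c1_m24_t12 c1_m24_t25
theorem c1_m24_t29 : CovD 0 progs [(327659028480, 3523215360), (94489280512, 94489280512), (687194767360, 137438953472), (515396075520, 34359738368)] :=
  covD_split 0 (by decide +kernel) c1_m24_t27 c1_m24_t28
theorem c1_m24_t31 : CovD 0 progs [(331182243840, 7046430720), (94489280512, 94489280512), (687194767360, 137438953472), (515396075520, 34359738368)] :=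
  covD_split 0 (by decide +kernel) c1_m24_t29 c1_m24_t30
theorem c1_m24_t32 : CovD 0 progs [(324135813120, 14092861440), (94489280512, 94489280512), (687194767360, 137438953472), (515396075520, 34359738368)] :=
  covD_split 0 (by decide +kernel) c1_m24_t26 c1_m24_t31
theorem c1_m24_t36 : CovD 0 progs [(313566167040, 3523215360), (141733920768, 47244640256), (893353197568, 68719476736), (515396075520, 34359738368)] :=
  covD_split 0 (by decide +kernel) c1_m24_t34 c1_m24_t35
theorem c1_m24_t38 : CovD 0 progs [(313566167040, 3523215360), (141733920768, 47244640256), (962072674304, 137438953472), (515396075520, 34359738368)] :=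
  covD_split 2 (by decide +kernel) c1_m24_t36 c1_m24_t37
theorem c1_m24_t41 : CovD 0 progs [(318850990080, 1761607680), (141733920768, 47244640256), (962072674304, 137438953472), (515396075520, 34359738368)] :=
  covD_split 1 (by decide +kernel) c1_m24_t39 c1_m24_t40
theorem c1_m24_t43 : CovD 0 progs [(320612597760, 3523215360), (141733920768, 47244640256), (962072674304, 137438953472), (515396075520, 34359738368)] :=
  covD_split 0 (by decide +kernel) c1_m24_t41 c1_m24_t42
theorem c1_m24_t44 : CovD 0 progs [(317089382400, 7046430720), (141733920768, 47244640256), (962072674304, 137438953472), (515396075520, 34359738368)] :=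
  covD_split 0 (by decide +kernel) c1_m24_t38 c1_m24_t43
theorem c1_m24_t45 : CovD 0 progs [(317089382400, 7046430720), (94489280512, 94489280512), (962072674304, 137438953472), (515396075520, 34359738368)] :=
  covD_split 1 (by decide +kernel) c1_m24_t33 c1_m24_t44
theorem c1_m24_t48 : CovD 0 progs [(325897420800, 1761607680), (94489280512, 94489280512), (962072674304, 137438953472), (515396075520, 34359738368)] :=
  covD_split 1 (by decide +kernel) c1_m24_t46 c1_m24_t47
theorem c1_m24_t50 : CovD 0 progs [(327659028480, 3523215360), (94489280512, 94489280512), (962072674304, 137438953472), (515396075520, 34359738368)] :=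
  covD_split 0 (by decide +kernel) c1_m24_t48 c1_m24_t49
theorem c1_m24_t52 : CovD 0 progs [(331182243840, 7046430720), (94489280512, 94489280512), (962072674304, 137438953472), (515396075520, 34359738368)] :=
  covD_split 0 (by decide +kernel) c1_m24_t50 c1_m24_t51
theorem c1_m24_t53 : CovD 0 progs [(324135813120, 14092861440), (94489280512, 94489280512), (962072674304, 137438953472), (515396075520, 34359738368)] :=
  covD_split 0 (by decide +kernel) c1_m24_t45 c1_m24_t52
theorem c1_m24 : CovD 0 progs [(324135813120, 14092861440), (94489280512, 94489280512), (824633720832, 274877906944), (515396075520, 34359738368)] :=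
  covD_split 2 (by decide +kernel) c1_m24_t32 c1_m24_t53

end Pool.Agent.helper71.FJ.Crt.QMa
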