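import Pool.Agent.helper71.FJ.Crt.QMaP

/-!
Generated certificates.
-/

namespace Pool.Agent.helper71.FJ.Crt.QMa

open Pool.Agent.helper31.IA (Z Op)
open Pool.Agent.helper31.IC

mutual
theorem c1_m25_t0 : CovD 0 progs [(352321536000, 14092861440), (47244640256, 47244640256), (618475290624, 68719476736), (34359738368, 34359738368)] :=
  Pool.Agent.helper14.QF.covD_F chks_eq (.n 0 (.n 0 (.n 0 (.n 0 (.l 4) (.l 4)) (.n 0 (.l 4) (.n 0 (.l 4) (.l 4)))) (.n 0 (.n 1 (.l 4) (.l 4)) (.n 0 (.l 4) (.l 4)))) (.n 0 (.n 0 (.n 0 (.l 4) (.l 4)) (.n 0 (.l 4) (.l 4))) (.n 0 (.l 4) (.l 4))))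
    [(352321536000, 14092861440), (47244640256, 47244640256), (618475290624, 68719476736), (34359738368, 34359738368)] rfl (by decide +kernel)
theorem c1_m25_t1 : CovD 0 progs [(352321536000, 14092861440), (141733920768, 47244640256), (618475290624, 68719476736), (34359738368, 34359738368)] :=
  Pool.Agent.helper14.QF.covD_F chks_eq (.n 0 (.n 0 (.n 0 (.n 0 (.l 4) (.n 0 (.l 4) (.l 4))) (.n 0 (.n 1 (.l 4) (.l 4)) (.n 1 (.l 4) (.l 4)))) (.n 0 (.n 0 (.n 1 (.l 4) (.l 4)) (.n 1 (.l 4) (.l 4))) (.n 1 (.l 4) (.l 4)))) (.n 0 (.n 0 (.n 1 (.l 4) (.n 0 (.l 4) (.l 4))) (.n 1 (.l 4) (.l 4))) (.n 0 (.n 0 (.l 4) (.l 4)) (.l 4))))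
    [(352321536000, 14092861440), (141733920768, 47244640256), (618475290624, 68719476736), (34359738368, 34359738368)] rfl (by decide +kernel)
end
mutual
theorem c1_m25_t3 : CovD 0 progs [(345275105280, 7046430720), (94489280512, 94489280512), (721554505728, 34359738368), (34359738368, 34359738368)] :=
  Pool.Agent.helper14.QF.covD_F chks_eq (.n 1 (.n 0 (.n 0 (.n 0 (.l 4) (.l 4)) (.n 0 (.l 4) (.l 4))) (.n 0 (.n 0 (.l 4) (.l 4)) (.l 4))) (.n 0 (.n 0 (.n 0 (.l 4) (.l 4)) (.n 1 (.l 4) (.l 4))) (.n 0 (.n 1 (.l 4) (.l 4)) (.n 1 (.l 4) (.l 4)))))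
    [(345275105280, 7046430720), (94489280512, 94489280512), (721554505728, 34359738368), (34359738368, 34359738368)] rfl (by decide +kernel)
theorem c1_m25_t4 : CovD 0 progs [(359367966720, 7046430720), (94489280512, 94489280512), (721554505728, 34359738368), (34359738368, 34359738368)] :=
  Pool.Agent.helper14.QF.covD_F chks_eq (.n 0 (.n 0 (.n 1 (.n 0 (.l 4) (.l 4)) (.n 1 (.l 4) (.l 4))) (.n 1 (.l 4) (.n 0 (.l 4) (.l 4)))) (.n 0 (.n 1 (.l 4) (.l 4)) (.n 1 (.l 4) (.l 4))))
    [(359367966720, 7046430720), (94489280512, 94489280512), (721554505728, 34359738368), (34359738368, 34359738368)] rfl (by decide +kernel)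
end
mutual
theorem c1_m25_t6 : CovD 0 progs [(345275105280, 7046430720), (94489280512, 94489280512), (790273982464, 34359738368), (34359738368, 34359738368)] :=
  Pool.Agent.helper14.QF.covD_F chks_eq (.n 0 (.n 0 (.n 1 (.n 0 (.l 4) (.l 4)) (.n 1 (.l 4) (.l 4))) (.n 1 (.n 1 (.l 4) (.l 4)) (.n 1 (.l 4) (.l 4)))) (.n 0 (.n 1 (.n 1 (.l 4) (.l 4)) (.n 1 (.l 4) (.l 4))) (.n 1 (.n 1 (.l 4) (.l 4)) (.n 1 (.l 4) (.l 4)))))
    [(345275105280, 7046430720), (94489280512, 94489280512), (790273982464, 34359738368), (34359738368, 34359738368)] rfl (by decide +kernel)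
theorem c1_m25_t7 : CovD 0 progs [(359367966720, 7046430720), (94489280512, 94489280512), (790273982464, 34359738368), (34359738368, 34359738368)] :=
  Pool.Agent.helper14.QF.covD_F chks_eq (.n 0 (.n 0 (.n 1 (.n 0 (.l 4) (.l 4)) (.n 1 (.l 4) (.l 4))) (.n 1 (.n 0 (.l 4) (.l 4)) (.n 1 (.l 4) (.l 4)))) (.n 0 (.n 1 (.l 4) (.n 0 (.l 4) (.l 4))) (.n 1 (.l 4) (.l 4))))
    [(359367966720, 7046430720), (94489280512, 94489280512), (790273982464, 34359738368), (34359738368, 34359738368)] rfl (by decide +kernel)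
end
mutual
theorem c1_m25_t11 : CovD 0 progs [(352321536000, 14092861440), (23622320128, 23622320128), (893353197568, 68719476736), (34359738368, 34359738368)] :=
  Pool.Agent.helper14.QF.covD_F chks_eq (.n 0 (.n 0 (.n 0 (.l 4) (.n 0 (.l 4) (.l 4))) (.n 0 (.n 0 (.l 4) (.l 4)) (.l 4))) (.n 0 (.n 0 (.l 4) (.l 4)) (.n 0 (.l 4) (.l 4))))
    [(352321536000, 14092861440), (23622320128, 23622320128), (893353197568, 68719476736), (34359738368, 34359738368)] rfl (by decide +kernel)
theorem c1_m25_t12 : CovD 0 progs [(352321536000, 14092861440), (70866960384, 23622320128), (893353197568, 68719476736), (34359738368, 34359738368)] :=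
  Pool.Agent.helper14.QF.covD_F chks_eq (.n 1 (.n 0 (.n 0 (.n 0 (.l 4) (.l 4)) (.n 0 (.l 4) (.l 4))) (.n 0 (.n 0 (.l 4) (.l 4)) (.n 0 (.l 4) (.l 4)))) (.n 0 (.n 0 (.n 0 (.l 4) (.l 4)) (.n 0 (.l 4) (.l 4))) (.n 0 (.n 0 (.l 4) (.l 4)) (.n 0 (.l 4) (.l 4)))))
    [(352321536000, 14092861440), (70866960384, 23622320128), (893353197568, 68719476736), (34359738368, 34359738368)] rfl (by decide +kernel)
end
mutual
theorem c1_m25_t14 : CovD 0 progs [(345275105280, 7046430720), (141733920768, 47244640256), (893353197568, 68719476736), (34359738368, 34359738368)] :=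
  Pool.Agent.helper14.QF.covD_F chks_eq (.n 0 (.n 0 (.n 1 (.n 0 (.l 4) (.l 4)) (.n 1 (.l 4) (.l 4))) (.n 1 (.n 1 (.l 4) (.l 4)) (.n 1 (.l 4) (.l 4)))) (.n 0 (.n 1 (.n 1 (.l 4) (.l 4)) (.n 1 (.l 4) (.l 4))) (.n 1 (.n 1 (.l 4) (.l 4)) (.n 1 (.l 4) (.l 4)))))
    [(345275105280, 7046430720), (141733920768, 47244640256), (893353197568, 68719476736), (34359738368, 34359738368)] rfl (by decide +kernel)
theorem c1_m25_t15 : CovD 0 progs [(359367966720, 7046430720), (141733920768, 47244640256), (893353197568, 68719476736), (34359738368, 34359738368)] :=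
  Pool.Agent.helper14.QF.covD_F chks_eq (.n 0 (.n 0 (.n 1 (.n 1 (.l 4) (.l 4)) (.n 1 (.l 4) (.l 4))) (.n 1 (.n 0 (.l 4) (.l 4)) (.n 1 (.l 4) (.l 4)))) (.n 0 (.n 1 (.l 4) (.l 4)) (.n 1 (.l 4) (.l 4))))
    [(359367966720, 7046430720), (141733920768, 47244640256), (893353197568, 68719476736), (34359738368, 34359738368)] rfl (by decide +kernel)
end
mutual
theorem c1_m25_t18 : CovD 0 progs [(345275105280, 7046430720), (94489280512, 94489280512), (996432412672, 34359738368), (34359738368, 34359738368)] :=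
  Pool.Agent.helper14.QF.covD_F chks_eq (.n 0 (.n 1 (.l 6) (.n 0 (.n 1 (.l 4) (.l 4)) (.n 1 (.n 0 (.l 4) (.l 4)) (.l 4)))) (.n 1 (.n 1 (.l 6) (.n 1 (.l 6) (.l 4))) (.n 1 (.n 1 (.l 4) (.l 4)) (.l 4))))
    [(345275105280, 7046430720), (94489280512, 94489280512), (996432412672, 34359738368), (34359738368, 34359738368)] rfl (by decide +kernel)
theorem c1_m25_t19 : CovD 0 progs [(359367966720, 7046430720), (94489280512, 94489280512), (996432412672, 34359738368), (34359738368, 34359738368)] :=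
  Pool.Agent.helper14.QF.covD_F chks_eq (.n 0 (.n 1 (.n 1 (.l 6) (.n 0 (.n 0 (.l 4) (.l 4)) (.l 4))) (.n 0 (.n 1 (.l 4) (.l 4)) (.n 1 (.l 4) (.l 4)))) (.n 1 (.n 0 (.n 1 (.l 4) (.l 4)) (.l 4)) (.n 1 (.n 0 (.l 4) (.l 4)) (.l 4))))
    [(359367966720, 7046430720), (94489280512, 94489280512), (996432412672, 34359738368), (34359738368, 34359738368)] rfl (by decide +kernel)
end
mutual
theorem c1_m25_t21 : CovD 0 progs [(352321536000, 14092861440), (94489280512, 94489280512), (1065151889408, 34359738368), (34359738368, 34359738368)] :=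
  Pool.Agent.helper14.QF.covD_F chks_eq (.n 1 (.n 1 (.l 6) (.l 6)) (.n 1 (.n 1 (.n 0 (.l 6) (.n 0 (.n 0 (.l 4) (.l 4)) (.l 4))) (.n 0 (.n 0 (.l 6) (.l 4)) (.n 0 (.l 4) (.l 4)))) (.n 0 (.n 0 (.n 0 (.l 4) (.l 4)) (.l 4)) (.n 0 (.n 0 (.l 4) (.l 4)) (.l 4)))))
    [(352321536000, 14092861440), (94489280512, 94489280512), (1065151889408, 34359738368), (34359738368, 34359738368)] rfl (by decide +kernel)
theorem c1_m25_t25 : CovD 0 progs [(341751889920, 3523215360), (47244640256, 47244640256), (687194767360, 137438953472), (103079215104, 34359738368)] :=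
  Pool.Agent.helper14.QF.covD_F chks_eq (.n 0 (.n 0 (.n 2 (.l 4) (.n 1 (.l 4) (.l 4))) (.n 1 (.n 0 (.l 4) (.l 4)) (.n 2 (.l 4) (.l 4)))) (.n 0 (.n 1 (.n 1 (.l 4) (.l 4)) (.n 2 (.l 4) (.n 0 (.l 4) (.l 4)))) (.n 1 (.n 1 (.l 4) (.l 4)) (.n 2 (.l 4) (.n 0 (.l 4) (.l 4))))))
    [(341751889920, 3523215360), (47244640256, 47244640256), (687194767360, 137438953472), (103079215104, 34359738368)] rfl (by decide +kernel)
end
mutual
theorem c1_m25_t26 : CovD 0 progs [(348798320640, 3523215360), (47244640256, 47244640256), (687194767360, 137438953472), (103079215104, 34359738368)] :=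
  Pool.Agent.helper14.QF.covD_F chks_eq (.n 0 (.n 1 (.n 2 (.l 4) (.l 4)) (.n 2 (.l 4) (.n 0 (.l 4) (.l 4)))) (.n 1 (.n 2 (.l 4) (.l 4)) (.n 2 (.l 4) (.n 0 (.l 4) (.l 4)))))
    [(348798320640, 3523215360), (47244640256, 47244640256), (687194767360, 137438953472), (103079215104, 34359738368)] rfl (by decide +kernel)
theorem c1_m25_t28 : CovD 0 progs [(359367966720, 7046430720), (47244640256, 47244640256), (687194767360, 137438953472), (103079215104, 34359738368)] :=
  Pool.Agent.helper14.QF.covD_F chks_eq (.n 0 (.n 0 (.n 1 (.n 2 (.l 4) (.n 0 (.l 4) (.l 4))) (.n 0 (.n 2 (.l 4) (.l 4)) (.n 1 (.l 4) (.l 4)))) (.n 1 (.n 0 (.l 4) (.l 4)) (.n 2 (.l 4) (.n 0 (.l 4) (.l 4))))) (.n 0 (.n 1 (.l 4) (.n 0 (.l 4) (.l 4))) (.n 0 (.l 4) (.l 4))))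
    [(359367966720, 7046430720), (47244640256, 47244640256), (687194767360, 137438953472), (103079215104, 34359738368)] rfl (by decide +kernel)
end
mutual
theorem c1_m25_t30 : CovD 0 progs [(345275105280, 7046430720), (141733920768, 47244640256), (618475290624, 68719476736), (103079215104, 34359738368)] :=
  Pool.Agent.helper14.QF.covD_F chks_eq (.n 0 (.n 0 (.n 0 (.n 1 (.l 4) (.l 4)) (.n 1 (.l 4) (.n 0 (.l 4) (.l 4)))) (.n 0 (.n 1 (.l 4) (.n 0 (.l 4) (.l 4))) (.n 1 (.l 4) (.n 0 (.l 4) (.l 4))))) (.n 1 (.n 0 (.n 0 (.l 4) (.l 4)) (.n 0 (.l 4) (.l 4))) (.n 0 (.n 1 (.l 4) (.l 4)) (.n 1 (.l 4) (.l 4)))))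
    [(345275105280, 7046430720), (141733920768, 47244640256), (618475290624, 68719476736), (103079215104, 34359738368)] rfl (by decide +kernel)
theorem c1_m25_t31 : CovD 0 progs [(359367966720, 7046430720), (141733920768, 47244640256), (618475290624, 68719476736), (103079215104, 34359738368)] :=
  Pool.Agent.helper14.QF.covD_F chks_eq (.n 0 (.n 1 (.n 0 (.n 0 (.l 4) (.l 4)) (.n 0 (.l 4) (.l 4))) (.n 0 (.n 2 (.l 4) (.l 4)) (.n 0 (.l 4) (.l 4)))) (.n 0 (.n 0 (.l 4) (.l 4)) (.l 4)))
    [(359367966720, 7046430720), (141733920768, 47244640256), (618475290624, 68719476736), (103079215104, 34359738368)] rfl (by decide +kernel)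
end
mutual
theorem c1_m25_t33 : CovD 0 progs [(352321536000, 14092861440), (118111600640, 23622320128), (755914244096, 68719476736), (103079215104, 34359738368)] :=
  Pool.Agent.helper14.QF.covD_F chks_eq (.n 0 (.n 0 (.n 0 (.n 0 (.l 4) (.n 0 (.l 4) (.l 4))) (.n 0 (.n 1 (.l 4) (.l 4)) (.n 1 (.l 4) (.l 4)))) (.n 0 (.n 1 (.l 4) (.l 4)) (.n 1 (.l 4) (.l 4)))) (.n 0 (.n 0 (.n 1 (.l 4) (.n 0 (.l 4) (.l 4))) (.n 0 (.l 4) (.l 4))) (.n 0 (.l 4) (.l 4))))
    [(352321536000, 14092861440), (118111600640, 23622320128), (755914244096, 68719476736), (103079215104, 34359738368)] rfl (by decide +kernel)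
theorem c1_m25_t34 : CovD 0 progs [(352321536000, 14092861440), (165356240896, 23622320128), (755914244096, 68719476736), (103079215104, 34359738368)] :=
  Pool.Agent.helper14.QF.covD_F chks_eq (.n 0 (.n 0 (.n 0 (.n 0 (.n 0 (.l 4) (.l 4)) (.n 1 (.l 4) (.l 4))) (.n 0 (.n 1 (.l 4) (.l 4)) (.n 1 (.l 4) (.l 4)))) (.n 0 (.n 1 (.l 4) (.l 4)) (.n 1 (.l 4) (.l 4)))) (.n 0 (.n 0 (.n 2 (.l 4) (.l 4)) (.n 1 (.l 4) (.l 4))) (.n 0 (.l 4) (.l 4))))
    [(352321536000, 14092861440), (165356240896, 23622320128), (755914244096, 68719476736), (103079215104, 34359738368)] rfl (by decide +kernel)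
end
mutual
theorem c1_m25_t38 : CovD 0 progs [(345275105280, 7046430720), (47244640256, 47244640256), (893353197568, 68719476736), (103079215104, 34359738368)] :=
  Pool.Agent.helper14.QF.covD_F chks_eq (.n 0 (.n 1 (.n 0 (.n 0 (.l 4) (.l 4)) (.n 0 (.l 4) (.l 4))) (.n 0 (.n 0 (.n 0 (.l 4) (.l 4)) (.n 0 (.l 4) (.l 4))) (.n 0 (.n 1 (.l 4) (.l 4)) (.n 1 (.l 4) (.l 4))))) (.n 0 (.n 1 (.n 0 (.l 4) (.l 4)) (.n 1 (.l 4) (.l 4))) (.n 1 (.n 0 (.l 4) (.l 4)) (.n 1 (.l 4) (.l 4)))))
    [(345275105280, 7046430720), (47244640256, 47244640256), (893353197568, 68719476736), (103079215104, 34359738368)] rfl (by decide +kernel)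
theorem c1_m25_t39 : CovD 0 progs [(359367966720, 7046430720), (47244640256, 47244640256), (893353197568, 68719476736), (103079215104, 34359738368)] :=
  Pool.Agent.helper14.QF.covD_F chks_eq (.n 0 (.n 0 (.n 0 (.n 1 (.l 4) (.n 1 (.l 4) (.l 4))) (.n 1 (.l 4) (.n 0 (.l 4) (.l 4)))) (.n 0 (.n 1 (.l 4) (.l 4)) (.n 1 (.l 4) (.l 4)))) (.n 0 (.n 1 (.l 4) (.l 4)) (.n 0 (.l 4) (.l 4))))
    [(359367966720, 7046430720), (47244640256, 47244640256), (893353197568, 68719476736), (103079215104, 34359738368)] rfl (by decide +kernel)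
end
mutual
theorem c1_m25_t41 : CovD 0 progs [(345275105280, 7046430720), (141733920768, 47244640256), (893353197568, 68719476736), (103079215104, 34359738368)] :=
  Pool.Agent.helper14.QF.covD_F chks_eq (.n 0 (.n 0 (.n 0 (.n 1 (.n 0 (.l 4) (.l 4)) (.n 1 (.l 4) (.l 4))) (.n 1 (.n 1 (.l 4) (.l 4)) (.n 1 (.l 4) (.l 4)))) (.n 0 (.n 1 (.n 1 (.l 4) (.l 4)) (.n 1 (.l 4) (.l 4))) (.n 1 (.n 1 (.l 4) (.l 4)) (.n 1 (.l 4) (.l 4))))) (.n 0 (.n 1 (.n 1 (.l 4) (.l 4)) (.n 1 (.l 4) (.l 4))) (.n 1 (.n 1 (.l 4) (.l 4)) (.n 1 (.l 4) (.l 4)))))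
    [(345275105280, 7046430720), (141733920768, 47244640256), (893353197568, 68719476736), (103079215104, 34359738368)] rfl (by decide +kernel)
theorem c1_m25_t42 : CovD 0 progs [(359367966720, 7046430720), (141733920768, 47244640256), (893353197568, 68719476736), (103079215104, 34359738368)] :=
  Pool.Agent.helper14.QF.covD_F chks_eq (.n 0 (.n 0 (.n 1 (.n 0 (.n 1 (.l 4) (.l 4)) (.n 1 (.l 4) (.l 4))) (.n 1 (.l 4) (.l 4))) (.n 1 (.n 1 (.l 4) (.l 4)) (.n 1 (.l 4) (.l 4)))) (.n 0 (.n 0 (.n 1 (.l 4) (.l 4)) (.n 1 (.l 4) (.l 4))) (.n 1 (.l 4) (.l 4))))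
    [(359367966720, 7046430720), (141733920768, 47244640256), (893353197568, 68719476736), (103079215104, 34359738368)] rfl (by decide +kernel)
end
mutual
theorem c1_m25_t45 : CovD 0 progs [(345275105280, 7046430720), (94489280512, 94489280512), (996432412672, 34359738368), (103079215104, 34359738368)] :=
  Pool.Agent.helper14.QF.covD_F chks_eq (.n 0 (.n 1 (.n 1 (.l 6) (.l 6)) (.n 0 (.n 1 (.n 0 (.l 4) (.l 4)) (.l 4)) (.n 1 (.n 0 (.l 4) (.l 4)) (.l 4)))) (.n 1 (.n 1 (.l 6) (.n 1 (.l 6) (.n 0 (.l 4) (.l 4)))) (.n 1 (.n 1 (.l 4) (.l 4)) (.n 0 (.l 4) (.l 4)))))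
    [(345275105280, 7046430720), (94489280512, 94489280512), (996432412672, 34359738368), (103079215104, 34359738368)] rfl (by decide +kernel)
theorem c1_m25_t46 : CovD 0 progs [(359367966720, 7046430720), (94489280512, 94489280512), (996432412672, 34359738368), (103079215104, 34359738368)] :=
  Pool.Agent.helper14.QF.covD_F chks_eq (.n 0 (.n 0 (.n 1 (.n 1 (.l 6) (.n 0 (.l 4) (.l 4))) (.n 1 (.n 0 (.l 4) (.l 4)) (.l 4))) (.n 1 (.n 1 (.l 4) (.n 0 (.l 4) (.l 4))) (.n 1 (.n 0 (.l 4) (.l 4)) (.l 4)))) (.n 0 (.n 1 (.n 1 (.l 4) (.l 4)) (.n 1 (.l 4) (.l 4))) (.n 1 (.l 4) (.n 1 (.l 4) (.l 4)))))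
    [(359367966720, 7046430720), (94489280512, 94489280512), (996432412672, 34359738368), (103079215104, 34359738368)] rfl (by decide +kernel)
end
mutual
theorem c1_m25_t48 : CovD 0 progs [(352321536000, 14092861440), (94489280512, 94489280512), (1065151889408, 34359738368), (103079215104, 34359738368)] :=
  Pool.Agent.helper14.QF.covD_F chks_eq (.n 1 (.n 0 (.l 6) (.n 0 (.l 6) (.n 1 (.l 6) (.n 0 (.l 4) (.l 4))))) (.n 1 (.n 1 (.n 0 (.l 6) (.n 0 (.n 0 (.l 4) (.l 4)) (.l 4))) (.n 0 (.n 0 (.n 0 (.l 4) (.l 4)) (.l 4)) (.n 0 (.n 0 (.l 4) (.l 4)) (.l 4)))) (.n 0 (.n 0 (.n 0 (.l 4) (.l 4)) (.n 0 (.l 4) (.l 4))) (.n 0 (.n 0 (.l 4) (.l 4)) (.n 0 (.l 4) (.l 4))))))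
    [(352321536000, 14092861440), (94489280512, 94489280512), (1065151889408, 34359738368), (103079215104, 34359738368)] rfl (by decide +kernel)
theorem c1_m25_t53 : CovD 0 progs [(380507258880, 14092861440), (47244640256, 47244640256), (824633720832, 274877906944), (68719476736, 68719476736)] :=
  Pool.Agent.helper14.QF.covD_F chks_eq (.n 0 (.n 0 (.n 0 (.n 1 (.n 2 (.l 4) (.l 4)) (.n 2 (.l 4) (.n 1 (.l 4) (.l 4)))) (.n 2 (.l 4) (.n 1 (.l 4) (.l 4)))) (.n 0 (.n 1 (.l 4) (.n 1 (.l 4) (.l 4))) (.n 1 (.l 4) (.l 4)))) (.n 0 (.n 1 (.l 4) (.l 8)) (.l 8)))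
    [(380507258880, 14092861440), (47244640256, 47244640256), (824633720832, 274877906944), (68719476736, 68719476736)] rfl (by decide +kernel)
end
mutual
theorem c1_m25_t54 : CovD 0 progs [(373460828160, 7046430720), (141733920768, 47244640256), (824633720832, 274877906944), (68719476736, 68719476736)] :=
  Pool.Agent.helper14.QF.covD_F chks_eq (.n 2 (.n 2 (.n 0 (.n 0 (.l 4) (.l 4)) (.l 4)) (.n 0 (.n 0 (.n 1 (.l 4) (.l 4)) (.l 4)) (.l 4))) (.n 0 (.n 0 (.n 1 (.n 2 (.l 4) (.n 0 (.l 4) (.l 4))) (.n 2 (.l 4) (.n 0 (.l 4) (.l 4)))) (.n 1 (.n 1 (.l 4) (.l 4)) (.n 2 (.l 4) (.l 4)))) (.n 1 (.n 0 (.l 4) (.l 4)) (.n 2 (.l 4) (.l 4)))))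
    [(373460828160, 7046430720), (141733920768, 47244640256), (824633720832, 274877906944), (68719476736, 68719476736)] rfl (by decide +kernel)
theorem c1_m25_t55 : CovD 0 progs [(387553689600, 7046430720), (141733920768, 47244640256), (824633720832, 274877906944), (68719476736, 68719476736)] :=
  Pool.Agent.helper14.QF.covD_F chks_eq (.n 0 (.n 2 (.l 8) (.n 1 (.l 4) (.l 4))) (.n 2 (.l 8) (.l 4)))
    [(387553689600, 7046430720), (141733920768, 47244640256), (824633720832, 274877906944), (68719476736, 68719476736)] rfl (by decide +kernel)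
end
theorem c1_m25_t2 : CovD 0 progs [(352321536000, 14092861440), (94489280512, 94489280512), (618475290624, 68719476736), (34359738368, 34359738368)] :=
  covD_split 1 (by decide +kernel) c1_m25_t0 c1_m25_t1
theorem c1_m25_t5 : CovD 0 progs [(352321536000, 14092861440), (94489280512, 94489280512), (721554505728, 34359738368), (34359738368, 34359738368)] :=
  covD_split 0 (by decide +kernel) c1_m25_t3 c1_m25_t4
theorem c1_m25_t8 : CovD 0 progs [(352321536000, 14092861440), (94489280512, 94489280512), (790273982464, 34359738368), (34359738368, 34359738368)] :=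
  covD_split 0 (by decide +kernel) c1_m25_t6 c1_m25_t7
theorem c1_m25_t9 : CovD 0 progs [(352321536000, 14092861440), (94489280512, 94489280512), (755914244096, 68719476736), (34359738368, 34359738368)] :=
  covD_split 2 (by decide +kernel) c1_m25_t5 c1_m25_t8
theorem c1_m25_t10 : CovD 0 progs [(352321536000, 14092861440), (94489280512, 94489280512), (687194767360, 137438953472), (34359738368, 34359738368)] :=
  covD_split 2 (by decide +kernel) c1_m25_t2 c1_m25_t9
theorem c1_m25_t13 : CovD 0 progs [(352321536000, 14092861440), (47244640256, 47244640256), (893353197568, 68719476736), (34359738368, 34359738368)] :=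
  covD_split 1 (by decide +kernel) c1_m25_t11 c1_m25_t12
theorem c1_m25_t16 : CovD 0 progs [(352321536000, 14092861440), (141733920768, 47244640256), (893353197568, 68719476736), (34359738368, 34359738368)] :=
  covD_split 0 (by decide +kernel) c1_m25_t14 c1_m25_t15
theorem c1_m25_t17 : CovD 0 progs [(352321536000, 14092861440), (94489280512, 94489280512), (893353197568, 68719476736), (34359738368, 34359738368)] :=
  covD_split 1 (by decide +kernel) c1_m25_t13 c1_m25_t16
theorem c1_m25_t20 : CovD 0 progs [(352321536000, 14092861440), (94489280512, 94489280512), (996432412672, 34359738368), (34359738368, 34359738368)] :=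
  covD_split 0 (by decide +kernel) c1_m25_t18 c1_m25_t19
theorem c1_m25_t22 : CovD 0 progs [(352321536000, 14092861440), (94489280512, 94489280512), (1030792151040, 68719476736), (34359738368, 34359738368)] :=
  covD_split 2 (by decide +kernel) c1_m25_t20 c1_m25_t21
theorem c1_m25_t23 : CovD 0 progs [(352321536000, 14092861440), (94489280512, 94489280512), (962072674304, 137438953472), (34359738368, 34359738368)] :=
  covD_split 2 (by decide +kernel) c1_m25_t17 c1_m25_t22
theorem c1_m25_t24 : CovD 0 progs [(352321536000, 14092861440), (94489280512, 94489280512), (824633720832, 274877906944), (34359738368, 34359738368)] :=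
  covD_split 2 (by decide +kernel) c1_m25_t10 c1_m25_t23
theorem c1_m25_t27 : CovD 0 progs [(345275105280, 7046430720), (47244640256, 47244640256), (687194767360, 137438953472), (103079215104, 34359738368)] :=
  covD_split 0 (by decide +kernel) c1_m25_t25 c1_m25_t26
theorem c1_m25_t29 : CovD 0 progs [(352321536000, 14092861440), (47244640256, 47244640256), (687194767360, 137438953472), (103079215104, 34359738368)] :=
  covD_split 0 (by decide +kernel) c1_m25_t27 c1_m25_t28
theorem c1_m25_t32 : CovD 0 progs [(352321536000, 14092861440), (141733920768, 47244640256), (618475290624, 68719476736), (103079215104, 34359738368)] :=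
  covD_split 0 (by decide +kernel) c1_m25_t30 c1_m25_t31
theorem c1_m25_t35 : CovD 0 progs [(352321536000, 14092861440), (141733920768, 47244640256), (755914244096, 68719476736), (103079215104, 34359738368)] :=
  covD_split 1 (by decide +kernel) c1_m25_t33 c1_m25_t34
theorem c1_m25_t36 : CovD 0 progs [(352321536000, 14092861440), (141733920768, 47244640256), (687194767360, 137438953472), (103079215104, 34359738368)] :=
  covD_split 2 (by decide +kernel) c1_m25_t32 c1_m25_t35
theorem c1_m25_t37 : CovD 0 progs [(352321536000, 14092861440), (94489280512, 94489280512), (687194767360, 137438953472), (103079215104, 34359738368)] :=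
  covD_split 1 (by decide +kernel) c1_m25_t29 c1_m25_t36
theorem c1_m25_t40 : CovD 0 progs [(352321536000, 14092861440), (47244640256, 47244640256), (893353197568, 68719476736), (103079215104, 34359738368)] :=
  covD_split 0 (by decide +kernel) c1_m25_t38 c1_m25_t39
theorem c1_m25_t43 : CovD 0 progs [(352321536000, 14092861440), (141733920768, 47244640256), (893353197568, 68719476736), (103079215104, 34359738368)] :=
  covD_split 0 (by decide +kernel) c1_m25_t41 c1_m25_t42
theorem c1_m25_t44 : CovD 0 progs [(352321536000, 14092861440), (94489280512, 94489280512), (893353197568, 68719476736), (103079215104, 34359738368)] :=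
  covD_split 1 (by decide +kernel) c1_m25_t40 c1_m25_t43
theorem c1_m25_t47 : CovD 0 progs [(352321536000, 14092861440), (94489280512, 94489280512), (996432412672, 34359738368), (103079215104, 34359738368)] :=
  covD_split 0 (by decide +kernel) c1_m25_t45 c1_m25_t46
theorem c1_m25_t49 : CovD 0 progs [(352321536000, 14092861440), (94489280512, 94489280512), (1030792151040, 68719476736), (103079215104, 34359738368)] :=
  covD_split 2 (by decide +kernel) c1_m25_t47 c1_m25_t48
theorem c1_m25_t50 : CovD 0 progs [(352321536000, 14092861440), (94489280512, 94489280512), (962072674304, 137438953472), (103079215104, 34359738368)] :=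
  covD_split 2 (by decide +kernel) c1_m25_t44 c1_m25_t49
theorem c1_m25_t51 : CovD 0 progs [(352321536000, 14092861440), (94489280512, 94489280512), (824633720832, 274877906944), (103079215104, 34359738368)] :=
  covD_split 2 (by decide +kernel) c1_m25_t37 c1_m25_t50
theorem c1_m25_t52 : CovD 0 progs [(352321536000, 14092861440), (94489280512, 94489280512), (824633720832, 274877906944), (68719476736, 68719476736)] :=
  covD_split 3 (by decide +kernel) c1_m25_t24 c1_m25_t51
theorem c1_m25_t56 : CovD 0 progs [(380507258880, 14092861440), (141733920768, 47244640256), (824633720832, 274877906944), (68719476736, 68719476736)] :=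
  covD_split 0 (by decide +kernel) c1_m25_t54 c1_m25_t55
theorem c1_m25_t57 : CovD 0 progs [(380507258880, 14092861440), (94489280512, 94489280512), (824633720832, 274877906944), (68719476736, 68719476736)] :=
  covD_split 1 (by decide +kernel) c1_m25_t53 c1_m25_t56
theorem c1_m25 : CovD 0 progs [(366414397440, 28185722880), (94489280512, 94489280512), (824633720832, 274877906944), (68719476736, 68719476736)] :=
  covD_split 0 (by decide +kernel) c1_m25_t52 c1_m25_t57

end Pool.Agent.helper71.FJ.Crt.QMa
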