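import Pool.Agent.helper71.FJ.Crt.QMaP

/-!
Generated certificates.
-/

namespace Pool.Agent.helper71.FJ.Crt.QMa

open Pool.Agent.helper31.IA (Z Op)
open Pool.Agent.helper31.IC

mutual
theorem c1_m26_t0 : CovD 0 progs [(339990282240, 1761607680), (47244640256, 47244640256), (687194767360, 137438953472), (171798691840, 34359738368)] :=
  Pool.Agent.helper14.QF.covD_F chks_eq (.n 0 (.n 1 (.n 3 (.l 4) (.n 0 (.l 4) (.l 4))) (.n 1 (.n 2 (.l 4) (.l 4)) (.n 2 (.l 4) (.l 4)))) (.n 1 (.n 0 (.n 1 (.l 4) (.l 4)) (.n 1 (.l 4) (.l 4))) (.n 2 (.n 0 (.l 4) (.l 4)) (.n 3 (.l 4) (.l 4)))))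
    [(339990282240, 1761607680), (47244640256, 47244640256), (687194767360, 137438953472), (171798691840, 34359738368)] rfl (by decide +kernel)
theorem c1_m26_t1 : CovD 0 progs [(343513497600, 1761607680), (47244640256, 47244640256), (687194767360, 137438953472), (171798691840, 34359738368)] :=
  Pool.Agent.helper14.QF.covD_F chks_eq (.n 1 (.n 2 (.n 0 (.l 4) (.l 4)) (.n 3 (.l 4) (.l 4))) (.n 2 (.n 3 (.l 4) (.l 4)) (.n 0 (.n 1 (.l 4) (.l 4)) (.n 0 (.l 4) (.l 4)))))
    [(343513497600, 1761607680), (47244640256, 47244640256), (687194767360, 137438953472), (171798691840, 34359738368)] rfl (by decide +kernel)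
end
mutual
theorem c1_m26_t3 : CovD 0 progs [(348798320640, 3523215360), (47244640256, 47244640256), (687194767360, 137438953472), (171798691840, 34359738368)] :=
  Pool.Agent.helper14.QF.covD_F chks_eq (.n 0 (.n 0 (.n 1 (.n 1 (.l 4) (.l 4)) (.n 2 (.l 4) (.l 4))) (.n 1 (.n 1 (.l 4) (.l 4)) (.n 2 (.l 4) (.n 0 (.l 4) (.l 4))))) (.n 1 (.n 0 (.n 2 (.l 4) (.l 4)) (.n 2 (.l 4) (.l 4))) (.n 2 (.n 3 (.l 4) (.l 4)) (.n 0 (.n 1 (.l 4) (.l 4)) (.n 0 (.l 4) (.l 4))))))
    [(348798320640, 3523215360), (47244640256, 47244640256), (687194767360, 137438953472), (171798691840, 34359738368)] rfl (by decide +kernel)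
theorem c1_m26_t5 : CovD 0 progs [(341751889920, 3523215360), (141733920768, 47244640256), (618475290624, 68719476736), (171798691840, 34359738368)] :=
  Pool.Agent.helper14.QF.covD_F chks_eq (.n 0 (.n 0 (.n 1 (.n 2 (.l 4) (.l 4)) (.n 2 (.l 4) (.l 4))) (.n 1 (.n 2 (.l 4) (.l 4)) (.n 2 (.l 4) (.l 4)))) (.n 0 (.n 1 (.n 1 (.l 4) (.l 4)) (.n 2 (.l 4) (.l 4))) (.n 1 (.n 0 (.l 4) (.l 4)) (.n 1 (.l 4) (.l 4)))))
    [(341751889920, 3523215360), (141733920768, 47244640256), (618475290624, 68719476736), (171798691840, 34359738368)] rfl (by decide +kernel)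
end
mutual
theorem c1_m26_t6 : CovD 0 progs [(348798320640, 3523215360), (141733920768, 47244640256), (618475290624, 68719476736), (171798691840, 34359738368)] :=
  Pool.Agent.helper14.QF.covD_F chks_eq (.n 0 (.n 1 (.n 2 (.l 4) (.l 4)) (.n 2 (.l 4) (.l 4))) (.n 0 (.n 1 (.n 0 (.l 4) (.l 4)) (.n 1 (.l 4) (.l 4))) (.n 1 (.n 0 (.l 4) (.l 4)) (.n 1 (.l 4) (.l 4)))))
    [(348798320640, 3523215360), (141733920768, 47244640256), (618475290624, 68719476736), (171798691840, 34359738368)] rfl (by decide +kernel)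
theorem c1_m26_t8 : CovD 0 progs [(345275105280, 7046430720), (141733920768, 47244640256), (721554505728, 34359738368), (171798691840, 34359738368)] :=
  Pool.Agent.helper14.QF.covD_F chks_eq (.n 0 (.n 0 (.n 1 (.n 3 (.l 4) (.n 0 (.l 4) (.l 4))) (.n 0 (.l 4) (.l 4))) (.n 0 (.n 1 (.l 4) (.l 4)) (.n 1 (.l 4) (.l 4)))) (.n 0 (.n 1 (.n 0 (.l 4) (.l 4)) (.l 4)) (.n 0 (.n 1 (.l 4) (.l 4)) (.n 1 (.l 4) (.l 4)))))
    [(345275105280, 7046430720), (141733920768, 47244640256), (721554505728, 34359738368), (171798691840, 34359738368)] rfl (by decide +kernel)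
end
mutual
theorem c1_m26_t9 : CovD 0 progs [(345275105280, 7046430720), (141733920768, 47244640256), (790273982464, 34359738368), (171798691840, 34359738368)] :=
  Pool.Agent.helper14.QF.covD_F chks_eq (.n 0 (.n 0 (.n 0 (.n 1 (.n 0 (.l 4) (.l 4)) (.l 4)) (.n 1 (.n 0 (.l 4) (.l 4)) (.l 4))) (.n 0 (.n 1 (.l 4) (.l 4)) (.n 1 (.l 4) (.l 4)))) (.n 0 (.n 1 (.n 0 (.l 4) (.l 4)) (.l 4)) (.n 0 (.n 1 (.l 4) (.l 4)) (.n 1 (.l 4) (.l 4)))))
    [(345275105280, 7046430720), (141733920768, 47244640256), (790273982464, 34359738368), (171798691840, 34359738368)] rfl (by decide +kernel)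
theorem c1_m26_t13 : CovD 0 progs [(341751889920, 3523215360), (47244640256, 47244640256), (893353197568, 68719476736), (171798691840, 34359738368)] :=
  Pool.Agent.helper14.QF.covD_F chks_eq (.n 0 (.n 0 (.n 1 (.n 1 (.l 4) (.l 4)) (.n 3 (.l 4) (.n 1 (.l 4) (.l 4)))) (.n 1 (.n 1 (.l 4) (.l 4)) (.n 0 (.n 1 (.l 4) (.l 4)) (.n 1 (.l 4) (.l 4))))) (.n 1 (.n 0 (.n 1 (.l 4) (.l 4)) (.n 0 (.l 4) (.l 4))) (.n 0 (.n 1 (.l 4) (.l 4)) (.n 1 (.l 4) (.l 4)))))
    [(341751889920, 3523215360), (47244640256, 47244640256), (893353197568, 68719476736), (171798691840, 34359738368)] rfl (by decide +kernel)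
end
mutual
theorem c1_m26_t14 : CovD 0 progs [(348798320640, 3523215360), (47244640256, 47244640256), (893353197568, 68719476736), (171798691840, 34359738368)] :=
  Pool.Agent.helper14.QF.covD_F chks_eq (.n 0 (.n 1 (.n 1 (.l 4) (.l 4)) (.n 0 (.n 1 (.l 4) (.l 4)) (.n 1 (.l 4) (.l 4)))) (.n 1 (.n 0 (.n 0 (.l 4) (.l 4)) (.n 0 (.l 4) (.l 4))) (.n 0 (.n 1 (.l 4) (.l 4)) (.n 1 (.l 4) (.l 4)))))
    [(348798320640, 3523215360), (47244640256, 47244640256), (893353197568, 68719476736), (171798691840, 34359738368)] rfl (by decide +kernel)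
theorem c1_m26_t16 : CovD 0 progs [(341751889920, 3523215360), (141733920768, 47244640256), (893353197568, 68719476736), (171798691840, 34359738368)] :=
  Pool.Agent.helper14.QF.covD_F chks_eq (.n 0 (.n 1 (.n 1 (.n 0 (.n 0 (.l 4) (.l 4)) (.n 0 (.l 4) (.l 4))) (.n 2 (.n 0 (.l 4) (.l 4)) (.l 4))) (.n 0 (.n 1 (.l 4) (.l 4)) (.n 1 (.l 4) (.l 4)))) (.n 0 (.n 1 (.n 1 (.l 4) (.l 4)) (.n 1 (.l 4) (.l 4))) (.n 1 (.n 1 (.l 4) (.l 4)) (.n 1 (.l 4) (.l 4)))))
    [(341751889920, 3523215360), (141733920768, 47244640256), (893353197568, 68719476736), (171798691840, 34359738368)] rfl (by decide +kernel)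
end
mutual
theorem c1_m26_t17 : CovD 0 progs [(348798320640, 3523215360), (141733920768, 47244640256), (893353197568, 68719476736), (171798691840, 34359738368)] :=
  Pool.Agent.helper14.QF.covD_F chks_eq (.n 0 (.n 1 (.n 0 (.n 1 (.l 4) (.l 4)) (.n 1 (.l 4) (.l 4))) (.n 2 (.l 4) (.l 4))) (.n 0 (.n 1 (.n 1 (.l 4) (.l 4)) (.n 1 (.l 4) (.l 4))) (.n 1 (.n 1 (.l 4) (.l 4)) (.n 1 (.l 4) (.l 4)))))
    [(348798320640, 3523215360), (141733920768, 47244640256), (893353197568, 68719476736), (171798691840, 34359738368)] rfl (by decide +kernel)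
theorem c1_m26_t20 : CovD 0 progs [(345275105280, 7046430720), (94489280512, 94489280512), (996432412672, 34359738368), (171798691840, 34359738368)] :=
  Pool.Agent.helper14.QF.covD_F chks_eq (.n 1 (.n 1 (.l 6) (.n 1 (.l 6) (.n 2 (.n 0 (.l 6) (.n 0 (.l 4) (.l 4))) (.l 6)))) (.n 0 (.n 0 (.n 1 (.n 1 (.n 0 (.l 4) (.l 4)) (.l 4)) (.n 0 (.l 4) (.l 4))) (.n 1 (.n 1 (.l 4) (.l 4)) (.l 4))) (.n 1 (.n 0 (.n 1 (.l 4) (.l 4)) (.n 1 (.l 4) (.l 4))) (.n 1 (.l 4) (.l 4)))))
    [(345275105280, 7046430720), (94489280512, 94489280512), (996432412672, 34359738368), (171798691840, 34359738368)] rfl (by decide +kernel)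
end
mutual
theorem c1_m26_t21 : CovD 0 progs [(345275105280, 7046430720), (94489280512, 94489280512), (1065151889408, 34359738368), (171798691840, 34359738368)] :=
  Pool.Agent.helper14.QF.covD_F chks_eq (.n 0 (.n 0 (.n 1 (.l 6) (.n 1 (.n 1 (.l 4) (.l 4)) (.n 0 (.l 4) (.l 4)))) (.n 1 (.l 6) (.n 1 (.n 1 (.l 4) (.l 4)) (.l 4)))) (.n 0 (.n 1 (.l 6) (.n 1 (.n 1 (.l 4) (.l 4)) (.l 4))) (.n 1 (.l 6) (.n 1 (.n 1 (.l 4) (.l 4)) (.n 0 (.l 4) (.l 4))))))
    [(345275105280, 7046430720), (94489280512, 94489280512), (1065151889408, 34359738368), (171798691840, 34359738368)] rfl (by decide +kernel)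
theorem c1_m26_t25 : CovD 0 progs [(354083143680, 1761607680), (47244640256, 47244640256), (824633720832, 274877906944), (171798691840, 34359738368)] :=
  Pool.Agent.helper14.QF.covD_F chks_eq (.n 1 (.n 2 (.n 0 (.n 1 (.l 4) (.l 4)) (.n 0 (.l 4) (.l 4))) (.n 2 (.n 3 (.l 4) (.l 4)) (.l 6))) (.n 2 (.n 2 (.n 0 (.l 4) (.l 4)) (.n 3 (.l 4) (.l 4))) (.n 0 (.n 1 (.n 2 (.l 4) (.l 4)) (.n 2 (.l 4) (.l 4))) (.n 1 (.n 1 (.l 4) (.l 4)) (.n 2 (.l 4) (.l 4))))))
    [(354083143680, 1761607680), (47244640256, 47244640256), (824633720832, 274877906944), (171798691840, 34359738368)] rfl (by decide +kernel)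
end
mutual
theorem c1_m26_t26 : CovD 0 progs [(354083143680, 1761607680), (118111600640, 23622320128), (824633720832, 274877906944), (171798691840, 34359738368)] :=
  Pool.Agent.helper14.QF.covD_F chks_eq (.n 2 (.n 2 (.n 3 (.l 4) (.l 4)) (.n 0 (.n 1 (.l 4) (.l 4)) (.n 0 (.l 4) (.l 4)))) (.n 0 (.n 1 (.n 2 (.l 4) (.l 4)) (.n 2 (.l 4) (.l 4))) (.n 1 (.n 2 (.l 4) (.l 4)) (.n 2 (.l 4) (.l 4)))))
    [(354083143680, 1761607680), (118111600640, 23622320128), (824633720832, 274877906944), (171798691840, 34359738368)] rfl (by decide +kernel)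
theorem c1_m26_t27 : CovD 0 progs [(354083143680, 1761607680), (165356240896, 23622320128), (824633720832, 274877906944), (171798691840, 34359738368)] :=
  Pool.Agent.helper14.QF.covD_F chks_eq (.n 2 (.n 2 (.n 3 (.n 0 (.l 4) (.l 4)) (.l 4)) (.n 0 (.n 1 (.l 4) (.l 4)) (.n 1 (.l 4) (.l 4)))) (.n 1 (.n 0 (.n 2 (.l 4) (.l 4)) (.n 2 (.l 4) (.l 4))) (.n 2 (.n 0 (.l 4) (.l 4)) (.l 4))))
    [(354083143680, 1761607680), (165356240896, 23622320128), (824633720832, 274877906944), (171798691840, 34359738368)] rfl (by decide +kernel)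
end
mutual
theorem c1_m26_t30 : CovD 0 progs [(357606359040, 1761607680), (94489280512, 94489280512), (687194767360, 137438953472), (171798691840, 34359738368)] :=
  Pool.Agent.helper14.QF.covD_F chks_eq (.n 1 (.n 1 (.n 0 (.l 4) (.l 4)) (.n 3 (.n 0 (.l 4) (.l 4)) (.l 4))) (.n 1 (.n 0 (.n 2 (.l 4) (.l 4)) (.n 2 (.l 4) (.l 4))) (.n 2 (.n 0 (.l 4) (.l 4)) (.n 2 (.l 4) (.l 4)))))
    [(357606359040, 1761607680), (94489280512, 94489280512), (687194767360, 137438953472), (171798691840, 34359738368)] rfl (by decide +kernel)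
theorem c1_m26_t31 : CovD 0 progs [(357606359040, 1761607680), (94489280512, 94489280512), (962072674304, 137438953472), (171798691840, 34359738368)] :=
  Pool.Agent.helper14.QF.covD_F chks_eq (.n 1 (.n 1 (.n 2 (.n 0 (.l 4) (.l 4)) (.l 6)) (.n 2 (.n 0 (.l 4) (.l 4)) (.n 2 (.n 0 (.l 4) (.l 4)) (.l 6)))) (.n 1 (.n 1 (.n 0 (.n 2 (.l 4) (.l 4)) (.n 1 (.l 4) (.l 4))) (.n 2 (.l 4) (.l 4))) (.n 1 (.n 2 (.l 4) (.l 4)) (.n 2 (.l 4) (.l 4)))))
    [(357606359040, 1761607680), (94489280512, 94489280512), (962072674304, 137438953472), (171798691840, 34359738368)] rfl (by decide +kernel)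
end
mutual
theorem c1_m26_t34 : CovD 0 progs [(361129574400, 1761607680), (94489280512, 94489280512), (824633720832, 274877906944), (171798691840, 34359738368)] :=
  Pool.Agent.helper14.QF.covD_F chks_eq (.n 1 (.n 1 (.n 2 (.l 4) (.n 0 (.l 4) (.l 4))) (.n 1 (.n 2 (.l 4) (.l 4)) (.n 2 (.l 4) (.n 0 (.l 4) (.l 4))))) (.n 1 (.n 2 (.n 2 (.l 4) (.l 4)) (.n 0 (.n 2 (.l 4) (.l 4)) (.n 2 (.l 4) (.l 4)))) (.n 2 (.n 2 (.l 4) (.n 0 (.l 4) (.l 4))) (.n 0 (.n 2 (.l 4) (.l 4)) (.n 2 (.l 4) (.l 4))))))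
    [(361129574400, 1761607680), (94489280512, 94489280512), (824633720832, 274877906944), (171798691840, 34359738368)] rfl (by decide +kernel)
theorem c1_m26_t35 : CovD 0 progs [(364652789760, 1761607680), (94489280512, 94489280512), (824633720832, 274877906944), (171798691840, 34359738368)] :=
  Pool.Agent.helper14.QF.covD_F chks_eq (.n 1 (.n 1 (.n 1 (.l 4) (.l 4)) (.n 2 (.l 4) (.n 0 (.l 4) (.l 4)))) (.n 1 (.n 2 (.l 4) (.n 2 (.l 4) (.l 4))) (.n 2 (.n 1 (.l 4) (.l 4)) (.n 2 (.l 4) (.l 4)))))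
    [(364652789760, 1761607680), (94489280512, 94489280512), (824633720832, 274877906944), (171798691840, 34359738368)] rfl (by decide +kernel)
end
theorem c1_m26_t2 : CovD 0 progs [(341751889920, 3523215360), (47244640256, 47244640256), (687194767360, 137438953472), (171798691840, 34359738368)] :=
  covD_split 0 (by decide +kernel) c1_m26_t0 c1_m26_t1
theorem c1_m26_t4 : CovD 0 progs [(345275105280, 7046430720), (47244640256, 47244640256), (687194767360, 137438953472), (171798691840, 34359738368)] :=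
  covD_split 0 (by decide +kernel) c1_m26_t2 c1_m26_t3
theorem c1_m26_t7 : CovD 0 progs [(345275105280, 7046430720), (141733920768, 47244640256), (618475290624, 68719476736), (171798691840, 34359738368)] :=
  covD_split 0 (by decide +kernel) c1_m26_t5 c1_m26_t6
theorem c1_m26_t10 : CovD 0 progs [(345275105280, 7046430720), (141733920768, 47244640256), (755914244096, 68719476736), (171798691840, 34359738368)] :=
  covD_split 2 (by decide +kernel) c1_m26_t8 c1_m26_t9
theorem c1_m26_t11 : CovD 0 progs [(345275105280, 7046430720), (141733920768, 47244640256), (687194767360, 137438953472), (171798691840, 34359738368)] :=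
  covD_split 2 (by decide +kernel) c1_m26_t7 c1_m26_t10
theorem c1_m26_t12 : CovD 0 progs [(345275105280, 7046430720), (94489280512, 94489280512), (687194767360, 137438953472), (171798691840, 34359738368)] :=
  covD_split 1 (by decide +kernel) c1_m26_t4 c1_m26_t11
theorem c1_m26_t15 : CovD 0 progs [(345275105280, 7046430720), (47244640256, 47244640256), (893353197568, 68719476736), (171798691840, 34359738368)] :=
  covD_split 0 (by decide +kernel) c1_m26_t13 c1_m26_t14
theorem c1_m26_t18 : CovD 0 progs [(345275105280, 7046430720), (141733920768, 47244640256), (893353197568, 68719476736), (171798691840, 34359738368)] :=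
  covD_split 0 (by decide +kernel) c1_m26_t16 c1_m26_t17
theorem c1_m26_t19 : CovD 0 progs [(345275105280, 7046430720), (94489280512, 94489280512), (893353197568, 68719476736), (171798691840, 34359738368)] :=
  covD_split 1 (by decide +kernel) c1_m26_t15 c1_m26_t18
theorem c1_m26_t22 : CovD 0 progs [(345275105280, 7046430720), (94489280512, 94489280512), (1030792151040, 68719476736), (171798691840, 34359738368)] :=
  covD_split 2 (by decide +kernel) c1_m26_t20 c1_m26_t21
theorem c1_m26_t23 : CovD 0 progs [(345275105280, 7046430720), (94489280512, 94489280512), (962072674304, 137438953472), (171798691840, 34359738368)] :=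
  covD_split 2 (by decide +kernel) c1_m26_t19 c1_m26_t22
theorem c1_m26_t24 : CovD 0 progs [(345275105280, 7046430720), (94489280512, 94489280512), (824633720832, 274877906944), (171798691840, 34359738368)] :=
  covD_split 2 (by decide +kernel) c1_m26_t12 c1_m26_t23
theorem c1_m26_t28 : CovD 0 progs [(354083143680, 1761607680), (141733920768, 47244640256), (824633720832, 274877906944), (171798691840, 34359738368)] :=
  covD_split 1 (by decide +kernel) c1_m26_t26 c1_m26_t27
theorem c1_m26_t29 : CovD 0 progs [(354083143680, 1761607680), (94489280512, 94489280512), (824633720832, 274877906944), (171798691840, 34359738368)] :=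
  covD_split 1 (by decide +kernel) c1_m26_t25 c1_m26_t28
theorem c1_m26_t32 : CovD 0 progs [(357606359040, 1761607680), (94489280512, 94489280512), (824633720832, 274877906944), (171798691840, 34359738368)] :=
  covD_split 2 (by decide +kernel) c1_m26_t30 c1_m26_t31
theorem c1_m26_t33 : CovD 0 progs [(355844751360, 3523215360), (94489280512, 94489280512), (824633720832, 274877906944), (171798691840, 34359738368)] :=
  covD_split 0 (by decide +kernel) c1_m26_t29 c1_m26_t32
theorem c1_m26_t36 : CovD 0 progs [(362891182080, 3523215360), (94489280512, 94489280512), (824633720832, 274877906944), (171798691840, 34359738368)] :=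
  covD_split 0 (by decide +kernel) c1_m26_t34 c1_m26_t35
theorem c1_m26_t37 : CovD 0 progs [(359367966720, 7046430720), (94489280512, 94489280512), (824633720832, 274877906944), (171798691840, 34359738368)] :=
  covD_split 0 (by decide +kernel) c1_m26_t33 c1_m26_t36
theorem c1_m26 : CovD 0 progs [(352321536000, 14092861440), (94489280512, 94489280512), (824633720832, 274877906944), (171798691840, 34359738368)] :=
  covD_split 0 (by decide +kernel) c1_m26_t24 c1_m26_t37

end Pool.Agent.helper71.FJ.Crt.QMa
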