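import Pool.Agent.helper71.FJ.Crt.QMaP

/-!
Generated certificates.
-/

namespace Pool.Agent.helper71.FJ.Crt.QMa

open Pool.Agent.helper31.IA (Z Op)
open Pool.Agent.helper31.IC

mutual
theorem c1_m32_t0 : CovD 0 progs [(339990282240, 1761607680), (47244640256, 47244640256), (824633720832, 274877906944), (446676598784, 34359738368)] :=
  Pool.Agent.helper14.QF.covD_F chks_eq (.n 2 (.n 3 (.n 0 (.n 1 (.l 4) (.l 4)) (.l 4)) (.l 4)) (.n 2 (.n 3 (.n 0 (.l 4) (.l 4)) (.l 4)) (.n 2 (.l 6) (.l 6))))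
    [(339990282240, 1761607680), (47244640256, 47244640256), (824633720832, 274877906944), (446676598784, 34359738368)] rfl (by decide +kernel)
theorem c1_m32_t1 : CovD 0 progs [(339990282240, 1761607680), (141733920768, 47244640256), (824633720832, 274877906944), (446676598784, 34359738368)] :=
  Pool.Agent.helper14.QF.covD_F chks_eq (.n 1 (.n 2 (.n 3 (.n 0 (.l 4) (.l 4)) (.l 4)) (.n 2 (.n 3 (.l 4) (.l 4)) (.n 3 (.n 0 (.l 4) (.l 4)) (.l 4)))) (.n 2 (.n 3 (.n 2 (.l 4) (.l 4)) (.l 4)) (.n 2 (.n 3 (.n 0 (.l 4) (.l 4)) (.l 4)) (.n 3 (.n 0 (.l 4) (.l 4)) (.l 4)))))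
    [(339990282240, 1761607680), (141733920768, 47244640256), (824633720832, 274877906944), (446676598784, 34359738368)] rfl (by decide +kernel)
end
mutual
theorem c1_m32_t3 : CovD 0 progs [(339990282240, 1761607680), (94489280512, 94489280512), (824633720832, 274877906944), (515396075520, 34359738368)] :=
  Pool.Agent.helper14.QF.covD_F chks_eq (.n 2 (.n 3 (.n 1 (.l 4) (.l 4)) (.l 8)) (.n 1 (.n 3 (.l 4) (.l 4)) (.n 1 (.n 3 (.l 4) (.l 4)) (.n 3 (.l 4) (.l 4)))))
    [(339990282240, 1761607680), (94489280512, 94489280512), (824633720832, 274877906944), (515396075520, 34359738368)] rfl (by decide +kernel)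
theorem c1_m32_t5 : CovD 0 progs [(343513497600, 1761607680), (94489280512, 94489280512), (824633720832, 274877906944), (481036337152, 68719476736)] :=
  Pool.Agent.helper14.QF.covD_F chks_eq (.n 3 (.n 1 (.n 2 (.n 3 (.l 4) (.l 4)) (.n 3 (.n 1 (.l 4) (.l 4)) (.l 4))) (.n 2 (.n 3 (.n 2 (.l 4) (.l 4)) (.l 4)) (.n 1 (.n 3 (.n 1 (.l 4) (.l 4)) (.l 4)) (.n 2 (.n 3 (.l 4) (.l 4)) (.n 3 (.l 4) (.l 4)))))) (.n 1 (.n 3 (.n 1 (.l 4) (.l 4)) (.l 8)) (.n 2 (.n 3 (.l 4) (.l 4)) (.n 3 (.n 1 (.l 4) (.l 4)) (.l 4)))))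
    [(343513497600, 1761607680), (94489280512, 94489280512), (824633720832, 274877906944), (481036337152, 68719476736)] rfl (by decide +kernel)
end
mutual
theorem c1_m32_t7 : CovD 0 progs [(348798320640, 3523215360), (94489280512, 94489280512), (824633720832, 274877906944), (446676598784, 34359738368)] :=
  Pool.Agent.helper14.QF.covD_F chks_eq (.n 1 (.n 1 (.n 3 (.n 0 (.l 4) (.l 4)) (.l 4)) (.n 0 (.n 3 (.n 1 (.l 4) (.l 4)) (.l 4)) (.n 3 (.l 4) (.l 4)))) (.n 1 (.n 2 (.n 3 (.l 4) (.l 4)) (.n 3 (.n 0 (.l 4) (.l 4)) (.l 4))) (.n 2 (.n 3 (.n 0 (.l 4) (.l 4)) (.l 4)) (.n 2 (.n 3 (.l 4) (.l 4)) (.n 3 (.l 4) (.l 4))))))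
    [(348798320640, 3523215360), (94489280512, 94489280512), (824633720832, 274877906944), (446676598784, 34359738368)] rfl (by decide +kernel)
theorem c1_m32_t8 : CovD 0 progs [(348798320640, 3523215360), (94489280512, 94489280512), (824633720832, 274877906944), (515396075520, 34359738368)] :=
  Pool.Agent.helper14.QF.covD_F chks_eq (.n 1 (.n 3 (.n 1 (.l 4) (.l 8)) (.l 8)) (.n 2 (.n 3 (.l 8) (.l 8)) (.n 3 (.n 0 (.l 4) (.l 4)) (.l 4))))
    [(348798320640, 3523215360), (94489280512, 94489280512), (824633720832, 274877906944), (515396075520, 34359738368)] rfl (by decide +kernel)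
end
mutual
theorem c1_m32_t11 : CovD 0 progs [(359367966720, 7046430720), (94489280512, 94489280512), (824633720832, 274877906944), (481036337152, 68719476736)] :=
  Pool.Agent.helper14.QF.covD_F chks_eq (.n 0 (.n 1 (.n 3 (.n 1 (.n 3 (.l 4) (.l 4)) (.n 3 (.l 8) (.l 8))) (.n 3 (.l 8) (.l 8))) (.n 2 (.n 3 (.n 3 (.l 8) (.l 8)) (.l 8)) (.n 3 (.n 3 (.n 1 (.l 4) (.l 4)) (.l 4)) (.n 0 (.l 4) (.l 4))))) (.n 2 (.n 3 (.n 1 (.l 4) (.l 8)) (.l 8)) (.n 1 (.n 3 (.n 0 (.l 4) (.l 4)) (.l 4)) (.n 3 (.n 1 (.l 4) (.l 4)) (.l 8)))))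
    [(359367966720, 7046430720), (94489280512, 94489280512), (824633720832, 274877906944), (481036337152, 68719476736)] rfl (by decide +kernel)
theorem c1_m32_t13 : CovD 0 progs [(373460828160, 7046430720), (94489280512, 94489280512), (824633720832, 274877906944), (481036337152, 68719476736)] :=
  Pool.Agent.helper14.QF.covD_F chks_eq (.n 1 (.n 2 (.n 3 (.l 8) (.l 8)) (.n 3 (.n 0 (.l 4) (.l 4)) (.l 4))) (.n 2 (.n 3 (.n 0 (.l 8) (.l 8)) (.l 8)) (.n 2 (.n 3 (.l 4) (.l 8)) (.n 3 (.l 4) (.l 4)))))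
    [(373460828160, 7046430720), (94489280512, 94489280512), (824633720832, 274877906944), (481036337152, 68719476736)] rfl (by decide +kernel)
theorem c1_m32_t14 : CovD 0 progs [(387553689600, 7046430720), (94489280512, 94489280512), (824633720832, 274877906944), (481036337152, 68719476736)] :=
  Pool.Agent.helper14.QF.covD_F chks_eq (.n 1 (.n 2 (.n 0 (.l 8) (.l 8)) (.n 3 (.l 4) (.l 8))) (.n 1 (.n 0 (.n 2 (.l 8) (.l 8)) (.n 2 (.l 8) (.l 8))) (.n 0 (.n 2 (.l 8) (.n 2 (.l 8) (.l 4))) (.n 2 (.n 2 (.l 8) (.l 8)) (.n 1 (.l 8) (.n 2 (.l 8) (.n 3 (.l 4) (.l 3))))))))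
    [(387553689600, 7046430720), (94489280512, 94489280512), (824633720832, 274877906944), (481036337152, 68719476736)] rfl (by decide +kernel)
end
theorem c1_m32_t2 : CovD 0 progs [(339990282240, 1761607680), (94489280512, 94489280512), (824633720832, 274877906944), (446676598784, 34359738368)] :=
  covD_split 1 (by decide +kernel) c1_m32_t0 c1_m32_t1
theorem c1_m32_t4 : CovD 0 progs [(339990282240, 1761607680), (94489280512, 94489280512), (824633720832, 274877906944), (481036337152, 68719476736)] :=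
  covD_split 3 (by decide +kernel) c1_m32_t2 c1_m32_t3
theorem c1_m32_t6 : CovD 0 progs [(341751889920, 3523215360), (94489280512, 94489280512), (824633720832, 274877906944), (481036337152, 68719476736)] :=
  covD_split 0 (by decide +kernel) c1_m32_t4 c1_m32_t5
theorem c1_m32_t9 : CovD 0 progs [(348798320640, 3523215360), (94489280512, 94489280512), (824633720832, 274877906944), (481036337152, 68719476736)] :=
  covD_split 3 (by decide +kernel) c1_m32_t7 c1_m32_t8
theorem c1_m32_t10 : CovD 0 progs [(345275105280, 7046430720), (94489280512, 94489280512), (824633720832, 274877906944), (481036337152, 68719476736)] :=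
  covD_split 0 (by decide +kernel) c1_m32_t6 c1_m32_t9
theorem c1_m32_t12 : CovD 0 progs [(352321536000, 14092861440), (94489280512, 94489280512), (824633720832, 274877906944), (481036337152, 68719476736)] :=
  covD_split 0 (by decide +kernel) c1_m32_t10 c1_m32_t11
theorem c1_m32_t15 : CovD 0 progs [(380507258880, 14092861440), (94489280512, 94489280512), (824633720832, 274877906944), (481036337152, 68719476736)] :=
  covD_split 0 (by decide +kernel) c1_m32_t13 c1_m32_t14
theorem c1_m32 : CovD 0 progs [(366414397440, 28185722880), (94489280512, 94489280512), (824633720832, 274877906944), (481036337152, 68719476736)] :=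
  covD_split 0 (by decide +kernel) c1_m32_t12 c1_m32_t15

end Pool.Agent.helper71.FJ.Crt.QMa
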