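import Pool.Agent.helper71.FJ.Crt.QMaP

/-!
Generated certificates.
-/

namespace Pool.Agent.helper71.FJ.Crt.QMa

open Pool.Agent.helper31.IA (Z Op)
open Pool.Agent.helper31.IC

mutual
theorem c1_m33_t0 : CovD 0 progs [(408692981760, 14092861440), (94489280512, 94489280512), (824633720832, 274877906944), (68719476736, 68719476736)] :=
  Pool.Agent.helper14.QF.covD_F chks_eq (.n 0 (.n 1 (.n 0 (.l 9) (.l 9)) (.n 2 (.l 8) (.n 1 (.l 4) (.l 4)))) (.n 2 (.n 2 (.l 8) (.l 8)) (.n 1 (.l 4) (.n 2 (.n 2 (.l 8) (.l 4)) (.l 4)))))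
    [(408692981760, 14092861440), (94489280512, 94489280512), (824633720832, 274877906944), (68719476736, 68719476736)] rfl (by decide +kernel)
theorem c1_m33_t1 : CovD 0 progs [(436878704640, 14092861440), (94489280512, 94489280512), (824633720832, 274877906944), (68719476736, 68719476736)] :=
  Pool.Agent.helper14.QF.covD_F chks_eq (.n 0 (.n 1 (.n 2 (.l 8) (.l 8)) (.n 0 (.n 2 (.n 2 (.l 8) (.l 8)) (.n 1 (.l 8) (.n 2 (.n 1 (.l 0) (.l 3)) (.l 4)))) (.n 1 (.n 2 (.l 0) (.l 7)) (.n 2 (.n 1 (.l 0) (.l 7)) (.n 2 (.l 3) (.l 3)))))) (.n 1 (.n 2 (.l 0) (.l 9)) (.n 1 (.n 2 (.l 0) (.l 0)) (.n 2 (.n 0 (.l 7) (.l 0)) (.n 2 (.l 0) (.l 3))))))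
    [(436878704640, 14092861440), (94489280512, 94489280512), (824633720832, 274877906944), (68719476736, 68719476736)] rfl (by decide +kernel)
end
mutual
theorem c1_m33_t3 : CovD 0 progs [(408692981760, 14092861440), (94489280512, 94489280512), (824633720832, 274877906944), (206158430208, 68719476736)] :=
  Pool.Agent.helper14.QF.covD_F chks_eq (.n 0 (.n 1 (.n 2 (.l 8) (.l 4)) (.n 2 (.n 0 (.l 8) (.l 8)) (.n 2 (.l 8) (.l 4)))) (.n 1 (.n 2 (.l 8) (.l 8)) (.n 0 (.n 1 (.n 2 (.l 8) (.l 8)) (.n 2 (.l 8) (.n 2 (.l 8) (.l 4)))) (.n 1 (.n 2 (.l 8) (.l 8)) (.n 2 (.n 2 (.l 8) (.l 8)) (.n 1 (.n 2 (.l 8) (.l 4)) (.n 2 (.n 3 (.l 3) (.l 3)) (.n 0 (.l 4) (.l 3)))))))))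
    [(408692981760, 14092861440), (94489280512, 94489280512), (824633720832, 274877906944), (206158430208, 68719476736)] rfl (by decide +kernel)
theorem c1_m33_t4 : CovD 0 progs [(429832273920, 7046430720), (94489280512, 94489280512), (824633720832, 274877906944), (206158430208, 68719476736)] :=
  Pool.Agent.helper14.QF.covD_F chks_eq (.n 1 (.n 2 (.l 0) (.l 9)) (.n 0 (.n 1 (.n 2 (.l 7) (.l 8)) (.n 2 (.n 2 (.l 7) (.n 1 (.l 0) (.l 7))) (.n 2 (.n 3 (.l 3) (.l 0)) (.n 3 (.l 3) (.l 0))))) (.n 1 (.n 2 (.l 0) (.n 0 (.l 1) (.l 0))) (.n 1 (.n 2 (.l 0) (.l 3)) (.n 2 (.l 7) (.n 2 (.l 0) (.l 0)))))))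
    [(429832273920, 7046430720), (94489280512, 94489280512), (824633720832, 274877906944), (206158430208, 68719476736)] rfl (by decide +kernel)
end
mutual
theorem c1_m33_t5 : CovD 0 progs [(443925135360, 7046430720), (94489280512, 94489280512), (824633720832, 274877906944), (206158430208, 68719476736)] :=
  Pool.Agent.helper14.QF.covD_F chks_eq (.n 1 (.n 1 (.l 0) (.n 0 (.l 0) (.l 0))) (.n 1 (.n 2 (.l 0) (.n 0 (.l 0) (.l 0))) (.n 1 (.n 2 (.l 0) (.l 0)) (.n 2 (.l 7) (.n 0 (.l 1) (.l 0))))))
    [(443925135360, 7046430720), (94489280512, 94489280512), (824633720832, 274877906944), (206158430208, 68719476736)] rfl (by decide +kernel)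
theorem c1_m33_t9 : CovD 0 progs [(422785843200, 28185722880), (47244640256, 47244640256), (824633720832, 274877906944), (343597383680, 68719476736)] :=
  Pool.Agent.helper14.QF.covD_F chks_eq (.n 0 (.n 0 (.n 2 (.l 8) (.n 0 (.l 4) (.l 8))) (.n 1 (.l 0) (.n 2 (.l 9) (.l 8)))) (.n 1 (.l 0) (.n 0 (.n 1 (.l 0) (.l 0)) (.l 0))))
    [(422785843200, 28185722880), (47244640256, 47244640256), (824633720832, 274877906944), (343597383680, 68719476736)] rfl (by decide +kernel)
end
mutual
theorem c1_m33_t10 : CovD 0 progs [(422785843200, 28185722880), (118111600640, 23622320128), (824633720832, 274877906944), (343597383680, 68719476736)] :=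
  Pool.Agent.helper14.QF.covD_F chks_eq (.n 0 (.n 0 (.n 2 (.l 8) (.l 8)) (.n 2 (.n 2 (.l 9) (.l 9)) (.n 1 (.l 8) (.n 2 (.l 8) (.l 4))))) (.n 0 (.n 2 (.l 0) (.n 3 (.l 7) (.l 0))) (.n 2 (.l 0) (.l 0))))
    [(422785843200, 28185722880), (118111600640, 23622320128), (824633720832, 274877906944), (343597383680, 68719476736)] rfl (by decide +kernel)
theorem c1_m33_t11 : CovD 0 progs [(401646551040, 7046430720), (165356240896, 23622320128), (824633720832, 274877906944), (343597383680, 68719476736)] :=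
  Pool.Agent.helper14.QF.covD_F chks_eq (.n 2 (.n 0 (.l 8) (.n 2 (.l 8) (.l 8))) (.n 1 (.l 8) (.n 2 (.l 8) (.n 0 (.l 4) (.n 3 (.l 4) (.l 3))))))
    [(401646551040, 7046430720), (165356240896, 23622320128), (824633720832, 274877906944), (343597383680, 68719476736)] rfl (by decide +kernel)
end
mutual
theorem c1_m33_t12 : CovD 0 progs [(415739412480, 7046430720), (165356240896, 23622320128), (824633720832, 274877906944), (343597383680, 68719476736)] :=
  Pool.Agent.helper14.QF.covD_F chks_eq (.n 0 (.n 2 (.n 1 (.n 2 (.l 7) (.l 8)) (.n 3 (.l 8) (.l 7))) (.n 2 (.n 3 (.l 8) (.l 7)) (.n 1 (.l 8) (.n 3 (.l 3) (.l 0))))) (.n 2 (.n 3 (.n 1 (.l 0) (.l 7)) (.l 7)) (.n 1 (.n 2 (.l 3) (.l 3)) (.n 3 (.n 2 (.l 0) (.l 0)) (.l 0)))))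
    [(415739412480, 7046430720), (165356240896, 23622320128), (824633720832, 274877906944), (343597383680, 68719476736)] rfl (by decide +kernel)
theorem c1_m33_t14 : CovD 0 progs [(436878704640, 14092861440), (165356240896, 23622320128), (824633720832, 274877906944), (343597383680, 68719476736)] :=
  Pool.Agent.helper14.QF.covD_F chks_eq (.n 0 (.n 2 (.n 0 (.n 2 (.l 0) (.l 7)) (.l 7)) (.n 2 (.n 3 (.l 0) (.l 0)) (.n 3 (.l 3) (.l 0)))) (.n 2 (.l 0) (.n 2 (.l 0) (.l 0))))
    [(436878704640, 14092861440), (165356240896, 23622320128), (824633720832, 274877906944), (343597383680, 68719476736)] rfl (by decide +kernel)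
end
mutual
theorem c1_m33_t18 : CovD 0 progs [(401646551040, 7046430720), (94489280512, 94489280512), (824633720832, 274877906944), (481036337152, 68719476736)] :=
  Pool.Agent.helper14.QF.covD_F chks_eq (.n 2 (.n 1 (.n 1 (.l 8) (.l 9)) (.n 2 (.n 0 (.l 9) (.n 3 (.l 7) (.l 0))) (.n 1 (.l 9) (.n 3 (.n 0 (.l 8) (.l 0)) (.l 0))))) (.n 1 (.l 9) (.n 1 (.n 2 (.n 2 (.l 8) (.l 8)) (.l 8)) (.n 2 (.n 0 (.n 3 (.l 8) (.l 0)) (.n 3 (.l 3) (.l 0))) (.n 1 (.n 3 (.l 8) (.l 0)) (.n 3 (.n 0 (.l 3) (.l 0)) (.l 0)))))))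
    [(401646551040, 7046430720), (94489280512, 94489280512), (824633720832, 274877906944), (481036337152, 68719476736)] rfl (by decide +kernel)
theorem c1_m33_t19 : CovD 0 progs [(415739412480, 7046430720), (94489280512, 94489280512), (824633720832, 274877906944), (481036337152, 68719476736)] :=
  Pool.Agent.helper14.QF.covD_F chks_eq (.n 1 (.n 1 (.l 0) (.n 2 (.l 0) (.l 0))) (.n 1 (.n 2 (.n 0 (.l 0) (.l 0)) (.n 3 (.l 0) (.l 0))) (.n 2 (.n 3 (.n 0 (.l 0) (.l 0)) (.l 0)) (.n 2 (.n 3 (.l 0) (.l 0)) (.n 3 (.l 3) (.l 0))))))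
    [(415739412480, 7046430720), (94489280512, 94489280512), (824633720832, 274877906944), (481036337152, 68719476736)] rfl (by decide +kernel)
theorem c1_m33_t21 : CovD 0 progs [(436878704640, 14092861440), (94489280512, 94489280512), (824633720832, 274877906944), (481036337152, 68719476736)] :=
  Pool.Agent.helper14.QF.covD_F chks_eq (.n 0 (.n 1 (.n 1 (.l 0) (.l 0)) (.n 1 (.n 2 (.l 0) (.l 0)) (.n 2 (.l 1) (.n 3 (.l 0) (.l 0))))) (.n 1 (.l 0) (.n 2 (.l 0) (.n 1 (.l 0) (.l 0)))))
    [(436878704640, 14092861440), (94489280512, 94489280512), (824633720832, 274877906944), (481036337152, 68719476736)] rfl (by decide +kernel)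
end
theorem c1_m33_t2 : CovD 0 progs [(422785843200, 28185722880), (94489280512, 94489280512), (824633720832, 274877906944), (68719476736, 68719476736)] :=
  covD_split 0 (by decide +kernel) c1_m33_t0 c1_m33_t1
theorem c1_m33_t6 : CovD 0 progs [(436878704640, 14092861440), (94489280512, 94489280512), (824633720832, 274877906944), (206158430208, 68719476736)] :=
  covD_split 0 (by decide +kernel) c1_m33_t4 c1_m33_t5
theorem c1_m33_t7 : CovD 0 progs [(422785843200, 28185722880), (94489280512, 94489280512), (824633720832, 274877906944), (206158430208, 68719476736)] :=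
  covD_split 0 (by decide +kernel) c1_m33_t3 c1_m33_t6
theorem c1_m33_t8 : CovD 0 progs [(422785843200, 28185722880), (94489280512, 94489280512), (824633720832, 274877906944), (137438953472, 137438953472)] :=
  covD_split 3 (by decide +kernel) c1_m33_t2 c1_m33_t7
theorem c1_m33_t13 : CovD 0 progs [(408692981760, 14092861440), (165356240896, 23622320128), (824633720832, 274877906944), (343597383680, 68719476736)] :=
  covD_split 0 (by decide +kernel) c1_m33_t11 c1_m33_t12
theorem c1_m33_t15 : CovD 0 progs [(422785843200, 28185722880), (165356240896, 23622320128), (824633720832, 274877906944), (343597383680, 68719476736)] :=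
  covD_split 0 (by decide +kernel) c1_m33_t13 c1_m33_t14
theorem c1_m33_t16 : CovD 0 progs [(422785843200, 28185722880), (141733920768, 47244640256), (824633720832, 274877906944), (343597383680, 68719476736)] :=
  covD_split 1 (by decide +kernel) c1_m33_t10 c1_m33_t15
theorem c1_m33_t17 : CovD 0 progs [(422785843200, 28185722880), (94489280512, 94489280512), (824633720832, 274877906944), (343597383680, 68719476736)] :=
  covD_split 1 (by decide +kernel) c1_m33_t9 c1_m33_t16
theorem c1_m33_t20 : CovD 0 progs [(408692981760, 14092861440), (94489280512, 94489280512), (824633720832, 274877906944), (481036337152, 68719476736)] :=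
  covD_split 0 (by decide +kernel) c1_m33_t18 c1_m33_t19
theorem c1_m33_t22 : CovD 0 progs [(422785843200, 28185722880), (94489280512, 94489280512), (824633720832, 274877906944), (481036337152, 68719476736)] :=
  covD_split 0 (by decide +kernel) c1_m33_t20 c1_m33_t21
theorem c1_m33_t23 : CovD 0 progs [(422785843200, 28185722880), (94489280512, 94489280512), (824633720832, 274877906944), (412316860416, 137438953472)] :=
  covD_split 3 (by decide +kernel) c1_m33_t17 c1_m33_t22
theorem c1_m33 : CovD 0 progs [(422785843200, 28185722880), (94489280512, 94489280512), (824633720832, 274877906944), (274877906944, 274877906944)] :=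
  covD_split 3 (by decide +kernel) c1_m33_t8 c1_m33_t23

end Pool.Agent.helper71.FJ.Crt.QMa
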