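import Pool.Agent.helper71.FJ.Crt.QMaP

/-!
Generated certificates.
-/

namespace Pool.Agent.helper71.FJ.Crt.QMa

open Pool.Agent.helper31.IA (Z Op)
open Pool.Agent.helper31.IC

mutual
theorem c1_m34_t0 : CovD 0 progs [(232532213760, 7046430720), (94489280512, 94489280512), (274877906944, 274877906944), (618475290624, 68719476736)] :=
  Pool.Agent.helper14.QF.covD_F chks_eq (.n 0 (.n 3 (.n 3 (.l 10) (.l 8)) (.n 3 (.l 8) (.n 0 (.l 8) (.l 8)))) (.n 3 (.n 3 (.l 8) (.l 8)) (.n 0 (.n 3 (.l 8) (.l 8)) (.n 3 (.l 8) (.n 0 (.l 4) (.l 4))))))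
    [(232532213760, 7046430720), (94489280512, 94489280512), (274877906944, 274877906944), (618475290624, 68719476736)] rfl (by decide +kernel)
theorem c1_m34_t1 : CovD 0 progs [(243101859840, 3523215360), (94489280512, 94489280512), (274877906944, 274877906944), (618475290624, 68719476736)] :=
  Pool.Agent.helper14.QF.covD_F chks_eq (.n 0 (.n 3 (.n 0 (.l 8) (.l 8)) (.n 3 (.l 8) (.n 3 (.l 4) (.l 4)))) (.n 3 (.n 3 (.l 8) (.l 8)) (.n 3 (.n 0 (.l 8) (.l 8)) (.n 3 (.l 4) (.n 1 (.l 4) (.l 4))))))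
    [(243101859840, 3523215360), (94489280512, 94489280512), (274877906944, 274877906944), (618475290624, 68719476736)] rfl (by decide +kernel)
theorem c1_m34_t2 : CovD 0 progs [(250148290560, 3523215360), (94489280512, 94489280512), (274877906944, 274877906944), (618475290624, 68719476736)] :=
  Pool.Agent.helper14.QF.covD_F chks_eq (.n 0 (.n 3 (.n 3 (.l 8) (.l 8)) (.n 2 (.n 3 (.l 4) (.n 0 (.l 4) (.l 4))) (.n 3 (.l 4) (.n 3 (.l 4) (.l 4))))) (.n 3 (.n 3 (.l 8) (.l 8)) (.n 3 (.n 2 (.l 4) (.n 0 (.l 4) (.l 4))) (.n 2 (.n 3 (.l 4) (.l 4)) (.n 3 (.l 4) (.n 0 (.l 4) (.l 4)))))))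
    [(250148290560, 3523215360), (94489280512, 94489280512), (274877906944, 274877906944), (618475290624, 68719476736)] rfl (by decide +kernel)
end
theorem c1_m34_t3 : CovD 0 progs [(246625075200, 7046430720), (94489280512, 94489280512), (274877906944, 274877906944), (618475290624, 68719476736)] :=
  covD_split 0 (by decide +kernel) c1_m34_t1 c1_m34_t2
theorem c1_m34 : CovD 0 progs [(239578644480, 14092861440), (94489280512, 94489280512), (274877906944, 274877906944), (618475290624, 68719476736)] :=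
  covD_split 0 (by decide +kernel) c1_m34_t0 c1_m34_t3

end Pool.Agent.helper71.FJ.Crt.QMa
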