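import Pool.Agent.helper71.FJ.Crt.QMaP

/-!
Generated certificates.
-/

namespace Pool.Agent.helper71.FJ.Crt.QMa

open Pool.Agent.helper31.IA (Z Op)
open Pool.Agent.helper31.IC

mutual
theorem c1_m35_t0 : CovD 0 progs [(267764367360, 14092861440), (94489280512, 94489280512), (137438953472, 137438953472), (566935683072, 17179869184)] :=
  Pool.Agent.helper14.QF.covD_F chks_eq (.n 0 (.n 0 (.l 4) (.n 0 (.l 4) (.l 4))) (.n 0 (.n 0 (.l 4) (.n 0 (.l 4) (.l 4))) (.n 0 (.n 3 (.l 4) (.l 4)) (.n 3 (.l 4) (.n 0 (.l 4) (.l 4))))))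
    [(267764367360, 14092861440), (94489280512, 94489280512), (137438953472, 137438953472), (566935683072, 17179869184)] rfl (by decide +kernel)
theorem c1_m35_t1 : CovD 0 progs [(267764367360, 14092861440), (94489280512, 94489280512), (137438953472, 137438953472), (592705486848, 8589934592)] :=
  Pool.Agent.helper14.QF.covD_F chks_eq (.n 0 (.n 0 (.l 4) (.n 0 (.l 4) (.l 4))) (.n 0 (.n 0 (.l 4) (.l 4)) (.n 2 (.n 0 (.l 4) (.n 0 (.l 4) (.l 4))) (.n 0 (.l 4) (.n 0 (.l 4) (.l 4))))))
    [(267764367360, 14092861440), (94489280512, 94489280512), (137438953472, 137438953472), (592705486848, 8589934592)] rfl (by decide +kernel)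
end
mutual
theorem c1_m35_t2 : CovD 0 progs [(267764367360, 14092861440), (94489280512, 94489280512), (137438953472, 137438953472), (609885356032, 8589934592)] :=
  Pool.Agent.helper14.QF.covD_F chks_eq (.n 2 (.n 0 (.n 0 (.l 4) (.n 0 (.l 4) (.l 4))) (.n 0 (.n 0 (.l 4) (.l 4)) (.n 3 (.n 0 (.l 4) (.n 0 (.l 4) (.l 4))) (.n 0 (.l 4) (.n 0 (.l 4) (.l 4)))))) (.n 0 (.n 0 (.l 4) (.n 0 (.l 4) (.l 4))) (.n 0 (.n 0 (.l 4) (.n 0 (.l 4) (.l 4))) (.n 0 (.n 0 (.l 4) (.l 4)) (.n 0 (.n 0 (.l 4) (.l 4)) (.n 3 (.l 4) (.l 4)))))))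
    [(267764367360, 14092861440), (94489280512, 94489280512), (137438953472, 137438953472), (609885356032, 8589934592)] rfl (by decide +kernel)
theorem c1_m35_t5 : CovD 0 progs [(260717936640, 7046430720), (94489280512, 94489280512), (412316860416, 137438953472), (584115552256, 34359738368)] :=
  Pool.Agent.helper14.QF.covD_F chks_eq (.n 0 (.n 0 (.n 3 (.l 4) (.l 4)) (.n 3 (.l 4) (.l 4))) (.n 0 (.n 3 (.l 4) (.n 0 (.l 4) (.l 4))) (.n 3 (.l 4) (.n 3 (.l 4) (.l 4)))))
    [(260717936640, 7046430720), (94489280512, 94489280512), (412316860416, 137438953472), (584115552256, 34359738368)] rfl (by decide +kernel)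
end
mutual
theorem c1_m35_t6 : CovD 0 progs [(271287582720, 3523215360), (94489280512, 94489280512), (412316860416, 137438953472), (584115552256, 34359738368)] :=
  Pool.Agent.helper14.QF.covD_F chks_eq (.n 0 (.n 3 (.n 0 (.l 4) (.l 4)) (.n 3 (.l 4) (.n 0 (.l 4) (.l 4)))) (.n 3 (.n 3 (.l 4) (.l 4)) (.n 0 (.n 3 (.l 4) (.n 0 (.l 4) (.l 4))) (.n 3 (.l 4) (.n 1 (.l 4) (.l 4))))))
    [(271287582720, 3523215360), (94489280512, 94489280512), (412316860416, 137438953472), (584115552256, 34359738368)] rfl (by decide +kernel)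
theorem c1_m35_t7 : CovD 0 progs [(276572405760, 1761607680), (94489280512, 94489280512), (412316860416, 137438953472), (584115552256, 34359738368)] :=
  Pool.Agent.helper14.QF.covD_F chks_eq (.n 0 (.n 2 (.n 3 (.l 4) (.n 3 (.l 4) (.l 4))) (.n 3 (.l 4) (.n 3 (.l 4) (.l 4)))) (.n 3 (.n 3 (.l 4) (.l 4)) (.n 1 (.n 3 (.l 4) (.n 0 (.l 4) (.l 4))) (.n 3 (.l 4) (.n 2 (.l 4) (.l 4))))))
    [(276572405760, 1761607680), (94489280512, 94489280512), (412316860416, 137438953472), (584115552256, 34359738368)] rfl (by decide +kernel)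
theorem c1_m35_t8 : CovD 0 progs [(280095621120, 1761607680), (94489280512, 94489280512), (412316860416, 137438953472), (584115552256, 34359738368)] :=
  Pool.Agent.helper14.QF.covD_F chks_eq (.n 0 (.n 3 (.n 3 (.l 4) (.n 0 (.l 4) (.l 4))) (.n 2 (.n 3 (.l 4) (.n 0 (.l 4) (.l 4))) (.n 3 (.l 4) (.n 1 (.l 4) (.n 0 (.l 4) (.l 4)))))) (.n 3 (.n 3 (.l 4) (.n 1 (.l 4) (.l 4))) (.n 2 (.n 3 (.l 4) (.n 3 (.l 4) (.n 0 (.l 4) (.l 4)))) (.n 1 (.n 3 (.l 4) (.n 0 (.l 4) (.l 4))) (.n 3 (.l 4) (.n 3 (.l 4) (.l 4)))))))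
    [(280095621120, 1761607680), (94489280512, 94489280512), (412316860416, 137438953472), (584115552256, 34359738368)] rfl (by decide +kernel)
end
theorem c1_m35_t3 : CovD 0 progs [(267764367360, 14092861440), (94489280512, 94489280512), (137438953472, 137438953472), (601295421440, 17179869184)] :=
  covD_split 3 (by decide +kernel) c1_m35_t1 c1_m35_t2
theorem c1_m35_t4 : CovD 0 progs [(267764367360, 14092861440), (94489280512, 94489280512), (137438953472, 137438953472), (584115552256, 34359738368)] :=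
  covD_split 3 (by decide +kernel) c1_m35_t0 c1_m35_t3
theorem c1_m35_t9 : CovD 0 progs [(278334013440, 3523215360), (94489280512, 94489280512), (412316860416, 137438953472), (584115552256, 34359738368)] :=
  covD_split 0 (by decide +kernel) c1_m35_t7 c1_m35_t8
theorem c1_m35_t10 : CovD 0 progs [(274810798080, 7046430720), (94489280512, 94489280512), (412316860416, 137438953472), (584115552256, 34359738368)] :=
  covD_split 0 (by decide +kernel) c1_m35_t6 c1_m35_t9
theorem c1_m35_t11 : CovD 0 progs [(267764367360, 14092861440), (94489280512, 94489280512), (412316860416, 137438953472), (584115552256, 34359738368)] :=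
  covD_split 0 (by decide +kernel) c1_m35_t5 c1_m35_t10
theorem c1_m35 : CovD 0 progs [(267764367360, 14092861440), (94489280512, 94489280512), (274877906944, 274877906944), (584115552256, 34359738368)] :=
  covD_split 2 (by decide +kernel) c1_m35_t4 c1_m35_t11

end Pool.Agent.helper71.FJ.Crt.QMa
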