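import Pool.Agent.helper71.FJ.Crt.QMaP

/-!
Generated certificates.
-/

namespace Pool.Agent.helper71.FJ.Crt.QMa

open Pool.Agent.helper31.IA (Z Op)
open Pool.Agent.helper31.IC

mutual
theorem c1_m36_t0 : CovD 0 progs [(267764367360, 14092861440), (94489280512, 94489280512), (137438953472, 137438953472), (622770257920, 4294967296)] :=
  Pool.Agent.helper14.QF.covD_F chks_eq (.n 0 (.n 0 (.l 4) (.n 0 (.l 4) (.l 4))) (.n 0 (.n 0 (.l 4) (.n 0 (.l 4) (.l 4))) (.n 0 (.n 0 (.n 1 (.l 4) (.l 4)) (.n 1 (.l 4) (.l 4))) (.n 0 (.n 2 (.l 4) (.l 4)) (.n 2 (.l 4) (.n 0 (.l 4) (.l 4)))))))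
    [(267764367360, 14092861440), (94489280512, 94489280512), (137438953472, 137438953472), (622770257920, 4294967296)] rfl (by decide +kernel)
theorem c1_m36_t1 : CovD 0 progs [(267764367360, 14092861440), (94489280512, 94489280512), (137438953472, 137438953472), (631360192512, 4294967296)] :=
  Pool.Agent.helper14.QF.covD_F chks_eq (.n 0 (.n 0 (.l 4) (.n 0 (.l 4) (.l 4))) (.n 0 (.n 0 (.n 0 (.l 4) (.l 4)) (.n 0 (.l 4) (.n 1 (.l 4) (.l 4)))) (.n 2 (.n 0 (.n 0 (.l 4) (.l 4)) (.n 0 (.n 0 (.l 4) (.l 4)) (.n 0 (.l 4) (.l 4)))) (.n 0 (.n 0 (.l 4) (.l 4)) (.n 0 (.n 0 (.l 4) (.l 4)) (.n 0 (.l 4) (.l 4)))))))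
    [(267764367360, 14092861440), (94489280512, 94489280512), (137438953472, 137438953472), (631360192512, 4294967296)] rfl (by decide +kernel)
end
mutual
theorem c1_m36_t3 : CovD 0 progs [(267764367360, 14092861440), (94489280512, 94489280512), (137438953472, 137438953472), (639950127104, 4294967296)] :=
  Pool.Agent.helper14.QF.covD_F chks_eq (.n 0 (.n 0 (.l 4) (.n 0 (.l 4) (.l 4))) (.n 0 (.n 0 (.n 0 (.l 4) (.l 4)) (.n 0 (.n 1 (.l 4) (.l 4)) (.n 2 (.l 4) (.l 4)))) (.n 2 (.n 0 (.n 0 (.l 4) (.n 0 (.l 4) (.l 4))) (.n 0 (.n 0 (.l 4) (.l 4)) (.n 0 (.l 4) (.l 4)))) (.n 0 (.n 0 (.l 4) (.n 0 (.l 4) (.l 4))) (.n 0 (.n 1 (.l 4) (.l 4)) (.n 1 (.l 4) (.l 4)))))))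
    [(267764367360, 14092861440), (94489280512, 94489280512), (137438953472, 137438953472), (639950127104, 4294967296)] rfl (by decide +kernel)
theorem c1_m36_t4 : CovD 0 progs [(260717936640, 7046430720), (94489280512, 94489280512), (137438953472, 137438953472), (648540061696, 4294967296)] :=
  Pool.Agent.helper14.QF.covD_F chks_eq (.n 0 (.n 0 (.l 4) (.l 4)) (.n 0 (.l 4) (.n 0 (.l 4) (.l 4))))
    [(260717936640, 7046430720), (94489280512, 94489280512), (137438953472, 137438953472), (648540061696, 4294967296)] rfl (by decide +kernel)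
end
mutual
theorem c1_m36_t5 : CovD 0 progs [(274810798080, 7046430720), (94489280512, 94489280512), (137438953472, 137438953472), (648540061696, 4294967296)] :=
  Pool.Agent.helper14.QF.covD_F chks_eq (.n 0 (.n 0 (.n 0 (.n 0 (.l 4) (.l 4)) (.n 1 (.l 4) (.l 4))) (.n 0 (.n 2 (.l 4) (.l 4)) (.n 2 (.l 4) (.l 4)))) (.n 0 (.n 0 (.n 0 (.n 2 (.l 4) (.l 4)) (.n 2 (.l 4) (.l 4))) (.n 1 (.n 2 (.l 4) (.l 4)) (.n 2 (.l 4) (.l 4)))) (.n 0 (.n 1 (.n 2 (.l 4) (.l 4)) (.n 2 (.l 4) (.l 4))) (.n 1 (.n 1 (.l 4) (.l 4)) (.n 2 (.l 4) (.l 4))))))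
    [(274810798080, 7046430720), (94489280512, 94489280512), (137438953472, 137438953472), (648540061696, 4294967296)] rfl (by decide +kernel)
theorem c1_m36_t9 : CovD 0 progs [(260717936640, 7046430720), (94489280512, 94489280512), (137438953472, 137438953472), (657129996288, 4294967296)] :=
  Pool.Agent.helper14.QF.covD_F chks_eq (.n 0 (.n 0 (.l 4) (.l 4)) (.n 0 (.l 4) (.n 2 (.l 4) (.l 4))))
    [(260717936640, 7046430720), (94489280512, 94489280512), (137438953472, 137438953472), (657129996288, 4294967296)] rfl (by decide +kernel)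
end
mutual
theorem c1_m36_t10 : CovD 0 progs [(274810798080, 7046430720), (94489280512, 94489280512), (137438953472, 137438953472), (657129996288, 4294967296)] :=
  Pool.Agent.helper14.QF.covD_F chks_eq (.n 0 (.n 0 (.n 0 (.n 1 (.l 4) (.l 4)) (.n 2 (.l 4) (.l 4))) (.n 0 (.n 2 (.l 4) (.n 0 (.l 4) (.l 4))) (.n 0 (.n 2 (.l 4) (.l 4)) (.n 2 (.l 4) (.l 4))))) (.n 0 (.n 0 (.n 1 (.n 2 (.l 4) (.l 4)) (.n 2 (.l 4) (.l 4))) (.n 1 (.n 2 (.l 4) (.l 4)) (.n 2 (.l 4) (.l 4)))) (.n 1 (.n 2 (.l 4) (.l 4)) (.n 2 (.l 4) (.l 4)))))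
    [(274810798080, 7046430720), (94489280512, 94489280512), (137438953472, 137438953472), (657129996288, 4294967296)] rfl (by decide +kernel)
theorem c1_m36_t12 : CovD 0 progs [(267764367360, 14092861440), (94489280512, 94489280512), (68719476736, 68719476736), (665719930880, 4294967296)] :=
  Pool.Agent.helper14.QF.covD_F chks_eq (.n 0 (.n 0 (.n 0 (.l 4) (.l 4)) (.n 0 (.l 4) (.n 0 (.l 4) (.l 4)))) (.n 0 (.n 0 (.n 0 (.l 4) (.l 4)) (.n 0 (.n 0 (.l 4) (.l 4)) (.n 0 (.l 4) (.l 4)))) (.n 0 (.n 0 (.n 0 (.l 4) (.l 4)) (.l 4)) (.n 2 (.l 4) (.l 4)))))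
    [(267764367360, 14092861440), (94489280512, 94489280512), (68719476736, 68719476736), (665719930880, 4294967296)] rfl (by decide +kernel)
end
mutual
theorem c1_m36_t13 : CovD 0 progs [(267764367360, 14092861440), (94489280512, 94489280512), (206158430208, 68719476736), (665719930880, 4294967296)] :=
  Pool.Agent.helper14.QF.covD_F chks_eq (.n 0 (.n 0 (.n 0 (.l 4) (.l 4)) (.n 0 (.l 4) (.n 0 (.l 4) (.l 4)))) (.n 0 (.n 0 (.n 0 (.l 4) (.n 0 (.l 4) (.l 4))) (.n 0 (.n 0 (.l 4) (.l 4)) (.n 1 (.l 4) (.l 4)))) (.n 0 (.n 0 (.n 1 (.l 4) (.l 4)) (.n 1 (.l 4) (.l 4))) (.n 2 (.l 4) (.l 4)))))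
    [(267764367360, 14092861440), (94489280512, 94489280512), (206158430208, 68719476736), (665719930880, 4294967296)] rfl (by decide +kernel)
theorem c1_m36_t16 : CovD 0 progs [(260717936640, 7046430720), (94489280512, 94489280512), (137438953472, 137438953472), (674309865472, 4294967296)] :=
  Pool.Agent.helper14.QF.covD_F chks_eq (.n 0 (.n 0 (.l 4) (.n 0 (.l 4) (.l 4))) (.n 2 (.n 0 (.l 4) (.n 0 (.l 4) (.l 4))) (.n 0 (.n 0 (.l 4) (.l 4)) (.n 0 (.l 4) (.l 4)))))
    [(260717936640, 7046430720), (94489280512, 94489280512), (137438953472, 137438953472), (674309865472, 4294967296)] rfl (by decide +kernel)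
end
mutual
theorem c1_m36_t17 : CovD 0 progs [(271287582720, 3523215360), (94489280512, 94489280512), (137438953472, 137438953472), (674309865472, 4294967296)] :=
  Pool.Agent.helper14.QF.covD_F chks_eq (.n 0 (.n 0 (.n 0 (.n 2 (.l 4) (.l 4)) (.n 2 (.l 4) (.l 4))) (.n 1 (.n 2 (.l 4) (.l 4)) (.n 2 (.l 4) (.l 4)))) (.n 0 (.n 2 (.n 1 (.l 4) (.l 4)) (.n 2 (.l 4) (.l 4))) (.n 1 (.n 2 (.l 4) (.l 4)) (.n 2 (.l 4) (.l 4)))))
    [(271287582720, 3523215360), (94489280512, 94489280512), (137438953472, 137438953472), (674309865472, 4294967296)] rfl (by decide +kernel)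
theorem c1_m36_t18 : CovD 0 progs [(278334013440, 3523215360), (94489280512, 94489280512), (137438953472, 137438953472), (674309865472, 4294967296)] :=
  Pool.Agent.helper14.QF.covD_F chks_eq (.n 0 (.n 1 (.n 2 (.l 4) (.l 4)) (.n 2 (.l 4) (.l 4))) (.n 0 (.n 0 (.n 2 (.l 4) (.l 4)) (.n 2 (.l 4) (.l 4))) (.n 0 (.n 2 (.l 4) (.l 4)) (.n 2 (.l 4) (.l 4)))))
    [(278334013440, 3523215360), (94489280512, 94489280512), (137438953472, 137438953472), (674309865472, 4294967296)] rfl (by decide +kernel)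
end
mutual
theorem c1_m36_t21 : CovD 0 progs [(267764367360, 14092861440), (94489280512, 94489280512), (68719476736, 68719476736), (682899800064, 4294967296)] :=
  Pool.Agent.helper14.QF.covD_F chks_eq (.n 0 (.n 0 (.n 0 (.l 4) (.l 4)) (.n 0 (.n 0 (.l 4) (.l 4)) (.n 0 (.l 4) (.n 0 (.l 4) (.l 4))))) (.n 0 (.n 2 (.n 0 (.n 0 (.l 4) (.l 4)) (.l 4)) (.n 0 (.n 0 (.l 4) (.l 4)) (.n 0 (.l 4) (.l 4)))) (.n 0 (.n 0 (.l 4) (.n 0 (.l 4) (.l 4))) (.n 0 (.n 0 (.l 4) (.l 4)) (.l 4)))))
    [(267764367360, 14092861440), (94489280512, 94489280512), (68719476736, 68719476736), (682899800064, 4294967296)] rfl (by decide +kernel)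
theorem c1_m36_t22 : CovD 0 progs [(267764367360, 14092861440), (94489280512, 94489280512), (206158430208, 68719476736), (682899800064, 4294967296)] :=
  Pool.Agent.helper14.QF.covD_F chks_eq (.n 0 (.n 0 (.n 0 (.l 4) (.l 4)) (.n 0 (.n 0 (.l 4) (.l 4)) (.n 0 (.l 4) (.n 0 (.l 4) (.l 4))))) (.n 2 (.n 0 (.n 0 (.n 0 (.l 4) (.l 4)) (.n 0 (.l 4) (.l 4))) (.n 0 (.n 0 (.l 4) (.l 4)) (.n 0 (.l 4) (.l 4)))) (.n 0 (.n 0 (.n 0 (.l 4) (.l 4)) (.n 0 (.l 4) (.l 4))) (.n 0 (.n 0 (.l 4) (.l 4)) (.n 0 (.l 4) (.l 4))))))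
    [(267764367360, 14092861440), (94489280512, 94489280512), (206158430208, 68719476736), (682899800064, 4294967296)] rfl (by decide +kernel)
end
theorem c1_m36_t2 : CovD 0 progs [(267764367360, 14092861440), (94489280512, 94489280512), (137438953472, 137438953472), (627065225216, 8589934592)] :=
  covD_split 3 (by decide +kernel) c1_m36_t0 c1_m36_t1
theorem c1_m36_t6 : CovD 0 progs [(267764367360, 14092861440), (94489280512, 94489280512), (137438953472, 137438953472), (648540061696, 4294967296)] :=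
  covD_split 0 (by decide +kernel) c1_m36_t4 c1_m36_t5
theorem c1_m36_t7 : CovD 0 progs [(267764367360, 14092861440), (94489280512, 94489280512), (137438953472, 137438953472), (644245094400, 8589934592)] :=
  covD_split 3 (by decide +kernel) c1_m36_t3 c1_m36_t6
theorem c1_m36_t8 : CovD 0 progs [(267764367360, 14092861440), (94489280512, 94489280512), (137438953472, 137438953472), (635655159808, 17179869184)] :=
  covD_split 3 (by decide +kernel) c1_m36_t2 c1_m36_t7
theorem c1_m36_t11 : CovD 0 progs [(267764367360, 14092861440), (94489280512, 94489280512), (137438953472, 137438953472), (657129996288, 4294967296)] :=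
  covD_split 0 (by decide +kernel) c1_m36_t9 c1_m36_t10
theorem c1_m36_t14 : CovD 0 progs [(267764367360, 14092861440), (94489280512, 94489280512), (137438953472, 137438953472), (665719930880, 4294967296)] :=
  covD_split 2 (by decide +kernel) c1_m36_t12 c1_m36_t13
theorem c1_m36_t15 : CovD 0 progs [(267764367360, 14092861440), (94489280512, 94489280512), (137438953472, 137438953472), (661424963584, 8589934592)] :=
  covD_split 3 (by decide +kernel) c1_m36_t11 c1_m36_t14
theorem c1_m36_t19 : CovD 0 progs [(274810798080, 7046430720), (94489280512, 94489280512), (137438953472, 137438953472), (674309865472, 4294967296)] :=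
  covD_split 0 (by decide +kernel) c1_m36_t17 c1_m36_t18
theorem c1_m36_t20 : CovD 0 progs [(267764367360, 14092861440), (94489280512, 94489280512), (137438953472, 137438953472), (674309865472, 4294967296)] :=
  covD_split 0 (by decide +kernel) c1_m36_t16 c1_m36_t19
theorem c1_m36_t23 : CovD 0 progs [(267764367360, 14092861440), (94489280512, 94489280512), (137438953472, 137438953472), (682899800064, 4294967296)] :=
  covD_split 2 (by decide +kernel) c1_m36_t21 c1_m36_t22
theorem c1_m36_t24 : CovD 0 progs [(267764367360, 14092861440), (94489280512, 94489280512), (137438953472, 137438953472), (678604832768, 8589934592)] :=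
  covD_split 3 (by decide +kernel) c1_m36_t20 c1_m36_t23
theorem c1_m36_t25 : CovD 0 progs [(267764367360, 14092861440), (94489280512, 94489280512), (137438953472, 137438953472), (670014898176, 17179869184)] :=
  covD_split 3 (by decide +kernel) c1_m36_t15 c1_m36_t24
theorem c1_m36 : CovD 0 progs [(267764367360, 14092861440), (94489280512, 94489280512), (137438953472, 137438953472), (652835028992, 34359738368)] :=
  covD_split 3 (by decide +kernel) c1_m36_t8 c1_m36_t25

end Pool.Agent.helper71.FJ.Crt.QMa
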