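import Pool.Agent.helper71.FJ.Crt.QMaP

/-!
Generated certificates.
-/

namespace Pool.Agent.helper71.FJ.Crt.QMa

open Pool.Agent.helper31.IA (Z Op)
open Pool.Agent.helper31.IC

mutual
theorem c1_m38_t0 : CovD 0 progs [(267764367360, 14092861440), (141733920768, 47244640256), (309237645312, 34359738368), (627065225216, 8589934592)] :=
  Pool.Agent.helper14.QF.covD_F chks_eq (.n 0 (.n 0 (.l 4) (.n 0 (.l 4) (.l 4))) (.n 0 (.n 0 (.l 4) (.n 0 (.l 4) (.l 4))) (.n 0 (.n 0 (.l 4) (.n 0 (.l 4) (.l 4))) (.n 0 (.n 0 (.l 4) (.l 4)) (.n 0 (.l 4) (.l 4))))))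
    [(267764367360, 14092861440), (141733920768, 47244640256), (309237645312, 34359738368), (627065225216, 8589934592)] rfl (by decide +kernel)
theorem c1_m38_t1 : CovD 0 progs [(267764367360, 14092861440), (141733920768, 47244640256), (377957122048, 34359738368), (627065225216, 8589934592)] :=
  Pool.Agent.helper14.QF.covD_F chks_eq (.n 0 (.n 0 (.l 4) (.n 0 (.l 4) (.l 4))) (.n 0 (.n 0 (.l 4) (.n 0 (.l 4) (.l 4))) (.n 0 (.n 0 (.l 4) (.n 0 (.l 4) (.l 4))) (.n 0 (.n 0 (.l 4) (.l 4)) (.n 3 (.l 4) (.l 4))))))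
    [(267764367360, 14092861440), (141733920768, 47244640256), (377957122048, 34359738368), (627065225216, 8589934592)] rfl (by decide +kernel)
end
mutual
theorem c1_m38_t3 : CovD 0 progs [(267764367360, 14092861440), (141733920768, 47244640256), (343597383680, 68719476736), (644245094400, 8589934592)] :=
  Pool.Agent.helper14.QF.covD_F chks_eq (.n 3 (.n 0 (.n 0 (.l 4) (.n 0 (.l 4) (.l 4))) (.n 0 (.n 0 (.l 4) (.n 0 (.l 4) (.l 4))) (.n 0 (.n 0 (.l 4) (.l 4)) (.n 0 (.n 0 (.l 4) (.l 4)) (.n 0 (.l 4) (.l 4)))))) (.n 0 (.n 0 (.l 4) (.n 0 (.l 4) (.l 4))) (.n 0 (.n 0 (.l 4) (.n 0 (.l 4) (.l 4))) (.n 0 (.n 0 (.l 4) (.n 0 (.l 4) (.l 4))) (.n 0 (.n 0 (.l 4) (.l 4)) (.l 4))))))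
    [(267764367360, 14092861440), (141733920768, 47244640256), (343597383680, 68719476736), (644245094400, 8589934592)] rfl (by decide +kernel)
theorem c1_m38_t5 : CovD 0 progs [(260717936640, 7046430720), (141733920768, 47244640256), (343597383680, 68719476736), (661424963584, 8589934592)] :=
  Pool.Agent.helper14.QF.covD_F chks_eq (.n 0 (.n 0 (.l 4) (.l 4)) (.n 0 (.n 0 (.l 4) (.l 4)) (.n 0 (.l 4) (.n 0 (.l 4) (.l 4)))))
    [(260717936640, 7046430720), (141733920768, 47244640256), (343597383680, 68719476736), (661424963584, 8589934592)] rfl (by decide +kernel)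
end
mutual
theorem c1_m38_t6 : CovD 0 progs [(274810798080, 7046430720), (141733920768, 47244640256), (343597383680, 68719476736), (661424963584, 8589934592)] :=
  Pool.Agent.helper14.QF.covD_F chks_eq (.n 3 (.n 0 (.n 0 (.n 0 (.l 4) (.l 4)) (.n 0 (.l 4) (.l 4))) (.n 0 (.n 0 (.n 0 (.l 4) (.l 4)) (.n 0 (.l 4) (.l 4))) (.n 0 (.l 4) (.l 4)))) (.n 0 (.n 0 (.n 0 (.l 4) (.l 4)) (.n 0 (.n 0 (.l 4) (.l 4)) (.n 0 (.l 4) (.l 4)))) (.n 0 (.n 0 (.n 0 (.l 4) (.l 4)) (.l 4)) (.n 0 (.l 4) (.l 4)))))
    [(274810798080, 7046430720), (141733920768, 47244640256), (343597383680, 68719476736), (661424963584, 8589934592)] rfl (by decide +kernel)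
theorem c1_m38_t8 : CovD 0 progs [(267764367360, 14092861440), (141733920768, 47244640256), (343597383680, 68719476736), (674309865472, 4294967296)] :=
  Pool.Agent.helper14.QF.covD_F chks_eq (.n 0 (.n 0 (.n 0 (.l 4) (.l 4)) (.n 0 (.l 4) (.n 0 (.l 4) (.l 4)))) (.n 0 (.n 0 (.n 0 (.l 4) (.n 0 (.l 4) (.l 4))) (.n 0 (.n 0 (.l 4) (.l 4)) (.n 0 (.l 4) (.l 4)))) (.n 0 (.l 4) (.n 0 (.l 4) (.l 4)))))
    [(267764367360, 14092861440), (141733920768, 47244640256), (343597383680, 68719476736), (674309865472, 4294967296)] rfl (by decide +kernel)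
end
mutual
theorem c1_m38_t9 : CovD 0 progs [(267764367360, 14092861440), (141733920768, 47244640256), (309237645312, 34359738368), (682899800064, 4294967296)] :=
  Pool.Agent.helper14.QF.covD_F chks_eq (.n 0 (.n 0 (.n 0 (.l 4) (.l 4)) (.n 0 (.n 0 (.l 4) (.l 4)) (.n 0 (.l 4) (.l 4)))) (.n 0 (.n 0 (.n 0 (.l 4) (.l 4)) (.l 4)) (.n 0 (.l 4) (.n 0 (.l 4) (.l 4)))))
    [(267764367360, 14092861440), (141733920768, 47244640256), (309237645312, 34359738368), (682899800064, 4294967296)] rfl (by decide +kernel)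
theorem c1_m38_t10 : CovD 0 progs [(267764367360, 14092861440), (141733920768, 47244640256), (377957122048, 34359738368), (682899800064, 4294967296)] :=
  Pool.Agent.helper14.QF.covD_F chks_eq (.n 0 (.n 0 (.n 0 (.l 4) (.l 4)) (.n 0 (.n 0 (.l 4) (.l 4)) (.n 0 (.l 4) (.l 4)))) (.n 0 (.n 0 (.n 0 (.l 4) (.l 4)) (.l 4)) (.n 0 (.n 0 (.l 4) (.l 4)) (.n 0 (.l 4) (.l 4)))))
    [(267764367360, 14092861440), (141733920768, 47244640256), (377957122048, 34359738368), (682899800064, 4294967296)] rfl (by decide +kernel)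
end
mutual
theorem c1_m38_t15 : CovD 0 progs [(267764367360, 14092861440), (141733920768, 47244640256), (481036337152, 68719476736), (622770257920, 4294967296)] :=
  Pool.Agent.helper14.QF.covD_F chks_eq (.n 0 (.n 0 (.l 4) (.l 4)) (.n 0 (.n 0 (.l 4) (.l 4)) (.n 0 (.n 0 (.l 4) (.l 4)) (.n 0 (.l 4) (.n 0 (.l 4) (.l 4))))))
    [(267764367360, 14092861440), (141733920768, 47244640256), (481036337152, 68719476736), (622770257920, 4294967296)] rfl (by decide +kernel)
theorem c1_m38_t16 : CovD 0 progs [(267764367360, 14092861440), (141733920768, 47244640256), (481036337152, 68719476736), (631360192512, 4294967296)] :=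
  Pool.Agent.helper14.QF.covD_F chks_eq (.n 2 (.n 0 (.n 0 (.l 4) (.n 0 (.l 4) (.l 4))) (.n 0 (.n 0 (.l 4) (.l 4)) (.n 0 (.n 0 (.l 4) (.l 4)) (.n 0 (.l 4) (.l 4))))) (.n 0 (.n 0 (.l 4) (.n 0 (.l 4) (.l 4))) (.n 0 (.n 0 (.l 4) (.l 4)) (.n 0 (.n 0 (.l 4) (.l 4)) (.n 0 (.l 4) (.l 4))))))
    [(267764367360, 14092861440), (141733920768, 47244640256), (481036337152, 68719476736), (631360192512, 4294967296)] rfl (by decide +kernel)
end
mutual
theorem c1_m38_t18 : CovD 0 progs [(267764367360, 14092861440), (141733920768, 47244640256), (481036337152, 68719476736), (639950127104, 4294967296)] :=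
  Pool.Agent.helper14.QF.covD_F chks_eq (.n 0 (.n 0 (.l 4) (.n 0 (.l 4) (.l 4))) (.n 0 (.n 0 (.l 4) (.n 0 (.l 4) (.l 4))) (.n 0 (.n 0 (.l 4) (.n 0 (.l 4) (.l 4))) (.n 0 (.n 1 (.l 4) (.l 4)) (.n 1 (.l 4) (.l 4))))))
    [(267764367360, 14092861440), (141733920768, 47244640256), (481036337152, 68719476736), (639950127104, 4294967296)] rfl (by decide +kernel)
theorem c1_m38_t19 : CovD 0 progs [(267764367360, 14092861440), (141733920768, 47244640256), (481036337152, 68719476736), (648540061696, 4294967296)] :=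
  Pool.Agent.helper14.QF.covD_F chks_eq (.n 0 (.n 0 (.l 4) (.n 0 (.l 4) (.l 4))) (.n 0 (.n 0 (.n 0 (.l 4) (.l 4)) (.n 0 (.l 4) (.l 4))) (.n 0 (.n 0 (.n 0 (.l 4) (.l 4)) (.n 1 (.l 4) (.l 4))) (.n 0 (.n 1 (.l 4) (.l 4)) (.n 1 (.l 4) (.l 4))))))
    [(267764367360, 14092861440), (141733920768, 47244640256), (481036337152, 68719476736), (648540061696, 4294967296)] rfl (by decide +kernel)
end
mutual
theorem c1_m38_t22 : CovD 0 progs [(267764367360, 14092861440), (141733920768, 47244640256), (481036337152, 68719476736), (654982512640, 2147483648)] :=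
  Pool.Agent.helper14.QF.covD_F chks_eq (.n 0 (.n 0 (.l 4) (.n 0 (.l 4) (.l 4))) (.n 0 (.n 0 (.l 4) (.n 0 (.l 4) (.l 4))) (.n 0 (.n 0 (.n 0 (.l 4) (.l 4)) (.n 0 (.l 4) (.l 4))) (.n 1 (.l 4) (.l 4)))))
    [(267764367360, 14092861440), (141733920768, 47244640256), (481036337152, 68719476736), (654982512640, 2147483648)] rfl (by decide +kernel)
theorem c1_m38_t23 : CovD 0 progs [(267764367360, 14092861440), (141733920768, 47244640256), (481036337152, 68719476736), (659277479936, 2147483648)] :=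
  Pool.Agent.helper14.QF.covD_F chks_eq (.n 0 (.n 0 (.l 4) (.n 0 (.l 4) (.l 4))) (.n 0 (.n 0 (.n 0 (.l 4) (.l 4)) (.n 0 (.l 4) (.l 4))) (.n 0 (.n 0 (.n 0 (.l 4) (.l 4)) (.n 0 (.l 4) (.l 4))) (.n 1 (.l 4) (.l 4)))))
    [(267764367360, 14092861440), (141733920768, 47244640256), (481036337152, 68719476736), (659277479936, 2147483648)] rfl (by decide +kernel)
end
mutual
theorem c1_m38_t25 : CovD 0 progs [(267764367360, 14092861440), (141733920768, 47244640256), (481036337152, 68719476736), (663572447232, 2147483648)] :=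
  Pool.Agent.helper14.QF.covD_F chks_eq (.n 0 (.n 0 (.l 4) (.n 0 (.l 4) (.l 4))) (.n 0 (.n 0 (.n 0 (.l 4) (.l 4)) (.n 0 (.l 4) (.n 0 (.l 4) (.l 4)))) (.n 0 (.n 0 (.n 0 (.l 4) (.l 4)) (.n 0 (.l 4) (.l 4))) (.n 1 (.l 4) (.l 4)))))
    [(267764367360, 14092861440), (141733920768, 47244640256), (481036337152, 68719476736), (663572447232, 2147483648)] rfl (by decide +kernel)
theorem c1_m38_t26 : CovD 0 progs [(267764367360, 14092861440), (141733920768, 47244640256), (481036337152, 68719476736), (667867414528, 2147483648)] :=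
  Pool.Agent.helper14.QF.covD_F chks_eq (.n 0 (.n 0 (.n 0 (.l 4) (.l 4)) (.n 0 (.l 4) (.l 4))) (.n 0 (.n 0 (.n 0 (.l 4) (.l 4)) (.n 0 (.l 4) (.n 0 (.l 4) (.l 4)))) (.n 0 (.n 2 (.l 4) (.l 4)) (.n 1 (.l 4) (.l 4)))))
    [(267764367360, 14092861440), (141733920768, 47244640256), (481036337152, 68719476736), (667867414528, 2147483648)] rfl (by decide +kernel)
end
mutual
theorem c1_m38_t29 : CovD 0 progs [(267764367360, 14092861440), (141733920768, 47244640256), (481036337152, 68719476736), (674309865472, 4294967296)] :=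
  Pool.Agent.helper14.QF.covD_F chks_eq (.n 0 (.n 0 (.n 0 (.l 4) (.l 4)) (.n 0 (.l 4) (.n 0 (.l 4) (.l 4)))) (.n 0 (.n 0 (.n 0 (.n 0 (.l 4) (.l 4)) (.n 2 (.l 4) (.l 4))) (.n 0 (.n 1 (.l 4) (.n 0 (.l 4) (.l 4))) (.n 1 (.l 4) (.l 4)))) (.n 0 (.n 1 (.l 4) (.l 4)) (.n 0 (.n 1 (.l 4) (.l 4)) (.n 1 (.l 4) (.l 4))))))
    [(267764367360, 14092861440), (141733920768, 47244640256), (481036337152, 68719476736), (674309865472, 4294967296)] rfl (by decide +kernel)
theorem c1_m38_t30 : CovD 0 progs [(260717936640, 7046430720), (141733920768, 47244640256), (481036337152, 68719476736), (682899800064, 4294967296)] :=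
  Pool.Agent.helper14.QF.covD_F chks_eq (.n 0 (.n 0 (.l 4) (.l 4)) (.n 0 (.n 0 (.l 4) (.l 4)) (.n 0 (.l 4) (.n 0 (.l 4) (.l 4)))))
    [(260717936640, 7046430720), (141733920768, 47244640256), (481036337152, 68719476736), (682899800064, 4294967296)] rfl (by decide +kernel)
theorem c1_m38_t31 : CovD 0 progs [(274810798080, 7046430720), (141733920768, 47244640256), (481036337152, 68719476736), (682899800064, 4294967296)] :=
  Pool.Agent.helper14.QF.covD_F chks_eq (.n 2 (.n 0 (.n 0 (.n 0 (.l 4) (.l 4)) (.n 0 (.l 4) (.l 4))) (.n 0 (.n 0 (.l 4) (.l 4)) (.n 0 (.l 4) (.l 4)))) (.n 0 (.n 0 (.n 0 (.n 0 (.l 4) (.l 4)) (.n 0 (.l 4) (.l 4))) (.n 0 (.l 4) (.l 4))) (.n 0 (.n 0 (.l 4) (.l 4)) (.n 0 (.l 4) (.l 4)))))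
    [(274810798080, 7046430720), (141733920768, 47244640256), (481036337152, 68719476736), (682899800064, 4294967296)] rfl (by decide +kernel)
end
theorem c1_m38_t2 : CovD 0 progs [(267764367360, 14092861440), (141733920768, 47244640256), (343597383680, 68719476736), (627065225216, 8589934592)] :=
  covD_split 2 (by decide +kernel) c1_m38_t0 c1_m38_t1
theorem c1_m38_t4 : CovD 0 progs [(267764367360, 14092861440), (141733920768, 47244640256), (343597383680, 68719476736), (635655159808, 17179869184)] :=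
  covD_split 3 (by decide +kernel) c1_m38_t2 c1_m38_t3
theorem c1_m38_t7 : CovD 0 progs [(267764367360, 14092861440), (141733920768, 47244640256), (343597383680, 68719476736), (661424963584, 8589934592)] :=
  covD_split 0 (by decide +kernel) c1_m38_t5 c1_m38_t6
theorem c1_m38_t11 : CovD 0 progs [(267764367360, 14092861440), (141733920768, 47244640256), (343597383680, 68719476736), (682899800064, 4294967296)] :=
  covD_split 2 (by decide +kernel) c1_m38_t9 c1_m38_t10
theorem c1_m38_t12 : CovD 0 progs [(267764367360, 14092861440), (141733920768, 47244640256), (343597383680, 68719476736), (678604832768, 8589934592)] :=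
  covD_split 3 (by decide +kernel) c1_m38_t8 c1_m38_t11
theorem c1_m38_t13 : CovD 0 progs [(267764367360, 14092861440), (141733920768, 47244640256), (343597383680, 68719476736), (670014898176, 17179869184)] :=
  covD_split 3 (by decide +kernel) c1_m38_t7 c1_m38_t12
theorem c1_m38_t14 : CovD 0 progs [(267764367360, 14092861440), (141733920768, 47244640256), (343597383680, 68719476736), (652835028992, 34359738368)] :=
  covD_split 3 (by decide +kernel) c1_m38_t4 c1_m38_t13
theorem c1_m38_t17 : CovD 0 progs [(267764367360, 14092861440), (141733920768, 47244640256), (481036337152, 68719476736), (627065225216, 8589934592)] :=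
  covD_split 3 (by decide +kernel) c1_m38_t15 c1_m38_t16
theorem c1_m38_t20 : CovD 0 progs [(267764367360, 14092861440), (141733920768, 47244640256), (481036337152, 68719476736), (644245094400, 8589934592)] :=
  covD_split 3 (by decide +kernel) c1_m38_t18 c1_m38_t19
theorem c1_m38_t21 : CovD 0 progs [(267764367360, 14092861440), (141733920768, 47244640256), (481036337152, 68719476736), (635655159808, 17179869184)] :=
  covD_split 3 (by decide +kernel) c1_m38_t17 c1_m38_t20
theorem c1_m38_t24 : CovD 0 progs [(267764367360, 14092861440), (141733920768, 47244640256), (481036337152, 68719476736), (657129996288, 4294967296)] :=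
  covD_split 3 (by decide +kernel) c1_m38_t22 c1_m38_t23
theorem c1_m38_t27 : CovD 0 progs [(267764367360, 14092861440), (141733920768, 47244640256), (481036337152, 68719476736), (665719930880, 4294967296)] :=
  covD_split 3 (by decide +kernel) c1_m38_t25 c1_m38_t26
theorem c1_m38_t28 : CovD 0 progs [(267764367360, 14092861440), (141733920768, 47244640256), (481036337152, 68719476736), (661424963584, 8589934592)] :=
  covD_split 3 (by decide +kernel) c1_m38_t24 c1_m38_t27
theorem c1_m38_t32 : CovD 0 progs [(267764367360, 14092861440), (141733920768, 47244640256), (481036337152, 68719476736), (682899800064, 4294967296)] :=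
  covD_split 0 (by decide +kernel) c1_m38_t30 c1_m38_t31
theorem c1_m38_t33 : CovD 0 progs [(267764367360, 14092861440), (141733920768, 47244640256), (481036337152, 68719476736), (678604832768, 8589934592)] :=
  covD_split 3 (by decide +kernel) c1_m38_t29 c1_m38_t32
theorem c1_m38_t34 : CovD 0 progs [(267764367360, 14092861440), (141733920768, 47244640256), (481036337152, 68719476736), (670014898176, 17179869184)] :=
  covD_split 3 (by decide +kernel) c1_m38_t28 c1_m38_t33
theorem c1_m38_t35 : CovD 0 progs [(267764367360, 14092861440), (141733920768, 47244640256), (481036337152, 68719476736), (652835028992, 34359738368)] :=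
  covD_split 3 (by decide +kernel) c1_m38_t21 c1_m38_t34
theorem c1_m38 : CovD 0 progs [(267764367360, 14092861440), (141733920768, 47244640256), (412316860416, 137438953472), (652835028992, 34359738368)] :=
  covD_split 2 (by decide +kernel) c1_m38_t14 c1_m38_t35

end Pool.Agent.helper71.FJ.Crt.QMa
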