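import Pool.Agent.helper71.FJ.Crt.QMaP

/-!
Generated certificates.
-/

namespace Pool.Agent.helper71.FJ.Crt.QMa

open Pool.Agent.helper31.IA (Z Op)
open Pool.Agent.helper31.IC

mutual
theorem c1_m39_t0 : CovD 0 progs [(239578644480, 14092861440), (94489280512, 94489280512), (274877906944, 274877906944), (695784701952, 8589934592)] :=
  Pool.Agent.helper14.QF.covD_F chks_eq (.n 3 (.n 0 (.n 0 (.l 4) (.n 0 (.l 4) (.l 4))) (.n 0 (.n 0 (.l 4) (.n 0 (.l 4) (.l 4))) (.n 0 (.n 2 (.l 4) (.l 4)) (.n 2 (.l 4) (.n 0 (.l 4) (.l 4)))))) (.n 0 (.n 0 (.l 4) (.n 0 (.l 4) (.l 4))) (.n 0 (.n 0 (.n 0 (.l 4) (.l 4)) (.n 1 (.l 4) (.l 4))) (.n 0 (.n 2 (.l 4) (.l 4)) (.n 0 (.n 2 (.l 4) (.l 4)) (.n 2 (.l 4) (.l 4)))))))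
    [(239578644480, 14092861440), (94489280512, 94489280512), (274877906944, 274877906944), (695784701952, 8589934592)] rfl (by decide +kernel)
theorem c1_m39_t1 : CovD 0 progs [(239578644480, 14092861440), (94489280512, 94489280512), (274877906944, 274877906944), (708669603840, 4294967296)] :=
  Pool.Agent.helper14.QF.covD_F chks_eq (.n 3 (.n 0 (.n 0 (.l 4) (.n 0 (.l 4) (.l 4))) (.n 0 (.n 2 (.l 4) (.n 0 (.l 4) (.l 4))) (.n 0 (.n 2 (.l 4) (.l 4)) (.n 2 (.l 4) (.n 0 (.l 4) (.l 4)))))) (.n 0 (.n 0 (.l 4) (.n 0 (.l 4) (.l 4))) (.n 0 (.n 0 (.n 0 (.l 4) (.l 4)) (.n 1 (.l 4) (.l 4))) (.n 0 (.n 2 (.l 4) (.l 4)) (.n 1 (.n 2 (.l 4) (.l 4)) (.n 2 (.l 4) (.l 4)))))))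
    [(239578644480, 14092861440), (94489280512, 94489280512), (274877906944, 274877906944), (708669603840, 4294967296)] rfl (by decide +kernel)
end
mutual
theorem c1_m39_t2 : CovD 0 progs [(239578644480, 14092861440), (94489280512, 94489280512), (274877906944, 274877906944), (717259538432, 4294967296)] :=
  Pool.Agent.helper14.QF.covD_F chks_eq (.n 0 (.n 0 (.n 0 (.l 4) (.l 4)) (.n 0 (.l 4) (.n 0 (.l 4) (.l 4)))) (.n 0 (.n 0 (.n 2 (.l 4) (.l 4)) (.n 2 (.l 4) (.n 0 (.l 4) (.l 4)))) (.n 0 (.n 2 (.n 0 (.l 4) (.l 4)) (.n 2 (.l 4) (.l 4))) (.n 0 (.n 1 (.n 2 (.l 4) (.l 4)) (.n 2 (.l 4) (.l 4))) (.n 2 (.n 1 (.l 4) (.l 4)) (.n 2 (.l 4) (.l 4)))))))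
    [(239578644480, 14092861440), (94489280512, 94489280512), (274877906944, 274877906944), (717259538432, 4294967296)] rfl (by decide +kernel)
theorem c1_m39_t5 : CovD 0 progs [(232532213760, 7046430720), (94489280512, 94489280512), (274877906944, 274877906944), (725849473024, 4294967296)] :=
  Pool.Agent.helper14.QF.covD_F chks_eq (.n 0 (.n 0 (.l 4) (.l 4)) (.n 0 (.n 0 (.l 4) (.l 4)) (.n 1 (.l 4) (.l 4))))
    [(232532213760, 7046430720), (94489280512, 94489280512), (274877906944, 274877906944), (725849473024, 4294967296)] rfl (by decide +kernel)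
end
mutual
theorem c1_m39_t6 : CovD 0 progs [(246625075200, 7046430720), (94489280512, 94489280512), (274877906944, 274877906944), (725849473024, 4294967296)] :=
  Pool.Agent.helper14.QF.covD_F chks_eq (.n 0 (.n 0 (.n 2 (.l 4) (.l 4)) (.n 0 (.n 2 (.l 4) (.l 4)) (.n 2 (.l 4) (.l 4)))) (.n 0 (.n 0 (.n 2 (.l 4) (.n 1 (.l 4) (.l 4))) (.n 1 (.n 2 (.l 4) (.l 4)) (.n 2 (.l 4) (.l 4)))) (.n 0 (.n 2 (.n 1 (.l 4) (.l 4)) (.n 2 (.l 4) (.n 0 (.l 4) (.l 4)))) (.n 2 (.n 2 (.l 4) (.l 4)) (.n 1 (.n 1 (.l 4) (.l 4)) (.n 2 (.l 4) (.l 4)))))))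
    [(246625075200, 7046430720), (94489280512, 94489280512), (274877906944, 274877906944), (725849473024, 4294967296)] rfl (by decide +kernel)
theorem c1_m39_t8 : CovD 0 progs [(232532213760, 7046430720), (94489280512, 94489280512), (274877906944, 274877906944), (732291923968, 2147483648)] :=
  Pool.Agent.helper14.QF.covD_F chks_eq (.n 0 (.n 0 (.l 4) (.l 4)) (.n 0 (.n 0 (.l 4) (.l 4)) (.n 1 (.l 4) (.l 4))))
    [(232532213760, 7046430720), (94489280512, 94489280512), (274877906944, 274877906944), (732291923968, 2147483648)] rfl (by decide +kernel)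
end
mutual
theorem c1_m39_t9 : CovD 0 progs [(246625075200, 7046430720), (94489280512, 94489280512), (274877906944, 274877906944), (732291923968, 2147483648)] :=
  Pool.Agent.helper14.QF.covD_F chks_eq (.n 0 (.n 0 (.n 2 (.l 4) (.l 4)) (.n 2 (.l 4) (.n 0 (.l 4) (.l 4)))) (.n 0 (.n 2 (.n 2 (.l 4) (.l 4)) (.n 2 (.l 4) (.n 0 (.l 4) (.l 4)))) (.n 0 (.n 2 (.n 1 (.l 4) (.l 4)) (.n 2 (.l 4) (.l 4))) (.n 2 (.n 2 (.l 4) (.l 4)) (.n 2 (.l 4) (.n 1 (.l 4) (.l 4)))))))
    [(246625075200, 7046430720), (94489280512, 94489280512), (274877906944, 274877906944), (732291923968, 2147483648)] rfl (by decide +kernel)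
theorem c1_m39_t11 : CovD 0 progs [(232532213760, 7046430720), (94489280512, 94489280512), (274877906944, 274877906944), (736586891264, 2147483648)] :=
  Pool.Agent.helper14.QF.covD_F chks_eq (.n 0 (.n 0 (.l 4) (.l 4)) (.n 0 (.n 0 (.l 4) (.l 4)) (.n 1 (.l 4) (.l 4))))
    [(232532213760, 7046430720), (94489280512, 94489280512), (274877906944, 274877906944), (736586891264, 2147483648)] rfl (by decide +kernel)
end
mutual
theorem c1_m39_t12 : CovD 0 progs [(246625075200, 7046430720), (94489280512, 94489280512), (274877906944, 274877906944), (736586891264, 2147483648)] :=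
  Pool.Agent.helper14.QF.covD_F chks_eq (.n 0 (.n 0 (.n 2 (.l 4) (.l 4)) (.n 1 (.n 2 (.l 4) (.l 4)) (.n 2 (.l 4) (.l 4)))) (.n 0 (.n 0 (.n 2 (.l 4) (.n 1 (.l 4) (.l 4))) (.n 2 (.n 1 (.l 4) (.l 4)) (.n 2 (.l 4) (.l 4)))) (.n 0 (.n 2 (.n 2 (.l 4) (.l 4)) (.n 2 (.l 4) (.n 0 (.l 4) (.l 4)))) (.n 2 (.n 2 (.l 4) (.l 4)) (.n 1 (.n 1 (.l 4) (.l 4)) (.n 2 (.l 4) (.l 4)))))))
    [(246625075200, 7046430720), (94489280512, 94489280512), (274877906944, 274877906944), (736586891264, 2147483648)] rfl (by decide +kernel)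
theorem c1_m39_t16 : CovD 0 progs [(232532213760, 7046430720), (94489280512, 94489280512), (274877906944, 274877906944), (743029342208, 4294967296)] :=
  Pool.Agent.helper14.QF.covD_F chks_eq (.n 0 (.n 0 (.l 4) (.n 0 (.l 4) (.l 4))) (.n 0 (.n 2 (.l 4) (.l 4)) (.n 2 (.l 4) (.n 0 (.l 4) (.l 4)))))
    [(232532213760, 7046430720), (94489280512, 94489280512), (274877906944, 274877906944), (743029342208, 4294967296)] rfl (by decide +kernel)
end
mutual
theorem c1_m39_t17 : CovD 0 progs [(243101859840, 3523215360), (94489280512, 94489280512), (274877906944, 274877906944), (743029342208, 4294967296)] :=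
  Pool.Agent.helper14.QF.covD_F chks_eq (.n 0 (.n 0 (.n 2 (.l 4) (.l 4)) (.n 2 (.l 4) (.n 0 (.l 4) (.l 4)))) (.n 0 (.n 1 (.n 2 (.l 4) (.l 4)) (.n 2 (.l 4) (.l 4))) (.n 1 (.n 2 (.l 4) (.l 4)) (.n 2 (.l 4) (.n 0 (.l 4) (.l 4))))))
    [(243101859840, 3523215360), (94489280512, 94489280512), (274877906944, 274877906944), (743029342208, 4294967296)] rfl (by decide +kernel)
theorem c1_m39_t18 : CovD 0 progs [(248386682880, 1761607680), (94489280512, 94489280512), (274877906944, 274877906944), (743029342208, 4294967296)] :=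
  Pool.Agent.helper14.QF.covD_F chks_eq (.n 0 (.n 2 (.n 2 (.l 4) (.l 4)) (.n 1 (.n 0 (.l 4) (.l 4)) (.n 2 (.l 4) (.l 4)))) (.n 2 (.n 0 (.n 2 (.l 4) (.l 4)) (.n 2 (.l 4) (.l 4))) (.n 2 (.n 3 (.l 4) (.l 4)) (.n 0 (.n 1 (.l 4) (.l 4)) (.n 1 (.l 4) (.l 4))))))
    [(248386682880, 1761607680), (94489280512, 94489280512), (274877906944, 274877906944), (743029342208, 4294967296)] rfl (by decide +kernel)
end
mutual
theorem c1_m39_t19 : CovD 0 progs [(251029094400, 880803840), (94489280512, 94489280512), (274877906944, 274877906944), (743029342208, 4294967296)] :=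
  Pool.Agent.helper14.QF.covD_F chks_eq (.n 2 (.n 2 (.n 3 (.l 4) (.l 4)) (.n 3 (.l 4) (.n 0 (.l 4) (.l 4)))) (.n 1 (.n 0 (.n 1 (.l 4) (.l 4)) (.n 2 (.l 4) (.l 4))) (.n 2 (.n 0 (.l 4) (.l 4)) (.n 3 (.l 4) (.n 0 (.l 4) (.l 4))))))
    [(251029094400, 880803840), (94489280512, 94489280512), (274877906944, 274877906944), (743029342208, 4294967296)] rfl (by decide +kernel)
theorem c1_m39_t20 : CovD 0 progs [(252790702080, 880803840), (94489280512, 94489280512), (274877906944, 274877906944), (743029342208, 4294967296)] :=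
  Pool.Agent.helper14.QF.covD_F chks_eq (.n 2 (.n 2 (.n 3 (.l 4) (.n 0 (.l 4) (.l 4))) (.n 0 (.n 1 (.l 4) (.l 4)) (.n 1 (.l 4) (.l 4)))) (.n 1 (.n 2 (.n 0 (.l 4) (.l 4)) (.n 3 (.l 4) (.l 4))) (.n 2 (.n 3 (.l 4) (.l 4)) (.n 0 (.n 1 (.l 4) (.l 4)) (.n 1 (.l 4) (.l 4))))))
    [(252790702080, 880803840), (94489280512, 94489280512), (274877906944, 274877906944), (743029342208, 4294967296)] rfl (by decide +kernel)
end
mutual
theorem c1_m39_t25 : CovD 0 progs [(232532213760, 7046430720), (94489280512, 94489280512), (137438953472, 137438953472), (751619276800, 4294967296)] :=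
  Pool.Agent.helper14.QF.covD_F chks_eq (.n 0 (.n 0 (.l 4) (.l 4)) (.n 0 (.l 4) (.n 0 (.l 4) (.l 4))))
    [(232532213760, 7046430720), (94489280512, 94489280512), (137438953472, 137438953472), (751619276800, 4294967296)] rfl (by decide +kernel)
theorem c1_m39_t26 : CovD 0 progs [(243101859840, 3523215360), (94489280512, 94489280512), (137438953472, 137438953472), (751619276800, 4294967296)] :=
  Pool.Agent.helper14.QF.covD_F chks_eq (.n 0 (.n 0 (.l 4) (.n 0 (.l 4) (.l 4))) (.n 0 (.n 2 (.l 4) (.l 4)) (.n 0 (.n 1 (.l 4) (.l 4)) (.n 2 (.l 4) (.l 4)))))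
    [(243101859840, 3523215360), (94489280512, 94489280512), (137438953472, 137438953472), (751619276800, 4294967296)] rfl (by decide +kernel)
end
mutual
theorem c1_m39_t27 : CovD 0 progs [(248386682880, 1761607680), (94489280512, 94489280512), (137438953472, 137438953472), (751619276800, 4294967296)] :=
  Pool.Agent.helper14.QF.covD_F chks_eq (.n 0 (.n 2 (.n 0 (.l 4) (.l 4)) (.n 3 (.l 4) (.l 4))) (.n 2 (.n 3 (.l 4) (.n 0 (.l 4) (.l 4))) (.n 3 (.l 4) (.n 0 (.l 4) (.l 4)))))
    [(248386682880, 1761607680), (94489280512, 94489280512), (137438953472, 137438953472), (751619276800, 4294967296)] rfl (by decide +kernel)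
theorem c1_m39_t28 : CovD 0 progs [(251909898240, 1761607680), (94489280512, 94489280512), (137438953472, 137438953472), (751619276800, 4294967296)] :=
  Pool.Agent.helper14.QF.covD_F chks_eq (.n 0 (.n 0 (.n 1 (.n 2 (.l 4) (.l 4)) (.n 2 (.l 4) (.l 4))) (.n 1 (.n 2 (.l 4) (.l 4)) (.n 2 (.l 4) (.l 4)))) (.n 2 (.n 2 (.l 4) (.n 0 (.l 4) (.l 4))) (.n 0 (.n 1 (.l 4) (.l 4)) (.n 1 (.l 4) (.l 4)))))
    [(251909898240, 1761607680), (94489280512, 94489280512), (137438953472, 137438953472), (751619276800, 4294967296)] rfl (by decide +kernel)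
end
mutual
theorem c1_m39_t32 : CovD 0 progs [(232532213760, 7046430720), (94489280512, 94489280512), (412316860416, 137438953472), (751619276800, 4294967296)] :=
  Pool.Agent.helper14.QF.covD_F chks_eq (.n 0 (.n 0 (.l 4) (.l 4)) (.n 0 (.l 4) (.n 2 (.l 4) (.l 4))))
    [(232532213760, 7046430720), (94489280512, 94489280512), (412316860416, 137438953472), (751619276800, 4294967296)] rfl (by decide +kernel)
theorem c1_m39_t33 : CovD 0 progs [(246625075200, 7046430720), (94489280512, 94489280512), (343597383680, 68719476736), (751619276800, 4294967296)] :=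
  Pool.Agent.helper14.QF.covD_F chks_eq (.n 0 (.n 0 (.n 0 (.l 4) (.l 4)) (.n 0 (.l 4) (.n 0 (.l 4) (.l 4)))) (.n 0 (.n 0 (.n 3 (.l 4) (.n 0 (.l 4) (.l 4))) (.n 0 (.n 1 (.l 4) (.l 4)) (.n 1 (.l 4) (.l 4)))) (.n 0 (.n 1 (.n 0 (.l 4) (.l 4)) (.n 3 (.l 4) (.l 4))) (.n 1 (.n 0 (.l 4) (.l 4)) (.n 2 (.l 4) (.l 4))))))
    [(246625075200, 7046430720), (94489280512, 94489280512), (343597383680, 68719476736), (751619276800, 4294967296)] rfl (by decide +kernel)
end
mutual
theorem c1_m39_t34 : CovD 0 progs [(243101859840, 3523215360), (94489280512, 94489280512), (481036337152, 68719476736), (751619276800, 4294967296)] :=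
  Pool.Agent.helper14.QF.covD_F chks_eq (.n 0 (.n 0 (.l 4) (.l 4)) (.n 0 (.n 0 (.l 4) (.l 4)) (.n 1 (.l 4) (.n 0 (.l 4) (.l 4)))))
    [(243101859840, 3523215360), (94489280512, 94489280512), (481036337152, 68719476736), (751619276800, 4294967296)] rfl (by decide +kernel)
theorem c1_m39_t35 : CovD 0 progs [(250148290560, 3523215360), (94489280512, 94489280512), (481036337152, 68719476736), (751619276800, 4294967296)] :=
  Pool.Agent.helper14.QF.covD_F chks_eq (.n 0 (.n 0 (.n 1 (.n 0 (.l 4) (.l 4)) (.n 3 (.l 4) (.l 4))) (.n 1 (.n 3 (.l 4) (.l 4)) (.n 3 (.l 4) (.n 0 (.l 4) (.l 4))))) (.n 0 (.n 1 (.n 3 (.l 4) (.l 4)) (.n 0 (.n 1 (.l 4) (.l 4)) (.n 2 (.l 4) (.l 4)))) (.n 1 (.n 2 (.l 4) (.l 6)) (.n 0 (.n 1 (.l 4) (.l 4)) (.n 1 (.l 4) (.l 4))))))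
    [(250148290560, 3523215360), (94489280512, 94489280512), (481036337152, 68719476736), (751619276800, 4294967296)] rfl (by decide +kernel)
end
theorem c1_m39_t3 : CovD 0 progs [(239578644480, 14092861440), (94489280512, 94489280512), (274877906944, 274877906944), (712964571136, 8589934592)] :=
  covD_split 3 (by decide +kernel) c1_m39_t1 c1_m39_t2
theorem c1_m39_t4 : CovD 0 progs [(239578644480, 14092861440), (94489280512, 94489280512), (274877906944, 274877906944), (704374636544, 17179869184)] :=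
  covD_split 3 (by decide +kernel) c1_m39_t0 c1_m39_t3
theorem c1_m39_t7 : CovD 0 progs [(239578644480, 14092861440), (94489280512, 94489280512), (274877906944, 274877906944), (725849473024, 4294967296)] :=
  covD_split 0 (by decide +kernel) c1_m39_t5 c1_m39_t6
theorem c1_m39_t10 : CovD 0 progs [(239578644480, 14092861440), (94489280512, 94489280512), (274877906944, 274877906944), (732291923968, 2147483648)] :=
  covD_split 0 (by decide +kernel) c1_m39_t8 c1_m39_t9
theorem c1_m39_t13 : CovD 0 progs [(239578644480, 14092861440), (94489280512, 94489280512), (274877906944, 274877906944), (736586891264, 2147483648)] :=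
  covD_split 0 (by decide +kernel) c1_m39_t11 c1_m39_t12
theorem c1_m39_t14 : CovD 0 progs [(239578644480, 14092861440), (94489280512, 94489280512), (274877906944, 274877906944), (734439407616, 4294967296)] :=
  covD_split 3 (by decide +kernel) c1_m39_t10 c1_m39_t13
theorem c1_m39_t15 : CovD 0 progs [(239578644480, 14092861440), (94489280512, 94489280512), (274877906944, 274877906944), (730144440320, 8589934592)] :=
  covD_split 3 (by decide +kernel) c1_m39_t7 c1_m39_t14
theorem c1_m39_t21 : CovD 0 progs [(251909898240, 1761607680), (94489280512, 94489280512), (274877906944, 274877906944), (743029342208, 4294967296)] :=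
  covD_split 0 (by decide +kernel) c1_m39_t19 c1_m39_t20
theorem c1_m39_t22 : CovD 0 progs [(250148290560, 3523215360), (94489280512, 94489280512), (274877906944, 274877906944), (743029342208, 4294967296)] :=
  covD_split 0 (by decide +kernel) c1_m39_t18 c1_m39_t21
theorem c1_m39_t23 : CovD 0 progs [(246625075200, 7046430720), (94489280512, 94489280512), (274877906944, 274877906944), (743029342208, 4294967296)] :=
  covD_split 0 (by decide +kernel) c1_m39_t17 c1_m39_t22
theorem c1_m39_t24 : CovD 0 progs [(239578644480, 14092861440), (94489280512, 94489280512), (274877906944, 274877906944), (743029342208, 4294967296)] :=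
  covD_split 0 (by decide +kernel) c1_m39_t16 c1_m39_t23
theorem c1_m39_t29 : CovD 0 progs [(250148290560, 3523215360), (94489280512, 94489280512), (137438953472, 137438953472), (751619276800, 4294967296)] :=
  covD_split 0 (by decide +kernel) c1_m39_t27 c1_m39_t28
theorem c1_m39_t30 : CovD 0 progs [(246625075200, 7046430720), (94489280512, 94489280512), (137438953472, 137438953472), (751619276800, 4294967296)] :=
  covD_split 0 (by decide +kernel) c1_m39_t26 c1_m39_t29
theorem c1_m39_t31 : CovD 0 progs [(239578644480, 14092861440), (94489280512, 94489280512), (137438953472, 137438953472), (751619276800, 4294967296)] :=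
  covD_split 0 (by decide +kernel) c1_m39_t25 c1_m39_t30
theorem c1_m39_t36 : CovD 0 progs [(246625075200, 7046430720), (94489280512, 94489280512), (481036337152, 68719476736), (751619276800, 4294967296)] :=
  covD_split 0 (by decide +kernel) c1_m39_t34 c1_m39_t35
theorem c1_m39_t37 : CovD 0 progs [(246625075200, 7046430720), (94489280512, 94489280512), (412316860416, 137438953472), (751619276800, 4294967296)] :=
  covD_split 2 (by decide +kernel) c1_m39_t33 c1_m39_t36
theorem c1_m39_t38 : CovD 0 progs [(239578644480, 14092861440), (94489280512, 94489280512), (412316860416, 137438953472), (751619276800, 4294967296)] :=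
  covD_split 0 (by decide +kernel) c1_m39_t32 c1_m39_t37
theorem c1_m39_t39 : CovD 0 progs [(239578644480, 14092861440), (94489280512, 94489280512), (274877906944, 274877906944), (751619276800, 4294967296)] :=
  covD_split 2 (by decide +kernel) c1_m39_t31 c1_m39_t38
theorem c1_m39_t40 : CovD 0 progs [(239578644480, 14092861440), (94489280512, 94489280512), (274877906944, 274877906944), (747324309504, 8589934592)] :=
  covD_split 3 (by decide +kernel) c1_m39_t24 c1_m39_t39
theorem c1_m39_t41 : CovD 0 progs [(239578644480, 14092861440), (94489280512, 94489280512), (274877906944, 274877906944), (738734374912, 17179869184)] :=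
  covD_split 3 (by decide +kernel) c1_m39_t15 c1_m39_t40
theorem c1_m39 : CovD 0 progs [(239578644480, 14092861440), (94489280512, 94489280512), (274877906944, 274877906944), (721554505728, 34359738368)] :=
  covD_split 3 (by decide +kernel) c1_m39_t4 c1_m39_t41

end Pool.Agent.helper71.FJ.Crt.QMa
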