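import Pool.Agent.helper71.FJ.Crt.QMaP

/-!
Generated certificates.
-/

namespace Pool.Agent.helper71.FJ.Crt.QMa

open Pool.Agent.helper31.IA (Z Op)
open Pool.Agent.helper31.IC

mutual
theorem c1_m4_t0 : CovD 0 progs [(317089382400, 7046430720), (94489280512, 94489280512), (68719476736, 68719476736), (360777252864, 17179869184)] :=
  Pool.Agent.helper14.QF.covD_F chks_eq (.n 0 (.n 0 (.l 4) (.n 0 (.l 4) (.l 4))) (.n 0 (.n 0 (.l 4) (.n 0 (.l 4) (.l 4))) (.n 0 (.n 3 (.l 4) (.l 4)) (.n 3 (.l 4) (.l 4)))))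
    [(317089382400, 7046430720), (94489280512, 94489280512), (68719476736, 68719476736), (360777252864, 17179869184)] rfl (by decide +kernel)
theorem c1_m4_t1 : CovD 0 progs [(331182243840, 7046430720), (94489280512, 94489280512), (68719476736, 68719476736), (360777252864, 17179869184)] :=
  Pool.Agent.helper14.QF.covD_F chks_eq (.n 0 (.n 0 (.n 0 (.n 3 (.l 4) (.n 0 (.l 4) (.l 4))) (.n 0 (.n 1 (.l 4) (.l 4)) (.n 1 (.l 4) (.l 4)))) (.n 0 (.n 1 (.l 4) (.l 4)) (.l 4))) (.n 0 (.n 0 (.n 0 (.l 4) (.l 4)) (.n 1 (.l 4) (.l 4))) (.n 0 (.n 1 (.l 4) (.l 4)) (.n 1 (.l 4) (.l 4)))))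
    [(331182243840, 7046430720), (94489280512, 94489280512), (68719476736, 68719476736), (360777252864, 17179869184)] rfl (by decide +kernel)
end
mutual
theorem c1_m4_t3 : CovD 0 progs [(324135813120, 14092861440), (94489280512, 94489280512), (171798691840, 34359738368), (360777252864, 17179869184)] :=
  Pool.Agent.helper14.QF.covD_F chks_eq (.n 0 (.n 0 (.n 0 (.l 4) (.n 0 (.l 4) (.l 4))) (.n 0 (.n 0 (.l 4) (.l 4)) (.n 0 (.n 0 (.l 4) (.l 4)) (.n 0 (.l 4) (.l 4))))) (.n 0 (.n 0 (.n 0 (.n 0 (.l 4) (.l 4)) (.n 0 (.l 4) (.l 4))) (.n 0 (.l 4) (.l 4))) (.n 0 (.n 0 (.l 4) (.l 4)) (.n 0 (.l 4) (.l 4)))))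
    [(324135813120, 14092861440), (94489280512, 94489280512), (171798691840, 34359738368), (360777252864, 17179869184)] rfl (by decide +kernel)
theorem c1_m4_t4 : CovD 0 progs [(324135813120, 14092861440), (94489280512, 94489280512), (240518168576, 34359738368), (360777252864, 17179869184)] :=
  Pool.Agent.helper14.QF.covD_F chks_eq (.n 0 (.n 0 (.n 0 (.l 4) (.n 0 (.l 4) (.l 4))) (.n 0 (.n 0 (.l 4) (.l 4)) (.n 0 (.n 0 (.l 4) (.l 4)) (.n 0 (.l 4) (.l 4))))) (.n 0 (.n 0 (.n 0 (.n 0 (.l 4) (.l 4)) (.n 0 (.l 4) (.l 4))) (.n 0 (.l 4) (.l 4))) (.n 0 (.n 0 (.l 4) (.l 4)) (.n 0 (.l 4) (.l 4)))))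
    [(324135813120, 14092861440), (94489280512, 94489280512), (240518168576, 34359738368), (360777252864, 17179869184)] rfl (by decide +kernel)
end
mutual
theorem c1_m4_t7 : CovD 0 progs [(324135813120, 14092861440), (94489280512, 94489280512), (343597383680, 68719476736), (352187318272, 8589934592)] :=
  Pool.Agent.helper14.QF.covD_F chks_eq (.n 0 (.n 0 (.n 0 (.l 4) (.l 4)) (.n 0 (.n 0 (.l 4) (.l 4)) (.n 0 (.l 4) (.n 0 (.l 4) (.l 4))))) (.n 0 (.n 0 (.n 0 (.n 1 (.l 4) (.l 4)) (.n 1 (.l 4) (.l 4))) (.n 1 (.l 4) (.n 0 (.l 4) (.l 4)))) (.n 0 (.n 1 (.l 4) (.l 4)) (.n 1 (.l 4) (.n 0 (.l 4) (.l 4))))))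
    [(324135813120, 14092861440), (94489280512, 94489280512), (343597383680, 68719476736), (352187318272, 8589934592)] rfl (by decide +kernel)
theorem c1_m4_t8 : CovD 0 progs [(324135813120, 14092861440), (94489280512, 94489280512), (343597383680, 68719476736), (369367187456, 8589934592)] :=
  Pool.Agent.helper14.QF.covD_F chks_eq (.n 0 (.n 0 (.n 0 (.l 4) (.n 0 (.l 4) (.l 4))) (.n 0 (.n 0 (.l 4) (.l 4)) (.n 0 (.n 0 (.l 4) (.l 4)) (.n 1 (.l 4) (.l 4))))) (.n 0 (.n 0 (.n 0 (.n 1 (.l 4) (.l 4)) (.n 1 (.l 4) (.l 4))) (.n 1 (.l 4) (.l 4))) (.n 0 (.n 1 (.l 4) (.n 0 (.l 4) (.l 4))) (.n 1 (.l 4) (.n 0 (.l 4) (.l 4))))))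
    [(324135813120, 14092861440), (94489280512, 94489280512), (343597383680, 68719476736), (369367187456, 8589934592)] rfl (by decide +kernel)
end
mutual
theorem c1_m4_t10 : CovD 0 progs [(317089382400, 7046430720), (94489280512, 94489280512), (481036337152, 68719476736), (352187318272, 8589934592)] :=
  Pool.Agent.helper14.QF.covD_F chks_eq (.n 0 (.n 0 (.l 4) (.l 4)) (.n 0 (.n 0 (.l 4) (.n 0 (.l 4) (.l 4))) (.n 0 (.n 1 (.l 4) (.l 4)) (.n 1 (.l 4) (.l 4)))))
    [(317089382400, 7046430720), (94489280512, 94489280512), (481036337152, 68719476736), (352187318272, 8589934592)] rfl (by decide +kernel)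
theorem c1_m4_t11 : CovD 0 progs [(331182243840, 7046430720), (94489280512, 94489280512), (481036337152, 68719476736), (352187318272, 8589934592)] :=
  Pool.Agent.helper14.QF.covD_F chks_eq (.n 0 (.n 0 (.n 0 (.n 1 (.l 4) (.n 0 (.l 4) (.l 4))) (.n 1 (.l 4) (.n 1 (.l 4) (.l 4)))) (.n 1 (.n 0 (.l 4) (.l 4)) (.n 1 (.l 4) (.n 0 (.l 4) (.l 4))))) (.n 0 (.n 1 (.l 4) (.n 1 (.l 4) (.l 4))) (.n 0 (.n 1 (.l 4) (.n 0 (.l 4) (.l 4))) (.n 1 (.l 4) (.l 4)))))
    [(331182243840, 7046430720), (94489280512, 94489280512), (481036337152, 68719476736), (352187318272, 8589934592)] rfl (by decide +kernel)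
end
mutual
theorem c1_m4_t13 : CovD 0 progs [(317089382400, 7046430720), (94489280512, 94489280512), (481036337152, 68719476736), (369367187456, 8589934592)] :=
  Pool.Agent.helper14.QF.covD_F chks_eq (.n 0 (.n 0 (.l 4) (.n 0 (.l 4) (.l 4))) (.n 0 (.n 0 (.n 0 (.l 4) (.l 4)) (.n 1 (.l 4) (.l 4))) (.n 0 (.n 1 (.l 4) (.n 0 (.l 4) (.l 4))) (.n 1 (.l 4) (.n 0 (.l 4) (.l 4))))))
    [(317089382400, 7046430720), (94489280512, 94489280512), (481036337152, 68719476736), (369367187456, 8589934592)] rfl (by decide +kernel)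
theorem c1_m4_t14 : CovD 0 progs [(331182243840, 7046430720), (94489280512, 94489280512), (481036337152, 68719476736), (369367187456, 8589934592)] :=
  Pool.Agent.helper14.QF.covD_F chks_eq (.n 0 (.n 0 (.n 0 (.n 1 (.l 4) (.n 1 (.l 4) (.l 4))) (.n 1 (.l 4) (.n 1 (.l 4) (.l 4)))) (.n 1 (.l 4) (.n 1 (.l 4) (.l 4)))) (.n 0 (.n 1 (.n 0 (.l 4) (.l 4)) (.n 1 (.l 4) (.n 0 (.l 4) (.l 4)))) (.n 0 (.n 1 (.l 4) (.l 4)) (.n 1 (.l 4) (.l 4)))))
    [(331182243840, 7046430720), (94489280512, 94489280512), (481036337152, 68719476736), (369367187456, 8589934592)] rfl (by decide +kernel)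
end
mutual
theorem c1_m4_t19 : CovD 0 progs [(313566167040, 3523215360), (94489280512, 94489280512), (274877906944, 274877906944), (386547056640, 8589934592)] :=
  Pool.Agent.helper14.QF.covD_F chks_eq (.n 0 (.n 2 (.n 1 (.l 4) (.l 4)) (.n 2 (.l 4) (.n 0 (.l 4) (.l 4)))) (.n 1 (.n 2 (.n 0 (.l 4) (.l 4)) (.n 2 (.l 4) (.l 4))) (.n 2 (.n 0 (.l 4) (.l 4)) (.n 2 (.l 4) (.n 0 (.l 4) (.l 4))))))
    [(313566167040, 3523215360), (94489280512, 94489280512), (274877906944, 274877906944), (386547056640, 8589934592)] rfl (by decide +kernel)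
theorem c1_m4_t20 : CovD 0 progs [(318850990080, 1761607680), (94489280512, 94489280512), (274877906944, 274877906944), (386547056640, 8589934592)] :=
  Pool.Agent.helper14.QF.covD_F chks_eq (.n 0 (.n 2 (.n 2 (.l 4) (.l 4)) (.n 1 (.n 1 (.l 4) (.l 4)) (.n 2 (.l 4) (.l 4)))) (.n 2 (.n 2 (.l 4) (.n 0 (.l 4) (.l 4))) (.n 1 (.n 1 (.l 4) (.l 4)) (.n 2 (.l 4) (.n 0 (.l 4) (.l 4))))))
    [(318850990080, 1761607680), (94489280512, 94489280512), (274877906944, 274877906944), (386547056640, 8589934592)] rfl (by decide +kernel)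
end
mutual
theorem c1_m4_t21 : CovD 0 progs [(322374205440, 1761607680), (94489280512, 94489280512), (274877906944, 274877906944), (386547056640, 8589934592)] :=
  Pool.Agent.helper14.QF.covD_F chks_eq (.n 0 (.n 1 (.n 2 (.n 1 (.l 4) (.l 4)) (.n 2 (.l 4) (.l 4))) (.n 2 (.n 2 (.l 4) (.l 4)) (.n 2 (.l 4) (.n 1 (.l 4) (.l 4))))) (.n 1 (.n 2 (.n 2 (.l 4) (.l 4)) (.n 2 (.l 4) (.l 4))) (.n 2 (.n 2 (.l 4) (.l 4)) (.n 2 (.l 4) (.n 1 (.l 4) (.l 4))))))
    [(322374205440, 1761607680), (94489280512, 94489280512), (274877906944, 274877906944), (386547056640, 8589934592)] rfl (by decide +kernel)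
theorem c1_m4_t24 : CovD 0 progs [(327659028480, 3523215360), (94489280512, 94489280512), (274877906944, 274877906944), (386547056640, 8589934592)] :=
  Pool.Agent.helper14.QF.covD_F chks_eq (.n 0 (.n 1 (.n 2 (.n 2 (.l 4) (.l 4)) (.n 2 (.l 4) (.n 0 (.l 4) (.l 4)))) (.n 2 (.n 2 (.l 4) (.l 4)) (.n 1 (.n 2 (.l 4) (.l 4)) (.n 2 (.l 4) (.n 0 (.l 4) (.l 4)))))) (.n 1 (.n 2 (.n 2 (.l 4) (.l 4)) (.n 2 (.l 4) (.n 0 (.l 4) (.l 4)))) (.n 2 (.n 2 (.l 4) (.l 4)) (.n 1 (.n 2 (.l 4) (.l 4)) (.n 2 (.l 4) (.l 4))))))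
    [(327659028480, 3523215360), (94489280512, 94489280512), (274877906944, 274877906944), (386547056640, 8589934592)] rfl (by decide +kernel)
end
mutual
theorem c1_m4_t25 : CovD 0 progs [(334705459200, 3523215360), (94489280512, 94489280512), (274877906944, 274877906944), (386547056640, 8589934592)] :=
  Pool.Agent.helper14.QF.covD_F chks_eq (.n 0 (.n 1 (.n 2 (.n 2 (.l 4) (.l 4)) (.n 0 (.n 1 (.l 4) (.l 4)) (.n 1 (.l 4) (.l 4)))) (.n 2 (.n 2 (.l 4) (.n 0 (.l 4) (.l 4))) (.n 1 (.n 2 (.l 4) (.l 4)) (.n 2 (.l 4) (.n 0 (.l 4) (.l 4)))))) (.n 1 (.n 2 (.n 1 (.l 4) (.l 4)) (.n 2 (.l 4) (.l 4))) (.n 2 (.n 2 (.l 4) (.l 4)) (.n 2 (.l 4) (.n 0 (.l 4) (.l 4))))))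
    [(334705459200, 3523215360), (94489280512, 94489280512), (274877906944, 274877906944), (386547056640, 8589934592)] rfl (by decide +kernel)
theorem c1_m4_t28 : CovD 0 progs [(313566167040, 3523215360), (94489280512, 94489280512), (274877906944, 274877906944), (403726925824, 8589934592)] :=
  Pool.Agent.helper14.QF.covD_F chks_eq (.n 2 (.n 2 (.n 0 (.l 4) (.n 0 (.l 4) (.l 4))) (.n 0 (.n 0 (.l 4) (.l 4)) (.n 0 (.l 4) (.l 4)))) (.n 0 (.n 1 (.n 0 (.l 4) (.l 4)) (.n 2 (.l 4) (.l 4))) (.n 0 (.n 2 (.l 4) (.n 1 (.l 4) (.l 4))) (.n 1 (.n 1 (.l 4) (.l 4)) (.n 2 (.l 4) (.l 4))))))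
    [(313566167040, 3523215360), (94489280512, 94489280512), (274877906944, 274877906944), (403726925824, 8589934592)] rfl (by decide +kernel)
end
mutual
theorem c1_m4_t29 : CovD 0 progs [(318850990080, 1761607680), (94489280512, 94489280512), (274877906944, 274877906944), (403726925824, 8589934592)] :=
  Pool.Agent.helper14.QF.covD_F chks_eq (.n 0 (.n 2 (.n 2 (.l 4) (.n 0 (.l 4) (.l 4))) (.n 1 (.n 2 (.l 4) (.l 4)) (.n 2 (.l 4) (.n 0 (.l 4) (.l 4))))) (.n 1 (.n 2 (.n 2 (.l 4) (.l 4)) (.n 2 (.l 4) (.l 4))) (.n 2 (.n 2 (.l 4) (.l 4)) (.n 2 (.l 4) (.n 1 (.l 4) (.l 4))))))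
    [(318850990080, 1761607680), (94489280512, 94489280512), (274877906944, 274877906944), (403726925824, 8589934592)] rfl (by decide +kernel)
theorem c1_m4_t30 : CovD 0 progs [(322374205440, 1761607680), (94489280512, 94489280512), (274877906944, 274877906944), (403726925824, 8589934592)] :=
  Pool.Agent.helper14.QF.covD_F chks_eq (.n 0 (.n 1 (.n 2 (.n 2 (.l 4) (.l 4)) (.n 2 (.l 4) (.n 0 (.l 4) (.l 4)))) (.n 2 (.n 2 (.l 4) (.l 4)) (.n 2 (.l 4) (.n 1 (.l 4) (.l 4))))) (.n 1 (.n 2 (.n 1 (.l 4) (.l 4)) (.n 2 (.l 4) (.l 4))) (.n 2 (.n 2 (.l 4) (.l 4)) (.n 2 (.l 4) (.n 1 (.l 4) (.l 4))))))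
    [(322374205440, 1761607680), (94489280512, 94489280512), (274877906944, 274877906944), (403726925824, 8589934592)] rfl (by decide +kernel)
end
mutual
theorem c1_m4_t33 : CovD 0 progs [(327659028480, 3523215360), (94489280512, 94489280512), (274877906944, 274877906944), (403726925824, 8589934592)] :=
  Pool.Agent.helper14.QF.covD_F chks_eq (.n 0 (.n 2 (.n 2 (.l 4) (.n 0 (.l 4) (.l 4))) (.n 1 (.n 2 (.l 4) (.l 4)) (.n 2 (.l 4) (.n 1 (.l 4) (.l 4))))) (.n 1 (.n 2 (.n 2 (.l 4) (.n 0 (.l 4) (.l 4))) (.n 0 (.n 2 (.l 4) (.l 4)) (.n 2 (.l 4) (.l 4)))) (.n 2 (.n 2 (.l 4) (.n 0 (.l 4) (.l 4))) (.n 2 (.n 0 (.l 4) (.l 4)) (.n 2 (.l 4) (.n 0 (.l 4) (.l 4)))))))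
    [(327659028480, 3523215360), (94489280512, 94489280512), (274877906944, 274877906944), (403726925824, 8589934592)] rfl (by decide +kernel)
theorem c1_m4_t34 : CovD 0 progs [(334705459200, 3523215360), (94489280512, 94489280512), (274877906944, 274877906944), (403726925824, 8589934592)] :=
  Pool.Agent.helper14.QF.covD_F chks_eq (.n 0 (.n 1 (.n 2 (.n 2 (.l 4) (.l 4)) (.n 2 (.l 4) (.n 0 (.l 4) (.l 4)))) (.n 2 (.n 2 (.l 4) (.l 4)) (.n 0 (.n 2 (.l 4) (.n 0 (.l 4) (.l 4))) (.n 2 (.l 4) (.l 4))))) (.n 2 (.n 2 (.l 4) (.l 4)) (.n 1 (.n 1 (.l 4) (.l 4)) (.n 2 (.l 4) (.l 4)))))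
    [(334705459200, 3523215360), (94489280512, 94489280512), (274877906944, 274877906944), (403726925824, 8589934592)] rfl (by decide +kernel)
end
theorem c1_m4_t2 : CovD 0 progs [(324135813120, 14092861440), (94489280512, 94489280512), (68719476736, 68719476736), (360777252864, 17179869184)] :=
  covD_split 0 (by decide +kernel) c1_m4_t0 c1_m4_t1
theorem c1_m4_t5 : CovD 0 progs [(324135813120, 14092861440), (94489280512, 94489280512), (206158430208, 68719476736), (360777252864, 17179869184)] :=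
  covD_split 2 (by decide +kernel) c1_m4_t3 c1_m4_t4
theorem c1_m4_t6 : CovD 0 progs [(324135813120, 14092861440), (94489280512, 94489280512), (137438953472, 137438953472), (360777252864, 17179869184)] :=
  covD_split 2 (by decide +kernel) c1_m4_t2 c1_m4_t5
theorem c1_m4_t9 : CovD 0 progs [(324135813120, 14092861440), (94489280512, 94489280512), (343597383680, 68719476736), (360777252864, 17179869184)] :=
  covD_split 3 (by decide +kernel) c1_m4_t7 c1_m4_t8
theorem c1_m4_t12 : CovD 0 progs [(324135813120, 14092861440), (94489280512, 94489280512), (481036337152, 68719476736), (352187318272, 8589934592)] :=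
  covD_split 0 (by decide +kernel) c1_m4_t10 c1_m4_t11
theorem c1_m4_t15 : CovD 0 progs [(324135813120, 14092861440), (94489280512, 94489280512), (481036337152, 68719476736), (369367187456, 8589934592)] :=
  covD_split 0 (by decide +kernel) c1_m4_t13 c1_m4_t14
theorem c1_m4_t16 : CovD 0 progs [(324135813120, 14092861440), (94489280512, 94489280512), (481036337152, 68719476736), (360777252864, 17179869184)] :=
  covD_split 3 (by decide +kernel) c1_m4_t12 c1_m4_t15
theorem c1_m4_t17 : CovD 0 progs [(324135813120, 14092861440), (94489280512, 94489280512), (412316860416, 137438953472), (360777252864, 17179869184)] :=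
  covD_split 2 (by decide +kernel) c1_m4_t9 c1_m4_t16
theorem c1_m4_t18 : CovD 0 progs [(324135813120, 14092861440), (94489280512, 94489280512), (274877906944, 274877906944), (360777252864, 17179869184)] :=
  covD_split 2 (by decide +kernel) c1_m4_t6 c1_m4_t17
theorem c1_m4_t22 : CovD 0 progs [(320612597760, 3523215360), (94489280512, 94489280512), (274877906944, 274877906944), (386547056640, 8589934592)] :=
  covD_split 0 (by decide +kernel) c1_m4_t20 c1_m4_t21
theorem c1_m4_t23 : CovD 0 progs [(317089382400, 7046430720), (94489280512, 94489280512), (274877906944, 274877906944), (386547056640, 8589934592)] :=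
  covD_split 0 (by decide +kernel) c1_m4_t19 c1_m4_t22
theorem c1_m4_t26 : CovD 0 progs [(331182243840, 7046430720), (94489280512, 94489280512), (274877906944, 274877906944), (386547056640, 8589934592)] :=
  covD_split 0 (by decide +kernel) c1_m4_t24 c1_m4_t25
theorem c1_m4_t27 : CovD 0 progs [(324135813120, 14092861440), (94489280512, 94489280512), (274877906944, 274877906944), (386547056640, 8589934592)] :=
  covD_split 0 (by decide +kernel) c1_m4_t23 c1_m4_t26
theorem c1_m4_t31 : CovD 0 progs [(320612597760, 3523215360), (94489280512, 94489280512), (274877906944, 274877906944), (403726925824, 8589934592)] :=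
  covD_split 0 (by decide +kernel) c1_m4_t29 c1_m4_t30
theorem c1_m4_t32 : CovD 0 progs [(317089382400, 7046430720), (94489280512, 94489280512), (274877906944, 274877906944), (403726925824, 8589934592)] :=
  covD_split 0 (by decide +kernel) c1_m4_t28 c1_m4_t31
theorem c1_m4_t35 : CovD 0 progs [(331182243840, 7046430720), (94489280512, 94489280512), (274877906944, 274877906944), (403726925824, 8589934592)] :=
  covD_split 0 (by decide +kernel) c1_m4_t33 c1_m4_t34
theorem c1_m4_t36 : CovD 0 progs [(324135813120, 14092861440), (94489280512, 94489280512), (274877906944, 274877906944), (403726925824, 8589934592)] :=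
  covD_split 0 (by decide +kernel) c1_m4_t32 c1_m4_t35
theorem c1_m4_t37 : CovD 0 progs [(324135813120, 14092861440), (94489280512, 94489280512), (274877906944, 274877906944), (395136991232, 17179869184)] :=
  covD_split 3 (by decide +kernel) c1_m4_t27 c1_m4_t36
theorem c1_m4 : CovD 0 progs [(324135813120, 14092861440), (94489280512, 94489280512), (274877906944, 274877906944), (377957122048, 34359738368)] :=
  covD_split 3 (by decide +kernel) c1_m4_t18 c1_m4_t37

end Pool.Agent.helper71.FJ.Crt.QMa
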