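import Pool.Agent.helper71.FJ.Crt.QMaP

/-!
Generated certificates.
-/

namespace Pool.Agent.helper71.FJ.Crt.QMa

open Pool.Agent.helper31.IA (Z Op)
open Pool.Agent.helper31.IC

mutual
theorem c1_m40_t0 : CovD 0 progs [(232532213760, 7046430720), (47244640256, 47244640256), (137438953472, 137438953472), (764504178688, 8589934592)] :=
  Pool.Agent.helper14.QF.covD_F chks_eq (.n 3 (.n 0 (.n 0 (.l 4) (.l 4)) (.n 0 (.l 4) (.n 0 (.l 4) (.l 4)))) (.n 0 (.n 0 (.l 4) (.l 4)) (.n 0 (.n 0 (.l 4) (.l 4)) (.n 0 (.l 4) (.n 0 (.l 4) (.l 4))))))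
    [(232532213760, 7046430720), (47244640256, 47244640256), (137438953472, 137438953472), (764504178688, 8589934592)] rfl (by decide +kernel)
theorem c1_m40_t1 : CovD 0 progs [(232532213760, 7046430720), (47244640256, 47244640256), (137438953472, 137438953472), (777389080576, 4294967296)] :=
  Pool.Agent.helper14.QF.covD_F chks_eq (.n 3 (.n 0 (.n 0 (.l 4) (.l 4)) (.n 0 (.l 4) (.n 0 (.l 4) (.l 4)))) (.n 0 (.n 0 (.l 4) (.l 4)) (.n 0 (.n 0 (.l 4) (.l 4)) (.n 0 (.l 4) (.n 0 (.l 4) (.l 4))))))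
    [(232532213760, 7046430720), (47244640256, 47244640256), (137438953472, 137438953472), (777389080576, 4294967296)] rfl (by decide +kernel)
end
mutual
theorem c1_m40_t2 : CovD 0 progs [(232532213760, 7046430720), (47244640256, 47244640256), (137438953472, 137438953472), (785979015168, 4294967296)] :=
  Pool.Agent.helper14.QF.covD_F chks_eq (.n 3 (.n 0 (.n 0 (.l 4) (.l 4)) (.n 0 (.n 0 (.l 4) (.l 4)) (.n 0 (.n 0 (.l 4) (.l 4)) (.n 1 (.l 4) (.l 4))))) (.n 3 (.n 0 (.n 0 (.l 4) (.l 4)) (.n 0 (.n 0 (.l 4) (.l 4)) (.n 0 (.l 4) (.n 0 (.l 4) (.l 4))))) (.n 0 (.n 0 (.l 4) (.l 4)) (.n 0 (.n 0 (.l 4) (.l 4)) (.n 0 (.n 0 (.l 4) (.l 4)) (.n 1 (.l 4) (.l 4)))))))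
    [(232532213760, 7046430720), (47244640256, 47244640256), (137438953472, 137438953472), (785979015168, 4294967296)] rfl (by decide +kernel)
theorem c1_m40_t5 : CovD 0 progs [(232532213760, 7046430720), (47244640256, 47244640256), (137438953472, 137438953472), (792421466112, 2147483648)] :=
  Pool.Agent.helper14.QF.covD_F chks_eq (.n 3 (.n 0 (.n 0 (.l 4) (.l 4)) (.n 0 (.n 0 (.l 4) (.l 4)) (.n 0 (.n 0 (.l 4) (.l 4)) (.n 1 (.l 4) (.l 4))))) (.n 0 (.n 0 (.l 4) (.n 0 (.l 4) (.l 4))) (.n 0 (.n 0 (.l 4) (.l 4)) (.n 0 (.n 0 (.l 4) (.l 4)) (.n 1 (.l 4) (.l 4))))))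
    [(232532213760, 7046430720), (47244640256, 47244640256), (137438953472, 137438953472), (792421466112, 2147483648)] rfl (by decide +kernel)
end
mutual
theorem c1_m40_t6 : CovD 0 progs [(232532213760, 7046430720), (47244640256, 47244640256), (137438953472, 137438953472), (796716433408, 2147483648)] :=
  Pool.Agent.helper14.QF.covD_F chks_eq (.n 0 (.n 0 (.l 4) (.n 0 (.l 4) (.l 4))) (.n 0 (.n 0 (.n 0 (.l 4) (.l 4)) (.n 2 (.l 4) (.l 4))) (.n 0 (.n 2 (.l 4) (.l 4)) (.n 2 (.l 4) (.l 4)))))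
    [(232532213760, 7046430720), (47244640256, 47244640256), (137438953472, 137438953472), (796716433408, 2147483648)] rfl (by decide +kernel)
theorem c1_m40_t8 : CovD 0 progs [(232532213760, 7046430720), (47244640256, 47244640256), (137438953472, 137438953472), (801011400704, 2147483648)] :=
  Pool.Agent.helper14.QF.covD_F chks_eq (.n 2 (.n 0 (.n 0 (.l 4) (.n 0 (.l 4) (.l 4))) (.n 0 (.n 0 (.l 4) (.l 4)) (.n 0 (.l 4) (.l 4)))) (.n 3 (.n 0 (.n 0 (.l 4) (.l 4)) (.n 0 (.n 0 (.l 4) (.l 4)) (.n 0 (.l 4) (.l 4)))) (.n 0 (.n 0 (.l 4) (.n 0 (.l 4) (.l 4))) (.n 0 (.n 0 (.l 4) (.l 4)) (.n 0 (.l 4) (.l 4))))))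
    [(232532213760, 7046430720), (47244640256, 47244640256), (137438953472, 137438953472), (801011400704, 2147483648)] rfl (by decide +kernel)
end
mutual
theorem c1_m40_t9 : CovD 0 progs [(232532213760, 7046430720), (47244640256, 47244640256), (137438953472, 137438953472), (805306368000, 2147483648)] :=
  Pool.Agent.helper14.QF.covD_F chks_eq (.n 0 (.n 0 (.n 0 (.l 4) (.l 4)) (.n 0 (.n 0 (.l 4) (.l 4)) (.n 1 (.l 4) (.l 4)))) (.n 0 (.n 0 (.n 2 (.l 4) (.l 4)) (.n 2 (.l 4) (.l 4))) (.n 2 (.l 4) (.l 4))))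
    [(232532213760, 7046430720), (47244640256, 47244640256), (137438953472, 137438953472), (805306368000, 2147483648)] rfl (by decide +kernel)
theorem c1_m40_t12 : CovD 0 progs [(232532213760, 7046430720), (47244640256, 47244640256), (137438953472, 137438953472), (809601335296, 2147483648)] :=
  Pool.Agent.helper14.QF.covD_F chks_eq (.n 3 (.n 0 (.n 0 (.n 0 (.l 4) (.l 4)) (.n 0 (.l 4) (.n 0 (.l 4) (.l 4)))) (.n 0 (.n 0 (.n 1 (.l 4) (.l 4)) (.n 1 (.l 4) (.l 4))) (.n 2 (.l 4) (.l 4)))) (.n 0 (.n 0 (.n 0 (.l 4) (.l 4)) (.n 0 (.n 0 (.l 4) (.l 4)) (.n 1 (.l 4) (.l 4)))) (.n 0 (.n 0 (.n 1 (.l 4) (.l 4)) (.n 1 (.l 4) (.l 4))) (.n 2 (.l 4) (.l 4)))))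
    [(232532213760, 7046430720), (47244640256, 47244640256), (137438953472, 137438953472), (809601335296, 2147483648)] rfl (by decide +kernel)
end
mutual
theorem c1_m40_t13 : CovD 0 progs [(232532213760, 7046430720), (47244640256, 47244640256), (137438953472, 137438953472), (813896302592, 2147483648)] :=
  Pool.Agent.helper14.QF.covD_F chks_eq (.n 0 (.n 0 (.n 0 (.l 4) (.n 0 (.l 4) (.l 4))) (.n 0 (.n 2 (.l 4) (.l 4)) (.n 2 (.l 4) (.l 4)))) (.n 0 (.n 0 (.n 2 (.l 4) (.l 4)) (.n 1 (.l 4) (.l 4))) (.n 0 (.n 1 (.l 4) (.l 4)) (.n 1 (.l 4) (.l 4)))))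
    [(232532213760, 7046430720), (47244640256, 47244640256), (137438953472, 137438953472), (813896302592, 2147483648)] rfl (by decide +kernel)
theorem c1_m40_t15 : CovD 0 progs [(232532213760, 7046430720), (47244640256, 47244640256), (137438953472, 137438953472), (818191269888, 2147483648)] :=
  Pool.Agent.helper14.QF.covD_F chks_eq (.n 0 (.n 0 (.n 0 (.n 0 (.l 4) (.l 4)) (.n 2 (.l 4) (.l 4))) (.n 0 (.n 2 (.l 4) (.n 0 (.l 4) (.l 4))) (.n 2 (.l 4) (.l 4)))) (.n 0 (.n 2 (.l 4) (.l 4)) (.n 0 (.n 1 (.l 4) (.l 4)) (.n 1 (.l 4) (.l 4)))))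
    [(232532213760, 7046430720), (47244640256, 47244640256), (137438953472, 137438953472), (818191269888, 2147483648)] rfl (by decide +kernel)
end
mutual
theorem c1_m40_t16 : CovD 0 progs [(232532213760, 7046430720), (47244640256, 47244640256), (137438953472, 137438953472), (821412495360, 1073741824)] :=
  Pool.Agent.helper14.QF.covD_F chks_eq (.n 0 (.n 0 (.n 0 (.n 0 (.l 4) (.l 4)) (.n 1 (.l 4) (.l 4))) (.n 0 (.n 1 (.l 4) (.l 4)) (.n 1 (.l 4) (.l 4)))) (.n 0 (.n 2 (.l 4) (.l 4)) (.n 0 (.n 0 (.l 4) (.l 4)) (.l 4))))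
    [(232532213760, 7046430720), (47244640256, 47244640256), (137438953472, 137438953472), (821412495360, 1073741824)] rfl (by decide +kernel)
theorem c1_m40_t17 : CovD 0 progs [(232532213760, 7046430720), (47244640256, 47244640256), (137438953472, 137438953472), (823559979008, 1073741824)] :=
  Pool.Agent.helper14.QF.covD_F chks_eq (.n 0 (.n 0 (.n 0 (.n 0 (.l 4) (.l 4)) (.n 1 (.l 4) (.l 4))) (.n 2 (.l 4) (.n 0 (.l 4) (.l 4)))) (.n 0 (.n 0 (.n 1 (.l 4) (.l 4)) (.n 1 (.l 4) (.l 4))) (.n 2 (.l 4) (.l 4))))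
    [(232532213760, 7046430720), (47244640256, 47244640256), (137438953472, 137438953472), (823559979008, 1073741824)] rfl (by decide +kernel)
end
mutual
theorem c1_m40_t23 : CovD 0 progs [(240459448320, 880803840), (47244640256, 47244640256), (137438953472, 137438953472), (773094113280, 17179869184)] :=
  Pool.Agent.helper14.QF.covD_F chks_eq (.n 0 (.n 3 (.n 3 (.l 4) (.l 4)) (.n 2 (.n 3 (.l 4) (.n 0 (.l 4) (.l 4))) (.n 3 (.l 4) (.n 0 (.l 4) (.l 4))))) (.n 3 (.n 3 (.l 4) (.n 0 (.l 4) (.l 4))) (.n 2 (.n 3 (.l 4) (.n 0 (.l 4) (.l 4))) (.n 3 (.l 4) (.n 0 (.l 4) (.l 4))))))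
    [(240459448320, 880803840), (47244640256, 47244640256), (137438953472, 137438953472), (773094113280, 17179869184)] rfl (by decide +kernel)
theorem c1_m40_t24 : CovD 0 progs [(242221056000, 880803840), (47244640256, 47244640256), (137438953472, 137438953472), (773094113280, 17179869184)] :=
  Pool.Agent.helper14.QF.covD_F chks_eq (.n 0 (.n 3 (.n 3 (.l 4) (.n 1 (.l 4) (.l 4))) (.n 2 (.n 3 (.l 4) (.l 4)) (.n 3 (.l 4) (.n 0 (.l 4) (.l 4))))) (.n 3 (.n 3 (.l 4) (.n 1 (.l 4) (.l 4))) (.n 2 (.n 3 (.n 0 (.l 4) (.l 4)) (.l 4)) (.n 3 (.n 0 (.l 4) (.l 4)) (.l 4)))))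
    [(242221056000, 880803840), (47244640256, 47244640256), (137438953472, 137438953472), (773094113280, 17179869184)] rfl (by decide +kernel)
end
mutual
theorem c1_m40_t26 : CovD 0 progs [(243982663680, 880803840), (47244640256, 47244640256), (137438953472, 137438953472), (773094113280, 17179869184)] :=
  Pool.Agent.helper14.QF.covD_F chks_eq (.n 3 (.n 2 (.n 3 (.l 4) (.n 0 (.l 4) (.l 4))) (.n 3 (.l 4) (.n 0 (.l 4) (.l 4)))) (.n 2 (.n 3 (.n 3 (.l 4) (.l 4)) (.l 4)) (.n 3 (.n 3 (.l 4) (.l 4)) (.l 4))))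
    [(243982663680, 880803840), (47244640256, 47244640256), (137438953472, 137438953472), (773094113280, 17179869184)] rfl (by decide +kernel)
theorem c1_m40_t27 : CovD 0 progs [(245744271360, 880803840), (47244640256, 47244640256), (137438953472, 137438953472), (773094113280, 17179869184)] :=
  Pool.Agent.helper14.QF.covD_F chks_eq (.n 0 (.n 3 (.n 2 (.n 3 (.l 4) (.l 4)) (.n 3 (.l 4) (.l 4))) (.n 2 (.n 3 (.l 4) (.l 4)) (.n 3 (.l 4) (.l 4)))) (.n 3 (.n 2 (.n 3 (.l 4) (.l 4)) (.n 3 (.l 4) (.n 0 (.l 4) (.l 4)))) (.n 1 (.n 1 (.l 4) (.l 4)) (.n 2 (.l 4) (.l 4)))))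
    [(245744271360, 880803840), (47244640256, 47244640256), (137438953472, 137438953472), (773094113280, 17179869184)] rfl (by decide +kernel)
end
mutual
theorem c1_m40_t30 : CovD 0 progs [(250148290560, 3523215360), (47244640256, 47244640256), (137438953472, 137438953472), (764504178688, 8589934592)] :=
  Pool.Agent.helper14.QF.covD_F chks_eq (.n 3 (.n 3 (.n 0 (.n 0 (.n 1 (.l 4) (.l 4)) (.n 2 (.l 4) (.l 4))) (.n 0 (.n 2 (.l 4) (.l 4)) (.n 1 (.l 4) (.l 4)))) (.n 0 (.n 0 (.n 2 (.l 4) (.l 4)) (.n 2 (.l 4) (.l 4))) (.n 2 (.l 4) (.l 4)))) (.n 0 (.n 0 (.n 0 (.n 2 (.l 4) (.l 4)) (.n 2 (.l 4) (.l 4))) (.n 2 (.l 4) (.l 4))) (.n 0 (.n 2 (.l 4) (.l 4)) (.n 2 (.l 4) (.l 4)))))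
    [(250148290560, 3523215360), (47244640256, 47244640256), (137438953472, 137438953472), (764504178688, 8589934592)] rfl (by decide +kernel)
theorem c1_m40_t31 : CovD 0 progs [(250148290560, 3523215360), (47244640256, 47244640256), (137438953472, 137438953472), (781684047872, 8589934592)] :=
  Pool.Agent.helper14.QF.covD_F chks_eq (.n 3 (.n 0 (.n 0 (.n 1 (.l 4) (.l 4)) (.n 2 (.l 4) (.l 4))) (.n 0 (.n 0 (.n 2 (.l 4) (.l 4)) (.n 2 (.l 4) (.l 4))) (.n 0 (.n 1 (.l 4) (.l 4)) (.n 1 (.l 4) (.l 4))))) (.n 0 (.n 0 (.n 0 (.n 2 (.l 4) (.l 4)) (.n 2 (.l 4) (.l 4))) (.n 0 (.n 2 (.l 4) (.l 4)) (.n 1 (.l 4) (.l 4)))) (.n 0 (.n 2 (.l 4) (.l 4)) (.n 1 (.l 4) (.l 4)))))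
    [(250148290560, 3523215360), (47244640256, 47244640256), (137438953472, 137438953472), (781684047872, 8589934592)] rfl (by decide +kernel)
end
mutual
theorem c1_m40_t34 : CovD 0 progs [(240459448320, 880803840), (47244640256, 47244640256), (137438953472, 137438953472), (807453851648, 17179869184)] :=
  Pool.Agent.helper14.QF.covD_F chks_eq (.n 3 (.n 2 (.n 3 (.n 0 (.l 4) (.l 4)) (.l 4)) (.n 3 (.n 0 (.l 4) (.l 4)) (.l 4))) (.n 3 (.n 0 (.n 2 (.l 4) (.l 4)) (.n 2 (.l 4) (.l 4))) (.n 2 (.l 4) (.n 0 (.l 4) (.l 4)))))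
    [(240459448320, 880803840), (47244640256, 47244640256), (137438953472, 137438953472), (807453851648, 17179869184)] rfl (by decide +kernel)
theorem c1_m40_t35 : CovD 0 progs [(242221056000, 880803840), (47244640256, 47244640256), (137438953472, 137438953472), (807453851648, 17179869184)] :=
  Pool.Agent.helper14.QF.covD_F chks_eq (.n 3 (.n 1 (.n 3 (.l 4) (.n 3 (.l 4) (.l 4))) (.n 3 (.l 4) (.n 3 (.l 4) (.l 4)))) (.n 0 (.n 3 (.n 2 (.l 4) (.l 4)) (.l 4)) (.n 3 (.n 1 (.l 4) (.l 4)) (.l 4))))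
    [(242221056000, 880803840), (47244640256, 47244640256), (137438953472, 137438953472), (807453851648, 17179869184)] rfl (by decide +kernel)
end
mutual
theorem c1_m40_t37 : CovD 0 progs [(244863467520, 1761607680), (47244640256, 47244640256), (137438953472, 137438953472), (807453851648, 17179869184)] :=
  Pool.Agent.helper14.QF.covD_F chks_eq (.n 0 (.n 3 (.n 0 (.n 2 (.n 3 (.l 4) (.l 4)) (.n 3 (.l 4) (.l 4))) (.n 2 (.n 3 (.l 4) (.l 4)) (.n 3 (.l 4) (.l 4)))) (.n 3 (.n 2 (.l 4) (.l 4)) (.l 4))) (.n 3 (.n 2 (.n 3 (.n 0 (.l 4) (.l 4)) (.l 4)) (.n 0 (.n 3 (.l 4) (.l 4)) (.n 3 (.l 4) (.l 4)))) (.n 3 (.n 0 (.l 4) (.l 4)) (.l 4))))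
    [(244863467520, 1761607680), (47244640256, 47244640256), (137438953472, 137438953472), (807453851648, 17179869184)] rfl (by decide +kernel)
theorem c1_m40_t39 : CovD 0 progs [(250148290560, 3523215360), (47244640256, 47244640256), (137438953472, 137438953472), (807453851648, 17179869184)] :=
  Pool.Agent.helper14.QF.covD_F chks_eq (.n 0 (.n 0 (.n 3 (.n 1 (.n 3 (.n 0 (.l 4) (.l 4)) (.l 4)) (.n 3 (.n 2 (.l 4) (.l 4)) (.l 4))) (.n 3 (.l 4) (.l 4))) (.n 3 (.n 3 (.n 2 (.l 4) (.l 4)) (.l 4)) (.n 3 (.l 4) (.l 4)))) (.n 3 (.n 0 (.n 3 (.n 0 (.l 4) (.l 4)) (.l 4)) (.n 3 (.l 4) (.l 4))) (.n 3 (.l 4) (.l 4))))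
    [(250148290560, 3523215360), (47244640256, 47244640256), (137438953472, 137438953472), (807453851648, 17179869184)] rfl (by decide +kernel)
end
theorem c1_m40_t3 : CovD 0 progs [(232532213760, 7046430720), (47244640256, 47244640256), (137438953472, 137438953472), (781684047872, 8589934592)] :=
  covD_split 3 (by decide +kernel) c1_m40_t1 c1_m40_t2
theorem c1_m40_t4 : CovD 0 progs [(232532213760, 7046430720), (47244640256, 47244640256), (137438953472, 137438953472), (773094113280, 17179869184)] :=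
  covD_split 3 (by decide +kernel) c1_m40_t0 c1_m40_t3
theorem c1_m40_t7 : CovD 0 progs [(232532213760, 7046430720), (47244640256, 47244640256), (137438953472, 137438953472), (794568949760, 4294967296)] :=
  covD_split 3 (by decide +kernel) c1_m40_t5 c1_m40_t6
theorem c1_m40_t10 : CovD 0 progs [(232532213760, 7046430720), (47244640256, 47244640256), (137438953472, 137438953472), (803158884352, 4294967296)] :=
  covD_split 3 (by decide +kernel) c1_m40_t8 c1_m40_t9
theorem c1_m40_t11 : CovD 0 progs [(232532213760, 7046430720), (47244640256, 47244640256), (137438953472, 137438953472), (798863917056, 8589934592)] :=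
  covD_split 3 (by decide +kernel) c1_m40_t7 c1_m40_t10
theorem c1_m40_t14 : CovD 0 progs [(232532213760, 7046430720), (47244640256, 47244640256), (137438953472, 137438953472), (811748818944, 4294967296)] :=
  covD_split 3 (by decide +kernel) c1_m40_t12 c1_m40_t13
theorem c1_m40_t18 : CovD 0 progs [(232532213760, 7046430720), (47244640256, 47244640256), (137438953472, 137438953472), (822486237184, 2147483648)] :=
  covD_split 3 (by decide +kernel) c1_m40_t16 c1_m40_t17
theorem c1_m40_t19 : CovD 0 progs [(232532213760, 7046430720), (47244640256, 47244640256), (137438953472, 137438953472), (820338753536, 4294967296)] :=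
  covD_split 3 (by decide +kernel) c1_m40_t15 c1_m40_t18
theorem c1_m40_t20 : CovD 0 progs [(232532213760, 7046430720), (47244640256, 47244640256), (137438953472, 137438953472), (816043786240, 8589934592)] :=
  covD_split 3 (by decide +kernel) c1_m40_t14 c1_m40_t19
theorem c1_m40_t21 : CovD 0 progs [(232532213760, 7046430720), (47244640256, 47244640256), (137438953472, 137438953472), (807453851648, 17179869184)] :=
  covD_split 3 (by decide +kernel) c1_m40_t11 c1_m40_t20
theorem c1_m40_t22 : CovD 0 progs [(232532213760, 7046430720), (47244640256, 47244640256), (137438953472, 137438953472), (790273982464, 34359738368)] :=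
  covD_split 3 (by decide +kernel) c1_m40_t4 c1_m40_t21
theorem c1_m40_t25 : CovD 0 progs [(241340252160, 1761607680), (47244640256, 47244640256), (137438953472, 137438953472), (773094113280, 17179869184)] :=
  covD_split 0 (by decide +kernel) c1_m40_t23 c1_m40_t24
theorem c1_m40_t28 : CovD 0 progs [(244863467520, 1761607680), (47244640256, 47244640256), (137438953472, 137438953472), (773094113280, 17179869184)] :=
  covD_split 0 (by decide +kernel) c1_m40_t26 c1_m40_t27
theorem c1_m40_t29 : CovD 0 progs [(243101859840, 3523215360), (47244640256, 47244640256), (137438953472, 137438953472), (773094113280, 17179869184)] :=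
  covD_split 0 (by decide +kernel) c1_m40_t25 c1_m40_t28
theorem c1_m40_t32 : CovD 0 progs [(250148290560, 3523215360), (47244640256, 47244640256), (137438953472, 137438953472), (773094113280, 17179869184)] :=
  covD_split 3 (by decide +kernel) c1_m40_t30 c1_m40_t31
theorem c1_m40_t33 : CovD 0 progs [(246625075200, 7046430720), (47244640256, 47244640256), (137438953472, 137438953472), (773094113280, 17179869184)] :=
  covD_split 0 (by decide +kernel) c1_m40_t29 c1_m40_t32
theorem c1_m40_t36 : CovD 0 progs [(241340252160, 1761607680), (47244640256, 47244640256), (137438953472, 137438953472), (807453851648, 17179869184)] :=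
  covD_split 0 (by decide +kernel) c1_m40_t34 c1_m40_t35
theorem c1_m40_t38 : CovD 0 progs [(243101859840, 3523215360), (47244640256, 47244640256), (137438953472, 137438953472), (807453851648, 17179869184)] :=
  covD_split 0 (by decide +kernel) c1_m40_t36 c1_m40_t37
theorem c1_m40_t40 : CovD 0 progs [(246625075200, 7046430720), (47244640256, 47244640256), (137438953472, 137438953472), (807453851648, 17179869184)] :=
  covD_split 0 (by decide +kernel) c1_m40_t38 c1_m40_t39
theorem c1_m40_t41 : CovD 0 progs [(246625075200, 7046430720), (47244640256, 47244640256), (137438953472, 137438953472), (790273982464, 34359738368)] :=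
  covD_split 3 (by decide +kernel) c1_m40_t33 c1_m40_t40
theorem c1_m40 : CovD 0 progs [(239578644480, 14092861440), (47244640256, 47244640256), (137438953472, 137438953472), (790273982464, 34359738368)] :=
  covD_split 0 (by decide +kernel) c1_m40_t22 c1_m40_t41

end Pool.Agent.helper71.FJ.Crt.QMa
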