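import Pool.Agent.helper71.FJ.Crt.QMaP

/-!
Generated certificates.
-/

namespace Pool.Agent.helper71.FJ.Crt.QMa

open Pool.Agent.helper31.IA (Z Op)
open Pool.Agent.helper31.IC

mutual
theorem c1_m42_t0 : CovD 0 progs [(246625075200, 7046430720), (141733920768, 47244640256), (34359738368, 34359738368), (764504178688, 8589934592)] :=
  Pool.Agent.helper14.QF.covD_F chks_eq (.n 3 (.n 3 (.n 0 (.n 0 (.l 4) (.n 0 (.l 4) (.l 4))) (.n 0 (.n 0 (.l 4) (.l 4)) (.l 4))) (.n 0 (.n 0 (.l 4) (.n 0 (.l 4) (.l 4))) (.n 0 (.n 0 (.l 4) (.l 4)) (.l 4)))) (.n 0 (.n 0 (.n 0 (.l 4) (.l 4)) (.n 0 (.n 0 (.l 4) (.l 4)) (.n 0 (.l 4) (.l 4)))) (.n 0 (.n 0 (.n 0 (.l 4) (.l 4)) (.l 4)) (.n 0 (.l 4) (.l 4)))))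
    [(246625075200, 7046430720), (141733920768, 47244640256), (34359738368, 34359738368), (764504178688, 8589934592)] rfl (by decide +kernel)
theorem c1_m42_t1 : CovD 0 progs [(246625075200, 7046430720), (141733920768, 47244640256), (103079215104, 34359738368), (764504178688, 8589934592)] :=
  Pool.Agent.helper14.QF.covD_F chks_eq (.n 0 (.n 0 (.n 0 (.n 3 (.l 4) (.l 4)) (.n 3 (.l 4) (.l 4))) (.n 0 (.n 3 (.l 4) (.n 0 (.l 4) (.l 4))) (.n 0 (.n 3 (.l 4) (.l 4)) (.n 3 (.l 4) (.l 4))))) (.n 0 (.n 3 (.n 0 (.n 0 (.l 4) (.l 4)) (.n 0 (.l 4) (.l 4))) (.n 0 (.n 0 (.l 4) (.l 4)) (.l 4))) (.n 0 (.n 3 (.l 4) (.l 4)) (.n 3 (.l 4) (.l 4)))))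
    [(246625075200, 7046430720), (141733920768, 47244640256), (103079215104, 34359738368), (764504178688, 8589934592)] rfl (by decide +kernel)
end
mutual
theorem c1_m42_t3 : CovD 0 progs [(246625075200, 7046430720), (141733920768, 47244640256), (171798691840, 34359738368), (764504178688, 8589934592)] :=
  Pool.Agent.helper14.QF.covD_F chks_eq (.n 0 (.n 0 (.n 0 (.n 3 (.l 4) (.l 4)) (.n 3 (.l 4) (.l 4))) (.n 0 (.n 3 (.l 4) (.n 0 (.l 4) (.l 4))) (.n 0 (.n 3 (.l 4) (.l 4)) (.n 3 (.l 4) (.l 4))))) (.n 0 (.n 3 (.n 0 (.n 0 (.l 4) (.l 4)) (.n 0 (.l 4) (.l 4))) (.n 0 (.n 0 (.l 4) (.l 4)) (.l 4))) (.n 0 (.n 3 (.l 4) (.l 4)) (.n 3 (.l 4) (.l 4)))))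
    [(246625075200, 7046430720), (141733920768, 47244640256), (171798691840, 34359738368), (764504178688, 8589934592)] rfl (by decide +kernel)
theorem c1_m42_t4 : CovD 0 progs [(246625075200, 7046430720), (141733920768, 47244640256), (240518168576, 34359738368), (760209211392, 4294967296)] :=
  Pool.Agent.helper14.QF.covD_F chks_eq (.n 3 (.n 0 (.n 0 (.l 4) (.n 0 (.l 4) (.l 4))) (.n 0 (.n 0 (.l 4) (.l 4)) (.l 4))) (.n 0 (.n 0 (.l 4) (.n 0 (.l 4) (.l 4))) (.n 0 (.n 0 (.l 4) (.l 4)) (.l 4))))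
    [(246625075200, 7046430720), (141733920768, 47244640256), (240518168576, 34359738368), (760209211392, 4294967296)] rfl (by decide +kernel)
end
mutual
theorem c1_m42_t5 : CovD 0 progs [(246625075200, 7046430720), (141733920768, 47244640256), (240518168576, 34359738368), (768799145984, 4294967296)] :=
  Pool.Agent.helper14.QF.covD_F chks_eq (.n 3 (.n 3 (.n 0 (.n 0 (.l 4) (.n 0 (.l 4) (.l 4))) (.n 0 (.l 4) (.l 4))) (.n 0 (.n 0 (.l 4) (.n 0 (.l 4) (.l 4))) (.n 0 (.l 4) (.l 4)))) (.n 0 (.n 0 (.n 0 (.l 4) (.l 4)) (.n 0 (.l 4) (.l 4))) (.n 0 (.l 4) (.l 4))))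
    [(246625075200, 7046430720), (141733920768, 47244640256), (240518168576, 34359738368), (768799145984, 4294967296)] rfl (by decide +kernel)
theorem c1_m42_t9 : CovD 0 progs [(246625075200, 7046430720), (141733920768, 47244640256), (137438953472, 137438953472), (775241596928, 2147483648)] :=
  Pool.Agent.helper14.QF.covD_F chks_eq (.n 0 (.n 0 (.n 0 (.n 0 (.l 4) (.l 4)) (.n 2 (.l 4) (.l 4))) (.n 0 (.n 2 (.l 4) (.l 4)) (.n 2 (.l 4) (.l 4)))) (.n 0 (.n 2 (.l 4) (.l 4)) (.n 0 (.n 1 (.l 4) (.l 4)) (.n 1 (.l 4) (.l 4)))))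
    [(246625075200, 7046430720), (141733920768, 47244640256), (137438953472, 137438953472), (775241596928, 2147483648)] rfl (by decide +kernel)
end
mutual
theorem c1_m42_t10 : CovD 0 progs [(246625075200, 7046430720), (141733920768, 47244640256), (137438953472, 137438953472), (779536564224, 2147483648)] :=
  Pool.Agent.helper14.QF.covD_F chks_eq (.n 0 (.n 0 (.n 0 (.n 2 (.l 4) (.l 4)) (.n 2 (.l 4) (.l 4))) (.n 0 (.n 2 (.l 4) (.l 4)) (.n 2 (.l 4) (.l 4)))) (.n 0 (.n 0 (.n 1 (.l 4) (.l 4)) (.n 1 (.l 4) (.l 4))) (.n 0 (.n 1 (.l 4) (.l 4)) (.n 1 (.l 4) (.l 4)))))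
    [(246625075200, 7046430720), (141733920768, 47244640256), (137438953472, 137438953472), (779536564224, 2147483648)] rfl (by decide +kernel)
theorem c1_m42_t12 : CovD 0 progs [(246625075200, 7046430720), (141733920768, 47244640256), (137438953472, 137438953472), (783831531520, 2147483648)] :=
  Pool.Agent.helper14.QF.covD_F chks_eq (.n 0 (.n 0 (.n 0 (.n 2 (.l 4) (.l 4)) (.n 2 (.l 4) (.l 4))) (.n 2 (.l 4) (.l 4))) (.n 0 (.n 0 (.n 1 (.l 4) (.l 4)) (.n 1 (.l 4) (.l 4))) (.n 0 (.n 1 (.l 4) (.l 4)) (.n 0 (.l 4) (.l 4)))))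
    [(246625075200, 7046430720), (141733920768, 47244640256), (137438953472, 137438953472), (783831531520, 2147483648)] rfl (by decide +kernel)
end
mutual
theorem c1_m42_t13 : CovD 0 progs [(246625075200, 7046430720), (141733920768, 47244640256), (137438953472, 137438953472), (788126498816, 2147483648)] :=
  Pool.Agent.helper14.QF.covD_F chks_eq (.n 0 (.n 0 (.n 0 (.n 2 (.l 4) (.l 4)) (.n 2 (.l 4) (.l 4))) (.n 2 (.l 4) (.l 4))) (.n 0 (.n 0 (.n 1 (.l 4) (.l 4)) (.n 1 (.l 4) (.l 4))) (.n 2 (.l 4) (.l 4))))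
    [(246625075200, 7046430720), (141733920768, 47244640256), (137438953472, 137438953472), (788126498816, 2147483648)] rfl (by decide +kernel)
theorem c1_m42_t17 : CovD 0 progs [(240459448320, 880803840), (141733920768, 47244640256), (137438953472, 137438953472), (807453851648, 17179869184)] :=
  Pool.Agent.helper14.QF.covD_F chks_eq (.n 3 (.n 2 (.n 3 (.n 0 (.l 4) (.l 4)) (.l 4)) (.n 0 (.n 3 (.l 4) (.l 4)) (.n 3 (.l 4) (.l 4)))) (.n 3 (.n 0 (.n 2 (.l 4) (.l 4)) (.n 2 (.l 4) (.l 4))) (.n 3 (.n 0 (.l 4) (.l 4)) (.l 4))))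
    [(240459448320, 880803840), (141733920768, 47244640256), (137438953472, 137438953472), (807453851648, 17179869184)] rfl (by decide +kernel)
end
mutual
theorem c1_m42_t18 : CovD 0 progs [(242221056000, 880803840), (141733920768, 47244640256), (137438953472, 137438953472), (807453851648, 17179869184)] :=
  Pool.Agent.helper14.QF.covD_F chks_eq (.n 3 (.n 2 (.n 3 (.l 4) (.n 0 (.l 4) (.l 4))) (.n 3 (.l 4) (.n 0 (.l 4) (.l 4)))) (.n 1 (.n 3 (.n 3 (.l 4) (.l 4)) (.l 4)) (.n 3 (.n 3 (.l 4) (.l 4)) (.l 4))))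
    [(242221056000, 880803840), (141733920768, 47244640256), (137438953472, 137438953472), (807453851648, 17179869184)] rfl (by decide +kernel)
theorem c1_m42_t20 : CovD 0 progs [(244863467520, 1761607680), (141733920768, 47244640256), (137438953472, 137438953472), (807453851648, 17179869184)] :=
  Pool.Agent.helper14.QF.covD_F chks_eq (.n 0 (.n 3 (.n 0 (.n 2 (.n 3 (.l 4) (.l 4)) (.n 3 (.l 4) (.l 4))) (.n 2 (.n 3 (.l 4) (.l 4)) (.n 3 (.l 4) (.l 4)))) (.n 3 (.n 2 (.l 4) (.l 4)) (.l 4))) (.n 3 (.n 0 (.n 2 (.n 3 (.l 4) (.l 4)) (.n 3 (.l 4) (.l 4))) (.n 2 (.n 3 (.l 4) (.l 4)) (.n 3 (.l 4) (.l 4)))) (.n 3 (.n 0 (.l 4) (.l 4)) (.l 4))))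
    [(244863467520, 1761607680), (141733920768, 47244640256), (137438953472, 137438953472), (807453851648, 17179869184)] rfl (by decide +kernel)
theorem c1_m42_t22 : CovD 0 progs [(250148290560, 3523215360), (141733920768, 47244640256), (137438953472, 137438953472), (807453851648, 17179869184)] :=
  Pool.Agent.helper14.QF.covD_F chks_eq (.n 0 (.n 0 (.n 3 (.n 2 (.n 3 (.n 0 (.l 4) (.l 4)) (.l 4)) (.n 3 (.n 0 (.l 4) (.l 4)) (.l 4))) (.n 3 (.l 4) (.l 4))) (.n 3 (.n 2 (.n 3 (.l 4) (.l 4)) (.n 3 (.l 4) (.l 4))) (.n 3 (.l 4) (.l 4)))) (.n 3 (.n 0 (.n 3 (.n 1 (.l 4) (.l 4)) (.l 4)) (.n 3 (.l 4) (.l 4))) (.n 3 (.l 4) (.l 4))))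
    [(250148290560, 3523215360), (141733920768, 47244640256), (137438953472, 137438953472), (807453851648, 17179869184)] rfl (by decide +kernel)
end
theorem c1_m42_t2 : CovD 0 progs [(246625075200, 7046430720), (141733920768, 47244640256), (68719476736, 68719476736), (764504178688, 8589934592)] :=
  covD_split 2 (by decide +kernel) c1_m42_t0 c1_m42_t1
theorem c1_m42_t6 : CovD 0 progs [(246625075200, 7046430720), (141733920768, 47244640256), (240518168576, 34359738368), (764504178688, 8589934592)] :=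
  covD_split 3 (by decide +kernel) c1_m42_t4 c1_m42_t5
theorem c1_m42_t7 : CovD 0 progs [(246625075200, 7046430720), (141733920768, 47244640256), (206158430208, 68719476736), (764504178688, 8589934592)] :=
  covD_split 2 (by decide +kernel) c1_m42_t3 c1_m42_t6
theorem c1_m42_t8 : CovD 0 progs [(246625075200, 7046430720), (141733920768, 47244640256), (137438953472, 137438953472), (764504178688, 8589934592)] :=
  covD_split 2 (by decide +kernel) c1_m42_t2 c1_m42_t7
theorem c1_m42_t11 : CovD 0 progs [(246625075200, 7046430720), (141733920768, 47244640256), (137438953472, 137438953472), (777389080576, 4294967296)] :=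
  covD_split 3 (by decide +kernel) c1_m42_t9 c1_m42_t10
theorem c1_m42_t14 : CovD 0 progs [(246625075200, 7046430720), (141733920768, 47244640256), (137438953472, 137438953472), (785979015168, 4294967296)] :=
  covD_split 3 (by decide +kernel) c1_m42_t12 c1_m42_t13
theorem c1_m42_t15 : CovD 0 progs [(246625075200, 7046430720), (141733920768, 47244640256), (137438953472, 137438953472), (781684047872, 8589934592)] :=
  covD_split 3 (by decide +kernel) c1_m42_t11 c1_m42_t14
theorem c1_m42_t16 : CovD 0 progs [(246625075200, 7046430720), (141733920768, 47244640256), (137438953472, 137438953472), (773094113280, 17179869184)] :=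
  covD_split 3 (by decide +kernel) c1_m42_t8 c1_m42_t15
theorem c1_m42_t19 : CovD 0 progs [(241340252160, 1761607680), (141733920768, 47244640256), (137438953472, 137438953472), (807453851648, 17179869184)] :=
  covD_split 0 (by decide +kernel) c1_m42_t17 c1_m42_t18
theorem c1_m42_t21 : CovD 0 progs [(243101859840, 3523215360), (141733920768, 47244640256), (137438953472, 137438953472), (807453851648, 17179869184)] :=
  covD_split 0 (by decide +kernel) c1_m42_t19 c1_m42_t20
theorem c1_m42_t23 : CovD 0 progs [(246625075200, 7046430720), (141733920768, 47244640256), (137438953472, 137438953472), (807453851648, 17179869184)] :=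
  covD_split 0 (by decide +kernel) c1_m42_t21 c1_m42_t22
theorem c1_m42 : CovD 0 progs [(246625075200, 7046430720), (141733920768, 47244640256), (137438953472, 137438953472), (790273982464, 34359738368)] :=
  covD_split 3 (by decide +kernel) c1_m42_t16 c1_m42_t23

end Pool.Agent.helper71.FJ.Crt.QMa
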