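import Pool.Agent.helper71.FJ.Crt.QMaP

/-!
Generated certificates.
-/

namespace Pool.Agent.helper71.FJ.Crt.QMa

open Pool.Agent.helper31.IA (Z Op)
open Pool.Agent.helper31.IC

mutual
theorem c1_m43_t0 : CovD 0 progs [(232532213760, 7046430720), (23622320128, 23622320128), (343597383680, 68719476736), (773094113280, 17179869184)] :=
  Pool.Agent.helper14.QF.covD_F chks_eq (.n 2 (.n 0 (.l 6) (.n 3 (.n 0 (.n 0 (.l 4) (.l 4)) (.n 3 (.l 4) (.n 0 (.l 4) (.l 4)))) (.n 2 (.n 0 (.n 0 (.l 6) (.n 3 (.l 4) (.l 4))) (.n 0 (.n 3 (.l 4) (.n 0 (.l 4) (.l 4))) (.n 3 (.l 4) (.n 0 (.l 4) (.l 4))))) (.l 6)))) (.l 6))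
    [(232532213760, 7046430720), (23622320128, 23622320128), (343597383680, 68719476736), (773094113280, 17179869184)] rfl (by decide +kernel)
theorem c1_m43_t1 : CovD 0 progs [(232532213760, 7046430720), (23622320128, 23622320128), (343597383680, 68719476736), (807453851648, 17179869184)] :=
  Pool.Agent.helper14.QF.covD_F chks_eq (.n 0 (.l 6) (.n 2 (.n 0 (.l 6) (.n 0 (.n 0 (.n 2 (.l 6) (.l 6)) (.n 3 (.n 3 (.l 4) (.l 4)) (.l 6))) (.n 3 (.n 3 (.n 0 (.l 4) (.l 4)) (.l 4)) (.n 1 (.l 6) (.n 3 (.l 4) (.l 4)))))) (.l 6)))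
    [(232532213760, 7046430720), (23622320128, 23622320128), (343597383680, 68719476736), (807453851648, 17179869184)] rfl (by decide +kernel)
end
mutual
theorem c1_m43_t3 : CovD 0 progs [(241340252160, 1761607680), (23622320128, 23622320128), (343597383680, 68719476736), (773094113280, 17179869184)] :=
  Pool.Agent.helper14.QF.covD_F chks_eq (.n 3 (.n 0 (.n 3 (.l 4) (.l 4)) (.n 3 (.l 4) (.n 0 (.l 4) (.l 4)))) (.n 2 (.n 0 (.n 0 (.n 3 (.l 4) (.l 4)) (.n 3 (.l 4) (.l 4))) (.n 0 (.n 3 (.l 4) (.l 4)) (.n 3 (.l 4) (.l 4)))) (.l 6)))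
    [(241340252160, 1761607680), (23622320128, 23622320128), (343597383680, 68719476736), (773094113280, 17179869184)] rfl (by decide +kernel)
theorem c1_m43_t4 : CovD 0 progs [(244863467520, 1761607680), (23622320128, 23622320128), (343597383680, 68719476736), (773094113280, 17179869184)] :=
  Pool.Agent.helper14.QF.covD_F chks_eq (.n 3 (.n 3 (.n 0 (.l 4) (.n 0 (.l 4) (.l 4))) (.n 0 (.n 0 (.l 4) (.l 4)) (.n 0 (.l 4) (.l 4)))) (.n 3 (.n 0 (.n 0 (.l 4) (.l 4)) (.l 4)) (.l 4)))
    [(244863467520, 1761607680), (23622320128, 23622320128), (343597383680, 68719476736), (773094113280, 17179869184)] rfl (by decide +kernel)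
end
mutual
theorem c1_m43_t6 : CovD 0 progs [(243101859840, 3523215360), (23622320128, 23622320128), (343597383680, 68719476736), (807453851648, 17179869184)] :=
  Pool.Agent.helper14.QF.covD_F chks_eq (.n 0 (.n 2 (.n 0 (.n 3 (.n 3 (.l 4) (.l 4)) (.n 2 (.n 3 (.l 4) (.l 4)) (.l 6))) (.n 3 (.n 3 (.l 4) (.l 4)) (.n 3 (.l 4) (.l 4)))) (.l 6)) (.n 0 (.n 2 (.n 3 (.n 3 (.l 4) (.l 4)) (.n 3 (.l 4) (.l 4))) (.l 6)) (.n 3 (.n 3 (.n 0 (.l 4) (.l 4)) (.l 4)) (.n 3 (.l 4) (.l 4)))))
    [(243101859840, 3523215360), (23622320128, 23622320128), (343597383680, 68719476736), (807453851648, 17179869184)] rfl (by decide +kernel)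
theorem c1_m43_t8 : CovD 0 progs [(247505879040, 880803840), (23622320128, 23622320128), (343597383680, 68719476736), (790273982464, 34359738368)] :=
  Pool.Agent.helper14.QF.covD_F chks_eq (.n 3 (.n 3 (.n 0 (.n 3 (.l 4) (.l 4)) (.n 3 (.l 4) (.l 4))) (.n 3 (.l 4) (.l 4))) (.n 3 (.n 3 (.l 4) (.l 4)) (.n 3 (.l 4) (.l 4))))
    [(247505879040, 880803840), (23622320128, 23622320128), (343597383680, 68719476736), (790273982464, 34359738368)] rfl (by decide +kernel)
end
mutual
theorem c1_m43_t9 : CovD 0 progs [(249267486720, 880803840), (23622320128, 23622320128), (309237645312, 34359738368), (790273982464, 34359738368)] :=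
  Pool.Agent.helper14.QF.covD_F chks_eq (.n 1 (.n 3 (.n 3 (.n 3 (.n 0 (.l 4) (.l 4)) (.l 4)) (.n 3 (.l 4) (.l 4))) (.n 3 (.n 3 (.l 4) (.l 4)) (.n 0 (.l 4) (.l 4)))) (.n 3 (.n 3 (.n 3 (.l 4) (.l 4)) (.n 3 (.l 4) (.l 4))) (.n 3 (.n 3 (.l 4) (.l 4)) (.n 0 (.l 4) (.l 4)))))
    [(249267486720, 880803840), (23622320128, 23622320128), (309237645312, 34359738368), (790273982464, 34359738368)] rfl (by decide +kernel)
theorem c1_m43_t10 : CovD 0 progs [(249267486720, 880803840), (23622320128, 23622320128), (377957122048, 34359738368), (790273982464, 34359738368)] :=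
  Pool.Agent.helper14.QF.covD_F chks_eq (.n 3 (.n 3 (.n 3 (.n 0 (.l 4) (.l 4)) (.l 4)) (.n 3 (.l 4) (.l 4))) (.n 3 (.n 3 (.l 4) (.l 4)) (.n 0 (.l 4) (.l 4))))
    [(249267486720, 880803840), (23622320128, 23622320128), (377957122048, 34359738368), (790273982464, 34359738368)] rfl (by decide +kernel)
end
mutual
theorem c1_m43_t13 : CovD 0 progs [(251909898240, 1761607680), (23622320128, 23622320128), (343597383680, 68719476736), (790273982464, 34359738368)] :=
  Pool.Agent.helper14.QF.covD_F chks_eq (.n 0 (.n 3 (.n 3 (.n 3 (.l 4) (.l 4)) (.n 3 (.l 4) (.l 4))) (.n 3 (.n 3 (.l 4) (.l 4)) (.l 4))) (.n 3 (.n 3 (.n 3 (.l 4) (.l 4)) (.n 3 (.l 4) (.l 4))) (.n 3 (.n 3 (.l 4) (.l 4)) (.l 4))))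
    [(251909898240, 1761607680), (23622320128, 23622320128), (343597383680, 68719476736), (790273982464, 34359738368)] rfl (by decide +kernel)
theorem c1_m43_t17 : CovD 0 progs [(239578644480, 14092861440), (23622320128, 23622320128), (481036337152, 68719476736), (790273982464, 34359738368)] :=
  Pool.Agent.helper14.QF.covD_F chks_eq (.n 1 (.l 6) (.n 2 (.n 2 (.n 2 (.n 3 (.l 6) (.l 6)) (.l 6)) (.l 6)) (.l 6)))
    [(239578644480, 14092861440), (23622320128, 23622320128), (481036337152, 68719476736), (790273982464, 34359738368)] rfl (by decide +kernel)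
end
mutual
theorem c1_m43_t19 : CovD 0 progs [(229008998400, 3523215360), (70866960384, 23622320128), (412316860416, 137438953472), (790273982464, 34359738368)] :=
  Pool.Agent.helper14.QF.covD_F chks_eq (.n 2 (.n 0 (.n 2 (.n 3 (.n 3 (.l 4) (.l 6)) (.l 6)) (.l 6)) (.n 0 (.n 2 (.n 3 (.n 3 (.l 4) (.n 0 (.l 4) (.l 4))) (.l 6)) (.l 6)) (.n 2 (.n 2 (.n 3 (.n 3 (.l 4) (.n 0 (.l 4) (.l 4))) (.n 3 (.n 3 (.l 4) (.l 6)) (.l 6))) (.l 6)) (.l 6)))) (.l 6))
    [(229008998400, 3523215360), (70866960384, 23622320128), (412316860416, 137438953472), (790273982464, 34359738368)] rfl (by decide +kernel)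
theorem c1_m43_t20 : CovD 0 progs [(236055429120, 3523215360), (70866960384, 23622320128), (412316860416, 137438953472), (773094113280, 17179869184)] :=
  Pool.Agent.helper14.QF.covD_F chks_eq (.n 0 (.n 0 (.n 3 (.l 4) (.n 3 (.l 4) (.l 4))) (.n 2 (.n 2 (.n 3 (.l 4) (.n 3 (.l 4) (.l 4))) (.l 6)) (.l 6))) (.n 2 (.n 3 (.n 3 (.l 4) (.n 0 (.l 4) (.l 4))) (.n 0 (.n 3 (.l 4) (.n 0 (.l 4) (.l 4))) (.n 3 (.l 4) (.n 0 (.l 4) (.l 4))))) (.l 6)))
    [(236055429120, 3523215360), (70866960384, 23622320128), (412316860416, 137438953472), (773094113280, 17179869184)] rfl (by decide +kernel)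
end
mutual
theorem c1_m43_t21 : CovD 0 progs [(234293821440, 1761607680), (70866960384, 23622320128), (412316860416, 137438953472), (807453851648, 17179869184)] :=
  Pool.Agent.helper14.QF.covD_F chks_eq (.n 0 (.n 2 (.n 2 (.n 2 (.n 0 (.n 3 (.n 3 (.l 4) (.l 4)) (.l 6)) (.n 3 (.n 3 (.l 4) (.l 4)) (.n 3 (.l 4) (.l 4)))) (.l 6)) (.l 6)) (.l 6)) (.n 2 (.n 2 (.n 3 (.n 0 (.n 3 (.l 4) (.l 4)) (.n 3 (.l 4) (.l 4))) (.n 3 (.l 4) (.l 4))) (.l 6)) (.l 6)))
    [(234293821440, 1761607680), (70866960384, 23622320128), (412316860416, 137438953472), (807453851648, 17179869184)] rfl (by decide +kernel)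
theorem c1_m43_t22 : CovD 0 progs [(237817036800, 1761607680), (70866960384, 23622320128), (412316860416, 137438953472), (807453851648, 17179869184)] :=
  Pool.Agent.helper14.QF.covD_F chks_eq (.n 2 (.n 2 (.n 3 (.n 0 (.n 0 (.n 3 (.l 4) (.l 4)) (.n 3 (.l 4) (.l 4))) (.n 3 (.n 0 (.l 4) (.l 4)) (.l 4))) (.n 0 (.n 3 (.l 4) (.n 0 (.l 4) (.l 4))) (.n 3 (.l 4) (.l 4)))) (.l 6)) (.l 6))
    [(237817036800, 1761607680), (70866960384, 23622320128), (412316860416, 137438953472), (807453851648, 17179869184)] rfl (by decide +kernel)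
end
mutual
theorem c1_m43_t26 : CovD 0 progs [(243101859840, 3523215360), (70866960384, 23622320128), (412316860416, 137438953472), (764504178688, 8589934592)] :=
  Pool.Agent.helper14.QF.covD_F chks_eq (.n 0 (.n 0 (.n 2 (.n 3 (.l 4) (.l 4)) (.l 6)) (.n 3 (.l 4) (.n 3 (.l 4) (.l 4)))) (.n 0 (.n 2 (.n 3 (.l 4) (.n 0 (.l 4) (.l 4))) (.l 6)) (.n 3 (.n 3 (.l 4) (.l 4)) (.n 0 (.n 2 (.l 4) (.l 4)) (.n 2 (.l 4) (.l 4))))))
    [(243101859840, 3523215360), (70866960384, 23622320128), (412316860416, 137438953472), (764504178688, 8589934592)] rfl (by decide +kernel)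
theorem c1_m43_t27 : CovD 0 progs [(243101859840, 3523215360), (70866960384, 23622320128), (412316860416, 137438953472), (781684047872, 8589934592)] :=
  Pool.Agent.helper14.QF.covD_F chks_eq (.n 3 (.n 3 (.n 0 (.n 0 (.l 4) (.n 0 (.l 4) (.l 4))) (.n 0 (.n 0 (.l 4) (.l 4)) (.n 0 (.l 4) (.l 4)))) (.n 0 (.n 2 (.n 0 (.l 4) (.l 4)) (.l 6)) (.n 2 (.n 0 (.l 4) (.l 4)) (.l 6)))) (.n 2 (.n 0 (.n 0 (.n 0 (.l 4) (.l 4)) (.n 0 (.l 4) (.l 4))) (.l 4)) (.l 6)))
    [(243101859840, 3523215360), (70866960384, 23622320128), (412316860416, 137438953472), (781684047872, 8589934592)] rfl (by decide +kernel)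
end
mutual
theorem c1_m43_t29 : CovD 0 progs [(250148290560, 3523215360), (70866960384, 23622320128), (412316860416, 137438953472), (764504178688, 8589934592)] :=
  Pool.Agent.helper14.QF.covD_F chks_eq (.n 3 (.n 3 (.n 0 (.n 0 (.n 0 (.l 4) (.l 4)) (.n 0 (.l 4) (.l 4))) (.n 0 (.n 0 (.l 4) (.l 4)) (.l 4))) (.n 0 (.n 0 (.n 0 (.l 4) (.l 4)) (.n 0 (.l 4) (.l 4))) (.n 1 (.l 4) (.l 4)))) (.n 0 (.n 0 (.n 0 (.n 2 (.l 4) (.l 4)) (.n 1 (.l 4) (.l 4))) (.n 1 (.l 4) (.l 4))) (.n 0 (.n 1 (.l 4) (.l 4)) (.n 2 (.l 4) (.l 4)))))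
    [(250148290560, 3523215360), (70866960384, 23622320128), (412316860416, 137438953472), (764504178688, 8589934592)] rfl (by decide +kernel)
theorem c1_m43_t30 : CovD 0 progs [(250148290560, 3523215360), (70866960384, 23622320128), (412316860416, 137438953472), (781684047872, 8589934592)] :=
  Pool.Agent.helper14.QF.covD_F chks_eq (.n 3 (.n 0 (.n 0 (.n 1 (.l 4) (.l 4)) (.n 2 (.l 4) (.l 4))) (.n 0 (.n 2 (.l 4) (.l 4)) (.n 2 (.l 4) (.l 4)))) (.n 0 (.n 0 (.n 2 (.l 4) (.l 4)) (.n 2 (.l 4) (.n 0 (.l 4) (.l 4)))) (.n 0 (.n 2 (.l 4) (.l 4)) (.n 0 (.l 4) (.l 4)))))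
    [(250148290560, 3523215360), (70866960384, 23622320128), (412316860416, 137438953472), (781684047872, 8589934592)] rfl (by decide +kernel)
end
mutual
theorem c1_m43_t33 : CovD 0 progs [(241340252160, 1761607680), (70866960384, 23622320128), (412316860416, 137438953472), (807453851648, 17179869184)] :=
  Pool.Agent.helper14.QF.covD_F chks_eq (.n 2 (.n 0 (.n 3 (.n 3 (.l 4) (.l 4)) (.n 2 (.n 3 (.l 4) (.l 4)) (.l 6))) (.n 3 (.n 3 (.l 4) (.n 0 (.l 4) (.l 4))) (.n 3 (.n 0 (.l 4) (.l 4)) (.l 4)))) (.l 6))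
    [(241340252160, 1761607680), (70866960384, 23622320128), (412316860416, 137438953472), (807453851648, 17179869184)] rfl (by decide +kernel)
theorem c1_m43_t34 : CovD 0 progs [(244863467520, 1761607680), (70866960384, 23622320128), (412316860416, 137438953472), (807453851648, 17179869184)] :=
  Pool.Agent.helper14.QF.covD_F chks_eq (.n 0 (.n 3 (.n 2 (.n 3 (.l 4) (.n 0 (.l 4) (.l 4))) (.l 6)) (.n 2 (.n 3 (.l 4) (.l 4)) (.l 6))) (.n 3 (.n 2 (.n 3 (.n 0 (.l 4) (.l 4)) (.l 4)) (.l 6)) (.n 3 (.l 4) (.l 4))))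
    [(244863467520, 1761607680), (70866960384, 23622320128), (412316860416, 137438953472), (807453851648, 17179869184)] rfl (by decide +kernel)
theorem c1_m43_t36 : CovD 0 progs [(250148290560, 3523215360), (70866960384, 23622320128), (412316860416, 137438953472), (807453851648, 17179869184)] :=
  Pool.Agent.helper14.QF.covD_F chks_eq (.n 3 (.n 0 (.n 0 (.n 2 (.n 3 (.l 4) (.l 4)) (.n 1 (.l 6) (.l 6))) (.n 3 (.n 0 (.l 4) (.l 4)) (.l 4))) (.n 3 (.n 0 (.l 4) (.l 4)) (.l 4))) (.n 0 (.n 3 (.n 0 (.l 4) (.l 4)) (.l 4)) (.n 0 (.l 4) (.l 4))))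
    [(250148290560, 3523215360), (70866960384, 23622320128), (412316860416, 137438953472), (807453851648, 17179869184)] rfl (by decide +kernel)
end
theorem c1_m43_t2 : CovD 0 progs [(232532213760, 7046430720), (23622320128, 23622320128), (343597383680, 68719476736), (790273982464, 34359738368)] :=
  covD_split 3 (by decide +kernel) c1_m43_t0 c1_m43_t1
theorem c1_m43_t5 : CovD 0 progs [(243101859840, 3523215360), (23622320128, 23622320128), (343597383680, 68719476736), (773094113280, 17179869184)] :=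
  covD_split 0 (by decide +kernel) c1_m43_t3 c1_m43_t4
theorem c1_m43_t7 : CovD 0 progs [(243101859840, 3523215360), (23622320128, 23622320128), (343597383680, 68719476736), (790273982464, 34359738368)] :=
  covD_split 3 (by decide +kernel) c1_m43_t5 c1_m43_t6
theorem c1_m43_t11 : CovD 0 progs [(249267486720, 880803840), (23622320128, 23622320128), (343597383680, 68719476736), (790273982464, 34359738368)] :=
  covD_split 2 (by decide +kernel) c1_m43_t9 c1_m43_t10
theorem c1_m43_t12 : CovD 0 progs [(248386682880, 1761607680), (23622320128, 23622320128), (343597383680, 68719476736), (790273982464, 34359738368)] :=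
  covD_split 0 (by decide +kernel) c1_m43_t8 c1_m43_t11
theorem c1_m43_t14 : CovD 0 progs [(250148290560, 3523215360), (23622320128, 23622320128), (343597383680, 68719476736), (790273982464, 34359738368)] :=
  covD_split 0 (by decide +kernel) c1_m43_t12 c1_m43_t13
theorem c1_m43_t15 : CovD 0 progs [(246625075200, 7046430720), (23622320128, 23622320128), (343597383680, 68719476736), (790273982464, 34359738368)] :=
  covD_split 0 (by decide +kernel) c1_m43_t7 c1_m43_t14
theorem c1_m43_t16 : CovD 0 progs [(239578644480, 14092861440), (23622320128, 23622320128), (343597383680, 68719476736), (790273982464, 34359738368)] :=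
  covD_split 0 (by decide +kernel) c1_m43_t2 c1_m43_t15
theorem c1_m43_t18 : CovD 0 progs [(239578644480, 14092861440), (23622320128, 23622320128), (412316860416, 137438953472), (790273982464, 34359738368)] :=
  covD_split 2 (by decide +kernel) c1_m43_t16 c1_m43_t17
theorem c1_m43_t23 : CovD 0 progs [(236055429120, 3523215360), (70866960384, 23622320128), (412316860416, 137438953472), (807453851648, 17179869184)] :=
  covD_split 0 (by decide +kernel) c1_m43_t21 c1_m43_t22
theorem c1_m43_t24 : CovD 0 progs [(236055429120, 3523215360), (70866960384, 23622320128), (412316860416, 137438953472), (790273982464, 34359738368)] :=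
  covD_split 3 (by decide +kernel) c1_m43_t20 c1_m43_t23
theorem c1_m43_t25 : CovD 0 progs [(232532213760, 7046430720), (70866960384, 23622320128), (412316860416, 137438953472), (790273982464, 34359738368)] :=
  covD_split 0 (by decide +kernel) c1_m43_t19 c1_m43_t24
theorem c1_m43_t28 : CovD 0 progs [(243101859840, 3523215360), (70866960384, 23622320128), (412316860416, 137438953472), (773094113280, 17179869184)] :=
  covD_split 3 (by decide +kernel) c1_m43_t26 c1_m43_t27
theorem c1_m43_t31 : CovD 0 progs [(250148290560, 3523215360), (70866960384, 23622320128), (412316860416, 137438953472), (773094113280, 17179869184)] :=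
  covD_split 3 (by decide +kernel) c1_m43_t29 c1_m43_t30
theorem c1_m43_t32 : CovD 0 progs [(246625075200, 7046430720), (70866960384, 23622320128), (412316860416, 137438953472), (773094113280, 17179869184)] :=
  covD_split 0 (by decide +kernel) c1_m43_t28 c1_m43_t31
theorem c1_m43_t35 : CovD 0 progs [(243101859840, 3523215360), (70866960384, 23622320128), (412316860416, 137438953472), (807453851648, 17179869184)] :=
  covD_split 0 (by decide +kernel) c1_m43_t33 c1_m43_t34
theorem c1_m43_t37 : CovD 0 progs [(246625075200, 7046430720), (70866960384, 23622320128), (412316860416, 137438953472), (807453851648, 17179869184)] :=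
  covD_split 0 (by decide +kernel) c1_m43_t35 c1_m43_t36
theorem c1_m43_t38 : CovD 0 progs [(246625075200, 7046430720), (70866960384, 23622320128), (412316860416, 137438953472), (790273982464, 34359738368)] :=
  covD_split 3 (by decide +kernel) c1_m43_t32 c1_m43_t37
theorem c1_m43_t39 : CovD 0 progs [(239578644480, 14092861440), (70866960384, 23622320128), (412316860416, 137438953472), (790273982464, 34359738368)] :=
  covD_split 0 (by decide +kernel) c1_m43_t25 c1_m43_t38
theorem c1_m43 : CovD 0 progs [(239578644480, 14092861440), (47244640256, 47244640256), (412316860416, 137438953472), (790273982464, 34359738368)] :=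
  covD_split 1 (by decide +kernel) c1_m43_t18 c1_m43_t39

end Pool.Agent.helper71.FJ.Crt.QMa
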