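import Pool.Agent.helper71.FJ.Crt.QMaP

/-!
Generated certificates.
-/

namespace Pool.Agent.helper71.FJ.Crt.QMa

open Pool.Agent.helper31.IA (Z Op)
open Pool.Agent.helper31.IC

mutual
theorem c1_m45_t0 : CovD 0 progs [(257194721280, 3523215360), (47244640256, 47244640256), (68719476736, 68719476736), (704374636544, 17179869184)] :=
  Pool.Agent.helper14.QF.covD_F chks_eq (.n 3 (.n 0 (.n 0 (.l 4) (.l 4)) (.n 3 (.l 4) (.n 0 (.l 4) (.l 4)))) (.n 3 (.n 0 (.n 0 (.l 4) (.l 4)) (.n 0 (.l 4) (.l 4))) (.n 0 (.n 0 (.l 4) (.l 4)) (.n 0 (.l 4) (.n 0 (.l 4) (.l 4))))))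
    [(257194721280, 3523215360), (47244640256, 47244640256), (68719476736, 68719476736), (704374636544, 17179869184)] rfl (by decide +kernel)
theorem c1_m45_t1 : CovD 0 progs [(257194721280, 3523215360), (47244640256, 47244640256), (68719476736, 68719476736), (738734374912, 17179869184)] :=
  Pool.Agent.helper14.QF.covD_F chks_eq (.n 3 (.n 3 (.n 0 (.n 0 (.l 4) (.n 0 (.l 4) (.l 4))) (.n 0 (.n 0 (.l 4) (.l 4)) (.n 0 (.l 4) (.l 4)))) (.n 0 (.n 0 (.n 0 (.l 4) (.l 4)) (.n 0 (.l 4) (.l 4))) (.n 0 (.n 0 (.l 4) (.l 4)) (.l 4)))) (.n 3 (.n 0 (.n 0 (.n 0 (.l 4) (.l 4)) (.l 4)) (.n 0 (.l 4) (.l 4))) (.n 0 (.l 4) (.n 0 (.l 4) (.l 4)))))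
    [(257194721280, 3523215360), (47244640256, 47244640256), (68719476736, 68719476736), (738734374912, 17179869184)] rfl (by decide +kernel)
end
mutual
theorem c1_m45_t3 : CovD 0 progs [(261598740480, 880803840), (47244640256, 47244640256), (68719476736, 68719476736), (721554505728, 34359738368)] :=
  Pool.Agent.helper14.QF.covD_F chks_eq (.n 1 (.n 3 (.n 3 (.n 3 (.l 4) (.l 4)) (.n 3 (.l 4) (.l 4))) (.n 3 (.l 4) (.n 3 (.l 4) (.l 4)))) (.n 3 (.n 3 (.n 3 (.l 4) (.l 4)) (.n 3 (.l 4) (.l 4))) (.n 3 (.l 4) (.n 3 (.l 4) (.l 4)))))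
    [(261598740480, 880803840), (47244640256, 47244640256), (68719476736, 68719476736), (721554505728, 34359738368)] rfl (by decide +kernel)
theorem c1_m45_t4 : CovD 0 progs [(263360348160, 880803840), (11811160064, 11811160064), (68719476736, 68719476736), (721554505728, 34359738368)] :=
  Pool.Agent.helper14.QF.covD_F chks_eq (.n 2 (.n 3 (.n 3 (.n 3 (.l 4) (.l 4)) (.n 3 (.l 4) (.l 4))) (.n 3 (.n 0 (.l 4) (.l 4)) (.n 3 (.l 4) (.l 4)))) (.n 3 (.n 3 (.n 3 (.l 4) (.l 4)) (.n 3 (.l 4) (.l 4))) (.n 3 (.n 0 (.l 4) (.l 4)) (.n 3 (.l 4) (.l 4)))))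
    [(263360348160, 880803840), (11811160064, 11811160064), (68719476736, 68719476736), (721554505728, 34359738368)] rfl (by decide +kernel)
end
mutual
theorem c1_m45_t5 : CovD 0 progs [(263360348160, 880803840), (35433480192, 11811160064), (68719476736, 68719476736), (721554505728, 34359738368)] :=
  Pool.Agent.helper14.QF.covD_F chks_eq (.n 2 (.n 3 (.n 3 (.n 3 (.l 4) (.l 4)) (.n 3 (.l 4) (.l 4))) (.n 3 (.n 0 (.l 4) (.l 4)) (.n 3 (.l 4) (.l 4)))) (.n 3 (.n 3 (.n 3 (.l 4) (.l 4)) (.n 3 (.l 4) (.l 4))) (.n 3 (.n 0 (.l 4) (.l 4)) (.n 3 (.l 4) (.l 4)))))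
    [(263360348160, 880803840), (35433480192, 11811160064), (68719476736, 68719476736), (721554505728, 34359738368)] rfl (by decide +kernel)
theorem c1_m45_t7 : CovD 0 progs [(263360348160, 880803840), (70866960384, 23622320128), (68719476736, 68719476736), (721554505728, 34359738368)] :=
  Pool.Agent.helper14.QF.covD_F chks_eq (.n 3 (.n 3 (.n 3 (.l 4) (.l 4)) (.n 3 (.l 4) (.l 4))) (.n 3 (.n 3 (.l 4) (.l 4)) (.n 3 (.l 4) (.l 4))))
    [(263360348160, 880803840), (70866960384, 23622320128), (68719476736, 68719476736), (721554505728, 34359738368)] rfl (by decide +kernel)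
end
mutual
theorem c1_m45_t10 : CovD 0 progs [(265121955840, 880803840), (23622320128, 23622320128), (68719476736, 68719476736), (721554505728, 34359738368)] :=
  Pool.Agent.helper14.QF.covD_F chks_eq (.n 3 (.n 3 (.n 3 (.l 4) (.l 4)) (.n 3 (.l 4) (.l 4))) (.n 3 (.n 3 (.l 4) (.l 4)) (.n 3 (.l 4) (.l 4))))
    [(265121955840, 880803840), (23622320128, 23622320128), (68719476736, 68719476736), (721554505728, 34359738368)] rfl (by decide +kernel)
theorem c1_m45_t11 : CovD 0 progs [(265121955840, 880803840), (59055800320, 11811160064), (68719476736, 68719476736), (721554505728, 34359738368)] :=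
  Pool.Agent.helper14.QF.covD_F chks_eq (.n 2 (.n 3 (.n 3 (.n 3 (.l 4) (.l 4)) (.n 0 (.l 4) (.l 4))) (.n 3 (.n 3 (.l 4) (.l 4)) (.n 3 (.l 4) (.l 4)))) (.n 3 (.n 3 (.n 3 (.l 4) (.l 4)) (.n 0 (.l 4) (.l 4))) (.n 3 (.n 3 (.l 4) (.l 4)) (.n 3 (.l 4) (.l 4)))))
    [(265121955840, 880803840), (59055800320, 11811160064), (68719476736, 68719476736), (721554505728, 34359738368)] rfl (by decide +kernel)
end
mutual
theorem c1_m45_t12 : CovD 0 progs [(265121955840, 880803840), (82678120448, 11811160064), (68719476736, 68719476736), (721554505728, 34359738368)] :=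
  Pool.Agent.helper14.QF.covD_F chks_eq (.n 2 (.n 3 (.n 3 (.n 3 (.l 4) (.l 4)) (.n 0 (.l 4) (.l 4))) (.n 3 (.n 3 (.l 4) (.l 4)) (.n 3 (.l 4) (.l 4)))) (.n 3 (.n 3 (.n 3 (.l 4) (.l 4)) (.n 0 (.l 4) (.l 4))) (.n 3 (.n 3 (.l 4) (.l 4)) (.n 3 (.l 4) (.l 4)))))
    [(265121955840, 880803840), (82678120448, 11811160064), (68719476736, 68719476736), (721554505728, 34359738368)] rfl (by decide +kernel)
theorem c1_m45_t15 : CovD 0 progs [(266883563520, 880803840), (47244640256, 47244640256), (68719476736, 68719476736), (721554505728, 34359738368)] :=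
  Pool.Agent.helper14.QF.covD_F chks_eq (.n 3 (.n 3 (.n 3 (.n 0 (.l 4) (.l 4)) (.l 4)) (.n 0 (.l 4) (.l 4))) (.n 3 (.n 3 (.l 4) (.l 4)) (.n 3 (.l 4) (.l 4))))
    [(266883563520, 880803840), (47244640256, 47244640256), (68719476736, 68719476736), (721554505728, 34359738368)] rfl (by decide +kernel)
end
mutual
theorem c1_m45_t19 : CovD 0 progs [(257194721280, 3523215360), (47244640256, 47244640256), (206158430208, 68719476736), (704374636544, 17179869184)] :=
  Pool.Agent.helper14.QF.covD_F chks_eq (.n 3 (.n 0 (.n 0 (.l 4) (.l 4)) (.n 3 (.l 4) (.n 0 (.l 4) (.l 4)))) (.n 3 (.n 0 (.n 0 (.l 4) (.l 4)) (.n 0 (.l 4) (.l 4))) (.n 0 (.n 0 (.l 4) (.l 4)) (.n 0 (.n 0 (.l 4) (.l 4)) (.n 0 (.l 4) (.l 4))))))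
    [(257194721280, 3523215360), (47244640256, 47244640256), (206158430208, 68719476736), (704374636544, 17179869184)] rfl (by decide +kernel)
theorem c1_m45_t20 : CovD 0 progs [(257194721280, 3523215360), (47244640256, 47244640256), (206158430208, 68719476736), (738734374912, 17179869184)] :=
  Pool.Agent.helper14.QF.covD_F chks_eq (.n 3 (.n 3 (.n 0 (.n 0 (.l 4) (.n 0 (.l 4) (.l 4))) (.n 0 (.n 0 (.l 4) (.l 4)) (.n 0 (.l 4) (.l 4)))) (.n 0 (.n 0 (.n 0 (.l 4) (.l 4)) (.n 0 (.l 4) (.l 4))) (.n 0 (.n 0 (.l 4) (.l 4)) (.l 4)))) (.n 0 (.n 3 (.n 0 (.n 0 (.l 4) (.l 4)) (.l 4)) (.l 4)) (.n 0 (.n 3 (.l 4) (.l 4)) (.n 3 (.l 4) (.l 4)))))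
    [(257194721280, 3523215360), (47244640256, 47244640256), (206158430208, 68719476736), (738734374912, 17179869184)] rfl (by decide +kernel)
end
mutual
theorem c1_m45_t22 : CovD 0 progs [(261598740480, 880803840), (47244640256, 47244640256), (206158430208, 68719476736), (721554505728, 34359738368)] :=
  Pool.Agent.helper14.QF.covD_F chks_eq (.n 1 (.n 3 (.n 3 (.n 3 (.l 4) (.l 4)) (.n 3 (.l 4) (.l 4))) (.n 3 (.l 4) (.n 3 (.l 4) (.l 4)))) (.n 3 (.n 3 (.n 3 (.l 4) (.l 4)) (.n 3 (.l 4) (.l 4))) (.n 3 (.l 4) (.n 3 (.l 4) (.l 4)))))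
    [(261598740480, 880803840), (47244640256, 47244640256), (206158430208, 68719476736), (721554505728, 34359738368)] rfl (by decide +kernel)
theorem c1_m45_t23 : CovD 0 progs [(263360348160, 880803840), (11811160064, 11811160064), (206158430208, 68719476736), (721554505728, 34359738368)] :=
  Pool.Agent.helper14.QF.covD_F chks_eq (.n 2 (.n 3 (.n 3 (.n 3 (.l 4) (.l 4)) (.n 3 (.l 4) (.l 4))) (.n 3 (.n 0 (.l 4) (.l 4)) (.n 3 (.l 4) (.l 4)))) (.n 3 (.n 3 (.n 3 (.l 4) (.l 4)) (.n 3 (.l 4) (.l 4))) (.n 3 (.n 0 (.l 4) (.l 4)) (.n 3 (.l 4) (.l 4)))))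
    [(263360348160, 880803840), (11811160064, 11811160064), (206158430208, 68719476736), (721554505728, 34359738368)] rfl (by decide +kernel)
end
mutual
theorem c1_m45_t24 : CovD 0 progs [(263360348160, 880803840), (35433480192, 11811160064), (206158430208, 68719476736), (721554505728, 34359738368)] :=
  Pool.Agent.helper14.QF.covD_F chks_eq (.n 2 (.n 3 (.n 3 (.n 3 (.l 4) (.l 4)) (.n 3 (.l 4) (.l 4))) (.n 3 (.n 0 (.l 4) (.l 4)) (.n 3 (.l 4) (.l 4)))) (.n 3 (.n 3 (.n 3 (.l 4) (.l 4)) (.n 3 (.l 4) (.l 4))) (.n 3 (.n 0 (.l 4) (.l 4)) (.n 3 (.l 4) (.l 4)))))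
    [(263360348160, 880803840), (35433480192, 11811160064), (206158430208, 68719476736), (721554505728, 34359738368)] rfl (by decide +kernel)
theorem c1_m45_t26 : CovD 0 progs [(263360348160, 880803840), (59055800320, 11811160064), (206158430208, 68719476736), (721554505728, 34359738368)] :=
  Pool.Agent.helper14.QF.covD_F chks_eq (.n 2 (.n 3 (.n 3 (.n 3 (.l 4) (.l 4)) (.n 3 (.l 4) (.l 4))) (.n 3 (.n 0 (.l 4) (.l 4)) (.n 3 (.l 4) (.l 4)))) (.n 3 (.n 3 (.n 3 (.l 4) (.l 4)) (.n 3 (.l 4) (.l 4))) (.n 3 (.n 0 (.l 4) (.l 4)) (.n 3 (.l 4) (.l 4)))))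
    [(263360348160, 880803840), (59055800320, 11811160064), (206158430208, 68719476736), (721554505728, 34359738368)] rfl (by decide +kernel)
end
mutual
theorem c1_m45_t27 : CovD 0 progs [(263360348160, 880803840), (82678120448, 11811160064), (206158430208, 68719476736), (721554505728, 34359738368)] :=
  Pool.Agent.helper14.QF.covD_F chks_eq (.n 2 (.n 3 (.n 3 (.n 3 (.l 4) (.l 4)) (.n 3 (.l 4) (.l 4))) (.n 3 (.n 0 (.l 4) (.l 4)) (.n 3 (.l 4) (.l 4)))) (.n 3 (.n 3 (.n 3 (.l 4) (.l 4)) (.n 3 (.l 4) (.l 4))) (.n 3 (.n 0 (.l 4) (.l 4)) (.n 3 (.l 4) (.l 4)))))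
    [(263360348160, 880803840), (82678120448, 11811160064), (206158430208, 68719476736), (721554505728, 34359738368)] rfl (by decide +kernel)
theorem c1_m45_t31 : CovD 0 progs [(265121955840, 880803840), (23622320128, 23622320128), (206158430208, 68719476736), (721554505728, 34359738368)] :=
  Pool.Agent.helper14.QF.covD_F chks_eq (.n 3 (.n 3 (.n 3 (.l 4) (.l 4)) (.n 3 (.l 4) (.l 4))) (.n 3 (.n 3 (.l 4) (.l 4)) (.n 3 (.l 4) (.l 4))))
    [(265121955840, 880803840), (23622320128, 23622320128), (206158430208, 68719476736), (721554505728, 34359738368)] rfl (by decide +kernel)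
end
mutual
theorem c1_m45_t32 : CovD 0 progs [(265121955840, 880803840), (59055800320, 11811160064), (206158430208, 68719476736), (721554505728, 34359738368)] :=
  Pool.Agent.helper14.QF.covD_F chks_eq (.n 2 (.n 3 (.n 3 (.n 3 (.l 4) (.l 4)) (.n 0 (.l 4) (.l 4))) (.n 3 (.n 3 (.l 4) (.l 4)) (.n 3 (.l 4) (.l 4)))) (.n 3 (.n 3 (.n 3 (.l 4) (.l 4)) (.n 0 (.l 4) (.l 4))) (.n 3 (.n 3 (.l 4) (.l 4)) (.n 3 (.l 4) (.l 4)))))
    [(265121955840, 880803840), (59055800320, 11811160064), (206158430208, 68719476736), (721554505728, 34359738368)] rfl (by decide +kernel)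
theorem c1_m45_t33 : CovD 0 progs [(265121955840, 880803840), (82678120448, 11811160064), (206158430208, 68719476736), (721554505728, 34359738368)] :=
  Pool.Agent.helper14.QF.covD_F chks_eq (.n 2 (.n 3 (.n 3 (.n 3 (.l 4) (.l 4)) (.n 0 (.l 4) (.l 4))) (.n 3 (.n 3 (.l 4) (.l 4)) (.n 3 (.l 4) (.l 4)))) (.n 3 (.n 3 (.n 3 (.l 4) (.l 4)) (.n 0 (.l 4) (.l 4))) (.n 3 (.n 3 (.l 4) (.l 4)) (.n 3 (.l 4) (.l 4)))))
    [(265121955840, 880803840), (82678120448, 11811160064), (206158430208, 68719476736), (721554505728, 34359738368)] rfl (by decide +kernel)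
end
mutual
theorem c1_m45_t36 : CovD 0 progs [(266883563520, 880803840), (47244640256, 47244640256), (206158430208, 68719476736), (721554505728, 34359738368)] :=
  Pool.Agent.helper14.QF.covD_F chks_eq (.n 0 (.n 3 (.n 3 (.n 3 (.l 4) (.l 4)) (.l 4)) (.n 3 (.n 3 (.l 4) (.l 4)) (.n 0 (.l 4) (.l 4)))) (.n 3 (.n 3 (.n 3 (.l 4) (.l 4)) (.l 4)) (.n 3 (.n 3 (.l 4) (.l 4)) (.l 4))))
    [(266883563520, 880803840), (47244640256, 47244640256), (206158430208, 68719476736), (721554505728, 34359738368)] rfl (by decide +kernel)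
theorem c1_m45_t41 : CovD 0 progs [(274810798080, 7046430720), (47244640256, 47244640256), (137438953472, 137438953472), (691489734656, 4294967296)] :=
  Pool.Agent.helper14.QF.covD_F chks_eq (.n 0 (.n 0 (.n 0 (.n 2 (.l 4) (.n 0 (.l 4) (.l 4))) (.n 2 (.l 4) (.l 4))) (.n 2 (.l 4) (.l 4))) (.n 0 (.n 0 (.n 2 (.l 4) (.l 4)) (.n 1 (.l 4) (.l 4))) (.n 0 (.n 1 (.l 4) (.l 4)) (.l 4))))
    [(274810798080, 7046430720), (47244640256, 47244640256), (137438953472, 137438953472), (691489734656, 4294967296)] rfl (by decide +kernel)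
end
mutual
theorem c1_m45_t42 : CovD 0 progs [(274810798080, 7046430720), (47244640256, 47244640256), (137438953472, 137438953472), (700079669248, 4294967296)] :=
  Pool.Agent.helper14.QF.covD_F chks_eq (.n 0 (.n 0 (.n 2 (.l 4) (.l 4)) (.n 0 (.n 2 (.l 4) (.l 4)) (.n 2 (.l 4) (.l 4)))) (.n 0 (.n 0 (.n 1 (.l 4) (.l 4)) (.n 0 (.l 4) (.l 4))) (.n 0 (.l 4) (.l 4))))
    [(274810798080, 7046430720), (47244640256, 47244640256), (137438953472, 137438953472), (700079669248, 4294967296)] rfl (by decide +kernel)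
theorem c1_m45_t44 : CovD 0 progs [(274810798080, 7046430720), (47244640256, 47244640256), (137438953472, 137438953472), (712964571136, 8589934592)] :=
  Pool.Agent.helper14.QF.covD_F chks_eq (.n 3 (.n 0 (.n 0 (.n 0 (.n 1 (.l 4) (.l 4)) (.n 2 (.l 4) (.l 4))) (.n 0 (.n 2 (.l 4) (.l 4)) (.n 1 (.l 4) (.l 4)))) (.n 0 (.n 0 (.n 0 (.l 4) (.l 4)) (.l 4)) (.n 0 (.l 4) (.l 4)))) (.n 0 (.n 0 (.n 0 (.n 2 (.l 4) (.l 4)) (.n 2 (.l 4) (.l 4))) (.n 0 (.n 1 (.l 4) (.l 4)) (.n 0 (.l 4) (.l 4)))) (.n 0 (.n 0 (.l 4) (.l 4)) (.l 4))))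
    [(274810798080, 7046430720), (47244640256, 47244640256), (137438953472, 137438953472), (712964571136, 8589934592)] rfl (by decide +kernel)
theorem c1_m45_t46 : CovD 0 progs [(274810798080, 7046430720), (47244640256, 47244640256), (137438953472, 137438953472), (738734374912, 17179869184)] :=
  Pool.Agent.helper14.QF.covD_F chks_eq (.n 3 (.n 0 (.n 3 (.n 0 (.n 0 (.n 2 (.l 4) (.l 4)) (.n 1 (.l 4) (.l 4))) (.n 0 (.l 4) (.l 4))) (.n 0 (.n 0 (.n 0 (.l 4) (.l 4)) (.l 4)) (.n 0 (.l 4) (.l 4)))) (.n 0 (.n 3 (.l 4) (.l 4)) (.l 4))) (.n 3 (.n 0 (.n 0 (.n 0 (.l 4) (.l 4)) (.l 4)) (.l 4)) (.n 0 (.n 0 (.l 4) (.l 4)) (.l 4))))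
    [(274810798080, 7046430720), (47244640256, 47244640256), (137438953472, 137438953472), (738734374912, 17179869184)] rfl (by decide +kernel)
end
theorem c1_m45_t2 : CovD 0 progs [(257194721280, 3523215360), (47244640256, 47244640256), (68719476736, 68719476736), (721554505728, 34359738368)] :=
  covD_split 3 (by decide +kernel) c1_m45_t0 c1_m45_t1
theorem c1_m45_t6 : CovD 0 progs [(263360348160, 880803840), (23622320128, 23622320128), (68719476736, 68719476736), (721554505728, 34359738368)] :=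
  covD_split 1 (by decide +kernel) c1_m45_t4 c1_m45_t5
theorem c1_m45_t8 : CovD 0 progs [(263360348160, 880803840), (47244640256, 47244640256), (68719476736, 68719476736), (721554505728, 34359738368)] :=
  covD_split 1 (by decide +kernel) c1_m45_t6 c1_m45_t7
theorem c1_m45_t9 : CovD 0 progs [(262479544320, 1761607680), (47244640256, 47244640256), (68719476736, 68719476736), (721554505728, 34359738368)] :=
  covD_split 0 (by decide +kernel) c1_m45_t3 c1_m45_t8
theorem c1_m45_t13 : CovD 0 progs [(265121955840, 880803840), (70866960384, 23622320128), (68719476736, 68719476736), (721554505728, 34359738368)] :=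
  covD_split 1 (by decide +kernel) c1_m45_t11 c1_m45_t12
theorem c1_m45_t14 : CovD 0 progs [(265121955840, 880803840), (47244640256, 47244640256), (68719476736, 68719476736), (721554505728, 34359738368)] :=
  covD_split 1 (by decide +kernel) c1_m45_t10 c1_m45_t13
theorem c1_m45_t16 : CovD 0 progs [(266002759680, 1761607680), (47244640256, 47244640256), (68719476736, 68719476736), (721554505728, 34359738368)] :=
  covD_split 0 (by decide +kernel) c1_m45_t14 c1_m45_t15
theorem c1_m45_t17 : CovD 0 progs [(264241152000, 3523215360), (47244640256, 47244640256), (68719476736, 68719476736), (721554505728, 34359738368)] :=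
  covD_split 0 (by decide +kernel) c1_m45_t9 c1_m45_t16
theorem c1_m45_t18 : CovD 0 progs [(260717936640, 7046430720), (47244640256, 47244640256), (68719476736, 68719476736), (721554505728, 34359738368)] :=
  covD_split 0 (by decide +kernel) c1_m45_t2 c1_m45_t17
theorem c1_m45_t21 : CovD 0 progs [(257194721280, 3523215360), (47244640256, 47244640256), (206158430208, 68719476736), (721554505728, 34359738368)] :=
  covD_split 3 (by decide +kernel) c1_m45_t19 c1_m45_t20
theorem c1_m45_t25 : CovD 0 progs [(263360348160, 880803840), (23622320128, 23622320128), (206158430208, 68719476736), (721554505728, 34359738368)] :=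
  covD_split 1 (by decide +kernel) c1_m45_t23 c1_m45_t24
theorem c1_m45_t28 : CovD 0 progs [(263360348160, 880803840), (70866960384, 23622320128), (206158430208, 68719476736), (721554505728, 34359738368)] :=
  covD_split 1 (by decide +kernel) c1_m45_t26 c1_m45_t27
theorem c1_m45_t29 : CovD 0 progs [(263360348160, 880803840), (47244640256, 47244640256), (206158430208, 68719476736), (721554505728, 34359738368)] :=
  covD_split 1 (by decide +kernel) c1_m45_t25 c1_m45_t28
theorem c1_m45_t30 : CovD 0 progs [(262479544320, 1761607680), (47244640256, 47244640256), (206158430208, 68719476736), (721554505728, 34359738368)] :=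
  covD_split 0 (by decide +kernel) c1_m45_t22 c1_m45_t29
theorem c1_m45_t34 : CovD 0 progs [(265121955840, 880803840), (70866960384, 23622320128), (206158430208, 68719476736), (721554505728, 34359738368)] :=
  covD_split 1 (by decide +kernel) c1_m45_t32 c1_m45_t33
theorem c1_m45_t35 : CovD 0 progs [(265121955840, 880803840), (47244640256, 47244640256), (206158430208, 68719476736), (721554505728, 34359738368)] :=
  covD_split 1 (by decide +kernel) c1_m45_t31 c1_m45_t34
theorem c1_m45_t37 : CovD 0 progs [(266002759680, 1761607680), (47244640256, 47244640256), (206158430208, 68719476736), (721554505728, 34359738368)] :=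
  covD_split 0 (by decide +kernel) c1_m45_t35 c1_m45_t36
theorem c1_m45_t38 : CovD 0 progs [(264241152000, 3523215360), (47244640256, 47244640256), (206158430208, 68719476736), (721554505728, 34359738368)] :=
  covD_split 0 (by decide +kernel) c1_m45_t30 c1_m45_t37
theorem c1_m45_t39 : CovD 0 progs [(260717936640, 7046430720), (47244640256, 47244640256), (206158430208, 68719476736), (721554505728, 34359738368)] :=
  covD_split 0 (by decide +kernel) c1_m45_t21 c1_m45_t38
theorem c1_m45_t40 : CovD 0 progs [(260717936640, 7046430720), (47244640256, 47244640256), (137438953472, 137438953472), (721554505728, 34359738368)] :=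
  covD_split 2 (by decide +kernel) c1_m45_t18 c1_m45_t39
theorem c1_m45_t43 : CovD 0 progs [(274810798080, 7046430720), (47244640256, 47244640256), (137438953472, 137438953472), (695784701952, 8589934592)] :=
  covD_split 3 (by decide +kernel) c1_m45_t41 c1_m45_t42
theorem c1_m45_t45 : CovD 0 progs [(274810798080, 7046430720), (47244640256, 47244640256), (137438953472, 137438953472), (704374636544, 17179869184)] :=
  covD_split 3 (by decide +kernel) c1_m45_t43 c1_m45_t44
theorem c1_m45_t47 : CovD 0 progs [(274810798080, 7046430720), (47244640256, 47244640256), (137438953472, 137438953472), (721554505728, 34359738368)] :=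
  covD_split 3 (by decide +kernel) c1_m45_t45 c1_m45_t46
theorem c1_m45 : CovD 0 progs [(267764367360, 14092861440), (47244640256, 47244640256), (137438953472, 137438953472), (721554505728, 34359738368)] :=
  covD_split 0 (by decide +kernel) c1_m45_t40 c1_m45_t47

end Pool.Agent.helper71.FJ.Crt.QMa
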