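import Pool.Agent.helper71.FJ.Crt.QMaP

/-!
Generated certificates.
-/

namespace Pool.Agent.helper71.FJ.Crt.QMa

open Pool.Agent.helper31.IA (Z Op)
open Pool.Agent.helper31.IC

mutual
theorem c1_m46_t0 : CovD 0 progs [(257194721280, 3523215360), (141733920768, 47244640256), (68719476736, 68719476736), (704374636544, 17179869184)] :=
  Pool.Agent.helper14.QF.covD_F chks_eq (.n 3 (.n 0 (.n 0 (.l 4) (.l 4)) (.n 3 (.l 4) (.n 0 (.l 4) (.l 4)))) (.n 0 (.n 0 (.n 3 (.l 4) (.l 4)) (.n 3 (.l 4) (.l 4))) (.n 0 (.n 3 (.l 4) (.n 0 (.l 4) (.l 4))) (.n 3 (.l 4) (.n 0 (.l 4) (.l 4))))))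
    [(257194721280, 3523215360), (141733920768, 47244640256), (68719476736, 68719476736), (704374636544, 17179869184)] rfl (by decide +kernel)
theorem c1_m46_t1 : CovD 0 progs [(257194721280, 3523215360), (141733920768, 47244640256), (68719476736, 68719476736), (738734374912, 17179869184)] :=
  Pool.Agent.helper14.QF.covD_F chks_eq (.n 3 (.n 2 (.n 0 (.n 0 (.n 3 (.l 4) (.l 4)) (.n 3 (.l 4) (.l 4))) (.n 0 (.n 3 (.l 4) (.l 4)) (.n 3 (.l 4) (.l 4)))) (.n 0 (.n 0 (.n 3 (.l 4) (.l 4)) (.n 3 (.l 4) (.l 4))) (.n 0 (.n 3 (.l 4) (.l 4)) (.n 3 (.l 4) (.l 4))))) (.n 0 (.n 3 (.n 0 (.n 0 (.l 4) (.l 4)) (.l 4)) (.l 4)) (.n 0 (.n 3 (.l 4) (.l 4)) (.n 3 (.l 4) (.l 4)))))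
    [(257194721280, 3523215360), (141733920768, 47244640256), (68719476736, 68719476736), (738734374912, 17179869184)] rfl (by decide +kernel)
end
mutual
theorem c1_m46_t3 : CovD 0 progs [(262479544320, 1761607680), (141733920768, 47244640256), (68719476736, 68719476736), (721554505728, 34359738368)] :=
  Pool.Agent.helper14.QF.covD_F chks_eq (.n 0 (.n 1 (.n 3 (.n 3 (.n 3 (.l 4) (.l 4)) (.n 3 (.l 4) (.l 4))) (.n 3 (.l 4) (.n 3 (.l 4) (.l 4)))) (.n 3 (.n 3 (.n 3 (.l 4) (.l 4)) (.n 3 (.l 4) (.l 4))) (.n 3 (.l 4) (.n 3 (.l 4) (.l 4))))) (.n 3 (.n 3 (.n 3 (.l 4) (.n 0 (.l 4) (.l 4))) (.n 3 (.n 0 (.l 4) (.l 4)) (.l 4))) (.n 3 (.n 3 (.l 4) (.l 4)) (.n 3 (.l 4) (.l 4)))))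
    [(262479544320, 1761607680), (141733920768, 47244640256), (68719476736, 68719476736), (721554505728, 34359738368)] rfl (by decide +kernel)
theorem c1_m46_t4 : CovD 0 progs [(266002759680, 1761607680), (141733920768, 47244640256), (68719476736, 68719476736), (721554505728, 34359738368)] :=
  Pool.Agent.helper14.QF.covD_F chks_eq (.n 0 (.n 3 (.n 3 (.n 3 (.l 4) (.n 0 (.l 4) (.l 4))) (.n 3 (.l 4) (.l 4))) (.n 3 (.n 3 (.l 4) (.l 4)) (.n 3 (.l 4) (.l 4)))) (.n 0 (.n 3 (.n 3 (.n 3 (.l 4) (.l 4)) (.l 4)) (.n 3 (.n 3 (.l 4) (.l 4)) (.n 0 (.l 4) (.l 4)))) (.n 3 (.n 3 (.n 3 (.l 4) (.l 4)) (.l 4)) (.n 3 (.n 3 (.l 4) (.l 4)) (.l 4)))))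
    [(266002759680, 1761607680), (141733920768, 47244640256), (68719476736, 68719476736), (721554505728, 34359738368)] rfl (by decide +kernel)
end
mutual
theorem c1_m46_t7 : CovD 0 progs [(257194721280, 3523215360), (141733920768, 47244640256), (206158430208, 68719476736), (704374636544, 17179869184)] :=
  Pool.Agent.helper14.QF.covD_F chks_eq (.n 3 (.n 3 (.n 0 (.l 4) (.n 0 (.l 4) (.l 4))) (.n 0 (.l 4) (.n 0 (.l 4) (.l 4)))) (.n 3 (.n 0 (.n 0 (.l 4) (.l 4)) (.n 0 (.l 4) (.l 4))) (.n 0 (.n 0 (.l 4) (.l 4)) (.n 0 (.n 0 (.l 4) (.l 4)) (.n 0 (.l 4) (.l 4))))))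
    [(257194721280, 3523215360), (141733920768, 47244640256), (206158430208, 68719476736), (704374636544, 17179869184)] rfl (by decide +kernel)
theorem c1_m46_t8 : CovD 0 progs [(257194721280, 3523215360), (141733920768, 47244640256), (206158430208, 68719476736), (738734374912, 17179869184)] :=
  Pool.Agent.helper14.QF.covD_F chks_eq (.n 3 (.n 2 (.n 3 (.n 0 (.n 0 (.l 4) (.l 4)) (.n 0 (.l 4) (.l 4))) (.n 0 (.n 0 (.l 4) (.l 4)) (.n 0 (.l 4) (.l 4)))) (.n 3 (.n 0 (.n 0 (.l 4) (.l 4)) (.n 0 (.l 4) (.l 4))) (.n 0 (.n 0 (.l 4) (.l 4)) (.n 0 (.l 4) (.l 4))))) (.n 3 (.n 0 (.n 0 (.n 0 (.l 4) (.l 4)) (.l 4)) (.n 0 (.l 4) (.l 4))) (.n 0 (.l 4) (.n 0 (.l 4) (.l 4)))))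
    [(257194721280, 3523215360), (141733920768, 47244640256), (206158430208, 68719476736), (738734374912, 17179869184)] rfl (by decide +kernel)
end
mutual
theorem c1_m46_t10 : CovD 0 progs [(261598740480, 880803840), (141733920768, 47244640256), (206158430208, 68719476736), (721554505728, 34359738368)] :=
  Pool.Agent.helper14.QF.covD_F chks_eq (.n 1 (.n 3 (.n 3 (.n 3 (.l 4) (.l 4)) (.n 3 (.l 4) (.l 4))) (.n 3 (.l 4) (.n 3 (.l 4) (.l 4)))) (.n 3 (.n 3 (.n 3 (.l 4) (.l 4)) (.n 3 (.l 4) (.l 4))) (.n 3 (.l 4) (.n 3 (.l 4) (.l 4)))))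
    [(261598740480, 880803840), (141733920768, 47244640256), (206158430208, 68719476736), (721554505728, 34359738368)] rfl (by decide +kernel)
theorem c1_m46_t11 : CovD 0 progs [(263360348160, 880803840), (118111600640, 23622320128), (206158430208, 68719476736), (721554505728, 34359738368)] :=
  Pool.Agent.helper14.QF.covD_F chks_eq (.n 3 (.n 3 (.n 3 (.l 4) (.l 4)) (.n 3 (.l 4) (.l 4))) (.n 3 (.n 3 (.l 4) (.l 4)) (.n 3 (.l 4) (.l 4))))
    [(263360348160, 880803840), (118111600640, 23622320128), (206158430208, 68719476736), (721554505728, 34359738368)] rfl (by decide +kernel)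
end
mutual
theorem c1_m46_t12 : CovD 0 progs [(263360348160, 880803840), (153545080832, 11811160064), (206158430208, 68719476736), (721554505728, 34359738368)] :=
  Pool.Agent.helper14.QF.covD_F chks_eq (.n 2 (.n 3 (.n 3 (.n 3 (.l 4) (.l 4)) (.n 3 (.l 4) (.l 4))) (.n 3 (.n 0 (.l 4) (.l 4)) (.n 3 (.l 4) (.l 4)))) (.n 3 (.n 3 (.n 3 (.l 4) (.l 4)) (.n 3 (.l 4) (.l 4))) (.n 3 (.n 0 (.l 4) (.l 4)) (.n 3 (.l 4) (.l 4)))))
    [(263360348160, 880803840), (153545080832, 11811160064), (206158430208, 68719476736), (721554505728, 34359738368)] rfl (by decide +kernel)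
theorem c1_m46_t13 : CovD 0 progs [(263360348160, 880803840), (177167400960, 11811160064), (206158430208, 68719476736), (721554505728, 34359738368)] :=
  Pool.Agent.helper14.QF.covD_F chks_eq (.n 2 (.n 3 (.n 3 (.n 3 (.l 4) (.l 4)) (.n 3 (.l 4) (.l 4))) (.n 3 (.n 0 (.l 4) (.l 4)) (.n 3 (.l 4) (.l 4)))) (.n 3 (.n 3 (.n 3 (.l 4) (.l 4)) (.n 3 (.l 4) (.l 4))) (.n 3 (.n 0 (.l 4) (.l 4)) (.n 3 (.l 4) (.l 4)))))
    [(263360348160, 880803840), (177167400960, 11811160064), (206158430208, 68719476736), (721554505728, 34359738368)] rfl (by decide +kernel)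
end
mutual
theorem c1_m46_t17 : CovD 0 progs [(265121955840, 880803840), (106300440576, 11811160064), (206158430208, 68719476736), (721554505728, 34359738368)] :=
  Pool.Agent.helper14.QF.covD_F chks_eq (.n 2 (.n 3 (.n 3 (.n 3 (.l 4) (.l 4)) (.n 0 (.l 4) (.l 4))) (.n 3 (.n 3 (.l 4) (.l 4)) (.n 3 (.l 4) (.l 4)))) (.n 3 (.n 3 (.n 3 (.l 4) (.l 4)) (.n 0 (.l 4) (.l 4))) (.n 3 (.n 3 (.l 4) (.l 4)) (.n 3 (.l 4) (.l 4)))))
    [(265121955840, 880803840), (106300440576, 11811160064), (206158430208, 68719476736), (721554505728, 34359738368)] rfl (by decide +kernel)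
theorem c1_m46_t18 : CovD 0 progs [(265121955840, 880803840), (129922760704, 11811160064), (206158430208, 68719476736), (721554505728, 34359738368)] :=
  Pool.Agent.helper14.QF.covD_F chks_eq (.n 2 (.n 3 (.n 3 (.n 3 (.l 4) (.l 4)) (.n 0 (.l 4) (.l 4))) (.n 3 (.n 3 (.l 4) (.l 4)) (.n 3 (.l 4) (.l 4)))) (.n 3 (.n 3 (.n 3 (.l 4) (.l 4)) (.n 0 (.l 4) (.l 4))) (.n 3 (.n 3 (.l 4) (.l 4)) (.n 3 (.l 4) (.l 4)))))
    [(265121955840, 880803840), (129922760704, 11811160064), (206158430208, 68719476736), (721554505728, 34359738368)] rfl (by decide +kernel)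
end
mutual
theorem c1_m46_t20 : CovD 0 progs [(265121955840, 880803840), (165356240896, 23622320128), (206158430208, 68719476736), (721554505728, 34359738368)] :=
  Pool.Agent.helper14.QF.covD_F chks_eq (.n 3 (.n 3 (.n 3 (.l 4) (.l 4)) (.n 3 (.l 4) (.l 4))) (.n 3 (.n 3 (.l 4) (.l 4)) (.n 3 (.l 4) (.l 4))))
    [(265121955840, 880803840), (165356240896, 23622320128), (206158430208, 68719476736), (721554505728, 34359738368)] rfl (by decide +kernel)
theorem c1_m46_t22 : CovD 0 progs [(266883563520, 880803840), (141733920768, 47244640256), (206158430208, 68719476736), (721554505728, 34359738368)] :=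
  Pool.Agent.helper14.QF.covD_F chks_eq (.n 0 (.n 3 (.n 3 (.n 3 (.l 4) (.l 4)) (.l 4)) (.n 3 (.n 3 (.l 4) (.l 4)) (.n 0 (.l 4) (.l 4)))) (.n 3 (.n 3 (.n 3 (.l 4) (.l 4)) (.l 4)) (.n 3 (.n 3 (.l 4) (.l 4)) (.n 0 (.l 4) (.l 4)))))
    [(266883563520, 880803840), (141733920768, 47244640256), (206158430208, 68719476736), (721554505728, 34359738368)] rfl (by decide +kernel)
end
mutual
theorem c1_m46_t27 : CovD 0 progs [(274810798080, 7046430720), (141733920768, 47244640256), (137438953472, 137438953472), (691489734656, 4294967296)] :=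
  Pool.Agent.helper14.QF.covD_F chks_eq (.n 0 (.n 2 (.n 0 (.n 0 (.n 0 (.l 4) (.l 4)) (.l 4)) (.l 4)) (.n 0 (.n 0 (.n 0 (.l 4) (.l 4)) (.l 4)) (.l 4))) (.n 0 (.n 0 (.n 2 (.l 4) (.l 4)) (.n 2 (.l 4) (.l 4))) (.n 0 (.n 1 (.l 4) (.l 4)) (.n 0 (.l 4) (.l 4)))))
    [(274810798080, 7046430720), (141733920768, 47244640256), (137438953472, 137438953472), (691489734656, 4294967296)] rfl (by decide +kernel)
theorem c1_m46_t28 : CovD 0 progs [(274810798080, 7046430720), (141733920768, 47244640256), (137438953472, 137438953472), (700079669248, 4294967296)] :=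
  Pool.Agent.helper14.QF.covD_F chks_eq (.n 0 (.n 0 (.n 2 (.l 4) (.l 4)) (.n 0 (.n 2 (.l 4) (.l 4)) (.n 2 (.l 4) (.l 4)))) (.n 0 (.n 0 (.n 2 (.l 4) (.l 4)) (.n 1 (.l 4) (.l 4))) (.n 0 (.l 4) (.l 4))))
    [(274810798080, 7046430720), (141733920768, 47244640256), (137438953472, 137438953472), (700079669248, 4294967296)] rfl (by decide +kernel)
end
mutual
theorem c1_m46_t30 : CovD 0 progs [(274810798080, 7046430720), (141733920768, 47244640256), (137438953472, 137438953472), (712964571136, 8589934592)] :=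
  Pool.Agent.helper14.QF.covD_F chks_eq (.n 3 (.n 0 (.n 0 (.n 0 (.n 2 (.l 4) (.l 4)) (.n 2 (.l 4) (.l 4))) (.n 0 (.n 2 (.l 4) (.l 4)) (.n 2 (.l 4) (.l 4)))) (.n 0 (.n 0 (.n 0 (.l 4) (.l 4)) (.l 4)) (.n 0 (.l 4) (.l 4)))) (.n 0 (.n 0 (.n 0 (.n 2 (.l 4) (.l 4)) (.n 2 (.l 4) (.l 4))) (.n 0 (.n 1 (.l 4) (.l 4)) (.n 0 (.l 4) (.l 4)))) (.n 0 (.n 0 (.l 4) (.l 4)) (.l 4))))
    [(274810798080, 7046430720), (141733920768, 47244640256), (137438953472, 137438953472), (712964571136, 8589934592)] rfl (by decide +kernel)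
theorem c1_m46_t32 : CovD 0 progs [(274810798080, 7046430720), (141733920768, 47244640256), (137438953472, 137438953472), (730144440320, 8589934592)] :=
  Pool.Agent.helper14.QF.covD_F chks_eq (.n 3 (.n 2 (.n 0 (.n 0 (.n 0 (.l 4) (.l 4)) (.l 4)) (.n 0 (.l 4) (.l 4))) (.n 0 (.n 0 (.n 0 (.l 4) (.l 4)) (.l 4)) (.n 0 (.l 4) (.l 4)))) (.n 0 (.n 0 (.n 0 (.n 1 (.l 4) (.l 4)) (.l 4)) (.n 0 (.l 4) (.l 4))) (.n 0 (.l 4) (.l 4))))
    [(274810798080, 7046430720), (141733920768, 47244640256), (137438953472, 137438953472), (730144440320, 8589934592)] rfl (by decide +kernel)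
theorem c1_m46_t33 : CovD 0 progs [(274810798080, 7046430720), (141733920768, 47244640256), (137438953472, 137438953472), (747324309504, 8589934592)] :=
  Pool.Agent.helper14.QF.covD_F chks_eq (.n 3 (.n 0 (.n 0 (.n 0 (.l 4) (.l 4)) (.l 4)) (.n 0 (.l 4) (.l 4))) (.n 0 (.n 0 (.l 4) (.l 4)) (.l 4)))
    [(274810798080, 7046430720), (141733920768, 47244640256), (137438953472, 137438953472), (747324309504, 8589934592)] rfl (by decide +kernel)
end
theorem c1_m46_t2 : CovD 0 progs [(257194721280, 3523215360), (141733920768, 47244640256), (68719476736, 68719476736), (721554505728, 34359738368)] :=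
  covD_split 3 (by decide +kernel) c1_m46_t0 c1_m46_t1
theorem c1_m46_t5 : CovD 0 progs [(264241152000, 3523215360), (141733920768, 47244640256), (68719476736, 68719476736), (721554505728, 34359738368)] :=
  covD_split 0 (by decide +kernel) c1_m46_t3 c1_m46_t4
theorem c1_m46_t6 : CovD 0 progs [(260717936640, 7046430720), (141733920768, 47244640256), (68719476736, 68719476736), (721554505728, 34359738368)] :=
  covD_split 0 (by decide +kernel) c1_m46_t2 c1_m46_t5
theorem c1_m46_t9 : CovD 0 progs [(257194721280, 3523215360), (141733920768, 47244640256), (206158430208, 68719476736), (721554505728, 34359738368)] :=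
  covD_split 3 (by decide +kernel) c1_m46_t7 c1_m46_t8
theorem c1_m46_t14 : CovD 0 progs [(263360348160, 880803840), (165356240896, 23622320128), (206158430208, 68719476736), (721554505728, 34359738368)] :=
  covD_split 1 (by decide +kernel) c1_m46_t12 c1_m46_t13
theorem c1_m46_t15 : CovD 0 progs [(263360348160, 880803840), (141733920768, 47244640256), (206158430208, 68719476736), (721554505728, 34359738368)] :=
  covD_split 1 (by decide +kernel) c1_m46_t11 c1_m46_t14
theorem c1_m46_t16 : CovD 0 progs [(262479544320, 1761607680), (141733920768, 47244640256), (206158430208, 68719476736), (721554505728, 34359738368)] :=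
  covD_split 0 (by decide +kernel) c1_m46_t10 c1_m46_t15
theorem c1_m46_t19 : CovD 0 progs [(265121955840, 880803840), (118111600640, 23622320128), (206158430208, 68719476736), (721554505728, 34359738368)] :=
  covD_split 1 (by decide +kernel) c1_m46_t17 c1_m46_t18
theorem c1_m46_t21 : CovD 0 progs [(265121955840, 880803840), (141733920768, 47244640256), (206158430208, 68719476736), (721554505728, 34359738368)] :=
  covD_split 1 (by decide +kernel) c1_m46_t19 c1_m46_t20
theorem c1_m46_t23 : CovD 0 progs [(266002759680, 1761607680), (141733920768, 47244640256), (206158430208, 68719476736), (721554505728, 34359738368)] :=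
  covD_split 0 (by decide +kernel) c1_m46_t21 c1_m46_t22
theorem c1_m46_t24 : CovD 0 progs [(264241152000, 3523215360), (141733920768, 47244640256), (206158430208, 68719476736), (721554505728, 34359738368)] :=
  covD_split 0 (by decide +kernel) c1_m46_t16 c1_m46_t23
theorem c1_m46_t25 : CovD 0 progs [(260717936640, 7046430720), (141733920768, 47244640256), (206158430208, 68719476736), (721554505728, 34359738368)] :=
  covD_split 0 (by decide +kernel) c1_m46_t9 c1_m46_t24
theorem c1_m46_t26 : CovD 0 progs [(260717936640, 7046430720), (141733920768, 47244640256), (137438953472, 137438953472), (721554505728, 34359738368)] :=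
  covD_split 2 (by decide +kernel) c1_m46_t6 c1_m46_t25
theorem c1_m46_t29 : CovD 0 progs [(274810798080, 7046430720), (141733920768, 47244640256), (137438953472, 137438953472), (695784701952, 8589934592)] :=
  covD_split 3 (by decide +kernel) c1_m46_t27 c1_m46_t28
theorem c1_m46_t31 : CovD 0 progs [(274810798080, 7046430720), (141733920768, 47244640256), (137438953472, 137438953472), (704374636544, 17179869184)] :=
  covD_split 3 (by decide +kernel) c1_m46_t29 c1_m46_t30
theorem c1_m46_t34 : CovD 0 progs [(274810798080, 7046430720), (141733920768, 47244640256), (137438953472, 137438953472), (738734374912, 17179869184)] :=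
  covD_split 3 (by decide +kernel) c1_m46_t32 c1_m46_t33
theorem c1_m46_t35 : CovD 0 progs [(274810798080, 7046430720), (141733920768, 47244640256), (137438953472, 137438953472), (721554505728, 34359738368)] :=
  covD_split 3 (by decide +kernel) c1_m46_t31 c1_m46_t34
theorem c1_m46 : CovD 0 progs [(267764367360, 14092861440), (141733920768, 47244640256), (137438953472, 137438953472), (721554505728, 34359738368)] :=
  covD_split 0 (by decide +kernel) c1_m46_t26 c1_m46_t35

end Pool.Agent.helper71.FJ.Crt.QMa
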