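import Pool.Agent.helper71.FJ.Crt.QMaP

/-!
Generated certificates.
-/

namespace Pool.Agent.helper71.FJ.Crt.QMa

open Pool.Agent.helper31.IA (Z Op)
open Pool.Agent.helper31.IC

mutual
theorem c1_m47_t0 : CovD 0 progs [(255433113600, 1761607680), (47244640256, 47244640256), (343597383680, 68719476736), (721554505728, 34359738368)] :=
  Pool.Agent.helper14.QF.covD_F chks_eq (.n 0 (.n 3 (.n 3 (.l 4) (.n 3 (.l 4) (.l 4))) (.n 3 (.n 3 (.l 4) (.n 0 (.l 4) (.l 4))) (.n 3 (.n 0 (.l 4) (.l 4)) (.l 4)))) (.n 3 (.n 3 (.l 4) (.n 3 (.l 4) (.l 4))) (.n 3 (.n 0 (.n 3 (.l 4) (.l 4)) (.n 3 (.l 4) (.l 4))) (.n 0 (.n 2 (.l 4) (.l 4)) (.l 4)))))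
    [(255433113600, 1761607680), (47244640256, 47244640256), (343597383680, 68719476736), (721554505728, 34359738368)] rfl (by decide +kernel)
theorem c1_m47_t1 : CovD 0 progs [(258075525120, 880803840), (47244640256, 47244640256), (343597383680, 68719476736), (721554505728, 34359738368)] :=
  Pool.Agent.helper14.QF.covD_F chks_eq (.n 0 (.n 3 (.n 3 (.l 4) (.n 3 (.l 4) (.l 4))) (.n 3 (.n 3 (.l 4) (.l 4)) (.n 1 (.l 4) (.l 4)))) (.n 0 (.n 3 (.n 3 (.l 4) (.n 3 (.l 4) (.l 4))) (.n 3 (.n 3 (.l 4) (.l 4)) (.n 1 (.l 4) (.l 4)))) (.n 3 (.n 3 (.l 4) (.n 3 (.l 4) (.l 4))) (.n 3 (.n 3 (.l 4) (.l 4)) (.n 3 (.l 4) (.l 4))))))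
    [(258075525120, 880803840), (47244640256, 47244640256), (343597383680, 68719476736), (721554505728, 34359738368)] rfl (by decide +kernel)
end
mutual
theorem c1_m47_t2 : CovD 0 progs [(259837132800, 880803840), (47244640256, 47244640256), (343597383680, 68719476736), (721554505728, 34359738368)] :=
  Pool.Agent.helper14.QF.covD_F chks_eq (.n 0 (.n 3 (.n 3 (.l 4) (.n 3 (.l 4) (.l 4))) (.n 3 (.n 3 (.l 4) (.l 4)) (.n 3 (.l 4) (.l 4)))) (.n 1 (.n 3 (.n 3 (.l 4) (.n 3 (.l 4) (.l 4))) (.n 3 (.n 2 (.l 4) (.l 4)) (.n 3 (.l 4) (.l 4)))) (.n 3 (.n 3 (.l 4) (.n 3 (.l 4) (.l 4))) (.n 3 (.n 1 (.l 4) (.l 4)) (.n 3 (.l 4) (.l 4))))))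
    [(259837132800, 880803840), (47244640256, 47244640256), (343597383680, 68719476736), (721554505728, 34359738368)] rfl (by decide +kernel)
theorem c1_m47_t5 : CovD 0 progs [(261598740480, 880803840), (47244640256, 47244640256), (343597383680, 68719476736), (721554505728, 34359738368)] :=
  Pool.Agent.helper14.QF.covD_F chks_eq (.n 1 (.n 3 (.n 3 (.n 3 (.l 4) (.l 4)) (.n 3 (.l 4) (.l 4))) (.n 3 (.l 4) (.n 3 (.l 4) (.l 4)))) (.n 3 (.n 3 (.n 3 (.l 4) (.l 4)) (.n 3 (.l 4) (.l 4))) (.n 3 (.l 4) (.n 3 (.l 4) (.l 4)))))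
    [(261598740480, 880803840), (47244640256, 47244640256), (343597383680, 68719476736), (721554505728, 34359738368)] rfl (by decide +kernel)
end
mutual
theorem c1_m47_t6 : CovD 0 progs [(263360348160, 880803840), (11811160064, 11811160064), (343597383680, 68719476736), (721554505728, 34359738368)] :=
  Pool.Agent.helper14.QF.covD_F chks_eq (.n 2 (.n 3 (.n 3 (.n 3 (.l 4) (.l 4)) (.n 3 (.l 4) (.l 4))) (.n 3 (.n 0 (.l 4) (.l 4)) (.n 3 (.l 4) (.l 4)))) (.n 3 (.n 3 (.n 3 (.l 4) (.l 4)) (.n 3 (.l 4) (.l 4))) (.n 3 (.n 0 (.l 4) (.l 4)) (.n 3 (.l 4) (.l 4)))))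
    [(263360348160, 880803840), (11811160064, 11811160064), (343597383680, 68719476736), (721554505728, 34359738368)] rfl (by decide +kernel)
theorem c1_m47_t7 : CovD 0 progs [(263360348160, 880803840), (35433480192, 11811160064), (343597383680, 68719476736), (721554505728, 34359738368)] :=
  Pool.Agent.helper14.QF.covD_F chks_eq (.n 2 (.n 3 (.n 3 (.n 3 (.l 4) (.l 4)) (.n 3 (.l 4) (.l 4))) (.n 3 (.n 0 (.l 4) (.l 4)) (.n 3 (.l 4) (.l 4)))) (.n 3 (.n 3 (.n 3 (.l 4) (.l 4)) (.n 3 (.l 4) (.l 4))) (.n 3 (.n 0 (.l 4) (.l 4)) (.n 3 (.l 4) (.l 4)))))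
    [(263360348160, 880803840), (35433480192, 11811160064), (343597383680, 68719476736), (721554505728, 34359738368)] rfl (by decide +kernel)
end
mutual
theorem c1_m47_t9 : CovD 0 progs [(263360348160, 880803840), (59055800320, 11811160064), (343597383680, 68719476736), (721554505728, 34359738368)] :=
  Pool.Agent.helper14.QF.covD_F chks_eq (.n 2 (.n 3 (.n 3 (.n 3 (.l 4) (.l 4)) (.n 3 (.l 4) (.l 4))) (.n 3 (.n 0 (.l 4) (.l 4)) (.n 3 (.l 4) (.l 4)))) (.n 3 (.n 3 (.n 3 (.l 4) (.l 4)) (.n 3 (.l 4) (.l 4))) (.n 3 (.n 0 (.l 4) (.l 4)) (.n 3 (.l 4) (.l 4)))))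
    [(263360348160, 880803840), (59055800320, 11811160064), (343597383680, 68719476736), (721554505728, 34359738368)] rfl (by decide +kernel)
theorem c1_m47_t10 : CovD 0 progs [(263360348160, 880803840), (82678120448, 11811160064), (343597383680, 68719476736), (721554505728, 34359738368)] :=
  Pool.Agent.helper14.QF.covD_F chks_eq (.n 2 (.n 3 (.n 3 (.n 3 (.l 4) (.l 4)) (.n 3 (.l 4) (.l 4))) (.n 3 (.n 0 (.l 4) (.l 4)) (.n 3 (.l 4) (.l 4)))) (.n 3 (.n 3 (.n 3 (.l 4) (.l 4)) (.n 3 (.l 4) (.l 4))) (.n 3 (.n 0 (.l 4) (.l 4)) (.n 3 (.l 4) (.l 4)))))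
    [(263360348160, 880803840), (82678120448, 11811160064), (343597383680, 68719476736), (721554505728, 34359738368)] rfl (by decide +kernel)
end
mutual
theorem c1_m47_t14 : CovD 0 progs [(265121955840, 880803840), (11811160064, 11811160064), (343597383680, 68719476736), (721554505728, 34359738368)] :=
  Pool.Agent.helper14.QF.covD_F chks_eq (.n 2 (.n 3 (.n 3 (.n 3 (.l 4) (.l 4)) (.n 0 (.l 4) (.l 4))) (.n 3 (.n 3 (.l 4) (.l 4)) (.n 3 (.l 4) (.l 4)))) (.n 3 (.n 3 (.n 3 (.l 4) (.l 4)) (.n 0 (.l 4) (.l 4))) (.n 3 (.n 3 (.l 4) (.l 4)) (.n 3 (.l 4) (.l 4)))))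
    [(265121955840, 880803840), (11811160064, 11811160064), (343597383680, 68719476736), (721554505728, 34359738368)] rfl (by decide +kernel)
theorem c1_m47_t15 : CovD 0 progs [(265121955840, 880803840), (35433480192, 11811160064), (343597383680, 68719476736), (721554505728, 34359738368)] :=
  Pool.Agent.helper14.QF.covD_F chks_eq (.n 2 (.n 3 (.n 3 (.n 3 (.l 4) (.l 4)) (.n 0 (.l 4) (.l 4))) (.n 3 (.n 3 (.l 4) (.l 4)) (.n 3 (.l 4) (.l 4)))) (.n 3 (.n 3 (.n 3 (.l 4) (.l 4)) (.n 0 (.l 4) (.l 4))) (.n 3 (.n 3 (.l 4) (.l 4)) (.n 3 (.l 4) (.l 4)))))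
    [(265121955840, 880803840), (35433480192, 11811160064), (343597383680, 68719476736), (721554505728, 34359738368)] rfl (by decide +kernel)
end
mutual
theorem c1_m47_t17 : CovD 0 progs [(265121955840, 880803840), (59055800320, 11811160064), (343597383680, 68719476736), (721554505728, 34359738368)] :=
  Pool.Agent.helper14.QF.covD_F chks_eq (.n 2 (.n 3 (.n 3 (.n 3 (.l 4) (.l 4)) (.n 0 (.l 4) (.l 4))) (.n 3 (.n 3 (.l 4) (.l 4)) (.n 3 (.l 4) (.l 4)))) (.n 3 (.n 3 (.n 3 (.l 4) (.l 4)) (.n 0 (.l 4) (.l 4))) (.n 3 (.n 3 (.l 4) (.l 4)) (.n 3 (.l 4) (.l 4)))))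
    [(265121955840, 880803840), (59055800320, 11811160064), (343597383680, 68719476736), (721554505728, 34359738368)] rfl (by decide +kernel)
theorem c1_m47_t18 : CovD 0 progs [(265121955840, 880803840), (82678120448, 11811160064), (343597383680, 68719476736), (721554505728, 34359738368)] :=
  Pool.Agent.helper14.QF.covD_F chks_eq (.n 2 (.n 3 (.n 3 (.n 3 (.l 4) (.l 4)) (.n 0 (.l 4) (.l 4))) (.n 3 (.n 3 (.l 4) (.l 4)) (.n 3 (.l 4) (.l 4)))) (.n 3 (.n 3 (.n 3 (.l 4) (.l 4)) (.n 0 (.l 4) (.l 4))) (.n 3 (.n 3 (.l 4) (.l 4)) (.n 3 (.l 4) (.l 4)))))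
    [(265121955840, 880803840), (82678120448, 11811160064), (343597383680, 68719476736), (721554505728, 34359738368)] rfl (by decide +kernel)
end
mutual
theorem c1_m47_t21 : CovD 0 progs [(266883563520, 880803840), (47244640256, 47244640256), (343597383680, 68719476736), (721554505728, 34359738368)] :=
  Pool.Agent.helper14.QF.covD_F chks_eq (.n 0 (.n 3 (.n 3 (.n 3 (.l 4) (.l 4)) (.l 4)) (.n 3 (.n 3 (.l 4) (.l 4)) (.n 0 (.l 4) (.l 4)))) (.n 3 (.n 3 (.n 3 (.l 4) (.l 4)) (.l 4)) (.n 3 (.n 3 (.l 4) (.l 4)) (.n 0 (.l 4) (.l 4)))))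
    [(266883563520, 880803840), (47244640256, 47244640256), (343597383680, 68719476736), (721554505728, 34359738368)] rfl (by decide +kernel)
theorem c1_m47_t25 : CovD 0 progs [(257194721280, 3523215360), (47244640256, 47244640256), (481036337152, 68719476736), (704374636544, 17179869184)] :=
  Pool.Agent.helper14.QF.covD_F chks_eq (.n 0 (.n 3 (.n 3 (.l 4) (.l 4)) (.n 0 (.n 3 (.l 4) (.l 4)) (.n 3 (.l 4) (.l 4)))) (.n 3 (.n 0 (.n 0 (.l 4) (.l 4)) (.n 3 (.l 4) (.l 4))) (.n 0 (.n 3 (.l 4) (.n 0 (.l 4) (.l 4))) (.n 0 (.n 3 (.l 4) (.l 4)) (.n 3 (.l 4) (.l 4))))))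
    [(257194721280, 3523215360), (47244640256, 47244640256), (481036337152, 68719476736), (704374636544, 17179869184)] rfl (by decide +kernel)
end
mutual
theorem c1_m47_t26 : CovD 0 progs [(255433113600, 1761607680), (47244640256, 47244640256), (481036337152, 68719476736), (738734374912, 17179869184)] :=
  Pool.Agent.helper14.QF.covD_F chks_eq (.n 3 (.n 0 (.n 0 (.n 3 (.l 4) (.l 4)) (.n 3 (.l 4) (.l 4))) (.n 3 (.n 0 (.l 4) (.l 4)) (.n 3 (.l 4) (.l 4)))) (.n 3 (.n 0 (.n 3 (.l 4) (.l 4)) (.n 0 (.l 4) (.l 4))) (.n 1 (.l 4) (.l 4))))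
    [(255433113600, 1761607680), (47244640256, 47244640256), (481036337152, 68719476736), (738734374912, 17179869184)] rfl (by decide +kernel)
theorem c1_m47_t27 : CovD 0 progs [(258956328960, 1761607680), (47244640256, 47244640256), (481036337152, 68719476736), (738734374912, 17179869184)] :=
  Pool.Agent.helper14.QF.covD_F chks_eq (.n 3 (.n 0 (.n 3 (.n 3 (.l 4) (.l 4)) (.n 1 (.l 4) (.l 4))) (.n 3 (.n 1 (.l 4) (.l 4)) (.l 4))) (.n 0 (.n 3 (.l 4) (.n 0 (.l 4) (.l 4))) (.n 0 (.n 3 (.l 4) (.l 4)) (.n 3 (.l 4) (.l 4)))))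
    [(258956328960, 1761607680), (47244640256, 47244640256), (481036337152, 68719476736), (738734374912, 17179869184)] rfl (by decide +kernel)
end
mutual
theorem c1_m47_t30 : CovD 0 progs [(261598740480, 880803840), (47244640256, 47244640256), (446676598784, 34359738368), (721554505728, 34359738368)] :=
  Pool.Agent.helper14.QF.covD_F chks_eq (.n 3 (.n 3 (.n 3 (.l 4) (.l 4)) (.n 3 (.l 4) (.l 4))) (.n 3 (.l 4) (.n 3 (.l 4) (.l 4))))
    [(261598740480, 880803840), (47244640256, 47244640256), (446676598784, 34359738368), (721554505728, 34359738368)] rfl (by decide +kernel)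
theorem c1_m47_t31 : CovD 0 progs [(263360348160, 880803840), (23622320128, 23622320128), (446676598784, 34359738368), (721554505728, 34359738368)] :=
  Pool.Agent.helper14.QF.covD_F chks_eq (.n 1 (.n 3 (.n 3 (.n 3 (.l 4) (.l 4)) (.n 3 (.l 4) (.l 4))) (.n 3 (.n 0 (.l 4) (.l 4)) (.n 3 (.l 4) (.l 4)))) (.n 3 (.n 3 (.n 3 (.l 4) (.l 4)) (.n 3 (.l 4) (.l 4))) (.n 3 (.n 0 (.l 4) (.l 4)) (.n 3 (.l 4) (.l 4)))))
    [(263360348160, 880803840), (23622320128, 23622320128), (446676598784, 34359738368), (721554505728, 34359738368)] rfl (by decide +kernel)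
end
mutual
theorem c1_m47_t32 : CovD 0 progs [(263360348160, 880803840), (70866960384, 23622320128), (446676598784, 34359738368), (721554505728, 34359738368)] :=
  Pool.Agent.helper14.QF.covD_F chks_eq (.n 1 (.n 3 (.n 3 (.n 3 (.l 4) (.l 4)) (.n 3 (.l 4) (.l 4))) (.n 3 (.n 0 (.l 4) (.l 4)) (.n 3 (.l 4) (.l 4)))) (.n 3 (.n 3 (.n 3 (.l 4) (.l 4)) (.n 3 (.l 4) (.l 4))) (.n 3 (.n 0 (.l 4) (.l 4)) (.n 3 (.l 4) (.l 4)))))
    [(263360348160, 880803840), (70866960384, 23622320128), (446676598784, 34359738368), (721554505728, 34359738368)] rfl (by decide +kernel)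
theorem c1_m47_t35 : CovD 0 progs [(265121955840, 880803840), (23622320128, 23622320128), (446676598784, 34359738368), (721554505728, 34359738368)] :=
  Pool.Agent.helper14.QF.covD_F chks_eq (.n 1 (.n 3 (.n 3 (.n 3 (.l 4) (.l 4)) (.n 0 (.l 4) (.l 4))) (.n 3 (.n 3 (.l 4) (.l 4)) (.n 3 (.l 4) (.l 4)))) (.n 3 (.n 3 (.n 3 (.l 4) (.l 4)) (.n 0 (.l 4) (.l 4))) (.n 3 (.n 3 (.l 4) (.l 4)) (.n 3 (.l 4) (.l 4)))))
    [(265121955840, 880803840), (23622320128, 23622320128), (446676598784, 34359738368), (721554505728, 34359738368)] rfl (by decide +kernel)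
end
mutual
theorem c1_m47_t36 : CovD 0 progs [(265121955840, 880803840), (70866960384, 23622320128), (446676598784, 34359738368), (721554505728, 34359738368)] :=
  Pool.Agent.helper14.QF.covD_F chks_eq (.n 1 (.n 3 (.n 3 (.n 3 (.l 4) (.l 4)) (.n 0 (.l 4) (.l 4))) (.n 3 (.n 3 (.l 4) (.l 4)) (.n 3 (.l 4) (.l 4)))) (.n 3 (.n 3 (.n 3 (.l 4) (.l 4)) (.n 0 (.l 4) (.l 4))) (.n 3 (.n 3 (.l 4) (.l 4)) (.n 3 (.l 4) (.l 4)))))
    [(265121955840, 880803840), (70866960384, 23622320128), (446676598784, 34359738368), (721554505728, 34359738368)] rfl (by decide +kernel)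
theorem c1_m47_t38 : CovD 0 progs [(266883563520, 880803840), (47244640256, 47244640256), (446676598784, 34359738368), (721554505728, 34359738368)] :=
  Pool.Agent.helper14.QF.covD_F chks_eq (.n 3 (.n 3 (.n 3 (.l 4) (.l 4)) (.l 4)) (.n 3 (.n 3 (.l 4) (.l 4)) (.n 3 (.l 4) (.l 4))))
    [(266883563520, 880803840), (47244640256, 47244640256), (446676598784, 34359738368), (721554505728, 34359738368)] rfl (by decide +kernel)
end
mutual
theorem c1_m47_t41 : CovD 0 progs [(264241152000, 3523215360), (47244640256, 47244640256), (515396075520, 34359738368), (704374636544, 17179869184)] :=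
  Pool.Agent.helper14.QF.covD_F chks_eq (.n 0 (.n 3 (.n 0 (.n 3 (.l 4) (.l 4)) (.n 3 (.l 4) (.l 4))) (.n 0 (.n 3 (.l 4) (.n 0 (.l 4) (.l 4))) (.n 3 (.n 0 (.l 4) (.l 4)) (.l 4)))) (.n 0 (.n 3 (.n 3 (.l 4) (.l 4)) (.n 3 (.l 4) (.l 4))) (.n 3 (.n 3 (.l 4) (.l 4)) (.l 4))))
    [(264241152000, 3523215360), (47244640256, 47244640256), (515396075520, 34359738368), (704374636544, 17179869184)] rfl (by decide +kernel)
theorem c1_m47_t42 : CovD 0 progs [(264241152000, 3523215360), (47244640256, 47244640256), (515396075520, 34359738368), (738734374912, 17179869184)] :=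
  Pool.Agent.helper14.QF.covD_F chks_eq (.n 0 (.n 3 (.n 0 (.l 4) (.n 3 (.l 4) (.l 4))) (.n 0 (.n 3 (.l 4) (.l 4)) (.n 3 (.l 4) (.l 4)))) (.n 3 (.n 0 (.n 3 (.l 4) (.l 4)) (.n 3 (.l 4) (.l 4))) (.n 3 (.n 0 (.l 4) (.l 4)) (.l 4))))
    [(264241152000, 3523215360), (47244640256, 47244640256), (515396075520, 34359738368), (738734374912, 17179869184)] rfl (by decide +kernel)
end
mutual
theorem c1_m47_t47 : CovD 0 progs [(268204769280, 440401920), (47244640256, 47244640256), (412316860416, 137438953472), (721554505728, 34359738368)] :=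
  Pool.Agent.helper14.QF.covD_F chks_eq (.n 3 (.n 3 (.n 2 (.n 3 (.l 4) (.l 4)) (.n 3 (.l 4) (.l 4))) (.n 2 (.n 1 (.l 4) (.l 4)) (.n 3 (.l 4) (.l 4)))) (.n 2 (.n 3 (.n 3 (.l 4) (.l 4)) (.l 4)) (.n 3 (.n 3 (.l 4) (.l 4)) (.l 4))))
    [(268204769280, 440401920), (47244640256, 47244640256), (412316860416, 137438953472), (721554505728, 34359738368)] rfl (by decide +kernel)
theorem c1_m47_t48 : CovD 0 progs [(269085573120, 440401920), (47244640256, 47244640256), (412316860416, 137438953472), (721554505728, 34359738368)] :=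
  Pool.Agent.helper14.QF.covD_F chks_eq (.n 3 (.n 3 (.n 2 (.n 3 (.l 4) (.l 4)) (.n 3 (.l 4) (.l 4))) (.n 1 (.n 3 (.l 4) (.l 4)) (.n 3 (.l 4) (.l 4)))) (.n 3 (.n 3 (.n 1 (.l 4) (.l 4)) (.l 4)) (.n 1 (.l 4) (.l 4))))
    [(269085573120, 440401920), (47244640256, 47244640256), (412316860416, 137438953472), (721554505728, 34359738368)] rfl (by decide +kernel)
end
mutual
theorem c1_m47_t50 : CovD 0 progs [(270406778880, 880803840), (47244640256, 47244640256), (412316860416, 137438953472), (721554505728, 34359738368)] :=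
  Pool.Agent.helper14.QF.covD_F chks_eq (.n 3 (.n 3 (.n 1 (.n 2 (.l 4) (.l 4)) (.n 2 (.l 4) (.l 4))) (.n 2 (.n 3 (.l 4) (.l 4)) (.n 3 (.n 0 (.l 4) (.l 4)) (.l 4)))) (.n 2 (.n 3 (.n 3 (.l 4) (.l 4)) (.l 4)) (.n 3 (.n 3 (.l 4) (.l 4)) (.l 4))))
    [(270406778880, 880803840), (47244640256, 47244640256), (412316860416, 137438953472), (721554505728, 34359738368)] rfl (by decide +kernel)
theorem c1_m47_t52 : CovD 0 progs [(272168386560, 880803840), (47244640256, 47244640256), (412316860416, 137438953472), (721554505728, 34359738368)] :=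
  Pool.Agent.helper14.QF.covD_F chks_eq (.n 3 (.n 3 (.n 2 (.n 1 (.l 4) (.l 4)) (.n 3 (.l 4) (.l 4))) (.n 2 (.n 3 (.l 4) (.l 4)) (.n 3 (.n 0 (.l 4) (.l 4)) (.l 4)))) (.n 3 (.n 3 (.n 0 (.l 4) (.l 4)) (.l 4)) (.n 0 (.l 4) (.l 4))))
    [(272168386560, 880803840), (47244640256, 47244640256), (412316860416, 137438953472), (721554505728, 34359738368)] rfl (by decide +kernel)
end
mutual
theorem c1_m47_t53 : CovD 0 progs [(273929994240, 880803840), (47244640256, 47244640256), (412316860416, 137438953472), (721554505728, 34359738368)] :=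
  Pool.Agent.helper14.QF.covD_F chks_eq (.n 0 (.n 3 (.n 3 (.n 1 (.n 2 (.l 4) (.l 4)) (.n 3 (.l 4) (.l 4))) (.n 1 (.n 3 (.l 4) (.l 4)) (.n 3 (.l 4) (.l 4)))) (.n 3 (.n 1 (.l 4) (.l 4)) (.l 4))) (.n 3 (.n 3 (.n 1 (.n 3 (.l 4) (.l 4)) (.n 3 (.l 4) (.l 4))) (.n 3 (.n 1 (.l 4) (.l 4)) (.l 4))) (.n 3 (.n 1 (.l 4) (.l 4)) (.l 4))))
    [(273929994240, 880803840), (47244640256, 47244640256), (412316860416, 137438953472), (721554505728, 34359738368)] rfl (by decide +kernel)
theorem c1_m47_t56 : CovD 0 progs [(275691601920, 880803840), (47244640256, 47244640256), (412316860416, 137438953472), (721554505728, 34359738368)] :=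
  Pool.Agent.helper14.QF.covD_F chks_eq (.n 0 (.n 3 (.n 3 (.n 1 (.n 3 (.l 4) (.l 4)) (.n 3 (.l 4) (.l 4))) (.n 3 (.n 1 (.l 4) (.l 4)) (.l 4))) (.n 3 (.l 4) (.l 4))) (.n 3 (.n 3 (.n 1 (.n 3 (.l 4) (.l 4)) (.n 3 (.l 4) (.l 4))) (.n 3 (.l 4) (.l 4))) (.n 3 (.l 4) (.l 4))))
    [(275691601920, 880803840), (47244640256, 47244640256), (412316860416, 137438953472), (721554505728, 34359738368)] rfl (by decide +kernel)
end
mutual
theorem c1_m47_t57 : CovD 0 progs [(277453209600, 880803840), (47244640256, 47244640256), (412316860416, 137438953472), (721554505728, 34359738368)] :=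
  Pool.Agent.helper14.QF.covD_F chks_eq (.n 3 (.n 3 (.n 2 (.n 3 (.l 4) (.l 4)) (.n 3 (.l 4) (.l 4))) (.n 3 (.n 0 (.l 4) (.l 4)) (.l 4))) (.n 3 (.l 4) (.l 4)))
    [(277453209600, 880803840), (47244640256, 47244640256), (412316860416, 137438953472), (721554505728, 34359738368)] rfl (by decide +kernel)
theorem c1_m47_t59 : CovD 0 progs [(280095621120, 1761607680), (47244640256, 47244640256), (412316860416, 137438953472), (721554505728, 34359738368)] :=
  Pool.Agent.helper14.QF.covD_F chks_eq (.n 0 (.n 3 (.n 2 (.n 3 (.n 3 (.l 4) (.l 4)) (.l 4)) (.n 3 (.n 3 (.l 4) (.l 4)) (.l 4))) (.n 3 (.l 4) (.l 4))) (.n 3 (.n 3 (.n 3 (.n 0 (.l 4) (.l 4)) (.l 4)) (.n 0 (.l 4) (.l 4))) (.n 3 (.l 4) (.l 4))))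
    [(280095621120, 1761607680), (47244640256, 47244640256), (412316860416, 137438953472), (721554505728, 34359738368)] rfl (by decide +kernel)
end
theorem c1_m47_t3 : CovD 0 progs [(258956328960, 1761607680), (47244640256, 47244640256), (343597383680, 68719476736), (721554505728, 34359738368)] :=
  covD_split 0 (by decide +kernel) c1_m47_t1 c1_m47_t2
theorem c1_m47_t4 : CovD 0 progs [(257194721280, 3523215360), (47244640256, 47244640256), (343597383680, 68719476736), (721554505728, 34359738368)] :=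
  covD_split 0 (by decide +kernel) c1_m47_t0 c1_m47_t3
theorem c1_m47_t8 : CovD 0 progs [(263360348160, 880803840), (23622320128, 23622320128), (343597383680, 68719476736), (721554505728, 34359738368)] :=
  covD_split 1 (by decide +kernel) c1_m47_t6 c1_m47_t7
theorem c1_m47_t11 : CovD 0 progs [(263360348160, 880803840), (70866960384, 23622320128), (343597383680, 68719476736), (721554505728, 34359738368)] :=
  covD_split 1 (by decide +kernel) c1_m47_t9 c1_m47_t10
theorem c1_m47_t12 : CovD 0 progs [(263360348160, 880803840), (47244640256, 47244640256), (343597383680, 68719476736), (721554505728, 34359738368)] :=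
  covD_split 1 (by decide +kernel) c1_m47_t8 c1_m47_t11
theorem c1_m47_t13 : CovD 0 progs [(262479544320, 1761607680), (47244640256, 47244640256), (343597383680, 68719476736), (721554505728, 34359738368)] :=
  covD_split 0 (by decide +kernel) c1_m47_t5 c1_m47_t12
theorem c1_m47_t16 : CovD 0 progs [(265121955840, 880803840), (23622320128, 23622320128), (343597383680, 68719476736), (721554505728, 34359738368)] :=
  covD_split 1 (by decide +kernel) c1_m47_t14 c1_m47_t15
theorem c1_m47_t19 : CovD 0 progs [(265121955840, 880803840), (70866960384, 23622320128), (343597383680, 68719476736), (721554505728, 34359738368)] :=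
  covD_split 1 (by decide +kernel) c1_m47_t17 c1_m47_t18
theorem c1_m47_t20 : CovD 0 progs [(265121955840, 880803840), (47244640256, 47244640256), (343597383680, 68719476736), (721554505728, 34359738368)] :=
  covD_split 1 (by decide +kernel) c1_m47_t16 c1_m47_t19
theorem c1_m47_t22 : CovD 0 progs [(266002759680, 1761607680), (47244640256, 47244640256), (343597383680, 68719476736), (721554505728, 34359738368)] :=
  covD_split 0 (by decide +kernel) c1_m47_t20 c1_m47_t21
theorem c1_m47_t23 : CovD 0 progs [(264241152000, 3523215360), (47244640256, 47244640256), (343597383680, 68719476736), (721554505728, 34359738368)] :=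
  covD_split 0 (by decide +kernel) c1_m47_t13 c1_m47_t22
theorem c1_m47_t24 : CovD 0 progs [(260717936640, 7046430720), (47244640256, 47244640256), (343597383680, 68719476736), (721554505728, 34359738368)] :=
  covD_split 0 (by decide +kernel) c1_m47_t4 c1_m47_t23
theorem c1_m47_t28 : CovD 0 progs [(257194721280, 3523215360), (47244640256, 47244640256), (481036337152, 68719476736), (738734374912, 17179869184)] :=
  covD_split 0 (by decide +kernel) c1_m47_t26 c1_m47_t27
theorem c1_m47_t29 : CovD 0 progs [(257194721280, 3523215360), (47244640256, 47244640256), (481036337152, 68719476736), (721554505728, 34359738368)] :=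
  covD_split 3 (by decide +kernel) c1_m47_t25 c1_m47_t28
theorem c1_m47_t33 : CovD 0 progs [(263360348160, 880803840), (47244640256, 47244640256), (446676598784, 34359738368), (721554505728, 34359738368)] :=
  covD_split 1 (by decide +kernel) c1_m47_t31 c1_m47_t32
theorem c1_m47_t34 : CovD 0 progs [(262479544320, 1761607680), (47244640256, 47244640256), (446676598784, 34359738368), (721554505728, 34359738368)] :=
  covD_split 0 (by decide +kernel) c1_m47_t30 c1_m47_t33
theorem c1_m47_t37 : CovD 0 progs [(265121955840, 880803840), (47244640256, 47244640256), (446676598784, 34359738368), (721554505728, 34359738368)] :=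
  covD_split 1 (by decide +kernel) c1_m47_t35 c1_m47_t36
theorem c1_m47_t39 : CovD 0 progs [(266002759680, 1761607680), (47244640256, 47244640256), (446676598784, 34359738368), (721554505728, 34359738368)] :=
  covD_split 0 (by decide +kernel) c1_m47_t37 c1_m47_t38
theorem c1_m47_t40 : CovD 0 progs [(264241152000, 3523215360), (47244640256, 47244640256), (446676598784, 34359738368), (721554505728, 34359738368)] :=
  covD_split 0 (by decide +kernel) c1_m47_t34 c1_m47_t39
theorem c1_m47_t43 : CovD 0 progs [(264241152000, 3523215360), (47244640256, 47244640256), (515396075520, 34359738368), (721554505728, 34359738368)] :=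
  covD_split 3 (by decide +kernel) c1_m47_t41 c1_m47_t42
theorem c1_m47_t44 : CovD 0 progs [(264241152000, 3523215360), (47244640256, 47244640256), (481036337152, 68719476736), (721554505728, 34359738368)] :=
  covD_split 2 (by decide +kernel) c1_m47_t40 c1_m47_t43
theorem c1_m47_t45 : CovD 0 progs [(260717936640, 7046430720), (47244640256, 47244640256), (481036337152, 68719476736), (721554505728, 34359738368)] :=
  covD_split 0 (by decide +kernel) c1_m47_t29 c1_m47_t44
theorem c1_m47_t46 : CovD 0 progs [(260717936640, 7046430720), (47244640256, 47244640256), (412316860416, 137438953472), (721554505728, 34359738368)] :=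
  covD_split 2 (by decide +kernel) c1_m47_t24 c1_m47_t45
theorem c1_m47_t49 : CovD 0 progs [(268645171200, 880803840), (47244640256, 47244640256), (412316860416, 137438953472), (721554505728, 34359738368)] :=
  covD_split 0 (by decide +kernel) c1_m47_t47 c1_m47_t48
theorem c1_m47_t51 : CovD 0 progs [(269525975040, 1761607680), (47244640256, 47244640256), (412316860416, 137438953472), (721554505728, 34359738368)] :=
  covD_split 0 (by decide +kernel) c1_m47_t49 c1_m47_t50
theorem c1_m47_t54 : CovD 0 progs [(273049190400, 1761607680), (47244640256, 47244640256), (412316860416, 137438953472), (721554505728, 34359738368)] :=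
  covD_split 0 (by decide +kernel) c1_m47_t52 c1_m47_t53
theorem c1_m47_t55 : CovD 0 progs [(271287582720, 3523215360), (47244640256, 47244640256), (412316860416, 137438953472), (721554505728, 34359738368)] :=
  covD_split 0 (by decide +kernel) c1_m47_t51 c1_m47_t54
theorem c1_m47_t58 : CovD 0 progs [(276572405760, 1761607680), (47244640256, 47244640256), (412316860416, 137438953472), (721554505728, 34359738368)] :=
  covD_split 0 (by decide +kernel) c1_m47_t56 c1_m47_t57
theorem c1_m47_t60 : CovD 0 progs [(278334013440, 3523215360), (47244640256, 47244640256), (412316860416, 137438953472), (721554505728, 34359738368)] :=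
  covD_split 0 (by decide +kernel) c1_m47_t58 c1_m47_t59
theorem c1_m47_t61 : CovD 0 progs [(274810798080, 7046430720), (47244640256, 47244640256), (412316860416, 137438953472), (721554505728, 34359738368)] :=
  covD_split 0 (by decide +kernel) c1_m47_t55 c1_m47_t60
theorem c1_m47 : CovD 0 progs [(267764367360, 14092861440), (47244640256, 47244640256), (412316860416, 137438953472), (721554505728, 34359738368)] :=
  covD_split 0 (by decide +kernel) c1_m47_t46 c1_m47_t61

end Pool.Agent.helper71.FJ.Crt.QMa
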