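import Pool.Agent.helper71.FJ.Crt.QMaP

/-!
Generated certificates.
-/

namespace Pool.Agent.helper71.FJ.Crt.QMa

open Pool.Agent.helper31.IA (Z Op)
open Pool.Agent.helper31.IC

mutual
theorem c1_m49_t0 : CovD 0 progs [(254552309760, 880803840), (94489280512, 94489280512), (274877906944, 274877906944), (764504178688, 8589934592)] :=
  Pool.Agent.helper14.QF.covD_F chks_eq (.n 3 (.n 1 (.n 2 (.n 2 (.l 4) (.l 4)) (.n 2 (.l 4) (.n 0 (.l 4) (.l 4)))) (.n 2 (.n 2 (.l 4) (.l 4)) (.n 1 (.n 2 (.l 4) (.l 4)) (.n 2 (.l 4) (.l 4))))) (.n 2 (.n 2 (.n 2 (.l 4) (.l 4)) (.n 2 (.l 4) (.l 4))) (.n 1 (.n 0 (.n 2 (.l 4) (.l 4)) (.n 2 (.l 4) (.l 4))) (.n 2 (.n 0 (.l 4) (.l 4)) (.n 2 (.l 4) (.n 0 (.l 4) (.l 4)))))))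
    [(254552309760, 880803840), (94489280512, 94489280512), (274877906944, 274877906944), (764504178688, 8589934592)] rfl (by decide +kernel)
theorem c1_m49_t1 : CovD 0 progs [(254552309760, 880803840), (94489280512, 94489280512), (274877906944, 274877906944), (781684047872, 8589934592)] :=
  Pool.Agent.helper14.QF.covD_F chks_eq (.n 2 (.n 2 (.n 3 (.n 0 (.l 4) (.l 4)) (.l 4)) (.n 3 (.n 0 (.l 4) (.l 4)) (.l 4))) (.n 2 (.n 3 (.n 2 (.l 4) (.l 4)) (.l 4)) (.n 1 (.n 2 (.n 3 (.l 4) (.l 4)) (.l 6)) (.n 3 (.n 0 (.l 4) (.l 4)) (.l 4)))))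
    [(254552309760, 880803840), (94489280512, 94489280512), (274877906944, 274877906944), (781684047872, 8589934592)] rfl (by decide +kernel)
end
mutual
theorem c1_m49_t3 : CovD 0 progs [(254552309760, 880803840), (94489280512, 94489280512), (274877906944, 274877906944), (807453851648, 17179869184)] :=
  Pool.Agent.helper14.QF.covD_F chks_eq (.n 2 (.n 3 (.n 3 (.n 0 (.l 4) (.l 4)) (.l 4)) (.l 4)) (.n 1 (.n 3 (.n 3 (.l 4) (.l 4)) (.l 4)) (.n 3 (.n 3 (.l 4) (.l 4)) (.l 4))))
    [(254552309760, 880803840), (94489280512, 94489280512), (274877906944, 274877906944), (807453851648, 17179869184)] rfl (by decide +kernel)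
theorem c1_m49_t5 : CovD 0 progs [(256313917440, 880803840), (94489280512, 94489280512), (274877906944, 274877906944), (764504178688, 8589934592)] :=
  Pool.Agent.helper14.QF.covD_F chks_eq (.n 1 (.n 2 (.n 2 (.n 3 (.l 4) (.l 4)) (.n 3 (.l 4) (.l 4))) (.n 2 (.n 3 (.n 0 (.l 4) (.l 4)) (.l 4)) (.n 2 (.n 3 (.l 4) (.l 4)) (.l 6)))) (.n 2 (.n 2 (.n 3 (.l 4) (.l 4)) (.n 3 (.n 0 (.l 4) (.l 4)) (.l 4))) (.n 2 (.n 0 (.n 3 (.l 4) (.l 4)) (.n 3 (.l 4) (.l 4))) (.n 2 (.n 3 (.l 4) (.l 4)) (.n 3 (.n 0 (.l 4) (.l 4)) (.l 4))))))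
    [(256313917440, 880803840), (94489280512, 94489280512), (274877906944, 274877906944), (764504178688, 8589934592)] rfl (by decide +kernel)
end
mutual
theorem c1_m49_t6 : CovD 0 progs [(256313917440, 880803840), (94489280512, 94489280512), (274877906944, 274877906944), (781684047872, 8589934592)] :=
  Pool.Agent.helper14.QF.covD_F chks_eq (.n 2 (.n 2 (.n 3 (.l 4) (.l 4)) (.n 3 (.l 4) (.l 4))) (.n 2 (.n 3 (.n 0 (.l 4) (.l 4)) (.l 4)) (.n 3 (.n 1 (.l 4) (.l 4)) (.l 4))))
    [(256313917440, 880803840), (94489280512, 94489280512), (274877906944, 274877906944), (781684047872, 8589934592)] rfl (by decide +kernel)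
theorem c1_m49_t8 : CovD 0 progs [(256313917440, 880803840), (94489280512, 94489280512), (274877906944, 274877906944), (807453851648, 17179869184)] :=
  Pool.Agent.helper14.QF.covD_F chks_eq (.n 3 (.n 2 (.n 3 (.l 4) (.l 4)) (.n 3 (.n 1 (.l 4) (.l 4)) (.l 4))) (.n 2 (.l 4) (.n 0 (.l 4) (.l 4))))
    [(256313917440, 880803840), (94489280512, 94489280512), (274877906944, 274877906944), (807453851648, 17179869184)] rfl (by decide +kernel)
end
mutual
theorem c1_m49_t11 : CovD 0 progs [(258075525120, 880803840), (94489280512, 94489280512), (274877906944, 274877906944), (764504178688, 8589934592)] :=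
  Pool.Agent.helper14.QF.covD_F chks_eq (.n 3 (.n 2 (.n 1 (.n 2 (.l 4) (.l 4)) (.n 2 (.l 4) (.l 4))) (.n 2 (.n 2 (.l 4) (.n 0 (.l 4) (.l 4))) (.n 1 (.n 0 (.l 4) (.l 4)) (.n 1 (.l 4) (.n 0 (.l 4) (.l 4)))))) (.n 2 (.n 2 (.l 4) (.n 0 (.l 4) (.l 4))) (.n 1 (.n 2 (.l 4) (.l 4)) (.n 2 (.l 4) (.n 0 (.l 4) (.l 4))))))
    [(258075525120, 880803840), (94489280512, 94489280512), (274877906944, 274877906944), (764504178688, 8589934592)] rfl (by decide +kernel)
theorem c1_m49_t12 : CovD 0 progs [(258075525120, 880803840), (94489280512, 94489280512), (274877906944, 274877906944), (781684047872, 8589934592)] :=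
  Pool.Agent.helper14.QF.covD_F chks_eq (.n 2 (.n 1 (.n 3 (.l 4) (.l 4)) (.n 3 (.l 4) (.l 4))) (.n 2 (.n 3 (.l 4) (.l 4)) (.n 3 (.n 0 (.l 4) (.l 4)) (.l 4))))
    [(258075525120, 880803840), (94489280512, 94489280512), (274877906944, 274877906944), (781684047872, 8589934592)] rfl (by decide +kernel)
end
mutual
theorem c1_m49_t14 : CovD 0 progs [(258075525120, 880803840), (94489280512, 94489280512), (274877906944, 274877906944), (807453851648, 17179869184)] :=
  Pool.Agent.helper14.QF.covD_F chks_eq (.n 2 (.n 3 (.n 1 (.l 4) (.l 4)) (.l 4)) (.n 3 (.n 2 (.l 4) (.l 4)) (.l 4)))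
    [(258075525120, 880803840), (94489280512, 94489280512), (274877906944, 274877906944), (807453851648, 17179869184)] rfl (by decide +kernel)
theorem c1_m49_t16 : CovD 0 progs [(259837132800, 880803840), (94489280512, 94489280512), (274877906944, 274877906944), (773094113280, 17179869184)] :=
  Pool.Agent.helper14.QF.covD_F chks_eq (.n 3 (.n 2 (.n 2 (.n 3 (.n 0 (.l 4) (.l 4)) (.l 4)) (.n 3 (.n 0 (.l 4) (.l 4)) (.l 4))) (.n 2 (.n 3 (.n 1 (.l 4) (.l 4)) (.l 4)) (.n 1 (.n 3 (.l 4) (.l 4)) (.n 3 (.n 0 (.l 4) (.l 4)) (.l 4))))) (.n 2 (.n 3 (.n 1 (.l 4) (.l 4)) (.l 4)) (.n 1 (.n 3 (.l 4) (.l 4)) (.n 3 (.l 4) (.l 4)))))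
    [(259837132800, 880803840), (94489280512, 94489280512), (274877906944, 274877906944), (773094113280, 17179869184)] rfl (by decide +kernel)
end
mutual
theorem c1_m49_t17 : CovD 0 progs [(259837132800, 880803840), (94489280512, 94489280512), (274877906944, 274877906944), (807453851648, 17179869184)] :=
  Pool.Agent.helper14.QF.covD_F chks_eq (.n 2 (.n 3 (.l 4) (.l 4)) (.n 3 (.n 1 (.l 4) (.l 4)) (.l 4)))
    [(259837132800, 880803840), (94489280512, 94489280512), (274877906944, 274877906944), (807453851648, 17179869184)] rfl (by decide +kernel)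
theorem c1_m49_t21 : CovD 0 progs [(261598740480, 880803840), (94489280512, 94489280512), (274877906944, 274877906944), (790273982464, 34359738368)] :=
  Pool.Agent.helper14.QF.covD_F chks_eq (.n 3 (.n 3 (.n 2 (.n 2 (.n 3 (.l 4) (.l 4)) (.n 3 (.l 4) (.l 4))) (.n 2 (.n 3 (.n 0 (.l 4) (.l 4)) (.l 4)) (.n 3 (.n 1 (.l 4) (.l 4)) (.l 4)))) (.n 2 (.n 2 (.l 4) (.l 4)) (.n 3 (.n 1 (.l 4) (.l 4)) (.l 4)))) (.n 2 (.n 3 (.l 4) (.l 4)) (.n 3 (.n 0 (.l 4) (.l 4)) (.l 4))))
    [(261598740480, 880803840), (94489280512, 94489280512), (274877906944, 274877906944), (790273982464, 34359738368)] rfl (by decide +kernel)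
end
mutual
theorem c1_m49_t22 : CovD 0 progs [(263360348160, 880803840), (94489280512, 94489280512), (274877906944, 274877906944), (790273982464, 34359738368)] :=
  Pool.Agent.helper14.QF.covD_F chks_eq (.n 3 (.n 2 (.n 1 (.n 3 (.n 3 (.l 4) (.l 4)) (.l 4)) (.n 3 (.n 3 (.l 4) (.l 4)) (.l 4))) (.n 2 (.n 3 (.n 3 (.l 4) (.l 4)) (.l 4)) (.n 3 (.n 3 (.n 0 (.l 4) (.l 4)) (.l 4)) (.l 4)))) (.n 2 (.n 3 (.l 4) (.l 4)) (.n 3 (.l 4) (.l 4))))
    [(263360348160, 880803840), (94489280512, 94489280512), (274877906944, 274877906944), (790273982464, 34359738368)] rfl (by decide +kernel)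
theorem c1_m49_t24 : CovD 0 progs [(266002759680, 1761607680), (94489280512, 94489280512), (274877906944, 274877906944), (790273982464, 34359738368)] :=
  Pool.Agent.helper14.QF.covD_F chks_eq (.n 3 (.n 3 (.n 2 (.n 2 (.n 3 (.l 4) (.l 4)) (.n 3 (.l 4) (.l 4))) (.n 2 (.n 3 (.l 4) (.l 4)) (.n 3 (.n 0 (.l 4) (.l 4)) (.l 4)))) (.n 2 (.n 0 (.l 4) (.l 4)) (.n 2 (.l 4) (.n 0 (.l 4) (.l 4))))) (.n 2 (.n 3 (.l 4) (.l 4)) (.n 3 (.l 4) (.l 4))))
    [(266002759680, 1761607680), (94489280512, 94489280512), (274877906944, 274877906944), (790273982464, 34359738368)] rfl (by decide +kernel)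
end
mutual
theorem c1_m49_t27 : CovD 0 progs [(271287582720, 3523215360), (94489280512, 94489280512), (274877906944, 274877906944), (790273982464, 34359738368)] :=
  Pool.Agent.helper14.QF.covD_F chks_eq (.n 0 (.n 3 (.n 3 (.n 2 (.n 3 (.l 4) (.l 4)) (.n 3 (.n 1 (.l 4) (.l 4)) (.l 4))) (.n 2 (.l 4) (.n 0 (.l 4) (.l 4)))) (.n 3 (.n 1 (.l 4) (.l 4)) (.l 8))) (.n 3 (.n 2 (.n 3 (.n 0 (.l 4) (.l 4)) (.l 4)) (.n 3 (.n 1 (.l 4) (.l 4)) (.l 4))) (.n 2 (.l 4) (.n 2 (.l 4) (.l 4)))))
    [(271287582720, 3523215360), (94489280512, 94489280512), (274877906944, 274877906944), (790273982464, 34359738368)] rfl (by decide +kernel)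
theorem c1_m49_t28 : CovD 0 progs [(278334013440, 3523215360), (94489280512, 94489280512), (274877906944, 274877906944), (790273982464, 34359738368)] :=
  Pool.Agent.helper14.QF.covD_F chks_eq (.n 3 (.n 2 (.n 3 (.n 0 (.l 4) (.l 4)) (.l 4)) (.n 3 (.n 0 (.l 4) (.l 4)) (.l 4))) (.n 3 (.n 0 (.l 8) (.l 8)) (.l 8)))
    [(278334013440, 3523215360), (94489280512, 94489280512), (274877906944, 274877906944), (790273982464, 34359738368)] rfl (by decide +kernel)
end
theorem c1_m49_t2 : CovD 0 progs [(254552309760, 880803840), (94489280512, 94489280512), (274877906944, 274877906944), (773094113280, 17179869184)] :=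
  covD_split 3 (by decide +kernel) c1_m49_t0 c1_m49_t1
theorem c1_m49_t4 : CovD 0 progs [(254552309760, 880803840), (94489280512, 94489280512), (274877906944, 274877906944), (790273982464, 34359738368)] :=
  covD_split 3 (by decide +kernel) c1_m49_t2 c1_m49_t3
theorem c1_m49_t7 : CovD 0 progs [(256313917440, 880803840), (94489280512, 94489280512), (274877906944, 274877906944), (773094113280, 17179869184)] :=
  covD_split 3 (by decide +kernel) c1_m49_t5 c1_m49_t6
theorem c1_m49_t9 : CovD 0 progs [(256313917440, 880803840), (94489280512, 94489280512), (274877906944, 274877906944), (790273982464, 34359738368)] :=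
  covD_split 3 (by decide +kernel) c1_m49_t7 c1_m49_t8
theorem c1_m49_t10 : CovD 0 progs [(255433113600, 1761607680), (94489280512, 94489280512), (274877906944, 274877906944), (790273982464, 34359738368)] :=
  covD_split 0 (by decide +kernel) c1_m49_t4 c1_m49_t9
theorem c1_m49_t13 : CovD 0 progs [(258075525120, 880803840), (94489280512, 94489280512), (274877906944, 274877906944), (773094113280, 17179869184)] :=
  covD_split 3 (by decide +kernel) c1_m49_t11 c1_m49_t12
theorem c1_m49_t15 : CovD 0 progs [(258075525120, 880803840), (94489280512, 94489280512), (274877906944, 274877906944), (790273982464, 34359738368)] :=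
  covD_split 3 (by decide +kernel) c1_m49_t13 c1_m49_t14
theorem c1_m49_t18 : CovD 0 progs [(259837132800, 880803840), (94489280512, 94489280512), (274877906944, 274877906944), (790273982464, 34359738368)] :=
  covD_split 3 (by decide +kernel) c1_m49_t16 c1_m49_t17
theorem c1_m49_t19 : CovD 0 progs [(258956328960, 1761607680), (94489280512, 94489280512), (274877906944, 274877906944), (790273982464, 34359738368)] :=
  covD_split 0 (by decide +kernel) c1_m49_t15 c1_m49_t18
theorem c1_m49_t20 : CovD 0 progs [(257194721280, 3523215360), (94489280512, 94489280512), (274877906944, 274877906944), (790273982464, 34359738368)] :=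
  covD_split 0 (by decide +kernel) c1_m49_t10 c1_m49_t19
theorem c1_m49_t23 : CovD 0 progs [(262479544320, 1761607680), (94489280512, 94489280512), (274877906944, 274877906944), (790273982464, 34359738368)] :=
  covD_split 0 (by decide +kernel) c1_m49_t21 c1_m49_t22
theorem c1_m49_t25 : CovD 0 progs [(264241152000, 3523215360), (94489280512, 94489280512), (274877906944, 274877906944), (790273982464, 34359738368)] :=
  covD_split 0 (by decide +kernel) c1_m49_t23 c1_m49_t24
theorem c1_m49_t26 : CovD 0 progs [(260717936640, 7046430720), (94489280512, 94489280512), (274877906944, 274877906944), (790273982464, 34359738368)] :=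
  covD_split 0 (by decide +kernel) c1_m49_t20 c1_m49_t25
theorem c1_m49_t29 : CovD 0 progs [(274810798080, 7046430720), (94489280512, 94489280512), (274877906944, 274877906944), (790273982464, 34359738368)] :=
  covD_split 0 (by decide +kernel) c1_m49_t27 c1_m49_t28
theorem c1_m49 : CovD 0 progs [(267764367360, 14092861440), (94489280512, 94489280512), (274877906944, 274877906944), (790273982464, 34359738368)] :=
  covD_split 0 (by decide +kernel) c1_m49_t26 c1_m49_t29

end Pool.Agent.helper71.FJ.Crt.QMa
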