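import Pool.Agent.helper71.FJ.Crt.QMaP

/-!
Generated certificates.
-/

namespace Pool.Agent.helper71.FJ.Crt.QMa

open Pool.Agent.helper31.IA (Z Op)
open Pool.Agent.helper31.IC

mutual
theorem c1_m5_t0 : CovD 0 progs [(288903659520, 7046430720), (94489280512, 94489280512), (274877906944, 274877906944), (429496729600, 17179869184)] :=
  Pool.Agent.helper14.QF.covD_F chks_eq (.n 0 (.n 0 (.l 8) (.n 0 (.l 8) (.l 8))) (.n 0 (.n 1 (.l 8) (.l 8)) (.n 2 (.l 4) (.l 4))))
    [(288903659520, 7046430720), (94489280512, 94489280512), (274877906944, 274877906944), (429496729600, 17179869184)] rfl (by decide +kernel)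
theorem c1_m5_t1 : CovD 0 progs [(299473305600, 3523215360), (94489280512, 94489280512), (274877906944, 274877906944), (429496729600, 17179869184)] :=
  Pool.Agent.helper14.QF.covD_F chks_eq (.n 0 (.n 2 (.l 4) (.n 0 (.l 4) (.l 4))) (.n 2 (.n 2 (.l 4) (.l 4)) (.n 0 (.n 0 (.l 4) (.l 4)) (.n 1 (.l 4) (.l 4)))))
    [(299473305600, 3523215360), (94489280512, 94489280512), (274877906944, 274877906944), (429496729600, 17179869184)] rfl (by decide +kernel)
end
mutual
theorem c1_m5_t2 : CovD 0 progs [(306519736320, 3523215360), (94489280512, 94489280512), (274877906944, 274877906944), (429496729600, 17179869184)] :=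
  Pool.Agent.helper14.QF.covD_F chks_eq (.n 3 (.n 0 (.n 1 (.n 2 (.l 4) (.l 4)) (.n 2 (.l 4) (.l 4))) (.n 2 (.n 2 (.l 4) (.l 4)) (.n 0 (.n 1 (.l 4) (.l 4)) (.n 1 (.l 4) (.l 4))))) (.n 0 (.n 2 (.n 2 (.l 4) (.l 4)) (.n 2 (.l 4) (.n 0 (.l 4) (.l 4)))) (.n 0 (.n 2 (.n 1 (.l 4) (.l 4)) (.n 2 (.l 4) (.l 4))) (.n 2 (.n 2 (.l 4) (.l 4)) (.n 2 (.l 4) (.n 1 (.l 4) (.l 4)))))))
    [(306519736320, 3523215360), (94489280512, 94489280512), (274877906944, 274877906944), (429496729600, 17179869184)] rfl (by decide +kernel)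
theorem c1_m5_t5 : CovD 0 progs [(295950090240, 14092861440), (94489280512, 94489280512), (137438953472, 137438953472), (455266533376, 8589934592)] :=
  Pool.Agent.helper14.QF.covD_F chks_eq (.n 2 (.n 0 (.n 0 (.l 4) (.l 4)) (.n 0 (.n 0 (.l 4) (.l 4)) (.n 0 (.n 0 (.l 4) (.l 4)) (.n 0 (.l 4) (.l 4))))) (.n 0 (.n 0 (.l 4) (.l 4)) (.n 0 (.n 0 (.l 4) (.l 4)) (.n 0 (.n 0 (.l 4) (.l 4)) (.n 0 (.l 4) (.n 0 (.l 4) (.l 4)))))))
    [(295950090240, 14092861440), (94489280512, 94489280512), (137438953472, 137438953472), (455266533376, 8589934592)] rfl (by decide +kernel)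
end
mutual
theorem c1_m5_t6 : CovD 0 progs [(295950090240, 14092861440), (94489280512, 94489280512), (412316860416, 137438953472), (455266533376, 8589934592)] :=
  Pool.Agent.helper14.QF.covD_F chks_eq (.n 0 (.n 0 (.l 4) (.n 0 (.l 4) (.l 4))) (.n 0 (.n 0 (.n 0 (.l 4) (.l 4)) (.n 1 (.l 4) (.n 0 (.l 4) (.l 4)))) (.n 0 (.n 0 (.n 1 (.l 4) (.l 4)) (.n 1 (.l 4) (.n 1 (.l 4) (.l 4)))) (.n 0 (.n 2 (.l 4) (.n 1 (.l 4) (.l 4))) (.n 1 (.n 1 (.l 4) (.l 4)) (.n 2 (.l 4) (.n 0 (.l 4) (.l 4))))))))
    [(295950090240, 14092861440), (94489280512, 94489280512), (412316860416, 137438953472), (455266533376, 8589934592)] rfl (by decide +kernel)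
theorem c1_m5_t8 : CovD 0 progs [(288903659520, 7046430720), (94489280512, 94489280512), (274877906944, 274877906944), (472446402560, 8589934592)] :=
  Pool.Agent.helper14.QF.covD_F chks_eq (.n 0 (.n 2 (.l 4) (.n 0 (.l 4) (.l 4))) (.n 0 (.n 2 (.l 4) (.l 4)) (.n 2 (.l 4) (.n 0 (.l 4) (.l 4)))))
    [(288903659520, 7046430720), (94489280512, 94489280512), (274877906944, 274877906944), (472446402560, 8589934592)] rfl (by decide +kernel)
end
mutual
theorem c1_m5_t9 : CovD 0 progs [(299473305600, 3523215360), (94489280512, 94489280512), (274877906944, 274877906944), (472446402560, 8589934592)] :=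
  Pool.Agent.helper14.QF.covD_F chks_eq (.n 0 (.n 2 (.n 0 (.l 4) (.l 4)) (.n 2 (.l 4) (.l 4))) (.n 0 (.n 1 (.n 2 (.l 4) (.l 4)) (.n 2 (.l 4) (.l 4))) (.n 2 (.n 1 (.l 4) (.l 4)) (.n 2 (.l 4) (.l 4)))))
    [(299473305600, 3523215360), (94489280512, 94489280512), (274877906944, 274877906944), (472446402560, 8589934592)] rfl (by decide +kernel)
theorem c1_m5_t10 : CovD 0 progs [(304758128640, 1761607680), (94489280512, 94489280512), (274877906944, 274877906944), (472446402560, 8589934592)] :=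
  Pool.Agent.helper14.QF.covD_F chks_eq (.n 0 (.n 2 (.n 2 (.l 4) (.l 4)) (.n 2 (.l 4) (.n 1 (.l 4) (.l 4)))) (.n 2 (.n 2 (.l 4) (.l 4)) (.n 1 (.n 1 (.l 4) (.l 4)) (.n 2 (.l 4) (.l 4)))))
    [(304758128640, 1761607680), (94489280512, 94489280512), (274877906944, 274877906944), (472446402560, 8589934592)] rfl (by decide +kernel)
theorem c1_m5_t11 : CovD 0 progs [(308281344000, 1761607680), (94489280512, 94489280512), (274877906944, 274877906944), (472446402560, 8589934592)] :=
  Pool.Agent.helper14.QF.covD_F chks_eq (.n 0 (.n 1 (.n 2 (.n 2 (.l 4) (.l 4)) (.n 2 (.l 4) (.l 4))) (.n 2 (.n 2 (.l 4) (.l 4)) (.n 2 (.l 4) (.n 0 (.l 4) (.l 4))))) (.n 1 (.n 2 (.n 2 (.l 4) (.l 4)) (.n 2 (.l 4) (.n 0 (.l 4) (.l 4)))) (.n 2 (.n 2 (.l 4) (.l 4)) (.n 1 (.n 2 (.l 4) (.l 4)) (.n 2 (.l 4) (.l 4))))))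
    [(308281344000, 1761607680), (94489280512, 94489280512), (274877906944, 274877906944), (472446402560, 8589934592)] rfl (by decide +kernel)
end
theorem c1_m5_t3 : CovD 0 progs [(302996520960, 7046430720), (94489280512, 94489280512), (274877906944, 274877906944), (429496729600, 17179869184)] :=
  covD_split 0 (by decide +kernel) c1_m5_t1 c1_m5_t2
theorem c1_m5_t4 : CovD 0 progs [(295950090240, 14092861440), (94489280512, 94489280512), (274877906944, 274877906944), (429496729600, 17179869184)] :=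
  covD_split 0 (by decide +kernel) c1_m5_t0 c1_m5_t3
theorem c1_m5_t7 : CovD 0 progs [(295950090240, 14092861440), (94489280512, 94489280512), (274877906944, 274877906944), (455266533376, 8589934592)] :=
  covD_split 2 (by decide +kernel) c1_m5_t5 c1_m5_t6
theorem c1_m5_t12 : CovD 0 progs [(306519736320, 3523215360), (94489280512, 94489280512), (274877906944, 274877906944), (472446402560, 8589934592)] :=
  covD_split 0 (by decide +kernel) c1_m5_t10 c1_m5_t11
theorem c1_m5_t13 : CovD 0 progs [(302996520960, 7046430720), (94489280512, 94489280512), (274877906944, 274877906944), (472446402560, 8589934592)] :=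
  covD_split 0 (by decide +kernel) c1_m5_t9 c1_m5_t12
theorem c1_m5_t14 : CovD 0 progs [(295950090240, 14092861440), (94489280512, 94489280512), (274877906944, 274877906944), (472446402560, 8589934592)] :=
  covD_split 0 (by decide +kernel) c1_m5_t8 c1_m5_t13
theorem c1_m5_t15 : CovD 0 progs [(295950090240, 14092861440), (94489280512, 94489280512), (274877906944, 274877906944), (463856467968, 17179869184)] :=
  covD_split 3 (by decide +kernel) c1_m5_t7 c1_m5_t14
theorem c1_m5 : CovD 0 progs [(295950090240, 14092861440), (94489280512, 94489280512), (274877906944, 274877906944), (446676598784, 34359738368)] :=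
  covD_split 3 (by decide +kernel) c1_m5_t4 c1_m5_t15

end Pool.Agent.helper71.FJ.Crt.QMa
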