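import Pool.Agent.helper71.FJ.Crt.QMaP

/-!
Generated certificates.
-/

namespace Pool.Agent.helper71.FJ.Crt.QMa

open Pool.Agent.helper31.IA (Z Op)
open Pool.Agent.helper31.IC

mutual
theorem c1_m50_t0 : CovD 0 progs [(239578644480, 14092861440), (94489280512, 94489280512), (68719476736, 68719476736), (826781204480, 2147483648)] :=
  Pool.Agent.helper14.QF.covD_F chks_eq (.n 3 (.n 0 (.n 0 (.n 0 (.n 0 (.l 4) (.n 0 (.l 4) (.l 4))) (.n 0 (.l 4) (.l 4))) (.n 0 (.n 0 (.l 4) (.l 4)) (.n 0 (.l 4) (.l 4)))) (.n 0 (.n 0 (.l 4) (.l 4)) (.l 4))) (.n 0 (.n 0 (.n 0 (.n 0 (.n 0 (.l 4) (.l 4)) (.n 0 (.l 4) (.l 4))) (.n 0 (.l 4) (.l 4))) (.n 0 (.n 0 (.l 4) (.l 4)) (.l 4))) (.n 0 (.n 0 (.l 4) (.l 4)) (.l 4))))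
    [(239578644480, 14092861440), (94489280512, 94489280512), (68719476736, 68719476736), (826781204480, 2147483648)] rfl (by decide +kernel)
theorem c1_m50_t1 : CovD 0 progs [(239578644480, 14092861440), (94489280512, 94489280512), (68719476736, 68719476736), (831076171776, 2147483648)] :=
  Pool.Agent.helper14.QF.covD_F chks_eq (.n 0 (.n 0 (.n 0 (.n 0 (.n 0 (.l 4) (.l 4)) (.n 0 (.l 4) (.l 4))) (.n 0 (.l 4) (.n 0 (.l 4) (.l 4)))) (.n 0 (.n 0 (.n 0 (.l 4) (.l 4)) (.l 4)) (.n 0 (.l 4) (.l 4)))) (.n 0 (.n 0 (.l 4) (.l 4)) (.l 4)))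
    [(239578644480, 14092861440), (94489280512, 94489280512), (68719476736, 68719476736), (831076171776, 2147483648)] rfl (by decide +kernel)
end
mutual
theorem c1_m50_t3 : CovD 0 progs [(239578644480, 14092861440), (94489280512, 94489280512), (68719476736, 68719476736), (835371139072, 2147483648)] :=
  Pool.Agent.helper14.QF.covD_F chks_eq (.n 0 (.n 0 (.n 0 (.n 1 (.l 4) (.l 4)) (.n 0 (.n 0 (.l 4) (.l 4)) (.n 0 (.l 4) (.l 4)))) (.n 0 (.n 0 (.l 4) (.l 4)) (.l 4))) (.n 0 (.n 0 (.l 4) (.l 4)) (.l 4)))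
    [(239578644480, 14092861440), (94489280512, 94489280512), (68719476736, 68719476736), (835371139072, 2147483648)] rfl (by decide +kernel)
theorem c1_m50_t4 : CovD 0 progs [(239578644480, 14092861440), (94489280512, 94489280512), (68719476736, 68719476736), (839666106368, 2147483648)] :=
  Pool.Agent.helper14.QF.covD_F chks_eq (.n 2 (.n 0 (.n 0 (.n 0 (.n 0 (.l 4) (.l 4)) (.n 0 (.l 4) (.l 4))) (.n 0 (.l 4) (.l 4))) (.n 0 (.l 4) (.l 4))) (.n 0 (.n 0 (.n 0 (.n 0 (.l 4) (.l 4)) (.n 0 (.l 4) (.l 4))) (.n 0 (.l 4) (.l 4))) (.n 0 (.l 4) (.l 4))))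
    [(239578644480, 14092861440), (94489280512, 94489280512), (68719476736, 68719476736), (839666106368, 2147483648)] rfl (by decide +kernel)
end
mutual
theorem c1_m50_t7 : CovD 0 progs [(239578644480, 14092861440), (94489280512, 94489280512), (68719476736, 68719476736), (843961073664, 2147483648)] :=
  Pool.Agent.helper14.QF.covD_F chks_eq (.n 3 (.n 0 (.n 0 (.n 0 (.n 0 (.l 4) (.l 4)) (.n 0 (.l 4) (.l 4))) (.n 0 (.l 4) (.l 4))) (.n 0 (.l 4) (.l 4))) (.n 0 (.n 0 (.n 0 (.n 0 (.l 4) (.l 4)) (.n 0 (.l 4) (.l 4))) (.n 0 (.l 4) (.l 4))) (.n 0 (.l 4) (.l 4))))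
    [(239578644480, 14092861440), (94489280512, 94489280512), (68719476736, 68719476736), (843961073664, 2147483648)] rfl (by decide +kernel)
theorem c1_m50_t8 : CovD 0 progs [(239578644480, 14092861440), (94489280512, 94489280512), (68719476736, 68719476736), (848256040960, 2147483648)] :=
  Pool.Agent.helper14.QF.covD_F chks_eq (.n 0 (.n 0 (.n 0 (.n 0 (.n 0 (.l 4) (.l 4)) (.l 4)) (.n 0 (.l 4) (.l 4))) (.n 0 (.l 4) (.l 4))) (.n 0 (.l 4) (.l 4)))
    [(239578644480, 14092861440), (94489280512, 94489280512), (68719476736, 68719476736), (848256040960, 2147483648)] rfl (by decide +kernel)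
end
mutual
theorem c1_m50_t10 : CovD 0 progs [(239578644480, 14092861440), (94489280512, 94489280512), (68719476736, 68719476736), (854698491904, 4294967296)] :=
  Pool.Agent.helper14.QF.covD_F chks_eq (.n 3 (.n 0 (.n 0 (.n 0 (.n 0 (.l 4) (.l 4)) (.l 4)) (.n 0 (.l 4) (.l 4))) (.n 0 (.l 4) (.l 4))) (.n 3 (.n 0 (.n 0 (.n 0 (.n 0 (.l 4) (.l 4)) (.l 4)) (.l 4)) (.n 0 (.l 4) (.l 4))) (.n 0 (.n 0 (.n 0 (.l 4) (.l 4)) (.l 4)) (.n 0 (.l 4) (.l 4)))))
    [(239578644480, 14092861440), (94489280512, 94489280512), (68719476736, 68719476736), (854698491904, 4294967296)] rfl (by decide +kernel)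
theorem c1_m50_t13 : CovD 0 progs [(239578644480, 14092861440), (94489280512, 94489280512), (68719476736, 68719476736), (876173328384, 17179869184)] :=
  Pool.Agent.helper14.QF.covD_F chks_eq (.n 3 (.n 3 (.n 3 (.n 0 (.n 0 (.n 0 (.n 0 (.l 4) (.l 4)) (.l 4)) (.l 4)) (.n 0 (.l 4) (.l 4))) (.n 0 (.n 0 (.n 0 (.l 4) (.l 4)) (.l 4)) (.l 4))) (.n 0 (.n 0 (.n 0 (.n 0 (.l 4) (.l 4)) (.l 4)) (.l 4)) (.n 0 (.l 4) (.l 4)))) (.n 3 (.n 0 (.n 0 (.n 0 (.l 4) (.l 4)) (.l 4)) (.l 4)) (.n 0 (.n 0 (.l 4) (.l 4)) (.l 4))))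
    [(239578644480, 14092861440), (94489280512, 94489280512), (68719476736, 68719476736), (876173328384, 17179869184)] rfl (by decide +kernel)
end
mutual
theorem c1_m50_t15 : CovD 0 progs [(239578644480, 14092861440), (94489280512, 94489280512), (206158430208, 68719476736), (826781204480, 2147483648)] :=
  Pool.Agent.helper14.QF.covD_F chks_eq (.n 0 (.n 0 (.n 0 (.n 0 (.n 2 (.l 4) (.l 4)) (.n 1 (.l 4) (.l 4))) (.n 1 (.l 4) (.l 4))) (.n 0 (.n 0 (.n 0 (.l 4) (.l 4)) (.n 0 (.l 4) (.l 4))) (.n 0 (.l 4) (.l 4)))) (.n 0 (.n 0 (.l 4) (.l 4)) (.l 4)))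
    [(239578644480, 14092861440), (94489280512, 94489280512), (206158430208, 68719476736), (826781204480, 2147483648)] rfl (by decide +kernel)
theorem c1_m50_t16 : CovD 0 progs [(239578644480, 14092861440), (94489280512, 94489280512), (206158430208, 68719476736), (831076171776, 2147483648)] :=
  Pool.Agent.helper14.QF.covD_F chks_eq (.n 0 (.n 0 (.n 0 (.n 0 (.n 2 (.l 4) (.l 4)) (.n 1 (.l 4) (.l 4))) (.n 0 (.n 0 (.l 4) (.l 4)) (.n 0 (.l 4) (.l 4)))) (.n 0 (.n 0 (.n 0 (.l 4) (.l 4)) (.l 4)) (.n 0 (.l 4) (.l 4)))) (.n 0 (.n 0 (.l 4) (.l 4)) (.l 4)))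
    [(239578644480, 14092861440), (94489280512, 94489280512), (206158430208, 68719476736), (831076171776, 2147483648)] rfl (by decide +kernel)
end
mutual
theorem c1_m50_t18 : CovD 0 progs [(239578644480, 14092861440), (94489280512, 94489280512), (206158430208, 68719476736), (835371139072, 2147483648)] :=
  Pool.Agent.helper14.QF.covD_F chks_eq (.n 0 (.n 0 (.n 0 (.n 2 (.l 4) (.l 4)) (.n 0 (.n 0 (.l 4) (.l 4)) (.n 0 (.l 4) (.l 4)))) (.n 0 (.n 0 (.l 4) (.l 4)) (.l 4))) (.n 0 (.n 0 (.l 4) (.l 4)) (.l 4)))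
    [(239578644480, 14092861440), (94489280512, 94489280512), (206158430208, 68719476736), (835371139072, 2147483648)] rfl (by decide +kernel)
theorem c1_m50_t19 : CovD 0 progs [(239578644480, 14092861440), (94489280512, 94489280512), (206158430208, 68719476736), (839666106368, 2147483648)] :=
  Pool.Agent.helper14.QF.covD_F chks_eq (.n 2 (.n 0 (.n 0 (.n 0 (.n 0 (.l 4) (.l 4)) (.n 0 (.l 4) (.l 4))) (.n 0 (.l 4) (.l 4))) (.n 0 (.l 4) (.l 4))) (.n 0 (.n 0 (.n 0 (.n 0 (.l 4) (.l 4)) (.n 0 (.l 4) (.l 4))) (.n 0 (.l 4) (.l 4))) (.n 0 (.l 4) (.l 4))))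
    [(239578644480, 14092861440), (94489280512, 94489280512), (206158430208, 68719476736), (839666106368, 2147483648)] rfl (by decide +kernel)
end
mutual
theorem c1_m50_t22 : CovD 0 progs [(239578644480, 14092861440), (94489280512, 94489280512), (206158430208, 68719476736), (843961073664, 2147483648)] :=
  Pool.Agent.helper14.QF.covD_F chks_eq (.n 3 (.n 0 (.n 0 (.n 0 (.n 0 (.l 4) (.l 4)) (.n 0 (.l 4) (.l 4))) (.n 0 (.l 4) (.l 4))) (.n 0 (.l 4) (.l 4))) (.n 0 (.n 0 (.n 0 (.n 0 (.l 4) (.l 4)) (.n 0 (.l 4) (.l 4))) (.n 0 (.l 4) (.l 4))) (.n 0 (.l 4) (.l 4))))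
    [(239578644480, 14092861440), (94489280512, 94489280512), (206158430208, 68719476736), (843961073664, 2147483648)] rfl (by decide +kernel)
theorem c1_m50_t23 : CovD 0 progs [(239578644480, 14092861440), (94489280512, 94489280512), (206158430208, 68719476736), (848256040960, 2147483648)] :=
  Pool.Agent.helper14.QF.covD_F chks_eq (.n 0 (.n 0 (.n 0 (.n 0 (.n 0 (.l 4) (.l 4)) (.n 0 (.l 4) (.l 4))) (.n 0 (.l 4) (.l 4))) (.n 0 (.l 4) (.l 4))) (.n 0 (.l 4) (.l 4)))
    [(239578644480, 14092861440), (94489280512, 94489280512), (206158430208, 68719476736), (848256040960, 2147483648)] rfl (by decide +kernel)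
end
mutual
theorem c1_m50_t25 : CovD 0 progs [(239578644480, 14092861440), (94489280512, 94489280512), (206158430208, 68719476736), (852551008256, 2147483648)] :=
  Pool.Agent.helper14.QF.covD_F chks_eq (.n 3 (.n 0 (.n 0 (.n 0 (.n 0 (.l 4) (.l 4)) (.l 4)) (.n 0 (.l 4) (.l 4))) (.n 0 (.l 4) (.l 4))) (.n 0 (.n 0 (.n 0 (.n 0 (.l 4) (.l 4)) (.l 4)) (.n 0 (.l 4) (.l 4))) (.n 0 (.l 4) (.l 4))))
    [(239578644480, 14092861440), (94489280512, 94489280512), (206158430208, 68719476736), (852551008256, 2147483648)] rfl (by decide +kernel)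
theorem c1_m50_t26 : CovD 0 progs [(239578644480, 14092861440), (94489280512, 94489280512), (206158430208, 68719476736), (856845975552, 2147483648)] :=
  Pool.Agent.helper14.QF.covD_F chks_eq (.n 3 (.n 0 (.n 0 (.n 0 (.n 0 (.l 4) (.l 4)) (.l 4)) (.l 4)) (.n 0 (.l 4) (.l 4))) (.n 0 (.n 0 (.n 0 (.l 4) (.l 4)) (.l 4)) (.n 0 (.l 4) (.l 4))))
    [(239578644480, 14092861440), (94489280512, 94489280512), (206158430208, 68719476736), (856845975552, 2147483648)] rfl (by decide +kernel)
end
mutual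
theorem c1_m50_t30 : CovD 0 progs [(239578644480, 14092861440), (94489280512, 94489280512), (206158430208, 68719476736), (876173328384, 17179869184)] :=
  Pool.Agent.helper14.QF.covD_F chks_eq (.n 3 (.n 3 (.n 3 (.n 0 (.n 0 (.n 0 (.n 0 (.l 4) (.l 4)) (.l 4)) (.l 4)) (.n 0 (.l 4) (.l 4))) (.n 0 (.n 0 (.n 0 (.l 4) (.l 4)) (.l 4)) (.n 0 (.l 4) (.l 4)))) (.n 0 (.n 0 (.n 0 (.n 0 (.l 4) (.l 4)) (.l 4)) (.l 4)) (.n 0 (.l 4) (.l 4)))) (.n 0 (.n 0 (.n 3 (.n 0 (.l 4) (.l 4)) (.l 4)) (.n 0 (.l 4) (.l 4))) (.n 0 (.l 4) (.l 4))))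
    [(239578644480, 14092861440), (94489280512, 94489280512), (206158430208, 68719476736), (876173328384, 17179869184)] rfl (by decide +kernel)
theorem c1_m50_t33 : CovD 0 progs [(226366586880, 880803840), (94489280512, 94489280512), (412316860416, 137438953472), (858993459200, 34359738368)] :=
  Pool.Agent.helper14.QF.covD_F chks_eq (.n 2 (.n 1 (.l 6) (.n 1 (.l 6) (.n 2 (.n 2 (.n 1 (.l 6) (.n 3 (.n 3 (.n 3 (.n 0 (.l 4) (.l 4)) (.l 4)) (.n 0 (.l 6) (.n 3 (.l 4) (.l 4)))) (.l 6))) (.l 6)) (.l 6)))) (.l 6))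
    [(226366586880, 880803840), (94489280512, 94489280512), (412316860416, 137438953472), (858993459200, 34359738368)] rfl (by decide +kernel)
end
mutual
theorem c1_m50_t34 : CovD 0 progs [(228128194560, 880803840), (94489280512, 94489280512), (412316860416, 137438953472), (858993459200, 34359738368)] :=
  Pool.Agent.helper14.QF.covD_F chks_eq (.n 2 (.n 1 (.l 6) (.n 2 (.n 1 (.l 6) (.n 3 (.n 3 (.n 3 (.n 0 (.l 4) (.l 4)) (.l 4)) (.n 3 (.n 0 (.l 4) (.l 4)) (.l 4))) (.n 3 (.n 3 (.l 4) (.l 4)) (.l 4)))) (.l 6))) (.l 6))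
    [(228128194560, 880803840), (94489280512, 94489280512), (412316860416, 137438953472), (858993459200, 34359738368)] rfl (by decide +kernel)
theorem c1_m50_t36 : CovD 0 progs [(229889802240, 880803840), (94489280512, 94489280512), (412316860416, 137438953472), (858993459200, 34359738368)] :=
  Pool.Agent.helper14.QF.covD_F chks_eq (.n 2 (.n 1 (.l 6) (.n 2 (.n 3 (.n 3 (.n 3 (.l 4) (.n 0 (.l 4) (.l 4))) (.n 3 (.n 0 (.l 4) (.l 4)) (.l 4))) (.n 3 (.n 3 (.l 4) (.l 4)) (.l 4))) (.l 6))) (.l 6))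
    [(229889802240, 880803840), (94489280512, 94489280512), (412316860416, 137438953472), (858993459200, 34359738368)] rfl (by decide +kernel)
end
mutual
theorem c1_m50_t37 : CovD 0 progs [(231651409920, 880803840), (94489280512, 94489280512), (412316860416, 137438953472), (858993459200, 34359738368)] :=
  Pool.Agent.helper14.QF.covD_F chks_eq (.n 2 (.n 2 (.n 1 (.l 6) (.n 3 (.n 3 (.n 3 (.l 4) (.n 0 (.l 4) (.l 4))) (.n 3 (.l 4) (.l 4))) (.n 3 (.n 0 (.l 4) (.l 4)) (.l 4)))) (.n 1 (.l 6) (.n 1 (.l 6) (.n 3 (.n 3 (.n 3 (.l 4) (.l 6)) (.l 6)) (.l 6))))) (.l 6))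
    [(231651409920, 880803840), (94489280512, 94489280512), (412316860416, 137438953472), (858993459200, 34359738368)] rfl (by decide +kernel)
theorem c1_m50_t40 : CovD 0 progs [(236055429120, 3523215360), (94489280512, 94489280512), (343597383680, 68719476736), (833223655424, 8589934592)] :=
  Pool.Agent.helper14.QF.covD_F chks_eq (.n 3 (.n 0 (.n 0 (.n 1 (.n 2 (.l 6) (.l 6)) (.n 3 (.l 4) (.l 4))) (.n 1 (.n 3 (.l 4) (.l 4)) (.n 3 (.l 4) (.l 4)))) (.n 0 (.n 3 (.n 0 (.l 4) (.l 4)) (.l 4)) (.n 1 (.l 4) (.l 4)))) (.n 3 (.n 0 (.n 0 (.n 0 (.l 4) (.l 4)) (.l 4)) (.n 0 (.l 4) (.l 4))) (.n 0 (.n 0 (.l 4) (.l 4)) (.l 4))))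
    [(236055429120, 3523215360), (94489280512, 94489280512), (343597383680, 68719476736), (833223655424, 8589934592)] rfl (by decide +kernel)
end
mutual
theorem c1_m50_t41 : CovD 0 progs [(236055429120, 3523215360), (94489280512, 94489280512), (343597383680, 68719476736), (850403524608, 8589934592)] :=
  Pool.Agent.helper14.QF.covD_F chks_eq (.n 0 (.n 0 (.n 1 (.l 6) (.n 3 (.l 4) (.l 4))) (.n 3 (.l 4) (.l 4))) (.n 3 (.n 0 (.l 4) (.l 4)) (.l 4)))
    [(236055429120, 3523215360), (94489280512, 94489280512), (343597383680, 68719476736), (850403524608, 8589934592)] rfl (by decide +kernel)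
theorem c1_m50_t43 : CovD 0 progs [(236055429120, 3523215360), (94489280512, 94489280512), (481036337152, 68719476736), (841813590016, 17179869184)] :=
  Pool.Agent.helper14.QF.covD_F chks_eq (.n 1 (.l 6) (.n 2 (.l 6) (.l 6)))
    [(236055429120, 3523215360), (94489280512, 94489280512), (481036337152, 68719476736), (841813590016, 17179869184)] rfl (by decide +kernel)
end
mutual
theorem c1_m50_t45 : CovD 0 progs [(236055429120, 3523215360), (94489280512, 94489280512), (412316860416, 137438953472), (876173328384, 17179869184)] :=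
  Pool.Agent.helper14.QF.covD_F chks_eq (.n 0 (.n 2 (.n 3 (.n 3 (.l 4) (.l 4)) (.l 4)) (.l 6)) (.n 3 (.n 3 (.l 4) (.l 4)) (.l 4)))
    [(236055429120, 3523215360), (94489280512, 94489280512), (412316860416, 137438953472), (876173328384, 17179869184)] rfl (by decide +kernel)
theorem c1_m50_t48 : CovD 0 progs [(243101859840, 3523215360), (94489280512, 94489280512), (412316860416, 137438953472), (858993459200, 34359738368)] :=
  Pool.Agent.helper14.QF.covD_F chks_eq (.n 3 (.n 0 (.n 3 (.n 2 (.n 3 (.n 0 (.l 4) (.l 4)) (.l 4)) (.n 0 (.n 1 (.l 6) (.n 3 (.l 4) (.l 4))) (.n 3 (.l 4) (.l 4)))) (.n 3 (.n 0 (.l 4) (.l 4)) (.l 4))) (.n 2 (.n 3 (.n 3 (.l 4) (.l 4)) (.l 4)) (.n 1 (.l 6) (.n 3 (.n 3 (.l 4) (.l 4)) (.l 4))))) (.n 3 (.n 3 (.l 4) (.l 4)) (.l 4)))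
    [(243101859840, 3523215360), (94489280512, 94489280512), (412316860416, 137438953472), (858993459200, 34359738368)] rfl (by decide +kernel)
end
mutual
theorem c1_m50_t49 : CovD 0 progs [(250148290560, 3523215360), (94489280512, 94489280512), (412316860416, 137438953472), (858993459200, 34359738368)] :=
  Pool.Agent.helper14.QF.covD_F chks_eq (.n 3 (.n 0 (.n 3 (.n 3 (.n 0 (.l 4) (.l 4)) (.l 4)) (.l 4)) (.n 3 (.n 0 (.l 4) (.l 4)) (.l 4))) (.n 3 (.l 4) (.l 4)))
    [(250148290560, 3523215360), (94489280512, 94489280512), (412316860416, 137438953472), (858993459200, 34359738368)] rfl (by decide +kernel)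
theorem c1_m50_t53 : CovD 0 progs [(239578644480, 14092861440), (94489280512, 94489280512), (274877906944, 274877906944), (927712935936, 34359738368)] :=
  Pool.Agent.helper14.QF.covD_F chks_eq (.n 3 (.n 0 (.n 3 (.n 0 (.n 2 (.n 0 (.l 4) (.l 4)) (.n 3 (.l 4) (.l 4))) (.n 2 (.l 4) (.l 4))) (.n 0 (.n 0 (.l 4) (.l 4)) (.l 4))) (.n 3 (.n 0 (.l 4) (.l 4)) (.l 8))) (.n 0 (.n 3 (.n 0 (.l 4) (.l 4)) (.l 4)) (.n 0 (.l 4) (.l 8))))
    [(239578644480, 14092861440), (94489280512, 94489280512), (274877906944, 274877906944), (927712935936, 34359738368)] rfl (by decide +kernel)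
end
mutual
theorem c1_m50_t55 : CovD 0 progs [(267764367360, 14092861440), (94489280512, 94489280512), (274877906944, 274877906944), (893353197568, 68719476736)] :=
  Pool.Agent.helper14.QF.covD_F chks_eq (.n 3 (.n 3 (.n 3 (.n 0 (.n 0 (.n 0 (.n 2 (.l 4) (.l 4)) (.n 1 (.l 4) (.l 4))) (.n 0 (.l 4) (.l 8))) (.n 0 (.l 8) (.l 8))) (.n 0 (.n 0 (.n 1 (.l 4) (.l 4)) (.l 8)) (.l 8))) (.n 0 (.n 3 (.n 0 (.l 4) (.l 8)) (.l 8)) (.n 0 (.l 8) (.l 8)))) (.n 3 (.n 0 (.n 0 (.l 8) (.l 8)) (.l 8)) (.l 8)))
    [(267764367360, 14092861440), (94489280512, 94489280512), (274877906944, 274877906944), (893353197568, 68719476736)] rfl (by decide +kernel)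
theorem c1_m50_t57 : CovD 0 progs [(253671505920, 28185722880), (94489280512, 94489280512), (274877906944, 274877906944), (1030792151040, 68719476736)] :=
  Pool.Agent.helper14.QF.covD_F chks_eq (.n 3 (.n 0 (.n 2 (.n 3 (.n 0 (.l 4) (.l 3)) (.l 4)) (.n 3 (.n 0 (.l 4) (.l 4)) (.l 4))) (.n 3 (.l 8) (.l 0))) (.n 3 (.n 0 (.l 0) (.l 0)) (.l 0)))
    [(253671505920, 28185722880), (94489280512, 94489280512), (274877906944, 274877906944), (1030792151040, 68719476736)] rfl (by decide +kernel)
end
theorem c1_m50_t2 : CovD 0 progs [(239578644480, 14092861440), (94489280512, 94489280512), (68719476736, 68719476736), (828928688128, 4294967296)] :=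
  covD_split 3 (by decide +kernel) c1_m50_t0 c1_m50_t1
theorem c1_m50_t5 : CovD 0 progs [(239578644480, 14092861440), (94489280512, 94489280512), (68719476736, 68719476736), (837518622720, 4294967296)] :=
  covD_split 3 (by decide +kernel) c1_m50_t3 c1_m50_t4
theorem c1_m50_t6 : CovD 0 progs [(239578644480, 14092861440), (94489280512, 94489280512), (68719476736, 68719476736), (833223655424, 8589934592)] :=
  covD_split 3 (by decide +kernel) c1_m50_t2 c1_m50_t5
theorem c1_m50_t9 : CovD 0 progs [(239578644480, 14092861440), (94489280512, 94489280512), (68719476736, 68719476736), (846108557312, 4294967296)] :=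
  covD_split 3 (by decide +kernel) c1_m50_t7 c1_m50_t8
theorem c1_m50_t11 : CovD 0 progs [(239578644480, 14092861440), (94489280512, 94489280512), (68719476736, 68719476736), (850403524608, 8589934592)] :=
  covD_split 3 (by decide +kernel) c1_m50_t9 c1_m50_t10
theorem c1_m50_t12 : CovD 0 progs [(239578644480, 14092861440), (94489280512, 94489280512), (68719476736, 68719476736), (841813590016, 17179869184)] :=
  covD_split 3 (by decide +kernel) c1_m50_t6 c1_m50_t11
theorem c1_m50_t14 : CovD 0 progs [(239578644480, 14092861440), (94489280512, 94489280512), (68719476736, 68719476736), (858993459200, 34359738368)] :=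
  covD_split 3 (by decide +kernel) c1_m50_t12 c1_m50_t13
theorem c1_m50_t17 : CovD 0 progs [(239578644480, 14092861440), (94489280512, 94489280512), (206158430208, 68719476736), (828928688128, 4294967296)] :=
  covD_split 3 (by decide +kernel) c1_m50_t15 c1_m50_t16
theorem c1_m50_t20 : CovD 0 progs [(239578644480, 14092861440), (94489280512, 94489280512), (206158430208, 68719476736), (837518622720, 4294967296)] :=
  covD_split 3 (by decide +kernel) c1_m50_t18 c1_m50_t19
theorem c1_m50_t21 : CovD 0 progs [(239578644480, 14092861440), (94489280512, 94489280512), (206158430208, 68719476736), (833223655424, 8589934592)] :=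
  covD_split 3 (by decide +kernel) c1_m50_t17 c1_m50_t20
theorem c1_m50_t24 : CovD 0 progs [(239578644480, 14092861440), (94489280512, 94489280512), (206158430208, 68719476736), (846108557312, 4294967296)] :=
  covD_split 3 (by decide +kernel) c1_m50_t22 c1_m50_t23
theorem c1_m50_t27 : CovD 0 progs [(239578644480, 14092861440), (94489280512, 94489280512), (206158430208, 68719476736), (854698491904, 4294967296)] :=
  covD_split 3 (by decide +kernel) c1_m50_t25 c1_m50_t26
theorem c1_m50_t28 : CovD 0 progs [(239578644480, 14092861440), (94489280512, 94489280512), (206158430208, 68719476736), (850403524608, 8589934592)] :=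
  covD_split 3 (by decide +kernel) c1_m50_t24 c1_m50_t27
theorem c1_m50_t29 : CovD 0 progs [(239578644480, 14092861440), (94489280512, 94489280512), (206158430208, 68719476736), (841813590016, 17179869184)] :=
  covD_split 3 (by decide +kernel) c1_m50_t21 c1_m50_t28
theorem c1_m50_t31 : CovD 0 progs [(239578644480, 14092861440), (94489280512, 94489280512), (206158430208, 68719476736), (858993459200, 34359738368)] :=
  covD_split 3 (by decide +kernel) c1_m50_t29 c1_m50_t30
theorem c1_m50_t32 : CovD 0 progs [(239578644480, 14092861440), (94489280512, 94489280512), (137438953472, 137438953472), (858993459200, 34359738368)] :=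
  covD_split 2 (by decide +kernel) c1_m50_t14 c1_m50_t31
theorem c1_m50_t35 : CovD 0 progs [(227247390720, 1761607680), (94489280512, 94489280512), (412316860416, 137438953472), (858993459200, 34359738368)] :=
  covD_split 0 (by decide +kernel) c1_m50_t33 c1_m50_t34
theorem c1_m50_t38 : CovD 0 progs [(230770606080, 1761607680), (94489280512, 94489280512), (412316860416, 137438953472), (858993459200, 34359738368)] :=
  covD_split 0 (by decide +kernel) c1_m50_t36 c1_m50_t37
theorem c1_m50_t39 : CovD 0 progs [(229008998400, 3523215360), (94489280512, 94489280512), (412316860416, 137438953472), (858993459200, 34359738368)] :=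
  covD_split 0 (by decide +kernel) c1_m50_t35 c1_m50_t38
theorem c1_m50_t42 : CovD 0 progs [(236055429120, 3523215360), (94489280512, 94489280512), (343597383680, 68719476736), (841813590016, 17179869184)] :=
  covD_split 3 (by decide +kernel) c1_m50_t40 c1_m50_t41
theorem c1_m50_t44 : CovD 0 progs [(236055429120, 3523215360), (94489280512, 94489280512), (412316860416, 137438953472), (841813590016, 17179869184)] :=
  covD_split 2 (by decide +kernel) c1_m50_t42 c1_m50_t43
theorem c1_m50_t46 : CovD 0 progs [(236055429120, 3523215360), (94489280512, 94489280512), (412316860416, 137438953472), (858993459200, 34359738368)] :=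
  covD_split 3 (by decide +kernel) c1_m50_t44 c1_m50_t45
theorem c1_m50_t47 : CovD 0 progs [(232532213760, 7046430720), (94489280512, 94489280512), (412316860416, 137438953472), (858993459200, 34359738368)] :=
  covD_split 0 (by decide +kernel) c1_m50_t39 c1_m50_t46
theorem c1_m50_t50 : CovD 0 progs [(246625075200, 7046430720), (94489280512, 94489280512), (412316860416, 137438953472), (858993459200, 34359738368)] :=
  covD_split 0 (by decide +kernel) c1_m50_t48 c1_m50_t49
theorem c1_m50_t51 : CovD 0 progs [(239578644480, 14092861440), (94489280512, 94489280512), (412316860416, 137438953472), (858993459200, 34359738368)] :=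
  covD_split 0 (by decide +kernel) c1_m50_t47 c1_m50_t50
theorem c1_m50_t52 : CovD 0 progs [(239578644480, 14092861440), (94489280512, 94489280512), (274877906944, 274877906944), (858993459200, 34359738368)] :=
  covD_split 2 (by decide +kernel) c1_m50_t32 c1_m50_t51
theorem c1_m50_t54 : CovD 0 progs [(239578644480, 14092861440), (94489280512, 94489280512), (274877906944, 274877906944), (893353197568, 68719476736)] :=
  covD_split 3 (by decide +kernel) c1_m50_t52 c1_m50_t53
theorem c1_m50_t56 : CovD 0 progs [(253671505920, 28185722880), (94489280512, 94489280512), (274877906944, 274877906944), (893353197568, 68719476736)] :=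
  covD_split 0 (by decide +kernel) c1_m50_t54 c1_m50_t55
theorem c1_m50 : CovD 0 progs [(253671505920, 28185722880), (94489280512, 94489280512), (274877906944, 274877906944), (962072674304, 137438953472)] :=
  covD_split 3 (by decide +kernel) c1_m50_t56 c1_m50_t57

end Pool.Agent.helper71.FJ.Crt.QMa
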