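import Pool.Agent.helper71.FJ.Crt.QMaP

/-!
Generated certificates.
-/

namespace Pool.Agent.helper71.FJ.Crt.QMa

open Pool.Agent.helper31.IA (Z Op)
open Pool.Agent.helper31.IC

mutual
theorem c1_m51_t0 : CovD 0 progs [(288903659520, 7046430720), (94489280512, 94489280512), (137438953472, 137438953472), (558345748480, 8589934592)] :=
  Pool.Agent.helper14.QF.covD_F chks_eq (.n 0 (.n 2 (.n 0 (.l 4) (.n 0 (.l 4) (.l 4))) (.n 0 (.l 4) (.n 0 (.l 4) (.l 4)))) (.n 3 (.n 0 (.n 0 (.n 1 (.l 4) (.l 4)) (.n 1 (.l 4) (.l 4))) (.n 0 (.n 2 (.l 4) (.l 4)) (.n 2 (.l 4) (.l 4)))) (.n 0 (.n 0 (.n 1 (.l 4) (.l 4)) (.n 2 (.l 4) (.l 4))) (.n 0 (.n 2 (.l 4) (.l 4)) (.n 0 (.n 2 (.l 4) (.l 4)) (.n 2 (.l 4) (.l 4)))))))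
    [(288903659520, 7046430720), (94489280512, 94489280512), (137438953472, 137438953472), (558345748480, 8589934592)] rfl (by decide +kernel)
theorem c1_m51_t1 : CovD 0 progs [(299473305600, 3523215360), (94489280512, 94489280512), (137438953472, 137438953472), (558345748480, 8589934592)] :=
  Pool.Agent.helper14.QF.covD_F chks_eq (.n 2 (.n 0 (.n 0 (.n 3 (.l 4) (.n 0 (.l 4) (.l 4))) (.n 2 (.l 4) (.l 4))) (.n 1 (.l 4) (.l 4))) (.n 0 (.n 0 (.n 0 (.n 1 (.l 4) (.l 4)) (.n 1 (.l 4) (.l 4))) (.n 2 (.l 4) (.n 0 (.l 4) (.l 4)))) (.n 1 (.l 4) (.l 4))))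
    [(299473305600, 3523215360), (94489280512, 94489280512), (137438953472, 137438953472), (558345748480, 8589934592)] rfl (by decide +kernel)
end
mutual
theorem c1_m51_t2 : CovD 0 progs [(306519736320, 3523215360), (94489280512, 94489280512), (137438953472, 137438953472), (558345748480, 8589934592)] :=
  Pool.Agent.helper14.QF.covD_F chks_eq (.n 0 (.n 0 (.n 1 (.n 2 (.l 4) (.l 4)) (.n 2 (.l 4) (.l 4))) (.n 1 (.n 2 (.l 4) (.l 4)) (.n 2 (.l 4) (.l 4)))) (.n 0 (.n 1 (.n 2 (.l 4) (.l 4)) (.n 2 (.l 4) (.l 4))) (.n 0 (.n 2 (.l 4) (.l 4)) (.n 2 (.l 4) (.l 4)))))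
    [(306519736320, 3523215360), (94489280512, 94489280512), (137438953472, 137438953472), (558345748480, 8589934592)] rfl (by decide +kernel)
theorem c1_m51_t5 : CovD 0 progs [(295950090240, 14092861440), (94489280512, 94489280512), (68719476736, 68719476736), (571230650368, 4294967296)] :=
  Pool.Agent.helper14.QF.covD_F chks_eq (.n 0 (.n 0 (.n 0 (.l 4) (.n 0 (.l 4) (.l 4))) (.n 0 (.n 0 (.l 4) (.l 4)) (.n 0 (.n 0 (.l 4) (.l 4)) (.n 0 (.l 4) (.l 4))))) (.n 0 (.n 0 (.n 0 (.l 4) (.l 4)) (.n 0 (.l 4) (.l 4))) (.n 0 (.n 0 (.l 4) (.l 4)) (.l 4))))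
    [(295950090240, 14092861440), (94489280512, 94489280512), (68719476736, 68719476736), (571230650368, 4294967296)] rfl (by decide +kernel)
end
mutual
theorem c1_m51_t6 : CovD 0 progs [(295950090240, 14092861440), (94489280512, 94489280512), (206158430208, 68719476736), (571230650368, 4294967296)] :=
  Pool.Agent.helper14.QF.covD_F chks_eq (.n 0 (.n 0 (.n 0 (.l 4) (.n 0 (.l 4) (.l 4))) (.n 0 (.n 0 (.l 4) (.l 4)) (.n 0 (.n 0 (.l 4) (.l 4)) (.n 0 (.l 4) (.l 4))))) (.n 2 (.n 0 (.n 0 (.l 4) (.l 4)) (.n 0 (.l 4) (.l 4))) (.n 0 (.n 0 (.l 4) (.l 4)) (.n 0 (.l 4) (.l 4)))))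
    [(295950090240, 14092861440), (94489280512, 94489280512), (206158430208, 68719476736), (571230650368, 4294967296)] rfl (by decide +kernel)
theorem c1_m51_t8 : CovD 0 progs [(295950090240, 14092861440), (94489280512, 94489280512), (68719476736, 68719476736), (579820584960, 4294967296)] :=
  Pool.Agent.helper14.QF.covD_F chks_eq (.n 0 (.n 0 (.n 0 (.l 4) (.n 0 (.l 4) (.l 4))) (.n 0 (.n 0 (.l 4) (.n 0 (.l 4) (.l 4))) (.n 0 (.n 0 (.l 4) (.l 4)) (.n 0 (.l 4) (.l 4))))) (.n 0 (.n 0 (.l 4) (.n 0 (.l 4) (.l 4))) (.n 0 (.n 0 (.l 4) (.l 4)) (.l 4))))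
    [(295950090240, 14092861440), (94489280512, 94489280512), (68719476736, 68719476736), (579820584960, 4294967296)] rfl (by decide +kernel)
end
mutual
theorem c1_m51_t9 : CovD 0 progs [(295950090240, 14092861440), (94489280512, 94489280512), (206158430208, 68719476736), (579820584960, 4294967296)] :=
  Pool.Agent.helper14.QF.covD_F chks_eq (.n 0 (.n 0 (.n 0 (.l 4) (.n 0 (.l 4) (.l 4))) (.n 0 (.n 0 (.l 4) (.n 0 (.l 4) (.l 4))) (.n 0 (.n 0 (.l 4) (.l 4)) (.n 0 (.l 4) (.l 4))))) (.n 0 (.n 0 (.n 0 (.l 4) (.l 4)) (.n 2 (.l 4) (.l 4))) (.n 0 (.n 0 (.l 4) (.l 4)) (.l 4))))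
    [(295950090240, 14092861440), (94489280512, 94489280512), (206158430208, 68719476736), (579820584960, 4294967296)] rfl (by decide +kernel)
theorem c1_m51_t13 : CovD 0 progs [(288903659520, 7046430720), (94489280512, 94489280512), (68719476736, 68719476736), (592705486848, 8589934592)] :=
  Pool.Agent.helper14.QF.covD_F chks_eq (.n 0 (.n 0 (.n 0 (.l 4) (.n 0 (.l 4) (.l 4))) (.n 0 (.n 3 (.l 4) (.l 4)) (.n 3 (.l 4) (.n 0 (.l 4) (.l 4))))) (.n 0 (.n 0 (.n 0 (.n 2 (.l 4) (.l 4)) (.n 2 (.l 4) (.l 4))) (.n 0 (.n 2 (.l 4) (.l 4)) (.n 1 (.l 4) (.l 4)))) (.n 0 (.n 1 (.l 4) (.l 4)) (.l 4))))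
    [(288903659520, 7046430720), (94489280512, 94489280512), (68719476736, 68719476736), (592705486848, 8589934592)] rfl (by decide +kernel)
end
mutual
theorem c1_m51_t14 : CovD 0 progs [(302996520960, 7046430720), (94489280512, 94489280512), (68719476736, 68719476736), (592705486848, 8589934592)] :=
  Pool.Agent.helper14.QF.covD_F chks_eq (.n 0 (.n 0 (.n 0 (.n 1 (.l 4) (.l 4)) (.n 2 (.l 4) (.l 4))) (.n 0 (.n 2 (.l 4) (.l 4)) (.n 0 (.l 4) (.l 4)))) (.n 0 (.n 0 (.l 4) (.l 4)) (.l 4)))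
    [(302996520960, 7046430720), (94489280512, 94489280512), (68719476736, 68719476736), (592705486848, 8589934592)] rfl (by decide +kernel)
theorem c1_m51_t16 : CovD 0 progs [(295950090240, 14092861440), (94489280512, 94489280512), (206158430208, 68719476736), (588410519552, 4294967296)] :=
  Pool.Agent.helper14.QF.covD_F chks_eq (.n 0 (.n 0 (.n 0 (.n 0 (.l 4) (.l 4)) (.n 0 (.l 4) (.l 4))) (.n 0 (.n 0 (.n 0 (.l 4) (.l 4)) (.n 0 (.l 4) (.l 4))) (.n 1 (.l 4) (.l 4)))) (.n 0 (.n 0 (.n 1 (.l 4) (.l 4)) (.n 0 (.l 4) (.l 4))) (.n 0 (.n 0 (.l 4) (.l 4)) (.l 4))))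
    [(295950090240, 14092861440), (94489280512, 94489280512), (206158430208, 68719476736), (588410519552, 4294967296)] rfl (by decide +kernel)
end
mutual
theorem c1_m51_t17 : CovD 0 progs [(295950090240, 14092861440), (94489280512, 94489280512), (206158430208, 68719476736), (597000454144, 4294967296)] :=
  Pool.Agent.helper14.QF.covD_F chks_eq (.n 0 (.n 0 (.n 0 (.n 0 (.l 4) (.l 4)) (.n 0 (.n 0 (.l 4) (.l 4)) (.n 0 (.l 4) (.l 4)))) (.n 0 (.n 0 (.n 0 (.l 4) (.l 4)) (.n 0 (.l 4) (.l 4))) (.n 0 (.l 4) (.l 4)))) (.n 0 (.n 0 (.n 2 (.l 4) (.l 4)) (.n 0 (.l 4) (.l 4))) (.n 0 (.l 4) (.l 4))))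
    [(295950090240, 14092861440), (94489280512, 94489280512), (206158430208, 68719476736), (597000454144, 4294967296)] rfl (by decide +kernel)
theorem c1_m51_t20 : CovD 0 progs [(295950090240, 14092861440), (94489280512, 94489280512), (68719476736, 68719476736), (605590388736, 4294967296)] :=
  Pool.Agent.helper14.QF.covD_F chks_eq (.n 0 (.n 0 (.n 0 (.n 0 (.l 4) (.l 4)) (.n 0 (.n 0 (.l 4) (.l 4)) (.n 0 (.l 4) (.l 4)))) (.n 0 (.n 1 (.l 4) (.l 4)) (.n 0 (.l 4) (.l 4)))) (.n 0 (.n 0 (.n 0 (.l 4) (.l 4)) (.l 4)) (.n 0 (.l 4) (.l 4))))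
    [(295950090240, 14092861440), (94489280512, 94489280512), (68719476736, 68719476736), (605590388736, 4294967296)] rfl (by decide +kernel)
end
mutual
theorem c1_m51_t21 : CovD 0 progs [(295950090240, 14092861440), (94489280512, 94489280512), (68719476736, 68719476736), (614180323328, 4294967296)] :=
  Pool.Agent.helper14.QF.covD_F chks_eq (.n 0 (.n 0 (.n 0 (.n 0 (.l 4) (.n 0 (.l 4) (.l 4))) (.n 0 (.n 0 (.l 4) (.l 4)) (.n 0 (.l 4) (.l 4)))) (.n 0 (.n 0 (.l 4) (.l 4)) (.n 0 (.l 4) (.l 4)))) (.n 0 (.n 0 (.n 0 (.l 4) (.l 4)) (.l 4)) (.n 0 (.l 4) (.l 4))))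
    [(295950090240, 14092861440), (94489280512, 94489280512), (68719476736, 68719476736), (614180323328, 4294967296)] rfl (by decide +kernel)
theorem c1_m51_t23 : CovD 0 progs [(295950090240, 14092861440), (94489280512, 94489280512), (206158430208, 68719476736), (605590388736, 4294967296)] :=
  Pool.Agent.helper14.QF.covD_F chks_eq (.n 0 (.n 0 (.n 0 (.n 0 (.l 4) (.n 0 (.l 4) (.l 4))) (.n 0 (.n 0 (.l 4) (.l 4)) (.n 1 (.l 4) (.l 4)))) (.n 0 (.n 2 (.l 4) (.l 4)) (.n 1 (.l 4) (.l 4)))) (.n 0 (.n 0 (.n 0 (.l 4) (.l 4)) (.n 0 (.l 4) (.l 4))) (.n 0 (.l 4) (.l 4))))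
    [(295950090240, 14092861440), (94489280512, 94489280512), (206158430208, 68719476736), (605590388736, 4294967296)] rfl (by decide +kernel)
theorem c1_m51_t24 : CovD 0 progs [(295950090240, 14092861440), (94489280512, 94489280512), (206158430208, 68719476736), (614180323328, 4294967296)] :=
  Pool.Agent.helper14.QF.covD_F chks_eq (.n 0 (.n 0 (.n 0 (.n 0 (.n 0 (.l 4) (.l 4)) (.n 0 (.l 4) (.l 4))) (.n 0 (.n 1 (.l 4) (.l 4)) (.n 1 (.l 4) (.l 4)))) (.n 0 (.n 0 (.l 4) (.l 4)) (.n 0 (.n 0 (.l 4) (.l 4)) (.l 4)))) (.n 0 (.n 0 (.n 0 (.l 4) (.l 4)) (.l 4)) (.n 0 (.l 4) (.l 4))))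
    [(295950090240, 14092861440), (94489280512, 94489280512), (206158430208, 68719476736), (614180323328, 4294967296)] rfl (by decide +kernel)
end
theorem c1_m51_t3 : CovD 0 progs [(302996520960, 7046430720), (94489280512, 94489280512), (137438953472, 137438953472), (558345748480, 8589934592)] :=
  covD_split 0 (by decide +kernel) c1_m51_t1 c1_m51_t2
theorem c1_m51_t4 : CovD 0 progs [(295950090240, 14092861440), (94489280512, 94489280512), (137438953472, 137438953472), (558345748480, 8589934592)] :=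
  covD_split 0 (by decide +kernel) c1_m51_t0 c1_m51_t3
theorem c1_m51_t7 : CovD 0 progs [(295950090240, 14092861440), (94489280512, 94489280512), (137438953472, 137438953472), (571230650368, 4294967296)] :=
  covD_split 2 (by decide +kernel) c1_m51_t5 c1_m51_t6
theorem c1_m51_t10 : CovD 0 progs [(295950090240, 14092861440), (94489280512, 94489280512), (137438953472, 137438953472), (579820584960, 4294967296)] :=
  covD_split 2 (by decide +kernel) c1_m51_t8 c1_m51_t9
theorem c1_m51_t11 : CovD 0 progs [(295950090240, 14092861440), (94489280512, 94489280512), (137438953472, 137438953472), (575525617664, 8589934592)] :=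
  covD_split 3 (by decide +kernel) c1_m51_t7 c1_m51_t10
theorem c1_m51_t12 : CovD 0 progs [(295950090240, 14092861440), (94489280512, 94489280512), (137438953472, 137438953472), (566935683072, 17179869184)] :=
  covD_split 3 (by decide +kernel) c1_m51_t4 c1_m51_t11
theorem c1_m51_t15 : CovD 0 progs [(295950090240, 14092861440), (94489280512, 94489280512), (68719476736, 68719476736), (592705486848, 8589934592)] :=
  covD_split 0 (by decide +kernel) c1_m51_t13 c1_m51_t14
theorem c1_m51_t18 : CovD 0 progs [(295950090240, 14092861440), (94489280512, 94489280512), (206158430208, 68719476736), (592705486848, 8589934592)] :=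
  covD_split 3 (by decide +kernel) c1_m51_t16 c1_m51_t17
theorem c1_m51_t19 : CovD 0 progs [(295950090240, 14092861440), (94489280512, 94489280512), (137438953472, 137438953472), (592705486848, 8589934592)] :=
  covD_split 2 (by decide +kernel) c1_m51_t15 c1_m51_t18
theorem c1_m51_t22 : CovD 0 progs [(295950090240, 14092861440), (94489280512, 94489280512), (68719476736, 68719476736), (609885356032, 8589934592)] :=
  covD_split 3 (by decide +kernel) c1_m51_t20 c1_m51_t21
theorem c1_m51_t25 : CovD 0 progs [(295950090240, 14092861440), (94489280512, 94489280512), (206158430208, 68719476736), (609885356032, 8589934592)] :=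
  covD_split 3 (by decide +kernel) c1_m51_t23 c1_m51_t24
theorem c1_m51_t26 : CovD 0 progs [(295950090240, 14092861440), (94489280512, 94489280512), (137438953472, 137438953472), (609885356032, 8589934592)] :=
  covD_split 2 (by decide +kernel) c1_m51_t22 c1_m51_t25
theorem c1_m51_t27 : CovD 0 progs [(295950090240, 14092861440), (94489280512, 94489280512), (137438953472, 137438953472), (601295421440, 17179869184)] :=
  covD_split 3 (by decide +kernel) c1_m51_t19 c1_m51_t26
theorem c1_m51 : CovD 0 progs [(295950090240, 14092861440), (94489280512, 94489280512), (137438953472, 137438953472), (584115552256, 34359738368)] :=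
  covD_split 3 (by decide +kernel) c1_m51_t12 c1_m51_t27

end Pool.Agent.helper71.FJ.Crt.QMa
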