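import Pool.Agent.helper71.FJ.Crt.QMaP

/-!
Generated certificates.
-/

namespace Pool.Agent.helper71.FJ.Crt.QMa

open Pool.Agent.helper31.IA (Z Op)
open Pool.Agent.helper31.IC

mutual
theorem c1_m52_t0 : CovD 0 progs [(295950090240, 14092861440), (47244640256, 47244640256), (412316860416, 137438953472), (554050781184, 4294967296)] :=
  Pool.Agent.helper14.QF.covD_F chks_eq (.n 0 (.n 0 (.n 0 (.l 4) (.l 4)) (.n 0 (.n 0 (.l 4) (.l 4)) (.n 0 (.n 1 (.l 4) (.l 4)) (.n 1 (.l 4) (.l 4))))) (.n 0 (.n 0 (.n 0 (.n 2 (.l 4) (.l 4)) (.n 2 (.l 4) (.l 4))) (.n 2 (.l 4) (.n 0 (.l 4) (.l 4)))) (.n 0 (.n 2 (.l 4) (.n 0 (.l 4) (.l 4))) (.n 2 (.l 4) (.n 0 (.l 4) (.l 4))))))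
    [(295950090240, 14092861440), (47244640256, 47244640256), (412316860416, 137438953472), (554050781184, 4294967296)] rfl (by decide +kernel)
theorem c1_m52_t1 : CovD 0 progs [(295950090240, 14092861440), (47244640256, 47244640256), (412316860416, 137438953472), (562640715776, 4294967296)] :=
  Pool.Agent.helper14.QF.covD_F chks_eq (.n 0 (.n 0 (.n 0 (.l 4) (.n 0 (.l 4) (.l 4))) (.n 0 (.n 0 (.l 4) (.n 0 (.l 4) (.l 4))) (.n 0 (.n 1 (.l 4) (.l 4)) (.n 2 (.l 4) (.l 4))))) (.n 0 (.n 0 (.n 0 (.n 2 (.l 4) (.l 4)) (.n 2 (.l 4) (.l 4))) (.n 2 (.l 4) (.l 4))) (.n 0 (.n 0 (.n 1 (.l 4) (.l 4)) (.n 1 (.l 4) (.l 4))) (.n 2 (.l 4) (.n 0 (.l 4) (.l 4))))))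
    [(295950090240, 14092861440), (47244640256, 47244640256), (412316860416, 137438953472), (562640715776, 4294967296)] rfl (by decide +kernel)
end
mutual
theorem c1_m52_t3 : CovD 0 progs [(295950090240, 14092861440), (47244640256, 47244640256), (412316860416, 137438953472), (571230650368, 4294967296)] :=
  Pool.Agent.helper14.QF.covD_F chks_eq (.n 0 (.n 0 (.n 0 (.l 4) (.n 0 (.l 4) (.l 4))) (.n 0 (.n 0 (.n 0 (.l 4) (.l 4)) (.n 1 (.l 4) (.l 4))) (.n 0 (.n 2 (.l 4) (.l 4)) (.n 2 (.l 4) (.l 4))))) (.n 0 (.n 0 (.n 2 (.l 4) (.n 0 (.l 4) (.l 4))) (.n 2 (.l 4) (.n 0 (.l 4) (.l 4)))) (.n 0 (.n 0 (.n 1 (.l 4) (.l 4)) (.n 1 (.l 4) (.l 4))) (.n 1 (.l 4) (.l 4)))))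
    [(295950090240, 14092861440), (47244640256, 47244640256), (412316860416, 137438953472), (571230650368, 4294967296)] rfl (by decide +kernel)
theorem c1_m52_t4 : CovD 0 progs [(295950090240, 14092861440), (47244640256, 47244640256), (412316860416, 137438953472), (579820584960, 4294967296)] :=
  Pool.Agent.helper14.QF.covD_F chks_eq (.n 0 (.n 0 (.n 0 (.n 0 (.l 4) (.l 4)) (.n 0 (.l 4) (.n 0 (.l 4) (.l 4)))) (.n 0 (.n 0 (.n 1 (.l 4) (.l 4)) (.n 2 (.l 4) (.l 4))) (.n 0 (.n 2 (.l 4) (.l 4)) (.n 2 (.l 4) (.l 4))))) (.n 0 (.n 0 (.n 2 (.l 4) (.l 4)) (.n 0 (.n 1 (.l 4) (.l 4)) (.n 1 (.l 4) (.l 4)))) (.n 0 (.n 2 (.l 4) (.n 0 (.l 4) (.l 4))) (.n 0 (.l 4) (.l 4)))))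
    [(295950090240, 14092861440), (47244640256, 47244640256), (412316860416, 137438953472), (579820584960, 4294967296)] rfl (by decide +kernel)
end
mutual
theorem c1_m52_t7 : CovD 0 progs [(285380444160, 3523215360), (47244640256, 47244640256), (412316860416, 137438953472), (592705486848, 8589934592)] :=
  Pool.Agent.helper14.QF.covD_F chks_eq (.n 0 (.n 0 (.n 2 (.l 4) (.l 4)) (.n 3 (.l 4) (.n 0 (.l 4) (.l 4)))) (.n 0 (.n 1 (.n 3 (.l 4) (.l 4)) (.n 3 (.l 4) (.l 4))) (.n 2 (.n 3 (.l 4) (.l 4)) (.n 3 (.l 4) (.l 4)))))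
    [(285380444160, 3523215360), (47244640256, 47244640256), (412316860416, 137438953472), (592705486848, 8589934592)] rfl (by decide +kernel)
theorem c1_m52_t8 : CovD 0 progs [(292426874880, 3523215360), (47244640256, 47244640256), (412316860416, 137438953472), (592705486848, 8589934592)] :=
  Pool.Agent.helper14.QF.covD_F chks_eq (.n 3 (.n 0 (.n 0 (.n 2 (.l 4) (.l 4)) (.n 2 (.l 4) (.l 4))) (.n 0 (.n 2 (.l 4) (.l 4)) (.n 1 (.l 4) (.l 4)))) (.n 0 (.n 0 (.n 2 (.l 4) (.n 0 (.l 4) (.l 4))) (.n 2 (.l 4) (.l 4))) (.n 2 (.l 4) (.l 4))))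
    [(292426874880, 3523215360), (47244640256, 47244640256), (412316860416, 137438953472), (592705486848, 8589934592)] rfl (by decide +kernel)
end
mutual
theorem c1_m52_t10 : CovD 0 progs [(302996520960, 7046430720), (47244640256, 47244640256), (412316860416, 137438953472), (592705486848, 8589934592)] :=
  Pool.Agent.helper14.QF.covD_F chks_eq (.n 0 (.n 0 (.n 0 (.n 2 (.l 4) (.n 0 (.l 4) (.l 4))) (.n 1 (.n 2 (.l 4) (.l 4)) (.n 2 (.l 4) (.l 4)))) (.n 0 (.n 0 (.n 2 (.l 4) (.l 4)) (.n 2 (.l 4) (.l 4))) (.n 2 (.l 4) (.n 0 (.l 4) (.l 4))))) (.n 0 (.n 0 (.n 2 (.l 4) (.l 4)) (.n 1 (.l 4) (.l 4))) (.n 2 (.l 4) (.l 4))))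
    [(302996520960, 7046430720), (47244640256, 47244640256), (412316860416, 137438953472), (592705486848, 8589934592)] rfl (by decide +kernel)
theorem c1_m52_t12 : CovD 0 progs [(295950090240, 14092861440), (47244640256, 47244640256), (412316860416, 137438953472), (603442905088, 2147483648)] :=
  Pool.Agent.helper14.QF.covD_F chks_eq (.n 0 (.n 0 (.n 0 (.n 0 (.l 4) (.n 0 (.l 4) (.l 4))) (.n 0 (.n 1 (.l 4) (.l 4)) (.n 1 (.l 4) (.l 4)))) (.n 0 (.n 2 (.l 4) (.n 0 (.l 4) (.l 4))) (.n 2 (.l 4) (.l 4)))) (.n 0 (.n 0 (.n 2 (.l 4) (.l 4)) (.n 0 (.l 4) (.l 4))) (.n 0 (.l 4) (.l 4))))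
    [(295950090240, 14092861440), (47244640256, 47244640256), (412316860416, 137438953472), (603442905088, 2147483648)] rfl (by decide +kernel)
end
mutual
theorem c1_m52_t13 : CovD 0 progs [(295950090240, 14092861440), (47244640256, 47244640256), (412316860416, 137438953472), (607737872384, 2147483648)] :=
  Pool.Agent.helper14.QF.covD_F chks_eq (.n 0 (.n 0 (.n 0 (.n 0 (.l 4) (.n 1 (.l 4) (.l 4))) (.n 0 (.n 1 (.l 4) (.l 4)) (.n 1 (.l 4) (.l 4)))) (.n 0 (.n 2 (.l 4) (.l 4)) (.n 2 (.l 4) (.l 4)))) (.n 0 (.n 0 (.n 2 (.l 4) (.l 4)) (.n 0 (.l 4) (.l 4))) (.n 0 (.l 4) (.l 4))))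
    [(295950090240, 14092861440), (47244640256, 47244640256), (412316860416, 137438953472), (607737872384, 2147483648)] rfl (by decide +kernel)
theorem c1_m52_t15 : CovD 0 progs [(295950090240, 14092861440), (47244640256, 47244640256), (412316860416, 137438953472), (612032839680, 2147483648)] :=
  Pool.Agent.helper14.QF.covD_F chks_eq (.n 0 (.n 0 (.n 0 (.n 0 (.n 0 (.l 4) (.l 4)) (.n 1 (.l 4) (.l 4))) (.n 0 (.n 1 (.l 4) (.l 4)) (.n 1 (.l 4) (.l 4)))) (.n 0 (.n 1 (.l 4) (.l 4)) (.n 2 (.l 4) (.n 0 (.l 4) (.l 4))))) (.n 0 (.n 0 (.n 2 (.l 4) (.l 4)) (.n 0 (.l 4) (.l 4))) (.n 0 (.l 4) (.l 4))))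
    [(295950090240, 14092861440), (47244640256, 47244640256), (412316860416, 137438953472), (612032839680, 2147483648)] rfl (by decide +kernel)
end
mutual
theorem c1_m52_t16 : CovD 0 progs [(295950090240, 14092861440), (47244640256, 47244640256), (412316860416, 137438953472), (616327806976, 2147483648)] :=
  Pool.Agent.helper14.QF.covD_F chks_eq (.n 0 (.n 0 (.n 0 (.n 0 (.n 1 (.l 4) (.l 4)) (.n 1 (.l 4) (.l 4))) (.n 0 (.n 1 (.l 4) (.l 4)) (.n 1 (.l 4) (.l 4)))) (.n 0 (.n 2 (.l 4) (.l 4)) (.n 2 (.l 4) (.n 0 (.l 4) (.l 4))))) (.n 0 (.n 0 (.n 1 (.l 4) (.l 4)) (.l 4)) (.n 0 (.l 4) (.l 4))))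
    [(295950090240, 14092861440), (47244640256, 47244640256), (412316860416, 137438953472), (616327806976, 2147483648)] rfl (by decide +kernel)
theorem c1_m52_t21 : CovD 0 progs [(295950090240, 14092861440), (141733920768, 47244640256), (343597383680, 68719476736), (558345748480, 8589934592)] :=
  Pool.Agent.helper14.QF.covD_F chks_eq (.n 0 (.n 0 (.n 0 (.l 4) (.n 0 (.l 4) (.l 4))) (.n 0 (.n 0 (.l 4) (.n 0 (.l 4) (.l 4))) (.n 0 (.n 0 (.l 4) (.l 4)) (.n 3 (.l 4) (.l 4))))) (.n 0 (.n 0 (.n 0 (.n 3 (.l 4) (.l 4)) (.n 2 (.l 4) (.l 4))) (.n 1 (.l 4) (.l 4))) (.n 0 (.n 0 (.n 0 (.l 4) (.l 4)) (.n 0 (.l 4) (.l 4))) (.n 0 (.n 0 (.l 4) (.l 4)) (.l 4)))))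
    [(295950090240, 14092861440), (141733920768, 47244640256), (343597383680, 68719476736), (558345748480, 8589934592)] rfl (by decide +kernel)
end
mutual
theorem c1_m52_t22 : CovD 0 progs [(295950090240, 14092861440), (141733920768, 47244640256), (481036337152, 68719476736), (554050781184, 4294967296)] :=
  Pool.Agent.helper14.QF.covD_F chks_eq (.n 0 (.n 0 (.n 0 (.l 4) (.l 4)) (.n 0 (.n 0 (.l 4) (.l 4)) (.n 0 (.l 4) (.n 0 (.l 4) (.l 4))))) (.n 0 (.n 0 (.n 0 (.n 0 (.l 4) (.l 4)) (.n 1 (.l 4) (.l 4))) (.n 1 (.l 4) (.l 4))) (.n 0 (.n 2 (.l 4) (.l 4)) (.n 0 (.l 4) (.l 4)))))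
    [(295950090240, 14092861440), (141733920768, 47244640256), (481036337152, 68719476736), (554050781184, 4294967296)] rfl (by decide +kernel)
theorem c1_m52_t23 : CovD 0 progs [(295950090240, 14092861440), (141733920768, 47244640256), (481036337152, 68719476736), (562640715776, 4294967296)] :=
  Pool.Agent.helper14.QF.covD_F chks_eq (.n 0 (.n 0 (.n 0 (.l 4) (.l 4)) (.n 0 (.n 0 (.l 4) (.l 4)) (.n 0 (.n 0 (.l 4) (.l 4)) (.n 0 (.l 4) (.l 4))))) (.n 0 (.n 0 (.n 0 (.n 1 (.l 4) (.l 4)) (.n 1 (.l 4) (.l 4))) (.n 1 (.l 4) (.l 4))) (.n 0 (.n 1 (.l 4) (.n 0 (.l 4) (.l 4))) (.n 0 (.l 4) (.l 4)))))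
    [(295950090240, 14092861440), (141733920768, 47244640256), (481036337152, 68719476736), (562640715776, 4294967296)] rfl (by decide +kernel)
end
mutual
theorem c1_m52_t26 : CovD 0 progs [(288903659520, 7046430720), (141733920768, 47244640256), (412316860416, 137438953472), (571230650368, 4294967296)] :=
  Pool.Agent.helper14.QF.covD_F chks_eq (.n 3 (.n 0 (.n 0 (.l 4) (.n 0 (.l 4) (.l 4))) (.n 0 (.n 2 (.l 4) (.n 0 (.l 4) (.l 4))) (.n 0 (.n 2 (.l 4) (.l 4)) (.n 2 (.l 4) (.n 0 (.l 4) (.l 4)))))) (.n 0 (.n 0 (.l 4) (.n 2 (.l 4) (.l 4))) (.n 0 (.n 0 (.n 1 (.l 4) (.l 4)) (.n 2 (.l 4) (.l 4))) (.n 0 (.n 2 (.l 4) (.l 4)) (.n 2 (.l 4) (.n 0 (.l 4) (.l 4)))))))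
    [(288903659520, 7046430720), (141733920768, 47244640256), (412316860416, 137438953472), (571230650368, 4294967296)] rfl (by decide +kernel)
theorem c1_m52_t27 : CovD 0 progs [(302996520960, 7046430720), (141733920768, 47244640256), (412316860416, 137438953472), (571230650368, 4294967296)] :=
  Pool.Agent.helper14.QF.covD_F chks_eq (.n 0 (.n 0 (.n 2 (.n 0 (.l 4) (.l 4)) (.n 2 (.l 4) (.l 4))) (.n 2 (.n 0 (.l 4) (.l 4)) (.n 2 (.l 4) (.l 4)))) (.n 0 (.n 0 (.n 2 (.l 4) (.n 0 (.l 4) (.l 4))) (.n 2 (.l 4) (.l 4))) (.n 2 (.l 4) (.n 0 (.l 4) (.l 4)))))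
    [(302996520960, 7046430720), (141733920768, 47244640256), (412316860416, 137438953472), (571230650368, 4294967296)] rfl (by decide +kernel)
end
mutual
theorem c1_m52_t29 : CovD 0 progs [(288903659520, 7046430720), (141733920768, 47244640256), (412316860416, 137438953472), (579820584960, 4294967296)] :=
  Pool.Agent.helper14.QF.covD_F chks_eq (.n 0 (.n 0 (.n 0 (.l 4) (.l 4)) (.n 0 (.n 1 (.l 4) (.l 4)) (.n 2 (.l 4) (.l 4)))) (.n 0 (.n 0 (.n 2 (.l 4) (.n 0 (.l 4) (.l 4))) (.n 2 (.l 4) (.n 0 (.l 4) (.l 4)))) (.n 0 (.n 2 (.l 4) (.n 1 (.l 4) (.l 4))) (.n 2 (.l 4) (.n 1 (.l 4) (.l 4))))))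
    [(288903659520, 7046430720), (141733920768, 47244640256), (412316860416, 137438953472), (579820584960, 4294967296)] rfl (by decide +kernel)
theorem c1_m52_t30 : CovD 0 progs [(302996520960, 7046430720), (141733920768, 47244640256), (412316860416, 137438953472), (579820584960, 4294967296)] :=
  Pool.Agent.helper14.QF.covD_F chks_eq (.n 0 (.n 0 (.n 2 (.l 4) (.n 1 (.l 4) (.l 4))) (.n 2 (.n 0 (.l 4) (.l 4)) (.n 2 (.l 4) (.n 0 (.l 4) (.l 4))))) (.n 0 (.n 0 (.n 2 (.l 4) (.l 4)) (.n 1 (.l 4) (.l 4))) (.n 2 (.l 4) (.l 4))))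
    [(302996520960, 7046430720), (141733920768, 47244640256), (412316860416, 137438953472), (579820584960, 4294967296)] rfl (by decide +kernel)
end
mutual
theorem c1_m52_t34 : CovD 0 progs [(295950090240, 14092861440), (141733920768, 47244640256), (343597383680, 68719476736), (588410519552, 4294967296)] :=
  Pool.Agent.helper14.QF.covD_F chks_eq (.n 0 (.n 0 (.n 0 (.l 4) (.n 0 (.l 4) (.l 4))) (.n 0 (.n 0 (.l 4) (.l 4)) (.n 0 (.l 4) (.l 4)))) (.n 0 (.n 0 (.n 0 (.l 4) (.l 4)) (.n 0 (.l 4) (.l 4))) (.n 0 (.l 4) (.l 4))))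
    [(295950090240, 14092861440), (141733920768, 47244640256), (343597383680, 68719476736), (588410519552, 4294967296)] rfl (by decide +kernel)
theorem c1_m52_t35 : CovD 0 progs [(295950090240, 14092861440), (141733920768, 47244640256), (481036337152, 68719476736), (588410519552, 4294967296)] :=
  Pool.Agent.helper14.QF.covD_F chks_eq (.n 2 (.n 0 (.n 0 (.n 0 (.l 4) (.n 0 (.l 4) (.l 4))) (.n 0 (.n 0 (.l 4) (.l 4)) (.l 4))) (.n 0 (.n 0 (.l 4) (.l 4)) (.n 0 (.l 4) (.l 4)))) (.n 0 (.n 0 (.n 0 (.l 4) (.n 0 (.l 4) (.l 4))) (.n 0 (.n 0 (.l 4) (.l 4)) (.n 0 (.l 4) (.l 4)))) (.n 0 (.n 0 (.n 0 (.l 4) (.l 4)) (.n 0 (.l 4) (.l 4))) (.n 0 (.l 4) (.l 4)))))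
    [(295950090240, 14092861440), (141733920768, 47244640256), (481036337152, 68719476736), (588410519552, 4294967296)] rfl (by decide +kernel)
end
mutual
theorem c1_m52_t37 : CovD 0 progs [(288903659520, 7046430720), (141733920768, 47244640256), (412316860416, 137438953472), (597000454144, 4294967296)] :=
  Pool.Agent.helper14.QF.covD_F chks_eq (.n 0 (.n 0 (.n 0 (.n 1 (.l 4) (.l 4)) (.n 2 (.l 4) (.l 4))) (.n 0 (.n 2 (.l 4) (.n 0 (.l 4) (.l 4))) (.n 2 (.l 4) (.n 0 (.l 4) (.l 4))))) (.n 2 (.n 0 (.n 0 (.l 4) (.l 4)) (.l 4)) (.n 0 (.n 0 (.n 1 (.l 4) (.l 4)) (.n 1 (.l 4) (.l 4))) (.n 1 (.l 4) (.l 4)))))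
    [(288903659520, 7046430720), (141733920768, 47244640256), (412316860416, 137438953472), (597000454144, 4294967296)] rfl (by decide +kernel)
theorem c1_m52_t38 : CovD 0 progs [(302996520960, 7046430720), (141733920768, 47244640256), (412316860416, 137438953472), (597000454144, 4294967296)] :=
  Pool.Agent.helper14.QF.covD_F chks_eq (.n 0 (.n 2 (.n 0 (.n 0 (.l 4) (.l 4)) (.n 0 (.l 4) (.l 4))) (.n 0 (.n 0 (.n 0 (.l 4) (.l 4)) (.n 0 (.l 4) (.l 4))) (.n 0 (.l 4) (.l 4)))) (.n 0 (.n 2 (.l 4) (.l 4)) (.n 0 (.l 4) (.l 4))))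
    [(302996520960, 7046430720), (141733920768, 47244640256), (412316860416, 137438953472), (597000454144, 4294967296)] rfl (by decide +kernel)
end
mutual
theorem c1_m52_t41 : CovD 0 progs [(288903659520, 7046430720), (141733920768, 47244640256), (412316860416, 137438953472), (603442905088, 2147483648)] :=
  Pool.Agent.helper14.QF.covD_F chks_eq (.n 0 (.n 0 (.n 2 (.l 4) (.n 0 (.l 4) (.l 4))) (.n 0 (.n 2 (.l 4) (.l 4)) (.n 2 (.l 4) (.n 0 (.l 4) (.l 4))))) (.n 0 (.n 1 (.n 2 (.l 4) (.l 4)) (.n 2 (.l 4) (.l 4))) (.n 2 (.l 4) (.n 0 (.l 4) (.l 4)))))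
    [(288903659520, 7046430720), (141733920768, 47244640256), (412316860416, 137438953472), (603442905088, 2147483648)] rfl (by decide +kernel)
theorem c1_m52_t42 : CovD 0 progs [(288903659520, 7046430720), (141733920768, 47244640256), (412316860416, 137438953472), (607737872384, 2147483648)] :=
  Pool.Agent.helper14.QF.covD_F chks_eq (.n 0 (.n 0 (.n 0 (.n 1 (.l 4) (.l 4)) (.n 2 (.l 4) (.l 4))) (.n 0 (.n 2 (.l 4) (.l 4)) (.n 2 (.l 4) (.n 0 (.l 4) (.l 4))))) (.n 0 (.n 2 (.l 4) (.n 1 (.l 4) (.l 4))) (.n 2 (.l 4) (.n 0 (.l 4) (.l 4)))))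
    [(288903659520, 7046430720), (141733920768, 47244640256), (412316860416, 137438953472), (607737872384, 2147483648)] rfl (by decide +kernel)
end
mutual
theorem c1_m52_t44 : CovD 0 progs [(302996520960, 7046430720), (141733920768, 47244640256), (412316860416, 137438953472), (605590388736, 4294967296)] :=
  Pool.Agent.helper14.QF.covD_F chks_eq (.n 0 (.n 0 (.n 0 (.n 2 (.l 4) (.n 0 (.l 4) (.l 4))) (.n 2 (.l 4) (.l 4))) (.n 2 (.l 4) (.n 0 (.l 4) (.l 4)))) (.n 0 (.n 0 (.l 4) (.l 4)) (.l 4)))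
    [(302996520960, 7046430720), (141733920768, 47244640256), (412316860416, 137438953472), (605590388736, 4294967296)] rfl (by decide +kernel)
theorem c1_m52_t46 : CovD 0 progs [(288903659520, 7046430720), (141733920768, 47244640256), (412316860416, 137438953472), (614180323328, 4294967296)] :=
  Pool.Agent.helper14.QF.covD_F chks_eq (.n 0 (.n 0 (.n 0 (.n 2 (.l 4) (.n 0 (.l 4) (.l 4))) (.n 2 (.l 4) (.n 1 (.l 4) (.l 4)))) (.n 0 (.n 1 (.n 2 (.l 4) (.l 4)) (.n 2 (.l 4) (.l 4))) (.n 2 (.l 4) (.n 1 (.l 4) (.l 4))))) (.n 0 (.n 2 (.l 4) (.n 1 (.l 4) (.l 4))) (.n 0 (.n 2 (.l 4) (.n 0 (.l 4) (.l 4))) (.n 2 (.l 4) (.n 0 (.l 4) (.l 4))))))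
    [(288903659520, 7046430720), (141733920768, 47244640256), (412316860416, 137438953472), (614180323328, 4294967296)] rfl (by decide +kernel)
theorem c1_m52_t47 : CovD 0 progs [(302996520960, 7046430720), (141733920768, 47244640256), (412316860416, 137438953472), (614180323328, 4294967296)] :=
  Pool.Agent.helper14.QF.covD_F chks_eq (.n 0 (.n 0 (.n 0 (.n 2 (.l 4) (.l 4)) (.n 2 (.l 4) (.l 4))) (.n 2 (.l 4) (.l 4))) (.n 0 (.l 4) (.l 4)))
    [(302996520960, 7046430720), (141733920768, 47244640256), (412316860416, 137438953472), (614180323328, 4294967296)] rfl (by decide +kernel)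
end
theorem c1_m52_t2 : CovD 0 progs [(295950090240, 14092861440), (47244640256, 47244640256), (412316860416, 137438953472), (558345748480, 8589934592)] :=
  covD_split 3 (by decide +kernel) c1_m52_t0 c1_m52_t1
theorem c1_m52_t5 : CovD 0 progs [(295950090240, 14092861440), (47244640256, 47244640256), (412316860416, 137438953472), (575525617664, 8589934592)] :=
  covD_split 3 (by decide +kernel) c1_m52_t3 c1_m52_t4
theorem c1_m52_t6 : CovD 0 progs [(295950090240, 14092861440), (47244640256, 47244640256), (412316860416, 137438953472), (566935683072, 17179869184)] :=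
  covD_split 3 (by decide +kernel) c1_m52_t2 c1_m52_t5
theorem c1_m52_t9 : CovD 0 progs [(288903659520, 7046430720), (47244640256, 47244640256), (412316860416, 137438953472), (592705486848, 8589934592)] :=
  covD_split 0 (by decide +kernel) c1_m52_t7 c1_m52_t8
theorem c1_m52_t11 : CovD 0 progs [(295950090240, 14092861440), (47244640256, 47244640256), (412316860416, 137438953472), (592705486848, 8589934592)] :=
  covD_split 0 (by decide +kernel) c1_m52_t9 c1_m52_t10
theorem c1_m52_t14 : CovD 0 progs [(295950090240, 14092861440), (47244640256, 47244640256), (412316860416, 137438953472), (605590388736, 4294967296)] :=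
  covD_split 3 (by decide +kernel) c1_m52_t12 c1_m52_t13
theorem c1_m52_t17 : CovD 0 progs [(295950090240, 14092861440), (47244640256, 47244640256), (412316860416, 137438953472), (614180323328, 4294967296)] :=
  covD_split 3 (by decide +kernel) c1_m52_t15 c1_m52_t16
theorem c1_m52_t18 : CovD 0 progs [(295950090240, 14092861440), (47244640256, 47244640256), (412316860416, 137438953472), (609885356032, 8589934592)] :=
  covD_split 3 (by decide +kernel) c1_m52_t14 c1_m52_t17
theorem c1_m52_t19 : CovD 0 progs [(295950090240, 14092861440), (47244640256, 47244640256), (412316860416, 137438953472), (601295421440, 17179869184)] :=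
  covD_split 3 (by decide +kernel) c1_m52_t11 c1_m52_t18
theorem c1_m52_t20 : CovD 0 progs [(295950090240, 14092861440), (47244640256, 47244640256), (412316860416, 137438953472), (584115552256, 34359738368)] :=
  covD_split 3 (by decide +kernel) c1_m52_t6 c1_m52_t19
theorem c1_m52_t24 : CovD 0 progs [(295950090240, 14092861440), (141733920768, 47244640256), (481036337152, 68719476736), (558345748480, 8589934592)] :=
  covD_split 3 (by decide +kernel) c1_m52_t22 c1_m52_t23
theorem c1_m52_t25 : CovD 0 progs [(295950090240, 14092861440), (141733920768, 47244640256), (412316860416, 137438953472), (558345748480, 8589934592)] :=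
  covD_split 2 (by decide +kernel) c1_m52_t21 c1_m52_t24
theorem c1_m52_t28 : CovD 0 progs [(295950090240, 14092861440), (141733920768, 47244640256), (412316860416, 137438953472), (571230650368, 4294967296)] :=
  covD_split 0 (by decide +kernel) c1_m52_t26 c1_m52_t27
theorem c1_m52_t31 : CovD 0 progs [(295950090240, 14092861440), (141733920768, 47244640256), (412316860416, 137438953472), (579820584960, 4294967296)] :=
  covD_split 0 (by decide +kernel) c1_m52_t29 c1_m52_t30
theorem c1_m52_t32 : CovD 0 progs [(295950090240, 14092861440), (141733920768, 47244640256), (412316860416, 137438953472), (575525617664, 8589934592)] :=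
  covD_split 3 (by decide +kernel) c1_m52_t28 c1_m52_t31
theorem c1_m52_t33 : CovD 0 progs [(295950090240, 14092861440), (141733920768, 47244640256), (412316860416, 137438953472), (566935683072, 17179869184)] :=
  covD_split 3 (by decide +kernel) c1_m52_t25 c1_m52_t32
theorem c1_m52_t36 : CovD 0 progs [(295950090240, 14092861440), (141733920768, 47244640256), (412316860416, 137438953472), (588410519552, 4294967296)] :=
  covD_split 2 (by decide +kernel) c1_m52_t34 c1_m52_t35
theorem c1_m52_t39 : CovD 0 progs [(295950090240, 14092861440), (141733920768, 47244640256), (412316860416, 137438953472), (597000454144, 4294967296)] :=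
  covD_split 0 (by decide +kernel) c1_m52_t37 c1_m52_t38
theorem c1_m52_t40 : CovD 0 progs [(295950090240, 14092861440), (141733920768, 47244640256), (412316860416, 137438953472), (592705486848, 8589934592)] :=
  covD_split 3 (by decide +kernel) c1_m52_t36 c1_m52_t39
theorem c1_m52_t43 : CovD 0 progs [(288903659520, 7046430720), (141733920768, 47244640256), (412316860416, 137438953472), (605590388736, 4294967296)] :=
  covD_split 3 (by decide +kernel) c1_m52_t41 c1_m52_t42
theorem c1_m52_t45 : CovD 0 progs [(295950090240, 14092861440), (141733920768, 47244640256), (412316860416, 137438953472), (605590388736, 4294967296)] :=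
  covD_split 0 (by decide +kernel) c1_m52_t43 c1_m52_t44
theorem c1_m52_t48 : CovD 0 progs [(295950090240, 14092861440), (141733920768, 47244640256), (412316860416, 137438953472), (614180323328, 4294967296)] :=
  covD_split 0 (by decide +kernel) c1_m52_t46 c1_m52_t47
theorem c1_m52_t49 : CovD 0 progs [(295950090240, 14092861440), (141733920768, 47244640256), (412316860416, 137438953472), (609885356032, 8589934592)] :=
  covD_split 3 (by decide +kernel) c1_m52_t45 c1_m52_t48
theorem c1_m52_t50 : CovD 0 progs [(295950090240, 14092861440), (141733920768, 47244640256), (412316860416, 137438953472), (601295421440, 17179869184)] :=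
  covD_split 3 (by decide +kernel) c1_m52_t40 c1_m52_t49
theorem c1_m52_t51 : CovD 0 progs [(295950090240, 14092861440), (141733920768, 47244640256), (412316860416, 137438953472), (584115552256, 34359738368)] :=
  covD_split 3 (by decide +kernel) c1_m52_t33 c1_m52_t50
theorem c1_m52 : CovD 0 progs [(295950090240, 14092861440), (94489280512, 94489280512), (412316860416, 137438953472), (584115552256, 34359738368)] :=
  covD_split 1 (by decide +kernel) c1_m52_t20 c1_m52_t51

end Pool.Agent.helper71.FJ.Crt.QMa
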