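import Pool.Agent.helper71.FJ.Crt.QMaP

/-!
Generated certificates.
-/

namespace Pool.Agent.helper71.FJ.Crt.QMa

open Pool.Agent.helper31.IA (Z Op)
open Pool.Agent.helper31.IC

mutual
theorem c1_m53_t0 : CovD 0 progs [(295950090240, 14092861440), (94489280512, 94489280512), (68719476736, 68719476736), (622770257920, 4294967296)] :=
  Pool.Agent.helper14.QF.covD_F chks_eq (.n 0 (.n 0 (.n 0 (.n 0 (.n 0 (.l 4) (.l 4)) (.n 0 (.l 4) (.l 4))) (.n 1 (.l 4) (.l 4))) (.n 0 (.n 0 (.l 4) (.l 4)) (.n 0 (.l 4) (.l 4)))) (.n 0 (.n 0 (.n 0 (.l 4) (.l 4)) (.l 4)) (.l 4)))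
    [(295950090240, 14092861440), (94489280512, 94489280512), (68719476736, 68719476736), (622770257920, 4294967296)] rfl (by decide +kernel)
theorem c1_m53_t1 : CovD 0 progs [(295950090240, 14092861440), (94489280512, 94489280512), (68719476736, 68719476736), (631360192512, 4294967296)] :=
  Pool.Agent.helper14.QF.covD_F chks_eq (.n 0 (.n 0 (.n 0 (.n 0 (.n 0 (.l 4) (.l 4)) (.n 0 (.l 4) (.l 4))) (.n 0 (.l 4) (.l 4))) (.n 0 (.n 0 (.l 4) (.l 4)) (.n 0 (.l 4) (.l 4)))) (.n 0 (.n 0 (.l 4) (.l 4)) (.l 4)))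
    [(295950090240, 14092861440), (94489280512, 94489280512), (68719476736, 68719476736), (631360192512, 4294967296)] rfl (by decide +kernel)
end
mutual
theorem c1_m53_t3 : CovD 0 progs [(295950090240, 14092861440), (94489280512, 94489280512), (68719476736, 68719476736), (644245094400, 8589934592)] :=
  Pool.Agent.helper14.QF.covD_F chks_eq (.n 0 (.n 0 (.n 0 (.n 2 (.l 4) (.l 4)) (.n 0 (.n 3 (.l 4) (.l 4)) (.n 3 (.l 4) (.l 4)))) (.n 3 (.n 0 (.n 0 (.l 4) (.l 4)) (.l 4)) (.n 0 (.n 0 (.l 4) (.l 4)) (.l 4)))) (.n 0 (.n 0 (.n 0 (.l 4) (.l 4)) (.l 4)) (.l 4)))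
    [(295950090240, 14092861440), (94489280512, 94489280512), (68719476736, 68719476736), (644245094400, 8589934592)] rfl (by decide +kernel)
theorem c1_m53_t5 : CovD 0 progs [(295950090240, 14092861440), (94489280512, 94489280512), (206158430208, 68719476736), (622770257920, 4294967296)] :=
  Pool.Agent.helper14.QF.covD_F chks_eq (.n 0 (.n 0 (.n 0 (.n 0 (.n 0 (.l 4) (.l 4)) (.n 1 (.l 4) (.l 4))) (.n 2 (.l 4) (.l 4))) (.n 0 (.n 2 (.l 4) (.l 4)) (.n 0 (.n 0 (.l 4) (.l 4)) (.l 4)))) (.n 0 (.n 0 (.n 0 (.l 4) (.l 4)) (.l 4)) (.l 4)))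
    [(295950090240, 14092861440), (94489280512, 94489280512), (206158430208, 68719476736), (622770257920, 4294967296)] rfl (by decide +kernel)
end
mutual
theorem c1_m53_t6 : CovD 0 progs [(295950090240, 14092861440), (94489280512, 94489280512), (206158430208, 68719476736), (631360192512, 4294967296)] :=
  Pool.Agent.helper14.QF.covD_F chks_eq (.n 0 (.n 0 (.n 0 (.n 0 (.n 1 (.l 4) (.l 4)) (.n 1 (.l 4) (.l 4))) (.n 1 (.l 4) (.l 4))) (.n 0 (.n 0 (.n 0 (.l 4) (.l 4)) (.n 0 (.l 4) (.l 4))) (.n 0 (.l 4) (.l 4)))) (.n 0 (.n 0 (.l 4) (.l 4)) (.l 4)))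
    [(295950090240, 14092861440), (94489280512, 94489280512), (206158430208, 68719476736), (631360192512, 4294967296)] rfl (by decide +kernel)
theorem c1_m53_t8 : CovD 0 progs [(295950090240, 14092861440), (94489280512, 94489280512), (206158430208, 68719476736), (644245094400, 8589934592)] :=
  Pool.Agent.helper14.QF.covD_F chks_eq (.n 0 (.n 0 (.n 2 (.n 0 (.l 4) (.n 3 (.l 4) (.n 0 (.l 4) (.l 4)))) (.n 0 (.n 0 (.l 4) (.l 4)) (.n 0 (.n 0 (.l 4) (.l 4)) (.n 0 (.l 4) (.l 4))))) (.n 3 (.n 0 (.n 0 (.n 0 (.l 4) (.l 4)) (.l 4)) (.n 0 (.l 4) (.l 4))) (.n 0 (.n 0 (.l 4) (.l 4)) (.l 4)))) (.n 0 (.n 0 (.n 0 (.l 4) (.l 4)) (.l 4)) (.l 4)))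
    [(295950090240, 14092861440), (94489280512, 94489280512), (206158430208, 68719476736), (644245094400, 8589934592)] rfl (by decide +kernel)
end
mutual
theorem c1_m53_t11 : CovD 0 progs [(295950090240, 14092861440), (94489280512, 94489280512), (68719476736, 68719476736), (661424963584, 8589934592)] :=
  Pool.Agent.helper14.QF.covD_F chks_eq (.n 0 (.n 0 (.n 3 (.n 0 (.n 0 (.l 4) (.l 4)) (.n 0 (.l 4) (.l 4))) (.n 0 (.n 0 (.n 0 (.l 4) (.l 4)) (.l 4)) (.n 0 (.l 4) (.l 4)))) (.n 0 (.n 3 (.l 4) (.l 4)) (.n 0 (.l 4) (.l 4)))) (.n 0 (.n 0 (.l 4) (.l 4)) (.l 4)))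
    [(295950090240, 14092861440), (94489280512, 94489280512), (68719476736, 68719476736), (661424963584, 8589934592)] rfl (by decide +kernel)
theorem c1_m53_t12 : CovD 0 progs [(295950090240, 14092861440), (94489280512, 94489280512), (171798691840, 34359738368), (661424963584, 8589934592)] :=
  Pool.Agent.helper14.QF.covD_F chks_eq (.n 0 (.n 0 (.n 0 (.n 0 (.n 0 (.l 4) (.l 4)) (.n 0 (.l 4) (.l 4))) (.n 3 (.n 0 (.l 4) (.l 4)) (.l 4))) (.n 0 (.n 0 (.l 4) (.l 4)) (.l 4))) (.n 0 (.n 0 (.l 4) (.l 4)) (.l 4)))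
    [(295950090240, 14092861440), (94489280512, 94489280512), (171798691840, 34359738368), (661424963584, 8589934592)] rfl (by decide +kernel)
end
mutual
theorem c1_m53_t13 : CovD 0 progs [(295950090240, 14092861440), (94489280512, 94489280512), (240518168576, 34359738368), (661424963584, 8589934592)] :=
  Pool.Agent.helper14.QF.covD_F chks_eq (.n 0 (.n 3 (.n 0 (.n 0 (.n 0 (.l 4) (.l 4)) (.n 0 (.l 4) (.l 4))) (.n 0 (.l 4) (.l 4))) (.n 0 (.n 0 (.n 0 (.l 4) (.l 4)) (.l 4)) (.n 0 (.l 4) (.l 4)))) (.n 0 (.n 0 (.l 4) (.l 4)) (.l 4)))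
    [(295950090240, 14092861440), (94489280512, 94489280512), (240518168576, 34359738368), (661424963584, 8589934592)] rfl (by decide +kernel)
theorem c1_m53_t16 : CovD 0 progs [(295950090240, 14092861440), (94489280512, 94489280512), (137438953472, 137438953472), (678604832768, 8589934592)] :=
  Pool.Agent.helper14.QF.covD_F chks_eq (.n 3 (.n 0 (.n 0 (.n 0 (.n 0 (.n 2 (.l 4) (.l 4)) (.n 2 (.l 4) (.l 4))) (.n 2 (.l 4) (.n 0 (.l 4) (.l 4)))) (.n 0 (.n 0 (.l 4) (.l 4)) (.l 4))) (.n 0 (.l 4) (.l 4))) (.n 0 (.n 0 (.n 0 (.n 0 (.n 2 (.l 4) (.l 4)) (.n 1 (.l 4) (.l 4))) (.n 1 (.l 4) (.l 4))) (.n 0 (.l 4) (.l 4))) (.n 0 (.l 4) (.l 4))))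
    [(295950090240, 14092861440), (94489280512, 94489280512), (137438953472, 137438953472), (678604832768, 8589934592)] rfl (by decide +kernel)
end
mutual
theorem c1_m53_t19 : CovD 0 progs [(285380444160, 3523215360), (94489280512, 94489280512), (412316860416, 137438953472), (622770257920, 4294967296)] :=
  Pool.Agent.helper14.QF.covD_F chks_eq (.n 0 (.n 0 (.n 1 (.n 2 (.l 4) (.l 4)) (.n 2 (.l 4) (.n 1 (.l 4) (.l 4)))) (.n 1 (.n 2 (.l 4) (.n 0 (.l 4) (.l 4))) (.n 1 (.n 2 (.l 4) (.l 4)) (.n 2 (.l 4) (.l 4))))) (.n 1 (.n 0 (.n 2 (.l 4) (.l 4)) (.n 1 (.l 4) (.l 4))) (.n 1 (.n 2 (.l 4) (.l 4)) (.n 2 (.l 4) (.n 0 (.l 4) (.l 4))))))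
    [(285380444160, 3523215360), (94489280512, 94489280512), (412316860416, 137438953472), (622770257920, 4294967296)] rfl (by decide +kernel)
theorem c1_m53_t20 : CovD 0 progs [(292426874880, 3523215360), (94489280512, 94489280512), (412316860416, 137438953472), (622770257920, 4294967296)] :=
  Pool.Agent.helper14.QF.covD_F chks_eq (.n 0 (.n 1 (.n 0 (.n 1 (.l 4) (.l 4)) (.n 2 (.l 4) (.l 4))) (.n 2 (.n 0 (.l 4) (.l 4)) (.n 2 (.l 4) (.n 0 (.l 4) (.l 4))))) (.n 0 (.n 1 (.n 1 (.l 4) (.l 4)) (.n 2 (.l 4) (.n 0 (.l 4) (.l 4)))) (.n 1 (.n 1 (.l 4) (.l 4)) (.n 2 (.l 4) (.l 4)))))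
    [(292426874880, 3523215360), (94489280512, 94489280512), (412316860416, 137438953472), (622770257920, 4294967296)] rfl (by decide +kernel)
end
mutual
theorem c1_m53_t22 : CovD 0 progs [(302996520960, 7046430720), (94489280512, 94489280512), (412316860416, 137438953472), (622770257920, 4294967296)] :=
  Pool.Agent.helper14.QF.covD_F chks_eq (.n 0 (.n 0 (.n 1 (.n 2 (.l 4) (.l 4)) (.n 2 (.l 4) (.n 0 (.l 4) (.l 4)))) (.n 1 (.l 4) (.n 0 (.l 4) (.l 4)))) (.n 0 (.n 1 (.l 4) (.l 4)) (.l 4)))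
    [(302996520960, 7046430720), (94489280512, 94489280512), (412316860416, 137438953472), (622770257920, 4294967296)] rfl (by decide +kernel)
theorem c1_m53_t24 : CovD 0 progs [(295950090240, 14092861440), (94489280512, 94489280512), (343597383680, 68719476736), (631360192512, 4294967296)] :=
  Pool.Agent.helper14.QF.covD_F chks_eq (.n 0 (.n 0 (.n 0 (.n 0 (.n 1 (.l 4) (.n 0 (.l 4) (.l 4))) (.n 1 (.l 4) (.l 4))) (.n 1 (.l 4) (.l 4))) (.n 0 (.n 0 (.n 1 (.l 4) (.l 4)) (.n 1 (.l 4) (.l 4))) (.n 0 (.n 0 (.l 4) (.l 4)) (.l 4)))) (.n 0 (.n 0 (.n 0 (.l 4) (.l 4)) (.l 4)) (.l 4)))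
    [(295950090240, 14092861440), (94489280512, 94489280512), (343597383680, 68719476736), (631360192512, 4294967296)] rfl (by decide +kernel)
end
mutual
theorem c1_m53_t25 : CovD 0 progs [(288903659520, 7046430720), (94489280512, 94489280512), (481036337152, 68719476736), (631360192512, 4294967296)] :=
  Pool.Agent.helper14.QF.covD_F chks_eq (.n 0 (.n 0 (.n 0 (.n 1 (.n 0 (.l 4) (.l 4)) (.n 1 (.l 4) (.l 4))) (.n 1 (.l 4) (.n 1 (.l 4) (.l 4)))) (.n 1 (.n 0 (.l 4) (.l 4)) (.n 1 (.l 4) (.l 4)))) (.n 0 (.n 0 (.n 1 (.l 4) (.n 0 (.l 4) (.l 4))) (.n 1 (.l 4) (.n 0 (.l 4) (.l 4)))) (.n 0 (.n 1 (.l 4) (.l 4)) (.n 1 (.l 4) (.l 4)))))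
    [(288903659520, 7046430720), (94489280512, 94489280512), (481036337152, 68719476736), (631360192512, 4294967296)] rfl (by decide +kernel)
theorem c1_m53_t26 : CovD 0 progs [(302996520960, 7046430720), (94489280512, 94489280512), (481036337152, 68719476736), (631360192512, 4294967296)] :=
  Pool.Agent.helper14.QF.covD_F chks_eq (.n 0 (.n 0 (.n 1 (.l 4) (.l 4)) (.l 4)) (.n 0 (.l 4) (.l 4)))
    [(302996520960, 7046430720), (94489280512, 94489280512), (481036337152, 68719476736), (631360192512, 4294967296)] rfl (by decide +kernel)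
end
mutual
theorem c1_m53_t30 : CovD 0 progs [(288903659520, 7046430720), (94489280512, 94489280512), (343597383680, 68719476736), (644245094400, 8589934592)] :=
  Pool.Agent.helper14.QF.covD_F chks_eq (.n 0 (.n 0 (.n 1 (.n 1 (.l 4) (.l 4)) (.n 2 (.l 4) (.l 4))) (.n 0 (.n 1 (.n 2 (.l 4) (.l 4)) (.n 3 (.l 4) (.l 4))) (.n 1 (.n 3 (.l 4) (.l 4)) (.n 3 (.l 4) (.l 4))))) (.n 3 (.n 0 (.n 0 (.n 1 (.l 4) (.l 4)) (.n 0 (.l 4) (.l 4))) (.n 0 (.l 4) (.l 4))) (.n 0 (.n 0 (.n 0 (.l 4) (.l 4)) (.l 4)) (.l 4))))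
    [(288903659520, 7046430720), (94489280512, 94489280512), (343597383680, 68719476736), (644245094400, 8589934592)] rfl (by decide +kernel)
theorem c1_m53_t31 : CovD 0 progs [(302996520960, 7046430720), (94489280512, 94489280512), (343597383680, 68719476736), (644245094400, 8589934592)] :=
  Pool.Agent.helper14.QF.covD_F chks_eq (.n 0 (.n 0 (.n 0 (.l 4) (.l 4)) (.l 4)) (.n 0 (.l 4) (.l 4)))
    [(302996520960, 7046430720), (94489280512, 94489280512), (343597383680, 68719476736), (644245094400, 8589934592)] rfl (by decide +kernel)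
end
mutual
theorem c1_m53_t33 : CovD 0 progs [(295950090240, 14092861440), (94489280512, 94489280512), (446676598784, 34359738368), (644245094400, 8589934592)] :=
  Pool.Agent.helper14.QF.covD_F chks_eq (.n 0 (.n 0 (.n 0 (.n 1 (.l 4) (.n 0 (.l 4) (.l 4))) (.n 3 (.n 1 (.l 4) (.n 0 (.l 4) (.l 4))) (.n 0 (.n 0 (.l 4) (.l 4)) (.l 4)))) (.n 0 (.n 0 (.n 3 (.l 4) (.l 4)) (.n 3 (.l 4) (.l 4))) (.n 0 (.n 0 (.l 4) (.l 4)) (.l 4)))) (.n 0 (.n 0 (.n 0 (.l 4) (.l 4)) (.l 4)) (.l 4)))
    [(295950090240, 14092861440), (94489280512, 94489280512), (446676598784, 34359738368), (644245094400, 8589934592)] rfl (by decide +kernel)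
theorem c1_m53_t34 : CovD 0 progs [(288903659520, 7046430720), (94489280512, 94489280512), (515396075520, 34359738368), (644245094400, 8589934592)] :=
  Pool.Agent.helper14.QF.covD_F chks_eq (.n 0 (.n 0 (.n 1 (.n 0 (.l 4) (.l 4)) (.n 1 (.l 4) (.l 4))) (.n 0 (.n 1 (.n 0 (.l 4) (.l 4)) (.n 1 (.l 4) (.l 4))) (.n 1 (.n 0 (.l 4) (.l 4)) (.n 3 (.l 4) (.l 4))))) (.n 0 (.n 0 (.n 1 (.n 0 (.l 4) (.l 4)) (.n 3 (.l 4) (.l 4))) (.n 3 (.n 0 (.l 4) (.l 4)) (.l 4))) (.n 3 (.n 0 (.l 4) (.l 4)) (.l 4))))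
    [(288903659520, 7046430720), (94489280512, 94489280512), (515396075520, 34359738368), (644245094400, 8589934592)] rfl (by decide +kernel)
end
mutual
theorem c1_m53_t35 : CovD 0 progs [(302996520960, 7046430720), (94489280512, 94489280512), (515396075520, 34359738368), (644245094400, 8589934592)] :=
  Pool.Agent.helper14.QF.covD_F chks_eq (.n 0 (.n 0 (.n 0 (.l 4) (.l 4)) (.l 4)) (.n 0 (.l 4) (.l 4)))
    [(302996520960, 7046430720), (94489280512, 94489280512), (515396075520, 34359738368), (644245094400, 8589934592)] rfl (by decide +kernel)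
theorem c1_m53_t40 : CovD 0 progs [(285380444160, 3523215360), (94489280512, 94489280512), (412316860416, 137438953472), (657129996288, 4294967296)] :=
  Pool.Agent.helper14.QF.covD_F chks_eq (.n 0 (.n 0 (.n 1 (.n 2 (.l 4) (.l 4)) (.n 2 (.l 4) (.n 1 (.l 4) (.l 4)))) (.n 1 (.n 2 (.l 4) (.l 4)) (.n 2 (.l 4) (.n 1 (.l 4) (.l 4))))) (.n 0 (.n 1 (.n 1 (.l 4) (.l 4)) (.n 2 (.l 4) (.n 0 (.l 4) (.l 4)))) (.n 1 (.n 1 (.l 4) (.l 4)) (.n 2 (.l 4) (.l 4)))))
    [(285380444160, 3523215360), (94489280512, 94489280512), (412316860416, 137438953472), (657129996288, 4294967296)] rfl (by decide +kernel)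
end
mutual
theorem c1_m53_t41 : CovD 0 progs [(292426874880, 3523215360), (94489280512, 94489280512), (412316860416, 137438953472), (657129996288, 4294967296)] :=
  Pool.Agent.helper14.QF.covD_F chks_eq (.n 0 (.n 0 (.n 2 (.l 4) (.n 1 (.l 4) (.l 4))) (.n 2 (.l 4) (.l 4))) (.n 1 (.l 4) (.n 0 (.l 4) (.l 4))))
    [(292426874880, 3523215360), (94489280512, 94489280512), (412316860416, 137438953472), (657129996288, 4294967296)] rfl (by decide +kernel)
theorem c1_m53_t43 : CovD 0 progs [(302996520960, 7046430720), (94489280512, 94489280512), (412316860416, 137438953472), (657129996288, 4294967296)] :=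
  Pool.Agent.helper14.QF.covD_F chks_eq (.n 0 (.n 0 (.n 0 (.l 4) (.l 4)) (.l 4)) (.l 4))
    [(302996520960, 7046430720), (94489280512, 94489280512), (412316860416, 137438953472), (657129996288, 4294967296)] rfl (by decide +kernel)
end
mutual
theorem c1_m53_t45 : CovD 0 progs [(288903659520, 7046430720), (94489280512, 94489280512), (412316860416, 137438953472), (665719930880, 4294967296)] :=
  Pool.Agent.helper14.QF.covD_F chks_eq (.n 0 (.n 0 (.n 0 (.n 1 (.n 2 (.l 4) (.l 4)) (.n 2 (.l 4) (.n 1 (.l 4) (.l 4)))) (.n 1 (.n 1 (.l 4) (.l 4)) (.n 2 (.l 4) (.n 0 (.l 4) (.l 4))))) (.n 0 (.n 1 (.n 1 (.l 4) (.l 4)) (.n 2 (.l 4) (.l 4))) (.n 2 (.l 4) (.n 1 (.l 4) (.l 4))))) (.n 0 (.n 2 (.l 4) (.n 0 (.l 4) (.l 4))) (.n 1 (.l 4) (.l 4))))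
    [(288903659520, 7046430720), (94489280512, 94489280512), (412316860416, 137438953472), (665719930880, 4294967296)] rfl (by decide +kernel)
theorem c1_m53_t46 : CovD 0 progs [(302996520960, 7046430720), (94489280512, 94489280512), (412316860416, 137438953472), (665719930880, 4294967296)] :=
  Pool.Agent.helper14.QF.covD_F chks_eq (.n 0 (.n 0 (.l 4) (.l 4)) (.l 4))
    [(302996520960, 7046430720), (94489280512, 94489280512), (412316860416, 137438953472), (665719930880, 4294967296)] rfl (by decide +kernel)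
end
mutual
theorem c1_m53_t49 : CovD 0 progs [(295950090240, 14092861440), (94489280512, 94489280512), (412316860416, 137438953472), (674309865472, 4294967296)] :=
  Pool.Agent.helper14.QF.covD_F chks_eq (.n 0 (.n 0 (.n 0 (.n 0 (.n 1 (.n 1 (.l 4) (.l 4)) (.n 2 (.l 4) (.n 0 (.l 4) (.l 4)))) (.n 1 (.n 1 (.l 4) (.l 4)) (.n 2 (.l 4) (.l 4)))) (.n 0 (.n 1 (.l 4) (.n 1 (.l 4) (.l 4))) (.n 2 (.l 4) (.l 4)))) (.n 0 (.n 2 (.l 4) (.l 4)) (.n 0 (.l 4) (.l 4)))) (.n 0 (.n 0 (.l 4) (.l 4)) (.l 4)))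
    [(295950090240, 14092861440), (94489280512, 94489280512), (412316860416, 137438953472), (674309865472, 4294967296)] rfl (by decide +kernel)
theorem c1_m53_t50 : CovD 0 progs [(295950090240, 14092861440), (94489280512, 94489280512), (412316860416, 137438953472), (682899800064, 4294967296)] :=
  Pool.Agent.helper14.QF.covD_F chks_eq (.n 0 (.n 0 (.n 0 (.n 0 (.n 2 (.l 4) (.n 1 (.l 4) (.l 4))) (.n 1 (.l 4) (.n 1 (.l 4) (.l 4)))) (.n 2 (.l 4) (.n 0 (.l 4) (.l 4)))) (.n 0 (.n 1 (.l 4) (.l 4)) (.l 4))) (.n 0 (.l 4) (.l 4)))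
    [(295950090240, 14092861440), (94489280512, 94489280512), (412316860416, 137438953472), (682899800064, 4294967296)] rfl (by decide +kernel)
end
theorem c1_m53_t2 : CovD 0 progs [(295950090240, 14092861440), (94489280512, 94489280512), (68719476736, 68719476736), (627065225216, 8589934592)] :=
  covD_split 3 (by decide +kernel) c1_m53_t0 c1_m53_t1
theorem c1_m53_t4 : CovD 0 progs [(295950090240, 14092861440), (94489280512, 94489280512), (68719476736, 68719476736), (635655159808, 17179869184)] :=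
  covD_split 3 (by decide +kernel) c1_m53_t2 c1_m53_t3
theorem c1_m53_t7 : CovD 0 progs [(295950090240, 14092861440), (94489280512, 94489280512), (206158430208, 68719476736), (627065225216, 8589934592)] :=
  covD_split 3 (by decide +kernel) c1_m53_t5 c1_m53_t6
theorem c1_m53_t9 : CovD 0 progs [(295950090240, 14092861440), (94489280512, 94489280512), (206158430208, 68719476736), (635655159808, 17179869184)] :=
  covD_split 3 (by decide +kernel) c1_m53_t7 c1_m53_t8
theorem c1_m53_t10 : CovD 0 progs [(295950090240, 14092861440), (94489280512, 94489280512), (137438953472, 137438953472), (635655159808, 17179869184)] :=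
  covD_split 2 (by decide +kernel) c1_m53_t4 c1_m53_t9
theorem c1_m53_t14 : CovD 0 progs [(295950090240, 14092861440), (94489280512, 94489280512), (206158430208, 68719476736), (661424963584, 8589934592)] :=
  covD_split 2 (by decide +kernel) c1_m53_t12 c1_m53_t13
theorem c1_m53_t15 : CovD 0 progs [(295950090240, 14092861440), (94489280512, 94489280512), (137438953472, 137438953472), (661424963584, 8589934592)] :=
  covD_split 2 (by decide +kernel) c1_m53_t11 c1_m53_t14
theorem c1_m53_t17 : CovD 0 progs [(295950090240, 14092861440), (94489280512, 94489280512), (137438953472, 137438953472), (670014898176, 17179869184)] :=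
  covD_split 3 (by decide +kernel) c1_m53_t15 c1_m53_t16
theorem c1_m53_t18 : CovD 0 progs [(295950090240, 14092861440), (94489280512, 94489280512), (137438953472, 137438953472), (652835028992, 34359738368)] :=
  covD_split 3 (by decide +kernel) c1_m53_t10 c1_m53_t17
theorem c1_m53_t21 : CovD 0 progs [(288903659520, 7046430720), (94489280512, 94489280512), (412316860416, 137438953472), (622770257920, 4294967296)] :=
  covD_split 0 (by decide +kernel) c1_m53_t19 c1_m53_t20
theorem c1_m53_t23 : CovD 0 progs [(295950090240, 14092861440), (94489280512, 94489280512), (412316860416, 137438953472), (622770257920, 4294967296)] :=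
  covD_split 0 (by decide +kernel) c1_m53_t21 c1_m53_t22
theorem c1_m53_t27 : CovD 0 progs [(295950090240, 14092861440), (94489280512, 94489280512), (481036337152, 68719476736), (631360192512, 4294967296)] :=
  covD_split 0 (by decide +kernel) c1_m53_t25 c1_m53_t26
theorem c1_m53_t28 : CovD 0 progs [(295950090240, 14092861440), (94489280512, 94489280512), (412316860416, 137438953472), (631360192512, 4294967296)] :=
  covD_split 2 (by decide +kernel) c1_m53_t24 c1_m53_t27
theorem c1_m53_t29 : CovD 0 progs [(295950090240, 14092861440), (94489280512, 94489280512), (412316860416, 137438953472), (627065225216, 8589934592)] :=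
  covD_split 3 (by decide +kernel) c1_m53_t23 c1_m53_t28
theorem c1_m53_t32 : CovD 0 progs [(295950090240, 14092861440), (94489280512, 94489280512), (343597383680, 68719476736), (644245094400, 8589934592)] :=
  covD_split 0 (by decide +kernel) c1_m53_t30 c1_m53_t31
theorem c1_m53_t36 : CovD 0 progs [(295950090240, 14092861440), (94489280512, 94489280512), (515396075520, 34359738368), (644245094400, 8589934592)] :=
  covD_split 0 (by decide +kernel) c1_m53_t34 c1_m53_t35
theorem c1_m53_t37 : CovD 0 progs [(295950090240, 14092861440), (94489280512, 94489280512), (481036337152, 68719476736), (644245094400, 8589934592)] :=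
  covD_split 2 (by decide +kernel) c1_m53_t33 c1_m53_t36
theorem c1_m53_t38 : CovD 0 progs [(295950090240, 14092861440), (94489280512, 94489280512), (412316860416, 137438953472), (644245094400, 8589934592)] :=
  covD_split 2 (by decide +kernel) c1_m53_t32 c1_m53_t37
theorem c1_m53_t39 : CovD 0 progs [(295950090240, 14092861440), (94489280512, 94489280512), (412316860416, 137438953472), (635655159808, 17179869184)] :=
  covD_split 3 (by decide +kernel) c1_m53_t29 c1_m53_t38
theorem c1_m53_t42 : CovD 0 progs [(288903659520, 7046430720), (94489280512, 94489280512), (412316860416, 137438953472), (657129996288, 4294967296)] :=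
  covD_split 0 (by decide +kernel) c1_m53_t40 c1_m53_t41
theorem c1_m53_t44 : CovD 0 progs [(295950090240, 14092861440), (94489280512, 94489280512), (412316860416, 137438953472), (657129996288, 4294967296)] :=
  covD_split 0 (by decide +kernel) c1_m53_t42 c1_m53_t43
theorem c1_m53_t47 : CovD 0 progs [(295950090240, 14092861440), (94489280512, 94489280512), (412316860416, 137438953472), (665719930880, 4294967296)] :=
  covD_split 0 (by decide +kernel) c1_m53_t45 c1_m53_t46
theorem c1_m53_t48 : CovD 0 progs [(295950090240, 14092861440), (94489280512, 94489280512), (412316860416, 137438953472), (661424963584, 8589934592)] :=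
  covD_split 3 (by decide +kernel) c1_m53_t44 c1_m53_t47
theorem c1_m53_t51 : CovD 0 progs [(295950090240, 14092861440), (94489280512, 94489280512), (412316860416, 137438953472), (678604832768, 8589934592)] :=
  covD_split 3 (by decide +kernel) c1_m53_t49 c1_m53_t50
theorem c1_m53_t52 : CovD 0 progs [(295950090240, 14092861440), (94489280512, 94489280512), (412316860416, 137438953472), (670014898176, 17179869184)] :=
  covD_split 3 (by decide +kernel) c1_m53_t48 c1_m53_t51
theorem c1_m53_t53 : CovD 0 progs [(295950090240, 14092861440), (94489280512, 94489280512), (412316860416, 137438953472), (652835028992, 34359738368)] :=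
  covD_split 3 (by decide +kernel) c1_m53_t39 c1_m53_t52
theorem c1_m53 : CovD 0 progs [(295950090240, 14092861440), (94489280512, 94489280512), (274877906944, 274877906944), (652835028992, 34359738368)] :=
  covD_split 2 (by decide +kernel) c1_m53_t18 c1_m53_t53

end Pool.Agent.helper71.FJ.Crt.QMa
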