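import Pool.Agent.helper71.FJ.Crt.QMaP

/-!
Generated certificates.
-/

namespace Pool.Agent.helper71.FJ.Crt.QMa

open Pool.Agent.helper31.IA (Z Op)
open Pool.Agent.helper31.IC

theorem c1_m58 : CovD 0 progs [(239578644480, 14092861440), (94489280512, 94489280512), (824633720832, 274877906944), (618475290624, 68719476736)] :=
  Pool.Agent.helper14.QF.covD_F chks_eq (.n 1 (.n 2 (.n 2 (.n 2 (.l 6) (.l 6)) (.l 6)) (.l 6)) (.n 2 (.n 2 (.n 0 (.n 0 (.l 6) (.n 3 (.n 0 (.l 4) (.l 4)) (.l 6))) (.n 0 (.n 0 (.n 3 (.l 4) (.n 3 (.l 4) (.l 4))) (.n 3 (.l 4) (.n 3 (.l 4) (.l 4)))) (.n 3 (.n 3 (.l 4) (.l 4)) (.n 0 (.n 3 (.l 4) (.n 0 (.l 4) (.l 4))) (.n 3 (.l 4) (.n 3 (.l 4) (.l 4))))))) (.l 6)) (.l 6)))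
    [(239578644480, 14092861440), (94489280512, 94489280512), (824633720832, 274877906944), (618475290624, 68719476736)] rfl (by decide +kernel)

end Pool.Agent.helper71.FJ.Crt.QMa
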