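import Pool.Agent.helper71.FJ.Crt.QMaP

/-!
Generated certificates.
-/

namespace Pool.Agent.helper71.FJ.Crt.QMa

open Pool.Agent.helper31.IA (Z Op)
open Pool.Agent.helper31.IC

mutual
theorem c1_m59_t0 : CovD 0 progs [(260717936640, 7046430720), (94489280512, 94489280512), (687194767360, 137438953472), (584115552256, 34359738368)] :=
  Pool.Agent.helper14.QF.covD_F chks_eq (.n 2 (.n 0 (.n 0 (.n 3 (.l 4) (.l 4)) (.n 3 (.l 4) (.l 4))) (.n 0 (.n 3 (.l 4) (.n 0 (.l 4) (.l 4))) (.n 3 (.l 4) (.n 0 (.l 4) (.l 4))))) (.n 1 (.l 6) (.n 1 (.l 6) (.n 0 (.l 6) (.n 0 (.n 3 (.l 4) (.l 4)) (.n 3 (.l 4) (.l 4)))))))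
    [(260717936640, 7046430720), (94489280512, 94489280512), (687194767360, 137438953472), (584115552256, 34359738368)] rfl (by decide +kernel)
theorem c1_m59_t1 : CovD 0 progs [(271287582720, 3523215360), (94489280512, 94489280512), (687194767360, 137438953472), (584115552256, 34359738368)] :=
  Pool.Agent.helper14.QF.covD_F chks_eq (.n 1 (.n 0 (.n 3 (.l 4) (.n 3 (.l 4) (.l 4))) (.n 2 (.n 3 (.l 4) (.n 3 (.l 4) (.l 4))) (.l 6))) (.n 0 (.n 3 (.l 4) (.n 3 (.l 4) (.n 0 (.l 4) (.l 4)))) (.n 0 (.n 3 (.l 4) (.n 3 (.l 4) (.n 0 (.l 4) (.l 4)))) (.n 3 (.l 4) (.n 3 (.l 4) (.n 1 (.l 4) (.l 4)))))))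
    [(271287582720, 3523215360), (94489280512, 94489280512), (687194767360, 137438953472), (584115552256, 34359738368)] rfl (by decide +kernel)
end
mutual
theorem c1_m59_t2 : CovD 0 progs [(276572405760, 1761607680), (94489280512, 94489280512), (687194767360, 137438953472), (584115552256, 34359738368)] :=
  Pool.Agent.helper14.QF.covD_F chks_eq (.n 1 (.n 2 (.n 3 (.n 0 (.l 4) (.l 4)) (.n 3 (.l 4) (.n 0 (.l 4) (.l 4)))) (.l 6)) (.n 0 (.n 1 (.n 3 (.l 4) (.n 3 (.l 4) (.l 4))) (.n 3 (.l 4) (.n 3 (.l 4) (.n 1 (.l 4) (.l 4))))) (.n 2 (.n 3 (.l 4) (.n 3 (.l 4) (.n 0 (.l 4) (.l 4)))) (.n 3 (.l 4) (.n 3 (.l 4) (.n 1 (.l 4) (.l 4)))))))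
    [(276572405760, 1761607680), (94489280512, 94489280512), (687194767360, 137438953472), (584115552256, 34359738368)] rfl (by decide +kernel)
theorem c1_m59_t3 : CovD 0 progs [(279214817280, 880803840), (94489280512, 94489280512), (687194767360, 137438953472), (584115552256, 34359738368)] :=
  Pool.Agent.helper14.QF.covD_F chks_eq (.n 1 (.n 3 (.n 3 (.l 4) (.l 4)) (.n 2 (.n 3 (.l 4) (.n 0 (.l 4) (.l 4))) (.l 6))) (.n 3 (.n 3 (.l 4) (.n 0 (.l 4) (.l 4))) (.n 2 (.n 3 (.l 4) (.n 3 (.l 4) (.l 4))) (.n 3 (.n 0 (.l 4) (.l 4)) (.n 3 (.l 4) (.n 1 (.l 4) (.l 4)))))))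
    [(279214817280, 880803840), (94489280512, 94489280512), (687194767360, 137438953472), (584115552256, 34359738368)] rfl (by decide +kernel)
end
mutual
theorem c1_m59_t4 : CovD 0 progs [(280976424960, 880803840), (94489280512, 94489280512), (687194767360, 137438953472), (584115552256, 34359738368)] :=
  Pool.Agent.helper14.QF.covD_F chks_eq (.n 1 (.n 3 (.n 3 (.l 4) (.l 4)) (.n 2 (.n 3 (.l 4) (.n 3 (.l 4) (.l 4))) (.l 6))) (.n 3 (.n 3 (.l 4) (.n 1 (.l 4) (.l 4))) (.n 3 (.n 1 (.n 1 (.l 4) (.l 4)) (.n 2 (.l 4) (.l 4))) (.n 2 (.n 3 (.l 4) (.n 0 (.l 4) (.l 4))) (.n 1 (.n 3 (.l 4) (.l 4)) (.n 2 (.l 4) (.l 4)))))))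
    [(280976424960, 880803840), (94489280512, 94489280512), (687194767360, 137438953472), (584115552256, 34359738368)] rfl (by decide +kernel)
theorem c1_m59_t9 : CovD 0 progs [(267764367360, 14092861440), (94489280512, 94489280512), (962072674304, 137438953472), (584115552256, 34359738368)] :=
  Pool.Agent.helper14.QF.covD_F chks_eq (.n 1 (.l 6) (.n 2 (.l 6) (.l 6)))
    [(267764367360, 14092861440), (94489280512, 94489280512), (962072674304, 137438953472), (584115552256, 34359738368)] rfl (by decide +kernel)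
end
mutual
theorem c1_m59_t11 : CovD 0 progs [(260717936640, 7046430720), (47244640256, 47244640256), (618475290624, 68719476736), (652835028992, 34359738368)] :=
  Pool.Agent.helper14.QF.covD_F chks_eq (.n 1 (.n 1 (.l 6) (.n 2 (.l 6) (.l 6))) (.n 2 (.n 0 (.n 2 (.n 2 (.l 6) (.l 6)) (.l 6)) (.n 3 (.n 0 (.n 3 (.l 4) (.l 4)) (.n 3 (.l 4) (.l 4))) (.n 2 (.n 0 (.n 0 (.l 6) (.n 3 (.l 4) (.l 6))) (.n 0 (.n 3 (.l 4) (.n 0 (.l 4) (.l 4))) (.n 3 (.l 4) (.n 3 (.l 4) (.l 4))))) (.l 6)))) (.l 6)))
    [(260717936640, 7046430720), (47244640256, 47244640256), (618475290624, 68719476736), (652835028992, 34359738368)] rfl (by decide +kernel)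
theorem c1_m59_t12 : CovD 0 progs [(257194721280, 3523215360), (141733920768, 47244640256), (618475290624, 68719476736), (652835028992, 34359738368)] :=
  Pool.Agent.helper14.QF.covD_F chks_eq (.n 0 (.n 3 (.l 4) (.n 3 (.l 4) (.n 0 (.l 4) (.l 4)))) (.n 3 (.n 0 (.l 4) (.l 4)) (.n 3 (.l 4) (.n 3 (.l 4) (.l 4)))))
    [(257194721280, 3523215360), (141733920768, 47244640256), (618475290624, 68719476736), (652835028992, 34359738368)] rfl (by decide +kernel)
end
mutual
theorem c1_m59_t13 : CovD 0 progs [(264241152000, 3523215360), (141733920768, 47244640256), (618475290624, 68719476736), (652835028992, 34359738368)] :=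
  Pool.Agent.helper14.QF.covD_F chks_eq (.n 3 (.n 0 (.n 3 (.l 4) (.l 4)) (.n 3 (.l 4) (.n 0 (.l 4) (.l 4)))) (.n 3 (.n 0 (.n 0 (.l 4) (.l 4)) (.n 0 (.n 0 (.l 4) (.l 4)) (.n 3 (.l 4) (.l 4)))) (.n 0 (.n 0 (.n 3 (.l 4) (.l 4)) (.n 3 (.l 4) (.n 0 (.l 4) (.l 4)))) (.n 0 (.n 3 (.l 4) (.n 1 (.l 4) (.l 4))) (.n 1 (.n 3 (.l 4) (.l 4)) (.n 3 (.l 4) (.n 0 (.l 4) (.l 4))))))))
    [(264241152000, 3523215360), (141733920768, 47244640256), (618475290624, 68719476736), (652835028992, 34359738368)] rfl (by decide +kernel)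
theorem c1_m59_t16 : CovD 0 progs [(268645171200, 880803840), (94489280512, 94489280512), (618475290624, 68719476736), (652835028992, 34359738368)] :=
  Pool.Agent.helper14.QF.covD_F chks_eq (.n 3 (.n 3 (.l 4) (.n 1 (.l 4) (.l 4))) (.n 2 (.n 3 (.n 3 (.l 4) (.n 0 (.l 4) (.l 4))) (.n 1 (.n 3 (.l 4) (.l 4)) (.n 3 (.l 4) (.n 0 (.l 4) (.l 4))))) (.n 1 (.l 6) (.n 3 (.n 3 (.l 4) (.l 4)) (.n 1 (.n 3 (.l 4) (.l 4)) (.n 3 (.l 4) (.l 4)))))))
    [(268645171200, 880803840), (94489280512, 94489280512), (618475290624, 68719476736), (652835028992, 34359738368)] rfl (by decide +kernel)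
end
mutual
theorem c1_m59_t17 : CovD 0 progs [(270406778880, 880803840), (94489280512, 94489280512), (618475290624, 68719476736), (652835028992, 34359738368)] :=
  Pool.Agent.helper14.QF.covD_F chks_eq (.n 1 (.n 2 (.n 3 (.n 3 (.l 4) (.l 4)) (.n 3 (.n 3 (.l 4) (.l 4)) (.n 1 (.l 6) (.n 3 (.l 4) (.l 4))))) (.l 6)) (.n 1 (.n 3 (.n 3 (.l 4) (.l 4)) (.n 3 (.n 3 (.l 4) (.l 4)) (.n 0 (.n 3 (.l 4) (.l 4)) (.n 3 (.l 4) (.l 4))))) (.n 3 (.n 3 (.l 4) (.l 4)) (.n 3 (.n 3 (.l 4) (.l 4)) (.n 1 (.n 3 (.l 4) (.l 4)) (.n 3 (.l 4) (.l 4)))))))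
    [(270406778880, 880803840), (94489280512, 94489280512), (618475290624, 68719476736), (652835028992, 34359738368)] rfl (by decide +kernel)
theorem c1_m59_t19 : CovD 0 progs [(272168386560, 880803840), (47244640256, 47244640256), (618475290624, 68719476736), (652835028992, 34359738368)] :=
  Pool.Agent.helper14.QF.covD_F chks_eq (.n 3 (.n 3 (.l 4) (.n 3 (.l 4) (.l 4))) (.n 2 (.n 3 (.n 3 (.l 4) (.l 4)) (.n 3 (.l 4) (.l 4))) (.l 6)))
    [(272168386560, 880803840), (47244640256, 47244640256), (618475290624, 68719476736), (652835028992, 34359738368)] rfl (by decide +kernel)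
end
mutual
theorem c1_m59_t20 : CovD 0 progs [(272168386560, 880803840), (141733920768, 47244640256), (618475290624, 68719476736), (652835028992, 34359738368)] :=
  Pool.Agent.helper14.QF.covD_F chks_eq (.n 3 (.n 3 (.l 4) (.n 3 (.l 4) (.n 0 (.l 4) (.l 4)))) (.n 3 (.n 1 (.n 3 (.l 4) (.n 0 (.l 4) (.l 4))) (.n 3 (.l 4) (.n 0 (.l 4) (.l 4)))) (.n 1 (.n 0 (.n 3 (.l 4) (.l 4)) (.n 3 (.l 4) (.l 4))) (.n 1 (.n 3 (.l 4) (.l 4)) (.n 3 (.l 4) (.l 4))))))
    [(272168386560, 880803840), (141733920768, 47244640256), (618475290624, 68719476736), (652835028992, 34359738368)] rfl (by decide +kernel)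
theorem c1_m59_t22 : CovD 0 progs [(273929994240, 880803840), (47244640256, 47244640256), (618475290624, 68719476736), (652835028992, 34359738368)] :=
  Pool.Agent.helper14.QF.covD_F chks_eq (.n 3 (.n 3 (.l 4) (.n 3 (.l 4) (.l 4))) (.n 2 (.n 3 (.n 3 (.l 4) (.l 4)) (.n 3 (.l 4) (.l 4))) (.l 6)))
    [(273929994240, 880803840), (47244640256, 47244640256), (618475290624, 68719476736), (652835028992, 34359738368)] rfl (by decide +kernel)
end
mutual
theorem c1_m59_t23 : CovD 0 progs [(273929994240, 880803840), (141733920768, 47244640256), (618475290624, 68719476736), (652835028992, 34359738368)] :=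
  Pool.Agent.helper14.QF.covD_F chks_eq (.n 1 (.n 3 (.n 3 (.l 4) (.n 3 (.l 4) (.l 4))) (.n 3 (.n 3 (.l 4) (.n 0 (.l 4) (.l 4))) (.n 3 (.n 0 (.l 4) (.l 4)) (.l 4)))) (.n 3 (.n 3 (.l 4) (.n 3 (.l 4) (.l 4))) (.n 3 (.n 0 (.n 3 (.l 4) (.l 4)) (.n 3 (.l 4) (.l 4))) (.n 3 (.n 1 (.l 4) (.l 4)) (.l 4)))))
    [(273929994240, 880803840), (141733920768, 47244640256), (618475290624, 68719476736), (652835028992, 34359738368)] rfl (by decide +kernel)
theorem c1_m59_t27 : CovD 0 progs [(275691601920, 880803840), (47244640256, 47244640256), (618475290624, 68719476736), (652835028992, 34359738368)] :=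
  Pool.Agent.helper14.QF.covD_F chks_eq (.n 3 (.n 3 (.n 0 (.l 4) (.l 4)) (.n 3 (.l 4) (.n 0 (.l 4) (.l 4)))) (.n 1 (.n 3 (.n 3 (.l 4) (.l 4)) (.l 4)) (.n 3 (.n 3 (.l 4) (.l 4)) (.l 4))))
    [(275691601920, 880803840), (47244640256, 47244640256), (618475290624, 68719476736), (652835028992, 34359738368)] rfl (by decide +kernel)
end
mutual
theorem c1_m59_t28 : CovD 0 progs [(275691601920, 880803840), (141733920768, 47244640256), (618475290624, 68719476736), (652835028992, 34359738368)] :=
  Pool.Agent.helper14.QF.covD_F chks_eq (.n 1 (.n 0 (.n 3 (.n 3 (.l 4) (.n 1 (.l 4) (.l 4))) (.n 3 (.n 3 (.l 4) (.l 4)) (.l 4))) (.n 3 (.n 3 (.l 4) (.n 3 (.l 4) (.l 4))) (.n 3 (.n 3 (.l 4) (.l 4)) (.l 4)))) (.n 1 (.n 3 (.n 3 (.l 4) (.n 3 (.l 4) (.l 4))) (.n 3 (.n 3 (.l 4) (.l 4)) (.l 4))) (.n 3 (.n 3 (.l 4) (.n 3 (.l 4) (.l 4))) (.n 3 (.n 3 (.l 4) (.l 4)) (.l 4)))))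
    [(275691601920, 880803840), (141733920768, 47244640256), (618475290624, 68719476736), (652835028992, 34359738368)] rfl (by decide +kernel)
theorem c1_m59_t30 : CovD 0 progs [(277453209600, 880803840), (47244640256, 47244640256), (618475290624, 68719476736), (652835028992, 34359738368)] :=
  Pool.Agent.helper14.QF.covD_F chks_eq (.n 3 (.n 3 (.n 3 (.l 4) (.l 4)) (.n 1 (.n 3 (.l 4) (.l 4)) (.n 3 (.l 4) (.l 4)))) (.n 1 (.n 2 (.n 3 (.n 0 (.l 4) (.l 4)) (.l 4)) (.l 6)) (.n 3 (.n 3 (.l 4) (.l 4)) (.n 3 (.l 4) (.l 4)))))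
    [(277453209600, 880803840), (47244640256, 47244640256), (618475290624, 68719476736), (652835028992, 34359738368)] rfl (by decide +kernel)
end
mutual
theorem c1_m59_t31 : CovD 0 progs [(277453209600, 880803840), (118111600640, 23622320128), (618475290624, 68719476736), (652835028992, 34359738368)] :=
  Pool.Agent.helper14.QF.covD_F chks_eq (.n 0 (.n 3 (.n 3 (.l 4) (.n 3 (.l 4) (.l 4))) (.n 2 (.n 3 (.l 4) (.l 4)) (.n 3 (.l 4) (.l 4)))) (.n 3 (.n 3 (.l 4) (.n 3 (.l 4) (.l 4))) (.n 1 (.n 3 (.l 4) (.l 4)) (.n 3 (.l 4) (.l 4)))))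
    [(277453209600, 880803840), (118111600640, 23622320128), (618475290624, 68719476736), (652835028992, 34359738368)] rfl (by decide +kernel)
theorem c1_m59_t32 : CovD 0 progs [(277453209600, 880803840), (165356240896, 23622320128), (618475290624, 68719476736), (652835028992, 34359738368)] :=
  Pool.Agent.helper14.QF.covD_F chks_eq (.n 2 (.n 3 (.n 3 (.n 0 (.l 4) (.l 4)) (.n 3 (.l 4) (.l 4))) (.n 0 (.n 3 (.l 4) (.l 4)) (.n 3 (.l 4) (.l 4)))) (.n 3 (.n 3 (.n 0 (.l 4) (.l 4)) (.n 3 (.l 4) (.l 4))) (.n 0 (.n 3 (.l 4) (.l 4)) (.n 3 (.l 4) (.l 4)))))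
    [(277453209600, 880803840), (165356240896, 23622320128), (618475290624, 68719476736), (652835028992, 34359738368)] rfl (by decide +kernel)
end
mutual
theorem c1_m59_t36 : CovD 0 progs [(279214817280, 880803840), (47244640256, 47244640256), (618475290624, 68719476736), (652835028992, 34359738368)] :=
  Pool.Agent.helper14.QF.covD_F chks_eq (.n 3 (.n 3 (.n 3 (.l 4) (.n 0 (.l 4) (.l 4))) (.n 1 (.n 3 (.l 4) (.l 4)) (.n 3 (.l 4) (.l 4)))) (.n 1 (.n 3 (.l 4) (.n 3 (.l 4) (.l 4))) (.n 3 (.l 4) (.n 3 (.l 4) (.l 4)))))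
    [(279214817280, 880803840), (47244640256, 47244640256), (618475290624, 68719476736), (652835028992, 34359738368)] rfl (by decide +kernel)
theorem c1_m59_t37 : CovD 0 progs [(279214817280, 880803840), (118111600640, 23622320128), (618475290624, 68719476736), (652835028992, 34359738368)] :=
  Pool.Agent.helper14.QF.covD_F chks_eq (.n 2 (.n 3 (.n 3 (.n 0 (.l 4) (.l 4)) (.n 3 (.l 4) (.l 4))) (.n 3 (.l 4) (.n 0 (.l 4) (.l 4)))) (.n 3 (.n 3 (.n 0 (.l 4) (.l 4)) (.n 3 (.l 4) (.l 4))) (.n 3 (.l 4) (.n 3 (.l 4) (.l 4)))))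
    [(279214817280, 880803840), (118111600640, 23622320128), (618475290624, 68719476736), (652835028992, 34359738368)] rfl (by decide +kernel)
end
mutual
theorem c1_m59_t38 : CovD 0 progs [(279214817280, 880803840), (165356240896, 23622320128), (618475290624, 68719476736), (652835028992, 34359738368)] :=
  Pool.Agent.helper14.QF.covD_F chks_eq (.n 2 (.n 3 (.n 3 (.n 0 (.l 4) (.l 4)) (.n 3 (.l 4) (.l 4))) (.n 3 (.l 4) (.n 0 (.l 4) (.l 4)))) (.n 3 (.n 3 (.n 0 (.l 4) (.l 4)) (.n 3 (.l 4) (.l 4))) (.n 3 (.l 4) (.n 0 (.l 4) (.l 4)))))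
    [(279214817280, 880803840), (165356240896, 23622320128), (618475290624, 68719476736), (652835028992, 34359738368)] rfl (by decide +kernel)
theorem c1_m59_t41 : CovD 0 progs [(280976424960, 880803840), (47244640256, 47244640256), (618475290624, 68719476736), (652835028992, 34359738368)] :=
  Pool.Agent.helper14.QF.covD_F chks_eq (.n 3 (.n 3 (.n 1 (.n 3 (.l 4) (.l 4)) (.n 3 (.l 4) (.l 4))) (.n 1 (.n 3 (.l 4) (.l 4)) (.n 3 (.l 4) (.l 4)))) (.n 3 (.n 1 (.l 4) (.n 0 (.l 4) (.l 4))) (.n 3 (.n 0 (.l 4) (.l 4)) (.l 4))))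
    [(280976424960, 880803840), (47244640256, 47244640256), (618475290624, 68719476736), (652835028992, 34359738368)] rfl (by decide +kernel)
end
mutual
theorem c1_m59_t42 : CovD 0 progs [(280976424960, 880803840), (118111600640, 23622320128), (618475290624, 68719476736), (652835028992, 34359738368)] :=
  Pool.Agent.helper14.QF.covD_F chks_eq (.n 2 (.n 3 (.n 0 (.n 3 (.l 4) (.l 4)) (.n 3 (.l 4) (.l 4))) (.n 3 (.l 4) (.n 0 (.l 4) (.l 4)))) (.n 3 (.n 3 (.n 3 (.l 4) (.l 4)) (.n 0 (.l 4) (.l 4))) (.n 3 (.l 4) (.n 0 (.l 4) (.l 4)))))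
    [(280976424960, 880803840), (118111600640, 23622320128), (618475290624, 68719476736), (652835028992, 34359738368)] rfl (by decide +kernel)
theorem c1_m59_t43 : CovD 0 progs [(280976424960, 880803840), (165356240896, 23622320128), (618475290624, 68719476736), (652835028992, 34359738368)] :=
  Pool.Agent.helper14.QF.covD_F chks_eq (.n 2 (.n 3 (.n 0 (.n 3 (.l 4) (.l 4)) (.n 3 (.l 4) (.l 4))) (.n 3 (.l 4) (.n 0 (.l 4) (.l 4)))) (.n 3 (.n 0 (.n 3 (.l 4) (.l 4)) (.n 3 (.l 4) (.l 4))) (.n 3 (.l 4) (.n 0 (.l 4) (.l 4)))))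
    [(280976424960, 880803840), (165356240896, 23622320128), (618475290624, 68719476736), (652835028992, 34359738368)] rfl (by decide +kernel)
end
mutual
theorem c1_m59_t50 : CovD 0 progs [(260717936640, 7046430720), (94489280512, 94489280512), (721554505728, 34359738368), (652835028992, 34359738368)] :=
  Pool.Agent.helper14.QF.covD_F chks_eq (.n 1 (.l 6) (.n 1 (.l 6) (.n 2 (.n 2 (.l 6) (.l 6)) (.l 6))))
    [(260717936640, 7046430720), (94489280512, 94489280512), (721554505728, 34359738368), (652835028992, 34359738368)] rfl (by decide +kernel)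
theorem c1_m59_t51 : CovD 0 progs [(271287582720, 3523215360), (94489280512, 94489280512), (721554505728, 34359738368), (652835028992, 34359738368)] :=
  Pool.Agent.helper14.QF.covD_F chks_eq (.n 1 (.l 6) (.n 1 (.l 6) (.n 3 (.n 0 (.n 3 (.l 4) (.n 0 (.l 4) (.l 4))) (.n 0 (.n 3 (.l 4) (.l 4)) (.n 3 (.l 4) (.n 0 (.l 4) (.l 4))))) (.n 1 (.l 6) (.n 2 (.n 0 (.n 0 (.l 6) (.n 3 (.l 4) (.l 4))) (.n 0 (.n 3 (.l 4) (.l 4)) (.n 3 (.l 4) (.l 4)))) (.l 6))))))
    [(271287582720, 3523215360), (94489280512, 94489280512), (721554505728, 34359738368), (652835028992, 34359738368)] rfl (by decide +kernel)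
end
mutual
theorem c1_m59_t52 : CovD 0 progs [(278334013440, 3523215360), (47244640256, 47244640256), (721554505728, 34359738368), (652835028992, 34359738368)] :=
  Pool.Agent.helper14.QF.covD_F chks_eq (.l 6)
    [(278334013440, 3523215360), (47244640256, 47244640256), (721554505728, 34359738368), (652835028992, 34359738368)] rfl (by decide +kernel)
theorem c1_m59_t53 : CovD 0 progs [(278334013440, 3523215360), (118111600640, 23622320128), (721554505728, 34359738368), (652835028992, 34359738368)] :=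
  Pool.Agent.helper14.QF.covD_F chks_eq (.n 1 (.l 6) (.n 2 (.n 0 (.l 6) (.n 2 (.n 3 (.n 0 (.n 3 (.l 4) (.l 4)) (.n 3 (.l 4) (.l 4))) (.n 3 (.l 4) (.l 6))) (.l 6))) (.l 6)))
    [(278334013440, 3523215360), (118111600640, 23622320128), (721554505728, 34359738368), (652835028992, 34359738368)] rfl (by decide +kernel)
end
mutual
theorem c1_m59_t54 : CovD 0 progs [(278334013440, 3523215360), (165356240896, 23622320128), (721554505728, 34359738368), (635655159808, 17179869184)] :=
  Pool.Agent.helper14.QF.covD_F chks_eq (.n 3 (.n 3 (.n 0 (.l 4) (.n 0 (.l 4) (.l 4))) (.n 0 (.n 0 (.l 4) (.l 4)) (.n 0 (.l 4) (.l 4)))) (.n 0 (.n 0 (.n 0 (.l 4) (.l 4)) (.n 3 (.l 4) (.l 4))) (.n 0 (.n 3 (.l 4) (.l 4)) (.n 0 (.l 4) (.l 4)))))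
    [(278334013440, 3523215360), (165356240896, 23622320128), (721554505728, 34359738368), (635655159808, 17179869184)] rfl (by decide +kernel)
theorem c1_m59_t55 : CovD 0 progs [(278334013440, 3523215360), (165356240896, 23622320128), (721554505728, 34359738368), (670014898176, 17179869184)] :=
  Pool.Agent.helper14.QF.covD_F chks_eq (.n 0 (.n 3 (.n 0 (.n 3 (.l 4) (.l 4)) (.n 0 (.l 4) (.l 4))) (.n 3 (.l 4) (.l 4))) (.n 0 (.n 3 (.l 4) (.n 0 (.l 4) (.l 4))) (.n 3 (.l 4) (.n 0 (.l 4) (.l 4)))))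
    [(278334013440, 3523215360), (165356240896, 23622320128), (721554505728, 34359738368), (670014898176, 17179869184)] rfl (by decide +kernel)
end
mutual
theorem c1_m59_t61 : CovD 0 progs [(267764367360, 14092861440), (94489280512, 94489280512), (790273982464, 34359738368), (652835028992, 34359738368)] :=
  Pool.Agent.helper14.QF.covD_F chks_eq (.n 0 (.l 6) (.n 1 (.l 6) (.n 0 (.l 6) (.n 1 (.l 6) (.n 0 (.l 6) (.n 1 (.l 6) (.n 2 (.n 3 (.n 3 (.n 0 (.l 4) (.l 4)) (.l 4)) (.l 6)) (.l 6))))))))
    [(267764367360, 14092861440), (94489280512, 94489280512), (790273982464, 34359738368), (652835028992, 34359738368)] rfl (by decide +kernel)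
theorem c1_m59_t64 : CovD 0 progs [(267764367360, 14092861440), (94489280512, 94489280512), (962072674304, 137438953472), (652835028992, 34359738368)] :=
  Pool.Agent.helper14.QF.covD_F chks_eq (.n 1 (.l 6) (.n 2 (.l 6) (.l 6)))
    [(267764367360, 14092861440), (94489280512, 94489280512), (962072674304, 137438953472), (652835028992, 34359738368)] rfl (by decide +kernel)
end
theorem c1_m59_t5 : CovD 0 progs [(280095621120, 1761607680), (94489280512, 94489280512), (687194767360, 137438953472), (584115552256, 34359738368)] :=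
  covD_split 0 (by decide +kernel) c1_m59_t3 c1_m59_t4
theorem c1_m59_t6 : CovD 0 progs [(278334013440, 3523215360), (94489280512, 94489280512), (687194767360, 137438953472), (584115552256, 34359738368)] :=
  covD_split 0 (by decide +kernel) c1_m59_t2 c1_m59_t5
theorem c1_m59_t7 : CovD 0 progs [(274810798080, 7046430720), (94489280512, 94489280512), (687194767360, 137438953472), (584115552256, 34359738368)] :=
  covD_split 0 (by decide +kernel) c1_m59_t1 c1_m59_t6
theorem c1_m59_t8 : CovD 0 progs [(267764367360, 14092861440), (94489280512, 94489280512), (687194767360, 137438953472), (584115552256, 34359738368)] :=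
  covD_split 0 (by decide +kernel) c1_m59_t0 c1_m59_t7
theorem c1_m59_t10 : CovD 0 progs [(267764367360, 14092861440), (94489280512, 94489280512), (824633720832, 274877906944), (584115552256, 34359738368)] :=
  covD_split 2 (by decide +kernel) c1_m59_t8 c1_m59_t9
theorem c1_m59_t14 : CovD 0 progs [(260717936640, 7046430720), (141733920768, 47244640256), (618475290624, 68719476736), (652835028992, 34359738368)] :=
  covD_split 0 (by decide +kernel) c1_m59_t12 c1_m59_t13
theorem c1_m59_t15 : CovD 0 progs [(260717936640, 7046430720), (94489280512, 94489280512), (618475290624, 68719476736), (652835028992, 34359738368)] :=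
  covD_split 1 (by decide +kernel) c1_m59_t11 c1_m59_t14
theorem c1_m59_t18 : CovD 0 progs [(269525975040, 1761607680), (94489280512, 94489280512), (618475290624, 68719476736), (652835028992, 34359738368)] :=
  covD_split 0 (by decide +kernel) c1_m59_t16 c1_m59_t17
theorem c1_m59_t21 : CovD 0 progs [(272168386560, 880803840), (94489280512, 94489280512), (618475290624, 68719476736), (652835028992, 34359738368)] :=
  covD_split 1 (by decide +kernel) c1_m59_t19 c1_m59_t20
theorem c1_m59_t24 : CovD 0 progs [(273929994240, 880803840), (94489280512, 94489280512), (618475290624, 68719476736), (652835028992, 34359738368)] :=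
  covD_split 1 (by decide +kernel) c1_m59_t22 c1_m59_t23
theorem c1_m59_t25 : CovD 0 progs [(273049190400, 1761607680), (94489280512, 94489280512), (618475290624, 68719476736), (652835028992, 34359738368)] :=
  covD_split 0 (by decide +kernel) c1_m59_t21 c1_m59_t24
theorem c1_m59_t26 : CovD 0 progs [(271287582720, 3523215360), (94489280512, 94489280512), (618475290624, 68719476736), (652835028992, 34359738368)] :=
  covD_split 0 (by decide +kernel) c1_m59_t18 c1_m59_t25
theorem c1_m59_t29 : CovD 0 progs [(275691601920, 880803840), (94489280512, 94489280512), (618475290624, 68719476736), (652835028992, 34359738368)] :=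
  covD_split 1 (by decide +kernel) c1_m59_t27 c1_m59_t28
theorem c1_m59_t33 : CovD 0 progs [(277453209600, 880803840), (141733920768, 47244640256), (618475290624, 68719476736), (652835028992, 34359738368)] :=
  covD_split 1 (by decide +kernel) c1_m59_t31 c1_m59_t32
theorem c1_m59_t34 : CovD 0 progs [(277453209600, 880803840), (94489280512, 94489280512), (618475290624, 68719476736), (652835028992, 34359738368)] :=
  covD_split 1 (by decide +kernel) c1_m59_t30 c1_m59_t33
theorem c1_m59_t35 : CovD 0 progs [(276572405760, 1761607680), (94489280512, 94489280512), (618475290624, 68719476736), (652835028992, 34359738368)] :=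
  covD_split 0 (by decide +kernel) c1_m59_t29 c1_m59_t34
theorem c1_m59_t39 : CovD 0 progs [(279214817280, 880803840), (141733920768, 47244640256), (618475290624, 68719476736), (652835028992, 34359738368)] :=
  covD_split 1 (by decide +kernel) c1_m59_t37 c1_m59_t38
theorem c1_m59_t40 : CovD 0 progs [(279214817280, 880803840), (94489280512, 94489280512), (618475290624, 68719476736), (652835028992, 34359738368)] :=
  covD_split 1 (by decide +kernel) c1_m59_t36 c1_m59_t39
theorem c1_m59_t44 : CovD 0 progs [(280976424960, 880803840), (141733920768, 47244640256), (618475290624, 68719476736), (652835028992, 34359738368)] :=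
  covD_split 1 (by decide +kernel) c1_m59_t42 c1_m59_t43
theorem c1_m59_t45 : CovD 0 progs [(280976424960, 880803840), (94489280512, 94489280512), (618475290624, 68719476736), (652835028992, 34359738368)] :=
  covD_split 1 (by decide +kernel) c1_m59_t41 c1_m59_t44
theorem c1_m59_t46 : CovD 0 progs [(280095621120, 1761607680), (94489280512, 94489280512), (618475290624, 68719476736), (652835028992, 34359738368)] :=
  covD_split 0 (by decide +kernel) c1_m59_t40 c1_m59_t45
theorem c1_m59_t47 : CovD 0 progs [(278334013440, 3523215360), (94489280512, 94489280512), (618475290624, 68719476736), (652835028992, 34359738368)] :=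
  covD_split 0 (by decide +kernel) c1_m59_t35 c1_m59_t46
theorem c1_m59_t48 : CovD 0 progs [(274810798080, 7046430720), (94489280512, 94489280512), (618475290624, 68719476736), (652835028992, 34359738368)] :=
  covD_split 0 (by decide +kernel) c1_m59_t26 c1_m59_t47
theorem c1_m59_t49 : CovD 0 progs [(267764367360, 14092861440), (94489280512, 94489280512), (618475290624, 68719476736), (652835028992, 34359738368)] :=
  covD_split 0 (by decide +kernel) c1_m59_t15 c1_m59_t48
theorem c1_m59_t56 : CovD 0 progs [(278334013440, 3523215360), (165356240896, 23622320128), (721554505728, 34359738368), (652835028992, 34359738368)] :=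
  covD_split 3 (by decide +kernel) c1_m59_t54 c1_m59_t55
theorem c1_m59_t57 : CovD 0 progs [(278334013440, 3523215360), (141733920768, 47244640256), (721554505728, 34359738368), (652835028992, 34359738368)] :=
  covD_split 1 (by decide +kernel) c1_m59_t53 c1_m59_t56
theorem c1_m59_t58 : CovD 0 progs [(278334013440, 3523215360), (94489280512, 94489280512), (721554505728, 34359738368), (652835028992, 34359738368)] :=
  covD_split 1 (by decide +kernel) c1_m59_t52 c1_m59_t57
theorem c1_m59_t59 : CovD 0 progs [(274810798080, 7046430720), (94489280512, 94489280512), (721554505728, 34359738368), (652835028992, 34359738368)] :=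
  covD_split 0 (by decide +kernel) c1_m59_t51 c1_m59_t58
theorem c1_m59_t60 : CovD 0 progs [(267764367360, 14092861440), (94489280512, 94489280512), (721554505728, 34359738368), (652835028992, 34359738368)] :=
  covD_split 0 (by decide +kernel) c1_m59_t50 c1_m59_t59
theorem c1_m59_t62 : CovD 0 progs [(267764367360, 14092861440), (94489280512, 94489280512), (755914244096, 68719476736), (652835028992, 34359738368)] :=
  covD_split 2 (by decide +kernel) c1_m59_t60 c1_m59_t61
theorem c1_m59_t63 : CovD 0 progs [(267764367360, 14092861440), (94489280512, 94489280512), (687194767360, 137438953472), (652835028992, 34359738368)] :=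
  covD_split 2 (by decide +kernel) c1_m59_t49 c1_m59_t62
theorem c1_m59_t65 : CovD 0 progs [(267764367360, 14092861440), (94489280512, 94489280512), (824633720832, 274877906944), (652835028992, 34359738368)] :=
  covD_split 2 (by decide +kernel) c1_m59_t63 c1_m59_t64
theorem c1_m59 : CovD 0 progs [(267764367360, 14092861440), (94489280512, 94489280512), (824633720832, 274877906944), (618475290624, 68719476736)] :=
  covD_split 3 (by decide +kernel) c1_m59_t10 c1_m59_t65

end Pool.Agent.helper71.FJ.Crt.QMa
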