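import Pool.Agent.helper71.FJ.Crt.QMaP

/-!
Generated certificates.
-/

namespace Pool.Agent.helper71.FJ.Crt.QMa

open Pool.Agent.helper31.IA (Z Op)
open Pool.Agent.helper31.IC

mutual
theorem c1_m6_t0 : CovD 0 progs [(295950090240, 14092861440), (94489280512, 94489280512), (68719476736, 68719476736), (489626271744, 8589934592)] :=
  Pool.Agent.helper14.QF.covD_F chks_eq (.n 0 (.n 0 (.l 4) (.n 0 (.l 4) (.l 4))) (.n 0 (.n 0 (.l 4) (.n 0 (.l 4) (.l 4))) (.n 0 (.n 0 (.l 4) (.n 0 (.l 4) (.l 4))) (.n 0 (.n 2 (.l 4) (.l 4)) (.n 1 (.l 4) (.l 4))))))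
    [(295950090240, 14092861440), (94489280512, 94489280512), (68719476736, 68719476736), (489626271744, 8589934592)] rfl (by decide +kernel)
theorem c1_m6_t1 : CovD 0 progs [(295950090240, 14092861440), (94489280512, 94489280512), (206158430208, 68719476736), (489626271744, 8589934592)] :=
  Pool.Agent.helper14.QF.covD_F chks_eq (.n 0 (.n 0 (.l 4) (.n 0 (.l 4) (.l 4))) (.n 0 (.n 0 (.l 4) (.n 0 (.l 4) (.l 4))) (.n 0 (.n 0 (.n 0 (.l 4) (.l 4)) (.n 1 (.l 4) (.l 4))) (.n 0 (.n 2 (.l 4) (.l 4)) (.n 2 (.l 4) (.l 4))))))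
    [(295950090240, 14092861440), (94489280512, 94489280512), (206158430208, 68719476736), (489626271744, 8589934592)] rfl (by decide +kernel)
end
mutual
theorem c1_m6_t3 : CovD 0 progs [(288903659520, 7046430720), (94489280512, 94489280512), (137438953472, 137438953472), (506806140928, 8589934592)] :=
  Pool.Agent.helper14.QF.covD_F chks_eq (.n 0 (.n 0 (.l 4) (.l 4)) (.n 0 (.n 0 (.l 4) (.l 4)) (.n 2 (.l 4) (.l 4))))
    [(288903659520, 7046430720), (94489280512, 94489280512), (137438953472, 137438953472), (506806140928, 8589934592)] rfl (by decide +kernel)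
theorem c1_m6_t4 : CovD 0 progs [(299473305600, 3523215360), (94489280512, 94489280512), (137438953472, 137438953472), (506806140928, 8589934592)] :=
  Pool.Agent.helper14.QF.covD_F chks_eq (.n 0 (.n 0 (.n 1 (.l 4) (.l 4)) (.n 2 (.l 4) (.l 4))) (.n 0 (.n 2 (.l 4) (.n 0 (.l 4) (.l 4))) (.n 0 (.n 2 (.l 4) (.l 4)) (.n 2 (.l 4) (.l 4)))))
    [(299473305600, 3523215360), (94489280512, 94489280512), (137438953472, 137438953472), (506806140928, 8589934592)] rfl (by decide +kernel)
end
mutual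
theorem c1_m6_t5 : CovD 0 progs [(306519736320, 3523215360), (94489280512, 94489280512), (137438953472, 137438953472), (506806140928, 8589934592)] :=
  Pool.Agent.helper14.QF.covD_F chks_eq (.n 0 (.n 3 (.n 0 (.n 2 (.l 4) (.l 4)) (.n 2 (.l 4) (.n 0 (.l 4) (.l 4)))) (.n 0 (.n 2 (.l 4) (.n 0 (.l 4) (.l 4))) (.n 2 (.l 4) (.n 0 (.l 4) (.l 4))))) (.n 0 (.n 1 (.n 2 (.l 4) (.l 4)) (.n 2 (.l 4) (.l 4))) (.n 1 (.n 2 (.l 4) (.l 4)) (.n 2 (.l 4) (.l 4)))))
    [(306519736320, 3523215360), (94489280512, 94489280512), (137438953472, 137438953472), (506806140928, 8589934592)] rfl (by decide +kernel)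
theorem c1_m6_t9 : CovD 0 progs [(288903659520, 7046430720), (94489280512, 94489280512), (137438953472, 137438953472), (523986010112, 8589934592)] :=
  Pool.Agent.helper14.QF.covD_F chks_eq (.n 0 (.n 0 (.l 4) (.l 4)) (.n 2 (.n 0 (.l 4) (.n 0 (.l 4) (.l 4))) (.n 0 (.l 4) (.n 0 (.l 4) (.l 4)))))
    [(288903659520, 7046430720), (94489280512, 94489280512), (137438953472, 137438953472), (523986010112, 8589934592)] rfl (by decide +kernel)
end
mutual
theorem c1_m6_t10 : CovD 0 progs [(302996520960, 7046430720), (94489280512, 94489280512), (68719476736, 68719476736), (523986010112, 8589934592)] :=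
  Pool.Agent.helper14.QF.covD_F chks_eq (.n 0 (.n 3 (.n 0 (.n 0 (.l 4) (.l 4)) (.n 0 (.l 4) (.l 4))) (.n 0 (.n 0 (.l 4) (.l 4)) (.n 0 (.l 4) (.l 4)))) (.n 2 (.n 0 (.n 0 (.l 4) (.l 4)) (.l 4)) (.n 0 (.n 0 (.l 4) (.l 4)) (.l 4))))
    [(302996520960, 7046430720), (94489280512, 94489280512), (68719476736, 68719476736), (523986010112, 8589934592)] rfl (by decide +kernel)
theorem c1_m6_t11 : CovD 0 progs [(302996520960, 7046430720), (94489280512, 94489280512), (206158430208, 68719476736), (523986010112, 8589934592)] :=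
  Pool.Agent.helper14.QF.covD_F chks_eq (.n 2 (.n 0 (.n 0 (.n 0 (.l 4) (.l 4)) (.n 0 (.l 4) (.n 0 (.l 4) (.l 4)))) (.n 0 (.n 0 (.l 4) (.l 4)) (.l 4))) (.n 0 (.n 0 (.n 0 (.l 4) (.l 4)) (.n 0 (.n 0 (.l 4) (.l 4)) (.n 0 (.l 4) (.l 4)))) (.n 0 (.n 0 (.l 4) (.l 4)) (.l 4))))
    [(302996520960, 7046430720), (94489280512, 94489280512), (206158430208, 68719476736), (523986010112, 8589934592)] rfl (by decide +kernel)
end
mutual
theorem c1_m6_t14 : CovD 0 progs [(288903659520, 7046430720), (94489280512, 94489280512), (137438953472, 137438953472), (541165879296, 8589934592)] :=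
  Pool.Agent.helper14.QF.covD_F chks_eq (.n 0 (.n 0 (.l 4) (.n 2 (.l 4) (.l 4))) (.n 0 (.n 0 (.n 1 (.l 4) (.l 4)) (.n 2 (.l 4) (.l 4))) (.n 0 (.n 2 (.l 4) (.n 0 (.l 4) (.l 4))) (.n 0 (.n 2 (.l 4) (.l 4)) (.n 2 (.l 4) (.l 4))))))
    [(288903659520, 7046430720), (94489280512, 94489280512), (137438953472, 137438953472), (541165879296, 8589934592)] rfl (by decide +kernel)
theorem c1_m6_t15 : CovD 0 progs [(299473305600, 3523215360), (94489280512, 94489280512), (137438953472, 137438953472), (541165879296, 8589934592)] :=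
  Pool.Agent.helper14.QF.covD_F chks_eq (.n 2 (.n 3 (.n 0 (.n 0 (.l 4) (.l 4)) (.n 0 (.l 4) (.l 4))) (.n 0 (.n 0 (.l 4) (.l 4)) (.n 2 (.l 4) (.l 4)))) (.n 0 (.n 0 (.n 3 (.l 4) (.l 4)) (.n 3 (.l 4) (.n 0 (.l 4) (.l 4)))) (.n 0 (.n 0 (.n 1 (.l 4) (.l 4)) (.n 1 (.l 4) (.l 4))) (.n 2 (.l 4) (.l 4)))))
    [(299473305600, 3523215360), (94489280512, 94489280512), (137438953472, 137438953472), (541165879296, 8589934592)] rfl (by decide +kernel)
end
mutual
theorem c1_m6_t16 : CovD 0 progs [(306519736320, 3523215360), (94489280512, 94489280512), (137438953472, 137438953472), (541165879296, 8589934592)] :=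
  Pool.Agent.helper14.QF.covD_F chks_eq (.n 0 (.n 1 (.n 2 (.l 4) (.l 4)) (.n 2 (.l 4) (.l 4))) (.n 0 (.n 1 (.n 2 (.l 4) (.l 4)) (.n 2 (.l 4) (.l 4))) (.n 1 (.n 2 (.l 4) (.l 4)) (.n 2 (.l 4) (.l 4)))))
    [(306519736320, 3523215360), (94489280512, 94489280512), (137438953472, 137438953472), (541165879296, 8589934592)] rfl (by decide +kernel)
theorem c1_m6_t21 : CovD 0 progs [(288903659520, 7046430720), (94489280512, 94489280512), (412316860416, 137438953472), (489626271744, 8589934592)] :=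
  Pool.Agent.helper14.QF.covD_F chks_eq (.n 0 (.n 0 (.l 4) (.l 4)) (.n 0 (.n 0 (.l 4) (.l 4)) (.n 1 (.l 4) (.l 4))))
    [(288903659520, 7046430720), (94489280512, 94489280512), (412316860416, 137438953472), (489626271744, 8589934592)] rfl (by decide +kernel)
end
mutual
theorem c1_m6_t22 : CovD 0 progs [(302996520960, 7046430720), (94489280512, 94489280512), (343597383680, 68719476736), (489626271744, 8589934592)] :=
  Pool.Agent.helper14.QF.covD_F chks_eq (.n 0 (.n 0 (.n 0 (.l 4) (.l 4)) (.n 0 (.l 4) (.n 0 (.l 4) (.l 4)))) (.n 0 (.n 0 (.n 1 (.l 4) (.l 4)) (.n 1 (.l 4) (.n 0 (.l 4) (.l 4)))) (.n 0 (.n 0 (.n 1 (.l 4) (.l 4)) (.n 1 (.l 4) (.l 4))) (.n 0 (.n 1 (.l 4) (.l 4)) (.n 1 (.l 4) (.l 4))))))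
    [(302996520960, 7046430720), (94489280512, 94489280512), (343597383680, 68719476736), (489626271744, 8589934592)] rfl (by decide +kernel)
theorem c1_m6_t23 : CovD 0 progs [(302996520960, 7046430720), (94489280512, 94489280512), (481036337152, 68719476736), (489626271744, 8589934592)] :=
  Pool.Agent.helper14.QF.covD_F chks_eq (.n 0 (.n 0 (.n 0 (.l 4) (.l 4)) (.n 0 (.n 0 (.l 4) (.l 4)) (.n 1 (.l 4) (.l 4)))) (.n 0 (.n 0 (.n 1 (.l 4) (.n 0 (.l 4) (.l 4))) (.n 1 (.n 0 (.l 4) (.l 4)) (.n 1 (.l 4) (.l 4)))) (.n 0 (.n 1 (.n 0 (.l 4) (.l 4)) (.n 1 (.l 4) (.n 0 (.l 4) (.l 4)))) (.n 1 (.n 0 (.l 4) (.l 4)) (.n 1 (.l 4) (.n 0 (.l 4) (.l 4)))))))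
    [(302996520960, 7046430720), (94489280512, 94489280512), (481036337152, 68719476736), (489626271744, 8589934592)] rfl (by decide +kernel)
end
mutual
theorem c1_m6_t26 : CovD 0 progs [(288903659520, 7046430720), (94489280512, 94489280512), (343597383680, 68719476736), (506806140928, 8589934592)] :=
  Pool.Agent.helper14.QF.covD_F chks_eq (.n 0 (.n 0 (.l 4) (.l 4)) (.n 0 (.l 4) (.n 0 (.l 4) (.l 4))))
    [(288903659520, 7046430720), (94489280512, 94489280512), (343597383680, 68719476736), (506806140928, 8589934592)] rfl (by decide +kernel)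
theorem c1_m6_t27 : CovD 0 progs [(302996520960, 7046430720), (94489280512, 94489280512), (343597383680, 68719476736), (506806140928, 8589934592)] :=
  Pool.Agent.helper14.QF.covD_F chks_eq (.n 0 (.n 0 (.n 0 (.l 4) (.l 4)) (.n 0 (.n 0 (.l 4) (.l 4)) (.n 1 (.l 4) (.n 0 (.l 4) (.l 4))))) (.n 0 (.n 0 (.n 0 (.n 1 (.l 4) (.l 4)) (.n 1 (.l 4) (.l 4))) (.n 0 (.n 1 (.l 4) (.l 4)) (.n 1 (.l 4) (.l 4)))) (.n 0 (.n 2 (.l 4) (.n 0 (.l 4) (.l 4))) (.n 1 (.l 4) (.l 4)))))
    [(302996520960, 7046430720), (94489280512, 94489280512), (343597383680, 68719476736), (506806140928, 8589934592)] rfl (by decide +kernel)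
end
mutual
theorem c1_m6_t29 : CovD 0 progs [(295950090240, 14092861440), (94489280512, 94489280512), (481036337152, 68719476736), (502511173632, 4294967296)] :=
  Pool.Agent.helper14.QF.covD_F chks_eq (.n 0 (.n 0 (.l 4) (.n 0 (.l 4) (.l 4))) (.n 1 (.n 0 (.n 0 (.l 4) (.n 0 (.l 4) (.l 4))) (.n 0 (.n 0 (.l 4) (.l 4)) (.n 0 (.l 4) (.l 4)))) (.n 0 (.n 0 (.l 4) (.n 0 (.l 4) (.l 4))) (.n 0 (.n 0 (.l 4) (.n 0 (.l 4) (.l 4))) (.n 2 (.l 4) (.n 0 (.l 4) (.l 4)))))))
    [(295950090240, 14092861440), (94489280512, 94489280512), (481036337152, 68719476736), (502511173632, 4294967296)] rfl (by decide +kernel)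
theorem c1_m6_t30 : CovD 0 progs [(295950090240, 14092861440), (94489280512, 94489280512), (481036337152, 68719476736), (511101108224, 4294967296)] :=
  Pool.Agent.helper14.QF.covD_F chks_eq (.n 1 (.n 0 (.n 0 (.l 4) (.n 0 (.l 4) (.l 4))) (.n 0 (.n 0 (.l 4) (.n 0 (.l 4) (.l 4))) (.n 0 (.n 0 (.l 4) (.l 4)) (.n 0 (.l 4) (.l 4))))) (.n 0 (.n 0 (.l 4) (.n 0 (.l 4) (.l 4))) (.n 0 (.n 0 (.l 4) (.n 0 (.l 4) (.l 4))) (.n 0 (.n 0 (.n 0 (.l 4) (.l 4)) (.n 0 (.l 4) (.l 4))) (.n 1 (.l 4) (.l 4))))))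
    [(295950090240, 14092861440), (94489280512, 94489280512), (481036337152, 68719476736), (511101108224, 4294967296)] rfl (by decide +kernel)
end
mutual
theorem c1_m6_t34 : CovD 0 progs [(288903659520, 7046430720), (94489280512, 94489280512), (343597383680, 68719476736), (523986010112, 8589934592)] :=
  Pool.Agent.helper14.QF.covD_F chks_eq (.n 0 (.n 0 (.l 4) (.l 4)) (.n 0 (.n 0 (.l 4) (.l 4)) (.n 0 (.l 4) (.l 4))))
    [(288903659520, 7046430720), (94489280512, 94489280512), (343597383680, 68719476736), (523986010112, 8589934592)] rfl (by decide +kernel)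
theorem c1_m6_t35 : CovD 0 progs [(302996520960, 7046430720), (94489280512, 94489280512), (343597383680, 68719476736), (523986010112, 8589934592)] :=
  Pool.Agent.helper14.QF.covD_F chks_eq (.n 0 (.n 0 (.n 0 (.n 0 (.l 4) (.l 4)) (.n 1 (.l 4) (.n 0 (.l 4) (.l 4)))) (.n 0 (.n 0 (.n 1 (.l 4) (.l 4)) (.n 1 (.l 4) (.l 4))) (.n 0 (.n 1 (.l 4) (.l 4)) (.n 2 (.l 4) (.l 4))))) (.n 0 (.n 0 (.n 1 (.n 0 (.l 4) (.l 4)) (.n 2 (.l 4) (.l 4))) (.n 1 (.l 4) (.n 0 (.l 4) (.l 4)))) (.n 1 (.l 4) (.n 0 (.l 4) (.l 4)))))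
    [(302996520960, 7046430720), (94489280512, 94489280512), (343597383680, 68719476736), (523986010112, 8589934592)] rfl (by decide +kernel)
end
mutual
theorem c1_m6_t37 : CovD 0 progs [(295950090240, 14092861440), (94489280512, 94489280512), (481036337152, 68719476736), (519691042816, 4294967296)] :=
  Pool.Agent.helper14.QF.covD_F chks_eq (.n 0 (.n 0 (.n 0 (.l 4) (.l 4)) (.n 0 (.l 4) (.n 0 (.l 4) (.l 4)))) (.n 0 (.n 0 (.n 0 (.l 4) (.n 1 (.l 4) (.l 4))) (.n 0 (.n 1 (.l 4) (.l 4)) (.n 1 (.l 4) (.n 0 (.l 4) (.l 4))))) (.n 0 (.n 0 (.n 1 (.l 4) (.n 0 (.l 4) (.l 4))) (.n 1 (.l 4) (.n 1 (.l 4) (.l 4)))) (.n 1 (.l 4) (.n 1 (.l 4) (.l 4))))))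
    [(295950090240, 14092861440), (94489280512, 94489280512), (481036337152, 68719476736), (519691042816, 4294967296)] rfl (by decide +kernel)
theorem c1_m6_t38 : CovD 0 progs [(295950090240, 14092861440), (94489280512, 94489280512), (481036337152, 68719476736), (528280977408, 4294967296)] :=
  Pool.Agent.helper14.QF.covD_F chks_eq (.n 0 (.n 0 (.n 0 (.l 4) (.l 4)) (.n 0 (.l 4) (.n 0 (.l 4) (.l 4)))) (.n 0 (.n 0 (.n 0 (.n 1 (.l 4) (.l 4)) (.n 1 (.l 4) (.l 4))) (.n 0 (.n 1 (.l 4) (.n 0 (.l 4) (.l 4))) (.n 1 (.l 4) (.n 0 (.l 4) (.l 4))))) (.n 0 (.n 1 (.n 0 (.l 4) (.l 4)) (.n 1 (.l 4) (.n 0 (.l 4) (.l 4)))) (.n 1 (.l 4) (.n 1 (.l 4) (.l 4))))))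
    [(295950090240, 14092861440), (94489280512, 94489280512), (481036337152, 68719476736), (528280977408, 4294967296)] rfl (by decide +kernel)
end
mutual
theorem c1_m6_t41 : CovD 0 progs [(288903659520, 7046430720), (94489280512, 94489280512), (343597383680, 68719476736), (541165879296, 8589934592)] :=
  Pool.Agent.helper14.QF.covD_F chks_eq (.n 0 (.n 0 (.l 4) (.l 4)) (.n 0 (.n 0 (.l 4) (.l 4)) (.n 0 (.n 0 (.l 4) (.l 4)) (.n 3 (.l 4) (.l 4)))))
    [(288903659520, 7046430720), (94489280512, 94489280512), (343597383680, 68719476736), (541165879296, 8589934592)] rfl (by decide +kernel)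
theorem c1_m6_t42 : CovD 0 progs [(302996520960, 7046430720), (94489280512, 94489280512), (343597383680, 68719476736), (536870912000, 4294967296)] :=
  Pool.Agent.helper14.QF.covD_F chks_eq (.n 0 (.n 0 (.n 0 (.n 0 (.l 4) (.l 4)) (.n 1 (.l 4) (.l 4))) (.n 0 (.n 1 (.l 4) (.l 4)) (.n 1 (.l 4) (.l 4)))) (.n 0 (.n 1 (.l 4) (.l 4)) (.n 1 (.l 4) (.n 0 (.l 4) (.l 4)))))
    [(302996520960, 7046430720), (94489280512, 94489280512), (343597383680, 68719476736), (536870912000, 4294967296)] rfl (by decide +kernel)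
end
mutual
theorem c1_m6_t43 : CovD 0 progs [(302996520960, 7046430720), (94489280512, 94489280512), (343597383680, 68719476736), (545460846592, 4294967296)] :=
  Pool.Agent.helper14.QF.covD_F chks_eq (.n 0 (.n 0 (.n 0 (.n 1 (.l 4) (.l 4)) (.n 1 (.l 4) (.l 4))) (.n 0 (.n 1 (.l 4) (.l 4)) (.n 1 (.l 4) (.l 4)))) (.n 0 (.n 1 (.l 4) (.l 4)) (.n 2 (.l 4) (.n 0 (.l 4) (.l 4)))))
    [(302996520960, 7046430720), (94489280512, 94489280512), (343597383680, 68719476736), (545460846592, 4294967296)] rfl (by decide +kernel)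
theorem c1_m6_t46 : CovD 0 progs [(288903659520, 7046430720), (94489280512, 94489280512), (481036337152, 68719476736), (541165879296, 8589934592)] :=
  Pool.Agent.helper14.QF.covD_F chks_eq (.n 0 (.n 0 (.l 4) (.n 0 (.l 4) (.l 4))) (.n 0 (.n 0 (.l 4) (.n 0 (.l 4) (.l 4))) (.n 0 (.n 1 (.l 4) (.l 4)) (.n 0 (.n 1 (.l 4) (.l 4)) (.n 1 (.l 4) (.l 4))))))
    [(288903659520, 7046430720), (94489280512, 94489280512), (481036337152, 68719476736), (541165879296, 8589934592)] rfl (by decide +kernel)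
end
mutual
theorem c1_m6_t47 : CovD 0 progs [(299473305600, 3523215360), (47244640256, 47244640256), (481036337152, 68719476736), (541165879296, 8589934592)] :=
  Pool.Agent.helper14.QF.covD_F chks_eq (.n 1 (.n 0 (.n 0 (.l 4) (.n 0 (.l 4) (.l 4))) (.n 0 (.n 0 (.l 4) (.l 4)) (.l 4))) (.n 0 (.n 0 (.l 4) (.n 0 (.l 4) (.l 4))) (.n 0 (.n 0 (.l 4) (.l 4)) (.l 4))))
    [(299473305600, 3523215360), (47244640256, 47244640256), (481036337152, 68719476736), (541165879296, 8589934592)] rfl (by decide +kernel)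
theorem c1_m6_t48 : CovD 0 progs [(299473305600, 3523215360), (141733920768, 47244640256), (481036337152, 68719476736), (541165879296, 8589934592)] :=
  Pool.Agent.helper14.QF.covD_F chks_eq (.n 0 (.n 0 (.n 3 (.l 4) (.n 0 (.l 4) (.l 4))) (.n 0 (.n 1 (.l 4) (.l 4)) (.n 1 (.l 4) (.l 4)))) (.n 0 (.n 0 (.n 1 (.l 4) (.l 4)) (.n 1 (.l 4) (.l 4))) (.n 1 (.l 4) (.n 0 (.l 4) (.l 4)))))
    [(299473305600, 3523215360), (141733920768, 47244640256), (481036337152, 68719476736), (541165879296, 8589934592)] rfl (by decide +kernel)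
theorem c1_m6_t50 : CovD 0 progs [(306519736320, 3523215360), (94489280512, 94489280512), (481036337152, 68719476736), (541165879296, 8589934592)] :=
  Pool.Agent.helper14.QF.covD_F chks_eq (.n 0 (.n 1 (.n 0 (.l 4) (.l 4)) (.n 1 (.l 4) (.l 4))) (.n 0 (.n 1 (.n 0 (.l 4) (.l 4)) (.n 1 (.l 4) (.l 4))) (.n 1 (.n 0 (.l 4) (.l 4)) (.n 2 (.l 4) (.l 4)))))
    [(306519736320, 3523215360), (94489280512, 94489280512), (481036337152, 68719476736), (541165879296, 8589934592)] rfl (by decide +kernel)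
end
theorem c1_m6_t2 : CovD 0 progs [(295950090240, 14092861440), (94489280512, 94489280512), (137438953472, 137438953472), (489626271744, 8589934592)] :=
  covD_split 2 (by decide +kernel) c1_m6_t0 c1_m6_t1
theorem c1_m6_t6 : CovD 0 progs [(302996520960, 7046430720), (94489280512, 94489280512), (137438953472, 137438953472), (506806140928, 8589934592)] :=
  covD_split 0 (by decide +kernel) c1_m6_t4 c1_m6_t5
theorem c1_m6_t7 : CovD 0 progs [(295950090240, 14092861440), (94489280512, 94489280512), (137438953472, 137438953472), (506806140928, 8589934592)] :=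
  covD_split 0 (by decide +kernel) c1_m6_t3 c1_m6_t6
theorem c1_m6_t8 : CovD 0 progs [(295950090240, 14092861440), (94489280512, 94489280512), (137438953472, 137438953472), (498216206336, 17179869184)] :=
  covD_split 3 (by decide +kernel) c1_m6_t2 c1_m6_t7
theorem c1_m6_t12 : CovD 0 progs [(302996520960, 7046430720), (94489280512, 94489280512), (137438953472, 137438953472), (523986010112, 8589934592)] :=
  covD_split 2 (by decide +kernel) c1_m6_t10 c1_m6_t11
theorem c1_m6_t13 : CovD 0 progs [(295950090240, 14092861440), (94489280512, 94489280512), (137438953472, 137438953472), (523986010112, 8589934592)] :=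
  covD_split 0 (by decide +kernel) c1_m6_t9 c1_m6_t12
theorem c1_m6_t17 : CovD 0 progs [(302996520960, 7046430720), (94489280512, 94489280512), (137438953472, 137438953472), (541165879296, 8589934592)] :=
  covD_split 0 (by decide +kernel) c1_m6_t15 c1_m6_t16
theorem c1_m6_t18 : CovD 0 progs [(295950090240, 14092861440), (94489280512, 94489280512), (137438953472, 137438953472), (541165879296, 8589934592)] :=
  covD_split 0 (by decide +kernel) c1_m6_t14 c1_m6_t17
theorem c1_m6_t19 : CovD 0 progs [(295950090240, 14092861440), (94489280512, 94489280512), (137438953472, 137438953472), (532575944704, 17179869184)] :=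
  covD_split 3 (by decide +kernel) c1_m6_t13 c1_m6_t18
theorem c1_m6_t20 : CovD 0 progs [(295950090240, 14092861440), (94489280512, 94489280512), (137438953472, 137438953472), (515396075520, 34359738368)] :=
  covD_split 3 (by decide +kernel) c1_m6_t8 c1_m6_t19
theorem c1_m6_t24 : CovD 0 progs [(302996520960, 7046430720), (94489280512, 94489280512), (412316860416, 137438953472), (489626271744, 8589934592)] :=
  covD_split 2 (by decide +kernel) c1_m6_t22 c1_m6_t23
theorem c1_m6_t25 : CovD 0 progs [(295950090240, 14092861440), (94489280512, 94489280512), (412316860416, 137438953472), (489626271744, 8589934592)] :=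
  covD_split 0 (by decide +kernel) c1_m6_t21 c1_m6_t24
theorem c1_m6_t28 : CovD 0 progs [(295950090240, 14092861440), (94489280512, 94489280512), (343597383680, 68719476736), (506806140928, 8589934592)] :=
  covD_split 0 (by decide +kernel) c1_m6_t26 c1_m6_t27
theorem c1_m6_t31 : CovD 0 progs [(295950090240, 14092861440), (94489280512, 94489280512), (481036337152, 68719476736), (506806140928, 8589934592)] :=
  covD_split 3 (by decide +kernel) c1_m6_t29 c1_m6_t30
theorem c1_m6_t32 : CovD 0 progs [(295950090240, 14092861440), (94489280512, 94489280512), (412316860416, 137438953472), (506806140928, 8589934592)] :=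
  covD_split 2 (by decide +kernel) c1_m6_t28 c1_m6_t31
theorem c1_m6_t33 : CovD 0 progs [(295950090240, 14092861440), (94489280512, 94489280512), (412316860416, 137438953472), (498216206336, 17179869184)] :=
  covD_split 3 (by decide +kernel) c1_m6_t25 c1_m6_t32
theorem c1_m6_t36 : CovD 0 progs [(295950090240, 14092861440), (94489280512, 94489280512), (343597383680, 68719476736), (523986010112, 8589934592)] :=
  covD_split 0 (by decide +kernel) c1_m6_t34 c1_m6_t35
theorem c1_m6_t39 : CovD 0 progs [(295950090240, 14092861440), (94489280512, 94489280512), (481036337152, 68719476736), (523986010112, 8589934592)] :=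
  covD_split 3 (by decide +kernel) c1_m6_t37 c1_m6_t38
theorem c1_m6_t40 : CovD 0 progs [(295950090240, 14092861440), (94489280512, 94489280512), (412316860416, 137438953472), (523986010112, 8589934592)] :=
  covD_split 2 (by decide +kernel) c1_m6_t36 c1_m6_t39
theorem c1_m6_t44 : CovD 0 progs [(302996520960, 7046430720), (94489280512, 94489280512), (343597383680, 68719476736), (541165879296, 8589934592)] :=
  covD_split 3 (by decide +kernel) c1_m6_t42 c1_m6_t43
theorem c1_m6_t45 : CovD 0 progs [(295950090240, 14092861440), (94489280512, 94489280512), (343597383680, 68719476736), (541165879296, 8589934592)] :=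
  covD_split 0 (by decide +kernel) c1_m6_t41 c1_m6_t44
theorem c1_m6_t49 : CovD 0 progs [(299473305600, 3523215360), (94489280512, 94489280512), (481036337152, 68719476736), (541165879296, 8589934592)] :=
  covD_split 1 (by decide +kernel) c1_m6_t47 c1_m6_t48
theorem c1_m6_t51 : CovD 0 progs [(302996520960, 7046430720), (94489280512, 94489280512), (481036337152, 68719476736), (541165879296, 8589934592)] :=
  covD_split 0 (by decide +kernel) c1_m6_t49 c1_m6_t50
theorem c1_m6_t52 : CovD 0 progs [(295950090240, 14092861440), (94489280512, 94489280512), (481036337152, 68719476736), (541165879296, 8589934592)] :=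
  covD_split 0 (by decide +kernel) c1_m6_t46 c1_m6_t51
theorem c1_m6_t53 : CovD 0 progs [(295950090240, 14092861440), (94489280512, 94489280512), (412316860416, 137438953472), (541165879296, 8589934592)] :=
  covD_split 2 (by decide +kernel) c1_m6_t45 c1_m6_t52
theorem c1_m6_t54 : CovD 0 progs [(295950090240, 14092861440), (94489280512, 94489280512), (412316860416, 137438953472), (532575944704, 17179869184)] :=
  covD_split 3 (by decide +kernel) c1_m6_t40 c1_m6_t53
theorem c1_m6_t55 : CovD 0 progs [(295950090240, 14092861440), (94489280512, 94489280512), (412316860416, 137438953472), (515396075520, 34359738368)] :=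
  covD_split 3 (by decide +kernel) c1_m6_t33 c1_m6_t54
theorem c1_m6 : CovD 0 progs [(295950090240, 14092861440), (94489280512, 94489280512), (274877906944, 274877906944), (515396075520, 34359738368)] :=
  covD_split 2 (by decide +kernel) c1_m6_t20 c1_m6_t55

end Pool.Agent.helper71.FJ.Crt.QMa
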