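import Pool.Agent.helper71.FJ.Crt.QMaP

/-!
Generated certificates.
-/

namespace Pool.Agent.helper71.FJ.Crt.QMa

open Pool.Agent.helper31.IA (Z Op)
open Pool.Agent.helper31.IC

mutual
theorem c1_m60_t0 : CovD 0 progs [(239578644480, 14092861440), (94489280512, 94489280512), (824633720832, 274877906944), (755914244096, 68719476736)] :=
  Pool.Agent.helper14.QF.covD_F chks_eq (.n 2 (.n 2 (.n 1 (.l 6) (.n 0 (.l 6) (.n 1 (.l 6) (.n 2 (.n 0 (.l 6) (.n 0 (.n 1 (.l 6) (.n 3 (.n 3 (.n 3 (.l 4) (.l 6)) (.l 6)) (.l 6))) (.n 2 (.n 3 (.n 3 (.n 3 (.l 4) (.n 0 (.l 4) (.l 4))) (.n 0 (.l 6) (.n 2 (.n 3 (.n 3 (.l 4) (.l 4)) (.l 6)) (.l 6)))) (.l 6)) (.l 6)))) (.l 6))))) (.l 6)) (.l 6))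
    [(239578644480, 14092861440), (94489280512, 94489280512), (824633720832, 274877906944), (755914244096, 68719476736)] rfl (by decide +kernel)
theorem c1_m60_t1 : CovD 0 progs [(255433113600, 1761607680), (94489280512, 94489280512), (584115552256, 34359738368), (721554505728, 34359738368)] :=
  Pool.Agent.helper14.QF.covD_F chks_eq (.n 1 (.l 6) (.n 1 (.n 2 (.l 6) (.l 6)) (.n 3 (.n 0 (.n 3 (.l 4) (.n 0 (.l 4) (.l 4))) (.n 3 (.l 4) (.n 3 (.l 4) (.l 4)))) (.n 2 (.n 3 (.n 0 (.n 3 (.l 4) (.l 4)) (.n 3 (.l 4) (.l 4))) (.n 0 (.n 3 (.l 4) (.l 4)) (.l 4))) (.l 6)))))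
    [(255433113600, 1761607680), (94489280512, 94489280512), (584115552256, 34359738368), (721554505728, 34359738368)] rfl (by decide +kernel)
end
mutual
theorem c1_m60_t2 : CovD 0 progs [(258956328960, 1761607680), (94489280512, 94489280512), (584115552256, 34359738368), (721554505728, 34359738368)] :=
  Pool.Agent.helper14.QF.covD_F chks_eq (.n 0 (.n 1 (.l 6) (.n 3 (.n 3 (.n 0 (.l 4) (.l 4)) (.n 3 (.l 4) (.n 0 (.l 4) (.l 4)))) (.n 1 (.l 6) (.n 3 (.n 3 (.l 4) (.l 4)) (.n 3 (.l 4) (.l 4)))))) (.n 1 (.l 6) (.n 3 (.n 3 (.n 3 (.l 4) (.l 4)) (.n 0 (.n 3 (.l 4) (.l 4)) (.n 3 (.l 4) (.l 4)))) (.n 3 (.n 3 (.n 1 (.l 4) (.l 4)) (.l 4)) (.n 1 (.l 6) (.n 3 (.l 4) (.l 4)))))))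
    [(258956328960, 1761607680), (94489280512, 94489280512), (584115552256, 34359738368), (721554505728, 34359738368)] rfl (by decide +kernel)
theorem c1_m60_t4 : CovD 0 progs [(262479544320, 1761607680), (47244640256, 47244640256), (584115552256, 34359738368), (721554505728, 34359738368)] :=
  Pool.Agent.helper14.QF.covD_F chks_eq (.n 1 (.l 6) (.l 6))
    [(262479544320, 1761607680), (47244640256, 47244640256), (584115552256, 34359738368), (721554505728, 34359738368)] rfl (by decide +kernel)
end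
mutual
theorem c1_m60_t5 : CovD 0 progs [(261598740480, 880803840), (141733920768, 47244640256), (584115552256, 34359738368), (721554505728, 34359738368)] :=
  Pool.Agent.helper14.QF.covD_F chks_eq (.n 3 (.n 3 (.n 3 (.l 4) (.l 4)) (.n 1 (.n 3 (.l 4) (.l 4)) (.n 3 (.l 4) (.l 4)))) (.n 1 (.n 3 (.l 4) (.n 3 (.l 4) (.l 4))) (.n 3 (.l 4) (.n 3 (.l 4) (.l 4)))))
    [(261598740480, 880803840), (141733920768, 47244640256), (584115552256, 34359738368), (721554505728, 34359738368)] rfl (by decide +kernel)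
theorem c1_m60_t6 : CovD 0 progs [(263360348160, 880803840), (141733920768, 47244640256), (584115552256, 34359738368), (721554505728, 34359738368)] :=
  Pool.Agent.helper14.QF.covD_F chks_eq (.n 3 (.n 3 (.n 3 (.l 4) (.n 0 (.l 4) (.l 4))) (.n 1 (.n 3 (.l 4) (.l 4)) (.n 3 (.l 4) (.l 4)))) (.n 3 (.n 3 (.l 4) (.n 0 (.l 4) (.l 4))) (.n 3 (.n 0 (.l 4) (.l 4)) (.l 4))))
    [(263360348160, 880803840), (141733920768, 47244640256), (584115552256, 34359738368), (721554505728, 34359738368)] rfl (by decide +kernel)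
end
mutual
theorem c1_m60_t9 : CovD 0 progs [(265121955840, 880803840), (94489280512, 94489280512), (584115552256, 34359738368), (721554505728, 34359738368)] :=
  Pool.Agent.helper14.QF.covD_F chks_eq (.n 1 (.n 1 (.l 6) (.n 3 (.n 3 (.n 3 (.l 4) (.l 4)) (.l 6)) (.l 6))) (.n 3 (.n 3 (.n 0 (.n 3 (.l 4) (.l 4)) (.n 3 (.l 4) (.l 4))) (.n 3 (.n 0 (.l 4) (.l 4)) (.l 4))) (.n 3 (.n 0 (.n 3 (.l 4) (.l 4)) (.n 3 (.l 4) (.l 4))) (.n 3 (.l 4) (.l 4)))))
    [(265121955840, 880803840), (94489280512, 94489280512), (584115552256, 34359738368), (721554505728, 34359738368)] rfl (by decide +kernel)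
theorem c1_m60_t10 : CovD 0 progs [(266883563520, 880803840), (94489280512, 94489280512), (584115552256, 34359738368), (721554505728, 34359738368)] :=
  Pool.Agent.helper14.QF.covD_F chks_eq (.n 1 (.n 1 (.l 6) (.n 3 (.n 3 (.n 3 (.l 4) (.l 4)) (.l 4)) (.l 6))) (.n 3 (.n 1 (.n 3 (.n 3 (.l 4) (.l 4)) (.l 4)) (.n 3 (.n 3 (.l 4) (.l 4)) (.l 4))) (.n 3 (.n 3 (.n 0 (.l 4) (.l 4)) (.l 4)) (.n 3 (.l 4) (.l 4)))))
    [(266883563520, 880803840), (94489280512, 94489280512), (584115552256, 34359738368), (721554505728, 34359738368)] rfl (by decide +kernel)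
end
mutual
theorem c1_m60_t14 : CovD 0 progs [(260717936640, 7046430720), (47244640256, 47244640256), (652835028992, 34359738368), (721554505728, 34359738368)] :=
  Pool.Agent.helper14.QF.covD_F chks_eq (.l 6)
    [(260717936640, 7046430720), (47244640256, 47244640256), (652835028992, 34359738368), (721554505728, 34359738368)] rfl (by decide +kernel)
theorem c1_m60_t15 : CovD 0 progs [(257194721280, 3523215360), (141733920768, 47244640256), (652835028992, 34359738368), (721554505728, 34359738368)] :=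
  Pool.Agent.helper14.QF.covD_F chks_eq (.n 1 (.l 6) (.n 1 (.l 6) (.n 2 (.n 2 (.l 6) (.l 6)) (.l 6))))
    [(257194721280, 3523215360), (141733920768, 47244640256), (652835028992, 34359738368), (721554505728, 34359738368)] rfl (by decide +kernel)
end
mutual
theorem c1_m60_t16 : CovD 0 progs [(262479544320, 1761607680), (141733920768, 47244640256), (652835028992, 34359738368), (721554505728, 34359738368)] :=
  Pool.Agent.helper14.QF.covD_F chks_eq (.n 1 (.l 6) (.n 1 (.l 6) (.n 2 (.n 3 (.n 3 (.n 3 (.l 4) (.n 0 (.l 4) (.l 4))) (.n 3 (.n 0 (.l 4) (.l 4)) (.l 4))) (.n 0 (.l 6) (.n 3 (.l 4) (.l 6)))) (.l 6))))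
    [(262479544320, 1761607680), (141733920768, 47244640256), (652835028992, 34359738368), (721554505728, 34359738368)] rfl (by decide +kernel)
theorem c1_m60_t17 : CovD 0 progs [(266002759680, 1761607680), (141733920768, 47244640256), (652835028992, 34359738368), (721554505728, 34359738368)] :=
  Pool.Agent.helper14.QF.covD_F chks_eq (.n 1 (.l 6) (.n 3 (.n 0 (.n 2 (.n 3 (.n 3 (.l 4) (.l 4)) (.l 4)) (.l 6)) (.n 3 (.n 3 (.l 4) (.l 4)) (.l 4))) (.n 1 (.l 6) (.n 2 (.n 3 (.n 3 (.l 4) (.l 4)) (.n 3 (.l 4) (.l 4))) (.l 6)))))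
    [(266002759680, 1761607680), (141733920768, 47244640256), (652835028992, 34359738368), (721554505728, 34359738368)] rfl (by decide +kernel)
end
mutual
theorem c1_m60_t22 : CovD 0 progs [(269525975040, 1761607680), (47244640256, 47244640256), (618475290624, 68719476736), (721554505728, 34359738368)] :=
  Pool.Agent.helper14.QF.covD_F chks_eq (.n 2 (.n 2 (.n 1 (.l 6) (.n 3 (.n 3 (.n 0 (.n 3 (.l 4) (.l 4)) (.l 4)) (.n 3 (.l 4) (.n 0 (.l 4) (.l 4)))) (.n 3 (.n 3 (.n 0 (.l 4) (.l 4)) (.l 4)) (.n 0 (.l 4) (.l 4))))) (.l 6)) (.l 6))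
    [(269525975040, 1761607680), (47244640256, 47244640256), (618475290624, 68719476736), (721554505728, 34359738368)] rfl (by decide +kernel)
theorem c1_m60_t23 : CovD 0 progs [(269525975040, 1761607680), (141733920768, 47244640256), (618475290624, 68719476736), (704374636544, 17179869184)] :=
  Pool.Agent.helper14.QF.covD_F chks_eq (.n 0 (.n 1 (.n 2 (.n 3 (.n 3 (.l 4) (.l 4)) (.n 3 (.l 4) (.l 4))) (.n 1 (.l 6) (.l 6))) (.n 1 (.n 3 (.n 3 (.l 4) (.l 4)) (.n 3 (.l 4) (.l 4))) (.n 3 (.n 3 (.l 4) (.l 4)) (.n 2 (.l 4) (.l 4))))) (.n 1 (.n 3 (.n 1 (.l 4) (.l 4)) (.n 3 (.l 4) (.l 4))) (.n 2 (.n 3 (.l 4) (.n 3 (.l 4) (.l 4))) (.n 3 (.l 4) (.n 3 (.l 4) (.l 4))))))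
    [(269525975040, 1761607680), (141733920768, 47244640256), (618475290624, 68719476736), (704374636544, 17179869184)] rfl (by decide +kernel)
end
mutual
theorem c1_m60_t24 : CovD 0 progs [(269525975040, 1761607680), (141733920768, 47244640256), (618475290624, 68719476736), (738734374912, 17179869184)] :=
  Pool.Agent.helper14.QF.covD_F chks_eq (.n 3 (.n 0 (.n 1 (.n 3 (.l 4) (.l 4)) (.n 3 (.n 0 (.l 4) (.l 4)) (.l 4))) (.n 3 (.n 1 (.l 4) (.l 4)) (.l 4))) (.n 3 (.n 0 (.l 4) (.l 4)) (.l 4)))
    [(269525975040, 1761607680), (141733920768, 47244640256), (618475290624, 68719476736), (738734374912, 17179869184)] rfl (by decide +kernel)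
theorem c1_m60_t27 : CovD 0 progs [(272168386560, 880803840), (94489280512, 94489280512), (618475290624, 68719476736), (721554505728, 34359738368)] :=
  Pool.Agent.helper14.QF.covD_F chks_eq (.n 1 (.n 2 (.n 3 (.n 3 (.n 1 (.l 4) (.l 4)) (.n 3 (.l 4) (.l 4))) (.n 3 (.n 0 (.l 4) (.l 4)) (.l 4))) (.l 6)) (.n 3 (.n 1 (.n 3 (.n 2 (.l 4) (.l 4)) (.n 3 (.l 4) (.l 4))) (.n 3 (.n 2 (.l 4) (.l 4)) (.n 3 (.n 0 (.l 4) (.l 4)) (.l 4)))) (.n 3 (.n 3 (.n 0 (.l 4) (.l 4)) (.l 4)) (.l 4))))
    [(272168386560, 880803840), (94489280512, 94489280512), (618475290624, 68719476736), (721554505728, 34359738368)] rfl (by decide +kernel)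
end
mutual
theorem c1_m60_t28 : CovD 0 progs [(273929994240, 880803840), (94489280512, 94489280512), (618475290624, 68719476736), (721554505728, 34359738368)] :=
  Pool.Agent.helper14.QF.covD_F chks_eq (.n 1 (.n 2 (.n 3 (.n 3 (.n 3 (.l 4) (.l 4)) (.n 3 (.l 4) (.l 4))) (.n 3 (.l 4) (.l 4))) (.l 6)) (.n 3 (.n 1 (.n 3 (.n 3 (.l 4) (.l 4)) (.n 3 (.l 4) (.l 4))) (.n 3 (.n 0 (.n 2 (.l 4) (.l 4)) (.n 3 (.l 4) (.l 4))) (.n 3 (.l 4) (.l 4)))) (.n 3 (.n 3 (.l 4) (.l 4)) (.l 4))))
    [(273929994240, 880803840), (94489280512, 94489280512), (618475290624, 68719476736), (721554505728, 34359738368)] rfl (by decide +kernel)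
theorem c1_m60_t31 : CovD 0 progs [(275691601920, 880803840), (94489280512, 94489280512), (618475290624, 68719476736), (721554505728, 34359738368)] :=
  Pool.Agent.helper14.QF.covD_F chks_eq (.n 3 (.n 3 (.n 1 (.n 2 (.n 3 (.l 4) (.l 4)) (.l 6)) (.n 1 (.n 3 (.l 4) (.l 4)) (.n 0 (.n 3 (.l 4) (.l 4)) (.n 3 (.l 4) (.l 4))))) (.n 1 (.n 3 (.l 4) (.l 4)) (.n 3 (.n 1 (.l 4) (.l 4)) (.l 4)))) (.n 3 (.n 1 (.l 4) (.n 0 (.l 4) (.l 4))) (.l 4)))
    [(275691601920, 880803840), (94489280512, 94489280512), (618475290624, 68719476736), (721554505728, 34359738368)] rfl (by decide +kernel)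
end
mutual
theorem c1_m60_t32 : CovD 0 progs [(277453209600, 880803840), (94489280512, 94489280512), (618475290624, 68719476736), (721554505728, 34359738368)] :=
  Pool.Agent.helper14.QF.covD_F chks_eq (.n 3 (.n 3 (.n 1 (.n 3 (.n 0 (.l 4) (.l 4)) (.l 4)) (.n 1 (.n 3 (.l 4) (.l 4)) (.n 3 (.n 0 (.l 4) (.l 4)) (.l 4)))) (.n 1 (.n 3 (.l 4) (.l 4)) (.n 3 (.l 4) (.l 4)))) (.n 3 (.n 1 (.l 4) (.l 4)) (.l 4)))
    [(277453209600, 880803840), (94489280512, 94489280512), (618475290624, 68719476736), (721554505728, 34359738368)] rfl (by decide +kernel)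
theorem c1_m60_t34 : CovD 0 progs [(280095621120, 1761607680), (94489280512, 94489280512), (618475290624, 68719476736), (721554505728, 34359738368)] :=
  Pool.Agent.helper14.QF.covD_F chks_eq (.n 3 (.n 0 (.n 3 (.n 1 (.n 3 (.l 4) (.l 4)) (.n 1 (.n 3 (.l 4) (.l 4)) (.n 3 (.l 4) (.l 4)))) (.n 3 (.n 1 (.l 4) (.l 4)) (.l 4))) (.n 1 (.n 3 (.n 3 (.l 4) (.l 4)) (.l 4)) (.n 3 (.n 3 (.n 0 (.l 4) (.l 4)) (.l 4)) (.l 4)))) (.n 3 (.n 1 (.l 4) (.l 4)) (.l 4)))
    [(280095621120, 1761607680), (94489280512, 94489280512), (618475290624, 68719476736), (721554505728, 34359738368)] rfl (by decide +kernel)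
end
mutual
theorem c1_m60_t38 : CovD 0 progs [(267764367360, 14092861440), (47244640256, 47244640256), (721554505728, 34359738368), (721554505728, 34359738368)] :=
  Pool.Agent.helper14.QF.covD_F chks_eq (.l 6)
    [(267764367360, 14092861440), (47244640256, 47244640256), (721554505728, 34359738368), (721554505728, 34359738368)] rfl (by decide +kernel)
theorem c1_m60_t39 : CovD 0 progs [(260717936640, 7046430720), (141733920768, 47244640256), (721554505728, 34359738368), (721554505728, 34359738368)] :=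
  Pool.Agent.helper14.QF.covD_F chks_eq (.l 6)
    [(260717936640, 7046430720), (141733920768, 47244640256), (721554505728, 34359738368), (721554505728, 34359738368)] rfl (by decide +kernel)
end
mutual
theorem c1_m60_t40 : CovD 0 progs [(274810798080, 7046430720), (141733920768, 47244640256), (721554505728, 34359738368), (721554505728, 34359738368)] :=
  Pool.Agent.helper14.QF.covD_F chks_eq (.n 0 (.n 1 (.l 6) (.n 0 (.l 6) (.n 1 (.l 6) (.n 2 (.n 3 (.n 3 (.l 4) (.n 0 (.l 4) (.l 4))) (.l 6)) (.l 6))))) (.n 1 (.l 6) (.n 0 (.n 3 (.n 0 (.n 1 (.l 6) (.n 3 (.l 4) (.l 4))) (.n 3 (.n 3 (.l 4) (.l 4)) (.l 4))) (.n 1 (.l 6) (.n 3 (.l 4) (.l 4)))) (.n 3 (.n 3 (.n 3 (.l 4) (.l 4)) (.n 0 (.l 4) (.l 4))) (.n 3 (.l 4) (.l 4))))))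
    [(274810798080, 7046430720), (141733920768, 47244640256), (721554505728, 34359738368), (721554505728, 34359738368)] rfl (by decide +kernel)
theorem c1_m60_t43 : CovD 0 progs [(267764367360, 14092861440), (94489280512, 94489280512), (790273982464, 34359738368), (721554505728, 34359738368)] :=
  Pool.Agent.helper14.QF.covD_F chks_eq (.n 1 (.l 6) (.n 1 (.l 6) (.l 6)))
    [(267764367360, 14092861440), (94489280512, 94489280512), (790273982464, 34359738368), (721554505728, 34359738368)] rfl (by decide +kernel)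
end
mutual
theorem c1_m60_t46 : CovD 0 progs [(267764367360, 14092861440), (94489280512, 94489280512), (962072674304, 137438953472), (721554505728, 34359738368)] :=
  Pool.Agent.helper14.QF.covD_F chks_eq (.n 1 (.l 6) (.n 1 (.l 6) (.l 6)))
    [(267764367360, 14092861440), (94489280512, 94489280512), (962072674304, 137438953472), (721554505728, 34359738368)] rfl (by decide +kernel)
theorem c1_m60_t48 : CovD 0 progs [(267764367360, 14092861440), (47244640256, 47244640256), (824633720832, 274877906944), (790273982464, 34359738368)] :=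
  Pool.Agent.helper14.QF.covD_F chks_eq (.n 2 (.n 2 (.n 2 (.n 0 (.l 6) (.n 0 (.n 0 (.n 1 (.l 6) (.n 2 (.l 6) (.l 6))) (.n 3 (.n 3 (.l 4) (.l 4)) (.l 4))) (.n 3 (.n 3 (.l 4) (.l 4)) (.l 4)))) (.l 6)) (.l 6)) (.l 6))
    [(267764367360, 14092861440), (47244640256, 47244640256), (824633720832, 274877906944), (790273982464, 34359738368)] rfl (by decide +kernel)
end
mutual
theorem c1_m60_t49 : CovD 0 progs [(255433113600, 1761607680), (141733920768, 47244640256), (824633720832, 274877906944), (790273982464, 34359738368)] :=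
  Pool.Agent.helper14.QF.covD_F chks_eq (.n 2 (.n 2 (.n 1 (.l 6) (.n 1 (.l 6) (.n 2 (.n 2 (.n 2 (.n 1 (.l 6) (.n 3 (.n 3 (.n 3 (.l 4) (.n 0 (.l 4) (.l 4))) (.n 3 (.l 4) (.l 4))) (.l 6))) (.l 6)) (.l 6)) (.l 6)))) (.l 6)) (.l 6))
    [(255433113600, 1761607680), (141733920768, 47244640256), (824633720832, 274877906944), (790273982464, 34359738368)] rfl (by decide +kernel)
theorem c1_m60_t50 : CovD 0 progs [(258956328960, 1761607680), (141733920768, 47244640256), (824633720832, 274877906944), (790273982464, 34359738368)] :=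
  Pool.Agent.helper14.QF.covD_F chks_eq (.n 2 (.n 2 (.n 2 (.n 1 (.l 6) (.n 3 (.n 3 (.n 0 (.n 3 (.l 4) (.l 4)) (.n 3 (.l 4) (.l 4))) (.n 3 (.l 4) (.l 4))) (.n 3 (.l 4) (.l 4)))) (.l 6)) (.l 6)) (.l 6))
    [(258956328960, 1761607680), (141733920768, 47244640256), (824633720832, 274877906944), (790273982464, 34359738368)] rfl (by decide +kernel)
end
mutual
theorem c1_m60_t52 : CovD 0 progs [(264241152000, 3523215360), (141733920768, 47244640256), (824633720832, 274877906944), (790273982464, 34359738368)] :=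
  Pool.Agent.helper14.QF.covD_F chks_eq (.n 2 (.n 0 (.n 2 (.n 2 (.n 3 (.n 3 (.n 3 (.n 0 (.l 4) (.l 4)) (.l 4)) (.n 0 (.l 4) (.l 4))) (.n 3 (.l 4) (.l 4))) (.l 6)) (.l 6)) (.n 2 (.n 3 (.n 3 (.n 3 (.n 0 (.l 4) (.l 4)) (.l 4)) (.l 4)) (.n 3 (.l 4) (.l 4))) (.l 6))) (.l 6))
    [(264241152000, 3523215360), (141733920768, 47244640256), (824633720832, 274877906944), (790273982464, 34359738368)] rfl (by decide +kernel)
theorem c1_m60_t54 : CovD 0 progs [(274810798080, 7046430720), (141733920768, 47244640256), (824633720832, 274877906944), (790273982464, 34359738368)] :=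
  Pool.Agent.helper14.QF.covD_F chks_eq (.n 2 (.n 3 (.n 2 (.n 0 (.n 0 (.n 3 (.n 0 (.l 4) (.l 4)) (.l 4)) (.n 3 (.l 4) (.l 4))) (.n 3 (.l 4) (.l 4))) (.n 0 (.n 1 (.l 6) (.l 6)) (.n 3 (.l 4) (.l 4)))) (.n 0 (.n 3 (.l 4) (.l 4)) (.n 0 (.l 4) (.l 4)))) (.l 6))
    [(274810798080, 7046430720), (141733920768, 47244640256), (824633720832, 274877906944), (790273982464, 34359738368)] rfl (by decide +kernel)
end
theorem c1_m60_t3 : CovD 0 progs [(257194721280, 3523215360), (94489280512, 94489280512), (584115552256, 34359738368), (721554505728, 34359738368)] :=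
  covD_split 0 (by decide +kernel) c1_m60_t1 c1_m60_t2
theorem c1_m60_t7 : CovD 0 progs [(262479544320, 1761607680), (141733920768, 47244640256), (584115552256, 34359738368), (721554505728, 34359738368)] :=
  covD_split 0 (by decide +kernel) c1_m60_t5 c1_m60_t6
theorem c1_m60_t8 : CovD 0 progs [(262479544320, 1761607680), (94489280512, 94489280512), (584115552256, 34359738368), (721554505728, 34359738368)] :=
  covD_split 1 (by decide +kernel) c1_m60_t4 c1_m60_t7
theorem c1_m60_t11 : CovD 0 progs [(266002759680, 1761607680), (94489280512, 94489280512), (584115552256, 34359738368), (721554505728, 34359738368)] :=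
  covD_split 0 (by decide +kernel) c1_m60_t9 c1_m60_t10
theorem c1_m60_t12 : CovD 0 progs [(264241152000, 3523215360), (94489280512, 94489280512), (584115552256, 34359738368), (721554505728, 34359738368)] :=
  covD_split 0 (by decide +kernel) c1_m60_t8 c1_m60_t11
theorem c1_m60_t13 : CovD 0 progs [(260717936640, 7046430720), (94489280512, 94489280512), (584115552256, 34359738368), (721554505728, 34359738368)] :=
  covD_split 0 (by decide +kernel) c1_m60_t3 c1_m60_t12
theorem c1_m60_t18 : CovD 0 progs [(264241152000, 3523215360), (141733920768, 47244640256), (652835028992, 34359738368), (721554505728, 34359738368)] :=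
  covD_split 0 (by decide +kernel) c1_m60_t16 c1_m60_t17
theorem c1_m60_t19 : CovD 0 progs [(260717936640, 7046430720), (141733920768, 47244640256), (652835028992, 34359738368), (721554505728, 34359738368)] :=
  covD_split 0 (by decide +kernel) c1_m60_t15 c1_m60_t18
theorem c1_m60_t20 : CovD 0 progs [(260717936640, 7046430720), (94489280512, 94489280512), (652835028992, 34359738368), (721554505728, 34359738368)] :=
  covD_split 1 (by decide +kernel) c1_m60_t14 c1_m60_t19
theorem c1_m60_t21 : CovD 0 progs [(260717936640, 7046430720), (94489280512, 94489280512), (618475290624, 68719476736), (721554505728, 34359738368)] :=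
  covD_split 2 (by decide +kernel) c1_m60_t13 c1_m60_t20
theorem c1_m60_t25 : CovD 0 progs [(269525975040, 1761607680), (141733920768, 47244640256), (618475290624, 68719476736), (721554505728, 34359738368)] :=
  covD_split 3 (by decide +kernel) c1_m60_t23 c1_m60_t24
theorem c1_m60_t26 : CovD 0 progs [(269525975040, 1761607680), (94489280512, 94489280512), (618475290624, 68719476736), (721554505728, 34359738368)] :=
  covD_split 1 (by decide +kernel) c1_m60_t22 c1_m60_t25
theorem c1_m60_t29 : CovD 0 progs [(273049190400, 1761607680), (94489280512, 94489280512), (618475290624, 68719476736), (721554505728, 34359738368)] :=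
  covD_split 0 (by decide +kernel) c1_m60_t27 c1_m60_t28
theorem c1_m60_t30 : CovD 0 progs [(271287582720, 3523215360), (94489280512, 94489280512), (618475290624, 68719476736), (721554505728, 34359738368)] :=
  covD_split 0 (by decide +kernel) c1_m60_t26 c1_m60_t29
theorem c1_m60_t33 : CovD 0 progs [(276572405760, 1761607680), (94489280512, 94489280512), (618475290624, 68719476736), (721554505728, 34359738368)] :=
  covD_split 0 (by decide +kernel) c1_m60_t31 c1_m60_t32
theorem c1_m60_t35 : CovD 0 progs [(278334013440, 3523215360), (94489280512, 94489280512), (618475290624, 68719476736), (721554505728, 34359738368)] :=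
  covD_split 0 (by decide +kernel) c1_m60_t33 c1_m60_t34
theorem c1_m60_t36 : CovD 0 progs [(274810798080, 7046430720), (94489280512, 94489280512), (618475290624, 68719476736), (721554505728, 34359738368)] :=
  covD_split 0 (by decide +kernel) c1_m60_t30 c1_m60_t35
theorem c1_m60_t37 : CovD 0 progs [(267764367360, 14092861440), (94489280512, 94489280512), (618475290624, 68719476736), (721554505728, 34359738368)] :=
  covD_split 0 (by decide +kernel) c1_m60_t21 c1_m60_t36
theorem c1_m60_t41 : CovD 0 progs [(267764367360, 14092861440), (141733920768, 47244640256), (721554505728, 34359738368), (721554505728, 34359738368)] :=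
  covD_split 0 (by decide +kernel) c1_m60_t39 c1_m60_t40
theorem c1_m60_t42 : CovD 0 progs [(267764367360, 14092861440), (94489280512, 94489280512), (721554505728, 34359738368), (721554505728, 34359738368)] :=
  covD_split 1 (by decide +kernel) c1_m60_t38 c1_m60_t41
theorem c1_m60_t44 : CovD 0 progs [(267764367360, 14092861440), (94489280512, 94489280512), (755914244096, 68719476736), (721554505728, 34359738368)] :=
  covD_split 2 (by decide +kernel) c1_m60_t42 c1_m60_t43
theorem c1_m60_t45 : CovD 0 progs [(267764367360, 14092861440), (94489280512, 94489280512), (687194767360, 137438953472), (721554505728, 34359738368)] :=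
  covD_split 2 (by decide +kernel) c1_m60_t37 c1_m60_t44
theorem c1_m60_t47 : CovD 0 progs [(267764367360, 14092861440), (94489280512, 94489280512), (824633720832, 274877906944), (721554505728, 34359738368)] :=
  covD_split 2 (by decide +kernel) c1_m60_t45 c1_m60_t46
theorem c1_m60_t51 : CovD 0 progs [(257194721280, 3523215360), (141733920768, 47244640256), (824633720832, 274877906944), (790273982464, 34359738368)] :=
  covD_split 0 (by decide +kernel) c1_m60_t49 c1_m60_t50
theorem c1_m60_t53 : CovD 0 progs [(260717936640, 7046430720), (141733920768, 47244640256), (824633720832, 274877906944), (790273982464, 34359738368)] :=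
  covD_split 0 (by decide +kernel) c1_m60_t51 c1_m60_t52
theorem c1_m60_t55 : CovD 0 progs [(267764367360, 14092861440), (141733920768, 47244640256), (824633720832, 274877906944), (790273982464, 34359738368)] :=
  covD_split 0 (by decide +kernel) c1_m60_t53 c1_m60_t54
theorem c1_m60_t56 : CovD 0 progs [(267764367360, 14092861440), (94489280512, 94489280512), (824633720832, 274877906944), (790273982464, 34359738368)] :=
  covD_split 1 (by decide +kernel) c1_m60_t48 c1_m60_t55
theorem c1_m60_t57 : CovD 0 progs [(267764367360, 14092861440), (94489280512, 94489280512), (824633720832, 274877906944), (755914244096, 68719476736)] :=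
  covD_split 3 (by decide +kernel) c1_m60_t47 c1_m60_t56
theorem c1_m60 : CovD 0 progs [(253671505920, 28185722880), (94489280512, 94489280512), (824633720832, 274877906944), (755914244096, 68719476736)] :=
  covD_split 0 (by decide +kernel) c1_m60_t0 c1_m60_t57

end Pool.Agent.helper71.FJ.Crt.QMa
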