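import Pool.Agent.helper71.FJ.Crt.QMaP

/-!
Generated certificates.
-/

namespace Pool.Agent.helper71.FJ.Crt.QMa

open Pool.Agent.helper31.IA (Z Op)
open Pool.Agent.helper31.IC

mutual
theorem c1_m62_t0 : CovD 0 progs [(288903659520, 7046430720), (47244640256, 47244640256), (687194767360, 137438953472), (554050781184, 4294967296)] :=
  Pool.Agent.helper14.QF.covD_F chks_eq (.n 0 (.n 0 (.l 4) (.n 0 (.l 4) (.l 4))) (.n 0 (.n 0 (.n 0 (.l 4) (.l 4)) (.n 1 (.l 4) (.l 4))) (.n 2 (.n 0 (.l 4) (.l 4)) (.n 2 (.n 0 (.l 4) (.l 4)) (.l 6)))))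
    [(288903659520, 7046430720), (47244640256, 47244640256), (687194767360, 137438953472), (554050781184, 4294967296)] rfl (by decide +kernel)
theorem c1_m62_t1 : CovD 0 progs [(288903659520, 7046430720), (47244640256, 47244640256), (687194767360, 137438953472), (562640715776, 4294967296)] :=
  Pool.Agent.helper14.QF.covD_F chks_eq (.n 0 (.n 0 (.l 4) (.n 0 (.l 4) (.n 0 (.l 4) (.l 4)))) (.n 0 (.n 0 (.n 1 (.l 4) (.l 4)) (.n 1 (.l 4) (.n 0 (.l 4) (.l 4)))) (.n 0 (.n 1 (.l 4) (.n 1 (.l 4) (.l 4))) (.n 1 (.n 0 (.l 4) (.l 4)) (.n 2 (.l 4) (.l 4))))))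
    [(288903659520, 7046430720), (47244640256, 47244640256), (687194767360, 137438953472), (562640715776, 4294967296)] rfl (by decide +kernel)
end
mutual
theorem c1_m62_t3 : CovD 0 progs [(285380444160, 3523215360), (47244640256, 47244640256), (687194767360, 137438953472), (575525617664, 8589934592)] :=
  Pool.Agent.helper14.QF.covD_F chks_eq (.n 0 (.n 0 (.n 0 (.l 4) (.l 4)) (.n 1 (.l 4) (.l 4))) (.n 2 (.n 0 (.l 4) (.n 0 (.l 4) (.l 4))) (.n 1 (.l 6) (.n 0 (.l 4) (.n 0 (.l 4) (.l 4))))))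
    [(285380444160, 3523215360), (47244640256, 47244640256), (687194767360, 137438953472), (575525617664, 8589934592)] rfl (by decide +kernel)
theorem c1_m62_t4 : CovD 0 progs [(290665267200, 1761607680), (47244640256, 47244640256), (687194767360, 137438953472), (575525617664, 8589934592)] :=
  Pool.Agent.helper14.QF.covD_F chks_eq (.n 3 (.n 2 (.n 0 (.l 4) (.l 4)) (.n 1 (.l 6) (.n 0 (.l 4) (.l 4)))) (.n 2 (.n 0 (.l 4) (.n 0 (.l 4) (.l 4))) (.n 1 (.l 6) (.n 0 (.l 4) (.l 4)))))
    [(290665267200, 1761607680), (47244640256, 47244640256), (687194767360, 137438953472), (575525617664, 8589934592)] rfl (by decide +kernel)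
end
mutual
theorem c1_m62_t5 : CovD 0 progs [(294188482560, 1761607680), (47244640256, 47244640256), (687194767360, 137438953472), (575525617664, 8589934592)] :=
  Pool.Agent.helper14.QF.covD_F chks_eq (.n 0 (.n 1 (.n 1 (.n 0 (.l 4) (.l 4)) (.n 3 (.l 4) (.l 4))) (.n 2 (.n 3 (.l 4) (.l 4)) (.n 3 (.l 4) (.l 4)))) (.n 1 (.n 0 (.n 2 (.l 4) (.l 4)) (.n 1 (.l 4) (.l 4))) (.n 2 (.n 0 (.l 4) (.l 4)) (.n 3 (.l 4) (.l 4)))))
    [(294188482560, 1761607680), (47244640256, 47244640256), (687194767360, 137438953472), (575525617664, 8589934592)] rfl (by decide +kernel)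
theorem c1_m62_t9 : CovD 0 progs [(283618836480, 1761607680), (47244640256, 47244640256), (687194767360, 137438953472), (601295421440, 17179869184)] :=
  Pool.Agent.helper14.QF.covD_F chks_eq (.n 0 (.n 1 (.n 2 (.n 3 (.l 4) (.n 0 (.l 4) (.l 4))) (.l 6)) (.n 2 (.n 3 (.l 4) (.n 0 (.l 4) (.l 4))) (.l 6))) (.n 1 (.n 2 (.n 3 (.l 4) (.n 3 (.l 4) (.l 4))) (.l 6)) (.n 3 (.n 3 (.l 4) (.n 0 (.l 4) (.l 4))) (.n 2 (.n 3 (.l 4) (.l 4)) (.n 1 (.l 6) (.l 6))))))
    [(283618836480, 1761607680), (47244640256, 47244640256), (687194767360, 137438953472), (601295421440, 17179869184)] rfl (by decide +kernel)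
end
mutual
theorem c1_m62_t10 : CovD 0 progs [(286261248000, 880803840), (47244640256, 47244640256), (687194767360, 137438953472), (601295421440, 17179869184)] :=
  Pool.Agent.helper14.QF.covD_F chks_eq (.n 3 (.n 2 (.n 3 (.l 4) (.n 0 (.l 4) (.l 4))) (.n 1 (.l 6) (.n 3 (.l 4) (.l 4)))) (.n 1 (.n 2 (.n 3 (.l 4) (.l 4)) (.l 6)) (.n 2 (.n 3 (.l 4) (.l 4)) (.n 2 (.l 6) (.l 6)))))
    [(286261248000, 880803840), (47244640256, 47244640256), (687194767360, 137438953472), (601295421440, 17179869184)] rfl (by decide +kernel)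
theorem c1_m62_t11 : CovD 0 progs [(288022855680, 880803840), (47244640256, 47244640256), (687194767360, 137438953472), (601295421440, 17179869184)] :=
  Pool.Agent.helper14.QF.covD_F chks_eq (.n 3 (.n 2 (.n 3 (.l 4) (.n 0 (.l 4) (.l 4))) (.n 1 (.l 6) (.n 3 (.l 4) (.l 4)))) (.n 1 (.n 2 (.n 0 (.l 4) (.l 4)) (.l 6)) (.n 2 (.n 3 (.l 4) (.l 4)) (.n 1 (.l 6) (.n 0 (.l 4) (.l 4))))))
    [(288022855680, 880803840), (47244640256, 47244640256), (687194767360, 137438953472), (601295421440, 17179869184)] rfl (by decide +kernel)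
end
mutual
theorem c1_m62_t14 : CovD 0 progs [(290665267200, 1761607680), (47244640256, 47244640256), (687194767360, 137438953472), (601295421440, 17179869184)] :=
  Pool.Agent.helper14.QF.covD_F chks_eq (.n 0 (.n 1 (.n 2 (.n 3 (.n 0 (.l 4) (.l 4)) (.l 4)) (.l 6)) (.n 3 (.n 2 (.n 3 (.l 4) (.l 4)) (.n 2 (.n 0 (.l 4) (.l 4)) (.l 6))) (.n 1 (.n 2 (.l 4) (.l 4)) (.n 2 (.l 4) (.l 4))))) (.n 1 (.n 2 (.n 3 (.n 0 (.l 4) (.l 4)) (.l 4)) (.l 6)) (.n 2 (.n 3 (.n 3 (.l 4) (.l 4)) (.l 4)) (.n 2 (.n 3 (.n 0 (.l 4) (.l 4)) (.l 4)) (.l 6)))))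
    [(290665267200, 1761607680), (47244640256, 47244640256), (687194767360, 137438953472), (601295421440, 17179869184)] rfl (by decide +kernel)
theorem c1_m62_t15 : CovD 0 progs [(294188482560, 1761607680), (47244640256, 47244640256), (687194767360, 137438953472), (601295421440, 17179869184)] :=
  Pool.Agent.helper14.QF.covD_F chks_eq (.n 2 (.n 3 (.n 1 (.n 0 (.l 4) (.l 4)) (.n 1 (.l 4) (.l 4))) (.n 1 (.n 0 (.l 4) (.n 0 (.l 4) (.l 4))) (.n 3 (.l 4) (.n 0 (.l 4) (.l 4))))) (.n 2 (.n 1 (.l 6) (.n 0 (.n 3 (.l 4) (.l 4)) (.n 3 (.l 4) (.n 0 (.l 4) (.l 4))))) (.l 6)))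
    [(294188482560, 1761607680), (47244640256, 47244640256), (687194767360, 137438953472), (601295421440, 17179869184)] rfl (by decide +kernel)
end
mutual
theorem c1_m62_t19 : CovD 0 progs [(296830894080, 880803840), (47244640256, 47244640256), (687194767360, 137438953472), (584115552256, 34359738368)] :=
  Pool.Agent.helper14.QF.covD_F chks_eq (.n 2 (.n 1 (.n 3 (.n 3 (.n 0 (.l 4) (.l 4)) (.l 4)) (.n 3 (.l 4) (.n 0 (.l 4) (.l 4)))) (.n 3 (.n 3 (.n 0 (.l 4) (.l 4)) (.l 4)) (.n 3 (.l 4) (.n 0 (.l 4) (.l 4))))) (.n 2 (.n 3 (.n 3 (.n 3 (.l 4) (.n 0 (.l 4) (.l 4))) (.n 1 (.l 4) (.l 4))) (.n 3 (.n 1 (.l 4) (.l 4)) (.n 3 (.l 4) (.l 4)))) (.l 6)))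
    [(296830894080, 880803840), (47244640256, 47244640256), (687194767360, 137438953472), (584115552256, 34359738368)] rfl (by decide +kernel)
theorem c1_m62_t20 : CovD 0 progs [(298592501760, 880803840), (47244640256, 47244640256), (687194767360, 137438953472), (584115552256, 34359738368)] :=
  Pool.Agent.helper14.QF.covD_F chks_eq (.n 2 (.n 1 (.n 3 (.n 3 (.l 4) (.l 4)) (.n 3 (.l 4) (.l 4))) (.n 3 (.n 3 (.n 0 (.l 4) (.l 4)) (.l 4)) (.n 0 (.n 3 (.l 4) (.l 4)) (.n 3 (.l 4) (.l 4))))) (.n 2 (.n 3 (.n 3 (.n 1 (.l 4) (.l 4)) (.l 4)) (.n 1 (.n 3 (.l 4) (.l 4)) (.n 3 (.l 4) (.l 4)))) (.n 1 (.l 6) (.l 6))))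
    [(298592501760, 880803840), (47244640256, 47244640256), (687194767360, 137438953472), (584115552256, 34359738368)] rfl (by decide +kernel)
end
mutual
theorem c1_m62_t22 : CovD 0 progs [(300354109440, 880803840), (47244640256, 47244640256), (687194767360, 137438953472), (584115552256, 34359738368)] :=
  Pool.Agent.helper14.QF.covD_F chks_eq (.n 2 (.n 1 (.n 3 (.n 3 (.l 4) (.l 4)) (.n 3 (.l 4) (.l 4))) (.n 3 (.n 3 (.l 4) (.l 4)) (.n 3 (.n 0 (.l 4) (.l 4)) (.l 4)))) (.n 2 (.n 3 (.n 1 (.n 3 (.l 4) (.l 4)) (.n 3 (.l 4) (.l 4))) (.n 1 (.n 3 (.l 4) (.l 4)) (.n 3 (.l 4) (.l 4)))) (.n 1 (.l 6) (.n 1 (.l 6) (.n 3 (.l 4) (.l 6))))))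
    [(300354109440, 880803840), (47244640256, 47244640256), (687194767360, 137438953472), (584115552256, 34359738368)] rfl (by decide +kernel)
theorem c1_m62_t23 : CovD 0 progs [(302115717120, 880803840), (47244640256, 47244640256), (687194767360, 137438953472), (584115552256, 34359738368)] :=
  Pool.Agent.helper14.QF.covD_F chks_eq (.n 3 (.n 1 (.n 1 (.n 3 (.l 4) (.l 4)) (.n 3 (.l 4) (.n 0 (.l 4) (.l 4)))) (.n 2 (.n 3 (.l 4) (.n 0 (.l 4) (.l 4))) (.n 3 (.l 4) (.n 1 (.l 4) (.l 4))))) (.n 1 (.n 3 (.n 2 (.l 4) (.l 4)) (.l 4)) (.n 2 (.n 3 (.l 4) (.l 4)) (.n 3 (.n 0 (.l 4) (.l 4)) (.l 4)))))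
    [(302115717120, 880803840), (47244640256, 47244640256), (687194767360, 137438953472), (584115552256, 34359738368)] rfl (by decide +kernel)
end
mutual
theorem c1_m62_t26 : CovD 0 progs [(303877324800, 880803840), (47244640256, 47244640256), (687194767360, 137438953472), (584115552256, 34359738368)] :=
  Pool.Agent.helper14.QF.covD_F chks_eq (.n 3 (.n 3 (.n 1 (.n 1 (.l 4) (.l 4)) (.n 2 (.l 4) (.n 0 (.l 4) (.l 4)))) (.n 2 (.n 3 (.l 4) (.l 4)) (.n 0 (.n 1 (.l 4) (.l 4)) (.n 1 (.l 4) (.l 4))))) (.n 1 (.n 3 (.n 0 (.l 4) (.l 4)) (.l 4)) (.n 3 (.n 2 (.l 4) (.l 4)) (.l 4))))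
    [(303877324800, 880803840), (47244640256, 47244640256), (687194767360, 137438953472), (584115552256, 34359738368)] rfl (by decide +kernel)
theorem c1_m62_t27 : CovD 0 progs [(305638932480, 880803840), (47244640256, 47244640256), (687194767360, 137438953472), (584115552256, 34359738368)] :=
  Pool.Agent.helper14.QF.covD_F chks_eq (.n 3 (.n 1 (.n 2 (.n 3 (.l 4) (.l 4)) (.n 3 (.l 4) (.l 4))) (.n 2 (.n 3 (.l 4) (.l 4)) (.n 0 (.n 3 (.l 4) (.l 4)) (.n 3 (.l 4) (.l 4))))) (.n 1 (.n 3 (.l 4) (.l 4)) (.n 3 (.n 0 (.l 4) (.l 4)) (.l 4))))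
    [(305638932480, 880803840), (47244640256, 47244640256), (687194767360, 137438953472), (584115552256, 34359738368)] rfl (by decide +kernel)
theorem c1_m62_t29 : CovD 0 progs [(308281344000, 1761607680), (47244640256, 47244640256), (687194767360, 137438953472), (584115552256, 34359738368)] :=
  Pool.Agent.helper14.QF.covD_F chks_eq (.n 0 (.n 3 (.n 1 (.n 1 (.n 3 (.l 4) (.l 4)) (.n 3 (.l 4) (.l 4))) (.n 2 (.n 3 (.l 4) (.l 4)) (.n 3 (.n 0 (.l 4) (.l 4)) (.l 4)))) (.n 3 (.n 1 (.l 4) (.l 4)) (.l 4))) (.n 3 (.n 1 (.n 3 (.n 0 (.l 4) (.l 4)) (.l 4)) (.n 2 (.n 3 (.l 4) (.l 4)) (.n 3 (.l 4) (.l 4)))) (.n 3 (.n 1 (.l 4) (.l 4)) (.l 4))))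
    [(308281344000, 1761607680), (47244640256, 47244640256), (687194767360, 137438953472), (584115552256, 34359738368)] rfl (by decide +kernel)
end
theorem c1_m62_t2 : CovD 0 progs [(288903659520, 7046430720), (47244640256, 47244640256), (687194767360, 137438953472), (558345748480, 8589934592)] :=
  covD_split 3 (by decide +kernel) c1_m62_t0 c1_m62_t1
theorem c1_m62_t6 : CovD 0 progs [(292426874880, 3523215360), (47244640256, 47244640256), (687194767360, 137438953472), (575525617664, 8589934592)] :=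
  covD_split 0 (by decide +kernel) c1_m62_t4 c1_m62_t5
theorem c1_m62_t7 : CovD 0 progs [(288903659520, 7046430720), (47244640256, 47244640256), (687194767360, 137438953472), (575525617664, 8589934592)] :=
  covD_split 0 (by decide +kernel) c1_m62_t3 c1_m62_t6
theorem c1_m62_t8 : CovD 0 progs [(288903659520, 7046430720), (47244640256, 47244640256), (687194767360, 137438953472), (566935683072, 17179869184)] :=
  covD_split 3 (by decide +kernel) c1_m62_t2 c1_m62_t7
theorem c1_m62_t12 : CovD 0 progs [(287142051840, 1761607680), (47244640256, 47244640256), (687194767360, 137438953472), (601295421440, 17179869184)] :=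
  covD_split 0 (by decide +kernel) c1_m62_t10 c1_m62_t11
theorem c1_m62_t13 : CovD 0 progs [(285380444160, 3523215360), (47244640256, 47244640256), (687194767360, 137438953472), (601295421440, 17179869184)] :=
  covD_split 0 (by decide +kernel) c1_m62_t9 c1_m62_t12
theorem c1_m62_t16 : CovD 0 progs [(292426874880, 3523215360), (47244640256, 47244640256), (687194767360, 137438953472), (601295421440, 17179869184)] :=
  covD_split 0 (by decide +kernel) c1_m62_t14 c1_m62_t15
theorem c1_m62_t17 : CovD 0 progs [(288903659520, 7046430720), (47244640256, 47244640256), (687194767360, 137438953472), (601295421440, 17179869184)] :=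
  covD_split 0 (by decide +kernel) c1_m62_t13 c1_m62_t16
theorem c1_m62_t18 : CovD 0 progs [(288903659520, 7046430720), (47244640256, 47244640256), (687194767360, 137438953472), (584115552256, 34359738368)] :=
  covD_split 3 (by decide +kernel) c1_m62_t8 c1_m62_t17
theorem c1_m62_t21 : CovD 0 progs [(297711697920, 1761607680), (47244640256, 47244640256), (687194767360, 137438953472), (584115552256, 34359738368)] :=
  covD_split 0 (by decide +kernel) c1_m62_t19 c1_m62_t20
theorem c1_m62_t24 : CovD 0 progs [(301234913280, 1761607680), (47244640256, 47244640256), (687194767360, 137438953472), (584115552256, 34359738368)] :=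
  covD_split 0 (by decide +kernel) c1_m62_t22 c1_m62_t23
theorem c1_m62_t25 : CovD 0 progs [(299473305600, 3523215360), (47244640256, 47244640256), (687194767360, 137438953472), (584115552256, 34359738368)] :=
  covD_split 0 (by decide +kernel) c1_m62_t21 c1_m62_t24
theorem c1_m62_t28 : CovD 0 progs [(304758128640, 1761607680), (47244640256, 47244640256), (687194767360, 137438953472), (584115552256, 34359738368)] :=
  covD_split 0 (by decide +kernel) c1_m62_t26 c1_m62_t27
theorem c1_m62_t30 : CovD 0 progs [(306519736320, 3523215360), (47244640256, 47244640256), (687194767360, 137438953472), (584115552256, 34359738368)] :=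
  covD_split 0 (by decide +kernel) c1_m62_t28 c1_m62_t29
theorem c1_m62_t31 : CovD 0 progs [(302996520960, 7046430720), (47244640256, 47244640256), (687194767360, 137438953472), (584115552256, 34359738368)] :=
  covD_split 0 (by decide +kernel) c1_m62_t25 c1_m62_t30
theorem c1_m62 : CovD 0 progs [(295950090240, 14092861440), (47244640256, 47244640256), (687194767360, 137438953472), (584115552256, 34359738368)] :=
  covD_split 0 (by decide +kernel) c1_m62_t18 c1_m62_t31

end Pool.Agent.helper71.FJ.Crt.QMa
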