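import Pool.Agent.helper71.FJ.Crt.QMaP

/-!
Generated certificates.
-/

namespace Pool.Agent.helper71.FJ.Crt.QMa

open Pool.Agent.helper31.IA (Z Op)
open Pool.Agent.helper31.IC

mutual
theorem c1_m63_t0 : CovD 0 progs [(282738032640, 880803840), (141733920768, 47244640256), (687194767360, 137438953472), (584115552256, 34359738368)] :=
  Pool.Agent.helper14.QF.covD_F chks_eq (.n 3 (.n 1 (.n 3 (.l 4) (.l 4)) (.n 3 (.l 4) (.n 0 (.l 4) (.l 4)))) (.n 1 (.n 2 (.n 3 (.l 4) (.n 3 (.l 4) (.l 4))) (.n 2 (.n 3 (.l 4) (.n 0 (.l 4) (.l 4))) (.l 6))) (.n 2 (.n 3 (.l 4) (.n 3 (.l 4) (.l 4))) (.n 3 (.n 0 (.l 4) (.l 4)) (.n 3 (.l 4) (.n 0 (.l 4) (.l 4)))))))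
    [(282738032640, 880803840), (141733920768, 47244640256), (687194767360, 137438953472), (584115552256, 34359738368)] rfl (by decide +kernel)
theorem c1_m63_t1 : CovD 0 progs [(284499640320, 880803840), (141733920768, 47244640256), (687194767360, 137438953472), (566935683072, 17179869184)] :=
  Pool.Agent.helper14.QF.covD_F chks_eq (.n 1 (.n 3 (.l 4) (.n 0 (.l 4) (.l 4))) (.n 3 (.l 4) (.n 2 (.l 4) (.l 4))))
    [(284499640320, 880803840), (141733920768, 47244640256), (687194767360, 137438953472), (566935683072, 17179869184)] rfl (by decide +kernel)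
end
mutual
theorem c1_m63_t2 : CovD 0 progs [(284499640320, 880803840), (141733920768, 47244640256), (687194767360, 137438953472), (601295421440, 17179869184)] :=
  Pool.Agent.helper14.QF.covD_F chks_eq (.n 3 (.n 2 (.n 3 (.l 4) (.n 0 (.l 4) (.l 4))) (.n 1 (.n 0 (.l 4) (.l 4)) (.n 1 (.l 4) (.l 4)))) (.n 1 (.n 2 (.n 3 (.l 4) (.l 4)) (.n 2 (.n 0 (.l 4) (.l 4)) (.l 6))) (.n 2 (.n 3 (.l 4) (.n 0 (.l 4) (.l 4))) (.n 0 (.n 1 (.l 4) (.l 4)) (.n 2 (.l 4) (.l 4))))))
    [(284499640320, 880803840), (141733920768, 47244640256), (687194767360, 137438953472), (601295421440, 17179869184)] rfl (by decide +kernel)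
theorem c1_m63_t5 : CovD 0 progs [(286261248000, 880803840), (141733920768, 47244640256), (687194767360, 137438953472), (566935683072, 17179869184)] :=
  Pool.Agent.helper14.QF.covD_F chks_eq (.n 1 (.n 3 (.l 4) (.n 2 (.l 4) (.l 4))) (.n 2 (.n 3 (.l 4) (.l 4)) (.n 3 (.l 4) (.n 0 (.l 4) (.l 4)))))
    [(286261248000, 880803840), (141733920768, 47244640256), (687194767360, 137438953472), (566935683072, 17179869184)] rfl (by decide +kernel)
end
mutual
theorem c1_m63_t6 : CovD 0 progs [(286261248000, 880803840), (141733920768, 47244640256), (687194767360, 137438953472), (601295421440, 17179869184)] :=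
  Pool.Agent.helper14.QF.covD_F chks_eq (.n 3 (.n 1 (.n 2 (.n 3 (.l 4) (.l 4)) (.n 3 (.l 4) (.l 4))) (.n 2 (.n 3 (.l 4) (.l 4)) (.n 3 (.l 4) (.n 0 (.l 4) (.l 4))))) (.n 1 (.n 2 (.n 3 (.l 4) (.l 4)) (.n 2 (.n 3 (.l 4) (.l 4)) (.l 6))) (.n 0 (.n 2 (.n 2 (.l 4) (.l 4)) (.n 2 (.l 4) (.l 4))) (.n 2 (.n 2 (.l 4) (.l 4)) (.n 2 (.l 4) (.l 4))))))
    [(286261248000, 880803840), (141733920768, 47244640256), (687194767360, 137438953472), (601295421440, 17179869184)] rfl (by decide +kernel)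
theorem c1_m63_t8 : CovD 0 progs [(288022855680, 880803840), (118111600640, 23622320128), (687194767360, 137438953472), (584115552256, 34359738368)] :=
  Pool.Agent.helper14.QF.covD_F chks_eq (.n 0 (.n 3 (.n 3 (.l 4) (.n 2 (.l 4) (.l 4))) (.n 2 (.n 1 (.n 3 (.l 4) (.l 4)) (.n 3 (.l 4) (.l 4))) (.n 2 (.n 3 (.l 4) (.l 4)) (.l 6)))) (.n 3 (.n 3 (.l 4) (.n 2 (.l 4) (.l 4))) (.n 2 (.n 1 (.n 3 (.l 4) (.l 4)) (.n 3 (.l 4) (.l 4))) (.n 2 (.n 3 (.l 4) (.l 4)) (.l 6)))))
    [(288022855680, 880803840), (118111600640, 23622320128), (687194767360, 137438953472), (584115552256, 34359738368)] rfl (by decide +kernel)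
end
mutual
theorem c1_m63_t9 : CovD 0 progs [(288022855680, 880803840), (165356240896, 23622320128), (687194767360, 137438953472), (584115552256, 34359738368)] :=
  Pool.Agent.helper14.QF.covD_F chks_eq (.n 2 (.n 3 (.n 3 (.l 4) (.n 0 (.l 4) (.l 4))) (.n 3 (.n 3 (.l 4) (.n 0 (.l 4) (.l 4))) (.n 0 (.n 2 (.l 4) (.l 4)) (.n 1 (.l 4) (.l 4))))) (.n 3 (.n 3 (.l 4) (.n 1 (.l 4) (.l 4))) (.n 0 (.n 2 (.n 3 (.l 4) (.l 4)) (.n 3 (.l 4) (.l 4))) (.n 1 (.n 3 (.l 4) (.l 4)) (.n 3 (.l 4) (.l 4))))))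
    [(288022855680, 880803840), (165356240896, 23622320128), (687194767360, 137438953472), (584115552256, 34359738368)] rfl (by decide +kernel)
theorem c1_m63_t13 : CovD 0 progs [(289784463360, 880803840), (118111600640, 23622320128), (687194767360, 137438953472), (584115552256, 34359738368)] :=
  Pool.Agent.helper14.QF.covD_F chks_eq (.n 2 (.n 3 (.n 3 (.l 4) (.n 0 (.l 4) (.l 4))) (.n 3 (.n 3 (.l 4) (.l 4)) (.n 1 (.l 4) (.l 4)))) (.n 3 (.n 3 (.l 4) (.n 3 (.l 4) (.l 4))) (.n 1 (.n 2 (.n 3 (.l 4) (.l 4)) (.l 6)) (.n 3 (.n 0 (.l 4) (.l 4)) (.l 4)))))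
    [(289784463360, 880803840), (118111600640, 23622320128), (687194767360, 137438953472), (584115552256, 34359738368)] rfl (by decide +kernel)
end
mutual
theorem c1_m63_t14 : CovD 0 progs [(289784463360, 880803840), (165356240896, 23622320128), (687194767360, 137438953472), (584115552256, 34359738368)] :=
  Pool.Agent.helper14.QF.covD_F chks_eq (.n 2 (.n 3 (.n 3 (.l 4) (.n 2 (.l 4) (.l 4))) (.n 1 (.n 3 (.n 0 (.l 4) (.l 4)) (.l 4)) (.n 3 (.n 2 (.l 4) (.l 4)) (.l 4)))) (.n 2 (.n 3 (.n 3 (.l 4) (.l 4)) (.n 3 (.n 0 (.l 4) (.l 4)) (.l 4))) (.n 3 (.n 3 (.l 4) (.l 4)) (.n 3 (.n 0 (.l 4) (.l 4)) (.l 4)))))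
    [(289784463360, 880803840), (165356240896, 23622320128), (687194767360, 137438953472), (584115552256, 34359738368)] rfl (by decide +kernel)
theorem c1_m63_t16 : CovD 0 progs [(291546071040, 880803840), (118111600640, 23622320128), (687194767360, 137438953472), (584115552256, 34359738368)] :=
  Pool.Agent.helper14.QF.covD_F chks_eq (.n 2 (.n 3 (.n 3 (.n 0 (.l 4) (.l 4)) (.n 3 (.l 4) (.l 4))) (.n 3 (.n 3 (.l 4) (.l 4)) (.l 4))) (.n 1 (.n 2 (.n 3 (.n 3 (.l 4) (.l 4)) (.n 3 (.l 4) (.l 4))) (.l 6)) (.n 3 (.n 3 (.l 4) (.n 0 (.l 4) (.l 4))) (.n 3 (.n 0 (.l 4) (.l 4)) (.l 4)))))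
    [(291546071040, 880803840), (118111600640, 23622320128), (687194767360, 137438953472), (584115552256, 34359738368)] rfl (by decide +kernel)
end
mutual
theorem c1_m63_t17 : CovD 0 progs [(291546071040, 880803840), (165356240896, 23622320128), (687194767360, 137438953472), (584115552256, 34359738368)] :=
  Pool.Agent.helper14.QF.covD_F chks_eq (.n 1 (.n 2 (.n 3 (.n 3 (.l 4) (.n 0 (.l 4) (.l 4))) (.n 3 (.n 0 (.l 4) (.l 4)) (.l 4))) (.n 3 (.n 3 (.l 4) (.n 0 (.l 4) (.l 4))) (.n 3 (.n 0 (.l 4) (.l 4)) (.l 4)))) (.n 2 (.n 3 (.n 3 (.l 4) (.n 0 (.l 4) (.l 4))) (.n 3 (.n 0 (.l 4) (.l 4)) (.l 4))) (.n 3 (.n 3 (.l 4) (.n 0 (.l 4) (.l 4))) (.n 3 (.n 0 (.l 4) (.l 4)) (.l 4)))))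
    [(291546071040, 880803840), (165356240896, 23622320128), (687194767360, 137438953472), (584115552256, 34359738368)] rfl (by decide +kernel)
theorem c1_m63_t20 : CovD 0 progs [(293307678720, 880803840), (118111600640, 23622320128), (687194767360, 137438953472), (584115552256, 34359738368)] :=
  Pool.Agent.helper14.QF.covD_F chks_eq (.n 2 (.n 1 (.n 3 (.n 3 (.l 4) (.n 0 (.l 4) (.l 4))) (.n 3 (.l 4) (.l 4))) (.n 3 (.n 3 (.l 4) (.n 0 (.l 4) (.l 4))) (.n 3 (.l 4) (.l 4)))) (.n 2 (.n 3 (.n 3 (.l 4) (.n 0 (.l 4) (.l 4))) (.n 3 (.l 4) (.l 4))) (.n 1 (.n 1 (.l 6) (.l 6)) (.n 3 (.n 3 (.l 4) (.l 4)) (.l 4)))))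
    [(293307678720, 880803840), (118111600640, 23622320128), (687194767360, 137438953472), (584115552256, 34359738368)] rfl (by decide +kernel)
end
mutual
theorem c1_m63_t21 : CovD 0 progs [(293307678720, 880803840), (165356240896, 23622320128), (687194767360, 137438953472), (584115552256, 34359738368)] :=
  Pool.Agent.helper14.QF.covD_F chks_eq (.n 2 (.n 2 (.n 3 (.n 3 (.l 4) (.n 0 (.l 4) (.l 4))) (.n 3 (.l 4) (.l 4))) (.n 3 (.n 3 (.l 4) (.n 0 (.l 4) (.l 4))) (.n 1 (.l 4) (.l 4)))) (.n 2 (.n 3 (.n 3 (.l 4) (.n 0 (.l 4) (.l 4))) (.n 1 (.l 4) (.l 4))) (.n 3 (.n 3 (.l 4) (.n 0 (.l 4) (.l 4))) (.n 1 (.l 4) (.l 4)))))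
    [(293307678720, 880803840), (165356240896, 23622320128), (687194767360, 137438953472), (584115552256, 34359738368)] rfl (by decide +kernel)
theorem c1_m63_t23 : CovD 0 progs [(295069286400, 880803840), (118111600640, 23622320128), (687194767360, 137438953472), (584115552256, 34359738368)] :=
  Pool.Agent.helper14.QF.covD_F chks_eq (.n 2 (.n 3 (.n 3 (.n 3 (.l 4) (.l 4)) (.n 2 (.l 4) (.l 4))) (.n 3 (.l 4) (.n 2 (.l 4) (.l 4)))) (.n 1 (.n 2 (.n 3 (.n 3 (.l 4) (.l 4)) (.n 3 (.l 4) (.l 4))) (.n 3 (.n 3 (.l 4) (.l 4)) (.l 6))) (.n 3 (.n 0 (.n 3 (.l 4) (.l 4)) (.n 3 (.l 4) (.l 4))) (.n 3 (.l 4) (.n 0 (.l 4) (.l 4))))))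
    [(295069286400, 880803840), (118111600640, 23622320128), (687194767360, 137438953472), (584115552256, 34359738368)] rfl (by decide +kernel)
end
mutual
theorem c1_m63_t24 : CovD 0 progs [(295069286400, 880803840), (165356240896, 23622320128), (687194767360, 137438953472), (584115552256, 34359738368)] :=
  Pool.Agent.helper14.QF.covD_F chks_eq (.n 2 (.n 2 (.n 3 (.n 3 (.n 0 (.l 4) (.l 4)) (.l 4)) (.n 3 (.l 4) (.l 4))) (.n 3 (.n 3 (.n 0 (.l 4) (.l 4)) (.l 4)) (.n 3 (.l 4) (.l 4)))) (.n 2 (.n 3 (.n 3 (.n 0 (.l 4) (.l 4)) (.l 4)) (.n 3 (.l 4) (.l 4))) (.n 3 (.n 3 (.n 0 (.l 4) (.l 4)) (.l 4)) (.n 3 (.l 4) (.l 4)))))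
    [(295069286400, 880803840), (165356240896, 23622320128), (687194767360, 137438953472), (584115552256, 34359738368)] rfl (by decide +kernel)
theorem c1_m63_t29 : CovD 0 progs [(296830894080, 880803840), (118111600640, 23622320128), (687194767360, 137438953472), (584115552256, 34359738368)] :=
  Pool.Agent.helper14.QF.covD_F chks_eq (.n 2 (.n 2 (.n 3 (.n 3 (.n 0 (.l 4) (.l 4)) (.l 4)) (.n 3 (.l 4) (.l 4))) (.n 3 (.n 3 (.n 0 (.l 4) (.l 4)) (.l 4)) (.n 3 (.l 4) (.l 4)))) (.n 1 (.n 3 (.n 3 (.n 0 (.l 4) (.l 4)) (.l 4)) (.n 3 (.l 4) (.n 0 (.l 4) (.l 4)))) (.n 3 (.n 3 (.n 0 (.l 4) (.l 4)) (.l 4)) (.n 3 (.l 4) (.n 0 (.l 4) (.l 4))))))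
    [(296830894080, 880803840), (118111600640, 23622320128), (687194767360, 137438953472), (584115552256, 34359738368)] rfl (by decide +kernel)
end
mutual
theorem c1_m63_t30 : CovD 0 progs [(296830894080, 880803840), (165356240896, 23622320128), (687194767360, 137438953472), (584115552256, 34359738368)] :=
  Pool.Agent.helper14.QF.covD_F chks_eq (.n 2 (.n 2 (.n 3 (.n 3 (.l 4) (.l 4)) (.n 3 (.l 4) (.l 4))) (.n 3 (.n 3 (.n 0 (.l 4) (.l 4)) (.l 4)) (.n 3 (.l 4) (.l 4)))) (.n 2 (.n 3 (.n 3 (.n 0 (.l 4) (.l 4)) (.l 4)) (.n 3 (.l 4) (.l 4))) (.n 3 (.n 3 (.l 4) (.l 4)) (.n 3 (.l 4) (.l 4)))))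
    [(296830894080, 880803840), (165356240896, 23622320128), (687194767360, 137438953472), (584115552256, 34359738368)] rfl (by decide +kernel)
theorem c1_m63_t32 : CovD 0 progs [(298592501760, 880803840), (118111600640, 23622320128), (687194767360, 137438953472), (584115552256, 34359738368)] :=
  Pool.Agent.helper14.QF.covD_F chks_eq (.n 1 (.n 2 (.n 3 (.n 3 (.l 4) (.l 4)) (.n 3 (.l 4) (.l 4))) (.n 3 (.n 3 (.l 4) (.l 4)) (.n 3 (.l 4) (.l 4)))) (.n 2 (.n 3 (.n 3 (.l 4) (.l 4)) (.n 3 (.l 4) (.l 4))) (.n 3 (.n 3 (.n 0 (.l 4) (.l 4)) (.l 4)) (.n 3 (.l 4) (.l 4)))))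
    [(298592501760, 880803840), (118111600640, 23622320128), (687194767360, 137438953472), (584115552256, 34359738368)] rfl (by decide +kernel)
end
mutual
theorem c1_m63_t33 : CovD 0 progs [(298592501760, 880803840), (165356240896, 23622320128), (687194767360, 137438953472), (584115552256, 34359738368)] :=
  Pool.Agent.helper14.QF.covD_F chks_eq (.n 2 (.n 2 (.n 3 (.n 3 (.l 4) (.l 4)) (.n 3 (.l 4) (.l 4))) (.n 3 (.n 3 (.l 4) (.l 4)) (.n 3 (.l 4) (.l 4)))) (.n 2 (.n 3 (.n 3 (.l 4) (.l 4)) (.n 3 (.l 4) (.l 4))) (.n 3 (.n 1 (.l 4) (.l 4)) (.n 3 (.l 4) (.l 4)))))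
    [(298592501760, 880803840), (165356240896, 23622320128), (687194767360, 137438953472), (584115552256, 34359738368)] rfl (by decide +kernel)
theorem c1_m63_t36 : CovD 0 progs [(300354109440, 880803840), (118111600640, 23622320128), (687194767360, 137438953472), (584115552256, 34359738368)] :=
  Pool.Agent.helper14.QF.covD_F chks_eq (.n 1 (.n 2 (.n 3 (.n 2 (.l 4) (.l 4)) (.n 3 (.l 4) (.l 4))) (.n 3 (.n 2 (.l 4) (.l 4)) (.n 3 (.l 4) (.l 4)))) (.n 2 (.n 3 (.n 2 (.l 4) (.l 4)) (.n 3 (.l 4) (.l 4))) (.n 3 (.n 2 (.l 4) (.l 4)) (.n 3 (.l 4) (.l 4)))))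
    [(300354109440, 880803840), (118111600640, 23622320128), (687194767360, 137438953472), (584115552256, 34359738368)] rfl (by decide +kernel)
end
mutual
theorem c1_m63_t37 : CovD 0 progs [(300354109440, 880803840), (165356240896, 23622320128), (687194767360, 137438953472), (584115552256, 34359738368)] :=
  Pool.Agent.helper14.QF.covD_F chks_eq (.n 2 (.n 2 (.n 3 (.n 1 (.l 4) (.l 4)) (.n 3 (.l 4) (.l 4))) (.n 3 (.n 1 (.l 4) (.l 4)) (.n 3 (.l 4) (.l 4)))) (.n 2 (.n 3 (.n 1 (.l 4) (.l 4)) (.n 3 (.l 4) (.l 4))) (.n 3 (.n 1 (.l 4) (.l 4)) (.n 3 (.l 4) (.l 4)))))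
    [(300354109440, 880803840), (165356240896, 23622320128), (687194767360, 137438953472), (584115552256, 34359738368)] rfl (by decide +kernel)
theorem c1_m63_t39 : CovD 0 progs [(302115717120, 880803840), (118111600640, 23622320128), (687194767360, 137438953472), (584115552256, 34359738368)] :=
  Pool.Agent.helper14.QF.covD_F chks_eq (.n 2 (.n 3 (.n 3 (.l 4) (.n 0 (.l 4) (.l 4))) (.n 3 (.n 0 (.l 4) (.l 4)) (.l 4))) (.n 3 (.n 1 (.n 3 (.l 4) (.l 4)) (.n 3 (.l 4) (.l 4))) (.n 3 (.n 1 (.l 4) (.l 4)) (.l 4))))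
    [(302115717120, 880803840), (118111600640, 23622320128), (687194767360, 137438953472), (584115552256, 34359738368)] rfl (by decide +kernel)
end
mutual
theorem c1_m63_t40 : CovD 0 progs [(302115717120, 880803840), (165356240896, 23622320128), (687194767360, 137438953472), (584115552256, 34359738368)] :=
  Pool.Agent.helper14.QF.covD_F chks_eq (.n 2 (.n 3 (.n 1 (.n 3 (.l 4) (.l 4)) (.n 3 (.l 4) (.l 4))) (.n 3 (.n 0 (.l 4) (.l 4)) (.l 4))) (.n 1 (.n 3 (.n 3 (.l 4) (.l 4)) (.n 3 (.l 4) (.l 4))) (.n 3 (.n 3 (.l 4) (.l 4)) (.n 3 (.l 4) (.l 4)))))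
    [(302115717120, 880803840), (165356240896, 23622320128), (687194767360, 137438953472), (584115552256, 34359738368)] rfl (by decide +kernel)
theorem c1_m63_t44 : CovD 0 progs [(303877324800, 880803840), (118111600640, 23622320128), (687194767360, 137438953472), (584115552256, 34359738368)] :=
  Pool.Agent.helper14.QF.covD_F chks_eq (.n 2 (.n 3 (.n 0 (.n 3 (.l 4) (.l 4)) (.n 3 (.l 4) (.l 4))) (.n 3 (.l 4) (.l 4))) (.n 3 (.n 1 (.n 3 (.l 4) (.l 4)) (.n 3 (.l 4) (.l 4))) (.n 3 (.n 0 (.l 4) (.l 4)) (.l 4))))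
    [(303877324800, 880803840), (118111600640, 23622320128), (687194767360, 137438953472), (584115552256, 34359738368)] rfl (by decide +kernel)
end
mutual
theorem c1_m63_t45 : CovD 0 progs [(303877324800, 880803840), (165356240896, 23622320128), (687194767360, 137438953472), (584115552256, 34359738368)] :=
  Pool.Agent.helper14.QF.covD_F chks_eq (.n 2 (.n 3 (.n 1 (.n 3 (.l 4) (.l 4)) (.n 3 (.l 4) (.l 4))) (.n 3 (.n 0 (.l 4) (.l 4)) (.l 4))) (.n 3 (.n 1 (.n 3 (.l 4) (.l 4)) (.n 3 (.l 4) (.l 4))) (.n 3 (.n 1 (.l 4) (.l 4)) (.l 4))))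
    [(303877324800, 880803840), (165356240896, 23622320128), (687194767360, 137438953472), (584115552256, 34359738368)] rfl (by decide +kernel)
theorem c1_m63_t47 : CovD 0 progs [(305638932480, 880803840), (141733920768, 47244640256), (687194767360, 137438953472), (584115552256, 34359738368)] :=
  Pool.Agent.helper14.QF.covD_F chks_eq (.n 3 (.n 1 (.n 1 (.n 2 (.n 3 (.l 4) (.l 4)) (.n 3 (.l 4) (.l 4))) (.n 2 (.n 3 (.l 4) (.l 4)) (.n 3 (.l 4) (.l 4)))) (.n 1 (.n 2 (.n 3 (.l 4) (.l 4)) (.n 3 (.l 4) (.l 4))) (.n 2 (.n 3 (.l 4) (.l 4)) (.n 3 (.l 4) (.l 4))))) (.n 1 (.n 3 (.n 2 (.l 4) (.l 4)) (.l 4)) (.n 2 (.n 3 (.l 4) (.l 4)) (.n 3 (.l 4) (.l 4)))))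
    [(305638932480, 880803840), (141733920768, 47244640256), (687194767360, 137438953472), (584115552256, 34359738368)] rfl (by decide +kernel)
end
mutual
theorem c1_m63_t49 : CovD 0 progs [(307400540160, 880803840), (141733920768, 47244640256), (687194767360, 137438953472), (584115552256, 34359738368)] :=
  Pool.Agent.helper14.QF.covD_F chks_eq (.n 3 (.n 1 (.n 2 (.n 3 (.n 0 (.l 4) (.l 4)) (.l 4)) (.n 1 (.n 3 (.l 4) (.l 4)) (.n 3 (.l 4) (.l 4)))) (.n 2 (.n 3 (.n 1 (.l 4) (.l 4)) (.l 4)) (.n 1 (.n 3 (.l 4) (.l 4)) (.n 3 (.l 4) (.l 4))))) (.n 2 (.n 3 (.l 4) (.l 4)) (.n 3 (.n 1 (.l 4) (.l 4)) (.l 4))))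
    [(307400540160, 880803840), (141733920768, 47244640256), (687194767360, 137438953472), (584115552256, 34359738368)] rfl (by decide +kernel)
theorem c1_m63_t50 : CovD 0 progs [(309162147840, 880803840), (141733920768, 47244640256), (687194767360, 137438953472), (584115552256, 34359738368)] :=
  Pool.Agent.helper14.QF.covD_F chks_eq (.n 3 (.n 1 (.n 2 (.n 3 (.l 4) (.l 4)) (.n 3 (.n 0 (.l 4) (.l 4)) (.l 4))) (.n 2 (.n 3 (.n 0 (.l 4) (.l 4)) (.l 4)) (.n 3 (.n 1 (.l 4) (.l 4)) (.l 4)))) (.n 1 (.n 3 (.l 4) (.l 4)) (.n 3 (.n 1 (.l 4) (.l 4)) (.l 4))))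
    [(309162147840, 880803840), (141733920768, 47244640256), (687194767360, 137438953472), (584115552256, 34359738368)] rfl (by decide +kernel)
end
theorem c1_m63_t3 : CovD 0 progs [(284499640320, 880803840), (141733920768, 47244640256), (687194767360, 137438953472), (584115552256, 34359738368)] :=
  covD_split 3 (by decide +kernel) c1_m63_t1 c1_m63_t2
theorem c1_m63_t4 : CovD 0 progs [(283618836480, 1761607680), (141733920768, 47244640256), (687194767360, 137438953472), (584115552256, 34359738368)] :=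
  covD_split 0 (by decide +kernel) c1_m63_t0 c1_m63_t3
theorem c1_m63_t7 : CovD 0 progs [(286261248000, 880803840), (141733920768, 47244640256), (687194767360, 137438953472), (584115552256, 34359738368)] :=
  covD_split 3 (by decide +kernel) c1_m63_t5 c1_m63_t6
theorem c1_m63_t10 : CovD 0 progs [(288022855680, 880803840), (141733920768, 47244640256), (687194767360, 137438953472), (584115552256, 34359738368)] :=
  covD_split 1 (by decide +kernel) c1_m63_t8 c1_m63_t9
theorem c1_m63_t11 : CovD 0 progs [(287142051840, 1761607680), (141733920768, 47244640256), (687194767360, 137438953472), (584115552256, 34359738368)] :=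
  covD_split 0 (by decide +kernel) c1_m63_t7 c1_m63_t10
theorem c1_m63_t12 : CovD 0 progs [(285380444160, 3523215360), (141733920768, 47244640256), (687194767360, 137438953472), (584115552256, 34359738368)] :=
  covD_split 0 (by decide +kernel) c1_m63_t4 c1_m63_t11
theorem c1_m63_t15 : CovD 0 progs [(289784463360, 880803840), (141733920768, 47244640256), (687194767360, 137438953472), (584115552256, 34359738368)] :=
  covD_split 1 (by decide +kernel) c1_m63_t13 c1_m63_t14
theorem c1_m63_t18 : CovD 0 progs [(291546071040, 880803840), (141733920768, 47244640256), (687194767360, 137438953472), (584115552256, 34359738368)] :=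
  covD_split 1 (by decide +kernel) c1_m63_t16 c1_m63_t17
theorem c1_m63_t19 : CovD 0 progs [(290665267200, 1761607680), (141733920768, 47244640256), (687194767360, 137438953472), (584115552256, 34359738368)] :=
  covD_split 0 (by decide +kernel) c1_m63_t15 c1_m63_t18
theorem c1_m63_t22 : CovD 0 progs [(293307678720, 880803840), (141733920768, 47244640256), (687194767360, 137438953472), (584115552256, 34359738368)] :=
  covD_split 1 (by decide +kernel) c1_m63_t20 c1_m63_t21
theorem c1_m63_t25 : CovD 0 progs [(295069286400, 880803840), (141733920768, 47244640256), (687194767360, 137438953472), (584115552256, 34359738368)] :=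
  covD_split 1 (by decide +kernel) c1_m63_t23 c1_m63_t24
theorem c1_m63_t26 : CovD 0 progs [(294188482560, 1761607680), (141733920768, 47244640256), (687194767360, 137438953472), (584115552256, 34359738368)] :=
  covD_split 0 (by decide +kernel) c1_m63_t22 c1_m63_t25
theorem c1_m63_t27 : CovD 0 progs [(292426874880, 3523215360), (141733920768, 47244640256), (687194767360, 137438953472), (584115552256, 34359738368)] :=
  covD_split 0 (by decide +kernel) c1_m63_t19 c1_m63_t26
theorem c1_m63_t28 : CovD 0 progs [(288903659520, 7046430720), (141733920768, 47244640256), (687194767360, 137438953472), (584115552256, 34359738368)] :=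
  covD_split 0 (by decide +kernel) c1_m63_t12 c1_m63_t27
theorem c1_m63_t31 : CovD 0 progs [(296830894080, 880803840), (141733920768, 47244640256), (687194767360, 137438953472), (584115552256, 34359738368)] :=
  covD_split 1 (by decide +kernel) c1_m63_t29 c1_m63_t30
theorem c1_m63_t34 : CovD 0 progs [(298592501760, 880803840), (141733920768, 47244640256), (687194767360, 137438953472), (584115552256, 34359738368)] :=
  covD_split 1 (by decide +kernel) c1_m63_t32 c1_m63_t33
theorem c1_m63_t35 : CovD 0 progs [(297711697920, 1761607680), (141733920768, 47244640256), (687194767360, 137438953472), (584115552256, 34359738368)] :=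
  covD_split 0 (by decide +kernel) c1_m63_t31 c1_m63_t34
theorem c1_m63_t38 : CovD 0 progs [(300354109440, 880803840), (141733920768, 47244640256), (687194767360, 137438953472), (584115552256, 34359738368)] :=
  covD_split 1 (by decide +kernel) c1_m63_t36 c1_m63_t37
theorem c1_m63_t41 : CovD 0 progs [(302115717120, 880803840), (141733920768, 47244640256), (687194767360, 137438953472), (584115552256, 34359738368)] :=
  covD_split 1 (by decide +kernel) c1_m63_t39 c1_m63_t40
theorem c1_m63_t42 : CovD 0 progs [(301234913280, 1761607680), (141733920768, 47244640256), (687194767360, 137438953472), (584115552256, 34359738368)] :=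
  covD_split 0 (by decide +kernel) c1_m63_t38 c1_m63_t41
theorem c1_m63_t43 : CovD 0 progs [(299473305600, 3523215360), (141733920768, 47244640256), (687194767360, 137438953472), (584115552256, 34359738368)] :=
  covD_split 0 (by decide +kernel) c1_m63_t35 c1_m63_t42
theorem c1_m63_t46 : CovD 0 progs [(303877324800, 880803840), (141733920768, 47244640256), (687194767360, 137438953472), (584115552256, 34359738368)] :=
  covD_split 1 (by decide +kernel) c1_m63_t44 c1_m63_t45
theorem c1_m63_t48 : CovD 0 progs [(304758128640, 1761607680), (141733920768, 47244640256), (687194767360, 137438953472), (584115552256, 34359738368)] :=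
  covD_split 0 (by decide +kernel) c1_m63_t46 c1_m63_t47
theorem c1_m63_t51 : CovD 0 progs [(308281344000, 1761607680), (141733920768, 47244640256), (687194767360, 137438953472), (584115552256, 34359738368)] :=
  covD_split 0 (by decide +kernel) c1_m63_t49 c1_m63_t50
theorem c1_m63_t52 : CovD 0 progs [(306519736320, 3523215360), (141733920768, 47244640256), (687194767360, 137438953472), (584115552256, 34359738368)] :=
  covD_split 0 (by decide +kernel) c1_m63_t48 c1_m63_t51
theorem c1_m63_t53 : CovD 0 progs [(302996520960, 7046430720), (141733920768, 47244640256), (687194767360, 137438953472), (584115552256, 34359738368)] :=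
  covD_split 0 (by decide +kernel) c1_m63_t43 c1_m63_t52
theorem c1_m63 : CovD 0 progs [(295950090240, 14092861440), (141733920768, 47244640256), (687194767360, 137438953472), (584115552256, 34359738368)] :=
  covD_split 0 (by decide +kernel) c1_m63_t28 c1_m63_t53

end Pool.Agent.helper71.FJ.Crt.QMa
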