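import Pool.Agent.helper71.FJ.Crt.QMaP

/-!
Generated certificates.
-/

namespace Pool.Agent.helper71.FJ.Crt.QMa

open Pool.Agent.helper31.IA (Z Op)
open Pool.Agent.helper31.IC

mutual
theorem c1_m64_t0 : CovD 0 progs [(288903659520, 7046430720), (94489280512, 94489280512), (962072674304, 137438953472), (584115552256, 34359738368)] :=
  Pool.Agent.helper14.QF.covD_F chks_eq (.n 1 (.l 6) (.n 2 (.n 1 (.l 6) (.n 2 (.n 0 (.n 0 (.l 6) (.n 0 (.l 6) (.n 3 (.n 3 (.l 4) (.l 4)) (.l 6)))) (.n 0 (.n 1 (.l 6) (.n 2 (.n 3 (.n 3 (.l 4) (.l 4)) (.n 0 (.l 4) (.l 4))) (.l 6))) (.n 3 (.n 3 (.n 0 (.l 4) (.l 4)) (.n 1 (.l 4) (.l 4))) (.n 1 (.l 6) (.n 0 (.l 4) (.l 4)))))) (.l 6))) (.l 6)))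
    [(288903659520, 7046430720), (94489280512, 94489280512), (962072674304, 137438953472), (584115552256, 34359738368)] rfl (by decide +kernel)
theorem c1_m64_t1 : CovD 0 progs [(299473305600, 3523215360), (47244640256, 47244640256), (962072674304, 137438953472), (584115552256, 34359738368)] :=
  Pool.Agent.helper14.QF.covD_F chks_eq (.n 1 (.l 6) (.l 6))
    [(299473305600, 3523215360), (47244640256, 47244640256), (962072674304, 137438953472), (584115552256, 34359738368)] rfl (by decide +kernel)
end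
mutual
theorem c1_m64_t2 : CovD 0 progs [(299473305600, 3523215360), (118111600640, 23622320128), (962072674304, 137438953472), (584115552256, 34359738368)] :=
  Pool.Agent.helper14.QF.covD_F chks_eq (.n 2 (.n 2 (.n 0 (.l 6) (.n 1 (.l 6) (.n 3 (.n 3 (.l 4) (.l 4)) (.l 6)))) (.l 6)) (.l 6))
    [(299473305600, 3523215360), (118111600640, 23622320128), (962072674304, 137438953472), (584115552256, 34359738368)] rfl (by decide +kernel)
theorem c1_m64_t3 : CovD 0 progs [(299473305600, 3523215360), (165356240896, 23622320128), (962072674304, 137438953472), (584115552256, 34359738368)] :=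
  Pool.Agent.helper14.QF.covD_F chks_eq (.n 0 (.n 2 (.n 2 (.n 3 (.n 3 (.n 0 (.l 4) (.l 4)) (.l 4)) (.n 0 (.n 3 (.l 4) (.l 4)) (.n 3 (.l 4) (.l 4)))) (.n 1 (.l 6) (.l 6))) (.l 6)) (.n 1 (.n 2 (.n 2 (.n 3 (.n 0 (.l 4) (.l 4)) (.n 3 (.l 4) (.l 4))) (.l 6)) (.l 6)) (.n 2 (.n 2 (.n 3 (.l 4) (.n 3 (.l 4) (.l 4))) (.n 3 (.l 4) (.n 3 (.l 4) (.l 4)))) (.l 6))))
    [(299473305600, 3523215360), (165356240896, 23622320128), (962072674304, 137438953472), (584115552256, 34359738368)] rfl (by decide +kernel)
end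
mutual
theorem c1_m64_t6 : CovD 0 progs [(304758128640, 1761607680), (94489280512, 94489280512), (858993459200, 34359738368), (584115552256, 34359738368)] :=
  Pool.Agent.helper14.QF.covD_F chks_eq (.n 1 (.l 6) (.n 1 (.n 1 (.l 6) (.n 3 (.n 3 (.l 4) (.l 4)) (.n 3 (.l 4) (.l 4)))) (.n 3 (.n 0 (.n 3 (.l 4) (.l 4)) (.n 3 (.l 4) (.l 4))) (.n 3 (.n 0 (.l 4) (.l 4)) (.l 4)))))
    [(304758128640, 1761607680), (94489280512, 94489280512), (858993459200, 34359738368), (584115552256, 34359738368)] rfl (by decide +kernel)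
theorem c1_m64_t7 : CovD 0 progs [(308281344000, 1761607680), (94489280512, 94489280512), (858993459200, 34359738368), (584115552256, 34359738368)] :=
  Pool.Agent.helper14.QF.covD_F chks_eq (.n 1 (.l 6) (.n 3 (.n 0 (.n 1 (.n 3 (.l 4) (.l 4)) (.n 3 (.l 4) (.l 4))) (.n 1 (.n 3 (.l 4) (.l 4)) (.n 3 (.l 4) (.l 4)))) (.n 3 (.n 1 (.l 4) (.l 4)) (.l 4))))
    [(308281344000, 1761607680), (94489280512, 94489280512), (858993459200, 34359738368), (584115552256, 34359738368)] rfl (by decide +kernel)
end
mutual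
theorem c1_m64_t9 : CovD 0 progs [(306519736320, 3523215360), (94489280512, 94489280512), (927712935936, 34359738368), (584115552256, 34359738368)] :=
  Pool.Agent.helper14.QF.covD_F chks_eq (.n 0 (.n 1 (.l 6) (.n 1 (.l 6) (.n 1 (.l 6) (.n 0 (.n 3 (.l 4) (.l 4)) (.n 3 (.l 4) (.l 4)))))) (.n 1 (.l 6) (.n 1 (.l 6) (.n 3 (.n 3 (.n 0 (.l 4) (.l 4)) (.l 4)) (.n 3 (.l 4) (.l 4))))))
    [(306519736320, 3523215360), (94489280512, 94489280512), (927712935936, 34359738368), (584115552256, 34359738368)] rfl (by decide +kernel)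
theorem c1_m64_t11 : CovD 0 progs [(306519736320, 3523215360), (94489280512, 94489280512), (1030792151040, 68719476736), (584115552256, 34359738368)] :=
  Pool.Agent.helper14.QF.covD_F chks_eq (.n 1 (.l 6) (.n 1 (.l 6) (.n 1 (.l 6) (.l 6))))
    [(306519736320, 3523215360), (94489280512, 94489280512), (1030792151040, 68719476736), (584115552256, 34359738368)] rfl (by decide +kernel)
end
theorem c1_m64_t4 : CovD 0 progs [(299473305600, 3523215360), (141733920768, 47244640256), (962072674304, 137438953472), (584115552256, 34359738368)] :=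
  covD_split 1 (by decide +kernel) c1_m64_t2 c1_m64_t3
theorem c1_m64_t5 : CovD 0 progs [(299473305600, 3523215360), (94489280512, 94489280512), (962072674304, 137438953472), (584115552256, 34359738368)] :=
  covD_split 1 (by decide +kernel) c1_m64_t1 c1_m64_t4
theorem c1_m64_t8 : CovD 0 progs [(306519736320, 3523215360), (94489280512, 94489280512), (858993459200, 34359738368), (584115552256, 34359738368)] :=
  covD_split 0 (by decide +kernel) c1_m64_t6 c1_m64_t7
theorem c1_m64_t10 : CovD 0 progs [(306519736320, 3523215360), (94489280512, 94489280512), (893353197568, 68719476736), (584115552256, 34359738368)] :=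
  covD_split 2 (by decide +kernel) c1_m64_t8 c1_m64_t9
theorem c1_m64_t12 : CovD 0 progs [(306519736320, 3523215360), (94489280512, 94489280512), (962072674304, 137438953472), (584115552256, 34359738368)] :=
  covD_split 2 (by decide +kernel) c1_m64_t10 c1_m64_t11
theorem c1_m64_t13 : CovD 0 progs [(302996520960, 7046430720), (94489280512, 94489280512), (962072674304, 137438953472), (584115552256, 34359738368)] :=
  covD_split 0 (by decide +kernel) c1_m64_t5 c1_m64_t12
theorem c1_m64 : CovD 0 progs [(295950090240, 14092861440), (94489280512, 94489280512), (962072674304, 137438953472), (584115552256, 34359738368)] :=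
  covD_split 0 (by decide +kernel) c1_m64_t0 c1_m64_t13

end Pool.Agent.helper71.FJ.Crt.QMa
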