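import Pool.Agent.helper71.FJ.Crt.QMaP

/-!
Generated certificates.
-/

namespace Pool.Agent.helper71.FJ.Crt.QMa

open Pool.Agent.helper31.IA (Z Op)
open Pool.Agent.helper31.IC

mutual
theorem c1_m65_t0 : CovD 0 progs [(282738032640, 880803840), (47244640256, 47244640256), (687194767360, 137438953472), (652835028992, 34359738368)] :=
  Pool.Agent.helper14.QF.covD_F chks_eq (.n 2 (.n 3 (.n 3 (.n 1 (.n 3 (.l 4) (.l 4)) (.n 3 (.l 4) (.l 4))) (.n 1 (.l 4) (.n 0 (.l 4) (.l 4)))) (.n 3 (.n 0 (.n 3 (.l 4) (.l 4)) (.n 3 (.l 4) (.l 4))) (.n 3 (.n 0 (.l 4) (.l 4)) (.l 4)))) (.l 6))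
    [(282738032640, 880803840), (47244640256, 47244640256), (687194767360, 137438953472), (652835028992, 34359738368)] rfl (by decide +kernel)
theorem c1_m65_t1 : CovD 0 progs [(284499640320, 880803840), (47244640256, 47244640256), (687194767360, 137438953472), (652835028992, 34359738368)] :=
  Pool.Agent.helper14.QF.covD_F chks_eq (.n 3 (.n 1 (.n 2 (.n 3 (.n 3 (.l 4) (.l 4)) (.l 4)) (.l 6)) (.n 2 (.n 3 (.n 3 (.l 4) (.l 4)) (.l 4)) (.l 6))) (.n 2 (.n 3 (.n 0 (.n 3 (.l 4) (.l 4)) (.n 3 (.l 4) (.l 4))) (.n 3 (.l 4) (.l 4))) (.l 6)))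
    [(284499640320, 880803840), (47244640256, 47244640256), (687194767360, 137438953472), (652835028992, 34359738368)] rfl (by decide +kernel)
end
mutual
theorem c1_m65_t3 : CovD 0 progs [(287142051840, 1761607680), (23622320128, 23622320128), (687194767360, 137438953472), (652835028992, 34359738368)] :=
  Pool.Agent.helper14.QF.covD_F chks_eq (.n 2 (.n 0 (.n 3 (.n 3 (.l 4) (.n 0 (.l 4) (.l 4))) (.n 3 (.n 0 (.l 4) (.l 4)) (.l 4))) (.n 3 (.n 3 (.l 4) (.n 0 (.l 4) (.l 4))) (.n 3 (.n 0 (.l 4) (.l 4)) (.l 4)))) (.l 6))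
    [(287142051840, 1761607680), (23622320128, 23622320128), (687194767360, 137438953472), (652835028992, 34359738368)] rfl (by decide +kernel)
theorem c1_m65_t4 : CovD 0 progs [(287142051840, 1761607680), (70866960384, 23622320128), (687194767360, 137438953472), (652835028992, 34359738368)] :=
  Pool.Agent.helper14.QF.covD_F chks_eq (.n 0 (.n 2 (.n 3 (.n 1 (.n 3 (.l 4) (.l 4)) (.n 3 (.l 4) (.l 4))) (.n 3 (.n 3 (.l 4) (.l 4)) (.l 4))) (.n 2 (.l 6) (.l 6))) (.n 2 (.n 3 (.n 3 (.l 4) (.n 3 (.l 4) (.l 4))) (.n 3 (.n 0 (.l 4) (.l 4)) (.l 4))) (.n 2 (.n 2 (.l 6) (.l 6)) (.l 6))))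
    [(287142051840, 1761607680), (70866960384, 23622320128), (687194767360, 137438953472), (652835028992, 34359738368)] rfl (by decide +kernel)
end
mutual
theorem c1_m65_t7 : CovD 0 progs [(290665267200, 1761607680), (23622320128, 23622320128), (687194767360, 137438953472), (652835028992, 34359738368)] :=
  Pool.Agent.helper14.QF.covD_F chks_eq (.n 0 (.n 2 (.n 3 (.n 3 (.l 4) (.n 0 (.l 4) (.l 4))) (.n 3 (.l 4) (.l 4))) (.l 6)) (.n 2 (.n 3 (.n 0 (.n 3 (.l 4) (.l 4)) (.n 3 (.l 4) (.l 4))) (.n 3 (.l 4) (.l 4))) (.l 6)))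
    [(290665267200, 1761607680), (23622320128, 23622320128), (687194767360, 137438953472), (652835028992, 34359738368)] rfl (by decide +kernel)
theorem c1_m65_t8 : CovD 0 progs [(290665267200, 1761607680), (70866960384, 23622320128), (687194767360, 137438953472), (652835028992, 34359738368)] :=
  Pool.Agent.helper14.QF.covD_F chks_eq (.n 0 (.n 3 (.n 3 (.n 1 (.n 2 (.l 4) (.l 4)) (.n 2 (.l 4) (.l 4))) (.n 2 (.n 0 (.l 4) (.l 4)) (.n 3 (.l 4) (.l 4)))) (.n 3 (.n 3 (.l 4) (.l 4)) (.l 4))) (.n 3 (.n 3 (.n 2 (.n 0 (.l 4) (.l 4)) (.n 3 (.l 4) (.l 4))) (.n 3 (.n 1 (.l 4) (.l 4)) (.l 4))) (.n 3 (.n 0 (.l 4) (.l 4)) (.l 4))))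
    [(290665267200, 1761607680), (70866960384, 23622320128), (687194767360, 137438953472), (652835028992, 34359738368)] rfl (by decide +kernel)
end
mutual
theorem c1_m65_t10 : CovD 0 progs [(294188482560, 1761607680), (47244640256, 47244640256), (687194767360, 137438953472), (652835028992, 34359738368)] :=
  Pool.Agent.helper14.QF.covD_F chks_eq (.n 0 (.n 3 (.n 3 (.n 2 (.n 3 (.n 0 (.l 4) (.l 4)) (.l 4)) (.n 1 (.l 6) (.n 3 (.l 4) (.l 4)))) (.n 1 (.n 0 (.l 4) (.l 4)) (.n 3 (.l 4) (.l 4)))) (.n 3 (.n 1 (.l 4) (.l 4)) (.l 4))) (.n 3 (.n 2 (.n 3 (.n 3 (.l 4) (.l 4)) (.l 4)) (.n 1 (.l 6) (.n 2 (.n 3 (.l 4) (.l 4)) (.l 6)))) (.n 3 (.n 0 (.l 4) (.l 4)) (.l 4))))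
    [(294188482560, 1761607680), (47244640256, 47244640256), (687194767360, 137438953472), (652835028992, 34359738368)] rfl (by decide +kernel)
theorem c1_m65_t13 : CovD 0 progs [(299473305600, 3523215360), (47244640256, 47244640256), (687194767360, 137438953472), (652835028992, 34359738368)] :=
  Pool.Agent.helper14.QF.covD_F chks_eq (.n 0 (.n 3 (.n 3 (.n 1 (.n 0 (.n 0 (.l 4) (.l 4)) (.l 4)) (.n 2 (.n 0 (.l 4) (.l 4)) (.n 3 (.l 4) (.l 4)))) (.n 0 (.n 1 (.l 4) (.l 4)) (.n 0 (.l 4) (.l 4)))) (.n 3 (.n 0 (.l 4) (.l 4)) (.l 4))) (.n 3 (.n 0 (.n 3 (.n 1 (.l 4) (.l 4)) (.l 4)) (.n 3 (.n 1 (.l 4) (.l 4)) (.l 4))) (.n 3 (.l 4) (.l 4))))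
    [(299473305600, 3523215360), (47244640256, 47244640256), (687194767360, 137438953472), (652835028992, 34359738368)] rfl (by decide +kernel)
end
mutual
theorem c1_m65_t14 : CovD 0 progs [(306519736320, 3523215360), (47244640256, 47244640256), (687194767360, 137438953472), (652835028992, 34359738368)] :=
  Pool.Agent.helper14.QF.covD_F chks_eq (.n 0 (.n 3 (.n 3 (.n 0 (.l 4) (.l 4)) (.l 4)) (.n 0 (.l 4) (.l 4))) (.n 3 (.n 3 (.l 4) (.l 4)) (.l 4)))
    [(306519736320, 3523215360), (47244640256, 47244640256), (687194767360, 137438953472), (652835028992, 34359738368)] rfl (by decide +kernel)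
theorem c1_m65_t17 : CovD 0 progs [(283618836480, 1761607680), (106300440576, 11811160064), (618475290624, 68719476736), (652835028992, 34359738368)] :=
  Pool.Agent.helper14.QF.covD_F chks_eq (.n 3 (.n 0 (.n 3 (.n 3 (.l 4) (.l 4)) (.l 4)) (.n 3 (.n 0 (.l 4) (.l 4)) (.l 4))) (.n 3 (.n 0 (.n 0 (.l 4) (.l 4)) (.n 0 (.l 4) (.l 4))) (.n 3 (.n 0 (.l 4) (.l 4)) (.l 4))))
    [(283618836480, 1761607680), (106300440576, 11811160064), (618475290624, 68719476736), (652835028992, 34359738368)] rfl (by decide +kernel)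
end
mutual
theorem c1_m65_t18 : CovD 0 progs [(283618836480, 1761607680), (129922760704, 11811160064), (618475290624, 68719476736), (652835028992, 34359738368)] :=
  Pool.Agent.helper14.QF.covD_F chks_eq (.n 3 (.n 0 (.n 3 (.n 3 (.l 4) (.l 4)) (.l 4)) (.n 3 (.n 2 (.l 4) (.l 4)) (.l 4))) (.n 3 (.n 0 (.n 0 (.l 4) (.l 4)) (.n 0 (.l 4) (.l 4))) (.n 3 (.n 0 (.l 4) (.l 4)) (.l 4))))
    [(283618836480, 1761607680), (129922760704, 11811160064), (618475290624, 68719476736), (652835028992, 34359738368)] rfl (by decide +kernel)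
theorem c1_m65_t20 : CovD 0 progs [(283618836480, 1761607680), (118111600640, 23622320128), (755914244096, 68719476736), (652835028992, 34359738368)] :=
  Pool.Agent.helper14.QF.covD_F chks_eq (.n 2 (.n 3 (.n 3 (.n 0 (.n 3 (.l 4) (.l 4)) (.n 1 (.l 4) (.l 4))) (.l 4)) (.n 0 (.n 1 (.l 6) (.n 3 (.l 4) (.l 4))) (.n 1 (.l 6) (.n 3 (.l 4) (.l 4))))) (.l 6))
    [(283618836480, 1761607680), (118111600640, 23622320128), (755914244096, 68719476736), (652835028992, 34359738368)] rfl (by decide +kernel)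
end
mutual
theorem c1_m65_t22 : CovD 0 progs [(282738032640, 880803840), (165356240896, 23622320128), (618475290624, 68719476736), (652835028992, 34359738368)] :=
  Pool.Agent.helper14.QF.covD_F chks_eq (.n 1 (.n 3 (.n 3 (.n 3 (.l 4) (.l 4)) (.l 4)) (.n 0 (.n 3 (.l 4) (.l 4)) (.n 3 (.l 4) (.l 4)))) (.n 3 (.n 3 (.n 3 (.l 4) (.l 4)) (.l 4)) (.n 2 (.n 3 (.l 4) (.l 4)) (.n 3 (.l 4) (.l 4)))))
    [(282738032640, 880803840), (165356240896, 23622320128), (618475290624, 68719476736), (652835028992, 34359738368)] rfl (by decide +kernel)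
theorem c1_m65_t23 : CovD 0 progs [(284499640320, 880803840), (165356240896, 23622320128), (618475290624, 68719476736), (652835028992, 34359738368)] :=
  Pool.Agent.helper14.QF.covD_F chks_eq (.n 2 (.n 3 (.n 3 (.n 0 (.l 4) (.l 4)) (.l 4)) (.n 3 (.n 0 (.l 4) (.l 4)) (.l 4))) (.n 3 (.n 3 (.n 0 (.l 4) (.l 4)) (.l 4)) (.n 3 (.n 0 (.l 4) (.l 4)) (.l 4))))
    [(284499640320, 880803840), (165356240896, 23622320128), (618475290624, 68719476736), (652835028992, 34359738368)] rfl (by decide +kernel)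
end
mutual
theorem c1_m65_t25 : CovD 0 progs [(283618836480, 1761607680), (165356240896, 23622320128), (755914244096, 68719476736), (652835028992, 34359738368)] :=
  Pool.Agent.helper14.QF.covD_F chks_eq (.n 3 (.n 2 (.n 3 (.n 0 (.n 0 (.l 4) (.l 4)) (.n 0 (.l 4) (.l 4))) (.l 4)) (.n 1 (.l 6) (.n 2 (.n 3 (.l 4) (.l 4)) (.l 6)))) (.n 3 (.n 2 (.n 3 (.l 4) (.n 0 (.l 4) (.l 4))) (.n 1 (.l 6) (.n 0 (.l 4) (.l 4)))) (.n 2 (.n 3 (.l 4) (.l 4)) (.n 3 (.l 4) (.l 4)))))
    [(283618836480, 1761607680), (165356240896, 23622320128), (755914244096, 68719476736), (652835028992, 34359738368)] rfl (by decide +kernel)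
theorem c1_m65_t28 : CovD 0 progs [(286261248000, 880803840), (118111600640, 23622320128), (687194767360, 137438953472), (652835028992, 34359738368)] :=
  Pool.Agent.helper14.QF.covD_F chks_eq (.n 2 (.n 3 (.n 3 (.n 1 (.l 4) (.l 4)) (.n 3 (.l 4) (.l 4))) (.n 3 (.n 3 (.l 4) (.l 4)) (.l 4))) (.n 2 (.n 3 (.n 3 (.l 4) (.n 0 (.l 4) (.l 4))) (.n 3 (.n 0 (.l 4) (.l 4)) (.l 4))) (.l 6)))
    [(286261248000, 880803840), (118111600640, 23622320128), (687194767360, 137438953472), (652835028992, 34359738368)] rfl (by decide +kernel)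
end
mutual
theorem c1_m65_t29 : CovD 0 progs [(286261248000, 880803840), (165356240896, 23622320128), (687194767360, 137438953472), (652835028992, 34359738368)] :=
  Pool.Agent.helper14.QF.covD_F chks_eq (.n 2 (.n 2 (.n 3 (.n 3 (.l 4) (.l 4)) (.n 3 (.n 0 (.l 4) (.l 4)) (.l 4))) (.n 3 (.n 3 (.l 4) (.l 4)) (.n 3 (.n 0 (.l 4) (.l 4)) (.l 4)))) (.n 3 (.n 2 (.n 3 (.l 4) (.l 4)) (.n 3 (.l 4) (.l 4))) (.n 3 (.n 3 (.n 0 (.l 4) (.l 4)) (.l 4)) (.n 1 (.l 4) (.l 4)))))
    [(286261248000, 880803840), (165356240896, 23622320128), (687194767360, 137438953472), (652835028992, 34359738368)] rfl (by decide +kernel)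
theorem c1_m65_t31 : CovD 0 progs [(288022855680, 880803840), (118111600640, 23622320128), (687194767360, 137438953472), (652835028992, 34359738368)] :=
  Pool.Agent.helper14.QF.covD_F chks_eq (.n 2 (.n 3 (.n 3 (.l 4) (.n 3 (.l 4) (.l 4))) (.n 3 (.n 0 (.l 4) (.l 4)) (.l 4))) (.n 2 (.n 3 (.n 3 (.l 4) (.n 0 (.l 4) (.l 4))) (.n 3 (.n 0 (.l 4) (.l 4)) (.l 4))) (.l 6)))
    [(288022855680, 880803840), (118111600640, 23622320128), (687194767360, 137438953472), (652835028992, 34359738368)] rfl (by decide +kernel)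
end
mutual
theorem c1_m65_t32 : CovD 0 progs [(288022855680, 880803840), (165356240896, 23622320128), (687194767360, 137438953472), (652835028992, 34359738368)] :=
  Pool.Agent.helper14.QF.covD_F chks_eq (.n 2 (.n 3 (.n 3 (.n 1 (.l 4) (.l 4)) (.n 3 (.n 0 (.l 4) (.l 4)) (.l 4))) (.n 3 (.n 2 (.l 4) (.l 4)) (.l 4))) (.n 3 (.n 1 (.n 3 (.l 4) (.n 0 (.l 4) (.l 4))) (.n 3 (.l 4) (.n 0 (.l 4) (.l 4)))) (.n 3 (.n 2 (.l 4) (.l 4)) (.l 4))))
    [(288022855680, 880803840), (165356240896, 23622320128), (687194767360, 137438953472), (652835028992, 34359738368)] rfl (by decide +kernel)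
theorem c1_m65_t36 : CovD 0 progs [(289784463360, 880803840), (141733920768, 47244640256), (687194767360, 137438953472), (635655159808, 17179869184)] :=
  Pool.Agent.helper14.QF.covD_F chks_eq (.n 3 (.n 1 (.n 2 (.n 1 (.l 4) (.l 4)) (.n 2 (.l 4) (.l 6))) (.n 2 (.n 2 (.l 4) (.l 4)) (.n 2 (.l 4) (.l 4)))) (.n 1 (.n 2 (.n 3 (.l 4) (.l 4)) (.n 2 (.n 0 (.l 4) (.l 4)) (.l 6))) (.n 2 (.n 3 (.l 4) (.l 4)) (.n 3 (.n 1 (.l 4) (.l 4)) (.l 4)))))
    [(289784463360, 880803840), (141733920768, 47244640256), (687194767360, 137438953472), (635655159808, 17179869184)] rfl (by decide +kernel)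
end
mutual
theorem c1_m65_t37 : CovD 0 progs [(289784463360, 880803840), (141733920768, 47244640256), (687194767360, 137438953472), (670014898176, 17179869184)] :=
  Pool.Agent.helper14.QF.covD_F chks_eq (.n 2 (.n 3 (.n 3 (.n 0 (.l 4) (.l 4)) (.l 4)) (.l 4)) (.n 1 (.n 2 (.n 3 (.l 4) (.l 4)) (.l 6)) (.n 3 (.n 1 (.l 4) (.l 4)) (.l 4))))
    [(289784463360, 880803840), (141733920768, 47244640256), (687194767360, 137438953472), (670014898176, 17179869184)] rfl (by decide +kernel)
theorem c1_m65_t39 : CovD 0 progs [(291546071040, 880803840), (141733920768, 47244640256), (687194767360, 137438953472), (635655159808, 17179869184)] :=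
  Pool.Agent.helper14.QF.covD_F chks_eq (.n 3 (.n 1 (.n 2 (.n 3 (.l 4) (.l 4)) (.n 0 (.n 1 (.l 4) (.l 4)) (.n 1 (.l 4) (.l 4)))) (.n 2 (.n 3 (.l 4) (.l 4)) (.n 0 (.n 1 (.l 4) (.l 4)) (.n 1 (.l 4) (.l 4))))) (.n 1 (.n 2 (.n 0 (.l 4) (.l 4)) (.n 3 (.l 4) (.l 4))) (.n 2 (.n 2 (.l 4) (.l 4)) (.n 2 (.l 4) (.l 4)))))
    [(291546071040, 880803840), (141733920768, 47244640256), (687194767360, 137438953472), (635655159808, 17179869184)] rfl (by decide +kernel)
end
mutual
theorem c1_m65_t40 : CovD 0 progs [(291546071040, 880803840), (141733920768, 47244640256), (687194767360, 137438953472), (670014898176, 17179869184)] :=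
  Pool.Agent.helper14.QF.covD_F chks_eq (.n 2 (.n 3 (.n 1 (.l 4) (.l 4)) (.l 4)) (.n 3 (.n 1 (.l 4) (.n 0 (.l 4) (.l 4))) (.l 4)))
    [(291546071040, 880803840), (141733920768, 47244640256), (687194767360, 137438953472), (670014898176, 17179869184)] rfl (by decide +kernel)
theorem c1_m65_t43 : CovD 0 progs [(293307678720, 880803840), (141733920768, 47244640256), (687194767360, 137438953472), (652835028992, 34359738368)] :=
  Pool.Agent.helper14.QF.covD_F chks_eq (.n 3 (.n 3 (.n 1 (.n 2 (.n 3 (.l 4) (.l 4)) (.n 3 (.n 0 (.l 4) (.l 4)) (.l 4))) (.n 2 (.n 3 (.l 4) (.l 4)) (.n 2 (.n 0 (.l 4) (.l 4)) (.l 4)))) (.n 2 (.n 3 (.n 0 (.l 4) (.l 4)) (.l 4)) (.n 1 (.n 0 (.l 4) (.l 4)) (.n 1 (.l 4) (.l 4))))) (.n 2 (.n 3 (.l 4) (.l 4)) (.n 3 (.n 1 (.l 4) (.l 4)) (.l 4))))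
    [(293307678720, 880803840), (141733920768, 47244640256), (687194767360, 137438953472), (652835028992, 34359738368)] rfl (by decide +kernel)
end
mutual
theorem c1_m65_t44 : CovD 0 progs [(295069286400, 880803840), (141733920768, 47244640256), (687194767360, 137438953472), (652835028992, 34359738368)] :=
  Pool.Agent.helper14.QF.covD_F chks_eq (.n 3 (.n 1 (.n 2 (.n 3 (.n 0 (.l 4) (.l 4)) (.l 4)) (.n 3 (.n 3 (.l 4) (.l 4)) (.l 4))) (.n 2 (.n 3 (.n 2 (.l 4) (.l 4)) (.l 4)) (.n 2 (.n 3 (.l 4) (.l 4)) (.n 3 (.l 4) (.l 4))))) (.n 1 (.n 3 (.l 4) (.l 4)) (.n 3 (.n 1 (.l 4) (.l 4)) (.l 4))))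
    [(295069286400, 880803840), (141733920768, 47244640256), (687194767360, 137438953472), (652835028992, 34359738368)] rfl (by decide +kernel)
theorem c1_m65_t48 : CovD 0 progs [(297711697920, 1761607680), (141733920768, 47244640256), (687194767360, 137438953472), (652835028992, 34359738368)] :=
  Pool.Agent.helper14.QF.covD_F chks_eq (.n 3 (.n 3 (.n 1 (.n 0 (.n 2 (.l 4) (.n 0 (.l 4) (.l 4))) (.n 2 (.l 4) (.l 4))) (.n 2 (.n 0 (.n 0 (.l 4) (.l 4)) (.l 4)) (.n 3 (.n 0 (.l 4) (.l 4)) (.l 4)))) (.n 2 (.n 3 (.l 4) (.l 4)) (.n 3 (.n 0 (.l 4) (.l 4)) (.l 4)))) (.n 1 (.n 3 (.l 4) (.l 4)) (.n 3 (.n 0 (.l 4) (.l 4)) (.l 4))))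
    [(297711697920, 1761607680), (141733920768, 47244640256), (687194767360, 137438953472), (652835028992, 34359738368)] rfl (by decide +kernel)
end
mutual
theorem c1_m65_t49 : CovD 0 progs [(301234913280, 1761607680), (141733920768, 47244640256), (687194767360, 137438953472), (652835028992, 34359738368)] :=
  Pool.Agent.helper14.QF.covD_F chks_eq (.n 3 (.n 2 (.n 3 (.n 3 (.l 4) (.l 4)) (.l 4)) (.n 0 (.n 3 (.n 1 (.l 4) (.l 4)) (.l 4)) (.n 3 (.n 0 (.l 4) (.l 4)) (.l 4)))) (.n 3 (.n 0 (.l 4) (.l 4)) (.l 4)))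
    [(301234913280, 1761607680), (141733920768, 47244640256), (687194767360, 137438953472), (652835028992, 34359738368)] rfl (by decide +kernel)
theorem c1_m65_t51 : CovD 0 progs [(306519736320, 3523215360), (141733920768, 47244640256), (687194767360, 137438953472), (652835028992, 34359738368)] :=
  Pool.Agent.helper14.QF.covD_F chks_eq (.n 0 (.n 2 (.n 3 (.n 3 (.l 4) (.l 4)) (.l 4)) (.n 3 (.n 3 (.n 0 (.l 4) (.l 4)) (.l 4)) (.l 4))) (.n 3 (.n 3 (.n 0 (.l 4) (.l 4)) (.l 4)) (.l 4)))
    [(306519736320, 3523215360), (141733920768, 47244640256), (687194767360, 137438953472), (652835028992, 34359738368)] rfl (by decide +kernel)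
end
mutual
theorem c1_m65_t55 : CovD 0 progs [(288903659520, 7046430720), (94489280512, 94489280512), (962072674304, 137438953472), (652835028992, 34359738368)] :=
  Pool.Agent.helper14.QF.covD_F chks_eq (.n 1 (.l 6) (.n 2 (.n 1 (.l 6) (.n 1 (.l 6) (.n 0 (.l 6) (.n 2 (.n 0 (.n 3 (.n 3 (.l 4) (.l 4)) (.l 6)) (.n 3 (.n 3 (.l 4) (.l 4)) (.n 3 (.l 4) (.l 4)))) (.l 6))))) (.l 6)))
    [(288903659520, 7046430720), (94489280512, 94489280512), (962072674304, 137438953472), (652835028992, 34359738368)] rfl (by decide +kernel)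
theorem c1_m65_t56 : CovD 0 progs [(299473305600, 3523215360), (94489280512, 94489280512), (962072674304, 137438953472), (652835028992, 34359738368)] :=
  Pool.Agent.helper14.QF.covD_F chks_eq (.n 1 (.n 0 (.l 6) (.l 6)) (.n 2 (.n 1 (.n 1 (.l 6) (.l 6)) (.n 0 (.n 2 (.n 3 (.n 3 (.n 0 (.l 4) (.l 4)) (.l 4)) (.n 3 (.l 4) (.l 4))) (.l 6)) (.n 3 (.n 3 (.n 0 (.l 4) (.l 4)) (.l 4)) (.n 0 (.l 4) (.l 4))))) (.l 6)))
    [(299473305600, 3523215360), (94489280512, 94489280512), (962072674304, 137438953472), (652835028992, 34359738368)] rfl (by decide +kernel)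
theorem c1_m65_t57 : CovD 0 progs [(306519736320, 3523215360), (94489280512, 94489280512), (962072674304, 137438953472), (652835028992, 34359738368)] :=
  Pool.Agent.helper14.QF.covD_F chks_eq (.n 1 (.n 2 (.l 6) (.l 6)) (.n 2 (.n 0 (.n 3 (.n 3 (.n 1 (.l 4) (.l 4)) (.l 4)) (.n 0 (.l 4) (.l 4))) (.n 3 (.n 3 (.n 0 (.l 4) (.l 4)) (.l 4)) (.l 4))) (.n 1 (.l 6) (.l 6))))
    [(306519736320, 3523215360), (94489280512, 94489280512), (962072674304, 137438953472), (652835028992, 34359738368)] rfl (by decide +kernel)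
end
theorem c1_m65_t2 : CovD 0 progs [(283618836480, 1761607680), (47244640256, 47244640256), (687194767360, 137438953472), (652835028992, 34359738368)] :=
  covD_split 0 (by decide +kernel) c1_m65_t0 c1_m65_t1
theorem c1_m65_t5 : CovD 0 progs [(287142051840, 1761607680), (47244640256, 47244640256), (687194767360, 137438953472), (652835028992, 34359738368)] :=
  covD_split 1 (by decide +kernel) c1_m65_t3 c1_m65_t4
theorem c1_m65_t6 : CovD 0 progs [(285380444160, 3523215360), (47244640256, 47244640256), (687194767360, 137438953472), (652835028992, 34359738368)] :=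
  covD_split 0 (by decide +kernel) c1_m65_t2 c1_m65_t5
theorem c1_m65_t9 : CovD 0 progs [(290665267200, 1761607680), (47244640256, 47244640256), (687194767360, 137438953472), (652835028992, 34359738368)] :=
  covD_split 1 (by decide +kernel) c1_m65_t7 c1_m65_t8
theorem c1_m65_t11 : CovD 0 progs [(292426874880, 3523215360), (47244640256, 47244640256), (687194767360, 137438953472), (652835028992, 34359738368)] :=
  covD_split 0 (by decide +kernel) c1_m65_t9 c1_m65_t10
theorem c1_m65_t12 : CovD 0 progs [(288903659520, 7046430720), (47244640256, 47244640256), (687194767360, 137438953472), (652835028992, 34359738368)] :=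
  covD_split 0 (by decide +kernel) c1_m65_t6 c1_m65_t11
theorem c1_m65_t15 : CovD 0 progs [(302996520960, 7046430720), (47244640256, 47244640256), (687194767360, 137438953472), (652835028992, 34359738368)] :=
  covD_split 0 (by decide +kernel) c1_m65_t13 c1_m65_t14
theorem c1_m65_t16 : CovD 0 progs [(295950090240, 14092861440), (47244640256, 47244640256), (687194767360, 137438953472), (652835028992, 34359738368)] :=
  covD_split 0 (by decide +kernel) c1_m65_t12 c1_m65_t15
theorem c1_m65_t19 : CovD 0 progs [(283618836480, 1761607680), (118111600640, 23622320128), (618475290624, 68719476736), (652835028992, 34359738368)] :=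
  covD_split 1 (by decide +kernel) c1_m65_t17 c1_m65_t18
theorem c1_m65_t21 : CovD 0 progs [(283618836480, 1761607680), (118111600640, 23622320128), (687194767360, 137438953472), (652835028992, 34359738368)] :=
  covD_split 2 (by decide +kernel) c1_m65_t19 c1_m65_t20
theorem c1_m65_t24 : CovD 0 progs [(283618836480, 1761607680), (165356240896, 23622320128), (618475290624, 68719476736), (652835028992, 34359738368)] :=
  covD_split 0 (by decide +kernel) c1_m65_t22 c1_m65_t23
theorem c1_m65_t26 : CovD 0 progs [(283618836480, 1761607680), (165356240896, 23622320128), (687194767360, 137438953472), (652835028992, 34359738368)] :=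
  covD_split 2 (by decide +kernel) c1_m65_t24 c1_m65_t25
theorem c1_m65_t27 : CovD 0 progs [(283618836480, 1761607680), (141733920768, 47244640256), (687194767360, 137438953472), (652835028992, 34359738368)] :=
  covD_split 1 (by decide +kernel) c1_m65_t21 c1_m65_t26
theorem c1_m65_t30 : CovD 0 progs [(286261248000, 880803840), (141733920768, 47244640256), (687194767360, 137438953472), (652835028992, 34359738368)] :=
  covD_split 1 (by decide +kernel) c1_m65_t28 c1_m65_t29
theorem c1_m65_t33 : CovD 0 progs [(288022855680, 880803840), (141733920768, 47244640256), (687194767360, 137438953472), (652835028992, 34359738368)] :=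
  covD_split 1 (by decide +kernel) c1_m65_t31 c1_m65_t32
theorem c1_m65_t34 : CovD 0 progs [(287142051840, 1761607680), (141733920768, 47244640256), (687194767360, 137438953472), (652835028992, 34359738368)] :=
  covD_split 0 (by decide +kernel) c1_m65_t30 c1_m65_t33
theorem c1_m65_t35 : CovD 0 progs [(285380444160, 3523215360), (141733920768, 47244640256), (687194767360, 137438953472), (652835028992, 34359738368)] :=
  covD_split 0 (by decide +kernel) c1_m65_t27 c1_m65_t34
theorem c1_m65_t38 : CovD 0 progs [(289784463360, 880803840), (141733920768, 47244640256), (687194767360, 137438953472), (652835028992, 34359738368)] :=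
  covD_split 3 (by decide +kernel) c1_m65_t36 c1_m65_t37
theorem c1_m65_t41 : CovD 0 progs [(291546071040, 880803840), (141733920768, 47244640256), (687194767360, 137438953472), (652835028992, 34359738368)] :=
  covD_split 3 (by decide +kernel) c1_m65_t39 c1_m65_t40
theorem c1_m65_t42 : CovD 0 progs [(290665267200, 1761607680), (141733920768, 47244640256), (687194767360, 137438953472), (652835028992, 34359738368)] :=
  covD_split 0 (by decide +kernel) c1_m65_t38 c1_m65_t41
theorem c1_m65_t45 : CovD 0 progs [(294188482560, 1761607680), (141733920768, 47244640256), (687194767360, 137438953472), (652835028992, 34359738368)] :=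
  covD_split 0 (by decide +kernel) c1_m65_t43 c1_m65_t44
theorem c1_m65_t46 : CovD 0 progs [(292426874880, 3523215360), (141733920768, 47244640256), (687194767360, 137438953472), (652835028992, 34359738368)] :=
  covD_split 0 (by decide +kernel) c1_m65_t42 c1_m65_t45
theorem c1_m65_t47 : CovD 0 progs [(288903659520, 7046430720), (141733920768, 47244640256), (687194767360, 137438953472), (652835028992, 34359738368)] :=
  covD_split 0 (by decide +kernel) c1_m65_t35 c1_m65_t46
theorem c1_m65_t50 : CovD 0 progs [(299473305600, 3523215360), (141733920768, 47244640256), (687194767360, 137438953472), (652835028992, 34359738368)] :=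
  covD_split 0 (by decide +kernel) c1_m65_t48 c1_m65_t49
theorem c1_m65_t52 : CovD 0 progs [(302996520960, 7046430720), (141733920768, 47244640256), (687194767360, 137438953472), (652835028992, 34359738368)] :=
  covD_split 0 (by decide +kernel) c1_m65_t50 c1_m65_t51
theorem c1_m65_t53 : CovD 0 progs [(295950090240, 14092861440), (141733920768, 47244640256), (687194767360, 137438953472), (652835028992, 34359738368)] :=
  covD_split 0 (by decide +kernel) c1_m65_t47 c1_m65_t52
theorem c1_m65_t54 : CovD 0 progs [(295950090240, 14092861440), (94489280512, 94489280512), (687194767360, 137438953472), (652835028992, 34359738368)] :=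
  covD_split 1 (by decide +kernel) c1_m65_t16 c1_m65_t53
theorem c1_m65_t58 : CovD 0 progs [(302996520960, 7046430720), (94489280512, 94489280512), (962072674304, 137438953472), (652835028992, 34359738368)] :=
  covD_split 0 (by decide +kernel) c1_m65_t56 c1_m65_t57
theorem c1_m65_t59 : CovD 0 progs [(295950090240, 14092861440), (94489280512, 94489280512), (962072674304, 137438953472), (652835028992, 34359738368)] :=
  covD_split 0 (by decide +kernel) c1_m65_t55 c1_m65_t58
theorem c1_m65 : CovD 0 progs [(295950090240, 14092861440), (94489280512, 94489280512), (824633720832, 274877906944), (652835028992, 34359738368)] :=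
  covD_split 2 (by decide +kernel) c1_m65_t54 c1_m65_t59

end Pool.Agent.helper71.FJ.Crt.QMa
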