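import Pool.Agent.helper71.FJ.Crt.QMaP

/-!
Generated certificates.
-/

namespace Pool.Agent.helper71.FJ.Crt.QMa

open Pool.Agent.helper31.IA (Z Op)
open Pool.Agent.helper31.IC

mutual
theorem c1_m66_t0 : CovD 0 progs [(311804559360, 1761607680), (47244640256, 47244640256), (824633720832, 274877906944), (618475290624, 68719476736)] :=
  Pool.Agent.helper14.QF.covD_F chks_eq (.n 2 (.n 3 (.n 3 (.n 2 (.n 3 (.n 0 (.l 4) (.l 4)) (.l 4)) (.n 0 (.n 3 (.n 1 (.l 4) (.l 4)) (.l 4)) (.n 3 (.n 0 (.l 4) (.l 4)) (.l 4)))) (.n 3 (.n 0 (.l 4) (.l 4)) (.l 4))) (.n 3 (.n 0 (.l 4) (.l 4)) (.l 4))) (.n 1 (.l 6) (.n 2 (.n 2 (.l 6) (.l 6)) (.l 6))))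
    [(311804559360, 1761607680), (47244640256, 47244640256), (824633720832, 274877906944), (618475290624, 68719476736)] rfl (by decide +kernel)
theorem c1_m66_t1 : CovD 0 progs [(315327774720, 1761607680), (47244640256, 47244640256), (824633720832, 274877906944), (618475290624, 68719476736)] :=
  Pool.Agent.helper14.QF.covD_F chks_eq (.n 3 (.n 3 (.n 1 (.n 2 (.n 3 (.l 4) (.l 4)) (.l 6)) (.n 2 (.n 3 (.n 0 (.l 4) (.l 4)) (.l 4)) (.n 2 (.n 3 (.l 4) (.l 4)) (.l 6)))) (.n 1 (.n 3 (.l 4) (.l 4)) (.n 3 (.n 1 (.l 4) (.l 4)) (.l 4)))) (.n 1 (.n 3 (.l 4) (.l 4)) (.n 3 (.n 0 (.l 4) (.l 4)) (.l 4))))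
    [(315327774720, 1761607680), (47244640256, 47244640256), (824633720832, 274877906944), (618475290624, 68719476736)] rfl (by decide +kernel)
end
mutual
theorem c1_m66_t3 : CovD 0 progs [(320612597760, 3523215360), (47244640256, 47244640256), (824633720832, 274877906944), (618475290624, 68719476736)] :=
  Pool.Agent.helper14.QF.covD_F chks_eq (.n 0 (.n 3 (.n 3 (.n 2 (.n 3 (.n 0 (.l 4) (.l 4)) (.l 4)) (.n 2 (.n 3 (.l 4) (.l 4)) (.l 6))) (.n 1 (.n 0 (.l 4) (.l 4)) (.n 2 (.l 4) (.l 4)))) (.n 3 (.n 1 (.l 4) (.l 4)) (.l 4))) (.n 3 (.n 2 (.n 3 (.n 0 (.l 4) (.l 4)) (.l 4)) (.n 2 (.n 1 (.l 6) (.n 3 (.l 4) (.l 4))) (.l 6))) (.n 3 (.n 0 (.l 4) (.l 4)) (.l 8))))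
    [(320612597760, 3523215360), (47244640256, 47244640256), (824633720832, 274877906944), (618475290624, 68719476736)] rfl (by decide +kernel)
theorem c1_m66_t5 : CovD 0 progs [(331182243840, 7046430720), (47244640256, 47244640256), (824633720832, 274877906944), (618475290624, 68719476736)] :=
  Pool.Agent.helper14.QF.covD_F chks_eq (.n 0 (.n 3 (.n 2 (.n 3 (.n 0 (.l 4) (.l 4)) (.l 4)) (.n 2 (.n 3 (.n 0 (.l 4) (.l 4)) (.l 4)) (.l 6))) (.n 3 (.n 0 (.l 8) (.l 8)) (.l 8))) (.n 3 (.n 0 (.n 3 (.n 1 (.l 4) (.l 4)) (.l 8)) (.n 3 (.l 8) (.l 8))) (.n 3 (.l 8) (.l 8))))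
    [(331182243840, 7046430720), (47244640256, 47244640256), (824633720832, 274877906944), (618475290624, 68719476736)] rfl (by decide +kernel)
end
mutual
theorem c1_m66_t7 : CovD 0 progs [(313566167040, 3523215360), (141733920768, 47244640256), (618475290624, 68719476736), (618475290624, 68719476736)] :=
  Pool.Agent.helper14.QF.covD_F chks_eq (.n 0 (.n 3 (.n 3 (.n 0 (.n 3 (.n 1 (.l 4) (.l 4)) (.l 4)) (.n 3 (.n 0 (.l 4) (.l 4)) (.l 4))) (.n 3 (.l 4) (.l 4))) (.n 3 (.l 4) (.l 4))) (.n 3 (.n 3 (.n 3 (.n 0 (.l 4) (.l 4)) (.l 4)) (.n 0 (.l 4) (.l 4))) (.n 3 (.l 4) (.l 4))))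
    [(313566167040, 3523215360), (141733920768, 47244640256), (618475290624, 68719476736), (618475290624, 68719476736)] rfl (by decide +kernel)
theorem c1_m66_t8 : CovD 0 progs [(320612597760, 3523215360), (141733920768, 47244640256), (618475290624, 68719476736), (618475290624, 68719476736)] :=
  Pool.Agent.helper14.QF.covD_F chks_eq (.n 0 (.n 3 (.n 3 (.n 3 (.l 4) (.l 4)) (.l 4)) (.n 3 (.l 4) (.l 4))) (.n 3 (.n 3 (.l 4) (.l 4)) (.n 3 (.l 4) (.l 4))))
    [(320612597760, 3523215360), (141733920768, 47244640256), (618475290624, 68719476736), (618475290624, 68719476736)] rfl (by decide +kernel)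
end
mutual
theorem c1_m66_t10 : CovD 0 progs [(331182243840, 7046430720), (141733920768, 47244640256), (618475290624, 68719476736), (618475290624, 68719476736)] :=
  Pool.Agent.helper14.QF.covD_F chks_eq (.n 3 (.n 0 (.n 3 (.n 0 (.l 4) (.l 4)) (.l 4)) (.n 3 (.l 4) (.l 4))) (.n 3 (.l 4) (.l 4)))
    [(331182243840, 7046430720), (141733920768, 47244640256), (618475290624, 68719476736), (618475290624, 68719476736)] rfl (by decide +kernel)
theorem c1_m66_t12 : CovD 0 progs [(313566167040, 3523215360), (141733920768, 47244640256), (755914244096, 68719476736), (618475290624, 68719476736)] :=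
  Pool.Agent.helper14.QF.covD_F chks_eq (.n 0 (.n 3 (.n 3 (.n 3 (.n 1 (.n 0 (.l 4) (.l 4)) (.n 2 (.l 4) (.l 4))) (.n 1 (.l 4) (.n 0 (.l 4) (.l 4)))) (.n 3 (.n 0 (.l 4) (.l 4)) (.l 4))) (.n 3 (.l 4) (.l 4))) (.n 3 (.n 3 (.n 0 (.n 3 (.n 1 (.l 4) (.l 4)) (.l 4)) (.n 3 (.l 4) (.l 4))) (.n 3 (.l 4) (.l 4))) (.n 3 (.l 4) (.l 4))))
    [(313566167040, 3523215360), (141733920768, 47244640256), (755914244096, 68719476736), (618475290624, 68719476736)] rfl (by decide +kernel)
end
mutual
theorem c1_m66_t13 : CovD 0 progs [(320612597760, 3523215360), (141733920768, 47244640256), (755914244096, 68719476736), (618475290624, 68719476736)] :=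
  Pool.Agent.helper14.QF.covD_F chks_eq (.n 0 (.n 3 (.n 3 (.n 3 (.n 0 (.l 4) (.l 4)) (.l 4)) (.l 4)) (.n 3 (.l 4) (.l 4))) (.n 3 (.n 3 (.n 0 (.l 4) (.l 4)) (.l 4)) (.n 3 (.l 4) (.l 4))))
    [(320612597760, 3523215360), (141733920768, 47244640256), (755914244096, 68719476736), (618475290624, 68719476736)] rfl (by decide +kernel)
theorem c1_m66_t15 : CovD 0 progs [(331182243840, 7046430720), (141733920768, 47244640256), (755914244096, 68719476736), (618475290624, 68719476736)] :=
  Pool.Agent.helper14.QF.covD_F chks_eq (.n 3 (.n 0 (.n 3 (.n 0 (.l 4) (.l 4)) (.l 4)) (.n 3 (.l 4) (.l 4))) (.n 3 (.l 4) (.l 4)))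
    [(331182243840, 7046430720), (141733920768, 47244640256), (755914244096, 68719476736), (618475290624, 68719476736)] rfl (by decide +kernel)
end
mutual
theorem c1_m66_t18 : CovD 0 progs [(324135813120, 14092861440), (118111600640, 23622320128), (962072674304, 137438953472), (566935683072, 17179869184)] :=
  Pool.Agent.helper14.QF.covD_F chks_eq (.n 0 (.n 2 (.n 0 (.n 0 (.n 2 (.n 3 (.n 0 (.l 4) (.l 4)) (.l 4)) (.l 6)) (.n 3 (.n 0 (.l 4) (.l 4)) (.l 4))) (.n 0 (.n 3 (.l 4) (.l 4)) (.l 4))) (.l 6)) (.n 0 (.n 3 (.l 4) (.l 4)) (.l 4)))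
    [(324135813120, 14092861440), (118111600640, 23622320128), (962072674304, 137438953472), (566935683072, 17179869184)] rfl (by decide +kernel)
theorem c1_m66_t19 : CovD 0 progs [(324135813120, 14092861440), (165356240896, 23622320128), (962072674304, 137438953472), (558345748480, 8589934592)] :=
  Pool.Agent.helper14.QF.covD_F chks_eq (.n 0 (.n 0 (.n 2 (.n 0 (.n 2 (.l 4) (.l 4)) (.n 0 (.l 4) (.l 4))) (.n 1 (.l 6) (.n 0 (.l 4) (.l 4)))) (.n 0 (.n 2 (.l 4) (.l 4)) (.n 1 (.l 4) (.l 4)))) (.n 0 (.n 0 (.l 4) (.l 4)) (.l 4)))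
    [(324135813120, 14092861440), (165356240896, 23622320128), (962072674304, 137438953472), (558345748480, 8589934592)] rfl (by decide +kernel)
end
mutual
theorem c1_m66_t20 : CovD 0 progs [(324135813120, 14092861440), (165356240896, 23622320128), (962072674304, 137438953472), (575525617664, 8589934592)] :=
  Pool.Agent.helper14.QF.covD_F chks_eq (.n 0 (.n 0 (.n 0 (.n 0 (.n 2 (.l 4) (.l 4)) (.n 2 (.l 4) (.l 4))) (.n 2 (.l 4) (.l 4))) (.n 0 (.n 1 (.l 4) (.l 4)) (.l 4))) (.n 0 (.l 4) (.l 4)))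
    [(324135813120, 14092861440), (165356240896, 23622320128), (962072674304, 137438953472), (575525617664, 8589934592)] rfl (by decide +kernel)
theorem c1_m66_t23 : CovD 0 progs [(324135813120, 14092861440), (141733920768, 47244640256), (962072674304, 137438953472), (601295421440, 17179869184)] :=
  Pool.Agent.helper14.QF.covD_F chks_eq (.n 0 (.n 1 (.n 2 (.n 0 (.n 3 (.n 0 (.l 4) (.l 4)) (.l 4)) (.n 0 (.l 4) (.l 4))) (.l 6)) (.n 0 (.n 0 (.n 2 (.n 3 (.l 4) (.l 4)) (.n 3 (.l 4) (.l 4))) (.n 3 (.n 1 (.l 4) (.l 4)) (.l 4))) (.n 3 (.n 0 (.l 4) (.l 4)) (.l 4)))) (.n 0 (.n 0 (.n 1 (.l 4) (.l 4)) (.l 4)) (.l 4)))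
    [(324135813120, 14092861440), (141733920768, 47244640256), (962072674304, 137438953472), (601295421440, 17179869184)] rfl (by decide +kernel)
theorem c1_m66_t25 : CovD 0 progs [(324135813120, 14092861440), (141733920768, 47244640256), (962072674304, 137438953472), (652835028992, 34359738368)] :=
  Pool.Agent.helper14.QF.covD_F chks_eq (.n 0 (.n 0 (.n 2 (.n 3 (.n 0 (.n 0 (.l 4) (.l 4)) (.l 4)) (.l 4)) (.n 1 (.l 6) (.n 3 (.n 0 (.l 4) (.l 4)) (.l 4)))) (.n 3 (.n 0 (.n 1 (.l 4) (.l 4)) (.l 4)) (.l 4))) (.n 3 (.n 0 (.l 4) (.l 4)) (.l 4)))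
    [(324135813120, 14092861440), (141733920768, 47244640256), (962072674304, 137438953472), (652835028992, 34359738368)] rfl (by decide +kernel)
end
theorem c1_m66_t2 : CovD 0 progs [(313566167040, 3523215360), (47244640256, 47244640256), (824633720832, 274877906944), (618475290624, 68719476736)] :=
  covD_split 0 (by decide +kernel) c1_m66_t0 c1_m66_t1
theorem c1_m66_t4 : CovD 0 progs [(317089382400, 7046430720), (47244640256, 47244640256), (824633720832, 274877906944), (618475290624, 68719476736)] :=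
  covD_split 0 (by decide +kernel) c1_m66_t2 c1_m66_t3
theorem c1_m66_t6 : CovD 0 progs [(324135813120, 14092861440), (47244640256, 47244640256), (824633720832, 274877906944), (618475290624, 68719476736)] :=
  covD_split 0 (by decide +kernel) c1_m66_t4 c1_m66_t5
theorem c1_m66_t9 : CovD 0 progs [(317089382400, 7046430720), (141733920768, 47244640256), (618475290624, 68719476736), (618475290624, 68719476736)] :=
  covD_split 0 (by decide +kernel) c1_m66_t7 c1_m66_t8
theorem c1_m66_t11 : CovD 0 progs [(324135813120, 14092861440), (141733920768, 47244640256), (618475290624, 68719476736), (618475290624, 68719476736)] :=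
  covD_split 0 (by decide +kernel) c1_m66_t9 c1_m66_t10
theorem c1_m66_t14 : CovD 0 progs [(317089382400, 7046430720), (141733920768, 47244640256), (755914244096, 68719476736), (618475290624, 68719476736)] :=
  covD_split 0 (by decide +kernel) c1_m66_t12 c1_m66_t13
theorem c1_m66_t16 : CovD 0 progs [(324135813120, 14092861440), (141733920768, 47244640256), (755914244096, 68719476736), (618475290624, 68719476736)] :=
  covD_split 0 (by decide +kernel) c1_m66_t14 c1_m66_t15
theorem c1_m66_t17 : CovD 0 progs [(324135813120, 14092861440), (141733920768, 47244640256), (687194767360, 137438953472), (618475290624, 68719476736)] :=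
  covD_split 2 (by decide +kernel) c1_m66_t11 c1_m66_t16
theorem c1_m66_t21 : CovD 0 progs [(324135813120, 14092861440), (165356240896, 23622320128), (962072674304, 137438953472), (566935683072, 17179869184)] :=
  covD_split 3 (by decide +kernel) c1_m66_t19 c1_m66_t20
theorem c1_m66_t22 : CovD 0 progs [(324135813120, 14092861440), (141733920768, 47244640256), (962072674304, 137438953472), (566935683072, 17179869184)] :=
  covD_split 1 (by decide +kernel) c1_m66_t18 c1_m66_t21
theorem c1_m66_t24 : CovD 0 progs [(324135813120, 14092861440), (141733920768, 47244640256), (962072674304, 137438953472), (584115552256, 34359738368)] :=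
  covD_split 3 (by decide +kernel) c1_m66_t22 c1_m66_t23
theorem c1_m66_t26 : CovD 0 progs [(324135813120, 14092861440), (141733920768, 47244640256), (962072674304, 137438953472), (618475290624, 68719476736)] :=
  covD_split 3 (by decide +kernel) c1_m66_t24 c1_m66_t25
theorem c1_m66_t27 : CovD 0 progs [(324135813120, 14092861440), (141733920768, 47244640256), (824633720832, 274877906944), (618475290624, 68719476736)] :=
  covD_split 2 (by decide +kernel) c1_m66_t17 c1_m66_t26
theorem c1_m66 : CovD 0 progs [(324135813120, 14092861440), (94489280512, 94489280512), (824633720832, 274877906944), (618475290624, 68719476736)] :=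
  covD_split 1 (by decide +kernel) c1_m66_t6 c1_m66_t27

end Pool.Agent.helper71.FJ.Crt.QMa
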