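import Pool.Agent.helper71.FJ.Crt.QMaP

/-!
Generated certificates.
-/

namespace Pool.Agent.helper71.FJ.Crt.QMa

open Pool.Agent.helper31.IA (Z Op)
open Pool.Agent.helper31.IC

mutual
theorem c1_m68_t0 : CovD 0 progs [(310042951680, 28185722880), (94489280512, 94489280512), (824633720832, 274877906944), (893353197568, 68719476736)] :=
  Pool.Agent.helper14.QF.covD_F chks_eq (.n 0 (.n 2 (.n 3 (.n 0 (.n 3 (.n 0 (.l 4) (.l 4)) (.l 4)) (.n 3 (.l 8) (.l 8))) (.n 3 (.l 8) (.l 8))) (.n 1 (.l 6) (.n 0 (.n 2 (.l 6) (.l 6)) (.n 3 (.n 3 (.l 4) (.l 4)) (.l 4))))) (.n 3 (.n 0 (.n 2 (.l 8) (.n 1 (.l 4) (.l 4))) (.n 1 (.l 0) (.n 2 (.l 0) (.l 8)))) (.n 1 (.n 0 (.l 0) (.l 0)) (.n 3 (.l 1) (.l 0)))))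
    [(310042951680, 28185722880), (94489280512, 94489280512), (824633720832, 274877906944), (893353197568, 68719476736)] rfl (by decide +kernel)
theorem c1_m68_t1 : CovD 0 progs [(310042951680, 28185722880), (94489280512, 94489280512), (824633720832, 274877906944), (1030792151040, 68719476736)] :=
  Pool.Agent.helper14.QF.covD_F chks_eq (.n 3 (.n 0 (.n 3 (.n 1 (.l 0) (.l 0)) (.l 0)) (.n 1 (.l 0) (.l 0))) (.n 3 (.l 0) (.l 0)))
    [(310042951680, 28185722880), (94489280512, 94489280512), (824633720832, 274877906944), (1030792151040, 68719476736)] rfl (by decide +kernel)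
end
theorem c1_m68 : CovD 0 progs [(310042951680, 28185722880), (94489280512, 94489280512), (824633720832, 274877906944), (962072674304, 137438953472)] :=
  covD_split 3 (by decide +kernel) c1_m68_t0 c1_m68_t1

end Pool.Agent.helper71.FJ.Crt.QMa
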