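import Pool.Agent.helper71.FJ.Crt.QMaP

/-!
Generated certificates.
-/

namespace Pool.Agent.helper71.FJ.Crt.QMa

open Pool.Agent.helper31.IA (Z Op)
open Pool.Agent.helper31.IC

mutual
theorem c1_m7_t0 : CovD 0 progs [(317089382400, 7046430720), (94489280512, 94489280512), (137438953472, 137438953472), (420906795008, 8589934592)] :=
  Pool.Agent.helper14.QF.covD_F chks_eq (.n 0 (.n 0 (.n 0 (.n 1 (.l 4) (.l 4)) (.n 2 (.l 4) (.l 4))) (.n 0 (.n 2 (.l 4) (.n 0 (.l 4) (.l 4))) (.n 0 (.n 2 (.l 4) (.l 4)) (.n 2 (.l 4) (.l 4))))) (.n 0 (.n 0 (.n 1 (.n 2 (.l 4) (.l 4)) (.n 2 (.l 4) (.l 4))) (.n 1 (.n 2 (.l 4) (.l 4)) (.n 2 (.l 4) (.l 4)))) (.n 1 (.n 2 (.l 4) (.l 4)) (.n 2 (.l 4) (.l 4)))))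
    [(317089382400, 7046430720), (94489280512, 94489280512), (137438953472, 137438953472), (420906795008, 8589934592)] rfl (by decide +kernel)
theorem c1_m7_t1 : CovD 0 progs [(313566167040, 3523215360), (94489280512, 94489280512), (412316860416, 137438953472), (420906795008, 8589934592)] :=
  Pool.Agent.helper14.QF.covD_F chks_eq (.n 2 (.n 0 (.n 0 (.l 4) (.l 4)) (.n 0 (.n 0 (.l 4) (.l 4)) (.n 1 (.l 4) (.l 4)))) (.n 0 (.n 0 (.n 0 (.l 4) (.l 4)) (.n 1 (.l 4) (.l 4))) (.n 0 (.n 1 (.l 4) (.n 0 (.l 4) (.l 4))) (.n 1 (.l 4) (.n 0 (.l 4) (.l 4))))))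
    [(313566167040, 3523215360), (94489280512, 94489280512), (412316860416, 137438953472), (420906795008, 8589934592)] rfl (by decide +kernel)
end
mutual
theorem c1_m7_t2 : CovD 0 progs [(320612597760, 3523215360), (94489280512, 94489280512), (412316860416, 137438953472), (420906795008, 8589934592)] :=
  Pool.Agent.helper14.QF.covD_F chks_eq (.n 0 (.n 0 (.n 1 (.n 2 (.l 4) (.n 0 (.l 4) (.l 4))) (.n 1 (.n 2 (.l 4) (.l 4)) (.n 2 (.l 4) (.l 4)))) (.n 1 (.n 2 (.l 4) (.n 0 (.l 4) (.l 4))) (.n 2 (.l 4) (.n 1 (.l 4) (.l 4))))) (.n 1 (.n 2 (.l 4) (.n 0 (.l 4) (.l 4))) (.n 1 (.n 2 (.l 4) (.l 4)) (.n 2 (.l 4) (.l 4)))))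
    [(320612597760, 3523215360), (94489280512, 94489280512), (412316860416, 137438953472), (420906795008, 8589934592)] rfl (by decide +kernel)
theorem c1_m7_t5 : CovD 0 progs [(325897420800, 1761607680), (94489280512, 94489280512), (274877906944, 274877906944), (420906795008, 8589934592)] :=
  Pool.Agent.helper14.QF.covD_F chks_eq (.n 1 (.n 2 (.n 2 (.l 4) (.l 4)) (.n 0 (.n 2 (.l 4) (.l 4)) (.n 2 (.l 4) (.l 4)))) (.n 2 (.n 2 (.l 4) (.l 4)) (.n 1 (.n 2 (.l 4) (.l 4)) (.n 2 (.l 4) (.n 0 (.l 4) (.l 4))))))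
    [(325897420800, 1761607680), (94489280512, 94489280512), (274877906944, 274877906944), (420906795008, 8589934592)] rfl (by decide +kernel)
end
mutual
theorem c1_m7_t6 : CovD 0 progs [(329420636160, 1761607680), (94489280512, 94489280512), (274877906944, 274877906944), (420906795008, 8589934592)] :=
  Pool.Agent.helper14.QF.covD_F chks_eq (.n 0 (.n 2 (.n 2 (.l 4) (.n 0 (.l 4) (.l 4))) (.n 1 (.n 2 (.l 4) (.l 4)) (.n 2 (.l 4) (.n 0 (.l 4) (.l 4))))) (.n 2 (.n 2 (.l 4) (.l 4)) (.n 1 (.n 1 (.l 4) (.l 4)) (.n 2 (.l 4) (.l 4)))))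
    [(329420636160, 1761607680), (94489280512, 94489280512), (274877906944, 274877906944), (420906795008, 8589934592)] rfl (by decide +kernel)
theorem c1_m7_t8 : CovD 0 progs [(334705459200, 3523215360), (94489280512, 94489280512), (274877906944, 274877906944), (420906795008, 8589934592)] :=
  Pool.Agent.helper14.QF.covD_F chks_eq (.n 0 (.n 1 (.n 2 (.n 1 (.l 4) (.l 4)) (.n 2 (.l 4) (.l 4))) (.n 2 (.n 2 (.l 4) (.l 4)) (.n 2 (.l 4) (.n 0 (.l 4) (.l 4))))) (.n 2 (.n 2 (.l 4) (.l 4)) (.n 2 (.l 4) (.n 0 (.l 4) (.l 4)))))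
    [(334705459200, 3523215360), (94489280512, 94489280512), (274877906944, 274877906944), (420906795008, 8589934592)] rfl (by decide +kernel)
end
mutual
theorem c1_m7_t11 : CovD 0 progs [(317089382400, 7046430720), (94489280512, 94489280512), (137438953472, 137438953472), (438086664192, 8589934592)] :=
  Pool.Agent.helper14.QF.covD_F chks_eq (.n 0 (.n 0 (.n 0 (.n 2 (.l 4) (.l 4)) (.n 2 (.l 4) (.n 0 (.l 4) (.l 4)))) (.n 0 (.n 0 (.n 2 (.l 4) (.l 4)) (.n 2 (.l 4) (.l 4))) (.n 1 (.n 2 (.l 4) (.l 4)) (.n 2 (.l 4) (.l 4))))) (.n 2 (.n 0 (.n 2 (.l 4) (.l 4)) (.n 0 (.l 4) (.l 4))) (.n 0 (.n 0 (.n 1 (.l 4) (.l 4)) (.n 0 (.l 4) (.l 4))) (.n 1 (.l 4) (.l 4)))))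
    [(317089382400, 7046430720), (94489280512, 94489280512), (137438953472, 137438953472), (438086664192, 8589934592)] rfl (by decide +kernel)
theorem c1_m7_t12 : CovD 0 progs [(317089382400, 7046430720), (94489280512, 94489280512), (343597383680, 68719476736), (438086664192, 8589934592)] :=
  Pool.Agent.helper14.QF.covD_F chks_eq (.n 0 (.n 0 (.n 0 (.n 0 (.l 4) (.l 4)) (.n 1 (.l 4) (.l 4))) (.n 0 (.n 1 (.l 4) (.n 0 (.l 4) (.l 4))) (.n 1 (.l 4) (.n 0 (.l 4) (.l 4))))) (.n 0 (.n 1 (.n 0 (.l 4) (.l 4)) (.n 2 (.l 4) (.l 4))) (.n 1 (.l 4) (.n 0 (.l 4) (.l 4)))))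
    [(317089382400, 7046430720), (94489280512, 94489280512), (343597383680, 68719476736), (438086664192, 8589934592)] rfl (by decide +kernel)
end
mutual
theorem c1_m7_t13 : CovD 0 progs [(317089382400, 7046430720), (94489280512, 94489280512), (481036337152, 68719476736), (438086664192, 8589934592)] :=
  Pool.Agent.helper14.QF.covD_F chks_eq (.n 0 (.n 0 (.n 0 (.n 1 (.l 4) (.l 4)) (.n 1 (.l 4) (.n 0 (.l 4) (.l 4)))) (.n 0 (.n 1 (.n 0 (.l 4) (.l 4)) (.n 1 (.l 4) (.l 4))) (.n 1 (.n 0 (.l 4) (.l 4)) (.n 1 (.l 4) (.l 4))))) (.n 0 (.n 0 (.n 1 (.n 0 (.l 4) (.l 4)) (.n 1 (.l 4) (.l 4))) (.n 1 (.l 4) (.n 1 (.l 4) (.l 4)))) (.n 1 (.n 0 (.l 4) (.l 4)) (.n 1 (.l 4) (.l 4)))))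
    [(317089382400, 7046430720), (94489280512, 94489280512), (481036337152, 68719476736), (438086664192, 8589934592)] rfl (by decide +kernel)
theorem c1_m7_t16 : CovD 0 progs [(325897420800, 1761607680), (94489280512, 94489280512), (274877906944, 274877906944), (438086664192, 8589934592)] :=
  Pool.Agent.helper14.QF.covD_F chks_eq (.n 0 (.n 2 (.n 2 (.l 4) (.n 0 (.l 4) (.l 4))) (.n 1 (.n 2 (.l 4) (.l 4)) (.n 2 (.l 4) (.n 1 (.l 4) (.l 4))))) (.n 2 (.n 2 (.l 4) (.n 0 (.l 4) (.l 4))) (.n 1 (.n 2 (.l 4) (.l 4)) (.n 2 (.l 4) (.n 0 (.l 4) (.l 4))))))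
    [(325897420800, 1761607680), (94489280512, 94489280512), (274877906944, 274877906944), (438086664192, 8589934592)] rfl (by decide +kernel)
end
mutual
theorem c1_m7_t17 : CovD 0 progs [(329420636160, 1761607680), (94489280512, 94489280512), (274877906944, 274877906944), (438086664192, 8589934592)] :=
  Pool.Agent.helper14.QF.covD_F chks_eq (.n 0 (.n 2 (.n 2 (.l 4) (.l 4)) (.n 1 (.n 1 (.l 4) (.l 4)) (.n 2 (.l 4) (.l 4)))) (.n 2 (.n 2 (.l 4) (.l 4)) (.n 2 (.l 4) (.n 1 (.l 4) (.l 4)))))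
    [(329420636160, 1761607680), (94489280512, 94489280512), (274877906944, 274877906944), (438086664192, 8589934592)] rfl (by decide +kernel)
theorem c1_m7_t19 : CovD 0 progs [(334705459200, 3523215360), (94489280512, 94489280512), (274877906944, 274877906944), (438086664192, 8589934592)] :=
  Pool.Agent.helper14.QF.covD_F chks_eq (.n 0 (.n 2 (.n 2 (.l 4) (.l 4)) (.n 1 (.n 0 (.l 4) (.l 4)) (.n 2 (.l 4) (.l 4)))) (.n 2 (.n 1 (.l 4) (.l 8)) (.n 2 (.l 4) (.l 4))))
    [(334705459200, 3523215360), (94489280512, 94489280512), (274877906944, 274877906944), (438086664192, 8589934592)] rfl (by decide +kernel)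
end
mutual
theorem c1_m7_t23 : CovD 0 progs [(313566167040, 3523215360), (94489280512, 94489280512), (137438953472, 137438953472), (455266533376, 8589934592)] :=
  Pool.Agent.helper14.QF.covD_F chks_eq (.n 0 (.n 0 (.n 0 (.n 2 (.l 4) (.l 4)) (.n 2 (.l 4) (.l 4))) (.n 1 (.n 2 (.l 4) (.l 4)) (.n 2 (.l 4) (.l 4)))) (.n 0 (.n 1 (.n 2 (.l 4) (.l 4)) (.n 2 (.l 4) (.l 4))) (.n 1 (.n 2 (.l 4) (.l 4)) (.n 2 (.l 4) (.l 4)))))
    [(313566167040, 3523215360), (94489280512, 94489280512), (137438953472, 137438953472), (455266533376, 8589934592)] rfl (by decide +kernel)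
theorem c1_m7_t24 : CovD 0 progs [(320612597760, 3523215360), (94489280512, 94489280512), (137438953472, 137438953472), (455266533376, 8589934592)] :=
  Pool.Agent.helper14.QF.covD_F chks_eq (.n 0 (.n 1 (.n 1 (.l 4) (.l 4)) (.n 2 (.l 4) (.l 4))) (.n 0 (.n 2 (.l 4) (.n 0 (.l 4) (.l 4))) (.n 2 (.l 4) (.n 0 (.l 4) (.l 4)))))
    [(320612597760, 3523215360), (94489280512, 94489280512), (137438953472, 137438953472), (455266533376, 8589934592)] rfl (by decide +kernel)
end
mutual
theorem c1_m7_t26 : CovD 0 progs [(317089382400, 7046430720), (47244640256, 47244640256), (412316860416, 137438953472), (455266533376, 8589934592)] :=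
  Pool.Agent.helper14.QF.covD_F chks_eq (.n 0 (.n 0 (.n 0 (.n 2 (.l 4) (.l 4)) (.n 2 (.l 4) (.n 0 (.l 4) (.l 4)))) (.n 0 (.n 2 (.l 4) (.n 0 (.l 4) (.l 4))) (.n 2 (.l 4) (.n 0 (.l 4) (.l 4))))) (.n 0 (.n 2 (.l 4) (.l 4)) (.n 0 (.n 2 (.l 4) (.l 4)) (.n 2 (.l 4) (.l 4)))))
    [(317089382400, 7046430720), (47244640256, 47244640256), (412316860416, 137438953472), (455266533376, 8589934592)] rfl (by decide +kernel)
theorem c1_m7_t27 : CovD 0 progs [(317089382400, 7046430720), (141733920768, 47244640256), (412316860416, 137438953472), (455266533376, 8589934592)] :=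
  Pool.Agent.helper14.QF.covD_F chks_eq (.n 2 (.n 0 (.n 0 (.n 0 (.l 4) (.n 0 (.l 4) (.l 4))) (.n 0 (.n 0 (.l 4) (.l 4)) (.l 4))) (.n 0 (.l 4) (.n 0 (.l 4) (.l 4)))) (.n 0 (.n 0 (.n 0 (.n 1 (.l 4) (.l 4)) (.n 1 (.l 4) (.l 4))) (.n 0 (.n 2 (.l 4) (.l 4)) (.n 1 (.l 4) (.l 4)))) (.n 0 (.n 1 (.l 4) (.l 4)) (.n 0 (.n 1 (.l 4) (.l 4)) (.n 1 (.l 4) (.l 4))))))
    [(317089382400, 7046430720), (141733920768, 47244640256), (412316860416, 137438953472), (455266533376, 8589934592)] rfl (by decide +kernel)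
end
mutual
theorem c1_m7_t30 : CovD 0 progs [(327659028480, 3523215360), (94489280512, 94489280512), (274877906944, 274877906944), (455266533376, 8589934592)] :=
  Pool.Agent.helper14.QF.covD_F chks_eq (.n 0 (.n 0 (.n 2 (.n 2 (.l 4) (.n 0 (.l 4) (.l 4))) (.n 1 (.n 1 (.l 4) (.l 4)) (.n 2 (.l 4) (.n 0 (.l 4) (.l 4))))) (.n 2 (.n 2 (.l 4) (.l 4)) (.n 1 (.n 1 (.l 4) (.l 4)) (.n 2 (.l 4) (.l 4))))) (.n 2 (.n 2 (.l 4) (.n 0 (.l 4) (.l 4))) (.n 1 (.n 2 (.l 4) (.l 4)) (.n 2 (.l 4) (.n 0 (.l 4) (.l 4))))))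
    [(327659028480, 3523215360), (94489280512, 94489280512), (274877906944, 274877906944), (455266533376, 8589934592)] rfl (by decide +kernel)
theorem c1_m7_t31 : CovD 0 progs [(334705459200, 3523215360), (94489280512, 94489280512), (274877906944, 274877906944), (455266533376, 8589934592)] :=
  Pool.Agent.helper14.QF.covD_F chks_eq (.n 0 (.n 1 (.n 2 (.l 4) (.l 4)) (.n 2 (.l 8) (.n 0 (.l 4) (.l 4)))) (.n 2 (.l 8) (.n 1 (.l 4) (.l 8))))
    [(334705459200, 3523215360), (94489280512, 94489280512), (274877906944, 274877906944), (455266533376, 8589934592)] rfl (by decide +kernel)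
end
mutual
theorem c1_m7_t34 : CovD 0 progs [(317089382400, 7046430720), (94489280512, 94489280512), (137438953472, 137438953472), (472446402560, 8589934592)] :=
  Pool.Agent.helper14.QF.covD_F chks_eq (.n 2 (.n 0 (.n 0 (.n 0 (.n 1 (.l 4) (.l 4)) (.n 1 (.l 4) (.l 4))) (.n 1 (.l 4) (.l 4))) (.n 0 (.n 2 (.l 4) (.l 4)) (.n 0 (.l 4) (.l 4)))) (.n 0 (.n 0 (.n 0 (.n 1 (.l 4) (.l 4)) (.n 1 (.l 4) (.l 4))) (.n 1 (.l 4) (.l 4))) (.n 0 (.n 2 (.l 4) (.n 0 (.l 4) (.l 4))) (.n 0 (.n 0 (.l 4) (.l 4)) (.l 4)))))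
    [(317089382400, 7046430720), (94489280512, 94489280512), (137438953472, 137438953472), (472446402560, 8589934592)] rfl (by decide +kernel)
theorem c1_m7_t35 : CovD 0 progs [(317089382400, 7046430720), (47244640256, 47244640256), (412316860416, 137438953472), (472446402560, 8589934592)] :=
  Pool.Agent.helper14.QF.covD_F chks_eq (.n 2 (.n 0 (.n 0 (.n 0 (.n 0 (.l 4) (.l 4)) (.l 4)) (.l 4)) (.n 0 (.n 0 (.l 4) (.l 4)) (.n 0 (.l 4) (.l 4)))) (.n 0 (.n 0 (.n 0 (.n 0 (.l 4) (.l 4)) (.n 0 (.l 4) (.l 4))) (.n 0 (.l 4) (.l 4))) (.n 0 (.n 0 (.l 4) (.l 4)) (.n 0 (.l 4) (.l 4)))))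
    [(317089382400, 7046430720), (47244640256, 47244640256), (412316860416, 137438953472), (472446402560, 8589934592)] rfl (by decide +kernel)
end
mutual
theorem c1_m7_t36 : CovD 0 progs [(317089382400, 7046430720), (141733920768, 47244640256), (343597383680, 68719476736), (472446402560, 8589934592)] :=
  Pool.Agent.helper14.QF.covD_F chks_eq (.n 0 (.n 0 (.n 0 (.n 0 (.l 4) (.l 4)) (.n 0 (.l 4) (.l 4))) (.n 0 (.l 4) (.l 4))) (.n 0 (.n 0 (.l 4) (.l 4)) (.n 0 (.l 4) (.l 4))))
    [(317089382400, 7046430720), (141733920768, 47244640256), (343597383680, 68719476736), (472446402560, 8589934592)] rfl (by decide +kernel)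
theorem c1_m7_t37 : CovD 0 progs [(317089382400, 7046430720), (141733920768, 47244640256), (481036337152, 68719476736), (472446402560, 8589934592)] :=
  Pool.Agent.helper14.QF.covD_F chks_eq (.n 2 (.n 0 (.n 0 (.n 0 (.l 4) (.l 4)) (.l 4)) (.n 0 (.n 0 (.l 4) (.l 4)) (.n 0 (.l 4) (.l 4)))) (.n 0 (.n 0 (.n 0 (.n 0 (.l 4) (.l 4)) (.l 4)) (.l 4)) (.n 0 (.n 0 (.l 4) (.l 4)) (.n 0 (.l 4) (.l 4)))))
    [(317089382400, 7046430720), (141733920768, 47244640256), (481036337152, 68719476736), (472446402560, 8589934592)] rfl (by decide +kernel)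
theorem c1_m7_t41 : CovD 0 progs [(331182243840, 7046430720), (94489280512, 94489280512), (274877906944, 274877906944), (472446402560, 8589934592)] :=
  Pool.Agent.helper14.QF.covD_F chks_eq (.n 0 (.n 0 (.n 0 (.n 2 (.n 2 (.l 4) (.l 4)) (.n 1 (.n 1 (.l 4) (.l 4)) (.n 2 (.l 4) (.l 4)))) (.n 2 (.n 1 (.l 4) (.l 4)) (.n 2 (.l 4) (.n 1 (.l 4) (.l 4))))) (.n 2 (.n 2 (.l 4) (.l 4)) (.n 2 (.l 4) (.n 0 (.l 4) (.l 4))))) (.n 0 (.n 1 (.n 2 (.l 4) (.l 4)) (.n 2 (.l 8) (.l 4))) (.n 2 (.l 8) (.n 0 (.l 8) (.l 8)))))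
    [(331182243840, 7046430720), (94489280512, 94489280512), (274877906944, 274877906944), (472446402560, 8589934592)] rfl (by decide +kernel)
end
theorem c1_m7_t3 : CovD 0 progs [(317089382400, 7046430720), (94489280512, 94489280512), (412316860416, 137438953472), (420906795008, 8589934592)] :=
  covD_split 0 (by decide +kernel) c1_m7_t1 c1_m7_t2
theorem c1_m7_t4 : CovD 0 progs [(317089382400, 7046430720), (94489280512, 94489280512), (274877906944, 274877906944), (420906795008, 8589934592)] :=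
  covD_split 2 (by decide +kernel) c1_m7_t0 c1_m7_t3
theorem c1_m7_t7 : CovD 0 progs [(327659028480, 3523215360), (94489280512, 94489280512), (274877906944, 274877906944), (420906795008, 8589934592)] :=
  covD_split 0 (by decide +kernel) c1_m7_t5 c1_m7_t6
theorem c1_m7_t9 : CovD 0 progs [(331182243840, 7046430720), (94489280512, 94489280512), (274877906944, 274877906944), (420906795008, 8589934592)] :=
  covD_split 0 (by decide +kernel) c1_m7_t7 c1_m7_t8
theorem c1_m7_t10 : CovD 0 progs [(324135813120, 14092861440), (94489280512, 94489280512), (274877906944, 274877906944), (420906795008, 8589934592)] :=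
  covD_split 0 (by decide +kernel) c1_m7_t4 c1_m7_t9
theorem c1_m7_t14 : CovD 0 progs [(317089382400, 7046430720), (94489280512, 94489280512), (412316860416, 137438953472), (438086664192, 8589934592)] :=
  covD_split 2 (by decide +kernel) c1_m7_t12 c1_m7_t13
theorem c1_m7_t15 : CovD 0 progs [(317089382400, 7046430720), (94489280512, 94489280512), (274877906944, 274877906944), (438086664192, 8589934592)] :=
  covD_split 2 (by decide +kernel) c1_m7_t11 c1_m7_t14
theorem c1_m7_t18 : CovD 0 progs [(327659028480, 3523215360), (94489280512, 94489280512), (274877906944, 274877906944), (438086664192, 8589934592)] :=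
  covD_split 0 (by decide +kernel) c1_m7_t16 c1_m7_t17
theorem c1_m7_t20 : CovD 0 progs [(331182243840, 7046430720), (94489280512, 94489280512), (274877906944, 274877906944), (438086664192, 8589934592)] :=
  covD_split 0 (by decide +kernel) c1_m7_t18 c1_m7_t19
theorem c1_m7_t21 : CovD 0 progs [(324135813120, 14092861440), (94489280512, 94489280512), (274877906944, 274877906944), (438086664192, 8589934592)] :=
  covD_split 0 (by decide +kernel) c1_m7_t15 c1_m7_t20
theorem c1_m7_t22 : CovD 0 progs [(324135813120, 14092861440), (94489280512, 94489280512), (274877906944, 274877906944), (429496729600, 17179869184)] :=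
  covD_split 3 (by decide +kernel) c1_m7_t10 c1_m7_t21
theorem c1_m7_t25 : CovD 0 progs [(317089382400, 7046430720), (94489280512, 94489280512), (137438953472, 137438953472), (455266533376, 8589934592)] :=
  covD_split 0 (by decide +kernel) c1_m7_t23 c1_m7_t24
theorem c1_m7_t28 : CovD 0 progs [(317089382400, 7046430720), (94489280512, 94489280512), (412316860416, 137438953472), (455266533376, 8589934592)] :=
  covD_split 1 (by decide +kernel) c1_m7_t26 c1_m7_t27
theorem c1_m7_t29 : CovD 0 progs [(317089382400, 7046430720), (94489280512, 94489280512), (274877906944, 274877906944), (455266533376, 8589934592)] :=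
  covD_split 2 (by decide +kernel) c1_m7_t25 c1_m7_t28
theorem c1_m7_t32 : CovD 0 progs [(331182243840, 7046430720), (94489280512, 94489280512), (274877906944, 274877906944), (455266533376, 8589934592)] :=
  covD_split 0 (by decide +kernel) c1_m7_t30 c1_m7_t31
theorem c1_m7_t33 : CovD 0 progs [(324135813120, 14092861440), (94489280512, 94489280512), (274877906944, 274877906944), (455266533376, 8589934592)] :=
  covD_split 0 (by decide +kernel) c1_m7_t29 c1_m7_t32
theorem c1_m7_t38 : CovD 0 progs [(317089382400, 7046430720), (141733920768, 47244640256), (412316860416, 137438953472), (472446402560, 8589934592)] :=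
  covD_split 2 (by decide +kernel) c1_m7_t36 c1_m7_t37
theorem c1_m7_t39 : CovD 0 progs [(317089382400, 7046430720), (94489280512, 94489280512), (412316860416, 137438953472), (472446402560, 8589934592)] :=
  covD_split 1 (by decide +kernel) c1_m7_t35 c1_m7_t38
theorem c1_m7_t40 : CovD 0 progs [(317089382400, 7046430720), (94489280512, 94489280512), (274877906944, 274877906944), (472446402560, 8589934592)] :=
  covD_split 2 (by decide +kernel) c1_m7_t34 c1_m7_t39
theorem c1_m7_t42 : CovD 0 progs [(324135813120, 14092861440), (94489280512, 94489280512), (274877906944, 274877906944), (472446402560, 8589934592)] :=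
  covD_split 0 (by decide +kernel) c1_m7_t40 c1_m7_t41
theorem c1_m7_t43 : CovD 0 progs [(324135813120, 14092861440), (94489280512, 94489280512), (274877906944, 274877906944), (463856467968, 17179869184)] :=
  covD_split 3 (by decide +kernel) c1_m7_t33 c1_m7_t42
theorem c1_m7 : CovD 0 progs [(324135813120, 14092861440), (94489280512, 94489280512), (274877906944, 274877906944), (446676598784, 34359738368)] :=
  covD_split 3 (by decide +kernel) c1_m7_t22 c1_m7_t43

end Pool.Agent.helper71.FJ.Crt.QMa
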