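import Pool.Agent.helper71.FJ.Crt.QMaP

/-!
Generated certificates.
-/

namespace Pool.Agent.helper71.FJ.Crt.QMa

open Pool.Agent.helper31.IA (Z Op)
open Pool.Agent.helper31.IC

mutual
theorem c1_m70_t0 : CovD 0 progs [(253671505920, 28185722880), (283467841536, 94489280512), (274877906944, 274877906944), (137438953472, 137438953472)] :=
  Pool.Agent.helper14.QF.covD_F chks_eq (.n 3 (.n 1 (.n 1 (.n 0 (.n 0 (.n 0 (.l 12) (.l 10)) (.n 0 (.l 10) (.l 10))) (.n 0 (.n 0 (.l 10) (.l 10)) (.n 0 (.l 8) (.l 8)))) (.l 11)) (.l 11)) (.n 1 (.n 1 (.n 0 (.n 0 (.n 0 (.l 12) (.n 0 (.l 10) (.l 10))) (.n 0 (.n 0 (.l 10) (.l 10)) (.l 10))) (.n 0 (.n 0 (.l 10) (.l 10)) (.n 0 (.l 8) (.l 8)))) (.l 11)) (.l 11)))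
    [(253671505920, 28185722880), (283467841536, 94489280512), (274877906944, 274877906944), (137438953472, 137438953472)] rfl (by decide +kernel)
theorem c1_m70_t1 : CovD 0 progs [(253671505920, 28185722880), (283467841536, 94489280512), (274877906944, 274877906944), (343597383680, 68719476736)] :=
  Pool.Agent.helper14.QF.covD_F chks_eq (.n 1 (.n 1 (.n 0 (.n 0 (.n 0 (.n 0 (.n 3 (.l 10) (.l 10)) (.n 3 (.l 10) (.l 10))) (.n 3 (.l 10) (.l 10))) (.n 0 (.n 0 (.l 10) (.l 10)) (.n 0 (.l 10) (.l 10)))) (.n 0 (.n 0 (.n 0 (.l 10) (.l 8)) (.n 0 (.l 8) (.l 8))) (.n 0 (.n 3 (.l 8) (.l 8)) (.n 3 (.l 8) (.n 0 (.l 8) (.l 8)))))) (.l 11)) (.l 11))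
    [(253671505920, 28185722880), (283467841536, 94489280512), (274877906944, 274877906944), (343597383680, 68719476736)] rfl (by decide +kernel)
end
mutual
theorem c1_m70_t2 : CovD 0 progs [(253671505920, 28185722880), (283467841536, 94489280512), (274877906944, 274877906944), (446676598784, 34359738368)] :=
  Pool.Agent.helper14.QF.covD_F chks_eq (.n 1 (.n 1 (.n 0 (.n 0 (.n 0 (.n 0 (.l 10) (.l 10)) (.l 10)) (.n 0 (.l 10) (.l 8))) (.n 0 (.n 0 (.l 8) (.n 0 (.l 8) (.l 8))) (.n 0 (.n 0 (.l 8) (.l 8)) (.n 0 (.l 8) (.n 0 (.l 8) (.l 8)))))) (.l 11)) (.l 11))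
    [(253671505920, 28185722880), (283467841536, 94489280512), (274877906944, 274877906944), (446676598784, 34359738368)] rfl (by decide +kernel)
theorem c1_m70_t3 : CovD 0 progs [(253671505920, 28185722880), (283467841536, 94489280512), (274877906944, 274877906944), (498216206336, 17179869184)] :=
  Pool.Agent.helper14.QF.covD_F chks_eq (.n 1 (.n 1 (.n 0 (.n 0 (.n 0 (.l 10) (.l 10)) (.n 0 (.l 8) (.l 8))) (.n 0 (.n 0 (.l 8) (.l 8)) (.n 0 (.n 0 (.l 8) (.l 8)) (.n 0 (.l 8) (.l 8))))) (.l 11)) (.l 11))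
    [(253671505920, 28185722880), (283467841536, 94489280512), (274877906944, 274877906944), (498216206336, 17179869184)] rfl (by decide +kernel)
theorem c1_m70_t4 : CovD 0 progs [(253671505920, 28185722880), (283467841536, 94489280512), (274877906944, 274877906944), (532575944704, 17179869184)] :=
  Pool.Agent.helper14.QF.covD_F chks_eq (.n 1 (.n 1 (.n 0 (.n 0 (.n 0 (.l 10) (.l 8)) (.n 0 (.l 8) (.l 8))) (.n 0 (.n 0 (.l 8) (.n 0 (.l 8) (.l 8))) (.n 0 (.n 0 (.l 8) (.l 8)) (.n 0 (.n 0 (.l 8) (.l 8)) (.n 2 (.l 4) (.l 4)))))) (.l 11)) (.l 11))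
    [(253671505920, 28185722880), (283467841536, 94489280512), (274877906944, 274877906944), (532575944704, 17179869184)] rfl (by decide +kernel)
end
theorem c1_m70_t5 : CovD 0 progs [(253671505920, 28185722880), (283467841536, 94489280512), (274877906944, 274877906944), (515396075520, 34359738368)] :=
  covD_split 3 (by decide +kernel) c1_m70_t3 c1_m70_t4
theorem c1_m70_t6 : CovD 0 progs [(253671505920, 28185722880), (283467841536, 94489280512), (274877906944, 274877906944), (481036337152, 68719476736)] :=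
  covD_split 3 (by decide +kernel) c1_m70_t2 c1_m70_t5
theorem c1_m70_t7 : CovD 0 progs [(253671505920, 28185722880), (283467841536, 94489280512), (274877906944, 274877906944), (412316860416, 137438953472)] :=
  covD_split 3 (by decide +kernel) c1_m70_t1 c1_m70_t6
theorem c1_m70 : CovD 0 progs [(253671505920, 28185722880), (283467841536, 94489280512), (274877906944, 274877906944), (274877906944, 274877906944)] :=
  covD_split 3 (by decide +kernel) c1_m70_t0 c1_m70_t7

end Pool.Agent.helper71.FJ.Crt.QMa
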