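import Pool.Agent.helper71.FJ.Crt.QMaP

/-!
Generated certificates.
-/

namespace Pool.Agent.helper71.FJ.Crt.QMa

open Pool.Agent.helper31.IA (Z Op)
open Pool.Agent.helper31.IC

mutual
theorem c1_m71_t0 : CovD 0 progs [(310042951680, 28185722880), (283467841536, 94489280512), (137438953472, 137438953472), (68719476736, 68719476736)] :=
  Pool.Agent.helper14.QF.covD_F chks_eq (.n 1 (.n 0 (.n 0 (.n 0 (.l 8) (.l 8)) (.n 0 (.l 8) (.l 8))) (.n 0 (.n 0 (.l 8) (.n 0 (.l 8) (.l 8))) (.n 0 (.n 0 (.l 8) (.n 0 (.l 8) (.l 8))) (.n 1 (.n 0 (.n 0 (.l 8) (.l 8)) (.n 3 (.l 4) (.n 0 (.l 8) (.l 8)))) (.l 11))))) (.l 11))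
    [(310042951680, 28185722880), (283467841536, 94489280512), (137438953472, 137438953472), (68719476736, 68719476736)] rfl (by decide +kernel)
theorem c1_m71_t1 : CovD 0 progs [(310042951680, 28185722880), (283467841536, 94489280512), (412316860416, 137438953472), (68719476736, 68719476736)] :=
  Pool.Agent.helper14.QF.covD_F chks_eq (.n 0 (.n 0 (.n 0 (.l 8) (.l 8)) (.n 0 (.l 8) (.n 0 (.l 8) (.l 8)))) (.n 1 (.n 1 (.n 0 (.n 0 (.l 8) (.n 0 (.l 4) (.l 4))) (.n 0 (.n 0 (.l 4) (.n 0 (.l 4) (.l 4))) (.n 0 (.n 3 (.l 4) (.n 0 (.l 4) (.l 4))) (.n 0 (.n 2 (.l 4) (.l 4)) (.n 3 (.l 4) (.n 2 (.l 4) (.l 4))))))) (.l 11)) (.l 11)))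
    [(310042951680, 28185722880), (283467841536, 94489280512), (412316860416, 137438953472), (68719476736, 68719476736)] rfl (by decide +kernel)
end
mutual
theorem c1_m71_t3 : CovD 0 progs [(295950090240, 14092861440), (283467841536, 94489280512), (274877906944, 274877906944), (206158430208, 68719476736)] :=
  Pool.Agent.helper14.QF.covD_F chks_eq (.n 1 (.n 1 (.n 0 (.n 0 (.n 0 (.l 8) (.l 8)) (.n 0 (.l 8) (.l 8))) (.n 0 (.n 0 (.l 8) (.n 0 (.l 8) (.l 8))) (.n 3 (.l 8) (.n 0 (.l 8) (.l 8))))) (.l 11)) (.l 11))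
    [(295950090240, 14092861440), (283467841536, 94489280512), (274877906944, 274877906944), (206158430208, 68719476736)] rfl (by decide +kernel)
theorem c1_m71_t4 : CovD 0 progs [(317089382400, 7046430720), (283467841536, 94489280512), (274877906944, 274877906944), (206158430208, 68719476736)] :=
  Pool.Agent.helper14.QF.covD_F chks_eq (.n 1 (.n 1 (.n 0 (.n 0 (.n 3 (.l 8) (.n 0 (.l 8) (.l 8))) (.n 3 (.l 8) (.n 2 (.l 8) (.l 4)))) (.n 0 (.n 2 (.n 3 (.l 8) (.l 8)) (.n 3 (.l 4) (.n 0 (.l 4) (.l 4)))) (.n 2 (.n 3 (.l 8) (.n 0 (.l 8) (.l 8))) (.n 3 (.l 4) (.n 3 (.l 4) (.l 4)))))) (.l 11)) (.l 11))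
    [(317089382400, 7046430720), (283467841536, 94489280512), (274877906944, 274877906944), (206158430208, 68719476736)] rfl (by decide +kernel)
end
mutual
theorem c1_m71_t5 : CovD 0 progs [(325897420800, 1761607680), (236223201280, 47244640256), (274877906944, 274877906944), (206158430208, 68719476736)] :=
  Pool.Agent.helper14.QF.covD_F chks_eq (.n 1 (.n 2 (.n 3 (.l 8) (.n 0 (.l 8) (.n 0 (.l 8) (.l 8)))) (.n 0 (.n 3 (.l 4) (.n 2 (.l 4) (.l 4))) (.n 3 (.l 4) (.n 2 (.l 4) (.l 4))))) (.l 11))
    [(325897420800, 1761607680), (236223201280, 47244640256), (274877906944, 274877906944), (206158430208, 68719476736)] rfl (by decide +kernel)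
theorem c1_m71_t6 : CovD 0 progs [(329420636160, 1761607680), (236223201280, 47244640256), (274877906944, 274877906944), (206158430208, 68719476736)] :=
  Pool.Agent.helper14.QF.covD_F chks_eq (.n 0 (.n 1 (.n 2 (.n 3 (.l 8) (.n 3 (.l 8) (.l 8))) (.n 3 (.l 4) (.n 3 (.l 4) (.n 2 (.l 4) (.l 4))))) (.l 11)) (.n 1 (.n 2 (.n 3 (.l 8) (.n 3 (.l 8) (.l 8))) (.n 2 (.n 3 (.l 4) (.n 0 (.l 4) (.l 4))) (.n 3 (.l 4) (.n 3 (.l 4) (.l 4))))) (.l 11)))
    [(329420636160, 1761607680), (236223201280, 47244640256), (274877906944, 274877906944), (206158430208, 68719476736)] rfl (by decide +kernel)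
end
mutual
theorem c1_m71_t8 : CovD 0 progs [(327659028480, 3523215360), (330712481792, 47244640256), (274877906944, 274877906944), (206158430208, 68719476736)] :=
  Pool.Agent.helper14.QF.covD_F chks_eq (.l 11)
    [(327659028480, 3523215360), (330712481792, 47244640256), (274877906944, 274877906944), (206158430208, 68719476736)] rfl (by decide +kernel)
theorem c1_m71_t10 : CovD 0 progs [(332063047680, 880803840), (283467841536, 94489280512), (274877906944, 274877906944), (206158430208, 68719476736)] :=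
  Pool.Agent.helper14.QF.covD_F chks_eq (.n 1 (.n 1 (.n 2 (.n 3 (.l 8) (.n 3 (.l 8) (.n 0 (.l 8) (.l 8)))) (.n 2 (.n 3 (.l 4) (.n 3 (.l 4) (.l 4))) (.n 3 (.l 4) (.n 3 (.l 4) (.l 4))))) (.l 11)) (.l 11))
    [(332063047680, 880803840), (283467841536, 94489280512), (274877906944, 274877906944), (206158430208, 68719476736)] rfl (by decide +kernel)
end
mutual
theorem c1_m71_t11 : CovD 0 progs [(333824655360, 880803840), (283467841536, 94489280512), (274877906944, 274877906944), (206158430208, 68719476736)] :=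
  Pool.Agent.helper14.QF.covD_F chks_eq (.n 1 (.n 1 (.n 2 (.n 3 (.n 0 (.l 8) (.l 8)) (.n 3 (.l 8) (.n 2 (.l 4) (.l 4)))) (.n 2 (.n 3 (.l 4) (.n 3 (.l 4) (.l 4))) (.n 3 (.l 4) (.n 3 (.l 4) (.n 0 (.l 4) (.l 4)))))) (.l 11)) (.l 11))
    [(333824655360, 880803840), (283467841536, 94489280512), (274877906944, 274877906944), (206158430208, 68719476736)] rfl (by decide +kernel)
theorem c1_m71_t13 : CovD 0 progs [(335586263040, 880803840), (212600881152, 23622320128), (274877906944, 274877906944), (206158430208, 68719476736)] :=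
  Pool.Agent.helper14.QF.covD_F chks_eq (.n 2 (.n 2 (.n 3 (.l 4) (.n 3 (.l 4) (.l 4))) (.n 3 (.l 4) (.n 3 (.l 4) (.l 4)))) (.n 2 (.n 3 (.l 4) (.n 3 (.l 4) (.l 4))) (.n 3 (.n 0 (.l 4) (.l 4)) (.n 3 (.l 4) (.n 0 (.l 4) (.l 4))))))
    [(335586263040, 880803840), (212600881152, 23622320128), (274877906944, 274877906944), (206158430208, 68719476736)] rfl (by decide +kernel)
end
mutual
theorem c1_m71_t14 : CovD 0 progs [(337347870720, 880803840), (212600881152, 23622320128), (274877906944, 274877906944), (206158430208, 68719476736)] :=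
  Pool.Agent.helper14.QF.covD_F chks_eq (.n 2 (.n 2 (.n 3 (.l 4) (.n 3 (.l 4) (.l 4))) (.n 3 (.l 4) (.n 3 (.l 4) (.l 4)))) (.n 2 (.n 3 (.n 0 (.l 4) (.l 4)) (.n 3 (.l 4) (.l 4))) (.n 0 (.n 3 (.l 4) (.n 3 (.l 4) (.l 4))) (.n 3 (.l 4) (.n 2 (.l 4) (.l 4))))))
    [(337347870720, 880803840), (212600881152, 23622320128), (274877906944, 274877906944), (206158430208, 68719476736)] rfl (by decide +kernel)
theorem c1_m71_t16 : CovD 0 progs [(336467066880, 1761607680), (259845521408, 23622320128), (274877906944, 274877906944), (206158430208, 68719476736)] :=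
  Pool.Agent.helper14.QF.covD_F chks_eq (.l 11)
    [(336467066880, 1761607680), (259845521408, 23622320128), (274877906944, 274877906944), (206158430208, 68719476736)] rfl (by decide +kernel)
theorem c1_m71_t18 : CovD 0 progs [(336467066880, 1761607680), (330712481792, 47244640256), (274877906944, 274877906944), (206158430208, 68719476736)] :=
  Pool.Agent.helper14.QF.covD_F chks_eq (.l 11)
    [(336467066880, 1761607680), (330712481792, 47244640256), (274877906944, 274877906944), (206158430208, 68719476736)] rfl (by decide +kernel)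
end
theorem c1_m71_t2 : CovD 0 progs [(310042951680, 28185722880), (283467841536, 94489280512), (274877906944, 274877906944), (68719476736, 68719476736)] :=
  covD_split 2 (by decide +kernel) c1_m71_t0 c1_m71_t1
theorem c1_m71_t7 : CovD 0 progs [(327659028480, 3523215360), (236223201280, 47244640256), (274877906944, 274877906944), (206158430208, 68719476736)] :=
  covD_split 0 (by decide +kernel) c1_m71_t5 c1_m71_t6
theorem c1_m71_t9 : CovD 0 progs [(327659028480, 3523215360), (283467841536, 94489280512), (274877906944, 274877906944), (206158430208, 68719476736)] :=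
  covD_split 1 (by decide +kernel) c1_m71_t7 c1_m71_t8
theorem c1_m71_t12 : CovD 0 progs [(332943851520, 1761607680), (283467841536, 94489280512), (274877906944, 274877906944), (206158430208, 68719476736)] :=
  covD_split 0 (by decide +kernel) c1_m71_t10 c1_m71_t11
theorem c1_m71_t15 : CovD 0 progs [(336467066880, 1761607680), (212600881152, 23622320128), (274877906944, 274877906944), (206158430208, 68719476736)] :=
  covD_split 0 (by decide +kernel) c1_m71_t13 c1_m71_t14
theorem c1_m71_t17 : CovD 0 progs [(336467066880, 1761607680), (236223201280, 47244640256), (274877906944, 274877906944), (206158430208, 68719476736)] :=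
  covD_split 1 (by decide +kernel) c1_m71_t15 c1_m71_t16
theorem c1_m71_t19 : CovD 0 progs [(336467066880, 1761607680), (283467841536, 94489280512), (274877906944, 274877906944), (206158430208, 68719476736)] :=
  covD_split 1 (by decide +kernel) c1_m71_t17 c1_m71_t18
theorem c1_m71_t20 : CovD 0 progs [(334705459200, 3523215360), (283467841536, 94489280512), (274877906944, 274877906944), (206158430208, 68719476736)] :=
  covD_split 0 (by decide +kernel) c1_m71_t12 c1_m71_t19
theorem c1_m71_t21 : CovD 0 progs [(331182243840, 7046430720), (283467841536, 94489280512), (274877906944, 274877906944), (206158430208, 68719476736)] :=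
  covD_split 0 (by decide +kernel) c1_m71_t9 c1_m71_t20
theorem c1_m71_t22 : CovD 0 progs [(324135813120, 14092861440), (283467841536, 94489280512), (274877906944, 274877906944), (206158430208, 68719476736)] :=
  covD_split 0 (by decide +kernel) c1_m71_t4 c1_m71_t21
theorem c1_m71_t23 : CovD 0 progs [(310042951680, 28185722880), (283467841536, 94489280512), (274877906944, 274877906944), (206158430208, 68719476736)] :=
  covD_split 0 (by decide +kernel) c1_m71_t3 c1_m71_t22
theorem c1_m71 : CovD 0 progs [(310042951680, 28185722880), (283467841536, 94489280512), (274877906944, 274877906944), (137438953472, 137438953472)] :=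
  covD_split 3 (by decide +kernel) c1_m71_t2 c1_m71_t23

end Pool.Agent.helper71.FJ.Crt.QMa
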