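import Pool.Agent.helper71.FJ.Crt.QMaP

/-!
Generated certificates.
-/

namespace Pool.Agent.helper71.FJ.Crt.QMa

open Pool.Agent.helper31.IA (Z Op)
open Pool.Agent.helper31.IC

mutual
theorem c1_m73_t0 : CovD 0 progs [(295950090240, 14092861440), (236223201280, 47244640256), (274877906944, 274877906944), (429496729600, 17179869184)] :=
  Pool.Agent.helper14.QF.covD_F chks_eq (.n 1 (.n 0 (.n 0 (.n 0 (.l 8) (.l 8)) (.n 0 (.l 8) (.n 0 (.l 8) (.l 8)))) (.n 0 (.n 0 (.n 2 (.l 4) (.l 4)) (.n 2 (.l 4) (.n 0 (.l 4) (.l 4)))) (.n 0 (.n 0 (.n 2 (.l 4) (.l 4)) (.n 2 (.l 4) (.n 0 (.l 4) (.l 4)))) (.n 2 (.n 3 (.l 4) (.n 0 (.l 4) (.l 4))) (.n 0 (.n 2 (.l 4) (.l 4)) (.n 3 (.l 4) (.n 0 (.l 4) (.l 4)))))))) (.l 11))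
    [(295950090240, 14092861440), (236223201280, 47244640256), (274877906944, 274877906944), (429496729600, 17179869184)] rfl (by decide +kernel)
theorem c1_m73_t1 : CovD 0 progs [(295950090240, 14092861440), (330712481792, 47244640256), (274877906944, 274877906944), (429496729600, 17179869184)] :=
  Pool.Agent.helper14.QF.covD_F chks_eq (.l 11)
    [(295950090240, 14092861440), (330712481792, 47244640256), (274877906944, 274877906944), (429496729600, 17179869184)] rfl (by decide +kernel)
end
mutual
theorem c1_m73_t3 : CovD 0 progs [(295950090240, 14092861440), (283467841536, 94489280512), (274877906944, 274877906944), (455266533376, 8589934592)] :=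
  Pool.Agent.helper14.QF.covD_F chks_eq (.n 1 (.n 1 (.n 0 (.n 0 (.n 0 (.l 8) (.l 8)) (.n 0 (.l 8) (.l 8))) (.n 0 (.n 0 (.n 2 (.l 4) (.l 4)) (.n 2 (.l 4) (.l 4))) (.n 0 (.n 2 (.n 0 (.l 4) (.l 4)) (.n 2 (.l 4) (.l 4))) (.n 0 (.n 2 (.l 4) (.n 2 (.l 4) (.l 4))) (.n 2 (.n 0 (.l 4) (.l 4)) (.n 2 (.l 4) (.l 4))))))) (.l 11)) (.l 11))
    [(295950090240, 14092861440), (283467841536, 94489280512), (274877906944, 274877906944), (455266533376, 8589934592)] rfl (by decide +kernel)
theorem c1_m73_t4 : CovD 0 progs [(288903659520, 7046430720), (212600881152, 23622320128), (274877906944, 274877906944), (472446402560, 8589934592)] :=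
  Pool.Agent.helper14.QF.covD_F chks_eq (.n 0 (.n 0 (.l 8) (.l 8)) (.n 0 (.l 8) (.n 0 (.l 8) (.l 8))))
    [(288903659520, 7046430720), (212600881152, 23622320128), (274877906944, 274877906944), (472446402560, 8589934592)] rfl (by decide +kernel)
end
mutual
theorem c1_m73_t5 : CovD 0 progs [(302996520960, 7046430720), (212600881152, 23622320128), (274877906944, 274877906944), (472446402560, 8589934592)] :=
  Pool.Agent.helper14.QF.covD_F chks_eq (.n 0 (.n 0 (.n 2 (.l 4) (.l 4)) (.n 0 (.n 2 (.l 4) (.l 4)) (.n 2 (.l 4) (.l 4)))) (.n 0 (.n 0 (.n 2 (.l 4) (.n 0 (.l 4) (.l 4))) (.n 2 (.l 4) (.n 2 (.l 4) (.l 4)))) (.n 0 (.n 2 (.n 0 (.l 4) (.l 4)) (.n 2 (.l 4) (.l 4))) (.n 2 (.n 2 (.l 4) (.l 4)) (.n 2 (.l 4) (.n 0 (.l 4) (.l 4)))))))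
    [(302996520960, 7046430720), (212600881152, 23622320128), (274877906944, 274877906944), (472446402560, 8589934592)] rfl (by decide +kernel)
theorem c1_m73_t7 : CovD 0 progs [(295950090240, 14092861440), (259845521408, 23622320128), (274877906944, 274877906944), (472446402560, 8589934592)] :=
  Pool.Agent.helper14.QF.covD_F chks_eq (.l 11)
    [(295950090240, 14092861440), (259845521408, 23622320128), (274877906944, 274877906944), (472446402560, 8589934592)] rfl (by decide +kernel)
end
mutual
theorem c1_m73_t9 : CovD 0 progs [(295950090240, 14092861440), (330712481792, 47244640256), (274877906944, 274877906944), (472446402560, 8589934592)] :=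
  Pool.Agent.helper14.QF.covD_F chks_eq (.l 11)
    [(295950090240, 14092861440), (330712481792, 47244640256), (274877906944, 274877906944), (472446402560, 8589934592)] rfl (by decide +kernel)
theorem c1_m73_t13 : CovD 0 progs [(288903659520, 7046430720), (212600881152, 23622320128), (274877906944, 274877906944), (489626271744, 8589934592)] :=
  Pool.Agent.helper14.QF.covD_F chks_eq (.n 0 (.n 0 (.l 8) (.l 8)) (.n 0 (.n 0 (.l 8) (.l 8)) (.n 2 (.l 4) (.l 4))))
    [(288903659520, 7046430720), (212600881152, 23622320128), (274877906944, 274877906944), (489626271744, 8589934592)] rfl (by decide +kernel)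
end
mutual
theorem c1_m73_t14 : CovD 0 progs [(299473305600, 3523215360), (212600881152, 23622320128), (274877906944, 274877906944), (489626271744, 8589934592)] :=
  Pool.Agent.helper14.QF.covD_F chks_eq (.n 0 (.n 0 (.n 2 (.l 4) (.l 4)) (.n 2 (.l 4) (.l 4))) (.n 0 (.n 2 (.l 4) (.n 0 (.l 4) (.l 4))) (.n 2 (.l 4) (.n 2 (.l 4) (.l 4)))))
    [(299473305600, 3523215360), (212600881152, 23622320128), (274877906944, 274877906944), (489626271744, 8589934592)] rfl (by decide +kernel)
theorem c1_m73_t15 : CovD 0 progs [(306519736320, 3523215360), (212600881152, 23622320128), (274877906944, 274877906944), (489626271744, 8589934592)] :=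
  Pool.Agent.helper14.QF.covD_F chks_eq (.n 0 (.n 0 (.n 2 (.n 0 (.l 4) (.l 4)) (.n 2 (.l 4) (.l 4))) (.n 2 (.n 2 (.l 4) (.l 4)) (.n 2 (.l 4) (.n 0 (.l 4) (.l 4))))) (.n 0 (.n 2 (.n 2 (.l 4) (.l 4)) (.n 0 (.n 2 (.l 4) (.l 4)) (.n 2 (.l 4) (.l 4)))) (.n 2 (.n 2 (.l 4) (.l 4)) (.n 2 (.l 4) (.n 0 (.l 4) (.l 4))))))
    [(306519736320, 3523215360), (212600881152, 23622320128), (274877906944, 274877906944), (489626271744, 8589934592)] rfl (by decide +kernel)
end
mutual
theorem c1_m73_t18 : CovD 0 progs [(295950090240, 14092861440), (259845521408, 23622320128), (274877906944, 274877906944), (489626271744, 8589934592)] :=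
  Pool.Agent.helper14.QF.covD_F chks_eq (.l 11)
    [(295950090240, 14092861440), (259845521408, 23622320128), (274877906944, 274877906944), (489626271744, 8589934592)] rfl (by decide +kernel)
theorem c1_m73_t20 : CovD 0 progs [(295950090240, 14092861440), (330712481792, 47244640256), (274877906944, 274877906944), (489626271744, 8589934592)] :=
  Pool.Agent.helper14.QF.covD_F chks_eq (.l 11)
    [(295950090240, 14092861440), (330712481792, 47244640256), (274877906944, 274877906944), (489626271744, 8589934592)] rfl (by decide +kernel)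
end
mutual
theorem c1_m73_t22 : CovD 0 progs [(288903659520, 7046430720), (283467841536, 94489280512), (274877906944, 274877906944), (506806140928, 8589934592)] :=
  Pool.Agent.helper14.QF.covD_F chks_eq (.n 0 (.n 0 (.n 2 (.l 8) (.l 8)) (.n 1 (.n 2 (.l 4) (.l 4)) (.l 11))) (.n 1 (.n 1 (.n 0 (.n 2 (.l 4) (.l 4)) (.n 2 (.l 4) (.n 0 (.l 4) (.l 4)))) (.l 11)) (.l 11)))
    [(288903659520, 7046430720), (283467841536, 94489280512), (274877906944, 274877906944), (506806140928, 8589934592)] rfl (by decide +kernel)
theorem c1_m73_t23 : CovD 0 progs [(299473305600, 3523215360), (212600881152, 23622320128), (274877906944, 274877906944), (506806140928, 8589934592)] :=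
  Pool.Agent.helper14.QF.covD_F chks_eq (.n 0 (.n 0 (.n 2 (.l 4) (.l 4)) (.n 2 (.l 4) (.n 2 (.l 4) (.l 4)))) (.n 0 (.n 2 (.n 0 (.l 4) (.l 4)) (.n 2 (.l 4) (.l 4))) (.n 2 (.n 0 (.l 4) (.l 4)) (.n 2 (.l 4) (.n 0 (.l 4) (.l 4))))))
    [(299473305600, 3523215360), (212600881152, 23622320128), (274877906944, 274877906944), (506806140928, 8589934592)] rfl (by decide +kernel)
end
mutual
theorem c1_m73_t24 : CovD 0 progs [(306519736320, 3523215360), (212600881152, 23622320128), (274877906944, 274877906944), (506806140928, 8589934592)] :=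
  Pool.Agent.helper14.QF.covD_F chks_eq (.n 0 (.n 0 (.n 2 (.n 2 (.l 4) (.l 4)) (.n 0 (.n 2 (.l 4) (.l 4)) (.n 2 (.l 4) (.l 4)))) (.n 2 (.n 2 (.l 4) (.l 4)) (.n 2 (.n 0 (.l 4) (.l 4)) (.n 2 (.l 4) (.l 4))))) (.n 0 (.n 2 (.n 2 (.l 4) (.l 4)) (.n 2 (.l 4) (.n 1 (.l 4) (.l 4)))) (.n 2 (.n 1 (.l 4) (.l 4)) (.n 2 (.l 4) (.n 0 (.l 4) (.l 4))))))
    [(306519736320, 3523215360), (212600881152, 23622320128), (274877906944, 274877906944), (506806140928, 8589934592)] rfl (by decide +kernel)
theorem c1_m73_t26 : CovD 0 progs [(302996520960, 7046430720), (259845521408, 23622320128), (274877906944, 274877906944), (506806140928, 8589934592)] :=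
  Pool.Agent.helper14.QF.covD_F chks_eq (.l 11)
    [(302996520960, 7046430720), (259845521408, 23622320128), (274877906944, 274877906944), (506806140928, 8589934592)] rfl (by decide +kernel)
end
mutual
theorem c1_m73_t28 : CovD 0 progs [(302996520960, 7046430720), (330712481792, 47244640256), (274877906944, 274877906944), (506806140928, 8589934592)] :=
  Pool.Agent.helper14.QF.covD_F chks_eq (.l 11)
    [(302996520960, 7046430720), (330712481792, 47244640256), (274877906944, 274877906944), (506806140928, 8589934592)] rfl (by decide +kernel)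
theorem c1_m73_t32 : CovD 0 progs [(288903659520, 7046430720), (283467841536, 94489280512), (274877906944, 274877906944), (523986010112, 8589934592)] :=
  Pool.Agent.helper14.QF.covD_F chks_eq (.n 0 (.n 1 (.n 0 (.n 2 (.l 4) (.l 4)) (.n 1 (.n 2 (.l 4) (.l 4)) (.l 11))) (.l 11)) (.n 1 (.n 0 (.n 1 (.n 2 (.l 4) (.n 0 (.l 4) (.l 4))) (.l 11)) (.n 1 (.n 0 (.n 2 (.l 4) (.l 4)) (.n 2 (.l 4) (.n 0 (.l 4) (.l 4)))) (.l 11))) (.l 11)))
    [(288903659520, 7046430720), (283467841536, 94489280512), (274877906944, 274877906944), (523986010112, 8589934592)] rfl (by decide +kernel)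
end
mutual
theorem c1_m73_t33 : CovD 0 progs [(302996520960, 7046430720), (212600881152, 23622320128), (137438953472, 137438953472), (523986010112, 8589934592)] :=
  Pool.Agent.helper14.QF.covD_F chks_eq (.n 0 (.n 0 (.n 0 (.n 0 (.l 4) (.l 4)) (.n 0 (.l 4) (.l 4))) (.n 0 (.n 2 (.l 4) (.l 4)) (.n 2 (.l 4) (.n 0 (.l 4) (.l 4))))) (.n 0 (.n 0 (.n 2 (.l 4) (.l 4)) (.n 2 (.l 4) (.l 4))) (.n 2 (.l 4) (.l 4))))
    [(302996520960, 7046430720), (212600881152, 23622320128), (137438953472, 137438953472), (523986010112, 8589934592)] rfl (by decide +kernel)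
theorem c1_m73_t34 : CovD 0 progs [(302996520960, 7046430720), (212600881152, 23622320128), (412316860416, 137438953472), (523986010112, 8589934592)] :=
  Pool.Agent.helper14.QF.covD_F chks_eq (.n 2 (.n 0 (.n 0 (.n 0 (.l 4) (.l 4)) (.n 0 (.n 0 (.l 4) (.l 4)) (.n 0 (.l 4) (.l 4)))) (.n 0 (.n 0 (.n 0 (.l 4) (.l 4)) (.l 4)) (.l 4))) (.n 0 (.n 0 (.n 0 (.l 4) (.n 0 (.l 4) (.l 4))) (.n 0 (.n 0 (.l 4) (.l 4)) (.n 2 (.l 4) (.l 4)))) (.n 0 (.n 0 (.n 2 (.l 4) (.l 4)) (.n 0 (.l 4) (.l 4))) (.n 0 (.l 4) (.l 4)))))
    [(302996520960, 7046430720), (212600881152, 23622320128), (412316860416, 137438953472), (523986010112, 8589934592)] rfl (by decide +kernel)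
end
mutual
theorem c1_m73_t36 : CovD 0 progs [(302996520960, 7046430720), (259845521408, 23622320128), (274877906944, 274877906944), (523986010112, 8589934592)] :=
  Pool.Agent.helper14.QF.covD_F chks_eq (.l 11)
    [(302996520960, 7046430720), (259845521408, 23622320128), (274877906944, 274877906944), (523986010112, 8589934592)] rfl (by decide +kernel)
theorem c1_m73_t38 : CovD 0 progs [(302996520960, 7046430720), (330712481792, 47244640256), (274877906944, 274877906944), (523986010112, 8589934592)] :=
  Pool.Agent.helper14.QF.covD_F chks_eq (.l 11)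
    [(302996520960, 7046430720), (330712481792, 47244640256), (274877906944, 274877906944), (523986010112, 8589934592)] rfl (by decide +kernel)
end
mutual
theorem c1_m73_t41 : CovD 0 progs [(288903659520, 7046430720), (212600881152, 23622320128), (274877906944, 274877906944), (541165879296, 8589934592)] :=
  Pool.Agent.helper14.QF.covD_F chks_eq (.n 0 (.n 0 (.n 2 (.l 4) (.l 4)) (.n 2 (.l 4) (.n 0 (.l 4) (.l 4)))) (.n 0 (.n 0 (.n 2 (.l 4) (.l 4)) (.n 2 (.l 4) (.n 0 (.l 4) (.l 4)))) (.n 0 (.n 2 (.n 0 (.l 4) (.l 4)) (.n 2 (.l 4) (.l 4))) (.n 2 (.n 0 (.l 4) (.l 4)) (.n 2 (.l 4) (.n 0 (.l 4) (.l 4)))))))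
    [(288903659520, 7046430720), (212600881152, 23622320128), (274877906944, 274877906944), (541165879296, 8589934592)] rfl (by decide +kernel)
theorem c1_m73_t42 : CovD 0 progs [(302996520960, 7046430720), (212600881152, 23622320128), (137438953472, 137438953472), (541165879296, 8589934592)] :=
  Pool.Agent.helper14.QF.covD_F chks_eq (.n 0 (.n 0 (.n 0 (.n 2 (.l 4) (.l 4)) (.n 3 (.l 4) (.n 0 (.l 4) (.l 4)))) (.n 0 (.n 0 (.n 2 (.l 4) (.l 4)) (.n 2 (.l 4) (.l 4))) (.n 2 (.l 4) (.l 4)))) (.n 0 (.n 1 (.l 4) (.l 4)) (.n 0 (.n 1 (.l 4) (.l 4)) (.n 2 (.l 4) (.l 4)))))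
    [(302996520960, 7046430720), (212600881152, 23622320128), (137438953472, 137438953472), (541165879296, 8589934592)] rfl (by decide +kernel)
end
mutual
theorem c1_m73_t43 : CovD 0 progs [(302996520960, 7046430720), (212600881152, 23622320128), (343597383680, 68719476736), (541165879296, 8589934592)] :=
  Pool.Agent.helper14.QF.covD_F chks_eq (.n 0 (.n 0 (.n 0 (.n 0 (.l 4) (.l 4)) (.n 0 (.l 4) (.l 4))) (.n 0 (.n 0 (.l 4) (.l 4)) (.n 0 (.l 4) (.l 4)))) (.n 0 (.l 4) (.n 0 (.l 4) (.l 4))))
    [(302996520960, 7046430720), (212600881152, 23622320128), (343597383680, 68719476736), (541165879296, 8589934592)] rfl (by decide +kernel)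
theorem c1_m73_t44 : CovD 0 progs [(302996520960, 7046430720), (212600881152, 23622320128), (481036337152, 68719476736), (541165879296, 8589934592)] :=
  Pool.Agent.helper14.QF.covD_F chks_eq (.n 0 (.n 0 (.n 0 (.n 0 (.l 4) (.l 4)) (.n 2 (.l 4) (.l 4))) (.n 0 (.n 2 (.l 4) (.l 4)) (.n 1 (.l 4) (.l 4)))) (.n 0 (.n 0 (.l 4) (.l 4)) (.n 0 (.n 0 (.l 4) (.l 4)) (.n 0 (.l 4) (.l 4)))))
    [(302996520960, 7046430720), (212600881152, 23622320128), (481036337152, 68719476736), (541165879296, 8589934592)] rfl (by decide +kernel)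
end
mutual
theorem c1_m73_t48 : CovD 0 progs [(295950090240, 14092861440), (259845521408, 23622320128), (274877906944, 274877906944), (541165879296, 8589934592)] :=
  Pool.Agent.helper14.QF.covD_F chks_eq (.l 11)
    [(295950090240, 14092861440), (259845521408, 23622320128), (274877906944, 274877906944), (541165879296, 8589934592)] rfl (by decide +kernel)
theorem c1_m73_t50 : CovD 0 progs [(295950090240, 14092861440), (330712481792, 47244640256), (274877906944, 274877906944), (541165879296, 8589934592)] :=
  Pool.Agent.helper14.QF.covD_F chks_eq (.l 11)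
    [(295950090240, 14092861440), (330712481792, 47244640256), (274877906944, 274877906944), (541165879296, 8589934592)] rfl (by decide +kernel)
end
theorem c1_m73_t2 : CovD 0 progs [(295950090240, 14092861440), (283467841536, 94489280512), (274877906944, 274877906944), (429496729600, 17179869184)] :=
  covD_split 1 (by decide +kernel) c1_m73_t0 c1_m73_t1
theorem c1_m73_t6 : CovD 0 progs [(295950090240, 14092861440), (212600881152, 23622320128), (274877906944, 274877906944), (472446402560, 8589934592)] :=
  covD_split 0 (by decide +kernel) c1_m73_t4 c1_m73_t5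
theorem c1_m73_t8 : CovD 0 progs [(295950090240, 14092861440), (236223201280, 47244640256), (274877906944, 274877906944), (472446402560, 8589934592)] :=
  covD_split 1 (by decide +kernel) c1_m73_t6 c1_m73_t7
theorem c1_m73_t10 : CovD 0 progs [(295950090240, 14092861440), (283467841536, 94489280512), (274877906944, 274877906944), (472446402560, 8589934592)] :=
  covD_split 1 (by decide +kernel) c1_m73_t8 c1_m73_t9
theorem c1_m73_t11 : CovD 0 progs [(295950090240, 14092861440), (283467841536, 94489280512), (274877906944, 274877906944), (463856467968, 17179869184)] :=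
  covD_split 3 (by decide +kernel) c1_m73_t3 c1_m73_t10
theorem c1_m73_t12 : CovD 0 progs [(295950090240, 14092861440), (283467841536, 94489280512), (274877906944, 274877906944), (446676598784, 34359738368)] :=
  covD_split 3 (by decide +kernel) c1_m73_t2 c1_m73_t11
theorem c1_m73_t16 : CovD 0 progs [(302996520960, 7046430720), (212600881152, 23622320128), (274877906944, 274877906944), (489626271744, 8589934592)] :=
  covD_split 0 (by decide +kernel) c1_m73_t14 c1_m73_t15
theorem c1_m73_t17 : CovD 0 progs [(295950090240, 14092861440), (212600881152, 23622320128), (274877906944, 274877906944), (489626271744, 8589934592)] :=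
  covD_split 0 (by decide +kernel) c1_m73_t13 c1_m73_t16
theorem c1_m73_t19 : CovD 0 progs [(295950090240, 14092861440), (236223201280, 47244640256), (274877906944, 274877906944), (489626271744, 8589934592)] :=
  covD_split 1 (by decide +kernel) c1_m73_t17 c1_m73_t18
theorem c1_m73_t21 : CovD 0 progs [(295950090240, 14092861440), (283467841536, 94489280512), (274877906944, 274877906944), (489626271744, 8589934592)] :=
  covD_split 1 (by decide +kernel) c1_m73_t19 c1_m73_t20
theorem c1_m73_t25 : CovD 0 progs [(302996520960, 7046430720), (212600881152, 23622320128), (274877906944, 274877906944), (506806140928, 8589934592)] :=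
  covD_split 0 (by decide +kernel) c1_m73_t23 c1_m73_t24
theorem c1_m73_t27 : CovD 0 progs [(302996520960, 7046430720), (236223201280, 47244640256), (274877906944, 274877906944), (506806140928, 8589934592)] :=
  covD_split 1 (by decide +kernel) c1_m73_t25 c1_m73_t26
theorem c1_m73_t29 : CovD 0 progs [(302996520960, 7046430720), (283467841536, 94489280512), (274877906944, 274877906944), (506806140928, 8589934592)] :=
  covD_split 1 (by decide +kernel) c1_m73_t27 c1_m73_t28
theorem c1_m73_t30 : CovD 0 progs [(295950090240, 14092861440), (283467841536, 94489280512), (274877906944, 274877906944), (506806140928, 8589934592)] :=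
  covD_split 0 (by decide +kernel) c1_m73_t22 c1_m73_t29
theorem c1_m73_t31 : CovD 0 progs [(295950090240, 14092861440), (283467841536, 94489280512), (274877906944, 274877906944), (498216206336, 17179869184)] :=
  covD_split 3 (by decide +kernel) c1_m73_t21 c1_m73_t30
theorem c1_m73_t35 : CovD 0 progs [(302996520960, 7046430720), (212600881152, 23622320128), (274877906944, 274877906944), (523986010112, 8589934592)] :=
  covD_split 2 (by decide +kernel) c1_m73_t33 c1_m73_t34
theorem c1_m73_t37 : CovD 0 progs [(302996520960, 7046430720), (236223201280, 47244640256), (274877906944, 274877906944), (523986010112, 8589934592)] :=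
  covD_split 1 (by decide +kernel) c1_m73_t35 c1_m73_t36
theorem c1_m73_t39 : CovD 0 progs [(302996520960, 7046430720), (283467841536, 94489280512), (274877906944, 274877906944), (523986010112, 8589934592)] :=
  covD_split 1 (by decide +kernel) c1_m73_t37 c1_m73_t38
theorem c1_m73_t40 : CovD 0 progs [(295950090240, 14092861440), (283467841536, 94489280512), (274877906944, 274877906944), (523986010112, 8589934592)] :=
  covD_split 0 (by decide +kernel) c1_m73_t32 c1_m73_t39
theorem c1_m73_t45 : CovD 0 progs [(302996520960, 7046430720), (212600881152, 23622320128), (412316860416, 137438953472), (541165879296, 8589934592)] :=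
  covD_split 2 (by decide +kernel) c1_m73_t43 c1_m73_t44
theorem c1_m73_t46 : CovD 0 progs [(302996520960, 7046430720), (212600881152, 23622320128), (274877906944, 274877906944), (541165879296, 8589934592)] :=
  covD_split 2 (by decide +kernel) c1_m73_t42 c1_m73_t45
theorem c1_m73_t47 : CovD 0 progs [(295950090240, 14092861440), (212600881152, 23622320128), (274877906944, 274877906944), (541165879296, 8589934592)] :=
  covD_split 0 (by decide +kernel) c1_m73_t41 c1_m73_t46
theorem c1_m73_t49 : CovD 0 progs [(295950090240, 14092861440), (236223201280, 47244640256), (274877906944, 274877906944), (541165879296, 8589934592)] :=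
  covD_split 1 (by decide +kernel) c1_m73_t47 c1_m73_t48
theorem c1_m73_t51 : CovD 0 progs [(295950090240, 14092861440), (283467841536, 94489280512), (274877906944, 274877906944), (541165879296, 8589934592)] :=
  covD_split 1 (by decide +kernel) c1_m73_t49 c1_m73_t50
theorem c1_m73_t52 : CovD 0 progs [(295950090240, 14092861440), (283467841536, 94489280512), (274877906944, 274877906944), (532575944704, 17179869184)] :=
  covD_split 3 (by decide +kernel) c1_m73_t40 c1_m73_t51
theorem c1_m73_t53 : CovD 0 progs [(295950090240, 14092861440), (283467841536, 94489280512), (274877906944, 274877906944), (515396075520, 34359738368)] :=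
  covD_split 3 (by decide +kernel) c1_m73_t31 c1_m73_t52
theorem c1_m73 : CovD 0 progs [(295950090240, 14092861440), (283467841536, 94489280512), (274877906944, 274877906944), (481036337152, 68719476736)] :=
  covD_split 3 (by decide +kernel) c1_m73_t12 c1_m73_t53

end Pool.Agent.helper71.FJ.Crt.QMa
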