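import Pool.Agent.helper71.FJ.Crt.QMaP

/-!
Generated certificates.
-/

namespace Pool.Agent.helper71.FJ.Crt.QMa

open Pool.Agent.helper31.IA (Z Op)
open Pool.Agent.helper31.IC

mutual
theorem c1_m74_t0 : CovD 0 progs [(310923755520, 880803840), (212600881152, 23622320128), (137438953472, 137438953472), (481036337152, 68719476736)] :=
  Pool.Agent.helper14.QF.covD_F chks_eq (.n 2 (.n 3 (.n 3 (.n 0 (.l 4) (.l 4)) (.n 3 (.l 4) (.l 4))) (.n 3 (.n 2 (.l 4) (.l 4)) (.n 3 (.l 4) (.l 4)))) (.n 3 (.n 3 (.n 0 (.l 4) (.l 4)) (.n 3 (.l 4) (.l 4))) (.n 3 (.n 2 (.l 4) (.l 4)) (.n 3 (.l 4) (.l 4)))))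
    [(310923755520, 880803840), (212600881152, 23622320128), (137438953472, 137438953472), (481036337152, 68719476736)] rfl (by decide +kernel)
theorem c1_m74_t1 : CovD 0 progs [(312685363200, 880803840), (212600881152, 23622320128), (137438953472, 137438953472), (481036337152, 68719476736)] :=
  Pool.Agent.helper14.QF.covD_F chks_eq (.n 2 (.n 3 (.n 3 (.n 3 (.l 4) (.l 4)) (.n 3 (.l 4) (.l 4))) (.n 3 (.l 4) (.n 3 (.l 4) (.l 4)))) (.n 3 (.n 3 (.n 3 (.l 4) (.l 4)) (.n 3 (.l 4) (.l 4))) (.n 3 (.l 4) (.n 3 (.l 4) (.l 4)))))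
    [(312685363200, 880803840), (212600881152, 23622320128), (137438953472, 137438953472), (481036337152, 68719476736)] rfl (by decide +kernel)
end
mutual
theorem c1_m74_t3 : CovD 0 progs [(314446970880, 880803840), (212600881152, 23622320128), (137438953472, 137438953472), (481036337152, 68719476736)] :=
  Pool.Agent.helper14.QF.covD_F chks_eq (.n 2 (.n 3 (.n 3 (.n 3 (.l 4) (.l 4)) (.n 3 (.l 4) (.l 4))) (.n 3 (.n 3 (.l 4) (.l 4)) (.n 3 (.l 4) (.l 4)))) (.n 3 (.n 3 (.n 3 (.l 4) (.l 4)) (.n 3 (.l 4) (.l 4))) (.n 3 (.n 3 (.l 4) (.l 4)) (.n 3 (.l 4) (.l 4)))))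
    [(314446970880, 880803840), (212600881152, 23622320128), (137438953472, 137438953472), (481036337152, 68719476736)] rfl (by decide +kernel)
theorem c1_m74_t4 : CovD 0 progs [(316208578560, 880803840), (212600881152, 23622320128), (137438953472, 137438953472), (481036337152, 68719476736)] :=
  Pool.Agent.helper14.QF.covD_F chks_eq (.n 2 (.n 3 (.n 3 (.n 3 (.l 4) (.l 4)) (.l 4)) (.n 3 (.n 3 (.l 4) (.l 4)) (.n 3 (.l 4) (.l 4)))) (.n 3 (.n 3 (.n 3 (.l 4) (.l 4)) (.n 0 (.l 4) (.l 4))) (.n 3 (.n 3 (.l 4) (.l 4)) (.n 3 (.l 4) (.l 4)))))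
    [(316208578560, 880803840), (212600881152, 23622320128), (137438953472, 137438953472), (481036337152, 68719476736)] rfl (by decide +kernel)
end
mutual
theorem c1_m74_t7 : CovD 0 progs [(311804559360, 1761607680), (212600881152, 23622320128), (343597383680, 68719476736), (481036337152, 68719476736)] :=
  Pool.Agent.helper14.QF.covD_F chks_eq (.n 0 (.n 3 (.n 3 (.n 0 (.l 4) (.l 4)) (.n 3 (.l 4) (.l 4))) (.n 3 (.n 2 (.l 4) (.l 4)) (.n 3 (.l 4) (.l 4)))) (.n 3 (.n 3 (.n 3 (.l 4) (.l 4)) (.n 3 (.l 4) (.l 4))) (.n 3 (.n 1 (.l 4) (.l 4)) (.n 3 (.l 4) (.l 4)))))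
    [(311804559360, 1761607680), (212600881152, 23622320128), (343597383680, 68719476736), (481036337152, 68719476736)] rfl (by decide +kernel)
theorem c1_m74_t8 : CovD 0 progs [(315327774720, 1761607680), (212600881152, 23622320128), (343597383680, 68719476736), (481036337152, 68719476736)] :=
  Pool.Agent.helper14.QF.covD_F chks_eq (.n 0 (.n 3 (.n 3 (.n 3 (.l 4) (.l 4)) (.n 3 (.l 4) (.l 4))) (.n 3 (.n 3 (.l 4) (.l 4)) (.n 3 (.l 4) (.l 4)))) (.n 3 (.n 3 (.n 3 (.l 4) (.l 4)) (.n 2 (.l 4) (.l 4))) (.n 3 (.n 3 (.l 4) (.l 4)) (.n 3 (.l 4) (.l 4)))))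
    [(315327774720, 1761607680), (212600881152, 23622320128), (343597383680, 68719476736), (481036337152, 68719476736)] rfl (by decide +kernel)
end
mutual
theorem c1_m74_t10 : CovD 0 progs [(311804559360, 1761607680), (212600881152, 23622320128), (446676598784, 34359738368), (481036337152, 68719476736)] :=
  Pool.Agent.helper14.QF.covD_F chks_eq (.n 0 (.n 3 (.n 3 (.n 0 (.l 4) (.l 4)) (.n 3 (.l 4) (.l 4))) (.n 3 (.l 4) (.n 3 (.l 4) (.l 4)))) (.n 3 (.n 3 (.n 0 (.l 4) (.l 4)) (.n 3 (.l 4) (.l 4))) (.n 3 (.l 4) (.n 3 (.l 4) (.l 4)))))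
    [(311804559360, 1761607680), (212600881152, 23622320128), (446676598784, 34359738368), (481036337152, 68719476736)] rfl (by decide +kernel)
theorem c1_m74_t11 : CovD 0 progs [(315327774720, 1761607680), (212600881152, 23622320128), (446676598784, 34359738368), (481036337152, 68719476736)] :=
  Pool.Agent.helper14.QF.covD_F chks_eq (.n 0 (.n 3 (.n 3 (.n 3 (.l 4) (.l 4)) (.n 3 (.l 4) (.l 4))) (.n 3 (.n 0 (.l 4) (.l 4)) (.n 3 (.l 4) (.l 4)))) (.n 3 (.n 3 (.n 3 (.l 4) (.l 4)) (.l 4)) (.n 3 (.n 3 (.l 4) (.l 4)) (.n 3 (.l 4) (.l 4)))))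
    [(315327774720, 1761607680), (212600881152, 23622320128), (446676598784, 34359738368), (481036337152, 68719476736)] rfl (by decide +kernel)
end
mutual
theorem c1_m74_t13 : CovD 0 progs [(311804559360, 1761607680), (212600881152, 23622320128), (515396075520, 34359738368), (481036337152, 68719476736)] :=
  Pool.Agent.helper14.QF.covD_F chks_eq (.n 0 (.n 3 (.n 3 (.n 0 (.l 4) (.l 4)) (.n 3 (.l 4) (.l 4))) (.n 3 (.l 4) (.n 3 (.l 4) (.l 4)))) (.n 3 (.n 3 (.n 0 (.l 4) (.l 4)) (.n 3 (.l 4) (.l 4))) (.n 3 (.l 4) (.n 3 (.l 4) (.l 4)))))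
    [(311804559360, 1761607680), (212600881152, 23622320128), (515396075520, 34359738368), (481036337152, 68719476736)] rfl (by decide +kernel)
theorem c1_m74_t14 : CovD 0 progs [(315327774720, 1761607680), (212600881152, 23622320128), (515396075520, 34359738368), (481036337152, 68719476736)] :=
  Pool.Agent.helper14.QF.covD_F chks_eq (.n 0 (.n 3 (.n 3 (.n 3 (.l 4) (.l 4)) (.n 3 (.l 4) (.l 4))) (.n 3 (.n 0 (.l 4) (.l 4)) (.n 3 (.l 4) (.l 4)))) (.n 3 (.n 3 (.n 3 (.l 4) (.l 4)) (.l 4)) (.n 3 (.n 3 (.l 4) (.l 4)) (.n 3 (.l 4) (.l 4)))))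
    [(315327774720, 1761607680), (212600881152, 23622320128), (515396075520, 34359738368), (481036337152, 68719476736)] rfl (by decide +kernel)
end
mutual
theorem c1_m74_t19 : CovD 0 progs [(318850990080, 1761607680), (212600881152, 23622320128), (137438953472, 137438953472), (481036337152, 68719476736)] :=
  Pool.Agent.helper14.QF.covD_F chks_eq (.n 2 (.n 3 (.n 3 (.n 3 (.n 0 (.l 4) (.l 4)) (.l 4)) (.n 3 (.l 4) (.l 4))) (.n 3 (.n 0 (.n 3 (.l 4) (.l 4)) (.n 3 (.l 4) (.l 4))) (.n 3 (.l 4) (.l 4)))) (.n 3 (.n 3 (.n 3 (.n 0 (.l 4) (.l 4)) (.l 4)) (.n 3 (.l 4) (.l 4))) (.n 3 (.n 0 (.n 3 (.l 4) (.l 4)) (.n 3 (.l 4) (.l 4))) (.n 3 (.l 4) (.l 4)))))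
    [(318850990080, 1761607680), (212600881152, 23622320128), (137438953472, 137438953472), (481036337152, 68719476736)] rfl (by decide +kernel)
theorem c1_m74_t20 : CovD 0 progs [(317970186240, 880803840), (212600881152, 23622320128), (412316860416, 137438953472), (481036337152, 68719476736)] :=
  Pool.Agent.helper14.QF.covD_F chks_eq (.n 2 (.n 3 (.n 3 (.n 3 (.l 4) (.l 4)) (.l 4)) (.n 3 (.n 3 (.l 4) (.l 4)) (.n 3 (.l 4) (.l 4)))) (.n 3 (.n 1 (.n 3 (.n 3 (.l 4) (.l 4)) (.l 4)) (.n 3 (.n 3 (.l 4) (.l 4)) (.l 4))) (.n 3 (.n 3 (.n 0 (.l 4) (.l 4)) (.l 4)) (.n 3 (.l 4) (.l 4)))))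
    [(317970186240, 880803840), (212600881152, 23622320128), (412316860416, 137438953472), (481036337152, 68719476736)] rfl (by decide +kernel)
end
mutual
theorem c1_m74_t21 : CovD 0 progs [(319731793920, 880803840), (212600881152, 23622320128), (412316860416, 137438953472), (481036337152, 68719476736)] :=
  Pool.Agent.helper14.QF.covD_F chks_eq (.n 2 (.n 3 (.n 3 (.n 3 (.l 4) (.l 4)) (.n 2 (.l 4) (.l 4))) (.n 3 (.n 3 (.l 4) (.l 4)) (.n 0 (.l 4) (.l 4)))) (.n 3 (.n 3 (.n 3 (.n 0 (.l 4) (.l 4)) (.l 4)) (.n 3 (.l 4) (.l 4))) (.n 3 (.n 3 (.l 4) (.l 4)) (.n 2 (.l 4) (.l 4)))))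
    [(319731793920, 880803840), (212600881152, 23622320128), (412316860416, 137438953472), (481036337152, 68719476736)] rfl (by decide +kernel)
theorem c1_m74_t24 : CovD 0 progs [(322374205440, 1761607680), (212600881152, 23622320128), (137438953472, 137438953472), (481036337152, 68719476736)] :=
  Pool.Agent.helper14.QF.covD_F chks_eq (.n 2 (.n 3 (.n 3 (.l 4) (.n 3 (.l 4) (.n 0 (.l 4) (.l 4)))) (.n 3 (.n 3 (.l 4) (.l 4)) (.n 0 (.l 4) (.l 4)))) (.n 3 (.n 3 (.l 4) (.n 0 (.n 3 (.l 4) (.l 4)) (.n 3 (.l 4) (.l 4)))) (.n 3 (.n 3 (.l 4) (.l 4)) (.n 0 (.l 4) (.l 4)))))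
    [(322374205440, 1761607680), (212600881152, 23622320128), (137438953472, 137438953472), (481036337152, 68719476736)] rfl (by decide +kernel)
end
mutual
theorem c1_m74_t25 : CovD 0 progs [(321493401600, 880803840), (212600881152, 23622320128), (412316860416, 137438953472), (481036337152, 68719476736)] :=
  Pool.Agent.helper14.QF.covD_F chks_eq (.n 2 (.n 3 (.n 3 (.l 4) (.n 3 (.l 4) (.l 4))) (.n 3 (.n 3 (.l 4) (.l 4)) (.l 4))) (.n 3 (.n 3 (.n 1 (.l 4) (.l 4)) (.n 3 (.l 4) (.l 4))) (.n 3 (.n 3 (.l 4) (.l 4)) (.n 0 (.l 4) (.l 4)))))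
    [(321493401600, 880803840), (212600881152, 23622320128), (412316860416, 137438953472), (481036337152, 68719476736)] rfl (by decide +kernel)
theorem c1_m74_t26 : CovD 0 progs [(323255009280, 880803840), (212600881152, 23622320128), (412316860416, 137438953472), (481036337152, 68719476736)] :=
  Pool.Agent.helper14.QF.covD_F chks_eq (.n 2 (.n 3 (.n 3 (.l 4) (.n 3 (.l 4) (.l 4))) (.n 3 (.n 0 (.l 4) (.l 4)) (.l 4))) (.n 3 (.n 3 (.n 1 (.l 4) (.l 4)) (.n 3 (.l 4) (.l 4))) (.n 3 (.n 3 (.l 4) (.l 4)) (.l 4))))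
    [(323255009280, 880803840), (212600881152, 23622320128), (412316860416, 137438953472), (481036337152, 68719476736)] rfl (by decide +kernel)
end
mutual
theorem c1_m74_t31 : CovD 0 progs [(331182243840, 7046430720), (212600881152, 23622320128), (274877906944, 274877906944), (420906795008, 8589934592)] :=
  Pool.Agent.helper14.QF.covD_F chks_eq (.n 0 (.n 0 (.n 2 (.n 2 (.l 4) (.l 4)) (.n 2 (.l 4) (.n 0 (.l 4) (.l 4)))) (.n 2 (.n 2 (.l 4) (.l 4)) (.n 0 (.n 2 (.l 4) (.l 4)) (.n 2 (.l 4) (.l 4))))) (.n 0 (.n 2 (.n 0 (.l 8) (.l 8)) (.n 2 (.l 4) (.l 4))) (.n 2 (.l 8) (.n 0 (.l 8) (.l 8)))))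
    [(331182243840, 7046430720), (212600881152, 23622320128), (274877906944, 274877906944), (420906795008, 8589934592)] rfl (by decide +kernel)
theorem c1_m74_t32 : CovD 0 progs [(331182243840, 7046430720), (212600881152, 23622320128), (274877906944, 274877906944), (438086664192, 8589934592)] :=
  Pool.Agent.helper14.QF.covD_F chks_eq (.n 0 (.n 0 (.n 2 (.n 2 (.l 4) (.l 4)) (.n 0 (.n 2 (.l 4) (.l 4)) (.n 2 (.l 4) (.l 4)))) (.n 2 (.n 0 (.l 8) (.l 8)) (.n 2 (.l 4) (.n 0 (.l 4) (.l 4))))) (.n 0 (.n 2 (.l 8) (.n 2 (.l 4) (.l 4))) (.n 2 (.l 8) (.l 8))))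
    [(331182243840, 7046430720), (212600881152, 23622320128), (274877906944, 274877906944), (438086664192, 8589934592)] rfl (by decide +kernel)
end
mutual
theorem c1_m74_t34 : CovD 0 progs [(331182243840, 7046430720), (212600881152, 23622320128), (274877906944, 274877906944), (455266533376, 8589934592)] :=
  Pool.Agent.helper14.QF.covD_F chks_eq (.n 0 (.n 0 (.n 2 (.n 2 (.l 4) (.l 4)) (.n 0 (.n 2 (.l 4) (.l 4)) (.n 2 (.l 4) (.l 4)))) (.n 2 (.n 0 (.l 8) (.l 8)) (.n 2 (.l 4) (.l 4)))) (.n 0 (.n 2 (.l 8) (.n 0 (.l 8) (.l 8))) (.n 2 (.l 8) (.l 8))))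
    [(331182243840, 7046430720), (212600881152, 23622320128), (274877906944, 274877906944), (455266533376, 8589934592)] rfl (by decide +kernel)
theorem c1_m74_t35 : CovD 0 progs [(331182243840, 7046430720), (212600881152, 23622320128), (274877906944, 274877906944), (472446402560, 8589934592)] :=
  Pool.Agent.helper14.QF.covD_F chks_eq (.n 0 (.n 0 (.n 2 (.n 0 (.l 4) (.l 8)) (.n 2 (.l 4) (.n 0 (.l 4) (.l 4)))) (.n 2 (.l 8) (.n 0 (.l 4) (.l 8)))) (.n 0 (.n 2 (.l 8) (.l 8)) (.n 1 (.l 8) (.l 8))))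
    [(331182243840, 7046430720), (212600881152, 23622320128), (274877906944, 274877906944), (472446402560, 8589934592)] rfl (by decide +kernel)
end
mutual
theorem c1_m74_t38 : CovD 0 progs [(331182243840, 7046430720), (212600881152, 23622320128), (274877906944, 274877906944), (515396075520, 34359738368)] :=
  Pool.Agent.helper14.QF.covD_F chks_eq (.n 3 (.n 0 (.n 0 (.n 2 (.n 3 (.l 8) (.l 8)) (.n 2 (.n 3 (.l 4) (.l 4)) (.n 3 (.l 4) (.l 4)))) (.n 2 (.n 0 (.l 8) (.l 8)) (.n 3 (.l 8) (.l 8)))) (.n 0 (.n 2 (.l 8) (.n 0 (.l 8) (.l 8))) (.n 2 (.l 8) (.l 8)))) (.n 0 (.n 0 (.n 0 (.n 2 (.l 8) (.l 8)) (.n 2 (.l 8) (.l 8))) (.n 2 (.l 8) (.l 8))) (.n 0 (.n 1 (.l 8) (.l 8)) (.l 8))))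
    [(331182243840, 7046430720), (212600881152, 23622320128), (274877906944, 274877906944), (515396075520, 34359738368)] rfl (by decide +kernel)
theorem c1_m74_t41 : CovD 0 progs [(324135813120, 14092861440), (259845521408, 23622320128), (274877906944, 274877906944), (481036337152, 68719476736)] :=
  Pool.Agent.helper14.QF.covD_F chks_eq (.l 11)
    [(324135813120, 14092861440), (259845521408, 23622320128), (274877906944, 274877906944), (481036337152, 68719476736)] rfl (by decide +kernel)
theorem c1_m74_t43 : CovD 0 progs [(324135813120, 14092861440), (330712481792, 47244640256), (274877906944, 274877906944), (481036337152, 68719476736)] :=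
  Pool.Agent.helper14.QF.covD_F chks_eq (.l 11)
    [(324135813120, 14092861440), (330712481792, 47244640256), (274877906944, 274877906944), (481036337152, 68719476736)] rfl (by decide +kernel)
end
theorem c1_m74_t2 : CovD 0 progs [(311804559360, 1761607680), (212600881152, 23622320128), (137438953472, 137438953472), (481036337152, 68719476736)] :=
  covD_split 0 (by decide +kernel) c1_m74_t0 c1_m74_t1
theorem c1_m74_t5 : CovD 0 progs [(315327774720, 1761607680), (212600881152, 23622320128), (137438953472, 137438953472), (481036337152, 68719476736)] :=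
  covD_split 0 (by decide +kernel) c1_m74_t3 c1_m74_t4
theorem c1_m74_t6 : CovD 0 progs [(313566167040, 3523215360), (212600881152, 23622320128), (137438953472, 137438953472), (481036337152, 68719476736)] :=
  covD_split 0 (by decide +kernel) c1_m74_t2 c1_m74_t5
theorem c1_m74_t9 : CovD 0 progs [(313566167040, 3523215360), (212600881152, 23622320128), (343597383680, 68719476736), (481036337152, 68719476736)] :=
  covD_split 0 (by decide +kernel) c1_m74_t7 c1_m74_t8
theorem c1_m74_t12 : CovD 0 progs [(313566167040, 3523215360), (212600881152, 23622320128), (446676598784, 34359738368), (481036337152, 68719476736)] :=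
  covD_split 0 (by decide +kernel) c1_m74_t10 c1_m74_t11
theorem c1_m74_t15 : CovD 0 progs [(313566167040, 3523215360), (212600881152, 23622320128), (515396075520, 34359738368), (481036337152, 68719476736)] :=
  covD_split 0 (by decide +kernel) c1_m74_t13 c1_m74_t14
theorem c1_m74_t16 : CovD 0 progs [(313566167040, 3523215360), (212600881152, 23622320128), (481036337152, 68719476736), (481036337152, 68719476736)] :=
  covD_split 2 (by decide +kernel) c1_m74_t12 c1_m74_t15
theorem c1_m74_t17 : CovD 0 progs [(313566167040, 3523215360), (212600881152, 23622320128), (412316860416, 137438953472), (481036337152, 68719476736)] :=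
  covD_split 2 (by decide +kernel) c1_m74_t9 c1_m74_t16
theorem c1_m74_t18 : CovD 0 progs [(313566167040, 3523215360), (212600881152, 23622320128), (274877906944, 274877906944), (481036337152, 68719476736)] :=
  covD_split 2 (by decide +kernel) c1_m74_t6 c1_m74_t17
theorem c1_m74_t22 : CovD 0 progs [(318850990080, 1761607680), (212600881152, 23622320128), (412316860416, 137438953472), (481036337152, 68719476736)] :=
  covD_split 0 (by decide +kernel) c1_m74_t20 c1_m74_t21
theorem c1_m74_t23 : CovD 0 progs [(318850990080, 1761607680), (212600881152, 23622320128), (274877906944, 274877906944), (481036337152, 68719476736)] :=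
  covD_split 2 (by decide +kernel) c1_m74_t19 c1_m74_t22
theorem c1_m74_t27 : CovD 0 progs [(322374205440, 1761607680), (212600881152, 23622320128), (412316860416, 137438953472), (481036337152, 68719476736)] :=
  covD_split 0 (by decide +kernel) c1_m74_t25 c1_m74_t26
theorem c1_m74_t28 : CovD 0 progs [(322374205440, 1761607680), (212600881152, 23622320128), (274877906944, 274877906944), (481036337152, 68719476736)] :=
  covD_split 2 (by decide +kernel) c1_m74_t24 c1_m74_t27
theorem c1_m74_t29 : CovD 0 progs [(320612597760, 3523215360), (212600881152, 23622320128), (274877906944, 274877906944), (481036337152, 68719476736)] :=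
  covD_split 0 (by decide +kernel) c1_m74_t23 c1_m74_t28
theorem c1_m74_t30 : CovD 0 progs [(317089382400, 7046430720), (212600881152, 23622320128), (274877906944, 274877906944), (481036337152, 68719476736)] :=
  covD_split 0 (by decide +kernel) c1_m74_t18 c1_m74_t29
theorem c1_m74_t33 : CovD 0 progs [(331182243840, 7046430720), (212600881152, 23622320128), (274877906944, 274877906944), (429496729600, 17179869184)] :=
  covD_split 3 (by decide +kernel) c1_m74_t31 c1_m74_t32
theorem c1_m74_t36 : CovD 0 progs [(331182243840, 7046430720), (212600881152, 23622320128), (274877906944, 274877906944), (463856467968, 17179869184)] :=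
  covD_split 3 (by decide +kernel) c1_m74_t34 c1_m74_t35
theorem c1_m74_t37 : CovD 0 progs [(331182243840, 7046430720), (212600881152, 23622320128), (274877906944, 274877906944), (446676598784, 34359738368)] :=
  covD_split 3 (by decide +kernel) c1_m74_t33 c1_m74_t36
theorem c1_m74_t39 : CovD 0 progs [(331182243840, 7046430720), (212600881152, 23622320128), (274877906944, 274877906944), (481036337152, 68719476736)] :=
  covD_split 3 (by decide +kernel) c1_m74_t37 c1_m74_t38
theorem c1_m74_t40 : CovD 0 progs [(324135813120, 14092861440), (212600881152, 23622320128), (274877906944, 274877906944), (481036337152, 68719476736)] :=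
  covD_split 0 (by decide +kernel) c1_m74_t30 c1_m74_t39
theorem c1_m74_t42 : CovD 0 progs [(324135813120, 14092861440), (236223201280, 47244640256), (274877906944, 274877906944), (481036337152, 68719476736)] :=
  covD_split 1 (by decide +kernel) c1_m74_t40 c1_m74_t41
theorem c1_m74 : CovD 0 progs [(324135813120, 14092861440), (283467841536, 94489280512), (274877906944, 274877906944), (481036337152, 68719476736)] :=
  covD_split 1 (by decide +kernel) c1_m74_t42 c1_m74_t43

end Pool.Agent.helper71.FJ.Crt.QMa
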