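import Pool.Agent.helper71.FJ.Crt.QMaP

/-!
Generated certificates.
-/

namespace Pool.Agent.helper71.FJ.Crt.QMa

open Pool.Agent.helper31.IA (Z Op)
open Pool.Agent.helper31.IC

mutual
theorem c1_m76_t0 : CovD 0 progs [(253671505920, 28185722880), (283467841536, 94489280512), (824633720832, 274877906944), (68719476736, 68719476736)] :=
  Pool.Agent.helper14.QF.covD_F chks_eq (.n 1 (.n 2 (.n 1 (.n 0 (.n 0 (.n 0 (.l 12) (.l 10)) (.n 0 (.l 10) (.l 4))) (.n 0 (.n 0 (.l 4) (.l 4)) (.n 0 (.l 4) (.l 4)))) (.l 11)) (.n 1 (.n 0 (.l 6) (.n 0 (.n 0 (.l 4) (.l 4)) (.n 0 (.l 4) (.l 4)))) (.l 11))) (.l 11))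
    [(253671505920, 28185722880), (283467841536, 94489280512), (824633720832, 274877906944), (68719476736, 68719476736)] rfl (by decide +kernel)
theorem c1_m76_t1 : CovD 0 progs [(253671505920, 28185722880), (283467841536, 94489280512), (824633720832, 274877906944), (206158430208, 68719476736)] :=
  Pool.Agent.helper14.QF.covD_F chks_eq (.n 1 (.n 2 (.n 1 (.n 0 (.n 0 (.n 0 (.l 12) (.n 0 (.l 10) (.l 10))) (.n 0 (.n 0 (.l 10) (.l 4)) (.l 4))) (.n 0 (.n 0 (.l 4) (.l 4)) (.n 0 (.l 4) (.l 4)))) (.l 11)) (.n 1 (.n 0 (.l 6) (.n 0 (.n 0 (.l 4) (.l 4)) (.n 0 (.l 4) (.l 4)))) (.l 11))) (.l 11))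
    [(253671505920, 28185722880), (283467841536, 94489280512), (824633720832, 274877906944), (206158430208, 68719476736)] rfl (by decide +kernel)
end
mutual
theorem c1_m76_t3 : CovD 0 progs [(253671505920, 28185722880), (236223201280, 47244640256), (618475290624, 68719476736), (343597383680, 68719476736)] :=
  Pool.Agent.helper14.QF.covD_F chks_eq (.n 1 (.n 0 (.n 0 (.n 0 (.n 3 (.l 4) (.l 4)) (.n 3 (.l 4) (.l 4))) (.n 0 (.n 0 (.l 4) (.l 4)) (.n 0 (.l 4) (.l 4)))) (.n 0 (.n 0 (.n 0 (.l 4) (.l 4)) (.n 0 (.l 4) (.l 4))) (.n 0 (.n 0 (.l 4) (.l 4)) (.n 0 (.l 4) (.l 4))))) (.l 11))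
    [(253671505920, 28185722880), (236223201280, 47244640256), (618475290624, 68719476736), (343597383680, 68719476736)] rfl (by decide +kernel)
theorem c1_m76_t4 : CovD 0 progs [(253671505920, 28185722880), (236223201280, 47244640256), (755914244096, 68719476736), (343597383680, 68719476736)] :=
  Pool.Agent.helper14.QF.covD_F chks_eq (.n 1 (.n 0 (.n 0 (.l 6) (.n 0 (.n 0 (.l 4) (.l 4)) (.n 0 (.l 4) (.l 4)))) (.n 0 (.n 0 (.n 0 (.l 4) (.l 4)) (.n 0 (.l 4) (.l 4))) (.n 0 (.n 0 (.l 4) (.l 4)) (.n 0 (.l 4) (.l 4))))) (.l 11))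
    [(253671505920, 28185722880), (236223201280, 47244640256), (755914244096, 68719476736), (343597383680, 68719476736)] rfl (by decide +kernel)
end
mutual
theorem c1_m76_t6 : CovD 0 progs [(253671505920, 28185722880), (236223201280, 47244640256), (962072674304, 137438953472), (343597383680, 68719476736)] :=
  Pool.Agent.helper14.QF.covD_F chks_eq (.n 1 (.n 0 (.l 6) (.n 0 (.n 0 (.n 0 (.l 4) (.l 4)) (.n 0 (.l 4) (.l 4))) (.n 0 (.n 0 (.l 4) (.l 4)) (.n 3 (.l 4) (.l 4))))) (.l 11))
    [(253671505920, 28185722880), (236223201280, 47244640256), (962072674304, 137438953472), (343597383680, 68719476736)] rfl (by decide +kernel)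
theorem c1_m76_t8 : CovD 0 progs [(253671505920, 28185722880), (330712481792, 47244640256), (824633720832, 274877906944), (343597383680, 68719476736)] :=
  Pool.Agent.helper14.QF.covD_F chks_eq (.l 11)
    [(253671505920, 28185722880), (330712481792, 47244640256), (824633720832, 274877906944), (343597383680, 68719476736)] rfl (by decide +kernel)
end
mutual
theorem c1_m76_t10 : CovD 0 progs [(239578644480, 14092861440), (212600881152, 23622320128), (687194767360, 137438953472), (481036337152, 68719476736)] :=
  Pool.Agent.helper14.QF.covD_F chks_eq (.n 0 (.n 2 (.n 0 (.n 3 (.l 4) (.l 4)) (.n 3 (.l 4) (.l 4))) (.l 6)) (.n 0 (.n 3 (.l 4) (.n 0 (.l 4) (.l 4))) (.n 3 (.l 4) (.n 0 (.l 4) (.l 4)))))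
    [(239578644480, 14092861440), (212600881152, 23622320128), (687194767360, 137438953472), (481036337152, 68719476736)] rfl (by decide +kernel)
theorem c1_m76_t11 : CovD 0 progs [(267764367360, 14092861440), (212600881152, 23622320128), (687194767360, 137438953472), (481036337152, 68719476736)] :=
  Pool.Agent.helper14.QF.covD_F chks_eq (.n 0 (.n 0 (.n 3 (.l 4) (.n 0 (.l 4) (.l 4))) (.n 3 (.l 4) (.n 0 (.l 4) (.l 4)))) (.n 0 (.n 3 (.n 0 (.l 4) (.l 4)) (.n 3 (.l 4) (.n 0 (.l 4) (.l 4)))) (.n 0 (.n 3 (.l 4) (.n 3 (.l 4) (.l 4))) (.n 3 (.l 4) (.n 3 (.l 4) (.n 0 (.l 4) (.l 4)))))))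
    [(267764367360, 14092861440), (212600881152, 23622320128), (687194767360, 137438953472), (481036337152, 68719476736)] rfl (by decide +kernel)
end
mutual
theorem c1_m76_t13 : CovD 0 progs [(253671505920, 28185722880), (259845521408, 23622320128), (687194767360, 137438953472), (481036337152, 68719476736)] :=
  Pool.Agent.helper14.QF.covD_F chks_eq (.l 11)
    [(253671505920, 28185722880), (259845521408, 23622320128), (687194767360, 137438953472), (481036337152, 68719476736)] rfl (by decide +kernel)
theorem c1_m76_t15 : CovD 0 progs [(253671505920, 28185722880), (236223201280, 47244640256), (962072674304, 137438953472), (481036337152, 68719476736)] :=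
  Pool.Agent.helper14.QF.covD_F chks_eq (.n 1 (.n 0 (.l 6) (.n 0 (.n 1 (.l 6) (.n 2 (.l 6) (.l 6))) (.n 2 (.n 0 (.n 3 (.l 4) (.n 3 (.l 4) (.l 4))) (.n 3 (.n 0 (.l 4) (.l 4)) (.n 3 (.l 4) (.n 0 (.l 4) (.l 4))))) (.l 6)))) (.l 11))
    [(253671505920, 28185722880), (236223201280, 47244640256), (962072674304, 137438953472), (481036337152, 68719476736)] rfl (by decide +kernel)
theorem c1_m76_t17 : CovD 0 progs [(253671505920, 28185722880), (330712481792, 47244640256), (824633720832, 274877906944), (481036337152, 68719476736)] :=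
  Pool.Agent.helper14.QF.covD_F chks_eq (.l 11)
    [(253671505920, 28185722880), (330712481792, 47244640256), (824633720832, 274877906944), (481036337152, 68719476736)] rfl (by decide +kernel)
end
theorem c1_m76_t2 : CovD 0 progs [(253671505920, 28185722880), (283467841536, 94489280512), (824633720832, 274877906944), (137438953472, 137438953472)] :=
  covD_split 3 (by decide +kernel) c1_m76_t0 c1_m76_t1
theorem c1_m76_t5 : CovD 0 progs [(253671505920, 28185722880), (236223201280, 47244640256), (687194767360, 137438953472), (343597383680, 68719476736)] :=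
  covD_split 2 (by decide +kernel) c1_m76_t3 c1_m76_t4
theorem c1_m76_t7 : CovD 0 progs [(253671505920, 28185722880), (236223201280, 47244640256), (824633720832, 274877906944), (343597383680, 68719476736)] :=
  covD_split 2 (by decide +kernel) c1_m76_t5 c1_m76_t6
theorem c1_m76_t9 : CovD 0 progs [(253671505920, 28185722880), (283467841536, 94489280512), (824633720832, 274877906944), (343597383680, 68719476736)] :=
  covD_split 1 (by decide +kernel) c1_m76_t7 c1_m76_t8
theorem c1_m76_t12 : CovD 0 progs [(253671505920, 28185722880), (212600881152, 23622320128), (687194767360, 137438953472), (481036337152, 68719476736)] :=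
  covD_split 0 (by decide +kernel) c1_m76_t10 c1_m76_t11
theorem c1_m76_t14 : CovD 0 progs [(253671505920, 28185722880), (236223201280, 47244640256), (687194767360, 137438953472), (481036337152, 68719476736)] :=
  covD_split 1 (by decide +kernel) c1_m76_t12 c1_m76_t13
theorem c1_m76_t16 : CovD 0 progs [(253671505920, 28185722880), (236223201280, 47244640256), (824633720832, 274877906944), (481036337152, 68719476736)] :=
  covD_split 2 (by decide +kernel) c1_m76_t14 c1_m76_t15
theorem c1_m76_t18 : CovD 0 progs [(253671505920, 28185722880), (283467841536, 94489280512), (824633720832, 274877906944), (481036337152, 68719476736)] :=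
  covD_split 1 (by decide +kernel) c1_m76_t16 c1_m76_t17
theorem c1_m76_t19 : CovD 0 progs [(253671505920, 28185722880), (283467841536, 94489280512), (824633720832, 274877906944), (412316860416, 137438953472)] :=
  covD_split 3 (by decide +kernel) c1_m76_t9 c1_m76_t18
theorem c1_m76 : CovD 0 progs [(253671505920, 28185722880), (283467841536, 94489280512), (824633720832, 274877906944), (274877906944, 274877906944)] :=
  covD_split 3 (by decide +kernel) c1_m76_t2 c1_m76_t19

end Pool.Agent.helper71.FJ.Crt.QMa
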