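import Pool.Agent.helper71.FJ.Crt.QMaP

/-!
Generated certificates.
-/

namespace Pool.Agent.helper71.FJ.Crt.QMa

open Pool.Agent.helper31.IA (Z Op)
open Pool.Agent.helper31.IC

mutual
theorem c1_m77_t0 : CovD 0 progs [(310042951680, 28185722880), (212600881152, 23622320128), (824633720832, 274877906944), (34359738368, 34359738368)] :=
  Pool.Agent.helper14.QF.covD_F chks_eq (.n 0 (.n 0 (.n 0 (.l 4) (.l 4)) (.n 0 (.l 4) (.l 4))) (.n 0 (.n 0 (.n 2 (.l 4) (.l 4)) (.n 2 (.l 4) (.n 0 (.l 4) (.l 4)))) (.n 0 (.n 2 (.n 0 (.l 4) (.l 4)) (.n 2 (.l 4) (.l 4))) (.n 0 (.n 2 (.n 2 (.l 4) (.l 4)) (.n 2 (.l 4) (.l 4))) (.n 2 (.n 2 (.l 4) (.l 4)) (.n 2 (.l 4) (.l 4)))))))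
    [(310042951680, 28185722880), (212600881152, 23622320128), (824633720832, 274877906944), (34359738368, 34359738368)] rfl (by decide +kernel)
theorem c1_m77_t1 : CovD 0 progs [(295950090240, 14092861440), (212600881152, 23622320128), (824633720832, 274877906944), (103079215104, 34359738368)] :=
  Pool.Agent.helper14.QF.covD_F chks_eq (.n 0 (.n 0 (.l 4) (.l 4)) (.n 0 (.l 4) (.n 0 (.l 4) (.l 4))))
    [(295950090240, 14092861440), (212600881152, 23622320128), (824633720832, 274877906944), (103079215104, 34359738368)] rfl (by decide +kernel)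
end
mutual
theorem c1_m77_t2 : CovD 0 progs [(317089382400, 7046430720), (212600881152, 23622320128), (824633720832, 274877906944), (103079215104, 34359738368)] :=
  Pool.Agent.helper14.QF.covD_F chks_eq (.n 0 (.n 2 (.l 4) (.l 4)) (.n 2 (.n 0 (.l 4) (.l 4)) (.n 2 (.l 4) (.l 4))))
    [(317089382400, 7046430720), (212600881152, 23622320128), (824633720832, 274877906944), (103079215104, 34359738368)] rfl (by decide +kernel)
theorem c1_m77_t3 : CovD 0 progs [(331182243840, 7046430720), (212600881152, 23622320128), (824633720832, 274877906944), (103079215104, 34359738368)] :=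
  Pool.Agent.helper14.QF.covD_F chks_eq (.n 0 (.n 0 (.n 2 (.l 4) (.n 2 (.l 4) (.l 4))) (.n 2 (.n 2 (.l 4) (.l 4)) (.n 2 (.l 4) (.l 4)))) (.n 0 (.n 2 (.n 2 (.l 4) (.n 0 (.l 4) (.l 4))) (.n 0 (.n 2 (.l 4) (.l 4)) (.n 2 (.l 4) (.l 4)))) (.n 2 (.n 0 (.n 2 (.l 4) (.l 4)) (.n 2 (.l 4) (.l 4))) (.n 1 (.n 2 (.l 4) (.l 4)) (.n 2 (.l 4) (.l 4))))))
    [(331182243840, 7046430720), (212600881152, 23622320128), (824633720832, 274877906944), (103079215104, 34359738368)] rfl (by decide +kernel)
end
mutual
theorem c1_m77_t7 : CovD 0 progs [(310042951680, 28185722880), (259845521408, 23622320128), (824633720832, 274877906944), (68719476736, 68719476736)] :=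
  Pool.Agent.helper14.QF.covD_F chks_eq (.l 11)
    [(310042951680, 28185722880), (259845521408, 23622320128), (824633720832, 274877906944), (68719476736, 68719476736)] rfl (by decide +kernel)
theorem c1_m77_t9 : CovD 0 progs [(310042951680, 28185722880), (330712481792, 47244640256), (824633720832, 274877906944), (68719476736, 68719476736)] :=
  Pool.Agent.helper14.QF.covD_F chks_eq (.l 11)
    [(310042951680, 28185722880), (330712481792, 47244640256), (824633720832, 274877906944), (68719476736, 68719476736)] rfl (by decide +kernel)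
end
mutual
theorem c1_m77_t11 : CovD 0 progs [(295950090240, 14092861440), (212600881152, 23622320128), (824633720832, 274877906944), (171798691840, 34359738368)] :=
  Pool.Agent.helper14.QF.covD_F chks_eq (.n 0 (.n 0 (.l 4) (.l 4)) (.n 0 (.n 0 (.l 4) (.l 4)) (.n 2 (.l 4) (.l 4))))
    [(295950090240, 14092861440), (212600881152, 23622320128), (824633720832, 274877906944), (171798691840, 34359738368)] rfl (by decide +kernel)
theorem c1_m77_t12 : CovD 0 progs [(317089382400, 7046430720), (212600881152, 23622320128), (824633720832, 274877906944), (171798691840, 34359738368)] :=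
  Pool.Agent.helper14.QF.covD_F chks_eq (.n 0 (.n 0 (.n 2 (.l 4) (.l 4)) (.n 2 (.l 4) (.l 4))) (.n 0 (.n 2 (.l 4) (.n 0 (.l 4) (.l 4))) (.n 2 (.n 0 (.l 4) (.l 4)) (.n 2 (.l 4) (.l 4)))))
    [(317089382400, 7046430720), (212600881152, 23622320128), (824633720832, 274877906944), (171798691840, 34359738368)] rfl (by decide +kernel)
end
mutual
theorem c1_m77_t13 : CovD 0 progs [(327659028480, 3523215360), (212600881152, 23622320128), (824633720832, 274877906944), (171798691840, 34359738368)] :=
  Pool.Agent.helper14.QF.covD_F chks_eq (.n 0 (.n 2 (.n 2 (.l 4) (.l 4)) (.n 2 (.l 4) (.l 4))) (.n 0 (.n 2 (.n 2 (.l 4) (.l 4)) (.n 2 (.l 4) (.l 4))) (.n 2 (.n 2 (.l 4) (.l 4)) (.n 2 (.l 4) (.l 4)))))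
    [(327659028480, 3523215360), (212600881152, 23622320128), (824633720832, 274877906944), (171798691840, 34359738368)] rfl (by decide +kernel)
theorem c1_m77_t14 : CovD 0 progs [(334705459200, 3523215360), (212600881152, 23622320128), (824633720832, 274877906944), (171798691840, 34359738368)] :=
  Pool.Agent.helper14.QF.covD_F chks_eq (.n 0 (.n 2 (.n 2 (.n 0 (.l 4) (.n 0 (.l 4) (.l 4))) (.n 3 (.l 4) (.n 0 (.l 4) (.l 4)))) (.n 2 (.n 2 (.l 4) (.l 4)) (.n 1 (.l 4) (.l 4)))) (.n 2 (.n 0 (.n 1 (.n 2 (.l 4) (.l 4)) (.n 2 (.l 4) (.l 4))) (.n 2 (.n 2 (.l 4) (.l 4)) (.n 1 (.l 4) (.l 4)))) (.n 2 (.n 2 (.n 0 (.l 4) (.l 4)) (.l 4)) (.n 1 (.l 4) (.l 4)))))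
    [(334705459200, 3523215360), (212600881152, 23622320128), (824633720832, 274877906944), (171798691840, 34359738368)] rfl (by decide +kernel)
end
mutual
theorem c1_m77_t18 : CovD 0 progs [(310042951680, 28185722880), (259845521408, 23622320128), (824633720832, 274877906944), (171798691840, 34359738368)] :=
  Pool.Agent.helper14.QF.covD_F chks_eq (.l 11)
    [(310042951680, 28185722880), (259845521408, 23622320128), (824633720832, 274877906944), (171798691840, 34359738368)] rfl (by decide +kernel)
theorem c1_m77_t20 : CovD 0 progs [(310042951680, 28185722880), (330712481792, 47244640256), (824633720832, 274877906944), (171798691840, 34359738368)] :=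
  Pool.Agent.helper14.QF.covD_F chks_eq (.l 11)
    [(310042951680, 28185722880), (330712481792, 47244640256), (824633720832, 274877906944), (171798691840, 34359738368)] rfl (by decide +kernel)
end
mutual
theorem c1_m77_t22 : CovD 0 progs [(310042951680, 28185722880), (212600881152, 23622320128), (687194767360, 137438953472), (223338299392, 17179869184)] :=
  Pool.Agent.helper14.QF.covD_F chks_eq (.n 0 (.n 0 (.n 0 (.l 4) (.l 4)) (.n 0 (.l 4) (.l 4))) (.n 0 (.n 0 (.l 4) (.n 0 (.l 4) (.n 0 (.l 4) (.l 4)))) (.n 2 (.n 0 (.n 0 (.l 4) (.n 0 (.l 4) (.l 4))) (.n 0 (.n 2 (.l 4) (.l 4)) (.n 0 (.n 0 (.l 4) (.l 4)) (.n 1 (.l 4) (.l 4))))) (.n 0 (.n 0 (.l 4) (.n 0 (.l 4) (.l 4))) (.n 0 (.n 2 (.l 4) (.l 4)) (.n 2 (.l 4) (.l 4)))))))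
    [(310042951680, 28185722880), (212600881152, 23622320128), (687194767360, 137438953472), (223338299392, 17179869184)] rfl (by decide +kernel)
theorem c1_m77_t23 : CovD 0 progs [(310042951680, 28185722880), (212600881152, 23622320128), (962072674304, 137438953472), (223338299392, 17179869184)] :=
  Pool.Agent.helper14.QF.covD_F chks_eq (.n 0 (.n 0 (.n 0 (.l 4) (.l 4)) (.n 0 (.l 4) (.l 4))) (.n 0 (.n 0 (.n 0 (.l 4) (.l 4)) (.n 0 (.n 1 (.l 4) (.l 4)) (.n 2 (.l 4) (.l 4)))) (.n 0 (.n 0 (.n 2 (.l 4) (.l 4)) (.n 0 (.n 2 (.l 4) (.l 4)) (.n 2 (.l 4) (.l 4)))) (.n 2 (.n 0 (.n 1 (.l 4) (.l 4)) (.n 1 (.l 4) (.l 4))) (.n 2 (.n 0 (.l 4) (.l 4)) (.l 4))))))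
    [(310042951680, 28185722880), (212600881152, 23622320128), (962072674304, 137438953472), (223338299392, 17179869184)] rfl (by decide +kernel)
end
mutual
theorem c1_m77_t25 : CovD 0 progs [(295950090240, 14092861440), (212600881152, 23622320128), (824633720832, 274877906944), (257698037760, 17179869184)] :=
  Pool.Agent.helper14.QF.covD_F chks_eq (.n 0 (.n 0 (.l 4) (.l 4)) (.n 0 (.n 0 (.l 4) (.l 4)) (.n 2 (.l 4) (.l 4))))
    [(295950090240, 14092861440), (212600881152, 23622320128), (824633720832, 274877906944), (257698037760, 17179869184)] rfl (by decide +kernel)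
theorem c1_m77_t26 : CovD 0 progs [(317089382400, 7046430720), (212600881152, 23622320128), (824633720832, 274877906944), (257698037760, 17179869184)] :=
  Pool.Agent.helper14.QF.covD_F chks_eq (.n 0 (.n 2 (.n 0 (.l 4) (.l 4)) (.n 2 (.l 4) (.l 4))) (.n 0 (.n 2 (.n 0 (.l 4) (.l 4)) (.n 2 (.l 4) (.l 4))) (.n 2 (.n 2 (.l 4) (.l 4)) (.n 2 (.l 4) (.l 4)))))
    [(317089382400, 7046430720), (212600881152, 23622320128), (824633720832, 274877906944), (257698037760, 17179869184)] rfl (by decide +kernel)
end
mutual
theorem c1_m77_t27 : CovD 0 progs [(327659028480, 3523215360), (212600881152, 23622320128), (824633720832, 274877906944), (257698037760, 17179869184)] :=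
  Pool.Agent.helper14.QF.covD_F chks_eq (.n 0 (.n 0 (.n 2 (.n 2 (.l 4) (.l 4)) (.n 2 (.l 4) (.l 4))) (.n 2 (.n 2 (.l 4) (.l 4)) (.n 2 (.l 4) (.l 4)))) (.n 2 (.n 2 (.n 2 (.l 4) (.l 4)) (.n 2 (.l 4) (.l 4))) (.n 1 (.n 2 (.l 4) (.l 4)) (.n 2 (.l 4) (.l 4)))))
    [(327659028480, 3523215360), (212600881152, 23622320128), (824633720832, 274877906944), (257698037760, 17179869184)] rfl (by decide +kernel)
theorem c1_m77_t28 : CovD 0 progs [(334705459200, 3523215360), (212600881152, 23622320128), (824633720832, 274877906944), (257698037760, 17179869184)] :=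
  Pool.Agent.helper14.QF.covD_F chks_eq (.n 0 (.n 2 (.n 2 (.n 0 (.n 0 (.l 4) (.l 4)) (.n 1 (.l 4) (.l 4))) (.n 2 (.n 0 (.l 4) (.l 4)) (.l 4))) (.n 2 (.n 2 (.l 4) (.l 4)) (.n 1 (.l 4) (.l 4)))) (.n 2 (.n 2 (.n 2 (.n 0 (.l 4) (.l 4)) (.l 4)) (.n 2 (.l 4) (.l 4))) (.n 1 (.n 2 (.l 4) (.l 4)) (.n 2 (.l 4) (.l 4)))))
    [(334705459200, 3523215360), (212600881152, 23622320128), (824633720832, 274877906944), (257698037760, 17179869184)] rfl (by decide +kernel)
end
mutual
theorem c1_m77_t33 : CovD 0 progs [(310042951680, 28185722880), (259845521408, 23622320128), (824633720832, 274877906944), (240518168576, 34359738368)] :=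
  Pool.Agent.helper14.QF.covD_F chks_eq (.l 11)
    [(310042951680, 28185722880), (259845521408, 23622320128), (824633720832, 274877906944), (240518168576, 34359738368)] rfl (by decide +kernel)
theorem c1_m77_t35 : CovD 0 progs [(310042951680, 28185722880), (330712481792, 47244640256), (824633720832, 274877906944), (240518168576, 34359738368)] :=
  Pool.Agent.helper14.QF.covD_F chks_eq (.l 11)
    [(310042951680, 28185722880), (330712481792, 47244640256), (824633720832, 274877906944), (240518168576, 34359738368)] rfl (by decide +kernel)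
end
theorem c1_m77_t4 : CovD 0 progs [(324135813120, 14092861440), (212600881152, 23622320128), (824633720832, 274877906944), (103079215104, 34359738368)] :=
  covD_split 0 (by decide +kernel) c1_m77_t2 c1_m77_t3
theorem c1_m77_t5 : CovD 0 progs [(310042951680, 28185722880), (212600881152, 23622320128), (824633720832, 274877906944), (103079215104, 34359738368)] :=
  covD_split 0 (by decide +kernel) c1_m77_t1 c1_m77_t4
theorem c1_m77_t6 : CovD 0 progs [(310042951680, 28185722880), (212600881152, 23622320128), (824633720832, 274877906944), (68719476736, 68719476736)] :=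
  covD_split 3 (by decide +kernel) c1_m77_t0 c1_m77_t5
theorem c1_m77_t8 : CovD 0 progs [(310042951680, 28185722880), (236223201280, 47244640256), (824633720832, 274877906944), (68719476736, 68719476736)] :=
  covD_split 1 (by decide +kernel) c1_m77_t6 c1_m77_t7
theorem c1_m77_t10 : CovD 0 progs [(310042951680, 28185722880), (283467841536, 94489280512), (824633720832, 274877906944), (68719476736, 68719476736)] :=
  covD_split 1 (by decide +kernel) c1_m77_t8 c1_m77_t9
theorem c1_m77_t15 : CovD 0 progs [(331182243840, 7046430720), (212600881152, 23622320128), (824633720832, 274877906944), (171798691840, 34359738368)] :=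
  covD_split 0 (by decide +kernel) c1_m77_t13 c1_m77_t14
theorem c1_m77_t16 : CovD 0 progs [(324135813120, 14092861440), (212600881152, 23622320128), (824633720832, 274877906944), (171798691840, 34359738368)] :=
  covD_split 0 (by decide +kernel) c1_m77_t12 c1_m77_t15
theorem c1_m77_t17 : CovD 0 progs [(310042951680, 28185722880), (212600881152, 23622320128), (824633720832, 274877906944), (171798691840, 34359738368)] :=
  covD_split 0 (by decide +kernel) c1_m77_t11 c1_m77_t16
theorem c1_m77_t19 : CovD 0 progs [(310042951680, 28185722880), (236223201280, 47244640256), (824633720832, 274877906944), (171798691840, 34359738368)] :=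
  covD_split 1 (by decide +kernel) c1_m77_t17 c1_m77_t18
theorem c1_m77_t21 : CovD 0 progs [(310042951680, 28185722880), (283467841536, 94489280512), (824633720832, 274877906944), (171798691840, 34359738368)] :=
  covD_split 1 (by decide +kernel) c1_m77_t19 c1_m77_t20
theorem c1_m77_t24 : CovD 0 progs [(310042951680, 28185722880), (212600881152, 23622320128), (824633720832, 274877906944), (223338299392, 17179869184)] :=
  covD_split 2 (by decide +kernel) c1_m77_t22 c1_m77_t23
theorem c1_m77_t29 : CovD 0 progs [(331182243840, 7046430720), (212600881152, 23622320128), (824633720832, 274877906944), (257698037760, 17179869184)] :=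
  covD_split 0 (by decide +kernel) c1_m77_t27 c1_m77_t28
theorem c1_m77_t30 : CovD 0 progs [(324135813120, 14092861440), (212600881152, 23622320128), (824633720832, 274877906944), (257698037760, 17179869184)] :=
  covD_split 0 (by decide +kernel) c1_m77_t26 c1_m77_t29
theorem c1_m77_t31 : CovD 0 progs [(310042951680, 28185722880), (212600881152, 23622320128), (824633720832, 274877906944), (257698037760, 17179869184)] :=
  covD_split 0 (by decide +kernel) c1_m77_t25 c1_m77_t30
theorem c1_m77_t32 : CovD 0 progs [(310042951680, 28185722880), (212600881152, 23622320128), (824633720832, 274877906944), (240518168576, 34359738368)] :=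
  covD_split 3 (by decide +kernel) c1_m77_t24 c1_m77_t31
theorem c1_m77_t34 : CovD 0 progs [(310042951680, 28185722880), (236223201280, 47244640256), (824633720832, 274877906944), (240518168576, 34359738368)] :=
  covD_split 1 (by decide +kernel) c1_m77_t32 c1_m77_t33
theorem c1_m77_t36 : CovD 0 progs [(310042951680, 28185722880), (283467841536, 94489280512), (824633720832, 274877906944), (240518168576, 34359738368)] :=
  covD_split 1 (by decide +kernel) c1_m77_t34 c1_m77_t35
theorem c1_m77_t37 : CovD 0 progs [(310042951680, 28185722880), (283467841536, 94489280512), (824633720832, 274877906944), (206158430208, 68719476736)] :=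
  covD_split 3 (by decide +kernel) c1_m77_t21 c1_m77_t36
theorem c1_m77 : CovD 0 progs [(310042951680, 28185722880), (283467841536, 94489280512), (824633720832, 274877906944), (137438953472, 137438953472)] :=
  covD_split 3 (by decide +kernel) c1_m77_t10 c1_m77_t37

end Pool.Agent.helper71.FJ.Crt.QMa
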