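import Pool.Agent.helper71.FJ.Crt.QMaP

/-!
Generated certificates.
-/

namespace Pool.Agent.helper71.FJ.Crt.QMa

open Pool.Agent.helper31.IA (Z Op)
open Pool.Agent.helper31.IC

mutual
theorem c1_m78_t0 : CovD 0 progs [(288903659520, 7046430720), (212600881152, 23622320128), (824633720832, 274877906944), (343597383680, 68719476736)] :=
  Pool.Agent.helper14.QF.covD_F chks_eq (.n 0 (.n 0 (.n 3 (.l 4) (.n 0 (.l 4) (.l 4))) (.n 3 (.l 4) (.n 2 (.l 4) (.l 4)))) (.n 2 (.n 3 (.l 4) (.n 0 (.l 4) (.l 4))) (.n 3 (.l 4) (.n 0 (.l 4) (.n 0 (.l 4) (.l 4))))))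
    [(288903659520, 7046430720), (212600881152, 23622320128), (824633720832, 274877906944), (343597383680, 68719476736)] rfl (by decide +kernel)
theorem c1_m78_t1 : CovD 0 progs [(299473305600, 3523215360), (212600881152, 23622320128), (824633720832, 274877906944), (343597383680, 68719476736)] :=
  Pool.Agent.helper14.QF.covD_F chks_eq (.n 0 (.n 2 (.n 3 (.l 4) (.n 0 (.l 4) (.l 4))) (.n 3 (.l 4) (.n 2 (.l 4) (.l 4)))) (.n 2 (.n 3 (.l 4) (.n 3 (.l 4) (.l 4))) (.n 3 (.l 4) (.n 3 (.l 4) (.n 1 (.l 4) (.l 4))))))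
    [(299473305600, 3523215360), (212600881152, 23622320128), (824633720832, 274877906944), (343597383680, 68719476736)] rfl (by decide +kernel)
end
mutual
theorem c1_m78_t2 : CovD 0 progs [(304758128640, 1761607680), (212600881152, 23622320128), (824633720832, 274877906944), (343597383680, 68719476736)] :=
  Pool.Agent.helper14.QF.covD_F chks_eq (.n 2 (.n 3 (.l 4) (.n 3 (.l 4) (.n 0 (.l 4) (.l 4)))) (.n 2 (.n 3 (.l 4) (.n 3 (.l 4) (.l 4))) (.n 3 (.l 4) (.n 3 (.l 4) (.l 4)))))
    [(304758128640, 1761607680), (212600881152, 23622320128), (824633720832, 274877906944), (343597383680, 68719476736)] rfl (by decide +kernel)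
theorem c1_m78_t3 : CovD 0 progs [(308281344000, 1761607680), (212600881152, 23622320128), (824633720832, 274877906944), (343597383680, 68719476736)] :=
  Pool.Agent.helper14.QF.covD_F chks_eq (.n 2 (.n 0 (.n 3 (.l 4) (.n 3 (.l 4) (.n 1 (.l 4) (.l 4)))) (.n 3 (.l 4) (.n 3 (.l 4) (.n 2 (.l 4) (.l 4))))) (.n 2 (.n 3 (.l 4) (.n 3 (.l 4) (.n 0 (.l 4) (.l 4)))) (.n 3 (.l 4) (.n 3 (.l 4) (.n 0 (.l 4) (.l 4))))))
    [(308281344000, 1761607680), (212600881152, 23622320128), (824633720832, 274877906944), (343597383680, 68719476736)] rfl (by decide +kernel)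
end
mutual
theorem c1_m78_t7 : CovD 0 progs [(311804559360, 1761607680), (212600881152, 23622320128), (824633720832, 274877906944), (343597383680, 68719476736)] :=
  Pool.Agent.helper14.QF.covD_F chks_eq (.n 2 (.n 3 (.n 3 (.l 4) (.n 0 (.l 4) (.l 4))) (.n 2 (.n 3 (.l 4) (.n 3 (.l 4) (.l 4))) (.n 3 (.l 4) (.n 0 (.l 4) (.n 0 (.l 4) (.l 4)))))) (.n 2 (.n 3 (.n 0 (.l 4) (.l 4)) (.n 3 (.l 4) (.n 2 (.l 4) (.l 4)))) (.n 3 (.n 0 (.l 4) (.l 4)) (.n 3 (.l 4) (.n 1 (.l 4) (.l 4))))))
    [(311804559360, 1761607680), (212600881152, 23622320128), (824633720832, 274877906944), (343597383680, 68719476736)] rfl (by decide +kernel)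
theorem c1_m78_t8 : CovD 0 progs [(315327774720, 1761607680), (212600881152, 23622320128), (824633720832, 274877906944), (309237645312, 34359738368)] :=
  Pool.Agent.helper14.QF.covD_F chks_eq (.n 2 (.n 2 (.n 0 (.l 4) (.l 4)) (.n 3 (.l 4) (.l 4))) (.n 2 (.n 3 (.l 4) (.l 4)) (.n 1 (.l 4) (.l 4))))
    [(315327774720, 1761607680), (212600881152, 23622320128), (824633720832, 274877906944), (309237645312, 34359738368)] rfl (by decide +kernel)
end
mutual
theorem c1_m78_t9 : CovD 0 progs [(315327774720, 1761607680), (212600881152, 23622320128), (824633720832, 274877906944), (377957122048, 34359738368)] :=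
  Pool.Agent.helper14.QF.covD_F chks_eq (.n 2 (.n 0 (.n 2 (.n 3 (.l 4) (.n 0 (.l 4) (.l 4))) (.n 3 (.l 4) (.n 1 (.l 4) (.l 4)))) (.n 2 (.n 3 (.l 4) (.n 2 (.l 4) (.l 4))) (.n 3 (.l 4) (.n 2 (.l 4) (.l 4))))) (.n 1 (.n 2 (.n 3 (.l 4) (.n 0 (.l 4) (.l 4))) (.n 3 (.l 4) (.l 4))) (.n 2 (.n 3 (.l 4) (.n 0 (.l 4) (.l 4))) (.n 3 (.l 4) (.l 4)))))
    [(315327774720, 1761607680), (212600881152, 23622320128), (824633720832, 274877906944), (377957122048, 34359738368)] rfl (by decide +kernel)
theorem c1_m78_t12 : CovD 0 progs [(317970186240, 880803840), (212600881152, 23622320128), (687194767360, 137438953472), (343597383680, 68719476736)] :=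
  Pool.Agent.helper14.QF.covD_F chks_eq (.n 3 (.n 3 (.l 4) (.n 2 (.l 4) (.l 4))) (.n 2 (.n 3 (.n 0 (.l 4) (.l 4)) (.n 3 (.l 4) (.n 0 (.l 4) (.l 4)))) (.n 2 (.n 3 (.l 4) (.n 0 (.l 4) (.l 4))) (.n 3 (.l 4) (.l 4)))))
    [(317970186240, 880803840), (212600881152, 23622320128), (687194767360, 137438953472), (343597383680, 68719476736)] rfl (by decide +kernel)
end
mutual
theorem c1_m78_t13 : CovD 0 progs [(319731793920, 880803840), (212600881152, 23622320128), (687194767360, 137438953472), (343597383680, 68719476736)] :=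
  Pool.Agent.helper14.QF.covD_F chks_eq (.n 2 (.n 3 (.n 3 (.l 4) (.l 4)) (.n 1 (.n 3 (.l 4) (.n 2 (.l 4) (.l 4))) (.n 3 (.l 4) (.n 2 (.l 4) (.l 4))))) (.n 3 (.n 3 (.l 4) (.l 4)) (.n 2 (.n 3 (.l 4) (.n 0 (.l 4) (.l 4))) (.n 3 (.l 4) (.l 4)))))
    [(319731793920, 880803840), (212600881152, 23622320128), (687194767360, 137438953472), (343597383680, 68719476736)] rfl (by decide +kernel)
theorem c1_m78_t15 : CovD 0 progs [(318850990080, 1761607680), (212600881152, 23622320128), (962072674304, 137438953472), (343597383680, 68719476736)] :=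
  Pool.Agent.helper14.QF.covD_F chks_eq (.n 2 (.n 3 (.n 3 (.l 4) (.n 0 (.l 4) (.l 4))) (.n 2 (.n 0 (.n 3 (.l 4) (.l 4)) (.n 3 (.l 4) (.l 4))) (.n 3 (.l 4) (.n 0 (.l 4) (.l 4))))) (.n 2 (.n 3 (.n 0 (.l 4) (.l 4)) (.n 3 (.l 4) (.l 4))) (.n 3 (.l 4) (.n 1 (.l 4) (.l 4)))))
    [(318850990080, 1761607680), (212600881152, 23622320128), (962072674304, 137438953472), (343597383680, 68719476736)] rfl (by decide +kernel)
end
mutual
theorem c1_m78_t17 : CovD 0 progs [(321493401600, 880803840), (212600881152, 23622320128), (687194767360, 137438953472), (343597383680, 68719476736)] :=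
  Pool.Agent.helper14.QF.covD_F chks_eq (.n 2 (.n 3 (.n 3 (.l 4) (.l 4)) (.n 2 (.n 3 (.l 4) (.n 0 (.l 4) (.l 4))) (.n 3 (.l 4) (.n 0 (.l 4) (.l 4))))) (.n 3 (.n 3 (.l 4) (.n 0 (.l 4) (.l 4))) (.n 2 (.n 3 (.l 4) (.n 0 (.l 4) (.l 4))) (.n 3 (.l 4) (.l 4)))))
    [(321493401600, 880803840), (212600881152, 23622320128), (687194767360, 137438953472), (343597383680, 68719476736)] rfl (by decide +kernel)
theorem c1_m78_t18 : CovD 0 progs [(321493401600, 880803840), (212600881152, 23622320128), (962072674304, 137438953472), (343597383680, 68719476736)] :=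
  Pool.Agent.helper14.QF.covD_F chks_eq (.n 2 (.n 2 (.n 3 (.n 0 (.l 4) (.l 4)) (.n 3 (.l 4) (.l 4))) (.n 3 (.l 4) (.n 3 (.l 4) (.l 4)))) (.n 1 (.n 3 (.l 4) (.n 2 (.l 4) (.l 4))) (.n 3 (.l 4) (.n 1 (.l 4) (.l 4)))))
    [(321493401600, 880803840), (212600881152, 23622320128), (962072674304, 137438953472), (343597383680, 68719476736)] rfl (by decide +kernel)
end
mutual
theorem c1_m78_t20 : CovD 0 progs [(323255009280, 880803840), (212600881152, 23622320128), (687194767360, 137438953472), (343597383680, 68719476736)] :=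
  Pool.Agent.helper14.QF.covD_F chks_eq (.n 2 (.n 3 (.n 3 (.l 4) (.n 0 (.l 4) (.l 4))) (.n 2 (.n 3 (.n 0 (.l 4) (.l 4)) (.l 4)) (.n 3 (.l 4) (.l 4)))) (.n 3 (.n 3 (.l 4) (.n 1 (.l 4) (.l 4))) (.n 2 (.n 3 (.l 4) (.l 4)) (.n 3 (.l 4) (.l 4)))))
    [(323255009280, 880803840), (212600881152, 23622320128), (687194767360, 137438953472), (343597383680, 68719476736)] rfl (by decide +kernel)
theorem c1_m78_t21 : CovD 0 progs [(323255009280, 880803840), (212600881152, 23622320128), (962072674304, 137438953472), (343597383680, 68719476736)] :=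
  Pool.Agent.helper14.QF.covD_F chks_eq (.n 2 (.n 3 (.n 3 (.l 4) (.n 1 (.l 4) (.l 4))) (.n 1 (.n 3 (.l 4) (.l 4)) (.n 2 (.l 4) (.l 4)))) (.n 2 (.n 3 (.l 4) (.n 1 (.l 4) (.l 4))) (.n 3 (.l 4) (.l 4))))
    [(323255009280, 880803840), (212600881152, 23622320128), (962072674304, 137438953472), (343597383680, 68719476736)] rfl (by decide +kernel)
end
mutual
theorem c1_m78_t26 : CovD 0 progs [(325016616960, 880803840), (212600881152, 23622320128), (687194767360, 137438953472), (343597383680, 68719476736)] :=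
  Pool.Agent.helper14.QF.covD_F chks_eq (.n 2 (.n 3 (.n 3 (.l 4) (.n 1 (.l 4) (.l 4))) (.n 2 (.n 3 (.n 0 (.l 4) (.l 4)) (.l 4)) (.n 3 (.l 4) (.l 4)))) (.n 3 (.n 3 (.l 4) (.n 1 (.l 4) (.l 4))) (.n 2 (.n 3 (.l 4) (.l 4)) (.n 3 (.l 4) (.l 4)))))
    [(325016616960, 880803840), (212600881152, 23622320128), (687194767360, 137438953472), (343597383680, 68719476736)] rfl (by decide +kernel)
theorem c1_m78_t27 : CovD 0 progs [(326778224640, 880803840), (212600881152, 23622320128), (687194767360, 137438953472), (343597383680, 68719476736)] :=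
  Pool.Agent.helper14.QF.covD_F chks_eq (.n 2 (.n 2 (.n 3 (.n 3 (.l 4) (.l 4)) (.n 3 (.l 4) (.l 4))) (.n 3 (.n 3 (.l 4) (.l 4)) (.n 3 (.l 4) (.l 4)))) (.n 2 (.n 3 (.n 3 (.l 4) (.l 4)) (.n 3 (.l 4) (.l 4))) (.n 3 (.n 3 (.l 4) (.l 4)) (.n 1 (.l 4) (.l 4)))))
    [(326778224640, 880803840), (212600881152, 23622320128), (687194767360, 137438953472), (343597383680, 68719476736)] rfl (by decide +kernel)
end
mutual
theorem c1_m78_t29 : CovD 0 progs [(325897420800, 1761607680), (212600881152, 23622320128), (962072674304, 137438953472), (343597383680, 68719476736)] :=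
  Pool.Agent.helper14.QF.covD_F chks_eq (.n 2 (.n 2 (.n 3 (.n 3 (.l 4) (.n 0 (.l 4) (.l 4))) (.n 1 (.n 0 (.l 4) (.l 4)) (.l 4))) (.n 3 (.n 3 (.l 4) (.l 4)) (.n 1 (.l 4) (.l 4)))) (.n 2 (.n 1 (.n 3 (.l 4) (.l 4)) (.n 3 (.l 4) (.l 4))) (.n 3 (.n 0 (.l 4) (.l 4)) (.l 4))))
    [(325897420800, 1761607680), (212600881152, 23622320128), (962072674304, 137438953472), (343597383680, 68719476736)] rfl (by decide +kernel)
theorem c1_m78_t31 : CovD 0 progs [(328539832320, 880803840), (212600881152, 23622320128), (687194767360, 137438953472), (343597383680, 68719476736)] :=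
  Pool.Agent.helper14.QF.covD_F chks_eq (.n 2 (.n 2 (.n 3 (.n 3 (.l 4) (.l 4)) (.n 2 (.l 4) (.l 4))) (.n 3 (.n 3 (.l 4) (.l 4)) (.n 1 (.l 4) (.l 4)))) (.n 2 (.n 3 (.n 3 (.l 4) (.l 4)) (.n 1 (.l 4) (.l 4))) (.n 3 (.n 3 (.l 4) (.l 4)) (.n 0 (.l 4) (.l 4)))))
    [(328539832320, 880803840), (212600881152, 23622320128), (687194767360, 137438953472), (343597383680, 68719476736)] rfl (by decide +kernel)
end
mutual
theorem c1_m78_t32 : CovD 0 progs [(330301440000, 880803840), (212600881152, 23622320128), (687194767360, 137438953472), (343597383680, 68719476736)] :=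
  Pool.Agent.helper14.QF.covD_F chks_eq (.n 2 (.n 2 (.n 3 (.n 3 (.l 4) (.l 4)) (.n 3 (.l 4) (.l 4))) (.n 3 (.n 3 (.l 4) (.l 4)) (.n 3 (.l 4) (.l 4)))) (.n 2 (.n 3 (.n 3 (.l 4) (.l 4)) (.n 3 (.l 4) (.l 4))) (.n 3 (.n 3 (.l 4) (.l 4)) (.n 1 (.l 4) (.l 4)))))
    [(330301440000, 880803840), (212600881152, 23622320128), (687194767360, 137438953472), (343597383680, 68719476736)] rfl (by decide +kernel)
theorem c1_m78_t34 : CovD 0 progs [(329420636160, 1761607680), (212600881152, 23622320128), (962072674304, 137438953472), (343597383680, 68719476736)] :=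
  Pool.Agent.helper14.QF.covD_F chks_eq (.n 2 (.n 2 (.n 3 (.n 3 (.l 4) (.l 4)) (.n 1 (.l 4) (.l 4))) (.n 3 (.n 3 (.l 4) (.l 4)) (.n 1 (.l 4) (.l 4)))) (.n 1 (.n 2 (.n 3 (.l 4) (.l 4)) (.n 3 (.l 4) (.l 4))) (.n 3 (.n 0 (.l 4) (.l 4)) (.l 4))))
    [(329420636160, 1761607680), (212600881152, 23622320128), (962072674304, 137438953472), (343597383680, 68719476736)] rfl (by decide +kernel)
end
mutual
theorem c1_m78_t37 : CovD 0 progs [(332943851520, 1761607680), (212600881152, 23622320128), (618475290624, 68719476736), (343597383680, 68719476736)] :=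
  Pool.Agent.helper14.QF.covD_F chks_eq (.n 2 (.n 3 (.n 3 (.n 0 (.l 4) (.l 4)) (.l 4)) (.n 0 (.n 3 (.l 4) (.l 4)) (.n 3 (.l 4) (.l 4)))) (.n 3 (.n 3 (.n 0 (.l 4) (.l 4)) (.l 4)) (.n 0 (.n 3 (.l 4) (.l 4)) (.n 3 (.l 4) (.l 4)))))
    [(332943851520, 1761607680), (212600881152, 23622320128), (618475290624, 68719476736), (343597383680, 68719476736)] rfl (by decide +kernel)
theorem c1_m78_t38 : CovD 0 progs [(332943851520, 1761607680), (212600881152, 23622320128), (755914244096, 68719476736), (343597383680, 68719476736)] :=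
  Pool.Agent.helper14.QF.covD_F chks_eq (.n 2 (.n 3 (.n 3 (.n 0 (.l 4) (.l 4)) (.l 4)) (.n 3 (.l 4) (.n 0 (.l 4) (.l 4)))) (.n 3 (.n 3 (.l 4) (.l 4)) (.n 3 (.l 4) (.n 0 (.l 4) (.l 4)))))
    [(332943851520, 1761607680), (212600881152, 23622320128), (755914244096, 68719476736), (343597383680, 68719476736)] rfl (by decide +kernel)
end
mutual
theorem c1_m78_t40 : CovD 0 progs [(332943851520, 1761607680), (212600881152, 23622320128), (962072674304, 137438953472), (343597383680, 68719476736)] :=
  Pool.Agent.helper14.QF.covD_F chks_eq (.n 2 (.n 2 (.n 3 (.n 1 (.l 4) (.l 4)) (.n 3 (.l 4) (.n 0 (.l 4) (.l 4)))) (.n 3 (.n 0 (.l 4) (.l 4)) (.n 3 (.l 4) (.l 4)))) (.n 2 (.n 3 (.l 4) (.n 1 (.l 4) (.l 4))) (.n 3 (.l 4) (.n 0 (.l 4) (.l 4)))))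
    [(332943851520, 1761607680), (212600881152, 23622320128), (962072674304, 137438953472), (343597383680, 68719476736)] rfl (by decide +kernel)
theorem c1_m78_t42 : CovD 0 progs [(336467066880, 1761607680), (212600881152, 23622320128), (687194767360, 137438953472), (343597383680, 68719476736)] :=
  Pool.Agent.helper14.QF.covD_F chks_eq (.n 2 (.n 3 (.n 2 (.n 3 (.l 4) (.l 4)) (.n 3 (.l 4) (.l 4))) (.n 3 (.n 0 (.n 2 (.l 4) (.l 4)) (.n 2 (.l 4) (.l 4))) (.n 3 (.n 0 (.l 4) (.l 4)) (.l 4)))) (.n 1 (.n 2 (.n 3 (.l 4) (.n 3 (.l 4) (.l 4))) (.n 3 (.l 4) (.n 3 (.l 4) (.l 4)))) (.n 2 (.n 3 (.l 4) (.n 3 (.l 4) (.l 4))) (.n 3 (.l 4) (.n 3 (.l 4) (.l 4))))))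
    [(336467066880, 1761607680), (212600881152, 23622320128), (687194767360, 137438953472), (343597383680, 68719476736)] rfl (by decide +kernel)
end
mutual
theorem c1_m78_t43 : CovD 0 progs [(336467066880, 1761607680), (212600881152, 23622320128), (962072674304, 137438953472), (343597383680, 68719476736)] :=
  Pool.Agent.helper14.QF.covD_F chks_eq (.n 2 (.n 2 (.n 3 (.n 0 (.l 4) (.l 4)) (.n 3 (.l 4) (.l 4))) (.n 3 (.l 4) (.n 3 (.l 4) (.l 4)))) (.n 1 (.n 3 (.l 4) (.n 2 (.l 4) (.l 4))) (.n 3 (.l 4) (.n 2 (.l 4) (.l 4)))))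
    [(336467066880, 1761607680), (212600881152, 23622320128), (962072674304, 137438953472), (343597383680, 68719476736)] rfl (by decide +kernel)
theorem c1_m78_t49 : CovD 0 progs [(310042951680, 28185722880), (259845521408, 23622320128), (824633720832, 274877906944), (343597383680, 68719476736)] :=
  Pool.Agent.helper14.QF.covD_F chks_eq (.l 11)
    [(310042951680, 28185722880), (259845521408, 23622320128), (824633720832, 274877906944), (343597383680, 68719476736)] rfl (by decide +kernel)
theorem c1_m78_t51 : CovD 0 progs [(310042951680, 28185722880), (330712481792, 47244640256), (824633720832, 274877906944), (343597383680, 68719476736)] :=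
  Pool.Agent.helper14.QF.covD_F chks_eq (.l 11)
    [(310042951680, 28185722880), (330712481792, 47244640256), (824633720832, 274877906944), (343597383680, 68719476736)] rfl (by decide +kernel)
end
theorem c1_m78_t4 : CovD 0 progs [(306519736320, 3523215360), (212600881152, 23622320128), (824633720832, 274877906944), (343597383680, 68719476736)] :=
  covD_split 0 (by decide +kernel) c1_m78_t2 c1_m78_t3
theorem c1_m78_t5 : CovD 0 progs [(302996520960, 7046430720), (212600881152, 23622320128), (824633720832, 274877906944), (343597383680, 68719476736)] :=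
  covD_split 0 (by decide +kernel) c1_m78_t1 c1_m78_t4
theorem c1_m78_t6 : CovD 0 progs [(295950090240, 14092861440), (212600881152, 23622320128), (824633720832, 274877906944), (343597383680, 68719476736)] :=
  covD_split 0 (by decide +kernel) c1_m78_t0 c1_m78_t5
theorem c1_m78_t10 : CovD 0 progs [(315327774720, 1761607680), (212600881152, 23622320128), (824633720832, 274877906944), (343597383680, 68719476736)] :=
  covD_split 3 (by decide +kernel) c1_m78_t8 c1_m78_t9
theorem c1_m78_t11 : CovD 0 progs [(313566167040, 3523215360), (212600881152, 23622320128), (824633720832, 274877906944), (343597383680, 68719476736)] :=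
  covD_split 0 (by decide +kernel) c1_m78_t7 c1_m78_t10
theorem c1_m78_t14 : CovD 0 progs [(318850990080, 1761607680), (212600881152, 23622320128), (687194767360, 137438953472), (343597383680, 68719476736)] :=
  covD_split 0 (by decide +kernel) c1_m78_t12 c1_m78_t13
theorem c1_m78_t16 : CovD 0 progs [(318850990080, 1761607680), (212600881152, 23622320128), (824633720832, 274877906944), (343597383680, 68719476736)] :=
  covD_split 2 (by decide +kernel) c1_m78_t14 c1_m78_t15
theorem c1_m78_t19 : CovD 0 progs [(321493401600, 880803840), (212600881152, 23622320128), (824633720832, 274877906944), (343597383680, 68719476736)] :=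
  covD_split 2 (by decide +kernel) c1_m78_t17 c1_m78_t18
theorem c1_m78_t22 : CovD 0 progs [(323255009280, 880803840), (212600881152, 23622320128), (824633720832, 274877906944), (343597383680, 68719476736)] :=
  covD_split 2 (by decide +kernel) c1_m78_t20 c1_m78_t21
theorem c1_m78_t23 : CovD 0 progs [(322374205440, 1761607680), (212600881152, 23622320128), (824633720832, 274877906944), (343597383680, 68719476736)] :=
  covD_split 0 (by decide +kernel) c1_m78_t19 c1_m78_t22
theorem c1_m78_t24 : CovD 0 progs [(320612597760, 3523215360), (212600881152, 23622320128), (824633720832, 274877906944), (343597383680, 68719476736)] :=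
  covD_split 0 (by decide +kernel) c1_m78_t16 c1_m78_t23
theorem c1_m78_t25 : CovD 0 progs [(317089382400, 7046430720), (212600881152, 23622320128), (824633720832, 274877906944), (343597383680, 68719476736)] :=
  covD_split 0 (by decide +kernel) c1_m78_t11 c1_m78_t24
theorem c1_m78_t28 : CovD 0 progs [(325897420800, 1761607680), (212600881152, 23622320128), (687194767360, 137438953472), (343597383680, 68719476736)] :=
  covD_split 0 (by decide +kernel) c1_m78_t26 c1_m78_t27
theorem c1_m78_t30 : CovD 0 progs [(325897420800, 1761607680), (212600881152, 23622320128), (824633720832, 274877906944), (343597383680, 68719476736)] :=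
  covD_split 2 (by decide +kernel) c1_m78_t28 c1_m78_t29
theorem c1_m78_t33 : CovD 0 progs [(329420636160, 1761607680), (212600881152, 23622320128), (687194767360, 137438953472), (343597383680, 68719476736)] :=
  covD_split 0 (by decide +kernel) c1_m78_t31 c1_m78_t32
theorem c1_m78_t35 : CovD 0 progs [(329420636160, 1761607680), (212600881152, 23622320128), (824633720832, 274877906944), (343597383680, 68719476736)] :=
  covD_split 2 (by decide +kernel) c1_m78_t33 c1_m78_t34
theorem c1_m78_t36 : CovD 0 progs [(327659028480, 3523215360), (212600881152, 23622320128), (824633720832, 274877906944), (343597383680, 68719476736)] :=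
  covD_split 0 (by decide +kernel) c1_m78_t30 c1_m78_t35
theorem c1_m78_t39 : CovD 0 progs [(332943851520, 1761607680), (212600881152, 23622320128), (687194767360, 137438953472), (343597383680, 68719476736)] :=
  covD_split 2 (by decide +kernel) c1_m78_t37 c1_m78_t38
theorem c1_m78_t41 : CovD 0 progs [(332943851520, 1761607680), (212600881152, 23622320128), (824633720832, 274877906944), (343597383680, 68719476736)] :=
  covD_split 2 (by decide +kernel) c1_m78_t39 c1_m78_t40
theorem c1_m78_t44 : CovD 0 progs [(336467066880, 1761607680), (212600881152, 23622320128), (824633720832, 274877906944), (343597383680, 68719476736)] :=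
  covD_split 2 (by decide +kernel) c1_m78_t42 c1_m78_t43
theorem c1_m78_t45 : CovD 0 progs [(334705459200, 3523215360), (212600881152, 23622320128), (824633720832, 274877906944), (343597383680, 68719476736)] :=
  covD_split 0 (by decide +kernel) c1_m78_t41 c1_m78_t44
theorem c1_m78_t46 : CovD 0 progs [(331182243840, 7046430720), (212600881152, 23622320128), (824633720832, 274877906944), (343597383680, 68719476736)] :=
  covD_split 0 (by decide +kernel) c1_m78_t36 c1_m78_t45
theorem c1_m78_t47 : CovD 0 progs [(324135813120, 14092861440), (212600881152, 23622320128), (824633720832, 274877906944), (343597383680, 68719476736)] :=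
  covD_split 0 (by decide +kernel) c1_m78_t25 c1_m78_t46
theorem c1_m78_t48 : CovD 0 progs [(310042951680, 28185722880), (212600881152, 23622320128), (824633720832, 274877906944), (343597383680, 68719476736)] :=
  covD_split 0 (by decide +kernel) c1_m78_t6 c1_m78_t47
theorem c1_m78_t50 : CovD 0 progs [(310042951680, 28185722880), (236223201280, 47244640256), (824633720832, 274877906944), (343597383680, 68719476736)] :=
  covD_split 1 (by decide +kernel) c1_m78_t48 c1_m78_t49
theorem c1_m78 : CovD 0 progs [(310042951680, 28185722880), (283467841536, 94489280512), (824633720832, 274877906944), (343597383680, 68719476736)] :=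
  covD_split 1 (by decide +kernel) c1_m78_t50 c1_m78_t51

end Pool.Agent.helper71.FJ.Crt.QMa
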