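import Pool.Agent.helper71.FJ.Crt.QMaP

/-!
Generated certificates.
-/

namespace Pool.Agent.helper71.FJ.Crt.QMa

open Pool.Agent.helper31.IA (Z Op)
open Pool.Agent.helper31.IC

mutual
theorem c1_m79_t0 : CovD 0 progs [(288903659520, 7046430720), (212600881152, 23622320128), (824633720832, 274877906944), (429496729600, 17179869184)] :=
  Pool.Agent.helper14.QF.covD_F chks_eq (.n 0 (.n 2 (.l 4) (.l 4)) (.n 0 (.n 2 (.l 4) (.l 4)) (.n 2 (.l 4) (.n 0 (.l 4) (.l 4)))))
    [(288903659520, 7046430720), (212600881152, 23622320128), (824633720832, 274877906944), (429496729600, 17179869184)] rfl (by decide +kernel)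
theorem c1_m79_t1 : CovD 0 progs [(299473305600, 3523215360), (212600881152, 23622320128), (824633720832, 274877906944), (429496729600, 17179869184)] :=
  Pool.Agent.helper14.QF.covD_F chks_eq (.n 0 (.n 2 (.n 0 (.l 4) (.l 4)) (.n 2 (.l 4) (.l 4))) (.n 2 (.n 2 (.l 4) (.l 4)) (.n 2 (.l 4) (.l 4))))
    [(299473305600, 3523215360), (212600881152, 23622320128), (824633720832, 274877906944), (429496729600, 17179869184)] rfl (by decide +kernel)
end
mutual
theorem c1_m79_t2 : CovD 0 progs [(306519736320, 3523215360), (212600881152, 23622320128), (824633720832, 274877906944), (429496729600, 17179869184)] :=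
  Pool.Agent.helper14.QF.covD_F chks_eq (.n 0 (.n 0 (.n 2 (.n 2 (.l 4) (.l 4)) (.n 2 (.l 4) (.l 4))) (.n 2 (.n 2 (.l 4) (.l 4)) (.n 2 (.l 4) (.l 4)))) (.n 2 (.n 2 (.n 3 (.l 4) (.n 0 (.l 4) (.l 4))) (.n 3 (.l 4) (.n 0 (.l 4) (.l 4)))) (.n 1 (.n 2 (.n 0 (.l 4) (.l 4)) (.l 4)) (.n 2 (.n 0 (.l 4) (.l 4)) (.l 4)))))
    [(306519736320, 3523215360), (212600881152, 23622320128), (824633720832, 274877906944), (429496729600, 17179869184)] rfl (by decide +kernel)
theorem c1_m79_t5 : CovD 0 progs [(288903659520, 7046430720), (212600881152, 23622320128), (824633720832, 274877906944), (455266533376, 8589934592)] :=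
  Pool.Agent.helper14.QF.covD_F chks_eq (.n 0 (.n 2 (.l 4) (.l 4)) (.n 2 (.n 0 (.l 4) (.l 4)) (.n 2 (.l 4) (.l 4))))
    [(288903659520, 7046430720), (212600881152, 23622320128), (824633720832, 274877906944), (455266533376, 8589934592)] rfl (by decide +kernel)
end
mutual
theorem c1_m79_t6 : CovD 0 progs [(299473305600, 3523215360), (212600881152, 23622320128), (824633720832, 274877906944), (455266533376, 8589934592)] :=
  Pool.Agent.helper14.QF.covD_F chks_eq (.n 0 (.n 2 (.n 0 (.l 4) (.l 4)) (.n 2 (.l 4) (.l 4))) (.n 2 (.n 2 (.l 4) (.l 4)) (.n 2 (.l 4) (.l 4))))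
    [(299473305600, 3523215360), (212600881152, 23622320128), (824633720832, 274877906944), (455266533376, 8589934592)] rfl (by decide +kernel)
theorem c1_m79_t7 : CovD 0 progs [(306519736320, 3523215360), (212600881152, 23622320128), (824633720832, 274877906944), (455266533376, 8589934592)] :=
  Pool.Agent.helper14.QF.covD_F chks_eq (.n 0 (.n 0 (.n 2 (.n 2 (.l 4) (.l 4)) (.n 2 (.l 4) (.l 4))) (.n 2 (.n 2 (.l 4) (.l 4)) (.n 2 (.l 4) (.l 4)))) (.n 2 (.n 2 (.n 0 (.l 4) (.n 0 (.l 4) (.l 4))) (.n 2 (.l 4) (.l 4))) (.n 1 (.n 2 (.l 4) (.l 4)) (.n 2 (.l 4) (.l 4)))))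
    [(306519736320, 3523215360), (212600881152, 23622320128), (824633720832, 274877906944), (455266533376, 8589934592)] rfl (by decide +kernel)
end
mutual
theorem c1_m79_t10 : CovD 0 progs [(288903659520, 7046430720), (212600881152, 23622320128), (824633720832, 274877906944), (472446402560, 8589934592)] :=
  Pool.Agent.helper14.QF.covD_F chks_eq (.n 0 (.n 2 (.l 4) (.n 0 (.l 4) (.l 4))) (.n 0 (.n 2 (.l 4) (.l 4)) (.n 2 (.l 4) (.n 1 (.l 4) (.l 4)))))
    [(288903659520, 7046430720), (212600881152, 23622320128), (824633720832, 274877906944), (472446402560, 8589934592)] rfl (by decide +kernel)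
theorem c1_m79_t11 : CovD 0 progs [(299473305600, 3523215360), (212600881152, 23622320128), (824633720832, 274877906944), (472446402560, 8589934592)] :=
  Pool.Agent.helper14.QF.covD_F chks_eq (.n 0 (.n 2 (.n 2 (.l 4) (.l 4)) (.n 2 (.l 4) (.l 4))) (.n 2 (.n 2 (.l 4) (.n 0 (.l 4) (.l 4))) (.n 0 (.n 2 (.l 4) (.l 4)) (.n 2 (.l 4) (.l 4)))))
    [(299473305600, 3523215360), (212600881152, 23622320128), (824633720832, 274877906944), (472446402560, 8589934592)] rfl (by decide +kernel)
end
mutual
theorem c1_m79_t12 : CovD 0 progs [(306519736320, 3523215360), (212600881152, 23622320128), (824633720832, 274877906944), (472446402560, 8589934592)] :=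
  Pool.Agent.helper14.QF.covD_F chks_eq (.n 0 (.n 2 (.n 2 (.n 0 (.l 4) (.l 4)) (.n 2 (.l 4) (.l 4))) (.n 1 (.n 2 (.l 4) (.l 4)) (.n 2 (.l 4) (.l 4)))) (.n 2 (.n 0 (.n 1 (.n 2 (.l 4) (.l 4)) (.n 2 (.l 4) (.l 4))) (.n 1 (.n 2 (.l 4) (.l 4)) (.n 2 (.l 4) (.l 4)))) (.n 2 (.n 2 (.l 4) (.l 4)) (.n 1 (.l 4) (.l 4)))))
    [(306519736320, 3523215360), (212600881152, 23622320128), (824633720832, 274877906944), (472446402560, 8589934592)] rfl (by decide +kernel)
theorem c1_m79_t17 : CovD 0 progs [(285380444160, 3523215360), (212600881152, 23622320128), (824633720832, 274877906944), (515396075520, 34359738368)] :=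
  Pool.Agent.helper14.QF.covD_F chks_eq (.n 0 (.n 2 (.n 3 (.l 4) (.n 0 (.l 4) (.n 2 (.l 4) (.l 4)))) (.n 2 (.n 3 (.l 4) (.n 0 (.l 4) (.l 4))) (.l 6))) (.n 2 (.n 2 (.n 3 (.l 4) (.n 3 (.l 4) (.l 4))) (.n 3 (.l 4) (.n 3 (.l 4) (.l 4)))) (.n 2 (.n 3 (.l 4) (.n 3 (.l 4) (.l 4))) (.l 6))))
    [(285380444160, 3523215360), (212600881152, 23622320128), (824633720832, 274877906944), (515396075520, 34359738368)] rfl (by decide +kernel)
end
mutual
theorem c1_m79_t18 : CovD 0 progs [(290665267200, 1761607680), (212600881152, 23622320128), (824633720832, 274877906944), (515396075520, 34359738368)] :=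
  Pool.Agent.helper14.QF.covD_F chks_eq (.n 3 (.n 2 (.n 3 (.l 4) (.n 0 (.l 4) (.l 4))) (.n 0 (.n 2 (.l 4) (.l 4)) (.n 2 (.l 4) (.l 4)))) (.n 2 (.n 2 (.n 3 (.l 4) (.n 0 (.l 4) (.l 4))) (.n 3 (.l 4) (.n 0 (.l 4) (.l 4)))) (.n 2 (.n 3 (.l 4) (.n 0 (.l 4) (.l 4))) (.n 1 (.l 6) (.l 6)))))
    [(290665267200, 1761607680), (212600881152, 23622320128), (824633720832, 274877906944), (515396075520, 34359738368)] rfl (by decide +kernel)
theorem c1_m79_t19 : CovD 0 progs [(293307678720, 880803840), (212600881152, 23622320128), (824633720832, 274877906944), (515396075520, 34359738368)] :=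
  Pool.Agent.helper14.QF.covD_F chks_eq (.n 2 (.n 2 (.n 3 (.l 4) (.n 3 (.l 4) (.l 4))) (.n 3 (.l 4) (.n 3 (.l 4) (.n 0 (.l 4) (.l 4))))) (.n 2 (.n 3 (.l 4) (.n 3 (.l 4) (.n 0 (.l 4) (.l 4)))) (.n 1 (.l 6) (.n 3 (.l 4) (.l 4)))))
    [(293307678720, 880803840), (212600881152, 23622320128), (824633720832, 274877906944), (515396075520, 34359738368)] rfl (by decide +kernel)
end
mutual
theorem c1_m79_t20 : CovD 0 progs [(295069286400, 880803840), (212600881152, 23622320128), (824633720832, 274877906944), (515396075520, 34359738368)] :=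
  Pool.Agent.helper14.QF.covD_F chks_eq (.n 3 (.n 2 (.n 3 (.l 4) (.n 2 (.l 4) (.l 4))) (.n 0 (.n 2 (.l 4) (.l 4)) (.n 2 (.l 4) (.l 4)))) (.n 2 (.n 2 (.n 3 (.l 4) (.n 0 (.l 4) (.l 4))) (.n 3 (.l 4) (.n 1 (.l 4) (.l 4)))) (.n 2 (.n 3 (.l 4) (.n 1 (.l 4) (.l 4))) (.n 1 (.l 6) (.l 4)))))
    [(295069286400, 880803840), (212600881152, 23622320128), (824633720832, 274877906944), (515396075520, 34359738368)] rfl (by decide +kernel)
theorem c1_m79_t24 : CovD 0 progs [(302996520960, 7046430720), (200789721088, 11811160064), (687194767360, 137438953472), (489626271744, 8589934592)] :=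
  Pool.Agent.helper14.QF.covD_F chks_eq (.n 0 (.n 0 (.n 2 (.l 4) (.l 4)) (.n 0 (.n 2 (.l 4) (.l 4)) (.n 2 (.l 4) (.l 4)))) (.n 0 (.n 0 (.n 2 (.l 4) (.l 4)) (.n 2 (.l 4) (.l 4))) (.n 0 (.n 2 (.l 4) (.l 4)) (.n 2 (.l 4) (.l 4)))))
    [(302996520960, 7046430720), (200789721088, 11811160064), (687194767360, 137438953472), (489626271744, 8589934592)] rfl (by decide +kernel)
end
mutual
theorem c1_m79_t25 : CovD 0 progs [(302996520960, 7046430720), (200789721088, 11811160064), (687194767360, 137438953472), (506806140928, 8589934592)] :=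
  Pool.Agent.helper14.QF.covD_F chks_eq (.n 0 (.n 0 (.n 0 (.n 2 (.l 4) (.l 4)) (.n 2 (.l 4) (.l 4))) (.n 0 (.n 2 (.l 4) (.l 4)) (.n 2 (.l 4) (.l 4)))) (.n 0 (.n 0 (.n 2 (.n 0 (.l 4) (.l 4)) (.l 4)) (.n 2 (.n 0 (.l 4) (.l 4)) (.l 4))) (.n 0 (.n 2 (.l 4) (.l 4)) (.n 2 (.l 4) (.l 4)))))
    [(302996520960, 7046430720), (200789721088, 11811160064), (687194767360, 137438953472), (506806140928, 8589934592)] rfl (by decide +kernel)
theorem c1_m79_t27 : CovD 0 progs [(299473305600, 3523215360), (200789721088, 11811160064), (687194767360, 137438953472), (532575944704, 17179869184)] :=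
  Pool.Agent.helper14.QF.covD_F chks_eq (.n 0 (.n 0 (.n 2 (.n 3 (.l 4) (.n 0 (.l 4) (.l 4))) (.n 3 (.l 4) (.l 4))) (.n 2 (.n 3 (.l 4) (.n 0 (.l 4) (.l 4))) (.n 3 (.l 4) (.n 0 (.l 4) (.l 4))))) (.n 2 (.n 2 (.n 0 (.n 3 (.l 4) (.l 4)) (.n 3 (.l 4) (.l 4))) (.n 3 (.n 0 (.l 4) (.l 4)) (.l 4))) (.n 2 (.n 3 (.n 0 (.l 4) (.l 4)) (.l 4)) (.n 3 (.l 4) (.l 4)))))
    [(299473305600, 3523215360), (200789721088, 11811160064), (687194767360, 137438953472), (532575944704, 17179869184)] rfl (by decide +kernel)
end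
mutual
theorem c1_m79_t28 : CovD 0 progs [(306519736320, 3523215360), (200789721088, 11811160064), (687194767360, 137438953472), (532575944704, 17179869184)] :=
  Pool.Agent.helper14.QF.covD_F chks_eq (.n 0 (.n 2 (.n 3 (.n 2 (.l 4) (.l 4)) (.l 4)) (.n 2 (.n 0 (.l 4) (.l 4)) (.l 4))) (.n 2 (.n 3 (.l 4) (.n 0 (.l 4) (.l 4))) (.n 2 (.n 0 (.l 4) (.l 4)) (.l 4))))
    [(306519736320, 3523215360), (200789721088, 11811160064), (687194767360, 137438953472), (532575944704, 17179869184)] rfl (by decide +kernel)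
theorem c1_m79_t31 : CovD 0 progs [(302996520960, 7046430720), (200789721088, 11811160064), (893353197568, 68719476736), (515396075520, 34359738368)] :=
  Pool.Agent.helper14.QF.covD_F chks_eq (.n 0 (.n 0 (.n 3 (.n 3 (.l 4) (.l 4)) (.n 0 (.n 3 (.l 4) (.l 4)) (.n 2 (.l 4) (.l 4)))) (.n 3 (.n 3 (.l 4) (.n 0 (.l 4) (.l 4))) (.n 2 (.n 0 (.l 4) (.l 4)) (.l 4)))) (.n 2 (.n 0 (.n 3 (.n 0 (.l 4) (.l 4)) (.l 4)) (.n 3 (.l 4) (.l 4))) (.n 3 (.n 0 (.n 0 (.l 4) (.l 4)) (.l 4)) (.l 4))))
    [(302996520960, 7046430720), (200789721088, 11811160064), (893353197568, 68719476736), (515396075520, 34359738368)] rfl (by decide +kernel)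
end
mutual
theorem c1_m79_t32 : CovD 0 progs [(302996520960, 7046430720), (200789721088, 11811160064), (1030792151040, 68719476736), (515396075520, 34359738368)] :=
  Pool.Agent.helper14.QF.covD_F chks_eq (.n 0 (.n 0 (.l 6) (.n 1 (.l 6) (.n 3 (.l 4) (.l 4)))) (.n 2 (.n 3 (.n 0 (.l 4) (.l 4)) (.l 4)) (.l 6)))
    [(302996520960, 7046430720), (200789721088, 11811160064), (1030792151040, 68719476736), (515396075520, 34359738368)] rfl (by decide +kernel)
theorem c1_m79_t35 : CovD 0 progs [(297711697920, 1761607680), (224412041216, 11811160064), (824633720832, 274877906944), (498216206336, 17179869184)] :=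
  Pool.Agent.helper14.QF.covD_F chks_eq (.n 2 (.n 2 (.n 3 (.l 4) (.n 0 (.l 4) (.l 4))) (.n 3 (.l 4) (.n 0 (.l 4) (.l 4)))) (.n 2 (.n 3 (.l 4) (.l 4)) (.n 0 (.l 4) (.l 4))))
    [(297711697920, 1761607680), (224412041216, 11811160064), (824633720832, 274877906944), (498216206336, 17179869184)] rfl (by decide +kernel)
end
mutual
theorem c1_m79_t36 : CovD 0 progs [(297711697920, 1761607680), (224412041216, 11811160064), (824633720832, 274877906944), (532575944704, 17179869184)] :=
  Pool.Agent.helper14.QF.covD_F chks_eq (.n 2 (.n 2 (.n 0 (.n 3 (.l 4) (.n 0 (.l 4) (.l 4))) (.n 3 (.l 4) (.n 0 (.l 4) (.l 4)))) (.n 2 (.n 3 (.l 4) (.l 4)) (.n 3 (.l 4) (.l 4)))) (.n 2 (.n 2 (.n 0 (.l 4) (.l 4)) (.l 4)) (.n 0 (.l 4) (.l 4))))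
    [(297711697920, 1761607680), (224412041216, 11811160064), (824633720832, 274877906944), (532575944704, 17179869184)] rfl (by decide +kernel)
theorem c1_m79_t38 : CovD 0 progs [(301234913280, 1761607680), (224412041216, 11811160064), (687194767360, 137438953472), (515396075520, 34359738368)] :=
  Pool.Agent.helper14.QF.covD_F chks_eq (.n 2 (.n 3 (.n 0 (.n 3 (.l 4) (.l 4)) (.n 3 (.l 4) (.l 4))) (.n 2 (.n 0 (.n 3 (.l 4) (.l 4)) (.n 3 (.l 4) (.l 4))) (.n 3 (.n 0 (.l 4) (.l 4)) (.l 4)))) (.n 2 (.n 3 (.n 3 (.l 4) (.l 4)) (.n 3 (.l 4) (.l 4))) (.n 0 (.n 3 (.l 4) (.l 4)) (.n 3 (.l 4) (.l 4)))))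
    [(301234913280, 1761607680), (224412041216, 11811160064), (687194767360, 137438953472), (515396075520, 34359738368)] rfl (by decide +kernel)
end
mutual
theorem c1_m79_t39 : CovD 0 progs [(301234913280, 1761607680), (224412041216, 11811160064), (962072674304, 137438953472), (515396075520, 34359738368)] :=
  Pool.Agent.helper14.QF.covD_F chks_eq (.n 2 (.n 2 (.n 0 (.n 3 (.l 4) (.l 4)) (.n 3 (.l 4) (.l 4))) (.n 3 (.l 4) (.l 4))) (.n 0 (.n 3 (.l 4) (.l 4)) (.n 3 (.l 4) (.l 4))))
    [(301234913280, 1761607680), (224412041216, 11811160064), (962072674304, 137438953472), (515396075520, 34359738368)] rfl (by decide +kernel)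
theorem c1_m79_t42 : CovD 0 progs [(304758128640, 1761607680), (224412041216, 11811160064), (687194767360, 137438953472), (515396075520, 34359738368)] :=
  Pool.Agent.helper14.QF.covD_F chks_eq (.n 2 (.n 3 (.n 3 (.n 0 (.l 4) (.l 4)) (.n 2 (.n 0 (.l 4) (.l 4)) (.l 4))) (.n 3 (.n 2 (.l 4) (.l 4)) (.l 4))) (.n 2 (.n 3 (.n 3 (.l 4) (.l 4)) (.l 4)) (.n 3 (.n 0 (.l 4) (.l 4)) (.l 4))))
    [(304758128640, 1761607680), (224412041216, 11811160064), (687194767360, 137438953472), (515396075520, 34359738368)] rfl (by decide +kernel)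
end
mutual
theorem c1_m79_t43 : CovD 0 progs [(308281344000, 1761607680), (224412041216, 11811160064), (687194767360, 137438953472), (515396075520, 34359738368)] :=
  Pool.Agent.helper14.QF.covD_F chks_eq (.n 2 (.n 3 (.n 2 (.n 3 (.n 0 (.l 4) (.l 4)) (.l 4)) (.n 3 (.l 4) (.l 4))) (.n 3 (.l 4) (.n 0 (.l 4) (.l 4)))) (.n 2 (.n 0 (.n 3 (.l 4) (.l 4)) (.n 3 (.l 4) (.l 4))) (.n 3 (.n 0 (.l 4) (.l 4)) (.l 4))))
    [(308281344000, 1761607680), (224412041216, 11811160064), (687194767360, 137438953472), (515396075520, 34359738368)] rfl (by decide +kernel)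
theorem c1_m79_t45 : CovD 0 progs [(306519736320, 3523215360), (224412041216, 11811160064), (962072674304, 137438953472), (515396075520, 34359738368)] :=
  Pool.Agent.helper14.QF.covD_F chks_eq (.n 2 (.n 2 (.n 3 (.n 0 (.n 0 (.l 4) (.l 4)) (.l 4)) (.l 4)) (.n 3 (.n 0 (.l 4) (.l 4)) (.l 4))) (.n 0 (.n 2 (.n 3 (.l 4) (.l 4)) (.l 4)) (.n 2 (.l 4) (.l 4))))
    [(306519736320, 3523215360), (224412041216, 11811160064), (962072674304, 137438953472), (515396075520, 34359738368)] rfl (by decide +kernel)
end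
mutual
theorem c1_m79_t51 : CovD 0 progs [(295950090240, 14092861440), (259845521408, 23622320128), (824633720832, 274877906944), (481036337152, 68719476736)] :=
  Pool.Agent.helper14.QF.covD_F chks_eq (.l 11)
    [(295950090240, 14092861440), (259845521408, 23622320128), (824633720832, 274877906944), (481036337152, 68719476736)] rfl (by decide +kernel)
theorem c1_m79_t53 : CovD 0 progs [(295950090240, 14092861440), (330712481792, 47244640256), (824633720832, 274877906944), (481036337152, 68719476736)] :=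
  Pool.Agent.helper14.QF.covD_F chks_eq (.l 11)
    [(295950090240, 14092861440), (330712481792, 47244640256), (824633720832, 274877906944), (481036337152, 68719476736)] rfl (by decide +kernel)
end
theorem c1_m79_t3 : CovD 0 progs [(302996520960, 7046430720), (212600881152, 23622320128), (824633720832, 274877906944), (429496729600, 17179869184)] :=
  covD_split 0 (by decide +kernel) c1_m79_t1 c1_m79_t2
theorem c1_m79_t4 : CovD 0 progs [(295950090240, 14092861440), (212600881152, 23622320128), (824633720832, 274877906944), (429496729600, 17179869184)] :=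
  covD_split 0 (by decide +kernel) c1_m79_t0 c1_m79_t3
theorem c1_m79_t8 : CovD 0 progs [(302996520960, 7046430720), (212600881152, 23622320128), (824633720832, 274877906944), (455266533376, 8589934592)] :=
  covD_split 0 (by decide +kernel) c1_m79_t6 c1_m79_t7
theorem c1_m79_t9 : CovD 0 progs [(295950090240, 14092861440), (212600881152, 23622320128), (824633720832, 274877906944), (455266533376, 8589934592)] :=
  covD_split 0 (by decide +kernel) c1_m79_t5 c1_m79_t8
theorem c1_m79_t13 : CovD 0 progs [(302996520960, 7046430720), (212600881152, 23622320128), (824633720832, 274877906944), (472446402560, 8589934592)] :=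
  covD_split 0 (by decide +kernel) c1_m79_t11 c1_m79_t12
theorem c1_m79_t14 : CovD 0 progs [(295950090240, 14092861440), (212600881152, 23622320128), (824633720832, 274877906944), (472446402560, 8589934592)] :=
  covD_split 0 (by decide +kernel) c1_m79_t10 c1_m79_t13
theorem c1_m79_t15 : CovD 0 progs [(295950090240, 14092861440), (212600881152, 23622320128), (824633720832, 274877906944), (463856467968, 17179869184)] :=
  covD_split 3 (by decide +kernel) c1_m79_t9 c1_m79_t14
theorem c1_m79_t16 : CovD 0 progs [(295950090240, 14092861440), (212600881152, 23622320128), (824633720832, 274877906944), (446676598784, 34359738368)] :=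
  covD_split 3 (by decide +kernel) c1_m79_t4 c1_m79_t15
theorem c1_m79_t21 : CovD 0 progs [(294188482560, 1761607680), (212600881152, 23622320128), (824633720832, 274877906944), (515396075520, 34359738368)] :=
  covD_split 0 (by decide +kernel) c1_m79_t19 c1_m79_t20
theorem c1_m79_t22 : CovD 0 progs [(292426874880, 3523215360), (212600881152, 23622320128), (824633720832, 274877906944), (515396075520, 34359738368)] :=
  covD_split 0 (by decide +kernel) c1_m79_t18 c1_m79_t21
theorem c1_m79_t23 : CovD 0 progs [(288903659520, 7046430720), (212600881152, 23622320128), (824633720832, 274877906944), (515396075520, 34359738368)] :=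
  covD_split 0 (by decide +kernel) c1_m79_t17 c1_m79_t22
theorem c1_m79_t26 : CovD 0 progs [(302996520960, 7046430720), (200789721088, 11811160064), (687194767360, 137438953472), (498216206336, 17179869184)] :=
  covD_split 3 (by decide +kernel) c1_m79_t24 c1_m79_t25
theorem c1_m79_t29 : CovD 0 progs [(302996520960, 7046430720), (200789721088, 11811160064), (687194767360, 137438953472), (532575944704, 17179869184)] :=
  covD_split 0 (by decide +kernel) c1_m79_t27 c1_m79_t28
theorem c1_m79_t30 : CovD 0 progs [(302996520960, 7046430720), (200789721088, 11811160064), (687194767360, 137438953472), (515396075520, 34359738368)] :=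
  covD_split 3 (by decide +kernel) c1_m79_t26 c1_m79_t29
theorem c1_m79_t33 : CovD 0 progs [(302996520960, 7046430720), (200789721088, 11811160064), (962072674304, 137438953472), (515396075520, 34359738368)] :=
  covD_split 2 (by decide +kernel) c1_m79_t31 c1_m79_t32
theorem c1_m79_t34 : CovD 0 progs [(302996520960, 7046430720), (200789721088, 11811160064), (824633720832, 274877906944), (515396075520, 34359738368)] :=
  covD_split 2 (by decide +kernel) c1_m79_t30 c1_m79_t33
theorem c1_m79_t37 : CovD 0 progs [(297711697920, 1761607680), (224412041216, 11811160064), (824633720832, 274877906944), (515396075520, 34359738368)] :=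
  covD_split 3 (by decide +kernel) c1_m79_t35 c1_m79_t36
theorem c1_m79_t40 : CovD 0 progs [(301234913280, 1761607680), (224412041216, 11811160064), (824633720832, 274877906944), (515396075520, 34359738368)] :=
  covD_split 2 (by decide +kernel) c1_m79_t38 c1_m79_t39
theorem c1_m79_t41 : CovD 0 progs [(299473305600, 3523215360), (224412041216, 11811160064), (824633720832, 274877906944), (515396075520, 34359738368)] :=
  covD_split 0 (by decide +kernel) c1_m79_t37 c1_m79_t40
theorem c1_m79_t44 : CovD 0 progs [(306519736320, 3523215360), (224412041216, 11811160064), (687194767360, 137438953472), (515396075520, 34359738368)] :=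
  covD_split 0 (by decide +kernel) c1_m79_t42 c1_m79_t43
theorem c1_m79_t46 : CovD 0 progs [(306519736320, 3523215360), (224412041216, 11811160064), (824633720832, 274877906944), (515396075520, 34359738368)] :=
  covD_split 2 (by decide +kernel) c1_m79_t44 c1_m79_t45
theorem c1_m79_t47 : CovD 0 progs [(302996520960, 7046430720), (224412041216, 11811160064), (824633720832, 274877906944), (515396075520, 34359738368)] :=
  covD_split 0 (by decide +kernel) c1_m79_t41 c1_m79_t46
theorem c1_m79_t48 : CovD 0 progs [(302996520960, 7046430720), (212600881152, 23622320128), (824633720832, 274877906944), (515396075520, 34359738368)] :=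
  covD_split 1 (by decide +kernel) c1_m79_t34 c1_m79_t47
theorem c1_m79_t49 : CovD 0 progs [(295950090240, 14092861440), (212600881152, 23622320128), (824633720832, 274877906944), (515396075520, 34359738368)] :=
  covD_split 0 (by decide +kernel) c1_m79_t23 c1_m79_t48
theorem c1_m79_t50 : CovD 0 progs [(295950090240, 14092861440), (212600881152, 23622320128), (824633720832, 274877906944), (481036337152, 68719476736)] :=
  covD_split 3 (by decide +kernel) c1_m79_t16 c1_m79_t49
theorem c1_m79_t52 : CovD 0 progs [(295950090240, 14092861440), (236223201280, 47244640256), (824633720832, 274877906944), (481036337152, 68719476736)] :=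
  covD_split 1 (by decide +kernel) c1_m79_t50 c1_m79_t51
theorem c1_m79 : CovD 0 progs [(295950090240, 14092861440), (283467841536, 94489280512), (824633720832, 274877906944), (481036337152, 68719476736)] :=
  covD_split 1 (by decide +kernel) c1_m79_t52 c1_m79_t53

end Pool.Agent.helper71.FJ.Crt.QMa
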