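import Pool.Agent.helper71.FJ.Crt.QMaP

/-!
Generated certificates.
-/

namespace Pool.Agent.helper71.FJ.Crt.QMa

open Pool.Agent.helper31.IA (Z Op)
open Pool.Agent.helper31.IC

mutual
theorem c1_m8_t0 : CovD 0 progs [(311804559360, 1761607680), (94489280512, 94489280512), (274877906944, 274877906944), (489626271744, 8589934592)] :=
  Pool.Agent.helper14.QF.covD_F chks_eq (.n 2 (.n 2 (.n 2 (.l 4) (.l 4)) (.n 0 (.n 1 (.l 4) (.l 4)) (.n 1 (.l 4) (.l 4)))) (.n 1 (.n 0 (.n 2 (.l 4) (.n 0 (.l 4) (.l 4))) (.n 2 (.l 4) (.l 4))) (.n 2 (.n 2 (.l 4) (.l 4)) (.n 0 (.n 1 (.l 4) (.l 4)) (.n 1 (.l 4) (.l 4))))))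
    [(311804559360, 1761607680), (94489280512, 94489280512), (274877906944, 274877906944), (489626271744, 8589934592)] rfl (by decide +kernel)
theorem c1_m8_t1 : CovD 0 progs [(315327774720, 1761607680), (94489280512, 94489280512), (274877906944, 274877906944), (489626271744, 8589934592)] :=
  Pool.Agent.helper14.QF.covD_F chks_eq (.n 0 (.n 2 (.n 2 (.l 4) (.n 0 (.l 4) (.l 4))) (.n 1 (.n 2 (.l 4) (.l 4)) (.n 2 (.l 4) (.n 1 (.l 4) (.l 4))))) (.n 1 (.n 2 (.n 1 (.l 4) (.l 4)) (.n 2 (.l 4) (.l 4))) (.n 2 (.n 2 (.l 4) (.l 4)) (.n 2 (.l 4) (.n 1 (.l 4) (.l 4))))))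
    [(315327774720, 1761607680), (94489280512, 94489280512), (274877906944, 274877906944), (489626271744, 8589934592)] rfl (by decide +kernel)
end
mutual
theorem c1_m8_t3 : CovD 0 progs [(318850990080, 1761607680), (94489280512, 94489280512), (274877906944, 274877906944), (489626271744, 8589934592)] :=
  Pool.Agent.helper14.QF.covD_F chks_eq (.n 0 (.n 1 (.n 2 (.n 2 (.l 4) (.l 4)) (.n 2 (.l 4) (.l 4))) (.n 2 (.n 2 (.l 4) (.l 4)) (.n 2 (.l 4) (.n 1 (.l 4) (.l 4))))) (.n 2 (.n 2 (.l 4) (.n 0 (.l 4) (.l 4))) (.n 1 (.n 2 (.l 4) (.l 4)) (.n 2 (.l 4) (.n 0 (.l 4) (.l 4))))))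
    [(318850990080, 1761607680), (94489280512, 94489280512), (274877906944, 274877906944), (489626271744, 8589934592)] rfl (by decide +kernel)
theorem c1_m8_t4 : CovD 0 progs [(322374205440, 1761607680), (94489280512, 94489280512), (274877906944, 274877906944), (489626271744, 8589934592)] :=
  Pool.Agent.helper14.QF.covD_F chks_eq (.n 0 (.n 2 (.n 2 (.l 4) (.l 4)) (.n 1 (.n 1 (.l 4) (.l 4)) (.n 2 (.l 4) (.n 0 (.l 4) (.l 4))))) (.n 2 (.n 2 (.l 4) (.l 4)) (.n 2 (.l 4) (.n 1 (.l 4) (.l 4)))))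
    [(322374205440, 1761607680), (94489280512, 94489280512), (274877906944, 274877906944), (489626271744, 8589934592)] rfl (by decide +kernel)
end
mutual
theorem c1_m8_t7 : CovD 0 progs [(331182243840, 7046430720), (94489280512, 94489280512), (274877906944, 274877906944), (489626271744, 8589934592)] :=
  Pool.Agent.helper14.QF.covD_F chks_eq (.n 0 (.n 0 (.n 2 (.n 2 (.l 4) (.l 4)) (.n 1 (.n 0 (.l 4) (.l 4)) (.n 2 (.l 4) (.l 4)))) (.n 2 (.n 0 (.l 8) (.l 8)) (.n 2 (.l 4) (.l 4)))) (.n 0 (.n 2 (.l 8) (.n 0 (.l 8) (.l 8))) (.n 2 (.l 8) (.l 8))))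
    [(331182243840, 7046430720), (94489280512, 94489280512), (274877906944, 274877906944), (489626271744, 8589934592)] rfl (by decide +kernel)
theorem c1_m8_t9 : CovD 0 progs [(311804559360, 1761607680), (94489280512, 94489280512), (274877906944, 274877906944), (506806140928, 8589934592)] :=
  Pool.Agent.helper14.QF.covD_F chks_eq (.n 2 (.n 2 (.n 1 (.l 4) (.l 4)) (.n 2 (.l 4) (.l 4))) (.n 1 (.n 0 (.n 1 (.l 4) (.l 4)) (.n 2 (.l 4) (.l 4))) (.n 1 (.n 2 (.l 4) (.l 4)) (.n 2 (.l 4) (.n 0 (.l 4) (.l 4))))))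
    [(311804559360, 1761607680), (94489280512, 94489280512), (274877906944, 274877906944), (506806140928, 8589934592)] rfl (by decide +kernel)
end
mutual
theorem c1_m8_t10 : CovD 0 progs [(315327774720, 1761607680), (94489280512, 94489280512), (274877906944, 274877906944), (506806140928, 8589934592)] :=
  Pool.Agent.helper14.QF.covD_F chks_eq (.n 0 (.n 1 (.n 2 (.n 2 (.l 4) (.l 4)) (.n 2 (.l 4) (.n 0 (.l 4) (.l 4)))) (.n 2 (.n 2 (.l 4) (.l 4)) (.n 1 (.n 2 (.l 4) (.l 4)) (.n 2 (.l 4) (.l 4))))) (.n 1 (.n 2 (.n 2 (.l 4) (.l 4)) (.n 2 (.l 4) (.l 4))) (.n 2 (.n 2 (.l 4) (.l 4)) (.n 2 (.l 4) (.n 1 (.l 4) (.l 4))))))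
    [(315327774720, 1761607680), (94489280512, 94489280512), (274877906944, 274877906944), (506806140928, 8589934592)] rfl (by decide +kernel)
theorem c1_m8_t12 : CovD 0 progs [(320612597760, 3523215360), (94489280512, 94489280512), (274877906944, 274877906944), (506806140928, 8589934592)] :=
  Pool.Agent.helper14.QF.covD_F chks_eq (.n 0 (.n 0 (.n 2 (.n 2 (.l 4) (.n 0 (.l 4) (.l 4))) (.n 1 (.n 2 (.l 4) (.l 4)) (.n 2 (.l 4) (.n 0 (.l 4) (.l 4))))) (.n 2 (.n 2 (.l 4) (.l 4)) (.n 1 (.n 1 (.l 4) (.l 4)) (.n 2 (.l 4) (.l 4))))) (.n 2 (.n 2 (.l 4) (.n 0 (.l 4) (.l 4))) (.n 0 (.n 2 (.l 4) (.n 1 (.l 4) (.l 4))) (.n 2 (.l 4) (.l 4)))))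
    [(320612597760, 3523215360), (94489280512, 94489280512), (274877906944, 274877906944), (506806140928, 8589934592)] rfl (by decide +kernel)
end
mutual
theorem c1_m8_t14 : CovD 0 progs [(331182243840, 7046430720), (94489280512, 94489280512), (274877906944, 274877906944), (506806140928, 8589934592)] :=
  Pool.Agent.helper14.QF.covD_F chks_eq (.n 0 (.n 0 (.n 1 (.n 2 (.l 4) (.l 4)) (.n 2 (.l 4) (.n 0 (.l 4) (.l 4)))) (.n 2 (.l 8) (.n 1 (.l 4) (.l 4)))) (.n 0 (.n 2 (.l 8) (.l 8)) (.n 2 (.l 8) (.l 8))))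
    [(331182243840, 7046430720), (94489280512, 94489280512), (274877906944, 274877906944), (506806140928, 8589934592)] rfl (by decide +kernel)
theorem c1_m8_t17 : CovD 0 progs [(313566167040, 3523215360), (94489280512, 94489280512), (274877906944, 274877906944), (519691042816, 4294967296)] :=
  Pool.Agent.helper14.QF.covD_F chks_eq (.n 0 (.n 1 (.n 2 (.n 2 (.l 4) (.l 4)) (.n 2 (.l 4) (.n 0 (.l 4) (.l 4)))) (.n 2 (.n 2 (.l 4) (.l 4)) (.n 2 (.n 0 (.l 4) (.l 4)) (.n 2 (.l 4) (.l 4))))) (.n 1 (.n 2 (.n 2 (.l 4) (.l 4)) (.n 2 (.l 4) (.l 4))) (.n 2 (.n 2 (.l 4) (.l 4)) (.n 2 (.l 4) (.n 0 (.l 4) (.l 4))))))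
    [(313566167040, 3523215360), (94489280512, 94489280512), (274877906944, 274877906944), (519691042816, 4294967296)] rfl (by decide +kernel)
end
mutual
theorem c1_m8_t18 : CovD 0 progs [(320612597760, 3523215360), (94489280512, 94489280512), (274877906944, 274877906944), (519691042816, 4294967296)] :=
  Pool.Agent.helper14.QF.covD_F chks_eq (.n 0 (.n 2 (.n 2 (.l 4) (.l 4)) (.n 1 (.n 0 (.l 4) (.l 4)) (.n 2 (.l 4) (.l 4)))) (.n 2 (.n 0 (.l 4) (.l 4)) (.n 2 (.l 4) (.l 4))))
    [(320612597760, 3523215360), (94489280512, 94489280512), (274877906944, 274877906944), (519691042816, 4294967296)] rfl (by decide +kernel)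
theorem c1_m8_t20 : CovD 0 progs [(331182243840, 7046430720), (94489280512, 94489280512), (274877906944, 274877906944), (519691042816, 4294967296)] :=
  Pool.Agent.helper14.QF.covD_F chks_eq (.n 0 (.n 0 (.n 2 (.l 8) (.n 0 (.l 8) (.l 8))) (.n 2 (.l 8) (.l 8))) (.n 2 (.l 8) (.l 8)))
    [(331182243840, 7046430720), (94489280512, 94489280512), (274877906944, 274877906944), (519691042816, 4294967296)] rfl (by decide +kernel)
end
mutual
theorem c1_m8_t22 : CovD 0 progs [(313566167040, 3523215360), (94489280512, 94489280512), (274877906944, 274877906944), (528280977408, 4294967296)] :=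
  Pool.Agent.helper14.QF.covD_F chks_eq (.n 0 (.n 1 (.n 2 (.n 2 (.l 4) (.l 4)) (.n 2 (.l 4) (.n 0 (.l 4) (.l 4)))) (.n 2 (.n 2 (.l 4) (.l 4)) (.n 0 (.n 2 (.l 4) (.n 0 (.l 4) (.l 4))) (.n 2 (.l 4) (.l 4))))) (.n 2 (.n 2 (.l 4) (.n 0 (.l 4) (.l 4))) (.n 1 (.n 2 (.l 4) (.l 4)) (.n 2 (.l 4) (.n 0 (.l 4) (.l 4))))))
    [(313566167040, 3523215360), (94489280512, 94489280512), (274877906944, 274877906944), (528280977408, 4294967296)] rfl (by decide +kernel)
theorem c1_m8_t23 : CovD 0 progs [(320612597760, 3523215360), (94489280512, 94489280512), (274877906944, 274877906944), (528280977408, 4294967296)] :=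
  Pool.Agent.helper14.QF.covD_F chks_eq (.n 0 (.n 2 (.n 1 (.l 4) (.l 4)) (.n 2 (.l 4) (.n 0 (.l 4) (.l 4)))) (.n 1 (.n 2 (.l 4) (.l 4)) (.n 2 (.l 4) (.l 4))))
    [(320612597760, 3523215360), (94489280512, 94489280512), (274877906944, 274877906944), (528280977408, 4294967296)] rfl (by decide +kernel)
end
mutual
theorem c1_m8_t25 : CovD 0 progs [(331182243840, 7046430720), (94489280512, 94489280512), (274877906944, 274877906944), (528280977408, 4294967296)] :=
  Pool.Agent.helper14.QF.covD_F chks_eq (.n 0 (.n 1 (.n 2 (.l 4) (.l 4)) (.n 2 (.l 8) (.l 8))) (.n 2 (.l 8) (.l 8)))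
    [(331182243840, 7046430720), (94489280512, 94489280512), (274877906944, 274877906944), (528280977408, 4294967296)] rfl (by decide +kernel)
theorem c1_m8_t28 : CovD 0 progs [(311804559360, 1761607680), (94489280512, 94489280512), (274877906944, 274877906944), (541165879296, 8589934592)] :=
  Pool.Agent.helper14.QF.covD_F chks_eq (.n 0 (.n 1 (.n 2 (.n 2 (.l 4) (.l 4)) (.n 2 (.l 4) (.n 0 (.l 4) (.l 4)))) (.n 2 (.n 2 (.l 4) (.l 4)) (.n 1 (.n 2 (.l 4) (.l 4)) (.n 2 (.l 4) (.l 4))))) (.n 2 (.n 2 (.l 4) (.n 0 (.l 4) (.l 4))) (.n 1 (.n 2 (.l 4) (.l 4)) (.n 2 (.l 4) (.n 0 (.l 4) (.l 4))))))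
    [(311804559360, 1761607680), (94489280512, 94489280512), (274877906944, 274877906944), (541165879296, 8589934592)] rfl (by decide +kernel)
end
mutual
theorem c1_m8_t29 : CovD 0 progs [(315327774720, 1761607680), (94489280512, 94489280512), (274877906944, 274877906944), (541165879296, 8589934592)] :=
  Pool.Agent.helper14.QF.covD_F chks_eq (.n 0 (.n 2 (.n 2 (.l 4) (.l 4)) (.n 1 (.n 1 (.l 4) (.l 4)) (.n 2 (.l 4) (.l 4)))) (.n 2 (.n 1 (.l 4) (.l 4)) (.n 2 (.l 4) (.n 1 (.l 4) (.l 4)))))
    [(315327774720, 1761607680), (94489280512, 94489280512), (274877906944, 274877906944), (541165879296, 8589934592)] rfl (by decide +kernel)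
theorem c1_m8_t31 : CovD 0 progs [(320612597760, 3523215360), (94489280512, 94489280512), (274877906944, 274877906944), (541165879296, 8589934592)] :=
  Pool.Agent.helper14.QF.covD_F chks_eq (.n 0 (.n 2 (.n 2 (.l 4) (.l 4)) (.n 2 (.l 4) (.n 0 (.l 4) (.l 4)))) (.n 1 (.n 2 (.l 4) (.l 4)) (.n 2 (.l 4) (.l 4))))
    [(320612597760, 3523215360), (94489280512, 94489280512), (274877906944, 274877906944), (541165879296, 8589934592)] rfl (by decide +kernel)
theorem c1_m8_t33 : CovD 0 progs [(331182243840, 7046430720), (94489280512, 94489280512), (274877906944, 274877906944), (541165879296, 8589934592)] :=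
  Pool.Agent.helper14.QF.covD_F chks_eq (.n 0 (.n 2 (.n 0 (.l 8) (.l 8)) (.n 2 (.l 4) (.l 4))) (.n 2 (.l 8) (.l 8)))
    [(331182243840, 7046430720), (94489280512, 94489280512), (274877906944, 274877906944), (541165879296, 8589934592)] rfl (by decide +kernel)
end
theorem c1_m8_t2 : CovD 0 progs [(313566167040, 3523215360), (94489280512, 94489280512), (274877906944, 274877906944), (489626271744, 8589934592)] :=
  covD_split 0 (by decide +kernel) c1_m8_t0 c1_m8_t1
theorem c1_m8_t5 : CovD 0 progs [(320612597760, 3523215360), (94489280512, 94489280512), (274877906944, 274877906944), (489626271744, 8589934592)] :=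
  covD_split 0 (by decide +kernel) c1_m8_t3 c1_m8_t4
theorem c1_m8_t6 : CovD 0 progs [(317089382400, 7046430720), (94489280512, 94489280512), (274877906944, 274877906944), (489626271744, 8589934592)] :=
  covD_split 0 (by decide +kernel) c1_m8_t2 c1_m8_t5
theorem c1_m8_t8 : CovD 0 progs [(324135813120, 14092861440), (94489280512, 94489280512), (274877906944, 274877906944), (489626271744, 8589934592)] :=
  covD_split 0 (by decide +kernel) c1_m8_t6 c1_m8_t7
theorem c1_m8_t11 : CovD 0 progs [(313566167040, 3523215360), (94489280512, 94489280512), (274877906944, 274877906944), (506806140928, 8589934592)] :=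
  covD_split 0 (by decide +kernel) c1_m8_t9 c1_m8_t10
theorem c1_m8_t13 : CovD 0 progs [(317089382400, 7046430720), (94489280512, 94489280512), (274877906944, 274877906944), (506806140928, 8589934592)] :=
  covD_split 0 (by decide +kernel) c1_m8_t11 c1_m8_t12
theorem c1_m8_t15 : CovD 0 progs [(324135813120, 14092861440), (94489280512, 94489280512), (274877906944, 274877906944), (506806140928, 8589934592)] :=
  covD_split 0 (by decide +kernel) c1_m8_t13 c1_m8_t14
theorem c1_m8_t16 : CovD 0 progs [(324135813120, 14092861440), (94489280512, 94489280512), (274877906944, 274877906944), (498216206336, 17179869184)] :=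
  covD_split 3 (by decide +kernel) c1_m8_t8 c1_m8_t15
theorem c1_m8_t19 : CovD 0 progs [(317089382400, 7046430720), (94489280512, 94489280512), (274877906944, 274877906944), (519691042816, 4294967296)] :=
  covD_split 0 (by decide +kernel) c1_m8_t17 c1_m8_t18
theorem c1_m8_t21 : CovD 0 progs [(324135813120, 14092861440), (94489280512, 94489280512), (274877906944, 274877906944), (519691042816, 4294967296)] :=
  covD_split 0 (by decide +kernel) c1_m8_t19 c1_m8_t20
theorem c1_m8_t24 : CovD 0 progs [(317089382400, 7046430720), (94489280512, 94489280512), (274877906944, 274877906944), (528280977408, 4294967296)] :=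
  covD_split 0 (by decide +kernel) c1_m8_t22 c1_m8_t23
theorem c1_m8_t26 : CovD 0 progs [(324135813120, 14092861440), (94489280512, 94489280512), (274877906944, 274877906944), (528280977408, 4294967296)] :=
  covD_split 0 (by decide +kernel) c1_m8_t24 c1_m8_t25
theorem c1_m8_t27 : CovD 0 progs [(324135813120, 14092861440), (94489280512, 94489280512), (274877906944, 274877906944), (523986010112, 8589934592)] :=
  covD_split 3 (by decide +kernel) c1_m8_t21 c1_m8_t26
theorem c1_m8_t30 : CovD 0 progs [(313566167040, 3523215360), (94489280512, 94489280512), (274877906944, 274877906944), (541165879296, 8589934592)] :=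
  covD_split 0 (by decide +kernel) c1_m8_t28 c1_m8_t29
theorem c1_m8_t32 : CovD 0 progs [(317089382400, 7046430720), (94489280512, 94489280512), (274877906944, 274877906944), (541165879296, 8589934592)] :=
  covD_split 0 (by decide +kernel) c1_m8_t30 c1_m8_t31
theorem c1_m8_t34 : CovD 0 progs [(324135813120, 14092861440), (94489280512, 94489280512), (274877906944, 274877906944), (541165879296, 8589934592)] :=
  covD_split 0 (by decide +kernel) c1_m8_t32 c1_m8_t33
theorem c1_m8_t35 : CovD 0 progs [(324135813120, 14092861440), (94489280512, 94489280512), (274877906944, 274877906944), (532575944704, 17179869184)] :=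
  covD_split 3 (by decide +kernel) c1_m8_t27 c1_m8_t34
theorem c1_m8 : CovD 0 progs [(324135813120, 14092861440), (94489280512, 94489280512), (274877906944, 274877906944), (515396075520, 34359738368)] :=
  covD_split 3 (by decide +kernel) c1_m8_t16 c1_m8_t35

end Pool.Agent.helper71.FJ.Crt.QMa
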