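import Pool.Agent.helper71.FJ.Crt.QMaP

/-!
Generated certificates.
-/

namespace Pool.Agent.helper71.FJ.Crt.QMa

open Pool.Agent.helper31.IA (Z Op)
open Pool.Agent.helper31.IC

mutual
theorem c1_m80_t0 : CovD 0 progs [(310923755520, 880803840), (212600881152, 23622320128), (687194767360, 137438953472), (481036337152, 68719476736)] :=
  Pool.Agent.helper14.QF.covD_F chks_eq (.n 2 (.n 3 (.n 3 (.n 3 (.l 4) (.l 4)) (.n 2 (.n 3 (.l 4) (.l 4)) (.n 3 (.l 4) (.l 4)))) (.n 2 (.n 3 (.l 4) (.n 3 (.l 4) (.l 4))) (.n 3 (.l 4) (.n 3 (.l 4) (.l 4))))) (.n 2 (.n 3 (.n 3 (.l 4) (.n 3 (.l 4) (.l 4))) (.n 3 (.l 4) (.n 3 (.l 4) (.l 4)))) (.n 3 (.n 3 (.l 4) (.n 0 (.l 4) (.l 4))) (.n 3 (.l 4) (.n 1 (.l 4) (.l 4))))))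
    [(310923755520, 880803840), (212600881152, 23622320128), (687194767360, 137438953472), (481036337152, 68719476736)] rfl (by decide +kernel)
theorem c1_m80_t1 : CovD 0 progs [(312685363200, 880803840), (212600881152, 23622320128), (618475290624, 68719476736), (481036337152, 68719476736)] :=
  Pool.Agent.helper14.QF.covD_F chks_eq (.n 3 (.n 3 (.n 3 (.l 4) (.n 0 (.l 4) (.l 4))) (.n 1 (.n 3 (.l 4) (.l 4)) (.n 3 (.l 4) (.l 4)))) (.n 2 (.n 3 (.l 4) (.n 3 (.l 4) (.l 4))) (.n 3 (.l 4) (.n 3 (.l 4) (.l 4)))))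
    [(312685363200, 880803840), (212600881152, 23622320128), (618475290624, 68719476736), (481036337152, 68719476736)] rfl (by decide +kernel)
end
mutual
theorem c1_m80_t2 : CovD 0 progs [(312685363200, 880803840), (212600881152, 23622320128), (755914244096, 68719476736), (481036337152, 68719476736)] :=
  Pool.Agent.helper14.QF.covD_F chks_eq (.n 3 (.n 3 (.n 3 (.l 4) (.n 1 (.l 4) (.l 4))) (.n 1 (.n 2 (.l 4) (.l 4)) (.n 2 (.l 4) (.l 4)))) (.n 2 (.n 3 (.l 4) (.n 3 (.l 4) (.l 4))) (.n 3 (.l 4) (.n 1 (.l 4) (.l 4)))))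
    [(312685363200, 880803840), (212600881152, 23622320128), (755914244096, 68719476736), (481036337152, 68719476736)] rfl (by decide +kernel)
theorem c1_m80_t5 : CovD 0 progs [(311804559360, 1761607680), (212600881152, 23622320128), (962072674304, 137438953472), (446676598784, 34359738368)] :=
  Pool.Agent.helper14.QF.covD_F chks_eq (.n 2 (.n 2 (.n 3 (.n 0 (.l 4) (.l 4)) (.n 3 (.l 4) (.l 4))) (.n 0 (.n 3 (.l 4) (.l 4)) (.n 3 (.l 4) (.l 4)))) (.n 1 (.n 0 (.n 3 (.l 4) (.l 4)) (.n 3 (.l 4) (.l 4))) (.n 3 (.l 4) (.l 4))))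
    [(311804559360, 1761607680), (212600881152, 23622320128), (962072674304, 137438953472), (446676598784, 34359738368)] rfl (by decide +kernel)
end
mutual
theorem c1_m80_t6 : CovD 0 progs [(311804559360, 1761607680), (212600881152, 23622320128), (962072674304, 137438953472), (515396075520, 34359738368)] :=
  Pool.Agent.helper14.QF.covD_F chks_eq (.n 2 (.n 2 (.n 3 (.l 4) (.n 3 (.l 4) (.l 4))) (.n 3 (.l 4) (.n 1 (.l 4) (.l 4)))) (.n 2 (.n 3 (.l 4) (.n 0 (.l 4) (.l 4))) (.n 3 (.l 4) (.l 4))))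
    [(311804559360, 1761607680), (212600881152, 23622320128), (962072674304, 137438953472), (515396075520, 34359738368)] rfl (by decide +kernel)
theorem c1_m80_t9 : CovD 0 progs [(315327774720, 1761607680), (212600881152, 23622320128), (584115552256, 34359738368), (481036337152, 68719476736)] :=
  Pool.Agent.helper14.QF.covD_F chks_eq (.n 3 (.n 0 (.n 3 (.n 3 (.l 4) (.l 4)) (.n 1 (.l 4) (.l 4))) (.n 3 (.n 3 (.l 4) (.l 4)) (.l 4))) (.n 3 (.n 3 (.l 4) (.n 0 (.l 4) (.l 4))) (.n 3 (.n 0 (.l 4) (.l 4)) (.l 4))))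
    [(315327774720, 1761607680), (212600881152, 23622320128), (584115552256, 34359738368), (481036337152, 68719476736)] rfl (by decide +kernel)
end
mutual
theorem c1_m80_t10 : CovD 0 progs [(315327774720, 1761607680), (212600881152, 23622320128), (652835028992, 34359738368), (481036337152, 68719476736)] :=
  Pool.Agent.helper14.QF.covD_F chks_eq (.n 3 (.n 0 (.n 0 (.n 3 (.l 4) (.l 4)) (.n 3 (.l 4) (.l 4))) (.n 3 (.n 0 (.l 4) (.l 4)) (.l 4))) (.n 3 (.n 3 (.l 4) (.n 0 (.l 4) (.l 4))) (.n 3 (.n 0 (.l 4) (.l 4)) (.l 4))))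
    [(315327774720, 1761607680), (212600881152, 23622320128), (652835028992, 34359738368), (481036337152, 68719476736)] rfl (by decide +kernel)
theorem c1_m80_t12 : CovD 0 progs [(315327774720, 1761607680), (212600881152, 23622320128), (755914244096, 68719476736), (481036337152, 68719476736)] :=
  Pool.Agent.helper14.QF.covD_F chks_eq (.n 2 (.n 3 (.n 1 (.n 3 (.n 0 (.l 4) (.l 4)) (.l 4)) (.n 3 (.n 0 (.l 4) (.l 4)) (.l 4))) (.n 3 (.n 3 (.l 4) (.l 4)) (.n 3 (.l 4) (.l 4)))) (.n 3 (.n 3 (.n 3 (.l 4) (.l 4)) (.n 0 (.l 4) (.l 4))) (.n 3 (.n 1 (.l 4) (.l 4)) (.n 3 (.l 4) (.l 4)))))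
    [(315327774720, 1761607680), (212600881152, 23622320128), (755914244096, 68719476736), (481036337152, 68719476736)] rfl (by decide +kernel)
end
mutual
theorem c1_m80_t14 : CovD 0 progs [(315327774720, 1761607680), (212600881152, 23622320128), (962072674304, 137438953472), (481036337152, 68719476736)] :=
  Pool.Agent.helper14.QF.covD_F chks_eq (.n 2 (.n 2 (.n 3 (.n 0 (.n 3 (.l 4) (.l 4)) (.n 3 (.l 4) (.l 4))) (.n 3 (.n 0 (.l 4) (.l 4)) (.n 3 (.l 4) (.l 4)))) (.n 3 (.n 3 (.n 0 (.l 4) (.l 4)) (.l 4)) (.n 0 (.n 3 (.l 4) (.l 4)) (.n 3 (.l 4) (.l 4))))) (.n 2 (.n 3 (.n 3 (.l 4) (.l 4)) (.n 3 (.l 4) (.n 0 (.l 4) (.l 4)))) (.n 3 (.n 1 (.l 4) (.l 4)) (.n 3 (.l 4) (.l 4)))))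
    [(315327774720, 1761607680), (212600881152, 23622320128), (962072674304, 137438953472), (481036337152, 68719476736)] rfl (by decide +kernel)
theorem c1_m80_t17 : CovD 0 progs [(318850990080, 1761607680), (212600881152, 23622320128), (618475290624, 68719476736), (481036337152, 68719476736)] :=
  Pool.Agent.helper14.QF.covD_F chks_eq (.n 2 (.n 3 (.n 3 (.n 3 (.n 0 (.l 4) (.l 4)) (.l 4)) (.n 3 (.l 4) (.l 4))) (.n 3 (.n 3 (.n 0 (.l 4) (.l 4)) (.l 4)) (.n 3 (.l 4) (.l 4)))) (.n 3 (.n 0 (.n 3 (.n 0 (.l 4) (.l 4)) (.l 4)) (.n 3 (.l 4) (.l 4))) (.n 3 (.n 3 (.l 4) (.l 4)) (.n 3 (.l 4) (.l 4)))))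
    [(318850990080, 1761607680), (212600881152, 23622320128), (618475290624, 68719476736), (481036337152, 68719476736)] rfl (by decide +kernel)
end
mutual
theorem c1_m80_t18 : CovD 0 progs [(318850990080, 1761607680), (212600881152, 23622320128), (755914244096, 68719476736), (481036337152, 68719476736)] :=
  Pool.Agent.helper14.QF.covD_F chks_eq (.n 2 (.n 3 (.n 3 (.n 3 (.l 4) (.l 4)) (.n 0 (.l 4) (.l 4))) (.n 3 (.n 3 (.l 4) (.l 4)) (.n 3 (.l 4) (.l 4)))) (.n 3 (.n 0 (.n 3 (.l 4) (.l 4)) (.n 1 (.l 4) (.l 4))) (.n 3 (.n 3 (.l 4) (.l 4)) (.n 3 (.l 4) (.l 4)))))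
    [(318850990080, 1761607680), (212600881152, 23622320128), (755914244096, 68719476736), (481036337152, 68719476736)] rfl (by decide +kernel)
theorem c1_m80_t20 : CovD 0 progs [(318850990080, 1761607680), (212600881152, 23622320128), (962072674304, 137438953472), (481036337152, 68719476736)] :=
  Pool.Agent.helper14.QF.covD_F chks_eq (.n 2 (.n 1 (.n 2 (.n 3 (.n 2 (.l 4) (.l 4)) (.n 3 (.l 4) (.l 4))) (.n 3 (.l 4) (.n 3 (.l 4) (.l 4)))) (.n 2 (.n 3 (.l 4) (.n 3 (.l 4) (.l 4))) (.n 3 (.l 4) (.n 3 (.l 4) (.l 4))))) (.n 2 (.n 1 (.n 3 (.l 4) (.n 3 (.l 4) (.l 4))) (.n 3 (.l 4) (.n 3 (.l 4) (.l 4)))) (.n 3 (.l 4) (.n 3 (.l 4) (.l 4)))))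
    [(318850990080, 1761607680), (212600881152, 23622320128), (962072674304, 137438953472), (481036337152, 68719476736)] rfl (by decide +kernel)
end
mutual
theorem c1_m80_t22 : CovD 0 progs [(322374205440, 1761607680), (212600881152, 23622320128), (618475290624, 68719476736), (481036337152, 68719476736)] :=
  Pool.Agent.helper14.QF.covD_F chks_eq (.n 2 (.n 3 (.n 3 (.l 4) (.n 3 (.l 4) (.l 4))) (.n 3 (.n 3 (.l 4) (.l 4)) (.n 0 (.l 4) (.l 4)))) (.n 3 (.n 3 (.l 4) (.n 3 (.l 4) (.l 4))) (.n 3 (.n 3 (.l 4) (.l 4)) (.n 0 (.l 4) (.l 4)))))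
    [(322374205440, 1761607680), (212600881152, 23622320128), (618475290624, 68719476736), (481036337152, 68719476736)] rfl (by decide +kernel)
theorem c1_m80_t23 : CovD 0 progs [(322374205440, 1761607680), (212600881152, 23622320128), (755914244096, 68719476736), (481036337152, 68719476736)] :=
  Pool.Agent.helper14.QF.covD_F chks_eq (.n 2 (.n 3 (.n 3 (.l 4) (.n 3 (.l 4) (.l 4))) (.n 3 (.n 3 (.l 4) (.l 4)) (.n 0 (.l 4) (.l 4)))) (.n 3 (.n 3 (.l 4) (.n 1 (.l 4) (.l 4))) (.n 3 (.n 3 (.l 4) (.l 4)) (.n 0 (.l 4) (.l 4)))))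
    [(322374205440, 1761607680), (212600881152, 23622320128), (755914244096, 68719476736), (481036337152, 68719476736)] rfl (by decide +kernel)
end
mutual
theorem c1_m80_t25 : CovD 0 progs [(322374205440, 1761607680), (212600881152, 23622320128), (962072674304, 137438953472), (481036337152, 68719476736)] :=
  Pool.Agent.helper14.QF.covD_F chks_eq (.n 2 (.n 3 (.n 1 (.n 3 (.l 4) (.n 2 (.l 4) (.l 4))) (.n 2 (.n 3 (.l 4) (.l 4)) (.l 4))) (.n 3 (.n 0 (.n 2 (.l 4) (.l 4)) (.n 1 (.l 4) (.l 4))) (.n 3 (.l 4) (.l 4)))) (.n 2 (.n 3 (.n 1 (.l 4) (.l 4)) (.n 3 (.l 4) (.l 4))) (.n 3 (.n 1 (.l 4) (.l 4)) (.n 3 (.l 4) (.l 4)))))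
    [(322374205440, 1761607680), (212600881152, 23622320128), (962072674304, 137438953472), (481036337152, 68719476736)] rfl (by decide +kernel)
theorem c1_m80_t29 : CovD 0 progs [(325897420800, 1761607680), (212600881152, 23622320128), (618475290624, 68719476736), (481036337152, 68719476736)] :=
  Pool.Agent.helper14.QF.covD_F chks_eq (.n 2 (.n 3 (.n 3 (.n 3 (.l 4) (.l 4)) (.n 3 (.l 4) (.l 4))) (.n 3 (.n 0 (.l 4) (.l 4)) (.l 4))) (.n 3 (.n 3 (.n 3 (.l 4) (.l 4)) (.n 3 (.l 4) (.l 4))) (.n 3 (.n 0 (.l 4) (.l 4)) (.l 4))))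
    [(325897420800, 1761607680), (212600881152, 23622320128), (618475290624, 68719476736), (481036337152, 68719476736)] rfl (by decide +kernel)
end
mutual
theorem c1_m80_t30 : CovD 0 progs [(325897420800, 1761607680), (212600881152, 23622320128), (755914244096, 68719476736), (481036337152, 68719476736)] :=
  Pool.Agent.helper14.QF.covD_F chks_eq (.n 3 (.n 2 (.n 3 (.n 0 (.l 4) (.l 4)) (.n 3 (.l 4) (.l 4))) (.n 0 (.n 3 (.l 4) (.l 4)) (.n 3 (.l 4) (.l 4)))) (.n 3 (.n 3 (.n 0 (.l 4) (.l 4)) (.l 4)) (.n 0 (.l 4) (.l 4))))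
    [(325897420800, 1761607680), (212600881152, 23622320128), (755914244096, 68719476736), (481036337152, 68719476736)] rfl (by decide +kernel)
theorem c1_m80_t32 : CovD 0 progs [(325897420800, 1761607680), (212600881152, 23622320128), (962072674304, 137438953472), (481036337152, 68719476736)] :=
  Pool.Agent.helper14.QF.covD_F chks_eq (.n 2 (.n 2 (.n 3 (.n 0 (.n 3 (.l 4) (.l 4)) (.n 3 (.l 4) (.l 4))) (.n 3 (.n 0 (.l 4) (.l 4)) (.l 4))) (.n 3 (.n 3 (.l 4) (.n 0 (.l 4) (.l 4))) (.n 3 (.l 4) (.l 4)))) (.n 2 (.n 3 (.n 3 (.l 4) (.l 4)) (.n 3 (.l 4) (.l 4))) (.n 3 (.n 1 (.l 4) (.l 4)) (.n 3 (.l 4) (.l 4)))))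
    [(325897420800, 1761607680), (212600881152, 23622320128), (962072674304, 137438953472), (481036337152, 68719476736)] rfl (by decide +kernel)
end
mutual
theorem c1_m80_t34 : CovD 0 progs [(329420636160, 1761607680), (212600881152, 23622320128), (687194767360, 137438953472), (481036337152, 68719476736)] :=
  Pool.Agent.helper14.QF.covD_F chks_eq (.n 2 (.n 3 (.n 3 (.n 2 (.n 3 (.l 4) (.l 4)) (.n 3 (.l 4) (.l 4))) (.n 3 (.n 0 (.l 4) (.l 4)) (.l 4))) (.n 3 (.n 0 (.l 4) (.l 4)) (.l 4))) (.n 3 (.n 3 (.n 0 (.n 2 (.l 4) (.l 4)) (.n 2 (.l 4) (.l 4))) (.n 3 (.n 0 (.l 4) (.l 4)) (.l 4))) (.n 3 (.n 0 (.l 4) (.l 4)) (.l 4))))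
    [(329420636160, 1761607680), (212600881152, 23622320128), (687194767360, 137438953472), (481036337152, 68719476736)] rfl (by decide +kernel)
theorem c1_m80_t35 : CovD 0 progs [(329420636160, 1761607680), (212600881152, 23622320128), (962072674304, 137438953472), (481036337152, 68719476736)] :=
  Pool.Agent.helper14.QF.covD_F chks_eq (.n 2 (.n 3 (.n 2 (.n 0 (.n 3 (.l 4) (.l 4)) (.n 3 (.l 4) (.l 4))) (.n 3 (.l 4) (.l 4))) (.n 3 (.n 1 (.l 4) (.l 4)) (.l 4))) (.n 3 (.n 1 (.n 3 (.l 4) (.l 4)) (.n 3 (.l 4) (.l 4))) (.n 3 (.n 0 (.l 4) (.l 4)) (.l 4))))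
    [(329420636160, 1761607680), (212600881152, 23622320128), (962072674304, 137438953472), (481036337152, 68719476736)] rfl (by decide +kernel)
end
mutual
theorem c1_m80_t38 : CovD 0 progs [(334705459200, 3523215360), (212600881152, 23622320128), (687194767360, 137438953472), (481036337152, 68719476736)] :=
  Pool.Agent.helper14.QF.covD_F chks_eq (.n 0 (.n 3 (.n 2 (.n 3 (.n 3 (.n 0 (.l 4) (.l 4)) (.l 4)) (.n 0 (.l 4) (.l 4))) (.n 2 (.n 3 (.n 0 (.l 4) (.l 4)) (.l 4)) (.n 3 (.n 0 (.l 4) (.l 4)) (.l 4)))) (.n 3 (.n 2 (.l 4) (.l 4)) (.l 4))) (.n 3 (.n 2 (.n 3 (.n 0 (.l 4) (.l 4)) (.l 4)) (.n 3 (.n 2 (.l 4) (.l 4)) (.l 4))) (.n 3 (.n 0 (.l 4) (.l 4)) (.l 4))))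
    [(334705459200, 3523215360), (212600881152, 23622320128), (687194767360, 137438953472), (481036337152, 68719476736)] rfl (by decide +kernel)
theorem c1_m80_t39 : CovD 0 progs [(334705459200, 3523215360), (212600881152, 23622320128), (962072674304, 137438953472), (481036337152, 68719476736)] :=
  Pool.Agent.helper14.QF.covD_F chks_eq (.n 2 (.n 3 (.n 0 (.n 2 (.n 3 (.n 0 (.l 4) (.l 4)) (.l 4)) (.n 3 (.l 4) (.l 4))) (.n 3 (.n 1 (.l 4) (.l 4)) (.l 4))) (.n 3 (.n 0 (.l 4) (.l 4)) (.l 4))) (.n 3 (.n 0 (.n 1 (.n 3 (.l 4) (.l 4)) (.n 3 (.l 4) (.l 4))) (.n 3 (.n 1 (.l 4) (.l 4)) (.l 4))) (.n 3 (.n 0 (.l 4) (.l 4)) (.l 4))))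
    [(334705459200, 3523215360), (212600881152, 23622320128), (962072674304, 137438953472), (481036337152, 68719476736)] rfl (by decide +kernel)
end
mutual
theorem c1_m80_t43 : CovD 0 progs [(324135813120, 14092861440), (259845521408, 23622320128), (824633720832, 274877906944), (481036337152, 68719476736)] :=
  Pool.Agent.helper14.QF.covD_F chks_eq (.l 11)
    [(324135813120, 14092861440), (259845521408, 23622320128), (824633720832, 274877906944), (481036337152, 68719476736)] rfl (by decide +kernel)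
theorem c1_m80_t45 : CovD 0 progs [(324135813120, 14092861440), (330712481792, 47244640256), (824633720832, 274877906944), (481036337152, 68719476736)] :=
  Pool.Agent.helper14.QF.covD_F chks_eq (.l 11)
    [(324135813120, 14092861440), (330712481792, 47244640256), (824633720832, 274877906944), (481036337152, 68719476736)] rfl (by decide +kernel)
end
theorem c1_m80_t3 : CovD 0 progs [(312685363200, 880803840), (212600881152, 23622320128), (687194767360, 137438953472), (481036337152, 68719476736)] :=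
  covD_split 2 (by decide +kernel) c1_m80_t1 c1_m80_t2
theorem c1_m80_t4 : CovD 0 progs [(311804559360, 1761607680), (212600881152, 23622320128), (687194767360, 137438953472), (481036337152, 68719476736)] :=
  covD_split 0 (by decide +kernel) c1_m80_t0 c1_m80_t3
theorem c1_m80_t7 : CovD 0 progs [(311804559360, 1761607680), (212600881152, 23622320128), (962072674304, 137438953472), (481036337152, 68719476736)] :=
  covD_split 3 (by decide +kernel) c1_m80_t5 c1_m80_t6
theorem c1_m80_t8 : CovD 0 progs [(311804559360, 1761607680), (212600881152, 23622320128), (824633720832, 274877906944), (481036337152, 68719476736)] :=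
  covD_split 2 (by decide +kernel) c1_m80_t4 c1_m80_t7
theorem c1_m80_t11 : CovD 0 progs [(315327774720, 1761607680), (212600881152, 23622320128), (618475290624, 68719476736), (481036337152, 68719476736)] :=
  covD_split 2 (by decide +kernel) c1_m80_t9 c1_m80_t10
theorem c1_m80_t13 : CovD 0 progs [(315327774720, 1761607680), (212600881152, 23622320128), (687194767360, 137438953472), (481036337152, 68719476736)] :=
  covD_split 2 (by decide +kernel) c1_m80_t11 c1_m80_t12
theorem c1_m80_t15 : CovD 0 progs [(315327774720, 1761607680), (212600881152, 23622320128), (824633720832, 274877906944), (481036337152, 68719476736)] :=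
  covD_split 2 (by decide +kernel) c1_m80_t13 c1_m80_t14
theorem c1_m80_t16 : CovD 0 progs [(313566167040, 3523215360), (212600881152, 23622320128), (824633720832, 274877906944), (481036337152, 68719476736)] :=
  covD_split 0 (by decide +kernel) c1_m80_t8 c1_m80_t15
theorem c1_m80_t19 : CovD 0 progs [(318850990080, 1761607680), (212600881152, 23622320128), (687194767360, 137438953472), (481036337152, 68719476736)] :=
  covD_split 2 (by decide +kernel) c1_m80_t17 c1_m80_t18
theorem c1_m80_t21 : CovD 0 progs [(318850990080, 1761607680), (212600881152, 23622320128), (824633720832, 274877906944), (481036337152, 68719476736)] :=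
  covD_split 2 (by decide +kernel) c1_m80_t19 c1_m80_t20
theorem c1_m80_t24 : CovD 0 progs [(322374205440, 1761607680), (212600881152, 23622320128), (687194767360, 137438953472), (481036337152, 68719476736)] :=
  covD_split 2 (by decide +kernel) c1_m80_t22 c1_m80_t23
theorem c1_m80_t26 : CovD 0 progs [(322374205440, 1761607680), (212600881152, 23622320128), (824633720832, 274877906944), (481036337152, 68719476736)] :=
  covD_split 2 (by decide +kernel) c1_m80_t24 c1_m80_t25
theorem c1_m80_t27 : CovD 0 progs [(320612597760, 3523215360), (212600881152, 23622320128), (824633720832, 274877906944), (481036337152, 68719476736)] :=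
  covD_split 0 (by decide +kernel) c1_m80_t21 c1_m80_t26
theorem c1_m80_t28 : CovD 0 progs [(317089382400, 7046430720), (212600881152, 23622320128), (824633720832, 274877906944), (481036337152, 68719476736)] :=
  covD_split 0 (by decide +kernel) c1_m80_t16 c1_m80_t27
theorem c1_m80_t31 : CovD 0 progs [(325897420800, 1761607680), (212600881152, 23622320128), (687194767360, 137438953472), (481036337152, 68719476736)] :=
  covD_split 2 (by decide +kernel) c1_m80_t29 c1_m80_t30
theorem c1_m80_t33 : CovD 0 progs [(325897420800, 1761607680), (212600881152, 23622320128), (824633720832, 274877906944), (481036337152, 68719476736)] :=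
  covD_split 2 (by decide +kernel) c1_m80_t31 c1_m80_t32
theorem c1_m80_t36 : CovD 0 progs [(329420636160, 1761607680), (212600881152, 23622320128), (824633720832, 274877906944), (481036337152, 68719476736)] :=
  covD_split 2 (by decide +kernel) c1_m80_t34 c1_m80_t35
theorem c1_m80_t37 : CovD 0 progs [(327659028480, 3523215360), (212600881152, 23622320128), (824633720832, 274877906944), (481036337152, 68719476736)] :=
  covD_split 0 (by decide +kernel) c1_m80_t33 c1_m80_t36
theorem c1_m80_t40 : CovD 0 progs [(334705459200, 3523215360), (212600881152, 23622320128), (824633720832, 274877906944), (481036337152, 68719476736)] :=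
  covD_split 2 (by decide +kernel) c1_m80_t38 c1_m80_t39
theorem c1_m80_t41 : CovD 0 progs [(331182243840, 7046430720), (212600881152, 23622320128), (824633720832, 274877906944), (481036337152, 68719476736)] :=
  covD_split 0 (by decide +kernel) c1_m80_t37 c1_m80_t40
theorem c1_m80_t42 : CovD 0 progs [(324135813120, 14092861440), (212600881152, 23622320128), (824633720832, 274877906944), (481036337152, 68719476736)] :=
  covD_split 0 (by decide +kernel) c1_m80_t28 c1_m80_t41
theorem c1_m80_t44 : CovD 0 progs [(324135813120, 14092861440), (236223201280, 47244640256), (824633720832, 274877906944), (481036337152, 68719476736)] :=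
  covD_split 1 (by decide +kernel) c1_m80_t42 c1_m80_t43
theorem c1_m80 : CovD 0 progs [(324135813120, 14092861440), (283467841536, 94489280512), (824633720832, 274877906944), (481036337152, 68719476736)] :=
  covD_split 1 (by decide +kernel) c1_m80_t44 c1_m80_t45

end Pool.Agent.helper71.FJ.Crt.QMa
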