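import Pool.Agent.helper71.FJ.Crt.QMaP

/-!
Generated certificates.
-/

namespace Pool.Agent.helper71.FJ.Crt.QMa

open Pool.Agent.helper31.IA (Z Op)
open Pool.Agent.helper31.IC

mutual
theorem c1_m81_t0 : CovD 0 progs [(366414397440, 28185722880), (212600881152, 23622320128), (584115552256, 34359738368), (68719476736, 68719476736)] :=
  Pool.Agent.helper14.QF.covD_F chks_eq (.n 0 (.n 0 (.n 0 (.n 0 (.n 3 (.l 4) (.n 0 (.l 4) (.l 4))) (.n 3 (.l 4) (.n 0 (.l 4) (.l 4)))) (.n 0 (.n 0 (.l 4) (.l 4)) (.n 0 (.l 4) (.l 4)))) (.n 0 (.n 0 (.n 0 (.l 4) (.l 4)) (.n 0 (.l 4) (.l 4))) (.n 0 (.n 0 (.l 4) (.l 4)) (.l 4)))) (.n 0 (.n 0 (.n 0 (.l 4) (.l 4)) (.l 8)) (.l 8)))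
    [(366414397440, 28185722880), (212600881152, 23622320128), (584115552256, 34359738368), (68719476736, 68719476736)] rfl (by decide +kernel)
theorem c1_m81_t1 : CovD 0 progs [(366414397440, 28185722880), (212600881152, 23622320128), (652835028992, 34359738368), (68719476736, 68719476736)] :=
  Pool.Agent.helper14.QF.covD_F chks_eq (.n 0 (.n 0 (.n 0 (.n 0 (.n 0 (.l 4) (.n 0 (.l 4) (.l 4))) (.n 3 (.l 4) (.n 0 (.l 4) (.l 4)))) (.n 0 (.n 0 (.l 4) (.l 4)) (.n 0 (.l 4) (.l 4)))) (.n 0 (.n 0 (.n 0 (.l 4) (.l 4)) (.n 0 (.l 4) (.l 4))) (.n 0 (.n 0 (.l 4) (.l 4)) (.l 4)))) (.n 0 (.n 0 (.n 0 (.l 4) (.l 4)) (.l 4)) (.l 8)))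
    [(366414397440, 28185722880), (212600881152, 23622320128), (652835028992, 34359738368), (68719476736, 68719476736)] rfl (by decide +kernel)
end
mutual
theorem c1_m81_t3 : CovD 0 progs [(366414397440, 28185722880), (259845521408, 23622320128), (618475290624, 68719476736), (68719476736, 68719476736)] :=
  Pool.Agent.helper14.QF.covD_F chks_eq (.l 11)
    [(366414397440, 28185722880), (259845521408, 23622320128), (618475290624, 68719476736), (68719476736, 68719476736)] rfl (by decide +kernel)
theorem c1_m81_t5 : CovD 0 progs [(366414397440, 28185722880), (330712481792, 47244640256), (618475290624, 68719476736), (68719476736, 68719476736)] :=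
  Pool.Agent.helper14.QF.covD_F chks_eq (.l 11)
    [(366414397440, 28185722880), (330712481792, 47244640256), (618475290624, 68719476736), (68719476736, 68719476736)] rfl (by decide +kernel)
end
mutual
theorem c1_m81_t7 : CovD 0 progs [(352321536000, 14092861440), (212600881152, 23622320128), (721554505728, 34359738368), (68719476736, 68719476736)] :=
  Pool.Agent.helper14.QF.covD_F chks_eq (.n 3 (.n 0 (.n 0 (.n 0 (.l 4) (.l 4)) (.l 4)) (.n 0 (.n 0 (.l 4) (.l 4)) (.l 4))) (.n 0 (.n 0 (.n 0 (.l 4) (.l 4)) (.n 0 (.l 4) (.l 4))) (.n 0 (.n 0 (.l 4) (.l 4)) (.n 0 (.l 4) (.l 4)))))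
    [(352321536000, 14092861440), (212600881152, 23622320128), (721554505728, 34359738368), (68719476736, 68719476736)] rfl (by decide +kernel)
theorem c1_m81_t8 : CovD 0 progs [(352321536000, 14092861440), (212600881152, 23622320128), (790273982464, 34359738368), (68719476736, 68719476736)] :=
  Pool.Agent.helper14.QF.covD_F chks_eq (.n 0 (.n 0 (.n 0 (.n 0 (.l 4) (.l 4)) (.n 0 (.l 4) (.l 4))) (.n 1 (.n 0 (.l 4) (.l 4)) (.l 4))) (.n 0 (.n 0 (.n 0 (.l 4) (.l 4)) (.n 0 (.l 4) (.l 4))) (.n 0 (.l 4) (.l 4))))
    [(352321536000, 14092861440), (212600881152, 23622320128), (790273982464, 34359738368), (68719476736, 68719476736)] rfl (by decide +kernel)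
end
mutual
theorem c1_m81_t10 : CovD 0 progs [(380507258880, 14092861440), (212600881152, 23622320128), (755914244096, 68719476736), (68719476736, 68719476736)] :=
  Pool.Agent.helper14.QF.covD_F chks_eq (.n 0 (.n 0 (.n 0 (.l 4) (.l 4)) (.l 4)) (.n 2 (.l 8) (.l 4)))
    [(380507258880, 14092861440), (212600881152, 23622320128), (755914244096, 68719476736), (68719476736, 68719476736)] rfl (by decide +kernel)
theorem c1_m81_t12 : CovD 0 progs [(366414397440, 28185722880), (259845521408, 23622320128), (755914244096, 68719476736), (68719476736, 68719476736)] :=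
  Pool.Agent.helper14.QF.covD_F chks_eq (.l 11)
    [(366414397440, 28185722880), (259845521408, 23622320128), (755914244096, 68719476736), (68719476736, 68719476736)] rfl (by decide +kernel)
end
mutual
theorem c1_m81_t14 : CovD 0 progs [(366414397440, 28185722880), (330712481792, 47244640256), (755914244096, 68719476736), (68719476736, 68719476736)] :=
  Pool.Agent.helper14.QF.covD_F chks_eq (.l 11)
    [(366414397440, 28185722880), (330712481792, 47244640256), (755914244096, 68719476736), (68719476736, 68719476736)] rfl (by decide +kernel)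
theorem c1_m81_t17 : CovD 0 progs [(345275105280, 7046430720), (212600881152, 23622320128), (962072674304, 137438953472), (68719476736, 68719476736)] :=
  Pool.Agent.helper14.QF.covD_F chks_eq (.n 0 (.n 2 (.n 0 (.n 0 (.n 1 (.l 4) (.l 4)) (.n 2 (.l 4) (.l 4))) (.n 0 (.n 2 (.l 4) (.l 4)) (.n 2 (.l 4) (.l 4)))) (.n 0 (.n 2 (.l 4) (.l 4)) (.n 2 (.l 4) (.l 4)))) (.n 1 (.n 2 (.n 2 (.l 4) (.l 4)) (.n 0 (.l 4) (.l 4))) (.n 2 (.n 2 (.l 4) (.l 4)) (.l 4))))
    [(345275105280, 7046430720), (212600881152, 23622320128), (962072674304, 137438953472), (68719476736, 68719476736)] rfl (by decide +kernel)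
end
mutual
theorem c1_m81_t18 : CovD 0 progs [(359367966720, 7046430720), (212600881152, 23622320128), (962072674304, 137438953472), (68719476736, 68719476736)] :=
  Pool.Agent.helper14.QF.covD_F chks_eq (.n 2 (.n 2 (.n 0 (.n 0 (.n 0 (.l 4) (.l 4)) (.n 0 (.l 4) (.l 4))) (.n 0 (.l 4) (.l 4))) (.n 0 (.n 0 (.l 4) (.l 4)) (.n 0 (.l 4) (.l 4)))) (.n 0 (.n 0 (.n 1 (.l 4) (.l 4)) (.n 1 (.l 4) (.l 4))) (.n 0 (.n 1 (.l 4) (.l 4)) (.n 1 (.l 4) (.l 4)))))
    [(359367966720, 7046430720), (212600881152, 23622320128), (962072674304, 137438953472), (68719476736, 68719476736)] rfl (by decide +kernel)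
theorem c1_m81_t20 : CovD 0 progs [(380507258880, 14092861440), (212600881152, 23622320128), (962072674304, 137438953472), (68719476736, 68719476736)] :=
  Pool.Agent.helper14.QF.covD_F chks_eq (.n 2 (.n 0 (.n 0 (.n 0 (.l 4) (.l 4)) (.l 4)) (.n 0 (.l 4) (.l 4))) (.n 0 (.n 0 (.n 0 (.l 4) (.l 4)) (.l 4)) (.n 0 (.l 4) (.l 4))))
    [(380507258880, 14092861440), (212600881152, 23622320128), (962072674304, 137438953472), (68719476736, 68719476736)] rfl (by decide +kernel)
end
mutual
theorem c1_m81_t22 : CovD 0 progs [(366414397440, 28185722880), (259845521408, 23622320128), (962072674304, 137438953472), (68719476736, 68719476736)] :=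
  Pool.Agent.helper14.QF.covD_F chks_eq (.l 11)
    [(366414397440, 28185722880), (259845521408, 23622320128), (962072674304, 137438953472), (68719476736, 68719476736)] rfl (by decide +kernel)
theorem c1_m81_t24 : CovD 0 progs [(366414397440, 28185722880), (330712481792, 47244640256), (962072674304, 137438953472), (68719476736, 68719476736)] :=
  Pool.Agent.helper14.QF.covD_F chks_eq (.l 11)
    [(366414397440, 28185722880), (330712481792, 47244640256), (962072674304, 137438953472), (68719476736, 68719476736)] rfl (by decide +kernel)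
end
mutual
theorem c1_m81_t27 : CovD 0 progs [(341751889920, 3523215360), (212600881152, 23622320128), (687194767360, 137438953472), (171798691840, 34359738368)] :=
  Pool.Agent.helper14.QF.covD_F chks_eq (.n 0 (.n 0 (.n 2 (.n 2 (.l 4) (.l 4)) (.n 2 (.l 4) (.l 4))) (.n 2 (.n 2 (.l 4) (.l 4)) (.n 2 (.l 4) (.l 4)))) (.n 2 (.n 0 (.n 2 (.l 4) (.l 4)) (.n 1 (.l 4) (.l 4))) (.n 2 (.l 4) (.l 4))))
    [(341751889920, 3523215360), (212600881152, 23622320128), (687194767360, 137438953472), (171798691840, 34359738368)] rfl (by decide +kernel)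
theorem c1_m81_t28 : CovD 0 progs [(348798320640, 3523215360), (212600881152, 23622320128), (687194767360, 137438953472), (171798691840, 34359738368)] :=
  Pool.Agent.helper14.QF.covD_F chks_eq (.n 0 (.n 2 (.n 2 (.l 4) (.l 4)) (.n 2 (.l 4) (.l 4))) (.n 0 (.n 2 (.n 2 (.l 4) (.l 4)) (.n 1 (.l 4) (.l 4))) (.n 2 (.n 2 (.l 4) (.l 4)) (.n 1 (.l 4) (.l 4)))))
    [(348798320640, 3523215360), (212600881152, 23622320128), (687194767360, 137438953472), (171798691840, 34359738368)] rfl (by decide +kernel)
end
mutual
theorem c1_m81_t30 : CovD 0 progs [(345275105280, 7046430720), (212600881152, 23622320128), (962072674304, 137438953472), (171798691840, 34359738368)] :=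
  Pool.Agent.helper14.QF.covD_F chks_eq (.n 1 (.n 2 (.n 0 (.n 0 (.n 0 (.l 4) (.l 4)) (.l 4)) (.n 2 (.l 4) (.l 4))) (.n 2 (.n 0 (.l 4) (.l 4)) (.l 4))) (.n 2 (.n 0 (.n 2 (.l 4) (.l 4)) (.n 0 (.l 4) (.l 4))) (.n 2 (.l 4) (.l 4))))
    [(345275105280, 7046430720), (212600881152, 23622320128), (962072674304, 137438953472), (171798691840, 34359738368)] rfl (by decide +kernel)
theorem c1_m81_t32 : CovD 0 progs [(359367966720, 7046430720), (212600881152, 23622320128), (687194767360, 137438953472), (171798691840, 34359738368)] :=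
  Pool.Agent.helper14.QF.covD_F chks_eq (.n 0 (.n 0 (.n 2 (.n 0 (.n 1 (.l 4) (.l 4)) (.n 0 (.l 4) (.l 4))) (.n 2 (.n 0 (.l 4) (.l 4)) (.l 4))) (.n 2 (.n 0 (.l 4) (.l 4)) (.n 2 (.l 4) (.l 4)))) (.n 0 (.n 2 (.l 4) (.n 0 (.l 4) (.l 4))) (.n 2 (.l 4) (.l 4))))
    [(359367966720, 7046430720), (212600881152, 23622320128), (687194767360, 137438953472), (171798691840, 34359738368)] rfl (by decide +kernel)
end
mutual
theorem c1_m81_t33 : CovD 0 progs [(359367966720, 7046430720), (212600881152, 23622320128), (962072674304, 137438953472), (171798691840, 34359738368)] :=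
  Pool.Agent.helper14.QF.covD_F chks_eq (.n 0 (.n 0 (.n 2 (.n 2 (.l 4) (.l 4)) (.n 1 (.l 4) (.l 4))) (.n 1 (.n 2 (.l 4) (.l 4)) (.n 2 (.l 4) (.l 4)))) (.n 2 (.n 0 (.n 0 (.l 4) (.l 4)) (.l 4)) (.n 1 (.l 4) (.l 4))))
    [(359367966720, 7046430720), (212600881152, 23622320128), (962072674304, 137438953472), (171798691840, 34359738368)] rfl (by decide +kernel)
theorem c1_m81_t36 : CovD 0 progs [(380507258880, 14092861440), (212600881152, 23622320128), (824633720832, 274877906944), (171798691840, 34359738368)] :=
  Pool.Agent.helper14.QF.covD_F chks_eq (.n 0 (.n 0 (.n 2 (.n 2 (.l 8) (.l 4)) (.n 2 (.l 4) (.l 4))) (.n 2 (.l 8) (.n 1 (.l 4) (.l 4)))) (.n 2 (.n 2 (.l 8) (.n 2 (.l 8) (.n 2 (.l 8) (.l 4)))) (.n 2 (.l 4) (.l 4))))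
    [(380507258880, 14092861440), (212600881152, 23622320128), (824633720832, 274877906944), (171798691840, 34359738368)] rfl (by decide +kernel)
end
mutual
theorem c1_m81_t38 : CovD 0 progs [(366414397440, 28185722880), (259845521408, 23622320128), (824633720832, 274877906944), (171798691840, 34359738368)] :=
  Pool.Agent.helper14.QF.covD_F chks_eq (.l 11)
    [(366414397440, 28185722880), (259845521408, 23622320128), (824633720832, 274877906944), (171798691840, 34359738368)] rfl (by decide +kernel)
theorem c1_m81_t40 : CovD 0 progs [(366414397440, 28185722880), (330712481792, 47244640256), (824633720832, 274877906944), (171798691840, 34359738368)] :=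
  Pool.Agent.helper14.QF.covD_F chks_eq (.l 11)
    [(366414397440, 28185722880), (330712481792, 47244640256), (824633720832, 274877906944), (171798691840, 34359738368)] rfl (by decide +kernel)
end
mutual
theorem c1_m81_t42 : CovD 0 progs [(352321536000, 14092861440), (212600881152, 23622320128), (618475290624, 68719476736), (240518168576, 34359738368)] :=
  Pool.Agent.helper14.QF.covD_F chks_eq (.n 3 (.n 0 (.n 0 (.n 0 (.n 2 (.l 4) (.l 4)) (.n 1 (.l 4) (.l 4))) (.n 0 (.n 2 (.l 4) (.l 4)) (.n 1 (.l 4) (.l 4)))) (.n 0 (.n 0 (.l 4) (.l 4)) (.l 4))) (.n 0 (.n 0 (.n 0 (.n 1 (.l 4) (.l 4)) (.n 2 (.l 4) (.l 4))) (.n 0 (.n 2 (.l 4) (.l 4)) (.n 0 (.l 4) (.l 4)))) (.n 0 (.n 0 (.l 4) (.l 4)) (.l 4))))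
    [(352321536000, 14092861440), (212600881152, 23622320128), (618475290624, 68719476736), (240518168576, 34359738368)] rfl (by decide +kernel)
theorem c1_m81_t43 : CovD 0 progs [(352321536000, 14092861440), (212600881152, 23622320128), (755914244096, 68719476736), (240518168576, 34359738368)] :=
  Pool.Agent.helper14.QF.covD_F chks_eq (.n 0 (.n 2 (.n 0 (.n 0 (.n 0 (.l 4) (.l 4)) (.n 0 (.l 4) (.l 4))) (.n 0 (.n 3 (.l 4) (.l 4)) (.n 3 (.l 4) (.l 4)))) (.n 0 (.n 1 (.n 0 (.l 4) (.l 4)) (.l 4)) (.n 0 (.n 0 (.l 4) (.l 4)) (.n 0 (.l 4) (.l 4))))) (.n 0 (.n 0 (.n 3 (.n 0 (.l 4) (.l 4)) (.l 4)) (.n 1 (.l 4) (.l 4))) (.n 0 (.l 4) (.l 4))))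
    [(352321536000, 14092861440), (212600881152, 23622320128), (755914244096, 68719476736), (240518168576, 34359738368)] rfl (by decide +kernel)
end
mutual
theorem c1_m81_t45 : CovD 0 progs [(345275105280, 7046430720), (212600881152, 23622320128), (962072674304, 137438953472), (240518168576, 34359738368)] :=
  Pool.Agent.helper14.QF.covD_F chks_eq (.n 1 (.n 0 (.n 2 (.n 2 (.l 4) (.l 4)) (.n 0 (.l 4) (.l 4))) (.n 0 (.n 2 (.n 2 (.l 4) (.l 4)) (.l 4)) (.n 2 (.n 2 (.l 4) (.l 4)) (.l 4)))) (.n 0 (.n 2 (.n 2 (.l 4) (.l 4)) (.l 4)) (.n 2 (.n 2 (.n 0 (.l 4) (.l 4)) (.l 4)) (.n 0 (.l 4) (.l 4)))))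
    [(345275105280, 7046430720), (212600881152, 23622320128), (962072674304, 137438953472), (240518168576, 34359738368)] rfl (by decide +kernel)
theorem c1_m81_t46 : CovD 0 progs [(359367966720, 7046430720), (212600881152, 23622320128), (962072674304, 137438953472), (240518168576, 34359738368)] :=
  Pool.Agent.helper14.QF.covD_F chks_eq (.n 0 (.n 0 (.n 2 (.n 2 (.n 0 (.l 4) (.l 4)) (.l 4)) (.n 1 (.l 4) (.l 4))) (.n 1 (.n 2 (.l 4) (.l 4)) (.n 2 (.l 4) (.l 4)))) (.n 0 (.n 2 (.n 0 (.l 4) (.l 4)) (.l 4)) (.n 2 (.l 4) (.l 4))))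
    [(359367966720, 7046430720), (212600881152, 23622320128), (962072674304, 137438953472), (240518168576, 34359738368)] rfl (by decide +kernel)
end
mutual
theorem c1_m81_t49 : CovD 0 progs [(380507258880, 14092861440), (212600881152, 23622320128), (824633720832, 274877906944), (240518168576, 34359738368)] :=
  Pool.Agent.helper14.QF.covD_F chks_eq (.n 0 (.n 0 (.n 2 (.n 0 (.l 8) (.l 8)) (.n 2 (.l 4) (.l 4))) (.n 2 (.l 8) (.n 0 (.l 4) (.l 4)))) (.n 2 (.n 0 (.l 8) (.n 0 (.l 8) (.n 1 (.l 8) (.n 1 (.l 8) (.n 1 (.l 8) (.l 11)))))) (.n 2 (.n 0 (.l 4) (.n 1 (.l 4) (.n 1 (.l 4) (.n 1 (.l 4) (.l 11))))) (.l 4))))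
    [(380507258880, 14092861440), (212600881152, 23622320128), (824633720832, 274877906944), (240518168576, 34359738368)] rfl (by decide +kernel)
theorem c1_m81_t51 : CovD 0 progs [(366414397440, 28185722880), (259845521408, 23622320128), (824633720832, 274877906944), (240518168576, 34359738368)] :=
  Pool.Agent.helper14.QF.covD_F chks_eq (.l 11)
    [(366414397440, 28185722880), (259845521408, 23622320128), (824633720832, 274877906944), (240518168576, 34359738368)] rfl (by decide +kernel)
theorem c1_m81_t53 : CovD 0 progs [(366414397440, 28185722880), (330712481792, 47244640256), (824633720832, 274877906944), (240518168576, 34359738368)] :=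
  Pool.Agent.helper14.QF.covD_F chks_eq (.l 11)
    [(366414397440, 28185722880), (330712481792, 47244640256), (824633720832, 274877906944), (240518168576, 34359738368)] rfl (by decide +kernel)
end
theorem c1_m81_t2 : CovD 0 progs [(366414397440, 28185722880), (212600881152, 23622320128), (618475290624, 68719476736), (68719476736, 68719476736)] :=
  covD_split 2 (by decide +kernel) c1_m81_t0 c1_m81_t1
theorem c1_m81_t4 : CovD 0 progs [(366414397440, 28185722880), (236223201280, 47244640256), (618475290624, 68719476736), (68719476736, 68719476736)] :=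
  covD_split 1 (by decide +kernel) c1_m81_t2 c1_m81_t3
theorem c1_m81_t6 : CovD 0 progs [(366414397440, 28185722880), (283467841536, 94489280512), (618475290624, 68719476736), (68719476736, 68719476736)] :=
  covD_split 1 (by decide +kernel) c1_m81_t4 c1_m81_t5
theorem c1_m81_t9 : CovD 0 progs [(352321536000, 14092861440), (212600881152, 23622320128), (755914244096, 68719476736), (68719476736, 68719476736)] :=
  covD_split 2 (by decide +kernel) c1_m81_t7 c1_m81_t8
theorem c1_m81_t11 : CovD 0 progs [(366414397440, 28185722880), (212600881152, 23622320128), (755914244096, 68719476736), (68719476736, 68719476736)] :=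
  covD_split 0 (by decide +kernel) c1_m81_t9 c1_m81_t10
theorem c1_m81_t13 : CovD 0 progs [(366414397440, 28185722880), (236223201280, 47244640256), (755914244096, 68719476736), (68719476736, 68719476736)] :=
  covD_split 1 (by decide +kernel) c1_m81_t11 c1_m81_t12
theorem c1_m81_t15 : CovD 0 progs [(366414397440, 28185722880), (283467841536, 94489280512), (755914244096, 68719476736), (68719476736, 68719476736)] :=
  covD_split 1 (by decide +kernel) c1_m81_t13 c1_m81_t14
theorem c1_m81_t16 : CovD 0 progs [(366414397440, 28185722880), (283467841536, 94489280512), (687194767360, 137438953472), (68719476736, 68719476736)] :=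
  covD_split 2 (by decide +kernel) c1_m81_t6 c1_m81_t15
theorem c1_m81_t19 : CovD 0 progs [(352321536000, 14092861440), (212600881152, 23622320128), (962072674304, 137438953472), (68719476736, 68719476736)] :=
  covD_split 0 (by decide +kernel) c1_m81_t17 c1_m81_t18
theorem c1_m81_t21 : CovD 0 progs [(366414397440, 28185722880), (212600881152, 23622320128), (962072674304, 137438953472), (68719476736, 68719476736)] :=
  covD_split 0 (by decide +kernel) c1_m81_t19 c1_m81_t20
theorem c1_m81_t23 : CovD 0 progs [(366414397440, 28185722880), (236223201280, 47244640256), (962072674304, 137438953472), (68719476736, 68719476736)] :=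
  covD_split 1 (by decide +kernel) c1_m81_t21 c1_m81_t22
theorem c1_m81_t25 : CovD 0 progs [(366414397440, 28185722880), (283467841536, 94489280512), (962072674304, 137438953472), (68719476736, 68719476736)] :=
  covD_split 1 (by decide +kernel) c1_m81_t23 c1_m81_t24
theorem c1_m81_t26 : CovD 0 progs [(366414397440, 28185722880), (283467841536, 94489280512), (824633720832, 274877906944), (68719476736, 68719476736)] :=
  covD_split 2 (by decide +kernel) c1_m81_t16 c1_m81_t25
theorem c1_m81_t29 : CovD 0 progs [(345275105280, 7046430720), (212600881152, 23622320128), (687194767360, 137438953472), (171798691840, 34359738368)] :=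
  covD_split 0 (by decide +kernel) c1_m81_t27 c1_m81_t28
theorem c1_m81_t31 : CovD 0 progs [(345275105280, 7046430720), (212600881152, 23622320128), (824633720832, 274877906944), (171798691840, 34359738368)] :=
  covD_split 2 (by decide +kernel) c1_m81_t29 c1_m81_t30
theorem c1_m81_t34 : CovD 0 progs [(359367966720, 7046430720), (212600881152, 23622320128), (824633720832, 274877906944), (171798691840, 34359738368)] :=
  covD_split 2 (by decide +kernel) c1_m81_t32 c1_m81_t33
theorem c1_m81_t35 : CovD 0 progs [(352321536000, 14092861440), (212600881152, 23622320128), (824633720832, 274877906944), (171798691840, 34359738368)] :=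
  covD_split 0 (by decide +kernel) c1_m81_t31 c1_m81_t34
theorem c1_m81_t37 : CovD 0 progs [(366414397440, 28185722880), (212600881152, 23622320128), (824633720832, 274877906944), (171798691840, 34359738368)] :=
  covD_split 0 (by decide +kernel) c1_m81_t35 c1_m81_t36
theorem c1_m81_t39 : CovD 0 progs [(366414397440, 28185722880), (236223201280, 47244640256), (824633720832, 274877906944), (171798691840, 34359738368)] :=
  covD_split 1 (by decide +kernel) c1_m81_t37 c1_m81_t38
theorem c1_m81_t41 : CovD 0 progs [(366414397440, 28185722880), (283467841536, 94489280512), (824633720832, 274877906944), (171798691840, 34359738368)] :=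
  covD_split 1 (by decide +kernel) c1_m81_t39 c1_m81_t40
theorem c1_m81_t44 : CovD 0 progs [(352321536000, 14092861440), (212600881152, 23622320128), (687194767360, 137438953472), (240518168576, 34359738368)] :=
  covD_split 2 (by decide +kernel) c1_m81_t42 c1_m81_t43
theorem c1_m81_t47 : CovD 0 progs [(352321536000, 14092861440), (212600881152, 23622320128), (962072674304, 137438953472), (240518168576, 34359738368)] :=
  covD_split 0 (by decide +kernel) c1_m81_t45 c1_m81_t46
theorem c1_m81_t48 : CovD 0 progs [(352321536000, 14092861440), (212600881152, 23622320128), (824633720832, 274877906944), (240518168576, 34359738368)] :=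
  covD_split 2 (by decide +kernel) c1_m81_t44 c1_m81_t47
theorem c1_m81_t50 : CovD 0 progs [(366414397440, 28185722880), (212600881152, 23622320128), (824633720832, 274877906944), (240518168576, 34359738368)] :=
  covD_split 0 (by decide +kernel) c1_m81_t48 c1_m81_t49
theorem c1_m81_t52 : CovD 0 progs [(366414397440, 28185722880), (236223201280, 47244640256), (824633720832, 274877906944), (240518168576, 34359738368)] :=
  covD_split 1 (by decide +kernel) c1_m81_t50 c1_m81_t51
theorem c1_m81_t54 : CovD 0 progs [(366414397440, 28185722880), (283467841536, 94489280512), (824633720832, 274877906944), (240518168576, 34359738368)] :=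
  covD_split 1 (by decide +kernel) c1_m81_t52 c1_m81_t53
theorem c1_m81_t55 : CovD 0 progs [(366414397440, 28185722880), (283467841536, 94489280512), (824633720832, 274877906944), (206158430208, 68719476736)] :=
  covD_split 3 (by decide +kernel) c1_m81_t41 c1_m81_t54
theorem c1_m81 : CovD 0 progs [(366414397440, 28185722880), (283467841536, 94489280512), (824633720832, 274877906944), (137438953472, 137438953472)] :=
  covD_split 3 (by decide +kernel) c1_m81_t26 c1_m81_t55

end Pool.Agent.helper71.FJ.Crt.QMa
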