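import Pool.Agent.helper71.FJ.Crt.QMaP

/-!
Generated certificates.
-/

namespace Pool.Agent.helper71.FJ.Crt.QMa

open Pool.Agent.helper31.IA (Z Op)
open Pool.Agent.helper31.IC

mutual
theorem c1_m82_t0 : CovD 0 progs [(339990282240, 1761607680), (212600881152, 23622320128), (687194767360, 137438953472), (343597383680, 68719476736)] :=
  Pool.Agent.helper14.QF.covD_F chks_eq (.n 2 (.n 2 (.n 3 (.n 3 (.l 4) (.n 0 (.l 4) (.l 4))) (.n 3 (.n 0 (.l 4) (.l 4)) (.l 4))) (.n 3 (.n 3 (.l 4) (.n 0 (.l 4) (.l 4))) (.n 3 (.n 0 (.l 4) (.l 4)) (.l 4)))) (.n 2 (.n 3 (.n 3 (.l 4) (.n 0 (.l 4) (.l 4))) (.n 3 (.n 0 (.l 4) (.l 4)) (.l 4))) (.n 3 (.n 3 (.l 4) (.l 4)) (.n 3 (.l 4) (.l 4)))))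
    [(339990282240, 1761607680), (212600881152, 23622320128), (687194767360, 137438953472), (343597383680, 68719476736)] rfl (by decide +kernel)
theorem c1_m82_t1 : CovD 0 progs [(339990282240, 1761607680), (212600881152, 23622320128), (962072674304, 137438953472), (343597383680, 68719476736)] :=
  Pool.Agent.helper14.QF.covD_F chks_eq (.n 2 (.n 2 (.n 3 (.n 1 (.l 4) (.l 4)) (.n 3 (.l 4) (.l 4))) (.n 3 (.n 0 (.l 4) (.l 4)) (.n 3 (.l 4) (.l 4)))) (.n 1 (.n 2 (.n 3 (.l 4) (.l 4)) (.n 3 (.l 4) (.l 4))) (.n 3 (.l 4) (.n 2 (.l 4) (.l 4)))))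
    [(339990282240, 1761607680), (212600881152, 23622320128), (962072674304, 137438953472), (343597383680, 68719476736)] rfl (by decide +kernel)
end
mutual
theorem c1_m82_t3 : CovD 0 progs [(343513497600, 1761607680), (212600881152, 23622320128), (687194767360, 137438953472), (343597383680, 68719476736)] :=
  Pool.Agent.helper14.QF.covD_F chks_eq (.n 2 (.n 3 (.n 2 (.n 3 (.n 0 (.l 4) (.l 4)) (.l 4)) (.n 3 (.l 4) (.l 4))) (.n 3 (.n 0 (.l 4) (.l 4)) (.l 4))) (.n 3 (.n 2 (.n 3 (.l 4) (.l 4)) (.n 3 (.l 4) (.l 4))) (.n 3 (.n 1 (.l 4) (.l 4)) (.l 4))))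
    [(343513497600, 1761607680), (212600881152, 23622320128), (687194767360, 137438953472), (343597383680, 68719476736)] rfl (by decide +kernel)
theorem c1_m82_t4 : CovD 0 progs [(343513497600, 1761607680), (212600881152, 23622320128), (962072674304, 137438953472), (343597383680, 68719476736)] :=
  Pool.Agent.helper14.QF.covD_F chks_eq (.n 2 (.n 1 (.n 3 (.n 3 (.l 4) (.l 4)) (.n 3 (.l 4) (.l 4))) (.n 3 (.n 2 (.l 4) (.l 4)) (.n 3 (.l 4) (.l 4)))) (.n 2 (.n 0 (.n 3 (.l 4) (.l 4)) (.n 3 (.l 4) (.l 4))) (.n 3 (.l 4) (.n 0 (.l 4) (.l 4)))))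
    [(343513497600, 1761607680), (212600881152, 23622320128), (962072674304, 137438953472), (343597383680, 68719476736)] rfl (by decide +kernel)
end
mutual
theorem c1_m82_t7 : CovD 0 progs [(347036712960, 1761607680), (212600881152, 23622320128), (824633720832, 274877906944), (343597383680, 68719476736)] :=
  Pool.Agent.helper14.QF.covD_F chks_eq (.n 2 (.n 2 (.n 3 (.n 2 (.n 3 (.l 4) (.l 4)) (.n 3 (.l 4) (.l 4))) (.n 3 (.l 4) (.l 4))) (.n 3 (.n 2 (.n 3 (.l 4) (.l 4)) (.n 3 (.l 4) (.l 4))) (.n 3 (.l 4) (.l 4)))) (.n 2 (.n 3 (.n 1 (.n 3 (.l 4) (.l 4)) (.n 2 (.l 4) (.l 4))) (.n 3 (.n 0 (.l 4) (.l 4)) (.l 4))) (.n 3 (.n 2 (.n 0 (.l 4) (.l 4)) (.l 4)) (.n 3 (.l 4) (.l 4)))))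
    [(347036712960, 1761607680), (212600881152, 23622320128), (824633720832, 274877906944), (343597383680, 68719476736)] rfl (by decide +kernel)
theorem c1_m82_t8 : CovD 0 progs [(350559928320, 1761607680), (212600881152, 23622320128), (824633720832, 274877906944), (343597383680, 68719476736)] :=
  Pool.Agent.helper14.QF.covD_F chks_eq (.n 2 (.n 3 (.n 2 (.n 3 (.l 4) (.l 4)) (.n 3 (.n 0 (.l 4) (.l 4)) (.l 4))) (.n 3 (.n 2 (.l 4) (.l 4)) (.l 8))) (.n 2 (.n 3 (.n 3 (.n 0 (.l 4) (.l 4)) (.l 4)) (.n 2 (.l 4) (.l 4))) (.n 2 (.n 3 (.l 4) (.l 4)) (.n 3 (.l 4) (.l 4)))))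
    [(350559928320, 1761607680), (212600881152, 23622320128), (824633720832, 274877906944), (343597383680, 68719476736)] rfl (by decide +kernel)
end
mutual
theorem c1_m82_t11 : CovD 0 progs [(355844751360, 3523215360), (212600881152, 23622320128), (824633720832, 274877906944), (343597383680, 68719476736)] :=
  Pool.Agent.helper14.QF.covD_F chks_eq (.n 2 (.n 0 (.n 3 (.n 2 (.n 3 (.l 4) (.l 4)) (.n 3 (.l 4) (.l 4))) (.n 3 (.l 8) (.l 8))) (.n 2 (.n 3 (.l 4) (.l 8)) (.n 3 (.n 0 (.l 4) (.l 4)) (.l 4)))) (.n 2 (.n 3 (.n 0 (.n 2 (.l 4) (.l 4)) (.n 0 (.l 4) (.l 4))) (.n 3 (.l 4) (.l 4))) (.n 3 (.n 0 (.n 1 (.l 4) (.l 4)) (.n 0 (.l 4) (.l 4))) (.n 3 (.l 4) (.l 4)))))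
    [(355844751360, 3523215360), (212600881152, 23622320128), (824633720832, 274877906944), (343597383680, 68719476736)] rfl (by decide +kernel)
theorem c1_m82_t12 : CovD 0 progs [(362891182080, 3523215360), (212600881152, 23622320128), (824633720832, 274877906944), (343597383680, 68719476736)] :=
  Pool.Agent.helper14.QF.covD_F chks_eq (.n 2 (.n 0 (.n 3 (.n 2 (.l 8) (.l 4)) (.l 8)) (.n 3 (.l 8) (.l 8))) (.n 2 (.n 3 (.n 0 (.l 4) (.l 4)) (.l 4)) (.n 3 (.n 0 (.l 4) (.l 4)) (.l 4))))
    [(362891182080, 3523215360), (212600881152, 23622320128), (824633720832, 274877906944), (343597383680, 68719476736)] rfl (by decide +kernel)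
end
mutual
theorem c1_m82_t15 : CovD 0 progs [(352321536000, 14092861440), (259845521408, 23622320128), (824633720832, 274877906944), (343597383680, 68719476736)] :=
  Pool.Agent.helper14.QF.covD_F chks_eq (.l 11)
    [(352321536000, 14092861440), (259845521408, 23622320128), (824633720832, 274877906944), (343597383680, 68719476736)] rfl (by decide +kernel)
theorem c1_m82_t17 : CovD 0 progs [(352321536000, 14092861440), (330712481792, 47244640256), (824633720832, 274877906944), (343597383680, 68719476736)] :=
  Pool.Agent.helper14.QF.covD_F chks_eq (.l 11)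
    [(352321536000, 14092861440), (330712481792, 47244640256), (824633720832, 274877906944), (343597383680, 68719476736)] rfl (by decide +kernel)
end
mutual
theorem c1_m82_t19 : CovD 0 progs [(373460828160, 7046430720), (212600881152, 23622320128), (824633720832, 274877906944), (343597383680, 68719476736)] :=
  Pool.Agent.helper14.QF.covD_F chks_eq (.n 0 (.n 2 (.n 3 (.n 0 (.l 8) (.l 8)) (.l 8)) (.n 2 (.n 3 (.l 4) (.l 4)) (.n 3 (.l 4) (.l 4)))) (.n 2 (.n 3 (.l 8) (.l 8)) (.n 2 (.n 3 (.l 4) (.n 2 (.n 2 (.l 4) (.l 4)) (.l 4))) (.n 0 (.l 4) (.l 4)))))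
    [(373460828160, 7046430720), (212600881152, 23622320128), (824633720832, 274877906944), (343597383680, 68719476736)] rfl (by decide +kernel)
theorem c1_m82_t20 : CovD 0 progs [(387553689600, 7046430720), (200789721088, 11811160064), (824633720832, 274877906944), (343597383680, 68719476736)] :=
  Pool.Agent.helper14.QF.covD_F chks_eq (.n 0 (.n 2 (.l 8) (.n 2 (.n 2 (.l 8) (.l 4)) (.l 4))) (.n 2 (.l 8) (.n 2 (.n 1 (.l 8) (.n 2 (.l 8) (.n 2 (.n 3 (.l 4) (.l 4)) (.l 4)))) (.l 4))))
    [(387553689600, 7046430720), (200789721088, 11811160064), (824633720832, 274877906944), (343597383680, 68719476736)] rfl (by decide +kernel)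
end
mutual
theorem c1_m82_t21 : CovD 0 progs [(387553689600, 7046430720), (218506461184, 5905580032), (824633720832, 274877906944), (343597383680, 68719476736)] :=
  Pool.Agent.helper14.QF.covD_F chks_eq (.n 0 (.n 2 (.l 8) (.n 2 (.n 2 (.n 2 (.l 8) (.n 2 (.l 8) (.l 4))) (.l 4)) (.l 4))) (.n 2 (.l 8) (.n 2 (.n 2 (.n 2 (.l 8) (.n 3 (.n 2 (.n 3 (.l 4) (.l 4)) (.l 4)) (.n 0 (.n 3 (.l 4) (.l 3)) (.n 3 (.l 3) (.l 3))))) (.n 3 (.l 4) (.n 0 (.n 3 (.l 4) (.l 3)) (.n 3 (.l 3) (.l 3))))) (.n 3 (.l 4) (.l 4)))))
    [(387553689600, 7046430720), (218506461184, 5905580032), (824633720832, 274877906944), (343597383680, 68719476736)] rfl (by decide +kernel)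
theorem c1_m82_t22 : CovD 0 progs [(387553689600, 7046430720), (224781139968, 369098752), (824633720832, 274877906944), (343597383680, 68719476736)] :=
  Pool.Agent.helper14.QF.covD_F chks_eq (.n 0 (.n 2 (.l 8) (.n 2 (.n 2 (.n 2 (.l 8) (.n 3 (.l 4) (.l 4))) (.l 4)) (.l 4))) (.n 1 (.n 2 (.l 8) (.n 1 (.n 2 (.n 1 (.n 2 (.n 2 (.l 8) (.n 3 (.n 3 (.l 4) (.l 4)) (.n 0 (.n 3 (.l 4) (.l 3)) (.n 3 (.l 3) (.l 0))))) (.n 3 (.l 4) (.n 0 (.n 3 (.l 4) (.l 3)) (.n 3 (.l 3) (.l 0))))) (.l 11)) (.n 2 (.l 4) (.l 4))) (.l 11))) (.l 11)))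
    [(387553689600, 7046430720), (224781139968, 369098752), (824633720832, 274877906944), (343597383680, 68719476736)] rfl (by decide +kernel)
end
mutual
theorem c1_m82_t23 : CovD 0 progs [(387553689600, 7046430720), (225519337472, 369098752), (824633720832, 274877906944), (343597383680, 68719476736)] :=
  Pool.Agent.helper14.QF.covD_F chks_eq (.l 11)
    [(387553689600, 7046430720), (225519337472, 369098752), (824633720832, 274877906944), (343597383680, 68719476736)] rfl (by decide +kernel)
theorem c1_m82_t25 : CovD 0 progs [(387553689600, 7046430720), (226626633728, 738197504), (824633720832, 274877906944), (343597383680, 68719476736)] :=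
  Pool.Agent.helper14.QF.covD_F chks_eq (.l 11)
    [(387553689600, 7046430720), (226626633728, 738197504), (824633720832, 274877906944), (343597383680, 68719476736)] rfl (by decide +kernel)
end
mutual
theorem c1_m82_t27 : CovD 0 progs [(387553689600, 7046430720), (228841226240, 1476395008), (824633720832, 274877906944), (343597383680, 68719476736)] :=
  Pool.Agent.helper14.QF.covD_F chks_eq (.l 11)
    [(387553689600, 7046430720), (228841226240, 1476395008), (824633720832, 274877906944), (343597383680, 68719476736)] rfl (by decide +kernel)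
theorem c1_m82_t29 : CovD 0 progs [(387553689600, 7046430720), (233270411264, 2952790016), (824633720832, 274877906944), (343597383680, 68719476736)] :=
  Pool.Agent.helper14.QF.covD_F chks_eq (.l 11)
    [(387553689600, 7046430720), (233270411264, 2952790016), (824633720832, 274877906944), (343597383680, 68719476736)] rfl (by decide +kernel)
end
mutual
theorem c1_m82_t34 : CovD 0 progs [(380507258880, 14092861440), (259845521408, 23622320128), (824633720832, 274877906944), (343597383680, 68719476736)] :=
  Pool.Agent.helper14.QF.covD_F chks_eq (.l 11)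
    [(380507258880, 14092861440), (259845521408, 23622320128), (824633720832, 274877906944), (343597383680, 68719476736)] rfl (by decide +kernel)
theorem c1_m82_t36 : CovD 0 progs [(380507258880, 14092861440), (330712481792, 47244640256), (824633720832, 274877906944), (343597383680, 68719476736)] :=
  Pool.Agent.helper14.QF.covD_F chks_eq (.l 11)
    [(380507258880, 14092861440), (330712481792, 47244640256), (824633720832, 274877906944), (343597383680, 68719476736)] rfl (by decide +kernel)
end
mutual
theorem c1_m82_t39 : CovD 0 progs [(352321536000, 14092861440), (212600881152, 23622320128), (824633720832, 274877906944), (429496729600, 17179869184)] :=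
  Pool.Agent.helper14.QF.covD_F chks_eq (.n 0 (.n 0 (.n 2 (.n 0 (.n 2 (.l 4) (.l 4)) (.n 2 (.l 4) (.l 4))) (.n 2 (.n 0 (.n 0 (.l 4) (.l 4)) (.l 4)) (.n 1 (.l 4) (.l 4)))) (.n 2 (.n 0 (.l 4) (.l 8)) (.n 2 (.l 4) (.l 4)))) (.n 0 (.n 2 (.l 8) (.n 0 (.l 4) (.l 4))) (.n 2 (.l 8) (.l 4))))
    [(352321536000, 14092861440), (212600881152, 23622320128), (824633720832, 274877906944), (429496729600, 17179869184)] rfl (by decide +kernel)
theorem c1_m82_t40 : CovD 0 progs [(352321536000, 14092861440), (212600881152, 23622320128), (824633720832, 274877906944), (463856467968, 17179869184)] :=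
  Pool.Agent.helper14.QF.covD_F chks_eq (.n 0 (.n 0 (.n 0 (.n 2 (.n 1 (.l 4) (.l 4)) (.n 2 (.l 4) (.l 4))) (.n 2 (.l 4) (.n 1 (.l 4) (.l 4)))) (.n 2 (.l 8) (.n 1 (.l 4) (.l 4)))) (.n 2 (.l 8) (.n 0 (.l 4) (.l 4))))
    [(352321536000, 14092861440), (212600881152, 23622320128), (824633720832, 274877906944), (463856467968, 17179869184)] rfl (by decide +kernel)
end
mutual
theorem c1_m82_t42 : CovD 0 progs [(373460828160, 7046430720), (212600881152, 23622320128), (824633720832, 274877906944), (446676598784, 34359738368)] :=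
  Pool.Agent.helper14.QF.covD_F chks_eq (.n 2 (.l 8) (.n 2 (.n 2 (.n 1 (.l 8) (.n 1 (.l 8) (.n 1 (.n 1 (.n 2 (.l 8) (.n 2 (.l 8) (.l 4))) (.l 11)) (.l 11)))) (.n 0 (.l 4) (.n 0 (.l 4) (.n 1 (.l 4) (.n 0 (.l 4) (.n 3 (.l 4) (.l 3))))))) (.n 0 (.l 4) (.l 4))))
    [(373460828160, 7046430720), (212600881152, 23622320128), (824633720832, 274877906944), (446676598784, 34359738368)] rfl (by decide +kernel)
theorem c1_m82_t43 : CovD 0 progs [(387553689600, 7046430720), (200789721088, 11811160064), (824633720832, 274877906944), (446676598784, 34359738368)] :=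
  Pool.Agent.helper14.QF.covD_F chks_eq (.n 2 (.l 8) (.n 2 (.n 1 (.l 8) (.n 2 (.l 8) (.n 0 (.n 2 (.l 4) (.l 4)) (.n 3 (.l 3) (.l 0))))) (.n 0 (.l 4) (.n 3 (.l 4) (.l 3)))))
    [(387553689600, 7046430720), (200789721088, 11811160064), (824633720832, 274877906944), (446676598784, 34359738368)] rfl (by decide +kernel)
end
mutual
theorem c1_m82_t44 : CovD 0 progs [(384030474240, 3523215360), (224412041216, 11811160064), (824633720832, 274877906944), (446676598784, 34359738368)] :=
  Pool.Agent.helper14.QF.covD_F chks_eq (.n 2 (.l 8) (.n 2 (.n 3 (.n 0 (.n 1 (.n 2 (.n 2 (.l 8) (.l 4)) (.l 4)) (.n 1 (.n 2 (.n 3 (.l 3) (.l 3)) (.l 4)) (.l 11))) (.n 2 (.n 3 (.n 0 (.l 3) (.l 3)) (.l 3)) (.n 0 (.l 3) (.l 3)))) (.n 3 (.n 0 (.n 2 (.l 3) (.l 3)) (.l 3)) (.n 2 (.l 3) (.l 3)))) (.n 2 (.n 1 (.l 4) (.n 3 (.l 4) (.l 3))) (.l 4))))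
    [(384030474240, 3523215360), (224412041216, 11811160064), (824633720832, 274877906944), (446676598784, 34359738368)] rfl (by decide +kernel)
theorem c1_m82_t45 : CovD 0 progs [(391076904960, 3523215360), (224412041216, 11811160064), (824633720832, 274877906944), (446676598784, 34359738368)] :=
  Pool.Agent.helper14.QF.covD_F chks_eq (.n 1 (.n 2 (.l 8) (.n 2 (.n 3 (.n 0 (.n 0 (.l 3) (.l 3)) (.l 3)) (.l 3)) (.n 3 (.n 0 (.l 3) (.l 0)) (.l 3)))) (.n 1 (.n 1 (.n 2 (.l 8) (.n 2 (.n 3 (.n 0 (.l 3) (.l 0)) (.l 3)) (.n 3 (.l 3) (.l 0)))) (.l 11)) (.l 11)))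
    [(391076904960, 3523215360), (224412041216, 11811160064), (824633720832, 274877906944), (446676598784, 34359738368)] rfl (by decide +kernel)
end
mutual
theorem c1_m82_t50 : CovD 0 progs [(366414397440, 28185722880), (259845521408, 23622320128), (824633720832, 274877906944), (446676598784, 34359738368)] :=
  Pool.Agent.helper14.QF.covD_F chks_eq (.l 11)
    [(366414397440, 28185722880), (259845521408, 23622320128), (824633720832, 274877906944), (446676598784, 34359738368)] rfl (by decide +kernel)
theorem c1_m82_t52 : CovD 0 progs [(366414397440, 28185722880), (330712481792, 47244640256), (824633720832, 274877906944), (446676598784, 34359738368)] :=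
  Pool.Agent.helper14.QF.covD_F chks_eq (.l 11)
    [(366414397440, 28185722880), (330712481792, 47244640256), (824633720832, 274877906944), (446676598784, 34359738368)] rfl (by decide +kernel)
end
mutual
theorem c1_m82_t54 : CovD 0 progs [(352321536000, 14092861440), (212600881152, 23622320128), (824633720832, 274877906944), (515396075520, 34359738368)] :=
  Pool.Agent.helper14.QF.covD_F chks_eq (.n 3 (.n 0 (.n 0 (.n 2 (.n 0 (.l 4) (.l 8)) (.n 2 (.l 4) (.l 4))) (.n 2 (.l 8) (.l 4))) (.n 2 (.l 8) (.n 2 (.l 4) (.l 4)))) (.n 0 (.n 0 (.n 2 (.l 8) (.n 0 (.l 4) (.l 4))) (.n 2 (.l 8) (.l 4))) (.n 2 (.l 8) (.n 0 (.l 4) (.n 2 (.n 2 (.l 4) (.l 4)) (.l 4))))))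
    [(352321536000, 14092861440), (212600881152, 23622320128), (824633720832, 274877906944), (515396075520, 34359738368)] rfl (by decide +kernel)
theorem c1_m82_t55 : CovD 0 progs [(373460828160, 7046430720), (212600881152, 23622320128), (687194767360, 137438953472), (515396075520, 34359738368)] :=
  Pool.Agent.helper14.QF.covD_F chks_eq (.l 8)
    [(373460828160, 7046430720), (212600881152, 23622320128), (687194767360, 137438953472), (515396075520, 34359738368)] rfl (by decide +kernel)
end
mutual
theorem c1_m82_t56 : CovD 0 progs [(373460828160, 7046430720), (212600881152, 23622320128), (893353197568, 68719476736), (515396075520, 34359738368)] :=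
  Pool.Agent.helper14.QF.covD_F chks_eq (.n 2 (.n 1 (.l 8) (.n 0 (.n 2 (.l 8) (.n 0 (.l 4) (.n 3 (.l 4) (.l 3)))) (.n 1 (.l 8) (.n 3 (.n 0 (.n 0 (.l 3) (.l 3)) (.l 3)) (.l 3))))) (.n 1 (.n 2 (.l 8) (.l 4)) (.n 0 (.n 0 (.l 4) (.n 3 (.l 4) (.l 3))) (.n 0 (.n 3 (.n 0 (.l 3) (.l 3)) (.l 3)) (.n 3 (.l 3) (.l 0))))))
    [(373460828160, 7046430720), (212600881152, 23622320128), (893353197568, 68719476736), (515396075520, 34359738368)] rfl (by decide +kernel)
theorem c1_m82_t57 : CovD 0 progs [(373460828160, 7046430720), (212600881152, 23622320128), (1030792151040, 68719476736), (515396075520, 34359738368)] :=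
  Pool.Agent.helper14.QF.covD_F chks_eq (.n 1 (.l 4) (.n 0 (.l 4) (.n 2 (.n 1 (.l 4) (.n 3 (.l 4) (.l 3))) (.l 5))))
    [(373460828160, 7046430720), (212600881152, 23622320128), (1030792151040, 68719476736), (515396075520, 34359738368)] rfl (by decide +kernel)
end
mutual
theorem c1_m82_t60 : CovD 0 progs [(384030474240, 3523215360), (212600881152, 23622320128), (824633720832, 274877906944), (515396075520, 34359738368)] :=
  Pool.Agent.helper14.QF.covD_F chks_eq (.n 1 (.n 2 (.l 8) (.n 2 (.n 1 (.l 8) (.n 3 (.l 3) (.l 0))) (.n 3 (.l 3) (.l 0)))) (.n 2 (.n 0 (.l 8) (.n 3 (.l 8) (.l 7))) (.n 2 (.n 3 (.n 0 (.n 0 (.l 3) (.l 3)) (.l 3)) (.l 3)) (.n 3 (.n 0 (.l 3) (.l 0)) (.l 3)))))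
    [(384030474240, 3523215360), (212600881152, 23622320128), (824633720832, 274877906944), (515396075520, 34359738368)] rfl (by decide +kernel)
theorem c1_m82_t61 : CovD 0 progs [(391076904960, 3523215360), (212600881152, 23622320128), (824633720832, 274877906944), (515396075520, 34359738368)] :=
  Pool.Agent.helper14.QF.covD_F chks_eq (.n 2 (.n 2 (.n 3 (.l 7) (.l 0)) (.n 1 (.l 7) (.n 3 (.l 3) (.l 0)))) (.n 2 (.n 3 (.n 1 (.l 0) (.l 3)) (.l 3)) (.n 3 (.n 0 (.l 3) (.l 0)) (.l 0))))
    [(391076904960, 3523215360), (212600881152, 23622320128), (824633720832, 274877906944), (515396075520, 34359738368)] rfl (by decide +kernel)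
end
mutual
theorem c1_m82_t65 : CovD 0 progs [(366414397440, 28185722880), (259845521408, 23622320128), (824633720832, 274877906944), (515396075520, 34359738368)] :=
  Pool.Agent.helper14.QF.covD_F chks_eq (.l 11)
    [(366414397440, 28185722880), (259845521408, 23622320128), (824633720832, 274877906944), (515396075520, 34359738368)] rfl (by decide +kernel)
theorem c1_m82_t67 : CovD 0 progs [(366414397440, 28185722880), (330712481792, 47244640256), (824633720832, 274877906944), (515396075520, 34359738368)] :=
  Pool.Agent.helper14.QF.covD_F chks_eq (.l 11)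
    [(366414397440, 28185722880), (330712481792, 47244640256), (824633720832, 274877906944), (515396075520, 34359738368)] rfl (by decide +kernel)
end
theorem c1_m82_t2 : CovD 0 progs [(339990282240, 1761607680), (212600881152, 23622320128), (824633720832, 274877906944), (343597383680, 68719476736)] :=
  covD_split 2 (by decide +kernel) c1_m82_t0 c1_m82_t1
theorem c1_m82_t5 : CovD 0 progs [(343513497600, 1761607680), (212600881152, 23622320128), (824633720832, 274877906944), (343597383680, 68719476736)] :=
  covD_split 2 (by decide +kernel) c1_m82_t3 c1_m82_t4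
theorem c1_m82_t6 : CovD 0 progs [(341751889920, 3523215360), (212600881152, 23622320128), (824633720832, 274877906944), (343597383680, 68719476736)] :=
  covD_split 0 (by decide +kernel) c1_m82_t2 c1_m82_t5
theorem c1_m82_t9 : CovD 0 progs [(348798320640, 3523215360), (212600881152, 23622320128), (824633720832, 274877906944), (343597383680, 68719476736)] :=
  covD_split 0 (by decide +kernel) c1_m82_t7 c1_m82_t8
theorem c1_m82_t10 : CovD 0 progs [(345275105280, 7046430720), (212600881152, 23622320128), (824633720832, 274877906944), (343597383680, 68719476736)] :=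
  covD_split 0 (by decide +kernel) c1_m82_t6 c1_m82_t9
theorem c1_m82_t13 : CovD 0 progs [(359367966720, 7046430720), (212600881152, 23622320128), (824633720832, 274877906944), (343597383680, 68719476736)] :=
  covD_split 0 (by decide +kernel) c1_m82_t11 c1_m82_t12
theorem c1_m82_t14 : CovD 0 progs [(352321536000, 14092861440), (212600881152, 23622320128), (824633720832, 274877906944), (343597383680, 68719476736)] :=
  covD_split 0 (by decide +kernel) c1_m82_t10 c1_m82_t13
theorem c1_m82_t16 : CovD 0 progs [(352321536000, 14092861440), (236223201280, 47244640256), (824633720832, 274877906944), (343597383680, 68719476736)] :=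
  covD_split 1 (by decide +kernel) c1_m82_t14 c1_m82_t15
theorem c1_m82_t18 : CovD 0 progs [(352321536000, 14092861440), (283467841536, 94489280512), (824633720832, 274877906944), (343597383680, 68719476736)] :=
  covD_split 1 (by decide +kernel) c1_m82_t16 c1_m82_t17
theorem c1_m82_t24 : CovD 0 progs [(387553689600, 7046430720), (225150238720, 738197504), (824633720832, 274877906944), (343597383680, 68719476736)] :=
  covD_split 1 (by decide +kernel) c1_m82_t22 c1_m82_t23
theorem c1_m82_t26 : CovD 0 progs [(387553689600, 7046430720), (225888436224, 1476395008), (824633720832, 274877906944), (343597383680, 68719476736)] :=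
  covD_split 1 (by decide +kernel) c1_m82_t24 c1_m82_t25
theorem c1_m82_t28 : CovD 0 progs [(387553689600, 7046430720), (227364831232, 2952790016), (824633720832, 274877906944), (343597383680, 68719476736)] :=
  covD_split 1 (by decide +kernel) c1_m82_t26 c1_m82_t27
theorem c1_m82_t30 : CovD 0 progs [(387553689600, 7046430720), (230317621248, 5905580032), (824633720832, 274877906944), (343597383680, 68719476736)] :=
  covD_split 1 (by decide +kernel) c1_m82_t28 c1_m82_t29
theorem c1_m82_t31 : CovD 0 progs [(387553689600, 7046430720), (224412041216, 11811160064), (824633720832, 274877906944), (343597383680, 68719476736)] :=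
  covD_split 1 (by decide +kernel) c1_m82_t21 c1_m82_t30
theorem c1_m82_t32 : CovD 0 progs [(387553689600, 7046430720), (212600881152, 23622320128), (824633720832, 274877906944), (343597383680, 68719476736)] :=
  covD_split 1 (by decide +kernel) c1_m82_t20 c1_m82_t31
theorem c1_m82_t33 : CovD 0 progs [(380507258880, 14092861440), (212600881152, 23622320128), (824633720832, 274877906944), (343597383680, 68719476736)] :=
  covD_split 0 (by decide +kernel) c1_m82_t19 c1_m82_t32
theorem c1_m82_t35 : CovD 0 progs [(380507258880, 14092861440), (236223201280, 47244640256), (824633720832, 274877906944), (343597383680, 68719476736)] :=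
  covD_split 1 (by decide +kernel) c1_m82_t33 c1_m82_t34
theorem c1_m82_t37 : CovD 0 progs [(380507258880, 14092861440), (283467841536, 94489280512), (824633720832, 274877906944), (343597383680, 68719476736)] :=
  covD_split 1 (by decide +kernel) c1_m82_t35 c1_m82_t36
theorem c1_m82_t38 : CovD 0 progs [(366414397440, 28185722880), (283467841536, 94489280512), (824633720832, 274877906944), (343597383680, 68719476736)] :=
  covD_split 0 (by decide +kernel) c1_m82_t18 c1_m82_t37
theorem c1_m82_t41 : CovD 0 progs [(352321536000, 14092861440), (212600881152, 23622320128), (824633720832, 274877906944), (446676598784, 34359738368)] :=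
  covD_split 3 (by decide +kernel) c1_m82_t39 c1_m82_t40
theorem c1_m82_t46 : CovD 0 progs [(387553689600, 7046430720), (224412041216, 11811160064), (824633720832, 274877906944), (446676598784, 34359738368)] :=
  covD_split 0 (by decide +kernel) c1_m82_t44 c1_m82_t45
theorem c1_m82_t47 : CovD 0 progs [(387553689600, 7046430720), (212600881152, 23622320128), (824633720832, 274877906944), (446676598784, 34359738368)] :=
  covD_split 1 (by decide +kernel) c1_m82_t43 c1_m82_t46
theorem c1_m82_t48 : CovD 0 progs [(380507258880, 14092861440), (212600881152, 23622320128), (824633720832, 274877906944), (446676598784, 34359738368)] :=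
  covD_split 0 (by decide +kernel) c1_m82_t42 c1_m82_t47
theorem c1_m82_t49 : CovD 0 progs [(366414397440, 28185722880), (212600881152, 23622320128), (824633720832, 274877906944), (446676598784, 34359738368)] :=
  covD_split 0 (by decide +kernel) c1_m82_t41 c1_m82_t48
theorem c1_m82_t51 : CovD 0 progs [(366414397440, 28185722880), (236223201280, 47244640256), (824633720832, 274877906944), (446676598784, 34359738368)] :=
  covD_split 1 (by decide +kernel) c1_m82_t49 c1_m82_t50
theorem c1_m82_t53 : CovD 0 progs [(366414397440, 28185722880), (283467841536, 94489280512), (824633720832, 274877906944), (446676598784, 34359738368)] :=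
  covD_split 1 (by decide +kernel) c1_m82_t51 c1_m82_t52
theorem c1_m82_t58 : CovD 0 progs [(373460828160, 7046430720), (212600881152, 23622320128), (962072674304, 137438953472), (515396075520, 34359738368)] :=
  covD_split 2 (by decide +kernel) c1_m82_t56 c1_m82_t57
theorem c1_m82_t59 : CovD 0 progs [(373460828160, 7046430720), (212600881152, 23622320128), (824633720832, 274877906944), (515396075520, 34359738368)] :=
  covD_split 2 (by decide +kernel) c1_m82_t55 c1_m82_t58
theorem c1_m82_t62 : CovD 0 progs [(387553689600, 7046430720), (212600881152, 23622320128), (824633720832, 274877906944), (515396075520, 34359738368)] :=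
  covD_split 0 (by decide +kernel) c1_m82_t60 c1_m82_t61
theorem c1_m82_t63 : CovD 0 progs [(380507258880, 14092861440), (212600881152, 23622320128), (824633720832, 274877906944), (515396075520, 34359738368)] :=
  covD_split 0 (by decide +kernel) c1_m82_t59 c1_m82_t62
theorem c1_m82_t64 : CovD 0 progs [(366414397440, 28185722880), (212600881152, 23622320128), (824633720832, 274877906944), (515396075520, 34359738368)] :=
  covD_split 0 (by decide +kernel) c1_m82_t54 c1_m82_t63
theorem c1_m82_t66 : CovD 0 progs [(366414397440, 28185722880), (236223201280, 47244640256), (824633720832, 274877906944), (515396075520, 34359738368)] :=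
  covD_split 1 (by decide +kernel) c1_m82_t64 c1_m82_t65
theorem c1_m82_t68 : CovD 0 progs [(366414397440, 28185722880), (283467841536, 94489280512), (824633720832, 274877906944), (515396075520, 34359738368)] :=
  covD_split 1 (by decide +kernel) c1_m82_t66 c1_m82_t67
theorem c1_m82_t69 : CovD 0 progs [(366414397440, 28185722880), (283467841536, 94489280512), (824633720832, 274877906944), (481036337152, 68719476736)] :=
  covD_split 3 (by decide +kernel) c1_m82_t53 c1_m82_t68
theorem c1_m82 : CovD 0 progs [(366414397440, 28185722880), (283467841536, 94489280512), (824633720832, 274877906944), (412316860416, 137438953472)] :=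
  covD_split 3 (by decide +kernel) c1_m82_t38 c1_m82_t69

end Pool.Agent.helper71.FJ.Crt.QMa
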