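import Pool.Agent.helper71.FJ.Crt.QMaP

/-!
Generated certificates.
-/

namespace Pool.Agent.helper71.FJ.Crt.QMa

open Pool.Agent.helper31.IA (Z Op)
open Pool.Agent.helper31.IC

mutual
theorem c1_m86_t0 : CovD 0 progs [(232532213760, 7046430720), (212600881152, 23622320128), (274877906944, 274877906944), (721554505728, 34359738368)] :=
  Pool.Agent.helper14.QF.covD_F chks_eq (.n 0 (.n 0 (.n 3 (.l 4) (.n 3 (.l 4) (.l 4))) (.n 3 (.n 0 (.l 4) (.l 4)) (.n 3 (.l 4) (.n 0 (.l 4) (.l 4))))) (.n 0 (.n 3 (.n 3 (.l 4) (.l 4)) (.n 2 (.n 3 (.l 4) (.l 4)) (.n 3 (.l 4) (.n 0 (.l 4) (.l 4))))) (.n 3 (.n 3 (.l 4) (.l 4)) (.n 2 (.n 3 (.l 4) (.n 0 (.l 4) (.l 4))) (.n 3 (.l 4) (.n 0 (.l 4) (.l 4)))))))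
    [(232532213760, 7046430720), (212600881152, 23622320128), (274877906944, 274877906944), (721554505728, 34359738368)] rfl (by decide +kernel)
theorem c1_m86_t1 : CovD 0 progs [(241340252160, 1761607680), (212600881152, 23622320128), (274877906944, 274877906944), (721554505728, 34359738368)] :=
  Pool.Agent.helper14.QF.covD_F chks_eq (.n 0 (.n 3 (.n 3 (.l 4) (.l 4)) (.n 2 (.n 3 (.l 4) (.n 0 (.l 4) (.l 4))) (.n 3 (.l 4) (.n 0 (.l 4) (.l 4))))) (.n 3 (.n 3 (.l 4) (.l 4)) (.n 2 (.n 3 (.l 4) (.n 3 (.l 4) (.l 4))) (.n 3 (.l 4) (.n 3 (.l 4) (.l 4))))))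
    [(241340252160, 1761607680), (212600881152, 23622320128), (274877906944, 274877906944), (721554505728, 34359738368)] rfl (by decide +kernel)
end
mutual
theorem c1_m86_t2 : CovD 0 progs [(244863467520, 1761607680), (212600881152, 23622320128), (274877906944, 274877906944), (721554505728, 34359738368)] :=
  Pool.Agent.helper14.QF.covD_F chks_eq (.n 0 (.n 3 (.n 3 (.l 4) (.n 0 (.l 4) (.l 4))) (.n 2 (.n 3 (.l 4) (.n 3 (.l 4) (.l 4))) (.n 3 (.l 4) (.n 3 (.l 4) (.n 0 (.l 4) (.l 4)))))) (.n 3 (.n 3 (.l 4) (.n 2 (.l 4) (.l 4))) (.n 3 (.n 0 (.n 2 (.l 4) (.l 4)) (.n 2 (.l 4) (.l 4))) (.n 2 (.n 3 (.l 4) (.n 0 (.l 4) (.l 4))) (.n 3 (.l 4) (.n 2 (.l 4) (.l 4)))))))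
    [(244863467520, 1761607680), (212600881152, 23622320128), (274877906944, 274877906944), (721554505728, 34359738368)] rfl (by decide +kernel)
theorem c1_m86_t4 : CovD 0 progs [(247505879040, 880803840), (212600881152, 23622320128), (274877906944, 274877906944), (721554505728, 34359738368)] :=
  Pool.Agent.helper14.QF.covD_F chks_eq (.n 3 (.n 3 (.l 4) (.n 2 (.l 4) (.l 4))) (.n 3 (.n 2 (.n 3 (.l 4) (.l 4)) (.n 3 (.l 4) (.l 4))) (.n 2 (.n 3 (.l 4) (.n 2 (.l 4) (.l 4))) (.n 2 (.n 3 (.l 4) (.n 0 (.l 4) (.l 4))) (.n 3 (.l 4) (.n 0 (.l 4) (.l 4)))))))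
    [(247505879040, 880803840), (212600881152, 23622320128), (274877906944, 274877906944), (721554505728, 34359738368)] rfl (by decide +kernel)
end
mutual
theorem c1_m86_t5 : CovD 0 progs [(249267486720, 880803840), (212600881152, 23622320128), (274877906944, 274877906944), (721554505728, 34359738368)] :=
  Pool.Agent.helper14.QF.covD_F chks_eq (.n 2 (.n 3 (.n 3 (.l 4) (.l 4)) (.n 3 (.n 3 (.l 4) (.l 4)) (.n 3 (.n 0 (.l 4) (.l 4)) (.n 3 (.l 4) (.n 0 (.l 4) (.l 4)))))) (.n 3 (.n 3 (.l 4) (.l 4)) (.n 3 (.n 3 (.l 4) (.n 0 (.l 4) (.l 4))) (.n 2 (.n 3 (.l 4) (.n 0 (.l 4) (.l 4))) (.n 2 (.n 3 (.l 4) (.l 4)) (.n 3 (.l 4) (.l 4)))))))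
    [(249267486720, 880803840), (212600881152, 23622320128), (274877906944, 274877906944), (721554505728, 34359738368)] rfl (by decide +kernel)
theorem c1_m86_t7 : CovD 0 progs [(251029094400, 880803840), (212600881152, 23622320128), (137438953472, 137438953472), (721554505728, 34359738368)] :=
  Pool.Agent.helper14.QF.covD_F chks_eq (.n 3 (.n 3 (.l 4) (.n 0 (.l 4) (.l 4))) (.n 3 (.n 3 (.l 4) (.n 0 (.l 4) (.l 4))) (.n 3 (.n 3 (.l 4) (.n 0 (.l 4) (.l 4))) (.n 0 (.n 2 (.l 4) (.l 4)) (.n 2 (.l 4) (.l 4))))))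
    [(251029094400, 880803840), (212600881152, 23622320128), (137438953472, 137438953472), (721554505728, 34359738368)] rfl (by decide +kernel)
end
mutual
theorem c1_m86_t8 : CovD 0 progs [(251029094400, 880803840), (212600881152, 23622320128), (412316860416, 137438953472), (721554505728, 34359738368)] :=
  Pool.Agent.helper14.QF.covD_F chks_eq (.n 3 (.n 3 (.l 4) (.n 0 (.l 4) (.l 4))) (.n 2 (.n 3 (.n 3 (.l 4) (.l 4)) (.n 0 (.n 3 (.l 4) (.l 4)) (.n 3 (.l 4) (.l 4)))) (.n 3 (.n 3 (.l 4) (.l 4)) (.n 3 (.n 0 (.l 4) (.l 4)) (.n 3 (.l 4) (.n 0 (.l 4) (.l 4)))))))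
    [(251029094400, 880803840), (212600881152, 23622320128), (412316860416, 137438953472), (721554505728, 34359738368)] rfl (by decide +kernel)
theorem c1_m86_t10 : CovD 0 progs [(252790702080, 880803840), (212600881152, 23622320128), (137438953472, 137438953472), (721554505728, 34359738368)] :=
  Pool.Agent.helper14.QF.covD_F chks_eq (.n 3 (.n 3 (.l 4) (.n 3 (.l 4) (.l 4))) (.n 3 (.n 3 (.l 4) (.n 2 (.l 4) (.l 4))) (.n 3 (.n 0 (.n 1 (.l 4) (.l 4)) (.n 2 (.l 4) (.l 4))) (.n 2 (.l 4) (.n 0 (.l 4) (.l 4))))))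
    [(252790702080, 880803840), (212600881152, 23622320128), (137438953472, 137438953472), (721554505728, 34359738368)] rfl (by decide +kernel)
end
mutual
theorem c1_m86_t11 : CovD 0 progs [(252790702080, 880803840), (212600881152, 23622320128), (412316860416, 137438953472), (721554505728, 34359738368)] :=
  Pool.Agent.helper14.QF.covD_F chks_eq (.n 3 (.n 3 (.l 4) (.n 3 (.l 4) (.l 4))) (.n 2 (.n 3 (.n 3 (.l 4) (.l 4)) (.n 0 (.n 3 (.l 4) (.l 4)) (.n 3 (.l 4) (.l 4)))) (.n 3 (.n 3 (.l 4) (.n 0 (.l 4) (.l 4))) (.n 2 (.n 3 (.l 4) (.l 4)) (.n 3 (.l 4) (.l 4))))))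
    [(252790702080, 880803840), (212600881152, 23622320128), (412316860416, 137438953472), (721554505728, 34359738368)] rfl (by decide +kernel)
theorem c1_m86_t17 : CovD 0 progs [(239578644480, 14092861440), (259845521408, 23622320128), (274877906944, 274877906944), (721554505728, 34359738368)] :=
  Pool.Agent.helper14.QF.covD_F chks_eq (.l 11)
    [(239578644480, 14092861440), (259845521408, 23622320128), (274877906944, 274877906944), (721554505728, 34359738368)] rfl (by decide +kernel)
theorem c1_m86_t19 : CovD 0 progs [(239578644480, 14092861440), (330712481792, 47244640256), (274877906944, 274877906944), (721554505728, 34359738368)] :=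
  Pool.Agent.helper14.QF.covD_F chks_eq (.l 11)
    [(239578644480, 14092861440), (330712481792, 47244640256), (274877906944, 274877906944), (721554505728, 34359738368)] rfl (by decide +kernel)
end
theorem c1_m86_t3 : CovD 0 progs [(243101859840, 3523215360), (212600881152, 23622320128), (274877906944, 274877906944), (721554505728, 34359738368)] :=
  covD_split 0 (by decide +kernel) c1_m86_t1 c1_m86_t2
theorem c1_m86_t6 : CovD 0 progs [(248386682880, 1761607680), (212600881152, 23622320128), (274877906944, 274877906944), (721554505728, 34359738368)] :=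
  covD_split 0 (by decide +kernel) c1_m86_t4 c1_m86_t5
theorem c1_m86_t9 : CovD 0 progs [(251029094400, 880803840), (212600881152, 23622320128), (274877906944, 274877906944), (721554505728, 34359738368)] :=
  covD_split 2 (by decide +kernel) c1_m86_t7 c1_m86_t8
theorem c1_m86_t12 : CovD 0 progs [(252790702080, 880803840), (212600881152, 23622320128), (274877906944, 274877906944), (721554505728, 34359738368)] :=
  covD_split 2 (by decide +kernel) c1_m86_t10 c1_m86_t11
theorem c1_m86_t13 : CovD 0 progs [(251909898240, 1761607680), (212600881152, 23622320128), (274877906944, 274877906944), (721554505728, 34359738368)] :=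
  covD_split 0 (by decide +kernel) c1_m86_t9 c1_m86_t12
theorem c1_m86_t14 : CovD 0 progs [(250148290560, 3523215360), (212600881152, 23622320128), (274877906944, 274877906944), (721554505728, 34359738368)] :=
  covD_split 0 (by decide +kernel) c1_m86_t6 c1_m86_t13
theorem c1_m86_t15 : CovD 0 progs [(246625075200, 7046430720), (212600881152, 23622320128), (274877906944, 274877906944), (721554505728, 34359738368)] :=
  covD_split 0 (by decide +kernel) c1_m86_t3 c1_m86_t14
theorem c1_m86_t16 : CovD 0 progs [(239578644480, 14092861440), (212600881152, 23622320128), (274877906944, 274877906944), (721554505728, 34359738368)] :=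
  covD_split 0 (by decide +kernel) c1_m86_t0 c1_m86_t15
theorem c1_m86_t18 : CovD 0 progs [(239578644480, 14092861440), (236223201280, 47244640256), (274877906944, 274877906944), (721554505728, 34359738368)] :=
  covD_split 1 (by decide +kernel) c1_m86_t16 c1_m86_t17
theorem c1_m86 : CovD 0 progs [(239578644480, 14092861440), (283467841536, 94489280512), (274877906944, 274877906944), (721554505728, 34359738368)] :=
  covD_split 1 (by decide +kernel) c1_m86_t18 c1_m86_t19

end Pool.Agent.helper71.FJ.Crt.QMa
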