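import Pool.Agent.helper71.FJ.Crt.QMaP

/-!
Generated certificates.
-/

namespace Pool.Agent.helper71.FJ.Crt.QMa

open Pool.Agent.helper31.IA (Z Op)
open Pool.Agent.helper31.IC

mutual
theorem c1_m87_t0 : CovD 0 progs [(226366586880, 880803840), (212600881152, 23622320128), (137438953472, 137438953472), (790273982464, 34359738368)] :=
  Pool.Agent.helper14.QF.covD_F chks_eq (.n 3 (.n 3 (.l 4) (.l 4)) (.n 3 (.n 3 (.l 4) (.l 4)) (.n 0 (.n 3 (.l 4) (.n 2 (.l 4) (.l 4))) (.n 3 (.l 4) (.n 3 (.l 4) (.l 4))))))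
    [(226366586880, 880803840), (212600881152, 23622320128), (137438953472, 137438953472), (790273982464, 34359738368)] rfl (by decide +kernel)
theorem c1_m87_t1 : CovD 0 progs [(228128194560, 880803840), (212600881152, 23622320128), (137438953472, 137438953472), (790273982464, 34359738368)] :=
  Pool.Agent.helper14.QF.covD_F chks_eq (.n 0 (.n 3 (.n 3 (.l 4) (.l 4)) (.n 3 (.n 3 (.l 4) (.l 4)) (.n 3 (.n 0 (.l 4) (.l 4)) (.n 3 (.l 4) (.l 4))))) (.n 3 (.n 3 (.l 4) (.l 4)) (.n 3 (.n 3 (.l 4) (.l 4)) (.n 3 (.n 2 (.l 4) (.l 4)) (.n 3 (.l 4) (.n 0 (.l 4) (.l 4)))))))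
    [(228128194560, 880803840), (212600881152, 23622320128), (137438953472, 137438953472), (790273982464, 34359738368)] rfl (by decide +kernel)
end
mutual
theorem c1_m87_t3 : CovD 0 progs [(229889802240, 880803840), (212600881152, 23622320128), (137438953472, 137438953472), (790273982464, 34359738368)] :=
  Pool.Agent.helper14.QF.covD_F chks_eq (.n 0 (.n 3 (.n 3 (.l 4) (.l 4)) (.n 3 (.n 3 (.l 4) (.l 4)) (.n 2 (.n 3 (.l 4) (.n 0 (.l 4) (.l 4))) (.n 3 (.l 4) (.n 0 (.l 4) (.l 4)))))) (.n 3 (.n 3 (.l 4) (.n 0 (.l 4) (.l 4))) (.n 3 (.n 3 (.l 4) (.n 0 (.l 4) (.l 4))) (.n 3 (.n 3 (.l 4) (.l 4)) (.n 0 (.n 2 (.l 4) (.l 4)) (.n 2 (.l 4) (.l 4)))))))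
    [(229889802240, 880803840), (212600881152, 23622320128), (137438953472, 137438953472), (790273982464, 34359738368)] rfl (by decide +kernel)
theorem c1_m87_t4 : CovD 0 progs [(231651409920, 880803840), (212600881152, 23622320128), (137438953472, 137438953472), (790273982464, 34359738368)] :=
  Pool.Agent.helper14.QF.covD_F chks_eq (.n 3 (.n 3 (.l 4) (.n 3 (.l 4) (.l 4))) (.n 3 (.n 3 (.n 0 (.l 4) (.l 4)) (.n 3 (.l 4) (.n 0 (.l 4) (.l 4)))) (.n 3 (.n 2 (.n 3 (.l 4) (.l 4)) (.n 3 (.l 4) (.l 4))) (.n 0 (.n 2 (.l 4) (.l 4)) (.n 1 (.l 4) (.l 4))))))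
    [(231651409920, 880803840), (212600881152, 23622320128), (137438953472, 137438953472), (790273982464, 34359738368)] rfl (by decide +kernel)
end
mutual
theorem c1_m87_t7 : CovD 0 progs [(233413017600, 880803840), (212600881152, 23622320128), (137438953472, 137438953472), (790273982464, 34359738368)] :=
  Pool.Agent.helper14.QF.covD_F chks_eq (.n 0 (.n 3 (.n 3 (.l 4) (.n 3 (.l 4) (.l 4))) (.n 3 (.n 3 (.l 4) (.n 2 (.l 4) (.l 4))) (.n 1 (.n 3 (.n 2 (.l 4) (.l 4)) (.l 4)) (.n 3 (.n 2 (.l 4) (.l 4)) (.l 4))))) (.n 3 (.n 3 (.l 4) (.n 3 (.l 4) (.l 4))) (.n 3 (.n 3 (.n 0 (.l 4) (.l 4)) (.n 3 (.l 4) (.l 4))) (.n 2 (.n 3 (.l 4) (.l 4)) (.n 3 (.l 4) (.l 4))))))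
    [(233413017600, 880803840), (212600881152, 23622320128), (137438953472, 137438953472), (790273982464, 34359738368)] rfl (by decide +kernel)
theorem c1_m87_t8 : CovD 0 progs [(235174625280, 880803840), (212600881152, 23622320128), (137438953472, 137438953472), (790273982464, 34359738368)] :=
  Pool.Agent.helper14.QF.covD_F chks_eq (.n 0 (.n 3 (.n 3 (.l 4) (.n 3 (.l 4) (.l 4))) (.n 3 (.n 3 (.n 2 (.l 4) (.l 4)) (.n 3 (.l 4) (.n 0 (.l 4) (.l 4)))) (.n 2 (.n 3 (.l 4) (.l 4)) (.n 3 (.l 4) (.l 4))))) (.n 3 (.n 3 (.l 4) (.n 3 (.l 4) (.l 4))) (.n 3 (.n 3 (.n 2 (.l 4) (.l 4)) (.n 3 (.l 4) (.n 0 (.l 4) (.l 4)))) (.n 2 (.n 3 (.l 4) (.l 4)) (.n 3 (.l 4) (.l 4))))))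
    [(235174625280, 880803840), (212600881152, 23622320128), (137438953472, 137438953472), (790273982464, 34359738368)] rfl (by decide +kernel)
end
mutual
theorem c1_m87_t10 : CovD 0 progs [(236495831040, 440401920), (212600881152, 23622320128), (137438953472, 137438953472), (790273982464, 34359738368)] :=
  Pool.Agent.helper14.QF.covD_F chks_eq (.n 2 (.n 3 (.n 3 (.l 4) (.n 3 (.l 4) (.l 4))) (.n 3 (.n 3 (.l 4) (.l 4)) (.n 3 (.l 4) (.l 4)))) (.n 3 (.n 3 (.l 4) (.n 3 (.l 4) (.l 4))) (.n 3 (.n 3 (.l 4) (.l 4)) (.n 3 (.l 4) (.l 4)))))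
    [(236495831040, 440401920), (212600881152, 23622320128), (137438953472, 137438953472), (790273982464, 34359738368)] rfl (by decide +kernel)
theorem c1_m87_t11 : CovD 0 progs [(237376634880, 440401920), (212600881152, 23622320128), (137438953472, 137438953472), (790273982464, 34359738368)] :=
  Pool.Agent.helper14.QF.covD_F chks_eq (.n 2 (.n 3 (.n 3 (.l 4) (.n 3 (.l 4) (.l 4))) (.n 3 (.n 3 (.l 4) (.l 4)) (.n 3 (.l 4) (.l 4)))) (.n 3 (.n 3 (.l 4) (.n 3 (.l 4) (.l 4))) (.n 3 (.n 3 (.n 0 (.l 4) (.l 4)) (.l 4)) (.n 3 (.l 4) (.l 4)))))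
    [(237376634880, 440401920), (212600881152, 23622320128), (137438953472, 137438953472), (790273982464, 34359738368)] rfl (by decide +kernel)
end
mutual
theorem c1_m87_t13 : CovD 0 progs [(238697840640, 880803840), (200789721088, 11811160064), (68719476736, 68719476736), (790273982464, 34359738368)] :=
  Pool.Agent.helper14.QF.covD_F chks_eq (.n 2 (.n 3 (.n 3 (.n 3 (.l 4) (.l 4)) (.n 3 (.l 4) (.n 0 (.l 4) (.l 4)))) (.n 3 (.n 3 (.n 0 (.l 4) (.l 4)) (.l 4)) (.n 3 (.l 4) (.l 4)))) (.n 3 (.n 3 (.n 3 (.l 4) (.l 4)) (.n 3 (.l 4) (.n 0 (.l 4) (.l 4)))) (.n 3 (.n 3 (.n 0 (.l 4) (.l 4)) (.l 4)) (.n 3 (.l 4) (.l 4)))))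
    [(238697840640, 880803840), (200789721088, 11811160064), (68719476736, 68719476736), (790273982464, 34359738368)] rfl (by decide +kernel)
theorem c1_m87_t14 : CovD 0 progs [(238697840640, 880803840), (200789721088, 11811160064), (206158430208, 68719476736), (790273982464, 34359738368)] :=
  Pool.Agent.helper14.QF.covD_F chks_eq (.n 2 (.n 3 (.n 3 (.n 3 (.l 4) (.l 4)) (.n 3 (.l 4) (.n 0 (.l 4) (.l 4)))) (.n 3 (.n 3 (.n 0 (.l 4) (.l 4)) (.l 4)) (.n 3 (.l 4) (.l 4)))) (.n 3 (.n 3 (.n 3 (.l 4) (.l 4)) (.n 3 (.l 4) (.n 0 (.l 4) (.l 4)))) (.n 3 (.n 3 (.n 0 (.l 4) (.l 4)) (.l 4)) (.n 3 (.l 4) (.l 4)))))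
    [(238697840640, 880803840), (200789721088, 11811160064), (206158430208, 68719476736), (790273982464, 34359738368)] rfl (by decide +kernel)
end
mutual
theorem c1_m87_t16 : CovD 0 progs [(238697840640, 880803840), (224412041216, 11811160064), (68719476736, 68719476736), (790273982464, 34359738368)] :=
  Pool.Agent.helper14.QF.covD_F chks_eq (.n 2 (.n 3 (.n 3 (.n 3 (.l 4) (.l 4)) (.n 3 (.l 4) (.n 0 (.l 4) (.l 4)))) (.n 3 (.n 3 (.n 0 (.l 4) (.l 4)) (.l 4)) (.n 3 (.l 4) (.l 4)))) (.n 3 (.n 3 (.n 3 (.l 4) (.l 4)) (.n 3 (.l 4) (.n 0 (.l 4) (.l 4)))) (.n 3 (.n 3 (.n 0 (.l 4) (.l 4)) (.l 4)) (.n 3 (.l 4) (.l 4)))))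
    [(238697840640, 880803840), (224412041216, 11811160064), (68719476736, 68719476736), (790273982464, 34359738368)] rfl (by decide +kernel)
theorem c1_m87_t17 : CovD 0 progs [(238697840640, 880803840), (224412041216, 11811160064), (206158430208, 68719476736), (790273982464, 34359738368)] :=
  Pool.Agent.helper14.QF.covD_F chks_eq (.n 2 (.n 3 (.n 3 (.n 3 (.l 4) (.l 4)) (.n 3 (.l 4) (.n 0 (.l 4) (.l 4)))) (.n 3 (.n 3 (.n 0 (.l 4) (.l 4)) (.l 4)) (.n 3 (.l 4) (.l 4)))) (.n 3 (.n 3 (.n 3 (.l 4) (.l 4)) (.n 3 (.l 4) (.n 0 (.l 4) (.l 4)))) (.n 3 (.n 3 (.n 0 (.l 4) (.l 4)) (.l 4)) (.n 3 (.l 4) (.l 4)))))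
    [(238697840640, 880803840), (224412041216, 11811160064), (206158430208, 68719476736), (790273982464, 34359738368)] rfl (by decide +kernel)
end
mutual
theorem c1_m87_t23 : CovD 0 progs [(232532213760, 7046430720), (259845521408, 23622320128), (137438953472, 137438953472), (790273982464, 34359738368)] :=
  Pool.Agent.helper14.QF.covD_F chks_eq (.l 11)
    [(232532213760, 7046430720), (259845521408, 23622320128), (137438953472, 137438953472), (790273982464, 34359738368)] rfl (by decide +kernel)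
theorem c1_m87_t25 : CovD 0 progs [(246625075200, 7046430720), (236223201280, 47244640256), (137438953472, 137438953472), (760209211392, 4294967296)] :=
  Pool.Agent.helper14.QF.covD_F chks_eq (.n 3 (.n 0 (.n 1 (.n 0 (.l 4) (.n 0 (.l 4) (.l 4))) (.l 11)) (.n 0 (.n 0 (.n 2 (.l 4) (.l 4)) (.n 2 (.l 4) (.l 4))) (.n 0 (.n 2 (.l 4) (.l 4)) (.n 1 (.l 4) (.l 11))))) (.n 1 (.n 0 (.n 0 (.n 0 (.l 4) (.l 4)) (.n 0 (.l 4) (.n 0 (.l 4) (.l 4)))) (.n 0 (.n 0 (.n 0 (.l 4) (.l 4)) (.n 0 (.l 4) (.l 4))) (.n 1 (.l 4) (.l 4)))) (.l 11)))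
    [(246625075200, 7046430720), (236223201280, 47244640256), (137438953472, 137438953472), (760209211392, 4294967296)] rfl (by decide +kernel)
end
mutual
theorem c1_m87_t26 : CovD 0 progs [(246625075200, 7046430720), (236223201280, 47244640256), (137438953472, 137438953472), (768799145984, 4294967296)] :=
  Pool.Agent.helper14.QF.covD_F chks_eq (.n 1 (.n 0 (.n 0 (.n 0 (.n 0 (.l 4) (.l 4)) (.n 3 (.l 4) (.l 4))) (.n 0 (.n 3 (.l 4) (.n 0 (.l 4) (.l 4))) (.n 0 (.n 2 (.l 4) (.l 4)) (.n 2 (.l 4) (.l 4))))) (.n 0 (.n 0 (.n 0 (.n 2 (.l 4) (.l 4)) (.n 2 (.l 4) (.l 4))) (.n 2 (.l 4) (.l 4))) (.n 0 (.n 1 (.l 4) (.l 4)) (.n 2 (.l 4) (.l 4))))) (.l 11))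
    [(246625075200, 7046430720), (236223201280, 47244640256), (137438953472, 137438953472), (768799145984, 4294967296)] rfl (by decide +kernel)
theorem c1_m87_t28 : CovD 0 progs [(246625075200, 7046430720), (236223201280, 47244640256), (137438953472, 137438953472), (775241596928, 2147483648)] :=
  Pool.Agent.helper14.QF.covD_F chks_eq (.n 1 (.n 0 (.n 0 (.n 0 (.l 4) (.n 0 (.l 4) (.l 4))) (.n 0 (.n 0 (.l 4) (.l 4)) (.n 0 (.l 4) (.l 4)))) (.n 0 (.n 1 (.l 4) (.l 4)) (.n 0 (.n 0 (.l 4) (.l 4)) (.l 4)))) (.l 11))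
    [(246625075200, 7046430720), (236223201280, 47244640256), (137438953472, 137438953472), (775241596928, 2147483648)] rfl (by decide +kernel)
end
mutual
theorem c1_m87_t29 : CovD 0 progs [(246625075200, 7046430720), (236223201280, 47244640256), (137438953472, 137438953472), (779536564224, 2147483648)] :=
  Pool.Agent.helper14.QF.covD_F chks_eq (.n 1 (.n 0 (.n 0 (.n 0 (.n 0 (.l 4) (.l 4)) (.n 0 (.l 4) (.l 4))) (.n 0 (.n 1 (.l 4) (.l 4)) (.n 0 (.l 4) (.l 4)))) (.n 0 (.n 2 (.l 4) (.l 4)) (.n 0 (.n 0 (.l 4) (.l 4)) (.l 4)))) (.l 11))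
    [(246625075200, 7046430720), (236223201280, 47244640256), (137438953472, 137438953472), (779536564224, 2147483648)] rfl (by decide +kernel)
theorem c1_m87_t31 : CovD 0 progs [(246625075200, 7046430720), (236223201280, 47244640256), (137438953472, 137438953472), (783831531520, 2147483648)] :=
  Pool.Agent.helper14.QF.covD_F chks_eq (.n 1 (.n 0 (.n 0 (.n 0 (.n 0 (.l 4) (.l 4)) (.n 1 (.l 4) (.l 4))) (.n 2 (.l 4) (.l 4))) (.n 0 (.n 0 (.n 0 (.l 4) (.l 4)) (.n 0 (.l 4) (.l 4))) (.n 0 (.l 4) (.l 4)))) (.l 11))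
    [(246625075200, 7046430720), (236223201280, 47244640256), (137438953472, 137438953472), (783831531520, 2147483648)] rfl (by decide +kernel)
end
mutual
theorem c1_m87_t32 : CovD 0 progs [(246625075200, 7046430720), (236223201280, 47244640256), (137438953472, 137438953472), (788126498816, 2147483648)] :=
  Pool.Agent.helper14.QF.covD_F chks_eq (.n 1 (.n 0 (.n 0 (.n 0 (.n 2 (.l 4) (.l 4)) (.n 1 (.l 4) (.l 4))) (.n 2 (.l 4) (.l 4))) (.n 0 (.n 0 (.n 0 (.l 4) (.l 4)) (.l 4)) (.n 0 (.l 4) (.l 4)))) (.l 11))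
    [(246625075200, 7046430720), (236223201280, 47244640256), (137438953472, 137438953472), (788126498816, 2147483648)] rfl (by decide +kernel)
theorem c1_m87_t36 : CovD 0 progs [(246625075200, 7046430720), (236223201280, 47244640256), (137438953472, 137438953472), (794568949760, 4294967296)] :=
  Pool.Agent.helper14.QF.covD_F chks_eq (.n 3 (.n 1 (.n 0 (.n 0 (.n 0 (.n 1 (.l 4) (.l 4)) (.l 4)) (.n 0 (.n 0 (.l 4) (.l 4)) (.n 0 (.l 4) (.l 4)))) (.n 0 (.n 0 (.l 4) (.l 4)) (.n 0 (.l 4) (.l 4)))) (.l 11)) (.n 0 (.n 0 (.n 2 (.l 4) (.l 4)) (.n 0 (.n 2 (.l 4) (.l 4)) (.n 2 (.l 4) (.l 4)))) (.n 1 (.n 0 (.n 0 (.l 4) (.l 4)) (.l 4)) (.l 11))))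
    [(246625075200, 7046430720), (236223201280, 47244640256), (137438953472, 137438953472), (794568949760, 4294967296)] rfl (by decide +kernel)
end
mutual
theorem c1_m87_t37 : CovD 0 progs [(246625075200, 7046430720), (236223201280, 47244640256), (137438953472, 137438953472), (803158884352, 4294967296)] :=
  Pool.Agent.helper14.QF.covD_F chks_eq (.n 1 (.n 0 (.n 0 (.n 0 (.n 2 (.l 4) (.l 4)) (.n 0 (.n 1 (.l 4) (.l 4)) (.n 2 (.l 4) (.l 4)))) (.n 0 (.n 3 (.n 0 (.l 4) (.l 4)) (.l 4)) (.n 2 (.l 4) (.l 4)))) (.n 0 (.n 0 (.n 0 (.l 4) (.l 4)) (.l 4)) (.n 0 (.l 4) (.l 4)))) (.l 11))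
    [(246625075200, 7046430720), (236223201280, 47244640256), (137438953472, 137438953472), (803158884352, 4294967296)] rfl (by decide +kernel)
theorem c1_m87_t39 : CovD 0 progs [(246625075200, 7046430720), (236223201280, 47244640256), (137438953472, 137438953472), (811748818944, 4294967296)] :=
  Pool.Agent.helper14.QF.covD_F chks_eq (.n 0 (.n 3 (.n 0 (.n 0 (.n 2 (.l 4) (.l 4)) (.n 1 (.l 4) (.l 11))) (.n 0 (.n 0 (.l 4) (.l 4)) (.l 4))) (.n 0 (.n 1 (.n 0 (.l 4) (.l 4)) (.l 11)) (.n 0 (.l 4) (.l 4)))) (.n 0 (.n 0 (.l 4) (.l 4)) (.l 4)))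
    [(246625075200, 7046430720), (236223201280, 47244640256), (137438953472, 137438953472), (811748818944, 4294967296)] rfl (by decide +kernel)
end
mutual
theorem c1_m87_t40 : CovD 0 progs [(246625075200, 7046430720), (236223201280, 47244640256), (137438953472, 137438953472), (820338753536, 4294967296)] :=
  Pool.Agent.helper14.QF.covD_F chks_eq (.n 3 (.n 0 (.n 1 (.n 0 (.n 0 (.l 4) (.l 4)) (.l 4)) (.l 11)) (.n 0 (.l 4) (.l 4))) (.n 0 (.n 0 (.n 2 (.l 4) (.l 4)) (.l 4)) (.n 0 (.l 4) (.l 4))))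
    [(246625075200, 7046430720), (236223201280, 47244640256), (137438953472, 137438953472), (820338753536, 4294967296)] rfl (by decide +kernel)
theorem c1_m87_t45 : CovD 0 progs [(239578644480, 14092861440), (330712481792, 47244640256), (137438953472, 137438953472), (790273982464, 34359738368)] :=
  Pool.Agent.helper14.QF.covD_F chks_eq (.l 11)
    [(239578644480, 14092861440), (330712481792, 47244640256), (137438953472, 137438953472), (790273982464, 34359738368)] rfl (by decide +kernel)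
end
theorem c1_m87_t2 : CovD 0 progs [(227247390720, 1761607680), (212600881152, 23622320128), (137438953472, 137438953472), (790273982464, 34359738368)] :=
  covD_split 0 (by decide +kernel) c1_m87_t0 c1_m87_t1
theorem c1_m87_t5 : CovD 0 progs [(230770606080, 1761607680), (212600881152, 23622320128), (137438953472, 137438953472), (790273982464, 34359738368)] :=
  covD_split 0 (by decide +kernel) c1_m87_t3 c1_m87_t4
theorem c1_m87_t6 : CovD 0 progs [(229008998400, 3523215360), (212600881152, 23622320128), (137438953472, 137438953472), (790273982464, 34359738368)] :=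
  covD_split 0 (by decide +kernel) c1_m87_t2 c1_m87_t5
theorem c1_m87_t9 : CovD 0 progs [(234293821440, 1761607680), (212600881152, 23622320128), (137438953472, 137438953472), (790273982464, 34359738368)] :=
  covD_split 0 (by decide +kernel) c1_m87_t7 c1_m87_t8
theorem c1_m87_t12 : CovD 0 progs [(236936232960, 880803840), (212600881152, 23622320128), (137438953472, 137438953472), (790273982464, 34359738368)] :=
  covD_split 0 (by decide +kernel) c1_m87_t10 c1_m87_t11
theorem c1_m87_t15 : CovD 0 progs [(238697840640, 880803840), (200789721088, 11811160064), (137438953472, 137438953472), (790273982464, 34359738368)] :=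
  covD_split 2 (by decide +kernel) c1_m87_t13 c1_m87_t14
theorem c1_m87_t18 : CovD 0 progs [(238697840640, 880803840), (224412041216, 11811160064), (137438953472, 137438953472), (790273982464, 34359738368)] :=
  covD_split 2 (by decide +kernel) c1_m87_t16 c1_m87_t17
theorem c1_m87_t19 : CovD 0 progs [(238697840640, 880803840), (212600881152, 23622320128), (137438953472, 137438953472), (790273982464, 34359738368)] :=
  covD_split 1 (by decide +kernel) c1_m87_t15 c1_m87_t18
theorem c1_m87_t20 : CovD 0 progs [(237817036800, 1761607680), (212600881152, 23622320128), (137438953472, 137438953472), (790273982464, 34359738368)] :=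
  covD_split 0 (by decide +kernel) c1_m87_t12 c1_m87_t19
theorem c1_m87_t21 : CovD 0 progs [(236055429120, 3523215360), (212600881152, 23622320128), (137438953472, 137438953472), (790273982464, 34359738368)] :=
  covD_split 0 (by decide +kernel) c1_m87_t9 c1_m87_t20
theorem c1_m87_t22 : CovD 0 progs [(232532213760, 7046430720), (212600881152, 23622320128), (137438953472, 137438953472), (790273982464, 34359738368)] :=
  covD_split 0 (by decide +kernel) c1_m87_t6 c1_m87_t21
theorem c1_m87_t24 : CovD 0 progs [(232532213760, 7046430720), (236223201280, 47244640256), (137438953472, 137438953472), (790273982464, 34359738368)] :=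
  covD_split 1 (by decide +kernel) c1_m87_t22 c1_m87_t23
theorem c1_m87_t27 : CovD 0 progs [(246625075200, 7046430720), (236223201280, 47244640256), (137438953472, 137438953472), (764504178688, 8589934592)] :=
  covD_split 3 (by decide +kernel) c1_m87_t25 c1_m87_t26
theorem c1_m87_t30 : CovD 0 progs [(246625075200, 7046430720), (236223201280, 47244640256), (137438953472, 137438953472), (777389080576, 4294967296)] :=
  covD_split 3 (by decide +kernel) c1_m87_t28 c1_m87_t29
theorem c1_m87_t33 : CovD 0 progs [(246625075200, 7046430720), (236223201280, 47244640256), (137438953472, 137438953472), (785979015168, 4294967296)] :=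
  covD_split 3 (by decide +kernel) c1_m87_t31 c1_m87_t32
theorem c1_m87_t34 : CovD 0 progs [(246625075200, 7046430720), (236223201280, 47244640256), (137438953472, 137438953472), (781684047872, 8589934592)] :=
  covD_split 3 (by decide +kernel) c1_m87_t30 c1_m87_t33
theorem c1_m87_t35 : CovD 0 progs [(246625075200, 7046430720), (236223201280, 47244640256), (137438953472, 137438953472), (773094113280, 17179869184)] :=
  covD_split 3 (by decide +kernel) c1_m87_t27 c1_m87_t34
theorem c1_m87_t38 : CovD 0 progs [(246625075200, 7046430720), (236223201280, 47244640256), (137438953472, 137438953472), (798863917056, 8589934592)] :=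
  covD_split 3 (by decide +kernel) c1_m87_t36 c1_m87_t37
theorem c1_m87_t41 : CovD 0 progs [(246625075200, 7046430720), (236223201280, 47244640256), (137438953472, 137438953472), (816043786240, 8589934592)] :=
  covD_split 3 (by decide +kernel) c1_m87_t39 c1_m87_t40
theorem c1_m87_t42 : CovD 0 progs [(246625075200, 7046430720), (236223201280, 47244640256), (137438953472, 137438953472), (807453851648, 17179869184)] :=
  covD_split 3 (by decide +kernel) c1_m87_t38 c1_m87_t41
theorem c1_m87_t43 : CovD 0 progs [(246625075200, 7046430720), (236223201280, 47244640256), (137438953472, 137438953472), (790273982464, 34359738368)] :=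
  covD_split 3 (by decide +kernel) c1_m87_t35 c1_m87_t42
theorem c1_m87_t44 : CovD 0 progs [(239578644480, 14092861440), (236223201280, 47244640256), (137438953472, 137438953472), (790273982464, 34359738368)] :=
  covD_split 0 (by decide +kernel) c1_m87_t24 c1_m87_t43
theorem c1_m87 : CovD 0 progs [(239578644480, 14092861440), (283467841536, 94489280512), (137438953472, 137438953472), (790273982464, 34359738368)] :=
  covD_split 1 (by decide +kernel) c1_m87_t44 c1_m87_t45

end Pool.Agent.helper71.FJ.Crt.QMa
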