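import Pool.Agent.helper71.FJ.Crt.QMaP

/-!
Generated certificates.
-/

namespace Pool.Agent.helper71.FJ.Crt.QMa

open Pool.Agent.helper31.IA (Z Op)
open Pool.Agent.helper31.IC

mutual
theorem c1_m88_t0 : CovD 0 progs [(227247390720, 1761607680), (212600881152, 23622320128), (309237645312, 34359738368), (790273982464, 34359738368)] :=
  Pool.Agent.helper14.QF.covD_F chks_eq (.n 0 (.n 3 (.n 3 (.l 4) (.l 4)) (.n 3 (.n 3 (.l 4) (.l 4)) (.n 3 (.l 4) (.n 0 (.l 4) (.l 4))))) (.n 0 (.n 3 (.n 3 (.l 4) (.l 4)) (.n 3 (.n 3 (.l 4) (.l 4)) (.n 3 (.l 4) (.l 4)))) (.n 3 (.n 3 (.l 4) (.l 4)) (.n 3 (.n 3 (.l 4) (.l 4)) (.n 3 (.l 4) (.l 4))))))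
    [(227247390720, 1761607680), (212600881152, 23622320128), (309237645312, 34359738368), (790273982464, 34359738368)] rfl (by decide +kernel)
theorem c1_m88_t1 : CovD 0 progs [(230770606080, 1761607680), (212600881152, 23622320128), (309237645312, 34359738368), (790273982464, 34359738368)] :=
  Pool.Agent.helper14.QF.covD_F chks_eq (.n 0 (.n 0 (.n 3 (.n 3 (.l 4) (.l 4)) (.n 3 (.n 3 (.l 4) (.l 4)) (.n 3 (.l 4) (.l 4)))) (.n 3 (.n 3 (.l 4) (.l 4)) (.n 3 (.n 3 (.l 4) (.l 4)) (.n 3 (.l 4) (.l 4))))) (.n 3 (.n 3 (.l 4) (.n 0 (.l 4) (.l 4))) (.n 3 (.n 3 (.l 4) (.n 0 (.l 4) (.l 4))) (.n 3 (.n 0 (.l 4) (.l 4)) (.l 4)))))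
    [(230770606080, 1761607680), (212600881152, 23622320128), (309237645312, 34359738368), (790273982464, 34359738368)] rfl (by decide +kernel)
end
mutual
theorem c1_m88_t3 : CovD 0 progs [(234293821440, 1761607680), (212600881152, 23622320128), (309237645312, 34359738368), (790273982464, 34359738368)] :=
  Pool.Agent.helper14.QF.covD_F chks_eq (.n 0 (.n 3 (.n 3 (.l 4) (.n 3 (.l 4) (.l 4))) (.n 3 (.n 3 (.l 4) (.n 0 (.l 4) (.l 4))) (.n 3 (.n 0 (.l 4) (.l 4)) (.l 4)))) (.n 0 (.n 3 (.n 3 (.l 4) (.n 3 (.l 4) (.l 4))) (.n 3 (.n 3 (.l 4) (.l 4)) (.n 0 (.l 4) (.l 4)))) (.n 3 (.n 3 (.l 4) (.n 3 (.l 4) (.l 4))) (.n 3 (.n 3 (.l 4) (.l 4)) (.n 3 (.l 4) (.l 4))))))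
    [(234293821440, 1761607680), (212600881152, 23622320128), (309237645312, 34359738368), (790273982464, 34359738368)] rfl (by decide +kernel)
theorem c1_m88_t4 : CovD 0 progs [(236936232960, 880803840), (212600881152, 23622320128), (309237645312, 34359738368), (790273982464, 34359738368)] :=
  Pool.Agent.helper14.QF.covD_F chks_eq (.n 1 (.n 3 (.n 3 (.n 0 (.l 4) (.l 4)) (.n 3 (.l 4) (.n 0 (.l 4) (.l 4)))) (.n 3 (.n 3 (.n 0 (.l 4) (.l 4)) (.l 4)) (.n 3 (.l 4) (.n 0 (.l 4) (.l 4))))) (.n 3 (.n 3 (.n 0 (.l 4) (.l 4)) (.n 3 (.l 4) (.l 4))) (.n 3 (.n 3 (.n 0 (.l 4) (.l 4)) (.l 4)) (.n 3 (.l 4) (.n 0 (.l 4) (.l 4))))))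
    [(236936232960, 880803840), (212600881152, 23622320128), (309237645312, 34359738368), (790273982464, 34359738368)] rfl (by decide +kernel)
end
mutual
theorem c1_m88_t5 : CovD 0 progs [(238697840640, 880803840), (212600881152, 23622320128), (309237645312, 34359738368), (790273982464, 34359738368)] :=
  Pool.Agent.helper14.QF.covD_F chks_eq (.n 1 (.n 3 (.n 3 (.n 3 (.l 4) (.l 4)) (.n 3 (.l 4) (.n 0 (.l 4) (.l 4)))) (.n 3 (.n 3 (.n 0 (.l 4) (.l 4)) (.l 4)) (.n 3 (.l 4) (.l 4)))) (.n 3 (.n 3 (.n 3 (.l 4) (.l 4)) (.n 3 (.l 4) (.n 0 (.l 4) (.l 4)))) (.n 3 (.n 3 (.n 0 (.l 4) (.l 4)) (.l 4)) (.n 3 (.l 4) (.l 4)))))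
    [(238697840640, 880803840), (212600881152, 23622320128), (309237645312, 34359738368), (790273982464, 34359738368)] rfl (by decide +kernel)
theorem c1_m88_t9 : CovD 0 progs [(232532213760, 7046430720), (259845521408, 23622320128), (309237645312, 34359738368), (790273982464, 34359738368)] :=
  Pool.Agent.helper14.QF.covD_F chks_eq (.l 11)
    [(232532213760, 7046430720), (259845521408, 23622320128), (309237645312, 34359738368), (790273982464, 34359738368)] rfl (by decide +kernel)
end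
mutual
theorem c1_m88_t11 : CovD 0 progs [(227247390720, 1761607680), (212600881152, 23622320128), (377957122048, 34359738368), (790273982464, 34359738368)] :=
  Pool.Agent.helper14.QF.covD_F chks_eq (.n 3 (.n 3 (.l 4) (.n 0 (.l 4) (.l 4))) (.n 3 (.n 3 (.l 4) (.n 0 (.l 4) (.l 4))) (.n 0 (.n 3 (.l 4) (.n 0 (.l 4) (.l 4))) (.n 3 (.n 0 (.l 4) (.l 4)) (.n 3 (.l 4) (.l 4))))))
    [(227247390720, 1761607680), (212600881152, 23622320128), (377957122048, 34359738368), (790273982464, 34359738368)] rfl (by decide +kernel)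
theorem c1_m88_t12 : CovD 0 progs [(230770606080, 1761607680), (212600881152, 23622320128), (377957122048, 34359738368), (790273982464, 34359738368)] :=
  Pool.Agent.helper14.QF.covD_F chks_eq (.n 0 (.n 0 (.n 3 (.n 3 (.l 4) (.l 4)) (.n 3 (.n 3 (.l 4) (.l 4)) (.n 3 (.l 4) (.l 4)))) (.n 3 (.n 3 (.l 4) (.l 4)) (.n 3 (.n 3 (.l 4) (.l 4)) (.n 3 (.l 4) (.l 4))))) (.n 3 (.n 3 (.l 4) (.n 0 (.l 4) (.l 4))) (.n 3 (.n 3 (.l 4) (.n 0 (.l 4) (.l 4))) (.n 3 (.n 0 (.l 4) (.l 4)) (.l 4)))))
    [(230770606080, 1761607680), (212600881152, 23622320128), (377957122048, 34359738368), (790273982464, 34359738368)] rfl (by decide +kernel)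
end
mutual
theorem c1_m88_t14 : CovD 0 progs [(234293821440, 1761607680), (200789721088, 11811160064), (377957122048, 34359738368), (790273982464, 34359738368)] :=
  Pool.Agent.helper14.QF.covD_F chks_eq (.n 0 (.n 3 (.n 3 (.l 4) (.n 3 (.l 4) (.l 4))) (.n 3 (.n 3 (.l 4) (.n 0 (.l 4) (.l 4))) (.n 3 (.n 0 (.l 4) (.l 4)) (.l 4)))) (.n 0 (.n 3 (.n 3 (.l 4) (.n 3 (.l 4) (.l 4))) (.n 3 (.n 3 (.l 4) (.l 4)) (.l 4))) (.n 3 (.n 3 (.l 4) (.n 3 (.l 4) (.l 4))) (.n 3 (.n 3 (.l 4) (.l 4)) (.n 3 (.l 4) (.l 4))))))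
    [(234293821440, 1761607680), (200789721088, 11811160064), (377957122048, 34359738368), (790273982464, 34359738368)] rfl (by decide +kernel)
theorem c1_m88_t15 : CovD 0 progs [(237817036800, 1761607680), (200789721088, 11811160064), (377957122048, 34359738368), (790273982464, 34359738368)] :=
  Pool.Agent.helper14.QF.covD_F chks_eq (.n 0 (.n 3 (.n 3 (.n 0 (.l 4) (.l 4)) (.n 3 (.l 4) (.l 4))) (.n 3 (.n 3 (.n 0 (.l 4) (.l 4)) (.l 4)) (.n 3 (.l 4) (.n 0 (.l 4) (.l 4))))) (.n 3 (.n 3 (.n 3 (.l 4) (.l 4)) (.n 3 (.l 4) (.n 0 (.l 4) (.l 4)))) (.n 3 (.n 3 (.n 0 (.l 4) (.l 4)) (.l 4)) (.n 3 (.l 4) (.l 4)))))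
    [(237817036800, 1761607680), (200789721088, 11811160064), (377957122048, 34359738368), (790273982464, 34359738368)] rfl (by decide +kernel)
end
mutual
theorem c1_m88_t17 : CovD 0 progs [(234293821440, 1761607680), (224412041216, 11811160064), (377957122048, 34359738368), (790273982464, 34359738368)] :=
  Pool.Agent.helper14.QF.covD_F chks_eq (.n 0 (.n 3 (.n 3 (.l 4) (.n 3 (.l 4) (.l 4))) (.n 3 (.n 3 (.l 4) (.n 0 (.l 4) (.l 4))) (.n 3 (.n 0 (.l 4) (.l 4)) (.l 4)))) (.n 0 (.n 3 (.n 3 (.l 4) (.n 3 (.l 4) (.l 4))) (.n 3 (.n 3 (.l 4) (.l 4)) (.l 4))) (.n 3 (.n 3 (.l 4) (.n 3 (.l 4) (.l 4))) (.n 3 (.n 3 (.l 4) (.l 4)) (.n 3 (.l 4) (.l 4))))))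
    [(234293821440, 1761607680), (224412041216, 11811160064), (377957122048, 34359738368), (790273982464, 34359738368)] rfl (by decide +kernel)
theorem c1_m88_t18 : CovD 0 progs [(237817036800, 1761607680), (224412041216, 11811160064), (377957122048, 34359738368), (790273982464, 34359738368)] :=
  Pool.Agent.helper14.QF.covD_F chks_eq (.n 0 (.n 3 (.n 3 (.n 0 (.l 4) (.l 4)) (.n 3 (.l 4) (.l 4))) (.n 3 (.n 3 (.n 0 (.l 4) (.l 4)) (.l 4)) (.n 3 (.l 4) (.l 4)))) (.n 3 (.n 3 (.n 3 (.l 4) (.l 4)) (.n 3 (.l 4) (.n 0 (.l 4) (.l 4)))) (.n 3 (.n 3 (.n 0 (.l 4) (.l 4)) (.l 4)) (.n 3 (.l 4) (.l 4)))))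
    [(237817036800, 1761607680), (224412041216, 11811160064), (377957122048, 34359738368), (790273982464, 34359738368)] rfl (by decide +kernel)
end
mutual
theorem c1_m88_t22 : CovD 0 progs [(232532213760, 7046430720), (259845521408, 23622320128), (377957122048, 34359738368), (790273982464, 34359738368)] :=
  Pool.Agent.helper14.QF.covD_F chks_eq (.l 11)
    [(232532213760, 7046430720), (259845521408, 23622320128), (377957122048, 34359738368), (790273982464, 34359738368)] rfl (by decide +kernel)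
theorem c1_m88_t25 : CovD 0 progs [(229008998400, 3523215360), (236223201280, 47244640256), (481036337152, 68719476736), (790273982464, 34359738368)] :=
  Pool.Agent.helper14.QF.covD_F chks_eq (.n 0 (.n 1 (.n 1 (.l 6) (.n 3 (.n 3 (.l 4) (.n 0 (.l 4) (.l 4))) (.l 6))) (.l 11)) (.n 1 (.n 2 (.n 3 (.n 3 (.n 0 (.l 4) (.l 4)) (.n 3 (.l 4) (.n 0 (.l 4) (.l 4)))) (.n 2 (.n 2 (.n 0 (.l 6) (.n 3 (.n 3 (.l 4) (.n 0 (.l 4) (.l 4))) (.l 6))) (.l 6)) (.l 6))) (.l 6)) (.l 11)))
    [(229008998400, 3523215360), (236223201280, 47244640256), (481036337152, 68719476736), (790273982464, 34359738368)] rfl (by decide +kernel)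
end
mutual
theorem c1_m88_t26 : CovD 0 progs [(236055429120, 3523215360), (212600881152, 23622320128), (481036337152, 68719476736), (773094113280, 17179869184)] :=
  Pool.Agent.helper14.QF.covD_F chks_eq (.n 0 (.n 0 (.n 3 (.l 4) (.n 3 (.l 4) (.l 4))) (.n 2 (.n 3 (.l 4) (.n 3 (.l 4) (.l 4))) (.l 6))) (.n 3 (.n 3 (.l 4) (.n 0 (.l 4) (.l 4))) (.n 0 (.n 3 (.l 4) (.n 0 (.l 4) (.l 4))) (.n 3 (.n 0 (.l 4) (.l 4)) (.n 3 (.l 4) (.n 0 (.l 4) (.l 4)))))))
    [(236055429120, 3523215360), (212600881152, 23622320128), (481036337152, 68719476736), (773094113280, 17179869184)] rfl (by decide +kernel)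
theorem c1_m88_t27 : CovD 0 progs [(234293821440, 1761607680), (212600881152, 23622320128), (481036337152, 68719476736), (807453851648, 17179869184)] :=
  Pool.Agent.helper14.QF.covD_F chks_eq (.n 2 (.n 3 (.n 0 (.n 3 (.l 4) (.n 0 (.l 4) (.l 4))) (.n 0 (.n 3 (.l 4) (.l 4)) (.n 3 (.l 4) (.l 4)))) (.n 0 (.n 3 (.n 0 (.l 4) (.l 4)) (.l 4)) (.n 3 (.l 4) (.l 4)))) (.l 6))
    [(234293821440, 1761607680), (212600881152, 23622320128), (481036337152, 68719476736), (807453851648, 17179869184)] rfl (by decide +kernel)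
end
mutual
theorem c1_m88_t28 : CovD 0 progs [(237817036800, 1761607680), (212600881152, 23622320128), (481036337152, 68719476736), (807453851648, 17179869184)] :=
  Pool.Agent.helper14.QF.covD_F chks_eq (.n 2 (.n 0 (.n 3 (.n 0 (.n 3 (.l 4) (.l 4)) (.n 3 (.l 4) (.l 4))) (.n 3 (.l 4) (.n 0 (.l 4) (.l 4)))) (.n 3 (.n 3 (.n 0 (.l 4) (.l 4)) (.l 4)) (.n 3 (.l 4) (.n 0 (.l 4) (.l 4))))) (.n 2 (.l 6) (.l 6)))
    [(237817036800, 1761607680), (212600881152, 23622320128), (481036337152, 68719476736), (807453851648, 17179869184)] rfl (by decide +kernel)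
theorem c1_m88_t31 : CovD 0 progs [(236055429120, 3523215360), (259845521408, 23622320128), (481036337152, 68719476736), (790273982464, 34359738368)] :=
  Pool.Agent.helper14.QF.covD_F chks_eq (.l 11)
    [(236055429120, 3523215360), (259845521408, 23622320128), (481036337152, 68719476736), (790273982464, 34359738368)] rfl (by decide +kernel)
end
theorem c1_m88_t2 : CovD 0 progs [(229008998400, 3523215360), (212600881152, 23622320128), (309237645312, 34359738368), (790273982464, 34359738368)] :=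
  covD_split 0 (by decide +kernel) c1_m88_t0 c1_m88_t1
theorem c1_m88_t6 : CovD 0 progs [(237817036800, 1761607680), (212600881152, 23622320128), (309237645312, 34359738368), (790273982464, 34359738368)] :=
  covD_split 0 (by decide +kernel) c1_m88_t4 c1_m88_t5
theorem c1_m88_t7 : CovD 0 progs [(236055429120, 3523215360), (212600881152, 23622320128), (309237645312, 34359738368), (790273982464, 34359738368)] :=
  covD_split 0 (by decide +kernel) c1_m88_t3 c1_m88_t6
theorem c1_m88_t8 : CovD 0 progs [(232532213760, 7046430720), (212600881152, 23622320128), (309237645312, 34359738368), (790273982464, 34359738368)] :=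
  covD_split 0 (by decide +kernel) c1_m88_t2 c1_m88_t7
theorem c1_m88_t10 : CovD 0 progs [(232532213760, 7046430720), (236223201280, 47244640256), (309237645312, 34359738368), (790273982464, 34359738368)] :=
  covD_split 1 (by decide +kernel) c1_m88_t8 c1_m88_t9
theorem c1_m88_t13 : CovD 0 progs [(229008998400, 3523215360), (212600881152, 23622320128), (377957122048, 34359738368), (790273982464, 34359738368)] :=
  covD_split 0 (by decide +kernel) c1_m88_t11 c1_m88_t12
theorem c1_m88_t16 : CovD 0 progs [(236055429120, 3523215360), (200789721088, 11811160064), (377957122048, 34359738368), (790273982464, 34359738368)] :=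
  covD_split 0 (by decide +kernel) c1_m88_t14 c1_m88_t15
theorem c1_m88_t19 : CovD 0 progs [(236055429120, 3523215360), (224412041216, 11811160064), (377957122048, 34359738368), (790273982464, 34359738368)] :=
  covD_split 0 (by decide +kernel) c1_m88_t17 c1_m88_t18
theorem c1_m88_t20 : CovD 0 progs [(236055429120, 3523215360), (212600881152, 23622320128), (377957122048, 34359738368), (790273982464, 34359738368)] :=
  covD_split 1 (by decide +kernel) c1_m88_t16 c1_m88_t19
theorem c1_m88_t21 : CovD 0 progs [(232532213760, 7046430720), (212600881152, 23622320128), (377957122048, 34359738368), (790273982464, 34359738368)] :=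
  covD_split 0 (by decide +kernel) c1_m88_t13 c1_m88_t20
theorem c1_m88_t23 : CovD 0 progs [(232532213760, 7046430720), (236223201280, 47244640256), (377957122048, 34359738368), (790273982464, 34359738368)] :=
  covD_split 1 (by decide +kernel) c1_m88_t21 c1_m88_t22
theorem c1_m88_t24 : CovD 0 progs [(232532213760, 7046430720), (236223201280, 47244640256), (343597383680, 68719476736), (790273982464, 34359738368)] :=
  covD_split 2 (by decide +kernel) c1_m88_t10 c1_m88_t23
theorem c1_m88_t29 : CovD 0 progs [(236055429120, 3523215360), (212600881152, 23622320128), (481036337152, 68719476736), (807453851648, 17179869184)] :=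
  covD_split 0 (by decide +kernel) c1_m88_t27 c1_m88_t28
theorem c1_m88_t30 : CovD 0 progs [(236055429120, 3523215360), (212600881152, 23622320128), (481036337152, 68719476736), (790273982464, 34359738368)] :=
  covD_split 3 (by decide +kernel) c1_m88_t26 c1_m88_t29
theorem c1_m88_t32 : CovD 0 progs [(236055429120, 3523215360), (236223201280, 47244640256), (481036337152, 68719476736), (790273982464, 34359738368)] :=
  covD_split 1 (by decide +kernel) c1_m88_t30 c1_m88_t31
theorem c1_m88_t33 : CovD 0 progs [(232532213760, 7046430720), (236223201280, 47244640256), (481036337152, 68719476736), (790273982464, 34359738368)] :=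
  covD_split 0 (by decide +kernel) c1_m88_t25 c1_m88_t32
theorem c1_m88 : CovD 0 progs [(232532213760, 7046430720), (236223201280, 47244640256), (412316860416, 137438953472), (790273982464, 34359738368)] :=
  covD_split 2 (by decide +kernel) c1_m88_t24 c1_m88_t33

end Pool.Agent.helper71.FJ.Crt.QMa
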