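import Pool.Agent.helper71.FJ.Crt.QMaP

/-!
Generated certificates.
-/

namespace Pool.Agent.helper71.FJ.Crt.QMa

open Pool.Agent.helper31.IA (Z Op)
open Pool.Agent.helper31.IC

mutual
theorem c1_m89_t0 : CovD 0 progs [(240459448320, 880803840), (200789721088, 11811160064), (309237645312, 34359738368), (790273982464, 34359738368)] :=
  Pool.Agent.helper14.QF.covD_F chks_eq (.n 0 (.n 3 (.n 3 (.n 3 (.l 4) (.l 4)) (.n 3 (.l 4) (.l 4))) (.n 3 (.n 0 (.l 4) (.l 4)) (.n 3 (.l 4) (.l 4)))) (.n 3 (.n 3 (.n 3 (.l 4) (.l 4)) (.n 3 (.l 4) (.l 4))) (.n 3 (.l 4) (.n 3 (.l 4) (.l 4)))))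
    [(240459448320, 880803840), (200789721088, 11811160064), (309237645312, 34359738368), (790273982464, 34359738368)] rfl (by decide +kernel)
theorem c1_m89_t1 : CovD 0 progs [(240459448320, 880803840), (200789721088, 11811160064), (377957122048, 34359738368), (790273982464, 34359738368)] :=
  Pool.Agent.helper14.QF.covD_F chks_eq (.n 3 (.n 0 (.n 3 (.n 3 (.l 4) (.l 4)) (.n 3 (.l 4) (.l 4))) (.n 3 (.n 3 (.l 4) (.l 4)) (.n 3 (.l 4) (.l 4)))) (.n 3 (.n 3 (.l 4) (.l 4)) (.n 3 (.l 4) (.l 4))))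
    [(240459448320, 880803840), (200789721088, 11811160064), (377957122048, 34359738368), (790273982464, 34359738368)] rfl (by decide +kernel)
end
mutual
theorem c1_m89_t3 : CovD 0 progs [(240459448320, 880803840), (224412041216, 11811160064), (343597383680, 68719476736), (790273982464, 34359738368)] :=
  Pool.Agent.helper14.QF.covD_F chks_eq (.n 2 (.n 3 (.n 0 (.n 3 (.n 3 (.l 4) (.l 4)) (.n 3 (.l 4) (.l 4))) (.n 3 (.n 3 (.l 4) (.l 4)) (.n 3 (.l 4) (.l 4)))) (.n 3 (.n 3 (.l 4) (.l 4)) (.n 3 (.l 4) (.l 4)))) (.n 3 (.n 0 (.n 3 (.n 3 (.l 4) (.l 4)) (.n 3 (.l 4) (.l 4))) (.n 3 (.n 3 (.l 4) (.l 4)) (.n 3 (.l 4) (.l 4)))) (.n 3 (.n 3 (.l 4) (.l 4)) (.n 3 (.l 4) (.l 4)))))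
    [(240459448320, 880803840), (224412041216, 11811160064), (343597383680, 68719476736), (790273982464, 34359738368)] rfl (by decide +kernel)
theorem c1_m89_t5 : CovD 0 progs [(242221056000, 880803840), (200789721088, 11811160064), (343597383680, 68719476736), (790273982464, 34359738368)] :=
  Pool.Agent.helper14.QF.covD_F chks_eq (.n 2 (.n 3 (.n 3 (.n 3 (.l 4) (.l 4)) (.n 3 (.n 0 (.l 4) (.l 4)) (.l 4))) (.n 3 (.n 3 (.l 4) (.l 4)) (.n 3 (.l 4) (.l 4)))) (.n 3 (.n 3 (.n 3 (.l 4) (.l 4)) (.n 3 (.n 0 (.l 4) (.l 4)) (.l 4))) (.n 3 (.n 3 (.l 4) (.l 4)) (.n 3 (.l 4) (.l 4)))))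
    [(242221056000, 880803840), (200789721088, 11811160064), (343597383680, 68719476736), (790273982464, 34359738368)] rfl (by decide +kernel)
end
mutual
theorem c1_m89_t6 : CovD 0 progs [(242221056000, 880803840), (224412041216, 11811160064), (343597383680, 68719476736), (790273982464, 34359738368)] :=
  Pool.Agent.helper14.QF.covD_F chks_eq (.n 2 (.n 3 (.n 3 (.n 3 (.l 4) (.l 4)) (.n 3 (.n 0 (.l 4) (.l 4)) (.l 4))) (.n 3 (.n 3 (.l 4) (.l 4)) (.n 3 (.l 4) (.l 4)))) (.n 3 (.n 3 (.n 3 (.l 4) (.l 4)) (.n 3 (.n 0 (.l 4) (.l 4)) (.l 4))) (.n 3 (.n 3 (.l 4) (.l 4)) (.n 3 (.l 4) (.l 4)))))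
    [(242221056000, 880803840), (224412041216, 11811160064), (343597383680, 68719476736), (790273982464, 34359738368)] rfl (by decide +kernel)
theorem c1_m89_t9 : CovD 0 progs [(243982663680, 880803840), (200789721088, 11811160064), (343597383680, 68719476736), (790273982464, 34359738368)] :=
  Pool.Agent.helper14.QF.covD_F chks_eq (.n 2 (.n 3 (.n 3 (.n 3 (.l 4) (.n 0 (.l 4) (.l 4))) (.n 3 (.n 0 (.l 4) (.l 4)) (.l 4))) (.n 3 (.n 3 (.l 4) (.l 4)) (.n 3 (.l 4) (.l 4)))) (.n 3 (.n 3 (.n 3 (.l 4) (.n 0 (.l 4) (.l 4))) (.n 3 (.n 0 (.l 4) (.l 4)) (.l 4))) (.n 3 (.n 3 (.l 4) (.l 4)) (.n 3 (.l 4) (.l 4)))))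
    [(243982663680, 880803840), (200789721088, 11811160064), (343597383680, 68719476736), (790273982464, 34359738368)] rfl (by decide +kernel)
end
mutual
theorem c1_m89_t10 : CovD 0 progs [(243982663680, 880803840), (224412041216, 11811160064), (343597383680, 68719476736), (790273982464, 34359738368)] :=
  Pool.Agent.helper14.QF.covD_F chks_eq (.n 2 (.n 3 (.n 3 (.n 3 (.l 4) (.n 0 (.l 4) (.l 4))) (.n 3 (.n 0 (.l 4) (.l 4)) (.l 4))) (.n 3 (.n 3 (.l 4) (.l 4)) (.n 3 (.l 4) (.l 4)))) (.n 3 (.n 3 (.n 3 (.l 4) (.n 0 (.l 4) (.l 4))) (.n 3 (.n 0 (.l 4) (.l 4)) (.l 4))) (.n 3 (.n 3 (.l 4) (.l 4)) (.n 3 (.l 4) (.l 4)))))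
    [(243982663680, 880803840), (224412041216, 11811160064), (343597383680, 68719476736), (790273982464, 34359738368)] rfl (by decide +kernel)
theorem c1_m89_t12 : CovD 0 progs [(245744271360, 880803840), (200789721088, 11811160064), (343597383680, 68719476736), (790273982464, 34359738368)] :=
  Pool.Agent.helper14.QF.covD_F chks_eq (.n 2 (.n 3 (.n 3 (.n 3 (.l 4) (.n 0 (.l 4) (.l 4))) (.n 3 (.l 4) (.l 4))) (.n 3 (.n 3 (.l 4) (.l 4)) (.n 3 (.l 4) (.l 4)))) (.n 3 (.n 3 (.n 3 (.l 4) (.n 0 (.l 4) (.l 4))) (.n 3 (.l 4) (.l 4))) (.n 3 (.n 3 (.l 4) (.l 4)) (.n 3 (.l 4) (.l 4)))))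
    [(245744271360, 880803840), (200789721088, 11811160064), (343597383680, 68719476736), (790273982464, 34359738368)] rfl (by decide +kernel)
end
mutual
theorem c1_m89_t13 : CovD 0 progs [(245744271360, 880803840), (224412041216, 11811160064), (343597383680, 68719476736), (790273982464, 34359738368)] :=
  Pool.Agent.helper14.QF.covD_F chks_eq (.n 2 (.n 3 (.n 3 (.n 3 (.l 4) (.n 0 (.l 4) (.l 4))) (.n 3 (.l 4) (.l 4))) (.n 3 (.n 3 (.l 4) (.l 4)) (.n 3 (.l 4) (.l 4)))) (.n 3 (.n 3 (.n 3 (.l 4) (.n 0 (.l 4) (.l 4))) (.n 3 (.l 4) (.l 4))) (.n 3 (.n 3 (.l 4) (.l 4)) (.n 3 (.l 4) (.l 4)))))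
    [(245744271360, 880803840), (224412041216, 11811160064), (343597383680, 68719476736), (790273982464, 34359738368)] rfl (by decide +kernel)
theorem c1_m89_t17 : CovD 0 progs [(243101859840, 3523215360), (259845521408, 23622320128), (343597383680, 68719476736), (790273982464, 34359738368)] :=
  Pool.Agent.helper14.QF.covD_F chks_eq (.l 11)
    [(243101859840, 3523215360), (259845521408, 23622320128), (343597383680, 68719476736), (790273982464, 34359738368)] rfl (by decide +kernel)
end
mutual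
theorem c1_m89_t19 : CovD 0 progs [(243101859840, 3523215360), (236223201280, 47244640256), (446676598784, 34359738368), (773094113280, 17179869184)] :=
  Pool.Agent.helper14.QF.covD_F chks_eq (.n 1 (.n 0 (.n 0 (.n 3 (.n 3 (.l 4) (.l 4)) (.n 0 (.n 3 (.l 4) (.l 4)) (.n 3 (.l 4) (.l 4)))) (.n 3 (.n 3 (.l 4) (.l 4)) (.n 0 (.n 3 (.l 4) (.l 4)) (.n 3 (.l 4) (.l 4))))) (.n 0 (.n 3 (.n 3 (.l 4) (.n 0 (.l 4) (.l 4))) (.n 3 (.n 0 (.l 4) (.l 4)) (.l 4))) (.n 3 (.n 3 (.l 4) (.n 0 (.l 4) (.l 4))) (.n 3 (.l 4) (.l 4))))) (.l 11))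
    [(243101859840, 3523215360), (236223201280, 47244640256), (446676598784, 34359738368), (773094113280, 17179869184)] rfl (by decide +kernel)
theorem c1_m89_t20 : CovD 0 progs [(243101859840, 3523215360), (236223201280, 47244640256), (515396075520, 34359738368), (773094113280, 17179869184)] :=
  Pool.Agent.helper14.QF.covD_F chks_eq (.n 0 (.n 1 (.n 3 (.n 0 (.n 3 (.l 4) (.l 4)) (.n 3 (.l 4) (.l 4))) (.n 0 (.n 0 (.n 3 (.l 4) (.l 4)) (.n 3 (.l 4) (.l 4))) (.n 0 (.n 3 (.l 4) (.l 4)) (.n 3 (.l 4) (.l 4))))) (.l 11)) (.n 1 (.n 3 (.n 0 (.n 3 (.l 4) (.n 0 (.l 4) (.l 4))) (.n 3 (.l 4) (.n 0 (.l 4) (.l 4)))) (.n 3 (.n 0 (.n 0 (.l 4) (.l 4)) (.l 4)) (.l 4))) (.l 11)))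
    [(243101859840, 3523215360), (236223201280, 47244640256), (515396075520, 34359738368), (773094113280, 17179869184)] rfl (by decide +kernel)
end
mutual
theorem c1_m89_t22 : CovD 0 progs [(243101859840, 3523215360), (212600881152, 23622320128), (481036337152, 68719476736), (798863917056, 8589934592)] :=
  Pool.Agent.helper14.QF.covD_F chks_eq (.n 3 (.n 0 (.n 0 (.n 2 (.l 4) (.l 4)) (.l 4)) (.n 0 (.n 2 (.l 4) (.l 4)) (.n 2 (.l 4) (.l 4)))) (.n 0 (.n 0 (.n 1 (.l 4) (.l 4)) (.n 2 (.l 4) (.l 4))) (.n 0 (.n 2 (.l 4) (.l 4)) (.n 0 (.l 4) (.l 4)))))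
    [(243101859840, 3523215360), (212600881152, 23622320128), (481036337152, 68719476736), (798863917056, 8589934592)] rfl (by decide +kernel)
theorem c1_m89_t23 : CovD 0 progs [(243101859840, 3523215360), (212600881152, 23622320128), (481036337152, 68719476736), (816043786240, 8589934592)] :=
  Pool.Agent.helper14.QF.covD_F chks_eq (.n 0 (.n 0 (.n 3 (.n 3 (.l 4) (.l 4)) (.n 0 (.l 4) (.l 4))) (.n 3 (.n 0 (.l 4) (.l 4)) (.l 4))) (.n 0 (.n 3 (.n 0 (.l 4) (.l 4)) (.l 4)) (.n 3 (.l 4) (.l 4))))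
    [(243101859840, 3523215360), (212600881152, 23622320128), (481036337152, 68719476736), (816043786240, 8589934592)] rfl (by decide +kernel)
end
mutual
theorem c1_m89_t25 : CovD 0 progs [(243101859840, 3523215360), (259845521408, 23622320128), (481036337152, 68719476736), (807453851648, 17179869184)] :=
  Pool.Agent.helper14.QF.covD_F chks_eq (.l 11)
    [(243101859840, 3523215360), (259845521408, 23622320128), (481036337152, 68719476736), (807453851648, 17179869184)] rfl (by decide +kernel)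
theorem c1_m89_t29 : CovD 0 progs [(247505879040, 880803840), (200789721088, 11811160064), (343597383680, 68719476736), (790273982464, 34359738368)] :=
  Pool.Agent.helper14.QF.covD_F chks_eq (.n 2 (.n 3 (.n 3 (.n 3 (.n 0 (.l 4) (.l 4)) (.l 4)) (.n 3 (.l 4) (.l 4))) (.n 3 (.n 3 (.l 4) (.l 4)) (.n 3 (.l 4) (.l 4)))) (.n 3 (.n 3 (.n 3 (.n 0 (.l 4) (.l 4)) (.l 4)) (.n 3 (.l 4) (.l 4))) (.n 3 (.n 3 (.l 4) (.l 4)) (.n 3 (.l 4) (.l 4)))))
    [(247505879040, 880803840), (200789721088, 11811160064), (343597383680, 68719476736), (790273982464, 34359738368)] rfl (by decide +kernel)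
end
mutual
theorem c1_m89_t30 : CovD 0 progs [(247505879040, 880803840), (224412041216, 11811160064), (343597383680, 68719476736), (790273982464, 34359738368)] :=
  Pool.Agent.helper14.QF.covD_F chks_eq (.n 2 (.n 3 (.n 3 (.n 3 (.n 0 (.l 4) (.l 4)) (.l 4)) (.n 3 (.l 4) (.l 4))) (.n 3 (.n 3 (.l 4) (.l 4)) (.n 3 (.l 4) (.l 4)))) (.n 3 (.n 3 (.n 3 (.n 0 (.l 4) (.l 4)) (.l 4)) (.n 3 (.l 4) (.l 4))) (.n 3 (.n 3 (.l 4) (.l 4)) (.n 3 (.l 4) (.l 4)))))
    [(247505879040, 880803840), (224412041216, 11811160064), (343597383680, 68719476736), (790273982464, 34359738368)] rfl (by decide +kernel)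
theorem c1_m89_t32 : CovD 0 progs [(247505879040, 880803840), (212600881152, 23622320128), (446676598784, 34359738368), (790273982464, 34359738368)] :=
  Pool.Agent.helper14.QF.covD_F chks_eq (.n 1 (.n 3 (.n 3 (.n 3 (.l 4) (.l 4)) (.n 3 (.l 4) (.l 4))) (.n 3 (.n 3 (.l 4) (.l 4)) (.n 0 (.l 4) (.l 4)))) (.n 3 (.n 3 (.n 3 (.l 4) (.l 4)) (.n 3 (.l 4) (.l 4))) (.n 3 (.n 3 (.l 4) (.l 4)) (.n 0 (.l 4) (.l 4)))))
    [(247505879040, 880803840), (212600881152, 23622320128), (446676598784, 34359738368), (790273982464, 34359738368)] rfl (by decide +kernel)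
end
mutual
theorem c1_m89_t33 : CovD 0 progs [(247505879040, 880803840), (212600881152, 23622320128), (515396075520, 34359738368), (790273982464, 34359738368)] :=
  Pool.Agent.helper14.QF.covD_F chks_eq (.n 3 (.n 3 (.n 3 (.n 0 (.l 4) (.l 4)) (.l 4)) (.n 3 (.l 4) (.l 4))) (.n 3 (.n 3 (.l 4) (.l 4)) (.n 3 (.l 4) (.l 4))))
    [(247505879040, 880803840), (212600881152, 23622320128), (515396075520, 34359738368), (790273982464, 34359738368)] rfl (by decide +kernel)
theorem c1_m89_t36 : CovD 0 progs [(247505879040, 880803840), (259845521408, 23622320128), (412316860416, 137438953472), (790273982464, 34359738368)] :=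
  Pool.Agent.helper14.QF.covD_F chks_eq (.l 11)
    [(247505879040, 880803840), (259845521408, 23622320128), (412316860416, 137438953472), (790273982464, 34359738368)] rfl (by decide +kernel)
end
mutual
theorem c1_m89_t38 : CovD 0 progs [(249267486720, 880803840), (200789721088, 11811160064), (343597383680, 68719476736), (790273982464, 34359738368)] :=
  Pool.Agent.helper14.QF.covD_F chks_eq (.n 2 (.n 3 (.n 3 (.n 3 (.l 4) (.l 4)) (.n 3 (.l 4) (.l 4))) (.n 3 (.n 3 (.l 4) (.l 4)) (.n 0 (.l 4) (.l 4)))) (.n 3 (.n 3 (.n 3 (.l 4) (.l 4)) (.n 3 (.l 4) (.l 4))) (.n 3 (.n 3 (.l 4) (.l 4)) (.l 4))))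
    [(249267486720, 880803840), (200789721088, 11811160064), (343597383680, 68719476736), (790273982464, 34359738368)] rfl (by decide +kernel)
theorem c1_m89_t39 : CovD 0 progs [(249267486720, 880803840), (224412041216, 11811160064), (343597383680, 68719476736), (790273982464, 34359738368)] :=
  Pool.Agent.helper14.QF.covD_F chks_eq (.n 2 (.n 3 (.n 3 (.n 3 (.l 4) (.l 4)) (.n 3 (.l 4) (.l 4))) (.n 3 (.n 3 (.l 4) (.l 4)) (.n 0 (.l 4) (.l 4)))) (.n 3 (.n 3 (.n 3 (.l 4) (.l 4)) (.n 3 (.l 4) (.l 4))) (.n 3 (.n 3 (.l 4) (.l 4)) (.l 4))))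
    [(249267486720, 880803840), (224412041216, 11811160064), (343597383680, 68719476736), (790273982464, 34359738368)] rfl (by decide +kernel)
end
mutual
theorem c1_m89_t41 : CovD 0 progs [(249267486720, 880803840), (212600881152, 23622320128), (481036337152, 68719476736), (790273982464, 34359738368)] :=
  Pool.Agent.helper14.QF.covD_F chks_eq (.n 2 (.n 1 (.n 3 (.n 3 (.n 3 (.l 4) (.l 4)) (.n 3 (.l 4) (.l 4))) (.n 3 (.n 3 (.l 4) (.l 4)) (.l 4))) (.n 3 (.n 3 (.n 3 (.l 4) (.l 4)) (.n 3 (.l 4) (.l 4))) (.n 3 (.n 3 (.l 4) (.l 4)) (.l 4)))) (.n 3 (.n 3 (.n 3 (.n 0 (.l 4) (.l 4)) (.l 4)) (.n 3 (.l 4) (.l 4))) (.n 3 (.n 3 (.l 4) (.l 4)) (.n 0 (.l 4) (.l 4)))))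
    [(249267486720, 880803840), (212600881152, 23622320128), (481036337152, 68719476736), (790273982464, 34359738368)] rfl (by decide +kernel)
theorem c1_m89_t43 : CovD 0 progs [(249267486720, 880803840), (259845521408, 23622320128), (412316860416, 137438953472), (790273982464, 34359738368)] :=
  Pool.Agent.helper14.QF.covD_F chks_eq (.l 11)
    [(249267486720, 880803840), (259845521408, 23622320128), (412316860416, 137438953472), (790273982464, 34359738368)] rfl (by decide +kernel)
end
mutual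
theorem c1_m89_t46 : CovD 0 progs [(251029094400, 880803840), (236223201280, 47244640256), (412316860416, 137438953472), (790273982464, 34359738368)] :=
  Pool.Agent.helper14.QF.covD_F chks_eq (.n 1 (.n 2 (.n 3 (.n 3 (.n 3 (.n 0 (.l 4) (.l 4)) (.l 4)) (.n 3 (.n 0 (.l 4) (.l 4)) (.l 4))) (.n 3 (.n 3 (.l 4) (.l 4)) (.l 4))) (.n 3 (.n 3 (.n 3 (.n 2 (.l 4) (.l 4)) (.l 4)) (.n 2 (.n 3 (.l 4) (.l 4)) (.n 3 (.l 4) (.l 4)))) (.n 3 (.n 3 (.l 4) (.l 4)) (.l 4)))) (.l 11))
    [(251029094400, 880803840), (236223201280, 47244640256), (412316860416, 137438953472), (790273982464, 34359738368)] rfl (by decide +kernel)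
theorem c1_m89_t47 : CovD 0 progs [(252790702080, 880803840), (236223201280, 47244640256), (412316860416, 137438953472), (790273982464, 34359738368)] :=
  Pool.Agent.helper14.QF.covD_F chks_eq (.n 3 (.n 3 (.n 1 (.n 2 (.n 3 (.l 4) (.n 0 (.l 4) (.l 4))) (.n 3 (.l 4) (.n 0 (.l 4) (.l 4)))) (.l 11)) (.n 1 (.n 2 (.n 3 (.n 0 (.l 4) (.l 4)) (.l 4)) (.n 3 (.n 0 (.l 4) (.l 4)) (.l 4))) (.l 11))) (.n 1 (.n 3 (.n 3 (.n 0 (.l 4) (.l 4)) (.l 4)) (.l 4)) (.l 11)))
    [(252790702080, 880803840), (236223201280, 47244640256), (412316860416, 137438953472), (790273982464, 34359738368)] rfl (by decide +kernel)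
end
theorem c1_m89_t2 : CovD 0 progs [(240459448320, 880803840), (200789721088, 11811160064), (343597383680, 68719476736), (790273982464, 34359738368)] :=
  covD_split 2 (by decide +kernel) c1_m89_t0 c1_m89_t1
theorem c1_m89_t4 : CovD 0 progs [(240459448320, 880803840), (212600881152, 23622320128), (343597383680, 68719476736), (790273982464, 34359738368)] :=
  covD_split 1 (by decide +kernel) c1_m89_t2 c1_m89_t3
theorem c1_m89_t7 : CovD 0 progs [(242221056000, 880803840), (212600881152, 23622320128), (343597383680, 68719476736), (790273982464, 34359738368)] :=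
  covD_split 1 (by decide +kernel) c1_m89_t5 c1_m89_t6
theorem c1_m89_t8 : CovD 0 progs [(241340252160, 1761607680), (212600881152, 23622320128), (343597383680, 68719476736), (790273982464, 34359738368)] :=
  covD_split 0 (by decide +kernel) c1_m89_t4 c1_m89_t7
theorem c1_m89_t11 : CovD 0 progs [(243982663680, 880803840), (212600881152, 23622320128), (343597383680, 68719476736), (790273982464, 34359738368)] :=
  covD_split 1 (by decide +kernel) c1_m89_t9 c1_m89_t10
theorem c1_m89_t14 : CovD 0 progs [(245744271360, 880803840), (212600881152, 23622320128), (343597383680, 68719476736), (790273982464, 34359738368)] :=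
  covD_split 1 (by decide +kernel) c1_m89_t12 c1_m89_t13
theorem c1_m89_t15 : CovD 0 progs [(244863467520, 1761607680), (212600881152, 23622320128), (343597383680, 68719476736), (790273982464, 34359738368)] :=
  covD_split 0 (by decide +kernel) c1_m89_t11 c1_m89_t14
theorem c1_m89_t16 : CovD 0 progs [(243101859840, 3523215360), (212600881152, 23622320128), (343597383680, 68719476736), (790273982464, 34359738368)] :=
  covD_split 0 (by decide +kernel) c1_m89_t8 c1_m89_t15
theorem c1_m89_t18 : CovD 0 progs [(243101859840, 3523215360), (236223201280, 47244640256), (343597383680, 68719476736), (790273982464, 34359738368)] :=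
  covD_split 1 (by decide +kernel) c1_m89_t16 c1_m89_t17
theorem c1_m89_t21 : CovD 0 progs [(243101859840, 3523215360), (236223201280, 47244640256), (481036337152, 68719476736), (773094113280, 17179869184)] :=
  covD_split 2 (by decide +kernel) c1_m89_t19 c1_m89_t20
theorem c1_m89_t24 : CovD 0 progs [(243101859840, 3523215360), (212600881152, 23622320128), (481036337152, 68719476736), (807453851648, 17179869184)] :=
  covD_split 3 (by decide +kernel) c1_m89_t22 c1_m89_t23
theorem c1_m89_t26 : CovD 0 progs [(243101859840, 3523215360), (236223201280, 47244640256), (481036337152, 68719476736), (807453851648, 17179869184)] :=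
  covD_split 1 (by decide +kernel) c1_m89_t24 c1_m89_t25
theorem c1_m89_t27 : CovD 0 progs [(243101859840, 3523215360), (236223201280, 47244640256), (481036337152, 68719476736), (790273982464, 34359738368)] :=
  covD_split 3 (by decide +kernel) c1_m89_t21 c1_m89_t26
theorem c1_m89_t28 : CovD 0 progs [(243101859840, 3523215360), (236223201280, 47244640256), (412316860416, 137438953472), (790273982464, 34359738368)] :=
  covD_split 2 (by decide +kernel) c1_m89_t18 c1_m89_t27
theorem c1_m89_t31 : CovD 0 progs [(247505879040, 880803840), (212600881152, 23622320128), (343597383680, 68719476736), (790273982464, 34359738368)] :=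
  covD_split 1 (by decide +kernel) c1_m89_t29 c1_m89_t30
theorem c1_m89_t34 : CovD 0 progs [(247505879040, 880803840), (212600881152, 23622320128), (481036337152, 68719476736), (790273982464, 34359738368)] :=
  covD_split 2 (by decide +kernel) c1_m89_t32 c1_m89_t33
theorem c1_m89_t35 : CovD 0 progs [(247505879040, 880803840), (212600881152, 23622320128), (412316860416, 137438953472), (790273982464, 34359738368)] :=
  covD_split 2 (by decide +kernel) c1_m89_t31 c1_m89_t34
theorem c1_m89_t37 : CovD 0 progs [(247505879040, 880803840), (236223201280, 47244640256), (412316860416, 137438953472), (790273982464, 34359738368)] :=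
  covD_split 1 (by decide +kernel) c1_m89_t35 c1_m89_t36
theorem c1_m89_t40 : CovD 0 progs [(249267486720, 880803840), (212600881152, 23622320128), (343597383680, 68719476736), (790273982464, 34359738368)] :=
  covD_split 1 (by decide +kernel) c1_m89_t38 c1_m89_t39
theorem c1_m89_t42 : CovD 0 progs [(249267486720, 880803840), (212600881152, 23622320128), (412316860416, 137438953472), (790273982464, 34359738368)] :=
  covD_split 2 (by decide +kernel) c1_m89_t40 c1_m89_t41
theorem c1_m89_t44 : CovD 0 progs [(249267486720, 880803840), (236223201280, 47244640256), (412316860416, 137438953472), (790273982464, 34359738368)] :=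
  covD_split 1 (by decide +kernel) c1_m89_t42 c1_m89_t43
theorem c1_m89_t45 : CovD 0 progs [(248386682880, 1761607680), (236223201280, 47244640256), (412316860416, 137438953472), (790273982464, 34359738368)] :=
  covD_split 0 (by decide +kernel) c1_m89_t37 c1_m89_t44
theorem c1_m89_t48 : CovD 0 progs [(251909898240, 1761607680), (236223201280, 47244640256), (412316860416, 137438953472), (790273982464, 34359738368)] :=
  covD_split 0 (by decide +kernel) c1_m89_t46 c1_m89_t47
theorem c1_m89_t49 : CovD 0 progs [(250148290560, 3523215360), (236223201280, 47244640256), (412316860416, 137438953472), (790273982464, 34359738368)] :=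
  covD_split 0 (by decide +kernel) c1_m89_t45 c1_m89_t48
theorem c1_m89 : CovD 0 progs [(246625075200, 7046430720), (236223201280, 47244640256), (412316860416, 137438953472), (790273982464, 34359738368)] :=
  covD_split 0 (by decide +kernel) c1_m89_t28 c1_m89_t49

end Pool.Agent.helper71.FJ.Crt.QMa
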