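import Pool.Agent.helper71.FJ.Crt.QMaP

/-!
Generated certificates.
-/

namespace Pool.Agent.helper71.FJ.Crt.QMa

open Pool.Agent.helper31.IA (Z Op)
open Pool.Agent.helper31.IC

mutual
theorem c1_m9_t0 : CovD 0 progs [(345275105280, 7046430720), (94489280512, 94489280512), (137438953472, 137438953472), (34359738368, 34359738368)] :=
  Pool.Agent.helper14.QF.covD_F chks_eq (.n 0 (.n 0 (.n 0 (.n 1 (.l 4) (.l 4)) (.n 2 (.l 4) (.l 4))) (.n 0 (.n 2 (.l 4) (.l 4)) (.n 2 (.l 4) (.l 4)))) (.n 0 (.n 0 (.n 2 (.l 4) (.l 4)) (.n 2 (.l 4) (.l 4))) (.n 2 (.l 4) (.n 0 (.l 4) (.l 4)))))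
    [(345275105280, 7046430720), (94489280512, 94489280512), (137438953472, 137438953472), (34359738368, 34359738368)] rfl (by decide +kernel)
theorem c1_m9_t1 : CovD 0 progs [(345275105280, 7046430720), (47244640256, 47244640256), (412316860416, 137438953472), (34359738368, 34359738368)] :=
  Pool.Agent.helper14.QF.covD_F chks_eq (.n 0 (.n 0 (.n 2 (.l 4) (.l 4)) (.n 0 (.n 1 (.l 4) (.l 4)) (.n 1 (.l 4) (.l 4)))) (.n 0 (.n 2 (.l 4) (.n 0 (.l 4) (.l 4))) (.n 2 (.l 4) (.l 4))))
    [(345275105280, 7046430720), (47244640256, 47244640256), (412316860416, 137438953472), (34359738368, 34359738368)] rfl (by decide +kernel)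
end
mutual
theorem c1_m9_t2 : CovD 0 progs [(345275105280, 7046430720), (141733920768, 47244640256), (412316860416, 137438953472), (34359738368, 34359738368)] :=
  Pool.Agent.helper14.QF.covD_F chks_eq (.n 2 (.n 0 (.n 0 (.l 4) (.n 0 (.l 4) (.l 4))) (.n 0 (.n 0 (.l 4) (.l 4)) (.l 4))) (.n 0 (.n 0 (.n 0 (.l 4) (.l 4)) (.n 0 (.l 4) (.n 0 (.l 4) (.l 4)))) (.n 0 (.n 1 (.l 4) (.l 4)) (.n 0 (.l 4) (.l 4)))))
    [(345275105280, 7046430720), (141733920768, 47244640256), (412316860416, 137438953472), (34359738368, 34359738368)] rfl (by decide +kernel)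
theorem c1_m9_t5 : CovD 0 progs [(355844751360, 3523215360), (94489280512, 94489280512), (274877906944, 274877906944), (34359738368, 34359738368)] :=
  Pool.Agent.helper14.QF.covD_F chks_eq (.n 0 (.n 1 (.n 2 (.n 1 (.l 4) (.l 4)) (.n 2 (.l 4) (.l 4))) (.n 2 (.n 2 (.l 4) (.l 4)) (.n 2 (.l 4) (.n 0 (.l 4) (.l 4))))) (.n 2 (.n 2 (.l 4) (.l 4)) (.n 1 (.n 1 (.l 4) (.l 4)) (.n 2 (.l 4) (.n 0 (.l 4) (.l 4))))))
    [(355844751360, 3523215360), (94489280512, 94489280512), (274877906944, 274877906944), (34359738368, 34359738368)] rfl (by decide +kernel)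
end
mutual
theorem c1_m9_t6 : CovD 0 progs [(362891182080, 3523215360), (94489280512, 94489280512), (274877906944, 274877906944), (34359738368, 34359738368)] :=
  Pool.Agent.helper14.QF.covD_F chks_eq (.n 0 (.n 2 (.n 1 (.l 4) (.l 8)) (.n 2 (.l 4) (.n 1 (.l 4) (.l 4)))) (.n 1 (.n 2 (.l 4) (.l 4)) (.n 2 (.l 8) (.l 8))))
    [(362891182080, 3523215360), (94489280512, 94489280512), (274877906944, 274877906944), (34359738368, 34359738368)] rfl (by decide +kernel)
theorem c1_m9_t9 : CovD 0 progs [(380507258880, 14092861440), (94489280512, 94489280512), (274877906944, 274877906944), (34359738368, 34359738368)] :=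
  Pool.Agent.helper14.QF.covD_F chks_eq (.n 2 (.n 0 (.n 0 (.n 0 (.l 8) (.l 8)) (.l 8)) (.l 8)) (.n 0 (.n 0 (.n 2 (.l 8) (.l 4)) (.l 8)) (.n 0 (.l 8) (.l 8))))
    [(380507258880, 14092861440), (94489280512, 94489280512), (274877906944, 274877906944), (34359738368, 34359738368)] rfl (by decide +kernel)
end
mutual
theorem c1_m9_t11 : CovD 0 progs [(366414397440, 28185722880), (94489280512, 94489280512), (68719476736, 68719476736), (103079215104, 34359738368)] :=
  Pool.Agent.helper14.QF.covD_F chks_eq (.n 0 (.n 0 (.n 0 (.n 0 (.n 0 (.l 4) (.n 0 (.l 4) (.l 4))) (.n 0 (.n 0 (.l 4) (.l 4)) (.n 0 (.l 4) (.l 4)))) (.n 0 (.n 1 (.l 4) (.l 4)) (.n 0 (.l 4) (.l 4)))) (.n 0 (.n 0 (.n 0 (.l 4) (.l 4)) (.n 0 (.l 8) (.l 8))) (.n 0 (.l 8) (.l 8)))) (.n 0 (.n 0 (.l 8) (.l 8)) (.l 8)))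
    [(366414397440, 28185722880), (94489280512, 94489280512), (68719476736, 68719476736), (103079215104, 34359738368)] rfl (by decide +kernel)
theorem c1_m9_t12 : CovD 0 progs [(366414397440, 28185722880), (94489280512, 94489280512), (206158430208, 68719476736), (103079215104, 34359738368)] :=
  Pool.Agent.helper14.QF.covD_F chks_eq (.n 0 (.n 0 (.n 0 (.n 0 (.n 0 (.l 4) (.n 0 (.l 4) (.l 4))) (.n 0 (.n 0 (.l 4) (.l 4)) (.n 1 (.l 4) (.l 4)))) (.n 0 (.n 1 (.l 4) (.l 4)) (.n 1 (.l 4) (.l 4)))) (.n 0 (.n 0 (.n 2 (.l 4) (.l 4)) (.n 0 (.l 4) (.l 8))) (.n 0 (.l 8) (.l 8)))) (.n 0 (.n 0 (.l 8) (.l 8)) (.l 8)))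
    [(366414397440, 28185722880), (94489280512, 94489280512), (206158430208, 68719476736), (103079215104, 34359738368)] rfl (by decide +kernel)
end
mutual
theorem c1_m9_t14 : CovD 0 progs [(352321536000, 14092861440), (94489280512, 94489280512), (343597383680, 68719476736), (103079215104, 34359738368)] :=
  Pool.Agent.helper14.QF.covD_F chks_eq (.n 0 (.n 0 (.n 0 (.n 0 (.n 0 (.l 4) (.l 4)) (.n 1 (.l 4) (.l 4))) (.n 0 (.n 1 (.l 4) (.l 4)) (.n 1 (.l 4) (.l 4)))) (.n 0 (.n 1 (.l 4) (.n 0 (.l 4) (.l 4))) (.n 1 (.l 4) (.n 0 (.l 4) (.l 4))))) (.n 0 (.n 0 (.n 0 (.n 1 (.l 4) (.l 4)) (.n 1 (.l 4) (.l 4))) (.n 0 (.n 0 (.l 4) (.l 4)) (.l 4))) (.n 0 (.n 0 (.l 4) (.l 4)) (.l 8))))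
    [(352321536000, 14092861440), (94489280512, 94489280512), (343597383680, 68719476736), (103079215104, 34359738368)] rfl (by decide +kernel)
theorem c1_m9_t15 : CovD 0 progs [(380507258880, 14092861440), (94489280512, 94489280512), (343597383680, 68719476736), (103079215104, 34359738368)] :=
  Pool.Agent.helper14.QF.covD_F chks_eq (.n 0 (.n 0 (.l 8) (.l 8)) (.l 8))
    [(380507258880, 14092861440), (94489280512, 94489280512), (343597383680, 68719476736), (103079215104, 34359738368)] rfl (by decide +kernel)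
end
mutual
theorem c1_m9_t17 : CovD 0 progs [(345275105280, 7046430720), (94489280512, 94489280512), (481036337152, 68719476736), (103079215104, 34359738368)] :=
  Pool.Agent.helper14.QF.covD_F chks_eq (.n 0 (.n 0 (.n 0 (.n 1 (.l 4) (.n 0 (.l 4) (.l 4))) (.n 1 (.l 4) (.n 0 (.l 4) (.l 4)))) (.n 0 (.n 1 (.l 4) (.n 1 (.l 4) (.l 4))) (.n 1 (.l 4) (.n 1 (.l 4) (.l 4))))) (.n 0 (.n 1 (.n 0 (.l 4) (.l 4)) (.n 1 (.l 4) (.n 0 (.l 4) (.l 4)))) (.n 1 (.n 0 (.l 4) (.l 4)) (.n 1 (.l 4) (.n 0 (.l 4) (.l 4))))))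
    [(345275105280, 7046430720), (94489280512, 94489280512), (481036337152, 68719476736), (103079215104, 34359738368)] rfl (by decide +kernel)
theorem c1_m9_t18 : CovD 0 progs [(359367966720, 7046430720), (94489280512, 94489280512), (481036337152, 68719476736), (103079215104, 34359738368)] :=
  Pool.Agent.helper14.QF.covD_F chks_eq (.n 0 (.n 0 (.n 0 (.n 1 (.l 4) (.n 1 (.l 4) (.l 4))) (.n 1 (.l 4) (.n 0 (.l 4) (.l 4)))) (.n 0 (.n 1 (.l 4) (.l 4)) (.n 1 (.l 4) (.l 4)))) (.n 0 (.n 1 (.l 4) (.l 4)) (.l 4)))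
    [(359367966720, 7046430720), (94489280512, 94489280512), (481036337152, 68719476736), (103079215104, 34359738368)] rfl (by decide +kernel)
end
mutual
theorem c1_m9_t20 : CovD 0 progs [(380507258880, 14092861440), (94489280512, 94489280512), (481036337152, 68719476736), (103079215104, 34359738368)] :=
  Pool.Agent.helper14.QF.covD_F chks_eq (.n 0 (.n 0 (.n 0 (.l 4) (.l 8)) (.l 8)) (.l 8))
    [(380507258880, 14092861440), (94489280512, 94489280512), (481036337152, 68719476736), (103079215104, 34359738368)] rfl (by decide +kernel)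
theorem c1_m9_t25 : CovD 0 progs [(352321536000, 14092861440), (94489280512, 94489280512), (68719476736, 68719476736), (171798691840, 34359738368)] :=
  Pool.Agent.helper14.QF.covD_F chks_eq (.n 0 (.n 0 (.n 0 (.n 0 (.n 3 (.l 4) (.l 4)) (.n 2 (.l 4) (.l 4))) (.n 0 (.n 2 (.l 4) (.l 4)) (.n 1 (.l 4) (.l 4)))) (.n 0 (.n 2 (.l 4) (.l 4)) (.n 0 (.n 1 (.l 4) (.l 4)) (.n 1 (.l 4) (.l 4))))) (.n 0 (.n 0 (.n 3 (.l 8) (.l 8)) (.n 0 (.l 8) (.l 8))) (.n 0 (.l 8) (.l 8))))
    [(352321536000, 14092861440), (94489280512, 94489280512), (68719476736, 68719476736), (171798691840, 34359738368)] rfl (by decide +kernel)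
end
mutual
theorem c1_m9_t26 : CovD 0 progs [(345275105280, 7046430720), (94489280512, 94489280512), (206158430208, 68719476736), (171798691840, 34359738368)] :=
  Pool.Agent.helper14.QF.covD_F chks_eq (.n 0 (.n 0 (.n 0 (.n 3 (.l 4) (.n 0 (.l 4) (.l 4))) (.n 0 (.n 1 (.l 4) (.l 4)) (.n 1 (.l 4) (.l 4)))) (.n 0 (.n 2 (.l 4) (.l 4)) (.n 1 (.l 4) (.l 4)))) (.n 0 (.n 2 (.l 4) (.n 0 (.l 4) (.l 4))) (.n 0 (.n 1 (.l 4) (.l 4)) (.n 1 (.l 4) (.l 4)))))
    [(345275105280, 7046430720), (94489280512, 94489280512), (206158430208, 68719476736), (171798691840, 34359738368)] rfl (by decide +kernel)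
theorem c1_m9_t27 : CovD 0 progs [(359367966720, 7046430720), (94489280512, 94489280512), (206158430208, 68719476736), (171798691840, 34359738368)] :=
  Pool.Agent.helper14.QF.covD_F chks_eq (.n 0 (.n 0 (.n 0 (.n 1 (.l 4) (.l 4)) (.n 0 (.l 8) (.l 8))) (.n 0 (.l 8) (.l 8))) (.n 0 (.l 8) (.l 8)))
    [(359367966720, 7046430720), (94489280512, 94489280512), (206158430208, 68719476736), (171798691840, 34359738368)] rfl (by decide +kernel)
end
mutual
theorem c1_m9_t30 : CovD 0 progs [(380507258880, 14092861440), (94489280512, 94489280512), (137438953472, 137438953472), (171798691840, 34359738368)] :=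
  Pool.Agent.helper14.QF.covD_F chks_eq (.n 0 (.n 0 (.n 0 (.l 8) (.l 8)) (.l 8)) (.l 8))
    [(380507258880, 14092861440), (94489280512, 94489280512), (137438953472, 137438953472), (171798691840, 34359738368)] rfl (by decide +kernel)
theorem c1_m9_t32 : CovD 0 progs [(341751889920, 3523215360), (94489280512, 94489280512), (412316860416, 137438953472), (154618822656, 17179869184)] :=
  Pool.Agent.helper14.QF.covD_F chks_eq (.n 2 (.n 0 (.n 0 (.n 1 (.l 4) (.l 4)) (.n 1 (.l 4) (.l 4))) (.n 1 (.l 4) (.n 0 (.l 4) (.l 4)))) (.n 0 (.n 0 (.n 1 (.l 4) (.l 4)) (.n 1 (.l 4) (.n 0 (.l 4) (.l 4)))) (.n 1 (.n 0 (.l 4) (.l 4)) (.n 1 (.l 4) (.n 0 (.l 4) (.l 4))))))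
    [(341751889920, 3523215360), (94489280512, 94489280512), (412316860416, 137438953472), (154618822656, 17179869184)] rfl (by decide +kernel)
end
mutual
theorem c1_m9_t33 : CovD 0 progs [(348798320640, 3523215360), (94489280512, 94489280512), (412316860416, 137438953472), (154618822656, 17179869184)] :=
  Pool.Agent.helper14.QF.covD_F chks_eq (.n 0 (.n 1 (.n 2 (.l 4) (.l 4)) (.n 2 (.l 4) (.n 1 (.l 4) (.l 4)))) (.n 1 (.n 2 (.l 4) (.n 0 (.l 4) (.l 4))) (.n 1 (.n 2 (.l 4) (.l 4)) (.n 2 (.l 4) (.l 4)))))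
    [(348798320640, 3523215360), (94489280512, 94489280512), (412316860416, 137438953472), (154618822656, 17179869184)] rfl (by decide +kernel)
theorem c1_m9_t35 : CovD 0 progs [(359367966720, 7046430720), (94489280512, 94489280512), (412316860416, 137438953472), (154618822656, 17179869184)] :=
  Pool.Agent.helper14.QF.covD_F chks_eq (.n 0 (.n 0 (.n 1 (.n 2 (.l 4) (.l 4)) (.n 2 (.l 4) (.n 0 (.l 4) (.l 4)))) (.n 2 (.l 4) (.n 1 (.l 4) (.l 4)))) (.n 0 (.n 2 (.l 8) (.l 4)) (.n 1 (.l 4) (.l 8))))
    [(359367966720, 7046430720), (94489280512, 94489280512), (412316860416, 137438953472), (154618822656, 17179869184)] rfl (by decide +kernel)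
end
mutual
theorem c1_m9_t37 : CovD 0 progs [(380507258880, 14092861440), (94489280512, 94489280512), (412316860416, 137438953472), (154618822656, 17179869184)] :=
  Pool.Agent.helper14.QF.covD_F chks_eq (.n 0 (.n 0 (.n 0 (.l 8) (.l 8)) (.l 8)) (.l 8))
    [(380507258880, 14092861440), (94489280512, 94489280512), (412316860416, 137438953472), (154618822656, 17179869184)] rfl (by decide +kernel)
theorem c1_m9_t39 : CovD 0 progs [(352321536000, 14092861440), (47244640256, 47244640256), (412316860416, 137438953472), (188978561024, 17179869184)] :=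
  Pool.Agent.helper14.QF.covD_F chks_eq (.n 0 (.n 0 (.n 0 (.n 0 (.n 2 (.l 4) (.l 4)) (.n 2 (.l 4) (.l 4))) (.n 2 (.l 4) (.n 0 (.l 4) (.l 4)))) (.n 0 (.n 2 (.l 4) (.n 0 (.l 4) (.l 4))) (.n 2 (.l 4) (.n 0 (.l 4) (.l 4))))) (.n 0 (.n 0 (.n 2 (.l 4) (.l 4)) (.n 0 (.l 4) (.l 4))) (.n 0 (.l 4) (.l 4))))
    [(352321536000, 14092861440), (47244640256, 47244640256), (412316860416, 137438953472), (188978561024, 17179869184)] rfl (by decide +kernel)
end
mutual
theorem c1_m9_t40 : CovD 0 progs [(345275105280, 7046430720), (141733920768, 47244640256), (412316860416, 137438953472), (188978561024, 17179869184)] :=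
  Pool.Agent.helper14.QF.covD_F chks_eq (.n 2 (.n 0 (.n 0 (.n 0 (.l 4) (.l 4)) (.n 0 (.l 4) (.l 4))) (.n 0 (.n 0 (.l 4) (.l 4)) (.n 0 (.l 4) (.l 4)))) (.n 0 (.n 0 (.n 0 (.n 0 (.l 4) (.l 4)) (.n 1 (.l 4) (.l 4))) (.n 1 (.l 4) (.l 4))) (.n 0 (.n 1 (.l 4) (.l 4)) (.n 2 (.l 4) (.l 4)))))
    [(345275105280, 7046430720), (141733920768, 47244640256), (412316860416, 137438953472), (188978561024, 17179869184)] rfl (by decide +kernel)
theorem c1_m9_t41 : CovD 0 progs [(359367966720, 7046430720), (141733920768, 47244640256), (412316860416, 137438953472), (188978561024, 17179869184)] :=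
  Pool.Agent.helper14.QF.covD_F chks_eq (.n 0 (.n 0 (.n 2 (.l 4) (.n 0 (.l 4) (.l 4))) (.n 1 (.l 4) (.l 8))) (.n 0 (.l 8) (.l 8)))
    [(359367966720, 7046430720), (141733920768, 47244640256), (412316860416, 137438953472), (188978561024, 17179869184)] rfl (by decide +kernel)
end
mutual
theorem c1_m9_t44 : CovD 0 progs [(380507258880, 14092861440), (94489280512, 94489280512), (412316860416, 137438953472), (188978561024, 17179869184)] :=
  Pool.Agent.helper14.QF.covD_F chks_eq (.n 0 (.n 0 (.n 0 (.l 8) (.l 8)) (.l 8)) (.l 8))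
    [(380507258880, 14092861440), (94489280512, 94489280512), (412316860416, 137438953472), (188978561024, 17179869184)] rfl (by decide +kernel)
theorem c1_m9_t48 : CovD 0 progs [(352321536000, 14092861440), (94489280512, 94489280512), (137438953472, 137438953472), (223338299392, 17179869184)] :=
  Pool.Agent.helper14.QF.covD_F chks_eq (.n 2 (.n 0 (.n 2 (.n 0 (.n 0 (.l 4) (.l 4)) (.n 0 (.l 4) (.l 4))) (.n 0 (.n 0 (.l 4) (.l 4)) (.n 0 (.l 4) (.l 4)))) (.n 0 (.n 0 (.l 8) (.l 8)) (.l 8))) (.n 0 (.n 0 (.n 0 (.n 2 (.l 4) (.n 0 (.l 4) (.l 4))) (.n 0 (.l 4) (.l 4))) (.n 0 (.n 2 (.l 4) (.l 4)) (.n 0 (.l 4) (.l 8)))) (.n 0 (.n 0 (.l 8) (.l 8)) (.l 8))))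
    [(352321536000, 14092861440), (94489280512, 94489280512), (137438953472, 137438953472), (223338299392, 17179869184)] rfl (by decide +kernel)
end
mutual
theorem c1_m9_t49 : CovD 0 progs [(380507258880, 14092861440), (94489280512, 94489280512), (137438953472, 137438953472), (223338299392, 17179869184)] :=
  Pool.Agent.helper14.QF.covD_F chks_eq (.n 0 (.n 0 (.l 8) (.l 8)) (.l 8))
    [(380507258880, 14092861440), (94489280512, 94489280512), (137438953472, 137438953472), (223338299392, 17179869184)] rfl (by decide +kernel)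
theorem c1_m9_t51 : CovD 0 progs [(352321536000, 14092861440), (94489280512, 94489280512), (137438953472, 137438953472), (257698037760, 17179869184)] :=
  Pool.Agent.helper14.QF.covD_F chks_eq (.n 2 (.n 0 (.n 2 (.n 0 (.n 0 (.l 4) (.l 4)) (.n 0 (.l 4) (.l 8))) (.n 0 (.n 0 (.l 4) (.l 4)) (.n 0 (.l 4) (.l 8)))) (.n 0 (.n 0 (.l 8) (.l 8)) (.l 8))) (.n 0 (.n 0 (.n 0 (.n 1 (.l 4) (.l 4)) (.n 2 (.l 4) (.l 4))) (.n 0 (.n 0 (.n 0 (.l 4) (.l 4)) (.l 4)) (.n 0 (.l 8) (.l 8)))) (.n 0 (.n 0 (.l 8) (.l 8)) (.l 8))))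
    [(352321536000, 14092861440), (94489280512, 94489280512), (137438953472, 137438953472), (257698037760, 17179869184)] rfl (by decide +kernel)
end
mutual
theorem c1_m9_t52 : CovD 0 progs [(380507258880, 14092861440), (94489280512, 94489280512), (137438953472, 137438953472), (257698037760, 17179869184)] :=
  Pool.Agent.helper14.QF.covD_F chks_eq (.n 0 (.n 0 (.l 8) (.l 8)) (.l 8))
    [(380507258880, 14092861440), (94489280512, 94489280512), (137438953472, 137438953472), (257698037760, 17179869184)] rfl (by decide +kernel)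
theorem c1_m9_t55 : CovD 0 progs [(352321536000, 14092861440), (94489280512, 94489280512), (343597383680, 68719476736), (223338299392, 17179869184)] :=
  Pool.Agent.helper14.QF.covD_F chks_eq (.n 0 (.n 0 (.n 0 (.n 0 (.n 1 (.l 4) (.l 4)) (.n 1 (.l 4) (.l 4))) (.n 1 (.l 4) (.l 4))) (.n 0 (.n 0 (.n 1 (.l 4) (.l 4)) (.n 1 (.l 4) (.l 4))) (.n 1 (.l 4) (.n 0 (.l 4) (.l 4))))) (.n 0 (.n 0 (.n 0 (.l 4) (.l 4)) (.l 8)) (.l 8)))
    [(352321536000, 14092861440), (94489280512, 94489280512), (343597383680, 68719476736), (223338299392, 17179869184)] rfl (by decide +kernel)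
end
mutual
theorem c1_m9_t56 : CovD 0 progs [(352321536000, 14092861440), (94489280512, 94489280512), (481036337152, 68719476736), (223338299392, 17179869184)] :=
  Pool.Agent.helper14.QF.covD_F chks_eq (.n 0 (.n 0 (.n 0 (.n 0 (.n 1 (.l 4) (.n 1 (.l 4) (.l 4))) (.n 1 (.l 4) (.n 1 (.l 4) (.l 4)))) (.n 1 (.l 4) (.n 1 (.l 4) (.l 4)))) (.n 0 (.n 1 (.n 0 (.l 4) (.l 4)) (.n 2 (.l 4) (.n 0 (.l 4) (.l 4)))) (.n 0 (.n 1 (.l 4) (.l 4)) (.n 1 (.l 4) (.l 4))))) (.n 0 (.n 0 (.n 1 (.l 4) (.l 4)) (.n 0 (.l 4) (.l 4))) (.n 0 (.l 4) (.l 8))))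
    [(352321536000, 14092861440), (94489280512, 94489280512), (481036337152, 68719476736), (223338299392, 17179869184)] rfl (by decide +kernel)
theorem c1_m9_t58 : CovD 0 progs [(380507258880, 14092861440), (94489280512, 94489280512), (412316860416, 137438953472), (223338299392, 17179869184)] :=
  Pool.Agent.helper14.QF.covD_F chks_eq (.n 0 (.n 0 (.n 0 (.l 8) (.l 8)) (.l 8)) (.l 8))
    [(380507258880, 14092861440), (94489280512, 94489280512), (412316860416, 137438953472), (223338299392, 17179869184)] rfl (by decide +kernel)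
end
mutual
theorem c1_m9_t60 : CovD 0 progs [(352321536000, 14092861440), (94489280512, 94489280512), (343597383680, 68719476736), (257698037760, 17179869184)] :=
  Pool.Agent.helper14.QF.covD_F chks_eq (.n 0 (.n 0 (.n 0 (.n 1 (.l 4) (.l 4)) (.n 0 (.n 1 (.l 4) (.l 4)) (.n 1 (.l 4) (.l 4)))) (.n 0 (.n 0 (.n 1 (.l 4) (.l 4)) (.n 1 (.l 4) (.l 4))) (.n 1 (.l 4) (.l 4)))) (.n 0 (.n 0 (.l 8) (.l 8)) (.l 8)))
    [(352321536000, 14092861440), (94489280512, 94489280512), (343597383680, 68719476736), (257698037760, 17179869184)] rfl (by decide +kernel)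
theorem c1_m9_t61 : CovD 0 progs [(352321536000, 14092861440), (94489280512, 94489280512), (481036337152, 68719476736), (257698037760, 17179869184)] :=
  Pool.Agent.helper14.QF.covD_F chks_eq (.n 0 (.n 0 (.n 0 (.n 1 (.l 4) (.n 1 (.l 4) (.l 4))) (.n 0 (.n 1 (.l 4) (.n 1 (.l 4) (.l 4))) (.n 1 (.l 4) (.n 1 (.l 4) (.l 4))))) (.n 0 (.n 0 (.n 1 (.l 4) (.n 0 (.l 4) (.l 4))) (.n 1 (.l 4) (.n 0 (.l 4) (.l 4)))) (.n 1 (.l 4) (.n 0 (.l 4) (.l 4))))) (.n 0 (.n 0 (.n 1 (.l 4) (.l 4)) (.l 4)) (.l 8)))
    [(352321536000, 14092861440), (94489280512, 94489280512), (481036337152, 68719476736), (257698037760, 17179869184)] rfl (by decide +kernel)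
theorem c1_m9_t63 : CovD 0 progs [(380507258880, 14092861440), (94489280512, 94489280512), (412316860416, 137438953472), (257698037760, 17179869184)] :=
  Pool.Agent.helper14.QF.covD_F chks_eq (.n 0 (.n 0 (.l 8) (.l 8)) (.l 8))
    [(380507258880, 14092861440), (94489280512, 94489280512), (412316860416, 137438953472), (257698037760, 17179869184)] rfl (by decide +kernel)
end
theorem c1_m9_t3 : CovD 0 progs [(345275105280, 7046430720), (94489280512, 94489280512), (412316860416, 137438953472), (34359738368, 34359738368)] :=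
  covD_split 1 (by decide +kernel) c1_m9_t1 c1_m9_t2
theorem c1_m9_t4 : CovD 0 progs [(345275105280, 7046430720), (94489280512, 94489280512), (274877906944, 274877906944), (34359738368, 34359738368)] :=
  covD_split 2 (by decide +kernel) c1_m9_t0 c1_m9_t3
theorem c1_m9_t7 : CovD 0 progs [(359367966720, 7046430720), (94489280512, 94489280512), (274877906944, 274877906944), (34359738368, 34359738368)] :=
  covD_split 0 (by decide +kernel) c1_m9_t5 c1_m9_t6
theorem c1_m9_t8 : CovD 0 progs [(352321536000, 14092861440), (94489280512, 94489280512), (274877906944, 274877906944), (34359738368, 34359738368)] :=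
  covD_split 0 (by decide +kernel) c1_m9_t4 c1_m9_t7
theorem c1_m9_t10 : CovD 0 progs [(366414397440, 28185722880), (94489280512, 94489280512), (274877906944, 274877906944), (34359738368, 34359738368)] :=
  covD_split 0 (by decide +kernel) c1_m9_t8 c1_m9_t9
theorem c1_m9_t13 : CovD 0 progs [(366414397440, 28185722880), (94489280512, 94489280512), (137438953472, 137438953472), (103079215104, 34359738368)] :=
  covD_split 2 (by decide +kernel) c1_m9_t11 c1_m9_t12
theorem c1_m9_t16 : CovD 0 progs [(366414397440, 28185722880), (94489280512, 94489280512), (343597383680, 68719476736), (103079215104, 34359738368)] :=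
  covD_split 0 (by decide +kernel) c1_m9_t14 c1_m9_t15
theorem c1_m9_t19 : CovD 0 progs [(352321536000, 14092861440), (94489280512, 94489280512), (481036337152, 68719476736), (103079215104, 34359738368)] :=
  covD_split 0 (by decide +kernel) c1_m9_t17 c1_m9_t18
theorem c1_m9_t21 : CovD 0 progs [(366414397440, 28185722880), (94489280512, 94489280512), (481036337152, 68719476736), (103079215104, 34359738368)] :=
  covD_split 0 (by decide +kernel) c1_m9_t19 c1_m9_t20
theorem c1_m9_t22 : CovD 0 progs [(366414397440, 28185722880), (94489280512, 94489280512), (412316860416, 137438953472), (103079215104, 34359738368)] :=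
  covD_split 2 (by decide +kernel) c1_m9_t16 c1_m9_t21
theorem c1_m9_t23 : CovD 0 progs [(366414397440, 28185722880), (94489280512, 94489280512), (274877906944, 274877906944), (103079215104, 34359738368)] :=
  covD_split 2 (by decide +kernel) c1_m9_t13 c1_m9_t22
theorem c1_m9_t24 : CovD 0 progs [(366414397440, 28185722880), (94489280512, 94489280512), (274877906944, 274877906944), (68719476736, 68719476736)] :=
  covD_split 3 (by decide +kernel) c1_m9_t10 c1_m9_t23
theorem c1_m9_t28 : CovD 0 progs [(352321536000, 14092861440), (94489280512, 94489280512), (206158430208, 68719476736), (171798691840, 34359738368)] :=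
  covD_split 0 (by decide +kernel) c1_m9_t26 c1_m9_t27
theorem c1_m9_t29 : CovD 0 progs [(352321536000, 14092861440), (94489280512, 94489280512), (137438953472, 137438953472), (171798691840, 34359738368)] :=
  covD_split 2 (by decide +kernel) c1_m9_t25 c1_m9_t28
theorem c1_m9_t31 : CovD 0 progs [(366414397440, 28185722880), (94489280512, 94489280512), (137438953472, 137438953472), (171798691840, 34359738368)] :=
  covD_split 0 (by decide +kernel) c1_m9_t29 c1_m9_t30
theorem c1_m9_t34 : CovD 0 progs [(345275105280, 7046430720), (94489280512, 94489280512), (412316860416, 137438953472), (154618822656, 17179869184)] :=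
  covD_split 0 (by decide +kernel) c1_m9_t32 c1_m9_t33
theorem c1_m9_t36 : CovD 0 progs [(352321536000, 14092861440), (94489280512, 94489280512), (412316860416, 137438953472), (154618822656, 17179869184)] :=
  covD_split 0 (by decide +kernel) c1_m9_t34 c1_m9_t35
theorem c1_m9_t38 : CovD 0 progs [(366414397440, 28185722880), (94489280512, 94489280512), (412316860416, 137438953472), (154618822656, 17179869184)] :=
  covD_split 0 (by decide +kernel) c1_m9_t36 c1_m9_t37
theorem c1_m9_t42 : CovD 0 progs [(352321536000, 14092861440), (141733920768, 47244640256), (412316860416, 137438953472), (188978561024, 17179869184)] :=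
  covD_split 0 (by decide +kernel) c1_m9_t40 c1_m9_t41
theorem c1_m9_t43 : CovD 0 progs [(352321536000, 14092861440), (94489280512, 94489280512), (412316860416, 137438953472), (188978561024, 17179869184)] :=
  covD_split 1 (by decide +kernel) c1_m9_t39 c1_m9_t42
theorem c1_m9_t45 : CovD 0 progs [(366414397440, 28185722880), (94489280512, 94489280512), (412316860416, 137438953472), (188978561024, 17179869184)] :=
  covD_split 0 (by decide +kernel) c1_m9_t43 c1_m9_t44
theorem c1_m9_t46 : CovD 0 progs [(366414397440, 28185722880), (94489280512, 94489280512), (412316860416, 137438953472), (171798691840, 34359738368)] :=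
  covD_split 3 (by decide +kernel) c1_m9_t38 c1_m9_t45
theorem c1_m9_t47 : CovD 0 progs [(366414397440, 28185722880), (94489280512, 94489280512), (274877906944, 274877906944), (171798691840, 34359738368)] :=
  covD_split 2 (by decide +kernel) c1_m9_t31 c1_m9_t46
theorem c1_m9_t50 : CovD 0 progs [(366414397440, 28185722880), (94489280512, 94489280512), (137438953472, 137438953472), (223338299392, 17179869184)] :=
  covD_split 0 (by decide +kernel) c1_m9_t48 c1_m9_t49
theorem c1_m9_t53 : CovD 0 progs [(366414397440, 28185722880), (94489280512, 94489280512), (137438953472, 137438953472), (257698037760, 17179869184)] :=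
  covD_split 0 (by decide +kernel) c1_m9_t51 c1_m9_t52
theorem c1_m9_t54 : CovD 0 progs [(366414397440, 28185722880), (94489280512, 94489280512), (137438953472, 137438953472), (240518168576, 34359738368)] :=
  covD_split 3 (by decide +kernel) c1_m9_t50 c1_m9_t53
theorem c1_m9_t57 : CovD 0 progs [(352321536000, 14092861440), (94489280512, 94489280512), (412316860416, 137438953472), (223338299392, 17179869184)] :=
  covD_split 2 (by decide +kernel) c1_m9_t55 c1_m9_t56
theorem c1_m9_t59 : CovD 0 progs [(366414397440, 28185722880), (94489280512, 94489280512), (412316860416, 137438953472), (223338299392, 17179869184)] :=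
  covD_split 0 (by decide +kernel) c1_m9_t57 c1_m9_t58
theorem c1_m9_t62 : CovD 0 progs [(352321536000, 14092861440), (94489280512, 94489280512), (412316860416, 137438953472), (257698037760, 17179869184)] :=
  covD_split 2 (by decide +kernel) c1_m9_t60 c1_m9_t61
theorem c1_m9_t64 : CovD 0 progs [(366414397440, 28185722880), (94489280512, 94489280512), (412316860416, 137438953472), (257698037760, 17179869184)] :=
  covD_split 0 (by decide +kernel) c1_m9_t62 c1_m9_t63
theorem c1_m9_t65 : CovD 0 progs [(366414397440, 28185722880), (94489280512, 94489280512), (412316860416, 137438953472), (240518168576, 34359738368)] :=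
  covD_split 3 (by decide +kernel) c1_m9_t59 c1_m9_t64
theorem c1_m9_t66 : CovD 0 progs [(366414397440, 28185722880), (94489280512, 94489280512), (274877906944, 274877906944), (240518168576, 34359738368)] :=
  covD_split 2 (by decide +kernel) c1_m9_t54 c1_m9_t65
theorem c1_m9_t67 : CovD 0 progs [(366414397440, 28185722880), (94489280512, 94489280512), (274877906944, 274877906944), (206158430208, 68719476736)] :=
  covD_split 3 (by decide +kernel) c1_m9_t47 c1_m9_t66
theorem c1_m9 : CovD 0 progs [(366414397440, 28185722880), (94489280512, 94489280512), (274877906944, 274877906944), (137438953472, 137438953472)] :=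
  covD_split 3 (by decide +kernel) c1_m9_t24 c1_m9_t67

end Pool.Agent.helper71.FJ.Crt.QMa
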