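import Pool.Agent.helper71.FJ.Crt.QMaP

/-!
Generated certificates.
-/

namespace Pool.Agent.helper71.FJ.Crt.QMa

open Pool.Agent.helper31.IA (Z Op)
open Pool.Agent.helper31.IC

theorem c1_m90 : CovD 0 progs [(239578644480, 14092861440), (330712481792, 47244640256), (412316860416, 137438953472), (790273982464, 34359738368)] :=
  Pool.Agent.helper14.QF.covD_F chks_eq (.l 11)
    [(239578644480, 14092861440), (330712481792, 47244640256), (412316860416, 137438953472), (790273982464, 34359738368)] rfl (by decide +kernel)

end Pool.Agent.helper71.FJ.Crt.QMa
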