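import Pool.Agent.helper71.FJ.Crt.QMaP

/-!
Generated certificates.
-/

namespace Pool.Agent.helper71.FJ.Crt.QMa

open Pool.Agent.helper31.IA (Z Op)
open Pool.Agent.helper31.IC

mutual
theorem c1_m91_t0 : CovD 0 progs [(257194721280, 3523215360), (212600881152, 23622320128), (137438953472, 137438953472), (704374636544, 17179869184)] :=
  Pool.Agent.helper14.QF.covD_F chks_eq (.n 3 (.n 3 (.n 0 (.l 4) (.n 0 (.l 4) (.l 4))) (.n 0 (.n 0 (.l 4) (.l 4)) (.n 0 (.l 4) (.l 4)))) (.n 3 (.n 0 (.n 0 (.l 4) (.l 4)) (.n 0 (.n 0 (.l 4) (.l 4)) (.n 0 (.l 4) (.l 4)))) (.n 0 (.n 0 (.l 4) (.n 0 (.l 4) (.l 4))) (.n 0 (.n 2 (.l 4) (.l 4)) (.n 0 (.n 0 (.l 4) (.l 4)) (.n 1 (.l 4) (.l 4)))))))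
    [(257194721280, 3523215360), (212600881152, 23622320128), (137438953472, 137438953472), (704374636544, 17179869184)] rfl (by decide +kernel)
theorem c1_m91_t1 : CovD 0 progs [(257194721280, 3523215360), (212600881152, 23622320128), (137438953472, 137438953472), (730144440320, 8589934592)] :=
  Pool.Agent.helper14.QF.covD_F chks_eq (.n 3 (.n 0 (.n 0 (.n 0 (.l 4) (.l 4)) (.n 2 (.l 4) (.l 4))) (.n 0 (.n 0 (.n 1 (.l 4) (.l 4)) (.n 1 (.l 4) (.l 4))) (.n 2 (.l 4) (.l 4)))) (.n 0 (.n 0 (.n 3 (.l 4) (.n 0 (.l 4) (.l 4))) (.n 0 (.n 1 (.l 4) (.l 4)) (.n 1 (.l 4) (.l 4)))) (.n 0 (.n 2 (.l 4) (.l 4)) (.n 1 (.l 4) (.l 4)))))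
    [(257194721280, 3523215360), (212600881152, 23622320128), (137438953472, 137438953472), (730144440320, 8589934592)] rfl (by decide +kernel)
end
mutual
theorem c1_m91_t2 : CovD 0 progs [(257194721280, 3523215360), (212600881152, 23622320128), (137438953472, 137438953472), (747324309504, 8589934592)] :=
  Pool.Agent.helper14.QF.covD_F chks_eq (.n 3 (.n 0 (.n 0 (.n 0 (.n 2 (.l 4) (.l 4)) (.n 1 (.l 4) (.l 4))) (.n 2 (.l 4) (.l 4))) (.n 2 (.l 4) (.n 0 (.l 4) (.l 4)))) (.n 0 (.n 2 (.l 4) (.l 4)) (.n 0 (.n 2 (.l 4) (.l 4)) (.n 2 (.l 4) (.l 4)))))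
    [(257194721280, 3523215360), (212600881152, 23622320128), (137438953472, 137438953472), (747324309504, 8589934592)] rfl (by decide +kernel)
theorem c1_m91_t5 : CovD 0 progs [(261598740480, 880803840), (212600881152, 23622320128), (137438953472, 137438953472), (721554505728, 34359738368)] :=
  Pool.Agent.helper14.QF.covD_F chks_eq (.n 2 (.n 3 (.n 3 (.n 3 (.l 4) (.l 4)) (.n 3 (.l 4) (.l 4))) (.n 3 (.l 4) (.n 3 (.l 4) (.l 4)))) (.n 3 (.n 3 (.n 3 (.l 4) (.l 4)) (.n 3 (.l 4) (.l 4))) (.n 3 (.l 4) (.n 3 (.l 4) (.l 4)))))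
    [(261598740480, 880803840), (212600881152, 23622320128), (137438953472, 137438953472), (721554505728, 34359738368)] rfl (by decide +kernel)
end
mutual
theorem c1_m91_t6 : CovD 0 progs [(263360348160, 880803840), (212600881152, 23622320128), (68719476736, 68719476736), (721554505728, 34359738368)] :=
  Pool.Agent.helper14.QF.covD_F chks_eq (.n 2 (.n 3 (.n 3 (.n 3 (.l 4) (.l 4)) (.n 3 (.l 4) (.l 4))) (.n 3 (.n 0 (.l 4) (.l 4)) (.n 3 (.l 4) (.l 4)))) (.n 3 (.n 3 (.n 3 (.l 4) (.l 4)) (.n 3 (.l 4) (.l 4))) (.n 3 (.n 0 (.l 4) (.l 4)) (.n 3 (.l 4) (.l 4)))))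
    [(263360348160, 880803840), (212600881152, 23622320128), (68719476736, 68719476736), (721554505728, 34359738368)] rfl (by decide +kernel)
theorem c1_m91_t7 : CovD 0 progs [(263360348160, 880803840), (212600881152, 23622320128), (206158430208, 68719476736), (721554505728, 34359738368)] :=
  Pool.Agent.helper14.QF.covD_F chks_eq (.n 2 (.n 3 (.n 3 (.n 3 (.l 4) (.l 4)) (.n 3 (.l 4) (.l 4))) (.n 3 (.n 0 (.l 4) (.l 4)) (.n 3 (.l 4) (.l 4)))) (.n 3 (.n 3 (.n 3 (.l 4) (.l 4)) (.n 3 (.l 4) (.l 4))) (.n 3 (.n 0 (.l 4) (.l 4)) (.n 3 (.l 4) (.l 4)))))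
    [(263360348160, 880803840), (212600881152, 23622320128), (206158430208, 68719476736), (721554505728, 34359738368)] rfl (by decide +kernel)
end
mutual
theorem c1_m91_t10 : CovD 0 progs [(265121955840, 880803840), (212600881152, 23622320128), (68719476736, 68719476736), (721554505728, 34359738368)] :=
  Pool.Agent.helper14.QF.covD_F chks_eq (.n 2 (.n 3 (.n 3 (.n 3 (.l 4) (.l 4)) (.n 0 (.l 4) (.l 4))) (.n 3 (.n 3 (.l 4) (.l 4)) (.n 3 (.l 4) (.l 4)))) (.n 3 (.n 3 (.n 3 (.l 4) (.l 4)) (.n 0 (.l 4) (.l 4))) (.n 3 (.n 3 (.l 4) (.l 4)) (.n 3 (.l 4) (.l 4)))))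
    [(265121955840, 880803840), (212600881152, 23622320128), (68719476736, 68719476736), (721554505728, 34359738368)] rfl (by decide +kernel)
theorem c1_m91_t11 : CovD 0 progs [(265121955840, 880803840), (212600881152, 23622320128), (206158430208, 68719476736), (721554505728, 34359738368)] :=
  Pool.Agent.helper14.QF.covD_F chks_eq (.n 2 (.n 3 (.n 3 (.n 3 (.l 4) (.l 4)) (.n 0 (.l 4) (.l 4))) (.n 3 (.n 3 (.l 4) (.l 4)) (.n 3 (.l 4) (.l 4)))) (.n 3 (.n 3 (.n 3 (.l 4) (.l 4)) (.n 0 (.l 4) (.l 4))) (.n 3 (.n 3 (.l 4) (.l 4)) (.n 3 (.l 4) (.l 4)))))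
    [(265121955840, 880803840), (212600881152, 23622320128), (206158430208, 68719476736), (721554505728, 34359738368)] rfl (by decide +kernel)
end
mutual
theorem c1_m91_t13 : CovD 0 progs [(266883563520, 880803840), (212600881152, 23622320128), (137438953472, 137438953472), (721554505728, 34359738368)] :=
  Pool.Agent.helper14.QF.covD_F chks_eq (.n 2 (.n 3 (.n 3 (.n 3 (.l 4) (.l 4)) (.l 4)) (.n 3 (.n 3 (.l 4) (.l 4)) (.n 3 (.l 4) (.l 4)))) (.n 3 (.n 3 (.n 3 (.l 4) (.l 4)) (.l 4)) (.n 3 (.n 3 (.l 4) (.l 4)) (.n 3 (.l 4) (.l 4)))))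
    [(266883563520, 880803840), (212600881152, 23622320128), (137438953472, 137438953472), (721554505728, 34359738368)] rfl (by decide +kernel)
theorem c1_m91_t17 : CovD 0 progs [(274810798080, 7046430720), (212600881152, 23622320128), (137438953472, 137438953472), (695784701952, 8589934592)] :=
  Pool.Agent.helper14.QF.covD_F chks_eq (.n 3 (.n 0 (.n 0 (.n 0 (.n 2 (.l 4) (.l 4)) (.n 1 (.l 4) (.l 4))) (.n 2 (.l 4) (.l 4))) (.n 0 (.n 0 (.n 0 (.l 4) (.l 4)) (.n 0 (.l 4) (.l 4))) (.n 0 (.l 4) (.l 4)))) (.n 0 (.n 0 (.n 2 (.l 4) (.l 4)) (.n 0 (.n 1 (.l 4) (.l 4)) (.n 0 (.l 4) (.l 4)))) (.n 0 (.n 0 (.n 0 (.l 4) (.l 4)) (.l 4)) (.n 0 (.l 4) (.l 4)))))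
    [(274810798080, 7046430720), (212600881152, 23622320128), (137438953472, 137438953472), (695784701952, 8589934592)] rfl (by decide +kernel)
end
mutual
theorem c1_m91_t18 : CovD 0 progs [(274810798080, 7046430720), (212600881152, 23622320128), (137438953472, 137438953472), (712964571136, 8589934592)] :=
  Pool.Agent.helper14.QF.covD_F chks_eq (.n 2 (.n 0 (.n 0 (.n 0 (.n 3 (.l 4) (.l 4)) (.n 3 (.l 4) (.l 4))) (.n 0 (.n 3 (.l 4) (.l 4)) (.n 3 (.l 4) (.l 4)))) (.n 0 (.n 3 (.l 4) (.l 4)) (.n 0 (.l 4) (.l 4)))) (.n 0 (.n 0 (.n 0 (.n 3 (.l 4) (.l 4)) (.n 3 (.l 4) (.l 4))) (.n 0 (.n 3 (.l 4) (.l 4)) (.n 3 (.l 4) (.l 4)))) (.n 0 (.n 3 (.l 4) (.l 4)) (.n 0 (.l 4) (.l 4)))))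
    [(274810798080, 7046430720), (212600881152, 23622320128), (137438953472, 137438953472), (712964571136, 8589934592)] rfl (by decide +kernel)
theorem c1_m91_t20 : CovD 0 progs [(274810798080, 7046430720), (212600881152, 23622320128), (137438953472, 137438953472), (738734374912, 17179869184)] :=
  Pool.Agent.helper14.QF.covD_F chks_eq (.n 3 (.n 3 (.n 0 (.n 0 (.n 0 (.n 0 (.l 4) (.l 4)) (.l 4)) (.n 0 (.l 4) (.l 4))) (.n 0 (.l 4) (.l 4))) (.n 0 (.n 0 (.n 0 (.l 4) (.l 4)) (.l 4)) (.n 0 (.l 4) (.l 4)))) (.n 3 (.n 0 (.n 0 (.n 0 (.l 4) (.l 4)) (.l 4)) (.l 4)) (.n 0 (.n 0 (.l 4) (.l 4)) (.l 4))))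
    [(274810798080, 7046430720), (212600881152, 23622320128), (137438953472, 137438953472), (738734374912, 17179869184)] rfl (by decide +kernel)
end
mutual
theorem c1_m91_t23 : CovD 0 progs [(267764367360, 14092861440), (259845521408, 23622320128), (137438953472, 137438953472), (721554505728, 34359738368)] :=
  Pool.Agent.helper14.QF.covD_F chks_eq (.l 11)
    [(267764367360, 14092861440), (259845521408, 23622320128), (137438953472, 137438953472), (721554505728, 34359738368)] rfl (by decide +kernel)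
theorem c1_m91_t25 : CovD 0 progs [(267764367360, 14092861440), (330712481792, 47244640256), (137438953472, 137438953472), (721554505728, 34359738368)] :=
  Pool.Agent.helper14.QF.covD_F chks_eq (.l 11)
    [(267764367360, 14092861440), (330712481792, 47244640256), (137438953472, 137438953472), (721554505728, 34359738368)] rfl (by decide +kernel)
end
theorem c1_m91_t3 : CovD 0 progs [(257194721280, 3523215360), (212600881152, 23622320128), (137438953472, 137438953472), (738734374912, 17179869184)] :=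
  covD_split 3 (by decide +kernel) c1_m91_t1 c1_m91_t2
theorem c1_m91_t4 : CovD 0 progs [(257194721280, 3523215360), (212600881152, 23622320128), (137438953472, 137438953472), (721554505728, 34359738368)] :=
  covD_split 3 (by decide +kernel) c1_m91_t0 c1_m91_t3
theorem c1_m91_t8 : CovD 0 progs [(263360348160, 880803840), (212600881152, 23622320128), (137438953472, 137438953472), (721554505728, 34359738368)] :=
  covD_split 2 (by decide +kernel) c1_m91_t6 c1_m91_t7
theorem c1_m91_t9 : CovD 0 progs [(262479544320, 1761607680), (212600881152, 23622320128), (137438953472, 137438953472), (721554505728, 34359738368)] :=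
  covD_split 0 (by decide +kernel) c1_m91_t5 c1_m91_t8
theorem c1_m91_t12 : CovD 0 progs [(265121955840, 880803840), (212600881152, 23622320128), (137438953472, 137438953472), (721554505728, 34359738368)] :=
  covD_split 2 (by decide +kernel) c1_m91_t10 c1_m91_t11
theorem c1_m91_t14 : CovD 0 progs [(266002759680, 1761607680), (212600881152, 23622320128), (137438953472, 137438953472), (721554505728, 34359738368)] :=
  covD_split 0 (by decide +kernel) c1_m91_t12 c1_m91_t13
theorem c1_m91_t15 : CovD 0 progs [(264241152000, 3523215360), (212600881152, 23622320128), (137438953472, 137438953472), (721554505728, 34359738368)] :=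
  covD_split 0 (by decide +kernel) c1_m91_t9 c1_m91_t14
theorem c1_m91_t16 : CovD 0 progs [(260717936640, 7046430720), (212600881152, 23622320128), (137438953472, 137438953472), (721554505728, 34359738368)] :=
  covD_split 0 (by decide +kernel) c1_m91_t4 c1_m91_t15
theorem c1_m91_t19 : CovD 0 progs [(274810798080, 7046430720), (212600881152, 23622320128), (137438953472, 137438953472), (704374636544, 17179869184)] :=
  covD_split 3 (by decide +kernel) c1_m91_t17 c1_m91_t18
theorem c1_m91_t21 : CovD 0 progs [(274810798080, 7046430720), (212600881152, 23622320128), (137438953472, 137438953472), (721554505728, 34359738368)] :=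
  covD_split 3 (by decide +kernel) c1_m91_t19 c1_m91_t20
theorem c1_m91_t22 : CovD 0 progs [(267764367360, 14092861440), (212600881152, 23622320128), (137438953472, 137438953472), (721554505728, 34359738368)] :=
  covD_split 0 (by decide +kernel) c1_m91_t16 c1_m91_t21
theorem c1_m91_t24 : CovD 0 progs [(267764367360, 14092861440), (236223201280, 47244640256), (137438953472, 137438953472), (721554505728, 34359738368)] :=
  covD_split 1 (by decide +kernel) c1_m91_t22 c1_m91_t23
theorem c1_m91 : CovD 0 progs [(267764367360, 14092861440), (283467841536, 94489280512), (137438953472, 137438953472), (721554505728, 34359738368)] :=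
  covD_split 1 (by decide +kernel) c1_m91_t24 c1_m91_t25

end Pool.Agent.helper71.FJ.Crt.QMa
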