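import Pool.Agent.helper71.FJ.Crt.QMaP

/-!
Generated certificates.
-/

namespace Pool.Agent.helper71.FJ.Crt.QMa

open Pool.Agent.helper31.IA (Z Op)
open Pool.Agent.helper31.IC

mutual
theorem c1_m93_t0 : CovD 0 progs [(254552309760, 880803840), (212600881152, 23622320128), (137438953472, 137438953472), (790273982464, 34359738368)] :=
  Pool.Agent.helper14.QF.covD_F chks_eq (.n 3 (.n 3 (.n 2 (.n 3 (.l 4) (.l 4)) (.n 3 (.l 4) (.l 4))) (.n 3 (.n 0 (.l 4) (.l 4)) (.l 4))) (.n 3 (.n 3 (.l 4) (.l 4)) (.l 4)))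
    [(254552309760, 880803840), (212600881152, 23622320128), (137438953472, 137438953472), (790273982464, 34359738368)] rfl (by decide +kernel)
theorem c1_m93_t1 : CovD 0 progs [(254552309760, 880803840), (212600881152, 23622320128), (412316860416, 137438953472), (790273982464, 34359738368)] :=
  Pool.Agent.helper14.QF.covD_F chks_eq (.n 3 (.n 2 (.n 3 (.n 3 (.l 4) (.n 0 (.l 4) (.l 4))) (.n 3 (.l 4) (.l 4))) (.n 3 (.n 0 (.n 3 (.l 4) (.l 4)) (.n 3 (.l 4) (.l 4))) (.n 3 (.n 0 (.l 4) (.l 4)) (.l 4)))) (.n 3 (.n 3 (.l 4) (.l 4)) (.l 4)))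
    [(254552309760, 880803840), (212600881152, 23622320128), (412316860416, 137438953472), (790273982464, 34359738368)] rfl (by decide +kernel)
end
mutual
theorem c1_m93_t3 : CovD 0 progs [(256313917440, 880803840), (212600881152, 23622320128), (274877906944, 274877906944), (790273982464, 34359738368)] :=
  Pool.Agent.helper14.QF.covD_F chks_eq (.n 2 (.n 3 (.n 3 (.n 2 (.n 3 (.l 4) (.l 4)) (.n 3 (.l 4) (.l 4))) (.n 3 (.l 4) (.l 4))) (.n 3 (.n 0 (.l 4) (.l 4)) (.l 4))) (.n 3 (.n 3 (.n 2 (.n 3 (.n 0 (.l 4) (.l 4)) (.l 4)) (.n 0 (.n 3 (.l 4) (.l 4)) (.n 3 (.l 4) (.l 4)))) (.n 3 (.n 2 (.l 4) (.l 4)) (.l 4))) (.n 3 (.n 2 (.l 4) (.l 4)) (.l 4))))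
    [(256313917440, 880803840), (212600881152, 23622320128), (274877906944, 274877906944), (790273982464, 34359738368)] rfl (by decide +kernel)
theorem c1_m93_t5 : CovD 0 progs [(258075525120, 880803840), (212600881152, 23622320128), (274877906944, 274877906944), (790273982464, 34359738368)] :=
  Pool.Agent.helper14.QF.covD_F chks_eq (.n 3 (.n 3 (.n 2 (.n 2 (.n 3 (.l 4) (.l 4)) (.n 3 (.l 4) (.l 4))) (.n 2 (.n 3 (.l 4) (.l 4)) (.n 3 (.n 0 (.l 4) (.l 4)) (.l 4)))) (.n 2 (.n 3 (.l 4) (.l 4)) (.n 3 (.n 0 (.l 4) (.l 4)) (.l 4)))) (.n 3 (.n 2 (.l 4) (.l 4)) (.l 4)))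
    [(258075525120, 880803840), (212600881152, 23622320128), (274877906944, 274877906944), (790273982464, 34359738368)] rfl (by decide +kernel)
end
mutual
theorem c1_m93_t6 : CovD 0 progs [(259837132800, 880803840), (212600881152, 23622320128), (274877906944, 274877906944), (790273982464, 34359738368)] :=
  Pool.Agent.helper14.QF.covD_F chks_eq (.n 3 (.n 3 (.n 2 (.n 3 (.n 0 (.l 4) (.l 4)) (.l 4)) (.n 2 (.n 3 (.l 4) (.l 4)) (.n 3 (.l 4) (.l 4)))) (.n 2 (.n 3 (.l 4) (.l 4)) (.n 3 (.l 4) (.l 4)))) (.n 3 (.n 2 (.l 4) (.l 4)) (.l 4)))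
    [(259837132800, 880803840), (212600881152, 23622320128), (274877906944, 274877906944), (790273982464, 34359738368)] rfl (by decide +kernel)
theorem c1_m93_t9 : CovD 0 progs [(262479544320, 1761607680), (212600881152, 23622320128), (274877906944, 274877906944), (790273982464, 34359738368)] :=
  Pool.Agent.helper14.QF.covD_F chks_eq (.n 3 (.n 0 (.n 3 (.n 2 (.n 3 (.l 4) (.l 4)) (.n 3 (.n 2 (.l 4) (.l 4)) (.l 4))) (.n 2 (.l 4) (.n 0 (.l 4) (.l 4)))) (.n 2 (.n 3 (.n 3 (.l 4) (.l 4)) (.l 4)) (.n 3 (.n 3 (.n 0 (.l 4) (.l 4)) (.l 4)) (.l 4)))) (.n 3 (.n 2 (.l 4) (.l 4)) (.l 4)))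
    [(262479544320, 1761607680), (212600881152, 23622320128), (274877906944, 274877906944), (790273982464, 34359738368)] rfl (by decide +kernel)
end
mutual
theorem c1_m93_t10 : CovD 0 progs [(266002759680, 1761607680), (212600881152, 23622320128), (274877906944, 274877906944), (790273982464, 34359738368)] :=
  Pool.Agent.helper14.QF.covD_F chks_eq (.n 3 (.n 3 (.n 2 (.n 3 (.l 4) (.l 4)) (.n 3 (.n 0 (.l 4) (.l 4)) (.l 4))) (.n 2 (.l 4) (.n 0 (.l 4) (.l 4)))) (.n 3 (.n 0 (.l 4) (.l 4)) (.l 4)))
    [(266002759680, 1761607680), (212600881152, 23622320128), (274877906944, 274877906944), (790273982464, 34359738368)] rfl (by decide +kernel)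
theorem c1_m93_t13 : CovD 0 progs [(274810798080, 7046430720), (212600881152, 23622320128), (274877906944, 274877906944), (790273982464, 34359738368)] :=
  Pool.Agent.helper14.QF.covD_F chks_eq (.n 0 (.n 0 (.n 3 (.n 0 (.n 3 (.n 2 (.l 4) (.l 4)) (.l 4)) (.n 3 (.n 2 (.l 4) (.l 4)) (.l 4))) (.n 3 (.l 4) (.l 4))) (.n 3 (.n 3 (.n 2 (.l 4) (.l 4)) (.l 4)) (.n 2 (.l 4) (.l 4)))) (.n 3 (.n 2 (.n 3 (.l 4) (.l 4)) (.n 3 (.l 4) (.l 4))) (.n 3 (.l 8) (.l 8))))
    [(274810798080, 7046430720), (212600881152, 23622320128), (274877906944, 274877906944), (790273982464, 34359738368)] rfl (by decide +kernel)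
end
mutual
theorem c1_m93_t15 : CovD 0 progs [(267764367360, 14092861440), (259845521408, 23622320128), (274877906944, 274877906944), (790273982464, 34359738368)] :=
  Pool.Agent.helper14.QF.covD_F chks_eq (.l 11)
    [(267764367360, 14092861440), (259845521408, 23622320128), (274877906944, 274877906944), (790273982464, 34359738368)] rfl (by decide +kernel)
theorem c1_m93_t17 : CovD 0 progs [(267764367360, 14092861440), (330712481792, 47244640256), (274877906944, 274877906944), (790273982464, 34359738368)] :=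
  Pool.Agent.helper14.QF.covD_F chks_eq (.l 11)
    [(267764367360, 14092861440), (330712481792, 47244640256), (274877906944, 274877906944), (790273982464, 34359738368)] rfl (by decide +kernel)
end
theorem c1_m93_t2 : CovD 0 progs [(254552309760, 880803840), (212600881152, 23622320128), (274877906944, 274877906944), (790273982464, 34359738368)] :=
  covD_split 2 (by decide +kernel) c1_m93_t0 c1_m93_t1
theorem c1_m93_t4 : CovD 0 progs [(255433113600, 1761607680), (212600881152, 23622320128), (274877906944, 274877906944), (790273982464, 34359738368)] :=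
  covD_split 0 (by decide +kernel) c1_m93_t2 c1_m93_t3
theorem c1_m93_t7 : CovD 0 progs [(258956328960, 1761607680), (212600881152, 23622320128), (274877906944, 274877906944), (790273982464, 34359738368)] :=
  covD_split 0 (by decide +kernel) c1_m93_t5 c1_m93_t6
theorem c1_m93_t8 : CovD 0 progs [(257194721280, 3523215360), (212600881152, 23622320128), (274877906944, 274877906944), (790273982464, 34359738368)] :=
  covD_split 0 (by decide +kernel) c1_m93_t4 c1_m93_t7
theorem c1_m93_t11 : CovD 0 progs [(264241152000, 3523215360), (212600881152, 23622320128), (274877906944, 274877906944), (790273982464, 34359738368)] :=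
  covD_split 0 (by decide +kernel) c1_m93_t9 c1_m93_t10
theorem c1_m93_t12 : CovD 0 progs [(260717936640, 7046430720), (212600881152, 23622320128), (274877906944, 274877906944), (790273982464, 34359738368)] :=
  covD_split 0 (by decide +kernel) c1_m93_t8 c1_m93_t11
theorem c1_m93_t14 : CovD 0 progs [(267764367360, 14092861440), (212600881152, 23622320128), (274877906944, 274877906944), (790273982464, 34359738368)] :=
  covD_split 0 (by decide +kernel) c1_m93_t12 c1_m93_t13
theorem c1_m93_t16 : CovD 0 progs [(267764367360, 14092861440), (236223201280, 47244640256), (274877906944, 274877906944), (790273982464, 34359738368)] :=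
  covD_split 1 (by decide +kernel) c1_m93_t14 c1_m93_t15
theorem c1_m93 : CovD 0 progs [(267764367360, 14092861440), (283467841536, 94489280512), (274877906944, 274877906944), (790273982464, 34359738368)] :=
  covD_split 1 (by decide +kernel) c1_m93_t16 c1_m93_t17

end Pool.Agent.helper71.FJ.Crt.QMa
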