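import Pool.Agent.helper71.FJ.Crt.QMaP

/-!
Generated certificates.
-/

namespace Pool.Agent.helper71.FJ.Crt.QMa

open Pool.Agent.helper31.IA (Z Op)
open Pool.Agent.helper31.IC

mutual
theorem c1_m95_t0 : CovD 0 progs [(288903659520, 7046430720), (212600881152, 23622320128), (137438953472, 137438953472), (558345748480, 8589934592)] :=
  Pool.Agent.helper14.QF.covD_F chks_eq (.n 3 (.n 0 (.n 0 (.l 4) (.l 4)) (.n 0 (.n 0 (.l 4) (.l 4)) (.n 0 (.l 4) (.l 4)))) (.n 0 (.n 0 (.l 4) (.l 4)) (.n 0 (.n 0 (.l 4) (.l 4)) (.n 0 (.l 4) (.n 0 (.l 4) (.l 4))))))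
    [(288903659520, 7046430720), (212600881152, 23622320128), (137438953472, 137438953472), (558345748480, 8589934592)] rfl (by decide +kernel)
theorem c1_m95_t1 : CovD 0 progs [(288903659520, 7046430720), (212600881152, 23622320128), (137438953472, 137438953472), (575525617664, 8589934592)] :=
  Pool.Agent.helper14.QF.covD_F chks_eq (.n 3 (.n 0 (.n 0 (.l 4) (.n 0 (.l 4) (.l 4))) (.n 0 (.n 0 (.l 4) (.l 4)) (.n 0 (.n 0 (.l 4) (.l 4)) (.n 0 (.l 4) (.l 4))))) (.n 0 (.n 0 (.l 4) (.n 0 (.l 4) (.l 4))) (.n 0 (.n 0 (.l 4) (.n 0 (.l 4) (.l 4))) (.n 0 (.n 0 (.l 4) (.l 4)) (.n 0 (.l 4) (.l 4))))))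
    [(288903659520, 7046430720), (212600881152, 23622320128), (137438953472, 137438953472), (575525617664, 8589934592)] rfl (by decide +kernel)
end
mutual
theorem c1_m95_t3 : CovD 0 progs [(288903659520, 7046430720), (212600881152, 23622320128), (343597383680, 68719476736), (566935683072, 17179869184)] :=
  Pool.Agent.helper14.QF.covD_F chks_eq (.n 0 (.n 0 (.n 3 (.l 4) (.n 0 (.l 4) (.l 4))) (.n 0 (.n 3 (.l 4) (.l 4)) (.n 3 (.l 4) (.l 4)))) (.n 0 (.n 0 (.n 3 (.l 4) (.n 0 (.l 4) (.l 4))) (.n 3 (.l 4) (.n 0 (.l 4) (.l 4)))) (.n 0 (.n 0 (.n 3 (.l 4) (.l 4)) (.n 3 (.l 4) (.l 4))) (.n 0 (.n 3 (.l 4) (.l 4)) (.n 3 (.l 4) (.l 4))))))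
    [(288903659520, 7046430720), (212600881152, 23622320128), (343597383680, 68719476736), (566935683072, 17179869184)] rfl (by decide +kernel)
theorem c1_m95_t4 : CovD 0 progs [(288903659520, 7046430720), (212600881152, 23622320128), (481036337152, 68719476736), (566935683072, 17179869184)] :=
  Pool.Agent.helper14.QF.covD_F chks_eq (.n 0 (.n 0 (.n 3 (.l 4) (.n 0 (.l 4) (.l 4))) (.n 0 (.n 3 (.l 4) (.l 4)) (.n 3 (.l 4) (.n 0 (.l 4) (.l 4))))) (.n 0 (.n 0 (.n 3 (.l 4) (.n 0 (.l 4) (.l 4))) (.n 3 (.n 0 (.l 4) (.l 4)) (.n 3 (.l 4) (.l 4)))) (.n 0 (.n 3 (.n 0 (.l 4) (.l 4)) (.n 3 (.l 4) (.l 4))) (.n 2 (.n 3 (.l 4) (.l 4)) (.n 3 (.l 4) (.l 4))))))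
    [(288903659520, 7046430720), (212600881152, 23622320128), (481036337152, 68719476736), (566935683072, 17179869184)] rfl (by decide +kernel)
end
mutual
theorem c1_m95_t7 : CovD 0 progs [(288903659520, 7046430720), (259845521408, 23622320128), (274877906944, 274877906944), (566935683072, 17179869184)] :=
  Pool.Agent.helper14.QF.covD_F chks_eq (.l 11)
    [(288903659520, 7046430720), (259845521408, 23622320128), (274877906944, 274877906944), (566935683072, 17179869184)] rfl (by decide +kernel)
theorem c1_m95_t9 : CovD 0 progs [(288903659520, 7046430720), (330712481792, 47244640256), (274877906944, 274877906944), (566935683072, 17179869184)] :=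
  Pool.Agent.helper14.QF.covD_F chks_eq (.l 11)
    [(288903659520, 7046430720), (330712481792, 47244640256), (274877906944, 274877906944), (566935683072, 17179869184)] rfl (by decide +kernel)
end
mutual
theorem c1_m95_t11 : CovD 0 progs [(299473305600, 3523215360), (236223201280, 47244640256), (274877906944, 274877906944), (558345748480, 8589934592)] :=
  Pool.Agent.helper14.QF.covD_F chks_eq (.n 1 (.n 0 (.n 0 (.n 2 (.n 0 (.n 2 (.l 4) (.l 4)) (.n 2 (.l 4) (.l 4))) (.n 2 (.n 0 (.l 4) (.l 4)) (.n 2 (.l 4) (.l 4)))) (.n 2 (.n 2 (.l 4) (.l 4)) (.n 2 (.n 0 (.l 4) (.l 4)) (.n 2 (.l 4) (.l 4))))) (.n 2 (.n 2 (.l 4) (.l 4)) (.n 2 (.l 4) (.n 1 (.l 4) (.l 4))))) (.l 11))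
    [(299473305600, 3523215360), (236223201280, 47244640256), (274877906944, 274877906944), (558345748480, 8589934592)] rfl (by decide +kernel)
theorem c1_m95_t12 : CovD 0 progs [(306519736320, 3523215360), (236223201280, 47244640256), (274877906944, 274877906944), (558345748480, 8589934592)] :=
  Pool.Agent.helper14.QF.covD_F chks_eq (.n 1 (.n 0 (.n 0 (.n 2 (.n 2 (.l 4) (.l 4)) (.n 2 (.l 4) (.n 0 (.l 4) (.l 4)))) (.n 2 (.n 2 (.l 4) (.l 4)) (.n 2 (.l 4) (.n 0 (.l 4) (.l 4))))) (.n 0 (.n 2 (.n 2 (.l 4) (.l 4)) (.n 2 (.l 4) (.n 0 (.l 4) (.l 4)))) (.n 2 (.n 0 (.l 4) (.l 4)) (.n 2 (.l 4) (.l 4))))) (.l 11))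
    [(306519736320, 3523215360), (236223201280, 47244640256), (274877906944, 274877906944), (558345748480, 8589934592)] rfl (by decide +kernel)
end
mutual
theorem c1_m95_t14 : CovD 0 progs [(299473305600, 3523215360), (212600881152, 23622320128), (274877906944, 274877906944), (575525617664, 8589934592)] :=
  Pool.Agent.helper14.QF.covD_F chks_eq (.n 0 (.n 2 (.n 2 (.l 4) (.l 4)) (.n 2 (.n 0 (.l 4) (.l 4)) (.n 2 (.l 4) (.l 4)))) (.n 0 (.n 2 (.n 2 (.l 4) (.l 4)) (.n 2 (.l 4) (.n 0 (.l 4) (.l 4)))) (.n 2 (.n 2 (.l 4) (.l 4)) (.n 2 (.n 0 (.l 4) (.l 4)) (.n 2 (.l 4) (.l 4))))))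
    [(299473305600, 3523215360), (212600881152, 23622320128), (274877906944, 274877906944), (575525617664, 8589934592)] rfl (by decide +kernel)
theorem c1_m95_t15 : CovD 0 progs [(306519736320, 3523215360), (212600881152, 23622320128), (274877906944, 274877906944), (575525617664, 8589934592)] :=
  Pool.Agent.helper14.QF.covD_F chks_eq (.n 0 (.n 0 (.n 2 (.n 2 (.l 4) (.l 4)) (.n 2 (.l 4) (.n 0 (.l 4) (.l 4)))) (.n 2 (.n 1 (.l 4) (.l 4)) (.n 2 (.l 4) (.n 0 (.l 4) (.l 4))))) (.n 0 (.n 2 (.n 0 (.l 4) (.l 4)) (.n 2 (.l 4) (.l 4))) (.n 2 (.l 4) (.n 2 (.l 4) (.l 4)))))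
    [(306519736320, 3523215360), (212600881152, 23622320128), (274877906944, 274877906944), (575525617664, 8589934592)] rfl (by decide +kernel)
end
mutual
theorem c1_m95_t17 : CovD 0 progs [(302996520960, 7046430720), (259845521408, 23622320128), (274877906944, 274877906944), (575525617664, 8589934592)] :=
  Pool.Agent.helper14.QF.covD_F chks_eq (.l 11)
    [(302996520960, 7046430720), (259845521408, 23622320128), (274877906944, 274877906944), (575525617664, 8589934592)] rfl (by decide +kernel)
theorem c1_m95_t20 : CovD 0 progs [(302996520960, 7046430720), (330712481792, 47244640256), (274877906944, 274877906944), (566935683072, 17179869184)] :=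
  Pool.Agent.helper14.QF.covD_F chks_eq (.l 11)
    [(302996520960, 7046430720), (330712481792, 47244640256), (274877906944, 274877906944), (566935683072, 17179869184)] rfl (by decide +kernel)
end
mutual
theorem c1_m95_t23 : CovD 0 progs [(288903659520, 7046430720), (212600881152, 23622320128), (274877906944, 274877906944), (588410519552, 4294967296)] :=
  Pool.Agent.helper14.QF.covD_F chks_eq (.n 0 (.n 0 (.n 2 (.n 0 (.l 4) (.l 4)) (.n 2 (.l 4) (.l 4))) (.n 0 (.n 2 (.l 4) (.n 2 (.l 4) (.l 4))) (.n 2 (.l 4) (.n 2 (.l 4) (.l 4))))) (.n 0 (.n 0 (.n 2 (.n 0 (.l 4) (.l 4)) (.n 2 (.l 4) (.l 4))) (.n 2 (.n 0 (.l 4) (.l 4)) (.n 2 (.l 4) (.n 0 (.l 4) (.l 4))))) (.n 2 (.n 2 (.l 4) (.l 4)) (.n 2 (.l 4) (.n 0 (.l 4) (.l 4))))))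
    [(288903659520, 7046430720), (212600881152, 23622320128), (274877906944, 274877906944), (588410519552, 4294967296)] rfl (by decide +kernel)
theorem c1_m95_t24 : CovD 0 progs [(302996520960, 7046430720), (212600881152, 23622320128), (274877906944, 274877906944), (588410519552, 4294967296)] :=
  Pool.Agent.helper14.QF.covD_F chks_eq (.n 0 (.n 0 (.n 2 (.n 2 (.l 4) (.l 4)) (.n 2 (.l 4) (.n 0 (.l 4) (.l 4)))) (.n 0 (.n 2 (.l 4) (.n 2 (.l 4) (.l 4))) (.n 2 (.l 4) (.n 2 (.l 4) (.l 4))))) (.n 0 (.n 2 (.n 0 (.l 4) (.l 4)) (.n 2 (.l 4) (.l 4))) (.n 2 (.l 4) (.n 0 (.l 4) (.l 4)))))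
    [(302996520960, 7046430720), (212600881152, 23622320128), (274877906944, 274877906944), (588410519552, 4294967296)] rfl (by decide +kernel)
end
mutual
theorem c1_m95_t26 : CovD 0 progs [(295950090240, 14092861440), (259845521408, 23622320128), (274877906944, 274877906944), (588410519552, 4294967296)] :=
  Pool.Agent.helper14.QF.covD_F chks_eq (.l 11)
    [(295950090240, 14092861440), (259845521408, 23622320128), (274877906944, 274877906944), (588410519552, 4294967296)] rfl (by decide +kernel)
theorem c1_m95_t28 : CovD 0 progs [(295950090240, 14092861440), (330712481792, 47244640256), (274877906944, 274877906944), (588410519552, 4294967296)] :=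
  Pool.Agent.helper14.QF.covD_F chks_eq (.l 11)
    [(295950090240, 14092861440), (330712481792, 47244640256), (274877906944, 274877906944), (588410519552, 4294967296)] rfl (by decide +kernel)
end
mutual
theorem c1_m95_t30 : CovD 0 progs [(285380444160, 3523215360), (212600881152, 23622320128), (274877906944, 274877906944), (597000454144, 4294967296)] :=
  Pool.Agent.helper14.QF.covD_F chks_eq (.n 0 (.n 0 (.n 2 (.l 4) (.n 0 (.l 4) (.l 4))) (.n 2 (.l 4) (.n 2 (.l 4) (.l 4)))) (.n 0 (.n 2 (.l 4) (.n 2 (.l 4) (.l 4))) (.n 2 (.n 0 (.l 4) (.l 4)) (.n 2 (.l 4) (.l 4)))))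
    [(285380444160, 3523215360), (212600881152, 23622320128), (274877906944, 274877906944), (597000454144, 4294967296)] rfl (by decide +kernel)
theorem c1_m95_t31 : CovD 0 progs [(292426874880, 3523215360), (212600881152, 23622320128), (274877906944, 274877906944), (597000454144, 4294967296)] :=
  Pool.Agent.helper14.QF.covD_F chks_eq (.n 0 (.n 0 (.n 2 (.n 1 (.l 4) (.l 4)) (.n 2 (.l 4) (.n 0 (.l 4) (.l 4)))) (.n 2 (.n 1 (.l 4) (.l 4)) (.n 2 (.l 4) (.l 4)))) (.n 2 (.n 0 (.l 4) (.l 4)) (.n 2 (.l 4) (.l 4))))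
    [(292426874880, 3523215360), (212600881152, 23622320128), (274877906944, 274877906944), (597000454144, 4294967296)] rfl (by decide +kernel)
end
mutual
theorem c1_m95_t33 : CovD 0 progs [(302996520960, 7046430720), (212600881152, 23622320128), (274877906944, 274877906944), (597000454144, 4294967296)] :=
  Pool.Agent.helper14.QF.covD_F chks_eq (.n 0 (.n 0 (.n 2 (.n 2 (.l 4) (.l 4)) (.n 0 (.n 2 (.l 4) (.l 4)) (.n 2 (.l 4) (.l 4)))) (.n 2 (.n 0 (.l 4) (.l 4)) (.n 2 (.l 4) (.n 0 (.l 4) (.l 4))))) (.n 0 (.n 2 (.l 4) (.n 2 (.l 4) (.l 4))) (.n 2 (.l 4) (.l 4))))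
    [(302996520960, 7046430720), (212600881152, 23622320128), (274877906944, 274877906944), (597000454144, 4294967296)] rfl (by decide +kernel)
theorem c1_m95_t35 : CovD 0 progs [(295950090240, 14092861440), (259845521408, 23622320128), (274877906944, 274877906944), (597000454144, 4294967296)] :=
  Pool.Agent.helper14.QF.covD_F chks_eq (.l 11)
    [(295950090240, 14092861440), (259845521408, 23622320128), (274877906944, 274877906944), (597000454144, 4294967296)] rfl (by decide +kernel)
end
mutual
theorem c1_m95_t37 : CovD 0 progs [(295950090240, 14092861440), (330712481792, 47244640256), (274877906944, 274877906944), (597000454144, 4294967296)] :=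
  Pool.Agent.helper14.QF.covD_F chks_eq (.l 11)
    [(295950090240, 14092861440), (330712481792, 47244640256), (274877906944, 274877906944), (597000454144, 4294967296)] rfl (by decide +kernel)
theorem c1_m95_t40 : CovD 0 progs [(283618836480, 1761607680), (212600881152, 23622320128), (274877906944, 274877906944), (609885356032, 8589934592)] :=
  Pool.Agent.helper14.QF.covD_F chks_eq (.n 0 (.n 2 (.n 3 (.l 4) (.n 0 (.l 4) (.l 4))) (.n 2 (.n 0 (.l 4) (.l 4)) (.n 3 (.l 4) (.l 4)))) (.n 2 (.n 0 (.n 2 (.l 4) (.l 4)) (.n 2 (.l 4) (.l 4))) (.n 2 (.n 3 (.l 4) (.l 4)) (.n 3 (.l 4) (.l 4)))))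
    [(283618836480, 1761607680), (212600881152, 23622320128), (274877906944, 274877906944), (609885356032, 8589934592)] rfl (by decide +kernel)
end
mutual
theorem c1_m95_t41 : CovD 0 progs [(287142051840, 1761607680), (212600881152, 23622320128), (274877906944, 274877906944), (609885356032, 8589934592)] :=
  Pool.Agent.helper14.QF.covD_F chks_eq (.n 0 (.n 2 (.n 0 (.n 3 (.l 4) (.l 4)) (.n 2 (.l 4) (.l 4))) (.n 2 (.n 3 (.l 4) (.l 4)) (.n 3 (.l 4) (.n 0 (.l 4) (.l 4))))) (.n 2 (.n 0 (.n 2 (.l 4) (.l 4)) (.n 2 (.l 4) (.l 4))) (.n 2 (.n 3 (.l 4) (.l 4)) (.n 3 (.n 0 (.l 4) (.l 4)) (.l 4)))))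
    [(287142051840, 1761607680), (212600881152, 23622320128), (274877906944, 274877906944), (609885356032, 8589934592)] rfl (by decide +kernel)
theorem c1_m95_t43 : CovD 0 progs [(292426874880, 3523215360), (212600881152, 23622320128), (274877906944, 274877906944), (609885356032, 8589934592)] :=
  Pool.Agent.helper14.QF.covD_F chks_eq (.n 0 (.n 2 (.n 0 (.n 2 (.l 4) (.l 4)) (.n 1 (.l 4) (.l 4))) (.n 2 (.n 2 (.l 4) (.l 4)) (.n 2 (.l 4) (.l 4)))) (.n 2 (.n 0 (.n 2 (.l 4) (.l 4)) (.n 2 (.l 4) (.l 4))) (.n 2 (.n 3 (.l 4) (.n 0 (.l 4) (.l 4))) (.n 0 (.n 1 (.l 4) (.l 4)) (.n 2 (.l 4) (.l 4))))))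
    [(292426874880, 3523215360), (212600881152, 23622320128), (274877906944, 274877906944), (609885356032, 8589934592)] rfl (by decide +kernel)
end
mutual
theorem c1_m95_t45 : CovD 0 progs [(302996520960, 7046430720), (212600881152, 23622320128), (274877906944, 274877906944), (609885356032, 8589934592)] :=
  Pool.Agent.helper14.QF.covD_F chks_eq (.n 0 (.n 3 (.n 0 (.n 0 (.n 2 (.l 4) (.n 2 (.l 4) (.l 4))) (.n 2 (.l 4) (.n 2 (.l 4) (.l 4)))) (.n 2 (.n 0 (.l 4) (.l 4)) (.n 2 (.l 4) (.l 4)))) (.n 0 (.n 2 (.n 0 (.l 4) (.l 4)) (.n 2 (.l 4) (.n 0 (.l 4) (.l 4)))) (.n 2 (.l 4) (.n 2 (.l 4) (.l 4))))) (.n 0 (.n 2 (.n 0 (.l 4) (.l 4)) (.n 2 (.l 4) (.l 4))) (.n 2 (.l 4) (.l 4))))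
    [(302996520960, 7046430720), (212600881152, 23622320128), (274877906944, 274877906944), (609885356032, 8589934592)] rfl (by decide +kernel)
theorem c1_m95_t47 : CovD 0 progs [(295950090240, 14092861440), (259845521408, 23622320128), (274877906944, 274877906944), (609885356032, 8589934592)] :=
  Pool.Agent.helper14.QF.covD_F chks_eq (.l 11)
    [(295950090240, 14092861440), (259845521408, 23622320128), (274877906944, 274877906944), (609885356032, 8589934592)] rfl (by decide +kernel)
theorem c1_m95_t49 : CovD 0 progs [(295950090240, 14092861440), (330712481792, 47244640256), (274877906944, 274877906944), (609885356032, 8589934592)] :=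
  Pool.Agent.helper14.QF.covD_F chks_eq (.l 11)
    [(295950090240, 14092861440), (330712481792, 47244640256), (274877906944, 274877906944), (609885356032, 8589934592)] rfl (by decide +kernel)
end
theorem c1_m95_t2 : CovD 0 progs [(288903659520, 7046430720), (212600881152, 23622320128), (137438953472, 137438953472), (566935683072, 17179869184)] :=
  covD_split 3 (by decide +kernel) c1_m95_t0 c1_m95_t1
theorem c1_m95_t5 : CovD 0 progs [(288903659520, 7046430720), (212600881152, 23622320128), (412316860416, 137438953472), (566935683072, 17179869184)] :=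
  covD_split 2 (by decide +kernel) c1_m95_t3 c1_m95_t4
theorem c1_m95_t6 : CovD 0 progs [(288903659520, 7046430720), (212600881152, 23622320128), (274877906944, 274877906944), (566935683072, 17179869184)] :=
  covD_split 2 (by decide +kernel) c1_m95_t2 c1_m95_t5
theorem c1_m95_t8 : CovD 0 progs [(288903659520, 7046430720), (236223201280, 47244640256), (274877906944, 274877906944), (566935683072, 17179869184)] :=
  covD_split 1 (by decide +kernel) c1_m95_t6 c1_m95_t7
theorem c1_m95_t10 : CovD 0 progs [(288903659520, 7046430720), (283467841536, 94489280512), (274877906944, 274877906944), (566935683072, 17179869184)] :=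
  covD_split 1 (by decide +kernel) c1_m95_t8 c1_m95_t9
theorem c1_m95_t13 : CovD 0 progs [(302996520960, 7046430720), (236223201280, 47244640256), (274877906944, 274877906944), (558345748480, 8589934592)] :=
  covD_split 0 (by decide +kernel) c1_m95_t11 c1_m95_t12
theorem c1_m95_t16 : CovD 0 progs [(302996520960, 7046430720), (212600881152, 23622320128), (274877906944, 274877906944), (575525617664, 8589934592)] :=
  covD_split 0 (by decide +kernel) c1_m95_t14 c1_m95_t15
theorem c1_m95_t18 : CovD 0 progs [(302996520960, 7046430720), (236223201280, 47244640256), (274877906944, 274877906944), (575525617664, 8589934592)] :=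
  covD_split 1 (by decide +kernel) c1_m95_t16 c1_m95_t17
theorem c1_m95_t19 : CovD 0 progs [(302996520960, 7046430720), (236223201280, 47244640256), (274877906944, 274877906944), (566935683072, 17179869184)] :=
  covD_split 3 (by decide +kernel) c1_m95_t13 c1_m95_t18
theorem c1_m95_t21 : CovD 0 progs [(302996520960, 7046430720), (283467841536, 94489280512), (274877906944, 274877906944), (566935683072, 17179869184)] :=
  covD_split 1 (by decide +kernel) c1_m95_t19 c1_m95_t20
theorem c1_m95_t22 : CovD 0 progs [(295950090240, 14092861440), (283467841536, 94489280512), (274877906944, 274877906944), (566935683072, 17179869184)] :=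
  covD_split 0 (by decide +kernel) c1_m95_t10 c1_m95_t21
theorem c1_m95_t25 : CovD 0 progs [(295950090240, 14092861440), (212600881152, 23622320128), (274877906944, 274877906944), (588410519552, 4294967296)] :=
  covD_split 0 (by decide +kernel) c1_m95_t23 c1_m95_t24
theorem c1_m95_t27 : CovD 0 progs [(295950090240, 14092861440), (236223201280, 47244640256), (274877906944, 274877906944), (588410519552, 4294967296)] :=
  covD_split 1 (by decide +kernel) c1_m95_t25 c1_m95_t26
theorem c1_m95_t29 : CovD 0 progs [(295950090240, 14092861440), (283467841536, 94489280512), (274877906944, 274877906944), (588410519552, 4294967296)] :=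
  covD_split 1 (by decide +kernel) c1_m95_t27 c1_m95_t28
theorem c1_m95_t32 : CovD 0 progs [(288903659520, 7046430720), (212600881152, 23622320128), (274877906944, 274877906944), (597000454144, 4294967296)] :=
  covD_split 0 (by decide +kernel) c1_m95_t30 c1_m95_t31
theorem c1_m95_t34 : CovD 0 progs [(295950090240, 14092861440), (212600881152, 23622320128), (274877906944, 274877906944), (597000454144, 4294967296)] :=
  covD_split 0 (by decide +kernel) c1_m95_t32 c1_m95_t33
theorem c1_m95_t36 : CovD 0 progs [(295950090240, 14092861440), (236223201280, 47244640256), (274877906944, 274877906944), (597000454144, 4294967296)] :=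
  covD_split 1 (by decide +kernel) c1_m95_t34 c1_m95_t35
theorem c1_m95_t38 : CovD 0 progs [(295950090240, 14092861440), (283467841536, 94489280512), (274877906944, 274877906944), (597000454144, 4294967296)] :=
  covD_split 1 (by decide +kernel) c1_m95_t36 c1_m95_t37
theorem c1_m95_t39 : CovD 0 progs [(295950090240, 14092861440), (283467841536, 94489280512), (274877906944, 274877906944), (592705486848, 8589934592)] :=
  covD_split 3 (by decide +kernel) c1_m95_t29 c1_m95_t38
theorem c1_m95_t42 : CovD 0 progs [(285380444160, 3523215360), (212600881152, 23622320128), (274877906944, 274877906944), (609885356032, 8589934592)] :=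
  covD_split 0 (by decide +kernel) c1_m95_t40 c1_m95_t41
theorem c1_m95_t44 : CovD 0 progs [(288903659520, 7046430720), (212600881152, 23622320128), (274877906944, 274877906944), (609885356032, 8589934592)] :=
  covD_split 0 (by decide +kernel) c1_m95_t42 c1_m95_t43
theorem c1_m95_t46 : CovD 0 progs [(295950090240, 14092861440), (212600881152, 23622320128), (274877906944, 274877906944), (609885356032, 8589934592)] :=
  covD_split 0 (by decide +kernel) c1_m95_t44 c1_m95_t45
theorem c1_m95_t48 : CovD 0 progs [(295950090240, 14092861440), (236223201280, 47244640256), (274877906944, 274877906944), (609885356032, 8589934592)] :=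
  covD_split 1 (by decide +kernel) c1_m95_t46 c1_m95_t47
theorem c1_m95_t50 : CovD 0 progs [(295950090240, 14092861440), (283467841536, 94489280512), (274877906944, 274877906944), (609885356032, 8589934592)] :=
  covD_split 1 (by decide +kernel) c1_m95_t48 c1_m95_t49
theorem c1_m95_t51 : CovD 0 progs [(295950090240, 14092861440), (283467841536, 94489280512), (274877906944, 274877906944), (601295421440, 17179869184)] :=
  covD_split 3 (by decide +kernel) c1_m95_t39 c1_m95_t50
theorem c1_m95 : CovD 0 progs [(295950090240, 14092861440), (283467841536, 94489280512), (274877906944, 274877906944), (584115552256, 34359738368)] :=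
  covD_split 3 (by decide +kernel) c1_m95_t22 c1_m95_t51

end Pool.Agent.helper71.FJ.Crt.QMa
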