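import Pool.Agent.helper71.FJ.Crt.QMaP

/-!
Generated certificates.
-/

namespace Pool.Agent.helper71.FJ.Crt.QMa

open Pool.Agent.helper31.IA (Z Op)
open Pool.Agent.helper31.IC

mutual
theorem c1_m98_t0 : CovD 0 progs [(285380444160, 3523215360), (212600881152, 23622320128), (274877906944, 274877906944), (755914244096, 68719476736)] :=
  Pool.Agent.helper14.QF.covD_F chks_eq (.n 0 (.n 3 (.n 3 (.n 3 (.n 2 (.n 3 (.l 4) (.l 4)) (.n 3 (.n 0 (.l 4) (.l 4)) (.l 4))) (.n 2 (.l 4) (.n 0 (.l 4) (.l 4)))) (.n 3 (.n 2 (.l 4) (.l 4)) (.l 8))) (.n 3 (.n 2 (.l 4) (.l 4)) (.l 8))) (.n 3 (.n 3 (.n 2 (.n 3 (.n 0 (.l 4) (.l 4)) (.l 4)) (.n 3 (.n 0 (.l 4) (.l 4)) (.l 4))) (.n 3 (.l 8) (.l 8))) (.n 3 (.l 8) (.l 8))))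
    [(285380444160, 3523215360), (212600881152, 23622320128), (274877906944, 274877906944), (755914244096, 68719476736)] rfl (by decide +kernel)
theorem c1_m98_t1 : CovD 0 progs [(292426874880, 3523215360), (212600881152, 23622320128), (274877906944, 274877906944), (755914244096, 68719476736)] :=
  Pool.Agent.helper14.QF.covD_F chks_eq (.n 0 (.n 3 (.n 2 (.n 3 (.n 3 (.l 4) (.l 4)) (.l 4)) (.n 3 (.n 3 (.l 4) (.l 4)) (.l 4))) (.n 3 (.l 8) (.l 8))) (.n 3 (.n 3 (.n 3 (.n 0 (.l 8) (.l 8)) (.l 8)) (.n 0 (.l 8) (.l 8))) (.n 3 (.l 8) (.l 8))))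
    [(292426874880, 3523215360), (212600881152, 23622320128), (274877906944, 274877906944), (755914244096, 68719476736)] rfl (by decide +kernel)
end
mutual
theorem c1_m98_t3 : CovD 0 progs [(302996520960, 7046430720), (212600881152, 23622320128), (274877906944, 274877906944), (755914244096, 68719476736)] :=
  Pool.Agent.helper14.QF.covD_F chks_eq (.n 3 (.n 0 (.n 3 (.n 3 (.n 0 (.l 8) (.l 8)) (.l 8)) (.n 0 (.l 8) (.l 8))) (.n 3 (.n 0 (.l 8) (.l 8)) (.l 8))) (.n 3 (.n 0 (.l 8) (.l 8)) (.l 8)))
    [(302996520960, 7046430720), (212600881152, 23622320128), (274877906944, 274877906944), (755914244096, 68719476736)] rfl (by decide +kernel)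
theorem c1_m98_t5 : CovD 0 progs [(324135813120, 14092861440), (212600881152, 23622320128), (274877906944, 274877906944), (755914244096, 68719476736)] :=
  Pool.Agent.helper14.QF.covD_F chks_eq (.n 3 (.n 0 (.n 3 (.n 0 (.l 8) (.l 8)) (.l 8)) (.n 3 (.l 8) (.l 8))) (.n 0 (.n 3 (.l 8) (.l 8)) (.l 9)))
    [(324135813120, 14092861440), (212600881152, 23622320128), (274877906944, 274877906944), (755914244096, 68719476736)] rfl (by decide +kernel)
end
mutual
theorem c1_m98_t7 : CovD 0 progs [(310042951680, 28185722880), (259845521408, 23622320128), (274877906944, 274877906944), (755914244096, 68719476736)] :=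
  Pool.Agent.helper14.QF.covD_F chks_eq (.l 11)
    [(310042951680, 28185722880), (259845521408, 23622320128), (274877906944, 274877906944), (755914244096, 68719476736)] rfl (by decide +kernel)
theorem c1_m98_t9 : CovD 0 progs [(310042951680, 28185722880), (330712481792, 47244640256), (274877906944, 274877906944), (755914244096, 68719476736)] :=
  Pool.Agent.helper14.QF.covD_F chks_eq (.l 11)
    [(310042951680, 28185722880), (330712481792, 47244640256), (274877906944, 274877906944), (755914244096, 68719476736)] rfl (by decide +kernel)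
end
theorem c1_m98_t2 : CovD 0 progs [(288903659520, 7046430720), (212600881152, 23622320128), (274877906944, 274877906944), (755914244096, 68719476736)] :=
  covD_split 0 (by decide +kernel) c1_m98_t0 c1_m98_t1
theorem c1_m98_t4 : CovD 0 progs [(295950090240, 14092861440), (212600881152, 23622320128), (274877906944, 274877906944), (755914244096, 68719476736)] :=
  covD_split 0 (by decide +kernel) c1_m98_t2 c1_m98_t3
theorem c1_m98_t6 : CovD 0 progs [(310042951680, 28185722880), (212600881152, 23622320128), (274877906944, 274877906944), (755914244096, 68719476736)] :=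
  covD_split 0 (by decide +kernel) c1_m98_t4 c1_m98_t5
theorem c1_m98_t8 : CovD 0 progs [(310042951680, 28185722880), (236223201280, 47244640256), (274877906944, 274877906944), (755914244096, 68719476736)] :=
  covD_split 1 (by decide +kernel) c1_m98_t6 c1_m98_t7
theorem c1_m98 : CovD 0 progs [(310042951680, 28185722880), (283467841536, 94489280512), (274877906944, 274877906944), (755914244096, 68719476736)] :=
  covD_split 1 (by decide +kernel) c1_m98_t8 c1_m98_t9

end Pool.Agent.helper71.FJ.Crt.QMa
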