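import Pool.Agent.helper71.FJ.Crt.QMaP

/-!
Generated certificates.
-/

namespace Pool.Agent.helper71.FJ.Crt.QMa

open Pool.Agent.helper31.IA (Z Op)
open Pool.Agent.helper31.IC

theorem c1_m99 : CovD 0 progs [(310042951680, 28185722880), (283467841536, 94489280512), (274877906944, 274877906944), (962072674304, 137438953472)] :=
  Pool.Agent.helper14.QF.covD_F chks_eq (.n 3 (.n 3 (.n 0 (.n 1 (.n 1 (.n 3 (.n 0 (.l 8) (.l 8)) (.l 8)) (.l 11)) (.l 11)) (.n 1 (.n 2 (.l 8) (.l 9)) (.l 11))) (.n 1 (.n 0 (.n 3 (.l 9) (.l 0)) (.n 1 (.l 3) (.l 11))) (.l 11))) (.n 1 (.n 3 (.n 3 (.l 0) (.l 0)) (.l 0)) (.l 11)))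
    [(310042951680, 28185722880), (283467841536, 94489280512), (274877906944, 274877906944), (962072674304, 137438953472)] rfl (by decide +kernel)

end Pool.Agent.helper71.FJ.Crt.QMa
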