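import Pool.Agent.helper71.FJ.Crt.QMac1_0
import Pool.Agent.helper71.FJ.Crt.QMac1_1
import Pool.Agent.helper71.FJ.Crt.QMac1_2
import Pool.Agent.helper71.FJ.Crt.QMac1_3
import Pool.Agent.helper71.FJ.Crt.QMac1_4
import Pool.Agent.helper71.FJ.Crt.QMac1_5
import Pool.Agent.helper71.FJ.Crt.QMac1_6
import Pool.Agent.helper71.FJ.Crt.QMac1_7
import Pool.Agent.helper71.FJ.Crt.QMac1_8
import Pool.Agent.helper71.FJ.Crt.QMac1_9
import Pool.Agent.helper71.FJ.Crt.QMac1_10
import Pool.Agent.helper71.FJ.Crt.QMac1_11
import Pool.Agent.helper71.FJ.Crt.QMac1_12
import Pool.Agent.helper71.FJ.Crt.QMac1_13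
import Pool.Agent.helper71.FJ.Crt.QMac1_14
import Pool.Agent.helper71.FJ.Crt.QMac1_15
import Pool.Agent.helper71.FJ.Crt.QMac1_16
import Pool.Agent.helper71.FJ.Crt.QMac1_17
import Pool.Agent.helper71.FJ.Crt.QMac1_18
import Pool.Agent.helper71.FJ.Crt.QMac1_19
import Pool.Agent.helper71.FJ.Crt.QMac1_20
import Pool.Agent.helper71.FJ.Crt.QMac1_21
import Pool.Agent.helper71.FJ.Crt.QMac1_22
import Pool.Agent.helper71.FJ.Crt.QMac1_23
import Pool.Agent.helper71.FJ.Crt.QMac1_24
import Pool.Agent.helper71.FJ.Crt.QMac1_25
import Pool.Agent.helper71.FJ.Crt.QMac1_26
import Pool.Agent.helper71.FJ.Crt.QMac1_27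
import Pool.Agent.helper71.FJ.Crt.QMac1_28
import Pool.Agent.helper71.FJ.Crt.QMac1_29
import Pool.Agent.helper71.FJ.Crt.QMac1_30
import Pool.Agent.helper71.FJ.Crt.QMac1_31
import Pool.Agent.helper71.FJ.Crt.QMac1_32
import Pool.Agent.helper71.FJ.Crt.QMac1_33
import Pool.Agent.helper71.FJ.Crt.QMac1_34
import Pool.Agent.helper71.FJ.Crt.QMac1_35
import Pool.Agent.helper71.FJ.Crt.QMac1_36
import Pool.Agent.helper71.FJ.Crt.QMac1_37
import Pool.Agent.helper71.FJ.Crt.QMac1_38
import Pool.Agent.helper71.FJ.Crt.QMac1_39
import Pool.Agent.helper71.FJ.Crt.QMac1_40
import Pool.Agent.helper71.FJ.Crt.QMac1_41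
import Pool.Agent.helper71.FJ.Crt.QMac1_42
import Pool.Agent.helper71.FJ.Crt.QMac1_43
import Pool.Agent.helper71.FJ.Crt.QMac1_44
import Pool.Agent.helper71.FJ.Crt.QMac1_45
import Pool.Agent.helper71.FJ.Crt.QMac1_46
import Pool.Agent.helper71.FJ.Crt.QMac1_47
import Pool.Agent.helper71.FJ.Crt.QMac1_48
import Pool.Agent.helper71.FJ.Crt.QMac1_49
import Pool.Agent.helper71.FJ.Crt.QMac1_50
import Pool.Agent.helper71.FJ.Crt.QMac1_51
import Pool.Agent.helper71.FJ.Crt.QMac1_52
import Pool.Agent.helper71.FJ.Crt.QMac1_53
import Pool.Agent.helper71.FJ.Crt.QMac1_54
import Pool.Agent.helper71.FJ.Crt.QMac1_55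
import Pool.Agent.helper71.FJ.Crt.QMac1_56
import Pool.Agent.helper71.FJ.Crt.QMac1_57
import Pool.Agent.helper71.FJ.Crt.QMac1_58
import Pool.Agent.helper71.FJ.Crt.QMac1_59
import Pool.Agent.helper71.FJ.Crt.QMac1_60
import Pool.Agent.helper71.FJ.Crt.QMac1_61
import Pool.Agent.helper71.FJ.Crt.QMac1_62
import Pool.Agent.helper71.FJ.Crt.QMac1_63
import Pool.Agent.helper71.FJ.Crt.QMac1_64
import Pool.Agent.helper71.FJ.Crt.QMac1_65
import Pool.Agent.helper71.FJ.Crt.QMac1_66
import Pool.Agent.helper71.FJ.Crt.QMac1_67
import Pool.Agent.helper71.FJ.Crt.QMac1_68
import Pool.Agent.helper71.FJ.Crt.QMac1_69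
import Pool.Agent.helper71.FJ.Crt.QMac1_70
import Pool.Agent.helper71.FJ.Crt.QMac1_71
import Pool.Agent.helper71.FJ.Crt.QMac1_72
import Pool.Agent.helper71.FJ.Crt.QMac1_73
import Pool.Agent.helper71.FJ.Crt.QMac1_74
import Pool.Agent.helper71.FJ.Crt.QMac1_75
import Pool.Agent.helper71.FJ.Crt.QMac1_76
import Pool.Agent.helper71.FJ.Crt.QMac1_77
import Pool.Agent.helper71.FJ.Crt.QMac1_78
import Pool.Agent.helper71.FJ.Crt.QMac1_79
import Pool.Agent.helper71.FJ.Crt.QMac1_80
import Pool.Agent.helper71.FJ.Crt.QMac1_81
import Pool.Agent.helper71.FJ.Crt.QMac1_82
import Pool.Agent.helper71.FJ.Crt.QMac1_83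
import Pool.Agent.helper71.FJ.Crt.QMac1_84
import Pool.Agent.helper71.FJ.Crt.QMac1_85
import Pool.Agent.helper71.FJ.Crt.QMac1_86
import Pool.Agent.helper71.FJ.Crt.QMac1_87
import Pool.Agent.helper71.FJ.Crt.QMac1_88
import Pool.Agent.helper71.FJ.Crt.QMac1_89
import Pool.Agent.helper71.FJ.Crt.QMac1_90
import Pool.Agent.helper71.FJ.Crt.QMac1_91
import Pool.Agent.helper71.FJ.Crt.QMac1_92
import Pool.Agent.helper71.FJ.Crt.QMac1_93
import Pool.Agent.helper71.FJ.Crt.QMac1_94
import Pool.Agent.helper71.FJ.Crt.QMac1_95
import Pool.Agent.helper71.FJ.Crt.QMac1_96
import Pool.Agent.helper71.FJ.Crt.QMac1_97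
import Pool.Agent.helper71.FJ.Crt.QMac1_98
import Pool.Agent.helper71.FJ.Crt.QMac1_99
import Pool.Agent.helper71.FJ.Crt.QMac1_100
import Pool.Agent.helper71.FJ.Crt.QMac1_101
import Pool.Agent.helper71.FJ.Crt.QMac1_102
import Pool.Agent.helper71.FJ.Crt.QMac1_103
import Pool.Agent.helper71.FJ.Crt.QMac1_104
import Pool.Agent.helper71.FJ.Crt.QMac1_105
import Pool.Agent.helper71.FJ.Crt.QMac1_106
import Pool.Agent.helper71.FJ.Crt.QMac1_107
import Pool.Agent.helper71.FJ.Crt.QMac1_108
import Pool.Agent.helper71.FJ.Crt.QMac1_109
import Pool.Agent.helper71.FJ.Crt.QMac1_110
import Pool.Agent.helper71.FJ.Crt.QMac1_111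
import Pool.Agent.helper71.FJ.Crt.QMac1_112
import Pool.Agent.helper71.FJ.Crt.QMac1_113
import Pool.Agent.helper71.FJ.Crt.QMac1_114
import Pool.Agent.helper71.FJ.Crt.QMac1_115
import Pool.Agent.helper71.FJ.Crt.QMac1_116
import Pool.Agent.helper71.FJ.Crt.QMac1_117

/-!
Generated certificates, assembled.
-/

namespace Pool.Agent.helper71.FJ.Crt.QMa

open Pool.Agent.helper31.IA (Z Op)
open Pool.Agent.helper31.IC

theorem c1_top0 : CovD 0 progs [(324135813120, 14092861440), (94489280512, 94489280512), (274877906944, 274877906944), (343597383680, 68719476736)] :=
  covD_split 3 (by decide +kernel) c1_m3 c1_m4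
theorem c1_top1 : CovD 0 progs [(310042951680, 28185722880), (94489280512, 94489280512), (274877906944, 274877906944), (343597383680, 68719476736)] :=
  covD_split 0 (by decide +kernel) c1_m2 c1_top0
theorem c1_top2 : CovD 0 progs [(295950090240, 14092861440), (94489280512, 94489280512), (274877906944, 274877906944), (481036337152, 68719476736)] :=
  covD_split 3 (by decide +kernel) c1_m5 c1_m6
theorem c1_top3 : CovD 0 progs [(324135813120, 14092861440), (94489280512, 94489280512), (274877906944, 274877906944), (481036337152, 68719476736)] :=
  covD_split 3 (by decide +kernel) c1_m7 c1_m8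
theorem c1_top4 : CovD 0 progs [(310042951680, 28185722880), (94489280512, 94489280512), (274877906944, 274877906944), (481036337152, 68719476736)] :=
  covD_split 0 (by decide +kernel) c1_top2 c1_top3
theorem c1_top5 : CovD 0 progs [(310042951680, 28185722880), (94489280512, 94489280512), (274877906944, 274877906944), (412316860416, 137438953472)] :=
  covD_split 3 (by decide +kernel) c1_top1 c1_top4
theorem c1_top6 : CovD 0 progs [(310042951680, 28185722880), (94489280512, 94489280512), (274877906944, 274877906944), (274877906944, 274877906944)] :=
  covD_split 3 (by decide +kernel) c1_m1 c1_top5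
theorem c1_top7 : CovD 0 progs [(281857228800, 56371445760), (94489280512, 94489280512), (274877906944, 274877906944), (274877906944, 274877906944)] :=
  covD_split 0 (by decide +kernel) c1_m0 c1_top6
theorem c1_top8 : CovD 0 progs [(366414397440, 28185722880), (94489280512, 94489280512), (274877906944, 274877906944), (274877906944, 274877906944)] :=
  covD_split 3 (by decide +kernel) c1_m9 c1_m10
theorem c1_top9 : CovD 0 progs [(394600120320, 56371445760), (94489280512, 94489280512), (274877906944, 274877906944), (274877906944, 274877906944)] :=
  covD_split 0 (by decide +kernel) c1_top8 c1_m11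
theorem c1_top10 : CovD 0 progs [(338228674560, 112742891520), (94489280512, 94489280512), (274877906944, 274877906944), (274877906944, 274877906944)] :=
  covD_split 0 (by decide +kernel) c1_top7 c1_top9
theorem c1_top11 : CovD 0 progs [(310042951680, 28185722880), (94489280512, 94489280512), (824633720832, 274877906944), (137438953472, 137438953472)] :=
  covD_split 3 (by decide +kernel) c1_m13 c1_m14
theorem c1_top12 : CovD 0 progs [(324135813120, 14092861440), (94489280512, 94489280512), (824633720832, 274877906944), (377957122048, 34359738368)] :=
  covD_split 2 (by decide +kernel) c1_m17 c1_m18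
theorem c1_top13 : CovD 0 progs [(324135813120, 14092861440), (94489280512, 94489280512), (824633720832, 274877906944), (343597383680, 68719476736)] :=
  covD_split 3 (by decide +kernel) c1_m16 c1_top12
theorem c1_top14 : CovD 0 progs [(310042951680, 28185722880), (94489280512, 94489280512), (824633720832, 274877906944), (343597383680, 68719476736)] :=
  covD_split 0 (by decide +kernel) c1_m15 c1_top13
theorem c1_top15 : CovD 0 progs [(295950090240, 14092861440), (94489280512, 94489280512), (824633720832, 274877906944), (515396075520, 34359738368)] :=
  covD_split 2 (by decide +kernel) c1_m20 c1_m21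
theorem c1_top16 : CovD 0 progs [(295950090240, 14092861440), (94489280512, 94489280512), (824633720832, 274877906944), (481036337152, 68719476736)] :=
  covD_split 3 (by decide +kernel) c1_m19 c1_top15
theorem c1_top17 : CovD 0 progs [(324135813120, 14092861440), (94489280512, 94489280512), (824633720832, 274877906944), (446676598784, 34359738368)] :=
  covD_split 2 (by decide +kernel) c1_m22 c1_m23
theorem c1_top18 : CovD 0 progs [(324135813120, 14092861440), (94489280512, 94489280512), (824633720832, 274877906944), (481036337152, 68719476736)] :=
  covD_split 3 (by decide +kernel) c1_top17 c1_m24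
theorem c1_top19 : CovD 0 progs [(310042951680, 28185722880), (94489280512, 94489280512), (824633720832, 274877906944), (481036337152, 68719476736)] :=
  covD_split 0 (by decide +kernel) c1_top16 c1_top18
theorem c1_top20 : CovD 0 progs [(310042951680, 28185722880), (94489280512, 94489280512), (824633720832, 274877906944), (412316860416, 137438953472)] :=
  covD_split 3 (by decide +kernel) c1_top14 c1_top19
theorem c1_top21 : CovD 0 progs [(310042951680, 28185722880), (94489280512, 94489280512), (824633720832, 274877906944), (274877906944, 274877906944)] :=
  covD_split 3 (by decide +kernel) c1_top11 c1_top20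
theorem c1_top22 : CovD 0 progs [(281857228800, 56371445760), (94489280512, 94489280512), (824633720832, 274877906944), (274877906944, 274877906944)] :=
  covD_split 0 (by decide +kernel) c1_m12 c1_top21
theorem c1_top23 : CovD 0 progs [(352321536000, 14092861440), (94489280512, 94489280512), (824633720832, 274877906944), (206158430208, 68719476736)] :=
  covD_split 3 (by decide +kernel) c1_m26 c1_m27
theorem c1_top24 : CovD 0 progs [(366414397440, 28185722880), (94489280512, 94489280512), (824633720832, 274877906944), (206158430208, 68719476736)] :=
  covD_split 0 (by decide +kernel) c1_top23 c1_m28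
theorem c1_top25 : CovD 0 progs [(366414397440, 28185722880), (94489280512, 94489280512), (824633720832, 274877906944), (137438953472, 137438953472)] :=
  covD_split 3 (by decide +kernel) c1_m25 c1_top24
theorem c1_top26 : CovD 0 progs [(352321536000, 14092861440), (94489280512, 94489280512), (824633720832, 274877906944), (343597383680, 68719476736)] :=
  covD_split 3 (by decide +kernel) c1_m29 c1_m30
theorem c1_top27 : CovD 0 progs [(366414397440, 28185722880), (94489280512, 94489280512), (824633720832, 274877906944), (343597383680, 68719476736)] :=
  covD_split 0 (by decide +kernel) c1_top26 c1_m31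
theorem c1_top28 : CovD 0 progs [(366414397440, 28185722880), (94489280512, 94489280512), (824633720832, 274877906944), (412316860416, 137438953472)] :=
  covD_split 3 (by decide +kernel) c1_top27 c1_m32
theorem c1_top29 : CovD 0 progs [(366414397440, 28185722880), (94489280512, 94489280512), (824633720832, 274877906944), (274877906944, 274877906944)] :=
  covD_split 3 (by decide +kernel) c1_top25 c1_top28
theorem c1_top30 : CovD 0 progs [(394600120320, 56371445760), (94489280512, 94489280512), (824633720832, 274877906944), (274877906944, 274877906944)] :=
  covD_split 0 (by decide +kernel) c1_top29 c1_m33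
theorem c1_top31 : CovD 0 progs [(338228674560, 112742891520), (94489280512, 94489280512), (824633720832, 274877906944), (274877906944, 274877906944)] :=
  covD_split 0 (by decide +kernel) c1_top22 c1_top30
theorem c1_top32 : CovD 0 progs [(338228674560, 112742891520), (94489280512, 94489280512), (549755813888, 549755813888), (274877906944, 274877906944)] :=
  covD_split 2 (by decide +kernel) c1_top10 c1_top31
theorem c1_top33 : CovD 0 progs [(267764367360, 14092861440), (94489280512, 94489280512), (412316860416, 137438953472), (652835028992, 34359738368)] :=
  covD_split 1 (by decide +kernel) c1_m37 c1_m38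
theorem c1_top34 : CovD 0 progs [(267764367360, 14092861440), (94489280512, 94489280512), (274877906944, 274877906944), (652835028992, 34359738368)] :=
  covD_split 2 (by decide +kernel) c1_m36 c1_top33
theorem c1_top35 : CovD 0 progs [(267764367360, 14092861440), (94489280512, 94489280512), (274877906944, 274877906944), (618475290624, 68719476736)] :=
  covD_split 3 (by decide +kernel) c1_m35 c1_top34
theorem c1_top36 : CovD 0 progs [(253671505920, 28185722880), (94489280512, 94489280512), (274877906944, 274877906944), (618475290624, 68719476736)] :=
  covD_split 0 (by decide +kernel) c1_m34 c1_top35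
theorem c1_top37 : CovD 0 progs [(239578644480, 14092861440), (141733920768, 47244640256), (137438953472, 137438953472), (790273982464, 34359738368)] :=
  covD_split 0 (by decide +kernel) c1_m41 c1_m42
theorem c1_top38 : CovD 0 progs [(239578644480, 14092861440), (94489280512, 94489280512), (137438953472, 137438953472), (790273982464, 34359738368)] :=
  covD_split 1 (by decide +kernel) c1_m40 c1_top37
theorem c1_top39 : CovD 0 progs [(239578644480, 14092861440), (94489280512, 94489280512), (412316860416, 137438953472), (790273982464, 34359738368)] :=
  covD_split 1 (by decide +kernel) c1_m43 c1_m44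
theorem c1_top40 : CovD 0 progs [(239578644480, 14092861440), (94489280512, 94489280512), (274877906944, 274877906944), (790273982464, 34359738368)] :=
  covD_split 2 (by decide +kernel) c1_top38 c1_top39
theorem c1_top41 : CovD 0 progs [(239578644480, 14092861440), (94489280512, 94489280512), (274877906944, 274877906944), (755914244096, 68719476736)] :=
  covD_split 3 (by decide +kernel) c1_m39 c1_top40
theorem c1_top42 : CovD 0 progs [(267764367360, 14092861440), (94489280512, 94489280512), (137438953472, 137438953472), (721554505728, 34359738368)] :=
  covD_split 1 (by decide +kernel) c1_m45 c1_m46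
theorem c1_top43 : CovD 0 progs [(267764367360, 14092861440), (94489280512, 94489280512), (412316860416, 137438953472), (721554505728, 34359738368)] :=
  covD_split 1 (by decide +kernel) c1_m47 c1_m48
theorem c1_top44 : CovD 0 progs [(267764367360, 14092861440), (94489280512, 94489280512), (274877906944, 274877906944), (721554505728, 34359738368)] :=
  covD_split 2 (by decide +kernel) c1_top42 c1_top43
theorem c1_top45 : CovD 0 progs [(267764367360, 14092861440), (94489280512, 94489280512), (274877906944, 274877906944), (755914244096, 68719476736)] :=
  covD_split 3 (by decide +kernel) c1_top44 c1_m49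
theorem c1_top46 : CovD 0 progs [(253671505920, 28185722880), (94489280512, 94489280512), (274877906944, 274877906944), (755914244096, 68719476736)] :=
  covD_split 0 (by decide +kernel) c1_top41 c1_top45
theorem c1_top47 : CovD 0 progs [(253671505920, 28185722880), (94489280512, 94489280512), (274877906944, 274877906944), (687194767360, 137438953472)] :=
  covD_split 3 (by decide +kernel) c1_top36 c1_top46
theorem c1_top48 : CovD 0 progs [(253671505920, 28185722880), (94489280512, 94489280512), (274877906944, 274877906944), (824633720832, 274877906944)] :=
  covD_split 3 (by decide +kernel) c1_top47 c1_m50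
theorem c1_top49 : CovD 0 progs [(295950090240, 14092861440), (94489280512, 94489280512), (274877906944, 274877906944), (584115552256, 34359738368)] :=
  covD_split 2 (by decide +kernel) c1_m51 c1_m52
theorem c1_top50 : CovD 0 progs [(295950090240, 14092861440), (94489280512, 94489280512), (274877906944, 274877906944), (618475290624, 68719476736)] :=
  covD_split 3 (by decide +kernel) c1_top49 c1_m53
theorem c1_top51 : CovD 0 progs [(310042951680, 28185722880), (94489280512, 94489280512), (274877906944, 274877906944), (618475290624, 68719476736)] :=
  covD_split 0 (by decide +kernel) c1_top50 c1_m54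
theorem c1_top52 : CovD 0 progs [(310042951680, 28185722880), (94489280512, 94489280512), (274877906944, 274877906944), (687194767360, 137438953472)] :=
  covD_split 3 (by decide +kernel) c1_top51 c1_m55
theorem c1_top53 : CovD 0 progs [(310042951680, 28185722880), (94489280512, 94489280512), (274877906944, 274877906944), (824633720832, 274877906944)] :=
  covD_split 3 (by decide +kernel) c1_top52 c1_m56
theorem c1_top54 : CovD 0 progs [(281857228800, 56371445760), (94489280512, 94489280512), (274877906944, 274877906944), (824633720832, 274877906944)] :=
  covD_split 0 (by decide +kernel) c1_top48 c1_top53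
theorem c1_top55 : CovD 0 progs [(338228674560, 112742891520), (94489280512, 94489280512), (274877906944, 274877906944), (824633720832, 274877906944)] :=
  covD_split 0 (by decide +kernel) c1_top54 c1_m57
theorem c1_top56 : CovD 0 progs [(253671505920, 28185722880), (94489280512, 94489280512), (824633720832, 274877906944), (618475290624, 68719476736)] :=
  covD_split 0 (by decide +kernel) c1_m58 c1_m59
theorem c1_top57 : CovD 0 progs [(253671505920, 28185722880), (94489280512, 94489280512), (824633720832, 274877906944), (687194767360, 137438953472)] :=
  covD_split 3 (by decide +kernel) c1_top56 c1_m60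
theorem c1_top58 : CovD 0 progs [(253671505920, 28185722880), (94489280512, 94489280512), (824633720832, 274877906944), (824633720832, 274877906944)] :=
  covD_split 3 (by decide +kernel) c1_top57 c1_m61
theorem c1_top59 : CovD 0 progs [(295950090240, 14092861440), (94489280512, 94489280512), (687194767360, 137438953472), (584115552256, 34359738368)] :=
  covD_split 1 (by decide +kernel) c1_m62 c1_m63
theorem c1_top60 : CovD 0 progs [(295950090240, 14092861440), (94489280512, 94489280512), (824633720832, 274877906944), (584115552256, 34359738368)] :=
  covD_split 2 (by decide +kernel) c1_top59 c1_m64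
theorem c1_top61 : CovD 0 progs [(295950090240, 14092861440), (94489280512, 94489280512), (824633720832, 274877906944), (618475290624, 68719476736)] :=
  covD_split 3 (by decide +kernel) c1_top60 c1_m65
theorem c1_top62 : CovD 0 progs [(310042951680, 28185722880), (94489280512, 94489280512), (824633720832, 274877906944), (618475290624, 68719476736)] :=
  covD_split 0 (by decide +kernel) c1_top61 c1_m66
theorem c1_top63 : CovD 0 progs [(310042951680, 28185722880), (94489280512, 94489280512), (824633720832, 274877906944), (687194767360, 137438953472)] :=
  covD_split 3 (by decide +kernel) c1_top62 c1_m67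
theorem c1_top64 : CovD 0 progs [(310042951680, 28185722880), (94489280512, 94489280512), (824633720832, 274877906944), (824633720832, 274877906944)] :=
  covD_split 3 (by decide +kernel) c1_top63 c1_m68
theorem c1_top65 : CovD 0 progs [(281857228800, 56371445760), (94489280512, 94489280512), (824633720832, 274877906944), (824633720832, 274877906944)] :=
  covD_split 0 (by decide +kernel) c1_top58 c1_top64
theorem c1_top66 : CovD 0 progs [(338228674560, 112742891520), (94489280512, 94489280512), (824633720832, 274877906944), (824633720832, 274877906944)] :=
  covD_split 0 (by decide +kernel) c1_top65 c1_m69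
theorem c1_top67 : CovD 0 progs [(338228674560, 112742891520), (94489280512, 94489280512), (549755813888, 549755813888), (824633720832, 274877906944)] :=
  covD_split 2 (by decide +kernel) c1_top55 c1_top66
theorem c1_top68 : CovD 0 progs [(338228674560, 112742891520), (94489280512, 94489280512), (549755813888, 549755813888), (549755813888, 549755813888)] :=
  covD_split 3 (by decide +kernel) c1_top32 c1_top67
theorem c1_top69 : CovD 0 progs [(310042951680, 28185722880), (283467841536, 94489280512), (274877906944, 274877906944), (481036337152, 68719476736)] :=
  covD_split 0 (by decide +kernel) c1_m73 c1_m74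
theorem c1_top70 : CovD 0 progs [(310042951680, 28185722880), (283467841536, 94489280512), (274877906944, 274877906944), (412316860416, 137438953472)] :=
  covD_split 3 (by decide +kernel) c1_m72 c1_top69
theorem c1_top71 : CovD 0 progs [(310042951680, 28185722880), (283467841536, 94489280512), (274877906944, 274877906944), (274877906944, 274877906944)] :=
  covD_split 3 (by decide +kernel) c1_m71 c1_top70
theorem c1_top72 : CovD 0 progs [(281857228800, 56371445760), (283467841536, 94489280512), (274877906944, 274877906944), (274877906944, 274877906944)] :=
  covD_split 0 (by decide +kernel) c1_m70 c1_top71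
theorem c1_top73 : CovD 0 progs [(338228674560, 112742891520), (283467841536, 94489280512), (274877906944, 274877906944), (274877906944, 274877906944)] :=
  covD_split 0 (by decide +kernel) c1_top72 c1_m75
theorem c1_top74 : CovD 0 progs [(310042951680, 28185722880), (283467841536, 94489280512), (824633720832, 274877906944), (481036337152, 68719476736)] :=
  covD_split 0 (by decide +kernel) c1_m79 c1_m80
theorem c1_top75 : CovD 0 progs [(310042951680, 28185722880), (283467841536, 94489280512), (824633720832, 274877906944), (412316860416, 137438953472)] :=
  covD_split 3 (by decide +kernel) c1_m78 c1_top74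
theorem c1_top76 : CovD 0 progs [(310042951680, 28185722880), (283467841536, 94489280512), (824633720832, 274877906944), (274877906944, 274877906944)] :=
  covD_split 3 (by decide +kernel) c1_m77 c1_top75
theorem c1_top77 : CovD 0 progs [(281857228800, 56371445760), (283467841536, 94489280512), (824633720832, 274877906944), (274877906944, 274877906944)] :=
  covD_split 0 (by decide +kernel) c1_m76 c1_top76
theorem c1_top78 : CovD 0 progs [(366414397440, 28185722880), (283467841536, 94489280512), (824633720832, 274877906944), (274877906944, 274877906944)] :=
  covD_split 3 (by decide +kernel) c1_m81 c1_m82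
theorem c1_top79 : CovD 0 progs [(422785843200, 28185722880), (283467841536, 94489280512), (824633720832, 274877906944), (274877906944, 274877906944)] :=
  covD_split 3 (by decide +kernel) c1_m83 c1_m84
theorem c1_top80 : CovD 0 progs [(394600120320, 56371445760), (283467841536, 94489280512), (824633720832, 274877906944), (274877906944, 274877906944)] :=
  covD_split 0 (by decide +kernel) c1_top78 c1_top79
theorem c1_top81 : CovD 0 progs [(338228674560, 112742891520), (283467841536, 94489280512), (824633720832, 274877906944), (274877906944, 274877906944)] :=
  covD_split 0 (by decide +kernel) c1_top77 c1_top80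
theorem c1_top82 : CovD 0 progs [(338228674560, 112742891520), (283467841536, 94489280512), (549755813888, 549755813888), (274877906944, 274877906944)] :=
  covD_split 2 (by decide +kernel) c1_top73 c1_top81
theorem c1_top83 : CovD 0 progs [(239578644480, 14092861440), (236223201280, 47244640256), (412316860416, 137438953472), (790273982464, 34359738368)] :=
  covD_split 0 (by decide +kernel) c1_m88 c1_m89
theorem c1_top84 : CovD 0 progs [(239578644480, 14092861440), (283467841536, 94489280512), (412316860416, 137438953472), (790273982464, 34359738368)] :=
  covD_split 1 (by decide +kernel) c1_top83 c1_m90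
theorem c1_top85 : CovD 0 progs [(239578644480, 14092861440), (283467841536, 94489280512), (274877906944, 274877906944), (790273982464, 34359738368)] :=
  covD_split 2 (by decide +kernel) c1_m87 c1_top84
theorem c1_top86 : CovD 0 progs [(239578644480, 14092861440), (283467841536, 94489280512), (274877906944, 274877906944), (755914244096, 68719476736)] :=
  covD_split 3 (by decide +kernel) c1_m86 c1_top85
theorem c1_top87 : CovD 0 progs [(267764367360, 14092861440), (283467841536, 94489280512), (274877906944, 274877906944), (721554505728, 34359738368)] :=
  covD_split 2 (by decide +kernel) c1_m91 c1_m92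
theorem c1_top88 : CovD 0 progs [(267764367360, 14092861440), (283467841536, 94489280512), (274877906944, 274877906944), (755914244096, 68719476736)] :=
  covD_split 3 (by decide +kernel) c1_top87 c1_m93
theorem c1_top89 : CovD 0 progs [(253671505920, 28185722880), (283467841536, 94489280512), (274877906944, 274877906944), (755914244096, 68719476736)] :=
  covD_split 0 (by decide +kernel) c1_top86 c1_top88
theorem c1_top90 : CovD 0 progs [(253671505920, 28185722880), (283467841536, 94489280512), (274877906944, 274877906944), (687194767360, 137438953472)] :=
  covD_split 3 (by decide +kernel) c1_m85 c1_top89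
theorem c1_top91 : CovD 0 progs [(253671505920, 28185722880), (283467841536, 94489280512), (274877906944, 274877906944), (824633720832, 274877906944)] :=
  covD_split 3 (by decide +kernel) c1_top90 c1_m94
theorem c1_top92 : CovD 0 progs [(295950090240, 14092861440), (283467841536, 94489280512), (274877906944, 274877906944), (618475290624, 68719476736)] :=
  covD_split 3 (by decide +kernel) c1_m95 c1_m96
theorem c1_top93 : CovD 0 progs [(310042951680, 28185722880), (283467841536, 94489280512), (274877906944, 274877906944), (618475290624, 68719476736)] :=
  covD_split 0 (by decide +kernel) c1_top92 c1_m97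
theorem c1_top94 : CovD 0 progs [(310042951680, 28185722880), (283467841536, 94489280512), (274877906944, 274877906944), (687194767360, 137438953472)] :=
  covD_split 3 (by decide +kernel) c1_top93 c1_m98
theorem c1_top95 : CovD 0 progs [(310042951680, 28185722880), (283467841536, 94489280512), (274877906944, 274877906944), (824633720832, 274877906944)] :=
  covD_split 3 (by decide +kernel) c1_top94 c1_m99
theorem c1_top96 : CovD 0 progs [(281857228800, 56371445760), (283467841536, 94489280512), (274877906944, 274877906944), (824633720832, 274877906944)] :=
  covD_split 0 (by decide +kernel) c1_top91 c1_top95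
theorem c1_top97 : CovD 0 progs [(338228674560, 112742891520), (283467841536, 94489280512), (274877906944, 274877906944), (824633720832, 274877906944)] :=
  covD_split 0 (by decide +kernel) c1_top96 c1_m100
theorem c1_top98 : CovD 0 progs [(253671505920, 28185722880), (283467841536, 94489280512), (824633720832, 274877906944), (687194767360, 137438953472)] :=
  covD_split 3 (by decide +kernel) c1_m101 c1_m102
theorem c1_top99 : CovD 0 progs [(253671505920, 28185722880), (283467841536, 94489280512), (824633720832, 274877906944), (824633720832, 274877906944)] :=
  covD_split 3 (by decide +kernel) c1_top98 c1_m103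
theorem c1_top100 : CovD 0 progs [(295950090240, 14092861440), (283467841536, 94489280512), (824633720832, 274877906944), (618475290624, 68719476736)] :=
  covD_split 3 (by decide +kernel) c1_m104 c1_m105
theorem c1_top101 : CovD 0 progs [(310042951680, 28185722880), (283467841536, 94489280512), (824633720832, 274877906944), (618475290624, 68719476736)] :=
  covD_split 0 (by decide +kernel) c1_top100 c1_m106
theorem c1_top102 : CovD 0 progs [(310042951680, 28185722880), (283467841536, 94489280512), (824633720832, 274877906944), (687194767360, 137438953472)] :=
  covD_split 3 (by decide +kernel) c1_top101 c1_m107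
theorem c1_top103 : CovD 0 progs [(310042951680, 28185722880), (283467841536, 94489280512), (824633720832, 274877906944), (824633720832, 274877906944)] :=
  covD_split 3 (by decide +kernel) c1_top102 c1_m108
theorem c1_top104 : CovD 0 progs [(281857228800, 56371445760), (283467841536, 94489280512), (824633720832, 274877906944), (824633720832, 274877906944)] :=
  covD_split 0 (by decide +kernel) c1_top99 c1_top103
theorem c1_top105 : CovD 0 progs [(338228674560, 112742891520), (283467841536, 94489280512), (824633720832, 274877906944), (824633720832, 274877906944)] :=
  covD_split 0 (by decide +kernel) c1_top104 c1_m109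
theorem c1_top106 : CovD 0 progs [(338228674560, 112742891520), (283467841536, 94489280512), (549755813888, 549755813888), (824633720832, 274877906944)] :=
  covD_split 2 (by decide +kernel) c1_top97 c1_top105
theorem c1_top107 : CovD 0 progs [(338228674560, 112742891520), (283467841536, 94489280512), (549755813888, 549755813888), (549755813888, 549755813888)] :=
  covD_split 3 (by decide +kernel) c1_top82 c1_top106
theorem c1_top108 : CovD 0 progs [(338228674560, 112742891520), (188978561024, 188978561024), (549755813888, 549755813888), (549755813888, 549755813888)] :=
  covD_split 1 (by decide +kernel) c1_top68 c1_top107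
theorem c1_top109 : CovD 0 progs [(338228674560, 112742891520), (94489280512, 94489280512), (1374389534720, 274877906944), (274877906944, 274877906944)] :=
  covD_split 0 (by decide +kernel) c1_m110 c1_m111
theorem c1_top110 : CovD 0 progs [(338228674560, 112742891520), (94489280512, 94489280512), (1649267441664, 549755813888), (274877906944, 274877906944)] :=
  covD_split 2 (by decide +kernel) c1_top109 c1_m112
theorem c1_top111 : CovD 0 progs [(338228674560, 112742891520), (94489280512, 94489280512), (1649267441664, 549755813888), (549755813888, 549755813888)] :=
  covD_split 3 (by decide +kernel) c1_top110 c1_m113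
theorem c1_top112 : CovD 0 progs [(338228674560, 112742891520), (283467841536, 94489280512), (1374389534720, 274877906944), (274877906944, 274877906944)] :=
  covD_split 0 (by decide +kernel) c1_m114 c1_m115
theorem c1_top113 : CovD 0 progs [(338228674560, 112742891520), (283467841536, 94489280512), (1649267441664, 549755813888), (274877906944, 274877906944)] :=
  covD_split 2 (by decide +kernel) c1_top112 c1_m116
theorem c1_top114 : CovD 0 progs [(338228674560, 112742891520), (283467841536, 94489280512), (1649267441664, 549755813888), (549755813888, 549755813888)] :=
  covD_split 3 (by decide +kernel) c1_top113 c1_m117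
theorem c1_top115 : CovD 0 progs [(338228674560, 112742891520), (188978561024, 188978561024), (1649267441664, 549755813888), (549755813888, 549755813888)] :=
  covD_split 1 (by decide +kernel) c1_top111 c1_top114
theorem c1_top116 : CovD 0 progs [(338228674560, 112742891520), (188978561024, 188978561024), (1099511627776, 1099511627776), (549755813888, 549755813888)] :=
  covD_split 2 (by decide +kernel) c1_top108 c1_top115

theorem c1_all : CovD 0 progs [(338228674560, 112742891520), (188978561024, 188978561024), (1099511627776, 1099511627776), (549755813888, 549755813888)] := c1_top116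

end Pool.Agent.helper71.FJ.Crt.QMa
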