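import Pool.Agent.helper71.FJ.Crt.QMbP

/-!
Generated certificates.
-/

namespace Pool.Agent.helper71.FJ.Crt.QMb

open Pool.Agent.helper31.IA (Z Op)
open Pool.Agent.helper31.IC

mutual
theorem c1_m1_t0 : CovD 0 progs [(56371445760, 56371445760), (2061584302080, 962072674304), (137438953472, 137438953472), (687194767360, 137438953472)] :=
  Pool.Agent.helper14.QF.covD_F chks_eq (.n 0 (.l 8) (.n 0 (.l 8) (.n 3 (.l 8) (.n 1 (.l 4) (.n 0 (.l 4) (.l 4))))))
    [(56371445760, 56371445760), (2061584302080, 962072674304), (137438953472, 137438953472), (687194767360, 137438953472)] rfl (by decide +kernel)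
theorem c1_m1_t1 : CovD 0 progs [(169114337280, 56371445760), (2061584302080, 962072674304), (137438953472, 137438953472), (687194767360, 137438953472)] :=
  Pool.Agent.helper14.QF.covD_F chks_eq (.n 0 (.n 0 (.n 3 (.n 2 (.l 8) (.l 8)) (.n 1 (.l 4) (.n 1 (.l 4) (.l 4)))) (.n 1 (.n 1 (.l 1) (.l 4)) (.n 1 (.n 0 (.l 4) (.l 4)) (.n 2 (.l 4) (.l 4))))) (.n 0 (.n 1 (.n 1 (.l 1) (.l 4)) (.n 2 (.l 4) (.n 1 (.l 4) (.l 4)))) (.n 1 (.n 1 (.l 1) (.l 4)) (.n 2 (.l 4) (.n 1 (.l 4) (.l 5))))))
    [(169114337280, 56371445760), (2061584302080, 962072674304), (137438953472, 137438953472), (687194767360, 137438953472)] rfl (by decide +kernel)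
end
mutual
theorem c1_m1_t3 : CovD 0 progs [(56371445760, 56371445760), (2061584302080, 962072674304), (137438953472, 137438953472), (962072674304, 137438953472)] :=
  Pool.Agent.helper14.QF.covD_F chks_eq (.n 1 (.n 0 (.l 4) (.n 0 (.l 4) (.l 4))) (.n 2 (.n 0 (.l 4) (.n 0 (.l 4) (.l 4))) (.n 0 (.l 4) (.n 0 (.l 4) (.l 4)))))
    [(56371445760, 56371445760), (2061584302080, 962072674304), (137438953472, 137438953472), (962072674304, 137438953472)] rfl (by decide +kernel)
theorem c1_m1_t4 : CovD 0 progs [(169114337280, 56371445760), (2061584302080, 962072674304), (137438953472, 137438953472), (962072674304, 137438953472)] :=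
  Pool.Agent.helper14.QF.covD_F chks_eq (.n 0 (.n 1 (.n 1 (.l 1) (.n 0 (.l 4) (.l 4))) (.n 0 (.n 2 (.l 4) (.n 0 (.l 4) (.l 4))) (.n 2 (.l 4) (.n 1 (.l 4) (.l 4))))) (.n 1 (.n 1 (.l 4) (.n 0 (.l 4) (.l 4))) (.n 0 (.n 2 (.l 4) (.n 1 (.l 4) (.l 4))) (.n 2 (.l 4) (.n 1 (.l 4) (.n 0 (.l 4) (.l 5)))))))
    [(169114337280, 56371445760), (2061584302080, 962072674304), (137438953472, 137438953472), (962072674304, 137438953472)] rfl (by decide +kernel)
end
mutual
theorem c1_m1_t7 : CovD 0 progs [(56371445760, 56371445760), (3504693313536, 481036337152), (137438953472, 137438953472), (687194767360, 137438953472)] :=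
  Pool.Agent.helper14.QF.covD_F chks_eq (.n 0 (.l 8) (.n 0 (.n 2 (.l 8) (.l 8)) (.n 3 (.l 8) (.n 2 (.l 4) (.n 1 (.l 4) (.l 4))))))
    [(56371445760, 56371445760), (3504693313536, 481036337152), (137438953472, 137438953472), (687194767360, 137438953472)] rfl (by decide +kernel)
theorem c1_m1_t8 : CovD 0 progs [(140928614400, 28185722880), (3504693313536, 481036337152), (137438953472, 137438953472), (687194767360, 137438953472)] :=
  Pool.Agent.helper14.QF.covD_F chks_eq (.n 0 (.n 2 (.n 0 (.l 4) (.l 4)) (.n 3 (.l 8) (.n 1 (.l 4) (.n 0 (.l 4) (.l 4))))) (.n 1 (.n 2 (.l 4) (.n 0 (.l 4) (.l 4))) (.n 2 (.l 4) (.n 2 (.l 4) (.n 0 (.l 4) (.l 4))))))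
    [(140928614400, 28185722880), (3504693313536, 481036337152), (137438953472, 137438953472), (687194767360, 137438953472)] rfl (by decide +kernel)
end
mutual
theorem c1_m1_t9 : CovD 0 progs [(197300060160, 28185722880), (3504693313536, 481036337152), (137438953472, 137438953472), (687194767360, 137438953472)] :=
  Pool.Agent.helper14.QF.covD_F chks_eq (.n 0 (.n 1 (.n 2 (.l 4) (.n 2 (.l 4) (.l 4))) (.n 2 (.l 4) (.n 2 (.l 4) (.n 0 (.l 5) (.n 0 (.l 5) (.l 5)))))) (.n 1 (.n 2 (.l 4) (.n 1 (.l 5) (.n 2 (.l 4) (.l 5)))) (.n 2 (.l 4) (.n 2 (.n 0 (.l 4) (.l 4)) (.n 2 (.l 5) (.l 9))))))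
    [(197300060160, 28185722880), (3504693313536, 481036337152), (137438953472, 137438953472), (687194767360, 137438953472)] rfl (by decide +kernel)
theorem c1_m1_t12 : CovD 0 progs [(56371445760, 56371445760), (3504693313536, 481036337152), (137438953472, 137438953472), (962072674304, 137438953472)] :=
  Pool.Agent.helper14.QF.covD_F chks_eq (.n 0 (.n 2 (.l 4) (.n 0 (.l 4) (.n 1 (.l 4) (.l 4)))) (.n 0 (.n 2 (.l 4) (.n 1 (.l 4) (.n 0 (.l 4) (.l 4)))) (.n 2 (.l 4) (.n 1 (.l 4) (.n 0 (.l 4) (.l 4))))))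
    [(56371445760, 56371445760), (3504693313536, 481036337152), (137438953472, 137438953472), (962072674304, 137438953472)] rfl (by decide +kernel)
end
mutual
theorem c1_m1_t13 : CovD 0 progs [(140928614400, 28185722880), (3504693313536, 481036337152), (137438953472, 137438953472), (962072674304, 137438953472)] :=
  Pool.Agent.helper14.QF.covD_F chks_eq (.n 0 (.n 2 (.l 4) (.n 1 (.n 0 (.l 4) (.l 4)) (.n 1 (.l 4) (.n 0 (.l 4) (.l 4))))) (.n 1 (.n 2 (.l 4) (.n 1 (.l 4) (.l 4))) (.n 2 (.l 4) (.n 2 (.l 4) (.n 1 (.l 4) (.l 5))))))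
    [(140928614400, 28185722880), (3504693313536, 481036337152), (137438953472, 137438953472), (962072674304, 137438953472)] rfl (by decide +kernel)
theorem c1_m1_t14 : CovD 0 progs [(197300060160, 28185722880), (3504693313536, 481036337152), (137438953472, 137438953472), (962072674304, 137438953472)] :=
  Pool.Agent.helper14.QF.covD_F chks_eq (.n 1 (.n 2 (.l 4) (.n 1 (.n 2 (.l 4) (.l 5)) (.n 2 (.l 4) (.n 0 (.l 4) (.l 5))))) (.n 2 (.n 2 (.l 4) (.l 4)) (.n 0 (.n 2 (.l 4) (.n 1 (.l 5) (.n 0 (.l 5) (.l 5)))) (.n 2 (.n 0 (.l 3) (.l 3)) (.n 2 (.n 0 (.l 3) (.l 3)) (.l 9))))))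
    [(197300060160, 28185722880), (3504693313536, 481036337152), (137438953472, 137438953472), (962072674304, 137438953472)] rfl (by decide +kernel)
end
mutual
theorem c1_m1_t18 : CovD 0 progs [(56371445760, 56371445760), (4226247819264, 240518168576), (137438953472, 137438953472), (687194767360, 137438953472)] :=
  Pool.Agent.helper14.QF.covD_F chks_eq (.n 0 (.l 8) (.n 0 (.n 2 (.l 8) (.l 8)) (.n 3 (.l 8) (.n 2 (.l 4) (.n 0 (.l 4) (.l 4))))))
    [(56371445760, 56371445760), (4226247819264, 240518168576), (137438953472, 137438953472), (687194767360, 137438953472)] rfl (by decide +kernel)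
theorem c1_m1_t19 : CovD 0 progs [(169114337280, 56371445760), (4226247819264, 240518168576), (137438953472, 137438953472), (687194767360, 137438953472)] :=
  Pool.Agent.helper14.QF.covD_F chks_eq (.n 0 (.n 0 (.n 2 (.l 4) (.n 2 (.l 4) (.n 0 (.l 4) (.l 4)))) (.n 2 (.l 4) (.n 2 (.l 4) (.n 2 (.l 4) (.n 0 (.l 5) (.l 5)))))) (.n 2 (.n 2 (.l 4) (.n 0 (.l 4) (.l 4))) (.n 0 (.n 2 (.n 0 (.l 4) (.l 4)) (.n 2 (.n 0 (.l 4) (.l 5)) (.l 9))) (.n 1 (.n 2 (.l 4) (.l 9)) (.n 2 (.n 0 (.l 4) (.l 3)) (.l 9))))))
    [(169114337280, 56371445760), (4226247819264, 240518168576), (137438953472, 137438953472), (687194767360, 137438953472)] rfl (by decide +kernel)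
end
mutual
theorem c1_m1_t21 : CovD 0 progs [(56371445760, 56371445760), (4226247819264, 240518168576), (137438953472, 137438953472), (962072674304, 137438953472)] :=
  Pool.Agent.helper14.QF.covD_F chks_eq (.n 0 (.n 0 (.n 2 (.l 4) (.l 4)) (.n 2 (.l 4) (.l 4))) (.n 0 (.n 2 (.l 4) (.n 2 (.l 4) (.l 4))) (.n 2 (.l 4) (.n 2 (.l 4) (.n 0 (.l 4) (.l 4))))))
    [(56371445760, 56371445760), (4226247819264, 240518168576), (137438953472, 137438953472), (962072674304, 137438953472)] rfl (by decide +kernel)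
theorem c1_m1_t22 : CovD 0 progs [(140928614400, 28185722880), (4226247819264, 240518168576), (137438953472, 137438953472), (962072674304, 137438953472)] :=
  Pool.Agent.helper14.QF.covD_F chks_eq (.n 0 (.n 2 (.l 4) (.n 2 (.l 4) (.n 1 (.l 4) (.n 0 (.l 4) (.l 5))))) (.n 2 (.l 4) (.n 0 (.n 2 (.l 4) (.n 1 (.l 5) (.l 5))) (.n 2 (.l 4) (.n 2 (.l 4) (.l 9))))))
    [(140928614400, 28185722880), (4226247819264, 240518168576), (137438953472, 137438953472), (962072674304, 137438953472)] rfl (by decide +kernel)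
end
mutual
theorem c1_m1_t23 : CovD 0 progs [(197300060160, 28185722880), (4226247819264, 240518168576), (137438953472, 137438953472), (962072674304, 137438953472)] :=
  Pool.Agent.helper14.QF.covD_F chks_eq (.n 2 (.n 2 (.l 4) (.n 0 (.l 4) (.l 3))) (.n 0 (.n 2 (.n 2 (.l 4) (.l 5)) (.n 2 (.n 0 (.l 5) (.l 9)) (.l 9))) (.n 2 (.n 2 (.l 3) (.n 0 (.l 2) (.l 2))) (.n 0 (.l 9) (.l 9)))))
    [(197300060160, 28185722880), (4226247819264, 240518168576), (137438953472, 137438953472), (962072674304, 137438953472)] rfl (by decide +kernel)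
theorem c1_m1_t27 : CovD 0 progs [(56371445760, 56371445760), (4707284156416, 240518168576), (137438953472, 137438953472), (824633720832, 274877906944)] :=
  Pool.Agent.helper14.QF.covD_F chks_eq (.n 0 (.n 3 (.l 8) (.n 0 (.n 2 (.l 4) (.n 0 (.l 4) (.l 4))) (.n 2 (.l 4) (.n 2 (.l 4) (.l 4))))) (.n 0 (.n 2 (.n 3 (.l 8) (.l 4)) (.n 3 (.l 8) (.n 2 (.l 4) (.n 0 (.l 4) (.l 4))))) (.n 3 (.n 3 (.l 8) (.n 2 (.l 4) (.n 2 (.l 4) (.l 8)))) (.n 2 (.l 4) (.n 2 (.l 4) (.n 2 (.l 4) (.n 0 (.l 4) (.l 4))))))))
    [(56371445760, 56371445760), (4707284156416, 240518168576), (137438953472, 137438953472), (824633720832, 274877906944)] rfl (by decide +kernel)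
end
mutual
theorem c1_m1_t28 : CovD 0 progs [(126835752960, 14092861440), (4707284156416, 240518168576), (137438953472, 137438953472), (824633720832, 274877906944)] :=
  Pool.Agent.helper14.QF.covD_F chks_eq (.n 2 (.n 3 (.l 4) (.n 0 (.l 4) (.l 4))) (.n 0 (.n 2 (.n 3 (.l 4) (.l 4)) (.n 1 (.n 3 (.l 4) (.l 5)) (.n 3 (.l 5) (.n 0 (.l 5) (.l 5))))) (.n 2 (.n 3 (.l 4) (.l 4)) (.n 2 (.n 3 (.l 4) (.l 4)) (.n 0 (.n 3 (.l 5) (.l 5)) (.l 9))))))
    [(126835752960, 14092861440), (4707284156416, 240518168576), (137438953472, 137438953472), (824633720832, 274877906944)] rfl (by decide +kernel)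
theorem c1_m1_t29 : CovD 0 progs [(155021475840, 14092861440), (4707284156416, 240518168576), (137438953472, 137438953472), (824633720832, 274877906944)] :=
  Pool.Agent.helper14.QF.covD_F chks_eq (.n 2 (.n 2 (.n 0 (.l 4) (.l 4)) (.n 3 (.l 4) (.l 4))) (.n 2 (.n 2 (.n 3 (.l 4) (.l 4)) (.n 3 (.l 4) (.n 0 (.l 4) (.l 4)))) (.n 2 (.n 0 (.n 2 (.n 1 (.l 4) (.l 9)) (.l 9)) (.n 0 (.l 9) (.l 9))) (.l 9))))
    [(155021475840, 14092861440), (4707284156416, 240518168576), (137438953472, 137438953472), (824633720832, 274877906944)] rfl (by decide +kernel)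
end
mutual
theorem c1_m1_t31 : CovD 0 progs [(183207198720, 14092861440), (4707284156416, 240518168576), (137438953472, 137438953472), (824633720832, 274877906944)] :=
  Pool.Agent.helper14.QF.covD_F chks_eq (.n 2 (.n 2 (.n 0 (.l 4) (.l 4)) (.n 3 (.l 4) (.n 0 (.l 4) (.l 2)))) (.n 2 (.n 2 (.n 3 (.l 4) (.n 0 (.l 4) (.l 2))) (.n 0 (.n 3 (.l 4) (.l 4)) (.n 1 (.l 9) (.l 9)))) (.n 2 (.l 9) (.l 9))))
    [(183207198720, 14092861440), (4707284156416, 240518168576), (137438953472, 137438953472), (824633720832, 274877906944)] rfl (by decide +kernel)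
theorem c1_m1_t32 : CovD 0 progs [(211392921600, 14092861440), (4707284156416, 240518168576), (137438953472, 137438953472), (824633720832, 274877906944)] :=
  Pool.Agent.helper14.QF.covD_F chks_eq (.n 2 (.n 2 (.n 3 (.l 4) (.l 2)) (.n 1 (.n 3 (.l 4) (.l 2)) (.n 3 (.l 4) (.l 2)))) (.n 2 (.n 2 (.n 0 (.n 3 (.l 4) (.l 2)) (.n 3 (.l 3) (.l 2))) (.l 9)) (.l 9)))
    [(211392921600, 14092861440), (4707284156416, 240518168576), (137438953472, 137438953472), (824633720832, 274877906944)] rfl (by decide +kernel)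
end
theorem c1_m1_t2 : CovD 0 progs [(112742891520, 112742891520), (2061584302080, 962072674304), (137438953472, 137438953472), (687194767360, 137438953472)] :=
  covD_split 0 (by decide +kernel) c1_m1_t0 c1_m1_t1
theorem c1_m1_t5 : CovD 0 progs [(112742891520, 112742891520), (2061584302080, 962072674304), (137438953472, 137438953472), (962072674304, 137438953472)] :=
  covD_split 0 (by decide +kernel) c1_m1_t3 c1_m1_t4
theorem c1_m1_t6 : CovD 0 progs [(112742891520, 112742891520), (2061584302080, 962072674304), (137438953472, 137438953472), (824633720832, 274877906944)] :=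
  covD_split 3 (by decide +kernel) c1_m1_t2 c1_m1_t5
theorem c1_m1_t10 : CovD 0 progs [(169114337280, 56371445760), (3504693313536, 481036337152), (137438953472, 137438953472), (687194767360, 137438953472)] :=
  covD_split 0 (by decide +kernel) c1_m1_t8 c1_m1_t9
theorem c1_m1_t11 : CovD 0 progs [(112742891520, 112742891520), (3504693313536, 481036337152), (137438953472, 137438953472), (687194767360, 137438953472)] :=
  covD_split 0 (by decide +kernel) c1_m1_t7 c1_m1_t10
theorem c1_m1_t15 : CovD 0 progs [(169114337280, 56371445760), (3504693313536, 481036337152), (137438953472, 137438953472), (962072674304, 137438953472)] :=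
  covD_split 0 (by decide +kernel) c1_m1_t13 c1_m1_t14
theorem c1_m1_t16 : CovD 0 progs [(112742891520, 112742891520), (3504693313536, 481036337152), (137438953472, 137438953472), (962072674304, 137438953472)] :=
  covD_split 0 (by decide +kernel) c1_m1_t12 c1_m1_t15
theorem c1_m1_t17 : CovD 0 progs [(112742891520, 112742891520), (3504693313536, 481036337152), (137438953472, 137438953472), (824633720832, 274877906944)] :=
  covD_split 3 (by decide +kernel) c1_m1_t11 c1_m1_t16
theorem c1_m1_t20 : CovD 0 progs [(112742891520, 112742891520), (4226247819264, 240518168576), (137438953472, 137438953472), (687194767360, 137438953472)] :=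
  covD_split 0 (by decide +kernel) c1_m1_t18 c1_m1_t19
theorem c1_m1_t24 : CovD 0 progs [(169114337280, 56371445760), (4226247819264, 240518168576), (137438953472, 137438953472), (962072674304, 137438953472)] :=
  covD_split 0 (by decide +kernel) c1_m1_t22 c1_m1_t23
theorem c1_m1_t25 : CovD 0 progs [(112742891520, 112742891520), (4226247819264, 240518168576), (137438953472, 137438953472), (962072674304, 137438953472)] :=
  covD_split 0 (by decide +kernel) c1_m1_t21 c1_m1_t24
theorem c1_m1_t26 : CovD 0 progs [(112742891520, 112742891520), (4226247819264, 240518168576), (137438953472, 137438953472), (824633720832, 274877906944)] :=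
  covD_split 3 (by decide +kernel) c1_m1_t20 c1_m1_t25
theorem c1_m1_t30 : CovD 0 progs [(140928614400, 28185722880), (4707284156416, 240518168576), (137438953472, 137438953472), (824633720832, 274877906944)] :=
  covD_split 0 (by decide +kernel) c1_m1_t28 c1_m1_t29
theorem c1_m1_t33 : CovD 0 progs [(197300060160, 28185722880), (4707284156416, 240518168576), (137438953472, 137438953472), (824633720832, 274877906944)] :=
  covD_split 0 (by decide +kernel) c1_m1_t31 c1_m1_t32
theorem c1_m1_t34 : CovD 0 progs [(169114337280, 56371445760), (4707284156416, 240518168576), (137438953472, 137438953472), (824633720832, 274877906944)] :=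
  covD_split 0 (by decide +kernel) c1_m1_t30 c1_m1_t33
theorem c1_m1_t35 : CovD 0 progs [(112742891520, 112742891520), (4707284156416, 240518168576), (137438953472, 137438953472), (824633720832, 274877906944)] :=
  covD_split 0 (by decide +kernel) c1_m1_t27 c1_m1_t34
theorem c1_m1_t36 : CovD 0 progs [(112742891520, 112742891520), (4466765987840, 481036337152), (137438953472, 137438953472), (824633720832, 274877906944)] :=
  covD_split 1 (by decide +kernel) c1_m1_t26 c1_m1_t35
theorem c1_m1_t37 : CovD 0 progs [(112742891520, 112742891520), (3985729650688, 962072674304), (137438953472, 137438953472), (824633720832, 274877906944)] :=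
  covD_split 1 (by decide +kernel) c1_m1_t17 c1_m1_t36
theorem c1_m1 : CovD 0 progs [(112742891520, 112742891520), (3023656976384, 1924145348608), (137438953472, 137438953472), (824633720832, 274877906944)] :=
  covD_split 1 (by decide +kernel) c1_m1_t6 c1_m1_t37

end Pool.Agent.helper71.FJ.Crt.QMb
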