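import Pool.Agent.helper71.FJ.Crt.QMbP

/-!
Generated certificates.
-/

namespace Pool.Agent.helper71.FJ.Crt.QMb

open Pool.Agent.helper31.IA (Z Op)
open Pool.Agent.helper31.IC

mutual
theorem c1_m2_t0 : CovD 0 progs [(56371445760, 56371445760), (3023656976384, 1924145348608), (343597383680, 68719476736), (687194767360, 137438953472)] :=
  Pool.Agent.helper14.QF.covD_F chks_eq (.n 0 (.l 8) (.n 1 (.n 1 (.l 8) (.l 8)) (.n 1 (.l 8) (.l 8))))
    [(56371445760, 56371445760), (3023656976384, 1924145348608), (343597383680, 68719476736), (687194767360, 137438953472)] rfl (by decide +kernel)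
theorem c1_m2_t1 : CovD 0 progs [(140928614400, 28185722880), (2061584302080, 962072674304), (343597383680, 68719476736), (687194767360, 137438953472)] :=
  Pool.Agent.helper14.QF.covD_F chks_eq (.n 0 (.n 3 (.l 8) (.n 1 (.l 4) (.n 1 (.l 4) (.n 0 (.l 4) (.l 5))))) (.n 1 (.n 0 (.l 4) (.l 4)) (.n 1 (.n 0 (.l 4) (.l 5)) (.n 2 (.l 4) (.n 1 (.l 5) (.l 5))))))
    [(140928614400, 28185722880), (2061584302080, 962072674304), (343597383680, 68719476736), (687194767360, 137438953472)] rfl (by decide +kernel)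
end
mutual
theorem c1_m2_t2 : CovD 0 progs [(197300060160, 28185722880), (2061584302080, 962072674304), (343597383680, 68719476736), (687194767360, 137438953472)] :=
  Pool.Agent.helper14.QF.covD_F chks_eq (.n 0 (.n 1 (.n 1 (.l 4) (.l 4)) (.n 1 (.n 1 (.l 5) (.l 5)) (.n 2 (.l 5) (.n 0 (.n 0 (.l 9) (.l 9)) (.l 9))))) (.n 1 (.n 1 (.l 4) (.l 5)) (.n 1 (.n 1 (.l 5) (.n 2 (.l 4) (.l 9))) (.n 2 (.n 1 (.l 5) (.l 5)) (.l 9)))))
    [(197300060160, 28185722880), (2061584302080, 962072674304), (343597383680, 68719476736), (687194767360, 137438953472)] rfl (by decide +kernel)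
theorem c1_m2_t4 : CovD 0 progs [(169114337280, 56371445760), (3504693313536, 481036337152), (343597383680, 68719476736), (687194767360, 137438953472)] :=
  Pool.Agent.helper14.QF.covD_F chks_eq (.n 1 (.n 2 (.n 0 (.n 0 (.n 0 (.l 4) (.l 4)) (.n 0 (.l 5) (.l 5))) (.n 0 (.n 2 (.l 5) (.l 9)) (.n 0 (.l 9) (.l 9)))) (.n 0 (.n 0 (.l 8) (.n 1 (.l 7) (.l 7))) (.n 0 (.l 9) (.l 9)))) (.n 0 (.n 0 (.n 2 (.n 2 (.l 4) (.l 7)) (.l 8)) (.n 2 (.n 2 (.n 0 (.l 5) (.l 5)) (.l 9)) (.l 9))) (.n 2 (.n 0 (.n 0 (.l 9) (.l 9)) (.l 9)) (.l 9))))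
    [(169114337280, 56371445760), (3504693313536, 481036337152), (343597383680, 68719476736), (687194767360, 137438953472)] rfl (by decide +kernel)
end
mutual
theorem c1_m2_t5 : CovD 0 progs [(169114337280, 56371445760), (4466765987840, 481036337152), (343597383680, 68719476736), (687194767360, 137438953472)] :=
  Pool.Agent.helper14.QF.covD_F chks_eq (.n 0 (.n 0 (.n 2 (.n 0 (.l 8) (.n 1 (.n 0 (.l 8) (.l 9)) (.l 9))) (.l 8)) (.n 2 (.n 1 (.n 0 (.l 9) (.l 9)) (.l 9)) (.l 9))) (.n 0 (.n 2 (.n 0 (.l 9) (.l 9)) (.l 9)) (.n 2 (.l 9) (.l 9))))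
    [(169114337280, 56371445760), (4466765987840, 481036337152), (343597383680, 68719476736), (687194767360, 137438953472)] rfl (by decide +kernel)
theorem c1_m2_t9 : CovD 0 progs [(56371445760, 56371445760), (2061584302080, 962072674304), (343597383680, 68719476736), (962072674304, 137438953472)] :=
  Pool.Agent.helper14.QF.covD_F chks_eq (.n 0 (.n 1 (.l 4) (.n 1 (.l 4) (.l 4))) (.n 0 (.n 1 (.l 4) (.n 1 (.l 4) (.l 4))) (.n 1 (.l 4) (.n 1 (.l 4) (.n 0 (.l 4) (.l 4))))))
    [(56371445760, 56371445760), (2061584302080, 962072674304), (343597383680, 68719476736), (962072674304, 137438953472)] rfl (by decide +kernel)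
end
mutual
theorem c1_m2_t10 : CovD 0 progs [(140928614400, 28185722880), (2061584302080, 962072674304), (343597383680, 68719476736), (962072674304, 137438953472)] :=
  Pool.Agent.helper14.QF.covD_F chks_eq (.n 0 (.n 1 (.l 4) (.n 1 (.n 0 (.l 4) (.l 4)) (.n 2 (.l 4) (.n 0 (.l 5) (.l 5))))) (.n 1 (.n 1 (.l 4) (.l 4)) (.n 1 (.n 0 (.l 5) (.l 5)) (.n 2 (.l 5) (.n 2 (.l 5) (.l 7))))))
    [(140928614400, 28185722880), (2061584302080, 962072674304), (343597383680, 68719476736), (962072674304, 137438953472)] rfl (by decide +kernel)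
theorem c1_m2_t11 : CovD 0 progs [(197300060160, 28185722880), (2061584302080, 962072674304), (343597383680, 68719476736), (962072674304, 137438953472)] :=
  Pool.Agent.helper14.QF.covD_F chks_eq (.n 1 (.n 1 (.l 4) (.n 0 (.l 5) (.n 0 (.l 5) (.l 5)))) (.n 1 (.n 1 (.n 2 (.l 4) (.l 5)) (.n 2 (.l 5) (.n 0 (.l 5) (.l 9)))) (.n 0 (.n 0 (.n 2 (.l 5) (.n 0 (.l 9) (.l 9))) (.n 2 (.l 5) (.l 9))) (.n 2 (.n 1 (.l 5) (.l 5)) (.l 9)))))
    [(197300060160, 28185722880), (2061584302080, 962072674304), (343597383680, 68719476736), (962072674304, 137438953472)] rfl (by decide +kernel)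
end
mutual
theorem c1_m2_t14 : CovD 0 progs [(112742891520, 112742891520), (3264175144960, 240518168576), (343597383680, 68719476736), (962072674304, 137438953472)] :=
  Pool.Agent.helper14.QF.covD_F chks_eq (.n 2 (.n 0 (.n 0 (.l 4) (.n 0 (.l 4) (.l 4))) (.n 0 (.n 0 (.n 0 (.l 4) (.l 5)) (.n 1 (.l 5) (.l 5))) (.n 0 (.n 1 (.l 5) (.n 0 (.l 5) (.l 9))) (.n 0 (.l 9) (.l 9))))) (.n 2 (.n 0 (.n 0 (.l 4) (.l 7)) (.n 0 (.n 0 (.l 7) (.n 0 (.l 7) (.l 9))) (.l 9))) (.n 0 (.n 0 (.l 4) (.l 7)) (.n 0 (.n 0 (.n 0 (.l 7) (.l 7)) (.l 9)) (.l 9)))))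
    [(112742891520, 112742891520), (3264175144960, 240518168576), (343597383680, 68719476736), (962072674304, 137438953472)] rfl (by decide +kernel)
theorem c1_m2_t15 : CovD 0 progs [(112742891520, 112742891520), (3745211482112, 240518168576), (343597383680, 68719476736), (962072674304, 137438953472)] :=
  Pool.Agent.helper14.QF.covD_F chks_eq (.n 2 (.n 0 (.n 0 (.n 0 (.l 4) (.l 4)) (.n 0 (.l 4) (.n 0 (.l 4) (.l 5)))) (.n 0 (.n 0 (.n 1 (.l 5) (.n 0 (.l 5) (.l 5))) (.n 2 (.n 0 (.l 5) (.l 5)) (.l 9))) (.n 0 (.n 0 (.l 9) (.l 9)) (.l 9)))) (.n 0 (.n 0 (.l 7) (.n 0 (.l 7) (.n 0 (.l 7) (.n 1 (.l 7) (.l 7))))) (.n 0 (.n 0 (.n 0 (.n 1 (.l 7) (.l 9)) (.l 9)) (.l 9)) (.l 9))))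
    [(112742891520, 112742891520), (3745211482112, 240518168576), (343597383680, 68719476736), (962072674304, 137438953472)] rfl (by decide +kernel)
end
mutual
theorem c1_m2_t17 : CovD 0 progs [(56371445760, 56371445760), (4226247819264, 240518168576), (343597383680, 68719476736), (962072674304, 137438953472)] :=
  Pool.Agent.helper14.QF.covD_F chks_eq (.n 2 (.n 0 (.n 2 (.l 4) (.l 7)) (.n 0 (.n 2 (.l 4) (.l 7)) (.n 2 (.n 0 (.l 4) (.l 5)) (.l 7)))) (.n 0 (.n 0 (.l 7) (.l 7)) (.n 2 (.n 0 (.l 7) (.n 0 (.l 7) (.l 7))) (.n 3 (.l 8) (.n 0 (.l 7) (.n 0 (.l 7) (.l 9)))))))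
    [(56371445760, 56371445760), (4226247819264, 240518168576), (343597383680, 68719476736), (962072674304, 137438953472)] rfl (by decide +kernel)
theorem c1_m2_t18 : CovD 0 progs [(169114337280, 56371445760), (4226247819264, 240518168576), (343597383680, 68719476736), (962072674304, 137438953472)] :=
  Pool.Agent.helper14.QF.covD_F chks_eq (.n 0 (.n 2 (.n 0 (.n 0 (.n 2 (.l 5) (.l 7)) (.n 0 (.n 2 (.l 5) (.l 7)) (.l 9))) (.n 0 (.l 9) (.l 9))) (.n 0 (.n 0 (.l 9) (.l 9)) (.l 9))) (.n 2 (.n 0 (.l 9) (.l 9)) (.l 9)))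
    [(169114337280, 56371445760), (4226247819264, 240518168576), (343597383680, 68719476736), (962072674304, 137438953472)] rfl (by decide +kernel)
end
mutual
theorem c1_m2_t20 : CovD 0 progs [(56371445760, 56371445760), (4707284156416, 240518168576), (343597383680, 68719476736), (962072674304, 137438953472)] :=
  Pool.Agent.helper14.QF.covD_F chks_eq (.n 0 (.n 0 (.n 2 (.l 7) (.l 7)) (.n 3 (.l 8) (.n 2 (.l 7) (.l 7)))) (.n 0 (.n 2 (.n 2 (.l 7) (.l 7)) (.n 3 (.l 8) (.n 0 (.l 7) (.n 2 (.l 7) (.l 7))))) (.n 2 (.n 1 (.n 2 (.l 7) (.l 7)) (.n 2 (.l 7) (.n 0 (.l 7) (.l 7)))) (.n 0 (.n 0 (.n 2 (.l 7) (.l 9)) (.n 1 (.l 9) (.l 9))) (.l 9)))))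
    [(56371445760, 56371445760), (4707284156416, 240518168576), (343597383680, 68719476736), (962072674304, 137438953472)] rfl (by decide +kernel)
theorem c1_m2_t21 : CovD 0 progs [(169114337280, 56371445760), (4707284156416, 240518168576), (343597383680, 68719476736), (962072674304, 137438953472)] :=
  Pool.Agent.helper14.QF.covD_F chks_eq (.n 0 (.n 0 (.n 2 (.n 0 (.n 2 (.n 1 (.l 5) (.l 7)) (.l 9)) (.l 9)) (.l 9)) (.n 2 (.l 9) (.l 9))) (.n 2 (.l 9) (.l 9)))
    [(169114337280, 56371445760), (4707284156416, 240518168576), (343597383680, 68719476736), (962072674304, 137438953472)] rfl (by decide +kernel)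
end
mutual
theorem c1_m2_t27 : CovD 0 progs [(56371445760, 56371445760), (2061584302080, 962072674304), (481036337152, 68719476736), (824633720832, 274877906944)] :=
  Pool.Agent.helper14.QF.covD_F chks_eq (.n 1 (.n 3 (.l 8) (.n 0 (.n 1 (.l 4) (.l 4)) (.n 1 (.l 4) (.n 0 (.l 4) (.l 4))))) (.n 0 (.n 2 (.n 1 (.l 7) (.l 7)) (.l 7)) (.n 3 (.l 8) (.n 2 (.n 1 (.l 7) (.n 0 (.l 4) (.l 7))) (.n 3 (.l 8) (.n 1 (.l 7) (.n 0 (.l 7) (.n 0 (.l 7) (.l 7)))))))))
    [(56371445760, 56371445760), (2061584302080, 962072674304), (481036337152, 68719476736), (824633720832, 274877906944)] rfl (by decide +kernel)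
theorem c1_m2_t28 : CovD 0 progs [(56371445760, 56371445760), (3985729650688, 962072674304), (446676598784, 34359738368), (824633720832, 274877906944)] :=
  Pool.Agent.helper14.QF.covD_F chks_eq (.n 0 (.n 0 (.l 8) (.n 1 (.l 8) (.l 8))) (.n 3 (.l 8) (.n 1 (.n 0 (.n 1 (.l 7) (.n 2 (.l 7) (.l 8))) (.n 3 (.l 8) (.n 0 (.n 1 (.l 7) (.n 2 (.l 7) (.l 7))) (.n 1 (.n 0 (.l 7) (.l 7)) (.n 2 (.l 7) (.l 9)))))) (.n 1 (.n 0 (.n 0 (.l 8) (.l 8)) (.n 0 (.n 0 (.n 0 (.l 8) (.l 9)) (.l 9)) (.l 9))) (.n 0 (.l 8) (.n 0 (.l 9) (.l 9)))))))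
    [(56371445760, 56371445760), (3985729650688, 962072674304), (446676598784, 34359738368), (824633720832, 274877906944)] rfl (by decide +kernel)
end
mutual
theorem c1_m2_t29 : CovD 0 progs [(56371445760, 56371445760), (3985729650688, 962072674304), (515396075520, 34359738368), (824633720832, 274877906944)] :=
  Pool.Agent.helper14.QF.covD_F chks_eq (.n 0 (.n 0 (.l 8) (.l 8)) (.n 0 (.n 1 (.l 8) (.l 8)) (.n 0 (.n 1 (.n 1 (.l 8) (.l 8)) (.n 0 (.l 8) (.l 9))) (.n 1 (.n 1 (.n 1 (.l 9) (.l 9)) (.l 9)) (.l 9)))))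
    [(56371445760, 56371445760), (3985729650688, 962072674304), (515396075520, 34359738368), (824633720832, 274877906944)] rfl (by decide +kernel)
theorem c1_m2_t32 : CovD 0 progs [(140928614400, 28185722880), (1580547964928, 481036337152), (481036337152, 68719476736), (824633720832, 274877906944)] :=
  Pool.Agent.helper14.QF.covD_F chks_eq (.n 1 (.n 0 (.n 3 (.l 4) (.l 4)) (.n 3 (.l 4) (.l 4))) (.n 1 (.n 2 (.n 3 (.l 4) (.l 4)) (.l 7)) (.n 2 (.n 2 (.l 7) (.l 7)) (.l 7))))
    [(140928614400, 28185722880), (1580547964928, 481036337152), (481036337152, 68719476736), (824633720832, 274877906944)] rfl (by decide +kernel)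
end
mutual
theorem c1_m2_t33 : CovD 0 progs [(140928614400, 28185722880), (2542620639232, 481036337152), (481036337152, 68719476736), (824633720832, 274877906944)] :=
  Pool.Agent.helper14.QF.covD_F chks_eq (.n 0 (.n 3 (.l 8) (.n 1 (.n 2 (.l 5) (.n 1 (.l 5) (.l 7))) (.n 0 (.n 2 (.l 7) (.n 1 (.l 7) (.l 9))) (.n 2 (.n 1 (.l 7) (.l 7)) (.l 9))))) (.n 1 (.n 2 (.n 3 (.l 7) (.n 1 (.l 5) (.l 7))) (.n 0 (.n 1 (.l 7) (.l 9)) (.l 9))) (.n 2 (.n 0 (.n 0 (.l 9) (.l 9)) (.l 9)) (.l 9))))
    [(140928614400, 28185722880), (2542620639232, 481036337152), (481036337152, 68719476736), (824633720832, 274877906944)] rfl (by decide +kernel)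
theorem c1_m2_t35 : CovD 0 progs [(140928614400, 28185722880), (3985729650688, 962072674304), (481036337152, 68719476736), (824633720832, 274877906944)] :=
  Pool.Agent.helper14.QF.covD_F chks_eq (.n 0 (.n 0 (.n 1 (.n 1 (.n 2 (.n 0 (.n 1 (.l 9) (.l 9)) (.l 9)) (.l 9)) (.n 0 (.l 9) (.l 9))) (.n 0 (.l 9) (.l 9))) (.n 1 (.n 1 (.n 1 (.l 9) (.l 9)) (.l 9)) (.l 9))) (.n 1 (.n 1 (.n 0 (.l 9) (.l 9)) (.l 9)) (.n 0 (.l 9) (.l 9))))
    [(140928614400, 28185722880), (3985729650688, 962072674304), (481036337152, 68719476736), (824633720832, 274877906944)] rfl (by decide +kernel)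
end
mutual
theorem c1_m2_t37 : CovD 0 progs [(197300060160, 28185722880), (3023656976384, 1924145348608), (481036337152, 68719476736), (687194767360, 137438953472)] :=
  Pool.Agent.helper14.QF.covD_F chks_eq (.n 1 (.n 1 (.n 1 (.n 1 (.l 4) (.n 0 (.l 4) (.l 5))) (.n 1 (.n 2 (.l 5) (.l 7)) (.n 2 (.n 0 (.l 5) (.l 5)) (.l 7)))) (.n 1 (.n 2 (.n 1 (.l 7) (.l 7)) (.n 0 (.l 9) (.l 9))) (.n 0 (.n 0 (.l 9) (.l 9)) (.l 9)))) (.n 0 (.n 1 (.n 1 (.l 9) (.l 9)) (.l 9)) (.n 1 (.n 0 (.l 9) (.l 9)) (.l 9))))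
    [(197300060160, 28185722880), (3023656976384, 1924145348608), (481036337152, 68719476736), (687194767360, 137438953472)] rfl (by decide +kernel)
theorem c1_m2_t38 : CovD 0 progs [(197300060160, 28185722880), (3023656976384, 1924145348608), (481036337152, 68719476736), (962072674304, 137438953472)] :=
  Pool.Agent.helper14.QF.covD_F chks_eq (.n 1 (.n 1 (.n 1 (.n 1 (.l 5) (.n 1 (.l 5) (.l 5))) (.n 1 (.n 2 (.l 5) (.l 7)) (.n 2 (.n 2 (.l 5) (.l 7)) (.n 0 (.l 7) (.l 7))))) (.n 0 (.n 1 (.n 2 (.n 1 (.l 7) (.l 7)) (.l 9)) (.n 0 (.l 9) (.l 9))) (.n 1 (.n 2 (.l 9) (.l 9)) (.l 9)))) (.n 0 (.n 1 (.n 1 (.l 9) (.l 9)) (.l 9)) (.n 1 (.n 0 (.l 9) (.l 9)) (.l 9))))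
    [(197300060160, 28185722880), (3023656976384, 1924145348608), (481036337152, 68719476736), (962072674304, 137438953472)] rfl (by decide +kernel)
end
theorem c1_m2_t3 : CovD 0 progs [(169114337280, 56371445760), (2061584302080, 962072674304), (343597383680, 68719476736), (687194767360, 137438953472)] :=
  covD_split 0 (by decide +kernel) c1_m2_t1 c1_m2_t2
theorem c1_m2_t6 : CovD 0 progs [(169114337280, 56371445760), (3985729650688, 962072674304), (343597383680, 68719476736), (687194767360, 137438953472)] :=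
  covD_split 1 (by decide +kernel) c1_m2_t4 c1_m2_t5
theorem c1_m2_t7 : CovD 0 progs [(169114337280, 56371445760), (3023656976384, 1924145348608), (343597383680, 68719476736), (687194767360, 137438953472)] :=
  covD_split 1 (by decide +kernel) c1_m2_t3 c1_m2_t6
theorem c1_m2_t8 : CovD 0 progs [(112742891520, 112742891520), (3023656976384, 1924145348608), (343597383680, 68719476736), (687194767360, 137438953472)] :=
  covD_split 0 (by decide +kernel) c1_m2_t0 c1_m2_t7
theorem c1_m2_t12 : CovD 0 progs [(169114337280, 56371445760), (2061584302080, 962072674304), (343597383680, 68719476736), (962072674304, 137438953472)] :=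
  covD_split 0 (by decide +kernel) c1_m2_t10 c1_m2_t11
theorem c1_m2_t13 : CovD 0 progs [(112742891520, 112742891520), (2061584302080, 962072674304), (343597383680, 68719476736), (962072674304, 137438953472)] :=
  covD_split 0 (by decide +kernel) c1_m2_t9 c1_m2_t12
theorem c1_m2_t16 : CovD 0 progs [(112742891520, 112742891520), (3504693313536, 481036337152), (343597383680, 68719476736), (962072674304, 137438953472)] :=
  covD_split 1 (by decide +kernel) c1_m2_t14 c1_m2_t15
theorem c1_m2_t19 : CovD 0 progs [(112742891520, 112742891520), (4226247819264, 240518168576), (343597383680, 68719476736), (962072674304, 137438953472)] :=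
  covD_split 0 (by decide +kernel) c1_m2_t17 c1_m2_t18
theorem c1_m2_t22 : CovD 0 progs [(112742891520, 112742891520), (4707284156416, 240518168576), (343597383680, 68719476736), (962072674304, 137438953472)] :=
  covD_split 0 (by decide +kernel) c1_m2_t20 c1_m2_t21
theorem c1_m2_t23 : CovD 0 progs [(112742891520, 112742891520), (4466765987840, 481036337152), (343597383680, 68719476736), (962072674304, 137438953472)] :=
  covD_split 1 (by decide +kernel) c1_m2_t19 c1_m2_t22
theorem c1_m2_t24 : CovD 0 progs [(112742891520, 112742891520), (3985729650688, 962072674304), (343597383680, 68719476736), (962072674304, 137438953472)] :=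
  covD_split 1 (by decide +kernel) c1_m2_t16 c1_m2_t23
theorem c1_m2_t25 : CovD 0 progs [(112742891520, 112742891520), (3023656976384, 1924145348608), (343597383680, 68719476736), (962072674304, 137438953472)] :=
  covD_split 1 (by decide +kernel) c1_m2_t13 c1_m2_t24
theorem c1_m2_t26 : CovD 0 progs [(112742891520, 112742891520), (3023656976384, 1924145348608), (343597383680, 68719476736), (824633720832, 274877906944)] :=
  covD_split 3 (by decide +kernel) c1_m2_t8 c1_m2_t25
theorem c1_m2_t30 : CovD 0 progs [(56371445760, 56371445760), (3985729650688, 962072674304), (481036337152, 68719476736), (824633720832, 274877906944)] :=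
  covD_split 2 (by decide +kernel) c1_m2_t28 c1_m2_t29
theorem c1_m2_t31 : CovD 0 progs [(56371445760, 56371445760), (3023656976384, 1924145348608), (481036337152, 68719476736), (824633720832, 274877906944)] :=
  covD_split 1 (by decide +kernel) c1_m2_t27 c1_m2_t30
theorem c1_m2_t34 : CovD 0 progs [(140928614400, 28185722880), (2061584302080, 962072674304), (481036337152, 68719476736), (824633720832, 274877906944)] :=
  covD_split 1 (by decide +kernel) c1_m2_t32 c1_m2_t33
theorem c1_m2_t36 : CovD 0 progs [(140928614400, 28185722880), (3023656976384, 1924145348608), (481036337152, 68719476736), (824633720832, 274877906944)] :=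
  covD_split 1 (by decide +kernel) c1_m2_t34 c1_m2_t35
theorem c1_m2_t39 : CovD 0 progs [(197300060160, 28185722880), (3023656976384, 1924145348608), (481036337152, 68719476736), (824633720832, 274877906944)] :=
  covD_split 3 (by decide +kernel) c1_m2_t37 c1_m2_t38
theorem c1_m2_t40 : CovD 0 progs [(169114337280, 56371445760), (3023656976384, 1924145348608), (481036337152, 68719476736), (824633720832, 274877906944)] :=
  covD_split 0 (by decide +kernel) c1_m2_t36 c1_m2_t39
theorem c1_m2_t41 : CovD 0 progs [(112742891520, 112742891520), (3023656976384, 1924145348608), (481036337152, 68719476736), (824633720832, 274877906944)] :=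
  covD_split 0 (by decide +kernel) c1_m2_t31 c1_m2_t40
theorem c1_m2 : CovD 0 progs [(112742891520, 112742891520), (3023656976384, 1924145348608), (412316860416, 137438953472), (824633720832, 274877906944)] :=
  covD_split 2 (by decide +kernel) c1_m2_t26 c1_m2_t41

end Pool.Agent.helper71.FJ.Crt.QMb
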