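import Pool.Agent.helper71.FJ.Crt.QMbP

/-!
Generated certificates.
-/

namespace Pool.Agent.helper71.FJ.Crt.QMb

open Pool.Agent.helper31.IA (Z Op)
open Pool.Agent.helper31.IC

mutual
theorem c1_m3_t0 : CovD 0 progs [(253671505920, 28185722880), (1580547964928, 481036337152), (137438953472, 137438953472), (549755813888, 549755813888)] :=
  Pool.Agent.helper14.QF.covD_F chks_eq (.n 0 (.n 1 (.n 0 (.n 3 (.l 1) (.l 4)) (.n 3 (.l 4) (.l 4))) (.n 3 (.n 0 (.l 4) (.l 4)) (.n 3 (.l 4) (.l 4)))) (.n 1 (.n 3 (.l 4) (.n 0 (.l 4) (.l 4))) (.n 3 (.n 0 (.l 4) (.l 4)) (.n 3 (.l 4) (.l 5)))))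
    [(253671505920, 28185722880), (1580547964928, 481036337152), (137438953472, 137438953472), (549755813888, 549755813888)] rfl (by decide +kernel)
theorem c1_m3_t1 : CovD 0 progs [(253671505920, 28185722880), (2302102470656, 240518168576), (137438953472, 137438953472), (549755813888, 549755813888)] :=
  Pool.Agent.helper14.QF.covD_F chks_eq (.n 0 (.n 2 (.n 3 (.l 4) (.l 4)) (.n 1 (.n 3 (.l 4) (.l 4)) (.n 3 (.l 4) (.l 5)))) (.n 2 (.n 3 (.l 4) (.l 4)) (.n 3 (.l 5) (.n 3 (.l 5) (.l 5)))))
    [(253671505920, 28185722880), (2302102470656, 240518168576), (137438953472, 137438953472), (549755813888, 549755813888)] rfl (by decide +kernel)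
end
mutual
theorem c1_m3_t2 : CovD 0 progs [(253671505920, 28185722880), (2783138807808, 240518168576), (137438953472, 137438953472), (549755813888, 549755813888)] :=
  Pool.Agent.helper14.QF.covD_F chks_eq (.n 2 (.n 3 (.n 0 (.l 4) (.l 4)) (.n 3 (.l 4) (.l 4))) (.n 2 (.n 3 (.n 0 (.l 4) (.l 4)) (.n 3 (.l 4) (.l 4))) (.n 0 (.n 3 (.n 0 (.l 4) (.l 5)) (.n 3 (.l 5) (.l 5))) (.n 1 (.n 3 (.l 4) (.l 5)) (.n 2 (.l 9) (.l 9))))))
    [(253671505920, 28185722880), (2783138807808, 240518168576), (137438953472, 137438953472), (549755813888, 549755813888)] rfl (by decide +kernel)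
theorem c1_m3_t5 : CovD 0 progs [(310042951680, 28185722880), (1580547964928, 481036337152), (137438953472, 137438953472), (549755813888, 549755813888)] :=
  Pool.Agent.helper14.QF.covD_F chks_eq (.n 1 (.n 1 (.n 3 (.l 1) (.l 4)) (.n 3 (.l 4) (.n 0 (.l 4) (.l 4)))) (.n 2 (.n 3 (.l 4) (.n 0 (.l 4) (.l 4))) (.n 3 (.n 0 (.l 4) (.l 4)) (.n 3 (.l 5) (.l 5)))))
    [(310042951680, 28185722880), (1580547964928, 481036337152), (137438953472, 137438953472), (549755813888, 549755813888)] rfl (by decide +kernel)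
end
mutual
theorem c1_m3_t6 : CovD 0 progs [(310042951680, 28185722880), (2302102470656, 240518168576), (137438953472, 137438953472), (549755813888, 549755813888)] :=
  Pool.Agent.helper14.QF.covD_F chks_eq (.n 2 (.n 3 (.l 4) (.n 0 (.l 4) (.l 4))) (.n 1 (.n 3 (.l 5) (.n 2 (.l 4) (.l 5))) (.n 2 (.n 3 (.l 4) (.l 4)) (.n 2 (.n 3 (.l 4) (.l 5)) (.l 9)))))
    [(310042951680, 28185722880), (2302102470656, 240518168576), (137438953472, 137438953472), (549755813888, 549755813888)] rfl (by decide +kernel)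
theorem c1_m3_t7 : CovD 0 progs [(310042951680, 28185722880), (2783138807808, 240518168576), (137438953472, 137438953472), (549755813888, 549755813888)] :=
  Pool.Agent.helper14.QF.covD_F chks_eq (.n 2 (.n 3 (.n 1 (.l 4) (.l 4)) (.n 3 (.l 4) (.n 0 (.l 3) (.l 3)))) (.n 2 (.n 3 (.n 3 (.l 4) (.l 4)) (.n 0 (.n 1 (.l 4) (.l 5)) (.n 3 (.l 3) (.l 3)))) (.n 1 (.n 0 (.n 2 (.l 9) (.l 9)) (.l 9)) (.n 0 (.l 9) (.l 9)))))
    [(310042951680, 28185722880), (2783138807808, 240518168576), (137438953472, 137438953472), (549755813888, 549755813888)] rfl (by decide +kernel)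
end
mutual
theorem c1_m3_t11 : CovD 0 progs [(366414397440, 28185722880), (1580547964928, 481036337152), (137438953472, 137438953472), (549755813888, 549755813888)] :=
  Pool.Agent.helper14.QF.covD_F chks_eq (.n 1 (.n 1 (.n 3 (.l 4) (.l 4)) (.n 3 (.l 4) (.n 0 (.l 5) (.l 5)))) (.n 2 (.n 3 (.l 4) (.l 4)) (.n 1 (.n 3 (.l 4) (.l 5)) (.n 3 (.l 5) (.n 2 (.l 4) (.l 5))))))
    [(366414397440, 28185722880), (1580547964928, 481036337152), (137438953472, 137438953472), (549755813888, 549755813888)] rfl (by decide +kernel)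
theorem c1_m3_t12 : CovD 0 progs [(366414397440, 28185722880), (2302102470656, 240518168576), (137438953472, 137438953472), (549755813888, 549755813888)] :=
  Pool.Agent.helper14.QF.covD_F chks_eq (.n 2 (.n 3 (.l 4) (.n 3 (.l 3) (.l 3))) (.n 2 (.n 3 (.l 5) (.n 3 (.l 4) (.l 5))) (.n 1 (.n 2 (.n 0 (.l 9) (.l 9)) (.l 9)) (.n 0 (.l 9) (.l 9)))))
    [(366414397440, 28185722880), (2302102470656, 240518168576), (137438953472, 137438953472), (549755813888, 549755813888)] rfl (by decide +kernel)
end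
mutual
theorem c1_m3_t13 : CovD 0 progs [(366414397440, 28185722880), (2783138807808, 240518168576), (137438953472, 137438953472), (549755813888, 549755813888)] :=
  Pool.Agent.helper14.QF.covD_F chks_eq (.n 1 (.n 2 (.n 3 (.l 3) (.n 3 (.l 3) (.l 2))) (.n 2 (.n 3 (.n 0 (.l 3) (.l 3)) (.n 3 (.l 3) (.l 2))) (.l 9))) (.n 2 (.n 3 (.n 2 (.l 3) (.l 3)) (.n 3 (.l 3) (.l 5))) (.n 2 (.n 2 (.n 3 (.l 3) (.n 3 (.l 3) (.l 2))) (.l 9)) (.l 9))))
    [(366414397440, 28185722880), (2783138807808, 240518168576), (137438953472, 137438953472), (549755813888, 549755813888)] rfl (by decide +kernel)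
theorem c1_m3_t16 : CovD 0 progs [(422785843200, 28185722880), (1580547964928, 481036337152), (137438953472, 137438953472), (549755813888, 549755813888)] :=
  Pool.Agent.helper14.QF.covD_F chks_eq (.n 1 (.n 1 (.n 3 (.l 4) (.l 5)) (.n 2 (.l 4) (.n 3 (.l 4) (.l 5)))) (.n 2 (.n 3 (.l 4) (.l 4)) (.n 1 (.n 3 (.l 5) (.n 2 (.l 4) (.l 5))) (.n 2 (.n 3 (.l 3) (.l 5)) (.n 0 (.n 2 (.l 9) (.l 9)) (.l 9))))))
    [(422785843200, 28185722880), (1580547964928, 481036337152), (137438953472, 137438953472), (549755813888, 549755813888)] rfl (by decide +kernel)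
end
mutual
theorem c1_m3_t17 : CovD 0 progs [(422785843200, 28185722880), (2302102470656, 240518168576), (137438953472, 137438953472), (549755813888, 549755813888)] :=
  Pool.Agent.helper14.QF.covD_F chks_eq (.n 2 (.n 1 (.n 3 (.l 3) (.l 3)) (.n 3 (.l 3) (.n 3 (.l 3) (.l 2)))) (.n 2 (.n 1 (.n 3 (.l 3) (.n 0 (.l 3) (.l 3))) (.n 3 (.l 5) (.n 3 (.l 3) (.l 2)))) (.n 2 (.l 9) (.l 9))))
    [(422785843200, 28185722880), (2302102470656, 240518168576), (137438953472, 137438953472), (549755813888, 549755813888)] rfl (by decide +kernel)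
theorem c1_m3_t18 : CovD 0 progs [(422785843200, 28185722880), (2783138807808, 240518168576), (137438953472, 137438953472), (549755813888, 549755813888)] :=
  Pool.Agent.helper14.QF.covD_F chks_eq (.n 2 (.n 1 (.n 3 (.n 2 (.l 3) (.l 3)) (.n 3 (.l 3) (.l 2))) (.n 2 (.n 3 (.l 3) (.n 3 (.l 2) (.l 2))) (.n 3 (.n 2 (.l 3) (.l 3)) (.n 3 (.l 3) (.l 2))))) (.n 2 (.n 2 (.n 1 (.n 0 (.n 3 (.l 3) (.l 3)) (.l 9)) (.n 0 (.l 9) (.l 9))) (.l 9)) (.l 9)))
    [(422785843200, 28185722880), (2783138807808, 240518168576), (137438953472, 137438953472), (549755813888, 549755813888)] rfl (by decide +kernel)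
end
mutual
theorem c1_m3_t23 : CovD 0 progs [(253671505920, 28185722880), (1580547964928, 481036337152), (343597383680, 68719476736), (549755813888, 549755813888)] :=
  Pool.Agent.helper14.QF.covD_F chks_eq (.n 1 (.n 0 (.n 0 (.n 3 (.l 4) (.l 4)) (.n 3 (.l 4) (.l 5))) (.n 3 (.l 5) (.n 1 (.l 4) (.l 5)))) (.n 2 (.n 3 (.n 0 (.l 4) (.l 4)) (.n 3 (.l 5) (.l 5))) (.n 1 (.n 0 (.n 3 (.l 4) (.l 5)) (.n 3 (.l 5) (.l 5))) (.n 0 (.n 0 (.n 1 (.l 9) (.l 9)) (.l 9)) (.l 9)))))
    [(253671505920, 28185722880), (1580547964928, 481036337152), (343597383680, 68719476736), (549755813888, 549755813888)] rfl (by decide +kernel)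
theorem c1_m3_t24 : CovD 0 progs [(310042951680, 28185722880), (1580547964928, 481036337152), (343597383680, 68719476736), (549755813888, 549755813888)] :=
  Pool.Agent.helper14.QF.covD_F chks_eq (.n 1 (.n 1 (.n 3 (.l 4) (.l 5)) (.n 1 (.n 3 (.l 5) (.l 5)) (.n 3 (.l 5) (.n 2 (.l 4) (.l 5))))) (.n 1 (.n 2 (.n 3 (.l 5) (.l 5)) (.n 0 (.l 9) (.l 9))) (.n 2 (.n 0 (.n 3 (.l 5) (.l 5)) (.l 9)) (.l 9))))
    [(310042951680, 28185722880), (1580547964928, 481036337152), (343597383680, 68719476736), (549755813888, 549755813888)] rfl (by decide +kernel)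
end
mutual
theorem c1_m3_t26 : CovD 0 progs [(281857228800, 56371445760), (2542620639232, 481036337152), (343597383680, 68719476736), (549755813888, 549755813888)] :=
  Pool.Agent.helper14.QF.covD_F chks_eq (.n 1 (.n 2 (.n 0 (.n 1 (.n 0 (.n 3 (.l 4) (.l 5)) (.n 2 (.l 9) (.l 9))) (.n 0 (.n 2 (.l 9) (.l 9)) (.l 9))) (.n 0 (.n 0 (.l 9) (.l 9)) (.l 9))) (.n 0 (.n 0 (.n 0 (.l 9) (.l 9)) (.l 9)) (.l 9))) (.n 0 (.n 2 (.n 0 (.n 0 (.l 9) (.l 9)) (.l 9)) (.l 9)) (.n 2 (.l 9) (.l 9))))
    [(281857228800, 56371445760), (2542620639232, 481036337152), (343597383680, 68719476736), (549755813888, 549755813888)] rfl (by decide +kernel)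
theorem c1_m3_t28 : CovD 0 progs [(281857228800, 56371445760), (2061584302080, 962072674304), (446676598784, 34359738368), (549755813888, 549755813888)] :=
  Pool.Agent.helper14.QF.covD_F chks_eq (.n 0 (.n 1 (.n 1 (.n 1 (.n 3 (.l 4) (.l 5)) (.n 3 (.n 0 (.l 5) (.l 5)) (.n 3 (.l 5) (.l 5)))) (.n 1 (.n 0 (.n 0 (.l 9) (.l 9)) (.l 9)) (.l 9))) (.n 1 (.n 0 (.l 9) (.l 9)) (.l 9))) (.n 0 (.n 1 (.n 1 (.n 1 (.n 3 (.l 5) (.l 5)) (.l 9)) (.l 9)) (.l 9)) (.n 1 (.n 1 (.n 1 (.n 1 (.n 0 (.l 9) (.l 9)) (.l 9)) (.l 9)) (.l 9)) (.l 9))))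
    [(281857228800, 56371445760), (2061584302080, 962072674304), (446676598784, 34359738368), (549755813888, 549755813888)] rfl (by decide +kernel)
end
mutual
theorem c1_m3_t29 : CovD 0 progs [(281857228800, 56371445760), (2061584302080, 962072674304), (515396075520, 34359738368), (549755813888, 549755813888)] :=
  Pool.Agent.helper14.QF.covD_F chks_eq (.n 1 (.n 0 (.n 1 (.n 1 (.n 1 (.n 3 (.l 5) (.l 5)) (.n 0 (.n 3 (.l 5) (.l 5)) (.l 9))) (.n 0 (.n 0 (.l 9) (.l 9)) (.l 9))) (.n 0 (.l 9) (.l 9))) (.n 1 (.n 1 (.n 0 (.n 0 (.l 9) (.l 9)) (.l 9)) (.l 9)) (.l 9))) (.n 0 (.n 0 (.l 9) (.l 9)) (.n 0 (.l 9) (.l 9))))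
    [(281857228800, 56371445760), (2061584302080, 962072674304), (515396075520, 34359738368), (549755813888, 549755813888)] rfl (by decide +kernel)
theorem c1_m3_t32 : CovD 0 progs [(352321536000, 14092861440), (1580547964928, 481036337152), (412316860416, 137438953472), (549755813888, 549755813888)] :=
  Pool.Agent.helper14.QF.covD_F chks_eq (.n 1 (.n 1 (.n 2 (.n 2 (.l 5) (.n 3 (.l 5) (.l 5))) (.n 2 (.l 9) (.l 9))) (.n 2 (.n 2 (.n 3 (.l 4) (.l 5)) (.l 9)) (.l 9))) (.n 2 (.n 1 (.n 2 (.n 1 (.l 9) (.l 9)) (.l 9)) (.n 1 (.l 9) (.l 9))) (.l 9)))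
    [(352321536000, 14092861440), (1580547964928, 481036337152), (412316860416, 137438953472), (549755813888, 549755813888)] rfl (by decide +kernel)
end
mutual
theorem c1_m3_t33 : CovD 0 progs [(380507258880, 14092861440), (1580547964928, 481036337152), (412316860416, 137438953472), (549755813888, 549755813888)] :=
  Pool.Agent.helper14.QF.covD_F chks_eq (.n 2 (.n 1 (.n 1 (.n 1 (.n 3 (.l 5) (.l 5)) (.n 2 (.l 5) (.l 9))) (.n 2 (.n 3 (.l 5) (.l 5)) (.l 9))) (.n 2 (.n 1 (.l 9) (.l 9)) (.l 9))) (.n 1 (.n 1 (.n 1 (.l 9) (.l 9)) (.l 9)) (.l 9)))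
    [(380507258880, 14092861440), (1580547964928, 481036337152), (412316860416, 137438953472), (549755813888, 549755813888)] rfl (by decide +kernel)
theorem c1_m3_t35 : CovD 0 progs [(366414397440, 28185722880), (2542620639232, 481036337152), (412316860416, 137438953472), (549755813888, 549755813888)] :=
  Pool.Agent.helper14.QF.covD_F chks_eq (.n 1 (.n 2 (.n 2 (.n 0 (.l 9) (.l 9)) (.l 9)) (.l 9)) (.n 2 (.n 0 (.l 9) (.l 9)) (.l 9)))
    [(366414397440, 28185722880), (2542620639232, 481036337152), (412316860416, 137438953472), (549755813888, 549755813888)] rfl (by decide +kernel)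
end
mutual
theorem c1_m3_t37 : CovD 0 progs [(422785843200, 28185722880), (1580547964928, 481036337152), (412316860416, 137438953472), (549755813888, 549755813888)] :=
  Pool.Agent.helper14.QF.covD_F chks_eq (.n 1 (.n 1 (.n 0 (.n 2 (.n 2 (.n 3 (.l 4) (.l 5)) (.n 1 (.l 9) (.l 9))) (.l 9)) (.n 2 (.n 2 (.n 3 (.l 4) (.l 5)) (.l 9)) (.l 9))) (.n 2 (.n 2 (.n 0 (.n 2 (.l 9) (.l 9)) (.l 9)) (.l 9)) (.l 9))) (.n 2 (.n 2 (.n 1 (.l 9) (.l 9)) (.l 9)) (.n 0 (.l 9) (.l 9))))
    [(422785843200, 28185722880), (1580547964928, 481036337152), (412316860416, 137438953472), (549755813888, 549755813888)] rfl (by decide +kernel)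
theorem c1_m3_t38 : CovD 0 progs [(422785843200, 28185722880), (2542620639232, 481036337152), (412316860416, 137438953472), (549755813888, 549755813888)] :=
  Pool.Agent.helper14.QF.covD_F chks_eq (.n 1 (.n 2 (.n 1 (.l 9) (.l 9)) (.l 9)) (.n 2 (.n 0 (.l 9) (.l 9)) (.l 9)))
    [(422785843200, 28185722880), (2542620639232, 481036337152), (412316860416, 137438953472), (549755813888, 549755813888)] rfl (by decide +kernel)
end
theorem c1_m3_t3 : CovD 0 progs [(253671505920, 28185722880), (2542620639232, 481036337152), (137438953472, 137438953472), (549755813888, 549755813888)] :=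
  covD_split 1 (by decide +kernel) c1_m3_t1 c1_m3_t2
theorem c1_m3_t4 : CovD 0 progs [(253671505920, 28185722880), (2061584302080, 962072674304), (137438953472, 137438953472), (549755813888, 549755813888)] :=
  covD_split 1 (by decide +kernel) c1_m3_t0 c1_m3_t3
theorem c1_m3_t8 : CovD 0 progs [(310042951680, 28185722880), (2542620639232, 481036337152), (137438953472, 137438953472), (549755813888, 549755813888)] :=
  covD_split 1 (by decide +kernel) c1_m3_t6 c1_m3_t7
theorem c1_m3_t9 : CovD 0 progs [(310042951680, 28185722880), (2061584302080, 962072674304), (137438953472, 137438953472), (549755813888, 549755813888)] :=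
  covD_split 1 (by decide +kernel) c1_m3_t5 c1_m3_t8
theorem c1_m3_t10 : CovD 0 progs [(281857228800, 56371445760), (2061584302080, 962072674304), (137438953472, 137438953472), (549755813888, 549755813888)] :=
  covD_split 0 (by decide +kernel) c1_m3_t4 c1_m3_t9
theorem c1_m3_t14 : CovD 0 progs [(366414397440, 28185722880), (2542620639232, 481036337152), (137438953472, 137438953472), (549755813888, 549755813888)] :=
  covD_split 1 (by decide +kernel) c1_m3_t12 c1_m3_t13
theorem c1_m3_t15 : CovD 0 progs [(366414397440, 28185722880), (2061584302080, 962072674304), (137438953472, 137438953472), (549755813888, 549755813888)] :=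
  covD_split 1 (by decide +kernel) c1_m3_t11 c1_m3_t14
theorem c1_m3_t19 : CovD 0 progs [(422785843200, 28185722880), (2542620639232, 481036337152), (137438953472, 137438953472), (549755813888, 549755813888)] :=
  covD_split 1 (by decide +kernel) c1_m3_t17 c1_m3_t18
theorem c1_m3_t20 : CovD 0 progs [(422785843200, 28185722880), (2061584302080, 962072674304), (137438953472, 137438953472), (549755813888, 549755813888)] :=
  covD_split 1 (by decide +kernel) c1_m3_t16 c1_m3_t19
theorem c1_m3_t21 : CovD 0 progs [(394600120320, 56371445760), (2061584302080, 962072674304), (137438953472, 137438953472), (549755813888, 549755813888)] :=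
  covD_split 0 (by decide +kernel) c1_m3_t15 c1_m3_t20
theorem c1_m3_t22 : CovD 0 progs [(338228674560, 112742891520), (2061584302080, 962072674304), (137438953472, 137438953472), (549755813888, 549755813888)] :=
  covD_split 0 (by decide +kernel) c1_m3_t10 c1_m3_t21
theorem c1_m3_t25 : CovD 0 progs [(281857228800, 56371445760), (1580547964928, 481036337152), (343597383680, 68719476736), (549755813888, 549755813888)] :=
  covD_split 0 (by decide +kernel) c1_m3_t23 c1_m3_t24
theorem c1_m3_t27 : CovD 0 progs [(281857228800, 56371445760), (2061584302080, 962072674304), (343597383680, 68719476736), (549755813888, 549755813888)] :=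
  covD_split 1 (by decide +kernel) c1_m3_t25 c1_m3_t26
theorem c1_m3_t30 : CovD 0 progs [(281857228800, 56371445760), (2061584302080, 962072674304), (481036337152, 68719476736), (549755813888, 549755813888)] :=
  covD_split 2 (by decide +kernel) c1_m3_t28 c1_m3_t29
theorem c1_m3_t31 : CovD 0 progs [(281857228800, 56371445760), (2061584302080, 962072674304), (412316860416, 137438953472), (549755813888, 549755813888)] :=
  covD_split 2 (by decide +kernel) c1_m3_t27 c1_m3_t30
theorem c1_m3_t34 : CovD 0 progs [(366414397440, 28185722880), (1580547964928, 481036337152), (412316860416, 137438953472), (549755813888, 549755813888)] :=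
  covD_split 0 (by decide +kernel) c1_m3_t32 c1_m3_t33
theorem c1_m3_t36 : CovD 0 progs [(366414397440, 28185722880), (2061584302080, 962072674304), (412316860416, 137438953472), (549755813888, 549755813888)] :=
  covD_split 1 (by decide +kernel) c1_m3_t34 c1_m3_t35
theorem c1_m3_t39 : CovD 0 progs [(422785843200, 28185722880), (2061584302080, 962072674304), (412316860416, 137438953472), (549755813888, 549755813888)] :=
  covD_split 1 (by decide +kernel) c1_m3_t37 c1_m3_t38
theorem c1_m3_t40 : CovD 0 progs [(394600120320, 56371445760), (2061584302080, 962072674304), (412316860416, 137438953472), (549755813888, 549755813888)] :=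
  covD_split 0 (by decide +kernel) c1_m3_t36 c1_m3_t39
theorem c1_m3_t41 : CovD 0 progs [(338228674560, 112742891520), (2061584302080, 962072674304), (412316860416, 137438953472), (549755813888, 549755813888)] :=
  covD_split 0 (by decide +kernel) c1_m3_t31 c1_m3_t40
theorem c1_m3 : CovD 0 progs [(338228674560, 112742891520), (2061584302080, 962072674304), (274877906944, 274877906944), (549755813888, 549755813888)] :=
  covD_split 2 (by decide +kernel) c1_m3_t22 c1_m3_t41

end Pool.Agent.helper71.FJ.Crt.QMb
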