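import Pool.Agent.helper71.FJ.Crt.QMbP

/-!
Generated certificates.
-/

namespace Pool.Agent.helper71.FJ.Crt.QMb

open Pool.Agent.helper31.IA (Z Op)
open Pool.Agent.helper31.IC

mutual
theorem c1_m6_t0 : CovD 0 progs [(14092861440, 14092861440), (5909874999296, 962072674304), (137438953472, 137438953472), (824633720832, 274877906944)] :=
  Pool.Agent.helper14.QF.covD_F chks_eq (.n 3 (.l 8) (.n 1 (.n 2 (.l 4) (.n 1 (.n 2 (.l 4) (.l 4)) (.n 2 (.l 4) (.n 0 (.l 4) (.l 4))))) (.n 1 (.n 2 (.l 4) (.n 2 (.l 4) (.n 2 (.l 4) (.l 4)))) (.n 2 (.l 4) (.n 2 (.l 4) (.n 2 (.l 4) (.l 7)))))))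
    [(14092861440, 14092861440), (5909874999296, 962072674304), (137438953472, 137438953472), (824633720832, 274877906944)] rfl (by decide +kernel)
theorem c1_m6_t1 : CovD 0 progs [(42278584320, 14092861440), (5909874999296, 962072674304), (68719476736, 68719476736), (824633720832, 274877906944)] :=
  Pool.Agent.helper14.QF.covD_F chks_eq (.n 3 (.l 8) (.n 1 (.n 0 (.l 4) (.l 4)) (.n 2 (.l 4) (.n 0 (.l 4) (.l 4)))))
    [(42278584320, 14092861440), (5909874999296, 962072674304), (68719476736, 68719476736), (824633720832, 274877906944)] rfl (by decide +kernel)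
end
mutual
theorem c1_m6_t2 : CovD 0 progs [(42278584320, 14092861440), (5909874999296, 962072674304), (206158430208, 68719476736), (824633720832, 274877906944)] :=
  Pool.Agent.helper14.QF.covD_F chks_eq (.n 2 (.n 3 (.l 8) (.n 1 (.n 1 (.l 4) (.l 4)) (.n 0 (.n 1 (.l 4) (.l 4)) (.n 1 (.l 4) (.n 0 (.l 4) (.l 4)))))) (.n 3 (.l 8) (.n 1 (.n 1 (.n 0 (.l 4) (.l 4)) (.n 2 (.l 4) (.l 7))) (.n 2 (.n 3 (.l 8) (.n 1 (.l 4) (.n 0 (.l 4) (.l 4)))) (.n 0 (.l 7) (.l 7))))))
    [(42278584320, 14092861440), (5909874999296, 962072674304), (206158430208, 68719476736), (824633720832, 274877906944)] rfl (by decide +kernel)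
theorem c1_m6_t5 : CovD 0 progs [(70464307200, 14092861440), (5428838662144, 481036337152), (137438953472, 137438953472), (824633720832, 274877906944)] :=
  Pool.Agent.helper14.QF.covD_F chks_eq (.n 2 (.n 2 (.n 3 (.l 8) (.l 4)) (.n 3 (.l 8) (.n 0 (.l 4) (.l 4)))) (.n 1 (.n 3 (.l 8) (.n 2 (.l 4) (.n 2 (.l 4) (.n 0 (.l 4) (.l 4))))) (.n 3 (.l 8) (.n 0 (.n 2 (.l 4) (.n 2 (.l 4) (.l 5))) (.n 2 (.l 4) (.n 2 (.l 4) (.n 0 (.l 5) (.l 5))))))))
    [(70464307200, 14092861440), (5428838662144, 481036337152), (137438953472, 137438953472), (824633720832, 274877906944)] rfl (by decide +kernel)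
end
mutual
theorem c1_m6_t6 : CovD 0 progs [(70464307200, 14092861440), (6390911336448, 481036337152), (68719476736, 68719476736), (824633720832, 274877906944)] :=
  Pool.Agent.helper14.QF.covD_F chks_eq (.n 2 (.n 3 (.n 0 (.l 4) (.l 4)) (.l 4)) (.n 2 (.n 3 (.l 8) (.l 4)) (.n 3 (.l 8) (.n 0 (.l 4) (.l 4)))))
    [(70464307200, 14092861440), (6390911336448, 481036337152), (68719476736, 68719476736), (824633720832, 274877906944)] rfl (by decide +kernel)
theorem c1_m6_t7 : CovD 0 progs [(70464307200, 14092861440), (6390911336448, 481036337152), (206158430208, 68719476736), (824633720832, 274877906944)] :=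
  Pool.Agent.helper14.QF.covD_F chks_eq (.n 1 (.n 3 (.l 8) (.n 2 (.n 2 (.l 4) (.n 0 (.l 4) (.l 4))) (.n 2 (.n 0 (.l 4) (.n 0 (.l 4) (.l 4))) (.n 2 (.l 7) (.l 7))))) (.n 3 (.l 8) (.n 0 (.n 2 (.n 2 (.l 4) (.l 4)) (.n 2 (.n 0 (.l 4) (.l 4)) (.l 7))) (.n 2 (.n 2 (.l 4) (.n 0 (.l 4) (.l 4))) (.n 2 (.n 3 (.l 5) (.n 0 (.l 5) (.l 5))) (.n 0 (.l 7) (.l 7)))))))
    [(70464307200, 14092861440), (6390911336448, 481036337152), (206158430208, 68719476736), (824633720832, 274877906944)] rfl (by decide +kernel)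
end
mutual
theorem c1_m6_t10 : CovD 0 progs [(98650030080, 14092861440), (5909874999296, 962072674304), (137438953472, 137438953472), (687194767360, 137438953472)] :=
  Pool.Agent.helper14.QF.covD_F chks_eq (.n 2 (.n 3 (.l 8) (.n 1 (.n 1 (.l 4) (.l 4)) (.n 2 (.l 4) (.n 1 (.l 4) (.l 4))))) (.n 3 (.l 8) (.n 0 (.n 2 (.n 1 (.l 8) (.n 2 (.l 4) (.l 8))) (.l 8)) (.n 2 (.n 1 (.n 1 (.l 4) (.l 4)) (.n 1 (.n 0 (.l 4) (.l 4)) (.n 2 (.l 4) (.l 4)))) (.n 2 (.l 8) (.l 8))))))
    [(98650030080, 14092861440), (5909874999296, 962072674304), (137438953472, 137438953472), (687194767360, 137438953472)] rfl (by decide +kernel)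
theorem c1_m6_t11 : CovD 0 progs [(98650030080, 14092861440), (5428838662144, 481036337152), (137438953472, 137438953472), (962072674304, 137438953472)] :=
  Pool.Agent.helper14.QF.covD_F chks_eq (.n 1 (.n 0 (.n 2 (.l 4) (.n 2 (.l 4) (.n 1 (.l 4) (.n 0 (.l 4) (.l 5))))) (.n 2 (.l 4) (.n 2 (.l 4) (.n 2 (.l 4) (.n 1 (.l 5) (.l 5)))))) (.n 2 (.n 2 (.l 4) (.l 4)) (.n 2 (.n 2 (.l 4) (.n 0 (.l 4) (.l 4))) (.n 0 (.n 2 (.n 0 (.l 4) (.l 4)) (.n 2 (.l 5) (.l 7))) (.n 2 (.n 0 (.l 4) (.l 5)) (.n 2 (.n 0 (.l 5) (.l 5)) (.l 7)))))))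
    [(98650030080, 14092861440), (5428838662144, 481036337152), (137438953472, 137438953472), (962072674304, 137438953472)] rfl (by decide +kernel)
end
mutual
theorem c1_m6_t12 : CovD 0 progs [(98650030080, 14092861440), (6150393167872, 240518168576), (137438953472, 137438953472), (962072674304, 137438953472)] :=
  Pool.Agent.helper14.QF.covD_F chks_eq (.n 2 (.n 2 (.l 4) (.n 0 (.l 4) (.l 4))) (.n 0 (.n 2 (.n 2 (.l 4) (.l 5)) (.n 2 (.n 3 (.l 5) (.l 5)) (.n 2 (.l 7) (.l 7)))) (.n 2 (.n 2 (.l 4) (.n 0 (.l 4) (.l 4))) (.n 0 (.n 2 (.n 1 (.l 5) (.l 5)) (.l 9)) (.n 2 (.n 1 (.l 5) (.l 5)) (.l 9))))))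
    [(98650030080, 14092861440), (6150393167872, 240518168576), (137438953472, 137438953472), (962072674304, 137438953472)] rfl (by decide +kernel)
theorem c1_m6_t13 : CovD 0 progs [(98650030080, 14092861440), (6631429505024, 240518168576), (137438953472, 137438953472), (962072674304, 137438953472)] :=
  Pool.Agent.helper14.QF.covD_F chks_eq (.n 0 (.n 2 (.n 2 (.l 4) (.l 4)) (.n 2 (.n 2 (.l 4) (.n 1 (.l 4) (.l 4))) (.n 2 (.n 0 (.n 1 (.l 5) (.l 5)) (.n 3 (.l 5) (.l 5))) (.n 2 (.l 7) (.l 7))))) (.n 2 (.n 2 (.l 4) (.n 0 (.l 4) (.l 4))) (.n 2 (.n 2 (.n 0 (.l 4) (.l 4)) (.n 2 (.l 4) (.n 0 (.l 4) (.l 4)))) (.n 2 (.n 2 (.n 0 (.l 5) (.l 9)) (.l 9)) (.l 9)))))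
    [(98650030080, 14092861440), (6631429505024, 240518168576), (137438953472, 137438953472), (962072674304, 137438953472)] rfl (by decide +kernel)
end
mutual
theorem c1_m6_t19 : CovD 0 progs [(119789322240, 7046430720), (5188320493568, 240518168576), (137438953472, 137438953472), (824633720832, 274877906944)] :=
  Pool.Agent.helper14.QF.covD_F chks_eq (.n 2 (.n 3 (.l 4) (.n 0 (.l 4) (.l 4))) (.n 2 (.n 3 (.l 4) (.n 0 (.l 4) (.l 4))) (.n 2 (.n 3 (.l 4) (.n 0 (.l 4) (.l 4))) (.n 1 (.n 3 (.l 5) (.l 5)) (.l 9)))))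
    [(119789322240, 7046430720), (5188320493568, 240518168576), (137438953472, 137438953472), (824633720832, 274877906944)] rfl (by decide +kernel)
theorem c1_m6_t20 : CovD 0 progs [(119789322240, 7046430720), (5669356830720, 240518168576), (137438953472, 137438953472), (824633720832, 274877906944)] :=
  Pool.Agent.helper14.QF.covD_F chks_eq (.n 2 (.n 2 (.n 0 (.l 4) (.l 4)) (.n 3 (.l 4) (.l 4))) (.n 2 (.n 2 (.n 3 (.l 4) (.l 4)) (.n 3 (.l 4) (.n 0 (.l 4) (.l 4)))) (.n 2 (.n 3 (.n 0 (.l 5) (.l 5)) (.n 3 (.l 5) (.l 5))) (.l 9))))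
    [(119789322240, 7046430720), (5669356830720, 240518168576), (137438953472, 137438953472), (824633720832, 274877906944)] rfl (by decide +kernel)
end
mutual
theorem c1_m6_t22 : CovD 0 progs [(119789322240, 7046430720), (6390911336448, 481036337152), (68719476736, 68719476736), (824633720832, 274877906944)] :=
  Pool.Agent.helper14.QF.covD_F chks_eq (.n 2 (.n 3 (.l 4) (.n 0 (.l 4) (.l 4))) (.n 1 (.n 3 (.l 4) (.l 4)) (.n 2 (.n 3 (.l 4) (.l 4)) (.n 3 (.l 4) (.l 4)))))
    [(119789322240, 7046430720), (6390911336448, 481036337152), (68719476736, 68719476736), (824633720832, 274877906944)] rfl (by decide +kernel)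
theorem c1_m6_t23 : CovD 0 progs [(119789322240, 7046430720), (6390911336448, 481036337152), (206158430208, 68719476736), (824633720832, 274877906944)] :=
  Pool.Agent.helper14.QF.covD_F chks_eq (.n 2 (.n 3 (.n 3 (.l 8) (.n 1 (.n 1 (.l 4) (.l 4)) (.n 2 (.l 4) (.l 5)))) (.n 1 (.n 2 (.l 4) (.n 3 (.l 4) (.l 4))) (.n 0 (.n 2 (.l 4) (.n 1 (.l 4) (.l 5))) (.n 2 (.l 4) (.n 2 (.l 4) (.l 9)))))) (.n 2 (.n 0 (.n 1 (.n 2 (.l 9) (.l 9)) (.l 9)) (.l 9)) (.l 9)))
    [(119789322240, 7046430720), (6390911336448, 481036337152), (206158430208, 68719476736), (824633720832, 274877906944)] rfl (by decide +kernel)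
end
mutual
theorem c1_m6_t26 : CovD 0 progs [(133882183680, 7046430720), (5428838662144, 481036337152), (137438953472, 137438953472), (824633720832, 274877906944)] :=
  Pool.Agent.helper14.QF.covD_F chks_eq (.n 1 (.n 2 (.n 2 (.l 4) (.n 1 (.l 4) (.l 4))) (.n 2 (.n 1 (.n 3 (.l 4) (.l 4)) (.n 3 (.l 4) (.l 4))) (.n 2 (.n 2 (.n 3 (.l 4) (.l 4)) (.l 9)) (.l 9)))) (.n 2 (.n 2 (.l 4) (.n 3 (.l 4) (.l 4))) (.n 2 (.n 2 (.n 3 (.l 4) (.l 4)) (.n 3 (.l 5) (.n 0 (.l 4) (.l 4)))) (.n 0 (.n 2 (.l 9) (.l 9)) (.l 9)))))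
    [(133882183680, 7046430720), (5428838662144, 481036337152), (137438953472, 137438953472), (824633720832, 274877906944)] rfl (by decide +kernel)
theorem c1_m6_t27 : CovD 0 progs [(133882183680, 7046430720), (6390911336448, 481036337152), (68719476736, 68719476736), (824633720832, 274877906944)] :=
  Pool.Agent.helper14.QF.covD_F chks_eq (.n 3 (.n 2 (.l 5) (.n 1 (.l 5) (.n 2 (.l 4) (.l 4)))) (.n 1 (.n 2 (.l 4) (.n 0 (.l 4) (.l 4))) (.n 2 (.l 4) (.n 2 (.l 4) (.l 4)))))
    [(133882183680, 7046430720), (6390911336448, 481036337152), (68719476736, 68719476736), (824633720832, 274877906944)] rfl (by decide +kernel)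
end
mutual
theorem c1_m6_t28 : CovD 0 progs [(133882183680, 7046430720), (6390911336448, 481036337152), (206158430208, 68719476736), (824633720832, 274877906944)] :=
  Pool.Agent.helper14.QF.covD_F chks_eq (.n 2 (.n 2 (.n 1 (.n 3 (.l 4) (.n 0 (.l 4) (.l 4))) (.n 3 (.n 0 (.l 4) (.l 5)) (.n 3 (.l 4) (.l 2)))) (.n 1 (.n 2 (.n 3 (.l 4) (.n 0 (.l 4) (.l 4))) (.l 9)) (.n 2 (.l 9) (.l 9)))) (.n 2 (.l 9) (.l 9)))
    [(133882183680, 7046430720), (6390911336448, 481036337152), (206158430208, 68719476736), (824633720832, 274877906944)] rfl (by decide +kernel)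
theorem c1_m6_t32 : CovD 0 progs [(155021475840, 14092861440), (5188320493568, 240518168576), (137438953472, 137438953472), (824633720832, 274877906944)] :=
  Pool.Agent.helper14.QF.covD_F chks_eq (.n 0 (.n 2 (.n 2 (.l 4) (.n 3 (.l 4) (.l 4))) (.n 2 (.n 1 (.n 3 (.l 4) (.l 4)) (.n 3 (.l 5) (.n 0 (.l 4) (.l 4)))) (.n 2 (.l 9) (.l 9)))) (.n 2 (.n 2 (.l 4) (.n 3 (.l 4) (.l 4))) (.n 2 (.n 2 (.n 3 (.l 4) (.l 4)) (.n 2 (.n 3 (.l 4) (.l 4)) (.l 9))) (.l 9))))
    [(155021475840, 14092861440), (5188320493568, 240518168576), (137438953472, 137438953472), (824633720832, 274877906944)] rfl (by decide +kernel)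
end
mutual
theorem c1_m6_t33 : CovD 0 progs [(155021475840, 14092861440), (5669356830720, 240518168576), (137438953472, 137438953472), (824633720832, 274877906944)] :=
  Pool.Agent.helper14.QF.covD_F chks_eq (.n 2 (.n 2 (.n 3 (.l 4) (.l 4)) (.n 2 (.n 3 (.l 4) (.l 4)) (.n 3 (.l 4) (.n 0 (.l 4) (.l 4))))) (.n 0 (.n 2 (.n 2 (.n 3 (.l 4) (.l 4)) (.n 2 (.n 3 (.l 4) (.l 4)) (.l 9))) (.l 9)) (.n 2 (.n 2 (.n 3 (.l 5) (.n 0 (.l 4) (.l 2))) (.l 9)) (.l 9))))
    [(155021475840, 14092861440), (5669356830720, 240518168576), (137438953472, 137438953472), (824633720832, 274877906944)] rfl (by decide +kernel)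
theorem c1_m6_t35 : CovD 0 progs [(155021475840, 14092861440), (6150393167872, 240518168576), (137438953472, 137438953472), (824633720832, 274877906944)] :=
  Pool.Agent.helper14.QF.covD_F chks_eq (.n 0 (.n 2 (.n 2 (.n 3 (.l 4) (.l 4)) (.n 2 (.n 3 (.l 4) (.l 4)) (.n 3 (.l 4) (.l 4)))) (.n 2 (.n 1 (.n 2 (.n 3 (.l 4) (.l 4)) (.l 9)) (.n 2 (.n 3 (.l 4) (.l 4)) (.l 9))) (.l 9))) (.n 2 (.n 2 (.n 3 (.l 4) (.l 4)) (.n 2 (.n 3 (.l 4) (.l 4)) (.n 3 (.l 4) (.l 2)))) (.n 2 (.n 2 (.n 2 (.n 3 (.l 4) (.l 2)) (.l 9)) (.l 9)) (.l 9))))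
    [(155021475840, 14092861440), (6150393167872, 240518168576), (137438953472, 137438953472), (824633720832, 274877906944)] rfl (by decide +kernel)
end
mutual
theorem c1_m6_t36 : CovD 0 progs [(147975045120, 7046430720), (6631429505024, 240518168576), (137438953472, 137438953472), (824633720832, 274877906944)] :=
  Pool.Agent.helper14.QF.covD_F chks_eq (.n 2 (.n 2 (.n 3 (.l 4) (.l 4)) (.n 2 (.n 3 (.l 4) (.l 4)) (.n 0 (.n 3 (.l 4) (.l 4)) (.n 3 (.l 4) (.l 2))))) (.n 2 (.n 2 (.n 2 (.n 3 (.l 4) (.n 0 (.l 4) (.l 2))) (.l 9)) (.l 9)) (.l 9)))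
    [(147975045120, 7046430720), (6631429505024, 240518168576), (137438953472, 137438953472), (824633720832, 274877906944)] rfl (by decide +kernel)
theorem c1_m6_t37 : CovD 0 progs [(162067906560, 7046430720), (6631429505024, 240518168576), (137438953472, 137438953472), (824633720832, 274877906944)] :=
  Pool.Agent.helper14.QF.covD_F chks_eq (.n 2 (.n 2 (.n 3 (.l 4) (.l 2)) (.n 2 (.n 3 (.l 4) (.l 2)) (.n 1 (.n 3 (.l 4) (.l 2)) (.n 3 (.l 4) (.l 2))))) (.n 2 (.n 2 (.n 0 (.n 1 (.n 2 (.l 9) (.l 9)) (.l 9)) (.l 9)) (.l 9)) (.l 9)))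
    [(162067906560, 7046430720), (6631429505024, 240518168576), (137438953472, 137438953472), (824633720832, 274877906944)] rfl (by decide +kernel)
end
mutual
theorem c1_m6_t42 : CovD 0 progs [(183207198720, 14092861440), (5188320493568, 240518168576), (137438953472, 137438953472), (824633720832, 274877906944)] :=
  Pool.Agent.helper14.QF.covD_F chks_eq (.n 2 (.n 2 (.n 3 (.l 4) (.l 4)) (.n 2 (.n 3 (.l 4) (.l 4)) (.n 3 (.l 4) (.n 0 (.l 4) (.l 2))))) (.n 2 (.n 2 (.n 3 (.n 0 (.l 4) (.l 4)) (.n 3 (.l 2) (.l 2))) (.n 2 (.l 9) (.l 9))) (.l 9)))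
    [(183207198720, 14092861440), (5188320493568, 240518168576), (137438953472, 137438953472), (824633720832, 274877906944)] rfl (by decide +kernel)
theorem c1_m6_t43 : CovD 0 progs [(183207198720, 14092861440), (5669356830720, 240518168576), (137438953472, 137438953472), (824633720832, 274877906944)] :=
  Pool.Agent.helper14.QF.covD_F chks_eq (.n 2 (.n 2 (.n 3 (.l 4) (.n 0 (.l 2) (.l 2))) (.n 2 (.n 3 (.l 4) (.n 0 (.l 2) (.l 2))) (.n 0 (.n 3 (.l 4) (.l 2)) (.n 3 (.l 3) (.l 2))))) (.n 0 (.n 2 (.n 2 (.n 2 (.n 3 (.l 4) (.l 2)) (.l 9)) (.l 9)) (.l 9)) (.n 2 (.n 2 (.n 1 (.n 3 (.l 3) (.l 2)) (.l 9)) (.l 9)) (.l 9))))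
    [(183207198720, 14092861440), (5669356830720, 240518168576), (137438953472, 137438953472), (824633720832, 274877906944)] rfl (by decide +kernel)
end
mutual
theorem c1_m6_t45 : CovD 0 progs [(183207198720, 14092861440), (6150393167872, 240518168576), (137438953472, 137438953472), (824633720832, 274877906944)] :=
  Pool.Agent.helper14.QF.covD_F chks_eq (.n 2 (.n 2 (.n 3 (.n 0 (.l 4) (.l 2)) (.n 3 (.l 2) (.l 2))) (.n 0 (.n 2 (.n 3 (.l 4) (.l 2)) (.n 0 (.n 3 (.l 4) (.l 2)) (.n 3 (.l 2) (.l 2)))) (.n 2 (.n 3 (.l 2) (.l 2)) (.n 1 (.n 3 (.l 2) (.l 2)) (.n 3 (.l 2) (.l 2)))))) (.n 2 (.n 2 (.n 0 (.n 0 (.n 2 (.l 9) (.l 9)) (.l 9)) (.l 9)) (.l 9)) (.l 9)))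
    [(183207198720, 14092861440), (6150393167872, 240518168576), (137438953472, 137438953472), (824633720832, 274877906944)] rfl (by decide +kernel)
theorem c1_m6_t46 : CovD 0 progs [(176160768000, 7046430720), (6631429505024, 240518168576), (137438953472, 137438953472), (824633720832, 274877906944)] :=
  Pool.Agent.helper14.QF.covD_F chks_eq (.n 2 (.n 2 (.n 0 (.n 3 (.l 2) (.l 2)) (.n 3 (.l 2) (.l 2))) (.n 2 (.n 0 (.n 3 (.l 2) (.l 2)) (.n 3 (.l 2) (.l 2))) (.n 3 (.n 2 (.l 2) (.l 5)) (.n 3 (.l 2) (.l 2))))) (.n 2 (.n 2 (.l 9) (.l 9)) (.l 9)))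
    [(176160768000, 7046430720), (6631429505024, 240518168576), (137438953472, 137438953472), (824633720832, 274877906944)] rfl (by decide +kernel)
end
mutual
theorem c1_m6_t47 : CovD 0 progs [(190253629440, 7046430720), (6631429505024, 240518168576), (137438953472, 137438953472), (824633720832, 274877906944)] :=
  Pool.Agent.helper14.QF.covD_F chks_eq (.n 0 (.n 1 (.n 2 (.n 2 (.n 3 (.l 2) (.l 2)) (.n 2 (.n 3 (.l 2) (.l 2)) (.n 3 (.l 2) (.l 2)))) (.n 2 (.l 9) (.l 9))) (.l 10)) (.l 10))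
    [(190253629440, 7046430720), (6631429505024, 240518168576), (137438953472, 137438953472), (824633720832, 274877906944)] rfl (by decide +kernel)
theorem c1_m6_t51 : CovD 0 progs [(211392921600, 14092861440), (5428838662144, 481036337152), (68719476736, 68719476736), (824633720832, 274877906944)] :=
  Pool.Agent.helper14.QF.covD_F chks_eq (.n 1 (.n 2 (.n 3 (.l 3) (.l 2)) (.n 2 (.n 3 (.l 3) (.l 2)) (.n 0 (.n 3 (.l 3) (.l 2)) (.n 3 (.l 3) (.l 2))))) (.n 2 (.n 2 (.n 3 (.l 3) (.l 2)) (.n 3 (.l 3) (.l 2))) (.n 0 (.n 2 (.n 3 (.l 2) (.l 2)) (.n 0 (.n 3 (.l 2) (.l 2)) (.n 3 (.l 2) (.l 2)))) (.n 2 (.n 3 (.l 2) (.l 2)) (.n 1 (.n 3 (.l 2) (.l 2)) (.n 3 (.l 2) (.l 2)))))))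
    [(211392921600, 14092861440), (5428838662144, 481036337152), (68719476736, 68719476736), (824633720832, 274877906944)] rfl (by decide +kernel)
end
mutual
theorem c1_m6_t52 : CovD 0 progs [(211392921600, 14092861440), (5428838662144, 481036337152), (206158430208, 68719476736), (824633720832, 274877906944)] :=
  Pool.Agent.helper14.QF.covD_F chks_eq (.n 2 (.n 2 (.n 2 (.n 1 (.n 0 (.n 3 (.l 3) (.l 2)) (.l 9)) (.l 9)) (.l 9)) (.l 9)) (.l 9))
    [(211392921600, 14092861440), (5428838662144, 481036337152), (206158430208, 68719476736), (824633720832, 274877906944)] rfl (by decide +kernel)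
theorem c1_m6_t54 : CovD 0 progs [(211392921600, 14092861440), (6390911336448, 481036337152), (137438953472, 137438953472), (824633720832, 274877906944)] :=
  Pool.Agent.helper14.QF.covD_F chks_eq (.n 0 (.n 1 (.n 1 (.n 2 (.n 2 (.n 3 (.l 2) (.l 2)) (.n 2 (.n 3 (.l 2) (.l 2)) (.n 3 (.l 2) (.l 2)))) (.n 2 (.l 9) (.l 9))) (.l 10)) (.l 10)) (.l 10))
    [(211392921600, 14092861440), (6390911336448, 481036337152), (137438953472, 137438953472), (824633720832, 274877906944)] rfl (by decide +kernel)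
end
theorem c1_m6_t3 : CovD 0 progs [(42278584320, 14092861440), (5909874999296, 962072674304), (137438953472, 137438953472), (824633720832, 274877906944)] :=
  covD_split 2 (by decide +kernel) c1_m6_t1 c1_m6_t2
theorem c1_m6_t4 : CovD 0 progs [(28185722880, 28185722880), (5909874999296, 962072674304), (137438953472, 137438953472), (824633720832, 274877906944)] :=
  covD_split 0 (by decide +kernel) c1_m6_t0 c1_m6_t3
theorem c1_m6_t8 : CovD 0 progs [(70464307200, 14092861440), (6390911336448, 481036337152), (137438953472, 137438953472), (824633720832, 274877906944)] :=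
  covD_split 2 (by decide +kernel) c1_m6_t6 c1_m6_t7
theorem c1_m6_t9 : CovD 0 progs [(70464307200, 14092861440), (5909874999296, 962072674304), (137438953472, 137438953472), (824633720832, 274877906944)] :=
  covD_split 1 (by decide +kernel) c1_m6_t5 c1_m6_t8
theorem c1_m6_t14 : CovD 0 progs [(98650030080, 14092861440), (6390911336448, 481036337152), (137438953472, 137438953472), (962072674304, 137438953472)] :=
  covD_split 1 (by decide +kernel) c1_m6_t12 c1_m6_t13
theorem c1_m6_t15 : CovD 0 progs [(98650030080, 14092861440), (5909874999296, 962072674304), (137438953472, 137438953472), (962072674304, 137438953472)] :=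
  covD_split 1 (by decide +kernel) c1_m6_t11 c1_m6_t14
theorem c1_m6_t16 : CovD 0 progs [(98650030080, 14092861440), (5909874999296, 962072674304), (137438953472, 137438953472), (824633720832, 274877906944)] :=
  covD_split 3 (by decide +kernel) c1_m6_t10 c1_m6_t15
theorem c1_m6_t17 : CovD 0 progs [(84557168640, 28185722880), (5909874999296, 962072674304), (137438953472, 137438953472), (824633720832, 274877906944)] :=
  covD_split 0 (by decide +kernel) c1_m6_t9 c1_m6_t16
theorem c1_m6_t18 : CovD 0 progs [(56371445760, 56371445760), (5909874999296, 962072674304), (137438953472, 137438953472), (824633720832, 274877906944)] :=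
  covD_split 0 (by decide +kernel) c1_m6_t4 c1_m6_t17
theorem c1_m6_t21 : CovD 0 progs [(119789322240, 7046430720), (5428838662144, 481036337152), (137438953472, 137438953472), (824633720832, 274877906944)] :=
  covD_split 1 (by decide +kernel) c1_m6_t19 c1_m6_t20
theorem c1_m6_t24 : CovD 0 progs [(119789322240, 7046430720), (6390911336448, 481036337152), (137438953472, 137438953472), (824633720832, 274877906944)] :=
  covD_split 2 (by decide +kernel) c1_m6_t22 c1_m6_t23
theorem c1_m6_t25 : CovD 0 progs [(119789322240, 7046430720), (5909874999296, 962072674304), (137438953472, 137438953472), (824633720832, 274877906944)] :=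
  covD_split 1 (by decide +kernel) c1_m6_t21 c1_m6_t24
theorem c1_m6_t29 : CovD 0 progs [(133882183680, 7046430720), (6390911336448, 481036337152), (137438953472, 137438953472), (824633720832, 274877906944)] :=
  covD_split 2 (by decide +kernel) c1_m6_t27 c1_m6_t28
theorem c1_m6_t30 : CovD 0 progs [(133882183680, 7046430720), (5909874999296, 962072674304), (137438953472, 137438953472), (824633720832, 274877906944)] :=
  covD_split 1 (by decide +kernel) c1_m6_t26 c1_m6_t29
theorem c1_m6_t31 : CovD 0 progs [(126835752960, 14092861440), (5909874999296, 962072674304), (137438953472, 137438953472), (824633720832, 274877906944)] :=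
  covD_split 0 (by decide +kernel) c1_m6_t25 c1_m6_t30
theorem c1_m6_t34 : CovD 0 progs [(155021475840, 14092861440), (5428838662144, 481036337152), (137438953472, 137438953472), (824633720832, 274877906944)] :=
  covD_split 1 (by decide +kernel) c1_m6_t32 c1_m6_t33
theorem c1_m6_t38 : CovD 0 progs [(155021475840, 14092861440), (6631429505024, 240518168576), (137438953472, 137438953472), (824633720832, 274877906944)] :=
  covD_split 0 (by decide +kernel) c1_m6_t36 c1_m6_t37
theorem c1_m6_t39 : CovD 0 progs [(155021475840, 14092861440), (6390911336448, 481036337152), (137438953472, 137438953472), (824633720832, 274877906944)] :=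
  covD_split 1 (by decide +kernel) c1_m6_t35 c1_m6_t38
theorem c1_m6_t40 : CovD 0 progs [(155021475840, 14092861440), (5909874999296, 962072674304), (137438953472, 137438953472), (824633720832, 274877906944)] :=
  covD_split 1 (by decide +kernel) c1_m6_t34 c1_m6_t39
theorem c1_m6_t41 : CovD 0 progs [(140928614400, 28185722880), (5909874999296, 962072674304), (137438953472, 137438953472), (824633720832, 274877906944)] :=
  covD_split 0 (by decide +kernel) c1_m6_t31 c1_m6_t40
theorem c1_m6_t44 : CovD 0 progs [(183207198720, 14092861440), (5428838662144, 481036337152), (137438953472, 137438953472), (824633720832, 274877906944)] :=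
  covD_split 1 (by decide +kernel) c1_m6_t42 c1_m6_t43
theorem c1_m6_t48 : CovD 0 progs [(183207198720, 14092861440), (6631429505024, 240518168576), (137438953472, 137438953472), (824633720832, 274877906944)] :=
  covD_split 0 (by decide +kernel) c1_m6_t46 c1_m6_t47
theorem c1_m6_t49 : CovD 0 progs [(183207198720, 14092861440), (6390911336448, 481036337152), (137438953472, 137438953472), (824633720832, 274877906944)] :=
  covD_split 1 (by decide +kernel) c1_m6_t45 c1_m6_t48
theorem c1_m6_t50 : CovD 0 progs [(183207198720, 14092861440), (5909874999296, 962072674304), (137438953472, 137438953472), (824633720832, 274877906944)] :=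
  covD_split 1 (by decide +kernel) c1_m6_t44 c1_m6_t49
theorem c1_m6_t53 : CovD 0 progs [(211392921600, 14092861440), (5428838662144, 481036337152), (137438953472, 137438953472), (824633720832, 274877906944)] :=
  covD_split 2 (by decide +kernel) c1_m6_t51 c1_m6_t52
theorem c1_m6_t55 : CovD 0 progs [(211392921600, 14092861440), (5909874999296, 962072674304), (137438953472, 137438953472), (824633720832, 274877906944)] :=
  covD_split 1 (by decide +kernel) c1_m6_t53 c1_m6_t54
theorem c1_m6_t56 : CovD 0 progs [(197300060160, 28185722880), (5909874999296, 962072674304), (137438953472, 137438953472), (824633720832, 274877906944)] :=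
  covD_split 0 (by decide +kernel) c1_m6_t50 c1_m6_t55
theorem c1_m6_t57 : CovD 0 progs [(169114337280, 56371445760), (5909874999296, 962072674304), (137438953472, 137438953472), (824633720832, 274877906944)] :=
  covD_split 0 (by decide +kernel) c1_m6_t41 c1_m6_t56
theorem c1_m6 : CovD 0 progs [(112742891520, 112742891520), (5909874999296, 962072674304), (137438953472, 137438953472), (824633720832, 274877906944)] :=
  covD_split 0 (by decide +kernel) c1_m6_t18 c1_m6_t57

end Pool.Agent.helper71.FJ.Crt.QMb
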