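import Pool.Agent.helper71.FJ.Crt.QMbP

/-!
Generated certificates.
-/

namespace Pool.Agent.helper71.FJ.Crt.QMb

open Pool.Agent.helper31.IA (Z Op)
open Pool.Agent.helper31.IC

mutual
theorem c1_m7_t0 : CovD 0 progs [(56371445760, 56371445760), (7112465842176, 240518168576), (68719476736, 68719476736), (687194767360, 137438953472)] :=
  Pool.Agent.helper14.QF.covD_F chks_eq (.n 0 (.l 8) (.n 0 (.n 0 (.l 8) (.n 2 (.l 4) (.l 4))) (.n 2 (.l 4) (.n 0 (.l 4) (.n 0 (.l 4) (.l 4))))))
    [(56371445760, 56371445760), (7112465842176, 240518168576), (68719476736, 68719476736), (687194767360, 137438953472)] rfl (by decide +kernel)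
theorem c1_m7_t1 : CovD 0 progs [(140928614400, 28185722880), (7112465842176, 240518168576), (68719476736, 68719476736), (687194767360, 137438953472)] :=
  Pool.Agent.helper14.QF.covD_F chks_eq (.n 0 (.n 0 (.n 2 (.l 4) (.n 2 (.l 4) (.l 4))) (.n 2 (.l 4) (.n 2 (.l 4) (.n 0 (.l 4) (.l 4))))) (.n 0 (.n 2 (.l 4) (.n 2 (.l 4) (.n 2 (.l 4) (.l 4)))) (.n 2 (.n 1 (.l 2) (.l 2)) (.n 2 (.n 0 (.l 2) (.l 2)) (.n 2 (.l 2) (.n 0 (.l 2) (.l 2)))))))
    [(140928614400, 28185722880), (7112465842176, 240518168576), (68719476736, 68719476736), (687194767360, 137438953472)] rfl (by decide +kernel)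
end
mutual
theorem c1_m7_t2 : CovD 0 progs [(197300060160, 28185722880), (7112465842176, 240518168576), (68719476736, 68719476736), (687194767360, 137438953472)] :=
  Pool.Agent.helper14.QF.covD_F chks_eq (.n 0 (.n 0 (.n 2 (.n 2 (.l 2) (.l 2)) (.n 2 (.n 2 (.l 2) (.l 2)) (.n 2 (.n 0 (.l 2) (.l 2)) (.l 9)))) (.l 10)) (.l 10))
    [(197300060160, 28185722880), (7112465842176, 240518168576), (68719476736, 68719476736), (687194767360, 137438953472)] rfl (by decide +kernel)
theorem c1_m7_t5 : CovD 0 progs [(56371445760, 56371445760), (7112465842176, 240518168576), (68719476736, 68719476736), (962072674304, 137438953472)] :=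
  Pool.Agent.helper14.QF.covD_F chks_eq (.n 0 (.n 0 (.l 4) (.n 0 (.l 4) (.n 1 (.l 4) (.l 4)))) (.n 0 (.n 2 (.l 4) (.n 0 (.l 4) (.l 4))) (.n 2 (.l 4) (.n 2 (.l 4) (.n 0 (.l 4) (.l 4))))))
    [(56371445760, 56371445760), (7112465842176, 240518168576), (68719476736, 68719476736), (962072674304, 137438953472)] rfl (by decide +kernel)
end
mutual
theorem c1_m7_t6 : CovD 0 progs [(140928614400, 28185722880), (7112465842176, 240518168576), (68719476736, 68719476736), (962072674304, 137438953472)] :=
  Pool.Agent.helper14.QF.covD_F chks_eq (.n 0 (.n 0 (.n 2 (.l 4) (.n 2 (.l 4) (.n 0 (.l 4) (.l 4)))) (.n 2 (.l 4) (.n 2 (.l 4) (.n 0 (.l 4) (.l 4))))) (.n 2 (.n 2 (.l 4) (.n 0 (.l 4) (.l 2))) (.n 0 (.n 2 (.l 4) (.n 3 (.l 2) (.l 2))) (.n 0 (.n 2 (.l 2) (.n 1 (.l 2) (.l 2))) (.n 2 (.l 2) (.n 2 (.l 2) (.l 2)))))))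
    [(140928614400, 28185722880), (7112465842176, 240518168576), (68719476736, 68719476736), (962072674304, 137438953472)] rfl (by decide +kernel)
theorem c1_m7_t7 : CovD 0 progs [(197300060160, 28185722880), (7112465842176, 240518168576), (68719476736, 68719476736), (962072674304, 137438953472)] :=
  Pool.Agent.helper14.QF.covD_F chks_eq (.n 0 (.n 0 (.n 2 (.n 2 (.l 2) (.l 2)) (.n 2 (.n 2 (.l 2) (.l 2)) (.n 2 (.n 0 (.l 2) (.l 2)) (.l 9)))) (.l 10)) (.l 10))
    [(197300060160, 28185722880), (7112465842176, 240518168576), (68719476736, 68719476736), (962072674304, 137438953472)] rfl (by decide +kernel)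
end
mutual
theorem c1_m7_t11 : CovD 0 progs [(56371445760, 56371445760), (7593502179328, 240518168576), (68719476736, 68719476736), (687194767360, 137438953472)] :=
  Pool.Agent.helper14.QF.covD_F chks_eq (.n 0 (.l 8) (.n 0 (.n 0 (.n 2 (.l 4) (.l 4)) (.n 2 (.l 4) (.l 4))) (.n 2 (.l 4) (.n 2 (.l 4) (.n 0 (.l 4) (.l 4))))))
    [(56371445760, 56371445760), (7593502179328, 240518168576), (68719476736, 68719476736), (687194767360, 137438953472)] rfl (by decide +kernel)
theorem c1_m7_t12 : CovD 0 progs [(169114337280, 56371445760), (7593502179328, 240518168576), (68719476736, 68719476736), (687194767360, 137438953472)] :=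
  Pool.Agent.helper14.QF.covD_F chks_eq (.n 0 (.n 0 (.n 2 (.n 2 (.l 4) (.l 4)) (.n 0 (.n 2 (.l 4) (.n 0 (.l 4) (.l 4))) (.n 2 (.l 4) (.n 3 (.l 4) (.l 4))))) (.n 2 (.n 2 (.l 4) (.n 0 (.l 4) (.l 2))) (.n 0 (.n 0 (.n 2 (.l 4) (.n 1 (.l 4) (.l 2))) (.n 2 (.l 2) (.n 2 (.l 2) (.l 2)))) (.n 2 (.n 2 (.l 2) (.l 2)) (.n 0 (.n 2 (.l 2) (.l 9)) (.n 2 (.l 2) (.l 9))))))) (.l 10))
    [(169114337280, 56371445760), (7593502179328, 240518168576), (68719476736, 68719476736), (687194767360, 137438953472)] rfl (by decide +kernel)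
end
mutual
theorem c1_m7_t14 : CovD 0 progs [(56371445760, 56371445760), (7593502179328, 240518168576), (68719476736, 68719476736), (962072674304, 137438953472)] :=
  Pool.Agent.helper14.QF.covD_F chks_eq (.n 2 (.n 0 (.n 0 (.l 4) (.l 4)) (.n 0 (.l 4) (.n 0 (.l 4) (.l 4)))) (.n 0 (.n 0 (.l 4) (.n 0 (.l 4) (.l 4))) (.n 0 (.n 2 (.l 4) (.n 0 (.l 4) (.l 4))) (.n 0 (.n 2 (.l 4) (.l 4)) (.n 2 (.l 4) (.n 0 (.l 4) (.l 4)))))))
    [(56371445760, 56371445760), (7593502179328, 240518168576), (68719476736, 68719476736), (962072674304, 137438953472)] rfl (by decide +kernel)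
theorem c1_m7_t15 : CovD 0 progs [(126835752960, 14092861440), (7593502179328, 240518168576), (68719476736, 68719476736), (962072674304, 137438953472)] :=
  Pool.Agent.helper14.QF.covD_F chks_eq (.n 0 (.n 2 (.l 4) (.n 2 (.l 4) (.n 2 (.l 4) (.l 5)))) (.n 2 (.n 0 (.l 4) (.l 4)) (.n 2 (.n 0 (.l 4) (.l 4)) (.n 3 (.l 4) (.l 2)))))
    [(126835752960, 14092861440), (7593502179328, 240518168576), (68719476736, 68719476736), (962072674304, 137438953472)] rfl (by decide +kernel)
end
mutual
theorem c1_m7_t16 : CovD 0 progs [(155021475840, 14092861440), (7593502179328, 240518168576), (68719476736, 68719476736), (962072674304, 137438953472)] :=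
  Pool.Agent.helper14.QF.covD_F chks_eq (.n 2 (.n 2 (.n 0 (.l 2) (.l 2)) (.n 3 (.l 2) (.l 2))) (.n 0 (.n 0 (.n 2 (.l 2) (.n 2 (.l 2) (.l 2))) (.n 2 (.l 2) (.n 3 (.l 2) (.l 2)))) (.n 2 (.n 3 (.l 2) (.l 2)) (.n 0 (.n 2 (.l 2) (.l 9)) (.n 2 (.l 2) (.l 9))))))
    [(155021475840, 14092861440), (7593502179328, 240518168576), (68719476736, 68719476736), (962072674304, 137438953472)] rfl (by decide +kernel)
theorem c1_m7_t18 : CovD 0 progs [(197300060160, 28185722880), (7593502179328, 240518168576), (68719476736, 68719476736), (962072674304, 137438953472)] :=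
  Pool.Agent.helper14.QF.covD_F chks_eq (.l 10)
    [(197300060160, 28185722880), (7593502179328, 240518168576), (68719476736, 68719476736), (962072674304, 137438953472)] rfl (by decide +kernel)
end
mutual
theorem c1_m7_t23 : CovD 0 progs [(56371445760, 56371445760), (7112465842176, 240518168576), (154618822656, 17179869184), (824633720832, 274877906944)] :=
  Pool.Agent.helper14.QF.covD_F chks_eq (.n 3 (.n 0 (.l 8) (.n 0 (.l 8) (.n 0 (.l 4) (.n 0 (.l 4) (.l 4))))) (.n 0 (.n 0 (.l 4) (.l 4)) (.n 0 (.n 0 (.l 4) (.l 4)) (.n 0 (.n 0 (.l 4) (.l 4)) (.n 3 (.l 4) (.l 4))))))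
    [(56371445760, 56371445760), (7112465842176, 240518168576), (154618822656, 17179869184), (824633720832, 274877906944)] rfl (by decide +kernel)
theorem c1_m7_t24 : CovD 0 progs [(169114337280, 56371445760), (7112465842176, 240518168576), (154618822656, 17179869184), (824633720832, 274877906944)] :=
  Pool.Agent.helper14.QF.covD_F chks_eq (.n 2 (.n 0 (.n 0 (.n 0 (.n 3 (.l 4) (.l 4)) (.n 3 (.l 5) (.n 0 (.l 4) (.l 4)))) (.n 0 (.n 0 (.n 3 (.l 4) (.l 2)) (.l 9)) (.l 9))) (.l 9)) (.n 0 (.n 0 (.n 0 (.n 0 (.n 3 (.l 4) (.l 4)) (.n 3 (.l 4) (.l 4))) (.n 0 (.n 3 (.l 4) (.l 4)) (.l 9))) (.l 9)) (.l 9)))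
    [(169114337280, 56371445760), (7112465842176, 240518168576), (154618822656, 17179869184), (824633720832, 274877906944)] rfl (by decide +kernel)
end
mutual
theorem c1_m7_t26 : CovD 0 progs [(56371445760, 56371445760), (7593502179328, 240518168576), (154618822656, 17179869184), (824633720832, 274877906944)] :=
  Pool.Agent.helper14.QF.covD_F chks_eq (.n 3 (.n 0 (.l 8) (.n 0 (.l 8) (.n 3 (.l 8) (.n 0 (.l 4) (.l 4))))) (.n 0 (.n 0 (.l 4) (.n 0 (.l 4) (.l 4))) (.n 0 (.n 0 (.l 4) (.n 0 (.l 4) (.l 4))) (.n 0 (.n 3 (.l 4) (.l 4)) (.n 0 (.n 1 (.l 4) (.l 4)) (.n 1 (.l 4) (.l 4)))))))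
    [(56371445760, 56371445760), (7593502179328, 240518168576), (154618822656, 17179869184), (824633720832, 274877906944)] rfl (by decide +kernel)
theorem c1_m7_t27 : CovD 0 progs [(169114337280, 56371445760), (7593502179328, 240518168576), (154618822656, 17179869184), (824633720832, 274877906944)] :=
  Pool.Agent.helper14.QF.covD_F chks_eq (.n 2 (.n 0 (.n 0 (.n 0 (.n 0 (.n 3 (.l 4) (.l 4)) (.n 3 (.l 4) (.l 4))) (.n 3 (.n 0 (.l 4) (.l 4)) (.n 3 (.l 4) (.l 2)))) (.n 0 (.l 9) (.l 9))) (.l 9)) (.n 0 (.n 0 (.n 0 (.n 3 (.n 0 (.l 4) (.l 4)) (.n 3 (.l 4) (.l 4))) (.l 9)) (.l 9)) (.l 9)))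
    [(169114337280, 56371445760), (7593502179328, 240518168576), (154618822656, 17179869184), (824633720832, 274877906944)] rfl (by decide +kernel)
end
mutual
theorem c1_m7_t30 : CovD 0 progs [(56371445760, 56371445760), (7112465842176, 240518168576), (188978561024, 17179869184), (824633720832, 274877906944)] :=
  Pool.Agent.helper14.QF.covD_F chks_eq (.n 0 (.n 3 (.l 8) (.n 0 (.l 4) (.n 0 (.l 4) (.l 4)))) (.n 0 (.n 3 (.l 8) (.n 0 (.n 0 (.l 4) (.l 4)) (.n 3 (.l 4) (.l 4)))) (.n 0 (.n 3 (.l 8) (.n 0 (.n 1 (.l 4) (.l 4)) (.n 1 (.l 4) (.l 5)))) (.n 0 (.n 3 (.n 0 (.l 4) (.l 4)) (.n 3 (.l 5) (.l 5))) (.n 2 (.n 3 (.l 4) (.l 4)) (.l 9))))))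
    [(56371445760, 56371445760), (7112465842176, 240518168576), (188978561024, 17179869184), (824633720832, 274877906944)] rfl (by decide +kernel)
theorem c1_m7_t31 : CovD 0 progs [(169114337280, 56371445760), (7112465842176, 240518168576), (188978561024, 17179869184), (824633720832, 274877906944)] :=
  Pool.Agent.helper14.QF.covD_F chks_eq (.n 0 (.n 0 (.n 0 (.n 2 (.n 1 (.n 3 (.l 4) (.l 4)) (.l 9)) (.l 9)) (.l 9)) (.l 9)) (.l 9))
    [(169114337280, 56371445760), (7112465842176, 240518168576), (188978561024, 17179869184), (824633720832, 274877906944)] rfl (by decide +kernel)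
end
mutual
theorem c1_m7_t33 : CovD 0 progs [(28185722880, 28185722880), (7593502179328, 240518168576), (188978561024, 17179869184), (824633720832, 274877906944)] :=
  Pool.Agent.helper14.QF.covD_F chks_eq (.n 3 (.l 8) (.n 0 (.l 5) (.n 0 (.l 4) (.n 0 (.l 4) (.l 4)))))
    [(28185722880, 28185722880), (7593502179328, 240518168576), (188978561024, 17179869184), (824633720832, 274877906944)] rfl (by decide +kernel)
theorem c1_m7_t34 : CovD 0 progs [(84557168640, 28185722880), (7593502179328, 240518168576), (188978561024, 17179869184), (824633720832, 274877906944)] :=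
  Pool.Agent.helper14.QF.covD_F chks_eq (.n 0 (.n 3 (.l 8) (.n 0 (.n 3 (.l 4) (.l 4)) (.n 0 (.n 1 (.l 4) (.l 4)) (.n 3 (.l 4) (.l 5))))) (.n 2 (.n 0 (.n 3 (.l 8) (.n 0 (.l 4) (.l 4))) (.n 3 (.n 0 (.l 4) (.l 4)) (.n 3 (.l 4) (.l 4)))) (.n 2 (.n 0 (.n 3 (.l 8) (.n 0 (.l 4) (.l 5))) (.l 9)) (.n 0 (.n 3 (.l 8) (.n 3 (.l 5) (.l 5))) (.l 9)))))
    [(84557168640, 28185722880), (7593502179328, 240518168576), (188978561024, 17179869184), (824633720832, 274877906944)] rfl (by decide +kernel)
end
mutual
theorem c1_m7_t36 : CovD 0 progs [(169114337280, 56371445760), (7593502179328, 240518168576), (188978561024, 17179869184), (824633720832, 274877906944)] :=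
  Pool.Agent.helper14.QF.covD_F chks_eq (.n 0 (.n 0 (.n 0 (.n 0 (.l 9) (.l 9)) (.l 9)) (.l 9)) (.l 9))
    [(169114337280, 56371445760), (7593502179328, 240518168576), (188978561024, 17179869184), (824633720832, 274877906944)] rfl (by decide +kernel)
theorem c1_m7_t40 : CovD 0 progs [(56371445760, 56371445760), (7112465842176, 240518168576), (223338299392, 17179869184), (824633720832, 274877906944)] :=
  Pool.Agent.helper14.QF.covD_F chks_eq (.n 3 (.n 0 (.l 8) (.n 0 (.l 8) (.n 0 (.l 8) (.l 8)))) (.n 0 (.n 3 (.l 8) (.n 0 (.l 4) (.n 0 (.l 4) (.l 4)))) (.n 0 (.n 0 (.n 2 (.n 0 (.l 4) (.l 4)) (.l 7)) (.n 2 (.n 0 (.l 5) (.l 5)) (.l 7))) (.n 0 (.n 2 (.n 3 (.l 5) (.l 5)) (.n 0 (.l 7) (.l 9))) (.n 0 (.l 9) (.l 9))))))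
    [(56371445760, 56371445760), (7112465842176, 240518168576), (223338299392, 17179869184), (824633720832, 274877906944)] rfl (by decide +kernel)
end
mutual
theorem c1_m7_t41 : CovD 0 progs [(56371445760, 56371445760), (7593502179328, 240518168576), (223338299392, 17179869184), (824633720832, 274877906944)] :=
  Pool.Agent.helper14.QF.covD_F chks_eq (.n 0 (.n 0 (.l 7) (.n 2 (.n 0 (.l 7) (.n 0 (.l 7) (.l 7))) (.l 7))) (.n 0 (.n 3 (.l 8) (.n 0 (.n 2 (.n 0 (.l 5) (.l 5)) (.l 7)) (.n 2 (.n 2 (.n 0 (.l 5) (.l 5)) (.l 7)) (.l 7)))) (.n 0 (.n 0 (.n 2 (.n 3 (.l 7) (.n 1 (.l 5) (.l 5))) (.l 9)) (.n 0 (.l 9) (.l 9))) (.l 9))))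
    [(56371445760, 56371445760), (7593502179328, 240518168576), (223338299392, 17179869184), (824633720832, 274877906944)] rfl (by decide +kernel)
theorem c1_m7_t43 : CovD 0 progs [(169114337280, 56371445760), (7352984010752, 481036337152), (223338299392, 17179869184), (824633720832, 274877906944)] :=
  Pool.Agent.helper14.QF.covD_F chks_eq (.n 0 (.n 0 (.n 0 (.l 9) (.l 9)) (.l 9)) (.l 9))
    [(169114337280, 56371445760), (7352984010752, 481036337152), (223338299392, 17179869184), (824633720832, 274877906944)] rfl (by decide +kernel)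
end
mutual
theorem c1_m7_t45 : CovD 0 progs [(56371445760, 56371445760), (7352984010752, 481036337152), (257698037760, 17179869184), (824633720832, 274877906944)] :=
  Pool.Agent.helper14.QF.covD_F chks_eq (.n 2 (.n 0 (.n 0 (.l 7) (.n 0 (.l 7) (.l 7))) (.n 0 (.n 3 (.l 7) (.n 0 (.l 7) (.n 1 (.l 7) (.l 7)))) (.n 0 (.n 0 (.l 9) (.l 9)) (.l 9)))) (.n 0 (.n 0 (.l 7) (.n 0 (.l 7) (.n 0 (.l 7) (.l 7)))) (.n 0 (.n 3 (.l 8) (.n 0 (.n 0 (.l 7) (.l 7)) (.n 1 (.l 7) (.n 0 (.l 7) (.l 7))))) (.n 0 (.l 9) (.l 9)))))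
    [(56371445760, 56371445760), (7352984010752, 481036337152), (257698037760, 17179869184), (824633720832, 274877906944)] rfl (by decide +kernel)
theorem c1_m7_t46 : CovD 0 progs [(169114337280, 56371445760), (7352984010752, 481036337152), (257698037760, 17179869184), (824633720832, 274877906944)] :=
  Pool.Agent.helper14.QF.covD_F chks_eq (.n 0 (.n 0 (.l 9) (.l 9)) (.l 9))
    [(169114337280, 56371445760), (7352984010752, 481036337152), (257698037760, 17179869184), (824633720832, 274877906944)] rfl (by decide +kernel)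
end
theorem c1_m7_t3 : CovD 0 progs [(169114337280, 56371445760), (7112465842176, 240518168576), (68719476736, 68719476736), (687194767360, 137438953472)] :=
  covD_split 0 (by decide +kernel) c1_m7_t1 c1_m7_t2
theorem c1_m7_t4 : CovD 0 progs [(112742891520, 112742891520), (7112465842176, 240518168576), (68719476736, 68719476736), (687194767360, 137438953472)] :=
  covD_split 0 (by decide +kernel) c1_m7_t0 c1_m7_t3
theorem c1_m7_t8 : CovD 0 progs [(169114337280, 56371445760), (7112465842176, 240518168576), (68719476736, 68719476736), (962072674304, 137438953472)] :=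
  covD_split 0 (by decide +kernel) c1_m7_t6 c1_m7_t7
theorem c1_m7_t9 : CovD 0 progs [(112742891520, 112742891520), (7112465842176, 240518168576), (68719476736, 68719476736), (962072674304, 137438953472)] :=
  covD_split 0 (by decide +kernel) c1_m7_t5 c1_m7_t8
theorem c1_m7_t10 : CovD 0 progs [(112742891520, 112742891520), (7112465842176, 240518168576), (68719476736, 68719476736), (824633720832, 274877906944)] :=
  covD_split 3 (by decide +kernel) c1_m7_t4 c1_m7_t9
theorem c1_m7_t13 : CovD 0 progs [(112742891520, 112742891520), (7593502179328, 240518168576), (68719476736, 68719476736), (687194767360, 137438953472)] :=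
  covD_split 0 (by decide +kernel) c1_m7_t11 c1_m7_t12
theorem c1_m7_t17 : CovD 0 progs [(140928614400, 28185722880), (7593502179328, 240518168576), (68719476736, 68719476736), (962072674304, 137438953472)] :=
  covD_split 0 (by decide +kernel) c1_m7_t15 c1_m7_t16
theorem c1_m7_t19 : CovD 0 progs [(169114337280, 56371445760), (7593502179328, 240518168576), (68719476736, 68719476736), (962072674304, 137438953472)] :=
  covD_split 0 (by decide +kernel) c1_m7_t17 c1_m7_t18
theorem c1_m7_t20 : CovD 0 progs [(112742891520, 112742891520), (7593502179328, 240518168576), (68719476736, 68719476736), (962072674304, 137438953472)] :=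
  covD_split 0 (by decide +kernel) c1_m7_t14 c1_m7_t19
theorem c1_m7_t21 : CovD 0 progs [(112742891520, 112742891520), (7593502179328, 240518168576), (68719476736, 68719476736), (824633720832, 274877906944)] :=
  covD_split 3 (by decide +kernel) c1_m7_t13 c1_m7_t20
theorem c1_m7_t22 : CovD 0 progs [(112742891520, 112742891520), (7352984010752, 481036337152), (68719476736, 68719476736), (824633720832, 274877906944)] :=
  covD_split 1 (by decide +kernel) c1_m7_t10 c1_m7_t21
theorem c1_m7_t25 : CovD 0 progs [(112742891520, 112742891520), (7112465842176, 240518168576), (154618822656, 17179869184), (824633720832, 274877906944)] :=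
  covD_split 0 (by decide +kernel) c1_m7_t23 c1_m7_t24
theorem c1_m7_t28 : CovD 0 progs [(112742891520, 112742891520), (7593502179328, 240518168576), (154618822656, 17179869184), (824633720832, 274877906944)] :=
  covD_split 0 (by decide +kernel) c1_m7_t26 c1_m7_t27
theorem c1_m7_t29 : CovD 0 progs [(112742891520, 112742891520), (7352984010752, 481036337152), (154618822656, 17179869184), (824633720832, 274877906944)] :=
  covD_split 1 (by decide +kernel) c1_m7_t25 c1_m7_t28
theorem c1_m7_t32 : CovD 0 progs [(112742891520, 112742891520), (7112465842176, 240518168576), (188978561024, 17179869184), (824633720832, 274877906944)] :=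
  covD_split 0 (by decide +kernel) c1_m7_t30 c1_m7_t31
theorem c1_m7_t35 : CovD 0 progs [(56371445760, 56371445760), (7593502179328, 240518168576), (188978561024, 17179869184), (824633720832, 274877906944)] :=
  covD_split 0 (by decide +kernel) c1_m7_t33 c1_m7_t34
theorem c1_m7_t37 : CovD 0 progs [(112742891520, 112742891520), (7593502179328, 240518168576), (188978561024, 17179869184), (824633720832, 274877906944)] :=
  covD_split 0 (by decide +kernel) c1_m7_t35 c1_m7_t36
theorem c1_m7_t38 : CovD 0 progs [(112742891520, 112742891520), (7352984010752, 481036337152), (188978561024, 17179869184), (824633720832, 274877906944)] :=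
  covD_split 1 (by decide +kernel) c1_m7_t32 c1_m7_t37
theorem c1_m7_t39 : CovD 0 progs [(112742891520, 112742891520), (7352984010752, 481036337152), (171798691840, 34359738368), (824633720832, 274877906944)] :=
  covD_split 2 (by decide +kernel) c1_m7_t29 c1_m7_t38
theorem c1_m7_t42 : CovD 0 progs [(56371445760, 56371445760), (7352984010752, 481036337152), (223338299392, 17179869184), (824633720832, 274877906944)] :=
  covD_split 1 (by decide +kernel) c1_m7_t40 c1_m7_t41
theorem c1_m7_t44 : CovD 0 progs [(112742891520, 112742891520), (7352984010752, 481036337152), (223338299392, 17179869184), (824633720832, 274877906944)] :=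
  covD_split 0 (by decide +kernel) c1_m7_t42 c1_m7_t43
theorem c1_m7_t47 : CovD 0 progs [(112742891520, 112742891520), (7352984010752, 481036337152), (257698037760, 17179869184), (824633720832, 274877906944)] :=
  covD_split 0 (by decide +kernel) c1_m7_t45 c1_m7_t46
theorem c1_m7_t48 : CovD 0 progs [(112742891520, 112742891520), (7352984010752, 481036337152), (240518168576, 34359738368), (824633720832, 274877906944)] :=
  covD_split 2 (by decide +kernel) c1_m7_t44 c1_m7_t47
theorem c1_m7_t49 : CovD 0 progs [(112742891520, 112742891520), (7352984010752, 481036337152), (206158430208, 68719476736), (824633720832, 274877906944)] :=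
  covD_split 2 (by decide +kernel) c1_m7_t39 c1_m7_t48
theorem c1_m7 : CovD 0 progs [(112742891520, 112742891520), (7352984010752, 481036337152), (137438953472, 137438953472), (824633720832, 274877906944)] :=
  covD_split 2 (by decide +kernel) c1_m7_t22 c1_m7_t49

end Pool.Agent.helper71.FJ.Crt.QMb
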