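import Pool.Agent.helper71.FJ.Crt.QMbP

/-!
Generated certificates.
-/

namespace Pool.Agent.helper71.FJ.Crt.QMb

open Pool.Agent.helper31.IA (Z Op)
open Pool.Agent.helper31.IC

mutual
theorem c1_m9_t0 : CovD 0 progs [(56371445760, 56371445760), (5909874999296, 962072674304), (309237645312, 34359738368), (274877906944, 274877906944)] :=
  Pool.Agent.helper14.QF.covD_F chks_eq (.l 8)
    [(56371445760, 56371445760), (5909874999296, 962072674304), (309237645312, 34359738368), (274877906944, 274877906944)] rfl (by decide +kernel)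
theorem c1_m9_t1 : CovD 0 progs [(28185722880, 28185722880), (5909874999296, 962072674304), (309237645312, 34359738368), (824633720832, 274877906944)] :=
  Pool.Agent.helper14.QF.covD_F chks_eq (.n 0 (.n 1 (.l 7) (.l 7)) (.n 3 (.l 8) (.n 2 (.n 0 (.l 7) (.n 1 (.l 7) (.l 7))) (.n 3 (.l 8) (.n 1 (.l 7) (.n 1 (.l 6) (.l 6)))))))
    [(28185722880, 28185722880), (5909874999296, 962072674304), (309237645312, 34359738368), (824633720832, 274877906944)] rfl (by decide +kernel)
end
mutual
theorem c1_m9_t2 : CovD 0 progs [(70464307200, 14092861440), (5909874999296, 962072674304), (309237645312, 34359738368), (824633720832, 274877906944)] :=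
  Pool.Agent.helper14.QF.covD_F chks_eq (.n 2 (.n 3 (.l 8) (.n 1 (.n 0 (.l 7) (.n 0 (.l 7) (.l 7))) (.n 2 (.n 0 (.l 7) (.n 1 (.l 7) (.l 7))) (.n 3 (.l 8) (.n 1 (.l 7) (.l 6)))))) (.n 3 (.l 8) (.n 3 (.l 8) (.n 1 (.n 0 (.l 7) (.n 1 (.l 7) (.l 7))) (.n 1 (.n 1 (.l 6) (.l 6)) (.l 6))))))
    [(70464307200, 14092861440), (5909874999296, 962072674304), (309237645312, 34359738368), (824633720832, 274877906944)] rfl (by decide +kernel)
theorem c1_m9_t3 : CovD 0 progs [(98650030080, 14092861440), (5909874999296, 962072674304), (309237645312, 34359738368), (824633720832, 274877906944)] :=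
  Pool.Agent.helper14.QF.covD_F chks_eq (.n 0 (.n 3 (.l 8) (.n 1 (.n 1 (.n 2 (.l 7) (.n 0 (.l 7) (.l 7))) (.n 0 (.n 2 (.l 7) (.l 9)) (.n 2 (.l 7) (.l 9)))) (.n 2 (.n 1 (.n 2 (.l 7) (.l 9)) (.l 9)) (.l 9)))) (.n 1 (.n 2 (.n 1 (.n 0 (.n 2 (.l 7) (.l 9)) (.l 9)) (.l 9)) (.l 9)) (.n 0 (.l 9) (.l 9))))
    [(98650030080, 14092861440), (5909874999296, 962072674304), (309237645312, 34359738368), (824633720832, 274877906944)] rfl (by decide +kernel)
end
mutual
theorem c1_m9_t7 : CovD 0 progs [(169114337280, 56371445760), (5909874999296, 962072674304), (309237645312, 34359738368), (549755813888, 549755813888)] :=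
  Pool.Agent.helper14.QF.covD_F chks_eq (.n 0 (.n 0 (.n 0 (.n 1 (.n 1 (.l 9) (.l 9)) (.l 9)) (.n 1 (.l 9) (.l 9))) (.n 1 (.n 0 (.l 9) (.l 9)) (.l 9))) (.n 1 (.n 0 (.l 9) (.l 9)) (.l 9)))
    [(169114337280, 56371445760), (5909874999296, 962072674304), (309237645312, 34359738368), (549755813888, 549755813888)] rfl (by decide +kernel)
theorem c1_m9_t9 : CovD 0 progs [(112742891520, 112742891520), (7834020347904, 962072674304), (292057776128, 17179869184), (549755813888, 549755813888)] :=
  Pool.Agent.helper14.QF.covD_F chks_eq (.n 0 (.n 3 (.l 8) (.n 0 (.n 3 (.l 8) (.n 3 (.l 8) (.n 1 (.n 1 (.l 6) (.l 6)) (.l 6)))) (.n 0 (.n 3 (.l 8) (.n 1 (.n 3 (.l 8) (.n 1 (.l 6) (.l 6))) (.n 0 (.n 3 (.l 8) (.l 6)) (.l 9)))) (.n 0 (.n 0 (.l 9) (.l 9)) (.l 9))))) (.n 0 (.n 0 (.l 9) (.l 9)) (.l 9)))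
    [(112742891520, 112742891520), (7834020347904, 962072674304), (292057776128, 17179869184), (549755813888, 549755813888)] rfl (by decide +kernel)
end
mutual
theorem c1_m9_t10 : CovD 0 progs [(112742891520, 112742891520), (7834020347904, 962072674304), (326417514496, 17179869184), (549755813888, 549755813888)] :=
  Pool.Agent.helper14.QF.covD_F chks_eq (.n 0 (.n 3 (.l 8) (.n 0 (.n 0 (.l 8) (.n 0 (.l 8) (.n 0 (.l 8) (.n 1 (.l 8) (.l 8))))) (.n 0 (.n 3 (.l 8) (.n 1 (.n 3 (.l 8) (.l 6)) (.n 3 (.l 6) (.l 6)))) (.n 0 (.l 9) (.l 9))))) (.n 0 (.n 0 (.l 9) (.l 9)) (.l 9)))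
    [(112742891520, 112742891520), (7834020347904, 962072674304), (326417514496, 17179869184), (549755813888, 549755813888)] rfl (by decide +kernel)
theorem c1_m9_t13 : CovD 0 progs [(28185722880, 28185722880), (6871947673600, 1924145348608), (377957122048, 34359738368), (549755813888, 549755813888)] :=
  Pool.Agent.helper14.QF.covD_F chks_eq (.n 0 (.n 1 (.l 8) (.l 8)) (.n 3 (.l 8) (.n 1 (.n 2 (.n 1 (.l 8) (.l 8)) (.l 8)) (.n 0 (.l 8) (.n 0 (.l 8) (.n 1 (.l 8) (.l 8)))))))
    [(28185722880, 28185722880), (6871947673600, 1924145348608), (377957122048, 34359738368), (549755813888, 549755813888)] rfl (by decide +kernel)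
end
mutual
theorem c1_m9_t14 : CovD 0 progs [(84557168640, 28185722880), (6871947673600, 1924145348608), (377957122048, 34359738368), (549755813888, 549755813888)] :=
  Pool.Agent.helper14.QF.covD_F chks_eq (.n 0 (.n 3 (.l 8) (.n 1 (.n 3 (.l 8) (.n 3 (.l 8) (.n 1 (.n 1 (.n 2 (.n 0 (.l 7) (.l 7)) (.l 6)) (.n 2 (.l 6) (.l 6))) (.n 1 (.l 6) (.l 6))))) (.n 0 (.n 3 (.l 8) (.n 3 (.l 8) (.n 1 (.l 6) (.l 6)))) (.n 1 (.l 9) (.l 9))))) (.n 0 (.n 1 (.n 1 (.n 1 (.n 2 (.l 9) (.l 9)) (.l 9)) (.l 9)) (.l 9)) (.n 1 (.n 1 (.l 9) (.l 9)) (.l 9))))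
    [(84557168640, 28185722880), (6871947673600, 1924145348608), (377957122048, 34359738368), (549755813888, 549755813888)] rfl (by decide +kernel)
theorem c1_m9_t16 : CovD 0 progs [(169114337280, 56371445760), (6871947673600, 1924145348608), (377957122048, 34359738368), (549755813888, 549755813888)] :=
  Pool.Agent.helper14.QF.covD_F chks_eq (.n 0 (.n 0 (.n 1 (.n 0 (.n 0 (.l 9) (.l 9)) (.l 9)) (.l 9)) (.n 1 (.n 0 (.l 9) (.l 9)) (.l 9))) (.n 0 (.n 1 (.l 9) (.l 9)) (.n 1 (.l 9) (.l 9))))
    [(169114337280, 56371445760), (6871947673600, 1924145348608), (377957122048, 34359738368), (549755813888, 549755813888)] rfl (by decide +kernel)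
end
mutual
theorem c1_m9_t19 : CovD 0 progs [(112742891520, 112742891520), (5428838662144, 481036337152), (481036337152, 68719476736), (549755813888, 549755813888)] :=
  Pool.Agent.helper14.QF.covD_F chks_eq (.n 0 (.n 3 (.l 8) (.n 0 (.n 2 (.l 8) (.l 8)) (.n 0 (.n 0 (.n 2 (.l 8) (.l 8)) (.n 2 (.n 0 (.l 8) (.l 9)) (.l 8))) (.n 0 (.n 1 (.l 9) (.l 9)) (.l 9))))) (.n 0 (.n 0 (.n 0 (.l 9) (.l 9)) (.l 9)) (.n 0 (.l 9) (.l 9))))
    [(112742891520, 112742891520), (5428838662144, 481036337152), (481036337152, 68719476736), (549755813888, 549755813888)] rfl (by decide +kernel)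
theorem c1_m9_t20 : CovD 0 progs [(112742891520, 112742891520), (6390911336448, 481036337152), (481036337152, 68719476736), (549755813888, 549755813888)] :=
  Pool.Agent.helper14.QF.covD_F chks_eq (.n 2 (.n 0 (.n 0 (.n 0 (.l 8) (.l 8)) (.n 0 (.n 0 (.n 0 (.l 8) (.l 9)) (.l 9)) (.l 9))) (.n 0 (.n 0 (.l 9) (.l 9)) (.l 9))) (.n 0 (.n 3 (.l 8) (.n 0 (.l 8) (.n 0 (.n 0 (.l 8) (.l 9)) (.l 9)))) (.n 0 (.l 9) (.l 9))))
    [(112742891520, 112742891520), (6390911336448, 481036337152), (481036337152, 68719476736), (549755813888, 549755813888)] rfl (by decide +kernel)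
end
mutual
theorem c1_m9_t22 : CovD 0 progs [(112742891520, 112742891520), (7834020347904, 962072674304), (446676598784, 34359738368), (549755813888, 549755813888)] :=
  Pool.Agent.helper14.QF.covD_F chks_eq (.n 0 (.n 0 (.n 0 (.l 8) (.n 0 (.l 8) (.n 1 (.l 8) (.n 0 (.l 8) (.l 9))))) (.n 0 (.n 0 (.n 0 (.n 0 (.l 9) (.l 9)) (.l 9)) (.l 9)) (.n 0 (.l 9) (.l 9)))) (.n 0 (.n 0 (.l 9) (.l 9)) (.l 9)))
    [(112742891520, 112742891520), (7834020347904, 962072674304), (446676598784, 34359738368), (549755813888, 549755813888)] rfl (by decide +kernel)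
theorem c1_m9_t23 : CovD 0 progs [(112742891520, 112742891520), (7834020347904, 962072674304), (515396075520, 34359738368), (549755813888, 549755813888)] :=
  Pool.Agent.helper14.QF.covD_F chks_eq (.n 0 (.n 0 (.n 3 (.l 8) (.n 0 (.l 8) (.n 0 (.l 8) (.n 0 (.l 8) (.n 0 (.l 8) (.l 9)))))) (.n 0 (.n 0 (.n 0 (.l 9) (.l 9)) (.l 9)) (.l 9))) (.n 0 (.n 0 (.l 9) (.l 9)) (.l 9)))
    [(112742891520, 112742891520), (7834020347904, 962072674304), (515396075520, 34359738368), (549755813888, 549755813888)] rfl (by decide +kernel)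
end
theorem c1_m9_t4 : CovD 0 progs [(84557168640, 28185722880), (5909874999296, 962072674304), (309237645312, 34359738368), (824633720832, 274877906944)] :=
  covD_split 0 (by decide +kernel) c1_m9_t2 c1_m9_t3
theorem c1_m9_t5 : CovD 0 progs [(56371445760, 56371445760), (5909874999296, 962072674304), (309237645312, 34359738368), (824633720832, 274877906944)] :=
  covD_split 0 (by decide +kernel) c1_m9_t1 c1_m9_t4
theorem c1_m9_t6 : CovD 0 progs [(56371445760, 56371445760), (5909874999296, 962072674304), (309237645312, 34359738368), (549755813888, 549755813888)] :=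
  covD_split 3 (by decide +kernel) c1_m9_t0 c1_m9_t5
theorem c1_m9_t8 : CovD 0 progs [(112742891520, 112742891520), (5909874999296, 962072674304), (309237645312, 34359738368), (549755813888, 549755813888)] :=
  covD_split 0 (by decide +kernel) c1_m9_t6 c1_m9_t7
theorem c1_m9_t11 : CovD 0 progs [(112742891520, 112742891520), (7834020347904, 962072674304), (309237645312, 34359738368), (549755813888, 549755813888)] :=
  covD_split 2 (by decide +kernel) c1_m9_t9 c1_m9_t10
theorem c1_m9_t12 : CovD 0 progs [(112742891520, 112742891520), (6871947673600, 1924145348608), (309237645312, 34359738368), (549755813888, 549755813888)] :=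
  covD_split 1 (by decide +kernel) c1_m9_t8 c1_m9_t11
theorem c1_m9_t15 : CovD 0 progs [(56371445760, 56371445760), (6871947673600, 1924145348608), (377957122048, 34359738368), (549755813888, 549755813888)] :=
  covD_split 0 (by decide +kernel) c1_m9_t13 c1_m9_t14
theorem c1_m9_t17 : CovD 0 progs [(112742891520, 112742891520), (6871947673600, 1924145348608), (377957122048, 34359738368), (549755813888, 549755813888)] :=
  covD_split 0 (by decide +kernel) c1_m9_t15 c1_m9_t16
theorem c1_m9_t18 : CovD 0 progs [(112742891520, 112742891520), (6871947673600, 1924145348608), (343597383680, 68719476736), (549755813888, 549755813888)] :=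
  covD_split 2 (by decide +kernel) c1_m9_t12 c1_m9_t17
theorem c1_m9_t21 : CovD 0 progs [(112742891520, 112742891520), (5909874999296, 962072674304), (481036337152, 68719476736), (549755813888, 549755813888)] :=
  covD_split 1 (by decide +kernel) c1_m9_t19 c1_m9_t20
theorem c1_m9_t24 : CovD 0 progs [(112742891520, 112742891520), (7834020347904, 962072674304), (481036337152, 68719476736), (549755813888, 549755813888)] :=
  covD_split 2 (by decide +kernel) c1_m9_t22 c1_m9_t23
theorem c1_m9_t25 : CovD 0 progs [(112742891520, 112742891520), (6871947673600, 1924145348608), (481036337152, 68719476736), (549755813888, 549755813888)] :=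
  covD_split 1 (by decide +kernel) c1_m9_t21 c1_m9_t24
theorem c1_m9 : CovD 0 progs [(112742891520, 112742891520), (6871947673600, 1924145348608), (412316860416, 137438953472), (549755813888, 549755813888)] :=
  covD_split 2 (by decide +kernel) c1_m9_t18 c1_m9_t25

end Pool.Agent.helper71.FJ.Crt.QMb
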