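import Pool.Agent.helper71.FF.Real
import Pool.Agent.helper71.FF.Ib
import Pool.Agent.helper71.FJ.Crt.QHIc0
import Pool.Agent.helper71.FJ.Crt.QHIc1
import Pool.Agent.helper71.FJ.Crt.QHIIc0
import Pool.Agent.helper71.FJ.Crt.QHIIIc0
import Pool.Agent.helper71.FJ.Crt.QMac0
import Pool.Agent.helper71.FJ.Crt.QMac1
import Pool.Agent.helper71.FJ.Crt.QMbc0
import Pool.Agent.helper71.FJ.Crt.QMbc1
import Pool.Agent.helper71.FJ.Crt.QMcc0

/-!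
Generated: the certified boxes.
-/

namespace Pool.Agent.helper71.FJ

open Pool.Agent.helper71.FF (RAs ras_of_cov ib)

theorem covQHI_0 {a b c d : ℝ} (a0 : 0 ≤ a) (a1 : a ≤ 1) (b0 : 0 ≤ b) (b1 : b ≤ 2) (c0 : 0 ≤ c) (c1 : c ≤ 205 / 2048) (d0 : 0 ≤ d) (d1 : d ≤ 1) :
    ∃ ops ∈ Pool.Agent.helper71.FJ.Crt.QHI.progs, RAs ops [a, b, c, d] :=
  ras_of_cov (by decide +kernel) Pool.Agent.helper71.FJ.Crt.QHI.c0_all
    (List.Forall₂.cons (ib (by norm_num) (by norm_num) a0 a1) (List.Forall₂.cons (ib (by norm_num) (by norm_num) b0 b1) (List.Forall₂.cons (ib (by norm_num) (by norm_num) c0 c1) (List.Forall₂.cons (ib (by norm_num) (by norm_num) d0 d1) List.Forall₂.nil))))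

theorem covQHI_1 {a b c d : ℝ} (a0 : 1 ≤ a) (a1 : a ≤ 2) (b0 : 0 ≤ b) (b1 : b ≤ 2) (c0 : 0 ≤ c) (c1 : c ≤ 205 / 2048) (d0 : 0 ≤ d) (d1 : d ≤ 1) :
    ∃ ops ∈ Pool.Agent.helper71.FJ.Crt.QHI.progs, RAs ops [a, b, c, d] :=
  ras_of_cov (by decide +kernel) Pool.Agent.helper71.FJ.Crt.QHI.c1_all
    (List.Forall₂.cons (ib (by norm_num) (by norm_num) a0 a1) (List.Forall₂.cons (ib (by norm_num) (by norm_num) b0 b1) (List.Forall₂.cons (ib (by norm_num) (by norm_num) c0 c1) (List.Forall₂.cons (ib (by norm_num) (by norm_num) d0 d1) List.Forall₂.nil))))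

theorem covQHII_0 {a b c d : ℝ} (a0 : 0 ≤ a) (a1 : a ≤ 313 / 128) (b0 : 0 ≤ b) (b1 : b ≤ 11 / 32) (c0 : 0 ≤ c) (c1 : c ≤ 1 / 2) (d0 : 0 ≤ d) (d1 : d ≤ 1) :
    ∃ ops ∈ Pool.Agent.helper71.FJ.Crt.QHII.progs, RAs ops [a, b, c, d] :=
  ras_of_cov (by decide +kernel) Pool.Agent.helper71.FJ.Crt.QHII.c0_all
    (List.Forall₂.cons (ib (by norm_num) (by norm_num) a0 a1) (List.Forall₂.cons (ib (by norm_num) (by norm_num) b0 b1) (List.Forall₂.cons (ib (by norm_num) (by norm_num) c0 c1) (List.Forall₂.cons (ib (by norm_num) (by norm_num) d0 d1) List.Forall₂.nil))))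

theorem covQHIII_0 {a b c d : ℝ} (a0 : 0 ≤ a) (a1 : a ≤ 313 / 128) (b0 : 0 ≤ b) (b1 : b ≤ 1) (c0 : 0 ≤ c) (c1 : c ≤ 1 / 2) (d0 : 0 ≤ d) (d1 : d ≤ 1) :
    ∃ ops ∈ Pool.Agent.helper71.FJ.Crt.QHIII.progs, RAs ops [a, b, c, d] :=
  ras_of_cov (by decide +kernel) Pool.Agent.helper71.FJ.Crt.QHIII.c0_all
    (List.Forall₂.cons (ib (by norm_num) (by norm_num) a0 a1) (List.Forall₂.cons (ib (by norm_num) (by norm_num) b0 b1) (List.Forall₂.cons (ib (by norm_num) (by norm_num) c0 c1) (List.Forall₂.cons (ib (by norm_num) (by norm_num) d0 d1) List.Forall₂.nil))))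

theorem covQMa_0 {a b c d : ℝ} (a0 : 0 ≤ a) (a1 : a ≤ 105 / 512) (b0 : 0 ≤ b) (b1 : b ≤ 11 / 32) (c0 : 0 ≤ c) (c1 : c ≤ 2) (d0 : 0 ≤ d) (d1 : d ≤ 1) :
    ∃ ops ∈ Pool.Agent.helper71.FJ.Crt.QMa.progs, RAs ops [a, b, c, d] :=
  ras_of_cov (by decide +kernel) Pool.Agent.helper71.FJ.Crt.QMa.c0_all
    (List.Forall₂.cons (ib (by norm_num) (by norm_num) a0 a1) (List.Forall₂.cons (ib (by norm_num) (by norm_num) b0 b1) (List.Forall₂.cons (ib (by norm_num) (by norm_num) c0 c1) (List.Forall₂.cons (ib (by norm_num) (by norm_num) d0 d1) List.Forall₂.nil))))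

theorem covQMa_1 {a b c d : ℝ} (a0 : 105 / 512 ≤ a) (a1 : a ≤ 105 / 256) (b0 : 0 ≤ b) (b1 : b ≤ 11 / 32) (c0 : 0 ≤ c) (c1 : c ≤ 2) (d0 : 0 ≤ d) (d1 : d ≤ 1) :
    ∃ ops ∈ Pool.Agent.helper71.FJ.Crt.QMa.progs, RAs ops [a, b, c, d] :=
  ras_of_cov (by decide +kernel) Pool.Agent.helper71.FJ.Crt.QMa.c1_all
    (List.Forall₂.cons (ib (by norm_num) (by norm_num) a0 a1) (List.Forall₂.cons (ib (by norm_num) (by norm_num) b0 b1) (List.Forall₂.cons (ib (by norm_num) (by norm_num) c0 c1) (List.Forall₂.cons (ib (by norm_num) (by norm_num) d0 d1) List.Forall₂.nil))))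

theorem covQMb_0 {a b c d : ℝ} (a0 : 0 ≤ a) (a1 : a ≤ 105 / 256) (b0 : 0 ≤ b) (b1 : b ≤ 1) (c0 : 0 ≤ c) (c1 : c ≤ 1 / 2) (d0 : 0 ≤ d) (d1 : d ≤ 1) :
    ∃ ops ∈ Pool.Agent.helper71.FJ.Crt.QMb.progs, RAs ops [a, b, c, d] :=
  ras_of_cov (by decide +kernel) Pool.Agent.helper71.FJ.Crt.QMb.c0_all
    (List.Forall₂.cons (ib (by norm_num) (by norm_num) a0 a1) (List.Forall₂.cons (ib (by norm_num) (by norm_num) b0 b1) (List.Forall₂.cons (ib (by norm_num) (by norm_num) c0 c1) (List.Forall₂.cons (ib (by norm_num) (by norm_num) d0 d1) List.Forall₂.nil))))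

theorem covQMb_1 {a b c d : ℝ} (a0 : 0 ≤ a) (a1 : a ≤ 105 / 256) (b0 : 1 ≤ b) (b1 : b ≤ 8) (c0 : 0 ≤ c) (c1 : c ≤ 1 / 2) (d0 : 0 ≤ d) (d1 : d ≤ 1) :
    ∃ ops ∈ Pool.Agent.helper71.FJ.Crt.QMb.progs, RAs ops [a, b, c, d] :=
  ras_of_cov (by decide +kernel) Pool.Agent.helper71.FJ.Crt.QMb.c1_all
    (List.Forall₂.cons (ib (by norm_num) (by norm_num) a0 a1) (List.Forall₂.cons (ib (by norm_num) (by norm_num) b0 b1) (List.Forall₂.cons (ib (by norm_num) (by norm_num) c0 c1) (List.Forall₂.cons (ib (by norm_num) (by norm_num) d0 d1) List.Forall₂.nil))))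

theorem covQMc_0 {a b c d : ℝ} (a0 : 0 ≤ a) (a1 : a ≤ 1 / 8) (b0 : 0 ≤ b) (b1 : b ≤ 1) (c0 : 0 ≤ c) (c1 : c ≤ 13 / 2) (d0 : 0 ≤ d) (d1 : d ≤ 1) :
    ∃ ops ∈ Pool.Agent.helper71.FJ.Crt.QMc.progs, RAs ops [a, b, c, d] :=
  ras_of_cov (by decide +kernel) Pool.Agent.helper71.FJ.Crt.QMc.c0_all
    (List.Forall₂.cons (ib (by norm_num) (by norm_num) a0 a1) (List.Forall₂.cons (ib (by norm_num) (by norm_num) b0 b1) (List.Forall₂.cons (ib (by norm_num) (by norm_num) c0 c1) (List.Forall₂.cons (ib (by norm_num) (by norm_num) d0 d1) List.Forall₂.nil))))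

end Pool.Agent.helper71.FJ
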