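import Pool.Agent.helper31.IC.EngD
import Pool.Agent.helper14.QF.Inst

/-!
Generated: straight line program(s) and compiled form(s).
-/

namespace Pool.Agent.helper71.FJ.Crt.QHII

open Pool.Agent.helper31.IA (Z Op)
open Pool.Agent.helper31.IC

set_option maxRecDepth 100000

abbrev opsE : Ops := Pool.Agent.helper14.QF.opsF

def prog0 : List Op := [
  .const ⟨1099511627776, 0, 0, 0⟩,
  .mul 2 3,
  .mul 2 4,
  .mul 0 1,
  .mul 1 1,
  .mul 6 0,
  .mul 4 4,
  .mul 8 1,
  .const ⟨549755813888, 0, 0, 0⟩,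
  .mul 10 5,
  .mul 0 13,
  .scale ⟨549755813888, 0, 0, 0⟩ 0,
  .mul 8 8,
  .mul 1 1,
  .sub 13 0,
  .inv 0,
  .mul 4 0,
  .scale ⟨2199023255552, 0, 0, 0⟩ 0,
  .scale ⟨2199023255552, 0, 0, 0⟩ 2,
  .sub 0 18,
  .add 0 2,
  .mul 24 5,
  .mul 18 0,
  .sub 22 0,
  .add 23 1,
  .mul 26 12,
  .mul 4 4,
  .scale ⟨10774999203840, 0, 0, 0⟩ 15,
  .scale ⟨45768245248, 0, 0, 0⟩ 0,
  .const ⟨183207198720, 0, 0, 0⟩,
  .add 1 0,
  .mul 3 0,
  .add 23 0,
  .mul 5 0,
  .add 33 0,
  .mul 7 0,
  .scale ⟨549755813888, 0, 0, 0⟩ 0,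
  .add 36 0,
  .mul 3 0,
  .mul 21 16,
  .scale ⟨2199023255552, 0, 0, 0⟩ 20,
  .add 1 0,
  .add 0 43,
  .mul 17 0,
  .add 0 43,
  .mul 27 27,
  .scale ⟨2199023255552, 0, 0, 0⟩ 0,
  .add 0 46,
  .mul 28 5,
  .sub 0 48,
  .log 5,
  .scale ⟨549755813888, 0, 0, 0⟩ 0,
  .exp 0,
  .const ⟨3298534883328, 0, 0, 0⟩,
  .inv 0,
  .mul 54 0,
  .const ⟨2199023255552, 0, 0, 0⟩,
  .add 13 0,
  .inv 0,
  .mul 15 0,
  .mul 0 0,
  .sub 60 1,
  .mul 1 6,
  .add 62 0,
  .mul 2 0,
  .mul 4 4,
  .scale ⟨219915747328, 0, 0, 0⟩ 0,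
  .mul 24 2,
  .scale ⟨549755813888, 0, 0, 0⟩ 0,
  .mul 26 2,
  .scale ⟨549755813888, 0, 0, 0⟩ 0,
  .add 2 0,
  .mul 52 22,
  .scale ⟨4398046511104, 0, 0, 0⟩ 0,
  .mul 54 48,
  .mul 0 25,
  .scale ⟨4398046511104, 0, 0, 0⟩ 0,
  .add 0 20,
  .inv 0,
  .mul 2 0,
  .mul 0 0,
  .sub 80 1,
  .mul 1 26,
  .add 82 0,
  .mul 2 0,
  .mul 4 4,
  .scale ⟨219915747328, 0, 0, 0⟩ 0,
  .mul 13 2,
  .scale ⟨549755813888, 0, 0, 0⟩ 0,
  .sub 0 17,
  .mul 16 3,
  .scale ⟨549755813888, 0, 0, 0⟩ 0,
  .add 0 21,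
  .add 3 0,
  .mul 88 25,
  .neg 0,
  .exp 0,
  .mul 91 26,
  .mul 1 0,
  .mul 93 9,
  .neg 0,
  .exp 0,
  .mul 96 9,
  .mul 1 0,
  .mul 81 86,
  .add 85 0,
  .inv 0,
  .mul 82 0,
  .mul 84 109,
  .mul 0 1,
  .sub 109 97,
  .mul 84 0,
  .mul 102 102,
  .sub 112 86,
  .mul 3 0,
  .mul 89 65,
  .inv 71,
  .mul 1 0,
  .add 98 0,
  .mul 74 0,
  .mul 0 0,
  .inv 0,
  .mul 7 0,
  .add 103 97,
  .mul 123 0,
  .inv 0,
  .mul 126 0,
  .mul 0 0,
  .mul 0 13,
  .const ⟨45812285440, 0, 0, 0⟩,
  .scale ⟨1527119872, 0, 0, 0⟩ 1,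
  .sub 1 0,
  .mul 3 0,
  .sub 124 0,
  .mul 5 0,
  .sub 134 0,
  .add 39 135,
  .mul 40 40,
  .add 0 137,
  .mul 42 3,
  .scale ⟨2199023255552, 0, 0, 0⟩ 0,
  .add 2 0,
  .scale ⟨4398046511104, 0, 0, 0⟩ 43,
  .sub 1 0,
  .inv 7,
  .mul 1 0,
  .add 0 9,
  .mul 50 37,
  .scale ⟨549755813888, 0, 0, 0⟩ 0,
  .mul 0 2,
  .sub 6 0,
  .pos 7,
  .pos 0,
  .mul 145 79,
  .scale ⟨2199023255552, 0, 0, 0⟩ 0,
  .scale ⟨183274307584, 0, 0, 0⟩ 0,
  .sub 145 0,
  .mul 2 0,
  .sub 155 0,
  .mul 85 0,
  .inv 7,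
  .mul 1 0,
  .mul 154 0,
  .add 0 152,
  .inv 0,
  .mul 3 0,
  .mul 158 0,
  .mul 55 0,
  .scale ⟨549755813888, 0, 0, 0⟩ 0,
  .sub 166 0,
  .sub 167 2,
  .inv 0,
  .mul 2 0,
  .add 5 170,
  .mul 75 0,
  .mul 65 2,
  .mul 170 10,
  .mul 1 0,
  .mul 10 5,
  .pos 8,
  .mul 153 152,
  .add 158 179,
  .mul 156 159,
  .mul 0 162,
  .scale ⟨2199023255552, 0, 0, 0⟩ 0,
  .add 134 0,
  .mul 4 0,
  .inv 0,
  .mul 7 0,
  .mul 187 0,
  .pos 97,
  .mul 58 70,
  .scale ⟨1527119872, 0, 0, 0⟩ 0,
  .sub 59 0,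
  .mul 2 0,
  .sub 182 0,
  .mul 4 0,
  .sub 192 0,
  .add 92 193,
  .mul 93 93,
  .add 0 195,
  .mul 95 3,
  .scale ⟨2199023255552, 0, 0, 0⟩ 0,
  .add 2 0,
  .scale ⟨4398046511104, 0, 0, 0⟩ 96,
  .sub 1 0,
  .inv 7,
  .mul 1 0,
  .add 0 9,
  .mul 103 18,
  .scale ⟨549755813888, 0, 0, 0⟩ 0,
  .mul 0 2,
  .sub 6 0,
  .pos 7,
  .pos 0,
  .mul 203 115,
  .scale ⟨2199023255552, 0, 0, 0⟩ 0,
  .scale ⟨183274307584, 0, 0, 0⟩ 0,
  .sub 203 0,
  .mul 2 0,
  .sub 213 0,
  .mul 121 0,
  .inv 7,
  .mul 1 0,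
  .mul 212 0,
  .add 0 210,
  .inv 0,
  .mul 3 0,
  .mul 216 0,
  .mul 36 0,
  .mul 220 2,
  .add 213 224,
  .inv 0,
  .mul 215 0,
  .scale ⟨2199023255552, 0, 0, 0⟩ 0,
  .sub 228 0,
  .sub 229 218,
  .mul 234 4,
  .mul 0 2,
  .add 208 0,
  .scale ⟨224412041216, 0, 0, 0⟩ 218,
  .inv 196,
  .mul 1 0,
  .scale ⟨4398046511104, 0, 0, 0⟩ 236,
  .mul 238 216,
  .add 1 0,
  .inv 0,
  .mul 241 0,
  .mul 241 1,
  .mul 0 218,
  .mul 0 7,
  .mul 3 220,
  .mul 0 9,
  .sub 246 0,
  .inv 0,
  .mul 76 2,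
  .sub 249 0,
  .inv 0,
  .scale ⟨2199023255552, 0, 0, 0⟩ 245,
  .add 0 252,
  .add 247 253,
  .scale ⟨549755813888, 0, 0, 0⟩ 91,
  .scale ⟨2199023255552, 0, 0, 0⟩ 257,
  .add 1 0,
  .mul 260 0,
  .scale ⟨549755813888, 0, 0, 0⟩ 0,
  .mul 248 238,
  .sub 260 149,
  .mul 250 239,
  .scale ⟨2199023255552, 0, 0, 0⟩ 0,
  .sub 2 0,
  .mul 4 4,
  .add 1 0,
  .add 0 266,
  .scale ⟨549755813888, 0, 0, 0⟩ 0,
  .scale ⟨549755813888, 0, 0, 0⟩ 243,
  .sub 254 0,
  .mul 158 9,
  .mul 0 257,
  .scale ⟨137438953472, 0, 0, 0⟩ 0,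
  .add 3 0,
  .mul 6 0,
  .add 103 275,
  .mul 0 28,
  .mul 105 26,
  .add 1 0,
  .mul 33 0,
  .add 104 0,
  .mul 0 275,
  .mul 6 36,
  .mul 0 35,
  .add 108 0,
  .mul 0 279,
  .scale ⟨223338299392, 0, 0, 0⟩ 0,
  .add 279 0,
  .mul 2 0,
  .add 289 0,
  .scale ⟨893353197568, 0, 0, 0⟩ 8,
  .add 291 0,
  .mul 10 0,
  .add 293 0,
  .mul 66 63,
  .mul 0 42,
  .mul 0 2,
  .mul 22 7,
  .add 246 290,
  .mul 2 0,
  .add 2 0,
  .add 249 301,
  .mul 5 0,
  .mul 49 1,
  .mul 0 73,
  .mul 0 75,
  .mul 5 131,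
  .mul 1 48,
  .add 1 0,
  .mul 306 76,
  .inv 258,
  .mul 1 0,
  .scale ⟨549755813888, 0, 0, 0⟩ 0,
  .mul 290 0,
  .add 0 5,
  .mul 317 0,
  .mul 316 0,
  .mul 16 41,
  .mul 0 70,
  .mul 16 147,
  .mul 0 69,
  .add 2 0,
  .mul 299 5,
  .mul 79 1,
  .add 1 0,
  .mul 213 0,
  .mul 0 15,
  .sub 327 0,
  .inv 0,
  .mul 4 0,
  .mul 332 0,
  .mul 219 1,
  .mul 0 21,
  .sub 333 0,
  .mul 285 0,
  .sub 0 4,
  .inv 0,
  .mul 6 0,
  .sub 286 6,
  .inv 0,
  .mul 2 118,
  .scale ⟨549755813888, 0, 0, 0⟩ 0,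
  .sub 342 0,
  .sub 343 2,
  .inv 0,
  .mul 2 0,
  .mul 343 6,
  .mul 123 10,
  .mul 0 2,
  .add 2 0,
  .mul 343 20,
  .mul 11 0,
  .mul 130 15,
  .mul 0 7,
  .mul 0 23,
  .add 3 0,
  .scale ⟨223338299392, 0, 0, 0⟩ 0,
  .add 349 0,
  .mul 2 0,
  .add 359 0,
  .mul 10 0,
  .mul 0 32,
  .mul 0 40,
  .mul 118 340,
  .const ⟨7696581394432, 0, 0, 0⟩,
  .const ⟨10995116277760, 0, 0, 0⟩,
  .inv 0,
  .mul 2 0,
  .mul 143 344,
  .mul 0 1,
  .mul 192 264,
  .mul 349 0,
  .scale ⟨549755813888, 0, 0, 0⟩ 149,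
  .sub 373 0,
  .sub 374 151,
  .inv 0,
  .mul 2 0,
  .mul 0 191,
  .mul 266 256,
  .scale ⟨733097230336, 0, 0, 0⟩ 0,
  .sub 380 0,
  .mul 259 0,
  .mul 293 293,
  .mul 371 0,
  .add 2 0,
  .mul 7 161,
  .add 1 386,
  .mul 1 0,
  .sub 3 0,
  .scale ⟨366548615168, 0, 0, 0⟩ 344,
  .sub 390 0,
  .mul 365 0,
  .add 3 0,
  .mul 22 0,
  .mul 22 22,
  .add 395 0,
  .inv 0,
  .mul 3 0,
  .sub 398 60,
  .mul 0 1,
  .sub 400 14,
  .pos 0,
  .pos 3,
  .pos 2,
  .mul 39 162,
  .mul 0 87,
  .inv 379,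
  .mul 1 0,
  .mul 401 5,
  .mul 408 0,
  .scale ⟨549755813888, 0, 0, 0⟩ 0,
  .sub 408 0,
  .mul 3 0,
  .neg 0,
  .mul 408 415,
  .mul 0 187,
  .mul 0 398,
  .mul 414 0,
  .add 4 0,
  .mul 5 1,
  .mul 419 0,
  .add 2 0,
  .mul 407 377,
  .scale ⟨412316860416, 0, 0, 0⟩ 377,
  .sub 413 0,
  .mul 2 0,
  .mul 423 0,
  .neg 0,
  .add 6 0,
  .mul 7 1,
  .mul 429 0,
  .add 2 0,
  .mul 426 99,
  .mul 0 26,
  .mul 431 0,
  .add 3 0,
  .mul 4 1,
  .mul 436 0,
  .add 2 0,
  .mul 436 66,
  .sub 1 0,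
  .mul 440 68,
  .add 439 0,
  .inv 0,
  .mul 3 0,
  .mul 439 433,
  .mul 0 113,
  .mul 0 104,
  .mul 445 0,
  .add 4 0,
  .mul 5 1,
  .mul 450 0,
  .add 2 0,
  .mul 452 0,
  .add 451 0,
  .mul 89 206,
  .mul 455 89,
  .mul 49 0,
  .add 2 0,
  .mul 456 0,
  .add 94 52,
  .mul 458 0,
  .mul 2 7,
  .add 10 0,
  .add 0 2,
  .neg 0,
  .scale ⟨1073741824, 0, 0, 0⟩ 463,
  .sub 1 0,
  .sub 445 465,
  .add 0 410,
  .scale ⟨2199023255552, 0, 0, 0⟩ 99,
  .sub 1 0,
  .mul 244 0,
  .mul 4 2,
  .add 0 471,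
  .inv 0,
  .mul 3 0,
  .mul 232 152,
  .scale ⟨549755813888, 0, 0, 0⟩ 239,
  .add 459 0,
  .mul 2 0,
  .scale ⟨2199023255552, 0, 0, 0⟩ 0,
  .add 162 0,
  .scale ⟨2199023255552, 0, 0, 0⟩ 0,
  .mul 0 152,
  .mul 473 152,
  .sub 459 0,
  .inv 0,
  .mul 3 0,
  .sub 12 0,
  .mul 249 249,
  .const ⟨14293651161088, 0, 0, 0⟩,
  .mul 0 122,
  .mul 2 0,
  .mul 491 491,
  .scale ⟨27487790694400, 0, 0, 0⟩ 0,
  .add 2 0,
  .mul 124 53,
  .sub 455 497,
  .sub 0 457,
  .mul 498 494,
  .mul 0 498,
  .mul 475 177,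
  .mul 0 260,
  .add 192 0,
  .add 19 446,
  .mul 504 0,
  .mul 10 9,
  .mul 176 1,
  .mul 7 4,
  .mul 1 0,
  .sub 3 0,
  .scale ⟨549755813888, 0, 0, 0⟩ 26,
  .add 510 0,
  .mul 182 0,
  .mul 514 489,
  .mul 0 280,
  .mul 490 462,
  .inv 0,
  .mul 2 0,
  .mul 5 0,
  .sub 21 0,
  .mul 283 10,
  .sub 520 284,
  .mul 509 2,
  .mul 1 0,
  .mul 29 0,
  .add 4 0,
  .pos 278,
  .pos 275,
  .scale ⟨2199023255552, 0, 0, 0⟩ 199,
  .sub 474 0,
  .pos 0,
  .pos 191,
  .sub 519 304,
  .pos 0,
  .scale ⟨687194767360, 0, 0, 0⟩ 528,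
  .sub 0 243,
  .pos 0,
  .scale ⟨377957122048, 0, 0, 0⟩ 530,
  .sub 0 249,
  .pos 0,
  .pos 48,
  .pos 188,
  .sub 3 176,
  .pos 0,
  .pos 46,
  .pos 68,
  .pos 8,
  .pos 14]

def chk0 {α : Type} (cst : Z → α) (add sub mul : α → α → α) (scale : Z → α → α)
    (neg inv exp log : α → α) (ok : α → Bool) (isPos : Nat → α → Bool) (isLt : α → Nat → Bool) :
    List α → Bool
  | [x0, x1, x2, x3] =>
  let v0 := cst ⟨1099511627776, 0, 0, 0⟩; ok v0 && (
  let v1 := mul x1 x2; ok v1 && (
  let v2 := mul x0 x2; ok v2 && (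
  let v3 := mul v2 v1; ok v3 && (
  let v4 := mul v2 v2; ok v4 && (
  let v5 := mul x1 v4; ok v5 && (
  let v6 := mul v1 v1; ok v6 && (
  let v7 := mul x1 v5; ok v7 && (
  let v8 := cst ⟨549755813888, 0, 0, 0⟩; ok v8 && (
  let v9 := mul x1 v3; ok v9 && (
  let v10 := mul v9 x3; ok v10 && (
  let v11 := scale ⟨549755813888, 0, 0, 0⟩ v10; ok v11 && (
  let v12 := mul v3 v3; ok v12 && (
  let v13 := mul v11 v11; ok v13 && (
  let v14 := sub v0 v13; ok v14 && (
  let v15 := inv v14; ok v15 && (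
  let v16 := mul v11 v15; ok v16 && (
  let v17 := scale ⟨2199023255552, 0, 0, 0⟩ v16; ok v17 && (
  let v18 := scale ⟨2199023255552, 0, 0, 0⟩ v15; ok v18 && (
  let v19 := sub v18 v0; ok v19 && (
  let v20 := add v19 v17; ok v20 && (
  let v21 := mul x3 v15; ok v21 && (
  let v22 := mul v3 v21; ok v22 && (
  let v23 := sub v0 v22; ok v23 && (
  let v24 := add v0 v22; ok v24 && (
  let v25 := mul x1 v12; ok v25 && (
  let v26 := mul v21 v21; ok v26 && (
  let v27 := scale ⟨10774999203840, 0, 0, 0⟩ v11; ok v27 && (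
  let v28 := scale ⟨45768245248, 0, 0, 0⟩ v27; ok v28 && (
  let v29 := cst ⟨183207198720, 0, 0, 0⟩; ok v29 && (
  let v30 := add v28 v29; ok v30 && (
  let v31 := mul v27 v30; ok v31 && (
  let v32 := add v8 v31; ok v32 && (
  let v33 := mul v27 v32; ok v33 && (
  let v34 := add v0 v33; ok v34 && (
  let v35 := mul v27 v34; ok v35 && (
  let v36 := scale ⟨549755813888, 0, 0, 0⟩ v35; ok v36 && (
  let v37 := add v0 v36; ok v37 && (
  let v38 := mul v34 v37; ok v38 && (
  let v39 := mul v17 v22; ok v39 && (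
  let v40 := scale ⟨2199023255552, 0, 0, 0⟩ v19; ok v40 && (
  let v41 := add v39 v40; ok v41 && (
  let v42 := add v41 x1; ok v42 && (
  let v43 := mul v25 v42; ok v43 && (
  let v44 := add v43 v0; ok v44 && (
  let v45 := mul v17 v17; ok v45 && (
  let v46 := scale ⟨2199023255552, 0, 0, 0⟩ v45; ok v46 && (
  let v47 := add v46 v0; ok v47 && (
  let v48 := mul v19 v42; ok v48 && (
  let v49 := sub v48 v0; ok v49 && (
  let v50 := log v44; ok v50 && (
  let v51 := scale ⟨549755813888, 0, 0, 0⟩ v50; ok v51 && (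
  let v52 := exp v51; ok v52 && (
  let v53 := cst ⟨3298534883328, 0, 0, 0⟩; ok v53 && (
  let v54 := inv v53; ok v54 && (
  let v55 := mul v0 v54; ok v55 && (
  let v56 := cst ⟨2199023255552, 0, 0, 0⟩; ok v56 && (
  let v57 := add v43 v56; ok v57 && (
  let v58 := inv v57; ok v58 && (
  let v59 := mul v43 v58; ok v59 && (
  let v60 := mul v59 v59; ok v60 && (
  let v61 := sub v0 v59; ok v61 && (
  let v62 := mul v60 v55; ok v62 && (
  let v63 := add v0 v62; ok v63 && (
  let v64 := mul v61 v63; ok v64 && (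
  let v65 := mul v60 v60; ok v65 && (
  let v66 := scale ⟨219915747328, 0, 0, 0⟩ v65; ok v66 && (
  let v67 := mul v42 v64; ok v67 && (
  let v68 := scale ⟨549755813888, 0, 0, 0⟩ v67; ok v68 && (
  let v69 := mul v42 v66; ok v69 && (
  let v70 := scale ⟨549755813888, 0, 0, 0⟩ v69; ok v70 && (
  let v71 := add v68 v70; ok v71 && (
  let v72 := mul v19 v49; ok v72 && (
  let v73 := scale ⟨4398046511104, 0, 0, 0⟩ v72; ok v73 && (
  let v74 := mul v19 v25; ok v74 && (
  let v75 := mul v74 v49; ok v75 && (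
  let v76 := scale ⟨4398046511104, 0, 0, 0⟩ v75; ok v76 && (
  let v77 := add v76 v56; ok v77 && (
  let v78 := inv v77; ok v78 && (
  let v79 := mul v76 v78; ok v79 && (
  let v80 := mul v79 v79; ok v80 && (
  let v81 := sub v0 v79; ok v81 && (
  let v82 := mul v80 v55; ok v82 && (
  let v83 := add v0 v82; ok v83 && (
  let v84 := mul v81 v83; ok v84 && (
  let v85 := mul v80 v80; ok v85 && (
  let v86 := scale ⟨219915747328, 0, 0, 0⟩ v85; ok v86 && (
  let v87 := mul v73 v84; ok v87 && (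
  let v88 := scale ⟨549755813888, 0, 0, 0⟩ v87; ok v88 && (
  let v89 := sub v88 v71; ok v89 && (
  let v90 := mul v73 v86; ok v90 && (
  let v91 := scale ⟨549755813888, 0, 0, 0⟩ v90; ok v91 && (
  let v92 := add v91 v70; ok v92 && (
  let v93 := add v89 v92; ok v93 && (
  let v94 := mul v5 v68; ok v94 && (
  let v95 := neg v94; ok v95 && (
  let v96 := exp v95; ok v96 && (
  let v97 := mul v5 v70; ok v97 && (
  let v98 := mul v96 v97; ok v98 && (
  let v99 := mul v5 v89; ok v99 && (
  let v100 := neg v99; ok v100 && (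
  let v101 := exp v100; ok v101 && (
  let v102 := mul v5 v92; ok v102 && (
  let v103 := mul v101 v102; ok v103 && (
  let v104 := mul v22 v17; ok v104 && (
  let v105 := add v19 v104; ok v105 && (
  let v106 := inv v105; ok v106 && (
  let v107 := mul v24 v106; ok v107 && (
  let v108 := mul v23 x1; ok v108 && (
  let v109 := mul v108 v107; ok v109 && (
  let v110 := sub v0 v12; ok v110 && (
  let v111 := mul v26 v110; ok v111 && (
  let v112 := mul v9 v9; ok v112 && (
  let v113 := sub v0 v26; ok v113 && (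
  let v114 := mul v110 v113; ok v114 && (
  let v115 := mul v25 v49; ok v115 && (
  let v116 := inv v44; ok v116 && (
  let v117 := mul v115 v116; ok v117 && (
  let v118 := add v19 v117; ok v118 && (
  let v119 := mul v44 v118; ok v119 && (
  let v120 := mul v119 v119; ok v120 && (
  let v121 := inv v120; ok v121 && (
  let v122 := mul v114 v121; ok v122 && (
  let v123 := add v19 v25; ok v123 && (
  let v124 := mul v0 v123; ok v124 && (
  let v125 := inv v124; ok v125 && (
  let v126 := mul x0 v125; ok v126 && (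
  let v127 := mul v126 v126; ok v127 && (
  let v128 := mul v127 v114; ok v128 && (
  let v129 := cst ⟨45812285440, 0, 0, 0⟩; ok v129 && (
  let v130 := scale ⟨1527119872, 0, 0, 0⟩ v128; ok v130 && (
  let v131 := sub v129 v130; ok v131 && (
  let v132 := mul v128 v131; ok v132 && (
  let v133 := sub v8 v132; ok v133 && (
  let v134 := mul v128 v133; ok v134 && (
  let v135 := sub v0 v134; ok v135 && (
  let v136 := add v96 v0; ok v136 && (
  let v137 := mul v96 v96; ok v137 && (
  let v138 := add v137 v0; ok v138 && (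
  let v139 := mul v96 v135; ok v139 && (
  let v140 := scale ⟨2199023255552, 0, 0, 0⟩ v139; ok v140 && (
  let v141 := add v138 v140; ok v141 && (
  let v142 := scale ⟨4398046511104, 0, 0, 0⟩ v98; ok v142 && (
  let v143 := sub v141 v142; ok v143 && (
  let v144 := inv v136; ok v144 && (
  let v145 := mul v143 v144; ok v145 && (
  let v146 := add v145 v136; ok v146 && (
  let v147 := mul v96 v109; ok v147 && (
  let v148 := scale ⟨549755813888, 0, 0, 0⟩ v147; ok v148 && (
  let v149 := mul v148 v146; ok v149 && (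
  let v150 := sub v143 v149; ok v150 && (
  isPos 4 v143 && (
  isPos 4 v150 && (
  let v151 := mul v5 v71; ok v151 && (
  let v152 := scale ⟨2199023255552, 0, 0, 0⟩ v151; ok v152 && (
  let v153 := scale ⟨183274307584, 0, 0, 0⟩ v152; ok v153 && (
  let v154 := sub v8 v153; ok v154 && (
  let v155 := mul v152 v154; ok v155 && (
  let v156 := sub v0 v155; ok v156 && (
  let v157 := mul v71 v156; ok v157 && (
  let v158 := inv v150; ok v158 && (
  let v159 := mul v157 v158; ok v159 && (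
  let v160 := mul v5 v159; ok v160 && (
  let v161 := add v160 v8; ok v161 && (
  let v162 := inv v161; ok v162 && (
  let v163 := mul v159 v162; ok v163 && (
  let v164 := mul v5 v163; ok v164 && (
  let v165 := mul v109 v164; ok v165 && (
  let v166 := scale ⟨549755813888, 0, 0, 0⟩ v165; ok v166 && (
  let v167 := sub v0 v166; ok v167 && (
  let v168 := sub v0 v165; ok v168 && (
  let v169 := inv v168; ok v169 && (
  let v170 := mul v167 v169; ok v170 && (
  let v171 := add v165 v0; ok v171 && (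
  let v172 := mul v96 v171; ok v172 && (
  let v173 := mul v107 v170; ok v173 && (
  let v174 := mul v3 v163; ok v174 && (
  let v175 := mul v173 v174; ok v175 && (
  let v176 := mul v165 v170; ok v176 && (
  isPos 4 v168 && (
  let v177 := mul v23 v24; ok v177 && (
  let v178 := add v19 x1; ok v178 && (
  let v179 := mul v22 v19; ok v179 && (
  let v180 := mul v179 v17; ok v180 && (
  let v181 := scale ⟨2199023255552, 0, 0, 0⟩ v180; ok v181 && (
  let v182 := add v47 v181; ok v182 && (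
  let v183 := mul v178 v182; ok v183 && (
  let v184 := inv v183; ok v184 && (
  let v185 := mul v177 v184; ok v185 && (
  let v186 := mul x1 v185; ok v186 && (
  isPos 4 v89 && (
  let v187 := mul v128 v116; ok v187 && (
  let v188 := scale ⟨1527119872, 0, 0, 0⟩ v187; ok v188 && (
  let v189 := sub v129 v188; ok v189 && (
  let v190 := mul v187 v189; ok v190 && (
  let v191 := sub v8 v190; ok v191 && (
  let v192 := mul v187 v191; ok v192 && (
  let v193 := sub v0 v192; ok v193 && (
  let v194 := add v101 v0; ok v194 && (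
  let v195 := mul v101 v101; ok v195 && (
  let v196 := add v195 v0; ok v196 && (
  let v197 := mul v101 v193; ok v197 && (
  let v198 := scale ⟨2199023255552, 0, 0, 0⟩ v197; ok v198 && (
  let v199 := add v196 v198; ok v199 && (
  let v200 := scale ⟨4398046511104, 0, 0, 0⟩ v103; ok v200 && (
  let v201 := sub v199 v200; ok v201 && (
  let v202 := inv v194; ok v202 && (
  let v203 := mul v201 v202; ok v203 && (
  let v204 := add v203 v194; ok v204 && (
  let v205 := mul v101 v186; ok v205 && (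
  let v206 := scale ⟨549755813888, 0, 0, 0⟩ v205; ok v206 && (
  let v207 := mul v206 v204; ok v207 && (
  let v208 := sub v201 v207; ok v208 && (
  isPos 4 v201 && (
  isPos 4 v208 && (
  let v209 := mul v5 v93; ok v209 && (
  let v210 := scale ⟨2199023255552, 0, 0, 0⟩ v209; ok v210 && (
  let v211 := scale ⟨183274307584, 0, 0, 0⟩ v210; ok v211 && (
  let v212 := sub v8 v211; ok v212 && (
  let v213 := mul v210 v212; ok v213 && (
  let v214 := sub v0 v213; ok v214 && (
  let v215 := mul v93 v214; ok v215 && (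
  let v216 := inv v208; ok v216 && (
  let v217 := mul v215 v216; ok v217 && (
  let v218 := mul v5 v217; ok v218 && (
  let v219 := add v218 v8; ok v219 && (
  let v220 := inv v219; ok v220 && (
  let v221 := mul v217 v220; ok v221 && (
  let v222 := mul v5 v221; ok v222 && (
  let v223 := mul v186 v222; ok v223 && (
  let v224 := mul v3 v221; ok v224 && (
  let v225 := add v11 v0; ok v225 && (
  let v226 := inv v225; ok v226 && (
  let v227 := mul v11 v226; ok v227 && (
  let v228 := scale ⟨2199023255552, 0, 0, 0⟩ v227; ok v228 && (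
  let v229 := sub v0 v228; ok v229 && (
  let v230 := sub v0 v11; ok v230 && (
  let v231 := mul x3 v226; ok v231 && (
  let v232 := mul v231 v229; ok v232 && (
  let v233 := add v24 v232; ok v233 && (
  let v234 := scale ⟨224412041216, 0, 0, 0⟩ v15; ok v234 && (
  let v235 := inv v38; ok v235 && (
  let v236 := mul v234 v235; ok v236 && (
  let v237 := scale ⟨4398046511104, 0, 0, 0⟩ v0; ok v237 && (
  let v238 := mul x0 v21; ok v238 && (
  let v239 := add v237 v238; ok v239 && (
  let v240 := inv v239; ok v240 && (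
  let v241 := mul x0 v240; ok v241 && (
  let v242 := mul v0 v240; ok v242 && (
  let v243 := mul v242 v24; ok v243 && (
  let v244 := mul v243 v236; ok v244 && (
  let v245 := mul v241 v24; ok v245 && (
  let v246 := mul v245 v236; ok v246 && (
  let v247 := sub v0 v246; ok v247 && (
  let v248 := inv v247; ok v248 && (
  let v249 := mul v172 v246; ok v249 && (
  let v250 := sub v0 v249; ok v250 && (
  let v251 := inv v250; ok v251 && (
  let v252 := scale ⟨2199023255552, 0, 0, 0⟩ v6; ok v252 && (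
  let v253 := add v252 v0; ok v253 && (
  let v254 := add v6 v0; ok v254 && (
  let v255 := scale ⟨549755813888, 0, 0, 0⟩ v163; ok v255 && (
  let v256 := scale ⟨2199023255552, 0, 0, 0⟩ x1; ok v256 && (
  let v257 := add v255 v256; ok v257 && (
  let v258 := mul x2 v257; ok v258 && (
  let v259 := scale ⟨549755813888, 0, 0, 0⟩ v258; ok v259 && (
  let v260 := mul v11 v21; ok v260 && (
  let v261 := sub v0 v111; ok v261 && (
  let v262 := mul v11 v22; ok v262 && (
  let v263 := scale ⟨2199023255552, 0, 0, 0⟩ v262; ok v263 && (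
  let v264 := sub v261 v263; ok v264 && (
  let v265 := mul v260 v260; ok v265 && (
  let v266 := add v264 v265; ok v266 && (
  let v267 := add v266 v0; ok v267 && (
  let v268 := scale ⟨549755813888, 0, 0, 0⟩ v267; ok v268 && (
  let v269 := scale ⟨549755813888, 0, 0, 0⟩ v25; ok v269 && (
  let v270 := sub v15 v269; ok v270 && (
  let v271 := mul v112 v261; ok v271 && (
  let v272 := mul v271 v14; ok v272 && (
  let v273 := scale ⟨137438953472, 0, 0, 0⟩ v272; ok v273 && (
  let v274 := add v270 v273; ok v274 && (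
  let v275 := mul v268 v274; ok v275 && (
  let v276 := add v172 v0; ok v276 && (
  let v277 := mul v276 v248; ok v277 && (
  let v278 := mul v172 v251; ok v278 && (
  let v279 := add v277 v278; ok v279 && (
  let v280 := mul v246 v279; ok v280 && (
  let v281 := add v176 v280; ok v281 && (
  let v282 := mul v281 v6; ok v282 && (
  let v283 := mul v276 v246; ok v283 && (
  let v284 := mul v283 v248; ok v284 && (
  let v285 := add v176 v284; ok v285 && (
  let v286 := mul v285 v6; ok v286 && (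
  let v287 := scale ⟨223338299392, 0, 0, 0⟩ v286; ok v287 && (
  let v288 := add v8 v287; ok v288 && (
  let v289 := mul v286 v288; ok v289 && (
  let v290 := add v0 v289; ok v290 && (
  let v291 := scale ⟨893353197568, 0, 0, 0⟩ v282; ok v291 && (
  let v292 := add v0 v291; ok v292 && (
  let v293 := mul v282 v292; ok v293 && (
  let v294 := add v0 v293; ok v294 && (
  let v295 := mul v228 v231; ok v295 && (
  let v296 := mul v295 v253; ok v296 && (
  let v297 := mul v296 v294; ok v297 && (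
  let v298 := mul v275 v290; ok v298 && (
  let v299 := add v52 v8; ok v299 && (
  let v300 := mul v297 v299; ok v300 && (
  let v301 := add v298 v300; ok v301 && (
  let v302 := add v52 v0; ok v302 && (
  let v303 := mul v297 v302; ok v303 && (
  let v304 := mul v254 v302; ok v304 && (
  let v305 := mul v304 v231; ok v305 && (
  let v306 := mul v305 v230; ok v306 && (
  let v307 := mul v301 v175; ok v307 && (
  let v308 := mul v306 v259; ok v308 && (
  let v309 := add v307 v308; ok v309 && (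
  let v310 := mul v3 v233; ok v310 && (
  let v311 := inv v52; ok v311 && (
  let v312 := mul v310 v311; ok v312 && (
  let v313 := scale ⟨549755813888, 0, 0, 0⟩ v312; ok v313 && (
  let v314 := mul v23 v313; ok v314 && (
  let v315 := add v314 v309; ok v315 && (
  let v316 := mul x1 v315; ok v316 && (
  let v317 := mul v0 v316; ok v317 && (
  let v318 := mul v301 v276; ok v318 && (
  let v319 := mul v318 v248; ok v319 && (
  let v320 := mul v303 v172; ok v320 && (
  let v321 := mul v320 v251; ok v321 && (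
  let v322 := add v319 v321; ok v322 && (
  let v323 := mul v23 v317; ok v323 && (
  let v324 := mul v244 v322; ok v324 && (
  let v325 := add v323 v324; ok v325 && (
  let v326 := mul v112 v325; ok v326 && (
  let v327 := mul v326 v311; ok v327 && (
  let v328 := sub v0 v327; ok v328 && (
  let v329 := inv v328; ok v329 && (
  let v330 := mul v325 v329; ok v330 && (
  let v331 := mul x1 v330; ok v331 && (
  let v332 := mul v112 v330; ok v332 && (
  let v333 := mul v332 v311; ok v333 && (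
  let v334 := sub v0 v333; ok v334 && (
  let v335 := mul v49 v334; ok v335 && (
  let v336 := sub v335 v331; ok v336 && (
  let v337 := inv v336; ok v337 && (
  let v338 := mul v331 v337; ok v338 && (
  let v339 := sub v52 v332; ok v339 && (
  let v340 := inv v339; ok v340 && (
  let v341 := mul v338 v222; ok v341 && (
  let v342 := scale ⟨549755813888, 0, 0, 0⟩ v341; ok v342 && (
  let v343 := sub v0 v342; ok v343 && (
  let v344 := sub v0 v341; ok v344 && (
  let v345 := inv v344; ok v345 && (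
  let v346 := mul v343 v345; ok v346 && (
  let v347 := mul v3 v340; ok v347 && (
  let v348 := mul v224 v337; ok v348 && (
  let v349 := mul v348 v346; ok v349 && (
  let v350 := add v347 v349; ok v350 && (
  let v351 := mul v7 v330; ok v351 && (
  let v352 := mul v340 v351; ok v352 && (
  let v353 := mul v222 v337; ok v353 && (
  let v354 := mul v353 v346; ok v354 && (
  let v355 := mul v354 v331; ok v355 && (
  let v356 := add v352 v355; ok v356 && (
  let v357 := scale ⟨223338299392, 0, 0, 0⟩ v356; ok v357 && (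
  let v358 := add v8 v357; ok v358 && (
  let v359 := mul v356 v358; ok v359 && (
  let v360 := add v0 v359; ok v360 && (
  let v361 := mul v350 v360; ok v361 && (
  let v362 := mul v361 v329; ok v362 && (
  let v363 := mul v362 v322; ok v363 && (
  let v364 := mul v245 v23; ok v364 && (
  let v365 := cst ⟨7696581394432, 0, 0, 0⟩; ok v365 && (
  let v366 := cst ⟨10995116277760, 0, 0, 0⟩; ok v366 && (
  let v367 := inv v366; ok v367 && (
  let v368 := mul v365 v367; ok v368 && (
  let v369 := mul v225 v24; ok v369 && (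
  let v370 := mul v369 v368; ok v370 && (
  let v371 := mul v178 v106; ok v371 && (
  let v372 := mul v22 v371; ok v372 && (
  let v373 := scale ⟨549755813888, 0, 0, 0⟩ v223; ok v373 && (
  let v374 := sub v0 v373; ok v374 && (
  let v375 := sub v0 v223; ok v375 && (
  let v376 := inv v375; ok v376 && (
  let v377 := mul v374 v376; ok v377 && (
  let v378 := mul v377 v186; ok v378 && (
  let v379 := mul v112 v122; ok v379 && (
  let v380 := scale ⟨733097230336, 0, 0, 0⟩ v379; ok v380 && (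
  let v381 := sub v0 v380; ok v381 && (
  let v382 := mul v122 v381; ok v382 && (
  let v383 := mul v89 v89; ok v383 && (
  let v384 := mul v12 v383; ok v384 && (
  let v385 := add v382 v384; ok v385 && (
  let v386 := mul v378 v224; ok v386 && (
  let v387 := add v385 v0; ok v387 && (
  let v388 := mul v386 v387; ok v388 && (
  let v389 := sub v385 v388; ok v389 && (
  let v390 := scale ⟨366548615168, 0, 0, 0⟩ v45; ok v390 && (
  let v391 := sub v0 v390; ok v391 && (
  let v392 := mul v26 v391; ok v392 && (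
  let v393 := add v389 v392; ok v393 && (
  let v394 := mul v371 v393; ok v394 && (
  let v395 := mul v372 v372; ok v395 && (
  let v396 := add v0 v395; ok v396 && (
  let v397 := inv v396; ok v397 && (
  let v398 := mul v394 v397; ok v398 && (
  let v399 := sub v0 v338; ok v399 && (
  let v400 := mul v399 v398; ok v400 && (
  let v401 := sub v0 v386; ok v401 && (
  isPos 4 v401 && (
  isPos 4 v398 && (
  isPos 4 v399 && (
  let v402 := mul v362 v239; ok v402 && (
  let v403 := mul v402 v315; ok v403 && (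
  let v404 := inv v24; ok v404 && (
  let v405 := mul v403 v404; ok v405 && (
  let v406 := mul v4 v400; ok v406 && (
  let v407 := mul x1 v406; ok v407 && (
  let v408 := scale ⟨549755813888, 0, 0, 0⟩ v407; ok v408 && (
  let v409 := sub v0 v408; ok v409 && (
  let v410 := mul v406 v409; ok v410 && (
  let v411 := neg v410; ok v411 && (
  let v412 := mul v3 x3; ok v412 && (
  let v413 := mul v412 v225; ok v413 && (
  let v414 := mul v413 v15; ok v414 && (
  let v415 := mul v0 v414; ok v415 && (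
  let v416 := add v411 v415; ok v416 && (
  let v417 := mul v411 v415; ok v417 && (
  let v418 := mul x1 v417; ok v418 && (
  let v419 := add v416 v418; ok v419 && (
  let v420 := mul v12 v42; ok v420 && (
  let v421 := scale ⟨412316860416, 0, 0, 0⟩ v43; ok v421 && (
  let v422 := sub v8 v421; ok v422 && (
  let v423 := mul v420 v422; ok v423 && (
  let v424 := mul v0 v423; ok v424 && (
  let v425 := neg v424; ok v425 && (
  let v426 := add v419 v425; ok v426 && (
  let v427 := mul v419 v425; ok v427 && (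
  let v428 := mul x1 v427; ok v428 && (
  let v429 := add v426 v428; ok v429 && (
  let v430 := mul v3 v330; ok v430 && (
  let v431 := mul v430 v404; ok v431 && (
  let v432 := mul v0 v431; ok v432 && (
  let v433 := add v429 v432; ok v433 && (
  let v434 := mul v429 v432; ok v434 && (
  let v435 := mul x1 v434; ok v435 && (
  let v436 := add v433 v435; ok v436 && (
  let v437 := mul v0 v370; ok v437 && (
  let v438 := sub v436 v437; ok v438 && (
  let v439 := mul x1 v370; ok v439 && (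
  let v440 := add v0 v439; ok v440 && (
  let v441 := inv v440; ok v441 && (
  let v442 := mul v438 v441; ok v442 && (
  let v443 := mul v3 v9; ok v443 && (
  let v444 := mul v443 v330; ok v444 && (
  let v445 := mul v444 v340; ok v445 && (
  let v446 := mul v0 v445; ok v446 && (
  let v447 := add v442 v446; ok v447 && (
  let v448 := mul v442 v446; ok v448 && (
  let v449 := mul x1 v448; ok v449 && (
  let v450 := add v447 v449; ok v450 && (
  let v451 := mul x1 v450; ok v451 && (
  let v452 := add v0 v451; ok v452 && (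
  let v453 := mul v363 v246; ok v453 && (
  let v454 := mul x1 v364; ok v454 && (
  let v455 := mul v405 v454; ok v455 && (
  let v456 := add v453 v455; ok v456 && (
  let v457 := mul v0 v456; ok v457 && (
  let v458 := add v363 v405; ok v458 && (
  let v459 := mul v0 v458; ok v459 && (
  let v460 := mul v457 v452; ok v460 && (
  let v461 := add v450 v460; ok v461 && (
  let v462 := add v461 v459; ok v462 && (
  let v463 := neg v462; ok v463 && (
  let v464 := scale ⟨1073741824, 0, 0, 0⟩ v0; ok v464 && (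
  let v465 := sub v463 v464; ok v465 && (
  let v466 := sub v20 v0; ok v466 && (
  let v467 := add v466 v56; ok v467 && (
  let v468 := scale ⟨2199023255552, 0, 0, 0⟩ v368; ok v468 && (
  let v469 := sub v467 v468; ok v469 && (
  let v470 := mul v225 v469; ok v470 && (
  let v471 := mul v466 v468; ok v471 && (
  let v472 := add v471 v0; ok v472 && (
  let v473 := inv v472; ok v473 && (
  let v474 := mul v470 v473; ok v474 && (
  let v475 := mul v242 v322; ok v475 && (
  let v476 := scale ⟨549755813888, 0, 0, 0⟩ v236; ok v476 && (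
  let v477 := add v17 v476; ok v477 && (
  let v478 := mul v475 v477; ok v478 && (
  let v479 := scale ⟨2199023255552, 0, 0, 0⟩ v478; ok v479 && (
  let v480 := add v317 v479; ok v480 && (
  let v481 := scale ⟨2199023255552, 0, 0, 0⟩ v480; ok v481 && (
  let v482 := mul v481 v329; ok v482 && (
  let v483 := mul v9 v330; ok v483 && (
  let v484 := sub v24 v483; ok v484 && (
  let v485 := inv v484; ok v485 && (
  let v486 := mul v482 v485; ok v486 && (
  let v487 := sub v474 v486; ok v487 && (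
  let v488 := mul v238 v238; ok v488 && (
  let v489 := cst ⟨14293651161088, 0, 0, 0⟩; ok v489 && (
  let v490 := mul v489 v367; ok v490 && (
  let v491 := mul v488 v490; ok v491 && (
  let v492 := mul v0 v0; ok v492 && (
  let v493 := scale ⟨27487790694400, 0, 0, 0⟩ v492; ok v493 && (
  let v494 := add v491 v493; ok v494 && (
  let v495 := mul v370 v441; ok v495 && (
  let v496 := sub v40 x1; ok v496 && (
  let v497 := sub v496 v39; ok v497 && (
  let v498 := mul x0 v3; ok v498 && (
  let v499 := mul v498 v0; ok v499 && (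
  let v500 := mul v24 v322; ok v500 && (
  let v501 := mul v500 v240; ok v501 && (
  let v502 := add v309 v501; ok v502 && (
  let v503 := add v483 v56; ok v503 && (
  let v504 := mul x0 v503; ok v504 && (
  let v505 := mul v494 v495; ok v505 && (
  let v506 := mul v329 v504; ok v506 && (
  let v507 := mul v499 v502; ok v507 && (
  let v508 := mul v506 v507; ok v508 && (
  let v509 := sub v505 v508; ok v509 && (
  let v510 := scale ⟨549755813888, 0, 0, 0⟩ v483; ok v510 && (
  let v511 := add v0 v510; ok v511 && (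
  let v512 := mul v329 v511; ok v512 && (
  let v513 := mul x1 v23; ok v513 && (
  let v514 := mul v513 v233; ok v514 && (
  let v515 := mul v24 v52; ok v515 && (
  let v516 := inv v515; ok v516 && (
  let v517 := mul v514 v516; ok v517 && (
  let v518 := mul v512 v517; ok v518 && (
  let v519 := sub v497 v518; ok v519 && (
  let v520 := mul v236 v509; ok v520 && (
  let v521 := sub v0 v236; ok v521 && (
  let v522 := mul v12 v519; ok v522 && (
  let v523 := mul v521 v522; ok v523 && (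
  let v524 := mul v494 v523; ok v524 && (
  let v525 := add v520 v524; ok v525 && (
  isPos 4 v247 && (
  isPos 4 v250 && (
  let v526 := scale ⟨2199023255552, 0, 0, 0⟩ v326; ok v526 && (
  let v527 := sub v52 v526; ok v527 && (
  isPos 4 v527 && (
  isPos 4 v336 && (
  let v528 := sub v8 v223; ok v528 && (
  isPos 4 v528 && (
  let v529 := scale ⟨687194767360, 0, 0, 0⟩ v0; ok v529 && (
  let v530 := sub v529 v286; ok v530 && (
  isPos 4 v530 && (
  let v531 := scale ⟨377957122048, 0, 0, 0⟩ v0; ok v531 && (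
  let v532 := sub v531 v282; ok v532 && (
  isPos 4 v532 && (
  isPos 4 v484 && (
  isPos 4 v344 && (
  let v533 := sub v529 v356; ok v533 && (
  isPos 4 v533 && (
  isPos 4 v487 && (
  isPos 4 v465 && (
  isPos 4 v525 && (
  isPos 4 v519 && (
  true)))))))))))))))))))))))))))))))))))))))))))))))))))))))))))))))))))))))))))))))))))))))))))))))))))))))))))))))))))))))))))))))))))))))))))))))))))))))))))))))))))))))))))))))))))))))))))))))))))))))))))))))))))))))))))))))))))))))))))))))))))))))))))))))))))))))))))))))))))))))))))))))))))))))))))))))))))))))))))))))))))))))))))))))))))))))))))))))))))))))))))))))))))))))))))))))))))))))))))))))))))))))))))))))))))))))))))))))))))))))))))))))))))))))))))))))))))))))))))))))))))))))))))))))))))))))))))))))))))))))))))))))))))))))))))))))))))))))))))))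
  | _ => false

set_option maxRecDepth 1000000 in
theorem chk0_eq (O : Ops) (m : List O.α)
    (h : chk0 O.cst O.add O.sub O.mul O.scale O.neg O.inv O.exp O.log O.ok O.isPos O.isLt m = true) :
    runG O 4 prog0 m = true := by
  match m, h with
  | [x0, x1, x2, x3], h => exact h

def chkB0 : List opsE.α → Bool :=
  chk0 opsE.cst opsE.add opsE.sub opsE.mul opsE.scale opsE.neg opsE.inv opsE.exp opsE.log opsE.ok opsE.isPos opsE.isLt

theorem chkB0_eq (m : List opsE.α) (h : chkB0 m = true) : runG opsE 4 prog0 m = true :=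
  chk0_eq opsE m h

def prog1 : List Op := [
  .const ⟨1099511627776, 0, 0, 0⟩,
  .mul 2 3,
  .mul 2 4,
  .mul 0 1,
  .mul 1 1,
  .mul 6 0,
  .mul 4 4,
  .mul 8 1,
  .const ⟨549755813888, 0, 0, 0⟩,
  .mul 10 5,
  .mul 0 13,
  .scale ⟨549755813888, 0, 0, 0⟩ 0,
  .mul 8 8,
  .mul 1 1,
  .sub 13 0,
  .inv 0,
  .mul 4 0,
  .scale ⟨2199023255552, 0, 0, 0⟩ 0,
  .scale ⟨2199023255552, 0, 0, 0⟩ 2,
  .sub 0 18,
  .add 0 2,
  .mul 24 5,
  .mul 18 0,
  .sub 22 0,
  .add 23 1,
  .mul 26 12,
  .mul 4 4,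
  .scale ⟨10774999203840, 0, 0, 0⟩ 15,
  .scale ⟨45768245248, 0, 0, 0⟩ 0,
  .const ⟨183207198720, 0, 0, 0⟩,
  .add 1 0,
  .mul 3 0,
  .add 23 0,
  .mul 5 0,
  .add 33 0,
  .mul 7 0,
  .scale ⟨549755813888, 0, 0, 0⟩ 0,
  .add 36 0,
  .mul 3 0,
  .scale ⟨224412041216, 0, 0, 0⟩ 23,
  .inv 1,
  .mul 1 0,
  .sub 43 24,
  .sub 0 1,
  .pos 0]

def chk1 {α : Type} (cst : Z → α) (add sub mul : α → α → α) (scale : Z → α → α)
    (neg inv exp log : α → α) (ok : α → Bool) (isPos : Nat → α → Bool) (isLt : α → Nat → Bool) :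
    List α → Bool
  | [x0, x1, x2, x3] =>
  let v0 := cst ⟨1099511627776, 0, 0, 0⟩; ok v0 && (
  let v1 := mul x1 x2; ok v1 && (
  let v2 := mul x0 x2; ok v2 && (
  let v3 := mul v2 v1; ok v3 && (
  let v4 := mul v2 v2; ok v4 && (
  let v5 := mul x1 v4; ok v5 && (
  let v6 := mul v1 v1; ok v6 && (
  let v7 := mul x1 v5; ok v7 && (
  let v8 := cst ⟨549755813888, 0, 0, 0⟩; ok v8 && (
  let v9 := mul x1 v3; ok v9 && (
  let v10 := mul v9 x3; ok v10 && (
  let v11 := scale ⟨549755813888, 0, 0, 0⟩ v10; ok v11 && (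
  let v12 := mul v3 v3; ok v12 && (
  let v13 := mul v11 v11; ok v13 && (
  let v14 := sub v0 v13; ok v14 && (
  let v15 := inv v14; ok v15 && (
  let v16 := mul v11 v15; ok v16 && (
  let v17 := scale ⟨2199023255552, 0, 0, 0⟩ v16; ok v17 && (
  let v18 := scale ⟨2199023255552, 0, 0, 0⟩ v15; ok v18 && (
  let v19 := sub v18 v0; ok v19 && (
  let v20 := add v19 v17; ok v20 && (
  let v21 := mul x3 v15; ok v21 && (
  let v22 := mul v3 v21; ok v22 && (
  let v23 := sub v0 v22; ok v23 && (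
  let v24 := add v0 v22; ok v24 && (
  let v25 := mul x1 v12; ok v25 && (
  let v26 := mul v21 v21; ok v26 && (
  let v27 := scale ⟨10774999203840, 0, 0, 0⟩ v11; ok v27 && (
  let v28 := scale ⟨45768245248, 0, 0, 0⟩ v27; ok v28 && (
  let v29 := cst ⟨183207198720, 0, 0, 0⟩; ok v29 && (
  let v30 := add v28 v29; ok v30 && (
  let v31 := mul v27 v30; ok v31 && (
  let v32 := add v8 v31; ok v32 && (
  let v33 := mul v27 v32; ok v33 && (
  let v34 := add v0 v33; ok v34 && (
  let v35 := mul v27 v34; ok v35 && (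
  let v36 := scale ⟨549755813888, 0, 0, 0⟩ v35; ok v36 && (
  let v37 := add v0 v36; ok v37 && (
  let v38 := mul v34 v37; ok v38 && (
  let v39 := scale ⟨224412041216, 0, 0, 0⟩ v15; ok v39 && (
  let v40 := inv v38; ok v40 && (
  let v41 := mul v39 v40; ok v41 && (
  let v42 := sub x1 v17; ok v42 && (
  let v43 := sub v42 v41; ok v43 && (
  isPos 4 v43 && (
  true)))))))))))))))))))))))))))))))))))))))))))))
  | _ => false

set_option maxRecDepth 1000000 in
theorem chk1_eq (O : Ops) (m : List O.α)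
    (h : chk1 O.cst O.add O.sub O.mul O.scale O.neg O.inv O.exp O.log O.ok O.isPos O.isLt m = true) :
    runG O 4 prog1 m = true := by
  match m, h with
  | [x0, x1, x2, x3], h => exact h

def chkB1 : List opsE.α → Bool :=
  chk1 opsE.cst opsE.add opsE.sub opsE.mul opsE.scale opsE.neg opsE.inv opsE.exp opsE.log opsE.ok opsE.isPos opsE.isLt

theorem chkB1_eq (m : List opsE.α) (h : chkB1 m = true) : runG opsE 4 prog1 m = true :=
  chk1_eq opsE m h

def progs : List (List Op) := [prog0, prog1]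

def chks : List (List opsE.α → Bool) := [chkB0, chkB1]

theorem chks_eq : List.Forall₂ (fun (ops : List Op) (chk : List opsE.α → Bool) =>
    ∀ m, chk m = true → runG opsE 4 ops m = true) progs chks :=
  List.Forall₂.cons chkB0_eq (List.Forall₂.cons chkB1_eq List.Forall₂.nil)

end Pool.Agent.helper71.FJ.Crt.QHII
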