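import Pool.Agent.helper31.IC.EngD
import Pool.Agent.helper14.QF.Inst

/-!
Generated: straight line program(s) and compiled form(s).
-/

namespace Pool.Agent.helper71.FJ.Crt.QHIII

open Pool.Agent.helper31.IA (Z Op)
open Pool.Agent.helper31.IC

set_option maxRecDepth 100000

abbrev opsE : Ops := Pool.Agent.helper14.QF.opsF

def prog0 : List Op := [
  .const ⟨1099511627776, 0, 0, 0⟩,
  .mul 2 3,
  .mul 4 4,
  .mul 3 4,
  .mul 0 1,
  .mul 3 3,
  .mul 1 2,
  .const ⟨549755813888, 0, 0, 0⟩,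
  .mul 3 9,
  .mul 0 12,
  .scale ⟨549755813888, 0, 0, 0⟩ 0,
  .mul 12 12,
  .mul 1 1,
  .sub 12 0,
  .inv 0,
  .mul 4 0,
  .scale ⟨2199023255552, 0, 0, 0⟩ 0,
  .scale ⟨2199023255552, 0, 0, 0⟩ 2,
  .sub 0 17,
  .add 0 2,
  .mul 23 5,
  .mul 22 0,
  .sub 21 0,
  .add 22 1,
  .mul 19 12,
  .mul 4 4,
  .scale ⟨10774999203840, 0, 0, 0⟩ 15,
  .scale ⟨45768245248, 0, 0, 0⟩ 0,
  .const ⟨183207198720, 0, 0, 0⟩,
  .add 1 0,
  .mul 3 0,
  .add 23 0,
  .mul 5 0,
  .add 32 0,
  .mul 7 0,
  .scale ⟨549755813888, 0, 0, 0⟩ 0,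
  .add 35 0,
  .mul 3 0,
  .mul 21 16,
  .scale ⟨2199023255552, 0, 0, 0⟩ 20,
  .add 1 0,
  .add 0 36,
  .mul 17 0,
  .add 0 42,
  .mul 27 27,
  .scale ⟨2199023255552, 0, 0, 0⟩ 0,
  .add 0 45,
  .mul 28 5,
  .sub 0 47,
  .log 5,
  .scale ⟨549755813888, 0, 0, 0⟩ 0,
  .exp 0,
  .const ⟨3298534883328, 0, 0, 0⟩,
  .inv 0,
  .mul 53 0,
  .const ⟨2199023255552, 0, 0, 0⟩,
  .add 13 0,
  .inv 0,
  .mul 15 0,
  .mul 0 0,
  .sub 59 1,
  .mul 1 6,
  .add 61 0,
  .mul 2 0,
  .mul 4 4,
  .scale ⟨219915747328, 0, 0, 0⟩ 0,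
  .mul 24 2,
  .scale ⟨549755813888, 0, 0, 0⟩ 0,
  .mul 26 2,
  .scale ⟨549755813888, 0, 0, 0⟩ 0,
  .add 2 0,
  .mul 52 22,
  .scale ⟨4398046511104, 0, 0, 0⟩ 0,
  .mul 54 48,
  .mul 0 25,
  .scale ⟨4398046511104, 0, 0, 0⟩ 0,
  .add 0 20,
  .inv 0,
  .mul 2 0,
  .mul 0 0,
  .sub 79 1,
  .mul 1 26,
  .add 81 0,
  .mul 2 0,
  .mul 4 4,
  .scale ⟨219915747328, 0, 0, 0⟩ 0,
  .mul 13 2,
  .scale ⟨549755813888, 0, 0, 0⟩ 0,
  .sub 0 17,
  .mul 16 3,
  .scale ⟨549755813888, 0, 0, 0⟩ 0,
  .add 0 21,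
  .add 3 0,
  .mul 89 25,
  .neg 0,
  .exp 0,
  .mul 92 26,
  .mul 1 0,
  .mul 94 9,
  .neg 0,
  .exp 0,
  .mul 97 9,
  .mul 1 0,
  .mul 81 86,
  .add 85 0,
  .inv 0,
  .mul 82 0,
  .mul 84 102,
  .mul 0 1,
  .sub 108 97,
  .mul 84 0,
  .mul 102 102,
  .sub 111 86,
  .mul 3 0,
  .mul 89 65,
  .inv 71,
  .mul 1 0,
  .add 98 0,
  .mul 74 0,
  .mul 0 0,
  .inv 0,
  .mul 7 0,
  .add 103 97,
  .mul 122 0,
  .inv 0,
  .mul 125 0,
  .mul 0 0,
  .mul 0 13,
  .const ⟨45812285440, 0, 0, 0⟩,
  .scale ⟨1527119872, 0, 0, 0⟩ 1,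
  .sub 1 0,
  .mul 3 0,
  .sub 124 0,
  .mul 5 0,
  .sub 133 0,
  .add 39 134,
  .mul 40 40,
  .add 0 136,
  .mul 42 3,
  .scale ⟨2199023255552, 0, 0, 0⟩ 0,
  .add 2 0,
  .scale ⟨4398046511104, 0, 0, 0⟩ 43,
  .sub 1 0,
  .inv 7,
  .mul 1 0,
  .add 0 9,
  .mul 50 37,
  .scale ⟨549755813888, 0, 0, 0⟩ 0,
  .mul 0 2,
  .sub 6 0,
  .pos 7,
  .pos 0,
  .mul 146 79,
  .scale ⟨2199023255552, 0, 0, 0⟩ 0,
  .scale ⟨183274307584, 0, 0, 0⟩ 0,
  .sub 145 0,
  .mul 2 0,
  .sub 154 0,
  .mul 85 0,
  .inv 7,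
  .mul 1 0,
  .mul 155 0,
  .add 0 152,
  .inv 0,
  .mul 3 0,
  .mul 159 0,
  .mul 55 0,
  .scale ⟨549755813888, 0, 0, 0⟩ 0,
  .sub 165 0,
  .sub 166 2,
  .inv 0,
  .mul 2 0,
  .add 5 169,
  .mul 75 0,
  .mul 65 2,
  .mul 174 10,
  .mul 1 0,
  .mul 10 5,
  .pos 8,
  .mul 153 152,
  .add 158 172,
  .mul 156 159,
  .mul 0 162,
  .scale ⟨2199023255552, 0, 0, 0⟩ 0,
  .add 134 0,
  .mul 4 0,
  .inv 0,
  .mul 7 0,
  .mul 180 0,
  .pos 97,
  .mul 58 70,
  .scale ⟨1527119872, 0, 0, 0⟩ 0,
  .sub 59 0,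
  .mul 2 0,
  .sub 182 0,
  .mul 4 0,
  .sub 191 0,
  .add 92 192,
  .mul 93 93,
  .add 0 194,
  .mul 95 3,
  .scale ⟨2199023255552, 0, 0, 0⟩ 0,
  .add 2 0,
  .scale ⟨4398046511104, 0, 0, 0⟩ 96,
  .sub 1 0,
  .inv 7,
  .mul 1 0,
  .add 0 9,
  .mul 103 18,
  .scale ⟨549755813888, 0, 0, 0⟩ 0,
  .mul 0 2,
  .sub 6 0,
  .pos 7,
  .pos 0,
  .mul 204 115,
  .scale ⟨2199023255552, 0, 0, 0⟩ 0,
  .scale ⟨183274307584, 0, 0, 0⟩ 0,
  .sub 203 0,
  .mul 2 0,
  .sub 212 0,
  .mul 121 0,
  .inv 7,
  .mul 1 0,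
  .mul 213 0,
  .add 0 210,
  .inv 0,
  .mul 3 0,
  .mul 217 0,
  .mul 36 0,
  .mul 224 2,
  .add 213 223,
  .inv 0,
  .mul 215 0,
  .scale ⟨2199023255552, 0, 0, 0⟩ 0,
  .sub 227 0,
  .sub 228 218,
  .mul 233 4,
  .mul 0 2,
  .add 208 0,
  .scale ⟨224412041216, 0, 0, 0⟩ 218,
  .inv 196,
  .mul 1 0,
  .scale ⟨4398046511104, 0, 0, 0⟩ 235,
  .mul 237 216,
  .add 1 0,
  .inv 0,
  .mul 240 0,
  .mul 240 1,
  .mul 0 218,
  .mul 0 7,
  .mul 3 220,
  .mul 0 9,
  .sub 245 0,
  .inv 0,
  .mul 76 2,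
  .sub 248 0,
  .inv 0,
  .mul 228 251,
  .mul 0 89,
  .inv 232,
  .mul 1 0,
  .scale ⟨549755813888, 0, 0, 0⟩ 0,
  .sub 255 0,
  .sub 256 2,
  .inv 0,
  .mul 2 0,
  .mul 86 0,
  .mul 6 1,
  .mul 0 256,
  .pos 5,
  .scale ⟨1374389534720, 0, 0, 0⟩ 0,
  .sub 256 0,
  .pos 0,
  .scale ⟨3092376453120, 0, 0, 0⟩ 2,
  .add 0 210,
  .mul 4 0,
  .add 267 0,
  .scale ⟨1546188226560, 0, 0, 0⟩ 6,
  .add 0 269,
  .mul 8 0,
  .add 271 0,
  .mul 262 252,
  .sub 273 163,
  .mul 264 253,
  .scale ⟨2199023255552, 0, 0, 0⟩ 0,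
  .sub 2 0,
  .mul 4 4,
  .add 1 0,
  .add 0 279,
  .scale ⟨549755813888, 0, 0, 0⟩ 0,
  .scale ⟨549755813888, 0, 0, 0⟩ 257,
  .sub 268 0,
  .mul 172 9,
  .mul 0 271,
  .scale ⟨137438953472, 0, 0, 0⟩ 0,
  .add 3 0,
  .mul 6 0,
  .add 117 288,
  .mul 0 42,
  .mul 119 40,
  .add 1 0,
  .mul 47 0,
  .add 118 0,
  .mul 0 289,
  .mul 6 50,
  .mul 0 49,
  .add 122 0,
  .mul 0 293,
  .scale ⟨223338299392, 0, 0, 0⟩ 0,
  .add 293 0,
  .mul 2 0,
  .add 302 0,
  .scale ⟨893353197568, 0, 0, 0⟩ 8,
  .add 304 0,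
  .mul 10 0,
  .add 306 0,
  .mul 80 77,
  .mul 0 40,
  .mul 0 2,
  .mul 22 7,
  .add 260 304,
  .mul 2 0,
  .add 2 0,
  .add 263 314,
  .mul 5 0,
  .mul 44 1,
  .mul 0 87,
  .mul 0 89,
  .mul 5 145,
  .mul 1 60,
  .add 1 0,
  .mul 324 90,
  .inv 272,
  .mul 1 0,
  .scale ⟨549755813888, 0, 0, 0⟩ 0,
  .mul 304 0,
  .add 0 5,
  .mul 324 0,
  .mul 329 0,
  .mul 16 41,
  .mul 0 84,
  .mul 16 161,
  .mul 0 83,
  .add 2 0,
  .mul 313 5,
  .mul 93 1,
  .add 1 0,
  .mul 227 0,
  .mul 0 15,
  .sub 340 0,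
  .inv 0,
  .mul 4 0,
  .mul 339 0,
  .mul 233 1,
  .mul 0 21,
  .sub 346 0,
  .mul 299 0,
  .sub 0 4,
  .inv 0,
  .mul 6 0,
  .sub 300 6,
  .inv 0,
  .mul 2 132,
  .scale ⟨549755813888, 0, 0, 0⟩ 0,
  .sub 355 0,
  .sub 356 2,
  .inv 0,
  .mul 2 0,
  .mul 361 6,
  .mul 137 10,
  .mul 0 2,
  .add 2 0,
  .mul 357 20,
  .mul 11 0,
  .mul 144 15,
  .mul 0 7,
  .mul 0 23,
  .add 3 0,
  .scale ⟨223338299392, 0, 0, 0⟩ 0,
  .add 363 0,
  .mul 2 0,
  .add 372 0,
  .mul 10 0,
  .mul 0 32,
  .mul 0 40,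
  .mul 132 354,
  .const ⟨7696581394432, 0, 0, 0⟩,
  .const ⟨10995116277760, 0, 0, 0⟩,
  .inv 0,
  .mul 2 0,
  .mul 157 358,
  .mul 0 1,
  .mul 206 278,
  .mul 363 0,
  .scale ⟨549755813888, 0, 0, 0⟩ 163,
  .sub 386 0,
  .sub 387 165,
  .inv 0,
  .mul 2 0,
  .mul 0 205,
  .mul 280 270,
  .scale ⟨733097230336, 0, 0, 0⟩ 0,
  .sub 393 0,
  .mul 273 0,
  .mul 307 307,
  .mul 385 0,
  .add 2 0,
  .mul 7 175,
  .add 1 399,
  .mul 1 0,
  .sub 3 0,
  .scale ⟨366548615168, 0, 0, 0⟩ 358,
  .sub 403 0,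
  .mul 379 0,
  .add 3 0,
  .mul 22 0,
  .mul 22 22,
  .add 408 0,
  .inv 0,
  .mul 3 0,
  .sub 411 60,
  .mul 0 1,
  .sub 413 14,
  .pos 0,
  .pos 3,
  .pos 2,
  .mul 39 176,
  .mul 0 87,
  .inv 393,
  .mul 1 0,
  .mul 415 5,
  .scale ⟨549755813888, 0, 0, 0⟩ 0,
  .sub 420 0,
  .mul 8 0,
  .neg 0,
  .mul 425 427,
  .mul 0 200,
  .mul 0 411,
  .mul 424 0,
  .add 4 0,
  .mul 5 1,
  .mul 426 0,
  .add 2 0,
  .mul 420 390,
  .scale ⟨412316860416, 0, 0, 0⟩ 390,
  .sub 426 0,
  .mul 2 0,
  .mul 433 0,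
  .neg 0,
  .add 6 0,
  .mul 7 1,
  .mul 436 0,
  .add 2 0,
  .mul 443 98,
  .mul 0 25,
  .mul 441 0,
  .add 3 0,
  .mul 4 1,
  .mul 443 0,
  .add 2 0,
  .mul 446 65,
  .sub 1 0,
  .mul 446 67,
  .add 451 0,
  .inv 0,
  .mul 3 0,
  .mul 456 446,
  .mul 0 112,
  .mul 0 103,
  .mul 455 0,
  .add 4 0,
  .mul 5 1,
  .mul 457 0,
  .add 2 0,
  .mul 459 0,
  .add 463 0,
  .mul 88 219,
  .mul 461 88,
  .mul 48 0,
  .add 2 0,
  .mul 466 0,
  .add 93 51,
  .mul 468 0,
  .mul 2 7,
  .add 10 0,
  .add 0 2,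
  .neg 0,
  .scale ⟨1073741824, 0, 0, 0⟩ 473,
  .sub 1 0,
  .sub 458 477,
  .add 0 423,
  .scale ⟨2199023255552, 0, 0, 0⟩ 98,
  .sub 1 0,
  .mul 257 0,
  .mul 4 2,
  .add 0 483,
  .inv 0,
  .mul 3 0,
  .mul 245 151,
  .scale ⟨549755813888, 0, 0, 0⟩ 252,
  .add 472 0,
  .mul 2 0,
  .scale ⟨2199023255552, 0, 0, 0⟩ 0,
  .add 161 0,
  .scale ⟨2199023255552, 0, 0, 0⟩ 0,
  .mul 0 151,
  .mul 486 151,
  .sub 472 0,
  .inv 0,
  .mul 3 0,
  .sub 12 0,
  .mul 262 262,
  .const ⟨14293651161088, 0, 0, 0⟩,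
  .mul 0 121,
  .mul 2 0,
  .mul 503 503,
  .scale ⟨27487790694400, 0, 0, 0⟩ 0,
  .add 2 0,
  .mul 123 53,
  .sub 468 503,
  .sub 0 470,
  .mul 506 509,
  .mul 487 175,
  .mul 0 272,
  .add 190 0,
  .add 18 458,
  .mul 515 0,
  .mul 9 8,
  .mul 174 1,
  .mul 7 4,
  .mul 1 0,
  .sub 3 0,
  .scale ⟨549755813888, 0, 0, 0⟩ 25,
  .add 521 0,
  .mul 180 0,
  .mul 519 501,
  .mul 0 292,
  .mul 502 474,
  .inv 0,
  .mul 2 0,
  .mul 5 0,
  .sub 20 0,
  .mul 295 10,
  .sub 531 296,
  .mul 521 2,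
  .mul 1 0,
  .mul 28 0,
  .add 4 0,
  .pos 290,
  .pos 287,
  .scale ⟨2199023255552, 0, 0, 0⟩ 197,
  .sub 486 0,
  .pos 0,
  .pos 189,
  .sub 531 316,
  .pos 0,
  .scale ⟨687194767360, 0, 0, 0⟩ 539,
  .sub 0 241,
  .pos 0,
  .scale ⟨377957122048, 0, 0, 0⟩ 541,
  .sub 0 247,
  .pos 0,
  .pos 47,
  .pos 186,
  .sub 3 174,
  .pos 0,
  .pos 45,
  .pos 67,
  .pos 8,
  .pos 14]

def chk0 {α : Type} (cst : Z → α) (add sub mul : α → α → α) (scale : Z → α → α)
    (neg inv exp log : α → α) (ok : α → Bool) (isPos : Nat → α → Bool) (isLt : α → Nat → Bool) :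
    List α → Bool
  | [x0, x1, x2, x3] =>
  let v0 := cst ⟨1099511627776, 0, 0, 0⟩; ok v0 && (
  let v1 := mul x1 x2; ok v1 && (
  let v2 := mul x2 x2; ok v2 && (
  let v3 := mul x0 x1; ok v3 && (
  let v4 := mul v3 v2; ok v4 && (
  let v5 := mul v1 v1; ok v5 && (
  let v6 := mul v4 v3; ok v6 && (
  let v7 := cst ⟨549755813888, 0, 0, 0⟩; ok v7 && (
  let v8 := mul v4 x1; ok v8 && (
  let v9 := mul v8 x3; ok v9 && (
  let v10 := scale ⟨549755813888, 0, 0, 0⟩ v9; ok v10 && (
  let v11 := mul x1 x1; ok v11 && (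
  let v12 := mul v10 v10; ok v12 && (
  let v13 := sub v0 v12; ok v13 && (
  let v14 := inv v13; ok v14 && (
  let v15 := mul v10 v14; ok v15 && (
  let v16 := scale ⟨2199023255552, 0, 0, 0⟩ v15; ok v16 && (
  let v17 := scale ⟨2199023255552, 0, 0, 0⟩ v14; ok v17 && (
  let v18 := sub v17 v0; ok v18 && (
  let v19 := add v18 v16; ok v19 && (
  let v20 := mul x3 v14; ok v20 && (
  let v21 := mul x1 v20; ok v21 && (
  let v22 := sub v0 v21; ok v22 && (
  let v23 := add v0 v21; ok v23 && (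
  let v24 := mul v4 v11; ok v24 && (
  let v25 := mul v20 v20; ok v25 && (
  let v26 := scale ⟨10774999203840, 0, 0, 0⟩ v10; ok v26 && (
  let v27 := scale ⟨45768245248, 0, 0, 0⟩ v26; ok v27 && (
  let v28 := cst ⟨183207198720, 0, 0, 0⟩; ok v28 && (
  let v29 := add v27 v28; ok v29 && (
  let v30 := mul v26 v29; ok v30 && (
  let v31 := add v7 v30; ok v31 && (
  let v32 := mul v26 v31; ok v32 && (
  let v33 := add v0 v32; ok v33 && (
  let v34 := mul v26 v33; ok v34 && (
  let v35 := scale ⟨549755813888, 0, 0, 0⟩ v34; ok v35 && (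
  let v36 := add v0 v35; ok v36 && (
  let v37 := mul v33 v36; ok v37 && (
  let v38 := mul v16 v21; ok v38 && (
  let v39 := scale ⟨2199023255552, 0, 0, 0⟩ v18; ok v39 && (
  let v40 := add v38 v39; ok v40 && (
  let v41 := add v40 v4; ok v41 && (
  let v42 := mul v24 v41; ok v42 && (
  let v43 := add v42 v0; ok v43 && (
  let v44 := mul v16 v16; ok v44 && (
  let v45 := scale ⟨2199023255552, 0, 0, 0⟩ v44; ok v45 && (
  let v46 := add v45 v0; ok v46 && (
  let v47 := mul v18 v41; ok v47 && (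
  let v48 := sub v47 v0; ok v48 && (
  let v49 := log v43; ok v49 && (
  let v50 := scale ⟨549755813888, 0, 0, 0⟩ v49; ok v50 && (
  let v51 := exp v50; ok v51 && (
  let v52 := cst ⟨3298534883328, 0, 0, 0⟩; ok v52 && (
  let v53 := inv v52; ok v53 && (
  let v54 := mul v0 v53; ok v54 && (
  let v55 := cst ⟨2199023255552, 0, 0, 0⟩; ok v55 && (
  let v56 := add v42 v55; ok v56 && (
  let v57 := inv v56; ok v57 && (
  let v58 := mul v42 v57; ok v58 && (
  let v59 := mul v58 v58; ok v59 && (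
  let v60 := sub v0 v58; ok v60 && (
  let v61 := mul v59 v54; ok v61 && (
  let v62 := add v0 v61; ok v62 && (
  let v63 := mul v60 v62; ok v63 && (
  let v64 := mul v59 v59; ok v64 && (
  let v65 := scale ⟨219915747328, 0, 0, 0⟩ v64; ok v65 && (
  let v66 := mul v41 v63; ok v66 && (
  let v67 := scale ⟨549755813888, 0, 0, 0⟩ v66; ok v67 && (
  let v68 := mul v41 v65; ok v68 && (
  let v69 := scale ⟨549755813888, 0, 0, 0⟩ v68; ok v69 && (
  let v70 := add v67 v69; ok v70 && (
  let v71 := mul v18 v48; ok v71 && (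
  let v72 := scale ⟨4398046511104, 0, 0, 0⟩ v71; ok v72 && (
  let v73 := mul v18 v24; ok v73 && (
  let v74 := mul v73 v48; ok v74 && (
  let v75 := scale ⟨4398046511104, 0, 0, 0⟩ v74; ok v75 && (
  let v76 := add v75 v55; ok v76 && (
  let v77 := inv v76; ok v77 && (
  let v78 := mul v75 v77; ok v78 && (
  let v79 := mul v78 v78; ok v79 && (
  let v80 := sub v0 v78; ok v80 && (
  let v81 := mul v79 v54; ok v81 && (
  let v82 := add v0 v81; ok v82 && (
  let v83 := mul v80 v82; ok v83 && (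
  let v84 := mul v79 v79; ok v84 && (
  let v85 := scale ⟨219915747328, 0, 0, 0⟩ v84; ok v85 && (
  let v86 := mul v72 v83; ok v86 && (
  let v87 := scale ⟨549755813888, 0, 0, 0⟩ v86; ok v87 && (
  let v88 := sub v87 v70; ok v88 && (
  let v89 := mul v72 v85; ok v89 && (
  let v90 := scale ⟨549755813888, 0, 0, 0⟩ v89; ok v90 && (
  let v91 := add v90 v69; ok v91 && (
  let v92 := add v88 v91; ok v92 && (
  let v93 := mul v3 v67; ok v93 && (
  let v94 := neg v93; ok v94 && (
  let v95 := exp v94; ok v95 && (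
  let v96 := mul v3 v69; ok v96 && (
  let v97 := mul v95 v96; ok v97 && (
  let v98 := mul v3 v88; ok v98 && (
  let v99 := neg v98; ok v99 && (
  let v100 := exp v99; ok v100 && (
  let v101 := mul v3 v91; ok v101 && (
  let v102 := mul v100 v101; ok v102 && (
  let v103 := mul v21 v16; ok v103 && (
  let v104 := add v18 v103; ok v104 && (
  let v105 := inv v104; ok v105 && (
  let v106 := mul v23 v105; ok v106 && (
  let v107 := mul v22 v4; ok v107 && (
  let v108 := mul v107 v106; ok v108 && (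
  let v109 := sub v0 v11; ok v109 && (
  let v110 := mul v25 v109; ok v110 && (
  let v111 := mul v8 v8; ok v111 && (
  let v112 := sub v0 v25; ok v112 && (
  let v113 := mul v109 v112; ok v113 && (
  let v114 := mul v24 v48; ok v114 && (
  let v115 := inv v43; ok v115 && (
  let v116 := mul v114 v115; ok v116 && (
  let v117 := add v18 v116; ok v117 && (
  let v118 := mul v43 v117; ok v118 && (
  let v119 := mul v118 v118; ok v119 && (
  let v120 := inv v119; ok v120 && (
  let v121 := mul v113 v120; ok v121 && (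
  let v122 := add v18 v24; ok v122 && (
  let v123 := mul v0 v122; ok v123 && (
  let v124 := inv v123; ok v124 && (
  let v125 := mul x0 v124; ok v125 && (
  let v126 := mul v125 v125; ok v126 && (
  let v127 := mul v126 v113; ok v127 && (
  let v128 := cst ⟨45812285440, 0, 0, 0⟩; ok v128 && (
  let v129 := scale ⟨1527119872, 0, 0, 0⟩ v127; ok v129 && (
  let v130 := sub v128 v129; ok v130 && (
  let v131 := mul v127 v130; ok v131 && (
  let v132 := sub v7 v131; ok v132 && (
  let v133 := mul v127 v132; ok v133 && (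
  let v134 := sub v0 v133; ok v134 && (
  let v135 := add v95 v0; ok v135 && (
  let v136 := mul v95 v95; ok v136 && (
  let v137 := add v136 v0; ok v137 && (
  let v138 := mul v95 v134; ok v138 && (
  let v139 := scale ⟨2199023255552, 0, 0, 0⟩ v138; ok v139 && (
  let v140 := add v137 v139; ok v140 && (
  let v141 := scale ⟨4398046511104, 0, 0, 0⟩ v97; ok v141 && (
  let v142 := sub v140 v141; ok v142 && (
  let v143 := inv v135; ok v143 && (
  let v144 := mul v142 v143; ok v144 && (
  let v145 := add v144 v135; ok v145 && (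
  let v146 := mul v95 v108; ok v146 && (
  let v147 := scale ⟨549755813888, 0, 0, 0⟩ v146; ok v147 && (
  let v148 := mul v147 v145; ok v148 && (
  let v149 := sub v142 v148; ok v149 && (
  isPos 4 v142 && (
  isPos 4 v149 && (
  let v150 := mul v3 v70; ok v150 && (
  let v151 := scale ⟨2199023255552, 0, 0, 0⟩ v150; ok v151 && (
  let v152 := scale ⟨183274307584, 0, 0, 0⟩ v151; ok v152 && (
  let v153 := sub v7 v152; ok v153 && (
  let v154 := mul v151 v153; ok v154 && (
  let v155 := sub v0 v154; ok v155 && (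
  let v156 := mul v70 v155; ok v156 && (
  let v157 := inv v149; ok v157 && (
  let v158 := mul v156 v157; ok v158 && (
  let v159 := mul v3 v158; ok v159 && (
  let v160 := add v159 v7; ok v160 && (
  let v161 := inv v160; ok v161 && (
  let v162 := mul v158 v161; ok v162 && (
  let v163 := mul v3 v162; ok v163 && (
  let v164 := mul v108 v163; ok v164 && (
  let v165 := scale ⟨549755813888, 0, 0, 0⟩ v164; ok v165 && (
  let v166 := sub v0 v165; ok v166 && (
  let v167 := sub v0 v164; ok v167 && (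
  let v168 := inv v167; ok v168 && (
  let v169 := mul v166 v168; ok v169 && (
  let v170 := add v164 v0; ok v170 && (
  let v171 := mul v95 v170; ok v171 && (
  let v172 := mul v106 v169; ok v172 && (
  let v173 := mul x1 v162; ok v173 && (
  let v174 := mul v172 v173; ok v174 && (
  let v175 := mul v164 v169; ok v175 && (
  isPos 4 v167 && (
  let v176 := mul v22 v23; ok v176 && (
  let v177 := add v18 v4; ok v177 && (
  let v178 := mul v21 v18; ok v178 && (
  let v179 := mul v178 v16; ok v179 && (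
  let v180 := scale ⟨2199023255552, 0, 0, 0⟩ v179; ok v180 && (
  let v181 := add v46 v180; ok v181 && (
  let v182 := mul v177 v181; ok v182 && (
  let v183 := inv v182; ok v183 && (
  let v184 := mul v176 v183; ok v184 && (
  let v185 := mul v4 v184; ok v185 && (
  isPos 4 v88 && (
  let v186 := mul v127 v115; ok v186 && (
  let v187 := scale ⟨1527119872, 0, 0, 0⟩ v186; ok v187 && (
  let v188 := sub v128 v187; ok v188 && (
  let v189 := mul v186 v188; ok v189 && (
  let v190 := sub v7 v189; ok v190 && (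
  let v191 := mul v186 v190; ok v191 && (
  let v192 := sub v0 v191; ok v192 && (
  let v193 := add v100 v0; ok v193 && (
  let v194 := mul v100 v100; ok v194 && (
  let v195 := add v194 v0; ok v195 && (
  let v196 := mul v100 v192; ok v196 && (
  let v197 := scale ⟨2199023255552, 0, 0, 0⟩ v196; ok v197 && (
  let v198 := add v195 v197; ok v198 && (
  let v199 := scale ⟨4398046511104, 0, 0, 0⟩ v102; ok v199 && (
  let v200 := sub v198 v199; ok v200 && (
  let v201 := inv v193; ok v201 && (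
  let v202 := mul v200 v201; ok v202 && (
  let v203 := add v202 v193; ok v203 && (
  let v204 := mul v100 v185; ok v204 && (
  let v205 := scale ⟨549755813888, 0, 0, 0⟩ v204; ok v205 && (
  let v206 := mul v205 v203; ok v206 && (
  let v207 := sub v200 v206; ok v207 && (
  isPos 4 v200 && (
  isPos 4 v207 && (
  let v208 := mul v3 v92; ok v208 && (
  let v209 := scale ⟨2199023255552, 0, 0, 0⟩ v208; ok v209 && (
  let v210 := scale ⟨183274307584, 0, 0, 0⟩ v209; ok v210 && (
  let v211 := sub v7 v210; ok v211 && (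
  let v212 := mul v209 v211; ok v212 && (
  let v213 := sub v0 v212; ok v213 && (
  let v214 := mul v92 v213; ok v214 && (
  let v215 := inv v207; ok v215 && (
  let v216 := mul v214 v215; ok v216 && (
  let v217 := mul v3 v216; ok v217 && (
  let v218 := add v217 v7; ok v218 && (
  let v219 := inv v218; ok v219 && (
  let v220 := mul v216 v219; ok v220 && (
  let v221 := mul v3 v220; ok v221 && (
  let v222 := mul v185 v221; ok v222 && (
  let v223 := mul x1 v220; ok v223 && (
  let v224 := add v10 v0; ok v224 && (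
  let v225 := inv v224; ok v225 && (
  let v226 := mul v10 v225; ok v226 && (
  let v227 := scale ⟨2199023255552, 0, 0, 0⟩ v226; ok v227 && (
  let v228 := sub v0 v227; ok v228 && (
  let v229 := sub v0 v10; ok v229 && (
  let v230 := mul x3 v225; ok v230 && (
  let v231 := mul v230 v228; ok v231 && (
  let v232 := add v23 v231; ok v232 && (
  let v233 := scale ⟨224412041216, 0, 0, 0⟩ v14; ok v233 && (
  let v234 := inv v37; ok v234 && (
  let v235 := mul v233 v234; ok v235 && (
  let v236 := scale ⟨4398046511104, 0, 0, 0⟩ v0; ok v236 && (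
  let v237 := mul x0 v20; ok v237 && (
  let v238 := add v236 v237; ok v238 && (
  let v239 := inv v238; ok v239 && (
  let v240 := mul x0 v239; ok v240 && (
  let v241 := mul v0 v239; ok v241 && (
  let v242 := mul v241 v23; ok v242 && (
  let v243 := mul v242 v235; ok v243 && (
  let v244 := mul v240 v23; ok v244 && (
  let v245 := mul v244 v235; ok v245 && (
  let v246 := sub v0 v245; ok v246 && (
  let v247 := inv v246; ok v247 && (
  let v248 := mul v171 v245; ok v248 && (
  let v249 := sub v0 v248; ok v249 && (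
  let v250 := inv v249; ok v250 && (
  let v251 := mul v22 x0; ok v251 && (
  let v252 := mul v251 v162; ok v252 && (
  let v253 := inv v20; ok v253 && (
  let v254 := mul v252 v253; ok v254 && (
  let v255 := scale ⟨549755813888, 0, 0, 0⟩ v254; ok v255 && (
  let v256 := sub v0 v255; ok v256 && (
  let v257 := sub v0 v254; ok v257 && (
  let v258 := inv v257; ok v258 && (
  let v259 := mul v256 v258; ok v259 && (
  let v260 := mul v173 v259; ok v260 && (
  let v261 := mul v254 v259; ok v261 && (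
  let v262 := mul v261 v5; ok v262 && (
  isPos 4 v257 && (
  let v263 := scale ⟨1374389534720, 0, 0, 0⟩ v262; ok v263 && (
  let v264 := sub v7 v263; ok v264 && (
  isPos 4 v264 && (
  let v265 := scale ⟨3092376453120, 0, 0, 0⟩ v262; ok v265 && (
  let v266 := add v265 v55; ok v266 && (
  let v267 := mul v262 v266; ok v267 && (
  let v268 := add v0 v267; ok v268 && (
  let v269 := scale ⟨1546188226560, 0, 0, 0⟩ v262; ok v269 && (
  let v270 := add v269 v0; ok v270 && (
  let v271 := mul v262 v270; ok v271 && (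
  let v272 := add v0 v271; ok v272 && (
  let v273 := mul v10 v20; ok v273 && (
  let v274 := sub v0 v110; ok v274 && (
  let v275 := mul v10 v21; ok v275 && (
  let v276 := scale ⟨2199023255552, 0, 0, 0⟩ v275; ok v276 && (
  let v277 := sub v274 v276; ok v277 && (
  let v278 := mul v273 v273; ok v278 && (
  let v279 := add v277 v278; ok v279 && (
  let v280 := add v279 v0; ok v280 && (
  let v281 := scale ⟨549755813888, 0, 0, 0⟩ v280; ok v281 && (
  let v282 := scale ⟨549755813888, 0, 0, 0⟩ v24; ok v282 && (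
  let v283 := sub v14 v282; ok v283 && (
  let v284 := mul v111 v274; ok v284 && (
  let v285 := mul v284 v13; ok v285 && (
  let v286 := scale ⟨137438953472, 0, 0, 0⟩ v285; ok v286 && (
  let v287 := add v283 v286; ok v287 && (
  let v288 := mul v281 v287; ok v288 && (
  let v289 := add v171 v0; ok v289 && (
  let v290 := mul v289 v247; ok v290 && (
  let v291 := mul v171 v250; ok v291 && (
  let v292 := add v290 v291; ok v292 && (
  let v293 := mul v245 v292; ok v293 && (
  let v294 := add v175 v293; ok v294 && (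
  let v295 := mul v294 v5; ok v295 && (
  let v296 := mul v289 v245; ok v296 && (
  let v297 := mul v296 v247; ok v297 && (
  let v298 := add v175 v297; ok v298 && (
  let v299 := mul v298 v5; ok v299 && (
  let v300 := scale ⟨223338299392, 0, 0, 0⟩ v299; ok v300 && (
  let v301 := add v7 v300; ok v301 && (
  let v302 := mul v299 v301; ok v302 && (
  let v303 := add v0 v302; ok v303 && (
  let v304 := scale ⟨893353197568, 0, 0, 0⟩ v295; ok v304 && (
  let v305 := add v0 v304; ok v305 && (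
  let v306 := mul v295 v305; ok v306 && (
  let v307 := add v0 v306; ok v307 && (
  let v308 := mul v227 v230; ok v308 && (
  let v309 := mul v308 v268; ok v309 && (
  let v310 := mul v309 v307; ok v310 && (
  let v311 := mul v288 v303; ok v311 && (
  let v312 := add v51 v7; ok v312 && (
  let v313 := mul v310 v312; ok v313 && (
  let v314 := add v311 v313; ok v314 && (
  let v315 := add v51 v0; ok v315 && (
  let v316 := mul v310 v315; ok v316 && (
  let v317 := mul v272 v315; ok v317 && (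
  let v318 := mul v317 v230; ok v318 && (
  let v319 := mul v318 v229; ok v319 && (
  let v320 := mul v314 v174; ok v320 && (
  let v321 := mul v319 v260; ok v321 && (
  let v322 := add v320 v321; ok v322 && (
  let v323 := mul x1 v232; ok v323 && (
  let v324 := inv v51; ok v324 && (
  let v325 := mul v323 v324; ok v325 && (
  let v326 := scale ⟨549755813888, 0, 0, 0⟩ v325; ok v326 && (
  let v327 := mul v22 v326; ok v327 && (
  let v328 := add v327 v322; ok v328 && (
  let v329 := mul v4 v328; ok v329 && (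
  let v330 := mul v0 v329; ok v330 && (
  let v331 := mul v314 v289; ok v331 && (
  let v332 := mul v331 v247; ok v332 && (
  let v333 := mul v316 v171; ok v333 && (
  let v334 := mul v333 v250; ok v334 && (
  let v335 := add v332 v334; ok v335 && (
  let v336 := mul v22 v330; ok v336 && (
  let v337 := mul v243 v335; ok v337 && (
  let v338 := add v336 v337; ok v338 && (
  let v339 := mul v111 v338; ok v339 && (
  let v340 := mul v339 v324; ok v340 && (
  let v341 := sub v0 v340; ok v341 && (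
  let v342 := inv v341; ok v342 && (
  let v343 := mul v338 v342; ok v343 && (
  let v344 := mul v4 v343; ok v344 && (
  let v345 := mul v111 v343; ok v345 && (
  let v346 := mul v345 v324; ok v346 && (
  let v347 := sub v0 v346; ok v347 && (
  let v348 := mul v48 v347; ok v348 && (
  let v349 := sub v348 v344; ok v349 && (
  let v350 := inv v349; ok v350 && (
  let v351 := mul v344 v350; ok v351 && (
  let v352 := sub v51 v345; ok v352 && (
  let v353 := inv v352; ok v353 && (
  let v354 := mul v351 v221; ok v354 && (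
  let v355 := scale ⟨549755813888, 0, 0, 0⟩ v354; ok v355 && (
  let v356 := sub v0 v355; ok v356 && (
  let v357 := sub v0 v354; ok v357 && (
  let v358 := inv v357; ok v358 && (
  let v359 := mul v356 v358; ok v359 && (
  let v360 := mul x1 v353; ok v360 && (
  let v361 := mul v223 v350; ok v361 && (
  let v362 := mul v361 v359; ok v362 && (
  let v363 := add v360 v362; ok v363 && (
  let v364 := mul v6 v343; ok v364 && (
  let v365 := mul v353 v364; ok v365 && (
  let v366 := mul v221 v350; ok v366 && (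
  let v367 := mul v366 v359; ok v367 && (
  let v368 := mul v367 v344; ok v368 && (
  let v369 := add v365 v368; ok v369 && (
  let v370 := scale ⟨223338299392, 0, 0, 0⟩ v369; ok v370 && (
  let v371 := add v7 v370; ok v371 && (
  let v372 := mul v369 v371; ok v372 && (
  let v373 := add v0 v372; ok v373 && (
  let v374 := mul v363 v373; ok v374 && (
  let v375 := mul v374 v342; ok v375 && (
  let v376 := mul v375 v335; ok v376 && (
  let v377 := mul v244 v22; ok v377 && (
  let v378 := cst ⟨7696581394432, 0, 0, 0⟩; ok v378 && (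
  let v379 := cst ⟨10995116277760, 0, 0, 0⟩; ok v379 && (
  let v380 := inv v379; ok v380 && (
  let v381 := mul v378 v380; ok v381 && (
  let v382 := mul v224 v23; ok v382 && (
  let v383 := mul v382 v381; ok v383 && (
  let v384 := mul v177 v105; ok v384 && (
  let v385 := mul v21 v384; ok v385 && (
  let v386 := scale ⟨549755813888, 0, 0, 0⟩ v222; ok v386 && (
  let v387 := sub v0 v386; ok v387 && (
  let v388 := sub v0 v222; ok v388 && (
  let v389 := inv v388; ok v389 && (
  let v390 := mul v387 v389; ok v390 && (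
  let v391 := mul v390 v185; ok v391 && (
  let v392 := mul v111 v121; ok v392 && (
  let v393 := scale ⟨733097230336, 0, 0, 0⟩ v392; ok v393 && (
  let v394 := sub v0 v393; ok v394 && (
  let v395 := mul v121 v394; ok v395 && (
  let v396 := mul v88 v88; ok v396 && (
  let v397 := mul v11 v396; ok v397 && (
  let v398 := add v395 v397; ok v398 && (
  let v399 := mul v391 v223; ok v399 && (
  let v400 := add v398 v0; ok v400 && (
  let v401 := mul v399 v400; ok v401 && (
  let v402 := sub v398 v401; ok v402 && (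
  let v403 := scale ⟨366548615168, 0, 0, 0⟩ v44; ok v403 && (
  let v404 := sub v0 v403; ok v404 && (
  let v405 := mul v25 v404; ok v405 && (
  let v406 := add v402 v405; ok v406 && (
  let v407 := mul v384 v406; ok v407 && (
  let v408 := mul v385 v385; ok v408 && (
  let v409 := add v0 v408; ok v409 && (
  let v410 := inv v409; ok v410 && (
  let v411 := mul v407 v410; ok v411 && (
  let v412 := sub v0 v351; ok v412 && (
  let v413 := mul v412 v411; ok v413 && (
  let v414 := sub v0 v399; ok v414 && (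
  isPos 4 v414 && (
  isPos 4 v411 && (
  isPos 4 v412 && (
  let v415 := mul v375 v238; ok v415 && (
  let v416 := mul v415 v328; ok v416 && (
  let v417 := inv v23; ok v417 && (
  let v418 := mul v416 v417; ok v418 && (
  let v419 := mul v3 v413; ok v419 && (
  let v420 := scale ⟨549755813888, 0, 0, 0⟩ v419; ok v420 && (
  let v421 := sub v0 v420; ok v421 && (
  let v422 := mul v413 v421; ok v422 && (
  let v423 := neg v422; ok v423 && (
  let v424 := mul x1 x3; ok v424 && (
  let v425 := mul v424 v224; ok v425 && (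
  let v426 := mul v425 v14; ok v426 && (
  let v427 := mul v2 v426; ok v427 && (
  let v428 := add v423 v427; ok v428 && (
  let v429 := mul v423 v427; ok v429 && (
  let v430 := mul v3 v429; ok v430 && (
  let v431 := add v428 v430; ok v431 && (
  let v432 := mul v11 v41; ok v432 && (
  let v433 := scale ⟨412316860416, 0, 0, 0⟩ v42; ok v433 && (
  let v434 := sub v7 v433; ok v434 && (
  let v435 := mul v432 v434; ok v435 && (
  let v436 := mul v2 v435; ok v436 && (
  let v437 := neg v436; ok v437 && (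
  let v438 := add v431 v437; ok v438 && (
  let v439 := mul v431 v437; ok v439 && (
  let v440 := mul v3 v439; ok v440 && (
  let v441 := add v438 v440; ok v441 && (
  let v442 := mul x1 v343; ok v442 && (
  let v443 := mul v442 v417; ok v443 && (
  let v444 := mul v2 v443; ok v444 && (
  let v445 := add v441 v444; ok v445 && (
  let v446 := mul v441 v444; ok v446 && (
  let v447 := mul v3 v446; ok v447 && (
  let v448 := add v445 v447; ok v448 && (
  let v449 := mul v2 v383; ok v449 && (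
  let v450 := sub v448 v449; ok v450 && (
  let v451 := mul v4 v383; ok v451 && (
  let v452 := add v0 v451; ok v452 && (
  let v453 := inv v452; ok v453 && (
  let v454 := mul v450 v453; ok v454 && (
  let v455 := mul x1 v8; ok v455 && (
  let v456 := mul v455 v343; ok v456 && (
  let v457 := mul v456 v353; ok v457 && (
  let v458 := mul v2 v457; ok v458 && (
  let v459 := add v454 v458; ok v459 && (
  let v460 := mul v454 v458; ok v460 && (
  let v461 := mul v3 v460; ok v461 && (
  let v462 := add v459 v461; ok v462 && (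
  let v463 := mul v3 v462; ok v463 && (
  let v464 := add v0 v463; ok v464 && (
  let v465 := mul v376 v245; ok v465 && (
  let v466 := mul v4 v377; ok v466 && (
  let v467 := mul v418 v466; ok v467 && (
  let v468 := add v465 v467; ok v468 && (
  let v469 := mul v2 v468; ok v469 && (
  let v470 := add v376 v418; ok v470 && (
  let v471 := mul v2 v470; ok v471 && (
  let v472 := mul v469 v464; ok v472 && (
  let v473 := add v462 v472; ok v473 && (
  let v474 := add v473 v471; ok v474 && (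
  let v475 := neg v474; ok v475 && (
  let v476 := scale ⟨1073741824, 0, 0, 0⟩ v2; ok v476 && (
  let v477 := sub v475 v476; ok v477 && (
  let v478 := sub v19 v0; ok v478 && (
  let v479 := add v478 v55; ok v479 && (
  let v480 := scale ⟨2199023255552, 0, 0, 0⟩ v381; ok v480 && (
  let v481 := sub v479 v480; ok v481 && (
  let v482 := mul v224 v481; ok v482 && (
  let v483 := mul v478 v480; ok v483 && (
  let v484 := add v483 v0; ok v484 && (
  let v485 := inv v484; ok v485 && (
  let v486 := mul v482 v485; ok v486 && (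
  let v487 := mul v241 v335; ok v487 && (
  let v488 := scale ⟨549755813888, 0, 0, 0⟩ v235; ok v488 && (
  let v489 := add v16 v488; ok v489 && (
  let v490 := mul v487 v489; ok v490 && (
  let v491 := scale ⟨2199023255552, 0, 0, 0⟩ v490; ok v491 && (
  let v492 := add v330 v491; ok v492 && (
  let v493 := scale ⟨2199023255552, 0, 0, 0⟩ v492; ok v493 && (
  let v494 := mul v493 v342; ok v494 && (
  let v495 := mul v8 v343; ok v495 && (
  let v496 := sub v23 v495; ok v496 && (
  let v497 := inv v496; ok v497 && (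
  let v498 := mul v494 v497; ok v498 && (
  let v499 := sub v486 v498; ok v499 && (
  let v500 := mul v237 v237; ok v500 && (
  let v501 := cst ⟨14293651161088, 0, 0, 0⟩; ok v501 && (
  let v502 := mul v501 v380; ok v502 && (
  let v503 := mul v500 v502; ok v503 && (
  let v504 := mul v0 v0; ok v504 && (
  let v505 := scale ⟨27487790694400, 0, 0, 0⟩ v504; ok v505 && (
  let v506 := add v503 v505; ok v506 && (
  let v507 := mul v383 v453; ok v507 && (
  let v508 := sub v39 v4; ok v508 && (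
  let v509 := sub v508 v38; ok v509 && (
  let v510 := mul v3 v0; ok v510 && (
  let v511 := mul v23 v335; ok v511 && (
  let v512 := mul v511 v239; ok v512 && (
  let v513 := add v322 v512; ok v513 && (
  let v514 := add v495 v55; ok v514 && (
  let v515 := mul x0 v514; ok v515 && (
  let v516 := mul v506 v507; ok v516 && (
  let v517 := mul v342 v515; ok v517 && (
  let v518 := mul v510 v513; ok v518 && (
  let v519 := mul v517 v518; ok v519 && (
  let v520 := sub v516 v519; ok v520 && (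
  let v521 := scale ⟨549755813888, 0, 0, 0⟩ v495; ok v521 && (
  let v522 := add v0 v521; ok v522 && (
  let v523 := mul v342 v522; ok v523 && (
  let v524 := mul v4 v22; ok v524 && (
  let v525 := mul v524 v232; ok v525 && (
  let v526 := mul v23 v51; ok v526 && (
  let v527 := inv v526; ok v527 && (
  let v528 := mul v525 v527; ok v528 && (
  let v529 := mul v523 v528; ok v529 && (
  let v530 := sub v509 v529; ok v530 && (
  let v531 := mul v235 v520; ok v531 && (
  let v532 := sub v0 v235; ok v532 && (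
  let v533 := mul v11 v530; ok v533 && (
  let v534 := mul v532 v533; ok v534 && (
  let v535 := mul v506 v534; ok v535 && (
  let v536 := add v531 v535; ok v536 && (
  isPos 4 v246 && (
  isPos 4 v249 && (
  let v537 := scale ⟨2199023255552, 0, 0, 0⟩ v339; ok v537 && (
  let v538 := sub v51 v537; ok v538 && (
  isPos 4 v538 && (
  isPos 4 v349 && (
  let v539 := sub v7 v222; ok v539 && (
  isPos 4 v539 && (
  let v540 := scale ⟨687194767360, 0, 0, 0⟩ v0; ok v540 && (
  let v541 := sub v540 v299; ok v541 && (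
  isPos 4 v541 && (
  let v542 := scale ⟨377957122048, 0, 0, 0⟩ v0; ok v542 && (
  let v543 := sub v542 v295; ok v543 && (
  isPos 4 v543 && (
  isPos 4 v496 && (
  isPos 4 v357 && (
  let v544 := sub v540 v369; ok v544 && (
  isPos 4 v544 && (
  isPos 4 v499 && (
  isPos 4 v477 && (
  isPos 4 v536 && (
  isPos 4 v530 && (
  true))))))))))))))))))))))))))))))))))))))))))))))))))))))))))))))))))))))))))))))))))))))))))))))))))))))))))))))))))))))))))))))))))))))))))))))))))))))))))))))))))))))))))))))))))))))))))))))))))))))))))))))))))))))))))))))))))))))))))))))))))))))))))))))))))))))))))))))))))))))))))))))))))))))))))))))))))))))))))))))))))))))))))))))))))))))))))))))))))))))))))))))))))))))))))))))))))))))))))))))))))))))))))))))))))))))))))))))))))))))))))))))))))))))))))))))))))))))))))))))))))))))))))))))))))))))))))))))))))))))))))))))))))))))))))))))))))))))))))))))))))))))))))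
  | _ => false

set_option maxRecDepth 1000000 in
theorem chk0_eq (O : Ops) (m : List O.α)
    (h : chk0 O.cst O.add O.sub O.mul O.scale O.neg O.inv O.exp O.log O.ok O.isPos O.isLt m = true) :
    runG O 4 prog0 m = true := by
  match m, h with
  | [x0, x1, x2, x3], h => exact h

def chkB0 : List opsE.α → Bool :=
  chk0 opsE.cst opsE.add opsE.sub opsE.mul opsE.scale opsE.neg opsE.inv opsE.exp opsE.log opsE.ok opsE.isPos opsE.isLt

theorem chkB0_eq (m : List opsE.α) (h : chkB0 m = true) : runG opsE 4 prog0 m = true :=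
  chk0_eq opsE m h

def prog1 : List Op := [
  .const ⟨1099511627776, 0, 0, 0⟩,
  .mul 2 3,
  .mul 4 4,
  .mul 3 4,
  .mul 0 1,
  .mul 3 3,
  .mul 1 2,
  .const ⟨549755813888, 0, 0, 0⟩,
  .mul 3 9,
  .mul 0 12,
  .scale ⟨549755813888, 0, 0, 0⟩ 0,
  .mul 12 12,
  .mul 1 1,
  .sub 12 0,
  .inv 0,
  .mul 4 0,
  .scale ⟨2199023255552, 0, 0, 0⟩ 0,
  .scale ⟨2199023255552, 0, 0, 0⟩ 2,
  .sub 0 17,
  .add 0 2,
  .mul 23 5,
  .mul 22 0,
  .sub 21 0,
  .add 22 1,
  .mul 19 12,
  .mul 4 4,
  .scale ⟨10774999203840, 0, 0, 0⟩ 15,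
  .scale ⟨45768245248, 0, 0, 0⟩ 0,
  .const ⟨183207198720, 0, 0, 0⟩,
  .add 1 0,
  .mul 3 0,
  .add 23 0,
  .mul 5 0,
  .add 32 0,
  .mul 7 0,
  .scale ⟨549755813888, 0, 0, 0⟩ 0,
  .add 35 0,
  .mul 3 0,
  .mul 21 16,
  .scale ⟨2199023255552, 0, 0, 0⟩ 20,
  .add 1 0,
  .add 0 36,
  .mul 17 0,
  .add 0 42,
  .mul 27 27,
  .scale ⟨2199023255552, 0, 0, 0⟩ 0,
  .add 0 45,
  .mul 28 5,
  .sub 0 47,
  .log 5,
  .scale ⟨549755813888, 0, 0, 0⟩ 0,
  .exp 0,
  .const ⟨3298534883328, 0, 0, 0⟩,
  .inv 0,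
  .mul 53 0,
  .const ⟨2199023255552, 0, 0, 0⟩,
  .add 13 0,
  .inv 0,
  .mul 15 0,
  .mul 0 0,
  .sub 59 1,
  .mul 1 6,
  .add 61 0,
  .mul 2 0,
  .mul 4 4,
  .scale ⟨219915747328, 0, 0, 0⟩ 0,
  .mul 24 2,
  .scale ⟨549755813888, 0, 0, 0⟩ 0,
  .mul 26 2,
  .scale ⟨549755813888, 0, 0, 0⟩ 0,
  .add 2 0,
  .mul 52 22,
  .scale ⟨4398046511104, 0, 0, 0⟩ 0,
  .mul 54 48,
  .mul 0 25,
  .scale ⟨4398046511104, 0, 0, 0⟩ 0,
  .add 0 20,
  .inv 0,
  .mul 2 0,
  .mul 0 0,
  .sub 79 1,
  .mul 1 26,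
  .add 81 0,
  .mul 2 0,
  .mul 4 4,
  .scale ⟨219915747328, 0, 0, 0⟩ 0,
  .mul 13 2,
  .scale ⟨549755813888, 0, 0, 0⟩ 0,
  .sub 0 17,
  .mul 16 3,
  .scale ⟨549755813888, 0, 0, 0⟩ 0,
  .add 0 21,
  .add 3 0,
  .mul 89 25,
  .neg 0,
  .exp 0,
  .mul 92 26,
  .mul 1 0,
  .mul 94 9,
  .neg 0,
  .exp 0,
  .mul 97 9,
  .mul 1 0,
  .mul 81 86,
  .add 85 0,
  .inv 0,
  .mul 82 0,
  .mul 84 102,
  .mul 0 1,
  .sub 108 97,
  .mul 84 0,
  .mul 102 102,
  .sub 111 86,
  .mul 3 0,
  .mul 89 65,
  .inv 71,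
  .mul 1 0,
  .add 98 0,
  .mul 74 0,
  .mul 0 0,
  .inv 0,
  .mul 7 0,
  .add 103 97,
  .mul 122 0,
  .inv 0,
  .mul 125 0,
  .mul 0 0,
  .mul 0 13,
  .const ⟨45812285440, 0, 0, 0⟩,
  .scale ⟨1527119872, 0, 0, 0⟩ 1,
  .sub 1 0,
  .mul 3 0,
  .sub 124 0,
  .mul 5 0,
  .sub 133 0,
  .add 39 134,
  .mul 40 40,
  .add 0 136,
  .mul 42 3,
  .scale ⟨2199023255552, 0, 0, 0⟩ 0,
  .add 2 0,
  .scale ⟨4398046511104, 0, 0, 0⟩ 43,
  .sub 1 0,
  .inv 7,
  .mul 1 0,
  .add 0 9,
  .mul 50 37,
  .scale ⟨549755813888, 0, 0, 0⟩ 0,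
  .mul 0 2,
  .sub 6 0,
  .pos 7,
  .pos 0,
  .mul 146 79,
  .scale ⟨2199023255552, 0, 0, 0⟩ 0,
  .scale ⟨183274307584, 0, 0, 0⟩ 0,
  .sub 145 0,
  .mul 2 0,
  .sub 154 0,
  .mul 85 0,
  .inv 7,
  .mul 1 0,
  .mul 155 0,
  .add 0 152,
  .inv 0,
  .mul 3 0,
  .mul 159 0,
  .mul 55 0,
  .scale ⟨549755813888, 0, 0, 0⟩ 0,
  .sub 165 0,
  .sub 166 2,
  .inv 0,
  .mul 2 0,
  .add 5 169,
  .mul 75 0,
  .mul 65 2,
  .mul 174 10,
  .mul 1 0,
  .mul 10 5,
  .pos 8,
  .mul 153 152,
  .add 158 172,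
  .mul 156 159,
  .mul 0 162,
  .scale ⟨2199023255552, 0, 0, 0⟩ 0,
  .add 134 0,
  .mul 4 0,
  .inv 0,
  .mul 7 0,
  .mul 180 0,
  .pos 97,
  .mul 58 70,
  .scale ⟨1527119872, 0, 0, 0⟩ 0,
  .sub 59 0,
  .mul 2 0,
  .sub 182 0,
  .mul 4 0,
  .sub 191 0,
  .add 92 192,
  .mul 93 93,
  .add 0 194,
  .mul 95 3,
  .scale ⟨2199023255552, 0, 0, 0⟩ 0,
  .add 2 0,
  .scale ⟨4398046511104, 0, 0, 0⟩ 96,
  .sub 1 0,
  .inv 7,
  .mul 1 0,
  .add 0 9,
  .mul 103 18,
  .scale ⟨549755813888, 0, 0, 0⟩ 0,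
  .mul 0 2,
  .sub 6 0,
  .pos 7,
  .pos 0,
  .mul 204 115,
  .scale ⟨2199023255552, 0, 0, 0⟩ 0,
  .scale ⟨183274307584, 0, 0, 0⟩ 0,
  .sub 203 0,
  .mul 2 0,
  .sub 212 0,
  .mul 121 0,
  .inv 7,
  .mul 1 0,
  .mul 213 0,
  .add 0 210,
  .inv 0,
  .mul 3 0,
  .mul 217 0,
  .mul 36 0,
  .mul 224 2,
  .add 213 223,
  .inv 0,
  .mul 215 0,
  .scale ⟨2199023255552, 0, 0, 0⟩ 0,
  .sub 227 0,
  .sub 228 218,
  .mul 233 4,
  .mul 0 2,
  .add 208 0,
  .scale ⟨224412041216, 0, 0, 0⟩ 218,
  .inv 196,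
  .mul 1 0,
  .scale ⟨4398046511104, 0, 0, 0⟩ 235,
  .mul 237 216,
  .add 1 0,
  .inv 0,
  .mul 240 0,
  .mul 240 1,
  .mul 0 218,
  .mul 0 7,
  .mul 3 220,
  .mul 0 9,
  .sub 245 0,
  .inv 0,
  .mul 76 2,
  .sub 248 0,
  .inv 0,
  .scale ⟨2199023255552, 0, 0, 0⟩ 245,
  .add 0 251,
  .add 247 252,
  .const ⟨893353197568, 0, 0, 0⟩,
  .const ⟨725849473024, 0, 0, 0⟩,
  .sub 0 93,
  .pos 0,
  .mul 246 236,
  .sub 257 147,
  .mul 248 237,
  .scale ⟨2199023255552, 0, 0, 0⟩ 0,
  .sub 2 0,
  .mul 4 4,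
  .add 1 0,
  .add 0 263,
  .scale ⟨549755813888, 0, 0, 0⟩ 0,
  .scale ⟨549755813888, 0, 0, 0⟩ 241,
  .sub 252 0,
  .mul 156 9,
  .mul 0 255,
  .scale ⟨137438953472, 0, 0, 0⟩ 0,
  .add 3 0,
  .mul 6 0,
  .add 101 272,
  .mul 0 26,
  .mul 103 24,
  .add 1 0,
  .mul 31 0,
  .add 102 0,
  .mul 0 273,
  .mul 6 34,
  .mul 0 33,
  .add 106 0,
  .mul 0 277,
  .scale ⟨223338299392, 0, 0, 0⟩ 0,
  .add 277 0,
  .mul 2 0,
  .add 286 0,
  .scale ⟨893353197568, 0, 0, 0⟩ 8,
  .add 288 0,
  .mul 10 0,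
  .add 290 0,
  .mul 64 61,
  .mul 0 40,
  .mul 0 2,
  .mul 22 7,
  .add 244 288,
  .mul 2 0,
  .add 2 0,
  .add 247 298,
  .mul 5 0,
  .mul 47 1,
  .mul 0 71,
  .mul 0 73,
  .mul 5 129,
  .mul 1 50,
  .add 1 0,
  .mul 308 74,
  .inv 256,
  .mul 1 0,
  .scale ⟨549755813888, 0, 0, 0⟩ 0,
  .mul 288 0,
  .add 0 5,
  .mul 308 0,
  .mul 313 0,
  .mul 16 41,
  .mul 0 68,
  .mul 16 145,
  .mul 0 67,
  .add 2 0,
  .mul 297 5,
  .mul 77 1,
  .add 1 0,
  .mul 211 0,
  .mul 0 15,
  .sub 324 0,
  .inv 0,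
  .mul 4 0,
  .mul 323 0,
  .mul 217 1,
  .mul 0 21,
  .sub 330 0,
  .mul 283 0,
  .sub 0 4,
  .inv 0,
  .mul 6 0,
  .sub 284 6,
  .inv 0,
  .mul 2 116,
  .scale ⟨549755813888, 0, 0, 0⟩ 0,
  .sub 339 0,
  .sub 340 2,
  .inv 0,
  .mul 2 0,
  .mul 345 6,
  .mul 121 10,
  .mul 0 2,
  .add 2 0,
  .mul 341 20,
  .mul 11 0,
  .mul 128 15,
  .mul 0 7,
  .mul 0 23,
  .add 3 0,
  .scale ⟨223338299392, 0, 0, 0⟩ 0,
  .add 347 0,
  .mul 2 0,
  .add 356 0,
  .mul 10 0,
  .mul 0 32,
  .mul 0 40,
  .mul 116 338,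
  .const ⟨7696581394432, 0, 0, 0⟩,
  .const ⟨10995116277760, 0, 0, 0⟩,
  .inv 0,
  .mul 2 0,
  .mul 141 342,
  .mul 0 1,
  .mul 190 262,
  .mul 347 0,
  .scale ⟨549755813888, 0, 0, 0⟩ 147,
  .sub 370 0,
  .sub 371 149,
  .inv 0,
  .mul 2 0,
  .mul 0 189,
  .mul 264 254,
  .scale ⟨733097230336, 0, 0, 0⟩ 0,
  .sub 377 0,
  .mul 257 0,
  .mul 291 291,
  .mul 369 0,
  .add 2 0,
  .mul 7 159,
  .add 1 383,
  .mul 1 0,
  .sub 3 0,
  .scale ⟨366548615168, 0, 0, 0⟩ 342,
  .sub 387 0,
  .mul 363 0,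
  .add 3 0,
  .mul 22 0,
  .mul 22 22,
  .add 392 0,
  .inv 0,
  .mul 3 0,
  .sub 395 60,
  .mul 0 1,
  .sub 397 14,
  .pos 0,
  .pos 3,
  .pos 2,
  .mul 39 160,
  .mul 0 87,
  .inv 377,
  .mul 1 0,
  .mul 399 5,
  .scale ⟨549755813888, 0, 0, 0⟩ 0,
  .sub 404 0,
  .mul 8 0,
  .neg 0,
  .mul 409 411,
  .mul 0 184,
  .mul 0 395,
  .mul 408 0,
  .add 4 0,
  .mul 5 1,
  .mul 410 0,
  .add 2 0,
  .mul 404 374,
  .scale ⟨412316860416, 0, 0, 0⟩ 374,
  .sub 410 0,
  .mul 2 0,
  .mul 417 0,
  .neg 0,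
  .add 6 0,
  .mul 7 1,
  .mul 420 0,
  .add 2 0,
  .mul 427 98,
  .mul 0 25,
  .mul 425 0,
  .add 3 0,
  .mul 4 1,
  .mul 427 0,
  .add 2 0,
  .mul 430 65,
  .sub 1 0,
  .mul 430 67,
  .add 435 0,
  .inv 0,
  .mul 3 0,
  .mul 440 430,
  .mul 0 112,
  .mul 0 103,
  .mul 439 0,
  .add 4 0,
  .mul 5 1,
  .mul 441 0,
  .add 2 0,
  .mul 443 0,
  .add 447 0,
  .mul 88 203,
  .mul 445 88,
  .mul 48 0,
  .add 2 0,
  .mul 450 0,
  .add 93 51,
  .mul 452 0,
  .mul 2 7,
  .add 10 0,
  .add 0 2,
  .neg 0,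
  .scale ⟨1073741824, 0, 0, 0⟩ 457,
  .sub 1 0,
  .sub 442 461,
  .add 0 407,
  .scale ⟨2199023255552, 0, 0, 0⟩ 98,
  .sub 1 0,
  .mul 241 0,
  .mul 4 2,
  .add 0 467,
  .inv 0,
  .mul 3 0,
  .mul 229 151,
  .scale ⟨549755813888, 0, 0, 0⟩ 236,
  .add 456 0,
  .mul 2 0,
  .scale ⟨2199023255552, 0, 0, 0⟩ 0,
  .add 161 0,
  .scale ⟨2199023255552, 0, 0, 0⟩ 0,
  .mul 0 151,
  .mul 470 151,
  .sub 456 0,
  .inv 0,
  .mul 3 0,
  .sub 12 0,
  .mul 246 246,
  .const ⟨14293651161088, 0, 0, 0⟩,
  .mul 0 121,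
  .mul 2 0,
  .mul 487 487,
  .scale ⟨27487790694400, 0, 0, 0⟩ 0,
  .add 2 0,
  .mul 123 53,
  .sub 452 487,
  .sub 0 454,
  .mul 490 493,
  .mul 471 175,
  .mul 0 256,
  .add 190 0,
  .add 18 442,
  .mul 499 0,
  .mul 9 8,
  .mul 174 1,
  .mul 7 4,
  .mul 1 0,
  .sub 3 0,
  .scale ⟨549755813888, 0, 0, 0⟩ 25,
  .add 505 0,
  .mul 180 0,
  .mul 503 485,
  .mul 0 276,
  .mul 486 458,
  .inv 0,
  .mul 2 0,
  .mul 5 0,
  .sub 20 0,
  .mul 279 10,
  .sub 515 280,
  .mul 505 2,
  .mul 1 0,
  .mul 28 0,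
  .add 4 0,
  .pos 274,
  .pos 271,
  .scale ⟨2199023255552, 0, 0, 0⟩ 197,
  .sub 470 0,
  .pos 0,
  .pos 189,
  .sub 515 300,
  .pos 0,
  .scale ⟨687194767360, 0, 0, 0⟩ 523,
  .sub 0 241,
  .pos 0,
  .scale ⟨377957122048, 0, 0, 0⟩ 525,
  .sub 0 247,
  .pos 0,
  .pos 47,
  .pos 186,
  .sub 3 174,
  .pos 0,
  .pos 45,
  .pos 67,
  .pos 8,
  .pos 14]

def chk1 {α : Type} (cst : Z → α) (add sub mul : α → α → α) (scale : Z → α → α)
    (neg inv exp log : α → α) (ok : α → Bool) (isPos : Nat → α → Bool) (isLt : α → Nat → Bool) :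
    List α → Bool
  | [x0, x1, x2, x3] =>
  let v0 := cst ⟨1099511627776, 0, 0, 0⟩; ok v0 && (
  let v1 := mul x1 x2; ok v1 && (
  let v2 := mul x2 x2; ok v2 && (
  let v3 := mul x0 x1; ok v3 && (
  let v4 := mul v3 v2; ok v4 && (
  let v5 := mul v1 v1; ok v5 && (
  let v6 := mul v4 v3; ok v6 && (
  let v7 := cst ⟨549755813888, 0, 0, 0⟩; ok v7 && (
  let v8 := mul v4 x1; ok v8 && (
  let v9 := mul v8 x3; ok v9 && (
  let v10 := scale ⟨549755813888, 0, 0, 0⟩ v9; ok v10 && (
  let v11 := mul x1 x1; ok v11 && (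
  let v12 := mul v10 v10; ok v12 && (
  let v13 := sub v0 v12; ok v13 && (
  let v14 := inv v13; ok v14 && (
  let v15 := mul v10 v14; ok v15 && (
  let v16 := scale ⟨2199023255552, 0, 0, 0⟩ v15; ok v16 && (
  let v17 := scale ⟨2199023255552, 0, 0, 0⟩ v14; ok v17 && (
  let v18 := sub v17 v0; ok v18 && (
  let v19 := add v18 v16; ok v19 && (
  let v20 := mul x3 v14; ok v20 && (
  let v21 := mul x1 v20; ok v21 && (
  let v22 := sub v0 v21; ok v22 && (
  let v23 := add v0 v21; ok v23 && (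
  let v24 := mul v4 v11; ok v24 && (
  let v25 := mul v20 v20; ok v25 && (
  let v26 := scale ⟨10774999203840, 0, 0, 0⟩ v10; ok v26 && (
  let v27 := scale ⟨45768245248, 0, 0, 0⟩ v26; ok v27 && (
  let v28 := cst ⟨183207198720, 0, 0, 0⟩; ok v28 && (
  let v29 := add v27 v28; ok v29 && (
  let v30 := mul v26 v29; ok v30 && (
  let v31 := add v7 v30; ok v31 && (
  let v32 := mul v26 v31; ok v32 && (
  let v33 := add v0 v32; ok v33 && (
  let v34 := mul v26 v33; ok v34 && (
  let v35 := scale ⟨549755813888, 0, 0, 0⟩ v34; ok v35 && (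
  let v36 := add v0 v35; ok v36 && (
  let v37 := mul v33 v36; ok v37 && (
  let v38 := mul v16 v21; ok v38 && (
  let v39 := scale ⟨2199023255552, 0, 0, 0⟩ v18; ok v39 && (
  let v40 := add v38 v39; ok v40 && (
  let v41 := add v40 v4; ok v41 && (
  let v42 := mul v24 v41; ok v42 && (
  let v43 := add v42 v0; ok v43 && (
  let v44 := mul v16 v16; ok v44 && (
  let v45 := scale ⟨2199023255552, 0, 0, 0⟩ v44; ok v45 && (
  let v46 := add v45 v0; ok v46 && (
  let v47 := mul v18 v41; ok v47 && (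
  let v48 := sub v47 v0; ok v48 && (
  let v49 := log v43; ok v49 && (
  let v50 := scale ⟨549755813888, 0, 0, 0⟩ v49; ok v50 && (
  let v51 := exp v50; ok v51 && (
  let v52 := cst ⟨3298534883328, 0, 0, 0⟩; ok v52 && (
  let v53 := inv v52; ok v53 && (
  let v54 := mul v0 v53; ok v54 && (
  let v55 := cst ⟨2199023255552, 0, 0, 0⟩; ok v55 && (
  let v56 := add v42 v55; ok v56 && (
  let v57 := inv v56; ok v57 && (
  let v58 := mul v42 v57; ok v58 && (
  let v59 := mul v58 v58; ok v59 && (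
  let v60 := sub v0 v58; ok v60 && (
  let v61 := mul v59 v54; ok v61 && (
  let v62 := add v0 v61; ok v62 && (
  let v63 := mul v60 v62; ok v63 && (
  let v64 := mul v59 v59; ok v64 && (
  let v65 := scale ⟨219915747328, 0, 0, 0⟩ v64; ok v65 && (
  let v66 := mul v41 v63; ok v66 && (
  let v67 := scale ⟨549755813888, 0, 0, 0⟩ v66; ok v67 && (
  let v68 := mul v41 v65; ok v68 && (
  let v69 := scale ⟨549755813888, 0, 0, 0⟩ v68; ok v69 && (
  let v70 := add v67 v69; ok v70 && (
  let v71 := mul v18 v48; ok v71 && (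
  let v72 := scale ⟨4398046511104, 0, 0, 0⟩ v71; ok v72 && (
  let v73 := mul v18 v24; ok v73 && (
  let v74 := mul v73 v48; ok v74 && (
  let v75 := scale ⟨4398046511104, 0, 0, 0⟩ v74; ok v75 && (
  let v76 := add v75 v55; ok v76 && (
  let v77 := inv v76; ok v77 && (
  let v78 := mul v75 v77; ok v78 && (
  let v79 := mul v78 v78; ok v79 && (
  let v80 := sub v0 v78; ok v80 && (
  let v81 := mul v79 v54; ok v81 && (
  let v82 := add v0 v81; ok v82 && (
  let v83 := mul v80 v82; ok v83 && (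
  let v84 := mul v79 v79; ok v84 && (
  let v85 := scale ⟨219915747328, 0, 0, 0⟩ v84; ok v85 && (
  let v86 := mul v72 v83; ok v86 && (
  let v87 := scale ⟨549755813888, 0, 0, 0⟩ v86; ok v87 && (
  let v88 := sub v87 v70; ok v88 && (
  let v89 := mul v72 v85; ok v89 && (
  let v90 := scale ⟨549755813888, 0, 0, 0⟩ v89; ok v90 && (
  let v91 := add v90 v69; ok v91 && (
  let v92 := add v88 v91; ok v92 && (
  let v93 := mul v3 v67; ok v93 && (
  let v94 := neg v93; ok v94 && (
  let v95 := exp v94; ok v95 && (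
  let v96 := mul v3 v69; ok v96 && (
  let v97 := mul v95 v96; ok v97 && (
  let v98 := mul v3 v88; ok v98 && (
  let v99 := neg v98; ok v99 && (
  let v100 := exp v99; ok v100 && (
  let v101 := mul v3 v91; ok v101 && (
  let v102 := mul v100 v101; ok v102 && (
  let v103 := mul v21 v16; ok v103 && (
  let v104 := add v18 v103; ok v104 && (
  let v105 := inv v104; ok v105 && (
  let v106 := mul v23 v105; ok v106 && (
  let v107 := mul v22 v4; ok v107 && (
  let v108 := mul v107 v106; ok v108 && (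
  let v109 := sub v0 v11; ok v109 && (
  let v110 := mul v25 v109; ok v110 && (
  let v111 := mul v8 v8; ok v111 && (
  let v112 := sub v0 v25; ok v112 && (
  let v113 := mul v109 v112; ok v113 && (
  let v114 := mul v24 v48; ok v114 && (
  let v115 := inv v43; ok v115 && (
  let v116 := mul v114 v115; ok v116 && (
  let v117 := add v18 v116; ok v117 && (
  let v118 := mul v43 v117; ok v118 && (
  let v119 := mul v118 v118; ok v119 && (
  let v120 := inv v119; ok v120 && (
  let v121 := mul v113 v120; ok v121 && (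
  let v122 := add v18 v24; ok v122 && (
  let v123 := mul v0 v122; ok v123 && (
  let v124 := inv v123; ok v124 && (
  let v125 := mul x0 v124; ok v125 && (
  let v126 := mul v125 v125; ok v126 && (
  let v127 := mul v126 v113; ok v127 && (
  let v128 := cst ⟨45812285440, 0, 0, 0⟩; ok v128 && (
  let v129 := scale ⟨1527119872, 0, 0, 0⟩ v127; ok v129 && (
  let v130 := sub v128 v129; ok v130 && (
  let v131 := mul v127 v130; ok v131 && (
  let v132 := sub v7 v131; ok v132 && (
  let v133 := mul v127 v132; ok v133 && (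
  let v134 := sub v0 v133; ok v134 && (
  let v135 := add v95 v0; ok v135 && (
  let v136 := mul v95 v95; ok v136 && (
  let v137 := add v136 v0; ok v137 && (
  let v138 := mul v95 v134; ok v138 && (
  let v139 := scale ⟨2199023255552, 0, 0, 0⟩ v138; ok v139 && (
  let v140 := add v137 v139; ok v140 && (
  let v141 := scale ⟨4398046511104, 0, 0, 0⟩ v97; ok v141 && (
  let v142 := sub v140 v141; ok v142 && (
  let v143 := inv v135; ok v143 && (
  let v144 := mul v142 v143; ok v144 && (
  let v145 := add v144 v135; ok v145 && (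
  let v146 := mul v95 v108; ok v146 && (
  let v147 := scale ⟨549755813888, 0, 0, 0⟩ v146; ok v147 && (
  let v148 := mul v147 v145; ok v148 && (
  let v149 := sub v142 v148; ok v149 && (
  isPos 4 v142 && (
  isPos 4 v149 && (
  let v150 := mul v3 v70; ok v150 && (
  let v151 := scale ⟨2199023255552, 0, 0, 0⟩ v150; ok v151 && (
  let v152 := scale ⟨183274307584, 0, 0, 0⟩ v151; ok v152 && (
  let v153 := sub v7 v152; ok v153 && (
  let v154 := mul v151 v153; ok v154 && (
  let v155 := sub v0 v154; ok v155 && (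
  let v156 := mul v70 v155; ok v156 && (
  let v157 := inv v149; ok v157 && (
  let v158 := mul v156 v157; ok v158 && (
  let v159 := mul v3 v158; ok v159 && (
  let v160 := add v159 v7; ok v160 && (
  let v161 := inv v160; ok v161 && (
  let v162 := mul v158 v161; ok v162 && (
  let v163 := mul v3 v162; ok v163 && (
  let v164 := mul v108 v163; ok v164 && (
  let v165 := scale ⟨549755813888, 0, 0, 0⟩ v164; ok v165 && (
  let v166 := sub v0 v165; ok v166 && (
  let v167 := sub v0 v164; ok v167 && (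
  let v168 := inv v167; ok v168 && (
  let v169 := mul v166 v168; ok v169 && (
  let v170 := add v164 v0; ok v170 && (
  let v171 := mul v95 v170; ok v171 && (
  let v172 := mul v106 v169; ok v172 && (
  let v173 := mul x1 v162; ok v173 && (
  let v174 := mul v172 v173; ok v174 && (
  let v175 := mul v164 v169; ok v175 && (
  isPos 4 v167 && (
  let v176 := mul v22 v23; ok v176 && (
  let v177 := add v18 v4; ok v177 && (
  let v178 := mul v21 v18; ok v178 && (
  let v179 := mul v178 v16; ok v179 && (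
  let v180 := scale ⟨2199023255552, 0, 0, 0⟩ v179; ok v180 && (
  let v181 := add v46 v180; ok v181 && (
  let v182 := mul v177 v181; ok v182 && (
  let v183 := inv v182; ok v183 && (
  let v184 := mul v176 v183; ok v184 && (
  let v185 := mul v4 v184; ok v185 && (
  isPos 4 v88 && (
  let v186 := mul v127 v115; ok v186 && (
  let v187 := scale ⟨1527119872, 0, 0, 0⟩ v186; ok v187 && (
  let v188 := sub v128 v187; ok v188 && (
  let v189 := mul v186 v188; ok v189 && (
  let v190 := sub v7 v189; ok v190 && (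
  let v191 := mul v186 v190; ok v191 && (
  let v192 := sub v0 v191; ok v192 && (
  let v193 := add v100 v0; ok v193 && (
  let v194 := mul v100 v100; ok v194 && (
  let v195 := add v194 v0; ok v195 && (
  let v196 := mul v100 v192; ok v196 && (
  let v197 := scale ⟨2199023255552, 0, 0, 0⟩ v196; ok v197 && (
  let v198 := add v195 v197; ok v198 && (
  let v199 := scale ⟨4398046511104, 0, 0, 0⟩ v102; ok v199 && (
  let v200 := sub v198 v199; ok v200 && (
  let v201 := inv v193; ok v201 && (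
  let v202 := mul v200 v201; ok v202 && (
  let v203 := add v202 v193; ok v203 && (
  let v204 := mul v100 v185; ok v204 && (
  let v205 := scale ⟨549755813888, 0, 0, 0⟩ v204; ok v205 && (
  let v206 := mul v205 v203; ok v206 && (
  let v207 := sub v200 v206; ok v207 && (
  isPos 4 v200 && (
  isPos 4 v207 && (
  let v208 := mul v3 v92; ok v208 && (
  let v209 := scale ⟨2199023255552, 0, 0, 0⟩ v208; ok v209 && (
  let v210 := scale ⟨183274307584, 0, 0, 0⟩ v209; ok v210 && (
  let v211 := sub v7 v210; ok v211 && (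
  let v212 := mul v209 v211; ok v212 && (
  let v213 := sub v0 v212; ok v213 && (
  let v214 := mul v92 v213; ok v214 && (
  let v215 := inv v207; ok v215 && (
  let v216 := mul v214 v215; ok v216 && (
  let v217 := mul v3 v216; ok v217 && (
  let v218 := add v217 v7; ok v218 && (
  let v219 := inv v218; ok v219 && (
  let v220 := mul v216 v219; ok v220 && (
  let v221 := mul v3 v220; ok v221 && (
  let v222 := mul v185 v221; ok v222 && (
  let v223 := mul x1 v220; ok v223 && (
  let v224 := add v10 v0; ok v224 && (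
  let v225 := inv v224; ok v225 && (
  let v226 := mul v10 v225; ok v226 && (
  let v227 := scale ⟨2199023255552, 0, 0, 0⟩ v226; ok v227 && (
  let v228 := sub v0 v227; ok v228 && (
  let v229 := sub v0 v10; ok v229 && (
  let v230 := mul x3 v225; ok v230 && (
  let v231 := mul v230 v228; ok v231 && (
  let v232 := add v23 v231; ok v232 && (
  let v233 := scale ⟨224412041216, 0, 0, 0⟩ v14; ok v233 && (
  let v234 := inv v37; ok v234 && (
  let v235 := mul v233 v234; ok v235 && (
  let v236 := scale ⟨4398046511104, 0, 0, 0⟩ v0; ok v236 && (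
  let v237 := mul x0 v20; ok v237 && (
  let v238 := add v236 v237; ok v238 && (
  let v239 := inv v238; ok v239 && (
  let v240 := mul x0 v239; ok v240 && (
  let v241 := mul v0 v239; ok v241 && (
  let v242 := mul v241 v23; ok v242 && (
  let v243 := mul v242 v235; ok v243 && (
  let v244 := mul v240 v23; ok v244 && (
  let v245 := mul v244 v235; ok v245 && (
  let v246 := sub v0 v245; ok v246 && (
  let v247 := inv v246; ok v247 && (
  let v248 := mul v171 v245; ok v248 && (
  let v249 := sub v0 v248; ok v249 && (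
  let v250 := inv v249; ok v250 && (
  let v251 := scale ⟨2199023255552, 0, 0, 0⟩ v5; ok v251 && (
  let v252 := add v251 v0; ok v252 && (
  let v253 := add v5 v0; ok v253 && (
  let v254 := cst ⟨893353197568, 0, 0, 0⟩; ok v254 && (
  let v255 := cst ⟨725849473024, 0, 0, 0⟩; ok v255 && (
  let v256 := sub v255 v162; ok v256 && (
  isPos 4 v256 && (
  let v257 := mul v10 v20; ok v257 && (
  let v258 := sub v0 v110; ok v258 && (
  let v259 := mul v10 v21; ok v259 && (
  let v260 := scale ⟨2199023255552, 0, 0, 0⟩ v259; ok v260 && (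
  let v261 := sub v258 v260; ok v261 && (
  let v262 := mul v257 v257; ok v262 && (
  let v263 := add v261 v262; ok v263 && (
  let v264 := add v263 v0; ok v264 && (
  let v265 := scale ⟨549755813888, 0, 0, 0⟩ v264; ok v265 && (
  let v266 := scale ⟨549755813888, 0, 0, 0⟩ v24; ok v266 && (
  let v267 := sub v14 v266; ok v267 && (
  let v268 := mul v111 v258; ok v268 && (
  let v269 := mul v268 v13; ok v269 && (
  let v270 := scale ⟨137438953472, 0, 0, 0⟩ v269; ok v270 && (
  let v271 := add v267 v270; ok v271 && (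
  let v272 := mul v265 v271; ok v272 && (
  let v273 := add v171 v0; ok v273 && (
  let v274 := mul v273 v247; ok v274 && (
  let v275 := mul v171 v250; ok v275 && (
  let v276 := add v274 v275; ok v276 && (
  let v277 := mul v245 v276; ok v277 && (
  let v278 := add v175 v277; ok v278 && (
  let v279 := mul v278 v5; ok v279 && (
  let v280 := mul v273 v245; ok v280 && (
  let v281 := mul v280 v247; ok v281 && (
  let v282 := add v175 v281; ok v282 && (
  let v283 := mul v282 v5; ok v283 && (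
  let v284 := scale ⟨223338299392, 0, 0, 0⟩ v283; ok v284 && (
  let v285 := add v7 v284; ok v285 && (
  let v286 := mul v283 v285; ok v286 && (
  let v287 := add v0 v286; ok v287 && (
  let v288 := scale ⟨893353197568, 0, 0, 0⟩ v279; ok v288 && (
  let v289 := add v0 v288; ok v289 && (
  let v290 := mul v279 v289; ok v290 && (
  let v291 := add v0 v290; ok v291 && (
  let v292 := mul v227 v230; ok v292 && (
  let v293 := mul v292 v252; ok v293 && (
  let v294 := mul v293 v291; ok v294 && (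
  let v295 := mul v272 v287; ok v295 && (
  let v296 := add v51 v7; ok v296 && (
  let v297 := mul v294 v296; ok v297 && (
  let v298 := add v295 v297; ok v298 && (
  let v299 := add v51 v0; ok v299 && (
  let v300 := mul v294 v299; ok v300 && (
  let v301 := mul v253 v299; ok v301 && (
  let v302 := mul v301 v230; ok v302 && (
  let v303 := mul v302 v229; ok v303 && (
  let v304 := mul v298 v174; ok v304 && (
  let v305 := mul v303 v254; ok v305 && (
  let v306 := add v304 v305; ok v306 && (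
  let v307 := mul x1 v232; ok v307 && (
  let v308 := inv v51; ok v308 && (
  let v309 := mul v307 v308; ok v309 && (
  let v310 := scale ⟨549755813888, 0, 0, 0⟩ v309; ok v310 && (
  let v311 := mul v22 v310; ok v311 && (
  let v312 := add v311 v306; ok v312 && (
  let v313 := mul v4 v312; ok v313 && (
  let v314 := mul v0 v313; ok v314 && (
  let v315 := mul v298 v273; ok v315 && (
  let v316 := mul v315 v247; ok v316 && (
  let v317 := mul v300 v171; ok v317 && (
  let v318 := mul v317 v250; ok v318 && (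
  let v319 := add v316 v318; ok v319 && (
  let v320 := mul v22 v314; ok v320 && (
  let v321 := mul v243 v319; ok v321 && (
  let v322 := add v320 v321; ok v322 && (
  let v323 := mul v111 v322; ok v323 && (
  let v324 := mul v323 v308; ok v324 && (
  let v325 := sub v0 v324; ok v325 && (
  let v326 := inv v325; ok v326 && (
  let v327 := mul v322 v326; ok v327 && (
  let v328 := mul v4 v327; ok v328 && (
  let v329 := mul v111 v327; ok v329 && (
  let v330 := mul v329 v308; ok v330 && (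
  let v331 := sub v0 v330; ok v331 && (
  let v332 := mul v48 v331; ok v332 && (
  let v333 := sub v332 v328; ok v333 && (
  let v334 := inv v333; ok v334 && (
  let v335 := mul v328 v334; ok v335 && (
  let v336 := sub v51 v329; ok v336 && (
  let v337 := inv v336; ok v337 && (
  let v338 := mul v335 v221; ok v338 && (
  let v339 := scale ⟨549755813888, 0, 0, 0⟩ v338; ok v339 && (
  let v340 := sub v0 v339; ok v340 && (
  let v341 := sub v0 v338; ok v341 && (
  let v342 := inv v341; ok v342 && (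
  let v343 := mul v340 v342; ok v343 && (
  let v344 := mul x1 v337; ok v344 && (
  let v345 := mul v223 v334; ok v345 && (
  let v346 := mul v345 v343; ok v346 && (
  let v347 := add v344 v346; ok v347 && (
  let v348 := mul v6 v327; ok v348 && (
  let v349 := mul v337 v348; ok v349 && (
  let v350 := mul v221 v334; ok v350 && (
  let v351 := mul v350 v343; ok v351 && (
  let v352 := mul v351 v328; ok v352 && (
  let v353 := add v349 v352; ok v353 && (
  let v354 := scale ⟨223338299392, 0, 0, 0⟩ v353; ok v354 && (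
  let v355 := add v7 v354; ok v355 && (
  let v356 := mul v353 v355; ok v356 && (
  let v357 := add v0 v356; ok v357 && (
  let v358 := mul v347 v357; ok v358 && (
  let v359 := mul v358 v326; ok v359 && (
  let v360 := mul v359 v319; ok v360 && (
  let v361 := mul v244 v22; ok v361 && (
  let v362 := cst ⟨7696581394432, 0, 0, 0⟩; ok v362 && (
  let v363 := cst ⟨10995116277760, 0, 0, 0⟩; ok v363 && (
  let v364 := inv v363; ok v364 && (
  let v365 := mul v362 v364; ok v365 && (
  let v366 := mul v224 v23; ok v366 && (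
  let v367 := mul v366 v365; ok v367 && (
  let v368 := mul v177 v105; ok v368 && (
  let v369 := mul v21 v368; ok v369 && (
  let v370 := scale ⟨549755813888, 0, 0, 0⟩ v222; ok v370 && (
  let v371 := sub v0 v370; ok v371 && (
  let v372 := sub v0 v222; ok v372 && (
  let v373 := inv v372; ok v373 && (
  let v374 := mul v371 v373; ok v374 && (
  let v375 := mul v374 v185; ok v375 && (
  let v376 := mul v111 v121; ok v376 && (
  let v377 := scale ⟨733097230336, 0, 0, 0⟩ v376; ok v377 && (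
  let v378 := sub v0 v377; ok v378 && (
  let v379 := mul v121 v378; ok v379 && (
  let v380 := mul v88 v88; ok v380 && (
  let v381 := mul v11 v380; ok v381 && (
  let v382 := add v379 v381; ok v382 && (
  let v383 := mul v375 v223; ok v383 && (
  let v384 := add v382 v0; ok v384 && (
  let v385 := mul v383 v384; ok v385 && (
  let v386 := sub v382 v385; ok v386 && (
  let v387 := scale ⟨366548615168, 0, 0, 0⟩ v44; ok v387 && (
  let v388 := sub v0 v387; ok v388 && (
  let v389 := mul v25 v388; ok v389 && (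
  let v390 := add v386 v389; ok v390 && (
  let v391 := mul v368 v390; ok v391 && (
  let v392 := mul v369 v369; ok v392 && (
  let v393 := add v0 v392; ok v393 && (
  let v394 := inv v393; ok v394 && (
  let v395 := mul v391 v394; ok v395 && (
  let v396 := sub v0 v335; ok v396 && (
  let v397 := mul v396 v395; ok v397 && (
  let v398 := sub v0 v383; ok v398 && (
  isPos 4 v398 && (
  isPos 4 v395 && (
  isPos 4 v396 && (
  let v399 := mul v359 v238; ok v399 && (
  let v400 := mul v399 v312; ok v400 && (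
  let v401 := inv v23; ok v401 && (
  let v402 := mul v400 v401; ok v402 && (
  let v403 := mul v3 v397; ok v403 && (
  let v404 := scale ⟨549755813888, 0, 0, 0⟩ v403; ok v404 && (
  let v405 := sub v0 v404; ok v405 && (
  let v406 := mul v397 v405; ok v406 && (
  let v407 := neg v406; ok v407 && (
  let v408 := mul x1 x3; ok v408 && (
  let v409 := mul v408 v224; ok v409 && (
  let v410 := mul v409 v14; ok v410 && (
  let v411 := mul v2 v410; ok v411 && (
  let v412 := add v407 v411; ok v412 && (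
  let v413 := mul v407 v411; ok v413 && (
  let v414 := mul v3 v413; ok v414 && (
  let v415 := add v412 v414; ok v415 && (
  let v416 := mul v11 v41; ok v416 && (
  let v417 := scale ⟨412316860416, 0, 0, 0⟩ v42; ok v417 && (
  let v418 := sub v7 v417; ok v418 && (
  let v419 := mul v416 v418; ok v419 && (
  let v420 := mul v2 v419; ok v420 && (
  let v421 := neg v420; ok v421 && (
  let v422 := add v415 v421; ok v422 && (
  let v423 := mul v415 v421; ok v423 && (
  let v424 := mul v3 v423; ok v424 && (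
  let v425 := add v422 v424; ok v425 && (
  let v426 := mul x1 v327; ok v426 && (
  let v427 := mul v426 v401; ok v427 && (
  let v428 := mul v2 v427; ok v428 && (
  let v429 := add v425 v428; ok v429 && (
  let v430 := mul v425 v428; ok v430 && (
  let v431 := mul v3 v430; ok v431 && (
  let v432 := add v429 v431; ok v432 && (
  let v433 := mul v2 v367; ok v433 && (
  let v434 := sub v432 v433; ok v434 && (
  let v435 := mul v4 v367; ok v435 && (
  let v436 := add v0 v435; ok v436 && (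
  let v437 := inv v436; ok v437 && (
  let v438 := mul v434 v437; ok v438 && (
  let v439 := mul x1 v8; ok v439 && (
  let v440 := mul v439 v327; ok v440 && (
  let v441 := mul v440 v337; ok v441 && (
  let v442 := mul v2 v441; ok v442 && (
  let v443 := add v438 v442; ok v443 && (
  let v444 := mul v438 v442; ok v444 && (
  let v445 := mul v3 v444; ok v445 && (
  let v446 := add v443 v445; ok v446 && (
  let v447 := mul v3 v446; ok v447 && (
  let v448 := add v0 v447; ok v448 && (
  let v449 := mul v360 v245; ok v449 && (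
  let v450 := mul v4 v361; ok v450 && (
  let v451 := mul v402 v450; ok v451 && (
  let v452 := add v449 v451; ok v452 && (
  let v453 := mul v2 v452; ok v453 && (
  let v454 := add v360 v402; ok v454 && (
  let v455 := mul v2 v454; ok v455 && (
  let v456 := mul v453 v448; ok v456 && (
  let v457 := add v446 v456; ok v457 && (
  let v458 := add v457 v455; ok v458 && (
  let v459 := neg v458; ok v459 && (
  let v460 := scale ⟨1073741824, 0, 0, 0⟩ v2; ok v460 && (
  let v461 := sub v459 v460; ok v461 && (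
  let v462 := sub v19 v0; ok v462 && (
  let v463 := add v462 v55; ok v463 && (
  let v464 := scale ⟨2199023255552, 0, 0, 0⟩ v365; ok v464 && (
  let v465 := sub v463 v464; ok v465 && (
  let v466 := mul v224 v465; ok v466 && (
  let v467 := mul v462 v464; ok v467 && (
  let v468 := add v467 v0; ok v468 && (
  let v469 := inv v468; ok v469 && (
  let v470 := mul v466 v469; ok v470 && (
  let v471 := mul v241 v319; ok v471 && (
  let v472 := scale ⟨549755813888, 0, 0, 0⟩ v235; ok v472 && (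
  let v473 := add v16 v472; ok v473 && (
  let v474 := mul v471 v473; ok v474 && (
  let v475 := scale ⟨2199023255552, 0, 0, 0⟩ v474; ok v475 && (
  let v476 := add v314 v475; ok v476 && (
  let v477 := scale ⟨2199023255552, 0, 0, 0⟩ v476; ok v477 && (
  let v478 := mul v477 v326; ok v478 && (
  let v479 := mul v8 v327; ok v479 && (
  let v480 := sub v23 v479; ok v480 && (
  let v481 := inv v480; ok v481 && (
  let v482 := mul v478 v481; ok v482 && (
  let v483 := sub v470 v482; ok v483 && (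
  let v484 := mul v237 v237; ok v484 && (
  let v485 := cst ⟨14293651161088, 0, 0, 0⟩; ok v485 && (
  let v486 := mul v485 v364; ok v486 && (
  let v487 := mul v484 v486; ok v487 && (
  let v488 := mul v0 v0; ok v488 && (
  let v489 := scale ⟨27487790694400, 0, 0, 0⟩ v488; ok v489 && (
  let v490 := add v487 v489; ok v490 && (
  let v491 := mul v367 v437; ok v491 && (
  let v492 := sub v39 v4; ok v492 && (
  let v493 := sub v492 v38; ok v493 && (
  let v494 := mul v3 v0; ok v494 && (
  let v495 := mul v23 v319; ok v495 && (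
  let v496 := mul v495 v239; ok v496 && (
  let v497 := add v306 v496; ok v497 && (
  let v498 := add v479 v55; ok v498 && (
  let v499 := mul x0 v498; ok v499 && (
  let v500 := mul v490 v491; ok v500 && (
  let v501 := mul v326 v499; ok v501 && (
  let v502 := mul v494 v497; ok v502 && (
  let v503 := mul v501 v502; ok v503 && (
  let v504 := sub v500 v503; ok v504 && (
  let v505 := scale ⟨549755813888, 0, 0, 0⟩ v479; ok v505 && (
  let v506 := add v0 v505; ok v506 && (
  let v507 := mul v326 v506; ok v507 && (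
  let v508 := mul v4 v22; ok v508 && (
  let v509 := mul v508 v232; ok v509 && (
  let v510 := mul v23 v51; ok v510 && (
  let v511 := inv v510; ok v511 && (
  let v512 := mul v509 v511; ok v512 && (
  let v513 := mul v507 v512; ok v513 && (
  let v514 := sub v493 v513; ok v514 && (
  let v515 := mul v235 v504; ok v515 && (
  let v516 := sub v0 v235; ok v516 && (
  let v517 := mul v11 v514; ok v517 && (
  let v518 := mul v516 v517; ok v518 && (
  let v519 := mul v490 v518; ok v519 && (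
  let v520 := add v515 v519; ok v520 && (
  isPos 4 v246 && (
  isPos 4 v249 && (
  let v521 := scale ⟨2199023255552, 0, 0, 0⟩ v323; ok v521 && (
  let v522 := sub v51 v521; ok v522 && (
  isPos 4 v522 && (
  isPos 4 v333 && (
  let v523 := sub v7 v222; ok v523 && (
  isPos 4 v523 && (
  let v524 := scale ⟨687194767360, 0, 0, 0⟩ v0; ok v524 && (
  let v525 := sub v524 v283; ok v525 && (
  isPos 4 v525 && (
  let v526 := scale ⟨377957122048, 0, 0, 0⟩ v0; ok v526 && (
  let v527 := sub v526 v279; ok v527 && (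
  isPos 4 v527 && (
  isPos 4 v480 && (
  isPos 4 v341 && (
  let v528 := sub v524 v353; ok v528 && (
  isPos 4 v528 && (
  isPos 4 v483 && (
  isPos 4 v461 && (
  isPos 4 v520 && (
  isPos 4 v514 && (
  true)))))))))))))))))))))))))))))))))))))))))))))))))))))))))))))))))))))))))))))))))))))))))))))))))))))))))))))))))))))))))))))))))))))))))))))))))))))))))))))))))))))))))))))))))))))))))))))))))))))))))))))))))))))))))))))))))))))))))))))))))))))))))))))))))))))))))))))))))))))))))))))))))))))))))))))))))))))))))))))))))))))))))))))))))))))))))))))))))))))))))))))))))))))))))))))))))))))))))))))))))))))))))))))))))))))))))))))))))))))))))))))))))))))))))))))))))))))))))))))))))))))))))))))))))))))))))))))))))))))))))))))))))))))))))))))))))))))))))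
  | _ => false

set_option maxRecDepth 1000000 in
theorem chk1_eq (O : Ops) (m : List O.α)
    (h : chk1 O.cst O.add O.sub O.mul O.scale O.neg O.inv O.exp O.log O.ok O.isPos O.isLt m = true) :
    runG O 4 prog1 m = true := by
  match m, h with
  | [x0, x1, x2, x3], h => exact h

def chkB1 : List opsE.α → Bool :=
  chk1 opsE.cst opsE.add opsE.sub opsE.mul opsE.scale opsE.neg opsE.inv opsE.exp opsE.log opsE.ok opsE.isPos opsE.isLt

theorem chkB1_eq (m : List opsE.α) (h : chkB1 m = true) : runG opsE 4 prog1 m = true :=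
  chk1_eq opsE m h

def prog2 : List Op := [
  .const ⟨1099511627776, 0, 0, 0⟩,
  .mul 2 3,
  .mul 4 4,
  .mul 3 4,
  .mul 0 1,
  .mul 3 3,
  .mul 1 2,
  .const ⟨549755813888, 0, 0, 0⟩,
  .mul 3 9,
  .mul 0 12,
  .scale ⟨549755813888, 0, 0, 0⟩ 0,
  .mul 12 12,
  .mul 1 1,
  .sub 12 0,
  .inv 0,
  .mul 4 0,
  .scale ⟨2199023255552, 0, 0, 0⟩ 0,
  .scale ⟨2199023255552, 0, 0, 0⟩ 2,
  .sub 0 17,
  .add 0 2,
  .mul 23 5,
  .mul 22 0,
  .sub 21 0,
  .add 22 1,
  .mul 19 12,
  .mul 4 4,
  .scale ⟨10774999203840, 0, 0, 0⟩ 15,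
  .scale ⟨45768245248, 0, 0, 0⟩ 0,
  .const ⟨183207198720, 0, 0, 0⟩,
  .add 1 0,
  .mul 3 0,
  .add 23 0,
  .mul 5 0,
  .add 32 0,
  .mul 7 0,
  .scale ⟨549755813888, 0, 0, 0⟩ 0,
  .add 35 0,
  .mul 3 0,
  .mul 21 16,
  .scale ⟨2199023255552, 0, 0, 0⟩ 20,
  .add 1 0,
  .add 0 36,
  .mul 17 0,
  .add 0 42,
  .mul 27 27,
  .scale ⟨2199023255552, 0, 0, 0⟩ 0,
  .add 0 45,
  .mul 28 5,
  .sub 0 47,
  .log 5,
  .scale ⟨549755813888, 0, 0, 0⟩ 0,
  .exp 0,
  .const ⟨3298534883328, 0, 0, 0⟩,
  .inv 0,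
  .mul 53 0,
  .const ⟨2199023255552, 0, 0, 0⟩,
  .add 13 0,
  .inv 0,
  .mul 15 0,
  .mul 0 0,
  .sub 59 1,
  .mul 1 6,
  .add 61 0,
  .mul 2 0,
  .mul 4 4,
  .scale ⟨219915747328, 0, 0, 0⟩ 0,
  .mul 24 2,
  .scale ⟨549755813888, 0, 0, 0⟩ 0,
  .mul 26 2,
  .scale ⟨549755813888, 0, 0, 0⟩ 0,
  .add 2 0,
  .mul 52 22,
  .scale ⟨4398046511104, 0, 0, 0⟩ 0,
  .mul 54 48,
  .mul 0 25,
  .scale ⟨4398046511104, 0, 0, 0⟩ 0,
  .add 0 20,
  .inv 0,
  .mul 2 0,
  .mul 0 0,
  .sub 79 1,
  .mul 1 26,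
  .add 81 0,
  .mul 2 0,
  .mul 4 4,
  .scale ⟨219915747328, 0, 0, 0⟩ 0,
  .mul 13 2,
  .scale ⟨549755813888, 0, 0, 0⟩ 0,
  .sub 0 17,
  .mul 16 3,
  .scale ⟨549755813888, 0, 0, 0⟩ 0,
  .add 0 21,
  .add 3 0,
  .mul 89 25,
  .neg 0,
  .exp 0,
  .mul 92 26,
  .mul 1 0,
  .mul 94 9,
  .neg 0,
  .exp 0,
  .mul 97 9,
  .mul 1 0,
  .mul 81 86,
  .add 85 0,
  .inv 0,
  .mul 82 0,
  .mul 84 102,
  .mul 0 1,
  .sub 108 97,
  .mul 84 0,
  .mul 102 102,
  .sub 111 86,
  .mul 3 0,
  .mul 89 65,
  .inv 71,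
  .mul 1 0,
  .add 98 0,
  .mul 74 0,
  .mul 0 0,
  .inv 0,
  .mul 7 0,
  .add 103 97,
  .mul 122 0,
  .inv 0,
  .mul 125 0,
  .mul 0 0,
  .mul 0 13,
  .const ⟨45812285440, 0, 0, 0⟩,
  .scale ⟨1527119872, 0, 0, 0⟩ 1,
  .sub 1 0,
  .mul 3 0,
  .sub 124 0,
  .mul 5 0,
  .sub 133 0,
  .add 39 134,
  .mul 40 40,
  .add 0 136,
  .mul 42 3,
  .scale ⟨2199023255552, 0, 0, 0⟩ 0,
  .add 2 0,
  .scale ⟨4398046511104, 0, 0, 0⟩ 43,
  .sub 1 0,
  .inv 7,
  .mul 1 0,
  .add 0 9,
  .mul 50 37,
  .scale ⟨549755813888, 0, 0, 0⟩ 0,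
  .mul 0 2,
  .sub 6 0,
  .pos 7,
  .pos 0,
  .mul 146 79,
  .scale ⟨2199023255552, 0, 0, 0⟩ 0,
  .scale ⟨183274307584, 0, 0, 0⟩ 0,
  .sub 145 0,
  .mul 2 0,
  .sub 154 0,
  .mul 85 0,
  .inv 7,
  .mul 1 0,
  .mul 155 0,
  .add 0 152,
  .inv 0,
  .mul 3 0,
  .mul 159 0,
  .mul 55 0,
  .scale ⟨549755813888, 0, 0, 0⟩ 0,
  .sub 165 0,
  .sub 166 2,
  .inv 0,
  .mul 2 0,
  .add 5 169,
  .mul 75 0,
  .mul 65 2,
  .mul 174 10,
  .mul 1 0,
  .mul 10 5,
  .pos 8,
  .mul 153 152,
  .add 158 172,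
  .mul 156 159,
  .mul 0 162,
  .scale ⟨2199023255552, 0, 0, 0⟩ 0,
  .add 134 0,
  .mul 4 0,
  .inv 0,
  .mul 7 0,
  .mul 180 0,
  .pos 97,
  .mul 58 70,
  .scale ⟨1527119872, 0, 0, 0⟩ 0,
  .sub 59 0,
  .mul 2 0,
  .sub 182 0,
  .mul 4 0,
  .sub 191 0,
  .add 92 192,
  .mul 93 93,
  .add 0 194,
  .mul 95 3,
  .scale ⟨2199023255552, 0, 0, 0⟩ 0,
  .add 2 0,
  .scale ⟨4398046511104, 0, 0, 0⟩ 96,
  .sub 1 0,
  .inv 7,
  .mul 1 0,
  .add 0 9,
  .mul 103 18,
  .scale ⟨549755813888, 0, 0, 0⟩ 0,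
  .mul 0 2,
  .sub 6 0,
  .pos 7,
  .pos 0,
  .mul 204 115,
  .scale ⟨2199023255552, 0, 0, 0⟩ 0,
  .scale ⟨183274307584, 0, 0, 0⟩ 0,
  .sub 203 0,
  .mul 2 0,
  .sub 212 0,
  .mul 121 0,
  .inv 7,
  .mul 1 0,
  .mul 213 0,
  .add 0 210,
  .inv 0,
  .mul 3 0,
  .mul 217 0,
  .mul 36 0,
  .mul 224 2,
  .add 213 223,
  .inv 0,
  .mul 215 0,
  .scale ⟨2199023255552, 0, 0, 0⟩ 0,
  .sub 227 0,
  .sub 228 218,
  .mul 233 4,
  .mul 0 2,
  .add 208 0,
  .scale ⟨224412041216, 0, 0, 0⟩ 218,
  .inv 196,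
  .mul 1 0,
  .scale ⟨4398046511104, 0, 0, 0⟩ 235,
  .mul 237 216,
  .add 1 0,
  .inv 0,
  .mul 240 0,
  .mul 240 1,
  .mul 0 218,
  .mul 0 7,
  .mul 3 220,
  .mul 0 9,
  .sub 245 0,
  .inv 0,
  .mul 76 2,
  .sub 248 0,
  .inv 0,
  .scale ⟨2199023255552, 0, 0, 0⟩ 245,
  .add 0 251,
  .add 247 252,
  .scale ⟨549755813888, 0, 0, 0⟩ 91,
  .inv 255,
  .mul 257 0,
  .scale ⟨2199023255552, 0, 0, 0⟩ 0,
  .add 3 0,
  .scale ⟨549755813888, 0, 0, 0⟩ 0,
  .mul 249 239,
  .sub 260 150,
  .mul 251 240,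
  .scale ⟨2199023255552, 0, 0, 0⟩ 0,
  .sub 2 0,
  .mul 4 4,
  .add 1 0,
  .add 0 266,
  .scale ⟨549755813888, 0, 0, 0⟩ 0,
  .scale ⟨549755813888, 0, 0, 0⟩ 244,
  .sub 255 0,
  .mul 159 9,
  .mul 0 258,
  .scale ⟨137438953472, 0, 0, 0⟩ 0,
  .add 3 0,
  .mul 6 0,
  .add 104 275,
  .mul 0 29,
  .mul 106 27,
  .add 1 0,
  .mul 34 0,
  .add 105 0,
  .mul 0 276,
  .mul 6 37,
  .mul 0 36,
  .add 109 0,
  .mul 0 280,
  .scale ⟨223338299392, 0, 0, 0⟩ 0,
  .add 280 0,
  .mul 2 0,
  .add 289 0,
  .scale ⟨893353197568, 0, 0, 0⟩ 8,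
  .add 291 0,
  .mul 10 0,
  .add 293 0,
  .mul 67 64,
  .mul 0 43,
  .mul 0 2,
  .mul 22 7,
  .add 247 291,
  .mul 2 0,
  .add 2 0,
  .add 250 301,
  .mul 5 0,
  .mul 50 1,
  .mul 0 74,
  .mul 0 76,
  .mul 5 132,
  .mul 1 48,
  .add 1 0,
  .mul 311 77,
  .inv 259,
  .mul 1 0,
  .scale ⟨549755813888, 0, 0, 0⟩ 0,
  .mul 291 0,
  .add 0 5,
  .mul 311 0,
  .mul 316 0,
  .mul 16 41,
  .mul 0 71,
  .mul 16 148,
  .mul 0 70,
  .add 2 0,
  .mul 300 5,
  .mul 80 1,
  .add 1 0,
  .mul 214 0,
  .mul 0 15,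
  .sub 327 0,
  .inv 0,
  .mul 4 0,
  .mul 326 0,
  .mul 220 1,
  .mul 0 21,
  .sub 333 0,
  .mul 286 0,
  .sub 0 4,
  .inv 0,
  .mul 6 0,
  .sub 287 6,
  .inv 0,
  .mul 2 119,
  .scale ⟨549755813888, 0, 0, 0⟩ 0,
  .sub 342 0,
  .sub 343 2,
  .inv 0,
  .mul 2 0,
  .mul 348 6,
  .mul 124 10,
  .mul 0 2,
  .add 2 0,
  .mul 344 20,
  .mul 11 0,
  .mul 131 15,
  .mul 0 7,
  .mul 0 23,
  .add 3 0,
  .scale ⟨223338299392, 0, 0, 0⟩ 0,
  .add 350 0,
  .mul 2 0,
  .add 359 0,
  .mul 10 0,
  .mul 0 32,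
  .mul 0 40,
  .mul 119 341,
  .const ⟨7696581394432, 0, 0, 0⟩,
  .const ⟨10995116277760, 0, 0, 0⟩,
  .inv 0,
  .mul 2 0,
  .mul 144 345,
  .mul 0 1,
  .mul 193 265,
  .mul 350 0,
  .scale ⟨549755813888, 0, 0, 0⟩ 150,
  .sub 373 0,
  .sub 374 152,
  .inv 0,
  .mul 2 0,
  .mul 0 192,
  .mul 267 257,
  .scale ⟨733097230336, 0, 0, 0⟩ 0,
  .sub 380 0,
  .mul 260 0,
  .mul 294 294,
  .mul 372 0,
  .add 2 0,
  .mul 7 162,
  .add 1 386,
  .mul 1 0,
  .sub 3 0,
  .scale ⟨366548615168, 0, 0, 0⟩ 345,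
  .sub 390 0,
  .mul 366 0,
  .add 3 0,
  .mul 22 0,
  .mul 22 22,
  .add 395 0,
  .inv 0,
  .mul 3 0,
  .sub 398 60,
  .mul 0 1,
  .sub 400 14,
  .pos 0,
  .pos 3,
  .pos 2,
  .mul 39 163,
  .mul 0 87,
  .inv 380,
  .mul 1 0,
  .mul 402 5,
  .scale ⟨549755813888, 0, 0, 0⟩ 0,
  .sub 407 0,
  .mul 8 0,
  .neg 0,
  .mul 412 414,
  .mul 0 187,
  .mul 0 398,
  .mul 411 0,
  .add 4 0,
  .mul 5 1,
  .mul 413 0,
  .add 2 0,
  .mul 407 377,
  .scale ⟨412316860416, 0, 0, 0⟩ 377,
  .sub 413 0,
  .mul 2 0,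
  .mul 420 0,
  .neg 0,
  .add 6 0,
  .mul 7 1,
  .mul 423 0,
  .add 2 0,
  .mul 430 98,
  .mul 0 25,
  .mul 428 0,
  .add 3 0,
  .mul 4 1,
  .mul 430 0,
  .add 2 0,
  .mul 433 65,
  .sub 1 0,
  .mul 433 67,
  .add 438 0,
  .inv 0,
  .mul 3 0,
  .mul 443 433,
  .mul 0 112,
  .mul 0 103,
  .mul 442 0,
  .add 4 0,
  .mul 5 1,
  .mul 444 0,
  .add 2 0,
  .mul 446 0,
  .add 450 0,
  .mul 88 206,
  .mul 448 88,
  .mul 48 0,
  .add 2 0,
  .mul 453 0,
  .add 93 51,
  .mul 455 0,
  .mul 2 7,
  .add 10 0,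
  .add 0 2,
  .neg 0,
  .scale ⟨1073741824, 0, 0, 0⟩ 460,
  .sub 1 0,
  .sub 445 464,
  .add 0 410,
  .scale ⟨2199023255552, 0, 0, 0⟩ 98,
  .sub 1 0,
  .mul 244 0,
  .mul 4 2,
  .add 0 470,
  .inv 0,
  .mul 3 0,
  .mul 232 151,
  .scale ⟨549755813888, 0, 0, 0⟩ 239,
  .add 459 0,
  .mul 2 0,
  .scale ⟨2199023255552, 0, 0, 0⟩ 0,
  .add 161 0,
  .scale ⟨2199023255552, 0, 0, 0⟩ 0,
  .mul 0 151,
  .mul 473 151,
  .sub 459 0,
  .inv 0,
  .mul 3 0,
  .sub 12 0,
  .mul 249 249,
  .const ⟨14293651161088, 0, 0, 0⟩,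
  .mul 0 121,
  .mul 2 0,
  .mul 490 490,
  .scale ⟨27487790694400, 0, 0, 0⟩ 0,
  .add 2 0,
  .mul 123 53,
  .sub 455 490,
  .sub 0 457,
  .mul 493 496,
  .mul 474 175,
  .mul 0 259,
  .add 190 0,
  .add 18 445,
  .mul 502 0,
  .mul 9 8,
  .mul 174 1,
  .mul 7 4,
  .mul 1 0,
  .sub 3 0,
  .scale ⟨549755813888, 0, 0, 0⟩ 25,
  .add 508 0,
  .mul 180 0,
  .mul 506 488,
  .mul 0 279,
  .mul 489 461,
  .inv 0,
  .mul 2 0,
  .mul 5 0,
  .sub 20 0,
  .mul 282 10,
  .sub 518 283,
  .mul 508 2,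
  .mul 1 0,
  .mul 28 0,
  .add 4 0,
  .pos 277,
  .pos 274,
  .scale ⟨2199023255552, 0, 0, 0⟩ 197,
  .sub 473 0,
  .pos 0,
  .pos 189,
  .sub 518 303,
  .pos 0,
  .scale ⟨687194767360, 0, 0, 0⟩ 526,
  .sub 0 241,
  .pos 0,
  .scale ⟨377957122048, 0, 0, 0⟩ 528,
  .sub 0 247,
  .pos 0,
  .pos 47,
  .pos 186,
  .sub 3 174,
  .pos 0,
  .pos 45,
  .pos 67,
  .pos 8,
  .pos 14]

def chk2 {α : Type} (cst : Z → α) (add sub mul : α → α → α) (scale : Z → α → α)
    (neg inv exp log : α → α) (ok : α → Bool) (isPos : Nat → α → Bool) (isLt : α → Nat → Bool) :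
    List α → Bool
  | [x0, x1, x2, x3] =>
  let v0 := cst ⟨1099511627776, 0, 0, 0⟩; ok v0 && (
  let v1 := mul x1 x2; ok v1 && (
  let v2 := mul x2 x2; ok v2 && (
  let v3 := mul x0 x1; ok v3 && (
  let v4 := mul v3 v2; ok v4 && (
  let v5 := mul v1 v1; ok v5 && (
  let v6 := mul v4 v3; ok v6 && (
  let v7 := cst ⟨549755813888, 0, 0, 0⟩; ok v7 && (
  let v8 := mul v4 x1; ok v8 && (
  let v9 := mul v8 x3; ok v9 && (
  let v10 := scale ⟨549755813888, 0, 0, 0⟩ v9; ok v10 && (
  let v11 := mul x1 x1; ok v11 && (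
  let v12 := mul v10 v10; ok v12 && (
  let v13 := sub v0 v12; ok v13 && (
  let v14 := inv v13; ok v14 && (
  let v15 := mul v10 v14; ok v15 && (
  let v16 := scale ⟨2199023255552, 0, 0, 0⟩ v15; ok v16 && (
  let v17 := scale ⟨2199023255552, 0, 0, 0⟩ v14; ok v17 && (
  let v18 := sub v17 v0; ok v18 && (
  let v19 := add v18 v16; ok v19 && (
  let v20 := mul x3 v14; ok v20 && (
  let v21 := mul x1 v20; ok v21 && (
  let v22 := sub v0 v21; ok v22 && (
  let v23 := add v0 v21; ok v23 && (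
  let v24 := mul v4 v11; ok v24 && (
  let v25 := mul v20 v20; ok v25 && (
  let v26 := scale ⟨10774999203840, 0, 0, 0⟩ v10; ok v26 && (
  let v27 := scale ⟨45768245248, 0, 0, 0⟩ v26; ok v27 && (
  let v28 := cst ⟨183207198720, 0, 0, 0⟩; ok v28 && (
  let v29 := add v27 v28; ok v29 && (
  let v30 := mul v26 v29; ok v30 && (
  let v31 := add v7 v30; ok v31 && (
  let v32 := mul v26 v31; ok v32 && (
  let v33 := add v0 v32; ok v33 && (
  let v34 := mul v26 v33; ok v34 && (
  let v35 := scale ⟨549755813888, 0, 0, 0⟩ v34; ok v35 && (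
  let v36 := add v0 v35; ok v36 && (
  let v37 := mul v33 v36; ok v37 && (
  let v38 := mul v16 v21; ok v38 && (
  let v39 := scale ⟨2199023255552, 0, 0, 0⟩ v18; ok v39 && (
  let v40 := add v38 v39; ok v40 && (
  let v41 := add v40 v4; ok v41 && (
  let v42 := mul v24 v41; ok v42 && (
  let v43 := add v42 v0; ok v43 && (
  let v44 := mul v16 v16; ok v44 && (
  let v45 := scale ⟨2199023255552, 0, 0, 0⟩ v44; ok v45 && (
  let v46 := add v45 v0; ok v46 && (
  let v47 := mul v18 v41; ok v47 && (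
  let v48 := sub v47 v0; ok v48 && (
  let v49 := log v43; ok v49 && (
  let v50 := scale ⟨549755813888, 0, 0, 0⟩ v49; ok v50 && (
  let v51 := exp v50; ok v51 && (
  let v52 := cst ⟨3298534883328, 0, 0, 0⟩; ok v52 && (
  let v53 := inv v52; ok v53 && (
  let v54 := mul v0 v53; ok v54 && (
  let v55 := cst ⟨2199023255552, 0, 0, 0⟩; ok v55 && (
  let v56 := add v42 v55; ok v56 && (
  let v57 := inv v56; ok v57 && (
  let v58 := mul v42 v57; ok v58 && (
  let v59 := mul v58 v58; ok v59 && (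
  let v60 := sub v0 v58; ok v60 && (
  let v61 := mul v59 v54; ok v61 && (
  let v62 := add v0 v61; ok v62 && (
  let v63 := mul v60 v62; ok v63 && (
  let v64 := mul v59 v59; ok v64 && (
  let v65 := scale ⟨219915747328, 0, 0, 0⟩ v64; ok v65 && (
  let v66 := mul v41 v63; ok v66 && (
  let v67 := scale ⟨549755813888, 0, 0, 0⟩ v66; ok v67 && (
  let v68 := mul v41 v65; ok v68 && (
  let v69 := scale ⟨549755813888, 0, 0, 0⟩ v68; ok v69 && (
  let v70 := add v67 v69; ok v70 && (
  let v71 := mul v18 v48; ok v71 && (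
  let v72 := scale ⟨4398046511104, 0, 0, 0⟩ v71; ok v72 && (
  let v73 := mul v18 v24; ok v73 && (
  let v74 := mul v73 v48; ok v74 && (
  let v75 := scale ⟨4398046511104, 0, 0, 0⟩ v74; ok v75 && (
  let v76 := add v75 v55; ok v76 && (
  let v77 := inv v76; ok v77 && (
  let v78 := mul v75 v77; ok v78 && (
  let v79 := mul v78 v78; ok v79 && (
  let v80 := sub v0 v78; ok v80 && (
  let v81 := mul v79 v54; ok v81 && (
  let v82 := add v0 v81; ok v82 && (
  let v83 := mul v80 v82; ok v83 && (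
  let v84 := mul v79 v79; ok v84 && (
  let v85 := scale ⟨219915747328, 0, 0, 0⟩ v84; ok v85 && (
  let v86 := mul v72 v83; ok v86 && (
  let v87 := scale ⟨549755813888, 0, 0, 0⟩ v86; ok v87 && (
  let v88 := sub v87 v70; ok v88 && (
  let v89 := mul v72 v85; ok v89 && (
  let v90 := scale ⟨549755813888, 0, 0, 0⟩ v89; ok v90 && (
  let v91 := add v90 v69; ok v91 && (
  let v92 := add v88 v91; ok v92 && (
  let v93 := mul v3 v67; ok v93 && (
  let v94 := neg v93; ok v94 && (
  let v95 := exp v94; ok v95 && (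
  let v96 := mul v3 v69; ok v96 && (
  let v97 := mul v95 v96; ok v97 && (
  let v98 := mul v3 v88; ok v98 && (
  let v99 := neg v98; ok v99 && (
  let v100 := exp v99; ok v100 && (
  let v101 := mul v3 v91; ok v101 && (
  let v102 := mul v100 v101; ok v102 && (
  let v103 := mul v21 v16; ok v103 && (
  let v104 := add v18 v103; ok v104 && (
  let v105 := inv v104; ok v105 && (
  let v106 := mul v23 v105; ok v106 && (
  let v107 := mul v22 v4; ok v107 && (
  let v108 := mul v107 v106; ok v108 && (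
  let v109 := sub v0 v11; ok v109 && (
  let v110 := mul v25 v109; ok v110 && (
  let v111 := mul v8 v8; ok v111 && (
  let v112 := sub v0 v25; ok v112 && (
  let v113 := mul v109 v112; ok v113 && (
  let v114 := mul v24 v48; ok v114 && (
  let v115 := inv v43; ok v115 && (
  let v116 := mul v114 v115; ok v116 && (
  let v117 := add v18 v116; ok v117 && (
  let v118 := mul v43 v117; ok v118 && (
  let v119 := mul v118 v118; ok v119 && (
  let v120 := inv v119; ok v120 && (
  let v121 := mul v113 v120; ok v121 && (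
  let v122 := add v18 v24; ok v122 && (
  let v123 := mul v0 v122; ok v123 && (
  let v124 := inv v123; ok v124 && (
  let v125 := mul x0 v124; ok v125 && (
  let v126 := mul v125 v125; ok v126 && (
  let v127 := mul v126 v113; ok v127 && (
  let v128 := cst ⟨45812285440, 0, 0, 0⟩; ok v128 && (
  let v129 := scale ⟨1527119872, 0, 0, 0⟩ v127; ok v129 && (
  let v130 := sub v128 v129; ok v130 && (
  let v131 := mul v127 v130; ok v131 && (
  let v132 := sub v7 v131; ok v132 && (
  let v133 := mul v127 v132; ok v133 && (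
  let v134 := sub v0 v133; ok v134 && (
  let v135 := add v95 v0; ok v135 && (
  let v136 := mul v95 v95; ok v136 && (
  let v137 := add v136 v0; ok v137 && (
  let v138 := mul v95 v134; ok v138 && (
  let v139 := scale ⟨2199023255552, 0, 0, 0⟩ v138; ok v139 && (
  let v140 := add v137 v139; ok v140 && (
  let v141 := scale ⟨4398046511104, 0, 0, 0⟩ v97; ok v141 && (
  let v142 := sub v140 v141; ok v142 && (
  let v143 := inv v135; ok v143 && (
  let v144 := mul v142 v143; ok v144 && (
  let v145 := add v144 v135; ok v145 && (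
  let v146 := mul v95 v108; ok v146 && (
  let v147 := scale ⟨549755813888, 0, 0, 0⟩ v146; ok v147 && (
  let v148 := mul v147 v145; ok v148 && (
  let v149 := sub v142 v148; ok v149 && (
  isPos 4 v142 && (
  isPos 4 v149 && (
  let v150 := mul v3 v70; ok v150 && (
  let v151 := scale ⟨2199023255552, 0, 0, 0⟩ v150; ok v151 && (
  let v152 := scale ⟨183274307584, 0, 0, 0⟩ v151; ok v152 && (
  let v153 := sub v7 v152; ok v153 && (
  let v154 := mul v151 v153; ok v154 && (
  let v155 := sub v0 v154; ok v155 && (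
  let v156 := mul v70 v155; ok v156 && (
  let v157 := inv v149; ok v157 && (
  let v158 := mul v156 v157; ok v158 && (
  let v159 := mul v3 v158; ok v159 && (
  let v160 := add v159 v7; ok v160 && (
  let v161 := inv v160; ok v161 && (
  let v162 := mul v158 v161; ok v162 && (
  let v163 := mul v3 v162; ok v163 && (
  let v164 := mul v108 v163; ok v164 && (
  let v165 := scale ⟨549755813888, 0, 0, 0⟩ v164; ok v165 && (
  let v166 := sub v0 v165; ok v166 && (
  let v167 := sub v0 v164; ok v167 && (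
  let v168 := inv v167; ok v168 && (
  let v169 := mul v166 v168; ok v169 && (
  let v170 := add v164 v0; ok v170 && (
  let v171 := mul v95 v170; ok v171 && (
  let v172 := mul v106 v169; ok v172 && (
  let v173 := mul x1 v162; ok v173 && (
  let v174 := mul v172 v173; ok v174 && (
  let v175 := mul v164 v169; ok v175 && (
  isPos 4 v167 && (
  let v176 := mul v22 v23; ok v176 && (
  let v177 := add v18 v4; ok v177 && (
  let v178 := mul v21 v18; ok v178 && (
  let v179 := mul v178 v16; ok v179 && (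
  let v180 := scale ⟨2199023255552, 0, 0, 0⟩ v179; ok v180 && (
  let v181 := add v46 v180; ok v181 && (
  let v182 := mul v177 v181; ok v182 && (
  let v183 := inv v182; ok v183 && (
  let v184 := mul v176 v183; ok v184 && (
  let v185 := mul v4 v184; ok v185 && (
  isPos 4 v88 && (
  let v186 := mul v127 v115; ok v186 && (
  let v187 := scale ⟨1527119872, 0, 0, 0⟩ v186; ok v187 && (
  let v188 := sub v128 v187; ok v188 && (
  let v189 := mul v186 v188; ok v189 && (
  let v190 := sub v7 v189; ok v190 && (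
  let v191 := mul v186 v190; ok v191 && (
  let v192 := sub v0 v191; ok v192 && (
  let v193 := add v100 v0; ok v193 && (
  let v194 := mul v100 v100; ok v194 && (
  let v195 := add v194 v0; ok v195 && (
  let v196 := mul v100 v192; ok v196 && (
  let v197 := scale ⟨2199023255552, 0, 0, 0⟩ v196; ok v197 && (
  let v198 := add v195 v197; ok v198 && (
  let v199 := scale ⟨4398046511104, 0, 0, 0⟩ v102; ok v199 && (
  let v200 := sub v198 v199; ok v200 && (
  let v201 := inv v193; ok v201 && (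
  let v202 := mul v200 v201; ok v202 && (
  let v203 := add v202 v193; ok v203 && (
  let v204 := mul v100 v185; ok v204 && (
  let v205 := scale ⟨549755813888, 0, 0, 0⟩ v204; ok v205 && (
  let v206 := mul v205 v203; ok v206 && (
  let v207 := sub v200 v206; ok v207 && (
  isPos 4 v200 && (
  isPos 4 v207 && (
  let v208 := mul v3 v92; ok v208 && (
  let v209 := scale ⟨2199023255552, 0, 0, 0⟩ v208; ok v209 && (
  let v210 := scale ⟨183274307584, 0, 0, 0⟩ v209; ok v210 && (
  let v211 := sub v7 v210; ok v211 && (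
  let v212 := mul v209 v211; ok v212 && (
  let v213 := sub v0 v212; ok v213 && (
  let v214 := mul v92 v213; ok v214 && (
  let v215 := inv v207; ok v215 && (
  let v216 := mul v214 v215; ok v216 && (
  let v217 := mul v3 v216; ok v217 && (
  let v218 := add v217 v7; ok v218 && (
  let v219 := inv v218; ok v219 && (
  let v220 := mul v216 v219; ok v220 && (
  let v221 := mul v3 v220; ok v221 && (
  let v222 := mul v185 v221; ok v222 && (
  let v223 := mul x1 v220; ok v223 && (
  let v224 := add v10 v0; ok v224 && (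
  let v225 := inv v224; ok v225 && (
  let v226 := mul v10 v225; ok v226 && (
  let v227 := scale ⟨2199023255552, 0, 0, 0⟩ v226; ok v227 && (
  let v228 := sub v0 v227; ok v228 && (
  let v229 := sub v0 v10; ok v229 && (
  let v230 := mul x3 v225; ok v230 && (
  let v231 := mul v230 v228; ok v231 && (
  let v232 := add v23 v231; ok v232 && (
  let v233 := scale ⟨224412041216, 0, 0, 0⟩ v14; ok v233 && (
  let v234 := inv v37; ok v234 && (
  let v235 := mul v233 v234; ok v235 && (
  let v236 := scale ⟨4398046511104, 0, 0, 0⟩ v0; ok v236 && (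
  let v237 := mul x0 v20; ok v237 && (
  let v238 := add v236 v237; ok v238 && (
  let v239 := inv v238; ok v239 && (
  let v240 := mul x0 v239; ok v240 && (
  let v241 := mul v0 v239; ok v241 && (
  let v242 := mul v241 v23; ok v242 && (
  let v243 := mul v242 v235; ok v243 && (
  let v244 := mul v240 v23; ok v244 && (
  let v245 := mul v244 v235; ok v245 && (
  let v246 := sub v0 v245; ok v246 && (
  let v247 := inv v246; ok v247 && (
  let v248 := mul v171 v245; ok v248 && (
  let v249 := sub v0 v248; ok v249 && (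
  let v250 := inv v249; ok v250 && (
  let v251 := scale ⟨2199023255552, 0, 0, 0⟩ v5; ok v251 && (
  let v252 := add v251 v0; ok v252 && (
  let v253 := add v5 v0; ok v253 && (
  let v254 := scale ⟨549755813888, 0, 0, 0⟩ v162; ok v254 && (
  let v255 := inv x0; ok v255 && (
  let v256 := mul x1 v255; ok v256 && (
  let v257 := scale ⟨2199023255552, 0, 0, 0⟩ v256; ok v257 && (
  let v258 := add v254 v257; ok v258 && (
  let v259 := scale ⟨549755813888, 0, 0, 0⟩ v258; ok v259 && (
  let v260 := mul v10 v20; ok v260 && (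
  let v261 := sub v0 v110; ok v261 && (
  let v262 := mul v10 v21; ok v262 && (
  let v263 := scale ⟨2199023255552, 0, 0, 0⟩ v262; ok v263 && (
  let v264 := sub v261 v263; ok v264 && (
  let v265 := mul v260 v260; ok v265 && (
  let v266 := add v264 v265; ok v266 && (
  let v267 := add v266 v0; ok v267 && (
  let v268 := scale ⟨549755813888, 0, 0, 0⟩ v267; ok v268 && (
  let v269 := scale ⟨549755813888, 0, 0, 0⟩ v24; ok v269 && (
  let v270 := sub v14 v269; ok v270 && (
  let v271 := mul v111 v261; ok v271 && (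
  let v272 := mul v271 v13; ok v272 && (
  let v273 := scale ⟨137438953472, 0, 0, 0⟩ v272; ok v273 && (
  let v274 := add v270 v273; ok v274 && (
  let v275 := mul v268 v274; ok v275 && (
  let v276 := add v171 v0; ok v276 && (
  let v277 := mul v276 v247; ok v277 && (
  let v278 := mul v171 v250; ok v278 && (
  let v279 := add v277 v278; ok v279 && (
  let v280 := mul v245 v279; ok v280 && (
  let v281 := add v175 v280; ok v281 && (
  let v282 := mul v281 v5; ok v282 && (
  let v283 := mul v276 v245; ok v283 && (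
  let v284 := mul v283 v247; ok v284 && (
  let v285 := add v175 v284; ok v285 && (
  let v286 := mul v285 v5; ok v286 && (
  let v287 := scale ⟨223338299392, 0, 0, 0⟩ v286; ok v287 && (
  let v288 := add v7 v287; ok v288 && (
  let v289 := mul v286 v288; ok v289 && (
  let v290 := add v0 v289; ok v290 && (
  let v291 := scale ⟨893353197568, 0, 0, 0⟩ v282; ok v291 && (
  let v292 := add v0 v291; ok v292 && (
  let v293 := mul v282 v292; ok v293 && (
  let v294 := add v0 v293; ok v294 && (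
  let v295 := mul v227 v230; ok v295 && (
  let v296 := mul v295 v252; ok v296 && (
  let v297 := mul v296 v294; ok v297 && (
  let v298 := mul v275 v290; ok v298 && (
  let v299 := add v51 v7; ok v299 && (
  let v300 := mul v297 v299; ok v300 && (
  let v301 := add v298 v300; ok v301 && (
  let v302 := add v51 v0; ok v302 && (
  let v303 := mul v297 v302; ok v303 && (
  let v304 := mul v253 v302; ok v304 && (
  let v305 := mul v304 v230; ok v305 && (
  let v306 := mul v305 v229; ok v306 && (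
  let v307 := mul v301 v174; ok v307 && (
  let v308 := mul v306 v259; ok v308 && (
  let v309 := add v307 v308; ok v309 && (
  let v310 := mul x1 v232; ok v310 && (
  let v311 := inv v51; ok v311 && (
  let v312 := mul v310 v311; ok v312 && (
  let v313 := scale ⟨549755813888, 0, 0, 0⟩ v312; ok v313 && (
  let v314 := mul v22 v313; ok v314 && (
  let v315 := add v314 v309; ok v315 && (
  let v316 := mul v4 v315; ok v316 && (
  let v317 := mul v0 v316; ok v317 && (
  let v318 := mul v301 v276; ok v318 && (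
  let v319 := mul v318 v247; ok v319 && (
  let v320 := mul v303 v171; ok v320 && (
  let v321 := mul v320 v250; ok v321 && (
  let v322 := add v319 v321; ok v322 && (
  let v323 := mul v22 v317; ok v323 && (
  let v324 := mul v243 v322; ok v324 && (
  let v325 := add v323 v324; ok v325 && (
  let v326 := mul v111 v325; ok v326 && (
  let v327 := mul v326 v311; ok v327 && (
  let v328 := sub v0 v327; ok v328 && (
  let v329 := inv v328; ok v329 && (
  let v330 := mul v325 v329; ok v330 && (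
  let v331 := mul v4 v330; ok v331 && (
  let v332 := mul v111 v330; ok v332 && (
  let v333 := mul v332 v311; ok v333 && (
  let v334 := sub v0 v333; ok v334 && (
  let v335 := mul v48 v334; ok v335 && (
  let v336 := sub v335 v331; ok v336 && (
  let v337 := inv v336; ok v337 && (
  let v338 := mul v331 v337; ok v338 && (
  let v339 := sub v51 v332; ok v339 && (
  let v340 := inv v339; ok v340 && (
  let v341 := mul v338 v221; ok v341 && (
  let v342 := scale ⟨549755813888, 0, 0, 0⟩ v341; ok v342 && (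
  let v343 := sub v0 v342; ok v343 && (
  let v344 := sub v0 v341; ok v344 && (
  let v345 := inv v344; ok v345 && (
  let v346 := mul v343 v345; ok v346 && (
  let v347 := mul x1 v340; ok v347 && (
  let v348 := mul v223 v337; ok v348 && (
  let v349 := mul v348 v346; ok v349 && (
  let v350 := add v347 v349; ok v350 && (
  let v351 := mul v6 v330; ok v351 && (
  let v352 := mul v340 v351; ok v352 && (
  let v353 := mul v221 v337; ok v353 && (
  let v354 := mul v353 v346; ok v354 && (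
  let v355 := mul v354 v331; ok v355 && (
  let v356 := add v352 v355; ok v356 && (
  let v357 := scale ⟨223338299392, 0, 0, 0⟩ v356; ok v357 && (
  let v358 := add v7 v357; ok v358 && (
  let v359 := mul v356 v358; ok v359 && (
  let v360 := add v0 v359; ok v360 && (
  let v361 := mul v350 v360; ok v361 && (
  let v362 := mul v361 v329; ok v362 && (
  let v363 := mul v362 v322; ok v363 && (
  let v364 := mul v244 v22; ok v364 && (
  let v365 := cst ⟨7696581394432, 0, 0, 0⟩; ok v365 && (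
  let v366 := cst ⟨10995116277760, 0, 0, 0⟩; ok v366 && (
  let v367 := inv v366; ok v367 && (
  let v368 := mul v365 v367; ok v368 && (
  let v369 := mul v224 v23; ok v369 && (
  let v370 := mul v369 v368; ok v370 && (
  let v371 := mul v177 v105; ok v371 && (
  let v372 := mul v21 v371; ok v372 && (
  let v373 := scale ⟨549755813888, 0, 0, 0⟩ v222; ok v373 && (
  let v374 := sub v0 v373; ok v374 && (
  let v375 := sub v0 v222; ok v375 && (
  let v376 := inv v375; ok v376 && (
  let v377 := mul v374 v376; ok v377 && (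
  let v378 := mul v377 v185; ok v378 && (
  let v379 := mul v111 v121; ok v379 && (
  let v380 := scale ⟨733097230336, 0, 0, 0⟩ v379; ok v380 && (
  let v381 := sub v0 v380; ok v381 && (
  let v382 := mul v121 v381; ok v382 && (
  let v383 := mul v88 v88; ok v383 && (
  let v384 := mul v11 v383; ok v384 && (
  let v385 := add v382 v384; ok v385 && (
  let v386 := mul v378 v223; ok v386 && (
  let v387 := add v385 v0; ok v387 && (
  let v388 := mul v386 v387; ok v388 && (
  let v389 := sub v385 v388; ok v389 && (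
  let v390 := scale ⟨366548615168, 0, 0, 0⟩ v44; ok v390 && (
  let v391 := sub v0 v390; ok v391 && (
  let v392 := mul v25 v391; ok v392 && (
  let v393 := add v389 v392; ok v393 && (
  let v394 := mul v371 v393; ok v394 && (
  let v395 := mul v372 v372; ok v395 && (
  let v396 := add v0 v395; ok v396 && (
  let v397 := inv v396; ok v397 && (
  let v398 := mul v394 v397; ok v398 && (
  let v399 := sub v0 v338; ok v399 && (
  let v400 := mul v399 v398; ok v400 && (
  let v401 := sub v0 v386; ok v401 && (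
  isPos 4 v401 && (
  isPos 4 v398 && (
  isPos 4 v399 && (
  let v402 := mul v362 v238; ok v402 && (
  let v403 := mul v402 v315; ok v403 && (
  let v404 := inv v23; ok v404 && (
  let v405 := mul v403 v404; ok v405 && (
  let v406 := mul v3 v400; ok v406 && (
  let v407 := scale ⟨549755813888, 0, 0, 0⟩ v406; ok v407 && (
  let v408 := sub v0 v407; ok v408 && (
  let v409 := mul v400 v408; ok v409 && (
  let v410 := neg v409; ok v410 && (
  let v411 := mul x1 x3; ok v411 && (
  let v412 := mul v411 v224; ok v412 && (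
  let v413 := mul v412 v14; ok v413 && (
  let v414 := mul v2 v413; ok v414 && (
  let v415 := add v410 v414; ok v415 && (
  let v416 := mul v410 v414; ok v416 && (
  let v417 := mul v3 v416; ok v417 && (
  let v418 := add v415 v417; ok v418 && (
  let v419 := mul v11 v41; ok v419 && (
  let v420 := scale ⟨412316860416, 0, 0, 0⟩ v42; ok v420 && (
  let v421 := sub v7 v420; ok v421 && (
  let v422 := mul v419 v421; ok v422 && (
  let v423 := mul v2 v422; ok v423 && (
  let v424 := neg v423; ok v424 && (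
  let v425 := add v418 v424; ok v425 && (
  let v426 := mul v418 v424; ok v426 && (
  let v427 := mul v3 v426; ok v427 && (
  let v428 := add v425 v427; ok v428 && (
  let v429 := mul x1 v330; ok v429 && (
  let v430 := mul v429 v404; ok v430 && (
  let v431 := mul v2 v430; ok v431 && (
  let v432 := add v428 v431; ok v432 && (
  let v433 := mul v428 v431; ok v433 && (
  let v434 := mul v3 v433; ok v434 && (
  let v435 := add v432 v434; ok v435 && (
  let v436 := mul v2 v370; ok v436 && (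
  let v437 := sub v435 v436; ok v437 && (
  let v438 := mul v4 v370; ok v438 && (
  let v439 := add v0 v438; ok v439 && (
  let v440 := inv v439; ok v440 && (
  let v441 := mul v437 v440; ok v441 && (
  let v442 := mul x1 v8; ok v442 && (
  let v443 := mul v442 v330; ok v443 && (
  let v444 := mul v443 v340; ok v444 && (
  let v445 := mul v2 v444; ok v445 && (
  let v446 := add v441 v445; ok v446 && (
  let v447 := mul v441 v445; ok v447 && (
  let v448 := mul v3 v447; ok v448 && (
  let v449 := add v446 v448; ok v449 && (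
  let v450 := mul v3 v449; ok v450 && (
  let v451 := add v0 v450; ok v451 && (
  let v452 := mul v363 v245; ok v452 && (
  let v453 := mul v4 v364; ok v453 && (
  let v454 := mul v405 v453; ok v454 && (
  let v455 := add v452 v454; ok v455 && (
  let v456 := mul v2 v455; ok v456 && (
  let v457 := add v363 v405; ok v457 && (
  let v458 := mul v2 v457; ok v458 && (
  let v459 := mul v456 v451; ok v459 && (
  let v460 := add v449 v459; ok v460 && (
  let v461 := add v460 v458; ok v461 && (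
  let v462 := neg v461; ok v462 && (
  let v463 := scale ⟨1073741824, 0, 0, 0⟩ v2; ok v463 && (
  let v464 := sub v462 v463; ok v464 && (
  let v465 := sub v19 v0; ok v465 && (
  let v466 := add v465 v55; ok v466 && (
  let v467 := scale ⟨2199023255552, 0, 0, 0⟩ v368; ok v467 && (
  let v468 := sub v466 v467; ok v468 && (
  let v469 := mul v224 v468; ok v469 && (
  let v470 := mul v465 v467; ok v470 && (
  let v471 := add v470 v0; ok v471 && (
  let v472 := inv v471; ok v472 && (
  let v473 := mul v469 v472; ok v473 && (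
  let v474 := mul v241 v322; ok v474 && (
  let v475 := scale ⟨549755813888, 0, 0, 0⟩ v235; ok v475 && (
  let v476 := add v16 v475; ok v476 && (
  let v477 := mul v474 v476; ok v477 && (
  let v478 := scale ⟨2199023255552, 0, 0, 0⟩ v477; ok v478 && (
  let v479 := add v317 v478; ok v479 && (
  let v480 := scale ⟨2199023255552, 0, 0, 0⟩ v479; ok v480 && (
  let v481 := mul v480 v329; ok v481 && (
  let v482 := mul v8 v330; ok v482 && (
  let v483 := sub v23 v482; ok v483 && (
  let v484 := inv v483; ok v484 && (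
  let v485 := mul v481 v484; ok v485 && (
  let v486 := sub v473 v485; ok v486 && (
  let v487 := mul v237 v237; ok v487 && (
  let v488 := cst ⟨14293651161088, 0, 0, 0⟩; ok v488 && (
  let v489 := mul v488 v367; ok v489 && (
  let v490 := mul v487 v489; ok v490 && (
  let v491 := mul v0 v0; ok v491 && (
  let v492 := scale ⟨27487790694400, 0, 0, 0⟩ v491; ok v492 && (
  let v493 := add v490 v492; ok v493 && (
  let v494 := mul v370 v440; ok v494 && (
  let v495 := sub v39 v4; ok v495 && (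
  let v496 := sub v495 v38; ok v496 && (
  let v497 := mul v3 v0; ok v497 && (
  let v498 := mul v23 v322; ok v498 && (
  let v499 := mul v498 v239; ok v499 && (
  let v500 := add v309 v499; ok v500 && (
  let v501 := add v482 v55; ok v501 && (
  let v502 := mul x0 v501; ok v502 && (
  let v503 := mul v493 v494; ok v503 && (
  let v504 := mul v329 v502; ok v504 && (
  let v505 := mul v497 v500; ok v505 && (
  let v506 := mul v504 v505; ok v506 && (
  let v507 := sub v503 v506; ok v507 && (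
  let v508 := scale ⟨549755813888, 0, 0, 0⟩ v482; ok v508 && (
  let v509 := add v0 v508; ok v509 && (
  let v510 := mul v329 v509; ok v510 && (
  let v511 := mul v4 v22; ok v511 && (
  let v512 := mul v511 v232; ok v512 && (
  let v513 := mul v23 v51; ok v513 && (
  let v514 := inv v513; ok v514 && (
  let v515 := mul v512 v514; ok v515 && (
  let v516 := mul v510 v515; ok v516 && (
  let v517 := sub v496 v516; ok v517 && (
  let v518 := mul v235 v507; ok v518 && (
  let v519 := sub v0 v235; ok v519 && (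
  let v520 := mul v11 v517; ok v520 && (
  let v521 := mul v519 v520; ok v521 && (
  let v522 := mul v493 v521; ok v522 && (
  let v523 := add v518 v522; ok v523 && (
  isPos 4 v246 && (
  isPos 4 v249 && (
  let v524 := scale ⟨2199023255552, 0, 0, 0⟩ v326; ok v524 && (
  let v525 := sub v51 v524; ok v525 && (
  isPos 4 v525 && (
  isPos 4 v336 && (
  let v526 := sub v7 v222; ok v526 && (
  isPos 4 v526 && (
  let v527 := scale ⟨687194767360, 0, 0, 0⟩ v0; ok v527 && (
  let v528 := sub v527 v286; ok v528 && (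
  isPos 4 v528 && (
  let v529 := scale ⟨377957122048, 0, 0, 0⟩ v0; ok v529 && (
  let v530 := sub v529 v282; ok v530 && (
  isPos 4 v530 && (
  isPos 4 v483 && (
  isPos 4 v344 && (
  let v531 := sub v527 v356; ok v531 && (
  isPos 4 v531 && (
  isPos 4 v486 && (
  isPos 4 v464 && (
  isPos 4 v523 && (
  isPos 4 v517 && (
  true)))))))))))))))))))))))))))))))))))))))))))))))))))))))))))))))))))))))))))))))))))))))))))))))))))))))))))))))))))))))))))))))))))))))))))))))))))))))))))))))))))))))))))))))))))))))))))))))))))))))))))))))))))))))))))))))))))))))))))))))))))))))))))))))))))))))))))))))))))))))))))))))))))))))))))))))))))))))))))))))))))))))))))))))))))))))))))))))))))))))))))))))))))))))))))))))))))))))))))))))))))))))))))))))))))))))))))))))))))))))))))))))))))))))))))))))))))))))))))))))))))))))))))))))))))))))))))))))))))))))))))))))))))))))))))))))))))))))))))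
  | _ => false

set_option maxRecDepth 1000000 in
theorem chk2_eq (O : Ops) (m : List O.α)
    (h : chk2 O.cst O.add O.sub O.mul O.scale O.neg O.inv O.exp O.log O.ok O.isPos O.isLt m = true) :
    runG O 4 prog2 m = true := by
  match m, h with
  | [x0, x1, x2, x3], h => exact h

def chkB2 : List opsE.α → Bool :=
  chk2 opsE.cst opsE.add opsE.sub opsE.mul opsE.scale opsE.neg opsE.inv opsE.exp opsE.log opsE.ok opsE.isPos opsE.isLt

theorem chkB2_eq (m : List opsE.α) (h : chkB2 m = true) : runG opsE 4 prog2 m = true :=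
  chk2_eq opsE m h

def prog3 : List Op := [
  .const ⟨1099511627776, 0, 0, 0⟩,
  .mul 2 3,
  .mul 4 4,
  .mul 3 4,
  .mul 0 1,
  .mul 3 3,
  .mul 1 2,
  .const ⟨549755813888, 0, 0, 0⟩,
  .mul 3 9,
  .mul 0 12,
  .scale ⟨549755813888, 0, 0, 0⟩ 0,
  .mul 12 12,
  .mul 1 1,
  .sub 12 0,
  .inv 0,
  .mul 4 0,
  .scale ⟨2199023255552, 0, 0, 0⟩ 0,
  .scale ⟨2199023255552, 0, 0, 0⟩ 2,
  .sub 0 17,
  .add 0 2,
  .mul 23 5,
  .mul 22 0,
  .sub 21 0,
  .add 22 1,
  .mul 19 12,
  .mul 4 4,
  .scale ⟨10774999203840, 0, 0, 0⟩ 15,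
  .scale ⟨45768245248, 0, 0, 0⟩ 0,
  .const ⟨183207198720, 0, 0, 0⟩,
  .add 1 0,
  .mul 3 0,
  .add 23 0,
  .mul 5 0,
  .add 32 0,
  .mul 7 0,
  .scale ⟨549755813888, 0, 0, 0⟩ 0,
  .add 35 0,
  .mul 3 0,
  .mul 21 16,
  .scale ⟨2199023255552, 0, 0, 0⟩ 20,
  .add 1 0,
  .add 0 36,
  .mul 17 0,
  .add 0 42,
  .mul 27 27,
  .scale ⟨2199023255552, 0, 0, 0⟩ 0,
  .add 0 45,
  .mul 28 5,
  .sub 0 47,
  .log 5,
  .scale ⟨549755813888, 0, 0, 0⟩ 0,
  .exp 0,
  .const ⟨3298534883328, 0, 0, 0⟩,
  .inv 0,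
  .mul 53 0,
  .const ⟨2199023255552, 0, 0, 0⟩,
  .add 13 0,
  .inv 0,
  .mul 15 0,
  .mul 0 0,
  .sub 59 1,
  .mul 1 6,
  .add 61 0,
  .mul 2 0,
  .mul 4 4,
  .scale ⟨219915747328, 0, 0, 0⟩ 0,
  .mul 24 2,
  .scale ⟨549755813888, 0, 0, 0⟩ 0,
  .mul 26 2,
  .scale ⟨549755813888, 0, 0, 0⟩ 0,
  .add 2 0,
  .mul 52 22,
  .scale ⟨4398046511104, 0, 0, 0⟩ 0,
  .mul 54 48,
  .mul 0 25,
  .scale ⟨4398046511104, 0, 0, 0⟩ 0,
  .add 0 20,
  .inv 0,
  .mul 2 0,
  .mul 0 0,
  .sub 79 1,
  .mul 1 26,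
  .add 81 0,
  .mul 2 0,
  .mul 4 4,
  .scale ⟨219915747328, 0, 0, 0⟩ 0,
  .mul 13 2,
  .scale ⟨549755813888, 0, 0, 0⟩ 0,
  .sub 0 17,
  .mul 16 3,
  .scale ⟨549755813888, 0, 0, 0⟩ 0,
  .add 0 21,
  .add 3 0,
  .mul 89 25,
  .neg 0,
  .exp 0,
  .mul 92 26,
  .mul 1 0,
  .mul 94 9,
  .neg 0,
  .exp 0,
  .mul 97 9,
  .mul 1 0,
  .mul 81 86,
  .add 85 0,
  .inv 0,
  .mul 82 0,
  .mul 84 102,
  .mul 0 1,
  .sub 108 97,
  .mul 84 0,
  .mul 102 102,
  .sub 111 86,
  .mul 3 0,
  .mul 89 65,
  .inv 71,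
  .mul 1 0,
  .add 98 0,
  .mul 74 0,
  .mul 0 0,
  .inv 0,
  .mul 7 0,
  .add 103 97,
  .mul 122 0,
  .inv 0,
  .mul 125 0,
  .mul 0 0,
  .mul 0 13,
  .const ⟨45812285440, 0, 0, 0⟩,
  .scale ⟨1527119872, 0, 0, 0⟩ 1,
  .sub 1 0,
  .mul 3 0,
  .sub 124 0,
  .mul 5 0,
  .sub 133 0,
  .add 39 134,
  .mul 40 40,
  .add 0 136,
  .mul 42 3,
  .scale ⟨2199023255552, 0, 0, 0⟩ 0,
  .add 2 0,
  .scale ⟨4398046511104, 0, 0, 0⟩ 43,
  .sub 1 0,
  .inv 7,
  .mul 1 0,
  .add 0 9,
  .mul 50 37,
  .scale ⟨549755813888, 0, 0, 0⟩ 0,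
  .mul 0 2,
  .sub 6 0,
  .pos 7,
  .pos 0,
  .mul 146 79,
  .scale ⟨2199023255552, 0, 0, 0⟩ 0,
  .scale ⟨183274307584, 0, 0, 0⟩ 0,
  .sub 145 0,
  .mul 2 0,
  .sub 154 0,
  .mul 85 0,
  .inv 7,
  .mul 1 0,
  .mul 155 0,
  .add 0 152,
  .inv 0,
  .mul 3 0,
  .mul 159 0,
  .mul 55 0,
  .scale ⟨549755813888, 0, 0, 0⟩ 0,
  .sub 165 0,
  .sub 166 2,
  .inv 0,
  .mul 2 0,
  .add 5 169,
  .mul 75 0,
  .mul 65 2,
  .mul 174 10,
  .mul 1 0,
  .mul 10 5,
  .pos 8,
  .mul 153 152,
  .add 158 172,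
  .mul 156 159,
  .mul 0 162,
  .scale ⟨2199023255552, 0, 0, 0⟩ 0,
  .add 134 0,
  .mul 4 0,
  .inv 0,
  .mul 7 0,
  .mul 180 0,
  .pos 97,
  .mul 58 70,
  .scale ⟨1527119872, 0, 0, 0⟩ 0,
  .sub 59 0,
  .mul 2 0,
  .sub 182 0,
  .mul 4 0,
  .sub 191 0,
  .add 92 192,
  .mul 93 93,
  .add 0 194,
  .mul 95 3,
  .scale ⟨2199023255552, 0, 0, 0⟩ 0,
  .add 2 0,
  .scale ⟨4398046511104, 0, 0, 0⟩ 96,
  .sub 1 0,
  .inv 7,
  .mul 1 0,
  .add 0 9,
  .mul 103 18,
  .scale ⟨549755813888, 0, 0, 0⟩ 0,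
  .mul 0 2,
  .sub 6 0,
  .pos 7,
  .pos 0,
  .mul 204 115,
  .scale ⟨2199023255552, 0, 0, 0⟩ 0,
  .scale ⟨183274307584, 0, 0, 0⟩ 0,
  .sub 203 0,
  .mul 2 0,
  .sub 212 0,
  .mul 121 0,
  .inv 7,
  .mul 1 0,
  .mul 213 0,
  .add 0 210,
  .inv 0,
  .mul 3 0,
  .mul 217 0,
  .mul 36 0,
  .mul 224 2,
  .add 213 223,
  .inv 0,
  .mul 215 0,
  .scale ⟨2199023255552, 0, 0, 0⟩ 0,
  .sub 227 0,
  .sub 228 218,
  .mul 233 4,
  .mul 0 2,
  .add 208 0,
  .scale ⟨224412041216, 0, 0, 0⟩ 218,
  .inv 196,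
  .mul 1 0,
  .scale ⟨4398046511104, 0, 0, 0⟩ 235,
  .mul 237 216,
  .add 1 0,
  .inv 0,
  .mul 240 0,
  .mul 240 1,
  .mul 0 218,
  .mul 0 7,
  .mul 3 220,
  .mul 0 9,
  .sub 245 0,
  .inv 0,
  .mul 76 2,
  .sub 248 0,
  .inv 0,
  .mul 228 251,
  .mul 0 89,
  .inv 232,
  .mul 1 0,
  .scale ⟨549755813888, 0, 0, 0⟩ 0,
  .sub 255 0,
  .sub 256 2,
  .inv 0,
  .mul 2 0,
  .mul 86 0,
  .mul 6 1,
  .mul 0 256,
  .pos 5,
  .scale ⟨1374389534720, 0, 0, 0⟩ 0,
  .sub 256 0,
  .pos 0,
  .scale ⟨3092376453120, 0, 0, 0⟩ 2,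
  .add 0 210,
  .mul 4 0,
  .add 267 0,
  .scale ⟨1546188226560, 0, 0, 0⟩ 6,
  .add 0 269,
  .mul 8 0,
  .add 271 0,
  .mul 262 252,
  .sub 273 163,
  .mul 264 253,
  .scale ⟨2199023255552, 0, 0, 0⟩ 0,
  .sub 2 0,
  .mul 4 4,
  .add 1 0,
  .add 0 279,
  .scale ⟨549755813888, 0, 0, 0⟩ 0,
  .scale ⟨549755813888, 0, 0, 0⟩ 257,
  .sub 268 0,
  .mul 172 9,
  .mul 0 271,
  .scale ⟨137438953472, 0, 0, 0⟩ 0,
  .add 3 0,
  .mul 6 0,
  .add 117 288,
  .mul 0 42,
  .mul 119 40,
  .add 1 0,
  .mul 47 0,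
  .add 118 0,
  .mul 0 289,
  .mul 6 50,
  .mul 0 49,
  .add 122 0,
  .mul 0 293,
  .scale ⟨223338299392, 0, 0, 0⟩ 0,
  .add 293 0,
  .mul 2 0,
  .add 302 0,
  .scale ⟨893353197568, 0, 0, 0⟩ 8,
  .add 304 0,
  .mul 10 0,
  .add 306 0,
  .mul 80 77,
  .mul 0 40,
  .mul 0 2,
  .mul 22 7,
  .add 260 304,
  .mul 2 0,
  .add 2 0,
  .add 263 314,
  .mul 5 0,
  .mul 44 1,
  .mul 0 87,
  .mul 0 89,
  .mul 5 145,
  .mul 1 60,
  .add 1 0,
  .mul 314 90,
  .inv 272,
  .mul 1 0,
  .scale ⟨549755813888, 0, 0, 0⟩ 0,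
  .mul 304 0,
  .mul 323 5,
  .add 1 0,
  .mul 329 0,
  .mul 16 41,
  .mul 0 84,
  .mul 16 161,
  .mul 0 83,
  .add 2 0,
  .mul 313 5,
  .mul 93 1,
  .add 1 0,
  .mul 227 0,
  .mul 0 15,
  .sub 340 0,
  .inv 0,
  .mul 4 0,
  .mul 339 0,
  .mul 233 1,
  .mul 0 21,
  .sub 346 0,
  .mul 299 0,
  .sub 0 4,
  .inv 0,
  .mul 6 0,
  .sub 300 6,
  .inv 0,
  .mul 2 132,
  .scale ⟨549755813888, 0, 0, 0⟩ 0,
  .sub 355 0,
  .sub 356 2,
  .inv 0,
  .mul 2 0,
  .mul 361 6,
  .mul 137 10,
  .mul 0 2,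
  .add 2 0,
  .mul 357 20,
  .mul 11 0,
  .mul 144 15,
  .mul 0 7,
  .mul 0 23,
  .add 3 0,
  .scale ⟨223338299392, 0, 0, 0⟩ 0,
  .add 363 0,
  .mul 2 0,
  .add 372 0,
  .mul 10 0,
  .mul 0 32,
  .mul 0 40,
  .mul 132 354,
  .const ⟨7696581394432, 0, 0, 0⟩,
  .const ⟨10995116277760, 0, 0, 0⟩,
  .inv 0,
  .mul 2 0,
  .mul 157 358,
  .mul 0 1,
  .mul 206 278,
  .mul 363 0,
  .scale ⟨549755813888, 0, 0, 0⟩ 163,
  .sub 386 0,
  .sub 387 165,
  .inv 0,
  .mul 2 0,
  .mul 0 205,
  .mul 280 270,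
  .scale ⟨733097230336, 0, 0, 0⟩ 0,
  .sub 393 0,
  .mul 273 0,
  .mul 307 307,
  .mul 385 0,
  .add 2 0,
  .mul 7 175,
  .add 1 399,
  .mul 1 0,
  .sub 3 0,
  .scale ⟨366548615168, 0, 0, 0⟩ 358,
  .sub 403 0,
  .mul 379 0,
  .add 3 0,
  .mul 22 0,
  .mul 22 22,
  .add 408 0,
  .inv 0,
  .mul 3 0,
  .sub 411 60,
  .mul 0 1,
  .sub 413 14,
  .pos 0,
  .pos 3,
  .pos 2,
  .mul 39 176,
  .mul 0 86,
  .inv 393,
  .mul 1 0,
  .mul 415 5,
  .neg 0,
  .exp 0,
  .mul 417 38,
  .add 422 0,
  .inv 0,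
  .mul 3 0,
  .mul 0 406,
  .mul 418 83,
  .mul 0 10,
  .add 428 0,
  .mul 3 0,
  .mul 0 77,
  .mul 427 55,
  .mul 0 187,
  .mul 429 56,
  .mul 16 0,
  .add 2 0,
  .add 4 18,
  .add 437 1,
  .mul 7 0,
  .add 2 0,
  .sub 440 0,
  .scale ⟨1073741824, 0, 0, 0⟩ 437,
  .sub 1 0,
  .sub 424 443,
  .add 0 389,
  .scale ⟨2199023255552, 0, 0, 0⟩ 64,
  .sub 1 0,
  .mul 223 0,
  .mul 4 2,
  .add 0 449,
  .inv 0,
  .mul 3 0,
  .mul 211 117,
  .scale ⟨549755813888, 0, 0, 0⟩ 218,
  .add 438 0,
  .mul 2 0,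
  .scale ⟨2199023255552, 0, 0, 0⟩ 0,
  .add 127 0,
  .scale ⟨2199023255552, 0, 0, 0⟩ 0,
  .mul 0 117,
  .sub 437 33,
  .inv 0,
  .mul 2 0,
  .sub 11 0,
  .mul 227 227,
  .const ⟨14293651161088, 0, 0, 0⟩,
  .mul 0 86,
  .mul 2 0,
  .mul 468 468,
  .scale ⟨27487790694400, 0, 0, 0⟩ 0,
  .add 2 0,
  .mul 88 47,
  .sub 433 468,
  .sub 0 435,
  .mul 471 474,
  .mul 452 140,
  .mul 0 237,
  .add 155 0,
  .add 51 423,
  .mul 480 0,
  .mul 9 8,
  .mul 139 1,
  .mul 7 4,
  .mul 1 0,
  .sub 3 0,
  .scale ⟨549755813888, 0, 0, 0⟩ 58,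
  .add 486 0,
  .mul 145 0,
  .mul 484 466,
  .mul 0 257,
  .mul 467 439,
  .inv 0,
  .mul 2 0,
  .mul 5 0,
  .sub 20 0,
  .mul 260 10,
  .sub 496 261,
  .mul 486 2,
  .mul 1 0,
  .mul 28 0,
  .add 4 0,
  .pos 255,
  .pos 252,
  .scale ⟨2199023255552, 0, 0, 0⟩ 162,
  .sub 451 0,
  .pos 0,
  .pos 154,
  .sub 496 281,
  .pos 0,
  .scale ⟨687194767360, 0, 0, 0⟩ 504,
  .sub 0 206,
  .pos 0,
  .scale ⟨377957122048, 0, 0, 0⟩ 506,
  .sub 0 212,
  .pos 0,
  .pos 47,
  .pos 151,
  .sub 3 139,
  .pos 0,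
  .pos 45,
  .pos 66,
  .pos 8,
  .pos 14]

def chk3 {α : Type} (cst : Z → α) (add sub mul : α → α → α) (scale : Z → α → α)
    (neg inv exp log : α → α) (ok : α → Bool) (isPos : Nat → α → Bool) (isLt : α → Nat → Bool) :
    List α → Bool
  | [x0, x1, x2, x3] =>
  let v0 := cst ⟨1099511627776, 0, 0, 0⟩; ok v0 && (
  let v1 := mul x1 x2; ok v1 && (
  let v2 := mul x2 x2; ok v2 && (
  let v3 := mul x0 x1; ok v3 && (
  let v4 := mul v3 v2; ok v4 && (
  let v5 := mul v1 v1; ok v5 && (
  let v6 := mul v4 v3; ok v6 && (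
  let v7 := cst ⟨549755813888, 0, 0, 0⟩; ok v7 && (
  let v8 := mul v4 x1; ok v8 && (
  let v9 := mul v8 x3; ok v9 && (
  let v10 := scale ⟨549755813888, 0, 0, 0⟩ v9; ok v10 && (
  let v11 := mul x1 x1; ok v11 && (
  let v12 := mul v10 v10; ok v12 && (
  let v13 := sub v0 v12; ok v13 && (
  let v14 := inv v13; ok v14 && (
  let v15 := mul v10 v14; ok v15 && (
  let v16 := scale ⟨2199023255552, 0, 0, 0⟩ v15; ok v16 && (
  let v17 := scale ⟨2199023255552, 0, 0, 0⟩ v14; ok v17 && (
  let v18 := sub v17 v0; ok v18 && (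
  let v19 := add v18 v16; ok v19 && (
  let v20 := mul x3 v14; ok v20 && (
  let v21 := mul x1 v20; ok v21 && (
  let v22 := sub v0 v21; ok v22 && (
  let v23 := add v0 v21; ok v23 && (
  let v24 := mul v4 v11; ok v24 && (
  let v25 := mul v20 v20; ok v25 && (
  let v26 := scale ⟨10774999203840, 0, 0, 0⟩ v10; ok v26 && (
  let v27 := scale ⟨45768245248, 0, 0, 0⟩ v26; ok v27 && (
  let v28 := cst ⟨183207198720, 0, 0, 0⟩; ok v28 && (
  let v29 := add v27 v28; ok v29 && (
  let v30 := mul v26 v29; ok v30 && (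
  let v31 := add v7 v30; ok v31 && (
  let v32 := mul v26 v31; ok v32 && (
  let v33 := add v0 v32; ok v33 && (
  let v34 := mul v26 v33; ok v34 && (
  let v35 := scale ⟨549755813888, 0, 0, 0⟩ v34; ok v35 && (
  let v36 := add v0 v35; ok v36 && (
  let v37 := mul v33 v36; ok v37 && (
  let v38 := mul v16 v21; ok v38 && (
  let v39 := scale ⟨2199023255552, 0, 0, 0⟩ v18; ok v39 && (
  let v40 := add v38 v39; ok v40 && (
  let v41 := add v40 v4; ok v41 && (
  let v42 := mul v24 v41; ok v42 && (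
  let v43 := add v42 v0; ok v43 && (
  let v44 := mul v16 v16; ok v44 && (
  let v45 := scale ⟨2199023255552, 0, 0, 0⟩ v44; ok v45 && (
  let v46 := add v45 v0; ok v46 && (
  let v47 := mul v18 v41; ok v47 && (
  let v48 := sub v47 v0; ok v48 && (
  let v49 := log v43; ok v49 && (
  let v50 := scale ⟨549755813888, 0, 0, 0⟩ v49; ok v50 && (
  let v51 := exp v50; ok v51 && (
  let v52 := cst ⟨3298534883328, 0, 0, 0⟩; ok v52 && (
  let v53 := inv v52; ok v53 && (
  let v54 := mul v0 v53; ok v54 && (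
  let v55 := cst ⟨2199023255552, 0, 0, 0⟩; ok v55 && (
  let v56 := add v42 v55; ok v56 && (
  let v57 := inv v56; ok v57 && (
  let v58 := mul v42 v57; ok v58 && (
  let v59 := mul v58 v58; ok v59 && (
  let v60 := sub v0 v58; ok v60 && (
  let v61 := mul v59 v54; ok v61 && (
  let v62 := add v0 v61; ok v62 && (
  let v63 := mul v60 v62; ok v63 && (
  let v64 := mul v59 v59; ok v64 && (
  let v65 := scale ⟨219915747328, 0, 0, 0⟩ v64; ok v65 && (
  let v66 := mul v41 v63; ok v66 && (
  let v67 := scale ⟨549755813888, 0, 0, 0⟩ v66; ok v67 && (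
  let v68 := mul v41 v65; ok v68 && (
  let v69 := scale ⟨549755813888, 0, 0, 0⟩ v68; ok v69 && (
  let v70 := add v67 v69; ok v70 && (
  let v71 := mul v18 v48; ok v71 && (
  let v72 := scale ⟨4398046511104, 0, 0, 0⟩ v71; ok v72 && (
  let v73 := mul v18 v24; ok v73 && (
  let v74 := mul v73 v48; ok v74 && (
  let v75 := scale ⟨4398046511104, 0, 0, 0⟩ v74; ok v75 && (
  let v76 := add v75 v55; ok v76 && (
  let v77 := inv v76; ok v77 && (
  let v78 := mul v75 v77; ok v78 && (
  let v79 := mul v78 v78; ok v79 && (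
  let v80 := sub v0 v78; ok v80 && (
  let v81 := mul v79 v54; ok v81 && (
  let v82 := add v0 v81; ok v82 && (
  let v83 := mul v80 v82; ok v83 && (
  let v84 := mul v79 v79; ok v84 && (
  let v85 := scale ⟨219915747328, 0, 0, 0⟩ v84; ok v85 && (
  let v86 := mul v72 v83; ok v86 && (
  let v87 := scale ⟨549755813888, 0, 0, 0⟩ v86; ok v87 && (
  let v88 := sub v87 v70; ok v88 && (
  let v89 := mul v72 v85; ok v89 && (
  let v90 := scale ⟨549755813888, 0, 0, 0⟩ v89; ok v90 && (
  let v91 := add v90 v69; ok v91 && (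
  let v92 := add v88 v91; ok v92 && (
  let v93 := mul v3 v67; ok v93 && (
  let v94 := neg v93; ok v94 && (
  let v95 := exp v94; ok v95 && (
  let v96 := mul v3 v69; ok v96 && (
  let v97 := mul v95 v96; ok v97 && (
  let v98 := mul v3 v88; ok v98 && (
  let v99 := neg v98; ok v99 && (
  let v100 := exp v99; ok v100 && (
  let v101 := mul v3 v91; ok v101 && (
  let v102 := mul v100 v101; ok v102 && (
  let v103 := mul v21 v16; ok v103 && (
  let v104 := add v18 v103; ok v104 && (
  let v105 := inv v104; ok v105 && (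
  let v106 := mul v23 v105; ok v106 && (
  let v107 := mul v22 v4; ok v107 && (
  let v108 := mul v107 v106; ok v108 && (
  let v109 := sub v0 v11; ok v109 && (
  let v110 := mul v25 v109; ok v110 && (
  let v111 := mul v8 v8; ok v111 && (
  let v112 := sub v0 v25; ok v112 && (
  let v113 := mul v109 v112; ok v113 && (
  let v114 := mul v24 v48; ok v114 && (
  let v115 := inv v43; ok v115 && (
  let v116 := mul v114 v115; ok v116 && (
  let v117 := add v18 v116; ok v117 && (
  let v118 := mul v43 v117; ok v118 && (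
  let v119 := mul v118 v118; ok v119 && (
  let v120 := inv v119; ok v120 && (
  let v121 := mul v113 v120; ok v121 && (
  let v122 := add v18 v24; ok v122 && (
  let v123 := mul v0 v122; ok v123 && (
  let v124 := inv v123; ok v124 && (
  let v125 := mul x0 v124; ok v125 && (
  let v126 := mul v125 v125; ok v126 && (
  let v127 := mul v126 v113; ok v127 && (
  let v128 := cst ⟨45812285440, 0, 0, 0⟩; ok v128 && (
  let v129 := scale ⟨1527119872, 0, 0, 0⟩ v127; ok v129 && (
  let v130 := sub v128 v129; ok v130 && (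
  let v131 := mul v127 v130; ok v131 && (
  let v132 := sub v7 v131; ok v132 && (
  let v133 := mul v127 v132; ok v133 && (
  let v134 := sub v0 v133; ok v134 && (
  let v135 := add v95 v0; ok v135 && (
  let v136 := mul v95 v95; ok v136 && (
  let v137 := add v136 v0; ok v137 && (
  let v138 := mul v95 v134; ok v138 && (
  let v139 := scale ⟨2199023255552, 0, 0, 0⟩ v138; ok v139 && (
  let v140 := add v137 v139; ok v140 && (
  let v141 := scale ⟨4398046511104, 0, 0, 0⟩ v97; ok v141 && (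
  let v142 := sub v140 v141; ok v142 && (
  let v143 := inv v135; ok v143 && (
  let v144 := mul v142 v143; ok v144 && (
  let v145 := add v144 v135; ok v145 && (
  let v146 := mul v95 v108; ok v146 && (
  let v147 := scale ⟨549755813888, 0, 0, 0⟩ v146; ok v147 && (
  let v148 := mul v147 v145; ok v148 && (
  let v149 := sub v142 v148; ok v149 && (
  isPos 4 v142 && (
  isPos 4 v149 && (
  let v150 := mul v3 v70; ok v150 && (
  let v151 := scale ⟨2199023255552, 0, 0, 0⟩ v150; ok v151 && (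
  let v152 := scale ⟨183274307584, 0, 0, 0⟩ v151; ok v152 && (
  let v153 := sub v7 v152; ok v153 && (
  let v154 := mul v151 v153; ok v154 && (
  let v155 := sub v0 v154; ok v155 && (
  let v156 := mul v70 v155; ok v156 && (
  let v157 := inv v149; ok v157 && (
  let v158 := mul v156 v157; ok v158 && (
  let v159 := mul v3 v158; ok v159 && (
  let v160 := add v159 v7; ok v160 && (
  let v161 := inv v160; ok v161 && (
  let v162 := mul v158 v161; ok v162 && (
  let v163 := mul v3 v162; ok v163 && (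
  let v164 := mul v108 v163; ok v164 && (
  let v165 := scale ⟨549755813888, 0, 0, 0⟩ v164; ok v165 && (
  let v166 := sub v0 v165; ok v166 && (
  let v167 := sub v0 v164; ok v167 && (
  let v168 := inv v167; ok v168 && (
  let v169 := mul v166 v168; ok v169 && (
  let v170 := add v164 v0; ok v170 && (
  let v171 := mul v95 v170; ok v171 && (
  let v172 := mul v106 v169; ok v172 && (
  let v173 := mul x1 v162; ok v173 && (
  let v174 := mul v172 v173; ok v174 && (
  let v175 := mul v164 v169; ok v175 && (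
  isPos 4 v167 && (
  let v176 := mul v22 v23; ok v176 && (
  let v177 := add v18 v4; ok v177 && (
  let v178 := mul v21 v18; ok v178 && (
  let v179 := mul v178 v16; ok v179 && (
  let v180 := scale ⟨2199023255552, 0, 0, 0⟩ v179; ok v180 && (
  let v181 := add v46 v180; ok v181 && (
  let v182 := mul v177 v181; ok v182 && (
  let v183 := inv v182; ok v183 && (
  let v184 := mul v176 v183; ok v184 && (
  let v185 := mul v4 v184; ok v185 && (
  isPos 4 v88 && (
  let v186 := mul v127 v115; ok v186 && (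
  let v187 := scale ⟨1527119872, 0, 0, 0⟩ v186; ok v187 && (
  let v188 := sub v128 v187; ok v188 && (
  let v189 := mul v186 v188; ok v189 && (
  let v190 := sub v7 v189; ok v190 && (
  let v191 := mul v186 v190; ok v191 && (
  let v192 := sub v0 v191; ok v192 && (
  let v193 := add v100 v0; ok v193 && (
  let v194 := mul v100 v100; ok v194 && (
  let v195 := add v194 v0; ok v195 && (
  let v196 := mul v100 v192; ok v196 && (
  let v197 := scale ⟨2199023255552, 0, 0, 0⟩ v196; ok v197 && (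
  let v198 := add v195 v197; ok v198 && (
  let v199 := scale ⟨4398046511104, 0, 0, 0⟩ v102; ok v199 && (
  let v200 := sub v198 v199; ok v200 && (
  let v201 := inv v193; ok v201 && (
  let v202 := mul v200 v201; ok v202 && (
  let v203 := add v202 v193; ok v203 && (
  let v204 := mul v100 v185; ok v204 && (
  let v205 := scale ⟨549755813888, 0, 0, 0⟩ v204; ok v205 && (
  let v206 := mul v205 v203; ok v206 && (
  let v207 := sub v200 v206; ok v207 && (
  isPos 4 v200 && (
  isPos 4 v207 && (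
  let v208 := mul v3 v92; ok v208 && (
  let v209 := scale ⟨2199023255552, 0, 0, 0⟩ v208; ok v209 && (
  let v210 := scale ⟨183274307584, 0, 0, 0⟩ v209; ok v210 && (
  let v211 := sub v7 v210; ok v211 && (
  let v212 := mul v209 v211; ok v212 && (
  let v213 := sub v0 v212; ok v213 && (
  let v214 := mul v92 v213; ok v214 && (
  let v215 := inv v207; ok v215 && (
  let v216 := mul v214 v215; ok v216 && (
  let v217 := mul v3 v216; ok v217 && (
  let v218 := add v217 v7; ok v218 && (
  let v219 := inv v218; ok v219 && (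
  let v220 := mul v216 v219; ok v220 && (
  let v221 := mul v3 v220; ok v221 && (
  let v222 := mul v185 v221; ok v222 && (
  let v223 := mul x1 v220; ok v223 && (
  let v224 := add v10 v0; ok v224 && (
  let v225 := inv v224; ok v225 && (
  let v226 := mul v10 v225; ok v226 && (
  let v227 := scale ⟨2199023255552, 0, 0, 0⟩ v226; ok v227 && (
  let v228 := sub v0 v227; ok v228 && (
  let v229 := sub v0 v10; ok v229 && (
  let v230 := mul x3 v225; ok v230 && (
  let v231 := mul v230 v228; ok v231 && (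
  let v232 := add v23 v231; ok v232 && (
  let v233 := scale ⟨224412041216, 0, 0, 0⟩ v14; ok v233 && (
  let v234 := inv v37; ok v234 && (
  let v235 := mul v233 v234; ok v235 && (
  let v236 := scale ⟨4398046511104, 0, 0, 0⟩ v0; ok v236 && (
  let v237 := mul x0 v20; ok v237 && (
  let v238 := add v236 v237; ok v238 && (
  let v239 := inv v238; ok v239 && (
  let v240 := mul x0 v239; ok v240 && (
  let v241 := mul v0 v239; ok v241 && (
  let v242 := mul v241 v23; ok v242 && (
  let v243 := mul v242 v235; ok v243 && (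
  let v244 := mul v240 v23; ok v244 && (
  let v245 := mul v244 v235; ok v245 && (
  let v246 := sub v0 v245; ok v246 && (
  let v247 := inv v246; ok v247 && (
  let v248 := mul v171 v245; ok v248 && (
  let v249 := sub v0 v248; ok v249 && (
  let v250 := inv v249; ok v250 && (
  let v251 := mul v22 x0; ok v251 && (
  let v252 := mul v251 v162; ok v252 && (
  let v253 := inv v20; ok v253 && (
  let v254 := mul v252 v253; ok v254 && (
  let v255 := scale ⟨549755813888, 0, 0, 0⟩ v254; ok v255 && (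
  let v256 := sub v0 v255; ok v256 && (
  let v257 := sub v0 v254; ok v257 && (
  let v258 := inv v257; ok v258 && (
  let v259 := mul v256 v258; ok v259 && (
  let v260 := mul v173 v259; ok v260 && (
  let v261 := mul v254 v259; ok v261 && (
  let v262 := mul v261 v5; ok v262 && (
  isPos 4 v257 && (
  let v263 := scale ⟨1374389534720, 0, 0, 0⟩ v262; ok v263 && (
  let v264 := sub v7 v263; ok v264 && (
  isPos 4 v264 && (
  let v265 := scale ⟨3092376453120, 0, 0, 0⟩ v262; ok v265 && (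
  let v266 := add v265 v55; ok v266 && (
  let v267 := mul v262 v266; ok v267 && (
  let v268 := add v0 v267; ok v268 && (
  let v269 := scale ⟨1546188226560, 0, 0, 0⟩ v262; ok v269 && (
  let v270 := add v269 v0; ok v270 && (
  let v271 := mul v262 v270; ok v271 && (
  let v272 := add v0 v271; ok v272 && (
  let v273 := mul v10 v20; ok v273 && (
  let v274 := sub v0 v110; ok v274 && (
  let v275 := mul v10 v21; ok v275 && (
  let v276 := scale ⟨2199023255552, 0, 0, 0⟩ v275; ok v276 && (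
  let v277 := sub v274 v276; ok v277 && (
  let v278 := mul v273 v273; ok v278 && (
  let v279 := add v277 v278; ok v279 && (
  let v280 := add v279 v0; ok v280 && (
  let v281 := scale ⟨549755813888, 0, 0, 0⟩ v280; ok v281 && (
  let v282 := scale ⟨549755813888, 0, 0, 0⟩ v24; ok v282 && (
  let v283 := sub v14 v282; ok v283 && (
  let v284 := mul v111 v274; ok v284 && (
  let v285 := mul v284 v13; ok v285 && (
  let v286 := scale ⟨137438953472, 0, 0, 0⟩ v285; ok v286 && (
  let v287 := add v283 v286; ok v287 && (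
  let v288 := mul v281 v287; ok v288 && (
  let v289 := add v171 v0; ok v289 && (
  let v290 := mul v289 v247; ok v290 && (
  let v291 := mul v171 v250; ok v291 && (
  let v292 := add v290 v291; ok v292 && (
  let v293 := mul v245 v292; ok v293 && (
  let v294 := add v175 v293; ok v294 && (
  let v295 := mul v294 v5; ok v295 && (
  let v296 := mul v289 v245; ok v296 && (
  let v297 := mul v296 v247; ok v297 && (
  let v298 := add v175 v297; ok v298 && (
  let v299 := mul v298 v5; ok v299 && (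
  let v300 := scale ⟨223338299392, 0, 0, 0⟩ v299; ok v300 && (
  let v301 := add v7 v300; ok v301 && (
  let v302 := mul v299 v301; ok v302 && (
  let v303 := add v0 v302; ok v303 && (
  let v304 := scale ⟨893353197568, 0, 0, 0⟩ v295; ok v304 && (
  let v305 := add v0 v304; ok v305 && (
  let v306 := mul v295 v305; ok v306 && (
  let v307 := add v0 v306; ok v307 && (
  let v308 := mul v227 v230; ok v308 && (
  let v309 := mul v308 v268; ok v309 && (
  let v310 := mul v309 v307; ok v310 && (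
  let v311 := mul v288 v303; ok v311 && (
  let v312 := add v51 v7; ok v312 && (
  let v313 := mul v310 v312; ok v313 && (
  let v314 := add v311 v313; ok v314 && (
  let v315 := add v51 v0; ok v315 && (
  let v316 := mul v310 v315; ok v316 && (
  let v317 := mul v272 v315; ok v317 && (
  let v318 := mul v317 v230; ok v318 && (
  let v319 := mul v318 v229; ok v319 && (
  let v320 := mul v314 v174; ok v320 && (
  let v321 := mul v319 v260; ok v321 && (
  let v322 := add v320 v321; ok v322 && (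
  let v323 := mul v8 v232; ok v323 && (
  let v324 := inv v51; ok v324 && (
  let v325 := mul v323 v324; ok v325 && (
  let v326 := scale ⟨549755813888, 0, 0, 0⟩ v325; ok v326 && (
  let v327 := mul v22 v326; ok v327 && (
  let v328 := mul v4 v322; ok v328 && (
  let v329 := add v327 v328; ok v329 && (
  let v330 := mul v0 v329; ok v330 && (
  let v331 := mul v314 v289; ok v331 && (
  let v332 := mul v331 v247; ok v332 && (
  let v333 := mul v316 v171; ok v333 && (
  let v334 := mul v333 v250; ok v334 && (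
  let v335 := add v332 v334; ok v335 && (
  let v336 := mul v22 v330; ok v336 && (
  let v337 := mul v243 v335; ok v337 && (
  let v338 := add v336 v337; ok v338 && (
  let v339 := mul v111 v338; ok v339 && (
  let v340 := mul v339 v324; ok v340 && (
  let v341 := sub v0 v340; ok v341 && (
  let v342 := inv v341; ok v342 && (
  let v343 := mul v338 v342; ok v343 && (
  let v344 := mul v4 v343; ok v344 && (
  let v345 := mul v111 v343; ok v345 && (
  let v346 := mul v345 v324; ok v346 && (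
  let v347 := sub v0 v346; ok v347 && (
  let v348 := mul v48 v347; ok v348 && (
  let v349 := sub v348 v344; ok v349 && (
  let v350 := inv v349; ok v350 && (
  let v351 := mul v344 v350; ok v351 && (
  let v352 := sub v51 v345; ok v352 && (
  let v353 := inv v352; ok v353 && (
  let v354 := mul v351 v221; ok v354 && (
  let v355 := scale ⟨549755813888, 0, 0, 0⟩ v354; ok v355 && (
  let v356 := sub v0 v355; ok v356 && (
  let v357 := sub v0 v354; ok v357 && (
  let v358 := inv v357; ok v358 && (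
  let v359 := mul v356 v358; ok v359 && (
  let v360 := mul x1 v353; ok v360 && (
  let v361 := mul v223 v350; ok v361 && (
  let v362 := mul v361 v359; ok v362 && (
  let v363 := add v360 v362; ok v363 && (
  let v364 := mul v6 v343; ok v364 && (
  let v365 := mul v353 v364; ok v365 && (
  let v366 := mul v221 v350; ok v366 && (
  let v367 := mul v366 v359; ok v367 && (
  let v368 := mul v367 v344; ok v368 && (
  let v369 := add v365 v368; ok v369 && (
  let v370 := scale ⟨223338299392, 0, 0, 0⟩ v369; ok v370 && (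
  let v371 := add v7 v370; ok v371 && (
  let v372 := mul v369 v371; ok v372 && (
  let v373 := add v0 v372; ok v373 && (
  let v374 := mul v363 v373; ok v374 && (
  let v375 := mul v374 v342; ok v375 && (
  let v376 := mul v375 v335; ok v376 && (
  let v377 := mul v244 v22; ok v377 && (
  let v378 := cst ⟨7696581394432, 0, 0, 0⟩; ok v378 && (
  let v379 := cst ⟨10995116277760, 0, 0, 0⟩; ok v379 && (
  let v380 := inv v379; ok v380 && (
  let v381 := mul v378 v380; ok v381 && (
  let v382 := mul v224 v23; ok v382 && (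
  let v383 := mul v382 v381; ok v383 && (
  let v384 := mul v177 v105; ok v384 && (
  let v385 := mul v21 v384; ok v385 && (
  let v386 := scale ⟨549755813888, 0, 0, 0⟩ v222; ok v386 && (
  let v387 := sub v0 v386; ok v387 && (
  let v388 := sub v0 v222; ok v388 && (
  let v389 := inv v388; ok v389 && (
  let v390 := mul v387 v389; ok v390 && (
  let v391 := mul v390 v185; ok v391 && (
  let v392 := mul v111 v121; ok v392 && (
  let v393 := scale ⟨733097230336, 0, 0, 0⟩ v392; ok v393 && (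
  let v394 := sub v0 v393; ok v394 && (
  let v395 := mul v121 v394; ok v395 && (
  let v396 := mul v88 v88; ok v396 && (
  let v397 := mul v11 v396; ok v397 && (
  let v398 := add v395 v397; ok v398 && (
  let v399 := mul v391 v223; ok v399 && (
  let v400 := add v398 v0; ok v400 && (
  let v401 := mul v399 v400; ok v401 && (
  let v402 := sub v398 v401; ok v402 && (
  let v403 := scale ⟨366548615168, 0, 0, 0⟩ v44; ok v403 && (
  let v404 := sub v0 v403; ok v404 && (
  let v405 := mul v25 v404; ok v405 && (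
  let v406 := add v402 v405; ok v406 && (
  let v407 := mul v384 v406; ok v407 && (
  let v408 := mul v385 v385; ok v408 && (
  let v409 := add v0 v408; ok v409 && (
  let v410 := inv v409; ok v410 && (
  let v411 := mul v407 v410; ok v411 && (
  let v412 := sub v0 v351; ok v412 && (
  let v413 := mul v412 v411; ok v413 && (
  let v414 := sub v0 v399; ok v414 && (
  isPos 4 v414 && (
  isPos 4 v411 && (
  isPos 4 v412 && (
  let v415 := mul v375 v238; ok v415 && (
  let v416 := mul v415 v329; ok v416 && (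
  let v417 := inv v23; ok v417 && (
  let v418 := mul v416 v417; ok v418 && (
  let v419 := mul v3 v413; ok v419 && (
  let v420 := neg v419; ok v420 && (
  let v421 := exp v420; ok v421 && (
  let v422 := mul v4 v383; ok v422 && (
  let v423 := add v0 v422; ok v423 && (
  let v424 := inv v423; ok v424 && (
  let v425 := mul v421 v424; ok v425 && (
  let v426 := mul v425 v19; ok v426 && (
  let v427 := mul v8 v343; ok v427 && (
  let v428 := mul v427 v417; ok v428 && (
  let v429 := add v0 v428; ok v429 && (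
  let v430 := mul v426 v429; ok v430 && (
  let v431 := mul v430 v353; ok v431 && (
  let v432 := mul v4 v376; ok v432 && (
  let v433 := mul v432 v245; ok v433 && (
  let v434 := mul v4 v377; ok v434 && (
  let v435 := mul v418 v434; ok v435 && (
  let v436 := add v433 v435; ok v436 && (
  let v437 := add v432 v418; ok v437 && (
  let v438 := add v0 v436; ok v438 && (
  let v439 := mul v431 v438; ok v439 && (
  let v440 := add v437 v439; ok v440 && (
  let v441 := sub v0 v440; ok v441 && (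
  let v442 := scale ⟨1073741824, 0, 0, 0⟩ v4; ok v442 && (
  let v443 := sub v441 v442; ok v443 && (
  let v444 := sub v19 v0; ok v444 && (
  let v445 := add v444 v55; ok v445 && (
  let v446 := scale ⟨2199023255552, 0, 0, 0⟩ v381; ok v446 && (
  let v447 := sub v445 v446; ok v447 && (
  let v448 := mul v224 v447; ok v448 && (
  let v449 := mul v444 v446; ok v449 && (
  let v450 := add v449 v0; ok v450 && (
  let v451 := inv v450; ok v451 && (
  let v452 := mul v448 v451; ok v452 && (
  let v453 := mul v241 v335; ok v453 && (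
  let v454 := scale ⟨549755813888, 0, 0, 0⟩ v235; ok v454 && (
  let v455 := add v16 v454; ok v455 && (
  let v456 := mul v453 v455; ok v456 && (
  let v457 := scale ⟨2199023255552, 0, 0, 0⟩ v456; ok v457 && (
  let v458 := add v330 v457; ok v458 && (
  let v459 := scale ⟨2199023255552, 0, 0, 0⟩ v458; ok v459 && (
  let v460 := mul v459 v342; ok v460 && (
  let v461 := sub v23 v427; ok v461 && (
  let v462 := inv v461; ok v462 && (
  let v463 := mul v460 v462; ok v463 && (
  let v464 := sub v452 v463; ok v464 && (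
  let v465 := mul v237 v237; ok v465 && (
  let v466 := cst ⟨14293651161088, 0, 0, 0⟩; ok v466 && (
  let v467 := mul v466 v380; ok v467 && (
  let v468 := mul v465 v467; ok v468 && (
  let v469 := mul v0 v0; ok v469 && (
  let v470 := scale ⟨27487790694400, 0, 0, 0⟩ v469; ok v470 && (
  let v471 := add v468 v470; ok v471 && (
  let v472 := mul v383 v424; ok v472 && (
  let v473 := sub v39 v4; ok v473 && (
  let v474 := sub v473 v38; ok v474 && (
  let v475 := mul v3 v0; ok v475 && (
  let v476 := mul v23 v335; ok v476 && (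
  let v477 := mul v476 v239; ok v477 && (
  let v478 := add v322 v477; ok v478 && (
  let v479 := add v427 v55; ok v479 && (
  let v480 := mul x0 v479; ok v480 && (
  let v481 := mul v471 v472; ok v481 && (
  let v482 := mul v342 v480; ok v482 && (
  let v483 := mul v475 v478; ok v483 && (
  let v484 := mul v482 v483; ok v484 && (
  let v485 := sub v481 v484; ok v485 && (
  let v486 := scale ⟨549755813888, 0, 0, 0⟩ v427; ok v486 && (
  let v487 := add v0 v486; ok v487 && (
  let v488 := mul v342 v487; ok v488 && (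
  let v489 := mul v4 v22; ok v489 && (
  let v490 := mul v489 v232; ok v490 && (
  let v491 := mul v23 v51; ok v491 && (
  let v492 := inv v491; ok v492 && (
  let v493 := mul v490 v492; ok v493 && (
  let v494 := mul v488 v493; ok v494 && (
  let v495 := sub v474 v494; ok v495 && (
  let v496 := mul v235 v485; ok v496 && (
  let v497 := sub v0 v235; ok v497 && (
  let v498 := mul v11 v495; ok v498 && (
  let v499 := mul v497 v498; ok v499 && (
  let v500 := mul v471 v499; ok v500 && (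
  let v501 := add v496 v500; ok v501 && (
  isPos 4 v246 && (
  isPos 4 v249 && (
  let v502 := scale ⟨2199023255552, 0, 0, 0⟩ v339; ok v502 && (
  let v503 := sub v51 v502; ok v503 && (
  isPos 4 v503 && (
  isPos 4 v349 && (
  let v504 := sub v7 v222; ok v504 && (
  isPos 4 v504 && (
  let v505 := scale ⟨687194767360, 0, 0, 0⟩ v0; ok v505 && (
  let v506 := sub v505 v299; ok v506 && (
  isPos 4 v506 && (
  let v507 := scale ⟨377957122048, 0, 0, 0⟩ v0; ok v507 && (
  let v508 := sub v507 v295; ok v508 && (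
  isPos 4 v508 && (
  isPos 4 v461 && (
  isPos 4 v357 && (
  let v509 := sub v505 v369; ok v509 && (
  isPos 4 v509 && (
  isPos 4 v464 && (
  isPos 4 v443 && (
  isPos 4 v501 && (
  isPos 4 v495 && (
  true)))))))))))))))))))))))))))))))))))))))))))))))))))))))))))))))))))))))))))))))))))))))))))))))))))))))))))))))))))))))))))))))))))))))))))))))))))))))))))))))))))))))))))))))))))))))))))))))))))))))))))))))))))))))))))))))))))))))))))))))))))))))))))))))))))))))))))))))))))))))))))))))))))))))))))))))))))))))))))))))))))))))))))))))))))))))))))))))))))))))))))))))))))))))))))))))))))))))))))))))))))))))))))))))))))))))))))))))))))))))))))))))))))))))))))))))))))))))))))))))))))))))))))))))))))))))))))))))))))))))))))))))))))))))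
  | _ => false

set_option maxRecDepth 1000000 in
theorem chk3_eq (O : Ops) (m : List O.α)
    (h : chk3 O.cst O.add O.sub O.mul O.scale O.neg O.inv O.exp O.log O.ok O.isPos O.isLt m = true) :
    runG O 4 prog3 m = true := by
  match m, h with
  | [x0, x1, x2, x3], h => exact h

def chkB3 : List opsE.α → Bool :=
  chk3 opsE.cst opsE.add opsE.sub opsE.mul opsE.scale opsE.neg opsE.inv opsE.exp opsE.log opsE.ok opsE.isPos opsE.isLt

theorem chkB3_eq (m : List opsE.α) (h : chkB3 m = true) : runG opsE 4 prog3 m = true :=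
  chk3_eq opsE m h

def prog4 : List Op := [
  .const ⟨1099511627776, 0, 0, 0⟩,
  .mul 2 3,
  .mul 4 4,
  .mul 3 4,
  .mul 0 1,
  .mul 3 3,
  .mul 1 2,
  .const ⟨549755813888, 0, 0, 0⟩,
  .mul 3 9,
  .mul 0 12,
  .scale ⟨549755813888, 0, 0, 0⟩ 0,
  .mul 12 12,
  .mul 1 1,
  .sub 12 0,
  .inv 0,
  .mul 4 0,
  .scale ⟨2199023255552, 0, 0, 0⟩ 0,
  .scale ⟨2199023255552, 0, 0, 0⟩ 2,
  .sub 0 17,
  .add 0 2,
  .mul 23 5,
  .mul 22 0,
  .sub 21 0,
  .add 22 1,
  .mul 19 12,
  .mul 4 4,
  .scale ⟨10774999203840, 0, 0, 0⟩ 15,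
  .scale ⟨45768245248, 0, 0, 0⟩ 0,
  .const ⟨183207198720, 0, 0, 0⟩,
  .add 1 0,
  .mul 3 0,
  .add 23 0,
  .mul 5 0,
  .add 32 0,
  .mul 7 0,
  .scale ⟨549755813888, 0, 0, 0⟩ 0,
  .add 35 0,
  .mul 3 0,
  .mul 21 16,
  .scale ⟨2199023255552, 0, 0, 0⟩ 20,
  .add 1 0,
  .add 0 36,
  .mul 17 0,
  .add 0 42,
  .mul 27 27,
  .scale ⟨2199023255552, 0, 0, 0⟩ 0,
  .add 0 45,
  .mul 28 5,
  .sub 0 47,
  .log 5,
  .scale ⟨549755813888, 0, 0, 0⟩ 0,
  .exp 0,
  .const ⟨3298534883328, 0, 0, 0⟩,
  .inv 0,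
  .mul 53 0,
  .const ⟨2199023255552, 0, 0, 0⟩,
  .add 13 0,
  .inv 0,
  .mul 15 0,
  .mul 0 0,
  .sub 59 1,
  .mul 1 6,
  .add 61 0,
  .mul 2 0,
  .mul 4 4,
  .scale ⟨219915747328, 0, 0, 0⟩ 0,
  .mul 24 2,
  .scale ⟨549755813888, 0, 0, 0⟩ 0,
  .mul 26 2,
  .scale ⟨549755813888, 0, 0, 0⟩ 0,
  .add 2 0,
  .mul 52 22,
  .scale ⟨4398046511104, 0, 0, 0⟩ 0,
  .mul 54 48,
  .mul 0 25,
  .scale ⟨4398046511104, 0, 0, 0⟩ 0,
  .add 0 20,
  .inv 0,
  .mul 2 0,
  .mul 0 0,
  .sub 79 1,
  .mul 1 26,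
  .add 81 0,
  .mul 2 0,
  .mul 4 4,
  .scale ⟨219915747328, 0, 0, 0⟩ 0,
  .mul 13 2,
  .scale ⟨549755813888, 0, 0, 0⟩ 0,
  .sub 0 17,
  .mul 16 3,
  .scale ⟨549755813888, 0, 0, 0⟩ 0,
  .add 0 21,
  .add 3 0,
  .mul 89 25,
  .neg 0,
  .exp 0,
  .mul 92 26,
  .mul 1 0,
  .mul 94 9,
  .neg 0,
  .exp 0,
  .mul 97 9,
  .mul 1 0,
  .mul 81 86,
  .add 85 0,
  .inv 0,
  .mul 82 0,
  .mul 84 102,
  .mul 0 1,
  .sub 108 97,
  .mul 84 0,
  .mul 102 102,
  .sub 111 86,
  .mul 3 0,
  .mul 89 65,
  .inv 71,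
  .mul 1 0,
  .add 98 0,
  .mul 74 0,
  .mul 0 0,
  .inv 0,
  .mul 7 0,
  .add 103 97,
  .mul 122 0,
  .inv 0,
  .mul 125 0,
  .mul 0 0,
  .mul 0 13,
  .const ⟨45812285440, 0, 0, 0⟩,
  .scale ⟨1527119872, 0, 0, 0⟩ 1,
  .sub 1 0,
  .mul 3 0,
  .sub 124 0,
  .mul 5 0,
  .sub 133 0,
  .add 39 134,
  .mul 40 40,
  .add 0 136,
  .mul 42 3,
  .scale ⟨2199023255552, 0, 0, 0⟩ 0,
  .add 2 0,
  .scale ⟨4398046511104, 0, 0, 0⟩ 43,
  .sub 1 0,
  .inv 7,
  .mul 1 0,
  .add 0 9,
  .mul 50 37,
  .scale ⟨549755813888, 0, 0, 0⟩ 0,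
  .mul 0 2,
  .sub 6 0,
  .pos 7,
  .pos 0,
  .mul 146 79,
  .scale ⟨2199023255552, 0, 0, 0⟩ 0,
  .scale ⟨183274307584, 0, 0, 0⟩ 0,
  .sub 145 0,
  .mul 2 0,
  .sub 154 0,
  .mul 85 0,
  .inv 7,
  .mul 1 0,
  .mul 155 0,
  .add 0 152,
  .inv 0,
  .mul 3 0,
  .mul 159 0,
  .mul 55 0,
  .scale ⟨549755813888, 0, 0, 0⟩ 0,
  .sub 165 0,
  .sub 166 2,
  .inv 0,
  .mul 2 0,
  .add 5 169,
  .mul 75 0,
  .mul 65 2,
  .mul 174 10,
  .mul 1 0,
  .mul 10 5,
  .pos 8,
  .mul 153 152,
  .add 158 172,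
  .mul 156 159,
  .mul 0 162,
  .scale ⟨2199023255552, 0, 0, 0⟩ 0,
  .add 134 0,
  .mul 4 0,
  .inv 0,
  .mul 7 0,
  .mul 180 0,
  .pos 97,
  .mul 58 70,
  .scale ⟨1527119872, 0, 0, 0⟩ 0,
  .sub 59 0,
  .mul 2 0,
  .sub 182 0,
  .mul 4 0,
  .sub 191 0,
  .add 92 192,
  .mul 93 93,
  .add 0 194,
  .mul 95 3,
  .scale ⟨2199023255552, 0, 0, 0⟩ 0,
  .add 2 0,
  .scale ⟨4398046511104, 0, 0, 0⟩ 96,
  .sub 1 0,
  .inv 7,
  .mul 1 0,
  .add 0 9,
  .mul 103 18,
  .scale ⟨549755813888, 0, 0, 0⟩ 0,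
  .mul 0 2,
  .sub 6 0,
  .pos 7,
  .pos 0,
  .mul 204 115,
  .scale ⟨2199023255552, 0, 0, 0⟩ 0,
  .scale ⟨183274307584, 0, 0, 0⟩ 0,
  .sub 203 0,
  .mul 2 0,
  .sub 212 0,
  .mul 121 0,
  .inv 7,
  .mul 1 0,
  .mul 213 0,
  .add 0 210,
  .inv 0,
  .mul 3 0,
  .mul 217 0,
  .mul 36 0,
  .mul 224 2,
  .add 213 223,
  .inv 0,
  .mul 215 0,
  .scale ⟨2199023255552, 0, 0, 0⟩ 0,
  .sub 227 0,
  .sub 228 218,
  .mul 233 4,
  .mul 0 2,
  .add 208 0,
  .scale ⟨224412041216, 0, 0, 0⟩ 218,
  .inv 196,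
  .mul 1 0,
  .scale ⟨4398046511104, 0, 0, 0⟩ 235,
  .mul 237 216,
  .add 1 0,
  .inv 0,
  .mul 240 0,
  .mul 240 1,
  .mul 0 218,
  .mul 0 7,
  .mul 3 220,
  .mul 0 9,
  .sub 245 0,
  .inv 0,
  .mul 76 2,
  .sub 248 0,
  .inv 0,
  .scale ⟨2199023255552, 0, 0, 0⟩ 245,
  .add 0 251,
  .add 247 252,
  .scale ⟨549755813888, 0, 0, 0⟩ 91,
  .inv 255,
  .mul 257 0,
  .scale ⟨2199023255552, 0, 0, 0⟩ 0,
  .add 3 0,
  .scale ⟨549755813888, 0, 0, 0⟩ 0,
  .mul 249 239,
  .sub 260 150,
  .mul 251 240,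
  .scale ⟨2199023255552, 0, 0, 0⟩ 0,
  .sub 2 0,
  .mul 4 4,
  .add 1 0,
  .add 0 266,
  .scale ⟨549755813888, 0, 0, 0⟩ 0,
  .scale ⟨549755813888, 0, 0, 0⟩ 244,
  .sub 255 0,
  .mul 159 9,
  .mul 0 258,
  .scale ⟨137438953472, 0, 0, 0⟩ 0,
  .add 3 0,
  .mul 6 0,
  .add 104 275,
  .mul 0 29,
  .mul 106 27,
  .add 1 0,
  .mul 34 0,
  .add 105 0,
  .mul 0 276,
  .mul 6 37,
  .mul 0 36,
  .add 109 0,
  .mul 0 280,
  .scale ⟨223338299392, 0, 0, 0⟩ 0,
  .add 280 0,
  .mul 2 0,
  .add 289 0,
  .scale ⟨893353197568, 0, 0, 0⟩ 8,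
  .add 291 0,
  .mul 10 0,
  .add 293 0,
  .mul 67 64,
  .mul 0 43,
  .mul 0 2,
  .mul 22 7,
  .add 247 291,
  .mul 2 0,
  .add 2 0,
  .add 250 301,
  .mul 5 0,
  .mul 50 1,
  .mul 0 74,
  .mul 0 76,
  .mul 5 132,
  .mul 1 48,
  .add 1 0,
  .mul 301 77,
  .inv 259,
  .mul 1 0,
  .scale ⟨549755813888, 0, 0, 0⟩ 0,
  .mul 291 0,
  .mul 310 5,
  .add 1 0,
  .mul 316 0,
  .mul 16 41,
  .mul 0 71,
  .mul 16 148,
  .mul 0 70,
  .add 2 0,
  .mul 300 5,
  .mul 80 1,
  .add 1 0,
  .mul 214 0,
  .mul 0 15,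
  .sub 327 0,
  .inv 0,
  .mul 4 0,
  .mul 326 0,
  .mul 220 1,
  .mul 0 21,
  .sub 333 0,
  .mul 286 0,
  .sub 0 4,
  .inv 0,
  .mul 6 0,
  .sub 287 6,
  .inv 0,
  .mul 2 119,
  .scale ⟨549755813888, 0, 0, 0⟩ 0,
  .sub 342 0,
  .sub 343 2,
  .inv 0,
  .mul 2 0,
  .mul 348 6,
  .mul 124 10,
  .mul 0 2,
  .add 2 0,
  .mul 344 20,
  .mul 11 0,
  .mul 131 15,
  .mul 0 7,
  .mul 0 23,
  .add 3 0,
  .scale ⟨223338299392, 0, 0, 0⟩ 0,
  .add 350 0,
  .mul 2 0,
  .add 359 0,
  .mul 10 0,
  .mul 0 32,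
  .mul 0 40,
  .mul 119 341,
  .const ⟨7696581394432, 0, 0, 0⟩,
  .const ⟨10995116277760, 0, 0, 0⟩,
  .inv 0,
  .mul 2 0,
  .mul 144 345,
  .mul 0 1,
  .mul 193 265,
  .mul 350 0,
  .scale ⟨549755813888, 0, 0, 0⟩ 150,
  .sub 373 0,
  .sub 374 152,
  .inv 0,
  .mul 2 0,
  .mul 0 192,
  .mul 267 257,
  .scale ⟨733097230336, 0, 0, 0⟩ 0,
  .sub 380 0,
  .mul 260 0,
  .mul 294 294,
  .mul 372 0,
  .add 2 0,
  .mul 7 162,
  .add 1 386,
  .mul 1 0,
  .sub 3 0,
  .scale ⟨366548615168, 0, 0, 0⟩ 345,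
  .sub 390 0,
  .mul 366 0,
  .add 3 0,
  .mul 22 0,
  .mul 22 22,
  .add 395 0,
  .inv 0,
  .mul 3 0,
  .sub 398 60,
  .mul 0 1,
  .sub 400 14,
  .pos 0,
  .pos 3,
  .pos 2,
  .mul 39 163,
  .mul 0 86,
  .inv 380,
  .mul 1 0,
  .mul 402 5,
  .neg 0,
  .exp 0,
  .mul 404 38,
  .add 409 0,
  .inv 0,
  .mul 3 0,
  .mul 0 393,
  .mul 405 83,
  .mul 0 10,
  .add 415 0,
  .mul 3 0,
  .mul 0 77,
  .mul 414 55,
  .mul 0 174,
  .mul 416 56,
  .mul 16 0,
  .add 2 0,
  .add 4 18,
  .add 424 1,
  .mul 7 0,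
  .add 2 0,
  .sub 427 0,
  .scale ⟨1073741824, 0, 0, 0⟩ 424,
  .sub 1 0,
  .sub 411 430,
  .add 0 376,
  .scale ⟨2199023255552, 0, 0, 0⟩ 64,
  .sub 1 0,
  .mul 210 0,
  .mul 4 2,
  .add 0 436,
  .inv 0,
  .mul 3 0,
  .mul 198 117,
  .scale ⟨549755813888, 0, 0, 0⟩ 205,
  .add 425 0,
  .mul 2 0,
  .scale ⟨2199023255552, 0, 0, 0⟩ 0,
  .add 127 0,
  .scale ⟨2199023255552, 0, 0, 0⟩ 0,
  .mul 0 117,
  .sub 424 33,
  .inv 0,
  .mul 2 0,
  .sub 11 0,
  .mul 214 214,
  .const ⟨14293651161088, 0, 0, 0⟩,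
  .mul 0 86,
  .mul 2 0,
  .mul 455 455,
  .scale ⟨27487790694400, 0, 0, 0⟩ 0,
  .add 2 0,
  .mul 88 47,
  .sub 420 455,
  .sub 0 422,
  .mul 458 461,
  .mul 439 140,
  .mul 0 224,
  .add 155 0,
  .add 51 410,
  .mul 467 0,
  .mul 9 8,
  .mul 139 1,
  .mul 7 4,
  .mul 1 0,
  .sub 3 0,
  .scale ⟨549755813888, 0, 0, 0⟩ 58,
  .add 473 0,
  .mul 145 0,
  .mul 471 453,
  .mul 0 244,
  .mul 454 426,
  .inv 0,
  .mul 2 0,
  .mul 5 0,
  .sub 20 0,
  .mul 247 10,
  .sub 483 248,
  .mul 473 2,
  .mul 1 0,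
  .mul 28 0,
  .add 4 0,
  .pos 242,
  .pos 239,
  .scale ⟨2199023255552, 0, 0, 0⟩ 162,
  .sub 438 0,
  .pos 0,
  .pos 154,
  .sub 483 268,
  .pos 0,
  .scale ⟨687194767360, 0, 0, 0⟩ 491,
  .sub 0 206,
  .pos 0,
  .scale ⟨377957122048, 0, 0, 0⟩ 493,
  .sub 0 212,
  .pos 0,
  .pos 47,
  .pos 151,
  .sub 3 139,
  .pos 0,
  .pos 45,
  .pos 66,
  .pos 8,
  .pos 14]

def chk4 {α : Type} (cst : Z → α) (add sub mul : α → α → α) (scale : Z → α → α)
    (neg inv exp log : α → α) (ok : α → Bool) (isPos : Nat → α → Bool) (isLt : α → Nat → Bool) :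
    List α → Bool
  | [x0, x1, x2, x3] =>
  let v0 := cst ⟨1099511627776, 0, 0, 0⟩; ok v0 && (
  let v1 := mul x1 x2; ok v1 && (
  let v2 := mul x2 x2; ok v2 && (
  let v3 := mul x0 x1; ok v3 && (
  let v4 := mul v3 v2; ok v4 && (
  let v5 := mul v1 v1; ok v5 && (
  let v6 := mul v4 v3; ok v6 && (
  let v7 := cst ⟨549755813888, 0, 0, 0⟩; ok v7 && (
  let v8 := mul v4 x1; ok v8 && (
  let v9 := mul v8 x3; ok v9 && (
  let v10 := scale ⟨549755813888, 0, 0, 0⟩ v9; ok v10 && (
  let v11 := mul x1 x1; ok v11 && (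
  let v12 := mul v10 v10; ok v12 && (
  let v13 := sub v0 v12; ok v13 && (
  let v14 := inv v13; ok v14 && (
  let v15 := mul v10 v14; ok v15 && (
  let v16 := scale ⟨2199023255552, 0, 0, 0⟩ v15; ok v16 && (
  let v17 := scale ⟨2199023255552, 0, 0, 0⟩ v14; ok v17 && (
  let v18 := sub v17 v0; ok v18 && (
  let v19 := add v18 v16; ok v19 && (
  let v20 := mul x3 v14; ok v20 && (
  let v21 := mul x1 v20; ok v21 && (
  let v22 := sub v0 v21; ok v22 && (
  let v23 := add v0 v21; ok v23 && (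
  let v24 := mul v4 v11; ok v24 && (
  let v25 := mul v20 v20; ok v25 && (
  let v26 := scale ⟨10774999203840, 0, 0, 0⟩ v10; ok v26 && (
  let v27 := scale ⟨45768245248, 0, 0, 0⟩ v26; ok v27 && (
  let v28 := cst ⟨183207198720, 0, 0, 0⟩; ok v28 && (
  let v29 := add v27 v28; ok v29 && (
  let v30 := mul v26 v29; ok v30 && (
  let v31 := add v7 v30; ok v31 && (
  let v32 := mul v26 v31; ok v32 && (
  let v33 := add v0 v32; ok v33 && (
  let v34 := mul v26 v33; ok v34 && (
  let v35 := scale ⟨549755813888, 0, 0, 0⟩ v34; ok v35 && (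
  let v36 := add v0 v35; ok v36 && (
  let v37 := mul v33 v36; ok v37 && (
  let v38 := mul v16 v21; ok v38 && (
  let v39 := scale ⟨2199023255552, 0, 0, 0⟩ v18; ok v39 && (
  let v40 := add v38 v39; ok v40 && (
  let v41 := add v40 v4; ok v41 && (
  let v42 := mul v24 v41; ok v42 && (
  let v43 := add v42 v0; ok v43 && (
  let v44 := mul v16 v16; ok v44 && (
  let v45 := scale ⟨2199023255552, 0, 0, 0⟩ v44; ok v45 && (
  let v46 := add v45 v0; ok v46 && (
  let v47 := mul v18 v41; ok v47 && (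
  let v48 := sub v47 v0; ok v48 && (
  let v49 := log v43; ok v49 && (
  let v50 := scale ⟨549755813888, 0, 0, 0⟩ v49; ok v50 && (
  let v51 := exp v50; ok v51 && (
  let v52 := cst ⟨3298534883328, 0, 0, 0⟩; ok v52 && (
  let v53 := inv v52; ok v53 && (
  let v54 := mul v0 v53; ok v54 && (
  let v55 := cst ⟨2199023255552, 0, 0, 0⟩; ok v55 && (
  let v56 := add v42 v55; ok v56 && (
  let v57 := inv v56; ok v57 && (
  let v58 := mul v42 v57; ok v58 && (
  let v59 := mul v58 v58; ok v59 && (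
  let v60 := sub v0 v58; ok v60 && (
  let v61 := mul v59 v54; ok v61 && (
  let v62 := add v0 v61; ok v62 && (
  let v63 := mul v60 v62; ok v63 && (
  let v64 := mul v59 v59; ok v64 && (
  let v65 := scale ⟨219915747328, 0, 0, 0⟩ v64; ok v65 && (
  let v66 := mul v41 v63; ok v66 && (
  let v67 := scale ⟨549755813888, 0, 0, 0⟩ v66; ok v67 && (
  let v68 := mul v41 v65; ok v68 && (
  let v69 := scale ⟨549755813888, 0, 0, 0⟩ v68; ok v69 && (
  let v70 := add v67 v69; ok v70 && (
  let v71 := mul v18 v48; ok v71 && (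
  let v72 := scale ⟨4398046511104, 0, 0, 0⟩ v71; ok v72 && (
  let v73 := mul v18 v24; ok v73 && (
  let v74 := mul v73 v48; ok v74 && (
  let v75 := scale ⟨4398046511104, 0, 0, 0⟩ v74; ok v75 && (
  let v76 := add v75 v55; ok v76 && (
  let v77 := inv v76; ok v77 && (
  let v78 := mul v75 v77; ok v78 && (
  let v79 := mul v78 v78; ok v79 && (
  let v80 := sub v0 v78; ok v80 && (
  let v81 := mul v79 v54; ok v81 && (
  let v82 := add v0 v81; ok v82 && (
  let v83 := mul v80 v82; ok v83 && (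
  let v84 := mul v79 v79; ok v84 && (
  let v85 := scale ⟨219915747328, 0, 0, 0⟩ v84; ok v85 && (
  let v86 := mul v72 v83; ok v86 && (
  let v87 := scale ⟨549755813888, 0, 0, 0⟩ v86; ok v87 && (
  let v88 := sub v87 v70; ok v88 && (
  let v89 := mul v72 v85; ok v89 && (
  let v90 := scale ⟨549755813888, 0, 0, 0⟩ v89; ok v90 && (
  let v91 := add v90 v69; ok v91 && (
  let v92 := add v88 v91; ok v92 && (
  let v93 := mul v3 v67; ok v93 && (
  let v94 := neg v93; ok v94 && (
  let v95 := exp v94; ok v95 && (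
  let v96 := mul v3 v69; ok v96 && (
  let v97 := mul v95 v96; ok v97 && (
  let v98 := mul v3 v88; ok v98 && (
  let v99 := neg v98; ok v99 && (
  let v100 := exp v99; ok v100 && (
  let v101 := mul v3 v91; ok v101 && (
  let v102 := mul v100 v101; ok v102 && (
  let v103 := mul v21 v16; ok v103 && (
  let v104 := add v18 v103; ok v104 && (
  let v105 := inv v104; ok v105 && (
  let v106 := mul v23 v105; ok v106 && (
  let v107 := mul v22 v4; ok v107 && (
  let v108 := mul v107 v106; ok v108 && (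
  let v109 := sub v0 v11; ok v109 && (
  let v110 := mul v25 v109; ok v110 && (
  let v111 := mul v8 v8; ok v111 && (
  let v112 := sub v0 v25; ok v112 && (
  let v113 := mul v109 v112; ok v113 && (
  let v114 := mul v24 v48; ok v114 && (
  let v115 := inv v43; ok v115 && (
  let v116 := mul v114 v115; ok v116 && (
  let v117 := add v18 v116; ok v117 && (
  let v118 := mul v43 v117; ok v118 && (
  let v119 := mul v118 v118; ok v119 && (
  let v120 := inv v119; ok v120 && (
  let v121 := mul v113 v120; ok v121 && (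
  let v122 := add v18 v24; ok v122 && (
  let v123 := mul v0 v122; ok v123 && (
  let v124 := inv v123; ok v124 && (
  let v125 := mul x0 v124; ok v125 && (
  let v126 := mul v125 v125; ok v126 && (
  let v127 := mul v126 v113; ok v127 && (
  let v128 := cst ⟨45812285440, 0, 0, 0⟩; ok v128 && (
  let v129 := scale ⟨1527119872, 0, 0, 0⟩ v127; ok v129 && (
  let v130 := sub v128 v129; ok v130 && (
  let v131 := mul v127 v130; ok v131 && (
  let v132 := sub v7 v131; ok v132 && (
  let v133 := mul v127 v132; ok v133 && (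
  let v134 := sub v0 v133; ok v134 && (
  let v135 := add v95 v0; ok v135 && (
  let v136 := mul v95 v95; ok v136 && (
  let v137 := add v136 v0; ok v137 && (
  let v138 := mul v95 v134; ok v138 && (
  let v139 := scale ⟨2199023255552, 0, 0, 0⟩ v138; ok v139 && (
  let v140 := add v137 v139; ok v140 && (
  let v141 := scale ⟨4398046511104, 0, 0, 0⟩ v97; ok v141 && (
  let v142 := sub v140 v141; ok v142 && (
  let v143 := inv v135; ok v143 && (
  let v144 := mul v142 v143; ok v144 && (
  let v145 := add v144 v135; ok v145 && (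
  let v146 := mul v95 v108; ok v146 && (
  let v147 := scale ⟨549755813888, 0, 0, 0⟩ v146; ok v147 && (
  let v148 := mul v147 v145; ok v148 && (
  let v149 := sub v142 v148; ok v149 && (
  isPos 4 v142 && (
  isPos 4 v149 && (
  let v150 := mul v3 v70; ok v150 && (
  let v151 := scale ⟨2199023255552, 0, 0, 0⟩ v150; ok v151 && (
  let v152 := scale ⟨183274307584, 0, 0, 0⟩ v151; ok v152 && (
  let v153 := sub v7 v152; ok v153 && (
  let v154 := mul v151 v153; ok v154 && (
  let v155 := sub v0 v154; ok v155 && (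
  let v156 := mul v70 v155; ok v156 && (
  let v157 := inv v149; ok v157 && (
  let v158 := mul v156 v157; ok v158 && (
  let v159 := mul v3 v158; ok v159 && (
  let v160 := add v159 v7; ok v160 && (
  let v161 := inv v160; ok v161 && (
  let v162 := mul v158 v161; ok v162 && (
  let v163 := mul v3 v162; ok v163 && (
  let v164 := mul v108 v163; ok v164 && (
  let v165 := scale ⟨549755813888, 0, 0, 0⟩ v164; ok v165 && (
  let v166 := sub v0 v165; ok v166 && (
  let v167 := sub v0 v164; ok v167 && (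
  let v168 := inv v167; ok v168 && (
  let v169 := mul v166 v168; ok v169 && (
  let v170 := add v164 v0; ok v170 && (
  let v171 := mul v95 v170; ok v171 && (
  let v172 := mul v106 v169; ok v172 && (
  let v173 := mul x1 v162; ok v173 && (
  let v174 := mul v172 v173; ok v174 && (
  let v175 := mul v164 v169; ok v175 && (
  isPos 4 v167 && (
  let v176 := mul v22 v23; ok v176 && (
  let v177 := add v18 v4; ok v177 && (
  let v178 := mul v21 v18; ok v178 && (
  let v179 := mul v178 v16; ok v179 && (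
  let v180 := scale ⟨2199023255552, 0, 0, 0⟩ v179; ok v180 && (
  let v181 := add v46 v180; ok v181 && (
  let v182 := mul v177 v181; ok v182 && (
  let v183 := inv v182; ok v183 && (
  let v184 := mul v176 v183; ok v184 && (
  let v185 := mul v4 v184; ok v185 && (
  isPos 4 v88 && (
  let v186 := mul v127 v115; ok v186 && (
  let v187 := scale ⟨1527119872, 0, 0, 0⟩ v186; ok v187 && (
  let v188 := sub v128 v187; ok v188 && (
  let v189 := mul v186 v188; ok v189 && (
  let v190 := sub v7 v189; ok v190 && (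
  let v191 := mul v186 v190; ok v191 && (
  let v192 := sub v0 v191; ok v192 && (
  let v193 := add v100 v0; ok v193 && (
  let v194 := mul v100 v100; ok v194 && (
  let v195 := add v194 v0; ok v195 && (
  let v196 := mul v100 v192; ok v196 && (
  let v197 := scale ⟨2199023255552, 0, 0, 0⟩ v196; ok v197 && (
  let v198 := add v195 v197; ok v198 && (
  let v199 := scale ⟨4398046511104, 0, 0, 0⟩ v102; ok v199 && (
  let v200 := sub v198 v199; ok v200 && (
  let v201 := inv v193; ok v201 && (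
  let v202 := mul v200 v201; ok v202 && (
  let v203 := add v202 v193; ok v203 && (
  let v204 := mul v100 v185; ok v204 && (
  let v205 := scale ⟨549755813888, 0, 0, 0⟩ v204; ok v205 && (
  let v206 := mul v205 v203; ok v206 && (
  let v207 := sub v200 v206; ok v207 && (
  isPos 4 v200 && (
  isPos 4 v207 && (
  let v208 := mul v3 v92; ok v208 && (
  let v209 := scale ⟨2199023255552, 0, 0, 0⟩ v208; ok v209 && (
  let v210 := scale ⟨183274307584, 0, 0, 0⟩ v209; ok v210 && (
  let v211 := sub v7 v210; ok v211 && (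
  let v212 := mul v209 v211; ok v212 && (
  let v213 := sub v0 v212; ok v213 && (
  let v214 := mul v92 v213; ok v214 && (
  let v215 := inv v207; ok v215 && (
  let v216 := mul v214 v215; ok v216 && (
  let v217 := mul v3 v216; ok v217 && (
  let v218 := add v217 v7; ok v218 && (
  let v219 := inv v218; ok v219 && (
  let v220 := mul v216 v219; ok v220 && (
  let v221 := mul v3 v220; ok v221 && (
  let v222 := mul v185 v221; ok v222 && (
  let v223 := mul x1 v220; ok v223 && (
  let v224 := add v10 v0; ok v224 && (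
  let v225 := inv v224; ok v225 && (
  let v226 := mul v10 v225; ok v226 && (
  let v227 := scale ⟨2199023255552, 0, 0, 0⟩ v226; ok v227 && (
  let v228 := sub v0 v227; ok v228 && (
  let v229 := sub v0 v10; ok v229 && (
  let v230 := mul x3 v225; ok v230 && (
  let v231 := mul v230 v228; ok v231 && (
  let v232 := add v23 v231; ok v232 && (
  let v233 := scale ⟨224412041216, 0, 0, 0⟩ v14; ok v233 && (
  let v234 := inv v37; ok v234 && (
  let v235 := mul v233 v234; ok v235 && (
  let v236 := scale ⟨4398046511104, 0, 0, 0⟩ v0; ok v236 && (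
  let v237 := mul x0 v20; ok v237 && (
  let v238 := add v236 v237; ok v238 && (
  let v239 := inv v238; ok v239 && (
  let v240 := mul x0 v239; ok v240 && (
  let v241 := mul v0 v239; ok v241 && (
  let v242 := mul v241 v23; ok v242 && (
  let v243 := mul v242 v235; ok v243 && (
  let v244 := mul v240 v23; ok v244 && (
  let v245 := mul v244 v235; ok v245 && (
  let v246 := sub v0 v245; ok v246 && (
  let v247 := inv v246; ok v247 && (
  let v248 := mul v171 v245; ok v248 && (
  let v249 := sub v0 v248; ok v249 && (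
  let v250 := inv v249; ok v250 && (
  let v251 := scale ⟨2199023255552, 0, 0, 0⟩ v5; ok v251 && (
  let v252 := add v251 v0; ok v252 && (
  let v253 := add v5 v0; ok v253 && (
  let v254 := scale ⟨549755813888, 0, 0, 0⟩ v162; ok v254 && (
  let v255 := inv x0; ok v255 && (
  let v256 := mul x1 v255; ok v256 && (
  let v257 := scale ⟨2199023255552, 0, 0, 0⟩ v256; ok v257 && (
  let v258 := add v254 v257; ok v258 && (
  let v259 := scale ⟨549755813888, 0, 0, 0⟩ v258; ok v259 && (
  let v260 := mul v10 v20; ok v260 && (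
  let v261 := sub v0 v110; ok v261 && (
  let v262 := mul v10 v21; ok v262 && (
  let v263 := scale ⟨2199023255552, 0, 0, 0⟩ v262; ok v263 && (
  let v264 := sub v261 v263; ok v264 && (
  let v265 := mul v260 v260; ok v265 && (
  let v266 := add v264 v265; ok v266 && (
  let v267 := add v266 v0; ok v267 && (
  let v268 := scale ⟨549755813888, 0, 0, 0⟩ v267; ok v268 && (
  let v269 := scale ⟨549755813888, 0, 0, 0⟩ v24; ok v269 && (
  let v270 := sub v14 v269; ok v270 && (
  let v271 := mul v111 v261; ok v271 && (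
  let v272 := mul v271 v13; ok v272 && (
  let v273 := scale ⟨137438953472, 0, 0, 0⟩ v272; ok v273 && (
  let v274 := add v270 v273; ok v274 && (
  let v275 := mul v268 v274; ok v275 && (
  let v276 := add v171 v0; ok v276 && (
  let v277 := mul v276 v247; ok v277 && (
  let v278 := mul v171 v250; ok v278 && (
  let v279 := add v277 v278; ok v279 && (
  let v280 := mul v245 v279; ok v280 && (
  let v281 := add v175 v280; ok v281 && (
  let v282 := mul v281 v5; ok v282 && (
  let v283 := mul v276 v245; ok v283 && (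
  let v284 := mul v283 v247; ok v284 && (
  let v285 := add v175 v284; ok v285 && (
  let v286 := mul v285 v5; ok v286 && (
  let v287 := scale ⟨223338299392, 0, 0, 0⟩ v286; ok v287 && (
  let v288 := add v7 v287; ok v288 && (
  let v289 := mul v286 v288; ok v289 && (
  let v290 := add v0 v289; ok v290 && (
  let v291 := scale ⟨893353197568, 0, 0, 0⟩ v282; ok v291 && (
  let v292 := add v0 v291; ok v292 && (
  let v293 := mul v282 v292; ok v293 && (
  let v294 := add v0 v293; ok v294 && (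
  let v295 := mul v227 v230; ok v295 && (
  let v296 := mul v295 v252; ok v296 && (
  let v297 := mul v296 v294; ok v297 && (
  let v298 := mul v275 v290; ok v298 && (
  let v299 := add v51 v7; ok v299 && (
  let v300 := mul v297 v299; ok v300 && (
  let v301 := add v298 v300; ok v301 && (
  let v302 := add v51 v0; ok v302 && (
  let v303 := mul v297 v302; ok v303 && (
  let v304 := mul v253 v302; ok v304 && (
  let v305 := mul v304 v230; ok v305 && (
  let v306 := mul v305 v229; ok v306 && (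
  let v307 := mul v301 v174; ok v307 && (
  let v308 := mul v306 v259; ok v308 && (
  let v309 := add v307 v308; ok v309 && (
  let v310 := mul v8 v232; ok v310 && (
  let v311 := inv v51; ok v311 && (
  let v312 := mul v310 v311; ok v312 && (
  let v313 := scale ⟨549755813888, 0, 0, 0⟩ v312; ok v313 && (
  let v314 := mul v22 v313; ok v314 && (
  let v315 := mul v4 v309; ok v315 && (
  let v316 := add v314 v315; ok v316 && (
  let v317 := mul v0 v316; ok v317 && (
  let v318 := mul v301 v276; ok v318 && (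
  let v319 := mul v318 v247; ok v319 && (
  let v320 := mul v303 v171; ok v320 && (
  let v321 := mul v320 v250; ok v321 && (
  let v322 := add v319 v321; ok v322 && (
  let v323 := mul v22 v317; ok v323 && (
  let v324 := mul v243 v322; ok v324 && (
  let v325 := add v323 v324; ok v325 && (
  let v326 := mul v111 v325; ok v326 && (
  let v327 := mul v326 v311; ok v327 && (
  let v328 := sub v0 v327; ok v328 && (
  let v329 := inv v328; ok v329 && (
  let v330 := mul v325 v329; ok v330 && (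
  let v331 := mul v4 v330; ok v331 && (
  let v332 := mul v111 v330; ok v332 && (
  let v333 := mul v332 v311; ok v333 && (
  let v334 := sub v0 v333; ok v334 && (
  let v335 := mul v48 v334; ok v335 && (
  let v336 := sub v335 v331; ok v336 && (
  let v337 := inv v336; ok v337 && (
  let v338 := mul v331 v337; ok v338 && (
  let v339 := sub v51 v332; ok v339 && (
  let v340 := inv v339; ok v340 && (
  let v341 := mul v338 v221; ok v341 && (
  let v342 := scale ⟨549755813888, 0, 0, 0⟩ v341; ok v342 && (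
  let v343 := sub v0 v342; ok v343 && (
  let v344 := sub v0 v341; ok v344 && (
  let v345 := inv v344; ok v345 && (
  let v346 := mul v343 v345; ok v346 && (
  let v347 := mul x1 v340; ok v347 && (
  let v348 := mul v223 v337; ok v348 && (
  let v349 := mul v348 v346; ok v349 && (
  let v350 := add v347 v349; ok v350 && (
  let v351 := mul v6 v330; ok v351 && (
  let v352 := mul v340 v351; ok v352 && (
  let v353 := mul v221 v337; ok v353 && (
  let v354 := mul v353 v346; ok v354 && (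
  let v355 := mul v354 v331; ok v355 && (
  let v356 := add v352 v355; ok v356 && (
  let v357 := scale ⟨223338299392, 0, 0, 0⟩ v356; ok v357 && (
  let v358 := add v7 v357; ok v358 && (
  let v359 := mul v356 v358; ok v359 && (
  let v360 := add v0 v359; ok v360 && (
  let v361 := mul v350 v360; ok v361 && (
  let v362 := mul v361 v329; ok v362 && (
  let v363 := mul v362 v322; ok v363 && (
  let v364 := mul v244 v22; ok v364 && (
  let v365 := cst ⟨7696581394432, 0, 0, 0⟩; ok v365 && (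
  let v366 := cst ⟨10995116277760, 0, 0, 0⟩; ok v366 && (
  let v367 := inv v366; ok v367 && (
  let v368 := mul v365 v367; ok v368 && (
  let v369 := mul v224 v23; ok v369 && (
  let v370 := mul v369 v368; ok v370 && (
  let v371 := mul v177 v105; ok v371 && (
  let v372 := mul v21 v371; ok v372 && (
  let v373 := scale ⟨549755813888, 0, 0, 0⟩ v222; ok v373 && (
  let v374 := sub v0 v373; ok v374 && (
  let v375 := sub v0 v222; ok v375 && (
  let v376 := inv v375; ok v376 && (
  let v377 := mul v374 v376; ok v377 && (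
  let v378 := mul v377 v185; ok v378 && (
  let v379 := mul v111 v121; ok v379 && (
  let v380 := scale ⟨733097230336, 0, 0, 0⟩ v379; ok v380 && (
  let v381 := sub v0 v380; ok v381 && (
  let v382 := mul v121 v381; ok v382 && (
  let v383 := mul v88 v88; ok v383 && (
  let v384 := mul v11 v383; ok v384 && (
  let v385 := add v382 v384; ok v385 && (
  let v386 := mul v378 v223; ok v386 && (
  let v387 := add v385 v0; ok v387 && (
  let v388 := mul v386 v387; ok v388 && (
  let v389 := sub v385 v388; ok v389 && (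
  let v390 := scale ⟨366548615168, 0, 0, 0⟩ v44; ok v390 && (
  let v391 := sub v0 v390; ok v391 && (
  let v392 := mul v25 v391; ok v392 && (
  let v393 := add v389 v392; ok v393 && (
  let v394 := mul v371 v393; ok v394 && (
  let v395 := mul v372 v372; ok v395 && (
  let v396 := add v0 v395; ok v396 && (
  let v397 := inv v396; ok v397 && (
  let v398 := mul v394 v397; ok v398 && (
  let v399 := sub v0 v338; ok v399 && (
  let v400 := mul v399 v398; ok v400 && (
  let v401 := sub v0 v386; ok v401 && (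
  isPos 4 v401 && (
  isPos 4 v398 && (
  isPos 4 v399 && (
  let v402 := mul v362 v238; ok v402 && (
  let v403 := mul v402 v316; ok v403 && (
  let v404 := inv v23; ok v404 && (
  let v405 := mul v403 v404; ok v405 && (
  let v406 := mul v3 v400; ok v406 && (
  let v407 := neg v406; ok v407 && (
  let v408 := exp v407; ok v408 && (
  let v409 := mul v4 v370; ok v409 && (
  let v410 := add v0 v409; ok v410 && (
  let v411 := inv v410; ok v411 && (
  let v412 := mul v408 v411; ok v412 && (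
  let v413 := mul v412 v19; ok v413 && (
  let v414 := mul v8 v330; ok v414 && (
  let v415 := mul v414 v404; ok v415 && (
  let v416 := add v0 v415; ok v416 && (
  let v417 := mul v413 v416; ok v417 && (
  let v418 := mul v417 v340; ok v418 && (
  let v419 := mul v4 v363; ok v419 && (
  let v420 := mul v419 v245; ok v420 && (
  let v421 := mul v4 v364; ok v421 && (
  let v422 := mul v405 v421; ok v422 && (
  let v423 := add v420 v422; ok v423 && (
  let v424 := add v419 v405; ok v424 && (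
  let v425 := add v0 v423; ok v425 && (
  let v426 := mul v418 v425; ok v426 && (
  let v427 := add v424 v426; ok v427 && (
  let v428 := sub v0 v427; ok v428 && (
  let v429 := scale ⟨1073741824, 0, 0, 0⟩ v4; ok v429 && (
  let v430 := sub v428 v429; ok v430 && (
  let v431 := sub v19 v0; ok v431 && (
  let v432 := add v431 v55; ok v432 && (
  let v433 := scale ⟨2199023255552, 0, 0, 0⟩ v368; ok v433 && (
  let v434 := sub v432 v433; ok v434 && (
  let v435 := mul v224 v434; ok v435 && (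
  let v436 := mul v431 v433; ok v436 && (
  let v437 := add v436 v0; ok v437 && (
  let v438 := inv v437; ok v438 && (
  let v439 := mul v435 v438; ok v439 && (
  let v440 := mul v241 v322; ok v440 && (
  let v441 := scale ⟨549755813888, 0, 0, 0⟩ v235; ok v441 && (
  let v442 := add v16 v441; ok v442 && (
  let v443 := mul v440 v442; ok v443 && (
  let v444 := scale ⟨2199023255552, 0, 0, 0⟩ v443; ok v444 && (
  let v445 := add v317 v444; ok v445 && (
  let v446 := scale ⟨2199023255552, 0, 0, 0⟩ v445; ok v446 && (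
  let v447 := mul v446 v329; ok v447 && (
  let v448 := sub v23 v414; ok v448 && (
  let v449 := inv v448; ok v449 && (
  let v450 := mul v447 v449; ok v450 && (
  let v451 := sub v439 v450; ok v451 && (
  let v452 := mul v237 v237; ok v452 && (
  let v453 := cst ⟨14293651161088, 0, 0, 0⟩; ok v453 && (
  let v454 := mul v453 v367; ok v454 && (
  let v455 := mul v452 v454; ok v455 && (
  let v456 := mul v0 v0; ok v456 && (
  let v457 := scale ⟨27487790694400, 0, 0, 0⟩ v456; ok v457 && (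
  let v458 := add v455 v457; ok v458 && (
  let v459 := mul v370 v411; ok v459 && (
  let v460 := sub v39 v4; ok v460 && (
  let v461 := sub v460 v38; ok v461 && (
  let v462 := mul v3 v0; ok v462 && (
  let v463 := mul v23 v322; ok v463 && (
  let v464 := mul v463 v239; ok v464 && (
  let v465 := add v309 v464; ok v465 && (
  let v466 := add v414 v55; ok v466 && (
  let v467 := mul x0 v466; ok v467 && (
  let v468 := mul v458 v459; ok v468 && (
  let v469 := mul v329 v467; ok v469 && (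
  let v470 := mul v462 v465; ok v470 && (
  let v471 := mul v469 v470; ok v471 && (
  let v472 := sub v468 v471; ok v472 && (
  let v473 := scale ⟨549755813888, 0, 0, 0⟩ v414; ok v473 && (
  let v474 := add v0 v473; ok v474 && (
  let v475 := mul v329 v474; ok v475 && (
  let v476 := mul v4 v22; ok v476 && (
  let v477 := mul v476 v232; ok v477 && (
  let v478 := mul v23 v51; ok v478 && (
  let v479 := inv v478; ok v479 && (
  let v480 := mul v477 v479; ok v480 && (
  let v481 := mul v475 v480; ok v481 && (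
  let v482 := sub v461 v481; ok v482 && (
  let v483 := mul v235 v472; ok v483 && (
  let v484 := sub v0 v235; ok v484 && (
  let v485 := mul v11 v482; ok v485 && (
  let v486 := mul v484 v485; ok v486 && (
  let v487 := mul v458 v486; ok v487 && (
  let v488 := add v483 v487; ok v488 && (
  isPos 4 v246 && (
  isPos 4 v249 && (
  let v489 := scale ⟨2199023255552, 0, 0, 0⟩ v326; ok v489 && (
  let v490 := sub v51 v489; ok v490 && (
  isPos 4 v490 && (
  isPos 4 v336 && (
  let v491 := sub v7 v222; ok v491 && (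
  isPos 4 v491 && (
  let v492 := scale ⟨687194767360, 0, 0, 0⟩ v0; ok v492 && (
  let v493 := sub v492 v286; ok v493 && (
  isPos 4 v493 && (
  let v494 := scale ⟨377957122048, 0, 0, 0⟩ v0; ok v494 && (
  let v495 := sub v494 v282; ok v495 && (
  isPos 4 v495 && (
  isPos 4 v448 && (
  isPos 4 v344 && (
  let v496 := sub v492 v356; ok v496 && (
  isPos 4 v496 && (
  isPos 4 v451 && (
  isPos 4 v430 && (
  isPos 4 v488 && (
  isPos 4 v482 && (
  true))))))))))))))))))))))))))))))))))))))))))))))))))))))))))))))))))))))))))))))))))))))))))))))))))))))))))))))))))))))))))))))))))))))))))))))))))))))))))))))))))))))))))))))))))))))))))))))))))))))))))))))))))))))))))))))))))))))))))))))))))))))))))))))))))))))))))))))))))))))))))))))))))))))))))))))))))))))))))))))))))))))))))))))))))))))))))))))))))))))))))))))))))))))))))))))))))))))))))))))))))))))))))))))))))))))))))))))))))))))))))))))))))))))))))))))))))))))))))))))))))))))))))))))))))))))))))))))))))))))))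
  | _ => false

set_option maxRecDepth 1000000 in
theorem chk4_eq (O : Ops) (m : List O.α)
    (h : chk4 O.cst O.add O.sub O.mul O.scale O.neg O.inv O.exp O.log O.ok O.isPos O.isLt m = true) :
    runG O 4 prog4 m = true := by
  match m, h with
  | [x0, x1, x2, x3], h => exact h

def chkB4 : List opsE.α → Bool :=
  chk4 opsE.cst opsE.add opsE.sub opsE.mul opsE.scale opsE.neg opsE.inv opsE.exp opsE.log opsE.ok opsE.isPos opsE.isLt

theorem chkB4_eq (m : List opsE.α) (h : chkB4 m = true) : runG opsE 4 prog4 m = true :=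
  chk4_eq opsE m h

def prog5 : List Op := [
  .const ⟨1099511627776, 0, 0, 0⟩,
  .mul 2 3,
  .mul 4 4,
  .mul 3 4,
  .mul 0 1,
  .mul 3 3,
  .mul 1 2,
  .const ⟨10995367936, 0, 0, 0⟩,
  .sub 2 0,
  .pos 0]

def chk5 {α : Type} (cst : Z → α) (add sub mul : α → α → α) (scale : Z → α → α)
    (neg inv exp log : α → α) (ok : α → Bool) (isPos : Nat → α → Bool) (isLt : α → Nat → Bool) :
    List α → Bool
  | [x0, x1, x2, x3] =>
  let v0 := cst ⟨1099511627776, 0, 0, 0⟩; ok v0 && (
  let v1 := mul x1 x2; ok v1 && (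
  let v2 := mul x2 x2; ok v2 && (
  let v3 := mul x0 x1; ok v3 && (
  let v4 := mul v3 v2; ok v4 && (
  let v5 := mul v1 v1; ok v5 && (
  let v6 := mul v4 v3; ok v6 && (
  let v7 := cst ⟨10995367936, 0, 0, 0⟩; ok v7 && (
  let v8 := sub v5 v7; ok v8 && (
  isPos 4 v8 && (
  true))))))))))
  | _ => false

set_option maxRecDepth 1000000 in
theorem chk5_eq (O : Ops) (m : List O.α)
    (h : chk5 O.cst O.add O.sub O.mul O.scale O.neg O.inv O.exp O.log O.ok O.isPos O.isLt m = true) :
    runG O 4 prog5 m = true := by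
  match m, h with
  | [x0, x1, x2, x3], h => exact h

def chkB5 : List opsE.α → Bool :=
  chk5 opsE.cst opsE.add opsE.sub opsE.mul opsE.scale opsE.neg opsE.inv opsE.exp opsE.log opsE.ok opsE.isPos opsE.isLt

theorem chkB5_eq (m : List opsE.α) (h : chkB5 m = true) : runG opsE 4 prog5 m = true :=
  chk5_eq opsE m h

def progs : List (List Op) := [prog0, prog1, prog2, prog3, prog4, prog5]

def chks : List (List opsE.α → Bool) := [chkB0, chkB1, chkB2, chkB3, chkB4, chkB5]

theorem chks_eq : List.Forall₂ (fun (ops : List Op) (chk : List opsE.α → Bool) =>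
    ∀ m, chk m = true → runG opsE 4 ops m = true) progs chks :=
  List.Forall₂.cons chkB0_eq (List.Forall₂.cons chkB1_eq (List.Forall₂.cons chkB2_eq (List.Forall₂.cons chkB3_eq (List.Forall₂.cons chkB4_eq (List.Forall₂.cons chkB5_eq List.Forall₂.nil)))))

end Pool.Agent.helper71.FJ.Crt.QHIII
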