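import Pool.Agent.helper31.IC.EngD
import Pool.Agent.helper14.QF.Inst

/-!
Generated: straight line program(s) and compiled form(s).
-/

namespace Pool.Agent.helper71.FJ.Crt.QMa

open Pool.Agent.helper31.IA (Z Op)
open Pool.Agent.helper31.IC

set_option maxRecDepth 100000

abbrev opsE : Ops := Pool.Agent.helper14.QF.opsF

def prog0 : List Op := [
  .const ⟨1099511627776, 0, 0, 0⟩,
  .mul 2 3,
  .mul 0 2,
  .mul 5 0,
  .mul 6 6,
  .mul 6 0,
  .mul 3 3,
  .mul 8 1,
  .const ⟨549755813888, 0, 0, 0⟩,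
  .mul 10 5,
  .mul 0 13,
  .scale ⟨549755813888, 0, 0, 0⟩ 0,
  .mul 8 8,
  .mul 1 1,
  .sub 13 0,
  .inv 0,
  .mul 4 0,
  .scale ⟨2199023255552, 0, 0, 0⟩ 0,
  .scale ⟨2199023255552, 0, 0, 0⟩ 2,
  .sub 0 18,
  .add 0 2,
  .mul 24 5,
  .mul 18 0,
  .sub 22 0,
  .add 23 1,
  .mul 26 12,
  .mul 4 4,
  .scale ⟨10774999203840, 0, 0, 0⟩ 15,
  .scale ⟨45768245248, 0, 0, 0⟩ 0,
  .const ⟨183207198720, 0, 0, 0⟩,
  .add 1 0,
  .mul 3 0,
  .add 23 0,
  .mul 5 0,
  .add 33 0,
  .mul 7 0,
  .scale ⟨549755813888, 0, 0, 0⟩ 0,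
  .add 36 0,
  .mul 3 0,
  .mul 21 16,
  .scale ⟨2199023255552, 0, 0, 0⟩ 20,
  .add 1 0,
  .add 0 43,
  .mul 17 0,
  .add 0 43,
  .mul 27 27,
  .scale ⟨2199023255552, 0, 0, 0⟩ 0,
  .add 0 46,
  .mul 28 5,
  .sub 0 48,
  .log 5,
  .scale ⟨549755813888, 0, 0, 0⟩ 0,
  .exp 0,
  .const ⟨3298534883328, 0, 0, 0⟩,
  .inv 0,
  .mul 54 0,
  .const ⟨2199023255552, 0, 0, 0⟩,
  .add 13 0,
  .inv 0,
  .mul 15 0,
  .mul 0 0,
  .sub 60 1,
  .mul 1 6,
  .add 62 0,
  .mul 2 0,
  .mul 4 4,
  .scale ⟨219915747328, 0, 0, 0⟩ 0,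
  .mul 24 2,
  .scale ⟨549755813888, 0, 0, 0⟩ 0,
  .mul 26 2,
  .scale ⟨549755813888, 0, 0, 0⟩ 0,
  .add 2 0,
  .mul 52 22,
  .scale ⟨4398046511104, 0, 0, 0⟩ 0,
  .mul 54 48,
  .mul 0 25,
  .scale ⟨4398046511104, 0, 0, 0⟩ 0,
  .add 0 20,
  .inv 0,
  .mul 2 0,
  .mul 0 0,
  .sub 80 1,
  .mul 1 26,
  .add 82 0,
  .mul 2 0,
  .mul 4 4,
  .scale ⟨219915747328, 0, 0, 0⟩ 0,
  .mul 13 2,
  .scale ⟨549755813888, 0, 0, 0⟩ 0,
  .sub 0 17,
  .mul 16 3,
  .scale ⟨549755813888, 0, 0, 0⟩ 0,
  .add 0 21,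
  .add 3 0,
  .mul 88 25,
  .neg 0,
  .exp 0,
  .mul 91 26,
  .mul 1 0,
  .mul 93 9,
  .neg 0,
  .exp 0,
  .mul 96 9,
  .mul 1 0,
  .mul 81 86,
  .add 85 0,
  .inv 0,
  .mul 82 0,
  .mul 84 109,
  .mul 0 1,
  .sub 109 97,
  .mul 84 0,
  .mul 102 102,
  .sub 112 86,
  .mul 3 0,
  .mul 89 65,
  .inv 71,
  .mul 1 0,
  .add 98 0,
  .mul 74 0,
  .mul 0 0,
  .inv 0,
  .mul 7 0,
  .add 103 97,
  .mul 124 0,
  .inv 0,
  .mul 125 0,
  .mul 0 0,
  .mul 0 13,
  .const ⟨10849087389696, 0, 0, 0⟩,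
  .sub 0 1,
  .pos 0,
  .const ⟨13, 0, 0, 0⟩,
  .const ⟨2295, 0, 0, 0⟩,
  .mul 4 1,
  .sub 1 0,
  .const ⟨302996, 0, 0, 0⟩,
  .mul 7 1,
  .sub 1 0,
  .const ⟨27269633, 0, 0, 0⟩,
  .mul 10 1,
  .sub 1 0,
  .const ⟨1527099484, 0, 0, 0⟩,
  .mul 13 1,
  .sub 1 0,
  .const ⟨45812984490, 0, 0, 0⟩,
  .mul 16 1,
  .sub 1 0,
  .mul 18 0,
  .sub 139 0,
  .mul 20 0,
  .sub 149 0,
  .add 54 150,
  .mul 55 55,
  .add 0 152,
  .mul 57 3,
  .scale ⟨2199023255552, 0, 0, 0⟩ 0,
  .add 2 0,
  .scale ⟨4398046511104, 0, 0, 0⟩ 58,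
  .sub 1 0,
  .inv 7,
  .mul 1 0,
  .add 0 9,
  .mul 65 52,
  .scale ⟨549755813888, 0, 0, 0⟩ 0,
  .mul 0 2,
  .sub 6 0,
  .pos 7,
  .pos 0,
  .sub 165 69,
  .mul 0 15,
  .scale ⟨2199023255552, 0, 0, 0⟩ 69,
  .add 1 0,
  .inv 4,
  .mul 1 0,
  .scale ⟨549755813888, 0, 0, 0⟩ 0,
  .add 0 164,
  .inv 0,
  .mul 2 0,
  .mul 66 0,
  .scale ⟨549755813888, 0, 0, 0⟩ 0,
  .sub 177 0,
  .sub 178 2,
  .inv 0,
  .mul 2 0,
  .add 5 181,
  .mul 86 0,
  .mul 76 2,
  .mul 0 9,
  .mul 9 4,
  .pos 7,
  .mul 163 162,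
  .add 168 189,
  .mul 166 169,
  .mul 0 172,
  .scale ⟨2199023255552, 0, 0, 0⟩ 0,
  .add 144 0,
  .mul 4 0,
  .inv 0,
  .mul 7 0,
  .mul 197 0,
  .pos 107,
  .mul 68 80,
  .sub 68 0,
  .pos 0,
  .mul 1 67,
  .sub 67 0,
  .mul 3 0,
  .sub 66 0,
  .mul 5 0,
  .sub 65 0,
  .mul 7 0,
  .sub 64 0,
  .mul 9 0,
  .sub 63 0,
  .mul 11 0,
  .sub 201 0,
  .mul 13 0,
  .sub 211 0,
  .add 111 212,
  .mul 112 112,
  .add 0 214,
  .mul 114 3,
  .scale ⟨2199023255552, 0, 0, 0⟩ 0,
  .add 2 0,
  .scale ⟨4398046511104, 0, 0, 0⟩ 115,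
  .sub 1 0,
  .inv 7,
  .mul 1 0,
  .add 0 9,
  .mul 122 27,
  .scale ⟨549755813888, 0, 0, 0⟩ 0,
  .mul 0 2,
  .sub 6 0,
  .pos 7,
  .pos 0,
  .sub 227 126,
  .mul 0 15,
  .scale ⟨2199023255552, 0, 0, 0⟩ 126,
  .add 1 0,
  .inv 4,
  .mul 1 0,
  .scale ⟨549755813888, 0, 0, 0⟩ 0,
  .add 0 226,
  .inv 0,
  .mul 2 0,
  .mul 41 0,
  .mul 1 239,
  .add 228 239,
  .inv 0,
  .mul 230 0,
  .scale ⟨2199023255552, 0, 0, 0⟩ 0,
  .sub 243 0,
  .sub 244 233,
  .mul 249 4,
  .mul 0 2,
  .add 223 0,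
  .scale ⟨224412041216, 0, 0, 0⟩ 233,
  .inv 211,
  .mul 1 0,
  .scale ⟨4398046511104, 0, 0, 0⟩ 252,
  .mul 252 231,
  .add 1 0,
  .inv 0,
  .mul 255 0,
  .mul 257 1,
  .mul 0 233,
  .mul 0 7,
  .mul 3 235,
  .mul 0 9,
  .sub 261 0,
  .inv 0,
  .mul 80 2,
  .sub 264 0,
  .inv 0,
  .scale ⟨2199023255552, 0, 0, 0⟩ 260,
  .add 0 267,
  .add 262 268,
  .scale ⟨3573412790272, 0, 0, 0⟩ 247,
  .const ⟨339302416384, 0, 0, 0⟩,
  .add 1 0,
  .scale ⟨549755813888, 0, 0, 0⟩ 0,
  .mul 262 252,
  .sub 274 163,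
  .mul 264 253,
  .scale ⟨2199023255552, 0, 0, 0⟩ 0,
  .sub 2 0,
  .mul 4 4,
  .add 1 0,
  .add 0 280,
  .scale ⟨549755813888, 0, 0, 0⟩ 0,
  .scale ⟨549755813888, 0, 0, 0⟩ 257,
  .sub 268 0,
  .mul 172 9,
  .mul 0 271,
  .scale ⟨137438953472, 0, 0, 0⟩ 0,
  .add 3 0,
  .mul 6 0,
  .const ⟨1, 0, 0, 0⟩,
  .const ⟨12, 0, 0, 0⟩,
  .mul 163 1,
  .sub 1 0,
  .const ⟨2296, 0, 0, 0⟩,
  .mul 166 1,
  .sub 1 0,
  .const ⟨302995, 0, 0, 0⟩,
  .mul 169 1,
  .sub 1 0,
  .const ⟨27269634, 0, 0, 0⟩,
  .mul 172 1,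
  .sub 1 0,
  .const ⟨1527099483, 0, 0, 0⟩,
  .mul 175 1,
  .sub 1 0,
  .const ⟨45812984491, 0, 0, 0⟩,
  .mul 178 1,
  .sub 1 0,
  .mul 180 0,
  .sub 301 0,
  .mul 182 0,
  .sub 311 0,
  .mul 184 306,
  .mul 0 0,
  .scale ⟨369367187456, 0, 0, 0⟩ 0,
  .add 3 0,
  .mul 220 0,
  .scale ⟨2199023255552, 0, 0, 0⟩ 0,
  .add 165 0,
  .add 0 151,
  .const ⟨8589934592, 0, 0, 0⟩,
  .add 1 0,
  .log 0,
  .scale ⟨549755813888, 0, 0, 0⟩ 0,
  .exp 0,
  .mul 229 149,
  .add 1 0,
  .mul 0 64,
  .mul 145 62,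
  .add 1 0,
  .mul 69 0,
  .add 145 0,
  .mul 0 326,
  .mul 6 72,
  .mul 0 71,
  .add 149 0,
  .mul 0 330,
  .scale ⟨223338299392, 0, 0, 0⟩ 0,
  .add 330 0,
  .mul 2 0,
  .add 340 0,
  .scale ⟨893353197568, 0, 0, 0⟩ 8,
  .add 342 0,
  .mul 10 0,
  .add 344 0,
  .mul 102 99,
  .mul 0 78,
  .mul 0 2,
  .mul 59 7,
  .add 297 341,
  .mul 2 0,
  .add 2 0,
  .add 300 352,
  .mul 5 0,
  .mul 85 1,
  .mul 0 109,
  .mul 0 111,
  .mul 5 172,
  .mul 1 85,
  .add 1 0,
  .mul 355 112,
  .inv 309,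
  .mul 1 0,
  .scale ⟨549755813888, 0, 0, 0⟩ 0,
  .mul 341 0,
  .add 0 5,
  .mul 368 0,
  .mul 368 0,
  .mul 16 41,
  .mul 0 106,
  .mul 16 187,
  .mul 0 105,
  .add 2 0,
  .mul 350 5,
  .mul 115 1,
  .add 1 0,
  .mul 264 0,
  .mul 0 15,
  .sub 378 0,
  .inv 0,
  .mul 4 0,
  .mul 383 0,
  .mul 270 1,
  .mul 0 21,
  .sub 384 0,
  .mul 336 0,
  .sub 0 4,
  .inv 0,
  .mul 6 0,
  .sub 337 6,
  .inv 0,
  .mul 2 154,
  .scale ⟨549755813888, 0, 0, 0⟩ 0,
  .sub 393 0,
  .sub 394 2,
  .inv 0,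
  .mul 2 0,
  .mul 394 6,
  .mul 159 10,
  .mul 0 2,
  .add 2 0,
  .mul 394 20,
  .mul 11 0,
  .mul 166 15,
  .mul 0 7,
  .mul 0 23,
  .add 3 0,
  .scale ⟨223338299392, 0, 0, 0⟩ 0,
  .add 400 0,
  .mul 2 0,
  .add 410 0,
  .mul 10 0,
  .mul 0 32,
  .mul 0 40,
  .mul 154 391,
  .const ⟨7696581394432, 0, 0, 0⟩,
  .const ⟨10995116277760, 0, 0, 0⟩,
  .inv 0,
  .mul 2 0,
  .mul 179 395,
  .mul 0 1,
  .mul 233 315,
  .mul 400 0,
  .scale ⟨549755813888, 0, 0, 0⟩ 185,
  .sub 424 0,
  .sub 425 187,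
  .inv 0,
  .mul 2 0,
  .mul 0 232,
  .mul 317 307,
  .scale ⟨733097230336, 0, 0, 0⟩ 0,
  .sub 431 0,
  .mul 310 0,
  .mul 344 344,
  .mul 422 0,
  .add 2 0,
  .mul 7 197,
  .add 1 437,
  .mul 1 0,
  .sub 3 0,
  .scale ⟨366548615168, 0, 0, 0⟩ 395,
  .sub 441 0,
  .mul 416 0,
  .add 3 0,
  .mul 22 0,
  .mul 22 22,
  .add 446 0,
  .inv 0,
  .mul 3 0,
  .sub 449 60,
  .mul 0 1,
  .sub 451 14,
  .pos 0,
  .pos 3,
  .pos 2,
  .mul 39 198,
  .mul 0 87,
  .inv 430,
  .mul 1 0,
  .mul 452 5,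
  .mul 459 0,
  .scale ⟨549755813888, 0, 0, 0⟩ 0,
  .sub 459 0,
  .mul 3 0,
  .neg 0,
  .mul 459 466,
  .mul 0 223,
  .mul 0 449,
  .mul 465 0,
  .add 4 0,
  .mul 5 1,
  .mul 470 0,
  .add 2 0,
  .mul 458 428,
  .scale ⟨412316860416, 0, 0, 0⟩ 428,
  .sub 464 0,
  .mul 2 0,
  .mul 474 0,
  .neg 0,
  .add 6 0,
  .mul 7 1,
  .mul 480 0,
  .add 2 0,
  .mul 477 99,
  .mul 0 26,
  .mul 482 0,
  .add 3 0,
  .mul 4 1,
  .mul 487 0,
  .add 2 0,
  .mul 487 66,
  .sub 1 0,
  .mul 491 68,
  .add 490 0,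
  .inv 0,
  .mul 3 0,
  .mul 490 484,
  .mul 0 113,
  .mul 0 104,
  .mul 496 0,
  .add 4 0,
  .mul 5 1,
  .mul 501 0,
  .add 2 0,
  .mul 503 0,
  .add 502 0,
  .mul 89 242,
  .mul 506 89,
  .mul 49 0,
  .add 2 0,
  .mul 507 0,
  .add 94 52,
  .mul 509 0,
  .mul 2 7,
  .add 10 0,
  .add 0 2,
  .neg 0,
  .scale ⟨1073741824, 0, 0, 0⟩ 514,
  .sub 1 0,
  .sub 496 516,
  .add 0 461,
  .scale ⟨2199023255552, 0, 0, 0⟩ 99,
  .sub 1 0,
  .mul 280 0,
  .mul 4 2,
  .add 0 522,
  .inv 0,
  .mul 3 0,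
  .mul 268 152,
  .scale ⟨549755813888, 0, 0, 0⟩ 275,
  .add 510 0,
  .mul 2 0,
  .scale ⟨2199023255552, 0, 0, 0⟩ 0,
  .add 162 0,
  .scale ⟨2199023255552, 0, 0, 0⟩ 0,
  .mul 0 152,
  .mul 524 152,
  .sub 510 0,
  .inv 0,
  .mul 3 0,
  .sub 12 0,
  .mul 285 285,
  .const ⟨14293651161088, 0, 0, 0⟩,
  .mul 0 122,
  .mul 2 0,
  .mul 543 543,
  .scale ⟨27487790694400, 0, 0, 0⟩ 0,
  .add 2 0,
  .mul 124 53,
  .sub 506 548,
  .sub 0 508,
  .mul 548 545,
  .mul 0 550,
  .mul 526 177,
  .mul 0 296,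
  .add 192 0,
  .add 19 497,
  .mul 554 0,
  .mul 10 9,
  .mul 176 1,
  .mul 7 4,
  .mul 1 0,
  .sub 3 0,
  .scale ⟨549755813888, 0, 0, 0⟩ 26,
  .add 561 0,
  .mul 182 0,
  .mul 565 540,
  .mul 0 316,
  .mul 541 513,
  .inv 0,
  .mul 2 0,
  .mul 5 0,
  .sub 21 0,
  .mul 319 10,
  .sub 571 320,
  .mul 560 2,
  .mul 1 0,
  .mul 29 0,
  .add 4 0,
  .pos 314,
  .pos 311,
  .scale ⟨2199023255552, 0, 0, 0⟩ 199,
  .sub 525 0,
  .pos 0,
  .pos 191,
  .sub 570 340,
  .pos 0,
  .scale ⟨687194767360, 0, 0, 0⟩ 579,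
  .sub 0 243,
  .pos 0,
  .scale ⟨377957122048, 0, 0, 0⟩ 581,
  .sub 0 249,
  .pos 0,
  .pos 48,
  .pos 188,
  .sub 3 176,
  .pos 0,
  .pos 46,
  .pos 68,
  .pos 8,
  .pos 14]

def chk0 {α : Type} (cst : Z → α) (add sub mul : α → α → α) (scale : Z → α → α)
    (neg inv exp log : α → α) (ok : α → Bool) (isPos : Nat → α → Bool) (isLt : α → Nat → Bool) :
    List α → Bool
  | [x0, x1, x2, x3] =>
  let v0 := cst ⟨1099511627776, 0, 0, 0⟩; ok v0 && (
  let v1 := mul x1 x2; ok v1 && (
  let v2 := mul v1 x0; ok v2 && (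
  let v3 := mul x2 v2; ok v3 && (
  let v4 := mul x2 x2; ok v4 && (
  let v5 := mul x1 v4; ok v5 && (
  let v6 := mul v2 v2; ok v6 && (
  let v7 := mul x1 v5; ok v7 && (
  let v8 := cst ⟨549755813888, 0, 0, 0⟩; ok v8 && (
  let v9 := mul x1 v3; ok v9 && (
  let v10 := mul v9 x3; ok v10 && (
  let v11 := scale ⟨549755813888, 0, 0, 0⟩ v10; ok v11 && (
  let v12 := mul v3 v3; ok v12 && (
  let v13 := mul v11 v11; ok v13 && (
  let v14 := sub v0 v13; ok v14 && (
  let v15 := inv v14; ok v15 && (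
  let v16 := mul v11 v15; ok v16 && (
  let v17 := scale ⟨2199023255552, 0, 0, 0⟩ v16; ok v17 && (
  let v18 := scale ⟨2199023255552, 0, 0, 0⟩ v15; ok v18 && (
  let v19 := sub v18 v0; ok v19 && (
  let v20 := add v19 v17; ok v20 && (
  let v21 := mul x3 v15; ok v21 && (
  let v22 := mul v3 v21; ok v22 && (
  let v23 := sub v0 v22; ok v23 && (
  let v24 := add v0 v22; ok v24 && (
  let v25 := mul x1 v12; ok v25 && (
  let v26 := mul v21 v21; ok v26 && (
  let v27 := scale ⟨10774999203840, 0, 0, 0⟩ v11; ok v27 && (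
  let v28 := scale ⟨45768245248, 0, 0, 0⟩ v27; ok v28 && (
  let v29 := cst ⟨183207198720, 0, 0, 0⟩; ok v29 && (
  let v30 := add v28 v29; ok v30 && (
  let v31 := mul v27 v30; ok v31 && (
  let v32 := add v8 v31; ok v32 && (
  let v33 := mul v27 v32; ok v33 && (
  let v34 := add v0 v33; ok v34 && (
  let v35 := mul v27 v34; ok v35 && (
  let v36 := scale ⟨549755813888, 0, 0, 0⟩ v35; ok v36 && (
  let v37 := add v0 v36; ok v37 && (
  let v38 := mul v34 v37; ok v38 && (
  let v39 := mul v17 v22; ok v39 && (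
  let v40 := scale ⟨2199023255552, 0, 0, 0⟩ v19; ok v40 && (
  let v41 := add v39 v40; ok v41 && (
  let v42 := add v41 x1; ok v42 && (
  let v43 := mul v25 v42; ok v43 && (
  let v44 := add v43 v0; ok v44 && (
  let v45 := mul v17 v17; ok v45 && (
  let v46 := scale ⟨2199023255552, 0, 0, 0⟩ v45; ok v46 && (
  let v47 := add v46 v0; ok v47 && (
  let v48 := mul v19 v42; ok v48 && (
  let v49 := sub v48 v0; ok v49 && (
  let v50 := log v44; ok v50 && (
  let v51 := scale ⟨549755813888, 0, 0, 0⟩ v50; ok v51 && (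
  let v52 := exp v51; ok v52 && (
  let v53 := cst ⟨3298534883328, 0, 0, 0⟩; ok v53 && (
  let v54 := inv v53; ok v54 && (
  let v55 := mul v0 v54; ok v55 && (
  let v56 := cst ⟨2199023255552, 0, 0, 0⟩; ok v56 && (
  let v57 := add v43 v56; ok v57 && (
  let v58 := inv v57; ok v58 && (
  let v59 := mul v43 v58; ok v59 && (
  let v60 := mul v59 v59; ok v60 && (
  let v61 := sub v0 v59; ok v61 && (
  let v62 := mul v60 v55; ok v62 && (
  let v63 := add v0 v62; ok v63 && (
  let v64 := mul v61 v63; ok v64 && (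
  let v65 := mul v60 v60; ok v65 && (
  let v66 := scale ⟨219915747328, 0, 0, 0⟩ v65; ok v66 && (
  let v67 := mul v42 v64; ok v67 && (
  let v68 := scale ⟨549755813888, 0, 0, 0⟩ v67; ok v68 && (
  let v69 := mul v42 v66; ok v69 && (
  let v70 := scale ⟨549755813888, 0, 0, 0⟩ v69; ok v70 && (
  let v71 := add v68 v70; ok v71 && (
  let v72 := mul v19 v49; ok v72 && (
  let v73 := scale ⟨4398046511104, 0, 0, 0⟩ v72; ok v73 && (
  let v74 := mul v19 v25; ok v74 && (
  let v75 := mul v74 v49; ok v75 && (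
  let v76 := scale ⟨4398046511104, 0, 0, 0⟩ v75; ok v76 && (
  let v77 := add v76 v56; ok v77 && (
  let v78 := inv v77; ok v78 && (
  let v79 := mul v76 v78; ok v79 && (
  let v80 := mul v79 v79; ok v80 && (
  let v81 := sub v0 v79; ok v81 && (
  let v82 := mul v80 v55; ok v82 && (
  let v83 := add v0 v82; ok v83 && (
  let v84 := mul v81 v83; ok v84 && (
  let v85 := mul v80 v80; ok v85 && (
  let v86 := scale ⟨219915747328, 0, 0, 0⟩ v85; ok v86 && (
  let v87 := mul v73 v84; ok v87 && (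
  let v88 := scale ⟨549755813888, 0, 0, 0⟩ v87; ok v88 && (
  let v89 := sub v88 v71; ok v89 && (
  let v90 := mul v73 v86; ok v90 && (
  let v91 := scale ⟨549755813888, 0, 0, 0⟩ v90; ok v91 && (
  let v92 := add v91 v70; ok v92 && (
  let v93 := add v89 v92; ok v93 && (
  let v94 := mul v5 v68; ok v94 && (
  let v95 := neg v94; ok v95 && (
  let v96 := exp v95; ok v96 && (
  let v97 := mul v5 v70; ok v97 && (
  let v98 := mul v96 v97; ok v98 && (
  let v99 := mul v5 v89; ok v99 && (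
  let v100 := neg v99; ok v100 && (
  let v101 := exp v100; ok v101 && (
  let v102 := mul v5 v92; ok v102 && (
  let v103 := mul v101 v102; ok v103 && (
  let v104 := mul v22 v17; ok v104 && (
  let v105 := add v19 v104; ok v105 && (
  let v106 := inv v105; ok v106 && (
  let v107 := mul v24 v106; ok v107 && (
  let v108 := mul v23 x1; ok v108 && (
  let v109 := mul v108 v107; ok v109 && (
  let v110 := sub v0 v12; ok v110 && (
  let v111 := mul v26 v110; ok v111 && (
  let v112 := mul v9 v9; ok v112 && (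
  let v113 := sub v0 v26; ok v113 && (
  let v114 := mul v110 v113; ok v114 && (
  let v115 := mul v25 v49; ok v115 && (
  let v116 := inv v44; ok v116 && (
  let v117 := mul v115 v116; ok v117 && (
  let v118 := add v19 v117; ok v118 && (
  let v119 := mul v44 v118; ok v119 && (
  let v120 := mul v119 v119; ok v120 && (
  let v121 := inv v120; ok v121 && (
  let v122 := mul v114 v121; ok v122 && (
  let v123 := add v19 v25; ok v123 && (
  let v124 := mul x0 v123; ok v124 && (
  let v125 := inv v124; ok v125 && (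
  let v126 := mul v0 v125; ok v126 && (
  let v127 := mul v126 v126; ok v127 && (
  let v128 := mul v127 v114; ok v128 && (
  let v129 := cst ⟨10849087389696, 0, 0, 0⟩; ok v129 && (
  let v130 := sub v129 v128; ok v130 && (
  isPos 4 v130 && (
  let v131 := cst ⟨13, 0, 0, 0⟩; ok v131 && (
  let v132 := cst ⟨2295, 0, 0, 0⟩; ok v132 && (
  let v133 := mul v128 v131; ok v133 && (
  let v134 := sub v132 v133; ok v134 && (
  let v135 := cst ⟨302996, 0, 0, 0⟩; ok v135 && (
  let v136 := mul v128 v134; ok v136 && (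
  let v137 := sub v135 v136; ok v137 && (
  let v138 := cst ⟨27269633, 0, 0, 0⟩; ok v138 && (
  let v139 := mul v128 v137; ok v139 && (
  let v140 := sub v138 v139; ok v140 && (
  let v141 := cst ⟨1527099484, 0, 0, 0⟩; ok v141 && (
  let v142 := mul v128 v140; ok v142 && (
  let v143 := sub v141 v142; ok v143 && (
  let v144 := cst ⟨45812984490, 0, 0, 0⟩; ok v144 && (
  let v145 := mul v128 v143; ok v145 && (
  let v146 := sub v144 v145; ok v146 && (
  let v147 := mul v128 v146; ok v147 && (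
  let v148 := sub v8 v147; ok v148 && (
  let v149 := mul v128 v148; ok v149 && (
  let v150 := sub v0 v149; ok v150 && (
  let v151 := add v96 v0; ok v151 && (
  let v152 := mul v96 v96; ok v152 && (
  let v153 := add v152 v0; ok v153 && (
  let v154 := mul v96 v150; ok v154 && (
  let v155 := scale ⟨2199023255552, 0, 0, 0⟩ v154; ok v155 && (
  let v156 := add v153 v155; ok v156 && (
  let v157 := scale ⟨4398046511104, 0, 0, 0⟩ v98; ok v157 && (
  let v158 := sub v156 v157; ok v158 && (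
  let v159 := inv v151; ok v159 && (
  let v160 := mul v158 v159; ok v160 && (
  let v161 := add v160 v151; ok v161 && (
  let v162 := mul v96 v109; ok v162 && (
  let v163 := scale ⟨549755813888, 0, 0, 0⟩ v162; ok v163 && (
  let v164 := mul v163 v161; ok v164 && (
  let v165 := sub v158 v164; ok v165 && (
  isPos 4 v158 && (
  isPos 4 v165 && (
  let v166 := sub v0 v96; ok v166 && (
  let v167 := mul v166 v151; ok v167 && (
  let v168 := scale ⟨2199023255552, 0, 0, 0⟩ v98; ok v168 && (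
  let v169 := add v167 v168; ok v169 && (
  let v170 := inv v165; ok v170 && (
  let v171 := mul v169 v170; ok v171 && (
  let v172 := scale ⟨549755813888, 0, 0, 0⟩ v171; ok v172 && (
  let v173 := add v172 v8; ok v173 && (
  let v174 := inv v173; ok v174 && (
  let v175 := mul v172 v174; ok v175 && (
  let v176 := mul v109 v175; ok v176 && (
  let v177 := scale ⟨549755813888, 0, 0, 0⟩ v176; ok v177 && (
  let v178 := sub v0 v177; ok v178 && (
  let v179 := sub v0 v176; ok v179 && (
  let v180 := inv v179; ok v180 && (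
  let v181 := mul v178 v180; ok v181 && (
  let v182 := add v176 v0; ok v182 && (
  let v183 := mul v96 v182; ok v183 && (
  let v184 := mul v107 v181; ok v184 && (
  let v185 := mul v184 v175; ok v185 && (
  let v186 := mul v176 v181; ok v186 && (
  isPos 4 v179 && (
  let v187 := mul v23 v24; ok v187 && (
  let v188 := add v19 x1; ok v188 && (
  let v189 := mul v22 v19; ok v189 && (
  let v190 := mul v189 v17; ok v190 && (
  let v191 := scale ⟨2199023255552, 0, 0, 0⟩ v190; ok v191 && (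
  let v192 := add v47 v191; ok v192 && (
  let v193 := mul v188 v192; ok v193 && (
  let v194 := inv v193; ok v194 && (
  let v195 := mul v187 v194; ok v195 && (
  let v196 := mul x1 v195; ok v196 && (
  isPos 4 v89 && (
  let v197 := mul v128 v116; ok v197 && (
  let v198 := sub v129 v197; ok v198 && (
  isPos 4 v198 && (
  let v199 := mul v197 v131; ok v199 && (
  let v200 := sub v132 v199; ok v200 && (
  let v201 := mul v197 v200; ok v201 && (
  let v202 := sub v135 v201; ok v202 && (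
  let v203 := mul v197 v202; ok v203 && (
  let v204 := sub v138 v203; ok v204 && (
  let v205 := mul v197 v204; ok v205 && (
  let v206 := sub v141 v205; ok v206 && (
  let v207 := mul v197 v206; ok v207 && (
  let v208 := sub v144 v207; ok v208 && (
  let v209 := mul v197 v208; ok v209 && (
  let v210 := sub v8 v209; ok v210 && (
  let v211 := mul v197 v210; ok v211 && (
  let v212 := sub v0 v211; ok v212 && (
  let v213 := add v101 v0; ok v213 && (
  let v214 := mul v101 v101; ok v214 && (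
  let v215 := add v214 v0; ok v215 && (
  let v216 := mul v101 v212; ok v216 && (
  let v217 := scale ⟨2199023255552, 0, 0, 0⟩ v216; ok v217 && (
  let v218 := add v215 v217; ok v218 && (
  let v219 := scale ⟨4398046511104, 0, 0, 0⟩ v103; ok v219 && (
  let v220 := sub v218 v219; ok v220 && (
  let v221 := inv v213; ok v221 && (
  let v222 := mul v220 v221; ok v222 && (
  let v223 := add v222 v213; ok v223 && (
  let v224 := mul v101 v196; ok v224 && (
  let v225 := scale ⟨549755813888, 0, 0, 0⟩ v224; ok v225 && (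
  let v226 := mul v225 v223; ok v226 && (
  let v227 := sub v220 v226; ok v227 && (
  isPos 4 v220 && (
  isPos 4 v227 && (
  let v228 := sub v0 v101; ok v228 && (
  let v229 := mul v228 v213; ok v229 && (
  let v230 := scale ⟨2199023255552, 0, 0, 0⟩ v103; ok v230 && (
  let v231 := add v229 v230; ok v231 && (
  let v232 := inv v227; ok v232 && (
  let v233 := mul v231 v232; ok v233 && (
  let v234 := scale ⟨549755813888, 0, 0, 0⟩ v233; ok v234 && (
  let v235 := add v234 v8; ok v235 && (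
  let v236 := inv v235; ok v236 && (
  let v237 := mul v234 v236; ok v237 && (
  let v238 := mul v196 v237; ok v238 && (
  let v239 := mul v237 x0; ok v239 && (
  let v240 := add v11 v0; ok v240 && (
  let v241 := inv v240; ok v241 && (
  let v242 := mul v11 v241; ok v242 && (
  let v243 := scale ⟨2199023255552, 0, 0, 0⟩ v242; ok v243 && (
  let v244 := sub v0 v243; ok v244 && (
  let v245 := sub v0 v11; ok v245 && (
  let v246 := mul x3 v241; ok v246 && (
  let v247 := mul v246 v244; ok v247 && (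
  let v248 := add v24 v247; ok v248 && (
  let v249 := scale ⟨224412041216, 0, 0, 0⟩ v15; ok v249 && (
  let v250 := inv v38; ok v250 && (
  let v251 := mul v249 v250; ok v251 && (
  let v252 := scale ⟨4398046511104, 0, 0, 0⟩ x0; ok v252 && (
  let v253 := mul v0 v21; ok v253 && (
  let v254 := add v252 v253; ok v254 && (
  let v255 := inv v254; ok v255 && (
  let v256 := mul v0 v255; ok v256 && (
  let v257 := mul x0 v255; ok v257 && (
  let v258 := mul v257 v24; ok v258 && (
  let v259 := mul v258 v251; ok v259 && (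
  let v260 := mul v256 v24; ok v260 && (
  let v261 := mul v260 v251; ok v261 && (
  let v262 := sub v0 v261; ok v262 && (
  let v263 := inv v262; ok v263 && (
  let v264 := mul v183 v261; ok v264 && (
  let v265 := sub v0 v264; ok v265 && (
  let v266 := inv v265; ok v266 && (
  let v267 := scale ⟨2199023255552, 0, 0, 0⟩ v6; ok v267 && (
  let v268 := add v267 v0; ok v268 && (
  let v269 := add v6 v0; ok v269 && (
  let v270 := scale ⟨3573412790272, 0, 0, 0⟩ v22; ok v270 && (
  let v271 := cst ⟨339302416384, 0, 0, 0⟩; ok v271 && (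
  let v272 := add v270 v271; ok v272 && (
  let v273 := scale ⟨549755813888, 0, 0, 0⟩ v272; ok v273 && (
  let v274 := mul v11 v21; ok v274 && (
  let v275 := sub v0 v111; ok v275 && (
  let v276 := mul v11 v22; ok v276 && (
  let v277 := scale ⟨2199023255552, 0, 0, 0⟩ v276; ok v277 && (
  let v278 := sub v275 v277; ok v278 && (
  let v279 := mul v274 v274; ok v279 && (
  let v280 := add v278 v279; ok v280 && (
  let v281 := add v280 v0; ok v281 && (
  let v282 := scale ⟨549755813888, 0, 0, 0⟩ v281; ok v282 && (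
  let v283 := scale ⟨549755813888, 0, 0, 0⟩ v25; ok v283 && (
  let v284 := sub v15 v283; ok v284 && (
  let v285 := mul v112 v275; ok v285 && (
  let v286 := mul v285 v14; ok v286 && (
  let v287 := scale ⟨137438953472, 0, 0, 0⟩ v286; ok v287 && (
  let v288 := add v284 v287; ok v288 && (
  let v289 := mul v282 v288; ok v289 && (
  let v290 := cst ⟨1, 0, 0, 0⟩; ok v290 && (
  let v291 := cst ⟨12, 0, 0, 0⟩; ok v291 && (
  let v292 := mul v128 v290; ok v292 && (
  let v293 := sub v291 v292; ok v293 && (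
  let v294 := cst ⟨2296, 0, 0, 0⟩; ok v294 && (
  let v295 := mul v128 v293; ok v295 && (
  let v296 := sub v294 v295; ok v296 && (
  let v297 := cst ⟨302995, 0, 0, 0⟩; ok v297 && (
  let v298 := mul v128 v296; ok v298 && (
  let v299 := sub v297 v298; ok v299 && (
  let v300 := cst ⟨27269634, 0, 0, 0⟩; ok v300 && (
  let v301 := mul v128 v299; ok v301 && (
  let v302 := sub v300 v301; ok v302 && (
  let v303 := cst ⟨1527099483, 0, 0, 0⟩; ok v303 && (
  let v304 := mul v128 v302; ok v304 && (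
  let v305 := sub v303 v304; ok v305 && (
  let v306 := cst ⟨45812984491, 0, 0, 0⟩; ok v306 && (
  let v307 := mul v128 v305; ok v307 && (
  let v308 := sub v306 v307; ok v308 && (
  let v309 := mul v128 v308; ok v309 && (
  let v310 := sub v8 v309; ok v310 && (
  let v311 := mul v128 v310; ok v311 && (
  let v312 := sub v0 v311; ok v312 && (
  let v313 := mul v128 v6; ok v313 && (
  let v314 := mul v313 v313; ok v314 && (
  let v315 := scale ⟨369367187456, 0, 0, 0⟩ v314; ok v315 && (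
  let v316 := add v312 v315; ok v316 && (
  let v317 := mul v96 v316; ok v317 && (
  let v318 := scale ⟨2199023255552, 0, 0, 0⟩ v317; ok v318 && (
  let v319 := add v153 v318; ok v319 && (
  let v320 := add v319 v168; ok v320 && (
  let v321 := cst ⟨8589934592, 0, 0, 0⟩; ok v321 && (
  let v322 := add v320 v321; ok v322 && (
  let v323 := log v322; ok v323 && (
  let v324 := scale ⟨549755813888, 0, 0, 0⟩ v323; ok v324 && (
  let v325 := exp v324; ok v325 && (
  let v326 := mul v96 v176; ok v326 && (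
  let v327 := add v325 v326; ok v327 && (
  let v328 := mul v327 v263; ok v328 && (
  let v329 := mul v183 v266; ok v329 && (
  let v330 := add v328 v329; ok v330 && (
  let v331 := mul v261 v330; ok v331 && (
  let v332 := add v186 v331; ok v332 && (
  let v333 := mul v332 v6; ok v333 && (
  let v334 := mul v327 v261; ok v334 && (
  let v335 := mul v334 v263; ok v335 && (
  let v336 := add v186 v335; ok v336 && (
  let v337 := mul v336 v6; ok v337 && (
  let v338 := scale ⟨223338299392, 0, 0, 0⟩ v337; ok v338 && (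
  let v339 := add v8 v338; ok v339 && (
  let v340 := mul v337 v339; ok v340 && (
  let v341 := add v0 v340; ok v341 && (
  let v342 := scale ⟨893353197568, 0, 0, 0⟩ v333; ok v342 && (
  let v343 := add v0 v342; ok v343 && (
  let v344 := mul v333 v343; ok v344 && (
  let v345 := add v0 v344; ok v345 && (
  let v346 := mul v243 v246; ok v346 && (
  let v347 := mul v346 v268; ok v347 && (
  let v348 := mul v347 v345; ok v348 && (
  let v349 := mul v289 v341; ok v349 && (
  let v350 := add v52 v8; ok v350 && (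
  let v351 := mul v348 v350; ok v351 && (
  let v352 := add v349 v351; ok v352 && (
  let v353 := add v52 v0; ok v353 && (
  let v354 := mul v348 v353; ok v354 && (
  let v355 := mul v269 v353; ok v355 && (
  let v356 := mul v355 v246; ok v356 && (
  let v357 := mul v356 v245; ok v357 && (
  let v358 := mul v352 v185; ok v358 && (
  let v359 := mul v357 v273; ok v359 && (
  let v360 := add v358 v359; ok v360 && (
  let v361 := mul v5 v248; ok v361 && (
  let v362 := inv v52; ok v362 && (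
  let v363 := mul v361 v362; ok v363 && (
  let v364 := scale ⟨549755813888, 0, 0, 0⟩ v363; ok v364 && (
  let v365 := mul v23 v364; ok v365 && (
  let v366 := add v365 v360; ok v366 && (
  let v367 := mul x1 v366; ok v367 && (
  let v368 := mul x0 v367; ok v368 && (
  let v369 := mul v352 v327; ok v369 && (
  let v370 := mul v369 v263; ok v370 && (
  let v371 := mul v354 v183; ok v371 && (
  let v372 := mul v371 v266; ok v372 && (
  let v373 := add v370 v372; ok v373 && (
  let v374 := mul v23 v368; ok v374 && (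
  let v375 := mul v259 v373; ok v375 && (
  let v376 := add v374 v375; ok v376 && (
  let v377 := mul v112 v376; ok v377 && (
  let v378 := mul v377 v362; ok v378 && (
  let v379 := sub v0 v378; ok v379 && (
  let v380 := inv v379; ok v380 && (
  let v381 := mul v376 v380; ok v381 && (
  let v382 := mul x1 v381; ok v382 && (
  let v383 := mul v112 v381; ok v383 && (
  let v384 := mul v383 v362; ok v384 && (
  let v385 := sub v0 v384; ok v385 && (
  let v386 := mul v49 v385; ok v386 && (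
  let v387 := sub v386 v382; ok v387 && (
  let v388 := inv v387; ok v388 && (
  let v389 := mul v382 v388; ok v389 && (
  let v390 := sub v52 v383; ok v390 && (
  let v391 := inv v390; ok v391 && (
  let v392 := mul v389 v237; ok v392 && (
  let v393 := scale ⟨549755813888, 0, 0, 0⟩ v392; ok v393 && (
  let v394 := sub v0 v393; ok v394 && (
  let v395 := sub v0 v392; ok v395 && (
  let v396 := inv v395; ok v396 && (
  let v397 := mul v394 v396; ok v397 && (
  let v398 := mul v3 v391; ok v398 && (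
  let v399 := mul v239 v388; ok v399 && (
  let v400 := mul v399 v397; ok v400 && (
  let v401 := add v398 v400; ok v401 && (
  let v402 := mul v7 v381; ok v402 && (
  let v403 := mul v391 v402; ok v403 && (
  let v404 := mul v237 v388; ok v404 && (
  let v405 := mul v404 v397; ok v405 && (
  let v406 := mul v405 v382; ok v406 && (
  let v407 := add v403 v406; ok v407 && (
  let v408 := scale ⟨223338299392, 0, 0, 0⟩ v407; ok v408 && (
  let v409 := add v8 v408; ok v409 && (
  let v410 := mul v407 v409; ok v410 && (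
  let v411 := add v0 v410; ok v411 && (
  let v412 := mul v401 v411; ok v412 && (
  let v413 := mul v412 v380; ok v413 && (
  let v414 := mul v413 v373; ok v414 && (
  let v415 := mul v260 v23; ok v415 && (
  let v416 := cst ⟨7696581394432, 0, 0, 0⟩; ok v416 && (
  let v417 := cst ⟨10995116277760, 0, 0, 0⟩; ok v417 && (
  let v418 := inv v417; ok v418 && (
  let v419 := mul v416 v418; ok v419 && (
  let v420 := mul v240 v24; ok v420 && (
  let v421 := mul v420 v419; ok v421 && (
  let v422 := mul v188 v106; ok v422 && (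
  let v423 := mul v22 v422; ok v423 && (
  let v424 := scale ⟨549755813888, 0, 0, 0⟩ v238; ok v424 && (
  let v425 := sub v0 v424; ok v425 && (
  let v426 := sub v0 v238; ok v426 && (
  let v427 := inv v426; ok v427 && (
  let v428 := mul v425 v427; ok v428 && (
  let v429 := mul v428 v196; ok v429 && (
  let v430 := mul v112 v122; ok v430 && (
  let v431 := scale ⟨733097230336, 0, 0, 0⟩ v430; ok v431 && (
  let v432 := sub v0 v431; ok v432 && (
  let v433 := mul v122 v432; ok v433 && (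
  let v434 := mul v89 v89; ok v434 && (
  let v435 := mul v12 v434; ok v435 && (
  let v436 := add v433 v435; ok v436 && (
  let v437 := mul v429 v239; ok v437 && (
  let v438 := add v436 v0; ok v438 && (
  let v439 := mul v437 v438; ok v439 && (
  let v440 := sub v436 v439; ok v440 && (
  let v441 := scale ⟨366548615168, 0, 0, 0⟩ v45; ok v441 && (
  let v442 := sub v0 v441; ok v442 && (
  let v443 := mul v26 v442; ok v443 && (
  let v444 := add v440 v443; ok v444 && (
  let v445 := mul v422 v444; ok v445 && (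
  let v446 := mul v423 v423; ok v446 && (
  let v447 := add v0 v446; ok v447 && (
  let v448 := inv v447; ok v448 && (
  let v449 := mul v445 v448; ok v449 && (
  let v450 := sub v0 v389; ok v450 && (
  let v451 := mul v450 v449; ok v451 && (
  let v452 := sub v0 v437; ok v452 && (
  isPos 4 v452 && (
  isPos 4 v449 && (
  isPos 4 v450 && (
  let v453 := mul v413 v254; ok v453 && (
  let v454 := mul v453 v366; ok v454 && (
  let v455 := inv v24; ok v455 && (
  let v456 := mul v454 v455; ok v456 && (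
  let v457 := mul v4 v451; ok v457 && (
  let v458 := mul x1 v457; ok v458 && (
  let v459 := scale ⟨549755813888, 0, 0, 0⟩ v458; ok v459 && (
  let v460 := sub v0 v459; ok v460 && (
  let v461 := mul v457 v460; ok v461 && (
  let v462 := neg v461; ok v462 && (
  let v463 := mul v3 x3; ok v463 && (
  let v464 := mul v463 v240; ok v464 && (
  let v465 := mul v464 v15; ok v465 && (
  let v466 := mul v0 v465; ok v466 && (
  let v467 := add v462 v466; ok v467 && (
  let v468 := mul v462 v466; ok v468 && (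
  let v469 := mul x1 v468; ok v469 && (
  let v470 := add v467 v469; ok v470 && (
  let v471 := mul v12 v42; ok v471 && (
  let v472 := scale ⟨412316860416, 0, 0, 0⟩ v43; ok v472 && (
  let v473 := sub v8 v472; ok v473 && (
  let v474 := mul v471 v473; ok v474 && (
  let v475 := mul v0 v474; ok v475 && (
  let v476 := neg v475; ok v476 && (
  let v477 := add v470 v476; ok v477 && (
  let v478 := mul v470 v476; ok v478 && (
  let v479 := mul x1 v478; ok v479 && (
  let v480 := add v477 v479; ok v480 && (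
  let v481 := mul v3 v381; ok v481 && (
  let v482 := mul v481 v455; ok v482 && (
  let v483 := mul v0 v482; ok v483 && (
  let v484 := add v480 v483; ok v484 && (
  let v485 := mul v480 v483; ok v485 && (
  let v486 := mul x1 v485; ok v486 && (
  let v487 := add v484 v486; ok v487 && (
  let v488 := mul v0 v421; ok v488 && (
  let v489 := sub v487 v488; ok v489 && (
  let v490 := mul x1 v421; ok v490 && (
  let v491 := add v0 v490; ok v491 && (
  let v492 := inv v491; ok v492 && (
  let v493 := mul v489 v492; ok v493 && (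
  let v494 := mul v3 v9; ok v494 && (
  let v495 := mul v494 v381; ok v495 && (
  let v496 := mul v495 v391; ok v496 && (
  let v497 := mul v0 v496; ok v497 && (
  let v498 := add v493 v497; ok v498 && (
  let v499 := mul v493 v497; ok v499 && (
  let v500 := mul x1 v499; ok v500 && (
  let v501 := add v498 v500; ok v501 && (
  let v502 := mul x1 v501; ok v502 && (
  let v503 := add v0 v502; ok v503 && (
  let v504 := mul v414 v261; ok v504 && (
  let v505 := mul x1 v415; ok v505 && (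
  let v506 := mul v456 v505; ok v506 && (
  let v507 := add v504 v506; ok v507 && (
  let v508 := mul v0 v507; ok v508 && (
  let v509 := add v414 v456; ok v509 && (
  let v510 := mul v0 v509; ok v510 && (
  let v511 := mul v508 v503; ok v511 && (
  let v512 := add v501 v511; ok v512 && (
  let v513 := add v512 v510; ok v513 && (
  let v514 := neg v513; ok v514 && (
  let v515 := scale ⟨1073741824, 0, 0, 0⟩ v0; ok v515 && (
  let v516 := sub v514 v515; ok v516 && (
  let v517 := sub v20 v0; ok v517 && (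
  let v518 := add v517 v56; ok v518 && (
  let v519 := scale ⟨2199023255552, 0, 0, 0⟩ v419; ok v519 && (
  let v520 := sub v518 v519; ok v520 && (
  let v521 := mul v240 v520; ok v521 && (
  let v522 := mul v517 v519; ok v522 && (
  let v523 := add v522 v0; ok v523 && (
  let v524 := inv v523; ok v524 && (
  let v525 := mul v521 v524; ok v525 && (
  let v526 := mul v257 v373; ok v526 && (
  let v527 := scale ⟨549755813888, 0, 0, 0⟩ v251; ok v527 && (
  let v528 := add v17 v527; ok v528 && (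
  let v529 := mul v526 v528; ok v529 && (
  let v530 := scale ⟨2199023255552, 0, 0, 0⟩ v529; ok v530 && (
  let v531 := add v368 v530; ok v531 && (
  let v532 := scale ⟨2199023255552, 0, 0, 0⟩ v531; ok v532 && (
  let v533 := mul v532 v380; ok v533 && (
  let v534 := mul v9 v381; ok v534 && (
  let v535 := sub v24 v534; ok v535 && (
  let v536 := inv v535; ok v536 && (
  let v537 := mul v533 v536; ok v537 && (
  let v538 := sub v525 v537; ok v538 && (
  let v539 := mul v253 v253; ok v539 && (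
  let v540 := cst ⟨14293651161088, 0, 0, 0⟩; ok v540 && (
  let v541 := mul v540 v418; ok v541 && (
  let v542 := mul v539 v541; ok v542 && (
  let v543 := mul x0 x0; ok v543 && (
  let v544 := scale ⟨27487790694400, 0, 0, 0⟩ v543; ok v544 && (
  let v545 := add v542 v544; ok v545 && (
  let v546 := mul v421 v492; ok v546 && (
  let v547 := sub v40 x1; ok v547 && (
  let v548 := sub v547 v39; ok v548 && (
  let v549 := mul v0 v3; ok v549 && (
  let v550 := mul v549 x0; ok v550 && (
  let v551 := mul v24 v373; ok v551 && (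
  let v552 := mul v551 v255; ok v552 && (
  let v553 := add v360 v552; ok v553 && (
  let v554 := add v534 v56; ok v554 && (
  let v555 := mul v0 v554; ok v555 && (
  let v556 := mul v545 v546; ok v556 && (
  let v557 := mul v380 v555; ok v557 && (
  let v558 := mul v550 v553; ok v558 && (
  let v559 := mul v557 v558; ok v559 && (
  let v560 := sub v556 v559; ok v560 && (
  let v561 := scale ⟨549755813888, 0, 0, 0⟩ v534; ok v561 && (
  let v562 := add v0 v561; ok v562 && (
  let v563 := mul v380 v562; ok v563 && (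
  let v564 := mul x1 v23; ok v564 && (
  let v565 := mul v564 v248; ok v565 && (
  let v566 := mul v24 v52; ok v566 && (
  let v567 := inv v566; ok v567 && (
  let v568 := mul v565 v567; ok v568 && (
  let v569 := mul v563 v568; ok v569 && (
  let v570 := sub v548 v569; ok v570 && (
  let v571 := mul v251 v560; ok v571 && (
  let v572 := sub v0 v251; ok v572 && (
  let v573 := mul v12 v570; ok v573 && (
  let v574 := mul v572 v573; ok v574 && (
  let v575 := mul v545 v574; ok v575 && (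
  let v576 := add v571 v575; ok v576 && (
  isPos 4 v262 && (
  isPos 4 v265 && (
  let v577 := scale ⟨2199023255552, 0, 0, 0⟩ v377; ok v577 && (
  let v578 := sub v52 v577; ok v578 && (
  isPos 4 v578 && (
  isPos 4 v387 && (
  let v579 := sub v8 v238; ok v579 && (
  isPos 4 v579 && (
  let v580 := scale ⟨687194767360, 0, 0, 0⟩ v0; ok v580 && (
  let v581 := sub v580 v337; ok v581 && (
  isPos 4 v581 && (
  let v582 := scale ⟨377957122048, 0, 0, 0⟩ v0; ok v582 && (
  let v583 := sub v582 v333; ok v583 && (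
  isPos 4 v583 && (
  isPos 4 v535 && (
  isPos 4 v395 && (
  let v584 := sub v580 v407; ok v584 && (
  isPos 4 v584 && (
  isPos 4 v538 && (
  isPos 4 v516 && (
  isPos 4 v576 && (
  isPos 4 v570 && (
  true))))))))))))))))))))))))))))))))))))))))))))))))))))))))))))))))))))))))))))))))))))))))))))))))))))))))))))))))))))))))))))))))))))))))))))))))))))))))))))))))))))))))))))))))))))))))))))))))))))))))))))))))))))))))))))))))))))))))))))))))))))))))))))))))))))))))))))))))))))))))))))))))))))))))))))))))))))))))))))))))))))))))))))))))))))))))))))))))))))))))))))))))))))))))))))))))))))))))))))))))))))))))))))))))))))))))))))))))))))))))))))))))))))))))))))))))))))))))))))))))))))))))))))))))))))))))))))))))))))))))))))))))))))))))))))))))))))))))))))))))))))))))))))))))))))))))))))))))))))))))))))))))))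
  | _ => false

set_option maxRecDepth 1000000 in
theorem chk0_eq (O : Ops) (m : List O.α)
    (h : chk0 O.cst O.add O.sub O.mul O.scale O.neg O.inv O.exp O.log O.ok O.isPos O.isLt m = true) :
    runG O 4 prog0 m = true := by
  match m, h with
  | [x0, x1, x2, x3], h => exact h

def chkB0 : List opsE.α → Bool :=
  chk0 opsE.cst opsE.add opsE.sub opsE.mul opsE.scale opsE.neg opsE.inv opsE.exp opsE.log opsE.ok opsE.isPos opsE.isLt

theorem chkB0_eq (m : List opsE.α) (h : chkB0 m = true) : runG opsE 4 prog0 m = true :=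
  chk0_eq opsE m h

def prog1 : List Op := [
  .const ⟨1099511627776, 0, 0, 0⟩,
  .mul 2 3,
  .mul 0 2,
  .mul 5 0,
  .mul 6 6,
  .mul 6 0,
  .mul 3 3,
  .mul 8 1,
  .const ⟨549755813888, 0, 0, 0⟩,
  .mul 10 5,
  .mul 0 13,
  .scale ⟨549755813888, 0, 0, 0⟩ 0,
  .mul 8 8,
  .mul 1 1,
  .sub 13 0,
  .inv 0,
  .mul 4 0,
  .scale ⟨2199023255552, 0, 0, 0⟩ 0,
  .scale ⟨2199023255552, 0, 0, 0⟩ 2,
  .sub 0 18,
  .add 0 2,
  .mul 24 5,
  .mul 18 0,
  .sub 22 0,
  .add 23 1,
  .mul 26 12,
  .mul 4 4,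
  .scale ⟨10774999203840, 0, 0, 0⟩ 15,
  .scale ⟨45768245248, 0, 0, 0⟩ 0,
  .const ⟨183207198720, 0, 0, 0⟩,
  .add 1 0,
  .mul 3 0,
  .add 23 0,
  .mul 5 0,
  .add 33 0,
  .mul 7 0,
  .scale ⟨549755813888, 0, 0, 0⟩ 0,
  .add 36 0,
  .mul 3 0,
  .mul 21 16,
  .scale ⟨2199023255552, 0, 0, 0⟩ 20,
  .add 1 0,
  .add 0 43,
  .mul 17 0,
  .add 0 43,
  .mul 27 27,
  .scale ⟨2199023255552, 0, 0, 0⟩ 0,
  .add 0 46,
  .mul 28 5,
  .sub 0 48,
  .log 5,
  .scale ⟨549755813888, 0, 0, 0⟩ 0,
  .exp 0,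
  .const ⟨3298534883328, 0, 0, 0⟩,
  .inv 0,
  .mul 54 0,
  .const ⟨2199023255552, 0, 0, 0⟩,
  .add 13 0,
  .inv 0,
  .mul 15 0,
  .mul 0 0,
  .sub 60 1,
  .mul 1 6,
  .add 62 0,
  .mul 2 0,
  .mul 4 4,
  .scale ⟨219915747328, 0, 0, 0⟩ 0,
  .mul 24 2,
  .scale ⟨549755813888, 0, 0, 0⟩ 0,
  .mul 26 2,
  .scale ⟨549755813888, 0, 0, 0⟩ 0,
  .add 2 0,
  .mul 52 22,
  .scale ⟨4398046511104, 0, 0, 0⟩ 0,
  .mul 54 48,
  .mul 0 25,
  .scale ⟨4398046511104, 0, 0, 0⟩ 0,
  .add 0 20,
  .inv 0,
  .mul 2 0,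
  .mul 0 0,
  .sub 80 1,
  .mul 1 26,
  .add 82 0,
  .mul 2 0,
  .mul 4 4,
  .scale ⟨219915747328, 0, 0, 0⟩ 0,
  .mul 13 2,
  .scale ⟨549755813888, 0, 0, 0⟩ 0,
  .sub 0 17,
  .mul 16 3,
  .scale ⟨549755813888, 0, 0, 0⟩ 0,
  .add 0 21,
  .add 3 0,
  .mul 88 25,
  .neg 0,
  .exp 0,
  .mul 91 26,
  .mul 1 0,
  .mul 93 9,
  .neg 0,
  .exp 0,
  .mul 96 9,
  .mul 1 0,
  .mul 81 86,
  .add 85 0,
  .inv 0,
  .mul 82 0,
  .mul 84 109,
  .mul 0 1,
  .sub 109 97,
  .mul 84 0,
  .mul 102 102,
  .sub 112 86,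
  .mul 3 0,
  .mul 89 65,
  .inv 71,
  .mul 1 0,
  .add 98 0,
  .mul 74 0,
  .mul 0 0,
  .inv 0,
  .mul 7 0,
  .add 103 97,
  .mul 124 0,
  .inv 0,
  .mul 125 0,
  .mul 0 0,
  .mul 0 13,
  .const ⟨10849087389696, 0, 0, 0⟩,
  .sub 0 1,
  .pos 0,
  .const ⟨13, 0, 0, 0⟩,
  .const ⟨2295, 0, 0, 0⟩,
  .mul 4 1,
  .sub 1 0,
  .const ⟨302996, 0, 0, 0⟩,
  .mul 7 1,
  .sub 1 0,
  .const ⟨27269633, 0, 0, 0⟩,
  .mul 10 1,
  .sub 1 0,
  .const ⟨1527099484, 0, 0, 0⟩,
  .mul 13 1,
  .sub 1 0,
  .const ⟨45812984490, 0, 0, 0⟩,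
  .mul 16 1,
  .sub 1 0,
  .mul 18 0,
  .sub 139 0,
  .mul 20 0,
  .sub 149 0,
  .add 54 150,
  .mul 55 55,
  .add 0 152,
  .mul 57 3,
  .scale ⟨2199023255552, 0, 0, 0⟩ 0,
  .add 2 0,
  .scale ⟨4398046511104, 0, 0, 0⟩ 58,
  .sub 1 0,
  .inv 7,
  .mul 1 0,
  .add 0 9,
  .mul 65 52,
  .scale ⟨549755813888, 0, 0, 0⟩ 0,
  .mul 0 2,
  .sub 6 0,
  .pos 7,
  .pos 0,
  .sub 165 69,
  .mul 0 15,
  .scale ⟨2199023255552, 0, 0, 0⟩ 69,
  .add 1 0,
  .inv 4,
  .mul 1 0,
  .scale ⟨549755813888, 0, 0, 0⟩ 0,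
  .add 0 164,
  .inv 0,
  .mul 2 0,
  .mul 66 0,
  .scale ⟨549755813888, 0, 0, 0⟩ 0,
  .sub 177 0,
  .sub 178 2,
  .inv 0,
  .mul 2 0,
  .add 5 181,
  .mul 86 0,
  .mul 76 2,
  .mul 0 9,
  .mul 9 4,
  .pos 7,
  .mul 163 162,
  .add 168 189,
  .mul 166 169,
  .mul 0 172,
  .scale ⟨2199023255552, 0, 0, 0⟩ 0,
  .add 144 0,
  .mul 4 0,
  .inv 0,
  .mul 7 0,
  .mul 197 0,
  .pos 107,
  .mul 68 80,
  .sub 68 0,
  .pos 0,
  .mul 1 67,
  .sub 67 0,
  .mul 3 0,
  .sub 66 0,
  .mul 5 0,
  .sub 65 0,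
  .mul 7 0,
  .sub 64 0,
  .mul 9 0,
  .sub 63 0,
  .mul 11 0,
  .sub 201 0,
  .mul 13 0,
  .sub 211 0,
  .add 111 212,
  .mul 112 112,
  .add 0 214,
  .mul 114 3,
  .scale ⟨2199023255552, 0, 0, 0⟩ 0,
  .add 2 0,
  .scale ⟨4398046511104, 0, 0, 0⟩ 115,
  .sub 1 0,
  .inv 7,
  .mul 1 0,
  .add 0 9,
  .mul 122 27,
  .scale ⟨549755813888, 0, 0, 0⟩ 0,
  .mul 0 2,
  .sub 6 0,
  .pos 7,
  .pos 0,
  .sub 227 126,
  .mul 0 15,
  .scale ⟨2199023255552, 0, 0, 0⟩ 126,
  .add 1 0,
  .inv 4,
  .mul 1 0,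
  .scale ⟨549755813888, 0, 0, 0⟩ 0,
  .add 0 226,
  .inv 0,
  .mul 2 0,
  .mul 41 0,
  .mul 1 239,
  .add 228 239,
  .inv 0,
  .mul 230 0,
  .scale ⟨2199023255552, 0, 0, 0⟩ 0,
  .sub 243 0,
  .sub 244 233,
  .mul 249 4,
  .mul 0 2,
  .add 223 0,
  .scale ⟨224412041216, 0, 0, 0⟩ 233,
  .inv 211,
  .mul 1 0,
  .scale ⟨4398046511104, 0, 0, 0⟩ 252,
  .mul 252 231,
  .add 1 0,
  .inv 0,
  .mul 255 0,
  .mul 257 1,
  .mul 0 233,
  .mul 0 7,
  .mul 3 235,
  .mul 0 9,
  .sub 261 0,
  .inv 0,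
  .mul 80 2,
  .sub 264 0,
  .inv 0,
  .scale ⟨2199023255552, 0, 0, 0⟩ 260,
  .add 0 267,
  .add 262 268,
  .mul 270 248,
  .scale ⟨1099511627776, 0, 0, 0⟩ 0,
  .scale ⟨1099511627776, 0, 0, 0⟩ 273,
  .add 1 0,
  .mul 276 0,
  .scale ⟨549755813888, 0, 0, 0⟩ 0,
  .mul 264 254,
  .sub 276 165,
  .mul 266 255,
  .scale ⟨2199023255552, 0, 0, 0⟩ 0,
  .sub 2 0,
  .mul 4 4,
  .add 1 0,
  .add 0 282,
  .scale ⟨549755813888, 0, 0, 0⟩ 0,
  .scale ⟨549755813888, 0, 0, 0⟩ 259,
  .sub 270 0,
  .mul 174 9,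
  .mul 0 273,
  .scale ⟨137438953472, 0, 0, 0⟩ 0,
  .add 3 0,
  .mul 6 0,
  .const ⟨1, 0, 0, 0⟩,
  .const ⟨12, 0, 0, 0⟩,
  .mul 165 1,
  .sub 1 0,
  .const ⟨2296, 0, 0, 0⟩,
  .mul 168 1,
  .sub 1 0,
  .const ⟨302995, 0, 0, 0⟩,
  .mul 171 1,
  .sub 1 0,
  .const ⟨27269634, 0, 0, 0⟩,
  .mul 174 1,
  .sub 1 0,
  .const ⟨1527099483, 0, 0, 0⟩,
  .mul 177 1,
  .sub 1 0,
  .const ⟨45812984491, 0, 0, 0⟩,
  .mul 180 1,
  .sub 1 0,
  .mul 182 0,
  .sub 303 0,
  .mul 184 0,
  .sub 313 0,
  .mul 186 308,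
  .mul 0 0,
  .scale ⟨369367187456, 0, 0, 0⟩ 0,
  .add 3 0,
  .mul 222 0,
  .scale ⟨2199023255552, 0, 0, 0⟩ 0,
  .add 167 0,
  .add 0 153,
  .const ⟨8589934592, 0, 0, 0⟩,
  .add 1 0,
  .log 0,
  .scale ⟨549755813888, 0, 0, 0⟩ 0,
  .exp 0,
  .mul 231 151,
  .add 1 0,
  .mul 0 66,
  .mul 147 64,
  .add 1 0,
  .mul 71 0,
  .add 147 0,
  .mul 0 328,
  .mul 6 74,
  .mul 0 73,
  .add 151 0,
  .mul 0 332,
  .scale ⟨223338299392, 0, 0, 0⟩ 0,
  .add 332 0,
  .mul 2 0,
  .add 342 0,
  .scale ⟨893353197568, 0, 0, 0⟩ 8,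
  .add 344 0,
  .mul 10 0,
  .add 346 0,
  .mul 104 101,
  .mul 0 80,
  .mul 0 2,
  .mul 59 7,
  .add 299 343,
  .mul 2 0,
  .add 2 0,
  .add 302 354,
  .mul 5 0,
  .mul 87 1,
  .mul 0 111,
  .mul 0 113,
  .mul 5 174,
  .mul 1 85,
  .add 1 0,
  .mul 357 114,
  .inv 311,
  .mul 1 0,
  .scale ⟨549755813888, 0, 0, 0⟩ 0,
  .mul 343 0,
  .add 0 5,
  .mul 370 0,
  .mul 370 0,
  .mul 16 41,
  .mul 0 108,
  .mul 16 189,
  .mul 0 107,
  .add 2 0,
  .mul 352 5,
  .mul 117 1,
  .add 1 0,
  .mul 266 0,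
  .mul 0 15,
  .sub 380 0,
  .inv 0,
  .mul 4 0,
  .mul 385 0,
  .mul 272 1,
  .mul 0 21,
  .sub 386 0,
  .mul 338 0,
  .sub 0 4,
  .inv 0,
  .mul 6 0,
  .sub 339 6,
  .inv 0,
  .mul 2 156,
  .scale ⟨549755813888, 0, 0, 0⟩ 0,
  .sub 395 0,
  .sub 396 2,
  .inv 0,
  .mul 2 0,
  .mul 396 6,
  .mul 161 10,
  .mul 0 2,
  .add 2 0,
  .mul 396 20,
  .mul 11 0,
  .mul 168 15,
  .mul 0 7,
  .mul 0 23,
  .add 3 0,
  .scale ⟨223338299392, 0, 0, 0⟩ 0,
  .add 402 0,
  .mul 2 0,
  .add 412 0,
  .mul 10 0,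
  .mul 0 32,
  .mul 0 40,
  .mul 156 393,
  .const ⟨7696581394432, 0, 0, 0⟩,
  .const ⟨10995116277760, 0, 0, 0⟩,
  .inv 0,
  .mul 2 0,
  .mul 181 397,
  .mul 0 1,
  .mul 235 317,
  .mul 402 0,
  .scale ⟨549755813888, 0, 0, 0⟩ 187,
  .sub 426 0,
  .sub 427 189,
  .inv 0,
  .mul 2 0,
  .mul 0 234,
  .mul 319 309,
  .scale ⟨733097230336, 0, 0, 0⟩ 0,
  .sub 433 0,
  .mul 312 0,
  .mul 346 346,
  .mul 424 0,
  .add 2 0,
  .mul 7 199,
  .add 1 439,
  .mul 1 0,
  .sub 3 0,
  .scale ⟨366548615168, 0, 0, 0⟩ 397,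
  .sub 443 0,
  .mul 418 0,
  .add 3 0,
  .mul 22 0,
  .mul 22 22,
  .add 448 0,
  .inv 0,
  .mul 3 0,
  .sub 451 60,
  .mul 0 1,
  .sub 453 14,
  .pos 0,
  .pos 3,
  .pos 2,
  .mul 39 200,
  .mul 0 87,
  .inv 432,
  .mul 1 0,
  .mul 454 5,
  .mul 461 0,
  .scale ⟨549755813888, 0, 0, 0⟩ 0,
  .sub 461 0,
  .mul 3 0,
  .neg 0,
  .mul 461 468,
  .mul 0 225,
  .mul 0 451,
  .mul 467 0,
  .add 4 0,
  .mul 5 1,
  .mul 472 0,
  .add 2 0,
  .mul 460 430,
  .scale ⟨412316860416, 0, 0, 0⟩ 430,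
  .sub 466 0,
  .mul 2 0,
  .mul 476 0,
  .neg 0,
  .add 6 0,
  .mul 7 1,
  .mul 482 0,
  .add 2 0,
  .mul 479 99,
  .mul 0 26,
  .mul 484 0,
  .add 3 0,
  .mul 4 1,
  .mul 489 0,
  .add 2 0,
  .mul 489 66,
  .sub 1 0,
  .mul 493 68,
  .add 492 0,
  .inv 0,
  .mul 3 0,
  .mul 492 486,
  .mul 0 113,
  .mul 0 104,
  .mul 498 0,
  .add 4 0,
  .mul 5 1,
  .mul 503 0,
  .add 2 0,
  .mul 505 0,
  .add 504 0,
  .mul 89 244,
  .mul 508 89,
  .mul 49 0,
  .add 2 0,
  .mul 509 0,
  .add 94 52,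
  .mul 511 0,
  .mul 2 7,
  .add 10 0,
  .add 0 2,
  .neg 0,
  .scale ⟨1073741824, 0, 0, 0⟩ 516,
  .sub 1 0,
  .sub 498 518,
  .add 0 463,
  .scale ⟨2199023255552, 0, 0, 0⟩ 99,
  .sub 1 0,
  .mul 282 0,
  .mul 4 2,
  .add 0 524,
  .inv 0,
  .mul 3 0,
  .mul 270 152,
  .scale ⟨549755813888, 0, 0, 0⟩ 277,
  .add 512 0,
  .mul 2 0,
  .scale ⟨2199023255552, 0, 0, 0⟩ 0,
  .add 162 0,
  .scale ⟨2199023255552, 0, 0, 0⟩ 0,
  .mul 0 152,
  .mul 526 152,
  .sub 512 0,
  .inv 0,
  .mul 3 0,
  .sub 12 0,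
  .mul 287 287,
  .const ⟨14293651161088, 0, 0, 0⟩,
  .mul 0 122,
  .mul 2 0,
  .mul 545 545,
  .scale ⟨27487790694400, 0, 0, 0⟩ 0,
  .add 2 0,
  .mul 124 53,
  .sub 508 550,
  .sub 0 510,
  .mul 550 547,
  .mul 0 552,
  .mul 528 177,
  .mul 0 298,
  .add 192 0,
  .add 19 499,
  .mul 556 0,
  .mul 10 9,
  .mul 176 1,
  .mul 7 4,
  .mul 1 0,
  .sub 3 0,
  .scale ⟨549755813888, 0, 0, 0⟩ 26,
  .add 563 0,
  .mul 182 0,
  .mul 567 542,
  .mul 0 318,
  .mul 543 515,
  .inv 0,
  .mul 2 0,
  .mul 5 0,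
  .sub 21 0,
  .mul 321 10,
  .sub 573 322,
  .mul 562 2,
  .mul 1 0,
  .mul 29 0,
  .add 4 0,
  .pos 316,
  .pos 313,
  .scale ⟨2199023255552, 0, 0, 0⟩ 199,
  .sub 527 0,
  .pos 0,
  .pos 191,
  .sub 572 342,
  .pos 0,
  .scale ⟨687194767360, 0, 0, 0⟩ 581,
  .sub 0 243,
  .pos 0,
  .scale ⟨377957122048, 0, 0, 0⟩ 583,
  .sub 0 249,
  .pos 0,
  .pos 48,
  .pos 188,
  .sub 3 176,
  .pos 0,
  .pos 46,
  .pos 68,
  .pos 8,
  .pos 14]

def chk1 {α : Type} (cst : Z → α) (add sub mul : α → α → α) (scale : Z → α → α)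
    (neg inv exp log : α → α) (ok : α → Bool) (isPos : Nat → α → Bool) (isLt : α → Nat → Bool) :
    List α → Bool
  | [x0, x1, x2, x3] =>
  let v0 := cst ⟨1099511627776, 0, 0, 0⟩; ok v0 && (
  let v1 := mul x1 x2; ok v1 && (
  let v2 := mul v1 x0; ok v2 && (
  let v3 := mul x2 v2; ok v3 && (
  let v4 := mul x2 x2; ok v4 && (
  let v5 := mul x1 v4; ok v5 && (
  let v6 := mul v2 v2; ok v6 && (
  let v7 := mul x1 v5; ok v7 && (
  let v8 := cst ⟨549755813888, 0, 0, 0⟩; ok v8 && (
  let v9 := mul x1 v3; ok v9 && (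
  let v10 := mul v9 x3; ok v10 && (
  let v11 := scale ⟨549755813888, 0, 0, 0⟩ v10; ok v11 && (
  let v12 := mul v3 v3; ok v12 && (
  let v13 := mul v11 v11; ok v13 && (
  let v14 := sub v0 v13; ok v14 && (
  let v15 := inv v14; ok v15 && (
  let v16 := mul v11 v15; ok v16 && (
  let v17 := scale ⟨2199023255552, 0, 0, 0⟩ v16; ok v17 && (
  let v18 := scale ⟨2199023255552, 0, 0, 0⟩ v15; ok v18 && (
  let v19 := sub v18 v0; ok v19 && (
  let v20 := add v19 v17; ok v20 && (
  let v21 := mul x3 v15; ok v21 && (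
  let v22 := mul v3 v21; ok v22 && (
  let v23 := sub v0 v22; ok v23 && (
  let v24 := add v0 v22; ok v24 && (
  let v25 := mul x1 v12; ok v25 && (
  let v26 := mul v21 v21; ok v26 && (
  let v27 := scale ⟨10774999203840, 0, 0, 0⟩ v11; ok v27 && (
  let v28 := scale ⟨45768245248, 0, 0, 0⟩ v27; ok v28 && (
  let v29 := cst ⟨183207198720, 0, 0, 0⟩; ok v29 && (
  let v30 := add v28 v29; ok v30 && (
  let v31 := mul v27 v30; ok v31 && (
  let v32 := add v8 v31; ok v32 && (
  let v33 := mul v27 v32; ok v33 && (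
  let v34 := add v0 v33; ok v34 && (
  let v35 := mul v27 v34; ok v35 && (
  let v36 := scale ⟨549755813888, 0, 0, 0⟩ v35; ok v36 && (
  let v37 := add v0 v36; ok v37 && (
  let v38 := mul v34 v37; ok v38 && (
  let v39 := mul v17 v22; ok v39 && (
  let v40 := scale ⟨2199023255552, 0, 0, 0⟩ v19; ok v40 && (
  let v41 := add v39 v40; ok v41 && (
  let v42 := add v41 x1; ok v42 && (
  let v43 := mul v25 v42; ok v43 && (
  let v44 := add v43 v0; ok v44 && (
  let v45 := mul v17 v17; ok v45 && (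
  let v46 := scale ⟨2199023255552, 0, 0, 0⟩ v45; ok v46 && (
  let v47 := add v46 v0; ok v47 && (
  let v48 := mul v19 v42; ok v48 && (
  let v49 := sub v48 v0; ok v49 && (
  let v50 := log v44; ok v50 && (
  let v51 := scale ⟨549755813888, 0, 0, 0⟩ v50; ok v51 && (
  let v52 := exp v51; ok v52 && (
  let v53 := cst ⟨3298534883328, 0, 0, 0⟩; ok v53 && (
  let v54 := inv v53; ok v54 && (
  let v55 := mul v0 v54; ok v55 && (
  let v56 := cst ⟨2199023255552, 0, 0, 0⟩; ok v56 && (
  let v57 := add v43 v56; ok v57 && (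
  let v58 := inv v57; ok v58 && (
  let v59 := mul v43 v58; ok v59 && (
  let v60 := mul v59 v59; ok v60 && (
  let v61 := sub v0 v59; ok v61 && (
  let v62 := mul v60 v55; ok v62 && (
  let v63 := add v0 v62; ok v63 && (
  let v64 := mul v61 v63; ok v64 && (
  let v65 := mul v60 v60; ok v65 && (
  let v66 := scale ⟨219915747328, 0, 0, 0⟩ v65; ok v66 && (
  let v67 := mul v42 v64; ok v67 && (
  let v68 := scale ⟨549755813888, 0, 0, 0⟩ v67; ok v68 && (
  let v69 := mul v42 v66; ok v69 && (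
  let v70 := scale ⟨549755813888, 0, 0, 0⟩ v69; ok v70 && (
  let v71 := add v68 v70; ok v71 && (
  let v72 := mul v19 v49; ok v72 && (
  let v73 := scale ⟨4398046511104, 0, 0, 0⟩ v72; ok v73 && (
  let v74 := mul v19 v25; ok v74 && (
  let v75 := mul v74 v49; ok v75 && (
  let v76 := scale ⟨4398046511104, 0, 0, 0⟩ v75; ok v76 && (
  let v77 := add v76 v56; ok v77 && (
  let v78 := inv v77; ok v78 && (
  let v79 := mul v76 v78; ok v79 && (
  let v80 := mul v79 v79; ok v80 && (
  let v81 := sub v0 v79; ok v81 && (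
  let v82 := mul v80 v55; ok v82 && (
  let v83 := add v0 v82; ok v83 && (
  let v84 := mul v81 v83; ok v84 && (
  let v85 := mul v80 v80; ok v85 && (
  let v86 := scale ⟨219915747328, 0, 0, 0⟩ v85; ok v86 && (
  let v87 := mul v73 v84; ok v87 && (
  let v88 := scale ⟨549755813888, 0, 0, 0⟩ v87; ok v88 && (
  let v89 := sub v88 v71; ok v89 && (
  let v90 := mul v73 v86; ok v90 && (
  let v91 := scale ⟨549755813888, 0, 0, 0⟩ v90; ok v91 && (
  let v92 := add v91 v70; ok v92 && (
  let v93 := add v89 v92; ok v93 && (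
  let v94 := mul v5 v68; ok v94 && (
  let v95 := neg v94; ok v95 && (
  let v96 := exp v95; ok v96 && (
  let v97 := mul v5 v70; ok v97 && (
  let v98 := mul v96 v97; ok v98 && (
  let v99 := mul v5 v89; ok v99 && (
  let v100 := neg v99; ok v100 && (
  let v101 := exp v100; ok v101 && (
  let v102 := mul v5 v92; ok v102 && (
  let v103 := mul v101 v102; ok v103 && (
  let v104 := mul v22 v17; ok v104 && (
  let v105 := add v19 v104; ok v105 && (
  let v106 := inv v105; ok v106 && (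
  let v107 := mul v24 v106; ok v107 && (
  let v108 := mul v23 x1; ok v108 && (
  let v109 := mul v108 v107; ok v109 && (
  let v110 := sub v0 v12; ok v110 && (
  let v111 := mul v26 v110; ok v111 && (
  let v112 := mul v9 v9; ok v112 && (
  let v113 := sub v0 v26; ok v113 && (
  let v114 := mul v110 v113; ok v114 && (
  let v115 := mul v25 v49; ok v115 && (
  let v116 := inv v44; ok v116 && (
  let v117 := mul v115 v116; ok v117 && (
  let v118 := add v19 v117; ok v118 && (
  let v119 := mul v44 v118; ok v119 && (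
  let v120 := mul v119 v119; ok v120 && (
  let v121 := inv v120; ok v121 && (
  let v122 := mul v114 v121; ok v122 && (
  let v123 := add v19 v25; ok v123 && (
  let v124 := mul x0 v123; ok v124 && (
  let v125 := inv v124; ok v125 && (
  let v126 := mul v0 v125; ok v126 && (
  let v127 := mul v126 v126; ok v127 && (
  let v128 := mul v127 v114; ok v128 && (
  let v129 := cst ⟨10849087389696, 0, 0, 0⟩; ok v129 && (
  let v130 := sub v129 v128; ok v130 && (
  isPos 4 v130 && (
  let v131 := cst ⟨13, 0, 0, 0⟩; ok v131 && (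
  let v132 := cst ⟨2295, 0, 0, 0⟩; ok v132 && (
  let v133 := mul v128 v131; ok v133 && (
  let v134 := sub v132 v133; ok v134 && (
  let v135 := cst ⟨302996, 0, 0, 0⟩; ok v135 && (
  let v136 := mul v128 v134; ok v136 && (
  let v137 := sub v135 v136; ok v137 && (
  let v138 := cst ⟨27269633, 0, 0, 0⟩; ok v138 && (
  let v139 := mul v128 v137; ok v139 && (
  let v140 := sub v138 v139; ok v140 && (
  let v141 := cst ⟨1527099484, 0, 0, 0⟩; ok v141 && (
  let v142 := mul v128 v140; ok v142 && (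
  let v143 := sub v141 v142; ok v143 && (
  let v144 := cst ⟨45812984490, 0, 0, 0⟩; ok v144 && (
  let v145 := mul v128 v143; ok v145 && (
  let v146 := sub v144 v145; ok v146 && (
  let v147 := mul v128 v146; ok v147 && (
  let v148 := sub v8 v147; ok v148 && (
  let v149 := mul v128 v148; ok v149 && (
  let v150 := sub v0 v149; ok v150 && (
  let v151 := add v96 v0; ok v151 && (
  let v152 := mul v96 v96; ok v152 && (
  let v153 := add v152 v0; ok v153 && (
  let v154 := mul v96 v150; ok v154 && (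
  let v155 := scale ⟨2199023255552, 0, 0, 0⟩ v154; ok v155 && (
  let v156 := add v153 v155; ok v156 && (
  let v157 := scale ⟨4398046511104, 0, 0, 0⟩ v98; ok v157 && (
  let v158 := sub v156 v157; ok v158 && (
  let v159 := inv v151; ok v159 && (
  let v160 := mul v158 v159; ok v160 && (
  let v161 := add v160 v151; ok v161 && (
  let v162 := mul v96 v109; ok v162 && (
  let v163 := scale ⟨549755813888, 0, 0, 0⟩ v162; ok v163 && (
  let v164 := mul v163 v161; ok v164 && (
  let v165 := sub v158 v164; ok v165 && (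
  isPos 4 v158 && (
  isPos 4 v165 && (
  let v166 := sub v0 v96; ok v166 && (
  let v167 := mul v166 v151; ok v167 && (
  let v168 := scale ⟨2199023255552, 0, 0, 0⟩ v98; ok v168 && (
  let v169 := add v167 v168; ok v169 && (
  let v170 := inv v165; ok v170 && (
  let v171 := mul v169 v170; ok v171 && (
  let v172 := scale ⟨549755813888, 0, 0, 0⟩ v171; ok v172 && (
  let v173 := add v172 v8; ok v173 && (
  let v174 := inv v173; ok v174 && (
  let v175 := mul v172 v174; ok v175 && (
  let v176 := mul v109 v175; ok v176 && (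
  let v177 := scale ⟨549755813888, 0, 0, 0⟩ v176; ok v177 && (
  let v178 := sub v0 v177; ok v178 && (
  let v179 := sub v0 v176; ok v179 && (
  let v180 := inv v179; ok v180 && (
  let v181 := mul v178 v180; ok v181 && (
  let v182 := add v176 v0; ok v182 && (
  let v183 := mul v96 v182; ok v183 && (
  let v184 := mul v107 v181; ok v184 && (
  let v185 := mul v184 v175; ok v185 && (
  let v186 := mul v176 v181; ok v186 && (
  isPos 4 v179 && (
  let v187 := mul v23 v24; ok v187 && (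
  let v188 := add v19 x1; ok v188 && (
  let v189 := mul v22 v19; ok v189 && (
  let v190 := mul v189 v17; ok v190 && (
  let v191 := scale ⟨2199023255552, 0, 0, 0⟩ v190; ok v191 && (
  let v192 := add v47 v191; ok v192 && (
  let v193 := mul v188 v192; ok v193 && (
  let v194 := inv v193; ok v194 && (
  let v195 := mul v187 v194; ok v195 && (
  let v196 := mul x1 v195; ok v196 && (
  isPos 4 v89 && (
  let v197 := mul v128 v116; ok v197 && (
  let v198 := sub v129 v197; ok v198 && (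
  isPos 4 v198 && (
  let v199 := mul v197 v131; ok v199 && (
  let v200 := sub v132 v199; ok v200 && (
  let v201 := mul v197 v200; ok v201 && (
  let v202 := sub v135 v201; ok v202 && (
  let v203 := mul v197 v202; ok v203 && (
  let v204 := sub v138 v203; ok v204 && (
  let v205 := mul v197 v204; ok v205 && (
  let v206 := sub v141 v205; ok v206 && (
  let v207 := mul v197 v206; ok v207 && (
  let v208 := sub v144 v207; ok v208 && (
  let v209 := mul v197 v208; ok v209 && (
  let v210 := sub v8 v209; ok v210 && (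
  let v211 := mul v197 v210; ok v211 && (
  let v212 := sub v0 v211; ok v212 && (
  let v213 := add v101 v0; ok v213 && (
  let v214 := mul v101 v101; ok v214 && (
  let v215 := add v214 v0; ok v215 && (
  let v216 := mul v101 v212; ok v216 && (
  let v217 := scale ⟨2199023255552, 0, 0, 0⟩ v216; ok v217 && (
  let v218 := add v215 v217; ok v218 && (
  let v219 := scale ⟨4398046511104, 0, 0, 0⟩ v103; ok v219 && (
  let v220 := sub v218 v219; ok v220 && (
  let v221 := inv v213; ok v221 && (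
  let v222 := mul v220 v221; ok v222 && (
  let v223 := add v222 v213; ok v223 && (
  let v224 := mul v101 v196; ok v224 && (
  let v225 := scale ⟨549755813888, 0, 0, 0⟩ v224; ok v225 && (
  let v226 := mul v225 v223; ok v226 && (
  let v227 := sub v220 v226; ok v227 && (
  isPos 4 v220 && (
  isPos 4 v227 && (
  let v228 := sub v0 v101; ok v228 && (
  let v229 := mul v228 v213; ok v229 && (
  let v230 := scale ⟨2199023255552, 0, 0, 0⟩ v103; ok v230 && (
  let v231 := add v229 v230; ok v231 && (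
  let v232 := inv v227; ok v232 && (
  let v233 := mul v231 v232; ok v233 && (
  let v234 := scale ⟨549755813888, 0, 0, 0⟩ v233; ok v234 && (
  let v235 := add v234 v8; ok v235 && (
  let v236 := inv v235; ok v236 && (
  let v237 := mul v234 v236; ok v237 && (
  let v238 := mul v196 v237; ok v238 && (
  let v239 := mul v237 x0; ok v239 && (
  let v240 := add v11 v0; ok v240 && (
  let v241 := inv v240; ok v241 && (
  let v242 := mul v11 v241; ok v242 && (
  let v243 := scale ⟨2199023255552, 0, 0, 0⟩ v242; ok v243 && (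
  let v244 := sub v0 v243; ok v244 && (
  let v245 := sub v0 v11; ok v245 && (
  let v246 := mul x3 v241; ok v246 && (
  let v247 := mul v246 v244; ok v247 && (
  let v248 := add v24 v247; ok v248 && (
  let v249 := scale ⟨224412041216, 0, 0, 0⟩ v15; ok v249 && (
  let v250 := inv v38; ok v250 && (
  let v251 := mul v249 v250; ok v251 && (
  let v252 := scale ⟨4398046511104, 0, 0, 0⟩ x0; ok v252 && (
  let v253 := mul v0 v21; ok v253 && (
  let v254 := add v252 v253; ok v254 && (
  let v255 := inv v254; ok v255 && (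
  let v256 := mul v0 v255; ok v256 && (
  let v257 := mul x0 v255; ok v257 && (
  let v258 := mul v257 v24; ok v258 && (
  let v259 := mul v258 v251; ok v259 && (
  let v260 := mul v256 v24; ok v260 && (
  let v261 := mul v260 v251; ok v261 && (
  let v262 := sub v0 v261; ok v262 && (
  let v263 := inv v262; ok v263 && (
  let v264 := mul v183 v261; ok v264 && (
  let v265 := sub v0 v264; ok v265 && (
  let v266 := inv v265; ok v266 && (
  let v267 := scale ⟨2199023255552, 0, 0, 0⟩ v6; ok v267 && (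
  let v268 := add v267 v0; ok v268 && (
  let v269 := add v6 v0; ok v269 && (
  let v270 := mul x0 v21; ok v270 && (
  let v271 := scale ⟨1099511627776, 0, 0, 0⟩ v270; ok v271 && (
  let v272 := scale ⟨1099511627776, 0, 0, 0⟩ x1; ok v272 && (
  let v273 := add v271 v272; ok v273 && (
  let v274 := mul x2 v273; ok v274 && (
  let v275 := scale ⟨549755813888, 0, 0, 0⟩ v274; ok v275 && (
  let v276 := mul v11 v21; ok v276 && (
  let v277 := sub v0 v111; ok v277 && (
  let v278 := mul v11 v22; ok v278 && (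
  let v279 := scale ⟨2199023255552, 0, 0, 0⟩ v278; ok v279 && (
  let v280 := sub v277 v279; ok v280 && (
  let v281 := mul v276 v276; ok v281 && (
  let v282 := add v280 v281; ok v282 && (
  let v283 := add v282 v0; ok v283 && (
  let v284 := scale ⟨549755813888, 0, 0, 0⟩ v283; ok v284 && (
  let v285 := scale ⟨549755813888, 0, 0, 0⟩ v25; ok v285 && (
  let v286 := sub v15 v285; ok v286 && (
  let v287 := mul v112 v277; ok v287 && (
  let v288 := mul v287 v14; ok v288 && (
  let v289 := scale ⟨137438953472, 0, 0, 0⟩ v288; ok v289 && (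
  let v290 := add v286 v289; ok v290 && (
  let v291 := mul v284 v290; ok v291 && (
  let v292 := cst ⟨1, 0, 0, 0⟩; ok v292 && (
  let v293 := cst ⟨12, 0, 0, 0⟩; ok v293 && (
  let v294 := mul v128 v292; ok v294 && (
  let v295 := sub v293 v294; ok v295 && (
  let v296 := cst ⟨2296, 0, 0, 0⟩; ok v296 && (
  let v297 := mul v128 v295; ok v297 && (
  let v298 := sub v296 v297; ok v298 && (
  let v299 := cst ⟨302995, 0, 0, 0⟩; ok v299 && (
  let v300 := mul v128 v298; ok v300 && (
  let v301 := sub v299 v300; ok v301 && (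
  let v302 := cst ⟨27269634, 0, 0, 0⟩; ok v302 && (
  let v303 := mul v128 v301; ok v303 && (
  let v304 := sub v302 v303; ok v304 && (
  let v305 := cst ⟨1527099483, 0, 0, 0⟩; ok v305 && (
  let v306 := mul v128 v304; ok v306 && (
  let v307 := sub v305 v306; ok v307 && (
  let v308 := cst ⟨45812984491, 0, 0, 0⟩; ok v308 && (
  let v309 := mul v128 v307; ok v309 && (
  let v310 := sub v308 v309; ok v310 && (
  let v311 := mul v128 v310; ok v311 && (
  let v312 := sub v8 v311; ok v312 && (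
  let v313 := mul v128 v312; ok v313 && (
  let v314 := sub v0 v313; ok v314 && (
  let v315 := mul v128 v6; ok v315 && (
  let v316 := mul v315 v315; ok v316 && (
  let v317 := scale ⟨369367187456, 0, 0, 0⟩ v316; ok v317 && (
  let v318 := add v314 v317; ok v318 && (
  let v319 := mul v96 v318; ok v319 && (
  let v320 := scale ⟨2199023255552, 0, 0, 0⟩ v319; ok v320 && (
  let v321 := add v153 v320; ok v321 && (
  let v322 := add v321 v168; ok v322 && (
  let v323 := cst ⟨8589934592, 0, 0, 0⟩; ok v323 && (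
  let v324 := add v322 v323; ok v324 && (
  let v325 := log v324; ok v325 && (
  let v326 := scale ⟨549755813888, 0, 0, 0⟩ v325; ok v326 && (
  let v327 := exp v326; ok v327 && (
  let v328 := mul v96 v176; ok v328 && (
  let v329 := add v327 v328; ok v329 && (
  let v330 := mul v329 v263; ok v330 && (
  let v331 := mul v183 v266; ok v331 && (
  let v332 := add v330 v331; ok v332 && (
  let v333 := mul v261 v332; ok v333 && (
  let v334 := add v186 v333; ok v334 && (
  let v335 := mul v334 v6; ok v335 && (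
  let v336 := mul v329 v261; ok v336 && (
  let v337 := mul v336 v263; ok v337 && (
  let v338 := add v186 v337; ok v338 && (
  let v339 := mul v338 v6; ok v339 && (
  let v340 := scale ⟨223338299392, 0, 0, 0⟩ v339; ok v340 && (
  let v341 := add v8 v340; ok v341 && (
  let v342 := mul v339 v341; ok v342 && (
  let v343 := add v0 v342; ok v343 && (
  let v344 := scale ⟨893353197568, 0, 0, 0⟩ v335; ok v344 && (
  let v345 := add v0 v344; ok v345 && (
  let v346 := mul v335 v345; ok v346 && (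
  let v347 := add v0 v346; ok v347 && (
  let v348 := mul v243 v246; ok v348 && (
  let v349 := mul v348 v268; ok v349 && (
  let v350 := mul v349 v347; ok v350 && (
  let v351 := mul v291 v343; ok v351 && (
  let v352 := add v52 v8; ok v352 && (
  let v353 := mul v350 v352; ok v353 && (
  let v354 := add v351 v353; ok v354 && (
  let v355 := add v52 v0; ok v355 && (
  let v356 := mul v350 v355; ok v356 && (
  let v357 := mul v269 v355; ok v357 && (
  let v358 := mul v357 v246; ok v358 && (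
  let v359 := mul v358 v245; ok v359 && (
  let v360 := mul v354 v185; ok v360 && (
  let v361 := mul v359 v275; ok v361 && (
  let v362 := add v360 v361; ok v362 && (
  let v363 := mul v5 v248; ok v363 && (
  let v364 := inv v52; ok v364 && (
  let v365 := mul v363 v364; ok v365 && (
  let v366 := scale ⟨549755813888, 0, 0, 0⟩ v365; ok v366 && (
  let v367 := mul v23 v366; ok v367 && (
  let v368 := add v367 v362; ok v368 && (
  let v369 := mul x1 v368; ok v369 && (
  let v370 := mul x0 v369; ok v370 && (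
  let v371 := mul v354 v329; ok v371 && (
  let v372 := mul v371 v263; ok v372 && (
  let v373 := mul v356 v183; ok v373 && (
  let v374 := mul v373 v266; ok v374 && (
  let v375 := add v372 v374; ok v375 && (
  let v376 := mul v23 v370; ok v376 && (
  let v377 := mul v259 v375; ok v377 && (
  let v378 := add v376 v377; ok v378 && (
  let v379 := mul v112 v378; ok v379 && (
  let v380 := mul v379 v364; ok v380 && (
  let v381 := sub v0 v380; ok v381 && (
  let v382 := inv v381; ok v382 && (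
  let v383 := mul v378 v382; ok v383 && (
  let v384 := mul x1 v383; ok v384 && (
  let v385 := mul v112 v383; ok v385 && (
  let v386 := mul v385 v364; ok v386 && (
  let v387 := sub v0 v386; ok v387 && (
  let v388 := mul v49 v387; ok v388 && (
  let v389 := sub v388 v384; ok v389 && (
  let v390 := inv v389; ok v390 && (
  let v391 := mul v384 v390; ok v391 && (
  let v392 := sub v52 v385; ok v392 && (
  let v393 := inv v392; ok v393 && (
  let v394 := mul v391 v237; ok v394 && (
  let v395 := scale ⟨549755813888, 0, 0, 0⟩ v394; ok v395 && (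
  let v396 := sub v0 v395; ok v396 && (
  let v397 := sub v0 v394; ok v397 && (
  let v398 := inv v397; ok v398 && (
  let v399 := mul v396 v398; ok v399 && (
  let v400 := mul v3 v393; ok v400 && (
  let v401 := mul v239 v390; ok v401 && (
  let v402 := mul v401 v399; ok v402 && (
  let v403 := add v400 v402; ok v403 && (
  let v404 := mul v7 v383; ok v404 && (
  let v405 := mul v393 v404; ok v405 && (
  let v406 := mul v237 v390; ok v406 && (
  let v407 := mul v406 v399; ok v407 && (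
  let v408 := mul v407 v384; ok v408 && (
  let v409 := add v405 v408; ok v409 && (
  let v410 := scale ⟨223338299392, 0, 0, 0⟩ v409; ok v410 && (
  let v411 := add v8 v410; ok v411 && (
  let v412 := mul v409 v411; ok v412 && (
  let v413 := add v0 v412; ok v413 && (
  let v414 := mul v403 v413; ok v414 && (
  let v415 := mul v414 v382; ok v415 && (
  let v416 := mul v415 v375; ok v416 && (
  let v417 := mul v260 v23; ok v417 && (
  let v418 := cst ⟨7696581394432, 0, 0, 0⟩; ok v418 && (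
  let v419 := cst ⟨10995116277760, 0, 0, 0⟩; ok v419 && (
  let v420 := inv v419; ok v420 && (
  let v421 := mul v418 v420; ok v421 && (
  let v422 := mul v240 v24; ok v422 && (
  let v423 := mul v422 v421; ok v423 && (
  let v424 := mul v188 v106; ok v424 && (
  let v425 := mul v22 v424; ok v425 && (
  let v426 := scale ⟨549755813888, 0, 0, 0⟩ v238; ok v426 && (
  let v427 := sub v0 v426; ok v427 && (
  let v428 := sub v0 v238; ok v428 && (
  let v429 := inv v428; ok v429 && (
  let v430 := mul v427 v429; ok v430 && (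
  let v431 := mul v430 v196; ok v431 && (
  let v432 := mul v112 v122; ok v432 && (
  let v433 := scale ⟨733097230336, 0, 0, 0⟩ v432; ok v433 && (
  let v434 := sub v0 v433; ok v434 && (
  let v435 := mul v122 v434; ok v435 && (
  let v436 := mul v89 v89; ok v436 && (
  let v437 := mul v12 v436; ok v437 && (
  let v438 := add v435 v437; ok v438 && (
  let v439 := mul v431 v239; ok v439 && (
  let v440 := add v438 v0; ok v440 && (
  let v441 := mul v439 v440; ok v441 && (
  let v442 := sub v438 v441; ok v442 && (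
  let v443 := scale ⟨366548615168, 0, 0, 0⟩ v45; ok v443 && (
  let v444 := sub v0 v443; ok v444 && (
  let v445 := mul v26 v444; ok v445 && (
  let v446 := add v442 v445; ok v446 && (
  let v447 := mul v424 v446; ok v447 && (
  let v448 := mul v425 v425; ok v448 && (
  let v449 := add v0 v448; ok v449 && (
  let v450 := inv v449; ok v450 && (
  let v451 := mul v447 v450; ok v451 && (
  let v452 := sub v0 v391; ok v452 && (
  let v453 := mul v452 v451; ok v453 && (
  let v454 := sub v0 v439; ok v454 && (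
  isPos 4 v454 && (
  isPos 4 v451 && (
  isPos 4 v452 && (
  let v455 := mul v415 v254; ok v455 && (
  let v456 := mul v455 v368; ok v456 && (
  let v457 := inv v24; ok v457 && (
  let v458 := mul v456 v457; ok v458 && (
  let v459 := mul v4 v453; ok v459 && (
  let v460 := mul x1 v459; ok v460 && (
  let v461 := scale ⟨549755813888, 0, 0, 0⟩ v460; ok v461 && (
  let v462 := sub v0 v461; ok v462 && (
  let v463 := mul v459 v462; ok v463 && (
  let v464 := neg v463; ok v464 && (
  let v465 := mul v3 x3; ok v465 && (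
  let v466 := mul v465 v240; ok v466 && (
  let v467 := mul v466 v15; ok v467 && (
  let v468 := mul v0 v467; ok v468 && (
  let v469 := add v464 v468; ok v469 && (
  let v470 := mul v464 v468; ok v470 && (
  let v471 := mul x1 v470; ok v471 && (
  let v472 := add v469 v471; ok v472 && (
  let v473 := mul v12 v42; ok v473 && (
  let v474 := scale ⟨412316860416, 0, 0, 0⟩ v43; ok v474 && (
  let v475 := sub v8 v474; ok v475 && (
  let v476 := mul v473 v475; ok v476 && (
  let v477 := mul v0 v476; ok v477 && (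
  let v478 := neg v477; ok v478 && (
  let v479 := add v472 v478; ok v479 && (
  let v480 := mul v472 v478; ok v480 && (
  let v481 := mul x1 v480; ok v481 && (
  let v482 := add v479 v481; ok v482 && (
  let v483 := mul v3 v383; ok v483 && (
  let v484 := mul v483 v457; ok v484 && (
  let v485 := mul v0 v484; ok v485 && (
  let v486 := add v482 v485; ok v486 && (
  let v487 := mul v482 v485; ok v487 && (
  let v488 := mul x1 v487; ok v488 && (
  let v489 := add v486 v488; ok v489 && (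
  let v490 := mul v0 v423; ok v490 && (
  let v491 := sub v489 v490; ok v491 && (
  let v492 := mul x1 v423; ok v492 && (
  let v493 := add v0 v492; ok v493 && (
  let v494 := inv v493; ok v494 && (
  let v495 := mul v491 v494; ok v495 && (
  let v496 := mul v3 v9; ok v496 && (
  let v497 := mul v496 v383; ok v497 && (
  let v498 := mul v497 v393; ok v498 && (
  let v499 := mul v0 v498; ok v499 && (
  let v500 := add v495 v499; ok v500 && (
  let v501 := mul v495 v499; ok v501 && (
  let v502 := mul x1 v501; ok v502 && (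
  let v503 := add v500 v502; ok v503 && (
  let v504 := mul x1 v503; ok v504 && (
  let v505 := add v0 v504; ok v505 && (
  let v506 := mul v416 v261; ok v506 && (
  let v507 := mul x1 v417; ok v507 && (
  let v508 := mul v458 v507; ok v508 && (
  let v509 := add v506 v508; ok v509 && (
  let v510 := mul v0 v509; ok v510 && (
  let v511 := add v416 v458; ok v511 && (
  let v512 := mul v0 v511; ok v512 && (
  let v513 := mul v510 v505; ok v513 && (
  let v514 := add v503 v513; ok v514 && (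
  let v515 := add v514 v512; ok v515 && (
  let v516 := neg v515; ok v516 && (
  let v517 := scale ⟨1073741824, 0, 0, 0⟩ v0; ok v517 && (
  let v518 := sub v516 v517; ok v518 && (
  let v519 := sub v20 v0; ok v519 && (
  let v520 := add v519 v56; ok v520 && (
  let v521 := scale ⟨2199023255552, 0, 0, 0⟩ v421; ok v521 && (
  let v522 := sub v520 v521; ok v522 && (
  let v523 := mul v240 v522; ok v523 && (
  let v524 := mul v519 v521; ok v524 && (
  let v525 := add v524 v0; ok v525 && (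
  let v526 := inv v525; ok v526 && (
  let v527 := mul v523 v526; ok v527 && (
  let v528 := mul v257 v375; ok v528 && (
  let v529 := scale ⟨549755813888, 0, 0, 0⟩ v251; ok v529 && (
  let v530 := add v17 v529; ok v530 && (
  let v531 := mul v528 v530; ok v531 && (
  let v532 := scale ⟨2199023255552, 0, 0, 0⟩ v531; ok v532 && (
  let v533 := add v370 v532; ok v533 && (
  let v534 := scale ⟨2199023255552, 0, 0, 0⟩ v533; ok v534 && (
  let v535 := mul v534 v382; ok v535 && (
  let v536 := mul v9 v383; ok v536 && (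
  let v537 := sub v24 v536; ok v537 && (
  let v538 := inv v537; ok v538 && (
  let v539 := mul v535 v538; ok v539 && (
  let v540 := sub v527 v539; ok v540 && (
  let v541 := mul v253 v253; ok v541 && (
  let v542 := cst ⟨14293651161088, 0, 0, 0⟩; ok v542 && (
  let v543 := mul v542 v420; ok v543 && (
  let v544 := mul v541 v543; ok v544 && (
  let v545 := mul x0 x0; ok v545 && (
  let v546 := scale ⟨27487790694400, 0, 0, 0⟩ v545; ok v546 && (
  let v547 := add v544 v546; ok v547 && (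
  let v548 := mul v423 v494; ok v548 && (
  let v549 := sub v40 x1; ok v549 && (
  let v550 := sub v549 v39; ok v550 && (
  let v551 := mul v0 v3; ok v551 && (
  let v552 := mul v551 x0; ok v552 && (
  let v553 := mul v24 v375; ok v553 && (
  let v554 := mul v553 v255; ok v554 && (
  let v555 := add v362 v554; ok v555 && (
  let v556 := add v536 v56; ok v556 && (
  let v557 := mul v0 v556; ok v557 && (
  let v558 := mul v547 v548; ok v558 && (
  let v559 := mul v382 v557; ok v559 && (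
  let v560 := mul v552 v555; ok v560 && (
  let v561 := mul v559 v560; ok v561 && (
  let v562 := sub v558 v561; ok v562 && (
  let v563 := scale ⟨549755813888, 0, 0, 0⟩ v536; ok v563 && (
  let v564 := add v0 v563; ok v564 && (
  let v565 := mul v382 v564; ok v565 && (
  let v566 := mul x1 v23; ok v566 && (
  let v567 := mul v566 v248; ok v567 && (
  let v568 := mul v24 v52; ok v568 && (
  let v569 := inv v568; ok v569 && (
  let v570 := mul v567 v569; ok v570 && (
  let v571 := mul v565 v570; ok v571 && (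
  let v572 := sub v550 v571; ok v572 && (
  let v573 := mul v251 v562; ok v573 && (
  let v574 := sub v0 v251; ok v574 && (
  let v575 := mul v12 v572; ok v575 && (
  let v576 := mul v574 v575; ok v576 && (
  let v577 := mul v547 v576; ok v577 && (
  let v578 := add v573 v577; ok v578 && (
  isPos 4 v262 && (
  isPos 4 v265 && (
  let v579 := scale ⟨2199023255552, 0, 0, 0⟩ v379; ok v579 && (
  let v580 := sub v52 v579; ok v580 && (
  isPos 4 v580 && (
  isPos 4 v389 && (
  let v581 := sub v8 v238; ok v581 && (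
  isPos 4 v581 && (
  let v582 := scale ⟨687194767360, 0, 0, 0⟩ v0; ok v582 && (
  let v583 := sub v582 v339; ok v583 && (
  isPos 4 v583 && (
  let v584 := scale ⟨377957122048, 0, 0, 0⟩ v0; ok v584 && (
  let v585 := sub v584 v335; ok v585 && (
  isPos 4 v585 && (
  isPos 4 v537 && (
  isPos 4 v397 && (
  let v586 := sub v582 v409; ok v586 && (
  isPos 4 v586 && (
  isPos 4 v540 && (
  isPos 4 v518 && (
  isPos 4 v578 && (
  isPos 4 v572 && (
  true))))))))))))))))))))))))))))))))))))))))))))))))))))))))))))))))))))))))))))))))))))))))))))))))))))))))))))))))))))))))))))))))))))))))))))))))))))))))))))))))))))))))))))))))))))))))))))))))))))))))))))))))))))))))))))))))))))))))))))))))))))))))))))))))))))))))))))))))))))))))))))))))))))))))))))))))))))))))))))))))))))))))))))))))))))))))))))))))))))))))))))))))))))))))))))))))))))))))))))))))))))))))))))))))))))))))))))))))))))))))))))))))))))))))))))))))))))))))))))))))))))))))))))))))))))))))))))))))))))))))))))))))))))))))))))))))))))))))))))))))))))))))))))))))))))))))))))))))))))))))))))))))))))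
  | _ => false

set_option maxRecDepth 1000000 in
theorem chk1_eq (O : Ops) (m : List O.α)
    (h : chk1 O.cst O.add O.sub O.mul O.scale O.neg O.inv O.exp O.log O.ok O.isPos O.isLt m = true) :
    runG O 4 prog1 m = true := by
  match m, h with
  | [x0, x1, x2, x3], h => exact h

def chkB1 : List opsE.α → Bool :=
  chk1 opsE.cst opsE.add opsE.sub opsE.mul opsE.scale opsE.neg opsE.inv opsE.exp opsE.log opsE.ok opsE.isPos opsE.isLt

theorem chkB1_eq (m : List opsE.α) (h : chkB1 m = true) : runG opsE 4 prog1 m = true :=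
  chk1_eq opsE m h

def prog2 : List Op := [
  .const ⟨1099511627776, 0, 0, 0⟩,
  .mul 2 3,
  .mul 0 2,
  .mul 5 0,
  .mul 6 6,
  .mul 6 0,
  .mul 3 3,
  .mul 8 1,
  .const ⟨549755813888, 0, 0, 0⟩,
  .mul 10 5,
  .mul 0 13,
  .scale ⟨549755813888, 0, 0, 0⟩ 0,
  .mul 8 8,
  .mul 1 1,
  .sub 13 0,
  .inv 0,
  .mul 4 0,
  .scale ⟨2199023255552, 0, 0, 0⟩ 0,
  .scale ⟨2199023255552, 0, 0, 0⟩ 2,
  .sub 0 18,
  .add 0 2,
  .mul 24 5,
  .mul 18 0,
  .sub 22 0,
  .add 23 1,
  .mul 26 12,
  .mul 4 4,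
  .scale ⟨10774999203840, 0, 0, 0⟩ 15,
  .scale ⟨45768245248, 0, 0, 0⟩ 0,
  .const ⟨183207198720, 0, 0, 0⟩,
  .add 1 0,
  .mul 3 0,
  .add 23 0,
  .mul 5 0,
  .add 33 0,
  .mul 7 0,
  .scale ⟨549755813888, 0, 0, 0⟩ 0,
  .add 36 0,
  .mul 3 0,
  .mul 21 16,
  .scale ⟨2199023255552, 0, 0, 0⟩ 20,
  .add 1 0,
  .add 0 43,
  .mul 17 0,
  .add 0 43,
  .mul 27 27,
  .scale ⟨2199023255552, 0, 0, 0⟩ 0,
  .add 0 46,
  .mul 28 5,
  .sub 0 48,
  .log 5,
  .scale ⟨549755813888, 0, 0, 0⟩ 0,
  .exp 0,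
  .const ⟨3298534883328, 0, 0, 0⟩,
  .inv 0,
  .mul 54 0,
  .const ⟨2199023255552, 0, 0, 0⟩,
  .add 13 0,
  .inv 0,
  .mul 15 0,
  .mul 0 0,
  .sub 60 1,
  .mul 1 6,
  .add 62 0,
  .mul 2 0,
  .mul 4 4,
  .scale ⟨219915747328, 0, 0, 0⟩ 0,
  .mul 24 2,
  .scale ⟨549755813888, 0, 0, 0⟩ 0,
  .mul 26 2,
  .scale ⟨549755813888, 0, 0, 0⟩ 0,
  .add 2 0,
  .mul 52 22,
  .scale ⟨4398046511104, 0, 0, 0⟩ 0,
  .mul 54 48,
  .mul 0 25,
  .scale ⟨4398046511104, 0, 0, 0⟩ 0,
  .add 0 20,
  .inv 0,
  .mul 2 0,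
  .mul 0 0,
  .sub 80 1,
  .mul 1 26,
  .add 82 0,
  .mul 2 0,
  .mul 4 4,
  .scale ⟨219915747328, 0, 0, 0⟩ 0,
  .mul 13 2,
  .scale ⟨549755813888, 0, 0, 0⟩ 0,
  .sub 0 17,
  .mul 16 3,
  .scale ⟨549755813888, 0, 0, 0⟩ 0,
  .add 0 21,
  .add 3 0,
  .mul 88 25,
  .neg 0,
  .exp 0,
  .mul 91 26,
  .mul 1 0,
  .mul 93 9,
  .neg 0,
  .exp 0,
  .mul 96 9,
  .mul 1 0,
  .mul 81 86,
  .add 85 0,
  .inv 0,
  .mul 82 0,
  .mul 84 109,
  .mul 0 1,
  .sub 109 97,
  .mul 84 0,
  .mul 102 102,
  .sub 112 86,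
  .mul 3 0,
  .mul 89 65,
  .inv 71,
  .mul 1 0,
  .add 98 0,
  .mul 74 0,
  .mul 0 0,
  .inv 0,
  .mul 7 0,
  .add 103 97,
  .mul 124 0,
  .inv 0,
  .mul 125 0,
  .mul 0 0,
  .mul 0 13,
  .const ⟨10849087389696, 0, 0, 0⟩,
  .sub 0 1,
  .pos 0,
  .const ⟨13, 0, 0, 0⟩,
  .const ⟨2295, 0, 0, 0⟩,
  .mul 4 1,
  .sub 1 0,
  .const ⟨302996, 0, 0, 0⟩,
  .mul 7 1,
  .sub 1 0,
  .const ⟨27269633, 0, 0, 0⟩,
  .mul 10 1,
  .sub 1 0,
  .const ⟨1527099484, 0, 0, 0⟩,
  .mul 13 1,
  .sub 1 0,
  .const ⟨45812984490, 0, 0, 0⟩,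
  .mul 16 1,
  .sub 1 0,
  .mul 18 0,
  .sub 139 0,
  .mul 20 0,
  .sub 149 0,
  .add 54 150,
  .mul 55 55,
  .add 0 152,
  .mul 57 3,
  .scale ⟨2199023255552, 0, 0, 0⟩ 0,
  .add 2 0,
  .scale ⟨4398046511104, 0, 0, 0⟩ 58,
  .sub 1 0,
  .inv 7,
  .mul 1 0,
  .add 0 9,
  .mul 65 52,
  .scale ⟨549755813888, 0, 0, 0⟩ 0,
  .mul 0 2,
  .sub 6 0,
  .pos 7,
  .pos 0,
  .sub 165 69,
  .mul 0 15,
  .scale ⟨2199023255552, 0, 0, 0⟩ 69,
  .add 1 0,
  .inv 4,
  .mul 1 0,
  .scale ⟨549755813888, 0, 0, 0⟩ 0,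
  .add 0 164,
  .inv 0,
  .mul 2 0,
  .mul 66 0,
  .scale ⟨549755813888, 0, 0, 0⟩ 0,
  .sub 177 0,
  .sub 178 2,
  .inv 0,
  .mul 2 0,
  .add 5 181,
  .mul 86 0,
  .mul 76 2,
  .mul 0 9,
  .mul 9 4,
  .pos 7,
  .mul 163 162,
  .add 168 189,
  .mul 166 169,
  .mul 0 172,
  .scale ⟨2199023255552, 0, 0, 0⟩ 0,
  .add 144 0,
  .mul 4 0,
  .inv 0,
  .mul 7 0,
  .mul 197 0,
  .pos 107,
  .mul 68 80,
  .sub 68 0,
  .pos 0,
  .mul 1 67,
  .sub 67 0,
  .mul 3 0,
  .sub 66 0,
  .mul 5 0,
  .sub 65 0,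
  .mul 7 0,
  .sub 64 0,
  .mul 9 0,
  .sub 63 0,
  .mul 11 0,
  .sub 201 0,
  .mul 13 0,
  .sub 211 0,
  .add 111 212,
  .mul 112 112,
  .add 0 214,
  .mul 114 3,
  .scale ⟨2199023255552, 0, 0, 0⟩ 0,
  .add 2 0,
  .scale ⟨4398046511104, 0, 0, 0⟩ 115,
  .sub 1 0,
  .inv 7,
  .mul 1 0,
  .add 0 9,
  .mul 122 27,
  .scale ⟨549755813888, 0, 0, 0⟩ 0,
  .mul 0 2,
  .sub 6 0,
  .pos 7,
  .pos 0,
  .sub 227 126,
  .mul 0 15,
  .scale ⟨2199023255552, 0, 0, 0⟩ 126,
  .add 1 0,
  .inv 4,
  .mul 1 0,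
  .scale ⟨549755813888, 0, 0, 0⟩ 0,
  .add 0 226,
  .inv 0,
  .mul 2 0,
  .mul 41 0,
  .mul 1 239,
  .add 228 239,
  .inv 0,
  .mul 230 0,
  .scale ⟨2199023255552, 0, 0, 0⟩ 0,
  .sub 243 0,
  .sub 244 233,
  .mul 249 4,
  .mul 0 2,
  .add 223 0,
  .scale ⟨224412041216, 0, 0, 0⟩ 233,
  .inv 211,
  .mul 1 0,
  .scale ⟨4398046511104, 0, 0, 0⟩ 252,
  .mul 252 231,
  .add 1 0,
  .inv 0,
  .mul 255 0,
  .mul 257 1,
  .mul 0 233,
  .mul 0 7,
  .mul 3 235,
  .mul 0 9,
  .sub 261 0,
  .inv 0,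
  .mul 80 2,
  .sub 264 0,
  .inv 0,
  .scale ⟨2199023255552, 0, 0, 0⟩ 260,
  .add 0 267,
  .add 262 268,
  .mul 270 248,
  .scale ⟨2199023255552, 0, 0, 0⟩ 0,
  .scale ⟨549755813888, 0, 0, 0⟩ 273,
  .add 1 0,
  .mul 276 0,
  .scale ⟨549755813888, 0, 0, 0⟩ 0,
  .mul 264 254,
  .sub 276 165,
  .mul 266 255,
  .scale ⟨2199023255552, 0, 0, 0⟩ 0,
  .sub 2 0,
  .mul 4 4,
  .add 1 0,
  .add 0 282,
  .scale ⟨549755813888, 0, 0, 0⟩ 0,
  .scale ⟨549755813888, 0, 0, 0⟩ 259,
  .sub 270 0,
  .mul 174 9,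
  .mul 0 273,
  .scale ⟨137438953472, 0, 0, 0⟩ 0,
  .add 3 0,
  .mul 6 0,
  .const ⟨1, 0, 0, 0⟩,
  .const ⟨12, 0, 0, 0⟩,
  .mul 165 1,
  .sub 1 0,
  .const ⟨2296, 0, 0, 0⟩,
  .mul 168 1,
  .sub 1 0,
  .const ⟨302995, 0, 0, 0⟩,
  .mul 171 1,
  .sub 1 0,
  .const ⟨27269634, 0, 0, 0⟩,
  .mul 174 1,
  .sub 1 0,
  .const ⟨1527099483, 0, 0, 0⟩,
  .mul 177 1,
  .sub 1 0,
  .const ⟨45812984491, 0, 0, 0⟩,
  .mul 180 1,
  .sub 1 0,
  .mul 182 0,
  .sub 303 0,
  .mul 184 0,
  .sub 313 0,
  .mul 186 308,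
  .mul 0 0,
  .scale ⟨369367187456, 0, 0, 0⟩ 0,
  .add 3 0,
  .mul 222 0,
  .scale ⟨2199023255552, 0, 0, 0⟩ 0,
  .add 167 0,
  .add 0 153,
  .const ⟨8589934592, 0, 0, 0⟩,
  .add 1 0,
  .log 0,
  .scale ⟨549755813888, 0, 0, 0⟩ 0,
  .exp 0,
  .mul 231 151,
  .add 1 0,
  .mul 0 66,
  .mul 147 64,
  .add 1 0,
  .mul 71 0,
  .add 147 0,
  .mul 0 328,
  .mul 6 74,
  .mul 0 73,
  .add 151 0,
  .mul 0 332,
  .scale ⟨223338299392, 0, 0, 0⟩ 0,
  .add 332 0,
  .mul 2 0,
  .add 342 0,
  .scale ⟨893353197568, 0, 0, 0⟩ 8,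
  .add 344 0,
  .mul 10 0,
  .add 346 0,
  .mul 104 101,
  .mul 0 80,
  .mul 0 2,
  .mul 59 7,
  .add 299 343,
  .mul 2 0,
  .add 2 0,
  .add 302 354,
  .mul 5 0,
  .mul 87 1,
  .mul 0 111,
  .mul 0 113,
  .mul 5 174,
  .mul 1 85,
  .add 1 0,
  .mul 357 114,
  .inv 311,
  .mul 1 0,
  .scale ⟨549755813888, 0, 0, 0⟩ 0,
  .mul 343 0,
  .add 0 5,
  .mul 370 0,
  .mul 370 0,
  .mul 16 41,
  .mul 0 108,
  .mul 16 189,
  .mul 0 107,
  .add 2 0,
  .mul 352 5,
  .mul 117 1,
  .add 1 0,
  .mul 266 0,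
  .mul 0 15,
  .sub 380 0,
  .inv 0,
  .mul 4 0,
  .mul 385 0,
  .mul 272 1,
  .mul 0 21,
  .sub 386 0,
  .mul 338 0,
  .sub 0 4,
  .inv 0,
  .mul 6 0,
  .sub 339 6,
  .inv 0,
  .mul 2 156,
  .scale ⟨549755813888, 0, 0, 0⟩ 0,
  .sub 395 0,
  .sub 396 2,
  .inv 0,
  .mul 2 0,
  .mul 396 6,
  .mul 161 10,
  .mul 0 2,
  .add 2 0,
  .mul 396 20,
  .mul 11 0,
  .mul 168 15,
  .mul 0 7,
  .mul 0 23,
  .add 3 0,
  .scale ⟨223338299392, 0, 0, 0⟩ 0,
  .add 402 0,
  .mul 2 0,
  .add 412 0,
  .mul 10 0,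
  .mul 0 32,
  .mul 0 40,
  .mul 156 393,
  .const ⟨7696581394432, 0, 0, 0⟩,
  .const ⟨10995116277760, 0, 0, 0⟩,
  .inv 0,
  .mul 2 0,
  .mul 181 397,
  .mul 0 1,
  .mul 235 317,
  .mul 402 0,
  .scale ⟨549755813888, 0, 0, 0⟩ 187,
  .sub 426 0,
  .sub 427 189,
  .inv 0,
  .mul 2 0,
  .mul 0 234,
  .mul 319 309,
  .scale ⟨733097230336, 0, 0, 0⟩ 0,
  .sub 433 0,
  .mul 312 0,
  .mul 346 346,
  .mul 424 0,
  .add 2 0,
  .mul 7 199,
  .add 1 439,
  .mul 1 0,
  .sub 3 0,
  .scale ⟨366548615168, 0, 0, 0⟩ 397,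
  .sub 443 0,
  .mul 418 0,
  .add 3 0,
  .mul 22 0,
  .mul 22 22,
  .add 448 0,
  .inv 0,
  .mul 3 0,
  .sub 451 60,
  .mul 0 1,
  .sub 453 14,
  .pos 0,
  .pos 3,
  .pos 2,
  .mul 39 200,
  .mul 0 87,
  .inv 432,
  .mul 1 0,
  .mul 454 5,
  .mul 461 0,
  .scale ⟨549755813888, 0, 0, 0⟩ 0,
  .sub 461 0,
  .mul 3 0,
  .neg 0,
  .mul 461 468,
  .mul 0 225,
  .mul 0 451,
  .mul 467 0,
  .add 4 0,
  .mul 5 1,
  .mul 472 0,
  .add 2 0,
  .mul 460 430,
  .scale ⟨412316860416, 0, 0, 0⟩ 430,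
  .sub 466 0,
  .mul 2 0,
  .mul 476 0,
  .neg 0,
  .add 6 0,
  .mul 7 1,
  .mul 482 0,
  .add 2 0,
  .mul 479 99,
  .mul 0 26,
  .mul 484 0,
  .add 3 0,
  .mul 4 1,
  .mul 489 0,
  .add 2 0,
  .mul 489 66,
  .sub 1 0,
  .mul 493 68,
  .add 492 0,
  .inv 0,
  .mul 3 0,
  .mul 492 486,
  .mul 0 113,
  .mul 0 104,
  .mul 498 0,
  .add 4 0,
  .mul 5 1,
  .mul 503 0,
  .add 2 0,
  .mul 505 0,
  .add 504 0,
  .mul 89 244,
  .mul 508 89,
  .mul 49 0,
  .add 2 0,
  .mul 509 0,
  .add 94 52,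
  .mul 511 0,
  .mul 2 7,
  .add 10 0,
  .add 0 2,
  .neg 0,
  .scale ⟨1073741824, 0, 0, 0⟩ 516,
  .sub 1 0,
  .sub 498 518,
  .add 0 463,
  .scale ⟨2199023255552, 0, 0, 0⟩ 99,
  .sub 1 0,
  .mul 282 0,
  .mul 4 2,
  .add 0 524,
  .inv 0,
  .mul 3 0,
  .mul 270 152,
  .scale ⟨549755813888, 0, 0, 0⟩ 277,
  .add 512 0,
  .mul 2 0,
  .scale ⟨2199023255552, 0, 0, 0⟩ 0,
  .add 162 0,
  .scale ⟨2199023255552, 0, 0, 0⟩ 0,
  .mul 0 152,
  .mul 526 152,
  .sub 512 0,
  .inv 0,
  .mul 3 0,
  .sub 12 0,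
  .mul 287 287,
  .const ⟨14293651161088, 0, 0, 0⟩,
  .mul 0 122,
  .mul 2 0,
  .mul 545 545,
  .scale ⟨27487790694400, 0, 0, 0⟩ 0,
  .add 2 0,
  .mul 124 53,
  .sub 508 550,
  .sub 0 510,
  .mul 550 547,
  .mul 0 552,
  .mul 528 177,
  .mul 0 298,
  .add 192 0,
  .add 19 499,
  .mul 556 0,
  .mul 10 9,
  .mul 176 1,
  .mul 7 4,
  .mul 1 0,
  .sub 3 0,
  .scale ⟨549755813888, 0, 0, 0⟩ 26,
  .add 563 0,
  .mul 182 0,
  .mul 567 542,
  .mul 0 318,
  .mul 543 515,
  .inv 0,
  .mul 2 0,
  .mul 5 0,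
  .sub 21 0,
  .mul 321 10,
  .sub 573 322,
  .mul 562 2,
  .mul 1 0,
  .mul 29 0,
  .add 4 0,
  .pos 316,
  .pos 313,
  .scale ⟨2199023255552, 0, 0, 0⟩ 199,
  .sub 527 0,
  .pos 0,
  .pos 191,
  .sub 572 342,
  .pos 0,
  .scale ⟨687194767360, 0, 0, 0⟩ 581,
  .sub 0 243,
  .pos 0,
  .scale ⟨377957122048, 0, 0, 0⟩ 583,
  .sub 0 249,
  .pos 0,
  .pos 48,
  .pos 188,
  .sub 3 176,
  .pos 0,
  .pos 46,
  .pos 68,
  .pos 8,
  .pos 14]

def chk2 {α : Type} (cst : Z → α) (add sub mul : α → α → α) (scale : Z → α → α)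
    (neg inv exp log : α → α) (ok : α → Bool) (isPos : Nat → α → Bool) (isLt : α → Nat → Bool) :
    List α → Bool
  | [x0, x1, x2, x3] =>
  let v0 := cst ⟨1099511627776, 0, 0, 0⟩; ok v0 && (
  let v1 := mul x1 x2; ok v1 && (
  let v2 := mul v1 x0; ok v2 && (
  let v3 := mul x2 v2; ok v3 && (
  let v4 := mul x2 x2; ok v4 && (
  let v5 := mul x1 v4; ok v5 && (
  let v6 := mul v2 v2; ok v6 && (
  let v7 := mul x1 v5; ok v7 && (
  let v8 := cst ⟨549755813888, 0, 0, 0⟩; ok v8 && (
  let v9 := mul x1 v3; ok v9 && (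
  let v10 := mul v9 x3; ok v10 && (
  let v11 := scale ⟨549755813888, 0, 0, 0⟩ v10; ok v11 && (
  let v12 := mul v3 v3; ok v12 && (
  let v13 := mul v11 v11; ok v13 && (
  let v14 := sub v0 v13; ok v14 && (
  let v15 := inv v14; ok v15 && (
  let v16 := mul v11 v15; ok v16 && (
  let v17 := scale ⟨2199023255552, 0, 0, 0⟩ v16; ok v17 && (
  let v18 := scale ⟨2199023255552, 0, 0, 0⟩ v15; ok v18 && (
  let v19 := sub v18 v0; ok v19 && (
  let v20 := add v19 v17; ok v20 && (
  let v21 := mul x3 v15; ok v21 && (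
  let v22 := mul v3 v21; ok v22 && (
  let v23 := sub v0 v22; ok v23 && (
  let v24 := add v0 v22; ok v24 && (
  let v25 := mul x1 v12; ok v25 && (
  let v26 := mul v21 v21; ok v26 && (
  let v27 := scale ⟨10774999203840, 0, 0, 0⟩ v11; ok v27 && (
  let v28 := scale ⟨45768245248, 0, 0, 0⟩ v27; ok v28 && (
  let v29 := cst ⟨183207198720, 0, 0, 0⟩; ok v29 && (
  let v30 := add v28 v29; ok v30 && (
  let v31 := mul v27 v30; ok v31 && (
  let v32 := add v8 v31; ok v32 && (
  let v33 := mul v27 v32; ok v33 && (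
  let v34 := add v0 v33; ok v34 && (
  let v35 := mul v27 v34; ok v35 && (
  let v36 := scale ⟨549755813888, 0, 0, 0⟩ v35; ok v36 && (
  let v37 := add v0 v36; ok v37 && (
  let v38 := mul v34 v37; ok v38 && (
  let v39 := mul v17 v22; ok v39 && (
  let v40 := scale ⟨2199023255552, 0, 0, 0⟩ v19; ok v40 && (
  let v41 := add v39 v40; ok v41 && (
  let v42 := add v41 x1; ok v42 && (
  let v43 := mul v25 v42; ok v43 && (
  let v44 := add v43 v0; ok v44 && (
  let v45 := mul v17 v17; ok v45 && (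
  let v46 := scale ⟨2199023255552, 0, 0, 0⟩ v45; ok v46 && (
  let v47 := add v46 v0; ok v47 && (
  let v48 := mul v19 v42; ok v48 && (
  let v49 := sub v48 v0; ok v49 && (
  let v50 := log v44; ok v50 && (
  let v51 := scale ⟨549755813888, 0, 0, 0⟩ v50; ok v51 && (
  let v52 := exp v51; ok v52 && (
  let v53 := cst ⟨3298534883328, 0, 0, 0⟩; ok v53 && (
  let v54 := inv v53; ok v54 && (
  let v55 := mul v0 v54; ok v55 && (
  let v56 := cst ⟨2199023255552, 0, 0, 0⟩; ok v56 && (
  let v57 := add v43 v56; ok v57 && (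
  let v58 := inv v57; ok v58 && (
  let v59 := mul v43 v58; ok v59 && (
  let v60 := mul v59 v59; ok v60 && (
  let v61 := sub v0 v59; ok v61 && (
  let v62 := mul v60 v55; ok v62 && (
  let v63 := add v0 v62; ok v63 && (
  let v64 := mul v61 v63; ok v64 && (
  let v65 := mul v60 v60; ok v65 && (
  let v66 := scale ⟨219915747328, 0, 0, 0⟩ v65; ok v66 && (
  let v67 := mul v42 v64; ok v67 && (
  let v68 := scale ⟨549755813888, 0, 0, 0⟩ v67; ok v68 && (
  let v69 := mul v42 v66; ok v69 && (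
  let v70 := scale ⟨549755813888, 0, 0, 0⟩ v69; ok v70 && (
  let v71 := add v68 v70; ok v71 && (
  let v72 := mul v19 v49; ok v72 && (
  let v73 := scale ⟨4398046511104, 0, 0, 0⟩ v72; ok v73 && (
  let v74 := mul v19 v25; ok v74 && (
  let v75 := mul v74 v49; ok v75 && (
  let v76 := scale ⟨4398046511104, 0, 0, 0⟩ v75; ok v76 && (
  let v77 := add v76 v56; ok v77 && (
  let v78 := inv v77; ok v78 && (
  let v79 := mul v76 v78; ok v79 && (
  let v80 := mul v79 v79; ok v80 && (
  let v81 := sub v0 v79; ok v81 && (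
  let v82 := mul v80 v55; ok v82 && (
  let v83 := add v0 v82; ok v83 && (
  let v84 := mul v81 v83; ok v84 && (
  let v85 := mul v80 v80; ok v85 && (
  let v86 := scale ⟨219915747328, 0, 0, 0⟩ v85; ok v86 && (
  let v87 := mul v73 v84; ok v87 && (
  let v88 := scale ⟨549755813888, 0, 0, 0⟩ v87; ok v88 && (
  let v89 := sub v88 v71; ok v89 && (
  let v90 := mul v73 v86; ok v90 && (
  let v91 := scale ⟨549755813888, 0, 0, 0⟩ v90; ok v91 && (
  let v92 := add v91 v70; ok v92 && (
  let v93 := add v89 v92; ok v93 && (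
  let v94 := mul v5 v68; ok v94 && (
  let v95 := neg v94; ok v95 && (
  let v96 := exp v95; ok v96 && (
  let v97 := mul v5 v70; ok v97 && (
  let v98 := mul v96 v97; ok v98 && (
  let v99 := mul v5 v89; ok v99 && (
  let v100 := neg v99; ok v100 && (
  let v101 := exp v100; ok v101 && (
  let v102 := mul v5 v92; ok v102 && (
  let v103 := mul v101 v102; ok v103 && (
  let v104 := mul v22 v17; ok v104 && (
  let v105 := add v19 v104; ok v105 && (
  let v106 := inv v105; ok v106 && (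
  let v107 := mul v24 v106; ok v107 && (
  let v108 := mul v23 x1; ok v108 && (
  let v109 := mul v108 v107; ok v109 && (
  let v110 := sub v0 v12; ok v110 && (
  let v111 := mul v26 v110; ok v111 && (
  let v112 := mul v9 v9; ok v112 && (
  let v113 := sub v0 v26; ok v113 && (
  let v114 := mul v110 v113; ok v114 && (
  let v115 := mul v25 v49; ok v115 && (
  let v116 := inv v44; ok v116 && (
  let v117 := mul v115 v116; ok v117 && (
  let v118 := add v19 v117; ok v118 && (
  let v119 := mul v44 v118; ok v119 && (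
  let v120 := mul v119 v119; ok v120 && (
  let v121 := inv v120; ok v121 && (
  let v122 := mul v114 v121; ok v122 && (
  let v123 := add v19 v25; ok v123 && (
  let v124 := mul x0 v123; ok v124 && (
  let v125 := inv v124; ok v125 && (
  let v126 := mul v0 v125; ok v126 && (
  let v127 := mul v126 v126; ok v127 && (
  let v128 := mul v127 v114; ok v128 && (
  let v129 := cst ⟨10849087389696, 0, 0, 0⟩; ok v129 && (
  let v130 := sub v129 v128; ok v130 && (
  isPos 4 v130 && (
  let v131 := cst ⟨13, 0, 0, 0⟩; ok v131 && (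
  let v132 := cst ⟨2295, 0, 0, 0⟩; ok v132 && (
  let v133 := mul v128 v131; ok v133 && (
  let v134 := sub v132 v133; ok v134 && (
  let v135 := cst ⟨302996, 0, 0, 0⟩; ok v135 && (
  let v136 := mul v128 v134; ok v136 && (
  let v137 := sub v135 v136; ok v137 && (
  let v138 := cst ⟨27269633, 0, 0, 0⟩; ok v138 && (
  let v139 := mul v128 v137; ok v139 && (
  let v140 := sub v138 v139; ok v140 && (
  let v141 := cst ⟨1527099484, 0, 0, 0⟩; ok v141 && (
  let v142 := mul v128 v140; ok v142 && (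
  let v143 := sub v141 v142; ok v143 && (
  let v144 := cst ⟨45812984490, 0, 0, 0⟩; ok v144 && (
  let v145 := mul v128 v143; ok v145 && (
  let v146 := sub v144 v145; ok v146 && (
  let v147 := mul v128 v146; ok v147 && (
  let v148 := sub v8 v147; ok v148 && (
  let v149 := mul v128 v148; ok v149 && (
  let v150 := sub v0 v149; ok v150 && (
  let v151 := add v96 v0; ok v151 && (
  let v152 := mul v96 v96; ok v152 && (
  let v153 := add v152 v0; ok v153 && (
  let v154 := mul v96 v150; ok v154 && (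
  let v155 := scale ⟨2199023255552, 0, 0, 0⟩ v154; ok v155 && (
  let v156 := add v153 v155; ok v156 && (
  let v157 := scale ⟨4398046511104, 0, 0, 0⟩ v98; ok v157 && (
  let v158 := sub v156 v157; ok v158 && (
  let v159 := inv v151; ok v159 && (
  let v160 := mul v158 v159; ok v160 && (
  let v161 := add v160 v151; ok v161 && (
  let v162 := mul v96 v109; ok v162 && (
  let v163 := scale ⟨549755813888, 0, 0, 0⟩ v162; ok v163 && (
  let v164 := mul v163 v161; ok v164 && (
  let v165 := sub v158 v164; ok v165 && (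
  isPos 4 v158 && (
  isPos 4 v165 && (
  let v166 := sub v0 v96; ok v166 && (
  let v167 := mul v166 v151; ok v167 && (
  let v168 := scale ⟨2199023255552, 0, 0, 0⟩ v98; ok v168 && (
  let v169 := add v167 v168; ok v169 && (
  let v170 := inv v165; ok v170 && (
  let v171 := mul v169 v170; ok v171 && (
  let v172 := scale ⟨549755813888, 0, 0, 0⟩ v171; ok v172 && (
  let v173 := add v172 v8; ok v173 && (
  let v174 := inv v173; ok v174 && (
  let v175 := mul v172 v174; ok v175 && (
  let v176 := mul v109 v175; ok v176 && (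
  let v177 := scale ⟨549755813888, 0, 0, 0⟩ v176; ok v177 && (
  let v178 := sub v0 v177; ok v178 && (
  let v179 := sub v0 v176; ok v179 && (
  let v180 := inv v179; ok v180 && (
  let v181 := mul v178 v180; ok v181 && (
  let v182 := add v176 v0; ok v182 && (
  let v183 := mul v96 v182; ok v183 && (
  let v184 := mul v107 v181; ok v184 && (
  let v185 := mul v184 v175; ok v185 && (
  let v186 := mul v176 v181; ok v186 && (
  isPos 4 v179 && (
  let v187 := mul v23 v24; ok v187 && (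
  let v188 := add v19 x1; ok v188 && (
  let v189 := mul v22 v19; ok v189 && (
  let v190 := mul v189 v17; ok v190 && (
  let v191 := scale ⟨2199023255552, 0, 0, 0⟩ v190; ok v191 && (
  let v192 := add v47 v191; ok v192 && (
  let v193 := mul v188 v192; ok v193 && (
  let v194 := inv v193; ok v194 && (
  let v195 := mul v187 v194; ok v195 && (
  let v196 := mul x1 v195; ok v196 && (
  isPos 4 v89 && (
  let v197 := mul v128 v116; ok v197 && (
  let v198 := sub v129 v197; ok v198 && (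
  isPos 4 v198 && (
  let v199 := mul v197 v131; ok v199 && (
  let v200 := sub v132 v199; ok v200 && (
  let v201 := mul v197 v200; ok v201 && (
  let v202 := sub v135 v201; ok v202 && (
  let v203 := mul v197 v202; ok v203 && (
  let v204 := sub v138 v203; ok v204 && (
  let v205 := mul v197 v204; ok v205 && (
  let v206 := sub v141 v205; ok v206 && (
  let v207 := mul v197 v206; ok v207 && (
  let v208 := sub v144 v207; ok v208 && (
  let v209 := mul v197 v208; ok v209 && (
  let v210 := sub v8 v209; ok v210 && (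
  let v211 := mul v197 v210; ok v211 && (
  let v212 := sub v0 v211; ok v212 && (
  let v213 := add v101 v0; ok v213 && (
  let v214 := mul v101 v101; ok v214 && (
  let v215 := add v214 v0; ok v215 && (
  let v216 := mul v101 v212; ok v216 && (
  let v217 := scale ⟨2199023255552, 0, 0, 0⟩ v216; ok v217 && (
  let v218 := add v215 v217; ok v218 && (
  let v219 := scale ⟨4398046511104, 0, 0, 0⟩ v103; ok v219 && (
  let v220 := sub v218 v219; ok v220 && (
  let v221 := inv v213; ok v221 && (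
  let v222 := mul v220 v221; ok v222 && (
  let v223 := add v222 v213; ok v223 && (
  let v224 := mul v101 v196; ok v224 && (
  let v225 := scale ⟨549755813888, 0, 0, 0⟩ v224; ok v225 && (
  let v226 := mul v225 v223; ok v226 && (
  let v227 := sub v220 v226; ok v227 && (
  isPos 4 v220 && (
  isPos 4 v227 && (
  let v228 := sub v0 v101; ok v228 && (
  let v229 := mul v228 v213; ok v229 && (
  let v230 := scale ⟨2199023255552, 0, 0, 0⟩ v103; ok v230 && (
  let v231 := add v229 v230; ok v231 && (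
  let v232 := inv v227; ok v232 && (
  let v233 := mul v231 v232; ok v233 && (
  let v234 := scale ⟨549755813888, 0, 0, 0⟩ v233; ok v234 && (
  let v235 := add v234 v8; ok v235 && (
  let v236 := inv v235; ok v236 && (
  let v237 := mul v234 v236; ok v237 && (
  let v238 := mul v196 v237; ok v238 && (
  let v239 := mul v237 x0; ok v239 && (
  let v240 := add v11 v0; ok v240 && (
  let v241 := inv v240; ok v241 && (
  let v242 := mul v11 v241; ok v242 && (
  let v243 := scale ⟨2199023255552, 0, 0, 0⟩ v242; ok v243 && (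
  let v244 := sub v0 v243; ok v244 && (
  let v245 := sub v0 v11; ok v245 && (
  let v246 := mul x3 v241; ok v246 && (
  let v247 := mul v246 v244; ok v247 && (
  let v248 := add v24 v247; ok v248 && (
  let v249 := scale ⟨224412041216, 0, 0, 0⟩ v15; ok v249 && (
  let v250 := inv v38; ok v250 && (
  let v251 := mul v249 v250; ok v251 && (
  let v252 := scale ⟨4398046511104, 0, 0, 0⟩ x0; ok v252 && (
  let v253 := mul v0 v21; ok v253 && (
  let v254 := add v252 v253; ok v254 && (
  let v255 := inv v254; ok v255 && (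
  let v256 := mul v0 v255; ok v256 && (
  let v257 := mul x0 v255; ok v257 && (
  let v258 := mul v257 v24; ok v258 && (
  let v259 := mul v258 v251; ok v259 && (
  let v260 := mul v256 v24; ok v260 && (
  let v261 := mul v260 v251; ok v261 && (
  let v262 := sub v0 v261; ok v262 && (
  let v263 := inv v262; ok v263 && (
  let v264 := mul v183 v261; ok v264 && (
  let v265 := sub v0 v264; ok v265 && (
  let v266 := inv v265; ok v266 && (
  let v267 := scale ⟨2199023255552, 0, 0, 0⟩ v6; ok v267 && (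
  let v268 := add v267 v0; ok v268 && (
  let v269 := add v6 v0; ok v269 && (
  let v270 := mul x0 v21; ok v270 && (
  let v271 := scale ⟨2199023255552, 0, 0, 0⟩ v270; ok v271 && (
  let v272 := scale ⟨549755813888, 0, 0, 0⟩ x1; ok v272 && (
  let v273 := add v271 v272; ok v273 && (
  let v274 := mul x2 v273; ok v274 && (
  let v275 := scale ⟨549755813888, 0, 0, 0⟩ v274; ok v275 && (
  let v276 := mul v11 v21; ok v276 && (
  let v277 := sub v0 v111; ok v277 && (
  let v278 := mul v11 v22; ok v278 && (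
  let v279 := scale ⟨2199023255552, 0, 0, 0⟩ v278; ok v279 && (
  let v280 := sub v277 v279; ok v280 && (
  let v281 := mul v276 v276; ok v281 && (
  let v282 := add v280 v281; ok v282 && (
  let v283 := add v282 v0; ok v283 && (
  let v284 := scale ⟨549755813888, 0, 0, 0⟩ v283; ok v284 && (
  let v285 := scale ⟨549755813888, 0, 0, 0⟩ v25; ok v285 && (
  let v286 := sub v15 v285; ok v286 && (
  let v287 := mul v112 v277; ok v287 && (
  let v288 := mul v287 v14; ok v288 && (
  let v289 := scale ⟨137438953472, 0, 0, 0⟩ v288; ok v289 && (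
  let v290 := add v286 v289; ok v290 && (
  let v291 := mul v284 v290; ok v291 && (
  let v292 := cst ⟨1, 0, 0, 0⟩; ok v292 && (
  let v293 := cst ⟨12, 0, 0, 0⟩; ok v293 && (
  let v294 := mul v128 v292; ok v294 && (
  let v295 := sub v293 v294; ok v295 && (
  let v296 := cst ⟨2296, 0, 0, 0⟩; ok v296 && (
  let v297 := mul v128 v295; ok v297 && (
  let v298 := sub v296 v297; ok v298 && (
  let v299 := cst ⟨302995, 0, 0, 0⟩; ok v299 && (
  let v300 := mul v128 v298; ok v300 && (
  let v301 := sub v299 v300; ok v301 && (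
  let v302 := cst ⟨27269634, 0, 0, 0⟩; ok v302 && (
  let v303 := mul v128 v301; ok v303 && (
  let v304 := sub v302 v303; ok v304 && (
  let v305 := cst ⟨1527099483, 0, 0, 0⟩; ok v305 && (
  let v306 := mul v128 v304; ok v306 && (
  let v307 := sub v305 v306; ok v307 && (
  let v308 := cst ⟨45812984491, 0, 0, 0⟩; ok v308 && (
  let v309 := mul v128 v307; ok v309 && (
  let v310 := sub v308 v309; ok v310 && (
  let v311 := mul v128 v310; ok v311 && (
  let v312 := sub v8 v311; ok v312 && (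
  let v313 := mul v128 v312; ok v313 && (
  let v314 := sub v0 v313; ok v314 && (
  let v315 := mul v128 v6; ok v315 && (
  let v316 := mul v315 v315; ok v316 && (
  let v317 := scale ⟨369367187456, 0, 0, 0⟩ v316; ok v317 && (
  let v318 := add v314 v317; ok v318 && (
  let v319 := mul v96 v318; ok v319 && (
  let v320 := scale ⟨2199023255552, 0, 0, 0⟩ v319; ok v320 && (
  let v321 := add v153 v320; ok v321 && (
  let v322 := add v321 v168; ok v322 && (
  let v323 := cst ⟨8589934592, 0, 0, 0⟩; ok v323 && (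
  let v324 := add v322 v323; ok v324 && (
  let v325 := log v324; ok v325 && (
  let v326 := scale ⟨549755813888, 0, 0, 0⟩ v325; ok v326 && (
  let v327 := exp v326; ok v327 && (
  let v328 := mul v96 v176; ok v328 && (
  let v329 := add v327 v328; ok v329 && (
  let v330 := mul v329 v263; ok v330 && (
  let v331 := mul v183 v266; ok v331 && (
  let v332 := add v330 v331; ok v332 && (
  let v333 := mul v261 v332; ok v333 && (
  let v334 := add v186 v333; ok v334 && (
  let v335 := mul v334 v6; ok v335 && (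
  let v336 := mul v329 v261; ok v336 && (
  let v337 := mul v336 v263; ok v337 && (
  let v338 := add v186 v337; ok v338 && (
  let v339 := mul v338 v6; ok v339 && (
  let v340 := scale ⟨223338299392, 0, 0, 0⟩ v339; ok v340 && (
  let v341 := add v8 v340; ok v341 && (
  let v342 := mul v339 v341; ok v342 && (
  let v343 := add v0 v342; ok v343 && (
  let v344 := scale ⟨893353197568, 0, 0, 0⟩ v335; ok v344 && (
  let v345 := add v0 v344; ok v345 && (
  let v346 := mul v335 v345; ok v346 && (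
  let v347 := add v0 v346; ok v347 && (
  let v348 := mul v243 v246; ok v348 && (
  let v349 := mul v348 v268; ok v349 && (
  let v350 := mul v349 v347; ok v350 && (
  let v351 := mul v291 v343; ok v351 && (
  let v352 := add v52 v8; ok v352 && (
  let v353 := mul v350 v352; ok v353 && (
  let v354 := add v351 v353; ok v354 && (
  let v355 := add v52 v0; ok v355 && (
  let v356 := mul v350 v355; ok v356 && (
  let v357 := mul v269 v355; ok v357 && (
  let v358 := mul v357 v246; ok v358 && (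
  let v359 := mul v358 v245; ok v359 && (
  let v360 := mul v354 v185; ok v360 && (
  let v361 := mul v359 v275; ok v361 && (
  let v362 := add v360 v361; ok v362 && (
  let v363 := mul v5 v248; ok v363 && (
  let v364 := inv v52; ok v364 && (
  let v365 := mul v363 v364; ok v365 && (
  let v366 := scale ⟨549755813888, 0, 0, 0⟩ v365; ok v366 && (
  let v367 := mul v23 v366; ok v367 && (
  let v368 := add v367 v362; ok v368 && (
  let v369 := mul x1 v368; ok v369 && (
  let v370 := mul x0 v369; ok v370 && (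
  let v371 := mul v354 v329; ok v371 && (
  let v372 := mul v371 v263; ok v372 && (
  let v373 := mul v356 v183; ok v373 && (
  let v374 := mul v373 v266; ok v374 && (
  let v375 := add v372 v374; ok v375 && (
  let v376 := mul v23 v370; ok v376 && (
  let v377 := mul v259 v375; ok v377 && (
  let v378 := add v376 v377; ok v378 && (
  let v379 := mul v112 v378; ok v379 && (
  let v380 := mul v379 v364; ok v380 && (
  let v381 := sub v0 v380; ok v381 && (
  let v382 := inv v381; ok v382 && (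
  let v383 := mul v378 v382; ok v383 && (
  let v384 := mul x1 v383; ok v384 && (
  let v385 := mul v112 v383; ok v385 && (
  let v386 := mul v385 v364; ok v386 && (
  let v387 := sub v0 v386; ok v387 && (
  let v388 := mul v49 v387; ok v388 && (
  let v389 := sub v388 v384; ok v389 && (
  let v390 := inv v389; ok v390 && (
  let v391 := mul v384 v390; ok v391 && (
  let v392 := sub v52 v385; ok v392 && (
  let v393 := inv v392; ok v393 && (
  let v394 := mul v391 v237; ok v394 && (
  let v395 := scale ⟨549755813888, 0, 0, 0⟩ v394; ok v395 && (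
  let v396 := sub v0 v395; ok v396 && (
  let v397 := sub v0 v394; ok v397 && (
  let v398 := inv v397; ok v398 && (
  let v399 := mul v396 v398; ok v399 && (
  let v400 := mul v3 v393; ok v400 && (
  let v401 := mul v239 v390; ok v401 && (
  let v402 := mul v401 v399; ok v402 && (
  let v403 := add v400 v402; ok v403 && (
  let v404 := mul v7 v383; ok v404 && (
  let v405 := mul v393 v404; ok v405 && (
  let v406 := mul v237 v390; ok v406 && (
  let v407 := mul v406 v399; ok v407 && (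
  let v408 := mul v407 v384; ok v408 && (
  let v409 := add v405 v408; ok v409 && (
  let v410 := scale ⟨223338299392, 0, 0, 0⟩ v409; ok v410 && (
  let v411 := add v8 v410; ok v411 && (
  let v412 := mul v409 v411; ok v412 && (
  let v413 := add v0 v412; ok v413 && (
  let v414 := mul v403 v413; ok v414 && (
  let v415 := mul v414 v382; ok v415 && (
  let v416 := mul v415 v375; ok v416 && (
  let v417 := mul v260 v23; ok v417 && (
  let v418 := cst ⟨7696581394432, 0, 0, 0⟩; ok v418 && (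
  let v419 := cst ⟨10995116277760, 0, 0, 0⟩; ok v419 && (
  let v420 := inv v419; ok v420 && (
  let v421 := mul v418 v420; ok v421 && (
  let v422 := mul v240 v24; ok v422 && (
  let v423 := mul v422 v421; ok v423 && (
  let v424 := mul v188 v106; ok v424 && (
  let v425 := mul v22 v424; ok v425 && (
  let v426 := scale ⟨549755813888, 0, 0, 0⟩ v238; ok v426 && (
  let v427 := sub v0 v426; ok v427 && (
  let v428 := sub v0 v238; ok v428 && (
  let v429 := inv v428; ok v429 && (
  let v430 := mul v427 v429; ok v430 && (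
  let v431 := mul v430 v196; ok v431 && (
  let v432 := mul v112 v122; ok v432 && (
  let v433 := scale ⟨733097230336, 0, 0, 0⟩ v432; ok v433 && (
  let v434 := sub v0 v433; ok v434 && (
  let v435 := mul v122 v434; ok v435 && (
  let v436 := mul v89 v89; ok v436 && (
  let v437 := mul v12 v436; ok v437 && (
  let v438 := add v435 v437; ok v438 && (
  let v439 := mul v431 v239; ok v439 && (
  let v440 := add v438 v0; ok v440 && (
  let v441 := mul v439 v440; ok v441 && (
  let v442 := sub v438 v441; ok v442 && (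
  let v443 := scale ⟨366548615168, 0, 0, 0⟩ v45; ok v443 && (
  let v444 := sub v0 v443; ok v444 && (
  let v445 := mul v26 v444; ok v445 && (
  let v446 := add v442 v445; ok v446 && (
  let v447 := mul v424 v446; ok v447 && (
  let v448 := mul v425 v425; ok v448 && (
  let v449 := add v0 v448; ok v449 && (
  let v450 := inv v449; ok v450 && (
  let v451 := mul v447 v450; ok v451 && (
  let v452 := sub v0 v391; ok v452 && (
  let v453 := mul v452 v451; ok v453 && (
  let v454 := sub v0 v439; ok v454 && (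
  isPos 4 v454 && (
  isPos 4 v451 && (
  isPos 4 v452 && (
  let v455 := mul v415 v254; ok v455 && (
  let v456 := mul v455 v368; ok v456 && (
  let v457 := inv v24; ok v457 && (
  let v458 := mul v456 v457; ok v458 && (
  let v459 := mul v4 v453; ok v459 && (
  let v460 := mul x1 v459; ok v460 && (
  let v461 := scale ⟨549755813888, 0, 0, 0⟩ v460; ok v461 && (
  let v462 := sub v0 v461; ok v462 && (
  let v463 := mul v459 v462; ok v463 && (
  let v464 := neg v463; ok v464 && (
  let v465 := mul v3 x3; ok v465 && (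
  let v466 := mul v465 v240; ok v466 && (
  let v467 := mul v466 v15; ok v467 && (
  let v468 := mul v0 v467; ok v468 && (
  let v469 := add v464 v468; ok v469 && (
  let v470 := mul v464 v468; ok v470 && (
  let v471 := mul x1 v470; ok v471 && (
  let v472 := add v469 v471; ok v472 && (
  let v473 := mul v12 v42; ok v473 && (
  let v474 := scale ⟨412316860416, 0, 0, 0⟩ v43; ok v474 && (
  let v475 := sub v8 v474; ok v475 && (
  let v476 := mul v473 v475; ok v476 && (
  let v477 := mul v0 v476; ok v477 && (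
  let v478 := neg v477; ok v478 && (
  let v479 := add v472 v478; ok v479 && (
  let v480 := mul v472 v478; ok v480 && (
  let v481 := mul x1 v480; ok v481 && (
  let v482 := add v479 v481; ok v482 && (
  let v483 := mul v3 v383; ok v483 && (
  let v484 := mul v483 v457; ok v484 && (
  let v485 := mul v0 v484; ok v485 && (
  let v486 := add v482 v485; ok v486 && (
  let v487 := mul v482 v485; ok v487 && (
  let v488 := mul x1 v487; ok v488 && (
  let v489 := add v486 v488; ok v489 && (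
  let v490 := mul v0 v423; ok v490 && (
  let v491 := sub v489 v490; ok v491 && (
  let v492 := mul x1 v423; ok v492 && (
  let v493 := add v0 v492; ok v493 && (
  let v494 := inv v493; ok v494 && (
  let v495 := mul v491 v494; ok v495 && (
  let v496 := mul v3 v9; ok v496 && (
  let v497 := mul v496 v383; ok v497 && (
  let v498 := mul v497 v393; ok v498 && (
  let v499 := mul v0 v498; ok v499 && (
  let v500 := add v495 v499; ok v500 && (
  let v501 := mul v495 v499; ok v501 && (
  let v502 := mul x1 v501; ok v502 && (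
  let v503 := add v500 v502; ok v503 && (
  let v504 := mul x1 v503; ok v504 && (
  let v505 := add v0 v504; ok v505 && (
  let v506 := mul v416 v261; ok v506 && (
  let v507 := mul x1 v417; ok v507 && (
  let v508 := mul v458 v507; ok v508 && (
  let v509 := add v506 v508; ok v509 && (
  let v510 := mul v0 v509; ok v510 && (
  let v511 := add v416 v458; ok v511 && (
  let v512 := mul v0 v511; ok v512 && (
  let v513 := mul v510 v505; ok v513 && (
  let v514 := add v503 v513; ok v514 && (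
  let v515 := add v514 v512; ok v515 && (
  let v516 := neg v515; ok v516 && (
  let v517 := scale ⟨1073741824, 0, 0, 0⟩ v0; ok v517 && (
  let v518 := sub v516 v517; ok v518 && (
  let v519 := sub v20 v0; ok v519 && (
  let v520 := add v519 v56; ok v520 && (
  let v521 := scale ⟨2199023255552, 0, 0, 0⟩ v421; ok v521 && (
  let v522 := sub v520 v521; ok v522 && (
  let v523 := mul v240 v522; ok v523 && (
  let v524 := mul v519 v521; ok v524 && (
  let v525 := add v524 v0; ok v525 && (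
  let v526 := inv v525; ok v526 && (
  let v527 := mul v523 v526; ok v527 && (
  let v528 := mul v257 v375; ok v528 && (
  let v529 := scale ⟨549755813888, 0, 0, 0⟩ v251; ok v529 && (
  let v530 := add v17 v529; ok v530 && (
  let v531 := mul v528 v530; ok v531 && (
  let v532 := scale ⟨2199023255552, 0, 0, 0⟩ v531; ok v532 && (
  let v533 := add v370 v532; ok v533 && (
  let v534 := scale ⟨2199023255552, 0, 0, 0⟩ v533; ok v534 && (
  let v535 := mul v534 v382; ok v535 && (
  let v536 := mul v9 v383; ok v536 && (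
  let v537 := sub v24 v536; ok v537 && (
  let v538 := inv v537; ok v538 && (
  let v539 := mul v535 v538; ok v539 && (
  let v540 := sub v527 v539; ok v540 && (
  let v541 := mul v253 v253; ok v541 && (
  let v542 := cst ⟨14293651161088, 0, 0, 0⟩; ok v542 && (
  let v543 := mul v542 v420; ok v543 && (
  let v544 := mul v541 v543; ok v544 && (
  let v545 := mul x0 x0; ok v545 && (
  let v546 := scale ⟨27487790694400, 0, 0, 0⟩ v545; ok v546 && (
  let v547 := add v544 v546; ok v547 && (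
  let v548 := mul v423 v494; ok v548 && (
  let v549 := sub v40 x1; ok v549 && (
  let v550 := sub v549 v39; ok v550 && (
  let v551 := mul v0 v3; ok v551 && (
  let v552 := mul v551 x0; ok v552 && (
  let v553 := mul v24 v375; ok v553 && (
  let v554 := mul v553 v255; ok v554 && (
  let v555 := add v362 v554; ok v555 && (
  let v556 := add v536 v56; ok v556 && (
  let v557 := mul v0 v556; ok v557 && (
  let v558 := mul v547 v548; ok v558 && (
  let v559 := mul v382 v557; ok v559 && (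
  let v560 := mul v552 v555; ok v560 && (
  let v561 := mul v559 v560; ok v561 && (
  let v562 := sub v558 v561; ok v562 && (
  let v563 := scale ⟨549755813888, 0, 0, 0⟩ v536; ok v563 && (
  let v564 := add v0 v563; ok v564 && (
  let v565 := mul v382 v564; ok v565 && (
  let v566 := mul x1 v23; ok v566 && (
  let v567 := mul v566 v248; ok v567 && (
  let v568 := mul v24 v52; ok v568 && (
  let v569 := inv v568; ok v569 && (
  let v570 := mul v567 v569; ok v570 && (
  let v571 := mul v565 v570; ok v571 && (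
  let v572 := sub v550 v571; ok v572 && (
  let v573 := mul v251 v562; ok v573 && (
  let v574 := sub v0 v251; ok v574 && (
  let v575 := mul v12 v572; ok v575 && (
  let v576 := mul v574 v575; ok v576 && (
  let v577 := mul v547 v576; ok v577 && (
  let v578 := add v573 v577; ok v578 && (
  isPos 4 v262 && (
  isPos 4 v265 && (
  let v579 := scale ⟨2199023255552, 0, 0, 0⟩ v379; ok v579 && (
  let v580 := sub v52 v579; ok v580 && (
  isPos 4 v580 && (
  isPos 4 v389 && (
  let v581 := sub v8 v238; ok v581 && (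
  isPos 4 v581 && (
  let v582 := scale ⟨687194767360, 0, 0, 0⟩ v0; ok v582 && (
  let v583 := sub v582 v339; ok v583 && (
  isPos 4 v583 && (
  let v584 := scale ⟨377957122048, 0, 0, 0⟩ v0; ok v584 && (
  let v585 := sub v584 v335; ok v585 && (
  isPos 4 v585 && (
  isPos 4 v537 && (
  isPos 4 v397 && (
  let v586 := sub v582 v409; ok v586 && (
  isPos 4 v586 && (
  isPos 4 v540 && (
  isPos 4 v518 && (
  isPos 4 v578 && (
  isPos 4 v572 && (
  true))))))))))))))))))))))))))))))))))))))))))))))))))))))))))))))))))))))))))))))))))))))))))))))))))))))))))))))))))))))))))))))))))))))))))))))))))))))))))))))))))))))))))))))))))))))))))))))))))))))))))))))))))))))))))))))))))))))))))))))))))))))))))))))))))))))))))))))))))))))))))))))))))))))))))))))))))))))))))))))))))))))))))))))))))))))))))))))))))))))))))))))))))))))))))))))))))))))))))))))))))))))))))))))))))))))))))))))))))))))))))))))))))))))))))))))))))))))))))))))))))))))))))))))))))))))))))))))))))))))))))))))))))))))))))))))))))))))))))))))))))))))))))))))))))))))))))))))))))))))))))))))))))))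
  | _ => false

set_option maxRecDepth 1000000 in
theorem chk2_eq (O : Ops) (m : List O.α)
    (h : chk2 O.cst O.add O.sub O.mul O.scale O.neg O.inv O.exp O.log O.ok O.isPos O.isLt m = true) :
    runG O 4 prog2 m = true := by
  match m, h with
  | [x0, x1, x2, x3], h => exact h

def chkB2 : List opsE.α → Bool :=
  chk2 opsE.cst opsE.add opsE.sub opsE.mul opsE.scale opsE.neg opsE.inv opsE.exp opsE.log opsE.ok opsE.isPos opsE.isLt

theorem chkB2_eq (m : List opsE.α) (h : chkB2 m = true) : runG opsE 4 prog2 m = true :=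
  chk2_eq opsE m h

def prog3 : List Op := [
  .const ⟨1099511627776, 0, 0, 0⟩,
  .mul 2 3,
  .mul 0 2,
  .mul 5 0,
  .mul 6 6,
  .mul 6 0,
  .mul 3 3,
  .mul 8 1,
  .const ⟨549755813888, 0, 0, 0⟩,
  .mul 10 5,
  .mul 0 13,
  .scale ⟨549755813888, 0, 0, 0⟩ 0,
  .mul 8 8,
  .mul 1 1,
  .sub 13 0,
  .inv 0,
  .mul 4 0,
  .scale ⟨2199023255552, 0, 0, 0⟩ 0,
  .scale ⟨2199023255552, 0, 0, 0⟩ 2,
  .sub 0 18,
  .add 0 2,
  .mul 24 5,
  .mul 18 0,
  .sub 22 0,
  .add 23 1,
  .mul 26 12,
  .mul 4 4,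
  .scale ⟨10774999203840, 0, 0, 0⟩ 15,
  .scale ⟨45768245248, 0, 0, 0⟩ 0,
  .const ⟨183207198720, 0, 0, 0⟩,
  .add 1 0,
  .mul 3 0,
  .add 23 0,
  .mul 5 0,
  .add 33 0,
  .mul 7 0,
  .scale ⟨549755813888, 0, 0, 0⟩ 0,
  .add 36 0,
  .mul 3 0,
  .mul 21 16,
  .scale ⟨2199023255552, 0, 0, 0⟩ 20,
  .add 1 0,
  .add 0 43,
  .mul 17 0,
  .add 0 43,
  .mul 27 27,
  .scale ⟨2199023255552, 0, 0, 0⟩ 0,
  .add 0 46,
  .mul 28 5,
  .sub 0 48,
  .log 5,
  .scale ⟨549755813888, 0, 0, 0⟩ 0,
  .exp 0,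
  .const ⟨3298534883328, 0, 0, 0⟩,
  .inv 0,
  .mul 54 0,
  .const ⟨2199023255552, 0, 0, 0⟩,
  .add 13 0,
  .inv 0,
  .mul 15 0,
  .mul 0 0,
  .sub 60 1,
  .mul 1 6,
  .add 62 0,
  .mul 2 0,
  .mul 4 4,
  .scale ⟨219915747328, 0, 0, 0⟩ 0,
  .mul 24 2,
  .scale ⟨549755813888, 0, 0, 0⟩ 0,
  .mul 26 2,
  .scale ⟨549755813888, 0, 0, 0⟩ 0,
  .add 2 0,
  .mul 52 22,
  .scale ⟨4398046511104, 0, 0, 0⟩ 0,
  .mul 54 48,
  .mul 0 25,
  .scale ⟨4398046511104, 0, 0, 0⟩ 0,
  .add 0 20,
  .inv 0,
  .mul 2 0,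
  .mul 0 0,
  .sub 80 1,
  .mul 1 26,
  .add 82 0,
  .mul 2 0,
  .mul 4 4,
  .scale ⟨219915747328, 0, 0, 0⟩ 0,
  .mul 13 2,
  .scale ⟨549755813888, 0, 0, 0⟩ 0,
  .sub 0 17,
  .mul 16 3,
  .scale ⟨549755813888, 0, 0, 0⟩ 0,
  .add 0 21,
  .add 3 0,
  .mul 88 25,
  .neg 0,
  .exp 0,
  .mul 91 26,
  .mul 1 0,
  .mul 93 9,
  .neg 0,
  .exp 0,
  .mul 96 9,
  .mul 1 0,
  .mul 81 86,
  .add 85 0,
  .inv 0,
  .mul 82 0,
  .mul 84 109,
  .mul 0 1,
  .sub 109 97,
  .mul 84 0,
  .mul 102 102,
  .sub 112 86,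
  .mul 3 0,
  .mul 89 65,
  .inv 71,
  .mul 1 0,
  .add 98 0,
  .mul 74 0,
  .mul 0 0,
  .inv 0,
  .mul 7 0,
  .add 103 97,
  .mul 124 0,
  .inv 0,
  .mul 125 0,
  .mul 0 0,
  .mul 0 13,
  .mul 19 128,
  .scale ⟨549755813888, 0, 0, 0⟩ 0,
  .sub 130 0,
  .sub 131 2,
  .inv 0,
  .mul 2 0,
  .add 5 134,
  .mul 39 0,
  .mul 29 2,
  .mul 0 137,
  .mul 9 4,
  .pos 7,
  .mul 116 115,
  .add 121 142,
  .mul 119 122,
  .mul 0 125,
  .scale ⟨2199023255552, 0, 0, 0⟩ 0,
  .add 97 0,
  .mul 4 0,
  .inv 0,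
  .mul 7 0,
  .mul 150 0,
  .pos 60,
  .mul 21 33,
  .const ⟨10849087389696, 0, 0, 0⟩,
  .sub 0 1,
  .pos 0,
  .const ⟨13, 0, 0, 0⟩,
  .const ⟨2295, 0, 0, 0⟩,
  .mul 4 1,
  .sub 1 0,
  .const ⟨302996, 0, 0, 0⟩,
  .mul 7 1,
  .sub 1 0,
  .const ⟨27269633, 0, 0, 0⟩,
  .mul 10 1,
  .sub 1 0,
  .const ⟨1527099484, 0, 0, 0⟩,
  .mul 13 1,
  .sub 1 0,
  .const ⟨45812984490, 0, 0, 0⟩,
  .mul 16 1,
  .sub 1 0,
  .mul 18 0,
  .sub 161 0,
  .mul 20 0,
  .sub 171 0,
  .add 71 172,
  .mul 72 72,
  .add 0 174,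
  .mul 74 3,
  .scale ⟨2199023255552, 0, 0, 0⟩ 0,
  .add 2 0,
  .scale ⟨4398046511104, 0, 0, 0⟩ 75,
  .sub 1 0,
  .inv 7,
  .mul 1 0,
  .add 0 9,
  .mul 82 34,
  .scale ⟨549755813888, 0, 0, 0⟩ 0,
  .mul 0 2,
  .sub 6 0,
  .pos 7,
  .pos 0,
  .sub 187 86,
  .mul 0 15,
  .scale ⟨2199023255552, 0, 0, 0⟩ 86,
  .add 1 0,
  .inv 4,
  .mul 1 0,
  .scale ⟨549755813888, 0, 0, 0⟩ 0,
  .add 0 186,
  .inv 0,
  .mul 2 0,
  .mul 48 0,
  .mul 1 199,
  .add 188 199,
  .inv 0,
  .mul 190 0,
  .scale ⟨2199023255552, 0, 0, 0⟩ 0,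
  .sub 203 0,
  .sub 204 193,
  .mul 209 4,
  .mul 0 2,
  .add 183 0,
  .scale ⟨224412041216, 0, 0, 0⟩ 193,
  .inv 171,
  .mul 1 0,
  .scale ⟨4398046511104, 0, 0, 0⟩ 212,
  .mul 212 191,
  .add 1 0,
  .inv 0,
  .mul 215 0,
  .mul 217 1,
  .mul 0 193,
  .mul 0 7,
  .mul 3 195,
  .mul 0 9,
  .sub 221 0,
  .inv 0,
  .mul 87 2,
  .sub 224 0,
  .inv 0,
  .scale ⟨2199023255552, 0, 0, 0⟩ 220,
  .add 0 227,
  .add 222 228,
  .mul 230 208,
  .scale ⟨2199023255552, 0, 0, 0⟩ 0,
  .scale ⟨549755813888, 0, 0, 0⟩ 233,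
  .add 1 0,
  .mul 236 0,
  .scale ⟨549755813888, 0, 0, 0⟩ 0,
  .mul 224 214,
  .sub 236 125,
  .mul 226 215,
  .scale ⟨2199023255552, 0, 0, 0⟩ 0,
  .sub 2 0,
  .mul 4 4,
  .add 1 0,
  .add 0 242,
  .scale ⟨549755813888, 0, 0, 0⟩ 0,
  .scale ⟨549755813888, 0, 0, 0⟩ 219,
  .sub 230 0,
  .mul 134 9,
  .mul 0 233,
  .scale ⟨137438953472, 0, 0, 0⟩ 0,
  .add 3 0,
  .mul 6 0,
  .const ⟨1, 0, 0, 0⟩,
  .const ⟨12, 0, 0, 0⟩,
  .mul 125 1,
  .sub 1 0,
  .const ⟨2296, 0, 0, 0⟩,
  .mul 128 1,
  .sub 1 0,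
  .const ⟨302995, 0, 0, 0⟩,
  .mul 131 1,
  .sub 1 0,
  .const ⟨27269634, 0, 0, 0⟩,
  .mul 134 1,
  .sub 1 0,
  .const ⟨1527099483, 0, 0, 0⟩,
  .mul 137 1,
  .sub 1 0,
  .const ⟨45812984491, 0, 0, 0⟩,
  .mul 140 1,
  .sub 1 0,
  .mul 142 0,
  .sub 263 0,
  .mul 144 0,
  .sub 273 0,
  .mul 146 268,
  .mul 179 179,
  .add 0 276,
  .mul 2 2,
  .scale ⟨369367187456, 0, 0, 0⟩ 0,
  .add 5 0,
  .mul 184 0,
  .scale ⟨2199023255552, 0, 0, 0⟩ 0,
  .add 5 0,
  .scale ⟨2199023255552, 0, 0, 0⟩ 185,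
  .add 1 0,
  .const ⟨8589934592, 0, 0, 0⟩,
  .add 1 0,
  .log 0,
  .scale ⟨549755813888, 0, 0, 0⟩ 0,
  .exp 0,
  .mul 194 161,
  .add 1 0,
  .mul 0 69,
  .mul 157 67,
  .add 1 0,
  .mul 74 0,
  .add 157 0,
  .mul 0 291,
  .mul 6 77,
  .mul 0 76,
  .add 161 0,
  .mul 0 295,
  .scale ⟨223338299392, 0, 0, 0⟩ 0,
  .add 295 0,
  .mul 2 0,
  .add 305 0,
  .scale ⟨893353197568, 0, 0, 0⟩ 8,
  .add 307 0,
  .mul 10 0,
  .add 309 0,
  .mul 107 104,
  .mul 0 83,
  .mul 0 2,
  .mul 62 7,
  .add 262 306,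
  .mul 2 0,
  .add 2 0,
  .add 265 317,
  .mul 5 0,
  .mul 90 1,
  .mul 0 114,
  .mul 0 116,
  .mul 5 184,
  .mul 1 88,
  .add 1 0,
  .mul 320 117,
  .inv 274,
  .mul 1 0,
  .scale ⟨549755813888, 0, 0, 0⟩ 0,
  .mul 306 0,
  .add 0 5,
  .mul 333 0,
  .mul 333 0,
  .mul 16 41,
  .mul 0 111,
  .mul 16 199,
  .mul 0 110,
  .add 2 0,
  .mul 315 5,
  .mul 120 1,
  .add 1 0,
  .mul 229 0,
  .mul 0 15,
  .sub 343 0,
  .inv 0,
  .mul 4 0,
  .mul 348 0,
  .mul 235 1,
  .mul 0 21,
  .sub 349 0,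
  .mul 301 0,
  .sub 0 4,
  .inv 0,
  .mul 6 0,
  .sub 302 6,
  .inv 0,
  .mul 2 159,
  .scale ⟨549755813888, 0, 0, 0⟩ 0,
  .sub 358 0,
  .sub 359 2,
  .inv 0,
  .mul 2 0,
  .mul 359 6,
  .mul 164 10,
  .mul 0 2,
  .add 2 0,
  .mul 359 20,
  .mul 11 0,
  .mul 171 15,
  .mul 0 7,
  .mul 0 23,
  .add 3 0,
  .scale ⟨223338299392, 0, 0, 0⟩ 0,
  .add 365 0,
  .mul 2 0,
  .add 375 0,
  .mul 10 0,
  .mul 0 32,
  .mul 0 40,
  .mul 159 356,
  .const ⟨7696581394432, 0, 0, 0⟩,
  .const ⟨10995116277760, 0, 0, 0⟩,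
  .inv 0,
  .mul 2 0,
  .mul 184 360,
  .mul 0 1,
  .mul 245 280,
  .mul 365 0,
  .scale ⟨549755813888, 0, 0, 0⟩ 190,
  .sub 389 0,
  .sub 390 192,
  .inv 0,
  .mul 2 0,
  .mul 0 244,
  .mul 282 272,
  .scale ⟨733097230336, 0, 0, 0⟩ 0,
  .sub 396 0,
  .mul 275 0,
  .mul 309 309,
  .mul 387 0,
  .add 2 0,
  .mul 7 202,
  .add 1 402,
  .mul 1 0,
  .sub 3 0,
  .scale ⟨366548615168, 0, 0, 0⟩ 360,
  .sub 406 0,
  .mul 381 0,
  .add 3 0,
  .mul 22 0,
  .mul 22 22,
  .add 411 0,
  .inv 0,
  .mul 3 0,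
  .sub 414 60,
  .mul 0 1,
  .sub 416 14,
  .pos 0,
  .pos 3,
  .pos 2,
  .mul 39 203,
  .mul 0 87,
  .inv 395,
  .mul 1 0,
  .mul 417 5,
  .mul 424 0,
  .scale ⟨549755813888, 0, 0, 0⟩ 0,
  .sub 424 0,
  .mul 3 0,
  .neg 0,
  .mul 424 431,
  .mul 0 228,
  .mul 0 414,
  .mul 430 0,
  .add 4 0,
  .mul 5 1,
  .mul 435 0,
  .add 2 0,
  .mul 423 393,
  .scale ⟨412316860416, 0, 0, 0⟩ 393,
  .sub 429 0,
  .mul 2 0,
  .mul 439 0,
  .neg 0,
  .add 6 0,
  .mul 7 1,
  .mul 445 0,
  .add 2 0,
  .mul 442 99,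
  .mul 0 26,
  .mul 447 0,
  .add 3 0,
  .mul 4 1,
  .mul 452 0,
  .add 2 0,
  .mul 452 66,
  .sub 1 0,
  .mul 456 68,
  .add 455 0,
  .inv 0,
  .mul 3 0,
  .mul 455 449,
  .mul 0 113,
  .mul 0 104,
  .mul 461 0,
  .add 4 0,
  .mul 5 1,
  .mul 466 0,
  .add 2 0,
  .mul 468 0,
  .add 467 0,
  .mul 89 247,
  .mul 471 89,
  .mul 49 0,
  .add 2 0,
  .mul 472 0,
  .add 94 52,
  .mul 474 0,
  .mul 2 7,
  .add 10 0,
  .add 0 2,
  .neg 0,
  .scale ⟨1073741824, 0, 0, 0⟩ 479,
  .sub 1 0,
  .sub 461 481,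
  .add 0 426,
  .scale ⟨2199023255552, 0, 0, 0⟩ 99,
  .sub 1 0,
  .mul 285 0,
  .mul 4 2,
  .add 0 487,
  .inv 0,
  .mul 3 0,
  .mul 273 152,
  .scale ⟨549755813888, 0, 0, 0⟩ 280,
  .add 475 0,
  .mul 2 0,
  .scale ⟨2199023255552, 0, 0, 0⟩ 0,
  .add 162 0,
  .scale ⟨2199023255552, 0, 0, 0⟩ 0,
  .mul 0 152,
  .mul 489 152,
  .sub 475 0,
  .inv 0,
  .mul 3 0,
  .sub 12 0,
  .mul 290 290,
  .const ⟨14293651161088, 0, 0, 0⟩,
  .mul 0 122,
  .mul 2 0,
  .mul 508 508,
  .scale ⟨27487790694400, 0, 0, 0⟩ 0,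
  .add 2 0,
  .mul 124 53,
  .sub 471 513,
  .sub 0 473,
  .mul 513 510,
  .mul 0 515,
  .mul 491 177,
  .mul 0 301,
  .add 192 0,
  .add 19 462,
  .mul 519 0,
  .mul 10 9,
  .mul 176 1,
  .mul 7 4,
  .mul 1 0,
  .sub 3 0,
  .scale ⟨549755813888, 0, 0, 0⟩ 26,
  .add 526 0,
  .mul 182 0,
  .mul 530 505,
  .mul 0 321,
  .mul 506 478,
  .inv 0,
  .mul 2 0,
  .mul 5 0,
  .sub 21 0,
  .mul 324 10,
  .sub 536 325,
  .mul 525 2,
  .mul 1 0,
  .mul 29 0,
  .add 4 0,
  .pos 319,
  .pos 316,
  .scale ⟨2199023255552, 0, 0, 0⟩ 199,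
  .sub 490 0,
  .pos 0,
  .pos 191,
  .sub 535 345,
  .pos 0,
  .scale ⟨687194767360, 0, 0, 0⟩ 544,
  .sub 0 243,
  .pos 0,
  .scale ⟨377957122048, 0, 0, 0⟩ 546,
  .sub 0 249,
  .pos 0,
  .pos 48,
  .pos 188,
  .sub 3 176,
  .pos 0,
  .pos 46,
  .pos 68,
  .pos 8,
  .pos 14]

def chk3 {α : Type} (cst : Z → α) (add sub mul : α → α → α) (scale : Z → α → α)
    (neg inv exp log : α → α) (ok : α → Bool) (isPos : Nat → α → Bool) (isLt : α → Nat → Bool) :
    List α → Bool
  | [x0, x1, x2, x3] =>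
  let v0 := cst ⟨1099511627776, 0, 0, 0⟩; ok v0 && (
  let v1 := mul x1 x2; ok v1 && (
  let v2 := mul v1 x0; ok v2 && (
  let v3 := mul x2 v2; ok v3 && (
  let v4 := mul x2 x2; ok v4 && (
  let v5 := mul x1 v4; ok v5 && (
  let v6 := mul v2 v2; ok v6 && (
  let v7 := mul x1 v5; ok v7 && (
  let v8 := cst ⟨549755813888, 0, 0, 0⟩; ok v8 && (
  let v9 := mul x1 v3; ok v9 && (
  let v10 := mul v9 x3; ok v10 && (
  let v11 := scale ⟨549755813888, 0, 0, 0⟩ v10; ok v11 && (
  let v12 := mul v3 v3; ok v12 && (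
  let v13 := mul v11 v11; ok v13 && (
  let v14 := sub v0 v13; ok v14 && (
  let v15 := inv v14; ok v15 && (
  let v16 := mul v11 v15; ok v16 && (
  let v17 := scale ⟨2199023255552, 0, 0, 0⟩ v16; ok v17 && (
  let v18 := scale ⟨2199023255552, 0, 0, 0⟩ v15; ok v18 && (
  let v19 := sub v18 v0; ok v19 && (
  let v20 := add v19 v17; ok v20 && (
  let v21 := mul x3 v15; ok v21 && (
  let v22 := mul v3 v21; ok v22 && (
  let v23 := sub v0 v22; ok v23 && (
  let v24 := add v0 v22; ok v24 && (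
  let v25 := mul x1 v12; ok v25 && (
  let v26 := mul v21 v21; ok v26 && (
  let v27 := scale ⟨10774999203840, 0, 0, 0⟩ v11; ok v27 && (
  let v28 := scale ⟨45768245248, 0, 0, 0⟩ v27; ok v28 && (
  let v29 := cst ⟨183207198720, 0, 0, 0⟩; ok v29 && (
  let v30 := add v28 v29; ok v30 && (
  let v31 := mul v27 v30; ok v31 && (
  let v32 := add v8 v31; ok v32 && (
  let v33 := mul v27 v32; ok v33 && (
  let v34 := add v0 v33; ok v34 && (
  let v35 := mul v27 v34; ok v35 && (
  let v36 := scale ⟨549755813888, 0, 0, 0⟩ v35; ok v36 && (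
  let v37 := add v0 v36; ok v37 && (
  let v38 := mul v34 v37; ok v38 && (
  let v39 := mul v17 v22; ok v39 && (
  let v40 := scale ⟨2199023255552, 0, 0, 0⟩ v19; ok v40 && (
  let v41 := add v39 v40; ok v41 && (
  let v42 := add v41 x1; ok v42 && (
  let v43 := mul v25 v42; ok v43 && (
  let v44 := add v43 v0; ok v44 && (
  let v45 := mul v17 v17; ok v45 && (
  let v46 := scale ⟨2199023255552, 0, 0, 0⟩ v45; ok v46 && (
  let v47 := add v46 v0; ok v47 && (
  let v48 := mul v19 v42; ok v48 && (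
  let v49 := sub v48 v0; ok v49 && (
  let v50 := log v44; ok v50 && (
  let v51 := scale ⟨549755813888, 0, 0, 0⟩ v50; ok v51 && (
  let v52 := exp v51; ok v52 && (
  let v53 := cst ⟨3298534883328, 0, 0, 0⟩; ok v53 && (
  let v54 := inv v53; ok v54 && (
  let v55 := mul v0 v54; ok v55 && (
  let v56 := cst ⟨2199023255552, 0, 0, 0⟩; ok v56 && (
  let v57 := add v43 v56; ok v57 && (
  let v58 := inv v57; ok v58 && (
  let v59 := mul v43 v58; ok v59 && (
  let v60 := mul v59 v59; ok v60 && (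
  let v61 := sub v0 v59; ok v61 && (
  let v62 := mul v60 v55; ok v62 && (
  let v63 := add v0 v62; ok v63 && (
  let v64 := mul v61 v63; ok v64 && (
  let v65 := mul v60 v60; ok v65 && (
  let v66 := scale ⟨219915747328, 0, 0, 0⟩ v65; ok v66 && (
  let v67 := mul v42 v64; ok v67 && (
  let v68 := scale ⟨549755813888, 0, 0, 0⟩ v67; ok v68 && (
  let v69 := mul v42 v66; ok v69 && (
  let v70 := scale ⟨549755813888, 0, 0, 0⟩ v69; ok v70 && (
  let v71 := add v68 v70; ok v71 && (
  let v72 := mul v19 v49; ok v72 && (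
  let v73 := scale ⟨4398046511104, 0, 0, 0⟩ v72; ok v73 && (
  let v74 := mul v19 v25; ok v74 && (
  let v75 := mul v74 v49; ok v75 && (
  let v76 := scale ⟨4398046511104, 0, 0, 0⟩ v75; ok v76 && (
  let v77 := add v76 v56; ok v77 && (
  let v78 := inv v77; ok v78 && (
  let v79 := mul v76 v78; ok v79 && (
  let v80 := mul v79 v79; ok v80 && (
  let v81 := sub v0 v79; ok v81 && (
  let v82 := mul v80 v55; ok v82 && (
  let v83 := add v0 v82; ok v83 && (
  let v84 := mul v81 v83; ok v84 && (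
  let v85 := mul v80 v80; ok v85 && (
  let v86 := scale ⟨219915747328, 0, 0, 0⟩ v85; ok v86 && (
  let v87 := mul v73 v84; ok v87 && (
  let v88 := scale ⟨549755813888, 0, 0, 0⟩ v87; ok v88 && (
  let v89 := sub v88 v71; ok v89 && (
  let v90 := mul v73 v86; ok v90 && (
  let v91 := scale ⟨549755813888, 0, 0, 0⟩ v90; ok v91 && (
  let v92 := add v91 v70; ok v92 && (
  let v93 := add v89 v92; ok v93 && (
  let v94 := mul v5 v68; ok v94 && (
  let v95 := neg v94; ok v95 && (
  let v96 := exp v95; ok v96 && (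
  let v97 := mul v5 v70; ok v97 && (
  let v98 := mul v96 v97; ok v98 && (
  let v99 := mul v5 v89; ok v99 && (
  let v100 := neg v99; ok v100 && (
  let v101 := exp v100; ok v101 && (
  let v102 := mul v5 v92; ok v102 && (
  let v103 := mul v101 v102; ok v103 && (
  let v104 := mul v22 v17; ok v104 && (
  let v105 := add v19 v104; ok v105 && (
  let v106 := inv v105; ok v106 && (
  let v107 := mul v24 v106; ok v107 && (
  let v108 := mul v23 x1; ok v108 && (
  let v109 := mul v108 v107; ok v109 && (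
  let v110 := sub v0 v12; ok v110 && (
  let v111 := mul v26 v110; ok v111 && (
  let v112 := mul v9 v9; ok v112 && (
  let v113 := sub v0 v26; ok v113 && (
  let v114 := mul v110 v113; ok v114 && (
  let v115 := mul v25 v49; ok v115 && (
  let v116 := inv v44; ok v116 && (
  let v117 := mul v115 v116; ok v117 && (
  let v118 := add v19 v117; ok v118 && (
  let v119 := mul v44 v118; ok v119 && (
  let v120 := mul v119 v119; ok v120 && (
  let v121 := inv v120; ok v121 && (
  let v122 := mul v114 v121; ok v122 && (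
  let v123 := add v19 v25; ok v123 && (
  let v124 := mul x0 v123; ok v124 && (
  let v125 := inv v124; ok v125 && (
  let v126 := mul v0 v125; ok v126 && (
  let v127 := mul v126 v126; ok v127 && (
  let v128 := mul v127 v114; ok v128 && (
  let v129 := mul v109 v0; ok v129 && (
  let v130 := scale ⟨549755813888, 0, 0, 0⟩ v129; ok v130 && (
  let v131 := sub v0 v130; ok v131 && (
  let v132 := sub v0 v129; ok v132 && (
  let v133 := inv v132; ok v133 && (
  let v134 := mul v131 v133; ok v134 && (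
  let v135 := add v129 v0; ok v135 && (
  let v136 := mul v96 v135; ok v136 && (
  let v137 := mul v107 v134; ok v137 && (
  let v138 := mul v137 v0; ok v138 && (
  let v139 := mul v129 v134; ok v139 && (
  isPos 4 v132 && (
  let v140 := mul v23 v24; ok v140 && (
  let v141 := add v19 x1; ok v141 && (
  let v142 := mul v22 v19; ok v142 && (
  let v143 := mul v142 v17; ok v143 && (
  let v144 := scale ⟨2199023255552, 0, 0, 0⟩ v143; ok v144 && (
  let v145 := add v47 v144; ok v145 && (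
  let v146 := mul v141 v145; ok v146 && (
  let v147 := inv v146; ok v147 && (
  let v148 := mul v140 v147; ok v148 && (
  let v149 := mul x1 v148; ok v149 && (
  isPos 4 v89 && (
  let v150 := mul v128 v116; ok v150 && (
  let v151 := cst ⟨10849087389696, 0, 0, 0⟩; ok v151 && (
  let v152 := sub v151 v150; ok v152 && (
  isPos 4 v152 && (
  let v153 := cst ⟨13, 0, 0, 0⟩; ok v153 && (
  let v154 := cst ⟨2295, 0, 0, 0⟩; ok v154 && (
  let v155 := mul v150 v153; ok v155 && (
  let v156 := sub v154 v155; ok v156 && (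
  let v157 := cst ⟨302996, 0, 0, 0⟩; ok v157 && (
  let v158 := mul v150 v156; ok v158 && (
  let v159 := sub v157 v158; ok v159 && (
  let v160 := cst ⟨27269633, 0, 0, 0⟩; ok v160 && (
  let v161 := mul v150 v159; ok v161 && (
  let v162 := sub v160 v161; ok v162 && (
  let v163 := cst ⟨1527099484, 0, 0, 0⟩; ok v163 && (
  let v164 := mul v150 v162; ok v164 && (
  let v165 := sub v163 v164; ok v165 && (
  let v166 := cst ⟨45812984490, 0, 0, 0⟩; ok v166 && (
  let v167 := mul v150 v165; ok v167 && (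
  let v168 := sub v166 v167; ok v168 && (
  let v169 := mul v150 v168; ok v169 && (
  let v170 := sub v8 v169; ok v170 && (
  let v171 := mul v150 v170; ok v171 && (
  let v172 := sub v0 v171; ok v172 && (
  let v173 := add v101 v0; ok v173 && (
  let v174 := mul v101 v101; ok v174 && (
  let v175 := add v174 v0; ok v175 && (
  let v176 := mul v101 v172; ok v176 && (
  let v177 := scale ⟨2199023255552, 0, 0, 0⟩ v176; ok v177 && (
  let v178 := add v175 v177; ok v178 && (
  let v179 := scale ⟨4398046511104, 0, 0, 0⟩ v103; ok v179 && (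
  let v180 := sub v178 v179; ok v180 && (
  let v181 := inv v173; ok v181 && (
  let v182 := mul v180 v181; ok v182 && (
  let v183 := add v182 v173; ok v183 && (
  let v184 := mul v101 v149; ok v184 && (
  let v185 := scale ⟨549755813888, 0, 0, 0⟩ v184; ok v185 && (
  let v186 := mul v185 v183; ok v186 && (
  let v187 := sub v180 v186; ok v187 && (
  isPos 4 v180 && (
  isPos 4 v187 && (
  let v188 := sub v0 v101; ok v188 && (
  let v189 := mul v188 v173; ok v189 && (
  let v190 := scale ⟨2199023255552, 0, 0, 0⟩ v103; ok v190 && (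
  let v191 := add v189 v190; ok v191 && (
  let v192 := inv v187; ok v192 && (
  let v193 := mul v191 v192; ok v193 && (
  let v194 := scale ⟨549755813888, 0, 0, 0⟩ v193; ok v194 && (
  let v195 := add v194 v8; ok v195 && (
  let v196 := inv v195; ok v196 && (
  let v197 := mul v194 v196; ok v197 && (
  let v198 := mul v149 v197; ok v198 && (
  let v199 := mul v197 x0; ok v199 && (
  let v200 := add v11 v0; ok v200 && (
  let v201 := inv v200; ok v201 && (
  let v202 := mul v11 v201; ok v202 && (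
  let v203 := scale ⟨2199023255552, 0, 0, 0⟩ v202; ok v203 && (
  let v204 := sub v0 v203; ok v204 && (
  let v205 := sub v0 v11; ok v205 && (
  let v206 := mul x3 v201; ok v206 && (
  let v207 := mul v206 v204; ok v207 && (
  let v208 := add v24 v207; ok v208 && (
  let v209 := scale ⟨224412041216, 0, 0, 0⟩ v15; ok v209 && (
  let v210 := inv v38; ok v210 && (
  let v211 := mul v209 v210; ok v211 && (
  let v212 := scale ⟨4398046511104, 0, 0, 0⟩ x0; ok v212 && (
  let v213 := mul v0 v21; ok v213 && (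
  let v214 := add v212 v213; ok v214 && (
  let v215 := inv v214; ok v215 && (
  let v216 := mul v0 v215; ok v216 && (
  let v217 := mul x0 v215; ok v217 && (
  let v218 := mul v217 v24; ok v218 && (
  let v219 := mul v218 v211; ok v219 && (
  let v220 := mul v216 v24; ok v220 && (
  let v221 := mul v220 v211; ok v221 && (
  let v222 := sub v0 v221; ok v222 && (
  let v223 := inv v222; ok v223 && (
  let v224 := mul v136 v221; ok v224 && (
  let v225 := sub v0 v224; ok v225 && (
  let v226 := inv v225; ok v226 && (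
  let v227 := scale ⟨2199023255552, 0, 0, 0⟩ v6; ok v227 && (
  let v228 := add v227 v0; ok v228 && (
  let v229 := add v6 v0; ok v229 && (
  let v230 := mul x0 v21; ok v230 && (
  let v231 := scale ⟨2199023255552, 0, 0, 0⟩ v230; ok v231 && (
  let v232 := scale ⟨549755813888, 0, 0, 0⟩ x1; ok v232 && (
  let v233 := add v231 v232; ok v233 && (
  let v234 := mul x2 v233; ok v234 && (
  let v235 := scale ⟨549755813888, 0, 0, 0⟩ v234; ok v235 && (
  let v236 := mul v11 v21; ok v236 && (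
  let v237 := sub v0 v111; ok v237 && (
  let v238 := mul v11 v22; ok v238 && (
  let v239 := scale ⟨2199023255552, 0, 0, 0⟩ v238; ok v239 && (
  let v240 := sub v237 v239; ok v240 && (
  let v241 := mul v236 v236; ok v241 && (
  let v242 := add v240 v241; ok v242 && (
  let v243 := add v242 v0; ok v243 && (
  let v244 := scale ⟨549755813888, 0, 0, 0⟩ v243; ok v244 && (
  let v245 := scale ⟨549755813888, 0, 0, 0⟩ v25; ok v245 && (
  let v246 := sub v15 v245; ok v246 && (
  let v247 := mul v112 v237; ok v247 && (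
  let v248 := mul v247 v14; ok v248 && (
  let v249 := scale ⟨137438953472, 0, 0, 0⟩ v248; ok v249 && (
  let v250 := add v246 v249; ok v250 && (
  let v251 := mul v244 v250; ok v251 && (
  let v252 := cst ⟨1, 0, 0, 0⟩; ok v252 && (
  let v253 := cst ⟨12, 0, 0, 0⟩; ok v253 && (
  let v254 := mul v128 v252; ok v254 && (
  let v255 := sub v253 v254; ok v255 && (
  let v256 := cst ⟨2296, 0, 0, 0⟩; ok v256 && (
  let v257 := mul v128 v255; ok v257 && (
  let v258 := sub v256 v257; ok v258 && (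
  let v259 := cst ⟨302995, 0, 0, 0⟩; ok v259 && (
  let v260 := mul v128 v258; ok v260 && (
  let v261 := sub v259 v260; ok v261 && (
  let v262 := cst ⟨27269634, 0, 0, 0⟩; ok v262 && (
  let v263 := mul v128 v261; ok v263 && (
  let v264 := sub v262 v263; ok v264 && (
  let v265 := cst ⟨1527099483, 0, 0, 0⟩; ok v265 && (
  let v266 := mul v128 v264; ok v266 && (
  let v267 := sub v265 v266; ok v267 && (
  let v268 := cst ⟨45812984491, 0, 0, 0⟩; ok v268 && (
  let v269 := mul v128 v267; ok v269 && (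
  let v270 := sub v268 v269; ok v270 && (
  let v271 := mul v128 v270; ok v271 && (
  let v272 := sub v8 v271; ok v272 && (
  let v273 := mul v128 v272; ok v273 && (
  let v274 := sub v0 v273; ok v274 && (
  let v275 := mul v128 v6; ok v275 && (
  let v276 := mul v96 v96; ok v276 && (
  let v277 := add v276 v0; ok v277 && (
  let v278 := mul v275 v275; ok v278 && (
  let v279 := scale ⟨369367187456, 0, 0, 0⟩ v278; ok v279 && (
  let v280 := add v274 v279; ok v280 && (
  let v281 := mul v96 v280; ok v281 && (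
  let v282 := scale ⟨2199023255552, 0, 0, 0⟩ v281; ok v282 && (
  let v283 := add v277 v282; ok v283 && (
  let v284 := scale ⟨2199023255552, 0, 0, 0⟩ v98; ok v284 && (
  let v285 := add v283 v284; ok v285 && (
  let v286 := cst ⟨8589934592, 0, 0, 0⟩; ok v286 && (
  let v287 := add v285 v286; ok v287 && (
  let v288 := log v287; ok v288 && (
  let v289 := scale ⟨549755813888, 0, 0, 0⟩ v288; ok v289 && (
  let v290 := exp v289; ok v290 && (
  let v291 := mul v96 v129; ok v291 && (
  let v292 := add v290 v291; ok v292 && (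
  let v293 := mul v292 v223; ok v293 && (
  let v294 := mul v136 v226; ok v294 && (
  let v295 := add v293 v294; ok v295 && (
  let v296 := mul v221 v295; ok v296 && (
  let v297 := add v139 v296; ok v297 && (
  let v298 := mul v297 v6; ok v298 && (
  let v299 := mul v292 v221; ok v299 && (
  let v300 := mul v299 v223; ok v300 && (
  let v301 := add v139 v300; ok v301 && (
  let v302 := mul v301 v6; ok v302 && (
  let v303 := scale ⟨223338299392, 0, 0, 0⟩ v302; ok v303 && (
  let v304 := add v8 v303; ok v304 && (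
  let v305 := mul v302 v304; ok v305 && (
  let v306 := add v0 v305; ok v306 && (
  let v307 := scale ⟨893353197568, 0, 0, 0⟩ v298; ok v307 && (
  let v308 := add v0 v307; ok v308 && (
  let v309 := mul v298 v308; ok v309 && (
  let v310 := add v0 v309; ok v310 && (
  let v311 := mul v203 v206; ok v311 && (
  let v312 := mul v311 v228; ok v312 && (
  let v313 := mul v312 v310; ok v313 && (
  let v314 := mul v251 v306; ok v314 && (
  let v315 := add v52 v8; ok v315 && (
  let v316 := mul v313 v315; ok v316 && (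
  let v317 := add v314 v316; ok v317 && (
  let v318 := add v52 v0; ok v318 && (
  let v319 := mul v313 v318; ok v319 && (
  let v320 := mul v229 v318; ok v320 && (
  let v321 := mul v320 v206; ok v321 && (
  let v322 := mul v321 v205; ok v322 && (
  let v323 := mul v317 v138; ok v323 && (
  let v324 := mul v322 v235; ok v324 && (
  let v325 := add v323 v324; ok v325 && (
  let v326 := mul v5 v208; ok v326 && (
  let v327 := inv v52; ok v327 && (
  let v328 := mul v326 v327; ok v328 && (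
  let v329 := scale ⟨549755813888, 0, 0, 0⟩ v328; ok v329 && (
  let v330 := mul v23 v329; ok v330 && (
  let v331 := add v330 v325; ok v331 && (
  let v332 := mul x1 v331; ok v332 && (
  let v333 := mul x0 v332; ok v333 && (
  let v334 := mul v317 v292; ok v334 && (
  let v335 := mul v334 v223; ok v335 && (
  let v336 := mul v319 v136; ok v336 && (
  let v337 := mul v336 v226; ok v337 && (
  let v338 := add v335 v337; ok v338 && (
  let v339 := mul v23 v333; ok v339 && (
  let v340 := mul v219 v338; ok v340 && (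
  let v341 := add v339 v340; ok v341 && (
  let v342 := mul v112 v341; ok v342 && (
  let v343 := mul v342 v327; ok v343 && (
  let v344 := sub v0 v343; ok v344 && (
  let v345 := inv v344; ok v345 && (
  let v346 := mul v341 v345; ok v346 && (
  let v347 := mul x1 v346; ok v347 && (
  let v348 := mul v112 v346; ok v348 && (
  let v349 := mul v348 v327; ok v349 && (
  let v350 := sub v0 v349; ok v350 && (
  let v351 := mul v49 v350; ok v351 && (
  let v352 := sub v351 v347; ok v352 && (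
  let v353 := inv v352; ok v353 && (
  let v354 := mul v347 v353; ok v354 && (
  let v355 := sub v52 v348; ok v355 && (
  let v356 := inv v355; ok v356 && (
  let v357 := mul v354 v197; ok v357 && (
  let v358 := scale ⟨549755813888, 0, 0, 0⟩ v357; ok v358 && (
  let v359 := sub v0 v358; ok v359 && (
  let v360 := sub v0 v357; ok v360 && (
  let v361 := inv v360; ok v361 && (
  let v362 := mul v359 v361; ok v362 && (
  let v363 := mul v3 v356; ok v363 && (
  let v364 := mul v199 v353; ok v364 && (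
  let v365 := mul v364 v362; ok v365 && (
  let v366 := add v363 v365; ok v366 && (
  let v367 := mul v7 v346; ok v367 && (
  let v368 := mul v356 v367; ok v368 && (
  let v369 := mul v197 v353; ok v369 && (
  let v370 := mul v369 v362; ok v370 && (
  let v371 := mul v370 v347; ok v371 && (
  let v372 := add v368 v371; ok v372 && (
  let v373 := scale ⟨223338299392, 0, 0, 0⟩ v372; ok v373 && (
  let v374 := add v8 v373; ok v374 && (
  let v375 := mul v372 v374; ok v375 && (
  let v376 := add v0 v375; ok v376 && (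
  let v377 := mul v366 v376; ok v377 && (
  let v378 := mul v377 v345; ok v378 && (
  let v379 := mul v378 v338; ok v379 && (
  let v380 := mul v220 v23; ok v380 && (
  let v381 := cst ⟨7696581394432, 0, 0, 0⟩; ok v381 && (
  let v382 := cst ⟨10995116277760, 0, 0, 0⟩; ok v382 && (
  let v383 := inv v382; ok v383 && (
  let v384 := mul v381 v383; ok v384 && (
  let v385 := mul v200 v24; ok v385 && (
  let v386 := mul v385 v384; ok v386 && (
  let v387 := mul v141 v106; ok v387 && (
  let v388 := mul v22 v387; ok v388 && (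
  let v389 := scale ⟨549755813888, 0, 0, 0⟩ v198; ok v389 && (
  let v390 := sub v0 v389; ok v390 && (
  let v391 := sub v0 v198; ok v391 && (
  let v392 := inv v391; ok v392 && (
  let v393 := mul v390 v392; ok v393 && (
  let v394 := mul v393 v149; ok v394 && (
  let v395 := mul v112 v122; ok v395 && (
  let v396 := scale ⟨733097230336, 0, 0, 0⟩ v395; ok v396 && (
  let v397 := sub v0 v396; ok v397 && (
  let v398 := mul v122 v397; ok v398 && (
  let v399 := mul v89 v89; ok v399 && (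
  let v400 := mul v12 v399; ok v400 && (
  let v401 := add v398 v400; ok v401 && (
  let v402 := mul v394 v199; ok v402 && (
  let v403 := add v401 v0; ok v403 && (
  let v404 := mul v402 v403; ok v404 && (
  let v405 := sub v401 v404; ok v405 && (
  let v406 := scale ⟨366548615168, 0, 0, 0⟩ v45; ok v406 && (
  let v407 := sub v0 v406; ok v407 && (
  let v408 := mul v26 v407; ok v408 && (
  let v409 := add v405 v408; ok v409 && (
  let v410 := mul v387 v409; ok v410 && (
  let v411 := mul v388 v388; ok v411 && (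
  let v412 := add v0 v411; ok v412 && (
  let v413 := inv v412; ok v413 && (
  let v414 := mul v410 v413; ok v414 && (
  let v415 := sub v0 v354; ok v415 && (
  let v416 := mul v415 v414; ok v416 && (
  let v417 := sub v0 v402; ok v417 && (
  isPos 4 v417 && (
  isPos 4 v414 && (
  isPos 4 v415 && (
  let v418 := mul v378 v214; ok v418 && (
  let v419 := mul v418 v331; ok v419 && (
  let v420 := inv v24; ok v420 && (
  let v421 := mul v419 v420; ok v421 && (
  let v422 := mul v4 v416; ok v422 && (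
  let v423 := mul x1 v422; ok v423 && (
  let v424 := scale ⟨549755813888, 0, 0, 0⟩ v423; ok v424 && (
  let v425 := sub v0 v424; ok v425 && (
  let v426 := mul v422 v425; ok v426 && (
  let v427 := neg v426; ok v427 && (
  let v428 := mul v3 x3; ok v428 && (
  let v429 := mul v428 v200; ok v429 && (
  let v430 := mul v429 v15; ok v430 && (
  let v431 := mul v0 v430; ok v431 && (
  let v432 := add v427 v431; ok v432 && (
  let v433 := mul v427 v431; ok v433 && (
  let v434 := mul x1 v433; ok v434 && (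
  let v435 := add v432 v434; ok v435 && (
  let v436 := mul v12 v42; ok v436 && (
  let v437 := scale ⟨412316860416, 0, 0, 0⟩ v43; ok v437 && (
  let v438 := sub v8 v437; ok v438 && (
  let v439 := mul v436 v438; ok v439 && (
  let v440 := mul v0 v439; ok v440 && (
  let v441 := neg v440; ok v441 && (
  let v442 := add v435 v441; ok v442 && (
  let v443 := mul v435 v441; ok v443 && (
  let v444 := mul x1 v443; ok v444 && (
  let v445 := add v442 v444; ok v445 && (
  let v446 := mul v3 v346; ok v446 && (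
  let v447 := mul v446 v420; ok v447 && (
  let v448 := mul v0 v447; ok v448 && (
  let v449 := add v445 v448; ok v449 && (
  let v450 := mul v445 v448; ok v450 && (
  let v451 := mul x1 v450; ok v451 && (
  let v452 := add v449 v451; ok v452 && (
  let v453 := mul v0 v386; ok v453 && (
  let v454 := sub v452 v453; ok v454 && (
  let v455 := mul x1 v386; ok v455 && (
  let v456 := add v0 v455; ok v456 && (
  let v457 := inv v456; ok v457 && (
  let v458 := mul v454 v457; ok v458 && (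
  let v459 := mul v3 v9; ok v459 && (
  let v460 := mul v459 v346; ok v460 && (
  let v461 := mul v460 v356; ok v461 && (
  let v462 := mul v0 v461; ok v462 && (
  let v463 := add v458 v462; ok v463 && (
  let v464 := mul v458 v462; ok v464 && (
  let v465 := mul x1 v464; ok v465 && (
  let v466 := add v463 v465; ok v466 && (
  let v467 := mul x1 v466; ok v467 && (
  let v468 := add v0 v467; ok v468 && (
  let v469 := mul v379 v221; ok v469 && (
  let v470 := mul x1 v380; ok v470 && (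
  let v471 := mul v421 v470; ok v471 && (
  let v472 := add v469 v471; ok v472 && (
  let v473 := mul v0 v472; ok v473 && (
  let v474 := add v379 v421; ok v474 && (
  let v475 := mul v0 v474; ok v475 && (
  let v476 := mul v473 v468; ok v476 && (
  let v477 := add v466 v476; ok v477 && (
  let v478 := add v477 v475; ok v478 && (
  let v479 := neg v478; ok v479 && (
  let v480 := scale ⟨1073741824, 0, 0, 0⟩ v0; ok v480 && (
  let v481 := sub v479 v480; ok v481 && (
  let v482 := sub v20 v0; ok v482 && (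
  let v483 := add v482 v56; ok v483 && (
  let v484 := scale ⟨2199023255552, 0, 0, 0⟩ v384; ok v484 && (
  let v485 := sub v483 v484; ok v485 && (
  let v486 := mul v200 v485; ok v486 && (
  let v487 := mul v482 v484; ok v487 && (
  let v488 := add v487 v0; ok v488 && (
  let v489 := inv v488; ok v489 && (
  let v490 := mul v486 v489; ok v490 && (
  let v491 := mul v217 v338; ok v491 && (
  let v492 := scale ⟨549755813888, 0, 0, 0⟩ v211; ok v492 && (
  let v493 := add v17 v492; ok v493 && (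
  let v494 := mul v491 v493; ok v494 && (
  let v495 := scale ⟨2199023255552, 0, 0, 0⟩ v494; ok v495 && (
  let v496 := add v333 v495; ok v496 && (
  let v497 := scale ⟨2199023255552, 0, 0, 0⟩ v496; ok v497 && (
  let v498 := mul v497 v345; ok v498 && (
  let v499 := mul v9 v346; ok v499 && (
  let v500 := sub v24 v499; ok v500 && (
  let v501 := inv v500; ok v501 && (
  let v502 := mul v498 v501; ok v502 && (
  let v503 := sub v490 v502; ok v503 && (
  let v504 := mul v213 v213; ok v504 && (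
  let v505 := cst ⟨14293651161088, 0, 0, 0⟩; ok v505 && (
  let v506 := mul v505 v383; ok v506 && (
  let v507 := mul v504 v506; ok v507 && (
  let v508 := mul x0 x0; ok v508 && (
  let v509 := scale ⟨27487790694400, 0, 0, 0⟩ v508; ok v509 && (
  let v510 := add v507 v509; ok v510 && (
  let v511 := mul v386 v457; ok v511 && (
  let v512 := sub v40 x1; ok v512 && (
  let v513 := sub v512 v39; ok v513 && (
  let v514 := mul v0 v3; ok v514 && (
  let v515 := mul v514 x0; ok v515 && (
  let v516 := mul v24 v338; ok v516 && (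
  let v517 := mul v516 v215; ok v517 && (
  let v518 := add v325 v517; ok v518 && (
  let v519 := add v499 v56; ok v519 && (
  let v520 := mul v0 v519; ok v520 && (
  let v521 := mul v510 v511; ok v521 && (
  let v522 := mul v345 v520; ok v522 && (
  let v523 := mul v515 v518; ok v523 && (
  let v524 := mul v522 v523; ok v524 && (
  let v525 := sub v521 v524; ok v525 && (
  let v526 := scale ⟨549755813888, 0, 0, 0⟩ v499; ok v526 && (
  let v527 := add v0 v526; ok v527 && (
  let v528 := mul v345 v527; ok v528 && (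
  let v529 := mul x1 v23; ok v529 && (
  let v530 := mul v529 v208; ok v530 && (
  let v531 := mul v24 v52; ok v531 && (
  let v532 := inv v531; ok v532 && (
  let v533 := mul v530 v532; ok v533 && (
  let v534 := mul v528 v533; ok v534 && (
  let v535 := sub v513 v534; ok v535 && (
  let v536 := mul v211 v525; ok v536 && (
  let v537 := sub v0 v211; ok v537 && (
  let v538 := mul v12 v535; ok v538 && (
  let v539 := mul v537 v538; ok v539 && (
  let v540 := mul v510 v539; ok v540 && (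
  let v541 := add v536 v540; ok v541 && (
  isPos 4 v222 && (
  isPos 4 v225 && (
  let v542 := scale ⟨2199023255552, 0, 0, 0⟩ v342; ok v542 && (
  let v543 := sub v52 v542; ok v543 && (
  isPos 4 v543 && (
  isPos 4 v352 && (
  let v544 := sub v8 v198; ok v544 && (
  isPos 4 v544 && (
  let v545 := scale ⟨687194767360, 0, 0, 0⟩ v0; ok v545 && (
  let v546 := sub v545 v302; ok v546 && (
  isPos 4 v546 && (
  let v547 := scale ⟨377957122048, 0, 0, 0⟩ v0; ok v547 && (
  let v548 := sub v547 v298; ok v548 && (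
  isPos 4 v548 && (
  isPos 4 v500 && (
  isPos 4 v360 && (
  let v549 := sub v545 v372; ok v549 && (
  isPos 4 v549 && (
  isPos 4 v503 && (
  isPos 4 v481 && (
  isPos 4 v541 && (
  isPos 4 v535 && (
  true))))))))))))))))))))))))))))))))))))))))))))))))))))))))))))))))))))))))))))))))))))))))))))))))))))))))))))))))))))))))))))))))))))))))))))))))))))))))))))))))))))))))))))))))))))))))))))))))))))))))))))))))))))))))))))))))))))))))))))))))))))))))))))))))))))))))))))))))))))))))))))))))))))))))))))))))))))))))))))))))))))))))))))))))))))))))))))))))))))))))))))))))))))))))))))))))))))))))))))))))))))))))))))))))))))))))))))))))))))))))))))))))))))))))))))))))))))))))))))))))))))))))))))))))))))))))))))))))))))))))))))))))))))))))))))))))))))))))))))))))))))))))))))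
  | _ => false

set_option maxRecDepth 1000000 in
theorem chk3_eq (O : Ops) (m : List O.α)
    (h : chk3 O.cst O.add O.sub O.mul O.scale O.neg O.inv O.exp O.log O.ok O.isPos O.isLt m = true) :
    runG O 4 prog3 m = true := by
  match m, h with
  | [x0, x1, x2, x3], h => exact h

def chkB3 : List opsE.α → Bool :=
  chk3 opsE.cst opsE.add opsE.sub opsE.mul opsE.scale opsE.neg opsE.inv opsE.exp opsE.log opsE.ok opsE.isPos opsE.isLt

theorem chkB3_eq (m : List opsE.α) (h : chkB3 m = true) : runG opsE 4 prog3 m = true :=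
  chk3_eq opsE m h

def prog4 : List Op := [
  .const ⟨1099511627776, 0, 0, 0⟩,
  .mul 2 3,
  .mul 0 2,
  .mul 5 0,
  .mul 6 6,
  .mul 6 0,
  .mul 3 3,
  .mul 8 1,
  .const ⟨549755813888, 0, 0, 0⟩,
  .mul 10 5,
  .mul 0 13,
  .scale ⟨549755813888, 0, 0, 0⟩ 0,
  .mul 8 8,
  .mul 1 1,
  .sub 13 0,
  .inv 0,
  .mul 4 0,
  .scale ⟨2199023255552, 0, 0, 0⟩ 0,
  .scale ⟨2199023255552, 0, 0, 0⟩ 2,
  .sub 0 18,
  .add 0 2,
  .mul 24 5,
  .mul 18 0,
  .sub 22 0,
  .add 23 1,
  .mul 26 12,
  .mul 4 4,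
  .scale ⟨10774999203840, 0, 0, 0⟩ 15,
  .scale ⟨45768245248, 0, 0, 0⟩ 0,
  .const ⟨183207198720, 0, 0, 0⟩,
  .add 1 0,
  .mul 3 0,
  .add 23 0,
  .mul 5 0,
  .add 33 0,
  .mul 7 0,
  .scale ⟨549755813888, 0, 0, 0⟩ 0,
  .add 36 0,
  .mul 3 0,
  .mul 21 16,
  .scale ⟨2199023255552, 0, 0, 0⟩ 20,
  .add 1 0,
  .add 0 43,
  .mul 17 0,
  .add 0 43,
  .mul 27 27,
  .scale ⟨2199023255552, 0, 0, 0⟩ 0,
  .add 0 46,
  .mul 28 5,
  .sub 0 48,
  .log 5,
  .scale ⟨549755813888, 0, 0, 0⟩ 0,
  .exp 0,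
  .const ⟨3298534883328, 0, 0, 0⟩,
  .inv 0,
  .mul 54 0,
  .const ⟨2199023255552, 0, 0, 0⟩,
  .add 13 0,
  .inv 0,
  .mul 15 0,
  .mul 0 0,
  .sub 60 1,
  .mul 1 6,
  .add 62 0,
  .mul 2 0,
  .mul 4 4,
  .scale ⟨219915747328, 0, 0, 0⟩ 0,
  .mul 24 2,
  .scale ⟨549755813888, 0, 0, 0⟩ 0,
  .mul 26 2,
  .scale ⟨549755813888, 0, 0, 0⟩ 0,
  .add 2 0,
  .mul 52 22,
  .scale ⟨4398046511104, 0, 0, 0⟩ 0,
  .mul 54 48,
  .mul 0 25,
  .scale ⟨4398046511104, 0, 0, 0⟩ 0,
  .add 0 20,
  .inv 0,
  .mul 2 0,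
  .mul 0 0,
  .sub 80 1,
  .mul 1 26,
  .add 82 0,
  .mul 2 0,
  .mul 4 4,
  .scale ⟨219915747328, 0, 0, 0⟩ 0,
  .mul 13 2,
  .scale ⟨549755813888, 0, 0, 0⟩ 0,
  .sub 0 17,
  .mul 16 3,
  .scale ⟨549755813888, 0, 0, 0⟩ 0,
  .add 0 21,
  .add 3 0,
  .mul 88 25,
  .neg 0,
  .exp 0,
  .mul 91 26,
  .mul 1 0,
  .mul 76 81,
  .add 80 0,
  .inv 0,
  .mul 77 0,
  .mul 79 104,
  .mul 0 1,
  .sub 104 92,
  .mul 79 0,
  .mul 97 97,
  .sub 107 81,
  .mul 3 0,
  .mul 84 60,
  .inv 66,
  .mul 1 0,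
  .add 93 0,
  .mul 69 0,
  .mul 0 0,
  .inv 0,
  .mul 7 0,
  .add 98 92,
  .mul 119 0,
  .inv 0,
  .mul 120 0,
  .mul 0 0,
  .mul 0 13,
  .mul 19 123,
  .scale ⟨549755813888, 0, 0, 0⟩ 0,
  .sub 125 0,
  .sub 126 2,
  .inv 0,
  .mul 2 0,
  .add 5 129,
  .mul 34 0,
  .mul 29 2,
  .mul 0 132,
  .mul 9 4,
  .pos 7,
  .mul 111 110,
  .add 116 137,
  .mul 114 117,
  .mul 0 120,
  .scale ⟨2199023255552, 0, 0, 0⟩ 0,
  .add 92 0,
  .mul 4 0,
  .inv 0,
  .mul 7 0,
  .mul 145 0,
  .pos 55,
  .mul 0 144,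
  .mul 145 146,
  .add 135 146,
  .inv 0,
  .mul 137 0,
  .scale ⟨2199023255552, 0, 0, 0⟩ 0,
  .sub 150 0,
  .sub 151 140,
  .mul 156 4,
  .mul 0 2,
  .add 130 0,
  .scale ⟨224412041216, 0, 0, 0⟩ 140,
  .inv 118,
  .mul 1 0,
  .scale ⟨4398046511104, 0, 0, 0⟩ 159,
  .mul 159 138,
  .add 1 0,
  .inv 0,
  .mul 162 0,
  .mul 164 1,
  .mul 0 140,
  .mul 0 7,
  .mul 3 142,
  .mul 0 9,
  .sub 168 0,
  .inv 0,
  .mul 39 2,
  .sub 171 0,
  .inv 0,
  .scale ⟨2199023255552, 0, 0, 0⟩ 167,
  .add 0 174,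
  .add 169 175,
  .mul 177 155,
  .scale ⟨2199023255552, 0, 0, 0⟩ 0,
  .scale ⟨549755813888, 0, 0, 0⟩ 180,
  .add 1 0,
  .mul 183 0,
  .scale ⟨549755813888, 0, 0, 0⟩ 0,
  .mul 171 161,
  .sub 183 77,
  .mul 173 162,
  .scale ⟨2199023255552, 0, 0, 0⟩ 0,
  .sub 2 0,
  .mul 4 4,
  .add 1 0,
  .add 0 189,
  .scale ⟨549755813888, 0, 0, 0⟩ 0,
  .scale ⟨549755813888, 0, 0, 0⟩ 166,
  .sub 177 0,
  .mul 86 9,
  .mul 0 180,
  .scale ⟨137438953472, 0, 0, 0⟩ 0,
  .add 3 0,
  .mul 6 0,
  .const ⟨1, 0, 0, 0⟩,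
  .const ⟨12, 0, 0, 0⟩,
  .mul 77 1,
  .sub 1 0,
  .const ⟨2296, 0, 0, 0⟩,
  .mul 80 1,
  .sub 1 0,
  .const ⟨302995, 0, 0, 0⟩,
  .mul 83 1,
  .sub 1 0,
  .const ⟨27269634, 0, 0, 0⟩,
  .mul 86 1,
  .sub 1 0,
  .const ⟨1527099483, 0, 0, 0⟩,
  .mul 89 1,
  .sub 1 0,
  .const ⟨45812984491, 0, 0, 0⟩,
  .mul 92 1,
  .sub 1 0,
  .mul 94 0,
  .sub 210 0,
  .mul 96 0,
  .sub 220 0,
  .mul 98 215,
  .mul 126 126,
  .add 0 223,
  .mul 2 2,
  .scale ⟨369367187456, 0, 0, 0⟩ 0,
  .add 5 0,
  .mul 131 0,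
  .scale ⟨2199023255552, 0, 0, 0⟩ 0,
  .add 5 0,
  .scale ⟨2199023255552, 0, 0, 0⟩ 132,
  .add 1 0,
  .const ⟨8589934592, 0, 0, 0⟩,
  .add 1 0,
  .log 0,
  .scale ⟨549755813888, 0, 0, 0⟩ 0,
  .exp 0,
  .mul 141 113,
  .add 1 0,
  .mul 0 69,
  .mul 109 67,
  .add 1 0,
  .mul 74 0,
  .add 109 0,
  .mul 0 238,
  .mul 6 77,
  .mul 0 76,
  .add 113 0,
  .mul 0 242,
  .scale ⟨223338299392, 0, 0, 0⟩ 0,
  .add 242 0,
  .mul 2 0,
  .add 252 0,
  .scale ⟨893353197568, 0, 0, 0⟩ 8,
  .add 254 0,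
  .mul 10 0,
  .add 256 0,
  .mul 107 104,
  .mul 0 83,
  .mul 0 2,
  .mul 62 7,
  .add 209 253,
  .mul 2 0,
  .add 2 0,
  .add 212 264,
  .mul 5 0,
  .mul 90 1,
  .mul 0 114,
  .mul 0 116,
  .mul 5 136,
  .mul 1 88,
  .add 1 0,
  .mul 267 117,
  .inv 221,
  .mul 1 0,
  .scale ⟨549755813888, 0, 0, 0⟩ 0,
  .mul 253 0,
  .add 0 5,
  .mul 280 0,
  .mul 280 0,
  .mul 16 41,
  .mul 0 111,
  .mul 16 151,
  .mul 0 110,
  .add 2 0,
  .mul 262 5,
  .mul 120 1,
  .add 1 0,
  .mul 181 0,
  .mul 0 15,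
  .sub 290 0,
  .inv 0,
  .mul 4 0,
  .mul 295 0,
  .mul 187 1,
  .mul 0 21,
  .sub 296 0,
  .mul 248 0,
  .sub 0 4,
  .inv 0,
  .mul 6 0,
  .sub 249 6,
  .inv 0,
  .mul 2 303,
  .scale ⟨549755813888, 0, 0, 0⟩ 0,
  .sub 305 0,
  .sub 306 2,
  .inv 0,
  .mul 2 0,
  .mul 306 6,
  .mul 164 10,
  .mul 0 2,
  .add 2 0,
  .mul 306 20,
  .mul 11 0,
  .mul 315 15,
  .mul 0 7,
  .mul 0 23,
  .add 3 0,
  .scale ⟨223338299392, 0, 0, 0⟩ 0,
  .add 312 0,
  .mul 2 0,
  .add 322 0,
  .mul 10 0,
  .mul 0 32,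
  .mul 0 40,
  .mul 159 303,
  .const ⟨7696581394432, 0, 0, 0⟩,
  .const ⟨10995116277760, 0, 0, 0⟩,
  .inv 0,
  .mul 2 0,
  .mul 184 307,
  .mul 0 1,
  .mul 197 232,
  .mul 312 0,
  .scale ⟨549755813888, 0, 0, 0⟩ 190,
  .sub 336 0,
  .sub 337 192,
  .inv 0,
  .mul 2 0,
  .mul 0 196,
  .mul 234 224,
  .scale ⟨733097230336, 0, 0, 0⟩ 0,
  .sub 343 0,
  .mul 227 0,
  .mul 256 256,
  .mul 334 0,
  .add 2 0,
  .mul 7 202,
  .add 1 349,
  .mul 1 0,
  .sub 3 0,
  .scale ⟨366548615168, 0, 0, 0⟩ 307,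
  .sub 353 0,
  .mul 328 0,
  .add 3 0,
  .mul 22 0,
  .mul 22 22,
  .add 358 0,
  .inv 0,
  .mul 3 0,
  .sub 361 60,
  .mul 0 1,
  .sub 363 14,
  .pos 0,
  .pos 3,
  .pos 2,
  .mul 39 203,
  .mul 0 87,
  .inv 342,
  .mul 1 0,
  .mul 364 5,
  .mul 371 0,
  .scale ⟨549755813888, 0, 0, 0⟩ 0,
  .sub 371 0,
  .mul 3 0,
  .neg 0,
  .mul 371 378,
  .mul 0 228,
  .mul 0 361,
  .mul 377 0,
  .add 4 0,
  .mul 5 1,
  .mul 382 0,
  .add 2 0,
  .mul 370 340,
  .scale ⟨412316860416, 0, 0, 0⟩ 340,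
  .sub 376 0,
  .mul 2 0,
  .mul 386 0,
  .neg 0,
  .add 6 0,
  .mul 7 1,
  .mul 392 0,
  .add 2 0,
  .mul 389 99,
  .mul 0 26,
  .mul 394 0,
  .add 3 0,
  .mul 4 1,
  .mul 399 0,
  .add 2 0,
  .mul 399 66,
  .sub 1 0,
  .mul 403 68,
  .add 402 0,
  .inv 0,
  .mul 3 0,
  .mul 402 396,
  .mul 0 113,
  .mul 0 104,
  .mul 408 0,
  .add 4 0,
  .mul 5 1,
  .mul 413 0,
  .add 2 0,
  .mul 415 0,
  .add 414 0,
  .mul 89 247,
  .mul 418 89,
  .mul 49 0,
  .add 2 0,
  .mul 419 0,
  .add 94 52,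
  .mul 421 0,
  .mul 2 7,
  .add 10 0,
  .add 0 2,
  .neg 0,
  .scale ⟨1073741824, 0, 0, 0⟩ 426,
  .sub 1 0,
  .sub 408 428,
  .add 0 373,
  .scale ⟨2199023255552, 0, 0, 0⟩ 99,
  .sub 1 0,
  .mul 285 0,
  .mul 4 2,
  .add 0 434,
  .inv 0,
  .mul 3 0,
  .mul 273 152,
  .scale ⟨549755813888, 0, 0, 0⟩ 280,
  .add 422 0,
  .mul 2 0,
  .scale ⟨2199023255552, 0, 0, 0⟩ 0,
  .add 162 0,
  .scale ⟨2199023255552, 0, 0, 0⟩ 0,
  .mul 0 152,
  .mul 436 152,
  .sub 422 0,
  .inv 0,
  .mul 3 0,
  .sub 12 0,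
  .mul 290 290,
  .const ⟨14293651161088, 0, 0, 0⟩,
  .mul 0 122,
  .mul 2 0,
  .mul 455 455,
  .scale ⟨27487790694400, 0, 0, 0⟩ 0,
  .add 2 0,
  .mul 124 53,
  .sub 418 460,
  .sub 0 420,
  .mul 460 457,
  .mul 0 462,
  .mul 438 177,
  .mul 0 301,
  .add 192 0,
  .add 19 409,
  .mul 466 0,
  .mul 10 9,
  .mul 176 1,
  .mul 7 4,
  .mul 1 0,
  .sub 3 0,
  .scale ⟨549755813888, 0, 0, 0⟩ 26,
  .add 473 0,
  .mul 182 0,
  .mul 477 452,
  .mul 0 321,
  .mul 453 425,
  .inv 0,
  .mul 2 0,
  .mul 5 0,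
  .sub 21 0,
  .mul 324 10,
  .sub 483 325,
  .mul 472 2,
  .mul 1 0,
  .mul 29 0,
  .add 4 0,
  .pos 319,
  .pos 316,
  .scale ⟨2199023255552, 0, 0, 0⟩ 199,
  .sub 437 0,
  .pos 0,
  .pos 191,
  .sub 482 345,
  .pos 0,
  .scale ⟨687194767360, 0, 0, 0⟩ 491,
  .sub 0 243,
  .pos 0,
  .scale ⟨377957122048, 0, 0, 0⟩ 493,
  .sub 0 249,
  .pos 0,
  .pos 48,
  .pos 188,
  .sub 3 176,
  .pos 0,
  .pos 46,
  .pos 68,
  .pos 8,
  .pos 14]

def chk4 {α : Type} (cst : Z → α) (add sub mul : α → α → α) (scale : Z → α → α)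
    (neg inv exp log : α → α) (ok : α → Bool) (isPos : Nat → α → Bool) (isLt : α → Nat → Bool) :
    List α → Bool
  | [x0, x1, x2, x3] =>
  let v0 := cst ⟨1099511627776, 0, 0, 0⟩; ok v0 && (
  let v1 := mul x1 x2; ok v1 && (
  let v2 := mul v1 x0; ok v2 && (
  let v3 := mul x2 v2; ok v3 && (
  let v4 := mul x2 x2; ok v4 && (
  let v5 := mul x1 v4; ok v5 && (
  let v6 := mul v2 v2; ok v6 && (
  let v7 := mul x1 v5; ok v7 && (
  let v8 := cst ⟨549755813888, 0, 0, 0⟩; ok v8 && (
  let v9 := mul x1 v3; ok v9 && (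
  let v10 := mul v9 x3; ok v10 && (
  let v11 := scale ⟨549755813888, 0, 0, 0⟩ v10; ok v11 && (
  let v12 := mul v3 v3; ok v12 && (
  let v13 := mul v11 v11; ok v13 && (
  let v14 := sub v0 v13; ok v14 && (
  let v15 := inv v14; ok v15 && (
  let v16 := mul v11 v15; ok v16 && (
  let v17 := scale ⟨2199023255552, 0, 0, 0⟩ v16; ok v17 && (
  let v18 := scale ⟨2199023255552, 0, 0, 0⟩ v15; ok v18 && (
  let v19 := sub v18 v0; ok v19 && (
  let v20 := add v19 v17; ok v20 && (
  let v21 := mul x3 v15; ok v21 && (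
  let v22 := mul v3 v21; ok v22 && (
  let v23 := sub v0 v22; ok v23 && (
  let v24 := add v0 v22; ok v24 && (
  let v25 := mul x1 v12; ok v25 && (
  let v26 := mul v21 v21; ok v26 && (
  let v27 := scale ⟨10774999203840, 0, 0, 0⟩ v11; ok v27 && (
  let v28 := scale ⟨45768245248, 0, 0, 0⟩ v27; ok v28 && (
  let v29 := cst ⟨183207198720, 0, 0, 0⟩; ok v29 && (
  let v30 := add v28 v29; ok v30 && (
  let v31 := mul v27 v30; ok v31 && (
  let v32 := add v8 v31; ok v32 && (
  let v33 := mul v27 v32; ok v33 && (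
  let v34 := add v0 v33; ok v34 && (
  let v35 := mul v27 v34; ok v35 && (
  let v36 := scale ⟨549755813888, 0, 0, 0⟩ v35; ok v36 && (
  let v37 := add v0 v36; ok v37 && (
  let v38 := mul v34 v37; ok v38 && (
  let v39 := mul v17 v22; ok v39 && (
  let v40 := scale ⟨2199023255552, 0, 0, 0⟩ v19; ok v40 && (
  let v41 := add v39 v40; ok v41 && (
  let v42 := add v41 x1; ok v42 && (
  let v43 := mul v25 v42; ok v43 && (
  let v44 := add v43 v0; ok v44 && (
  let v45 := mul v17 v17; ok v45 && (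
  let v46 := scale ⟨2199023255552, 0, 0, 0⟩ v45; ok v46 && (
  let v47 := add v46 v0; ok v47 && (
  let v48 := mul v19 v42; ok v48 && (
  let v49 := sub v48 v0; ok v49 && (
  let v50 := log v44; ok v50 && (
  let v51 := scale ⟨549755813888, 0, 0, 0⟩ v50; ok v51 && (
  let v52 := exp v51; ok v52 && (
  let v53 := cst ⟨3298534883328, 0, 0, 0⟩; ok v53 && (
  let v54 := inv v53; ok v54 && (
  let v55 := mul v0 v54; ok v55 && (
  let v56 := cst ⟨2199023255552, 0, 0, 0⟩; ok v56 && (
  let v57 := add v43 v56; ok v57 && (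
  let v58 := inv v57; ok v58 && (
  let v59 := mul v43 v58; ok v59 && (
  let v60 := mul v59 v59; ok v60 && (
  let v61 := sub v0 v59; ok v61 && (
  let v62 := mul v60 v55; ok v62 && (
  let v63 := add v0 v62; ok v63 && (
  let v64 := mul v61 v63; ok v64 && (
  let v65 := mul v60 v60; ok v65 && (
  let v66 := scale ⟨219915747328, 0, 0, 0⟩ v65; ok v66 && (
  let v67 := mul v42 v64; ok v67 && (
  let v68 := scale ⟨549755813888, 0, 0, 0⟩ v67; ok v68 && (
  let v69 := mul v42 v66; ok v69 && (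
  let v70 := scale ⟨549755813888, 0, 0, 0⟩ v69; ok v70 && (
  let v71 := add v68 v70; ok v71 && (
  let v72 := mul v19 v49; ok v72 && (
  let v73 := scale ⟨4398046511104, 0, 0, 0⟩ v72; ok v73 && (
  let v74 := mul v19 v25; ok v74 && (
  let v75 := mul v74 v49; ok v75 && (
  let v76 := scale ⟨4398046511104, 0, 0, 0⟩ v75; ok v76 && (
  let v77 := add v76 v56; ok v77 && (
  let v78 := inv v77; ok v78 && (
  let v79 := mul v76 v78; ok v79 && (
  let v80 := mul v79 v79; ok v80 && (
  let v81 := sub v0 v79; ok v81 && (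
  let v82 := mul v80 v55; ok v82 && (
  let v83 := add v0 v82; ok v83 && (
  let v84 := mul v81 v83; ok v84 && (
  let v85 := mul v80 v80; ok v85 && (
  let v86 := scale ⟨219915747328, 0, 0, 0⟩ v85; ok v86 && (
  let v87 := mul v73 v84; ok v87 && (
  let v88 := scale ⟨549755813888, 0, 0, 0⟩ v87; ok v88 && (
  let v89 := sub v88 v71; ok v89 && (
  let v90 := mul v73 v86; ok v90 && (
  let v91 := scale ⟨549755813888, 0, 0, 0⟩ v90; ok v91 && (
  let v92 := add v91 v70; ok v92 && (
  let v93 := add v89 v92; ok v93 && (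
  let v94 := mul v5 v68; ok v94 && (
  let v95 := neg v94; ok v95 && (
  let v96 := exp v95; ok v96 && (
  let v97 := mul v5 v70; ok v97 && (
  let v98 := mul v96 v97; ok v98 && (
  let v99 := mul v22 v17; ok v99 && (
  let v100 := add v19 v99; ok v100 && (
  let v101 := inv v100; ok v101 && (
  let v102 := mul v24 v101; ok v102 && (
  let v103 := mul v23 x1; ok v103 && (
  let v104 := mul v103 v102; ok v104 && (
  let v105 := sub v0 v12; ok v105 && (
  let v106 := mul v26 v105; ok v106 && (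
  let v107 := mul v9 v9; ok v107 && (
  let v108 := sub v0 v26; ok v108 && (
  let v109 := mul v105 v108; ok v109 && (
  let v110 := mul v25 v49; ok v110 && (
  let v111 := inv v44; ok v111 && (
  let v112 := mul v110 v111; ok v112 && (
  let v113 := add v19 v112; ok v113 && (
  let v114 := mul v44 v113; ok v114 && (
  let v115 := mul v114 v114; ok v115 && (
  let v116 := inv v115; ok v116 && (
  let v117 := mul v109 v116; ok v117 && (
  let v118 := add v19 v25; ok v118 && (
  let v119 := mul x0 v118; ok v119 && (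
  let v120 := inv v119; ok v120 && (
  let v121 := mul v0 v120; ok v121 && (
  let v122 := mul v121 v121; ok v122 && (
  let v123 := mul v122 v109; ok v123 && (
  let v124 := mul v104 v0; ok v124 && (
  let v125 := scale ⟨549755813888, 0, 0, 0⟩ v124; ok v125 && (
  let v126 := sub v0 v125; ok v126 && (
  let v127 := sub v0 v124; ok v127 && (
  let v128 := inv v127; ok v128 && (
  let v129 := mul v126 v128; ok v129 && (
  let v130 := add v124 v0; ok v130 && (
  let v131 := mul v96 v130; ok v131 && (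
  let v132 := mul v102 v129; ok v132 && (
  let v133 := mul v132 v0; ok v133 && (
  let v134 := mul v124 v129; ok v134 && (
  isPos 4 v127 && (
  let v135 := mul v23 v24; ok v135 && (
  let v136 := add v19 x1; ok v136 && (
  let v137 := mul v22 v19; ok v137 && (
  let v138 := mul v137 v17; ok v138 && (
  let v139 := scale ⟨2199023255552, 0, 0, 0⟩ v138; ok v139 && (
  let v140 := add v47 v139; ok v140 && (
  let v141 := mul v136 v140; ok v141 && (
  let v142 := inv v141; ok v142 && (
  let v143 := mul v135 v142; ok v143 && (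
  let v144 := mul x1 v143; ok v144 && (
  isPos 4 v89 && (
  let v145 := mul v144 v0; ok v145 && (
  let v146 := mul v0 x0; ok v146 && (
  let v147 := add v11 v0; ok v147 && (
  let v148 := inv v147; ok v148 && (
  let v149 := mul v11 v148; ok v149 && (
  let v150 := scale ⟨2199023255552, 0, 0, 0⟩ v149; ok v150 && (
  let v151 := sub v0 v150; ok v151 && (
  let v152 := sub v0 v11; ok v152 && (
  let v153 := mul x3 v148; ok v153 && (
  let v154 := mul v153 v151; ok v154 && (
  let v155 := add v24 v154; ok v155 && (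
  let v156 := scale ⟨224412041216, 0, 0, 0⟩ v15; ok v156 && (
  let v157 := inv v38; ok v157 && (
  let v158 := mul v156 v157; ok v158 && (
  let v159 := scale ⟨4398046511104, 0, 0, 0⟩ x0; ok v159 && (
  let v160 := mul v0 v21; ok v160 && (
  let v161 := add v159 v160; ok v161 && (
  let v162 := inv v161; ok v162 && (
  let v163 := mul v0 v162; ok v163 && (
  let v164 := mul x0 v162; ok v164 && (
  let v165 := mul v164 v24; ok v165 && (
  let v166 := mul v165 v158; ok v166 && (
  let v167 := mul v163 v24; ok v167 && (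
  let v168 := mul v167 v158; ok v168 && (
  let v169 := sub v0 v168; ok v169 && (
  let v170 := inv v169; ok v170 && (
  let v171 := mul v131 v168; ok v171 && (
  let v172 := sub v0 v171; ok v172 && (
  let v173 := inv v172; ok v173 && (
  let v174 := scale ⟨2199023255552, 0, 0, 0⟩ v6; ok v174 && (
  let v175 := add v174 v0; ok v175 && (
  let v176 := add v6 v0; ok v176 && (
  let v177 := mul x0 v21; ok v177 && (
  let v178 := scale ⟨2199023255552, 0, 0, 0⟩ v177; ok v178 && (
  let v179 := scale ⟨549755813888, 0, 0, 0⟩ x1; ok v179 && (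
  let v180 := add v178 v179; ok v180 && (
  let v181 := mul x2 v180; ok v181 && (
  let v182 := scale ⟨549755813888, 0, 0, 0⟩ v181; ok v182 && (
  let v183 := mul v11 v21; ok v183 && (
  let v184 := sub v0 v106; ok v184 && (
  let v185 := mul v11 v22; ok v185 && (
  let v186 := scale ⟨2199023255552, 0, 0, 0⟩ v185; ok v186 && (
  let v187 := sub v184 v186; ok v187 && (
  let v188 := mul v183 v183; ok v188 && (
  let v189 := add v187 v188; ok v189 && (
  let v190 := add v189 v0; ok v190 && (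
  let v191 := scale ⟨549755813888, 0, 0, 0⟩ v190; ok v191 && (
  let v192 := scale ⟨549755813888, 0, 0, 0⟩ v25; ok v192 && (
  let v193 := sub v15 v192; ok v193 && (
  let v194 := mul v107 v184; ok v194 && (
  let v195 := mul v194 v14; ok v195 && (
  let v196 := scale ⟨137438953472, 0, 0, 0⟩ v195; ok v196 && (
  let v197 := add v193 v196; ok v197 && (
  let v198 := mul v191 v197; ok v198 && (
  let v199 := cst ⟨1, 0, 0, 0⟩; ok v199 && (
  let v200 := cst ⟨12, 0, 0, 0⟩; ok v200 && (
  let v201 := mul v123 v199; ok v201 && (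
  let v202 := sub v200 v201; ok v202 && (
  let v203 := cst ⟨2296, 0, 0, 0⟩; ok v203 && (
  let v204 := mul v123 v202; ok v204 && (
  let v205 := sub v203 v204; ok v205 && (
  let v206 := cst ⟨302995, 0, 0, 0⟩; ok v206 && (
  let v207 := mul v123 v205; ok v207 && (
  let v208 := sub v206 v207; ok v208 && (
  let v209 := cst ⟨27269634, 0, 0, 0⟩; ok v209 && (
  let v210 := mul v123 v208; ok v210 && (
  let v211 := sub v209 v210; ok v211 && (
  let v212 := cst ⟨1527099483, 0, 0, 0⟩; ok v212 && (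
  let v213 := mul v123 v211; ok v213 && (
  let v214 := sub v212 v213; ok v214 && (
  let v215 := cst ⟨45812984491, 0, 0, 0⟩; ok v215 && (
  let v216 := mul v123 v214; ok v216 && (
  let v217 := sub v215 v216; ok v217 && (
  let v218 := mul v123 v217; ok v218 && (
  let v219 := sub v8 v218; ok v219 && (
  let v220 := mul v123 v219; ok v220 && (
  let v221 := sub v0 v220; ok v221 && (
  let v222 := mul v123 v6; ok v222 && (
  let v223 := mul v96 v96; ok v223 && (
  let v224 := add v223 v0; ok v224 && (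
  let v225 := mul v222 v222; ok v225 && (
  let v226 := scale ⟨369367187456, 0, 0, 0⟩ v225; ok v226 && (
  let v227 := add v221 v226; ok v227 && (
  let v228 := mul v96 v227; ok v228 && (
  let v229 := scale ⟨2199023255552, 0, 0, 0⟩ v228; ok v229 && (
  let v230 := add v224 v229; ok v230 && (
  let v231 := scale ⟨2199023255552, 0, 0, 0⟩ v98; ok v231 && (
  let v232 := add v230 v231; ok v232 && (
  let v233 := cst ⟨8589934592, 0, 0, 0⟩; ok v233 && (
  let v234 := add v232 v233; ok v234 && (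
  let v235 := log v234; ok v235 && (
  let v236 := scale ⟨549755813888, 0, 0, 0⟩ v235; ok v236 && (
  let v237 := exp v236; ok v237 && (
  let v238 := mul v96 v124; ok v238 && (
  let v239 := add v237 v238; ok v239 && (
  let v240 := mul v239 v170; ok v240 && (
  let v241 := mul v131 v173; ok v241 && (
  let v242 := add v240 v241; ok v242 && (
  let v243 := mul v168 v242; ok v243 && (
  let v244 := add v134 v243; ok v244 && (
  let v245 := mul v244 v6; ok v245 && (
  let v246 := mul v239 v168; ok v246 && (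
  let v247 := mul v246 v170; ok v247 && (
  let v248 := add v134 v247; ok v248 && (
  let v249 := mul v248 v6; ok v249 && (
  let v250 := scale ⟨223338299392, 0, 0, 0⟩ v249; ok v250 && (
  let v251 := add v8 v250; ok v251 && (
  let v252 := mul v249 v251; ok v252 && (
  let v253 := add v0 v252; ok v253 && (
  let v254 := scale ⟨893353197568, 0, 0, 0⟩ v245; ok v254 && (
  let v255 := add v0 v254; ok v255 && (
  let v256 := mul v245 v255; ok v256 && (
  let v257 := add v0 v256; ok v257 && (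
  let v258 := mul v150 v153; ok v258 && (
  let v259 := mul v258 v175; ok v259 && (
  let v260 := mul v259 v257; ok v260 && (
  let v261 := mul v198 v253; ok v261 && (
  let v262 := add v52 v8; ok v262 && (
  let v263 := mul v260 v262; ok v263 && (
  let v264 := add v261 v263; ok v264 && (
  let v265 := add v52 v0; ok v265 && (
  let v266 := mul v260 v265; ok v266 && (
  let v267 := mul v176 v265; ok v267 && (
  let v268 := mul v267 v153; ok v268 && (
  let v269 := mul v268 v152; ok v269 && (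
  let v270 := mul v264 v133; ok v270 && (
  let v271 := mul v269 v182; ok v271 && (
  let v272 := add v270 v271; ok v272 && (
  let v273 := mul v5 v155; ok v273 && (
  let v274 := inv v52; ok v274 && (
  let v275 := mul v273 v274; ok v275 && (
  let v276 := scale ⟨549755813888, 0, 0, 0⟩ v275; ok v276 && (
  let v277 := mul v23 v276; ok v277 && (
  let v278 := add v277 v272; ok v278 && (
  let v279 := mul x1 v278; ok v279 && (
  let v280 := mul x0 v279; ok v280 && (
  let v281 := mul v264 v239; ok v281 && (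
  let v282 := mul v281 v170; ok v282 && (
  let v283 := mul v266 v131; ok v283 && (
  let v284 := mul v283 v173; ok v284 && (
  let v285 := add v282 v284; ok v285 && (
  let v286 := mul v23 v280; ok v286 && (
  let v287 := mul v166 v285; ok v287 && (
  let v288 := add v286 v287; ok v288 && (
  let v289 := mul v107 v288; ok v289 && (
  let v290 := mul v289 v274; ok v290 && (
  let v291 := sub v0 v290; ok v291 && (
  let v292 := inv v291; ok v292 && (
  let v293 := mul v288 v292; ok v293 && (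
  let v294 := mul x1 v293; ok v294 && (
  let v295 := mul v107 v293; ok v295 && (
  let v296 := mul v295 v274; ok v296 && (
  let v297 := sub v0 v296; ok v297 && (
  let v298 := mul v49 v297; ok v298 && (
  let v299 := sub v298 v294; ok v299 && (
  let v300 := inv v299; ok v300 && (
  let v301 := mul v294 v300; ok v301 && (
  let v302 := sub v52 v295; ok v302 && (
  let v303 := inv v302; ok v303 && (
  let v304 := mul v301 v0; ok v304 && (
  let v305 := scale ⟨549755813888, 0, 0, 0⟩ v304; ok v305 && (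
  let v306 := sub v0 v305; ok v306 && (
  let v307 := sub v0 v304; ok v307 && (
  let v308 := inv v307; ok v308 && (
  let v309 := mul v306 v308; ok v309 && (
  let v310 := mul v3 v303; ok v310 && (
  let v311 := mul v146 v300; ok v311 && (
  let v312 := mul v311 v309; ok v312 && (
  let v313 := add v310 v312; ok v313 && (
  let v314 := mul v7 v293; ok v314 && (
  let v315 := mul v303 v314; ok v315 && (
  let v316 := mul v0 v300; ok v316 && (
  let v317 := mul v316 v309; ok v317 && (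
  let v318 := mul v317 v294; ok v318 && (
  let v319 := add v315 v318; ok v319 && (
  let v320 := scale ⟨223338299392, 0, 0, 0⟩ v319; ok v320 && (
  let v321 := add v8 v320; ok v321 && (
  let v322 := mul v319 v321; ok v322 && (
  let v323 := add v0 v322; ok v323 && (
  let v324 := mul v313 v323; ok v324 && (
  let v325 := mul v324 v292; ok v325 && (
  let v326 := mul v325 v285; ok v326 && (
  let v327 := mul v167 v23; ok v327 && (
  let v328 := cst ⟨7696581394432, 0, 0, 0⟩; ok v328 && (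
  let v329 := cst ⟨10995116277760, 0, 0, 0⟩; ok v329 && (
  let v330 := inv v329; ok v330 && (
  let v331 := mul v328 v330; ok v331 && (
  let v332 := mul v147 v24; ok v332 && (
  let v333 := mul v332 v331; ok v333 && (
  let v334 := mul v136 v101; ok v334 && (
  let v335 := mul v22 v334; ok v335 && (
  let v336 := scale ⟨549755813888, 0, 0, 0⟩ v145; ok v336 && (
  let v337 := sub v0 v336; ok v337 && (
  let v338 := sub v0 v145; ok v338 && (
  let v339 := inv v338; ok v339 && (
  let v340 := mul v337 v339; ok v340 && (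
  let v341 := mul v340 v144; ok v341 && (
  let v342 := mul v107 v117; ok v342 && (
  let v343 := scale ⟨733097230336, 0, 0, 0⟩ v342; ok v343 && (
  let v344 := sub v0 v343; ok v344 && (
  let v345 := mul v117 v344; ok v345 && (
  let v346 := mul v89 v89; ok v346 && (
  let v347 := mul v12 v346; ok v347 && (
  let v348 := add v345 v347; ok v348 && (
  let v349 := mul v341 v146; ok v349 && (
  let v350 := add v348 v0; ok v350 && (
  let v351 := mul v349 v350; ok v351 && (
  let v352 := sub v348 v351; ok v352 && (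
  let v353 := scale ⟨366548615168, 0, 0, 0⟩ v45; ok v353 && (
  let v354 := sub v0 v353; ok v354 && (
  let v355 := mul v26 v354; ok v355 && (
  let v356 := add v352 v355; ok v356 && (
  let v357 := mul v334 v356; ok v357 && (
  let v358 := mul v335 v335; ok v358 && (
  let v359 := add v0 v358; ok v359 && (
  let v360 := inv v359; ok v360 && (
  let v361 := mul v357 v360; ok v361 && (
  let v362 := sub v0 v301; ok v362 && (
  let v363 := mul v362 v361; ok v363 && (
  let v364 := sub v0 v349; ok v364 && (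
  isPos 4 v364 && (
  isPos 4 v361 && (
  isPos 4 v362 && (
  let v365 := mul v325 v161; ok v365 && (
  let v366 := mul v365 v278; ok v366 && (
  let v367 := inv v24; ok v367 && (
  let v368 := mul v366 v367; ok v368 && (
  let v369 := mul v4 v363; ok v369 && (
  let v370 := mul x1 v369; ok v370 && (
  let v371 := scale ⟨549755813888, 0, 0, 0⟩ v370; ok v371 && (
  let v372 := sub v0 v371; ok v372 && (
  let v373 := mul v369 v372; ok v373 && (
  let v374 := neg v373; ok v374 && (
  let v375 := mul v3 x3; ok v375 && (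
  let v376 := mul v375 v147; ok v376 && (
  let v377 := mul v376 v15; ok v377 && (
  let v378 := mul v0 v377; ok v378 && (
  let v379 := add v374 v378; ok v379 && (
  let v380 := mul v374 v378; ok v380 && (
  let v381 := mul x1 v380; ok v381 && (
  let v382 := add v379 v381; ok v382 && (
  let v383 := mul v12 v42; ok v383 && (
  let v384 := scale ⟨412316860416, 0, 0, 0⟩ v43; ok v384 && (
  let v385 := sub v8 v384; ok v385 && (
  let v386 := mul v383 v385; ok v386 && (
  let v387 := mul v0 v386; ok v387 && (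
  let v388 := neg v387; ok v388 && (
  let v389 := add v382 v388; ok v389 && (
  let v390 := mul v382 v388; ok v390 && (
  let v391 := mul x1 v390; ok v391 && (
  let v392 := add v389 v391; ok v392 && (
  let v393 := mul v3 v293; ok v393 && (
  let v394 := mul v393 v367; ok v394 && (
  let v395 := mul v0 v394; ok v395 && (
  let v396 := add v392 v395; ok v396 && (
  let v397 := mul v392 v395; ok v397 && (
  let v398 := mul x1 v397; ok v398 && (
  let v399 := add v396 v398; ok v399 && (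
  let v400 := mul v0 v333; ok v400 && (
  let v401 := sub v399 v400; ok v401 && (
  let v402 := mul x1 v333; ok v402 && (
  let v403 := add v0 v402; ok v403 && (
  let v404 := inv v403; ok v404 && (
  let v405 := mul v401 v404; ok v405 && (
  let v406 := mul v3 v9; ok v406 && (
  let v407 := mul v406 v293; ok v407 && (
  let v408 := mul v407 v303; ok v408 && (
  let v409 := mul v0 v408; ok v409 && (
  let v410 := add v405 v409; ok v410 && (
  let v411 := mul v405 v409; ok v411 && (
  let v412 := mul x1 v411; ok v412 && (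
  let v413 := add v410 v412; ok v413 && (
  let v414 := mul x1 v413; ok v414 && (
  let v415 := add v0 v414; ok v415 && (
  let v416 := mul v326 v168; ok v416 && (
  let v417 := mul x1 v327; ok v417 && (
  let v418 := mul v368 v417; ok v418 && (
  let v419 := add v416 v418; ok v419 && (
  let v420 := mul v0 v419; ok v420 && (
  let v421 := add v326 v368; ok v421 && (
  let v422 := mul v0 v421; ok v422 && (
  let v423 := mul v420 v415; ok v423 && (
  let v424 := add v413 v423; ok v424 && (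
  let v425 := add v424 v422; ok v425 && (
  let v426 := neg v425; ok v426 && (
  let v427 := scale ⟨1073741824, 0, 0, 0⟩ v0; ok v427 && (
  let v428 := sub v426 v427; ok v428 && (
  let v429 := sub v20 v0; ok v429 && (
  let v430 := add v429 v56; ok v430 && (
  let v431 := scale ⟨2199023255552, 0, 0, 0⟩ v331; ok v431 && (
  let v432 := sub v430 v431; ok v432 && (
  let v433 := mul v147 v432; ok v433 && (
  let v434 := mul v429 v431; ok v434 && (
  let v435 := add v434 v0; ok v435 && (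
  let v436 := inv v435; ok v436 && (
  let v437 := mul v433 v436; ok v437 && (
  let v438 := mul v164 v285; ok v438 && (
  let v439 := scale ⟨549755813888, 0, 0, 0⟩ v158; ok v439 && (
  let v440 := add v17 v439; ok v440 && (
  let v441 := mul v438 v440; ok v441 && (
  let v442 := scale ⟨2199023255552, 0, 0, 0⟩ v441; ok v442 && (
  let v443 := add v280 v442; ok v443 && (
  let v444 := scale ⟨2199023255552, 0, 0, 0⟩ v443; ok v444 && (
  let v445 := mul v444 v292; ok v445 && (
  let v446 := mul v9 v293; ok v446 && (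
  let v447 := sub v24 v446; ok v447 && (
  let v448 := inv v447; ok v448 && (
  let v449 := mul v445 v448; ok v449 && (
  let v450 := sub v437 v449; ok v450 && (
  let v451 := mul v160 v160; ok v451 && (
  let v452 := cst ⟨14293651161088, 0, 0, 0⟩; ok v452 && (
  let v453 := mul v452 v330; ok v453 && (
  let v454 := mul v451 v453; ok v454 && (
  let v455 := mul x0 x0; ok v455 && (
  let v456 := scale ⟨27487790694400, 0, 0, 0⟩ v455; ok v456 && (
  let v457 := add v454 v456; ok v457 && (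
  let v458 := mul v333 v404; ok v458 && (
  let v459 := sub v40 x1; ok v459 && (
  let v460 := sub v459 v39; ok v460 && (
  let v461 := mul v0 v3; ok v461 && (
  let v462 := mul v461 x0; ok v462 && (
  let v463 := mul v24 v285; ok v463 && (
  let v464 := mul v463 v162; ok v464 && (
  let v465 := add v272 v464; ok v465 && (
  let v466 := add v446 v56; ok v466 && (
  let v467 := mul v0 v466; ok v467 && (
  let v468 := mul v457 v458; ok v468 && (
  let v469 := mul v292 v467; ok v469 && (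
  let v470 := mul v462 v465; ok v470 && (
  let v471 := mul v469 v470; ok v471 && (
  let v472 := sub v468 v471; ok v472 && (
  let v473 := scale ⟨549755813888, 0, 0, 0⟩ v446; ok v473 && (
  let v474 := add v0 v473; ok v474 && (
  let v475 := mul v292 v474; ok v475 && (
  let v476 := mul x1 v23; ok v476 && (
  let v477 := mul v476 v155; ok v477 && (
  let v478 := mul v24 v52; ok v478 && (
  let v479 := inv v478; ok v479 && (
  let v480 := mul v477 v479; ok v480 && (
  let v481 := mul v475 v480; ok v481 && (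
  let v482 := sub v460 v481; ok v482 && (
  let v483 := mul v158 v472; ok v483 && (
  let v484 := sub v0 v158; ok v484 && (
  let v485 := mul v12 v482; ok v485 && (
  let v486 := mul v484 v485; ok v486 && (
  let v487 := mul v457 v486; ok v487 && (
  let v488 := add v483 v487; ok v488 && (
  isPos 4 v169 && (
  isPos 4 v172 && (
  let v489 := scale ⟨2199023255552, 0, 0, 0⟩ v289; ok v489 && (
  let v490 := sub v52 v489; ok v490 && (
  isPos 4 v490 && (
  isPos 4 v299 && (
  let v491 := sub v8 v145; ok v491 && (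
  isPos 4 v491 && (
  let v492 := scale ⟨687194767360, 0, 0, 0⟩ v0; ok v492 && (
  let v493 := sub v492 v249; ok v493 && (
  isPos 4 v493 && (
  let v494 := scale ⟨377957122048, 0, 0, 0⟩ v0; ok v494 && (
  let v495 := sub v494 v245; ok v495 && (
  isPos 4 v495 && (
  isPos 4 v447 && (
  isPos 4 v307 && (
  let v496 := sub v492 v319; ok v496 && (
  isPos 4 v496 && (
  isPos 4 v450 && (
  isPos 4 v428 && (
  isPos 4 v488 && (
  isPos 4 v482 && (
  true))))))))))))))))))))))))))))))))))))))))))))))))))))))))))))))))))))))))))))))))))))))))))))))))))))))))))))))))))))))))))))))))))))))))))))))))))))))))))))))))))))))))))))))))))))))))))))))))))))))))))))))))))))))))))))))))))))))))))))))))))))))))))))))))))))))))))))))))))))))))))))))))))))))))))))))))))))))))))))))))))))))))))))))))))))))))))))))))))))))))))))))))))))))))))))))))))))))))))))))))))))))))))))))))))))))))))))))))))))))))))))))))))))))))))))))))))))))))))))))))))))))))))))))))))))))))))))))))))))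
  | _ => false

set_option maxRecDepth 1000000 in
theorem chk4_eq (O : Ops) (m : List O.α)
    (h : chk4 O.cst O.add O.sub O.mul O.scale O.neg O.inv O.exp O.log O.ok O.isPos O.isLt m = true) :
    runG O 4 prog4 m = true := by
  match m, h with
  | [x0, x1, x2, x3], h => exact h

def chkB4 : List opsE.α → Bool :=
  chk4 opsE.cst opsE.add opsE.sub opsE.mul opsE.scale opsE.neg opsE.inv opsE.exp opsE.log opsE.ok opsE.isPos opsE.isLt

theorem chkB4_eq (m : List opsE.α) (h : chkB4 m = true) : runG opsE 4 prog4 m = true :=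
  chk4_eq opsE m h

def prog5 : List Op := [
  .const ⟨1099511627776, 0, 0, 0⟩,
  .mul 2 3,
  .mul 0 2,
  .mul 5 0,
  .mul 6 6,
  .mul 6 0,
  .mul 3 3,
  .mul 8 1,
  .const ⟨549755813888, 0, 0, 0⟩,
  .mul 10 5,
  .mul 0 13,
  .scale ⟨549755813888, 0, 0, 0⟩ 0,
  .mul 8 8,
  .mul 1 1,
  .sub 13 0,
  .inv 0,
  .mul 4 0,
  .scale ⟨2199023255552, 0, 0, 0⟩ 0,
  .scale ⟨2199023255552, 0, 0, 0⟩ 2,
  .sub 0 18,
  .add 0 2,
  .mul 24 5,
  .mul 18 0,
  .sub 22 0,
  .add 23 1,
  .mul 26 12,
  .mul 4 4,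
  .scale ⟨10774999203840, 0, 0, 0⟩ 15,
  .scale ⟨45768245248, 0, 0, 0⟩ 0,
  .const ⟨183207198720, 0, 0, 0⟩,
  .add 1 0,
  .mul 3 0,
  .add 23 0,
  .mul 5 0,
  .add 33 0,
  .mul 7 0,
  .scale ⟨549755813888, 0, 0, 0⟩ 0,
  .add 36 0,
  .mul 3 0,
  .mul 21 16,
  .scale ⟨2199023255552, 0, 0, 0⟩ 20,
  .add 1 0,
  .add 0 43,
  .mul 17 0,
  .add 0 43,
  .mul 27 27,
  .scale ⟨2199023255552, 0, 0, 0⟩ 0,
  .add 0 46,
  .mul 28 5,
  .sub 0 48,
  .log 5,
  .scale ⟨549755813888, 0, 0, 0⟩ 0,
  .exp 0,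
  .const ⟨3298534883328, 0, 0, 0⟩,
  .inv 0,
  .mul 54 0,
  .const ⟨2199023255552, 0, 0, 0⟩,
  .add 13 0,
  .inv 0,
  .mul 15 0,
  .mul 0 0,
  .sub 60 1,
  .mul 1 6,
  .add 62 0,
  .mul 2 0,
  .mul 4 4,
  .scale ⟨219915747328, 0, 0, 0⟩ 0,
  .mul 24 2,
  .scale ⟨549755813888, 0, 0, 0⟩ 0,
  .mul 26 2,
  .scale ⟨549755813888, 0, 0, 0⟩ 0,
  .add 2 0,
  .mul 52 22,
  .scale ⟨4398046511104, 0, 0, 0⟩ 0,
  .mul 54 48,
  .mul 0 25,
  .scale ⟨4398046511104, 0, 0, 0⟩ 0,
  .add 0 20,
  .inv 0,
  .mul 2 0,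
  .mul 0 0,
  .sub 80 1,
  .mul 1 26,
  .add 82 0,
  .mul 2 0,
  .mul 4 4,
  .scale ⟨219915747328, 0, 0, 0⟩ 0,
  .mul 13 2,
  .scale ⟨549755813888, 0, 0, 0⟩ 0,
  .sub 0 17,
  .mul 16 3,
  .scale ⟨549755813888, 0, 0, 0⟩ 0,
  .add 0 21,
  .add 3 0,
  .mul 88 25,
  .neg 0,
  .exp 0,
  .mul 91 26,
  .mul 1 0,
  .mul 76 81,
  .add 80 0,
  .inv 0,
  .mul 77 0,
  .mul 79 104,
  .mul 0 1,
  .sub 104 92,
  .mul 79 0,
  .mul 97 97,
  .sub 107 81,
  .mul 3 0,
  .mul 84 60,
  .inv 66,
  .mul 1 0,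
  .add 93 0,
  .mul 69 0,
  .mul 0 0,
  .inv 0,
  .mul 7 0,
  .add 98 92,
  .mul 119 0,
  .inv 0,
  .mul 120 0,
  .mul 0 0,
  .mul 0 13,
  .mul 19 123,
  .scale ⟨549755813888, 0, 0, 0⟩ 0,
  .sub 125 0,
  .sub 126 2,
  .inv 0,
  .mul 2 0,
  .add 5 129,
  .mul 34 0,
  .mul 29 2,
  .mul 0 132,
  .mul 9 4,
  .pos 7,
  .mul 111 110,
  .add 116 137,
  .mul 114 117,
  .mul 0 120,
  .scale ⟨2199023255552, 0, 0, 0⟩ 0,
  .add 92 0,
  .mul 4 0,
  .inv 0,
  .mul 7 0,
  .mul 145 0,
  .pos 55,
  .mul 0 144,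
  .mul 145 146,
  .add 135 146,
  .inv 0,
  .mul 137 0,
  .scale ⟨2199023255552, 0, 0, 0⟩ 0,
  .sub 150 0,
  .sub 151 140,
  .mul 156 4,
  .mul 0 2,
  .add 130 0,
  .scale ⟨224412041216, 0, 0, 0⟩ 140,
  .inv 118,
  .mul 1 0,
  .scale ⟨4398046511104, 0, 0, 0⟩ 159,
  .mul 159 138,
  .add 1 0,
  .inv 0,
  .mul 162 0,
  .mul 164 1,
  .mul 0 140,
  .mul 0 7,
  .mul 3 142,
  .mul 0 9,
  .sub 168 0,
  .inv 0,
  .mul 39 2,
  .sub 171 0,
  .inv 0,
  .scale ⟨2199023255552, 0, 0, 0⟩ 167,
  .add 0 174,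
  .add 169 175,
  .scale ⟨3573412790272, 0, 0, 0⟩ 154,
  .const ⟨339302416384, 0, 0, 0⟩,
  .add 1 0,
  .scale ⟨549755813888, 0, 0, 0⟩ 0,
  .mul 169 159,
  .sub 181 75,
  .mul 171 160,
  .scale ⟨2199023255552, 0, 0, 0⟩ 0,
  .sub 2 0,
  .mul 4 4,
  .add 1 0,
  .add 0 187,
  .scale ⟨549755813888, 0, 0, 0⟩ 0,
  .scale ⟨549755813888, 0, 0, 0⟩ 164,
  .sub 175 0,
  .mul 84 9,
  .mul 0 178,
  .scale ⟨137438953472, 0, 0, 0⟩ 0,
  .add 3 0,
  .mul 6 0,
  .const ⟨1, 0, 0, 0⟩,
  .const ⟨12, 0, 0, 0⟩,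
  .mul 75 1,
  .sub 1 0,
  .const ⟨2296, 0, 0, 0⟩,
  .mul 78 1,
  .sub 1 0,
  .const ⟨302995, 0, 0, 0⟩,
  .mul 81 1,
  .sub 1 0,
  .const ⟨27269634, 0, 0, 0⟩,
  .mul 84 1,
  .sub 1 0,
  .const ⟨1527099483, 0, 0, 0⟩,
  .mul 87 1,
  .sub 1 0,
  .const ⟨45812984491, 0, 0, 0⟩,
  .mul 90 1,
  .sub 1 0,
  .mul 92 0,
  .sub 208 0,
  .mul 94 0,
  .sub 218 0,
  .mul 96 213,
  .mul 124 124,
  .add 0 221,
  .mul 2 2,
  .scale ⟨369367187456, 0, 0, 0⟩ 0,
  .add 5 0,
  .mul 129 0,
  .scale ⟨2199023255552, 0, 0, 0⟩ 0,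
  .add 5 0,
  .scale ⟨2199023255552, 0, 0, 0⟩ 130,
  .add 1 0,
  .const ⟨8589934592, 0, 0, 0⟩,
  .add 1 0,
  .log 0,
  .scale ⟨549755813888, 0, 0, 0⟩ 0,
  .exp 0,
  .mul 139 111,
  .add 1 0,
  .mul 0 67,
  .mul 107 65,
  .add 1 0,
  .mul 72 0,
  .add 107 0,
  .mul 0 236,
  .mul 6 75,
  .mul 0 74,
  .add 111 0,
  .mul 0 240,
  .scale ⟨223338299392, 0, 0, 0⟩ 0,
  .add 240 0,
  .mul 2 0,
  .add 250 0,
  .scale ⟨893353197568, 0, 0, 0⟩ 8,
  .add 252 0,
  .mul 10 0,
  .add 254 0,
  .mul 105 102,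
  .mul 0 81,
  .mul 0 2,
  .mul 62 7,
  .add 207 251,
  .mul 2 0,
  .add 2 0,
  .add 210 262,
  .mul 5 0,
  .mul 88 1,
  .mul 0 112,
  .mul 0 114,
  .mul 5 134,
  .mul 1 88,
  .add 1 0,
  .mul 265 115,
  .inv 219,
  .mul 1 0,
  .scale ⟨549755813888, 0, 0, 0⟩ 0,
  .mul 251 0,
  .add 0 5,
  .mul 278 0,
  .mul 278 0,
  .mul 16 41,
  .mul 0 109,
  .mul 16 149,
  .mul 0 108,
  .add 2 0,
  .mul 260 5,
  .mul 118 1,
  .add 1 0,
  .mul 179 0,
  .mul 0 15,
  .sub 288 0,
  .inv 0,
  .mul 4 0,
  .mul 293 0,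
  .mul 185 1,
  .mul 0 21,
  .sub 294 0,
  .mul 246 0,
  .sub 0 4,
  .inv 0,
  .mul 6 0,
  .sub 247 6,
  .inv 0,
  .mul 2 301,
  .scale ⟨549755813888, 0, 0, 0⟩ 0,
  .sub 303 0,
  .sub 304 2,
  .inv 0,
  .mul 2 0,
  .mul 304 6,
  .mul 162 10,
  .mul 0 2,
  .add 2 0,
  .mul 304 20,
  .mul 11 0,
  .mul 313 15,
  .mul 0 7,
  .mul 0 23,
  .add 3 0,
  .scale ⟨223338299392, 0, 0, 0⟩ 0,
  .add 310 0,
  .mul 2 0,
  .add 320 0,
  .mul 10 0,
  .mul 0 32,
  .mul 0 40,
  .mul 157 301,
  .const ⟨7696581394432, 0, 0, 0⟩,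
  .const ⟨10995116277760, 0, 0, 0⟩,
  .inv 0,
  .mul 2 0,
  .mul 182 305,
  .mul 0 1,
  .mul 195 230,
  .mul 310 0,
  .scale ⟨549755813888, 0, 0, 0⟩ 188,
  .sub 334 0,
  .sub 335 190,
  .inv 0,
  .mul 2 0,
  .mul 0 194,
  .mul 232 222,
  .scale ⟨733097230336, 0, 0, 0⟩ 0,
  .sub 341 0,
  .mul 225 0,
  .mul 254 254,
  .mul 332 0,
  .add 2 0,
  .mul 7 200,
  .add 1 347,
  .mul 1 0,
  .sub 3 0,
  .scale ⟨366548615168, 0, 0, 0⟩ 305,
  .sub 351 0,
  .mul 326 0,
  .add 3 0,
  .mul 22 0,
  .mul 22 22,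
  .add 356 0,
  .inv 0,
  .mul 3 0,
  .sub 359 60,
  .mul 0 1,
  .sub 361 14,
  .pos 0,
  .pos 3,
  .pos 2,
  .mul 39 201,
  .mul 0 87,
  .inv 340,
  .mul 1 0,
  .mul 362 5,
  .mul 369 0,
  .scale ⟨549755813888, 0, 0, 0⟩ 0,
  .sub 369 0,
  .mul 3 0,
  .neg 0,
  .mul 369 376,
  .mul 0 226,
  .mul 0 359,
  .mul 375 0,
  .add 4 0,
  .mul 5 1,
  .mul 380 0,
  .add 2 0,
  .mul 368 338,
  .scale ⟨412316860416, 0, 0, 0⟩ 338,
  .sub 374 0,
  .mul 2 0,
  .mul 384 0,
  .neg 0,
  .add 6 0,
  .mul 7 1,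
  .mul 390 0,
  .add 2 0,
  .mul 387 99,
  .mul 0 26,
  .mul 392 0,
  .add 3 0,
  .mul 4 1,
  .mul 397 0,
  .add 2 0,
  .mul 397 66,
  .sub 1 0,
  .mul 401 68,
  .add 400 0,
  .inv 0,
  .mul 3 0,
  .mul 400 394,
  .mul 0 113,
  .mul 0 104,
  .mul 406 0,
  .add 4 0,
  .mul 5 1,
  .mul 411 0,
  .add 2 0,
  .mul 413 0,
  .add 412 0,
  .mul 89 245,
  .mul 416 89,
  .mul 49 0,
  .add 2 0,
  .mul 417 0,
  .add 94 52,
  .mul 419 0,
  .mul 2 7,
  .add 10 0,
  .add 0 2,
  .neg 0,
  .scale ⟨1073741824, 0, 0, 0⟩ 424,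
  .sub 1 0,
  .sub 406 426,
  .add 0 371,
  .scale ⟨2199023255552, 0, 0, 0⟩ 99,
  .sub 1 0,
  .mul 283 0,
  .mul 4 2,
  .add 0 432,
  .inv 0,
  .mul 3 0,
  .mul 271 152,
  .scale ⟨549755813888, 0, 0, 0⟩ 278,
  .add 420 0,
  .mul 2 0,
  .scale ⟨2199023255552, 0, 0, 0⟩ 0,
  .add 162 0,
  .scale ⟨2199023255552, 0, 0, 0⟩ 0,
  .mul 0 152,
  .mul 434 152,
  .sub 420 0,
  .inv 0,
  .mul 3 0,
  .sub 12 0,
  .mul 288 288,
  .const ⟨14293651161088, 0, 0, 0⟩,
  .mul 0 122,
  .mul 2 0,
  .mul 453 453,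
  .scale ⟨27487790694400, 0, 0, 0⟩ 0,
  .add 2 0,
  .mul 124 53,
  .sub 416 458,
  .sub 0 418,
  .mul 458 455,
  .mul 0 460,
  .mul 436 177,
  .mul 0 299,
  .add 192 0,
  .add 19 407,
  .mul 464 0,
  .mul 10 9,
  .mul 176 1,
  .mul 7 4,
  .mul 1 0,
  .sub 3 0,
  .scale ⟨549755813888, 0, 0, 0⟩ 26,
  .add 471 0,
  .mul 182 0,
  .mul 475 450,
  .mul 0 319,
  .mul 451 423,
  .inv 0,
  .mul 2 0,
  .mul 5 0,
  .sub 21 0,
  .mul 322 10,
  .sub 481 323,
  .mul 470 2,
  .mul 1 0,
  .mul 29 0,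
  .add 4 0,
  .pos 317,
  .pos 314,
  .scale ⟨2199023255552, 0, 0, 0⟩ 199,
  .sub 435 0,
  .pos 0,
  .pos 191,
  .sub 480 343,
  .pos 0,
  .scale ⟨687194767360, 0, 0, 0⟩ 489,
  .sub 0 243,
  .pos 0,
  .scale ⟨377957122048, 0, 0, 0⟩ 491,
  .sub 0 249,
  .pos 0,
  .pos 48,
  .pos 188,
  .sub 3 176,
  .pos 0,
  .pos 46,
  .pos 68,
  .pos 8,
  .pos 14]

def chk5 {α : Type} (cst : Z → α) (add sub mul : α → α → α) (scale : Z → α → α)
    (neg inv exp log : α → α) (ok : α → Bool) (isPos : Nat → α → Bool) (isLt : α → Nat → Bool) :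
    List α → Bool
  | [x0, x1, x2, x3] =>
  let v0 := cst ⟨1099511627776, 0, 0, 0⟩; ok v0 && (
  let v1 := mul x1 x2; ok v1 && (
  let v2 := mul v1 x0; ok v2 && (
  let v3 := mul x2 v2; ok v3 && (
  let v4 := mul x2 x2; ok v4 && (
  let v5 := mul x1 v4; ok v5 && (
  let v6 := mul v2 v2; ok v6 && (
  let v7 := mul x1 v5; ok v7 && (
  let v8 := cst ⟨549755813888, 0, 0, 0⟩; ok v8 && (
  let v9 := mul x1 v3; ok v9 && (
  let v10 := mul v9 x3; ok v10 && (
  let v11 := scale ⟨549755813888, 0, 0, 0⟩ v10; ok v11 && (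
  let v12 := mul v3 v3; ok v12 && (
  let v13 := mul v11 v11; ok v13 && (
  let v14 := sub v0 v13; ok v14 && (
  let v15 := inv v14; ok v15 && (
  let v16 := mul v11 v15; ok v16 && (
  let v17 := scale ⟨2199023255552, 0, 0, 0⟩ v16; ok v17 && (
  let v18 := scale ⟨2199023255552, 0, 0, 0⟩ v15; ok v18 && (
  let v19 := sub v18 v0; ok v19 && (
  let v20 := add v19 v17; ok v20 && (
  let v21 := mul x3 v15; ok v21 && (
  let v22 := mul v3 v21; ok v22 && (
  let v23 := sub v0 v22; ok v23 && (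
  let v24 := add v0 v22; ok v24 && (
  let v25 := mul x1 v12; ok v25 && (
  let v26 := mul v21 v21; ok v26 && (
  let v27 := scale ⟨10774999203840, 0, 0, 0⟩ v11; ok v27 && (
  let v28 := scale ⟨45768245248, 0, 0, 0⟩ v27; ok v28 && (
  let v29 := cst ⟨183207198720, 0, 0, 0⟩; ok v29 && (
  let v30 := add v28 v29; ok v30 && (
  let v31 := mul v27 v30; ok v31 && (
  let v32 := add v8 v31; ok v32 && (
  let v33 := mul v27 v32; ok v33 && (
  let v34 := add v0 v33; ok v34 && (
  let v35 := mul v27 v34; ok v35 && (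
  let v36 := scale ⟨549755813888, 0, 0, 0⟩ v35; ok v36 && (
  let v37 := add v0 v36; ok v37 && (
  let v38 := mul v34 v37; ok v38 && (
  let v39 := mul v17 v22; ok v39 && (
  let v40 := scale ⟨2199023255552, 0, 0, 0⟩ v19; ok v40 && (
  let v41 := add v39 v40; ok v41 && (
  let v42 := add v41 x1; ok v42 && (
  let v43 := mul v25 v42; ok v43 && (
  let v44 := add v43 v0; ok v44 && (
  let v45 := mul v17 v17; ok v45 && (
  let v46 := scale ⟨2199023255552, 0, 0, 0⟩ v45; ok v46 && (
  let v47 := add v46 v0; ok v47 && (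
  let v48 := mul v19 v42; ok v48 && (
  let v49 := sub v48 v0; ok v49 && (
  let v50 := log v44; ok v50 && (
  let v51 := scale ⟨549755813888, 0, 0, 0⟩ v50; ok v51 && (
  let v52 := exp v51; ok v52 && (
  let v53 := cst ⟨3298534883328, 0, 0, 0⟩; ok v53 && (
  let v54 := inv v53; ok v54 && (
  let v55 := mul v0 v54; ok v55 && (
  let v56 := cst ⟨2199023255552, 0, 0, 0⟩; ok v56 && (
  let v57 := add v43 v56; ok v57 && (
  let v58 := inv v57; ok v58 && (
  let v59 := mul v43 v58; ok v59 && (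
  let v60 := mul v59 v59; ok v60 && (
  let v61 := sub v0 v59; ok v61 && (
  let v62 := mul v60 v55; ok v62 && (
  let v63 := add v0 v62; ok v63 && (
  let v64 := mul v61 v63; ok v64 && (
  let v65 := mul v60 v60; ok v65 && (
  let v66 := scale ⟨219915747328, 0, 0, 0⟩ v65; ok v66 && (
  let v67 := mul v42 v64; ok v67 && (
  let v68 := scale ⟨549755813888, 0, 0, 0⟩ v67; ok v68 && (
  let v69 := mul v42 v66; ok v69 && (
  let v70 := scale ⟨549755813888, 0, 0, 0⟩ v69; ok v70 && (
  let v71 := add v68 v70; ok v71 && (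
  let v72 := mul v19 v49; ok v72 && (
  let v73 := scale ⟨4398046511104, 0, 0, 0⟩ v72; ok v73 && (
  let v74 := mul v19 v25; ok v74 && (
  let v75 := mul v74 v49; ok v75 && (
  let v76 := scale ⟨4398046511104, 0, 0, 0⟩ v75; ok v76 && (
  let v77 := add v76 v56; ok v77 && (
  let v78 := inv v77; ok v78 && (
  let v79 := mul v76 v78; ok v79 && (
  let v80 := mul v79 v79; ok v80 && (
  let v81 := sub v0 v79; ok v81 && (
  let v82 := mul v80 v55; ok v82 && (
  let v83 := add v0 v82; ok v83 && (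
  let v84 := mul v81 v83; ok v84 && (
  let v85 := mul v80 v80; ok v85 && (
  let v86 := scale ⟨219915747328, 0, 0, 0⟩ v85; ok v86 && (
  let v87 := mul v73 v84; ok v87 && (
  let v88 := scale ⟨549755813888, 0, 0, 0⟩ v87; ok v88 && (
  let v89 := sub v88 v71; ok v89 && (
  let v90 := mul v73 v86; ok v90 && (
  let v91 := scale ⟨549755813888, 0, 0, 0⟩ v90; ok v91 && (
  let v92 := add v91 v70; ok v92 && (
  let v93 := add v89 v92; ok v93 && (
  let v94 := mul v5 v68; ok v94 && (
  let v95 := neg v94; ok v95 && (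
  let v96 := exp v95; ok v96 && (
  let v97 := mul v5 v70; ok v97 && (
  let v98 := mul v96 v97; ok v98 && (
  let v99 := mul v22 v17; ok v99 && (
  let v100 := add v19 v99; ok v100 && (
  let v101 := inv v100; ok v101 && (
  let v102 := mul v24 v101; ok v102 && (
  let v103 := mul v23 x1; ok v103 && (
  let v104 := mul v103 v102; ok v104 && (
  let v105 := sub v0 v12; ok v105 && (
  let v106 := mul v26 v105; ok v106 && (
  let v107 := mul v9 v9; ok v107 && (
  let v108 := sub v0 v26; ok v108 && (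
  let v109 := mul v105 v108; ok v109 && (
  let v110 := mul v25 v49; ok v110 && (
  let v111 := inv v44; ok v111 && (
  let v112 := mul v110 v111; ok v112 && (
  let v113 := add v19 v112; ok v113 && (
  let v114 := mul v44 v113; ok v114 && (
  let v115 := mul v114 v114; ok v115 && (
  let v116 := inv v115; ok v116 && (
  let v117 := mul v109 v116; ok v117 && (
  let v118 := add v19 v25; ok v118 && (
  let v119 := mul x0 v118; ok v119 && (
  let v120 := inv v119; ok v120 && (
  let v121 := mul v0 v120; ok v121 && (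
  let v122 := mul v121 v121; ok v122 && (
  let v123 := mul v122 v109; ok v123 && (
  let v124 := mul v104 v0; ok v124 && (
  let v125 := scale ⟨549755813888, 0, 0, 0⟩ v124; ok v125 && (
  let v126 := sub v0 v125; ok v126 && (
  let v127 := sub v0 v124; ok v127 && (
  let v128 := inv v127; ok v128 && (
  let v129 := mul v126 v128; ok v129 && (
  let v130 := add v124 v0; ok v130 && (
  let v131 := mul v96 v130; ok v131 && (
  let v132 := mul v102 v129; ok v132 && (
  let v133 := mul v132 v0; ok v133 && (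
  let v134 := mul v124 v129; ok v134 && (
  isPos 4 v127 && (
  let v135 := mul v23 v24; ok v135 && (
  let v136 := add v19 x1; ok v136 && (
  let v137 := mul v22 v19; ok v137 && (
  let v138 := mul v137 v17; ok v138 && (
  let v139 := scale ⟨2199023255552, 0, 0, 0⟩ v138; ok v139 && (
  let v140 := add v47 v139; ok v140 && (
  let v141 := mul v136 v140; ok v141 && (
  let v142 := inv v141; ok v142 && (
  let v143 := mul v135 v142; ok v143 && (
  let v144 := mul x1 v143; ok v144 && (
  isPos 4 v89 && (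
  let v145 := mul v144 v0; ok v145 && (
  let v146 := mul v0 x0; ok v146 && (
  let v147 := add v11 v0; ok v147 && (
  let v148 := inv v147; ok v148 && (
  let v149 := mul v11 v148; ok v149 && (
  let v150 := scale ⟨2199023255552, 0, 0, 0⟩ v149; ok v150 && (
  let v151 := sub v0 v150; ok v151 && (
  let v152 := sub v0 v11; ok v152 && (
  let v153 := mul x3 v148; ok v153 && (
  let v154 := mul v153 v151; ok v154 && (
  let v155 := add v24 v154; ok v155 && (
  let v156 := scale ⟨224412041216, 0, 0, 0⟩ v15; ok v156 && (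
  let v157 := inv v38; ok v157 && (
  let v158 := mul v156 v157; ok v158 && (
  let v159 := scale ⟨4398046511104, 0, 0, 0⟩ x0; ok v159 && (
  let v160 := mul v0 v21; ok v160 && (
  let v161 := add v159 v160; ok v161 && (
  let v162 := inv v161; ok v162 && (
  let v163 := mul v0 v162; ok v163 && (
  let v164 := mul x0 v162; ok v164 && (
  let v165 := mul v164 v24; ok v165 && (
  let v166 := mul v165 v158; ok v166 && (
  let v167 := mul v163 v24; ok v167 && (
  let v168 := mul v167 v158; ok v168 && (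
  let v169 := sub v0 v168; ok v169 && (
  let v170 := inv v169; ok v170 && (
  let v171 := mul v131 v168; ok v171 && (
  let v172 := sub v0 v171; ok v172 && (
  let v173 := inv v172; ok v173 && (
  let v174 := scale ⟨2199023255552, 0, 0, 0⟩ v6; ok v174 && (
  let v175 := add v174 v0; ok v175 && (
  let v176 := add v6 v0; ok v176 && (
  let v177 := scale ⟨3573412790272, 0, 0, 0⟩ v22; ok v177 && (
  let v178 := cst ⟨339302416384, 0, 0, 0⟩; ok v178 && (
  let v179 := add v177 v178; ok v179 && (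
  let v180 := scale ⟨549755813888, 0, 0, 0⟩ v179; ok v180 && (
  let v181 := mul v11 v21; ok v181 && (
  let v182 := sub v0 v106; ok v182 && (
  let v183 := mul v11 v22; ok v183 && (
  let v184 := scale ⟨2199023255552, 0, 0, 0⟩ v183; ok v184 && (
  let v185 := sub v182 v184; ok v185 && (
  let v186 := mul v181 v181; ok v186 && (
  let v187 := add v185 v186; ok v187 && (
  let v188 := add v187 v0; ok v188 && (
  let v189 := scale ⟨549755813888, 0, 0, 0⟩ v188; ok v189 && (
  let v190 := scale ⟨549755813888, 0, 0, 0⟩ v25; ok v190 && (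
  let v191 := sub v15 v190; ok v191 && (
  let v192 := mul v107 v182; ok v192 && (
  let v193 := mul v192 v14; ok v193 && (
  let v194 := scale ⟨137438953472, 0, 0, 0⟩ v193; ok v194 && (
  let v195 := add v191 v194; ok v195 && (
  let v196 := mul v189 v195; ok v196 && (
  let v197 := cst ⟨1, 0, 0, 0⟩; ok v197 && (
  let v198 := cst ⟨12, 0, 0, 0⟩; ok v198 && (
  let v199 := mul v123 v197; ok v199 && (
  let v200 := sub v198 v199; ok v200 && (
  let v201 := cst ⟨2296, 0, 0, 0⟩; ok v201 && (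
  let v202 := mul v123 v200; ok v202 && (
  let v203 := sub v201 v202; ok v203 && (
  let v204 := cst ⟨302995, 0, 0, 0⟩; ok v204 && (
  let v205 := mul v123 v203; ok v205 && (
  let v206 := sub v204 v205; ok v206 && (
  let v207 := cst ⟨27269634, 0, 0, 0⟩; ok v207 && (
  let v208 := mul v123 v206; ok v208 && (
  let v209 := sub v207 v208; ok v209 && (
  let v210 := cst ⟨1527099483, 0, 0, 0⟩; ok v210 && (
  let v211 := mul v123 v209; ok v211 && (
  let v212 := sub v210 v211; ok v212 && (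
  let v213 := cst ⟨45812984491, 0, 0, 0⟩; ok v213 && (
  let v214 := mul v123 v212; ok v214 && (
  let v215 := sub v213 v214; ok v215 && (
  let v216 := mul v123 v215; ok v216 && (
  let v217 := sub v8 v216; ok v217 && (
  let v218 := mul v123 v217; ok v218 && (
  let v219 := sub v0 v218; ok v219 && (
  let v220 := mul v123 v6; ok v220 && (
  let v221 := mul v96 v96; ok v221 && (
  let v222 := add v221 v0; ok v222 && (
  let v223 := mul v220 v220; ok v223 && (
  let v224 := scale ⟨369367187456, 0, 0, 0⟩ v223; ok v224 && (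
  let v225 := add v219 v224; ok v225 && (
  let v226 := mul v96 v225; ok v226 && (
  let v227 := scale ⟨2199023255552, 0, 0, 0⟩ v226; ok v227 && (
  let v228 := add v222 v227; ok v228 && (
  let v229 := scale ⟨2199023255552, 0, 0, 0⟩ v98; ok v229 && (
  let v230 := add v228 v229; ok v230 && (
  let v231 := cst ⟨8589934592, 0, 0, 0⟩; ok v231 && (
  let v232 := add v230 v231; ok v232 && (
  let v233 := log v232; ok v233 && (
  let v234 := scale ⟨549755813888, 0, 0, 0⟩ v233; ok v234 && (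
  let v235 := exp v234; ok v235 && (
  let v236 := mul v96 v124; ok v236 && (
  let v237 := add v235 v236; ok v237 && (
  let v238 := mul v237 v170; ok v238 && (
  let v239 := mul v131 v173; ok v239 && (
  let v240 := add v238 v239; ok v240 && (
  let v241 := mul v168 v240; ok v241 && (
  let v242 := add v134 v241; ok v242 && (
  let v243 := mul v242 v6; ok v243 && (
  let v244 := mul v237 v168; ok v244 && (
  let v245 := mul v244 v170; ok v245 && (
  let v246 := add v134 v245; ok v246 && (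
  let v247 := mul v246 v6; ok v247 && (
  let v248 := scale ⟨223338299392, 0, 0, 0⟩ v247; ok v248 && (
  let v249 := add v8 v248; ok v249 && (
  let v250 := mul v247 v249; ok v250 && (
  let v251 := add v0 v250; ok v251 && (
  let v252 := scale ⟨893353197568, 0, 0, 0⟩ v243; ok v252 && (
  let v253 := add v0 v252; ok v253 && (
  let v254 := mul v243 v253; ok v254 && (
  let v255 := add v0 v254; ok v255 && (
  let v256 := mul v150 v153; ok v256 && (
  let v257 := mul v256 v175; ok v257 && (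
  let v258 := mul v257 v255; ok v258 && (
  let v259 := mul v196 v251; ok v259 && (
  let v260 := add v52 v8; ok v260 && (
  let v261 := mul v258 v260; ok v261 && (
  let v262 := add v259 v261; ok v262 && (
  let v263 := add v52 v0; ok v263 && (
  let v264 := mul v258 v263; ok v264 && (
  let v265 := mul v176 v263; ok v265 && (
  let v266 := mul v265 v153; ok v266 && (
  let v267 := mul v266 v152; ok v267 && (
  let v268 := mul v262 v133; ok v268 && (
  let v269 := mul v267 v180; ok v269 && (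
  let v270 := add v268 v269; ok v270 && (
  let v271 := mul v5 v155; ok v271 && (
  let v272 := inv v52; ok v272 && (
  let v273 := mul v271 v272; ok v273 && (
  let v274 := scale ⟨549755813888, 0, 0, 0⟩ v273; ok v274 && (
  let v275 := mul v23 v274; ok v275 && (
  let v276 := add v275 v270; ok v276 && (
  let v277 := mul x1 v276; ok v277 && (
  let v278 := mul x0 v277; ok v278 && (
  let v279 := mul v262 v237; ok v279 && (
  let v280 := mul v279 v170; ok v280 && (
  let v281 := mul v264 v131; ok v281 && (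
  let v282 := mul v281 v173; ok v282 && (
  let v283 := add v280 v282; ok v283 && (
  let v284 := mul v23 v278; ok v284 && (
  let v285 := mul v166 v283; ok v285 && (
  let v286 := add v284 v285; ok v286 && (
  let v287 := mul v107 v286; ok v287 && (
  let v288 := mul v287 v272; ok v288 && (
  let v289 := sub v0 v288; ok v289 && (
  let v290 := inv v289; ok v290 && (
  let v291 := mul v286 v290; ok v291 && (
  let v292 := mul x1 v291; ok v292 && (
  let v293 := mul v107 v291; ok v293 && (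
  let v294 := mul v293 v272; ok v294 && (
  let v295 := sub v0 v294; ok v295 && (
  let v296 := mul v49 v295; ok v296 && (
  let v297 := sub v296 v292; ok v297 && (
  let v298 := inv v297; ok v298 && (
  let v299 := mul v292 v298; ok v299 && (
  let v300 := sub v52 v293; ok v300 && (
  let v301 := inv v300; ok v301 && (
  let v302 := mul v299 v0; ok v302 && (
  let v303 := scale ⟨549755813888, 0, 0, 0⟩ v302; ok v303 && (
  let v304 := sub v0 v303; ok v304 && (
  let v305 := sub v0 v302; ok v305 && (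
  let v306 := inv v305; ok v306 && (
  let v307 := mul v304 v306; ok v307 && (
  let v308 := mul v3 v301; ok v308 && (
  let v309 := mul v146 v298; ok v309 && (
  let v310 := mul v309 v307; ok v310 && (
  let v311 := add v308 v310; ok v311 && (
  let v312 := mul v7 v291; ok v312 && (
  let v313 := mul v301 v312; ok v313 && (
  let v314 := mul v0 v298; ok v314 && (
  let v315 := mul v314 v307; ok v315 && (
  let v316 := mul v315 v292; ok v316 && (
  let v317 := add v313 v316; ok v317 && (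
  let v318 := scale ⟨223338299392, 0, 0, 0⟩ v317; ok v318 && (
  let v319 := add v8 v318; ok v319 && (
  let v320 := mul v317 v319; ok v320 && (
  let v321 := add v0 v320; ok v321 && (
  let v322 := mul v311 v321; ok v322 && (
  let v323 := mul v322 v290; ok v323 && (
  let v324 := mul v323 v283; ok v324 && (
  let v325 := mul v167 v23; ok v325 && (
  let v326 := cst ⟨7696581394432, 0, 0, 0⟩; ok v326 && (
  let v327 := cst ⟨10995116277760, 0, 0, 0⟩; ok v327 && (
  let v328 := inv v327; ok v328 && (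
  let v329 := mul v326 v328; ok v329 && (
  let v330 := mul v147 v24; ok v330 && (
  let v331 := mul v330 v329; ok v331 && (
  let v332 := mul v136 v101; ok v332 && (
  let v333 := mul v22 v332; ok v333 && (
  let v334 := scale ⟨549755813888, 0, 0, 0⟩ v145; ok v334 && (
  let v335 := sub v0 v334; ok v335 && (
  let v336 := sub v0 v145; ok v336 && (
  let v337 := inv v336; ok v337 && (
  let v338 := mul v335 v337; ok v338 && (
  let v339 := mul v338 v144; ok v339 && (
  let v340 := mul v107 v117; ok v340 && (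
  let v341 := scale ⟨733097230336, 0, 0, 0⟩ v340; ok v341 && (
  let v342 := sub v0 v341; ok v342 && (
  let v343 := mul v117 v342; ok v343 && (
  let v344 := mul v89 v89; ok v344 && (
  let v345 := mul v12 v344; ok v345 && (
  let v346 := add v343 v345; ok v346 && (
  let v347 := mul v339 v146; ok v347 && (
  let v348 := add v346 v0; ok v348 && (
  let v349 := mul v347 v348; ok v349 && (
  let v350 := sub v346 v349; ok v350 && (
  let v351 := scale ⟨366548615168, 0, 0, 0⟩ v45; ok v351 && (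
  let v352 := sub v0 v351; ok v352 && (
  let v353 := mul v26 v352; ok v353 && (
  let v354 := add v350 v353; ok v354 && (
  let v355 := mul v332 v354; ok v355 && (
  let v356 := mul v333 v333; ok v356 && (
  let v357 := add v0 v356; ok v357 && (
  let v358 := inv v357; ok v358 && (
  let v359 := mul v355 v358; ok v359 && (
  let v360 := sub v0 v299; ok v360 && (
  let v361 := mul v360 v359; ok v361 && (
  let v362 := sub v0 v347; ok v362 && (
  isPos 4 v362 && (
  isPos 4 v359 && (
  isPos 4 v360 && (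
  let v363 := mul v323 v161; ok v363 && (
  let v364 := mul v363 v276; ok v364 && (
  let v365 := inv v24; ok v365 && (
  let v366 := mul v364 v365; ok v366 && (
  let v367 := mul v4 v361; ok v367 && (
  let v368 := mul x1 v367; ok v368 && (
  let v369 := scale ⟨549755813888, 0, 0, 0⟩ v368; ok v369 && (
  let v370 := sub v0 v369; ok v370 && (
  let v371 := mul v367 v370; ok v371 && (
  let v372 := neg v371; ok v372 && (
  let v373 := mul v3 x3; ok v373 && (
  let v374 := mul v373 v147; ok v374 && (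
  let v375 := mul v374 v15; ok v375 && (
  let v376 := mul v0 v375; ok v376 && (
  let v377 := add v372 v376; ok v377 && (
  let v378 := mul v372 v376; ok v378 && (
  let v379 := mul x1 v378; ok v379 && (
  let v380 := add v377 v379; ok v380 && (
  let v381 := mul v12 v42; ok v381 && (
  let v382 := scale ⟨412316860416, 0, 0, 0⟩ v43; ok v382 && (
  let v383 := sub v8 v382; ok v383 && (
  let v384 := mul v381 v383; ok v384 && (
  let v385 := mul v0 v384; ok v385 && (
  let v386 := neg v385; ok v386 && (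
  let v387 := add v380 v386; ok v387 && (
  let v388 := mul v380 v386; ok v388 && (
  let v389 := mul x1 v388; ok v389 && (
  let v390 := add v387 v389; ok v390 && (
  let v391 := mul v3 v291; ok v391 && (
  let v392 := mul v391 v365; ok v392 && (
  let v393 := mul v0 v392; ok v393 && (
  let v394 := add v390 v393; ok v394 && (
  let v395 := mul v390 v393; ok v395 && (
  let v396 := mul x1 v395; ok v396 && (
  let v397 := add v394 v396; ok v397 && (
  let v398 := mul v0 v331; ok v398 && (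
  let v399 := sub v397 v398; ok v399 && (
  let v400 := mul x1 v331; ok v400 && (
  let v401 := add v0 v400; ok v401 && (
  let v402 := inv v401; ok v402 && (
  let v403 := mul v399 v402; ok v403 && (
  let v404 := mul v3 v9; ok v404 && (
  let v405 := mul v404 v291; ok v405 && (
  let v406 := mul v405 v301; ok v406 && (
  let v407 := mul v0 v406; ok v407 && (
  let v408 := add v403 v407; ok v408 && (
  let v409 := mul v403 v407; ok v409 && (
  let v410 := mul x1 v409; ok v410 && (
  let v411 := add v408 v410; ok v411 && (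
  let v412 := mul x1 v411; ok v412 && (
  let v413 := add v0 v412; ok v413 && (
  let v414 := mul v324 v168; ok v414 && (
  let v415 := mul x1 v325; ok v415 && (
  let v416 := mul v366 v415; ok v416 && (
  let v417 := add v414 v416; ok v417 && (
  let v418 := mul v0 v417; ok v418 && (
  let v419 := add v324 v366; ok v419 && (
  let v420 := mul v0 v419; ok v420 && (
  let v421 := mul v418 v413; ok v421 && (
  let v422 := add v411 v421; ok v422 && (
  let v423 := add v422 v420; ok v423 && (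
  let v424 := neg v423; ok v424 && (
  let v425 := scale ⟨1073741824, 0, 0, 0⟩ v0; ok v425 && (
  let v426 := sub v424 v425; ok v426 && (
  let v427 := sub v20 v0; ok v427 && (
  let v428 := add v427 v56; ok v428 && (
  let v429 := scale ⟨2199023255552, 0, 0, 0⟩ v329; ok v429 && (
  let v430 := sub v428 v429; ok v430 && (
  let v431 := mul v147 v430; ok v431 && (
  let v432 := mul v427 v429; ok v432 && (
  let v433 := add v432 v0; ok v433 && (
  let v434 := inv v433; ok v434 && (
  let v435 := mul v431 v434; ok v435 && (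
  let v436 := mul v164 v283; ok v436 && (
  let v437 := scale ⟨549755813888, 0, 0, 0⟩ v158; ok v437 && (
  let v438 := add v17 v437; ok v438 && (
  let v439 := mul v436 v438; ok v439 && (
  let v440 := scale ⟨2199023255552, 0, 0, 0⟩ v439; ok v440 && (
  let v441 := add v278 v440; ok v441 && (
  let v442 := scale ⟨2199023255552, 0, 0, 0⟩ v441; ok v442 && (
  let v443 := mul v442 v290; ok v443 && (
  let v444 := mul v9 v291; ok v444 && (
  let v445 := sub v24 v444; ok v445 && (
  let v446 := inv v445; ok v446 && (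
  let v447 := mul v443 v446; ok v447 && (
  let v448 := sub v435 v447; ok v448 && (
  let v449 := mul v160 v160; ok v449 && (
  let v450 := cst ⟨14293651161088, 0, 0, 0⟩; ok v450 && (
  let v451 := mul v450 v328; ok v451 && (
  let v452 := mul v449 v451; ok v452 && (
  let v453 := mul x0 x0; ok v453 && (
  let v454 := scale ⟨27487790694400, 0, 0, 0⟩ v453; ok v454 && (
  let v455 := add v452 v454; ok v455 && (
  let v456 := mul v331 v402; ok v456 && (
  let v457 := sub v40 x1; ok v457 && (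
  let v458 := sub v457 v39; ok v458 && (
  let v459 := mul v0 v3; ok v459 && (
  let v460 := mul v459 x0; ok v460 && (
  let v461 := mul v24 v283; ok v461 && (
  let v462 := mul v461 v162; ok v462 && (
  let v463 := add v270 v462; ok v463 && (
  let v464 := add v444 v56; ok v464 && (
  let v465 := mul v0 v464; ok v465 && (
  let v466 := mul v455 v456; ok v466 && (
  let v467 := mul v290 v465; ok v467 && (
  let v468 := mul v460 v463; ok v468 && (
  let v469 := mul v467 v468; ok v469 && (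
  let v470 := sub v466 v469; ok v470 && (
  let v471 := scale ⟨549755813888, 0, 0, 0⟩ v444; ok v471 && (
  let v472 := add v0 v471; ok v472 && (
  let v473 := mul v290 v472; ok v473 && (
  let v474 := mul x1 v23; ok v474 && (
  let v475 := mul v474 v155; ok v475 && (
  let v476 := mul v24 v52; ok v476 && (
  let v477 := inv v476; ok v477 && (
  let v478 := mul v475 v477; ok v478 && (
  let v479 := mul v473 v478; ok v479 && (
  let v480 := sub v458 v479; ok v480 && (
  let v481 := mul v158 v470; ok v481 && (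
  let v482 := sub v0 v158; ok v482 && (
  let v483 := mul v12 v480; ok v483 && (
  let v484 := mul v482 v483; ok v484 && (
  let v485 := mul v455 v484; ok v485 && (
  let v486 := add v481 v485; ok v486 && (
  isPos 4 v169 && (
  isPos 4 v172 && (
  let v487 := scale ⟨2199023255552, 0, 0, 0⟩ v287; ok v487 && (
  let v488 := sub v52 v487; ok v488 && (
  isPos 4 v488 && (
  isPos 4 v297 && (
  let v489 := sub v8 v145; ok v489 && (
  isPos 4 v489 && (
  let v490 := scale ⟨687194767360, 0, 0, 0⟩ v0; ok v490 && (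
  let v491 := sub v490 v247; ok v491 && (
  isPos 4 v491 && (
  let v492 := scale ⟨377957122048, 0, 0, 0⟩ v0; ok v492 && (
  let v493 := sub v492 v243; ok v493 && (
  isPos 4 v493 && (
  isPos 4 v445 && (
  isPos 4 v305 && (
  let v494 := sub v490 v317; ok v494 && (
  isPos 4 v494 && (
  isPos 4 v448 && (
  isPos 4 v426 && (
  isPos 4 v486 && (
  isPos 4 v480 && (
  true))))))))))))))))))))))))))))))))))))))))))))))))))))))))))))))))))))))))))))))))))))))))))))))))))))))))))))))))))))))))))))))))))))))))))))))))))))))))))))))))))))))))))))))))))))))))))))))))))))))))))))))))))))))))))))))))))))))))))))))))))))))))))))))))))))))))))))))))))))))))))))))))))))))))))))))))))))))))))))))))))))))))))))))))))))))))))))))))))))))))))))))))))))))))))))))))))))))))))))))))))))))))))))))))))))))))))))))))))))))))))))))))))))))))))))))))))))))))))))))))))))))))))))))))))))))))))))))))))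
  | _ => false

set_option maxRecDepth 1000000 in
theorem chk5_eq (O : Ops) (m : List O.α)
    (h : chk5 O.cst O.add O.sub O.mul O.scale O.neg O.inv O.exp O.log O.ok O.isPos O.isLt m = true) :
    runG O 4 prog5 m = true := by
  match m, h with
  | [x0, x1, x2, x3], h => exact h

def chkB5 : List opsE.α → Bool :=
  chk5 opsE.cst opsE.add opsE.sub opsE.mul opsE.scale opsE.neg opsE.inv opsE.exp opsE.log opsE.ok opsE.isPos opsE.isLt

theorem chkB5_eq (m : List opsE.α) (h : chkB5 m = true) : runG opsE 4 prog5 m = true :=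
  chk5_eq opsE m h

def prog6 : List Op := [
  .const ⟨1099511627776, 0, 0, 0⟩,
  .mul 2 3,
  .mul 0 2,
  .mul 5 0,
  .mul 6 6,
  .mul 6 0,
  .mul 3 3,
  .mul 8 1,
  .const ⟨549755813888, 0, 0, 0⟩,
  .mul 10 5,
  .mul 0 13,
  .scale ⟨549755813888, 0, 0, 0⟩ 0,
  .mul 8 8,
  .mul 1 1,
  .sub 13 0,
  .inv 0,
  .mul 4 0,
  .scale ⟨2199023255552, 0, 0, 0⟩ 0,
  .scale ⟨2199023255552, 0, 0, 0⟩ 2,
  .sub 0 18,
  .add 0 2,
  .mul 24 5,
  .mul 18 0,
  .sub 22 0,
  .add 23 1,
  .mul 26 12,
  .mul 4 4,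
  .scale ⟨10774999203840, 0, 0, 0⟩ 15,
  .scale ⟨45768245248, 0, 0, 0⟩ 0,
  .const ⟨183207198720, 0, 0, 0⟩,
  .add 1 0,
  .mul 3 0,
  .add 23 0,
  .mul 5 0,
  .add 33 0,
  .mul 7 0,
  .scale ⟨549755813888, 0, 0, 0⟩ 0,
  .add 36 0,
  .mul 3 0,
  .mul 21 16,
  .scale ⟨2199023255552, 0, 0, 0⟩ 20,
  .add 1 0,
  .add 0 43,
  .mul 17 0,
  .add 0 43,
  .mul 27 27,
  .scale ⟨2199023255552, 0, 0, 0⟩ 0,
  .add 0 46,
  .mul 28 5,
  .sub 0 48,
  .log 5,
  .scale ⟨549755813888, 0, 0, 0⟩ 0,
  .exp 0,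
  .const ⟨3298534883328, 0, 0, 0⟩,
  .inv 0,
  .mul 54 0,
  .const ⟨2199023255552, 0, 0, 0⟩,
  .add 13 0,
  .inv 0,
  .mul 15 0,
  .mul 0 0,
  .sub 60 1,
  .mul 1 6,
  .add 62 0,
  .mul 2 0,
  .mul 4 4,
  .scale ⟨219915747328, 0, 0, 0⟩ 0,
  .mul 24 2,
  .scale ⟨549755813888, 0, 0, 0⟩ 0,
  .mul 26 2,
  .scale ⟨549755813888, 0, 0, 0⟩ 0,
  .add 2 0,
  .mul 52 22,
  .scale ⟨4398046511104, 0, 0, 0⟩ 0,
  .mul 54 48,
  .mul 0 25,
  .scale ⟨4398046511104, 0, 0, 0⟩ 0,
  .add 0 20,
  .inv 0,
  .mul 2 0,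
  .mul 0 0,
  .sub 80 1,
  .mul 1 26,
  .add 82 0,
  .mul 2 0,
  .mul 4 4,
  .scale ⟨219915747328, 0, 0, 0⟩ 0,
  .mul 13 2,
  .scale ⟨549755813888, 0, 0, 0⟩ 0,
  .sub 0 17,
  .mul 16 3,
  .scale ⟨549755813888, 0, 0, 0⟩ 0,
  .add 0 21,
  .add 3 0,
  .mul 88 25,
  .neg 0,
  .exp 0,
  .mul 91 26,
  .mul 1 0,
  .mul 76 81,
  .add 80 0,
  .inv 0,
  .mul 77 0,
  .mul 79 104,
  .mul 0 1,
  .sub 104 92,
  .mul 79 0,
  .mul 97 97,
  .sub 107 81,
  .mul 3 0,
  .mul 84 60,
  .inv 66,
  .mul 1 0,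
  .add 93 0,
  .mul 69 0,
  .mul 0 0,
  .inv 0,
  .mul 7 0,
  .mul 13 117,
  .scale ⟨549755813888, 0, 0, 0⟩ 0,
  .sub 119 0,
  .sub 120 2,
  .inv 0,
  .mul 2 0,
  .add 5 123,
  .mul 28 0,
  .mul 23 2,
  .mul 0 126,
  .mul 9 4,
  .pos 7,
  .mul 105 104,
  .add 110 131,
  .mul 108 111,
  .mul 0 114,
  .scale ⟨2199023255552, 0, 0, 0⟩ 0,
  .add 86 0,
  .mul 4 0,
  .inv 0,
  .mul 7 0,
  .mul 139 0,
  .pos 49,
  .mul 0 138,
  .mul 139 140,
  .add 129 140,
  .inv 0,
  .mul 131 0,
  .scale ⟨2199023255552, 0, 0, 0⟩ 0,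
  .sub 144 0,
  .sub 145 134,
  .mul 150 4,
  .mul 0 2,
  .add 124 0,
  .scale ⟨224412041216, 0, 0, 0⟩ 134,
  .inv 112,
  .mul 1 0,
  .scale ⟨4398046511104, 0, 0, 0⟩ 153,
  .mul 153 132,
  .add 1 0,
  .inv 0,
  .mul 156 0,
  .mul 158 1,
  .mul 0 134,
  .mul 0 7,
  .mul 3 136,
  .mul 0 9,
  .sub 162 0,
  .inv 0,
  .mul 39 2,
  .sub 165 0,
  .inv 0,
  .scale ⟨2199023255552, 0, 0, 0⟩ 161,
  .add 0 168,
  .add 163 169,
  .scale ⟨3573412790272, 0, 0, 0⟩ 148,
  .const ⟨339302416384, 0, 0, 0⟩,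
  .add 1 0,
  .scale ⟨549755813888, 0, 0, 0⟩ 0,
  .mul 163 153,
  .sub 175 69,
  .mul 165 154,
  .scale ⟨2199023255552, 0, 0, 0⟩ 0,
  .sub 2 0,
  .mul 4 4,
  .add 1 0,
  .add 0 181,
  .scale ⟨549755813888, 0, 0, 0⟩ 0,
  .scale ⟨549755813888, 0, 0, 0⟩ 158,
  .sub 169 0,
  .mul 78 9,
  .mul 0 172,
  .scale ⟨137438953472, 0, 0, 0⟩ 0,
  .add 3 0,
  .mul 6 0,
  .add 65 190,
  .mul 0 27,
  .mul 67 25,
  .add 1 0,
  .mul 32 0,
  .add 67 0,
  .mul 0 190,
  .mul 6 35,
  .mul 0 34,
  .add 71 0,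
  .mul 0 194,
  .scale ⟨223338299392, 0, 0, 0⟩ 0,
  .add 194 0,
  .mul 2 0,
  .add 204 0,
  .scale ⟨893353197568, 0, 0, 0⟩ 8,
  .add 206 0,
  .mul 10 0,
  .add 208 0,
  .mul 65 62,
  .mul 0 41,
  .mul 0 2,
  .mul 22 7,
  .add 161 205,
  .mul 2 0,
  .add 2 0,
  .add 164 216,
  .mul 5 0,
  .mul 48 1,
  .mul 0 72,
  .mul 0 74,
  .mul 5 94,
  .mul 1 48,
  .add 1 0,
  .mul 219 75,
  .inv 173,
  .mul 1 0,
  .scale ⟨549755813888, 0, 0, 0⟩ 0,
  .mul 205 0,
  .add 0 5,
  .mul 232 0,
  .mul 232 0,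
  .mul 16 41,
  .mul 0 69,
  .mul 16 109,
  .mul 0 68,
  .add 2 0,
  .mul 214 5,
  .mul 78 1,
  .add 1 0,
  .mul 133 0,
  .mul 0 15,
  .sub 242 0,
  .inv 0,
  .mul 4 0,
  .mul 247 0,
  .mul 139 1,
  .mul 0 21,
  .sub 248 0,
  .mul 200 0,
  .sub 0 4,
  .inv 0,
  .mul 6 0,
  .sub 201 6,
  .inv 0,
  .mul 2 255,
  .scale ⟨549755813888, 0, 0, 0⟩ 0,
  .sub 257 0,
  .sub 258 2,
  .inv 0,
  .mul 2 0,
  .mul 258 6,
  .mul 122 10,
  .mul 0 2,
  .add 2 0,
  .mul 258 20,
  .mul 11 0,
  .mul 267 15,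
  .mul 0 7,
  .mul 0 23,
  .add 3 0,
  .scale ⟨223338299392, 0, 0, 0⟩ 0,
  .add 264 0,
  .mul 2 0,
  .add 274 0,
  .mul 10 0,
  .mul 0 32,
  .mul 0 40,
  .mul 117 255,
  .const ⟨7696581394432, 0, 0, 0⟩,
  .const ⟨10995116277760, 0, 0, 0⟩,
  .inv 0,
  .mul 2 0,
  .mul 142 259,
  .mul 0 1,
  .mul 155 184,
  .mul 264 0,
  .scale ⟨549755813888, 0, 0, 0⟩ 148,
  .sub 288 0,
  .sub 289 150,
  .inv 0,
  .mul 2 0,
  .mul 0 154,
  .mul 186 176,
  .scale ⟨733097230336, 0, 0, 0⟩ 0,
  .sub 295 0,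
  .mul 179 0,
  .mul 208 208,
  .mul 286 0,
  .add 2 0,
  .mul 7 160,
  .add 1 301,
  .mul 1 0,
  .sub 3 0,
  .scale ⟨366548615168, 0, 0, 0⟩ 259,
  .sub 305 0,
  .mul 280 0,
  .add 3 0,
  .mul 22 0,
  .mul 22 22,
  .add 310 0,
  .inv 0,
  .mul 3 0,
  .sub 313 60,
  .mul 0 1,
  .sub 315 14,
  .pos 0,
  .pos 3,
  .pos 2,
  .mul 39 161,
  .mul 0 87,
  .inv 294,
  .mul 1 0,
  .mul 316 5,
  .mul 323 0,
  .scale ⟨549755813888, 0, 0, 0⟩ 0,
  .sub 323 0,
  .mul 3 0,
  .neg 0,
  .mul 323 330,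
  .mul 0 186,
  .mul 0 313,
  .mul 329 0,
  .add 4 0,
  .mul 5 1,
  .mul 334 0,
  .add 2 0,
  .mul 322 292,
  .scale ⟨412316860416, 0, 0, 0⟩ 292,
  .sub 328 0,
  .mul 2 0,
  .mul 338 0,
  .neg 0,
  .add 6 0,
  .mul 7 1,
  .mul 344 0,
  .add 2 0,
  .mul 341 99,
  .mul 0 26,
  .mul 346 0,
  .add 3 0,
  .mul 4 1,
  .mul 351 0,
  .add 2 0,
  .mul 351 66,
  .sub 1 0,
  .mul 355 68,
  .add 354 0,
  .inv 0,
  .mul 3 0,
  .mul 354 348,
  .mul 0 113,
  .mul 0 104,
  .mul 360 0,
  .add 4 0,
  .mul 5 1,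
  .mul 365 0,
  .add 2 0,
  .mul 367 0,
  .add 366 0,
  .mul 89 205,
  .mul 370 89,
  .mul 49 0,
  .add 2 0,
  .mul 371 0,
  .add 94 52,
  .mul 373 0,
  .mul 2 7,
  .add 10 0,
  .add 0 2,
  .neg 0,
  .scale ⟨1073741824, 0, 0, 0⟩ 378,
  .sub 1 0,
  .sub 360 380,
  .add 0 325,
  .scale ⟨2199023255552, 0, 0, 0⟩ 99,
  .sub 1 0,
  .mul 243 0,
  .mul 4 2,
  .add 0 386,
  .inv 0,
  .mul 3 0,
  .mul 231 152,
  .scale ⟨549755813888, 0, 0, 0⟩ 238,
  .add 374 0,
  .mul 2 0,
  .scale ⟨2199023255552, 0, 0, 0⟩ 0,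
  .add 162 0,
  .scale ⟨2199023255552, 0, 0, 0⟩ 0,
  .mul 0 152,
  .mul 388 152,
  .sub 374 0,
  .inv 0,
  .mul 3 0,
  .sub 12 0,
  .mul 248 248,
  .const ⟨14293651161088, 0, 0, 0⟩,
  .mul 0 122,
  .mul 2 0,
  .mul 407 407,
  .scale ⟨27487790694400, 0, 0, 0⟩ 0,
  .add 2 0,
  .mul 124 53,
  .sub 370 412,
  .sub 0 372,
  .mul 412 409,
  .mul 0 414,
  .mul 390 177,
  .mul 0 259,
  .add 192 0,
  .add 19 361,
  .mul 418 0,
  .mul 10 9,
  .mul 176 1,
  .mul 7 4,
  .mul 1 0,
  .sub 3 0,
  .scale ⟨549755813888, 0, 0, 0⟩ 26,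
  .add 425 0,
  .mul 182 0,
  .mul 429 404,
  .mul 0 279,
  .mul 405 377,
  .inv 0,
  .mul 2 0,
  .mul 5 0,
  .sub 21 0,
  .mul 282 10,
  .sub 435 283,
  .mul 424 2,
  .mul 1 0,
  .mul 29 0,
  .add 4 0,
  .pos 277,
  .pos 274,
  .scale ⟨2199023255552, 0, 0, 0⟩ 199,
  .sub 389 0,
  .pos 0,
  .pos 191,
  .sub 434 303,
  .pos 0,
  .scale ⟨687194767360, 0, 0, 0⟩ 443,
  .sub 0 243,
  .pos 0,
  .scale ⟨377957122048, 0, 0, 0⟩ 445,
  .sub 0 249,
  .pos 0,
  .pos 48,
  .pos 188,
  .sub 3 176,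
  .pos 0,
  .pos 46,
  .pos 68,
  .pos 8,
  .pos 14]

def chk6 {α : Type} (cst : Z → α) (add sub mul : α → α → α) (scale : Z → α → α)
    (neg inv exp log : α → α) (ok : α → Bool) (isPos : Nat → α → Bool) (isLt : α → Nat → Bool) :
    List α → Bool
  | [x0, x1, x2, x3] =>
  let v0 := cst ⟨1099511627776, 0, 0, 0⟩; ok v0 && (
  let v1 := mul x1 x2; ok v1 && (
  let v2 := mul v1 x0; ok v2 && (
  let v3 := mul x2 v2; ok v3 && (
  let v4 := mul x2 x2; ok v4 && (
  let v5 := mul x1 v4; ok v5 && (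
  let v6 := mul v2 v2; ok v6 && (
  let v7 := mul x1 v5; ok v7 && (
  let v8 := cst ⟨549755813888, 0, 0, 0⟩; ok v8 && (
  let v9 := mul x1 v3; ok v9 && (
  let v10 := mul v9 x3; ok v10 && (
  let v11 := scale ⟨549755813888, 0, 0, 0⟩ v10; ok v11 && (
  let v12 := mul v3 v3; ok v12 && (
  let v13 := mul v11 v11; ok v13 && (
  let v14 := sub v0 v13; ok v14 && (
  let v15 := inv v14; ok v15 && (
  let v16 := mul v11 v15; ok v16 && (
  let v17 := scale ⟨2199023255552, 0, 0, 0⟩ v16; ok v17 && (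
  let v18 := scale ⟨2199023255552, 0, 0, 0⟩ v15; ok v18 && (
  let v19 := sub v18 v0; ok v19 && (
  let v20 := add v19 v17; ok v20 && (
  let v21 := mul x3 v15; ok v21 && (
  let v22 := mul v3 v21; ok v22 && (
  let v23 := sub v0 v22; ok v23 && (
  let v24 := add v0 v22; ok v24 && (
  let v25 := mul x1 v12; ok v25 && (
  let v26 := mul v21 v21; ok v26 && (
  let v27 := scale ⟨10774999203840, 0, 0, 0⟩ v11; ok v27 && (
  let v28 := scale ⟨45768245248, 0, 0, 0⟩ v27; ok v28 && (
  let v29 := cst ⟨183207198720, 0, 0, 0⟩; ok v29 && (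
  let v30 := add v28 v29; ok v30 && (
  let v31 := mul v27 v30; ok v31 && (
  let v32 := add v8 v31; ok v32 && (
  let v33 := mul v27 v32; ok v33 && (
  let v34 := add v0 v33; ok v34 && (
  let v35 := mul v27 v34; ok v35 && (
  let v36 := scale ⟨549755813888, 0, 0, 0⟩ v35; ok v36 && (
  let v37 := add v0 v36; ok v37 && (
  let v38 := mul v34 v37; ok v38 && (
  let v39 := mul v17 v22; ok v39 && (
  let v40 := scale ⟨2199023255552, 0, 0, 0⟩ v19; ok v40 && (
  let v41 := add v39 v40; ok v41 && (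
  let v42 := add v41 x1; ok v42 && (
  let v43 := mul v25 v42; ok v43 && (
  let v44 := add v43 v0; ok v44 && (
  let v45 := mul v17 v17; ok v45 && (
  let v46 := scale ⟨2199023255552, 0, 0, 0⟩ v45; ok v46 && (
  let v47 := add v46 v0; ok v47 && (
  let v48 := mul v19 v42; ok v48 && (
  let v49 := sub v48 v0; ok v49 && (
  let v50 := log v44; ok v50 && (
  let v51 := scale ⟨549755813888, 0, 0, 0⟩ v50; ok v51 && (
  let v52 := exp v51; ok v52 && (
  let v53 := cst ⟨3298534883328, 0, 0, 0⟩; ok v53 && (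
  let v54 := inv v53; ok v54 && (
  let v55 := mul v0 v54; ok v55 && (
  let v56 := cst ⟨2199023255552, 0, 0, 0⟩; ok v56 && (
  let v57 := add v43 v56; ok v57 && (
  let v58 := inv v57; ok v58 && (
  let v59 := mul v43 v58; ok v59 && (
  let v60 := mul v59 v59; ok v60 && (
  let v61 := sub v0 v59; ok v61 && (
  let v62 := mul v60 v55; ok v62 && (
  let v63 := add v0 v62; ok v63 && (
  let v64 := mul v61 v63; ok v64 && (
  let v65 := mul v60 v60; ok v65 && (
  let v66 := scale ⟨219915747328, 0, 0, 0⟩ v65; ok v66 && (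
  let v67 := mul v42 v64; ok v67 && (
  let v68 := scale ⟨549755813888, 0, 0, 0⟩ v67; ok v68 && (
  let v69 := mul v42 v66; ok v69 && (
  let v70 := scale ⟨549755813888, 0, 0, 0⟩ v69; ok v70 && (
  let v71 := add v68 v70; ok v71 && (
  let v72 := mul v19 v49; ok v72 && (
  let v73 := scale ⟨4398046511104, 0, 0, 0⟩ v72; ok v73 && (
  let v74 := mul v19 v25; ok v74 && (
  let v75 := mul v74 v49; ok v75 && (
  let v76 := scale ⟨4398046511104, 0, 0, 0⟩ v75; ok v76 && (
  let v77 := add v76 v56; ok v77 && (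
  let v78 := inv v77; ok v78 && (
  let v79 := mul v76 v78; ok v79 && (
  let v80 := mul v79 v79; ok v80 && (
  let v81 := sub v0 v79; ok v81 && (
  let v82 := mul v80 v55; ok v82 && (
  let v83 := add v0 v82; ok v83 && (
  let v84 := mul v81 v83; ok v84 && (
  let v85 := mul v80 v80; ok v85 && (
  let v86 := scale ⟨219915747328, 0, 0, 0⟩ v85; ok v86 && (
  let v87 := mul v73 v84; ok v87 && (
  let v88 := scale ⟨549755813888, 0, 0, 0⟩ v87; ok v88 && (
  let v89 := sub v88 v71; ok v89 && (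
  let v90 := mul v73 v86; ok v90 && (
  let v91 := scale ⟨549755813888, 0, 0, 0⟩ v90; ok v91 && (
  let v92 := add v91 v70; ok v92 && (
  let v93 := add v89 v92; ok v93 && (
  let v94 := mul v5 v68; ok v94 && (
  let v95 := neg v94; ok v95 && (
  let v96 := exp v95; ok v96 && (
  let v97 := mul v5 v70; ok v97 && (
  let v98 := mul v96 v97; ok v98 && (
  let v99 := mul v22 v17; ok v99 && (
  let v100 := add v19 v99; ok v100 && (
  let v101 := inv v100; ok v101 && (
  let v102 := mul v24 v101; ok v102 && (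
  let v103 := mul v23 x1; ok v103 && (
  let v104 := mul v103 v102; ok v104 && (
  let v105 := sub v0 v12; ok v105 && (
  let v106 := mul v26 v105; ok v106 && (
  let v107 := mul v9 v9; ok v107 && (
  let v108 := sub v0 v26; ok v108 && (
  let v109 := mul v105 v108; ok v109 && (
  let v110 := mul v25 v49; ok v110 && (
  let v111 := inv v44; ok v111 && (
  let v112 := mul v110 v111; ok v112 && (
  let v113 := add v19 v112; ok v113 && (
  let v114 := mul v44 v113; ok v114 && (
  let v115 := mul v114 v114; ok v115 && (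
  let v116 := inv v115; ok v116 && (
  let v117 := mul v109 v116; ok v117 && (
  let v118 := mul v104 v0; ok v118 && (
  let v119 := scale ⟨549755813888, 0, 0, 0⟩ v118; ok v119 && (
  let v120 := sub v0 v119; ok v120 && (
  let v121 := sub v0 v118; ok v121 && (
  let v122 := inv v121; ok v122 && (
  let v123 := mul v120 v122; ok v123 && (
  let v124 := add v118 v0; ok v124 && (
  let v125 := mul v96 v124; ok v125 && (
  let v126 := mul v102 v123; ok v126 && (
  let v127 := mul v126 v0; ok v127 && (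
  let v128 := mul v118 v123; ok v128 && (
  isPos 4 v121 && (
  let v129 := mul v23 v24; ok v129 && (
  let v130 := add v19 x1; ok v130 && (
  let v131 := mul v22 v19; ok v131 && (
  let v132 := mul v131 v17; ok v132 && (
  let v133 := scale ⟨2199023255552, 0, 0, 0⟩ v132; ok v133 && (
  let v134 := add v47 v133; ok v134 && (
  let v135 := mul v130 v134; ok v135 && (
  let v136 := inv v135; ok v136 && (
  let v137 := mul v129 v136; ok v137 && (
  let v138 := mul x1 v137; ok v138 && (
  isPos 4 v89 && (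
  let v139 := mul v138 v0; ok v139 && (
  let v140 := mul v0 x0; ok v140 && (
  let v141 := add v11 v0; ok v141 && (
  let v142 := inv v141; ok v142 && (
  let v143 := mul v11 v142; ok v143 && (
  let v144 := scale ⟨2199023255552, 0, 0, 0⟩ v143; ok v144 && (
  let v145 := sub v0 v144; ok v145 && (
  let v146 := sub v0 v11; ok v146 && (
  let v147 := mul x3 v142; ok v147 && (
  let v148 := mul v147 v145; ok v148 && (
  let v149 := add v24 v148; ok v149 && (
  let v150 := scale ⟨224412041216, 0, 0, 0⟩ v15; ok v150 && (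
  let v151 := inv v38; ok v151 && (
  let v152 := mul v150 v151; ok v152 && (
  let v153 := scale ⟨4398046511104, 0, 0, 0⟩ x0; ok v153 && (
  let v154 := mul v0 v21; ok v154 && (
  let v155 := add v153 v154; ok v155 && (
  let v156 := inv v155; ok v156 && (
  let v157 := mul v0 v156; ok v157 && (
  let v158 := mul x0 v156; ok v158 && (
  let v159 := mul v158 v24; ok v159 && (
  let v160 := mul v159 v152; ok v160 && (
  let v161 := mul v157 v24; ok v161 && (
  let v162 := mul v161 v152; ok v162 && (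
  let v163 := sub v0 v162; ok v163 && (
  let v164 := inv v163; ok v164 && (
  let v165 := mul v125 v162; ok v165 && (
  let v166 := sub v0 v165; ok v166 && (
  let v167 := inv v166; ok v167 && (
  let v168 := scale ⟨2199023255552, 0, 0, 0⟩ v6; ok v168 && (
  let v169 := add v168 v0; ok v169 && (
  let v170 := add v6 v0; ok v170 && (
  let v171 := scale ⟨3573412790272, 0, 0, 0⟩ v22; ok v171 && (
  let v172 := cst ⟨339302416384, 0, 0, 0⟩; ok v172 && (
  let v173 := add v171 v172; ok v173 && (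
  let v174 := scale ⟨549755813888, 0, 0, 0⟩ v173; ok v174 && (
  let v175 := mul v11 v21; ok v175 && (
  let v176 := sub v0 v106; ok v176 && (
  let v177 := mul v11 v22; ok v177 && (
  let v178 := scale ⟨2199023255552, 0, 0, 0⟩ v177; ok v178 && (
  let v179 := sub v176 v178; ok v179 && (
  let v180 := mul v175 v175; ok v180 && (
  let v181 := add v179 v180; ok v181 && (
  let v182 := add v181 v0; ok v182 && (
  let v183 := scale ⟨549755813888, 0, 0, 0⟩ v182; ok v183 && (
  let v184 := scale ⟨549755813888, 0, 0, 0⟩ v25; ok v184 && (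
  let v185 := sub v15 v184; ok v185 && (
  let v186 := mul v107 v176; ok v186 && (
  let v187 := mul v186 v14; ok v187 && (
  let v188 := scale ⟨137438953472, 0, 0, 0⟩ v187; ok v188 && (
  let v189 := add v185 v188; ok v189 && (
  let v190 := mul v183 v189; ok v190 && (
  let v191 := add v125 v0; ok v191 && (
  let v192 := mul v191 v164; ok v192 && (
  let v193 := mul v125 v167; ok v193 && (
  let v194 := add v192 v193; ok v194 && (
  let v195 := mul v162 v194; ok v195 && (
  let v196 := add v128 v195; ok v196 && (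
  let v197 := mul v196 v6; ok v197 && (
  let v198 := mul v191 v162; ok v198 && (
  let v199 := mul v198 v164; ok v199 && (
  let v200 := add v128 v199; ok v200 && (
  let v201 := mul v200 v6; ok v201 && (
  let v202 := scale ⟨223338299392, 0, 0, 0⟩ v201; ok v202 && (
  let v203 := add v8 v202; ok v203 && (
  let v204 := mul v201 v203; ok v204 && (
  let v205 := add v0 v204; ok v205 && (
  let v206 := scale ⟨893353197568, 0, 0, 0⟩ v197; ok v206 && (
  let v207 := add v0 v206; ok v207 && (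
  let v208 := mul v197 v207; ok v208 && (
  let v209 := add v0 v208; ok v209 && (
  let v210 := mul v144 v147; ok v210 && (
  let v211 := mul v210 v169; ok v211 && (
  let v212 := mul v211 v209; ok v212 && (
  let v213 := mul v190 v205; ok v213 && (
  let v214 := add v52 v8; ok v214 && (
  let v215 := mul v212 v214; ok v215 && (
  let v216 := add v213 v215; ok v216 && (
  let v217 := add v52 v0; ok v217 && (
  let v218 := mul v212 v217; ok v218 && (
  let v219 := mul v170 v217; ok v219 && (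
  let v220 := mul v219 v147; ok v220 && (
  let v221 := mul v220 v146; ok v221 && (
  let v222 := mul v216 v127; ok v222 && (
  let v223 := mul v221 v174; ok v223 && (
  let v224 := add v222 v223; ok v224 && (
  let v225 := mul v5 v149; ok v225 && (
  let v226 := inv v52; ok v226 && (
  let v227 := mul v225 v226; ok v227 && (
  let v228 := scale ⟨549755813888, 0, 0, 0⟩ v227; ok v228 && (
  let v229 := mul v23 v228; ok v229 && (
  let v230 := add v229 v224; ok v230 && (
  let v231 := mul x1 v230; ok v231 && (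
  let v232 := mul x0 v231; ok v232 && (
  let v233 := mul v216 v191; ok v233 && (
  let v234 := mul v233 v164; ok v234 && (
  let v235 := mul v218 v125; ok v235 && (
  let v236 := mul v235 v167; ok v236 && (
  let v237 := add v234 v236; ok v237 && (
  let v238 := mul v23 v232; ok v238 && (
  let v239 := mul v160 v237; ok v239 && (
  let v240 := add v238 v239; ok v240 && (
  let v241 := mul v107 v240; ok v241 && (
  let v242 := mul v241 v226; ok v242 && (
  let v243 := sub v0 v242; ok v243 && (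
  let v244 := inv v243; ok v244 && (
  let v245 := mul v240 v244; ok v245 && (
  let v246 := mul x1 v245; ok v246 && (
  let v247 := mul v107 v245; ok v247 && (
  let v248 := mul v247 v226; ok v248 && (
  let v249 := sub v0 v248; ok v249 && (
  let v250 := mul v49 v249; ok v250 && (
  let v251 := sub v250 v246; ok v251 && (
  let v252 := inv v251; ok v252 && (
  let v253 := mul v246 v252; ok v253 && (
  let v254 := sub v52 v247; ok v254 && (
  let v255 := inv v254; ok v255 && (
  let v256 := mul v253 v0; ok v256 && (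
  let v257 := scale ⟨549755813888, 0, 0, 0⟩ v256; ok v257 && (
  let v258 := sub v0 v257; ok v258 && (
  let v259 := sub v0 v256; ok v259 && (
  let v260 := inv v259; ok v260 && (
  let v261 := mul v258 v260; ok v261 && (
  let v262 := mul v3 v255; ok v262 && (
  let v263 := mul v140 v252; ok v263 && (
  let v264 := mul v263 v261; ok v264 && (
  let v265 := add v262 v264; ok v265 && (
  let v266 := mul v7 v245; ok v266 && (
  let v267 := mul v255 v266; ok v267 && (
  let v268 := mul v0 v252; ok v268 && (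
  let v269 := mul v268 v261; ok v269 && (
  let v270 := mul v269 v246; ok v270 && (
  let v271 := add v267 v270; ok v271 && (
  let v272 := scale ⟨223338299392, 0, 0, 0⟩ v271; ok v272 && (
  let v273 := add v8 v272; ok v273 && (
  let v274 := mul v271 v273; ok v274 && (
  let v275 := add v0 v274; ok v275 && (
  let v276 := mul v265 v275; ok v276 && (
  let v277 := mul v276 v244; ok v277 && (
  let v278 := mul v277 v237; ok v278 && (
  let v279 := mul v161 v23; ok v279 && (
  let v280 := cst ⟨7696581394432, 0, 0, 0⟩; ok v280 && (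
  let v281 := cst ⟨10995116277760, 0, 0, 0⟩; ok v281 && (
  let v282 := inv v281; ok v282 && (
  let v283 := mul v280 v282; ok v283 && (
  let v284 := mul v141 v24; ok v284 && (
  let v285 := mul v284 v283; ok v285 && (
  let v286 := mul v130 v101; ok v286 && (
  let v287 := mul v22 v286; ok v287 && (
  let v288 := scale ⟨549755813888, 0, 0, 0⟩ v139; ok v288 && (
  let v289 := sub v0 v288; ok v289 && (
  let v290 := sub v0 v139; ok v290 && (
  let v291 := inv v290; ok v291 && (
  let v292 := mul v289 v291; ok v292 && (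
  let v293 := mul v292 v138; ok v293 && (
  let v294 := mul v107 v117; ok v294 && (
  let v295 := scale ⟨733097230336, 0, 0, 0⟩ v294; ok v295 && (
  let v296 := sub v0 v295; ok v296 && (
  let v297 := mul v117 v296; ok v297 && (
  let v298 := mul v89 v89; ok v298 && (
  let v299 := mul v12 v298; ok v299 && (
  let v300 := add v297 v299; ok v300 && (
  let v301 := mul v293 v140; ok v301 && (
  let v302 := add v300 v0; ok v302 && (
  let v303 := mul v301 v302; ok v303 && (
  let v304 := sub v300 v303; ok v304 && (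
  let v305 := scale ⟨366548615168, 0, 0, 0⟩ v45; ok v305 && (
  let v306 := sub v0 v305; ok v306 && (
  let v307 := mul v26 v306; ok v307 && (
  let v308 := add v304 v307; ok v308 && (
  let v309 := mul v286 v308; ok v309 && (
  let v310 := mul v287 v287; ok v310 && (
  let v311 := add v0 v310; ok v311 && (
  let v312 := inv v311; ok v312 && (
  let v313 := mul v309 v312; ok v313 && (
  let v314 := sub v0 v253; ok v314 && (
  let v315 := mul v314 v313; ok v315 && (
  let v316 := sub v0 v301; ok v316 && (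
  isPos 4 v316 && (
  isPos 4 v313 && (
  isPos 4 v314 && (
  let v317 := mul v277 v155; ok v317 && (
  let v318 := mul v317 v230; ok v318 && (
  let v319 := inv v24; ok v319 && (
  let v320 := mul v318 v319; ok v320 && (
  let v321 := mul v4 v315; ok v321 && (
  let v322 := mul x1 v321; ok v322 && (
  let v323 := scale ⟨549755813888, 0, 0, 0⟩ v322; ok v323 && (
  let v324 := sub v0 v323; ok v324 && (
  let v325 := mul v321 v324; ok v325 && (
  let v326 := neg v325; ok v326 && (
  let v327 := mul v3 x3; ok v327 && (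
  let v328 := mul v327 v141; ok v328 && (
  let v329 := mul v328 v15; ok v329 && (
  let v330 := mul v0 v329; ok v330 && (
  let v331 := add v326 v330; ok v331 && (
  let v332 := mul v326 v330; ok v332 && (
  let v333 := mul x1 v332; ok v333 && (
  let v334 := add v331 v333; ok v334 && (
  let v335 := mul v12 v42; ok v335 && (
  let v336 := scale ⟨412316860416, 0, 0, 0⟩ v43; ok v336 && (
  let v337 := sub v8 v336; ok v337 && (
  let v338 := mul v335 v337; ok v338 && (
  let v339 := mul v0 v338; ok v339 && (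
  let v340 := neg v339; ok v340 && (
  let v341 := add v334 v340; ok v341 && (
  let v342 := mul v334 v340; ok v342 && (
  let v343 := mul x1 v342; ok v343 && (
  let v344 := add v341 v343; ok v344 && (
  let v345 := mul v3 v245; ok v345 && (
  let v346 := mul v345 v319; ok v346 && (
  let v347 := mul v0 v346; ok v347 && (
  let v348 := add v344 v347; ok v348 && (
  let v349 := mul v344 v347; ok v349 && (
  let v350 := mul x1 v349; ok v350 && (
  let v351 := add v348 v350; ok v351 && (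
  let v352 := mul v0 v285; ok v352 && (
  let v353 := sub v351 v352; ok v353 && (
  let v354 := mul x1 v285; ok v354 && (
  let v355 := add v0 v354; ok v355 && (
  let v356 := inv v355; ok v356 && (
  let v357 := mul v353 v356; ok v357 && (
  let v358 := mul v3 v9; ok v358 && (
  let v359 := mul v358 v245; ok v359 && (
  let v360 := mul v359 v255; ok v360 && (
  let v361 := mul v0 v360; ok v361 && (
  let v362 := add v357 v361; ok v362 && (
  let v363 := mul v357 v361; ok v363 && (
  let v364 := mul x1 v363; ok v364 && (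
  let v365 := add v362 v364; ok v365 && (
  let v366 := mul x1 v365; ok v366 && (
  let v367 := add v0 v366; ok v367 && (
  let v368 := mul v278 v162; ok v368 && (
  let v369 := mul x1 v279; ok v369 && (
  let v370 := mul v320 v369; ok v370 && (
  let v371 := add v368 v370; ok v371 && (
  let v372 := mul v0 v371; ok v372 && (
  let v373 := add v278 v320; ok v373 && (
  let v374 := mul v0 v373; ok v374 && (
  let v375 := mul v372 v367; ok v375 && (
  let v376 := add v365 v375; ok v376 && (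
  let v377 := add v376 v374; ok v377 && (
  let v378 := neg v377; ok v378 && (
  let v379 := scale ⟨1073741824, 0, 0, 0⟩ v0; ok v379 && (
  let v380 := sub v378 v379; ok v380 && (
  let v381 := sub v20 v0; ok v381 && (
  let v382 := add v381 v56; ok v382 && (
  let v383 := scale ⟨2199023255552, 0, 0, 0⟩ v283; ok v383 && (
  let v384 := sub v382 v383; ok v384 && (
  let v385 := mul v141 v384; ok v385 && (
  let v386 := mul v381 v383; ok v386 && (
  let v387 := add v386 v0; ok v387 && (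
  let v388 := inv v387; ok v388 && (
  let v389 := mul v385 v388; ok v389 && (
  let v390 := mul v158 v237; ok v390 && (
  let v391 := scale ⟨549755813888, 0, 0, 0⟩ v152; ok v391 && (
  let v392 := add v17 v391; ok v392 && (
  let v393 := mul v390 v392; ok v393 && (
  let v394 := scale ⟨2199023255552, 0, 0, 0⟩ v393; ok v394 && (
  let v395 := add v232 v394; ok v395 && (
  let v396 := scale ⟨2199023255552, 0, 0, 0⟩ v395; ok v396 && (
  let v397 := mul v396 v244; ok v397 && (
  let v398 := mul v9 v245; ok v398 && (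
  let v399 := sub v24 v398; ok v399 && (
  let v400 := inv v399; ok v400 && (
  let v401 := mul v397 v400; ok v401 && (
  let v402 := sub v389 v401; ok v402 && (
  let v403 := mul v154 v154; ok v403 && (
  let v404 := cst ⟨14293651161088, 0, 0, 0⟩; ok v404 && (
  let v405 := mul v404 v282; ok v405 && (
  let v406 := mul v403 v405; ok v406 && (
  let v407 := mul x0 x0; ok v407 && (
  let v408 := scale ⟨27487790694400, 0, 0, 0⟩ v407; ok v408 && (
  let v409 := add v406 v408; ok v409 && (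
  let v410 := mul v285 v356; ok v410 && (
  let v411 := sub v40 x1; ok v411 && (
  let v412 := sub v411 v39; ok v412 && (
  let v413 := mul v0 v3; ok v413 && (
  let v414 := mul v413 x0; ok v414 && (
  let v415 := mul v24 v237; ok v415 && (
  let v416 := mul v415 v156; ok v416 && (
  let v417 := add v224 v416; ok v417 && (
  let v418 := add v398 v56; ok v418 && (
  let v419 := mul v0 v418; ok v419 && (
  let v420 := mul v409 v410; ok v420 && (
  let v421 := mul v244 v419; ok v421 && (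
  let v422 := mul v414 v417; ok v422 && (
  let v423 := mul v421 v422; ok v423 && (
  let v424 := sub v420 v423; ok v424 && (
  let v425 := scale ⟨549755813888, 0, 0, 0⟩ v398; ok v425 && (
  let v426 := add v0 v425; ok v426 && (
  let v427 := mul v244 v426; ok v427 && (
  let v428 := mul x1 v23; ok v428 && (
  let v429 := mul v428 v149; ok v429 && (
  let v430 := mul v24 v52; ok v430 && (
  let v431 := inv v430; ok v431 && (
  let v432 := mul v429 v431; ok v432 && (
  let v433 := mul v427 v432; ok v433 && (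
  let v434 := sub v412 v433; ok v434 && (
  let v435 := mul v152 v424; ok v435 && (
  let v436 := sub v0 v152; ok v436 && (
  let v437 := mul v12 v434; ok v437 && (
  let v438 := mul v436 v437; ok v438 && (
  let v439 := mul v409 v438; ok v439 && (
  let v440 := add v435 v439; ok v440 && (
  isPos 4 v163 && (
  isPos 4 v166 && (
  let v441 := scale ⟨2199023255552, 0, 0, 0⟩ v241; ok v441 && (
  let v442 := sub v52 v441; ok v442 && (
  isPos 4 v442 && (
  isPos 4 v251 && (
  let v443 := sub v8 v139; ok v443 && (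
  isPos 4 v443 && (
  let v444 := scale ⟨687194767360, 0, 0, 0⟩ v0; ok v444 && (
  let v445 := sub v444 v201; ok v445 && (
  isPos 4 v445 && (
  let v446 := scale ⟨377957122048, 0, 0, 0⟩ v0; ok v446 && (
  let v447 := sub v446 v197; ok v447 && (
  isPos 4 v447 && (
  isPos 4 v399 && (
  isPos 4 v259 && (
  let v448 := sub v444 v271; ok v448 && (
  isPos 4 v448 && (
  isPos 4 v402 && (
  isPos 4 v380 && (
  isPos 4 v440 && (
  isPos 4 v434 && (
  true))))))))))))))))))))))))))))))))))))))))))))))))))))))))))))))))))))))))))))))))))))))))))))))))))))))))))))))))))))))))))))))))))))))))))))))))))))))))))))))))))))))))))))))))))))))))))))))))))))))))))))))))))))))))))))))))))))))))))))))))))))))))))))))))))))))))))))))))))))))))))))))))))))))))))))))))))))))))))))))))))))))))))))))))))))))))))))))))))))))))))))))))))))))))))))))))))))))))))))))))))))))))))))))))))))))))))))))))))))))))))))))))))))))))))))))))))))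
  | _ => false

set_option maxRecDepth 1000000 in
theorem chk6_eq (O : Ops) (m : List O.α)
    (h : chk6 O.cst O.add O.sub O.mul O.scale O.neg O.inv O.exp O.log O.ok O.isPos O.isLt m = true) :
    runG O 4 prog6 m = true := by
  match m, h with
  | [x0, x1, x2, x3], h => exact h

def chkB6 : List opsE.α → Bool :=
  chk6 opsE.cst opsE.add opsE.sub opsE.mul opsE.scale opsE.neg opsE.inv opsE.exp opsE.log opsE.ok opsE.isPos opsE.isLt

theorem chkB6_eq (m : List opsE.α) (h : chkB6 m = true) : runG opsE 4 prog6 m = true :=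
  chk6_eq opsE m h

def prog7 : List Op := [
  .const ⟨1099511627776, 0, 0, 0⟩,
  .mul 2 3,
  .mul 0 2,
  .mul 5 0,
  .mul 6 6,
  .mul 6 0,
  .mul 3 3,
  .mul 8 1,
  .const ⟨549755813888, 0, 0, 0⟩,
  .mul 10 5,
  .mul 0 13,
  .scale ⟨549755813888, 0, 0, 0⟩ 0,
  .mul 8 8,
  .mul 1 1,
  .sub 13 0,
  .inv 0,
  .mul 4 0,
  .scale ⟨2199023255552, 0, 0, 0⟩ 0,
  .scale ⟨2199023255552, 0, 0, 0⟩ 2,
  .sub 0 18,
  .add 0 2,
  .mul 24 5,
  .mul 18 0,
  .sub 22 0,
  .add 23 1,
  .mul 26 12,
  .mul 4 4,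
  .scale ⟨10774999203840, 0, 0, 0⟩ 15,
  .scale ⟨45768245248, 0, 0, 0⟩ 0,
  .const ⟨183207198720, 0, 0, 0⟩,
  .add 1 0,
  .mul 3 0,
  .add 23 0,
  .mul 5 0,
  .add 33 0,
  .mul 7 0,
  .scale ⟨549755813888, 0, 0, 0⟩ 0,
  .add 36 0,
  .mul 3 0,
  .mul 21 16,
  .scale ⟨2199023255552, 0, 0, 0⟩ 20,
  .add 1 0,
  .add 0 43,
  .mul 17 0,
  .add 0 43,
  .mul 27 27,
  .scale ⟨2199023255552, 0, 0, 0⟩ 0,
  .add 0 46,
  .mul 28 5,
  .sub 0 48,
  .log 5,
  .scale ⟨549755813888, 0, 0, 0⟩ 0,
  .exp 0,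
  .const ⟨3298534883328, 0, 0, 0⟩,
  .inv 0,
  .mul 54 0,
  .const ⟨2199023255552, 0, 0, 0⟩,
  .add 13 0,
  .inv 0,
  .mul 15 0,
  .mul 0 0,
  .sub 60 1,
  .mul 1 6,
  .add 62 0,
  .mul 2 0,
  .mul 4 4,
  .scale ⟨219915747328, 0, 0, 0⟩ 0,
  .mul 24 2,
  .scale ⟨549755813888, 0, 0, 0⟩ 0,
  .mul 26 2,
  .scale ⟨549755813888, 0, 0, 0⟩ 0,
  .add 2 0,
  .mul 52 22,
  .scale ⟨4398046511104, 0, 0, 0⟩ 0,
  .mul 54 48,
  .mul 0 25,
  .scale ⟨4398046511104, 0, 0, 0⟩ 0,
  .add 0 20,
  .inv 0,
  .mul 2 0,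
  .mul 0 0,
  .sub 80 1,
  .mul 1 26,
  .add 82 0,
  .mul 2 0,
  .mul 4 4,
  .scale ⟨219915747328, 0, 0, 0⟩ 0,
  .mul 13 2,
  .scale ⟨549755813888, 0, 0, 0⟩ 0,
  .sub 0 17,
  .mul 16 3,
  .scale ⟨549755813888, 0, 0, 0⟩ 0,
  .add 0 21,
  .add 3 0,
  .mul 88 25,
  .neg 0,
  .exp 0,
  .mul 91 26,
  .mul 1 0,
  .mul 93 9,
  .neg 0,
  .exp 0,
  .mul 96 9,
  .mul 1 0,
  .mul 81 86,
  .add 85 0,
  .inv 0,
  .mul 82 0,
  .mul 84 109,
  .mul 0 1,
  .sub 109 97,
  .mul 84 0,
  .mul 102 102,
  .sub 112 86,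
  .mul 3 0,
  .mul 89 65,
  .inv 71,
  .mul 1 0,
  .add 98 0,
  .mul 74 0,
  .mul 0 0,
  .inv 0,
  .mul 7 0,
  .add 103 97,
  .mul 124 0,
  .inv 0,
  .mul 125 0,
  .mul 0 0,
  .mul 0 13,
  .const ⟨1898375544832, 0, 0, 0⟩,
  .const ⟨79164837199872, 0, 0, 0⟩,
  .const ⟨109951162777600, 0, 0, 0⟩,
  .inv 0,
  .mul 2 0,
  .mul 121 20,
  .sub 134 0,
  .mul 134 134,
  .mul 0 1,
  .const ⟨23089744183296, 0, 0, 0⟩,
  .const ⟨10995116277760, 0, 0, 0⟩,
  .inv 0,
  .mul 2 0,
  .mul 136 0,
  .add 5 0,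
  .mul 0 137,
  .scale ⟨687194767360, 0, 0, 0⟩ 143,
  .add 0 16,
  .inv 0,
  .scale ⟨549755813888, 0, 0, 0⟩ 14,
  .mul 151 0,
  .add 2 0,
  .sub 150 6,
  .mul 1 0,
  .inv 0,
  .mul 156 129,
  .mul 0 1,
  .mul 157 0,
  .mul 133 0,
  .scale ⟨223338299392, 0, 0, 0⟩ 0,
  .add 150 0,
  .mul 2 0,
  .add 160 0,
  .mul 4 0,
  .add 0 162,
  .mul 67 0,
  .const ⟨107752139522048, 0, 0, 0⟩,
  .mul 0 33,
  .sub 31 0,
  .pos 0,
  .scale ⟨687194767360, 0, 0, 0⟩ 167,
  .sub 0 11,
  .pos 0,
  .pos 18,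
  .mul 170 170,
  .const ⟨1939538511396864, 0, 0, 0⟩,
  .mul 0 39,
  .mul 2 0,
  .sub 0 59,
  .pos 0,
  .const ⟨3623878656, 0, 0, 0⟩,
  .sub 0 169,
  .pos 0,
  .const ⟨34359738368, 0, 0, 0⟩,
  .sub 0 160,
  .pos 0,
  .scale ⟨4398046511104, 0, 0, 0⟩ 179,
  .sub 0 158,
  .pos 0,
  .const ⟨274877906944, 0, 0, 0⟩,
  .sub 0 169,
  .pos 0,
  .mul 159 158,
  .add 164 185,
  .mul 162 165,
  .mul 0 168,
  .scale ⟨2199023255552, 0, 0, 0⟩ 0,
  .add 140 0,
  .mul 4 0,
  .inv 0,
  .mul 7 0,
  .mul 193 0,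
  .pos 103,
  .mul 64 76,
  .const ⟨10849087389696, 0, 0, 0⟩,
  .sub 0 1,
  .pos 0,
  .const ⟨13, 0, 0, 0⟩,
  .const ⟨2295, 0, 0, 0⟩,
  .mul 4 1,
  .sub 1 0,
  .const ⟨302996, 0, 0, 0⟩,
  .mul 7 1,
  .sub 1 0,
  .const ⟨27269633, 0, 0, 0⟩,
  .mul 10 1,
  .sub 1 0,
  .const ⟨1527099484, 0, 0, 0⟩,
  .mul 13 1,
  .sub 1 0,
  .const ⟨45812984490, 0, 0, 0⟩,
  .mul 16 1,
  .sub 1 0,
  .mul 18 0,
  .sub 204 0,
  .mul 20 0,
  .sub 214 0,
  .add 114 215,
  .mul 115 115,
  .add 0 217,
  .mul 117 3,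
  .scale ⟨2199023255552, 0, 0, 0⟩ 0,
  .add 2 0,
  .scale ⟨4398046511104, 0, 0, 0⟩ 118,
  .sub 1 0,
  .inv 7,
  .mul 1 0,
  .add 0 9,
  .mul 125 34,
  .scale ⟨549755813888, 0, 0, 0⟩ 0,
  .mul 0 2,
  .sub 6 0,
  .pos 7,
  .pos 0,
  .sub 230 129,
  .mul 0 15,
  .scale ⟨2199023255552, 0, 0, 0⟩ 129,
  .add 1 0,
  .inv 4,
  .mul 1 0,
  .scale ⟨549755813888, 0, 0, 0⟩ 0,
  .add 0 229,
  .inv 0,
  .mul 2 0,
  .mul 48 0,
  .mul 1 242,
  .add 231 242,
  .inv 0,
  .mul 233 0,
  .scale ⟨2199023255552, 0, 0, 0⟩ 0,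
  .sub 246 0,
  .sub 247 236,
  .mul 252 4,
  .mul 0 2,
  .add 226 0,
  .scale ⟨224412041216, 0, 0, 0⟩ 236,
  .inv 214,
  .mul 1 0,
  .mul 254 233,
  .add 76 0,
  .inv 0,
  .mul 257 0,
  .mul 259 1,
  .mul 0 235,
  .mul 0 6,
  .mul 3 237,
  .mul 0 8,
  .sub 263 0,
  .inv 0,
  .mul 101 2,
  .sub 266 0,
  .inv 0,
  .scale ⟨2199023255552, 0, 0, 0⟩ 262,
  .add 0 269,
  .add 264 270,
  .mul 272 250,
  .scale ⟨2199023255552, 0, 0, 0⟩ 0,
  .scale ⟨549755813888, 0, 0, 0⟩ 275,
  .add 1 0,
  .mul 278 0,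
  .scale ⟨549755813888, 0, 0, 0⟩ 0,
  .mul 266 256,
  .sub 278 167,
  .mul 268 257,
  .scale ⟨2199023255552, 0, 0, 0⟩ 0,
  .sub 2 0,
  .mul 4 4,
  .add 1 0,
  .add 0 284,
  .scale ⟨549755813888, 0, 0, 0⟩ 0,
  .scale ⟨549755813888, 0, 0, 0⟩ 261,
  .sub 272 0,
  .mul 176 9,
  .mul 0 275,
  .scale ⟨137438953472, 0, 0, 0⟩ 0,
  .add 3 0,
  .mul 6 0,
  .const ⟨1, 0, 0, 0⟩,
  .const ⟨12, 0, 0, 0⟩,
  .mul 167 1,
  .sub 1 0,
  .const ⟨2296, 0, 0, 0⟩,
  .mul 170 1,
  .sub 1 0,
  .const ⟨302995, 0, 0, 0⟩,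
  .mul 173 1,
  .sub 1 0,
  .const ⟨27269634, 0, 0, 0⟩,
  .mul 176 1,
  .sub 1 0,
  .const ⟨1527099483, 0, 0, 0⟩,
  .mul 179 1,
  .sub 1 0,
  .const ⟨45812984491, 0, 0, 0⟩,
  .mul 182 1,
  .sub 1 0,
  .mul 184 0,
  .sub 305 0,
  .mul 186 0,
  .sub 315 0,
  .mul 188 310,
  .mul 221 221,
  .add 0 318,
  .mul 2 2,
  .scale ⟨369367187456, 0, 0, 0⟩ 0,
  .add 5 0,
  .mul 226 0,
  .scale ⟨2199023255552, 0, 0, 0⟩ 0,
  .add 5 0,
  .scale ⟨2199023255552, 0, 0, 0⟩ 227,
  .add 1 0,
  .const ⟨8589934592, 0, 0, 0⟩,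
  .add 1 0,
  .log 0,
  .scale ⟨549755813888, 0, 0, 0⟩ 0,
  .exp 0,
  .mul 236 170,
  .add 1 0,
  .mul 0 69,
  .mul 171 67,
  .add 1 0,
  .mul 74 0,
  .add 181 0,
  .mul 0 333,
  .mul 6 77,
  .mul 0 76,
  .add 185 0,
  .mul 0 337,
  .scale ⟨223338299392, 0, 0, 0⟩ 0,
  .add 337 0,
  .mul 2 0,
  .add 347 0,
  .scale ⟨893353197568, 0, 0, 0⟩ 8,
  .add 349 0,
  .mul 10 0,
  .add 351 0,
  .mul 106 103,
  .mul 0 83,
  .mul 0 2,
  .mul 62 7,
  .add 304 348,
  .mul 2 0,
  .add 2 0,
  .add 307 359,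
  .mul 5 0,
  .mul 90 1,
  .mul 0 113,
  .mul 0 115,
  .mul 5 209,
  .mul 1 88,
  .add 1 0,
  .mul 362 116,
  .inv 316,
  .mul 1 0,
  .scale ⟨549755813888, 0, 0, 0⟩ 0,
  .mul 348 0,
  .add 0 5,
  .mul 375 0,
  .mul 375 0,
  .mul 16 41,
  .mul 0 111,
  .mul 16 213,
  .mul 0 110,
  .add 2 0,
  .mul 357 5,
  .mul 120 1,
  .add 1 0,
  .mul 271 0,
  .mul 0 15,
  .sub 385 0,
  .inv 0,
  .mul 4 0,
  .mul 390 0,
  .mul 277 1,
  .mul 0 21,
  .sub 391 0,
  .mul 343 0,
  .sub 0 4,
  .inv 0,
  .mul 6 0,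
  .sub 344 6,
  .inv 0,
  .mul 2 158,
  .scale ⟨549755813888, 0, 0, 0⟩ 0,
  .sub 400 0,
  .sub 401 2,
  .inv 0,
  .mul 2 0,
  .mul 401 6,
  .mul 163 10,
  .mul 0 2,
  .add 2 0,
  .mul 401 20,
  .mul 11 0,
  .mul 170 15,
  .mul 0 7,
  .mul 0 23,
  .add 3 0,
  .scale ⟨223338299392, 0, 0, 0⟩ 0,
  .add 407 0,
  .mul 2 0,
  .add 417 0,
  .mul 10 0,
  .mul 0 32,
  .mul 0 40,
  .mul 159 398,
  .const ⟨7696581394432, 0, 0, 0⟩,
  .mul 0 283,
  .mul 181 400,
  .mul 0 1,
  .mul 242 320,
  .mul 405 0,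
  .scale ⟨549755813888, 0, 0, 0⟩ 187,
  .sub 429 0,
  .sub 430 189,
  .inv 0,
  .mul 2 0,
  .mul 0 241,
  .mul 322 312,
  .scale ⟨733097230336, 0, 0, 0⟩ 0,
  .sub 436 0,
  .mul 315 0,
  .mul 349 349,
  .mul 427 0,
  .add 2 0,
  .mul 7 199,
  .add 1 442,
  .mul 1 0,
  .sub 3 0,
  .scale ⟨366548615168, 0, 0, 0⟩ 400,
  .sub 446 0,
  .mul 421 0,
  .add 3 0,
  .mul 22 0,
  .mul 22 22,
  .add 451 0,
  .inv 0,
  .mul 3 0,
  .sub 454 58,
  .mul 0 1,
  .sub 456 14,
  .pos 0,
  .pos 3,
  .pos 2,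
  .mul 37 201,
  .mul 0 85,
  .inv 435,
  .mul 1 0,
  .mul 457 5,
  .mul 464 0,
  .scale ⟨549755813888, 0, 0, 0⟩ 0,
  .sub 464 0,
  .mul 3 0,
  .neg 0,
  .mul 464 471,
  .mul 0 225,
  .mul 0 454,
  .mul 470 0,
  .add 4 0,
  .mul 5 1,
  .mul 475 0,
  .add 2 0,
  .mul 463 433,
  .scale ⟨412316860416, 0, 0, 0⟩ 433,
  .sub 469 0,
  .mul 2 0,
  .mul 479 0,
  .neg 0,
  .add 6 0,
  .mul 7 1,
  .mul 485 0,
  .add 2 0,
  .mul 482 97,
  .mul 0 26,
  .mul 487 0,
  .add 3 0,
  .mul 4 1,
  .mul 492 0,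
  .add 2 0,
  .mul 492 66,
  .sub 1 0,
  .mul 496 68,
  .add 495 0,
  .inv 0,
  .mul 3 0,
  .mul 495 489,
  .mul 0 111,
  .mul 0 102,
  .mul 501 0,
  .add 4 0,
  .mul 5 1,
  .mul 506 0,
  .add 2 0,
  .mul 508 0,
  .add 507 0,
  .mul 87 245,
  .mul 511 87,
  .mul 49 0,
  .add 2 0,
  .mul 512 0,
  .add 92 52,
  .mul 514 0,
  .mul 2 7,
  .add 10 0,
  .add 0 2,
  .neg 0,
  .scale ⟨1073741824, 0, 0, 0⟩ 519,
  .sub 1 0,
  .sub 501 521,
  .add 0 466,
  .scale ⟨2199023255552, 0, 0, 0⟩ 99,
  .sub 1 0,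
  .mul 282 0,
  .mul 4 2,
  .add 0 527,
  .inv 0,
  .mul 3 0,
  .mul 271 150,
  .scale ⟨549755813888, 0, 0, 0⟩ 277,
  .add 515 0,
  .mul 2 0,
  .scale ⟨2199023255552, 0, 0, 0⟩ 0,
  .add 160 0,
  .scale ⟨2199023255552, 0, 0, 0⟩ 0,
  .mul 0 150,
  .mul 529 150,
  .sub 515 0,
  .inv 0,
  .mul 3 0,
  .sub 12 0,
  .mul 288 288,
  .const ⟨14293651161088, 0, 0, 0⟩,
  .mul 0 405,
  .mul 2 0,
  .scale ⟨27487790694400, 0, 0, 0⟩ 377,
  .add 1 0,
  .mul 123 52,
  .sub 510 552,
  .sub 0 512,
  .mul 552 549,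
  .mul 0 554,
  .mul 530 174,
  .mul 0 298,
  .add 189 0,
  .add 18 501,
  .mul 558 0,
  .mul 10 9,
  .mul 173 1,
  .mul 7 4,
  .mul 1 0,
  .sub 3 0,
  .scale ⟨549755813888, 0, 0, 0⟩ 25,
  .add 565 0,
  .mul 179 0,
  .mul 569 544,
  .mul 0 317,
  .mul 545 517,
  .inv 0,
  .mul 2 0,
  .mul 5 0,
  .sub 21 0,
  .mul 320 10,
  .sub 575 321,
  .mul 564 2,
  .mul 1 0,
  .mul 29 0,
  .add 4 0,
  .pos 316,
  .pos 313,
  .scale ⟨2199023255552, 0, 0, 0⟩ 196,
  .sub 529 0,
  .pos 0,
  .pos 188,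
  .sub 574 341,
  .pos 0,
  .sub 415 239,
  .pos 0,
  .scale ⟨377957122048, 0, 0, 0⟩ 584,
  .sub 0 245,
  .pos 0,
  .pos 46,
  .pos 184,
  .sub 418 172,
  .pos 0,
  .pos 44,
  .pos 66,
  .pos 7,
  .pos 13]

def chk7 {α : Type} (cst : Z → α) (add sub mul : α → α → α) (scale : Z → α → α)
    (neg inv exp log : α → α) (ok : α → Bool) (isPos : Nat → α → Bool) (isLt : α → Nat → Bool) :
    List α → Bool
  | [x0, x1, x2, x3] =>
  let v0 := cst ⟨1099511627776, 0, 0, 0⟩; ok v0 && (
  let v1 := mul x1 x2; ok v1 && (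
  let v2 := mul v1 x0; ok v2 && (
  let v3 := mul x2 v2; ok v3 && (
  let v4 := mul x2 x2; ok v4 && (
  let v5 := mul x1 v4; ok v5 && (
  let v6 := mul v2 v2; ok v6 && (
  let v7 := mul x1 v5; ok v7 && (
  let v8 := cst ⟨549755813888, 0, 0, 0⟩; ok v8 && (
  let v9 := mul x1 v3; ok v9 && (
  let v10 := mul v9 x3; ok v10 && (
  let v11 := scale ⟨549755813888, 0, 0, 0⟩ v10; ok v11 && (
  let v12 := mul v3 v3; ok v12 && (
  let v13 := mul v11 v11; ok v13 && (
  let v14 := sub v0 v13; ok v14 && (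
  let v15 := inv v14; ok v15 && (
  let v16 := mul v11 v15; ok v16 && (
  let v17 := scale ⟨2199023255552, 0, 0, 0⟩ v16; ok v17 && (
  let v18 := scale ⟨2199023255552, 0, 0, 0⟩ v15; ok v18 && (
  let v19 := sub v18 v0; ok v19 && (
  let v20 := add v19 v17; ok v20 && (
  let v21 := mul x3 v15; ok v21 && (
  let v22 := mul v3 v21; ok v22 && (
  let v23 := sub v0 v22; ok v23 && (
  let v24 := add v0 v22; ok v24 && (
  let v25 := mul x1 v12; ok v25 && (
  let v26 := mul v21 v21; ok v26 && (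
  let v27 := scale ⟨10774999203840, 0, 0, 0⟩ v11; ok v27 && (
  let v28 := scale ⟨45768245248, 0, 0, 0⟩ v27; ok v28 && (
  let v29 := cst ⟨183207198720, 0, 0, 0⟩; ok v29 && (
  let v30 := add v28 v29; ok v30 && (
  let v31 := mul v27 v30; ok v31 && (
  let v32 := add v8 v31; ok v32 && (
  let v33 := mul v27 v32; ok v33 && (
  let v34 := add v0 v33; ok v34 && (
  let v35 := mul v27 v34; ok v35 && (
  let v36 := scale ⟨549755813888, 0, 0, 0⟩ v35; ok v36 && (
  let v37 := add v0 v36; ok v37 && (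
  let v38 := mul v34 v37; ok v38 && (
  let v39 := mul v17 v22; ok v39 && (
  let v40 := scale ⟨2199023255552, 0, 0, 0⟩ v19; ok v40 && (
  let v41 := add v39 v40; ok v41 && (
  let v42 := add v41 x1; ok v42 && (
  let v43 := mul v25 v42; ok v43 && (
  let v44 := add v43 v0; ok v44 && (
  let v45 := mul v17 v17; ok v45 && (
  let v46 := scale ⟨2199023255552, 0, 0, 0⟩ v45; ok v46 && (
  let v47 := add v46 v0; ok v47 && (
  let v48 := mul v19 v42; ok v48 && (
  let v49 := sub v48 v0; ok v49 && (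
  let v50 := log v44; ok v50 && (
  let v51 := scale ⟨549755813888, 0, 0, 0⟩ v50; ok v51 && (
  let v52 := exp v51; ok v52 && (
  let v53 := cst ⟨3298534883328, 0, 0, 0⟩; ok v53 && (
  let v54 := inv v53; ok v54 && (
  let v55 := mul v0 v54; ok v55 && (
  let v56 := cst ⟨2199023255552, 0, 0, 0⟩; ok v56 && (
  let v57 := add v43 v56; ok v57 && (
  let v58 := inv v57; ok v58 && (
  let v59 := mul v43 v58; ok v59 && (
  let v60 := mul v59 v59; ok v60 && (
  let v61 := sub v0 v59; ok v61 && (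
  let v62 := mul v60 v55; ok v62 && (
  let v63 := add v0 v62; ok v63 && (
  let v64 := mul v61 v63; ok v64 && (
  let v65 := mul v60 v60; ok v65 && (
  let v66 := scale ⟨219915747328, 0, 0, 0⟩ v65; ok v66 && (
  let v67 := mul v42 v64; ok v67 && (
  let v68 := scale ⟨549755813888, 0, 0, 0⟩ v67; ok v68 && (
  let v69 := mul v42 v66; ok v69 && (
  let v70 := scale ⟨549755813888, 0, 0, 0⟩ v69; ok v70 && (
  let v71 := add v68 v70; ok v71 && (
  let v72 := mul v19 v49; ok v72 && (
  let v73 := scale ⟨4398046511104, 0, 0, 0⟩ v72; ok v73 && (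
  let v74 := mul v19 v25; ok v74 && (
  let v75 := mul v74 v49; ok v75 && (
  let v76 := scale ⟨4398046511104, 0, 0, 0⟩ v75; ok v76 && (
  let v77 := add v76 v56; ok v77 && (
  let v78 := inv v77; ok v78 && (
  let v79 := mul v76 v78; ok v79 && (
  let v80 := mul v79 v79; ok v80 && (
  let v81 := sub v0 v79; ok v81 && (
  let v82 := mul v80 v55; ok v82 && (
  let v83 := add v0 v82; ok v83 && (
  let v84 := mul v81 v83; ok v84 && (
  let v85 := mul v80 v80; ok v85 && (
  let v86 := scale ⟨219915747328, 0, 0, 0⟩ v85; ok v86 && (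
  let v87 := mul v73 v84; ok v87 && (
  let v88 := scale ⟨549755813888, 0, 0, 0⟩ v87; ok v88 && (
  let v89 := sub v88 v71; ok v89 && (
  let v90 := mul v73 v86; ok v90 && (
  let v91 := scale ⟨549755813888, 0, 0, 0⟩ v90; ok v91 && (
  let v92 := add v91 v70; ok v92 && (
  let v93 := add v89 v92; ok v93 && (
  let v94 := mul v5 v68; ok v94 && (
  let v95 := neg v94; ok v95 && (
  let v96 := exp v95; ok v96 && (
  let v97 := mul v5 v70; ok v97 && (
  let v98 := mul v96 v97; ok v98 && (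
  let v99 := mul v5 v89; ok v99 && (
  let v100 := neg v99; ok v100 && (
  let v101 := exp v100; ok v101 && (
  let v102 := mul v5 v92; ok v102 && (
  let v103 := mul v101 v102; ok v103 && (
  let v104 := mul v22 v17; ok v104 && (
  let v105 := add v19 v104; ok v105 && (
  let v106 := inv v105; ok v106 && (
  let v107 := mul v24 v106; ok v107 && (
  let v108 := mul v23 x1; ok v108 && (
  let v109 := mul v108 v107; ok v109 && (
  let v110 := sub v0 v12; ok v110 && (
  let v111 := mul v26 v110; ok v111 && (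
  let v112 := mul v9 v9; ok v112 && (
  let v113 := sub v0 v26; ok v113 && (
  let v114 := mul v110 v113; ok v114 && (
  let v115 := mul v25 v49; ok v115 && (
  let v116 := inv v44; ok v116 && (
  let v117 := mul v115 v116; ok v117 && (
  let v118 := add v19 v117; ok v118 && (
  let v119 := mul v44 v118; ok v119 && (
  let v120 := mul v119 v119; ok v120 && (
  let v121 := inv v120; ok v121 && (
  let v122 := mul v114 v121; ok v122 && (
  let v123 := add v19 v25; ok v123 && (
  let v124 := mul x0 v123; ok v124 && (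
  let v125 := inv v124; ok v125 && (
  let v126 := mul v0 v125; ok v126 && (
  let v127 := mul v126 v126; ok v127 && (
  let v128 := mul v127 v114; ok v128 && (
  let v129 := cst ⟨1898375544832, 0, 0, 0⟩; ok v129 && (
  let v130 := cst ⟨79164837199872, 0, 0, 0⟩; ok v130 && (
  let v131 := cst ⟨109951162777600, 0, 0, 0⟩; ok v131 && (
  let v132 := inv v131; ok v132 && (
  let v133 := mul v130 v132; ok v133 && (
  let v134 := mul v12 v113; ok v134 && (
  let v135 := sub v0 v134; ok v135 && (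
  let v136 := mul v1 v1; ok v136 && (
  let v137 := mul v136 v135; ok v137 && (
  let v138 := cst ⟨23089744183296, 0, 0, 0⟩; ok v138 && (
  let v139 := cst ⟨10995116277760, 0, 0, 0⟩; ok v139 && (
  let v140 := inv v139; ok v140 && (
  let v141 := mul v138 v140; ok v141 && (
  let v142 := mul v5 v141; ok v142 && (
  let v143 := add v137 v142; ok v143 && (
  let v144 := mul v143 v6; ok v144 && (
  let v145 := scale ⟨687194767360, 0, 0, 0⟩ v1; ok v145 && (
  let v146 := add v145 v129; ok v146 && (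
  let v147 := inv v146; ok v147 && (
  let v148 := scale ⟨549755813888, 0, 0, 0⟩ v133; ok v148 && (
  let v149 := mul x2 v148; ok v149 && (
  let v150 := add v147 v149; ok v150 && (
  let v151 := sub v0 v144; ok v151 && (
  let v152 := mul v150 v151; ok v152 && (
  let v153 := inv v152; ok v153 && (
  let v154 := mul x2 v24; ok v154 && (
  let v155 := mul v154 v153; ok v155 && (
  let v156 := mul x1 v155; ok v156 && (
  let v157 := mul v23 v156; ok v157 && (
  let v158 := scale ⟨223338299392, 0, 0, 0⟩ v157; ok v158 && (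
  let v159 := add v8 v158; ok v159 && (
  let v160 := mul v157 v159; ok v160 && (
  let v161 := add v0 v160; ok v161 && (
  let v162 := mul v157 v161; ok v162 && (
  let v163 := add v162 v0; ok v163 && (
  let v164 := mul v96 v163; ok v164 && (
  let v165 := cst ⟨107752139522048, 0, 0, 0⟩; ok v165 && (
  let v166 := mul v165 v132; ok v166 && (
  let v167 := sub v135 v166; ok v167 && (
  isPos 4 v167 && (
  let v168 := scale ⟨687194767360, 0, 0, 0⟩ v0; ok v168 && (
  let v169 := sub v168 v157; ok v169 && (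
  isPos 4 v169 && (
  isPos 4 v151 && (
  let v170 := mul x0 x0; ok v170 && (
  let v171 := cst ⟨1939538511396864, 0, 0, 0⟩; ok v171 && (
  let v172 := mul v171 v132; ok v172 && (
  let v173 := mul v170 v172; ok v173 && (
  let v174 := sub v173 v114; ok v174 && (
  isPos 4 v174 && (
  let v175 := cst ⟨3623878656, 0, 0, 0⟩; ok v175 && (
  let v176 := sub v175 v6; ok v176 && (
  isPos 4 v176 && (
  let v177 := cst ⟨34359738368, 0, 0, 0⟩; ok v177 && (
  let v178 := sub v177 v17; ok v178 && (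
  isPos 4 v178 && (
  let v179 := scale ⟨4398046511104, 0, 0, 0⟩ x0; ok v179 && (
  let v180 := sub v179 v21; ok v180 && (
  isPos 4 v180 && (
  let v181 := cst ⟨274877906944, 0, 0, 0⟩; ok v181 && (
  let v182 := sub v181 v12; ok v182 && (
  isPos 4 v182 && (
  let v183 := mul v23 v24; ok v183 && (
  let v184 := add v19 x1; ok v184 && (
  let v185 := mul v22 v19; ok v185 && (
  let v186 := mul v185 v17; ok v186 && (
  let v187 := scale ⟨2199023255552, 0, 0, 0⟩ v186; ok v187 && (
  let v188 := add v47 v187; ok v188 && (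
  let v189 := mul v184 v188; ok v189 && (
  let v190 := inv v189; ok v190 && (
  let v191 := mul v183 v190; ok v191 && (
  let v192 := mul x1 v191; ok v192 && (
  isPos 4 v89 && (
  let v193 := mul v128 v116; ok v193 && (
  let v194 := cst ⟨10849087389696, 0, 0, 0⟩; ok v194 && (
  let v195 := sub v194 v193; ok v195 && (
  isPos 4 v195 && (
  let v196 := cst ⟨13, 0, 0, 0⟩; ok v196 && (
  let v197 := cst ⟨2295, 0, 0, 0⟩; ok v197 && (
  let v198 := mul v193 v196; ok v198 && (
  let v199 := sub v197 v198; ok v199 && (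
  let v200 := cst ⟨302996, 0, 0, 0⟩; ok v200 && (
  let v201 := mul v193 v199; ok v201 && (
  let v202 := sub v200 v201; ok v202 && (
  let v203 := cst ⟨27269633, 0, 0, 0⟩; ok v203 && (
  let v204 := mul v193 v202; ok v204 && (
  let v205 := sub v203 v204; ok v205 && (
  let v206 := cst ⟨1527099484, 0, 0, 0⟩; ok v206 && (
  let v207 := mul v193 v205; ok v207 && (
  let v208 := sub v206 v207; ok v208 && (
  let v209 := cst ⟨45812984490, 0, 0, 0⟩; ok v209 && (
  let v210 := mul v193 v208; ok v210 && (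
  let v211 := sub v209 v210; ok v211 && (
  let v212 := mul v193 v211; ok v212 && (
  let v213 := sub v8 v212; ok v213 && (
  let v214 := mul v193 v213; ok v214 && (
  let v215 := sub v0 v214; ok v215 && (
  let v216 := add v101 v0; ok v216 && (
  let v217 := mul v101 v101; ok v217 && (
  let v218 := add v217 v0; ok v218 && (
  let v219 := mul v101 v215; ok v219 && (
  let v220 := scale ⟨2199023255552, 0, 0, 0⟩ v219; ok v220 && (
  let v221 := add v218 v220; ok v221 && (
  let v222 := scale ⟨4398046511104, 0, 0, 0⟩ v103; ok v222 && (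
  let v223 := sub v221 v222; ok v223 && (
  let v224 := inv v216; ok v224 && (
  let v225 := mul v223 v224; ok v225 && (
  let v226 := add v225 v216; ok v226 && (
  let v227 := mul v101 v192; ok v227 && (
  let v228 := scale ⟨549755813888, 0, 0, 0⟩ v227; ok v228 && (
  let v229 := mul v228 v226; ok v229 && (
  let v230 := sub v223 v229; ok v230 && (
  isPos 4 v223 && (
  isPos 4 v230 && (
  let v231 := sub v0 v101; ok v231 && (
  let v232 := mul v231 v216; ok v232 && (
  let v233 := scale ⟨2199023255552, 0, 0, 0⟩ v103; ok v233 && (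
  let v234 := add v232 v233; ok v234 && (
  let v235 := inv v230; ok v235 && (
  let v236 := mul v234 v235; ok v236 && (
  let v237 := scale ⟨549755813888, 0, 0, 0⟩ v236; ok v237 && (
  let v238 := add v237 v8; ok v238 && (
  let v239 := inv v238; ok v239 && (
  let v240 := mul v237 v239; ok v240 && (
  let v241 := mul v192 v240; ok v241 && (
  let v242 := mul v240 x0; ok v242 && (
  let v243 := add v11 v0; ok v243 && (
  let v244 := inv v243; ok v244 && (
  let v245 := mul v11 v244; ok v245 && (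
  let v246 := scale ⟨2199023255552, 0, 0, 0⟩ v245; ok v246 && (
  let v247 := sub v0 v246; ok v247 && (
  let v248 := sub v0 v11; ok v248 && (
  let v249 := mul x3 v244; ok v249 && (
  let v250 := mul v249 v247; ok v250 && (
  let v251 := add v24 v250; ok v251 && (
  let v252 := scale ⟨224412041216, 0, 0, 0⟩ v15; ok v252 && (
  let v253 := inv v38; ok v253 && (
  let v254 := mul v252 v253; ok v254 && (
  let v255 := mul v0 v21; ok v255 && (
  let v256 := add v179 v255; ok v256 && (
  let v257 := inv v256; ok v257 && (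
  let v258 := mul v0 v257; ok v258 && (
  let v259 := mul x0 v257; ok v259 && (
  let v260 := mul v259 v24; ok v260 && (
  let v261 := mul v260 v254; ok v261 && (
  let v262 := mul v258 v24; ok v262 && (
  let v263 := mul v262 v254; ok v263 && (
  let v264 := sub v0 v263; ok v264 && (
  let v265 := inv v264; ok v265 && (
  let v266 := mul v164 v263; ok v266 && (
  let v267 := sub v0 v266; ok v267 && (
  let v268 := inv v267; ok v268 && (
  let v269 := scale ⟨2199023255552, 0, 0, 0⟩ v6; ok v269 && (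
  let v270 := add v269 v0; ok v270 && (
  let v271 := add v6 v0; ok v271 && (
  let v272 := mul x0 v21; ok v272 && (
  let v273 := scale ⟨2199023255552, 0, 0, 0⟩ v272; ok v273 && (
  let v274 := scale ⟨549755813888, 0, 0, 0⟩ x1; ok v274 && (
  let v275 := add v273 v274; ok v275 && (
  let v276 := mul x2 v275; ok v276 && (
  let v277 := scale ⟨549755813888, 0, 0, 0⟩ v276; ok v277 && (
  let v278 := mul v11 v21; ok v278 && (
  let v279 := sub v0 v111; ok v279 && (
  let v280 := mul v11 v22; ok v280 && (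
  let v281 := scale ⟨2199023255552, 0, 0, 0⟩ v280; ok v281 && (
  let v282 := sub v279 v281; ok v282 && (
  let v283 := mul v278 v278; ok v283 && (
  let v284 := add v282 v283; ok v284 && (
  let v285 := add v284 v0; ok v285 && (
  let v286 := scale ⟨549755813888, 0, 0, 0⟩ v285; ok v286 && (
  let v287 := scale ⟨549755813888, 0, 0, 0⟩ v25; ok v287 && (
  let v288 := sub v15 v287; ok v288 && (
  let v289 := mul v112 v279; ok v289 && (
  let v290 := mul v289 v14; ok v290 && (
  let v291 := scale ⟨137438953472, 0, 0, 0⟩ v290; ok v291 && (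
  let v292 := add v288 v291; ok v292 && (
  let v293 := mul v286 v292; ok v293 && (
  let v294 := cst ⟨1, 0, 0, 0⟩; ok v294 && (
  let v295 := cst ⟨12, 0, 0, 0⟩; ok v295 && (
  let v296 := mul v128 v294; ok v296 && (
  let v297 := sub v295 v296; ok v297 && (
  let v298 := cst ⟨2296, 0, 0, 0⟩; ok v298 && (
  let v299 := mul v128 v297; ok v299 && (
  let v300 := sub v298 v299; ok v300 && (
  let v301 := cst ⟨302995, 0, 0, 0⟩; ok v301 && (
  let v302 := mul v128 v300; ok v302 && (
  let v303 := sub v301 v302; ok v303 && (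
  let v304 := cst ⟨27269634, 0, 0, 0⟩; ok v304 && (
  let v305 := mul v128 v303; ok v305 && (
  let v306 := sub v304 v305; ok v306 && (
  let v307 := cst ⟨1527099483, 0, 0, 0⟩; ok v307 && (
  let v308 := mul v128 v306; ok v308 && (
  let v309 := sub v307 v308; ok v309 && (
  let v310 := cst ⟨45812984491, 0, 0, 0⟩; ok v310 && (
  let v311 := mul v128 v309; ok v311 && (
  let v312 := sub v310 v311; ok v312 && (
  let v313 := mul v128 v312; ok v313 && (
  let v314 := sub v8 v313; ok v314 && (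
  let v315 := mul v128 v314; ok v315 && (
  let v316 := sub v0 v315; ok v316 && (
  let v317 := mul v128 v6; ok v317 && (
  let v318 := mul v96 v96; ok v318 && (
  let v319 := add v318 v0; ok v319 && (
  let v320 := mul v317 v317; ok v320 && (
  let v321 := scale ⟨369367187456, 0, 0, 0⟩ v320; ok v321 && (
  let v322 := add v316 v321; ok v322 && (
  let v323 := mul v96 v322; ok v323 && (
  let v324 := scale ⟨2199023255552, 0, 0, 0⟩ v323; ok v324 && (
  let v325 := add v319 v324; ok v325 && (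
  let v326 := scale ⟨2199023255552, 0, 0, 0⟩ v98; ok v326 && (
  let v327 := add v325 v326; ok v327 && (
  let v328 := cst ⟨8589934592, 0, 0, 0⟩; ok v328 && (
  let v329 := add v327 v328; ok v329 && (
  let v330 := log v329; ok v330 && (
  let v331 := scale ⟨549755813888, 0, 0, 0⟩ v330; ok v331 && (
  let v332 := exp v331; ok v332 && (
  let v333 := mul v96 v162; ok v333 && (
  let v334 := add v332 v333; ok v334 && (
  let v335 := mul v334 v265; ok v335 && (
  let v336 := mul v164 v268; ok v336 && (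
  let v337 := add v335 v336; ok v337 && (
  let v338 := mul v263 v337; ok v338 && (
  let v339 := add v157 v338; ok v339 && (
  let v340 := mul v339 v6; ok v340 && (
  let v341 := mul v334 v263; ok v341 && (
  let v342 := mul v341 v265; ok v342 && (
  let v343 := add v157 v342; ok v343 && (
  let v344 := mul v343 v6; ok v344 && (
  let v345 := scale ⟨223338299392, 0, 0, 0⟩ v344; ok v345 && (
  let v346 := add v8 v345; ok v346 && (
  let v347 := mul v344 v346; ok v347 && (
  let v348 := add v0 v347; ok v348 && (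
  let v349 := scale ⟨893353197568, 0, 0, 0⟩ v340; ok v349 && (
  let v350 := add v0 v349; ok v350 && (
  let v351 := mul v340 v350; ok v351 && (
  let v352 := add v0 v351; ok v352 && (
  let v353 := mul v246 v249; ok v353 && (
  let v354 := mul v353 v270; ok v354 && (
  let v355 := mul v354 v352; ok v355 && (
  let v356 := mul v293 v348; ok v356 && (
  let v357 := add v52 v8; ok v357 && (
  let v358 := mul v355 v357; ok v358 && (
  let v359 := add v356 v358; ok v359 && (
  let v360 := add v52 v0; ok v360 && (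
  let v361 := mul v355 v360; ok v361 && (
  let v362 := mul v271 v360; ok v362 && (
  let v363 := mul v362 v249; ok v363 && (
  let v364 := mul v363 v248; ok v364 && (
  let v365 := mul v359 v155; ok v365 && (
  let v366 := mul v364 v277; ok v366 && (
  let v367 := add v365 v366; ok v367 && (
  let v368 := mul v5 v251; ok v368 && (
  let v369 := inv v52; ok v369 && (
  let v370 := mul v368 v369; ok v370 && (
  let v371 := scale ⟨549755813888, 0, 0, 0⟩ v370; ok v371 && (
  let v372 := mul v23 v371; ok v372 && (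
  let v373 := add v372 v367; ok v373 && (
  let v374 := mul x1 v373; ok v374 && (
  let v375 := mul x0 v374; ok v375 && (
  let v376 := mul v359 v334; ok v376 && (
  let v377 := mul v376 v265; ok v377 && (
  let v378 := mul v361 v164; ok v378 && (
  let v379 := mul v378 v268; ok v379 && (
  let v380 := add v377 v379; ok v380 && (
  let v381 := mul v23 v375; ok v381 && (
  let v382 := mul v261 v380; ok v382 && (
  let v383 := add v381 v382; ok v383 && (
  let v384 := mul v112 v383; ok v384 && (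
  let v385 := mul v384 v369; ok v385 && (
  let v386 := sub v0 v385; ok v386 && (
  let v387 := inv v386; ok v387 && (
  let v388 := mul v383 v387; ok v388 && (
  let v389 := mul x1 v388; ok v389 && (
  let v390 := mul v112 v388; ok v390 && (
  let v391 := mul v390 v369; ok v391 && (
  let v392 := sub v0 v391; ok v392 && (
  let v393 := mul v49 v392; ok v393 && (
  let v394 := sub v393 v389; ok v394 && (
  let v395 := inv v394; ok v395 && (
  let v396 := mul v389 v395; ok v396 && (
  let v397 := sub v52 v390; ok v397 && (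
  let v398 := inv v397; ok v398 && (
  let v399 := mul v396 v240; ok v399 && (
  let v400 := scale ⟨549755813888, 0, 0, 0⟩ v399; ok v400 && (
  let v401 := sub v0 v400; ok v401 && (
  let v402 := sub v0 v399; ok v402 && (
  let v403 := inv v402; ok v403 && (
  let v404 := mul v401 v403; ok v404 && (
  let v405 := mul v3 v398; ok v405 && (
  let v406 := mul v242 v395; ok v406 && (
  let v407 := mul v406 v404; ok v407 && (
  let v408 := add v405 v407; ok v408 && (
  let v409 := mul v7 v388; ok v409 && (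
  let v410 := mul v398 v409; ok v410 && (
  let v411 := mul v240 v395; ok v411 && (
  let v412 := mul v411 v404; ok v412 && (
  let v413 := mul v412 v389; ok v413 && (
  let v414 := add v410 v413; ok v414 && (
  let v415 := scale ⟨223338299392, 0, 0, 0⟩ v414; ok v415 && (
  let v416 := add v8 v415; ok v416 && (
  let v417 := mul v414 v416; ok v417 && (
  let v418 := add v0 v417; ok v418 && (
  let v419 := mul v408 v418; ok v419 && (
  let v420 := mul v419 v387; ok v420 && (
  let v421 := mul v420 v380; ok v421 && (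
  let v422 := mul v262 v23; ok v422 && (
  let v423 := cst ⟨7696581394432, 0, 0, 0⟩; ok v423 && (
  let v424 := mul v423 v140; ok v424 && (
  let v425 := mul v243 v24; ok v425 && (
  let v426 := mul v425 v424; ok v426 && (
  let v427 := mul v184 v106; ok v427 && (
  let v428 := mul v22 v427; ok v428 && (
  let v429 := scale ⟨549755813888, 0, 0, 0⟩ v241; ok v429 && (
  let v430 := sub v0 v429; ok v430 && (
  let v431 := sub v0 v241; ok v431 && (
  let v432 := inv v431; ok v432 && (
  let v433 := mul v430 v432; ok v433 && (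
  let v434 := mul v433 v192; ok v434 && (
  let v435 := mul v112 v122; ok v435 && (
  let v436 := scale ⟨733097230336, 0, 0, 0⟩ v435; ok v436 && (
  let v437 := sub v0 v436; ok v437 && (
  let v438 := mul v122 v437; ok v438 && (
  let v439 := mul v89 v89; ok v439 && (
  let v440 := mul v12 v439; ok v440 && (
  let v441 := add v438 v440; ok v441 && (
  let v442 := mul v434 v242; ok v442 && (
  let v443 := add v441 v0; ok v443 && (
  let v444 := mul v442 v443; ok v444 && (
  let v445 := sub v441 v444; ok v445 && (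
  let v446 := scale ⟨366548615168, 0, 0, 0⟩ v45; ok v446 && (
  let v447 := sub v0 v446; ok v447 && (
  let v448 := mul v26 v447; ok v448 && (
  let v449 := add v445 v448; ok v449 && (
  let v450 := mul v427 v449; ok v450 && (
  let v451 := mul v428 v428; ok v451 && (
  let v452 := add v0 v451; ok v452 && (
  let v453 := inv v452; ok v453 && (
  let v454 := mul v450 v453; ok v454 && (
  let v455 := sub v0 v396; ok v455 && (
  let v456 := mul v455 v454; ok v456 && (
  let v457 := sub v0 v442; ok v457 && (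
  isPos 4 v457 && (
  isPos 4 v454 && (
  isPos 4 v455 && (
  let v458 := mul v420 v256; ok v458 && (
  let v459 := mul v458 v373; ok v459 && (
  let v460 := inv v24; ok v460 && (
  let v461 := mul v459 v460; ok v461 && (
  let v462 := mul v4 v456; ok v462 && (
  let v463 := mul x1 v462; ok v463 && (
  let v464 := scale ⟨549755813888, 0, 0, 0⟩ v463; ok v464 && (
  let v465 := sub v0 v464; ok v465 && (
  let v466 := mul v462 v465; ok v466 && (
  let v467 := neg v466; ok v467 && (
  let v468 := mul v3 x3; ok v468 && (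
  let v469 := mul v468 v243; ok v469 && (
  let v470 := mul v469 v15; ok v470 && (
  let v471 := mul v0 v470; ok v471 && (
  let v472 := add v467 v471; ok v472 && (
  let v473 := mul v467 v471; ok v473 && (
  let v474 := mul x1 v473; ok v474 && (
  let v475 := add v472 v474; ok v475 && (
  let v476 := mul v12 v42; ok v476 && (
  let v477 := scale ⟨412316860416, 0, 0, 0⟩ v43; ok v477 && (
  let v478 := sub v8 v477; ok v478 && (
  let v479 := mul v476 v478; ok v479 && (
  let v480 := mul v0 v479; ok v480 && (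
  let v481 := neg v480; ok v481 && (
  let v482 := add v475 v481; ok v482 && (
  let v483 := mul v475 v481; ok v483 && (
  let v484 := mul x1 v483; ok v484 && (
  let v485 := add v482 v484; ok v485 && (
  let v486 := mul v3 v388; ok v486 && (
  let v487 := mul v486 v460; ok v487 && (
  let v488 := mul v0 v487; ok v488 && (
  let v489 := add v485 v488; ok v489 && (
  let v490 := mul v485 v488; ok v490 && (
  let v491 := mul x1 v490; ok v491 && (
  let v492 := add v489 v491; ok v492 && (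
  let v493 := mul v0 v426; ok v493 && (
  let v494 := sub v492 v493; ok v494 && (
  let v495 := mul x1 v426; ok v495 && (
  let v496 := add v0 v495; ok v496 && (
  let v497 := inv v496; ok v497 && (
  let v498 := mul v494 v497; ok v498 && (
  let v499 := mul v3 v9; ok v499 && (
  let v500 := mul v499 v388; ok v500 && (
  let v501 := mul v500 v398; ok v501 && (
  let v502 := mul v0 v501; ok v502 && (
  let v503 := add v498 v502; ok v503 && (
  let v504 := mul v498 v502; ok v504 && (
  let v505 := mul x1 v504; ok v505 && (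
  let v506 := add v503 v505; ok v506 && (
  let v507 := mul x1 v506; ok v507 && (
  let v508 := add v0 v507; ok v508 && (
  let v509 := mul v421 v263; ok v509 && (
  let v510 := mul x1 v422; ok v510 && (
  let v511 := mul v461 v510; ok v511 && (
  let v512 := add v509 v511; ok v512 && (
  let v513 := mul v0 v512; ok v513 && (
  let v514 := add v421 v461; ok v514 && (
  let v515 := mul v0 v514; ok v515 && (
  let v516 := mul v513 v508; ok v516 && (
  let v517 := add v506 v516; ok v517 && (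
  let v518 := add v517 v515; ok v518 && (
  let v519 := neg v518; ok v519 && (
  let v520 := scale ⟨1073741824, 0, 0, 0⟩ v0; ok v520 && (
  let v521 := sub v519 v520; ok v521 && (
  let v522 := sub v20 v0; ok v522 && (
  let v523 := add v522 v56; ok v523 && (
  let v524 := scale ⟨2199023255552, 0, 0, 0⟩ v424; ok v524 && (
  let v525 := sub v523 v524; ok v525 && (
  let v526 := mul v243 v525; ok v526 && (
  let v527 := mul v522 v524; ok v527 && (
  let v528 := add v527 v0; ok v528 && (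
  let v529 := inv v528; ok v529 && (
  let v530 := mul v526 v529; ok v530 && (
  let v531 := mul v259 v380; ok v531 && (
  let v532 := scale ⟨549755813888, 0, 0, 0⟩ v254; ok v532 && (
  let v533 := add v17 v532; ok v533 && (
  let v534 := mul v531 v533; ok v534 && (
  let v535 := scale ⟨2199023255552, 0, 0, 0⟩ v534; ok v535 && (
  let v536 := add v375 v535; ok v536 && (
  let v537 := scale ⟨2199023255552, 0, 0, 0⟩ v536; ok v537 && (
  let v538 := mul v537 v387; ok v538 && (
  let v539 := mul v9 v388; ok v539 && (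
  let v540 := sub v24 v539; ok v540 && (
  let v541 := inv v540; ok v541 && (
  let v542 := mul v538 v541; ok v542 && (
  let v543 := sub v530 v542; ok v543 && (
  let v544 := mul v255 v255; ok v544 && (
  let v545 := cst ⟨14293651161088, 0, 0, 0⟩; ok v545 && (
  let v546 := mul v545 v140; ok v546 && (
  let v547 := mul v544 v546; ok v547 && (
  let v548 := scale ⟨27487790694400, 0, 0, 0⟩ v170; ok v548 && (
  let v549 := add v547 v548; ok v549 && (
  let v550 := mul v426 v497; ok v550 && (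
  let v551 := sub v40 x1; ok v551 && (
  let v552 := sub v551 v39; ok v552 && (
  let v553 := mul v0 v3; ok v553 && (
  let v554 := mul v553 x0; ok v554 && (
  let v555 := mul v24 v380; ok v555 && (
  let v556 := mul v555 v257; ok v556 && (
  let v557 := add v367 v556; ok v557 && (
  let v558 := add v539 v56; ok v558 && (
  let v559 := mul v0 v558; ok v559 && (
  let v560 := mul v549 v550; ok v560 && (
  let v561 := mul v387 v559; ok v561 && (
  let v562 := mul v554 v557; ok v562 && (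
  let v563 := mul v561 v562; ok v563 && (
  let v564 := sub v560 v563; ok v564 && (
  let v565 := scale ⟨549755813888, 0, 0, 0⟩ v539; ok v565 && (
  let v566 := add v0 v565; ok v566 && (
  let v567 := mul v387 v566; ok v567 && (
  let v568 := mul x1 v23; ok v568 && (
  let v569 := mul v568 v251; ok v569 && (
  let v570 := mul v24 v52; ok v570 && (
  let v571 := inv v570; ok v571 && (
  let v572 := mul v569 v571; ok v572 && (
  let v573 := mul v567 v572; ok v573 && (
  let v574 := sub v552 v573; ok v574 && (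
  let v575 := mul v254 v564; ok v575 && (
  let v576 := sub v0 v254; ok v576 && (
  let v577 := mul v12 v574; ok v577 && (
  let v578 := mul v576 v577; ok v578 && (
  let v579 := mul v549 v578; ok v579 && (
  let v580 := add v575 v579; ok v580 && (
  isPos 4 v264 && (
  isPos 4 v267 && (
  let v581 := scale ⟨2199023255552, 0, 0, 0⟩ v384; ok v581 && (
  let v582 := sub v52 v581; ok v582 && (
  isPos 4 v582 && (
  isPos 4 v394 && (
  let v583 := sub v8 v241; ok v583 && (
  isPos 4 v583 && (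
  let v584 := sub v168 v344; ok v584 && (
  isPos 4 v584 && (
  let v585 := scale ⟨377957122048, 0, 0, 0⟩ v0; ok v585 && (
  let v586 := sub v585 v340; ok v586 && (
  isPos 4 v586 && (
  isPos 4 v540 && (
  isPos 4 v402 && (
  let v587 := sub v168 v414; ok v587 && (
  isPos 4 v587 && (
  isPos 4 v543 && (
  isPos 4 v521 && (
  isPos 4 v580 && (
  isPos 4 v574 && (
  true)))))))))))))))))))))))))))))))))))))))))))))))))))))))))))))))))))))))))))))))))))))))))))))))))))))))))))))))))))))))))))))))))))))))))))))))))))))))))))))))))))))))))))))))))))))))))))))))))))))))))))))))))))))))))))))))))))))))))))))))))))))))))))))))))))))))))))))))))))))))))))))))))))))))))))))))))))))))))))))))))))))))))))))))))))))))))))))))))))))))))))))))))))))))))))))))))))))))))))))))))))))))))))))))))))))))))))))))))))))))))))))))))))))))))))))))))))))))))))))))))))))))))))))))))))))))))))))))))))))))))))))))))))))))))))))))))))))))))))))))))))))))))))))))))))))))))))))))))))))))))))))))))))))))))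
  | _ => false

set_option maxRecDepth 1000000 in
theorem chk7_eq (O : Ops) (m : List O.α)
    (h : chk7 O.cst O.add O.sub O.mul O.scale O.neg O.inv O.exp O.log O.ok O.isPos O.isLt m = true) :
    runG O 4 prog7 m = true := by
  match m, h with
  | [x0, x1, x2, x3], h => exact h

def chkB7 : List opsE.α → Bool :=
  chk7 opsE.cst opsE.add opsE.sub opsE.mul opsE.scale opsE.neg opsE.inv opsE.exp opsE.log opsE.ok opsE.isPos opsE.isLt

theorem chkB7_eq (m : List opsE.α) (h : chkB7 m = true) : runG opsE 4 prog7 m = true :=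
  chk7_eq opsE m h

def prog8 : List Op := [
  .const ⟨1099511627776, 0, 0, 0⟩,
  .mul 2 3,
  .mul 0 2,
  .mul 5 0,
  .mul 6 6,
  .mul 6 0,
  .mul 3 3,
  .mul 8 1,
  .const ⟨549755813888, 0, 0, 0⟩,
  .mul 10 5,
  .mul 0 13,
  .scale ⟨549755813888, 0, 0, 0⟩ 0,
  .mul 8 8,
  .mul 1 1,
  .sub 13 0,
  .inv 0,
  .mul 4 0,
  .scale ⟨2199023255552, 0, 0, 0⟩ 0,
  .scale ⟨2199023255552, 0, 0, 0⟩ 2,
  .sub 0 18,
  .add 0 2,
  .mul 24 5,
  .mul 18 0,
  .sub 22 0,
  .add 23 1,
  .mul 26 12,
  .mul 4 4,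
  .scale ⟨10774999203840, 0, 0, 0⟩ 15,
  .scale ⟨45768245248, 0, 0, 0⟩ 0,
  .const ⟨183207198720, 0, 0, 0⟩,
  .add 1 0,
  .mul 3 0,
  .add 23 0,
  .mul 5 0,
  .add 33 0,
  .mul 7 0,
  .scale ⟨549755813888, 0, 0, 0⟩ 0,
  .add 36 0,
  .mul 3 0,
  .mul 21 16,
  .scale ⟨2199023255552, 0, 0, 0⟩ 20,
  .add 1 0,
  .add 0 43,
  .mul 17 0,
  .add 0 43,
  .mul 27 27,
  .scale ⟨2199023255552, 0, 0, 0⟩ 0,
  .add 0 46,
  .mul 28 5,
  .sub 0 48,
  .log 5,
  .scale ⟨549755813888, 0, 0, 0⟩ 0,
  .exp 0,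
  .const ⟨3298534883328, 0, 0, 0⟩,
  .inv 0,
  .mul 54 0,
  .const ⟨2199023255552, 0, 0, 0⟩,
  .add 13 0,
  .inv 0,
  .mul 15 0,
  .mul 0 0,
  .sub 60 1,
  .mul 1 6,
  .add 62 0,
  .mul 2 0,
  .mul 4 4,
  .scale ⟨219915747328, 0, 0, 0⟩ 0,
  .mul 24 2,
  .scale ⟨549755813888, 0, 0, 0⟩ 0,
  .mul 26 2,
  .scale ⟨549755813888, 0, 0, 0⟩ 0,
  .add 2 0,
  .mul 52 22,
  .scale ⟨4398046511104, 0, 0, 0⟩ 0,
  .mul 54 48,
  .mul 0 25,
  .scale ⟨4398046511104, 0, 0, 0⟩ 0,
  .add 0 20,
  .inv 0,
  .mul 2 0,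
  .mul 0 0,
  .sub 80 1,
  .mul 1 26,
  .add 82 0,
  .mul 2 0,
  .mul 4 4,
  .scale ⟨219915747328, 0, 0, 0⟩ 0,
  .mul 13 2,
  .scale ⟨549755813888, 0, 0, 0⟩ 0,
  .sub 0 17,
  .mul 16 3,
  .scale ⟨549755813888, 0, 0, 0⟩ 0,
  .add 0 21,
  .add 3 0,
  .mul 88 25,
  .neg 0,
  .exp 0,
  .mul 91 26,
  .mul 1 0,
  .mul 76 81,
  .add 80 0,
  .inv 0,
  .mul 77 0,
  .mul 79 104,
  .mul 0 1,
  .sub 104 92,
  .mul 79 0,
  .mul 97 97,
  .sub 107 81,
  .mul 3 0,
  .mul 84 60,
  .inv 66,
  .mul 1 0,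
  .add 93 0,
  .mul 69 0,
  .mul 0 0,
  .inv 0,
  .mul 7 0,
  .add 98 92,
  .mul 119 0,
  .inv 0,
  .mul 120 0,
  .mul 0 0,
  .mul 0 13,
  .const ⟨1898375544832, 0, 0, 0⟩,
  .const ⟨79164837199872, 0, 0, 0⟩,
  .const ⟨109951162777600, 0, 0, 0⟩,
  .inv 0,
  .mul 2 0,
  .mul 116 20,
  .sub 129 0,
  .mul 129 129,
  .mul 0 1,
  .const ⟨23089744183296, 0, 0, 0⟩,
  .const ⟨10995116277760, 0, 0, 0⟩,
  .inv 0,
  .mul 2 0,
  .mul 131 0,
  .add 5 0,
  .mul 0 132,
  .scale ⟨687194767360, 0, 0, 0⟩ 138,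
  .add 0 16,
  .inv 0,
  .scale ⟨549755813888, 0, 0, 0⟩ 14,
  .mul 146 0,
  .add 2 0,
  .sub 145 6,
  .mul 1 0,
  .inv 0,
  .mul 151 124,
  .mul 0 1,
  .mul 152 0,
  .mul 128 0,
  .scale ⟨223338299392, 0, 0, 0⟩ 0,
  .add 145 0,
  .mul 2 0,
  .add 155 0,
  .mul 4 0,
  .add 0 157,
  .mul 62 0,
  .const ⟨107752139522048, 0, 0, 0⟩,
  .mul 0 33,
  .sub 31 0,
  .pos 0,
  .scale ⟨687194767360, 0, 0, 0⟩ 162,
  .sub 0 11,
  .pos 0,
  .pos 18,
  .mul 165 165,
  .const ⟨1939538511396864, 0, 0, 0⟩,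
  .mul 0 39,
  .mul 2 0,
  .sub 0 59,
  .pos 0,
  .const ⟨3623878656, 0, 0, 0⟩,
  .sub 0 164,
  .pos 0,
  .const ⟨34359738368, 0, 0, 0⟩,
  .sub 0 155,
  .pos 0,
  .scale ⟨4398046511104, 0, 0, 0⟩ 174,
  .sub 0 153,
  .pos 0,
  .const ⟨274877906944, 0, 0, 0⟩,
  .sub 0 164,
  .pos 0,
  .mul 154 153,
  .add 159 180,
  .mul 157 160,
  .mul 0 163,
  .scale ⟨2199023255552, 0, 0, 0⟩ 0,
  .add 135 0,
  .mul 4 0,
  .inv 0,
  .mul 7 0,
  .mul 188 0,
  .pos 98,
  .mul 0 187,
  .mul 188 189,
  .add 178 189,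
  .inv 0,
  .mul 180 0,
  .scale ⟨2199023255552, 0, 0, 0⟩ 0,
  .sub 193 0,
  .sub 194 183,
  .mul 199 4,
  .mul 0 2,
  .add 173 0,
  .scale ⟨224412041216, 0, 0, 0⟩ 183,
  .inv 161,
  .mul 1 0,
  .mul 201 180,
  .add 28 0,
  .inv 0,
  .mul 204 0,
  .mul 206 1,
  .mul 0 182,
  .mul 0 6,
  .mul 3 184,
  .mul 0 8,
  .sub 210 0,
  .inv 0,
  .mul 53 2,
  .sub 213 0,
  .inv 0,
  .scale ⟨2199023255552, 0, 0, 0⟩ 209,
  .add 0 216,
  .add 211 217,
  .mul 219 197,
  .scale ⟨2199023255552, 0, 0, 0⟩ 0,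
  .scale ⟨549755813888, 0, 0, 0⟩ 222,
  .add 1 0,
  .mul 225 0,
  .scale ⟨549755813888, 0, 0, 0⟩ 0,
  .mul 213 203,
  .sub 225 119,
  .mul 215 204,
  .scale ⟨2199023255552, 0, 0, 0⟩ 0,
  .sub 2 0,
  .mul 4 4,
  .add 1 0,
  .add 0 231,
  .scale ⟨549755813888, 0, 0, 0⟩ 0,
  .scale ⟨549755813888, 0, 0, 0⟩ 208,
  .sub 219 0,
  .mul 128 9,
  .mul 0 222,
  .scale ⟨137438953472, 0, 0, 0⟩ 0,
  .add 3 0,
  .mul 6 0,
  .const ⟨1, 0, 0, 0⟩,
  .const ⟨12, 0, 0, 0⟩,
  .mul 119 1,
  .sub 1 0,
  .const ⟨2296, 0, 0, 0⟩,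
  .mul 122 1,
  .sub 1 0,
  .const ⟨302995, 0, 0, 0⟩,
  .mul 125 1,
  .sub 1 0,
  .const ⟨27269634, 0, 0, 0⟩,
  .mul 128 1,
  .sub 1 0,
  .const ⟨1527099483, 0, 0, 0⟩,
  .mul 131 1,
  .sub 1 0,
  .const ⟨45812984491, 0, 0, 0⟩,
  .mul 134 1,
  .sub 1 0,
  .mul 136 0,
  .sub 252 0,
  .mul 138 0,
  .sub 262 0,
  .mul 140 257,
  .mul 168 168,
  .add 0 265,
  .mul 2 2,
  .scale ⟨369367187456, 0, 0, 0⟩ 0,
  .add 5 0,
  .mul 173 0,
  .scale ⟨2199023255552, 0, 0, 0⟩ 0,
  .add 5 0,
  .scale ⟨2199023255552, 0, 0, 0⟩ 174,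
  .add 1 0,
  .const ⟨8589934592, 0, 0, 0⟩,
  .add 1 0,
  .log 0,
  .scale ⟨549755813888, 0, 0, 0⟩ 0,
  .exp 0,
  .mul 183 122,
  .add 1 0,
  .mul 0 69,
  .mul 123 67,
  .add 1 0,
  .mul 74 0,
  .add 133 0,
  .mul 0 280,
  .mul 6 77,
  .mul 0 76,
  .add 137 0,
  .mul 0 284,
  .scale ⟨223338299392, 0, 0, 0⟩ 0,
  .add 284 0,
  .mul 2 0,
  .add 294 0,
  .scale ⟨893353197568, 0, 0, 0⟩ 8,
  .add 296 0,
  .mul 10 0,
  .add 298 0,
  .mul 106 103,
  .mul 0 83,
  .mul 0 2,
  .mul 62 7,
  .add 251 295,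
  .mul 2 0,
  .add 2 0,
  .add 254 306,
  .mul 5 0,
  .mul 90 1,
  .mul 0 113,
  .mul 0 115,
  .mul 5 161,
  .mul 1 88,
  .add 1 0,
  .mul 309 116,
  .inv 263,
  .mul 1 0,
  .scale ⟨549755813888, 0, 0, 0⟩ 0,
  .mul 295 0,
  .add 0 5,
  .mul 322 0,
  .mul 322 0,
  .mul 16 41,
  .mul 0 111,
  .mul 16 165,
  .mul 0 110,
  .add 2 0,
  .mul 304 5,
  .mul 120 1,
  .add 1 0,
  .mul 223 0,
  .mul 0 15,
  .sub 332 0,
  .inv 0,
  .mul 4 0,
  .mul 337 0,
  .mul 229 1,
  .mul 0 21,
  .sub 338 0,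
  .mul 290 0,
  .sub 0 4,
  .inv 0,
  .mul 6 0,
  .sub 291 6,
  .inv 0,
  .mul 2 345,
  .scale ⟨549755813888, 0, 0, 0⟩ 0,
  .sub 347 0,
  .sub 348 2,
  .inv 0,
  .mul 2 0,
  .mul 348 6,
  .mul 163 10,
  .mul 0 2,
  .add 2 0,
  .mul 348 20,
  .mul 11 0,
  .mul 357 15,
  .mul 0 7,
  .mul 0 23,
  .add 3 0,
  .scale ⟨223338299392, 0, 0, 0⟩ 0,
  .add 354 0,
  .mul 2 0,
  .add 364 0,
  .mul 10 0,
  .mul 0 32,
  .mul 0 40,
  .mul 159 345,
  .const ⟨7696581394432, 0, 0, 0⟩,
  .mul 0 235,
  .mul 181 347,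
  .mul 0 1,
  .mul 194 272,
  .mul 352 0,
  .scale ⟨549755813888, 0, 0, 0⟩ 187,
  .sub 376 0,
  .sub 377 189,
  .inv 0,
  .mul 2 0,
  .mul 0 193,
  .mul 274 264,
  .scale ⟨733097230336, 0, 0, 0⟩ 0,
  .sub 383 0,
  .mul 267 0,
  .mul 296 296,
  .mul 374 0,
  .add 2 0,
  .mul 7 199,
  .add 1 389,
  .mul 1 0,
  .sub 3 0,
  .scale ⟨366548615168, 0, 0, 0⟩ 347,
  .sub 393 0,
  .mul 368 0,
  .add 3 0,
  .mul 22 0,
  .mul 22 22,
  .add 398 0,
  .inv 0,
  .mul 3 0,
  .sub 401 58,
  .mul 0 1,
  .sub 403 14,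
  .pos 0,
  .pos 3,
  .pos 2,
  .mul 37 201,
  .mul 0 85,
  .inv 382,
  .mul 1 0,
  .mul 404 5,
  .mul 411 0,
  .scale ⟨549755813888, 0, 0, 0⟩ 0,
  .sub 411 0,
  .mul 3 0,
  .neg 0,
  .mul 411 418,
  .mul 0 225,
  .mul 0 401,
  .mul 417 0,
  .add 4 0,
  .mul 5 1,
  .mul 422 0,
  .add 2 0,
  .mul 410 380,
  .scale ⟨412316860416, 0, 0, 0⟩ 380,
  .sub 416 0,
  .mul 2 0,
  .mul 426 0,
  .neg 0,
  .add 6 0,
  .mul 7 1,
  .mul 432 0,
  .add 2 0,
  .mul 429 97,
  .mul 0 26,
  .mul 434 0,
  .add 3 0,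
  .mul 4 1,
  .mul 439 0,
  .add 2 0,
  .mul 439 66,
  .sub 1 0,
  .mul 443 68,
  .add 442 0,
  .inv 0,
  .mul 3 0,
  .mul 442 436,
  .mul 0 111,
  .mul 0 102,
  .mul 448 0,
  .add 4 0,
  .mul 5 1,
  .mul 453 0,
  .add 2 0,
  .mul 455 0,
  .add 454 0,
  .mul 87 245,
  .mul 458 87,
  .mul 49 0,
  .add 2 0,
  .mul 459 0,
  .add 92 52,
  .mul 461 0,
  .mul 2 7,
  .add 10 0,
  .add 0 2,
  .neg 0,
  .scale ⟨1073741824, 0, 0, 0⟩ 466,
  .sub 1 0,
  .sub 448 468,
  .add 0 413,
  .scale ⟨2199023255552, 0, 0, 0⟩ 99,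
  .sub 1 0,
  .mul 282 0,
  .mul 4 2,
  .add 0 474,
  .inv 0,
  .mul 3 0,
  .mul 271 150,
  .scale ⟨549755813888, 0, 0, 0⟩ 277,
  .add 462 0,
  .mul 2 0,
  .scale ⟨2199023255552, 0, 0, 0⟩ 0,
  .add 160 0,
  .scale ⟨2199023255552, 0, 0, 0⟩ 0,
  .mul 0 150,
  .mul 476 150,
  .sub 462 0,
  .inv 0,
  .mul 3 0,
  .sub 12 0,
  .mul 288 288,
  .const ⟨14293651161088, 0, 0, 0⟩,
  .mul 0 357,
  .mul 2 0,
  .scale ⟨27487790694400, 0, 0, 0⟩ 329,
  .add 1 0,
  .mul 123 52,
  .sub 457 499,
  .sub 0 459,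
  .mul 499 496,
  .mul 0 501,
  .mul 477 174,
  .mul 0 298,
  .add 189 0,
  .add 18 448,
  .mul 505 0,
  .mul 10 9,
  .mul 173 1,
  .mul 7 4,
  .mul 1 0,
  .sub 3 0,
  .scale ⟨549755813888, 0, 0, 0⟩ 25,
  .add 512 0,
  .mul 179 0,
  .mul 516 491,
  .mul 0 317,
  .mul 492 464,
  .inv 0,
  .mul 2 0,
  .mul 5 0,
  .sub 21 0,
  .mul 320 10,
  .sub 522 321,
  .mul 511 2,
  .mul 1 0,
  .mul 29 0,
  .add 4 0,
  .pos 316,
  .pos 313,
  .scale ⟨2199023255552, 0, 0, 0⟩ 196,
  .sub 476 0,
  .pos 0,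
  .pos 188,
  .sub 521 341,
  .pos 0,
  .sub 367 239,
  .pos 0,
  .scale ⟨377957122048, 0, 0, 0⟩ 531,
  .sub 0 245,
  .pos 0,
  .pos 46,
  .pos 184,
  .sub 370 172,
  .pos 0,
  .pos 44,
  .pos 66,
  .pos 7,
  .pos 13]

def chk8 {α : Type} (cst : Z → α) (add sub mul : α → α → α) (scale : Z → α → α)
    (neg inv exp log : α → α) (ok : α → Bool) (isPos : Nat → α → Bool) (isLt : α → Nat → Bool) :
    List α → Bool
  | [x0, x1, x2, x3] =>
  let v0 := cst ⟨1099511627776, 0, 0, 0⟩; ok v0 && (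
  let v1 := mul x1 x2; ok v1 && (
  let v2 := mul v1 x0; ok v2 && (
  let v3 := mul x2 v2; ok v3 && (
  let v4 := mul x2 x2; ok v4 && (
  let v5 := mul x1 v4; ok v5 && (
  let v6 := mul v2 v2; ok v6 && (
  let v7 := mul x1 v5; ok v7 && (
  let v8 := cst ⟨549755813888, 0, 0, 0⟩; ok v8 && (
  let v9 := mul x1 v3; ok v9 && (
  let v10 := mul v9 x3; ok v10 && (
  let v11 := scale ⟨549755813888, 0, 0, 0⟩ v10; ok v11 && (
  let v12 := mul v3 v3; ok v12 && (
  let v13 := mul v11 v11; ok v13 && (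
  let v14 := sub v0 v13; ok v14 && (
  let v15 := inv v14; ok v15 && (
  let v16 := mul v11 v15; ok v16 && (
  let v17 := scale ⟨2199023255552, 0, 0, 0⟩ v16; ok v17 && (
  let v18 := scale ⟨2199023255552, 0, 0, 0⟩ v15; ok v18 && (
  let v19 := sub v18 v0; ok v19 && (
  let v20 := add v19 v17; ok v20 && (
  let v21 := mul x3 v15; ok v21 && (
  let v22 := mul v3 v21; ok v22 && (
  let v23 := sub v0 v22; ok v23 && (
  let v24 := add v0 v22; ok v24 && (
  let v25 := mul x1 v12; ok v25 && (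
  let v26 := mul v21 v21; ok v26 && (
  let v27 := scale ⟨10774999203840, 0, 0, 0⟩ v11; ok v27 && (
  let v28 := scale ⟨45768245248, 0, 0, 0⟩ v27; ok v28 && (
  let v29 := cst ⟨183207198720, 0, 0, 0⟩; ok v29 && (
  let v30 := add v28 v29; ok v30 && (
  let v31 := mul v27 v30; ok v31 && (
  let v32 := add v8 v31; ok v32 && (
  let v33 := mul v27 v32; ok v33 && (
  let v34 := add v0 v33; ok v34 && (
  let v35 := mul v27 v34; ok v35 && (
  let v36 := scale ⟨549755813888, 0, 0, 0⟩ v35; ok v36 && (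
  let v37 := add v0 v36; ok v37 && (
  let v38 := mul v34 v37; ok v38 && (
  let v39 := mul v17 v22; ok v39 && (
  let v40 := scale ⟨2199023255552, 0, 0, 0⟩ v19; ok v40 && (
  let v41 := add v39 v40; ok v41 && (
  let v42 := add v41 x1; ok v42 && (
  let v43 := mul v25 v42; ok v43 && (
  let v44 := add v43 v0; ok v44 && (
  let v45 := mul v17 v17; ok v45 && (
  let v46 := scale ⟨2199023255552, 0, 0, 0⟩ v45; ok v46 && (
  let v47 := add v46 v0; ok v47 && (
  let v48 := mul v19 v42; ok v48 && (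
  let v49 := sub v48 v0; ok v49 && (
  let v50 := log v44; ok v50 && (
  let v51 := scale ⟨549755813888, 0, 0, 0⟩ v50; ok v51 && (
  let v52 := exp v51; ok v52 && (
  let v53 := cst ⟨3298534883328, 0, 0, 0⟩; ok v53 && (
  let v54 := inv v53; ok v54 && (
  let v55 := mul v0 v54; ok v55 && (
  let v56 := cst ⟨2199023255552, 0, 0, 0⟩; ok v56 && (
  let v57 := add v43 v56; ok v57 && (
  let v58 := inv v57; ok v58 && (
  let v59 := mul v43 v58; ok v59 && (
  let v60 := mul v59 v59; ok v60 && (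
  let v61 := sub v0 v59; ok v61 && (
  let v62 := mul v60 v55; ok v62 && (
  let v63 := add v0 v62; ok v63 && (
  let v64 := mul v61 v63; ok v64 && (
  let v65 := mul v60 v60; ok v65 && (
  let v66 := scale ⟨219915747328, 0, 0, 0⟩ v65; ok v66 && (
  let v67 := mul v42 v64; ok v67 && (
  let v68 := scale ⟨549755813888, 0, 0, 0⟩ v67; ok v68 && (
  let v69 := mul v42 v66; ok v69 && (
  let v70 := scale ⟨549755813888, 0, 0, 0⟩ v69; ok v70 && (
  let v71 := add v68 v70; ok v71 && (
  let v72 := mul v19 v49; ok v72 && (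
  let v73 := scale ⟨4398046511104, 0, 0, 0⟩ v72; ok v73 && (
  let v74 := mul v19 v25; ok v74 && (
  let v75 := mul v74 v49; ok v75 && (
  let v76 := scale ⟨4398046511104, 0, 0, 0⟩ v75; ok v76 && (
  let v77 := add v76 v56; ok v77 && (
  let v78 := inv v77; ok v78 && (
  let v79 := mul v76 v78; ok v79 && (
  let v80 := mul v79 v79; ok v80 && (
  let v81 := sub v0 v79; ok v81 && (
  let v82 := mul v80 v55; ok v82 && (
  let v83 := add v0 v82; ok v83 && (
  let v84 := mul v81 v83; ok v84 && (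
  let v85 := mul v80 v80; ok v85 && (
  let v86 := scale ⟨219915747328, 0, 0, 0⟩ v85; ok v86 && (
  let v87 := mul v73 v84; ok v87 && (
  let v88 := scale ⟨549755813888, 0, 0, 0⟩ v87; ok v88 && (
  let v89 := sub v88 v71; ok v89 && (
  let v90 := mul v73 v86; ok v90 && (
  let v91 := scale ⟨549755813888, 0, 0, 0⟩ v90; ok v91 && (
  let v92 := add v91 v70; ok v92 && (
  let v93 := add v89 v92; ok v93 && (
  let v94 := mul v5 v68; ok v94 && (
  let v95 := neg v94; ok v95 && (
  let v96 := exp v95; ok v96 && (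
  let v97 := mul v5 v70; ok v97 && (
  let v98 := mul v96 v97; ok v98 && (
  let v99 := mul v22 v17; ok v99 && (
  let v100 := add v19 v99; ok v100 && (
  let v101 := inv v100; ok v101 && (
  let v102 := mul v24 v101; ok v102 && (
  let v103 := mul v23 x1; ok v103 && (
  let v104 := mul v103 v102; ok v104 && (
  let v105 := sub v0 v12; ok v105 && (
  let v106 := mul v26 v105; ok v106 && (
  let v107 := mul v9 v9; ok v107 && (
  let v108 := sub v0 v26; ok v108 && (
  let v109 := mul v105 v108; ok v109 && (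
  let v110 := mul v25 v49; ok v110 && (
  let v111 := inv v44; ok v111 && (
  let v112 := mul v110 v111; ok v112 && (
  let v113 := add v19 v112; ok v113 && (
  let v114 := mul v44 v113; ok v114 && (
  let v115 := mul v114 v114; ok v115 && (
  let v116 := inv v115; ok v116 && (
  let v117 := mul v109 v116; ok v117 && (
  let v118 := add v19 v25; ok v118 && (
  let v119 := mul x0 v118; ok v119 && (
  let v120 := inv v119; ok v120 && (
  let v121 := mul v0 v120; ok v121 && (
  let v122 := mul v121 v121; ok v122 && (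
  let v123 := mul v122 v109; ok v123 && (
  let v124 := cst ⟨1898375544832, 0, 0, 0⟩; ok v124 && (
  let v125 := cst ⟨79164837199872, 0, 0, 0⟩; ok v125 && (
  let v126 := cst ⟨109951162777600, 0, 0, 0⟩; ok v126 && (
  let v127 := inv v126; ok v127 && (
  let v128 := mul v125 v127; ok v128 && (
  let v129 := mul v12 v108; ok v129 && (
  let v130 := sub v0 v129; ok v130 && (
  let v131 := mul v1 v1; ok v131 && (
  let v132 := mul v131 v130; ok v132 && (
  let v133 := cst ⟨23089744183296, 0, 0, 0⟩; ok v133 && (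
  let v134 := cst ⟨10995116277760, 0, 0, 0⟩; ok v134 && (
  let v135 := inv v134; ok v135 && (
  let v136 := mul v133 v135; ok v136 && (
  let v137 := mul v5 v136; ok v137 && (
  let v138 := add v132 v137; ok v138 && (
  let v139 := mul v138 v6; ok v139 && (
  let v140 := scale ⟨687194767360, 0, 0, 0⟩ v1; ok v140 && (
  let v141 := add v140 v124; ok v141 && (
  let v142 := inv v141; ok v142 && (
  let v143 := scale ⟨549755813888, 0, 0, 0⟩ v128; ok v143 && (
  let v144 := mul x2 v143; ok v144 && (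
  let v145 := add v142 v144; ok v145 && (
  let v146 := sub v0 v139; ok v146 && (
  let v147 := mul v145 v146; ok v147 && (
  let v148 := inv v147; ok v148 && (
  let v149 := mul x2 v24; ok v149 && (
  let v150 := mul v149 v148; ok v150 && (
  let v151 := mul x1 v150; ok v151 && (
  let v152 := mul v23 v151; ok v152 && (
  let v153 := scale ⟨223338299392, 0, 0, 0⟩ v152; ok v153 && (
  let v154 := add v8 v153; ok v154 && (
  let v155 := mul v152 v154; ok v155 && (
  let v156 := add v0 v155; ok v156 && (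
  let v157 := mul v152 v156; ok v157 && (
  let v158 := add v157 v0; ok v158 && (
  let v159 := mul v96 v158; ok v159 && (
  let v160 := cst ⟨107752139522048, 0, 0, 0⟩; ok v160 && (
  let v161 := mul v160 v127; ok v161 && (
  let v162 := sub v130 v161; ok v162 && (
  isPos 4 v162 && (
  let v163 := scale ⟨687194767360, 0, 0, 0⟩ v0; ok v163 && (
  let v164 := sub v163 v152; ok v164 && (
  isPos 4 v164 && (
  isPos 4 v146 && (
  let v165 := mul x0 x0; ok v165 && (
  let v166 := cst ⟨1939538511396864, 0, 0, 0⟩; ok v166 && (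
  let v167 := mul v166 v127; ok v167 && (
  let v168 := mul v165 v167; ok v168 && (
  let v169 := sub v168 v109; ok v169 && (
  isPos 4 v169 && (
  let v170 := cst ⟨3623878656, 0, 0, 0⟩; ok v170 && (
  let v171 := sub v170 v6; ok v171 && (
  isPos 4 v171 && (
  let v172 := cst ⟨34359738368, 0, 0, 0⟩; ok v172 && (
  let v173 := sub v172 v17; ok v173 && (
  isPos 4 v173 && (
  let v174 := scale ⟨4398046511104, 0, 0, 0⟩ x0; ok v174 && (
  let v175 := sub v174 v21; ok v175 && (
  isPos 4 v175 && (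
  let v176 := cst ⟨274877906944, 0, 0, 0⟩; ok v176 && (
  let v177 := sub v176 v12; ok v177 && (
  isPos 4 v177 && (
  let v178 := mul v23 v24; ok v178 && (
  let v179 := add v19 x1; ok v179 && (
  let v180 := mul v22 v19; ok v180 && (
  let v181 := mul v180 v17; ok v181 && (
  let v182 := scale ⟨2199023255552, 0, 0, 0⟩ v181; ok v182 && (
  let v183 := add v47 v182; ok v183 && (
  let v184 := mul v179 v183; ok v184 && (
  let v185 := inv v184; ok v185 && (
  let v186 := mul v178 v185; ok v186 && (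
  let v187 := mul x1 v186; ok v187 && (
  isPos 4 v89 && (
  let v188 := mul v187 v0; ok v188 && (
  let v189 := mul v0 x0; ok v189 && (
  let v190 := add v11 v0; ok v190 && (
  let v191 := inv v190; ok v191 && (
  let v192 := mul v11 v191; ok v192 && (
  let v193 := scale ⟨2199023255552, 0, 0, 0⟩ v192; ok v193 && (
  let v194 := sub v0 v193; ok v194 && (
  let v195 := sub v0 v11; ok v195 && (
  let v196 := mul x3 v191; ok v196 && (
  let v197 := mul v196 v194; ok v197 && (
  let v198 := add v24 v197; ok v198 && (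
  let v199 := scale ⟨224412041216, 0, 0, 0⟩ v15; ok v199 && (
  let v200 := inv v38; ok v200 && (
  let v201 := mul v199 v200; ok v201 && (
  let v202 := mul v0 v21; ok v202 && (
  let v203 := add v174 v202; ok v203 && (
  let v204 := inv v203; ok v204 && (
  let v205 := mul v0 v204; ok v205 && (
  let v206 := mul x0 v204; ok v206 && (
  let v207 := mul v206 v24; ok v207 && (
  let v208 := mul v207 v201; ok v208 && (
  let v209 := mul v205 v24; ok v209 && (
  let v210 := mul v209 v201; ok v210 && (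
  let v211 := sub v0 v210; ok v211 && (
  let v212 := inv v211; ok v212 && (
  let v213 := mul v159 v210; ok v213 && (
  let v214 := sub v0 v213; ok v214 && (
  let v215 := inv v214; ok v215 && (
  let v216 := scale ⟨2199023255552, 0, 0, 0⟩ v6; ok v216 && (
  let v217 := add v216 v0; ok v217 && (
  let v218 := add v6 v0; ok v218 && (
  let v219 := mul x0 v21; ok v219 && (
  let v220 := scale ⟨2199023255552, 0, 0, 0⟩ v219; ok v220 && (
  let v221 := scale ⟨549755813888, 0, 0, 0⟩ x1; ok v221 && (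
  let v222 := add v220 v221; ok v222 && (
  let v223 := mul x2 v222; ok v223 && (
  let v224 := scale ⟨549755813888, 0, 0, 0⟩ v223; ok v224 && (
  let v225 := mul v11 v21; ok v225 && (
  let v226 := sub v0 v106; ok v226 && (
  let v227 := mul v11 v22; ok v227 && (
  let v228 := scale ⟨2199023255552, 0, 0, 0⟩ v227; ok v228 && (
  let v229 := sub v226 v228; ok v229 && (
  let v230 := mul v225 v225; ok v230 && (
  let v231 := add v229 v230; ok v231 && (
  let v232 := add v231 v0; ok v232 && (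
  let v233 := scale ⟨549755813888, 0, 0, 0⟩ v232; ok v233 && (
  let v234 := scale ⟨549755813888, 0, 0, 0⟩ v25; ok v234 && (
  let v235 := sub v15 v234; ok v235 && (
  let v236 := mul v107 v226; ok v236 && (
  let v237 := mul v236 v14; ok v237 && (
  let v238 := scale ⟨137438953472, 0, 0, 0⟩ v237; ok v238 && (
  let v239 := add v235 v238; ok v239 && (
  let v240 := mul v233 v239; ok v240 && (
  let v241 := cst ⟨1, 0, 0, 0⟩; ok v241 && (
  let v242 := cst ⟨12, 0, 0, 0⟩; ok v242 && (
  let v243 := mul v123 v241; ok v243 && (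
  let v244 := sub v242 v243; ok v244 && (
  let v245 := cst ⟨2296, 0, 0, 0⟩; ok v245 && (
  let v246 := mul v123 v244; ok v246 && (
  let v247 := sub v245 v246; ok v247 && (
  let v248 := cst ⟨302995, 0, 0, 0⟩; ok v248 && (
  let v249 := mul v123 v247; ok v249 && (
  let v250 := sub v248 v249; ok v250 && (
  let v251 := cst ⟨27269634, 0, 0, 0⟩; ok v251 && (
  let v252 := mul v123 v250; ok v252 && (
  let v253 := sub v251 v252; ok v253 && (
  let v254 := cst ⟨1527099483, 0, 0, 0⟩; ok v254 && (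
  let v255 := mul v123 v253; ok v255 && (
  let v256 := sub v254 v255; ok v256 && (
  let v257 := cst ⟨45812984491, 0, 0, 0⟩; ok v257 && (
  let v258 := mul v123 v256; ok v258 && (
  let v259 := sub v257 v258; ok v259 && (
  let v260 := mul v123 v259; ok v260 && (
  let v261 := sub v8 v260; ok v261 && (
  let v262 := mul v123 v261; ok v262 && (
  let v263 := sub v0 v262; ok v263 && (
  let v264 := mul v123 v6; ok v264 && (
  let v265 := mul v96 v96; ok v265 && (
  let v266 := add v265 v0; ok v266 && (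
  let v267 := mul v264 v264; ok v267 && (
  let v268 := scale ⟨369367187456, 0, 0, 0⟩ v267; ok v268 && (
  let v269 := add v263 v268; ok v269 && (
  let v270 := mul v96 v269; ok v270 && (
  let v271 := scale ⟨2199023255552, 0, 0, 0⟩ v270; ok v271 && (
  let v272 := add v266 v271; ok v272 && (
  let v273 := scale ⟨2199023255552, 0, 0, 0⟩ v98; ok v273 && (
  let v274 := add v272 v273; ok v274 && (
  let v275 := cst ⟨8589934592, 0, 0, 0⟩; ok v275 && (
  let v276 := add v274 v275; ok v276 && (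
  let v277 := log v276; ok v277 && (
  let v278 := scale ⟨549755813888, 0, 0, 0⟩ v277; ok v278 && (
  let v279 := exp v278; ok v279 && (
  let v280 := mul v96 v157; ok v280 && (
  let v281 := add v279 v280; ok v281 && (
  let v282 := mul v281 v212; ok v282 && (
  let v283 := mul v159 v215; ok v283 && (
  let v284 := add v282 v283; ok v284 && (
  let v285 := mul v210 v284; ok v285 && (
  let v286 := add v152 v285; ok v286 && (
  let v287 := mul v286 v6; ok v287 && (
  let v288 := mul v281 v210; ok v288 && (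
  let v289 := mul v288 v212; ok v289 && (
  let v290 := add v152 v289; ok v290 && (
  let v291 := mul v290 v6; ok v291 && (
  let v292 := scale ⟨223338299392, 0, 0, 0⟩ v291; ok v292 && (
  let v293 := add v8 v292; ok v293 && (
  let v294 := mul v291 v293; ok v294 && (
  let v295 := add v0 v294; ok v295 && (
  let v296 := scale ⟨893353197568, 0, 0, 0⟩ v287; ok v296 && (
  let v297 := add v0 v296; ok v297 && (
  let v298 := mul v287 v297; ok v298 && (
  let v299 := add v0 v298; ok v299 && (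
  let v300 := mul v193 v196; ok v300 && (
  let v301 := mul v300 v217; ok v301 && (
  let v302 := mul v301 v299; ok v302 && (
  let v303 := mul v240 v295; ok v303 && (
  let v304 := add v52 v8; ok v304 && (
  let v305 := mul v302 v304; ok v305 && (
  let v306 := add v303 v305; ok v306 && (
  let v307 := add v52 v0; ok v307 && (
  let v308 := mul v302 v307; ok v308 && (
  let v309 := mul v218 v307; ok v309 && (
  let v310 := mul v309 v196; ok v310 && (
  let v311 := mul v310 v195; ok v311 && (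
  let v312 := mul v306 v150; ok v312 && (
  let v313 := mul v311 v224; ok v313 && (
  let v314 := add v312 v313; ok v314 && (
  let v315 := mul v5 v198; ok v315 && (
  let v316 := inv v52; ok v316 && (
  let v317 := mul v315 v316; ok v317 && (
  let v318 := scale ⟨549755813888, 0, 0, 0⟩ v317; ok v318 && (
  let v319 := mul v23 v318; ok v319 && (
  let v320 := add v319 v314; ok v320 && (
  let v321 := mul x1 v320; ok v321 && (
  let v322 := mul x0 v321; ok v322 && (
  let v323 := mul v306 v281; ok v323 && (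
  let v324 := mul v323 v212; ok v324 && (
  let v325 := mul v308 v159; ok v325 && (
  let v326 := mul v325 v215; ok v326 && (
  let v327 := add v324 v326; ok v327 && (
  let v328 := mul v23 v322; ok v328 && (
  let v329 := mul v208 v327; ok v329 && (
  let v330 := add v328 v329; ok v330 && (
  let v331 := mul v107 v330; ok v331 && (
  let v332 := mul v331 v316; ok v332 && (
  let v333 := sub v0 v332; ok v333 && (
  let v334 := inv v333; ok v334 && (
  let v335 := mul v330 v334; ok v335 && (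
  let v336 := mul x1 v335; ok v336 && (
  let v337 := mul v107 v335; ok v337 && (
  let v338 := mul v337 v316; ok v338 && (
  let v339 := sub v0 v338; ok v339 && (
  let v340 := mul v49 v339; ok v340 && (
  let v341 := sub v340 v336; ok v341 && (
  let v342 := inv v341; ok v342 && (
  let v343 := mul v336 v342; ok v343 && (
  let v344 := sub v52 v337; ok v344 && (
  let v345 := inv v344; ok v345 && (
  let v346 := mul v343 v0; ok v346 && (
  let v347 := scale ⟨549755813888, 0, 0, 0⟩ v346; ok v347 && (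
  let v348 := sub v0 v347; ok v348 && (
  let v349 := sub v0 v346; ok v349 && (
  let v350 := inv v349; ok v350 && (
  let v351 := mul v348 v350; ok v351 && (
  let v352 := mul v3 v345; ok v352 && (
  let v353 := mul v189 v342; ok v353 && (
  let v354 := mul v353 v351; ok v354 && (
  let v355 := add v352 v354; ok v355 && (
  let v356 := mul v7 v335; ok v356 && (
  let v357 := mul v345 v356; ok v357 && (
  let v358 := mul v0 v342; ok v358 && (
  let v359 := mul v358 v351; ok v359 && (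
  let v360 := mul v359 v336; ok v360 && (
  let v361 := add v357 v360; ok v361 && (
  let v362 := scale ⟨223338299392, 0, 0, 0⟩ v361; ok v362 && (
  let v363 := add v8 v362; ok v363 && (
  let v364 := mul v361 v363; ok v364 && (
  let v365 := add v0 v364; ok v365 && (
  let v366 := mul v355 v365; ok v366 && (
  let v367 := mul v366 v334; ok v367 && (
  let v368 := mul v367 v327; ok v368 && (
  let v369 := mul v209 v23; ok v369 && (
  let v370 := cst ⟨7696581394432, 0, 0, 0⟩; ok v370 && (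
  let v371 := mul v370 v135; ok v371 && (
  let v372 := mul v190 v24; ok v372 && (
  let v373 := mul v372 v371; ok v373 && (
  let v374 := mul v179 v101; ok v374 && (
  let v375 := mul v22 v374; ok v375 && (
  let v376 := scale ⟨549755813888, 0, 0, 0⟩ v188; ok v376 && (
  let v377 := sub v0 v376; ok v377 && (
  let v378 := sub v0 v188; ok v378 && (
  let v379 := inv v378; ok v379 && (
  let v380 := mul v377 v379; ok v380 && (
  let v381 := mul v380 v187; ok v381 && (
  let v382 := mul v107 v117; ok v382 && (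
  let v383 := scale ⟨733097230336, 0, 0, 0⟩ v382; ok v383 && (
  let v384 := sub v0 v383; ok v384 && (
  let v385 := mul v117 v384; ok v385 && (
  let v386 := mul v89 v89; ok v386 && (
  let v387 := mul v12 v386; ok v387 && (
  let v388 := add v385 v387; ok v388 && (
  let v389 := mul v381 v189; ok v389 && (
  let v390 := add v388 v0; ok v390 && (
  let v391 := mul v389 v390; ok v391 && (
  let v392 := sub v388 v391; ok v392 && (
  let v393 := scale ⟨366548615168, 0, 0, 0⟩ v45; ok v393 && (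
  let v394 := sub v0 v393; ok v394 && (
  let v395 := mul v26 v394; ok v395 && (
  let v396 := add v392 v395; ok v396 && (
  let v397 := mul v374 v396; ok v397 && (
  let v398 := mul v375 v375; ok v398 && (
  let v399 := add v0 v398; ok v399 && (
  let v400 := inv v399; ok v400 && (
  let v401 := mul v397 v400; ok v401 && (
  let v402 := sub v0 v343; ok v402 && (
  let v403 := mul v402 v401; ok v403 && (
  let v404 := sub v0 v389; ok v404 && (
  isPos 4 v404 && (
  isPos 4 v401 && (
  isPos 4 v402 && (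
  let v405 := mul v367 v203; ok v405 && (
  let v406 := mul v405 v320; ok v406 && (
  let v407 := inv v24; ok v407 && (
  let v408 := mul v406 v407; ok v408 && (
  let v409 := mul v4 v403; ok v409 && (
  let v410 := mul x1 v409; ok v410 && (
  let v411 := scale ⟨549755813888, 0, 0, 0⟩ v410; ok v411 && (
  let v412 := sub v0 v411; ok v412 && (
  let v413 := mul v409 v412; ok v413 && (
  let v414 := neg v413; ok v414 && (
  let v415 := mul v3 x3; ok v415 && (
  let v416 := mul v415 v190; ok v416 && (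
  let v417 := mul v416 v15; ok v417 && (
  let v418 := mul v0 v417; ok v418 && (
  let v419 := add v414 v418; ok v419 && (
  let v420 := mul v414 v418; ok v420 && (
  let v421 := mul x1 v420; ok v421 && (
  let v422 := add v419 v421; ok v422 && (
  let v423 := mul v12 v42; ok v423 && (
  let v424 := scale ⟨412316860416, 0, 0, 0⟩ v43; ok v424 && (
  let v425 := sub v8 v424; ok v425 && (
  let v426 := mul v423 v425; ok v426 && (
  let v427 := mul v0 v426; ok v427 && (
  let v428 := neg v427; ok v428 && (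
  let v429 := add v422 v428; ok v429 && (
  let v430 := mul v422 v428; ok v430 && (
  let v431 := mul x1 v430; ok v431 && (
  let v432 := add v429 v431; ok v432 && (
  let v433 := mul v3 v335; ok v433 && (
  let v434 := mul v433 v407; ok v434 && (
  let v435 := mul v0 v434; ok v435 && (
  let v436 := add v432 v435; ok v436 && (
  let v437 := mul v432 v435; ok v437 && (
  let v438 := mul x1 v437; ok v438 && (
  let v439 := add v436 v438; ok v439 && (
  let v440 := mul v0 v373; ok v440 && (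
  let v441 := sub v439 v440; ok v441 && (
  let v442 := mul x1 v373; ok v442 && (
  let v443 := add v0 v442; ok v443 && (
  let v444 := inv v443; ok v444 && (
  let v445 := mul v441 v444; ok v445 && (
  let v446 := mul v3 v9; ok v446 && (
  let v447 := mul v446 v335; ok v447 && (
  let v448 := mul v447 v345; ok v448 && (
  let v449 := mul v0 v448; ok v449 && (
  let v450 := add v445 v449; ok v450 && (
  let v451 := mul v445 v449; ok v451 && (
  let v452 := mul x1 v451; ok v452 && (
  let v453 := add v450 v452; ok v453 && (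
  let v454 := mul x1 v453; ok v454 && (
  let v455 := add v0 v454; ok v455 && (
  let v456 := mul v368 v210; ok v456 && (
  let v457 := mul x1 v369; ok v457 && (
  let v458 := mul v408 v457; ok v458 && (
  let v459 := add v456 v458; ok v459 && (
  let v460 := mul v0 v459; ok v460 && (
  let v461 := add v368 v408; ok v461 && (
  let v462 := mul v0 v461; ok v462 && (
  let v463 := mul v460 v455; ok v463 && (
  let v464 := add v453 v463; ok v464 && (
  let v465 := add v464 v462; ok v465 && (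
  let v466 := neg v465; ok v466 && (
  let v467 := scale ⟨1073741824, 0, 0, 0⟩ v0; ok v467 && (
  let v468 := sub v466 v467; ok v468 && (
  let v469 := sub v20 v0; ok v469 && (
  let v470 := add v469 v56; ok v470 && (
  let v471 := scale ⟨2199023255552, 0, 0, 0⟩ v371; ok v471 && (
  let v472 := sub v470 v471; ok v472 && (
  let v473 := mul v190 v472; ok v473 && (
  let v474 := mul v469 v471; ok v474 && (
  let v475 := add v474 v0; ok v475 && (
  let v476 := inv v475; ok v476 && (
  let v477 := mul v473 v476; ok v477 && (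
  let v478 := mul v206 v327; ok v478 && (
  let v479 := scale ⟨549755813888, 0, 0, 0⟩ v201; ok v479 && (
  let v480 := add v17 v479; ok v480 && (
  let v481 := mul v478 v480; ok v481 && (
  let v482 := scale ⟨2199023255552, 0, 0, 0⟩ v481; ok v482 && (
  let v483 := add v322 v482; ok v483 && (
  let v484 := scale ⟨2199023255552, 0, 0, 0⟩ v483; ok v484 && (
  let v485 := mul v484 v334; ok v485 && (
  let v486 := mul v9 v335; ok v486 && (
  let v487 := sub v24 v486; ok v487 && (
  let v488 := inv v487; ok v488 && (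
  let v489 := mul v485 v488; ok v489 && (
  let v490 := sub v477 v489; ok v490 && (
  let v491 := mul v202 v202; ok v491 && (
  let v492 := cst ⟨14293651161088, 0, 0, 0⟩; ok v492 && (
  let v493 := mul v492 v135; ok v493 && (
  let v494 := mul v491 v493; ok v494 && (
  let v495 := scale ⟨27487790694400, 0, 0, 0⟩ v165; ok v495 && (
  let v496 := add v494 v495; ok v496 && (
  let v497 := mul v373 v444; ok v497 && (
  let v498 := sub v40 x1; ok v498 && (
  let v499 := sub v498 v39; ok v499 && (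
  let v500 := mul v0 v3; ok v500 && (
  let v501 := mul v500 x0; ok v501 && (
  let v502 := mul v24 v327; ok v502 && (
  let v503 := mul v502 v204; ok v503 && (
  let v504 := add v314 v503; ok v504 && (
  let v505 := add v486 v56; ok v505 && (
  let v506 := mul v0 v505; ok v506 && (
  let v507 := mul v496 v497; ok v507 && (
  let v508 := mul v334 v506; ok v508 && (
  let v509 := mul v501 v504; ok v509 && (
  let v510 := mul v508 v509; ok v510 && (
  let v511 := sub v507 v510; ok v511 && (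
  let v512 := scale ⟨549755813888, 0, 0, 0⟩ v486; ok v512 && (
  let v513 := add v0 v512; ok v513 && (
  let v514 := mul v334 v513; ok v514 && (
  let v515 := mul x1 v23; ok v515 && (
  let v516 := mul v515 v198; ok v516 && (
  let v517 := mul v24 v52; ok v517 && (
  let v518 := inv v517; ok v518 && (
  let v519 := mul v516 v518; ok v519 && (
  let v520 := mul v514 v519; ok v520 && (
  let v521 := sub v499 v520; ok v521 && (
  let v522 := mul v201 v511; ok v522 && (
  let v523 := sub v0 v201; ok v523 && (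
  let v524 := mul v12 v521; ok v524 && (
  let v525 := mul v523 v524; ok v525 && (
  let v526 := mul v496 v525; ok v526 && (
  let v527 := add v522 v526; ok v527 && (
  isPos 4 v211 && (
  isPos 4 v214 && (
  let v528 := scale ⟨2199023255552, 0, 0, 0⟩ v331; ok v528 && (
  let v529 := sub v52 v528; ok v529 && (
  isPos 4 v529 && (
  isPos 4 v341 && (
  let v530 := sub v8 v188; ok v530 && (
  isPos 4 v530 && (
  let v531 := sub v163 v291; ok v531 && (
  isPos 4 v531 && (
  let v532 := scale ⟨377957122048, 0, 0, 0⟩ v0; ok v532 && (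
  let v533 := sub v532 v287; ok v533 && (
  isPos 4 v533 && (
  isPos 4 v487 && (
  isPos 4 v349 && (
  let v534 := sub v163 v361; ok v534 && (
  isPos 4 v534 && (
  isPos 4 v490 && (
  isPos 4 v468 && (
  isPos 4 v527 && (
  isPos 4 v521 && (
  true)))))))))))))))))))))))))))))))))))))))))))))))))))))))))))))))))))))))))))))))))))))))))))))))))))))))))))))))))))))))))))))))))))))))))))))))))))))))))))))))))))))))))))))))))))))))))))))))))))))))))))))))))))))))))))))))))))))))))))))))))))))))))))))))))))))))))))))))))))))))))))))))))))))))))))))))))))))))))))))))))))))))))))))))))))))))))))))))))))))))))))))))))))))))))))))))))))))))))))))))))))))))))))))))))))))))))))))))))))))))))))))))))))))))))))))))))))))))))))))))))))))))))))))))))))))))))))))))))))))))))))))))))))))))))))))))))))))))))))))))))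
  | _ => false

set_option maxRecDepth 1000000 in
theorem chk8_eq (O : Ops) (m : List O.α)
    (h : chk8 O.cst O.add O.sub O.mul O.scale O.neg O.inv O.exp O.log O.ok O.isPos O.isLt m = true) :
    runG O 4 prog8 m = true := by
  match m, h with
  | [x0, x1, x2, x3], h => exact h

def chkB8 : List opsE.α → Bool :=
  chk8 opsE.cst opsE.add opsE.sub opsE.mul opsE.scale opsE.neg opsE.inv opsE.exp opsE.log opsE.ok opsE.isPos opsE.isLt

theorem chkB8_eq (m : List opsE.α) (h : chkB8 m = true) : runG opsE 4 prog8 m = true :=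
  chk8_eq opsE m h

def prog9 : List Op := [
  .const ⟨1099511627776, 0, 0, 0⟩,
  .mul 2 3,
  .mul 0 2,
  .mul 5 0,
  .mul 6 6,
  .mul 6 0,
  .mul 3 3,
  .mul 8 1,
  .const ⟨549755813888, 0, 0, 0⟩,
  .mul 10 5,
  .mul 0 13,
  .scale ⟨549755813888, 0, 0, 0⟩ 0,
  .mul 8 8,
  .mul 1 1,
  .sub 13 0,
  .inv 0,
  .mul 4 0,
  .scale ⟨2199023255552, 0, 0, 0⟩ 0,
  .scale ⟨2199023255552, 0, 0, 0⟩ 2,
  .sub 0 18,
  .add 0 2,
  .mul 24 5,
  .mul 18 0,
  .sub 22 0,
  .add 23 1,
  .mul 26 12,
  .mul 4 4,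
  .scale ⟨10774999203840, 0, 0, 0⟩ 15,
  .scale ⟨45768245248, 0, 0, 0⟩ 0,
  .const ⟨183207198720, 0, 0, 0⟩,
  .add 1 0,
  .mul 3 0,
  .add 23 0,
  .mul 5 0,
  .add 33 0,
  .mul 7 0,
  .scale ⟨549755813888, 0, 0, 0⟩ 0,
  .add 36 0,
  .mul 3 0,
  .mul 21 16,
  .scale ⟨2199023255552, 0, 0, 0⟩ 20,
  .add 1 0,
  .add 0 43,
  .mul 17 0,
  .add 0 43,
  .mul 27 27,
  .scale ⟨2199023255552, 0, 0, 0⟩ 0,
  .add 0 46,
  .mul 28 5,
  .sub 0 48,
  .log 5,
  .scale ⟨549755813888, 0, 0, 0⟩ 0,
  .exp 0,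
  .const ⟨3298534883328, 0, 0, 0⟩,
  .inv 0,
  .mul 54 0,
  .const ⟨2199023255552, 0, 0, 0⟩,
  .add 13 0,
  .inv 0,
  .mul 15 0,
  .mul 0 0,
  .sub 60 1,
  .mul 1 6,
  .add 62 0,
  .mul 2 0,
  .mul 4 4,
  .scale ⟨219915747328, 0, 0, 0⟩ 0,
  .mul 24 2,
  .scale ⟨549755813888, 0, 0, 0⟩ 0,
  .mul 26 2,
  .scale ⟨549755813888, 0, 0, 0⟩ 0,
  .add 2 0,
  .mul 52 22,
  .scale ⟨4398046511104, 0, 0, 0⟩ 0,
  .mul 54 48,
  .mul 0 25,
  .scale ⟨4398046511104, 0, 0, 0⟩ 0,
  .add 0 20,
  .inv 0,
  .mul 2 0,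
  .mul 0 0,
  .sub 80 1,
  .mul 1 26,
  .add 82 0,
  .mul 2 0,
  .mul 4 4,
  .scale ⟨219915747328, 0, 0, 0⟩ 0,
  .mul 13 2,
  .scale ⟨549755813888, 0, 0, 0⟩ 0,
  .sub 0 17,
  .mul 16 3,
  .scale ⟨549755813888, 0, 0, 0⟩ 0,
  .add 0 21,
  .add 3 0,
  .mul 88 25,
  .neg 0,
  .exp 0,
  .mul 91 26,
  .mul 1 0,
  .mul 76 81,
  .add 80 0,
  .inv 0,
  .mul 77 0,
  .mul 79 104,
  .mul 0 1,
  .sub 104 92,
  .mul 79 0,
  .mul 97 97,
  .sub 107 81,
  .mul 3 0,
  .mul 84 60,
  .inv 66,
  .mul 1 0,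
  .add 93 0,
  .mul 69 0,
  .mul 0 0,
  .inv 0,
  .mul 7 0,
  .add 98 92,
  .mul 119 0,
  .inv 0,
  .mul 120 0,
  .mul 0 0,
  .mul 0 13,
  .const ⟨1752346656768, 0, 0, 0⟩,
  .const ⟨91259465105408, 0, 0, 0⟩,
  .const ⟨109951162777600, 0, 0, 0⟩,
  .inv 0,
  .mul 2 0,
  .mul 116 20,
  .sub 129 0,
  .mul 129 129,
  .mul 0 1,
  .const ⟨23089744183296, 0, 0, 0⟩,
  .const ⟨10995116277760, 0, 0, 0⟩,
  .inv 0,
  .mul 2 0,
  .mul 131 0,
  .add 5 0,
  .mul 0 132,
  .scale ⟨687194767360, 0, 0, 0⟩ 138,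
  .add 0 16,
  .inv 0,
  .scale ⟨549755813888, 0, 0, 0⟩ 14,
  .mul 146 0,
  .add 2 0,
  .sub 145 6,
  .mul 1 0,
  .inv 0,
  .mul 151 124,
  .mul 0 1,
  .mul 152 0,
  .mul 128 0,
  .scale ⟨223338299392, 0, 0, 0⟩ 0,
  .add 145 0,
  .mul 2 0,
  .add 155 0,
  .mul 4 0,
  .add 0 157,
  .mul 62 0,
  .const ⟨107752139522048, 0, 0, 0⟩,
  .mul 0 33,
  .sub 31 0,
  .pos 0,
  .scale ⟨687194767360, 0, 0, 0⟩ 162,
  .sub 0 11,
  .pos 0,
  .pos 18,
  .mul 165 165,
  .const ⟨1939538511396864, 0, 0, 0⟩,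
  .mul 0 39,
  .mul 2 0,
  .sub 0 59,
  .pos 0,
  .const ⟨1744830464, 0, 0, 0⟩,
  .sub 0 164,
  .pos 0,
  .const ⟨34359738368, 0, 0, 0⟩,
  .sub 0 155,
  .pos 0,
  .scale ⟨4398046511104, 0, 0, 0⟩ 174,
  .sub 0 153,
  .pos 0,
  .const ⟨274877906944, 0, 0, 0⟩,
  .sub 0 164,
  .pos 0,
  .mul 154 153,
  .add 159 180,
  .mul 157 160,
  .mul 0 163,
  .scale ⟨2199023255552, 0, 0, 0⟩ 0,
  .add 135 0,
  .mul 4 0,
  .inv 0,
  .mul 7 0,
  .mul 188 0,
  .pos 98,
  .mul 0 187,
  .mul 188 189,
  .add 178 189,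
  .inv 0,
  .mul 180 0,
  .scale ⟨2199023255552, 0, 0, 0⟩ 0,
  .sub 193 0,
  .sub 194 183,
  .mul 199 4,
  .mul 0 2,
  .add 173 0,
  .scale ⟨224412041216, 0, 0, 0⟩ 183,
  .inv 161,
  .mul 1 0,
  .mul 201 180,
  .add 28 0,
  .inv 0,
  .mul 204 0,
  .mul 206 1,
  .mul 0 182,
  .mul 0 6,
  .mul 3 184,
  .mul 0 8,
  .sub 210 0,
  .inv 0,
  .mul 53 2,
  .sub 213 0,
  .inv 0,
  .scale ⟨2199023255552, 0, 0, 0⟩ 209,
  .add 0 216,
  .add 211 217,
  .mul 219 197,
  .scale ⟨2199023255552, 0, 0, 0⟩ 0,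
  .scale ⟨549755813888, 0, 0, 0⟩ 222,
  .add 1 0,
  .mul 225 0,
  .scale ⟨549755813888, 0, 0, 0⟩ 0,
  .mul 213 203,
  .sub 225 119,
  .mul 215 204,
  .scale ⟨2199023255552, 0, 0, 0⟩ 0,
  .sub 2 0,
  .mul 4 4,
  .add 1 0,
  .add 0 231,
  .scale ⟨549755813888, 0, 0, 0⟩ 0,
  .scale ⟨549755813888, 0, 0, 0⟩ 208,
  .sub 219 0,
  .mul 128 9,
  .mul 0 222,
  .scale ⟨137438953472, 0, 0, 0⟩ 0,
  .add 3 0,
  .mul 6 0,
  .const ⟨1, 0, 0, 0⟩,
  .const ⟨12, 0, 0, 0⟩,
  .mul 119 1,
  .sub 1 0,
  .const ⟨2296, 0, 0, 0⟩,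
  .mul 122 1,
  .sub 1 0,
  .const ⟨302995, 0, 0, 0⟩,
  .mul 125 1,
  .sub 1 0,
  .const ⟨27269634, 0, 0, 0⟩,
  .mul 128 1,
  .sub 1 0,
  .const ⟨1527099483, 0, 0, 0⟩,
  .mul 131 1,
  .sub 1 0,
  .const ⟨45812984491, 0, 0, 0⟩,
  .mul 134 1,
  .sub 1 0,
  .mul 136 0,
  .sub 252 0,
  .mul 138 0,
  .sub 262 0,
  .mul 140 257,
  .mul 168 168,
  .add 0 265,
  .mul 2 2,
  .scale ⟨369367187456, 0, 0, 0⟩ 0,
  .add 5 0,
  .mul 173 0,
  .scale ⟨2199023255552, 0, 0, 0⟩ 0,
  .add 5 0,
  .scale ⟨2199023255552, 0, 0, 0⟩ 174,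
  .add 1 0,
  .const ⟨8589934592, 0, 0, 0⟩,
  .add 1 0,
  .log 0,
  .scale ⟨549755813888, 0, 0, 0⟩ 0,
  .exp 0,
  .mul 183 122,
  .add 1 0,
  .mul 0 69,
  .mul 123 67,
  .add 1 0,
  .mul 74 0,
  .add 133 0,
  .mul 0 280,
  .mul 6 77,
  .mul 0 76,
  .add 137 0,
  .mul 0 284,
  .scale ⟨223338299392, 0, 0, 0⟩ 0,
  .add 284 0,
  .mul 2 0,
  .add 294 0,
  .scale ⟨893353197568, 0, 0, 0⟩ 8,
  .add 296 0,
  .mul 10 0,
  .add 298 0,
  .mul 106 103,
  .mul 0 83,
  .mul 0 2,
  .mul 62 7,
  .add 251 295,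
  .mul 2 0,
  .add 2 0,
  .add 254 306,
  .mul 5 0,
  .mul 90 1,
  .mul 0 113,
  .mul 0 115,
  .mul 5 161,
  .mul 1 88,
  .add 1 0,
  .mul 309 116,
  .inv 263,
  .mul 1 0,
  .scale ⟨549755813888, 0, 0, 0⟩ 0,
  .mul 295 0,
  .add 0 5,
  .mul 322 0,
  .mul 322 0,
  .mul 16 41,
  .mul 0 111,
  .mul 16 165,
  .mul 0 110,
  .add 2 0,
  .mul 304 5,
  .mul 120 1,
  .add 1 0,
  .mul 223 0,
  .mul 0 15,
  .sub 332 0,
  .inv 0,
  .mul 4 0,
  .mul 337 0,
  .mul 229 1,
  .mul 0 21,
  .sub 338 0,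
  .mul 290 0,
  .sub 0 4,
  .inv 0,
  .mul 6 0,
  .sub 291 6,
  .inv 0,
  .mul 2 345,
  .scale ⟨549755813888, 0, 0, 0⟩ 0,
  .sub 347 0,
  .sub 348 2,
  .inv 0,
  .mul 2 0,
  .mul 348 6,
  .mul 163 10,
  .mul 0 2,
  .add 2 0,
  .mul 348 20,
  .mul 11 0,
  .mul 357 15,
  .mul 0 7,
  .mul 0 23,
  .add 3 0,
  .scale ⟨223338299392, 0, 0, 0⟩ 0,
  .add 354 0,
  .mul 2 0,
  .add 364 0,
  .mul 10 0,
  .mul 0 32,
  .mul 0 40,
  .mul 159 345,
  .const ⟨7696581394432, 0, 0, 0⟩,
  .mul 0 235,
  .mul 181 347,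
  .mul 0 1,
  .mul 194 272,
  .mul 352 0,
  .scale ⟨549755813888, 0, 0, 0⟩ 187,
  .sub 376 0,
  .sub 377 189,
  .inv 0,
  .mul 2 0,
  .mul 0 193,
  .mul 274 264,
  .scale ⟨733097230336, 0, 0, 0⟩ 0,
  .sub 383 0,
  .mul 267 0,
  .mul 296 296,
  .mul 374 0,
  .add 2 0,
  .mul 7 199,
  .add 1 389,
  .mul 1 0,
  .sub 3 0,
  .scale ⟨366548615168, 0, 0, 0⟩ 347,
  .sub 393 0,
  .mul 368 0,
  .add 3 0,
  .mul 22 0,
  .mul 22 22,
  .add 398 0,
  .inv 0,
  .mul 3 0,
  .sub 401 58,
  .mul 0 1,
  .sub 403 14,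
  .pos 0,
  .pos 3,
  .pos 2,
  .mul 37 201,
  .mul 0 85,
  .inv 382,
  .mul 1 0,
  .mul 404 5,
  .mul 411 0,
  .scale ⟨549755813888, 0, 0, 0⟩ 0,
  .sub 411 0,
  .mul 3 0,
  .neg 0,
  .mul 411 418,
  .mul 0 225,
  .mul 0 401,
  .mul 417 0,
  .add 4 0,
  .mul 5 1,
  .mul 422 0,
  .add 2 0,
  .mul 410 380,
  .scale ⟨412316860416, 0, 0, 0⟩ 380,
  .sub 416 0,
  .mul 2 0,
  .mul 426 0,
  .neg 0,
  .add 6 0,
  .mul 7 1,
  .mul 432 0,
  .add 2 0,
  .mul 429 97,
  .mul 0 26,
  .mul 434 0,
  .add 3 0,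
  .mul 4 1,
  .mul 439 0,
  .add 2 0,
  .mul 439 66,
  .sub 1 0,
  .mul 443 68,
  .add 442 0,
  .inv 0,
  .mul 3 0,
  .mul 442 436,
  .mul 0 111,
  .mul 0 102,
  .mul 448 0,
  .add 4 0,
  .mul 5 1,
  .mul 453 0,
  .add 2 0,
  .mul 455 0,
  .add 454 0,
  .mul 87 245,
  .mul 458 87,
  .mul 49 0,
  .add 2 0,
  .mul 459 0,
  .add 92 52,
  .mul 461 0,
  .mul 2 7,
  .add 10 0,
  .add 0 2,
  .neg 0,
  .scale ⟨1073741824, 0, 0, 0⟩ 466,
  .sub 1 0,
  .sub 448 468,
  .add 0 413,
  .scale ⟨2199023255552, 0, 0, 0⟩ 99,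
  .sub 1 0,
  .mul 282 0,
  .mul 4 2,
  .add 0 474,
  .inv 0,
  .mul 3 0,
  .mul 271 150,
  .scale ⟨549755813888, 0, 0, 0⟩ 277,
  .add 462 0,
  .mul 2 0,
  .scale ⟨2199023255552, 0, 0, 0⟩ 0,
  .add 160 0,
  .scale ⟨2199023255552, 0, 0, 0⟩ 0,
  .mul 0 150,
  .mul 476 150,
  .sub 462 0,
  .inv 0,
  .mul 3 0,
  .sub 12 0,
  .mul 288 288,
  .const ⟨14293651161088, 0, 0, 0⟩,
  .mul 0 357,
  .mul 2 0,
  .scale ⟨27487790694400, 0, 0, 0⟩ 329,
  .add 1 0,
  .mul 123 52,
  .sub 457 499,
  .sub 0 459,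
  .mul 499 496,
  .mul 0 501,
  .mul 477 174,
  .mul 0 298,
  .add 189 0,
  .add 18 448,
  .mul 505 0,
  .mul 10 9,
  .mul 173 1,
  .mul 7 4,
  .mul 1 0,
  .sub 3 0,
  .scale ⟨549755813888, 0, 0, 0⟩ 25,
  .add 512 0,
  .mul 179 0,
  .mul 516 491,
  .mul 0 317,
  .mul 492 464,
  .inv 0,
  .mul 2 0,
  .mul 5 0,
  .sub 21 0,
  .mul 320 10,
  .sub 522 321,
  .mul 511 2,
  .mul 1 0,
  .mul 29 0,
  .add 4 0,
  .pos 316,
  .pos 313,
  .scale ⟨2199023255552, 0, 0, 0⟩ 196,
  .sub 476 0,
  .pos 0,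
  .pos 188,
  .sub 521 341,
  .pos 0,
  .sub 367 239,
  .pos 0,
  .scale ⟨377957122048, 0, 0, 0⟩ 531,
  .sub 0 245,
  .pos 0,
  .pos 46,
  .pos 184,
  .sub 370 172,
  .pos 0,
  .pos 44,
  .pos 66,
  .pos 7,
  .pos 13]

def chk9 {α : Type} (cst : Z → α) (add sub mul : α → α → α) (scale : Z → α → α)
    (neg inv exp log : α → α) (ok : α → Bool) (isPos : Nat → α → Bool) (isLt : α → Nat → Bool) :
    List α → Bool
  | [x0, x1, x2, x3] =>
  let v0 := cst ⟨1099511627776, 0, 0, 0⟩; ok v0 && (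
  let v1 := mul x1 x2; ok v1 && (
  let v2 := mul v1 x0; ok v2 && (
  let v3 := mul x2 v2; ok v3 && (
  let v4 := mul x2 x2; ok v4 && (
  let v5 := mul x1 v4; ok v5 && (
  let v6 := mul v2 v2; ok v6 && (
  let v7 := mul x1 v5; ok v7 && (
  let v8 := cst ⟨549755813888, 0, 0, 0⟩; ok v8 && (
  let v9 := mul x1 v3; ok v9 && (
  let v10 := mul v9 x3; ok v10 && (
  let v11 := scale ⟨549755813888, 0, 0, 0⟩ v10; ok v11 && (
  let v12 := mul v3 v3; ok v12 && (
  let v13 := mul v11 v11; ok v13 && (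
  let v14 := sub v0 v13; ok v14 && (
  let v15 := inv v14; ok v15 && (
  let v16 := mul v11 v15; ok v16 && (
  let v17 := scale ⟨2199023255552, 0, 0, 0⟩ v16; ok v17 && (
  let v18 := scale ⟨2199023255552, 0, 0, 0⟩ v15; ok v18 && (
  let v19 := sub v18 v0; ok v19 && (
  let v20 := add v19 v17; ok v20 && (
  let v21 := mul x3 v15; ok v21 && (
  let v22 := mul v3 v21; ok v22 && (
  let v23 := sub v0 v22; ok v23 && (
  let v24 := add v0 v22; ok v24 && (
  let v25 := mul x1 v12; ok v25 && (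
  let v26 := mul v21 v21; ok v26 && (
  let v27 := scale ⟨10774999203840, 0, 0, 0⟩ v11; ok v27 && (
  let v28 := scale ⟨45768245248, 0, 0, 0⟩ v27; ok v28 && (
  let v29 := cst ⟨183207198720, 0, 0, 0⟩; ok v29 && (
  let v30 := add v28 v29; ok v30 && (
  let v31 := mul v27 v30; ok v31 && (
  let v32 := add v8 v31; ok v32 && (
  let v33 := mul v27 v32; ok v33 && (
  let v34 := add v0 v33; ok v34 && (
  let v35 := mul v27 v34; ok v35 && (
  let v36 := scale ⟨549755813888, 0, 0, 0⟩ v35; ok v36 && (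
  let v37 := add v0 v36; ok v37 && (
  let v38 := mul v34 v37; ok v38 && (
  let v39 := mul v17 v22; ok v39 && (
  let v40 := scale ⟨2199023255552, 0, 0, 0⟩ v19; ok v40 && (
  let v41 := add v39 v40; ok v41 && (
  let v42 := add v41 x1; ok v42 && (
  let v43 := mul v25 v42; ok v43 && (
  let v44 := add v43 v0; ok v44 && (
  let v45 := mul v17 v17; ok v45 && (
  let v46 := scale ⟨2199023255552, 0, 0, 0⟩ v45; ok v46 && (
  let v47 := add v46 v0; ok v47 && (
  let v48 := mul v19 v42; ok v48 && (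
  let v49 := sub v48 v0; ok v49 && (
  let v50 := log v44; ok v50 && (
  let v51 := scale ⟨549755813888, 0, 0, 0⟩ v50; ok v51 && (
  let v52 := exp v51; ok v52 && (
  let v53 := cst ⟨3298534883328, 0, 0, 0⟩; ok v53 && (
  let v54 := inv v53; ok v54 && (
  let v55 := mul v0 v54; ok v55 && (
  let v56 := cst ⟨2199023255552, 0, 0, 0⟩; ok v56 && (
  let v57 := add v43 v56; ok v57 && (
  let v58 := inv v57; ok v58 && (
  let v59 := mul v43 v58; ok v59 && (
  let v60 := mul v59 v59; ok v60 && (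
  let v61 := sub v0 v59; ok v61 && (
  let v62 := mul v60 v55; ok v62 && (
  let v63 := add v0 v62; ok v63 && (
  let v64 := mul v61 v63; ok v64 && (
  let v65 := mul v60 v60; ok v65 && (
  let v66 := scale ⟨219915747328, 0, 0, 0⟩ v65; ok v66 && (
  let v67 := mul v42 v64; ok v67 && (
  let v68 := scale ⟨549755813888, 0, 0, 0⟩ v67; ok v68 && (
  let v69 := mul v42 v66; ok v69 && (
  let v70 := scale ⟨549755813888, 0, 0, 0⟩ v69; ok v70 && (
  let v71 := add v68 v70; ok v71 && (
  let v72 := mul v19 v49; ok v72 && (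
  let v73 := scale ⟨4398046511104, 0, 0, 0⟩ v72; ok v73 && (
  let v74 := mul v19 v25; ok v74 && (
  let v75 := mul v74 v49; ok v75 && (
  let v76 := scale ⟨4398046511104, 0, 0, 0⟩ v75; ok v76 && (
  let v77 := add v76 v56; ok v77 && (
  let v78 := inv v77; ok v78 && (
  let v79 := mul v76 v78; ok v79 && (
  let v80 := mul v79 v79; ok v80 && (
  let v81 := sub v0 v79; ok v81 && (
  let v82 := mul v80 v55; ok v82 && (
  let v83 := add v0 v82; ok v83 && (
  let v84 := mul v81 v83; ok v84 && (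
  let v85 := mul v80 v80; ok v85 && (
  let v86 := scale ⟨219915747328, 0, 0, 0⟩ v85; ok v86 && (
  let v87 := mul v73 v84; ok v87 && (
  let v88 := scale ⟨549755813888, 0, 0, 0⟩ v87; ok v88 && (
  let v89 := sub v88 v71; ok v89 && (
  let v90 := mul v73 v86; ok v90 && (
  let v91 := scale ⟨549755813888, 0, 0, 0⟩ v90; ok v91 && (
  let v92 := add v91 v70; ok v92 && (
  let v93 := add v89 v92; ok v93 && (
  let v94 := mul v5 v68; ok v94 && (
  let v95 := neg v94; ok v95 && (
  let v96 := exp v95; ok v96 && (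
  let v97 := mul v5 v70; ok v97 && (
  let v98 := mul v96 v97; ok v98 && (
  let v99 := mul v22 v17; ok v99 && (
  let v100 := add v19 v99; ok v100 && (
  let v101 := inv v100; ok v101 && (
  let v102 := mul v24 v101; ok v102 && (
  let v103 := mul v23 x1; ok v103 && (
  let v104 := mul v103 v102; ok v104 && (
  let v105 := sub v0 v12; ok v105 && (
  let v106 := mul v26 v105; ok v106 && (
  let v107 := mul v9 v9; ok v107 && (
  let v108 := sub v0 v26; ok v108 && (
  let v109 := mul v105 v108; ok v109 && (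
  let v110 := mul v25 v49; ok v110 && (
  let v111 := inv v44; ok v111 && (
  let v112 := mul v110 v111; ok v112 && (
  let v113 := add v19 v112; ok v113 && (
  let v114 := mul v44 v113; ok v114 && (
  let v115 := mul v114 v114; ok v115 && (
  let v116 := inv v115; ok v116 && (
  let v117 := mul v109 v116; ok v117 && (
  let v118 := add v19 v25; ok v118 && (
  let v119 := mul x0 v118; ok v119 && (
  let v120 := inv v119; ok v120 && (
  let v121 := mul v0 v120; ok v121 && (
  let v122 := mul v121 v121; ok v122 && (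
  let v123 := mul v122 v109; ok v123 && (
  let v124 := cst ⟨1752346656768, 0, 0, 0⟩; ok v124 && (
  let v125 := cst ⟨91259465105408, 0, 0, 0⟩; ok v125 && (
  let v126 := cst ⟨109951162777600, 0, 0, 0⟩; ok v126 && (
  let v127 := inv v126; ok v127 && (
  let v128 := mul v125 v127; ok v128 && (
  let v129 := mul v12 v108; ok v129 && (
  let v130 := sub v0 v129; ok v130 && (
  let v131 := mul v1 v1; ok v131 && (
  let v132 := mul v131 v130; ok v132 && (
  let v133 := cst ⟨23089744183296, 0, 0, 0⟩; ok v133 && (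
  let v134 := cst ⟨10995116277760, 0, 0, 0⟩; ok v134 && (
  let v135 := inv v134; ok v135 && (
  let v136 := mul v133 v135; ok v136 && (
  let v137 := mul v5 v136; ok v137 && (
  let v138 := add v132 v137; ok v138 && (
  let v139 := mul v138 v6; ok v139 && (
  let v140 := scale ⟨687194767360, 0, 0, 0⟩ v1; ok v140 && (
  let v141 := add v140 v124; ok v141 && (
  let v142 := inv v141; ok v142 && (
  let v143 := scale ⟨549755813888, 0, 0, 0⟩ v128; ok v143 && (
  let v144 := mul x2 v143; ok v144 && (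
  let v145 := add v142 v144; ok v145 && (
  let v146 := sub v0 v139; ok v146 && (
  let v147 := mul v145 v146; ok v147 && (
  let v148 := inv v147; ok v148 && (
  let v149 := mul x2 v24; ok v149 && (
  let v150 := mul v149 v148; ok v150 && (
  let v151 := mul x1 v150; ok v151 && (
  let v152 := mul v23 v151; ok v152 && (
  let v153 := scale ⟨223338299392, 0, 0, 0⟩ v152; ok v153 && (
  let v154 := add v8 v153; ok v154 && (
  let v155 := mul v152 v154; ok v155 && (
  let v156 := add v0 v155; ok v156 && (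
  let v157 := mul v152 v156; ok v157 && (
  let v158 := add v157 v0; ok v158 && (
  let v159 := mul v96 v158; ok v159 && (
  let v160 := cst ⟨107752139522048, 0, 0, 0⟩; ok v160 && (
  let v161 := mul v160 v127; ok v161 && (
  let v162 := sub v130 v161; ok v162 && (
  isPos 4 v162 && (
  let v163 := scale ⟨687194767360, 0, 0, 0⟩ v0; ok v163 && (
  let v164 := sub v163 v152; ok v164 && (
  isPos 4 v164 && (
  isPos 4 v146 && (
  let v165 := mul x0 x0; ok v165 && (
  let v166 := cst ⟨1939538511396864, 0, 0, 0⟩; ok v166 && (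
  let v167 := mul v166 v127; ok v167 && (
  let v168 := mul v165 v167; ok v168 && (
  let v169 := sub v168 v109; ok v169 && (
  isPos 4 v169 && (
  let v170 := cst ⟨1744830464, 0, 0, 0⟩; ok v170 && (
  let v171 := sub v170 v6; ok v171 && (
  isPos 4 v171 && (
  let v172 := cst ⟨34359738368, 0, 0, 0⟩; ok v172 && (
  let v173 := sub v172 v17; ok v173 && (
  isPos 4 v173 && (
  let v174 := scale ⟨4398046511104, 0, 0, 0⟩ x0; ok v174 && (
  let v175 := sub v174 v21; ok v175 && (
  isPos 4 v175 && (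
  let v176 := cst ⟨274877906944, 0, 0, 0⟩; ok v176 && (
  let v177 := sub v176 v12; ok v177 && (
  isPos 4 v177 && (
  let v178 := mul v23 v24; ok v178 && (
  let v179 := add v19 x1; ok v179 && (
  let v180 := mul v22 v19; ok v180 && (
  let v181 := mul v180 v17; ok v181 && (
  let v182 := scale ⟨2199023255552, 0, 0, 0⟩ v181; ok v182 && (
  let v183 := add v47 v182; ok v183 && (
  let v184 := mul v179 v183; ok v184 && (
  let v185 := inv v184; ok v185 && (
  let v186 := mul v178 v185; ok v186 && (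
  let v187 := mul x1 v186; ok v187 && (
  isPos 4 v89 && (
  let v188 := mul v187 v0; ok v188 && (
  let v189 := mul v0 x0; ok v189 && (
  let v190 := add v11 v0; ok v190 && (
  let v191 := inv v190; ok v191 && (
  let v192 := mul v11 v191; ok v192 && (
  let v193 := scale ⟨2199023255552, 0, 0, 0⟩ v192; ok v193 && (
  let v194 := sub v0 v193; ok v194 && (
  let v195 := sub v0 v11; ok v195 && (
  let v196 := mul x3 v191; ok v196 && (
  let v197 := mul v196 v194; ok v197 && (
  let v198 := add v24 v197; ok v198 && (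
  let v199 := scale ⟨224412041216, 0, 0, 0⟩ v15; ok v199 && (
  let v200 := inv v38; ok v200 && (
  let v201 := mul v199 v200; ok v201 && (
  let v202 := mul v0 v21; ok v202 && (
  let v203 := add v174 v202; ok v203 && (
  let v204 := inv v203; ok v204 && (
  let v205 := mul v0 v204; ok v205 && (
  let v206 := mul x0 v204; ok v206 && (
  let v207 := mul v206 v24; ok v207 && (
  let v208 := mul v207 v201; ok v208 && (
  let v209 := mul v205 v24; ok v209 && (
  let v210 := mul v209 v201; ok v210 && (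
  let v211 := sub v0 v210; ok v211 && (
  let v212 := inv v211; ok v212 && (
  let v213 := mul v159 v210; ok v213 && (
  let v214 := sub v0 v213; ok v214 && (
  let v215 := inv v214; ok v215 && (
  let v216 := scale ⟨2199023255552, 0, 0, 0⟩ v6; ok v216 && (
  let v217 := add v216 v0; ok v217 && (
  let v218 := add v6 v0; ok v218 && (
  let v219 := mul x0 v21; ok v219 && (
  let v220 := scale ⟨2199023255552, 0, 0, 0⟩ v219; ok v220 && (
  let v221 := scale ⟨549755813888, 0, 0, 0⟩ x1; ok v221 && (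
  let v222 := add v220 v221; ok v222 && (
  let v223 := mul x2 v222; ok v223 && (
  let v224 := scale ⟨549755813888, 0, 0, 0⟩ v223; ok v224 && (
  let v225 := mul v11 v21; ok v225 && (
  let v226 := sub v0 v106; ok v226 && (
  let v227 := mul v11 v22; ok v227 && (
  let v228 := scale ⟨2199023255552, 0, 0, 0⟩ v227; ok v228 && (
  let v229 := sub v226 v228; ok v229 && (
  let v230 := mul v225 v225; ok v230 && (
  let v231 := add v229 v230; ok v231 && (
  let v232 := add v231 v0; ok v232 && (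
  let v233 := scale ⟨549755813888, 0, 0, 0⟩ v232; ok v233 && (
  let v234 := scale ⟨549755813888, 0, 0, 0⟩ v25; ok v234 && (
  let v235 := sub v15 v234; ok v235 && (
  let v236 := mul v107 v226; ok v236 && (
  let v237 := mul v236 v14; ok v237 && (
  let v238 := scale ⟨137438953472, 0, 0, 0⟩ v237; ok v238 && (
  let v239 := add v235 v238; ok v239 && (
  let v240 := mul v233 v239; ok v240 && (
  let v241 := cst ⟨1, 0, 0, 0⟩; ok v241 && (
  let v242 := cst ⟨12, 0, 0, 0⟩; ok v242 && (
  let v243 := mul v123 v241; ok v243 && (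
  let v244 := sub v242 v243; ok v244 && (
  let v245 := cst ⟨2296, 0, 0, 0⟩; ok v245 && (
  let v246 := mul v123 v244; ok v246 && (
  let v247 := sub v245 v246; ok v247 && (
  let v248 := cst ⟨302995, 0, 0, 0⟩; ok v248 && (
  let v249 := mul v123 v247; ok v249 && (
  let v250 := sub v248 v249; ok v250 && (
  let v251 := cst ⟨27269634, 0, 0, 0⟩; ok v251 && (
  let v252 := mul v123 v250; ok v252 && (
  let v253 := sub v251 v252; ok v253 && (
  let v254 := cst ⟨1527099483, 0, 0, 0⟩; ok v254 && (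
  let v255 := mul v123 v253; ok v255 && (
  let v256 := sub v254 v255; ok v256 && (
  let v257 := cst ⟨45812984491, 0, 0, 0⟩; ok v257 && (
  let v258 := mul v123 v256; ok v258 && (
  let v259 := sub v257 v258; ok v259 && (
  let v260 := mul v123 v259; ok v260 && (
  let v261 := sub v8 v260; ok v261 && (
  let v262 := mul v123 v261; ok v262 && (
  let v263 := sub v0 v262; ok v263 && (
  let v264 := mul v123 v6; ok v264 && (
  let v265 := mul v96 v96; ok v265 && (
  let v266 := add v265 v0; ok v266 && (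
  let v267 := mul v264 v264; ok v267 && (
  let v268 := scale ⟨369367187456, 0, 0, 0⟩ v267; ok v268 && (
  let v269 := add v263 v268; ok v269 && (
  let v270 := mul v96 v269; ok v270 && (
  let v271 := scale ⟨2199023255552, 0, 0, 0⟩ v270; ok v271 && (
  let v272 := add v266 v271; ok v272 && (
  let v273 := scale ⟨2199023255552, 0, 0, 0⟩ v98; ok v273 && (
  let v274 := add v272 v273; ok v274 && (
  let v275 := cst ⟨8589934592, 0, 0, 0⟩; ok v275 && (
  let v276 := add v274 v275; ok v276 && (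
  let v277 := log v276; ok v277 && (
  let v278 := scale ⟨549755813888, 0, 0, 0⟩ v277; ok v278 && (
  let v279 := exp v278; ok v279 && (
  let v280 := mul v96 v157; ok v280 && (
  let v281 := add v279 v280; ok v281 && (
  let v282 := mul v281 v212; ok v282 && (
  let v283 := mul v159 v215; ok v283 && (
  let v284 := add v282 v283; ok v284 && (
  let v285 := mul v210 v284; ok v285 && (
  let v286 := add v152 v285; ok v286 && (
  let v287 := mul v286 v6; ok v287 && (
  let v288 := mul v281 v210; ok v288 && (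
  let v289 := mul v288 v212; ok v289 && (
  let v290 := add v152 v289; ok v290 && (
  let v291 := mul v290 v6; ok v291 && (
  let v292 := scale ⟨223338299392, 0, 0, 0⟩ v291; ok v292 && (
  let v293 := add v8 v292; ok v293 && (
  let v294 := mul v291 v293; ok v294 && (
  let v295 := add v0 v294; ok v295 && (
  let v296 := scale ⟨893353197568, 0, 0, 0⟩ v287; ok v296 && (
  let v297 := add v0 v296; ok v297 && (
  let v298 := mul v287 v297; ok v298 && (
  let v299 := add v0 v298; ok v299 && (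
  let v300 := mul v193 v196; ok v300 && (
  let v301 := mul v300 v217; ok v301 && (
  let v302 := mul v301 v299; ok v302 && (
  let v303 := mul v240 v295; ok v303 && (
  let v304 := add v52 v8; ok v304 && (
  let v305 := mul v302 v304; ok v305 && (
  let v306 := add v303 v305; ok v306 && (
  let v307 := add v52 v0; ok v307 && (
  let v308 := mul v302 v307; ok v308 && (
  let v309 := mul v218 v307; ok v309 && (
  let v310 := mul v309 v196; ok v310 && (
  let v311 := mul v310 v195; ok v311 && (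
  let v312 := mul v306 v150; ok v312 && (
  let v313 := mul v311 v224; ok v313 && (
  let v314 := add v312 v313; ok v314 && (
  let v315 := mul v5 v198; ok v315 && (
  let v316 := inv v52; ok v316 && (
  let v317 := mul v315 v316; ok v317 && (
  let v318 := scale ⟨549755813888, 0, 0, 0⟩ v317; ok v318 && (
  let v319 := mul v23 v318; ok v319 && (
  let v320 := add v319 v314; ok v320 && (
  let v321 := mul x1 v320; ok v321 && (
  let v322 := mul x0 v321; ok v322 && (
  let v323 := mul v306 v281; ok v323 && (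
  let v324 := mul v323 v212; ok v324 && (
  let v325 := mul v308 v159; ok v325 && (
  let v326 := mul v325 v215; ok v326 && (
  let v327 := add v324 v326; ok v327 && (
  let v328 := mul v23 v322; ok v328 && (
  let v329 := mul v208 v327; ok v329 && (
  let v330 := add v328 v329; ok v330 && (
  let v331 := mul v107 v330; ok v331 && (
  let v332 := mul v331 v316; ok v332 && (
  let v333 := sub v0 v332; ok v333 && (
  let v334 := inv v333; ok v334 && (
  let v335 := mul v330 v334; ok v335 && (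
  let v336 := mul x1 v335; ok v336 && (
  let v337 := mul v107 v335; ok v337 && (
  let v338 := mul v337 v316; ok v338 && (
  let v339 := sub v0 v338; ok v339 && (
  let v340 := mul v49 v339; ok v340 && (
  let v341 := sub v340 v336; ok v341 && (
  let v342 := inv v341; ok v342 && (
  let v343 := mul v336 v342; ok v343 && (
  let v344 := sub v52 v337; ok v344 && (
  let v345 := inv v344; ok v345 && (
  let v346 := mul v343 v0; ok v346 && (
  let v347 := scale ⟨549755813888, 0, 0, 0⟩ v346; ok v347 && (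
  let v348 := sub v0 v347; ok v348 && (
  let v349 := sub v0 v346; ok v349 && (
  let v350 := inv v349; ok v350 && (
  let v351 := mul v348 v350; ok v351 && (
  let v352 := mul v3 v345; ok v352 && (
  let v353 := mul v189 v342; ok v353 && (
  let v354 := mul v353 v351; ok v354 && (
  let v355 := add v352 v354; ok v355 && (
  let v356 := mul v7 v335; ok v356 && (
  let v357 := mul v345 v356; ok v357 && (
  let v358 := mul v0 v342; ok v358 && (
  let v359 := mul v358 v351; ok v359 && (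
  let v360 := mul v359 v336; ok v360 && (
  let v361 := add v357 v360; ok v361 && (
  let v362 := scale ⟨223338299392, 0, 0, 0⟩ v361; ok v362 && (
  let v363 := add v8 v362; ok v363 && (
  let v364 := mul v361 v363; ok v364 && (
  let v365 := add v0 v364; ok v365 && (
  let v366 := mul v355 v365; ok v366 && (
  let v367 := mul v366 v334; ok v367 && (
  let v368 := mul v367 v327; ok v368 && (
  let v369 := mul v209 v23; ok v369 && (
  let v370 := cst ⟨7696581394432, 0, 0, 0⟩; ok v370 && (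
  let v371 := mul v370 v135; ok v371 && (
  let v372 := mul v190 v24; ok v372 && (
  let v373 := mul v372 v371; ok v373 && (
  let v374 := mul v179 v101; ok v374 && (
  let v375 := mul v22 v374; ok v375 && (
  let v376 := scale ⟨549755813888, 0, 0, 0⟩ v188; ok v376 && (
  let v377 := sub v0 v376; ok v377 && (
  let v378 := sub v0 v188; ok v378 && (
  let v379 := inv v378; ok v379 && (
  let v380 := mul v377 v379; ok v380 && (
  let v381 := mul v380 v187; ok v381 && (
  let v382 := mul v107 v117; ok v382 && (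
  let v383 := scale ⟨733097230336, 0, 0, 0⟩ v382; ok v383 && (
  let v384 := sub v0 v383; ok v384 && (
  let v385 := mul v117 v384; ok v385 && (
  let v386 := mul v89 v89; ok v386 && (
  let v387 := mul v12 v386; ok v387 && (
  let v388 := add v385 v387; ok v388 && (
  let v389 := mul v381 v189; ok v389 && (
  let v390 := add v388 v0; ok v390 && (
  let v391 := mul v389 v390; ok v391 && (
  let v392 := sub v388 v391; ok v392 && (
  let v393 := scale ⟨366548615168, 0, 0, 0⟩ v45; ok v393 && (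
  let v394 := sub v0 v393; ok v394 && (
  let v395 := mul v26 v394; ok v395 && (
  let v396 := add v392 v395; ok v396 && (
  let v397 := mul v374 v396; ok v397 && (
  let v398 := mul v375 v375; ok v398 && (
  let v399 := add v0 v398; ok v399 && (
  let v400 := inv v399; ok v400 && (
  let v401 := mul v397 v400; ok v401 && (
  let v402 := sub v0 v343; ok v402 && (
  let v403 := mul v402 v401; ok v403 && (
  let v404 := sub v0 v389; ok v404 && (
  isPos 4 v404 && (
  isPos 4 v401 && (
  isPos 4 v402 && (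
  let v405 := mul v367 v203; ok v405 && (
  let v406 := mul v405 v320; ok v406 && (
  let v407 := inv v24; ok v407 && (
  let v408 := mul v406 v407; ok v408 && (
  let v409 := mul v4 v403; ok v409 && (
  let v410 := mul x1 v409; ok v410 && (
  let v411 := scale ⟨549755813888, 0, 0, 0⟩ v410; ok v411 && (
  let v412 := sub v0 v411; ok v412 && (
  let v413 := mul v409 v412; ok v413 && (
  let v414 := neg v413; ok v414 && (
  let v415 := mul v3 x3; ok v415 && (
  let v416 := mul v415 v190; ok v416 && (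
  let v417 := mul v416 v15; ok v417 && (
  let v418 := mul v0 v417; ok v418 && (
  let v419 := add v414 v418; ok v419 && (
  let v420 := mul v414 v418; ok v420 && (
  let v421 := mul x1 v420; ok v421 && (
  let v422 := add v419 v421; ok v422 && (
  let v423 := mul v12 v42; ok v423 && (
  let v424 := scale ⟨412316860416, 0, 0, 0⟩ v43; ok v424 && (
  let v425 := sub v8 v424; ok v425 && (
  let v426 := mul v423 v425; ok v426 && (
  let v427 := mul v0 v426; ok v427 && (
  let v428 := neg v427; ok v428 && (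
  let v429 := add v422 v428; ok v429 && (
  let v430 := mul v422 v428; ok v430 && (
  let v431 := mul x1 v430; ok v431 && (
  let v432 := add v429 v431; ok v432 && (
  let v433 := mul v3 v335; ok v433 && (
  let v434 := mul v433 v407; ok v434 && (
  let v435 := mul v0 v434; ok v435 && (
  let v436 := add v432 v435; ok v436 && (
  let v437 := mul v432 v435; ok v437 && (
  let v438 := mul x1 v437; ok v438 && (
  let v439 := add v436 v438; ok v439 && (
  let v440 := mul v0 v373; ok v440 && (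
  let v441 := sub v439 v440; ok v441 && (
  let v442 := mul x1 v373; ok v442 && (
  let v443 := add v0 v442; ok v443 && (
  let v444 := inv v443; ok v444 && (
  let v445 := mul v441 v444; ok v445 && (
  let v446 := mul v3 v9; ok v446 && (
  let v447 := mul v446 v335; ok v447 && (
  let v448 := mul v447 v345; ok v448 && (
  let v449 := mul v0 v448; ok v449 && (
  let v450 := add v445 v449; ok v450 && (
  let v451 := mul v445 v449; ok v451 && (
  let v452 := mul x1 v451; ok v452 && (
  let v453 := add v450 v452; ok v453 && (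
  let v454 := mul x1 v453; ok v454 && (
  let v455 := add v0 v454; ok v455 && (
  let v456 := mul v368 v210; ok v456 && (
  let v457 := mul x1 v369; ok v457 && (
  let v458 := mul v408 v457; ok v458 && (
  let v459 := add v456 v458; ok v459 && (
  let v460 := mul v0 v459; ok v460 && (
  let v461 := add v368 v408; ok v461 && (
  let v462 := mul v0 v461; ok v462 && (
  let v463 := mul v460 v455; ok v463 && (
  let v464 := add v453 v463; ok v464 && (
  let v465 := add v464 v462; ok v465 && (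
  let v466 := neg v465; ok v466 && (
  let v467 := scale ⟨1073741824, 0, 0, 0⟩ v0; ok v467 && (
  let v468 := sub v466 v467; ok v468 && (
  let v469 := sub v20 v0; ok v469 && (
  let v470 := add v469 v56; ok v470 && (
  let v471 := scale ⟨2199023255552, 0, 0, 0⟩ v371; ok v471 && (
  let v472 := sub v470 v471; ok v472 && (
  let v473 := mul v190 v472; ok v473 && (
  let v474 := mul v469 v471; ok v474 && (
  let v475 := add v474 v0; ok v475 && (
  let v476 := inv v475; ok v476 && (
  let v477 := mul v473 v476; ok v477 && (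
  let v478 := mul v206 v327; ok v478 && (
  let v479 := scale ⟨549755813888, 0, 0, 0⟩ v201; ok v479 && (
  let v480 := add v17 v479; ok v480 && (
  let v481 := mul v478 v480; ok v481 && (
  let v482 := scale ⟨2199023255552, 0, 0, 0⟩ v481; ok v482 && (
  let v483 := add v322 v482; ok v483 && (
  let v484 := scale ⟨2199023255552, 0, 0, 0⟩ v483; ok v484 && (
  let v485 := mul v484 v334; ok v485 && (
  let v486 := mul v9 v335; ok v486 && (
  let v487 := sub v24 v486; ok v487 && (
  let v488 := inv v487; ok v488 && (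
  let v489 := mul v485 v488; ok v489 && (
  let v490 := sub v477 v489; ok v490 && (
  let v491 := mul v202 v202; ok v491 && (
  let v492 := cst ⟨14293651161088, 0, 0, 0⟩; ok v492 && (
  let v493 := mul v492 v135; ok v493 && (
  let v494 := mul v491 v493; ok v494 && (
  let v495 := scale ⟨27487790694400, 0, 0, 0⟩ v165; ok v495 && (
  let v496 := add v494 v495; ok v496 && (
  let v497 := mul v373 v444; ok v497 && (
  let v498 := sub v40 x1; ok v498 && (
  let v499 := sub v498 v39; ok v499 && (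
  let v500 := mul v0 v3; ok v500 && (
  let v501 := mul v500 x0; ok v501 && (
  let v502 := mul v24 v327; ok v502 && (
  let v503 := mul v502 v204; ok v503 && (
  let v504 := add v314 v503; ok v504 && (
  let v505 := add v486 v56; ok v505 && (
  let v506 := mul v0 v505; ok v506 && (
  let v507 := mul v496 v497; ok v507 && (
  let v508 := mul v334 v506; ok v508 && (
  let v509 := mul v501 v504; ok v509 && (
  let v510 := mul v508 v509; ok v510 && (
  let v511 := sub v507 v510; ok v511 && (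
  let v512 := scale ⟨549755813888, 0, 0, 0⟩ v486; ok v512 && (
  let v513 := add v0 v512; ok v513 && (
  let v514 := mul v334 v513; ok v514 && (
  let v515 := mul x1 v23; ok v515 && (
  let v516 := mul v515 v198; ok v516 && (
  let v517 := mul v24 v52; ok v517 && (
  let v518 := inv v517; ok v518 && (
  let v519 := mul v516 v518; ok v519 && (
  let v520 := mul v514 v519; ok v520 && (
  let v521 := sub v499 v520; ok v521 && (
  let v522 := mul v201 v511; ok v522 && (
  let v523 := sub v0 v201; ok v523 && (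
  let v524 := mul v12 v521; ok v524 && (
  let v525 := mul v523 v524; ok v525 && (
  let v526 := mul v496 v525; ok v526 && (
  let v527 := add v522 v526; ok v527 && (
  isPos 4 v211 && (
  isPos 4 v214 && (
  let v528 := scale ⟨2199023255552, 0, 0, 0⟩ v331; ok v528 && (
  let v529 := sub v52 v528; ok v529 && (
  isPos 4 v529 && (
  isPos 4 v341 && (
  let v530 := sub v8 v188; ok v530 && (
  isPos 4 v530 && (
  let v531 := sub v163 v291; ok v531 && (
  isPos 4 v531 && (
  let v532 := scale ⟨377957122048, 0, 0, 0⟩ v0; ok v532 && (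
  let v533 := sub v532 v287; ok v533 && (
  isPos 4 v533 && (
  isPos 4 v487 && (
  isPos 4 v349 && (
  let v534 := sub v163 v361; ok v534 && (
  isPos 4 v534 && (
  isPos 4 v490 && (
  isPos 4 v468 && (
  isPos 4 v527 && (
  isPos 4 v521 && (
  true)))))))))))))))))))))))))))))))))))))))))))))))))))))))))))))))))))))))))))))))))))))))))))))))))))))))))))))))))))))))))))))))))))))))))))))))))))))))))))))))))))))))))))))))))))))))))))))))))))))))))))))))))))))))))))))))))))))))))))))))))))))))))))))))))))))))))))))))))))))))))))))))))))))))))))))))))))))))))))))))))))))))))))))))))))))))))))))))))))))))))))))))))))))))))))))))))))))))))))))))))))))))))))))))))))))))))))))))))))))))))))))))))))))))))))))))))))))))))))))))))))))))))))))))))))))))))))))))))))))))))))))))))))))))))))))))))))))))))))))))))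
  | _ => false

set_option maxRecDepth 1000000 in
theorem chk9_eq (O : Ops) (m : List O.α)
    (h : chk9 O.cst O.add O.sub O.mul O.scale O.neg O.inv O.exp O.log O.ok O.isPos O.isLt m = true) :
    runG O 4 prog9 m = true := by
  match m, h with
  | [x0, x1, x2, x3], h => exact h

def chkB9 : List opsE.α → Bool :=
  chk9 opsE.cst opsE.add opsE.sub opsE.mul opsE.scale opsE.neg opsE.inv opsE.exp opsE.log opsE.ok opsE.isPos opsE.isLt

theorem chkB9_eq (m : List opsE.α) (h : chkB9 m = true) : runG opsE 4 prog9 m = true :=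
  chk9_eq opsE m h

def prog10 : List Op := [
  .const ⟨1099511627776, 0, 0, 0⟩,
  .mul 2 3,
  .mul 0 2,
  .mul 5 0,
  .mul 6 6,
  .mul 6 0,
  .mul 3 3,
  .mul 8 1,
  .const ⟨549755813888, 0, 0, 0⟩,
  .mul 10 5,
  .mul 0 13,
  .scale ⟨549755813888, 0, 0, 0⟩ 0,
  .mul 8 8,
  .mul 1 1,
  .sub 13 0,
  .inv 0,
  .mul 4 0,
  .scale ⟨2199023255552, 0, 0, 0⟩ 0,
  .scale ⟨2199023255552, 0, 0, 0⟩ 2,
  .sub 0 18,
  .add 0 2,
  .mul 24 5,
  .mul 18 0,
  .sub 22 0,
  .add 23 1,
  .mul 26 12,
  .mul 4 4,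
  .scale ⟨10774999203840, 0, 0, 0⟩ 15,
  .scale ⟨45768245248, 0, 0, 0⟩ 0,
  .const ⟨183207198720, 0, 0, 0⟩,
  .add 1 0,
  .mul 3 0,
  .add 23 0,
  .mul 5 0,
  .add 33 0,
  .mul 7 0,
  .scale ⟨549755813888, 0, 0, 0⟩ 0,
  .add 36 0,
  .mul 3 0,
  .mul 21 16,
  .scale ⟨2199023255552, 0, 0, 0⟩ 20,
  .add 1 0,
  .add 0 43,
  .mul 17 0,
  .add 0 43,
  .mul 27 27,
  .scale ⟨2199023255552, 0, 0, 0⟩ 0,
  .add 0 46,
  .mul 28 5,
  .sub 0 48,
  .log 5,
  .scale ⟨549755813888, 0, 0, 0⟩ 0,
  .exp 0,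
  .const ⟨3298534883328, 0, 0, 0⟩,
  .inv 0,
  .mul 54 0,
  .const ⟨2199023255552, 0, 0, 0⟩,
  .add 13 0,
  .inv 0,
  .mul 15 0,
  .mul 0 0,
  .sub 60 1,
  .mul 1 6,
  .add 62 0,
  .mul 2 0,
  .mul 4 4,
  .scale ⟨219915747328, 0, 0, 0⟩ 0,
  .mul 24 2,
  .scale ⟨549755813888, 0, 0, 0⟩ 0,
  .mul 26 2,
  .scale ⟨549755813888, 0, 0, 0⟩ 0,
  .add 2 0,
  .mul 52 22,
  .scale ⟨4398046511104, 0, 0, 0⟩ 0,
  .mul 54 48,
  .mul 0 25,
  .scale ⟨4398046511104, 0, 0, 0⟩ 0,
  .add 0 20,
  .inv 0,
  .mul 2 0,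
  .mul 0 0,
  .sub 80 1,
  .mul 1 26,
  .add 82 0,
  .mul 2 0,
  .mul 4 4,
  .scale ⟨219915747328, 0, 0, 0⟩ 0,
  .mul 13 2,
  .scale ⟨549755813888, 0, 0, 0⟩ 0,
  .sub 0 17,
  .mul 16 3,
  .scale ⟨549755813888, 0, 0, 0⟩ 0,
  .add 0 21,
  .add 3 0,
  .mul 88 25,
  .neg 0,
  .exp 0,
  .mul 91 26,
  .mul 1 0,
  .mul 93 9,
  .neg 0,
  .exp 0,
  .mul 96 9,
  .mul 1 0,
  .mul 81 86,
  .add 85 0,
  .inv 0,
  .mul 82 0,
  .mul 84 109,
  .mul 0 1,
  .sub 109 97,
  .mul 84 0,
  .mul 102 102,
  .sub 112 86,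
  .mul 3 0,
  .mul 89 65,
  .inv 71,
  .mul 1 0,
  .add 98 0,
  .mul 74 0,
  .mul 0 0,
  .inv 0,
  .mul 7 0,
  .add 103 97,
  .mul 124 0,
  .inv 0,
  .mul 125 0,
  .mul 0 0,
  .mul 0 13,
  .mul 0 122,
  .mul 0 123,
  .scale ⟨733097230336, 0, 0, 0⟩ 0,
  .sub 131 0,
  .mul 4 0,
  .const ⟨10853382356992, 0, 0, 0⟩,
  .sub 1 0,
  .pos 0,
  .const ⟨42880953483264, 0, 0, 0⟩,
  .sub 0 8,
  .pos 0,
  .const ⟨13, 0, 0, 0⟩,
  .const ⟨2295, 0, 0, 0⟩,
  .mul 6 1,
  .sub 1 0,
  .const ⟨302996, 0, 0, 0⟩,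
  .mul 9 1,
  .sub 1 0,
  .const ⟨27269633, 0, 0, 0⟩,
  .mul 12 1,
  .sub 1 0,
  .const ⟨1527099484, 0, 0, 0⟩,
  .mul 15 1,
  .sub 1 0,
  .const ⟨45812984490, 0, 0, 0⟩,
  .mul 18 1,
  .sub 1 0,
  .mul 20 0,
  .sub 146 0,
  .mul 22 0,
  .sub 156 0,
  .add 61 157,
  .mul 62 62,
  .add 0 159,
  .mul 64 3,
  .scale ⟨2199023255552, 0, 0, 0⟩ 0,
  .add 2 0,
  .scale ⟨4398046511104, 0, 0, 0⟩ 65,
  .sub 1 0,
  .inv 7,
  .mul 1 0,
  .add 0 9,
  .mul 72 59,
  .scale ⟨549755813888, 0, 0, 0⟩ 0,
  .mul 0 2,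
  .sub 6 0,
  .pos 7,
  .pos 0,
  .sub 172 76,
  .mul 0 15,
  .scale ⟨2199023255552, 0, 0, 0⟩ 76,
  .add 1 0,
  .inv 4,
  .mul 1 0,
  .scale ⟨549755813888, 0, 0, 0⟩ 0,
  .add 0 171,
  .inv 0,
  .mul 2 0,
  .mul 73 0,
  .scale ⟨549755813888, 0, 0, 0⟩ 0,
  .sub 184 0,
  .sub 185 2,
  .inv 0,
  .mul 2 0,
  .add 5 188,
  .mul 93 0,
  .mul 83 2,
  .mul 0 9,
  .mul 9 4,
  .pos 7,
  .mul 170 169,
  .add 175 196,
  .mul 173 176,
  .mul 0 179,
  .scale ⟨2199023255552, 0, 0, 0⟩ 0,
  .add 151 0,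
  .mul 4 0,
  .inv 0,
  .mul 7 0,
  .mul 204 0,
  .pos 114,
  .mul 204 84,
  .inv 0,
  .mul 205 0,
  .mul 0 0,
  .mul 0 93,
  .mul 0 202,
  .mul 0 203,
  .scale ⟨733097230336, 0, 0, 0⟩ 0,
  .sub 211 0,
  .mul 4 0,
  .sub 0 79,
  .pos 0,
  .sub 78 6,
  .pos 0,
  .mul 2 77,
  .sub 77 0,
  .mul 4 0,
  .sub 76 0,
  .mul 6 0,
  .sub 75 0,
  .mul 8 0,
  .sub 74 0,
  .mul 10 0,
  .sub 73 0,
  .mul 12 0,
  .sub 218 0,
  .mul 14 0,
  .sub 228 0,
  .add 128 229,
  .mul 129 129,
  .add 0 231,
  .mul 131 3,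
  .scale ⟨2199023255552, 0, 0, 0⟩ 0,
  .add 2 0,
  .scale ⟨4398046511104, 0, 0, 0⟩ 132,
  .sub 1 0,
  .inv 7,
  .mul 1 0,
  .add 0 9,
  .mul 139 37,
  .scale ⟨549755813888, 0, 0, 0⟩ 0,
  .mul 0 2,
  .sub 6 0,
  .pos 7,
  .pos 0,
  .sub 244 143,
  .mul 0 15,
  .scale ⟨2199023255552, 0, 0, 0⟩ 143,
  .add 1 0,
  .inv 4,
  .mul 1 0,
  .scale ⟨549755813888, 0, 0, 0⟩ 0,
  .add 0 243,
  .inv 0,
  .mul 2 0,
  .mul 51 0,
  .mul 1 256,
  .add 245 256,
  .inv 0,
  .mul 247 0,
  .scale ⟨2199023255552, 0, 0, 0⟩ 0,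
  .sub 260 0,
  .sub 261 250,
  .mul 266 4,
  .mul 0 2,
  .add 240 0,
  .scale ⟨224412041216, 0, 0, 0⟩ 250,
  .inv 228,
  .mul 1 0,
  .scale ⟨4398046511104, 0, 0, 0⟩ 269,
  .mul 269 248,
  .add 1 0,
  .inv 0,
  .mul 272 0,
  .mul 274 1,
  .mul 0 250,
  .mul 0 7,
  .mul 3 252,
  .mul 0 9,
  .sub 278 0,
  .inv 0,
  .mul 90 2,
  .sub 281 0,
  .inv 0,
  .scale ⟨2199023255552, 0, 0, 0⟩ 277,
  .add 0 284,
  .add 279 285,
  .mul 287 265,
  .scale ⟨1099511627776, 0, 0, 0⟩ 0,
  .scale ⟨1099511627776, 0, 0, 0⟩ 290,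
  .add 1 0,
  .mul 293 0,
  .scale ⟨549755813888, 0, 0, 0⟩ 0,
  .mul 281 271,
  .sub 293 182,
  .mul 283 272,
  .scale ⟨2199023255552, 0, 0, 0⟩ 0,
  .sub 2 0,
  .mul 4 4,
  .add 1 0,
  .add 0 299,
  .scale ⟨549755813888, 0, 0, 0⟩ 0,
  .scale ⟨549755813888, 0, 0, 0⟩ 276,
  .sub 287 0,
  .mul 191 9,
  .mul 0 290,
  .scale ⟨137438953472, 0, 0, 0⟩ 0,
  .add 3 0,
  .mul 6 0,
  .const ⟨1, 0, 0, 0⟩,
  .const ⟨12, 0, 0, 0⟩,
  .mul 182 1,
  .sub 1 0,
  .const ⟨2296, 0, 0, 0⟩,
  .mul 185 1,
  .sub 1 0,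
  .const ⟨302995, 0, 0, 0⟩,
  .mul 188 1,
  .sub 1 0,
  .const ⟨27269634, 0, 0, 0⟩,
  .mul 191 1,
  .sub 1 0,
  .const ⟨1527099483, 0, 0, 0⟩,
  .mul 194 1,
  .sub 1 0,
  .const ⟨45812984491, 0, 0, 0⟩,
  .mul 197 1,
  .sub 1 0,
  .mul 199 0,
  .sub 320 0,
  .mul 201 0,
  .sub 330 0,
  .mul 202 202,
  .scale ⟨369367187456, 0, 0, 0⟩ 0,
  .add 2 0,
  .mul 238 0,
  .scale ⟨2199023255552, 0, 0, 0⟩ 0,
  .add 176 0,
  .add 0 162,
  .const ⟨8589934592, 0, 0, 0⟩,
  .add 1 0,
  .log 0,
  .scale ⟨549755813888, 0, 0, 0⟩ 0,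
  .exp 0,
  .mul 247 160,
  .add 1 0,
  .mul 0 65,
  .mul 156 63,
  .add 1 0,
  .mul 70 0,
  .add 156 0,
  .mul 0 344,
  .mul 6 73,
  .mul 0 72,
  .add 160 0,
  .mul 0 348,
  .scale ⟨223338299392, 0, 0, 0⟩ 0,
  .add 348 0,
  .mul 2 0,
  .add 358 0,
  .scale ⟨893353197568, 0, 0, 0⟩ 8,
  .add 360 0,
  .mul 10 0,
  .add 362 0,
  .mul 103 100,
  .mul 0 79,
  .mul 0 2,
  .mul 58 7,
  .add 315 359,
  .mul 2 0,
  .add 2 0,
  .add 318 370,
  .mul 5 0,
  .mul 86 1,
  .mul 0 110,
  .mul 0 112,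
  .mul 5 183,
  .mul 1 84,
  .add 1 0,
  .mul 373 113,
  .inv 327,
  .mul 1 0,
  .scale ⟨549755813888, 0, 0, 0⟩ 0,
  .mul 359 0,
  .add 0 5,
  .mul 386 0,
  .mul 386 0,
  .mul 16 41,
  .mul 0 107,
  .mul 16 198,
  .mul 0 106,
  .add 2 0,
  .mul 368 5,
  .mul 116 1,
  .add 1 0,
  .mul 282 0,
  .mul 0 15,
  .sub 396 0,
  .inv 0,
  .mul 4 0,
  .mul 401 0,
  .mul 288 1,
  .mul 0 21,
  .sub 402 0,
  .mul 354 0,
  .sub 0 4,
  .inv 0,
  .mul 6 0,
  .sub 355 6,
  .inv 0,
  .mul 2 155,
  .scale ⟨549755813888, 0, 0, 0⟩ 0,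
  .sub 411 0,
  .sub 412 2,
  .inv 0,
  .mul 2 0,
  .mul 412 6,
  .mul 160 10,
  .mul 0 2,
  .add 2 0,
  .mul 412 20,
  .mul 11 0,
  .mul 167 15,
  .mul 0 7,
  .mul 0 23,
  .add 3 0,
  .scale ⟨223338299392, 0, 0, 0⟩ 0,
  .add 418 0,
  .mul 2 0,
  .add 428 0,
  .mul 10 0,
  .mul 0 32,
  .mul 0 40,
  .mul 155 409,
  .const ⟨7696581394432, 0, 0, 0⟩,
  .const ⟨10995116277760, 0, 0, 0⟩,
  .inv 0,
  .mul 2 0,
  .mul 180 413,
  .mul 0 1,
  .mul 244 333,
  .mul 418 0,
  .scale ⟨549755813888, 0, 0, 0⟩ 186,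
  .sub 442 0,
  .sub 443 188,
  .inv 0,
  .mul 2 0,
  .mul 0 243,
  .mul 335 325,
  .scale ⟨733097230336, 0, 0, 0⟩ 0,
  .sub 449 0,
  .mul 328 0,
  .mul 362 362,
  .mul 440 0,
  .add 2 0,
  .mul 7 198,
  .add 1 455,
  .mul 1 0,
  .sub 3 0,
  .scale ⟨366548615168, 0, 0, 0⟩ 413,
  .sub 459 0,
  .mul 434 0,
  .add 3 0,
  .mul 22 0,
  .mul 22 22,
  .add 464 0,
  .inv 0,
  .mul 3 0,
  .sub 467 60,
  .mul 0 1,
  .sub 469 14,
  .pos 0,
  .pos 3,
  .pos 2,
  .mul 39 199,
  .mul 0 87,
  .inv 448,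
  .mul 1 0,
  .mul 470 5,
  .mul 477 0,
  .scale ⟨549755813888, 0, 0, 0⟩ 0,
  .sub 477 0,
  .mul 3 0,
  .neg 0,
  .mul 477 484,
  .mul 0 224,
  .mul 0 467,
  .mul 483 0,
  .add 4 0,
  .mul 5 1,
  .mul 488 0,
  .add 2 0,
  .mul 476 446,
  .scale ⟨412316860416, 0, 0, 0⟩ 446,
  .sub 482 0,
  .mul 2 0,
  .mul 492 0,
  .neg 0,
  .add 6 0,
  .mul 7 1,
  .mul 498 0,
  .add 2 0,
  .mul 495 99,
  .mul 0 26,
  .mul 500 0,
  .add 3 0,
  .mul 4 1,
  .mul 505 0,
  .add 2 0,
  .mul 505 66,
  .sub 1 0,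
  .mul 509 68,
  .add 508 0,
  .inv 0,
  .mul 3 0,
  .mul 508 502,
  .mul 0 113,
  .mul 0 104,
  .mul 514 0,
  .add 4 0,
  .mul 5 1,
  .mul 519 0,
  .add 2 0,
  .mul 521 0,
  .add 520 0,
  .mul 89 243,
  .mul 524 89,
  .mul 49 0,
  .add 2 0,
  .mul 525 0,
  .add 94 52,
  .mul 527 0,
  .mul 2 7,
  .add 10 0,
  .add 0 2,
  .neg 0,
  .scale ⟨1073741824, 0, 0, 0⟩ 532,
  .sub 1 0,
  .sub 514 534,
  .add 0 479,
  .scale ⟨2199023255552, 0, 0, 0⟩ 99,
  .sub 1 0,
  .mul 281 0,
  .mul 4 2,
  .add 0 540,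
  .inv 0,
  .mul 3 0,
  .mul 269 152,
  .scale ⟨549755813888, 0, 0, 0⟩ 276,
  .add 528 0,
  .mul 2 0,
  .scale ⟨2199023255552, 0, 0, 0⟩ 0,
  .add 162 0,
  .scale ⟨2199023255552, 0, 0, 0⟩ 0,
  .mul 0 152,
  .mul 542 152,
  .sub 528 0,
  .inv 0,
  .mul 3 0,
  .sub 12 0,
  .mul 286 286,
  .const ⟨14293651161088, 0, 0, 0⟩,
  .mul 0 122,
  .mul 2 0,
  .mul 561 561,
  .scale ⟨27487790694400, 0, 0, 0⟩ 0,
  .add 2 0,
  .mul 124 53,
  .sub 524 566,
  .sub 0 526,
  .mul 566 563,
  .mul 0 568,
  .mul 544 177,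
  .mul 0 297,
  .add 192 0,
  .add 19 515,
  .mul 572 0,
  .mul 10 9,
  .mul 176 1,
  .mul 7 4,
  .mul 1 0,
  .sub 3 0,
  .scale ⟨549755813888, 0, 0, 0⟩ 26,
  .add 579 0,
  .mul 182 0,
  .mul 583 558,
  .mul 0 317,
  .mul 559 531,
  .inv 0,
  .mul 2 0,
  .mul 5 0,
  .sub 21 0,
  .mul 320 10,
  .sub 589 321,
  .mul 578 2,
  .mul 1 0,
  .mul 29 0,
  .add 4 0,
  .pos 315,
  .pos 312,
  .scale ⟨2199023255552, 0, 0, 0⟩ 199,
  .sub 543 0,
  .pos 0,
  .pos 191,
  .sub 588 341,
  .pos 0,
  .scale ⟨687194767360, 0, 0, 0⟩ 597,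
  .sub 0 243,
  .pos 0,
  .scale ⟨377957122048, 0, 0, 0⟩ 599,
  .sub 0 249,
  .pos 0,
  .pos 48,
  .pos 188,
  .sub 3 176,
  .pos 0,
  .pos 46,
  .pos 68,
  .pos 8,
  .pos 14]

def chk10 {α : Type} (cst : Z → α) (add sub mul : α → α → α) (scale : Z → α → α)
    (neg inv exp log : α → α) (ok : α → Bool) (isPos : Nat → α → Bool) (isLt : α → Nat → Bool) :
    List α → Bool
  | [x0, x1, x2, x3] =>
  let v0 := cst ⟨1099511627776, 0, 0, 0⟩; ok v0 && (
  let v1 := mul x1 x2; ok v1 && (
  let v2 := mul v1 x0; ok v2 && (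
  let v3 := mul x2 v2; ok v3 && (
  let v4 := mul x2 x2; ok v4 && (
  let v5 := mul x1 v4; ok v5 && (
  let v6 := mul v2 v2; ok v6 && (
  let v7 := mul x1 v5; ok v7 && (
  let v8 := cst ⟨549755813888, 0, 0, 0⟩; ok v8 && (
  let v9 := mul x1 v3; ok v9 && (
  let v10 := mul v9 x3; ok v10 && (
  let v11 := scale ⟨549755813888, 0, 0, 0⟩ v10; ok v11 && (
  let v12 := mul v3 v3; ok v12 && (
  let v13 := mul v11 v11; ok v13 && (
  let v14 := sub v0 v13; ok v14 && (
  let v15 := inv v14; ok v15 && (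
  let v16 := mul v11 v15; ok v16 && (
  let v17 := scale ⟨2199023255552, 0, 0, 0⟩ v16; ok v17 && (
  let v18 := scale ⟨2199023255552, 0, 0, 0⟩ v15; ok v18 && (
  let v19 := sub v18 v0; ok v19 && (
  let v20 := add v19 v17; ok v20 && (
  let v21 := mul x3 v15; ok v21 && (
  let v22 := mul v3 v21; ok v22 && (
  let v23 := sub v0 v22; ok v23 && (
  let v24 := add v0 v22; ok v24 && (
  let v25 := mul x1 v12; ok v25 && (
  let v26 := mul v21 v21; ok v26 && (
  let v27 := scale ⟨10774999203840, 0, 0, 0⟩ v11; ok v27 && (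
  let v28 := scale ⟨45768245248, 0, 0, 0⟩ v27; ok v28 && (
  let v29 := cst ⟨183207198720, 0, 0, 0⟩; ok v29 && (
  let v30 := add v28 v29; ok v30 && (
  let v31 := mul v27 v30; ok v31 && (
  let v32 := add v8 v31; ok v32 && (
  let v33 := mul v27 v32; ok v33 && (
  let v34 := add v0 v33; ok v34 && (
  let v35 := mul v27 v34; ok v35 && (
  let v36 := scale ⟨549755813888, 0, 0, 0⟩ v35; ok v36 && (
  let v37 := add v0 v36; ok v37 && (
  let v38 := mul v34 v37; ok v38 && (
  let v39 := mul v17 v22; ok v39 && (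
  let v40 := scale ⟨2199023255552, 0, 0, 0⟩ v19; ok v40 && (
  let v41 := add v39 v40; ok v41 && (
  let v42 := add v41 x1; ok v42 && (
  let v43 := mul v25 v42; ok v43 && (
  let v44 := add v43 v0; ok v44 && (
  let v45 := mul v17 v17; ok v45 && (
  let v46 := scale ⟨2199023255552, 0, 0, 0⟩ v45; ok v46 && (
  let v47 := add v46 v0; ok v47 && (
  let v48 := mul v19 v42; ok v48 && (
  let v49 := sub v48 v0; ok v49 && (
  let v50 := log v44; ok v50 && (
  let v51 := scale ⟨549755813888, 0, 0, 0⟩ v50; ok v51 && (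
  let v52 := exp v51; ok v52 && (
  let v53 := cst ⟨3298534883328, 0, 0, 0⟩; ok v53 && (
  let v54 := inv v53; ok v54 && (
  let v55 := mul v0 v54; ok v55 && (
  let v56 := cst ⟨2199023255552, 0, 0, 0⟩; ok v56 && (
  let v57 := add v43 v56; ok v57 && (
  let v58 := inv v57; ok v58 && (
  let v59 := mul v43 v58; ok v59 && (
  let v60 := mul v59 v59; ok v60 && (
  let v61 := sub v0 v59; ok v61 && (
  let v62 := mul v60 v55; ok v62 && (
  let v63 := add v0 v62; ok v63 && (
  let v64 := mul v61 v63; ok v64 && (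
  let v65 := mul v60 v60; ok v65 && (
  let v66 := scale ⟨219915747328, 0, 0, 0⟩ v65; ok v66 && (
  let v67 := mul v42 v64; ok v67 && (
  let v68 := scale ⟨549755813888, 0, 0, 0⟩ v67; ok v68 && (
  let v69 := mul v42 v66; ok v69 && (
  let v70 := scale ⟨549755813888, 0, 0, 0⟩ v69; ok v70 && (
  let v71 := add v68 v70; ok v71 && (
  let v72 := mul v19 v49; ok v72 && (
  let v73 := scale ⟨4398046511104, 0, 0, 0⟩ v72; ok v73 && (
  let v74 := mul v19 v25; ok v74 && (
  let v75 := mul v74 v49; ok v75 && (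
  let v76 := scale ⟨4398046511104, 0, 0, 0⟩ v75; ok v76 && (
  let v77 := add v76 v56; ok v77 && (
  let v78 := inv v77; ok v78 && (
  let v79 := mul v76 v78; ok v79 && (
  let v80 := mul v79 v79; ok v80 && (
  let v81 := sub v0 v79; ok v81 && (
  let v82 := mul v80 v55; ok v82 && (
  let v83 := add v0 v82; ok v83 && (
  let v84 := mul v81 v83; ok v84 && (
  let v85 := mul v80 v80; ok v85 && (
  let v86 := scale ⟨219915747328, 0, 0, 0⟩ v85; ok v86 && (
  let v87 := mul v73 v84; ok v87 && (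
  let v88 := scale ⟨549755813888, 0, 0, 0⟩ v87; ok v88 && (
  let v89 := sub v88 v71; ok v89 && (
  let v90 := mul v73 v86; ok v90 && (
  let v91 := scale ⟨549755813888, 0, 0, 0⟩ v90; ok v91 && (
  let v92 := add v91 v70; ok v92 && (
  let v93 := add v89 v92; ok v93 && (
  let v94 := mul v5 v68; ok v94 && (
  let v95 := neg v94; ok v95 && (
  let v96 := exp v95; ok v96 && (
  let v97 := mul v5 v70; ok v97 && (
  let v98 := mul v96 v97; ok v98 && (
  let v99 := mul v5 v89; ok v99 && (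
  let v100 := neg v99; ok v100 && (
  let v101 := exp v100; ok v101 && (
  let v102 := mul v5 v92; ok v102 && (
  let v103 := mul v101 v102; ok v103 && (
  let v104 := mul v22 v17; ok v104 && (
  let v105 := add v19 v104; ok v105 && (
  let v106 := inv v105; ok v106 && (
  let v107 := mul v24 v106; ok v107 && (
  let v108 := mul v23 x1; ok v108 && (
  let v109 := mul v108 v107; ok v109 && (
  let v110 := sub v0 v12; ok v110 && (
  let v111 := mul v26 v110; ok v111 && (
  let v112 := mul v9 v9; ok v112 && (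
  let v113 := sub v0 v26; ok v113 && (
  let v114 := mul v110 v113; ok v114 && (
  let v115 := mul v25 v49; ok v115 && (
  let v116 := inv v44; ok v116 && (
  let v117 := mul v115 v116; ok v117 && (
  let v118 := add v19 v117; ok v118 && (
  let v119 := mul v44 v118; ok v119 && (
  let v120 := mul v119 v119; ok v120 && (
  let v121 := inv v120; ok v121 && (
  let v122 := mul v114 v121; ok v122 && (
  let v123 := add v19 v25; ok v123 && (
  let v124 := mul x0 v123; ok v124 && (
  let v125 := inv v124; ok v125 && (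
  let v126 := mul v0 v125; ok v126 && (
  let v127 := mul v126 v126; ok v127 && (
  let v128 := mul v127 v114; ok v128 && (
  let v129 := mul v128 v6; ok v129 && (
  let v130 := mul v129 v6; ok v130 && (
  let v131 := scale ⟨733097230336, 0, 0, 0⟩ v130; ok v131 && (
  let v132 := sub v0 v131; ok v132 && (
  let v133 := mul v128 v132; ok v133 && (
  let v134 := cst ⟨10853382356992, 0, 0, 0⟩; ok v134 && (
  let v135 := sub v133 v134; ok v135 && (
  isPos 4 v135 && (
  let v136 := cst ⟨42880953483264, 0, 0, 0⟩; ok v136 && (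
  let v137 := sub v136 v128; ok v137 && (
  isPos 4 v137 && (
  let v138 := cst ⟨13, 0, 0, 0⟩; ok v138 && (
  let v139 := cst ⟨2295, 0, 0, 0⟩; ok v139 && (
  let v140 := mul v133 v138; ok v140 && (
  let v141 := sub v139 v140; ok v141 && (
  let v142 := cst ⟨302996, 0, 0, 0⟩; ok v142 && (
  let v143 := mul v133 v141; ok v143 && (
  let v144 := sub v142 v143; ok v144 && (
  let v145 := cst ⟨27269633, 0, 0, 0⟩; ok v145 && (
  let v146 := mul v133 v144; ok v146 && (
  let v147 := sub v145 v146; ok v147 && (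
  let v148 := cst ⟨1527099484, 0, 0, 0⟩; ok v148 && (
  let v149 := mul v133 v147; ok v149 && (
  let v150 := sub v148 v149; ok v150 && (
  let v151 := cst ⟨45812984490, 0, 0, 0⟩; ok v151 && (
  let v152 := mul v133 v150; ok v152 && (
  let v153 := sub v151 v152; ok v153 && (
  let v154 := mul v133 v153; ok v154 && (
  let v155 := sub v8 v154; ok v155 && (
  let v156 := mul v133 v155; ok v156 && (
  let v157 := sub v0 v156; ok v157 && (
  let v158 := add v96 v0; ok v158 && (
  let v159 := mul v96 v96; ok v159 && (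
  let v160 := add v159 v0; ok v160 && (
  let v161 := mul v96 v157; ok v161 && (
  let v162 := scale ⟨2199023255552, 0, 0, 0⟩ v161; ok v162 && (
  let v163 := add v160 v162; ok v163 && (
  let v164 := scale ⟨4398046511104, 0, 0, 0⟩ v98; ok v164 && (
  let v165 := sub v163 v164; ok v165 && (
  let v166 := inv v158; ok v166 && (
  let v167 := mul v165 v166; ok v167 && (
  let v168 := add v167 v158; ok v168 && (
  let v169 := mul v96 v109; ok v169 && (
  let v170 := scale ⟨549755813888, 0, 0, 0⟩ v169; ok v170 && (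
  let v171 := mul v170 v168; ok v171 && (
  let v172 := sub v165 v171; ok v172 && (
  isPos 4 v165 && (
  isPos 4 v172 && (
  let v173 := sub v0 v96; ok v173 && (
  let v174 := mul v173 v158; ok v174 && (
  let v175 := scale ⟨2199023255552, 0, 0, 0⟩ v98; ok v175 && (
  let v176 := add v174 v175; ok v176 && (
  let v177 := inv v172; ok v177 && (
  let v178 := mul v176 v177; ok v178 && (
  let v179 := scale ⟨549755813888, 0, 0, 0⟩ v178; ok v179 && (
  let v180 := add v179 v8; ok v180 && (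
  let v181 := inv v180; ok v181 && (
  let v182 := mul v179 v181; ok v182 && (
  let v183 := mul v109 v182; ok v183 && (
  let v184 := scale ⟨549755813888, 0, 0, 0⟩ v183; ok v184 && (
  let v185 := sub v0 v184; ok v185 && (
  let v186 := sub v0 v183; ok v186 && (
  let v187 := inv v186; ok v187 && (
  let v188 := mul v185 v187; ok v188 && (
  let v189 := add v183 v0; ok v189 && (
  let v190 := mul v96 v189; ok v190 && (
  let v191 := mul v107 v188; ok v191 && (
  let v192 := mul v191 v182; ok v192 && (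
  let v193 := mul v183 v188; ok v193 && (
  isPos 4 v186 && (
  let v194 := mul v23 v24; ok v194 && (
  let v195 := add v19 x1; ok v195 && (
  let v196 := mul v22 v19; ok v196 && (
  let v197 := mul v196 v17; ok v197 && (
  let v198 := scale ⟨2199023255552, 0, 0, 0⟩ v197; ok v198 && (
  let v199 := add v47 v198; ok v199 && (
  let v200 := mul v195 v199; ok v200 && (
  let v201 := inv v200; ok v201 && (
  let v202 := mul v194 v201; ok v202 && (
  let v203 := mul x1 v202; ok v203 && (
  isPos 4 v89 && (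
  let v204 := mul x0 v119; ok v204 && (
  let v205 := inv v204; ok v205 && (
  let v206 := mul v0 v205; ok v206 && (
  let v207 := mul v206 v206; ok v207 && (
  let v208 := mul v207 v114; ok v208 && (
  let v209 := mul v208 v6; ok v209 && (
  let v210 := mul v209 v6; ok v210 && (
  let v211 := scale ⟨733097230336, 0, 0, 0⟩ v210; ok v211 && (
  let v212 := sub v0 v211; ok v212 && (
  let v213 := mul v208 v212; ok v213 && (
  let v214 := sub v213 v134; ok v214 && (
  isPos 4 v214 && (
  let v215 := sub v136 v208; ok v215 && (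
  isPos 4 v215 && (
  let v216 := mul v213 v138; ok v216 && (
  let v217 := sub v139 v216; ok v217 && (
  let v218 := mul v213 v217; ok v218 && (
  let v219 := sub v142 v218; ok v219 && (
  let v220 := mul v213 v219; ok v220 && (
  let v221 := sub v145 v220; ok v221 && (
  let v222 := mul v213 v221; ok v222 && (
  let v223 := sub v148 v222; ok v223 && (
  let v224 := mul v213 v223; ok v224 && (
  let v225 := sub v151 v224; ok v225 && (
  let v226 := mul v213 v225; ok v226 && (
  let v227 := sub v8 v226; ok v227 && (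
  let v228 := mul v213 v227; ok v228 && (
  let v229 := sub v0 v228; ok v229 && (
  let v230 := add v101 v0; ok v230 && (
  let v231 := mul v101 v101; ok v231 && (
  let v232 := add v231 v0; ok v232 && (
  let v233 := mul v101 v229; ok v233 && (
  let v234 := scale ⟨2199023255552, 0, 0, 0⟩ v233; ok v234 && (
  let v235 := add v232 v234; ok v235 && (
  let v236 := scale ⟨4398046511104, 0, 0, 0⟩ v103; ok v236 && (
  let v237 := sub v235 v236; ok v237 && (
  let v238 := inv v230; ok v238 && (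
  let v239 := mul v237 v238; ok v239 && (
  let v240 := add v239 v230; ok v240 && (
  let v241 := mul v101 v203; ok v241 && (
  let v242 := scale ⟨549755813888, 0, 0, 0⟩ v241; ok v242 && (
  let v243 := mul v242 v240; ok v243 && (
  let v244 := sub v237 v243; ok v244 && (
  isPos 4 v237 && (
  isPos 4 v244 && (
  let v245 := sub v0 v101; ok v245 && (
  let v246 := mul v245 v230; ok v246 && (
  let v247 := scale ⟨2199023255552, 0, 0, 0⟩ v103; ok v247 && (
  let v248 := add v246 v247; ok v248 && (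
  let v249 := inv v244; ok v249 && (
  let v250 := mul v248 v249; ok v250 && (
  let v251 := scale ⟨549755813888, 0, 0, 0⟩ v250; ok v251 && (
  let v252 := add v251 v8; ok v252 && (
  let v253 := inv v252; ok v253 && (
  let v254 := mul v251 v253; ok v254 && (
  let v255 := mul v203 v254; ok v255 && (
  let v256 := mul v254 x0; ok v256 && (
  let v257 := add v11 v0; ok v257 && (
  let v258 := inv v257; ok v258 && (
  let v259 := mul v11 v258; ok v259 && (
  let v260 := scale ⟨2199023255552, 0, 0, 0⟩ v259; ok v260 && (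
  let v261 := sub v0 v260; ok v261 && (
  let v262 := sub v0 v11; ok v262 && (
  let v263 := mul x3 v258; ok v263 && (
  let v264 := mul v263 v261; ok v264 && (
  let v265 := add v24 v264; ok v265 && (
  let v266 := scale ⟨224412041216, 0, 0, 0⟩ v15; ok v266 && (
  let v267 := inv v38; ok v267 && (
  let v268 := mul v266 v267; ok v268 && (
  let v269 := scale ⟨4398046511104, 0, 0, 0⟩ x0; ok v269 && (
  let v270 := mul v0 v21; ok v270 && (
  let v271 := add v269 v270; ok v271 && (
  let v272 := inv v271; ok v272 && (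
  let v273 := mul v0 v272; ok v273 && (
  let v274 := mul x0 v272; ok v274 && (
  let v275 := mul v274 v24; ok v275 && (
  let v276 := mul v275 v268; ok v276 && (
  let v277 := mul v273 v24; ok v277 && (
  let v278 := mul v277 v268; ok v278 && (
  let v279 := sub v0 v278; ok v279 && (
  let v280 := inv v279; ok v280 && (
  let v281 := mul v190 v278; ok v281 && (
  let v282 := sub v0 v281; ok v282 && (
  let v283 := inv v282; ok v283 && (
  let v284 := scale ⟨2199023255552, 0, 0, 0⟩ v6; ok v284 && (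
  let v285 := add v284 v0; ok v285 && (
  let v286 := add v6 v0; ok v286 && (
  let v287 := mul x0 v21; ok v287 && (
  let v288 := scale ⟨1099511627776, 0, 0, 0⟩ v287; ok v288 && (
  let v289 := scale ⟨1099511627776, 0, 0, 0⟩ x1; ok v289 && (
  let v290 := add v288 v289; ok v290 && (
  let v291 := mul x2 v290; ok v291 && (
  let v292 := scale ⟨549755813888, 0, 0, 0⟩ v291; ok v292 && (
  let v293 := mul v11 v21; ok v293 && (
  let v294 := sub v0 v111; ok v294 && (
  let v295 := mul v11 v22; ok v295 && (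
  let v296 := scale ⟨2199023255552, 0, 0, 0⟩ v295; ok v296 && (
  let v297 := sub v294 v296; ok v297 && (
  let v298 := mul v293 v293; ok v298 && (
  let v299 := add v297 v298; ok v299 && (
  let v300 := add v299 v0; ok v300 && (
  let v301 := scale ⟨549755813888, 0, 0, 0⟩ v300; ok v301 && (
  let v302 := scale ⟨549755813888, 0, 0, 0⟩ v25; ok v302 && (
  let v303 := sub v15 v302; ok v303 && (
  let v304 := mul v112 v294; ok v304 && (
  let v305 := mul v304 v14; ok v305 && (
  let v306 := scale ⟨137438953472, 0, 0, 0⟩ v305; ok v306 && (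
  let v307 := add v303 v306; ok v307 && (
  let v308 := mul v301 v307; ok v308 && (
  let v309 := cst ⟨1, 0, 0, 0⟩; ok v309 && (
  let v310 := cst ⟨12, 0, 0, 0⟩; ok v310 && (
  let v311 := mul v128 v309; ok v311 && (
  let v312 := sub v310 v311; ok v312 && (
  let v313 := cst ⟨2296, 0, 0, 0⟩; ok v313 && (
  let v314 := mul v128 v312; ok v314 && (
  let v315 := sub v313 v314; ok v315 && (
  let v316 := cst ⟨302995, 0, 0, 0⟩; ok v316 && (
  let v317 := mul v128 v315; ok v317 && (
  let v318 := sub v316 v317; ok v318 && (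
  let v319 := cst ⟨27269634, 0, 0, 0⟩; ok v319 && (
  let v320 := mul v128 v318; ok v320 && (
  let v321 := sub v319 v320; ok v321 && (
  let v322 := cst ⟨1527099483, 0, 0, 0⟩; ok v322 && (
  let v323 := mul v128 v321; ok v323 && (
  let v324 := sub v322 v323; ok v324 && (
  let v325 := cst ⟨45812984491, 0, 0, 0⟩; ok v325 && (
  let v326 := mul v128 v324; ok v326 && (
  let v327 := sub v325 v326; ok v327 && (
  let v328 := mul v128 v327; ok v328 && (
  let v329 := sub v8 v328; ok v329 && (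
  let v330 := mul v128 v329; ok v330 && (
  let v331 := sub v0 v330; ok v331 && (
  let v332 := mul v129 v129; ok v332 && (
  let v333 := scale ⟨369367187456, 0, 0, 0⟩ v332; ok v333 && (
  let v334 := add v331 v333; ok v334 && (
  let v335 := mul v96 v334; ok v335 && (
  let v336 := scale ⟨2199023255552, 0, 0, 0⟩ v335; ok v336 && (
  let v337 := add v160 v336; ok v337 && (
  let v338 := add v337 v175; ok v338 && (
  let v339 := cst ⟨8589934592, 0, 0, 0⟩; ok v339 && (
  let v340 := add v338 v339; ok v340 && (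
  let v341 := log v340; ok v341 && (
  let v342 := scale ⟨549755813888, 0, 0, 0⟩ v341; ok v342 && (
  let v343 := exp v342; ok v343 && (
  let v344 := mul v96 v183; ok v344 && (
  let v345 := add v343 v344; ok v345 && (
  let v346 := mul v345 v280; ok v346 && (
  let v347 := mul v190 v283; ok v347 && (
  let v348 := add v346 v347; ok v348 && (
  let v349 := mul v278 v348; ok v349 && (
  let v350 := add v193 v349; ok v350 && (
  let v351 := mul v350 v6; ok v351 && (
  let v352 := mul v345 v278; ok v352 && (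
  let v353 := mul v352 v280; ok v353 && (
  let v354 := add v193 v353; ok v354 && (
  let v355 := mul v354 v6; ok v355 && (
  let v356 := scale ⟨223338299392, 0, 0, 0⟩ v355; ok v356 && (
  let v357 := add v8 v356; ok v357 && (
  let v358 := mul v355 v357; ok v358 && (
  let v359 := add v0 v358; ok v359 && (
  let v360 := scale ⟨893353197568, 0, 0, 0⟩ v351; ok v360 && (
  let v361 := add v0 v360; ok v361 && (
  let v362 := mul v351 v361; ok v362 && (
  let v363 := add v0 v362; ok v363 && (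
  let v364 := mul v260 v263; ok v364 && (
  let v365 := mul v364 v285; ok v365 && (
  let v366 := mul v365 v363; ok v366 && (
  let v367 := mul v308 v359; ok v367 && (
  let v368 := add v52 v8; ok v368 && (
  let v369 := mul v366 v368; ok v369 && (
  let v370 := add v367 v369; ok v370 && (
  let v371 := add v52 v0; ok v371 && (
  let v372 := mul v366 v371; ok v372 && (
  let v373 := mul v286 v371; ok v373 && (
  let v374 := mul v373 v263; ok v374 && (
  let v375 := mul v374 v262; ok v375 && (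
  let v376 := mul v370 v192; ok v376 && (
  let v377 := mul v375 v292; ok v377 && (
  let v378 := add v376 v377; ok v378 && (
  let v379 := mul v5 v265; ok v379 && (
  let v380 := inv v52; ok v380 && (
  let v381 := mul v379 v380; ok v381 && (
  let v382 := scale ⟨549755813888, 0, 0, 0⟩ v381; ok v382 && (
  let v383 := mul v23 v382; ok v383 && (
  let v384 := add v383 v378; ok v384 && (
  let v385 := mul x1 v384; ok v385 && (
  let v386 := mul x0 v385; ok v386 && (
  let v387 := mul v370 v345; ok v387 && (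
  let v388 := mul v387 v280; ok v388 && (
  let v389 := mul v372 v190; ok v389 && (
  let v390 := mul v389 v283; ok v390 && (
  let v391 := add v388 v390; ok v391 && (
  let v392 := mul v23 v386; ok v392 && (
  let v393 := mul v276 v391; ok v393 && (
  let v394 := add v392 v393; ok v394 && (
  let v395 := mul v112 v394; ok v395 && (
  let v396 := mul v395 v380; ok v396 && (
  let v397 := sub v0 v396; ok v397 && (
  let v398 := inv v397; ok v398 && (
  let v399 := mul v394 v398; ok v399 && (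
  let v400 := mul x1 v399; ok v400 && (
  let v401 := mul v112 v399; ok v401 && (
  let v402 := mul v401 v380; ok v402 && (
  let v403 := sub v0 v402; ok v403 && (
  let v404 := mul v49 v403; ok v404 && (
  let v405 := sub v404 v400; ok v405 && (
  let v406 := inv v405; ok v406 && (
  let v407 := mul v400 v406; ok v407 && (
  let v408 := sub v52 v401; ok v408 && (
  let v409 := inv v408; ok v409 && (
  let v410 := mul v407 v254; ok v410 && (
  let v411 := scale ⟨549755813888, 0, 0, 0⟩ v410; ok v411 && (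
  let v412 := sub v0 v411; ok v412 && (
  let v413 := sub v0 v410; ok v413 && (
  let v414 := inv v413; ok v414 && (
  let v415 := mul v412 v414; ok v415 && (
  let v416 := mul v3 v409; ok v416 && (
  let v417 := mul v256 v406; ok v417 && (
  let v418 := mul v417 v415; ok v418 && (
  let v419 := add v416 v418; ok v419 && (
  let v420 := mul v7 v399; ok v420 && (
  let v421 := mul v409 v420; ok v421 && (
  let v422 := mul v254 v406; ok v422 && (
  let v423 := mul v422 v415; ok v423 && (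
  let v424 := mul v423 v400; ok v424 && (
  let v425 := add v421 v424; ok v425 && (
  let v426 := scale ⟨223338299392, 0, 0, 0⟩ v425; ok v426 && (
  let v427 := add v8 v426; ok v427 && (
  let v428 := mul v425 v427; ok v428 && (
  let v429 := add v0 v428; ok v429 && (
  let v430 := mul v419 v429; ok v430 && (
  let v431 := mul v430 v398; ok v431 && (
  let v432 := mul v431 v391; ok v432 && (
  let v433 := mul v277 v23; ok v433 && (
  let v434 := cst ⟨7696581394432, 0, 0, 0⟩; ok v434 && (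
  let v435 := cst ⟨10995116277760, 0, 0, 0⟩; ok v435 && (
  let v436 := inv v435; ok v436 && (
  let v437 := mul v434 v436; ok v437 && (
  let v438 := mul v257 v24; ok v438 && (
  let v439 := mul v438 v437; ok v439 && (
  let v440 := mul v195 v106; ok v440 && (
  let v441 := mul v22 v440; ok v441 && (
  let v442 := scale ⟨549755813888, 0, 0, 0⟩ v255; ok v442 && (
  let v443 := sub v0 v442; ok v443 && (
  let v444 := sub v0 v255; ok v444 && (
  let v445 := inv v444; ok v445 && (
  let v446 := mul v443 v445; ok v446 && (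
  let v447 := mul v446 v203; ok v447 && (
  let v448 := mul v112 v122; ok v448 && (
  let v449 := scale ⟨733097230336, 0, 0, 0⟩ v448; ok v449 && (
  let v450 := sub v0 v449; ok v450 && (
  let v451 := mul v122 v450; ok v451 && (
  let v452 := mul v89 v89; ok v452 && (
  let v453 := mul v12 v452; ok v453 && (
  let v454 := add v451 v453; ok v454 && (
  let v455 := mul v447 v256; ok v455 && (
  let v456 := add v454 v0; ok v456 && (
  let v457 := mul v455 v456; ok v457 && (
  let v458 := sub v454 v457; ok v458 && (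
  let v459 := scale ⟨366548615168, 0, 0, 0⟩ v45; ok v459 && (
  let v460 := sub v0 v459; ok v460 && (
  let v461 := mul v26 v460; ok v461 && (
  let v462 := add v458 v461; ok v462 && (
  let v463 := mul v440 v462; ok v463 && (
  let v464 := mul v441 v441; ok v464 && (
  let v465 := add v0 v464; ok v465 && (
  let v466 := inv v465; ok v466 && (
  let v467 := mul v463 v466; ok v467 && (
  let v468 := sub v0 v407; ok v468 && (
  let v469 := mul v468 v467; ok v469 && (
  let v470 := sub v0 v455; ok v470 && (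
  isPos 4 v470 && (
  isPos 4 v467 && (
  isPos 4 v468 && (
  let v471 := mul v431 v271; ok v471 && (
  let v472 := mul v471 v384; ok v472 && (
  let v473 := inv v24; ok v473 && (
  let v474 := mul v472 v473; ok v474 && (
  let v475 := mul v4 v469; ok v475 && (
  let v476 := mul x1 v475; ok v476 && (
  let v477 := scale ⟨549755813888, 0, 0, 0⟩ v476; ok v477 && (
  let v478 := sub v0 v477; ok v478 && (
  let v479 := mul v475 v478; ok v479 && (
  let v480 := neg v479; ok v480 && (
  let v481 := mul v3 x3; ok v481 && (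
  let v482 := mul v481 v257; ok v482 && (
  let v483 := mul v482 v15; ok v483 && (
  let v484 := mul v0 v483; ok v484 && (
  let v485 := add v480 v484; ok v485 && (
  let v486 := mul v480 v484; ok v486 && (
  let v487 := mul x1 v486; ok v487 && (
  let v488 := add v485 v487; ok v488 && (
  let v489 := mul v12 v42; ok v489 && (
  let v490 := scale ⟨412316860416, 0, 0, 0⟩ v43; ok v490 && (
  let v491 := sub v8 v490; ok v491 && (
  let v492 := mul v489 v491; ok v492 && (
  let v493 := mul v0 v492; ok v493 && (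
  let v494 := neg v493; ok v494 && (
  let v495 := add v488 v494; ok v495 && (
  let v496 := mul v488 v494; ok v496 && (
  let v497 := mul x1 v496; ok v497 && (
  let v498 := add v495 v497; ok v498 && (
  let v499 := mul v3 v399; ok v499 && (
  let v500 := mul v499 v473; ok v500 && (
  let v501 := mul v0 v500; ok v501 && (
  let v502 := add v498 v501; ok v502 && (
  let v503 := mul v498 v501; ok v503 && (
  let v504 := mul x1 v503; ok v504 && (
  let v505 := add v502 v504; ok v505 && (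
  let v506 := mul v0 v439; ok v506 && (
  let v507 := sub v505 v506; ok v507 && (
  let v508 := mul x1 v439; ok v508 && (
  let v509 := add v0 v508; ok v509 && (
  let v510 := inv v509; ok v510 && (
  let v511 := mul v507 v510; ok v511 && (
  let v512 := mul v3 v9; ok v512 && (
  let v513 := mul v512 v399; ok v513 && (
  let v514 := mul v513 v409; ok v514 && (
  let v515 := mul v0 v514; ok v515 && (
  let v516 := add v511 v515; ok v516 && (
  let v517 := mul v511 v515; ok v517 && (
  let v518 := mul x1 v517; ok v518 && (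
  let v519 := add v516 v518; ok v519 && (
  let v520 := mul x1 v519; ok v520 && (
  let v521 := add v0 v520; ok v521 && (
  let v522 := mul v432 v278; ok v522 && (
  let v523 := mul x1 v433; ok v523 && (
  let v524 := mul v474 v523; ok v524 && (
  let v525 := add v522 v524; ok v525 && (
  let v526 := mul v0 v525; ok v526 && (
  let v527 := add v432 v474; ok v527 && (
  let v528 := mul v0 v527; ok v528 && (
  let v529 := mul v526 v521; ok v529 && (
  let v530 := add v519 v529; ok v530 && (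
  let v531 := add v530 v528; ok v531 && (
  let v532 := neg v531; ok v532 && (
  let v533 := scale ⟨1073741824, 0, 0, 0⟩ v0; ok v533 && (
  let v534 := sub v532 v533; ok v534 && (
  let v535 := sub v20 v0; ok v535 && (
  let v536 := add v535 v56; ok v536 && (
  let v537 := scale ⟨2199023255552, 0, 0, 0⟩ v437; ok v537 && (
  let v538 := sub v536 v537; ok v538 && (
  let v539 := mul v257 v538; ok v539 && (
  let v540 := mul v535 v537; ok v540 && (
  let v541 := add v540 v0; ok v541 && (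
  let v542 := inv v541; ok v542 && (
  let v543 := mul v539 v542; ok v543 && (
  let v544 := mul v274 v391; ok v544 && (
  let v545 := scale ⟨549755813888, 0, 0, 0⟩ v268; ok v545 && (
  let v546 := add v17 v545; ok v546 && (
  let v547 := mul v544 v546; ok v547 && (
  let v548 := scale ⟨2199023255552, 0, 0, 0⟩ v547; ok v548 && (
  let v549 := add v386 v548; ok v549 && (
  let v550 := scale ⟨2199023255552, 0, 0, 0⟩ v549; ok v550 && (
  let v551 := mul v550 v398; ok v551 && (
  let v552 := mul v9 v399; ok v552 && (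
  let v553 := sub v24 v552; ok v553 && (
  let v554 := inv v553; ok v554 && (
  let v555 := mul v551 v554; ok v555 && (
  let v556 := sub v543 v555; ok v556 && (
  let v557 := mul v270 v270; ok v557 && (
  let v558 := cst ⟨14293651161088, 0, 0, 0⟩; ok v558 && (
  let v559 := mul v558 v436; ok v559 && (
  let v560 := mul v557 v559; ok v560 && (
  let v561 := mul x0 x0; ok v561 && (
  let v562 := scale ⟨27487790694400, 0, 0, 0⟩ v561; ok v562 && (
  let v563 := add v560 v562; ok v563 && (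
  let v564 := mul v439 v510; ok v564 && (
  let v565 := sub v40 x1; ok v565 && (
  let v566 := sub v565 v39; ok v566 && (
  let v567 := mul v0 v3; ok v567 && (
  let v568 := mul v567 x0; ok v568 && (
  let v569 := mul v24 v391; ok v569 && (
  let v570 := mul v569 v272; ok v570 && (
  let v571 := add v378 v570; ok v571 && (
  let v572 := add v552 v56; ok v572 && (
  let v573 := mul v0 v572; ok v573 && (
  let v574 := mul v563 v564; ok v574 && (
  let v575 := mul v398 v573; ok v575 && (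
  let v576 := mul v568 v571; ok v576 && (
  let v577 := mul v575 v576; ok v577 && (
  let v578 := sub v574 v577; ok v578 && (
  let v579 := scale ⟨549755813888, 0, 0, 0⟩ v552; ok v579 && (
  let v580 := add v0 v579; ok v580 && (
  let v581 := mul v398 v580; ok v581 && (
  let v582 := mul x1 v23; ok v582 && (
  let v583 := mul v582 v265; ok v583 && (
  let v584 := mul v24 v52; ok v584 && (
  let v585 := inv v584; ok v585 && (
  let v586 := mul v583 v585; ok v586 && (
  let v587 := mul v581 v586; ok v587 && (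
  let v588 := sub v566 v587; ok v588 && (
  let v589 := mul v268 v578; ok v589 && (
  let v590 := sub v0 v268; ok v590 && (
  let v591 := mul v12 v588; ok v591 && (
  let v592 := mul v590 v591; ok v592 && (
  let v593 := mul v563 v592; ok v593 && (
  let v594 := add v589 v593; ok v594 && (
  isPos 4 v279 && (
  isPos 4 v282 && (
  let v595 := scale ⟨2199023255552, 0, 0, 0⟩ v395; ok v595 && (
  let v596 := sub v52 v595; ok v596 && (
  isPos 4 v596 && (
  isPos 4 v405 && (
  let v597 := sub v8 v255; ok v597 && (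
  isPos 4 v597 && (
  let v598 := scale ⟨687194767360, 0, 0, 0⟩ v0; ok v598 && (
  let v599 := sub v598 v355; ok v599 && (
  isPos 4 v599 && (
  let v600 := scale ⟨377957122048, 0, 0, 0⟩ v0; ok v600 && (
  let v601 := sub v600 v351; ok v601 && (
  isPos 4 v601 && (
  isPos 4 v553 && (
  isPos 4 v413 && (
  let v602 := sub v598 v425; ok v602 && (
  isPos 4 v602 && (
  isPos 4 v556 && (
  isPos 4 v534 && (
  isPos 4 v594 && (
  isPos 4 v588 && (
  true))))))))))))))))))))))))))))))))))))))))))))))))))))))))))))))))))))))))))))))))))))))))))))))))))))))))))))))))))))))))))))))))))))))))))))))))))))))))))))))))))))))))))))))))))))))))))))))))))))))))))))))))))))))))))))))))))))))))))))))))))))))))))))))))))))))))))))))))))))))))))))))))))))))))))))))))))))))))))))))))))))))))))))))))))))))))))))))))))))))))))))))))))))))))))))))))))))))))))))))))))))))))))))))))))))))))))))))))))))))))))))))))))))))))))))))))))))))))))))))))))))))))))))))))))))))))))))))))))))))))))))))))))))))))))))))))))))))))))))))))))))))))))))))))))))))))))))))))))))))))))))))))))))))))))))))))))))))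
  | _ => false

set_option maxRecDepth 1000000 in
theorem chk10_eq (O : Ops) (m : List O.α)
    (h : chk10 O.cst O.add O.sub O.mul O.scale O.neg O.inv O.exp O.log O.ok O.isPos O.isLt m = true) :
    runG O 4 prog10 m = true := by
  match m, h with
  | [x0, x1, x2, x3], h => exact h

def chkB10 : List opsE.α → Bool :=
  chk10 opsE.cst opsE.add opsE.sub opsE.mul opsE.scale opsE.neg opsE.inv opsE.exp opsE.log opsE.ok opsE.isPos opsE.isLt

theorem chkB10_eq (m : List opsE.α) (h : chkB10 m = true) : runG opsE 4 prog10 m = true :=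
  chk10_eq opsE m h

def prog11 : List Op := [
  .const ⟨1099511627776, 0, 0, 0⟩,
  .mul 2 3,
  .mul 0 2,
  .mul 5 0,
  .mul 6 6,
  .mul 6 0,
  .mul 3 3,
  .mul 8 1,
  .const ⟨549755813888, 0, 0, 0⟩,
  .mul 10 5,
  .mul 0 13,
  .scale ⟨549755813888, 0, 0, 0⟩ 0,
  .mul 8 8,
  .mul 1 1,
  .sub 13 0,
  .inv 0,
  .mul 4 0,
  .scale ⟨2199023255552, 0, 0, 0⟩ 0,
  .scale ⟨2199023255552, 0, 0, 0⟩ 2,
  .sub 0 18,
  .add 0 2,
  .mul 24 5,
  .mul 18 0,
  .sub 22 0,
  .add 23 1,
  .mul 26 12,
  .mul 4 4,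
  .scale ⟨10774999203840, 0, 0, 0⟩ 15,
  .scale ⟨45768245248, 0, 0, 0⟩ 0,
  .const ⟨183207198720, 0, 0, 0⟩,
  .add 1 0,
  .mul 3 0,
  .add 23 0,
  .mul 5 0,
  .add 33 0,
  .mul 7 0,
  .scale ⟨549755813888, 0, 0, 0⟩ 0,
  .add 36 0,
  .mul 3 0,
  .scale ⟨224412041216, 0, 0, 0⟩ 23,
  .inv 1,
  .mul 1 0,
  .sub 43 24,
  .sub 0 1,
  .pos 0]

def chk11 {α : Type} (cst : Z → α) (add sub mul : α → α → α) (scale : Z → α → α)
    (neg inv exp log : α → α) (ok : α → Bool) (isPos : Nat → α → Bool) (isLt : α → Nat → Bool) :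
    List α → Bool
  | [x0, x1, x2, x3] =>
  let v0 := cst ⟨1099511627776, 0, 0, 0⟩; ok v0 && (
  let v1 := mul x1 x2; ok v1 && (
  let v2 := mul v1 x0; ok v2 && (
  let v3 := mul x2 v2; ok v3 && (
  let v4 := mul x2 x2; ok v4 && (
  let v5 := mul x1 v4; ok v5 && (
  let v6 := mul v2 v2; ok v6 && (
  let v7 := mul x1 v5; ok v7 && (
  let v8 := cst ⟨549755813888, 0, 0, 0⟩; ok v8 && (
  let v9 := mul x1 v3; ok v9 && (
  let v10 := mul v9 x3; ok v10 && (
  let v11 := scale ⟨549755813888, 0, 0, 0⟩ v10; ok v11 && (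
  let v12 := mul v3 v3; ok v12 && (
  let v13 := mul v11 v11; ok v13 && (
  let v14 := sub v0 v13; ok v14 && (
  let v15 := inv v14; ok v15 && (
  let v16 := mul v11 v15; ok v16 && (
  let v17 := scale ⟨2199023255552, 0, 0, 0⟩ v16; ok v17 && (
  let v18 := scale ⟨2199023255552, 0, 0, 0⟩ v15; ok v18 && (
  let v19 := sub v18 v0; ok v19 && (
  let v20 := add v19 v17; ok v20 && (
  let v21 := mul x3 v15; ok v21 && (
  let v22 := mul v3 v21; ok v22 && (
  let v23 := sub v0 v22; ok v23 && (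
  let v24 := add v0 v22; ok v24 && (
  let v25 := mul x1 v12; ok v25 && (
  let v26 := mul v21 v21; ok v26 && (
  let v27 := scale ⟨10774999203840, 0, 0, 0⟩ v11; ok v27 && (
  let v28 := scale ⟨45768245248, 0, 0, 0⟩ v27; ok v28 && (
  let v29 := cst ⟨183207198720, 0, 0, 0⟩; ok v29 && (
  let v30 := add v28 v29; ok v30 && (
  let v31 := mul v27 v30; ok v31 && (
  let v32 := add v8 v31; ok v32 && (
  let v33 := mul v27 v32; ok v33 && (
  let v34 := add v0 v33; ok v34 && (
  let v35 := mul v27 v34; ok v35 && (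
  let v36 := scale ⟨549755813888, 0, 0, 0⟩ v35; ok v36 && (
  let v37 := add v0 v36; ok v37 && (
  let v38 := mul v34 v37; ok v38 && (
  let v39 := scale ⟨224412041216, 0, 0, 0⟩ v15; ok v39 && (
  let v40 := inv v38; ok v40 && (
  let v41 := mul v39 v40; ok v41 && (
  let v42 := sub x1 v17; ok v42 && (
  let v43 := sub v42 v41; ok v43 && (
  isPos 4 v43 && (
  true)))))))))))))))))))))))))))))))))))))))))))))
  | _ => false

set_option maxRecDepth 1000000 in
theorem chk11_eq (O : Ops) (m : List O.α)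
    (h : chk11 O.cst O.add O.sub O.mul O.scale O.neg O.inv O.exp O.log O.ok O.isPos O.isLt m = true) :
    runG O 4 prog11 m = true := by
  match m, h with
  | [x0, x1, x2, x3], h => exact h

def chkB11 : List opsE.α → Bool :=
  chk11 opsE.cst opsE.add opsE.sub opsE.mul opsE.scale opsE.neg opsE.inv opsE.exp opsE.log opsE.ok opsE.isPos opsE.isLt

theorem chkB11_eq (m : List opsE.α) (h : chkB11 m = true) : runG opsE 4 prog11 m = true :=
  chk11_eq opsE m h

def prog12 : List Op := [
  .const ⟨1099511627776, 0, 0, 0⟩,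
  .mul 2 3,
  .mul 0 2,
  .mul 5 0,
  .mul 6 6,
  .mul 6 0,
  .mul 3 3,
  .mul 8 1,
  .const ⟨549755813888, 0, 0, 0⟩,
  .mul 10 5,
  .mul 0 13,
  .scale ⟨549755813888, 0, 0, 0⟩ 0,
  .mul 8 8,
  .mul 1 1,
  .sub 13 0,
  .inv 0,
  .mul 4 0,
  .scale ⟨2199023255552, 0, 0, 0⟩ 0,
  .scale ⟨2199023255552, 0, 0, 0⟩ 2,
  .sub 0 18,
  .add 0 2,
  .mul 24 5,
  .mul 18 0,
  .sub 22 0,
  .add 23 1,
  .mul 26 12,
  .mul 4 4,
  .scale ⟨2199023255552, 0, 0, 0⟩ 7,
  .sub 0 29,
  .mul 11 6,
  .sub 1 0,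
  .mul 30 9,
  .mul 0 0,
  .const ⟨14293651161088, 0, 0, 0⟩,
  .const ⟨10995116277760, 0, 0, 0⟩,
  .inv 0,
  .mul 2 0,
  .mul 4 0,
  .mul 38 38,
  .scale ⟨27487790694400, 0, 0, 0⟩ 0,
  .add 2 0,
  .mul 40 40,
  .mul 18 17,
  .mul 1 0,
  .mul 45 20,
  .sub 44 0,
  .mul 20 15,
  .sub 46 0,
  .mul 2 0,
  .mul 8 0,
  .sub 6 0,
  .pos 0]

def chk12 {α : Type} (cst : Z → α) (add sub mul : α → α → α) (scale : Z → α → α)
    (neg inv exp log : α → α) (ok : α → Bool) (isPos : Nat → α → Bool) (isLt : α → Nat → Bool) :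
    List α → Bool
  | [x0, x1, x2, x3] =>
  let v0 := cst ⟨1099511627776, 0, 0, 0⟩; ok v0 && (
  let v1 := mul x1 x2; ok v1 && (
  let v2 := mul v1 x0; ok v2 && (
  let v3 := mul x2 v2; ok v3 && (
  let v4 := mul x2 x2; ok v4 && (
  let v5 := mul x1 v4; ok v5 && (
  let v6 := mul v2 v2; ok v6 && (
  let v7 := mul x1 v5; ok v7 && (
  let v8 := cst ⟨549755813888, 0, 0, 0⟩; ok v8 && (
  let v9 := mul x1 v3; ok v9 && (
  let v10 := mul v9 x3; ok v10 && (
  let v11 := scale ⟨549755813888, 0, 0, 0⟩ v10; ok v11 && (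
  let v12 := mul v3 v3; ok v12 && (
  let v13 := mul v11 v11; ok v13 && (
  let v14 := sub v0 v13; ok v14 && (
  let v15 := inv v14; ok v15 && (
  let v16 := mul v11 v15; ok v16 && (
  let v17 := scale ⟨2199023255552, 0, 0, 0⟩ v16; ok v17 && (
  let v18 := scale ⟨2199023255552, 0, 0, 0⟩ v15; ok v18 && (
  let v19 := sub v18 v0; ok v19 && (
  let v20 := add v19 v17; ok v20 && (
  let v21 := mul x3 v15; ok v21 && (
  let v22 := mul v3 v21; ok v22 && (
  let v23 := sub v0 v22; ok v23 && (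
  let v24 := add v0 v22; ok v24 && (
  let v25 := mul x1 v12; ok v25 && (
  let v26 := mul v21 v21; ok v26 && (
  let v27 := scale ⟨2199023255552, 0, 0, 0⟩ v19; ok v27 && (
  let v28 := sub v27 x1; ok v28 && (
  let v29 := mul v17 v22; ok v29 && (
  let v30 := sub v28 v29; ok v30 && (
  let v31 := mul v0 v21; ok v31 && (
  let v32 := mul v31 v31; ok v32 && (
  let v33 := cst ⟨14293651161088, 0, 0, 0⟩; ok v33 && (
  let v34 := cst ⟨10995116277760, 0, 0, 0⟩; ok v34 && (
  let v35 := inv v34; ok v35 && (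
  let v36 := mul v33 v35; ok v36 && (
  let v37 := mul v32 v36; ok v37 && (
  let v38 := mul x0 x0; ok v38 && (
  let v39 := scale ⟨27487790694400, 0, 0, 0⟩ v38; ok v39 && (
  let v40 := add v37 v39; ok v40 && (
  let v41 := mul v0 v0; ok v41 && (
  let v42 := mul v23 v24; ok v42 && (
  let v43 := mul v41 v42; ok v43 && (
  let v44 := mul x1 v23; ok v44 && (
  let v45 := sub v0 v44; ok v45 && (
  let v46 := mul v25 v30; ok v46 && (
  let v47 := sub v0 v46; ok v47 && (
  let v48 := mul v45 v47; ok v48 && (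
  let v49 := mul v40 v48; ok v49 && (
  let v50 := sub v43 v49; ok v50 && (
  isPos 4 v50 && (
  true))))))))))))))))))))))))))))))))))))))))))))))))))))
  | _ => false

set_option maxRecDepth 1000000 in
theorem chk12_eq (O : Ops) (m : List O.α)
    (h : chk12 O.cst O.add O.sub O.mul O.scale O.neg O.inv O.exp O.log O.ok O.isPos O.isLt m = true) :
    runG O 4 prog12 m = true := by
  match m, h with
  | [x0, x1, x2, x3], h => exact h

def chkB12 : List opsE.α → Bool :=
  chk12 opsE.cst opsE.add opsE.sub opsE.mul opsE.scale opsE.neg opsE.inv opsE.exp opsE.log opsE.ok opsE.isPos opsE.isLt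

theorem chkB12_eq (m : List opsE.α) (h : chkB12 m = true) : runG opsE 4 prog12 m = true :=
  chk12_eq opsE m h

def prog13 : List Op := [
  .const ⟨1099511627776, 0, 0, 0⟩,
  .mul 2 3,
  .mul 0 2,
  .mul 5 0,
  .mul 6 6,
  .mul 6 0,
  .mul 3 3,
  .mul 8 1,
  .const ⟨10995367936, 0, 0, 0⟩,
  .sub 2 0,
  .pos 0]

def chk13 {α : Type} (cst : Z → α) (add sub mul : α → α → α) (scale : Z → α → α)
    (neg inv exp log : α → α) (ok : α → Bool) (isPos : Nat → α → Bool) (isLt : α → Nat → Bool) :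
    List α → Bool
  | [x0, x1, x2, x3] =>
  let v0 := cst ⟨1099511627776, 0, 0, 0⟩; ok v0 && (
  let v1 := mul x1 x2; ok v1 && (
  let v2 := mul v1 x0; ok v2 && (
  let v3 := mul x2 v2; ok v3 && (
  let v4 := mul x2 x2; ok v4 && (
  let v5 := mul x1 v4; ok v5 && (
  let v6 := mul v2 v2; ok v6 && (
  let v7 := mul x1 v5; ok v7 && (
  let v8 := cst ⟨10995367936, 0, 0, 0⟩; ok v8 && (
  let v9 := sub v6 v8; ok v9 && (
  isPos 4 v9 && (
  true)))))))))))
  | _ => false

set_option maxRecDepth 1000000 in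
theorem chk13_eq (O : Ops) (m : List O.α)
    (h : chk13 O.cst O.add O.sub O.mul O.scale O.neg O.inv O.exp O.log O.ok O.isPos O.isLt m = true) :
    runG O 4 prog13 m = true := by
  match m, h with
  | [x0, x1, x2, x3], h => exact h

def chkB13 : List opsE.α → Bool :=
  chk13 opsE.cst opsE.add opsE.sub opsE.mul opsE.scale opsE.neg opsE.inv opsE.exp opsE.log opsE.ok opsE.isPos opsE.isLt

theorem chkB13_eq (m : List opsE.α) (h : chkB13 m = true) : runG opsE 4 prog13 m = true :=
  chk13_eq opsE m h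

def progs : List (List Op) := [prog0, prog1, prog2, prog3, prog4, prog5, prog6, prog7, prog8, prog9, prog10, prog11, prog12, prog13]

def chks : List (List opsE.α → Bool) := [chkB0, chkB1, chkB2, chkB3, chkB4, chkB5, chkB6, chkB7, chkB8, chkB9, chkB10, chkB11, chkB12, chkB13]

theorem chks_eq : List.Forall₂ (fun (ops : List Op) (chk : List opsE.α → Bool) =>
    ∀ m, chk m = true → runG opsE 4 ops m = true) progs chks :=
  List.Forall₂.cons chkB0_eq (List.Forall₂.cons chkB1_eq (List.Forall₂.cons chkB2_eq (List.Forall₂.cons chkB3_eq (List.Forall₂.cons chkB4_eq (List.Forall₂.cons chkB5_eq (List.Forall₂.cons chkB6_eq (List.Forall₂.cons chkB7_eq (List.Forall₂.cons chkB8_eq (List.Forall₂.cons chkB9_eq (List.Forall₂.cons chkB10_eq (List.Forall₂.cons chkB11_eq (List.Forall₂.cons chkB12_eq (List.Forall₂.cons chkB13_eq List.Forall₂.nil)))))))))))))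

end Pool.Agent.helper71.FJ.Crt.QMa
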