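import Pool.Agent.helper71.FJ.Phx
import Pool.Agent.helper71.FJ.Crt.QMaP

/-!
Generated: meaning of the programs.
-/

set_option maxRecDepth 4000

namespace Pool.Agent.helper71.FJ

open Complex Pool.Agent.helper31.EQ.Y Pool.Agent.helper31.EQ.R
open Pool.Agent.helper12.EQL Pool.Agent.helper12.RP Pool.Agent.helper12.FF Pool.Agent.helper63.FF
open Pool.Agent.helper31.IA (Z Op InBox)
open Pool.Agent.helper71.FF (B1 B2 B3 Geo PhiB RAs zv exB1 exB2 exB3 AL A5 shf_re')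
open Pool.Agent.helper71.FG (PtE RE AQ gam_le_one)

theorem zQMa_1_0 : (1 / 1099511627776 : ℝ) = zv 1 0 := by unfold zv; norm_num

theorem zQMa_12_0 : (3 / 274877906944 : ℝ) = zv 12 0 := by unfold zv; norm_num

theorem zQMa_13_0 : (13 / 1099511627776 : ℝ) = zv 13 0 := by unfold zv; norm_num

theorem zQMa_2295_0 : (2295 / 1099511627776 : ℝ) = zv 2295 0 := by unfold zv; norm_num

theorem zQMa_2296_0 : (287 / 137438953472 : ℝ) = zv 2296 0 := by unfold zv; norm_num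

theorem zQMa_302995_0 : (302995 / 1099511627776 : ℝ) = zv 302995 0 := by unfold zv; norm_num

theorem zQMa_302996_0 : (75749 / 274877906944 : ℝ) = zv 302996 0 := by unfold zv; norm_num

theorem zQMa_27269633_0 : (27269633 / 1099511627776 : ℝ) = zv 27269633 0 := by unfold zv; norm_num

theorem zQMa_27269634_0 : (13634817 / 549755813888 : ℝ) = zv 27269634 0 := by unfold zv; norm_num

theorem zQMa_1073741824_0 : (1 / 1024 : ℝ) = zv 1073741824 0 := by unfold zv; norm_num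

theorem zQMa_1527099483_0 : (1527099483 / 1099511627776 : ℝ) = zv 1527099483 0 := by unfold zv; norm_num

theorem zQMa_1527099484_0 : (381774871 / 274877906944 : ℝ) = zv 1527099484 0 := by unfold zv; norm_num

theorem zQMa_1744830464_0 : (13 / 8192 : ℝ) = zv 1744830464 0 := by unfold zv; norm_num

theorem zQMa_3623878656_0 : (27 / 8192 : ℝ) = zv 3623878656 0 := by unfold zv; norm_num

theorem zQMa_8589934592_0 : (1 / 128 : ℝ) = zv 8589934592 0 := by unfold zv; norm_num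

theorem zQMa_10995367936_0 : (5243 / 524288 : ℝ) = zv 10995367936 0 := by unfold zv; norm_num

theorem zQMa_34359738368_0 : (1 / 32 : ℝ) = zv 34359738368 0 := by unfold zv; norm_num

theorem zQMa_45768245248_0 : (341 / 8192 : ℝ) = zv 45768245248 0 := by unfold zv; norm_num

theorem zQMa_45812984490_0 : (22906492245 / 549755813888 : ℝ) = zv 45812984490 0 := by unfold zv; norm_num

theorem zQMa_45812984491_0 : (45812984491 / 1099511627776 : ℝ) = zv 45812984491 0 := by unfold zv; norm_num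

theorem zQMa_137438953472_0 : (1 / 8 : ℝ) = zv 137438953472 0 := by unfold zv; norm_num

theorem zQMa_183207198720_0 : (1365 / 8192 : ℝ) = zv 183207198720 0 := by unfold zv; norm_num

theorem zQMa_219915747328_0 : (3277 / 16384 : ℝ) = zv 219915747328 0 := by unfold zv; norm_num

theorem zQMa_223338299392_0 : (13 / 64 : ℝ) = zv 223338299392 0 := by unfold zv; norm_num

theorem zQMa_224412041216_0 : (209 / 1024 : ℝ) = zv 224412041216 0 := by unfold zv; norm_num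

theorem zQMa_274877906944_0 : (1 / 4 : ℝ) = zv 274877906944 0 := by unfold zv; norm_num

theorem zQMa_339302416384_0 : (79 / 256 : ℝ) = zv 339302416384 0 := by unfold zv; norm_num

theorem zQMa_366548615168_0 : (2731 / 8192 : ℝ) = zv 366548615168 0 := by unfold zv; norm_num

theorem zQMa_369367187456_0 : (43 / 128 : ℝ) = zv 369367187456 0 := by unfold zv; norm_num

theorem zQMa_377957122048_0 : (11 / 32 : ℝ) = zv 377957122048 0 := by unfold zv; norm_num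

theorem zQMa_412316860416_0 : (3 / 8 : ℝ) = zv 412316860416 0 := by unfold zv; norm_num

theorem zQMa_549755813888_0 : (1 / 2 : ℝ) = zv 549755813888 0 := by unfold zv; norm_num

theorem zQMa_687194767360_0 : (5 / 8 : ℝ) = zv 687194767360 0 := by unfold zv; norm_num

theorem zQMa_733097230336_0 : (2731 / 4096 : ℝ) = zv 733097230336 0 := by unfold zv; norm_num

theorem zQMa_893353197568_0 : (13 / 16 : ℝ) = zv 893353197568 0 := by unfold zv; norm_num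

theorem zQMa_1099511627776_0 : (1 : ℝ) = zv 1099511627776 0 := by unfold zv; norm_num

theorem zQMa_1752346656768_0 : (51 / 32 : ℝ) = zv 1752346656768 0 := by unfold zv; norm_num

theorem zQMa_1898375544832_0 : (221 / 128 : ℝ) = zv 1898375544832 0 := by unfold zv; norm_num

theorem zQMa_2199023255552_0 : (2 : ℝ) = zv 2199023255552 0 := by unfold zv; norm_num

theorem zQMa_3298534883328_0 : (3 : ℝ) = zv 3298534883328 0 := by unfold zv; norm_num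

theorem zQMa_3573412790272_0 : (13 / 4 : ℝ) = zv 3573412790272 0 := by unfold zv; norm_num

theorem zQMa_4398046511104_0 : (4 : ℝ) = zv 4398046511104 0 := by unfold zv; norm_num

theorem zQMa_7696581394432_0 : (7 : ℝ) = zv 7696581394432 0 := by unfold zv; norm_num

theorem zQMa_10774999203840_0 : (10035 / 1024 : ℝ) = zv 10774999203840 0 := by unfold zv; norm_num

theorem zQMa_10849087389696_0 : (1263 / 128 : ℝ) = zv 10849087389696 0 := by unfold zv; norm_num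

theorem zQMa_10853382356992_0 : (2527 / 256 : ℝ) = zv 10853382356992 0 := by unfold zv; norm_num

theorem zQMa_10995116277760_0 : (10 : ℝ) = zv 10995116277760 0 := by unfold zv; norm_num

theorem zQMa_14293651161088_0 : (13 : ℝ) = zv 14293651161088 0 := by unfold zv; norm_num

theorem zQMa_23089744183296_0 : (21 : ℝ) = zv 23089744183296 0 := by unfold zv; norm_num

theorem zQMa_27487790694400_0 : (25 : ℝ) = zv 27487790694400 0 := by unfold zv; norm_num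

theorem zQMa_42880953483264_0 : (39 : ℝ) = zv 42880953483264 0 := by unfold zv; norm_num

theorem zQMa_79164837199872_0 : (72 : ℝ) = zv 79164837199872 0 := by unfold zv; norm_num

theorem zQMa_91259465105408_0 : (83 : ℝ) = zv 91259465105408 0 := by unfold zv; norm_num

theorem zQMa_107752139522048_0 : (98 : ℝ) = zv 107752139522048 0 := by unfold zv; norm_num

theorem zQMa_109951162777600_0 : (100 : ℝ) = zv 109951162777600 0 := by unfold zv; norm_num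

theorem zQMa_1939538511396864_0 : (1764 : ℝ) = zv 1939538511396864 0 := by unfold zv; norm_num

theorem far_QMa0 {κ : ℝ} {τ : ℂ} {R w : ℝ} {v : B1} (D : PtE (7 * 10⁻¹) v.e κ τ R w)
    (G : Geo κ (shf κ τ) v) (v2 : B2 v) (v3 : B3 v) (v5 : V5 v) {l1 : Lg v.D} {l2 : Lg v.D2}
    (lv : LV v l1 l2) (he2 : 2 ≤ v.e) {S z de : ℝ}
    (hde0 : 0 < de) (hde : de = v.t * z * S) (hu : v.u = z * de) (hz0 : 0 < z)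
    (hee : v.e * (de * de) = 1)
    (h : RAs Pool.Agent.helper71.FJ.Crt.QMa.prog0 [S, v.t, z, v.n]) :
    FarPt v.e κ (1 - Real.sinh κ / 1024) w (2 * AQ v.e v.K * Real.sinh κ ^ 2) R
      (RE v.e κ (w * R)) τ := by
  obtain ⟨tz, e_tz⟩ : ∃ zz : ℝ, zz = v.t * z := ⟨_, rfl⟩
  have hde' : de = tz * S := by rw [e_tz]; exact hde
  obtain ⟨z2, e_z2⟩ : ∃ zz : ℝ, zz = z * z := ⟨_, rfl⟩
  obtain ⟨r, e_r⟩ : ∃ zz : ℝ, zz = v.t * z2 := ⟨_, rfl⟩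
  obtain ⟨eps, e_eps⟩ : ∃ zz : ℝ, zz = de * de := ⟨_, rfl⟩
  obtain ⟨tr, e_tr⟩ : ∃ zz : ℝ, zz = v.t * r := ⟨_, rfl⟩
  obtain ⟨q, e_q⟩ : ∃ zz : ℝ, zz = Real.exp (-(r * lv.rlo)) := ⟨_, rfl⟩
  obtain ⟨th, e_th⟩ : ∃ zz : ℝ, zz = q * (r * lv.er) := ⟨_, rfl⟩
  obtain ⟨qp, e_qp⟩ : ∃ zz : ℝ, zz = Real.exp (-(r * lv.rplo)) := ⟨_, rfl⟩
  obtain ⟨thp, e_thp⟩ : ∃ zz : ℝ, zz = qp * (r * lv.erp) := ⟨_, rfl⟩
  obtain ⟨wv, e_w⟩ : ∃ zz : ℝ, zz = (1 : ℝ) * (S * (v.c0 + v.R))⁻¹ := ⟨_, rfl⟩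
  obtain ⟨xv, e_x⟩ : ∃ zz : ℝ, zz = wv * wv * v5.sn := ⟨_, rfl⟩
  obtain ⟨cc, e_cc⟩ : ∃ zz : ℝ, zz = (1 : ℝ) - xv * ((1 / 2 : ℝ) - xv * ((22906492245 / 549755813888 : ℝ) - xv * ((381774871 / 274877906944 : ℝ) - xv * ((27269633 / 1099511627776 : ℝ) - xv * ((75749 / 274877906944 : ℝ) - xv * ((2295 / 1099511627776 : ℝ) - xv * (13 / 1099511627776 : ℝ))))))) := ⟨_, rfl⟩
  obtain ⟨b⟩ := exGE q th cc v.h1
  obtain ⟨gv, e_g⟩ : ∃ zz : ℝ, zz = (1 / 2) * ((((1 : ℝ) - q) * b.q1 + 2 * th) * b.W⁻¹) := ⟨_, rfl⟩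
  obtain ⟨ga, e_ga⟩ : ∃ zz : ℝ, zz = gv * (gv + (1 / 2 : ℝ))⁻¹ := ⟨_, rfl⟩
  obtain ⟨hg, e_hg⟩ : ∃ zz : ℝ, zz = v.h1 * ga := ⟨_, rfl⟩
  obtain ⟨lsf, e_lsf⟩ : ∃ zz : ℝ, zz = ((1 : ℝ) - (1 / 2) * hg) * ((1 : ℝ) - hg)⁻¹ := ⟨_, rfl⟩
  obtain ⟨Qb, e_Qb⟩ : ∃ zz : ℝ, zz = q * (hg + (1 : ℝ)) := ⟨_, rfl⟩
  obtain ⟨lsx, e_lsx⟩ : ∃ zz : ℝ, zz = v.h1t * lsf * ga := ⟨_, rfl⟩
  obtain ⟨ls, e_ls⟩ : ∃ zz : ℝ, zz = hg * lsf := ⟨_, rfl⟩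
  obtain ⟨xpv, e_xp⟩ : ∃ zz : ℝ, zz = xv * v.SQ⁻¹ := ⟨_, rfl⟩
  obtain ⟨ccp, e_ccp⟩ : ∃ zz : ℝ, zz = (1 : ℝ) - xpv * ((1 / 2 : ℝ) - xpv * ((22906492245 / 549755813888 : ℝ) - xpv * ((381774871 / 274877906944 : ℝ) - xpv * ((27269633 / 1099511627776 : ℝ) - xpv * ((75749 / 274877906944 : ℝ) - xpv * ((2295 / 1099511627776 : ℝ) - xpv * (13 / 1099511627776 : ℝ))))))) := ⟨_, rfl⟩
  obtain ⟨b'⟩ := exGE qp thp ccp v3.hp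
  obtain ⟨gpv, e_gp⟩ : ∃ zz : ℝ, zz = (1 / 2) * ((((1 : ℝ) - qp) * b'.q1 + 2 * thp) * b'.W⁻¹) := ⟨_, rfl⟩
  obtain ⟨gap, e_gap⟩ : ∃ zz : ℝ, zz = gpv * (gpv + (1 / 2 : ℝ))⁻¹ := ⟨_, rfl⟩
  obtain ⟨hgp, e_hgp⟩ : ∃ zz : ℝ, zz = v3.hp * gap := ⟨_, rfl⟩
  obtain ⟨gu, e_gu⟩ : ∃ zz : ℝ, zz = gap * S := ⟨_, rfl⟩
  obtain ⟨G4, e_G4⟩ : ∃ zz : ℝ, zz = 4 * S + (1 : ℝ) * v.nj := ⟨_, rfl⟩
  obtain ⟨Ei, e_Ei⟩ : ∃ zz : ℝ, zz = 2 * eps + (1 : ℝ) := ⟨_, rfl⟩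
  obtain ⟨Eh, e_Eh⟩ : ∃ zz : ℝ, zz = eps + (1 : ℝ) := ⟨_, rfl⟩
  obtain ⟨phux, e_phux⟩ : ∃ zz : ℝ, zz = (1 / 2) * ((13 / 4) * v.om + (79 / 256 : ℝ)) := ⟨_, rfl⟩
  obtain ⟨cu, e_cu⟩ : ∃ zz : ℝ, zz = (1 : ℝ) - xv * ((1 / 2 : ℝ) - xv * ((45812984491 / 1099511627776 : ℝ) - xv * ((1527099483 / 1099511627776 : ℝ) - xv * ((13634817 / 549755813888 : ℝ) - xv * ((302995 / 1099511627776 : ℝ) - xv * ((287 / 137438953472 : ℝ) - xv * ((3 / 274877906944 : ℝ) - xv * (1 / 1099511627776 : ℝ)))))))) := ⟨_, rfl⟩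
  obtain ⟨xe, e_xe⟩ : ∃ zz : ℝ, zz = xv * eps := ⟨_, rfl⟩
  obtain ⟨o2u, e_o2u⟩ : ∃ zz : ℝ, zz = q * q + (1 : ℝ) + 2 * (q * (cu + (43 / 128) * (xe * xe))) + 2 * th := ⟨_, rfl⟩
  obtain ⟨ooo, e_ooo⟩ : ∃ zz : ℝ, zz = Real.exp ((1 / 2) * Real.log (o2u + (1 / 128 : ℝ))) := ⟨_, rfl⟩
  obtain ⟨Q1, e_Q1⟩ : ∃ zz : ℝ, zz = ooo + q * hg := ⟨_, rfl⟩
  obtain ⟨xa⟩ := exKa v2 eps 1 S G4 Qb Q1 ls lsx phux Ei Eh
  obtain ⟨srcx, e_srcx⟩ : ∃ zz : ℝ, zz = v.om1 * ((1 / 2) * (r * v2.bsum * v.aQ⁻¹)) + xa.kl := ⟨_, rfl⟩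
  obtain ⟨srcs, e_srcs⟩ : ∃ zz : ℝ, zz = v.t * srcx := ⟨_, rfl⟩
  obtain ⟨yb⟩ := exKb (7 * 10⁻¹) xa tr gap gu srcs
  obtain ⟨pk⟩ := exPk v5 lv.rplo v3.hp hgp gu yb.yy
  obtain ⟨y1, e_y1⟩ : ∃ zz : ℝ, zz = z2 * pk.ye := ⟨_, rfl⟩
  obtain ⟨cl⟩ := exCl yb v.t 1 y1 srcx
  have hsc := sc_Ma hde' e_tz hu hee hde0 G.t0 hz0.le e_z2 e_r e_tr e_eps
  obtain ⟨hA0, hA⟩ := hA_Q G hsc e_G4
  have f := lv.f G hsc.hr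
  obtain ⟨p_xq, s0⟩ := (((((((((h
    (1 : ℝ) zQMa_1099511627776_0
    tz e_tz
    de hde'
    v.u hu
    z2 e_z2
    r e_r
    eps e_eps
    tr e_tr
    (1 / 2 : ℝ) zQMa_549755813888_0
    v.tu v.e_tu
    (v.tu * v.n) rfl
    v.h (v.e_h.trans (congrArg (fun y : ℝ => y * (v.tu * v.n)) zQMa_549755813888_0))
    v.u2 v.e_u2
    (v.h * v.h) rfl
    v.jm v.e_jm).2
    v.j v.e_j
    (v.h * v.j) rfl
    v.K (v.e_K.trans (congrArg (fun y : ℝ => y * (v.h * v.j)) zQMa_2199023255552_0))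
    (2 * v.j) (congrArg (fun y : ℝ => y * v.j) zQMa_2199023255552_0)
    v.c0 v.e_c0
    v.m v.e_m
    v.nj v.e_nj
    v.om v.e_om
    v.om1 v.e_om1
    v.op1 v.e_op1
    v.R v.e_R
    v.nj2 v.e_nj2
    v2.Y (v2.e_Y.trans (congrArg (fun y : ℝ => y * v.h) zQMa_10774999203840_0))
    ((341 / 8192) * v2.Y) (congrArg (fun y : ℝ => y * v2.Y) zQMa_45768245248_0)
    (1365 / 8192 : ℝ) zQMa_183207198720_0
    ((341 / 8192) * v2.Y + (1365 / 8192 : ℝ)) rfl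
    (v2.Y * ((341 / 8192) * v2.Y + (1365 / 8192 : ℝ))) rfl
    ((1 / 2 : ℝ) + v2.Y * ((341 / 8192) * v2.Y + (1365 / 8192 : ℝ))) rfl
    (v2.Y * ((1 / 2 : ℝ) + v2.Y * ((341 / 8192) * v2.Y + (1365 / 8192 : ℝ)))) rfl
    v2.pY v2.e_pY
    (v2.Y * v2.pY) rfl
    ((1 / 2) * (v2.Y * v2.pY)) (congrArg (fun y : ℝ => y * (v2.Y * v2.pY)) zQMa_549755813888_0)
    ((1 : ℝ) + (1 / 2) * (v2.Y * v2.pY)) rfl
    v2.Yp v2.e_Yp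
    (v.K * v.om) rfl
    (2 * v.c0) (congrArg (fun y : ℝ => y * v.c0) zQMa_2199023255552_0)
    (v.K * v.om + 2 * v.c0) rfl
    v.Dt v.e_Dt
    v.D v.e_D
    v.SQ v.e_SQ
    (v.K * v.K) rfl
    (2 * (v.K * v.K)) (congrArg (fun y : ℝ => y * (v.K * v.K)) zQMa_2199023255552_0)
    v.c2 v.e_c2
    (v.c0 * v.Dt) rfl
    v.rhat v.e_rhat).2
    v.LQ v.e_LQ
    ((1 / 2) * v.LQ) (congrArg (fun y : ℝ => y * v.LQ) zQMa_549755813888_0)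
    v.aQ v.e_aQ
    (3 : ℝ) zQMa_3298534883328_0).2
    ((3 : ℝ)⁻¹) rfl
    ((1 : ℝ) * (3 : ℝ)⁻¹) rfl
    (2 : ℝ) zQMa_2199023255552_0
    (v.D + (2 : ℝ)) rfl).2
    ((v.D + (2 : ℝ))⁻¹) rfl
    l1.zL l1.e_zL
    l1.zz l1.e_zz
    ((1 : ℝ) - l1.zL) rfl
    (l1.zz * ((1 : ℝ) * (3 : ℝ)⁻¹)) rfl
    ((1 : ℝ) + l1.zz * ((1 : ℝ) * (3 : ℝ)⁻¹)) rfl
    l1.Lv l1.e_Lv
    (l1.zz * l1.zz) rfl
    l1.eL (l1.e_eL.trans (congrArg (fun y : ℝ => y * (l1.zz * l1.zz)) zQMa_219915747328_0))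
    (v.Dt * l1.Lv) rfl
    lv.rlo (lv.e_rlo.trans (congrArg (fun y : ℝ => y * (v.Dt * l1.Lv)) zQMa_549755813888_0))
    (v.Dt * l1.eL) rfl
    lv.er (lv.e_er.trans (congrArg (fun y : ℝ => y * (v.Dt * l1.eL)) zQMa_549755813888_0))
    lv.rhi lv.e_rhi
    (v.c0 * v.rhat) rfl
    lv.D2R (lv.e_D2R.trans (congrArg (fun y : ℝ => y * (v.c0 * v.rhat)) zQMa_4398046511104_0))
    (v.c0 * v.R) rfl
    (v.c0 * v.R * v.rhat) rfl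
    v.D2 (v.e_D2.trans (congrArg (fun y : ℝ => y * (v.c0 * v.R * v.rhat)) zQMa_4398046511104_0))
    (v.D2 + (2 : ℝ)) rfl).2
    ((v.D2 + (2 : ℝ))⁻¹) rfl
    l2.zL l2.e_zL
    l2.zz l2.e_zz
    ((1 : ℝ) - l2.zL) rfl
    (l2.zz * ((1 : ℝ) * (3 : ℝ)⁻¹)) rfl
    ((1 : ℝ) + l2.zz * ((1 : ℝ) * (3 : ℝ)⁻¹)) rfl
    l2.Lv l2.e_Lv
    (l2.zz * l2.zz) rfl
    l2.eL (l2.e_eL.trans (congrArg (fun y : ℝ => y * (l2.zz * l2.zz)) zQMa_219915747328_0))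
    (lv.D2R * l2.Lv) rfl
    ((1 / 2) * (lv.D2R * l2.Lv)) (congrArg (fun y : ℝ => y * (lv.D2R * l2.Lv)) zQMa_549755813888_0)
    lv.rplo lv.e_rplo
    (lv.D2R * l2.eL) rfl
    ((1 / 2) * (lv.D2R * l2.eL)) (congrArg (fun y : ℝ => y * (lv.D2R * l2.eL)) zQMa_549755813888_0)
    lv.erp lv.e_erp
    lv.rphi lv.e_rphi
    (r * lv.rlo) rfl
    (-(r * lv.rlo)) rfl
    q e_q
    (r * lv.er) rfl
    th e_th
    (r * lv.rplo) rfl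
    (-(r * lv.rplo)) rfl
    qp e_qp
    (r * lv.erp) rfl
    thp e_thp
    (v.om * v.K) rfl
    (v.c0 + v.om * v.K) rfl).2
    v.ioK v.e_ioK
    v.h1t v.e_h1t
    (v.om1 * v.t) rfl
    v.h1 v.e_h1
    ((1 : ℝ) - v.u2) rfl
    v.f2 v.e_f2
    v.tu2 v.e_tu2
    ((1 : ℝ) - v.nj2) rfl
    v5.sn v5.e_sn
    (v.R * v.rhat) rfl).2
    (v.SQ⁻¹) rfl
    v5.R1 v5.e_R1
    (v.c0 + v5.R1) rfl
    v5.Qr v5.e_Qr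
    (v5.Qr * v5.Qr) rfl).2
    ((v5.Qr * v5.Qr)⁻¹) rfl
    v5.Th v5.e_Th
    (v.c0 + v.R) rfl
    (S * (v.c0 + v.R)) rfl).2
    ((S * (v.c0 + v.R))⁻¹) rfl
    wv e_w
    (wv * wv) rfl
    xv e_x
    (1263 / 128 : ℝ) zQMa_10849087389696_0
    ((1263 / 128 : ℝ) - xv) rfl
  change 0 < (1263 / 128 : ℝ) - xv at p_xq
  obtain ⟨p_o2, s1⟩ := (s0
    (13 / 1099511627776 : ℝ) zQMa_13_0
    (2295 / 1099511627776 : ℝ) zQMa_2295_0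
    (xv * (13 / 1099511627776 : ℝ)) rfl
    ((2295 / 1099511627776 : ℝ) - xv * (13 / 1099511627776 : ℝ)) rfl
    (75749 / 274877906944 : ℝ) zQMa_302996_0
    (xv * ((2295 / 1099511627776 : ℝ) - xv * (13 / 1099511627776 : ℝ))) rfl
    ((75749 / 274877906944 : ℝ) - xv * ((2295 / 1099511627776 : ℝ) - xv * (13 / 1099511627776 : ℝ))) rfl
    (27269633 / 1099511627776 : ℝ) zQMa_27269633_0
    (xv * ((75749 / 274877906944 : ℝ) - xv * ((2295 / 1099511627776 : ℝ) - xv * (13 / 1099511627776 : ℝ)))) rfl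
    ((27269633 / 1099511627776 : ℝ) - xv * ((75749 / 274877906944 : ℝ) - xv * ((2295 / 1099511627776 : ℝ) - xv * (13 / 1099511627776 : ℝ)))) rfl
    (381774871 / 274877906944 : ℝ) zQMa_1527099484_0
    (xv * ((27269633 / 1099511627776 : ℝ) - xv * ((75749 / 274877906944 : ℝ) - xv * ((2295 / 1099511627776 : ℝ) - xv * (13 / 1099511627776 : ℝ))))) rfl
    ((381774871 / 274877906944 : ℝ) - xv * ((27269633 / 1099511627776 : ℝ) - xv * ((75749 / 274877906944 : ℝ) - xv * ((2295 / 1099511627776 : ℝ) - xv * (13 / 1099511627776 : ℝ))))) rfl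
    (22906492245 / 549755813888 : ℝ) zQMa_45812984490_0
    (xv * ((381774871 / 274877906944 : ℝ) - xv * ((27269633 / 1099511627776 : ℝ) - xv * ((75749 / 274877906944 : ℝ) - xv * ((2295 / 1099511627776 : ℝ) - xv * (13 / 1099511627776 : ℝ)))))) rfl
    ((22906492245 / 549755813888 : ℝ) - xv * ((381774871 / 274877906944 : ℝ) - xv * ((27269633 / 1099511627776 : ℝ) - xv * ((75749 / 274877906944 : ℝ) - xv * ((2295 / 1099511627776 : ℝ) - xv * (13 / 1099511627776 : ℝ)))))) rfl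
    (xv * ((22906492245 / 549755813888 : ℝ) - xv * ((381774871 / 274877906944 : ℝ) - xv * ((27269633 / 1099511627776 : ℝ) - xv * ((75749 / 274877906944 : ℝ) - xv * ((2295 / 1099511627776 : ℝ) - xv * (13 / 1099511627776 : ℝ))))))) rfl
    ((1 / 2 : ℝ) - xv * ((22906492245 / 549755813888 : ℝ) - xv * ((381774871 / 274877906944 : ℝ) - xv * ((27269633 / 1099511627776 : ℝ) - xv * ((75749 / 274877906944 : ℝ) - xv * ((2295 / 1099511627776 : ℝ) - xv * (13 / 1099511627776 : ℝ))))))) rfl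
    (xv * ((1 / 2 : ℝ) - xv * ((22906492245 / 549755813888 : ℝ) - xv * ((381774871 / 274877906944 : ℝ) - xv * ((27269633 / 1099511627776 : ℝ) - xv * ((75749 / 274877906944 : ℝ) - xv * ((2295 / 1099511627776 : ℝ) - xv * (13 / 1099511627776 : ℝ)))))))) rfl
    cc e_cc
    b.q1 b.e_q1
    (q * q) rfl
    (q * q + (1 : ℝ)) rfl
    (q * cc) rfl
    (2 * (q * cc)) (congrArg (fun y : ℝ => y * (q * cc)) zQMa_2199023255552_0)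
    (q * q + (1 : ℝ) + 2 * (q * cc)) rfl
    (4 * th) (congrArg (fun y : ℝ => y * th) zQMa_4398046511104_0)
    b.o2 b.e_o2).2
    (b.q1⁻¹) rfl
    (b.o2 * b.q1⁻¹) rfl
    b.P1 b.e_P1
    (q * v.h1) rfl
    b.qh (b.e_qh.trans (congrArg (fun y : ℝ => y * (q * v.h1)) zQMa_549755813888_0))
    (b.qh * b.P1) rfl
    b.W b.e_W
  change 0 < b.o2 at p_o2
  obtain ⟨p_W, s2⟩ := s1
  change 0 < b.W at p_W
  obtain ⟨p_hg, s3⟩ := (((s2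
    ((1 : ℝ) - q) rfl
    (((1 : ℝ) - q) * b.q1) rfl
    (2 * th) (congrArg (fun y : ℝ => y * th) zQMa_2199023255552_0)
    (((1 : ℝ) - q) * b.q1 + 2 * th) rfl).2
    (b.W⁻¹) rfl
    ((((1 : ℝ) - q) * b.q1 + 2 * th) * b.W⁻¹) rfl
    gv (e_g.trans (congrArg (fun y : ℝ => y * ((((1 : ℝ) - q) * b.q1 + 2 * th) * b.W⁻¹)) zQMa_549755813888_0))
    (gv + (1 / 2 : ℝ)) rfl).2
    ((gv + (1 / 2 : ℝ))⁻¹) rfl
    ga e_ga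
    hg e_hg
    ((1 / 2) * hg) (congrArg (fun y : ℝ => y * hg) zQMa_549755813888_0)
    ((1 : ℝ) - (1 / 2) * hg) rfl
    ((1 : ℝ) - hg) rfl).2
    (((1 : ℝ) - hg)⁻¹) rfl
    lsf e_lsf
    (hg + (1 : ℝ)) rfl
    Qb e_Qb
    (v.h1t * lsf) rfl
    lsx e_lsx
    ls e_ls
  change 0 < (1 : ℝ) - hg at p_hg
  obtain ⟨p_rplo, s4⟩ := (s3
    (v.om1 * v.op1) rfl
    (v.c0 + v.t) rfl
    (v.om * v.c0) rfl
    (v.om * v.c0 * v.K) rfl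
    (2 * (v.om * v.c0 * v.K)) (congrArg (fun y : ℝ => y * (v.om * v.c0 * v.K)) zQMa_2199023255552_0)
    (v.c2 + 2 * (v.om * v.c0 * v.K)) rfl
    ((v.c0 + v.t) * (v.c2 + 2 * (v.om * v.c0 * v.K))) rfl).2
    (((v.c0 + v.t) * (v.c2 + 2 * (v.om * v.c0 * v.K)))⁻¹) rfl
    v3.hpt v3.e_hpt
    v3.hp v3.e_hp
  change 0 < lv.rplo at p_rplo
  obtain ⟨p_xqp, s5⟩ := s4
    xpv e_xp
    ((1263 / 128 : ℝ) - xpv) rfl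
  change 0 < (1263 / 128 : ℝ) - xpv at p_xqp
  obtain ⟨p_o2p, s6⟩ := (s5
    (xpv * (13 / 1099511627776 : ℝ)) rfl
    ((2295 / 1099511627776 : ℝ) - xpv * (13 / 1099511627776 : ℝ)) rfl
    (xpv * ((2295 / 1099511627776 : ℝ) - xpv * (13 / 1099511627776 : ℝ))) rfl
    ((75749 / 274877906944 : ℝ) - xpv * ((2295 / 1099511627776 : ℝ) - xpv * (13 / 1099511627776 : ℝ))) rfl
    (xpv * ((75749 / 274877906944 : ℝ) - xpv * ((2295 / 1099511627776 : ℝ) - xpv * (13 / 1099511627776 : ℝ)))) rfl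
    ((27269633 / 1099511627776 : ℝ) - xpv * ((75749 / 274877906944 : ℝ) - xpv * ((2295 / 1099511627776 : ℝ) - xpv * (13 / 1099511627776 : ℝ)))) rfl
    (xpv * ((27269633 / 1099511627776 : ℝ) - xpv * ((75749 / 274877906944 : ℝ) - xpv * ((2295 / 1099511627776 : ℝ) - xpv * (13 / 1099511627776 : ℝ))))) rfl
    ((381774871 / 274877906944 : ℝ) - xpv * ((27269633 / 1099511627776 : ℝ) - xpv * ((75749 / 274877906944 : ℝ) - xpv * ((2295 / 1099511627776 : ℝ) - xpv * (13 / 1099511627776 : ℝ))))) rfl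
    (xpv * ((381774871 / 274877906944 : ℝ) - xpv * ((27269633 / 1099511627776 : ℝ) - xpv * ((75749 / 274877906944 : ℝ) - xpv * ((2295 / 1099511627776 : ℝ) - xpv * (13 / 1099511627776 : ℝ)))))) rfl
    ((22906492245 / 549755813888 : ℝ) - xpv * ((381774871 / 274877906944 : ℝ) - xpv * ((27269633 / 1099511627776 : ℝ) - xpv * ((75749 / 274877906944 : ℝ) - xpv * ((2295 / 1099511627776 : ℝ) - xpv * (13 / 1099511627776 : ℝ)))))) rfl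
    (xpv * ((22906492245 / 549755813888 : ℝ) - xpv * ((381774871 / 274877906944 : ℝ) - xpv * ((27269633 / 1099511627776 : ℝ) - xpv * ((75749 / 274877906944 : ℝ) - xpv * ((2295 / 1099511627776 : ℝ) - xpv * (13 / 1099511627776 : ℝ))))))) rfl
    ((1 / 2 : ℝ) - xpv * ((22906492245 / 549755813888 : ℝ) - xpv * ((381774871 / 274877906944 : ℝ) - xpv * ((27269633 / 1099511627776 : ℝ) - xpv * ((75749 / 274877906944 : ℝ) - xpv * ((2295 / 1099511627776 : ℝ) - xpv * (13 / 1099511627776 : ℝ))))))) rfl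
    (xpv * ((1 / 2 : ℝ) - xpv * ((22906492245 / 549755813888 : ℝ) - xpv * ((381774871 / 274877906944 : ℝ) - xpv * ((27269633 / 1099511627776 : ℝ) - xpv * ((75749 / 274877906944 : ℝ) - xpv * ((2295 / 1099511627776 : ℝ) - xpv * (13 / 1099511627776 : ℝ)))))))) rfl
    ccp e_ccp
    b'.q1 b'.e_q1
    (qp * qp) rfl
    (qp * qp + (1 : ℝ)) rfl
    (qp * ccp) rfl
    (2 * (qp * ccp)) (congrArg (fun y : ℝ => y * (qp * ccp)) zQMa_2199023255552_0)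
    (qp * qp + (1 : ℝ) + 2 * (qp * ccp)) rfl
    (4 * thp) (congrArg (fun y : ℝ => y * thp) zQMa_4398046511104_0)
    b'.o2 b'.e_o2).2
    (b'.q1⁻¹) rfl
    (b'.o2 * b'.q1⁻¹) rfl
    b'.P1 b'.e_P1
    (qp * v3.hp) rfl
    b'.qh (b'.e_qh.trans (congrArg (fun y : ℝ => y * (qp * v3.hp)) zQMa_549755813888_0))
    (b'.qh * b'.P1) rfl
    b'.W b'.e_W
  change 0 < b'.o2 at p_o2p
  obtain ⟨p_Wp, s7⟩ := s6
  change 0 < b'.W at p_Wp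
  obtain ⟨p_lspa, s8⟩ := ((((((((((((((((s7
    ((1 : ℝ) - qp) rfl
    (((1 : ℝ) - qp) * b'.q1) rfl
    (2 * thp) (congrArg (fun y : ℝ => y * thp) zQMa_2199023255552_0)
    (((1 : ℝ) - qp) * b'.q1 + 2 * thp) rfl).2
    (b'.W⁻¹) rfl
    ((((1 : ℝ) - qp) * b'.q1 + 2 * thp) * b'.W⁻¹) rfl
    gpv (e_gp.trans (congrArg (fun y : ℝ => y * ((((1 : ℝ) - qp) * b'.q1 + 2 * thp) * b'.W⁻¹)) zQMa_549755813888_0))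
    (gpv + (1 / 2 : ℝ)) rfl).2
    ((gpv + (1 / 2 : ℝ))⁻¹) rfl
    gap e_gap
    hgp e_hgp
    gu e_gu
    (v.h + (1 : ℝ)) rfl).2
    v2.ih v2.e_ih
    (v.h * v2.ih) rfl
    v2.rh (v2.e_rh.trans (congrArg (fun y : ℝ => y * (v.h * v2.ih)) zQMa_2199023255552_0))
    v2.mi v2.e_mi
    v2.hm v2.e_hm
    v2.nih v2.e_nih
    (v2.nih * v2.mi) rfl
    v2.bsum v2.e_bsum
    ((209 / 1024) * v.j) (congrArg (fun y : ℝ => y * v.j) zQMa_224412041216_0)).2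
    (v2.Yp⁻¹) rfl
    v2.lm v2.e_lm
    (4 * S) (congrArg (fun y : ℝ => y * S) zQMa_4398046511104_0)
    ((1 : ℝ) * v.nj) rfl
    G4 e_G4).2
    xa.iG4 xa.e_iG4
    xa.alG xa.e_alG
    xa.AE xa.e_AE
    (xa.AE * v.op1) rfl
    xa.XeE xa.e_XeE
    (xa.alG * v.op1) rfl
    xa.XM xa.e_XM
    ((1 : ℝ) - xa.XM) rfl).2
    xa.iX xa.e_iX
    xa.QX xa.e_QX
    ((1 : ℝ) - xa.QX) rfl).2
    xa.iQX xa.e_iQX
    (2 * eps) (congrArg (fun y : ℝ => y * eps) zQMa_2199023255552_0)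
    Ei e_Ei
    Eh e_Eh
    ((13 / 4) * v.om) (congrArg (fun y : ℝ => y * v.om) zQMa_3573412790272_0)
    (79 / 256 : ℝ) zQMa_339302416384_0
    ((13 / 4) * v.om + (79 / 256 : ℝ)) rfl
    phux (e_phux.trans (congrArg (fun y : ℝ => y * ((13 / 4) * v.om + (79 / 256 : ℝ))) zQMa_549755813888_0))
    (v.h * v.nj) rfl
    ((1 : ℝ) - v.f2) rfl
    (v.h * v.om) rfl
    (2 * (v.h * v.om)) (congrArg (fun y : ℝ => y * (v.h * v.om)) zQMa_2199023255552_0)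
    ((1 : ℝ) - v.f2 - 2 * (v.h * v.om)) rfl
    (v.h * v.nj * (v.h * v.nj)) rfl
    xa.N1 xa.e_N1
    (xa.N1 + (1 : ℝ)) rfl
    xa.s (xa.e_s.trans (congrArg (fun y : ℝ => y * (xa.N1 + (1 : ℝ))) zQMa_549755813888_0))
    ((1 / 2) * v.R) (congrArg (fun y : ℝ => y * v.R) zQMa_549755813888_0)
    (v.j - (1 / 2) * v.R) rfl
    (v.tu2 * ((1 : ℝ) - v.f2)) rfl
    (v.tu2 * ((1 : ℝ) - v.f2) * v.jm) rfl
    ((1 / 8) * (v.tu2 * ((1 : ℝ) - v.f2) * v.jm)) (congrArg (fun y : ℝ => y * (v.tu2 * ((1 : ℝ) - v.f2) * v.jm)) zQMa_137438953472_0)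
    (v.j - (1 / 2) * v.R + (1 / 8) * (v.tu2 * ((1 : ℝ) - v.f2) * v.jm)) rfl
    xa.k0 xa.e_k0
    (1 / 1099511627776 : ℝ) zQMa_1_0
    (3 / 274877906944 : ℝ) zQMa_12_0
    (xv * (1 / 1099511627776 : ℝ)) rfl
    ((3 / 274877906944 : ℝ) - xv * (1 / 1099511627776 : ℝ)) rfl
    (287 / 137438953472 : ℝ) zQMa_2296_0
    (xv * ((3 / 274877906944 : ℝ) - xv * (1 / 1099511627776 : ℝ))) rfl
    ((287 / 137438953472 : ℝ) - xv * ((3 / 274877906944 : ℝ) - xv * (1 / 1099511627776 : ℝ))) rfl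
    (302995 / 1099511627776 : ℝ) zQMa_302995_0
    (xv * ((287 / 137438953472 : ℝ) - xv * ((3 / 274877906944 : ℝ) - xv * (1 / 1099511627776 : ℝ)))) rfl
    ((302995 / 1099511627776 : ℝ) - xv * ((287 / 137438953472 : ℝ) - xv * ((3 / 274877906944 : ℝ) - xv * (1 / 1099511627776 : ℝ)))) rfl
    (13634817 / 549755813888 : ℝ) zQMa_27269634_0
    (xv * ((302995 / 1099511627776 : ℝ) - xv * ((287 / 137438953472 : ℝ) - xv * ((3 / 274877906944 : ℝ) - xv * (1 / 1099511627776 : ℝ))))) rfl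
    ((13634817 / 549755813888 : ℝ) - xv * ((302995 / 1099511627776 : ℝ) - xv * ((287 / 137438953472 : ℝ) - xv * ((3 / 274877906944 : ℝ) - xv * (1 / 1099511627776 : ℝ))))) rfl
    (1527099483 / 1099511627776 : ℝ) zQMa_1527099483_0
    (xv * ((13634817 / 549755813888 : ℝ) - xv * ((302995 / 1099511627776 : ℝ) - xv * ((287 / 137438953472 : ℝ) - xv * ((3 / 274877906944 : ℝ) - xv * (1 / 1099511627776 : ℝ)))))) rfl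
    ((1527099483 / 1099511627776 : ℝ) - xv * ((13634817 / 549755813888 : ℝ) - xv * ((302995 / 1099511627776 : ℝ) - xv * ((287 / 137438953472 : ℝ) - xv * ((3 / 274877906944 : ℝ) - xv * (1 / 1099511627776 : ℝ)))))) rfl
    (45812984491 / 1099511627776 : ℝ) zQMa_45812984491_0
    (xv * ((1527099483 / 1099511627776 : ℝ) - xv * ((13634817 / 549755813888 : ℝ) - xv * ((302995 / 1099511627776 : ℝ) - xv * ((287 / 137438953472 : ℝ) - xv * ((3 / 274877906944 : ℝ) - xv * (1 / 1099511627776 : ℝ))))))) rfl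
    ((45812984491 / 1099511627776 : ℝ) - xv * ((1527099483 / 1099511627776 : ℝ) - xv * ((13634817 / 549755813888 : ℝ) - xv * ((302995 / 1099511627776 : ℝ) - xv * ((287 / 137438953472 : ℝ) - xv * ((3 / 274877906944 : ℝ) - xv * (1 / 1099511627776 : ℝ))))))) rfl
    (xv * ((45812984491 / 1099511627776 : ℝ) - xv * ((1527099483 / 1099511627776 : ℝ) - xv * ((13634817 / 549755813888 : ℝ) - xv * ((302995 / 1099511627776 : ℝ) - xv * ((287 / 137438953472 : ℝ) - xv * ((3 / 274877906944 : ℝ) - xv * (1 / 1099511627776 : ℝ)))))))) rfl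
    ((1 / 2 : ℝ) - xv * ((45812984491 / 1099511627776 : ℝ) - xv * ((1527099483 / 1099511627776 : ℝ) - xv * ((13634817 / 549755813888 : ℝ) - xv * ((302995 / 1099511627776 : ℝ) - xv * ((287 / 137438953472 : ℝ) - xv * ((3 / 274877906944 : ℝ) - xv * (1 / 1099511627776 : ℝ)))))))) rfl
    (xv * ((1 / 2 : ℝ) - xv * ((45812984491 / 1099511627776 : ℝ) - xv * ((1527099483 / 1099511627776 : ℝ) - xv * ((13634817 / 549755813888 : ℝ) - xv * ((302995 / 1099511627776 : ℝ) - xv * ((287 / 137438953472 : ℝ) - xv * ((3 / 274877906944 : ℝ) - xv * (1 / 1099511627776 : ℝ))))))))) rfl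
    cu e_cu
    xe e_xe
    (xe * xe) rfl
    ((43 / 128) * (xe * xe)) (congrArg (fun y : ℝ => y * (xe * xe)) zQMa_369367187456_0)
    (cu + (43 / 128) * (xe * xe)) rfl
    (q * (cu + (43 / 128) * (xe * xe))) rfl
    (2 * (q * (cu + (43 / 128) * (xe * xe)))) (congrArg (fun y : ℝ => y * (q * (cu + (43 / 128) * (xe * xe)))) zQMa_2199023255552_0)
    (q * q + (1 : ℝ) + 2 * (q * (cu + (43 / 128) * (xe * xe)))) rfl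
    o2u e_o2u
    (1 / 128 : ℝ) zQMa_8589934592_0
    (o2u + (1 / 128 : ℝ)) rfl).2
    (Real.log (o2u + (1 / 128 : ℝ))) rfl
    ((1 / 2) * Real.log (o2u + (1 / 128 : ℝ))) (congrArg (fun y : ℝ => y * Real.log (o2u + (1 / 128 : ℝ))) zQMa_549755813888_0)
    ooo e_ooo
    (q * hg) rfl
    Q1 e_Q1
    (Q1 * xa.iX) rfl
    (Qb * xa.iQX) rfl
    (Q1 * xa.iX + Qb * xa.iQX) rfl
    (xa.XM * (Q1 * xa.iX + Qb * xa.iQX)) rfl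
    (ls + xa.XM * (Q1 * xa.iX + Qb * xa.iQX)) rfl
    xa.a0 xa.e_a0
    (Q1 * xa.XM) rfl
    (Q1 * xa.XM * xa.iX) rfl
    (ls + Q1 * xa.XM * xa.iX) rfl
    xa.l1 xa.e_l1
    ((13 / 64) * xa.l1) (congrArg (fun y : ℝ => y * xa.l1) zQMa_223338299392_0)
    ((1 / 2 : ℝ) + (13 / 64) * xa.l1) rfl
    (xa.l1 * ((1 / 2 : ℝ) + (13 / 64) * xa.l1)) rfl
    xa.Na xa.e_Na
    ((13 / 16) * xa.a0) (congrArg (fun y : ℝ => y * xa.a0) zQMa_893353197568_0)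
    ((1 : ℝ) + (13 / 16) * xa.a0) rfl
    (xa.a0 * ((1 : ℝ) + (13 / 16) * xa.a0)) rfl
    xa.Nb xa.e_Nb
    (v2.rh * v2.nih) rfl
    (v2.rh * v2.nih * Ei) rfl
    xa.rn xa.e_rn
    (xa.k0 * xa.Na) rfl
    (v.aQ + (1 / 2 : ℝ)) rfl
    (xa.rn * (v.aQ + (1 / 2 : ℝ))) rfl
    xa.ka xa.e_ka
    (v.aQ + (1 : ℝ)) rfl
    xa.kb xa.e_kb
    (Eh * (v.aQ + (1 : ℝ))) rfl
    (Eh * (v.aQ + (1 : ℝ)) * v2.nih) rfl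
    xa.lfk xa.e_lfk
    (xa.ka * lsx) rfl
    (xa.lfk * phux) rfl
    xa.kl xa.e_kl
    (r * v2.bsum) rfl).2
    (v.aQ⁻¹) rfl
    (r * v2.bsum * v.aQ⁻¹) rfl
    ((1 / 2) * (r * v2.bsum * v.aQ⁻¹)) (congrArg (fun y : ℝ => y * (r * v2.bsum * v.aQ⁻¹)) zQMa_549755813888_0)
    (v.om1 * ((1 / 2) * (r * v2.bsum * v.aQ⁻¹))) rfl
    srcx e_srcx
    srcs e_srcs
    yb.src yb.e_src
    (xa.ka * Q1) rfl
    (xa.ka * Q1 * xa.iX) rfl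
    (xa.kb * Qb) rfl
    (xa.kb * Qb * xa.iQX) rfl
    yb.fxe yb.e_fxe
    (v.om1 * yb.src) rfl
    (xa.XeE * yb.fxe) rfl
    yb.epd yb.e_epd
    (v.tu2 * yb.epd) rfl
    (v.tu2 * yb.epd * v.aQ⁻¹) rfl
    ((1 : ℝ) - v.tu2 * yb.epd * v.aQ⁻¹) rfl).2
    yb.NN yb.e_NN
    yb.eN yb.e_eN
    yb.d yb.e_d
    yb.eta yb.e_eta
    (yb.eta * v.aQ⁻¹) rfl
    ((1 : ℝ) - yb.eta * v.aQ⁻¹) rfl
    (v.rhat * ((1 : ℝ) - yb.eta * v.aQ⁻¹)) rfl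
    yb.rl yb.e_rl).2
    yb.irl yb.e_irl
    yb.yy yb.e_yy
    (v.aQ - yb.eta) rfl).2
    yb.q0 yb.e_q0
    yb.zp yb.e_zp
    ((1 / 2) * yb.zp) (congrArg (fun y : ℝ => y * yb.zp) zQMa_549755813888_0)
    ((1 : ℝ) - (1 / 2) * yb.zp) rfl
    ((1 : ℝ) - yb.zp) rfl).2
    (((1 : ℝ) - yb.zp)⁻¹) rfl
    yb.kzp yb.e_kzp
    (v.u * yb.q0) rfl
    (gu * yb.irl) rfl
    (gu * yb.irl * yb.kzp) rfl
    yb.Cu yb.e_Cu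
    (tr * yb.eN) rfl
    (yb.q0 * (tr * yb.eN)) rfl
    (gap * yb.irl) rfl
    (gap * yb.irl * yb.kzp) rfl
    (gap * yb.irl * yb.kzp * yb.d) rfl
    yb.rr yb.e_rr
    ((13 / 64) * yb.rr) (congrArg (fun y : ℝ => y * yb.rr) zQMa_223338299392_0)
    ((1 / 2 : ℝ) + (13 / 64) * yb.rr) rfl
    (yb.rr * ((1 / 2 : ℝ) + (13 / 64) * yb.rr)) rfl
    ((1 : ℝ) + yb.rr * ((1 / 2 : ℝ) + (13 / 64) * yb.rr)) rfl
    (yb.Cu * ((1 : ℝ) + yb.rr * ((1 / 2 : ℝ) + (13 / 64) * yb.rr))) rfl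
    yb.CuN yb.e_CuN
    yb.fbt yb.e_fbt
    yb.XLt yb.e_XLt
    (7 : ℝ) zQMa_7696581394432_0
    (10 : ℝ) zQMa_10995116277760_0).2
    ((10 : ℝ)⁻¹) rfl
    yb.beta yb.e_beta
    ((v.h + (1 : ℝ)) * v.op1) rfl
    yb.b1 yb.e_b1
    pk.omr pk.e_omr
    pk.omp pk.e_omp
    ((1 / 2) * hgp) (congrArg (fun y : ℝ => y * hgp) zQMa_549755813888_0)
    ((1 : ℝ) - (1 / 2) * hgp) rfl
    ((1 : ℝ) - hgp) rfl).2
    (((1 : ℝ) - hgp)⁻¹) rfl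
    (((1 : ℝ) - (1 / 2) * hgp) * ((1 : ℝ) - hgp)⁻¹) rfl
    pk.lspf pk.e_lspf
    (v.tu2 * v5.Th) rfl
    ((2731 / 4096) * (v.tu2 * v5.Th)) (congrArg (fun y : ℝ => y * (v.tu2 * v5.Th)) zQMa_733097230336_0)
    ((1 : ℝ) - (2731 / 4096) * (v.tu2 * v5.Th)) rfl
    (v5.Th * ((1 : ℝ) - (2731 / 4096) * (v.tu2 * v5.Th))) rfl
    (lv.rplo * lv.rplo) rfl
    (v.u2 * (lv.rplo * lv.rplo)) rfl
    pk.E0 pk.e_E0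
    pk.lspa pk.e_lspa
    (pk.E0 + (1 : ℝ)) rfl
    (pk.lspa * (pk.E0 + (1 : ℝ))) rfl
    (pk.E0 - pk.lspa * (pk.E0 + (1 : ℝ))) rfl
    ((2731 / 8192) * (v.K * v.K)) (congrArg (fun y : ℝ => y * (v.K * v.K)) zQMa_366548615168_0)
    ((1 : ℝ) - (2731 / 8192) * (v.K * v.K)) rfl
    (v.nj2 * ((1 : ℝ) - (2731 / 8192) * (v.K * v.K))) rfl
    (pk.E0 - pk.lspa * (pk.E0 + (1 : ℝ)) + v.nj2 * ((1 : ℝ) - (2731 / 8192) * (v.K * v.K))) rfl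
    (pk.omr * (pk.E0 - pk.lspa * (pk.E0 + (1 : ℝ)) + v.nj2 * ((1 : ℝ) - (2731 / 8192) * (v.K * v.K)))) rfl
    (pk.omp * pk.omp) rfl
    ((1 : ℝ) + pk.omp * pk.omp) rfl).2
    (((1 : ℝ) + pk.omp * pk.omp)⁻¹) rfl
    pk.pe pk.e_pe
    ((1 : ℝ) - yb.yy) rfl
    pk.ye pk.e_ye
    ((1 : ℝ) - pk.lspa) rfl
  change 0 < (1 : ℝ) - pk.lspa at p_lspa
  obtain ⟨p_pe, s9⟩ := s8
  change 0 < pk.pe at p_pe
  obtain ⟨p_yy, s10⟩ := s9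
  change 0 < (1 : ℝ) - yb.yy at p_yy
  obtain ⟨p_XM, s11⟩ := (((((s10
    (yb.CuN * G4) rfl
    (yb.CuN * G4 * srcx) rfl).2
    (v.op1⁻¹) rfl
    cl.FXt cl.e_FXt
    y1 e_y1
    (v.t * y1) rfl
    ((1 / 2) * (v.t * y1)) (congrArg (fun y : ℝ => y * (v.t * y1)) zQMa_549755813888_0)
    ((1 : ℝ) - (1 / 2) * (v.t * y1)) rfl
    (y1 * ((1 : ℝ) - (1 / 2) * (v.t * y1))) rfl
    cl.S1 cl.e_S1
    (v.u * v.n) rfl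
    (v.u * v.n * (v.h + (1 : ℝ))) rfl
    (v.u * v.n * (v.h + (1 : ℝ)) * v.j) rfl
    cl.a4 cl.e_a4
    (cl.S1 + cl.a4) rfl
    (cl.S1 * cl.a4) rfl
    (v.t * (cl.S1 * cl.a4)) rfl
    cl.S4 cl.e_S4
    cl.Dh cl.e_Dh
    ((3 / 8) * v.D) (congrArg (fun y : ℝ => y * v.D) zQMa_412316860416_0)
    ((1 / 2 : ℝ) - (3 / 8) * v.D) rfl
    (cl.Dh * ((1 / 2 : ℝ) - (3 / 8) * v.D)) rfl
    ((1 : ℝ) * (cl.Dh * ((1 / 2 : ℝ) - (3 / 8) * v.D))) rfl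
    cl.a5 cl.e_a5
    (cl.S4 + cl.a5) rfl
    (cl.S4 * cl.a5) rfl
    (v.t * (cl.S4 * cl.a5)) rfl
    cl.S5 cl.e_S5
    (v.u * yb.eN) rfl
    (v.u * yb.eN * v.op1⁻¹) rfl
    cl.a6 cl.e_a6
    (cl.S5 + cl.a6) rfl
    (cl.S5 * cl.a6) rfl
    (v.t * (cl.S5 * cl.a6)) rfl
    cl.S6 cl.e_S6
    cl.a7 cl.e_a7
    (cl.S6 - cl.a7) rfl
    (v.t * yb.b1) rfl
    ((1 : ℝ) + v.t * yb.b1) rfl).2
    (((1 : ℝ) + v.t * yb.b1)⁻¹) rfl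
    cl.S7 cl.e_S7
    (v.u * v.tu) rfl
    (v.u * v.tu * yb.eN) rfl
    (v.u * v.tu * yb.eN * yb.q0) rfl
    cl.a8 cl.e_a8
    (cl.S7 + cl.a8) rfl
    (cl.S7 * cl.a8) rfl
    (v.t * (cl.S7 * cl.a8)) rfl
    cl.S8 cl.e_S8
    (v.t * cl.S8) rfl
    cl.c1 cl.e_c1
    (yb.fbt * xa.XM) rfl
    (v.t * yb.XLt) rfl
    (cl.FXt * (v.t * yb.XLt)) rfl
    (yb.fbt * xa.XM + cl.FXt * (v.t * yb.XLt)) rfl
    cl.rt cl.e_rt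
    (yb.fbt + cl.FXt) rfl
    cl.fm cl.e_fm
    (cl.rt * cl.c1) rfl
    (cl.S8 + cl.rt * cl.c1) rfl
    (cl.S8 + cl.rt * cl.c1 + cl.fm) rfl
    cl.Bm cl.e_Bm
    ((1 / 1024) * (1 : ℝ)) (congrArg (fun y : ℝ => y * (1 : ℝ)) zQMa_1073741824_0)
    (cl.Bm - (1 / 1024) * (1 : ℝ)) rfl
    yb.m1 yb.e_m1
    (yb.m1 + (2 : ℝ)) rfl
    (2 * yb.beta) (congrArg (fun y : ℝ => y * yb.beta) zQMa_2199023255552_0)
    (yb.m1 + (2 : ℝ) - 2 * yb.beta) rfl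
    ((v.h + (1 : ℝ)) * (yb.m1 + (2 : ℝ) - 2 * yb.beta)) rfl
    (yb.m1 * (2 * yb.beta)) rfl
    (yb.m1 * (2 * yb.beta) + (1 : ℝ)) rfl).2
    ((yb.m1 * (2 * yb.beta) + (1 : ℝ))⁻¹) rfl
    ((v.h + (1 : ℝ)) * (yb.m1 + (2 : ℝ) - 2 * yb.beta) * (yb.m1 * (2 * yb.beta) + (1 : ℝ))⁻¹) rfl
    (xa.AE * yb.fxe) rfl
    ((1 / 2) * v2.lm) (congrArg (fun y : ℝ => y * v2.lm) zQMa_549755813888_0)
    (v.K + (1 / 2) * v2.lm) rfl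
    (xa.AE * yb.fxe * (v.K + (1 / 2) * v2.lm)) rfl
    (2 * (xa.AE * yb.fxe * (v.K + (1 / 2) * v2.lm))) (congrArg (fun y : ℝ => y * (xa.AE * yb.fxe * (v.K + (1 / 2) * v2.lm))) zQMa_2199023255552_0)
    (yb.src + 2 * (xa.AE * yb.fxe * (v.K + (1 / 2) * v2.lm))) rfl
    (2 * (yb.src + 2 * (xa.AE * yb.fxe * (v.K + (1 / 2) * v2.lm)))) (congrArg (fun y : ℝ => y * (yb.src + 2 * (xa.AE * yb.fxe * (v.K + (1 / 2) * v2.lm)))) zQMa_2199023255552_0)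
    (2 * (yb.src + 2 * (xa.AE * yb.fxe * (v.K + (1 / 2) * v2.lm))) * yb.NN) rfl
    (v.tu * yb.eN) rfl
    (v.op1 - v.tu * yb.eN) rfl).2
    ((v.op1 - v.tu * yb.eN)⁻¹) rfl
    (2 * (yb.src + 2 * (xa.AE * yb.fxe * (v.K + (1 / 2) * v2.lm))) * yb.NN * (v.op1 - v.tu * yb.eN)⁻¹) rfl
    yb.V yb.e_V
    ((1 : ℝ) * v.nj * ((1 : ℝ) * v.nj)) rfl
    (13 : ℝ) zQMa_14293651161088_0
    ((13 : ℝ) * (10 : ℝ)⁻¹) rfl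
    ((1 : ℝ) * v.nj * ((1 : ℝ) * v.nj) * ((13 : ℝ) * (10 : ℝ)⁻¹)) rfl
    (S * S) rfl
    (25 * (S * S)) (congrArg (fun y : ℝ => y * (S * S)) zQMa_27487790694400_0)
    yb.C2 yb.e_C2
    yb.gr yb.e_gr
    (2 * v.c0 - v.t) rfl
    yb.Gt yb.e_Gt
    ((1 : ℝ) * v.u) rfl
    yb.au yb.e_au
    (v.op1 * yb.fxe) rfl
    (v.op1 * yb.fxe * xa.iG4) rfl
    yb.inner yb.e_inner
    (v.tu * yb.eN + (2 : ℝ)) rfl
    yb.ezs yb.e_ezs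
    (yb.C2 * yb.gr) rfl
    (yb.NN * yb.ezs) rfl
    (yb.au * yb.inner) rfl
    (yb.NN * yb.ezs * (yb.au * yb.inner)) rfl
    yb.Rg0 yb.e_Rg0
    ((1 / 2) * (v.tu * yb.eN)) (congrArg (fun y : ℝ => y * (v.tu * yb.eN)) zQMa_549755813888_0)
    ((1 : ℝ) + (1 / 2) * (v.tu * yb.eN)) rfl
    (yb.NN * ((1 : ℝ) + (1 / 2) * (v.tu * yb.eN))) rfl
    (v.t * v.om1) rfl
    (v.t * v.om1 * v2.bsum) rfl
    (v.op1 * v.aQ) rfl).2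
    ((v.op1 * v.aQ)⁻¹) rfl
    (v.t * v.om1 * v2.bsum * (v.op1 * v.aQ)⁻¹) rfl
    (yb.NN * ((1 : ℝ) + (1 / 2) * (v.tu * yb.eN)) * (v.t * v.om1 * v2.bsum * (v.op1 * v.aQ)⁻¹)) rfl
    yb.Rh yb.e_Rh
    (v2.lm * yb.Rg0) rfl
    ((1 : ℝ) - v2.lm) rfl
    (v.u2 * yb.Rh) rfl
    (((1 : ℝ) - v2.lm) * (v.u2 * yb.Rh)) rfl
    (yb.C2 * (((1 : ℝ) - v2.lm) * (v.u2 * yb.Rh))) rfl
    yb.Rg yb.e_Rg
  change 0 < (1 : ℝ) - xa.XM at p_XM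
  obtain ⟨p_QX, s12⟩ := s11
  change 0 < (1 : ℝ) - xa.QX at p_QX
  obtain ⟨p_e2, s13⟩ := s12
    (2 * (v.tu2 * yb.epd)) (congrArg (fun y : ℝ => y * (v.tu2 * yb.epd)) zQMa_2199023255552_0)
    (v.aQ - 2 * (v.tu2 * yb.epd)) rfl
  change 0 < v.aQ - 2 * (v.tu2 * yb.epd) at p_e2
  obtain ⟨p_rl, s14⟩ := s13
  change 0 < yb.rl at p_rl
  obtain ⟨p_hgp, s15⟩ := s14
    ((1 / 2 : ℝ) - hgp) rfl
  change 0 < (1 / 2 : ℝ) - hgp at p_hgp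
  obtain ⟨p_l1, s16⟩ := s15
    ((5 / 8) * (1 : ℝ)) (congrArg (fun y : ℝ => y * (1 : ℝ)) zQMa_687194767360_0)
    ((5 / 8) * (1 : ℝ) - xa.l1) rfl
  change 0 < (5 / 8) * (1 : ℝ) - xa.l1 at p_l1
  obtain ⟨p_a0, s17⟩ := s16
    ((11 / 32) * (1 : ℝ)) (congrArg (fun y : ℝ => y * (1 : ℝ)) zQMa_377957122048_0)
    ((11 / 32) * (1 : ℝ) - xa.a0) rfl
  change 0 < (11 / 32) * (1 : ℝ) - xa.a0 at p_a0
  obtain ⟨p_S, s18⟩ := s17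
  change 0 < v.op1 - v.tu * yb.eN at p_S
  obtain ⟨p_zp, s19⟩ := s18
  change 0 < (1 : ℝ) - yb.zp at p_zp
  obtain ⟨p_rr, s20⟩ := s19
    ((5 / 8) * (1 : ℝ) - yb.rr) rfl
  change 0 < (5 / 8) * (1 : ℝ) - yb.rr at p_rr
  obtain ⟨p_V, s21⟩ := s20
  change 0 < yb.V at p_V
  obtain ⟨p_B, s22⟩ := s21
  change 0 < cl.Bm - (1 / 1024) * (1 : ℝ) at p_B
  obtain ⟨p_Rg, s23⟩ := s22
  change 0 < yb.Rg at p_Rg
  obtain ⟨p_Rh, s24⟩ := s23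
  change 0 < yb.Rh at p_Rh
  have hQ := qb_s G f lv.e_rhi e_q e_th
  have hq := hQ.le
  have hQp := qb_p G f p_rplo.le lv.e_rphi e_qp e_thp
  have hqp := hQp.le
  have hq0 : 0 < q := lt_of_lt_of_le (by rw [G.q_eq]; exact G.q0) hq
  have hcc : cc ≤ Real.cos (v.e * (Qk κ (shf κ τ)).arg) := cc_q (arg_x G v5 hsc e_w e_x) e_cc p_xq
  have hgR := gR_GD G.e0 G.κ0 G.s0 b hQ hcc G.h1_eq p_o2 p_W e_g
  have hγ := gam_g G.e0 G.κ0 G.s0 hgR e_ga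
  have hccp : ccp ≤ Real.cos (v.e * (Qk κ (shf κ (shf κ τ))).arg) := cc_q (arg_xp G v3 v5 hsc e_w e_x e_xp) e_ccp p_xqp
  have hgRp := gR_GD G.e0 G.κ0 (shf_re' G.κ0 G.s0) b' hQp hccp (G.hp_eq v3) p_o2p p_Wp e_gp
  have hγp := gam_g G.e0 G.κ0 (shf_re' G.κ0 G.s0) hgRp e_gap
  have hoo := oo_sharp8 G.κ0 G.s0 hQ (Qre0 G) hsc.ee (x_eq G v5 hsc e_w e_x) e_cu e_xe e_o2u e_ooo
  have hn1 : ‖1 + qq v.e κ (shf κ τ)‖ ≤ Q1 := by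
    rw [e_Q1]; exact n1_sharp8 G.e0 G.κ0 G.s0 hq hoo (hg_le G hγ e_hg)
  have hlx : 1 * lsx = v.h1t * lsf * ga := by rw [e_lsx, one_mul]
  have fr := fr_g G hγ hq hq0 e_hg e_lsf p_hg e_Qb e_ls (hsc.al0 G) hlx hn1
  have hgu : 1 * gu = gap * S := by rw [e_gu]; ring
  obtain ⟨lf0, Ex, hφ⟩ := ph_slM G v2 hsc he2 (by norm_num) (by norm_num) (by norm_num) e_phux e_Ei e_Eh
  have as8 : As8 xa yb := ⟨p_XM, p_QX, p_e2, p_rl, p_l1, p_a0, p_S, p_zp, p_rr, p_V, p_Rg, p_Rh⟩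
  exact far_Cl G D hsc hA0 hA as8 fr hgu hγp hφ pk f p_rplo e_hgp p_hgp p_lspa p_pe p_yy cl e_srcx e_srcs
    (mul_one v.t) G.t0 (by linear_combination v.t * e_y1 - pk.ye * e_r) p_B

theorem far_QMa1 {κ : ℝ} {τ : ℂ} {R w : ℝ} {v : B1} (D : PtE (7 * 10⁻¹) v.e κ τ R w)
    (G : Geo κ (shf κ τ) v) (v2 : B2 v) (v3 : B3 v) (v5 : V5 v) {l1 : Lg v.D} {l2 : Lg v.D2}
    (lv : LV v l1 l2) (he2 : 2 ≤ v.e) {S z de : ℝ}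
    (hde0 : 0 < de) (hde : de = v.t * z * S) (hu : v.u = z * de) (hz0 : 0 < z)
    (hee : v.e * (de * de) = 1)
    (h : RAs Pool.Agent.helper71.FJ.Crt.QMa.prog1 [S, v.t, z, v.n]) :
    FarPt v.e κ (1 - Real.sinh κ / 1024) w (2 * AQ v.e v.K * Real.sinh κ ^ 2) R
      (RE v.e κ (w * R)) τ := by
  obtain ⟨tz, e_tz⟩ : ∃ zz : ℝ, zz = v.t * z := ⟨_, rfl⟩
  have hde' : de = tz * S := by rw [e_tz]; exact hde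
  obtain ⟨z2, e_z2⟩ : ∃ zz : ℝ, zz = z * z := ⟨_, rfl⟩
  obtain ⟨r, e_r⟩ : ∃ zz : ℝ, zz = v.t * z2 := ⟨_, rfl⟩
  obtain ⟨eps, e_eps⟩ : ∃ zz : ℝ, zz = de * de := ⟨_, rfl⟩
  obtain ⟨tr, e_tr⟩ : ∃ zz : ℝ, zz = v.t * r := ⟨_, rfl⟩
  obtain ⟨q, e_q⟩ : ∃ zz : ℝ, zz = Real.exp (-(r * lv.rlo)) := ⟨_, rfl⟩
  obtain ⟨th, e_th⟩ : ∃ zz : ℝ, zz = q * (r * lv.er) := ⟨_, rfl⟩
  obtain ⟨qp, e_qp⟩ : ∃ zz : ℝ, zz = Real.exp (-(r * lv.rplo)) := ⟨_, rfl⟩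
  obtain ⟨thp, e_thp⟩ : ∃ zz : ℝ, zz = qp * (r * lv.erp) := ⟨_, rfl⟩
  obtain ⟨wv, e_w⟩ : ∃ zz : ℝ, zz = (1 : ℝ) * (S * (v.c0 + v.R))⁻¹ := ⟨_, rfl⟩
  obtain ⟨xv, e_x⟩ : ∃ zz : ℝ, zz = wv * wv * v5.sn := ⟨_, rfl⟩
  obtain ⟨cc, e_cc⟩ : ∃ zz : ℝ, zz = (1 : ℝ) - xv * ((1 / 2 : ℝ) - xv * ((22906492245 / 549755813888 : ℝ) - xv * ((381774871 / 274877906944 : ℝ) - xv * ((27269633 / 1099511627776 : ℝ) - xv * ((75749 / 274877906944 : ℝ) - xv * ((2295 / 1099511627776 : ℝ) - xv * (13 / 1099511627776 : ℝ))))))) := ⟨_, rfl⟩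
  obtain ⟨b⟩ := exGE q th cc v.h1
  obtain ⟨gv, e_g⟩ : ∃ zz : ℝ, zz = (1 / 2) * ((((1 : ℝ) - q) * b.q1 + 2 * th) * b.W⁻¹) := ⟨_, rfl⟩
  obtain ⟨ga, e_ga⟩ : ∃ zz : ℝ, zz = gv * (gv + (1 / 2 : ℝ))⁻¹ := ⟨_, rfl⟩
  obtain ⟨hg, e_hg⟩ : ∃ zz : ℝ, zz = v.h1 * ga := ⟨_, rfl⟩
  obtain ⟨lsf, e_lsf⟩ : ∃ zz : ℝ, zz = ((1 : ℝ) - (1 / 2) * hg) * ((1 : ℝ) - hg)⁻¹ := ⟨_, rfl⟩
  obtain ⟨Qb, e_Qb⟩ : ∃ zz : ℝ, zz = q * (hg + (1 : ℝ)) := ⟨_, rfl⟩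
  obtain ⟨lsx, e_lsx⟩ : ∃ zz : ℝ, zz = v.h1t * lsf * ga := ⟨_, rfl⟩
  obtain ⟨ls, e_ls⟩ : ∃ zz : ℝ, zz = hg * lsf := ⟨_, rfl⟩
  obtain ⟨xpv, e_xp⟩ : ∃ zz : ℝ, zz = xv * v.SQ⁻¹ := ⟨_, rfl⟩
  obtain ⟨ccp, e_ccp⟩ : ∃ zz : ℝ, zz = (1 : ℝ) - xpv * ((1 / 2 : ℝ) - xpv * ((22906492245 / 549755813888 : ℝ) - xpv * ((381774871 / 274877906944 : ℝ) - xpv * ((27269633 / 1099511627776 : ℝ) - xpv * ((75749 / 274877906944 : ℝ) - xpv * ((2295 / 1099511627776 : ℝ) - xpv * (13 / 1099511627776 : ℝ))))))) := ⟨_, rfl⟩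
  obtain ⟨b'⟩ := exGE qp thp ccp v3.hp
  obtain ⟨gpv, e_gp⟩ : ∃ zz : ℝ, zz = (1 / 2) * ((((1 : ℝ) - qp) * b'.q1 + 2 * thp) * b'.W⁻¹) := ⟨_, rfl⟩
  obtain ⟨gap, e_gap⟩ : ∃ zz : ℝ, zz = gpv * (gpv + (1 / 2 : ℝ))⁻¹ := ⟨_, rfl⟩
  obtain ⟨hgp, e_hgp⟩ : ∃ zz : ℝ, zz = v3.hp * gap := ⟨_, rfl⟩
  obtain ⟨gu, e_gu⟩ : ∃ zz : ℝ, zz = gap * S := ⟨_, rfl⟩
  obtain ⟨G4, e_G4⟩ : ∃ zz : ℝ, zz = 4 * S + (1 : ℝ) * v.nj := ⟨_, rfl⟩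
  obtain ⟨Ei, e_Ei⟩ : ∃ zz : ℝ, zz = 2 * eps + (1 : ℝ) := ⟨_, rfl⟩
  obtain ⟨Eh, e_Eh⟩ : ∃ zz : ℝ, zz = eps + (1 : ℝ) := ⟨_, rfl⟩
  obtain ⟨phux, e_phux⟩ : ∃ zz : ℝ, zz = (1 / 2) * (z * (1 * (S * v.nj) + 1 * v.t)) := ⟨_, rfl⟩
  obtain ⟨cu, e_cu⟩ : ∃ zz : ℝ, zz = (1 : ℝ) - xv * ((1 / 2 : ℝ) - xv * ((45812984491 / 1099511627776 : ℝ) - xv * ((1527099483 / 1099511627776 : ℝ) - xv * ((13634817 / 549755813888 : ℝ) - xv * ((302995 / 1099511627776 : ℝ) - xv * ((287 / 137438953472 : ℝ) - xv * ((3 / 274877906944 : ℝ) - xv * (1 / 1099511627776 : ℝ)))))))) := ⟨_, rfl⟩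
  obtain ⟨xe, e_xe⟩ : ∃ zz : ℝ, zz = xv * eps := ⟨_, rfl⟩
  obtain ⟨o2u, e_o2u⟩ : ∃ zz : ℝ, zz = q * q + (1 : ℝ) + 2 * (q * (cu + (43 / 128) * (xe * xe))) + 2 * th := ⟨_, rfl⟩
  obtain ⟨ooo, e_ooo⟩ : ∃ zz : ℝ, zz = Real.exp ((1 / 2) * Real.log (o2u + (1 / 128 : ℝ))) := ⟨_, rfl⟩
  obtain ⟨Q1, e_Q1⟩ : ∃ zz : ℝ, zz = ooo + q * hg := ⟨_, rfl⟩
  obtain ⟨xa⟩ := exKa v2 eps 1 S G4 Qb Q1 ls lsx phux Ei Eh
  obtain ⟨srcx, e_srcx⟩ : ∃ zz : ℝ, zz = v.om1 * ((1 / 2) * (r * v2.bsum * v.aQ⁻¹)) + xa.kl := ⟨_, rfl⟩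
  obtain ⟨srcs, e_srcs⟩ : ∃ zz : ℝ, zz = v.t * srcx := ⟨_, rfl⟩
  obtain ⟨yb⟩ := exKb (7 * 10⁻¹) xa tr gap gu srcs
  obtain ⟨pk⟩ := exPk v5 lv.rplo v3.hp hgp gu yb.yy
  obtain ⟨y1, e_y1⟩ : ∃ zz : ℝ, zz = z2 * pk.ye := ⟨_, rfl⟩
  obtain ⟨cl⟩ := exCl yb v.t 1 y1 srcx
  have hsc := sc_Ma hde' e_tz hu hee hde0 G.t0 hz0.le e_z2 e_r e_tr e_eps
  obtain ⟨hA0, hA⟩ := hA_Q G hsc e_G4
  have f := lv.f G hsc.hr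
  obtain ⟨p_xq, s0⟩ := (((((((((h
    (1 : ℝ) zQMa_1099511627776_0
    tz e_tz
    de hde'
    v.u hu
    z2 e_z2
    r e_r
    eps e_eps
    tr e_tr
    (1 / 2 : ℝ) zQMa_549755813888_0
    v.tu v.e_tu
    (v.tu * v.n) rfl
    v.h (v.e_h.trans (congrArg (fun y : ℝ => y * (v.tu * v.n)) zQMa_549755813888_0))
    v.u2 v.e_u2
    (v.h * v.h) rfl
    v.jm v.e_jm).2
    v.j v.e_j
    (v.h * v.j) rfl
    v.K (v.e_K.trans (congrArg (fun y : ℝ => y * (v.h * v.j)) zQMa_2199023255552_0))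
    (2 * v.j) (congrArg (fun y : ℝ => y * v.j) zQMa_2199023255552_0)
    v.c0 v.e_c0
    v.m v.e_m
    v.nj v.e_nj
    v.om v.e_om
    v.om1 v.e_om1
    v.op1 v.e_op1
    v.R v.e_R
    v.nj2 v.e_nj2
    v2.Y (v2.e_Y.trans (congrArg (fun y : ℝ => y * v.h) zQMa_10774999203840_0))
    ((341 / 8192) * v2.Y) (congrArg (fun y : ℝ => y * v2.Y) zQMa_45768245248_0)
    (1365 / 8192 : ℝ) zQMa_183207198720_0
    ((341 / 8192) * v2.Y + (1365 / 8192 : ℝ)) rfl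
    (v2.Y * ((341 / 8192) * v2.Y + (1365 / 8192 : ℝ))) rfl
    ((1 / 2 : ℝ) + v2.Y * ((341 / 8192) * v2.Y + (1365 / 8192 : ℝ))) rfl
    (v2.Y * ((1 / 2 : ℝ) + v2.Y * ((341 / 8192) * v2.Y + (1365 / 8192 : ℝ)))) rfl
    v2.pY v2.e_pY
    (v2.Y * v2.pY) rfl
    ((1 / 2) * (v2.Y * v2.pY)) (congrArg (fun y : ℝ => y * (v2.Y * v2.pY)) zQMa_549755813888_0)
    ((1 : ℝ) + (1 / 2) * (v2.Y * v2.pY)) rfl
    v2.Yp v2.e_Yp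
    (v.K * v.om) rfl
    (2 * v.c0) (congrArg (fun y : ℝ => y * v.c0) zQMa_2199023255552_0)
    (v.K * v.om + 2 * v.c0) rfl
    v.Dt v.e_Dt
    v.D v.e_D
    v.SQ v.e_SQ
    (v.K * v.K) rfl
    (2 * (v.K * v.K)) (congrArg (fun y : ℝ => y * (v.K * v.K)) zQMa_2199023255552_0)
    v.c2 v.e_c2
    (v.c0 * v.Dt) rfl
    v.rhat v.e_rhat).2
    v.LQ v.e_LQ
    ((1 / 2) * v.LQ) (congrArg (fun y : ℝ => y * v.LQ) zQMa_549755813888_0)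
    v.aQ v.e_aQ
    (3 : ℝ) zQMa_3298534883328_0).2
    ((3 : ℝ)⁻¹) rfl
    ((1 : ℝ) * (3 : ℝ)⁻¹) rfl
    (2 : ℝ) zQMa_2199023255552_0
    (v.D + (2 : ℝ)) rfl).2
    ((v.D + (2 : ℝ))⁻¹) rfl
    l1.zL l1.e_zL
    l1.zz l1.e_zz
    ((1 : ℝ) - l1.zL) rfl
    (l1.zz * ((1 : ℝ) * (3 : ℝ)⁻¹)) rfl
    ((1 : ℝ) + l1.zz * ((1 : ℝ) * (3 : ℝ)⁻¹)) rfl
    l1.Lv l1.e_Lv
    (l1.zz * l1.zz) rfl
    l1.eL (l1.e_eL.trans (congrArg (fun y : ℝ => y * (l1.zz * l1.zz)) zQMa_219915747328_0))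
    (v.Dt * l1.Lv) rfl
    lv.rlo (lv.e_rlo.trans (congrArg (fun y : ℝ => y * (v.Dt * l1.Lv)) zQMa_549755813888_0))
    (v.Dt * l1.eL) rfl
    lv.er (lv.e_er.trans (congrArg (fun y : ℝ => y * (v.Dt * l1.eL)) zQMa_549755813888_0))
    lv.rhi lv.e_rhi
    (v.c0 * v.rhat) rfl
    lv.D2R (lv.e_D2R.trans (congrArg (fun y : ℝ => y * (v.c0 * v.rhat)) zQMa_4398046511104_0))
    (v.c0 * v.R) rfl
    (v.c0 * v.R * v.rhat) rfl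
    v.D2 (v.e_D2.trans (congrArg (fun y : ℝ => y * (v.c0 * v.R * v.rhat)) zQMa_4398046511104_0))
    (v.D2 + (2 : ℝ)) rfl).2
    ((v.D2 + (2 : ℝ))⁻¹) rfl
    l2.zL l2.e_zL
    l2.zz l2.e_zz
    ((1 : ℝ) - l2.zL) rfl
    (l2.zz * ((1 : ℝ) * (3 : ℝ)⁻¹)) rfl
    ((1 : ℝ) + l2.zz * ((1 : ℝ) * (3 : ℝ)⁻¹)) rfl
    l2.Lv l2.e_Lv
    (l2.zz * l2.zz) rfl
    l2.eL (l2.e_eL.trans (congrArg (fun y : ℝ => y * (l2.zz * l2.zz)) zQMa_219915747328_0))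
    (lv.D2R * l2.Lv) rfl
    ((1 / 2) * (lv.D2R * l2.Lv)) (congrArg (fun y : ℝ => y * (lv.D2R * l2.Lv)) zQMa_549755813888_0)
    lv.rplo lv.e_rplo
    (lv.D2R * l2.eL) rfl
    ((1 / 2) * (lv.D2R * l2.eL)) (congrArg (fun y : ℝ => y * (lv.D2R * l2.eL)) zQMa_549755813888_0)
    lv.erp lv.e_erp
    lv.rphi lv.e_rphi
    (r * lv.rlo) rfl
    (-(r * lv.rlo)) rfl
    q e_q
    (r * lv.er) rfl
    th e_th
    (r * lv.rplo) rfl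
    (-(r * lv.rplo)) rfl
    qp e_qp
    (r * lv.erp) rfl
    thp e_thp
    (v.om * v.K) rfl
    (v.c0 + v.om * v.K) rfl).2
    v.ioK v.e_ioK
    v.h1t v.e_h1t
    (v.om1 * v.t) rfl
    v.h1 v.e_h1
    ((1 : ℝ) - v.u2) rfl
    v.f2 v.e_f2
    v.tu2 v.e_tu2
    ((1 : ℝ) - v.nj2) rfl
    v5.sn v5.e_sn
    (v.R * v.rhat) rfl).2
    (v.SQ⁻¹) rfl
    v5.R1 v5.e_R1
    (v.c0 + v5.R1) rfl
    v5.Qr v5.e_Qr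
    (v5.Qr * v5.Qr) rfl).2
    ((v5.Qr * v5.Qr)⁻¹) rfl
    v5.Th v5.e_Th
    (v.c0 + v.R) rfl
    (S * (v.c0 + v.R)) rfl).2
    ((S * (v.c0 + v.R))⁻¹) rfl
    wv e_w
    (wv * wv) rfl
    xv e_x
    (1263 / 128 : ℝ) zQMa_10849087389696_0
    ((1263 / 128 : ℝ) - xv) rfl
  change 0 < (1263 / 128 : ℝ) - xv at p_xq
  obtain ⟨p_o2, s1⟩ := (s0
    (13 / 1099511627776 : ℝ) zQMa_13_0
    (2295 / 1099511627776 : ℝ) zQMa_2295_0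
    (xv * (13 / 1099511627776 : ℝ)) rfl
    ((2295 / 1099511627776 : ℝ) - xv * (13 / 1099511627776 : ℝ)) rfl
    (75749 / 274877906944 : ℝ) zQMa_302996_0
    (xv * ((2295 / 1099511627776 : ℝ) - xv * (13 / 1099511627776 : ℝ))) rfl
    ((75749 / 274877906944 : ℝ) - xv * ((2295 / 1099511627776 : ℝ) - xv * (13 / 1099511627776 : ℝ))) rfl
    (27269633 / 1099511627776 : ℝ) zQMa_27269633_0
    (xv * ((75749 / 274877906944 : ℝ) - xv * ((2295 / 1099511627776 : ℝ) - xv * (13 / 1099511627776 : ℝ)))) rfl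
    ((27269633 / 1099511627776 : ℝ) - xv * ((75749 / 274877906944 : ℝ) - xv * ((2295 / 1099511627776 : ℝ) - xv * (13 / 1099511627776 : ℝ)))) rfl
    (381774871 / 274877906944 : ℝ) zQMa_1527099484_0
    (xv * ((27269633 / 1099511627776 : ℝ) - xv * ((75749 / 274877906944 : ℝ) - xv * ((2295 / 1099511627776 : ℝ) - xv * (13 / 1099511627776 : ℝ))))) rfl
    ((381774871 / 274877906944 : ℝ) - xv * ((27269633 / 1099511627776 : ℝ) - xv * ((75749 / 274877906944 : ℝ) - xv * ((2295 / 1099511627776 : ℝ) - xv * (13 / 1099511627776 : ℝ))))) rfl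
    (22906492245 / 549755813888 : ℝ) zQMa_45812984490_0
    (xv * ((381774871 / 274877906944 : ℝ) - xv * ((27269633 / 1099511627776 : ℝ) - xv * ((75749 / 274877906944 : ℝ) - xv * ((2295 / 1099511627776 : ℝ) - xv * (13 / 1099511627776 : ℝ)))))) rfl
    ((22906492245 / 549755813888 : ℝ) - xv * ((381774871 / 274877906944 : ℝ) - xv * ((27269633 / 1099511627776 : ℝ) - xv * ((75749 / 274877906944 : ℝ) - xv * ((2295 / 1099511627776 : ℝ) - xv * (13 / 1099511627776 : ℝ)))))) rfl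
    (xv * ((22906492245 / 549755813888 : ℝ) - xv * ((381774871 / 274877906944 : ℝ) - xv * ((27269633 / 1099511627776 : ℝ) - xv * ((75749 / 274877906944 : ℝ) - xv * ((2295 / 1099511627776 : ℝ) - xv * (13 / 1099511627776 : ℝ))))))) rfl
    ((1 / 2 : ℝ) - xv * ((22906492245 / 549755813888 : ℝ) - xv * ((381774871 / 274877906944 : ℝ) - xv * ((27269633 / 1099511627776 : ℝ) - xv * ((75749 / 274877906944 : ℝ) - xv * ((2295 / 1099511627776 : ℝ) - xv * (13 / 1099511627776 : ℝ))))))) rfl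
    (xv * ((1 / 2 : ℝ) - xv * ((22906492245 / 549755813888 : ℝ) - xv * ((381774871 / 274877906944 : ℝ) - xv * ((27269633 / 1099511627776 : ℝ) - xv * ((75749 / 274877906944 : ℝ) - xv * ((2295 / 1099511627776 : ℝ) - xv * (13 / 1099511627776 : ℝ)))))))) rfl
    cc e_cc
    b.q1 b.e_q1
    (q * q) rfl
    (q * q + (1 : ℝ)) rfl
    (q * cc) rfl
    (2 * (q * cc)) (congrArg (fun y : ℝ => y * (q * cc)) zQMa_2199023255552_0)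
    (q * q + (1 : ℝ) + 2 * (q * cc)) rfl
    (4 * th) (congrArg (fun y : ℝ => y * th) zQMa_4398046511104_0)
    b.o2 b.e_o2).2
    (b.q1⁻¹) rfl
    (b.o2 * b.q1⁻¹) rfl
    b.P1 b.e_P1
    (q * v.h1) rfl
    b.qh (b.e_qh.trans (congrArg (fun y : ℝ => y * (q * v.h1)) zQMa_549755813888_0))
    (b.qh * b.P1) rfl
    b.W b.e_W
  change 0 < b.o2 at p_o2
  obtain ⟨p_W, s2⟩ := s1
  change 0 < b.W at p_W
  obtain ⟨p_hg, s3⟩ := (((s2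
    ((1 : ℝ) - q) rfl
    (((1 : ℝ) - q) * b.q1) rfl
    (2 * th) (congrArg (fun y : ℝ => y * th) zQMa_2199023255552_0)
    (((1 : ℝ) - q) * b.q1 + 2 * th) rfl).2
    (b.W⁻¹) rfl
    ((((1 : ℝ) - q) * b.q1 + 2 * th) * b.W⁻¹) rfl
    gv (e_g.trans (congrArg (fun y : ℝ => y * ((((1 : ℝ) - q) * b.q1 + 2 * th) * b.W⁻¹)) zQMa_549755813888_0))
    (gv + (1 / 2 : ℝ)) rfl).2
    ((gv + (1 / 2 : ℝ))⁻¹) rfl
    ga e_ga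
    hg e_hg
    ((1 / 2) * hg) (congrArg (fun y : ℝ => y * hg) zQMa_549755813888_0)
    ((1 : ℝ) - (1 / 2) * hg) rfl
    ((1 : ℝ) - hg) rfl).2
    (((1 : ℝ) - hg)⁻¹) rfl
    lsf e_lsf
    (hg + (1 : ℝ)) rfl
    Qb e_Qb
    (v.h1t * lsf) rfl
    lsx e_lsx
    ls e_ls
  change 0 < (1 : ℝ) - hg at p_hg
  obtain ⟨p_rplo, s4⟩ := (s3
    (v.om1 * v.op1) rfl
    (v.c0 + v.t) rfl
    (v.om * v.c0) rfl
    (v.om * v.c0 * v.K) rfl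
    (2 * (v.om * v.c0 * v.K)) (congrArg (fun y : ℝ => y * (v.om * v.c0 * v.K)) zQMa_2199023255552_0)
    (v.c2 + 2 * (v.om * v.c0 * v.K)) rfl
    ((v.c0 + v.t) * (v.c2 + 2 * (v.om * v.c0 * v.K))) rfl).2
    (((v.c0 + v.t) * (v.c2 + 2 * (v.om * v.c0 * v.K)))⁻¹) rfl
    v3.hpt v3.e_hpt
    v3.hp v3.e_hp
  change 0 < lv.rplo at p_rplo
  obtain ⟨p_xqp, s5⟩ := s4
    xpv e_xp
    ((1263 / 128 : ℝ) - xpv) rfl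
  change 0 < (1263 / 128 : ℝ) - xpv at p_xqp
  obtain ⟨p_o2p, s6⟩ := (s5
    (xpv * (13 / 1099511627776 : ℝ)) rfl
    ((2295 / 1099511627776 : ℝ) - xpv * (13 / 1099511627776 : ℝ)) rfl
    (xpv * ((2295 / 1099511627776 : ℝ) - xpv * (13 / 1099511627776 : ℝ))) rfl
    ((75749 / 274877906944 : ℝ) - xpv * ((2295 / 1099511627776 : ℝ) - xpv * (13 / 1099511627776 : ℝ))) rfl
    (xpv * ((75749 / 274877906944 : ℝ) - xpv * ((2295 / 1099511627776 : ℝ) - xpv * (13 / 1099511627776 : ℝ)))) rfl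
    ((27269633 / 1099511627776 : ℝ) - xpv * ((75749 / 274877906944 : ℝ) - xpv * ((2295 / 1099511627776 : ℝ) - xpv * (13 / 1099511627776 : ℝ)))) rfl
    (xpv * ((27269633 / 1099511627776 : ℝ) - xpv * ((75749 / 274877906944 : ℝ) - xpv * ((2295 / 1099511627776 : ℝ) - xpv * (13 / 1099511627776 : ℝ))))) rfl
    ((381774871 / 274877906944 : ℝ) - xpv * ((27269633 / 1099511627776 : ℝ) - xpv * ((75749 / 274877906944 : ℝ) - xpv * ((2295 / 1099511627776 : ℝ) - xpv * (13 / 1099511627776 : ℝ))))) rfl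
    (xpv * ((381774871 / 274877906944 : ℝ) - xpv * ((27269633 / 1099511627776 : ℝ) - xpv * ((75749 / 274877906944 : ℝ) - xpv * ((2295 / 1099511627776 : ℝ) - xpv * (13 / 1099511627776 : ℝ)))))) rfl
    ((22906492245 / 549755813888 : ℝ) - xpv * ((381774871 / 274877906944 : ℝ) - xpv * ((27269633 / 1099511627776 : ℝ) - xpv * ((75749 / 274877906944 : ℝ) - xpv * ((2295 / 1099511627776 : ℝ) - xpv * (13 / 1099511627776 : ℝ)))))) rfl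
    (xpv * ((22906492245 / 549755813888 : ℝ) - xpv * ((381774871 / 274877906944 : ℝ) - xpv * ((27269633 / 1099511627776 : ℝ) - xpv * ((75749 / 274877906944 : ℝ) - xpv * ((2295 / 1099511627776 : ℝ) - xpv * (13 / 1099511627776 : ℝ))))))) rfl
    ((1 / 2 : ℝ) - xpv * ((22906492245 / 549755813888 : ℝ) - xpv * ((381774871 / 274877906944 : ℝ) - xpv * ((27269633 / 1099511627776 : ℝ) - xpv * ((75749 / 274877906944 : ℝ) - xpv * ((2295 / 1099511627776 : ℝ) - xpv * (13 / 1099511627776 : ℝ))))))) rfl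
    (xpv * ((1 / 2 : ℝ) - xpv * ((22906492245 / 549755813888 : ℝ) - xpv * ((381774871 / 274877906944 : ℝ) - xpv * ((27269633 / 1099511627776 : ℝ) - xpv * ((75749 / 274877906944 : ℝ) - xpv * ((2295 / 1099511627776 : ℝ) - xpv * (13 / 1099511627776 : ℝ)))))))) rfl
    ccp e_ccp
    b'.q1 b'.e_q1
    (qp * qp) rfl
    (qp * qp + (1 : ℝ)) rfl
    (qp * ccp) rfl
    (2 * (qp * ccp)) (congrArg (fun y : ℝ => y * (qp * ccp)) zQMa_2199023255552_0)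
    (qp * qp + (1 : ℝ) + 2 * (qp * ccp)) rfl
    (4 * thp) (congrArg (fun y : ℝ => y * thp) zQMa_4398046511104_0)
    b'.o2 b'.e_o2).2
    (b'.q1⁻¹) rfl
    (b'.o2 * b'.q1⁻¹) rfl
    b'.P1 b'.e_P1
    (qp * v3.hp) rfl
    b'.qh (b'.e_qh.trans (congrArg (fun y : ℝ => y * (qp * v3.hp)) zQMa_549755813888_0))
    (b'.qh * b'.P1) rfl
    b'.W b'.e_W
  change 0 < b'.o2 at p_o2p
  obtain ⟨p_Wp, s7⟩ := s6
  change 0 < b'.W at p_Wp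
  obtain ⟨p_lspa, s8⟩ := ((((((((((((((((s7
    ((1 : ℝ) - qp) rfl
    (((1 : ℝ) - qp) * b'.q1) rfl
    (2 * thp) (congrArg (fun y : ℝ => y * thp) zQMa_2199023255552_0)
    (((1 : ℝ) - qp) * b'.q1 + 2 * thp) rfl).2
    (b'.W⁻¹) rfl
    ((((1 : ℝ) - qp) * b'.q1 + 2 * thp) * b'.W⁻¹) rfl
    gpv (e_gp.trans (congrArg (fun y : ℝ => y * ((((1 : ℝ) - qp) * b'.q1 + 2 * thp) * b'.W⁻¹)) zQMa_549755813888_0))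
    (gpv + (1 / 2 : ℝ)) rfl).2
    ((gpv + (1 / 2 : ℝ))⁻¹) rfl
    gap e_gap
    hgp e_hgp
    gu e_gu
    (v.h + (1 : ℝ)) rfl).2
    v2.ih v2.e_ih
    (v.h * v2.ih) rfl
    v2.rh (v2.e_rh.trans (congrArg (fun y : ℝ => y * (v.h * v2.ih)) zQMa_2199023255552_0))
    v2.mi v2.e_mi
    v2.hm v2.e_hm
    v2.nih v2.e_nih
    (v2.nih * v2.mi) rfl
    v2.bsum v2.e_bsum
    ((209 / 1024) * v.j) (congrArg (fun y : ℝ => y * v.j) zQMa_224412041216_0)).2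
    (v2.Yp⁻¹) rfl
    v2.lm v2.e_lm
    (4 * S) (congrArg (fun y : ℝ => y * S) zQMa_4398046511104_0)
    ((1 : ℝ) * v.nj) rfl
    G4 e_G4).2
    xa.iG4 xa.e_iG4
    xa.alG xa.e_alG
    xa.AE xa.e_AE
    (xa.AE * v.op1) rfl
    xa.XeE xa.e_XeE
    (xa.alG * v.op1) rfl
    xa.XM xa.e_XM
    ((1 : ℝ) - xa.XM) rfl).2
    xa.iX xa.e_iX
    xa.QX xa.e_QX
    ((1 : ℝ) - xa.QX) rfl).2
    xa.iQX xa.e_iQX
    (2 * eps) (congrArg (fun y : ℝ => y * eps) zQMa_2199023255552_0)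
    Ei e_Ei
    Eh e_Eh
    (S * v.nj) rfl
    (1 * (S * v.nj)) (congrArg (fun y : ℝ => y * (S * v.nj)) zQMa_1099511627776_0)
    (1 * v.t) (congrArg (fun y : ℝ => y * v.t) zQMa_1099511627776_0)
    (1 * (S * v.nj) + 1 * v.t) rfl
    (z * (1 * (S * v.nj) + 1 * v.t)) rfl
    phux (e_phux.trans (congrArg (fun y : ℝ => y * (z * (1 * (S * v.nj) + 1 * v.t))) zQMa_549755813888_0))
    (v.h * v.nj) rfl
    ((1 : ℝ) - v.f2) rfl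
    (v.h * v.om) rfl
    (2 * (v.h * v.om)) (congrArg (fun y : ℝ => y * (v.h * v.om)) zQMa_2199023255552_0)
    ((1 : ℝ) - v.f2 - 2 * (v.h * v.om)) rfl
    (v.h * v.nj * (v.h * v.nj)) rfl
    xa.N1 xa.e_N1
    (xa.N1 + (1 : ℝ)) rfl
    xa.s (xa.e_s.trans (congrArg (fun y : ℝ => y * (xa.N1 + (1 : ℝ))) zQMa_549755813888_0))
    ((1 / 2) * v.R) (congrArg (fun y : ℝ => y * v.R) zQMa_549755813888_0)
    (v.j - (1 / 2) * v.R) rfl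
    (v.tu2 * ((1 : ℝ) - v.f2)) rfl
    (v.tu2 * ((1 : ℝ) - v.f2) * v.jm) rfl
    ((1 / 8) * (v.tu2 * ((1 : ℝ) - v.f2) * v.jm)) (congrArg (fun y : ℝ => y * (v.tu2 * ((1 : ℝ) - v.f2) * v.jm)) zQMa_137438953472_0)
    (v.j - (1 / 2) * v.R + (1 / 8) * (v.tu2 * ((1 : ℝ) - v.f2) * v.jm)) rfl
    xa.k0 xa.e_k0
    (1 / 1099511627776 : ℝ) zQMa_1_0
    (3 / 274877906944 : ℝ) zQMa_12_0
    (xv * (1 / 1099511627776 : ℝ)) rfl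
    ((3 / 274877906944 : ℝ) - xv * (1 / 1099511627776 : ℝ)) rfl
    (287 / 137438953472 : ℝ) zQMa_2296_0
    (xv * ((3 / 274877906944 : ℝ) - xv * (1 / 1099511627776 : ℝ))) rfl
    ((287 / 137438953472 : ℝ) - xv * ((3 / 274877906944 : ℝ) - xv * (1 / 1099511627776 : ℝ))) rfl
    (302995 / 1099511627776 : ℝ) zQMa_302995_0
    (xv * ((287 / 137438953472 : ℝ) - xv * ((3 / 274877906944 : ℝ) - xv * (1 / 1099511627776 : ℝ)))) rfl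
    ((302995 / 1099511627776 : ℝ) - xv * ((287 / 137438953472 : ℝ) - xv * ((3 / 274877906944 : ℝ) - xv * (1 / 1099511627776 : ℝ)))) rfl
    (13634817 / 549755813888 : ℝ) zQMa_27269634_0
    (xv * ((302995 / 1099511627776 : ℝ) - xv * ((287 / 137438953472 : ℝ) - xv * ((3 / 274877906944 : ℝ) - xv * (1 / 1099511627776 : ℝ))))) rfl
    ((13634817 / 549755813888 : ℝ) - xv * ((302995 / 1099511627776 : ℝ) - xv * ((287 / 137438953472 : ℝ) - xv * ((3 / 274877906944 : ℝ) - xv * (1 / 1099511627776 : ℝ))))) rfl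
    (1527099483 / 1099511627776 : ℝ) zQMa_1527099483_0
    (xv * ((13634817 / 549755813888 : ℝ) - xv * ((302995 / 1099511627776 : ℝ) - xv * ((287 / 137438953472 : ℝ) - xv * ((3 / 274877906944 : ℝ) - xv * (1 / 1099511627776 : ℝ)))))) rfl
    ((1527099483 / 1099511627776 : ℝ) - xv * ((13634817 / 549755813888 : ℝ) - xv * ((302995 / 1099511627776 : ℝ) - xv * ((287 / 137438953472 : ℝ) - xv * ((3 / 274877906944 : ℝ) - xv * (1 / 1099511627776 : ℝ)))))) rfl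
    (45812984491 / 1099511627776 : ℝ) zQMa_45812984491_0
    (xv * ((1527099483 / 1099511627776 : ℝ) - xv * ((13634817 / 549755813888 : ℝ) - xv * ((302995 / 1099511627776 : ℝ) - xv * ((287 / 137438953472 : ℝ) - xv * ((3 / 274877906944 : ℝ) - xv * (1 / 1099511627776 : ℝ))))))) rfl
    ((45812984491 / 1099511627776 : ℝ) - xv * ((1527099483 / 1099511627776 : ℝ) - xv * ((13634817 / 549755813888 : ℝ) - xv * ((302995 / 1099511627776 : ℝ) - xv * ((287 / 137438953472 : ℝ) - xv * ((3 / 274877906944 : ℝ) - xv * (1 / 1099511627776 : ℝ))))))) rfl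
    (xv * ((45812984491 / 1099511627776 : ℝ) - xv * ((1527099483 / 1099511627776 : ℝ) - xv * ((13634817 / 549755813888 : ℝ) - xv * ((302995 / 1099511627776 : ℝ) - xv * ((287 / 137438953472 : ℝ) - xv * ((3 / 274877906944 : ℝ) - xv * (1 / 1099511627776 : ℝ)))))))) rfl
    ((1 / 2 : ℝ) - xv * ((45812984491 / 1099511627776 : ℝ) - xv * ((1527099483 / 1099511627776 : ℝ) - xv * ((13634817 / 549755813888 : ℝ) - xv * ((302995 / 1099511627776 : ℝ) - xv * ((287 / 137438953472 : ℝ) - xv * ((3 / 274877906944 : ℝ) - xv * (1 / 1099511627776 : ℝ)))))))) rfl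
    (xv * ((1 / 2 : ℝ) - xv * ((45812984491 / 1099511627776 : ℝ) - xv * ((1527099483 / 1099511627776 : ℝ) - xv * ((13634817 / 549755813888 : ℝ) - xv * ((302995 / 1099511627776 : ℝ) - xv * ((287 / 137438953472 : ℝ) - xv * ((3 / 274877906944 : ℝ) - xv * (1 / 1099511627776 : ℝ))))))))) rfl
    cu e_cu
    xe e_xe
    (xe * xe) rfl
    ((43 / 128) * (xe * xe)) (congrArg (fun y : ℝ => y * (xe * xe)) zQMa_369367187456_0)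
    (cu + (43 / 128) * (xe * xe)) rfl
    (q * (cu + (43 / 128) * (xe * xe))) rfl
    (2 * (q * (cu + (43 / 128) * (xe * xe)))) (congrArg (fun y : ℝ => y * (q * (cu + (43 / 128) * (xe * xe)))) zQMa_2199023255552_0)
    (q * q + (1 : ℝ) + 2 * (q * (cu + (43 / 128) * (xe * xe)))) rfl
    o2u e_o2u
    (1 / 128 : ℝ) zQMa_8589934592_0
    (o2u + (1 / 128 : ℝ)) rfl).2
    (Real.log (o2u + (1 / 128 : ℝ))) rfl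
    ((1 / 2) * Real.log (o2u + (1 / 128 : ℝ))) (congrArg (fun y : ℝ => y * Real.log (o2u + (1 / 128 : ℝ))) zQMa_549755813888_0)
    ooo e_ooo
    (q * hg) rfl
    Q1 e_Q1
    (Q1 * xa.iX) rfl
    (Qb * xa.iQX) rfl
    (Q1 * xa.iX + Qb * xa.iQX) rfl
    (xa.XM * (Q1 * xa.iX + Qb * xa.iQX)) rfl
    (ls + xa.XM * (Q1 * xa.iX + Qb * xa.iQX)) rfl
    xa.a0 xa.e_a0
    (Q1 * xa.XM) rfl
    (Q1 * xa.XM * xa.iX) rfl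
    (ls + Q1 * xa.XM * xa.iX) rfl
    xa.l1 xa.e_l1
    ((13 / 64) * xa.l1) (congrArg (fun y : ℝ => y * xa.l1) zQMa_223338299392_0)
    ((1 / 2 : ℝ) + (13 / 64) * xa.l1) rfl
    (xa.l1 * ((1 / 2 : ℝ) + (13 / 64) * xa.l1)) rfl
    xa.Na xa.e_Na
    ((13 / 16) * xa.a0) (congrArg (fun y : ℝ => y * xa.a0) zQMa_893353197568_0)
    ((1 : ℝ) + (13 / 16) * xa.a0) rfl
    (xa.a0 * ((1 : ℝ) + (13 / 16) * xa.a0)) rfl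
    xa.Nb xa.e_Nb
    (v2.rh * v2.nih) rfl
    (v2.rh * v2.nih * Ei) rfl
    xa.rn xa.e_rn
    (xa.k0 * xa.Na) rfl
    (v.aQ + (1 / 2 : ℝ)) rfl
    (xa.rn * (v.aQ + (1 / 2 : ℝ))) rfl
    xa.ka xa.e_ka
    (v.aQ + (1 : ℝ)) rfl
    xa.kb xa.e_kb
    (Eh * (v.aQ + (1 : ℝ))) rfl
    (Eh * (v.aQ + (1 : ℝ)) * v2.nih) rfl
    xa.lfk xa.e_lfk
    (xa.ka * lsx) rfl
    (xa.lfk * phux) rfl
    xa.kl xa.e_kl
    (r * v2.bsum) rfl).2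
    (v.aQ⁻¹) rfl
    (r * v2.bsum * v.aQ⁻¹) rfl
    ((1 / 2) * (r * v2.bsum * v.aQ⁻¹)) (congrArg (fun y : ℝ => y * (r * v2.bsum * v.aQ⁻¹)) zQMa_549755813888_0)
    (v.om1 * ((1 / 2) * (r * v2.bsum * v.aQ⁻¹))) rfl
    srcx e_srcx
    srcs e_srcs
    yb.src yb.e_src
    (xa.ka * Q1) rfl
    (xa.ka * Q1 * xa.iX) rfl
    (xa.kb * Qb) rfl
    (xa.kb * Qb * xa.iQX) rfl
    yb.fxe yb.e_fxe
    (v.om1 * yb.src) rfl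
    (xa.XeE * yb.fxe) rfl
    yb.epd yb.e_epd
    (v.tu2 * yb.epd) rfl
    (v.tu2 * yb.epd * v.aQ⁻¹) rfl
    ((1 : ℝ) - v.tu2 * yb.epd * v.aQ⁻¹) rfl).2
    yb.NN yb.e_NN
    yb.eN yb.e_eN
    yb.d yb.e_d
    yb.eta yb.e_eta
    (yb.eta * v.aQ⁻¹) rfl
    ((1 : ℝ) - yb.eta * v.aQ⁻¹) rfl
    (v.rhat * ((1 : ℝ) - yb.eta * v.aQ⁻¹)) rfl
    yb.rl yb.e_rl).2
    yb.irl yb.e_irl
    yb.yy yb.e_yy
    (v.aQ - yb.eta) rfl).2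
    yb.q0 yb.e_q0
    yb.zp yb.e_zp
    ((1 / 2) * yb.zp) (congrArg (fun y : ℝ => y * yb.zp) zQMa_549755813888_0)
    ((1 : ℝ) - (1 / 2) * yb.zp) rfl
    ((1 : ℝ) - yb.zp) rfl).2
    (((1 : ℝ) - yb.zp)⁻¹) rfl
    yb.kzp yb.e_kzp
    (v.u * yb.q0) rfl
    (gu * yb.irl) rfl
    (gu * yb.irl * yb.kzp) rfl
    yb.Cu yb.e_Cu
    (tr * yb.eN) rfl
    (yb.q0 * (tr * yb.eN)) rfl
    (gap * yb.irl) rfl
    (gap * yb.irl * yb.kzp) rfl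
    (gap * yb.irl * yb.kzp * yb.d) rfl
    yb.rr yb.e_rr
    ((13 / 64) * yb.rr) (congrArg (fun y : ℝ => y * yb.rr) zQMa_223338299392_0)
    ((1 / 2 : ℝ) + (13 / 64) * yb.rr) rfl
    (yb.rr * ((1 / 2 : ℝ) + (13 / 64) * yb.rr)) rfl
    ((1 : ℝ) + yb.rr * ((1 / 2 : ℝ) + (13 / 64) * yb.rr)) rfl
    (yb.Cu * ((1 : ℝ) + yb.rr * ((1 / 2 : ℝ) + (13 / 64) * yb.rr))) rfl
    yb.CuN yb.e_CuN
    yb.fbt yb.e_fbt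
    yb.XLt yb.e_XLt
    (7 : ℝ) zQMa_7696581394432_0
    (10 : ℝ) zQMa_10995116277760_0).2
    ((10 : ℝ)⁻¹) rfl
    yb.beta yb.e_beta
    ((v.h + (1 : ℝ)) * v.op1) rfl
    yb.b1 yb.e_b1
    pk.omr pk.e_omr
    pk.omp pk.e_omp
    ((1 / 2) * hgp) (congrArg (fun y : ℝ => y * hgp) zQMa_549755813888_0)
    ((1 : ℝ) - (1 / 2) * hgp) rfl
    ((1 : ℝ) - hgp) rfl).2
    (((1 : ℝ) - hgp)⁻¹) rfl
    (((1 : ℝ) - (1 / 2) * hgp) * ((1 : ℝ) - hgp)⁻¹) rfl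
    pk.lspf pk.e_lspf
    (v.tu2 * v5.Th) rfl
    ((2731 / 4096) * (v.tu2 * v5.Th)) (congrArg (fun y : ℝ => y * (v.tu2 * v5.Th)) zQMa_733097230336_0)
    ((1 : ℝ) - (2731 / 4096) * (v.tu2 * v5.Th)) rfl
    (v5.Th * ((1 : ℝ) - (2731 / 4096) * (v.tu2 * v5.Th))) rfl
    (lv.rplo * lv.rplo) rfl
    (v.u2 * (lv.rplo * lv.rplo)) rfl
    pk.E0 pk.e_E0
    pk.lspa pk.e_lspa
    (pk.E0 + (1 : ℝ)) rfl
    (pk.lspa * (pk.E0 + (1 : ℝ))) rfl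
    (pk.E0 - pk.lspa * (pk.E0 + (1 : ℝ))) rfl
    ((2731 / 8192) * (v.K * v.K)) (congrArg (fun y : ℝ => y * (v.K * v.K)) zQMa_366548615168_0)
    ((1 : ℝ) - (2731 / 8192) * (v.K * v.K)) rfl
    (v.nj2 * ((1 : ℝ) - (2731 / 8192) * (v.K * v.K))) rfl
    (pk.E0 - pk.lspa * (pk.E0 + (1 : ℝ)) + v.nj2 * ((1 : ℝ) - (2731 / 8192) * (v.K * v.K))) rfl
    (pk.omr * (pk.E0 - pk.lspa * (pk.E0 + (1 : ℝ)) + v.nj2 * ((1 : ℝ) - (2731 / 8192) * (v.K * v.K)))) rfl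
    (pk.omp * pk.omp) rfl
    ((1 : ℝ) + pk.omp * pk.omp) rfl).2
    (((1 : ℝ) + pk.omp * pk.omp)⁻¹) rfl
    pk.pe pk.e_pe
    ((1 : ℝ) - yb.yy) rfl
    pk.ye pk.e_ye
    ((1 : ℝ) - pk.lspa) rfl
  change 0 < (1 : ℝ) - pk.lspa at p_lspa
  obtain ⟨p_pe, s9⟩ := s8
  change 0 < pk.pe at p_pe
  obtain ⟨p_yy, s10⟩ := s9
  change 0 < (1 : ℝ) - yb.yy at p_yy
  obtain ⟨p_XM, s11⟩ := (((((s10
    (yb.CuN * G4) rfl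
    (yb.CuN * G4 * srcx) rfl).2
    (v.op1⁻¹) rfl
    cl.FXt cl.e_FXt
    y1 e_y1
    (v.t * y1) rfl
    ((1 / 2) * (v.t * y1)) (congrArg (fun y : ℝ => y * (v.t * y1)) zQMa_549755813888_0)
    ((1 : ℝ) - (1 / 2) * (v.t * y1)) rfl
    (y1 * ((1 : ℝ) - (1 / 2) * (v.t * y1))) rfl
    cl.S1 cl.e_S1
    (v.u * v.n) rfl
    (v.u * v.n * (v.h + (1 : ℝ))) rfl
    (v.u * v.n * (v.h + (1 : ℝ)) * v.j) rfl
    cl.a4 cl.e_a4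
    (cl.S1 + cl.a4) rfl
    (cl.S1 * cl.a4) rfl
    (v.t * (cl.S1 * cl.a4)) rfl
    cl.S4 cl.e_S4
    cl.Dh cl.e_Dh
    ((3 / 8) * v.D) (congrArg (fun y : ℝ => y * v.D) zQMa_412316860416_0)
    ((1 / 2 : ℝ) - (3 / 8) * v.D) rfl
    (cl.Dh * ((1 / 2 : ℝ) - (3 / 8) * v.D)) rfl
    ((1 : ℝ) * (cl.Dh * ((1 / 2 : ℝ) - (3 / 8) * v.D))) rfl
    cl.a5 cl.e_a5
    (cl.S4 + cl.a5) rfl
    (cl.S4 * cl.a5) rfl
    (v.t * (cl.S4 * cl.a5)) rfl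
    cl.S5 cl.e_S5
    (v.u * yb.eN) rfl
    (v.u * yb.eN * v.op1⁻¹) rfl
    cl.a6 cl.e_a6
    (cl.S5 + cl.a6) rfl
    (cl.S5 * cl.a6) rfl
    (v.t * (cl.S5 * cl.a6)) rfl
    cl.S6 cl.e_S6
    cl.a7 cl.e_a7
    (cl.S6 - cl.a7) rfl
    (v.t * yb.b1) rfl
    ((1 : ℝ) + v.t * yb.b1) rfl).2
    (((1 : ℝ) + v.t * yb.b1)⁻¹) rfl
    cl.S7 cl.e_S7
    (v.u * v.tu) rfl
    (v.u * v.tu * yb.eN) rfl
    (v.u * v.tu * yb.eN * yb.q0) rfl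
    cl.a8 cl.e_a8
    (cl.S7 + cl.a8) rfl
    (cl.S7 * cl.a8) rfl
    (v.t * (cl.S7 * cl.a8)) rfl
    cl.S8 cl.e_S8
    (v.t * cl.S8) rfl
    cl.c1 cl.e_c1
    (yb.fbt * xa.XM) rfl
    (v.t * yb.XLt) rfl
    (cl.FXt * (v.t * yb.XLt)) rfl
    (yb.fbt * xa.XM + cl.FXt * (v.t * yb.XLt)) rfl
    cl.rt cl.e_rt
    (yb.fbt + cl.FXt) rfl
    cl.fm cl.e_fm
    (cl.rt * cl.c1) rfl
    (cl.S8 + cl.rt * cl.c1) rfl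
    (cl.S8 + cl.rt * cl.c1 + cl.fm) rfl
    cl.Bm cl.e_Bm
    ((1 / 1024) * (1 : ℝ)) (congrArg (fun y : ℝ => y * (1 : ℝ)) zQMa_1073741824_0)
    (cl.Bm - (1 / 1024) * (1 : ℝ)) rfl
    yb.m1 yb.e_m1
    (yb.m1 + (2 : ℝ)) rfl
    (2 * yb.beta) (congrArg (fun y : ℝ => y * yb.beta) zQMa_2199023255552_0)
    (yb.m1 + (2 : ℝ) - 2 * yb.beta) rfl
    ((v.h + (1 : ℝ)) * (yb.m1 + (2 : ℝ) - 2 * yb.beta)) rfl
    (yb.m1 * (2 * yb.beta)) rfl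
    (yb.m1 * (2 * yb.beta) + (1 : ℝ)) rfl).2
    ((yb.m1 * (2 * yb.beta) + (1 : ℝ))⁻¹) rfl
    ((v.h + (1 : ℝ)) * (yb.m1 + (2 : ℝ) - 2 * yb.beta) * (yb.m1 * (2 * yb.beta) + (1 : ℝ))⁻¹) rfl
    (xa.AE * yb.fxe) rfl
    ((1 / 2) * v2.lm) (congrArg (fun y : ℝ => y * v2.lm) zQMa_549755813888_0)
    (v.K + (1 / 2) * v2.lm) rfl
    (xa.AE * yb.fxe * (v.K + (1 / 2) * v2.lm)) rfl
    (2 * (xa.AE * yb.fxe * (v.K + (1 / 2) * v2.lm))) (congrArg (fun y : ℝ => y * (xa.AE * yb.fxe * (v.K + (1 / 2) * v2.lm))) zQMa_2199023255552_0)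
    (yb.src + 2 * (xa.AE * yb.fxe * (v.K + (1 / 2) * v2.lm))) rfl
    (2 * (yb.src + 2 * (xa.AE * yb.fxe * (v.K + (1 / 2) * v2.lm)))) (congrArg (fun y : ℝ => y * (yb.src + 2 * (xa.AE * yb.fxe * (v.K + (1 / 2) * v2.lm)))) zQMa_2199023255552_0)
    (2 * (yb.src + 2 * (xa.AE * yb.fxe * (v.K + (1 / 2) * v2.lm))) * yb.NN) rfl
    (v.tu * yb.eN) rfl
    (v.op1 - v.tu * yb.eN) rfl).2
    ((v.op1 - v.tu * yb.eN)⁻¹) rfl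
    (2 * (yb.src + 2 * (xa.AE * yb.fxe * (v.K + (1 / 2) * v2.lm))) * yb.NN * (v.op1 - v.tu * yb.eN)⁻¹) rfl
    yb.V yb.e_V
    ((1 : ℝ) * v.nj * ((1 : ℝ) * v.nj)) rfl
    (13 : ℝ) zQMa_14293651161088_0
    ((13 : ℝ) * (10 : ℝ)⁻¹) rfl
    ((1 : ℝ) * v.nj * ((1 : ℝ) * v.nj) * ((13 : ℝ) * (10 : ℝ)⁻¹)) rfl
    (S * S) rfl
    (25 * (S * S)) (congrArg (fun y : ℝ => y * (S * S)) zQMa_27487790694400_0)
    yb.C2 yb.e_C2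
    yb.gr yb.e_gr
    (2 * v.c0 - v.t) rfl
    yb.Gt yb.e_Gt
    ((1 : ℝ) * v.u) rfl
    yb.au yb.e_au
    (v.op1 * yb.fxe) rfl
    (v.op1 * yb.fxe * xa.iG4) rfl
    yb.inner yb.e_inner
    (v.tu * yb.eN + (2 : ℝ)) rfl
    yb.ezs yb.e_ezs
    (yb.C2 * yb.gr) rfl
    (yb.NN * yb.ezs) rfl
    (yb.au * yb.inner) rfl
    (yb.NN * yb.ezs * (yb.au * yb.inner)) rfl
    yb.Rg0 yb.e_Rg0
    ((1 / 2) * (v.tu * yb.eN)) (congrArg (fun y : ℝ => y * (v.tu * yb.eN)) zQMa_549755813888_0)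
    ((1 : ℝ) + (1 / 2) * (v.tu * yb.eN)) rfl
    (yb.NN * ((1 : ℝ) + (1 / 2) * (v.tu * yb.eN))) rfl
    (v.t * v.om1) rfl
    (v.t * v.om1 * v2.bsum) rfl
    (v.op1 * v.aQ) rfl).2
    ((v.op1 * v.aQ)⁻¹) rfl
    (v.t * v.om1 * v2.bsum * (v.op1 * v.aQ)⁻¹) rfl
    (yb.NN * ((1 : ℝ) + (1 / 2) * (v.tu * yb.eN)) * (v.t * v.om1 * v2.bsum * (v.op1 * v.aQ)⁻¹)) rfl
    yb.Rh yb.e_Rh
    (v2.lm * yb.Rg0) rfl
    ((1 : ℝ) - v2.lm) rfl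
    (v.u2 * yb.Rh) rfl
    (((1 : ℝ) - v2.lm) * (v.u2 * yb.Rh)) rfl
    (yb.C2 * (((1 : ℝ) - v2.lm) * (v.u2 * yb.Rh))) rfl
    yb.Rg yb.e_Rg
  change 0 < (1 : ℝ) - xa.XM at p_XM
  obtain ⟨p_QX, s12⟩ := s11
  change 0 < (1 : ℝ) - xa.QX at p_QX
  obtain ⟨p_e2, s13⟩ := s12
    (2 * (v.tu2 * yb.epd)) (congrArg (fun y : ℝ => y * (v.tu2 * yb.epd)) zQMa_2199023255552_0)
    (v.aQ - 2 * (v.tu2 * yb.epd)) rfl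
  change 0 < v.aQ - 2 * (v.tu2 * yb.epd) at p_e2
  obtain ⟨p_rl, s14⟩ := s13
  change 0 < yb.rl at p_rl
  obtain ⟨p_hgp, s15⟩ := s14
    ((1 / 2 : ℝ) - hgp) rfl
  change 0 < (1 / 2 : ℝ) - hgp at p_hgp
  obtain ⟨p_l1, s16⟩ := s15
    ((5 / 8) * (1 : ℝ)) (congrArg (fun y : ℝ => y * (1 : ℝ)) zQMa_687194767360_0)
    ((5 / 8) * (1 : ℝ) - xa.l1) rfl
  change 0 < (5 / 8) * (1 : ℝ) - xa.l1 at p_l1
  obtain ⟨p_a0, s17⟩ := s16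
    ((11 / 32) * (1 : ℝ)) (congrArg (fun y : ℝ => y * (1 : ℝ)) zQMa_377957122048_0)
    ((11 / 32) * (1 : ℝ) - xa.a0) rfl
  change 0 < (11 / 32) * (1 : ℝ) - xa.a0 at p_a0
  obtain ⟨p_S, s18⟩ := s17
  change 0 < v.op1 - v.tu * yb.eN at p_S
  obtain ⟨p_zp, s19⟩ := s18
  change 0 < (1 : ℝ) - yb.zp at p_zp
  obtain ⟨p_rr, s20⟩ := s19
    ((5 / 8) * (1 : ℝ) - yb.rr) rfl
  change 0 < (5 / 8) * (1 : ℝ) - yb.rr at p_rr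
  obtain ⟨p_V, s21⟩ := s20
  change 0 < yb.V at p_V
  obtain ⟨p_B, s22⟩ := s21
  change 0 < cl.Bm - (1 / 1024) * (1 : ℝ) at p_B
  obtain ⟨p_Rg, s23⟩ := s22
  change 0 < yb.Rg at p_Rg
  obtain ⟨p_Rh, s24⟩ := s23
  change 0 < yb.Rh at p_Rh
  have hQ := qb_s G f lv.e_rhi e_q e_th
  have hq := hQ.le
  have hQp := qb_p G f p_rplo.le lv.e_rphi e_qp e_thp
  have hqp := hQp.le
  have hq0 : 0 < q := lt_of_lt_of_le (by rw [G.q_eq]; exact G.q0) hq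
  have hcc : cc ≤ Real.cos (v.e * (Qk κ (shf κ τ)).arg) := cc_q (arg_x G v5 hsc e_w e_x) e_cc p_xq
  have hgR := gR_GD G.e0 G.κ0 G.s0 b hQ hcc G.h1_eq p_o2 p_W e_g
  have hγ := gam_g G.e0 G.κ0 G.s0 hgR e_ga
  have hccp : ccp ≤ Real.cos (v.e * (Qk κ (shf κ (shf κ τ))).arg) := cc_q (arg_xp G v3 v5 hsc e_w e_x e_xp) e_ccp p_xqp
  have hgRp := gR_GD G.e0 G.κ0 (shf_re' G.κ0 G.s0) b' hQp hccp (G.hp_eq v3) p_o2p p_Wp e_gp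
  have hγp := gam_g G.e0 G.κ0 (shf_re' G.κ0 G.s0) hgRp e_gap
  have hoo := oo_sharp8 G.κ0 G.s0 hQ (Qre0 G) hsc.ee (x_eq G v5 hsc e_w e_x) e_cu e_xe e_o2u e_ooo
  have hn1 : ‖1 + qq v.e κ (shf κ τ)‖ ≤ Q1 := by
    rw [e_Q1]; exact n1_sharp8 G.e0 G.κ0 G.s0 hq hoo (hg_le G hγ e_hg)
  have hlx : 1 * lsx = v.h1t * lsf * ga := by rw [e_lsx, one_mul]
  have fr := fr_g G hγ hq hq0 e_hg e_lsf p_hg e_Qb e_ls (hsc.al0 G) hlx hn1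
  have hgu : 1 * gu = gap * S := by rw [e_gu]; ring
  obtain ⟨lf0, Ex, hφ⟩ := ph_slz G v2 hsc e_tz hde' hu hz0 he2 (by norm_num) (by norm_num) (by norm_num) e_phux e_Ei e_Eh
  have as8 : As8 xa yb := ⟨p_XM, p_QX, p_e2, p_rl, p_l1, p_a0, p_S, p_zp, p_rr, p_V, p_Rg, p_Rh⟩
  exact far_Cl G D hsc hA0 hA as8 fr hgu hγp hφ pk f p_rplo e_hgp p_hgp p_lspa p_pe p_yy cl e_srcx e_srcs
    (mul_one v.t) G.t0 (by linear_combination v.t * e_y1 - pk.ye * e_r) p_B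

theorem far_QMa2 {κ : ℝ} {τ : ℂ} {R w : ℝ} {v : B1} (D : PtE (7 * 10⁻¹) v.e κ τ R w)
    (G : Geo κ (shf κ τ) v) (v2 : B2 v) (v3 : B3 v) (v5 : V5 v) {l1 : Lg v.D} {l2 : Lg v.D2}
    (lv : LV v l1 l2) (he2 : 2 ≤ v.e) {S z de : ℝ}
    (hde0 : 0 < de) (hde : de = v.t * z * S) (hu : v.u = z * de) (hz0 : 0 < z)
    (hee : v.e * (de * de) = 1)
    (h : RAs Pool.Agent.helper71.FJ.Crt.QMa.prog2 [S, v.t, z, v.n]) :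
    FarPt v.e κ (1 - Real.sinh κ / 1024) w (2 * AQ v.e v.K * Real.sinh κ ^ 2) R
      (RE v.e κ (w * R)) τ := by
  obtain ⟨tz, e_tz⟩ : ∃ zz : ℝ, zz = v.t * z := ⟨_, rfl⟩
  have hde' : de = tz * S := by rw [e_tz]; exact hde
  obtain ⟨z2, e_z2⟩ : ∃ zz : ℝ, zz = z * z := ⟨_, rfl⟩
  obtain ⟨r, e_r⟩ : ∃ zz : ℝ, zz = v.t * z2 := ⟨_, rfl⟩
  obtain ⟨eps, e_eps⟩ : ∃ zz : ℝ, zz = de * de := ⟨_, rfl⟩
  obtain ⟨tr, e_tr⟩ : ∃ zz : ℝ, zz = v.t * r := ⟨_, rfl⟩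
  obtain ⟨q, e_q⟩ : ∃ zz : ℝ, zz = Real.exp (-(r * lv.rlo)) := ⟨_, rfl⟩
  obtain ⟨th, e_th⟩ : ∃ zz : ℝ, zz = q * (r * lv.er) := ⟨_, rfl⟩
  obtain ⟨qp, e_qp⟩ : ∃ zz : ℝ, zz = Real.exp (-(r * lv.rplo)) := ⟨_, rfl⟩
  obtain ⟨thp, e_thp⟩ : ∃ zz : ℝ, zz = qp * (r * lv.erp) := ⟨_, rfl⟩
  obtain ⟨wv, e_w⟩ : ∃ zz : ℝ, zz = (1 : ℝ) * (S * (v.c0 + v.R))⁻¹ := ⟨_, rfl⟩
  obtain ⟨xv, e_x⟩ : ∃ zz : ℝ, zz = wv * wv * v5.sn := ⟨_, rfl⟩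
  obtain ⟨cc, e_cc⟩ : ∃ zz : ℝ, zz = (1 : ℝ) - xv * ((1 / 2 : ℝ) - xv * ((22906492245 / 549755813888 : ℝ) - xv * ((381774871 / 274877906944 : ℝ) - xv * ((27269633 / 1099511627776 : ℝ) - xv * ((75749 / 274877906944 : ℝ) - xv * ((2295 / 1099511627776 : ℝ) - xv * (13 / 1099511627776 : ℝ))))))) := ⟨_, rfl⟩
  obtain ⟨b⟩ := exGE q th cc v.h1
  obtain ⟨gv, e_g⟩ : ∃ zz : ℝ, zz = (1 / 2) * ((((1 : ℝ) - q) * b.q1 + 2 * th) * b.W⁻¹) := ⟨_, rfl⟩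
  obtain ⟨ga, e_ga⟩ : ∃ zz : ℝ, zz = gv * (gv + (1 / 2 : ℝ))⁻¹ := ⟨_, rfl⟩
  obtain ⟨hg, e_hg⟩ : ∃ zz : ℝ, zz = v.h1 * ga := ⟨_, rfl⟩
  obtain ⟨lsf, e_lsf⟩ : ∃ zz : ℝ, zz = ((1 : ℝ) - (1 / 2) * hg) * ((1 : ℝ) - hg)⁻¹ := ⟨_, rfl⟩
  obtain ⟨Qb, e_Qb⟩ : ∃ zz : ℝ, zz = q * (hg + (1 : ℝ)) := ⟨_, rfl⟩
  obtain ⟨lsx, e_lsx⟩ : ∃ zz : ℝ, zz = v.h1t * lsf * ga := ⟨_, rfl⟩
  obtain ⟨ls, e_ls⟩ : ∃ zz : ℝ, zz = hg * lsf := ⟨_, rfl⟩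
  obtain ⟨xpv, e_xp⟩ : ∃ zz : ℝ, zz = xv * v.SQ⁻¹ := ⟨_, rfl⟩
  obtain ⟨ccp, e_ccp⟩ : ∃ zz : ℝ, zz = (1 : ℝ) - xpv * ((1 / 2 : ℝ) - xpv * ((22906492245 / 549755813888 : ℝ) - xpv * ((381774871 / 274877906944 : ℝ) - xpv * ((27269633 / 1099511627776 : ℝ) - xpv * ((75749 / 274877906944 : ℝ) - xpv * ((2295 / 1099511627776 : ℝ) - xpv * (13 / 1099511627776 : ℝ))))))) := ⟨_, rfl⟩
  obtain ⟨b'⟩ := exGE qp thp ccp v3.hp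
  obtain ⟨gpv, e_gp⟩ : ∃ zz : ℝ, zz = (1 / 2) * ((((1 : ℝ) - qp) * b'.q1 + 2 * thp) * b'.W⁻¹) := ⟨_, rfl⟩
  obtain ⟨gap, e_gap⟩ : ∃ zz : ℝ, zz = gpv * (gpv + (1 / 2 : ℝ))⁻¹ := ⟨_, rfl⟩
  obtain ⟨hgp, e_hgp⟩ : ∃ zz : ℝ, zz = v3.hp * gap := ⟨_, rfl⟩
  obtain ⟨gu, e_gu⟩ : ∃ zz : ℝ, zz = gap * S := ⟨_, rfl⟩
  obtain ⟨G4, e_G4⟩ : ∃ zz : ℝ, zz = 4 * S + (1 : ℝ) * v.nj := ⟨_, rfl⟩
  obtain ⟨Ei, e_Ei⟩ : ∃ zz : ℝ, zz = 2 * eps + (1 : ℝ) := ⟨_, rfl⟩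
  obtain ⟨Eh, e_Eh⟩ : ∃ zz : ℝ, zz = eps + (1 : ℝ) := ⟨_, rfl⟩
  obtain ⟨phux, e_phux⟩ : ∃ zz : ℝ, zz = (1 / 2) * (z * (2 * (S * v.nj) + (1 / 2) * v.t)) := ⟨_, rfl⟩
  obtain ⟨cu, e_cu⟩ : ∃ zz : ℝ, zz = (1 : ℝ) - xv * ((1 / 2 : ℝ) - xv * ((45812984491 / 1099511627776 : ℝ) - xv * ((1527099483 / 1099511627776 : ℝ) - xv * ((13634817 / 549755813888 : ℝ) - xv * ((302995 / 1099511627776 : ℝ) - xv * ((287 / 137438953472 : ℝ) - xv * ((3 / 274877906944 : ℝ) - xv * (1 / 1099511627776 : ℝ)))))))) := ⟨_, rfl⟩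
  obtain ⟨xe, e_xe⟩ : ∃ zz : ℝ, zz = xv * eps := ⟨_, rfl⟩
  obtain ⟨o2u, e_o2u⟩ : ∃ zz : ℝ, zz = q * q + (1 : ℝ) + 2 * (q * (cu + (43 / 128) * (xe * xe))) + 2 * th := ⟨_, rfl⟩
  obtain ⟨ooo, e_ooo⟩ : ∃ zz : ℝ, zz = Real.exp ((1 / 2) * Real.log (o2u + (1 / 128 : ℝ))) := ⟨_, rfl⟩
  obtain ⟨Q1, e_Q1⟩ : ∃ zz : ℝ, zz = ooo + q * hg := ⟨_, rfl⟩
  obtain ⟨xa⟩ := exKa v2 eps 1 S G4 Qb Q1 ls lsx phux Ei Eh
  obtain ⟨srcx, e_srcx⟩ : ∃ zz : ℝ, zz = v.om1 * ((1 / 2) * (r * v2.bsum * v.aQ⁻¹)) + xa.kl := ⟨_, rfl⟩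
  obtain ⟨srcs, e_srcs⟩ : ∃ zz : ℝ, zz = v.t * srcx := ⟨_, rfl⟩
  obtain ⟨yb⟩ := exKb (7 * 10⁻¹) xa tr gap gu srcs
  obtain ⟨pk⟩ := exPk v5 lv.rplo v3.hp hgp gu yb.yy
  obtain ⟨y1, e_y1⟩ : ∃ zz : ℝ, zz = z2 * pk.ye := ⟨_, rfl⟩
  obtain ⟨cl⟩ := exCl yb v.t 1 y1 srcx
  have hsc := sc_Ma hde' e_tz hu hee hde0 G.t0 hz0.le e_z2 e_r e_tr e_eps
  obtain ⟨hA0, hA⟩ := hA_Q G hsc e_G4
  have f := lv.f G hsc.hr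
  obtain ⟨p_xq, s0⟩ := (((((((((h
    (1 : ℝ) zQMa_1099511627776_0
    tz e_tz
    de hde'
    v.u hu
    z2 e_z2
    r e_r
    eps e_eps
    tr e_tr
    (1 / 2 : ℝ) zQMa_549755813888_0
    v.tu v.e_tu
    (v.tu * v.n) rfl
    v.h (v.e_h.trans (congrArg (fun y : ℝ => y * (v.tu * v.n)) zQMa_549755813888_0))
    v.u2 v.e_u2
    (v.h * v.h) rfl
    v.jm v.e_jm).2
    v.j v.e_j
    (v.h * v.j) rfl
    v.K (v.e_K.trans (congrArg (fun y : ℝ => y * (v.h * v.j)) zQMa_2199023255552_0))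
    (2 * v.j) (congrArg (fun y : ℝ => y * v.j) zQMa_2199023255552_0)
    v.c0 v.e_c0
    v.m v.e_m
    v.nj v.e_nj
    v.om v.e_om
    v.om1 v.e_om1
    v.op1 v.e_op1
    v.R v.e_R
    v.nj2 v.e_nj2
    v2.Y (v2.e_Y.trans (congrArg (fun y : ℝ => y * v.h) zQMa_10774999203840_0))
    ((341 / 8192) * v2.Y) (congrArg (fun y : ℝ => y * v2.Y) zQMa_45768245248_0)
    (1365 / 8192 : ℝ) zQMa_183207198720_0
    ((341 / 8192) * v2.Y + (1365 / 8192 : ℝ)) rfl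
    (v2.Y * ((341 / 8192) * v2.Y + (1365 / 8192 : ℝ))) rfl
    ((1 / 2 : ℝ) + v2.Y * ((341 / 8192) * v2.Y + (1365 / 8192 : ℝ))) rfl
    (v2.Y * ((1 / 2 : ℝ) + v2.Y * ((341 / 8192) * v2.Y + (1365 / 8192 : ℝ)))) rfl
    v2.pY v2.e_pY
    (v2.Y * v2.pY) rfl
    ((1 / 2) * (v2.Y * v2.pY)) (congrArg (fun y : ℝ => y * (v2.Y * v2.pY)) zQMa_549755813888_0)
    ((1 : ℝ) + (1 / 2) * (v2.Y * v2.pY)) rfl
    v2.Yp v2.e_Yp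
    (v.K * v.om) rfl
    (2 * v.c0) (congrArg (fun y : ℝ => y * v.c0) zQMa_2199023255552_0)
    (v.K * v.om + 2 * v.c0) rfl
    v.Dt v.e_Dt
    v.D v.e_D
    v.SQ v.e_SQ
    (v.K * v.K) rfl
    (2 * (v.K * v.K)) (congrArg (fun y : ℝ => y * (v.K * v.K)) zQMa_2199023255552_0)
    v.c2 v.e_c2
    (v.c0 * v.Dt) rfl
    v.rhat v.e_rhat).2
    v.LQ v.e_LQ
    ((1 / 2) * v.LQ) (congrArg (fun y : ℝ => y * v.LQ) zQMa_549755813888_0)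
    v.aQ v.e_aQ
    (3 : ℝ) zQMa_3298534883328_0).2
    ((3 : ℝ)⁻¹) rfl
    ((1 : ℝ) * (3 : ℝ)⁻¹) rfl
    (2 : ℝ) zQMa_2199023255552_0
    (v.D + (2 : ℝ)) rfl).2
    ((v.D + (2 : ℝ))⁻¹) rfl
    l1.zL l1.e_zL
    l1.zz l1.e_zz
    ((1 : ℝ) - l1.zL) rfl
    (l1.zz * ((1 : ℝ) * (3 : ℝ)⁻¹)) rfl
    ((1 : ℝ) + l1.zz * ((1 : ℝ) * (3 : ℝ)⁻¹)) rfl
    l1.Lv l1.e_Lv
    (l1.zz * l1.zz) rfl
    l1.eL (l1.e_eL.trans (congrArg (fun y : ℝ => y * (l1.zz * l1.zz)) zQMa_219915747328_0))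
    (v.Dt * l1.Lv) rfl
    lv.rlo (lv.e_rlo.trans (congrArg (fun y : ℝ => y * (v.Dt * l1.Lv)) zQMa_549755813888_0))
    (v.Dt * l1.eL) rfl
    lv.er (lv.e_er.trans (congrArg (fun y : ℝ => y * (v.Dt * l1.eL)) zQMa_549755813888_0))
    lv.rhi lv.e_rhi
    (v.c0 * v.rhat) rfl
    lv.D2R (lv.e_D2R.trans (congrArg (fun y : ℝ => y * (v.c0 * v.rhat)) zQMa_4398046511104_0))
    (v.c0 * v.R) rfl
    (v.c0 * v.R * v.rhat) rfl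
    v.D2 (v.e_D2.trans (congrArg (fun y : ℝ => y * (v.c0 * v.R * v.rhat)) zQMa_4398046511104_0))
    (v.D2 + (2 : ℝ)) rfl).2
    ((v.D2 + (2 : ℝ))⁻¹) rfl
    l2.zL l2.e_zL
    l2.zz l2.e_zz
    ((1 : ℝ) - l2.zL) rfl
    (l2.zz * ((1 : ℝ) * (3 : ℝ)⁻¹)) rfl
    ((1 : ℝ) + l2.zz * ((1 : ℝ) * (3 : ℝ)⁻¹)) rfl
    l2.Lv l2.e_Lv
    (l2.zz * l2.zz) rfl
    l2.eL (l2.e_eL.trans (congrArg (fun y : ℝ => y * (l2.zz * l2.zz)) zQMa_219915747328_0))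
    (lv.D2R * l2.Lv) rfl
    ((1 / 2) * (lv.D2R * l2.Lv)) (congrArg (fun y : ℝ => y * (lv.D2R * l2.Lv)) zQMa_549755813888_0)
    lv.rplo lv.e_rplo
    (lv.D2R * l2.eL) rfl
    ((1 / 2) * (lv.D2R * l2.eL)) (congrArg (fun y : ℝ => y * (lv.D2R * l2.eL)) zQMa_549755813888_0)
    lv.erp lv.e_erp
    lv.rphi lv.e_rphi
    (r * lv.rlo) rfl
    (-(r * lv.rlo)) rfl
    q e_q
    (r * lv.er) rfl
    th e_th
    (r * lv.rplo) rfl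
    (-(r * lv.rplo)) rfl
    qp e_qp
    (r * lv.erp) rfl
    thp e_thp
    (v.om * v.K) rfl
    (v.c0 + v.om * v.K) rfl).2
    v.ioK v.e_ioK
    v.h1t v.e_h1t
    (v.om1 * v.t) rfl
    v.h1 v.e_h1
    ((1 : ℝ) - v.u2) rfl
    v.f2 v.e_f2
    v.tu2 v.e_tu2
    ((1 : ℝ) - v.nj2) rfl
    v5.sn v5.e_sn
    (v.R * v.rhat) rfl).2
    (v.SQ⁻¹) rfl
    v5.R1 v5.e_R1
    (v.c0 + v5.R1) rfl
    v5.Qr v5.e_Qr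
    (v5.Qr * v5.Qr) rfl).2
    ((v5.Qr * v5.Qr)⁻¹) rfl
    v5.Th v5.e_Th
    (v.c0 + v.R) rfl
    (S * (v.c0 + v.R)) rfl).2
    ((S * (v.c0 + v.R))⁻¹) rfl
    wv e_w
    (wv * wv) rfl
    xv e_x
    (1263 / 128 : ℝ) zQMa_10849087389696_0
    ((1263 / 128 : ℝ) - xv) rfl
  change 0 < (1263 / 128 : ℝ) - xv at p_xq
  obtain ⟨p_o2, s1⟩ := (s0
    (13 / 1099511627776 : ℝ) zQMa_13_0
    (2295 / 1099511627776 : ℝ) zQMa_2295_0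
    (xv * (13 / 1099511627776 : ℝ)) rfl
    ((2295 / 1099511627776 : ℝ) - xv * (13 / 1099511627776 : ℝ)) rfl
    (75749 / 274877906944 : ℝ) zQMa_302996_0
    (xv * ((2295 / 1099511627776 : ℝ) - xv * (13 / 1099511627776 : ℝ))) rfl
    ((75749 / 274877906944 : ℝ) - xv * ((2295 / 1099511627776 : ℝ) - xv * (13 / 1099511627776 : ℝ))) rfl
    (27269633 / 1099511627776 : ℝ) zQMa_27269633_0
    (xv * ((75749 / 274877906944 : ℝ) - xv * ((2295 / 1099511627776 : ℝ) - xv * (13 / 1099511627776 : ℝ)))) rfl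
    ((27269633 / 1099511627776 : ℝ) - xv * ((75749 / 274877906944 : ℝ) - xv * ((2295 / 1099511627776 : ℝ) - xv * (13 / 1099511627776 : ℝ)))) rfl
    (381774871 / 274877906944 : ℝ) zQMa_1527099484_0
    (xv * ((27269633 / 1099511627776 : ℝ) - xv * ((75749 / 274877906944 : ℝ) - xv * ((2295 / 1099511627776 : ℝ) - xv * (13 / 1099511627776 : ℝ))))) rfl
    ((381774871 / 274877906944 : ℝ) - xv * ((27269633 / 1099511627776 : ℝ) - xv * ((75749 / 274877906944 : ℝ) - xv * ((2295 / 1099511627776 : ℝ) - xv * (13 / 1099511627776 : ℝ))))) rfl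
    (22906492245 / 549755813888 : ℝ) zQMa_45812984490_0
    (xv * ((381774871 / 274877906944 : ℝ) - xv * ((27269633 / 1099511627776 : ℝ) - xv * ((75749 / 274877906944 : ℝ) - xv * ((2295 / 1099511627776 : ℝ) - xv * (13 / 1099511627776 : ℝ)))))) rfl
    ((22906492245 / 549755813888 : ℝ) - xv * ((381774871 / 274877906944 : ℝ) - xv * ((27269633 / 1099511627776 : ℝ) - xv * ((75749 / 274877906944 : ℝ) - xv * ((2295 / 1099511627776 : ℝ) - xv * (13 / 1099511627776 : ℝ)))))) rfl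
    (xv * ((22906492245 / 549755813888 : ℝ) - xv * ((381774871 / 274877906944 : ℝ) - xv * ((27269633 / 1099511627776 : ℝ) - xv * ((75749 / 274877906944 : ℝ) - xv * ((2295 / 1099511627776 : ℝ) - xv * (13 / 1099511627776 : ℝ))))))) rfl
    ((1 / 2 : ℝ) - xv * ((22906492245 / 549755813888 : ℝ) - xv * ((381774871 / 274877906944 : ℝ) - xv * ((27269633 / 1099511627776 : ℝ) - xv * ((75749 / 274877906944 : ℝ) - xv * ((2295 / 1099511627776 : ℝ) - xv * (13 / 1099511627776 : ℝ))))))) rfl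
    (xv * ((1 / 2 : ℝ) - xv * ((22906492245 / 549755813888 : ℝ) - xv * ((381774871 / 274877906944 : ℝ) - xv * ((27269633 / 1099511627776 : ℝ) - xv * ((75749 / 274877906944 : ℝ) - xv * ((2295 / 1099511627776 : ℝ) - xv * (13 / 1099511627776 : ℝ)))))))) rfl
    cc e_cc
    b.q1 b.e_q1
    (q * q) rfl
    (q * q + (1 : ℝ)) rfl
    (q * cc) rfl
    (2 * (q * cc)) (congrArg (fun y : ℝ => y * (q * cc)) zQMa_2199023255552_0)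
    (q * q + (1 : ℝ) + 2 * (q * cc)) rfl
    (4 * th) (congrArg (fun y : ℝ => y * th) zQMa_4398046511104_0)
    b.o2 b.e_o2).2
    (b.q1⁻¹) rfl
    (b.o2 * b.q1⁻¹) rfl
    b.P1 b.e_P1
    (q * v.h1) rfl
    b.qh (b.e_qh.trans (congrArg (fun y : ℝ => y * (q * v.h1)) zQMa_549755813888_0))
    (b.qh * b.P1) rfl
    b.W b.e_W
  change 0 < b.o2 at p_o2
  obtain ⟨p_W, s2⟩ := s1
  change 0 < b.W at p_W
  obtain ⟨p_hg, s3⟩ := (((s2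
    ((1 : ℝ) - q) rfl
    (((1 : ℝ) - q) * b.q1) rfl
    (2 * th) (congrArg (fun y : ℝ => y * th) zQMa_2199023255552_0)
    (((1 : ℝ) - q) * b.q1 + 2 * th) rfl).2
    (b.W⁻¹) rfl
    ((((1 : ℝ) - q) * b.q1 + 2 * th) * b.W⁻¹) rfl
    gv (e_g.trans (congrArg (fun y : ℝ => y * ((((1 : ℝ) - q) * b.q1 + 2 * th) * b.W⁻¹)) zQMa_549755813888_0))
    (gv + (1 / 2 : ℝ)) rfl).2
    ((gv + (1 / 2 : ℝ))⁻¹) rfl
    ga e_ga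
    hg e_hg
    ((1 / 2) * hg) (congrArg (fun y : ℝ => y * hg) zQMa_549755813888_0)
    ((1 : ℝ) - (1 / 2) * hg) rfl
    ((1 : ℝ) - hg) rfl).2
    (((1 : ℝ) - hg)⁻¹) rfl
    lsf e_lsf
    (hg + (1 : ℝ)) rfl
    Qb e_Qb
    (v.h1t * lsf) rfl
    lsx e_lsx
    ls e_ls
  change 0 < (1 : ℝ) - hg at p_hg
  obtain ⟨p_rplo, s4⟩ := (s3
    (v.om1 * v.op1) rfl
    (v.c0 + v.t) rfl
    (v.om * v.c0) rfl
    (v.om * v.c0 * v.K) rfl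
    (2 * (v.om * v.c0 * v.K)) (congrArg (fun y : ℝ => y * (v.om * v.c0 * v.K)) zQMa_2199023255552_0)
    (v.c2 + 2 * (v.om * v.c0 * v.K)) rfl
    ((v.c0 + v.t) * (v.c2 + 2 * (v.om * v.c0 * v.K))) rfl).2
    (((v.c0 + v.t) * (v.c2 + 2 * (v.om * v.c0 * v.K)))⁻¹) rfl
    v3.hpt v3.e_hpt
    v3.hp v3.e_hp
  change 0 < lv.rplo at p_rplo
  obtain ⟨p_xqp, s5⟩ := s4
    xpv e_xp
    ((1263 / 128 : ℝ) - xpv) rfl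
  change 0 < (1263 / 128 : ℝ) - xpv at p_xqp
  obtain ⟨p_o2p, s6⟩ := (s5
    (xpv * (13 / 1099511627776 : ℝ)) rfl
    ((2295 / 1099511627776 : ℝ) - xpv * (13 / 1099511627776 : ℝ)) rfl
    (xpv * ((2295 / 1099511627776 : ℝ) - xpv * (13 / 1099511627776 : ℝ))) rfl
    ((75749 / 274877906944 : ℝ) - xpv * ((2295 / 1099511627776 : ℝ) - xpv * (13 / 1099511627776 : ℝ))) rfl
    (xpv * ((75749 / 274877906944 : ℝ) - xpv * ((2295 / 1099511627776 : ℝ) - xpv * (13 / 1099511627776 : ℝ)))) rfl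
    ((27269633 / 1099511627776 : ℝ) - xpv * ((75749 / 274877906944 : ℝ) - xpv * ((2295 / 1099511627776 : ℝ) - xpv * (13 / 1099511627776 : ℝ)))) rfl
    (xpv * ((27269633 / 1099511627776 : ℝ) - xpv * ((75749 / 274877906944 : ℝ) - xpv * ((2295 / 1099511627776 : ℝ) - xpv * (13 / 1099511627776 : ℝ))))) rfl
    ((381774871 / 274877906944 : ℝ) - xpv * ((27269633 / 1099511627776 : ℝ) - xpv * ((75749 / 274877906944 : ℝ) - xpv * ((2295 / 1099511627776 : ℝ) - xpv * (13 / 1099511627776 : ℝ))))) rfl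
    (xpv * ((381774871 / 274877906944 : ℝ) - xpv * ((27269633 / 1099511627776 : ℝ) - xpv * ((75749 / 274877906944 : ℝ) - xpv * ((2295 / 1099511627776 : ℝ) - xpv * (13 / 1099511627776 : ℝ)))))) rfl
    ((22906492245 / 549755813888 : ℝ) - xpv * ((381774871 / 274877906944 : ℝ) - xpv * ((27269633 / 1099511627776 : ℝ) - xpv * ((75749 / 274877906944 : ℝ) - xpv * ((2295 / 1099511627776 : ℝ) - xpv * (13 / 1099511627776 : ℝ)))))) rfl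
    (xpv * ((22906492245 / 549755813888 : ℝ) - xpv * ((381774871 / 274877906944 : ℝ) - xpv * ((27269633 / 1099511627776 : ℝ) - xpv * ((75749 / 274877906944 : ℝ) - xpv * ((2295 / 1099511627776 : ℝ) - xpv * (13 / 1099511627776 : ℝ))))))) rfl
    ((1 / 2 : ℝ) - xpv * ((22906492245 / 549755813888 : ℝ) - xpv * ((381774871 / 274877906944 : ℝ) - xpv * ((27269633 / 1099511627776 : ℝ) - xpv * ((75749 / 274877906944 : ℝ) - xpv * ((2295 / 1099511627776 : ℝ) - xpv * (13 / 1099511627776 : ℝ))))))) rfl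
    (xpv * ((1 / 2 : ℝ) - xpv * ((22906492245 / 549755813888 : ℝ) - xpv * ((381774871 / 274877906944 : ℝ) - xpv * ((27269633 / 1099511627776 : ℝ) - xpv * ((75749 / 274877906944 : ℝ) - xpv * ((2295 / 1099511627776 : ℝ) - xpv * (13 / 1099511627776 : ℝ)))))))) rfl
    ccp e_ccp
    b'.q1 b'.e_q1
    (qp * qp) rfl
    (qp * qp + (1 : ℝ)) rfl
    (qp * ccp) rfl
    (2 * (qp * ccp)) (congrArg (fun y : ℝ => y * (qp * ccp)) zQMa_2199023255552_0)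
    (qp * qp + (1 : ℝ) + 2 * (qp * ccp)) rfl
    (4 * thp) (congrArg (fun y : ℝ => y * thp) zQMa_4398046511104_0)
    b'.o2 b'.e_o2).2
    (b'.q1⁻¹) rfl
    (b'.o2 * b'.q1⁻¹) rfl
    b'.P1 b'.e_P1
    (qp * v3.hp) rfl
    b'.qh (b'.e_qh.trans (congrArg (fun y : ℝ => y * (qp * v3.hp)) zQMa_549755813888_0))
    (b'.qh * b'.P1) rfl
    b'.W b'.e_W
  change 0 < b'.o2 at p_o2p
  obtain ⟨p_Wp, s7⟩ := s6
  change 0 < b'.W at p_Wp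
  obtain ⟨p_lspa, s8⟩ := ((((((((((((((((s7
    ((1 : ℝ) - qp) rfl
    (((1 : ℝ) - qp) * b'.q1) rfl
    (2 * thp) (congrArg (fun y : ℝ => y * thp) zQMa_2199023255552_0)
    (((1 : ℝ) - qp) * b'.q1 + 2 * thp) rfl).2
    (b'.W⁻¹) rfl
    ((((1 : ℝ) - qp) * b'.q1 + 2 * thp) * b'.W⁻¹) rfl
    gpv (e_gp.trans (congrArg (fun y : ℝ => y * ((((1 : ℝ) - qp) * b'.q1 + 2 * thp) * b'.W⁻¹)) zQMa_549755813888_0))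
    (gpv + (1 / 2 : ℝ)) rfl).2
    ((gpv + (1 / 2 : ℝ))⁻¹) rfl
    gap e_gap
    hgp e_hgp
    gu e_gu
    (v.h + (1 : ℝ)) rfl).2
    v2.ih v2.e_ih
    (v.h * v2.ih) rfl
    v2.rh (v2.e_rh.trans (congrArg (fun y : ℝ => y * (v.h * v2.ih)) zQMa_2199023255552_0))
    v2.mi v2.e_mi
    v2.hm v2.e_hm
    v2.nih v2.e_nih
    (v2.nih * v2.mi) rfl
    v2.bsum v2.e_bsum
    ((209 / 1024) * v.j) (congrArg (fun y : ℝ => y * v.j) zQMa_224412041216_0)).2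
    (v2.Yp⁻¹) rfl
    v2.lm v2.e_lm
    (4 * S) (congrArg (fun y : ℝ => y * S) zQMa_4398046511104_0)
    ((1 : ℝ) * v.nj) rfl
    G4 e_G4).2
    xa.iG4 xa.e_iG4
    xa.alG xa.e_alG
    xa.AE xa.e_AE
    (xa.AE * v.op1) rfl
    xa.XeE xa.e_XeE
    (xa.alG * v.op1) rfl
    xa.XM xa.e_XM
    ((1 : ℝ) - xa.XM) rfl).2
    xa.iX xa.e_iX
    xa.QX xa.e_QX
    ((1 : ℝ) - xa.QX) rfl).2
    xa.iQX xa.e_iQX
    (2 * eps) (congrArg (fun y : ℝ => y * eps) zQMa_2199023255552_0)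
    Ei e_Ei
    Eh e_Eh
    (S * v.nj) rfl
    (2 * (S * v.nj)) (congrArg (fun y : ℝ => y * (S * v.nj)) zQMa_2199023255552_0)
    ((1 / 2) * v.t) (congrArg (fun y : ℝ => y * v.t) zQMa_549755813888_0)
    (2 * (S * v.nj) + (1 / 2) * v.t) rfl
    (z * (2 * (S * v.nj) + (1 / 2) * v.t)) rfl
    phux (e_phux.trans (congrArg (fun y : ℝ => y * (z * (2 * (S * v.nj) + (1 / 2) * v.t))) zQMa_549755813888_0))
    (v.h * v.nj) rfl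
    ((1 : ℝ) - v.f2) rfl
    (v.h * v.om) rfl
    (2 * (v.h * v.om)) (congrArg (fun y : ℝ => y * (v.h * v.om)) zQMa_2199023255552_0)
    ((1 : ℝ) - v.f2 - 2 * (v.h * v.om)) rfl
    (v.h * v.nj * (v.h * v.nj)) rfl
    xa.N1 xa.e_N1
    (xa.N1 + (1 : ℝ)) rfl
    xa.s (xa.e_s.trans (congrArg (fun y : ℝ => y * (xa.N1 + (1 : ℝ))) zQMa_549755813888_0))
    ((1 / 2) * v.R) (congrArg (fun y : ℝ => y * v.R) zQMa_549755813888_0)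
    (v.j - (1 / 2) * v.R) rfl
    (v.tu2 * ((1 : ℝ) - v.f2)) rfl
    (v.tu2 * ((1 : ℝ) - v.f2) * v.jm) rfl
    ((1 / 8) * (v.tu2 * ((1 : ℝ) - v.f2) * v.jm)) (congrArg (fun y : ℝ => y * (v.tu2 * ((1 : ℝ) - v.f2) * v.jm)) zQMa_137438953472_0)
    (v.j - (1 / 2) * v.R + (1 / 8) * (v.tu2 * ((1 : ℝ) - v.f2) * v.jm)) rfl
    xa.k0 xa.e_k0
    (1 / 1099511627776 : ℝ) zQMa_1_0
    (3 / 274877906944 : ℝ) zQMa_12_0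
    (xv * (1 / 1099511627776 : ℝ)) rfl
    ((3 / 274877906944 : ℝ) - xv * (1 / 1099511627776 : ℝ)) rfl
    (287 / 137438953472 : ℝ) zQMa_2296_0
    (xv * ((3 / 274877906944 : ℝ) - xv * (1 / 1099511627776 : ℝ))) rfl
    ((287 / 137438953472 : ℝ) - xv * ((3 / 274877906944 : ℝ) - xv * (1 / 1099511627776 : ℝ))) rfl
    (302995 / 1099511627776 : ℝ) zQMa_302995_0
    (xv * ((287 / 137438953472 : ℝ) - xv * ((3 / 274877906944 : ℝ) - xv * (1 / 1099511627776 : ℝ)))) rfl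
    ((302995 / 1099511627776 : ℝ) - xv * ((287 / 137438953472 : ℝ) - xv * ((3 / 274877906944 : ℝ) - xv * (1 / 1099511627776 : ℝ)))) rfl
    (13634817 / 549755813888 : ℝ) zQMa_27269634_0
    (xv * ((302995 / 1099511627776 : ℝ) - xv * ((287 / 137438953472 : ℝ) - xv * ((3 / 274877906944 : ℝ) - xv * (1 / 1099511627776 : ℝ))))) rfl
    ((13634817 / 549755813888 : ℝ) - xv * ((302995 / 1099511627776 : ℝ) - xv * ((287 / 137438953472 : ℝ) - xv * ((3 / 274877906944 : ℝ) - xv * (1 / 1099511627776 : ℝ))))) rfl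
    (1527099483 / 1099511627776 : ℝ) zQMa_1527099483_0
    (xv * ((13634817 / 549755813888 : ℝ) - xv * ((302995 / 1099511627776 : ℝ) - xv * ((287 / 137438953472 : ℝ) - xv * ((3 / 274877906944 : ℝ) - xv * (1 / 1099511627776 : ℝ)))))) rfl
    ((1527099483 / 1099511627776 : ℝ) - xv * ((13634817 / 549755813888 : ℝ) - xv * ((302995 / 1099511627776 : ℝ) - xv * ((287 / 137438953472 : ℝ) - xv * ((3 / 274877906944 : ℝ) - xv * (1 / 1099511627776 : ℝ)))))) rfl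
    (45812984491 / 1099511627776 : ℝ) zQMa_45812984491_0
    (xv * ((1527099483 / 1099511627776 : ℝ) - xv * ((13634817 / 549755813888 : ℝ) - xv * ((302995 / 1099511627776 : ℝ) - xv * ((287 / 137438953472 : ℝ) - xv * ((3 / 274877906944 : ℝ) - xv * (1 / 1099511627776 : ℝ))))))) rfl
    ((45812984491 / 1099511627776 : ℝ) - xv * ((1527099483 / 1099511627776 : ℝ) - xv * ((13634817 / 549755813888 : ℝ) - xv * ((302995 / 1099511627776 : ℝ) - xv * ((287 / 137438953472 : ℝ) - xv * ((3 / 274877906944 : ℝ) - xv * (1 / 1099511627776 : ℝ))))))) rfl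
    (xv * ((45812984491 / 1099511627776 : ℝ) - xv * ((1527099483 / 1099511627776 : ℝ) - xv * ((13634817 / 549755813888 : ℝ) - xv * ((302995 / 1099511627776 : ℝ) - xv * ((287 / 137438953472 : ℝ) - xv * ((3 / 274877906944 : ℝ) - xv * (1 / 1099511627776 : ℝ)))))))) rfl
    ((1 / 2 : ℝ) - xv * ((45812984491 / 1099511627776 : ℝ) - xv * ((1527099483 / 1099511627776 : ℝ) - xv * ((13634817 / 549755813888 : ℝ) - xv * ((302995 / 1099511627776 : ℝ) - xv * ((287 / 137438953472 : ℝ) - xv * ((3 / 274877906944 : ℝ) - xv * (1 / 1099511627776 : ℝ)))))))) rfl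
    (xv * ((1 / 2 : ℝ) - xv * ((45812984491 / 1099511627776 : ℝ) - xv * ((1527099483 / 1099511627776 : ℝ) - xv * ((13634817 / 549755813888 : ℝ) - xv * ((302995 / 1099511627776 : ℝ) - xv * ((287 / 137438953472 : ℝ) - xv * ((3 / 274877906944 : ℝ) - xv * (1 / 1099511627776 : ℝ))))))))) rfl
    cu e_cu
    xe e_xe
    (xe * xe) rfl
    ((43 / 128) * (xe * xe)) (congrArg (fun y : ℝ => y * (xe * xe)) zQMa_369367187456_0)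
    (cu + (43 / 128) * (xe * xe)) rfl
    (q * (cu + (43 / 128) * (xe * xe))) rfl
    (2 * (q * (cu + (43 / 128) * (xe * xe)))) (congrArg (fun y : ℝ => y * (q * (cu + (43 / 128) * (xe * xe)))) zQMa_2199023255552_0)
    (q * q + (1 : ℝ) + 2 * (q * (cu + (43 / 128) * (xe * xe)))) rfl
    o2u e_o2u
    (1 / 128 : ℝ) zQMa_8589934592_0
    (o2u + (1 / 128 : ℝ)) rfl).2
    (Real.log (o2u + (1 / 128 : ℝ))) rfl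
    ((1 / 2) * Real.log (o2u + (1 / 128 : ℝ))) (congrArg (fun y : ℝ => y * Real.log (o2u + (1 / 128 : ℝ))) zQMa_549755813888_0)
    ooo e_ooo
    (q * hg) rfl
    Q1 e_Q1
    (Q1 * xa.iX) rfl
    (Qb * xa.iQX) rfl
    (Q1 * xa.iX + Qb * xa.iQX) rfl
    (xa.XM * (Q1 * xa.iX + Qb * xa.iQX)) rfl
    (ls + xa.XM * (Q1 * xa.iX + Qb * xa.iQX)) rfl
    xa.a0 xa.e_a0
    (Q1 * xa.XM) rfl
    (Q1 * xa.XM * xa.iX) rfl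
    (ls + Q1 * xa.XM * xa.iX) rfl
    xa.l1 xa.e_l1
    ((13 / 64) * xa.l1) (congrArg (fun y : ℝ => y * xa.l1) zQMa_223338299392_0)
    ((1 / 2 : ℝ) + (13 / 64) * xa.l1) rfl
    (xa.l1 * ((1 / 2 : ℝ) + (13 / 64) * xa.l1)) rfl
    xa.Na xa.e_Na
    ((13 / 16) * xa.a0) (congrArg (fun y : ℝ => y * xa.a0) zQMa_893353197568_0)
    ((1 : ℝ) + (13 / 16) * xa.a0) rfl
    (xa.a0 * ((1 : ℝ) + (13 / 16) * xa.a0)) rfl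
    xa.Nb xa.e_Nb
    (v2.rh * v2.nih) rfl
    (v2.rh * v2.nih * Ei) rfl
    xa.rn xa.e_rn
    (xa.k0 * xa.Na) rfl
    (v.aQ + (1 / 2 : ℝ)) rfl
    (xa.rn * (v.aQ + (1 / 2 : ℝ))) rfl
    xa.ka xa.e_ka
    (v.aQ + (1 : ℝ)) rfl
    xa.kb xa.e_kb
    (Eh * (v.aQ + (1 : ℝ))) rfl
    (Eh * (v.aQ + (1 : ℝ)) * v2.nih) rfl
    xa.lfk xa.e_lfk
    (xa.ka * lsx) rfl
    (xa.lfk * phux) rfl
    xa.kl xa.e_kl
    (r * v2.bsum) rfl).2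
    (v.aQ⁻¹) rfl
    (r * v2.bsum * v.aQ⁻¹) rfl
    ((1 / 2) * (r * v2.bsum * v.aQ⁻¹)) (congrArg (fun y : ℝ => y * (r * v2.bsum * v.aQ⁻¹)) zQMa_549755813888_0)
    (v.om1 * ((1 / 2) * (r * v2.bsum * v.aQ⁻¹))) rfl
    srcx e_srcx
    srcs e_srcs
    yb.src yb.e_src
    (xa.ka * Q1) rfl
    (xa.ka * Q1 * xa.iX) rfl
    (xa.kb * Qb) rfl
    (xa.kb * Qb * xa.iQX) rfl
    yb.fxe yb.e_fxe
    (v.om1 * yb.src) rfl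
    (xa.XeE * yb.fxe) rfl
    yb.epd yb.e_epd
    (v.tu2 * yb.epd) rfl
    (v.tu2 * yb.epd * v.aQ⁻¹) rfl
    ((1 : ℝ) - v.tu2 * yb.epd * v.aQ⁻¹) rfl).2
    yb.NN yb.e_NN
    yb.eN yb.e_eN
    yb.d yb.e_d
    yb.eta yb.e_eta
    (yb.eta * v.aQ⁻¹) rfl
    ((1 : ℝ) - yb.eta * v.aQ⁻¹) rfl
    (v.rhat * ((1 : ℝ) - yb.eta * v.aQ⁻¹)) rfl
    yb.rl yb.e_rl).2
    yb.irl yb.e_irl
    yb.yy yb.e_yy
    (v.aQ - yb.eta) rfl).2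
    yb.q0 yb.e_q0
    yb.zp yb.e_zp
    ((1 / 2) * yb.zp) (congrArg (fun y : ℝ => y * yb.zp) zQMa_549755813888_0)
    ((1 : ℝ) - (1 / 2) * yb.zp) rfl
    ((1 : ℝ) - yb.zp) rfl).2
    (((1 : ℝ) - yb.zp)⁻¹) rfl
    yb.kzp yb.e_kzp
    (v.u * yb.q0) rfl
    (gu * yb.irl) rfl
    (gu * yb.irl * yb.kzp) rfl
    yb.Cu yb.e_Cu
    (tr * yb.eN) rfl
    (yb.q0 * (tr * yb.eN)) rfl
    (gap * yb.irl) rfl
    (gap * yb.irl * yb.kzp) rfl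
    (gap * yb.irl * yb.kzp * yb.d) rfl
    yb.rr yb.e_rr
    ((13 / 64) * yb.rr) (congrArg (fun y : ℝ => y * yb.rr) zQMa_223338299392_0)
    ((1 / 2 : ℝ) + (13 / 64) * yb.rr) rfl
    (yb.rr * ((1 / 2 : ℝ) + (13 / 64) * yb.rr)) rfl
    ((1 : ℝ) + yb.rr * ((1 / 2 : ℝ) + (13 / 64) * yb.rr)) rfl
    (yb.Cu * ((1 : ℝ) + yb.rr * ((1 / 2 : ℝ) + (13 / 64) * yb.rr))) rfl
    yb.CuN yb.e_CuN
    yb.fbt yb.e_fbt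
    yb.XLt yb.e_XLt
    (7 : ℝ) zQMa_7696581394432_0
    (10 : ℝ) zQMa_10995116277760_0).2
    ((10 : ℝ)⁻¹) rfl
    yb.beta yb.e_beta
    ((v.h + (1 : ℝ)) * v.op1) rfl
    yb.b1 yb.e_b1
    pk.omr pk.e_omr
    pk.omp pk.e_omp
    ((1 / 2) * hgp) (congrArg (fun y : ℝ => y * hgp) zQMa_549755813888_0)
    ((1 : ℝ) - (1 / 2) * hgp) rfl
    ((1 : ℝ) - hgp) rfl).2
    (((1 : ℝ) - hgp)⁻¹) rfl
    (((1 : ℝ) - (1 / 2) * hgp) * ((1 : ℝ) - hgp)⁻¹) rfl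
    pk.lspf pk.e_lspf
    (v.tu2 * v5.Th) rfl
    ((2731 / 4096) * (v.tu2 * v5.Th)) (congrArg (fun y : ℝ => y * (v.tu2 * v5.Th)) zQMa_733097230336_0)
    ((1 : ℝ) - (2731 / 4096) * (v.tu2 * v5.Th)) rfl
    (v5.Th * ((1 : ℝ) - (2731 / 4096) * (v.tu2 * v5.Th))) rfl
    (lv.rplo * lv.rplo) rfl
    (v.u2 * (lv.rplo * lv.rplo)) rfl
    pk.E0 pk.e_E0
    pk.lspa pk.e_lspa
    (pk.E0 + (1 : ℝ)) rfl
    (pk.lspa * (pk.E0 + (1 : ℝ))) rfl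
    (pk.E0 - pk.lspa * (pk.E0 + (1 : ℝ))) rfl
    ((2731 / 8192) * (v.K * v.K)) (congrArg (fun y : ℝ => y * (v.K * v.K)) zQMa_366548615168_0)
    ((1 : ℝ) - (2731 / 8192) * (v.K * v.K)) rfl
    (v.nj2 * ((1 : ℝ) - (2731 / 8192) * (v.K * v.K))) rfl
    (pk.E0 - pk.lspa * (pk.E0 + (1 : ℝ)) + v.nj2 * ((1 : ℝ) - (2731 / 8192) * (v.K * v.K))) rfl
    (pk.omr * (pk.E0 - pk.lspa * (pk.E0 + (1 : ℝ)) + v.nj2 * ((1 : ℝ) - (2731 / 8192) * (v.K * v.K)))) rfl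
    (pk.omp * pk.omp) rfl
    ((1 : ℝ) + pk.omp * pk.omp) rfl).2
    (((1 : ℝ) + pk.omp * pk.omp)⁻¹) rfl
    pk.pe pk.e_pe
    ((1 : ℝ) - yb.yy) rfl
    pk.ye pk.e_ye
    ((1 : ℝ) - pk.lspa) rfl
  change 0 < (1 : ℝ) - pk.lspa at p_lspa
  obtain ⟨p_pe, s9⟩ := s8
  change 0 < pk.pe at p_pe
  obtain ⟨p_yy, s10⟩ := s9
  change 0 < (1 : ℝ) - yb.yy at p_yy
  obtain ⟨p_XM, s11⟩ := (((((s10
    (yb.CuN * G4) rfl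
    (yb.CuN * G4 * srcx) rfl).2
    (v.op1⁻¹) rfl
    cl.FXt cl.e_FXt
    y1 e_y1
    (v.t * y1) rfl
    ((1 / 2) * (v.t * y1)) (congrArg (fun y : ℝ => y * (v.t * y1)) zQMa_549755813888_0)
    ((1 : ℝ) - (1 / 2) * (v.t * y1)) rfl
    (y1 * ((1 : ℝ) - (1 / 2) * (v.t * y1))) rfl
    cl.S1 cl.e_S1
    (v.u * v.n) rfl
    (v.u * v.n * (v.h + (1 : ℝ))) rfl
    (v.u * v.n * (v.h + (1 : ℝ)) * v.j) rfl
    cl.a4 cl.e_a4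
    (cl.S1 + cl.a4) rfl
    (cl.S1 * cl.a4) rfl
    (v.t * (cl.S1 * cl.a4)) rfl
    cl.S4 cl.e_S4
    cl.Dh cl.e_Dh
    ((3 / 8) * v.D) (congrArg (fun y : ℝ => y * v.D) zQMa_412316860416_0)
    ((1 / 2 : ℝ) - (3 / 8) * v.D) rfl
    (cl.Dh * ((1 / 2 : ℝ) - (3 / 8) * v.D)) rfl
    ((1 : ℝ) * (cl.Dh * ((1 / 2 : ℝ) - (3 / 8) * v.D))) rfl
    cl.a5 cl.e_a5
    (cl.S4 + cl.a5) rfl
    (cl.S4 * cl.a5) rfl
    (v.t * (cl.S4 * cl.a5)) rfl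
    cl.S5 cl.e_S5
    (v.u * yb.eN) rfl
    (v.u * yb.eN * v.op1⁻¹) rfl
    cl.a6 cl.e_a6
    (cl.S5 + cl.a6) rfl
    (cl.S5 * cl.a6) rfl
    (v.t * (cl.S5 * cl.a6)) rfl
    cl.S6 cl.e_S6
    cl.a7 cl.e_a7
    (cl.S6 - cl.a7) rfl
    (v.t * yb.b1) rfl
    ((1 : ℝ) + v.t * yb.b1) rfl).2
    (((1 : ℝ) + v.t * yb.b1)⁻¹) rfl
    cl.S7 cl.e_S7
    (v.u * v.tu) rfl
    (v.u * v.tu * yb.eN) rfl
    (v.u * v.tu * yb.eN * yb.q0) rfl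
    cl.a8 cl.e_a8
    (cl.S7 + cl.a8) rfl
    (cl.S7 * cl.a8) rfl
    (v.t * (cl.S7 * cl.a8)) rfl
    cl.S8 cl.e_S8
    (v.t * cl.S8) rfl
    cl.c1 cl.e_c1
    (yb.fbt * xa.XM) rfl
    (v.t * yb.XLt) rfl
    (cl.FXt * (v.t * yb.XLt)) rfl
    (yb.fbt * xa.XM + cl.FXt * (v.t * yb.XLt)) rfl
    cl.rt cl.e_rt
    (yb.fbt + cl.FXt) rfl
    cl.fm cl.e_fm
    (cl.rt * cl.c1) rfl
    (cl.S8 + cl.rt * cl.c1) rfl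
    (cl.S8 + cl.rt * cl.c1 + cl.fm) rfl
    cl.Bm cl.e_Bm
    ((1 / 1024) * (1 : ℝ)) (congrArg (fun y : ℝ => y * (1 : ℝ)) zQMa_1073741824_0)
    (cl.Bm - (1 / 1024) * (1 : ℝ)) rfl
    yb.m1 yb.e_m1
    (yb.m1 + (2 : ℝ)) rfl
    (2 * yb.beta) (congrArg (fun y : ℝ => y * yb.beta) zQMa_2199023255552_0)
    (yb.m1 + (2 : ℝ) - 2 * yb.beta) rfl
    ((v.h + (1 : ℝ)) * (yb.m1 + (2 : ℝ) - 2 * yb.beta)) rfl
    (yb.m1 * (2 * yb.beta)) rfl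
    (yb.m1 * (2 * yb.beta) + (1 : ℝ)) rfl).2
    ((yb.m1 * (2 * yb.beta) + (1 : ℝ))⁻¹) rfl
    ((v.h + (1 : ℝ)) * (yb.m1 + (2 : ℝ) - 2 * yb.beta) * (yb.m1 * (2 * yb.beta) + (1 : ℝ))⁻¹) rfl
    (xa.AE * yb.fxe) rfl
    ((1 / 2) * v2.lm) (congrArg (fun y : ℝ => y * v2.lm) zQMa_549755813888_0)
    (v.K + (1 / 2) * v2.lm) rfl
    (xa.AE * yb.fxe * (v.K + (1 / 2) * v2.lm)) rfl
    (2 * (xa.AE * yb.fxe * (v.K + (1 / 2) * v2.lm))) (congrArg (fun y : ℝ => y * (xa.AE * yb.fxe * (v.K + (1 / 2) * v2.lm))) zQMa_2199023255552_0)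
    (yb.src + 2 * (xa.AE * yb.fxe * (v.K + (1 / 2) * v2.lm))) rfl
    (2 * (yb.src + 2 * (xa.AE * yb.fxe * (v.K + (1 / 2) * v2.lm)))) (congrArg (fun y : ℝ => y * (yb.src + 2 * (xa.AE * yb.fxe * (v.K + (1 / 2) * v2.lm)))) zQMa_2199023255552_0)
    (2 * (yb.src + 2 * (xa.AE * yb.fxe * (v.K + (1 / 2) * v2.lm))) * yb.NN) rfl
    (v.tu * yb.eN) rfl
    (v.op1 - v.tu * yb.eN) rfl).2
    ((v.op1 - v.tu * yb.eN)⁻¹) rfl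
    (2 * (yb.src + 2 * (xa.AE * yb.fxe * (v.K + (1 / 2) * v2.lm))) * yb.NN * (v.op1 - v.tu * yb.eN)⁻¹) rfl
    yb.V yb.e_V
    ((1 : ℝ) * v.nj * ((1 : ℝ) * v.nj)) rfl
    (13 : ℝ) zQMa_14293651161088_0
    ((13 : ℝ) * (10 : ℝ)⁻¹) rfl
    ((1 : ℝ) * v.nj * ((1 : ℝ) * v.nj) * ((13 : ℝ) * (10 : ℝ)⁻¹)) rfl
    (S * S) rfl
    (25 * (S * S)) (congrArg (fun y : ℝ => y * (S * S)) zQMa_27487790694400_0)
    yb.C2 yb.e_C2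
    yb.gr yb.e_gr
    (2 * v.c0 - v.t) rfl
    yb.Gt yb.e_Gt
    ((1 : ℝ) * v.u) rfl
    yb.au yb.e_au
    (v.op1 * yb.fxe) rfl
    (v.op1 * yb.fxe * xa.iG4) rfl
    yb.inner yb.e_inner
    (v.tu * yb.eN + (2 : ℝ)) rfl
    yb.ezs yb.e_ezs
    (yb.C2 * yb.gr) rfl
    (yb.NN * yb.ezs) rfl
    (yb.au * yb.inner) rfl
    (yb.NN * yb.ezs * (yb.au * yb.inner)) rfl
    yb.Rg0 yb.e_Rg0
    ((1 / 2) * (v.tu * yb.eN)) (congrArg (fun y : ℝ => y * (v.tu * yb.eN)) zQMa_549755813888_0)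
    ((1 : ℝ) + (1 / 2) * (v.tu * yb.eN)) rfl
    (yb.NN * ((1 : ℝ) + (1 / 2) * (v.tu * yb.eN))) rfl
    (v.t * v.om1) rfl
    (v.t * v.om1 * v2.bsum) rfl
    (v.op1 * v.aQ) rfl).2
    ((v.op1 * v.aQ)⁻¹) rfl
    (v.t * v.om1 * v2.bsum * (v.op1 * v.aQ)⁻¹) rfl
    (yb.NN * ((1 : ℝ) + (1 / 2) * (v.tu * yb.eN)) * (v.t * v.om1 * v2.bsum * (v.op1 * v.aQ)⁻¹)) rfl
    yb.Rh yb.e_Rh
    (v2.lm * yb.Rg0) rfl
    ((1 : ℝ) - v2.lm) rfl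
    (v.u2 * yb.Rh) rfl
    (((1 : ℝ) - v2.lm) * (v.u2 * yb.Rh)) rfl
    (yb.C2 * (((1 : ℝ) - v2.lm) * (v.u2 * yb.Rh))) rfl
    yb.Rg yb.e_Rg
  change 0 < (1 : ℝ) - xa.XM at p_XM
  obtain ⟨p_QX, s12⟩ := s11
  change 0 < (1 : ℝ) - xa.QX at p_QX
  obtain ⟨p_e2, s13⟩ := s12
    (2 * (v.tu2 * yb.epd)) (congrArg (fun y : ℝ => y * (v.tu2 * yb.epd)) zQMa_2199023255552_0)
    (v.aQ - 2 * (v.tu2 * yb.epd)) rfl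
  change 0 < v.aQ - 2 * (v.tu2 * yb.epd) at p_e2
  obtain ⟨p_rl, s14⟩ := s13
  change 0 < yb.rl at p_rl
  obtain ⟨p_hgp, s15⟩ := s14
    ((1 / 2 : ℝ) - hgp) rfl
  change 0 < (1 / 2 : ℝ) - hgp at p_hgp
  obtain ⟨p_l1, s16⟩ := s15
    ((5 / 8) * (1 : ℝ)) (congrArg (fun y : ℝ => y * (1 : ℝ)) zQMa_687194767360_0)
    ((5 / 8) * (1 : ℝ) - xa.l1) rfl
  change 0 < (5 / 8) * (1 : ℝ) - xa.l1 at p_l1
  obtain ⟨p_a0, s17⟩ := s16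
    ((11 / 32) * (1 : ℝ)) (congrArg (fun y : ℝ => y * (1 : ℝ)) zQMa_377957122048_0)
    ((11 / 32) * (1 : ℝ) - xa.a0) rfl
  change 0 < (11 / 32) * (1 : ℝ) - xa.a0 at p_a0
  obtain ⟨p_S, s18⟩ := s17
  change 0 < v.op1 - v.tu * yb.eN at p_S
  obtain ⟨p_zp, s19⟩ := s18
  change 0 < (1 : ℝ) - yb.zp at p_zp
  obtain ⟨p_rr, s20⟩ := s19
    ((5 / 8) * (1 : ℝ) - yb.rr) rfl
  change 0 < (5 / 8) * (1 : ℝ) - yb.rr at p_rr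
  obtain ⟨p_V, s21⟩ := s20
  change 0 < yb.V at p_V
  obtain ⟨p_B, s22⟩ := s21
  change 0 < cl.Bm - (1 / 1024) * (1 : ℝ) at p_B
  obtain ⟨p_Rg, s23⟩ := s22
  change 0 < yb.Rg at p_Rg
  obtain ⟨p_Rh, s24⟩ := s23
  change 0 < yb.Rh at p_Rh
  have hQ := qb_s G f lv.e_rhi e_q e_th
  have hq := hQ.le
  have hQp := qb_p G f p_rplo.le lv.e_rphi e_qp e_thp
  have hqp := hQp.le
  have hq0 : 0 < q := lt_of_lt_of_le (by rw [G.q_eq]; exact G.q0) hq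
  have hcc : cc ≤ Real.cos (v.e * (Qk κ (shf κ τ)).arg) := cc_q (arg_x G v5 hsc e_w e_x) e_cc p_xq
  have hgR := gR_GD G.e0 G.κ0 G.s0 b hQ hcc G.h1_eq p_o2 p_W e_g
  have hγ := gam_g G.e0 G.κ0 G.s0 hgR e_ga
  have hccp : ccp ≤ Real.cos (v.e * (Qk κ (shf κ (shf κ τ))).arg) := cc_q (arg_xp G v3 v5 hsc e_w e_x e_xp) e_ccp p_xqp
  have hgRp := gR_GD G.e0 G.κ0 (shf_re' G.κ0 G.s0) b' hQp hccp (G.hp_eq v3) p_o2p p_Wp e_gp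
  have hγp := gam_g G.e0 G.κ0 (shf_re' G.κ0 G.s0) hgRp e_gap
  have hoo := oo_sharp8 G.κ0 G.s0 hQ (Qre0 G) hsc.ee (x_eq G v5 hsc e_w e_x) e_cu e_xe e_o2u e_ooo
  have hn1 : ‖1 + qq v.e κ (shf κ τ)‖ ≤ Q1 := by
    rw [e_Q1]; exact n1_sharp8 G.e0 G.κ0 G.s0 hq hoo (hg_le G hγ e_hg)
  have hlx : 1 * lsx = v.h1t * lsf * ga := by rw [e_lsx, one_mul]
  have fr := fr_g G hγ hq hq0 e_hg e_lsf p_hg e_Qb e_ls (hsc.al0 G) hlx hn1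
  have hgu : 1 * gu = gap * S := by rw [e_gu]; ring
  obtain ⟨lf0, Ex, hφ⟩ := ph_slz G v2 hsc e_tz hde' hu hz0 he2 (by norm_num) (by norm_num) (by norm_num) e_phux e_Ei e_Eh
  have as8 : As8 xa yb := ⟨p_XM, p_QX, p_e2, p_rl, p_l1, p_a0, p_S, p_zp, p_rr, p_V, p_Rg, p_Rh⟩
  exact far_Cl G D hsc hA0 hA as8 fr hgu hγp hφ pk f p_rplo e_hgp p_hgp p_lspa p_pe p_yy cl e_srcx e_srcs
    (mul_one v.t) G.t0 (by linear_combination v.t * e_y1 - pk.ye * e_r) p_B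

theorem far_QMa3 {κ : ℝ} {τ : ℂ} {R w : ℝ} {v : B1} (D : PtE (7 * 10⁻¹) v.e κ τ R w)
    (G : Geo κ (shf κ τ) v) (v2 : B2 v) (v3 : B3 v) (v5 : V5 v) {l1 : Lg v.D} {l2 : Lg v.D2}
    (lv : LV v l1 l2) (he2 : 2 ≤ v.e) {S z de : ℝ}
    (hde0 : 0 < de) (hde : de = v.t * z * S) (hu : v.u = z * de) (hz0 : 0 < z)
    (hee : v.e * (de * de) = 1)
    (h : RAs Pool.Agent.helper71.FJ.Crt.QMa.prog3 [S, v.t, z, v.n]) :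
    FarPt v.e κ (1 - Real.sinh κ / 1024) w (2 * AQ v.e v.K * Real.sinh κ ^ 2) R
      (RE v.e κ (w * R)) τ := by
  obtain ⟨tz, e_tz⟩ : ∃ zz : ℝ, zz = v.t * z := ⟨_, rfl⟩
  have hde' : de = tz * S := by rw [e_tz]; exact hde
  obtain ⟨z2, e_z2⟩ : ∃ zz : ℝ, zz = z * z := ⟨_, rfl⟩
  obtain ⟨r, e_r⟩ : ∃ zz : ℝ, zz = v.t * z2 := ⟨_, rfl⟩
  obtain ⟨eps, e_eps⟩ : ∃ zz : ℝ, zz = de * de := ⟨_, rfl⟩
  obtain ⟨tr, e_tr⟩ : ∃ zz : ℝ, zz = v.t * r := ⟨_, rfl⟩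
  obtain ⟨q, e_q⟩ : ∃ zz : ℝ, zz = Real.exp (-(r * lv.rlo)) := ⟨_, rfl⟩
  obtain ⟨th, e_th⟩ : ∃ zz : ℝ, zz = q * (r * lv.er) := ⟨_, rfl⟩
  obtain ⟨qp, e_qp⟩ : ∃ zz : ℝ, zz = Real.exp (-(r * lv.rplo)) := ⟨_, rfl⟩
  obtain ⟨thp, e_thp⟩ : ∃ zz : ℝ, zz = qp * (r * lv.erp) := ⟨_, rfl⟩
  obtain ⟨wv, e_w⟩ : ∃ zz : ℝ, zz = (1 : ℝ) * (S * (v.c0 + v.R))⁻¹ := ⟨_, rfl⟩
  obtain ⟨xv, e_x⟩ : ∃ zz : ℝ, zz = wv * wv * v5.sn := ⟨_, rfl⟩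
  obtain ⟨hg, e_hg⟩ : ∃ zz : ℝ, zz = v.h1 * (1 : ℝ) := ⟨_, rfl⟩
  obtain ⟨lsf, e_lsf⟩ : ∃ zz : ℝ, zz = ((1 : ℝ) - (1 / 2) * hg) * ((1 : ℝ) - hg)⁻¹ := ⟨_, rfl⟩
  obtain ⟨Qb, e_Qb⟩ : ∃ zz : ℝ, zz = q * (hg + (1 : ℝ)) := ⟨_, rfl⟩
  obtain ⟨lsx, e_lsx⟩ : ∃ zz : ℝ, zz = v.h1t * lsf * (1 : ℝ) := ⟨_, rfl⟩
  obtain ⟨ls, e_ls⟩ : ∃ zz : ℝ, zz = hg * lsf := ⟨_, rfl⟩
  obtain ⟨xpv, e_xp⟩ : ∃ zz : ℝ, zz = xv * v.SQ⁻¹ := ⟨_, rfl⟩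
  obtain ⟨ccp, e_ccp⟩ : ∃ zz : ℝ, zz = (1 : ℝ) - xpv * ((1 / 2 : ℝ) - xpv * ((22906492245 / 549755813888 : ℝ) - xpv * ((381774871 / 274877906944 : ℝ) - xpv * ((27269633 / 1099511627776 : ℝ) - xpv * ((75749 / 274877906944 : ℝ) - xpv * ((2295 / 1099511627776 : ℝ) - xpv * (13 / 1099511627776 : ℝ))))))) := ⟨_, rfl⟩
  obtain ⟨b'⟩ := exGE qp thp ccp v3.hp
  obtain ⟨gpv, e_gp⟩ : ∃ zz : ℝ, zz = (1 / 2) * ((((1 : ℝ) - qp) * b'.q1 + 2 * thp) * b'.W⁻¹) := ⟨_, rfl⟩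
  obtain ⟨gap, e_gap⟩ : ∃ zz : ℝ, zz = gpv * (gpv + (1 / 2 : ℝ))⁻¹ := ⟨_, rfl⟩
  obtain ⟨hgp, e_hgp⟩ : ∃ zz : ℝ, zz = v3.hp * gap := ⟨_, rfl⟩
  obtain ⟨gu, e_gu⟩ : ∃ zz : ℝ, zz = gap * S := ⟨_, rfl⟩
  obtain ⟨G4, e_G4⟩ : ∃ zz : ℝ, zz = 4 * S + (1 : ℝ) * v.nj := ⟨_, rfl⟩
  obtain ⟨Ei, e_Ei⟩ : ∃ zz : ℝ, zz = 2 * eps + (1 : ℝ) := ⟨_, rfl⟩
  obtain ⟨Eh, e_Eh⟩ : ∃ zz : ℝ, zz = eps + (1 : ℝ) := ⟨_, rfl⟩
  obtain ⟨phux, e_phux⟩ : ∃ zz : ℝ, zz = (1 / 2) * (z * (2 * (S * v.nj) + (1 / 2) * v.t)) := ⟨_, rfl⟩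
  obtain ⟨cu, e_cu⟩ : ∃ zz : ℝ, zz = (1 : ℝ) - xv * ((1 / 2 : ℝ) - xv * ((45812984491 / 1099511627776 : ℝ) - xv * ((1527099483 / 1099511627776 : ℝ) - xv * ((13634817 / 549755813888 : ℝ) - xv * ((302995 / 1099511627776 : ℝ) - xv * ((287 / 137438953472 : ℝ) - xv * ((3 / 274877906944 : ℝ) - xv * (1 / 1099511627776 : ℝ)))))))) := ⟨_, rfl⟩
  obtain ⟨xe, e_xe⟩ : ∃ zz : ℝ, zz = xv * eps := ⟨_, rfl⟩
  obtain ⟨o2u, e_o2u⟩ : ∃ zz : ℝ, zz = q * q + (1 : ℝ) + 2 * (q * (cu + (43 / 128) * (xe * xe))) + 2 * th := ⟨_, rfl⟩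
  obtain ⟨ooo, e_ooo⟩ : ∃ zz : ℝ, zz = Real.exp ((1 / 2) * Real.log (o2u + (1 / 128 : ℝ))) := ⟨_, rfl⟩
  obtain ⟨Q1, e_Q1⟩ : ∃ zz : ℝ, zz = ooo + q * hg := ⟨_, rfl⟩
  obtain ⟨xa⟩ := exKa v2 eps 1 S G4 Qb Q1 ls lsx phux Ei Eh
  obtain ⟨srcx, e_srcx⟩ : ∃ zz : ℝ, zz = v.om1 * ((1 / 2) * (r * v2.bsum * v.aQ⁻¹)) + xa.kl := ⟨_, rfl⟩
  obtain ⟨srcs, e_srcs⟩ : ∃ zz : ℝ, zz = v.t * srcx := ⟨_, rfl⟩
  obtain ⟨yb⟩ := exKb (7 * 10⁻¹) xa tr gap gu srcs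
  obtain ⟨pk⟩ := exPk v5 lv.rplo v3.hp hgp gu yb.yy
  obtain ⟨y1, e_y1⟩ : ∃ zz : ℝ, zz = z2 * pk.ye := ⟨_, rfl⟩
  obtain ⟨cl⟩ := exCl yb v.t 1 y1 srcx
  have hsc := sc_Ma hde' e_tz hu hee hde0 G.t0 hz0.le e_z2 e_r e_tr e_eps
  obtain ⟨hA0, hA⟩ := hA_Q G hsc e_G4
  have f := lv.f G hsc.hr
  obtain ⟨p_hg, s0⟩ := ((((((((((h
    (1 : ℝ) zQMa_1099511627776_0
    tz e_tz
    de hde'
    v.u hu
    z2 e_z2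
    r e_r
    eps e_eps
    tr e_tr
    (1 / 2 : ℝ) zQMa_549755813888_0
    v.tu v.e_tu
    (v.tu * v.n) rfl
    v.h (v.e_h.trans (congrArg (fun y : ℝ => y * (v.tu * v.n)) zQMa_549755813888_0))
    v.u2 v.e_u2
    (v.h * v.h) rfl
    v.jm v.e_jm).2
    v.j v.e_j
    (v.h * v.j) rfl
    v.K (v.e_K.trans (congrArg (fun y : ℝ => y * (v.h * v.j)) zQMa_2199023255552_0))
    (2 * v.j) (congrArg (fun y : ℝ => y * v.j) zQMa_2199023255552_0)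
    v.c0 v.e_c0
    v.m v.e_m
    v.nj v.e_nj
    v.om v.e_om
    v.om1 v.e_om1
    v.op1 v.e_op1
    v.R v.e_R
    v.nj2 v.e_nj2
    v2.Y (v2.e_Y.trans (congrArg (fun y : ℝ => y * v.h) zQMa_10774999203840_0))
    ((341 / 8192) * v2.Y) (congrArg (fun y : ℝ => y * v2.Y) zQMa_45768245248_0)
    (1365 / 8192 : ℝ) zQMa_183207198720_0
    ((341 / 8192) * v2.Y + (1365 / 8192 : ℝ)) rfl
    (v2.Y * ((341 / 8192) * v2.Y + (1365 / 8192 : ℝ))) rfl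
    ((1 / 2 : ℝ) + v2.Y * ((341 / 8192) * v2.Y + (1365 / 8192 : ℝ))) rfl
    (v2.Y * ((1 / 2 : ℝ) + v2.Y * ((341 / 8192) * v2.Y + (1365 / 8192 : ℝ)))) rfl
    v2.pY v2.e_pY
    (v2.Y * v2.pY) rfl
    ((1 / 2) * (v2.Y * v2.pY)) (congrArg (fun y : ℝ => y * (v2.Y * v2.pY)) zQMa_549755813888_0)
    ((1 : ℝ) + (1 / 2) * (v2.Y * v2.pY)) rfl
    v2.Yp v2.e_Yp
    (v.K * v.om) rfl
    (2 * v.c0) (congrArg (fun y : ℝ => y * v.c0) zQMa_2199023255552_0)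
    (v.K * v.om + 2 * v.c0) rfl
    v.Dt v.e_Dt
    v.D v.e_D
    v.SQ v.e_SQ
    (v.K * v.K) rfl
    (2 * (v.K * v.K)) (congrArg (fun y : ℝ => y * (v.K * v.K)) zQMa_2199023255552_0)
    v.c2 v.e_c2
    (v.c0 * v.Dt) rfl
    v.rhat v.e_rhat).2
    v.LQ v.e_LQ
    ((1 / 2) * v.LQ) (congrArg (fun y : ℝ => y * v.LQ) zQMa_549755813888_0)
    v.aQ v.e_aQ
    (3 : ℝ) zQMa_3298534883328_0).2
    ((3 : ℝ)⁻¹) rfl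
    ((1 : ℝ) * (3 : ℝ)⁻¹) rfl
    (2 : ℝ) zQMa_2199023255552_0
    (v.D + (2 : ℝ)) rfl).2
    ((v.D + (2 : ℝ))⁻¹) rfl
    l1.zL l1.e_zL
    l1.zz l1.e_zz
    ((1 : ℝ) - l1.zL) rfl
    (l1.zz * ((1 : ℝ) * (3 : ℝ)⁻¹)) rfl
    ((1 : ℝ) + l1.zz * ((1 : ℝ) * (3 : ℝ)⁻¹)) rfl
    l1.Lv l1.e_Lv
    (l1.zz * l1.zz) rfl
    l1.eL (l1.e_eL.trans (congrArg (fun y : ℝ => y * (l1.zz * l1.zz)) zQMa_219915747328_0))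
    (v.Dt * l1.Lv) rfl
    lv.rlo (lv.e_rlo.trans (congrArg (fun y : ℝ => y * (v.Dt * l1.Lv)) zQMa_549755813888_0))
    (v.Dt * l1.eL) rfl
    lv.er (lv.e_er.trans (congrArg (fun y : ℝ => y * (v.Dt * l1.eL)) zQMa_549755813888_0))
    lv.rhi lv.e_rhi
    (v.c0 * v.rhat) rfl
    lv.D2R (lv.e_D2R.trans (congrArg (fun y : ℝ => y * (v.c0 * v.rhat)) zQMa_4398046511104_0))
    (v.c0 * v.R) rfl
    (v.c0 * v.R * v.rhat) rfl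
    v.D2 (v.e_D2.trans (congrArg (fun y : ℝ => y * (v.c0 * v.R * v.rhat)) zQMa_4398046511104_0))
    (v.D2 + (2 : ℝ)) rfl).2
    ((v.D2 + (2 : ℝ))⁻¹) rfl
    l2.zL l2.e_zL
    l2.zz l2.e_zz
    ((1 : ℝ) - l2.zL) rfl
    (l2.zz * ((1 : ℝ) * (3 : ℝ)⁻¹)) rfl
    ((1 : ℝ) + l2.zz * ((1 : ℝ) * (3 : ℝ)⁻¹)) rfl
    l2.Lv l2.e_Lv
    (l2.zz * l2.zz) rfl
    l2.eL (l2.e_eL.trans (congrArg (fun y : ℝ => y * (l2.zz * l2.zz)) zQMa_219915747328_0))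
    (lv.D2R * l2.Lv) rfl
    ((1 / 2) * (lv.D2R * l2.Lv)) (congrArg (fun y : ℝ => y * (lv.D2R * l2.Lv)) zQMa_549755813888_0)
    lv.rplo lv.e_rplo
    (lv.D2R * l2.eL) rfl
    ((1 / 2) * (lv.D2R * l2.eL)) (congrArg (fun y : ℝ => y * (lv.D2R * l2.eL)) zQMa_549755813888_0)
    lv.erp lv.e_erp
    lv.rphi lv.e_rphi
    (r * lv.rlo) rfl
    (-(r * lv.rlo)) rfl
    q e_q
    (r * lv.er) rfl
    th e_th
    (r * lv.rplo) rfl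
    (-(r * lv.rplo)) rfl
    qp e_qp
    (r * lv.erp) rfl
    thp e_thp
    (v.om * v.K) rfl
    (v.c0 + v.om * v.K) rfl).2
    v.ioK v.e_ioK
    v.h1t v.e_h1t
    (v.om1 * v.t) rfl
    v.h1 v.e_h1
    ((1 : ℝ) - v.u2) rfl
    v.f2 v.e_f2
    v.tu2 v.e_tu2
    ((1 : ℝ) - v.nj2) rfl
    v5.sn v5.e_sn
    (v.R * v.rhat) rfl).2
    (v.SQ⁻¹) rfl
    v5.R1 v5.e_R1
    (v.c0 + v5.R1) rfl
    v5.Qr v5.e_Qr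
    (v5.Qr * v5.Qr) rfl).2
    ((v5.Qr * v5.Qr)⁻¹) rfl
    v5.Th v5.e_Th
    (v.c0 + v.R) rfl
    (S * (v.c0 + v.R)) rfl).2
    ((S * (v.c0 + v.R))⁻¹) rfl
    wv e_w
    (wv * wv) rfl
    xv e_x
    hg e_hg
    ((1 / 2) * hg) (congrArg (fun y : ℝ => y * hg) zQMa_549755813888_0)
    ((1 : ℝ) - (1 / 2) * hg) rfl
    ((1 : ℝ) - hg) rfl).2
    (((1 : ℝ) - hg)⁻¹) rfl
    lsf e_lsf
    (hg + (1 : ℝ)) rfl
    Qb e_Qb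
    (v.h1t * lsf) rfl
    lsx e_lsx
    ls e_ls
  change 0 < (1 : ℝ) - hg at p_hg
  obtain ⟨p_rplo, s1⟩ := (s0
    (v.om1 * v.op1) rfl
    (v.c0 + v.t) rfl
    (v.om * v.c0) rfl
    (v.om * v.c0 * v.K) rfl
    (2 * (v.om * v.c0 * v.K)) (congrArg (fun y : ℝ => y * (v.om * v.c0 * v.K)) zQMa_2199023255552_0)
    (v.c2 + 2 * (v.om * v.c0 * v.K)) rfl
    ((v.c0 + v.t) * (v.c2 + 2 * (v.om * v.c0 * v.K))) rfl).2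
    (((v.c0 + v.t) * (v.c2 + 2 * (v.om * v.c0 * v.K)))⁻¹) rfl
    v3.hpt v3.e_hpt
    v3.hp v3.e_hp
  change 0 < lv.rplo at p_rplo
  obtain ⟨p_xqp, s2⟩ := s1
    xpv e_xp
    (1263 / 128 : ℝ) zQMa_10849087389696_0
    ((1263 / 128 : ℝ) - xpv) rfl
  change 0 < (1263 / 128 : ℝ) - xpv at p_xqp
  obtain ⟨p_o2p, s3⟩ := (s2
    (13 / 1099511627776 : ℝ) zQMa_13_0
    (2295 / 1099511627776 : ℝ) zQMa_2295_0
    (xpv * (13 / 1099511627776 : ℝ)) rfl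
    ((2295 / 1099511627776 : ℝ) - xpv * (13 / 1099511627776 : ℝ)) rfl
    (75749 / 274877906944 : ℝ) zQMa_302996_0
    (xpv * ((2295 / 1099511627776 : ℝ) - xpv * (13 / 1099511627776 : ℝ))) rfl
    ((75749 / 274877906944 : ℝ) - xpv * ((2295 / 1099511627776 : ℝ) - xpv * (13 / 1099511627776 : ℝ))) rfl
    (27269633 / 1099511627776 : ℝ) zQMa_27269633_0
    (xpv * ((75749 / 274877906944 : ℝ) - xpv * ((2295 / 1099511627776 : ℝ) - xpv * (13 / 1099511627776 : ℝ)))) rfl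
    ((27269633 / 1099511627776 : ℝ) - xpv * ((75749 / 274877906944 : ℝ) - xpv * ((2295 / 1099511627776 : ℝ) - xpv * (13 / 1099511627776 : ℝ)))) rfl
    (381774871 / 274877906944 : ℝ) zQMa_1527099484_0
    (xpv * ((27269633 / 1099511627776 : ℝ) - xpv * ((75749 / 274877906944 : ℝ) - xpv * ((2295 / 1099511627776 : ℝ) - xpv * (13 / 1099511627776 : ℝ))))) rfl
    ((381774871 / 274877906944 : ℝ) - xpv * ((27269633 / 1099511627776 : ℝ) - xpv * ((75749 / 274877906944 : ℝ) - xpv * ((2295 / 1099511627776 : ℝ) - xpv * (13 / 1099511627776 : ℝ))))) rfl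
    (22906492245 / 549755813888 : ℝ) zQMa_45812984490_0
    (xpv * ((381774871 / 274877906944 : ℝ) - xpv * ((27269633 / 1099511627776 : ℝ) - xpv * ((75749 / 274877906944 : ℝ) - xpv * ((2295 / 1099511627776 : ℝ) - xpv * (13 / 1099511627776 : ℝ)))))) rfl
    ((22906492245 / 549755813888 : ℝ) - xpv * ((381774871 / 274877906944 : ℝ) - xpv * ((27269633 / 1099511627776 : ℝ) - xpv * ((75749 / 274877906944 : ℝ) - xpv * ((2295 / 1099511627776 : ℝ) - xpv * (13 / 1099511627776 : ℝ)))))) rfl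
    (xpv * ((22906492245 / 549755813888 : ℝ) - xpv * ((381774871 / 274877906944 : ℝ) - xpv * ((27269633 / 1099511627776 : ℝ) - xpv * ((75749 / 274877906944 : ℝ) - xpv * ((2295 / 1099511627776 : ℝ) - xpv * (13 / 1099511627776 : ℝ))))))) rfl
    ((1 / 2 : ℝ) - xpv * ((22906492245 / 549755813888 : ℝ) - xpv * ((381774871 / 274877906944 : ℝ) - xpv * ((27269633 / 1099511627776 : ℝ) - xpv * ((75749 / 274877906944 : ℝ) - xpv * ((2295 / 1099511627776 : ℝ) - xpv * (13 / 1099511627776 : ℝ))))))) rfl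
    (xpv * ((1 / 2 : ℝ) - xpv * ((22906492245 / 549755813888 : ℝ) - xpv * ((381774871 / 274877906944 : ℝ) - xpv * ((27269633 / 1099511627776 : ℝ) - xpv * ((75749 / 274877906944 : ℝ) - xpv * ((2295 / 1099511627776 : ℝ) - xpv * (13 / 1099511627776 : ℝ)))))))) rfl
    ccp e_ccp
    b'.q1 b'.e_q1
    (qp * qp) rfl
    (qp * qp + (1 : ℝ)) rfl
    (qp * ccp) rfl
    (2 * (qp * ccp)) (congrArg (fun y : ℝ => y * (qp * ccp)) zQMa_2199023255552_0)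
    (qp * qp + (1 : ℝ) + 2 * (qp * ccp)) rfl
    (4 * thp) (congrArg (fun y : ℝ => y * thp) zQMa_4398046511104_0)
    b'.o2 b'.e_o2).2
    (b'.q1⁻¹) rfl
    (b'.o2 * b'.q1⁻¹) rfl
    b'.P1 b'.e_P1
    (qp * v3.hp) rfl
    b'.qh (b'.e_qh.trans (congrArg (fun y : ℝ => y * (qp * v3.hp)) zQMa_549755813888_0))
    (b'.qh * b'.P1) rfl
    b'.W b'.e_W
  change 0 < b'.o2 at p_o2p
  obtain ⟨p_Wp, s4⟩ := s3
  change 0 < b'.W at p_Wp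
  obtain ⟨p_lspa, s5⟩ := ((((((((((((((((s4
    ((1 : ℝ) - qp) rfl
    (((1 : ℝ) - qp) * b'.q1) rfl
    (2 * thp) (congrArg (fun y : ℝ => y * thp) zQMa_2199023255552_0)
    (((1 : ℝ) - qp) * b'.q1 + 2 * thp) rfl).2
    (b'.W⁻¹) rfl
    ((((1 : ℝ) - qp) * b'.q1 + 2 * thp) * b'.W⁻¹) rfl
    gpv (e_gp.trans (congrArg (fun y : ℝ => y * ((((1 : ℝ) - qp) * b'.q1 + 2 * thp) * b'.W⁻¹)) zQMa_549755813888_0))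
    (gpv + (1 / 2 : ℝ)) rfl).2
    ((gpv + (1 / 2 : ℝ))⁻¹) rfl
    gap e_gap
    hgp e_hgp
    gu e_gu
    (v.h + (1 : ℝ)) rfl).2
    v2.ih v2.e_ih
    (v.h * v2.ih) rfl
    v2.rh (v2.e_rh.trans (congrArg (fun y : ℝ => y * (v.h * v2.ih)) zQMa_2199023255552_0))
    v2.mi v2.e_mi
    v2.hm v2.e_hm
    v2.nih v2.e_nih
    (v2.nih * v2.mi) rfl
    v2.bsum v2.e_bsum
    ((209 / 1024) * v.j) (congrArg (fun y : ℝ => y * v.j) zQMa_224412041216_0)).2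
    (v2.Yp⁻¹) rfl
    v2.lm v2.e_lm
    (4 * S) (congrArg (fun y : ℝ => y * S) zQMa_4398046511104_0)
    ((1 : ℝ) * v.nj) rfl
    G4 e_G4).2
    xa.iG4 xa.e_iG4
    xa.alG xa.e_alG
    xa.AE xa.e_AE
    (xa.AE * v.op1) rfl
    xa.XeE xa.e_XeE
    (xa.alG * v.op1) rfl
    xa.XM xa.e_XM
    ((1 : ℝ) - xa.XM) rfl).2
    xa.iX xa.e_iX
    xa.QX xa.e_QX
    ((1 : ℝ) - xa.QX) rfl).2
    xa.iQX xa.e_iQX
    (2 * eps) (congrArg (fun y : ℝ => y * eps) zQMa_2199023255552_0)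
    Ei e_Ei
    Eh e_Eh
    (S * v.nj) rfl
    (2 * (S * v.nj)) (congrArg (fun y : ℝ => y * (S * v.nj)) zQMa_2199023255552_0)
    ((1 / 2) * v.t) (congrArg (fun y : ℝ => y * v.t) zQMa_549755813888_0)
    (2 * (S * v.nj) + (1 / 2) * v.t) rfl
    (z * (2 * (S * v.nj) + (1 / 2) * v.t)) rfl
    phux (e_phux.trans (congrArg (fun y : ℝ => y * (z * (2 * (S * v.nj) + (1 / 2) * v.t))) zQMa_549755813888_0))
    (v.h * v.nj) rfl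
    ((1 : ℝ) - v.f2) rfl
    (v.h * v.om) rfl
    (2 * (v.h * v.om)) (congrArg (fun y : ℝ => y * (v.h * v.om)) zQMa_2199023255552_0)
    ((1 : ℝ) - v.f2 - 2 * (v.h * v.om)) rfl
    (v.h * v.nj * (v.h * v.nj)) rfl
    xa.N1 xa.e_N1
    (xa.N1 + (1 : ℝ)) rfl
    xa.s (xa.e_s.trans (congrArg (fun y : ℝ => y * (xa.N1 + (1 : ℝ))) zQMa_549755813888_0))
    ((1 / 2) * v.R) (congrArg (fun y : ℝ => y * v.R) zQMa_549755813888_0)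
    (v.j - (1 / 2) * v.R) rfl
    (v.tu2 * ((1 : ℝ) - v.f2)) rfl
    (v.tu2 * ((1 : ℝ) - v.f2) * v.jm) rfl
    ((1 / 8) * (v.tu2 * ((1 : ℝ) - v.f2) * v.jm)) (congrArg (fun y : ℝ => y * (v.tu2 * ((1 : ℝ) - v.f2) * v.jm)) zQMa_137438953472_0)
    (v.j - (1 / 2) * v.R + (1 / 8) * (v.tu2 * ((1 : ℝ) - v.f2) * v.jm)) rfl
    xa.k0 xa.e_k0
    (1 / 1099511627776 : ℝ) zQMa_1_0
    (3 / 274877906944 : ℝ) zQMa_12_0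
    (xv * (1 / 1099511627776 : ℝ)) rfl
    ((3 / 274877906944 : ℝ) - xv * (1 / 1099511627776 : ℝ)) rfl
    (287 / 137438953472 : ℝ) zQMa_2296_0
    (xv * ((3 / 274877906944 : ℝ) - xv * (1 / 1099511627776 : ℝ))) rfl
    ((287 / 137438953472 : ℝ) - xv * ((3 / 274877906944 : ℝ) - xv * (1 / 1099511627776 : ℝ))) rfl
    (302995 / 1099511627776 : ℝ) zQMa_302995_0
    (xv * ((287 / 137438953472 : ℝ) - xv * ((3 / 274877906944 : ℝ) - xv * (1 / 1099511627776 : ℝ)))) rfl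
    ((302995 / 1099511627776 : ℝ) - xv * ((287 / 137438953472 : ℝ) - xv * ((3 / 274877906944 : ℝ) - xv * (1 / 1099511627776 : ℝ)))) rfl
    (13634817 / 549755813888 : ℝ) zQMa_27269634_0
    (xv * ((302995 / 1099511627776 : ℝ) - xv * ((287 / 137438953472 : ℝ) - xv * ((3 / 274877906944 : ℝ) - xv * (1 / 1099511627776 : ℝ))))) rfl
    ((13634817 / 549755813888 : ℝ) - xv * ((302995 / 1099511627776 : ℝ) - xv * ((287 / 137438953472 : ℝ) - xv * ((3 / 274877906944 : ℝ) - xv * (1 / 1099511627776 : ℝ))))) rfl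
    (1527099483 / 1099511627776 : ℝ) zQMa_1527099483_0
    (xv * ((13634817 / 549755813888 : ℝ) - xv * ((302995 / 1099511627776 : ℝ) - xv * ((287 / 137438953472 : ℝ) - xv * ((3 / 274877906944 : ℝ) - xv * (1 / 1099511627776 : ℝ)))))) rfl
    ((1527099483 / 1099511627776 : ℝ) - xv * ((13634817 / 549755813888 : ℝ) - xv * ((302995 / 1099511627776 : ℝ) - xv * ((287 / 137438953472 : ℝ) - xv * ((3 / 274877906944 : ℝ) - xv * (1 / 1099511627776 : ℝ)))))) rfl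
    (45812984491 / 1099511627776 : ℝ) zQMa_45812984491_0
    (xv * ((1527099483 / 1099511627776 : ℝ) - xv * ((13634817 / 549755813888 : ℝ) - xv * ((302995 / 1099511627776 : ℝ) - xv * ((287 / 137438953472 : ℝ) - xv * ((3 / 274877906944 : ℝ) - xv * (1 / 1099511627776 : ℝ))))))) rfl
    ((45812984491 / 1099511627776 : ℝ) - xv * ((1527099483 / 1099511627776 : ℝ) - xv * ((13634817 / 549755813888 : ℝ) - xv * ((302995 / 1099511627776 : ℝ) - xv * ((287 / 137438953472 : ℝ) - xv * ((3 / 274877906944 : ℝ) - xv * (1 / 1099511627776 : ℝ))))))) rfl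
    (xv * ((45812984491 / 1099511627776 : ℝ) - xv * ((1527099483 / 1099511627776 : ℝ) - xv * ((13634817 / 549755813888 : ℝ) - xv * ((302995 / 1099511627776 : ℝ) - xv * ((287 / 137438953472 : ℝ) - xv * ((3 / 274877906944 : ℝ) - xv * (1 / 1099511627776 : ℝ)))))))) rfl
    ((1 / 2 : ℝ) - xv * ((45812984491 / 1099511627776 : ℝ) - xv * ((1527099483 / 1099511627776 : ℝ) - xv * ((13634817 / 549755813888 : ℝ) - xv * ((302995 / 1099511627776 : ℝ) - xv * ((287 / 137438953472 : ℝ) - xv * ((3 / 274877906944 : ℝ) - xv * (1 / 1099511627776 : ℝ)))))))) rfl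
    (xv * ((1 / 2 : ℝ) - xv * ((45812984491 / 1099511627776 : ℝ) - xv * ((1527099483 / 1099511627776 : ℝ) - xv * ((13634817 / 549755813888 : ℝ) - xv * ((302995 / 1099511627776 : ℝ) - xv * ((287 / 137438953472 : ℝ) - xv * ((3 / 274877906944 : ℝ) - xv * (1 / 1099511627776 : ℝ))))))))) rfl
    cu e_cu
    xe e_xe
    (q * q) rfl
    (q * q + (1 : ℝ)) rfl
    (xe * xe) rfl
    ((43 / 128) * (xe * xe)) (congrArg (fun y : ℝ => y * (xe * xe)) zQMa_369367187456_0)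
    (cu + (43 / 128) * (xe * xe)) rfl
    (q * (cu + (43 / 128) * (xe * xe))) rfl
    (2 * (q * (cu + (43 / 128) * (xe * xe)))) (congrArg (fun y : ℝ => y * (q * (cu + (43 / 128) * (xe * xe)))) zQMa_2199023255552_0)
    (q * q + (1 : ℝ) + 2 * (q * (cu + (43 / 128) * (xe * xe)))) rfl
    (2 * th) (congrArg (fun y : ℝ => y * th) zQMa_2199023255552_0)
    o2u e_o2u
    (1 / 128 : ℝ) zQMa_8589934592_0
    (o2u + (1 / 128 : ℝ)) rfl).2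
    (Real.log (o2u + (1 / 128 : ℝ))) rfl
    ((1 / 2) * Real.log (o2u + (1 / 128 : ℝ))) (congrArg (fun y : ℝ => y * Real.log (o2u + (1 / 128 : ℝ))) zQMa_549755813888_0)
    ooo e_ooo
    (q * hg) rfl
    Q1 e_Q1
    (Q1 * xa.iX) rfl
    (Qb * xa.iQX) rfl
    (Q1 * xa.iX + Qb * xa.iQX) rfl
    (xa.XM * (Q1 * xa.iX + Qb * xa.iQX)) rfl
    (ls + xa.XM * (Q1 * xa.iX + Qb * xa.iQX)) rfl
    xa.a0 xa.e_a0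
    (Q1 * xa.XM) rfl
    (Q1 * xa.XM * xa.iX) rfl
    (ls + Q1 * xa.XM * xa.iX) rfl
    xa.l1 xa.e_l1
    ((13 / 64) * xa.l1) (congrArg (fun y : ℝ => y * xa.l1) zQMa_223338299392_0)
    ((1 / 2 : ℝ) + (13 / 64) * xa.l1) rfl
    (xa.l1 * ((1 / 2 : ℝ) + (13 / 64) * xa.l1)) rfl
    xa.Na xa.e_Na
    ((13 / 16) * xa.a0) (congrArg (fun y : ℝ => y * xa.a0) zQMa_893353197568_0)
    ((1 : ℝ) + (13 / 16) * xa.a0) rfl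
    (xa.a0 * ((1 : ℝ) + (13 / 16) * xa.a0)) rfl
    xa.Nb xa.e_Nb
    (v2.rh * v2.nih) rfl
    (v2.rh * v2.nih * Ei) rfl
    xa.rn xa.e_rn
    (xa.k0 * xa.Na) rfl
    (v.aQ + (1 / 2 : ℝ)) rfl
    (xa.rn * (v.aQ + (1 / 2 : ℝ))) rfl
    xa.ka xa.e_ka
    (v.aQ + (1 : ℝ)) rfl
    xa.kb xa.e_kb
    (Eh * (v.aQ + (1 : ℝ))) rfl
    (Eh * (v.aQ + (1 : ℝ)) * v2.nih) rfl
    xa.lfk xa.e_lfk
    (xa.ka * lsx) rfl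
    (xa.lfk * phux) rfl
    xa.kl xa.e_kl
    (r * v2.bsum) rfl).2
    (v.aQ⁻¹) rfl
    (r * v2.bsum * v.aQ⁻¹) rfl
    ((1 / 2) * (r * v2.bsum * v.aQ⁻¹)) (congrArg (fun y : ℝ => y * (r * v2.bsum * v.aQ⁻¹)) zQMa_549755813888_0)
    (v.om1 * ((1 / 2) * (r * v2.bsum * v.aQ⁻¹))) rfl
    srcx e_srcx
    srcs e_srcs
    yb.src yb.e_src
    (xa.ka * Q1) rfl
    (xa.ka * Q1 * xa.iX) rfl
    (xa.kb * Qb) rfl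
    (xa.kb * Qb * xa.iQX) rfl
    yb.fxe yb.e_fxe
    (v.om1 * yb.src) rfl
    (xa.XeE * yb.fxe) rfl
    yb.epd yb.e_epd
    (v.tu2 * yb.epd) rfl
    (v.tu2 * yb.epd * v.aQ⁻¹) rfl
    ((1 : ℝ) - v.tu2 * yb.epd * v.aQ⁻¹) rfl).2
    yb.NN yb.e_NN
    yb.eN yb.e_eN
    yb.d yb.e_d
    yb.eta yb.e_eta
    (yb.eta * v.aQ⁻¹) rfl
    ((1 : ℝ) - yb.eta * v.aQ⁻¹) rfl
    (v.rhat * ((1 : ℝ) - yb.eta * v.aQ⁻¹)) rfl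
    yb.rl yb.e_rl).2
    yb.irl yb.e_irl
    yb.yy yb.e_yy
    (v.aQ - yb.eta) rfl).2
    yb.q0 yb.e_q0
    yb.zp yb.e_zp
    ((1 / 2) * yb.zp) (congrArg (fun y : ℝ => y * yb.zp) zQMa_549755813888_0)
    ((1 : ℝ) - (1 / 2) * yb.zp) rfl
    ((1 : ℝ) - yb.zp) rfl).2
    (((1 : ℝ) - yb.zp)⁻¹) rfl
    yb.kzp yb.e_kzp
    (v.u * yb.q0) rfl
    (gu * yb.irl) rfl
    (gu * yb.irl * yb.kzp) rfl
    yb.Cu yb.e_Cu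
    (tr * yb.eN) rfl
    (yb.q0 * (tr * yb.eN)) rfl
    (gap * yb.irl) rfl
    (gap * yb.irl * yb.kzp) rfl
    (gap * yb.irl * yb.kzp * yb.d) rfl
    yb.rr yb.e_rr
    ((13 / 64) * yb.rr) (congrArg (fun y : ℝ => y * yb.rr) zQMa_223338299392_0)
    ((1 / 2 : ℝ) + (13 / 64) * yb.rr) rfl
    (yb.rr * ((1 / 2 : ℝ) + (13 / 64) * yb.rr)) rfl
    ((1 : ℝ) + yb.rr * ((1 / 2 : ℝ) + (13 / 64) * yb.rr)) rfl
    (yb.Cu * ((1 : ℝ) + yb.rr * ((1 / 2 : ℝ) + (13 / 64) * yb.rr))) rfl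
    yb.CuN yb.e_CuN
    yb.fbt yb.e_fbt
    yb.XLt yb.e_XLt
    (7 : ℝ) zQMa_7696581394432_0
    (10 : ℝ) zQMa_10995116277760_0).2
    ((10 : ℝ)⁻¹) rfl
    yb.beta yb.e_beta
    ((v.h + (1 : ℝ)) * v.op1) rfl
    yb.b1 yb.e_b1
    pk.omr pk.e_omr
    pk.omp pk.e_omp
    ((1 / 2) * hgp) (congrArg (fun y : ℝ => y * hgp) zQMa_549755813888_0)
    ((1 : ℝ) - (1 / 2) * hgp) rfl
    ((1 : ℝ) - hgp) rfl).2
    (((1 : ℝ) - hgp)⁻¹) rfl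
    (((1 : ℝ) - (1 / 2) * hgp) * ((1 : ℝ) - hgp)⁻¹) rfl
    pk.lspf pk.e_lspf
    (v.tu2 * v5.Th) rfl
    ((2731 / 4096) * (v.tu2 * v5.Th)) (congrArg (fun y : ℝ => y * (v.tu2 * v5.Th)) zQMa_733097230336_0)
    ((1 : ℝ) - (2731 / 4096) * (v.tu2 * v5.Th)) rfl
    (v5.Th * ((1 : ℝ) - (2731 / 4096) * (v.tu2 * v5.Th))) rfl
    (lv.rplo * lv.rplo) rfl
    (v.u2 * (lv.rplo * lv.rplo)) rfl
    pk.E0 pk.e_E0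
    pk.lspa pk.e_lspa
    (pk.E0 + (1 : ℝ)) rfl
    (pk.lspa * (pk.E0 + (1 : ℝ))) rfl
    (pk.E0 - pk.lspa * (pk.E0 + (1 : ℝ))) rfl
    ((2731 / 8192) * (v.K * v.K)) (congrArg (fun y : ℝ => y * (v.K * v.K)) zQMa_366548615168_0)
    ((1 : ℝ) - (2731 / 8192) * (v.K * v.K)) rfl
    (v.nj2 * ((1 : ℝ) - (2731 / 8192) * (v.K * v.K))) rfl
    (pk.E0 - pk.lspa * (pk.E0 + (1 : ℝ)) + v.nj2 * ((1 : ℝ) - (2731 / 8192) * (v.K * v.K))) rfl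
    (pk.omr * (pk.E0 - pk.lspa * (pk.E0 + (1 : ℝ)) + v.nj2 * ((1 : ℝ) - (2731 / 8192) * (v.K * v.K)))) rfl
    (pk.omp * pk.omp) rfl
    ((1 : ℝ) + pk.omp * pk.omp) rfl).2
    (((1 : ℝ) + pk.omp * pk.omp)⁻¹) rfl
    pk.pe pk.e_pe
    ((1 : ℝ) - yb.yy) rfl
    pk.ye pk.e_ye
    ((1 : ℝ) - pk.lspa) rfl
  change 0 < (1 : ℝ) - pk.lspa at p_lspa
  obtain ⟨p_pe, s6⟩ := s5
  change 0 < pk.pe at p_pe
  obtain ⟨p_yy, s7⟩ := s6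
  change 0 < (1 : ℝ) - yb.yy at p_yy
  obtain ⟨p_XM, s8⟩ := (((((s7
    (yb.CuN * G4) rfl
    (yb.CuN * G4 * srcx) rfl).2
    (v.op1⁻¹) rfl
    cl.FXt cl.e_FXt
    y1 e_y1
    (v.t * y1) rfl
    ((1 / 2) * (v.t * y1)) (congrArg (fun y : ℝ => y * (v.t * y1)) zQMa_549755813888_0)
    ((1 : ℝ) - (1 / 2) * (v.t * y1)) rfl
    (y1 * ((1 : ℝ) - (1 / 2) * (v.t * y1))) rfl
    cl.S1 cl.e_S1
    (v.u * v.n) rfl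
    (v.u * v.n * (v.h + (1 : ℝ))) rfl
    (v.u * v.n * (v.h + (1 : ℝ)) * v.j) rfl
    cl.a4 cl.e_a4
    (cl.S1 + cl.a4) rfl
    (cl.S1 * cl.a4) rfl
    (v.t * (cl.S1 * cl.a4)) rfl
    cl.S4 cl.e_S4
    cl.Dh cl.e_Dh
    ((3 / 8) * v.D) (congrArg (fun y : ℝ => y * v.D) zQMa_412316860416_0)
    ((1 / 2 : ℝ) - (3 / 8) * v.D) rfl
    (cl.Dh * ((1 / 2 : ℝ) - (3 / 8) * v.D)) rfl
    ((1 : ℝ) * (cl.Dh * ((1 / 2 : ℝ) - (3 / 8) * v.D))) rfl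
    cl.a5 cl.e_a5
    (cl.S4 + cl.a5) rfl
    (cl.S4 * cl.a5) rfl
    (v.t * (cl.S4 * cl.a5)) rfl
    cl.S5 cl.e_S5
    (v.u * yb.eN) rfl
    (v.u * yb.eN * v.op1⁻¹) rfl
    cl.a6 cl.e_a6
    (cl.S5 + cl.a6) rfl
    (cl.S5 * cl.a6) rfl
    (v.t * (cl.S5 * cl.a6)) rfl
    cl.S6 cl.e_S6
    cl.a7 cl.e_a7
    (cl.S6 - cl.a7) rfl
    (v.t * yb.b1) rfl
    ((1 : ℝ) + v.t * yb.b1) rfl).2
    (((1 : ℝ) + v.t * yb.b1)⁻¹) rfl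
    cl.S7 cl.e_S7
    (v.u * v.tu) rfl
    (v.u * v.tu * yb.eN) rfl
    (v.u * v.tu * yb.eN * yb.q0) rfl
    cl.a8 cl.e_a8
    (cl.S7 + cl.a8) rfl
    (cl.S7 * cl.a8) rfl
    (v.t * (cl.S7 * cl.a8)) rfl
    cl.S8 cl.e_S8
    (v.t * cl.S8) rfl
    cl.c1 cl.e_c1
    (yb.fbt * xa.XM) rfl
    (v.t * yb.XLt) rfl
    (cl.FXt * (v.t * yb.XLt)) rfl
    (yb.fbt * xa.XM + cl.FXt * (v.t * yb.XLt)) rfl
    cl.rt cl.e_rt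
    (yb.fbt + cl.FXt) rfl
    cl.fm cl.e_fm
    (cl.rt * cl.c1) rfl
    (cl.S8 + cl.rt * cl.c1) rfl
    (cl.S8 + cl.rt * cl.c1 + cl.fm) rfl
    cl.Bm cl.e_Bm
    ((1 / 1024) * (1 : ℝ)) (congrArg (fun y : ℝ => y * (1 : ℝ)) zQMa_1073741824_0)
    (cl.Bm - (1 / 1024) * (1 : ℝ)) rfl
    yb.m1 yb.e_m1
    (yb.m1 + (2 : ℝ)) rfl
    (2 * yb.beta) (congrArg (fun y : ℝ => y * yb.beta) zQMa_2199023255552_0)
    (yb.m1 + (2 : ℝ) - 2 * yb.beta) rfl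
    ((v.h + (1 : ℝ)) * (yb.m1 + (2 : ℝ) - 2 * yb.beta)) rfl
    (yb.m1 * (2 * yb.beta)) rfl
    (yb.m1 * (2 * yb.beta) + (1 : ℝ)) rfl).2
    ((yb.m1 * (2 * yb.beta) + (1 : ℝ))⁻¹) rfl
    ((v.h + (1 : ℝ)) * (yb.m1 + (2 : ℝ) - 2 * yb.beta) * (yb.m1 * (2 * yb.beta) + (1 : ℝ))⁻¹) rfl
    (xa.AE * yb.fxe) rfl
    ((1 / 2) * v2.lm) (congrArg (fun y : ℝ => y * v2.lm) zQMa_549755813888_0)
    (v.K + (1 / 2) * v2.lm) rfl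
    (xa.AE * yb.fxe * (v.K + (1 / 2) * v2.lm)) rfl
    (2 * (xa.AE * yb.fxe * (v.K + (1 / 2) * v2.lm))) (congrArg (fun y : ℝ => y * (xa.AE * yb.fxe * (v.K + (1 / 2) * v2.lm))) zQMa_2199023255552_0)
    (yb.src + 2 * (xa.AE * yb.fxe * (v.K + (1 / 2) * v2.lm))) rfl
    (2 * (yb.src + 2 * (xa.AE * yb.fxe * (v.K + (1 / 2) * v2.lm)))) (congrArg (fun y : ℝ => y * (yb.src + 2 * (xa.AE * yb.fxe * (v.K + (1 / 2) * v2.lm)))) zQMa_2199023255552_0)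
    (2 * (yb.src + 2 * (xa.AE * yb.fxe * (v.K + (1 / 2) * v2.lm))) * yb.NN) rfl
    (v.tu * yb.eN) rfl
    (v.op1 - v.tu * yb.eN) rfl).2
    ((v.op1 - v.tu * yb.eN)⁻¹) rfl
    (2 * (yb.src + 2 * (xa.AE * yb.fxe * (v.K + (1 / 2) * v2.lm))) * yb.NN * (v.op1 - v.tu * yb.eN)⁻¹) rfl
    yb.V yb.e_V
    ((1 : ℝ) * v.nj * ((1 : ℝ) * v.nj)) rfl
    (13 : ℝ) zQMa_14293651161088_0
    ((13 : ℝ) * (10 : ℝ)⁻¹) rfl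
    ((1 : ℝ) * v.nj * ((1 : ℝ) * v.nj) * ((13 : ℝ) * (10 : ℝ)⁻¹)) rfl
    (S * S) rfl
    (25 * (S * S)) (congrArg (fun y : ℝ => y * (S * S)) zQMa_27487790694400_0)
    yb.C2 yb.e_C2
    yb.gr yb.e_gr
    (2 * v.c0 - v.t) rfl
    yb.Gt yb.e_Gt
    ((1 : ℝ) * v.u) rfl
    yb.au yb.e_au
    (v.op1 * yb.fxe) rfl
    (v.op1 * yb.fxe * xa.iG4) rfl
    yb.inner yb.e_inner
    (v.tu * yb.eN + (2 : ℝ)) rfl
    yb.ezs yb.e_ezs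
    (yb.C2 * yb.gr) rfl
    (yb.NN * yb.ezs) rfl
    (yb.au * yb.inner) rfl
    (yb.NN * yb.ezs * (yb.au * yb.inner)) rfl
    yb.Rg0 yb.e_Rg0
    ((1 / 2) * (v.tu * yb.eN)) (congrArg (fun y : ℝ => y * (v.tu * yb.eN)) zQMa_549755813888_0)
    ((1 : ℝ) + (1 / 2) * (v.tu * yb.eN)) rfl
    (yb.NN * ((1 : ℝ) + (1 / 2) * (v.tu * yb.eN))) rfl
    (v.t * v.om1) rfl
    (v.t * v.om1 * v2.bsum) rfl
    (v.op1 * v.aQ) rfl).2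
    ((v.op1 * v.aQ)⁻¹) rfl
    (v.t * v.om1 * v2.bsum * (v.op1 * v.aQ)⁻¹) rfl
    (yb.NN * ((1 : ℝ) + (1 / 2) * (v.tu * yb.eN)) * (v.t * v.om1 * v2.bsum * (v.op1 * v.aQ)⁻¹)) rfl
    yb.Rh yb.e_Rh
    (v2.lm * yb.Rg0) rfl
    ((1 : ℝ) - v2.lm) rfl
    (v.u2 * yb.Rh) rfl
    (((1 : ℝ) - v2.lm) * (v.u2 * yb.Rh)) rfl
    (yb.C2 * (((1 : ℝ) - v2.lm) * (v.u2 * yb.Rh))) rfl
    yb.Rg yb.e_Rg
  change 0 < (1 : ℝ) - xa.XM at p_XM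
  obtain ⟨p_QX, s9⟩ := s8
  change 0 < (1 : ℝ) - xa.QX at p_QX
  obtain ⟨p_e2, s10⟩ := s9
    (2 * (v.tu2 * yb.epd)) (congrArg (fun y : ℝ => y * (v.tu2 * yb.epd)) zQMa_2199023255552_0)
    (v.aQ - 2 * (v.tu2 * yb.epd)) rfl
  change 0 < v.aQ - 2 * (v.tu2 * yb.epd) at p_e2
  obtain ⟨p_rl, s11⟩ := s10
  change 0 < yb.rl at p_rl
  obtain ⟨p_hgp, s12⟩ := s11
    ((1 / 2 : ℝ) - hgp) rfl
  change 0 < (1 / 2 : ℝ) - hgp at p_hgp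
  obtain ⟨p_l1, s13⟩ := s12
    ((5 / 8) * (1 : ℝ)) (congrArg (fun y : ℝ => y * (1 : ℝ)) zQMa_687194767360_0)
    ((5 / 8) * (1 : ℝ) - xa.l1) rfl
  change 0 < (5 / 8) * (1 : ℝ) - xa.l1 at p_l1
  obtain ⟨p_a0, s14⟩ := s13
    ((11 / 32) * (1 : ℝ)) (congrArg (fun y : ℝ => y * (1 : ℝ)) zQMa_377957122048_0)
    ((11 / 32) * (1 : ℝ) - xa.a0) rfl
  change 0 < (11 / 32) * (1 : ℝ) - xa.a0 at p_a0
  obtain ⟨p_S, s15⟩ := s14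
  change 0 < v.op1 - v.tu * yb.eN at p_S
  obtain ⟨p_zp, s16⟩ := s15
  change 0 < (1 : ℝ) - yb.zp at p_zp
  obtain ⟨p_rr, s17⟩ := s16
    ((5 / 8) * (1 : ℝ) - yb.rr) rfl
  change 0 < (5 / 8) * (1 : ℝ) - yb.rr at p_rr
  obtain ⟨p_V, s18⟩ := s17
  change 0 < yb.V at p_V
  obtain ⟨p_B, s19⟩ := s18
  change 0 < cl.Bm - (1 / 1024) * (1 : ℝ) at p_B
  obtain ⟨p_Rg, s20⟩ := s19
  change 0 < yb.Rg at p_Rg
  obtain ⟨p_Rh, s21⟩ := s20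
  change 0 < yb.Rh at p_Rh
  have hQ := qb_s G f lv.e_rhi e_q e_th
  have hq := hQ.le
  have hQp := qb_p G f p_rplo.le lv.e_rphi e_qp e_thp
  have hqp := hQp.le
  have hq0 : 0 < q := lt_of_lt_of_le (by rw [G.q_eq]; exact G.q0) hq
  have hγ := gam_le_one G.e0 G.κ0 G.s0
  have hccp : ccp ≤ Real.cos (v.e * (Qk κ (shf κ (shf κ τ))).arg) := cc_q (arg_xp G v3 v5 hsc e_w e_x e_xp) e_ccp p_xqp
  have hgRp := gR_GD G.e0 G.κ0 (shf_re' G.κ0 G.s0) b' hQp hccp (G.hp_eq v3) p_o2p p_Wp e_gp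
  have hγp := gam_g G.e0 G.κ0 (shf_re' G.κ0 G.s0) hgRp e_gap
  have hoo := oo_sharp8 G.κ0 G.s0 hQ (Qre0 G) hsc.ee (x_eq G v5 hsc e_w e_x) e_cu e_xe e_o2u e_ooo
  have hn1 : ‖1 + qq v.e κ (shf κ τ)‖ ≤ Q1 := by
    rw [e_Q1]; exact n1_sharp8 G.e0 G.κ0 G.s0 hq hoo (hg_le G hγ e_hg)
  have hlx : 1 * lsx = v.h1t * lsf * 1 := by rw [e_lsx, one_mul]
  have fr := fr_g G hγ hq hq0 e_hg e_lsf p_hg e_Qb e_ls (hsc.al0 G) hlx hn1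
  have hgu : 1 * gu = gap * S := by rw [e_gu]; ring
  obtain ⟨lf0, Ex, hφ⟩ := ph_slz G v2 hsc e_tz hde' hu hz0 he2 (by norm_num) (by norm_num) (by norm_num) e_phux e_Ei e_Eh
  have as8 : As8 xa yb := ⟨p_XM, p_QX, p_e2, p_rl, p_l1, p_a0, p_S, p_zp, p_rr, p_V, p_Rg, p_Rh⟩
  exact far_Cl G D hsc hA0 hA as8 fr hgu hγp hφ pk f p_rplo e_hgp p_hgp p_lspa p_pe p_yy cl e_srcx e_srcs
    (mul_one v.t) G.t0 (by linear_combination v.t * e_y1 - pk.ye * e_r) p_B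

theorem far_QMa4 {κ : ℝ} {τ : ℂ} {R w : ℝ} {v : B1} (D : PtE (7 * 10⁻¹) v.e κ τ R w)
    (G : Geo κ (shf κ τ) v) (v2 : B2 v) (v3 : B3 v) (v5 : V5 v) {l1 : Lg v.D} {l2 : Lg v.D2}
    (lv : LV v l1 l2) (he2 : 2 ≤ v.e) {S z de : ℝ}
    (hde0 : 0 < de) (hde : de = v.t * z * S) (hu : v.u = z * de) (hz0 : 0 < z)
    (hee : v.e * (de * de) = 1)
    (h : RAs Pool.Agent.helper71.FJ.Crt.QMa.prog4 [S, v.t, z, v.n]) :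
    FarPt v.e κ (1 - Real.sinh κ / 1024) w (2 * AQ v.e v.K * Real.sinh κ ^ 2) R
      (RE v.e κ (w * R)) τ := by
  obtain ⟨tz, e_tz⟩ : ∃ zz : ℝ, zz = v.t * z := ⟨_, rfl⟩
  have hde' : de = tz * S := by rw [e_tz]; exact hde
  obtain ⟨z2, e_z2⟩ : ∃ zz : ℝ, zz = z * z := ⟨_, rfl⟩
  obtain ⟨r, e_r⟩ : ∃ zz : ℝ, zz = v.t * z2 := ⟨_, rfl⟩
  obtain ⟨eps, e_eps⟩ : ∃ zz : ℝ, zz = de * de := ⟨_, rfl⟩
  obtain ⟨tr, e_tr⟩ : ∃ zz : ℝ, zz = v.t * r := ⟨_, rfl⟩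
  obtain ⟨q, e_q⟩ : ∃ zz : ℝ, zz = Real.exp (-(r * lv.rlo)) := ⟨_, rfl⟩
  obtain ⟨th, e_th⟩ : ∃ zz : ℝ, zz = q * (r * lv.er) := ⟨_, rfl⟩
  obtain ⟨wv, e_w⟩ : ∃ zz : ℝ, zz = (1 : ℝ) * (S * (v.c0 + v.R))⁻¹ := ⟨_, rfl⟩
  obtain ⟨xv, e_x⟩ : ∃ zz : ℝ, zz = wv * wv * v5.sn := ⟨_, rfl⟩
  obtain ⟨hg, e_hg⟩ : ∃ zz : ℝ, zz = v.h1 * (1 : ℝ) := ⟨_, rfl⟩
  obtain ⟨lsf, e_lsf⟩ : ∃ zz : ℝ, zz = ((1 : ℝ) - (1 / 2) * hg) * ((1 : ℝ) - hg)⁻¹ := ⟨_, rfl⟩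
  obtain ⟨Qb, e_Qb⟩ : ∃ zz : ℝ, zz = q * (hg + (1 : ℝ)) := ⟨_, rfl⟩
  obtain ⟨lsx, e_lsx⟩ : ∃ zz : ℝ, zz = v.h1t * lsf * (1 : ℝ) := ⟨_, rfl⟩
  obtain ⟨ls, e_ls⟩ : ∃ zz : ℝ, zz = hg * lsf := ⟨_, rfl⟩
  obtain ⟨hgp, e_hgp⟩ : ∃ zz : ℝ, zz = v3.hp * (1 : ℝ) := ⟨_, rfl⟩
  obtain ⟨gu, e_gu⟩ : ∃ zz : ℝ, zz = (1 : ℝ) * S := ⟨_, rfl⟩
  obtain ⟨G4, e_G4⟩ : ∃ zz : ℝ, zz = 4 * S + (1 : ℝ) * v.nj := ⟨_, rfl⟩
  obtain ⟨Ei, e_Ei⟩ : ∃ zz : ℝ, zz = 2 * eps + (1 : ℝ) := ⟨_, rfl⟩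
  obtain ⟨Eh, e_Eh⟩ : ∃ zz : ℝ, zz = eps + (1 : ℝ) := ⟨_, rfl⟩
  obtain ⟨phux, e_phux⟩ : ∃ zz : ℝ, zz = (1 / 2) * (z * (2 * (S * v.nj) + (1 / 2) * v.t)) := ⟨_, rfl⟩
  obtain ⟨cu, e_cu⟩ : ∃ zz : ℝ, zz = (1 : ℝ) - xv * ((1 / 2 : ℝ) - xv * ((45812984491 / 1099511627776 : ℝ) - xv * ((1527099483 / 1099511627776 : ℝ) - xv * ((13634817 / 549755813888 : ℝ) - xv * ((302995 / 1099511627776 : ℝ) - xv * ((287 / 137438953472 : ℝ) - xv * ((3 / 274877906944 : ℝ) - xv * (1 / 1099511627776 : ℝ)))))))) := ⟨_, rfl⟩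
  obtain ⟨xe, e_xe⟩ : ∃ zz : ℝ, zz = xv * eps := ⟨_, rfl⟩
  obtain ⟨o2u, e_o2u⟩ : ∃ zz : ℝ, zz = q * q + (1 : ℝ) + 2 * (q * (cu + (43 / 128) * (xe * xe))) + 2 * th := ⟨_, rfl⟩
  obtain ⟨ooo, e_ooo⟩ : ∃ zz : ℝ, zz = Real.exp ((1 / 2) * Real.log (o2u + (1 / 128 : ℝ))) := ⟨_, rfl⟩
  obtain ⟨Q1, e_Q1⟩ : ∃ zz : ℝ, zz = ooo + q * hg := ⟨_, rfl⟩
  obtain ⟨xa⟩ := exKa v2 eps 1 S G4 Qb Q1 ls lsx phux Ei Eh
  obtain ⟨srcx, e_srcx⟩ : ∃ zz : ℝ, zz = v.om1 * ((1 / 2) * (r * v2.bsum * v.aQ⁻¹)) + xa.kl := ⟨_, rfl⟩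
  obtain ⟨srcs, e_srcs⟩ : ∃ zz : ℝ, zz = v.t * srcx := ⟨_, rfl⟩
  obtain ⟨yb⟩ := exKb (7 * 10⁻¹) xa tr 1 gu srcs
  obtain ⟨pk⟩ := exPk v5 lv.rplo v3.hp hgp gu yb.yy
  obtain ⟨y1, e_y1⟩ : ∃ zz : ℝ, zz = z2 * pk.ye := ⟨_, rfl⟩
  obtain ⟨cl⟩ := exCl yb v.t 1 y1 srcx
  have hsc := sc_Ma hde' e_tz hu hee hde0 G.t0 hz0.le e_z2 e_r e_tr e_eps
  obtain ⟨hA0, hA⟩ := hA_Q G hsc e_G4
  have f := lv.f G hsc.hr
  obtain ⟨p_hg, s0⟩ := ((((((((((h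
    (1 : ℝ) zQMa_1099511627776_0
    tz e_tz
    de hde'
    v.u hu
    z2 e_z2
    r e_r
    eps e_eps
    tr e_tr
    (1 / 2 : ℝ) zQMa_549755813888_0
    v.tu v.e_tu
    (v.tu * v.n) rfl
    v.h (v.e_h.trans (congrArg (fun y : ℝ => y * (v.tu * v.n)) zQMa_549755813888_0))
    v.u2 v.e_u2
    (v.h * v.h) rfl
    v.jm v.e_jm).2
    v.j v.e_j
    (v.h * v.j) rfl
    v.K (v.e_K.trans (congrArg (fun y : ℝ => y * (v.h * v.j)) zQMa_2199023255552_0))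
    (2 * v.j) (congrArg (fun y : ℝ => y * v.j) zQMa_2199023255552_0)
    v.c0 v.e_c0
    v.m v.e_m
    v.nj v.e_nj
    v.om v.e_om
    v.om1 v.e_om1
    v.op1 v.e_op1
    v.R v.e_R
    v.nj2 v.e_nj2
    v2.Y (v2.e_Y.trans (congrArg (fun y : ℝ => y * v.h) zQMa_10774999203840_0))
    ((341 / 8192) * v2.Y) (congrArg (fun y : ℝ => y * v2.Y) zQMa_45768245248_0)
    (1365 / 8192 : ℝ) zQMa_183207198720_0
    ((341 / 8192) * v2.Y + (1365 / 8192 : ℝ)) rfl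
    (v2.Y * ((341 / 8192) * v2.Y + (1365 / 8192 : ℝ))) rfl
    ((1 / 2 : ℝ) + v2.Y * ((341 / 8192) * v2.Y + (1365 / 8192 : ℝ))) rfl
    (v2.Y * ((1 / 2 : ℝ) + v2.Y * ((341 / 8192) * v2.Y + (1365 / 8192 : ℝ)))) rfl
    v2.pY v2.e_pY
    (v2.Y * v2.pY) rfl
    ((1 / 2) * (v2.Y * v2.pY)) (congrArg (fun y : ℝ => y * (v2.Y * v2.pY)) zQMa_549755813888_0)
    ((1 : ℝ) + (1 / 2) * (v2.Y * v2.pY)) rfl
    v2.Yp v2.e_Yp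
    (v.K * v.om) rfl
    (2 * v.c0) (congrArg (fun y : ℝ => y * v.c0) zQMa_2199023255552_0)
    (v.K * v.om + 2 * v.c0) rfl
    v.Dt v.e_Dt
    v.D v.e_D
    v.SQ v.e_SQ
    (v.K * v.K) rfl
    (2 * (v.K * v.K)) (congrArg (fun y : ℝ => y * (v.K * v.K)) zQMa_2199023255552_0)
    v.c2 v.e_c2
    (v.c0 * v.Dt) rfl
    v.rhat v.e_rhat).2
    v.LQ v.e_LQ
    ((1 / 2) * v.LQ) (congrArg (fun y : ℝ => y * v.LQ) zQMa_549755813888_0)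
    v.aQ v.e_aQ
    (3 : ℝ) zQMa_3298534883328_0).2
    ((3 : ℝ)⁻¹) rfl
    ((1 : ℝ) * (3 : ℝ)⁻¹) rfl
    (2 : ℝ) zQMa_2199023255552_0
    (v.D + (2 : ℝ)) rfl).2
    ((v.D + (2 : ℝ))⁻¹) rfl
    l1.zL l1.e_zL
    l1.zz l1.e_zz
    ((1 : ℝ) - l1.zL) rfl
    (l1.zz * ((1 : ℝ) * (3 : ℝ)⁻¹)) rfl
    ((1 : ℝ) + l1.zz * ((1 : ℝ) * (3 : ℝ)⁻¹)) rfl
    l1.Lv l1.e_Lv
    (l1.zz * l1.zz) rfl
    l1.eL (l1.e_eL.trans (congrArg (fun y : ℝ => y * (l1.zz * l1.zz)) zQMa_219915747328_0))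
    (v.Dt * l1.Lv) rfl
    lv.rlo (lv.e_rlo.trans (congrArg (fun y : ℝ => y * (v.Dt * l1.Lv)) zQMa_549755813888_0))
    (v.Dt * l1.eL) rfl
    lv.er (lv.e_er.trans (congrArg (fun y : ℝ => y * (v.Dt * l1.eL)) zQMa_549755813888_0))
    lv.rhi lv.e_rhi
    (v.c0 * v.rhat) rfl
    lv.D2R (lv.e_D2R.trans (congrArg (fun y : ℝ => y * (v.c0 * v.rhat)) zQMa_4398046511104_0))
    (v.c0 * v.R) rfl
    (v.c0 * v.R * v.rhat) rfl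
    v.D2 (v.e_D2.trans (congrArg (fun y : ℝ => y * (v.c0 * v.R * v.rhat)) zQMa_4398046511104_0))
    (v.D2 + (2 : ℝ)) rfl).2
    ((v.D2 + (2 : ℝ))⁻¹) rfl
    l2.zL l2.e_zL
    l2.zz l2.e_zz
    ((1 : ℝ) - l2.zL) rfl
    (l2.zz * ((1 : ℝ) * (3 : ℝ)⁻¹)) rfl
    ((1 : ℝ) + l2.zz * ((1 : ℝ) * (3 : ℝ)⁻¹)) rfl
    l2.Lv l2.e_Lv
    (l2.zz * l2.zz) rfl
    l2.eL (l2.e_eL.trans (congrArg (fun y : ℝ => y * (l2.zz * l2.zz)) zQMa_219915747328_0))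
    (lv.D2R * l2.Lv) rfl
    ((1 / 2) * (lv.D2R * l2.Lv)) (congrArg (fun y : ℝ => y * (lv.D2R * l2.Lv)) zQMa_549755813888_0)
    lv.rplo lv.e_rplo
    (lv.D2R * l2.eL) rfl
    ((1 / 2) * (lv.D2R * l2.eL)) (congrArg (fun y : ℝ => y * (lv.D2R * l2.eL)) zQMa_549755813888_0)
    lv.erp lv.e_erp
    lv.rphi lv.e_rphi
    (r * lv.rlo) rfl
    (-(r * lv.rlo)) rfl
    q e_q
    (r * lv.er) rfl
    th e_th
    (v.om * v.K) rfl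
    (v.c0 + v.om * v.K) rfl).2
    v.ioK v.e_ioK
    v.h1t v.e_h1t
    (v.om1 * v.t) rfl
    v.h1 v.e_h1
    ((1 : ℝ) - v.u2) rfl
    v.f2 v.e_f2
    v.tu2 v.e_tu2
    ((1 : ℝ) - v.nj2) rfl
    v5.sn v5.e_sn
    (v.R * v.rhat) rfl).2
    (v.SQ⁻¹) rfl
    v5.R1 v5.e_R1
    (v.c0 + v5.R1) rfl
    v5.Qr v5.e_Qr
    (v5.Qr * v5.Qr) rfl).2
    ((v5.Qr * v5.Qr)⁻¹) rfl
    v5.Th v5.e_Th
    (v.c0 + v.R) rfl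
    (S * (v.c0 + v.R)) rfl).2
    ((S * (v.c0 + v.R))⁻¹) rfl
    wv e_w
    (wv * wv) rfl
    xv e_x
    hg e_hg
    ((1 / 2) * hg) (congrArg (fun y : ℝ => y * hg) zQMa_549755813888_0)
    ((1 : ℝ) - (1 / 2) * hg) rfl
    ((1 : ℝ) - hg) rfl).2
    (((1 : ℝ) - hg)⁻¹) rfl
    lsf e_lsf
    (hg + (1 : ℝ)) rfl
    Qb e_Qb
    (v.h1t * lsf) rfl
    lsx e_lsx
    ls e_ls
  change 0 < (1 : ℝ) - hg at p_hg
  obtain ⟨p_rplo, s1⟩ := (s0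
    (v.om1 * v.op1) rfl
    (v.c0 + v.t) rfl
    (v.om * v.c0) rfl
    (v.om * v.c0 * v.K) rfl
    (2 * (v.om * v.c0 * v.K)) (congrArg (fun y : ℝ => y * (v.om * v.c0 * v.K)) zQMa_2199023255552_0)
    (v.c2 + 2 * (v.om * v.c0 * v.K)) rfl
    ((v.c0 + v.t) * (v.c2 + 2 * (v.om * v.c0 * v.K))) rfl).2
    (((v.c0 + v.t) * (v.c2 + 2 * (v.om * v.c0 * v.K)))⁻¹) rfl
    v3.hpt v3.e_hpt
    v3.hp v3.e_hp
  change 0 < lv.rplo at p_rplo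
  obtain ⟨p_lspa, s2⟩ := ((((((((((((((s1
    hgp e_hgp
    gu e_gu
    (v.h + (1 : ℝ)) rfl).2
    v2.ih v2.e_ih
    (v.h * v2.ih) rfl
    v2.rh (v2.e_rh.trans (congrArg (fun y : ℝ => y * (v.h * v2.ih)) zQMa_2199023255552_0))
    v2.mi v2.e_mi
    v2.hm v2.e_hm
    v2.nih v2.e_nih
    (v2.nih * v2.mi) rfl
    v2.bsum v2.e_bsum
    ((209 / 1024) * v.j) (congrArg (fun y : ℝ => y * v.j) zQMa_224412041216_0)).2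
    (v2.Yp⁻¹) rfl
    v2.lm v2.e_lm
    (4 * S) (congrArg (fun y : ℝ => y * S) zQMa_4398046511104_0)
    ((1 : ℝ) * v.nj) rfl
    G4 e_G4).2
    xa.iG4 xa.e_iG4
    xa.alG xa.e_alG
    xa.AE xa.e_AE
    (xa.AE * v.op1) rfl
    xa.XeE xa.e_XeE
    (xa.alG * v.op1) rfl
    xa.XM xa.e_XM
    ((1 : ℝ) - xa.XM) rfl).2
    xa.iX xa.e_iX
    xa.QX xa.e_QX
    ((1 : ℝ) - xa.QX) rfl).2
    xa.iQX xa.e_iQX
    (2 * eps) (congrArg (fun y : ℝ => y * eps) zQMa_2199023255552_0)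
    Ei e_Ei
    Eh e_Eh
    (S * v.nj) rfl
    (2 * (S * v.nj)) (congrArg (fun y : ℝ => y * (S * v.nj)) zQMa_2199023255552_0)
    ((1 / 2) * v.t) (congrArg (fun y : ℝ => y * v.t) zQMa_549755813888_0)
    (2 * (S * v.nj) + (1 / 2) * v.t) rfl
    (z * (2 * (S * v.nj) + (1 / 2) * v.t)) rfl
    phux (e_phux.trans (congrArg (fun y : ℝ => y * (z * (2 * (S * v.nj) + (1 / 2) * v.t))) zQMa_549755813888_0))
    (v.h * v.nj) rfl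
    ((1 : ℝ) - v.f2) rfl
    (v.h * v.om) rfl
    (2 * (v.h * v.om)) (congrArg (fun y : ℝ => y * (v.h * v.om)) zQMa_2199023255552_0)
    ((1 : ℝ) - v.f2 - 2 * (v.h * v.om)) rfl
    (v.h * v.nj * (v.h * v.nj)) rfl
    xa.N1 xa.e_N1
    (xa.N1 + (1 : ℝ)) rfl
    xa.s (xa.e_s.trans (congrArg (fun y : ℝ => y * (xa.N1 + (1 : ℝ))) zQMa_549755813888_0))
    ((1 / 2) * v.R) (congrArg (fun y : ℝ => y * v.R) zQMa_549755813888_0)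
    (v.j - (1 / 2) * v.R) rfl
    (v.tu2 * ((1 : ℝ) - v.f2)) rfl
    (v.tu2 * ((1 : ℝ) - v.f2) * v.jm) rfl
    ((1 / 8) * (v.tu2 * ((1 : ℝ) - v.f2) * v.jm)) (congrArg (fun y : ℝ => y * (v.tu2 * ((1 : ℝ) - v.f2) * v.jm)) zQMa_137438953472_0)
    (v.j - (1 / 2) * v.R + (1 / 8) * (v.tu2 * ((1 : ℝ) - v.f2) * v.jm)) rfl
    xa.k0 xa.e_k0
    (1 / 1099511627776 : ℝ) zQMa_1_0
    (3 / 274877906944 : ℝ) zQMa_12_0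
    (xv * (1 / 1099511627776 : ℝ)) rfl
    ((3 / 274877906944 : ℝ) - xv * (1 / 1099511627776 : ℝ)) rfl
    (287 / 137438953472 : ℝ) zQMa_2296_0
    (xv * ((3 / 274877906944 : ℝ) - xv * (1 / 1099511627776 : ℝ))) rfl
    ((287 / 137438953472 : ℝ) - xv * ((3 / 274877906944 : ℝ) - xv * (1 / 1099511627776 : ℝ))) rfl
    (302995 / 1099511627776 : ℝ) zQMa_302995_0
    (xv * ((287 / 137438953472 : ℝ) - xv * ((3 / 274877906944 : ℝ) - xv * (1 / 1099511627776 : ℝ)))) rfl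
    ((302995 / 1099511627776 : ℝ) - xv * ((287 / 137438953472 : ℝ) - xv * ((3 / 274877906944 : ℝ) - xv * (1 / 1099511627776 : ℝ)))) rfl
    (13634817 / 549755813888 : ℝ) zQMa_27269634_0
    (xv * ((302995 / 1099511627776 : ℝ) - xv * ((287 / 137438953472 : ℝ) - xv * ((3 / 274877906944 : ℝ) - xv * (1 / 1099511627776 : ℝ))))) rfl
    ((13634817 / 549755813888 : ℝ) - xv * ((302995 / 1099511627776 : ℝ) - xv * ((287 / 137438953472 : ℝ) - xv * ((3 / 274877906944 : ℝ) - xv * (1 / 1099511627776 : ℝ))))) rfl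
    (1527099483 / 1099511627776 : ℝ) zQMa_1527099483_0
    (xv * ((13634817 / 549755813888 : ℝ) - xv * ((302995 / 1099511627776 : ℝ) - xv * ((287 / 137438953472 : ℝ) - xv * ((3 / 274877906944 : ℝ) - xv * (1 / 1099511627776 : ℝ)))))) rfl
    ((1527099483 / 1099511627776 : ℝ) - xv * ((13634817 / 549755813888 : ℝ) - xv * ((302995 / 1099511627776 : ℝ) - xv * ((287 / 137438953472 : ℝ) - xv * ((3 / 274877906944 : ℝ) - xv * (1 / 1099511627776 : ℝ)))))) rfl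
    (45812984491 / 1099511627776 : ℝ) zQMa_45812984491_0
    (xv * ((1527099483 / 1099511627776 : ℝ) - xv * ((13634817 / 549755813888 : ℝ) - xv * ((302995 / 1099511627776 : ℝ) - xv * ((287 / 137438953472 : ℝ) - xv * ((3 / 274877906944 : ℝ) - xv * (1 / 1099511627776 : ℝ))))))) rfl
    ((45812984491 / 1099511627776 : ℝ) - xv * ((1527099483 / 1099511627776 : ℝ) - xv * ((13634817 / 549755813888 : ℝ) - xv * ((302995 / 1099511627776 : ℝ) - xv * ((287 / 137438953472 : ℝ) - xv * ((3 / 274877906944 : ℝ) - xv * (1 / 1099511627776 : ℝ))))))) rfl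
    (xv * ((45812984491 / 1099511627776 : ℝ) - xv * ((1527099483 / 1099511627776 : ℝ) - xv * ((13634817 / 549755813888 : ℝ) - xv * ((302995 / 1099511627776 : ℝ) - xv * ((287 / 137438953472 : ℝ) - xv * ((3 / 274877906944 : ℝ) - xv * (1 / 1099511627776 : ℝ)))))))) rfl
    ((1 / 2 : ℝ) - xv * ((45812984491 / 1099511627776 : ℝ) - xv * ((1527099483 / 1099511627776 : ℝ) - xv * ((13634817 / 549755813888 : ℝ) - xv * ((302995 / 1099511627776 : ℝ) - xv * ((287 / 137438953472 : ℝ) - xv * ((3 / 274877906944 : ℝ) - xv * (1 / 1099511627776 : ℝ)))))))) rfl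
    (xv * ((1 / 2 : ℝ) - xv * ((45812984491 / 1099511627776 : ℝ) - xv * ((1527099483 / 1099511627776 : ℝ) - xv * ((13634817 / 549755813888 : ℝ) - xv * ((302995 / 1099511627776 : ℝ) - xv * ((287 / 137438953472 : ℝ) - xv * ((3 / 274877906944 : ℝ) - xv * (1 / 1099511627776 : ℝ))))))))) rfl
    cu e_cu
    xe e_xe
    (q * q) rfl
    (q * q + (1 : ℝ)) rfl
    (xe * xe) rfl
    ((43 / 128) * (xe * xe)) (congrArg (fun y : ℝ => y * (xe * xe)) zQMa_369367187456_0)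
    (cu + (43 / 128) * (xe * xe)) rfl
    (q * (cu + (43 / 128) * (xe * xe))) rfl
    (2 * (q * (cu + (43 / 128) * (xe * xe)))) (congrArg (fun y : ℝ => y * (q * (cu + (43 / 128) * (xe * xe)))) zQMa_2199023255552_0)
    (q * q + (1 : ℝ) + 2 * (q * (cu + (43 / 128) * (xe * xe)))) rfl
    (2 * th) (congrArg (fun y : ℝ => y * th) zQMa_2199023255552_0)
    o2u e_o2u
    (1 / 128 : ℝ) zQMa_8589934592_0
    (o2u + (1 / 128 : ℝ)) rfl).2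
    (Real.log (o2u + (1 / 128 : ℝ))) rfl
    ((1 / 2) * Real.log (o2u + (1 / 128 : ℝ))) (congrArg (fun y : ℝ => y * Real.log (o2u + (1 / 128 : ℝ))) zQMa_549755813888_0)
    ooo e_ooo
    (q * hg) rfl
    Q1 e_Q1
    (Q1 * xa.iX) rfl
    (Qb * xa.iQX) rfl
    (Q1 * xa.iX + Qb * xa.iQX) rfl
    (xa.XM * (Q1 * xa.iX + Qb * xa.iQX)) rfl
    (ls + xa.XM * (Q1 * xa.iX + Qb * xa.iQX)) rfl
    xa.a0 xa.e_a0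
    (Q1 * xa.XM) rfl
    (Q1 * xa.XM * xa.iX) rfl
    (ls + Q1 * xa.XM * xa.iX) rfl
    xa.l1 xa.e_l1
    ((13 / 64) * xa.l1) (congrArg (fun y : ℝ => y * xa.l1) zQMa_223338299392_0)
    ((1 / 2 : ℝ) + (13 / 64) * xa.l1) rfl
    (xa.l1 * ((1 / 2 : ℝ) + (13 / 64) * xa.l1)) rfl
    xa.Na xa.e_Na
    ((13 / 16) * xa.a0) (congrArg (fun y : ℝ => y * xa.a0) zQMa_893353197568_0)
    ((1 : ℝ) + (13 / 16) * xa.a0) rfl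
    (xa.a0 * ((1 : ℝ) + (13 / 16) * xa.a0)) rfl
    xa.Nb xa.e_Nb
    (v2.rh * v2.nih) rfl
    (v2.rh * v2.nih * Ei) rfl
    xa.rn xa.e_rn
    (xa.k0 * xa.Na) rfl
    (v.aQ + (1 / 2 : ℝ)) rfl
    (xa.rn * (v.aQ + (1 / 2 : ℝ))) rfl
    xa.ka xa.e_ka
    (v.aQ + (1 : ℝ)) rfl
    xa.kb xa.e_kb
    (Eh * (v.aQ + (1 : ℝ))) rfl
    (Eh * (v.aQ + (1 : ℝ)) * v2.nih) rfl
    xa.lfk xa.e_lfk
    (xa.ka * lsx) rfl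
    (xa.lfk * phux) rfl
    xa.kl xa.e_kl
    (r * v2.bsum) rfl).2
    (v.aQ⁻¹) rfl
    (r * v2.bsum * v.aQ⁻¹) rfl
    ((1 / 2) * (r * v2.bsum * v.aQ⁻¹)) (congrArg (fun y : ℝ => y * (r * v2.bsum * v.aQ⁻¹)) zQMa_549755813888_0)
    (v.om1 * ((1 / 2) * (r * v2.bsum * v.aQ⁻¹))) rfl
    srcx e_srcx
    srcs e_srcs
    yb.src yb.e_src
    (xa.ka * Q1) rfl
    (xa.ka * Q1 * xa.iX) rfl
    (xa.kb * Qb) rfl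
    (xa.kb * Qb * xa.iQX) rfl
    yb.fxe yb.e_fxe
    (v.om1 * yb.src) rfl
    (xa.XeE * yb.fxe) rfl
    yb.epd yb.e_epd
    (v.tu2 * yb.epd) rfl
    (v.tu2 * yb.epd * v.aQ⁻¹) rfl
    ((1 : ℝ) - v.tu2 * yb.epd * v.aQ⁻¹) rfl).2
    yb.NN yb.e_NN
    yb.eN yb.e_eN
    yb.d yb.e_d
    yb.eta yb.e_eta
    (yb.eta * v.aQ⁻¹) rfl
    ((1 : ℝ) - yb.eta * v.aQ⁻¹) rfl
    (v.rhat * ((1 : ℝ) - yb.eta * v.aQ⁻¹)) rfl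
    yb.rl yb.e_rl).2
    yb.irl yb.e_irl
    yb.yy yb.e_yy
    (v.aQ - yb.eta) rfl).2
    yb.q0 yb.e_q0
    yb.zp yb.e_zp
    ((1 / 2) * yb.zp) (congrArg (fun y : ℝ => y * yb.zp) zQMa_549755813888_0)
    ((1 : ℝ) - (1 / 2) * yb.zp) rfl
    ((1 : ℝ) - yb.zp) rfl).2
    (((1 : ℝ) - yb.zp)⁻¹) rfl
    yb.kzp yb.e_kzp
    (v.u * yb.q0) rfl
    (gu * yb.irl) rfl
    (gu * yb.irl * yb.kzp) rfl
    yb.Cu yb.e_Cu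
    (tr * yb.eN) rfl
    (yb.q0 * (tr * yb.eN)) rfl
    ((1 : ℝ) * yb.irl) rfl
    ((1 : ℝ) * yb.irl * yb.kzp) rfl
    ((1 : ℝ) * yb.irl * yb.kzp * yb.d) rfl
    yb.rr yb.e_rr
    ((13 / 64) * yb.rr) (congrArg (fun y : ℝ => y * yb.rr) zQMa_223338299392_0)
    ((1 / 2 : ℝ) + (13 / 64) * yb.rr) rfl
    (yb.rr * ((1 / 2 : ℝ) + (13 / 64) * yb.rr)) rfl
    ((1 : ℝ) + yb.rr * ((1 / 2 : ℝ) + (13 / 64) * yb.rr)) rfl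
    (yb.Cu * ((1 : ℝ) + yb.rr * ((1 / 2 : ℝ) + (13 / 64) * yb.rr))) rfl
    yb.CuN yb.e_CuN
    yb.fbt yb.e_fbt
    yb.XLt yb.e_XLt
    (7 : ℝ) zQMa_7696581394432_0
    (10 : ℝ) zQMa_10995116277760_0).2
    ((10 : ℝ)⁻¹) rfl
    yb.beta yb.e_beta
    ((v.h + (1 : ℝ)) * v.op1) rfl
    yb.b1 yb.e_b1
    pk.omr pk.e_omr
    pk.omp pk.e_omp
    ((1 / 2) * hgp) (congrArg (fun y : ℝ => y * hgp) zQMa_549755813888_0)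
    ((1 : ℝ) - (1 / 2) * hgp) rfl
    ((1 : ℝ) - hgp) rfl).2
    (((1 : ℝ) - hgp)⁻¹) rfl
    (((1 : ℝ) - (1 / 2) * hgp) * ((1 : ℝ) - hgp)⁻¹) rfl
    pk.lspf pk.e_lspf
    (v.tu2 * v5.Th) rfl
    ((2731 / 4096) * (v.tu2 * v5.Th)) (congrArg (fun y : ℝ => y * (v.tu2 * v5.Th)) zQMa_733097230336_0)
    ((1 : ℝ) - (2731 / 4096) * (v.tu2 * v5.Th)) rfl
    (v5.Th * ((1 : ℝ) - (2731 / 4096) * (v.tu2 * v5.Th))) rfl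
    (lv.rplo * lv.rplo) rfl
    (v.u2 * (lv.rplo * lv.rplo)) rfl
    pk.E0 pk.e_E0
    pk.lspa pk.e_lspa
    (pk.E0 + (1 : ℝ)) rfl
    (pk.lspa * (pk.E0 + (1 : ℝ))) rfl
    (pk.E0 - pk.lspa * (pk.E0 + (1 : ℝ))) rfl
    ((2731 / 8192) * (v.K * v.K)) (congrArg (fun y : ℝ => y * (v.K * v.K)) zQMa_366548615168_0)
    ((1 : ℝ) - (2731 / 8192) * (v.K * v.K)) rfl
    (v.nj2 * ((1 : ℝ) - (2731 / 8192) * (v.K * v.K))) rfl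
    (pk.E0 - pk.lspa * (pk.E0 + (1 : ℝ)) + v.nj2 * ((1 : ℝ) - (2731 / 8192) * (v.K * v.K))) rfl
    (pk.omr * (pk.E0 - pk.lspa * (pk.E0 + (1 : ℝ)) + v.nj2 * ((1 : ℝ) - (2731 / 8192) * (v.K * v.K)))) rfl
    (pk.omp * pk.omp) rfl
    ((1 : ℝ) + pk.omp * pk.omp) rfl).2
    (((1 : ℝ) + pk.omp * pk.omp)⁻¹) rfl
    pk.pe pk.e_pe
    ((1 : ℝ) - yb.yy) rfl
    pk.ye pk.e_ye
    ((1 : ℝ) - pk.lspa) rfl
  change 0 < (1 : ℝ) - pk.lspa at p_lspa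
  obtain ⟨p_pe, s3⟩ := s2
  change 0 < pk.pe at p_pe
  obtain ⟨p_yy, s4⟩ := s3
  change 0 < (1 : ℝ) - yb.yy at p_yy
  obtain ⟨p_XM, s5⟩ := (((((s4
    (yb.CuN * G4) rfl
    (yb.CuN * G4 * srcx) rfl).2
    (v.op1⁻¹) rfl
    cl.FXt cl.e_FXt
    y1 e_y1
    (v.t * y1) rfl
    ((1 / 2) * (v.t * y1)) (congrArg (fun y : ℝ => y * (v.t * y1)) zQMa_549755813888_0)
    ((1 : ℝ) - (1 / 2) * (v.t * y1)) rfl
    (y1 * ((1 : ℝ) - (1 / 2) * (v.t * y1))) rfl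
    cl.S1 cl.e_S1
    (v.u * v.n) rfl
    (v.u * v.n * (v.h + (1 : ℝ))) rfl
    (v.u * v.n * (v.h + (1 : ℝ)) * v.j) rfl
    cl.a4 cl.e_a4
    (cl.S1 + cl.a4) rfl
    (cl.S1 * cl.a4) rfl
    (v.t * (cl.S1 * cl.a4)) rfl
    cl.S4 cl.e_S4
    cl.Dh cl.e_Dh
    ((3 / 8) * v.D) (congrArg (fun y : ℝ => y * v.D) zQMa_412316860416_0)
    ((1 / 2 : ℝ) - (3 / 8) * v.D) rfl
    (cl.Dh * ((1 / 2 : ℝ) - (3 / 8) * v.D)) rfl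
    ((1 : ℝ) * (cl.Dh * ((1 / 2 : ℝ) - (3 / 8) * v.D))) rfl
    cl.a5 cl.e_a5
    (cl.S4 + cl.a5) rfl
    (cl.S4 * cl.a5) rfl
    (v.t * (cl.S4 * cl.a5)) rfl
    cl.S5 cl.e_S5
    (v.u * yb.eN) rfl
    (v.u * yb.eN * v.op1⁻¹) rfl
    cl.a6 cl.e_a6
    (cl.S5 + cl.a6) rfl
    (cl.S5 * cl.a6) rfl
    (v.t * (cl.S5 * cl.a6)) rfl
    cl.S6 cl.e_S6
    cl.a7 cl.e_a7
    (cl.S6 - cl.a7) rfl
    (v.t * yb.b1) rfl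
    ((1 : ℝ) + v.t * yb.b1) rfl).2
    (((1 : ℝ) + v.t * yb.b1)⁻¹) rfl
    cl.S7 cl.e_S7
    (v.u * v.tu) rfl
    (v.u * v.tu * yb.eN) rfl
    (v.u * v.tu * yb.eN * yb.q0) rfl
    cl.a8 cl.e_a8
    (cl.S7 + cl.a8) rfl
    (cl.S7 * cl.a8) rfl
    (v.t * (cl.S7 * cl.a8)) rfl
    cl.S8 cl.e_S8
    (v.t * cl.S8) rfl
    cl.c1 cl.e_c1
    (yb.fbt * xa.XM) rfl
    (v.t * yb.XLt) rfl
    (cl.FXt * (v.t * yb.XLt)) rfl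
    (yb.fbt * xa.XM + cl.FXt * (v.t * yb.XLt)) rfl
    cl.rt cl.e_rt
    (yb.fbt + cl.FXt) rfl
    cl.fm cl.e_fm
    (cl.rt * cl.c1) rfl
    (cl.S8 + cl.rt * cl.c1) rfl
    (cl.S8 + cl.rt * cl.c1 + cl.fm) rfl
    cl.Bm cl.e_Bm
    ((1 / 1024) * (1 : ℝ)) (congrArg (fun y : ℝ => y * (1 : ℝ)) zQMa_1073741824_0)
    (cl.Bm - (1 / 1024) * (1 : ℝ)) rfl
    yb.m1 yb.e_m1
    (yb.m1 + (2 : ℝ)) rfl
    (2 * yb.beta) (congrArg (fun y : ℝ => y * yb.beta) zQMa_2199023255552_0)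
    (yb.m1 + (2 : ℝ) - 2 * yb.beta) rfl
    ((v.h + (1 : ℝ)) * (yb.m1 + (2 : ℝ) - 2 * yb.beta)) rfl
    (yb.m1 * (2 * yb.beta)) rfl
    (yb.m1 * (2 * yb.beta) + (1 : ℝ)) rfl).2
    ((yb.m1 * (2 * yb.beta) + (1 : ℝ))⁻¹) rfl
    ((v.h + (1 : ℝ)) * (yb.m1 + (2 : ℝ) - 2 * yb.beta) * (yb.m1 * (2 * yb.beta) + (1 : ℝ))⁻¹) rfl
    (xa.AE * yb.fxe) rfl
    ((1 / 2) * v2.lm) (congrArg (fun y : ℝ => y * v2.lm) zQMa_549755813888_0)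
    (v.K + (1 / 2) * v2.lm) rfl
    (xa.AE * yb.fxe * (v.K + (1 / 2) * v2.lm)) rfl
    (2 * (xa.AE * yb.fxe * (v.K + (1 / 2) * v2.lm))) (congrArg (fun y : ℝ => y * (xa.AE * yb.fxe * (v.K + (1 / 2) * v2.lm))) zQMa_2199023255552_0)
    (yb.src + 2 * (xa.AE * yb.fxe * (v.K + (1 / 2) * v2.lm))) rfl
    (2 * (yb.src + 2 * (xa.AE * yb.fxe * (v.K + (1 / 2) * v2.lm)))) (congrArg (fun y : ℝ => y * (yb.src + 2 * (xa.AE * yb.fxe * (v.K + (1 / 2) * v2.lm)))) zQMa_2199023255552_0)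
    (2 * (yb.src + 2 * (xa.AE * yb.fxe * (v.K + (1 / 2) * v2.lm))) * yb.NN) rfl
    (v.tu * yb.eN) rfl
    (v.op1 - v.tu * yb.eN) rfl).2
    ((v.op1 - v.tu * yb.eN)⁻¹) rfl
    (2 * (yb.src + 2 * (xa.AE * yb.fxe * (v.K + (1 / 2) * v2.lm))) * yb.NN * (v.op1 - v.tu * yb.eN)⁻¹) rfl
    yb.V yb.e_V
    ((1 : ℝ) * v.nj * ((1 : ℝ) * v.nj)) rfl
    (13 : ℝ) zQMa_14293651161088_0
    ((13 : ℝ) * (10 : ℝ)⁻¹) rfl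
    ((1 : ℝ) * v.nj * ((1 : ℝ) * v.nj) * ((13 : ℝ) * (10 : ℝ)⁻¹)) rfl
    (S * S) rfl
    (25 * (S * S)) (congrArg (fun y : ℝ => y * (S * S)) zQMa_27487790694400_0)
    yb.C2 yb.e_C2
    yb.gr yb.e_gr
    (2 * v.c0 - v.t) rfl
    yb.Gt yb.e_Gt
    ((1 : ℝ) * v.u) rfl
    yb.au yb.e_au
    (v.op1 * yb.fxe) rfl
    (v.op1 * yb.fxe * xa.iG4) rfl
    yb.inner yb.e_inner
    (v.tu * yb.eN + (2 : ℝ)) rfl
    yb.ezs yb.e_ezs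
    (yb.C2 * yb.gr) rfl
    (yb.NN * yb.ezs) rfl
    (yb.au * yb.inner) rfl
    (yb.NN * yb.ezs * (yb.au * yb.inner)) rfl
    yb.Rg0 yb.e_Rg0
    ((1 / 2) * (v.tu * yb.eN)) (congrArg (fun y : ℝ => y * (v.tu * yb.eN)) zQMa_549755813888_0)
    ((1 : ℝ) + (1 / 2) * (v.tu * yb.eN)) rfl
    (yb.NN * ((1 : ℝ) + (1 / 2) * (v.tu * yb.eN))) rfl
    (v.t * v.om1) rfl
    (v.t * v.om1 * v2.bsum) rfl
    (v.op1 * v.aQ) rfl).2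
    ((v.op1 * v.aQ)⁻¹) rfl
    (v.t * v.om1 * v2.bsum * (v.op1 * v.aQ)⁻¹) rfl
    (yb.NN * ((1 : ℝ) + (1 / 2) * (v.tu * yb.eN)) * (v.t * v.om1 * v2.bsum * (v.op1 * v.aQ)⁻¹)) rfl
    yb.Rh yb.e_Rh
    (v2.lm * yb.Rg0) rfl
    ((1 : ℝ) - v2.lm) rfl
    (v.u2 * yb.Rh) rfl
    (((1 : ℝ) - v2.lm) * (v.u2 * yb.Rh)) rfl
    (yb.C2 * (((1 : ℝ) - v2.lm) * (v.u2 * yb.Rh))) rfl
    yb.Rg yb.e_Rg
  change 0 < (1 : ℝ) - xa.XM at p_XM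
  obtain ⟨p_QX, s6⟩ := s5
  change 0 < (1 : ℝ) - xa.QX at p_QX
  obtain ⟨p_e2, s7⟩ := s6
    (2 * (v.tu2 * yb.epd)) (congrArg (fun y : ℝ => y * (v.tu2 * yb.epd)) zQMa_2199023255552_0)
    (v.aQ - 2 * (v.tu2 * yb.epd)) rfl
  change 0 < v.aQ - 2 * (v.tu2 * yb.epd) at p_e2
  obtain ⟨p_rl, s8⟩ := s7
  change 0 < yb.rl at p_rl
  obtain ⟨p_hgp, s9⟩ := s8
    ((1 / 2 : ℝ) - hgp) rfl
  change 0 < (1 / 2 : ℝ) - hgp at p_hgp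
  obtain ⟨p_l1, s10⟩ := s9
    ((5 / 8) * (1 : ℝ)) (congrArg (fun y : ℝ => y * (1 : ℝ)) zQMa_687194767360_0)
    ((5 / 8) * (1 : ℝ) - xa.l1) rfl
  change 0 < (5 / 8) * (1 : ℝ) - xa.l1 at p_l1
  obtain ⟨p_a0, s11⟩ := s10
    ((11 / 32) * (1 : ℝ)) (congrArg (fun y : ℝ => y * (1 : ℝ)) zQMa_377957122048_0)
    ((11 / 32) * (1 : ℝ) - xa.a0) rfl
  change 0 < (11 / 32) * (1 : ℝ) - xa.a0 at p_a0
  obtain ⟨p_S, s12⟩ := s11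
  change 0 < v.op1 - v.tu * yb.eN at p_S
  obtain ⟨p_zp, s13⟩ := s12
  change 0 < (1 : ℝ) - yb.zp at p_zp
  obtain ⟨p_rr, s14⟩ := s13
    ((5 / 8) * (1 : ℝ) - yb.rr) rfl
  change 0 < (5 / 8) * (1 : ℝ) - yb.rr at p_rr
  obtain ⟨p_V, s15⟩ := s14
  change 0 < yb.V at p_V
  obtain ⟨p_B, s16⟩ := s15
  change 0 < cl.Bm - (1 / 1024) * (1 : ℝ) at p_B
  obtain ⟨p_Rg, s17⟩ := s16
  change 0 < yb.Rg at p_Rg
  obtain ⟨p_Rh, s18⟩ := s17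
  change 0 < yb.Rh at p_Rh
  have hQ := qb_s G f lv.e_rhi e_q e_th
  have hq := hQ.le
  have hq0 : 0 < q := lt_of_lt_of_le (by rw [G.q_eq]; exact G.q0) hq
  have hγ := gam_le_one G.e0 G.κ0 G.s0
  have hγp := gam_le_one G.e0 G.κ0 (shf_re' G.κ0 G.s0)
  have hoo := oo_sharp8 G.κ0 G.s0 hQ (Qre0 G) hsc.ee (x_eq G v5 hsc e_w e_x) e_cu e_xe e_o2u e_ooo
  have hn1 : ‖1 + qq v.e κ (shf κ τ)‖ ≤ Q1 := by
    rw [e_Q1]; exact n1_sharp8 G.e0 G.κ0 G.s0 hq hoo (hg_le G hγ e_hg)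
  have hlx : 1 * lsx = v.h1t * lsf * 1 := by rw [e_lsx, one_mul]
  have fr := fr_g G hγ hq hq0 e_hg e_lsf p_hg e_Qb e_ls (hsc.al0 G) hlx hn1
  have hgu : 1 * gu = 1 * S := by rw [e_gu]; ring
  obtain ⟨lf0, Ex, hφ⟩ := ph_slz G v2 hsc e_tz hde' hu hz0 he2 (by norm_num) (by norm_num) (by norm_num) e_phux e_Ei e_Eh
  have as8 : As8 xa yb := ⟨p_XM, p_QX, p_e2, p_rl, p_l1, p_a0, p_S, p_zp, p_rr, p_V, p_Rg, p_Rh⟩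
  exact far_Cl G D hsc hA0 hA as8 fr hgu hγp hφ pk f p_rplo e_hgp p_hgp p_lspa p_pe p_yy cl e_srcx e_srcs
    (mul_one v.t) G.t0 (by linear_combination v.t * e_y1 - pk.ye * e_r) p_B

theorem far_QMa5 {κ : ℝ} {τ : ℂ} {R w : ℝ} {v : B1} (D : PtE (7 * 10⁻¹) v.e κ τ R w)
    (G : Geo κ (shf κ τ) v) (v2 : B2 v) (v3 : B3 v) (v5 : V5 v) {l1 : Lg v.D} {l2 : Lg v.D2}
    (lv : LV v l1 l2) (he2 : 2 ≤ v.e) {S z de : ℝ}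
    (hde0 : 0 < de) (hde : de = v.t * z * S) (hu : v.u = z * de) (hz0 : 0 < z)
    (hee : v.e * (de * de) = 1)
    (h : RAs Pool.Agent.helper71.FJ.Crt.QMa.prog5 [S, v.t, z, v.n]) :
    FarPt v.e κ (1 - Real.sinh κ / 1024) w (2 * AQ v.e v.K * Real.sinh κ ^ 2) R
      (RE v.e κ (w * R)) τ := by
  obtain ⟨tz, e_tz⟩ : ∃ zz : ℝ, zz = v.t * z := ⟨_, rfl⟩
  have hde' : de = tz * S := by rw [e_tz]; exact hde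
  obtain ⟨z2, e_z2⟩ : ∃ zz : ℝ, zz = z * z := ⟨_, rfl⟩
  obtain ⟨r, e_r⟩ : ∃ zz : ℝ, zz = v.t * z2 := ⟨_, rfl⟩
  obtain ⟨eps, e_eps⟩ : ∃ zz : ℝ, zz = de * de := ⟨_, rfl⟩
  obtain ⟨tr, e_tr⟩ : ∃ zz : ℝ, zz = v.t * r := ⟨_, rfl⟩
  obtain ⟨q, e_q⟩ : ∃ zz : ℝ, zz = Real.exp (-(r * lv.rlo)) := ⟨_, rfl⟩
  obtain ⟨th, e_th⟩ : ∃ zz : ℝ, zz = q * (r * lv.er) := ⟨_, rfl⟩
  obtain ⟨wv, e_w⟩ : ∃ zz : ℝ, zz = (1 : ℝ) * (S * (v.c0 + v.R))⁻¹ := ⟨_, rfl⟩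
  obtain ⟨xv, e_x⟩ : ∃ zz : ℝ, zz = wv * wv * v5.sn := ⟨_, rfl⟩
  obtain ⟨hg, e_hg⟩ : ∃ zz : ℝ, zz = v.h1 * (1 : ℝ) := ⟨_, rfl⟩
  obtain ⟨lsf, e_lsf⟩ : ∃ zz : ℝ, zz = ((1 : ℝ) - (1 / 2) * hg) * ((1 : ℝ) - hg)⁻¹ := ⟨_, rfl⟩
  obtain ⟨Qb, e_Qb⟩ : ∃ zz : ℝ, zz = q * (hg + (1 : ℝ)) := ⟨_, rfl⟩
  obtain ⟨lsx, e_lsx⟩ : ∃ zz : ℝ, zz = v.h1t * lsf * (1 : ℝ) := ⟨_, rfl⟩
  obtain ⟨ls, e_ls⟩ : ∃ zz : ℝ, zz = hg * lsf := ⟨_, rfl⟩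
  obtain ⟨hgp, e_hgp⟩ : ∃ zz : ℝ, zz = v3.hp * (1 : ℝ) := ⟨_, rfl⟩
  obtain ⟨gu, e_gu⟩ : ∃ zz : ℝ, zz = (1 : ℝ) * S := ⟨_, rfl⟩
  obtain ⟨G4, e_G4⟩ : ∃ zz : ℝ, zz = 4 * S + (1 : ℝ) * v.nj := ⟨_, rfl⟩
  obtain ⟨Ei, e_Ei⟩ : ∃ zz : ℝ, zz = 2 * eps + (1 : ℝ) := ⟨_, rfl⟩
  obtain ⟨Eh, e_Eh⟩ : ∃ zz : ℝ, zz = eps + (1 : ℝ) := ⟨_, rfl⟩
  obtain ⟨phux, e_phux⟩ : ∃ zz : ℝ, zz = (1 / 2) * ((13 / 4) * v.om + (79 / 256 : ℝ)) := ⟨_, rfl⟩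
  obtain ⟨cu, e_cu⟩ : ∃ zz : ℝ, zz = (1 : ℝ) - xv * ((1 / 2 : ℝ) - xv * ((45812984491 / 1099511627776 : ℝ) - xv * ((1527099483 / 1099511627776 : ℝ) - xv * ((13634817 / 549755813888 : ℝ) - xv * ((302995 / 1099511627776 : ℝ) - xv * ((287 / 137438953472 : ℝ) - xv * ((3 / 274877906944 : ℝ) - xv * (1 / 1099511627776 : ℝ)))))))) := ⟨_, rfl⟩
  obtain ⟨xe, e_xe⟩ : ∃ zz : ℝ, zz = xv * eps := ⟨_, rfl⟩
  obtain ⟨o2u, e_o2u⟩ : ∃ zz : ℝ, zz = q * q + (1 : ℝ) + 2 * (q * (cu + (43 / 128) * (xe * xe))) + 2 * th := ⟨_, rfl⟩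
  obtain ⟨ooo, e_ooo⟩ : ∃ zz : ℝ, zz = Real.exp ((1 / 2) * Real.log (o2u + (1 / 128 : ℝ))) := ⟨_, rfl⟩
  obtain ⟨Q1, e_Q1⟩ : ∃ zz : ℝ, zz = ooo + q * hg := ⟨_, rfl⟩
  obtain ⟨xa⟩ := exKa v2 eps 1 S G4 Qb Q1 ls lsx phux Ei Eh
  obtain ⟨srcx, e_srcx⟩ : ∃ zz : ℝ, zz = v.om1 * ((1 / 2) * (r * v2.bsum * v.aQ⁻¹)) + xa.kl := ⟨_, rfl⟩
  obtain ⟨srcs, e_srcs⟩ : ∃ zz : ℝ, zz = v.t * srcx := ⟨_, rfl⟩
  obtain ⟨yb⟩ := exKb (7 * 10⁻¹) xa tr 1 gu srcs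
  obtain ⟨pk⟩ := exPk v5 lv.rplo v3.hp hgp gu yb.yy
  obtain ⟨y1, e_y1⟩ : ∃ zz : ℝ, zz = z2 * pk.ye := ⟨_, rfl⟩
  obtain ⟨cl⟩ := exCl yb v.t 1 y1 srcx
  have hsc := sc_Ma hde' e_tz hu hee hde0 G.t0 hz0.le e_z2 e_r e_tr e_eps
  obtain ⟨hA0, hA⟩ := hA_Q G hsc e_G4
  have f := lv.f G hsc.hr
  obtain ⟨p_hg, s0⟩ := ((((((((((h
    (1 : ℝ) zQMa_1099511627776_0
    tz e_tz
    de hde'
    v.u hu
    z2 e_z2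
    r e_r
    eps e_eps
    tr e_tr
    (1 / 2 : ℝ) zQMa_549755813888_0
    v.tu v.e_tu
    (v.tu * v.n) rfl
    v.h (v.e_h.trans (congrArg (fun y : ℝ => y * (v.tu * v.n)) zQMa_549755813888_0))
    v.u2 v.e_u2
    (v.h * v.h) rfl
    v.jm v.e_jm).2
    v.j v.e_j
    (v.h * v.j) rfl
    v.K (v.e_K.trans (congrArg (fun y : ℝ => y * (v.h * v.j)) zQMa_2199023255552_0))
    (2 * v.j) (congrArg (fun y : ℝ => y * v.j) zQMa_2199023255552_0)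
    v.c0 v.e_c0
    v.m v.e_m
    v.nj v.e_nj
    v.om v.e_om
    v.om1 v.e_om1
    v.op1 v.e_op1
    v.R v.e_R
    v.nj2 v.e_nj2
    v2.Y (v2.e_Y.trans (congrArg (fun y : ℝ => y * v.h) zQMa_10774999203840_0))
    ((341 / 8192) * v2.Y) (congrArg (fun y : ℝ => y * v2.Y) zQMa_45768245248_0)
    (1365 / 8192 : ℝ) zQMa_183207198720_0
    ((341 / 8192) * v2.Y + (1365 / 8192 : ℝ)) rfl
    (v2.Y * ((341 / 8192) * v2.Y + (1365 / 8192 : ℝ))) rfl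
    ((1 / 2 : ℝ) + v2.Y * ((341 / 8192) * v2.Y + (1365 / 8192 : ℝ))) rfl
    (v2.Y * ((1 / 2 : ℝ) + v2.Y * ((341 / 8192) * v2.Y + (1365 / 8192 : ℝ)))) rfl
    v2.pY v2.e_pY
    (v2.Y * v2.pY) rfl
    ((1 / 2) * (v2.Y * v2.pY)) (congrArg (fun y : ℝ => y * (v2.Y * v2.pY)) zQMa_549755813888_0)
    ((1 : ℝ) + (1 / 2) * (v2.Y * v2.pY)) rfl
    v2.Yp v2.e_Yp
    (v.K * v.om) rfl
    (2 * v.c0) (congrArg (fun y : ℝ => y * v.c0) zQMa_2199023255552_0)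
    (v.K * v.om + 2 * v.c0) rfl
    v.Dt v.e_Dt
    v.D v.e_D
    v.SQ v.e_SQ
    (v.K * v.K) rfl
    (2 * (v.K * v.K)) (congrArg (fun y : ℝ => y * (v.K * v.K)) zQMa_2199023255552_0)
    v.c2 v.e_c2
    (v.c0 * v.Dt) rfl
    v.rhat v.e_rhat).2
    v.LQ v.e_LQ
    ((1 / 2) * v.LQ) (congrArg (fun y : ℝ => y * v.LQ) zQMa_549755813888_0)
    v.aQ v.e_aQ
    (3 : ℝ) zQMa_3298534883328_0).2
    ((3 : ℝ)⁻¹) rfl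
    ((1 : ℝ) * (3 : ℝ)⁻¹) rfl
    (2 : ℝ) zQMa_2199023255552_0
    (v.D + (2 : ℝ)) rfl).2
    ((v.D + (2 : ℝ))⁻¹) rfl
    l1.zL l1.e_zL
    l1.zz l1.e_zz
    ((1 : ℝ) - l1.zL) rfl
    (l1.zz * ((1 : ℝ) * (3 : ℝ)⁻¹)) rfl
    ((1 : ℝ) + l1.zz * ((1 : ℝ) * (3 : ℝ)⁻¹)) rfl
    l1.Lv l1.e_Lv
    (l1.zz * l1.zz) rfl
    l1.eL (l1.e_eL.trans (congrArg (fun y : ℝ => y * (l1.zz * l1.zz)) zQMa_219915747328_0))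
    (v.Dt * l1.Lv) rfl
    lv.rlo (lv.e_rlo.trans (congrArg (fun y : ℝ => y * (v.Dt * l1.Lv)) zQMa_549755813888_0))
    (v.Dt * l1.eL) rfl
    lv.er (lv.e_er.trans (congrArg (fun y : ℝ => y * (v.Dt * l1.eL)) zQMa_549755813888_0))
    lv.rhi lv.e_rhi
    (v.c0 * v.rhat) rfl
    lv.D2R (lv.e_D2R.trans (congrArg (fun y : ℝ => y * (v.c0 * v.rhat)) zQMa_4398046511104_0))
    (v.c0 * v.R) rfl
    (v.c0 * v.R * v.rhat) rfl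
    v.D2 (v.e_D2.trans (congrArg (fun y : ℝ => y * (v.c0 * v.R * v.rhat)) zQMa_4398046511104_0))
    (v.D2 + (2 : ℝ)) rfl).2
    ((v.D2 + (2 : ℝ))⁻¹) rfl
    l2.zL l2.e_zL
    l2.zz l2.e_zz
    ((1 : ℝ) - l2.zL) rfl
    (l2.zz * ((1 : ℝ) * (3 : ℝ)⁻¹)) rfl
    ((1 : ℝ) + l2.zz * ((1 : ℝ) * (3 : ℝ)⁻¹)) rfl
    l2.Lv l2.e_Lv
    (l2.zz * l2.zz) rfl
    l2.eL (l2.e_eL.trans (congrArg (fun y : ℝ => y * (l2.zz * l2.zz)) zQMa_219915747328_0))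
    (lv.D2R * l2.Lv) rfl
    ((1 / 2) * (lv.D2R * l2.Lv)) (congrArg (fun y : ℝ => y * (lv.D2R * l2.Lv)) zQMa_549755813888_0)
    lv.rplo lv.e_rplo
    (lv.D2R * l2.eL) rfl
    ((1 / 2) * (lv.D2R * l2.eL)) (congrArg (fun y : ℝ => y * (lv.D2R * l2.eL)) zQMa_549755813888_0)
    lv.erp lv.e_erp
    lv.rphi lv.e_rphi
    (r * lv.rlo) rfl
    (-(r * lv.rlo)) rfl
    q e_q
    (r * lv.er) rfl
    th e_th
    (v.om * v.K) rfl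
    (v.c0 + v.om * v.K) rfl).2
    v.ioK v.e_ioK
    v.h1t v.e_h1t
    (v.om1 * v.t) rfl
    v.h1 v.e_h1
    ((1 : ℝ) - v.u2) rfl
    v.f2 v.e_f2
    v.tu2 v.e_tu2
    ((1 : ℝ) - v.nj2) rfl
    v5.sn v5.e_sn
    (v.R * v.rhat) rfl).2
    (v.SQ⁻¹) rfl
    v5.R1 v5.e_R1
    (v.c0 + v5.R1) rfl
    v5.Qr v5.e_Qr
    (v5.Qr * v5.Qr) rfl).2
    ((v5.Qr * v5.Qr)⁻¹) rfl
    v5.Th v5.e_Th
    (v.c0 + v.R) rfl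
    (S * (v.c0 + v.R)) rfl).2
    ((S * (v.c0 + v.R))⁻¹) rfl
    wv e_w
    (wv * wv) rfl
    xv e_x
    hg e_hg
    ((1 / 2) * hg) (congrArg (fun y : ℝ => y * hg) zQMa_549755813888_0)
    ((1 : ℝ) - (1 / 2) * hg) rfl
    ((1 : ℝ) - hg) rfl).2
    (((1 : ℝ) - hg)⁻¹) rfl
    lsf e_lsf
    (hg + (1 : ℝ)) rfl
    Qb e_Qb
    (v.h1t * lsf) rfl
    lsx e_lsx
    ls e_ls
  change 0 < (1 : ℝ) - hg at p_hg
  obtain ⟨p_rplo, s1⟩ := (s0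
    (v.om1 * v.op1) rfl
    (v.c0 + v.t) rfl
    (v.om * v.c0) rfl
    (v.om * v.c0 * v.K) rfl
    (2 * (v.om * v.c0 * v.K)) (congrArg (fun y : ℝ => y * (v.om * v.c0 * v.K)) zQMa_2199023255552_0)
    (v.c2 + 2 * (v.om * v.c0 * v.K)) rfl
    ((v.c0 + v.t) * (v.c2 + 2 * (v.om * v.c0 * v.K))) rfl).2
    (((v.c0 + v.t) * (v.c2 + 2 * (v.om * v.c0 * v.K)))⁻¹) rfl
    v3.hpt v3.e_hpt
    v3.hp v3.e_hp
  change 0 < lv.rplo at p_rplo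
  obtain ⟨p_lspa, s2⟩ := ((((((((((((((s1
    hgp e_hgp
    gu e_gu
    (v.h + (1 : ℝ)) rfl).2
    v2.ih v2.e_ih
    (v.h * v2.ih) rfl
    v2.rh (v2.e_rh.trans (congrArg (fun y : ℝ => y * (v.h * v2.ih)) zQMa_2199023255552_0))
    v2.mi v2.e_mi
    v2.hm v2.e_hm
    v2.nih v2.e_nih
    (v2.nih * v2.mi) rfl
    v2.bsum v2.e_bsum
    ((209 / 1024) * v.j) (congrArg (fun y : ℝ => y * v.j) zQMa_224412041216_0)).2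
    (v2.Yp⁻¹) rfl
    v2.lm v2.e_lm
    (4 * S) (congrArg (fun y : ℝ => y * S) zQMa_4398046511104_0)
    ((1 : ℝ) * v.nj) rfl
    G4 e_G4).2
    xa.iG4 xa.e_iG4
    xa.alG xa.e_alG
    xa.AE xa.e_AE
    (xa.AE * v.op1) rfl
    xa.XeE xa.e_XeE
    (xa.alG * v.op1) rfl
    xa.XM xa.e_XM
    ((1 : ℝ) - xa.XM) rfl).2
    xa.iX xa.e_iX
    xa.QX xa.e_QX
    ((1 : ℝ) - xa.QX) rfl).2
    xa.iQX xa.e_iQX
    (2 * eps) (congrArg (fun y : ℝ => y * eps) zQMa_2199023255552_0)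
    Ei e_Ei
    Eh e_Eh
    ((13 / 4) * v.om) (congrArg (fun y : ℝ => y * v.om) zQMa_3573412790272_0)
    (79 / 256 : ℝ) zQMa_339302416384_0
    ((13 / 4) * v.om + (79 / 256 : ℝ)) rfl
    phux (e_phux.trans (congrArg (fun y : ℝ => y * ((13 / 4) * v.om + (79 / 256 : ℝ))) zQMa_549755813888_0))
    (v.h * v.nj) rfl
    ((1 : ℝ) - v.f2) rfl
    (v.h * v.om) rfl
    (2 * (v.h * v.om)) (congrArg (fun y : ℝ => y * (v.h * v.om)) zQMa_2199023255552_0)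
    ((1 : ℝ) - v.f2 - 2 * (v.h * v.om)) rfl
    (v.h * v.nj * (v.h * v.nj)) rfl
    xa.N1 xa.e_N1
    (xa.N1 + (1 : ℝ)) rfl
    xa.s (xa.e_s.trans (congrArg (fun y : ℝ => y * (xa.N1 + (1 : ℝ))) zQMa_549755813888_0))
    ((1 / 2) * v.R) (congrArg (fun y : ℝ => y * v.R) zQMa_549755813888_0)
    (v.j - (1 / 2) * v.R) rfl
    (v.tu2 * ((1 : ℝ) - v.f2)) rfl
    (v.tu2 * ((1 : ℝ) - v.f2) * v.jm) rfl
    ((1 / 8) * (v.tu2 * ((1 : ℝ) - v.f2) * v.jm)) (congrArg (fun y : ℝ => y * (v.tu2 * ((1 : ℝ) - v.f2) * v.jm)) zQMa_137438953472_0)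
    (v.j - (1 / 2) * v.R + (1 / 8) * (v.tu2 * ((1 : ℝ) - v.f2) * v.jm)) rfl
    xa.k0 xa.e_k0
    (1 / 1099511627776 : ℝ) zQMa_1_0
    (3 / 274877906944 : ℝ) zQMa_12_0
    (xv * (1 / 1099511627776 : ℝ)) rfl
    ((3 / 274877906944 : ℝ) - xv * (1 / 1099511627776 : ℝ)) rfl
    (287 / 137438953472 : ℝ) zQMa_2296_0
    (xv * ((3 / 274877906944 : ℝ) - xv * (1 / 1099511627776 : ℝ))) rfl
    ((287 / 137438953472 : ℝ) - xv * ((3 / 274877906944 : ℝ) - xv * (1 / 1099511627776 : ℝ))) rfl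
    (302995 / 1099511627776 : ℝ) zQMa_302995_0
    (xv * ((287 / 137438953472 : ℝ) - xv * ((3 / 274877906944 : ℝ) - xv * (1 / 1099511627776 : ℝ)))) rfl
    ((302995 / 1099511627776 : ℝ) - xv * ((287 / 137438953472 : ℝ) - xv * ((3 / 274877906944 : ℝ) - xv * (1 / 1099511627776 : ℝ)))) rfl
    (13634817 / 549755813888 : ℝ) zQMa_27269634_0
    (xv * ((302995 / 1099511627776 : ℝ) - xv * ((287 / 137438953472 : ℝ) - xv * ((3 / 274877906944 : ℝ) - xv * (1 / 1099511627776 : ℝ))))) rfl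
    ((13634817 / 549755813888 : ℝ) - xv * ((302995 / 1099511627776 : ℝ) - xv * ((287 / 137438953472 : ℝ) - xv * ((3 / 274877906944 : ℝ) - xv * (1 / 1099511627776 : ℝ))))) rfl
    (1527099483 / 1099511627776 : ℝ) zQMa_1527099483_0
    (xv * ((13634817 / 549755813888 : ℝ) - xv * ((302995 / 1099511627776 : ℝ) - xv * ((287 / 137438953472 : ℝ) - xv * ((3 / 274877906944 : ℝ) - xv * (1 / 1099511627776 : ℝ)))))) rfl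
    ((1527099483 / 1099511627776 : ℝ) - xv * ((13634817 / 549755813888 : ℝ) - xv * ((302995 / 1099511627776 : ℝ) - xv * ((287 / 137438953472 : ℝ) - xv * ((3 / 274877906944 : ℝ) - xv * (1 / 1099511627776 : ℝ)))))) rfl
    (45812984491 / 1099511627776 : ℝ) zQMa_45812984491_0
    (xv * ((1527099483 / 1099511627776 : ℝ) - xv * ((13634817 / 549755813888 : ℝ) - xv * ((302995 / 1099511627776 : ℝ) - xv * ((287 / 137438953472 : ℝ) - xv * ((3 / 274877906944 : ℝ) - xv * (1 / 1099511627776 : ℝ))))))) rfl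
    ((45812984491 / 1099511627776 : ℝ) - xv * ((1527099483 / 1099511627776 : ℝ) - xv * ((13634817 / 549755813888 : ℝ) - xv * ((302995 / 1099511627776 : ℝ) - xv * ((287 / 137438953472 : ℝ) - xv * ((3 / 274877906944 : ℝ) - xv * (1 / 1099511627776 : ℝ))))))) rfl
    (xv * ((45812984491 / 1099511627776 : ℝ) - xv * ((1527099483 / 1099511627776 : ℝ) - xv * ((13634817 / 549755813888 : ℝ) - xv * ((302995 / 1099511627776 : ℝ) - xv * ((287 / 137438953472 : ℝ) - xv * ((3 / 274877906944 : ℝ) - xv * (1 / 1099511627776 : ℝ)))))))) rfl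
    ((1 / 2 : ℝ) - xv * ((45812984491 / 1099511627776 : ℝ) - xv * ((1527099483 / 1099511627776 : ℝ) - xv * ((13634817 / 549755813888 : ℝ) - xv * ((302995 / 1099511627776 : ℝ) - xv * ((287 / 137438953472 : ℝ) - xv * ((3 / 274877906944 : ℝ) - xv * (1 / 1099511627776 : ℝ)))))))) rfl
    (xv * ((1 / 2 : ℝ) - xv * ((45812984491 / 1099511627776 : ℝ) - xv * ((1527099483 / 1099511627776 : ℝ) - xv * ((13634817 / 549755813888 : ℝ) - xv * ((302995 / 1099511627776 : ℝ) - xv * ((287 / 137438953472 : ℝ) - xv * ((3 / 274877906944 : ℝ) - xv * (1 / 1099511627776 : ℝ))))))))) rfl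
    cu e_cu
    xe e_xe
    (q * q) rfl
    (q * q + (1 : ℝ)) rfl
    (xe * xe) rfl
    ((43 / 128) * (xe * xe)) (congrArg (fun y : ℝ => y * (xe * xe)) zQMa_369367187456_0)
    (cu + (43 / 128) * (xe * xe)) rfl
    (q * (cu + (43 / 128) * (xe * xe))) rfl
    (2 * (q * (cu + (43 / 128) * (xe * xe)))) (congrArg (fun y : ℝ => y * (q * (cu + (43 / 128) * (xe * xe)))) zQMa_2199023255552_0)
    (q * q + (1 : ℝ) + 2 * (q * (cu + (43 / 128) * (xe * xe)))) rfl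
    (2 * th) (congrArg (fun y : ℝ => y * th) zQMa_2199023255552_0)
    o2u e_o2u
    (1 / 128 : ℝ) zQMa_8589934592_0
    (o2u + (1 / 128 : ℝ)) rfl).2
    (Real.log (o2u + (1 / 128 : ℝ))) rfl
    ((1 / 2) * Real.log (o2u + (1 / 128 : ℝ))) (congrArg (fun y : ℝ => y * Real.log (o2u + (1 / 128 : ℝ))) zQMa_549755813888_0)
    ooo e_ooo
    (q * hg) rfl
    Q1 e_Q1
    (Q1 * xa.iX) rfl
    (Qb * xa.iQX) rfl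
    (Q1 * xa.iX + Qb * xa.iQX) rfl
    (xa.XM * (Q1 * xa.iX + Qb * xa.iQX)) rfl
    (ls + xa.XM * (Q1 * xa.iX + Qb * xa.iQX)) rfl
    xa.a0 xa.e_a0
    (Q1 * xa.XM) rfl
    (Q1 * xa.XM * xa.iX) rfl
    (ls + Q1 * xa.XM * xa.iX) rfl
    xa.l1 xa.e_l1
    ((13 / 64) * xa.l1) (congrArg (fun y : ℝ => y * xa.l1) zQMa_223338299392_0)
    ((1 / 2 : ℝ) + (13 / 64) * xa.l1) rfl
    (xa.l1 * ((1 / 2 : ℝ) + (13 / 64) * xa.l1)) rfl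
    xa.Na xa.e_Na
    ((13 / 16) * xa.a0) (congrArg (fun y : ℝ => y * xa.a0) zQMa_893353197568_0)
    ((1 : ℝ) + (13 / 16) * xa.a0) rfl
    (xa.a0 * ((1 : ℝ) + (13 / 16) * xa.a0)) rfl
    xa.Nb xa.e_Nb
    (v2.rh * v2.nih) rfl
    (v2.rh * v2.nih * Ei) rfl
    xa.rn xa.e_rn
    (xa.k0 * xa.Na) rfl
    (v.aQ + (1 / 2 : ℝ)) rfl
    (xa.rn * (v.aQ + (1 / 2 : ℝ))) rfl
    xa.ka xa.e_ka
    (v.aQ + (1 : ℝ)) rfl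
    xa.kb xa.e_kb
    (Eh * (v.aQ + (1 : ℝ))) rfl
    (Eh * (v.aQ + (1 : ℝ)) * v2.nih) rfl
    xa.lfk xa.e_lfk
    (xa.ka * lsx) rfl
    (xa.lfk * phux) rfl
    xa.kl xa.e_kl
    (r * v2.bsum) rfl).2
    (v.aQ⁻¹) rfl
    (r * v2.bsum * v.aQ⁻¹) rfl
    ((1 / 2) * (r * v2.bsum * v.aQ⁻¹)) (congrArg (fun y : ℝ => y * (r * v2.bsum * v.aQ⁻¹)) zQMa_549755813888_0)
    (v.om1 * ((1 / 2) * (r * v2.bsum * v.aQ⁻¹))) rfl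
    srcx e_srcx
    srcs e_srcs
    yb.src yb.e_src
    (xa.ka * Q1) rfl
    (xa.ka * Q1 * xa.iX) rfl
    (xa.kb * Qb) rfl
    (xa.kb * Qb * xa.iQX) rfl
    yb.fxe yb.e_fxe
    (v.om1 * yb.src) rfl
    (xa.XeE * yb.fxe) rfl
    yb.epd yb.e_epd
    (v.tu2 * yb.epd) rfl
    (v.tu2 * yb.epd * v.aQ⁻¹) rfl
    ((1 : ℝ) - v.tu2 * yb.epd * v.aQ⁻¹) rfl).2
    yb.NN yb.e_NN
    yb.eN yb.e_eN
    yb.d yb.e_d
    yb.eta yb.e_eta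
    (yb.eta * v.aQ⁻¹) rfl
    ((1 : ℝ) - yb.eta * v.aQ⁻¹) rfl
    (v.rhat * ((1 : ℝ) - yb.eta * v.aQ⁻¹)) rfl
    yb.rl yb.e_rl).2
    yb.irl yb.e_irl
    yb.yy yb.e_yy
    (v.aQ - yb.eta) rfl).2
    yb.q0 yb.e_q0
    yb.zp yb.e_zp
    ((1 / 2) * yb.zp) (congrArg (fun y : ℝ => y * yb.zp) zQMa_549755813888_0)
    ((1 : ℝ) - (1 / 2) * yb.zp) rfl
    ((1 : ℝ) - yb.zp) rfl).2
    (((1 : ℝ) - yb.zp)⁻¹) rfl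
    yb.kzp yb.e_kzp
    (v.u * yb.q0) rfl
    (gu * yb.irl) rfl
    (gu * yb.irl * yb.kzp) rfl
    yb.Cu yb.e_Cu
    (tr * yb.eN) rfl
    (yb.q0 * (tr * yb.eN)) rfl
    ((1 : ℝ) * yb.irl) rfl
    ((1 : ℝ) * yb.irl * yb.kzp) rfl
    ((1 : ℝ) * yb.irl * yb.kzp * yb.d) rfl
    yb.rr yb.e_rr
    ((13 / 64) * yb.rr) (congrArg (fun y : ℝ => y * yb.rr) zQMa_223338299392_0)
    ((1 / 2 : ℝ) + (13 / 64) * yb.rr) rfl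
    (yb.rr * ((1 / 2 : ℝ) + (13 / 64) * yb.rr)) rfl
    ((1 : ℝ) + yb.rr * ((1 / 2 : ℝ) + (13 / 64) * yb.rr)) rfl
    (yb.Cu * ((1 : ℝ) + yb.rr * ((1 / 2 : ℝ) + (13 / 64) * yb.rr))) rfl
    yb.CuN yb.e_CuN
    yb.fbt yb.e_fbt
    yb.XLt yb.e_XLt
    (7 : ℝ) zQMa_7696581394432_0
    (10 : ℝ) zQMa_10995116277760_0).2
    ((10 : ℝ)⁻¹) rfl
    yb.beta yb.e_beta
    ((v.h + (1 : ℝ)) * v.op1) rfl
    yb.b1 yb.e_b1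
    pk.omr pk.e_omr
    pk.omp pk.e_omp
    ((1 / 2) * hgp) (congrArg (fun y : ℝ => y * hgp) zQMa_549755813888_0)
    ((1 : ℝ) - (1 / 2) * hgp) rfl
    ((1 : ℝ) - hgp) rfl).2
    (((1 : ℝ) - hgp)⁻¹) rfl
    (((1 : ℝ) - (1 / 2) * hgp) * ((1 : ℝ) - hgp)⁻¹) rfl
    pk.lspf pk.e_lspf
    (v.tu2 * v5.Th) rfl
    ((2731 / 4096) * (v.tu2 * v5.Th)) (congrArg (fun y : ℝ => y * (v.tu2 * v5.Th)) zQMa_733097230336_0)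
    ((1 : ℝ) - (2731 / 4096) * (v.tu2 * v5.Th)) rfl
    (v5.Th * ((1 : ℝ) - (2731 / 4096) * (v.tu2 * v5.Th))) rfl
    (lv.rplo * lv.rplo) rfl
    (v.u2 * (lv.rplo * lv.rplo)) rfl
    pk.E0 pk.e_E0
    pk.lspa pk.e_lspa
    (pk.E0 + (1 : ℝ)) rfl
    (pk.lspa * (pk.E0 + (1 : ℝ))) rfl
    (pk.E0 - pk.lspa * (pk.E0 + (1 : ℝ))) rfl
    ((2731 / 8192) * (v.K * v.K)) (congrArg (fun y : ℝ => y * (v.K * v.K)) zQMa_366548615168_0)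
    ((1 : ℝ) - (2731 / 8192) * (v.K * v.K)) rfl
    (v.nj2 * ((1 : ℝ) - (2731 / 8192) * (v.K * v.K))) rfl
    (pk.E0 - pk.lspa * (pk.E0 + (1 : ℝ)) + v.nj2 * ((1 : ℝ) - (2731 / 8192) * (v.K * v.K))) rfl
    (pk.omr * (pk.E0 - pk.lspa * (pk.E0 + (1 : ℝ)) + v.nj2 * ((1 : ℝ) - (2731 / 8192) * (v.K * v.K)))) rfl
    (pk.omp * pk.omp) rfl
    ((1 : ℝ) + pk.omp * pk.omp) rfl).2
    (((1 : ℝ) + pk.omp * pk.omp)⁻¹) rfl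
    pk.pe pk.e_pe
    ((1 : ℝ) - yb.yy) rfl
    pk.ye pk.e_ye
    ((1 : ℝ) - pk.lspa) rfl
  change 0 < (1 : ℝ) - pk.lspa at p_lspa
  obtain ⟨p_pe, s3⟩ := s2
  change 0 < pk.pe at p_pe
  obtain ⟨p_yy, s4⟩ := s3
  change 0 < (1 : ℝ) - yb.yy at p_yy
  obtain ⟨p_XM, s5⟩ := (((((s4
    (yb.CuN * G4) rfl
    (yb.CuN * G4 * srcx) rfl).2
    (v.op1⁻¹) rfl
    cl.FXt cl.e_FXt
    y1 e_y1
    (v.t * y1) rfl
    ((1 / 2) * (v.t * y1)) (congrArg (fun y : ℝ => y * (v.t * y1)) zQMa_549755813888_0)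
    ((1 : ℝ) - (1 / 2) * (v.t * y1)) rfl
    (y1 * ((1 : ℝ) - (1 / 2) * (v.t * y1))) rfl
    cl.S1 cl.e_S1
    (v.u * v.n) rfl
    (v.u * v.n * (v.h + (1 : ℝ))) rfl
    (v.u * v.n * (v.h + (1 : ℝ)) * v.j) rfl
    cl.a4 cl.e_a4
    (cl.S1 + cl.a4) rfl
    (cl.S1 * cl.a4) rfl
    (v.t * (cl.S1 * cl.a4)) rfl
    cl.S4 cl.e_S4
    cl.Dh cl.e_Dh
    ((3 / 8) * v.D) (congrArg (fun y : ℝ => y * v.D) zQMa_412316860416_0)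
    ((1 / 2 : ℝ) - (3 / 8) * v.D) rfl
    (cl.Dh * ((1 / 2 : ℝ) - (3 / 8) * v.D)) rfl
    ((1 : ℝ) * (cl.Dh * ((1 / 2 : ℝ) - (3 / 8) * v.D))) rfl
    cl.a5 cl.e_a5
    (cl.S4 + cl.a5) rfl
    (cl.S4 * cl.a5) rfl
    (v.t * (cl.S4 * cl.a5)) rfl
    cl.S5 cl.e_S5
    (v.u * yb.eN) rfl
    (v.u * yb.eN * v.op1⁻¹) rfl
    cl.a6 cl.e_a6
    (cl.S5 + cl.a6) rfl
    (cl.S5 * cl.a6) rfl
    (v.t * (cl.S5 * cl.a6)) rfl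
    cl.S6 cl.e_S6
    cl.a7 cl.e_a7
    (cl.S6 - cl.a7) rfl
    (v.t * yb.b1) rfl
    ((1 : ℝ) + v.t * yb.b1) rfl).2
    (((1 : ℝ) + v.t * yb.b1)⁻¹) rfl
    cl.S7 cl.e_S7
    (v.u * v.tu) rfl
    (v.u * v.tu * yb.eN) rfl
    (v.u * v.tu * yb.eN * yb.q0) rfl
    cl.a8 cl.e_a8
    (cl.S7 + cl.a8) rfl
    (cl.S7 * cl.a8) rfl
    (v.t * (cl.S7 * cl.a8)) rfl
    cl.S8 cl.e_S8
    (v.t * cl.S8) rfl
    cl.c1 cl.e_c1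
    (yb.fbt * xa.XM) rfl
    (v.t * yb.XLt) rfl
    (cl.FXt * (v.t * yb.XLt)) rfl
    (yb.fbt * xa.XM + cl.FXt * (v.t * yb.XLt)) rfl
    cl.rt cl.e_rt
    (yb.fbt + cl.FXt) rfl
    cl.fm cl.e_fm
    (cl.rt * cl.c1) rfl
    (cl.S8 + cl.rt * cl.c1) rfl
    (cl.S8 + cl.rt * cl.c1 + cl.fm) rfl
    cl.Bm cl.e_Bm
    ((1 / 1024) * (1 : ℝ)) (congrArg (fun y : ℝ => y * (1 : ℝ)) zQMa_1073741824_0)
    (cl.Bm - (1 / 1024) * (1 : ℝ)) rfl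
    yb.m1 yb.e_m1
    (yb.m1 + (2 : ℝ)) rfl
    (2 * yb.beta) (congrArg (fun y : ℝ => y * yb.beta) zQMa_2199023255552_0)
    (yb.m1 + (2 : ℝ) - 2 * yb.beta) rfl
    ((v.h + (1 : ℝ)) * (yb.m1 + (2 : ℝ) - 2 * yb.beta)) rfl
    (yb.m1 * (2 * yb.beta)) rfl
    (yb.m1 * (2 * yb.beta) + (1 : ℝ)) rfl).2
    ((yb.m1 * (2 * yb.beta) + (1 : ℝ))⁻¹) rfl
    ((v.h + (1 : ℝ)) * (yb.m1 + (2 : ℝ) - 2 * yb.beta) * (yb.m1 * (2 * yb.beta) + (1 : ℝ))⁻¹) rfl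
    (xa.AE * yb.fxe) rfl
    ((1 / 2) * v2.lm) (congrArg (fun y : ℝ => y * v2.lm) zQMa_549755813888_0)
    (v.K + (1 / 2) * v2.lm) rfl
    (xa.AE * yb.fxe * (v.K + (1 / 2) * v2.lm)) rfl
    (2 * (xa.AE * yb.fxe * (v.K + (1 / 2) * v2.lm))) (congrArg (fun y : ℝ => y * (xa.AE * yb.fxe * (v.K + (1 / 2) * v2.lm))) zQMa_2199023255552_0)
    (yb.src + 2 * (xa.AE * yb.fxe * (v.K + (1 / 2) * v2.lm))) rfl
    (2 * (yb.src + 2 * (xa.AE * yb.fxe * (v.K + (1 / 2) * v2.lm)))) (congrArg (fun y : ℝ => y * (yb.src + 2 * (xa.AE * yb.fxe * (v.K + (1 / 2) * v2.lm)))) zQMa_2199023255552_0)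
    (2 * (yb.src + 2 * (xa.AE * yb.fxe * (v.K + (1 / 2) * v2.lm))) * yb.NN) rfl
    (v.tu * yb.eN) rfl
    (v.op1 - v.tu * yb.eN) rfl).2
    ((v.op1 - v.tu * yb.eN)⁻¹) rfl
    (2 * (yb.src + 2 * (xa.AE * yb.fxe * (v.K + (1 / 2) * v2.lm))) * yb.NN * (v.op1 - v.tu * yb.eN)⁻¹) rfl
    yb.V yb.e_V
    ((1 : ℝ) * v.nj * ((1 : ℝ) * v.nj)) rfl
    (13 : ℝ) zQMa_14293651161088_0
    ((13 : ℝ) * (10 : ℝ)⁻¹) rfl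
    ((1 : ℝ) * v.nj * ((1 : ℝ) * v.nj) * ((13 : ℝ) * (10 : ℝ)⁻¹)) rfl
    (S * S) rfl
    (25 * (S * S)) (congrArg (fun y : ℝ => y * (S * S)) zQMa_27487790694400_0)
    yb.C2 yb.e_C2
    yb.gr yb.e_gr
    (2 * v.c0 - v.t) rfl
    yb.Gt yb.e_Gt
    ((1 : ℝ) * v.u) rfl
    yb.au yb.e_au
    (v.op1 * yb.fxe) rfl
    (v.op1 * yb.fxe * xa.iG4) rfl
    yb.inner yb.e_inner
    (v.tu * yb.eN + (2 : ℝ)) rfl
    yb.ezs yb.e_ezs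
    (yb.C2 * yb.gr) rfl
    (yb.NN * yb.ezs) rfl
    (yb.au * yb.inner) rfl
    (yb.NN * yb.ezs * (yb.au * yb.inner)) rfl
    yb.Rg0 yb.e_Rg0
    ((1 / 2) * (v.tu * yb.eN)) (congrArg (fun y : ℝ => y * (v.tu * yb.eN)) zQMa_549755813888_0)
    ((1 : ℝ) + (1 / 2) * (v.tu * yb.eN)) rfl
    (yb.NN * ((1 : ℝ) + (1 / 2) * (v.tu * yb.eN))) rfl
    (v.t * v.om1) rfl
    (v.t * v.om1 * v2.bsum) rfl
    (v.op1 * v.aQ) rfl).2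
    ((v.op1 * v.aQ)⁻¹) rfl
    (v.t * v.om1 * v2.bsum * (v.op1 * v.aQ)⁻¹) rfl
    (yb.NN * ((1 : ℝ) + (1 / 2) * (v.tu * yb.eN)) * (v.t * v.om1 * v2.bsum * (v.op1 * v.aQ)⁻¹)) rfl
    yb.Rh yb.e_Rh
    (v2.lm * yb.Rg0) rfl
    ((1 : ℝ) - v2.lm) rfl
    (v.u2 * yb.Rh) rfl
    (((1 : ℝ) - v2.lm) * (v.u2 * yb.Rh)) rfl
    (yb.C2 * (((1 : ℝ) - v2.lm) * (v.u2 * yb.Rh))) rfl
    yb.Rg yb.e_Rg
  change 0 < (1 : ℝ) - xa.XM at p_XM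
  obtain ⟨p_QX, s6⟩ := s5
  change 0 < (1 : ℝ) - xa.QX at p_QX
  obtain ⟨p_e2, s7⟩ := s6
    (2 * (v.tu2 * yb.epd)) (congrArg (fun y : ℝ => y * (v.tu2 * yb.epd)) zQMa_2199023255552_0)
    (v.aQ - 2 * (v.tu2 * yb.epd)) rfl
  change 0 < v.aQ - 2 * (v.tu2 * yb.epd) at p_e2
  obtain ⟨p_rl, s8⟩ := s7
  change 0 < yb.rl at p_rl
  obtain ⟨p_hgp, s9⟩ := s8
    ((1 / 2 : ℝ) - hgp) rfl
  change 0 < (1 / 2 : ℝ) - hgp at p_hgp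
  obtain ⟨p_l1, s10⟩ := s9
    ((5 / 8) * (1 : ℝ)) (congrArg (fun y : ℝ => y * (1 : ℝ)) zQMa_687194767360_0)
    ((5 / 8) * (1 : ℝ) - xa.l1) rfl
  change 0 < (5 / 8) * (1 : ℝ) - xa.l1 at p_l1
  obtain ⟨p_a0, s11⟩ := s10
    ((11 / 32) * (1 : ℝ)) (congrArg (fun y : ℝ => y * (1 : ℝ)) zQMa_377957122048_0)
    ((11 / 32) * (1 : ℝ) - xa.a0) rfl
  change 0 < (11 / 32) * (1 : ℝ) - xa.a0 at p_a0
  obtain ⟨p_S, s12⟩ := s11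
  change 0 < v.op1 - v.tu * yb.eN at p_S
  obtain ⟨p_zp, s13⟩ := s12
  change 0 < (1 : ℝ) - yb.zp at p_zp
  obtain ⟨p_rr, s14⟩ := s13
    ((5 / 8) * (1 : ℝ) - yb.rr) rfl
  change 0 < (5 / 8) * (1 : ℝ) - yb.rr at p_rr
  obtain ⟨p_V, s15⟩ := s14
  change 0 < yb.V at p_V
  obtain ⟨p_B, s16⟩ := s15
  change 0 < cl.Bm - (1 / 1024) * (1 : ℝ) at p_B
  obtain ⟨p_Rg, s17⟩ := s16
  change 0 < yb.Rg at p_Rg
  obtain ⟨p_Rh, s18⟩ := s17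
  change 0 < yb.Rh at p_Rh
  have hQ := qb_s G f lv.e_rhi e_q e_th
  have hq := hQ.le
  have hq0 : 0 < q := lt_of_lt_of_le (by rw [G.q_eq]; exact G.q0) hq
  have hγ := gam_le_one G.e0 G.κ0 G.s0
  have hγp := gam_le_one G.e0 G.κ0 (shf_re' G.κ0 G.s0)
  have hoo := oo_sharp8 G.κ0 G.s0 hQ (Qre0 G) hsc.ee (x_eq G v5 hsc e_w e_x) e_cu e_xe e_o2u e_ooo
  have hn1 : ‖1 + qq v.e κ (shf κ τ)‖ ≤ Q1 := by
    rw [e_Q1]; exact n1_sharp8 G.e0 G.κ0 G.s0 hq hoo (hg_le G hγ e_hg)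
  have hlx : 1 * lsx = v.h1t * lsf * 1 := by rw [e_lsx, one_mul]
  have fr := fr_g G hγ hq hq0 e_hg e_lsf p_hg e_Qb e_ls (hsc.al0 G) hlx hn1
  have hgu : 1 * gu = 1 * S := by rw [e_gu]; ring
  obtain ⟨lf0, Ex, hφ⟩ := ph_slM G v2 hsc he2 (by norm_num) (by norm_num) (by norm_num) e_phux e_Ei e_Eh
  have as8 : As8 xa yb := ⟨p_XM, p_QX, p_e2, p_rl, p_l1, p_a0, p_S, p_zp, p_rr, p_V, p_Rg, p_Rh⟩
  exact far_Cl G D hsc hA0 hA as8 fr hgu hγp hφ pk f p_rplo e_hgp p_hgp p_lspa p_pe p_yy cl e_srcx e_srcs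
    (mul_one v.t) G.t0 (by linear_combination v.t * e_y1 - pk.ye * e_r) p_B

theorem far_QMa6 {κ : ℝ} {τ : ℂ} {R w : ℝ} {v : B1} (D : PtE (7 * 10⁻¹) v.e κ τ R w)
    (G : Geo κ (shf κ τ) v) (v2 : B2 v) (v3 : B3 v) (v5 : V5 v) {l1 : Lg v.D} {l2 : Lg v.D2}
    (lv : LV v l1 l2) (he2 : 2 ≤ v.e) {S z de : ℝ}
    (hde0 : 0 < de) (hde : de = v.t * z * S) (hu : v.u = z * de) (hz0 : 0 < z)
    (hee : v.e * (de * de) = 1)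
    (h : RAs Pool.Agent.helper71.FJ.Crt.QMa.prog6 [S, v.t, z, v.n]) :
    FarPt v.e κ (1 - Real.sinh κ / 1024) w (2 * AQ v.e v.K * Real.sinh κ ^ 2) R
      (RE v.e κ (w * R)) τ := by
  obtain ⟨tz, e_tz⟩ : ∃ zz : ℝ, zz = v.t * z := ⟨_, rfl⟩
  have hde' : de = tz * S := by rw [e_tz]; exact hde
  obtain ⟨z2, e_z2⟩ : ∃ zz : ℝ, zz = z * z := ⟨_, rfl⟩
  obtain ⟨r, e_r⟩ : ∃ zz : ℝ, zz = v.t * z2 := ⟨_, rfl⟩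
  obtain ⟨eps, e_eps⟩ : ∃ zz : ℝ, zz = de * de := ⟨_, rfl⟩
  obtain ⟨tr, e_tr⟩ : ∃ zz : ℝ, zz = v.t * r := ⟨_, rfl⟩
  obtain ⟨q, e_q⟩ : ∃ zz : ℝ, zz = Real.exp (-(r * lv.rlo)) := ⟨_, rfl⟩
  obtain ⟨th, e_th⟩ : ∃ zz : ℝ, zz = q * (r * lv.er) := ⟨_, rfl⟩
  obtain ⟨hg, e_hg⟩ : ∃ zz : ℝ, zz = v.h1 * (1 : ℝ) := ⟨_, rfl⟩
  obtain ⟨lsf, e_lsf⟩ : ∃ zz : ℝ, zz = ((1 : ℝ) - (1 / 2) * hg) * ((1 : ℝ) - hg)⁻¹ := ⟨_, rfl⟩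
  obtain ⟨Qb, e_Qb⟩ : ∃ zz : ℝ, zz = q * (hg + (1 : ℝ)) := ⟨_, rfl⟩
  obtain ⟨lsx, e_lsx⟩ : ∃ zz : ℝ, zz = v.h1t * lsf * (1 : ℝ) := ⟨_, rfl⟩
  obtain ⟨ls, e_ls⟩ : ∃ zz : ℝ, zz = hg * lsf := ⟨_, rfl⟩
  obtain ⟨hgp, e_hgp⟩ : ∃ zz : ℝ, zz = v3.hp * (1 : ℝ) := ⟨_, rfl⟩
  obtain ⟨gu, e_gu⟩ : ∃ zz : ℝ, zz = (1 : ℝ) * S := ⟨_, rfl⟩
  obtain ⟨G4, e_G4⟩ : ∃ zz : ℝ, zz = 4 * S + (1 : ℝ) * v.nj := ⟨_, rfl⟩
  obtain ⟨Ei, e_Ei⟩ : ∃ zz : ℝ, zz = 2 * eps + (1 : ℝ) := ⟨_, rfl⟩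
  obtain ⟨Eh, e_Eh⟩ : ∃ zz : ℝ, zz = eps + (1 : ℝ) := ⟨_, rfl⟩
  obtain ⟨phux, e_phux⟩ : ∃ zz : ℝ, zz = (1 / 2) * ((13 / 4) * v.om + (79 / 256 : ℝ)) := ⟨_, rfl⟩
  obtain ⟨Q1, e_Q1⟩ : ∃ zz : ℝ, zz = Qb + (1 : ℝ) := ⟨_, rfl⟩
  obtain ⟨xa⟩ := exKa v2 eps 1 S G4 Qb Q1 ls lsx phux Ei Eh
  obtain ⟨srcx, e_srcx⟩ : ∃ zz : ℝ, zz = v.om1 * ((1 / 2) * (r * v2.bsum * v.aQ⁻¹)) + xa.kl := ⟨_, rfl⟩
  obtain ⟨srcs, e_srcs⟩ : ∃ zz : ℝ, zz = v.t * srcx := ⟨_, rfl⟩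
  obtain ⟨yb⟩ := exKb (7 * 10⁻¹) xa tr 1 gu srcs
  obtain ⟨pk⟩ := exPk v5 lv.rplo v3.hp hgp gu yb.yy
  obtain ⟨y1, e_y1⟩ : ∃ zz : ℝ, zz = z2 * pk.ye := ⟨_, rfl⟩
  obtain ⟨cl⟩ := exCl yb v.t 1 y1 srcx
  have hsc := sc_Ma hde' e_tz hu hee hde0 G.t0 hz0.le e_z2 e_r e_tr e_eps
  obtain ⟨hA0, hA⟩ := hA_Q G hsc e_G4
  have f := lv.f G hsc.hr
  obtain ⟨p_hg, s0⟩ := (((((((((h
    (1 : ℝ) zQMa_1099511627776_0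
    tz e_tz
    de hde'
    v.u hu
    z2 e_z2
    r e_r
    eps e_eps
    tr e_tr
    (1 / 2 : ℝ) zQMa_549755813888_0
    v.tu v.e_tu
    (v.tu * v.n) rfl
    v.h (v.e_h.trans (congrArg (fun y : ℝ => y * (v.tu * v.n)) zQMa_549755813888_0))
    v.u2 v.e_u2
    (v.h * v.h) rfl
    v.jm v.e_jm).2
    v.j v.e_j
    (v.h * v.j) rfl
    v.K (v.e_K.trans (congrArg (fun y : ℝ => y * (v.h * v.j)) zQMa_2199023255552_0))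
    (2 * v.j) (congrArg (fun y : ℝ => y * v.j) zQMa_2199023255552_0)
    v.c0 v.e_c0
    v.m v.e_m
    v.nj v.e_nj
    v.om v.e_om
    v.om1 v.e_om1
    v.op1 v.e_op1
    v.R v.e_R
    v.nj2 v.e_nj2
    v2.Y (v2.e_Y.trans (congrArg (fun y : ℝ => y * v.h) zQMa_10774999203840_0))
    ((341 / 8192) * v2.Y) (congrArg (fun y : ℝ => y * v2.Y) zQMa_45768245248_0)
    (1365 / 8192 : ℝ) zQMa_183207198720_0
    ((341 / 8192) * v2.Y + (1365 / 8192 : ℝ)) rfl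
    (v2.Y * ((341 / 8192) * v2.Y + (1365 / 8192 : ℝ))) rfl
    ((1 / 2 : ℝ) + v2.Y * ((341 / 8192) * v2.Y + (1365 / 8192 : ℝ))) rfl
    (v2.Y * ((1 / 2 : ℝ) + v2.Y * ((341 / 8192) * v2.Y + (1365 / 8192 : ℝ)))) rfl
    v2.pY v2.e_pY
    (v2.Y * v2.pY) rfl
    ((1 / 2) * (v2.Y * v2.pY)) (congrArg (fun y : ℝ => y * (v2.Y * v2.pY)) zQMa_549755813888_0)
    ((1 : ℝ) + (1 / 2) * (v2.Y * v2.pY)) rfl
    v2.Yp v2.e_Yp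
    (v.K * v.om) rfl
    (2 * v.c0) (congrArg (fun y : ℝ => y * v.c0) zQMa_2199023255552_0)
    (v.K * v.om + 2 * v.c0) rfl
    v.Dt v.e_Dt
    v.D v.e_D
    v.SQ v.e_SQ
    (v.K * v.K) rfl
    (2 * (v.K * v.K)) (congrArg (fun y : ℝ => y * (v.K * v.K)) zQMa_2199023255552_0)
    v.c2 v.e_c2
    (v.c0 * v.Dt) rfl
    v.rhat v.e_rhat).2
    v.LQ v.e_LQ
    ((1 / 2) * v.LQ) (congrArg (fun y : ℝ => y * v.LQ) zQMa_549755813888_0)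
    v.aQ v.e_aQ
    (3 : ℝ) zQMa_3298534883328_0).2
    ((3 : ℝ)⁻¹) rfl
    ((1 : ℝ) * (3 : ℝ)⁻¹) rfl
    (2 : ℝ) zQMa_2199023255552_0
    (v.D + (2 : ℝ)) rfl).2
    ((v.D + (2 : ℝ))⁻¹) rfl
    l1.zL l1.e_zL
    l1.zz l1.e_zz
    ((1 : ℝ) - l1.zL) rfl
    (l1.zz * ((1 : ℝ) * (3 : ℝ)⁻¹)) rfl
    ((1 : ℝ) + l1.zz * ((1 : ℝ) * (3 : ℝ)⁻¹)) rfl
    l1.Lv l1.e_Lv
    (l1.zz * l1.zz) rfl
    l1.eL (l1.e_eL.trans (congrArg (fun y : ℝ => y * (l1.zz * l1.zz)) zQMa_219915747328_0))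
    (v.Dt * l1.Lv) rfl
    lv.rlo (lv.e_rlo.trans (congrArg (fun y : ℝ => y * (v.Dt * l1.Lv)) zQMa_549755813888_0))
    (v.Dt * l1.eL) rfl
    lv.er (lv.e_er.trans (congrArg (fun y : ℝ => y * (v.Dt * l1.eL)) zQMa_549755813888_0))
    lv.rhi lv.e_rhi
    (v.c0 * v.rhat) rfl
    lv.D2R (lv.e_D2R.trans (congrArg (fun y : ℝ => y * (v.c0 * v.rhat)) zQMa_4398046511104_0))
    (v.c0 * v.R) rfl
    (v.c0 * v.R * v.rhat) rfl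
    v.D2 (v.e_D2.trans (congrArg (fun y : ℝ => y * (v.c0 * v.R * v.rhat)) zQMa_4398046511104_0))
    (v.D2 + (2 : ℝ)) rfl).2
    ((v.D2 + (2 : ℝ))⁻¹) rfl
    l2.zL l2.e_zL
    l2.zz l2.e_zz
    ((1 : ℝ) - l2.zL) rfl
    (l2.zz * ((1 : ℝ) * (3 : ℝ)⁻¹)) rfl
    ((1 : ℝ) + l2.zz * ((1 : ℝ) * (3 : ℝ)⁻¹)) rfl
    l2.Lv l2.e_Lv
    (l2.zz * l2.zz) rfl
    l2.eL (l2.e_eL.trans (congrArg (fun y : ℝ => y * (l2.zz * l2.zz)) zQMa_219915747328_0))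
    (lv.D2R * l2.Lv) rfl
    ((1 / 2) * (lv.D2R * l2.Lv)) (congrArg (fun y : ℝ => y * (lv.D2R * l2.Lv)) zQMa_549755813888_0)
    lv.rplo lv.e_rplo
    (lv.D2R * l2.eL) rfl
    ((1 / 2) * (lv.D2R * l2.eL)) (congrArg (fun y : ℝ => y * (lv.D2R * l2.eL)) zQMa_549755813888_0)
    lv.erp lv.e_erp
    lv.rphi lv.e_rphi
    (r * lv.rlo) rfl
    (-(r * lv.rlo)) rfl
    q e_q
    (r * lv.er) rfl
    th e_th
    (v.om * v.K) rfl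
    (v.c0 + v.om * v.K) rfl).2
    v.ioK v.e_ioK
    v.h1t v.e_h1t
    (v.om1 * v.t) rfl
    v.h1 v.e_h1
    ((1 : ℝ) - v.u2) rfl
    v.f2 v.e_f2
    v.tu2 v.e_tu2
    ((1 : ℝ) - v.nj2) rfl
    v5.sn v5.e_sn
    (v.R * v.rhat) rfl).2
    (v.SQ⁻¹) rfl
    v5.R1 v5.e_R1
    (v.c0 + v5.R1) rfl
    v5.Qr v5.e_Qr
    (v5.Qr * v5.Qr) rfl).2
    ((v5.Qr * v5.Qr)⁻¹) rfl
    v5.Th v5.e_Th
    hg e_hg
    ((1 / 2) * hg) (congrArg (fun y : ℝ => y * hg) zQMa_549755813888_0)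
    ((1 : ℝ) - (1 / 2) * hg) rfl
    ((1 : ℝ) - hg) rfl).2
    (((1 : ℝ) - hg)⁻¹) rfl
    lsf e_lsf
    (hg + (1 : ℝ)) rfl
    Qb e_Qb
    (v.h1t * lsf) rfl
    lsx e_lsx
    ls e_ls
  change 0 < (1 : ℝ) - hg at p_hg
  obtain ⟨p_rplo, s1⟩ := (s0
    (v.om1 * v.op1) rfl
    (v.c0 + v.t) rfl
    (v.om * v.c0) rfl
    (v.om * v.c0 * v.K) rfl
    (2 * (v.om * v.c0 * v.K)) (congrArg (fun y : ℝ => y * (v.om * v.c0 * v.K)) zQMa_2199023255552_0)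
    (v.c2 + 2 * (v.om * v.c0 * v.K)) rfl
    ((v.c0 + v.t) * (v.c2 + 2 * (v.om * v.c0 * v.K))) rfl).2
    (((v.c0 + v.t) * (v.c2 + 2 * (v.om * v.c0 * v.K)))⁻¹) rfl
    v3.hpt v3.e_hpt
    v3.hp v3.e_hp
  change 0 < lv.rplo at p_rplo
  obtain ⟨p_lspa, s2⟩ := (((((((((((((s1
    hgp e_hgp
    gu e_gu
    (v.h + (1 : ℝ)) rfl).2
    v2.ih v2.e_ih
    (v.h * v2.ih) rfl
    v2.rh (v2.e_rh.trans (congrArg (fun y : ℝ => y * (v.h * v2.ih)) zQMa_2199023255552_0))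
    v2.mi v2.e_mi
    v2.hm v2.e_hm
    v2.nih v2.e_nih
    (v2.nih * v2.mi) rfl
    v2.bsum v2.e_bsum
    ((209 / 1024) * v.j) (congrArg (fun y : ℝ => y * v.j) zQMa_224412041216_0)).2
    (v2.Yp⁻¹) rfl
    v2.lm v2.e_lm
    (4 * S) (congrArg (fun y : ℝ => y * S) zQMa_4398046511104_0)
    ((1 : ℝ) * v.nj) rfl
    G4 e_G4).2
    xa.iG4 xa.e_iG4
    xa.alG xa.e_alG
    xa.AE xa.e_AE
    (xa.AE * v.op1) rfl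
    xa.XeE xa.e_XeE
    (xa.alG * v.op1) rfl
    xa.XM xa.e_XM
    ((1 : ℝ) - xa.XM) rfl).2
    xa.iX xa.e_iX
    xa.QX xa.e_QX
    ((1 : ℝ) - xa.QX) rfl).2
    xa.iQX xa.e_iQX
    (2 * eps) (congrArg (fun y : ℝ => y * eps) zQMa_2199023255552_0)
    Ei e_Ei
    Eh e_Eh
    ((13 / 4) * v.om) (congrArg (fun y : ℝ => y * v.om) zQMa_3573412790272_0)
    (79 / 256 : ℝ) zQMa_339302416384_0
    ((13 / 4) * v.om + (79 / 256 : ℝ)) rfl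
    phux (e_phux.trans (congrArg (fun y : ℝ => y * ((13 / 4) * v.om + (79 / 256 : ℝ))) zQMa_549755813888_0))
    (v.h * v.nj) rfl
    ((1 : ℝ) - v.f2) rfl
    (v.h * v.om) rfl
    (2 * (v.h * v.om)) (congrArg (fun y : ℝ => y * (v.h * v.om)) zQMa_2199023255552_0)
    ((1 : ℝ) - v.f2 - 2 * (v.h * v.om)) rfl
    (v.h * v.nj * (v.h * v.nj)) rfl
    xa.N1 xa.e_N1
    (xa.N1 + (1 : ℝ)) rfl
    xa.s (xa.e_s.trans (congrArg (fun y : ℝ => y * (xa.N1 + (1 : ℝ))) zQMa_549755813888_0))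
    ((1 / 2) * v.R) (congrArg (fun y : ℝ => y * v.R) zQMa_549755813888_0)
    (v.j - (1 / 2) * v.R) rfl
    (v.tu2 * ((1 : ℝ) - v.f2)) rfl
    (v.tu2 * ((1 : ℝ) - v.f2) * v.jm) rfl
    ((1 / 8) * (v.tu2 * ((1 : ℝ) - v.f2) * v.jm)) (congrArg (fun y : ℝ => y * (v.tu2 * ((1 : ℝ) - v.f2) * v.jm)) zQMa_137438953472_0)
    (v.j - (1 / 2) * v.R + (1 / 8) * (v.tu2 * ((1 : ℝ) - v.f2) * v.jm)) rfl
    xa.k0 xa.e_k0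
    Q1 e_Q1
    (Q1 * xa.iX) rfl
    (Qb * xa.iQX) rfl
    (Q1 * xa.iX + Qb * xa.iQX) rfl
    (xa.XM * (Q1 * xa.iX + Qb * xa.iQX)) rfl
    (ls + xa.XM * (Q1 * xa.iX + Qb * xa.iQX)) rfl
    xa.a0 xa.e_a0
    (Q1 * xa.XM) rfl
    (Q1 * xa.XM * xa.iX) rfl
    (ls + Q1 * xa.XM * xa.iX) rfl
    xa.l1 xa.e_l1
    ((13 / 64) * xa.l1) (congrArg (fun y : ℝ => y * xa.l1) zQMa_223338299392_0)
    ((1 / 2 : ℝ) + (13 / 64) * xa.l1) rfl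
    (xa.l1 * ((1 / 2 : ℝ) + (13 / 64) * xa.l1)) rfl
    xa.Na xa.e_Na
    ((13 / 16) * xa.a0) (congrArg (fun y : ℝ => y * xa.a0) zQMa_893353197568_0)
    ((1 : ℝ) + (13 / 16) * xa.a0) rfl
    (xa.a0 * ((1 : ℝ) + (13 / 16) * xa.a0)) rfl
    xa.Nb xa.e_Nb
    (v2.rh * v2.nih) rfl
    (v2.rh * v2.nih * Ei) rfl
    xa.rn xa.e_rn
    (xa.k0 * xa.Na) rfl
    (v.aQ + (1 / 2 : ℝ)) rfl
    (xa.rn * (v.aQ + (1 / 2 : ℝ))) rfl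
    xa.ka xa.e_ka
    (v.aQ + (1 : ℝ)) rfl
    xa.kb xa.e_kb
    (Eh * (v.aQ + (1 : ℝ))) rfl
    (Eh * (v.aQ + (1 : ℝ)) * v2.nih) rfl
    xa.lfk xa.e_lfk
    (xa.ka * lsx) rfl
    (xa.lfk * phux) rfl
    xa.kl xa.e_kl
    (r * v2.bsum) rfl).2
    (v.aQ⁻¹) rfl
    (r * v2.bsum * v.aQ⁻¹) rfl
    ((1 / 2) * (r * v2.bsum * v.aQ⁻¹)) (congrArg (fun y : ℝ => y * (r * v2.bsum * v.aQ⁻¹)) zQMa_549755813888_0)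
    (v.om1 * ((1 / 2) * (r * v2.bsum * v.aQ⁻¹))) rfl
    srcx e_srcx
    srcs e_srcs
    yb.src yb.e_src
    (xa.ka * Q1) rfl
    (xa.ka * Q1 * xa.iX) rfl
    (xa.kb * Qb) rfl
    (xa.kb * Qb * xa.iQX) rfl
    yb.fxe yb.e_fxe
    (v.om1 * yb.src) rfl
    (xa.XeE * yb.fxe) rfl
    yb.epd yb.e_epd
    (v.tu2 * yb.epd) rfl
    (v.tu2 * yb.epd * v.aQ⁻¹) rfl
    ((1 : ℝ) - v.tu2 * yb.epd * v.aQ⁻¹) rfl).2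
    yb.NN yb.e_NN
    yb.eN yb.e_eN
    yb.d yb.e_d
    yb.eta yb.e_eta
    (yb.eta * v.aQ⁻¹) rfl
    ((1 : ℝ) - yb.eta * v.aQ⁻¹) rfl
    (v.rhat * ((1 : ℝ) - yb.eta * v.aQ⁻¹)) rfl
    yb.rl yb.e_rl).2
    yb.irl yb.e_irl
    yb.yy yb.e_yy
    (v.aQ - yb.eta) rfl).2
    yb.q0 yb.e_q0
    yb.zp yb.e_zp
    ((1 / 2) * yb.zp) (congrArg (fun y : ℝ => y * yb.zp) zQMa_549755813888_0)
    ((1 : ℝ) - (1 / 2) * yb.zp) rfl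
    ((1 : ℝ) - yb.zp) rfl).2
    (((1 : ℝ) - yb.zp)⁻¹) rfl
    yb.kzp yb.e_kzp
    (v.u * yb.q0) rfl
    (gu * yb.irl) rfl
    (gu * yb.irl * yb.kzp) rfl
    yb.Cu yb.e_Cu
    (tr * yb.eN) rfl
    (yb.q0 * (tr * yb.eN)) rfl
    ((1 : ℝ) * yb.irl) rfl
    ((1 : ℝ) * yb.irl * yb.kzp) rfl
    ((1 : ℝ) * yb.irl * yb.kzp * yb.d) rfl
    yb.rr yb.e_rr
    ((13 / 64) * yb.rr) (congrArg (fun y : ℝ => y * yb.rr) zQMa_223338299392_0)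
    ((1 / 2 : ℝ) + (13 / 64) * yb.rr) rfl
    (yb.rr * ((1 / 2 : ℝ) + (13 / 64) * yb.rr)) rfl
    ((1 : ℝ) + yb.rr * ((1 / 2 : ℝ) + (13 / 64) * yb.rr)) rfl
    (yb.Cu * ((1 : ℝ) + yb.rr * ((1 / 2 : ℝ) + (13 / 64) * yb.rr))) rfl
    yb.CuN yb.e_CuN
    yb.fbt yb.e_fbt
    yb.XLt yb.e_XLt
    (7 : ℝ) zQMa_7696581394432_0
    (10 : ℝ) zQMa_10995116277760_0).2
    ((10 : ℝ)⁻¹) rfl
    yb.beta yb.e_beta
    ((v.h + (1 : ℝ)) * v.op1) rfl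
    yb.b1 yb.e_b1
    pk.omr pk.e_omr
    pk.omp pk.e_omp
    ((1 / 2) * hgp) (congrArg (fun y : ℝ => y * hgp) zQMa_549755813888_0)
    ((1 : ℝ) - (1 / 2) * hgp) rfl
    ((1 : ℝ) - hgp) rfl).2
    (((1 : ℝ) - hgp)⁻¹) rfl
    (((1 : ℝ) - (1 / 2) * hgp) * ((1 : ℝ) - hgp)⁻¹) rfl
    pk.lspf pk.e_lspf
    (v.tu2 * v5.Th) rfl
    ((2731 / 4096) * (v.tu2 * v5.Th)) (congrArg (fun y : ℝ => y * (v.tu2 * v5.Th)) zQMa_733097230336_0)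
    ((1 : ℝ) - (2731 / 4096) * (v.tu2 * v5.Th)) rfl
    (v5.Th * ((1 : ℝ) - (2731 / 4096) * (v.tu2 * v5.Th))) rfl
    (lv.rplo * lv.rplo) rfl
    (v.u2 * (lv.rplo * lv.rplo)) rfl
    pk.E0 pk.e_E0
    pk.lspa pk.e_lspa
    (pk.E0 + (1 : ℝ)) rfl
    (pk.lspa * (pk.E0 + (1 : ℝ))) rfl
    (pk.E0 - pk.lspa * (pk.E0 + (1 : ℝ))) rfl
    ((2731 / 8192) * (v.K * v.K)) (congrArg (fun y : ℝ => y * (v.K * v.K)) zQMa_366548615168_0)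
    ((1 : ℝ) - (2731 / 8192) * (v.K * v.K)) rfl
    (v.nj2 * ((1 : ℝ) - (2731 / 8192) * (v.K * v.K))) rfl
    (pk.E0 - pk.lspa * (pk.E0 + (1 : ℝ)) + v.nj2 * ((1 : ℝ) - (2731 / 8192) * (v.K * v.K))) rfl
    (pk.omr * (pk.E0 - pk.lspa * (pk.E0 + (1 : ℝ)) + v.nj2 * ((1 : ℝ) - (2731 / 8192) * (v.K * v.K)))) rfl
    (pk.omp * pk.omp) rfl
    ((1 : ℝ) + pk.omp * pk.omp) rfl).2
    (((1 : ℝ) + pk.omp * pk.omp)⁻¹) rfl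
    pk.pe pk.e_pe
    ((1 : ℝ) - yb.yy) rfl
    pk.ye pk.e_ye
    ((1 : ℝ) - pk.lspa) rfl
  change 0 < (1 : ℝ) - pk.lspa at p_lspa
  obtain ⟨p_pe, s3⟩ := s2
  change 0 < pk.pe at p_pe
  obtain ⟨p_yy, s4⟩ := s3
  change 0 < (1 : ℝ) - yb.yy at p_yy
  obtain ⟨p_XM, s5⟩ := (((((s4
    (yb.CuN * G4) rfl
    (yb.CuN * G4 * srcx) rfl).2
    (v.op1⁻¹) rfl
    cl.FXt cl.e_FXt
    y1 e_y1
    (v.t * y1) rfl
    ((1 / 2) * (v.t * y1)) (congrArg (fun y : ℝ => y * (v.t * y1)) zQMa_549755813888_0)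
    ((1 : ℝ) - (1 / 2) * (v.t * y1)) rfl
    (y1 * ((1 : ℝ) - (1 / 2) * (v.t * y1))) rfl
    cl.S1 cl.e_S1
    (v.u * v.n) rfl
    (v.u * v.n * (v.h + (1 : ℝ))) rfl
    (v.u * v.n * (v.h + (1 : ℝ)) * v.j) rfl
    cl.a4 cl.e_a4
    (cl.S1 + cl.a4) rfl
    (cl.S1 * cl.a4) rfl
    (v.t * (cl.S1 * cl.a4)) rfl
    cl.S4 cl.e_S4
    cl.Dh cl.e_Dh
    ((3 / 8) * v.D) (congrArg (fun y : ℝ => y * v.D) zQMa_412316860416_0)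
    ((1 / 2 : ℝ) - (3 / 8) * v.D) rfl
    (cl.Dh * ((1 / 2 : ℝ) - (3 / 8) * v.D)) rfl
    ((1 : ℝ) * (cl.Dh * ((1 / 2 : ℝ) - (3 / 8) * v.D))) rfl
    cl.a5 cl.e_a5
    (cl.S4 + cl.a5) rfl
    (cl.S4 * cl.a5) rfl
    (v.t * (cl.S4 * cl.a5)) rfl
    cl.S5 cl.e_S5
    (v.u * yb.eN) rfl
    (v.u * yb.eN * v.op1⁻¹) rfl
    cl.a6 cl.e_a6
    (cl.S5 + cl.a6) rfl
    (cl.S5 * cl.a6) rfl
    (v.t * (cl.S5 * cl.a6)) rfl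
    cl.S6 cl.e_S6
    cl.a7 cl.e_a7
    (cl.S6 - cl.a7) rfl
    (v.t * yb.b1) rfl
    ((1 : ℝ) + v.t * yb.b1) rfl).2
    (((1 : ℝ) + v.t * yb.b1)⁻¹) rfl
    cl.S7 cl.e_S7
    (v.u * v.tu) rfl
    (v.u * v.tu * yb.eN) rfl
    (v.u * v.tu * yb.eN * yb.q0) rfl
    cl.a8 cl.e_a8
    (cl.S7 + cl.a8) rfl
    (cl.S7 * cl.a8) rfl
    (v.t * (cl.S7 * cl.a8)) rfl
    cl.S8 cl.e_S8
    (v.t * cl.S8) rfl
    cl.c1 cl.e_c1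
    (yb.fbt * xa.XM) rfl
    (v.t * yb.XLt) rfl
    (cl.FXt * (v.t * yb.XLt)) rfl
    (yb.fbt * xa.XM + cl.FXt * (v.t * yb.XLt)) rfl
    cl.rt cl.e_rt
    (yb.fbt + cl.FXt) rfl
    cl.fm cl.e_fm
    (cl.rt * cl.c1) rfl
    (cl.S8 + cl.rt * cl.c1) rfl
    (cl.S8 + cl.rt * cl.c1 + cl.fm) rfl
    cl.Bm cl.e_Bm
    ((1 / 1024) * (1 : ℝ)) (congrArg (fun y : ℝ => y * (1 : ℝ)) zQMa_1073741824_0)
    (cl.Bm - (1 / 1024) * (1 : ℝ)) rfl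
    yb.m1 yb.e_m1
    (yb.m1 + (2 : ℝ)) rfl
    (2 * yb.beta) (congrArg (fun y : ℝ => y * yb.beta) zQMa_2199023255552_0)
    (yb.m1 + (2 : ℝ) - 2 * yb.beta) rfl
    ((v.h + (1 : ℝ)) * (yb.m1 + (2 : ℝ) - 2 * yb.beta)) rfl
    (yb.m1 * (2 * yb.beta)) rfl
    (yb.m1 * (2 * yb.beta) + (1 : ℝ)) rfl).2
    ((yb.m1 * (2 * yb.beta) + (1 : ℝ))⁻¹) rfl
    ((v.h + (1 : ℝ)) * (yb.m1 + (2 : ℝ) - 2 * yb.beta) * (yb.m1 * (2 * yb.beta) + (1 : ℝ))⁻¹) rfl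
    (xa.AE * yb.fxe) rfl
    ((1 / 2) * v2.lm) (congrArg (fun y : ℝ => y * v2.lm) zQMa_549755813888_0)
    (v.K + (1 / 2) * v2.lm) rfl
    (xa.AE * yb.fxe * (v.K + (1 / 2) * v2.lm)) rfl
    (2 * (xa.AE * yb.fxe * (v.K + (1 / 2) * v2.lm))) (congrArg (fun y : ℝ => y * (xa.AE * yb.fxe * (v.K + (1 / 2) * v2.lm))) zQMa_2199023255552_0)
    (yb.src + 2 * (xa.AE * yb.fxe * (v.K + (1 / 2) * v2.lm))) rfl
    (2 * (yb.src + 2 * (xa.AE * yb.fxe * (v.K + (1 / 2) * v2.lm)))) (congrArg (fun y : ℝ => y * (yb.src + 2 * (xa.AE * yb.fxe * (v.K + (1 / 2) * v2.lm)))) zQMa_2199023255552_0)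
    (2 * (yb.src + 2 * (xa.AE * yb.fxe * (v.K + (1 / 2) * v2.lm))) * yb.NN) rfl
    (v.tu * yb.eN) rfl
    (v.op1 - v.tu * yb.eN) rfl).2
    ((v.op1 - v.tu * yb.eN)⁻¹) rfl
    (2 * (yb.src + 2 * (xa.AE * yb.fxe * (v.K + (1 / 2) * v2.lm))) * yb.NN * (v.op1 - v.tu * yb.eN)⁻¹) rfl
    yb.V yb.e_V
    ((1 : ℝ) * v.nj * ((1 : ℝ) * v.nj)) rfl
    (13 : ℝ) zQMa_14293651161088_0
    ((13 : ℝ) * (10 : ℝ)⁻¹) rfl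
    ((1 : ℝ) * v.nj * ((1 : ℝ) * v.nj) * ((13 : ℝ) * (10 : ℝ)⁻¹)) rfl
    (S * S) rfl
    (25 * (S * S)) (congrArg (fun y : ℝ => y * (S * S)) zQMa_27487790694400_0)
    yb.C2 yb.e_C2
    yb.gr yb.e_gr
    (2 * v.c0 - v.t) rfl
    yb.Gt yb.e_Gt
    ((1 : ℝ) * v.u) rfl
    yb.au yb.e_au
    (v.op1 * yb.fxe) rfl
    (v.op1 * yb.fxe * xa.iG4) rfl
    yb.inner yb.e_inner
    (v.tu * yb.eN + (2 : ℝ)) rfl
    yb.ezs yb.e_ezs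
    (yb.C2 * yb.gr) rfl
    (yb.NN * yb.ezs) rfl
    (yb.au * yb.inner) rfl
    (yb.NN * yb.ezs * (yb.au * yb.inner)) rfl
    yb.Rg0 yb.e_Rg0
    ((1 / 2) * (v.tu * yb.eN)) (congrArg (fun y : ℝ => y * (v.tu * yb.eN)) zQMa_549755813888_0)
    ((1 : ℝ) + (1 / 2) * (v.tu * yb.eN)) rfl
    (yb.NN * ((1 : ℝ) + (1 / 2) * (v.tu * yb.eN))) rfl
    (v.t * v.om1) rfl
    (v.t * v.om1 * v2.bsum) rfl
    (v.op1 * v.aQ) rfl).2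
    ((v.op1 * v.aQ)⁻¹) rfl
    (v.t * v.om1 * v2.bsum * (v.op1 * v.aQ)⁻¹) rfl
    (yb.NN * ((1 : ℝ) + (1 / 2) * (v.tu * yb.eN)) * (v.t * v.om1 * v2.bsum * (v.op1 * v.aQ)⁻¹)) rfl
    yb.Rh yb.e_Rh
    (v2.lm * yb.Rg0) rfl
    ((1 : ℝ) - v2.lm) rfl
    (v.u2 * yb.Rh) rfl
    (((1 : ℝ) - v2.lm) * (v.u2 * yb.Rh)) rfl
    (yb.C2 * (((1 : ℝ) - v2.lm) * (v.u2 * yb.Rh))) rfl
    yb.Rg yb.e_Rg
  change 0 < (1 : ℝ) - xa.XM at p_XM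
  obtain ⟨p_QX, s6⟩ := s5
  change 0 < (1 : ℝ) - xa.QX at p_QX
  obtain ⟨p_e2, s7⟩ := s6
    (2 * (v.tu2 * yb.epd)) (congrArg (fun y : ℝ => y * (v.tu2 * yb.epd)) zQMa_2199023255552_0)
    (v.aQ - 2 * (v.tu2 * yb.epd)) rfl
  change 0 < v.aQ - 2 * (v.tu2 * yb.epd) at p_e2
  obtain ⟨p_rl, s8⟩ := s7
  change 0 < yb.rl at p_rl
  obtain ⟨p_hgp, s9⟩ := s8
    ((1 / 2 : ℝ) - hgp) rfl
  change 0 < (1 / 2 : ℝ) - hgp at p_hgp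
  obtain ⟨p_l1, s10⟩ := s9
    ((5 / 8) * (1 : ℝ)) (congrArg (fun y : ℝ => y * (1 : ℝ)) zQMa_687194767360_0)
    ((5 / 8) * (1 : ℝ) - xa.l1) rfl
  change 0 < (5 / 8) * (1 : ℝ) - xa.l1 at p_l1
  obtain ⟨p_a0, s11⟩ := s10
    ((11 / 32) * (1 : ℝ)) (congrArg (fun y : ℝ => y * (1 : ℝ)) zQMa_377957122048_0)
    ((11 / 32) * (1 : ℝ) - xa.a0) rfl
  change 0 < (11 / 32) * (1 : ℝ) - xa.a0 at p_a0
  obtain ⟨p_S, s12⟩ := s11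
  change 0 < v.op1 - v.tu * yb.eN at p_S
  obtain ⟨p_zp, s13⟩ := s12
  change 0 < (1 : ℝ) - yb.zp at p_zp
  obtain ⟨p_rr, s14⟩ := s13
    ((5 / 8) * (1 : ℝ) - yb.rr) rfl
  change 0 < (5 / 8) * (1 : ℝ) - yb.rr at p_rr
  obtain ⟨p_V, s15⟩ := s14
  change 0 < yb.V at p_V
  obtain ⟨p_B, s16⟩ := s15
  change 0 < cl.Bm - (1 / 1024) * (1 : ℝ) at p_B
  obtain ⟨p_Rg, s17⟩ := s16
  change 0 < yb.Rg at p_Rg
  obtain ⟨p_Rh, s18⟩ := s17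
  change 0 < yb.Rh at p_Rh
  have hQ := qb_s G f lv.e_rhi e_q e_th
  have hq := hQ.le
  have hq0 : 0 < q := lt_of_lt_of_le (by rw [G.q_eq]; exact G.q0) hq
  have hγ := gam_le_one G.e0 G.κ0 G.s0
  have hγp := gam_le_one G.e0 G.κ0 (shf_re' G.κ0 G.s0)
  have hn1 := n1_one G hγ hq e_hg e_Qb e_Q1
  have hlx : 1 * lsx = v.h1t * lsf * 1 := by rw [e_lsx, one_mul]
  have fr := fr_g G hγ hq hq0 e_hg e_lsf p_hg e_Qb e_ls (hsc.al0 G) hlx hn1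
  have hgu : 1 * gu = 1 * S := by rw [e_gu]; ring
  obtain ⟨lf0, Ex, hφ⟩ := ph_slM G v2 hsc he2 (by norm_num) (by norm_num) (by norm_num) e_phux e_Ei e_Eh
  have as8 : As8 xa yb := ⟨p_XM, p_QX, p_e2, p_rl, p_l1, p_a0, p_S, p_zp, p_rr, p_V, p_Rg, p_Rh⟩
  exact far_Cl G D hsc hA0 hA as8 fr hgu hγp hφ pk f p_rplo e_hgp p_hgp p_lspa p_pe p_yy cl e_srcx e_srcs
    (mul_one v.t) G.t0 (by linear_combination v.t * e_y1 - pk.ye * e_r) p_B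

theorem far_QMa7 {κ : ℝ} {τ : ℂ} {R w : ℝ} {v : B1} (D : PtE (7 * 10⁻¹) v.e κ τ R w)
    (G : Geo κ (shf κ τ) v) (v2 : B2 v) (v3 : B3 v) (v5 : V5 v) {l1 : Lg v.D} {l2 : Lg v.D2}
    (lv : LV v l1 l2) (he2 : 2 ≤ v.e) {S z de : ℝ}
    (hde0 : 0 < de) (hde : de = v.t * z * S) (hu : v.u = z * de) (hz0 : 0 < z)
    (hee : v.e * (de * de) = 1)
    (h : RAs Pool.Agent.helper71.FJ.Crt.QMa.prog7 [S, v.t, z, v.n]) :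
    FarPt v.e κ (1 - Real.sinh κ / 1024) w (2 * AQ v.e v.K * Real.sinh κ ^ 2) R
      (RE v.e κ (w * R)) τ := by
  obtain ⟨tz, e_tz⟩ : ∃ zz : ℝ, zz = v.t * z := ⟨_, rfl⟩
  have hde' : de = tz * S := by rw [e_tz]; exact hde
  obtain ⟨z2, e_z2⟩ : ∃ zz : ℝ, zz = z * z := ⟨_, rfl⟩
  obtain ⟨r, e_r⟩ : ∃ zz : ℝ, zz = v.t * z2 := ⟨_, rfl⟩
  obtain ⟨eps, e_eps⟩ : ∃ zz : ℝ, zz = de * de := ⟨_, rfl⟩
  obtain ⟨tr, e_tr⟩ : ∃ zz : ℝ, zz = v.t * r := ⟨_, rfl⟩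
  obtain ⟨q, e_q⟩ : ∃ zz : ℝ, zz = Real.exp (-(r * lv.rlo)) := ⟨_, rfl⟩
  obtain ⟨th, e_th⟩ : ∃ zz : ℝ, zz = q * (r * lv.er) := ⟨_, rfl⟩
  obtain ⟨qp, e_qp⟩ : ∃ zz : ℝ, zz = Real.exp (-(r * lv.rplo)) := ⟨_, rfl⟩
  obtain ⟨thp, e_thp⟩ : ∃ zz : ℝ, zz = qp * (r * lv.erp) := ⟨_, rfl⟩
  obtain ⟨wv, e_w⟩ : ∃ zz : ℝ, zz = (1 : ℝ) * (S * (v.c0 + v.R))⁻¹ := ⟨_, rfl⟩
  obtain ⟨xv, e_x⟩ : ∃ zz : ℝ, zz = wv * wv * v5.sn := ⟨_, rfl⟩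
  obtain ⟨sg1, e_sg1⟩ : ∃ zz : ℝ, zz = (1 : ℝ) - v.u2 * ((1 : ℝ) - v.nj2) := ⟨_, rfl⟩
  obtain ⟨epK, e_epK⟩ : ∃ zz : ℝ, zz = (tz * tz * sg1 + r * ((21 : ℝ) * (10 : ℝ)⁻¹)) * eps := ⟨_, rfl⟩
  obtain ⟨Bk, e_Bk⟩ : ∃ zz : ℝ, zz = ((5 / 8) * tz + (221 / 128 : ℝ))⁻¹ + z * ((1 / 2) * ((72 : ℝ) * (100 : ℝ)⁻¹)) := ⟨_, rfl⟩
  obtain ⟨lsk, e_lsk⟩ : ∃ zz : ℝ, zz = (Bk * ((1 : ℝ) - epK))⁻¹ := ⟨_, rfl⟩
  obtain ⟨lsx, e_lsx⟩ : ∃ zz : ℝ, zz = z * v.op1 * lsk := ⟨_, rfl⟩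
  obtain ⟨ls, e_ls⟩ : ∃ zz : ℝ, zz = v.om1 * (v.t * lsx) := ⟨_, rfl⟩
  obtain ⟨eqx, e_eqx⟩ : ∃ zz : ℝ, zz = ls * ((1 : ℝ) + ls * ((1 / 2 : ℝ) + (13 / 64) * ls)) := ⟨_, rfl⟩
  obtain ⟨Qb, e_Qb⟩ : ∃ zz : ℝ, zz = q * (eqx + (1 : ℝ)) := ⟨_, rfl⟩
  obtain ⟨xpv, e_xp⟩ : ∃ zz : ℝ, zz = xv * v.SQ⁻¹ := ⟨_, rfl⟩
  obtain ⟨ccp, e_ccp⟩ : ∃ zz : ℝ, zz = (1 : ℝ) - xpv * ((1 / 2 : ℝ) - xpv * ((22906492245 / 549755813888 : ℝ) - xpv * ((381774871 / 274877906944 : ℝ) - xpv * ((27269633 / 1099511627776 : ℝ) - xpv * ((75749 / 274877906944 : ℝ) - xpv * ((2295 / 1099511627776 : ℝ) - xpv * (13 / 1099511627776 : ℝ))))))) := ⟨_, rfl⟩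
  obtain ⟨b'⟩ := exGE qp thp ccp v3.hp
  obtain ⟨gpv, e_gp⟩ : ∃ zz : ℝ, zz = (1 / 2) * ((((1 : ℝ) - qp) * b'.q1 + 2 * thp) * b'.W⁻¹) := ⟨_, rfl⟩
  obtain ⟨gap, e_gap⟩ : ∃ zz : ℝ, zz = gpv * (gpv + (1 / 2 : ℝ))⁻¹ := ⟨_, rfl⟩
  obtain ⟨hgp, e_hgp⟩ : ∃ zz : ℝ, zz = v3.hp * gap := ⟨_, rfl⟩
  obtain ⟨gu, e_gu⟩ : ∃ zz : ℝ, zz = gap * S := ⟨_, rfl⟩
  obtain ⟨G4, e_G4⟩ : ∃ zz : ℝ, zz = 4 * S + (1 : ℝ) * v.nj := ⟨_, rfl⟩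
  obtain ⟨Ei, e_Ei⟩ : ∃ zz : ℝ, zz = 2 * eps + (1 : ℝ) := ⟨_, rfl⟩
  obtain ⟨Eh, e_Eh⟩ : ∃ zz : ℝ, zz = eps + (1 : ℝ) := ⟨_, rfl⟩
  obtain ⟨phux, e_phux⟩ : ∃ zz : ℝ, zz = (1 / 2) * (z * (2 * (S * v.nj) + (1 / 2) * v.t)) := ⟨_, rfl⟩
  obtain ⟨cu, e_cu⟩ : ∃ zz : ℝ, zz = (1 : ℝ) - xv * ((1 / 2 : ℝ) - xv * ((45812984491 / 1099511627776 : ℝ) - xv * ((1527099483 / 1099511627776 : ℝ) - xv * ((13634817 / 549755813888 : ℝ) - xv * ((302995 / 1099511627776 : ℝ) - xv * ((287 / 137438953472 : ℝ) - xv * ((3 / 274877906944 : ℝ) - xv * (1 / 1099511627776 : ℝ)))))))) := ⟨_, rfl⟩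
  obtain ⟨xe, e_xe⟩ : ∃ zz : ℝ, zz = xv * eps := ⟨_, rfl⟩
  obtain ⟨o2u, e_o2u⟩ : ∃ zz : ℝ, zz = q * q + (1 : ℝ) + 2 * (q * (cu + (43 / 128) * (xe * xe))) + 2 * th := ⟨_, rfl⟩
  obtain ⟨ooo, e_ooo⟩ : ∃ zz : ℝ, zz = Real.exp ((1 / 2) * Real.log (o2u + (1 / 128 : ℝ))) := ⟨_, rfl⟩
  obtain ⟨Q1, e_Q1⟩ : ∃ zz : ℝ, zz = ooo + q * eqx := ⟨_, rfl⟩
  obtain ⟨xa⟩ := exKa v2 eps 1 S G4 Qb Q1 ls lsx phux Ei Eh
  obtain ⟨srcx, e_srcx⟩ : ∃ zz : ℝ, zz = v.om1 * ((1 / 2) * (r * v2.bsum * v.aQ⁻¹)) + xa.kl := ⟨_, rfl⟩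
  obtain ⟨srcs, e_srcs⟩ : ∃ zz : ℝ, zz = v.t * srcx := ⟨_, rfl⟩
  obtain ⟨yb⟩ := exKb (7 * 10⁻¹) xa tr gap gu srcs
  obtain ⟨pk⟩ := exPk v5 lv.rplo v3.hp hgp gu yb.yy
  obtain ⟨y1, e_y1⟩ : ∃ zz : ℝ, zz = z2 * pk.ye := ⟨_, rfl⟩
  obtain ⟨cl⟩ := exCl yb v.t 1 y1 srcx
  have hsc := sc_Ma hde' e_tz hu hee hde0 G.t0 hz0.le e_z2 e_r e_tr e_eps
  obtain ⟨hA0, hA⟩ := hA_Q G hsc e_G4
  have f := lv.f G hsc.hr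
  obtain ⟨p_sg1, s0⟩ := (((((((((((((h
    (1 : ℝ) zQMa_1099511627776_0
    tz e_tz
    de hde'
    v.u hu
    z2 e_z2
    r e_r
    eps e_eps
    tr e_tr
    (1 / 2 : ℝ) zQMa_549755813888_0
    v.tu v.e_tu
    (v.tu * v.n) rfl
    v.h (v.e_h.trans (congrArg (fun y : ℝ => y * (v.tu * v.n)) zQMa_549755813888_0))
    v.u2 v.e_u2
    (v.h * v.h) rfl
    v.jm v.e_jm).2
    v.j v.e_j
    (v.h * v.j) rfl
    v.K (v.e_K.trans (congrArg (fun y : ℝ => y * (v.h * v.j)) zQMa_2199023255552_0))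
    (2 * v.j) (congrArg (fun y : ℝ => y * v.j) zQMa_2199023255552_0)
    v.c0 v.e_c0
    v.m v.e_m
    v.nj v.e_nj
    v.om v.e_om
    v.om1 v.e_om1
    v.op1 v.e_op1
    v.R v.e_R
    v.nj2 v.e_nj2
    v2.Y (v2.e_Y.trans (congrArg (fun y : ℝ => y * v.h) zQMa_10774999203840_0))
    ((341 / 8192) * v2.Y) (congrArg (fun y : ℝ => y * v2.Y) zQMa_45768245248_0)
    (1365 / 8192 : ℝ) zQMa_183207198720_0
    ((341 / 8192) * v2.Y + (1365 / 8192 : ℝ)) rfl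
    (v2.Y * ((341 / 8192) * v2.Y + (1365 / 8192 : ℝ))) rfl
    ((1 / 2 : ℝ) + v2.Y * ((341 / 8192) * v2.Y + (1365 / 8192 : ℝ))) rfl
    (v2.Y * ((1 / 2 : ℝ) + v2.Y * ((341 / 8192) * v2.Y + (1365 / 8192 : ℝ)))) rfl
    v2.pY v2.e_pY
    (v2.Y * v2.pY) rfl
    ((1 / 2) * (v2.Y * v2.pY)) (congrArg (fun y : ℝ => y * (v2.Y * v2.pY)) zQMa_549755813888_0)
    ((1 : ℝ) + (1 / 2) * (v2.Y * v2.pY)) rfl
    v2.Yp v2.e_Yp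
    (v.K * v.om) rfl
    (2 * v.c0) (congrArg (fun y : ℝ => y * v.c0) zQMa_2199023255552_0)
    (v.K * v.om + 2 * v.c0) rfl
    v.Dt v.e_Dt
    v.D v.e_D
    v.SQ v.e_SQ
    (v.K * v.K) rfl
    (2 * (v.K * v.K)) (congrArg (fun y : ℝ => y * (v.K * v.K)) zQMa_2199023255552_0)
    v.c2 v.e_c2
    (v.c0 * v.Dt) rfl
    v.rhat v.e_rhat).2
    v.LQ v.e_LQ
    ((1 / 2) * v.LQ) (congrArg (fun y : ℝ => y * v.LQ) zQMa_549755813888_0)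
    v.aQ v.e_aQ
    (3 : ℝ) zQMa_3298534883328_0).2
    ((3 : ℝ)⁻¹) rfl
    ((1 : ℝ) * (3 : ℝ)⁻¹) rfl
    (2 : ℝ) zQMa_2199023255552_0
    (v.D + (2 : ℝ)) rfl).2
    ((v.D + (2 : ℝ))⁻¹) rfl
    l1.zL l1.e_zL
    l1.zz l1.e_zz
    ((1 : ℝ) - l1.zL) rfl
    (l1.zz * ((1 : ℝ) * (3 : ℝ)⁻¹)) rfl
    ((1 : ℝ) + l1.zz * ((1 : ℝ) * (3 : ℝ)⁻¹)) rfl
    l1.Lv l1.e_Lv
    (l1.zz * l1.zz) rfl
    l1.eL (l1.e_eL.trans (congrArg (fun y : ℝ => y * (l1.zz * l1.zz)) zQMa_219915747328_0))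
    (v.Dt * l1.Lv) rfl
    lv.rlo (lv.e_rlo.trans (congrArg (fun y : ℝ => y * (v.Dt * l1.Lv)) zQMa_549755813888_0))
    (v.Dt * l1.eL) rfl
    lv.er (lv.e_er.trans (congrArg (fun y : ℝ => y * (v.Dt * l1.eL)) zQMa_549755813888_0))
    lv.rhi lv.e_rhi
    (v.c0 * v.rhat) rfl
    lv.D2R (lv.e_D2R.trans (congrArg (fun y : ℝ => y * (v.c0 * v.rhat)) zQMa_4398046511104_0))
    (v.c0 * v.R) rfl
    (v.c0 * v.R * v.rhat) rfl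
    v.D2 (v.e_D2.trans (congrArg (fun y : ℝ => y * (v.c0 * v.R * v.rhat)) zQMa_4398046511104_0))
    (v.D2 + (2 : ℝ)) rfl).2
    ((v.D2 + (2 : ℝ))⁻¹) rfl
    l2.zL l2.e_zL
    l2.zz l2.e_zz
    ((1 : ℝ) - l2.zL) rfl
    (l2.zz * ((1 : ℝ) * (3 : ℝ)⁻¹)) rfl
    ((1 : ℝ) + l2.zz * ((1 : ℝ) * (3 : ℝ)⁻¹)) rfl
    l2.Lv l2.e_Lv
    (l2.zz * l2.zz) rfl
    l2.eL (l2.e_eL.trans (congrArg (fun y : ℝ => y * (l2.zz * l2.zz)) zQMa_219915747328_0))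
    (lv.D2R * l2.Lv) rfl
    ((1 / 2) * (lv.D2R * l2.Lv)) (congrArg (fun y : ℝ => y * (lv.D2R * l2.Lv)) zQMa_549755813888_0)
    lv.rplo lv.e_rplo
    (lv.D2R * l2.eL) rfl
    ((1 / 2) * (lv.D2R * l2.eL)) (congrArg (fun y : ℝ => y * (lv.D2R * l2.eL)) zQMa_549755813888_0)
    lv.erp lv.e_erp
    lv.rphi lv.e_rphi
    (r * lv.rlo) rfl
    (-(r * lv.rlo)) rfl
    q e_q
    (r * lv.er) rfl
    th e_th
    (r * lv.rplo) rfl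
    (-(r * lv.rplo)) rfl
    qp e_qp
    (r * lv.erp) rfl
    thp e_thp
    (v.om * v.K) rfl
    (v.c0 + v.om * v.K) rfl).2
    v.ioK v.e_ioK
    v.h1t v.e_h1t
    (v.om1 * v.t) rfl
    v.h1 v.e_h1
    ((1 : ℝ) - v.u2) rfl
    v.f2 v.e_f2
    v.tu2 v.e_tu2
    ((1 : ℝ) - v.nj2) rfl
    v5.sn v5.e_sn
    (v.R * v.rhat) rfl).2
    (v.SQ⁻¹) rfl
    v5.R1 v5.e_R1
    (v.c0 + v5.R1) rfl
    v5.Qr v5.e_Qr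
    (v5.Qr * v5.Qr) rfl).2
    ((v5.Qr * v5.Qr)⁻¹) rfl
    v5.Th v5.e_Th
    (v.c0 + v.R) rfl
    (S * (v.c0 + v.R)) rfl).2
    ((S * (v.c0 + v.R))⁻¹) rfl
    wv e_w
    (wv * wv) rfl
    xv e_x
    (221 / 128 : ℝ) zQMa_1898375544832_0
    (72 : ℝ) zQMa_79164837199872_0
    (100 : ℝ) zQMa_109951162777600_0).2
    ((100 : ℝ)⁻¹) rfl
    ((72 : ℝ) * (100 : ℝ)⁻¹) rfl
    (v.u2 * ((1 : ℝ) - v.nj2)) rfl
    sg1 e_sg1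
    (tz * tz) rfl
    (tz * tz * sg1) rfl
    (21 : ℝ) zQMa_23089744183296_0
    (10 : ℝ) zQMa_10995116277760_0).2
    ((10 : ℝ)⁻¹) rfl
    ((21 : ℝ) * (10 : ℝ)⁻¹) rfl
    (r * ((21 : ℝ) * (10 : ℝ)⁻¹)) rfl
    (tz * tz * sg1 + r * ((21 : ℝ) * (10 : ℝ)⁻¹)) rfl
    epK e_epK
    ((5 / 8) * tz) (congrArg (fun y : ℝ => y * tz) zQMa_687194767360_0)
    ((5 / 8) * tz + (221 / 128 : ℝ)) rfl).2
    (((5 / 8) * tz + (221 / 128 : ℝ))⁻¹) rfl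
    ((1 / 2) * ((72 : ℝ) * (100 : ℝ)⁻¹)) (congrArg (fun y : ℝ => y * ((72 : ℝ) * (100 : ℝ)⁻¹)) zQMa_549755813888_0)
    (z * ((1 / 2) * ((72 : ℝ) * (100 : ℝ)⁻¹))) rfl
    Bk e_Bk
    ((1 : ℝ) - epK) rfl
    (Bk * ((1 : ℝ) - epK)) rfl).2
    lsk e_lsk
    (z * v.op1) rfl
    lsx e_lsx
    (v.t * lsx) rfl
    ls e_ls
    ((13 / 64) * ls) (congrArg (fun y : ℝ => y * ls) zQMa_223338299392_0)
    ((1 / 2 : ℝ) + (13 / 64) * ls) rfl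
    (ls * ((1 / 2 : ℝ) + (13 / 64) * ls)) rfl
    ((1 : ℝ) + ls * ((1 / 2 : ℝ) + (13 / 64) * ls)) rfl
    eqx e_eqx
    (eqx + (1 : ℝ)) rfl
    Qb e_Qb
    (98 : ℝ) zQMa_107752139522048_0
    ((98 : ℝ) * (100 : ℝ)⁻¹) rfl
    (sg1 - (98 : ℝ) * (100 : ℝ)⁻¹) rfl
  change 0 < sg1 - (98 : ℝ) * (100 : ℝ)⁻¹ at p_sg1
  obtain ⟨p_lsK, s1⟩ := s0
    ((5 / 8) * (1 : ℝ)) (congrArg (fun y : ℝ => y * (1 : ℝ)) zQMa_687194767360_0)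
    ((5 / 8) * (1 : ℝ) - ls) rfl
  change 0 < (5 / 8) * (1 : ℝ) - ls at p_lsK
  obtain ⟨p_epK, s2⟩ := s1
  change 0 < (1 : ℝ) - epK at p_epK
  obtain ⟨p_Yk, s3⟩ := s2
    (S * S) rfl
    (1764 : ℝ) zQMa_1939538511396864_0
    ((1764 : ℝ) * (100 : ℝ)⁻¹) rfl
    (S * S * ((1764 : ℝ) * (100 : ℝ)⁻¹)) rfl
    (S * S * ((1764 : ℝ) * (100 : ℝ)⁻¹) - v5.sn) rfl
  change 0 < S * S * ((1764 : ℝ) * (100 : ℝ)⁻¹) - v5.sn at p_Yk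
  obtain ⟨p_ek, s4⟩ := s3
    (27 / 8192 : ℝ) zQMa_3623878656_0
    ((27 / 8192 : ℝ) - eps) rfl
  change 0 < (27 / 8192 : ℝ) - eps at p_ek
  obtain ⟨p_KK, s5⟩ := s4
    (1 / 32 : ℝ) zQMa_34359738368_0
    ((1 / 32 : ℝ) - v.K) rfl
  change 0 < (1 / 32 : ℝ) - v.K at p_KK
  obtain ⟨p_bK, s6⟩ := s5
    (4 * S) (congrArg (fun y : ℝ => y * S) zQMa_4398046511104_0)
    (4 * S - v.nj) rfl
  change 0 < 4 * S - v.nj at p_bK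
  obtain ⟨p_uK, s7⟩ := s6
    (1 / 4 : ℝ) zQMa_274877906944_0
    ((1 / 4 : ℝ) - v.u2) rfl
  change 0 < (1 / 4 : ℝ) - v.u2 at p_uK
  obtain ⟨p_rplo, s8⟩ := (s7
    (v.om1 * v.op1) rfl
    (v.c0 + v.t) rfl
    (v.om * v.c0) rfl
    (v.om * v.c0 * v.K) rfl
    (2 * (v.om * v.c0 * v.K)) (congrArg (fun y : ℝ => y * (v.om * v.c0 * v.K)) zQMa_2199023255552_0)
    (v.c2 + 2 * (v.om * v.c0 * v.K)) rfl
    ((v.c0 + v.t) * (v.c2 + 2 * (v.om * v.c0 * v.K))) rfl).2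
    (((v.c0 + v.t) * (v.c2 + 2 * (v.om * v.c0 * v.K)))⁻¹) rfl
    v3.hpt v3.e_hpt
    v3.hp v3.e_hp
  change 0 < lv.rplo at p_rplo
  obtain ⟨p_xqp, s9⟩ := s8
    xpv e_xp
    (1263 / 128 : ℝ) zQMa_10849087389696_0
    ((1263 / 128 : ℝ) - xpv) rfl
  change 0 < (1263 / 128 : ℝ) - xpv at p_xqp
  obtain ⟨p_o2p, s10⟩ := (s9
    (13 / 1099511627776 : ℝ) zQMa_13_0
    (2295 / 1099511627776 : ℝ) zQMa_2295_0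
    (xpv * (13 / 1099511627776 : ℝ)) rfl
    ((2295 / 1099511627776 : ℝ) - xpv * (13 / 1099511627776 : ℝ)) rfl
    (75749 / 274877906944 : ℝ) zQMa_302996_0
    (xpv * ((2295 / 1099511627776 : ℝ) - xpv * (13 / 1099511627776 : ℝ))) rfl
    ((75749 / 274877906944 : ℝ) - xpv * ((2295 / 1099511627776 : ℝ) - xpv * (13 / 1099511627776 : ℝ))) rfl
    (27269633 / 1099511627776 : ℝ) zQMa_27269633_0
    (xpv * ((75749 / 274877906944 : ℝ) - xpv * ((2295 / 1099511627776 : ℝ) - xpv * (13 / 1099511627776 : ℝ)))) rfl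
    ((27269633 / 1099511627776 : ℝ) - xpv * ((75749 / 274877906944 : ℝ) - xpv * ((2295 / 1099511627776 : ℝ) - xpv * (13 / 1099511627776 : ℝ)))) rfl
    (381774871 / 274877906944 : ℝ) zQMa_1527099484_0
    (xpv * ((27269633 / 1099511627776 : ℝ) - xpv * ((75749 / 274877906944 : ℝ) - xpv * ((2295 / 1099511627776 : ℝ) - xpv * (13 / 1099511627776 : ℝ))))) rfl
    ((381774871 / 274877906944 : ℝ) - xpv * ((27269633 / 1099511627776 : ℝ) - xpv * ((75749 / 274877906944 : ℝ) - xpv * ((2295 / 1099511627776 : ℝ) - xpv * (13 / 1099511627776 : ℝ))))) rfl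
    (22906492245 / 549755813888 : ℝ) zQMa_45812984490_0
    (xpv * ((381774871 / 274877906944 : ℝ) - xpv * ((27269633 / 1099511627776 : ℝ) - xpv * ((75749 / 274877906944 : ℝ) - xpv * ((2295 / 1099511627776 : ℝ) - xpv * (13 / 1099511627776 : ℝ)))))) rfl
    ((22906492245 / 549755813888 : ℝ) - xpv * ((381774871 / 274877906944 : ℝ) - xpv * ((27269633 / 1099511627776 : ℝ) - xpv * ((75749 / 274877906944 : ℝ) - xpv * ((2295 / 1099511627776 : ℝ) - xpv * (13 / 1099511627776 : ℝ)))))) rfl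
    (xpv * ((22906492245 / 549755813888 : ℝ) - xpv * ((381774871 / 274877906944 : ℝ) - xpv * ((27269633 / 1099511627776 : ℝ) - xpv * ((75749 / 274877906944 : ℝ) - xpv * ((2295 / 1099511627776 : ℝ) - xpv * (13 / 1099511627776 : ℝ))))))) rfl
    ((1 / 2 : ℝ) - xpv * ((22906492245 / 549755813888 : ℝ) - xpv * ((381774871 / 274877906944 : ℝ) - xpv * ((27269633 / 1099511627776 : ℝ) - xpv * ((75749 / 274877906944 : ℝ) - xpv * ((2295 / 1099511627776 : ℝ) - xpv * (13 / 1099511627776 : ℝ))))))) rfl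
    (xpv * ((1 / 2 : ℝ) - xpv * ((22906492245 / 549755813888 : ℝ) - xpv * ((381774871 / 274877906944 : ℝ) - xpv * ((27269633 / 1099511627776 : ℝ) - xpv * ((75749 / 274877906944 : ℝ) - xpv * ((2295 / 1099511627776 : ℝ) - xpv * (13 / 1099511627776 : ℝ)))))))) rfl
    ccp e_ccp
    b'.q1 b'.e_q1
    (qp * qp) rfl
    (qp * qp + (1 : ℝ)) rfl
    (qp * ccp) rfl
    (2 * (qp * ccp)) (congrArg (fun y : ℝ => y * (qp * ccp)) zQMa_2199023255552_0)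
    (qp * qp + (1 : ℝ) + 2 * (qp * ccp)) rfl
    (4 * thp) (congrArg (fun y : ℝ => y * thp) zQMa_4398046511104_0)
    b'.o2 b'.e_o2).2
    (b'.q1⁻¹) rfl
    (b'.o2 * b'.q1⁻¹) rfl
    b'.P1 b'.e_P1
    (qp * v3.hp) rfl
    b'.qh (b'.e_qh.trans (congrArg (fun y : ℝ => y * (qp * v3.hp)) zQMa_549755813888_0))
    (b'.qh * b'.P1) rfl
    b'.W b'.e_W
  change 0 < b'.o2 at p_o2p
  obtain ⟨p_Wp, s11⟩ := s10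
  change 0 < b'.W at p_Wp
  obtain ⟨p_lspa, s12⟩ := (((((((((((((((s11
    ((1 : ℝ) - qp) rfl
    (((1 : ℝ) - qp) * b'.q1) rfl
    (2 * thp) (congrArg (fun y : ℝ => y * thp) zQMa_2199023255552_0)
    (((1 : ℝ) - qp) * b'.q1 + 2 * thp) rfl).2
    (b'.W⁻¹) rfl
    ((((1 : ℝ) - qp) * b'.q1 + 2 * thp) * b'.W⁻¹) rfl
    gpv (e_gp.trans (congrArg (fun y : ℝ => y * ((((1 : ℝ) - qp) * b'.q1 + 2 * thp) * b'.W⁻¹)) zQMa_549755813888_0))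
    (gpv + (1 / 2 : ℝ)) rfl).2
    ((gpv + (1 / 2 : ℝ))⁻¹) rfl
    gap e_gap
    hgp e_hgp
    gu e_gu
    (v.h + (1 : ℝ)) rfl).2
    v2.ih v2.e_ih
    (v.h * v2.ih) rfl
    v2.rh (v2.e_rh.trans (congrArg (fun y : ℝ => y * (v.h * v2.ih)) zQMa_2199023255552_0))
    v2.mi v2.e_mi
    v2.hm v2.e_hm
    v2.nih v2.e_nih
    (v2.nih * v2.mi) rfl
    v2.bsum v2.e_bsum
    ((209 / 1024) * v.j) (congrArg (fun y : ℝ => y * v.j) zQMa_224412041216_0)).2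
    (v2.Yp⁻¹) rfl
    v2.lm v2.e_lm
    ((1 : ℝ) * v.nj) rfl
    G4 e_G4).2
    xa.iG4 xa.e_iG4
    xa.alG xa.e_alG
    xa.AE xa.e_AE
    (xa.AE * v.op1) rfl
    xa.XeE xa.e_XeE
    (xa.alG * v.op1) rfl
    xa.XM xa.e_XM
    ((1 : ℝ) - xa.XM) rfl).2
    xa.iX xa.e_iX
    xa.QX xa.e_QX
    ((1 : ℝ) - xa.QX) rfl).2
    xa.iQX xa.e_iQX
    (2 * eps) (congrArg (fun y : ℝ => y * eps) zQMa_2199023255552_0)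
    Ei e_Ei
    Eh e_Eh
    (S * v.nj) rfl
    (2 * (S * v.nj)) (congrArg (fun y : ℝ => y * (S * v.nj)) zQMa_2199023255552_0)
    ((1 / 2) * v.t) (congrArg (fun y : ℝ => y * v.t) zQMa_549755813888_0)
    (2 * (S * v.nj) + (1 / 2) * v.t) rfl
    (z * (2 * (S * v.nj) + (1 / 2) * v.t)) rfl
    phux (e_phux.trans (congrArg (fun y : ℝ => y * (z * (2 * (S * v.nj) + (1 / 2) * v.t))) zQMa_549755813888_0))
    (v.h * v.nj) rfl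
    ((1 : ℝ) - v.f2) rfl
    (v.h * v.om) rfl
    (2 * (v.h * v.om)) (congrArg (fun y : ℝ => y * (v.h * v.om)) zQMa_2199023255552_0)
    ((1 : ℝ) - v.f2 - 2 * (v.h * v.om)) rfl
    (v.h * v.nj * (v.h * v.nj)) rfl
    xa.N1 xa.e_N1
    (xa.N1 + (1 : ℝ)) rfl
    xa.s (xa.e_s.trans (congrArg (fun y : ℝ => y * (xa.N1 + (1 : ℝ))) zQMa_549755813888_0))
    ((1 / 2) * v.R) (congrArg (fun y : ℝ => y * v.R) zQMa_549755813888_0)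
    (v.j - (1 / 2) * v.R) rfl
    (v.tu2 * ((1 : ℝ) - v.f2)) rfl
    (v.tu2 * ((1 : ℝ) - v.f2) * v.jm) rfl
    ((1 / 8) * (v.tu2 * ((1 : ℝ) - v.f2) * v.jm)) (congrArg (fun y : ℝ => y * (v.tu2 * ((1 : ℝ) - v.f2) * v.jm)) zQMa_137438953472_0)
    (v.j - (1 / 2) * v.R + (1 / 8) * (v.tu2 * ((1 : ℝ) - v.f2) * v.jm)) rfl
    xa.k0 xa.e_k0
    (1 / 1099511627776 : ℝ) zQMa_1_0
    (3 / 274877906944 : ℝ) zQMa_12_0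
    (xv * (1 / 1099511627776 : ℝ)) rfl
    ((3 / 274877906944 : ℝ) - xv * (1 / 1099511627776 : ℝ)) rfl
    (287 / 137438953472 : ℝ) zQMa_2296_0
    (xv * ((3 / 274877906944 : ℝ) - xv * (1 / 1099511627776 : ℝ))) rfl
    ((287 / 137438953472 : ℝ) - xv * ((3 / 274877906944 : ℝ) - xv * (1 / 1099511627776 : ℝ))) rfl
    (302995 / 1099511627776 : ℝ) zQMa_302995_0
    (xv * ((287 / 137438953472 : ℝ) - xv * ((3 / 274877906944 : ℝ) - xv * (1 / 1099511627776 : ℝ)))) rfl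
    ((302995 / 1099511627776 : ℝ) - xv * ((287 / 137438953472 : ℝ) - xv * ((3 / 274877906944 : ℝ) - xv * (1 / 1099511627776 : ℝ)))) rfl
    (13634817 / 549755813888 : ℝ) zQMa_27269634_0
    (xv * ((302995 / 1099511627776 : ℝ) - xv * ((287 / 137438953472 : ℝ) - xv * ((3 / 274877906944 : ℝ) - xv * (1 / 1099511627776 : ℝ))))) rfl
    ((13634817 / 549755813888 : ℝ) - xv * ((302995 / 1099511627776 : ℝ) - xv * ((287 / 137438953472 : ℝ) - xv * ((3 / 274877906944 : ℝ) - xv * (1 / 1099511627776 : ℝ))))) rfl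
    (1527099483 / 1099511627776 : ℝ) zQMa_1527099483_0
    (xv * ((13634817 / 549755813888 : ℝ) - xv * ((302995 / 1099511627776 : ℝ) - xv * ((287 / 137438953472 : ℝ) - xv * ((3 / 274877906944 : ℝ) - xv * (1 / 1099511627776 : ℝ)))))) rfl
    ((1527099483 / 1099511627776 : ℝ) - xv * ((13634817 / 549755813888 : ℝ) - xv * ((302995 / 1099511627776 : ℝ) - xv * ((287 / 137438953472 : ℝ) - xv * ((3 / 274877906944 : ℝ) - xv * (1 / 1099511627776 : ℝ)))))) rfl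
    (45812984491 / 1099511627776 : ℝ) zQMa_45812984491_0
    (xv * ((1527099483 / 1099511627776 : ℝ) - xv * ((13634817 / 549755813888 : ℝ) - xv * ((302995 / 1099511627776 : ℝ) - xv * ((287 / 137438953472 : ℝ) - xv * ((3 / 274877906944 : ℝ) - xv * (1 / 1099511627776 : ℝ))))))) rfl
    ((45812984491 / 1099511627776 : ℝ) - xv * ((1527099483 / 1099511627776 : ℝ) - xv * ((13634817 / 549755813888 : ℝ) - xv * ((302995 / 1099511627776 : ℝ) - xv * ((287 / 137438953472 : ℝ) - xv * ((3 / 274877906944 : ℝ) - xv * (1 / 1099511627776 : ℝ))))))) rfl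
    (xv * ((45812984491 / 1099511627776 : ℝ) - xv * ((1527099483 / 1099511627776 : ℝ) - xv * ((13634817 / 549755813888 : ℝ) - xv * ((302995 / 1099511627776 : ℝ) - xv * ((287 / 137438953472 : ℝ) - xv * ((3 / 274877906944 : ℝ) - xv * (1 / 1099511627776 : ℝ)))))))) rfl
    ((1 / 2 : ℝ) - xv * ((45812984491 / 1099511627776 : ℝ) - xv * ((1527099483 / 1099511627776 : ℝ) - xv * ((13634817 / 549755813888 : ℝ) - xv * ((302995 / 1099511627776 : ℝ) - xv * ((287 / 137438953472 : ℝ) - xv * ((3 / 274877906944 : ℝ) - xv * (1 / 1099511627776 : ℝ)))))))) rfl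
    (xv * ((1 / 2 : ℝ) - xv * ((45812984491 / 1099511627776 : ℝ) - xv * ((1527099483 / 1099511627776 : ℝ) - xv * ((13634817 / 549755813888 : ℝ) - xv * ((302995 / 1099511627776 : ℝ) - xv * ((287 / 137438953472 : ℝ) - xv * ((3 / 274877906944 : ℝ) - xv * (1 / 1099511627776 : ℝ))))))))) rfl
    cu e_cu
    xe e_xe
    (q * q) rfl
    (q * q + (1 : ℝ)) rfl
    (xe * xe) rfl
    ((43 / 128) * (xe * xe)) (congrArg (fun y : ℝ => y * (xe * xe)) zQMa_369367187456_0)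
    (cu + (43 / 128) * (xe * xe)) rfl
    (q * (cu + (43 / 128) * (xe * xe))) rfl
    (2 * (q * (cu + (43 / 128) * (xe * xe)))) (congrArg (fun y : ℝ => y * (q * (cu + (43 / 128) * (xe * xe)))) zQMa_2199023255552_0)
    (q * q + (1 : ℝ) + 2 * (q * (cu + (43 / 128) * (xe * xe)))) rfl
    (2 * th) (congrArg (fun y : ℝ => y * th) zQMa_2199023255552_0)
    o2u e_o2u
    (1 / 128 : ℝ) zQMa_8589934592_0
    (o2u + (1 / 128 : ℝ)) rfl).2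
    (Real.log (o2u + (1 / 128 : ℝ))) rfl
    ((1 / 2) * Real.log (o2u + (1 / 128 : ℝ))) (congrArg (fun y : ℝ => y * Real.log (o2u + (1 / 128 : ℝ))) zQMa_549755813888_0)
    ooo e_ooo
    (q * eqx) rfl
    Q1 e_Q1
    (Q1 * xa.iX) rfl
    (Qb * xa.iQX) rfl
    (Q1 * xa.iX + Qb * xa.iQX) rfl
    (xa.XM * (Q1 * xa.iX + Qb * xa.iQX)) rfl
    (ls + xa.XM * (Q1 * xa.iX + Qb * xa.iQX)) rfl
    xa.a0 xa.e_a0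
    (Q1 * xa.XM) rfl
    (Q1 * xa.XM * xa.iX) rfl
    (ls + Q1 * xa.XM * xa.iX) rfl
    xa.l1 xa.e_l1
    ((13 / 64) * xa.l1) (congrArg (fun y : ℝ => y * xa.l1) zQMa_223338299392_0)
    ((1 / 2 : ℝ) + (13 / 64) * xa.l1) rfl
    (xa.l1 * ((1 / 2 : ℝ) + (13 / 64) * xa.l1)) rfl
    xa.Na xa.e_Na
    ((13 / 16) * xa.a0) (congrArg (fun y : ℝ => y * xa.a0) zQMa_893353197568_0)
    ((1 : ℝ) + (13 / 16) * xa.a0) rfl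
    (xa.a0 * ((1 : ℝ) + (13 / 16) * xa.a0)) rfl
    xa.Nb xa.e_Nb
    (v2.rh * v2.nih) rfl
    (v2.rh * v2.nih * Ei) rfl
    xa.rn xa.e_rn
    (xa.k0 * xa.Na) rfl
    (v.aQ + (1 / 2 : ℝ)) rfl
    (xa.rn * (v.aQ + (1 / 2 : ℝ))) rfl
    xa.ka xa.e_ka
    (v.aQ + (1 : ℝ)) rfl
    xa.kb xa.e_kb
    (Eh * (v.aQ + (1 : ℝ))) rfl
    (Eh * (v.aQ + (1 : ℝ)) * v2.nih) rfl
    xa.lfk xa.e_lfk
    (xa.ka * lsx) rfl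
    (xa.lfk * phux) rfl
    xa.kl xa.e_kl
    (r * v2.bsum) rfl).2
    (v.aQ⁻¹) rfl
    (r * v2.bsum * v.aQ⁻¹) rfl
    ((1 / 2) * (r * v2.bsum * v.aQ⁻¹)) (congrArg (fun y : ℝ => y * (r * v2.bsum * v.aQ⁻¹)) zQMa_549755813888_0)
    (v.om1 * ((1 / 2) * (r * v2.bsum * v.aQ⁻¹))) rfl
    srcx e_srcx
    srcs e_srcs
    yb.src yb.e_src
    (xa.ka * Q1) rfl
    (xa.ka * Q1 * xa.iX) rfl
    (xa.kb * Qb) rfl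
    (xa.kb * Qb * xa.iQX) rfl
    yb.fxe yb.e_fxe
    (v.om1 * yb.src) rfl
    (xa.XeE * yb.fxe) rfl
    yb.epd yb.e_epd
    (v.tu2 * yb.epd) rfl
    (v.tu2 * yb.epd * v.aQ⁻¹) rfl
    ((1 : ℝ) - v.tu2 * yb.epd * v.aQ⁻¹) rfl).2
    yb.NN yb.e_NN
    yb.eN yb.e_eN
    yb.d yb.e_d
    yb.eta yb.e_eta
    (yb.eta * v.aQ⁻¹) rfl
    ((1 : ℝ) - yb.eta * v.aQ⁻¹) rfl
    (v.rhat * ((1 : ℝ) - yb.eta * v.aQ⁻¹)) rfl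
    yb.rl yb.e_rl).2
    yb.irl yb.e_irl
    yb.yy yb.e_yy
    (v.aQ - yb.eta) rfl).2
    yb.q0 yb.e_q0
    yb.zp yb.e_zp
    ((1 / 2) * yb.zp) (congrArg (fun y : ℝ => y * yb.zp) zQMa_549755813888_0)
    ((1 : ℝ) - (1 / 2) * yb.zp) rfl
    ((1 : ℝ) - yb.zp) rfl).2
    (((1 : ℝ) - yb.zp)⁻¹) rfl
    yb.kzp yb.e_kzp
    (v.u * yb.q0) rfl
    (gu * yb.irl) rfl
    (gu * yb.irl * yb.kzp) rfl
    yb.Cu yb.e_Cu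
    (tr * yb.eN) rfl
    (yb.q0 * (tr * yb.eN)) rfl
    (gap * yb.irl) rfl
    (gap * yb.irl * yb.kzp) rfl
    (gap * yb.irl * yb.kzp * yb.d) rfl
    yb.rr yb.e_rr
    ((13 / 64) * yb.rr) (congrArg (fun y : ℝ => y * yb.rr) zQMa_223338299392_0)
    ((1 / 2 : ℝ) + (13 / 64) * yb.rr) rfl
    (yb.rr * ((1 / 2 : ℝ) + (13 / 64) * yb.rr)) rfl
    ((1 : ℝ) + yb.rr * ((1 / 2 : ℝ) + (13 / 64) * yb.rr)) rfl
    (yb.Cu * ((1 : ℝ) + yb.rr * ((1 / 2 : ℝ) + (13 / 64) * yb.rr))) rfl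
    yb.CuN yb.e_CuN
    yb.fbt yb.e_fbt
    yb.XLt yb.e_XLt
    (7 : ℝ) zQMa_7696581394432_0
    yb.beta yb.e_beta
    ((v.h + (1 : ℝ)) * v.op1) rfl
    yb.b1 yb.e_b1
    pk.omr pk.e_omr
    pk.omp pk.e_omp
    ((1 / 2) * hgp) (congrArg (fun y : ℝ => y * hgp) zQMa_549755813888_0)
    ((1 : ℝ) - (1 / 2) * hgp) rfl
    ((1 : ℝ) - hgp) rfl).2
    (((1 : ℝ) - hgp)⁻¹) rfl
    (((1 : ℝ) - (1 / 2) * hgp) * ((1 : ℝ) - hgp)⁻¹) rfl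
    pk.lspf pk.e_lspf
    (v.tu2 * v5.Th) rfl
    ((2731 / 4096) * (v.tu2 * v5.Th)) (congrArg (fun y : ℝ => y * (v.tu2 * v5.Th)) zQMa_733097230336_0)
    ((1 : ℝ) - (2731 / 4096) * (v.tu2 * v5.Th)) rfl
    (v5.Th * ((1 : ℝ) - (2731 / 4096) * (v.tu2 * v5.Th))) rfl
    (lv.rplo * lv.rplo) rfl
    (v.u2 * (lv.rplo * lv.rplo)) rfl
    pk.E0 pk.e_E0
    pk.lspa pk.e_lspa
    (pk.E0 + (1 : ℝ)) rfl
    (pk.lspa * (pk.E0 + (1 : ℝ))) rfl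
    (pk.E0 - pk.lspa * (pk.E0 + (1 : ℝ))) rfl
    ((2731 / 8192) * (v.K * v.K)) (congrArg (fun y : ℝ => y * (v.K * v.K)) zQMa_366548615168_0)
    ((1 : ℝ) - (2731 / 8192) * (v.K * v.K)) rfl
    (v.nj2 * ((1 : ℝ) - (2731 / 8192) * (v.K * v.K))) rfl
    (pk.E0 - pk.lspa * (pk.E0 + (1 : ℝ)) + v.nj2 * ((1 : ℝ) - (2731 / 8192) * (v.K * v.K))) rfl
    (pk.omr * (pk.E0 - pk.lspa * (pk.E0 + (1 : ℝ)) + v.nj2 * ((1 : ℝ) - (2731 / 8192) * (v.K * v.K)))) rfl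
    (pk.omp * pk.omp) rfl
    ((1 : ℝ) + pk.omp * pk.omp) rfl).2
    (((1 : ℝ) + pk.omp * pk.omp)⁻¹) rfl
    pk.pe pk.e_pe
    ((1 : ℝ) - yb.yy) rfl
    pk.ye pk.e_ye
    ((1 : ℝ) - pk.lspa) rfl
  change 0 < (1 : ℝ) - pk.lspa at p_lspa
  obtain ⟨p_pe, s13⟩ := s12
  change 0 < pk.pe at p_pe
  obtain ⟨p_yy, s14⟩ := s13
  change 0 < (1 : ℝ) - yb.yy at p_yy
  obtain ⟨p_XM, s15⟩ := (((((s14
    (yb.CuN * G4) rfl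
    (yb.CuN * G4 * srcx) rfl).2
    (v.op1⁻¹) rfl
    cl.FXt cl.e_FXt
    y1 e_y1
    (v.t * y1) rfl
    ((1 / 2) * (v.t * y1)) (congrArg (fun y : ℝ => y * (v.t * y1)) zQMa_549755813888_0)
    ((1 : ℝ) - (1 / 2) * (v.t * y1)) rfl
    (y1 * ((1 : ℝ) - (1 / 2) * (v.t * y1))) rfl
    cl.S1 cl.e_S1
    (v.u * v.n) rfl
    (v.u * v.n * (v.h + (1 : ℝ))) rfl
    (v.u * v.n * (v.h + (1 : ℝ)) * v.j) rfl
    cl.a4 cl.e_a4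
    (cl.S1 + cl.a4) rfl
    (cl.S1 * cl.a4) rfl
    (v.t * (cl.S1 * cl.a4)) rfl
    cl.S4 cl.e_S4
    cl.Dh cl.e_Dh
    ((3 / 8) * v.D) (congrArg (fun y : ℝ => y * v.D) zQMa_412316860416_0)
    ((1 / 2 : ℝ) - (3 / 8) * v.D) rfl
    (cl.Dh * ((1 / 2 : ℝ) - (3 / 8) * v.D)) rfl
    ((1 : ℝ) * (cl.Dh * ((1 / 2 : ℝ) - (3 / 8) * v.D))) rfl
    cl.a5 cl.e_a5
    (cl.S4 + cl.a5) rfl
    (cl.S4 * cl.a5) rfl
    (v.t * (cl.S4 * cl.a5)) rfl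
    cl.S5 cl.e_S5
    (v.u * yb.eN) rfl
    (v.u * yb.eN * v.op1⁻¹) rfl
    cl.a6 cl.e_a6
    (cl.S5 + cl.a6) rfl
    (cl.S5 * cl.a6) rfl
    (v.t * (cl.S5 * cl.a6)) rfl
    cl.S6 cl.e_S6
    cl.a7 cl.e_a7
    (cl.S6 - cl.a7) rfl
    (v.t * yb.b1) rfl
    ((1 : ℝ) + v.t * yb.b1) rfl).2
    (((1 : ℝ) + v.t * yb.b1)⁻¹) rfl
    cl.S7 cl.e_S7
    (v.u * v.tu) rfl
    (v.u * v.tu * yb.eN) rfl
    (v.u * v.tu * yb.eN * yb.q0) rfl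
    cl.a8 cl.e_a8
    (cl.S7 + cl.a8) rfl
    (cl.S7 * cl.a8) rfl
    (v.t * (cl.S7 * cl.a8)) rfl
    cl.S8 cl.e_S8
    (v.t * cl.S8) rfl
    cl.c1 cl.e_c1
    (yb.fbt * xa.XM) rfl
    (v.t * yb.XLt) rfl
    (cl.FXt * (v.t * yb.XLt)) rfl
    (yb.fbt * xa.XM + cl.FXt * (v.t * yb.XLt)) rfl
    cl.rt cl.e_rt
    (yb.fbt + cl.FXt) rfl
    cl.fm cl.e_fm
    (cl.rt * cl.c1) rfl
    (cl.S8 + cl.rt * cl.c1) rfl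
    (cl.S8 + cl.rt * cl.c1 + cl.fm) rfl
    cl.Bm cl.e_Bm
    ((1 / 1024) * (1 : ℝ)) (congrArg (fun y : ℝ => y * (1 : ℝ)) zQMa_1073741824_0)
    (cl.Bm - (1 / 1024) * (1 : ℝ)) rfl
    yb.m1 yb.e_m1
    (yb.m1 + (2 : ℝ)) rfl
    (2 * yb.beta) (congrArg (fun y : ℝ => y * yb.beta) zQMa_2199023255552_0)
    (yb.m1 + (2 : ℝ) - 2 * yb.beta) rfl
    ((v.h + (1 : ℝ)) * (yb.m1 + (2 : ℝ) - 2 * yb.beta)) rfl
    (yb.m1 * (2 * yb.beta)) rfl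
    (yb.m1 * (2 * yb.beta) + (1 : ℝ)) rfl).2
    ((yb.m1 * (2 * yb.beta) + (1 : ℝ))⁻¹) rfl
    ((v.h + (1 : ℝ)) * (yb.m1 + (2 : ℝ) - 2 * yb.beta) * (yb.m1 * (2 * yb.beta) + (1 : ℝ))⁻¹) rfl
    (xa.AE * yb.fxe) rfl
    ((1 / 2) * v2.lm) (congrArg (fun y : ℝ => y * v2.lm) zQMa_549755813888_0)
    (v.K + (1 / 2) * v2.lm) rfl
    (xa.AE * yb.fxe * (v.K + (1 / 2) * v2.lm)) rfl
    (2 * (xa.AE * yb.fxe * (v.K + (1 / 2) * v2.lm))) (congrArg (fun y : ℝ => y * (xa.AE * yb.fxe * (v.K + (1 / 2) * v2.lm))) zQMa_2199023255552_0)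
    (yb.src + 2 * (xa.AE * yb.fxe * (v.K + (1 / 2) * v2.lm))) rfl
    (2 * (yb.src + 2 * (xa.AE * yb.fxe * (v.K + (1 / 2) * v2.lm)))) (congrArg (fun y : ℝ => y * (yb.src + 2 * (xa.AE * yb.fxe * (v.K + (1 / 2) * v2.lm)))) zQMa_2199023255552_0)
    (2 * (yb.src + 2 * (xa.AE * yb.fxe * (v.K + (1 / 2) * v2.lm))) * yb.NN) rfl
    (v.tu * yb.eN) rfl
    (v.op1 - v.tu * yb.eN) rfl).2
    ((v.op1 - v.tu * yb.eN)⁻¹) rfl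
    (2 * (yb.src + 2 * (xa.AE * yb.fxe * (v.K + (1 / 2) * v2.lm))) * yb.NN * (v.op1 - v.tu * yb.eN)⁻¹) rfl
    yb.V yb.e_V
    ((1 : ℝ) * v.nj * ((1 : ℝ) * v.nj)) rfl
    (13 : ℝ) zQMa_14293651161088_0
    ((13 : ℝ) * (10 : ℝ)⁻¹) rfl
    ((1 : ℝ) * v.nj * ((1 : ℝ) * v.nj) * ((13 : ℝ) * (10 : ℝ)⁻¹)) rfl
    (25 * (S * S)) (congrArg (fun y : ℝ => y * (S * S)) zQMa_27487790694400_0)
    yb.C2 yb.e_C2
    yb.gr yb.e_gr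
    (2 * v.c0 - v.t) rfl
    yb.Gt yb.e_Gt
    ((1 : ℝ) * v.u) rfl
    yb.au yb.e_au
    (v.op1 * yb.fxe) rfl
    (v.op1 * yb.fxe * xa.iG4) rfl
    yb.inner yb.e_inner
    (v.tu * yb.eN + (2 : ℝ)) rfl
    yb.ezs yb.e_ezs
    (yb.C2 * yb.gr) rfl
    (yb.NN * yb.ezs) rfl
    (yb.au * yb.inner) rfl
    (yb.NN * yb.ezs * (yb.au * yb.inner)) rfl
    yb.Rg0 yb.e_Rg0
    ((1 / 2) * (v.tu * yb.eN)) (congrArg (fun y : ℝ => y * (v.tu * yb.eN)) zQMa_549755813888_0)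
    ((1 : ℝ) + (1 / 2) * (v.tu * yb.eN)) rfl
    (yb.NN * ((1 : ℝ) + (1 / 2) * (v.tu * yb.eN))) rfl
    (v.t * v.om1) rfl
    (v.t * v.om1 * v2.bsum) rfl
    (v.op1 * v.aQ) rfl).2
    ((v.op1 * v.aQ)⁻¹) rfl
    (v.t * v.om1 * v2.bsum * (v.op1 * v.aQ)⁻¹) rfl
    (yb.NN * ((1 : ℝ) + (1 / 2) * (v.tu * yb.eN)) * (v.t * v.om1 * v2.bsum * (v.op1 * v.aQ)⁻¹)) rfl
    yb.Rh yb.e_Rh
    (v2.lm * yb.Rg0) rfl
    ((1 : ℝ) - v2.lm) rfl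
    (v.u2 * yb.Rh) rfl
    (((1 : ℝ) - v2.lm) * (v.u2 * yb.Rh)) rfl
    (yb.C2 * (((1 : ℝ) - v2.lm) * (v.u2 * yb.Rh))) rfl
    yb.Rg yb.e_Rg
  change 0 < (1 : ℝ) - xa.XM at p_XM
  obtain ⟨p_QX, s16⟩ := s15
  change 0 < (1 : ℝ) - xa.QX at p_QX
  obtain ⟨p_e2, s17⟩ := s16
    (2 * (v.tu2 * yb.epd)) (congrArg (fun y : ℝ => y * (v.tu2 * yb.epd)) zQMa_2199023255552_0)
    (v.aQ - 2 * (v.tu2 * yb.epd)) rfl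
  change 0 < v.aQ - 2 * (v.tu2 * yb.epd) at p_e2
  obtain ⟨p_rl, s18⟩ := s17
  change 0 < yb.rl at p_rl
  obtain ⟨p_hgp, s19⟩ := s18
    ((1 / 2 : ℝ) - hgp) rfl
  change 0 < (1 / 2 : ℝ) - hgp at p_hgp
  obtain ⟨p_l1, s20⟩ := s19
    ((5 / 8) * (1 : ℝ) - xa.l1) rfl
  change 0 < (5 / 8) * (1 : ℝ) - xa.l1 at p_l1
  obtain ⟨p_a0, s21⟩ := s20
    ((11 / 32) * (1 : ℝ)) (congrArg (fun y : ℝ => y * (1 : ℝ)) zQMa_377957122048_0)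
    ((11 / 32) * (1 : ℝ) - xa.a0) rfl
  change 0 < (11 / 32) * (1 : ℝ) - xa.a0 at p_a0
  obtain ⟨p_S, s22⟩ := s21
  change 0 < v.op1 - v.tu * yb.eN at p_S
  obtain ⟨p_zp, s23⟩ := s22
  change 0 < (1 : ℝ) - yb.zp at p_zp
  obtain ⟨p_rr, s24⟩ := s23
    ((5 / 8) * (1 : ℝ) - yb.rr) rfl
  change 0 < (5 / 8) * (1 : ℝ) - yb.rr at p_rr
  obtain ⟨p_V, s25⟩ := s24
  change 0 < yb.V at p_V
  obtain ⟨p_B, s26⟩ := s25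
  change 0 < cl.Bm - (1 / 1024) * (1 : ℝ) at p_B
  obtain ⟨p_Rg, s27⟩ := s26
  change 0 < yb.Rg at p_Rg
  obtain ⟨p_Rh, s28⟩ := s27
  change 0 < yb.Rh at p_Rh
  have hQ := qb_s G f lv.e_rhi e_q e_th
  have hq := hQ.le
  have hQp := qb_p G f p_rplo.le lv.e_rphi e_qp e_thp
  have hqp := hQp.le
  have hq0 : 0 < q := lt_of_lt_of_le (by rw [G.q_eq]; exact G.q0) hq
  have hccp : ccp ≤ Real.cos (v.e * (Qk κ (shf κ (shf κ τ))).arg) := cc_q (arg_xp G v3 v5 hsc e_w e_x e_xp) e_ccp p_xqp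
  have hgRp := gR_GD G.e0 G.κ0 (shf_re' G.κ0 G.s0) b' hQp hccp (G.hp_eq v3) p_o2p p_Wp e_gp
  have hγp := gam_g G.e0 G.κ0 (shf_re' G.κ0 G.s0) hgRp e_gap
  have hoo := oo_sharp8 G.κ0 G.s0 hQ (Qre0 G) hsc.ee (x_eq G v5 hsc e_w e_x) e_cu e_xe e_o2u e_ooo
  have hC : Pool.Agent.helper31.EQB.MC v.e κ (21 / 5) 1 (69 / 100) (72 * 100⁻¹) := by
    have h9 : (72 * 100⁻¹ : ℝ) = 72 / 100 := by norm_num
    rw [h9]; exact mc_K G hsc p_ek p_KK p_bK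
  obtain ⟨hl, hlx0⟩ := ls_K G hsc hC (by norm_num) (by norm_num) e_tz hde' e_eps (by rw [e_r, e_z2]) hz0 e_sg1 e_epK e_Bk e_lsk e_lsx e_ls p_sg1 p_epK (by rw [← v5.e_sn]; exact p_Yk) p_uK
  have hn1 : ‖1 + qq v.e κ (shf κ τ)‖ ≤ Q1 := by
    rw [e_Q1]; exact n1_sharp8 G.e0 G.κ0 G.s0 hq hoo (ratio_le G.e0 G.κ0 G.s0 hl p_lsK e_eqx)
  have fr := fr_K G hl hlx0 hq hq0 e_ls p_lsK e_eqx e_Qb hn1
  have hgu : 1 * gu = gap * S := by rw [e_gu]; ring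
  obtain ⟨lf0, Ex, hφ⟩ := ph_slz G v2 hsc e_tz hde' hu hz0 he2 (by norm_num) (by norm_num) (by norm_num) e_phux e_Ei e_Eh
  have as8 : As8 xa yb := ⟨p_XM, p_QX, p_e2, p_rl, p_l1, p_a0, p_S, p_zp, p_rr, p_V, p_Rg, p_Rh⟩
  exact far_Cl G D hsc hA0 hA as8 fr hgu hγp hφ pk f p_rplo e_hgp p_hgp p_lspa p_pe p_yy cl e_srcx e_srcs
    (mul_one v.t) G.t0 (by linear_combination v.t * e_y1 - pk.ye * e_r) p_B

theorem far_QMa8 {κ : ℝ} {τ : ℂ} {R w : ℝ} {v : B1} (D : PtE (7 * 10⁻¹) v.e κ τ R w)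
    (G : Geo κ (shf κ τ) v) (v2 : B2 v) (v3 : B3 v) (v5 : V5 v) {l1 : Lg v.D} {l2 : Lg v.D2}
    (lv : LV v l1 l2) (he2 : 2 ≤ v.e) {S z de : ℝ}
    (hde0 : 0 < de) (hde : de = v.t * z * S) (hu : v.u = z * de) (hz0 : 0 < z)
    (hee : v.e * (de * de) = 1)
    (h : RAs Pool.Agent.helper71.FJ.Crt.QMa.prog8 [S, v.t, z, v.n]) :
    FarPt v.e κ (1 - Real.sinh κ / 1024) w (2 * AQ v.e v.K * Real.sinh κ ^ 2) R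
      (RE v.e κ (w * R)) τ := by
  obtain ⟨tz, e_tz⟩ : ∃ zz : ℝ, zz = v.t * z := ⟨_, rfl⟩
  have hde' : de = tz * S := by rw [e_tz]; exact hde
  obtain ⟨z2, e_z2⟩ : ∃ zz : ℝ, zz = z * z := ⟨_, rfl⟩
  obtain ⟨r, e_r⟩ : ∃ zz : ℝ, zz = v.t * z2 := ⟨_, rfl⟩
  obtain ⟨eps, e_eps⟩ : ∃ zz : ℝ, zz = de * de := ⟨_, rfl⟩
  obtain ⟨tr, e_tr⟩ : ∃ zz : ℝ, zz = v.t * r := ⟨_, rfl⟩
  obtain ⟨q, e_q⟩ : ∃ zz : ℝ, zz = Real.exp (-(r * lv.rlo)) := ⟨_, rfl⟩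
  obtain ⟨th, e_th⟩ : ∃ zz : ℝ, zz = q * (r * lv.er) := ⟨_, rfl⟩
  obtain ⟨wv, e_w⟩ : ∃ zz : ℝ, zz = (1 : ℝ) * (S * (v.c0 + v.R))⁻¹ := ⟨_, rfl⟩
  obtain ⟨xv, e_x⟩ : ∃ zz : ℝ, zz = wv * wv * v5.sn := ⟨_, rfl⟩
  obtain ⟨sg1, e_sg1⟩ : ∃ zz : ℝ, zz = (1 : ℝ) - v.u2 * ((1 : ℝ) - v.nj2) := ⟨_, rfl⟩
  obtain ⟨epK, e_epK⟩ : ∃ zz : ℝ, zz = (tz * tz * sg1 + r * ((21 : ℝ) * (10 : ℝ)⁻¹)) * eps := ⟨_, rfl⟩
  obtain ⟨Bk, e_Bk⟩ : ∃ zz : ℝ, zz = ((5 / 8) * tz + (221 / 128 : ℝ))⁻¹ + z * ((1 / 2) * ((72 : ℝ) * (100 : ℝ)⁻¹)) := ⟨_, rfl⟩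
  obtain ⟨lsk, e_lsk⟩ : ∃ zz : ℝ, zz = (Bk * ((1 : ℝ) - epK))⁻¹ := ⟨_, rfl⟩
  obtain ⟨lsx, e_lsx⟩ : ∃ zz : ℝ, zz = z * v.op1 * lsk := ⟨_, rfl⟩
  obtain ⟨ls, e_ls⟩ : ∃ zz : ℝ, zz = v.om1 * (v.t * lsx) := ⟨_, rfl⟩
  obtain ⟨eqx, e_eqx⟩ : ∃ zz : ℝ, zz = ls * ((1 : ℝ) + ls * ((1 / 2 : ℝ) + (13 / 64) * ls)) := ⟨_, rfl⟩
  obtain ⟨Qb, e_Qb⟩ : ∃ zz : ℝ, zz = q * (eqx + (1 : ℝ)) := ⟨_, rfl⟩
  obtain ⟨hgp, e_hgp⟩ : ∃ zz : ℝ, zz = v3.hp * (1 : ℝ) := ⟨_, rfl⟩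
  obtain ⟨gu, e_gu⟩ : ∃ zz : ℝ, zz = (1 : ℝ) * S := ⟨_, rfl⟩
  obtain ⟨G4, e_G4⟩ : ∃ zz : ℝ, zz = 4 * S + (1 : ℝ) * v.nj := ⟨_, rfl⟩
  obtain ⟨Ei, e_Ei⟩ : ∃ zz : ℝ, zz = 2 * eps + (1 : ℝ) := ⟨_, rfl⟩
  obtain ⟨Eh, e_Eh⟩ : ∃ zz : ℝ, zz = eps + (1 : ℝ) := ⟨_, rfl⟩
  obtain ⟨phux, e_phux⟩ : ∃ zz : ℝ, zz = (1 / 2) * (z * (2 * (S * v.nj) + (1 / 2) * v.t)) := ⟨_, rfl⟩
  obtain ⟨cu, e_cu⟩ : ∃ zz : ℝ, zz = (1 : ℝ) - xv * ((1 / 2 : ℝ) - xv * ((45812984491 / 1099511627776 : ℝ) - xv * ((1527099483 / 1099511627776 : ℝ) - xv * ((13634817 / 549755813888 : ℝ) - xv * ((302995 / 1099511627776 : ℝ) - xv * ((287 / 137438953472 : ℝ) - xv * ((3 / 274877906944 : ℝ) - xv * (1 / 1099511627776 : ℝ)))))))) := ⟨_, rfl⟩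
  obtain ⟨xe, e_xe⟩ : ∃ zz : ℝ, zz = xv * eps := ⟨_, rfl⟩
  obtain ⟨o2u, e_o2u⟩ : ∃ zz : ℝ, zz = q * q + (1 : ℝ) + 2 * (q * (cu + (43 / 128) * (xe * xe))) + 2 * th := ⟨_, rfl⟩
  obtain ⟨ooo, e_ooo⟩ : ∃ zz : ℝ, zz = Real.exp ((1 / 2) * Real.log (o2u + (1 / 128 : ℝ))) := ⟨_, rfl⟩
  obtain ⟨Q1, e_Q1⟩ : ∃ zz : ℝ, zz = ooo + q * eqx := ⟨_, rfl⟩
  obtain ⟨xa⟩ := exKa v2 eps 1 S G4 Qb Q1 ls lsx phux Ei Eh
  obtain ⟨srcx, e_srcx⟩ : ∃ zz : ℝ, zz = v.om1 * ((1 / 2) * (r * v2.bsum * v.aQ⁻¹)) + xa.kl := ⟨_, rfl⟩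
  obtain ⟨srcs, e_srcs⟩ : ∃ zz : ℝ, zz = v.t * srcx := ⟨_, rfl⟩
  obtain ⟨yb⟩ := exKb (7 * 10⁻¹) xa tr 1 gu srcs
  obtain ⟨pk⟩ := exPk v5 lv.rplo v3.hp hgp gu yb.yy
  obtain ⟨y1, e_y1⟩ : ∃ zz : ℝ, zz = z2 * pk.ye := ⟨_, rfl⟩
  obtain ⟨cl⟩ := exCl yb v.t 1 y1 srcx
  have hsc := sc_Ma hde' e_tz hu hee hde0 G.t0 hz0.le e_z2 e_r e_tr e_eps
  obtain ⟨hA0, hA⟩ := hA_Q G hsc e_G4
  have f := lv.f G hsc.hr
  obtain ⟨p_sg1, s0⟩ := (((((((((((((h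
    (1 : ℝ) zQMa_1099511627776_0
    tz e_tz
    de hde'
    v.u hu
    z2 e_z2
    r e_r
    eps e_eps
    tr e_tr
    (1 / 2 : ℝ) zQMa_549755813888_0
    v.tu v.e_tu
    (v.tu * v.n) rfl
    v.h (v.e_h.trans (congrArg (fun y : ℝ => y * (v.tu * v.n)) zQMa_549755813888_0))
    v.u2 v.e_u2
    (v.h * v.h) rfl
    v.jm v.e_jm).2
    v.j v.e_j
    (v.h * v.j) rfl
    v.K (v.e_K.trans (congrArg (fun y : ℝ => y * (v.h * v.j)) zQMa_2199023255552_0))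
    (2 * v.j) (congrArg (fun y : ℝ => y * v.j) zQMa_2199023255552_0)
    v.c0 v.e_c0
    v.m v.e_m
    v.nj v.e_nj
    v.om v.e_om
    v.om1 v.e_om1
    v.op1 v.e_op1
    v.R v.e_R
    v.nj2 v.e_nj2
    v2.Y (v2.e_Y.trans (congrArg (fun y : ℝ => y * v.h) zQMa_10774999203840_0))
    ((341 / 8192) * v2.Y) (congrArg (fun y : ℝ => y * v2.Y) zQMa_45768245248_0)
    (1365 / 8192 : ℝ) zQMa_183207198720_0
    ((341 / 8192) * v2.Y + (1365 / 8192 : ℝ)) rfl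
    (v2.Y * ((341 / 8192) * v2.Y + (1365 / 8192 : ℝ))) rfl
    ((1 / 2 : ℝ) + v2.Y * ((341 / 8192) * v2.Y + (1365 / 8192 : ℝ))) rfl
    (v2.Y * ((1 / 2 : ℝ) + v2.Y * ((341 / 8192) * v2.Y + (1365 / 8192 : ℝ)))) rfl
    v2.pY v2.e_pY
    (v2.Y * v2.pY) rfl
    ((1 / 2) * (v2.Y * v2.pY)) (congrArg (fun y : ℝ => y * (v2.Y * v2.pY)) zQMa_549755813888_0)
    ((1 : ℝ) + (1 / 2) * (v2.Y * v2.pY)) rfl
    v2.Yp v2.e_Yp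
    (v.K * v.om) rfl
    (2 * v.c0) (congrArg (fun y : ℝ => y * v.c0) zQMa_2199023255552_0)
    (v.K * v.om + 2 * v.c0) rfl
    v.Dt v.e_Dt
    v.D v.e_D
    v.SQ v.e_SQ
    (v.K * v.K) rfl
    (2 * (v.K * v.K)) (congrArg (fun y : ℝ => y * (v.K * v.K)) zQMa_2199023255552_0)
    v.c2 v.e_c2
    (v.c0 * v.Dt) rfl
    v.rhat v.e_rhat).2
    v.LQ v.e_LQ
    ((1 / 2) * v.LQ) (congrArg (fun y : ℝ => y * v.LQ) zQMa_549755813888_0)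
    v.aQ v.e_aQ
    (3 : ℝ) zQMa_3298534883328_0).2
    ((3 : ℝ)⁻¹) rfl
    ((1 : ℝ) * (3 : ℝ)⁻¹) rfl
    (2 : ℝ) zQMa_2199023255552_0
    (v.D + (2 : ℝ)) rfl).2
    ((v.D + (2 : ℝ))⁻¹) rfl
    l1.zL l1.e_zL
    l1.zz l1.e_zz
    ((1 : ℝ) - l1.zL) rfl
    (l1.zz * ((1 : ℝ) * (3 : ℝ)⁻¹)) rfl
    ((1 : ℝ) + l1.zz * ((1 : ℝ) * (3 : ℝ)⁻¹)) rfl
    l1.Lv l1.e_Lv
    (l1.zz * l1.zz) rfl
    l1.eL (l1.e_eL.trans (congrArg (fun y : ℝ => y * (l1.zz * l1.zz)) zQMa_219915747328_0))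
    (v.Dt * l1.Lv) rfl
    lv.rlo (lv.e_rlo.trans (congrArg (fun y : ℝ => y * (v.Dt * l1.Lv)) zQMa_549755813888_0))
    (v.Dt * l1.eL) rfl
    lv.er (lv.e_er.trans (congrArg (fun y : ℝ => y * (v.Dt * l1.eL)) zQMa_549755813888_0))
    lv.rhi lv.e_rhi
    (v.c0 * v.rhat) rfl
    lv.D2R (lv.e_D2R.trans (congrArg (fun y : ℝ => y * (v.c0 * v.rhat)) zQMa_4398046511104_0))
    (v.c0 * v.R) rfl
    (v.c0 * v.R * v.rhat) rfl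
    v.D2 (v.e_D2.trans (congrArg (fun y : ℝ => y * (v.c0 * v.R * v.rhat)) zQMa_4398046511104_0))
    (v.D2 + (2 : ℝ)) rfl).2
    ((v.D2 + (2 : ℝ))⁻¹) rfl
    l2.zL l2.e_zL
    l2.zz l2.e_zz
    ((1 : ℝ) - l2.zL) rfl
    (l2.zz * ((1 : ℝ) * (3 : ℝ)⁻¹)) rfl
    ((1 : ℝ) + l2.zz * ((1 : ℝ) * (3 : ℝ)⁻¹)) rfl
    l2.Lv l2.e_Lv
    (l2.zz * l2.zz) rfl
    l2.eL (l2.e_eL.trans (congrArg (fun y : ℝ => y * (l2.zz * l2.zz)) zQMa_219915747328_0))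
    (lv.D2R * l2.Lv) rfl
    ((1 / 2) * (lv.D2R * l2.Lv)) (congrArg (fun y : ℝ => y * (lv.D2R * l2.Lv)) zQMa_549755813888_0)
    lv.rplo lv.e_rplo
    (lv.D2R * l2.eL) rfl
    ((1 / 2) * (lv.D2R * l2.eL)) (congrArg (fun y : ℝ => y * (lv.D2R * l2.eL)) zQMa_549755813888_0)
    lv.erp lv.e_erp
    lv.rphi lv.e_rphi
    (r * lv.rlo) rfl
    (-(r * lv.rlo)) rfl
    q e_q
    (r * lv.er) rfl
    th e_th
    (v.om * v.K) rfl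
    (v.c0 + v.om * v.K) rfl).2
    v.ioK v.e_ioK
    v.h1t v.e_h1t
    (v.om1 * v.t) rfl
    v.h1 v.e_h1
    ((1 : ℝ) - v.u2) rfl
    v.f2 v.e_f2
    v.tu2 v.e_tu2
    ((1 : ℝ) - v.nj2) rfl
    v5.sn v5.e_sn
    (v.R * v.rhat) rfl).2
    (v.SQ⁻¹) rfl
    v5.R1 v5.e_R1
    (v.c0 + v5.R1) rfl
    v5.Qr v5.e_Qr
    (v5.Qr * v5.Qr) rfl).2
    ((v5.Qr * v5.Qr)⁻¹) rfl
    v5.Th v5.e_Th
    (v.c0 + v.R) rfl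
    (S * (v.c0 + v.R)) rfl).2
    ((S * (v.c0 + v.R))⁻¹) rfl
    wv e_w
    (wv * wv) rfl
    xv e_x
    (221 / 128 : ℝ) zQMa_1898375544832_0
    (72 : ℝ) zQMa_79164837199872_0
    (100 : ℝ) zQMa_109951162777600_0).2
    ((100 : ℝ)⁻¹) rfl
    ((72 : ℝ) * (100 : ℝ)⁻¹) rfl
    (v.u2 * ((1 : ℝ) - v.nj2)) rfl
    sg1 e_sg1
    (tz * tz) rfl
    (tz * tz * sg1) rfl
    (21 : ℝ) zQMa_23089744183296_0
    (10 : ℝ) zQMa_10995116277760_0).2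
    ((10 : ℝ)⁻¹) rfl
    ((21 : ℝ) * (10 : ℝ)⁻¹) rfl
    (r * ((21 : ℝ) * (10 : ℝ)⁻¹)) rfl
    (tz * tz * sg1 + r * ((21 : ℝ) * (10 : ℝ)⁻¹)) rfl
    epK e_epK
    ((5 / 8) * tz) (congrArg (fun y : ℝ => y * tz) zQMa_687194767360_0)
    ((5 / 8) * tz + (221 / 128 : ℝ)) rfl).2
    (((5 / 8) * tz + (221 / 128 : ℝ))⁻¹) rfl
    ((1 / 2) * ((72 : ℝ) * (100 : ℝ)⁻¹)) (congrArg (fun y : ℝ => y * ((72 : ℝ) * (100 : ℝ)⁻¹)) zQMa_549755813888_0)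
    (z * ((1 / 2) * ((72 : ℝ) * (100 : ℝ)⁻¹))) rfl
    Bk e_Bk
    ((1 : ℝ) - epK) rfl
    (Bk * ((1 : ℝ) - epK)) rfl).2
    lsk e_lsk
    (z * v.op1) rfl
    lsx e_lsx
    (v.t * lsx) rfl
    ls e_ls
    ((13 / 64) * ls) (congrArg (fun y : ℝ => y * ls) zQMa_223338299392_0)
    ((1 / 2 : ℝ) + (13 / 64) * ls) rfl
    (ls * ((1 / 2 : ℝ) + (13 / 64) * ls)) rfl
    ((1 : ℝ) + ls * ((1 / 2 : ℝ) + (13 / 64) * ls)) rfl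
    eqx e_eqx
    (eqx + (1 : ℝ)) rfl
    Qb e_Qb
    (98 : ℝ) zQMa_107752139522048_0
    ((98 : ℝ) * (100 : ℝ)⁻¹) rfl
    (sg1 - (98 : ℝ) * (100 : ℝ)⁻¹) rfl
  change 0 < sg1 - (98 : ℝ) * (100 : ℝ)⁻¹ at p_sg1
  obtain ⟨p_lsK, s1⟩ := s0
    ((5 / 8) * (1 : ℝ)) (congrArg (fun y : ℝ => y * (1 : ℝ)) zQMa_687194767360_0)
    ((5 / 8) * (1 : ℝ) - ls) rfl
  change 0 < (5 / 8) * (1 : ℝ) - ls at p_lsK
  obtain ⟨p_epK, s2⟩ := s1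
  change 0 < (1 : ℝ) - epK at p_epK
  obtain ⟨p_Yk, s3⟩ := s2
    (S * S) rfl
    (1764 : ℝ) zQMa_1939538511396864_0
    ((1764 : ℝ) * (100 : ℝ)⁻¹) rfl
    (S * S * ((1764 : ℝ) * (100 : ℝ)⁻¹)) rfl
    (S * S * ((1764 : ℝ) * (100 : ℝ)⁻¹) - v5.sn) rfl
  change 0 < S * S * ((1764 : ℝ) * (100 : ℝ)⁻¹) - v5.sn at p_Yk
  obtain ⟨p_ek, s4⟩ := s3
    (27 / 8192 : ℝ) zQMa_3623878656_0
    ((27 / 8192 : ℝ) - eps) rfl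
  change 0 < (27 / 8192 : ℝ) - eps at p_ek
  obtain ⟨p_KK, s5⟩ := s4
    (1 / 32 : ℝ) zQMa_34359738368_0
    ((1 / 32 : ℝ) - v.K) rfl
  change 0 < (1 / 32 : ℝ) - v.K at p_KK
  obtain ⟨p_bK, s6⟩ := s5
    (4 * S) (congrArg (fun y : ℝ => y * S) zQMa_4398046511104_0)
    (4 * S - v.nj) rfl
  change 0 < 4 * S - v.nj at p_bK
  obtain ⟨p_uK, s7⟩ := s6
    (1 / 4 : ℝ) zQMa_274877906944_0
    ((1 / 4 : ℝ) - v.u2) rfl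
  change 0 < (1 / 4 : ℝ) - v.u2 at p_uK
  obtain ⟨p_rplo, s8⟩ := (s7
    (v.om1 * v.op1) rfl
    (v.c0 + v.t) rfl
    (v.om * v.c0) rfl
    (v.om * v.c0 * v.K) rfl
    (2 * (v.om * v.c0 * v.K)) (congrArg (fun y : ℝ => y * (v.om * v.c0 * v.K)) zQMa_2199023255552_0)
    (v.c2 + 2 * (v.om * v.c0 * v.K)) rfl
    ((v.c0 + v.t) * (v.c2 + 2 * (v.om * v.c0 * v.K))) rfl).2
    (((v.c0 + v.t) * (v.c2 + 2 * (v.om * v.c0 * v.K)))⁻¹) rfl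
    v3.hpt v3.e_hpt
    v3.hp v3.e_hp
  change 0 < lv.rplo at p_rplo
  obtain ⟨p_lspa, s9⟩ := (((((((((((((s8
    hgp e_hgp
    gu e_gu
    (v.h + (1 : ℝ)) rfl).2
    v2.ih v2.e_ih
    (v.h * v2.ih) rfl
    v2.rh (v2.e_rh.trans (congrArg (fun y : ℝ => y * (v.h * v2.ih)) zQMa_2199023255552_0))
    v2.mi v2.e_mi
    v2.hm v2.e_hm
    v2.nih v2.e_nih
    (v2.nih * v2.mi) rfl
    v2.bsum v2.e_bsum
    ((209 / 1024) * v.j) (congrArg (fun y : ℝ => y * v.j) zQMa_224412041216_0)).2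
    (v2.Yp⁻¹) rfl
    v2.lm v2.e_lm
    ((1 : ℝ) * v.nj) rfl
    G4 e_G4).2
    xa.iG4 xa.e_iG4
    xa.alG xa.e_alG
    xa.AE xa.e_AE
    (xa.AE * v.op1) rfl
    xa.XeE xa.e_XeE
    (xa.alG * v.op1) rfl
    xa.XM xa.e_XM
    ((1 : ℝ) - xa.XM) rfl).2
    xa.iX xa.e_iX
    xa.QX xa.e_QX
    ((1 : ℝ) - xa.QX) rfl).2
    xa.iQX xa.e_iQX
    (2 * eps) (congrArg (fun y : ℝ => y * eps) zQMa_2199023255552_0)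
    Ei e_Ei
    Eh e_Eh
    (S * v.nj) rfl
    (2 * (S * v.nj)) (congrArg (fun y : ℝ => y * (S * v.nj)) zQMa_2199023255552_0)
    ((1 / 2) * v.t) (congrArg (fun y : ℝ => y * v.t) zQMa_549755813888_0)
    (2 * (S * v.nj) + (1 / 2) * v.t) rfl
    (z * (2 * (S * v.nj) + (1 / 2) * v.t)) rfl
    phux (e_phux.trans (congrArg (fun y : ℝ => y * (z * (2 * (S * v.nj) + (1 / 2) * v.t))) zQMa_549755813888_0))
    (v.h * v.nj) rfl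
    ((1 : ℝ) - v.f2) rfl
    (v.h * v.om) rfl
    (2 * (v.h * v.om)) (congrArg (fun y : ℝ => y * (v.h * v.om)) zQMa_2199023255552_0)
    ((1 : ℝ) - v.f2 - 2 * (v.h * v.om)) rfl
    (v.h * v.nj * (v.h * v.nj)) rfl
    xa.N1 xa.e_N1
    (xa.N1 + (1 : ℝ)) rfl
    xa.s (xa.e_s.trans (congrArg (fun y : ℝ => y * (xa.N1 + (1 : ℝ))) zQMa_549755813888_0))
    ((1 / 2) * v.R) (congrArg (fun y : ℝ => y * v.R) zQMa_549755813888_0)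
    (v.j - (1 / 2) * v.R) rfl
    (v.tu2 * ((1 : ℝ) - v.f2)) rfl
    (v.tu2 * ((1 : ℝ) - v.f2) * v.jm) rfl
    ((1 / 8) * (v.tu2 * ((1 : ℝ) - v.f2) * v.jm)) (congrArg (fun y : ℝ => y * (v.tu2 * ((1 : ℝ) - v.f2) * v.jm)) zQMa_137438953472_0)
    (v.j - (1 / 2) * v.R + (1 / 8) * (v.tu2 * ((1 : ℝ) - v.f2) * v.jm)) rfl
    xa.k0 xa.e_k0
    (1 / 1099511627776 : ℝ) zQMa_1_0
    (3 / 274877906944 : ℝ) zQMa_12_0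
    (xv * (1 / 1099511627776 : ℝ)) rfl
    ((3 / 274877906944 : ℝ) - xv * (1 / 1099511627776 : ℝ)) rfl
    (287 / 137438953472 : ℝ) zQMa_2296_0
    (xv * ((3 / 274877906944 : ℝ) - xv * (1 / 1099511627776 : ℝ))) rfl
    ((287 / 137438953472 : ℝ) - xv * ((3 / 274877906944 : ℝ) - xv * (1 / 1099511627776 : ℝ))) rfl
    (302995 / 1099511627776 : ℝ) zQMa_302995_0
    (xv * ((287 / 137438953472 : ℝ) - xv * ((3 / 274877906944 : ℝ) - xv * (1 / 1099511627776 : ℝ)))) rfl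
    ((302995 / 1099511627776 : ℝ) - xv * ((287 / 137438953472 : ℝ) - xv * ((3 / 274877906944 : ℝ) - xv * (1 / 1099511627776 : ℝ)))) rfl
    (13634817 / 549755813888 : ℝ) zQMa_27269634_0
    (xv * ((302995 / 1099511627776 : ℝ) - xv * ((287 / 137438953472 : ℝ) - xv * ((3 / 274877906944 : ℝ) - xv * (1 / 1099511627776 : ℝ))))) rfl
    ((13634817 / 549755813888 : ℝ) - xv * ((302995 / 1099511627776 : ℝ) - xv * ((287 / 137438953472 : ℝ) - xv * ((3 / 274877906944 : ℝ) - xv * (1 / 1099511627776 : ℝ))))) rfl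
    (1527099483 / 1099511627776 : ℝ) zQMa_1527099483_0
    (xv * ((13634817 / 549755813888 : ℝ) - xv * ((302995 / 1099511627776 : ℝ) - xv * ((287 / 137438953472 : ℝ) - xv * ((3 / 274877906944 : ℝ) - xv * (1 / 1099511627776 : ℝ)))))) rfl
    ((1527099483 / 1099511627776 : ℝ) - xv * ((13634817 / 549755813888 : ℝ) - xv * ((302995 / 1099511627776 : ℝ) - xv * ((287 / 137438953472 : ℝ) - xv * ((3 / 274877906944 : ℝ) - xv * (1 / 1099511627776 : ℝ)))))) rfl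
    (45812984491 / 1099511627776 : ℝ) zQMa_45812984491_0
    (xv * ((1527099483 / 1099511627776 : ℝ) - xv * ((13634817 / 549755813888 : ℝ) - xv * ((302995 / 1099511627776 : ℝ) - xv * ((287 / 137438953472 : ℝ) - xv * ((3 / 274877906944 : ℝ) - xv * (1 / 1099511627776 : ℝ))))))) rfl
    ((45812984491 / 1099511627776 : ℝ) - xv * ((1527099483 / 1099511627776 : ℝ) - xv * ((13634817 / 549755813888 : ℝ) - xv * ((302995 / 1099511627776 : ℝ) - xv * ((287 / 137438953472 : ℝ) - xv * ((3 / 274877906944 : ℝ) - xv * (1 / 1099511627776 : ℝ))))))) rfl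
    (xv * ((45812984491 / 1099511627776 : ℝ) - xv * ((1527099483 / 1099511627776 : ℝ) - xv * ((13634817 / 549755813888 : ℝ) - xv * ((302995 / 1099511627776 : ℝ) - xv * ((287 / 137438953472 : ℝ) - xv * ((3 / 274877906944 : ℝ) - xv * (1 / 1099511627776 : ℝ)))))))) rfl
    ((1 / 2 : ℝ) - xv * ((45812984491 / 1099511627776 : ℝ) - xv * ((1527099483 / 1099511627776 : ℝ) - xv * ((13634817 / 549755813888 : ℝ) - xv * ((302995 / 1099511627776 : ℝ) - xv * ((287 / 137438953472 : ℝ) - xv * ((3 / 274877906944 : ℝ) - xv * (1 / 1099511627776 : ℝ)))))))) rfl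
    (xv * ((1 / 2 : ℝ) - xv * ((45812984491 / 1099511627776 : ℝ) - xv * ((1527099483 / 1099511627776 : ℝ) - xv * ((13634817 / 549755813888 : ℝ) - xv * ((302995 / 1099511627776 : ℝ) - xv * ((287 / 137438953472 : ℝ) - xv * ((3 / 274877906944 : ℝ) - xv * (1 / 1099511627776 : ℝ))))))))) rfl
    cu e_cu
    xe e_xe
    (q * q) rfl
    (q * q + (1 : ℝ)) rfl
    (xe * xe) rfl
    ((43 / 128) * (xe * xe)) (congrArg (fun y : ℝ => y * (xe * xe)) zQMa_369367187456_0)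
    (cu + (43 / 128) * (xe * xe)) rfl
    (q * (cu + (43 / 128) * (xe * xe))) rfl
    (2 * (q * (cu + (43 / 128) * (xe * xe)))) (congrArg (fun y : ℝ => y * (q * (cu + (43 / 128) * (xe * xe)))) zQMa_2199023255552_0)
    (q * q + (1 : ℝ) + 2 * (q * (cu + (43 / 128) * (xe * xe)))) rfl
    (2 * th) (congrArg (fun y : ℝ => y * th) zQMa_2199023255552_0)
    o2u e_o2u
    (1 / 128 : ℝ) zQMa_8589934592_0
    (o2u + (1 / 128 : ℝ)) rfl).2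
    (Real.log (o2u + (1 / 128 : ℝ))) rfl
    ((1 / 2) * Real.log (o2u + (1 / 128 : ℝ))) (congrArg (fun y : ℝ => y * Real.log (o2u + (1 / 128 : ℝ))) zQMa_549755813888_0)
    ooo e_ooo
    (q * eqx) rfl
    Q1 e_Q1
    (Q1 * xa.iX) rfl
    (Qb * xa.iQX) rfl
    (Q1 * xa.iX + Qb * xa.iQX) rfl
    (xa.XM * (Q1 * xa.iX + Qb * xa.iQX)) rfl
    (ls + xa.XM * (Q1 * xa.iX + Qb * xa.iQX)) rfl
    xa.a0 xa.e_a0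
    (Q1 * xa.XM) rfl
    (Q1 * xa.XM * xa.iX) rfl
    (ls + Q1 * xa.XM * xa.iX) rfl
    xa.l1 xa.e_l1
    ((13 / 64) * xa.l1) (congrArg (fun y : ℝ => y * xa.l1) zQMa_223338299392_0)
    ((1 / 2 : ℝ) + (13 / 64) * xa.l1) rfl
    (xa.l1 * ((1 / 2 : ℝ) + (13 / 64) * xa.l1)) rfl
    xa.Na xa.e_Na
    ((13 / 16) * xa.a0) (congrArg (fun y : ℝ => y * xa.a0) zQMa_893353197568_0)
    ((1 : ℝ) + (13 / 16) * xa.a0) rfl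
    (xa.a0 * ((1 : ℝ) + (13 / 16) * xa.a0)) rfl
    xa.Nb xa.e_Nb
    (v2.rh * v2.nih) rfl
    (v2.rh * v2.nih * Ei) rfl
    xa.rn xa.e_rn
    (xa.k0 * xa.Na) rfl
    (v.aQ + (1 / 2 : ℝ)) rfl
    (xa.rn * (v.aQ + (1 / 2 : ℝ))) rfl
    xa.ka xa.e_ka
    (v.aQ + (1 : ℝ)) rfl
    xa.kb xa.e_kb
    (Eh * (v.aQ + (1 : ℝ))) rfl
    (Eh * (v.aQ + (1 : ℝ)) * v2.nih) rfl
    xa.lfk xa.e_lfk
    (xa.ka * lsx) rfl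
    (xa.lfk * phux) rfl
    xa.kl xa.e_kl
    (r * v2.bsum) rfl).2
    (v.aQ⁻¹) rfl
    (r * v2.bsum * v.aQ⁻¹) rfl
    ((1 / 2) * (r * v2.bsum * v.aQ⁻¹)) (congrArg (fun y : ℝ => y * (r * v2.bsum * v.aQ⁻¹)) zQMa_549755813888_0)
    (v.om1 * ((1 / 2) * (r * v2.bsum * v.aQ⁻¹))) rfl
    srcx e_srcx
    srcs e_srcs
    yb.src yb.e_src
    (xa.ka * Q1) rfl
    (xa.ka * Q1 * xa.iX) rfl
    (xa.kb * Qb) rfl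
    (xa.kb * Qb * xa.iQX) rfl
    yb.fxe yb.e_fxe
    (v.om1 * yb.src) rfl
    (xa.XeE * yb.fxe) rfl
    yb.epd yb.e_epd
    (v.tu2 * yb.epd) rfl
    (v.tu2 * yb.epd * v.aQ⁻¹) rfl
    ((1 : ℝ) - v.tu2 * yb.epd * v.aQ⁻¹) rfl).2
    yb.NN yb.e_NN
    yb.eN yb.e_eN
    yb.d yb.e_d
    yb.eta yb.e_eta
    (yb.eta * v.aQ⁻¹) rfl
    ((1 : ℝ) - yb.eta * v.aQ⁻¹) rfl
    (v.rhat * ((1 : ℝ) - yb.eta * v.aQ⁻¹)) rfl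
    yb.rl yb.e_rl).2
    yb.irl yb.e_irl
    yb.yy yb.e_yy
    (v.aQ - yb.eta) rfl).2
    yb.q0 yb.e_q0
    yb.zp yb.e_zp
    ((1 / 2) * yb.zp) (congrArg (fun y : ℝ => y * yb.zp) zQMa_549755813888_0)
    ((1 : ℝ) - (1 / 2) * yb.zp) rfl
    ((1 : ℝ) - yb.zp) rfl).2
    (((1 : ℝ) - yb.zp)⁻¹) rfl
    yb.kzp yb.e_kzp
    (v.u * yb.q0) rfl
    (gu * yb.irl) rfl
    (gu * yb.irl * yb.kzp) rfl
    yb.Cu yb.e_Cu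
    (tr * yb.eN) rfl
    (yb.q0 * (tr * yb.eN)) rfl
    ((1 : ℝ) * yb.irl) rfl
    ((1 : ℝ) * yb.irl * yb.kzp) rfl
    ((1 : ℝ) * yb.irl * yb.kzp * yb.d) rfl
    yb.rr yb.e_rr
    ((13 / 64) * yb.rr) (congrArg (fun y : ℝ => y * yb.rr) zQMa_223338299392_0)
    ((1 / 2 : ℝ) + (13 / 64) * yb.rr) rfl
    (yb.rr * ((1 / 2 : ℝ) + (13 / 64) * yb.rr)) rfl
    ((1 : ℝ) + yb.rr * ((1 / 2 : ℝ) + (13 / 64) * yb.rr)) rfl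
    (yb.Cu * ((1 : ℝ) + yb.rr * ((1 / 2 : ℝ) + (13 / 64) * yb.rr))) rfl
    yb.CuN yb.e_CuN
    yb.fbt yb.e_fbt
    yb.XLt yb.e_XLt
    (7 : ℝ) zQMa_7696581394432_0
    yb.beta yb.e_beta
    ((v.h + (1 : ℝ)) * v.op1) rfl
    yb.b1 yb.e_b1
    pk.omr pk.e_omr
    pk.omp pk.e_omp
    ((1 / 2) * hgp) (congrArg (fun y : ℝ => y * hgp) zQMa_549755813888_0)
    ((1 : ℝ) - (1 / 2) * hgp) rfl
    ((1 : ℝ) - hgp) rfl).2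
    (((1 : ℝ) - hgp)⁻¹) rfl
    (((1 : ℝ) - (1 / 2) * hgp) * ((1 : ℝ) - hgp)⁻¹) rfl
    pk.lspf pk.e_lspf
    (v.tu2 * v5.Th) rfl
    ((2731 / 4096) * (v.tu2 * v5.Th)) (congrArg (fun y : ℝ => y * (v.tu2 * v5.Th)) zQMa_733097230336_0)
    ((1 : ℝ) - (2731 / 4096) * (v.tu2 * v5.Th)) rfl
    (v5.Th * ((1 : ℝ) - (2731 / 4096) * (v.tu2 * v5.Th))) rfl
    (lv.rplo * lv.rplo) rfl
    (v.u2 * (lv.rplo * lv.rplo)) rfl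
    pk.E0 pk.e_E0
    pk.lspa pk.e_lspa
    (pk.E0 + (1 : ℝ)) rfl
    (pk.lspa * (pk.E0 + (1 : ℝ))) rfl
    (pk.E0 - pk.lspa * (pk.E0 + (1 : ℝ))) rfl
    ((2731 / 8192) * (v.K * v.K)) (congrArg (fun y : ℝ => y * (v.K * v.K)) zQMa_366548615168_0)
    ((1 : ℝ) - (2731 / 8192) * (v.K * v.K)) rfl
    (v.nj2 * ((1 : ℝ) - (2731 / 8192) * (v.K * v.K))) rfl
    (pk.E0 - pk.lspa * (pk.E0 + (1 : ℝ)) + v.nj2 * ((1 : ℝ) - (2731 / 8192) * (v.K * v.K))) rfl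
    (pk.omr * (pk.E0 - pk.lspa * (pk.E0 + (1 : ℝ)) + v.nj2 * ((1 : ℝ) - (2731 / 8192) * (v.K * v.K)))) rfl
    (pk.omp * pk.omp) rfl
    ((1 : ℝ) + pk.omp * pk.omp) rfl).2
    (((1 : ℝ) + pk.omp * pk.omp)⁻¹) rfl
    pk.pe pk.e_pe
    ((1 : ℝ) - yb.yy) rfl
    pk.ye pk.e_ye
    ((1 : ℝ) - pk.lspa) rfl
  change 0 < (1 : ℝ) - pk.lspa at p_lspa
  obtain ⟨p_pe, s10⟩ := s9
  change 0 < pk.pe at p_pe
  obtain ⟨p_yy, s11⟩ := s10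
  change 0 < (1 : ℝ) - yb.yy at p_yy
  obtain ⟨p_XM, s12⟩ := (((((s11
    (yb.CuN * G4) rfl
    (yb.CuN * G4 * srcx) rfl).2
    (v.op1⁻¹) rfl
    cl.FXt cl.e_FXt
    y1 e_y1
    (v.t * y1) rfl
    ((1 / 2) * (v.t * y1)) (congrArg (fun y : ℝ => y * (v.t * y1)) zQMa_549755813888_0)
    ((1 : ℝ) - (1 / 2) * (v.t * y1)) rfl
    (y1 * ((1 : ℝ) - (1 / 2) * (v.t * y1))) rfl
    cl.S1 cl.e_S1
    (v.u * v.n) rfl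
    (v.u * v.n * (v.h + (1 : ℝ))) rfl
    (v.u * v.n * (v.h + (1 : ℝ)) * v.j) rfl
    cl.a4 cl.e_a4
    (cl.S1 + cl.a4) rfl
    (cl.S1 * cl.a4) rfl
    (v.t * (cl.S1 * cl.a4)) rfl
    cl.S4 cl.e_S4
    cl.Dh cl.e_Dh
    ((3 / 8) * v.D) (congrArg (fun y : ℝ => y * v.D) zQMa_412316860416_0)
    ((1 / 2 : ℝ) - (3 / 8) * v.D) rfl
    (cl.Dh * ((1 / 2 : ℝ) - (3 / 8) * v.D)) rfl
    ((1 : ℝ) * (cl.Dh * ((1 / 2 : ℝ) - (3 / 8) * v.D))) rfl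
    cl.a5 cl.e_a5
    (cl.S4 + cl.a5) rfl
    (cl.S4 * cl.a5) rfl
    (v.t * (cl.S4 * cl.a5)) rfl
    cl.S5 cl.e_S5
    (v.u * yb.eN) rfl
    (v.u * yb.eN * v.op1⁻¹) rfl
    cl.a6 cl.e_a6
    (cl.S5 + cl.a6) rfl
    (cl.S5 * cl.a6) rfl
    (v.t * (cl.S5 * cl.a6)) rfl
    cl.S6 cl.e_S6
    cl.a7 cl.e_a7
    (cl.S6 - cl.a7) rfl
    (v.t * yb.b1) rfl
    ((1 : ℝ) + v.t * yb.b1) rfl).2
    (((1 : ℝ) + v.t * yb.b1)⁻¹) rfl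
    cl.S7 cl.e_S7
    (v.u * v.tu) rfl
    (v.u * v.tu * yb.eN) rfl
    (v.u * v.tu * yb.eN * yb.q0) rfl
    cl.a8 cl.e_a8
    (cl.S7 + cl.a8) rfl
    (cl.S7 * cl.a8) rfl
    (v.t * (cl.S7 * cl.a8)) rfl
    cl.S8 cl.e_S8
    (v.t * cl.S8) rfl
    cl.c1 cl.e_c1
    (yb.fbt * xa.XM) rfl
    (v.t * yb.XLt) rfl
    (cl.FXt * (v.t * yb.XLt)) rfl
    (yb.fbt * xa.XM + cl.FXt * (v.t * yb.XLt)) rfl
    cl.rt cl.e_rt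
    (yb.fbt + cl.FXt) rfl
    cl.fm cl.e_fm
    (cl.rt * cl.c1) rfl
    (cl.S8 + cl.rt * cl.c1) rfl
    (cl.S8 + cl.rt * cl.c1 + cl.fm) rfl
    cl.Bm cl.e_Bm
    ((1 / 1024) * (1 : ℝ)) (congrArg (fun y : ℝ => y * (1 : ℝ)) zQMa_1073741824_0)
    (cl.Bm - (1 / 1024) * (1 : ℝ)) rfl
    yb.m1 yb.e_m1
    (yb.m1 + (2 : ℝ)) rfl
    (2 * yb.beta) (congrArg (fun y : ℝ => y * yb.beta) zQMa_2199023255552_0)
    (yb.m1 + (2 : ℝ) - 2 * yb.beta) rfl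
    ((v.h + (1 : ℝ)) * (yb.m1 + (2 : ℝ) - 2 * yb.beta)) rfl
    (yb.m1 * (2 * yb.beta)) rfl
    (yb.m1 * (2 * yb.beta) + (1 : ℝ)) rfl).2
    ((yb.m1 * (2 * yb.beta) + (1 : ℝ))⁻¹) rfl
    ((v.h + (1 : ℝ)) * (yb.m1 + (2 : ℝ) - 2 * yb.beta) * (yb.m1 * (2 * yb.beta) + (1 : ℝ))⁻¹) rfl
    (xa.AE * yb.fxe) rfl
    ((1 / 2) * v2.lm) (congrArg (fun y : ℝ => y * v2.lm) zQMa_549755813888_0)
    (v.K + (1 / 2) * v2.lm) rfl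
    (xa.AE * yb.fxe * (v.K + (1 / 2) * v2.lm)) rfl
    (2 * (xa.AE * yb.fxe * (v.K + (1 / 2) * v2.lm))) (congrArg (fun y : ℝ => y * (xa.AE * yb.fxe * (v.K + (1 / 2) * v2.lm))) zQMa_2199023255552_0)
    (yb.src + 2 * (xa.AE * yb.fxe * (v.K + (1 / 2) * v2.lm))) rfl
    (2 * (yb.src + 2 * (xa.AE * yb.fxe * (v.K + (1 / 2) * v2.lm)))) (congrArg (fun y : ℝ => y * (yb.src + 2 * (xa.AE * yb.fxe * (v.K + (1 / 2) * v2.lm)))) zQMa_2199023255552_0)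
    (2 * (yb.src + 2 * (xa.AE * yb.fxe * (v.K + (1 / 2) * v2.lm))) * yb.NN) rfl
    (v.tu * yb.eN) rfl
    (v.op1 - v.tu * yb.eN) rfl).2
    ((v.op1 - v.tu * yb.eN)⁻¹) rfl
    (2 * (yb.src + 2 * (xa.AE * yb.fxe * (v.K + (1 / 2) * v2.lm))) * yb.NN * (v.op1 - v.tu * yb.eN)⁻¹) rfl
    yb.V yb.e_V
    ((1 : ℝ) * v.nj * ((1 : ℝ) * v.nj)) rfl
    (13 : ℝ) zQMa_14293651161088_0
    ((13 : ℝ) * (10 : ℝ)⁻¹) rfl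
    ((1 : ℝ) * v.nj * ((1 : ℝ) * v.nj) * ((13 : ℝ) * (10 : ℝ)⁻¹)) rfl
    (25 * (S * S)) (congrArg (fun y : ℝ => y * (S * S)) zQMa_27487790694400_0)
    yb.C2 yb.e_C2
    yb.gr yb.e_gr
    (2 * v.c0 - v.t) rfl
    yb.Gt yb.e_Gt
    ((1 : ℝ) * v.u) rfl
    yb.au yb.e_au
    (v.op1 * yb.fxe) rfl
    (v.op1 * yb.fxe * xa.iG4) rfl
    yb.inner yb.e_inner
    (v.tu * yb.eN + (2 : ℝ)) rfl
    yb.ezs yb.e_ezs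
    (yb.C2 * yb.gr) rfl
    (yb.NN * yb.ezs) rfl
    (yb.au * yb.inner) rfl
    (yb.NN * yb.ezs * (yb.au * yb.inner)) rfl
    yb.Rg0 yb.e_Rg0
    ((1 / 2) * (v.tu * yb.eN)) (congrArg (fun y : ℝ => y * (v.tu * yb.eN)) zQMa_549755813888_0)
    ((1 : ℝ) + (1 / 2) * (v.tu * yb.eN)) rfl
    (yb.NN * ((1 : ℝ) + (1 / 2) * (v.tu * yb.eN))) rfl
    (v.t * v.om1) rfl
    (v.t * v.om1 * v2.bsum) rfl
    (v.op1 * v.aQ) rfl).2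
    ((v.op1 * v.aQ)⁻¹) rfl
    (v.t * v.om1 * v2.bsum * (v.op1 * v.aQ)⁻¹) rfl
    (yb.NN * ((1 : ℝ) + (1 / 2) * (v.tu * yb.eN)) * (v.t * v.om1 * v2.bsum * (v.op1 * v.aQ)⁻¹)) rfl
    yb.Rh yb.e_Rh
    (v2.lm * yb.Rg0) rfl
    ((1 : ℝ) - v2.lm) rfl
    (v.u2 * yb.Rh) rfl
    (((1 : ℝ) - v2.lm) * (v.u2 * yb.Rh)) rfl
    (yb.C2 * (((1 : ℝ) - v2.lm) * (v.u2 * yb.Rh))) rfl
    yb.Rg yb.e_Rg
  change 0 < (1 : ℝ) - xa.XM at p_XM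
  obtain ⟨p_QX, s13⟩ := s12
  change 0 < (1 : ℝ) - xa.QX at p_QX
  obtain ⟨p_e2, s14⟩ := s13
    (2 * (v.tu2 * yb.epd)) (congrArg (fun y : ℝ => y * (v.tu2 * yb.epd)) zQMa_2199023255552_0)
    (v.aQ - 2 * (v.tu2 * yb.epd)) rfl
  change 0 < v.aQ - 2 * (v.tu2 * yb.epd) at p_e2
  obtain ⟨p_rl, s15⟩ := s14
  change 0 < yb.rl at p_rl
  obtain ⟨p_hgp, s16⟩ := s15
    ((1 / 2 : ℝ) - hgp) rfl
  change 0 < (1 / 2 : ℝ) - hgp at p_hgp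
  obtain ⟨p_l1, s17⟩ := s16
    ((5 / 8) * (1 : ℝ) - xa.l1) rfl
  change 0 < (5 / 8) * (1 : ℝ) - xa.l1 at p_l1
  obtain ⟨p_a0, s18⟩ := s17
    ((11 / 32) * (1 : ℝ)) (congrArg (fun y : ℝ => y * (1 : ℝ)) zQMa_377957122048_0)
    ((11 / 32) * (1 : ℝ) - xa.a0) rfl
  change 0 < (11 / 32) * (1 : ℝ) - xa.a0 at p_a0
  obtain ⟨p_S, s19⟩ := s18
  change 0 < v.op1 - v.tu * yb.eN at p_S
  obtain ⟨p_zp, s20⟩ := s19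
  change 0 < (1 : ℝ) - yb.zp at p_zp
  obtain ⟨p_rr, s21⟩ := s20
    ((5 / 8) * (1 : ℝ) - yb.rr) rfl
  change 0 < (5 / 8) * (1 : ℝ) - yb.rr at p_rr
  obtain ⟨p_V, s22⟩ := s21
  change 0 < yb.V at p_V
  obtain ⟨p_B, s23⟩ := s22
  change 0 < cl.Bm - (1 / 1024) * (1 : ℝ) at p_B
  obtain ⟨p_Rg, s24⟩ := s23
  change 0 < yb.Rg at p_Rg
  obtain ⟨p_Rh, s25⟩ := s24
  change 0 < yb.Rh at p_Rh
  have hQ := qb_s G f lv.e_rhi e_q e_th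
  have hq := hQ.le
  have hq0 : 0 < q := lt_of_lt_of_le (by rw [G.q_eq]; exact G.q0) hq
  have hγp := gam_le_one G.e0 G.κ0 (shf_re' G.κ0 G.s0)
  have hoo := oo_sharp8 G.κ0 G.s0 hQ (Qre0 G) hsc.ee (x_eq G v5 hsc e_w e_x) e_cu e_xe e_o2u e_ooo
  have hC : Pool.Agent.helper31.EQB.MC v.e κ (21 / 5) 1 (69 / 100) (72 * 100⁻¹) := by
    have h9 : (72 * 100⁻¹ : ℝ) = 72 / 100 := by norm_num
    rw [h9]; exact mc_K G hsc p_ek p_KK p_bK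
  obtain ⟨hl, hlx0⟩ := ls_K G hsc hC (by norm_num) (by norm_num) e_tz hde' e_eps (by rw [e_r, e_z2]) hz0 e_sg1 e_epK e_Bk e_lsk e_lsx e_ls p_sg1 p_epK (by rw [← v5.e_sn]; exact p_Yk) p_uK
  have hn1 : ‖1 + qq v.e κ (shf κ τ)‖ ≤ Q1 := by
    rw [e_Q1]; exact n1_sharp8 G.e0 G.κ0 G.s0 hq hoo (ratio_le G.e0 G.κ0 G.s0 hl p_lsK e_eqx)
  have fr := fr_K G hl hlx0 hq hq0 e_ls p_lsK e_eqx e_Qb hn1
  have hgu : 1 * gu = 1 * S := by rw [e_gu]; ring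
  obtain ⟨lf0, Ex, hφ⟩ := ph_slz G v2 hsc e_tz hde' hu hz0 he2 (by norm_num) (by norm_num) (by norm_num) e_phux e_Ei e_Eh
  have as8 : As8 xa yb := ⟨p_XM, p_QX, p_e2, p_rl, p_l1, p_a0, p_S, p_zp, p_rr, p_V, p_Rg, p_Rh⟩
  exact far_Cl G D hsc hA0 hA as8 fr hgu hγp hφ pk f p_rplo e_hgp p_hgp p_lspa p_pe p_yy cl e_srcx e_srcs
    (mul_one v.t) G.t0 (by linear_combination v.t * e_y1 - pk.ye * e_r) p_B

theorem far_QMa9 {κ : ℝ} {τ : ℂ} {R w : ℝ} {v : B1} (D : PtE (7 * 10⁻¹) v.e κ τ R w)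
    (G : Geo κ (shf κ τ) v) (v2 : B2 v) (v3 : B3 v) (v5 : V5 v) {l1 : Lg v.D} {l2 : Lg v.D2}
    (lv : LV v l1 l2) (he2 : 2 ≤ v.e) {S z de : ℝ}
    (hde0 : 0 < de) (hde : de = v.t * z * S) (hu : v.u = z * de) (hz0 : 0 < z)
    (hee : v.e * (de * de) = 1)
    (h : RAs Pool.Agent.helper71.FJ.Crt.QMa.prog9 [S, v.t, z, v.n]) :
    FarPt v.e κ (1 - Real.sinh κ / 1024) w (2 * AQ v.e v.K * Real.sinh κ ^ 2) R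
      (RE v.e κ (w * R)) τ := by
  obtain ⟨tz, e_tz⟩ : ∃ zz : ℝ, zz = v.t * z := ⟨_, rfl⟩
  have hde' : de = tz * S := by rw [e_tz]; exact hde
  obtain ⟨z2, e_z2⟩ : ∃ zz : ℝ, zz = z * z := ⟨_, rfl⟩
  obtain ⟨r, e_r⟩ : ∃ zz : ℝ, zz = v.t * z2 := ⟨_, rfl⟩
  obtain ⟨eps, e_eps⟩ : ∃ zz : ℝ, zz = de * de := ⟨_, rfl⟩
  obtain ⟨tr, e_tr⟩ : ∃ zz : ℝ, zz = v.t * r := ⟨_, rfl⟩
  obtain ⟨q, e_q⟩ : ∃ zz : ℝ, zz = Real.exp (-(r * lv.rlo)) := ⟨_, rfl⟩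
  obtain ⟨th, e_th⟩ : ∃ zz : ℝ, zz = q * (r * lv.er) := ⟨_, rfl⟩
  obtain ⟨wv, e_w⟩ : ∃ zz : ℝ, zz = (1 : ℝ) * (S * (v.c0 + v.R))⁻¹ := ⟨_, rfl⟩
  obtain ⟨xv, e_x⟩ : ∃ zz : ℝ, zz = wv * wv * v5.sn := ⟨_, rfl⟩
  obtain ⟨sg1, e_sg1⟩ : ∃ zz : ℝ, zz = (1 : ℝ) - v.u2 * ((1 : ℝ) - v.nj2) := ⟨_, rfl⟩
  obtain ⟨epK, e_epK⟩ : ∃ zz : ℝ, zz = (tz * tz * sg1 + r * ((21 : ℝ) * (10 : ℝ)⁻¹)) * eps := ⟨_, rfl⟩
  obtain ⟨Bk, e_Bk⟩ : ∃ zz : ℝ, zz = ((5 / 8) * tz + (51 / 32 : ℝ))⁻¹ + z * ((1 / 2) * ((83 : ℝ) * (100 : ℝ)⁻¹)) := ⟨_, rfl⟩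
  obtain ⟨lsk, e_lsk⟩ : ∃ zz : ℝ, zz = (Bk * ((1 : ℝ) - epK))⁻¹ := ⟨_, rfl⟩
  obtain ⟨lsx, e_lsx⟩ : ∃ zz : ℝ, zz = z * v.op1 * lsk := ⟨_, rfl⟩
  obtain ⟨ls, e_ls⟩ : ∃ zz : ℝ, zz = v.om1 * (v.t * lsx) := ⟨_, rfl⟩
  obtain ⟨eqx, e_eqx⟩ : ∃ zz : ℝ, zz = ls * ((1 : ℝ) + ls * ((1 / 2 : ℝ) + (13 / 64) * ls)) := ⟨_, rfl⟩
  obtain ⟨Qb, e_Qb⟩ : ∃ zz : ℝ, zz = q * (eqx + (1 : ℝ)) := ⟨_, rfl⟩
  obtain ⟨hgp, e_hgp⟩ : ∃ zz : ℝ, zz = v3.hp * (1 : ℝ) := ⟨_, rfl⟩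
  obtain ⟨gu, e_gu⟩ : ∃ zz : ℝ, zz = (1 : ℝ) * S := ⟨_, rfl⟩
  obtain ⟨G4, e_G4⟩ : ∃ zz : ℝ, zz = 4 * S + (1 : ℝ) * v.nj := ⟨_, rfl⟩
  obtain ⟨Ei, e_Ei⟩ : ∃ zz : ℝ, zz = 2 * eps + (1 : ℝ) := ⟨_, rfl⟩
  obtain ⟨Eh, e_Eh⟩ : ∃ zz : ℝ, zz = eps + (1 : ℝ) := ⟨_, rfl⟩
  obtain ⟨phux, e_phux⟩ : ∃ zz : ℝ, zz = (1 / 2) * (z * (2 * (S * v.nj) + (1 / 2) * v.t)) := ⟨_, rfl⟩
  obtain ⟨cu, e_cu⟩ : ∃ zz : ℝ, zz = (1 : ℝ) - xv * ((1 / 2 : ℝ) - xv * ((45812984491 / 1099511627776 : ℝ) - xv * ((1527099483 / 1099511627776 : ℝ) - xv * ((13634817 / 549755813888 : ℝ) - xv * ((302995 / 1099511627776 : ℝ) - xv * ((287 / 137438953472 : ℝ) - xv * ((3 / 274877906944 : ℝ) - xv * (1 / 1099511627776 : ℝ)))))))) := ⟨_, rfl⟩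
  obtain ⟨xe, e_xe⟩ : ∃ zz : ℝ, zz = xv * eps := ⟨_, rfl⟩
  obtain ⟨o2u, e_o2u⟩ : ∃ zz : ℝ, zz = q * q + (1 : ℝ) + 2 * (q * (cu + (43 / 128) * (xe * xe))) + 2 * th := ⟨_, rfl⟩
  obtain ⟨ooo, e_ooo⟩ : ∃ zz : ℝ, zz = Real.exp ((1 / 2) * Real.log (o2u + (1 / 128 : ℝ))) := ⟨_, rfl⟩
  obtain ⟨Q1, e_Q1⟩ : ∃ zz : ℝ, zz = ooo + q * eqx := ⟨_, rfl⟩
  obtain ⟨xa⟩ := exKa v2 eps 1 S G4 Qb Q1 ls lsx phux Ei Eh
  obtain ⟨srcx, e_srcx⟩ : ∃ zz : ℝ, zz = v.om1 * ((1 / 2) * (r * v2.bsum * v.aQ⁻¹)) + xa.kl := ⟨_, rfl⟩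
  obtain ⟨srcs, e_srcs⟩ : ∃ zz : ℝ, zz = v.t * srcx := ⟨_, rfl⟩
  obtain ⟨yb⟩ := exKb (7 * 10⁻¹) xa tr 1 gu srcs
  obtain ⟨pk⟩ := exPk v5 lv.rplo v3.hp hgp gu yb.yy
  obtain ⟨y1, e_y1⟩ : ∃ zz : ℝ, zz = z2 * pk.ye := ⟨_, rfl⟩
  obtain ⟨cl⟩ := exCl yb v.t 1 y1 srcx
  have hsc := sc_Ma hde' e_tz hu hee hde0 G.t0 hz0.le e_z2 e_r e_tr e_eps
  obtain ⟨hA0, hA⟩ := hA_Q G hsc e_G4
  have f := lv.f G hsc.hr
  obtain ⟨p_sg1, s0⟩ := (((((((((((((h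
    (1 : ℝ) zQMa_1099511627776_0
    tz e_tz
    de hde'
    v.u hu
    z2 e_z2
    r e_r
    eps e_eps
    tr e_tr
    (1 / 2 : ℝ) zQMa_549755813888_0
    v.tu v.e_tu
    (v.tu * v.n) rfl
    v.h (v.e_h.trans (congrArg (fun y : ℝ => y * (v.tu * v.n)) zQMa_549755813888_0))
    v.u2 v.e_u2
    (v.h * v.h) rfl
    v.jm v.e_jm).2
    v.j v.e_j
    (v.h * v.j) rfl
    v.K (v.e_K.trans (congrArg (fun y : ℝ => y * (v.h * v.j)) zQMa_2199023255552_0))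
    (2 * v.j) (congrArg (fun y : ℝ => y * v.j) zQMa_2199023255552_0)
    v.c0 v.e_c0
    v.m v.e_m
    v.nj v.e_nj
    v.om v.e_om
    v.om1 v.e_om1
    v.op1 v.e_op1
    v.R v.e_R
    v.nj2 v.e_nj2
    v2.Y (v2.e_Y.trans (congrArg (fun y : ℝ => y * v.h) zQMa_10774999203840_0))
    ((341 / 8192) * v2.Y) (congrArg (fun y : ℝ => y * v2.Y) zQMa_45768245248_0)
    (1365 / 8192 : ℝ) zQMa_183207198720_0
    ((341 / 8192) * v2.Y + (1365 / 8192 : ℝ)) rfl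
    (v2.Y * ((341 / 8192) * v2.Y + (1365 / 8192 : ℝ))) rfl
    ((1 / 2 : ℝ) + v2.Y * ((341 / 8192) * v2.Y + (1365 / 8192 : ℝ))) rfl
    (v2.Y * ((1 / 2 : ℝ) + v2.Y * ((341 / 8192) * v2.Y + (1365 / 8192 : ℝ)))) rfl
    v2.pY v2.e_pY
    (v2.Y * v2.pY) rfl
    ((1 / 2) * (v2.Y * v2.pY)) (congrArg (fun y : ℝ => y * (v2.Y * v2.pY)) zQMa_549755813888_0)
    ((1 : ℝ) + (1 / 2) * (v2.Y * v2.pY)) rfl
    v2.Yp v2.e_Yp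
    (v.K * v.om) rfl
    (2 * v.c0) (congrArg (fun y : ℝ => y * v.c0) zQMa_2199023255552_0)
    (v.K * v.om + 2 * v.c0) rfl
    v.Dt v.e_Dt
    v.D v.e_D
    v.SQ v.e_SQ
    (v.K * v.K) rfl
    (2 * (v.K * v.K)) (congrArg (fun y : ℝ => y * (v.K * v.K)) zQMa_2199023255552_0)
    v.c2 v.e_c2
    (v.c0 * v.Dt) rfl
    v.rhat v.e_rhat).2
    v.LQ v.e_LQ
    ((1 / 2) * v.LQ) (congrArg (fun y : ℝ => y * v.LQ) zQMa_549755813888_0)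
    v.aQ v.e_aQ
    (3 : ℝ) zQMa_3298534883328_0).2
    ((3 : ℝ)⁻¹) rfl
    ((1 : ℝ) * (3 : ℝ)⁻¹) rfl
    (2 : ℝ) zQMa_2199023255552_0
    (v.D + (2 : ℝ)) rfl).2
    ((v.D + (2 : ℝ))⁻¹) rfl
    l1.zL l1.e_zL
    l1.zz l1.e_zz
    ((1 : ℝ) - l1.zL) rfl
    (l1.zz * ((1 : ℝ) * (3 : ℝ)⁻¹)) rfl
    ((1 : ℝ) + l1.zz * ((1 : ℝ) * (3 : ℝ)⁻¹)) rfl
    l1.Lv l1.e_Lv
    (l1.zz * l1.zz) rfl
    l1.eL (l1.e_eL.trans (congrArg (fun y : ℝ => y * (l1.zz * l1.zz)) zQMa_219915747328_0))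
    (v.Dt * l1.Lv) rfl
    lv.rlo (lv.e_rlo.trans (congrArg (fun y : ℝ => y * (v.Dt * l1.Lv)) zQMa_549755813888_0))
    (v.Dt * l1.eL) rfl
    lv.er (lv.e_er.trans (congrArg (fun y : ℝ => y * (v.Dt * l1.eL)) zQMa_549755813888_0))
    lv.rhi lv.e_rhi
    (v.c0 * v.rhat) rfl
    lv.D2R (lv.e_D2R.trans (congrArg (fun y : ℝ => y * (v.c0 * v.rhat)) zQMa_4398046511104_0))
    (v.c0 * v.R) rfl
    (v.c0 * v.R * v.rhat) rfl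
    v.D2 (v.e_D2.trans (congrArg (fun y : ℝ => y * (v.c0 * v.R * v.rhat)) zQMa_4398046511104_0))
    (v.D2 + (2 : ℝ)) rfl).2
    ((v.D2 + (2 : ℝ))⁻¹) rfl
    l2.zL l2.e_zL
    l2.zz l2.e_zz
    ((1 : ℝ) - l2.zL) rfl
    (l2.zz * ((1 : ℝ) * (3 : ℝ)⁻¹)) rfl
    ((1 : ℝ) + l2.zz * ((1 : ℝ) * (3 : ℝ)⁻¹)) rfl
    l2.Lv l2.e_Lv
    (l2.zz * l2.zz) rfl
    l2.eL (l2.e_eL.trans (congrArg (fun y : ℝ => y * (l2.zz * l2.zz)) zQMa_219915747328_0))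
    (lv.D2R * l2.Lv) rfl
    ((1 / 2) * (lv.D2R * l2.Lv)) (congrArg (fun y : ℝ => y * (lv.D2R * l2.Lv)) zQMa_549755813888_0)
    lv.rplo lv.e_rplo
    (lv.D2R * l2.eL) rfl
    ((1 / 2) * (lv.D2R * l2.eL)) (congrArg (fun y : ℝ => y * (lv.D2R * l2.eL)) zQMa_549755813888_0)
    lv.erp lv.e_erp
    lv.rphi lv.e_rphi
    (r * lv.rlo) rfl
    (-(r * lv.rlo)) rfl
    q e_q
    (r * lv.er) rfl
    th e_th
    (v.om * v.K) rfl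
    (v.c0 + v.om * v.K) rfl).2
    v.ioK v.e_ioK
    v.h1t v.e_h1t
    (v.om1 * v.t) rfl
    v.h1 v.e_h1
    ((1 : ℝ) - v.u2) rfl
    v.f2 v.e_f2
    v.tu2 v.e_tu2
    ((1 : ℝ) - v.nj2) rfl
    v5.sn v5.e_sn
    (v.R * v.rhat) rfl).2
    (v.SQ⁻¹) rfl
    v5.R1 v5.e_R1
    (v.c0 + v5.R1) rfl
    v5.Qr v5.e_Qr
    (v5.Qr * v5.Qr) rfl).2
    ((v5.Qr * v5.Qr)⁻¹) rfl
    v5.Th v5.e_Th
    (v.c0 + v.R) rfl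
    (S * (v.c0 + v.R)) rfl).2
    ((S * (v.c0 + v.R))⁻¹) rfl
    wv e_w
    (wv * wv) rfl
    xv e_x
    (51 / 32 : ℝ) zQMa_1752346656768_0
    (83 : ℝ) zQMa_91259465105408_0
    (100 : ℝ) zQMa_109951162777600_0).2
    ((100 : ℝ)⁻¹) rfl
    ((83 : ℝ) * (100 : ℝ)⁻¹) rfl
    (v.u2 * ((1 : ℝ) - v.nj2)) rfl
    sg1 e_sg1
    (tz * tz) rfl
    (tz * tz * sg1) rfl
    (21 : ℝ) zQMa_23089744183296_0
    (10 : ℝ) zQMa_10995116277760_0).2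
    ((10 : ℝ)⁻¹) rfl
    ((21 : ℝ) * (10 : ℝ)⁻¹) rfl
    (r * ((21 : ℝ) * (10 : ℝ)⁻¹)) rfl
    (tz * tz * sg1 + r * ((21 : ℝ) * (10 : ℝ)⁻¹)) rfl
    epK e_epK
    ((5 / 8) * tz) (congrArg (fun y : ℝ => y * tz) zQMa_687194767360_0)
    ((5 / 8) * tz + (51 / 32 : ℝ)) rfl).2
    (((5 / 8) * tz + (51 / 32 : ℝ))⁻¹) rfl
    ((1 / 2) * ((83 : ℝ) * (100 : ℝ)⁻¹)) (congrArg (fun y : ℝ => y * ((83 : ℝ) * (100 : ℝ)⁻¹)) zQMa_549755813888_0)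
    (z * ((1 / 2) * ((83 : ℝ) * (100 : ℝ)⁻¹))) rfl
    Bk e_Bk
    ((1 : ℝ) - epK) rfl
    (Bk * ((1 : ℝ) - epK)) rfl).2
    lsk e_lsk
    (z * v.op1) rfl
    lsx e_lsx
    (v.t * lsx) rfl
    ls e_ls
    ((13 / 64) * ls) (congrArg (fun y : ℝ => y * ls) zQMa_223338299392_0)
    ((1 / 2 : ℝ) + (13 / 64) * ls) rfl
    (ls * ((1 / 2 : ℝ) + (13 / 64) * ls)) rfl
    ((1 : ℝ) + ls * ((1 / 2 : ℝ) + (13 / 64) * ls)) rfl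
    eqx e_eqx
    (eqx + (1 : ℝ)) rfl
    Qb e_Qb
    (98 : ℝ) zQMa_107752139522048_0
    ((98 : ℝ) * (100 : ℝ)⁻¹) rfl
    (sg1 - (98 : ℝ) * (100 : ℝ)⁻¹) rfl
  change 0 < sg1 - (98 : ℝ) * (100 : ℝ)⁻¹ at p_sg1
  obtain ⟨p_lsK, s1⟩ := s0
    ((5 / 8) * (1 : ℝ)) (congrArg (fun y : ℝ => y * (1 : ℝ)) zQMa_687194767360_0)
    ((5 / 8) * (1 : ℝ) - ls) rfl
  change 0 < (5 / 8) * (1 : ℝ) - ls at p_lsK
  obtain ⟨p_epK, s2⟩ := s1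
  change 0 < (1 : ℝ) - epK at p_epK
  obtain ⟨p_Yk, s3⟩ := s2
    (S * S) rfl
    (1764 : ℝ) zQMa_1939538511396864_0
    ((1764 : ℝ) * (100 : ℝ)⁻¹) rfl
    (S * S * ((1764 : ℝ) * (100 : ℝ)⁻¹)) rfl
    (S * S * ((1764 : ℝ) * (100 : ℝ)⁻¹) - v5.sn) rfl
  change 0 < S * S * ((1764 : ℝ) * (100 : ℝ)⁻¹) - v5.sn at p_Yk
  obtain ⟨p_ek, s4⟩ := s3
    (13 / 8192 : ℝ) zQMa_1744830464_0
    ((13 / 8192 : ℝ) - eps) rfl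
  change 0 < (13 / 8192 : ℝ) - eps at p_ek
  obtain ⟨p_KK, s5⟩ := s4
    (1 / 32 : ℝ) zQMa_34359738368_0
    ((1 / 32 : ℝ) - v.K) rfl
  change 0 < (1 / 32 : ℝ) - v.K at p_KK
  obtain ⟨p_bK, s6⟩ := s5
    (4 * S) (congrArg (fun y : ℝ => y * S) zQMa_4398046511104_0)
    (4 * S - v.nj) rfl
  change 0 < 4 * S - v.nj at p_bK
  obtain ⟨p_uK, s7⟩ := s6
    (1 / 4 : ℝ) zQMa_274877906944_0
    ((1 / 4 : ℝ) - v.u2) rfl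
  change 0 < (1 / 4 : ℝ) - v.u2 at p_uK
  obtain ⟨p_rplo, s8⟩ := (s7
    (v.om1 * v.op1) rfl
    (v.c0 + v.t) rfl
    (v.om * v.c0) rfl
    (v.om * v.c0 * v.K) rfl
    (2 * (v.om * v.c0 * v.K)) (congrArg (fun y : ℝ => y * (v.om * v.c0 * v.K)) zQMa_2199023255552_0)
    (v.c2 + 2 * (v.om * v.c0 * v.K)) rfl
    ((v.c0 + v.t) * (v.c2 + 2 * (v.om * v.c0 * v.K))) rfl).2
    (((v.c0 + v.t) * (v.c2 + 2 * (v.om * v.c0 * v.K)))⁻¹) rfl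
    v3.hpt v3.e_hpt
    v3.hp v3.e_hp
  change 0 < lv.rplo at p_rplo
  obtain ⟨p_lspa, s9⟩ := (((((((((((((s8
    hgp e_hgp
    gu e_gu
    (v.h + (1 : ℝ)) rfl).2
    v2.ih v2.e_ih
    (v.h * v2.ih) rfl
    v2.rh (v2.e_rh.trans (congrArg (fun y : ℝ => y * (v.h * v2.ih)) zQMa_2199023255552_0))
    v2.mi v2.e_mi
    v2.hm v2.e_hm
    v2.nih v2.e_nih
    (v2.nih * v2.mi) rfl
    v2.bsum v2.e_bsum
    ((209 / 1024) * v.j) (congrArg (fun y : ℝ => y * v.j) zQMa_224412041216_0)).2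
    (v2.Yp⁻¹) rfl
    v2.lm v2.e_lm
    ((1 : ℝ) * v.nj) rfl
    G4 e_G4).2
    xa.iG4 xa.e_iG4
    xa.alG xa.e_alG
    xa.AE xa.e_AE
    (xa.AE * v.op1) rfl
    xa.XeE xa.e_XeE
    (xa.alG * v.op1) rfl
    xa.XM xa.e_XM
    ((1 : ℝ) - xa.XM) rfl).2
    xa.iX xa.e_iX
    xa.QX xa.e_QX
    ((1 : ℝ) - xa.QX) rfl).2
    xa.iQX xa.e_iQX
    (2 * eps) (congrArg (fun y : ℝ => y * eps) zQMa_2199023255552_0)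
    Ei e_Ei
    Eh e_Eh
    (S * v.nj) rfl
    (2 * (S * v.nj)) (congrArg (fun y : ℝ => y * (S * v.nj)) zQMa_2199023255552_0)
    ((1 / 2) * v.t) (congrArg (fun y : ℝ => y * v.t) zQMa_549755813888_0)
    (2 * (S * v.nj) + (1 / 2) * v.t) rfl
    (z * (2 * (S * v.nj) + (1 / 2) * v.t)) rfl
    phux (e_phux.trans (congrArg (fun y : ℝ => y * (z * (2 * (S * v.nj) + (1 / 2) * v.t))) zQMa_549755813888_0))
    (v.h * v.nj) rfl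
    ((1 : ℝ) - v.f2) rfl
    (v.h * v.om) rfl
    (2 * (v.h * v.om)) (congrArg (fun y : ℝ => y * (v.h * v.om)) zQMa_2199023255552_0)
    ((1 : ℝ) - v.f2 - 2 * (v.h * v.om)) rfl
    (v.h * v.nj * (v.h * v.nj)) rfl
    xa.N1 xa.e_N1
    (xa.N1 + (1 : ℝ)) rfl
    xa.s (xa.e_s.trans (congrArg (fun y : ℝ => y * (xa.N1 + (1 : ℝ))) zQMa_549755813888_0))
    ((1 / 2) * v.R) (congrArg (fun y : ℝ => y * v.R) zQMa_549755813888_0)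
    (v.j - (1 / 2) * v.R) rfl
    (v.tu2 * ((1 : ℝ) - v.f2)) rfl
    (v.tu2 * ((1 : ℝ) - v.f2) * v.jm) rfl
    ((1 / 8) * (v.tu2 * ((1 : ℝ) - v.f2) * v.jm)) (congrArg (fun y : ℝ => y * (v.tu2 * ((1 : ℝ) - v.f2) * v.jm)) zQMa_137438953472_0)
    (v.j - (1 / 2) * v.R + (1 / 8) * (v.tu2 * ((1 : ℝ) - v.f2) * v.jm)) rfl
    xa.k0 xa.e_k0
    (1 / 1099511627776 : ℝ) zQMa_1_0
    (3 / 274877906944 : ℝ) zQMa_12_0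
    (xv * (1 / 1099511627776 : ℝ)) rfl
    ((3 / 274877906944 : ℝ) - xv * (1 / 1099511627776 : ℝ)) rfl
    (287 / 137438953472 : ℝ) zQMa_2296_0
    (xv * ((3 / 274877906944 : ℝ) - xv * (1 / 1099511627776 : ℝ))) rfl
    ((287 / 137438953472 : ℝ) - xv * ((3 / 274877906944 : ℝ) - xv * (1 / 1099511627776 : ℝ))) rfl
    (302995 / 1099511627776 : ℝ) zQMa_302995_0
    (xv * ((287 / 137438953472 : ℝ) - xv * ((3 / 274877906944 : ℝ) - xv * (1 / 1099511627776 : ℝ)))) rfl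
    ((302995 / 1099511627776 : ℝ) - xv * ((287 / 137438953472 : ℝ) - xv * ((3 / 274877906944 : ℝ) - xv * (1 / 1099511627776 : ℝ)))) rfl
    (13634817 / 549755813888 : ℝ) zQMa_27269634_0
    (xv * ((302995 / 1099511627776 : ℝ) - xv * ((287 / 137438953472 : ℝ) - xv * ((3 / 274877906944 : ℝ) - xv * (1 / 1099511627776 : ℝ))))) rfl
    ((13634817 / 549755813888 : ℝ) - xv * ((302995 / 1099511627776 : ℝ) - xv * ((287 / 137438953472 : ℝ) - xv * ((3 / 274877906944 : ℝ) - xv * (1 / 1099511627776 : ℝ))))) rfl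
    (1527099483 / 1099511627776 : ℝ) zQMa_1527099483_0
    (xv * ((13634817 / 549755813888 : ℝ) - xv * ((302995 / 1099511627776 : ℝ) - xv * ((287 / 137438953472 : ℝ) - xv * ((3 / 274877906944 : ℝ) - xv * (1 / 1099511627776 : ℝ)))))) rfl
    ((1527099483 / 1099511627776 : ℝ) - xv * ((13634817 / 549755813888 : ℝ) - xv * ((302995 / 1099511627776 : ℝ) - xv * ((287 / 137438953472 : ℝ) - xv * ((3 / 274877906944 : ℝ) - xv * (1 / 1099511627776 : ℝ)))))) rfl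
    (45812984491 / 1099511627776 : ℝ) zQMa_45812984491_0
    (xv * ((1527099483 / 1099511627776 : ℝ) - xv * ((13634817 / 549755813888 : ℝ) - xv * ((302995 / 1099511627776 : ℝ) - xv * ((287 / 137438953472 : ℝ) - xv * ((3 / 274877906944 : ℝ) - xv * (1 / 1099511627776 : ℝ))))))) rfl
    ((45812984491 / 1099511627776 : ℝ) - xv * ((1527099483 / 1099511627776 : ℝ) - xv * ((13634817 / 549755813888 : ℝ) - xv * ((302995 / 1099511627776 : ℝ) - xv * ((287 / 137438953472 : ℝ) - xv * ((3 / 274877906944 : ℝ) - xv * (1 / 1099511627776 : ℝ))))))) rfl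
    (xv * ((45812984491 / 1099511627776 : ℝ) - xv * ((1527099483 / 1099511627776 : ℝ) - xv * ((13634817 / 549755813888 : ℝ) - xv * ((302995 / 1099511627776 : ℝ) - xv * ((287 / 137438953472 : ℝ) - xv * ((3 / 274877906944 : ℝ) - xv * (1 / 1099511627776 : ℝ)))))))) rfl
    ((1 / 2 : ℝ) - xv * ((45812984491 / 1099511627776 : ℝ) - xv * ((1527099483 / 1099511627776 : ℝ) - xv * ((13634817 / 549755813888 : ℝ) - xv * ((302995 / 1099511627776 : ℝ) - xv * ((287 / 137438953472 : ℝ) - xv * ((3 / 274877906944 : ℝ) - xv * (1 / 1099511627776 : ℝ)))))))) rfl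
    (xv * ((1 / 2 : ℝ) - xv * ((45812984491 / 1099511627776 : ℝ) - xv * ((1527099483 / 1099511627776 : ℝ) - xv * ((13634817 / 549755813888 : ℝ) - xv * ((302995 / 1099511627776 : ℝ) - xv * ((287 / 137438953472 : ℝ) - xv * ((3 / 274877906944 : ℝ) - xv * (1 / 1099511627776 : ℝ))))))))) rfl
    cu e_cu
    xe e_xe
    (q * q) rfl
    (q * q + (1 : ℝ)) rfl
    (xe * xe) rfl
    ((43 / 128) * (xe * xe)) (congrArg (fun y : ℝ => y * (xe * xe)) zQMa_369367187456_0)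
    (cu + (43 / 128) * (xe * xe)) rfl
    (q * (cu + (43 / 128) * (xe * xe))) rfl
    (2 * (q * (cu + (43 / 128) * (xe * xe)))) (congrArg (fun y : ℝ => y * (q * (cu + (43 / 128) * (xe * xe)))) zQMa_2199023255552_0)
    (q * q + (1 : ℝ) + 2 * (q * (cu + (43 / 128) * (xe * xe)))) rfl
    (2 * th) (congrArg (fun y : ℝ => y * th) zQMa_2199023255552_0)
    o2u e_o2u
    (1 / 128 : ℝ) zQMa_8589934592_0
    (o2u + (1 / 128 : ℝ)) rfl).2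
    (Real.log (o2u + (1 / 128 : ℝ))) rfl
    ((1 / 2) * Real.log (o2u + (1 / 128 : ℝ))) (congrArg (fun y : ℝ => y * Real.log (o2u + (1 / 128 : ℝ))) zQMa_549755813888_0)
    ooo e_ooo
    (q * eqx) rfl
    Q1 e_Q1
    (Q1 * xa.iX) rfl
    (Qb * xa.iQX) rfl
    (Q1 * xa.iX + Qb * xa.iQX) rfl
    (xa.XM * (Q1 * xa.iX + Qb * xa.iQX)) rfl
    (ls + xa.XM * (Q1 * xa.iX + Qb * xa.iQX)) rfl
    xa.a0 xa.e_a0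
    (Q1 * xa.XM) rfl
    (Q1 * xa.XM * xa.iX) rfl
    (ls + Q1 * xa.XM * xa.iX) rfl
    xa.l1 xa.e_l1
    ((13 / 64) * xa.l1) (congrArg (fun y : ℝ => y * xa.l1) zQMa_223338299392_0)
    ((1 / 2 : ℝ) + (13 / 64) * xa.l1) rfl
    (xa.l1 * ((1 / 2 : ℝ) + (13 / 64) * xa.l1)) rfl
    xa.Na xa.e_Na
    ((13 / 16) * xa.a0) (congrArg (fun y : ℝ => y * xa.a0) zQMa_893353197568_0)
    ((1 : ℝ) + (13 / 16) * xa.a0) rfl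
    (xa.a0 * ((1 : ℝ) + (13 / 16) * xa.a0)) rfl
    xa.Nb xa.e_Nb
    (v2.rh * v2.nih) rfl
    (v2.rh * v2.nih * Ei) rfl
    xa.rn xa.e_rn
    (xa.k0 * xa.Na) rfl
    (v.aQ + (1 / 2 : ℝ)) rfl
    (xa.rn * (v.aQ + (1 / 2 : ℝ))) rfl
    xa.ka xa.e_ka
    (v.aQ + (1 : ℝ)) rfl
    xa.kb xa.e_kb
    (Eh * (v.aQ + (1 : ℝ))) rfl
    (Eh * (v.aQ + (1 : ℝ)) * v2.nih) rfl
    xa.lfk xa.e_lfk
    (xa.ka * lsx) rfl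
    (xa.lfk * phux) rfl
    xa.kl xa.e_kl
    (r * v2.bsum) rfl).2
    (v.aQ⁻¹) rfl
    (r * v2.bsum * v.aQ⁻¹) rfl
    ((1 / 2) * (r * v2.bsum * v.aQ⁻¹)) (congrArg (fun y : ℝ => y * (r * v2.bsum * v.aQ⁻¹)) zQMa_549755813888_0)
    (v.om1 * ((1 / 2) * (r * v2.bsum * v.aQ⁻¹))) rfl
    srcx e_srcx
    srcs e_srcs
    yb.src yb.e_src
    (xa.ka * Q1) rfl
    (xa.ka * Q1 * xa.iX) rfl
    (xa.kb * Qb) rfl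
    (xa.kb * Qb * xa.iQX) rfl
    yb.fxe yb.e_fxe
    (v.om1 * yb.src) rfl
    (xa.XeE * yb.fxe) rfl
    yb.epd yb.e_epd
    (v.tu2 * yb.epd) rfl
    (v.tu2 * yb.epd * v.aQ⁻¹) rfl
    ((1 : ℝ) - v.tu2 * yb.epd * v.aQ⁻¹) rfl).2
    yb.NN yb.e_NN
    yb.eN yb.e_eN
    yb.d yb.e_d
    yb.eta yb.e_eta
    (yb.eta * v.aQ⁻¹) rfl
    ((1 : ℝ) - yb.eta * v.aQ⁻¹) rfl
    (v.rhat * ((1 : ℝ) - yb.eta * v.aQ⁻¹)) rfl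
    yb.rl yb.e_rl).2
    yb.irl yb.e_irl
    yb.yy yb.e_yy
    (v.aQ - yb.eta) rfl).2
    yb.q0 yb.e_q0
    yb.zp yb.e_zp
    ((1 / 2) * yb.zp) (congrArg (fun y : ℝ => y * yb.zp) zQMa_549755813888_0)
    ((1 : ℝ) - (1 / 2) * yb.zp) rfl
    ((1 : ℝ) - yb.zp) rfl).2
    (((1 : ℝ) - yb.zp)⁻¹) rfl
    yb.kzp yb.e_kzp
    (v.u * yb.q0) rfl
    (gu * yb.irl) rfl
    (gu * yb.irl * yb.kzp) rfl
    yb.Cu yb.e_Cu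
    (tr * yb.eN) rfl
    (yb.q0 * (tr * yb.eN)) rfl
    ((1 : ℝ) * yb.irl) rfl
    ((1 : ℝ) * yb.irl * yb.kzp) rfl
    ((1 : ℝ) * yb.irl * yb.kzp * yb.d) rfl
    yb.rr yb.e_rr
    ((13 / 64) * yb.rr) (congrArg (fun y : ℝ => y * yb.rr) zQMa_223338299392_0)
    ((1 / 2 : ℝ) + (13 / 64) * yb.rr) rfl
    (yb.rr * ((1 / 2 : ℝ) + (13 / 64) * yb.rr)) rfl
    ((1 : ℝ) + yb.rr * ((1 / 2 : ℝ) + (13 / 64) * yb.rr)) rfl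
    (yb.Cu * ((1 : ℝ) + yb.rr * ((1 / 2 : ℝ) + (13 / 64) * yb.rr))) rfl
    yb.CuN yb.e_CuN
    yb.fbt yb.e_fbt
    yb.XLt yb.e_XLt
    (7 : ℝ) zQMa_7696581394432_0
    yb.beta yb.e_beta
    ((v.h + (1 : ℝ)) * v.op1) rfl
    yb.b1 yb.e_b1
    pk.omr pk.e_omr
    pk.omp pk.e_omp
    ((1 / 2) * hgp) (congrArg (fun y : ℝ => y * hgp) zQMa_549755813888_0)
    ((1 : ℝ) - (1 / 2) * hgp) rfl
    ((1 : ℝ) - hgp) rfl).2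
    (((1 : ℝ) - hgp)⁻¹) rfl
    (((1 : ℝ) - (1 / 2) * hgp) * ((1 : ℝ) - hgp)⁻¹) rfl
    pk.lspf pk.e_lspf
    (v.tu2 * v5.Th) rfl
    ((2731 / 4096) * (v.tu2 * v5.Th)) (congrArg (fun y : ℝ => y * (v.tu2 * v5.Th)) zQMa_733097230336_0)
    ((1 : ℝ) - (2731 / 4096) * (v.tu2 * v5.Th)) rfl
    (v5.Th * ((1 : ℝ) - (2731 / 4096) * (v.tu2 * v5.Th))) rfl
    (lv.rplo * lv.rplo) rfl
    (v.u2 * (lv.rplo * lv.rplo)) rfl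
    pk.E0 pk.e_E0
    pk.lspa pk.e_lspa
    (pk.E0 + (1 : ℝ)) rfl
    (pk.lspa * (pk.E0 + (1 : ℝ))) rfl
    (pk.E0 - pk.lspa * (pk.E0 + (1 : ℝ))) rfl
    ((2731 / 8192) * (v.K * v.K)) (congrArg (fun y : ℝ => y * (v.K * v.K)) zQMa_366548615168_0)
    ((1 : ℝ) - (2731 / 8192) * (v.K * v.K)) rfl
    (v.nj2 * ((1 : ℝ) - (2731 / 8192) * (v.K * v.K))) rfl
    (pk.E0 - pk.lspa * (pk.E0 + (1 : ℝ)) + v.nj2 * ((1 : ℝ) - (2731 / 8192) * (v.K * v.K))) rfl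
    (pk.omr * (pk.E0 - pk.lspa * (pk.E0 + (1 : ℝ)) + v.nj2 * ((1 : ℝ) - (2731 / 8192) * (v.K * v.K)))) rfl
    (pk.omp * pk.omp) rfl
    ((1 : ℝ) + pk.omp * pk.omp) rfl).2
    (((1 : ℝ) + pk.omp * pk.omp)⁻¹) rfl
    pk.pe pk.e_pe
    ((1 : ℝ) - yb.yy) rfl
    pk.ye pk.e_ye
    ((1 : ℝ) - pk.lspa) rfl
  change 0 < (1 : ℝ) - pk.lspa at p_lspa
  obtain ⟨p_pe, s10⟩ := s9
  change 0 < pk.pe at p_pe
  obtain ⟨p_yy, s11⟩ := s10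
  change 0 < (1 : ℝ) - yb.yy at p_yy
  obtain ⟨p_XM, s12⟩ := (((((s11
    (yb.CuN * G4) rfl
    (yb.CuN * G4 * srcx) rfl).2
    (v.op1⁻¹) rfl
    cl.FXt cl.e_FXt
    y1 e_y1
    (v.t * y1) rfl
    ((1 / 2) * (v.t * y1)) (congrArg (fun y : ℝ => y * (v.t * y1)) zQMa_549755813888_0)
    ((1 : ℝ) - (1 / 2) * (v.t * y1)) rfl
    (y1 * ((1 : ℝ) - (1 / 2) * (v.t * y1))) rfl
    cl.S1 cl.e_S1
    (v.u * v.n) rfl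
    (v.u * v.n * (v.h + (1 : ℝ))) rfl
    (v.u * v.n * (v.h + (1 : ℝ)) * v.j) rfl
    cl.a4 cl.e_a4
    (cl.S1 + cl.a4) rfl
    (cl.S1 * cl.a4) rfl
    (v.t * (cl.S1 * cl.a4)) rfl
    cl.S4 cl.e_S4
    cl.Dh cl.e_Dh
    ((3 / 8) * v.D) (congrArg (fun y : ℝ => y * v.D) zQMa_412316860416_0)
    ((1 / 2 : ℝ) - (3 / 8) * v.D) rfl
    (cl.Dh * ((1 / 2 : ℝ) - (3 / 8) * v.D)) rfl
    ((1 : ℝ) * (cl.Dh * ((1 / 2 : ℝ) - (3 / 8) * v.D))) rfl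
    cl.a5 cl.e_a5
    (cl.S4 + cl.a5) rfl
    (cl.S4 * cl.a5) rfl
    (v.t * (cl.S4 * cl.a5)) rfl
    cl.S5 cl.e_S5
    (v.u * yb.eN) rfl
    (v.u * yb.eN * v.op1⁻¹) rfl
    cl.a6 cl.e_a6
    (cl.S5 + cl.a6) rfl
    (cl.S5 * cl.a6) rfl
    (v.t * (cl.S5 * cl.a6)) rfl
    cl.S6 cl.e_S6
    cl.a7 cl.e_a7
    (cl.S6 - cl.a7) rfl
    (v.t * yb.b1) rfl
    ((1 : ℝ) + v.t * yb.b1) rfl).2
    (((1 : ℝ) + v.t * yb.b1)⁻¹) rfl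
    cl.S7 cl.e_S7
    (v.u * v.tu) rfl
    (v.u * v.tu * yb.eN) rfl
    (v.u * v.tu * yb.eN * yb.q0) rfl
    cl.a8 cl.e_a8
    (cl.S7 + cl.a8) rfl
    (cl.S7 * cl.a8) rfl
    (v.t * (cl.S7 * cl.a8)) rfl
    cl.S8 cl.e_S8
    (v.t * cl.S8) rfl
    cl.c1 cl.e_c1
    (yb.fbt * xa.XM) rfl
    (v.t * yb.XLt) rfl
    (cl.FXt * (v.t * yb.XLt)) rfl
    (yb.fbt * xa.XM + cl.FXt * (v.t * yb.XLt)) rfl
    cl.rt cl.e_rt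
    (yb.fbt + cl.FXt) rfl
    cl.fm cl.e_fm
    (cl.rt * cl.c1) rfl
    (cl.S8 + cl.rt * cl.c1) rfl
    (cl.S8 + cl.rt * cl.c1 + cl.fm) rfl
    cl.Bm cl.e_Bm
    ((1 / 1024) * (1 : ℝ)) (congrArg (fun y : ℝ => y * (1 : ℝ)) zQMa_1073741824_0)
    (cl.Bm - (1 / 1024) * (1 : ℝ)) rfl
    yb.m1 yb.e_m1
    (yb.m1 + (2 : ℝ)) rfl
    (2 * yb.beta) (congrArg (fun y : ℝ => y * yb.beta) zQMa_2199023255552_0)
    (yb.m1 + (2 : ℝ) - 2 * yb.beta) rfl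
    ((v.h + (1 : ℝ)) * (yb.m1 + (2 : ℝ) - 2 * yb.beta)) rfl
    (yb.m1 * (2 * yb.beta)) rfl
    (yb.m1 * (2 * yb.beta) + (1 : ℝ)) rfl).2
    ((yb.m1 * (2 * yb.beta) + (1 : ℝ))⁻¹) rfl
    ((v.h + (1 : ℝ)) * (yb.m1 + (2 : ℝ) - 2 * yb.beta) * (yb.m1 * (2 * yb.beta) + (1 : ℝ))⁻¹) rfl
    (xa.AE * yb.fxe) rfl
    ((1 / 2) * v2.lm) (congrArg (fun y : ℝ => y * v2.lm) zQMa_549755813888_0)
    (v.K + (1 / 2) * v2.lm) rfl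
    (xa.AE * yb.fxe * (v.K + (1 / 2) * v2.lm)) rfl
    (2 * (xa.AE * yb.fxe * (v.K + (1 / 2) * v2.lm))) (congrArg (fun y : ℝ => y * (xa.AE * yb.fxe * (v.K + (1 / 2) * v2.lm))) zQMa_2199023255552_0)
    (yb.src + 2 * (xa.AE * yb.fxe * (v.K + (1 / 2) * v2.lm))) rfl
    (2 * (yb.src + 2 * (xa.AE * yb.fxe * (v.K + (1 / 2) * v2.lm)))) (congrArg (fun y : ℝ => y * (yb.src + 2 * (xa.AE * yb.fxe * (v.K + (1 / 2) * v2.lm)))) zQMa_2199023255552_0)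
    (2 * (yb.src + 2 * (xa.AE * yb.fxe * (v.K + (1 / 2) * v2.lm))) * yb.NN) rfl
    (v.tu * yb.eN) rfl
    (v.op1 - v.tu * yb.eN) rfl).2
    ((v.op1 - v.tu * yb.eN)⁻¹) rfl
    (2 * (yb.src + 2 * (xa.AE * yb.fxe * (v.K + (1 / 2) * v2.lm))) * yb.NN * (v.op1 - v.tu * yb.eN)⁻¹) rfl
    yb.V yb.e_V
    ((1 : ℝ) * v.nj * ((1 : ℝ) * v.nj)) rfl
    (13 : ℝ) zQMa_14293651161088_0
    ((13 : ℝ) * (10 : ℝ)⁻¹) rfl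
    ((1 : ℝ) * v.nj * ((1 : ℝ) * v.nj) * ((13 : ℝ) * (10 : ℝ)⁻¹)) rfl
    (25 * (S * S)) (congrArg (fun y : ℝ => y * (S * S)) zQMa_27487790694400_0)
    yb.C2 yb.e_C2
    yb.gr yb.e_gr
    (2 * v.c0 - v.t) rfl
    yb.Gt yb.e_Gt
    ((1 : ℝ) * v.u) rfl
    yb.au yb.e_au
    (v.op1 * yb.fxe) rfl
    (v.op1 * yb.fxe * xa.iG4) rfl
    yb.inner yb.e_inner
    (v.tu * yb.eN + (2 : ℝ)) rfl
    yb.ezs yb.e_ezs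
    (yb.C2 * yb.gr) rfl
    (yb.NN * yb.ezs) rfl
    (yb.au * yb.inner) rfl
    (yb.NN * yb.ezs * (yb.au * yb.inner)) rfl
    yb.Rg0 yb.e_Rg0
    ((1 / 2) * (v.tu * yb.eN)) (congrArg (fun y : ℝ => y * (v.tu * yb.eN)) zQMa_549755813888_0)
    ((1 : ℝ) + (1 / 2) * (v.tu * yb.eN)) rfl
    (yb.NN * ((1 : ℝ) + (1 / 2) * (v.tu * yb.eN))) rfl
    (v.t * v.om1) rfl
    (v.t * v.om1 * v2.bsum) rfl
    (v.op1 * v.aQ) rfl).2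
    ((v.op1 * v.aQ)⁻¹) rfl
    (v.t * v.om1 * v2.bsum * (v.op1 * v.aQ)⁻¹) rfl
    (yb.NN * ((1 : ℝ) + (1 / 2) * (v.tu * yb.eN)) * (v.t * v.om1 * v2.bsum * (v.op1 * v.aQ)⁻¹)) rfl
    yb.Rh yb.e_Rh
    (v2.lm * yb.Rg0) rfl
    ((1 : ℝ) - v2.lm) rfl
    (v.u2 * yb.Rh) rfl
    (((1 : ℝ) - v2.lm) * (v.u2 * yb.Rh)) rfl
    (yb.C2 * (((1 : ℝ) - v2.lm) * (v.u2 * yb.Rh))) rfl
    yb.Rg yb.e_Rg
  change 0 < (1 : ℝ) - xa.XM at p_XM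
  obtain ⟨p_QX, s13⟩ := s12
  change 0 < (1 : ℝ) - xa.QX at p_QX
  obtain ⟨p_e2, s14⟩ := s13
    (2 * (v.tu2 * yb.epd)) (congrArg (fun y : ℝ => y * (v.tu2 * yb.epd)) zQMa_2199023255552_0)
    (v.aQ - 2 * (v.tu2 * yb.epd)) rfl
  change 0 < v.aQ - 2 * (v.tu2 * yb.epd) at p_e2
  obtain ⟨p_rl, s15⟩ := s14
  change 0 < yb.rl at p_rl
  obtain ⟨p_hgp, s16⟩ := s15
    ((1 / 2 : ℝ) - hgp) rfl
  change 0 < (1 / 2 : ℝ) - hgp at p_hgp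
  obtain ⟨p_l1, s17⟩ := s16
    ((5 / 8) * (1 : ℝ) - xa.l1) rfl
  change 0 < (5 / 8) * (1 : ℝ) - xa.l1 at p_l1
  obtain ⟨p_a0, s18⟩ := s17
    ((11 / 32) * (1 : ℝ)) (congrArg (fun y : ℝ => y * (1 : ℝ)) zQMa_377957122048_0)
    ((11 / 32) * (1 : ℝ) - xa.a0) rfl
  change 0 < (11 / 32) * (1 : ℝ) - xa.a0 at p_a0
  obtain ⟨p_S, s19⟩ := s18
  change 0 < v.op1 - v.tu * yb.eN at p_S
  obtain ⟨p_zp, s20⟩ := s19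
  change 0 < (1 : ℝ) - yb.zp at p_zp
  obtain ⟨p_rr, s21⟩ := s20
    ((5 / 8) * (1 : ℝ) - yb.rr) rfl
  change 0 < (5 / 8) * (1 : ℝ) - yb.rr at p_rr
  obtain ⟨p_V, s22⟩ := s21
  change 0 < yb.V at p_V
  obtain ⟨p_B, s23⟩ := s22
  change 0 < cl.Bm - (1 / 1024) * (1 : ℝ) at p_B
  obtain ⟨p_Rg, s24⟩ := s23
  change 0 < yb.Rg at p_Rg
  obtain ⟨p_Rh, s25⟩ := s24
  change 0 < yb.Rh at p_Rh
  have hQ := qb_s G f lv.e_rhi e_q e_th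
  have hq := hQ.le
  have hq0 : 0 < q := lt_of_lt_of_le (by rw [G.q_eq]; exact G.q0) hq
  have hγp := gam_le_one G.e0 G.κ0 (shf_re' G.κ0 G.s0)
  have hoo := oo_sharp8 G.κ0 G.s0 hQ (Qre0 G) hsc.ee (x_eq G v5 hsc e_w e_x) e_cu e_xe e_o2u e_ooo
  have hC : Pool.Agent.helper31.EQB.MC v.e κ (21 / 5) 1 (81 / 100) (83 * 100⁻¹) := by
    have h9 : (83 * 100⁻¹ : ℝ) = 83 / 100 := by norm_num
    rw [h9]; exact mc_K2 G hsc p_ek p_KK p_bK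
  obtain ⟨hl, hlx0⟩ := ls_K G hsc hC (by norm_num) (by norm_num) e_tz hde' e_eps (by rw [e_r, e_z2]) hz0 e_sg1 e_epK e_Bk e_lsk e_lsx e_ls p_sg1 p_epK (by rw [← v5.e_sn]; exact p_Yk) p_uK
  have hn1 : ‖1 + qq v.e κ (shf κ τ)‖ ≤ Q1 := by
    rw [e_Q1]; exact n1_sharp8 G.e0 G.κ0 G.s0 hq hoo (ratio_le G.e0 G.κ0 G.s0 hl p_lsK e_eqx)
  have fr := fr_K G hl hlx0 hq hq0 e_ls p_lsK e_eqx e_Qb hn1
  have hgu : 1 * gu = 1 * S := by rw [e_gu]; ring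
  obtain ⟨lf0, Ex, hφ⟩ := ph_slz G v2 hsc e_tz hde' hu hz0 he2 (by norm_num) (by norm_num) (by norm_num) e_phux e_Ei e_Eh
  have as8 : As8 xa yb := ⟨p_XM, p_QX, p_e2, p_rl, p_l1, p_a0, p_S, p_zp, p_rr, p_V, p_Rg, p_Rh⟩
  exact far_Cl G D hsc hA0 hA as8 fr hgu hγp hφ pk f p_rplo e_hgp p_hgp p_lspa p_pe p_yy cl e_srcx e_srcs
    (mul_one v.t) G.t0 (by linear_combination v.t * e_y1 - pk.ye * e_r) p_B

theorem far_QMa10 {κ : ℝ} {τ : ℂ} {R w : ℝ} {v : B1} (D : PtE (7 * 10⁻¹) v.e κ τ R w)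
    (G : Geo κ (shf κ τ) v) (v2 : B2 v) (v3 : B3 v) (v5 : V5 v) {l1 : Lg v.D} {l2 : Lg v.D2}
    (lv : LV v l1 l2) (he2 : 2 ≤ v.e) {S z de : ℝ}
    (hde0 : 0 < de) (hde : de = v.t * z * S) (hu : v.u = z * de) (hz0 : 0 < z)
    (hee : v.e * (de * de) = 1)
    (h : RAs Pool.Agent.helper71.FJ.Crt.QMa.prog10 [S, v.t, z, v.n]) :
    FarPt v.e κ (1 - Real.sinh κ / 1024) w (2 * AQ v.e v.K * Real.sinh κ ^ 2) R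
      (RE v.e κ (w * R)) τ := by
  obtain ⟨tz, e_tz⟩ : ∃ zz : ℝ, zz = v.t * z := ⟨_, rfl⟩
  have hde' : de = tz * S := by rw [e_tz]; exact hde
  obtain ⟨z2, e_z2⟩ : ∃ zz : ℝ, zz = z * z := ⟨_, rfl⟩
  obtain ⟨r, e_r⟩ : ∃ zz : ℝ, zz = v.t * z2 := ⟨_, rfl⟩
  obtain ⟨eps, e_eps⟩ : ∃ zz : ℝ, zz = de * de := ⟨_, rfl⟩
  obtain ⟨tr, e_tr⟩ : ∃ zz : ℝ, zz = v.t * r := ⟨_, rfl⟩
  obtain ⟨q, e_q⟩ : ∃ zz : ℝ, zz = Real.exp (-(r * lv.rlo)) := ⟨_, rfl⟩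
  obtain ⟨th, e_th⟩ : ∃ zz : ℝ, zz = q * (r * lv.er) := ⟨_, rfl⟩
  obtain ⟨qp, e_qp⟩ : ∃ zz : ℝ, zz = Real.exp (-(r * lv.rplo)) := ⟨_, rfl⟩
  obtain ⟨thp, e_thp⟩ : ∃ zz : ℝ, zz = qp * (r * lv.erp) := ⟨_, rfl⟩
  obtain ⟨wv, e_w⟩ : ∃ zz : ℝ, zz = (1 : ℝ) * (S * (v.c0 + v.R))⁻¹ := ⟨_, rfl⟩
  obtain ⟨xv, e_x⟩ : ∃ zz : ℝ, zz = wv * wv * v5.sn := ⟨_, rfl⟩
  obtain ⟨xe, e_xe⟩ : ∃ zz : ℝ, zz = xv * eps := ⟨_, rfl⟩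
  obtain ⟨xee, e_xee⟩ : ∃ zz : ℝ, zz = xe * eps := ⟨_, rfl⟩
  obtain ⟨xl, e_xl⟩ : ∃ zz : ℝ, zz = xv * ((1 : ℝ) - (2731 / 4096) * xee) := ⟨_, rfl⟩
  obtain ⟨cc, e_cc⟩ : ∃ zz : ℝ, zz = (1 : ℝ) - xl * ((1 / 2 : ℝ) - xl * ((22906492245 / 549755813888 : ℝ) - xl * ((381774871 / 274877906944 : ℝ) - xl * ((27269633 / 1099511627776 : ℝ) - xl * ((75749 / 274877906944 : ℝ) - xl * ((2295 / 1099511627776 : ℝ) - xl * (13 / 1099511627776 : ℝ))))))) := ⟨_, rfl⟩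
  obtain ⟨b⟩ := exGE q th cc v.h1
  obtain ⟨gv, e_g⟩ : ∃ zz : ℝ, zz = (1 / 2) * ((((1 : ℝ) - q) * b.q1 + 2 * th) * b.W⁻¹) := ⟨_, rfl⟩
  obtain ⟨ga, e_ga⟩ : ∃ zz : ℝ, zz = gv * (gv + (1 / 2 : ℝ))⁻¹ := ⟨_, rfl⟩
  obtain ⟨hg, e_hg⟩ : ∃ zz : ℝ, zz = v.h1 * ga := ⟨_, rfl⟩
  obtain ⟨lsf, e_lsf⟩ : ∃ zz : ℝ, zz = ((1 : ℝ) - (1 / 2) * hg) * ((1 : ℝ) - hg)⁻¹ := ⟨_, rfl⟩
  obtain ⟨Qb, e_Qb⟩ : ∃ zz : ℝ, zz = q * (hg + (1 : ℝ)) := ⟨_, rfl⟩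
  obtain ⟨lsx, e_lsx⟩ : ∃ zz : ℝ, zz = v.h1t * lsf * ga := ⟨_, rfl⟩
  obtain ⟨ls, e_ls⟩ : ∃ zz : ℝ, zz = hg * lsf := ⟨_, rfl⟩
  obtain ⟨wpv, e_wp⟩ : ∃ zz : ℝ, zz = (1 : ℝ) * (S * v5.Qr)⁻¹ := ⟨_, rfl⟩
  obtain ⟨xpv, e_xp⟩ : ∃ zz : ℝ, zz = wpv * wpv * v5.sn := ⟨_, rfl⟩
  obtain ⟨xeep, e_xeep⟩ : ∃ zz : ℝ, zz = xpv * eps * eps := ⟨_, rfl⟩
  obtain ⟨xlp, e_xlp⟩ : ∃ zz : ℝ, zz = xpv * ((1 : ℝ) - (2731 / 4096) * xeep) := ⟨_, rfl⟩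
  obtain ⟨ccp, e_ccp⟩ : ∃ zz : ℝ, zz = (1 : ℝ) - xlp * ((1 / 2 : ℝ) - xlp * ((22906492245 / 549755813888 : ℝ) - xlp * ((381774871 / 274877906944 : ℝ) - xlp * ((27269633 / 1099511627776 : ℝ) - xlp * ((75749 / 274877906944 : ℝ) - xlp * ((2295 / 1099511627776 : ℝ) - xlp * (13 / 1099511627776 : ℝ))))))) := ⟨_, rfl⟩
  obtain ⟨b'⟩ := exGE qp thp ccp v3.hp
  obtain ⟨gpv, e_gp⟩ : ∃ zz : ℝ, zz = (1 / 2) * ((((1 : ℝ) - qp) * b'.q1 + 2 * thp) * b'.W⁻¹) := ⟨_, rfl⟩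
  obtain ⟨gap, e_gap⟩ : ∃ zz : ℝ, zz = gpv * (gpv + (1 / 2 : ℝ))⁻¹ := ⟨_, rfl⟩
  obtain ⟨hgp, e_hgp⟩ : ∃ zz : ℝ, zz = v3.hp * gap := ⟨_, rfl⟩
  obtain ⟨gu, e_gu⟩ : ∃ zz : ℝ, zz = gap * S := ⟨_, rfl⟩
  obtain ⟨G4, e_G4⟩ : ∃ zz : ℝ, zz = 4 * S + (1 : ℝ) * v.nj := ⟨_, rfl⟩
  obtain ⟨Ei, e_Ei⟩ : ∃ zz : ℝ, zz = 2 * eps + (1 : ℝ) := ⟨_, rfl⟩
  obtain ⟨Eh, e_Eh⟩ : ∃ zz : ℝ, zz = eps + (1 : ℝ) := ⟨_, rfl⟩
  obtain ⟨phux, e_phux⟩ : ∃ zz : ℝ, zz = (1 / 2) * (z * (1 * (S * v.nj) + 1 * v.t)) := ⟨_, rfl⟩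
  obtain ⟨cu, e_cu⟩ : ∃ zz : ℝ, zz = (1 : ℝ) - xv * ((1 / 2 : ℝ) - xv * ((45812984491 / 1099511627776 : ℝ) - xv * ((1527099483 / 1099511627776 : ℝ) - xv * ((13634817 / 549755813888 : ℝ) - xv * ((302995 / 1099511627776 : ℝ) - xv * ((287 / 137438953472 : ℝ) - xv * ((3 / 274877906944 : ℝ) - xv * (1 / 1099511627776 : ℝ)))))))) := ⟨_, rfl⟩
  obtain ⟨o2u, e_o2u⟩ : ∃ zz : ℝ, zz = q * q + (1 : ℝ) + 2 * (q * (cu + (43 / 128) * (xe * xe))) + 2 * th := ⟨_, rfl⟩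
  obtain ⟨ooo, e_ooo⟩ : ∃ zz : ℝ, zz = Real.exp ((1 / 2) * Real.log (o2u + (1 / 128 : ℝ))) := ⟨_, rfl⟩
  obtain ⟨Q1, e_Q1⟩ : ∃ zz : ℝ, zz = ooo + q * hg := ⟨_, rfl⟩
  obtain ⟨xa⟩ := exKa v2 eps 1 S G4 Qb Q1 ls lsx phux Ei Eh
  obtain ⟨srcx, e_srcx⟩ : ∃ zz : ℝ, zz = v.om1 * ((1 / 2) * (r * v2.bsum * v.aQ⁻¹)) + xa.kl := ⟨_, rfl⟩
  obtain ⟨srcs, e_srcs⟩ : ∃ zz : ℝ, zz = v.t * srcx := ⟨_, rfl⟩
  obtain ⟨yb⟩ := exKb (7 * 10⁻¹) xa tr gap gu srcs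
  obtain ⟨pk⟩ := exPk v5 lv.rplo v3.hp hgp gu yb.yy
  obtain ⟨y1, e_y1⟩ : ∃ zz : ℝ, zz = z2 * pk.ye := ⟨_, rfl⟩
  obtain ⟨cl⟩ := exCl yb v.t 1 y1 srcx
  have hsc := sc_Ma hde' e_tz hu hee hde0 G.t0 hz0.le e_z2 e_r e_tr e_eps
  obtain ⟨hA0, hA⟩ := hA_Q G hsc e_G4
  have f := lv.f G hsc.hr
  obtain ⟨p_xl, s0⟩ := (((((((((h
    (1 : ℝ) zQMa_1099511627776_0
    tz e_tz
    de hde'
    v.u hu
    z2 e_z2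
    r e_r
    eps e_eps
    tr e_tr
    (1 / 2 : ℝ) zQMa_549755813888_0
    v.tu v.e_tu
    (v.tu * v.n) rfl
    v.h (v.e_h.trans (congrArg (fun y : ℝ => y * (v.tu * v.n)) zQMa_549755813888_0))
    v.u2 v.e_u2
    (v.h * v.h) rfl
    v.jm v.e_jm).2
    v.j v.e_j
    (v.h * v.j) rfl
    v.K (v.e_K.trans (congrArg (fun y : ℝ => y * (v.h * v.j)) zQMa_2199023255552_0))
    (2 * v.j) (congrArg (fun y : ℝ => y * v.j) zQMa_2199023255552_0)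
    v.c0 v.e_c0
    v.m v.e_m
    v.nj v.e_nj
    v.om v.e_om
    v.om1 v.e_om1
    v.op1 v.e_op1
    v.R v.e_R
    v.nj2 v.e_nj2
    v2.Y (v2.e_Y.trans (congrArg (fun y : ℝ => y * v.h) zQMa_10774999203840_0))
    ((341 / 8192) * v2.Y) (congrArg (fun y : ℝ => y * v2.Y) zQMa_45768245248_0)
    (1365 / 8192 : ℝ) zQMa_183207198720_0
    ((341 / 8192) * v2.Y + (1365 / 8192 : ℝ)) rfl
    (v2.Y * ((341 / 8192) * v2.Y + (1365 / 8192 : ℝ))) rfl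
    ((1 / 2 : ℝ) + v2.Y * ((341 / 8192) * v2.Y + (1365 / 8192 : ℝ))) rfl
    (v2.Y * ((1 / 2 : ℝ) + v2.Y * ((341 / 8192) * v2.Y + (1365 / 8192 : ℝ)))) rfl
    v2.pY v2.e_pY
    (v2.Y * v2.pY) rfl
    ((1 / 2) * (v2.Y * v2.pY)) (congrArg (fun y : ℝ => y * (v2.Y * v2.pY)) zQMa_549755813888_0)
    ((1 : ℝ) + (1 / 2) * (v2.Y * v2.pY)) rfl
    v2.Yp v2.e_Yp
    (v.K * v.om) rfl
    (2 * v.c0) (congrArg (fun y : ℝ => y * v.c0) zQMa_2199023255552_0)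
    (v.K * v.om + 2 * v.c0) rfl
    v.Dt v.e_Dt
    v.D v.e_D
    v.SQ v.e_SQ
    (v.K * v.K) rfl
    (2 * (v.K * v.K)) (congrArg (fun y : ℝ => y * (v.K * v.K)) zQMa_2199023255552_0)
    v.c2 v.e_c2
    (v.c0 * v.Dt) rfl
    v.rhat v.e_rhat).2
    v.LQ v.e_LQ
    ((1 / 2) * v.LQ) (congrArg (fun y : ℝ => y * v.LQ) zQMa_549755813888_0)
    v.aQ v.e_aQ
    (3 : ℝ) zQMa_3298534883328_0).2
    ((3 : ℝ)⁻¹) rfl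
    ((1 : ℝ) * (3 : ℝ)⁻¹) rfl
    (2 : ℝ) zQMa_2199023255552_0
    (v.D + (2 : ℝ)) rfl).2
    ((v.D + (2 : ℝ))⁻¹) rfl
    l1.zL l1.e_zL
    l1.zz l1.e_zz
    ((1 : ℝ) - l1.zL) rfl
    (l1.zz * ((1 : ℝ) * (3 : ℝ)⁻¹)) rfl
    ((1 : ℝ) + l1.zz * ((1 : ℝ) * (3 : ℝ)⁻¹)) rfl
    l1.Lv l1.e_Lv
    (l1.zz * l1.zz) rfl
    l1.eL (l1.e_eL.trans (congrArg (fun y : ℝ => y * (l1.zz * l1.zz)) zQMa_219915747328_0))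
    (v.Dt * l1.Lv) rfl
    lv.rlo (lv.e_rlo.trans (congrArg (fun y : ℝ => y * (v.Dt * l1.Lv)) zQMa_549755813888_0))
    (v.Dt * l1.eL) rfl
    lv.er (lv.e_er.trans (congrArg (fun y : ℝ => y * (v.Dt * l1.eL)) zQMa_549755813888_0))
    lv.rhi lv.e_rhi
    (v.c0 * v.rhat) rfl
    lv.D2R (lv.e_D2R.trans (congrArg (fun y : ℝ => y * (v.c0 * v.rhat)) zQMa_4398046511104_0))
    (v.c0 * v.R) rfl
    (v.c0 * v.R * v.rhat) rfl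
    v.D2 (v.e_D2.trans (congrArg (fun y : ℝ => y * (v.c0 * v.R * v.rhat)) zQMa_4398046511104_0))
    (v.D2 + (2 : ℝ)) rfl).2
    ((v.D2 + (2 : ℝ))⁻¹) rfl
    l2.zL l2.e_zL
    l2.zz l2.e_zz
    ((1 : ℝ) - l2.zL) rfl
    (l2.zz * ((1 : ℝ) * (3 : ℝ)⁻¹)) rfl
    ((1 : ℝ) + l2.zz * ((1 : ℝ) * (3 : ℝ)⁻¹)) rfl
    l2.Lv l2.e_Lv
    (l2.zz * l2.zz) rfl
    l2.eL (l2.e_eL.trans (congrArg (fun y : ℝ => y * (l2.zz * l2.zz)) zQMa_219915747328_0))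
    (lv.D2R * l2.Lv) rfl
    ((1 / 2) * (lv.D2R * l2.Lv)) (congrArg (fun y : ℝ => y * (lv.D2R * l2.Lv)) zQMa_549755813888_0)
    lv.rplo lv.e_rplo
    (lv.D2R * l2.eL) rfl
    ((1 / 2) * (lv.D2R * l2.eL)) (congrArg (fun y : ℝ => y * (lv.D2R * l2.eL)) zQMa_549755813888_0)
    lv.erp lv.e_erp
    lv.rphi lv.e_rphi
    (r * lv.rlo) rfl
    (-(r * lv.rlo)) rfl
    q e_q
    (r * lv.er) rfl
    th e_th
    (r * lv.rplo) rfl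
    (-(r * lv.rplo)) rfl
    qp e_qp
    (r * lv.erp) rfl
    thp e_thp
    (v.om * v.K) rfl
    (v.c0 + v.om * v.K) rfl).2
    v.ioK v.e_ioK
    v.h1t v.e_h1t
    (v.om1 * v.t) rfl
    v.h1 v.e_h1
    ((1 : ℝ) - v.u2) rfl
    v.f2 v.e_f2
    v.tu2 v.e_tu2
    ((1 : ℝ) - v.nj2) rfl
    v5.sn v5.e_sn
    (v.R * v.rhat) rfl).2
    (v.SQ⁻¹) rfl
    v5.R1 v5.e_R1
    (v.c0 + v5.R1) rfl
    v5.Qr v5.e_Qr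
    (v5.Qr * v5.Qr) rfl).2
    ((v5.Qr * v5.Qr)⁻¹) rfl
    v5.Th v5.e_Th
    (v.c0 + v.R) rfl
    (S * (v.c0 + v.R)) rfl).2
    ((S * (v.c0 + v.R))⁻¹) rfl
    wv e_w
    (wv * wv) rfl
    xv e_x
    xe e_xe
    xee e_xee
    ((2731 / 4096) * xee) (congrArg (fun y : ℝ => y * xee) zQMa_733097230336_0)
    ((1 : ℝ) - (2731 / 4096) * xee) rfl
    xl e_xl
    (2527 / 256 : ℝ) zQMa_10853382356992_0
    (xl - (2527 / 256 : ℝ)) rfl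
  change 0 < xl - (2527 / 256 : ℝ) at p_xl
  obtain ⟨p_xh, s1⟩ := s0
    (39 : ℝ) zQMa_42880953483264_0
    ((39 : ℝ) - xv) rfl
  change 0 < (39 : ℝ) - xv at p_xh
  obtain ⟨p_o2, s2⟩ := (s1
    (13 / 1099511627776 : ℝ) zQMa_13_0
    (2295 / 1099511627776 : ℝ) zQMa_2295_0
    (xl * (13 / 1099511627776 : ℝ)) rfl
    ((2295 / 1099511627776 : ℝ) - xl * (13 / 1099511627776 : ℝ)) rfl
    (75749 / 274877906944 : ℝ) zQMa_302996_0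
    (xl * ((2295 / 1099511627776 : ℝ) - xl * (13 / 1099511627776 : ℝ))) rfl
    ((75749 / 274877906944 : ℝ) - xl * ((2295 / 1099511627776 : ℝ) - xl * (13 / 1099511627776 : ℝ))) rfl
    (27269633 / 1099511627776 : ℝ) zQMa_27269633_0
    (xl * ((75749 / 274877906944 : ℝ) - xl * ((2295 / 1099511627776 : ℝ) - xl * (13 / 1099511627776 : ℝ)))) rfl
    ((27269633 / 1099511627776 : ℝ) - xl * ((75749 / 274877906944 : ℝ) - xl * ((2295 / 1099511627776 : ℝ) - xl * (13 / 1099511627776 : ℝ)))) rfl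
    (381774871 / 274877906944 : ℝ) zQMa_1527099484_0
    (xl * ((27269633 / 1099511627776 : ℝ) - xl * ((75749 / 274877906944 : ℝ) - xl * ((2295 / 1099511627776 : ℝ) - xl * (13 / 1099511627776 : ℝ))))) rfl
    ((381774871 / 274877906944 : ℝ) - xl * ((27269633 / 1099511627776 : ℝ) - xl * ((75749 / 274877906944 : ℝ) - xl * ((2295 / 1099511627776 : ℝ) - xl * (13 / 1099511627776 : ℝ))))) rfl
    (22906492245 / 549755813888 : ℝ) zQMa_45812984490_0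
    (xl * ((381774871 / 274877906944 : ℝ) - xl * ((27269633 / 1099511627776 : ℝ) - xl * ((75749 / 274877906944 : ℝ) - xl * ((2295 / 1099511627776 : ℝ) - xl * (13 / 1099511627776 : ℝ)))))) rfl
    ((22906492245 / 549755813888 : ℝ) - xl * ((381774871 / 274877906944 : ℝ) - xl * ((27269633 / 1099511627776 : ℝ) - xl * ((75749 / 274877906944 : ℝ) - xl * ((2295 / 1099511627776 : ℝ) - xl * (13 / 1099511627776 : ℝ)))))) rfl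
    (xl * ((22906492245 / 549755813888 : ℝ) - xl * ((381774871 / 274877906944 : ℝ) - xl * ((27269633 / 1099511627776 : ℝ) - xl * ((75749 / 274877906944 : ℝ) - xl * ((2295 / 1099511627776 : ℝ) - xl * (13 / 1099511627776 : ℝ))))))) rfl
    ((1 / 2 : ℝ) - xl * ((22906492245 / 549755813888 : ℝ) - xl * ((381774871 / 274877906944 : ℝ) - xl * ((27269633 / 1099511627776 : ℝ) - xl * ((75749 / 274877906944 : ℝ) - xl * ((2295 / 1099511627776 : ℝ) - xl * (13 / 1099511627776 : ℝ))))))) rfl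
    (xl * ((1 / 2 : ℝ) - xl * ((22906492245 / 549755813888 : ℝ) - xl * ((381774871 / 274877906944 : ℝ) - xl * ((27269633 / 1099511627776 : ℝ) - xl * ((75749 / 274877906944 : ℝ) - xl * ((2295 / 1099511627776 : ℝ) - xl * (13 / 1099511627776 : ℝ)))))))) rfl
    cc e_cc
    b.q1 b.e_q1
    (q * q) rfl
    (q * q + (1 : ℝ)) rfl
    (q * cc) rfl
    (2 * (q * cc)) (congrArg (fun y : ℝ => y * (q * cc)) zQMa_2199023255552_0)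
    (q * q + (1 : ℝ) + 2 * (q * cc)) rfl
    (4 * th) (congrArg (fun y : ℝ => y * th) zQMa_4398046511104_0)
    b.o2 b.e_o2).2
    (b.q1⁻¹) rfl
    (b.o2 * b.q1⁻¹) rfl
    b.P1 b.e_P1
    (q * v.h1) rfl
    b.qh (b.e_qh.trans (congrArg (fun y : ℝ => y * (q * v.h1)) zQMa_549755813888_0))
    (b.qh * b.P1) rfl
    b.W b.e_W
  change 0 < b.o2 at p_o2
  obtain ⟨p_W, s3⟩ := s2
  change 0 < b.W at p_W
  obtain ⟨p_hg, s4⟩ := (((s3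
    ((1 : ℝ) - q) rfl
    (((1 : ℝ) - q) * b.q1) rfl
    (2 * th) (congrArg (fun y : ℝ => y * th) zQMa_2199023255552_0)
    (((1 : ℝ) - q) * b.q1 + 2 * th) rfl).2
    (b.W⁻¹) rfl
    ((((1 : ℝ) - q) * b.q1 + 2 * th) * b.W⁻¹) rfl
    gv (e_g.trans (congrArg (fun y : ℝ => y * ((((1 : ℝ) - q) * b.q1 + 2 * th) * b.W⁻¹)) zQMa_549755813888_0))
    (gv + (1 / 2 : ℝ)) rfl).2
    ((gv + (1 / 2 : ℝ))⁻¹) rfl
    ga e_ga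
    hg e_hg
    ((1 / 2) * hg) (congrArg (fun y : ℝ => y * hg) zQMa_549755813888_0)
    ((1 : ℝ) - (1 / 2) * hg) rfl
    ((1 : ℝ) - hg) rfl).2
    (((1 : ℝ) - hg)⁻¹) rfl
    lsf e_lsf
    (hg + (1 : ℝ)) rfl
    Qb e_Qb
    (v.h1t * lsf) rfl
    lsx e_lsx
    ls e_ls
  change 0 < (1 : ℝ) - hg at p_hg
  obtain ⟨p_rplo, s5⟩ := (s4
    (v.om1 * v.op1) rfl
    (v.c0 + v.t) rfl
    (v.om * v.c0) rfl
    (v.om * v.c0 * v.K) rfl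
    (2 * (v.om * v.c0 * v.K)) (congrArg (fun y : ℝ => y * (v.om * v.c0 * v.K)) zQMa_2199023255552_0)
    (v.c2 + 2 * (v.om * v.c0 * v.K)) rfl
    ((v.c0 + v.t) * (v.c2 + 2 * (v.om * v.c0 * v.K))) rfl).2
    (((v.c0 + v.t) * (v.c2 + 2 * (v.om * v.c0 * v.K)))⁻¹) rfl
    v3.hpt v3.e_hpt
    v3.hp v3.e_hp
  change 0 < lv.rplo at p_rplo
  obtain ⟨p_xlp, s6⟩ := (s5
    (S * v5.Qr) rfl).2
    ((S * v5.Qr)⁻¹) rfl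
    wpv e_wp
    (wpv * wpv) rfl
    xpv e_xp
    (xpv * eps) rfl
    xeep e_xeep
    ((2731 / 4096) * xeep) (congrArg (fun y : ℝ => y * xeep) zQMa_733097230336_0)
    ((1 : ℝ) - (2731 / 4096) * xeep) rfl
    xlp e_xlp
    (xlp - (2527 / 256 : ℝ)) rfl
  change 0 < xlp - (2527 / 256 : ℝ) at p_xlp
  obtain ⟨p_xhp, s7⟩ := s6
    ((39 : ℝ) - xpv) rfl
  change 0 < (39 : ℝ) - xpv at p_xhp
  obtain ⟨p_o2p, s8⟩ := (s7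
    (xlp * (13 / 1099511627776 : ℝ)) rfl
    ((2295 / 1099511627776 : ℝ) - xlp * (13 / 1099511627776 : ℝ)) rfl
    (xlp * ((2295 / 1099511627776 : ℝ) - xlp * (13 / 1099511627776 : ℝ))) rfl
    ((75749 / 274877906944 : ℝ) - xlp * ((2295 / 1099511627776 : ℝ) - xlp * (13 / 1099511627776 : ℝ))) rfl
    (xlp * ((75749 / 274877906944 : ℝ) - xlp * ((2295 / 1099511627776 : ℝ) - xlp * (13 / 1099511627776 : ℝ)))) rfl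
    ((27269633 / 1099511627776 : ℝ) - xlp * ((75749 / 274877906944 : ℝ) - xlp * ((2295 / 1099511627776 : ℝ) - xlp * (13 / 1099511627776 : ℝ)))) rfl
    (xlp * ((27269633 / 1099511627776 : ℝ) - xlp * ((75749 / 274877906944 : ℝ) - xlp * ((2295 / 1099511627776 : ℝ) - xlp * (13 / 1099511627776 : ℝ))))) rfl
    ((381774871 / 274877906944 : ℝ) - xlp * ((27269633 / 1099511627776 : ℝ) - xlp * ((75749 / 274877906944 : ℝ) - xlp * ((2295 / 1099511627776 : ℝ) - xlp * (13 / 1099511627776 : ℝ))))) rfl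
    (xlp * ((381774871 / 274877906944 : ℝ) - xlp * ((27269633 / 1099511627776 : ℝ) - xlp * ((75749 / 274877906944 : ℝ) - xlp * ((2295 / 1099511627776 : ℝ) - xlp * (13 / 1099511627776 : ℝ)))))) rfl
    ((22906492245 / 549755813888 : ℝ) - xlp * ((381774871 / 274877906944 : ℝ) - xlp * ((27269633 / 1099511627776 : ℝ) - xlp * ((75749 / 274877906944 : ℝ) - xlp * ((2295 / 1099511627776 : ℝ) - xlp * (13 / 1099511627776 : ℝ)))))) rfl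
    (xlp * ((22906492245 / 549755813888 : ℝ) - xlp * ((381774871 / 274877906944 : ℝ) - xlp * ((27269633 / 1099511627776 : ℝ) - xlp * ((75749 / 274877906944 : ℝ) - xlp * ((2295 / 1099511627776 : ℝ) - xlp * (13 / 1099511627776 : ℝ))))))) rfl
    ((1 / 2 : ℝ) - xlp * ((22906492245 / 549755813888 : ℝ) - xlp * ((381774871 / 274877906944 : ℝ) - xlp * ((27269633 / 1099511627776 : ℝ) - xlp * ((75749 / 274877906944 : ℝ) - xlp * ((2295 / 1099511627776 : ℝ) - xlp * (13 / 1099511627776 : ℝ))))))) rfl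
    (xlp * ((1 / 2 : ℝ) - xlp * ((22906492245 / 549755813888 : ℝ) - xlp * ((381774871 / 274877906944 : ℝ) - xlp * ((27269633 / 1099511627776 : ℝ) - xlp * ((75749 / 274877906944 : ℝ) - xlp * ((2295 / 1099511627776 : ℝ) - xlp * (13 / 1099511627776 : ℝ)))))))) rfl
    ccp e_ccp
    b'.q1 b'.e_q1
    (qp * qp) rfl
    (qp * qp + (1 : ℝ)) rfl
    (qp * ccp) rfl
    (2 * (qp * ccp)) (congrArg (fun y : ℝ => y * (qp * ccp)) zQMa_2199023255552_0)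
    (qp * qp + (1 : ℝ) + 2 * (qp * ccp)) rfl
    (4 * thp) (congrArg (fun y : ℝ => y * thp) zQMa_4398046511104_0)
    b'.o2 b'.e_o2).2
    (b'.q1⁻¹) rfl
    (b'.o2 * b'.q1⁻¹) rfl
    b'.P1 b'.e_P1
    (qp * v3.hp) rfl
    b'.qh (b'.e_qh.trans (congrArg (fun y : ℝ => y * (qp * v3.hp)) zQMa_549755813888_0))
    (b'.qh * b'.P1) rfl
    b'.W b'.e_W
  change 0 < b'.o2 at p_o2p
  obtain ⟨p_Wp, s9⟩ := s8
  change 0 < b'.W at p_Wp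
  obtain ⟨p_lspa, s10⟩ := ((((((((((((((((s9
    ((1 : ℝ) - qp) rfl
    (((1 : ℝ) - qp) * b'.q1) rfl
    (2 * thp) (congrArg (fun y : ℝ => y * thp) zQMa_2199023255552_0)
    (((1 : ℝ) - qp) * b'.q1 + 2 * thp) rfl).2
    (b'.W⁻¹) rfl
    ((((1 : ℝ) - qp) * b'.q1 + 2 * thp) * b'.W⁻¹) rfl
    gpv (e_gp.trans (congrArg (fun y : ℝ => y * ((((1 : ℝ) - qp) * b'.q1 + 2 * thp) * b'.W⁻¹)) zQMa_549755813888_0))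
    (gpv + (1 / 2 : ℝ)) rfl).2
    ((gpv + (1 / 2 : ℝ))⁻¹) rfl
    gap e_gap
    hgp e_hgp
    gu e_gu
    (v.h + (1 : ℝ)) rfl).2
    v2.ih v2.e_ih
    (v.h * v2.ih) rfl
    v2.rh (v2.e_rh.trans (congrArg (fun y : ℝ => y * (v.h * v2.ih)) zQMa_2199023255552_0))
    v2.mi v2.e_mi
    v2.hm v2.e_hm
    v2.nih v2.e_nih
    (v2.nih * v2.mi) rfl
    v2.bsum v2.e_bsum
    ((209 / 1024) * v.j) (congrArg (fun y : ℝ => y * v.j) zQMa_224412041216_0)).2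
    (v2.Yp⁻¹) rfl
    v2.lm v2.e_lm
    (4 * S) (congrArg (fun y : ℝ => y * S) zQMa_4398046511104_0)
    ((1 : ℝ) * v.nj) rfl
    G4 e_G4).2
    xa.iG4 xa.e_iG4
    xa.alG xa.e_alG
    xa.AE xa.e_AE
    (xa.AE * v.op1) rfl
    xa.XeE xa.e_XeE
    (xa.alG * v.op1) rfl
    xa.XM xa.e_XM
    ((1 : ℝ) - xa.XM) rfl).2
    xa.iX xa.e_iX
    xa.QX xa.e_QX
    ((1 : ℝ) - xa.QX) rfl).2
    xa.iQX xa.e_iQX
    (2 * eps) (congrArg (fun y : ℝ => y * eps) zQMa_2199023255552_0)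
    Ei e_Ei
    Eh e_Eh
    (S * v.nj) rfl
    (1 * (S * v.nj)) (congrArg (fun y : ℝ => y * (S * v.nj)) zQMa_1099511627776_0)
    (1 * v.t) (congrArg (fun y : ℝ => y * v.t) zQMa_1099511627776_0)
    (1 * (S * v.nj) + 1 * v.t) rfl
    (z * (1 * (S * v.nj) + 1 * v.t)) rfl
    phux (e_phux.trans (congrArg (fun y : ℝ => y * (z * (1 * (S * v.nj) + 1 * v.t))) zQMa_549755813888_0))
    (v.h * v.nj) rfl
    ((1 : ℝ) - v.f2) rfl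
    (v.h * v.om) rfl
    (2 * (v.h * v.om)) (congrArg (fun y : ℝ => y * (v.h * v.om)) zQMa_2199023255552_0)
    ((1 : ℝ) - v.f2 - 2 * (v.h * v.om)) rfl
    (v.h * v.nj * (v.h * v.nj)) rfl
    xa.N1 xa.e_N1
    (xa.N1 + (1 : ℝ)) rfl
    xa.s (xa.e_s.trans (congrArg (fun y : ℝ => y * (xa.N1 + (1 : ℝ))) zQMa_549755813888_0))
    ((1 / 2) * v.R) (congrArg (fun y : ℝ => y * v.R) zQMa_549755813888_0)
    (v.j - (1 / 2) * v.R) rfl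
    (v.tu2 * ((1 : ℝ) - v.f2)) rfl
    (v.tu2 * ((1 : ℝ) - v.f2) * v.jm) rfl
    ((1 / 8) * (v.tu2 * ((1 : ℝ) - v.f2) * v.jm)) (congrArg (fun y : ℝ => y * (v.tu2 * ((1 : ℝ) - v.f2) * v.jm)) zQMa_137438953472_0)
    (v.j - (1 / 2) * v.R + (1 / 8) * (v.tu2 * ((1 : ℝ) - v.f2) * v.jm)) rfl
    xa.k0 xa.e_k0
    (1 / 1099511627776 : ℝ) zQMa_1_0
    (3 / 274877906944 : ℝ) zQMa_12_0
    (xv * (1 / 1099511627776 : ℝ)) rfl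
    ((3 / 274877906944 : ℝ) - xv * (1 / 1099511627776 : ℝ)) rfl
    (287 / 137438953472 : ℝ) zQMa_2296_0
    (xv * ((3 / 274877906944 : ℝ) - xv * (1 / 1099511627776 : ℝ))) rfl
    ((287 / 137438953472 : ℝ) - xv * ((3 / 274877906944 : ℝ) - xv * (1 / 1099511627776 : ℝ))) rfl
    (302995 / 1099511627776 : ℝ) zQMa_302995_0
    (xv * ((287 / 137438953472 : ℝ) - xv * ((3 / 274877906944 : ℝ) - xv * (1 / 1099511627776 : ℝ)))) rfl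
    ((302995 / 1099511627776 : ℝ) - xv * ((287 / 137438953472 : ℝ) - xv * ((3 / 274877906944 : ℝ) - xv * (1 / 1099511627776 : ℝ)))) rfl
    (13634817 / 549755813888 : ℝ) zQMa_27269634_0
    (xv * ((302995 / 1099511627776 : ℝ) - xv * ((287 / 137438953472 : ℝ) - xv * ((3 / 274877906944 : ℝ) - xv * (1 / 1099511627776 : ℝ))))) rfl
    ((13634817 / 549755813888 : ℝ) - xv * ((302995 / 1099511627776 : ℝ) - xv * ((287 / 137438953472 : ℝ) - xv * ((3 / 274877906944 : ℝ) - xv * (1 / 1099511627776 : ℝ))))) rfl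
    (1527099483 / 1099511627776 : ℝ) zQMa_1527099483_0
    (xv * ((13634817 / 549755813888 : ℝ) - xv * ((302995 / 1099511627776 : ℝ) - xv * ((287 / 137438953472 : ℝ) - xv * ((3 / 274877906944 : ℝ) - xv * (1 / 1099511627776 : ℝ)))))) rfl
    ((1527099483 / 1099511627776 : ℝ) - xv * ((13634817 / 549755813888 : ℝ) - xv * ((302995 / 1099511627776 : ℝ) - xv * ((287 / 137438953472 : ℝ) - xv * ((3 / 274877906944 : ℝ) - xv * (1 / 1099511627776 : ℝ)))))) rfl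
    (45812984491 / 1099511627776 : ℝ) zQMa_45812984491_0
    (xv * ((1527099483 / 1099511627776 : ℝ) - xv * ((13634817 / 549755813888 : ℝ) - xv * ((302995 / 1099511627776 : ℝ) - xv * ((287 / 137438953472 : ℝ) - xv * ((3 / 274877906944 : ℝ) - xv * (1 / 1099511627776 : ℝ))))))) rfl
    ((45812984491 / 1099511627776 : ℝ) - xv * ((1527099483 / 1099511627776 : ℝ) - xv * ((13634817 / 549755813888 : ℝ) - xv * ((302995 / 1099511627776 : ℝ) - xv * ((287 / 137438953472 : ℝ) - xv * ((3 / 274877906944 : ℝ) - xv * (1 / 1099511627776 : ℝ))))))) rfl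
    (xv * ((45812984491 / 1099511627776 : ℝ) - xv * ((1527099483 / 1099511627776 : ℝ) - xv * ((13634817 / 549755813888 : ℝ) - xv * ((302995 / 1099511627776 : ℝ) - xv * ((287 / 137438953472 : ℝ) - xv * ((3 / 274877906944 : ℝ) - xv * (1 / 1099511627776 : ℝ)))))))) rfl
    ((1 / 2 : ℝ) - xv * ((45812984491 / 1099511627776 : ℝ) - xv * ((1527099483 / 1099511627776 : ℝ) - xv * ((13634817 / 549755813888 : ℝ) - xv * ((302995 / 1099511627776 : ℝ) - xv * ((287 / 137438953472 : ℝ) - xv * ((3 / 274877906944 : ℝ) - xv * (1 / 1099511627776 : ℝ)))))))) rfl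
    (xv * ((1 / 2 : ℝ) - xv * ((45812984491 / 1099511627776 : ℝ) - xv * ((1527099483 / 1099511627776 : ℝ) - xv * ((13634817 / 549755813888 : ℝ) - xv * ((302995 / 1099511627776 : ℝ) - xv * ((287 / 137438953472 : ℝ) - xv * ((3 / 274877906944 : ℝ) - xv * (1 / 1099511627776 : ℝ))))))))) rfl
    cu e_cu
    (xe * xe) rfl
    ((43 / 128) * (xe * xe)) (congrArg (fun y : ℝ => y * (xe * xe)) zQMa_369367187456_0)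
    (cu + (43 / 128) * (xe * xe)) rfl
    (q * (cu + (43 / 128) * (xe * xe))) rfl
    (2 * (q * (cu + (43 / 128) * (xe * xe)))) (congrArg (fun y : ℝ => y * (q * (cu + (43 / 128) * (xe * xe)))) zQMa_2199023255552_0)
    (q * q + (1 : ℝ) + 2 * (q * (cu + (43 / 128) * (xe * xe)))) rfl
    o2u e_o2u
    (1 / 128 : ℝ) zQMa_8589934592_0
    (o2u + (1 / 128 : ℝ)) rfl).2
    (Real.log (o2u + (1 / 128 : ℝ))) rfl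
    ((1 / 2) * Real.log (o2u + (1 / 128 : ℝ))) (congrArg (fun y : ℝ => y * Real.log (o2u + (1 / 128 : ℝ))) zQMa_549755813888_0)
    ooo e_ooo
    (q * hg) rfl
    Q1 e_Q1
    (Q1 * xa.iX) rfl
    (Qb * xa.iQX) rfl
    (Q1 * xa.iX + Qb * xa.iQX) rfl
    (xa.XM * (Q1 * xa.iX + Qb * xa.iQX)) rfl
    (ls + xa.XM * (Q1 * xa.iX + Qb * xa.iQX)) rfl
    xa.a0 xa.e_a0
    (Q1 * xa.XM) rfl
    (Q1 * xa.XM * xa.iX) rfl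
    (ls + Q1 * xa.XM * xa.iX) rfl
    xa.l1 xa.e_l1
    ((13 / 64) * xa.l1) (congrArg (fun y : ℝ => y * xa.l1) zQMa_223338299392_0)
    ((1 / 2 : ℝ) + (13 / 64) * xa.l1) rfl
    (xa.l1 * ((1 / 2 : ℝ) + (13 / 64) * xa.l1)) rfl
    xa.Na xa.e_Na
    ((13 / 16) * xa.a0) (congrArg (fun y : ℝ => y * xa.a0) zQMa_893353197568_0)
    ((1 : ℝ) + (13 / 16) * xa.a0) rfl
    (xa.a0 * ((1 : ℝ) + (13 / 16) * xa.a0)) rfl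
    xa.Nb xa.e_Nb
    (v2.rh * v2.nih) rfl
    (v2.rh * v2.nih * Ei) rfl
    xa.rn xa.e_rn
    (xa.k0 * xa.Na) rfl
    (v.aQ + (1 / 2 : ℝ)) rfl
    (xa.rn * (v.aQ + (1 / 2 : ℝ))) rfl
    xa.ka xa.e_ka
    (v.aQ + (1 : ℝ)) rfl
    xa.kb xa.e_kb
    (Eh * (v.aQ + (1 : ℝ))) rfl
    (Eh * (v.aQ + (1 : ℝ)) * v2.nih) rfl
    xa.lfk xa.e_lfk
    (xa.ka * lsx) rfl
    (xa.lfk * phux) rfl
    xa.kl xa.e_kl
    (r * v2.bsum) rfl).2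
    (v.aQ⁻¹) rfl
    (r * v2.bsum * v.aQ⁻¹) rfl
    ((1 / 2) * (r * v2.bsum * v.aQ⁻¹)) (congrArg (fun y : ℝ => y * (r * v2.bsum * v.aQ⁻¹)) zQMa_549755813888_0)
    (v.om1 * ((1 / 2) * (r * v2.bsum * v.aQ⁻¹))) rfl
    srcx e_srcx
    srcs e_srcs
    yb.src yb.e_src
    (xa.ka * Q1) rfl
    (xa.ka * Q1 * xa.iX) rfl
    (xa.kb * Qb) rfl
    (xa.kb * Qb * xa.iQX) rfl
    yb.fxe yb.e_fxe
    (v.om1 * yb.src) rfl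
    (xa.XeE * yb.fxe) rfl
    yb.epd yb.e_epd
    (v.tu2 * yb.epd) rfl
    (v.tu2 * yb.epd * v.aQ⁻¹) rfl
    ((1 : ℝ) - v.tu2 * yb.epd * v.aQ⁻¹) rfl).2
    yb.NN yb.e_NN
    yb.eN yb.e_eN
    yb.d yb.e_d
    yb.eta yb.e_eta
    (yb.eta * v.aQ⁻¹) rfl
    ((1 : ℝ) - yb.eta * v.aQ⁻¹) rfl
    (v.rhat * ((1 : ℝ) - yb.eta * v.aQ⁻¹)) rfl
    yb.rl yb.e_rl).2
    yb.irl yb.e_irl
    yb.yy yb.e_yy
    (v.aQ - yb.eta) rfl).2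
    yb.q0 yb.e_q0
    yb.zp yb.e_zp
    ((1 / 2) * yb.zp) (congrArg (fun y : ℝ => y * yb.zp) zQMa_549755813888_0)
    ((1 : ℝ) - (1 / 2) * yb.zp) rfl
    ((1 : ℝ) - yb.zp) rfl).2
    (((1 : ℝ) - yb.zp)⁻¹) rfl
    yb.kzp yb.e_kzp
    (v.u * yb.q0) rfl
    (gu * yb.irl) rfl
    (gu * yb.irl * yb.kzp) rfl
    yb.Cu yb.e_Cu
    (tr * yb.eN) rfl
    (yb.q0 * (tr * yb.eN)) rfl
    (gap * yb.irl) rfl
    (gap * yb.irl * yb.kzp) rfl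
    (gap * yb.irl * yb.kzp * yb.d) rfl
    yb.rr yb.e_rr
    ((13 / 64) * yb.rr) (congrArg (fun y : ℝ => y * yb.rr) zQMa_223338299392_0)
    ((1 / 2 : ℝ) + (13 / 64) * yb.rr) rfl
    (yb.rr * ((1 / 2 : ℝ) + (13 / 64) * yb.rr)) rfl
    ((1 : ℝ) + yb.rr * ((1 / 2 : ℝ) + (13 / 64) * yb.rr)) rfl
    (yb.Cu * ((1 : ℝ) + yb.rr * ((1 / 2 : ℝ) + (13 / 64) * yb.rr))) rfl
    yb.CuN yb.e_CuN
    yb.fbt yb.e_fbt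
    yb.XLt yb.e_XLt
    (7 : ℝ) zQMa_7696581394432_0
    (10 : ℝ) zQMa_10995116277760_0).2
    ((10 : ℝ)⁻¹) rfl
    yb.beta yb.e_beta
    ((v.h + (1 : ℝ)) * v.op1) rfl
    yb.b1 yb.e_b1
    pk.omr pk.e_omr
    pk.omp pk.e_omp
    ((1 / 2) * hgp) (congrArg (fun y : ℝ => y * hgp) zQMa_549755813888_0)
    ((1 : ℝ) - (1 / 2) * hgp) rfl
    ((1 : ℝ) - hgp) rfl).2
    (((1 : ℝ) - hgp)⁻¹) rfl
    (((1 : ℝ) - (1 / 2) * hgp) * ((1 : ℝ) - hgp)⁻¹) rfl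
    pk.lspf pk.e_lspf
    (v.tu2 * v5.Th) rfl
    ((2731 / 4096) * (v.tu2 * v5.Th)) (congrArg (fun y : ℝ => y * (v.tu2 * v5.Th)) zQMa_733097230336_0)
    ((1 : ℝ) - (2731 / 4096) * (v.tu2 * v5.Th)) rfl
    (v5.Th * ((1 : ℝ) - (2731 / 4096) * (v.tu2 * v5.Th))) rfl
    (lv.rplo * lv.rplo) rfl
    (v.u2 * (lv.rplo * lv.rplo)) rfl
    pk.E0 pk.e_E0
    pk.lspa pk.e_lspa
    (pk.E0 + (1 : ℝ)) rfl
    (pk.lspa * (pk.E0 + (1 : ℝ))) rfl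
    (pk.E0 - pk.lspa * (pk.E0 + (1 : ℝ))) rfl
    ((2731 / 8192) * (v.K * v.K)) (congrArg (fun y : ℝ => y * (v.K * v.K)) zQMa_366548615168_0)
    ((1 : ℝ) - (2731 / 8192) * (v.K * v.K)) rfl
    (v.nj2 * ((1 : ℝ) - (2731 / 8192) * (v.K * v.K))) rfl
    (pk.E0 - pk.lspa * (pk.E0 + (1 : ℝ)) + v.nj2 * ((1 : ℝ) - (2731 / 8192) * (v.K * v.K))) rfl
    (pk.omr * (pk.E0 - pk.lspa * (pk.E0 + (1 : ℝ)) + v.nj2 * ((1 : ℝ) - (2731 / 8192) * (v.K * v.K)))) rfl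
    (pk.omp * pk.omp) rfl
    ((1 : ℝ) + pk.omp * pk.omp) rfl).2
    (((1 : ℝ) + pk.omp * pk.omp)⁻¹) rfl
    pk.pe pk.e_pe
    ((1 : ℝ) - yb.yy) rfl
    pk.ye pk.e_ye
    ((1 : ℝ) - pk.lspa) rfl
  change 0 < (1 : ℝ) - pk.lspa at p_lspa
  obtain ⟨p_pe, s11⟩ := s10
  change 0 < pk.pe at p_pe
  obtain ⟨p_yy, s12⟩ := s11
  change 0 < (1 : ℝ) - yb.yy at p_yy
  obtain ⟨p_XM, s13⟩ := (((((s12
    (yb.CuN * G4) rfl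
    (yb.CuN * G4 * srcx) rfl).2
    (v.op1⁻¹) rfl
    cl.FXt cl.e_FXt
    y1 e_y1
    (v.t * y1) rfl
    ((1 / 2) * (v.t * y1)) (congrArg (fun y : ℝ => y * (v.t * y1)) zQMa_549755813888_0)
    ((1 : ℝ) - (1 / 2) * (v.t * y1)) rfl
    (y1 * ((1 : ℝ) - (1 / 2) * (v.t * y1))) rfl
    cl.S1 cl.e_S1
    (v.u * v.n) rfl
    (v.u * v.n * (v.h + (1 : ℝ))) rfl
    (v.u * v.n * (v.h + (1 : ℝ)) * v.j) rfl
    cl.a4 cl.e_a4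
    (cl.S1 + cl.a4) rfl
    (cl.S1 * cl.a4) rfl
    (v.t * (cl.S1 * cl.a4)) rfl
    cl.S4 cl.e_S4
    cl.Dh cl.e_Dh
    ((3 / 8) * v.D) (congrArg (fun y : ℝ => y * v.D) zQMa_412316860416_0)
    ((1 / 2 : ℝ) - (3 / 8) * v.D) rfl
    (cl.Dh * ((1 / 2 : ℝ) - (3 / 8) * v.D)) rfl
    ((1 : ℝ) * (cl.Dh * ((1 / 2 : ℝ) - (3 / 8) * v.D))) rfl
    cl.a5 cl.e_a5
    (cl.S4 + cl.a5) rfl
    (cl.S4 * cl.a5) rfl
    (v.t * (cl.S4 * cl.a5)) rfl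
    cl.S5 cl.e_S5
    (v.u * yb.eN) rfl
    (v.u * yb.eN * v.op1⁻¹) rfl
    cl.a6 cl.e_a6
    (cl.S5 + cl.a6) rfl
    (cl.S5 * cl.a6) rfl
    (v.t * (cl.S5 * cl.a6)) rfl
    cl.S6 cl.e_S6
    cl.a7 cl.e_a7
    (cl.S6 - cl.a7) rfl
    (v.t * yb.b1) rfl
    ((1 : ℝ) + v.t * yb.b1) rfl).2
    (((1 : ℝ) + v.t * yb.b1)⁻¹) rfl
    cl.S7 cl.e_S7
    (v.u * v.tu) rfl
    (v.u * v.tu * yb.eN) rfl
    (v.u * v.tu * yb.eN * yb.q0) rfl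
    cl.a8 cl.e_a8
    (cl.S7 + cl.a8) rfl
    (cl.S7 * cl.a8) rfl
    (v.t * (cl.S7 * cl.a8)) rfl
    cl.S8 cl.e_S8
    (v.t * cl.S8) rfl
    cl.c1 cl.e_c1
    (yb.fbt * xa.XM) rfl
    (v.t * yb.XLt) rfl
    (cl.FXt * (v.t * yb.XLt)) rfl
    (yb.fbt * xa.XM + cl.FXt * (v.t * yb.XLt)) rfl
    cl.rt cl.e_rt
    (yb.fbt + cl.FXt) rfl
    cl.fm cl.e_fm
    (cl.rt * cl.c1) rfl
    (cl.S8 + cl.rt * cl.c1) rfl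
    (cl.S8 + cl.rt * cl.c1 + cl.fm) rfl
    cl.Bm cl.e_Bm
    ((1 / 1024) * (1 : ℝ)) (congrArg (fun y : ℝ => y * (1 : ℝ)) zQMa_1073741824_0)
    (cl.Bm - (1 / 1024) * (1 : ℝ)) rfl
    yb.m1 yb.e_m1
    (yb.m1 + (2 : ℝ)) rfl
    (2 * yb.beta) (congrArg (fun y : ℝ => y * yb.beta) zQMa_2199023255552_0)
    (yb.m1 + (2 : ℝ) - 2 * yb.beta) rfl
    ((v.h + (1 : ℝ)) * (yb.m1 + (2 : ℝ) - 2 * yb.beta)) rfl
    (yb.m1 * (2 * yb.beta)) rfl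
    (yb.m1 * (2 * yb.beta) + (1 : ℝ)) rfl).2
    ((yb.m1 * (2 * yb.beta) + (1 : ℝ))⁻¹) rfl
    ((v.h + (1 : ℝ)) * (yb.m1 + (2 : ℝ) - 2 * yb.beta) * (yb.m1 * (2 * yb.beta) + (1 : ℝ))⁻¹) rfl
    (xa.AE * yb.fxe) rfl
    ((1 / 2) * v2.lm) (congrArg (fun y : ℝ => y * v2.lm) zQMa_549755813888_0)
    (v.K + (1 / 2) * v2.lm) rfl
    (xa.AE * yb.fxe * (v.K + (1 / 2) * v2.lm)) rfl
    (2 * (xa.AE * yb.fxe * (v.K + (1 / 2) * v2.lm))) (congrArg (fun y : ℝ => y * (xa.AE * yb.fxe * (v.K + (1 / 2) * v2.lm))) zQMa_2199023255552_0)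
    (yb.src + 2 * (xa.AE * yb.fxe * (v.K + (1 / 2) * v2.lm))) rfl
    (2 * (yb.src + 2 * (xa.AE * yb.fxe * (v.K + (1 / 2) * v2.lm)))) (congrArg (fun y : ℝ => y * (yb.src + 2 * (xa.AE * yb.fxe * (v.K + (1 / 2) * v2.lm)))) zQMa_2199023255552_0)
    (2 * (yb.src + 2 * (xa.AE * yb.fxe * (v.K + (1 / 2) * v2.lm))) * yb.NN) rfl
    (v.tu * yb.eN) rfl
    (v.op1 - v.tu * yb.eN) rfl).2
    ((v.op1 - v.tu * yb.eN)⁻¹) rfl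
    (2 * (yb.src + 2 * (xa.AE * yb.fxe * (v.K + (1 / 2) * v2.lm))) * yb.NN * (v.op1 - v.tu * yb.eN)⁻¹) rfl
    yb.V yb.e_V
    ((1 : ℝ) * v.nj * ((1 : ℝ) * v.nj)) rfl
    (13 : ℝ) zQMa_14293651161088_0
    ((13 : ℝ) * (10 : ℝ)⁻¹) rfl
    ((1 : ℝ) * v.nj * ((1 : ℝ) * v.nj) * ((13 : ℝ) * (10 : ℝ)⁻¹)) rfl
    (S * S) rfl
    (25 * (S * S)) (congrArg (fun y : ℝ => y * (S * S)) zQMa_27487790694400_0)
    yb.C2 yb.e_C2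
    yb.gr yb.e_gr
    (2 * v.c0 - v.t) rfl
    yb.Gt yb.e_Gt
    ((1 : ℝ) * v.u) rfl
    yb.au yb.e_au
    (v.op1 * yb.fxe) rfl
    (v.op1 * yb.fxe * xa.iG4) rfl
    yb.inner yb.e_inner
    (v.tu * yb.eN + (2 : ℝ)) rfl
    yb.ezs yb.e_ezs
    (yb.C2 * yb.gr) rfl
    (yb.NN * yb.ezs) rfl
    (yb.au * yb.inner) rfl
    (yb.NN * yb.ezs * (yb.au * yb.inner)) rfl
    yb.Rg0 yb.e_Rg0
    ((1 / 2) * (v.tu * yb.eN)) (congrArg (fun y : ℝ => y * (v.tu * yb.eN)) zQMa_549755813888_0)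
    ((1 : ℝ) + (1 / 2) * (v.tu * yb.eN)) rfl
    (yb.NN * ((1 : ℝ) + (1 / 2) * (v.tu * yb.eN))) rfl
    (v.t * v.om1) rfl
    (v.t * v.om1 * v2.bsum) rfl
    (v.op1 * v.aQ) rfl).2
    ((v.op1 * v.aQ)⁻¹) rfl
    (v.t * v.om1 * v2.bsum * (v.op1 * v.aQ)⁻¹) rfl
    (yb.NN * ((1 : ℝ) + (1 / 2) * (v.tu * yb.eN)) * (v.t * v.om1 * v2.bsum * (v.op1 * v.aQ)⁻¹)) rfl
    yb.Rh yb.e_Rh
    (v2.lm * yb.Rg0) rfl
    ((1 : ℝ) - v2.lm) rfl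
    (v.u2 * yb.Rh) rfl
    (((1 : ℝ) - v2.lm) * (v.u2 * yb.Rh)) rfl
    (yb.C2 * (((1 : ℝ) - v2.lm) * (v.u2 * yb.Rh))) rfl
    yb.Rg yb.e_Rg
  change 0 < (1 : ℝ) - xa.XM at p_XM
  obtain ⟨p_QX, s14⟩ := s13
  change 0 < (1 : ℝ) - xa.QX at p_QX
  obtain ⟨p_e2, s15⟩ := s14
    (2 * (v.tu2 * yb.epd)) (congrArg (fun y : ℝ => y * (v.tu2 * yb.epd)) zQMa_2199023255552_0)
    (v.aQ - 2 * (v.tu2 * yb.epd)) rfl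
  change 0 < v.aQ - 2 * (v.tu2 * yb.epd) at p_e2
  obtain ⟨p_rl, s16⟩ := s15
  change 0 < yb.rl at p_rl
  obtain ⟨p_hgp, s17⟩ := s16
    ((1 / 2 : ℝ) - hgp) rfl
  change 0 < (1 / 2 : ℝ) - hgp at p_hgp
  obtain ⟨p_l1, s18⟩ := s17
    ((5 / 8) * (1 : ℝ)) (congrArg (fun y : ℝ => y * (1 : ℝ)) zQMa_687194767360_0)
    ((5 / 8) * (1 : ℝ) - xa.l1) rfl
  change 0 < (5 / 8) * (1 : ℝ) - xa.l1 at p_l1
  obtain ⟨p_a0, s19⟩ := s18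
    ((11 / 32) * (1 : ℝ)) (congrArg (fun y : ℝ => y * (1 : ℝ)) zQMa_377957122048_0)
    ((11 / 32) * (1 : ℝ) - xa.a0) rfl
  change 0 < (11 / 32) * (1 : ℝ) - xa.a0 at p_a0
  obtain ⟨p_S, s20⟩ := s19
  change 0 < v.op1 - v.tu * yb.eN at p_S
  obtain ⟨p_zp, s21⟩ := s20
  change 0 < (1 : ℝ) - yb.zp at p_zp
  obtain ⟨p_rr, s22⟩ := s21
    ((5 / 8) * (1 : ℝ) - yb.rr) rfl
  change 0 < (5 / 8) * (1 : ℝ) - yb.rr at p_rr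
  obtain ⟨p_V, s23⟩ := s22
  change 0 < yb.V at p_V
  obtain ⟨p_B, s24⟩ := s23
  change 0 < cl.Bm - (1 / 1024) * (1 : ℝ) at p_B
  obtain ⟨p_Rg, s25⟩ := s24
  change 0 < yb.Rg at p_Rg
  obtain ⟨p_Rh, s26⟩ := s25
  change 0 < yb.Rh at p_Rh
  have hQ := qb_s G f lv.e_rhi e_q e_th
  have hq := hQ.le
  have hQp := qb_p G f p_rplo.le lv.e_rphi e_qp e_thp
  have hqp := hQp.le
  have hq0 : 0 < q := lt_of_lt_of_le (by rw [G.q_eq]; exact G.q0) hq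
  have hcc : cc ≤ Real.cos (v.e * (Qk κ (shf κ τ)).arg) := cc_t (Qre0 G) hsc.ee (x_eq G v5 hsc e_w e_x) (e_xee.trans (congrArg (fun y : ℝ => y * eps) e_xe)) e_xl p_xl p_xh e_cc
  have hgR := gR_GD G.e0 G.κ0 G.s0 b hQ hcc G.h1_eq p_o2 p_W e_g
  have hγ := gam_g G.e0 G.κ0 G.s0 hgR e_ga
  have hccp : ccp ≤ Real.cos (v.e * (Qk κ (shf κ (shf κ τ))).arg) := cc_t (Qre0' G) hsc.ee (xp_eq G v5 hsc e_wp e_xp) e_xeep e_xlp p_xlp p_xhp e_ccp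
  have hgRp := gR_GD G.e0 G.κ0 (shf_re' G.κ0 G.s0) b' hQp hccp (G.hp_eq v3) p_o2p p_Wp e_gp
  have hγp := gam_g G.e0 G.κ0 (shf_re' G.κ0 G.s0) hgRp e_gap
  have hoo := oo_sharp8 G.κ0 G.s0 hQ (Qre0 G) hsc.ee (x_eq G v5 hsc e_w e_x) e_cu e_xe e_o2u e_ooo
  have hn1 : ‖1 + qq v.e κ (shf κ τ)‖ ≤ Q1 := by
    rw [e_Q1]; exact n1_sharp8 G.e0 G.κ0 G.s0 hq hoo (hg_le G hγ e_hg)
  have hlx : 1 * lsx = v.h1t * lsf * ga := by rw [e_lsx, one_mul]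
  have fr := fr_g G hγ hq hq0 e_hg e_lsf p_hg e_Qb e_ls (hsc.al0 G) hlx hn1
  have hgu : 1 * gu = gap * S := by rw [e_gu]; ring
  obtain ⟨lf0, Ex, hφ⟩ := ph_slz G v2 hsc e_tz hde' hu hz0 he2 (by norm_num) (by norm_num) (by norm_num) e_phux e_Ei e_Eh
  have as8 : As8 xa yb := ⟨p_XM, p_QX, p_e2, p_rl, p_l1, p_a0, p_S, p_zp, p_rr, p_V, p_Rg, p_Rh⟩
  exact far_Cl G D hsc hA0 hA as8 fr hgu hγp hφ pk f p_rplo e_hgp p_hgp p_lspa p_pe p_yy cl e_srcx e_srcs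
    (mul_one v.t) G.t0 (by linear_combination v.t * e_y1 - pk.ye * e_r) p_B

theorem dom_QMa11 {κ : ℝ} {τ : ℂ} {R w : ℝ} {v : B1} (D : PtE (7 * 10⁻¹) v.e κ τ R w)
    (G : Geo κ (shf κ τ) v) (v2 : B2 v) (he2 : 2 ≤ v.e) {S z de : ℝ}
    (hde0 : 0 < de) (hde : de = v.t * z * S) (hu : v.u = z * de) (hz0 : 0 < z)
    (hee : v.e * (de * de) = 1)
    (h : RAs Pool.Agent.helper71.FJ.Crt.QMa.prog11 [S, v.t, z, v.n]) : False := by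
  obtain ⟨tz, e_tz⟩ : ∃ zz : ℝ, zz = v.t * z := ⟨_, rfl⟩
  have hde' : de = tz * S := by rw [e_tz]; exact hde
  obtain ⟨z2, e_z2⟩ : ∃ zz : ℝ, zz = z * z := ⟨_, rfl⟩
  obtain ⟨r, e_r⟩ : ∃ zz : ℝ, zz = v.t * z2 := ⟨_, rfl⟩
  obtain ⟨eps, e_eps⟩ : ∃ zz : ℝ, zz = de * de := ⟨_, rfl⟩
  obtain ⟨tr, e_tr⟩ : ∃ zz : ℝ, zz = v.t * r := ⟨_, rfl⟩
  have hsc := sc_Ma hde' e_tz hu hee hde0 G.t0 hz0.le e_z2 e_r e_tr e_eps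
  obtain ⟨p_B, s0⟩ := ((h
    (1 : ℝ) zQMa_1099511627776_0
    tz e_tz
    de hde'
    v.u hu
    z2 e_z2
    r e_r
    eps e_eps
    tr e_tr
    (1 / 2 : ℝ) zQMa_549755813888_0
    v.tu v.e_tu
    (v.tu * v.n) rfl
    v.h (v.e_h.trans (congrArg (fun y : ℝ => y * (v.tu * v.n)) zQMa_549755813888_0))
    v.u2 v.e_u2
    (v.h * v.h) rfl
    v.jm v.e_jm).2
    v.j v.e_j
    (v.h * v.j) rfl
    v.K (v.e_K.trans (congrArg (fun y : ℝ => y * (v.h * v.j)) zQMa_2199023255552_0))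
    (2 * v.j) (congrArg (fun y : ℝ => y * v.j) zQMa_2199023255552_0)
    v.c0 v.e_c0
    v.m v.e_m
    v.nj v.e_nj
    v.om v.e_om
    v.om1 v.e_om1
    v.op1 v.e_op1
    v.R v.e_R
    v.nj2 v.e_nj2
    v2.Y (v2.e_Y.trans (congrArg (fun y : ℝ => y * v.h) zQMa_10774999203840_0))
    ((341 / 8192) * v2.Y) (congrArg (fun y : ℝ => y * v2.Y) zQMa_45768245248_0)
    (1365 / 8192 : ℝ) zQMa_183207198720_0
    ((341 / 8192) * v2.Y + (1365 / 8192 : ℝ)) rfl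
    (v2.Y * ((341 / 8192) * v2.Y + (1365 / 8192 : ℝ))) rfl
    ((1 / 2 : ℝ) + v2.Y * ((341 / 8192) * v2.Y + (1365 / 8192 : ℝ))) rfl
    (v2.Y * ((1 / 2 : ℝ) + v2.Y * ((341 / 8192) * v2.Y + (1365 / 8192 : ℝ)))) rfl
    v2.pY v2.e_pY
    (v2.Y * v2.pY) rfl
    ((1 / 2) * (v2.Y * v2.pY)) (congrArg (fun y : ℝ => y * (v2.Y * v2.pY)) zQMa_549755813888_0)
    ((1 : ℝ) + (1 / 2) * (v2.Y * v2.pY)) rfl
    v2.Yp v2.e_Yp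
    ((209 / 1024) * v.j) (congrArg (fun y : ℝ => y * v.j) zQMa_224412041216_0)).2
    (v2.Yp⁻¹) rfl
    v2.lm v2.e_lm
    (v.t - v.K) rfl
    (v.t - v.K - v2.lm) rfl
  change 0 < v.t - v.K - v2.lm at p_B
  exact Pool.Agent.helper71.FG.dT_core G v2 D p_B

theorem dom_QMa12 {κ : ℝ} {τ : ℂ} {R w : ℝ} {v : B1} (D : PtE (7 * 10⁻¹) v.e κ τ R w)
    (G : Geo κ (shf κ τ) v) (v2 : B2 v) (he2 : 2 ≤ v.e) {S z de : ℝ}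
    (hde0 : 0 < de) (hde : de = v.t * z * S) (hu : v.u = z * de) (hz0 : 0 < z)
    (hee : v.e * (de * de) = 1)
    (h : RAs Pool.Agent.helper71.FJ.Crt.QMa.prog12 [S, v.t, z, v.n]) : False := by
  obtain ⟨tz, e_tz⟩ : ∃ zz : ℝ, zz = v.t * z := ⟨_, rfl⟩
  have hde' : de = tz * S := by rw [e_tz]; exact hde
  obtain ⟨z2, e_z2⟩ : ∃ zz : ℝ, zz = z * z := ⟨_, rfl⟩
  obtain ⟨r, e_r⟩ : ∃ zz : ℝ, zz = v.t * z2 := ⟨_, rfl⟩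
  obtain ⟨eps, e_eps⟩ : ∃ zz : ℝ, zz = de * de := ⟨_, rfl⟩
  obtain ⟨tr, e_tr⟩ : ∃ zz : ℝ, zz = v.t * r := ⟨_, rfl⟩
  obtain ⟨Gt, e_Gt⟩ : ∃ zz : ℝ, zz = 2 * v.c0 - v.t - v.K * v.om := ⟨_, rfl⟩
  obtain ⟨C2, e_C2⟩ : ∃ zz : ℝ, zz = (1 : ℝ) * v.nj * ((1 : ℝ) * v.nj) * ((13 : ℝ) * (10 : ℝ)⁻¹) + 25 * (S * S) := ⟨_, rfl⟩
  have hsc := sc_Ma hde' e_tz hu hee hde0 G.t0 hz0.le e_z2 e_r e_tr e_eps
  obtain ⟨p_B, s0⟩ := ((h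
    (1 : ℝ) zQMa_1099511627776_0
    tz e_tz
    de hde'
    v.u hu
    z2 e_z2
    r e_r
    eps e_eps
    tr e_tr
    (1 / 2 : ℝ) zQMa_549755813888_0
    v.tu v.e_tu
    (v.tu * v.n) rfl
    v.h (v.e_h.trans (congrArg (fun y : ℝ => y * (v.tu * v.n)) zQMa_549755813888_0))
    v.u2 v.e_u2
    (v.h * v.h) rfl
    v.jm v.e_jm).2
    v.j v.e_j
    (v.h * v.j) rfl
    v.K (v.e_K.trans (congrArg (fun y : ℝ => y * (v.h * v.j)) zQMa_2199023255552_0))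
    (2 * v.j) (congrArg (fun y : ℝ => y * v.j) zQMa_2199023255552_0)
    v.c0 v.e_c0
    v.m v.e_m
    v.nj v.e_nj
    v.om v.e_om
    v.om1 v.e_om1
    v.op1 v.e_op1
    v.R v.e_R
    v.nj2 v.e_nj2
    (2 * v.c0) (congrArg (fun y : ℝ => y * v.c0) zQMa_2199023255552_0)
    (2 * v.c0 - v.t) rfl
    (v.K * v.om) rfl
    Gt e_Gt
    ((1 : ℝ) * v.nj) rfl
    ((1 : ℝ) * v.nj * ((1 : ℝ) * v.nj)) rfl
    (13 : ℝ) zQMa_14293651161088_0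
    (10 : ℝ) zQMa_10995116277760_0).2
    ((10 : ℝ)⁻¹) rfl
    ((13 : ℝ) * (10 : ℝ)⁻¹) rfl
    ((1 : ℝ) * v.nj * ((1 : ℝ) * v.nj) * ((13 : ℝ) * (10 : ℝ)⁻¹)) rfl
    (S * S) rfl
    (25 * (S * S)) (congrArg (fun y : ℝ => y * (S * S)) zQMa_27487790694400_0)
    C2 e_C2
    ((1 : ℝ) * (1 : ℝ)) rfl
    (v.om1 * v.op1) rfl
    ((1 : ℝ) * (1 : ℝ) * (v.om1 * v.op1)) rfl
    (v.t * v.om1) rfl
    ((1 : ℝ) - v.t * v.om1) rfl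
    (v.R * Gt) rfl
    ((1 : ℝ) - v.R * Gt) rfl
    (((1 : ℝ) - v.t * v.om1) * ((1 : ℝ) - v.R * Gt)) rfl
    (C2 * (((1 : ℝ) - v.t * v.om1) * ((1 : ℝ) - v.R * Gt))) rfl
    ((1 : ℝ) * (1 : ℝ) * (v.om1 * v.op1) - C2 * (((1 : ℝ) - v.t * v.om1) * ((1 : ℝ) - v.R * Gt))) rfl
  change 0 < (1 : ℝ) * (1 : ℝ) * (v.om1 * v.op1) - C2 * (((1 : ℝ) - v.t * v.om1) * ((1 : ℝ) - v.R * Gt)) at p_B
  exact dm_R G v2 D hsc e_C2 e_Gt p_B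

theorem dom_QMa13 {κ : ℝ} {τ : ℂ} {R w : ℝ} {v : B1} (D : PtE (7 * 10⁻¹) v.e κ τ R w)
    (G : Geo κ (shf κ τ) v) (v2 : B2 v) (he2 : 2 ≤ v.e) {S z de : ℝ}
    (hde0 : 0 < de) (hde : de = v.t * z * S) (hu : v.u = z * de) (hz0 : 0 < z)
    (hee : v.e * (de * de) = 1)
    (hE : 100 ≤ v.e)
    (h : RAs Pool.Agent.helper71.FJ.Crt.QMa.prog13 [S, v.t, z, v.n]) : False := by
  obtain ⟨tz, e_tz⟩ : ∃ zz : ℝ, zz = v.t * z := ⟨_, rfl⟩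
  have hde' : de = tz * S := by rw [e_tz]; exact hde
  obtain ⟨z2, e_z2⟩ : ∃ zz : ℝ, zz = z * z := ⟨_, rfl⟩
  obtain ⟨r, e_r⟩ : ∃ zz : ℝ, zz = v.t * z2 := ⟨_, rfl⟩
  obtain ⟨eps, e_eps⟩ : ∃ zz : ℝ, zz = de * de := ⟨_, rfl⟩
  obtain ⟨tr, e_tr⟩ : ∃ zz : ℝ, zz = v.t * r := ⟨_, rfl⟩
  have hsc := sc_Ma hde' e_tz hu hee hde0 G.t0 hz0.le e_z2 e_r e_tr e_eps
  obtain ⟨p_B, s0⟩ := h
    (1 : ℝ) zQMa_1099511627776_0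
    tz e_tz
    de hde'
    v.u hu
    z2 e_z2
    r e_r
    eps e_eps
    tr e_tr
    (5243 / 524288 : ℝ) zQMa_10995367936_0
    (eps - (5243 / 524288 : ℝ)) rfl
  change 0 < eps - (5243 / 524288 : ℝ) at p_B
  exact dm_lo hsc.ee hE (by norm_num) (by norm_num) p_B

theorem ptQMa {κ : ℝ} {τ : ℂ} {R w : ℝ} {v : B1} (D : PtE (7 * 10⁻¹) v.e κ τ R w)
    (G : Geo κ (shf κ τ) v) (he2 : 2 ≤ v.e) {S z de : ℝ}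
    (hde0 : 0 < de) (hde : de = v.t * z * S) (hu : v.u = z * de) (hz0 : 0 < z)
    (hee : v.e * (de * de) = 1)
    (hE : 100 ≤ v.e)
    (hK : v.e * v.K ^ 2 ≤ 22716 / 16384 + 461 / 256 * de)
    (hz2 : z ≤ 2)
    (h : ∃ ops ∈ Pool.Agent.helper71.FJ.Crt.QMa.progs, RAs ops [S, v.t, z, v.n]) :
    FarPt v.e κ (1 - Real.sinh κ / 1024) w (2 * AQ v.e v.K * Real.sinh κ ^ 2) R
      (RE v.e κ (w * R)) τ := by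
  obtain ⟨v2⟩ := exB2 v
  obtain ⟨v3⟩ := exB3 v
  obtain ⟨v5⟩ := exV5 v
  obtain ⟨l1⟩ := exLg v.D
  obtain ⟨l2⟩ := exLg v.D2
  obtain ⟨lv⟩ := exLV v l1 l2
  obtain ⟨ops, ho, hr⟩ := h
  rw [Pool.Agent.helper71.FJ.Crt.QMa.progs] at ho
  simp only [List.mem_cons, List.not_mem_nil, or_false] at ho
  rcases ho with rfl | rfl | rfl | rfl | rfl | rfl | rfl | rfl | rfl | rfl | rfl | rfl | rfl | rfl
  · exact far_QMa0 D G v2 v3 v5 lv he2 hde0 hde hu hz0 hee hr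
  · exact far_QMa1 D G v2 v3 v5 lv he2 hde0 hde hu hz0 hee hr
  · exact far_QMa2 D G v2 v3 v5 lv he2 hde0 hde hu hz0 hee hr
  · exact far_QMa3 D G v2 v3 v5 lv he2 hde0 hde hu hz0 hee hr
  · exact far_QMa4 D G v2 v3 v5 lv he2 hde0 hde hu hz0 hee hr
  · exact far_QMa5 D G v2 v3 v5 lv he2 hde0 hde hu hz0 hee hr
  · exact far_QMa6 D G v2 v3 v5 lv he2 hde0 hde hu hz0 hee hr
  · exact far_QMa7 D G v2 v3 v5 lv he2 hde0 hde hu hz0 hee hr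
  · exact far_QMa8 D G v2 v3 v5 lv he2 hde0 hde hu hz0 hee hr
  · exact far_QMa9 D G v2 v3 v5 lv he2 hde0 hde hu hz0 hee hr
  · exact far_QMa10 D G v2 v3 v5 lv he2 hde0 hde hu hz0 hee hr
  · exact (dom_QMa11 D G v2 he2 hde0 hde hu hz0 hee  hr).elim
  · exact (dom_QMa12 D G v2 he2 hde0 hde hu hz0 hee  hr).elim
  · exact (dom_QMa13 D G v2 he2 hde0 hde hu hz0 hee hE hr).elim

end Pool.Agent.helper71.FJ
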