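import Pool.Agent.helper31.IC.EngD
import Pool.Agent.helper14.QF.Inst

/-!
Generated: straight line program(s) and compiled form(s).
-/

namespace Pool.Agent.helper71.FJ.Crt.QMb

open Pool.Agent.helper31.IA (Z Op)
open Pool.Agent.helper31.IC

set_option maxRecDepth 100000

abbrev opsE : Ops := Pool.Agent.helper14.QF.opsF

def prog0 : List Op := [
  .const ⟨1099511627776, 0, 0, 0⟩,
  .mul 2 1,
  .mul 4 4,
  .mul 4 0,
  .mul 5 6,
  .mul 0 5,
  .mul 0 0,
  .mul 3 8,
  .const ⟨549755813888, 0, 0, 0⟩,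
  .mul 5 7,
  .mul 0 13,
  .scale ⟨549755813888, 0, 0, 0⟩ 0,
  .mul 10 10,
  .mul 1 1,
  .sub 13 0,
  .inv 0,
  .mul 4 0,
  .scale ⟨2199023255552, 0, 0, 0⟩ 0,
  .scale ⟨2199023255552, 0, 0, 0⟩ 2,
  .sub 0 18,
  .add 0 2,
  .mul 24 5,
  .mul 20 0,
  .sub 22 0,
  .add 23 1,
  .mul 21 12,
  .mul 4 4,
  .scale ⟨10774999203840, 0, 0, 0⟩ 15,
  .scale ⟨45768245248, 0, 0, 0⟩ 0,
  .const ⟨183207198720, 0, 0, 0⟩,
  .add 1 0,
  .mul 3 0,
  .add 23 0,
  .mul 5 0,
  .add 33 0,
  .mul 7 0,
  .scale ⟨549755813888, 0, 0, 0⟩ 0,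
  .add 36 0,
  .mul 3 0,
  .mul 21 16,
  .scale ⟨2199023255552, 0, 0, 0⟩ 20,
  .add 1 0,
  .add 0 38,
  .mul 17 0,
  .add 0 43,
  .mul 27 27,
  .scale ⟨2199023255552, 0, 0, 0⟩ 0,
  .add 0 46,
  .mul 28 5,
  .sub 0 48,
  .log 5,
  .scale ⟨549755813888, 0, 0, 0⟩ 0,
  .exp 0,
  .const ⟨3298534883328, 0, 0, 0⟩,
  .inv 0,
  .mul 54 0,
  .const ⟨2199023255552, 0, 0, 0⟩,
  .add 13 0,
  .inv 0,
  .mul 15 0,
  .mul 0 0,
  .sub 60 1,
  .mul 1 6,
  .add 62 0,
  .mul 2 0,
  .mul 4 4,
  .scale ⟨219915747328, 0, 0, 0⟩ 0,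
  .mul 24 2,
  .scale ⟨549755813888, 0, 0, 0⟩ 0,
  .mul 26 2,
  .scale ⟨549755813888, 0, 0, 0⟩ 0,
  .add 2 0,
  .mul 52 22,
  .scale ⟨4398046511104, 0, 0, 0⟩ 0,
  .mul 54 48,
  .mul 0 25,
  .scale ⟨4398046511104, 0, 0, 0⟩ 0,
  .add 0 20,
  .inv 0,
  .mul 2 0,
  .mul 0 0,
  .sub 80 1,
  .mul 1 26,
  .add 82 0,
  .mul 2 0,
  .mul 4 4,
  .scale ⟨219915747328, 0, 0, 0⟩ 0,
  .mul 13 2,
  .scale ⟨549755813888, 0, 0, 0⟩ 0,
  .sub 0 17,
  .mul 16 3,
  .scale ⟨549755813888, 0, 0, 0⟩ 0,
  .add 0 21,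
  .add 3 0,
  .mul 95 25,
  .neg 0,
  .exp 0,
  .mul 98 26,
  .mul 1 0,
  .mul 100 9,
  .neg 0,
  .exp 0,
  .mul 103 9,
  .mul 1 0,
  .mul 81 86,
  .add 85 0,
  .inv 0,
  .mul 82 0,
  .mul 84 104,
  .mul 0 1,
  .sub 109 97,
  .mul 84 0,
  .mul 102 102,
  .sub 112 86,
  .mul 3 0,
  .mul 89 65,
  .inv 71,
  .mul 1 0,
  .add 98 0,
  .mul 74 0,
  .mul 0 0,
  .inv 0,
  .mul 7 0,
  .add 103 97,
  .mul 124 0,
  .inv 0,
  .mul 125 0,
  .mul 0 0,
  .mul 0 13,
  .const ⟨10849087389696, 0, 0, 0⟩,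
  .sub 0 1,
  .pos 0,
  .const ⟨13, 0, 0, 0⟩,
  .const ⟨2295, 0, 0, 0⟩,
  .mul 4 1,
  .sub 1 0,
  .const ⟨302996, 0, 0, 0⟩,
  .mul 7 1,
  .sub 1 0,
  .const ⟨27269633, 0, 0, 0⟩,
  .mul 10 1,
  .sub 1 0,
  .const ⟨1527099484, 0, 0, 0⟩,
  .mul 13 1,
  .sub 1 0,
  .const ⟨45812984490, 0, 0, 0⟩,
  .mul 16 1,
  .sub 1 0,
  .mul 18 0,
  .sub 139 0,
  .mul 20 0,
  .sub 149 0,
  .add 54 150,
  .mul 55 55,
  .add 0 152,
  .mul 57 3,
  .scale ⟨2199023255552, 0, 0, 0⟩ 0,
  .add 2 0,
  .scale ⟨4398046511104, 0, 0, 0⟩ 58,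
  .sub 1 0,
  .inv 7,
  .mul 1 0,
  .add 0 9,
  .mul 65 52,
  .scale ⟨549755813888, 0, 0, 0⟩ 0,
  .mul 0 2,
  .sub 6 0,
  .pos 7,
  .pos 0,
  .sub 165 69,
  .mul 0 15,
  .scale ⟨2199023255552, 0, 0, 0⟩ 69,
  .add 1 0,
  .inv 4,
  .mul 1 0,
  .scale ⟨549755813888, 0, 0, 0⟩ 0,
  .add 0 164,
  .inv 0,
  .mul 2 0,
  .mul 66 0,
  .scale ⟨549755813888, 0, 0, 0⟩ 0,
  .sub 177 0,
  .sub 178 2,
  .inv 0,
  .mul 2 0,
  .add 5 181,
  .mul 86 0,
  .mul 76 2,
  .mul 0 9,
  .mul 9 4,
  .pos 7,
  .mul 163 162,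
  .add 168 184,
  .mul 166 169,
  .mul 0 172,
  .scale ⟨2199023255552, 0, 0, 0⟩ 0,
  .add 144 0,
  .mul 4 0,
  .inv 0,
  .mul 7 0,
  .mul 192 0,
  .pos 107,
  .mul 68 80,
  .sub 68 0,
  .pos 0,
  .mul 1 67,
  .sub 67 0,
  .mul 3 0,
  .sub 66 0,
  .mul 5 0,
  .sub 65 0,
  .mul 7 0,
  .sub 64 0,
  .mul 9 0,
  .sub 63 0,
  .mul 11 0,
  .sub 201 0,
  .mul 13 0,
  .sub 211 0,
  .add 111 212,
  .mul 112 112,
  .add 0 214,
  .mul 114 3,
  .scale ⟨2199023255552, 0, 0, 0⟩ 0,
  .add 2 0,
  .scale ⟨4398046511104, 0, 0, 0⟩ 115,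
  .sub 1 0,
  .inv 7,
  .mul 1 0,
  .add 0 9,
  .mul 122 27,
  .scale ⟨549755813888, 0, 0, 0⟩ 0,
  .mul 0 2,
  .sub 6 0,
  .pos 7,
  .pos 0,
  .sub 227 126,
  .mul 0 15,
  .scale ⟨2199023255552, 0, 0, 0⟩ 126,
  .add 1 0,
  .inv 4,
  .mul 1 0,
  .scale ⟨549755813888, 0, 0, 0⟩ 0,
  .add 0 226,
  .inv 0,
  .mul 2 0,
  .mul 41 0,
  .mul 1 239,
  .add 228 239,
  .inv 0,
  .mul 230 0,
  .scale ⟨2199023255552, 0, 0, 0⟩ 0,
  .sub 243 0,
  .sub 244 233,
  .mul 249 4,
  .mul 0 2,
  .add 223 0,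
  .scale ⟨224412041216, 0, 0, 0⟩ 233,
  .inv 211,
  .mul 1 0,
  .scale ⟨4398046511104, 0, 0, 0⟩ 252,
  .mul 252 231,
  .add 1 0,
  .inv 0,
  .mul 255 0,
  .mul 257 1,
  .mul 0 233,
  .mul 0 7,
  .mul 3 235,
  .mul 0 9,
  .sub 261 0,
  .inv 0,
  .mul 80 2,
  .sub 264 0,
  .inv 0,
  .scale ⟨2199023255552, 0, 0, 0⟩ 260,
  .add 0 267,
  .add 262 268,
  .scale ⟨3573412790272, 0, 0, 0⟩ 247,
  .const ⟨339302416384, 0, 0, 0⟩,
  .add 1 0,
  .scale ⟨549755813888, 0, 0, 0⟩ 0,
  .mul 262 252,
  .sub 274 163,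
  .mul 264 253,
  .scale ⟨2199023255552, 0, 0, 0⟩ 0,
  .sub 2 0,
  .mul 4 4,
  .add 1 0,
  .add 0 280,
  .scale ⟨549755813888, 0, 0, 0⟩ 0,
  .scale ⟨549755813888, 0, 0, 0⟩ 257,
  .sub 268 0,
  .mul 172 9,
  .mul 0 271,
  .scale ⟨137438953472, 0, 0, 0⟩ 0,
  .add 3 0,
  .mul 6 0,
  .const ⟨1, 0, 0, 0⟩,
  .const ⟨12, 0, 0, 0⟩,
  .mul 163 1,
  .sub 1 0,
  .const ⟨2296, 0, 0, 0⟩,
  .mul 166 1,
  .sub 1 0,
  .const ⟨302995, 0, 0, 0⟩,
  .mul 169 1,
  .sub 1 0,
  .const ⟨27269634, 0, 0, 0⟩,
  .mul 172 1,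
  .sub 1 0,
  .const ⟨1527099483, 0, 0, 0⟩,
  .mul 175 1,
  .sub 1 0,
  .const ⟨45812984491, 0, 0, 0⟩,
  .mul 178 1,
  .sub 1 0,
  .mul 180 0,
  .sub 301 0,
  .mul 182 0,
  .sub 311 0,
  .mul 184 306,
  .mul 0 0,
  .scale ⟨369367187456, 0, 0, 0⟩ 0,
  .add 3 0,
  .mul 220 0,
  .scale ⟨2199023255552, 0, 0, 0⟩ 0,
  .add 165 0,
  .add 0 151,
  .const ⟨8589934592, 0, 0, 0⟩,
  .add 1 0,
  .log 0,
  .scale ⟨549755813888, 0, 0, 0⟩ 0,
  .exp 0,
  .mul 229 149,
  .add 1 0,
  .mul 0 64,
  .mul 145 62,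
  .add 1 0,
  .mul 69 0,
  .add 145 0,
  .mul 0 326,
  .mul 6 72,
  .mul 0 71,
  .add 149 0,
  .mul 0 330,
  .scale ⟨223338299392, 0, 0, 0⟩ 0,
  .add 330 0,
  .mul 2 0,
  .add 340 0,
  .scale ⟨893353197568, 0, 0, 0⟩ 8,
  .add 342 0,
  .mul 10 0,
  .add 344 0,
  .mul 102 99,
  .mul 0 78,
  .mul 0 2,
  .mul 59 7,
  .add 297 341,
  .mul 2 0,
  .add 2 0,
  .add 300 352,
  .mul 5 0,
  .mul 85 1,
  .mul 0 109,
  .mul 0 111,
  .mul 5 172,
  .mul 1 85,
  .add 1 0,
  .mul 362 112,
  .inv 309,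
  .mul 1 0,
  .scale ⟨549755813888, 0, 0, 0⟩ 0,
  .mul 341 0,
  .add 0 5,
  .mul 363 0,
  .mul 368 0,
  .mul 16 41,
  .mul 0 106,
  .mul 16 187,
  .mul 0 105,
  .add 2 0,
  .mul 350 5,
  .mul 115 1,
  .add 1 0,
  .mul 264 0,
  .mul 0 15,
  .sub 378 0,
  .inv 0,
  .mul 4 0,
  .mul 378 0,
  .mul 270 1,
  .mul 0 21,
  .sub 384 0,
  .mul 336 0,
  .sub 0 4,
  .inv 0,
  .mul 6 0,
  .sub 337 6,
  .inv 0,
  .mul 2 154,
  .scale ⟨549755813888, 0, 0, 0⟩ 0,
  .sub 393 0,
  .sub 394 2,
  .inv 0,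
  .mul 2 0,
  .mul 396 6,
  .mul 159 10,
  .mul 0 2,
  .add 2 0,
  .mul 394 20,
  .mul 11 0,
  .mul 166 15,
  .mul 0 7,
  .mul 0 23,
  .add 3 0,
  .scale ⟨223338299392, 0, 0, 0⟩ 0,
  .add 400 0,
  .mul 2 0,
  .add 410 0,
  .mul 10 0,
  .mul 0 32,
  .mul 0 40,
  .mul 154 391,
  .const ⟨7696581394432, 0, 0, 0⟩,
  .const ⟨10995116277760, 0, 0, 0⟩,
  .inv 0,
  .mul 2 0,
  .mul 179 395,
  .mul 0 1,
  .mul 233 315,
  .mul 400 0,
  .scale ⟨549755813888, 0, 0, 0⟩ 185,
  .sub 424 0,
  .sub 425 187,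
  .inv 0,
  .mul 2 0,
  .mul 0 232,
  .mul 317 307,
  .scale ⟨733097230336, 0, 0, 0⟩ 0,
  .sub 431 0,
  .mul 310 0,
  .mul 344 344,
  .mul 422 0,
  .add 2 0,
  .mul 7 197,
  .add 1 437,
  .mul 1 0,
  .sub 3 0,
  .scale ⟨366548615168, 0, 0, 0⟩ 395,
  .sub 441 0,
  .mul 416 0,
  .add 3 0,
  .mul 22 0,
  .mul 22 22,
  .add 446 0,
  .inv 0,
  .mul 3 0,
  .sub 449 60,
  .mul 0 1,
  .sub 451 14,
  .pos 0,
  .pos 3,
  .pos 2,
  .mul 39 198,
  .mul 0 87,
  .inv 430,
  .mul 1 0,
  .mul 458 5,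
  .scale ⟨549755813888, 0, 0, 0⟩ 0,
  .sub 458 0,
  .mul 8 0,
  .neg 0,
  .mul 460 465,
  .mul 0 222,
  .mul 0 448,
  .mul 462 0,
  .add 4 0,
  .mul 5 1,
  .mul 469 0,
  .add 2 0,
  .mul 457 427,
  .scale ⟨412316860416, 0, 0, 0⟩ 427,
  .sub 463 0,
  .mul 2 0,
  .mul 471 0,
  .neg 0,
  .add 6 0,
  .mul 7 1,
  .mul 479 0,
  .add 2 0,
  .mul 478 98,
  .mul 0 25,
  .mul 479 0,
  .add 3 0,
  .mul 4 1,
  .mul 486 0,
  .add 2 0,
  .mul 484 65,
  .sub 1 0,
  .mul 485 67,
  .add 489 0,
  .inv 0,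
  .mul 3 0,
  .mul 491 483,
  .mul 0 112,
  .mul 0 103,
  .mul 493 0,
  .add 4 0,
  .mul 5 1,
  .mul 500 0,
  .add 2 0,
  .mul 502 0,
  .add 501 0,
  .mul 88 241,
  .mul 500 88,
  .mul 48 0,
  .add 2 0,
  .mul 504 0,
  .add 93 51,
  .mul 506 0,
  .mul 2 7,
  .add 10 0,
  .add 0 2,
  .neg 0,
  .scale ⟨1073741824, 0, 0, 0⟩ 511,
  .sub 1 0,
  .sub 495 515,
  .add 0 460,
  .scale ⟨2199023255552, 0, 0, 0⟩ 98,
  .sub 1 0,
  .mul 279 0,
  .mul 4 2,
  .add 0 521,
  .inv 0,
  .mul 3 0,
  .mul 267 151,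
  .scale ⟨549755813888, 0, 0, 0⟩ 274,
  .add 509 0,
  .mul 2 0,
  .scale ⟨2199023255552, 0, 0, 0⟩ 0,
  .add 161 0,
  .scale ⟨2199023255552, 0, 0, 0⟩ 0,
  .mul 0 151,
  .mul 523 151,
  .sub 509 0,
  .inv 0,
  .mul 3 0,
  .sub 12 0,
  .mul 284 284,
  .const ⟨14293651161088, 0, 0, 0⟩,
  .mul 0 121,
  .mul 2 0,
  .mul 542 542,
  .scale ⟨27487790694400, 0, 0, 0⟩ 0,
  .add 2 0,
  .mul 123 53,
  .sub 505 542,
  .sub 0 507,
  .mul 547 546,
  .mul 0 549,
  .mul 525 176,
  .mul 0 295,
  .add 191 0,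
  .add 19 496,
  .mul 553 0,
  .mul 10 9,
  .mul 175 1,
  .mul 7 4,
  .mul 1 0,
  .sub 3 0,
  .scale ⟨549755813888, 0, 0, 0⟩ 26,
  .add 560 0,
  .mul 181 0,
  .mul 559 539,
  .mul 0 315,
  .mul 540 512,
  .inv 0,
  .mul 2 0,
  .mul 5 0,
  .sub 21 0,
  .mul 318 10,
  .sub 570 319,
  .mul 559 2,
  .mul 1 0,
  .mul 29 0,
  .add 4 0,
  .pos 313,
  .pos 310,
  .scale ⟨2199023255552, 0, 0, 0⟩ 198,
  .sub 524 0,
  .pos 0,
  .pos 190,
  .sub 569 339,
  .pos 0,
  .scale ⟨687194767360, 0, 0, 0⟩ 578,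
  .sub 0 242,
  .pos 0,
  .scale ⟨377957122048, 0, 0, 0⟩ 580,
  .sub 0 248,
  .pos 0,
  .pos 48,
  .pos 187,
  .sub 3 175,
  .pos 0,
  .pos 46,
  .pos 68,
  .pos 8,
  .pos 14]

def chk0 {α : Type} (cst : Z → α) (add sub mul : α → α → α) (scale : Z → α → α)
    (neg inv exp log : α → α) (ok : α → Bool) (isPos : Nat → α → Bool) (isLt : α → Nat → Bool) :
    List α → Bool
  | [x0, x1, x2, x3] =>
  let v0 := cst ⟨1099511627776, 0, 0, 0⟩; ok v0 && (
  let v1 := mul x1 x0; ok v1 && (
  let v2 := mul x2 x2; ok v2 && (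
  let v3 := mul x1 v2; ok v3 && (
  let v4 := mul x1 x2; ok v4 && (
  let v5 := mul v4 x0; ok v5 && (
  let v6 := mul v5 v5; ok v6 && (
  let v7 := mul v3 x1; ok v7 && (
  let v8 := cst ⟨549755813888, 0, 0, 0⟩; ok v8 && (
  let v9 := mul v3 v1; ok v9 && (
  let v10 := mul v9 x3; ok v10 && (
  let v11 := scale ⟨549755813888, 0, 0, 0⟩ v10; ok v11 && (
  let v12 := mul v1 v1; ok v12 && (
  let v13 := mul v11 v11; ok v13 && (
  let v14 := sub v0 v13; ok v14 && (
  let v15 := inv v14; ok v15 && (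
  let v16 := mul v11 v15; ok v16 && (
  let v17 := scale ⟨2199023255552, 0, 0, 0⟩ v16; ok v17 && (
  let v18 := scale ⟨2199023255552, 0, 0, 0⟩ v15; ok v18 && (
  let v19 := sub v18 v0; ok v19 && (
  let v20 := add v19 v17; ok v20 && (
  let v21 := mul x3 v15; ok v21 && (
  let v22 := mul v1 v21; ok v22 && (
  let v23 := sub v0 v22; ok v23 && (
  let v24 := add v0 v22; ok v24 && (
  let v25 := mul v3 v12; ok v25 && (
  let v26 := mul v21 v21; ok v26 && (
  let v27 := scale ⟨10774999203840, 0, 0, 0⟩ v11; ok v27 && (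
  let v28 := scale ⟨45768245248, 0, 0, 0⟩ v27; ok v28 && (
  let v29 := cst ⟨183207198720, 0, 0, 0⟩; ok v29 && (
  let v30 := add v28 v29; ok v30 && (
  let v31 := mul v27 v30; ok v31 && (
  let v32 := add v8 v31; ok v32 && (
  let v33 := mul v27 v32; ok v33 && (
  let v34 := add v0 v33; ok v34 && (
  let v35 := mul v27 v34; ok v35 && (
  let v36 := scale ⟨549755813888, 0, 0, 0⟩ v35; ok v36 && (
  let v37 := add v0 v36; ok v37 && (
  let v38 := mul v34 v37; ok v38 && (
  let v39 := mul v17 v22; ok v39 && (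
  let v40 := scale ⟨2199023255552, 0, 0, 0⟩ v19; ok v40 && (
  let v41 := add v39 v40; ok v41 && (
  let v42 := add v41 v3; ok v42 && (
  let v43 := mul v25 v42; ok v43 && (
  let v44 := add v43 v0; ok v44 && (
  let v45 := mul v17 v17; ok v45 && (
  let v46 := scale ⟨2199023255552, 0, 0, 0⟩ v45; ok v46 && (
  let v47 := add v46 v0; ok v47 && (
  let v48 := mul v19 v42; ok v48 && (
  let v49 := sub v48 v0; ok v49 && (
  let v50 := log v44; ok v50 && (
  let v51 := scale ⟨549755813888, 0, 0, 0⟩ v50; ok v51 && (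
  let v52 := exp v51; ok v52 && (
  let v53 := cst ⟨3298534883328, 0, 0, 0⟩; ok v53 && (
  let v54 := inv v53; ok v54 && (
  let v55 := mul v0 v54; ok v55 && (
  let v56 := cst ⟨2199023255552, 0, 0, 0⟩; ok v56 && (
  let v57 := add v43 v56; ok v57 && (
  let v58 := inv v57; ok v58 && (
  let v59 := mul v43 v58; ok v59 && (
  let v60 := mul v59 v59; ok v60 && (
  let v61 := sub v0 v59; ok v61 && (
  let v62 := mul v60 v55; ok v62 && (
  let v63 := add v0 v62; ok v63 && (
  let v64 := mul v61 v63; ok v64 && (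
  let v65 := mul v60 v60; ok v65 && (
  let v66 := scale ⟨219915747328, 0, 0, 0⟩ v65; ok v66 && (
  let v67 := mul v42 v64; ok v67 && (
  let v68 := scale ⟨549755813888, 0, 0, 0⟩ v67; ok v68 && (
  let v69 := mul v42 v66; ok v69 && (
  let v70 := scale ⟨549755813888, 0, 0, 0⟩ v69; ok v70 && (
  let v71 := add v68 v70; ok v71 && (
  let v72 := mul v19 v49; ok v72 && (
  let v73 := scale ⟨4398046511104, 0, 0, 0⟩ v72; ok v73 && (
  let v74 := mul v19 v25; ok v74 && (
  let v75 := mul v74 v49; ok v75 && (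
  let v76 := scale ⟨4398046511104, 0, 0, 0⟩ v75; ok v76 && (
  let v77 := add v76 v56; ok v77 && (
  let v78 := inv v77; ok v78 && (
  let v79 := mul v76 v78; ok v79 && (
  let v80 := mul v79 v79; ok v80 && (
  let v81 := sub v0 v79; ok v81 && (
  let v82 := mul v80 v55; ok v82 && (
  let v83 := add v0 v82; ok v83 && (
  let v84 := mul v81 v83; ok v84 && (
  let v85 := mul v80 v80; ok v85 && (
  let v86 := scale ⟨219915747328, 0, 0, 0⟩ v85; ok v86 && (
  let v87 := mul v73 v84; ok v87 && (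
  let v88 := scale ⟨549755813888, 0, 0, 0⟩ v87; ok v88 && (
  let v89 := sub v88 v71; ok v89 && (
  let v90 := mul v73 v86; ok v90 && (
  let v91 := scale ⟨549755813888, 0, 0, 0⟩ v90; ok v91 && (
  let v92 := add v91 v70; ok v92 && (
  let v93 := add v89 v92; ok v93 && (
  let v94 := mul x1 v68; ok v94 && (
  let v95 := neg v94; ok v95 && (
  let v96 := exp v95; ok v96 && (
  let v97 := mul x1 v70; ok v97 && (
  let v98 := mul v96 v97; ok v98 && (
  let v99 := mul x1 v89; ok v99 && (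
  let v100 := neg v99; ok v100 && (
  let v101 := exp v100; ok v101 && (
  let v102 := mul x1 v92; ok v102 && (
  let v103 := mul v101 v102; ok v103 && (
  let v104 := mul v22 v17; ok v104 && (
  let v105 := add v19 v104; ok v105 && (
  let v106 := inv v105; ok v106 && (
  let v107 := mul v24 v106; ok v107 && (
  let v108 := mul v23 v3; ok v108 && (
  let v109 := mul v108 v107; ok v109 && (
  let v110 := sub v0 v12; ok v110 && (
  let v111 := mul v26 v110; ok v111 && (
  let v112 := mul v9 v9; ok v112 && (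
  let v113 := sub v0 v26; ok v113 && (
  let v114 := mul v110 v113; ok v114 && (
  let v115 := mul v25 v49; ok v115 && (
  let v116 := inv v44; ok v116 && (
  let v117 := mul v115 v116; ok v117 && (
  let v118 := add v19 v117; ok v118 && (
  let v119 := mul v44 v118; ok v119 && (
  let v120 := mul v119 v119; ok v120 && (
  let v121 := inv v120; ok v121 && (
  let v122 := mul v114 v121; ok v122 && (
  let v123 := add v19 v25; ok v123 && (
  let v124 := mul x0 v123; ok v124 && (
  let v125 := inv v124; ok v125 && (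
  let v126 := mul v0 v125; ok v126 && (
  let v127 := mul v126 v126; ok v127 && (
  let v128 := mul v127 v114; ok v128 && (
  let v129 := cst ⟨10849087389696, 0, 0, 0⟩; ok v129 && (
  let v130 := sub v129 v128; ok v130 && (
  isPos 4 v130 && (
  let v131 := cst ⟨13, 0, 0, 0⟩; ok v131 && (
  let v132 := cst ⟨2295, 0, 0, 0⟩; ok v132 && (
  let v133 := mul v128 v131; ok v133 && (
  let v134 := sub v132 v133; ok v134 && (
  let v135 := cst ⟨302996, 0, 0, 0⟩; ok v135 && (
  let v136 := mul v128 v134; ok v136 && (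
  let v137 := sub v135 v136; ok v137 && (
  let v138 := cst ⟨27269633, 0, 0, 0⟩; ok v138 && (
  let v139 := mul v128 v137; ok v139 && (
  let v140 := sub v138 v139; ok v140 && (
  let v141 := cst ⟨1527099484, 0, 0, 0⟩; ok v141 && (
  let v142 := mul v128 v140; ok v142 && (
  let v143 := sub v141 v142; ok v143 && (
  let v144 := cst ⟨45812984490, 0, 0, 0⟩; ok v144 && (
  let v145 := mul v128 v143; ok v145 && (
  let v146 := sub v144 v145; ok v146 && (
  let v147 := mul v128 v146; ok v147 && (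
  let v148 := sub v8 v147; ok v148 && (
  let v149 := mul v128 v148; ok v149 && (
  let v150 := sub v0 v149; ok v150 && (
  let v151 := add v96 v0; ok v151 && (
  let v152 := mul v96 v96; ok v152 && (
  let v153 := add v152 v0; ok v153 && (
  let v154 := mul v96 v150; ok v154 && (
  let v155 := scale ⟨2199023255552, 0, 0, 0⟩ v154; ok v155 && (
  let v156 := add v153 v155; ok v156 && (
  let v157 := scale ⟨4398046511104, 0, 0, 0⟩ v98; ok v157 && (
  let v158 := sub v156 v157; ok v158 && (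
  let v159 := inv v151; ok v159 && (
  let v160 := mul v158 v159; ok v160 && (
  let v161 := add v160 v151; ok v161 && (
  let v162 := mul v96 v109; ok v162 && (
  let v163 := scale ⟨549755813888, 0, 0, 0⟩ v162; ok v163 && (
  let v164 := mul v163 v161; ok v164 && (
  let v165 := sub v158 v164; ok v165 && (
  isPos 4 v158 && (
  isPos 4 v165 && (
  let v166 := sub v0 v96; ok v166 && (
  let v167 := mul v166 v151; ok v167 && (
  let v168 := scale ⟨2199023255552, 0, 0, 0⟩ v98; ok v168 && (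
  let v169 := add v167 v168; ok v169 && (
  let v170 := inv v165; ok v170 && (
  let v171 := mul v169 v170; ok v171 && (
  let v172 := scale ⟨549755813888, 0, 0, 0⟩ v171; ok v172 && (
  let v173 := add v172 v8; ok v173 && (
  let v174 := inv v173; ok v174 && (
  let v175 := mul v172 v174; ok v175 && (
  let v176 := mul v109 v175; ok v176 && (
  let v177 := scale ⟨549755813888, 0, 0, 0⟩ v176; ok v177 && (
  let v178 := sub v0 v177; ok v178 && (
  let v179 := sub v0 v176; ok v179 && (
  let v180 := inv v179; ok v180 && (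
  let v181 := mul v178 v180; ok v181 && (
  let v182 := add v176 v0; ok v182 && (
  let v183 := mul v96 v182; ok v183 && (
  let v184 := mul v107 v181; ok v184 && (
  let v185 := mul v184 v175; ok v185 && (
  let v186 := mul v176 v181; ok v186 && (
  isPos 4 v179 && (
  let v187 := mul v23 v24; ok v187 && (
  let v188 := add v19 v3; ok v188 && (
  let v189 := mul v22 v19; ok v189 && (
  let v190 := mul v189 v17; ok v190 && (
  let v191 := scale ⟨2199023255552, 0, 0, 0⟩ v190; ok v191 && (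
  let v192 := add v47 v191; ok v192 && (
  let v193 := mul v188 v192; ok v193 && (
  let v194 := inv v193; ok v194 && (
  let v195 := mul v187 v194; ok v195 && (
  let v196 := mul v3 v195; ok v196 && (
  isPos 4 v89 && (
  let v197 := mul v128 v116; ok v197 && (
  let v198 := sub v129 v197; ok v198 && (
  isPos 4 v198 && (
  let v199 := mul v197 v131; ok v199 && (
  let v200 := sub v132 v199; ok v200 && (
  let v201 := mul v197 v200; ok v201 && (
  let v202 := sub v135 v201; ok v202 && (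
  let v203 := mul v197 v202; ok v203 && (
  let v204 := sub v138 v203; ok v204 && (
  let v205 := mul v197 v204; ok v205 && (
  let v206 := sub v141 v205; ok v206 && (
  let v207 := mul v197 v206; ok v207 && (
  let v208 := sub v144 v207; ok v208 && (
  let v209 := mul v197 v208; ok v209 && (
  let v210 := sub v8 v209; ok v210 && (
  let v211 := mul v197 v210; ok v211 && (
  let v212 := sub v0 v211; ok v212 && (
  let v213 := add v101 v0; ok v213 && (
  let v214 := mul v101 v101; ok v214 && (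
  let v215 := add v214 v0; ok v215 && (
  let v216 := mul v101 v212; ok v216 && (
  let v217 := scale ⟨2199023255552, 0, 0, 0⟩ v216; ok v217 && (
  let v218 := add v215 v217; ok v218 && (
  let v219 := scale ⟨4398046511104, 0, 0, 0⟩ v103; ok v219 && (
  let v220 := sub v218 v219; ok v220 && (
  let v221 := inv v213; ok v221 && (
  let v222 := mul v220 v221; ok v222 && (
  let v223 := add v222 v213; ok v223 && (
  let v224 := mul v101 v196; ok v224 && (
  let v225 := scale ⟨549755813888, 0, 0, 0⟩ v224; ok v225 && (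
  let v226 := mul v225 v223; ok v226 && (
  let v227 := sub v220 v226; ok v227 && (
  isPos 4 v220 && (
  isPos 4 v227 && (
  let v228 := sub v0 v101; ok v228 && (
  let v229 := mul v228 v213; ok v229 && (
  let v230 := scale ⟨2199023255552, 0, 0, 0⟩ v103; ok v230 && (
  let v231 := add v229 v230; ok v231 && (
  let v232 := inv v227; ok v232 && (
  let v233 := mul v231 v232; ok v233 && (
  let v234 := scale ⟨549755813888, 0, 0, 0⟩ v233; ok v234 && (
  let v235 := add v234 v8; ok v235 && (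
  let v236 := inv v235; ok v236 && (
  let v237 := mul v234 v236; ok v237 && (
  let v238 := mul v196 v237; ok v238 && (
  let v239 := mul v237 x0; ok v239 && (
  let v240 := add v11 v0; ok v240 && (
  let v241 := inv v240; ok v241 && (
  let v242 := mul v11 v241; ok v242 && (
  let v243 := scale ⟨2199023255552, 0, 0, 0⟩ v242; ok v243 && (
  let v244 := sub v0 v243; ok v244 && (
  let v245 := sub v0 v11; ok v245 && (
  let v246 := mul x3 v241; ok v246 && (
  let v247 := mul v246 v244; ok v247 && (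
  let v248 := add v24 v247; ok v248 && (
  let v249 := scale ⟨224412041216, 0, 0, 0⟩ v15; ok v249 && (
  let v250 := inv v38; ok v250 && (
  let v251 := mul v249 v250; ok v251 && (
  let v252 := scale ⟨4398046511104, 0, 0, 0⟩ x0; ok v252 && (
  let v253 := mul v0 v21; ok v253 && (
  let v254 := add v252 v253; ok v254 && (
  let v255 := inv v254; ok v255 && (
  let v256 := mul v0 v255; ok v256 && (
  let v257 := mul x0 v255; ok v257 && (
  let v258 := mul v257 v24; ok v258 && (
  let v259 := mul v258 v251; ok v259 && (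
  let v260 := mul v256 v24; ok v260 && (
  let v261 := mul v260 v251; ok v261 && (
  let v262 := sub v0 v261; ok v262 && (
  let v263 := inv v262; ok v263 && (
  let v264 := mul v183 v261; ok v264 && (
  let v265 := sub v0 v264; ok v265 && (
  let v266 := inv v265; ok v266 && (
  let v267 := scale ⟨2199023255552, 0, 0, 0⟩ v6; ok v267 && (
  let v268 := add v267 v0; ok v268 && (
  let v269 := add v6 v0; ok v269 && (
  let v270 := scale ⟨3573412790272, 0, 0, 0⟩ v22; ok v270 && (
  let v271 := cst ⟨339302416384, 0, 0, 0⟩; ok v271 && (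
  let v272 := add v270 v271; ok v272 && (
  let v273 := scale ⟨549755813888, 0, 0, 0⟩ v272; ok v273 && (
  let v274 := mul v11 v21; ok v274 && (
  let v275 := sub v0 v111; ok v275 && (
  let v276 := mul v11 v22; ok v276 && (
  let v277 := scale ⟨2199023255552, 0, 0, 0⟩ v276; ok v277 && (
  let v278 := sub v275 v277; ok v278 && (
  let v279 := mul v274 v274; ok v279 && (
  let v280 := add v278 v279; ok v280 && (
  let v281 := add v280 v0; ok v281 && (
  let v282 := scale ⟨549755813888, 0, 0, 0⟩ v281; ok v282 && (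
  let v283 := scale ⟨549755813888, 0, 0, 0⟩ v25; ok v283 && (
  let v284 := sub v15 v283; ok v284 && (
  let v285 := mul v112 v275; ok v285 && (
  let v286 := mul v285 v14; ok v286 && (
  let v287 := scale ⟨137438953472, 0, 0, 0⟩ v286; ok v287 && (
  let v288 := add v284 v287; ok v288 && (
  let v289 := mul v282 v288; ok v289 && (
  let v290 := cst ⟨1, 0, 0, 0⟩; ok v290 && (
  let v291 := cst ⟨12, 0, 0, 0⟩; ok v291 && (
  let v292 := mul v128 v290; ok v292 && (
  let v293 := sub v291 v292; ok v293 && (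
  let v294 := cst ⟨2296, 0, 0, 0⟩; ok v294 && (
  let v295 := mul v128 v293; ok v295 && (
  let v296 := sub v294 v295; ok v296 && (
  let v297 := cst ⟨302995, 0, 0, 0⟩; ok v297 && (
  let v298 := mul v128 v296; ok v298 && (
  let v299 := sub v297 v298; ok v299 && (
  let v300 := cst ⟨27269634, 0, 0, 0⟩; ok v300 && (
  let v301 := mul v128 v299; ok v301 && (
  let v302 := sub v300 v301; ok v302 && (
  let v303 := cst ⟨1527099483, 0, 0, 0⟩; ok v303 && (
  let v304 := mul v128 v302; ok v304 && (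
  let v305 := sub v303 v304; ok v305 && (
  let v306 := cst ⟨45812984491, 0, 0, 0⟩; ok v306 && (
  let v307 := mul v128 v305; ok v307 && (
  let v308 := sub v306 v307; ok v308 && (
  let v309 := mul v128 v308; ok v309 && (
  let v310 := sub v8 v309; ok v310 && (
  let v311 := mul v128 v310; ok v311 && (
  let v312 := sub v0 v311; ok v312 && (
  let v313 := mul v128 v6; ok v313 && (
  let v314 := mul v313 v313; ok v314 && (
  let v315 := scale ⟨369367187456, 0, 0, 0⟩ v314; ok v315 && (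
  let v316 := add v312 v315; ok v316 && (
  let v317 := mul v96 v316; ok v317 && (
  let v318 := scale ⟨2199023255552, 0, 0, 0⟩ v317; ok v318 && (
  let v319 := add v153 v318; ok v319 && (
  let v320 := add v319 v168; ok v320 && (
  let v321 := cst ⟨8589934592, 0, 0, 0⟩; ok v321 && (
  let v322 := add v320 v321; ok v322 && (
  let v323 := log v322; ok v323 && (
  let v324 := scale ⟨549755813888, 0, 0, 0⟩ v323; ok v324 && (
  let v325 := exp v324; ok v325 && (
  let v326 := mul v96 v176; ok v326 && (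
  let v327 := add v325 v326; ok v327 && (
  let v328 := mul v327 v263; ok v328 && (
  let v329 := mul v183 v266; ok v329 && (
  let v330 := add v328 v329; ok v330 && (
  let v331 := mul v261 v330; ok v331 && (
  let v332 := add v186 v331; ok v332 && (
  let v333 := mul v332 v6; ok v333 && (
  let v334 := mul v327 v261; ok v334 && (
  let v335 := mul v334 v263; ok v335 && (
  let v336 := add v186 v335; ok v336 && (
  let v337 := mul v336 v6; ok v337 && (
  let v338 := scale ⟨223338299392, 0, 0, 0⟩ v337; ok v338 && (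
  let v339 := add v8 v338; ok v339 && (
  let v340 := mul v337 v339; ok v340 && (
  let v341 := add v0 v340; ok v341 && (
  let v342 := scale ⟨893353197568, 0, 0, 0⟩ v333; ok v342 && (
  let v343 := add v0 v342; ok v343 && (
  let v344 := mul v333 v343; ok v344 && (
  let v345 := add v0 v344; ok v345 && (
  let v346 := mul v243 v246; ok v346 && (
  let v347 := mul v346 v268; ok v347 && (
  let v348 := mul v347 v345; ok v348 && (
  let v349 := mul v289 v341; ok v349 && (
  let v350 := add v52 v8; ok v350 && (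
  let v351 := mul v348 v350; ok v351 && (
  let v352 := add v349 v351; ok v352 && (
  let v353 := add v52 v0; ok v353 && (
  let v354 := mul v348 v353; ok v354 && (
  let v355 := mul v269 v353; ok v355 && (
  let v356 := mul v355 v246; ok v356 && (
  let v357 := mul v356 v245; ok v357 && (
  let v358 := mul v352 v185; ok v358 && (
  let v359 := mul v357 v273; ok v359 && (
  let v360 := add v358 v359; ok v360 && (
  let v361 := mul x1 v248; ok v361 && (
  let v362 := inv v52; ok v362 && (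
  let v363 := mul v361 v362; ok v363 && (
  let v364 := scale ⟨549755813888, 0, 0, 0⟩ v363; ok v364 && (
  let v365 := mul v23 v364; ok v365 && (
  let v366 := add v365 v360; ok v366 && (
  let v367 := mul v3 v366; ok v367 && (
  let v368 := mul x0 v367; ok v368 && (
  let v369 := mul v352 v327; ok v369 && (
  let v370 := mul v369 v263; ok v370 && (
  let v371 := mul v354 v183; ok v371 && (
  let v372 := mul v371 v266; ok v372 && (
  let v373 := add v370 v372; ok v373 && (
  let v374 := mul v23 v368; ok v374 && (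
  let v375 := mul v259 v373; ok v375 && (
  let v376 := add v374 v375; ok v376 && (
  let v377 := mul v112 v376; ok v377 && (
  let v378 := mul v377 v362; ok v378 && (
  let v379 := sub v0 v378; ok v379 && (
  let v380 := inv v379; ok v380 && (
  let v381 := mul v376 v380; ok v381 && (
  let v382 := mul v3 v381; ok v382 && (
  let v383 := mul v112 v381; ok v383 && (
  let v384 := mul v383 v362; ok v384 && (
  let v385 := sub v0 v384; ok v385 && (
  let v386 := mul v49 v385; ok v386 && (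
  let v387 := sub v386 v382; ok v387 && (
  let v388 := inv v387; ok v388 && (
  let v389 := mul v382 v388; ok v389 && (
  let v390 := sub v52 v383; ok v390 && (
  let v391 := inv v390; ok v391 && (
  let v392 := mul v389 v237; ok v392 && (
  let v393 := scale ⟨549755813888, 0, 0, 0⟩ v392; ok v393 && (
  let v394 := sub v0 v393; ok v394 && (
  let v395 := sub v0 v392; ok v395 && (
  let v396 := inv v395; ok v396 && (
  let v397 := mul v394 v396; ok v397 && (
  let v398 := mul v1 v391; ok v398 && (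
  let v399 := mul v239 v388; ok v399 && (
  let v400 := mul v399 v397; ok v400 && (
  let v401 := add v398 v400; ok v401 && (
  let v402 := mul v7 v381; ok v402 && (
  let v403 := mul v391 v402; ok v403 && (
  let v404 := mul v237 v388; ok v404 && (
  let v405 := mul v404 v397; ok v405 && (
  let v406 := mul v405 v382; ok v406 && (
  let v407 := add v403 v406; ok v407 && (
  let v408 := scale ⟨223338299392, 0, 0, 0⟩ v407; ok v408 && (
  let v409 := add v8 v408; ok v409 && (
  let v410 := mul v407 v409; ok v410 && (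
  let v411 := add v0 v410; ok v411 && (
  let v412 := mul v401 v411; ok v412 && (
  let v413 := mul v412 v380; ok v413 && (
  let v414 := mul v413 v373; ok v414 && (
  let v415 := mul v260 v23; ok v415 && (
  let v416 := cst ⟨7696581394432, 0, 0, 0⟩; ok v416 && (
  let v417 := cst ⟨10995116277760, 0, 0, 0⟩; ok v417 && (
  let v418 := inv v417; ok v418 && (
  let v419 := mul v416 v418; ok v419 && (
  let v420 := mul v240 v24; ok v420 && (
  let v421 := mul v420 v419; ok v421 && (
  let v422 := mul v188 v106; ok v422 && (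
  let v423 := mul v22 v422; ok v423 && (
  let v424 := scale ⟨549755813888, 0, 0, 0⟩ v238; ok v424 && (
  let v425 := sub v0 v424; ok v425 && (
  let v426 := sub v0 v238; ok v426 && (
  let v427 := inv v426; ok v427 && (
  let v428 := mul v425 v427; ok v428 && (
  let v429 := mul v428 v196; ok v429 && (
  let v430 := mul v112 v122; ok v430 && (
  let v431 := scale ⟨733097230336, 0, 0, 0⟩ v430; ok v431 && (
  let v432 := sub v0 v431; ok v432 && (
  let v433 := mul v122 v432; ok v433 && (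
  let v434 := mul v89 v89; ok v434 && (
  let v435 := mul v12 v434; ok v435 && (
  let v436 := add v433 v435; ok v436 && (
  let v437 := mul v429 v239; ok v437 && (
  let v438 := add v436 v0; ok v438 && (
  let v439 := mul v437 v438; ok v439 && (
  let v440 := sub v436 v439; ok v440 && (
  let v441 := scale ⟨366548615168, 0, 0, 0⟩ v45; ok v441 && (
  let v442 := sub v0 v441; ok v442 && (
  let v443 := mul v26 v442; ok v443 && (
  let v444 := add v440 v443; ok v444 && (
  let v445 := mul v422 v444; ok v445 && (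
  let v446 := mul v423 v423; ok v446 && (
  let v447 := add v0 v446; ok v447 && (
  let v448 := inv v447; ok v448 && (
  let v449 := mul v445 v448; ok v449 && (
  let v450 := sub v0 v389; ok v450 && (
  let v451 := mul v450 v449; ok v451 && (
  let v452 := sub v0 v437; ok v452 && (
  isPos 4 v452 && (
  isPos 4 v449 && (
  isPos 4 v450 && (
  let v453 := mul v413 v254; ok v453 && (
  let v454 := mul v453 v366; ok v454 && (
  let v455 := inv v24; ok v455 && (
  let v456 := mul v454 v455; ok v456 && (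
  let v457 := mul x1 v451; ok v457 && (
  let v458 := scale ⟨549755813888, 0, 0, 0⟩ v457; ok v458 && (
  let v459 := sub v0 v458; ok v459 && (
  let v460 := mul v451 v459; ok v460 && (
  let v461 := neg v460; ok v461 && (
  let v462 := mul v1 x3; ok v462 && (
  let v463 := mul v462 v240; ok v463 && (
  let v464 := mul v463 v15; ok v464 && (
  let v465 := mul v2 v464; ok v465 && (
  let v466 := add v461 v465; ok v466 && (
  let v467 := mul v461 v465; ok v467 && (
  let v468 := mul x1 v467; ok v468 && (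
  let v469 := add v466 v468; ok v469 && (
  let v470 := mul v12 v42; ok v470 && (
  let v471 := scale ⟨412316860416, 0, 0, 0⟩ v43; ok v471 && (
  let v472 := sub v8 v471; ok v472 && (
  let v473 := mul v470 v472; ok v473 && (
  let v474 := mul v2 v473; ok v474 && (
  let v475 := neg v474; ok v475 && (
  let v476 := add v469 v475; ok v476 && (
  let v477 := mul v469 v475; ok v477 && (
  let v478 := mul x1 v477; ok v478 && (
  let v479 := add v476 v478; ok v479 && (
  let v480 := mul v1 v381; ok v480 && (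
  let v481 := mul v480 v455; ok v481 && (
  let v482 := mul v2 v481; ok v482 && (
  let v483 := add v479 v482; ok v483 && (
  let v484 := mul v479 v482; ok v484 && (
  let v485 := mul x1 v484; ok v485 && (
  let v486 := add v483 v485; ok v486 && (
  let v487 := mul v2 v421; ok v487 && (
  let v488 := sub v486 v487; ok v488 && (
  let v489 := mul v3 v421; ok v489 && (
  let v490 := add v0 v489; ok v490 && (
  let v491 := inv v490; ok v491 && (
  let v492 := mul v488 v491; ok v492 && (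
  let v493 := mul v1 v9; ok v493 && (
  let v494 := mul v493 v381; ok v494 && (
  let v495 := mul v494 v391; ok v495 && (
  let v496 := mul v2 v495; ok v496 && (
  let v497 := add v492 v496; ok v497 && (
  let v498 := mul v492 v496; ok v498 && (
  let v499 := mul x1 v498; ok v499 && (
  let v500 := add v497 v499; ok v500 && (
  let v501 := mul x1 v500; ok v501 && (
  let v502 := add v0 v501; ok v502 && (
  let v503 := mul v414 v261; ok v503 && (
  let v504 := mul v3 v415; ok v504 && (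
  let v505 := mul v456 v504; ok v505 && (
  let v506 := add v503 v505; ok v506 && (
  let v507 := mul v2 v506; ok v507 && (
  let v508 := add v414 v456; ok v508 && (
  let v509 := mul v2 v508; ok v509 && (
  let v510 := mul v507 v502; ok v510 && (
  let v511 := add v500 v510; ok v511 && (
  let v512 := add v511 v509; ok v512 && (
  let v513 := neg v512; ok v513 && (
  let v514 := scale ⟨1073741824, 0, 0, 0⟩ v2; ok v514 && (
  let v515 := sub v513 v514; ok v515 && (
  let v516 := sub v20 v0; ok v516 && (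
  let v517 := add v516 v56; ok v517 && (
  let v518 := scale ⟨2199023255552, 0, 0, 0⟩ v419; ok v518 && (
  let v519 := sub v517 v518; ok v519 && (
  let v520 := mul v240 v519; ok v520 && (
  let v521 := mul v516 v518; ok v521 && (
  let v522 := add v521 v0; ok v522 && (
  let v523 := inv v522; ok v523 && (
  let v524 := mul v520 v523; ok v524 && (
  let v525 := mul v257 v373; ok v525 && (
  let v526 := scale ⟨549755813888, 0, 0, 0⟩ v251; ok v526 && (
  let v527 := add v17 v526; ok v527 && (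
  let v528 := mul v525 v527; ok v528 && (
  let v529 := scale ⟨2199023255552, 0, 0, 0⟩ v528; ok v529 && (
  let v530 := add v368 v529; ok v530 && (
  let v531 := scale ⟨2199023255552, 0, 0, 0⟩ v530; ok v531 && (
  let v532 := mul v531 v380; ok v532 && (
  let v533 := mul v9 v381; ok v533 && (
  let v534 := sub v24 v533; ok v534 && (
  let v535 := inv v534; ok v535 && (
  let v536 := mul v532 v535; ok v536 && (
  let v537 := sub v524 v536; ok v537 && (
  let v538 := mul v253 v253; ok v538 && (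
  let v539 := cst ⟨14293651161088, 0, 0, 0⟩; ok v539 && (
  let v540 := mul v539 v418; ok v540 && (
  let v541 := mul v538 v540; ok v541 && (
  let v542 := mul x0 x0; ok v542 && (
  let v543 := scale ⟨27487790694400, 0, 0, 0⟩ v542; ok v543 && (
  let v544 := add v541 v543; ok v544 && (
  let v545 := mul v421 v491; ok v545 && (
  let v546 := sub v40 v3; ok v546 && (
  let v547 := sub v546 v39; ok v547 && (
  let v548 := mul v0 v1; ok v548 && (
  let v549 := mul v548 x0; ok v549 && (
  let v550 := mul v24 v373; ok v550 && (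
  let v551 := mul v550 v255; ok v551 && (
  let v552 := add v360 v551; ok v552 && (
  let v553 := add v533 v56; ok v553 && (
  let v554 := mul v0 v553; ok v554 && (
  let v555 := mul v544 v545; ok v555 && (
  let v556 := mul v380 v554; ok v556 && (
  let v557 := mul v549 v552; ok v557 && (
  let v558 := mul v556 v557; ok v558 && (
  let v559 := sub v555 v558; ok v559 && (
  let v560 := scale ⟨549755813888, 0, 0, 0⟩ v533; ok v560 && (
  let v561 := add v0 v560; ok v561 && (
  let v562 := mul v380 v561; ok v562 && (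
  let v563 := mul v3 v23; ok v563 && (
  let v564 := mul v563 v248; ok v564 && (
  let v565 := mul v24 v52; ok v565 && (
  let v566 := inv v565; ok v566 && (
  let v567 := mul v564 v566; ok v567 && (
  let v568 := mul v562 v567; ok v568 && (
  let v569 := sub v547 v568; ok v569 && (
  let v570 := mul v251 v559; ok v570 && (
  let v571 := sub v0 v251; ok v571 && (
  let v572 := mul v12 v569; ok v572 && (
  let v573 := mul v571 v572; ok v573 && (
  let v574 := mul v544 v573; ok v574 && (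
  let v575 := add v570 v574; ok v575 && (
  isPos 4 v262 && (
  isPos 4 v265 && (
  let v576 := scale ⟨2199023255552, 0, 0, 0⟩ v377; ok v576 && (
  let v577 := sub v52 v576; ok v577 && (
  isPos 4 v577 && (
  isPos 4 v387 && (
  let v578 := sub v8 v238; ok v578 && (
  isPos 4 v578 && (
  let v579 := scale ⟨687194767360, 0, 0, 0⟩ v0; ok v579 && (
  let v580 := sub v579 v337; ok v580 && (
  isPos 4 v580 && (
  let v581 := scale ⟨377957122048, 0, 0, 0⟩ v0; ok v581 && (
  let v582 := sub v581 v333; ok v582 && (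
  isPos 4 v582 && (
  isPos 4 v534 && (
  isPos 4 v395 && (
  let v583 := sub v579 v407; ok v583 && (
  isPos 4 v583 && (
  isPos 4 v537 && (
  isPos 4 v515 && (
  isPos 4 v575 && (
  isPos 4 v569 && (
  true)))))))))))))))))))))))))))))))))))))))))))))))))))))))))))))))))))))))))))))))))))))))))))))))))))))))))))))))))))))))))))))))))))))))))))))))))))))))))))))))))))))))))))))))))))))))))))))))))))))))))))))))))))))))))))))))))))))))))))))))))))))))))))))))))))))))))))))))))))))))))))))))))))))))))))))))))))))))))))))))))))))))))))))))))))))))))))))))))))))))))))))))))))))))))))))))))))))))))))))))))))))))))))))))))))))))))))))))))))))))))))))))))))))))))))))))))))))))))))))))))))))))))))))))))))))))))))))))))))))))))))))))))))))))))))))))))))))))))))))))))))))))))))))))))))))))))))))))))))))))))))))))))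
  | _ => false

set_option maxRecDepth 1000000 in
theorem chk0_eq (O : Ops) (m : List O.α)
    (h : chk0 O.cst O.add O.sub O.mul O.scale O.neg O.inv O.exp O.log O.ok O.isPos O.isLt m = true) :
    runG O 4 prog0 m = true := by
  match m, h with
  | [x0, x1, x2, x3], h => exact h

def chkB0 : List opsE.α → Bool :=
  chk0 opsE.cst opsE.add opsE.sub opsE.mul opsE.scale opsE.neg opsE.inv opsE.exp opsE.log opsE.ok opsE.isPos opsE.isLt

theorem chkB0_eq (m : List opsE.α) (h : chkB0 m = true) : runG opsE 4 prog0 m = true :=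
  chk0_eq opsE m h

def prog1 : List Op := [
  .const ⟨1099511627776, 0, 0, 0⟩,
  .mul 2 1,
  .mul 4 4,
  .mul 4 0,
  .mul 5 6,
  .mul 0 5,
  .mul 0 0,
  .mul 3 8,
  .const ⟨549755813888, 0, 0, 0⟩,
  .mul 5 7,
  .mul 0 13,
  .scale ⟨549755813888, 0, 0, 0⟩ 0,
  .mul 10 10,
  .mul 1 1,
  .sub 13 0,
  .inv 0,
  .mul 4 0,
  .scale ⟨2199023255552, 0, 0, 0⟩ 0,
  .scale ⟨2199023255552, 0, 0, 0⟩ 2,
  .sub 0 18,
  .add 0 2,
  .mul 24 5,
  .mul 20 0,
  .sub 22 0,
  .add 23 1,
  .mul 21 12,
  .mul 4 4,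
  .scale ⟨10774999203840, 0, 0, 0⟩ 15,
  .scale ⟨45768245248, 0, 0, 0⟩ 0,
  .const ⟨183207198720, 0, 0, 0⟩,
  .add 1 0,
  .mul 3 0,
  .add 23 0,
  .mul 5 0,
  .add 33 0,
  .mul 7 0,
  .scale ⟨549755813888, 0, 0, 0⟩ 0,
  .add 36 0,
  .mul 3 0,
  .mul 21 16,
  .scale ⟨2199023255552, 0, 0, 0⟩ 20,
  .add 1 0,
  .add 0 38,
  .mul 17 0,
  .add 0 43,
  .mul 27 27,
  .scale ⟨2199023255552, 0, 0, 0⟩ 0,
  .add 0 46,
  .mul 28 5,
  .sub 0 48,
  .log 5,
  .scale ⟨549755813888, 0, 0, 0⟩ 0,
  .exp 0,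
  .const ⟨3298534883328, 0, 0, 0⟩,
  .inv 0,
  .mul 54 0,
  .const ⟨2199023255552, 0, 0, 0⟩,
  .add 13 0,
  .inv 0,
  .mul 15 0,
  .mul 0 0,
  .sub 60 1,
  .mul 1 6,
  .add 62 0,
  .mul 2 0,
  .mul 4 4,
  .scale ⟨219915747328, 0, 0, 0⟩ 0,
  .mul 24 2,
  .scale ⟨549755813888, 0, 0, 0⟩ 0,
  .mul 26 2,
  .scale ⟨549755813888, 0, 0, 0⟩ 0,
  .add 2 0,
  .mul 52 22,
  .scale ⟨4398046511104, 0, 0, 0⟩ 0,
  .mul 54 48,
  .mul 0 25,
  .scale ⟨4398046511104, 0, 0, 0⟩ 0,
  .add 0 20,
  .inv 0,
  .mul 2 0,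
  .mul 0 0,
  .sub 80 1,
  .mul 1 26,
  .add 82 0,
  .mul 2 0,
  .mul 4 4,
  .scale ⟨219915747328, 0, 0, 0⟩ 0,
  .mul 13 2,
  .scale ⟨549755813888, 0, 0, 0⟩ 0,
  .sub 0 17,
  .mul 16 3,
  .scale ⟨549755813888, 0, 0, 0⟩ 0,
  .add 0 21,
  .add 3 0,
  .mul 95 25,
  .neg 0,
  .exp 0,
  .mul 98 26,
  .mul 1 0,
  .mul 76 81,
  .add 80 0,
  .inv 0,
  .mul 77 0,
  .mul 79 99,
  .mul 0 1,
  .sub 104 92,
  .mul 79 0,
  .mul 97 97,
  .sub 107 81,
  .mul 3 0,
  .mul 84 60,
  .inv 66,
  .mul 1 0,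
  .add 93 0,
  .mul 69 0,
  .mul 0 0,
  .inv 0,
  .mul 7 0,
  .mul 13 117,
  .scale ⟨549755813888, 0, 0, 0⟩ 0,
  .sub 119 0,
  .sub 120 2,
  .inv 0,
  .mul 2 0,
  .add 5 123,
  .mul 28 0,
  .mul 23 2,
  .mul 0 126,
  .mul 9 4,
  .pos 7,
  .mul 105 104,
  .add 110 126,
  .mul 108 111,
  .mul 0 114,
  .scale ⟨2199023255552, 0, 0, 0⟩ 0,
  .add 86 0,
  .mul 4 0,
  .inv 0,
  .mul 7 0,
  .mul 134 0,
  .pos 49,
  .mul 0 138,
  .mul 139 140,
  .add 129 140,
  .inv 0,
  .mul 131 0,
  .scale ⟨2199023255552, 0, 0, 0⟩ 0,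
  .sub 144 0,
  .sub 145 134,
  .mul 150 4,
  .mul 0 2,
  .add 124 0,
  .scale ⟨224412041216, 0, 0, 0⟩ 134,
  .inv 112,
  .mul 1 0,
  .scale ⟨4398046511104, 0, 0, 0⟩ 153,
  .mul 153 132,
  .add 1 0,
  .inv 0,
  .mul 156 0,
  .mul 158 1,
  .mul 0 134,
  .mul 0 7,
  .mul 3 136,
  .mul 0 9,
  .sub 162 0,
  .inv 0,
  .mul 39 2,
  .sub 165 0,
  .inv 0,
  .scale ⟨2199023255552, 0, 0, 0⟩ 161,
  .add 0 168,
  .add 163 169,
  .scale ⟨3573412790272, 0, 0, 0⟩ 148,
  .const ⟨339302416384, 0, 0, 0⟩,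
  .add 1 0,
  .scale ⟨549755813888, 0, 0, 0⟩ 0,
  .mul 163 153,
  .sub 175 69,
  .mul 165 154,
  .scale ⟨2199023255552, 0, 0, 0⟩ 0,
  .sub 2 0,
  .mul 4 4,
  .add 1 0,
  .add 0 181,
  .scale ⟨549755813888, 0, 0, 0⟩ 0,
  .scale ⟨549755813888, 0, 0, 0⟩ 158,
  .sub 169 0,
  .mul 78 9,
  .mul 0 172,
  .scale ⟨137438953472, 0, 0, 0⟩ 0,
  .add 3 0,
  .mul 6 0,
  .add 65 190,
  .mul 0 27,
  .mul 67 25,
  .add 1 0,
  .mul 32 0,
  .add 67 0,
  .mul 0 190,
  .mul 6 35,
  .mul 0 34,
  .add 71 0,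
  .mul 0 194,
  .scale ⟨223338299392, 0, 0, 0⟩ 0,
  .add 194 0,
  .mul 2 0,
  .add 204 0,
  .scale ⟨893353197568, 0, 0, 0⟩ 8,
  .add 206 0,
  .mul 10 0,
  .add 208 0,
  .mul 65 62,
  .mul 0 41,
  .mul 0 2,
  .mul 22 7,
  .add 161 205,
  .mul 2 0,
  .add 2 0,
  .add 164 216,
  .mul 5 0,
  .mul 48 1,
  .mul 0 72,
  .mul 0 74,
  .mul 5 94,
  .mul 1 48,
  .add 1 0,
  .mul 226 75,
  .inv 173,
  .mul 1 0,
  .scale ⟨549755813888, 0, 0, 0⟩ 0,
  .mul 205 0,
  .add 0 5,
  .mul 227 0,
  .mul 232 0,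
  .mul 16 41,
  .mul 0 69,
  .mul 16 109,
  .mul 0 68,
  .add 2 0,
  .mul 214 5,
  .mul 78 1,
  .add 1 0,
  .mul 133 0,
  .mul 0 15,
  .sub 242 0,
  .inv 0,
  .mul 4 0,
  .mul 242 0,
  .mul 139 1,
  .mul 0 21,
  .sub 248 0,
  .mul 200 0,
  .sub 0 4,
  .inv 0,
  .mul 6 0,
  .sub 201 6,
  .inv 0,
  .mul 2 255,
  .scale ⟨549755813888, 0, 0, 0⟩ 0,
  .sub 257 0,
  .sub 258 2,
  .inv 0,
  .mul 2 0,
  .mul 260 6,
  .mul 122 10,
  .mul 0 2,
  .add 2 0,
  .mul 258 20,
  .mul 11 0,
  .mul 267 15,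
  .mul 0 7,
  .mul 0 23,
  .add 3 0,
  .scale ⟨223338299392, 0, 0, 0⟩ 0,
  .add 264 0,
  .mul 2 0,
  .add 274 0,
  .mul 10 0,
  .mul 0 32,
  .mul 0 40,
  .mul 117 255,
  .const ⟨7696581394432, 0, 0, 0⟩,
  .const ⟨10995116277760, 0, 0, 0⟩,
  .inv 0,
  .mul 2 0,
  .mul 142 259,
  .mul 0 1,
  .mul 155 184,
  .mul 264 0,
  .scale ⟨549755813888, 0, 0, 0⟩ 148,
  .sub 288 0,
  .sub 289 150,
  .inv 0,
  .mul 2 0,
  .mul 0 154,
  .mul 186 176,
  .scale ⟨733097230336, 0, 0, 0⟩ 0,
  .sub 295 0,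
  .mul 179 0,
  .mul 208 208,
  .mul 286 0,
  .add 2 0,
  .mul 7 160,
  .add 1 301,
  .mul 1 0,
  .sub 3 0,
  .scale ⟨366548615168, 0, 0, 0⟩ 259,
  .sub 305 0,
  .mul 280 0,
  .add 3 0,
  .mul 22 0,
  .mul 22 22,
  .add 310 0,
  .inv 0,
  .mul 3 0,
  .sub 313 60,
  .mul 0 1,
  .sub 315 14,
  .pos 0,
  .pos 3,
  .pos 2,
  .mul 39 161,
  .mul 0 87,
  .inv 294,
  .mul 1 0,
  .mul 322 5,
  .scale ⟨549755813888, 0, 0, 0⟩ 0,
  .sub 322 0,
  .mul 8 0,
  .neg 0,
  .mul 324 329,
  .mul 0 185,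
  .mul 0 312,
  .mul 326 0,
  .add 4 0,
  .mul 5 1,
  .mul 333 0,
  .add 2 0,
  .mul 321 291,
  .scale ⟨412316860416, 0, 0, 0⟩ 291,
  .sub 327 0,
  .mul 2 0,
  .mul 335 0,
  .neg 0,
  .add 6 0,
  .mul 7 1,
  .mul 343 0,
  .add 2 0,
  .mul 342 98,
  .mul 0 25,
  .mul 343 0,
  .add 3 0,
  .mul 4 1,
  .mul 350 0,
  .add 2 0,
  .mul 348 65,
  .sub 1 0,
  .mul 349 67,
  .add 353 0,
  .inv 0,
  .mul 3 0,
  .mul 355 347,
  .mul 0 112,
  .mul 0 103,
  .mul 357 0,
  .add 4 0,
  .mul 5 1,
  .mul 364 0,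
  .add 2 0,
  .mul 366 0,
  .add 365 0,
  .mul 88 204,
  .mul 364 88,
  .mul 48 0,
  .add 2 0,
  .mul 368 0,
  .add 93 51,
  .mul 370 0,
  .mul 2 7,
  .add 10 0,
  .add 0 2,
  .neg 0,
  .scale ⟨1073741824, 0, 0, 0⟩ 375,
  .sub 1 0,
  .sub 359 379,
  .add 0 324,
  .scale ⟨2199023255552, 0, 0, 0⟩ 98,
  .sub 1 0,
  .mul 242 0,
  .mul 4 2,
  .add 0 385,
  .inv 0,
  .mul 3 0,
  .mul 230 151,
  .scale ⟨549755813888, 0, 0, 0⟩ 237,
  .add 373 0,
  .mul 2 0,
  .scale ⟨2199023255552, 0, 0, 0⟩ 0,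
  .add 161 0,
  .scale ⟨2199023255552, 0, 0, 0⟩ 0,
  .mul 0 151,
  .mul 387 151,
  .sub 373 0,
  .inv 0,
  .mul 3 0,
  .sub 12 0,
  .mul 247 247,
  .const ⟨14293651161088, 0, 0, 0⟩,
  .mul 0 121,
  .mul 2 0,
  .mul 406 406,
  .scale ⟨27487790694400, 0, 0, 0⟩ 0,
  .add 2 0,
  .mul 123 53,
  .sub 369 406,
  .sub 0 371,
  .mul 411 410,
  .mul 0 413,
  .mul 389 176,
  .mul 0 258,
  .add 191 0,
  .add 19 360,
  .mul 417 0,
  .mul 10 9,
  .mul 175 1,
  .mul 7 4,
  .mul 1 0,
  .sub 3 0,
  .scale ⟨549755813888, 0, 0, 0⟩ 26,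
  .add 424 0,
  .mul 181 0,
  .mul 423 403,
  .mul 0 278,
  .mul 404 376,
  .inv 0,
  .mul 2 0,
  .mul 5 0,
  .sub 21 0,
  .mul 281 10,
  .sub 434 282,
  .mul 423 2,
  .mul 1 0,
  .mul 29 0,
  .add 4 0,
  .pos 276,
  .pos 273,
  .scale ⟨2199023255552, 0, 0, 0⟩ 198,
  .sub 388 0,
  .pos 0,
  .pos 190,
  .sub 433 302,
  .pos 0,
  .scale ⟨687194767360, 0, 0, 0⟩ 442,
  .sub 0 242,
  .pos 0,
  .scale ⟨377957122048, 0, 0, 0⟩ 444,
  .sub 0 248,
  .pos 0,
  .pos 48,
  .pos 187,
  .sub 3 175,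
  .pos 0,
  .pos 46,
  .pos 68,
  .pos 8,
  .pos 14]

def chk1 {α : Type} (cst : Z → α) (add sub mul : α → α → α) (scale : Z → α → α)
    (neg inv exp log : α → α) (ok : α → Bool) (isPos : Nat → α → Bool) (isLt : α → Nat → Bool) :
    List α → Bool
  | [x0, x1, x2, x3] =>
  let v0 := cst ⟨1099511627776, 0, 0, 0⟩; ok v0 && (
  let v1 := mul x1 x0; ok v1 && (
  let v2 := mul x2 x2; ok v2 && (
  let v3 := mul x1 v2; ok v3 && (
  let v4 := mul x1 x2; ok v4 && (
  let v5 := mul v4 x0; ok v5 && (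
  let v6 := mul v5 v5; ok v6 && (
  let v7 := mul v3 x1; ok v7 && (
  let v8 := cst ⟨549755813888, 0, 0, 0⟩; ok v8 && (
  let v9 := mul v3 v1; ok v9 && (
  let v10 := mul v9 x3; ok v10 && (
  let v11 := scale ⟨549755813888, 0, 0, 0⟩ v10; ok v11 && (
  let v12 := mul v1 v1; ok v12 && (
  let v13 := mul v11 v11; ok v13 && (
  let v14 := sub v0 v13; ok v14 && (
  let v15 := inv v14; ok v15 && (
  let v16 := mul v11 v15; ok v16 && (
  let v17 := scale ⟨2199023255552, 0, 0, 0⟩ v16; ok v17 && (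
  let v18 := scale ⟨2199023255552, 0, 0, 0⟩ v15; ok v18 && (
  let v19 := sub v18 v0; ok v19 && (
  let v20 := add v19 v17; ok v20 && (
  let v21 := mul x3 v15; ok v21 && (
  let v22 := mul v1 v21; ok v22 && (
  let v23 := sub v0 v22; ok v23 && (
  let v24 := add v0 v22; ok v24 && (
  let v25 := mul v3 v12; ok v25 && (
  let v26 := mul v21 v21; ok v26 && (
  let v27 := scale ⟨10774999203840, 0, 0, 0⟩ v11; ok v27 && (
  let v28 := scale ⟨45768245248, 0, 0, 0⟩ v27; ok v28 && (
  let v29 := cst ⟨183207198720, 0, 0, 0⟩; ok v29 && (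
  let v30 := add v28 v29; ok v30 && (
  let v31 := mul v27 v30; ok v31 && (
  let v32 := add v8 v31; ok v32 && (
  let v33 := mul v27 v32; ok v33 && (
  let v34 := add v0 v33; ok v34 && (
  let v35 := mul v27 v34; ok v35 && (
  let v36 := scale ⟨549755813888, 0, 0, 0⟩ v35; ok v36 && (
  let v37 := add v0 v36; ok v37 && (
  let v38 := mul v34 v37; ok v38 && (
  let v39 := mul v17 v22; ok v39 && (
  let v40 := scale ⟨2199023255552, 0, 0, 0⟩ v19; ok v40 && (
  let v41 := add v39 v40; ok v41 && (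
  let v42 := add v41 v3; ok v42 && (
  let v43 := mul v25 v42; ok v43 && (
  let v44 := add v43 v0; ok v44 && (
  let v45 := mul v17 v17; ok v45 && (
  let v46 := scale ⟨2199023255552, 0, 0, 0⟩ v45; ok v46 && (
  let v47 := add v46 v0; ok v47 && (
  let v48 := mul v19 v42; ok v48 && (
  let v49 := sub v48 v0; ok v49 && (
  let v50 := log v44; ok v50 && (
  let v51 := scale ⟨549755813888, 0, 0, 0⟩ v50; ok v51 && (
  let v52 := exp v51; ok v52 && (
  let v53 := cst ⟨3298534883328, 0, 0, 0⟩; ok v53 && (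
  let v54 := inv v53; ok v54 && (
  let v55 := mul v0 v54; ok v55 && (
  let v56 := cst ⟨2199023255552, 0, 0, 0⟩; ok v56 && (
  let v57 := add v43 v56; ok v57 && (
  let v58 := inv v57; ok v58 && (
  let v59 := mul v43 v58; ok v59 && (
  let v60 := mul v59 v59; ok v60 && (
  let v61 := sub v0 v59; ok v61 && (
  let v62 := mul v60 v55; ok v62 && (
  let v63 := add v0 v62; ok v63 && (
  let v64 := mul v61 v63; ok v64 && (
  let v65 := mul v60 v60; ok v65 && (
  let v66 := scale ⟨219915747328, 0, 0, 0⟩ v65; ok v66 && (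
  let v67 := mul v42 v64; ok v67 && (
  let v68 := scale ⟨549755813888, 0, 0, 0⟩ v67; ok v68 && (
  let v69 := mul v42 v66; ok v69 && (
  let v70 := scale ⟨549755813888, 0, 0, 0⟩ v69; ok v70 && (
  let v71 := add v68 v70; ok v71 && (
  let v72 := mul v19 v49; ok v72 && (
  let v73 := scale ⟨4398046511104, 0, 0, 0⟩ v72; ok v73 && (
  let v74 := mul v19 v25; ok v74 && (
  let v75 := mul v74 v49; ok v75 && (
  let v76 := scale ⟨4398046511104, 0, 0, 0⟩ v75; ok v76 && (
  let v77 := add v76 v56; ok v77 && (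
  let v78 := inv v77; ok v78 && (
  let v79 := mul v76 v78; ok v79 && (
  let v80 := mul v79 v79; ok v80 && (
  let v81 := sub v0 v79; ok v81 && (
  let v82 := mul v80 v55; ok v82 && (
  let v83 := add v0 v82; ok v83 && (
  let v84 := mul v81 v83; ok v84 && (
  let v85 := mul v80 v80; ok v85 && (
  let v86 := scale ⟨219915747328, 0, 0, 0⟩ v85; ok v86 && (
  let v87 := mul v73 v84; ok v87 && (
  let v88 := scale ⟨549755813888, 0, 0, 0⟩ v87; ok v88 && (
  let v89 := sub v88 v71; ok v89 && (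
  let v90 := mul v73 v86; ok v90 && (
  let v91 := scale ⟨549755813888, 0, 0, 0⟩ v90; ok v91 && (
  let v92 := add v91 v70; ok v92 && (
  let v93 := add v89 v92; ok v93 && (
  let v94 := mul x1 v68; ok v94 && (
  let v95 := neg v94; ok v95 && (
  let v96 := exp v95; ok v96 && (
  let v97 := mul x1 v70; ok v97 && (
  let v98 := mul v96 v97; ok v98 && (
  let v99 := mul v22 v17; ok v99 && (
  let v100 := add v19 v99; ok v100 && (
  let v101 := inv v100; ok v101 && (
  let v102 := mul v24 v101; ok v102 && (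
  let v103 := mul v23 v3; ok v103 && (
  let v104 := mul v103 v102; ok v104 && (
  let v105 := sub v0 v12; ok v105 && (
  let v106 := mul v26 v105; ok v106 && (
  let v107 := mul v9 v9; ok v107 && (
  let v108 := sub v0 v26; ok v108 && (
  let v109 := mul v105 v108; ok v109 && (
  let v110 := mul v25 v49; ok v110 && (
  let v111 := inv v44; ok v111 && (
  let v112 := mul v110 v111; ok v112 && (
  let v113 := add v19 v112; ok v113 && (
  let v114 := mul v44 v113; ok v114 && (
  let v115 := mul v114 v114; ok v115 && (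
  let v116 := inv v115; ok v116 && (
  let v117 := mul v109 v116; ok v117 && (
  let v118 := mul v104 v0; ok v118 && (
  let v119 := scale ⟨549755813888, 0, 0, 0⟩ v118; ok v119 && (
  let v120 := sub v0 v119; ok v120 && (
  let v121 := sub v0 v118; ok v121 && (
  let v122 := inv v121; ok v122 && (
  let v123 := mul v120 v122; ok v123 && (
  let v124 := add v118 v0; ok v124 && (
  let v125 := mul v96 v124; ok v125 && (
  let v126 := mul v102 v123; ok v126 && (
  let v127 := mul v126 v0; ok v127 && (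
  let v128 := mul v118 v123; ok v128 && (
  isPos 4 v121 && (
  let v129 := mul v23 v24; ok v129 && (
  let v130 := add v19 v3; ok v130 && (
  let v131 := mul v22 v19; ok v131 && (
  let v132 := mul v131 v17; ok v132 && (
  let v133 := scale ⟨2199023255552, 0, 0, 0⟩ v132; ok v133 && (
  let v134 := add v47 v133; ok v134 && (
  let v135 := mul v130 v134; ok v135 && (
  let v136 := inv v135; ok v136 && (
  let v137 := mul v129 v136; ok v137 && (
  let v138 := mul v3 v137; ok v138 && (
  isPos 4 v89 && (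
  let v139 := mul v138 v0; ok v139 && (
  let v140 := mul v0 x0; ok v140 && (
  let v141 := add v11 v0; ok v141 && (
  let v142 := inv v141; ok v142 && (
  let v143 := mul v11 v142; ok v143 && (
  let v144 := scale ⟨2199023255552, 0, 0, 0⟩ v143; ok v144 && (
  let v145 := sub v0 v144; ok v145 && (
  let v146 := sub v0 v11; ok v146 && (
  let v147 := mul x3 v142; ok v147 && (
  let v148 := mul v147 v145; ok v148 && (
  let v149 := add v24 v148; ok v149 && (
  let v150 := scale ⟨224412041216, 0, 0, 0⟩ v15; ok v150 && (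
  let v151 := inv v38; ok v151 && (
  let v152 := mul v150 v151; ok v152 && (
  let v153 := scale ⟨4398046511104, 0, 0, 0⟩ x0; ok v153 && (
  let v154 := mul v0 v21; ok v154 && (
  let v155 := add v153 v154; ok v155 && (
  let v156 := inv v155; ok v156 && (
  let v157 := mul v0 v156; ok v157 && (
  let v158 := mul x0 v156; ok v158 && (
  let v159 := mul v158 v24; ok v159 && (
  let v160 := mul v159 v152; ok v160 && (
  let v161 := mul v157 v24; ok v161 && (
  let v162 := mul v161 v152; ok v162 && (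
  let v163 := sub v0 v162; ok v163 && (
  let v164 := inv v163; ok v164 && (
  let v165 := mul v125 v162; ok v165 && (
  let v166 := sub v0 v165; ok v166 && (
  let v167 := inv v166; ok v167 && (
  let v168 := scale ⟨2199023255552, 0, 0, 0⟩ v6; ok v168 && (
  let v169 := add v168 v0; ok v169 && (
  let v170 := add v6 v0; ok v170 && (
  let v171 := scale ⟨3573412790272, 0, 0, 0⟩ v22; ok v171 && (
  let v172 := cst ⟨339302416384, 0, 0, 0⟩; ok v172 && (
  let v173 := add v171 v172; ok v173 && (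
  let v174 := scale ⟨549755813888, 0, 0, 0⟩ v173; ok v174 && (
  let v175 := mul v11 v21; ok v175 && (
  let v176 := sub v0 v106; ok v176 && (
  let v177 := mul v11 v22; ok v177 && (
  let v178 := scale ⟨2199023255552, 0, 0, 0⟩ v177; ok v178 && (
  let v179 := sub v176 v178; ok v179 && (
  let v180 := mul v175 v175; ok v180 && (
  let v181 := add v179 v180; ok v181 && (
  let v182 := add v181 v0; ok v182 && (
  let v183 := scale ⟨549755813888, 0, 0, 0⟩ v182; ok v183 && (
  let v184 := scale ⟨549755813888, 0, 0, 0⟩ v25; ok v184 && (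
  let v185 := sub v15 v184; ok v185 && (
  let v186 := mul v107 v176; ok v186 && (
  let v187 := mul v186 v14; ok v187 && (
  let v188 := scale ⟨137438953472, 0, 0, 0⟩ v187; ok v188 && (
  let v189 := add v185 v188; ok v189 && (
  let v190 := mul v183 v189; ok v190 && (
  let v191 := add v125 v0; ok v191 && (
  let v192 := mul v191 v164; ok v192 && (
  let v193 := mul v125 v167; ok v193 && (
  let v194 := add v192 v193; ok v194 && (
  let v195 := mul v162 v194; ok v195 && (
  let v196 := add v128 v195; ok v196 && (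
  let v197 := mul v196 v6; ok v197 && (
  let v198 := mul v191 v162; ok v198 && (
  let v199 := mul v198 v164; ok v199 && (
  let v200 := add v128 v199; ok v200 && (
  let v201 := mul v200 v6; ok v201 && (
  let v202 := scale ⟨223338299392, 0, 0, 0⟩ v201; ok v202 && (
  let v203 := add v8 v202; ok v203 && (
  let v204 := mul v201 v203; ok v204 && (
  let v205 := add v0 v204; ok v205 && (
  let v206 := scale ⟨893353197568, 0, 0, 0⟩ v197; ok v206 && (
  let v207 := add v0 v206; ok v207 && (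
  let v208 := mul v197 v207; ok v208 && (
  let v209 := add v0 v208; ok v209 && (
  let v210 := mul v144 v147; ok v210 && (
  let v211 := mul v210 v169; ok v211 && (
  let v212 := mul v211 v209; ok v212 && (
  let v213 := mul v190 v205; ok v213 && (
  let v214 := add v52 v8; ok v214 && (
  let v215 := mul v212 v214; ok v215 && (
  let v216 := add v213 v215; ok v216 && (
  let v217 := add v52 v0; ok v217 && (
  let v218 := mul v212 v217; ok v218 && (
  let v219 := mul v170 v217; ok v219 && (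
  let v220 := mul v219 v147; ok v220 && (
  let v221 := mul v220 v146; ok v221 && (
  let v222 := mul v216 v127; ok v222 && (
  let v223 := mul v221 v174; ok v223 && (
  let v224 := add v222 v223; ok v224 && (
  let v225 := mul x1 v149; ok v225 && (
  let v226 := inv v52; ok v226 && (
  let v227 := mul v225 v226; ok v227 && (
  let v228 := scale ⟨549755813888, 0, 0, 0⟩ v227; ok v228 && (
  let v229 := mul v23 v228; ok v229 && (
  let v230 := add v229 v224; ok v230 && (
  let v231 := mul v3 v230; ok v231 && (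
  let v232 := mul x0 v231; ok v232 && (
  let v233 := mul v216 v191; ok v233 && (
  let v234 := mul v233 v164; ok v234 && (
  let v235 := mul v218 v125; ok v235 && (
  let v236 := mul v235 v167; ok v236 && (
  let v237 := add v234 v236; ok v237 && (
  let v238 := mul v23 v232; ok v238 && (
  let v239 := mul v160 v237; ok v239 && (
  let v240 := add v238 v239; ok v240 && (
  let v241 := mul v107 v240; ok v241 && (
  let v242 := mul v241 v226; ok v242 && (
  let v243 := sub v0 v242; ok v243 && (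
  let v244 := inv v243; ok v244 && (
  let v245 := mul v240 v244; ok v245 && (
  let v246 := mul v3 v245; ok v246 && (
  let v247 := mul v107 v245; ok v247 && (
  let v248 := mul v247 v226; ok v248 && (
  let v249 := sub v0 v248; ok v249 && (
  let v250 := mul v49 v249; ok v250 && (
  let v251 := sub v250 v246; ok v251 && (
  let v252 := inv v251; ok v252 && (
  let v253 := mul v246 v252; ok v253 && (
  let v254 := sub v52 v247; ok v254 && (
  let v255 := inv v254; ok v255 && (
  let v256 := mul v253 v0; ok v256 && (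
  let v257 := scale ⟨549755813888, 0, 0, 0⟩ v256; ok v257 && (
  let v258 := sub v0 v257; ok v258 && (
  let v259 := sub v0 v256; ok v259 && (
  let v260 := inv v259; ok v260 && (
  let v261 := mul v258 v260; ok v261 && (
  let v262 := mul v1 v255; ok v262 && (
  let v263 := mul v140 v252; ok v263 && (
  let v264 := mul v263 v261; ok v264 && (
  let v265 := add v262 v264; ok v265 && (
  let v266 := mul v7 v245; ok v266 && (
  let v267 := mul v255 v266; ok v267 && (
  let v268 := mul v0 v252; ok v268 && (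
  let v269 := mul v268 v261; ok v269 && (
  let v270 := mul v269 v246; ok v270 && (
  let v271 := add v267 v270; ok v271 && (
  let v272 := scale ⟨223338299392, 0, 0, 0⟩ v271; ok v272 && (
  let v273 := add v8 v272; ok v273 && (
  let v274 := mul v271 v273; ok v274 && (
  let v275 := add v0 v274; ok v275 && (
  let v276 := mul v265 v275; ok v276 && (
  let v277 := mul v276 v244; ok v277 && (
  let v278 := mul v277 v237; ok v278 && (
  let v279 := mul v161 v23; ok v279 && (
  let v280 := cst ⟨7696581394432, 0, 0, 0⟩; ok v280 && (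
  let v281 := cst ⟨10995116277760, 0, 0, 0⟩; ok v281 && (
  let v282 := inv v281; ok v282 && (
  let v283 := mul v280 v282; ok v283 && (
  let v284 := mul v141 v24; ok v284 && (
  let v285 := mul v284 v283; ok v285 && (
  let v286 := mul v130 v101; ok v286 && (
  let v287 := mul v22 v286; ok v287 && (
  let v288 := scale ⟨549755813888, 0, 0, 0⟩ v139; ok v288 && (
  let v289 := sub v0 v288; ok v289 && (
  let v290 := sub v0 v139; ok v290 && (
  let v291 := inv v290; ok v291 && (
  let v292 := mul v289 v291; ok v292 && (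
  let v293 := mul v292 v138; ok v293 && (
  let v294 := mul v107 v117; ok v294 && (
  let v295 := scale ⟨733097230336, 0, 0, 0⟩ v294; ok v295 && (
  let v296 := sub v0 v295; ok v296 && (
  let v297 := mul v117 v296; ok v297 && (
  let v298 := mul v89 v89; ok v298 && (
  let v299 := mul v12 v298; ok v299 && (
  let v300 := add v297 v299; ok v300 && (
  let v301 := mul v293 v140; ok v301 && (
  let v302 := add v300 v0; ok v302 && (
  let v303 := mul v301 v302; ok v303 && (
  let v304 := sub v300 v303; ok v304 && (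
  let v305 := scale ⟨366548615168, 0, 0, 0⟩ v45; ok v305 && (
  let v306 := sub v0 v305; ok v306 && (
  let v307 := mul v26 v306; ok v307 && (
  let v308 := add v304 v307; ok v308 && (
  let v309 := mul v286 v308; ok v309 && (
  let v310 := mul v287 v287; ok v310 && (
  let v311 := add v0 v310; ok v311 && (
  let v312 := inv v311; ok v312 && (
  let v313 := mul v309 v312; ok v313 && (
  let v314 := sub v0 v253; ok v314 && (
  let v315 := mul v314 v313; ok v315 && (
  let v316 := sub v0 v301; ok v316 && (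
  isPos 4 v316 && (
  isPos 4 v313 && (
  isPos 4 v314 && (
  let v317 := mul v277 v155; ok v317 && (
  let v318 := mul v317 v230; ok v318 && (
  let v319 := inv v24; ok v319 && (
  let v320 := mul v318 v319; ok v320 && (
  let v321 := mul x1 v315; ok v321 && (
  let v322 := scale ⟨549755813888, 0, 0, 0⟩ v321; ok v322 && (
  let v323 := sub v0 v322; ok v323 && (
  let v324 := mul v315 v323; ok v324 && (
  let v325 := neg v324; ok v325 && (
  let v326 := mul v1 x3; ok v326 && (
  let v327 := mul v326 v141; ok v327 && (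
  let v328 := mul v327 v15; ok v328 && (
  let v329 := mul v2 v328; ok v329 && (
  let v330 := add v325 v329; ok v330 && (
  let v331 := mul v325 v329; ok v331 && (
  let v332 := mul x1 v331; ok v332 && (
  let v333 := add v330 v332; ok v333 && (
  let v334 := mul v12 v42; ok v334 && (
  let v335 := scale ⟨412316860416, 0, 0, 0⟩ v43; ok v335 && (
  let v336 := sub v8 v335; ok v336 && (
  let v337 := mul v334 v336; ok v337 && (
  let v338 := mul v2 v337; ok v338 && (
  let v339 := neg v338; ok v339 && (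
  let v340 := add v333 v339; ok v340 && (
  let v341 := mul v333 v339; ok v341 && (
  let v342 := mul x1 v341; ok v342 && (
  let v343 := add v340 v342; ok v343 && (
  let v344 := mul v1 v245; ok v344 && (
  let v345 := mul v344 v319; ok v345 && (
  let v346 := mul v2 v345; ok v346 && (
  let v347 := add v343 v346; ok v347 && (
  let v348 := mul v343 v346; ok v348 && (
  let v349 := mul x1 v348; ok v349 && (
  let v350 := add v347 v349; ok v350 && (
  let v351 := mul v2 v285; ok v351 && (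
  let v352 := sub v350 v351; ok v352 && (
  let v353 := mul v3 v285; ok v353 && (
  let v354 := add v0 v353; ok v354 && (
  let v355 := inv v354; ok v355 && (
  let v356 := mul v352 v355; ok v356 && (
  let v357 := mul v1 v9; ok v357 && (
  let v358 := mul v357 v245; ok v358 && (
  let v359 := mul v358 v255; ok v359 && (
  let v360 := mul v2 v359; ok v360 && (
  let v361 := add v356 v360; ok v361 && (
  let v362 := mul v356 v360; ok v362 && (
  let v363 := mul x1 v362; ok v363 && (
  let v364 := add v361 v363; ok v364 && (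
  let v365 := mul x1 v364; ok v365 && (
  let v366 := add v0 v365; ok v366 && (
  let v367 := mul v278 v162; ok v367 && (
  let v368 := mul v3 v279; ok v368 && (
  let v369 := mul v320 v368; ok v369 && (
  let v370 := add v367 v369; ok v370 && (
  let v371 := mul v2 v370; ok v371 && (
  let v372 := add v278 v320; ok v372 && (
  let v373 := mul v2 v372; ok v373 && (
  let v374 := mul v371 v366; ok v374 && (
  let v375 := add v364 v374; ok v375 && (
  let v376 := add v375 v373; ok v376 && (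
  let v377 := neg v376; ok v377 && (
  let v378 := scale ⟨1073741824, 0, 0, 0⟩ v2; ok v378 && (
  let v379 := sub v377 v378; ok v379 && (
  let v380 := sub v20 v0; ok v380 && (
  let v381 := add v380 v56; ok v381 && (
  let v382 := scale ⟨2199023255552, 0, 0, 0⟩ v283; ok v382 && (
  let v383 := sub v381 v382; ok v383 && (
  let v384 := mul v141 v383; ok v384 && (
  let v385 := mul v380 v382; ok v385 && (
  let v386 := add v385 v0; ok v386 && (
  let v387 := inv v386; ok v387 && (
  let v388 := mul v384 v387; ok v388 && (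
  let v389 := mul v158 v237; ok v389 && (
  let v390 := scale ⟨549755813888, 0, 0, 0⟩ v152; ok v390 && (
  let v391 := add v17 v390; ok v391 && (
  let v392 := mul v389 v391; ok v392 && (
  let v393 := scale ⟨2199023255552, 0, 0, 0⟩ v392; ok v393 && (
  let v394 := add v232 v393; ok v394 && (
  let v395 := scale ⟨2199023255552, 0, 0, 0⟩ v394; ok v395 && (
  let v396 := mul v395 v244; ok v396 && (
  let v397 := mul v9 v245; ok v397 && (
  let v398 := sub v24 v397; ok v398 && (
  let v399 := inv v398; ok v399 && (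
  let v400 := mul v396 v399; ok v400 && (
  let v401 := sub v388 v400; ok v401 && (
  let v402 := mul v154 v154; ok v402 && (
  let v403 := cst ⟨14293651161088, 0, 0, 0⟩; ok v403 && (
  let v404 := mul v403 v282; ok v404 && (
  let v405 := mul v402 v404; ok v405 && (
  let v406 := mul x0 x0; ok v406 && (
  let v407 := scale ⟨27487790694400, 0, 0, 0⟩ v406; ok v407 && (
  let v408 := add v405 v407; ok v408 && (
  let v409 := mul v285 v355; ok v409 && (
  let v410 := sub v40 v3; ok v410 && (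
  let v411 := sub v410 v39; ok v411 && (
  let v412 := mul v0 v1; ok v412 && (
  let v413 := mul v412 x0; ok v413 && (
  let v414 := mul v24 v237; ok v414 && (
  let v415 := mul v414 v156; ok v415 && (
  let v416 := add v224 v415; ok v416 && (
  let v417 := add v397 v56; ok v417 && (
  let v418 := mul v0 v417; ok v418 && (
  let v419 := mul v408 v409; ok v419 && (
  let v420 := mul v244 v418; ok v420 && (
  let v421 := mul v413 v416; ok v421 && (
  let v422 := mul v420 v421; ok v422 && (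
  let v423 := sub v419 v422; ok v423 && (
  let v424 := scale ⟨549755813888, 0, 0, 0⟩ v397; ok v424 && (
  let v425 := add v0 v424; ok v425 && (
  let v426 := mul v244 v425; ok v426 && (
  let v427 := mul v3 v23; ok v427 && (
  let v428 := mul v427 v149; ok v428 && (
  let v429 := mul v24 v52; ok v429 && (
  let v430 := inv v429; ok v430 && (
  let v431 := mul v428 v430; ok v431 && (
  let v432 := mul v426 v431; ok v432 && (
  let v433 := sub v411 v432; ok v433 && (
  let v434 := mul v152 v423; ok v434 && (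
  let v435 := sub v0 v152; ok v435 && (
  let v436 := mul v12 v433; ok v436 && (
  let v437 := mul v435 v436; ok v437 && (
  let v438 := mul v408 v437; ok v438 && (
  let v439 := add v434 v438; ok v439 && (
  isPos 4 v163 && (
  isPos 4 v166 && (
  let v440 := scale ⟨2199023255552, 0, 0, 0⟩ v241; ok v440 && (
  let v441 := sub v52 v440; ok v441 && (
  isPos 4 v441 && (
  isPos 4 v251 && (
  let v442 := sub v8 v139; ok v442 && (
  isPos 4 v442 && (
  let v443 := scale ⟨687194767360, 0, 0, 0⟩ v0; ok v443 && (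
  let v444 := sub v443 v201; ok v444 && (
  isPos 4 v444 && (
  let v445 := scale ⟨377957122048, 0, 0, 0⟩ v0; ok v445 && (
  let v446 := sub v445 v197; ok v446 && (
  isPos 4 v446 && (
  isPos 4 v398 && (
  isPos 4 v259 && (
  let v447 := sub v443 v271; ok v447 && (
  isPos 4 v447 && (
  isPos 4 v401 && (
  isPos 4 v379 && (
  isPos 4 v439 && (
  isPos 4 v433 && (
  true)))))))))))))))))))))))))))))))))))))))))))))))))))))))))))))))))))))))))))))))))))))))))))))))))))))))))))))))))))))))))))))))))))))))))))))))))))))))))))))))))))))))))))))))))))))))))))))))))))))))))))))))))))))))))))))))))))))))))))))))))))))))))))))))))))))))))))))))))))))))))))))))))))))))))))))))))))))))))))))))))))))))))))))))))))))))))))))))))))))))))))))))))))))))))))))))))))))))))))))))))))))))))))))))))))))))))))))))))))))))))))))))))))))))))))))))))))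
  | _ => false

set_option maxRecDepth 1000000 in
theorem chk1_eq (O : Ops) (m : List O.α)
    (h : chk1 O.cst O.add O.sub O.mul O.scale O.neg O.inv O.exp O.log O.ok O.isPos O.isLt m = true) :
    runG O 4 prog1 m = true := by
  match m, h with
  | [x0, x1, x2, x3], h => exact h

def chkB1 : List opsE.α → Bool :=
  chk1 opsE.cst opsE.add opsE.sub opsE.mul opsE.scale opsE.neg opsE.inv opsE.exp opsE.log opsE.ok opsE.isPos opsE.isLt

theorem chkB1_eq (m : List opsE.α) (h : chkB1 m = true) : runG opsE 4 prog1 m = true :=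
  chk1_eq opsE m h

def prog2 : List Op := [
  .const ⟨1099511627776, 0, 0, 0⟩,
  .mul 2 1,
  .mul 4 4,
  .mul 4 0,
  .mul 5 6,
  .mul 0 5,
  .mul 0 0,
  .mul 3 8,
  .const ⟨549755813888, 0, 0, 0⟩,
  .mul 5 7,
  .mul 0 13,
  .scale ⟨549755813888, 0, 0, 0⟩ 0,
  .mul 10 10,
  .mul 1 1,
  .sub 13 0,
  .inv 0,
  .mul 4 0,
  .scale ⟨2199023255552, 0, 0, 0⟩ 0,
  .scale ⟨2199023255552, 0, 0, 0⟩ 2,
  .sub 0 18,
  .add 0 2,
  .mul 24 5,
  .mul 20 0,
  .sub 22 0,
  .add 23 1,
  .mul 21 12,
  .mul 4 4,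
  .scale ⟨10774999203840, 0, 0, 0⟩ 15,
  .scale ⟨45768245248, 0, 0, 0⟩ 0,
  .const ⟨183207198720, 0, 0, 0⟩,
  .add 1 0,
  .mul 3 0,
  .add 23 0,
  .mul 5 0,
  .add 33 0,
  .mul 7 0,
  .scale ⟨549755813888, 0, 0, 0⟩ 0,
  .add 36 0,
  .mul 3 0,
  .mul 21 16,
  .scale ⟨2199023255552, 0, 0, 0⟩ 20,
  .add 1 0,
  .add 0 38,
  .mul 17 0,
  .add 0 43,
  .mul 27 27,
  .scale ⟨2199023255552, 0, 0, 0⟩ 0,
  .add 0 46,
  .mul 28 5,
  .sub 0 48,
  .log 5,
  .scale ⟨549755813888, 0, 0, 0⟩ 0,
  .exp 0,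
  .const ⟨3298534883328, 0, 0, 0⟩,
  .inv 0,
  .mul 54 0,
  .const ⟨2199023255552, 0, 0, 0⟩,
  .add 13 0,
  .inv 0,
  .mul 15 0,
  .mul 0 0,
  .sub 60 1,
  .mul 1 6,
  .add 62 0,
  .mul 2 0,
  .mul 4 4,
  .scale ⟨219915747328, 0, 0, 0⟩ 0,
  .mul 24 2,
  .scale ⟨549755813888, 0, 0, 0⟩ 0,
  .mul 26 2,
  .scale ⟨549755813888, 0, 0, 0⟩ 0,
  .add 2 0,
  .mul 52 22,
  .scale ⟨4398046511104, 0, 0, 0⟩ 0,
  .mul 54 48,
  .mul 0 25,
  .scale ⟨4398046511104, 0, 0, 0⟩ 0,
  .add 0 20,
  .inv 0,
  .mul 2 0,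
  .mul 0 0,
  .sub 80 1,
  .mul 1 26,
  .add 82 0,
  .mul 2 0,
  .mul 4 4,
  .scale ⟨219915747328, 0, 0, 0⟩ 0,
  .mul 13 2,
  .scale ⟨549755813888, 0, 0, 0⟩ 0,
  .sub 0 17,
  .mul 16 3,
  .scale ⟨549755813888, 0, 0, 0⟩ 0,
  .add 0 21,
  .add 3 0,
  .mul 95 25,
  .neg 0,
  .exp 0,
  .mul 98 26,
  .mul 1 0,
  .mul 100 9,
  .neg 0,
  .exp 0,
  .mul 103 9,
  .mul 1 0,
  .mul 81 86,
  .add 85 0,
  .inv 0,
  .mul 82 0,
  .mul 84 104,
  .mul 0 1,
  .sub 109 97,
  .mul 84 0,
  .mul 102 102,
  .sub 112 86,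
  .mul 3 0,
  .mul 89 65,
  .inv 71,
  .mul 1 0,
  .add 98 0,
  .mul 74 0,
  .mul 0 0,
  .inv 0,
  .mul 7 0,
  .add 103 97,
  .mul 124 0,
  .inv 0,
  .mul 125 0,
  .mul 0 0,
  .mul 0 13,
  .const ⟨10849087389696, 0, 0, 0⟩,
  .sub 0 1,
  .pos 0,
  .const ⟨13, 0, 0, 0⟩,
  .const ⟨2295, 0, 0, 0⟩,
  .mul 4 1,
  .sub 1 0,
  .const ⟨302996, 0, 0, 0⟩,
  .mul 7 1,
  .sub 1 0,
  .const ⟨27269633, 0, 0, 0⟩,
  .mul 10 1,
  .sub 1 0,
  .const ⟨1527099484, 0, 0, 0⟩,
  .mul 13 1,
  .sub 1 0,
  .const ⟨45812984490, 0, 0, 0⟩,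
  .mul 16 1,
  .sub 1 0,
  .mul 18 0,
  .sub 139 0,
  .mul 20 0,
  .sub 149 0,
  .add 54 150,
  .mul 55 55,
  .add 0 152,
  .mul 57 3,
  .scale ⟨2199023255552, 0, 0, 0⟩ 0,
  .add 2 0,
  .scale ⟨4398046511104, 0, 0, 0⟩ 58,
  .sub 1 0,
  .inv 7,
  .mul 1 0,
  .add 0 9,
  .mul 65 52,
  .scale ⟨549755813888, 0, 0, 0⟩ 0,
  .mul 0 2,
  .sub 6 0,
  .pos 7,
  .pos 0,
  .sub 165 69,
  .mul 0 15,
  .scale ⟨2199023255552, 0, 0, 0⟩ 69,
  .add 1 0,
  .inv 4,
  .mul 1 0,
  .scale ⟨549755813888, 0, 0, 0⟩ 0,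
  .add 0 164,
  .inv 0,
  .mul 2 0,
  .mul 66 0,
  .scale ⟨549755813888, 0, 0, 0⟩ 0,
  .sub 177 0,
  .sub 178 2,
  .inv 0,
  .mul 2 0,
  .add 5 181,
  .mul 86 0,
  .mul 76 2,
  .mul 0 9,
  .mul 9 4,
  .pos 7,
  .mul 163 162,
  .add 168 184,
  .mul 166 169,
  .mul 0 172,
  .scale ⟨2199023255552, 0, 0, 0⟩ 0,
  .add 144 0,
  .mul 4 0,
  .inv 0,
  .mul 7 0,
  .mul 192 0,
  .pos 107,
  .mul 68 80,
  .sub 68 0,
  .pos 0,
  .mul 1 67,
  .sub 67 0,
  .mul 3 0,
  .sub 66 0,
  .mul 5 0,
  .sub 65 0,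
  .mul 7 0,
  .sub 64 0,
  .mul 9 0,
  .sub 63 0,
  .mul 11 0,
  .sub 201 0,
  .mul 13 0,
  .sub 211 0,
  .add 111 212,
  .mul 112 112,
  .add 0 214,
  .mul 114 3,
  .scale ⟨2199023255552, 0, 0, 0⟩ 0,
  .add 2 0,
  .scale ⟨4398046511104, 0, 0, 0⟩ 115,
  .sub 1 0,
  .inv 7,
  .mul 1 0,
  .add 0 9,
  .mul 122 27,
  .scale ⟨549755813888, 0, 0, 0⟩ 0,
  .mul 0 2,
  .sub 6 0,
  .pos 7,
  .pos 0,
  .sub 227 126,
  .mul 0 15,
  .scale ⟨2199023255552, 0, 0, 0⟩ 126,
  .add 1 0,
  .inv 4,
  .mul 1 0,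
  .scale ⟨549755813888, 0, 0, 0⟩ 0,
  .add 0 226,
  .inv 0,
  .mul 2 0,
  .mul 41 0,
  .mul 1 239,
  .add 228 239,
  .inv 0,
  .mul 230 0,
  .scale ⟨2199023255552, 0, 0, 0⟩ 0,
  .sub 243 0,
  .sub 244 233,
  .mul 249 4,
  .mul 0 2,
  .add 223 0,
  .scale ⟨224412041216, 0, 0, 0⟩ 233,
  .inv 211,
  .mul 1 0,
  .scale ⟨4398046511104, 0, 0, 0⟩ 252,
  .mul 252 231,
  .add 1 0,
  .inv 0,
  .mul 255 0,
  .mul 257 1,
  .mul 0 233,
  .mul 0 7,
  .mul 3 235,
  .mul 0 9,
  .sub 261 0,
  .inv 0,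
  .mul 80 2,
  .sub 264 0,
  .inv 0,
  .mul 243 91,
  .inv 245,
  .mul 1 0,
  .scale ⟨549755813888, 0, 0, 0⟩ 0,
  .sub 270 0,
  .sub 271 2,
  .inv 0,
  .mul 2 0,
  .mul 0 99,
  .mul 6 1,
  .mul 0 270,
  .pos 5,
  .scale ⟨1374389534720, 0, 0, 0⟩ 0,
  .sub 270 0,
  .pos 0,
  .scale ⟨3092376453120, 0, 0, 0⟩ 2,
  .add 0 224,
  .mul 4 0,
  .add 282 0,
  .scale ⟨1546188226560, 0, 0, 0⟩ 6,
  .add 0 284,
  .mul 8 0,
  .add 286 0,
  .mul 276 266,
  .sub 288 177,
  .mul 278 267,
  .scale ⟨2199023255552, 0, 0, 0⟩ 0,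
  .sub 2 0,
  .mul 4 4,
  .add 1 0,
  .add 0 294,
  .scale ⟨549755813888, 0, 0, 0⟩ 0,
  .scale ⟨549755813888, 0, 0, 0⟩ 271,
  .sub 282 0,
  .mul 186 9,
  .mul 0 285,
  .scale ⟨137438953472, 0, 0, 0⟩ 0,
  .add 3 0,
  .mul 6 0,
  .const ⟨1, 0, 0, 0⟩,
  .const ⟨12, 0, 0, 0⟩,
  .mul 177 1,
  .sub 1 0,
  .const ⟨2296, 0, 0, 0⟩,
  .mul 180 1,
  .sub 1 0,
  .const ⟨302995, 0, 0, 0⟩,
  .mul 183 1,
  .sub 1 0,
  .const ⟨27269634, 0, 0, 0⟩,
  .mul 186 1,
  .sub 1 0,
  .const ⟨1527099483, 0, 0, 0⟩,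
  .mul 189 1,
  .sub 1 0,
  .const ⟨45812984491, 0, 0, 0⟩,
  .mul 192 1,
  .sub 1 0,
  .mul 194 0,
  .sub 315 0,
  .mul 196 0,
  .sub 325 0,
  .mul 198 320,
  .mul 0 0,
  .scale ⟨369367187456, 0, 0, 0⟩ 0,
  .add 3 0,
  .mul 234 0,
  .scale ⟨2199023255552, 0, 0, 0⟩ 0,
  .add 179 0,
  .add 0 165,
  .const ⟨8589934592, 0, 0, 0⟩,
  .add 1 0,
  .log 0,
  .scale ⟨549755813888, 0, 0, 0⟩ 0,
  .exp 0,
  .mul 243 163,
  .add 1 0,
  .mul 0 78,
  .mul 159 76,
  .add 1 0,
  .mul 83 0,
  .add 159 0,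
  .mul 0 340,
  .mul 6 86,
  .mul 0 85,
  .add 163 0,
  .mul 0 344,
  .scale ⟨223338299392, 0, 0, 0⟩ 0,
  .add 344 0,
  .mul 2 0,
  .add 354 0,
  .scale ⟨893353197568, 0, 0, 0⟩ 8,
  .add 356 0,
  .mul 10 0,
  .add 358 0,
  .mul 116 113,
  .mul 0 77,
  .mul 0 2,
  .mul 59 7,
  .add 311 355,
  .mul 2 0,
  .add 2 0,
  .add 314 366,
  .mul 5 0,
  .mul 81 1,
  .mul 0 123,
  .mul 0 125,
  .mul 5 186,
  .mul 1 97,
  .add 1 0,
  .mul 367 126,
  .inv 323,
  .mul 1 0,
  .scale ⟨549755813888, 0, 0, 0⟩ 0,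
  .mul 355 0,
  .mul 376 5,
  .add 1 0,
  .mul 382 0,
  .mul 16 41,
  .mul 0 120,
  .mul 16 201,
  .mul 0 119,
  .add 2 0,
  .mul 364 5,
  .mul 129 1,
  .add 1 0,
  .mul 278 0,
  .mul 0 15,
  .sub 392 0,
  .inv 0,
  .mul 4 0,
  .mul 392 0,
  .mul 284 1,
  .mul 0 21,
  .sub 398 0,
  .mul 350 0,
  .sub 0 4,
  .inv 0,
  .mul 6 0,
  .sub 351 6,
  .inv 0,
  .mul 2 168,
  .scale ⟨549755813888, 0, 0, 0⟩ 0,
  .sub 407 0,
  .sub 408 2,
  .inv 0,
  .mul 2 0,
  .mul 410 6,
  .mul 173 10,
  .mul 0 2,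
  .add 2 0,
  .mul 408 20,
  .mul 11 0,
  .mul 180 15,
  .mul 0 7,
  .mul 0 23,
  .add 3 0,
  .scale ⟨223338299392, 0, 0, 0⟩ 0,
  .add 414 0,
  .mul 2 0,
  .add 424 0,
  .mul 10 0,
  .mul 0 32,
  .mul 0 40,
  .mul 168 405,
  .const ⟨7696581394432, 0, 0, 0⟩,
  .const ⟨10995116277760, 0, 0, 0⟩,
  .inv 0,
  .mul 2 0,
  .mul 193 409,
  .mul 0 1,
  .mul 247 329,
  .mul 414 0,
  .scale ⟨549755813888, 0, 0, 0⟩ 199,
  .sub 438 0,
  .sub 439 201,
  .inv 0,
  .mul 2 0,
  .mul 0 246,
  .mul 331 321,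
  .scale ⟨733097230336, 0, 0, 0⟩ 0,
  .sub 445 0,
  .mul 324 0,
  .mul 358 358,
  .mul 436 0,
  .add 2 0,
  .mul 7 211,
  .add 1 451,
  .mul 1 0,
  .sub 3 0,
  .scale ⟨366548615168, 0, 0, 0⟩ 409,
  .sub 455 0,
  .mul 430 0,
  .add 3 0,
  .mul 22 0,
  .mul 22 22,
  .add 460 0,
  .inv 0,
  .mul 3 0,
  .sub 463 60,
  .mul 0 1,
  .sub 465 14,
  .pos 0,
  .pos 3,
  .pos 2,
  .mul 39 212,
  .mul 0 86,
  .inv 444,
  .mul 1 0,
  .mul 472 5,
  .neg 0,
  .exp 0,
  .mul 470 38,
  .add 474 0,
  .inv 0,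
  .mul 3 0,
  .mul 0 457,
  .mul 469 83,
  .mul 0 10,
  .add 480 0,
  .mul 3 0,
  .mul 0 77,
  .mul 480 55,
  .mul 0 223,
  .mul 482 56,
  .mul 16 0,
  .add 2 0,
  .add 4 18,
  .add 489 1,
  .mul 7 0,
  .add 2 0,
  .sub 492 0,
  .scale ⟨1073741824, 0, 0, 0⟩ 490,
  .sub 1 0,
  .sub 475 495,
  .add 0 440,
  .scale ⟨2199023255552, 0, 0, 0⟩ 64,
  .sub 1 0,
  .mul 259 0,
  .mul 4 2,
  .add 0 501,
  .inv 0,
  .mul 3 0,
  .mul 247 117,
  .scale ⟨549755813888, 0, 0, 0⟩ 254,
  .add 489 0,
  .mul 2 0,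
  .scale ⟨2199023255552, 0, 0, 0⟩ 0,
  .add 127 0,
  .scale ⟨2199023255552, 0, 0, 0⟩ 0,
  .mul 0 117,
  .sub 488 33,
  .inv 0,
  .mul 2 0,
  .sub 11 0,
  .mul 263 263,
  .const ⟨14293651161088, 0, 0, 0⟩,
  .mul 0 86,
  .mul 2 0,
  .mul 521 521,
  .scale ⟨27487790694400, 0, 0, 0⟩ 0,
  .add 2 0,
  .mul 88 47,
  .sub 484 521,
  .sub 0 486,
  .mul 526 525,
  .mul 0 528,
  .mul 504 141,
  .mul 0 274,
  .add 156 0,
  .add 52 475,
  .mul 532 0,
  .mul 10 9,
  .mul 140 1,
  .mul 7 4,
  .mul 1 0,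
  .sub 3 0,
  .scale ⟨549755813888, 0, 0, 0⟩ 59,
  .add 539 0,
  .mul 146 0,
  .mul 538 518,
  .mul 0 294,
  .mul 519 491,
  .inv 0,
  .mul 2 0,
  .mul 5 0,
  .sub 21 0,
  .mul 297 10,
  .sub 549 298,
  .mul 538 2,
  .mul 1 0,
  .mul 29 0,
  .add 4 0,
  .pos 292,
  .pos 289,
  .scale ⟨2199023255552, 0, 0, 0⟩ 163,
  .sub 503 0,
  .pos 0,
  .pos 155,
  .sub 548 318,
  .pos 0,
  .scale ⟨687194767360, 0, 0, 0⟩ 557,
  .sub 0 207,
  .pos 0,
  .scale ⟨377957122048, 0, 0, 0⟩ 559,
  .sub 0 213,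
  .pos 0,
  .pos 48,
  .pos 152,
  .sub 3 140,
  .pos 0,
  .pos 46,
  .pos 67,
  .pos 8,
  .pos 14]

def chk2 {α : Type} (cst : Z → α) (add sub mul : α → α → α) (scale : Z → α → α)
    (neg inv exp log : α → α) (ok : α → Bool) (isPos : Nat → α → Bool) (isLt : α → Nat → Bool) :
    List α → Bool
  | [x0, x1, x2, x3] =>
  let v0 := cst ⟨1099511627776, 0, 0, 0⟩; ok v0 && (
  let v1 := mul x1 x0; ok v1 && (
  let v2 := mul x2 x2; ok v2 && (
  let v3 := mul x1 v2; ok v3 && (
  let v4 := mul x1 x2; ok v4 && (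
  let v5 := mul v4 x0; ok v5 && (
  let v6 := mul v5 v5; ok v6 && (
  let v7 := mul v3 x1; ok v7 && (
  let v8 := cst ⟨549755813888, 0, 0, 0⟩; ok v8 && (
  let v9 := mul v3 v1; ok v9 && (
  let v10 := mul v9 x3; ok v10 && (
  let v11 := scale ⟨549755813888, 0, 0, 0⟩ v10; ok v11 && (
  let v12 := mul v1 v1; ok v12 && (
  let v13 := mul v11 v11; ok v13 && (
  let v14 := sub v0 v13; ok v14 && (
  let v15 := inv v14; ok v15 && (
  let v16 := mul v11 v15; ok v16 && (
  let v17 := scale ⟨2199023255552, 0, 0, 0⟩ v16; ok v17 && (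
  let v18 := scale ⟨2199023255552, 0, 0, 0⟩ v15; ok v18 && (
  let v19 := sub v18 v0; ok v19 && (
  let v20 := add v19 v17; ok v20 && (
  let v21 := mul x3 v15; ok v21 && (
  let v22 := mul v1 v21; ok v22 && (
  let v23 := sub v0 v22; ok v23 && (
  let v24 := add v0 v22; ok v24 && (
  let v25 := mul v3 v12; ok v25 && (
  let v26 := mul v21 v21; ok v26 && (
  let v27 := scale ⟨10774999203840, 0, 0, 0⟩ v11; ok v27 && (
  let v28 := scale ⟨45768245248, 0, 0, 0⟩ v27; ok v28 && (
  let v29 := cst ⟨183207198720, 0, 0, 0⟩; ok v29 && (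
  let v30 := add v28 v29; ok v30 && (
  let v31 := mul v27 v30; ok v31 && (
  let v32 := add v8 v31; ok v32 && (
  let v33 := mul v27 v32; ok v33 && (
  let v34 := add v0 v33; ok v34 && (
  let v35 := mul v27 v34; ok v35 && (
  let v36 := scale ⟨549755813888, 0, 0, 0⟩ v35; ok v36 && (
  let v37 := add v0 v36; ok v37 && (
  let v38 := mul v34 v37; ok v38 && (
  let v39 := mul v17 v22; ok v39 && (
  let v40 := scale ⟨2199023255552, 0, 0, 0⟩ v19; ok v40 && (
  let v41 := add v39 v40; ok v41 && (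
  let v42 := add v41 v3; ok v42 && (
  let v43 := mul v25 v42; ok v43 && (
  let v44 := add v43 v0; ok v44 && (
  let v45 := mul v17 v17; ok v45 && (
  let v46 := scale ⟨2199023255552, 0, 0, 0⟩ v45; ok v46 && (
  let v47 := add v46 v0; ok v47 && (
  let v48 := mul v19 v42; ok v48 && (
  let v49 := sub v48 v0; ok v49 && (
  let v50 := log v44; ok v50 && (
  let v51 := scale ⟨549755813888, 0, 0, 0⟩ v50; ok v51 && (
  let v52 := exp v51; ok v52 && (
  let v53 := cst ⟨3298534883328, 0, 0, 0⟩; ok v53 && (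
  let v54 := inv v53; ok v54 && (
  let v55 := mul v0 v54; ok v55 && (
  let v56 := cst ⟨2199023255552, 0, 0, 0⟩; ok v56 && (
  let v57 := add v43 v56; ok v57 && (
  let v58 := inv v57; ok v58 && (
  let v59 := mul v43 v58; ok v59 && (
  let v60 := mul v59 v59; ok v60 && (
  let v61 := sub v0 v59; ok v61 && (
  let v62 := mul v60 v55; ok v62 && (
  let v63 := add v0 v62; ok v63 && (
  let v64 := mul v61 v63; ok v64 && (
  let v65 := mul v60 v60; ok v65 && (
  let v66 := scale ⟨219915747328, 0, 0, 0⟩ v65; ok v66 && (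
  let v67 := mul v42 v64; ok v67 && (
  let v68 := scale ⟨549755813888, 0, 0, 0⟩ v67; ok v68 && (
  let v69 := mul v42 v66; ok v69 && (
  let v70 := scale ⟨549755813888, 0, 0, 0⟩ v69; ok v70 && (
  let v71 := add v68 v70; ok v71 && (
  let v72 := mul v19 v49; ok v72 && (
  let v73 := scale ⟨4398046511104, 0, 0, 0⟩ v72; ok v73 && (
  let v74 := mul v19 v25; ok v74 && (
  let v75 := mul v74 v49; ok v75 && (
  let v76 := scale ⟨4398046511104, 0, 0, 0⟩ v75; ok v76 && (
  let v77 := add v76 v56; ok v77 && (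
  let v78 := inv v77; ok v78 && (
  let v79 := mul v76 v78; ok v79 && (
  let v80 := mul v79 v79; ok v80 && (
  let v81 := sub v0 v79; ok v81 && (
  let v82 := mul v80 v55; ok v82 && (
  let v83 := add v0 v82; ok v83 && (
  let v84 := mul v81 v83; ok v84 && (
  let v85 := mul v80 v80; ok v85 && (
  let v86 := scale ⟨219915747328, 0, 0, 0⟩ v85; ok v86 && (
  let v87 := mul v73 v84; ok v87 && (
  let v88 := scale ⟨549755813888, 0, 0, 0⟩ v87; ok v88 && (
  let v89 := sub v88 v71; ok v89 && (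
  let v90 := mul v73 v86; ok v90 && (
  let v91 := scale ⟨549755813888, 0, 0, 0⟩ v90; ok v91 && (
  let v92 := add v91 v70; ok v92 && (
  let v93 := add v89 v92; ok v93 && (
  let v94 := mul x1 v68; ok v94 && (
  let v95 := neg v94; ok v95 && (
  let v96 := exp v95; ok v96 && (
  let v97 := mul x1 v70; ok v97 && (
  let v98 := mul v96 v97; ok v98 && (
  let v99 := mul x1 v89; ok v99 && (
  let v100 := neg v99; ok v100 && (
  let v101 := exp v100; ok v101 && (
  let v102 := mul x1 v92; ok v102 && (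
  let v103 := mul v101 v102; ok v103 && (
  let v104 := mul v22 v17; ok v104 && (
  let v105 := add v19 v104; ok v105 && (
  let v106 := inv v105; ok v106 && (
  let v107 := mul v24 v106; ok v107 && (
  let v108 := mul v23 v3; ok v108 && (
  let v109 := mul v108 v107; ok v109 && (
  let v110 := sub v0 v12; ok v110 && (
  let v111 := mul v26 v110; ok v111 && (
  let v112 := mul v9 v9; ok v112 && (
  let v113 := sub v0 v26; ok v113 && (
  let v114 := mul v110 v113; ok v114 && (
  let v115 := mul v25 v49; ok v115 && (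
  let v116 := inv v44; ok v116 && (
  let v117 := mul v115 v116; ok v117 && (
  let v118 := add v19 v117; ok v118 && (
  let v119 := mul v44 v118; ok v119 && (
  let v120 := mul v119 v119; ok v120 && (
  let v121 := inv v120; ok v121 && (
  let v122 := mul v114 v121; ok v122 && (
  let v123 := add v19 v25; ok v123 && (
  let v124 := mul x0 v123; ok v124 && (
  let v125 := inv v124; ok v125 && (
  let v126 := mul v0 v125; ok v126 && (
  let v127 := mul v126 v126; ok v127 && (
  let v128 := mul v127 v114; ok v128 && (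
  let v129 := cst ⟨10849087389696, 0, 0, 0⟩; ok v129 && (
  let v130 := sub v129 v128; ok v130 && (
  isPos 4 v130 && (
  let v131 := cst ⟨13, 0, 0, 0⟩; ok v131 && (
  let v132 := cst ⟨2295, 0, 0, 0⟩; ok v132 && (
  let v133 := mul v128 v131; ok v133 && (
  let v134 := sub v132 v133; ok v134 && (
  let v135 := cst ⟨302996, 0, 0, 0⟩; ok v135 && (
  let v136 := mul v128 v134; ok v136 && (
  let v137 := sub v135 v136; ok v137 && (
  let v138 := cst ⟨27269633, 0, 0, 0⟩; ok v138 && (
  let v139 := mul v128 v137; ok v139 && (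
  let v140 := sub v138 v139; ok v140 && (
  let v141 := cst ⟨1527099484, 0, 0, 0⟩; ok v141 && (
  let v142 := mul v128 v140; ok v142 && (
  let v143 := sub v141 v142; ok v143 && (
  let v144 := cst ⟨45812984490, 0, 0, 0⟩; ok v144 && (
  let v145 := mul v128 v143; ok v145 && (
  let v146 := sub v144 v145; ok v146 && (
  let v147 := mul v128 v146; ok v147 && (
  let v148 := sub v8 v147; ok v148 && (
  let v149 := mul v128 v148; ok v149 && (
  let v150 := sub v0 v149; ok v150 && (
  let v151 := add v96 v0; ok v151 && (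
  let v152 := mul v96 v96; ok v152 && (
  let v153 := add v152 v0; ok v153 && (
  let v154 := mul v96 v150; ok v154 && (
  let v155 := scale ⟨2199023255552, 0, 0, 0⟩ v154; ok v155 && (
  let v156 := add v153 v155; ok v156 && (
  let v157 := scale ⟨4398046511104, 0, 0, 0⟩ v98; ok v157 && (
  let v158 := sub v156 v157; ok v158 && (
  let v159 := inv v151; ok v159 && (
  let v160 := mul v158 v159; ok v160 && (
  let v161 := add v160 v151; ok v161 && (
  let v162 := mul v96 v109; ok v162 && (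
  let v163 := scale ⟨549755813888, 0, 0, 0⟩ v162; ok v163 && (
  let v164 := mul v163 v161; ok v164 && (
  let v165 := sub v158 v164; ok v165 && (
  isPos 4 v158 && (
  isPos 4 v165 && (
  let v166 := sub v0 v96; ok v166 && (
  let v167 := mul v166 v151; ok v167 && (
  let v168 := scale ⟨2199023255552, 0, 0, 0⟩ v98; ok v168 && (
  let v169 := add v167 v168; ok v169 && (
  let v170 := inv v165; ok v170 && (
  let v171 := mul v169 v170; ok v171 && (
  let v172 := scale ⟨549755813888, 0, 0, 0⟩ v171; ok v172 && (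
  let v173 := add v172 v8; ok v173 && (
  let v174 := inv v173; ok v174 && (
  let v175 := mul v172 v174; ok v175 && (
  let v176 := mul v109 v175; ok v176 && (
  let v177 := scale ⟨549755813888, 0, 0, 0⟩ v176; ok v177 && (
  let v178 := sub v0 v177; ok v178 && (
  let v179 := sub v0 v176; ok v179 && (
  let v180 := inv v179; ok v180 && (
  let v181 := mul v178 v180; ok v181 && (
  let v182 := add v176 v0; ok v182 && (
  let v183 := mul v96 v182; ok v183 && (
  let v184 := mul v107 v181; ok v184 && (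
  let v185 := mul v184 v175; ok v185 && (
  let v186 := mul v176 v181; ok v186 && (
  isPos 4 v179 && (
  let v187 := mul v23 v24; ok v187 && (
  let v188 := add v19 v3; ok v188 && (
  let v189 := mul v22 v19; ok v189 && (
  let v190 := mul v189 v17; ok v190 && (
  let v191 := scale ⟨2199023255552, 0, 0, 0⟩ v190; ok v191 && (
  let v192 := add v47 v191; ok v192 && (
  let v193 := mul v188 v192; ok v193 && (
  let v194 := inv v193; ok v194 && (
  let v195 := mul v187 v194; ok v195 && (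
  let v196 := mul v3 v195; ok v196 && (
  isPos 4 v89 && (
  let v197 := mul v128 v116; ok v197 && (
  let v198 := sub v129 v197; ok v198 && (
  isPos 4 v198 && (
  let v199 := mul v197 v131; ok v199 && (
  let v200 := sub v132 v199; ok v200 && (
  let v201 := mul v197 v200; ok v201 && (
  let v202 := sub v135 v201; ok v202 && (
  let v203 := mul v197 v202; ok v203 && (
  let v204 := sub v138 v203; ok v204 && (
  let v205 := mul v197 v204; ok v205 && (
  let v206 := sub v141 v205; ok v206 && (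
  let v207 := mul v197 v206; ok v207 && (
  let v208 := sub v144 v207; ok v208 && (
  let v209 := mul v197 v208; ok v209 && (
  let v210 := sub v8 v209; ok v210 && (
  let v211 := mul v197 v210; ok v211 && (
  let v212 := sub v0 v211; ok v212 && (
  let v213 := add v101 v0; ok v213 && (
  let v214 := mul v101 v101; ok v214 && (
  let v215 := add v214 v0; ok v215 && (
  let v216 := mul v101 v212; ok v216 && (
  let v217 := scale ⟨2199023255552, 0, 0, 0⟩ v216; ok v217 && (
  let v218 := add v215 v217; ok v218 && (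
  let v219 := scale ⟨4398046511104, 0, 0, 0⟩ v103; ok v219 && (
  let v220 := sub v218 v219; ok v220 && (
  let v221 := inv v213; ok v221 && (
  let v222 := mul v220 v221; ok v222 && (
  let v223 := add v222 v213; ok v223 && (
  let v224 := mul v101 v196; ok v224 && (
  let v225 := scale ⟨549755813888, 0, 0, 0⟩ v224; ok v225 && (
  let v226 := mul v225 v223; ok v226 && (
  let v227 := sub v220 v226; ok v227 && (
  isPos 4 v220 && (
  isPos 4 v227 && (
  let v228 := sub v0 v101; ok v228 && (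
  let v229 := mul v228 v213; ok v229 && (
  let v230 := scale ⟨2199023255552, 0, 0, 0⟩ v103; ok v230 && (
  let v231 := add v229 v230; ok v231 && (
  let v232 := inv v227; ok v232 && (
  let v233 := mul v231 v232; ok v233 && (
  let v234 := scale ⟨549755813888, 0, 0, 0⟩ v233; ok v234 && (
  let v235 := add v234 v8; ok v235 && (
  let v236 := inv v235; ok v236 && (
  let v237 := mul v234 v236; ok v237 && (
  let v238 := mul v196 v237; ok v238 && (
  let v239 := mul v237 x0; ok v239 && (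
  let v240 := add v11 v0; ok v240 && (
  let v241 := inv v240; ok v241 && (
  let v242 := mul v11 v241; ok v242 && (
  let v243 := scale ⟨2199023255552, 0, 0, 0⟩ v242; ok v243 && (
  let v244 := sub v0 v243; ok v244 && (
  let v245 := sub v0 v11; ok v245 && (
  let v246 := mul x3 v241; ok v246 && (
  let v247 := mul v246 v244; ok v247 && (
  let v248 := add v24 v247; ok v248 && (
  let v249 := scale ⟨224412041216, 0, 0, 0⟩ v15; ok v249 && (
  let v250 := inv v38; ok v250 && (
  let v251 := mul v249 v250; ok v251 && (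
  let v252 := scale ⟨4398046511104, 0, 0, 0⟩ x0; ok v252 && (
  let v253 := mul v0 v21; ok v253 && (
  let v254 := add v252 v253; ok v254 && (
  let v255 := inv v254; ok v255 && (
  let v256 := mul v0 v255; ok v256 && (
  let v257 := mul x0 v255; ok v257 && (
  let v258 := mul v257 v24; ok v258 && (
  let v259 := mul v258 v251; ok v259 && (
  let v260 := mul v256 v24; ok v260 && (
  let v261 := mul v260 v251; ok v261 && (
  let v262 := sub v0 v261; ok v262 && (
  let v263 := inv v262; ok v263 && (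
  let v264 := mul v183 v261; ok v264 && (
  let v265 := sub v0 v264; ok v265 && (
  let v266 := inv v265; ok v266 && (
  let v267 := mul v23 v175; ok v267 && (
  let v268 := inv v22; ok v268 && (
  let v269 := mul v267 v268; ok v269 && (
  let v270 := scale ⟨549755813888, 0, 0, 0⟩ v269; ok v270 && (
  let v271 := sub v0 v270; ok v271 && (
  let v272 := sub v0 v269; ok v272 && (
  let v273 := inv v272; ok v273 && (
  let v274 := mul v271 v273; ok v274 && (
  let v275 := mul v274 v175; ok v275 && (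
  let v276 := mul v269 v274; ok v276 && (
  let v277 := mul v276 v6; ok v277 && (
  isPos 4 v272 && (
  let v278 := scale ⟨1374389534720, 0, 0, 0⟩ v277; ok v278 && (
  let v279 := sub v8 v278; ok v279 && (
  isPos 4 v279 && (
  let v280 := scale ⟨3092376453120, 0, 0, 0⟩ v277; ok v280 && (
  let v281 := add v280 v56; ok v281 && (
  let v282 := mul v277 v281; ok v282 && (
  let v283 := add v0 v282; ok v283 && (
  let v284 := scale ⟨1546188226560, 0, 0, 0⟩ v277; ok v284 && (
  let v285 := add v284 v0; ok v285 && (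
  let v286 := mul v277 v285; ok v286 && (
  let v287 := add v0 v286; ok v287 && (
  let v288 := mul v11 v21; ok v288 && (
  let v289 := sub v0 v111; ok v289 && (
  let v290 := mul v11 v22; ok v290 && (
  let v291 := scale ⟨2199023255552, 0, 0, 0⟩ v290; ok v291 && (
  let v292 := sub v289 v291; ok v292 && (
  let v293 := mul v288 v288; ok v293 && (
  let v294 := add v292 v293; ok v294 && (
  let v295 := add v294 v0; ok v295 && (
  let v296 := scale ⟨549755813888, 0, 0, 0⟩ v295; ok v296 && (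
  let v297 := scale ⟨549755813888, 0, 0, 0⟩ v25; ok v297 && (
  let v298 := sub v15 v297; ok v298 && (
  let v299 := mul v112 v289; ok v299 && (
  let v300 := mul v299 v14; ok v300 && (
  let v301 := scale ⟨137438953472, 0, 0, 0⟩ v300; ok v301 && (
  let v302 := add v298 v301; ok v302 && (
  let v303 := mul v296 v302; ok v303 && (
  let v304 := cst ⟨1, 0, 0, 0⟩; ok v304 && (
  let v305 := cst ⟨12, 0, 0, 0⟩; ok v305 && (
  let v306 := mul v128 v304; ok v306 && (
  let v307 := sub v305 v306; ok v307 && (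
  let v308 := cst ⟨2296, 0, 0, 0⟩; ok v308 && (
  let v309 := mul v128 v307; ok v309 && (
  let v310 := sub v308 v309; ok v310 && (
  let v311 := cst ⟨302995, 0, 0, 0⟩; ok v311 && (
  let v312 := mul v128 v310; ok v312 && (
  let v313 := sub v311 v312; ok v313 && (
  let v314 := cst ⟨27269634, 0, 0, 0⟩; ok v314 && (
  let v315 := mul v128 v313; ok v315 && (
  let v316 := sub v314 v315; ok v316 && (
  let v317 := cst ⟨1527099483, 0, 0, 0⟩; ok v317 && (
  let v318 := mul v128 v316; ok v318 && (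
  let v319 := sub v317 v318; ok v319 && (
  let v320 := cst ⟨45812984491, 0, 0, 0⟩; ok v320 && (
  let v321 := mul v128 v319; ok v321 && (
  let v322 := sub v320 v321; ok v322 && (
  let v323 := mul v128 v322; ok v323 && (
  let v324 := sub v8 v323; ok v324 && (
  let v325 := mul v128 v324; ok v325 && (
  let v326 := sub v0 v325; ok v326 && (
  let v327 := mul v128 v6; ok v327 && (
  let v328 := mul v327 v327; ok v328 && (
  let v329 := scale ⟨369367187456, 0, 0, 0⟩ v328; ok v329 && (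
  let v330 := add v326 v329; ok v330 && (
  let v331 := mul v96 v330; ok v331 && (
  let v332 := scale ⟨2199023255552, 0, 0, 0⟩ v331; ok v332 && (
  let v333 := add v153 v332; ok v333 && (
  let v334 := add v333 v168; ok v334 && (
  let v335 := cst ⟨8589934592, 0, 0, 0⟩; ok v335 && (
  let v336 := add v334 v335; ok v336 && (
  let v337 := log v336; ok v337 && (
  let v338 := scale ⟨549755813888, 0, 0, 0⟩ v337; ok v338 && (
  let v339 := exp v338; ok v339 && (
  let v340 := mul v96 v176; ok v340 && (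
  let v341 := add v339 v340; ok v341 && (
  let v342 := mul v341 v263; ok v342 && (
  let v343 := mul v183 v266; ok v343 && (
  let v344 := add v342 v343; ok v344 && (
  let v345 := mul v261 v344; ok v345 && (
  let v346 := add v186 v345; ok v346 && (
  let v347 := mul v346 v6; ok v347 && (
  let v348 := mul v341 v261; ok v348 && (
  let v349 := mul v348 v263; ok v349 && (
  let v350 := add v186 v349; ok v350 && (
  let v351 := mul v350 v6; ok v351 && (
  let v352 := scale ⟨223338299392, 0, 0, 0⟩ v351; ok v352 && (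
  let v353 := add v8 v352; ok v353 && (
  let v354 := mul v351 v353; ok v354 && (
  let v355 := add v0 v354; ok v355 && (
  let v356 := scale ⟨893353197568, 0, 0, 0⟩ v347; ok v356 && (
  let v357 := add v0 v356; ok v357 && (
  let v358 := mul v347 v357; ok v358 && (
  let v359 := add v0 v358; ok v359 && (
  let v360 := mul v243 v246; ok v360 && (
  let v361 := mul v360 v283; ok v361 && (
  let v362 := mul v361 v359; ok v362 && (
  let v363 := mul v303 v355; ok v363 && (
  let v364 := add v52 v8; ok v364 && (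
  let v365 := mul v362 v364; ok v365 && (
  let v366 := add v363 v365; ok v366 && (
  let v367 := add v52 v0; ok v367 && (
  let v368 := mul v362 v367; ok v368 && (
  let v369 := mul v287 v367; ok v369 && (
  let v370 := mul v369 v246; ok v370 && (
  let v371 := mul v370 v245; ok v371 && (
  let v372 := mul v366 v185; ok v372 && (
  let v373 := mul v371 v275; ok v373 && (
  let v374 := add v372 v373; ok v374 && (
  let v375 := mul v7 v248; ok v375 && (
  let v376 := inv v52; ok v376 && (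
  let v377 := mul v375 v376; ok v377 && (
  let v378 := scale ⟨549755813888, 0, 0, 0⟩ v377; ok v378 && (
  let v379 := mul v23 v378; ok v379 && (
  let v380 := mul v3 v374; ok v380 && (
  let v381 := add v379 v380; ok v381 && (
  let v382 := mul x0 v381; ok v382 && (
  let v383 := mul v366 v341; ok v383 && (
  let v384 := mul v383 v263; ok v384 && (
  let v385 := mul v368 v183; ok v385 && (
  let v386 := mul v385 v266; ok v386 && (
  let v387 := add v384 v386; ok v387 && (
  let v388 := mul v23 v382; ok v388 && (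
  let v389 := mul v259 v387; ok v389 && (
  let v390 := add v388 v389; ok v390 && (
  let v391 := mul v112 v390; ok v391 && (
  let v392 := mul v391 v376; ok v392 && (
  let v393 := sub v0 v392; ok v393 && (
  let v394 := inv v393; ok v394 && (
  let v395 := mul v390 v394; ok v395 && (
  let v396 := mul v3 v395; ok v396 && (
  let v397 := mul v112 v395; ok v397 && (
  let v398 := mul v397 v376; ok v398 && (
  let v399 := sub v0 v398; ok v399 && (
  let v400 := mul v49 v399; ok v400 && (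
  let v401 := sub v400 v396; ok v401 && (
  let v402 := inv v401; ok v402 && (
  let v403 := mul v396 v402; ok v403 && (
  let v404 := sub v52 v397; ok v404 && (
  let v405 := inv v404; ok v405 && (
  let v406 := mul v403 v237; ok v406 && (
  let v407 := scale ⟨549755813888, 0, 0, 0⟩ v406; ok v407 && (
  let v408 := sub v0 v407; ok v408 && (
  let v409 := sub v0 v406; ok v409 && (
  let v410 := inv v409; ok v410 && (
  let v411 := mul v408 v410; ok v411 && (
  let v412 := mul v1 v405; ok v412 && (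
  let v413 := mul v239 v402; ok v413 && (
  let v414 := mul v413 v411; ok v414 && (
  let v415 := add v412 v414; ok v415 && (
  let v416 := mul v7 v395; ok v416 && (
  let v417 := mul v405 v416; ok v417 && (
  let v418 := mul v237 v402; ok v418 && (
  let v419 := mul v418 v411; ok v419 && (
  let v420 := mul v419 v396; ok v420 && (
  let v421 := add v417 v420; ok v421 && (
  let v422 := scale ⟨223338299392, 0, 0, 0⟩ v421; ok v422 && (
  let v423 := add v8 v422; ok v423 && (
  let v424 := mul v421 v423; ok v424 && (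
  let v425 := add v0 v424; ok v425 && (
  let v426 := mul v415 v425; ok v426 && (
  let v427 := mul v426 v394; ok v427 && (
  let v428 := mul v427 v387; ok v428 && (
  let v429 := mul v260 v23; ok v429 && (
  let v430 := cst ⟨7696581394432, 0, 0, 0⟩; ok v430 && (
  let v431 := cst ⟨10995116277760, 0, 0, 0⟩; ok v431 && (
  let v432 := inv v431; ok v432 && (
  let v433 := mul v430 v432; ok v433 && (
  let v434 := mul v240 v24; ok v434 && (
  let v435 := mul v434 v433; ok v435 && (
  let v436 := mul v188 v106; ok v436 && (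
  let v437 := mul v22 v436; ok v437 && (
  let v438 := scale ⟨549755813888, 0, 0, 0⟩ v238; ok v438 && (
  let v439 := sub v0 v438; ok v439 && (
  let v440 := sub v0 v238; ok v440 && (
  let v441 := inv v440; ok v441 && (
  let v442 := mul v439 v441; ok v442 && (
  let v443 := mul v442 v196; ok v443 && (
  let v444 := mul v112 v122; ok v444 && (
  let v445 := scale ⟨733097230336, 0, 0, 0⟩ v444; ok v445 && (
  let v446 := sub v0 v445; ok v446 && (
  let v447 := mul v122 v446; ok v447 && (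
  let v448 := mul v89 v89; ok v448 && (
  let v449 := mul v12 v448; ok v449 && (
  let v450 := add v447 v449; ok v450 && (
  let v451 := mul v443 v239; ok v451 && (
  let v452 := add v450 v0; ok v452 && (
  let v453 := mul v451 v452; ok v453 && (
  let v454 := sub v450 v453; ok v454 && (
  let v455 := scale ⟨366548615168, 0, 0, 0⟩ v45; ok v455 && (
  let v456 := sub v0 v455; ok v456 && (
  let v457 := mul v26 v456; ok v457 && (
  let v458 := add v454 v457; ok v458 && (
  let v459 := mul v436 v458; ok v459 && (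
  let v460 := mul v437 v437; ok v460 && (
  let v461 := add v0 v460; ok v461 && (
  let v462 := inv v461; ok v462 && (
  let v463 := mul v459 v462; ok v463 && (
  let v464 := sub v0 v403; ok v464 && (
  let v465 := mul v464 v463; ok v465 && (
  let v466 := sub v0 v451; ok v466 && (
  isPos 4 v466 && (
  isPos 4 v463 && (
  isPos 4 v464 && (
  let v467 := mul v427 v254; ok v467 && (
  let v468 := mul v467 v381; ok v468 && (
  let v469 := inv v24; ok v469 && (
  let v470 := mul v468 v469; ok v470 && (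
  let v471 := mul x1 v465; ok v471 && (
  let v472 := neg v471; ok v472 && (
  let v473 := exp v472; ok v473 && (
  let v474 := mul v3 v435; ok v474 && (
  let v475 := add v0 v474; ok v475 && (
  let v476 := inv v475; ok v476 && (
  let v477 := mul v473 v476; ok v477 && (
  let v478 := mul v477 v20; ok v478 && (
  let v479 := mul v9 v395; ok v479 && (
  let v480 := mul v479 v469; ok v480 && (
  let v481 := add v0 v480; ok v481 && (
  let v482 := mul v478 v481; ok v482 && (
  let v483 := mul v482 v405; ok v483 && (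
  let v484 := mul v3 v428; ok v484 && (
  let v485 := mul v484 v261; ok v485 && (
  let v486 := mul v3 v429; ok v486 && (
  let v487 := mul v470 v486; ok v487 && (
  let v488 := add v485 v487; ok v488 && (
  let v489 := add v484 v470; ok v489 && (
  let v490 := add v0 v488; ok v490 && (
  let v491 := mul v483 v490; ok v491 && (
  let v492 := add v489 v491; ok v492 && (
  let v493 := sub v0 v492; ok v493 && (
  let v494 := scale ⟨1073741824, 0, 0, 0⟩ v3; ok v494 && (
  let v495 := sub v493 v494; ok v495 && (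
  let v496 := sub v20 v0; ok v496 && (
  let v497 := add v496 v56; ok v497 && (
  let v498 := scale ⟨2199023255552, 0, 0, 0⟩ v433; ok v498 && (
  let v499 := sub v497 v498; ok v499 && (
  let v500 := mul v240 v499; ok v500 && (
  let v501 := mul v496 v498; ok v501 && (
  let v502 := add v501 v0; ok v502 && (
  let v503 := inv v502; ok v503 && (
  let v504 := mul v500 v503; ok v504 && (
  let v505 := mul v257 v387; ok v505 && (
  let v506 := scale ⟨549755813888, 0, 0, 0⟩ v251; ok v506 && (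
  let v507 := add v17 v506; ok v507 && (
  let v508 := mul v505 v507; ok v508 && (
  let v509 := scale ⟨2199023255552, 0, 0, 0⟩ v508; ok v509 && (
  let v510 := add v382 v509; ok v510 && (
  let v511 := scale ⟨2199023255552, 0, 0, 0⟩ v510; ok v511 && (
  let v512 := mul v511 v394; ok v512 && (
  let v513 := sub v24 v479; ok v513 && (
  let v514 := inv v513; ok v514 && (
  let v515 := mul v512 v514; ok v515 && (
  let v516 := sub v504 v515; ok v516 && (
  let v517 := mul v253 v253; ok v517 && (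
  let v518 := cst ⟨14293651161088, 0, 0, 0⟩; ok v518 && (
  let v519 := mul v518 v432; ok v519 && (
  let v520 := mul v517 v519; ok v520 && (
  let v521 := mul x0 x0; ok v521 && (
  let v522 := scale ⟨27487790694400, 0, 0, 0⟩ v521; ok v522 && (
  let v523 := add v520 v522; ok v523 && (
  let v524 := mul v435 v476; ok v524 && (
  let v525 := sub v40 v3; ok v525 && (
  let v526 := sub v525 v39; ok v526 && (
  let v527 := mul v0 v1; ok v527 && (
  let v528 := mul v527 x0; ok v528 && (
  let v529 := mul v24 v387; ok v529 && (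
  let v530 := mul v529 v255; ok v530 && (
  let v531 := add v374 v530; ok v531 && (
  let v532 := add v479 v56; ok v532 && (
  let v533 := mul v0 v532; ok v533 && (
  let v534 := mul v523 v524; ok v534 && (
  let v535 := mul v394 v533; ok v535 && (
  let v536 := mul v528 v531; ok v536 && (
  let v537 := mul v535 v536; ok v537 && (
  let v538 := sub v534 v537; ok v538 && (
  let v539 := scale ⟨549755813888, 0, 0, 0⟩ v479; ok v539 && (
  let v540 := add v0 v539; ok v540 && (
  let v541 := mul v394 v540; ok v541 && (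
  let v542 := mul v3 v23; ok v542 && (
  let v543 := mul v542 v248; ok v543 && (
  let v544 := mul v24 v52; ok v544 && (
  let v545 := inv v544; ok v545 && (
  let v546 := mul v543 v545; ok v546 && (
  let v547 := mul v541 v546; ok v547 && (
  let v548 := sub v526 v547; ok v548 && (
  let v549 := mul v251 v538; ok v549 && (
  let v550 := sub v0 v251; ok v550 && (
  let v551 := mul v12 v548; ok v551 && (
  let v552 := mul v550 v551; ok v552 && (
  let v553 := mul v523 v552; ok v553 && (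
  let v554 := add v549 v553; ok v554 && (
  isPos 4 v262 && (
  isPos 4 v265 && (
  let v555 := scale ⟨2199023255552, 0, 0, 0⟩ v391; ok v555 && (
  let v556 := sub v52 v555; ok v556 && (
  isPos 4 v556 && (
  isPos 4 v401 && (
  let v557 := sub v8 v238; ok v557 && (
  isPos 4 v557 && (
  let v558 := scale ⟨687194767360, 0, 0, 0⟩ v0; ok v558 && (
  let v559 := sub v558 v351; ok v559 && (
  isPos 4 v559 && (
  let v560 := scale ⟨377957122048, 0, 0, 0⟩ v0; ok v560 && (
  let v561 := sub v560 v347; ok v561 && (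
  isPos 4 v561 && (
  isPos 4 v513 && (
  isPos 4 v409 && (
  let v562 := sub v558 v421; ok v562 && (
  isPos 4 v562 && (
  isPos 4 v516 && (
  isPos 4 v495 && (
  isPos 4 v554 && (
  isPos 4 v548 && (
  true))))))))))))))))))))))))))))))))))))))))))))))))))))))))))))))))))))))))))))))))))))))))))))))))))))))))))))))))))))))))))))))))))))))))))))))))))))))))))))))))))))))))))))))))))))))))))))))))))))))))))))))))))))))))))))))))))))))))))))))))))))))))))))))))))))))))))))))))))))))))))))))))))))))))))))))))))))))))))))))))))))))))))))))))))))))))))))))))))))))))))))))))))))))))))))))))))))))))))))))))))))))))))))))))))))))))))))))))))))))))))))))))))))))))))))))))))))))))))))))))))))))))))))))))))))))))))))))))))))))))))))))))))))))))))))))))))))))))))))))))))))))))))))))))))))))))))))))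
  | _ => false

set_option maxRecDepth 1000000 in
theorem chk2_eq (O : Ops) (m : List O.α)
    (h : chk2 O.cst O.add O.sub O.mul O.scale O.neg O.inv O.exp O.log O.ok O.isPos O.isLt m = true) :
    runG O 4 prog2 m = true := by
  match m, h with
  | [x0, x1, x2, x3], h => exact h

def chkB2 : List opsE.α → Bool :=
  chk2 opsE.cst opsE.add opsE.sub opsE.mul opsE.scale opsE.neg opsE.inv opsE.exp opsE.log opsE.ok opsE.isPos opsE.isLt

theorem chkB2_eq (m : List opsE.α) (h : chkB2 m = true) : runG opsE 4 prog2 m = true :=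
  chk2_eq opsE m h

def prog3 : List Op := [
  .const ⟨1099511627776, 0, 0, 0⟩,
  .mul 2 1,
  .mul 4 4,
  .mul 4 0,
  .mul 5 6,
  .mul 0 5,
  .mul 0 0,
  .mul 3 8,
  .const ⟨549755813888, 0, 0, 0⟩,
  .mul 5 7,
  .mul 0 13,
  .scale ⟨549755813888, 0, 0, 0⟩ 0,
  .mul 10 10,
  .mul 1 1,
  .sub 13 0,
  .inv 0,
  .mul 4 0,
  .scale ⟨2199023255552, 0, 0, 0⟩ 0,
  .scale ⟨2199023255552, 0, 0, 0⟩ 2,
  .sub 0 18,
  .add 0 2,
  .mul 24 5,
  .mul 20 0,
  .sub 22 0,
  .add 23 1,
  .mul 21 12,
  .mul 4 4,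
  .scale ⟨10774999203840, 0, 0, 0⟩ 15,
  .scale ⟨45768245248, 0, 0, 0⟩ 0,
  .const ⟨183207198720, 0, 0, 0⟩,
  .add 1 0,
  .mul 3 0,
  .add 23 0,
  .mul 5 0,
  .add 33 0,
  .mul 7 0,
  .scale ⟨549755813888, 0, 0, 0⟩ 0,
  .add 36 0,
  .mul 3 0,
  .mul 21 16,
  .scale ⟨2199023255552, 0, 0, 0⟩ 20,
  .add 1 0,
  .add 0 38,
  .mul 17 0,
  .add 0 43,
  .mul 27 27,
  .scale ⟨2199023255552, 0, 0, 0⟩ 0,
  .add 0 46,
  .mul 28 5,
  .sub 0 48,
  .log 5,
  .scale ⟨549755813888, 0, 0, 0⟩ 0,
  .exp 0,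
  .const ⟨3298534883328, 0, 0, 0⟩,
  .inv 0,
  .mul 54 0,
  .const ⟨2199023255552, 0, 0, 0⟩,
  .add 13 0,
  .inv 0,
  .mul 15 0,
  .mul 0 0,
  .sub 60 1,
  .mul 1 6,
  .add 62 0,
  .mul 2 0,
  .mul 4 4,
  .scale ⟨219915747328, 0, 0, 0⟩ 0,
  .mul 24 2,
  .scale ⟨549755813888, 0, 0, 0⟩ 0,
  .mul 26 2,
  .scale ⟨549755813888, 0, 0, 0⟩ 0,
  .add 2 0,
  .mul 52 22,
  .scale ⟨4398046511104, 0, 0, 0⟩ 0,
  .mul 54 48,
  .mul 0 25,
  .scale ⟨4398046511104, 0, 0, 0⟩ 0,
  .add 0 20,
  .inv 0,
  .mul 2 0,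
  .mul 0 0,
  .sub 80 1,
  .mul 1 26,
  .add 82 0,
  .mul 2 0,
  .mul 4 4,
  .scale ⟨219915747328, 0, 0, 0⟩ 0,
  .mul 13 2,
  .scale ⟨549755813888, 0, 0, 0⟩ 0,
  .sub 0 17,
  .mul 16 3,
  .scale ⟨549755813888, 0, 0, 0⟩ 0,
  .add 0 21,
  .add 3 0,
  .mul 95 25,
  .neg 0,
  .exp 0,
  .mul 98 26,
  .mul 1 0,
  .mul 100 9,
  .neg 0,
  .exp 0,
  .mul 103 9,
  .mul 1 0,
  .mul 81 86,
  .add 85 0,
  .inv 0,
  .mul 82 0,
  .mul 84 104,
  .mul 0 1,
  .sub 109 97,
  .mul 84 0,
  .mul 102 102,
  .sub 112 86,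
  .mul 3 0,
  .mul 89 65,
  .inv 71,
  .mul 1 0,
  .add 98 0,
  .mul 74 0,
  .mul 0 0,
  .inv 0,
  .mul 7 0,
  .add 103 97,
  .mul 124 0,
  .inv 0,
  .mul 125 0,
  .mul 0 0,
  .mul 0 13,
  .const ⟨10849087389696, 0, 0, 0⟩,
  .sub 0 1,
  .pos 0,
  .const ⟨13, 0, 0, 0⟩,
  .const ⟨2295, 0, 0, 0⟩,
  .mul 4 1,
  .sub 1 0,
  .const ⟨302996, 0, 0, 0⟩,
  .mul 7 1,
  .sub 1 0,
  .const ⟨27269633, 0, 0, 0⟩,
  .mul 10 1,
  .sub 1 0,
  .const ⟨1527099484, 0, 0, 0⟩,
  .mul 13 1,
  .sub 1 0,
  .const ⟨45812984490, 0, 0, 0⟩,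
  .mul 16 1,
  .sub 1 0,
  .mul 18 0,
  .sub 139 0,
  .mul 20 0,
  .sub 149 0,
  .add 54 150,
  .mul 55 55,
  .add 0 152,
  .mul 57 3,
  .scale ⟨2199023255552, 0, 0, 0⟩ 0,
  .add 2 0,
  .scale ⟨4398046511104, 0, 0, 0⟩ 58,
  .sub 1 0,
  .inv 7,
  .mul 1 0,
  .add 0 9,
  .mul 65 52,
  .scale ⟨549755813888, 0, 0, 0⟩ 0,
  .mul 0 2,
  .sub 6 0,
  .pos 7,
  .pos 0,
  .sub 165 69,
  .mul 0 15,
  .scale ⟨2199023255552, 0, 0, 0⟩ 69,
  .add 1 0,
  .inv 4,
  .mul 1 0,
  .scale ⟨549755813888, 0, 0, 0⟩ 0,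
  .add 0 164,
  .inv 0,
  .mul 2 0,
  .mul 66 0,
  .scale ⟨549755813888, 0, 0, 0⟩ 0,
  .sub 177 0,
  .sub 178 2,
  .inv 0,
  .mul 2 0,
  .add 5 181,
  .mul 86 0,
  .mul 76 2,
  .mul 0 9,
  .mul 9 4,
  .pos 7,
  .mul 163 162,
  .add 168 184,
  .mul 166 169,
  .mul 0 172,
  .scale ⟨2199023255552, 0, 0, 0⟩ 0,
  .add 144 0,
  .mul 4 0,
  .inv 0,
  .mul 7 0,
  .mul 192 0,
  .pos 107,
  .mul 68 80,
  .sub 68 0,
  .pos 0,
  .mul 1 67,
  .sub 67 0,
  .mul 3 0,
  .sub 66 0,
  .mul 5 0,
  .sub 65 0,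
  .mul 7 0,
  .sub 64 0,
  .mul 9 0,
  .sub 63 0,
  .mul 11 0,
  .sub 201 0,
  .mul 13 0,
  .sub 211 0,
  .add 111 212,
  .mul 112 112,
  .add 0 214,
  .mul 114 3,
  .scale ⟨2199023255552, 0, 0, 0⟩ 0,
  .add 2 0,
  .scale ⟨4398046511104, 0, 0, 0⟩ 115,
  .sub 1 0,
  .inv 7,
  .mul 1 0,
  .add 0 9,
  .mul 122 27,
  .scale ⟨549755813888, 0, 0, 0⟩ 0,
  .mul 0 2,
  .sub 6 0,
  .pos 7,
  .pos 0,
  .sub 227 126,
  .mul 0 15,
  .scale ⟨2199023255552, 0, 0, 0⟩ 126,
  .add 1 0,
  .inv 4,
  .mul 1 0,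
  .scale ⟨549755813888, 0, 0, 0⟩ 0,
  .add 0 226,
  .inv 0,
  .mul 2 0,
  .mul 41 0,
  .mul 1 239,
  .add 228 239,
  .inv 0,
  .mul 230 0,
  .scale ⟨2199023255552, 0, 0, 0⟩ 0,
  .sub 243 0,
  .sub 244 233,
  .mul 249 4,
  .mul 0 2,
  .add 223 0,
  .scale ⟨224412041216, 0, 0, 0⟩ 233,
  .inv 211,
  .mul 1 0,
  .scale ⟨4398046511104, 0, 0, 0⟩ 252,
  .mul 252 231,
  .add 1 0,
  .inv 0,
  .mul 255 0,
  .mul 257 1,
  .mul 0 233,
  .mul 0 7,
  .mul 3 235,
  .mul 0 9,
  .sub 261 0,
  .inv 0,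
  .mul 80 2,
  .sub 264 0,
  .inv 0,
  .scale ⟨2199023255552, 0, 0, 0⟩ 260,
  .add 0 267,
  .add 262 268,
  .scale ⟨3573412790272, 0, 0, 0⟩ 247,
  .const ⟨339302416384, 0, 0, 0⟩,
  .add 1 0,
  .scale ⟨549755813888, 0, 0, 0⟩ 0,
  .mul 262 252,
  .sub 274 163,
  .mul 264 253,
  .scale ⟨2199023255552, 0, 0, 0⟩ 0,
  .sub 2 0,
  .mul 4 4,
  .add 1 0,
  .add 0 280,
  .scale ⟨549755813888, 0, 0, 0⟩ 0,
  .scale ⟨549755813888, 0, 0, 0⟩ 257,
  .sub 268 0,
  .mul 172 9,
  .mul 0 271,
  .scale ⟨137438953472, 0, 0, 0⟩ 0,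
  .add 3 0,
  .mul 6 0,
  .const ⟨1, 0, 0, 0⟩,
  .const ⟨12, 0, 0, 0⟩,
  .mul 163 1,
  .sub 1 0,
  .const ⟨2296, 0, 0, 0⟩,
  .mul 166 1,
  .sub 1 0,
  .const ⟨302995, 0, 0, 0⟩,
  .mul 169 1,
  .sub 1 0,
  .const ⟨27269634, 0, 0, 0⟩,
  .mul 172 1,
  .sub 1 0,
  .const ⟨1527099483, 0, 0, 0⟩,
  .mul 175 1,
  .sub 1 0,
  .const ⟨45812984491, 0, 0, 0⟩,
  .mul 178 1,
  .sub 1 0,
  .mul 180 0,
  .sub 301 0,
  .mul 182 0,
  .sub 311 0,
  .mul 184 306,
  .mul 0 0,
  .scale ⟨369367187456, 0, 0, 0⟩ 0,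
  .add 3 0,
  .mul 220 0,
  .scale ⟨2199023255552, 0, 0, 0⟩ 0,
  .add 165 0,
  .add 0 151,
  .const ⟨8589934592, 0, 0, 0⟩,
  .add 1 0,
  .log 0,
  .scale ⟨549755813888, 0, 0, 0⟩ 0,
  .exp 0,
  .mul 229 149,
  .add 1 0,
  .mul 0 64,
  .mul 145 62,
  .add 1 0,
  .mul 69 0,
  .add 145 0,
  .mul 0 326,
  .mul 6 72,
  .mul 0 71,
  .add 149 0,
  .mul 0 330,
  .scale ⟨223338299392, 0, 0, 0⟩ 0,
  .add 330 0,
  .mul 2 0,
  .add 340 0,
  .scale ⟨893353197568, 0, 0, 0⟩ 8,
  .add 342 0,
  .mul 10 0,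
  .add 344 0,
  .mul 102 99,
  .mul 0 78,
  .mul 0 2,
  .mul 59 7,
  .add 297 341,
  .mul 2 0,
  .add 2 0,
  .add 300 352,
  .mul 5 0,
  .mul 85 1,
  .mul 0 109,
  .mul 0 111,
  .mul 5 172,
  .mul 1 85,
  .add 1 0,
  .mul 353 112,
  .inv 309,
  .mul 1 0,
  .scale ⟨549755813888, 0, 0, 0⟩ 0,
  .mul 341 0,
  .mul 362 5,
  .add 1 0,
  .mul 368 0,
  .mul 16 41,
  .mul 0 106,
  .mul 16 187,
  .mul 0 105,
  .add 2 0,
  .mul 350 5,
  .mul 115 1,
  .add 1 0,
  .mul 264 0,
  .mul 0 15,
  .sub 378 0,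
  .inv 0,
  .mul 4 0,
  .mul 378 0,
  .mul 270 1,
  .mul 0 21,
  .sub 384 0,
  .mul 336 0,
  .sub 0 4,
  .inv 0,
  .mul 6 0,
  .sub 337 6,
  .inv 0,
  .mul 2 154,
  .scale ⟨549755813888, 0, 0, 0⟩ 0,
  .sub 393 0,
  .sub 394 2,
  .inv 0,
  .mul 2 0,
  .mul 396 6,
  .mul 159 10,
  .mul 0 2,
  .add 2 0,
  .mul 394 20,
  .mul 11 0,
  .mul 166 15,
  .mul 0 7,
  .mul 0 23,
  .add 3 0,
  .scale ⟨223338299392, 0, 0, 0⟩ 0,
  .add 400 0,
  .mul 2 0,
  .add 410 0,
  .mul 10 0,
  .mul 0 32,
  .mul 0 40,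
  .mul 154 391,
  .const ⟨7696581394432, 0, 0, 0⟩,
  .const ⟨10995116277760, 0, 0, 0⟩,
  .inv 0,
  .mul 2 0,
  .mul 179 395,
  .mul 0 1,
  .mul 233 315,
  .mul 400 0,
  .scale ⟨549755813888, 0, 0, 0⟩ 185,
  .sub 424 0,
  .sub 425 187,
  .inv 0,
  .mul 2 0,
  .mul 0 232,
  .mul 317 307,
  .scale ⟨733097230336, 0, 0, 0⟩ 0,
  .sub 431 0,
  .mul 310 0,
  .mul 344 344,
  .mul 422 0,
  .add 2 0,
  .mul 7 197,
  .add 1 437,
  .mul 1 0,
  .sub 3 0,
  .scale ⟨366548615168, 0, 0, 0⟩ 395,
  .sub 441 0,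
  .mul 416 0,
  .add 3 0,
  .mul 22 0,
  .mul 22 22,
  .add 446 0,
  .inv 0,
  .mul 3 0,
  .sub 449 60,
  .mul 0 1,
  .sub 451 14,
  .pos 0,
  .pos 3,
  .pos 2,
  .mul 39 198,
  .mul 0 86,
  .inv 430,
  .mul 1 0,
  .mul 458 5,
  .neg 0,
  .exp 0,
  .mul 456 38,
  .add 460 0,
  .inv 0,
  .mul 3 0,
  .mul 0 443,
  .mul 455 83,
  .mul 0 10,
  .add 466 0,
  .mul 3 0,
  .mul 0 77,
  .mul 466 55,
  .mul 0 209,
  .mul 468 56,
  .mul 16 0,
  .add 2 0,
  .add 4 18,
  .add 475 1,
  .mul 7 0,
  .add 2 0,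
  .sub 478 0,
  .scale ⟨1073741824, 0, 0, 0⟩ 476,
  .sub 1 0,
  .sub 461 481,
  .add 0 426,
  .scale ⟨2199023255552, 0, 0, 0⟩ 64,
  .sub 1 0,
  .mul 245 0,
  .mul 4 2,
  .add 0 487,
  .inv 0,
  .mul 3 0,
  .mul 233 117,
  .scale ⟨549755813888, 0, 0, 0⟩ 240,
  .add 475 0,
  .mul 2 0,
  .scale ⟨2199023255552, 0, 0, 0⟩ 0,
  .add 127 0,
  .scale ⟨2199023255552, 0, 0, 0⟩ 0,
  .mul 0 117,
  .sub 474 33,
  .inv 0,
  .mul 2 0,
  .sub 11 0,
  .mul 249 249,
  .const ⟨14293651161088, 0, 0, 0⟩,
  .mul 0 86,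
  .mul 2 0,
  .mul 507 507,
  .scale ⟨27487790694400, 0, 0, 0⟩ 0,
  .add 2 0,
  .mul 88 47,
  .sub 470 507,
  .sub 0 472,
  .mul 512 511,
  .mul 0 514,
  .mul 490 141,
  .mul 0 260,
  .add 156 0,
  .add 52 461,
  .mul 518 0,
  .mul 10 9,
  .mul 140 1,
  .mul 7 4,
  .mul 1 0,
  .sub 3 0,
  .scale ⟨549755813888, 0, 0, 0⟩ 59,
  .add 525 0,
  .mul 146 0,
  .mul 524 504,
  .mul 0 280,
  .mul 505 477,
  .inv 0,
  .mul 2 0,
  .mul 5 0,
  .sub 21 0,
  .mul 283 10,
  .sub 535 284,
  .mul 524 2,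
  .mul 1 0,
  .mul 29 0,
  .add 4 0,
  .pos 278,
  .pos 275,
  .scale ⟨2199023255552, 0, 0, 0⟩ 163,
  .sub 489 0,
  .pos 0,
  .pos 155,
  .sub 534 304,
  .pos 0,
  .scale ⟨687194767360, 0, 0, 0⟩ 543,
  .sub 0 207,
  .pos 0,
  .scale ⟨377957122048, 0, 0, 0⟩ 545,
  .sub 0 213,
  .pos 0,
  .pos 48,
  .pos 152,
  .sub 3 140,
  .pos 0,
  .pos 46,
  .pos 67,
  .pos 8,
  .pos 14]

def chk3 {α : Type} (cst : Z → α) (add sub mul : α → α → α) (scale : Z → α → α)
    (neg inv exp log : α → α) (ok : α → Bool) (isPos : Nat → α → Bool) (isLt : α → Nat → Bool) :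
    List α → Bool
  | [x0, x1, x2, x3] =>
  let v0 := cst ⟨1099511627776, 0, 0, 0⟩; ok v0 && (
  let v1 := mul x1 x0; ok v1 && (
  let v2 := mul x2 x2; ok v2 && (
  let v3 := mul x1 v2; ok v3 && (
  let v4 := mul x1 x2; ok v4 && (
  let v5 := mul v4 x0; ok v5 && (
  let v6 := mul v5 v5; ok v6 && (
  let v7 := mul v3 x1; ok v7 && (
  let v8 := cst ⟨549755813888, 0, 0, 0⟩; ok v8 && (
  let v9 := mul v3 v1; ok v9 && (
  let v10 := mul v9 x3; ok v10 && (
  let v11 := scale ⟨549755813888, 0, 0, 0⟩ v10; ok v11 && (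
  let v12 := mul v1 v1; ok v12 && (
  let v13 := mul v11 v11; ok v13 && (
  let v14 := sub v0 v13; ok v14 && (
  let v15 := inv v14; ok v15 && (
  let v16 := mul v11 v15; ok v16 && (
  let v17 := scale ⟨2199023255552, 0, 0, 0⟩ v16; ok v17 && (
  let v18 := scale ⟨2199023255552, 0, 0, 0⟩ v15; ok v18 && (
  let v19 := sub v18 v0; ok v19 && (
  let v20 := add v19 v17; ok v20 && (
  let v21 := mul x3 v15; ok v21 && (
  let v22 := mul v1 v21; ok v22 && (
  let v23 := sub v0 v22; ok v23 && (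
  let v24 := add v0 v22; ok v24 && (
  let v25 := mul v3 v12; ok v25 && (
  let v26 := mul v21 v21; ok v26 && (
  let v27 := scale ⟨10774999203840, 0, 0, 0⟩ v11; ok v27 && (
  let v28 := scale ⟨45768245248, 0, 0, 0⟩ v27; ok v28 && (
  let v29 := cst ⟨183207198720, 0, 0, 0⟩; ok v29 && (
  let v30 := add v28 v29; ok v30 && (
  let v31 := mul v27 v30; ok v31 && (
  let v32 := add v8 v31; ok v32 && (
  let v33 := mul v27 v32; ok v33 && (
  let v34 := add v0 v33; ok v34 && (
  let v35 := mul v27 v34; ok v35 && (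
  let v36 := scale ⟨549755813888, 0, 0, 0⟩ v35; ok v36 && (
  let v37 := add v0 v36; ok v37 && (
  let v38 := mul v34 v37; ok v38 && (
  let v39 := mul v17 v22; ok v39 && (
  let v40 := scale ⟨2199023255552, 0, 0, 0⟩ v19; ok v40 && (
  let v41 := add v39 v40; ok v41 && (
  let v42 := add v41 v3; ok v42 && (
  let v43 := mul v25 v42; ok v43 && (
  let v44 := add v43 v0; ok v44 && (
  let v45 := mul v17 v17; ok v45 && (
  let v46 := scale ⟨2199023255552, 0, 0, 0⟩ v45; ok v46 && (
  let v47 := add v46 v0; ok v47 && (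
  let v48 := mul v19 v42; ok v48 && (
  let v49 := sub v48 v0; ok v49 && (
  let v50 := log v44; ok v50 && (
  let v51 := scale ⟨549755813888, 0, 0, 0⟩ v50; ok v51 && (
  let v52 := exp v51; ok v52 && (
  let v53 := cst ⟨3298534883328, 0, 0, 0⟩; ok v53 && (
  let v54 := inv v53; ok v54 && (
  let v55 := mul v0 v54; ok v55 && (
  let v56 := cst ⟨2199023255552, 0, 0, 0⟩; ok v56 && (
  let v57 := add v43 v56; ok v57 && (
  let v58 := inv v57; ok v58 && (
  let v59 := mul v43 v58; ok v59 && (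
  let v60 := mul v59 v59; ok v60 && (
  let v61 := sub v0 v59; ok v61 && (
  let v62 := mul v60 v55; ok v62 && (
  let v63 := add v0 v62; ok v63 && (
  let v64 := mul v61 v63; ok v64 && (
  let v65 := mul v60 v60; ok v65 && (
  let v66 := scale ⟨219915747328, 0, 0, 0⟩ v65; ok v66 && (
  let v67 := mul v42 v64; ok v67 && (
  let v68 := scale ⟨549755813888, 0, 0, 0⟩ v67; ok v68 && (
  let v69 := mul v42 v66; ok v69 && (
  let v70 := scale ⟨549755813888, 0, 0, 0⟩ v69; ok v70 && (
  let v71 := add v68 v70; ok v71 && (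
  let v72 := mul v19 v49; ok v72 && (
  let v73 := scale ⟨4398046511104, 0, 0, 0⟩ v72; ok v73 && (
  let v74 := mul v19 v25; ok v74 && (
  let v75 := mul v74 v49; ok v75 && (
  let v76 := scale ⟨4398046511104, 0, 0, 0⟩ v75; ok v76 && (
  let v77 := add v76 v56; ok v77 && (
  let v78 := inv v77; ok v78 && (
  let v79 := mul v76 v78; ok v79 && (
  let v80 := mul v79 v79; ok v80 && (
  let v81 := sub v0 v79; ok v81 && (
  let v82 := mul v80 v55; ok v82 && (
  let v83 := add v0 v82; ok v83 && (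
  let v84 := mul v81 v83; ok v84 && (
  let v85 := mul v80 v80; ok v85 && (
  let v86 := scale ⟨219915747328, 0, 0, 0⟩ v85; ok v86 && (
  let v87 := mul v73 v84; ok v87 && (
  let v88 := scale ⟨549755813888, 0, 0, 0⟩ v87; ok v88 && (
  let v89 := sub v88 v71; ok v89 && (
  let v90 := mul v73 v86; ok v90 && (
  let v91 := scale ⟨549755813888, 0, 0, 0⟩ v90; ok v91 && (
  let v92 := add v91 v70; ok v92 && (
  let v93 := add v89 v92; ok v93 && (
  let v94 := mul x1 v68; ok v94 && (
  let v95 := neg v94; ok v95 && (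
  let v96 := exp v95; ok v96 && (
  let v97 := mul x1 v70; ok v97 && (
  let v98 := mul v96 v97; ok v98 && (
  let v99 := mul x1 v89; ok v99 && (
  let v100 := neg v99; ok v100 && (
  let v101 := exp v100; ok v101 && (
  let v102 := mul x1 v92; ok v102 && (
  let v103 := mul v101 v102; ok v103 && (
  let v104 := mul v22 v17; ok v104 && (
  let v105 := add v19 v104; ok v105 && (
  let v106 := inv v105; ok v106 && (
  let v107 := mul v24 v106; ok v107 && (
  let v108 := mul v23 v3; ok v108 && (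
  let v109 := mul v108 v107; ok v109 && (
  let v110 := sub v0 v12; ok v110 && (
  let v111 := mul v26 v110; ok v111 && (
  let v112 := mul v9 v9; ok v112 && (
  let v113 := sub v0 v26; ok v113 && (
  let v114 := mul v110 v113; ok v114 && (
  let v115 := mul v25 v49; ok v115 && (
  let v116 := inv v44; ok v116 && (
  let v117 := mul v115 v116; ok v117 && (
  let v118 := add v19 v117; ok v118 && (
  let v119 := mul v44 v118; ok v119 && (
  let v120 := mul v119 v119; ok v120 && (
  let v121 := inv v120; ok v121 && (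
  let v122 := mul v114 v121; ok v122 && (
  let v123 := add v19 v25; ok v123 && (
  let v124 := mul x0 v123; ok v124 && (
  let v125 := inv v124; ok v125 && (
  let v126 := mul v0 v125; ok v126 && (
  let v127 := mul v126 v126; ok v127 && (
  let v128 := mul v127 v114; ok v128 && (
  let v129 := cst ⟨10849087389696, 0, 0, 0⟩; ok v129 && (
  let v130 := sub v129 v128; ok v130 && (
  isPos 4 v130 && (
  let v131 := cst ⟨13, 0, 0, 0⟩; ok v131 && (
  let v132 := cst ⟨2295, 0, 0, 0⟩; ok v132 && (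
  let v133 := mul v128 v131; ok v133 && (
  let v134 := sub v132 v133; ok v134 && (
  let v135 := cst ⟨302996, 0, 0, 0⟩; ok v135 && (
  let v136 := mul v128 v134; ok v136 && (
  let v137 := sub v135 v136; ok v137 && (
  let v138 := cst ⟨27269633, 0, 0, 0⟩; ok v138 && (
  let v139 := mul v128 v137; ok v139 && (
  let v140 := sub v138 v139; ok v140 && (
  let v141 := cst ⟨1527099484, 0, 0, 0⟩; ok v141 && (
  let v142 := mul v128 v140; ok v142 && (
  let v143 := sub v141 v142; ok v143 && (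
  let v144 := cst ⟨45812984490, 0, 0, 0⟩; ok v144 && (
  let v145 := mul v128 v143; ok v145 && (
  let v146 := sub v144 v145; ok v146 && (
  let v147 := mul v128 v146; ok v147 && (
  let v148 := sub v8 v147; ok v148 && (
  let v149 := mul v128 v148; ok v149 && (
  let v150 := sub v0 v149; ok v150 && (
  let v151 := add v96 v0; ok v151 && (
  let v152 := mul v96 v96; ok v152 && (
  let v153 := add v152 v0; ok v153 && (
  let v154 := mul v96 v150; ok v154 && (
  let v155 := scale ⟨2199023255552, 0, 0, 0⟩ v154; ok v155 && (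
  let v156 := add v153 v155; ok v156 && (
  let v157 := scale ⟨4398046511104, 0, 0, 0⟩ v98; ok v157 && (
  let v158 := sub v156 v157; ok v158 && (
  let v159 := inv v151; ok v159 && (
  let v160 := mul v158 v159; ok v160 && (
  let v161 := add v160 v151; ok v161 && (
  let v162 := mul v96 v109; ok v162 && (
  let v163 := scale ⟨549755813888, 0, 0, 0⟩ v162; ok v163 && (
  let v164 := mul v163 v161; ok v164 && (
  let v165 := sub v158 v164; ok v165 && (
  isPos 4 v158 && (
  isPos 4 v165 && (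
  let v166 := sub v0 v96; ok v166 && (
  let v167 := mul v166 v151; ok v167 && (
  let v168 := scale ⟨2199023255552, 0, 0, 0⟩ v98; ok v168 && (
  let v169 := add v167 v168; ok v169 && (
  let v170 := inv v165; ok v170 && (
  let v171 := mul v169 v170; ok v171 && (
  let v172 := scale ⟨549755813888, 0, 0, 0⟩ v171; ok v172 && (
  let v173 := add v172 v8; ok v173 && (
  let v174 := inv v173; ok v174 && (
  let v175 := mul v172 v174; ok v175 && (
  let v176 := mul v109 v175; ok v176 && (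
  let v177 := scale ⟨549755813888, 0, 0, 0⟩ v176; ok v177 && (
  let v178 := sub v0 v177; ok v178 && (
  let v179 := sub v0 v176; ok v179 && (
  let v180 := inv v179; ok v180 && (
  let v181 := mul v178 v180; ok v181 && (
  let v182 := add v176 v0; ok v182 && (
  let v183 := mul v96 v182; ok v183 && (
  let v184 := mul v107 v181; ok v184 && (
  let v185 := mul v184 v175; ok v185 && (
  let v186 := mul v176 v181; ok v186 && (
  isPos 4 v179 && (
  let v187 := mul v23 v24; ok v187 && (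
  let v188 := add v19 v3; ok v188 && (
  let v189 := mul v22 v19; ok v189 && (
  let v190 := mul v189 v17; ok v190 && (
  let v191 := scale ⟨2199023255552, 0, 0, 0⟩ v190; ok v191 && (
  let v192 := add v47 v191; ok v192 && (
  let v193 := mul v188 v192; ok v193 && (
  let v194 := inv v193; ok v194 && (
  let v195 := mul v187 v194; ok v195 && (
  let v196 := mul v3 v195; ok v196 && (
  isPos 4 v89 && (
  let v197 := mul v128 v116; ok v197 && (
  let v198 := sub v129 v197; ok v198 && (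
  isPos 4 v198 && (
  let v199 := mul v197 v131; ok v199 && (
  let v200 := sub v132 v199; ok v200 && (
  let v201 := mul v197 v200; ok v201 && (
  let v202 := sub v135 v201; ok v202 && (
  let v203 := mul v197 v202; ok v203 && (
  let v204 := sub v138 v203; ok v204 && (
  let v205 := mul v197 v204; ok v205 && (
  let v206 := sub v141 v205; ok v206 && (
  let v207 := mul v197 v206; ok v207 && (
  let v208 := sub v144 v207; ok v208 && (
  let v209 := mul v197 v208; ok v209 && (
  let v210 := sub v8 v209; ok v210 && (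
  let v211 := mul v197 v210; ok v211 && (
  let v212 := sub v0 v211; ok v212 && (
  let v213 := add v101 v0; ok v213 && (
  let v214 := mul v101 v101; ok v214 && (
  let v215 := add v214 v0; ok v215 && (
  let v216 := mul v101 v212; ok v216 && (
  let v217 := scale ⟨2199023255552, 0, 0, 0⟩ v216; ok v217 && (
  let v218 := add v215 v217; ok v218 && (
  let v219 := scale ⟨4398046511104, 0, 0, 0⟩ v103; ok v219 && (
  let v220 := sub v218 v219; ok v220 && (
  let v221 := inv v213; ok v221 && (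
  let v222 := mul v220 v221; ok v222 && (
  let v223 := add v222 v213; ok v223 && (
  let v224 := mul v101 v196; ok v224 && (
  let v225 := scale ⟨549755813888, 0, 0, 0⟩ v224; ok v225 && (
  let v226 := mul v225 v223; ok v226 && (
  let v227 := sub v220 v226; ok v227 && (
  isPos 4 v220 && (
  isPos 4 v227 && (
  let v228 := sub v0 v101; ok v228 && (
  let v229 := mul v228 v213; ok v229 && (
  let v230 := scale ⟨2199023255552, 0, 0, 0⟩ v103; ok v230 && (
  let v231 := add v229 v230; ok v231 && (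
  let v232 := inv v227; ok v232 && (
  let v233 := mul v231 v232; ok v233 && (
  let v234 := scale ⟨549755813888, 0, 0, 0⟩ v233; ok v234 && (
  let v235 := add v234 v8; ok v235 && (
  let v236 := inv v235; ok v236 && (
  let v237 := mul v234 v236; ok v237 && (
  let v238 := mul v196 v237; ok v238 && (
  let v239 := mul v237 x0; ok v239 && (
  let v240 := add v11 v0; ok v240 && (
  let v241 := inv v240; ok v241 && (
  let v242 := mul v11 v241; ok v242 && (
  let v243 := scale ⟨2199023255552, 0, 0, 0⟩ v242; ok v243 && (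
  let v244 := sub v0 v243; ok v244 && (
  let v245 := sub v0 v11; ok v245 && (
  let v246 := mul x3 v241; ok v246 && (
  let v247 := mul v246 v244; ok v247 && (
  let v248 := add v24 v247; ok v248 && (
  let v249 := scale ⟨224412041216, 0, 0, 0⟩ v15; ok v249 && (
  let v250 := inv v38; ok v250 && (
  let v251 := mul v249 v250; ok v251 && (
  let v252 := scale ⟨4398046511104, 0, 0, 0⟩ x0; ok v252 && (
  let v253 := mul v0 v21; ok v253 && (
  let v254 := add v252 v253; ok v254 && (
  let v255 := inv v254; ok v255 && (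
  let v256 := mul v0 v255; ok v256 && (
  let v257 := mul x0 v255; ok v257 && (
  let v258 := mul v257 v24; ok v258 && (
  let v259 := mul v258 v251; ok v259 && (
  let v260 := mul v256 v24; ok v260 && (
  let v261 := mul v260 v251; ok v261 && (
  let v262 := sub v0 v261; ok v262 && (
  let v263 := inv v262; ok v263 && (
  let v264 := mul v183 v261; ok v264 && (
  let v265 := sub v0 v264; ok v265 && (
  let v266 := inv v265; ok v266 && (
  let v267 := scale ⟨2199023255552, 0, 0, 0⟩ v6; ok v267 && (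
  let v268 := add v267 v0; ok v268 && (
  let v269 := add v6 v0; ok v269 && (
  let v270 := scale ⟨3573412790272, 0, 0, 0⟩ v22; ok v270 && (
  let v271 := cst ⟨339302416384, 0, 0, 0⟩; ok v271 && (
  let v272 := add v270 v271; ok v272 && (
  let v273 := scale ⟨549755813888, 0, 0, 0⟩ v272; ok v273 && (
  let v274 := mul v11 v21; ok v274 && (
  let v275 := sub v0 v111; ok v275 && (
  let v276 := mul v11 v22; ok v276 && (
  let v277 := scale ⟨2199023255552, 0, 0, 0⟩ v276; ok v277 && (
  let v278 := sub v275 v277; ok v278 && (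
  let v279 := mul v274 v274; ok v279 && (
  let v280 := add v278 v279; ok v280 && (
  let v281 := add v280 v0; ok v281 && (
  let v282 := scale ⟨549755813888, 0, 0, 0⟩ v281; ok v282 && (
  let v283 := scale ⟨549755813888, 0, 0, 0⟩ v25; ok v283 && (
  let v284 := sub v15 v283; ok v284 && (
  let v285 := mul v112 v275; ok v285 && (
  let v286 := mul v285 v14; ok v286 && (
  let v287 := scale ⟨137438953472, 0, 0, 0⟩ v286; ok v287 && (
  let v288 := add v284 v287; ok v288 && (
  let v289 := mul v282 v288; ok v289 && (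
  let v290 := cst ⟨1, 0, 0, 0⟩; ok v290 && (
  let v291 := cst ⟨12, 0, 0, 0⟩; ok v291 && (
  let v292 := mul v128 v290; ok v292 && (
  let v293 := sub v291 v292; ok v293 && (
  let v294 := cst ⟨2296, 0, 0, 0⟩; ok v294 && (
  let v295 := mul v128 v293; ok v295 && (
  let v296 := sub v294 v295; ok v296 && (
  let v297 := cst ⟨302995, 0, 0, 0⟩; ok v297 && (
  let v298 := mul v128 v296; ok v298 && (
  let v299 := sub v297 v298; ok v299 && (
  let v300 := cst ⟨27269634, 0, 0, 0⟩; ok v300 && (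
  let v301 := mul v128 v299; ok v301 && (
  let v302 := sub v300 v301; ok v302 && (
  let v303 := cst ⟨1527099483, 0, 0, 0⟩; ok v303 && (
  let v304 := mul v128 v302; ok v304 && (
  let v305 := sub v303 v304; ok v305 && (
  let v306 := cst ⟨45812984491, 0, 0, 0⟩; ok v306 && (
  let v307 := mul v128 v305; ok v307 && (
  let v308 := sub v306 v307; ok v308 && (
  let v309 := mul v128 v308; ok v309 && (
  let v310 := sub v8 v309; ok v310 && (
  let v311 := mul v128 v310; ok v311 && (
  let v312 := sub v0 v311; ok v312 && (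
  let v313 := mul v128 v6; ok v313 && (
  let v314 := mul v313 v313; ok v314 && (
  let v315 := scale ⟨369367187456, 0, 0, 0⟩ v314; ok v315 && (
  let v316 := add v312 v315; ok v316 && (
  let v317 := mul v96 v316; ok v317 && (
  let v318 := scale ⟨2199023255552, 0, 0, 0⟩ v317; ok v318 && (
  let v319 := add v153 v318; ok v319 && (
  let v320 := add v319 v168; ok v320 && (
  let v321 := cst ⟨8589934592, 0, 0, 0⟩; ok v321 && (
  let v322 := add v320 v321; ok v322 && (
  let v323 := log v322; ok v323 && (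
  let v324 := scale ⟨549755813888, 0, 0, 0⟩ v323; ok v324 && (
  let v325 := exp v324; ok v325 && (
  let v326 := mul v96 v176; ok v326 && (
  let v327 := add v325 v326; ok v327 && (
  let v328 := mul v327 v263; ok v328 && (
  let v329 := mul v183 v266; ok v329 && (
  let v330 := add v328 v329; ok v330 && (
  let v331 := mul v261 v330; ok v331 && (
  let v332 := add v186 v331; ok v332 && (
  let v333 := mul v332 v6; ok v333 && (
  let v334 := mul v327 v261; ok v334 && (
  let v335 := mul v334 v263; ok v335 && (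
  let v336 := add v186 v335; ok v336 && (
  let v337 := mul v336 v6; ok v337 && (
  let v338 := scale ⟨223338299392, 0, 0, 0⟩ v337; ok v338 && (
  let v339 := add v8 v338; ok v339 && (
  let v340 := mul v337 v339; ok v340 && (
  let v341 := add v0 v340; ok v341 && (
  let v342 := scale ⟨893353197568, 0, 0, 0⟩ v333; ok v342 && (
  let v343 := add v0 v342; ok v343 && (
  let v344 := mul v333 v343; ok v344 && (
  let v345 := add v0 v344; ok v345 && (
  let v346 := mul v243 v246; ok v346 && (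
  let v347 := mul v346 v268; ok v347 && (
  let v348 := mul v347 v345; ok v348 && (
  let v349 := mul v289 v341; ok v349 && (
  let v350 := add v52 v8; ok v350 && (
  let v351 := mul v348 v350; ok v351 && (
  let v352 := add v349 v351; ok v352 && (
  let v353 := add v52 v0; ok v353 && (
  let v354 := mul v348 v353; ok v354 && (
  let v355 := mul v269 v353; ok v355 && (
  let v356 := mul v355 v246; ok v356 && (
  let v357 := mul v356 v245; ok v357 && (
  let v358 := mul v352 v185; ok v358 && (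
  let v359 := mul v357 v273; ok v359 && (
  let v360 := add v358 v359; ok v360 && (
  let v361 := mul v7 v248; ok v361 && (
  let v362 := inv v52; ok v362 && (
  let v363 := mul v361 v362; ok v363 && (
  let v364 := scale ⟨549755813888, 0, 0, 0⟩ v363; ok v364 && (
  let v365 := mul v23 v364; ok v365 && (
  let v366 := mul v3 v360; ok v366 && (
  let v367 := add v365 v366; ok v367 && (
  let v368 := mul x0 v367; ok v368 && (
  let v369 := mul v352 v327; ok v369 && (
  let v370 := mul v369 v263; ok v370 && (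
  let v371 := mul v354 v183; ok v371 && (
  let v372 := mul v371 v266; ok v372 && (
  let v373 := add v370 v372; ok v373 && (
  let v374 := mul v23 v368; ok v374 && (
  let v375 := mul v259 v373; ok v375 && (
  let v376 := add v374 v375; ok v376 && (
  let v377 := mul v112 v376; ok v377 && (
  let v378 := mul v377 v362; ok v378 && (
  let v379 := sub v0 v378; ok v379 && (
  let v380 := inv v379; ok v380 && (
  let v381 := mul v376 v380; ok v381 && (
  let v382 := mul v3 v381; ok v382 && (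
  let v383 := mul v112 v381; ok v383 && (
  let v384 := mul v383 v362; ok v384 && (
  let v385 := sub v0 v384; ok v385 && (
  let v386 := mul v49 v385; ok v386 && (
  let v387 := sub v386 v382; ok v387 && (
  let v388 := inv v387; ok v388 && (
  let v389 := mul v382 v388; ok v389 && (
  let v390 := sub v52 v383; ok v390 && (
  let v391 := inv v390; ok v391 && (
  let v392 := mul v389 v237; ok v392 && (
  let v393 := scale ⟨549755813888, 0, 0, 0⟩ v392; ok v393 && (
  let v394 := sub v0 v393; ok v394 && (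
  let v395 := sub v0 v392; ok v395 && (
  let v396 := inv v395; ok v396 && (
  let v397 := mul v394 v396; ok v397 && (
  let v398 := mul v1 v391; ok v398 && (
  let v399 := mul v239 v388; ok v399 && (
  let v400 := mul v399 v397; ok v400 && (
  let v401 := add v398 v400; ok v401 && (
  let v402 := mul v7 v381; ok v402 && (
  let v403 := mul v391 v402; ok v403 && (
  let v404 := mul v237 v388; ok v404 && (
  let v405 := mul v404 v397; ok v405 && (
  let v406 := mul v405 v382; ok v406 && (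
  let v407 := add v403 v406; ok v407 && (
  let v408 := scale ⟨223338299392, 0, 0, 0⟩ v407; ok v408 && (
  let v409 := add v8 v408; ok v409 && (
  let v410 := mul v407 v409; ok v410 && (
  let v411 := add v0 v410; ok v411 && (
  let v412 := mul v401 v411; ok v412 && (
  let v413 := mul v412 v380; ok v413 && (
  let v414 := mul v413 v373; ok v414 && (
  let v415 := mul v260 v23; ok v415 && (
  let v416 := cst ⟨7696581394432, 0, 0, 0⟩; ok v416 && (
  let v417 := cst ⟨10995116277760, 0, 0, 0⟩; ok v417 && (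
  let v418 := inv v417; ok v418 && (
  let v419 := mul v416 v418; ok v419 && (
  let v420 := mul v240 v24; ok v420 && (
  let v421 := mul v420 v419; ok v421 && (
  let v422 := mul v188 v106; ok v422 && (
  let v423 := mul v22 v422; ok v423 && (
  let v424 := scale ⟨549755813888, 0, 0, 0⟩ v238; ok v424 && (
  let v425 := sub v0 v424; ok v425 && (
  let v426 := sub v0 v238; ok v426 && (
  let v427 := inv v426; ok v427 && (
  let v428 := mul v425 v427; ok v428 && (
  let v429 := mul v428 v196; ok v429 && (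
  let v430 := mul v112 v122; ok v430 && (
  let v431 := scale ⟨733097230336, 0, 0, 0⟩ v430; ok v431 && (
  let v432 := sub v0 v431; ok v432 && (
  let v433 := mul v122 v432; ok v433 && (
  let v434 := mul v89 v89; ok v434 && (
  let v435 := mul v12 v434; ok v435 && (
  let v436 := add v433 v435; ok v436 && (
  let v437 := mul v429 v239; ok v437 && (
  let v438 := add v436 v0; ok v438 && (
  let v439 := mul v437 v438; ok v439 && (
  let v440 := sub v436 v439; ok v440 && (
  let v441 := scale ⟨366548615168, 0, 0, 0⟩ v45; ok v441 && (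
  let v442 := sub v0 v441; ok v442 && (
  let v443 := mul v26 v442; ok v443 && (
  let v444 := add v440 v443; ok v444 && (
  let v445 := mul v422 v444; ok v445 && (
  let v446 := mul v423 v423; ok v446 && (
  let v447 := add v0 v446; ok v447 && (
  let v448 := inv v447; ok v448 && (
  let v449 := mul v445 v448; ok v449 && (
  let v450 := sub v0 v389; ok v450 && (
  let v451 := mul v450 v449; ok v451 && (
  let v452 := sub v0 v437; ok v452 && (
  isPos 4 v452 && (
  isPos 4 v449 && (
  isPos 4 v450 && (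
  let v453 := mul v413 v254; ok v453 && (
  let v454 := mul v453 v367; ok v454 && (
  let v455 := inv v24; ok v455 && (
  let v456 := mul v454 v455; ok v456 && (
  let v457 := mul x1 v451; ok v457 && (
  let v458 := neg v457; ok v458 && (
  let v459 := exp v458; ok v459 && (
  let v460 := mul v3 v421; ok v460 && (
  let v461 := add v0 v460; ok v461 && (
  let v462 := inv v461; ok v462 && (
  let v463 := mul v459 v462; ok v463 && (
  let v464 := mul v463 v20; ok v464 && (
  let v465 := mul v9 v381; ok v465 && (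
  let v466 := mul v465 v455; ok v466 && (
  let v467 := add v0 v466; ok v467 && (
  let v468 := mul v464 v467; ok v468 && (
  let v469 := mul v468 v391; ok v469 && (
  let v470 := mul v3 v414; ok v470 && (
  let v471 := mul v470 v261; ok v471 && (
  let v472 := mul v3 v415; ok v472 && (
  let v473 := mul v456 v472; ok v473 && (
  let v474 := add v471 v473; ok v474 && (
  let v475 := add v470 v456; ok v475 && (
  let v476 := add v0 v474; ok v476 && (
  let v477 := mul v469 v476; ok v477 && (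
  let v478 := add v475 v477; ok v478 && (
  let v479 := sub v0 v478; ok v479 && (
  let v480 := scale ⟨1073741824, 0, 0, 0⟩ v3; ok v480 && (
  let v481 := sub v479 v480; ok v481 && (
  let v482 := sub v20 v0; ok v482 && (
  let v483 := add v482 v56; ok v483 && (
  let v484 := scale ⟨2199023255552, 0, 0, 0⟩ v419; ok v484 && (
  let v485 := sub v483 v484; ok v485 && (
  let v486 := mul v240 v485; ok v486 && (
  let v487 := mul v482 v484; ok v487 && (
  let v488 := add v487 v0; ok v488 && (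
  let v489 := inv v488; ok v489 && (
  let v490 := mul v486 v489; ok v490 && (
  let v491 := mul v257 v373; ok v491 && (
  let v492 := scale ⟨549755813888, 0, 0, 0⟩ v251; ok v492 && (
  let v493 := add v17 v492; ok v493 && (
  let v494 := mul v491 v493; ok v494 && (
  let v495 := scale ⟨2199023255552, 0, 0, 0⟩ v494; ok v495 && (
  let v496 := add v368 v495; ok v496 && (
  let v497 := scale ⟨2199023255552, 0, 0, 0⟩ v496; ok v497 && (
  let v498 := mul v497 v380; ok v498 && (
  let v499 := sub v24 v465; ok v499 && (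
  let v500 := inv v499; ok v500 && (
  let v501 := mul v498 v500; ok v501 && (
  let v502 := sub v490 v501; ok v502 && (
  let v503 := mul v253 v253; ok v503 && (
  let v504 := cst ⟨14293651161088, 0, 0, 0⟩; ok v504 && (
  let v505 := mul v504 v418; ok v505 && (
  let v506 := mul v503 v505; ok v506 && (
  let v507 := mul x0 x0; ok v507 && (
  let v508 := scale ⟨27487790694400, 0, 0, 0⟩ v507; ok v508 && (
  let v509 := add v506 v508; ok v509 && (
  let v510 := mul v421 v462; ok v510 && (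
  let v511 := sub v40 v3; ok v511 && (
  let v512 := sub v511 v39; ok v512 && (
  let v513 := mul v0 v1; ok v513 && (
  let v514 := mul v513 x0; ok v514 && (
  let v515 := mul v24 v373; ok v515 && (
  let v516 := mul v515 v255; ok v516 && (
  let v517 := add v360 v516; ok v517 && (
  let v518 := add v465 v56; ok v518 && (
  let v519 := mul v0 v518; ok v519 && (
  let v520 := mul v509 v510; ok v520 && (
  let v521 := mul v380 v519; ok v521 && (
  let v522 := mul v514 v517; ok v522 && (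
  let v523 := mul v521 v522; ok v523 && (
  let v524 := sub v520 v523; ok v524 && (
  let v525 := scale ⟨549755813888, 0, 0, 0⟩ v465; ok v525 && (
  let v526 := add v0 v525; ok v526 && (
  let v527 := mul v380 v526; ok v527 && (
  let v528 := mul v3 v23; ok v528 && (
  let v529 := mul v528 v248; ok v529 && (
  let v530 := mul v24 v52; ok v530 && (
  let v531 := inv v530; ok v531 && (
  let v532 := mul v529 v531; ok v532 && (
  let v533 := mul v527 v532; ok v533 && (
  let v534 := sub v512 v533; ok v534 && (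
  let v535 := mul v251 v524; ok v535 && (
  let v536 := sub v0 v251; ok v536 && (
  let v537 := mul v12 v534; ok v537 && (
  let v538 := mul v536 v537; ok v538 && (
  let v539 := mul v509 v538; ok v539 && (
  let v540 := add v535 v539; ok v540 && (
  isPos 4 v262 && (
  isPos 4 v265 && (
  let v541 := scale ⟨2199023255552, 0, 0, 0⟩ v377; ok v541 && (
  let v542 := sub v52 v541; ok v542 && (
  isPos 4 v542 && (
  isPos 4 v387 && (
  let v543 := sub v8 v238; ok v543 && (
  isPos 4 v543 && (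
  let v544 := scale ⟨687194767360, 0, 0, 0⟩ v0; ok v544 && (
  let v545 := sub v544 v337; ok v545 && (
  isPos 4 v545 && (
  let v546 := scale ⟨377957122048, 0, 0, 0⟩ v0; ok v546 && (
  let v547 := sub v546 v333; ok v547 && (
  isPos 4 v547 && (
  isPos 4 v499 && (
  isPos 4 v395 && (
  let v548 := sub v544 v407; ok v548 && (
  isPos 4 v548 && (
  isPos 4 v502 && (
  isPos 4 v481 && (
  isPos 4 v540 && (
  isPos 4 v534 && (
  true))))))))))))))))))))))))))))))))))))))))))))))))))))))))))))))))))))))))))))))))))))))))))))))))))))))))))))))))))))))))))))))))))))))))))))))))))))))))))))))))))))))))))))))))))))))))))))))))))))))))))))))))))))))))))))))))))))))))))))))))))))))))))))))))))))))))))))))))))))))))))))))))))))))))))))))))))))))))))))))))))))))))))))))))))))))))))))))))))))))))))))))))))))))))))))))))))))))))))))))))))))))))))))))))))))))))))))))))))))))))))))))))))))))))))))))))))))))))))))))))))))))))))))))))))))))))))))))))))))))))))))))))))))))))))))))))))))))))))))))))))))))))))))))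
  | _ => false

set_option maxRecDepth 1000000 in
theorem chk3_eq (O : Ops) (m : List O.α)
    (h : chk3 O.cst O.add O.sub O.mul O.scale O.neg O.inv O.exp O.log O.ok O.isPos O.isLt m = true) :
    runG O 4 prog3 m = true := by
  match m, h with
  | [x0, x1, x2, x3], h => exact h

def chkB3 : List opsE.α → Bool :=
  chk3 opsE.cst opsE.add opsE.sub opsE.mul opsE.scale opsE.neg opsE.inv opsE.exp opsE.log opsE.ok opsE.isPos opsE.isLt

theorem chkB3_eq (m : List opsE.α) (h : chkB3 m = true) : runG opsE 4 prog3 m = true :=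
  chk3_eq opsE m h

def prog4 : List Op := [
  .const ⟨1099511627776, 0, 0, 0⟩,
  .mul 2 1,
  .mul 4 4,
  .mul 4 0,
  .mul 5 6,
  .mul 0 5,
  .mul 0 0,
  .mul 3 8,
  .const ⟨549755813888, 0, 0, 0⟩,
  .mul 5 7,
  .mul 0 13,
  .scale ⟨549755813888, 0, 0, 0⟩ 0,
  .mul 10 10,
  .mul 1 1,
  .sub 13 0,
  .inv 0,
  .mul 4 0,
  .scale ⟨2199023255552, 0, 0, 0⟩ 0,
  .scale ⟨2199023255552, 0, 0, 0⟩ 2,
  .sub 0 18,
  .add 0 2,
  .mul 24 5,
  .mul 20 0,
  .sub 22 0,
  .add 23 1,
  .mul 21 12,
  .mul 4 4,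
  .scale ⟨10774999203840, 0, 0, 0⟩ 15,
  .scale ⟨45768245248, 0, 0, 0⟩ 0,
  .const ⟨183207198720, 0, 0, 0⟩,
  .add 1 0,
  .mul 3 0,
  .add 23 0,
  .mul 5 0,
  .add 33 0,
  .mul 7 0,
  .scale ⟨549755813888, 0, 0, 0⟩ 0,
  .add 36 0,
  .mul 3 0,
  .mul 21 16,
  .scale ⟨2199023255552, 0, 0, 0⟩ 20,
  .add 1 0,
  .add 0 38,
  .mul 17 0,
  .add 0 43,
  .mul 27 27,
  .scale ⟨2199023255552, 0, 0, 0⟩ 0,
  .add 0 46,
  .mul 28 5,
  .sub 0 48,
  .log 5,
  .scale ⟨549755813888, 0, 0, 0⟩ 0,
  .exp 0,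
  .const ⟨3298534883328, 0, 0, 0⟩,
  .inv 0,
  .mul 54 0,
  .const ⟨2199023255552, 0, 0, 0⟩,
  .add 13 0,
  .inv 0,
  .mul 15 0,
  .mul 0 0,
  .sub 60 1,
  .mul 1 6,
  .add 62 0,
  .mul 2 0,
  .mul 4 4,
  .scale ⟨219915747328, 0, 0, 0⟩ 0,
  .mul 24 2,
  .scale ⟨549755813888, 0, 0, 0⟩ 0,
  .mul 26 2,
  .scale ⟨549755813888, 0, 0, 0⟩ 0,
  .add 2 0,
  .mul 52 22,
  .scale ⟨4398046511104, 0, 0, 0⟩ 0,
  .mul 54 48,
  .mul 0 25,
  .scale ⟨4398046511104, 0, 0, 0⟩ 0,
  .add 0 20,
  .inv 0,
  .mul 2 0,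
  .mul 0 0,
  .sub 80 1,
  .mul 1 26,
  .add 82 0,
  .mul 2 0,
  .mul 4 4,
  .scale ⟨219915747328, 0, 0, 0⟩ 0,
  .mul 13 2,
  .scale ⟨549755813888, 0, 0, 0⟩ 0,
  .sub 0 17,
  .mul 16 3,
  .scale ⟨549755813888, 0, 0, 0⟩ 0,
  .add 0 21,
  .add 3 0,
  .mul 95 25,
  .neg 0,
  .exp 0,
  .mul 98 26,
  .mul 1 0,
  .mul 76 81,
  .add 80 0,
  .inv 0,
  .mul 77 0,
  .mul 79 99,
  .mul 0 1,
  .sub 104 92,
  .mul 79 0,
  .mul 97 97,
  .sub 107 81,
  .mul 3 0,
  .mul 84 60,
  .inv 66,
  .mul 1 0,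
  .add 93 0,
  .mul 69 0,
  .mul 0 0,
  .inv 0,
  .mul 7 0,
  .mul 13 117,
  .scale ⟨549755813888, 0, 0, 0⟩ 0,
  .sub 119 0,
  .sub 120 2,
  .inv 0,
  .mul 2 0,
  .add 5 123,
  .mul 28 0,
  .mul 23 2,
  .mul 0 126,
  .mul 9 4,
  .pos 7,
  .mul 105 104,
  .add 110 126,
  .mul 108 111,
  .mul 0 114,
  .scale ⟨2199023255552, 0, 0, 0⟩ 0,
  .add 86 0,
  .mul 4 0,
  .inv 0,
  .mul 7 0,
  .mul 134 0,
  .pos 49,
  .mul 0 138,
  .mul 139 140,
  .add 129 140,
  .inv 0,
  .mul 131 0,
  .scale ⟨2199023255552, 0, 0, 0⟩ 0,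
  .sub 144 0,
  .sub 145 134,
  .mul 150 4,
  .mul 0 2,
  .add 124 0,
  .scale ⟨224412041216, 0, 0, 0⟩ 134,
  .inv 112,
  .mul 1 0,
  .scale ⟨4398046511104, 0, 0, 0⟩ 153,
  .mul 153 132,
  .add 1 0,
  .inv 0,
  .mul 156 0,
  .mul 158 1,
  .mul 0 134,
  .mul 0 7,
  .mul 3 136,
  .mul 0 9,
  .sub 162 0,
  .inv 0,
  .mul 39 2,
  .sub 165 0,
  .inv 0,
  .scale ⟨2199023255552, 0, 0, 0⟩ 161,
  .add 0 168,
  .add 163 169,
  .scale ⟨3573412790272, 0, 0, 0⟩ 148,
  .const ⟨339302416384, 0, 0, 0⟩,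
  .add 1 0,
  .scale ⟨549755813888, 0, 0, 0⟩ 0,
  .mul 163 153,
  .sub 175 69,
  .mul 165 154,
  .scale ⟨2199023255552, 0, 0, 0⟩ 0,
  .sub 2 0,
  .mul 4 4,
  .add 1 0,
  .add 0 181,
  .scale ⟨549755813888, 0, 0, 0⟩ 0,
  .scale ⟨549755813888, 0, 0, 0⟩ 158,
  .sub 169 0,
  .mul 78 9,
  .mul 0 172,
  .scale ⟨137438953472, 0, 0, 0⟩ 0,
  .add 3 0,
  .mul 6 0,
  .add 65 190,
  .mul 0 27,
  .mul 67 25,
  .add 1 0,
  .mul 32 0,
  .add 67 0,
  .mul 0 190,
  .mul 6 35,
  .mul 0 34,
  .add 71 0,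
  .mul 0 194,
  .scale ⟨223338299392, 0, 0, 0⟩ 0,
  .add 194 0,
  .mul 2 0,
  .add 204 0,
  .scale ⟨893353197568, 0, 0, 0⟩ 8,
  .add 206 0,
  .mul 10 0,
  .add 208 0,
  .mul 65 62,
  .mul 0 41,
  .mul 0 2,
  .mul 22 7,
  .add 161 205,
  .mul 2 0,
  .add 2 0,
  .add 164 216,
  .mul 5 0,
  .mul 48 1,
  .mul 0 72,
  .mul 0 74,
  .mul 5 94,
  .mul 1 48,
  .add 1 0,
  .mul 217 75,
  .inv 173,
  .mul 1 0,
  .scale ⟨549755813888, 0, 0, 0⟩ 0,
  .mul 205 0,
  .mul 226 5,
  .add 1 0,
  .mul 232 0,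
  .mul 16 41,
  .mul 0 69,
  .mul 16 109,
  .mul 0 68,
  .add 2 0,
  .mul 214 5,
  .mul 78 1,
  .add 1 0,
  .mul 133 0,
  .mul 0 15,
  .sub 242 0,
  .inv 0,
  .mul 4 0,
  .mul 242 0,
  .mul 139 1,
  .mul 0 21,
  .sub 248 0,
  .mul 200 0,
  .sub 0 4,
  .inv 0,
  .mul 6 0,
  .sub 201 6,
  .inv 0,
  .mul 2 255,
  .scale ⟨549755813888, 0, 0, 0⟩ 0,
  .sub 257 0,
  .sub 258 2,
  .inv 0,
  .mul 2 0,
  .mul 260 6,
  .mul 122 10,
  .mul 0 2,
  .add 2 0,
  .mul 258 20,
  .mul 11 0,
  .mul 267 15,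
  .mul 0 7,
  .mul 0 23,
  .add 3 0,
  .scale ⟨223338299392, 0, 0, 0⟩ 0,
  .add 264 0,
  .mul 2 0,
  .add 274 0,
  .mul 10 0,
  .mul 0 32,
  .mul 0 40,
  .mul 117 255,
  .const ⟨7696581394432, 0, 0, 0⟩,
  .const ⟨10995116277760, 0, 0, 0⟩,
  .inv 0,
  .mul 2 0,
  .mul 142 259,
  .mul 0 1,
  .mul 155 184,
  .mul 264 0,
  .scale ⟨549755813888, 0, 0, 0⟩ 148,
  .sub 288 0,
  .sub 289 150,
  .inv 0,
  .mul 2 0,
  .mul 0 154,
  .mul 186 176,
  .scale ⟨733097230336, 0, 0, 0⟩ 0,
  .sub 295 0,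
  .mul 179 0,
  .mul 208 208,
  .mul 286 0,
  .add 2 0,
  .mul 7 160,
  .add 1 301,
  .mul 1 0,
  .sub 3 0,
  .scale ⟨366548615168, 0, 0, 0⟩ 259,
  .sub 305 0,
  .mul 280 0,
  .add 3 0,
  .mul 22 0,
  .mul 22 22,
  .add 310 0,
  .inv 0,
  .mul 3 0,
  .sub 313 60,
  .mul 0 1,
  .sub 315 14,
  .pos 0,
  .pos 3,
  .pos 2,
  .mul 39 161,
  .mul 0 86,
  .inv 294,
  .mul 1 0,
  .mul 322 5,
  .neg 0,
  .exp 0,
  .mul 320 38,
  .add 324 0,
  .inv 0,
  .mul 3 0,
  .mul 0 307,
  .mul 319 83,
  .mul 0 10,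
  .add 330 0,
  .mul 3 0,
  .mul 0 77,
  .mul 330 55,
  .mul 0 172,
  .mul 332 56,
  .mul 16 0,
  .add 2 0,
  .add 4 18,
  .add 339 1,
  .mul 7 0,
  .add 2 0,
  .sub 342 0,
  .scale ⟨1073741824, 0, 0, 0⟩ 340,
  .sub 1 0,
  .sub 325 345,
  .add 0 290,
  .scale ⟨2199023255552, 0, 0, 0⟩ 64,
  .sub 1 0,
  .mul 208 0,
  .mul 4 2,
  .add 0 351,
  .inv 0,
  .mul 3 0,
  .mul 196 117,
  .scale ⟨549755813888, 0, 0, 0⟩ 203,
  .add 339 0,
  .mul 2 0,
  .scale ⟨2199023255552, 0, 0, 0⟩ 0,
  .add 127 0,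
  .scale ⟨2199023255552, 0, 0, 0⟩ 0,
  .mul 0 117,
  .sub 338 33,
  .inv 0,
  .mul 2 0,
  .sub 11 0,
  .mul 212 212,
  .const ⟨14293651161088, 0, 0, 0⟩,
  .mul 0 86,
  .mul 2 0,
  .mul 371 371,
  .scale ⟨27487790694400, 0, 0, 0⟩ 0,
  .add 2 0,
  .mul 88 47,
  .sub 334 371,
  .sub 0 336,
  .mul 376 375,
  .mul 0 378,
  .mul 354 141,
  .mul 0 223,
  .add 156 0,
  .add 52 325,
  .mul 382 0,
  .mul 10 9,
  .mul 140 1,
  .mul 7 4,
  .mul 1 0,
  .sub 3 0,
  .scale ⟨549755813888, 0, 0, 0⟩ 59,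
  .add 389 0,
  .mul 146 0,
  .mul 388 368,
  .mul 0 243,
  .mul 369 341,
  .inv 0,
  .mul 2 0,
  .mul 5 0,
  .sub 21 0,
  .mul 246 10,
  .sub 399 247,
  .mul 388 2,
  .mul 1 0,
  .mul 29 0,
  .add 4 0,
  .pos 241,
  .pos 238,
  .scale ⟨2199023255552, 0, 0, 0⟩ 163,
  .sub 353 0,
  .pos 0,
  .pos 155,
  .sub 398 267,
  .pos 0,
  .scale ⟨687194767360, 0, 0, 0⟩ 407,
  .sub 0 207,
  .pos 0,
  .scale ⟨377957122048, 0, 0, 0⟩ 409,
  .sub 0 213,
  .pos 0,
  .pos 48,
  .pos 152,
  .sub 3 140,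
  .pos 0,
  .pos 46,
  .pos 67,
  .pos 8,
  .pos 14]

def chk4 {α : Type} (cst : Z → α) (add sub mul : α → α → α) (scale : Z → α → α)
    (neg inv exp log : α → α) (ok : α → Bool) (isPos : Nat → α → Bool) (isLt : α → Nat → Bool) :
    List α → Bool
  | [x0, x1, x2, x3] =>
  let v0 := cst ⟨1099511627776, 0, 0, 0⟩; ok v0 && (
  let v1 := mul x1 x0; ok v1 && (
  let v2 := mul x2 x2; ok v2 && (
  let v3 := mul x1 v2; ok v3 && (
  let v4 := mul x1 x2; ok v4 && (
  let v5 := mul v4 x0; ok v5 && (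
  let v6 := mul v5 v5; ok v6 && (
  let v7 := mul v3 x1; ok v7 && (
  let v8 := cst ⟨549755813888, 0, 0, 0⟩; ok v8 && (
  let v9 := mul v3 v1; ok v9 && (
  let v10 := mul v9 x3; ok v10 && (
  let v11 := scale ⟨549755813888, 0, 0, 0⟩ v10; ok v11 && (
  let v12 := mul v1 v1; ok v12 && (
  let v13 := mul v11 v11; ok v13 && (
  let v14 := sub v0 v13; ok v14 && (
  let v15 := inv v14; ok v15 && (
  let v16 := mul v11 v15; ok v16 && (
  let v17 := scale ⟨2199023255552, 0, 0, 0⟩ v16; ok v17 && (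
  let v18 := scale ⟨2199023255552, 0, 0, 0⟩ v15; ok v18 && (
  let v19 := sub v18 v0; ok v19 && (
  let v20 := add v19 v17; ok v20 && (
  let v21 := mul x3 v15; ok v21 && (
  let v22 := mul v1 v21; ok v22 && (
  let v23 := sub v0 v22; ok v23 && (
  let v24 := add v0 v22; ok v24 && (
  let v25 := mul v3 v12; ok v25 && (
  let v26 := mul v21 v21; ok v26 && (
  let v27 := scale ⟨10774999203840, 0, 0, 0⟩ v11; ok v27 && (
  let v28 := scale ⟨45768245248, 0, 0, 0⟩ v27; ok v28 && (
  let v29 := cst ⟨183207198720, 0, 0, 0⟩; ok v29 && (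
  let v30 := add v28 v29; ok v30 && (
  let v31 := mul v27 v30; ok v31 && (
  let v32 := add v8 v31; ok v32 && (
  let v33 := mul v27 v32; ok v33 && (
  let v34 := add v0 v33; ok v34 && (
  let v35 := mul v27 v34; ok v35 && (
  let v36 := scale ⟨549755813888, 0, 0, 0⟩ v35; ok v36 && (
  let v37 := add v0 v36; ok v37 && (
  let v38 := mul v34 v37; ok v38 && (
  let v39 := mul v17 v22; ok v39 && (
  let v40 := scale ⟨2199023255552, 0, 0, 0⟩ v19; ok v40 && (
  let v41 := add v39 v40; ok v41 && (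
  let v42 := add v41 v3; ok v42 && (
  let v43 := mul v25 v42; ok v43 && (
  let v44 := add v43 v0; ok v44 && (
  let v45 := mul v17 v17; ok v45 && (
  let v46 := scale ⟨2199023255552, 0, 0, 0⟩ v45; ok v46 && (
  let v47 := add v46 v0; ok v47 && (
  let v48 := mul v19 v42; ok v48 && (
  let v49 := sub v48 v0; ok v49 && (
  let v50 := log v44; ok v50 && (
  let v51 := scale ⟨549755813888, 0, 0, 0⟩ v50; ok v51 && (
  let v52 := exp v51; ok v52 && (
  let v53 := cst ⟨3298534883328, 0, 0, 0⟩; ok v53 && (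
  let v54 := inv v53; ok v54 && (
  let v55 := mul v0 v54; ok v55 && (
  let v56 := cst ⟨2199023255552, 0, 0, 0⟩; ok v56 && (
  let v57 := add v43 v56; ok v57 && (
  let v58 := inv v57; ok v58 && (
  let v59 := mul v43 v58; ok v59 && (
  let v60 := mul v59 v59; ok v60 && (
  let v61 := sub v0 v59; ok v61 && (
  let v62 := mul v60 v55; ok v62 && (
  let v63 := add v0 v62; ok v63 && (
  let v64 := mul v61 v63; ok v64 && (
  let v65 := mul v60 v60; ok v65 && (
  let v66 := scale ⟨219915747328, 0, 0, 0⟩ v65; ok v66 && (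
  let v67 := mul v42 v64; ok v67 && (
  let v68 := scale ⟨549755813888, 0, 0, 0⟩ v67; ok v68 && (
  let v69 := mul v42 v66; ok v69 && (
  let v70 := scale ⟨549755813888, 0, 0, 0⟩ v69; ok v70 && (
  let v71 := add v68 v70; ok v71 && (
  let v72 := mul v19 v49; ok v72 && (
  let v73 := scale ⟨4398046511104, 0, 0, 0⟩ v72; ok v73 && (
  let v74 := mul v19 v25; ok v74 && (
  let v75 := mul v74 v49; ok v75 && (
  let v76 := scale ⟨4398046511104, 0, 0, 0⟩ v75; ok v76 && (
  let v77 := add v76 v56; ok v77 && (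
  let v78 := inv v77; ok v78 && (
  let v79 := mul v76 v78; ok v79 && (
  let v80 := mul v79 v79; ok v80 && (
  let v81 := sub v0 v79; ok v81 && (
  let v82 := mul v80 v55; ok v82 && (
  let v83 := add v0 v82; ok v83 && (
  let v84 := mul v81 v83; ok v84 && (
  let v85 := mul v80 v80; ok v85 && (
  let v86 := scale ⟨219915747328, 0, 0, 0⟩ v85; ok v86 && (
  let v87 := mul v73 v84; ok v87 && (
  let v88 := scale ⟨549755813888, 0, 0, 0⟩ v87; ok v88 && (
  let v89 := sub v88 v71; ok v89 && (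
  let v90 := mul v73 v86; ok v90 && (
  let v91 := scale ⟨549755813888, 0, 0, 0⟩ v90; ok v91 && (
  let v92 := add v91 v70; ok v92 && (
  let v93 := add v89 v92; ok v93 && (
  let v94 := mul x1 v68; ok v94 && (
  let v95 := neg v94; ok v95 && (
  let v96 := exp v95; ok v96 && (
  let v97 := mul x1 v70; ok v97 && (
  let v98 := mul v96 v97; ok v98 && (
  let v99 := mul v22 v17; ok v99 && (
  let v100 := add v19 v99; ok v100 && (
  let v101 := inv v100; ok v101 && (
  let v102 := mul v24 v101; ok v102 && (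
  let v103 := mul v23 v3; ok v103 && (
  let v104 := mul v103 v102; ok v104 && (
  let v105 := sub v0 v12; ok v105 && (
  let v106 := mul v26 v105; ok v106 && (
  let v107 := mul v9 v9; ok v107 && (
  let v108 := sub v0 v26; ok v108 && (
  let v109 := mul v105 v108; ok v109 && (
  let v110 := mul v25 v49; ok v110 && (
  let v111 := inv v44; ok v111 && (
  let v112 := mul v110 v111; ok v112 && (
  let v113 := add v19 v112; ok v113 && (
  let v114 := mul v44 v113; ok v114 && (
  let v115 := mul v114 v114; ok v115 && (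
  let v116 := inv v115; ok v116 && (
  let v117 := mul v109 v116; ok v117 && (
  let v118 := mul v104 v0; ok v118 && (
  let v119 := scale ⟨549755813888, 0, 0, 0⟩ v118; ok v119 && (
  let v120 := sub v0 v119; ok v120 && (
  let v121 := sub v0 v118; ok v121 && (
  let v122 := inv v121; ok v122 && (
  let v123 := mul v120 v122; ok v123 && (
  let v124 := add v118 v0; ok v124 && (
  let v125 := mul v96 v124; ok v125 && (
  let v126 := mul v102 v123; ok v126 && (
  let v127 := mul v126 v0; ok v127 && (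
  let v128 := mul v118 v123; ok v128 && (
  isPos 4 v121 && (
  let v129 := mul v23 v24; ok v129 && (
  let v130 := add v19 v3; ok v130 && (
  let v131 := mul v22 v19; ok v131 && (
  let v132 := mul v131 v17; ok v132 && (
  let v133 := scale ⟨2199023255552, 0, 0, 0⟩ v132; ok v133 && (
  let v134 := add v47 v133; ok v134 && (
  let v135 := mul v130 v134; ok v135 && (
  let v136 := inv v135; ok v136 && (
  let v137 := mul v129 v136; ok v137 && (
  let v138 := mul v3 v137; ok v138 && (
  isPos 4 v89 && (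
  let v139 := mul v138 v0; ok v139 && (
  let v140 := mul v0 x0; ok v140 && (
  let v141 := add v11 v0; ok v141 && (
  let v142 := inv v141; ok v142 && (
  let v143 := mul v11 v142; ok v143 && (
  let v144 := scale ⟨2199023255552, 0, 0, 0⟩ v143; ok v144 && (
  let v145 := sub v0 v144; ok v145 && (
  let v146 := sub v0 v11; ok v146 && (
  let v147 := mul x3 v142; ok v147 && (
  let v148 := mul v147 v145; ok v148 && (
  let v149 := add v24 v148; ok v149 && (
  let v150 := scale ⟨224412041216, 0, 0, 0⟩ v15; ok v150 && (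
  let v151 := inv v38; ok v151 && (
  let v152 := mul v150 v151; ok v152 && (
  let v153 := scale ⟨4398046511104, 0, 0, 0⟩ x0; ok v153 && (
  let v154 := mul v0 v21; ok v154 && (
  let v155 := add v153 v154; ok v155 && (
  let v156 := inv v155; ok v156 && (
  let v157 := mul v0 v156; ok v157 && (
  let v158 := mul x0 v156; ok v158 && (
  let v159 := mul v158 v24; ok v159 && (
  let v160 := mul v159 v152; ok v160 && (
  let v161 := mul v157 v24; ok v161 && (
  let v162 := mul v161 v152; ok v162 && (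
  let v163 := sub v0 v162; ok v163 && (
  let v164 := inv v163; ok v164 && (
  let v165 := mul v125 v162; ok v165 && (
  let v166 := sub v0 v165; ok v166 && (
  let v167 := inv v166; ok v167 && (
  let v168 := scale ⟨2199023255552, 0, 0, 0⟩ v6; ok v168 && (
  let v169 := add v168 v0; ok v169 && (
  let v170 := add v6 v0; ok v170 && (
  let v171 := scale ⟨3573412790272, 0, 0, 0⟩ v22; ok v171 && (
  let v172 := cst ⟨339302416384, 0, 0, 0⟩; ok v172 && (
  let v173 := add v171 v172; ok v173 && (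
  let v174 := scale ⟨549755813888, 0, 0, 0⟩ v173; ok v174 && (
  let v175 := mul v11 v21; ok v175 && (
  let v176 := sub v0 v106; ok v176 && (
  let v177 := mul v11 v22; ok v177 && (
  let v178 := scale ⟨2199023255552, 0, 0, 0⟩ v177; ok v178 && (
  let v179 := sub v176 v178; ok v179 && (
  let v180 := mul v175 v175; ok v180 && (
  let v181 := add v179 v180; ok v181 && (
  let v182 := add v181 v0; ok v182 && (
  let v183 := scale ⟨549755813888, 0, 0, 0⟩ v182; ok v183 && (
  let v184 := scale ⟨549755813888, 0, 0, 0⟩ v25; ok v184 && (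
  let v185 := sub v15 v184; ok v185 && (
  let v186 := mul v107 v176; ok v186 && (
  let v187 := mul v186 v14; ok v187 && (
  let v188 := scale ⟨137438953472, 0, 0, 0⟩ v187; ok v188 && (
  let v189 := add v185 v188; ok v189 && (
  let v190 := mul v183 v189; ok v190 && (
  let v191 := add v125 v0; ok v191 && (
  let v192 := mul v191 v164; ok v192 && (
  let v193 := mul v125 v167; ok v193 && (
  let v194 := add v192 v193; ok v194 && (
  let v195 := mul v162 v194; ok v195 && (
  let v196 := add v128 v195; ok v196 && (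
  let v197 := mul v196 v6; ok v197 && (
  let v198 := mul v191 v162; ok v198 && (
  let v199 := mul v198 v164; ok v199 && (
  let v200 := add v128 v199; ok v200 && (
  let v201 := mul v200 v6; ok v201 && (
  let v202 := scale ⟨223338299392, 0, 0, 0⟩ v201; ok v202 && (
  let v203 := add v8 v202; ok v203 && (
  let v204 := mul v201 v203; ok v204 && (
  let v205 := add v0 v204; ok v205 && (
  let v206 := scale ⟨893353197568, 0, 0, 0⟩ v197; ok v206 && (
  let v207 := add v0 v206; ok v207 && (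
  let v208 := mul v197 v207; ok v208 && (
  let v209 := add v0 v208; ok v209 && (
  let v210 := mul v144 v147; ok v210 && (
  let v211 := mul v210 v169; ok v211 && (
  let v212 := mul v211 v209; ok v212 && (
  let v213 := mul v190 v205; ok v213 && (
  let v214 := add v52 v8; ok v214 && (
  let v215 := mul v212 v214; ok v215 && (
  let v216 := add v213 v215; ok v216 && (
  let v217 := add v52 v0; ok v217 && (
  let v218 := mul v212 v217; ok v218 && (
  let v219 := mul v170 v217; ok v219 && (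
  let v220 := mul v219 v147; ok v220 && (
  let v221 := mul v220 v146; ok v221 && (
  let v222 := mul v216 v127; ok v222 && (
  let v223 := mul v221 v174; ok v223 && (
  let v224 := add v222 v223; ok v224 && (
  let v225 := mul v7 v149; ok v225 && (
  let v226 := inv v52; ok v226 && (
  let v227 := mul v225 v226; ok v227 && (
  let v228 := scale ⟨549755813888, 0, 0, 0⟩ v227; ok v228 && (
  let v229 := mul v23 v228; ok v229 && (
  let v230 := mul v3 v224; ok v230 && (
  let v231 := add v229 v230; ok v231 && (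
  let v232 := mul x0 v231; ok v232 && (
  let v233 := mul v216 v191; ok v233 && (
  let v234 := mul v233 v164; ok v234 && (
  let v235 := mul v218 v125; ok v235 && (
  let v236 := mul v235 v167; ok v236 && (
  let v237 := add v234 v236; ok v237 && (
  let v238 := mul v23 v232; ok v238 && (
  let v239 := mul v160 v237; ok v239 && (
  let v240 := add v238 v239; ok v240 && (
  let v241 := mul v107 v240; ok v241 && (
  let v242 := mul v241 v226; ok v242 && (
  let v243 := sub v0 v242; ok v243 && (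
  let v244 := inv v243; ok v244 && (
  let v245 := mul v240 v244; ok v245 && (
  let v246 := mul v3 v245; ok v246 && (
  let v247 := mul v107 v245; ok v247 && (
  let v248 := mul v247 v226; ok v248 && (
  let v249 := sub v0 v248; ok v249 && (
  let v250 := mul v49 v249; ok v250 && (
  let v251 := sub v250 v246; ok v251 && (
  let v252 := inv v251; ok v252 && (
  let v253 := mul v246 v252; ok v253 && (
  let v254 := sub v52 v247; ok v254 && (
  let v255 := inv v254; ok v255 && (
  let v256 := mul v253 v0; ok v256 && (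
  let v257 := scale ⟨549755813888, 0, 0, 0⟩ v256; ok v257 && (
  let v258 := sub v0 v257; ok v258 && (
  let v259 := sub v0 v256; ok v259 && (
  let v260 := inv v259; ok v260 && (
  let v261 := mul v258 v260; ok v261 && (
  let v262 := mul v1 v255; ok v262 && (
  let v263 := mul v140 v252; ok v263 && (
  let v264 := mul v263 v261; ok v264 && (
  let v265 := add v262 v264; ok v265 && (
  let v266 := mul v7 v245; ok v266 && (
  let v267 := mul v255 v266; ok v267 && (
  let v268 := mul v0 v252; ok v268 && (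
  let v269 := mul v268 v261; ok v269 && (
  let v270 := mul v269 v246; ok v270 && (
  let v271 := add v267 v270; ok v271 && (
  let v272 := scale ⟨223338299392, 0, 0, 0⟩ v271; ok v272 && (
  let v273 := add v8 v272; ok v273 && (
  let v274 := mul v271 v273; ok v274 && (
  let v275 := add v0 v274; ok v275 && (
  let v276 := mul v265 v275; ok v276 && (
  let v277 := mul v276 v244; ok v277 && (
  let v278 := mul v277 v237; ok v278 && (
  let v279 := mul v161 v23; ok v279 && (
  let v280 := cst ⟨7696581394432, 0, 0, 0⟩; ok v280 && (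
  let v281 := cst ⟨10995116277760, 0, 0, 0⟩; ok v281 && (
  let v282 := inv v281; ok v282 && (
  let v283 := mul v280 v282; ok v283 && (
  let v284 := mul v141 v24; ok v284 && (
  let v285 := mul v284 v283; ok v285 && (
  let v286 := mul v130 v101; ok v286 && (
  let v287 := mul v22 v286; ok v287 && (
  let v288 := scale ⟨549755813888, 0, 0, 0⟩ v139; ok v288 && (
  let v289 := sub v0 v288; ok v289 && (
  let v290 := sub v0 v139; ok v290 && (
  let v291 := inv v290; ok v291 && (
  let v292 := mul v289 v291; ok v292 && (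
  let v293 := mul v292 v138; ok v293 && (
  let v294 := mul v107 v117; ok v294 && (
  let v295 := scale ⟨733097230336, 0, 0, 0⟩ v294; ok v295 && (
  let v296 := sub v0 v295; ok v296 && (
  let v297 := mul v117 v296; ok v297 && (
  let v298 := mul v89 v89; ok v298 && (
  let v299 := mul v12 v298; ok v299 && (
  let v300 := add v297 v299; ok v300 && (
  let v301 := mul v293 v140; ok v301 && (
  let v302 := add v300 v0; ok v302 && (
  let v303 := mul v301 v302; ok v303 && (
  let v304 := sub v300 v303; ok v304 && (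
  let v305 := scale ⟨366548615168, 0, 0, 0⟩ v45; ok v305 && (
  let v306 := sub v0 v305; ok v306 && (
  let v307 := mul v26 v306; ok v307 && (
  let v308 := add v304 v307; ok v308 && (
  let v309 := mul v286 v308; ok v309 && (
  let v310 := mul v287 v287; ok v310 && (
  let v311 := add v0 v310; ok v311 && (
  let v312 := inv v311; ok v312 && (
  let v313 := mul v309 v312; ok v313 && (
  let v314 := sub v0 v253; ok v314 && (
  let v315 := mul v314 v313; ok v315 && (
  let v316 := sub v0 v301; ok v316 && (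
  isPos 4 v316 && (
  isPos 4 v313 && (
  isPos 4 v314 && (
  let v317 := mul v277 v155; ok v317 && (
  let v318 := mul v317 v231; ok v318 && (
  let v319 := inv v24; ok v319 && (
  let v320 := mul v318 v319; ok v320 && (
  let v321 := mul x1 v315; ok v321 && (
  let v322 := neg v321; ok v322 && (
  let v323 := exp v322; ok v323 && (
  let v324 := mul v3 v285; ok v324 && (
  let v325 := add v0 v324; ok v325 && (
  let v326 := inv v325; ok v326 && (
  let v327 := mul v323 v326; ok v327 && (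
  let v328 := mul v327 v20; ok v328 && (
  let v329 := mul v9 v245; ok v329 && (
  let v330 := mul v329 v319; ok v330 && (
  let v331 := add v0 v330; ok v331 && (
  let v332 := mul v328 v331; ok v332 && (
  let v333 := mul v332 v255; ok v333 && (
  let v334 := mul v3 v278; ok v334 && (
  let v335 := mul v334 v162; ok v335 && (
  let v336 := mul v3 v279; ok v336 && (
  let v337 := mul v320 v336; ok v337 && (
  let v338 := add v335 v337; ok v338 && (
  let v339 := add v334 v320; ok v339 && (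
  let v340 := add v0 v338; ok v340 && (
  let v341 := mul v333 v340; ok v341 && (
  let v342 := add v339 v341; ok v342 && (
  let v343 := sub v0 v342; ok v343 && (
  let v344 := scale ⟨1073741824, 0, 0, 0⟩ v3; ok v344 && (
  let v345 := sub v343 v344; ok v345 && (
  let v346 := sub v20 v0; ok v346 && (
  let v347 := add v346 v56; ok v347 && (
  let v348 := scale ⟨2199023255552, 0, 0, 0⟩ v283; ok v348 && (
  let v349 := sub v347 v348; ok v349 && (
  let v350 := mul v141 v349; ok v350 && (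
  let v351 := mul v346 v348; ok v351 && (
  let v352 := add v351 v0; ok v352 && (
  let v353 := inv v352; ok v353 && (
  let v354 := mul v350 v353; ok v354 && (
  let v355 := mul v158 v237; ok v355 && (
  let v356 := scale ⟨549755813888, 0, 0, 0⟩ v152; ok v356 && (
  let v357 := add v17 v356; ok v357 && (
  let v358 := mul v355 v357; ok v358 && (
  let v359 := scale ⟨2199023255552, 0, 0, 0⟩ v358; ok v359 && (
  let v360 := add v232 v359; ok v360 && (
  let v361 := scale ⟨2199023255552, 0, 0, 0⟩ v360; ok v361 && (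
  let v362 := mul v361 v244; ok v362 && (
  let v363 := sub v24 v329; ok v363 && (
  let v364 := inv v363; ok v364 && (
  let v365 := mul v362 v364; ok v365 && (
  let v366 := sub v354 v365; ok v366 && (
  let v367 := mul v154 v154; ok v367 && (
  let v368 := cst ⟨14293651161088, 0, 0, 0⟩; ok v368 && (
  let v369 := mul v368 v282; ok v369 && (
  let v370 := mul v367 v369; ok v370 && (
  let v371 := mul x0 x0; ok v371 && (
  let v372 := scale ⟨27487790694400, 0, 0, 0⟩ v371; ok v372 && (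
  let v373 := add v370 v372; ok v373 && (
  let v374 := mul v285 v326; ok v374 && (
  let v375 := sub v40 v3; ok v375 && (
  let v376 := sub v375 v39; ok v376 && (
  let v377 := mul v0 v1; ok v377 && (
  let v378 := mul v377 x0; ok v378 && (
  let v379 := mul v24 v237; ok v379 && (
  let v380 := mul v379 v156; ok v380 && (
  let v381 := add v224 v380; ok v381 && (
  let v382 := add v329 v56; ok v382 && (
  let v383 := mul v0 v382; ok v383 && (
  let v384 := mul v373 v374; ok v384 && (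
  let v385 := mul v244 v383; ok v385 && (
  let v386 := mul v378 v381; ok v386 && (
  let v387 := mul v385 v386; ok v387 && (
  let v388 := sub v384 v387; ok v388 && (
  let v389 := scale ⟨549755813888, 0, 0, 0⟩ v329; ok v389 && (
  let v390 := add v0 v389; ok v390 && (
  let v391 := mul v244 v390; ok v391 && (
  let v392 := mul v3 v23; ok v392 && (
  let v393 := mul v392 v149; ok v393 && (
  let v394 := mul v24 v52; ok v394 && (
  let v395 := inv v394; ok v395 && (
  let v396 := mul v393 v395; ok v396 && (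
  let v397 := mul v391 v396; ok v397 && (
  let v398 := sub v376 v397; ok v398 && (
  let v399 := mul v152 v388; ok v399 && (
  let v400 := sub v0 v152; ok v400 && (
  let v401 := mul v12 v398; ok v401 && (
  let v402 := mul v400 v401; ok v402 && (
  let v403 := mul v373 v402; ok v403 && (
  let v404 := add v399 v403; ok v404 && (
  isPos 4 v163 && (
  isPos 4 v166 && (
  let v405 := scale ⟨2199023255552, 0, 0, 0⟩ v241; ok v405 && (
  let v406 := sub v52 v405; ok v406 && (
  isPos 4 v406 && (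
  isPos 4 v251 && (
  let v407 := sub v8 v139; ok v407 && (
  isPos 4 v407 && (
  let v408 := scale ⟨687194767360, 0, 0, 0⟩ v0; ok v408 && (
  let v409 := sub v408 v201; ok v409 && (
  isPos 4 v409 && (
  let v410 := scale ⟨377957122048, 0, 0, 0⟩ v0; ok v410 && (
  let v411 := sub v410 v197; ok v411 && (
  isPos 4 v411 && (
  isPos 4 v363 && (
  isPos 4 v259 && (
  let v412 := sub v408 v271; ok v412 && (
  isPos 4 v412 && (
  isPos 4 v366 && (
  isPos 4 v345 && (
  isPos 4 v404 && (
  isPos 4 v398 && (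
  true))))))))))))))))))))))))))))))))))))))))))))))))))))))))))))))))))))))))))))))))))))))))))))))))))))))))))))))))))))))))))))))))))))))))))))))))))))))))))))))))))))))))))))))))))))))))))))))))))))))))))))))))))))))))))))))))))))))))))))))))))))))))))))))))))))))))))))))))))))))))))))))))))))))))))))))))))))))))))))))))))))))))))))))))))))))))))))))))))))))))))))))))))))))))))))))))))))))))))))))))))))))))))))))))))))))))))))))))
  | _ => false

set_option maxRecDepth 1000000 in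
theorem chk4_eq (O : Ops) (m : List O.α)
    (h : chk4 O.cst O.add O.sub O.mul O.scale O.neg O.inv O.exp O.log O.ok O.isPos O.isLt m = true) :
    runG O 4 prog4 m = true := by
  match m, h with
  | [x0, x1, x2, x3], h => exact h

def chkB4 : List opsE.α → Bool :=
  chk4 opsE.cst opsE.add opsE.sub opsE.mul opsE.scale opsE.neg opsE.inv opsE.exp opsE.log opsE.ok opsE.isPos opsE.isLt

theorem chkB4_eq (m : List opsE.α) (h : chkB4 m = true) : runG opsE 4 prog4 m = true :=
  chk4_eq opsE m h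

def prog5 : List Op := [
  .const ⟨1099511627776, 0, 0, 0⟩,
  .mul 2 1,
  .mul 4 4,
  .mul 4 0,
  .mul 5 6,
  .mul 0 5,
  .mul 0 0,
  .mul 3 8,
  .const ⟨549755813888, 0, 0, 0⟩,
  .mul 5 7,
  .mul 0 13,
  .scale ⟨549755813888, 0, 0, 0⟩ 0,
  .mul 10 10,
  .mul 1 1,
  .sub 13 0,
  .inv 0,
  .mul 4 0,
  .scale ⟨2199023255552, 0, 0, 0⟩ 0,
  .scale ⟨2199023255552, 0, 0, 0⟩ 2,
  .sub 0 18,
  .add 0 2,
  .mul 24 5,
  .mul 20 0,
  .sub 22 0,
  .add 23 1,
  .mul 21 12,
  .mul 4 4,
  .scale ⟨10774999203840, 0, 0, 0⟩ 15,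
  .scale ⟨45768245248, 0, 0, 0⟩ 0,
  .const ⟨183207198720, 0, 0, 0⟩,
  .add 1 0,
  .mul 3 0,
  .add 23 0,
  .mul 5 0,
  .add 33 0,
  .mul 7 0,
  .scale ⟨549755813888, 0, 0, 0⟩ 0,
  .add 36 0,
  .mul 3 0,
  .mul 21 16,
  .scale ⟨2199023255552, 0, 0, 0⟩ 20,
  .add 1 0,
  .add 0 38,
  .mul 17 0,
  .add 0 43,
  .mul 27 27,
  .scale ⟨2199023255552, 0, 0, 0⟩ 0,
  .add 0 46,
  .mul 28 5,
  .sub 0 48,
  .log 5,
  .scale ⟨549755813888, 0, 0, 0⟩ 0,
  .exp 0,
  .const ⟨3298534883328, 0, 0, 0⟩,
  .inv 0,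
  .mul 54 0,
  .const ⟨2199023255552, 0, 0, 0⟩,
  .add 13 0,
  .inv 0,
  .mul 15 0,
  .mul 0 0,
  .sub 60 1,
  .mul 1 6,
  .add 62 0,
  .mul 2 0,
  .mul 4 4,
  .scale ⟨219915747328, 0, 0, 0⟩ 0,
  .mul 24 2,
  .scale ⟨549755813888, 0, 0, 0⟩ 0,
  .mul 26 2,
  .scale ⟨549755813888, 0, 0, 0⟩ 0,
  .add 2 0,
  .mul 52 22,
  .scale ⟨4398046511104, 0, 0, 0⟩ 0,
  .mul 54 48,
  .mul 0 25,
  .scale ⟨4398046511104, 0, 0, 0⟩ 0,
  .add 0 20,
  .inv 0,
  .mul 2 0,
  .mul 0 0,
  .sub 80 1,
  .mul 1 26,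
  .add 82 0,
  .mul 2 0,
  .mul 4 4,
  .scale ⟨219915747328, 0, 0, 0⟩ 0,
  .mul 13 2,
  .scale ⟨549755813888, 0, 0, 0⟩ 0,
  .sub 0 17,
  .mul 16 3,
  .scale ⟨549755813888, 0, 0, 0⟩ 0,
  .add 0 21,
  .add 3 0,
  .mul 95 25,
  .neg 0,
  .exp 0,
  .mul 98 26,
  .mul 1 0,
  .mul 100 9,
  .neg 0,
  .exp 0,
  .mul 103 9,
  .mul 1 0,
  .mul 81 86,
  .add 85 0,
  .inv 0,
  .mul 82 0,
  .mul 84 104,
  .mul 0 1,
  .sub 109 97,
  .mul 84 0,
  .mul 102 102,
  .sub 112 86,
  .mul 3 0,
  .mul 89 65,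
  .inv 71,
  .mul 1 0,
  .add 98 0,
  .mul 74 0,
  .mul 0 0,
  .inv 0,
  .mul 7 0,
  .add 13 122,
  .mul 27 0,
  .sub 124 0,
  .pos 0,
  .add 29 125,
  .inv 1,
  .mul 1 0,
  .scale ⟨549755813888, 0, 0, 0⟩ 0,
  .add 0 121,
  .inv 0,
  .mul 2 0,
  .mul 23 0,
  .scale ⟨549755813888, 0, 0, 0⟩ 0,
  .sub 134 0,
  .sub 135 2,
  .inv 0,
  .mul 2 0,
  .add 5 138,
  .mul 43 0,
  .mul 33 2,
  .mul 0 9,
  .mul 9 4,
  .pos 7,
  .mul 120 119,
  .add 125 141,
  .mul 123 126,
  .mul 0 129,
  .scale ⟨2199023255552, 0, 0, 0⟩ 0,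
  .add 101 0,
  .mul 4 0,
  .inv 0,
  .mul 7 0,
  .mul 149 0,
  .pos 64,
  .add 0 153,
  .mul 53 0,
  .sub 155 0,
  .pos 0,
  .add 55 156,
  .inv 1,
  .mul 1 0,
  .scale ⟨549755813888, 0, 0, 0⟩ 0,
  .add 0 152,
  .inv 0,
  .mul 2 0,
  .mul 10 0,
  .mul 1 165,
  .add 154 165,
  .inv 0,
  .mul 156 0,
  .scale ⟨2199023255552, 0, 0, 0⟩ 0,
  .sub 169 0,
  .sub 170 159,
  .mul 175 4,
  .mul 0 2,
  .add 149 0,
  .scale ⟨224412041216, 0, 0, 0⟩ 159,
  .inv 137,
  .mul 1 0,
  .scale ⟨4398046511104, 0, 0, 0⟩ 178,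
  .mul 178 157,
  .add 1 0,
  .inv 0,
  .mul 181 0,
  .mul 183 1,
  .mul 0 159,
  .mul 0 7,
  .mul 3 161,
  .mul 0 9,
  .sub 187 0,
  .inv 0,
  .mul 49 2,
  .sub 190 0,
  .inv 0,
  .scale ⟨2199023255552, 0, 0, 0⟩ 186,
  .add 0 193,
  .add 188 194,
  .scale ⟨1099511627776, 0, 0, 0⟩ 173,
  .add 0 196,
  .scale ⟨549755813888, 0, 0, 0⟩ 0,
  .mul 187 177,
  .sub 199 88,
  .mul 189 178,
  .scale ⟨2199023255552, 0, 0, 0⟩ 0,
  .sub 2 0,
  .mul 4 4,
  .add 1 0,
  .add 0 205,
  .scale ⟨549755813888, 0, 0, 0⟩ 0,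
  .scale ⟨549755813888, 0, 0, 0⟩ 182,
  .sub 193 0,
  .mul 97 9,
  .mul 0 196,
  .scale ⟨137438953472, 0, 0, 0⟩ 0,
  .add 3 0,
  .mul 6 0,
  .add 74 214,
  .mul 0 26,
  .mul 76 24,
  .add 1 0,
  .mul 31 0,
  .add 76 0,
  .mul 0 214,
  .mul 6 34,
  .mul 0 33,
  .add 80 0,
  .mul 0 218,
  .scale ⟨223338299392, 0, 0, 0⟩ 0,
  .add 218 0,
  .mul 2 0,
  .add 228 0,
  .scale ⟨893353197568, 0, 0, 0⟩ 8,
  .add 230 0,
  .mul 10 0,
  .add 232 0,
  .mul 64 61,
  .mul 0 40,
  .mul 0 2,
  .mul 22 7,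
  .add 185 229,
  .mul 2 0,
  .add 2 0,
  .add 188 240,
  .mul 5 0,
  .mul 47 1,
  .mul 0 71,
  .mul 0 73,
  .mul 5 103,
  .mul 1 48,
  .add 1 0,
  .mul 241 74,
  .inv 197,
  .mul 1 0,
  .scale ⟨549755813888, 0, 0, 0⟩ 0,
  .mul 229 0,
  .mul 250 5,
  .add 1 0,
  .mul 256 0,
  .mul 16 41,
  .mul 0 68,
  .mul 16 118,
  .mul 0 67,
  .add 2 0,
  .mul 238 5,
  .mul 77 1,
  .add 1 0,
  .mul 152 0,
  .mul 0 15,
  .sub 266 0,
  .inv 0,
  .mul 4 0,
  .mul 266 0,
  .mul 158 1,
  .mul 0 21,
  .sub 272 0,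
  .mul 224 0,
  .sub 0 4,
  .inv 0,
  .mul 6 0,
  .sub 225 6,
  .inv 0,
  .mul 2 116,
  .scale ⟨549755813888, 0, 0, 0⟩ 0,
  .sub 281 0,
  .sub 282 2,
  .inv 0,
  .mul 2 0,
  .mul 284 6,
  .mul 121 10,
  .mul 0 2,
  .add 2 0,
  .mul 282 20,
  .mul 11 0,
  .mul 128 15,
  .mul 0 7,
  .mul 0 23,
  .add 3 0,
  .scale ⟨223338299392, 0, 0, 0⟩ 0,
  .add 288 0,
  .mul 2 0,
  .add 298 0,
  .mul 10 0,
  .mul 0 32,
  .mul 0 40,
  .mul 116 279,
  .const ⟨7696581394432, 0, 0, 0⟩,
  .const ⟨10995116277760, 0, 0, 0⟩,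
  .inv 0,
  .mul 2 0,
  .mul 141 283,
  .mul 0 1,
  .mul 164 203,
  .mul 288 0,
  .scale ⟨549755813888, 0, 0, 0⟩ 147,
  .sub 312 0,
  .sub 313 149,
  .inv 0,
  .mul 2 0,
  .mul 0 163,
  .mul 205 195,
  .scale ⟨733097230336, 0, 0, 0⟩ 0,
  .sub 319 0,
  .mul 198 0,
  .mul 232 232,
  .mul 310 0,
  .add 2 0,
  .mul 7 159,
  .add 1 325,
  .mul 1 0,
  .sub 3 0,
  .scale ⟨366548615168, 0, 0, 0⟩ 283,
  .sub 329 0,
  .mul 304 0,
  .add 3 0,
  .mul 22 0,
  .mul 22 22,
  .add 334 0,
  .inv 0,
  .mul 3 0,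
  .sub 337 60,
  .mul 0 1,
  .sub 339 14,
  .pos 0,
  .pos 3,
  .pos 2,
  .mul 39 160,
  .mul 0 86,
  .inv 318,
  .mul 1 0,
  .mul 346 5,
  .neg 0,
  .exp 0,
  .mul 344 38,
  .add 348 0,
  .inv 0,
  .mul 3 0,
  .mul 0 331,
  .mul 343 83,
  .mul 0 10,
  .add 354 0,
  .mul 3 0,
  .mul 0 77,
  .mul 354 55,
  .mul 0 171,
  .mul 356 56,
  .mul 16 0,
  .add 2 0,
  .add 4 18,
  .add 363 1,
  .mul 7 0,
  .add 2 0,
  .sub 366 0,
  .scale ⟨1073741824, 0, 0, 0⟩ 364,
  .sub 1 0,
  .sub 349 369,
  .add 0 314,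
  .scale ⟨2199023255552, 0, 0, 0⟩ 64,
  .sub 1 0,
  .mul 207 0,
  .mul 4 2,
  .add 0 375,
  .inv 0,
  .mul 3 0,
  .mul 195 117,
  .scale ⟨549755813888, 0, 0, 0⟩ 202,
  .add 363 0,
  .mul 2 0,
  .scale ⟨2199023255552, 0, 0, 0⟩ 0,
  .add 127 0,
  .scale ⟨2199023255552, 0, 0, 0⟩ 0,
  .mul 0 117,
  .sub 362 33,
  .inv 0,
  .mul 2 0,
  .sub 11 0,
  .mul 211 211,
  .const ⟨14293651161088, 0, 0, 0⟩,
  .mul 0 86,
  .mul 2 0,
  .mul 395 395,
  .scale ⟨27487790694400, 0, 0, 0⟩ 0,
  .add 2 0,
  .mul 88 47,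
  .sub 358 395,
  .sub 0 360,
  .mul 400 399,
  .mul 0 402,
  .mul 378 141,
  .mul 0 222,
  .add 156 0,
  .add 52 349,
  .mul 406 0,
  .mul 10 9,
  .mul 140 1,
  .mul 7 4,
  .mul 1 0,
  .sub 3 0,
  .scale ⟨549755813888, 0, 0, 0⟩ 59,
  .add 413 0,
  .mul 146 0,
  .mul 412 392,
  .mul 0 242,
  .mul 393 365,
  .inv 0,
  .mul 2 0,
  .mul 5 0,
  .sub 21 0,
  .mul 245 10,
  .sub 423 246,
  .mul 412 2,
  .mul 1 0,
  .mul 29 0,
  .add 4 0,
  .pos 240,
  .pos 237,
  .scale ⟨2199023255552, 0, 0, 0⟩ 163,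
  .sub 377 0,
  .pos 0,
  .pos 155,
  .sub 422 266,
  .pos 0,
  .scale ⟨687194767360, 0, 0, 0⟩ 431,
  .sub 0 207,
  .pos 0,
  .scale ⟨377957122048, 0, 0, 0⟩ 433,
  .sub 0 213,
  .pos 0,
  .pos 48,
  .pos 152,
  .sub 3 140,
  .pos 0,
  .pos 46,
  .pos 67,
  .pos 8,
  .pos 14]

def chk5 {α : Type} (cst : Z → α) (add sub mul : α → α → α) (scale : Z → α → α)
    (neg inv exp log : α → α) (ok : α → Bool) (isPos : Nat → α → Bool) (isLt : α → Nat → Bool) :
    List α → Bool
  | [x0, x1, x2, x3] =>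
  let v0 := cst ⟨1099511627776, 0, 0, 0⟩; ok v0 && (
  let v1 := mul x1 x0; ok v1 && (
  let v2 := mul x2 x2; ok v2 && (
  let v3 := mul x1 v2; ok v3 && (
  let v4 := mul x1 x2; ok v4 && (
  let v5 := mul v4 x0; ok v5 && (
  let v6 := mul v5 v5; ok v6 && (
  let v7 := mul v3 x1; ok v7 && (
  let v8 := cst ⟨549755813888, 0, 0, 0⟩; ok v8 && (
  let v9 := mul v3 v1; ok v9 && (
  let v10 := mul v9 x3; ok v10 && (
  let v11 := scale ⟨549755813888, 0, 0, 0⟩ v10; ok v11 && (
  let v12 := mul v1 v1; ok v12 && (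
  let v13 := mul v11 v11; ok v13 && (
  let v14 := sub v0 v13; ok v14 && (
  let v15 := inv v14; ok v15 && (
  let v16 := mul v11 v15; ok v16 && (
  let v17 := scale ⟨2199023255552, 0, 0, 0⟩ v16; ok v17 && (
  let v18 := scale ⟨2199023255552, 0, 0, 0⟩ v15; ok v18 && (
  let v19 := sub v18 v0; ok v19 && (
  let v20 := add v19 v17; ok v20 && (
  let v21 := mul x3 v15; ok v21 && (
  let v22 := mul v1 v21; ok v22 && (
  let v23 := sub v0 v22; ok v23 && (
  let v24 := add v0 v22; ok v24 && (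
  let v25 := mul v3 v12; ok v25 && (
  let v26 := mul v21 v21; ok v26 && (
  let v27 := scale ⟨10774999203840, 0, 0, 0⟩ v11; ok v27 && (
  let v28 := scale ⟨45768245248, 0, 0, 0⟩ v27; ok v28 && (
  let v29 := cst ⟨183207198720, 0, 0, 0⟩; ok v29 && (
  let v30 := add v28 v29; ok v30 && (
  let v31 := mul v27 v30; ok v31 && (
  let v32 := add v8 v31; ok v32 && (
  let v33 := mul v27 v32; ok v33 && (
  let v34 := add v0 v33; ok v34 && (
  let v35 := mul v27 v34; ok v35 && (
  let v36 := scale ⟨549755813888, 0, 0, 0⟩ v35; ok v36 && (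
  let v37 := add v0 v36; ok v37 && (
  let v38 := mul v34 v37; ok v38 && (
  let v39 := mul v17 v22; ok v39 && (
  let v40 := scale ⟨2199023255552, 0, 0, 0⟩ v19; ok v40 && (
  let v41 := add v39 v40; ok v41 && (
  let v42 := add v41 v3; ok v42 && (
  let v43 := mul v25 v42; ok v43 && (
  let v44 := add v43 v0; ok v44 && (
  let v45 := mul v17 v17; ok v45 && (
  let v46 := scale ⟨2199023255552, 0, 0, 0⟩ v45; ok v46 && (
  let v47 := add v46 v0; ok v47 && (
  let v48 := mul v19 v42; ok v48 && (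
  let v49 := sub v48 v0; ok v49 && (
  let v50 := log v44; ok v50 && (
  let v51 := scale ⟨549755813888, 0, 0, 0⟩ v50; ok v51 && (
  let v52 := exp v51; ok v52 && (
  let v53 := cst ⟨3298534883328, 0, 0, 0⟩; ok v53 && (
  let v54 := inv v53; ok v54 && (
  let v55 := mul v0 v54; ok v55 && (
  let v56 := cst ⟨2199023255552, 0, 0, 0⟩; ok v56 && (
  let v57 := add v43 v56; ok v57 && (
  let v58 := inv v57; ok v58 && (
  let v59 := mul v43 v58; ok v59 && (
  let v60 := mul v59 v59; ok v60 && (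
  let v61 := sub v0 v59; ok v61 && (
  let v62 := mul v60 v55; ok v62 && (
  let v63 := add v0 v62; ok v63 && (
  let v64 := mul v61 v63; ok v64 && (
  let v65 := mul v60 v60; ok v65 && (
  let v66 := scale ⟨219915747328, 0, 0, 0⟩ v65; ok v66 && (
  let v67 := mul v42 v64; ok v67 && (
  let v68 := scale ⟨549755813888, 0, 0, 0⟩ v67; ok v68 && (
  let v69 := mul v42 v66; ok v69 && (
  let v70 := scale ⟨549755813888, 0, 0, 0⟩ v69; ok v70 && (
  let v71 := add v68 v70; ok v71 && (
  let v72 := mul v19 v49; ok v72 && (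
  let v73 := scale ⟨4398046511104, 0, 0, 0⟩ v72; ok v73 && (
  let v74 := mul v19 v25; ok v74 && (
  let v75 := mul v74 v49; ok v75 && (
  let v76 := scale ⟨4398046511104, 0, 0, 0⟩ v75; ok v76 && (
  let v77 := add v76 v56; ok v77 && (
  let v78 := inv v77; ok v78 && (
  let v79 := mul v76 v78; ok v79 && (
  let v80 := mul v79 v79; ok v80 && (
  let v81 := sub v0 v79; ok v81 && (
  let v82 := mul v80 v55; ok v82 && (
  let v83 := add v0 v82; ok v83 && (
  let v84 := mul v81 v83; ok v84 && (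
  let v85 := mul v80 v80; ok v85 && (
  let v86 := scale ⟨219915747328, 0, 0, 0⟩ v85; ok v86 && (
  let v87 := mul v73 v84; ok v87 && (
  let v88 := scale ⟨549755813888, 0, 0, 0⟩ v87; ok v88 && (
  let v89 := sub v88 v71; ok v89 && (
  let v90 := mul v73 v86; ok v90 && (
  let v91 := scale ⟨549755813888, 0, 0, 0⟩ v90; ok v91 && (
  let v92 := add v91 v70; ok v92 && (
  let v93 := add v89 v92; ok v93 && (
  let v94 := mul x1 v68; ok v94 && (
  let v95 := neg v94; ok v95 && (
  let v96 := exp v95; ok v96 && (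
  let v97 := mul x1 v70; ok v97 && (
  let v98 := mul v96 v97; ok v98 && (
  let v99 := mul x1 v89; ok v99 && (
  let v100 := neg v99; ok v100 && (
  let v101 := exp v100; ok v101 && (
  let v102 := mul x1 v92; ok v102 && (
  let v103 := mul v101 v102; ok v103 && (
  let v104 := mul v22 v17; ok v104 && (
  let v105 := add v19 v104; ok v105 && (
  let v106 := inv v105; ok v106 && (
  let v107 := mul v24 v106; ok v107 && (
  let v108 := mul v23 v3; ok v108 && (
  let v109 := mul v108 v107; ok v109 && (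
  let v110 := sub v0 v12; ok v110 && (
  let v111 := mul v26 v110; ok v111 && (
  let v112 := mul v9 v9; ok v112 && (
  let v113 := sub v0 v26; ok v113 && (
  let v114 := mul v110 v113; ok v114 && (
  let v115 := mul v25 v49; ok v115 && (
  let v116 := inv v44; ok v116 && (
  let v117 := mul v115 v116; ok v117 && (
  let v118 := add v19 v117; ok v118 && (
  let v119 := mul v44 v118; ok v119 && (
  let v120 := mul v119 v119; ok v120 && (
  let v121 := inv v120; ok v121 && (
  let v122 := mul v114 v121; ok v122 && (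
  let v123 := add v109 v0; ok v123 && (
  let v124 := mul v96 v123; ok v124 && (
  let v125 := sub v0 v124; ok v125 && (
  isPos 4 v125 && (
  let v126 := add v96 v0; ok v126 && (
  let v127 := inv v125; ok v127 && (
  let v128 := mul v126 v127; ok v128 && (
  let v129 := scale ⟨549755813888, 0, 0, 0⟩ v128; ok v129 && (
  let v130 := add v129 v8; ok v130 && (
  let v131 := inv v130; ok v131 && (
  let v132 := mul v129 v131; ok v132 && (
  let v133 := mul v109 v132; ok v133 && (
  let v134 := scale ⟨549755813888, 0, 0, 0⟩ v133; ok v134 && (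
  let v135 := sub v0 v134; ok v135 && (
  let v136 := sub v0 v133; ok v136 && (
  let v137 := inv v136; ok v137 && (
  let v138 := mul v135 v137; ok v138 && (
  let v139 := add v133 v0; ok v139 && (
  let v140 := mul v96 v139; ok v140 && (
  let v141 := mul v107 v138; ok v141 && (
  let v142 := mul v141 v132; ok v142 && (
  let v143 := mul v133 v138; ok v143 && (
  isPos 4 v136 && (
  let v144 := mul v23 v24; ok v144 && (
  let v145 := add v19 v3; ok v145 && (
  let v146 := mul v22 v19; ok v146 && (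
  let v147 := mul v146 v17; ok v147 && (
  let v148 := scale ⟨2199023255552, 0, 0, 0⟩ v147; ok v148 && (
  let v149 := add v47 v148; ok v149 && (
  let v150 := mul v145 v149; ok v150 && (
  let v151 := inv v150; ok v151 && (
  let v152 := mul v144 v151; ok v152 && (
  let v153 := mul v3 v152; ok v153 && (
  isPos 4 v89 && (
  let v154 := add v153 v0; ok v154 && (
  let v155 := mul v101 v154; ok v155 && (
  let v156 := sub v0 v155; ok v156 && (
  isPos 4 v156 && (
  let v157 := add v101 v0; ok v157 && (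
  let v158 := inv v156; ok v158 && (
  let v159 := mul v157 v158; ok v159 && (
  let v160 := scale ⟨549755813888, 0, 0, 0⟩ v159; ok v160 && (
  let v161 := add v160 v8; ok v161 && (
  let v162 := inv v161; ok v162 && (
  let v163 := mul v160 v162; ok v163 && (
  let v164 := mul v153 v163; ok v164 && (
  let v165 := mul v163 x0; ok v165 && (
  let v166 := add v11 v0; ok v166 && (
  let v167 := inv v166; ok v167 && (
  let v168 := mul v11 v167; ok v168 && (
  let v169 := scale ⟨2199023255552, 0, 0, 0⟩ v168; ok v169 && (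
  let v170 := sub v0 v169; ok v170 && (
  let v171 := sub v0 v11; ok v171 && (
  let v172 := mul x3 v167; ok v172 && (
  let v173 := mul v172 v170; ok v173 && (
  let v174 := add v24 v173; ok v174 && (
  let v175 := scale ⟨224412041216, 0, 0, 0⟩ v15; ok v175 && (
  let v176 := inv v38; ok v176 && (
  let v177 := mul v175 v176; ok v177 && (
  let v178 := scale ⟨4398046511104, 0, 0, 0⟩ x0; ok v178 && (
  let v179 := mul v0 v21; ok v179 && (
  let v180 := add v178 v179; ok v180 && (
  let v181 := inv v180; ok v181 && (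
  let v182 := mul v0 v181; ok v182 && (
  let v183 := mul x0 v181; ok v183 && (
  let v184 := mul v183 v24; ok v184 && (
  let v185 := mul v184 v177; ok v185 && (
  let v186 := mul v182 v24; ok v186 && (
  let v187 := mul v186 v177; ok v187 && (
  let v188 := sub v0 v187; ok v188 && (
  let v189 := inv v188; ok v189 && (
  let v190 := mul v140 v187; ok v190 && (
  let v191 := sub v0 v190; ok v191 && (
  let v192 := inv v191; ok v192 && (
  let v193 := scale ⟨2199023255552, 0, 0, 0⟩ v6; ok v193 && (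
  let v194 := add v193 v0; ok v194 && (
  let v195 := add v6 v0; ok v195 && (
  let v196 := scale ⟨1099511627776, 0, 0, 0⟩ v22; ok v196 && (
  let v197 := add v196 v0; ok v197 && (
  let v198 := scale ⟨549755813888, 0, 0, 0⟩ v197; ok v198 && (
  let v199 := mul v11 v21; ok v199 && (
  let v200 := sub v0 v111; ok v200 && (
  let v201 := mul v11 v22; ok v201 && (
  let v202 := scale ⟨2199023255552, 0, 0, 0⟩ v201; ok v202 && (
  let v203 := sub v200 v202; ok v203 && (
  let v204 := mul v199 v199; ok v204 && (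
  let v205 := add v203 v204; ok v205 && (
  let v206 := add v205 v0; ok v206 && (
  let v207 := scale ⟨549755813888, 0, 0, 0⟩ v206; ok v207 && (
  let v208 := scale ⟨549755813888, 0, 0, 0⟩ v25; ok v208 && (
  let v209 := sub v15 v208; ok v209 && (
  let v210 := mul v112 v200; ok v210 && (
  let v211 := mul v210 v14; ok v211 && (
  let v212 := scale ⟨137438953472, 0, 0, 0⟩ v211; ok v212 && (
  let v213 := add v209 v212; ok v213 && (
  let v214 := mul v207 v213; ok v214 && (
  let v215 := add v140 v0; ok v215 && (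
  let v216 := mul v215 v189; ok v216 && (
  let v217 := mul v140 v192; ok v217 && (
  let v218 := add v216 v217; ok v218 && (
  let v219 := mul v187 v218; ok v219 && (
  let v220 := add v143 v219; ok v220 && (
  let v221 := mul v220 v6; ok v221 && (
  let v222 := mul v215 v187; ok v222 && (
  let v223 := mul v222 v189; ok v223 && (
  let v224 := add v143 v223; ok v224 && (
  let v225 := mul v224 v6; ok v225 && (
  let v226 := scale ⟨223338299392, 0, 0, 0⟩ v225; ok v226 && (
  let v227 := add v8 v226; ok v227 && (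
  let v228 := mul v225 v227; ok v228 && (
  let v229 := add v0 v228; ok v229 && (
  let v230 := scale ⟨893353197568, 0, 0, 0⟩ v221; ok v230 && (
  let v231 := add v0 v230; ok v231 && (
  let v232 := mul v221 v231; ok v232 && (
  let v233 := add v0 v232; ok v233 && (
  let v234 := mul v169 v172; ok v234 && (
  let v235 := mul v234 v194; ok v235 && (
  let v236 := mul v235 v233; ok v236 && (
  let v237 := mul v214 v229; ok v237 && (
  let v238 := add v52 v8; ok v238 && (
  let v239 := mul v236 v238; ok v239 && (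
  let v240 := add v237 v239; ok v240 && (
  let v241 := add v52 v0; ok v241 && (
  let v242 := mul v236 v241; ok v242 && (
  let v243 := mul v195 v241; ok v243 && (
  let v244 := mul v243 v172; ok v244 && (
  let v245 := mul v244 v171; ok v245 && (
  let v246 := mul v240 v142; ok v246 && (
  let v247 := mul v245 v198; ok v247 && (
  let v248 := add v246 v247; ok v248 && (
  let v249 := mul v7 v174; ok v249 && (
  let v250 := inv v52; ok v250 && (
  let v251 := mul v249 v250; ok v251 && (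
  let v252 := scale ⟨549755813888, 0, 0, 0⟩ v251; ok v252 && (
  let v253 := mul v23 v252; ok v253 && (
  let v254 := mul v3 v248; ok v254 && (
  let v255 := add v253 v254; ok v255 && (
  let v256 := mul x0 v255; ok v256 && (
  let v257 := mul v240 v215; ok v257 && (
  let v258 := mul v257 v189; ok v258 && (
  let v259 := mul v242 v140; ok v259 && (
  let v260 := mul v259 v192; ok v260 && (
  let v261 := add v258 v260; ok v261 && (
  let v262 := mul v23 v256; ok v262 && (
  let v263 := mul v185 v261; ok v263 && (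
  let v264 := add v262 v263; ok v264 && (
  let v265 := mul v112 v264; ok v265 && (
  let v266 := mul v265 v250; ok v266 && (
  let v267 := sub v0 v266; ok v267 && (
  let v268 := inv v267; ok v268 && (
  let v269 := mul v264 v268; ok v269 && (
  let v270 := mul v3 v269; ok v270 && (
  let v271 := mul v112 v269; ok v271 && (
  let v272 := mul v271 v250; ok v272 && (
  let v273 := sub v0 v272; ok v273 && (
  let v274 := mul v49 v273; ok v274 && (
  let v275 := sub v274 v270; ok v275 && (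
  let v276 := inv v275; ok v276 && (
  let v277 := mul v270 v276; ok v277 && (
  let v278 := sub v52 v271; ok v278 && (
  let v279 := inv v278; ok v279 && (
  let v280 := mul v277 v163; ok v280 && (
  let v281 := scale ⟨549755813888, 0, 0, 0⟩ v280; ok v281 && (
  let v282 := sub v0 v281; ok v282 && (
  let v283 := sub v0 v280; ok v283 && (
  let v284 := inv v283; ok v284 && (
  let v285 := mul v282 v284; ok v285 && (
  let v286 := mul v1 v279; ok v286 && (
  let v287 := mul v165 v276; ok v287 && (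
  let v288 := mul v287 v285; ok v288 && (
  let v289 := add v286 v288; ok v289 && (
  let v290 := mul v7 v269; ok v290 && (
  let v291 := mul v279 v290; ok v291 && (
  let v292 := mul v163 v276; ok v292 && (
  let v293 := mul v292 v285; ok v293 && (
  let v294 := mul v293 v270; ok v294 && (
  let v295 := add v291 v294; ok v295 && (
  let v296 := scale ⟨223338299392, 0, 0, 0⟩ v295; ok v296 && (
  let v297 := add v8 v296; ok v297 && (
  let v298 := mul v295 v297; ok v298 && (
  let v299 := add v0 v298; ok v299 && (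
  let v300 := mul v289 v299; ok v300 && (
  let v301 := mul v300 v268; ok v301 && (
  let v302 := mul v301 v261; ok v302 && (
  let v303 := mul v186 v23; ok v303 && (
  let v304 := cst ⟨7696581394432, 0, 0, 0⟩; ok v304 && (
  let v305 := cst ⟨10995116277760, 0, 0, 0⟩; ok v305 && (
  let v306 := inv v305; ok v306 && (
  let v307 := mul v304 v306; ok v307 && (
  let v308 := mul v166 v24; ok v308 && (
  let v309 := mul v308 v307; ok v309 && (
  let v310 := mul v145 v106; ok v310 && (
  let v311 := mul v22 v310; ok v311 && (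
  let v312 := scale ⟨549755813888, 0, 0, 0⟩ v164; ok v312 && (
  let v313 := sub v0 v312; ok v313 && (
  let v314 := sub v0 v164; ok v314 && (
  let v315 := inv v314; ok v315 && (
  let v316 := mul v313 v315; ok v316 && (
  let v317 := mul v316 v153; ok v317 && (
  let v318 := mul v112 v122; ok v318 && (
  let v319 := scale ⟨733097230336, 0, 0, 0⟩ v318; ok v319 && (
  let v320 := sub v0 v319; ok v320 && (
  let v321 := mul v122 v320; ok v321 && (
  let v322 := mul v89 v89; ok v322 && (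
  let v323 := mul v12 v322; ok v323 && (
  let v324 := add v321 v323; ok v324 && (
  let v325 := mul v317 v165; ok v325 && (
  let v326 := add v324 v0; ok v326 && (
  let v327 := mul v325 v326; ok v327 && (
  let v328 := sub v324 v327; ok v328 && (
  let v329 := scale ⟨366548615168, 0, 0, 0⟩ v45; ok v329 && (
  let v330 := sub v0 v329; ok v330 && (
  let v331 := mul v26 v330; ok v331 && (
  let v332 := add v328 v331; ok v332 && (
  let v333 := mul v310 v332; ok v333 && (
  let v334 := mul v311 v311; ok v334 && (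
  let v335 := add v0 v334; ok v335 && (
  let v336 := inv v335; ok v336 && (
  let v337 := mul v333 v336; ok v337 && (
  let v338 := sub v0 v277; ok v338 && (
  let v339 := mul v338 v337; ok v339 && (
  let v340 := sub v0 v325; ok v340 && (
  isPos 4 v340 && (
  isPos 4 v337 && (
  isPos 4 v338 && (
  let v341 := mul v301 v180; ok v341 && (
  let v342 := mul v341 v255; ok v342 && (
  let v343 := inv v24; ok v343 && (
  let v344 := mul v342 v343; ok v344 && (
  let v345 := mul x1 v339; ok v345 && (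
  let v346 := neg v345; ok v346 && (
  let v347 := exp v346; ok v347 && (
  let v348 := mul v3 v309; ok v348 && (
  let v349 := add v0 v348; ok v349 && (
  let v350 := inv v349; ok v350 && (
  let v351 := mul v347 v350; ok v351 && (
  let v352 := mul v351 v20; ok v352 && (
  let v353 := mul v9 v269; ok v353 && (
  let v354 := mul v353 v343; ok v354 && (
  let v355 := add v0 v354; ok v355 && (
  let v356 := mul v352 v355; ok v356 && (
  let v357 := mul v356 v279; ok v357 && (
  let v358 := mul v3 v302; ok v358 && (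
  let v359 := mul v358 v187; ok v359 && (
  let v360 := mul v3 v303; ok v360 && (
  let v361 := mul v344 v360; ok v361 && (
  let v362 := add v359 v361; ok v362 && (
  let v363 := add v358 v344; ok v363 && (
  let v364 := add v0 v362; ok v364 && (
  let v365 := mul v357 v364; ok v365 && (
  let v366 := add v363 v365; ok v366 && (
  let v367 := sub v0 v366; ok v367 && (
  let v368 := scale ⟨1073741824, 0, 0, 0⟩ v3; ok v368 && (
  let v369 := sub v367 v368; ok v369 && (
  let v370 := sub v20 v0; ok v370 && (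
  let v371 := add v370 v56; ok v371 && (
  let v372 := scale ⟨2199023255552, 0, 0, 0⟩ v307; ok v372 && (
  let v373 := sub v371 v372; ok v373 && (
  let v374 := mul v166 v373; ok v374 && (
  let v375 := mul v370 v372; ok v375 && (
  let v376 := add v375 v0; ok v376 && (
  let v377 := inv v376; ok v377 && (
  let v378 := mul v374 v377; ok v378 && (
  let v379 := mul v183 v261; ok v379 && (
  let v380 := scale ⟨549755813888, 0, 0, 0⟩ v177; ok v380 && (
  let v381 := add v17 v380; ok v381 && (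
  let v382 := mul v379 v381; ok v382 && (
  let v383 := scale ⟨2199023255552, 0, 0, 0⟩ v382; ok v383 && (
  let v384 := add v256 v383; ok v384 && (
  let v385 := scale ⟨2199023255552, 0, 0, 0⟩ v384; ok v385 && (
  let v386 := mul v385 v268; ok v386 && (
  let v387 := sub v24 v353; ok v387 && (
  let v388 := inv v387; ok v388 && (
  let v389 := mul v386 v388; ok v389 && (
  let v390 := sub v378 v389; ok v390 && (
  let v391 := mul v179 v179; ok v391 && (
  let v392 := cst ⟨14293651161088, 0, 0, 0⟩; ok v392 && (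
  let v393 := mul v392 v306; ok v393 && (
  let v394 := mul v391 v393; ok v394 && (
  let v395 := mul x0 x0; ok v395 && (
  let v396 := scale ⟨27487790694400, 0, 0, 0⟩ v395; ok v396 && (
  let v397 := add v394 v396; ok v397 && (
  let v398 := mul v309 v350; ok v398 && (
  let v399 := sub v40 v3; ok v399 && (
  let v400 := sub v399 v39; ok v400 && (
  let v401 := mul v0 v1; ok v401 && (
  let v402 := mul v401 x0; ok v402 && (
  let v403 := mul v24 v261; ok v403 && (
  let v404 := mul v403 v181; ok v404 && (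
  let v405 := add v248 v404; ok v405 && (
  let v406 := add v353 v56; ok v406 && (
  let v407 := mul v0 v406; ok v407 && (
  let v408 := mul v397 v398; ok v408 && (
  let v409 := mul v268 v407; ok v409 && (
  let v410 := mul v402 v405; ok v410 && (
  let v411 := mul v409 v410; ok v411 && (
  let v412 := sub v408 v411; ok v412 && (
  let v413 := scale ⟨549755813888, 0, 0, 0⟩ v353; ok v413 && (
  let v414 := add v0 v413; ok v414 && (
  let v415 := mul v268 v414; ok v415 && (
  let v416 := mul v3 v23; ok v416 && (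
  let v417 := mul v416 v174; ok v417 && (
  let v418 := mul v24 v52; ok v418 && (
  let v419 := inv v418; ok v419 && (
  let v420 := mul v417 v419; ok v420 && (
  let v421 := mul v415 v420; ok v421 && (
  let v422 := sub v400 v421; ok v422 && (
  let v423 := mul v177 v412; ok v423 && (
  let v424 := sub v0 v177; ok v424 && (
  let v425 := mul v12 v422; ok v425 && (
  let v426 := mul v424 v425; ok v426 && (
  let v427 := mul v397 v426; ok v427 && (
  let v428 := add v423 v427; ok v428 && (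
  isPos 4 v188 && (
  isPos 4 v191 && (
  let v429 := scale ⟨2199023255552, 0, 0, 0⟩ v265; ok v429 && (
  let v430 := sub v52 v429; ok v430 && (
  isPos 4 v430 && (
  isPos 4 v275 && (
  let v431 := sub v8 v164; ok v431 && (
  isPos 4 v431 && (
  let v432 := scale ⟨687194767360, 0, 0, 0⟩ v0; ok v432 && (
  let v433 := sub v432 v225; ok v433 && (
  isPos 4 v433 && (
  let v434 := scale ⟨377957122048, 0, 0, 0⟩ v0; ok v434 && (
  let v435 := sub v434 v221; ok v435 && (
  isPos 4 v435 && (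
  isPos 4 v387 && (
  isPos 4 v283 && (
  let v436 := sub v432 v295; ok v436 && (
  isPos 4 v436 && (
  isPos 4 v390 && (
  isPos 4 v369 && (
  isPos 4 v428 && (
  isPos 4 v422 && (
  true))))))))))))))))))))))))))))))))))))))))))))))))))))))))))))))))))))))))))))))))))))))))))))))))))))))))))))))))))))))))))))))))))))))))))))))))))))))))))))))))))))))))))))))))))))))))))))))))))))))))))))))))))))))))))))))))))))))))))))))))))))))))))))))))))))))))))))))))))))))))))))))))))))))))))))))))))))))))))))))))))))))))))))))))))))))))))))))))))))))))))))))))))))))))))))))))))))))))))))))))))))))))))))))))))))))))))))))))))))))))))))))))))))))))))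
  | _ => false

set_option maxRecDepth 1000000 in
theorem chk5_eq (O : Ops) (m : List O.α)
    (h : chk5 O.cst O.add O.sub O.mul O.scale O.neg O.inv O.exp O.log O.ok O.isPos O.isLt m = true) :
    runG O 4 prog5 m = true := by
  match m, h with
  | [x0, x1, x2, x3], h => exact h

def chkB5 : List opsE.α → Bool :=
  chk5 opsE.cst opsE.add opsE.sub opsE.mul opsE.scale opsE.neg opsE.inv opsE.exp opsE.log opsE.ok opsE.isPos opsE.isLt

theorem chkB5_eq (m : List opsE.α) (h : chkB5 m = true) : runG opsE 4 prog5 m = true :=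
  chk5_eq opsE m h

def prog6 : List Op := [
  .const ⟨1099511627776, 0, 0, 0⟩,
  .mul 2 1,
  .mul 4 4,
  .mul 4 0,
  .mul 5 6,
  .mul 0 5,
  .mul 0 0,
  .mul 3 8,
  .const ⟨549755813888, 0, 0, 0⟩,
  .mul 5 7,
  .mul 0 13,
  .scale ⟨549755813888, 0, 0, 0⟩ 0,
  .mul 10 10,
  .mul 1 1,
  .sub 13 0,
  .inv 0,
  .mul 4 0,
  .scale ⟨2199023255552, 0, 0, 0⟩ 0,
  .scale ⟨2199023255552, 0, 0, 0⟩ 2,
  .sub 0 18,
  .add 0 2,
  .mul 24 5,
  .mul 20 0,
  .sub 22 0,
  .add 23 1,
  .mul 21 12,
  .mul 4 4,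
  .mul 19 0,
  .scale ⟨1979979923456, 0, 0, 0⟩ 22,
  .const ⟨1524444954624, 0, 0, 0⟩,
  .add 1 0,
  .sub 3 0,
  .pos 0]

def chk6 {α : Type} (cst : Z → α) (add sub mul : α → α → α) (scale : Z → α → α)
    (neg inv exp log : α → α) (ok : α → Bool) (isPos : Nat → α → Bool) (isLt : α → Nat → Bool) :
    List α → Bool
  | [x0, x1, x2, x3] =>
  let v0 := cst ⟨1099511627776, 0, 0, 0⟩; ok v0 && (
  let v1 := mul x1 x0; ok v1 && (
  let v2 := mul x2 x2; ok v2 && (
  let v3 := mul x1 v2; ok v3 && (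
  let v4 := mul x1 x2; ok v4 && (
  let v5 := mul v4 x0; ok v5 && (
  let v6 := mul v5 v5; ok v6 && (
  let v7 := mul v3 x1; ok v7 && (
  let v8 := cst ⟨549755813888, 0, 0, 0⟩; ok v8 && (
  let v9 := mul v3 v1; ok v9 && (
  let v10 := mul v9 x3; ok v10 && (
  let v11 := scale ⟨549755813888, 0, 0, 0⟩ v10; ok v11 && (
  let v12 := mul v1 v1; ok v12 && (
  let v13 := mul v11 v11; ok v13 && (
  let v14 := sub v0 v13; ok v14 && (
  let v15 := inv v14; ok v15 && (
  let v16 := mul v11 v15; ok v16 && (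
  let v17 := scale ⟨2199023255552, 0, 0, 0⟩ v16; ok v17 && (
  let v18 := scale ⟨2199023255552, 0, 0, 0⟩ v15; ok v18 && (
  let v19 := sub v18 v0; ok v19 && (
  let v20 := add v19 v17; ok v20 && (
  let v21 := mul x3 v15; ok v21 && (
  let v22 := mul v1 v21; ok v22 && (
  let v23 := sub v0 v22; ok v23 && (
  let v24 := add v0 v22; ok v24 && (
  let v25 := mul v3 v12; ok v25 && (
  let v26 := mul v21 v21; ok v26 && (
  let v27 := mul v7 v26; ok v27 && (
  let v28 := scale ⟨1979979923456, 0, 0, 0⟩ v5; ok v28 && (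
  let v29 := cst ⟨1524444954624, 0, 0, 0⟩; ok v29 && (
  let v30 := add v28 v29; ok v30 && (
  let v31 := sub v27 v30; ok v31 && (
  isPos 4 v31 && (
  true)))))))))))))))))))))))))))))))))
  | _ => false

set_option maxRecDepth 1000000 in
theorem chk6_eq (O : Ops) (m : List O.α)
    (h : chk6 O.cst O.add O.sub O.mul O.scale O.neg O.inv O.exp O.log O.ok O.isPos O.isLt m = true) :
    runG O 4 prog6 m = true := by
  match m, h with
  | [x0, x1, x2, x3], h => exact h

def chkB6 : List opsE.α → Bool :=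
  chk6 opsE.cst opsE.add opsE.sub opsE.mul opsE.scale opsE.neg opsE.inv opsE.exp opsE.log opsE.ok opsE.isPos opsE.isLt

theorem chkB6_eq (m : List opsE.α) (h : chkB6 m = true) : runG opsE 4 prog6 m = true :=
  chk6_eq opsE m h

def prog7 : List Op := [
  .const ⟨1099511627776, 0, 0, 0⟩,
  .mul 2 1,
  .mul 4 4,
  .mul 4 0,
  .mul 5 6,
  .mul 0 5,
  .mul 0 0,
  .mul 3 8,
  .const ⟨549755813888, 0, 0, 0⟩,
  .mul 5 7,
  .mul 0 13,
  .scale ⟨549755813888, 0, 0, 0⟩ 0,
  .mul 10 10,
  .mul 1 1,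
  .sub 13 0,
  .inv 0,
  .mul 4 0,
  .scale ⟨2199023255552, 0, 0, 0⟩ 0,
  .scale ⟨2199023255552, 0, 0, 0⟩ 2,
  .sub 0 18,
  .add 0 2,
  .mul 24 5,
  .mul 20 0,
  .sub 22 0,
  .add 23 1,
  .mul 21 12,
  .mul 4 4,
  .scale ⟨10774999203840, 0, 0, 0⟩ 15,
  .scale ⟨45768245248, 0, 0, 0⟩ 0,
  .const ⟨183207198720, 0, 0, 0⟩,
  .add 1 0,
  .mul 3 0,
  .add 23 0,
  .mul 5 0,
  .add 33 0,
  .mul 7 0,
  .scale ⟨549755813888, 0, 0, 0⟩ 0,
  .add 36 0,
  .mul 3 0,
  .scale ⟨224412041216, 0, 0, 0⟩ 23,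
  .inv 1,
  .mul 1 0,
  .sub 38 24,
  .sub 0 1,
  .pos 0]

def chk7 {α : Type} (cst : Z → α) (add sub mul : α → α → α) (scale : Z → α → α)
    (neg inv exp log : α → α) (ok : α → Bool) (isPos : Nat → α → Bool) (isLt : α → Nat → Bool) :
    List α → Bool
  | [x0, x1, x2, x3] =>
  let v0 := cst ⟨1099511627776, 0, 0, 0⟩; ok v0 && (
  let v1 := mul x1 x0; ok v1 && (
  let v2 := mul x2 x2; ok v2 && (
  let v3 := mul x1 v2; ok v3 && (
  let v4 := mul x1 x2; ok v4 && (
  let v5 := mul v4 x0; ok v5 && (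
  let v6 := mul v5 v5; ok v6 && (
  let v7 := mul v3 x1; ok v7 && (
  let v8 := cst ⟨549755813888, 0, 0, 0⟩; ok v8 && (
  let v9 := mul v3 v1; ok v9 && (
  let v10 := mul v9 x3; ok v10 && (
  let v11 := scale ⟨549755813888, 0, 0, 0⟩ v10; ok v11 && (
  let v12 := mul v1 v1; ok v12 && (
  let v13 := mul v11 v11; ok v13 && (
  let v14 := sub v0 v13; ok v14 && (
  let v15 := inv v14; ok v15 && (
  let v16 := mul v11 v15; ok v16 && (
  let v17 := scale ⟨2199023255552, 0, 0, 0⟩ v16; ok v17 && (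
  let v18 := scale ⟨2199023255552, 0, 0, 0⟩ v15; ok v18 && (
  let v19 := sub v18 v0; ok v19 && (
  let v20 := add v19 v17; ok v20 && (
  let v21 := mul x3 v15; ok v21 && (
  let v22 := mul v1 v21; ok v22 && (
  let v23 := sub v0 v22; ok v23 && (
  let v24 := add v0 v22; ok v24 && (
  let v25 := mul v3 v12; ok v25 && (
  let v26 := mul v21 v21; ok v26 && (
  let v27 := scale ⟨10774999203840, 0, 0, 0⟩ v11; ok v27 && (
  let v28 := scale ⟨45768245248, 0, 0, 0⟩ v27; ok v28 && (
  let v29 := cst ⟨183207198720, 0, 0, 0⟩; ok v29 && (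
  let v30 := add v28 v29; ok v30 && (
  let v31 := mul v27 v30; ok v31 && (
  let v32 := add v8 v31; ok v32 && (
  let v33 := mul v27 v32; ok v33 && (
  let v34 := add v0 v33; ok v34 && (
  let v35 := mul v27 v34; ok v35 && (
  let v36 := scale ⟨549755813888, 0, 0, 0⟩ v35; ok v36 && (
  let v37 := add v0 v36; ok v37 && (
  let v38 := mul v34 v37; ok v38 && (
  let v39 := scale ⟨224412041216, 0, 0, 0⟩ v15; ok v39 && (
  let v40 := inv v38; ok v40 && (
  let v41 := mul v39 v40; ok v41 && (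
  let v42 := sub v3 v17; ok v42 && (
  let v43 := sub v42 v41; ok v43 && (
  isPos 4 v43 && (
  true)))))))))))))))))))))))))))))))))))))))))))))
  | _ => false

set_option maxRecDepth 1000000 in
theorem chk7_eq (O : Ops) (m : List O.α)
    (h : chk7 O.cst O.add O.sub O.mul O.scale O.neg O.inv O.exp O.log O.ok O.isPos O.isLt m = true) :
    runG O 4 prog7 m = true := by
  match m, h with
  | [x0, x1, x2, x3], h => exact h

def chkB7 : List opsE.α → Bool :=
  chk7 opsE.cst opsE.add opsE.sub opsE.mul opsE.scale opsE.neg opsE.inv opsE.exp opsE.log opsE.ok opsE.isPos opsE.isLt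

theorem chkB7_eq (m : List opsE.α) (h : chkB7 m = true) : runG opsE 4 prog7 m = true :=
  chk7_eq opsE m h

def prog8 : List Op := [
  .const ⟨1099511627776, 0, 0, 0⟩,
  .mul 2 1,
  .mul 4 4,
  .mul 4 0,
  .mul 5 6,
  .mul 0 5,
  .mul 0 0,
  .mul 3 8,
  .const ⟨549755813888, 0, 0, 0⟩,
  .mul 5 7,
  .mul 0 13,
  .scale ⟨549755813888, 0, 0, 0⟩ 0,
  .mul 10 10,
  .mul 1 1,
  .sub 13 0,
  .inv 0,
  .mul 4 0,
  .scale ⟨2199023255552, 0, 0, 0⟩ 0,
  .scale ⟨2199023255552, 0, 0, 0⟩ 2,
  .sub 0 18,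
  .add 0 2,
  .mul 24 5,
  .mul 20 0,
  .sub 22 0,
  .add 23 1,
  .mul 21 12,
  .mul 4 4,
  .scale ⟨2199023255552, 0, 0, 0⟩ 7,
  .sub 0 24,
  .mul 11 6,
  .sub 1 0,
  .mul 30 9,
  .mul 0 0,
  .const ⟨14293651161088, 0, 0, 0⟩,
  .const ⟨10995116277760, 0, 0, 0⟩,
  .inv 0,
  .mul 2 0,
  .mul 4 0,
  .mul 38 38,
  .scale ⟨27487790694400, 0, 0, 0⟩ 0,
  .add 2 0,
  .mul 40 40,
  .mul 18 17,
  .mul 1 0,
  .mul 40 20,
  .sub 44 0,
  .mul 20 15,
  .sub 46 0,
  .mul 2 0,
  .mul 8 0,
  .sub 6 0,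
  .pos 0]

def chk8 {α : Type} (cst : Z → α) (add sub mul : α → α → α) (scale : Z → α → α)
    (neg inv exp log : α → α) (ok : α → Bool) (isPos : Nat → α → Bool) (isLt : α → Nat → Bool) :
    List α → Bool
  | [x0, x1, x2, x3] =>
  let v0 := cst ⟨1099511627776, 0, 0, 0⟩; ok v0 && (
  let v1 := mul x1 x0; ok v1 && (
  let v2 := mul x2 x2; ok v2 && (
  let v3 := mul x1 v2; ok v3 && (
  let v4 := mul x1 x2; ok v4 && (
  let v5 := mul v4 x0; ok v5 && (
  let v6 := mul v5 v5; ok v6 && (
  let v7 := mul v3 x1; ok v7 && (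
  let v8 := cst ⟨549755813888, 0, 0, 0⟩; ok v8 && (
  let v9 := mul v3 v1; ok v9 && (
  let v10 := mul v9 x3; ok v10 && (
  let v11 := scale ⟨549755813888, 0, 0, 0⟩ v10; ok v11 && (
  let v12 := mul v1 v1; ok v12 && (
  let v13 := mul v11 v11; ok v13 && (
  let v14 := sub v0 v13; ok v14 && (
  let v15 := inv v14; ok v15 && (
  let v16 := mul v11 v15; ok v16 && (
  let v17 := scale ⟨2199023255552, 0, 0, 0⟩ v16; ok v17 && (
  let v18 := scale ⟨2199023255552, 0, 0, 0⟩ v15; ok v18 && (
  let v19 := sub v18 v0; ok v19 && (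
  let v20 := add v19 v17; ok v20 && (
  let v21 := mul x3 v15; ok v21 && (
  let v22 := mul v1 v21; ok v22 && (
  let v23 := sub v0 v22; ok v23 && (
  let v24 := add v0 v22; ok v24 && (
  let v25 := mul v3 v12; ok v25 && (
  let v26 := mul v21 v21; ok v26 && (
  let v27 := scale ⟨2199023255552, 0, 0, 0⟩ v19; ok v27 && (
  let v28 := sub v27 v3; ok v28 && (
  let v29 := mul v17 v22; ok v29 && (
  let v30 := sub v28 v29; ok v30 && (
  let v31 := mul v0 v21; ok v31 && (
  let v32 := mul v31 v31; ok v32 && (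
  let v33 := cst ⟨14293651161088, 0, 0, 0⟩; ok v33 && (
  let v34 := cst ⟨10995116277760, 0, 0, 0⟩; ok v34 && (
  let v35 := inv v34; ok v35 && (
  let v36 := mul v33 v35; ok v36 && (
  let v37 := mul v32 v36; ok v37 && (
  let v38 := mul x0 x0; ok v38 && (
  let v39 := scale ⟨27487790694400, 0, 0, 0⟩ v38; ok v39 && (
  let v40 := add v37 v39; ok v40 && (
  let v41 := mul v0 v0; ok v41 && (
  let v42 := mul v23 v24; ok v42 && (
  let v43 := mul v41 v42; ok v43 && (
  let v44 := mul v3 v23; ok v44 && (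
  let v45 := sub v0 v44; ok v45 && (
  let v46 := mul v25 v30; ok v46 && (
  let v47 := sub v0 v46; ok v47 && (
  let v48 := mul v45 v47; ok v48 && (
  let v49 := mul v40 v48; ok v49 && (
  let v50 := sub v43 v49; ok v50 && (
  isPos 4 v50 && (
  true))))))))))))))))))))))))))))))))))))))))))))))))))))
  | _ => false

set_option maxRecDepth 1000000 in
theorem chk8_eq (O : Ops) (m : List O.α)
    (h : chk8 O.cst O.add O.sub O.mul O.scale O.neg O.inv O.exp O.log O.ok O.isPos O.isLt m = true) :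
    runG O 4 prog8 m = true := by
  match m, h with
  | [x0, x1, x2, x3], h => exact h

def chkB8 : List opsE.α → Bool :=
  chk8 opsE.cst opsE.add opsE.sub opsE.mul opsE.scale opsE.neg opsE.inv opsE.exp opsE.log opsE.ok opsE.isPos opsE.isLt

theorem chkB8_eq (m : List opsE.α) (h : chkB8 m = true) : runG opsE 4 prog8 m = true :=
  chk8_eq opsE m h

def prog9 : List Op := [
  .const ⟨1099511627776, 0, 0, 0⟩,
  .mul 2 1,
  .mul 4 4,
  .mul 4 0,
  .mul 5 6,
  .mul 0 5,
  .mul 0 0,
  .mul 3 8,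
  .const ⟨10995367936, 0, 0, 0⟩,
  .sub 2 0,
  .pos 0]

def chk9 {α : Type} (cst : Z → α) (add sub mul : α → α → α) (scale : Z → α → α)
    (neg inv exp log : α → α) (ok : α → Bool) (isPos : Nat → α → Bool) (isLt : α → Nat → Bool) :
    List α → Bool
  | [x0, x1, x2, x3] =>
  let v0 := cst ⟨1099511627776, 0, 0, 0⟩; ok v0 && (
  let v1 := mul x1 x0; ok v1 && (
  let v2 := mul x2 x2; ok v2 && (
  let v3 := mul x1 v2; ok v3 && (
  let v4 := mul x1 x2; ok v4 && (
  let v5 := mul v4 x0; ok v5 && (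
  let v6 := mul v5 v5; ok v6 && (
  let v7 := mul v3 x1; ok v7 && (
  let v8 := cst ⟨10995367936, 0, 0, 0⟩; ok v8 && (
  let v9 := sub v6 v8; ok v9 && (
  isPos 4 v9 && (
  true)))))))))))
  | _ => false

set_option maxRecDepth 1000000 in
theorem chk9_eq (O : Ops) (m : List O.α)
    (h : chk9 O.cst O.add O.sub O.mul O.scale O.neg O.inv O.exp O.log O.ok O.isPos O.isLt m = true) :
    runG O 4 prog9 m = true := by
  match m, h with
  | [x0, x1, x2, x3], h => exact h

def chkB9 : List opsE.α → Bool :=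
  chk9 opsE.cst opsE.add opsE.sub opsE.mul opsE.scale opsE.neg opsE.inv opsE.exp opsE.log opsE.ok opsE.isPos opsE.isLt

theorem chkB9_eq (m : List opsE.α) (h : chkB9 m = true) : runG opsE 4 prog9 m = true :=
  chk9_eq opsE m h

def prog10 : List Op := [
  .const ⟨1099511627776, 0, 0, 0⟩,
  .mul 2 1,
  .mul 4 4,
  .mul 4 0,
  .mul 5 6,
  .mul 0 5,
  .mul 0 0,
  .mul 3 8,
  .sub 6 7,
  .pos 0]

def chk10 {α : Type} (cst : Z → α) (add sub mul : α → α → α) (scale : Z → α → α)
    (neg inv exp log : α → α) (ok : α → Bool) (isPos : Nat → α → Bool) (isLt : α → Nat → Bool) :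
    List α → Bool
  | [x0, x1, x2, x3] =>
  let v0 := cst ⟨1099511627776, 0, 0, 0⟩; ok v0 && (
  let v1 := mul x1 x0; ok v1 && (
  let v2 := mul x2 x2; ok v2 && (
  let v3 := mul x1 v2; ok v3 && (
  let v4 := mul x1 x2; ok v4 && (
  let v5 := mul v4 x0; ok v5 && (
  let v6 := mul v5 v5; ok v6 && (
  let v7 := mul v3 x1; ok v7 && (
  let v8 := sub v1 v0; ok v8 && (
  isPos 4 v8 && (
  true))))))))))
  | _ => false

set_option maxRecDepth 1000000 in
theorem chk10_eq (O : Ops) (m : List O.α)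
    (h : chk10 O.cst O.add O.sub O.mul O.scale O.neg O.inv O.exp O.log O.ok O.isPos O.isLt m = true) :
    runG O 4 prog10 m = true := by
  match m, h with
  | [x0, x1, x2, x3], h => exact h

def chkB10 : List opsE.α → Bool :=
  chk10 opsE.cst opsE.add opsE.sub opsE.mul opsE.scale opsE.neg opsE.inv opsE.exp opsE.log opsE.ok opsE.isPos opsE.isLt

theorem chkB10_eq (m : List opsE.α) (h : chkB10 m = true) : runG opsE 4 prog10 m = true :=
  chk10_eq opsE m h

def progs : List (List Op) := [prog0, prog1, prog2, prog3, prog4, prog5, prog6, prog7, prog8, prog9, prog10]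

def chks : List (List opsE.α → Bool) := [chkB0, chkB1, chkB2, chkB3, chkB4, chkB5, chkB6, chkB7, chkB8, chkB9, chkB10]

theorem chks_eq : List.Forall₂ (fun (ops : List Op) (chk : List opsE.α → Bool) =>
    ∀ m, chk m = true → runG opsE 4 ops m = true) progs chks :=
  List.Forall₂.cons chkB0_eq (List.Forall₂.cons chkB1_eq (List.Forall₂.cons chkB2_eq (List.Forall₂.cons chkB3_eq (List.Forall₂.cons chkB4_eq (List.Forall₂.cons chkB5_eq (List.Forall₂.cons chkB6_eq (List.Forall₂.cons chkB7_eq (List.Forall₂.cons chkB8_eq (List.Forall₂.cons chkB9_eq (List.Forall₂.cons chkB10_eq List.Forall₂.nil))))))))))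

end Pool.Agent.helper71.FJ.Crt.QMb
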