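import Pool.Agent.helper31.IC.EngD
import Pool.Agent.helper14.QF.Inst

/-!
Generated: straight line program(s) and compiled form(s).
-/

namespace Pool.Agent.helper71.FJ.Crt.QMc

open Pool.Agent.helper31.IA (Z Op)
open Pool.Agent.helper31.IC

set_option maxRecDepth 100000

abbrev opsE : Ops := Pool.Agent.helper14.QF.opsF

def prog0 : List Op := [
  .const ⟨1099511627776, 0, 0, 0⟩,
  .mul 2 1,
  .mul 4 2,
  .mul 0 4,
  .mul 0 2,
  .const ⟨549755813888, 0, 0, 0⟩,
  .mul 2 9,
  .scale ⟨549755813888, 0, 0, 0⟩ 0,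
  .mul 9 9,
  .mul 1 1,
  .sub 9 0,
  .inv 0,
  .mul 4 0,
  .scale ⟨2199023255552, 0, 0, 0⟩ 0,
  .scale ⟨2199023255552, 0, 0, 0⟩ 2,
  .sub 0 14,
  .add 0 2,
  .mul 20 5,
  .mul 19 0,
  .sub 18 0,
  .add 19 1,
  .mul 18 12,
  .mul 4 4,
  .scale ⟨10774999203840, 0, 0, 0⟩ 15,
  .scale ⟨45768245248, 0, 0, 0⟩ 0,
  .const ⟨183207198720, 0, 0, 0⟩,
  .add 1 0,
  .mul 3 0,
  .add 22 0,
  .mul 5 0,
  .add 29 0,
  .mul 7 0,
  .scale ⟨549755813888, 0, 0, 0⟩ 0,
  .add 32 0,
  .mul 3 0,
  .mul 21 16,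
  .scale ⟨2199023255552, 0, 0, 0⟩ 20,
  .add 1 0,
  .add 0 35,
  .mul 17 0,
  .add 0 39,
  .mul 27 27,
  .scale ⟨2199023255552, 0, 0, 0⟩ 0,
  .add 0 42,
  .mul 28 5,
  .sub 0 44,
  .log 5,
  .scale ⟨549755813888, 0, 0, 0⟩ 0,
  .exp 0,
  .const ⟨3298534883328, 0, 0, 0⟩,
  .inv 0,
  .mul 50 0,
  .const ⟨2199023255552, 0, 0, 0⟩,
  .add 13 0,
  .inv 0,
  .mul 15 0,
  .mul 0 0,
  .sub 56 1,
  .mul 1 6,
  .add 58 0,
  .mul 2 0,
  .mul 4 4,
  .scale ⟨219915747328, 0, 0, 0⟩ 0,
  .mul 24 2,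
  .scale ⟨549755813888, 0, 0, 0⟩ 0,
  .mul 26 2,
  .scale ⟨549755813888, 0, 0, 0⟩ 0,
  .add 2 0,
  .mul 52 22,
  .scale ⟨4398046511104, 0, 0, 0⟩ 0,
  .mul 54 48,
  .mul 0 25,
  .scale ⟨4398046511104, 0, 0, 0⟩ 0,
  .add 0 20,
  .inv 0,
  .mul 2 0,
  .mul 0 0,
  .sub 76 1,
  .mul 1 26,
  .add 78 0,
  .mul 2 0,
  .mul 4 4,
  .scale ⟨219915747328, 0, 0, 0⟩ 0,
  .mul 13 2,
  .scale ⟨549755813888, 0, 0, 0⟩ 0,
  .sub 0 17,
  .mul 16 3,
  .scale ⟨549755813888, 0, 0, 0⟩ 0,
  .add 0 21,
  .add 3 0,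
  .mul 90 90,
  .mul 91 26,
  .add 1 0,
  .mul 28 28,
  .scale ⟨549755813888, 0, 0, 0⟩ 0,
  .add 2 0,
  .inv 0,
  .mul 6 0,
  .mul 98 12,
  .add 8 0,
  .mul 14 14,
  .scale ⟨549755813888, 0, 0, 0⟩ 0,
  .add 2 0,
  .inv 0,
  .mul 13 0,
  .mul 86 91,
  .add 90 0,
  .inv 0,
  .mul 87 0,
  .mul 89 106,
  .mul 0 1,
  .sub 110 102,
  .mul 89 0,
  .mul 109 109,
  .sub 113 91,
  .mul 3 0,
  .mul 94 70,
  .inv 76,
  .mul 1 0,
  .add 103 0,
  .mul 79 0,
  .mul 0 0,
  .inv 0,
  .mul 7 0,
  .add 13 123,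
  .mul 27 0,
  .sub 125 0,
  .pos 0,
  .add 29 126,
  .inv 1,
  .mul 1 0,
  .scale ⟨549755813888, 0, 0, 0⟩ 0,
  .add 0 125,
  .inv 0,
  .mul 2 0,
  .mul 23 0,
  .scale ⟨549755813888, 0, 0, 0⟩ 0,
  .sub 135 0,
  .sub 136 2,
  .inv 0,
  .mul 2 0,
  .add 5 139,
  .mul 43 0,
  .mul 33 2,
  .mul 0 9,
  .mul 9 4,
  .pos 7,
  .mul 125 124,
  .add 130 143,
  .mul 128 131,
  .mul 0 134,
  .scale ⟨2199023255552, 0, 0, 0⟩ 0,
  .add 106 0,
  .mul 4 0,
  .inv 0,
  .mul 7 0,
  .mul 151 0,
  .pos 69,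
  .add 0 154,
  .mul 51 0,
  .sub 156 0,
  .pos 0,
  .add 53 157,
  .inv 1,
  .mul 1 0,
  .scale ⟨549755813888, 0, 0, 0⟩ 0,
  .add 0 156,
  .inv 0,
  .mul 2 0,
  .mul 10 0,
  .mul 1 164,
  .add 159 166,
  .inv 0,
  .mul 161 0,
  .scale ⟨2199023255552, 0, 0, 0⟩ 0,
  .sub 170 0,
  .sub 171 164,
  .mul 176 4,
  .mul 0 2,
  .add 154 0,
  .scale ⟨224412041216, 0, 0, 0⟩ 164,
  .inv 142,
  .mul 1 0,
  .scale ⟨4398046511104, 0, 0, 0⟩ 177,
  .mul 179 162,
  .add 1 0,
  .inv 0,
  .mul 182 0,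
  .mul 182 1,
  .mul 0 164,
  .mul 0 7,
  .mul 3 166,
  .mul 0 9,
  .sub 188 0,
  .inv 0,
  .mul 49 2,
  .sub 191 0,
  .inv 0,
  .scale ⟨2199023255552, 0, 0, 0⟩ 189,
  .add 0 194,
  .add 191 195,
  .scale ⟨3573412790272, 0, 0, 0⟩ 178,
  .const ⟨339302416384, 0, 0, 0⟩,
  .add 1 0,
  .scale ⟨549755813888, 0, 0, 0⟩ 0,
  .mul 193 183,
  .sub 201 89,
  .mul 195 184,
  .scale ⟨2199023255552, 0, 0, 0⟩ 0,
  .sub 2 0,
  .mul 4 4,
  .add 1 0,
  .add 0 207,
  .scale ⟨549755813888, 0, 0, 0⟩ 0,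
  .scale ⟨549755813888, 0, 0, 0⟩ 188,
  .sub 199 0,
  .mul 98 9,
  .mul 0 202,
  .scale ⟨137438953472, 0, 0, 0⟩ 0,
  .add 3 0,
  .mul 6 0,
  .add 75 216,
  .mul 0 27,
  .mul 77 25,
  .add 1 0,
  .mul 32 0,
  .add 77 0,
  .mul 0 218,
  .mul 6 35,
  .mul 0 34,
  .add 81 0,
  .mul 0 222,
  .scale ⟨223338299392, 0, 0, 0⟩ 0,
  .add 223 0,
  .mul 2 0,
  .add 230 0,
  .scale ⟨893353197568, 0, 0, 0⟩ 8,
  .add 232 0,
  .mul 10 0,
  .add 234 0,
  .mul 65 62,
  .mul 0 41,
  .mul 0 2,
  .mul 22 7,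
  .add 191 234,
  .mul 2 0,
  .add 2 0,
  .add 194 242,
  .mul 5 0,
  .mul 48 1,
  .mul 0 72,
  .mul 0 74,
  .mul 5 104,
  .mul 1 48,
  .add 1 0,
  .mul 253 75,
  .inv 203,
  .mul 1 0,
  .scale ⟨549755813888, 0, 0, 0⟩ 0,
  .mul 235 0,
  .mul 253 5,
  .add 1 0,
  .mul 256 0,
  .mul 16 41,
  .mul 0 69,
  .mul 16 119,
  .mul 0 68,
  .add 2 0,
  .mul 244 5,
  .mul 78 1,
  .add 1 0,
  .mul 153 0,
  .mul 0 15,
  .sub 268 0,
  .inv 0,
  .mul 4 0,
  .mul 269 0,
  .mul 159 1,
  .mul 0 21,
  .sub 274 0,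
  .mul 230 0,
  .sub 0 4,
  .inv 0,
  .mul 6 0,
  .sub 231 6,
  .inv 0,
  .mul 2 117,
  .scale ⟨549755813888, 0, 0, 0⟩ 0,
  .sub 283 0,
  .sub 284 2,
  .inv 0,
  .mul 2 0,
  .mul 289 6,
  .mul 122 10,
  .mul 0 2,
  .add 2 0,
  .mul 294 20,
  .mul 11 0,
  .mul 129 15,
  .mul 0 7,
  .mul 0 23,
  .add 3 0,
  .scale ⟨223338299392, 0, 0, 0⟩ 0,
  .add 293 0,
  .mul 2 0,
  .add 300 0,
  .mul 10 0,
  .mul 0 32,
  .mul 0 40,
  .mul 117 285,
  .const ⟨7696581394432, 0, 0, 0⟩,
  .const ⟨10995116277760, 0, 0, 0⟩,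
  .inv 0,
  .mul 2 0,
  .mul 142 289,
  .mul 0 1,
  .mul 165 204,
  .mul 294 0,
  .scale ⟨549755813888, 0, 0, 0⟩ 148,
  .sub 314 0,
  .sub 315 150,
  .inv 0,
  .mul 2 0,
  .mul 0 164,
  .mul 206 196,
  .scale ⟨733097230336, 0, 0, 0⟩ 0,
  .sub 321 0,
  .mul 199 0,
  .mul 315 223,
  .add 1 0,
  .mul 6 159,
  .add 1 326,
  .mul 1 0,
  .sub 3 0,
  .scale ⟨366548615168, 0, 0, 0⟩ 288,
  .sub 330 0,
  .mul 309 0,
  .add 3 0,
  .mul 21 0,
  .mul 21 21,
  .add 335 0,
  .inv 0,
  .mul 3 0,
  .sub 338 59,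
  .mul 0 1,
  .sub 340 14,
  .pos 0,
  .pos 3,
  .pos 2,
  .mul 38 160,
  .mul 0 85,
  .inv 323,
  .mul 1 0,
  .mul 346 5,
  .add 256 0,
  .mul 7 7,
  .scale ⟨549755813888, 0, 0, 0⟩ 0,
  .add 2 0,
  .inv 0,
  .mul 261 0,
  .mul 350 41,
  .add 353 0,
  .inv 0,
  .mul 3 0,
  .mul 0 340,
  .mul 354 86,
  .mul 0 14,
  .add 359 0,
  .mul 3 0,
  .mul 0 80,
  .mul 360 58,
  .mul 0 175,
  .mul 362 59,
  .mul 20 0,
  .add 2 0,
  .add 4 22,
  .add 368 1,
  .mul 7 0,
  .add 2 0,
  .sub 371 0,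
  .scale ⟨1073741824, 0, 0, 0⟩ 370,
  .sub 1 0,
  .sub 358 374,
  .add 0 323,
  .scale ⟨2199023255552, 0, 0, 0⟩ 67,
  .sub 1 0,
  .mul 211 0,
  .mul 4 2,
  .add 0 380,
  .inv 0,
  .mul 3 0,
  .mul 199 120,
  .scale ⟨549755813888, 0, 0, 0⟩ 206,
  .add 372 0,
  .mul 2 0,
  .scale ⟨2199023255552, 0, 0, 0⟩ 0,
  .add 130 0,
  .scale ⟨2199023255552, 0, 0, 0⟩ 0,
  .mul 0 120,
  .sub 371 33,
  .inv 0,
  .mul 2 0,
  .sub 11 0,
  .mul 215 215,
  .const ⟨14293651161088, 0, 0, 0⟩,
  .mul 0 89,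
  .mul 2 0,
  .mul 398 398,
  .scale ⟨27487790694400, 0, 0, 0⟩ 0,
  .add 2 0,
  .mul 91 47,
  .sub 367 401,
  .sub 0 369,
  .mul 405 407,
  .mul 0 405,
  .mul 387 144,
  .mul 0 226,
  .add 159 0,
  .add 52 358,
  .mul 411 0,
  .mul 10 9,
  .mul 143 1,
  .mul 7 4,
  .mul 1 0,
  .sub 3 0,
  .scale ⟨549755813888, 0, 0, 0⟩ 59,
  .add 418 0,
  .mul 149 0,
  .mul 418 401,
  .mul 0 246,
  .mul 402 374,
  .inv 0,
  .mul 2 0,
  .mul 5 0,
  .sub 21 0,
  .mul 249 10,
  .sub 428 250,
  .mul 421 2,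
  .mul 1 0,
  .mul 29 0,
  .add 4 0,
  .pos 244,
  .pos 241,
  .scale ⟨2199023255552, 0, 0, 0⟩ 166,
  .sub 386 0,
  .pos 0,
  .pos 158,
  .sub 430 270,
  .pos 0,
  .scale ⟨687194767360, 0, 0, 0⟩ 436,
  .sub 0 210,
  .pos 0,
  .scale ⟨377957122048, 0, 0, 0⟩ 438,
  .sub 0 216,
  .pos 0,
  .pos 48,
  .pos 155,
  .sub 3 143,
  .pos 0,
  .pos 46,
  .pos 67,
  .pos 8,
  .pos 14]

def chk0 {α : Type} (cst : Z → α) (add sub mul : α → α → α) (scale : Z → α → α)
    (neg inv exp log : α → α) (ok : α → Bool) (isPos : Nat → α → Bool) (isLt : α → Nat → Bool) :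
    List α → Bool
  | [x0, x1, x2, x3] =>
  let v0 := cst ⟨1099511627776, 0, 0, 0⟩; ok v0 && (
  let v1 := mul x1 x0; ok v1 && (
  let v2 := mul x2 x0; ok v2 && (
  let v3 := mul v2 x1; ok v3 && (
  let v4 := mul v3 v1; ok v4 && (
  let v5 := cst ⟨549755813888, 0, 0, 0⟩; ok v5 && (
  let v6 := mul v3 x3; ok v6 && (
  let v7 := scale ⟨549755813888, 0, 0, 0⟩ v6; ok v7 && (
  let v8 := mul x1 x1; ok v8 && (
  let v9 := mul v7 v7; ok v9 && (
  let v10 := sub v0 v9; ok v10 && (
  let v11 := inv v10; ok v11 && (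
  let v12 := mul v7 v11; ok v12 && (
  let v13 := scale ⟨2199023255552, 0, 0, 0⟩ v12; ok v13 && (
  let v14 := scale ⟨2199023255552, 0, 0, 0⟩ v11; ok v14 && (
  let v15 := sub v14 v0; ok v15 && (
  let v16 := add v15 v13; ok v16 && (
  let v17 := mul x3 v11; ok v17 && (
  let v18 := mul x1 v17; ok v18 && (
  let v19 := sub v0 v18; ok v19 && (
  let v20 := add v0 v18; ok v20 && (
  let v21 := mul v2 v8; ok v21 && (
  let v22 := mul v17 v17; ok v22 && (
  let v23 := scale ⟨10774999203840, 0, 0, 0⟩ v7; ok v23 && (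
  let v24 := scale ⟨45768245248, 0, 0, 0⟩ v23; ok v24 && (
  let v25 := cst ⟨183207198720, 0, 0, 0⟩; ok v25 && (
  let v26 := add v24 v25; ok v26 && (
  let v27 := mul v23 v26; ok v27 && (
  let v28 := add v5 v27; ok v28 && (
  let v29 := mul v23 v28; ok v29 && (
  let v30 := add v0 v29; ok v30 && (
  let v31 := mul v23 v30; ok v31 && (
  let v32 := scale ⟨549755813888, 0, 0, 0⟩ v31; ok v32 && (
  let v33 := add v0 v32; ok v33 && (
  let v34 := mul v30 v33; ok v34 && (
  let v35 := mul v13 v18; ok v35 && (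
  let v36 := scale ⟨2199023255552, 0, 0, 0⟩ v15; ok v36 && (
  let v37 := add v35 v36; ok v37 && (
  let v38 := add v37 v2; ok v38 && (
  let v39 := mul v21 v38; ok v39 && (
  let v40 := add v39 v0; ok v40 && (
  let v41 := mul v13 v13; ok v41 && (
  let v42 := scale ⟨2199023255552, 0, 0, 0⟩ v41; ok v42 && (
  let v43 := add v42 v0; ok v43 && (
  let v44 := mul v15 v38; ok v44 && (
  let v45 := sub v44 v0; ok v45 && (
  let v46 := log v40; ok v46 && (
  let v47 := scale ⟨549755813888, 0, 0, 0⟩ v46; ok v47 && (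
  let v48 := exp v47; ok v48 && (
  let v49 := cst ⟨3298534883328, 0, 0, 0⟩; ok v49 && (
  let v50 := inv v49; ok v50 && (
  let v51 := mul v0 v50; ok v51 && (
  let v52 := cst ⟨2199023255552, 0, 0, 0⟩; ok v52 && (
  let v53 := add v39 v52; ok v53 && (
  let v54 := inv v53; ok v54 && (
  let v55 := mul v39 v54; ok v55 && (
  let v56 := mul v55 v55; ok v56 && (
  let v57 := sub v0 v55; ok v57 && (
  let v58 := mul v56 v51; ok v58 && (
  let v59 := add v0 v58; ok v59 && (
  let v60 := mul v57 v59; ok v60 && (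
  let v61 := mul v56 v56; ok v61 && (
  let v62 := scale ⟨219915747328, 0, 0, 0⟩ v61; ok v62 && (
  let v63 := mul v38 v60; ok v63 && (
  let v64 := scale ⟨549755813888, 0, 0, 0⟩ v63; ok v64 && (
  let v65 := mul v38 v62; ok v65 && (
  let v66 := scale ⟨549755813888, 0, 0, 0⟩ v65; ok v66 && (
  let v67 := add v64 v66; ok v67 && (
  let v68 := mul v15 v45; ok v68 && (
  let v69 := scale ⟨4398046511104, 0, 0, 0⟩ v68; ok v69 && (
  let v70 := mul v15 v21; ok v70 && (
  let v71 := mul v70 v45; ok v71 && (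
  let v72 := scale ⟨4398046511104, 0, 0, 0⟩ v71; ok v72 && (
  let v73 := add v72 v52; ok v73 && (
  let v74 := inv v73; ok v74 && (
  let v75 := mul v72 v74; ok v75 && (
  let v76 := mul v75 v75; ok v76 && (
  let v77 := sub v0 v75; ok v77 && (
  let v78 := mul v76 v51; ok v78 && (
  let v79 := add v0 v78; ok v79 && (
  let v80 := mul v77 v79; ok v80 && (
  let v81 := mul v76 v76; ok v81 && (
  let v82 := scale ⟨219915747328, 0, 0, 0⟩ v81; ok v82 && (
  let v83 := mul v69 v80; ok v83 && (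
  let v84 := scale ⟨549755813888, 0, 0, 0⟩ v83; ok v84 && (
  let v85 := sub v84 v67; ok v85 && (
  let v86 := mul v69 v82; ok v86 && (
  let v87 := scale ⟨549755813888, 0, 0, 0⟩ v86; ok v87 && (
  let v88 := add v87 v66; ok v88 && (
  let v89 := add v85 v88; ok v89 && (
  let v90 := mul x0 x0; ok v90 && (
  let v91 := mul x0 v64; ok v91 && (
  let v92 := add v90 v91; ok v92 && (
  let v93 := mul v64 v64; ok v93 && (
  let v94 := scale ⟨549755813888, 0, 0, 0⟩ v93; ok v94 && (
  let v95 := add v92 v94; ok v95 && (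
  let v96 := inv v95; ok v96 && (
  let v97 := mul v90 v96; ok v97 && (
  let v98 := mul x0 v85; ok v98 && (
  let v99 := add v90 v98; ok v99 && (
  let v100 := mul v85 v85; ok v100 && (
  let v101 := scale ⟨549755813888, 0, 0, 0⟩ v100; ok v101 && (
  let v102 := add v99 v101; ok v102 && (
  let v103 := inv v102; ok v103 && (
  let v104 := mul v90 v103; ok v104 && (
  let v105 := mul v18 v13; ok v105 && (
  let v106 := add v15 v105; ok v106 && (
  let v107 := inv v106; ok v107 && (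
  let v108 := mul v20 v107; ok v108 && (
  let v109 := mul v19 v2; ok v109 && (
  let v110 := mul v109 v108; ok v110 && (
  let v111 := sub v0 v8; ok v111 && (
  let v112 := mul v22 v111; ok v112 && (
  let v113 := mul v3 v3; ok v113 && (
  let v114 := sub v0 v22; ok v114 && (
  let v115 := mul v111 v114; ok v115 && (
  let v116 := mul v21 v45; ok v116 && (
  let v117 := inv v40; ok v117 && (
  let v118 := mul v116 v117; ok v118 && (
  let v119 := add v15 v118; ok v119 && (
  let v120 := mul v40 v119; ok v120 && (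
  let v121 := mul v120 v120; ok v121 && (
  let v122 := inv v121; ok v122 && (
  let v123 := mul v115 v122; ok v123 && (
  let v124 := add v110 v0; ok v124 && (
  let v125 := mul v97 v124; ok v125 && (
  let v126 := sub v0 v125; ok v126 && (
  isPos 4 v126 && (
  let v127 := add v97 v0; ok v127 && (
  let v128 := inv v126; ok v128 && (
  let v129 := mul v127 v128; ok v129 && (
  let v130 := scale ⟨549755813888, 0, 0, 0⟩ v129; ok v130 && (
  let v131 := add v130 v5; ok v131 && (
  let v132 := inv v131; ok v132 && (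
  let v133 := mul v130 v132; ok v133 && (
  let v134 := mul v110 v133; ok v134 && (
  let v135 := scale ⟨549755813888, 0, 0, 0⟩ v134; ok v135 && (
  let v136 := sub v0 v135; ok v136 && (
  let v137 := sub v0 v134; ok v137 && (
  let v138 := inv v137; ok v138 && (
  let v139 := mul v136 v138; ok v139 && (
  let v140 := add v134 v0; ok v140 && (
  let v141 := mul v97 v140; ok v141 && (
  let v142 := mul v108 v139; ok v142 && (
  let v143 := mul v142 v133; ok v143 && (
  let v144 := mul v134 v139; ok v144 && (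
  isPos 4 v137 && (
  let v145 := mul v19 v20; ok v145 && (
  let v146 := add v15 v2; ok v146 && (
  let v147 := mul v18 v15; ok v147 && (
  let v148 := mul v147 v13; ok v148 && (
  let v149 := scale ⟨2199023255552, 0, 0, 0⟩ v148; ok v149 && (
  let v150 := add v43 v149; ok v150 && (
  let v151 := mul v146 v150; ok v151 && (
  let v152 := inv v151; ok v152 && (
  let v153 := mul v145 v152; ok v153 && (
  let v154 := mul v2 v153; ok v154 && (
  isPos 4 v85 && (
  let v155 := add v154 v0; ok v155 && (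
  let v156 := mul v104 v155; ok v156 && (
  let v157 := sub v0 v156; ok v157 && (
  isPos 4 v157 && (
  let v158 := add v104 v0; ok v158 && (
  let v159 := inv v157; ok v159 && (
  let v160 := mul v158 v159; ok v160 && (
  let v161 := scale ⟨549755813888, 0, 0, 0⟩ v160; ok v161 && (
  let v162 := add v161 v5; ok v162 && (
  let v163 := inv v162; ok v163 && (
  let v164 := mul v161 v163; ok v164 && (
  let v165 := mul v154 v164; ok v165 && (
  let v166 := mul v164 v1; ok v166 && (
  let v167 := add v7 v0; ok v167 && (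
  let v168 := inv v167; ok v168 && (
  let v169 := mul v7 v168; ok v169 && (
  let v170 := scale ⟨2199023255552, 0, 0, 0⟩ v169; ok v170 && (
  let v171 := sub v0 v170; ok v171 && (
  let v172 := sub v0 v7; ok v172 && (
  let v173 := mul x3 v168; ok v173 && (
  let v174 := mul v173 v171; ok v174 && (
  let v175 := add v20 v174; ok v175 && (
  let v176 := scale ⟨224412041216, 0, 0, 0⟩ v11; ok v176 && (
  let v177 := inv v34; ok v177 && (
  let v178 := mul v176 v177; ok v178 && (
  let v179 := scale ⟨4398046511104, 0, 0, 0⟩ v1; ok v179 && (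
  let v180 := mul v0 v17; ok v180 && (
  let v181 := add v179 v180; ok v181 && (
  let v182 := inv v181; ok v182 && (
  let v183 := mul v0 v182; ok v183 && (
  let v184 := mul v1 v182; ok v184 && (
  let v185 := mul v184 v20; ok v185 && (
  let v186 := mul v185 v178; ok v186 && (
  let v187 := mul v183 v20; ok v187 && (
  let v188 := mul v187 v178; ok v188 && (
  let v189 := sub v0 v188; ok v189 && (
  let v190 := inv v189; ok v190 && (
  let v191 := mul v141 v188; ok v191 && (
  let v192 := sub v0 v191; ok v192 && (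
  let v193 := inv v192; ok v193 && (
  let v194 := scale ⟨2199023255552, 0, 0, 0⟩ v4; ok v194 && (
  let v195 := add v194 v0; ok v195 && (
  let v196 := add v4 v0; ok v196 && (
  let v197 := scale ⟨3573412790272, 0, 0, 0⟩ v18; ok v197 && (
  let v198 := cst ⟨339302416384, 0, 0, 0⟩; ok v198 && (
  let v199 := add v197 v198; ok v199 && (
  let v200 := scale ⟨549755813888, 0, 0, 0⟩ v199; ok v200 && (
  let v201 := mul v7 v17; ok v201 && (
  let v202 := sub v0 v112; ok v202 && (
  let v203 := mul v7 v18; ok v203 && (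
  let v204 := scale ⟨2199023255552, 0, 0, 0⟩ v203; ok v204 && (
  let v205 := sub v202 v204; ok v205 && (
  let v206 := mul v201 v201; ok v206 && (
  let v207 := add v205 v206; ok v207 && (
  let v208 := add v207 v0; ok v208 && (
  let v209 := scale ⟨549755813888, 0, 0, 0⟩ v208; ok v209 && (
  let v210 := scale ⟨549755813888, 0, 0, 0⟩ v21; ok v210 && (
  let v211 := sub v11 v210; ok v211 && (
  let v212 := mul v113 v202; ok v212 && (
  let v213 := mul v212 v10; ok v213 && (
  let v214 := scale ⟨137438953472, 0, 0, 0⟩ v213; ok v214 && (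
  let v215 := add v211 v214; ok v215 && (
  let v216 := mul v209 v215; ok v216 && (
  let v217 := add v141 v0; ok v217 && (
  let v218 := mul v217 v190; ok v218 && (
  let v219 := mul v141 v193; ok v219 && (
  let v220 := add v218 v219; ok v220 && (
  let v221 := mul v188 v220; ok v221 && (
  let v222 := add v144 v221; ok v222 && (
  let v223 := mul v222 v4; ok v223 && (
  let v224 := mul v217 v188; ok v224 && (
  let v225 := mul v224 v190; ok v225 && (
  let v226 := add v144 v225; ok v226 && (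
  let v227 := mul v226 v4; ok v227 && (
  let v228 := scale ⟨223338299392, 0, 0, 0⟩ v227; ok v228 && (
  let v229 := add v5 v228; ok v229 && (
  let v230 := mul v227 v229; ok v230 && (
  let v231 := add v0 v230; ok v231 && (
  let v232 := scale ⟨893353197568, 0, 0, 0⟩ v223; ok v232 && (
  let v233 := add v0 v232; ok v233 && (
  let v234 := mul v223 v233; ok v234 && (
  let v235 := add v0 v234; ok v235 && (
  let v236 := mul v170 v173; ok v236 && (
  let v237 := mul v236 v195; ok v237 && (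
  let v238 := mul v237 v235; ok v238 && (
  let v239 := mul v216 v231; ok v239 && (
  let v240 := add v48 v5; ok v240 && (
  let v241 := mul v238 v240; ok v241 && (
  let v242 := add v239 v241; ok v242 && (
  let v243 := add v48 v0; ok v243 && (
  let v244 := mul v238 v243; ok v244 && (
  let v245 := mul v196 v243; ok v245 && (
  let v246 := mul v245 v173; ok v246 && (
  let v247 := mul v246 v172; ok v247 && (
  let v248 := mul v242 v143; ok v248 && (
  let v249 := mul v247 v200; ok v249 && (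
  let v250 := add v248 v249; ok v250 && (
  let v251 := mul x2 v175; ok v251 && (
  let v252 := inv v48; ok v252 && (
  let v253 := mul v251 v252; ok v253 && (
  let v254 := scale ⟨549755813888, 0, 0, 0⟩ v253; ok v254 && (
  let v255 := mul v19 v254; ok v255 && (
  let v256 := mul v2 v250; ok v256 && (
  let v257 := add v255 v256; ok v257 && (
  let v258 := mul v1 v257; ok v258 && (
  let v259 := mul v242 v217; ok v259 && (
  let v260 := mul v259 v190; ok v260 && (
  let v261 := mul v244 v141; ok v261 && (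
  let v262 := mul v261 v193; ok v262 && (
  let v263 := add v260 v262; ok v263 && (
  let v264 := mul v19 v258; ok v264 && (
  let v265 := mul v186 v263; ok v265 && (
  let v266 := add v264 v265; ok v266 && (
  let v267 := mul v113 v266; ok v267 && (
  let v268 := mul v267 v252; ok v268 && (
  let v269 := sub v0 v268; ok v269 && (
  let v270 := inv v269; ok v270 && (
  let v271 := mul v266 v270; ok v271 && (
  let v272 := mul v2 v271; ok v272 && (
  let v273 := mul v113 v271; ok v273 && (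
  let v274 := mul v273 v252; ok v274 && (
  let v275 := sub v0 v274; ok v275 && (
  let v276 := mul v45 v275; ok v276 && (
  let v277 := sub v276 v272; ok v277 && (
  let v278 := inv v277; ok v278 && (
  let v279 := mul v272 v278; ok v279 && (
  let v280 := sub v48 v273; ok v280 && (
  let v281 := inv v280; ok v281 && (
  let v282 := mul v279 v164; ok v282 && (
  let v283 := scale ⟨549755813888, 0, 0, 0⟩ v282; ok v283 && (
  let v284 := sub v0 v283; ok v284 && (
  let v285 := sub v0 v282; ok v285 && (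
  let v286 := inv v285; ok v286 && (
  let v287 := mul v284 v286; ok v287 && (
  let v288 := mul x1 v281; ok v288 && (
  let v289 := mul v166 v278; ok v289 && (
  let v290 := mul v289 v287; ok v290 && (
  let v291 := add v288 v290; ok v291 && (
  let v292 := mul x2 v271; ok v292 && (
  let v293 := mul v281 v292; ok v293 && (
  let v294 := mul v164 v278; ok v294 && (
  let v295 := mul v294 v287; ok v295 && (
  let v296 := mul v295 v272; ok v296 && (
  let v297 := add v293 v296; ok v297 && (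
  let v298 := scale ⟨223338299392, 0, 0, 0⟩ v297; ok v298 && (
  let v299 := add v5 v298; ok v299 && (
  let v300 := mul v297 v299; ok v300 && (
  let v301 := add v0 v300; ok v301 && (
  let v302 := mul v291 v301; ok v302 && (
  let v303 := mul v302 v270; ok v303 && (
  let v304 := mul v303 v263; ok v304 && (
  let v305 := mul v187 v19; ok v305 && (
  let v306 := cst ⟨7696581394432, 0, 0, 0⟩; ok v306 && (
  let v307 := cst ⟨10995116277760, 0, 0, 0⟩; ok v307 && (
  let v308 := inv v307; ok v308 && (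
  let v309 := mul v306 v308; ok v309 && (
  let v310 := mul v167 v20; ok v310 && (
  let v311 := mul v310 v309; ok v311 && (
  let v312 := mul v146 v107; ok v312 && (
  let v313 := mul v18 v312; ok v313 && (
  let v314 := scale ⟨549755813888, 0, 0, 0⟩ v165; ok v314 && (
  let v315 := sub v0 v314; ok v315 && (
  let v316 := sub v0 v165; ok v316 && (
  let v317 := inv v316; ok v317 && (
  let v318 := mul v315 v317; ok v318 && (
  let v319 := mul v318 v154; ok v319 && (
  let v320 := mul v113 v123; ok v320 && (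
  let v321 := scale ⟨733097230336, 0, 0, 0⟩ v320; ok v321 && (
  let v322 := sub v0 v321; ok v322 && (
  let v323 := mul v123 v322; ok v323 && (
  let v324 := mul v8 v100; ok v324 && (
  let v325 := add v323 v324; ok v325 && (
  let v326 := mul v319 v166; ok v326 && (
  let v327 := add v325 v0; ok v327 && (
  let v328 := mul v326 v327; ok v328 && (
  let v329 := sub v325 v328; ok v329 && (
  let v330 := scale ⟨366548615168, 0, 0, 0⟩ v41; ok v330 && (
  let v331 := sub v0 v330; ok v331 && (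
  let v332 := mul v22 v331; ok v332 && (
  let v333 := add v329 v332; ok v333 && (
  let v334 := mul v312 v333; ok v334 && (
  let v335 := mul v313 v313; ok v335 && (
  let v336 := add v0 v335; ok v336 && (
  let v337 := inv v336; ok v337 && (
  let v338 := mul v334 v337; ok v338 && (
  let v339 := sub v0 v279; ok v339 && (
  let v340 := mul v339 v338; ok v340 && (
  let v341 := sub v0 v326; ok v341 && (
  isPos 4 v341 && (
  isPos 4 v338 && (
  isPos 4 v339 && (
  let v342 := mul v303 v181; ok v342 && (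
  let v343 := mul v342 v257; ok v343 && (
  let v344 := inv v20; ok v344 && (
  let v345 := mul v343 v344; ok v345 && (
  let v346 := mul x0 v340; ok v346 && (
  let v347 := add v90 v346; ok v347 && (
  let v348 := mul v340 v340; ok v348 && (
  let v349 := scale ⟨549755813888, 0, 0, 0⟩ v348; ok v349 && (
  let v350 := add v347 v349; ok v350 && (
  let v351 := inv v350; ok v351 && (
  let v352 := mul v90 v351; ok v352 && (
  let v353 := mul v2 v311; ok v353 && (
  let v354 := add v0 v353; ok v354 && (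
  let v355 := inv v354; ok v355 && (
  let v356 := mul v352 v355; ok v356 && (
  let v357 := mul v356 v16; ok v357 && (
  let v358 := mul v3 v271; ok v358 && (
  let v359 := mul v358 v344; ok v359 && (
  let v360 := add v0 v359; ok v360 && (
  let v361 := mul v357 v360; ok v361 && (
  let v362 := mul v361 v281; ok v362 && (
  let v363 := mul v2 v304; ok v363 && (
  let v364 := mul v363 v188; ok v364 && (
  let v365 := mul v2 v305; ok v365 && (
  let v366 := mul v345 v365; ok v366 && (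
  let v367 := add v364 v366; ok v367 && (
  let v368 := add v363 v345; ok v368 && (
  let v369 := add v0 v367; ok v369 && (
  let v370 := mul v362 v369; ok v370 && (
  let v371 := add v368 v370; ok v371 && (
  let v372 := sub v0 v371; ok v372 && (
  let v373 := scale ⟨1073741824, 0, 0, 0⟩ v2; ok v373 && (
  let v374 := sub v372 v373; ok v374 && (
  let v375 := sub v16 v0; ok v375 && (
  let v376 := add v375 v52; ok v376 && (
  let v377 := scale ⟨2199023255552, 0, 0, 0⟩ v309; ok v377 && (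
  let v378 := sub v376 v377; ok v378 && (
  let v379 := mul v167 v378; ok v379 && (
  let v380 := mul v375 v377; ok v380 && (
  let v381 := add v380 v0; ok v381 && (
  let v382 := inv v381; ok v382 && (
  let v383 := mul v379 v382; ok v383 && (
  let v384 := mul v184 v263; ok v384 && (
  let v385 := scale ⟨549755813888, 0, 0, 0⟩ v178; ok v385 && (
  let v386 := add v13 v385; ok v386 && (
  let v387 := mul v384 v386; ok v387 && (
  let v388 := scale ⟨2199023255552, 0, 0, 0⟩ v387; ok v388 && (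
  let v389 := add v258 v388; ok v389 && (
  let v390 := scale ⟨2199023255552, 0, 0, 0⟩ v389; ok v390 && (
  let v391 := mul v390 v270; ok v391 && (
  let v392 := sub v20 v358; ok v392 && (
  let v393 := inv v392; ok v393 && (
  let v394 := mul v391 v393; ok v394 && (
  let v395 := sub v383 v394; ok v395 && (
  let v396 := mul v180 v180; ok v396 && (
  let v397 := cst ⟨14293651161088, 0, 0, 0⟩; ok v397 && (
  let v398 := mul v397 v308; ok v398 && (
  let v399 := mul v396 v398; ok v399 && (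
  let v400 := mul v1 v1; ok v400 && (
  let v401 := scale ⟨27487790694400, 0, 0, 0⟩ v400; ok v401 && (
  let v402 := add v399 v401; ok v402 && (
  let v403 := mul v311 v355; ok v403 && (
  let v404 := sub v36 v2; ok v404 && (
  let v405 := sub v404 v35; ok v405 && (
  let v406 := mul v0 x1; ok v406 && (
  let v407 := mul v406 v1; ok v407 && (
  let v408 := mul v20 v263; ok v408 && (
  let v409 := mul v408 v182; ok v409 && (
  let v410 := add v250 v409; ok v410 && (
  let v411 := add v358 v52; ok v411 && (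
  let v412 := mul v0 v411; ok v412 && (
  let v413 := mul v402 v403; ok v413 && (
  let v414 := mul v270 v412; ok v414 && (
  let v415 := mul v407 v410; ok v415 && (
  let v416 := mul v414 v415; ok v416 && (
  let v417 := sub v413 v416; ok v417 && (
  let v418 := scale ⟨549755813888, 0, 0, 0⟩ v358; ok v418 && (
  let v419 := add v0 v418; ok v419 && (
  let v420 := mul v270 v419; ok v420 && (
  let v421 := mul v2 v19; ok v421 && (
  let v422 := mul v421 v175; ok v422 && (
  let v423 := mul v20 v48; ok v423 && (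
  let v424 := inv v423; ok v424 && (
  let v425 := mul v422 v424; ok v425 && (
  let v426 := mul v420 v425; ok v426 && (
  let v427 := sub v405 v426; ok v427 && (
  let v428 := mul v178 v417; ok v428 && (
  let v429 := sub v0 v178; ok v429 && (
  let v430 := mul v8 v427; ok v430 && (
  let v431 := mul v429 v430; ok v431 && (
  let v432 := mul v402 v431; ok v432 && (
  let v433 := add v428 v432; ok v433 && (
  isPos 4 v189 && (
  isPos 4 v192 && (
  let v434 := scale ⟨2199023255552, 0, 0, 0⟩ v267; ok v434 && (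
  let v435 := sub v48 v434; ok v435 && (
  isPos 4 v435 && (
  isPos 4 v277 && (
  let v436 := sub v5 v165; ok v436 && (
  isPos 4 v436 && (
  let v437 := scale ⟨687194767360, 0, 0, 0⟩ v0; ok v437 && (
  let v438 := sub v437 v227; ok v438 && (
  isPos 4 v438 && (
  let v439 := scale ⟨377957122048, 0, 0, 0⟩ v0; ok v439 && (
  let v440 := sub v439 v223; ok v440 && (
  isPos 4 v440 && (
  isPos 4 v392 && (
  isPos 4 v285 && (
  let v441 := sub v437 v297; ok v441 && (
  isPos 4 v441 && (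
  isPos 4 v395 && (
  isPos 4 v374 && (
  isPos 4 v433 && (
  isPos 4 v427 && (
  true)))))))))))))))))))))))))))))))))))))))))))))))))))))))))))))))))))))))))))))))))))))))))))))))))))))))))))))))))))))))))))))))))))))))))))))))))))))))))))))))))))))))))))))))))))))))))))))))))))))))))))))))))))))))))))))))))))))))))))))))))))))))))))))))))))))))))))))))))))))))))))))))))))))))))))))))))))))))))))))))))))))))))))))))))))))))))))))))))))))))))))))))))))))))))))))))))))))))))))))))))))))))))))))))))))))))))))))))))))))))))))))))))))))))))))))))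
  | _ => false

set_option maxRecDepth 1000000 in
theorem chk0_eq (O : Ops) (m : List O.α)
    (h : chk0 O.cst O.add O.sub O.mul O.scale O.neg O.inv O.exp O.log O.ok O.isPos O.isLt m = true) :
    runG O 4 prog0 m = true := by
  match m, h with
  | [x0, x1, x2, x3], h => exact h

def chkB0 : List opsE.α → Bool :=
  chk0 opsE.cst opsE.add opsE.sub opsE.mul opsE.scale opsE.neg opsE.inv opsE.exp opsE.log opsE.ok opsE.isPos opsE.isLt

theorem chkB0_eq (m : List opsE.α) (h : chkB0 m = true) : runG opsE 4 prog0 m = true :=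
  chk0_eq opsE m h

def prog1 : List Op := [
  .const ⟨1099511627776, 0, 0, 0⟩,
  .mul 2 1,
  .mul 4 2,
  .mul 0 4,
  .mul 0 2,
  .const ⟨549755813888, 0, 0, 0⟩,
  .mul 2 9,
  .scale ⟨549755813888, 0, 0, 0⟩ 0,
  .mul 9 9,
  .mul 1 1,
  .sub 9 0,
  .inv 0,
  .mul 4 0,
  .scale ⟨2199023255552, 0, 0, 0⟩ 0,
  .scale ⟨2199023255552, 0, 0, 0⟩ 2,
  .sub 0 14,
  .add 0 2,
  .mul 20 5,
  .mul 19 0,
  .sub 18 0,
  .add 19 1,
  .mul 18 12,
  .mul 4 4,
  .scale ⟨10774999203840, 0, 0, 0⟩ 15,
  .scale ⟨45768245248, 0, 0, 0⟩ 0,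
  .const ⟨183207198720, 0, 0, 0⟩,
  .add 1 0,
  .mul 3 0,
  .add 22 0,
  .mul 5 0,
  .add 29 0,
  .mul 7 0,
  .scale ⟨549755813888, 0, 0, 0⟩ 0,
  .add 32 0,
  .mul 3 0,
  .mul 21 16,
  .scale ⟨2199023255552, 0, 0, 0⟩ 20,
  .add 1 0,
  .add 0 35,
  .mul 17 0,
  .add 0 39,
  .mul 27 27,
  .scale ⟨2199023255552, 0, 0, 0⟩ 0,
  .add 0 42,
  .mul 28 5,
  .sub 0 44,
  .log 5,
  .scale ⟨549755813888, 0, 0, 0⟩ 0,
  .exp 0,
  .const ⟨3298534883328, 0, 0, 0⟩,
  .inv 0,
  .mul 50 0,
  .const ⟨2199023255552, 0, 0, 0⟩,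
  .add 13 0,
  .inv 0,
  .mul 15 0,
  .mul 0 0,
  .sub 56 1,
  .mul 1 6,
  .add 58 0,
  .mul 2 0,
  .mul 4 4,
  .scale ⟨219915747328, 0, 0, 0⟩ 0,
  .mul 24 2,
  .scale ⟨549755813888, 0, 0, 0⟩ 0,
  .mul 26 2,
  .scale ⟨549755813888, 0, 0, 0⟩ 0,
  .add 2 0,
  .mul 52 22,
  .scale ⟨4398046511104, 0, 0, 0⟩ 0,
  .mul 54 48,
  .mul 0 25,
  .scale ⟨4398046511104, 0, 0, 0⟩ 0,
  .add 0 20,
  .inv 0,
  .mul 2 0,
  .mul 0 0,
  .sub 76 1,
  .mul 1 26,
  .add 78 0,
  .mul 2 0,
  .mul 4 4,
  .scale ⟨219915747328, 0, 0, 0⟩ 0,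
  .mul 13 2,
  .scale ⟨549755813888, 0, 0, 0⟩ 0,
  .sub 0 17,
  .mul 16 3,
  .scale ⟨549755813888, 0, 0, 0⟩ 0,
  .add 0 21,
  .add 3 0,
  .mul 90 90,
  .mul 91 26,
  .add 1 0,
  .mul 28 28,
  .scale ⟨549755813888, 0, 0, 0⟩ 0,
  .add 2 0,
  .inv 0,
  .mul 6 0,
  .mul 98 12,
  .add 8 0,
  .mul 14 14,
  .scale ⟨549755813888, 0, 0, 0⟩ 0,
  .add 2 0,
  .inv 0,
  .mul 13 0,
  .mul 86 91,
  .add 90 0,
  .inv 0,
  .mul 87 0,
  .mul 89 106,
  .mul 0 1,
  .sub 110 102,
  .mul 89 0,
  .mul 109 109,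
  .sub 113 91,
  .mul 3 0,
  .mul 94 70,
  .inv 76,
  .mul 1 0,
  .add 103 0,
  .mul 79 0,
  .mul 0 0,
  .inv 0,
  .mul 7 0,
  .add 13 123,
  .mul 27 0,
  .sub 125 0,
  .pos 0,
  .add 29 126,
  .inv 1,
  .mul 1 0,
  .scale ⟨549755813888, 0, 0, 0⟩ 0,
  .add 0 125,
  .inv 0,
  .mul 2 0,
  .mul 23 0,
  .scale ⟨549755813888, 0, 0, 0⟩ 0,
  .sub 135 0,
  .sub 136 2,
  .inv 0,
  .mul 2 0,
  .add 5 139,
  .mul 43 0,
  .mul 33 2,
  .mul 0 9,
  .mul 9 4,
  .pos 7,
  .mul 125 124,
  .add 130 143,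
  .mul 128 131,
  .mul 0 134,
  .scale ⟨2199023255552, 0, 0, 0⟩ 0,
  .add 106 0,
  .mul 4 0,
  .inv 0,
  .mul 7 0,
  .mul 151 0,
  .pos 69,
  .add 0 154,
  .mul 51 0,
  .sub 156 0,
  .pos 0,
  .add 53 157,
  .inv 1,
  .mul 1 0,
  .scale ⟨549755813888, 0, 0, 0⟩ 0,
  .add 0 156,
  .inv 0,
  .mul 2 0,
  .mul 10 0,
  .mul 1 164,
  .add 159 166,
  .inv 0,
  .mul 161 0,
  .scale ⟨2199023255552, 0, 0, 0⟩ 0,
  .sub 170 0,
  .sub 171 164,
  .mul 176 4,
  .mul 0 2,
  .add 154 0,
  .scale ⟨224412041216, 0, 0, 0⟩ 164,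
  .inv 142,
  .mul 1 0,
  .scale ⟨4398046511104, 0, 0, 0⟩ 177,
  .mul 179 162,
  .add 1 0,
  .inv 0,
  .mul 182 0,
  .mul 182 1,
  .mul 0 164,
  .mul 0 7,
  .mul 3 166,
  .mul 0 9,
  .sub 188 0,
  .inv 0,
  .mul 49 2,
  .sub 191 0,
  .inv 0,
  .scale ⟨2199023255552, 0, 0, 0⟩ 189,
  .add 0 194,
  .add 191 195,
  .scale ⟨1099511627776, 0, 0, 0⟩ 178,
  .add 0 197,
  .scale ⟨549755813888, 0, 0, 0⟩ 0,
  .mul 192 182,
  .sub 200 88,
  .mul 194 183,
  .scale ⟨2199023255552, 0, 0, 0⟩ 0,
  .sub 2 0,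
  .mul 4 4,
  .add 1 0,
  .add 0 206,
  .scale ⟨549755813888, 0, 0, 0⟩ 0,
  .scale ⟨549755813888, 0, 0, 0⟩ 187,
  .sub 198 0,
  .mul 97 9,
  .mul 0 201,
  .scale ⟨137438953472, 0, 0, 0⟩ 0,
  .add 3 0,
  .mul 6 0,
  .add 74 215,
  .mul 0 26,
  .mul 76 24,
  .add 1 0,
  .mul 31 0,
  .add 76 0,
  .mul 0 217,
  .mul 6 34,
  .mul 0 33,
  .add 80 0,
  .mul 0 221,
  .scale ⟨223338299392, 0, 0, 0⟩ 0,
  .add 222 0,
  .mul 2 0,
  .add 229 0,
  .scale ⟨893353197568, 0, 0, 0⟩ 8,
  .add 231 0,
  .mul 10 0,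
  .add 233 0,
  .mul 64 61,
  .mul 0 40,
  .mul 0 2,
  .mul 22 7,
  .add 190 233,
  .mul 2 0,
  .add 2 0,
  .add 193 241,
  .mul 5 0,
  .mul 47 1,
  .mul 0 71,
  .mul 0 73,
  .mul 5 103,
  .mul 1 48,
  .add 1 0,
  .mul 252 74,
  .inv 202,
  .mul 1 0,
  .scale ⟨549755813888, 0, 0, 0⟩ 0,
  .mul 234 0,
  .mul 252 5,
  .add 1 0,
  .mul 255 0,
  .mul 16 41,
  .mul 0 68,
  .mul 16 118,
  .mul 0 67,
  .add 2 0,
  .mul 243 5,
  .mul 77 1,
  .add 1 0,
  .mul 152 0,
  .mul 0 15,
  .sub 267 0,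
  .inv 0,
  .mul 4 0,
  .mul 268 0,
  .mul 158 1,
  .mul 0 21,
  .sub 273 0,
  .mul 229 0,
  .sub 0 4,
  .inv 0,
  .mul 6 0,
  .sub 230 6,
  .inv 0,
  .mul 2 116,
  .scale ⟨549755813888, 0, 0, 0⟩ 0,
  .sub 282 0,
  .sub 283 2,
  .inv 0,
  .mul 2 0,
  .mul 288 6,
  .mul 121 10,
  .mul 0 2,
  .add 2 0,
  .mul 293 20,
  .mul 11 0,
  .mul 128 15,
  .mul 0 7,
  .mul 0 23,
  .add 3 0,
  .scale ⟨223338299392, 0, 0, 0⟩ 0,
  .add 292 0,
  .mul 2 0,
  .add 299 0,
  .mul 10 0,
  .mul 0 32,
  .mul 0 40,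
  .mul 116 284,
  .const ⟨7696581394432, 0, 0, 0⟩,
  .const ⟨10995116277760, 0, 0, 0⟩,
  .inv 0,
  .mul 2 0,
  .mul 141 288,
  .mul 0 1,
  .mul 164 203,
  .mul 293 0,
  .scale ⟨549755813888, 0, 0, 0⟩ 147,
  .sub 313 0,
  .sub 314 149,
  .inv 0,
  .mul 2 0,
  .mul 0 163,
  .mul 205 195,
  .scale ⟨733097230336, 0, 0, 0⟩ 0,
  .sub 320 0,
  .mul 198 0,
  .mul 314 222,
  .add 1 0,
  .mul 6 158,
  .add 1 325,
  .mul 1 0,
  .sub 3 0,
  .scale ⟨366548615168, 0, 0, 0⟩ 287,
  .sub 329 0,
  .mul 308 0,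
  .add 3 0,
  .mul 21 0,
  .mul 21 21,
  .add 334 0,
  .inv 0,
  .mul 3 0,
  .sub 337 59,
  .mul 0 1,
  .sub 339 14,
  .pos 0,
  .pos 3,
  .pos 2,
  .mul 38 159,
  .mul 0 85,
  .inv 322,
  .mul 1 0,
  .mul 345 5,
  .add 255 0,
  .mul 7 7,
  .scale ⟨549755813888, 0, 0, 0⟩ 0,
  .add 2 0,
  .inv 0,
  .mul 260 0,
  .mul 349 41,
  .add 352 0,
  .inv 0,
  .mul 3 0,
  .mul 0 339,
  .mul 353 86,
  .mul 0 14,
  .add 358 0,
  .mul 3 0,
  .mul 0 80,
  .mul 359 58,
  .mul 0 174,
  .mul 361 59,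
  .mul 20 0,
  .add 2 0,
  .add 4 22,
  .add 367 1,
  .mul 7 0,
  .add 2 0,
  .sub 370 0,
  .scale ⟨1073741824, 0, 0, 0⟩ 369,
  .sub 1 0,
  .sub 357 373,
  .add 0 322,
  .scale ⟨2199023255552, 0, 0, 0⟩ 67,
  .sub 1 0,
  .mul 210 0,
  .mul 4 2,
  .add 0 379,
  .inv 0,
  .mul 3 0,
  .mul 198 120,
  .scale ⟨549755813888, 0, 0, 0⟩ 205,
  .add 371 0,
  .mul 2 0,
  .scale ⟨2199023255552, 0, 0, 0⟩ 0,
  .add 130 0,
  .scale ⟨2199023255552, 0, 0, 0⟩ 0,
  .mul 0 120,
  .sub 370 33,
  .inv 0,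
  .mul 2 0,
  .sub 11 0,
  .mul 214 214,
  .const ⟨14293651161088, 0, 0, 0⟩,
  .mul 0 89,
  .mul 2 0,
  .mul 397 397,
  .scale ⟨27487790694400, 0, 0, 0⟩ 0,
  .add 2 0,
  .mul 91 47,
  .sub 366 400,
  .sub 0 368,
  .mul 404 406,
  .mul 0 404,
  .mul 386 144,
  .mul 0 225,
  .add 159 0,
  .add 52 357,
  .mul 410 0,
  .mul 10 9,
  .mul 143 1,
  .mul 7 4,
  .mul 1 0,
  .sub 3 0,
  .scale ⟨549755813888, 0, 0, 0⟩ 59,
  .add 417 0,
  .mul 149 0,
  .mul 417 400,
  .mul 0 245,
  .mul 401 373,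
  .inv 0,
  .mul 2 0,
  .mul 5 0,
  .sub 21 0,
  .mul 248 10,
  .sub 427 249,
  .mul 420 2,
  .mul 1 0,
  .mul 29 0,
  .add 4 0,
  .pos 243,
  .pos 240,
  .scale ⟨2199023255552, 0, 0, 0⟩ 166,
  .sub 385 0,
  .pos 0,
  .pos 158,
  .sub 429 269,
  .pos 0,
  .scale ⟨687194767360, 0, 0, 0⟩ 435,
  .sub 0 210,
  .pos 0,
  .scale ⟨377957122048, 0, 0, 0⟩ 437,
  .sub 0 216,
  .pos 0,
  .pos 48,
  .pos 155,
  .sub 3 143,
  .pos 0,
  .pos 46,
  .pos 67,
  .pos 8,
  .pos 14]

def chk1 {α : Type} (cst : Z → α) (add sub mul : α → α → α) (scale : Z → α → α)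
    (neg inv exp log : α → α) (ok : α → Bool) (isPos : Nat → α → Bool) (isLt : α → Nat → Bool) :
    List α → Bool
  | [x0, x1, x2, x3] =>
  let v0 := cst ⟨1099511627776, 0, 0, 0⟩; ok v0 && (
  let v1 := mul x1 x0; ok v1 && (
  let v2 := mul x2 x0; ok v2 && (
  let v3 := mul v2 x1; ok v3 && (
  let v4 := mul v3 v1; ok v4 && (
  let v5 := cst ⟨549755813888, 0, 0, 0⟩; ok v5 && (
  let v6 := mul v3 x3; ok v6 && (
  let v7 := scale ⟨549755813888, 0, 0, 0⟩ v6; ok v7 && (
  let v8 := mul x1 x1; ok v8 && (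
  let v9 := mul v7 v7; ok v9 && (
  let v10 := sub v0 v9; ok v10 && (
  let v11 := inv v10; ok v11 && (
  let v12 := mul v7 v11; ok v12 && (
  let v13 := scale ⟨2199023255552, 0, 0, 0⟩ v12; ok v13 && (
  let v14 := scale ⟨2199023255552, 0, 0, 0⟩ v11; ok v14 && (
  let v15 := sub v14 v0; ok v15 && (
  let v16 := add v15 v13; ok v16 && (
  let v17 := mul x3 v11; ok v17 && (
  let v18 := mul x1 v17; ok v18 && (
  let v19 := sub v0 v18; ok v19 && (
  let v20 := add v0 v18; ok v20 && (
  let v21 := mul v2 v8; ok v21 && (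
  let v22 := mul v17 v17; ok v22 && (
  let v23 := scale ⟨10774999203840, 0, 0, 0⟩ v7; ok v23 && (
  let v24 := scale ⟨45768245248, 0, 0, 0⟩ v23; ok v24 && (
  let v25 := cst ⟨183207198720, 0, 0, 0⟩; ok v25 && (
  let v26 := add v24 v25; ok v26 && (
  let v27 := mul v23 v26; ok v27 && (
  let v28 := add v5 v27; ok v28 && (
  let v29 := mul v23 v28; ok v29 && (
  let v30 := add v0 v29; ok v30 && (
  let v31 := mul v23 v30; ok v31 && (
  let v32 := scale ⟨549755813888, 0, 0, 0⟩ v31; ok v32 && (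
  let v33 := add v0 v32; ok v33 && (
  let v34 := mul v30 v33; ok v34 && (
  let v35 := mul v13 v18; ok v35 && (
  let v36 := scale ⟨2199023255552, 0, 0, 0⟩ v15; ok v36 && (
  let v37 := add v35 v36; ok v37 && (
  let v38 := add v37 v2; ok v38 && (
  let v39 := mul v21 v38; ok v39 && (
  let v40 := add v39 v0; ok v40 && (
  let v41 := mul v13 v13; ok v41 && (
  let v42 := scale ⟨2199023255552, 0, 0, 0⟩ v41; ok v42 && (
  let v43 := add v42 v0; ok v43 && (
  let v44 := mul v15 v38; ok v44 && (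
  let v45 := sub v44 v0; ok v45 && (
  let v46 := log v40; ok v46 && (
  let v47 := scale ⟨549755813888, 0, 0, 0⟩ v46; ok v47 && (
  let v48 := exp v47; ok v48 && (
  let v49 := cst ⟨3298534883328, 0, 0, 0⟩; ok v49 && (
  let v50 := inv v49; ok v50 && (
  let v51 := mul v0 v50; ok v51 && (
  let v52 := cst ⟨2199023255552, 0, 0, 0⟩; ok v52 && (
  let v53 := add v39 v52; ok v53 && (
  let v54 := inv v53; ok v54 && (
  let v55 := mul v39 v54; ok v55 && (
  let v56 := mul v55 v55; ok v56 && (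
  let v57 := sub v0 v55; ok v57 && (
  let v58 := mul v56 v51; ok v58 && (
  let v59 := add v0 v58; ok v59 && (
  let v60 := mul v57 v59; ok v60 && (
  let v61 := mul v56 v56; ok v61 && (
  let v62 := scale ⟨219915747328, 0, 0, 0⟩ v61; ok v62 && (
  let v63 := mul v38 v60; ok v63 && (
  let v64 := scale ⟨549755813888, 0, 0, 0⟩ v63; ok v64 && (
  let v65 := mul v38 v62; ok v65 && (
  let v66 := scale ⟨549755813888, 0, 0, 0⟩ v65; ok v66 && (
  let v67 := add v64 v66; ok v67 && (
  let v68 := mul v15 v45; ok v68 && (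
  let v69 := scale ⟨4398046511104, 0, 0, 0⟩ v68; ok v69 && (
  let v70 := mul v15 v21; ok v70 && (
  let v71 := mul v70 v45; ok v71 && (
  let v72 := scale ⟨4398046511104, 0, 0, 0⟩ v71; ok v72 && (
  let v73 := add v72 v52; ok v73 && (
  let v74 := inv v73; ok v74 && (
  let v75 := mul v72 v74; ok v75 && (
  let v76 := mul v75 v75; ok v76 && (
  let v77 := sub v0 v75; ok v77 && (
  let v78 := mul v76 v51; ok v78 && (
  let v79 := add v0 v78; ok v79 && (
  let v80 := mul v77 v79; ok v80 && (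
  let v81 := mul v76 v76; ok v81 && (
  let v82 := scale ⟨219915747328, 0, 0, 0⟩ v81; ok v82 && (
  let v83 := mul v69 v80; ok v83 && (
  let v84 := scale ⟨549755813888, 0, 0, 0⟩ v83; ok v84 && (
  let v85 := sub v84 v67; ok v85 && (
  let v86 := mul v69 v82; ok v86 && (
  let v87 := scale ⟨549755813888, 0, 0, 0⟩ v86; ok v87 && (
  let v88 := add v87 v66; ok v88 && (
  let v89 := add v85 v88; ok v89 && (
  let v90 := mul x0 x0; ok v90 && (
  let v91 := mul x0 v64; ok v91 && (
  let v92 := add v90 v91; ok v92 && (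
  let v93 := mul v64 v64; ok v93 && (
  let v94 := scale ⟨549755813888, 0, 0, 0⟩ v93; ok v94 && (
  let v95 := add v92 v94; ok v95 && (
  let v96 := inv v95; ok v96 && (
  let v97 := mul v90 v96; ok v97 && (
  let v98 := mul x0 v85; ok v98 && (
  let v99 := add v90 v98; ok v99 && (
  let v100 := mul v85 v85; ok v100 && (
  let v101 := scale ⟨549755813888, 0, 0, 0⟩ v100; ok v101 && (
  let v102 := add v99 v101; ok v102 && (
  let v103 := inv v102; ok v103 && (
  let v104 := mul v90 v103; ok v104 && (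
  let v105 := mul v18 v13; ok v105 && (
  let v106 := add v15 v105; ok v106 && (
  let v107 := inv v106; ok v107 && (
  let v108 := mul v20 v107; ok v108 && (
  let v109 := mul v19 v2; ok v109 && (
  let v110 := mul v109 v108; ok v110 && (
  let v111 := sub v0 v8; ok v111 && (
  let v112 := mul v22 v111; ok v112 && (
  let v113 := mul v3 v3; ok v113 && (
  let v114 := sub v0 v22; ok v114 && (
  let v115 := mul v111 v114; ok v115 && (
  let v116 := mul v21 v45; ok v116 && (
  let v117 := inv v40; ok v117 && (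
  let v118 := mul v116 v117; ok v118 && (
  let v119 := add v15 v118; ok v119 && (
  let v120 := mul v40 v119; ok v120 && (
  let v121 := mul v120 v120; ok v121 && (
  let v122 := inv v121; ok v122 && (
  let v123 := mul v115 v122; ok v123 && (
  let v124 := add v110 v0; ok v124 && (
  let v125 := mul v97 v124; ok v125 && (
  let v126 := sub v0 v125; ok v126 && (
  isPos 4 v126 && (
  let v127 := add v97 v0; ok v127 && (
  let v128 := inv v126; ok v128 && (
  let v129 := mul v127 v128; ok v129 && (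
  let v130 := scale ⟨549755813888, 0, 0, 0⟩ v129; ok v130 && (
  let v131 := add v130 v5; ok v131 && (
  let v132 := inv v131; ok v132 && (
  let v133 := mul v130 v132; ok v133 && (
  let v134 := mul v110 v133; ok v134 && (
  let v135 := scale ⟨549755813888, 0, 0, 0⟩ v134; ok v135 && (
  let v136 := sub v0 v135; ok v136 && (
  let v137 := sub v0 v134; ok v137 && (
  let v138 := inv v137; ok v138 && (
  let v139 := mul v136 v138; ok v139 && (
  let v140 := add v134 v0; ok v140 && (
  let v141 := mul v97 v140; ok v141 && (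
  let v142 := mul v108 v139; ok v142 && (
  let v143 := mul v142 v133; ok v143 && (
  let v144 := mul v134 v139; ok v144 && (
  isPos 4 v137 && (
  let v145 := mul v19 v20; ok v145 && (
  let v146 := add v15 v2; ok v146 && (
  let v147 := mul v18 v15; ok v147 && (
  let v148 := mul v147 v13; ok v148 && (
  let v149 := scale ⟨2199023255552, 0, 0, 0⟩ v148; ok v149 && (
  let v150 := add v43 v149; ok v150 && (
  let v151 := mul v146 v150; ok v151 && (
  let v152 := inv v151; ok v152 && (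
  let v153 := mul v145 v152; ok v153 && (
  let v154 := mul v2 v153; ok v154 && (
  isPos 4 v85 && (
  let v155 := add v154 v0; ok v155 && (
  let v156 := mul v104 v155; ok v156 && (
  let v157 := sub v0 v156; ok v157 && (
  isPos 4 v157 && (
  let v158 := add v104 v0; ok v158 && (
  let v159 := inv v157; ok v159 && (
  let v160 := mul v158 v159; ok v160 && (
  let v161 := scale ⟨549755813888, 0, 0, 0⟩ v160; ok v161 && (
  let v162 := add v161 v5; ok v162 && (
  let v163 := inv v162; ok v163 && (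
  let v164 := mul v161 v163; ok v164 && (
  let v165 := mul v154 v164; ok v165 && (
  let v166 := mul v164 v1; ok v166 && (
  let v167 := add v7 v0; ok v167 && (
  let v168 := inv v167; ok v168 && (
  let v169 := mul v7 v168; ok v169 && (
  let v170 := scale ⟨2199023255552, 0, 0, 0⟩ v169; ok v170 && (
  let v171 := sub v0 v170; ok v171 && (
  let v172 := sub v0 v7; ok v172 && (
  let v173 := mul x3 v168; ok v173 && (
  let v174 := mul v173 v171; ok v174 && (
  let v175 := add v20 v174; ok v175 && (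
  let v176 := scale ⟨224412041216, 0, 0, 0⟩ v11; ok v176 && (
  let v177 := inv v34; ok v177 && (
  let v178 := mul v176 v177; ok v178 && (
  let v179 := scale ⟨4398046511104, 0, 0, 0⟩ v1; ok v179 && (
  let v180 := mul v0 v17; ok v180 && (
  let v181 := add v179 v180; ok v181 && (
  let v182 := inv v181; ok v182 && (
  let v183 := mul v0 v182; ok v183 && (
  let v184 := mul v1 v182; ok v184 && (
  let v185 := mul v184 v20; ok v185 && (
  let v186 := mul v185 v178; ok v186 && (
  let v187 := mul v183 v20; ok v187 && (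
  let v188 := mul v187 v178; ok v188 && (
  let v189 := sub v0 v188; ok v189 && (
  let v190 := inv v189; ok v190 && (
  let v191 := mul v141 v188; ok v191 && (
  let v192 := sub v0 v191; ok v192 && (
  let v193 := inv v192; ok v193 && (
  let v194 := scale ⟨2199023255552, 0, 0, 0⟩ v4; ok v194 && (
  let v195 := add v194 v0; ok v195 && (
  let v196 := add v4 v0; ok v196 && (
  let v197 := scale ⟨1099511627776, 0, 0, 0⟩ v18; ok v197 && (
  let v198 := add v197 v0; ok v198 && (
  let v199 := scale ⟨549755813888, 0, 0, 0⟩ v198; ok v199 && (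
  let v200 := mul v7 v17; ok v200 && (
  let v201 := sub v0 v112; ok v201 && (
  let v202 := mul v7 v18; ok v202 && (
  let v203 := scale ⟨2199023255552, 0, 0, 0⟩ v202; ok v203 && (
  let v204 := sub v201 v203; ok v204 && (
  let v205 := mul v200 v200; ok v205 && (
  let v206 := add v204 v205; ok v206 && (
  let v207 := add v206 v0; ok v207 && (
  let v208 := scale ⟨549755813888, 0, 0, 0⟩ v207; ok v208 && (
  let v209 := scale ⟨549755813888, 0, 0, 0⟩ v21; ok v209 && (
  let v210 := sub v11 v209; ok v210 && (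
  let v211 := mul v113 v201; ok v211 && (
  let v212 := mul v211 v10; ok v212 && (
  let v213 := scale ⟨137438953472, 0, 0, 0⟩ v212; ok v213 && (
  let v214 := add v210 v213; ok v214 && (
  let v215 := mul v208 v214; ok v215 && (
  let v216 := add v141 v0; ok v216 && (
  let v217 := mul v216 v190; ok v217 && (
  let v218 := mul v141 v193; ok v218 && (
  let v219 := add v217 v218; ok v219 && (
  let v220 := mul v188 v219; ok v220 && (
  let v221 := add v144 v220; ok v221 && (
  let v222 := mul v221 v4; ok v222 && (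
  let v223 := mul v216 v188; ok v223 && (
  let v224 := mul v223 v190; ok v224 && (
  let v225 := add v144 v224; ok v225 && (
  let v226 := mul v225 v4; ok v226 && (
  let v227 := scale ⟨223338299392, 0, 0, 0⟩ v226; ok v227 && (
  let v228 := add v5 v227; ok v228 && (
  let v229 := mul v226 v228; ok v229 && (
  let v230 := add v0 v229; ok v230 && (
  let v231 := scale ⟨893353197568, 0, 0, 0⟩ v222; ok v231 && (
  let v232 := add v0 v231; ok v232 && (
  let v233 := mul v222 v232; ok v233 && (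
  let v234 := add v0 v233; ok v234 && (
  let v235 := mul v170 v173; ok v235 && (
  let v236 := mul v235 v195; ok v236 && (
  let v237 := mul v236 v234; ok v237 && (
  let v238 := mul v215 v230; ok v238 && (
  let v239 := add v48 v5; ok v239 && (
  let v240 := mul v237 v239; ok v240 && (
  let v241 := add v238 v240; ok v241 && (
  let v242 := add v48 v0; ok v242 && (
  let v243 := mul v237 v242; ok v243 && (
  let v244 := mul v196 v242; ok v244 && (
  let v245 := mul v244 v173; ok v245 && (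
  let v246 := mul v245 v172; ok v246 && (
  let v247 := mul v241 v143; ok v247 && (
  let v248 := mul v246 v199; ok v248 && (
  let v249 := add v247 v248; ok v249 && (
  let v250 := mul x2 v175; ok v250 && (
  let v251 := inv v48; ok v251 && (
  let v252 := mul v250 v251; ok v252 && (
  let v253 := scale ⟨549755813888, 0, 0, 0⟩ v252; ok v253 && (
  let v254 := mul v19 v253; ok v254 && (
  let v255 := mul v2 v249; ok v255 && (
  let v256 := add v254 v255; ok v256 && (
  let v257 := mul v1 v256; ok v257 && (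
  let v258 := mul v241 v216; ok v258 && (
  let v259 := mul v258 v190; ok v259 && (
  let v260 := mul v243 v141; ok v260 && (
  let v261 := mul v260 v193; ok v261 && (
  let v262 := add v259 v261; ok v262 && (
  let v263 := mul v19 v257; ok v263 && (
  let v264 := mul v186 v262; ok v264 && (
  let v265 := add v263 v264; ok v265 && (
  let v266 := mul v113 v265; ok v266 && (
  let v267 := mul v266 v251; ok v267 && (
  let v268 := sub v0 v267; ok v268 && (
  let v269 := inv v268; ok v269 && (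
  let v270 := mul v265 v269; ok v270 && (
  let v271 := mul v2 v270; ok v271 && (
  let v272 := mul v113 v270; ok v272 && (
  let v273 := mul v272 v251; ok v273 && (
  let v274 := sub v0 v273; ok v274 && (
  let v275 := mul v45 v274; ok v275 && (
  let v276 := sub v275 v271; ok v276 && (
  let v277 := inv v276; ok v277 && (
  let v278 := mul v271 v277; ok v278 && (
  let v279 := sub v48 v272; ok v279 && (
  let v280 := inv v279; ok v280 && (
  let v281 := mul v278 v164; ok v281 && (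
  let v282 := scale ⟨549755813888, 0, 0, 0⟩ v281; ok v282 && (
  let v283 := sub v0 v282; ok v283 && (
  let v284 := sub v0 v281; ok v284 && (
  let v285 := inv v284; ok v285 && (
  let v286 := mul v283 v285; ok v286 && (
  let v287 := mul x1 v280; ok v287 && (
  let v288 := mul v166 v277; ok v288 && (
  let v289 := mul v288 v286; ok v289 && (
  let v290 := add v287 v289; ok v290 && (
  let v291 := mul x2 v270; ok v291 && (
  let v292 := mul v280 v291; ok v292 && (
  let v293 := mul v164 v277; ok v293 && (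
  let v294 := mul v293 v286; ok v294 && (
  let v295 := mul v294 v271; ok v295 && (
  let v296 := add v292 v295; ok v296 && (
  let v297 := scale ⟨223338299392, 0, 0, 0⟩ v296; ok v297 && (
  let v298 := add v5 v297; ok v298 && (
  let v299 := mul v296 v298; ok v299 && (
  let v300 := add v0 v299; ok v300 && (
  let v301 := mul v290 v300; ok v301 && (
  let v302 := mul v301 v269; ok v302 && (
  let v303 := mul v302 v262; ok v303 && (
  let v304 := mul v187 v19; ok v304 && (
  let v305 := cst ⟨7696581394432, 0, 0, 0⟩; ok v305 && (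
  let v306 := cst ⟨10995116277760, 0, 0, 0⟩; ok v306 && (
  let v307 := inv v306; ok v307 && (
  let v308 := mul v305 v307; ok v308 && (
  let v309 := mul v167 v20; ok v309 && (
  let v310 := mul v309 v308; ok v310 && (
  let v311 := mul v146 v107; ok v311 && (
  let v312 := mul v18 v311; ok v312 && (
  let v313 := scale ⟨549755813888, 0, 0, 0⟩ v165; ok v313 && (
  let v314 := sub v0 v313; ok v314 && (
  let v315 := sub v0 v165; ok v315 && (
  let v316 := inv v315; ok v316 && (
  let v317 := mul v314 v316; ok v317 && (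
  let v318 := mul v317 v154; ok v318 && (
  let v319 := mul v113 v123; ok v319 && (
  let v320 := scale ⟨733097230336, 0, 0, 0⟩ v319; ok v320 && (
  let v321 := sub v0 v320; ok v321 && (
  let v322 := mul v123 v321; ok v322 && (
  let v323 := mul v8 v100; ok v323 && (
  let v324 := add v322 v323; ok v324 && (
  let v325 := mul v318 v166; ok v325 && (
  let v326 := add v324 v0; ok v326 && (
  let v327 := mul v325 v326; ok v327 && (
  let v328 := sub v324 v327; ok v328 && (
  let v329 := scale ⟨366548615168, 0, 0, 0⟩ v41; ok v329 && (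
  let v330 := sub v0 v329; ok v330 && (
  let v331 := mul v22 v330; ok v331 && (
  let v332 := add v328 v331; ok v332 && (
  let v333 := mul v311 v332; ok v333 && (
  let v334 := mul v312 v312; ok v334 && (
  let v335 := add v0 v334; ok v335 && (
  let v336 := inv v335; ok v336 && (
  let v337 := mul v333 v336; ok v337 && (
  let v338 := sub v0 v278; ok v338 && (
  let v339 := mul v338 v337; ok v339 && (
  let v340 := sub v0 v325; ok v340 && (
  isPos 4 v340 && (
  isPos 4 v337 && (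
  isPos 4 v338 && (
  let v341 := mul v302 v181; ok v341 && (
  let v342 := mul v341 v256; ok v342 && (
  let v343 := inv v20; ok v343 && (
  let v344 := mul v342 v343; ok v344 && (
  let v345 := mul x0 v339; ok v345 && (
  let v346 := add v90 v345; ok v346 && (
  let v347 := mul v339 v339; ok v347 && (
  let v348 := scale ⟨549755813888, 0, 0, 0⟩ v347; ok v348 && (
  let v349 := add v346 v348; ok v349 && (
  let v350 := inv v349; ok v350 && (
  let v351 := mul v90 v350; ok v351 && (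
  let v352 := mul v2 v310; ok v352 && (
  let v353 := add v0 v352; ok v353 && (
  let v354 := inv v353; ok v354 && (
  let v355 := mul v351 v354; ok v355 && (
  let v356 := mul v355 v16; ok v356 && (
  let v357 := mul v3 v270; ok v357 && (
  let v358 := mul v357 v343; ok v358 && (
  let v359 := add v0 v358; ok v359 && (
  let v360 := mul v356 v359; ok v360 && (
  let v361 := mul v360 v280; ok v361 && (
  let v362 := mul v2 v303; ok v362 && (
  let v363 := mul v362 v188; ok v363 && (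
  let v364 := mul v2 v304; ok v364 && (
  let v365 := mul v344 v364; ok v365 && (
  let v366 := add v363 v365; ok v366 && (
  let v367 := add v362 v344; ok v367 && (
  let v368 := add v0 v366; ok v368 && (
  let v369 := mul v361 v368; ok v369 && (
  let v370 := add v367 v369; ok v370 && (
  let v371 := sub v0 v370; ok v371 && (
  let v372 := scale ⟨1073741824, 0, 0, 0⟩ v2; ok v372 && (
  let v373 := sub v371 v372; ok v373 && (
  let v374 := sub v16 v0; ok v374 && (
  let v375 := add v374 v52; ok v375 && (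
  let v376 := scale ⟨2199023255552, 0, 0, 0⟩ v308; ok v376 && (
  let v377 := sub v375 v376; ok v377 && (
  let v378 := mul v167 v377; ok v378 && (
  let v379 := mul v374 v376; ok v379 && (
  let v380 := add v379 v0; ok v380 && (
  let v381 := inv v380; ok v381 && (
  let v382 := mul v378 v381; ok v382 && (
  let v383 := mul v184 v262; ok v383 && (
  let v384 := scale ⟨549755813888, 0, 0, 0⟩ v178; ok v384 && (
  let v385 := add v13 v384; ok v385 && (
  let v386 := mul v383 v385; ok v386 && (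
  let v387 := scale ⟨2199023255552, 0, 0, 0⟩ v386; ok v387 && (
  let v388 := add v257 v387; ok v388 && (
  let v389 := scale ⟨2199023255552, 0, 0, 0⟩ v388; ok v389 && (
  let v390 := mul v389 v269; ok v390 && (
  let v391 := sub v20 v357; ok v391 && (
  let v392 := inv v391; ok v392 && (
  let v393 := mul v390 v392; ok v393 && (
  let v394 := sub v382 v393; ok v394 && (
  let v395 := mul v180 v180; ok v395 && (
  let v396 := cst ⟨14293651161088, 0, 0, 0⟩; ok v396 && (
  let v397 := mul v396 v307; ok v397 && (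
  let v398 := mul v395 v397; ok v398 && (
  let v399 := mul v1 v1; ok v399 && (
  let v400 := scale ⟨27487790694400, 0, 0, 0⟩ v399; ok v400 && (
  let v401 := add v398 v400; ok v401 && (
  let v402 := mul v310 v354; ok v402 && (
  let v403 := sub v36 v2; ok v403 && (
  let v404 := sub v403 v35; ok v404 && (
  let v405 := mul v0 x1; ok v405 && (
  let v406 := mul v405 v1; ok v406 && (
  let v407 := mul v20 v262; ok v407 && (
  let v408 := mul v407 v182; ok v408 && (
  let v409 := add v249 v408; ok v409 && (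
  let v410 := add v357 v52; ok v410 && (
  let v411 := mul v0 v410; ok v411 && (
  let v412 := mul v401 v402; ok v412 && (
  let v413 := mul v269 v411; ok v413 && (
  let v414 := mul v406 v409; ok v414 && (
  let v415 := mul v413 v414; ok v415 && (
  let v416 := sub v412 v415; ok v416 && (
  let v417 := scale ⟨549755813888, 0, 0, 0⟩ v357; ok v417 && (
  let v418 := add v0 v417; ok v418 && (
  let v419 := mul v269 v418; ok v419 && (
  let v420 := mul v2 v19; ok v420 && (
  let v421 := mul v420 v175; ok v421 && (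
  let v422 := mul v20 v48; ok v422 && (
  let v423 := inv v422; ok v423 && (
  let v424 := mul v421 v423; ok v424 && (
  let v425 := mul v419 v424; ok v425 && (
  let v426 := sub v404 v425; ok v426 && (
  let v427 := mul v178 v416; ok v427 && (
  let v428 := sub v0 v178; ok v428 && (
  let v429 := mul v8 v426; ok v429 && (
  let v430 := mul v428 v429; ok v430 && (
  let v431 := mul v401 v430; ok v431 && (
  let v432 := add v427 v431; ok v432 && (
  isPos 4 v189 && (
  isPos 4 v192 && (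
  let v433 := scale ⟨2199023255552, 0, 0, 0⟩ v266; ok v433 && (
  let v434 := sub v48 v433; ok v434 && (
  isPos 4 v434 && (
  isPos 4 v276 && (
  let v435 := sub v5 v165; ok v435 && (
  isPos 4 v435 && (
  let v436 := scale ⟨687194767360, 0, 0, 0⟩ v0; ok v436 && (
  let v437 := sub v436 v226; ok v437 && (
  isPos 4 v437 && (
  let v438 := scale ⟨377957122048, 0, 0, 0⟩ v0; ok v438 && (
  let v439 := sub v438 v222; ok v439 && (
  isPos 4 v439 && (
  isPos 4 v391 && (
  isPos 4 v284 && (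
  let v440 := sub v436 v296; ok v440 && (
  isPos 4 v440 && (
  isPos 4 v394 && (
  isPos 4 v373 && (
  isPos 4 v432 && (
  isPos 4 v426 && (
  true))))))))))))))))))))))))))))))))))))))))))))))))))))))))))))))))))))))))))))))))))))))))))))))))))))))))))))))))))))))))))))))))))))))))))))))))))))))))))))))))))))))))))))))))))))))))))))))))))))))))))))))))))))))))))))))))))))))))))))))))))))))))))))))))))))))))))))))))))))))))))))))))))))))))))))))))))))))))))))))))))))))))))))))))))))))))))))))))))))))))))))))))))))))))))))))))))))))))))))))))))))))))))))))))))))))))))))))))))))))))))))))))))))))))))))))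
  | _ => false

set_option maxRecDepth 1000000 in
theorem chk1_eq (O : Ops) (m : List O.α)
    (h : chk1 O.cst O.add O.sub O.mul O.scale O.neg O.inv O.exp O.log O.ok O.isPos O.isLt m = true) :
    runG O 4 prog1 m = true := by
  match m, h with
  | [x0, x1, x2, x3], h => exact h

def chkB1 : List opsE.α → Bool :=
  chk1 opsE.cst opsE.add opsE.sub opsE.mul opsE.scale opsE.neg opsE.inv opsE.exp opsE.log opsE.ok opsE.isPos opsE.isLt

theorem chkB1_eq (m : List opsE.α) (h : chkB1 m = true) : runG opsE 4 prog1 m = true :=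
  chk1_eq opsE m h

def prog2 : List Op := [
  .const ⟨1099511627776, 0, 0, 0⟩,
  .mul 2 1,
  .mul 4 2,
  .mul 0 4,
  .mul 0 2,
  .const ⟨549755813888, 0, 0, 0⟩,
  .mul 2 9,
  .scale ⟨549755813888, 0, 0, 0⟩ 0,
  .mul 9 9,
  .mul 1 1,
  .sub 9 0,
  .inv 0,
  .mul 4 0,
  .scale ⟨2199023255552, 0, 0, 0⟩ 0,
  .scale ⟨2199023255552, 0, 0, 0⟩ 2,
  .sub 0 14,
  .add 0 2,
  .mul 20 5,
  .mul 19 0,
  .sub 18 0,
  .add 19 1,
  .mul 18 12,
  .mul 4 4,
  .scale ⟨10774999203840, 0, 0, 0⟩ 15,
  .scale ⟨45768245248, 0, 0, 0⟩ 0,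
  .const ⟨183207198720, 0, 0, 0⟩,
  .add 1 0,
  .mul 3 0,
  .add 22 0,
  .mul 5 0,
  .add 29 0,
  .mul 7 0,
  .scale ⟨549755813888, 0, 0, 0⟩ 0,
  .add 32 0,
  .mul 3 0,
  .mul 21 16,
  .scale ⟨2199023255552, 0, 0, 0⟩ 20,
  .add 1 0,
  .add 0 35,
  .mul 17 0,
  .add 0 39,
  .mul 27 27,
  .scale ⟨2199023255552, 0, 0, 0⟩ 0,
  .add 0 42,
  .mul 28 5,
  .sub 0 44,
  .log 5,
  .scale ⟨549755813888, 0, 0, 0⟩ 0,
  .exp 0,
  .const ⟨3298534883328, 0, 0, 0⟩,
  .inv 0,
  .mul 50 0,
  .const ⟨2199023255552, 0, 0, 0⟩,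
  .add 13 0,
  .inv 0,
  .mul 15 0,
  .mul 0 0,
  .sub 56 1,
  .mul 1 6,
  .add 58 0,
  .mul 2 0,
  .mul 4 4,
  .scale ⟨219915747328, 0, 0, 0⟩ 0,
  .mul 24 2,
  .scale ⟨549755813888, 0, 0, 0⟩ 0,
  .mul 26 2,
  .scale ⟨549755813888, 0, 0, 0⟩ 0,
  .add 2 0,
  .mul 52 22,
  .scale ⟨4398046511104, 0, 0, 0⟩ 0,
  .mul 54 48,
  .mul 0 25,
  .scale ⟨4398046511104, 0, 0, 0⟩ 0,
  .add 0 20,
  .inv 0,
  .mul 2 0,
  .mul 0 0,
  .sub 76 1,
  .mul 1 26,
  .add 78 0,
  .mul 2 0,
  .mul 4 4,
  .scale ⟨219915747328, 0, 0, 0⟩ 0,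
  .mul 13 2,
  .scale ⟨549755813888, 0, 0, 0⟩ 0,
  .sub 0 17,
  .mul 16 3,
  .scale ⟨549755813888, 0, 0, 0⟩ 0,
  .add 0 21,
  .add 3 0,
  .mul 90 90,
  .mul 91 26,
  .add 1 0,
  .mul 28 28,
  .scale ⟨549755813888, 0, 0, 0⟩ 0,
  .add 2 0,
  .inv 0,
  .mul 6 0,
  .mul 98 12,
  .add 8 0,
  .mul 14 14,
  .scale ⟨549755813888, 0, 0, 0⟩ 0,
  .add 2 0,
  .inv 0,
  .mul 13 0,
  .mul 86 91,
  .add 90 0,
  .inv 0,
  .mul 87 0,
  .mul 89 106,
  .mul 0 1,
  .sub 110 102,
  .mul 89 0,
  .mul 109 109,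
  .sub 113 91,
  .mul 3 0,
  .mul 94 70,
  .inv 76,
  .mul 1 0,
  .add 103 0,
  .mul 79 0,
  .mul 0 0,
  .inv 0,
  .mul 7 0,
  .add 13 123,
  .mul 27 0,
  .sub 125 0,
  .pos 0,
  .add 29 126,
  .inv 1,
  .mul 1 0,
  .scale ⟨549755813888, 0, 0, 0⟩ 0,
  .add 0 125,
  .inv 0,
  .mul 2 0,
  .mul 23 0,
  .scale ⟨549755813888, 0, 0, 0⟩ 0,
  .sub 135 0,
  .sub 136 2,
  .inv 0,
  .mul 2 0,
  .add 5 139,
  .mul 43 0,
  .mul 33 2,
  .mul 0 9,
  .mul 9 4,
  .pos 7,
  .mul 125 124,
  .add 130 143,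
  .mul 128 131,
  .mul 0 134,
  .scale ⟨2199023255552, 0, 0, 0⟩ 0,
  .add 106 0,
  .mul 4 0,
  .inv 0,
  .mul 7 0,
  .mul 151 0,
  .pos 69,
  .add 0 154,
  .mul 51 0,
  .sub 156 0,
  .pos 0,
  .add 53 157,
  .inv 1,
  .mul 1 0,
  .scale ⟨549755813888, 0, 0, 0⟩ 0,
  .add 0 156,
  .inv 0,
  .mul 2 0,
  .mul 10 0,
  .mul 1 164,
  .add 159 166,
  .inv 0,
  .mul 161 0,
  .scale ⟨2199023255552, 0, 0, 0⟩ 0,
  .sub 170 0,
  .sub 171 164,
  .mul 176 4,
  .mul 0 2,
  .add 154 0,
  .scale ⟨224412041216, 0, 0, 0⟩ 164,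
  .inv 142,
  .mul 1 0,
  .scale ⟨4398046511104, 0, 0, 0⟩ 177,
  .mul 179 162,
  .add 1 0,
  .inv 0,
  .mul 182 0,
  .mul 182 1,
  .mul 0 164,
  .mul 0 7,
  .mul 3 166,
  .mul 0 9,
  .sub 188 0,
  .inv 0,
  .mul 49 2,
  .sub 191 0,
  .inv 0,
  .mul 174 60,
  .inv 176,
  .mul 1 0,
  .scale ⟨549755813888, 0, 0, 0⟩ 0,
  .sub 197 0,
  .sub 198 2,
  .inv 0,
  .mul 2 0,
  .mul 0 68,
  .mul 6 1,
  .mul 0 199,
  .pos 5,
  .scale ⟨1374389534720, 0, 0, 0⟩ 0,
  .sub 200 0,
  .pos 0,
  .scale ⟨3092376453120, 0, 0, 0⟩ 2,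
  .add 0 155,
  .mul 4 0,
  .add 209 0,
  .scale ⟨1546188226560, 0, 0, 0⟩ 6,
  .add 0 211,
  .mul 8 0,
  .add 213 0,
  .mul 207 197,
  .sub 215 103,
  .mul 209 198,
  .scale ⟨2199023255552, 0, 0, 0⟩ 0,
  .sub 2 0,
  .mul 4 4,
  .add 1 0,
  .add 0 221,
  .scale ⟨549755813888, 0, 0, 0⟩ 0,
  .scale ⟨549755813888, 0, 0, 0⟩ 202,
  .sub 213 0,
  .mul 112 9,
  .mul 0 216,
  .scale ⟨137438953472, 0, 0, 0⟩ 0,
  .add 3 0,
  .mul 6 0,
  .add 89 230,
  .mul 0 41,
  .mul 91 39,
  .add 1 0,
  .mul 46 0,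
  .add 91 0,
  .mul 0 232,
  .mul 6 49,
  .mul 0 48,
  .add 95 0,
  .mul 0 236,
  .scale ⟨223338299392, 0, 0, 0⟩ 0,
  .add 237 0,
  .mul 2 0,
  .add 244 0,
  .scale ⟨893353197568, 0, 0, 0⟩ 8,
  .add 246 0,
  .mul 10 0,
  .add 248 0,
  .mul 79 76,
  .mul 0 40,
  .mul 0 2,
  .mul 22 7,
  .add 205 248,
  .mul 2 0,
  .add 2 0,
  .add 208 256,
  .mul 5 0,
  .mul 44 1,
  .mul 0 86,
  .mul 0 88,
  .mul 5 118,
  .mul 1 60,
  .add 1 0,
  .mul 267 89,
  .inv 217,
  .mul 1 0,
  .scale ⟨549755813888, 0, 0, 0⟩ 0,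
  .mul 249 0,
  .mul 267 5,
  .add 1 0,
  .mul 270 0,
  .mul 16 41,
  .mul 0 83,
  .mul 16 133,
  .mul 0 82,
  .add 2 0,
  .mul 258 5,
  .mul 92 1,
  .add 1 0,
  .mul 167 0,
  .mul 0 15,
  .sub 282 0,
  .inv 0,
  .mul 4 0,
  .mul 283 0,
  .mul 173 1,
  .mul 0 21,
  .sub 288 0,
  .mul 244 0,
  .sub 0 4,
  .inv 0,
  .mul 6 0,
  .sub 245 6,
  .inv 0,
  .mul 2 131,
  .scale ⟨549755813888, 0, 0, 0⟩ 0,
  .sub 297 0,
  .sub 298 2,
  .inv 0,
  .mul 2 0,
  .mul 303 6,
  .mul 136 10,
  .mul 0 2,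
  .add 2 0,
  .mul 308 20,
  .mul 11 0,
  .mul 143 15,
  .mul 0 7,
  .mul 0 23,
  .add 3 0,
  .scale ⟨223338299392, 0, 0, 0⟩ 0,
  .add 307 0,
  .mul 2 0,
  .add 314 0,
  .mul 10 0,
  .mul 0 32,
  .mul 0 40,
  .mul 131 299,
  .const ⟨7696581394432, 0, 0, 0⟩,
  .const ⟨10995116277760, 0, 0, 0⟩,
  .inv 0,
  .mul 2 0,
  .mul 156 303,
  .mul 0 1,
  .mul 179 218,
  .mul 308 0,
  .scale ⟨549755813888, 0, 0, 0⟩ 162,
  .sub 328 0,
  .sub 329 164,
  .inv 0,
  .mul 2 0,
  .mul 0 178,
  .mul 220 210,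
  .scale ⟨733097230336, 0, 0, 0⟩ 0,
  .sub 335 0,
  .mul 213 0,
  .mul 329 237,
  .add 1 0,
  .mul 6 173,
  .add 1 340,
  .mul 1 0,
  .sub 3 0,
  .scale ⟨366548615168, 0, 0, 0⟩ 302,
  .sub 344 0,
  .mul 323 0,
  .add 3 0,
  .mul 21 0,
  .mul 21 21,
  .add 349 0,
  .inv 0,
  .mul 3 0,
  .sub 352 59,
  .mul 0 1,
  .sub 354 14,
  .pos 0,
  .pos 3,
  .pos 2,
  .mul 38 174,
  .mul 0 85,
  .inv 337,
  .mul 1 0,
  .mul 360 5,
  .add 270 0,
  .mul 7 7,
  .scale ⟨549755813888, 0, 0, 0⟩ 0,
  .add 2 0,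
  .inv 0,
  .mul 275 0,
  .mul 364 41,
  .add 367 0,
  .inv 0,
  .mul 3 0,
  .mul 0 354,
  .mul 368 86,
  .mul 0 14,
  .add 373 0,
  .mul 3 0,
  .mul 0 80,
  .mul 374 58,
  .mul 0 189,
  .mul 376 59,
  .mul 20 0,
  .add 2 0,
  .add 4 22,
  .add 382 1,
  .mul 7 0,
  .add 2 0,
  .sub 385 0,
  .scale ⟨1073741824, 0, 0, 0⟩ 384,
  .sub 1 0,
  .sub 372 388,
  .add 0 337,
  .scale ⟨2199023255552, 0, 0, 0⟩ 67,
  .sub 1 0,
  .mul 225 0,
  .mul 4 2,
  .add 0 394,
  .inv 0,
  .mul 3 0,
  .mul 213 120,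
  .scale ⟨549755813888, 0, 0, 0⟩ 220,
  .add 386 0,
  .mul 2 0,
  .scale ⟨2199023255552, 0, 0, 0⟩ 0,
  .add 130 0,
  .scale ⟨2199023255552, 0, 0, 0⟩ 0,
  .mul 0 120,
  .sub 385 33,
  .inv 0,
  .mul 2 0,
  .sub 11 0,
  .mul 229 229,
  .const ⟨14293651161088, 0, 0, 0⟩,
  .mul 0 89,
  .mul 2 0,
  .mul 412 412,
  .scale ⟨27487790694400, 0, 0, 0⟩ 0,
  .add 2 0,
  .mul 91 47,
  .sub 381 415,
  .sub 0 383,
  .mul 419 421,
  .mul 0 419,
  .mul 401 144,
  .mul 0 240,
  .add 159 0,
  .add 52 372,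
  .mul 425 0,
  .mul 10 9,
  .mul 143 1,
  .mul 7 4,
  .mul 1 0,
  .sub 3 0,
  .scale ⟨549755813888, 0, 0, 0⟩ 59,
  .add 432 0,
  .mul 149 0,
  .mul 432 415,
  .mul 0 260,
  .mul 416 388,
  .inv 0,
  .mul 2 0,
  .mul 5 0,
  .sub 21 0,
  .mul 263 10,
  .sub 442 264,
  .mul 435 2,
  .mul 1 0,
  .mul 29 0,
  .add 4 0,
  .pos 258,
  .pos 255,
  .scale ⟨2199023255552, 0, 0, 0⟩ 166,
  .sub 400 0,
  .pos 0,
  .pos 158,
  .sub 444 284,
  .pos 0,
  .scale ⟨687194767360, 0, 0, 0⟩ 450,
  .sub 0 210,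
  .pos 0,
  .scale ⟨377957122048, 0, 0, 0⟩ 452,
  .sub 0 216,
  .pos 0,
  .pos 48,
  .pos 155,
  .sub 3 143,
  .pos 0,
  .pos 46,
  .pos 67,
  .pos 8,
  .pos 14]

def chk2 {α : Type} (cst : Z → α) (add sub mul : α → α → α) (scale : Z → α → α)
    (neg inv exp log : α → α) (ok : α → Bool) (isPos : Nat → α → Bool) (isLt : α → Nat → Bool) :
    List α → Bool
  | [x0, x1, x2, x3] =>
  let v0 := cst ⟨1099511627776, 0, 0, 0⟩; ok v0 && (
  let v1 := mul x1 x0; ok v1 && (
  let v2 := mul x2 x0; ok v2 && (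
  let v3 := mul v2 x1; ok v3 && (
  let v4 := mul v3 v1; ok v4 && (
  let v5 := cst ⟨549755813888, 0, 0, 0⟩; ok v5 && (
  let v6 := mul v3 x3; ok v6 && (
  let v7 := scale ⟨549755813888, 0, 0, 0⟩ v6; ok v7 && (
  let v8 := mul x1 x1; ok v8 && (
  let v9 := mul v7 v7; ok v9 && (
  let v10 := sub v0 v9; ok v10 && (
  let v11 := inv v10; ok v11 && (
  let v12 := mul v7 v11; ok v12 && (
  let v13 := scale ⟨2199023255552, 0, 0, 0⟩ v12; ok v13 && (
  let v14 := scale ⟨2199023255552, 0, 0, 0⟩ v11; ok v14 && (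
  let v15 := sub v14 v0; ok v15 && (
  let v16 := add v15 v13; ok v16 && (
  let v17 := mul x3 v11; ok v17 && (
  let v18 := mul x1 v17; ok v18 && (
  let v19 := sub v0 v18; ok v19 && (
  let v20 := add v0 v18; ok v20 && (
  let v21 := mul v2 v8; ok v21 && (
  let v22 := mul v17 v17; ok v22 && (
  let v23 := scale ⟨10774999203840, 0, 0, 0⟩ v7; ok v23 && (
  let v24 := scale ⟨45768245248, 0, 0, 0⟩ v23; ok v24 && (
  let v25 := cst ⟨183207198720, 0, 0, 0⟩; ok v25 && (
  let v26 := add v24 v25; ok v26 && (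
  let v27 := mul v23 v26; ok v27 && (
  let v28 := add v5 v27; ok v28 && (
  let v29 := mul v23 v28; ok v29 && (
  let v30 := add v0 v29; ok v30 && (
  let v31 := mul v23 v30; ok v31 && (
  let v32 := scale ⟨549755813888, 0, 0, 0⟩ v31; ok v32 && (
  let v33 := add v0 v32; ok v33 && (
  let v34 := mul v30 v33; ok v34 && (
  let v35 := mul v13 v18; ok v35 && (
  let v36 := scale ⟨2199023255552, 0, 0, 0⟩ v15; ok v36 && (
  let v37 := add v35 v36; ok v37 && (
  let v38 := add v37 v2; ok v38 && (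
  let v39 := mul v21 v38; ok v39 && (
  let v40 := add v39 v0; ok v40 && (
  let v41 := mul v13 v13; ok v41 && (
  let v42 := scale ⟨2199023255552, 0, 0, 0⟩ v41; ok v42 && (
  let v43 := add v42 v0; ok v43 && (
  let v44 := mul v15 v38; ok v44 && (
  let v45 := sub v44 v0; ok v45 && (
  let v46 := log v40; ok v46 && (
  let v47 := scale ⟨549755813888, 0, 0, 0⟩ v46; ok v47 && (
  let v48 := exp v47; ok v48 && (
  let v49 := cst ⟨3298534883328, 0, 0, 0⟩; ok v49 && (
  let v50 := inv v49; ok v50 && (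
  let v51 := mul v0 v50; ok v51 && (
  let v52 := cst ⟨2199023255552, 0, 0, 0⟩; ok v52 && (
  let v53 := add v39 v52; ok v53 && (
  let v54 := inv v53; ok v54 && (
  let v55 := mul v39 v54; ok v55 && (
  let v56 := mul v55 v55; ok v56 && (
  let v57 := sub v0 v55; ok v57 && (
  let v58 := mul v56 v51; ok v58 && (
  let v59 := add v0 v58; ok v59 && (
  let v60 := mul v57 v59; ok v60 && (
  let v61 := mul v56 v56; ok v61 && (
  let v62 := scale ⟨219915747328, 0, 0, 0⟩ v61; ok v62 && (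
  let v63 := mul v38 v60; ok v63 && (
  let v64 := scale ⟨549755813888, 0, 0, 0⟩ v63; ok v64 && (
  let v65 := mul v38 v62; ok v65 && (
  let v66 := scale ⟨549755813888, 0, 0, 0⟩ v65; ok v66 && (
  let v67 := add v64 v66; ok v67 && (
  let v68 := mul v15 v45; ok v68 && (
  let v69 := scale ⟨4398046511104, 0, 0, 0⟩ v68; ok v69 && (
  let v70 := mul v15 v21; ok v70 && (
  let v71 := mul v70 v45; ok v71 && (
  let v72 := scale ⟨4398046511104, 0, 0, 0⟩ v71; ok v72 && (
  let v73 := add v72 v52; ok v73 && (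
  let v74 := inv v73; ok v74 && (
  let v75 := mul v72 v74; ok v75 && (
  let v76 := mul v75 v75; ok v76 && (
  let v77 := sub v0 v75; ok v77 && (
  let v78 := mul v76 v51; ok v78 && (
  let v79 := add v0 v78; ok v79 && (
  let v80 := mul v77 v79; ok v80 && (
  let v81 := mul v76 v76; ok v81 && (
  let v82 := scale ⟨219915747328, 0, 0, 0⟩ v81; ok v82 && (
  let v83 := mul v69 v80; ok v83 && (
  let v84 := scale ⟨549755813888, 0, 0, 0⟩ v83; ok v84 && (
  let v85 := sub v84 v67; ok v85 && (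
  let v86 := mul v69 v82; ok v86 && (
  let v87 := scale ⟨549755813888, 0, 0, 0⟩ v86; ok v87 && (
  let v88 := add v87 v66; ok v88 && (
  let v89 := add v85 v88; ok v89 && (
  let v90 := mul x0 x0; ok v90 && (
  let v91 := mul x0 v64; ok v91 && (
  let v92 := add v90 v91; ok v92 && (
  let v93 := mul v64 v64; ok v93 && (
  let v94 := scale ⟨549755813888, 0, 0, 0⟩ v93; ok v94 && (
  let v95 := add v92 v94; ok v95 && (
  let v96 := inv v95; ok v96 && (
  let v97 := mul v90 v96; ok v97 && (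
  let v98 := mul x0 v85; ok v98 && (
  let v99 := add v90 v98; ok v99 && (
  let v100 := mul v85 v85; ok v100 && (
  let v101 := scale ⟨549755813888, 0, 0, 0⟩ v100; ok v101 && (
  let v102 := add v99 v101; ok v102 && (
  let v103 := inv v102; ok v103 && (
  let v104 := mul v90 v103; ok v104 && (
  let v105 := mul v18 v13; ok v105 && (
  let v106 := add v15 v105; ok v106 && (
  let v107 := inv v106; ok v107 && (
  let v108 := mul v20 v107; ok v108 && (
  let v109 := mul v19 v2; ok v109 && (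
  let v110 := mul v109 v108; ok v110 && (
  let v111 := sub v0 v8; ok v111 && (
  let v112 := mul v22 v111; ok v112 && (
  let v113 := mul v3 v3; ok v113 && (
  let v114 := sub v0 v22; ok v114 && (
  let v115 := mul v111 v114; ok v115 && (
  let v116 := mul v21 v45; ok v116 && (
  let v117 := inv v40; ok v117 && (
  let v118 := mul v116 v117; ok v118 && (
  let v119 := add v15 v118; ok v119 && (
  let v120 := mul v40 v119; ok v120 && (
  let v121 := mul v120 v120; ok v121 && (
  let v122 := inv v121; ok v122 && (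
  let v123 := mul v115 v122; ok v123 && (
  let v124 := add v110 v0; ok v124 && (
  let v125 := mul v97 v124; ok v125 && (
  let v126 := sub v0 v125; ok v126 && (
  isPos 4 v126 && (
  let v127 := add v97 v0; ok v127 && (
  let v128 := inv v126; ok v128 && (
  let v129 := mul v127 v128; ok v129 && (
  let v130 := scale ⟨549755813888, 0, 0, 0⟩ v129; ok v130 && (
  let v131 := add v130 v5; ok v131 && (
  let v132 := inv v131; ok v132 && (
  let v133 := mul v130 v132; ok v133 && (
  let v134 := mul v110 v133; ok v134 && (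
  let v135 := scale ⟨549755813888, 0, 0, 0⟩ v134; ok v135 && (
  let v136 := sub v0 v135; ok v136 && (
  let v137 := sub v0 v134; ok v137 && (
  let v138 := inv v137; ok v138 && (
  let v139 := mul v136 v138; ok v139 && (
  let v140 := add v134 v0; ok v140 && (
  let v141 := mul v97 v140; ok v141 && (
  let v142 := mul v108 v139; ok v142 && (
  let v143 := mul v142 v133; ok v143 && (
  let v144 := mul v134 v139; ok v144 && (
  isPos 4 v137 && (
  let v145 := mul v19 v20; ok v145 && (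
  let v146 := add v15 v2; ok v146 && (
  let v147 := mul v18 v15; ok v147 && (
  let v148 := mul v147 v13; ok v148 && (
  let v149 := scale ⟨2199023255552, 0, 0, 0⟩ v148; ok v149 && (
  let v150 := add v43 v149; ok v150 && (
  let v151 := mul v146 v150; ok v151 && (
  let v152 := inv v151; ok v152 && (
  let v153 := mul v145 v152; ok v153 && (
  let v154 := mul v2 v153; ok v154 && (
  isPos 4 v85 && (
  let v155 := add v154 v0; ok v155 && (
  let v156 := mul v104 v155; ok v156 && (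
  let v157 := sub v0 v156; ok v157 && (
  isPos 4 v157 && (
  let v158 := add v104 v0; ok v158 && (
  let v159 := inv v157; ok v159 && (
  let v160 := mul v158 v159; ok v160 && (
  let v161 := scale ⟨549755813888, 0, 0, 0⟩ v160; ok v161 && (
  let v162 := add v161 v5; ok v162 && (
  let v163 := inv v162; ok v163 && (
  let v164 := mul v161 v163; ok v164 && (
  let v165 := mul v154 v164; ok v165 && (
  let v166 := mul v164 v1; ok v166 && (
  let v167 := add v7 v0; ok v167 && (
  let v168 := inv v167; ok v168 && (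
  let v169 := mul v7 v168; ok v169 && (
  let v170 := scale ⟨2199023255552, 0, 0, 0⟩ v169; ok v170 && (
  let v171 := sub v0 v170; ok v171 && (
  let v172 := sub v0 v7; ok v172 && (
  let v173 := mul x3 v168; ok v173 && (
  let v174 := mul v173 v171; ok v174 && (
  let v175 := add v20 v174; ok v175 && (
  let v176 := scale ⟨224412041216, 0, 0, 0⟩ v11; ok v176 && (
  let v177 := inv v34; ok v177 && (
  let v178 := mul v176 v177; ok v178 && (
  let v179 := scale ⟨4398046511104, 0, 0, 0⟩ v1; ok v179 && (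
  let v180 := mul v0 v17; ok v180 && (
  let v181 := add v179 v180; ok v181 && (
  let v182 := inv v181; ok v182 && (
  let v183 := mul v0 v182; ok v183 && (
  let v184 := mul v1 v182; ok v184 && (
  let v185 := mul v184 v20; ok v185 && (
  let v186 := mul v185 v178; ok v186 && (
  let v187 := mul v183 v20; ok v187 && (
  let v188 := mul v187 v178; ok v188 && (
  let v189 := sub v0 v188; ok v189 && (
  let v190 := inv v189; ok v190 && (
  let v191 := mul v141 v188; ok v191 && (
  let v192 := sub v0 v191; ok v192 && (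
  let v193 := inv v192; ok v193 && (
  let v194 := mul v19 v133; ok v194 && (
  let v195 := inv v18; ok v195 && (
  let v196 := mul v194 v195; ok v196 && (
  let v197 := scale ⟨549755813888, 0, 0, 0⟩ v196; ok v197 && (
  let v198 := sub v0 v197; ok v198 && (
  let v199 := sub v0 v196; ok v199 && (
  let v200 := inv v199; ok v200 && (
  let v201 := mul v198 v200; ok v201 && (
  let v202 := mul v201 v133; ok v202 && (
  let v203 := mul v196 v201; ok v203 && (
  let v204 := mul v203 v4; ok v204 && (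
  isPos 4 v199 && (
  let v205 := scale ⟨1374389534720, 0, 0, 0⟩ v204; ok v205 && (
  let v206 := sub v5 v205; ok v206 && (
  isPos 4 v206 && (
  let v207 := scale ⟨3092376453120, 0, 0, 0⟩ v204; ok v207 && (
  let v208 := add v207 v52; ok v208 && (
  let v209 := mul v204 v208; ok v209 && (
  let v210 := add v0 v209; ok v210 && (
  let v211 := scale ⟨1546188226560, 0, 0, 0⟩ v204; ok v211 && (
  let v212 := add v211 v0; ok v212 && (
  let v213 := mul v204 v212; ok v213 && (
  let v214 := add v0 v213; ok v214 && (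
  let v215 := mul v7 v17; ok v215 && (
  let v216 := sub v0 v112; ok v216 && (
  let v217 := mul v7 v18; ok v217 && (
  let v218 := scale ⟨2199023255552, 0, 0, 0⟩ v217; ok v218 && (
  let v219 := sub v216 v218; ok v219 && (
  let v220 := mul v215 v215; ok v220 && (
  let v221 := add v219 v220; ok v221 && (
  let v222 := add v221 v0; ok v222 && (
  let v223 := scale ⟨549755813888, 0, 0, 0⟩ v222; ok v223 && (
  let v224 := scale ⟨549755813888, 0, 0, 0⟩ v21; ok v224 && (
  let v225 := sub v11 v224; ok v225 && (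
  let v226 := mul v113 v216; ok v226 && (
  let v227 := mul v226 v10; ok v227 && (
  let v228 := scale ⟨137438953472, 0, 0, 0⟩ v227; ok v228 && (
  let v229 := add v225 v228; ok v229 && (
  let v230 := mul v223 v229; ok v230 && (
  let v231 := add v141 v0; ok v231 && (
  let v232 := mul v231 v190; ok v232 && (
  let v233 := mul v141 v193; ok v233 && (
  let v234 := add v232 v233; ok v234 && (
  let v235 := mul v188 v234; ok v235 && (
  let v236 := add v144 v235; ok v236 && (
  let v237 := mul v236 v4; ok v237 && (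
  let v238 := mul v231 v188; ok v238 && (
  let v239 := mul v238 v190; ok v239 && (
  let v240 := add v144 v239; ok v240 && (
  let v241 := mul v240 v4; ok v241 && (
  let v242 := scale ⟨223338299392, 0, 0, 0⟩ v241; ok v242 && (
  let v243 := add v5 v242; ok v243 && (
  let v244 := mul v241 v243; ok v244 && (
  let v245 := add v0 v244; ok v245 && (
  let v246 := scale ⟨893353197568, 0, 0, 0⟩ v237; ok v246 && (
  let v247 := add v0 v246; ok v247 && (
  let v248 := mul v237 v247; ok v248 && (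
  let v249 := add v0 v248; ok v249 && (
  let v250 := mul v170 v173; ok v250 && (
  let v251 := mul v250 v210; ok v251 && (
  let v252 := mul v251 v249; ok v252 && (
  let v253 := mul v230 v245; ok v253 && (
  let v254 := add v48 v5; ok v254 && (
  let v255 := mul v252 v254; ok v255 && (
  let v256 := add v253 v255; ok v256 && (
  let v257 := add v48 v0; ok v257 && (
  let v258 := mul v252 v257; ok v258 && (
  let v259 := mul v214 v257; ok v259 && (
  let v260 := mul v259 v173; ok v260 && (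
  let v261 := mul v260 v172; ok v261 && (
  let v262 := mul v256 v143; ok v262 && (
  let v263 := mul v261 v202; ok v263 && (
  let v264 := add v262 v263; ok v264 && (
  let v265 := mul x2 v175; ok v265 && (
  let v266 := inv v48; ok v266 && (
  let v267 := mul v265 v266; ok v267 && (
  let v268 := scale ⟨549755813888, 0, 0, 0⟩ v267; ok v268 && (
  let v269 := mul v19 v268; ok v269 && (
  let v270 := mul v2 v264; ok v270 && (
  let v271 := add v269 v270; ok v271 && (
  let v272 := mul v1 v271; ok v272 && (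
  let v273 := mul v256 v231; ok v273 && (
  let v274 := mul v273 v190; ok v274 && (
  let v275 := mul v258 v141; ok v275 && (
  let v276 := mul v275 v193; ok v276 && (
  let v277 := add v274 v276; ok v277 && (
  let v278 := mul v19 v272; ok v278 && (
  let v279 := mul v186 v277; ok v279 && (
  let v280 := add v278 v279; ok v280 && (
  let v281 := mul v113 v280; ok v281 && (
  let v282 := mul v281 v266; ok v282 && (
  let v283 := sub v0 v282; ok v283 && (
  let v284 := inv v283; ok v284 && (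
  let v285 := mul v280 v284; ok v285 && (
  let v286 := mul v2 v285; ok v286 && (
  let v287 := mul v113 v285; ok v287 && (
  let v288 := mul v287 v266; ok v288 && (
  let v289 := sub v0 v288; ok v289 && (
  let v290 := mul v45 v289; ok v290 && (
  let v291 := sub v290 v286; ok v291 && (
  let v292 := inv v291; ok v292 && (
  let v293 := mul v286 v292; ok v293 && (
  let v294 := sub v48 v287; ok v294 && (
  let v295 := inv v294; ok v295 && (
  let v296 := mul v293 v164; ok v296 && (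
  let v297 := scale ⟨549755813888, 0, 0, 0⟩ v296; ok v297 && (
  let v298 := sub v0 v297; ok v298 && (
  let v299 := sub v0 v296; ok v299 && (
  let v300 := inv v299; ok v300 && (
  let v301 := mul v298 v300; ok v301 && (
  let v302 := mul x1 v295; ok v302 && (
  let v303 := mul v166 v292; ok v303 && (
  let v304 := mul v303 v301; ok v304 && (
  let v305 := add v302 v304; ok v305 && (
  let v306 := mul x2 v285; ok v306 && (
  let v307 := mul v295 v306; ok v307 && (
  let v308 := mul v164 v292; ok v308 && (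
  let v309 := mul v308 v301; ok v309 && (
  let v310 := mul v309 v286; ok v310 && (
  let v311 := add v307 v310; ok v311 && (
  let v312 := scale ⟨223338299392, 0, 0, 0⟩ v311; ok v312 && (
  let v313 := add v5 v312; ok v313 && (
  let v314 := mul v311 v313; ok v314 && (
  let v315 := add v0 v314; ok v315 && (
  let v316 := mul v305 v315; ok v316 && (
  let v317 := mul v316 v284; ok v317 && (
  let v318 := mul v317 v277; ok v318 && (
  let v319 := mul v187 v19; ok v319 && (
  let v320 := cst ⟨7696581394432, 0, 0, 0⟩; ok v320 && (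
  let v321 := cst ⟨10995116277760, 0, 0, 0⟩; ok v321 && (
  let v322 := inv v321; ok v322 && (
  let v323 := mul v320 v322; ok v323 && (
  let v324 := mul v167 v20; ok v324 && (
  let v325 := mul v324 v323; ok v325 && (
  let v326 := mul v146 v107; ok v326 && (
  let v327 := mul v18 v326; ok v327 && (
  let v328 := scale ⟨549755813888, 0, 0, 0⟩ v165; ok v328 && (
  let v329 := sub v0 v328; ok v329 && (
  let v330 := sub v0 v165; ok v330 && (
  let v331 := inv v330; ok v331 && (
  let v332 := mul v329 v331; ok v332 && (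
  let v333 := mul v332 v154; ok v333 && (
  let v334 := mul v113 v123; ok v334 && (
  let v335 := scale ⟨733097230336, 0, 0, 0⟩ v334; ok v335 && (
  let v336 := sub v0 v335; ok v336 && (
  let v337 := mul v123 v336; ok v337 && (
  let v338 := mul v8 v100; ok v338 && (
  let v339 := add v337 v338; ok v339 && (
  let v340 := mul v333 v166; ok v340 && (
  let v341 := add v339 v0; ok v341 && (
  let v342 := mul v340 v341; ok v342 && (
  let v343 := sub v339 v342; ok v343 && (
  let v344 := scale ⟨366548615168, 0, 0, 0⟩ v41; ok v344 && (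
  let v345 := sub v0 v344; ok v345 && (
  let v346 := mul v22 v345; ok v346 && (
  let v347 := add v343 v346; ok v347 && (
  let v348 := mul v326 v347; ok v348 && (
  let v349 := mul v327 v327; ok v349 && (
  let v350 := add v0 v349; ok v350 && (
  let v351 := inv v350; ok v351 && (
  let v352 := mul v348 v351; ok v352 && (
  let v353 := sub v0 v293; ok v353 && (
  let v354 := mul v353 v352; ok v354 && (
  let v355 := sub v0 v340; ok v355 && (
  isPos 4 v355 && (
  isPos 4 v352 && (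
  isPos 4 v353 && (
  let v356 := mul v317 v181; ok v356 && (
  let v357 := mul v356 v271; ok v357 && (
  let v358 := inv v20; ok v358 && (
  let v359 := mul v357 v358; ok v359 && (
  let v360 := mul x0 v354; ok v360 && (
  let v361 := add v90 v360; ok v361 && (
  let v362 := mul v354 v354; ok v362 && (
  let v363 := scale ⟨549755813888, 0, 0, 0⟩ v362; ok v363 && (
  let v364 := add v361 v363; ok v364 && (
  let v365 := inv v364; ok v365 && (
  let v366 := mul v90 v365; ok v366 && (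
  let v367 := mul v2 v325; ok v367 && (
  let v368 := add v0 v367; ok v368 && (
  let v369 := inv v368; ok v369 && (
  let v370 := mul v366 v369; ok v370 && (
  let v371 := mul v370 v16; ok v371 && (
  let v372 := mul v3 v285; ok v372 && (
  let v373 := mul v372 v358; ok v373 && (
  let v374 := add v0 v373; ok v374 && (
  let v375 := mul v371 v374; ok v375 && (
  let v376 := mul v375 v295; ok v376 && (
  let v377 := mul v2 v318; ok v377 && (
  let v378 := mul v377 v188; ok v378 && (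
  let v379 := mul v2 v319; ok v379 && (
  let v380 := mul v359 v379; ok v380 && (
  let v381 := add v378 v380; ok v381 && (
  let v382 := add v377 v359; ok v382 && (
  let v383 := add v0 v381; ok v383 && (
  let v384 := mul v376 v383; ok v384 && (
  let v385 := add v382 v384; ok v385 && (
  let v386 := sub v0 v385; ok v386 && (
  let v387 := scale ⟨1073741824, 0, 0, 0⟩ v2; ok v387 && (
  let v388 := sub v386 v387; ok v388 && (
  let v389 := sub v16 v0; ok v389 && (
  let v390 := add v389 v52; ok v390 && (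
  let v391 := scale ⟨2199023255552, 0, 0, 0⟩ v323; ok v391 && (
  let v392 := sub v390 v391; ok v392 && (
  let v393 := mul v167 v392; ok v393 && (
  let v394 := mul v389 v391; ok v394 && (
  let v395 := add v394 v0; ok v395 && (
  let v396 := inv v395; ok v396 && (
  let v397 := mul v393 v396; ok v397 && (
  let v398 := mul v184 v277; ok v398 && (
  let v399 := scale ⟨549755813888, 0, 0, 0⟩ v178; ok v399 && (
  let v400 := add v13 v399; ok v400 && (
  let v401 := mul v398 v400; ok v401 && (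
  let v402 := scale ⟨2199023255552, 0, 0, 0⟩ v401; ok v402 && (
  let v403 := add v272 v402; ok v403 && (
  let v404 := scale ⟨2199023255552, 0, 0, 0⟩ v403; ok v404 && (
  let v405 := mul v404 v284; ok v405 && (
  let v406 := sub v20 v372; ok v406 && (
  let v407 := inv v406; ok v407 && (
  let v408 := mul v405 v407; ok v408 && (
  let v409 := sub v397 v408; ok v409 && (
  let v410 := mul v180 v180; ok v410 && (
  let v411 := cst ⟨14293651161088, 0, 0, 0⟩; ok v411 && (
  let v412 := mul v411 v322; ok v412 && (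
  let v413 := mul v410 v412; ok v413 && (
  let v414 := mul v1 v1; ok v414 && (
  let v415 := scale ⟨27487790694400, 0, 0, 0⟩ v414; ok v415 && (
  let v416 := add v413 v415; ok v416 && (
  let v417 := mul v325 v369; ok v417 && (
  let v418 := sub v36 v2; ok v418 && (
  let v419 := sub v418 v35; ok v419 && (
  let v420 := mul v0 x1; ok v420 && (
  let v421 := mul v420 v1; ok v421 && (
  let v422 := mul v20 v277; ok v422 && (
  let v423 := mul v422 v182; ok v423 && (
  let v424 := add v264 v423; ok v424 && (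
  let v425 := add v372 v52; ok v425 && (
  let v426 := mul v0 v425; ok v426 && (
  let v427 := mul v416 v417; ok v427 && (
  let v428 := mul v284 v426; ok v428 && (
  let v429 := mul v421 v424; ok v429 && (
  let v430 := mul v428 v429; ok v430 && (
  let v431 := sub v427 v430; ok v431 && (
  let v432 := scale ⟨549755813888, 0, 0, 0⟩ v372; ok v432 && (
  let v433 := add v0 v432; ok v433 && (
  let v434 := mul v284 v433; ok v434 && (
  let v435 := mul v2 v19; ok v435 && (
  let v436 := mul v435 v175; ok v436 && (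
  let v437 := mul v20 v48; ok v437 && (
  let v438 := inv v437; ok v438 && (
  let v439 := mul v436 v438; ok v439 && (
  let v440 := mul v434 v439; ok v440 && (
  let v441 := sub v419 v440; ok v441 && (
  let v442 := mul v178 v431; ok v442 && (
  let v443 := sub v0 v178; ok v443 && (
  let v444 := mul v8 v441; ok v444 && (
  let v445 := mul v443 v444; ok v445 && (
  let v446 := mul v416 v445; ok v446 && (
  let v447 := add v442 v446; ok v447 && (
  isPos 4 v189 && (
  isPos 4 v192 && (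
  let v448 := scale ⟨2199023255552, 0, 0, 0⟩ v281; ok v448 && (
  let v449 := sub v48 v448; ok v449 && (
  isPos 4 v449 && (
  isPos 4 v291 && (
  let v450 := sub v5 v165; ok v450 && (
  isPos 4 v450 && (
  let v451 := scale ⟨687194767360, 0, 0, 0⟩ v0; ok v451 && (
  let v452 := sub v451 v241; ok v452 && (
  isPos 4 v452 && (
  let v453 := scale ⟨377957122048, 0, 0, 0⟩ v0; ok v453 && (
  let v454 := sub v453 v237; ok v454 && (
  isPos 4 v454 && (
  isPos 4 v406 && (
  isPos 4 v299 && (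
  let v455 := sub v451 v311; ok v455 && (
  isPos 4 v455 && (
  isPos 4 v409 && (
  isPos 4 v388 && (
  isPos 4 v447 && (
  isPos 4 v441 && (
  true)))))))))))))))))))))))))))))))))))))))))))))))))))))))))))))))))))))))))))))))))))))))))))))))))))))))))))))))))))))))))))))))))))))))))))))))))))))))))))))))))))))))))))))))))))))))))))))))))))))))))))))))))))))))))))))))))))))))))))))))))))))))))))))))))))))))))))))))))))))))))))))))))))))))))))))))))))))))))))))))))))))))))))))))))))))))))))))))))))))))))))))))))))))))))))))))))))))))))))))))))))))))))))))))))))))))))))))))))))))))))))))))))))))))))))))))))))))))))))))))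
  | _ => false

set_option maxRecDepth 1000000 in
theorem chk2_eq (O : Ops) (m : List O.α)
    (h : chk2 O.cst O.add O.sub O.mul O.scale O.neg O.inv O.exp O.log O.ok O.isPos O.isLt m = true) :
    runG O 4 prog2 m = true := by
  match m, h with
  | [x0, x1, x2, x3], h => exact h

def chkB2 : List opsE.α → Bool :=
  chk2 opsE.cst opsE.add opsE.sub opsE.mul opsE.scale opsE.neg opsE.inv opsE.exp opsE.log opsE.ok opsE.isPos opsE.isLt

theorem chkB2_eq (m : List opsE.α) (h : chkB2 m = true) : runG opsE 4 prog2 m = true :=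
  chk2_eq opsE m h

def prog3 : List Op := [
  .const ⟨1099511627776, 0, 0, 0⟩,
  .mul 2 1,
  .mul 4 2,
  .mul 0 4,
  .mul 0 2,
  .const ⟨549755813888, 0, 0, 0⟩,
  .mul 2 9,
  .scale ⟨549755813888, 0, 0, 0⟩ 0,
  .mul 9 9,
  .mul 1 1,
  .sub 9 0,
  .inv 0,
  .mul 4 0,
  .scale ⟨2199023255552, 0, 0, 0⟩ 0,
  .scale ⟨2199023255552, 0, 0, 0⟩ 2,
  .sub 0 14,
  .add 0 2,
  .mul 20 5,
  .mul 19 0,
  .sub 18 0,
  .add 19 1,
  .mul 18 12,
  .mul 4 4,
  .mul 25 0,
  .scale ⟨5497558138880, 0, 0, 0⟩ 19,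
  .const ⟨55834574848, 0, 0, 0⟩,
  .add 1 0,
  .scale ⟨1979979923456, 0, 0, 0⟩ 0,
  .const ⟨1524444954624, 0, 0, 0⟩,
  .add 1 0,
  .sub 6 0,
  .pos 0]

def chk3 {α : Type} (cst : Z → α) (add sub mul : α → α → α) (scale : Z → α → α)
    (neg inv exp log : α → α) (ok : α → Bool) (isPos : Nat → α → Bool) (isLt : α → Nat → Bool) :
    List α → Bool
  | [x0, x1, x2, x3] =>
  let v0 := cst ⟨1099511627776, 0, 0, 0⟩; ok v0 && (
  let v1 := mul x1 x0; ok v1 && (
  let v2 := mul x2 x0; ok v2 && (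
  let v3 := mul v2 x1; ok v3 && (
  let v4 := mul v3 v1; ok v4 && (
  let v5 := cst ⟨549755813888, 0, 0, 0⟩; ok v5 && (
  let v6 := mul v3 x3; ok v6 && (
  let v7 := scale ⟨549755813888, 0, 0, 0⟩ v6; ok v7 && (
  let v8 := mul x1 x1; ok v8 && (
  let v9 := mul v7 v7; ok v9 && (
  let v10 := sub v0 v9; ok v10 && (
  let v11 := inv v10; ok v11 && (
  let v12 := mul v7 v11; ok v12 && (
  let v13 := scale ⟨2199023255552, 0, 0, 0⟩ v12; ok v13 && (
  let v14 := scale ⟨2199023255552, 0, 0, 0⟩ v11; ok v14 && (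
  let v15 := sub v14 v0; ok v15 && (
  let v16 := add v15 v13; ok v16 && (
  let v17 := mul x3 v11; ok v17 && (
  let v18 := mul x1 v17; ok v18 && (
  let v19 := sub v0 v18; ok v19 && (
  let v20 := add v0 v18; ok v20 && (
  let v21 := mul v2 v8; ok v21 && (
  let v22 := mul v17 v17; ok v22 && (
  let v23 := mul x2 v22; ok v23 && (
  let v24 := scale ⟨5497558138880, 0, 0, 0⟩ v4; ok v24 && (
  let v25 := cst ⟨55834574848, 0, 0, 0⟩; ok v25 && (
  let v26 := add v24 v25; ok v26 && (
  let v27 := scale ⟨1979979923456, 0, 0, 0⟩ v26; ok v27 && (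
  let v28 := cst ⟨1524444954624, 0, 0, 0⟩; ok v28 && (
  let v29 := add v27 v28; ok v29 && (
  let v30 := sub v23 v29; ok v30 && (
  isPos 4 v30 && (
  true))))))))))))))))))))))))))))))))
  | _ => false

set_option maxRecDepth 1000000 in
theorem chk3_eq (O : Ops) (m : List O.α)
    (h : chk3 O.cst O.add O.sub O.mul O.scale O.neg O.inv O.exp O.log O.ok O.isPos O.isLt m = true) :
    runG O 4 prog3 m = true := by
  match m, h with
  | [x0, x1, x2, x3], h => exact h

def chkB3 : List opsE.α → Bool :=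
  chk3 opsE.cst opsE.add opsE.sub opsE.mul opsE.scale opsE.neg opsE.inv opsE.exp opsE.log opsE.ok opsE.isPos opsE.isLt

theorem chkB3_eq (m : List opsE.α) (h : chkB3 m = true) : runG opsE 4 prog3 m = true :=
  chk3_eq opsE m h

def prog4 : List Op := [
  .const ⟨1099511627776, 0, 0, 0⟩,
  .mul 2 1,
  .mul 4 2,
  .mul 0 4,
  .mul 0 2,
  .const ⟨549755813888, 0, 0, 0⟩,
  .mul 2 9,
  .scale ⟨549755813888, 0, 0, 0⟩ 0,
  .mul 9 9,
  .mul 1 1,
  .sub 9 0,
  .inv 0,
  .mul 4 0,
  .scale ⟨2199023255552, 0, 0, 0⟩ 0,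
  .scale ⟨2199023255552, 0, 0, 0⟩ 2,
  .sub 0 14,
  .add 0 2,
  .mul 20 5,
  .mul 19 0,
  .sub 18 0,
  .add 19 1,
  .mul 18 12,
  .mul 4 4,
  .mul 25 0,
  .scale ⟨17592186044416, 0, 0, 0⟩ 19,
  .const ⟨17179869184, 0, 0, 0⟩,
  .add 1 0,
  .scale ⟨1979979923456, 0, 0, 0⟩ 0,
  .const ⟨1524444954624, 0, 0, 0⟩,
  .add 1 0,
  .sub 6 0,
  .pos 0]

def chk4 {α : Type} (cst : Z → α) (add sub mul : α → α → α) (scale : Z → α → α)
    (neg inv exp log : α → α) (ok : α → Bool) (isPos : Nat → α → Bool) (isLt : α → Nat → Bool) :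
    List α → Bool
  | [x0, x1, x2, x3] =>
  let v0 := cst ⟨1099511627776, 0, 0, 0⟩; ok v0 && (
  let v1 := mul x1 x0; ok v1 && (
  let v2 := mul x2 x0; ok v2 && (
  let v3 := mul v2 x1; ok v3 && (
  let v4 := mul v3 v1; ok v4 && (
  let v5 := cst ⟨549755813888, 0, 0, 0⟩; ok v5 && (
  let v6 := mul v3 x3; ok v6 && (
  let v7 := scale ⟨549755813888, 0, 0, 0⟩ v6; ok v7 && (
  let v8 := mul x1 x1; ok v8 && (
  let v9 := mul v7 v7; ok v9 && (
  let v10 := sub v0 v9; ok v10 && (
  let v11 := inv v10; ok v11 && (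
  let v12 := mul v7 v11; ok v12 && (
  let v13 := scale ⟨2199023255552, 0, 0, 0⟩ v12; ok v13 && (
  let v14 := scale ⟨2199023255552, 0, 0, 0⟩ v11; ok v14 && (
  let v15 := sub v14 v0; ok v15 && (
  let v16 := add v15 v13; ok v16 && (
  let v17 := mul x3 v11; ok v17 && (
  let v18 := mul x1 v17; ok v18 && (
  let v19 := sub v0 v18; ok v19 && (
  let v20 := add v0 v18; ok v20 && (
  let v21 := mul v2 v8; ok v21 && (
  let v22 := mul v17 v17; ok v22 && (
  let v23 := mul x2 v22; ok v23 && (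
  let v24 := scale ⟨17592186044416, 0, 0, 0⟩ v4; ok v24 && (
  let v25 := cst ⟨17179869184, 0, 0, 0⟩; ok v25 && (
  let v26 := add v24 v25; ok v26 && (
  let v27 := scale ⟨1979979923456, 0, 0, 0⟩ v26; ok v27 && (
  let v28 := cst ⟨1524444954624, 0, 0, 0⟩; ok v28 && (
  let v29 := add v27 v28; ok v29 && (
  let v30 := sub v23 v29; ok v30 && (
  isPos 4 v30 && (
  true))))))))))))))))))))))))))))))))
  | _ => false

set_option maxRecDepth 1000000 in
theorem chk4_eq (O : Ops) (m : List O.α)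
    (h : chk4 O.cst O.add O.sub O.mul O.scale O.neg O.inv O.exp O.log O.ok O.isPos O.isLt m = true) :
    runG O 4 prog4 m = true := by
  match m, h with
  | [x0, x1, x2, x3], h => exact h

def chkB4 : List opsE.α → Bool :=
  chk4 opsE.cst opsE.add opsE.sub opsE.mul opsE.scale opsE.neg opsE.inv opsE.exp opsE.log opsE.ok opsE.isPos opsE.isLt

theorem chkB4_eq (m : List opsE.α) (h : chkB4 m = true) : runG opsE 4 prog4 m = true :=
  chk4_eq opsE m h

def prog5 : List Op := [
  .const ⟨1099511627776, 0, 0, 0⟩,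
  .mul 2 1,
  .mul 4 2,
  .mul 0 4,
  .mul 0 2,
  .const ⟨549755813888, 0, 0, 0⟩,
  .mul 2 9,
  .scale ⟨549755813888, 0, 0, 0⟩ 0,
  .mul 9 9,
  .mul 1 1,
  .sub 9 0,
  .inv 0,
  .mul 4 0,
  .scale ⟨2199023255552, 0, 0, 0⟩ 0,
  .scale ⟨2199023255552, 0, 0, 0⟩ 2,
  .sub 0 14,
  .add 0 2,
  .mul 20 5,
  .mul 19 0,
  .sub 18 0,
  .add 19 1,
  .mul 18 12,
  .mul 4 4,
  .scale ⟨10774999203840, 0, 0, 0⟩ 15,
  .scale ⟨45768245248, 0, 0, 0⟩ 0,
  .const ⟨183207198720, 0, 0, 0⟩,
  .add 1 0,
  .mul 3 0,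
  .add 22 0,
  .mul 5 0,
  .add 29 0,
  .mul 7 0,
  .scale ⟨549755813888, 0, 0, 0⟩ 0,
  .add 32 0,
  .mul 3 0,
  .scale ⟨224412041216, 0, 0, 0⟩ 23,
  .inv 1,
  .mul 1 0,
  .sub 35 24,
  .sub 0 1,
  .pos 0]

def chk5 {α : Type} (cst : Z → α) (add sub mul : α → α → α) (scale : Z → α → α)
    (neg inv exp log : α → α) (ok : α → Bool) (isPos : Nat → α → Bool) (isLt : α → Nat → Bool) :
    List α → Bool
  | [x0, x1, x2, x3] =>
  let v0 := cst ⟨1099511627776, 0, 0, 0⟩; ok v0 && (
  let v1 := mul x1 x0; ok v1 && (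
  let v2 := mul x2 x0; ok v2 && (
  let v3 := mul v2 x1; ok v3 && (
  let v4 := mul v3 v1; ok v4 && (
  let v5 := cst ⟨549755813888, 0, 0, 0⟩; ok v5 && (
  let v6 := mul v3 x3; ok v6 && (
  let v7 := scale ⟨549755813888, 0, 0, 0⟩ v6; ok v7 && (
  let v8 := mul x1 x1; ok v8 && (
  let v9 := mul v7 v7; ok v9 && (
  let v10 := sub v0 v9; ok v10 && (
  let v11 := inv v10; ok v11 && (
  let v12 := mul v7 v11; ok v12 && (
  let v13 := scale ⟨2199023255552, 0, 0, 0⟩ v12; ok v13 && (
  let v14 := scale ⟨2199023255552, 0, 0, 0⟩ v11; ok v14 && (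
  let v15 := sub v14 v0; ok v15 && (
  let v16 := add v15 v13; ok v16 && (
  let v17 := mul x3 v11; ok v17 && (
  let v18 := mul x1 v17; ok v18 && (
  let v19 := sub v0 v18; ok v19 && (
  let v20 := add v0 v18; ok v20 && (
  let v21 := mul v2 v8; ok v21 && (
  let v22 := mul v17 v17; ok v22 && (
  let v23 := scale ⟨10774999203840, 0, 0, 0⟩ v7; ok v23 && (
  let v24 := scale ⟨45768245248, 0, 0, 0⟩ v23; ok v24 && (
  let v25 := cst ⟨183207198720, 0, 0, 0⟩; ok v25 && (
  let v26 := add v24 v25; ok v26 && (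
  let v27 := mul v23 v26; ok v27 && (
  let v28 := add v5 v27; ok v28 && (
  let v29 := mul v23 v28; ok v29 && (
  let v30 := add v0 v29; ok v30 && (
  let v31 := mul v23 v30; ok v31 && (
  let v32 := scale ⟨549755813888, 0, 0, 0⟩ v31; ok v32 && (
  let v33 := add v0 v32; ok v33 && (
  let v34 := mul v30 v33; ok v34 && (
  let v35 := scale ⟨224412041216, 0, 0, 0⟩ v11; ok v35 && (
  let v36 := inv v34; ok v36 && (
  let v37 := mul v35 v36; ok v37 && (
  let v38 := sub v2 v13; ok v38 && (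
  let v39 := sub v38 v37; ok v39 && (
  isPos 4 v39 && (
  true)))))))))))))))))))))))))))))))))))))))))
  | _ => false

set_option maxRecDepth 1000000 in
theorem chk5_eq (O : Ops) (m : List O.α)
    (h : chk5 O.cst O.add O.sub O.mul O.scale O.neg O.inv O.exp O.log O.ok O.isPos O.isLt m = true) :
    runG O 4 prog5 m = true := by
  match m, h with
  | [x0, x1, x2, x3], h => exact h

def chkB5 : List opsE.α → Bool :=
  chk5 opsE.cst opsE.add opsE.sub opsE.mul opsE.scale opsE.neg opsE.inv opsE.exp opsE.log opsE.ok opsE.isPos opsE.isLt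

theorem chkB5_eq (m : List opsE.α) (h : chkB5 m = true) : runG opsE 4 prog5 m = true :=
  chk5_eq opsE m h

def prog6 : List Op := [
  .const ⟨1099511627776, 0, 0, 0⟩,
  .mul 2 1,
  .mul 4 2,
  .mul 0 4,
  .mul 0 2,
  .const ⟨549755813888, 0, 0, 0⟩,
  .mul 2 9,
  .scale ⟨549755813888, 0, 0, 0⟩ 0,
  .mul 9 9,
  .mul 1 1,
  .sub 9 0,
  .inv 0,
  .mul 4 0,
  .scale ⟨2199023255552, 0, 0, 0⟩ 0,
  .scale ⟨2199023255552, 0, 0, 0⟩ 2,
  .sub 0 14,
  .add 0 2,
  .mul 20 5,
  .mul 19 0,
  .sub 18 0,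
  .add 19 1,
  .mul 18 12,
  .mul 4 4,
  .scale ⟨2199023255552, 0, 0, 0⟩ 7,
  .sub 0 21,
  .mul 11 6,
  .sub 1 0,
  .mul 26 9,
  .mul 0 0,
  .const ⟨14293651161088, 0, 0, 0⟩,
  .const ⟨10995116277760, 0, 0, 0⟩,
  .inv 0,
  .mul 2 0,
  .mul 4 0,
  .mul 32 32,
  .scale ⟨27487790694400, 0, 0, 0⟩ 0,
  .add 2 0,
  .mul 36 36,
  .mul 18 17,
  .mul 1 0,
  .mul 37 20,
  .sub 40 0,
  .mul 20 15,
  .sub 42 0,
  .mul 2 0,
  .mul 8 0,
  .sub 6 0,
  .pos 0]

def chk6 {α : Type} (cst : Z → α) (add sub mul : α → α → α) (scale : Z → α → α)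
    (neg inv exp log : α → α) (ok : α → Bool) (isPos : Nat → α → Bool) (isLt : α → Nat → Bool) :
    List α → Bool
  | [x0, x1, x2, x3] =>
  let v0 := cst ⟨1099511627776, 0, 0, 0⟩; ok v0 && (
  let v1 := mul x1 x0; ok v1 && (
  let v2 := mul x2 x0; ok v2 && (
  let v3 := mul v2 x1; ok v3 && (
  let v4 := mul v3 v1; ok v4 && (
  let v5 := cst ⟨549755813888, 0, 0, 0⟩; ok v5 && (
  let v6 := mul v3 x3; ok v6 && (
  let v7 := scale ⟨549755813888, 0, 0, 0⟩ v6; ok v7 && (
  let v8 := mul x1 x1; ok v8 && (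
  let v9 := mul v7 v7; ok v9 && (
  let v10 := sub v0 v9; ok v10 && (
  let v11 := inv v10; ok v11 && (
  let v12 := mul v7 v11; ok v12 && (
  let v13 := scale ⟨2199023255552, 0, 0, 0⟩ v12; ok v13 && (
  let v14 := scale ⟨2199023255552, 0, 0, 0⟩ v11; ok v14 && (
  let v15 := sub v14 v0; ok v15 && (
  let v16 := add v15 v13; ok v16 && (
  let v17 := mul x3 v11; ok v17 && (
  let v18 := mul x1 v17; ok v18 && (
  let v19 := sub v0 v18; ok v19 && (
  let v20 := add v0 v18; ok v20 && (
  let v21 := mul v2 v8; ok v21 && (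
  let v22 := mul v17 v17; ok v22 && (
  let v23 := scale ⟨2199023255552, 0, 0, 0⟩ v15; ok v23 && (
  let v24 := sub v23 v2; ok v24 && (
  let v25 := mul v13 v18; ok v25 && (
  let v26 := sub v24 v25; ok v26 && (
  let v27 := mul v0 v17; ok v27 && (
  let v28 := mul v27 v27; ok v28 && (
  let v29 := cst ⟨14293651161088, 0, 0, 0⟩; ok v29 && (
  let v30 := cst ⟨10995116277760, 0, 0, 0⟩; ok v30 && (
  let v31 := inv v30; ok v31 && (
  let v32 := mul v29 v31; ok v32 && (
  let v33 := mul v28 v32; ok v33 && (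
  let v34 := mul v1 v1; ok v34 && (
  let v35 := scale ⟨27487790694400, 0, 0, 0⟩ v34; ok v35 && (
  let v36 := add v33 v35; ok v36 && (
  let v37 := mul v0 v0; ok v37 && (
  let v38 := mul v19 v20; ok v38 && (
  let v39 := mul v37 v38; ok v39 && (
  let v40 := mul v2 v19; ok v40 && (
  let v41 := sub v0 v40; ok v41 && (
  let v42 := mul v21 v26; ok v42 && (
  let v43 := sub v0 v42; ok v43 && (
  let v44 := mul v41 v43; ok v44 && (
  let v45 := mul v36 v44; ok v45 && (
  let v46 := sub v39 v45; ok v46 && (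
  isPos 4 v46 && (
  true))))))))))))))))))))))))))))))))))))))))))))))))
  | _ => false

set_option maxRecDepth 1000000 in
theorem chk6_eq (O : Ops) (m : List O.α)
    (h : chk6 O.cst O.add O.sub O.mul O.scale O.neg O.inv O.exp O.log O.ok O.isPos O.isLt m = true) :
    runG O 4 prog6 m = true := by
  match m, h with
  | [x0, x1, x2, x3], h => exact h

def chkB6 : List opsE.α → Bool :=
  chk6 opsE.cst opsE.add opsE.sub opsE.mul opsE.scale opsE.neg opsE.inv opsE.exp opsE.log opsE.ok opsE.isPos opsE.isLt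

theorem chkB6_eq (m : List opsE.α) (h : chkB6 m = true) : runG opsE 4 prog6 m = true :=
  chk6_eq opsE m h

def prog7 : List Op := [
  .const ⟨1099511627776, 0, 0, 0⟩,
  .mul 2 1,
  .mul 4 2,
  .mul 0 4,
  .mul 0 2,
  .const ⟨10995367936, 0, 0, 0⟩,
  .sub 1 0,
  .pos 0]

def chk7 {α : Type} (cst : Z → α) (add sub mul : α → α → α) (scale : Z → α → α)
    (neg inv exp log : α → α) (ok : α → Bool) (isPos : Nat → α → Bool) (isLt : α → Nat → Bool) :
    List α → Bool
  | [x0, x1, x2, x3] =>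
  let v0 := cst ⟨1099511627776, 0, 0, 0⟩; ok v0 && (
  let v1 := mul x1 x0; ok v1 && (
  let v2 := mul x2 x0; ok v2 && (
  let v3 := mul v2 x1; ok v3 && (
  let v4 := mul v3 v1; ok v4 && (
  let v5 := cst ⟨10995367936, 0, 0, 0⟩; ok v5 && (
  let v6 := sub v4 v5; ok v6 && (
  isPos 4 v6 && (
  true))))))))
  | _ => false

set_option maxRecDepth 1000000 in
theorem chk7_eq (O : Ops) (m : List O.α)
    (h : chk7 O.cst O.add O.sub O.mul O.scale O.neg O.inv O.exp O.log O.ok O.isPos O.isLt m = true) :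
    runG O 4 prog7 m = true := by
  match m, h with
  | [x0, x1, x2, x3], h => exact h

def chkB7 : List opsE.α → Bool :=
  chk7 opsE.cst opsE.add opsE.sub opsE.mul opsE.scale opsE.neg opsE.inv opsE.exp opsE.log opsE.ok opsE.isPos opsE.isLt

theorem chkB7_eq (m : List opsE.α) (h : chkB7 m = true) : runG opsE 4 prog7 m = true :=
  chk7_eq opsE m h

def progs : List (List Op) := [prog0, prog1, prog2, prog3, prog4, prog5, prog6, prog7]

def chks : List (List opsE.α → Bool) := [chkB0, chkB1, chkB2, chkB3, chkB4, chkB5, chkB6, chkB7]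

theorem chks_eq : List.Forall₂ (fun (ops : List Op) (chk : List opsE.α → Bool) =>
    ∀ m, chk m = true → runG opsE 4 ops m = true) progs chks :=
  List.Forall₂.cons chkB0_eq (List.Forall₂.cons chkB1_eq (List.Forall₂.cons chkB2_eq (List.Forall₂.cons chkB3_eq (List.Forall₂.cons chkB4_eq (List.Forall₂.cons chkB5_eq (List.Forall₂.cons chkB6_eq (List.Forall₂.cons chkB7_eq List.Forall₂.nil)))))))

end Pool.Agent.helper71.FJ.Crt.QMc
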