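import Pool.Agent.helper71.FJ.Crt.LHIIIP

/-!
Generated certificates.
-/

namespace Pool.Agent.helper71.FJ.Crt.LHIII

open Pool.Agent.helper31.IA (Z Op)
open Pool.Agent.helper31.IC

mutual
theorem c0_m0_t0 : CovD 0 progs [(336081190912, 336081190912), (549755813888, 549755813888), (274877906944, 274877906944), (274877906944, 274877906944)] :=
  Pool.Agent.helper14.QF.covD_F chks_eq (.l 7)
    [(336081190912, 336081190912), (549755813888, 549755813888), (274877906944, 274877906944), (274877906944, 274877906944)] rfl (by decide +kernel)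
theorem c0_m0_t1 : CovD 0 progs [(840202977280, 168040595456), (549755813888, 549755813888), (274877906944, 274877906944), (274877906944, 274877906944)] :=
  Pool.Agent.helper14.QF.covD_F chks_eq (.l 7)
    [(840202977280, 168040595456), (549755813888, 549755813888), (274877906944, 274877906944), (274877906944, 274877906944)] rfl (by decide +kernel)
end
mutual
theorem c0_m0_t2 : CovD 0 progs [(1176284168192, 168040595456), (549755813888, 549755813888), (274877906944, 274877906944), (274877906944, 274877906944)] :=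
  Pool.Agent.helper14.QF.covD_F chks_eq (.n 3 (.l 7) (.n 1 (.n 1 (.l 2) (.n 2 (.l 2) (.n 1 (.l 2) (.n 2 (.l 1) (.n 1 (.l 2) (.l 5)))))) (.n 3 (.l 7) (.n 1 (.n 1 (.n 2 (.l 1) (.n 2 (.n 0 (.l 1) (.l 4)) (.l 5))) (.n 2 (.n 0 (.l 1) (.l 4)) (.n 2 (.n 2 (.l 4) (.l 5)) (.l 5)))) (.n 2 (.n 2 (.l 1) (.n 2 (.l 4) (.n 1 (.l 1) (.l 5)))) (.n 2 (.n 1 (.l 5) (.l 5)) (.l 5)))))))
    [(1176284168192, 168040595456), (549755813888, 549755813888), (274877906944, 274877906944), (274877906944, 274877906944)] rfl (by decide +kernel)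
theorem c0_m0_t5 : CovD 0 progs [(2016487145472, 672162381824), (137438953472, 137438953472), (274877906944, 274877906944), (274877906944, 274877906944)] :=
  Pool.Agent.helper14.QF.covD_F chks_eq (.n 1 (.l 6) (.n 1 (.l 6) (.n 2 (.l 6) (.n 0 (.n 0 (.l 2) (.n 3 (.l 2) (.l 2))) (.n 2 (.l 6) (.n 3 (.n 3 (.l 7) (.n 0 (.l 2) (.n 0 (.l 2) (.n 0 (.l 2) (.l 2))))) (.n 0 (.n 0 (.l 2) (.l 2)) (.n 0 (.n 1 (.l 2) (.l 2)) (.n 3 (.n 0 (.l 2) (.l 2)) (.l 4))))))))))
    [(2016487145472, 672162381824), (137438953472, 137438953472), (274877906944, 274877906944), (274877906944, 274877906944)] rfl (by decide +kernel)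
end
mutual
theorem c0_m0_t6 : CovD 0 progs [(2016487145472, 672162381824), (343597383680, 68719476736), (274877906944, 274877906944), (137438953472, 137438953472)] :=
  Pool.Agent.helper14.QF.covD_F chks_eq (.n 0 (.l 7) (.n 2 (.l 6) (.n 0 (.n 0 (.l 7) (.n 3 (.l 7) (.n 2 (.l 2) (.n 1 (.l 2) (.l 4))))) (.n 3 (.l 7) (.n 3 (.l 7) (.n 1 (.n 2 (.l 2) (.n 0 (.l 2) (.l 4))) (.n 2 (.l 4) (.n 2 (.l 4) (.n 1 (.l 4) (.l 5))))))))))
    [(2016487145472, 672162381824), (343597383680, 68719476736), (274877906944, 274877906944), (137438953472, 137438953472)] rfl (by decide +kernel)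
theorem c0_m0_t7 : CovD 0 progs [(2016487145472, 672162381824), (309237645312, 34359738368), (274877906944, 274877906944), (412316860416, 137438953472)] :=
  Pool.Agent.helper14.QF.covD_F chks_eq (.n 2 (.l 6) (.n 0 (.n 0 (.l 2) (.n 0 (.l 2) (.l 2))) (.n 0 (.n 2 (.l 2) (.n 0 (.l 2) (.n 0 (.l 2) (.l 2)))) (.n 2 (.n 3 (.l 4) (.l 2)) (.n 0 (.n 1 (.l 4) (.l 4)) (.n 0 (.n 1 (.l 2) (.l 4)) (.n 3 (.l 4) (.l 4))))))))
    [(2016487145472, 672162381824), (309237645312, 34359738368), (274877906944, 274877906944), (412316860416, 137438953472)] rfl (by decide +kernel)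
end
mutual
theorem c0_m0_t8 : CovD 0 progs [(2016487145472, 672162381824), (377957122048, 34359738368), (274877906944, 274877906944), (412316860416, 137438953472)] :=
  Pool.Agent.helper14.QF.covD_F chks_eq (.n 2 (.l 6) (.n 0 (.n 0 (.n 0 (.l 1) (.l 2)) (.n 0 (.l 4) (.n 1 (.l 2) (.l 4)))) (.n 1 (.n 0 (.n 0 (.l 4) (.n 2 (.l 2) (.l 4))) (.n 0 (.n 2 (.l 2) (.n 0 (.l 4) (.l 4))) (.n 2 (.l 2) (.n 3 (.l 4) (.l 4))))) (.n 2 (.n 0 (.l 2) (.n 0 (.l 2) (.l 2))) (.n 2 (.n 0 (.l 2) (.n 0 (.l 2) (.l 4))) (.l 5))))))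
    [(2016487145472, 672162381824), (377957122048, 34359738368), (274877906944, 274877906944), (412316860416, 137438953472)] rfl (by decide +kernel)
theorem c0_m0_t11 : CovD 0 progs [(1680405954560, 336081190912), (481036337152, 68719476736), (274877906944, 274877906944), (274877906944, 274877906944)] :=
  Pool.Agent.helper14.QF.covD_F chks_eq (.n 3 (.l 7) (.n 2 (.n 0 (.l 2) (.l 2)) (.n 2 (.n 0 (.l 4) (.n 1 (.l 2) (.l 4))) (.n 1 (.n 2 (.n 0 (.l 2) (.l 4)) (.l 5)) (.l 5)))))
    [(1680405954560, 336081190912), (481036337152, 68719476736), (274877906944, 274877906944), (274877906944, 274877906944)] rfl (by decide +kernel)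
end
mutual
theorem c0_m0_t12 : CovD 0 progs [(2352568336384, 336081190912), (481036337152, 68719476736), (137438953472, 137438953472), (274877906944, 274877906944)] :=
  Pool.Agent.helper14.QF.covD_F chks_eq (.n 2 (.l 6) (.n 2 (.l 6) (.n 0 (.n 1 (.l 4) (.l 4)) (.n 0 (.n 1 (.l 2) (.l 4)) (.n 3 (.l 2) (.l 4))))))
    [(2352568336384, 336081190912), (481036337152, 68719476736), (137438953472, 137438953472), (274877906944, 274877906944)] rfl (by decide +kernel)
theorem c0_m0_t13 : CovD 0 progs [(2352568336384, 336081190912), (446676598784, 34359738368), (412316860416, 137438953472), (274877906944, 274877906944)] :=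
  Pool.Agent.helper14.QF.covD_F chks_eq (.n 2 (.n 0 (.n 3 (.l 4) (.n 0 (.l 2) (.l 4))) (.n 0 (.n 3 (.l 4) (.l 4)) (.n 3 (.l 4) (.n 0 (.l 4) (.l 4))))) (.n 1 (.n 2 (.n 0 (.n 3 (.l 2) (.l 4)) (.n 0 (.n 3 (.l 2) (.l 4)) (.n 3 (.l 4) (.l 4)))) (.l 5)) (.l 5)))
    [(2352568336384, 336081190912), (446676598784, 34359738368), (412316860416, 137438953472), (274877906944, 274877906944)] rfl (by decide +kernel)
end
mutual
theorem c0_m0_t14 : CovD 0 progs [(2352568336384, 336081190912), (515396075520, 34359738368), (412316860416, 137438953472), (274877906944, 274877906944)] :=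
  Pool.Agent.helper14.QF.covD_F chks_eq (.n 1 (.n 2 (.n 0 (.n 3 (.l 4) (.l 4)) (.n 0 (.n 3 (.l 2) (.l 4)) (.n 3 (.l 4) (.l 4)))) (.l 5)) (.n 2 (.n 2 (.n 0 (.l 4) (.n 0 (.l 4) (.l 4))) (.l 5)) (.l 5)))
    [(2352568336384, 336081190912), (515396075520, 34359738368), (412316860416, 137438953472), (274877906944, 274877906944)] rfl (by decide +kernel)
theorem c0_m0_t20 : CovD 0 progs [(2016487145472, 672162381824), (584115552256, 34359738368), (274877906944, 274877906944), (274877906944, 274877906944)] :=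
  Pool.Agent.helper14.QF.covD_F chks_eq (.n 2 (.n 2 (.l 6) (.n 0 (.n 0 (.l 1) (.l 2)) (.n 0 (.n 0 (.l 2) (.l 4)) (.n 0 (.l 4) (.n 0 (.l 4) (.l 4)))))) (.n 2 (.n 2 (.n 0 (.n 0 (.l 1) (.l 4)) (.n 0 (.n 3 (.l 4) (.l 4)) (.n 3 (.l 4) (.n 0 (.l 4) (.l 4))))) (.l 5)) (.l 5)))
    [(2016487145472, 672162381824), (584115552256, 34359738368), (274877906944, 274877906944), (274877906944, 274877906944)] rfl (by decide +kernel)
end
mutual
theorem c0_m0_t21 : CovD 0 progs [(2016487145472, 672162381824), (652835028992, 34359738368), (274877906944, 274877906944), (274877906944, 274877906944)] :=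
  Pool.Agent.helper14.QF.covD_F chks_eq (.n 2 (.n 2 (.l 6) (.n 0 (.n 0 (.l 1) (.l 4)) (.n 0 (.n 0 (.l 4) (.l 4)) (.n 3 (.l 4) (.n 0 (.l 4) (.l 4)))))) (.n 2 (.n 2 (.n 1 (.n 0 (.n 0 (.l 1) (.l 4)) (.n 0 (.n 0 (.l 4) (.l 4)) (.n 3 (.l 4) (.l 4)))) (.l 5)) (.l 5)) (.l 5)))
    [(2016487145472, 672162381824), (652835028992, 34359738368), (274877906944, 274877906944), (274877906944, 274877906944)] rfl (by decide +kernel)
theorem c0_m0_t23 : CovD 0 progs [(2016487145472, 672162381824), (755914244096, 68719476736), (274877906944, 274877906944), (274877906944, 274877906944)] :=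
  Pool.Agent.helper14.QF.covD_F chks_eq (.n 2 (.n 1 (.n 2 (.l 6) (.n 0 (.n 0 (.l 4) (.n 0 (.l 4) (.l 4))) (.n 0 (.n 0 (.l 4) (.n 0 (.l 4) (.l 4))) (.n 2 (.l 4) (.n 0 (.l 4) (.l 4)))))) (.n 2 (.l 6) (.n 0 (.n 3 (.l 7) (.n 0 (.l 4) (.l 4))) (.n 2 (.n 0 (.l 4) (.l 4)) (.n 2 (.n 0 (.l 4) (.l 4)) (.l 5)))))) (.n 2 (.n 1 (.n 2 (.l 5) (.l 5)) (.l 5)) (.l 5)))
    [(2016487145472, 672162381824), (755914244096, 68719476736), (274877906944, 274877906944), (274877906944, 274877906944)] rfl (by decide +kernel)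
end
mutual
theorem c0_m0_t25 : CovD 0 progs [(2016487145472, 672162381824), (962072674304, 137438953472), (68719476736, 68719476736), (274877906944, 274877906944)] :=
  Pool.Agent.helper14.QF.covD_F chks_eq (.n 2 (.l 6) (.n 2 (.l 6) (.n 0 (.n 0 (.n 0 (.l 4) (.l 4)) (.n 1 (.l 4) (.l 4))) (.n 0 (.n 0 (.n 1 (.l 4) (.l 4)) (.n 1 (.l 4) (.l 4))) (.n 0 (.n 1 (.l 4) (.l 4)) (.n 1 (.l 4) (.l 4)))))))
    [(2016487145472, 672162381824), (962072674304, 137438953472), (68719476736, 68719476736), (274877906944, 274877906944)] rfl (by decide +kernel)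
theorem c0_m0_t26 : CovD 0 progs [(2016487145472, 672162381824), (962072674304, 137438953472), (171798691840, 34359738368), (274877906944, 274877906944)] :=
  Pool.Agent.helper14.QF.covD_F chks_eq (.n 1 (.n 0 (.n 0 (.l 4) (.n 0 (.l 4) (.l 4))) (.n 0 (.n 0 (.l 4) (.n 0 (.l 4) (.l 4))) (.n 0 (.n 1 (.l 4) (.l 4)) (.n 1 (.l 4) (.l 4))))) (.n 1 (.n 0 (.n 0 (.l 4) (.n 0 (.l 4) (.l 4))) (.n 0 (.n 0 (.l 4) (.l 4)) (.n 0 (.l 4) (.n 0 (.l 4) (.l 4))))) (.n 2 (.n 0 (.n 0 (.l 4) (.l 4)) (.n 0 (.l 4) (.l 4))) (.l 5))))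
    [(2016487145472, 672162381824), (962072674304, 137438953472), (171798691840, 34359738368), (274877906944, 274877906944)] rfl (by decide +kernel)
end
mutual
theorem c0_m0_t27 : CovD 0 progs [(2016487145472, 672162381824), (962072674304, 137438953472), (240518168576, 34359738368), (274877906944, 274877906944)] :=
  Pool.Agent.helper14.QF.covD_F chks_eq (.n 1 (.n 1 (.n 2 (.n 0 (.n 0 (.l 4) (.l 4)) (.n 0 (.l 4) (.n 0 (.l 4) (.l 4)))) (.l 5)) (.l 5)) (.l 5))
    [(2016487145472, 672162381824), (962072674304, 137438953472), (240518168576, 34359738368), (274877906944, 274877906944)] rfl (by decide +kernel)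
theorem c0_m0_t30 : CovD 0 progs [(2016487145472, 672162381824), (962072674304, 137438953472), (412316860416, 137438953472), (274877906944, 274877906944)] :=
  Pool.Agent.helper14.QF.covD_F chks_eq (.n 2 (.n 1 (.l 5) (.l 5)) (.l 5))
    [(2016487145472, 672162381824), (962072674304, 137438953472), (412316860416, 137438953472), (274877906944, 274877906944)] rfl (by decide +kernel)
end
theorem c0_m0_t3 : CovD 0 progs [(1008243572736, 336081190912), (549755813888, 549755813888), (274877906944, 274877906944), (274877906944, 274877906944)] :=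
  covD_split 0 (by decide +kernel) c0_m0_t1 c0_m0_t2
theorem c0_m0_t4 : CovD 0 progs [(672162381824, 672162381824), (549755813888, 549755813888), (274877906944, 274877906944), (274877906944, 274877906944)] :=
  covD_split 0 (by decide +kernel) c0_m0_t0 c0_m0_t3
theorem c0_m0_t9 : CovD 0 progs [(2016487145472, 672162381824), (343597383680, 68719476736), (274877906944, 274877906944), (412316860416, 137438953472)] :=
  covD_split 1 (by decide +kernel) c0_m0_t7 c0_m0_t8
theorem c0_m0_t10 : CovD 0 progs [(2016487145472, 672162381824), (343597383680, 68719476736), (274877906944, 274877906944), (274877906944, 274877906944)] :=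
  covD_split 3 (by decide +kernel) c0_m0_t6 c0_m0_t9
theorem c0_m0_t15 : CovD 0 progs [(2352568336384, 336081190912), (481036337152, 68719476736), (412316860416, 137438953472), (274877906944, 274877906944)] :=
  covD_split 1 (by decide +kernel) c0_m0_t13 c0_m0_t14
theorem c0_m0_t16 : CovD 0 progs [(2352568336384, 336081190912), (481036337152, 68719476736), (274877906944, 274877906944), (274877906944, 274877906944)] :=
  covD_split 2 (by decide +kernel) c0_m0_t12 c0_m0_t15
theorem c0_m0_t17 : CovD 0 progs [(2016487145472, 672162381824), (481036337152, 68719476736), (274877906944, 274877906944), (274877906944, 274877906944)] :=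
  covD_split 0 (by decide +kernel) c0_m0_t11 c0_m0_t16
theorem c0_m0_t18 : CovD 0 progs [(2016487145472, 672162381824), (412316860416, 137438953472), (274877906944, 274877906944), (274877906944, 274877906944)] :=
  covD_split 1 (by decide +kernel) c0_m0_t10 c0_m0_t17
theorem c0_m0_t19 : CovD 0 progs [(2016487145472, 672162381824), (274877906944, 274877906944), (274877906944, 274877906944), (274877906944, 274877906944)] :=
  covD_split 1 (by decide +kernel) c0_m0_t5 c0_m0_t18
theorem c0_m0_t22 : CovD 0 progs [(2016487145472, 672162381824), (618475290624, 68719476736), (274877906944, 274877906944), (274877906944, 274877906944)] :=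
  covD_split 1 (by decide +kernel) c0_m0_t20 c0_m0_t21
theorem c0_m0_t24 : CovD 0 progs [(2016487145472, 672162381824), (687194767360, 137438953472), (274877906944, 274877906944), (274877906944, 274877906944)] :=
  covD_split 1 (by decide +kernel) c0_m0_t22 c0_m0_t23
theorem c0_m0_t28 : CovD 0 progs [(2016487145472, 672162381824), (962072674304, 137438953472), (206158430208, 68719476736), (274877906944, 274877906944)] :=
  covD_split 2 (by decide +kernel) c0_m0_t26 c0_m0_t27
theorem c0_m0_t29 : CovD 0 progs [(2016487145472, 672162381824), (962072674304, 137438953472), (137438953472, 137438953472), (274877906944, 274877906944)] :=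
  covD_split 2 (by decide +kernel) c0_m0_t25 c0_m0_t28
theorem c0_m0_t31 : CovD 0 progs [(2016487145472, 672162381824), (962072674304, 137438953472), (274877906944, 274877906944), (274877906944, 274877906944)] :=
  covD_split 2 (by decide +kernel) c0_m0_t29 c0_m0_t30
theorem c0_m0_t32 : CovD 0 progs [(2016487145472, 672162381824), (824633720832, 274877906944), (274877906944, 274877906944), (274877906944, 274877906944)] :=
  covD_split 1 (by decide +kernel) c0_m0_t24 c0_m0_t31
theorem c0_m0_t33 : CovD 0 progs [(2016487145472, 672162381824), (549755813888, 549755813888), (274877906944, 274877906944), (274877906944, 274877906944)] :=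
  covD_split 1 (by decide +kernel) c0_m0_t19 c0_m0_t32
theorem c0_m0 : CovD 0 progs [(1344324763648, 1344324763648), (549755813888, 549755813888), (274877906944, 274877906944), (274877906944, 274877906944)] :=
  covD_split 0 (by decide +kernel) c0_m0_t4 c0_m0_t33

end Pool.Agent.helper71.FJ.Crt.LHIII
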