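import Pool.Agent.helper71.FJ.Crt.LHIP

/-!
Generated certificates.
-/

namespace Pool.Agent.helper71.FJ.Crt.LHI

open Pool.Agent.helper31.IA (Z Op)
open Pool.Agent.helper31.IC

mutual
theorem c0_m0_t0 : CovD 0 progs [(283467841536, 283467841536), (1099511627776, 1099511627776), (132808441856, 22884122624), (549755813888, 549755813888)] :=
  Pool.Agent.helper14.QF.covD_F chks_eq (.n 0 (.n 1 (.l 6) (.n 1 (.l 6) (.n 1 (.l 0) (.l 0)))) (.n 1 (.n 1 (.l 0) (.n 1 (.l 3) (.l 3))) (.n 1 (.n 1 (.l 3) (.l 3)) (.n 3 (.l 3) (.n 0 (.l 0) (.l 2))))))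
    [(283467841536, 283467841536), (1099511627776, 1099511627776), (132808441856, 22884122624), (549755813888, 549755813888)] rfl (by decide +kernel)
theorem c0_m0_t1 : CovD 0 progs [(850403524608, 283467841536), (549755813888, 549755813888), (132808441856, 22884122624), (274877906944, 274877906944)] :=
  Pool.Agent.helper14.QF.covD_F chks_eq (.n 1 (.l 0) (.n 1 (.l 1) (.l 2)))
    [(850403524608, 283467841536), (549755813888, 549755813888), (132808441856, 22884122624), (274877906944, 274877906944)] rfl (by decide +kernel)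
end
mutual
theorem c0_m0_t2 : CovD 0 progs [(850403524608, 283467841536), (1649267441664, 549755813888), (132808441856, 22884122624), (274877906944, 274877906944)] :=
  Pool.Agent.helper14.QF.covD_F chks_eq (.n 1 (.n 3 (.l 6) (.n 0 (.l 2) (.n 1 (.l 1) (.n 0 (.l 1) (.l 1))))) (.n 0 (.n 3 (.l 6) (.n 0 (.l 1) (.n 1 (.l 1) (.l 1)))) (.n 0 (.n 3 (.l 6) (.n 1 (.l 1) (.n 0 (.l 1) (.l 2)))) (.n 1 (.n 3 (.l 6) (.n 1 (.l 1) (.l 1))) (.n 0 (.n 3 (.l 6) (.n 1 (.l 1) (.l 1))) (.n 1 (.n 3 (.l 1) (.l 1)) (.n 3 (.l 2) (.n 1 (.l 1) (.l 2)))))))))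
    [(850403524608, 283467841536), (1649267441664, 549755813888), (132808441856, 22884122624), (274877906944, 274877906944)] rfl (by decide +kernel)
theorem c0_m0_t4 : CovD 0 progs [(850403524608, 283467841536), (549755813888, 549755813888), (132808441856, 22884122624), (824633720832, 274877906944)] :=
  Pool.Agent.helper14.QF.covD_F chks_eq (.n 1 (.l 2) (.n 1 (.l 2) (.l 2)))
    [(850403524608, 283467841536), (549755813888, 549755813888), (132808441856, 22884122624), (824633720832, 274877906944)] rfl (by decide +kernel)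
theorem c0_m0_t5 : CovD 0 progs [(850403524608, 283467841536), (1649267441664, 549755813888), (132808441856, 22884122624), (824633720832, 274877906944)] :=
  Pool.Agent.helper14.QF.covD_F chks_eq (.n 3 (.n 0 (.n 1 (.l 3) (.n 1 (.l 1) (.l 3))) (.n 1 (.n 1 (.l 1) (.l 2)) (.n 0 (.n 1 (.l 1) (.n 0 (.l 1) (.l 2))) (.n 1 (.n 0 (.l 1) (.l 2)) (.n 1 (.n 0 (.l 1) (.l 1)) (.n 2 (.l 1) (.l 2))))))) (.n 0 (.n 1 (.l 2) (.n 0 (.l 2) (.l 3))) (.n 1 (.n 1 (.l 1) (.l 1)) (.n 0 (.n 1 (.l 1) (.l 2)) (.n 1 (.l 2) (.n 2 (.l 1) (.l 2)))))))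
    [(850403524608, 283467841536), (1649267441664, 549755813888), (132808441856, 22884122624), (824633720832, 274877906944)] rfl (by decide +kernel)
end
theorem c0_m0_t3 : CovD 0 progs [(850403524608, 283467841536), (1099511627776, 1099511627776), (132808441856, 22884122624), (274877906944, 274877906944)] :=
  covD_split 1 (by decide +kernel) c0_m0_t1 c0_m0_t2
theorem c0_m0_t6 : CovD 0 progs [(850403524608, 283467841536), (1099511627776, 1099511627776), (132808441856, 22884122624), (824633720832, 274877906944)] :=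
  covD_split 1 (by decide +kernel) c0_m0_t4 c0_m0_t5
theorem c0_m0_t7 : CovD 0 progs [(850403524608, 283467841536), (1099511627776, 1099511627776), (132808441856, 22884122624), (549755813888, 549755813888)] :=
  covD_split 3 (by decide +kernel) c0_m0_t3 c0_m0_t6
theorem c0_m0 : CovD 0 progs [(566935683072, 566935683072), (1099511627776, 1099511627776), (132808441856, 22884122624), (549755813888, 549755813888)] :=
  covD_split 0 (by decide +kernel) c0_m0_t0 c0_m0_t7

end Pool.Agent.helper71.FJ.Crt.LHI
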