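import Pool.Agent.helper71.FJ.Crt.LHIP

/-!
Generated certificates.
-/

namespace Pool.Agent.helper71.FJ.Crt.LHI

open Pool.Agent.helper31.IA (Z Op)
open Pool.Agent.helper31.IC

theorem c1_m0 : CovD 0 progs [(3401614098432, 1133871366144), (1099511627776, 1099511627776), (132808441856, 22884122624), (549755813888, 549755813888)] :=
  Pool.Agent.helper14.QF.covD_F chks_eq (.n 1 (.n 0 (.n 0 (.n 2 (.n 0 (.n 0 (.n 2 (.n 2 (.n 1 (.l 4) (.n 3 (.l 4) (.l 4))) (.l 4)) (.l 4)) (.l 4)) (.l 4)) (.l 4)) (.n 0 (.l 4) (.l 4))) (.n 0 (.l 4) (.l 4))) (.n 0 (.n 1 (.n 0 (.n 1 (.n 2 (.n 0 (.n 0 (.n 0 (.n 2 (.n 2 (.n 3 (.l 4) (.l 4)) (.l 4)) (.l 4)) (.l 4)) (.l 4)) (.l 4)) (.l 4)) (.l 5)) (.l 5)) (.l 5)) (.l 5)))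
    [(3401614098432, 1133871366144), (1099511627776, 1099511627776), (132808441856, 22884122624), (549755813888, 549755813888)] rfl (by decide +kernel)

end Pool.Agent.helper71.FJ.Crt.LHI
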