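import Pool.Agent.helper71.FJ.Crt.LMaP

/-!
Generated certificates.
-/

namespace Pool.Agent.helper71.FJ.Crt.LMa

open Pool.Agent.helper31.IA (Z Op)
open Pool.Agent.helper31.IC

mutual
theorem c0_m0_t0 : CovD 0 progs [(225485783040, 225485783040), (223338299392, 223338299392), (549755813888, 549755813888), (549755813888, 549755813888)] :=
  Pool.Agent.helper14.QF.covD_F chks_eq (.n 0 (.l 8) (.n 1 (.l 8) (.n 0 (.n 1 (.l 8) (.l 6)) (.n 1 (.n 1 (.n 1 (.l 8) (.l 6)) (.l 6)) (.l 6)))))
    [(225485783040, 225485783040), (223338299392, 223338299392), (549755813888, 549755813888), (549755813888, 549755813888)] rfl (by decide +kernel)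
theorem c0_m0_t1 : CovD 0 progs [(112742891520, 112742891520), (223338299392, 223338299392), (1649267441664, 549755813888), (549755813888, 549755813888)] :=
  Pool.Agent.helper14.QF.covD_F chks_eq (.n 0 (.l 8) (.n 1 (.l 8) (.n 1 (.n 0 (.l 8) (.n 2 (.l 8) (.n 1 (.n 1 (.l 8) (.l 6)) (.l 6)))) (.n 2 (.l 6) (.n 3 (.l 6) (.n 0 (.l 6) (.n 0 (.l 6) (.n 1 (.l 6) (.l 6)))))))))
    [(112742891520, 112742891520), (223338299392, 223338299392), (1649267441664, 549755813888), (549755813888, 549755813888)] rfl (by decide +kernel)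
end
mutual
theorem c0_m0_t2 : CovD 0 progs [(281857228800, 56371445760), (111669149696, 111669149696), (1649267441664, 549755813888), (549755813888, 549755813888)] :=
  Pool.Agent.helper14.QF.covD_F chks_eq (.n 0 (.n 0 (.l 8) (.n 1 (.l 8) (.n 1 (.l 8) (.n 2 (.l 8) (.n 2 (.l 8) (.n 3 (.n 3 (.l 5) (.l 5)) (.l 5))))))) (.n 1 (.l 8) (.n 1 (.l 8) (.n 2 (.l 8) (.n 3 (.n 3 (.n 3 (.l 9) (.n 2 (.l 5) (.l 5))) (.n 2 (.l 5) (.l 5))) (.n 2 (.n 1 (.l 5) (.l 5)) (.n 3 (.l 5) (.l 5))))))))
    [(281857228800, 56371445760), (111669149696, 111669149696), (1649267441664, 549755813888), (549755813888, 549755813888)] rfl (by decide +kernel)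
theorem c0_m0_t3 : CovD 0 progs [(281857228800, 56371445760), (251255586816, 27917287424), (1649267441664, 549755813888), (549755813888, 549755813888)] :=
  Pool.Agent.helper14.QF.covD_F chks_eq (.n 1 (.n 1 (.n 2 (.l 8) (.n 3 (.n 1 (.n 0 (.n 0 (.l 8) (.n 2 (.l 8) (.l 5))) (.n 2 (.n 3 (.l 5) (.l 5)) (.n 0 (.l 5) (.l 5)))) (.l 6)) (.n 2 (.n 3 (.l 5) (.l 5)) (.n 0 (.l 5) (.n 2 (.l 5) (.l 5)))))) (.n 2 (.l 6) (.n 3 (.l 6) (.n 0 (.l 6) (.n 1 (.l 6) (.l 6)))))) (.n 2 (.l 6) (.n 2 (.l 6) (.n 3 (.l 6) (.l 6)))))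
    [(281857228800, 56371445760), (251255586816, 27917287424), (1649267441664, 549755813888), (549755813888, 549755813888)] rfl (by decide +kernel)
end
mutual
theorem c0_m0_t4 : CovD 0 progs [(281857228800, 56371445760), (307090161664, 27917287424), (1649267441664, 549755813888), (549755813888, 549755813888)] :=
  Pool.Agent.helper14.QF.covD_F chks_eq (.n 2 (.l 6) (.n 3 (.l 6) (.n 1 (.l 6) (.l 6))))
    [(281857228800, 56371445760), (307090161664, 27917287424), (1649267441664, 549755813888), (549755813888, 549755813888)] rfl (by decide +kernel)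
theorem c0_m0_t6 : CovD 0 progs [(281857228800, 56371445760), (390842023936, 55834574848), (1649267441664, 549755813888), (549755813888, 549755813888)] :=
  Pool.Agent.helper14.QF.covD_F chks_eq (.n 1 (.n 2 (.l 6) (.n 3 (.l 6) (.n 2 (.l 6) (.n 3 (.l 6) (.l 6))))) (.n 2 (.n 3 (.l 6) (.l 6)) (.n 2 (.n 3 (.l 6) (.n 3 (.l 6) (.l 6))) (.n 0 (.n 3 (.l 6) (.n 3 (.l 6) (.l 6))) (.n 0 (.l 7) (.l 7))))))
    [(281857228800, 56371445760), (390842023936, 55834574848), (1649267441664, 549755813888), (549755813888, 549755813888)] rfl (by decide +kernel)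
end
mutual
theorem c0_m0_t9 : CovD 0 progs [(352321536000, 14092861440), (111669149696, 111669149696), (1374389534720, 274877906944), (549755813888, 549755813888)] :=
  Pool.Agent.helper14.QF.covD_F chks_eq (.n 0 (.l 8) (.n 1 (.l 8) (.n 1 (.l 8) (.n 1 (.l 8) (.n 2 (.l 8) (.n 2 (.l 8) (.n 2 (.l 8) (.n 3 (.n 3 (.l 5) (.l 5)) (.l 5)))))))))
    [(352321536000, 14092861440), (111669149696, 111669149696), (1374389534720, 274877906944), (549755813888, 549755813888)] rfl (by decide +kernel)
theorem c0_m0_t10 : CovD 0 progs [(380507258880, 14092861440), (55834574848, 55834574848), (1374389534720, 274877906944), (549755813888, 549755813888)] :=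
  Pool.Agent.helper14.QF.covD_F chks_eq (.l 8)
    [(380507258880, 14092861440), (55834574848, 55834574848), (1374389534720, 274877906944), (549755813888, 549755813888)] rfl (by decide +kernel)
end
mutual
theorem c0_m0_t11 : CovD 0 progs [(373460828160, 7046430720), (167503724544, 55834574848), (1374389534720, 274877906944), (549755813888, 549755813888)] :=
  Pool.Agent.helper14.QF.covD_F chks_eq (.n 1 (.l 8) (.n 1 (.l 8) (.n 1 (.l 8) (.n 2 (.l 8) (.n 2 (.l 8) (.n 3 (.n 3 (.n 0 (.l 3) (.l 3)) (.n 3 (.l 3) (.l 3))) (.n 3 (.l 5) (.l 5))))))))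
    [(373460828160, 7046430720), (167503724544, 55834574848), (1374389534720, 274877906944), (549755813888, 549755813888)] rfl (by decide +kernel)
theorem c0_m0_t12 : CovD 0 progs [(387553689600, 7046430720), (167503724544, 55834574848), (1374389534720, 274877906944), (549755813888, 549755813888)] :=
  Pool.Agent.helper14.QF.covD_F chks_eq (.n 1 (.l 8) (.n 1 (.l 8) (.n 2 (.l 8) (.n 3 (.n 3 (.n 3 (.l 9) (.n 0 (.l 3) (.l 3))) (.n 0 (.n 3 (.l 3) (.l 3)) (.n 3 (.l 3) (.l 3)))) (.n 3 (.n 3 (.l 3) (.l 3)) (.n 2 (.l 5) (.l 5)))))))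
    [(387553689600, 7046430720), (167503724544, 55834574848), (1374389534720, 274877906944), (549755813888, 549755813888)] rfl (by decide +kernel)
end
mutual
theorem c0_m0_t16 : CovD 0 progs [(366414397440, 28185722880), (111669149696, 111669149696), (1786706395136, 137438953472), (549755813888, 549755813888)] :=
  Pool.Agent.helper14.QF.covD_F chks_eq (.n 1 (.l 8) (.n 1 (.l 8) (.n 3 (.n 3 (.n 3 (.l 9) (.n 1 (.l 5) (.n 0 (.l 5) (.n 0 (.n 0 (.l 3) (.l 3)) (.l 3))))) (.n 1 (.l 5) (.n 0 (.l 5) (.n 0 (.n 1 (.l 5) (.l 5)) (.n 3 (.l 3) (.l 3)))))) (.n 1 (.n 2 (.l 5) (.l 5)) (.n 1 (.n 3 (.l 5) (.l 5)) (.n 3 (.n 2 (.l 5) (.l 5)) (.l 5)))))))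
    [(366414397440, 28185722880), (111669149696, 111669149696), (1786706395136, 137438953472), (549755813888, 549755813888)] rfl (by decide +kernel)
theorem c0_m0_t17 : CovD 0 progs [(366414397440, 28185722880), (111669149696, 111669149696), (2061584302080, 137438953472), (549755813888, 549755813888)] :=
  Pool.Agent.helper14.QF.covD_F chks_eq (.n 1 (.l 8) (.n 1 (.n 1 (.l 8) (.n 3 (.l 5) (.l 5))) (.n 1 (.n 2 (.n 3 (.l 5) (.l 5)) (.n 3 (.l 5) (.l 5))) (.n 0 (.n 3 (.n 2 (.l 5) (.l 5)) (.n 3 (.l 5) (.l 5))) (.n 3 (.n 2 (.n 3 (.l 5) (.l 5)) (.n 3 (.l 3) (.l 5))) (.n 3 (.n 2 (.l 5) (.l 5)) (.n 3 (.l 0) (.l 0))))))))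
    [(366414397440, 28185722880), (111669149696, 111669149696), (2061584302080, 137438953472), (549755813888, 549755813888)] rfl (by decide +kernel)
end
mutual
theorem c0_m0_t20 : CovD 0 progs [(422785843200, 28185722880), (55834574848, 55834574848), (1649267441664, 549755813888), (549755813888, 549755813888)] :=
  Pool.Agent.helper14.QF.covD_F chks_eq (.l 8)
    [(422785843200, 28185722880), (55834574848, 55834574848), (1649267441664, 549755813888), (549755813888, 549755813888)] rfl (by decide +kernel)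
theorem c0_m0_t21 : CovD 0 progs [(422785843200, 28185722880), (139586437120, 27917287424), (1649267441664, 549755813888), (549755813888, 549755813888)] :=
  Pool.Agent.helper14.QF.covD_F chks_eq (.n 1 (.n 2 (.l 8) (.n 2 (.l 8) (.n 3 (.l 5) (.l 5)))) (.n 2 (.l 8) (.n 2 (.n 3 (.n 0 (.n 2 (.l 5) (.l 5)) (.n 3 (.l 3) (.n 0 (.l 5) (.l 3)))) (.n 3 (.n 2 (.l 5) (.l 5)) (.l 5))) (.n 2 (.n 3 (.l 5) (.l 5)) (.n 3 (.l 5) (.l 5))))))
    [(422785843200, 28185722880), (139586437120, 27917287424), (1649267441664, 549755813888), (549755813888, 549755813888)] rfl (by decide +kernel)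
end
mutual
theorem c0_m0_t22 : CovD 0 progs [(408692981760, 14092861440), (195421011968, 27917287424), (1649267441664, 549755813888), (274877906944, 274877906944)] :=
  Pool.Agent.helper14.QF.covD_F chks_eq (.n 2 (.n 2 (.l 8) (.n 0 (.n 1 (.l 8) (.n 3 (.n 2 (.l 3) (.l 3)) (.n 3 (.l 3) (.l 3)))) (.n 3 (.n 1 (.l 3) (.l 3)) (.n 3 (.l 3) (.l 3))))) (.n 3 (.n 3 (.l 9) (.n 2 (.n 0 (.n 1 (.l 3) (.l 3)) (.l 3)) (.n 1 (.l 3) (.l 3)))) (.n 1 (.n 2 (.n 1 (.l 5) (.n 3 (.l 3) (.l 3))) (.l 5)) (.n 2 (.n 3 (.l 3) (.l 3)) (.n 3 (.l 3) (.l 3))))))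
    [(408692981760, 14092861440), (195421011968, 27917287424), (1649267441664, 549755813888), (274877906944, 274877906944)] rfl (by decide +kernel)
theorem c0_m0_t23 : CovD 0 progs [(436878704640, 14092861440), (195421011968, 27917287424), (1649267441664, 549755813888), (274877906944, 274877906944)] :=
  Pool.Agent.helper14.QF.covD_F chks_eq (.n 3 (.n 3 (.l 9) (.n 2 (.n 2 (.n 2 (.l 3) (.l 3)) (.l 3)) (.n 2 (.l 3) (.n 0 (.l 3) (.l 3))))) (.n 2 (.n 2 (.n 2 (.l 8) (.n 2 (.l 8) (.n 3 (.l 3) (.l 3)))) (.n 2 (.n 3 (.l 3) (.l 4)) (.n 3 (.l 3) (.l 3)))) (.n 2 (.n 3 (.l 4) (.n 1 (.l 3) (.l 3))) (.n 0 (.n 1 (.l 3) (.l 4)) (.n 1 (.l 3) (.n 2 (.l 2) (.l 0)))))))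
    [(436878704640, 14092861440), (195421011968, 27917287424), (1649267441664, 549755813888), (274877906944, 274877906944)] rfl (by decide +kernel)
end
mutual
theorem c0_m0_t25 : CovD 0 progs [(422785843200, 28185722880), (195421011968, 27917287424), (1374389534720, 274877906944), (824633720832, 274877906944)] :=
  Pool.Agent.helper14.QF.covD_F chks_eq (.n 0 (.n 2 (.l 8) (.n 3 (.n 3 (.l 4) (.n 1 (.l 0) (.l 4))) (.n 3 (.l 0) (.l 0)))) (.n 3 (.n 2 (.n 3 (.n 3 (.l 0) (.l 0)) (.l 0)) (.n 0 (.n 3 (.n 0 (.l 4) (.l 0)) (.l 0)) (.n 3 (.l 0) (.l 0)))) (.n 2 (.n 3 (.l 0) (.l 0)) (.n 3 (.l 0) (.l 0)))))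
    [(422785843200, 28185722880), (195421011968, 27917287424), (1374389534720, 274877906944), (824633720832, 274877906944)] rfl (by decide +kernel)
theorem c0_m0_t26 : CovD 0 progs [(422785843200, 28185722880), (195421011968, 27917287424), (1924145348608, 274877906944), (824633720832, 274877906944)] :=
  Pool.Agent.helper14.QF.covD_F chks_eq (.n 2 (.n 3 (.n 3 (.n 0 (.l 4) (.n 1 (.l 0) (.l 0))) (.n 1 (.l 4) (.n 0 (.l 0) (.l 0)))) (.n 3 (.n 3 (.l 0) (.l 0)) (.n 0 (.l 0) (.l 0)))) (.n 1 (.n 3 (.n 3 (.l 4) (.l 4)) (.n 3 (.l 0) (.l 0))) (.n 3 (.n 0 (.n 3 (.l 3) (.l 0)) (.n 3 (.l 0) (.l 0))) (.n 3 (.n 0 (.l 0) (.l 0)) (.l 0)))))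
    [(422785843200, 28185722880), (195421011968, 27917287424), (1924145348608, 274877906944), (824633720832, 274877906944)] rfl (by decide +kernel)
end
mutual
theorem c0_m0_t32 : CovD 0 progs [(352321536000, 14092861440), (230317621248, 6979321856), (1649267441664, 549755813888), (549755813888, 549755813888)] :=
  Pool.Agent.helper14.QF.covD_F chks_eq (.n 2 (.n 1 (.n 2 (.l 8) (.n 2 (.l 8) (.n 3 (.n 0 (.n 1 (.l 8) (.l 6)) (.n 3 (.l 3) (.l 5))) (.l 5)))) (.n 2 (.l 6) (.l 6))) (.n 2 (.n 1 (.n 2 (.n 3 (.n 3 (.l 5) (.l 5)) (.l 5)) (.n 3 (.l 5) (.l 5))) (.n 3 (.l 6) (.l 6))) (.n 3 (.n 3 (.l 5) (.l 5)) (.n 3 (.l 5) (.n 0 (.l 5) (.l 5))))))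
    [(352321536000, 14092861440), (230317621248, 6979321856), (1649267441664, 549755813888), (549755813888, 549755813888)] rfl (by decide +kernel)
theorem c0_m0_t33 : CovD 0 progs [(380507258880, 14092861440), (230317621248, 6979321856), (1374389534720, 274877906944), (549755813888, 549755813888)] :=
  Pool.Agent.helper14.QF.covD_F chks_eq (.n 2 (.l 8) (.n 3 (.n 3 (.n 3 (.l 9) (.n 0 (.n 0 (.l 3) (.l 3)) (.l 3))) (.n 0 (.n 1 (.n 2 (.l 8) (.n 3 (.l 3) (.l 3))) (.l 6)) (.n 3 (.l 3) (.l 3)))) (.n 3 (.n 3 (.n 0 (.l 3) (.l 3)) (.l 3)) (.n 3 (.l 0) (.l 0)))))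
    [(380507258880, 14092861440), (230317621248, 6979321856), (1374389534720, 274877906944), (549755813888, 549755813888)] rfl (by decide +kernel)
end
mutual
theorem c0_m0_t34 : CovD 0 progs [(380507258880, 14092861440), (230317621248, 6979321856), (1924145348608, 274877906944), (549755813888, 549755813888)] :=
  Pool.Agent.helper14.QF.covD_F chks_eq (.n 3 (.n 1 (.n 2 (.n 0 (.n 1 (.n 3 (.l 3) (.l 5)) (.l 6)) (.n 3 (.l 3) (.n 3 (.l 3) (.l 3)))) (.n 3 (.l 3) (.n 0 (.l 5) (.l 3)))) (.l 6)) (.n 2 (.n 3 (.n 3 (.l 3) (.l 3)) (.n 1 (.l 5) (.l 6))) (.n 3 (.n 3 (.l 3) (.l 4)) (.n 3 (.l 0) (.l 0)))))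
    [(380507258880, 14092861440), (230317621248, 6979321856), (1924145348608, 274877906944), (549755813888, 549755813888)] rfl (by decide +kernel)
theorem c0_m0_t37 : CovD 0 progs [(422785843200, 28185722880), (230317621248, 6979321856), (1236950581248, 137438953472), (549755813888, 549755813888)] :=
  Pool.Agent.helper14.QF.covD_F chks_eq (.n 2 (.l 8) (.n 3 (.n 0 (.n 3 (.n 0 (.l 3) (.l 3)) (.n 3 (.l 3) (.l 3))) (.n 3 (.l 3) (.n 3 (.l 3) (.l 2)))) (.n 3 (.n 0 (.n 3 (.l 3) (.l 0)) (.n 3 (.l 0) (.l 0))) (.n 3 (.l 0) (.l 0)))))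
    [(422785843200, 28185722880), (230317621248, 6979321856), (1236950581248, 137438953472), (549755813888, 549755813888)] rfl (by decide +kernel)
end
mutual
theorem c0_m0_t38 : CovD 0 progs [(422785843200, 28185722880), (230317621248, 6979321856), (1511828488192, 137438953472), (549755813888, 549755813888)] :=
  Pool.Agent.helper14.QF.covD_F chks_eq (.n 1 (.n 3 (.n 0 (.n 3 (.n 0 (.l 3) (.l 3)) (.n 3 (.l 3) (.l 3))) (.n 3 (.l 3) (.n 3 (.l 3) (.l 4)))) (.n 3 (.n 0 (.n 3 (.l 3) (.l 0)) (.n 3 (.l 0) (.l 0))) (.n 3 (.l 0) (.l 0)))) (.n 3 (.l 6) (.l 6)))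
    [(422785843200, 28185722880), (230317621248, 6979321856), (1511828488192, 137438953472), (549755813888, 549755813888)] rfl (by decide +kernel)
theorem c0_m0_t40 : CovD 0 progs [(422785843200, 28185722880), (230317621248, 6979321856), (1924145348608, 274877906944), (274877906944, 274877906944)] :=
  Pool.Agent.helper14.QF.covD_F chks_eq (.n 1 (.n 3 (.n 3 (.l 9) (.n 2 (.n 0 (.l 3) (.l 2)) (.l 3))) (.n 0 (.n 2 (.n 3 (.l 3) (.l 3)) (.l 3)) (.n 2 (.n 0 (.l 3) (.l 4)) (.n 2 (.l 4) (.l 0))))) (.n 2 (.l 6) (.l 6)))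
    [(422785843200, 28185722880), (230317621248, 6979321856), (1924145348608, 274877906944), (274877906944, 274877906944)] rfl (by decide +kernel)
end
mutual
theorem c0_m0_t41 : CovD 0 progs [(422785843200, 28185722880), (230317621248, 6979321856), (1924145348608, 274877906944), (824633720832, 274877906944)] :=
  Pool.Agent.helper14.QF.covD_F chks_eq (.n 2 (.n 3 (.n 0 (.n 3 (.l 3) (.l 0)) (.n 3 (.l 0) (.l 0))) (.n 3 (.l 0) (.l 0))) (.n 3 (.n 0 (.n 3 (.n 0 (.l 0) (.l 0)) (.l 0)) (.n 3 (.l 0) (.l 0))) (.n 3 (.l 1) (.l 0))))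
    [(422785843200, 28185722880), (230317621248, 6979321856), (1924145348608, 274877906944), (824633720832, 274877906944)] rfl (by decide +kernel)
theorem c0_m0_t45 : CovD 0 progs [(394600120320, 56371445760), (244276264960, 6979321856), (1649267441664, 549755813888), (549755813888, 549755813888)] :=
  Pool.Agent.helper14.QF.covD_F chks_eq (.n 2 (.n 2 (.l 6) (.l 6)) (.n 3 (.l 6) (.n 2 (.n 0 (.l 6) (.l 6)) (.n 3 (.l 6) (.n 0 (.l 6) (.n 3 (.l 6) (.l 1)))))))
    [(394600120320, 56371445760), (244276264960, 6979321856), (1649267441664, 549755813888), (549755813888, 549755813888)] rfl (by decide +kernel)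
end
mutual
theorem c0_m0_t47 : CovD 0 progs [(394600120320, 56371445760), (265214230528, 13958643712), (1649267441664, 549755813888), (549755813888, 549755813888)] :=
  Pool.Agent.helper14.QF.covD_F chks_eq (.n 2 (.n 0 (.l 6) (.l 6)) (.n 3 (.l 6) (.n 2 (.l 6) (.n 0 (.l 6) (.n 1 (.l 6) (.l 6))))))
    [(394600120320, 56371445760), (265214230528, 13958643712), (1649267441664, 549755813888), (549755813888, 549755813888)] rfl (by decide +kernel)
theorem c0_m0_t49 : CovD 0 progs [(394600120320, 56371445760), (307090161664, 27917287424), (1649267441664, 549755813888), (549755813888, 549755813888)] :=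
  Pool.Agent.helper14.QF.covD_F chks_eq (.n 2 (.n 1 (.l 6) (.l 6)) (.n 3 (.l 6) (.n 2 (.n 1 (.l 6) (.l 6)) (.n 3 (.l 6) (.n 1 (.l 6) (.l 6))))))
    [(394600120320, 56371445760), (307090161664, 27917287424), (1649267441664, 549755813888), (549755813888, 549755813888)] rfl (by decide +kernel)
theorem c0_m0_t51 : CovD 0 progs [(394600120320, 56371445760), (390842023936, 55834574848), (1649267441664, 549755813888), (549755813888, 549755813888)] :=
  Pool.Agent.helper14.QF.covD_F chks_eq (.n 1 (.n 3 (.n 3 (.l 6) (.l 6)) (.n 2 (.l 6) (.n 2 (.n 3 (.l 6) (.l 6)) (.n 0 (.n 0 (.l 7) (.l 7)) (.l 7))))) (.n 2 (.n 2 (.l 6) (.n 3 (.l 6) (.n 3 (.l 6) (.l 6)))) (.n 0 (.n 0 (.n 1 (.l 7) (.l 7)) (.l 7)) (.l 7))))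
    [(394600120320, 56371445760), (390842023936, 55834574848), (1649267441664, 549755813888), (549755813888, 549755813888)] rfl (by decide +kernel)
end
theorem c0_m0_t5 : CovD 0 progs [(281857228800, 56371445760), (279172874240, 55834574848), (1649267441664, 549755813888), (549755813888, 549755813888)] :=
  covD_split 1 (by decide +kernel) c0_m0_t3 c0_m0_t4
theorem c0_m0_t7 : CovD 0 progs [(281857228800, 56371445760), (335007449088, 111669149696), (1649267441664, 549755813888), (549755813888, 549755813888)] :=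
  covD_split 1 (by decide +kernel) c0_m0_t5 c0_m0_t6
theorem c0_m0_t8 : CovD 0 progs [(281857228800, 56371445760), (223338299392, 223338299392), (1649267441664, 549755813888), (549755813888, 549755813888)] :=
  covD_split 1 (by decide +kernel) c0_m0_t2 c0_m0_t7
theorem c0_m0_t13 : CovD 0 progs [(380507258880, 14092861440), (167503724544, 55834574848), (1374389534720, 274877906944), (549755813888, 549755813888)] :=
  covD_split 0 (by decide +kernel) c0_m0_t11 c0_m0_t12
theorem c0_m0_t14 : CovD 0 progs [(380507258880, 14092861440), (111669149696, 111669149696), (1374389534720, 274877906944), (549755813888, 549755813888)] :=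
  covD_split 1 (by decide +kernel) c0_m0_t10 c0_m0_t13
theorem c0_m0_t15 : CovD 0 progs [(366414397440, 28185722880), (111669149696, 111669149696), (1374389534720, 274877906944), (549755813888, 549755813888)] :=
  covD_split 0 (by decide +kernel) c0_m0_t9 c0_m0_t14
theorem c0_m0_t18 : CovD 0 progs [(366414397440, 28185722880), (111669149696, 111669149696), (1924145348608, 274877906944), (549755813888, 549755813888)] :=
  covD_split 2 (by decide +kernel) c0_m0_t16 c0_m0_t17
theorem c0_m0_t19 : CovD 0 progs [(366414397440, 28185722880), (111669149696, 111669149696), (1649267441664, 549755813888), (549755813888, 549755813888)] :=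
  covD_split 2 (by decide +kernel) c0_m0_t15 c0_m0_t18
theorem c0_m0_t24 : CovD 0 progs [(422785843200, 28185722880), (195421011968, 27917287424), (1649267441664, 549755813888), (274877906944, 274877906944)] :=
  covD_split 0 (by decide +kernel) c0_m0_t22 c0_m0_t23
theorem c0_m0_t27 : CovD 0 progs [(422785843200, 28185722880), (195421011968, 27917287424), (1649267441664, 549755813888), (824633720832, 274877906944)] :=
  covD_split 2 (by decide +kernel) c0_m0_t25 c0_m0_t26
theorem c0_m0_t28 : CovD 0 progs [(422785843200, 28185722880), (195421011968, 27917287424), (1649267441664, 549755813888), (549755813888, 549755813888)] :=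
  covD_split 3 (by decide +kernel) c0_m0_t24 c0_m0_t27
theorem c0_m0_t29 : CovD 0 progs [(422785843200, 28185722880), (167503724544, 55834574848), (1649267441664, 549755813888), (549755813888, 549755813888)] :=
  covD_split 1 (by decide +kernel) c0_m0_t21 c0_m0_t28
theorem c0_m0_t30 : CovD 0 progs [(422785843200, 28185722880), (111669149696, 111669149696), (1649267441664, 549755813888), (549755813888, 549755813888)] :=
  covD_split 1 (by decide +kernel) c0_m0_t20 c0_m0_t29
theorem c0_m0_t31 : CovD 0 progs [(394600120320, 56371445760), (111669149696, 111669149696), (1649267441664, 549755813888), (549755813888, 549755813888)] :=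
  covD_split 0 (by decide +kernel) c0_m0_t19 c0_m0_t30
theorem c0_m0_t35 : CovD 0 progs [(380507258880, 14092861440), (230317621248, 6979321856), (1649267441664, 549755813888), (549755813888, 549755813888)] :=
  covD_split 2 (by decide +kernel) c0_m0_t33 c0_m0_t34
theorem c0_m0_t36 : CovD 0 progs [(366414397440, 28185722880), (230317621248, 6979321856), (1649267441664, 549755813888), (549755813888, 549755813888)] :=
  covD_split 0 (by decide +kernel) c0_m0_t32 c0_m0_t35
theorem c0_m0_t39 : CovD 0 progs [(422785843200, 28185722880), (230317621248, 6979321856), (1374389534720, 274877906944), (549755813888, 549755813888)] :=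
  covD_split 2 (by decide +kernel) c0_m0_t37 c0_m0_t38
theorem c0_m0_t42 : CovD 0 progs [(422785843200, 28185722880), (230317621248, 6979321856), (1924145348608, 274877906944), (549755813888, 549755813888)] :=
  covD_split 3 (by decide +kernel) c0_m0_t40 c0_m0_t41
theorem c0_m0_t43 : CovD 0 progs [(422785843200, 28185722880), (230317621248, 6979321856), (1649267441664, 549755813888), (549755813888, 549755813888)] :=
  covD_split 2 (by decide +kernel) c0_m0_t39 c0_m0_t42
theorem c0_m0_t44 : CovD 0 progs [(394600120320, 56371445760), (230317621248, 6979321856), (1649267441664, 549755813888), (549755813888, 549755813888)] :=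
  covD_split 0 (by decide +kernel) c0_m0_t36 c0_m0_t43
theorem c0_m0_t46 : CovD 0 progs [(394600120320, 56371445760), (237296943104, 13958643712), (1649267441664, 549755813888), (549755813888, 549755813888)] :=
  covD_split 1 (by decide +kernel) c0_m0_t44 c0_m0_t45
theorem c0_m0_t48 : CovD 0 progs [(394600120320, 56371445760), (251255586816, 27917287424), (1649267441664, 549755813888), (549755813888, 549755813888)] :=
  covD_split 1 (by decide +kernel) c0_m0_t46 c0_m0_t47
theorem c0_m0_t50 : CovD 0 progs [(394600120320, 56371445760), (279172874240, 55834574848), (1649267441664, 549755813888), (549755813888, 549755813888)] :=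
  covD_split 1 (by decide +kernel) c0_m0_t48 c0_m0_t49
theorem c0_m0_t52 : CovD 0 progs [(394600120320, 56371445760), (335007449088, 111669149696), (1649267441664, 549755813888), (549755813888, 549755813888)] :=
  covD_split 1 (by decide +kernel) c0_m0_t50 c0_m0_t51
theorem c0_m0_t53 : CovD 0 progs [(394600120320, 56371445760), (223338299392, 223338299392), (1649267441664, 549755813888), (549755813888, 549755813888)] :=
  covD_split 1 (by decide +kernel) c0_m0_t31 c0_m0_t52
theorem c0_m0_t54 : CovD 0 progs [(338228674560, 112742891520), (223338299392, 223338299392), (1649267441664, 549755813888), (549755813888, 549755813888)] :=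
  covD_split 0 (by decide +kernel) c0_m0_t8 c0_m0_t53
theorem c0_m0_t55 : CovD 0 progs [(225485783040, 225485783040), (223338299392, 223338299392), (1649267441664, 549755813888), (549755813888, 549755813888)] :=
  covD_split 0 (by decide +kernel) c0_m0_t1 c0_m0_t54
theorem c0_m0 : CovD 0 progs [(225485783040, 225485783040), (223338299392, 223338299392), (1099511627776, 1099511627776), (549755813888, 549755813888)] :=
  covD_split 2 (by decide +kernel) c0_m0_t0 c0_m0_t55

end Pool.Agent.helper71.FJ.Crt.LMa
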