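import Pool.Agent.helper71.FJ.Crt.LMbP

/-!
Generated certificates.
-/

namespace Pool.Agent.helper71.FJ.Crt.LMb

open Pool.Agent.helper31.IA (Z Op)
open Pool.Agent.helper31.IC

mutual
theorem c0_m0_t0 : CovD 0 progs [(225485783040, 225485783040), (549755813888, 549755813888), (137438953472, 137438953472), (549755813888, 549755813888)] :=
  Pool.Agent.helper14.QF.covD_F chks_eq (.n 0 (.l 9) (.n 0 (.l 9) (.n 0 (.l 9) (.n 1 (.l 9) (.n 1 (.l 9) (.n 3 (.l 0) (.l 0)))))))
    [(225485783040, 225485783040), (549755813888, 549755813888), (137438953472, 137438953472), (549755813888, 549755813888)] rfl (by decide +kernel)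
theorem c0_m0_t1 : CovD 0 progs [(225485783040, 225485783040), (549755813888, 549755813888), (343597383680, 68719476736), (549755813888, 549755813888)] :=
  Pool.Agent.helper14.QF.covD_F chks_eq (.n 0 (.l 9) (.n 0 (.n 0 (.l 9) (.n 1 (.l 9) (.n 1 (.l 9) (.n 2 (.l 9) (.n 3 (.l 4) (.l 0)))))) (.n 1 (.l 9) (.n 1 (.n 1 (.l 9) (.n 3 (.l 4) (.l 0))) (.n 0 (.n 3 (.l 3) (.l 3)) (.n 3 (.l 3) (.n 0 (.l 3) (.l 4))))))))
    [(225485783040, 225485783040), (549755813888, 549755813888), (343597383680, 68719476736), (549755813888, 549755813888)] rfl (by decide +kernel)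
end
mutual
theorem c0_m0_t2 : CovD 0 progs [(112742891520, 112742891520), (549755813888, 549755813888), (481036337152, 68719476736), (549755813888, 549755813888)] :=
  Pool.Agent.helper14.QF.covD_F chks_eq (.n 0 (.l 9) (.n 0 (.l 9) (.n 0 (.l 9) (.n 1 (.l 9) (.n 1 (.l 9) (.n 2 (.l 9) (.n 3 (.n 3 (.l 7) (.l 0)) (.l 0))))))))
    [(112742891520, 112742891520), (549755813888, 549755813888), (481036337152, 68719476736), (549755813888, 549755813888)] rfl (by decide +kernel)
theorem c0_m0_t3 : CovD 0 progs [(281857228800, 56371445760), (549755813888, 549755813888), (481036337152, 68719476736), (549755813888, 549755813888)] :=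
  Pool.Agent.helper14.QF.covD_F chks_eq (.n 0 (.n 1 (.l 9) (.n 1 (.l 9) (.n 3 (.n 3 (.n 0 (.l 4) (.l 3)) (.l 3)) (.n 0 (.l 3) (.l 3))))) (.n 1 (.l 9) (.n 1 (.n 1 (.l 9) (.n 3 (.l 0) (.l 0))) (.n 3 (.n 3 (.l 4) (.l 4)) (.n 1 (.l 3) (.l 4))))))
    [(281857228800, 56371445760), (549755813888, 549755813888), (481036337152, 68719476736), (549755813888, 549755813888)] rfl (by decide +kernel)
end
mutual
theorem c0_m0_t4 : CovD 0 progs [(394600120320, 56371445760), (274877906944, 274877906944), (481036337152, 68719476736), (549755813888, 549755813888)] :=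
  Pool.Agent.helper14.QF.covD_F chks_eq (.n 1 (.l 9) (.n 3 (.l 0) (.l 0)))
    [(394600120320, 56371445760), (274877906944, 274877906944), (481036337152, 68719476736), (549755813888, 549755813888)] rfl (by decide +kernel)
theorem c0_m0_t5 : CovD 0 progs [(394600120320, 56371445760), (824633720832, 274877906944), (481036337152, 68719476736), (549755813888, 549755813888)] :=
  Pool.Agent.helper14.QF.covD_F chks_eq (.n 1 (.n 1 (.n 3 (.l 4) (.l 4)) (.n 1 (.n 3 (.l 4) (.l 4)) (.n 3 (.l 4) (.l 4)))) (.n 0 (.n 1 (.n 3 (.l 4) (.l 4)) (.n 3 (.n 1 (.l 4) (.l 4)) (.n 3 (.l 4) (.l 4)))) (.n 1 (.n 3 (.n 3 (.l 4) (.l 4)) (.n 1 (.l 4) (.n 2 (.l 3) (.l 4)))) (.n 2 (.n 3 (.l 4) (.l 4)) (.n 0 (.n 1 (.n 3 (.l 4) (.l 4)) (.l 8)) (.n 1 (.l 8) (.l 8)))))))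
    [(394600120320, 56371445760), (824633720832, 274877906944), (481036337152, 68719476736), (549755813888, 549755813888)] rfl (by decide +kernel)
end
theorem c0_m0_t6 : CovD 0 progs [(394600120320, 56371445760), (549755813888, 549755813888), (481036337152, 68719476736), (549755813888, 549755813888)] :=
  covD_split 1 (by decide +kernel) c0_m0_t4 c0_m0_t5
theorem c0_m0_t7 : CovD 0 progs [(338228674560, 112742891520), (549755813888, 549755813888), (481036337152, 68719476736), (549755813888, 549755813888)] :=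
  covD_split 0 (by decide +kernel) c0_m0_t3 c0_m0_t6
theorem c0_m0_t8 : CovD 0 progs [(225485783040, 225485783040), (549755813888, 549755813888), (481036337152, 68719476736), (549755813888, 549755813888)] :=
  covD_split 0 (by decide +kernel) c0_m0_t2 c0_m0_t7
theorem c0_m0_t9 : CovD 0 progs [(225485783040, 225485783040), (549755813888, 549755813888), (412316860416, 137438953472), (549755813888, 549755813888)] :=
  covD_split 2 (by decide +kernel) c0_m0_t1 c0_m0_t8
theorem c0_m0 : CovD 0 progs [(225485783040, 225485783040), (549755813888, 549755813888), (274877906944, 274877906944), (549755813888, 549755813888)] :=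
  covD_split 2 (by decide +kernel) c0_m0_t0 c0_m0_t9

end Pool.Agent.helper71.FJ.Crt.LMb
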