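import Pool.Agent.helper71.FJ.Crt.LMbP

/-!
Generated certificates.
-/

namespace Pool.Agent.helper71.FJ.Crt.LMb

open Pool.Agent.helper31.IA (Z Op)
open Pool.Agent.helper31.IC

mutual
theorem c1_m0_t0 : CovD 0 progs [(56371445760, 56371445760), (3023656976384, 1924145348608), (274877906944, 274877906944), (274877906944, 274877906944)] :=
  Pool.Agent.helper14.QF.covD_F chks_eq (.n 0 (.l 7) (.n 1 (.l 7) (.n 2 (.l 7) (.l 7))))
    [(56371445760, 56371445760), (3023656976384, 1924145348608), (274877906944, 274877906944), (274877906944, 274877906944)] rfl (by decide +kernel)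
theorem c1_m0_t1 : CovD 0 progs [(140928614400, 28185722880), (3023656976384, 1924145348608), (274877906944, 274877906944), (274877906944, 274877906944)] :=
  Pool.Agent.helper14.QF.covD_F chks_eq (.n 2 (.n 2 (.l 9) (.n 0 (.l 7) (.n 3 (.l 7) (.n 1 (.l 7) (.n 2 (.n 1 (.l 7) (.l 7)) (.l 7)))))) (.n 1 (.n 0 (.l 7) (.n 3 (.l 7) (.n 2 (.l 7) (.l 7)))) (.n 1 (.n 2 (.l 7) (.l 7)) (.n 2 (.l 7) (.l 7)))))
    [(140928614400, 28185722880), (3023656976384, 1924145348608), (274877906944, 274877906944), (274877906944, 274877906944)] rfl (by decide +kernel)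
end
mutual
theorem c1_m0_t2 : CovD 0 progs [(183207198720, 14092861440), (2061584302080, 962072674304), (274877906944, 274877906944), (274877906944, 274877906944)] :=
  Pool.Agent.helper14.QF.covD_F chks_eq (.n 1 (.n 2 (.l 9) (.n 3 (.l 7) (.n 1 (.n 2 (.l 9) (.n 3 (.l 7) (.l 3))) (.n 2 (.n 3 (.l 7) (.l 4)) (.l 7))))) (.n 2 (.n 2 (.l 9) (.n 2 (.l 9) (.n 3 (.l 7) (.n 3 (.l 7) (.n 0 (.l 3) (.l 3)))))) (.n 3 (.l 7) (.n 2 (.n 3 (.l 7) (.n 2 (.n 1 (.l 3) (.l 3)) (.l 7))) (.l 7)))))
    [(183207198720, 14092861440), (2061584302080, 962072674304), (274877906944, 274877906944), (274877906944, 274877906944)] rfl (by decide +kernel)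
theorem c1_m0_t3 : CovD 0 progs [(183207198720, 14092861440), (3504693313536, 481036337152), (274877906944, 274877906944), (274877906944, 274877906944)] :=
  Pool.Agent.helper14.QF.covD_F chks_eq (.n 2 (.n 2 (.l 9) (.n 3 (.l 7) (.n 0 (.n 3 (.l 7) (.n 2 (.l 3) (.l 7))) (.n 1 (.n 1 (.l 3) (.l 3)) (.n 2 (.l 3) (.n 0 (.l 3) (.l 3))))))) (.n 2 (.n 2 (.n 1 (.n 1 (.l 7) (.l 7)) (.l 7)) (.l 7)) (.l 7)))
    [(183207198720, 14092861440), (3504693313536, 481036337152), (274877906944, 274877906944), (274877906944, 274877906944)] rfl (by decide +kernel)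
end
mutual
theorem c1_m0_t4 : CovD 0 progs [(183207198720, 14092861440), (4466765987840, 481036337152), (274877906944, 274877906944), (274877906944, 274877906944)] :=
  Pool.Agent.helper14.QF.covD_F chks_eq (.n 2 (.n 2 (.n 1 (.l 9) (.n 2 (.l 9) (.n 3 (.l 7) (.l 4)))) (.n 3 (.l 7) (.n 1 (.n 0 (.n 2 (.l 3) (.l 7)) (.n 2 (.l 3) (.n 2 (.l 3) (.l 7)))) (.n 2 (.n 2 (.l 3) (.n 0 (.l 3) (.l 3))) (.n 0 (.l 7) (.n 2 (.n 0 (.l 3) (.l 3)) (.l 7))))))) (.n 2 (.n 2 (.n 1 (.l 7) (.l 7)) (.l 7)) (.n 0 (.l 7) (.l 7))))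
    [(183207198720, 14092861440), (4466765987840, 481036337152), (274877906944, 274877906944), (274877906944, 274877906944)] rfl (by decide +kernel)
theorem c1_m0_t7 : CovD 0 progs [(211392921600, 14092861440), (1580547964928, 481036337152), (274877906944, 274877906944), (274877906944, 274877906944)] :=
  Pool.Agent.helper14.QF.covD_F chks_eq (.n 2 (.l 9) (.n 1 (.n 2 (.n 1 (.l 9) (.n 2 (.l 9) (.n 3 (.n 0 (.l 7) (.l 4)) (.l 0)))) (.n 3 (.n 2 (.l 7) (.l 7)) (.n 1 (.l 3) (.n 0 (.l 3) (.l 3))))) (.n 2 (.n 0 (.n 3 (.l 7) (.n 0 (.l 3) (.l 3))) (.n 3 (.n 2 (.n 0 (.l 7) (.l 3)) (.l 7)) (.l 3))) (.n 3 (.l 7) (.n 2 (.n 0 (.l 4) (.l 4)) (.l 6))))))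
    [(211392921600, 14092861440), (1580547964928, 481036337152), (274877906944, 274877906944), (274877906944, 274877906944)] rfl (by decide +kernel)
end
mutual
theorem c1_m0_t8 : CovD 0 progs [(211392921600, 14092861440), (2542620639232, 481036337152), (137438953472, 137438953472), (274877906944, 274877906944)] :=
  Pool.Agent.helper14.QF.covD_F chks_eq (.n 0 (.n 2 (.l 9) (.n 2 (.l 9) (.n 3 (.l 7) (.n 0 (.l 4) (.l 3))))) (.n 1 (.n 3 (.n 1 (.l 4) (.l 4)) (.l 3)) (.n 2 (.l 9) (.n 3 (.l 4) (.l 3)))))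
    [(211392921600, 14092861440), (2542620639232, 481036337152), (137438953472, 137438953472), (274877906944, 274877906944)] rfl (by decide +kernel)
theorem c1_m0_t9 : CovD 0 progs [(211392921600, 14092861440), (2542620639232, 481036337152), (412316860416, 137438953472), (274877906944, 274877906944)] :=
  Pool.Agent.helper14.QF.covD_F chks_eq (.n 2 (.n 2 (.n 0 (.n 3 (.l 7) (.n 1 (.l 3) (.l 3))) (.n 1 (.n 3 (.n 0 (.l 4) (.l 3)) (.l 3)) (.n 3 (.l 7) (.l 3)))) (.n 3 (.l 7) (.n 1 (.n 0 (.l 4) (.l 4)) (.n 1 (.l 4) (.l 6))))) (.n 1 (.n 2 (.n 1 (.l 6) (.l 6)) (.l 7)) (.n 0 (.l 7) (.n 1 (.l 8) (.l 7)))))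
    [(211392921600, 14092861440), (2542620639232, 481036337152), (412316860416, 137438953472), (274877906944, 274877906944)] rfl (by decide +kernel)
end
mutual
theorem c1_m0_t12 : CovD 0 progs [(211392921600, 14092861440), (3504693313536, 481036337152), (137438953472, 137438953472), (274877906944, 274877906944)] :=
  Pool.Agent.helper14.QF.covD_F chks_eq (.n 2 (.l 9) (.n 3 (.n 0 (.n 2 (.n 1 (.l 3) (.l 3)) (.l 7)) (.n 1 (.n 2 (.l 3) (.l 3)) (.n 2 (.l 3) (.l 7)))) (.n 1 (.n 1 (.l 3) (.n 2 (.l 3) (.l 3))) (.n 2 (.l 3) (.n 1 (.l 3) (.n 0 (.l 3) (.l 4)))))))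
    [(211392921600, 14092861440), (3504693313536, 481036337152), (137438953472, 137438953472), (274877906944, 274877906944)] rfl (by decide +kernel)
theorem c1_m0_t13 : CovD 0 progs [(211392921600, 14092861440), (3504693313536, 481036337152), (412316860416, 137438953472), (274877906944, 274877906944)] :=
  Pool.Agent.helper14.QF.covD_F chks_eq (.n 1 (.n 2 (.n 2 (.n 3 (.l 7) (.n 1 (.l 4) (.n 0 (.l 4) (.l 4)))) (.n 0 (.l 7) (.l 8))) (.n 0 (.l 7) (.l 7))) (.n 2 (.n 2 (.n 2 (.n 1 (.n 3 (.l 7) (.l 3)) (.l 8)) (.l 8)) (.l 8)) (.l 7)))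
    [(211392921600, 14092861440), (3504693313536, 481036337152), (412316860416, 137438953472), (274877906944, 274877906944)] rfl (by decide +kernel)
end
mutual
theorem c1_m0_t15 : CovD 0 progs [(211392921600, 14092861440), (4466765987840, 481036337152), (68719476736, 68719476736), (274877906944, 274877906944)] :=
  Pool.Agent.helper14.QF.covD_F chks_eq (.n 2 (.l 9) (.n 1 (.n 3 (.l 3) (.l 3)) (.n 2 (.l 9) (.n 3 (.l 3) (.l 3)))))
    [(211392921600, 14092861440), (4466765987840, 481036337152), (68719476736, 68719476736), (274877906944, 274877906944)] rfl (by decide +kernel)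
theorem c1_m0_t16 : CovD 0 progs [(211392921600, 14092861440), (4466765987840, 481036337152), (206158430208, 68719476736), (274877906944, 274877906944)] :=
  Pool.Agent.helper14.QF.covD_F chks_eq (.n 1 (.n 2 (.n 2 (.n 3 (.l 3) (.l 3)) (.n 3 (.l 4) (.l 3))) (.n 3 (.l 7) (.n 1 (.n 2 (.l 3) (.l 4)) (.n 2 (.l 3) (.l 8))))) (.n 2 (.n 2 (.n 3 (.l 3) (.n 0 (.l 3) (.l 2))) (.n 3 (.l 7) (.n 0 (.l 3) (.n 0 (.l 2) (.l 2))))) (.n 2 (.n 0 (.n 2 (.n 3 (.l 3) (.l 3)) (.l 8)) (.n 2 (.l 8) (.l 8))) (.l 8))))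
    [(211392921600, 14092861440), (4466765987840, 481036337152), (206158430208, 68719476736), (274877906944, 274877906944)] rfl (by decide +kernel)
theorem c1_m0_t18 : CovD 0 progs [(211392921600, 14092861440), (4466765987840, 481036337152), (412316860416, 137438953472), (274877906944, 274877906944)] :=
  Pool.Agent.helper14.QF.covD_F chks_eq (.n 2 (.n 2 (.n 1 (.n 0 (.l 8) (.l 8)) (.l 8)) (.l 8)) (.l 8))
    [(211392921600, 14092861440), (4466765987840, 481036337152), (412316860416, 137438953472), (274877906944, 274877906944)] rfl (by decide +kernel)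
end
theorem c1_m0_t5 : CovD 0 progs [(183207198720, 14092861440), (3985729650688, 962072674304), (274877906944, 274877906944), (274877906944, 274877906944)] :=
  covD_split 1 (by decide +kernel) c1_m0_t3 c1_m0_t4
theorem c1_m0_t6 : CovD 0 progs [(183207198720, 14092861440), (3023656976384, 1924145348608), (274877906944, 274877906944), (274877906944, 274877906944)] :=
  covD_split 1 (by decide +kernel) c1_m0_t2 c1_m0_t5
theorem c1_m0_t10 : CovD 0 progs [(211392921600, 14092861440), (2542620639232, 481036337152), (274877906944, 274877906944), (274877906944, 274877906944)] :=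
  covD_split 2 (by decide +kernel) c1_m0_t8 c1_m0_t9
theorem c1_m0_t11 : CovD 0 progs [(211392921600, 14092861440), (2061584302080, 962072674304), (274877906944, 274877906944), (274877906944, 274877906944)] :=
  covD_split 1 (by decide +kernel) c1_m0_t7 c1_m0_t10
theorem c1_m0_t14 : CovD 0 progs [(211392921600, 14092861440), (3504693313536, 481036337152), (274877906944, 274877906944), (274877906944, 274877906944)] :=
  covD_split 2 (by decide +kernel) c1_m0_t12 c1_m0_t13
theorem c1_m0_t17 : CovD 0 progs [(211392921600, 14092861440), (4466765987840, 481036337152), (137438953472, 137438953472), (274877906944, 274877906944)] :=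
  covD_split 2 (by decide +kernel) c1_m0_t15 c1_m0_t16
theorem c1_m0_t19 : CovD 0 progs [(211392921600, 14092861440), (4466765987840, 481036337152), (274877906944, 274877906944), (274877906944, 274877906944)] :=
  covD_split 2 (by decide +kernel) c1_m0_t17 c1_m0_t18
theorem c1_m0_t20 : CovD 0 progs [(211392921600, 14092861440), (3985729650688, 962072674304), (274877906944, 274877906944), (274877906944, 274877906944)] :=
  covD_split 1 (by decide +kernel) c1_m0_t14 c1_m0_t19
theorem c1_m0_t21 : CovD 0 progs [(211392921600, 14092861440), (3023656976384, 1924145348608), (274877906944, 274877906944), (274877906944, 274877906944)] :=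
  covD_split 1 (by decide +kernel) c1_m0_t11 c1_m0_t20
theorem c1_m0_t22 : CovD 0 progs [(197300060160, 28185722880), (3023656976384, 1924145348608), (274877906944, 274877906944), (274877906944, 274877906944)] :=
  covD_split 0 (by decide +kernel) c1_m0_t6 c1_m0_t21
theorem c1_m0_t23 : CovD 0 progs [(169114337280, 56371445760), (3023656976384, 1924145348608), (274877906944, 274877906944), (274877906944, 274877906944)] :=
  covD_split 0 (by decide +kernel) c1_m0_t1 c1_m0_t22
theorem c1_m0 : CovD 0 progs [(112742891520, 112742891520), (3023656976384, 1924145348608), (274877906944, 274877906944), (274877906944, 274877906944)] :=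
  covD_split 0 (by decide +kernel) c1_m0_t0 c1_m0_t23

end Pool.Agent.helper71.FJ.Crt.LMb
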