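import Pool.Agent.helper71.FJ.Crt.QHIIIP

/-!
Generated certificates.
-/

namespace Pool.Agent.helper71.FJ.Crt.QHIII

open Pool.Agent.helper31.IA (Z Op)
open Pool.Agent.helper31.IC

mutual
theorem c0_m0_t0 : CovD 0 progs [(672162381824, 672162381824), (274877906944, 274877906944), (274877906944, 274877906944), (274877906944, 274877906944)] :=
  Pool.Agent.helper14.QF.covD_F chks_eq (.n 0 (.n 1 (.l 1) (.n 2 (.l 1) (.n 1 (.n 0 (.l 1) (.n 3 (.l 1) (.l 1))) (.n 2 (.n 0 (.l 1) (.l 1)) (.l 5))))) (.n 2 (.n 1 (.l 2) (.n 0 (.l 1) (.n 0 (.l 2) (.l 2)))) (.n 1 (.n 1 (.l 2) (.l 2)) (.n 2 (.n 1 (.n 0 (.l 1) (.l 2)) (.n 2 (.n 0 (.l 1) (.l 1)) (.l 5))) (.n 1 (.n 1 (.n 0 (.l 1) (.l 2)) (.l 5)) (.l 5))))))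
    [(672162381824, 672162381824), (274877906944, 274877906944), (274877906944, 274877906944), (274877906944, 274877906944)] rfl (by decide +kernel)
theorem c0_m0_t1 : CovD 0 progs [(672162381824, 672162381824), (274877906944, 274877906944), (274877906944, 274877906944), (824633720832, 274877906944)] :=
  Pool.Agent.helper14.QF.covD_F chks_eq (.n 1 (.n 0 (.n 1 (.l 1) (.l 1)) (.n 1 (.l 2) (.n 0 (.l 2) (.n 0 (.l 2) (.l 2))))) (.n 1 (.n 0 (.n 0 (.l 0) (.n 1 (.l 0) (.l 0))) (.n 2 (.l 2) (.n 2 (.n 0 (.l 1) (.l 2)) (.n 1 (.n 0 (.l 2) (.l 2)) (.l 5))))) (.n 2 (.n 0 (.l 1) (.n 0 (.l 1) (.l 2))) (.n 2 (.n 2 (.n 0 (.l 1) (.n 1 (.l 2) (.l 5))) (.l 5)) (.l 5)))))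
    [(672162381824, 672162381824), (274877906944, 274877906944), (274877906944, 274877906944), (824633720832, 274877906944)] rfl (by decide +kernel)
end
mutual
theorem c0_m0_t3 : CovD 0 progs [(672162381824, 672162381824), (618475290624, 68719476736), (274877906944, 274877906944), (549755813888, 549755813888)] :=
  Pool.Agent.helper14.QF.covD_F chks_eq (.n 2 (.n 0 (.n 3 (.l 1) (.n 0 (.l 0) (.l 0))) (.n 2 (.n 3 (.l 2) (.l 2)) (.n 0 (.n 3 (.l 1) (.l 1)) (.n 3 (.l 2) (.n 0 (.l 1) (.l 4)))))) (.n 2 (.n 1 (.l 5) (.l 5)) (.l 5)))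
    [(672162381824, 672162381824), (618475290624, 68719476736), (274877906944, 274877906944), (549755813888, 549755813888)] rfl (by decide +kernel)
theorem c0_m0_t4 : CovD 0 progs [(672162381824, 672162381824), (755914244096, 68719476736), (274877906944, 274877906944), (549755813888, 549755813888)] :=
  Pool.Agent.helper14.QF.covD_F chks_eq (.n 2 (.n 2 (.n 0 (.n 3 (.l 1) (.l 0)) (.n 3 (.l 2) (.n 0 (.l 1) (.l 1)))) (.n 2 (.n 0 (.n 3 (.l 1) (.l 0)) (.n 0 (.n 3 (.l 1) (.l 1)) (.n 3 (.l 1) (.l 4)))) (.l 5))) (.n 2 (.l 5) (.l 5)))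
    [(672162381824, 672162381824), (755914244096, 68719476736), (274877906944, 274877906944), (549755813888, 549755813888)] rfl (by decide +kernel)
end
mutual
theorem c0_m0_t6 : CovD 0 progs [(672162381824, 672162381824), (962072674304, 137438953472), (68719476736, 68719476736), (549755813888, 549755813888)] :=
  Pool.Agent.helper14.QF.covD_F chks_eq (.n 0 (.n 0 (.n 3 (.l 1) (.l 0)) (.n 3 (.l 1) (.n 1 (.l 0) (.l 0)))) (.n 0 (.n 3 (.n 0 (.l 1) (.l 1)) (.n 3 (.l 0) (.l 0))) (.n 1 (.n 3 (.l 1) (.l 4)) (.n 0 (.n 3 (.l 1) (.l 3)) (.n 3 (.l 4) (.l 4))))))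
    [(672162381824, 672162381824), (962072674304, 137438953472), (68719476736, 68719476736), (549755813888, 549755813888)] rfl (by decide +kernel)
theorem c0_m0_t7 : CovD 0 progs [(672162381824, 672162381824), (962072674304, 137438953472), (206158430208, 68719476736), (549755813888, 549755813888)] :=
  Pool.Agent.helper14.QF.covD_F chks_eq (.n 2 (.n 2 (.n 1 (.n 0 (.n 3 (.n 0 (.l 1) (.l 1)) (.l 0)) (.n 0 (.n 3 (.l 1) (.l 0)) (.n 3 (.l 1) (.l 4)))) (.l 5)) (.l 5)) (.l 5))
    [(672162381824, 672162381824), (962072674304, 137438953472), (206158430208, 68719476736), (549755813888, 549755813888)] rfl (by decide +kernel)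
theorem c0_m0_t9 : CovD 0 progs [(672162381824, 672162381824), (962072674304, 137438953472), (412316860416, 137438953472), (549755813888, 549755813888)] :=
  Pool.Agent.helper14.QF.covD_F chks_eq (.n 2 (.n 1 (.l 5) (.l 5)) (.l 5))
    [(672162381824, 672162381824), (962072674304, 137438953472), (412316860416, 137438953472), (549755813888, 549755813888)] rfl (by decide +kernel)
end
theorem c0_m0_t2 : CovD 0 progs [(672162381824, 672162381824), (274877906944, 274877906944), (274877906944, 274877906944), (549755813888, 549755813888)] :=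
  covD_split 3 (by decide +kernel) c0_m0_t0 c0_m0_t1
theorem c0_m0_t5 : CovD 0 progs [(672162381824, 672162381824), (687194767360, 137438953472), (274877906944, 274877906944), (549755813888, 549755813888)] :=
  covD_split 1 (by decide +kernel) c0_m0_t3 c0_m0_t4
theorem c0_m0_t8 : CovD 0 progs [(672162381824, 672162381824), (962072674304, 137438953472), (137438953472, 137438953472), (549755813888, 549755813888)] :=
  covD_split 2 (by decide +kernel) c0_m0_t6 c0_m0_t7
theorem c0_m0_t10 : CovD 0 progs [(672162381824, 672162381824), (962072674304, 137438953472), (274877906944, 274877906944), (549755813888, 549755813888)] :=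
  covD_split 2 (by decide +kernel) c0_m0_t8 c0_m0_t9
theorem c0_m0_t11 : CovD 0 progs [(672162381824, 672162381824), (824633720832, 274877906944), (274877906944, 274877906944), (549755813888, 549755813888)] :=
  covD_split 1 (by decide +kernel) c0_m0_t5 c0_m0_t10
theorem c0_m0 : CovD 0 progs [(672162381824, 672162381824), (549755813888, 549755813888), (274877906944, 274877906944), (549755813888, 549755813888)] :=
  covD_split 1 (by decide +kernel) c0_m0_t2 c0_m0_t11

end Pool.Agent.helper71.FJ.Crt.QHIII
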