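import Pool.Agent.helper71.FJ.Crt.QHIIP

/-!
Generated certificates.
-/

namespace Pool.Agent.helper71.FJ.Crt.QHII

open Pool.Agent.helper31.IA (Z Op)
open Pool.Agent.helper31.IC

mutual
theorem c0_m0_t0 : CovD 0 progs [(672162381824, 672162381824), (94489280512, 94489280512), (274877906944, 274877906944), (549755813888, 549755813888)] :=
  Pool.Agent.helper14.QF.covD_F chks_eq (.n 0 (.l 0) (.n 0 (.l 0) (.n 1 (.l 0) (.n 3 (.l 0) (.l 0)))))
    [(672162381824, 672162381824), (94489280512, 94489280512), (274877906944, 274877906944), (549755813888, 549755813888)] rfl (by decide +kernel)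
theorem c0_m0_t1 : CovD 0 progs [(1680405954560, 336081190912), (94489280512, 94489280512), (274877906944, 274877906944), (549755813888, 549755813888)] :=
  Pool.Agent.helper14.QF.covD_F chks_eq (.n 2 (.n 3 (.n 0 (.l 0) (.n 0 (.l 0) (.l 0))) (.n 3 (.l 0) (.l 0))) (.n 1 (.n 3 (.n 3 (.l 0) (.l 0)) (.n 3 (.l 0) (.l 0))) (.n 0 (.n 3 (.l 0) (.n 0 (.l 0) (.l 0))) (.n 3 (.n 2 (.n 0 (.l 0) (.l 0)) (.n 3 (.l 0) (.l 0))) (.n 3 (.n 0 (.l 0) (.l 0)) (.l 0))))))
    [(1680405954560, 336081190912), (94489280512, 94489280512), (274877906944, 274877906944), (549755813888, 549755813888)] rfl (by decide +kernel)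
end
mutual
theorem c0_m0_t2 : CovD 0 progs [(2184527740928, 168040595456), (47244640256, 47244640256), (274877906944, 274877906944), (549755813888, 549755813888)] :=
  Pool.Agent.helper14.QF.covD_F chks_eq (.n 2 (.n 3 (.n 3 (.l 0) (.l 0)) (.n 3 (.l 0) (.l 0))) (.n 0 (.n 3 (.n 3 (.l 0) (.l 0)) (.n 3 (.l 0) (.l 0))) (.n 3 (.n 1 (.n 3 (.l 0) (.l 0)) (.n 3 (.l 0) (.l 0))) (.n 3 (.l 0) (.l 0)))))
    [(2184527740928, 168040595456), (47244640256, 47244640256), (274877906944, 274877906944), (549755813888, 549755813888)] rfl (by decide +kernel)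
theorem c0_m0_t3 : CovD 0 progs [(2520608931840, 168040595456), (47244640256, 47244640256), (137438953472, 137438953472), (549755813888, 549755813888)] :=
  Pool.Agent.helper14.QF.covD_F chks_eq (.n 2 (.n 3 (.n 0 (.n 3 (.l 0) (.l 0)) (.n 3 (.n 0 (.l 0) (.l 0)) (.n 3 (.l 0) (.l 0)))) (.n 3 (.n 3 (.l 0) (.l 0)) (.n 3 (.l 0) (.l 0)))) (.n 3 (.n 0 (.n 3 (.l 0) (.l 0)) (.n 3 (.n 3 (.l 0) (.l 0)) (.n 3 (.l 0) (.l 0)))) (.n 3 (.n 3 (.l 0) (.l 0)) (.n 3 (.l 0) (.l 0)))))
    [(2520608931840, 168040595456), (47244640256, 47244640256), (137438953472, 137438953472), (549755813888, 549755813888)] rfl (by decide +kernel)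
end
mutual
theorem c0_m0_t4 : CovD 0 progs [(2520608931840, 168040595456), (47244640256, 47244640256), (343597383680, 68719476736), (549755813888, 549755813888)] :=
  Pool.Agent.helper14.QF.covD_F chks_eq (.n 3 (.n 3 (.n 0 (.l 0) (.n 0 (.n 1 (.l 0) (.l 0)) (.n 1 (.l 0) (.n 3 (.l 0) (.l 0))))) (.n 0 (.n 0 (.l 0) (.l 0)) (.n 3 (.n 1 (.l 0) (.l 0)) (.l 0)))) (.n 3 (.n 3 (.l 0) (.l 0)) (.n 3 (.l 0) (.l 0))))
    [(2520608931840, 168040595456), (47244640256, 47244640256), (343597383680, 68719476736), (549755813888, 549755813888)] rfl (by decide +kernel)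
theorem c0_m0_t5 : CovD 0 progs [(2520608931840, 168040595456), (47244640256, 47244640256), (481036337152, 68719476736), (549755813888, 549755813888)] :=
  Pool.Agent.helper14.QF.covD_F chks_eq (.n 3 (.n 0 (.n 3 (.n 1 (.l 0) (.l 0)) (.n 3 (.l 0) (.l 0))) (.n 1 (.n 3 (.n 0 (.l 0) (.l 0)) (.n 3 (.l 0) (.l 0))) (.n 1 (.n 3 (.n 3 (.l 0) (.l 0)) (.n 3 (.l 0) (.l 0))) (.n 3 (.n 0 (.l 0) (.n 3 (.l 0) (.l 0))) (.n 3 (.n 0 (.l 0) (.l 0)) (.l 0)))))) (.n 3 (.n 3 (.n 0 (.l 0) (.l 0)) (.l 0)) (.n 3 (.l 0) (.l 0))))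
    [(2520608931840, 168040595456), (47244640256, 47244640256), (481036337152, 68719476736), (549755813888, 549755813888)] rfl (by decide +kernel)
end
mutual
theorem c0_m0_t9 : CovD 0 progs [(2352568336384, 336081190912), (141733920768, 47244640256), (68719476736, 68719476736), (549755813888, 549755813888)] :=
  Pool.Agent.helper14.QF.covD_F chks_eq (.n 3 (.n 3 (.n 0 (.l 0) (.n 0 (.l 0) (.n 0 (.l 0) (.n 3 (.l 0) (.l 0))))) (.n 0 (.l 0) (.n 0 (.n 0 (.l 0) (.l 0)) (.n 3 (.n 0 (.l 0) (.l 0)) (.l 0))))) (.n 3 (.n 0 (.l 0) (.n 3 (.l 0) (.l 0))) (.n 3 (.l 0) (.l 0))))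
    [(2352568336384, 336081190912), (141733920768, 47244640256), (68719476736, 68719476736), (549755813888, 549755813888)] rfl (by decide +kernel)
theorem c0_m0_t10 : CovD 0 progs [(2352568336384, 336081190912), (141733920768, 47244640256), (206158430208, 68719476736), (274877906944, 274877906944)] :=
  Pool.Agent.helper14.QF.covD_F chks_eq (.n 3 (.n 0 (.l 0) (.n 0 (.n 0 (.l 0) (.l 0)) (.n 0 (.n 3 (.l 0) (.l 0)) (.n 1 (.n 3 (.l 0) (.l 0)) (.n 0 (.n 3 (.l 0) (.l 0)) (.n 2 (.n 2 (.l 0) (.l 0)) (.n 3 (.l 0) (.l 0)))))))) (.n 0 (.n 0 (.l 0) (.l 0)) (.n 0 (.n 3 (.l 0) (.l 0)) (.n 1 (.n 3 (.l 0) (.l 0)) (.n 3 (.n 2 (.l 0) (.l 0)) (.l 0))))))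
    [(2352568336384, 336081190912), (141733920768, 47244640256), (206158430208, 68719476736), (274877906944, 274877906944)] rfl (by decide +kernel)
end
mutual
theorem c0_m0_t11 : CovD 0 progs [(2352568336384, 336081190912), (141733920768, 47244640256), (206158430208, 68719476736), (824633720832, 274877906944)] :=
  Pool.Agent.helper14.QF.covD_F chks_eq (.n 3 (.n 0 (.l 0) (.n 3 (.n 0 (.l 0) (.l 0)) (.l 0))) (.n 3 (.l 0) (.l 0)))
    [(2352568336384, 336081190912), (141733920768, 47244640256), (206158430208, 68719476736), (824633720832, 274877906944)] rfl (by decide +kernel)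
theorem c0_m0_t14 : CovD 0 progs [(2184527740928, 168040595456), (141733920768, 47244640256), (343597383680, 68719476736), (137438953472, 137438953472)] :=
  Pool.Agent.helper14.QF.covD_F chks_eq (.n 0 (.l 0) (.n 0 (.l 0) (.l 0)))
    [(2184527740928, 168040595456), (141733920768, 47244640256), (343597383680, 68719476736), (137438953472, 137438953472)] rfl (by decide +kernel)
end
mutual
theorem c0_m0_t15 : CovD 0 progs [(2520608931840, 168040595456), (118111600640, 23622320128), (343597383680, 68719476736), (137438953472, 137438953472)] :=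
  Pool.Agent.helper14.QF.covD_F chks_eq (.n 0 (.n 0 (.l 0) (.l 0)) (.n 0 (.n 3 (.l 0) (.l 0)) (.n 0 (.n 3 (.l 0) (.l 0)) (.n 2 (.n 3 (.l 0) (.l 0)) (.n 3 (.l 0) (.l 0))))))
    [(2520608931840, 168040595456), (118111600640, 23622320128), (343597383680, 68719476736), (137438953472, 137438953472)] rfl (by decide +kernel)
theorem c0_m0_t16 : CovD 0 progs [(2520608931840, 168040595456), (165356240896, 23622320128), (343597383680, 68719476736), (137438953472, 137438953472)] :=
  Pool.Agent.helper14.QF.covD_F chks_eq (.n 0 (.n 0 (.l 0) (.n 3 (.l 0) (.l 0))) (.n 0 (.n 2 (.n 3 (.l 0) (.l 0)) (.n 3 (.l 0) (.n 0 (.l 0) (.l 0)))) (.n 0 (.n 2 (.n 3 (.l 0) (.l 0)) (.n 0 (.n 3 (.l 0) (.l 0)) (.n 3 (.l 0) (.l 0)))) (.n 2 (.n 2 (.n 3 (.l 0) (.l 0)) (.n 3 (.l 0) (.l 0))) (.n 1 (.n 3 (.l 0) (.l 0)) (.n 2 (.n 3 (.l 0) (.l 0)) (.n 3 (.l 0) (.l 0))))))))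
    [(2520608931840, 168040595456), (165356240896, 23622320128), (343597383680, 68719476736), (137438953472, 137438953472)] rfl (by decide +kernel)
end
mutual
theorem c0_m0_t19 : CovD 0 progs [(2352568336384, 336081190912), (141733920768, 47244640256), (343597383680, 68719476736), (412316860416, 137438953472)] :=
  Pool.Agent.helper14.QF.covD_F chks_eq (.n 0 (.n 3 (.l 0) (.l 0)) (.n 0 (.n 0 (.n 3 (.l 0) (.l 0)) (.n 1 (.l 0) (.n 3 (.l 0) (.l 0)))) (.n 0 (.n 1 (.n 3 (.l 0) (.l 0)) (.n 3 (.n 2 (.l 0) (.l 0)) (.l 0))) (.n 1 (.n 3 (.n 1 (.l 0) (.l 0)) (.l 0)) (.n 2 (.n 3 (.n 0 (.l 0) (.l 0)) (.l 0)) (.n 3 (.n 0 (.l 0) (.n 3 (.l 0) (.l 0))) (.l 0)))))))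
    [(2352568336384, 336081190912), (141733920768, 47244640256), (343597383680, 68719476736), (412316860416, 137438953472)] rfl (by decide +kernel)
theorem c0_m0_t21 : CovD 0 progs [(2352568336384, 336081190912), (141733920768, 47244640256), (343597383680, 68719476736), (824633720832, 274877906944)] :=
  Pool.Agent.helper14.QF.covD_F chks_eq (.n 3 (.n 0 (.n 0 (.l 0) (.l 0)) (.n 0 (.n 3 (.l 0) (.l 0)) (.n 3 (.n 0 (.l 0) (.n 1 (.l 0) (.l 0))) (.l 0)))) (.n 3 (.l 0) (.l 0)))
    [(2352568336384, 336081190912), (141733920768, 47244640256), (343597383680, 68719476736), (824633720832, 274877906944)] rfl (by decide +kernel)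
end
mutual
theorem c0_m0_t23 : CovD 0 progs [(2184527740928, 168040595456), (141733920768, 47244640256), (481036337152, 68719476736), (549755813888, 549755813888)] :=
  Pool.Agent.helper14.QF.covD_F chks_eq (.n 3 (.n 0 (.n 3 (.l 0) (.n 0 (.l 0) (.l 0))) (.n 1 (.n 3 (.l 0) (.l 0)) (.n 3 (.n 2 (.l 0) (.l 0)) (.n 3 (.l 0) (.l 0))))) (.n 3 (.n 0 (.l 0) (.n 3 (.l 0) (.l 0))) (.n 1 (.l 0) (.l 0))))
    [(2184527740928, 168040595456), (141733920768, 47244640256), (481036337152, 68719476736), (549755813888, 549755813888)] rfl (by decide +kernel)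
theorem c0_m0_t24 : CovD 0 progs [(2436588634112, 84020297728), (141733920768, 47244640256), (481036337152, 68719476736), (274877906944, 274877906944)] :=
  Pool.Agent.helper14.QF.covD_F chks_eq (.n 1 (.n 3 (.n 0 (.l 0) (.n 2 (.l 0) (.l 0))) (.n 3 (.n 0 (.l 0) (.l 0)) (.l 0))) (.n 3 (.n 0 (.n 3 (.l 0) (.l 0)) (.n 2 (.n 3 (.l 0) (.l 0)) (.n 3 (.l 0) (.l 0)))) (.n 2 (.n 3 (.l 0) (.l 0)) (.n 3 (.n 0 (.l 0) (.l 0)) (.l 0)))))
    [(2436588634112, 84020297728), (141733920768, 47244640256), (481036337152, 68719476736), (274877906944, 274877906944)] rfl (by decide +kernel)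
end
mutual
theorem c0_m0_t25 : CovD 0 progs [(2562619080704, 42010148864), (141733920768, 47244640256), (481036337152, 68719476736), (274877906944, 274877906944)] :=
  Pool.Agent.helper14.QF.covD_F chks_eq (.n 1 (.n 3 (.n 1 (.n 2 (.l 0) (.l 0)) (.n 3 (.l 0) (.l 0))) (.n 3 (.n 1 (.l 0) (.l 0)) (.l 0))) (.n 2 (.n 3 (.n 0 (.n 3 (.l 0) (.l 0)) (.n 3 (.l 0) (.l 0))) (.n 3 (.n 0 (.l 0) (.l 0)) (.l 0))) (.n 3 (.n 0 (.n 3 (.l 0) (.l 0)) (.n 3 (.l 0) (.n 0 (.l 0) (.l 0)))) (.n 3 (.n 1 (.l 0) (.l 0)) (.l 0)))))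
    [(2562619080704, 42010148864), (141733920768, 47244640256), (481036337152, 68719476736), (274877906944, 274877906944)] rfl (by decide +kernel)
theorem c0_m0_t26 : CovD 0 progs [(2646639378432, 42010148864), (118111600640, 23622320128), (481036337152, 68719476736), (274877906944, 274877906944)] :=
  Pool.Agent.helper14.QF.covD_F chks_eq (.n 2 (.n 3 (.n 1 (.n 3 (.l 0) (.l 0)) (.n 3 (.l 0) (.l 0))) (.n 3 (.n 0 (.l 0) (.l 0)) (.l 0))) (.n 3 (.n 1 (.n 3 (.l 0) (.l 0)) (.n 3 (.l 0) (.n 0 (.l 0) (.l 0)))) (.n 3 (.n 1 (.l 0) (.l 0)) (.l 0))))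
    [(2646639378432, 42010148864), (118111600640, 23622320128), (481036337152, 68719476736), (274877906944, 274877906944)] rfl (by decide +kernel)
end
mutual
theorem c0_m0_t27 : CovD 0 progs [(2646639378432, 42010148864), (153545080832, 11811160064), (481036337152, 68719476736), (274877906944, 274877906944)] :=
  Pool.Agent.helper14.QF.covD_F chks_eq (.n 2 (.n 3 (.n 0 (.n 3 (.l 0) (.l 0)) (.n 3 (.l 0) (.l 0))) (.n 3 (.n 0 (.l 0) (.l 0)) (.l 0))) (.n 3 (.n 3 (.n 0 (.l 0) (.l 0)) (.n 3 (.l 0) (.l 0))) (.n 3 (.n 0 (.l 0) (.l 0)) (.l 0))))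
    [(2646639378432, 42010148864), (153545080832, 11811160064), (481036337152, 68719476736), (274877906944, 274877906944)] rfl (by decide +kernel)
theorem c0_m0_t28 : CovD 0 progs [(2646639378432, 42010148864), (177167400960, 11811160064), (481036337152, 68719476736), (274877906944, 274877906944)] :=
  Pool.Agent.helper14.QF.covD_F chks_eq (.n 2 (.n 3 (.n 0 (.n 3 (.l 0) (.l 0)) (.n 2 (.n 3 (.l 0) (.l 0)) (.n 3 (.l 0) (.l 0)))) (.n 3 (.n 3 (.l 0) (.l 0)) (.l 0))) (.n 0 (.n 3 (.n 3 (.l 0) (.l 0)) (.n 3 (.l 0) (.l 0))) (.n 3 (.n 2 (.n 3 (.l 0) (.l 0)) (.n 3 (.l 0) (.l 0))) (.n 3 (.n 2 (.l 0) (.l 0)) (.l 0)))))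
    [(2646639378432, 42010148864), (177167400960, 11811160064), (481036337152, 68719476736), (274877906944, 274877906944)] rfl (by decide +kernel)
theorem c0_m0_t33 : CovD 0 progs [(2520608931840, 168040595456), (141733920768, 47244640256), (481036337152, 68719476736), (824633720832, 274877906944)] :=
  Pool.Agent.helper14.QF.covD_F chks_eq (.n 3 (.n 1 (.n 3 (.n 0 (.l 0) (.n 0 (.l 0) (.l 0))) (.l 0)) (.n 0 (.n 3 (.l 0) (.l 0)) (.n 2 (.n 3 (.l 0) (.l 0)) (.n 3 (.n 0 (.l 0) (.l 0)) (.l 0))))) (.n 3 (.n 1 (.l 0) (.l 0)) (.l 0)))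
    [(2520608931840, 168040595456), (141733920768, 47244640256), (481036337152, 68719476736), (824633720832, 274877906944)] rfl (by decide +kernel)
end
theorem c0_m0_t6 : CovD 0 progs [(2520608931840, 168040595456), (47244640256, 47244640256), (412316860416, 137438953472), (549755813888, 549755813888)] :=
  covD_split 2 (by decide +kernel) c0_m0_t4 c0_m0_t5
theorem c0_m0_t7 : CovD 0 progs [(2520608931840, 168040595456), (47244640256, 47244640256), (274877906944, 274877906944), (549755813888, 549755813888)] :=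
  covD_split 2 (by decide +kernel) c0_m0_t3 c0_m0_t6
theorem c0_m0_t8 : CovD 0 progs [(2352568336384, 336081190912), (47244640256, 47244640256), (274877906944, 274877906944), (549755813888, 549755813888)] :=
  covD_split 0 (by decide +kernel) c0_m0_t2 c0_m0_t7
theorem c0_m0_t12 : CovD 0 progs [(2352568336384, 336081190912), (141733920768, 47244640256), (206158430208, 68719476736), (549755813888, 549755813888)] :=
  covD_split 3 (by decide +kernel) c0_m0_t10 c0_m0_t11
theorem c0_m0_t13 : CovD 0 progs [(2352568336384, 336081190912), (141733920768, 47244640256), (137438953472, 137438953472), (549755813888, 549755813888)] :=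
  covD_split 2 (by decide +kernel) c0_m0_t9 c0_m0_t12
theorem c0_m0_t17 : CovD 0 progs [(2520608931840, 168040595456), (141733920768, 47244640256), (343597383680, 68719476736), (137438953472, 137438953472)] :=
  covD_split 1 (by decide +kernel) c0_m0_t15 c0_m0_t16
theorem c0_m0_t18 : CovD 0 progs [(2352568336384, 336081190912), (141733920768, 47244640256), (343597383680, 68719476736), (137438953472, 137438953472)] :=
  covD_split 0 (by decide +kernel) c0_m0_t14 c0_m0_t17
theorem c0_m0_t20 : CovD 0 progs [(2352568336384, 336081190912), (141733920768, 47244640256), (343597383680, 68719476736), (274877906944, 274877906944)] :=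
  covD_split 3 (by decide +kernel) c0_m0_t18 c0_m0_t19
theorem c0_m0_t22 : CovD 0 progs [(2352568336384, 336081190912), (141733920768, 47244640256), (343597383680, 68719476736), (549755813888, 549755813888)] :=
  covD_split 3 (by decide +kernel) c0_m0_t20 c0_m0_t21
theorem c0_m0_t29 : CovD 0 progs [(2646639378432, 42010148864), (165356240896, 23622320128), (481036337152, 68719476736), (274877906944, 274877906944)] :=
  covD_split 1 (by decide +kernel) c0_m0_t27 c0_m0_t28
theorem c0_m0_t30 : CovD 0 progs [(2646639378432, 42010148864), (141733920768, 47244640256), (481036337152, 68719476736), (274877906944, 274877906944)] :=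
  covD_split 1 (by decide +kernel) c0_m0_t26 c0_m0_t29
theorem c0_m0_t31 : CovD 0 progs [(2604629229568, 84020297728), (141733920768, 47244640256), (481036337152, 68719476736), (274877906944, 274877906944)] :=
  covD_split 0 (by decide +kernel) c0_m0_t25 c0_m0_t30
theorem c0_m0_t32 : CovD 0 progs [(2520608931840, 168040595456), (141733920768, 47244640256), (481036337152, 68719476736), (274877906944, 274877906944)] :=
  covD_split 0 (by decide +kernel) c0_m0_t24 c0_m0_t31
theorem c0_m0_t34 : CovD 0 progs [(2520608931840, 168040595456), (141733920768, 47244640256), (481036337152, 68719476736), (549755813888, 549755813888)] :=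
  covD_split 3 (by decide +kernel) c0_m0_t32 c0_m0_t33
theorem c0_m0_t35 : CovD 0 progs [(2352568336384, 336081190912), (141733920768, 47244640256), (481036337152, 68719476736), (549755813888, 549755813888)] :=
  covD_split 0 (by decide +kernel) c0_m0_t23 c0_m0_t34
theorem c0_m0_t36 : CovD 0 progs [(2352568336384, 336081190912), (141733920768, 47244640256), (412316860416, 137438953472), (549755813888, 549755813888)] :=
  covD_split 2 (by decide +kernel) c0_m0_t22 c0_m0_t35
theorem c0_m0_t37 : CovD 0 progs [(2352568336384, 336081190912), (141733920768, 47244640256), (274877906944, 274877906944), (549755813888, 549755813888)] :=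
  covD_split 2 (by decide +kernel) c0_m0_t13 c0_m0_t36
theorem c0_m0_t38 : CovD 0 progs [(2352568336384, 336081190912), (94489280512, 94489280512), (274877906944, 274877906944), (549755813888, 549755813888)] :=
  covD_split 1 (by decide +kernel) c0_m0_t8 c0_m0_t37
theorem c0_m0_t39 : CovD 0 progs [(2016487145472, 672162381824), (94489280512, 94489280512), (274877906944, 274877906944), (549755813888, 549755813888)] :=
  covD_split 0 (by decide +kernel) c0_m0_t1 c0_m0_t38
theorem c0_m0 : CovD 0 progs [(1344324763648, 1344324763648), (94489280512, 94489280512), (274877906944, 274877906944), (549755813888, 549755813888)] :=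
  covD_split 0 (by decide +kernel) c0_m0_t0 c0_m0_t39

end Pool.Agent.helper71.FJ.Crt.QHII
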