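import Pool.Agent.helper71.FJ.Crt.QHIP

/-!
Generated certificates.
-/

namespace Pool.Agent.helper71.FJ.Crt.QHI

open Pool.Agent.helper31.IA (Z Op)
open Pool.Agent.helper31.IC

mutual
theorem c0_m0_t0 : CovD 0 progs [(549755813888, 549755813888), (549755813888, 549755813888), (55029268480, 55029268480), (549755813888, 549755813888)] :=
  Pool.Agent.helper14.QF.covD_F chks_eq (.n 0 (.n 1 (.n 0 (.l 1) (.l 4)) (.n 2 (.l 1) (.n 3 (.l 1) (.l 0)))) (.n 1 (.l 3) (.n 1 (.l 4) (.n 3 (.l 3) (.l 4)))))
    [(549755813888, 549755813888), (549755813888, 549755813888), (55029268480, 55029268480), (549755813888, 549755813888)] rfl (by decide +kernel)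
theorem c0_m0_t1 : CovD 0 progs [(549755813888, 549755813888), (1374389534720, 274877906944), (55029268480, 55029268480), (549755813888, 549755813888)] :=
  Pool.Agent.helper14.QF.covD_F chks_eq (.n 3 (.n 0 (.n 0 (.l 1) (.l 4)) (.n 0 (.n 1 (.l 2) (.l 3)) (.n 1 (.l 3) (.n 0 (.l 3) (.n 2 (.l 2) (.l 2)))))) (.n 0 (.n 0 (.l 0) (.n 1 (.l 4) (.l 4))) (.n 1 (.n 2 (.l 2) (.l 4)) (.n 0 (.l 4) (.n 2 (.l 2) (.n 1 (.l 3) (.l 3)))))))
    [(549755813888, 549755813888), (1374389534720, 274877906944), (55029268480, 55029268480), (549755813888, 549755813888)] rfl (by decide +kernel)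
end
mutual
theorem c0_m0_t2 : CovD 0 progs [(549755813888, 549755813888), (1786706395136, 137438953472), (55029268480, 55029268480), (549755813888, 549755813888)] :=
  Pool.Agent.helper14.QF.covD_F chks_eq (.n 0 (.n 0 (.n 0 (.l 1) (.l 1)) (.n 0 (.l 4) (.l 4))) (.n 0 (.n 2 (.n 3 (.l 2) (.l 2)) (.n 3 (.l 3) (.l 3))) (.n 2 (.n 3 (.n 3 (.l 2) (.l 2)) (.n 3 (.l 2) (.l 2))) (.n 3 (.n 0 (.l 3) (.n 3 (.l 2) (.l 3))) (.n 3 (.n 0 (.l 2) (.l 3)) (.l 3))))))
    [(549755813888, 549755813888), (1786706395136, 137438953472), (55029268480, 55029268480), (549755813888, 549755813888)] rfl (by decide +kernel)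
theorem c0_m0_t3 : CovD 0 progs [(274877906944, 274877906944), (2061584302080, 137438953472), (55029268480, 55029268480), (549755813888, 549755813888)] :=
  Pool.Agent.helper14.QF.covD_F chks_eq (.n 0 (.n 0 (.l 1) (.l 1)) (.n 3 (.l 3) (.l 4)))
    [(274877906944, 274877906944), (2061584302080, 137438953472), (55029268480, 55029268480), (549755813888, 549755813888)] rfl (by decide +kernel)
end
mutual
theorem c0_m0_t4 : CovD 0 progs [(687194767360, 137438953472), (2061584302080, 137438953472), (55029268480, 55029268480), (549755813888, 549755813888)] :=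
  Pool.Agent.helper14.QF.covD_F chks_eq (.n 2 (.n 3 (.l 2) (.n 0 (.l 2) (.l 2))) (.n 3 (.n 0 (.l 2) (.l 3)) (.n 3 (.l 3) (.l 3))))
    [(687194767360, 137438953472), (2061584302080, 137438953472), (55029268480, 55029268480), (549755813888, 549755813888)] rfl (by decide +kernel)
theorem c0_m0_t5 : CovD 0 progs [(893353197568, 68719476736), (2061584302080, 137438953472), (55029268480, 55029268480), (549755813888, 549755813888)] :=
  Pool.Agent.helper14.QF.covD_F chks_eq (.n 2 (.n 3 (.n 2 (.l 2) (.l 2)) (.n 3 (.l 2) (.l 2))) (.n 3 (.n 3 (.l 2) (.l 3)) (.n 3 (.l 3) (.l 3))))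
    [(893353197568, 68719476736), (2061584302080, 137438953472), (55029268480, 55029268480), (549755813888, 549755813888)] rfl (by decide +kernel)
theorem c0_m0_t6 : CovD 0 progs [(1030792151040, 68719476736), (2061584302080, 137438953472), (55029268480, 55029268480), (549755813888, 549755813888)] :=
  Pool.Agent.helper14.QF.covD_F chks_eq (.n 2 (.n 3 (.n 2 (.n 3 (.l 2) (.l 2)) (.n 3 (.l 2) (.l 2))) (.n 3 (.n 2 (.l 2) (.l 2)) (.l 2))) (.n 1 (.n 3 (.n 3 (.l 2) (.l 3)) (.n 3 (.l 3) (.l 2))) (.n 3 (.n 2 (.n 3 (.l 2) (.l 2)) (.n 3 (.l 2) (.l 2))) (.n 3 (.n 0 (.l 2) (.l 3)) (.l 3)))))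
    [(1030792151040, 68719476736), (2061584302080, 137438953472), (55029268480, 55029268480), (549755813888, 549755813888)] rfl (by decide +kernel)
end
theorem c0_m0_t7 : CovD 0 progs [(962072674304, 137438953472), (2061584302080, 137438953472), (55029268480, 55029268480), (549755813888, 549755813888)] :=
  covD_split 0 (by decide +kernel) c0_m0_t5 c0_m0_t6
theorem c0_m0_t8 : CovD 0 progs [(824633720832, 274877906944), (2061584302080, 137438953472), (55029268480, 55029268480), (549755813888, 549755813888)] :=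
  covD_split 0 (by decide +kernel) c0_m0_t4 c0_m0_t7
theorem c0_m0_t9 : CovD 0 progs [(549755813888, 549755813888), (2061584302080, 137438953472), (55029268480, 55029268480), (549755813888, 549755813888)] :=
  covD_split 0 (by decide +kernel) c0_m0_t3 c0_m0_t8
theorem c0_m0_t10 : CovD 0 progs [(549755813888, 549755813888), (1924145348608, 274877906944), (55029268480, 55029268480), (549755813888, 549755813888)] :=
  covD_split 1 (by decide +kernel) c0_m0_t2 c0_m0_t9
theorem c0_m0_t11 : CovD 0 progs [(549755813888, 549755813888), (1649267441664, 549755813888), (55029268480, 55029268480), (549755813888, 549755813888)] :=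
  covD_split 1 (by decide +kernel) c0_m0_t1 c0_m0_t10
theorem c0_m0 : CovD 0 progs [(549755813888, 549755813888), (1099511627776, 1099511627776), (55029268480, 55029268480), (549755813888, 549755813888)] :=
  covD_split 1 (by decide +kernel) c0_m0_t0 c0_m0_t11

end Pool.Agent.helper71.FJ.Crt.QHI
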