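import Pool.Agent.helper71.FJ.Crt.QHIP

/-!
Generated certificates.
-/

namespace Pool.Agent.helper71.FJ.Crt.QHI

open Pool.Agent.helper31.IA (Z Op)
open Pool.Agent.helper31.IC

mutual
theorem c1_m0_t0 : CovD 0 progs [(1374389534720, 274877906944), (549755813888, 549755813888), (55029268480, 55029268480), (137438953472, 137438953472)] :=
  Pool.Agent.helper14.QF.covD_F chks_eq (.n 1 (.l 2) (.n 1 (.l 2) (.n 0 (.l 2) (.l 2))))
    [(1374389534720, 274877906944), (549755813888, 549755813888), (55029268480, 55029268480), (137438953472, 137438953472)] rfl (by decide +kernel)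
theorem c1_m0_t1 : CovD 0 progs [(1374389534720, 274877906944), (1374389534720, 274877906944), (27514634240, 27514634240), (137438953472, 137438953472)] :=
  Pool.Agent.helper14.QF.covD_F chks_eq (.n 0 (.n 0 (.l 2) (.n 1 (.l 2) (.l 2))) (.n 0 (.n 1 (.l 2) (.n 1 (.l 2) (.l 2))) (.n 1 (.l 2) (.n 1 (.l 2) (.n 0 (.l 2) (.n 2 (.l 2) (.l 2)))))))
    [(1374389534720, 274877906944), (1374389534720, 274877906944), (27514634240, 27514634240), (137438953472, 137438953472)] rfl (by decide +kernel)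
end
mutual
theorem c1_m0_t2 : CovD 0 progs [(1374389534720, 274877906944), (1374389534720, 274877906944), (82543902720, 27514634240), (137438953472, 137438953472)] :=
  Pool.Agent.helper14.QF.covD_F chks_eq (.n 0 (.n 1 (.l 2) (.n 0 (.l 2) (.n 1 (.l 2) (.l 2)))) (.n 0 (.n 1 (.l 2) (.n 1 (.l 2) (.n 2 (.l 2) (.l 3)))) (.n 1 (.n 1 (.l 2) (.l 2)) (.n 0 (.n 1 (.l 2) (.n 1 (.l 2) (.n 2 (.l 2) (.l 2)))) (.n 1 (.n 1 (.l 2) (.l 2)) (.n 1 (.n 2 (.l 2) (.l 2)) (.n 2 (.l 2) (.n 0 (.l 2) (.l 2)))))))))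
    [(1374389534720, 274877906944), (1374389534720, 274877906944), (82543902720, 27514634240), (137438953472, 137438953472)] rfl (by decide +kernel)
theorem c1_m0_t4 : CovD 0 progs [(1236950581248, 137438953472), (1786706395136, 137438953472), (55029268480, 55029268480), (137438953472, 137438953472)] :=
  Pool.Agent.helper14.QF.covD_F chks_eq (.n 0 (.n 0 (.n 2 (.l 2) (.l 2)) (.n 2 (.l 2) (.n 1 (.l 2) (.l 2)))) (.n 1 (.n 2 (.l 2) (.n 2 (.l 2) (.l 2))) (.n 2 (.n 2 (.l 2) (.l 2)) (.n 0 (.n 1 (.l 2) (.l 2)) (.n 2 (.l 2) (.n 0 (.l 2) (.l 2)))))))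
    [(1236950581248, 137438953472), (1786706395136, 137438953472), (55029268480, 55029268480), (137438953472, 137438953472)] rfl (by decide +kernel)
end
mutual
theorem c1_m0_t5 : CovD 0 progs [(1236950581248, 137438953472), (1992864825344, 68719476736), (55029268480, 55029268480), (137438953472, 137438953472)] :=
  Pool.Agent.helper14.QF.covD_F chks_eq (.n 0 (.n 0 (.n 2 (.l 2) (.l 2)) (.n 2 (.l 2) (.n 2 (.l 2) (.l 2)))) (.n 0 (.n 2 (.n 2 (.l 2) (.l 2)) (.n 2 (.l 2) (.n 0 (.l 2) (.l 2)))) (.n 1 (.n 2 (.n 2 (.l 2) (.l 2)) (.n 2 (.l 2) (.l 2))) (.n 2 (.n 2 (.l 2) (.l 2)) (.n 0 (.n 2 (.l 2) (.l 2)) (.n 2 (.l 2) (.l 3)))))))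
    [(1236950581248, 137438953472), (1992864825344, 68719476736), (55029268480, 55029268480), (137438953472, 137438953472)] rfl (by decide +kernel)
theorem c1_m0_t6 : CovD 0 progs [(1236950581248, 137438953472), (2130303778816, 68719476736), (55029268480, 55029268480), (68719476736, 68719476736)] :=
  Pool.Agent.helper14.QF.covD_F chks_eq (.n 0 (.n 2 (.n 2 (.l 2) (.l 2)) (.n 0 (.l 2) (.n 2 (.l 2) (.l 2)))) (.n 0 (.n 2 (.n 2 (.l 2) (.l 2)) (.n 0 (.n 1 (.l 2) (.l 3)) (.n 2 (.l 2) (.l 2)))) (.n 1 (.n 2 (.n 2 (.l 2) (.l 2)) (.n 2 (.l 2) (.l 2))) (.n 2 (.n 2 (.n 2 (.l 2) (.l 2)) (.n 2 (.l 2) (.l 2))) (.n 0 (.n 2 (.l 2) (.l 2)) (.n 2 (.l 2) (.l 2)))))))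
    [(1236950581248, 137438953472), (2130303778816, 68719476736), (55029268480, 55029268480), (68719476736, 68719476736)] rfl (by decide +kernel)
end
mutual
theorem c1_m0_t7 : CovD 0 progs [(1236950581248, 137438953472), (2130303778816, 68719476736), (55029268480, 55029268480), (206158430208, 68719476736)] :=
  Pool.Agent.helper14.QF.covD_F chks_eq (.n 0 (.n 2 (.n 2 (.l 2) (.l 2)) (.n 2 (.l 3) (.n 0 (.l 2) (.l 2)))) (.n 0 (.n 2 (.n 2 (.l 2) (.l 2)) (.n 0 (.n 2 (.l 2) (.l 2)) (.n 2 (.l 2) (.l 2)))) (.n 1 (.n 2 (.n 2 (.l 2) (.l 2)) (.n 2 (.l 2) (.l 3))) (.n 2 (.n 2 (.n 2 (.l 2) (.l 2)) (.n 2 (.l 2) (.l 2))) (.n 2 (.n 2 (.l 2) (.l 2)) (.n 0 (.l 2) (.l 3)))))))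
    [(1236950581248, 137438953472), (2130303778816, 68719476736), (55029268480, 55029268480), (206158430208, 68719476736)] rfl (by decide +kernel)
theorem c1_m0_t11 : CovD 0 progs [(1408749273088, 34359738368), (1786706395136, 137438953472), (55029268480, 55029268480), (137438953472, 137438953472)] :=
  Pool.Agent.helper14.QF.covD_F chks_eq (.n 1 (.n 2 (.l 2) (.n 2 (.l 2) (.l 2))) (.n 2 (.n 2 (.l 2) (.l 2)) (.n 1 (.n 2 (.l 2) (.l 2)) (.n 2 (.l 2) (.n 0 (.l 2) (.l 2))))))
    [(1408749273088, 34359738368), (1786706395136, 137438953472), (55029268480, 55029268480), (137438953472, 137438953472)] rfl (by decide +kernel)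
end
mutual
theorem c1_m0_t12 : CovD 0 progs [(1408749273088, 34359738368), (1992864825344, 68719476736), (55029268480, 55029268480), (137438953472, 137438953472)] :=
  Pool.Agent.helper14.QF.covD_F chks_eq (.n 1 (.n 2 (.n 0 (.n 2 (.l 2) (.l 2)) (.n 2 (.l 2) (.l 2))) (.n 2 (.n 2 (.l 2) (.l 3)) (.n 3 (.l 2) (.l 2)))) (.n 2 (.n 2 (.n 3 (.l 2) (.l 2)) (.n 0 (.n 0 (.l 2) (.l 2)) (.n 3 (.l 2) (.l 2)))) (.n 0 (.n 2 (.n 1 (.l 2) (.l 2)) (.n 2 (.l 2) (.l 2))) (.n 2 (.n 3 (.l 2) (.l 2)) (.n 3 (.l 2) (.l 2))))))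
    [(1408749273088, 34359738368), (1992864825344, 68719476736), (55029268480, 55029268480), (137438953472, 137438953472)] rfl (by decide +kernel)
theorem c1_m0_t13 : CovD 0 progs [(1391569403904, 17179869184), (2130303778816, 68719476736), (55029268480, 55029268480), (137438953472, 137438953472)] :=
  Pool.Agent.helper14.QF.covD_F chks_eq (.n 1 (.n 2 (.n 2 (.n 3 (.l 2) (.l 2)) (.n 3 (.l 2) (.l 3))) (.n 2 (.n 3 (.l 2) (.l 3)) (.n 3 (.l 2) (.l 3)))) (.n 1 (.n 0 (.n 2 (.n 2 (.n 2 (.l 2) (.l 2)) (.n 2 (.l 2) (.l 2))) (.n 2 (.n 2 (.l 2) (.l 2)) (.n 2 (.l 2) (.l 2)))) (.l 5)) (.l 5)))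
    [(1391569403904, 17179869184), (2130303778816, 68719476736), (55029268480, 55029268480), (137438953472, 137438953472)] rfl (by decide +kernel)
end
mutual
theorem c1_m0_t14 : CovD 0 progs [(1425929142272, 17179869184), (2130303778816, 68719476736), (55029268480, 55029268480), (137438953472, 137438953472)] :=
  Pool.Agent.helper14.QF.covD_F chks_eq (.n 1 (.n 2 (.n 2 (.n 2 (.n 3 (.l 2) (.l 2)) (.n 3 (.l 2) (.l 2))) (.n 2 (.n 3 (.l 2) (.l 2)) (.n 3 (.l 2) (.l 2)))) (.n 2 (.n 2 (.n 3 (.l 2) (.l 2)) (.n 3 (.l 2) (.l 2))) (.n 2 (.n 3 (.l 2) (.l 2)) (.n 3 (.l 2) (.l 2))))) (.l 5))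
    [(1425929142272, 17179869184), (2130303778816, 68719476736), (55029268480, 55029268480), (137438953472, 137438953472)] rfl (by decide +kernel)
theorem c1_m0_t18 : CovD 0 progs [(1477468749824, 34359738368), (1786706395136, 137438953472), (55029268480, 55029268480), (137438953472, 137438953472)] :=
  Pool.Agent.helper14.QF.covD_F chks_eq (.n 1 (.n 2 (.n 2 (.l 2) (.l 2)) (.n 1 (.n 2 (.l 2) (.l 2)) (.n 2 (.l 2) (.l 2)))) (.n 1 (.n 2 (.n 2 (.l 2) (.l 2)) (.n 2 (.n 0 (.l 2) (.l 2)) (.n 2 (.l 2) (.l 2)))) (.n 2 (.n 2 (.n 0 (.l 2) (.l 2)) (.n 2 (.l 2) (.l 2))) (.n 2 (.n 3 (.l 2) (.l 3)) (.n 3 (.l 2) (.n 0 (.l 2) (.l 2)))))))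
    [(1477468749824, 34359738368), (1786706395136, 137438953472), (55029268480, 55029268480), (137438953472, 137438953472)] rfl (by decide +kernel)
end
mutual
theorem c1_m0_t19 : CovD 0 progs [(1460288880640, 17179869184), (1992864825344, 68719476736), (55029268480, 55029268480), (137438953472, 137438953472)] :=
  Pool.Agent.helper14.QF.covD_F chks_eq (.n 1 (.n 2 (.n 2 (.n 0 (.l 2) (.l 2)) (.n 2 (.l 2) (.l 2))) (.n 2 (.n 3 (.l 2) (.l 2)) (.n 3 (.l 2) (.l 2)))) (.n 2 (.n 2 (.n 2 (.n 3 (.l 2) (.l 2)) (.n 3 (.l 2) (.l 2))) (.n 2 (.n 3 (.l 2) (.l 2)) (.n 3 (.l 2) (.l 2)))) (.n 1 (.n 2 (.n 3 (.l 2) (.l 2)) (.n 3 (.l 2) (.l 2))) (.n 2 (.n 3 (.l 2) (.l 3)) (.n 3 (.l 2) (.l 2))))))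
    [(1460288880640, 17179869184), (1992864825344, 68719476736), (55029268480, 55029268480), (137438953472, 137438953472)] rfl (by decide +kernel)
theorem c1_m0_t20 : CovD 0 progs [(1460288880640, 17179869184), (2130303778816, 68719476736), (55029268480, 55029268480), (137438953472, 137438953472)] :=
  Pool.Agent.helper14.QF.covD_F chks_eq (.l 5)
    [(1460288880640, 17179869184), (2130303778816, 68719476736), (55029268480, 55029268480), (137438953472, 137438953472)] rfl (by decide +kernel)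
end
mutual
theorem c1_m0_t22 : CovD 0 progs [(1494648619008, 17179869184), (2061584302080, 137438953472), (55029268480, 55029268480), (137438953472, 137438953472)] :=
  Pool.Agent.helper14.QF.covD_F chks_eq (.n 1 (.n 1 (.n 2 (.n 2 (.n 3 (.l 2) (.l 2)) (.n 0 (.n 2 (.l 2) (.l 2)) (.n 3 (.l 2) (.l 2)))) (.n 2 (.n 0 (.n 3 (.l 2) (.l 2)) (.n 3 (.l 2) (.l 2))) (.n 3 (.l 3) (.n 0 (.l 2) (.l 3))))) (.n 0 (.n 1 (.n 2 (.n 2 (.n 2 (.l 2) (.l 2)) (.n 3 (.l 2) (.l 2))) (.n 2 (.n 3 (.l 2) (.l 2)) (.n 3 (.l 2) (.l 2)))) (.l 5)) (.l 5))) (.l 5))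
    [(1494648619008, 17179869184), (2061584302080, 137438953472), (55029268480, 55029268480), (137438953472, 137438953472)] rfl (by decide +kernel)
theorem c1_m0_t26 : CovD 0 progs [(1546188226560, 34359738368), (1786706395136, 137438953472), (55029268480, 55029268480), (68719476736, 68719476736)] :=
  Pool.Agent.helper14.QF.covD_F chks_eq (.n 1 (.n 2 (.n 2 (.l 2) (.l 2)) (.n 0 (.n 2 (.l 2) (.l 2)) (.n 2 (.l 2) (.l 2)))) (.n 1 (.n 2 (.n 2 (.l 2) (.l 2)) (.n 0 (.n 2 (.l 2) (.l 2)) (.n 2 (.l 2) (.l 2)))) (.n 2 (.n 2 (.n 2 (.l 2) (.l 2)) (.n 0 (.l 2) (.n 1 (.l 2) (.l 2)))) (.n 0 (.n 2 (.l 2) (.l 2)) (.n 1 (.n 2 (.l 2) (.l 2)) (.n 2 (.l 2) (.l 2)))))))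
    [(1546188226560, 34359738368), (1786706395136, 137438953472), (55029268480, 55029268480), (68719476736, 68719476736)] rfl (by decide +kernel)
end
mutual
theorem c1_m0_t27 : CovD 0 progs [(1546188226560, 34359738368), (1786706395136, 137438953472), (55029268480, 55029268480), (206158430208, 68719476736)] :=
  Pool.Agent.helper14.QF.covD_F chks_eq (.n 1 (.n 2 (.n 2 (.l 2) (.l 2)) (.n 1 (.n 2 (.l 2) (.l 2)) (.n 2 (.l 2) (.l 2)))) (.n 1 (.n 2 (.n 2 (.l 2) (.l 2)) (.n 0 (.n 2 (.l 2) (.l 2)) (.n 2 (.l 2) (.l 2)))) (.n 2 (.n 2 (.n 2 (.l 2) (.l 2)) (.n 0 (.l 2) (.n 2 (.l 2) (.l 2)))) (.n 0 (.n 2 (.l 3) (.n 0 (.l 2) (.l 2))) (.n 2 (.n 2 (.l 2) (.l 2)) (.n 2 (.l 2) (.l 2)))))))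
    [(1546188226560, 34359738368), (1786706395136, 137438953472), (55029268480, 55029268480), (206158430208, 68719476736)] rfl (by decide +kernel)
theorem c1_m0_t29 : CovD 0 progs [(1546188226560, 34359738368), (2061584302080, 137438953472), (55029268480, 55029268480), (137438953472, 137438953472)] :=
  Pool.Agent.helper14.QF.covD_F chks_eq (.n 0 (.n 1 (.n 1 (.n 1 (.n 2 (.n 2 (.n 2 (.l 2) (.l 2)) (.n 3 (.l 2) (.l 2))) (.n 2 (.n 3 (.l 2) (.l 2)) (.n 3 (.l 2) (.l 3)))) (.l 5)) (.l 5)) (.l 5)) (.l 5))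
    [(1546188226560, 34359738368), (2061584302080, 137438953472), (55029268480, 55029268480), (137438953472, 137438953472)] rfl (by decide +kernel)
end
mutual
theorem c1_m0_t31 : CovD 0 progs [(1614907703296, 34359738368), (1717986918400, 68719476736), (55029268480, 55029268480), (137438953472, 137438953472)] :=
  Pool.Agent.helper14.QF.covD_F chks_eq (.n 1 (.n 2 (.n 2 (.l 2) (.l 2)) (.n 2 (.n 2 (.l 2) (.l 2)) (.n 3 (.l 2) (.l 3)))) (.n 2 (.n 2 (.n 3 (.l 2) (.l 2)) (.n 3 (.l 2) (.n 0 (.l 2) (.l 2)))) (.n 2 (.n 0 (.n 2 (.l 2) (.l 2)) (.n 3 (.l 2) (.l 3))) (.n 2 (.n 3 (.l 2) (.l 2)) (.n 3 (.l 2) (.l 3))))))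
    [(1614907703296, 34359738368), (1717986918400, 68719476736), (55029268480, 55029268480), (137438953472, 137438953472)] rfl (by decide +kernel)
theorem c1_m0_t32 : CovD 0 progs [(1614907703296, 34359738368), (1821066133504, 34359738368), (55029268480, 55029268480), (68719476736, 68719476736)] :=
  Pool.Agent.helper14.QF.covD_F chks_eq (.n 2 (.n 2 (.n 2 (.l 2) (.l 2)) (.n 0 (.l 2) (.n 2 (.l 2) (.l 2)))) (.n 0 (.n 0 (.n 2 (.l 2) (.l 2)) (.n 2 (.l 2) (.l 2))) (.n 2 (.n 2 (.l 2) (.l 2)) (.n 2 (.l 2) (.l 2)))))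
    [(1614907703296, 34359738368), (1821066133504, 34359738368), (55029268480, 55029268480), (68719476736, 68719476736)] rfl (by decide +kernel)
end
mutual
theorem c1_m0_t33 : CovD 0 progs [(1614907703296, 34359738368), (1821066133504, 34359738368), (55029268480, 55029268480), (206158430208, 68719476736)] :=
  Pool.Agent.helper14.QF.covD_F chks_eq (.n 3 (.n 2 (.n 2 (.n 2 (.l 2) (.l 2)) (.n 2 (.l 2) (.l 2))) (.n 0 (.n 2 (.l 2) (.l 2)) (.n 1 (.n 2 (.l 2) (.l 2)) (.n 2 (.l 2) (.l 2))))) (.n 2 (.n 2 (.l 2) (.n 2 (.l 2) (.l 2))) (.n 2 (.n 2 (.l 2) (.l 2)) (.n 2 (.l 3) (.l 3)))))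
    [(1614907703296, 34359738368), (1821066133504, 34359738368), (55029268480, 55029268480), (206158430208, 68719476736)] rfl (by decide +kernel)
theorem c1_m0_t35 : CovD 0 progs [(1614907703296, 34359738368), (1889785610240, 34359738368), (55029268480, 55029268480), (137438953472, 137438953472)] :=
  Pool.Agent.helper14.QF.covD_F chks_eq (.n 1 (.n 1 (.n 0 (.n 0 (.n 2 (.n 2 (.l 2) (.n 2 (.l 2) (.l 2))) (.n 2 (.n 2 (.l 2) (.l 2)) (.n 2 (.l 2) (.l 2)))) (.l 5)) (.l 5)) (.l 5)) (.l 5))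
    [(1614907703296, 34359738368), (1889785610240, 34359738368), (55029268480, 55029268480), (137438953472, 137438953472)] rfl (by decide +kernel)
theorem c1_m0_t38 : CovD 0 progs [(1614907703296, 34359738368), (2061584302080, 137438953472), (55029268480, 55029268480), (137438953472, 137438953472)] :=
  Pool.Agent.helper14.QF.covD_F chks_eq (.l 5)
    [(1614907703296, 34359738368), (2061584302080, 137438953472), (55029268480, 55029268480), (137438953472, 137438953472)] rfl (by decide +kernel)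
end
theorem c1_m0_t3 : CovD 0 progs [(1374389534720, 274877906944), (1374389534720, 274877906944), (55029268480, 55029268480), (137438953472, 137438953472)] :=
  covD_split 2 (by decide +kernel) c1_m0_t1 c1_m0_t2
theorem c1_m0_t8 : CovD 0 progs [(1236950581248, 137438953472), (2130303778816, 68719476736), (55029268480, 55029268480), (137438953472, 137438953472)] :=
  covD_split 3 (by decide +kernel) c1_m0_t6 c1_m0_t7
theorem c1_m0_t9 : CovD 0 progs [(1236950581248, 137438953472), (2061584302080, 137438953472), (55029268480, 55029268480), (137438953472, 137438953472)] :=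
  covD_split 1 (by decide +kernel) c1_m0_t5 c1_m0_t8
theorem c1_m0_t10 : CovD 0 progs [(1236950581248, 137438953472), (1924145348608, 274877906944), (55029268480, 55029268480), (137438953472, 137438953472)] :=
  covD_split 1 (by decide +kernel) c1_m0_t4 c1_m0_t9
theorem c1_m0_t15 : CovD 0 progs [(1408749273088, 34359738368), (2130303778816, 68719476736), (55029268480, 55029268480), (137438953472, 137438953472)] :=
  covD_split 0 (by decide +kernel) c1_m0_t13 c1_m0_t14
theorem c1_m0_t16 : CovD 0 progs [(1408749273088, 34359738368), (2061584302080, 137438953472), (55029268480, 55029268480), (137438953472, 137438953472)] :=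
  covD_split 1 (by decide +kernel) c1_m0_t12 c1_m0_t15
theorem c1_m0_t17 : CovD 0 progs [(1408749273088, 34359738368), (1924145348608, 274877906944), (55029268480, 55029268480), (137438953472, 137438953472)] :=
  covD_split 1 (by decide +kernel) c1_m0_t11 c1_m0_t16
theorem c1_m0_t21 : CovD 0 progs [(1460288880640, 17179869184), (2061584302080, 137438953472), (55029268480, 55029268480), (137438953472, 137438953472)] :=
  covD_split 1 (by decide +kernel) c1_m0_t19 c1_m0_t20
theorem c1_m0_t23 : CovD 0 progs [(1477468749824, 34359738368), (2061584302080, 137438953472), (55029268480, 55029268480), (137438953472, 137438953472)] :=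
  covD_split 0 (by decide +kernel) c1_m0_t21 c1_m0_t22
theorem c1_m0_t24 : CovD 0 progs [(1477468749824, 34359738368), (1924145348608, 274877906944), (55029268480, 55029268480), (137438953472, 137438953472)] :=
  covD_split 1 (by decide +kernel) c1_m0_t18 c1_m0_t23
theorem c1_m0_t25 : CovD 0 progs [(1443109011456, 68719476736), (1924145348608, 274877906944), (55029268480, 55029268480), (137438953472, 137438953472)] :=
  covD_split 0 (by decide +kernel) c1_m0_t17 c1_m0_t24
theorem c1_m0_t28 : CovD 0 progs [(1546188226560, 34359738368), (1786706395136, 137438953472), (55029268480, 55029268480), (137438953472, 137438953472)] :=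
  covD_split 3 (by decide +kernel) c1_m0_t26 c1_m0_t27
theorem c1_m0_t30 : CovD 0 progs [(1546188226560, 34359738368), (1924145348608, 274877906944), (55029268480, 55029268480), (137438953472, 137438953472)] :=
  covD_split 1 (by decide +kernel) c1_m0_t28 c1_m0_t29
theorem c1_m0_t34 : CovD 0 progs [(1614907703296, 34359738368), (1821066133504, 34359738368), (55029268480, 55029268480), (137438953472, 137438953472)] :=
  covD_split 3 (by decide +kernel) c1_m0_t32 c1_m0_t33
theorem c1_m0_t36 : CovD 0 progs [(1614907703296, 34359738368), (1855425871872, 68719476736), (55029268480, 55029268480), (137438953472, 137438953472)] :=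
  covD_split 1 (by decide +kernel) c1_m0_t34 c1_m0_t35
theorem c1_m0_t37 : CovD 0 progs [(1614907703296, 34359738368), (1786706395136, 137438953472), (55029268480, 55029268480), (137438953472, 137438953472)] :=
  covD_split 1 (by decide +kernel) c1_m0_t31 c1_m0_t36
theorem c1_m0_t39 : CovD 0 progs [(1614907703296, 34359738368), (1924145348608, 274877906944), (55029268480, 55029268480), (137438953472, 137438953472)] :=
  covD_split 1 (by decide +kernel) c1_m0_t37 c1_m0_t38
theorem c1_m0_t40 : CovD 0 progs [(1580547964928, 68719476736), (1924145348608, 274877906944), (55029268480, 55029268480), (137438953472, 137438953472)] :=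
  covD_split 0 (by decide +kernel) c1_m0_t30 c1_m0_t39
theorem c1_m0_t41 : CovD 0 progs [(1511828488192, 137438953472), (1924145348608, 274877906944), (55029268480, 55029268480), (137438953472, 137438953472)] :=
  covD_split 0 (by decide +kernel) c1_m0_t25 c1_m0_t40
theorem c1_m0_t42 : CovD 0 progs [(1374389534720, 274877906944), (1924145348608, 274877906944), (55029268480, 55029268480), (137438953472, 137438953472)] :=
  covD_split 0 (by decide +kernel) c1_m0_t10 c1_m0_t41
theorem c1_m0_t43 : CovD 0 progs [(1374389534720, 274877906944), (1649267441664, 549755813888), (55029268480, 55029268480), (137438953472, 137438953472)] :=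
  covD_split 1 (by decide +kernel) c1_m0_t3 c1_m0_t42
theorem c1_m0 : CovD 0 progs [(1374389534720, 274877906944), (1099511627776, 1099511627776), (55029268480, 55029268480), (137438953472, 137438953472)] :=
  covD_split 1 (by decide +kernel) c1_m0_t0 c1_m0_t43

end Pool.Agent.helper71.FJ.Crt.QHI
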