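import Pool.Agent.helper71.FJ.Crt.QMaP

/-!
Generated certificates.
-/

namespace Pool.Agent.helper71.FJ.Crt.QMa

open Pool.Agent.helper31.IA (Z Op)
open Pool.Agent.helper31.IC

theorem c0_m0 : CovD 0 progs [(56371445760, 56371445760), (94489280512, 94489280512), (274877906944, 274877906944), (274877906944, 274877906944)] :=
  Pool.Agent.helper14.QF.covD_F chks_eq (.l 12)
    [(56371445760, 56371445760), (94489280512, 94489280512), (274877906944, 274877906944), (274877906944, 274877906944)] rfl (by decide +kernel)

end Pool.Agent.helper71.FJ.Crt.QMa
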