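import Pool.Agent.helper71.FJ.Crt.QMaP

/-!
Generated certificates.
-/

namespace Pool.Agent.helper71.FJ.Crt.QMa

open Pool.Agent.helper31.IA (Z Op)
open Pool.Agent.helper31.IC

mutual
theorem c0_m41_t0 : CovD 0 progs [(204346490880, 7046430720), (212600881152, 23622320128), (240518168576, 34359738368), (893353197568, 68719476736)] :=
  Pool.Agent.helper14.QF.covD_F chks_eq (.l 6)
    [(204346490880, 7046430720), (212600881152, 23622320128), (240518168576, 34359738368), (893353197568, 68719476736)] rfl (by decide +kernel)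
theorem c0_m41_t1 : CovD 0 progs [(214916136960, 3523215360), (194884141056, 5905580032), (240518168576, 34359738368), (858993459200, 34359738368)] :=
  Pool.Agent.helper14.QF.covD_F chks_eq (.n 0 (.l 6) (.n 0 (.l 6) (.n 2 (.n 2 (.n 3 (.n 3 (.n 3 (.l 4) (.n 0 (.l 4) (.l 4))) (.l 6)) (.l 6)) (.l 6)) (.l 6))))
    [(214916136960, 3523215360), (194884141056, 5905580032), (240518168576, 34359738368), (858993459200, 34359738368)] rfl (by decide +kernel)
end
mutual
theorem c0_m41_t2 : CovD 0 progs [(219320156160, 880803840), (194884141056, 5905580032), (240518168576, 34359738368), (858993459200, 34359738368)] :=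
  Pool.Agent.helper14.QF.covD_F chks_eq (.n 3 (.n 3 (.n 3 (.l 4) (.n 0 (.l 4) (.l 4))) (.n 3 (.n 3 (.l 4) (.l 4)) (.l 4))) (.l 6))
    [(219320156160, 880803840), (194884141056, 5905580032), (240518168576, 34359738368), (858993459200, 34359738368)] rfl (by decide +kernel)
theorem c0_m41_t3 : CovD 0 progs [(220641361920, 440401920), (194884141056, 5905580032), (240518168576, 34359738368), (858993459200, 34359738368)] :=
  Pool.Agent.helper14.QF.covD_F chks_eq (.n 2 (.n 1 (.n 3 (.n 3 (.n 3 (.l 4) (.n 0 (.l 4) (.l 4))) (.n 3 (.n 0 (.l 4) (.l 4)) (.l 4))) (.l 6)) (.n 3 (.n 3 (.n 3 (.l 4) (.n 0 (.l 4) (.l 4))) (.n 3 (.n 0 (.l 4) (.l 4)) (.l 4))) (.l 6))) (.n 2 (.n 3 (.n 3 (.n 3 (.l 4) (.l 6)) (.l 6)) (.l 6)) (.l 6)))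
    [(220641361920, 440401920), (194884141056, 5905580032), (240518168576, 34359738368), (858993459200, 34359738368)] rfl (by decide +kernel)
end
mutual
theorem c0_m41_t4 : CovD 0 progs [(221522165760, 440401920), (194884141056, 5905580032), (240518168576, 34359738368), (858993459200, 34359738368)] :=
  Pool.Agent.helper14.QF.covD_F chks_eq (.n 2 (.n 3 (.n 3 (.n 3 (.l 4) (.n 0 (.l 4) (.l 4))) (.n 3 (.l 4) (.l 4))) (.n 3 (.n 3 (.l 4) (.l 4)) (.l 6))) (.n 3 (.n 3 (.n 3 (.l 4) (.n 0 (.l 4) (.l 4))) (.l 6)) (.l 6)))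
    [(221522165760, 440401920), (194884141056, 5905580032), (240518168576, 34359738368), (858993459200, 34359738368)] rfl (by decide +kernel)
theorem c0_m41_t7 : CovD 0 progs [(222402969600, 440401920), (194884141056, 5905580032), (240518168576, 34359738368), (858993459200, 34359738368)] :=
  Pool.Agent.helper14.QF.covD_F chks_eq (.n 2 (.n 3 (.n 3 (.n 3 (.l 4) (.n 0 (.l 4) (.l 4))) (.n 3 (.l 4) (.l 4))) (.n 3 (.n 3 (.l 4) (.l 4)) (.l 6))) (.n 2 (.n 3 (.n 3 (.n 3 (.l 4) (.n 0 (.l 4) (.l 4))) (.n 3 (.l 4) (.l 4))) (.l 6)) (.n 3 (.n 3 (.n 3 (.l 4) (.n 0 (.l 4) (.l 4))) (.l 6)) (.l 6))))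
    [(222402969600, 440401920), (194884141056, 5905580032), (240518168576, 34359738368), (858993459200, 34359738368)] rfl (by decide +kernel)
end
mutual
theorem c0_m41_t8 : CovD 0 progs [(223283773440, 440401920), (194884141056, 5905580032), (240518168576, 34359738368), (858993459200, 34359738368)] :=
  Pool.Agent.helper14.QF.covD_F chks_eq (.n 2 (.n 3 (.n 3 (.n 3 (.l 4) (.n 0 (.l 4) (.l 4))) (.n 3 (.l 4) (.l 4))) (.n 3 (.n 3 (.l 4) (.l 4)) (.n 3 (.l 4) (.l 4)))) (.n 2 (.n 3 (.n 3 (.n 3 (.l 4) (.n 0 (.l 4) (.l 4))) (.n 3 (.l 4) (.l 4))) (.l 6)) (.n 3 (.n 3 (.n 3 (.l 4) (.n 0 (.l 4) (.l 4))) (.l 6)) (.l 6))))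
    [(223283773440, 440401920), (194884141056, 5905580032), (240518168576, 34359738368), (858993459200, 34359738368)] rfl (by decide +kernel)
theorem c0_m41_t10 : CovD 0 progs [(224164577280, 440401920), (194884141056, 5905580032), (240518168576, 34359738368), (858993459200, 34359738368)] :=
  Pool.Agent.helper14.QF.covD_F chks_eq (.n 2 (.n 0 (.n 3 (.n 3 (.n 3 (.l 4) (.l 4)) (.n 3 (.l 4) (.l 4))) (.n 3 (.n 3 (.l 4) (.l 4)) (.l 4))) (.n 3 (.n 3 (.n 3 (.l 4) (.l 4)) (.n 3 (.l 4) (.l 4))) (.n 3 (.n 3 (.l 4) (.l 4)) (.l 4)))) (.n 3 (.n 3 (.n 3 (.l 4) (.l 4)) (.n 3 (.l 4) (.l 4))) (.n 3 (.n 3 (.l 4) (.l 4)) (.l 6))))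
    [(224164577280, 440401920), (194884141056, 5905580032), (240518168576, 34359738368), (858993459200, 34359738368)] rfl (by decide +kernel)
end
mutual
theorem c0_m41_t11 : CovD 0 progs [(225045381120, 440401920), (194884141056, 5905580032), (240518168576, 34359738368), (858993459200, 34359738368)] :=
  Pool.Agent.helper14.QF.covD_F chks_eq (.n 3 (.n 3 (.n 3 (.n 0 (.l 4) (.l 4)) (.l 4)) (.n 3 (.l 4) (.l 4))) (.n 3 (.n 3 (.l 4) (.l 4)) (.l 4)))
    [(225045381120, 440401920), (194884141056, 5905580032), (240518168576, 34359738368), (858993459200, 34359738368)] rfl (by decide +kernel)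
theorem c0_m41_t16 : CovD 0 progs [(218439352320, 7046430720), (206695301120, 5905580032), (240518168576, 34359738368), (833223655424, 8589934592)] :=
  Pool.Agent.helper14.QF.covD_F chks_eq (.n 0 (.n 3 (.n 0 (.l 4) (.n 0 (.l 4) (.l 4))) (.n 0 (.l 6) (.n 0 (.l 4) (.n 0 (.l 4) (.l 4))))) (.n 3 (.n 3 (.n 0 (.n 0 (.l 4) (.l 4)) (.n 0 (.l 4) (.l 4))) (.n 0 (.n 0 (.l 4) (.l 4)) (.n 0 (.l 4) (.l 4)))) (.n 3 (.n 0 (.n 0 (.l 4) (.l 4)) (.n 0 (.l 4) (.l 4))) (.n 0 (.n 0 (.l 4) (.l 4)) (.n 0 (.l 4) (.l 4))))))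
    [(218439352320, 7046430720), (206695301120, 5905580032), (240518168576, 34359738368), (833223655424, 8589934592)] rfl (by decide +kernel)
end
mutual
theorem c0_m41_t17 : CovD 0 progs [(218439352320, 7046430720), (206695301120, 5905580032), (240518168576, 34359738368), (850403524608, 8589934592)] :=
  Pool.Agent.helper14.QF.covD_F chks_eq (.n 0 (.n 0 (.l 6) (.n 0 (.l 6) (.n 3 (.n 3 (.l 4) (.l 4)) (.n 0 (.l 6) (.l 4))))) (.n 3 (.n 0 (.n 0 (.n 3 (.l 4) (.l 4)) (.n 3 (.l 4) (.l 4))) (.n 0 (.l 4) (.l 4))) (.n 3 (.n 0 (.l 4) (.n 0 (.l 4) (.l 4))) (.n 0 (.l 4) (.n 0 (.l 4) (.l 4))))))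
    [(218439352320, 7046430720), (206695301120, 5905580032), (240518168576, 34359738368), (850403524608, 8589934592)] rfl (by decide +kernel)
theorem c0_m41_t19 : CovD 0 progs [(218439352320, 7046430720), (203742511104, 2952790016), (240518168576, 34359738368), (876173328384, 17179869184)] :=
  Pool.Agent.helper14.QF.covD_F chks_eq (.n 3 (.n 3 (.n 3 (.n 3 (.n 0 (.l 6) (.n 0 (.l 4) (.l 4))) (.n 0 (.l 6) (.n 0 (.l 4) (.l 4)))) (.n 3 (.n 0 (.l 6) (.n 0 (.l 4) (.l 4))) (.n 0 (.l 6) (.n 0 (.l 4) (.l 4))))) (.n 3 (.n 0 (.l 6) (.n 0 (.n 0 (.l 4) (.l 4)) (.l 4))) (.n 0 (.l 6) (.n 0 (.n 0 (.l 4) (.l 4)) (.l 4))))) (.n 0 (.l 6) (.n 0 (.l 6) (.n 3 (.l 4) (.l 4)))))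
    [(218439352320, 7046430720), (203742511104, 2952790016), (240518168576, 34359738368), (876173328384, 17179869184)] rfl (by decide +kernel)
end
mutual
theorem c0_m41_t20 : CovD 0 progs [(214916136960, 3523215360), (209648091136, 2952790016), (240518168576, 34359738368), (876173328384, 17179869184)] :=
  Pool.Agent.helper14.QF.covD_F chks_eq (.l 6)
    [(214916136960, 3523215360), (209648091136, 2952790016), (240518168576, 34359738368), (876173328384, 17179869184)] rfl (by decide +kernel)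
theorem c0_m41_t21 : CovD 0 progs [(221962567680, 3523215360), (207433498624, 738197504), (240518168576, 34359738368), (876173328384, 17179869184)] :=
  Pool.Agent.helper14.QF.covD_F chks_eq (.n 3 (.n 3 (.n 0 (.n 0 (.n 0 (.l 4) (.l 4)) (.n 0 (.l 4) (.l 4))) (.n 0 (.n 0 (.l 4) (.l 4)) (.n 0 (.l 4) (.l 4)))) (.n 3 (.n 0 (.n 0 (.l 4) (.l 4)) (.l 4)) (.n 0 (.n 0 (.l 4) (.l 4)) (.l 4)))) (.n 0 (.l 6) (.n 3 (.l 4) (.l 4))))
    [(221962567680, 3523215360), (207433498624, 738197504), (240518168576, 34359738368), (876173328384, 17179869184)] rfl (by decide +kernel)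
end
mutual
theorem c0_m41_t22 : CovD 0 progs [(221962567680, 3523215360), (208909893632, 738197504), (240518168576, 34359738368), (876173328384, 17179869184)] :=
  Pool.Agent.helper14.QF.covD_F chks_eq (.n 3 (.n 3 (.n 3 (.n 0 (.n 0 (.l 4) (.l 4)) (.n 0 (.l 4) (.l 4))) (.n 0 (.n 0 (.l 4) (.l 4)) (.n 0 (.l 4) (.l 4)))) (.n 3 (.n 0 (.n 0 (.l 4) (.l 4)) (.l 4)) (.n 0 (.n 0 (.l 4) (.l 4)) (.l 4)))) (.n 0 (.n 2 (.l 6) (.l 6)) (.n 3 (.l 4) (.l 4))))
    [(221962567680, 3523215360), (208909893632, 738197504), (240518168576, 34359738368), (876173328384, 17179869184)] rfl (by decide +kernel)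
theorem c0_m41_t24 : CovD 0 progs [(221962567680, 3523215360), (210386288640, 738197504), (240518168576, 34359738368), (876173328384, 17179869184)] :=
  Pool.Agent.helper14.QF.covD_F chks_eq (.n 3 (.n 3 (.n 3 (.n 0 (.n 0 (.l 4) (.l 4)) (.n 0 (.l 4) (.l 4))) (.n 0 (.n 0 (.l 4) (.l 4)) (.n 0 (.l 4) (.l 4)))) (.n 3 (.n 0 (.n 0 (.l 4) (.l 4)) (.l 4)) (.n 0 (.n 0 (.l 4) (.l 4)) (.l 4)))) (.n 0 (.n 2 (.l 6) (.l 6)) (.n 3 (.l 4) (.l 4))))
    [(221962567680, 3523215360), (210386288640, 738197504), (240518168576, 34359738368), (876173328384, 17179869184)] rfl (by decide +kernel)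
end
mutual
theorem c0_m41_t25 : CovD 0 progs [(221962567680, 3523215360), (211862683648, 738197504), (240518168576, 34359738368), (876173328384, 17179869184)] :=
  Pool.Agent.helper14.QF.covD_F chks_eq (.n 3 (.n 3 (.n 3 (.n 0 (.n 0 (.l 4) (.l 4)) (.n 0 (.l 4) (.l 4))) (.n 0 (.n 0 (.l 4) (.l 4)) (.n 0 (.l 4) (.l 4)))) (.n 3 (.n 0 (.n 0 (.l 4) (.l 4)) (.l 4)) (.n 0 (.n 0 (.l 4) (.l 4)) (.l 4)))) (.n 3 (.n 0 (.n 0 (.l 4) (.l 4)) (.l 4)) (.n 0 (.l 4) (.l 4))))
    [(221962567680, 3523215360), (211862683648, 738197504), (240518168576, 34359738368), (876173328384, 17179869184)] rfl (by decide +kernel)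
theorem c0_m41_t32 : CovD 0 progs [(218439352320, 7046430720), (200789721088, 11811160064), (240518168576, 34359738368), (927712935936, 34359738368)] :=
  Pool.Agent.helper14.QF.covD_F chks_eq (.n 0 (.l 6) (.n 0 (.l 6) (.n 3 (.n 3 (.l 4) (.l 4)) (.l 6))))
    [(218439352320, 7046430720), (200789721088, 11811160064), (240518168576, 34359738368), (927712935936, 34359738368)] rfl (by decide +kernel)
end
mutual
theorem c0_m41_t34 : CovD 0 progs [(213154529280, 1761607680), (224412041216, 11811160064), (240518168576, 34359738368), (858993459200, 34359738368)] :=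
  Pool.Agent.helper14.QF.covD_F chks_eq (.n 2 (.n 3 (.n 3 (.n 3 (.l 4) (.n 0 (.l 4) (.l 4))) (.l 6)) (.l 6)) (.l 6))
    [(213154529280, 1761607680), (224412041216, 11811160064), (240518168576, 34359738368), (858993459200, 34359738368)] rfl (by decide +kernel)
theorem c0_m41_t35 : CovD 0 progs [(215796940800, 880803840), (224412041216, 11811160064), (240518168576, 34359738368), (858993459200, 34359738368)] :=
  Pool.Agent.helper14.QF.covD_F chks_eq (.n 1 (.n 2 (.n 3 (.n 3 (.n 3 (.l 4) (.l 4)) (.n 0 (.l 6) (.n 3 (.l 4) (.l 6)))) (.l 6)) (.l 6)) (.n 1 (.n 1 (.n 1 (.n 2 (.n 3 (.n 3 (.n 3 (.l 4) (.l 4)) (.n 0 (.l 6) (.n 3 (.l 4) (.l 6)))) (.l 6)) (.l 6)) (.l 11)) (.l 11)) (.l 11)))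
    [(215796940800, 880803840), (224412041216, 11811160064), (240518168576, 34359738368), (858993459200, 34359738368)] rfl (by decide +kernel)
end
mutual
theorem c0_m41_t36 : CovD 0 progs [(217558548480, 880803840), (224412041216, 11811160064), (240518168576, 34359738368), (858993459200, 34359738368)] :=
  Pool.Agent.helper14.QF.covD_F chks_eq (.n 3 (.n 3 (.n 3 (.l 4) (.n 0 (.l 4) (.l 4))) (.n 3 (.n 3 (.l 4) (.l 4)) (.n 3 (.l 4) (.l 4)))) (.n 3 (.n 3 (.l 4) (.n 3 (.l 4) (.l 4))) (.l 6)))
    [(217558548480, 880803840), (224412041216, 11811160064), (240518168576, 34359738368), (858993459200, 34359738368)] rfl (by decide +kernel)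
theorem c0_m41_t39 : CovD 0 progs [(220200960000, 1761607680), (224412041216, 11811160064), (240518168576, 34359738368), (841813590016, 17179869184)] :=
  Pool.Agent.helper14.QF.covD_F chks_eq (.n 0 (.n 3 (.n 3 (.l 4) (.n 0 (.l 4) (.l 4))) (.n 3 (.n 3 (.l 4) (.l 4)) (.l 4))) (.n 0 (.n 3 (.n 3 (.l 4) (.n 0 (.l 4) (.l 4))) (.n 3 (.n 0 (.l 4) (.l 4)) (.l 4))) (.n 3 (.n 3 (.l 4) (.n 0 (.l 4) (.l 4))) (.n 3 (.l 4) (.l 4)))))
    [(220200960000, 1761607680), (224412041216, 11811160064), (240518168576, 34359738368), (841813590016, 17179869184)] rfl (by decide +kernel)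
end
mutual
theorem c0_m41_t40 : CovD 0 progs [(223724175360, 1761607680), (218506461184, 5905580032), (240518168576, 34359738368), (841813590016, 17179869184)] :=
  Pool.Agent.helper14.QF.covD_F chks_eq (.n 0 (.n 0 (.n 3 (.n 3 (.l 4) (.n 0 (.l 4) (.l 4))) (.n 3 (.l 4) (.l 4))) (.n 3 (.n 3 (.l 4) (.n 0 (.l 4) (.l 4))) (.n 3 (.l 4) (.l 4)))) (.n 0 (.n 3 (.n 3 (.n 0 (.l 4) (.l 4)) (.l 4)) (.n 3 (.l 4) (.l 4))) (.n 3 (.n 3 (.n 0 (.l 4) (.l 4)) (.l 4)) (.n 3 (.l 4) (.l 4)))))
    [(223724175360, 1761607680), (218506461184, 5905580032), (240518168576, 34359738368), (841813590016, 17179869184)] rfl (by decide +kernel)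
theorem c0_m41_t41 : CovD 0 progs [(223724175360, 1761607680), (230317621248, 5905580032), (240518168576, 34359738368), (841813590016, 17179869184)] :=
  Pool.Agent.helper14.QF.covD_F chks_eq (.n 0 (.n 3 (.n 3 (.n 0 (.l 4) (.l 4)) (.n 3 (.l 4) (.l 4))) (.n 3 (.l 4) (.n 0 (.l 4) (.l 4)))) (.n 0 (.n 3 (.n 1 (.n 3 (.l 4) (.l 4)) (.l 11)) (.n 3 (.l 4) (.l 4))) (.n 3 (.n 3 (.n 0 (.l 4) (.l 4)) (.l 4)) (.n 3 (.l 4) (.l 4)))))
    [(223724175360, 1761607680), (230317621248, 5905580032), (240518168576, 34359738368), (841813590016, 17179869184)] rfl (by decide +kernel)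
end
mutual
theorem c0_m41_t44 : CovD 0 progs [(221962567680, 3523215360), (224412041216, 11811160064), (240518168576, 34359738368), (876173328384, 17179869184)] :=
  Pool.Agent.helper14.QF.covD_F chks_eq (.n 3 (.n 3 (.n 3 (.n 0 (.n 0 (.l 4) (.l 4)) (.n 0 (.l 4) (.l 4))) (.n 0 (.n 0 (.l 4) (.l 4)) (.n 0 (.l 4) (.l 4)))) (.n 0 (.n 0 (.n 0 (.l 4) (.l 4)) (.n 0 (.l 4) (.l 4))) (.n 0 (.l 4) (.l 4)))) (.n 0 (.n 3 (.n 0 (.l 4) (.l 4)) (.l 4)) (.n 3 (.l 4) (.l 4))))
    [(221962567680, 3523215360), (224412041216, 11811160064), (240518168576, 34359738368), (876173328384, 17179869184)] rfl (by decide +kernel)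
theorem c0_m41_t47 : CovD 0 progs [(218439352320, 7046430720), (224412041216, 11811160064), (240518168576, 34359738368), (927712935936, 34359738368)] :=
  Pool.Agent.helper14.QF.covD_F chks_eq (.n 1 (.n 0 (.l 6) (.n 3 (.n 0 (.l 6) (.n 3 (.l 4) (.l 4))) (.l 6))) (.n 0 (.l 6) (.n 1 (.n 0 (.n 1 (.n 2 (.l 6) (.l 6)) (.l 11)) (.n 3 (.n 3 (.l 4) (.l 4)) (.l 6))) (.l 11))))
    [(218439352320, 7046430720), (224412041216, 11811160064), (240518168576, 34359738368), (927712935936, 34359738368)] rfl (by decide +kernel)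
end
theorem c0_m41_t5 : CovD 0 progs [(221081763840, 880803840), (194884141056, 5905580032), (240518168576, 34359738368), (858993459200, 34359738368)] :=
  covD_split 0 (by decide +kernel) c0_m41_t3 c0_m41_t4
theorem c0_m41_t6 : CovD 0 progs [(220200960000, 1761607680), (194884141056, 5905580032), (240518168576, 34359738368), (858993459200, 34359738368)] :=
  covD_split 0 (by decide +kernel) c0_m41_t2 c0_m41_t5
theorem c0_m41_t9 : CovD 0 progs [(222843371520, 880803840), (194884141056, 5905580032), (240518168576, 34359738368), (858993459200, 34359738368)] :=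
  covD_split 0 (by decide +kernel) c0_m41_t7 c0_m41_t8
theorem c0_m41_t12 : CovD 0 progs [(224604979200, 880803840), (194884141056, 5905580032), (240518168576, 34359738368), (858993459200, 34359738368)] :=
  covD_split 0 (by decide +kernel) c0_m41_t10 c0_m41_t11
theorem c0_m41_t13 : CovD 0 progs [(223724175360, 1761607680), (194884141056, 5905580032), (240518168576, 34359738368), (858993459200, 34359738368)] :=
  covD_split 0 (by decide +kernel) c0_m41_t9 c0_m41_t12
theorem c0_m41_t14 : CovD 0 progs [(221962567680, 3523215360), (194884141056, 5905580032), (240518168576, 34359738368), (858993459200, 34359738368)] :=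
  covD_split 0 (by decide +kernel) c0_m41_t6 c0_m41_t13
theorem c0_m41_t15 : CovD 0 progs [(218439352320, 7046430720), (194884141056, 5905580032), (240518168576, 34359738368), (858993459200, 34359738368)] :=
  covD_split 0 (by decide +kernel) c0_m41_t1 c0_m41_t14
theorem c0_m41_t18 : CovD 0 progs [(218439352320, 7046430720), (206695301120, 5905580032), (240518168576, 34359738368), (841813590016, 17179869184)] :=
  covD_split 3 (by decide +kernel) c0_m41_t16 c0_m41_t17
theorem c0_m41_t23 : CovD 0 progs [(221962567680, 3523215360), (208171696128, 1476395008), (240518168576, 34359738368), (876173328384, 17179869184)] :=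
  covD_split 1 (by decide +kernel) c0_m41_t21 c0_m41_t22
theorem c0_m41_t26 : CovD 0 progs [(221962567680, 3523215360), (211124486144, 1476395008), (240518168576, 34359738368), (876173328384, 17179869184)] :=
  covD_split 1 (by decide +kernel) c0_m41_t24 c0_m41_t25
theorem c0_m41_t27 : CovD 0 progs [(221962567680, 3523215360), (209648091136, 2952790016), (240518168576, 34359738368), (876173328384, 17179869184)] :=
  covD_split 1 (by decide +kernel) c0_m41_t23 c0_m41_t26
theorem c0_m41_t28 : CovD 0 progs [(218439352320, 7046430720), (209648091136, 2952790016), (240518168576, 34359738368), (876173328384, 17179869184)] :=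
  covD_split 0 (by decide +kernel) c0_m41_t20 c0_m41_t27
theorem c0_m41_t29 : CovD 0 progs [(218439352320, 7046430720), (206695301120, 5905580032), (240518168576, 34359738368), (876173328384, 17179869184)] :=
  covD_split 1 (by decide +kernel) c0_m41_t19 c0_m41_t28
theorem c0_m41_t30 : CovD 0 progs [(218439352320, 7046430720), (206695301120, 5905580032), (240518168576, 34359738368), (858993459200, 34359738368)] :=
  covD_split 3 (by decide +kernel) c0_m41_t18 c0_m41_t29
theorem c0_m41_t31 : CovD 0 progs [(218439352320, 7046430720), (200789721088, 11811160064), (240518168576, 34359738368), (858993459200, 34359738368)] :=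
  covD_split 1 (by decide +kernel) c0_m41_t15 c0_m41_t30
theorem c0_m41_t33 : CovD 0 progs [(218439352320, 7046430720), (200789721088, 11811160064), (240518168576, 34359738368), (893353197568, 68719476736)] :=
  covD_split 3 (by decide +kernel) c0_m41_t31 c0_m41_t32
theorem c0_m41_t37 : CovD 0 progs [(216677744640, 1761607680), (224412041216, 11811160064), (240518168576, 34359738368), (858993459200, 34359738368)] :=
  covD_split 0 (by decide +kernel) c0_m41_t35 c0_m41_t36
theorem c0_m41_t38 : CovD 0 progs [(214916136960, 3523215360), (224412041216, 11811160064), (240518168576, 34359738368), (858993459200, 34359738368)] :=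
  covD_split 0 (by decide +kernel) c0_m41_t34 c0_m41_t37
theorem c0_m41_t42 : CovD 0 progs [(223724175360, 1761607680), (224412041216, 11811160064), (240518168576, 34359738368), (841813590016, 17179869184)] :=
  covD_split 1 (by decide +kernel) c0_m41_t40 c0_m41_t41
theorem c0_m41_t43 : CovD 0 progs [(221962567680, 3523215360), (224412041216, 11811160064), (240518168576, 34359738368), (841813590016, 17179869184)] :=
  covD_split 0 (by decide +kernel) c0_m41_t39 c0_m41_t42
theorem c0_m41_t45 : CovD 0 progs [(221962567680, 3523215360), (224412041216, 11811160064), (240518168576, 34359738368), (858993459200, 34359738368)] :=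
  covD_split 3 (by decide +kernel) c0_m41_t43 c0_m41_t44
theorem c0_m41_t46 : CovD 0 progs [(218439352320, 7046430720), (224412041216, 11811160064), (240518168576, 34359738368), (858993459200, 34359738368)] :=
  covD_split 0 (by decide +kernel) c0_m41_t38 c0_m41_t45
theorem c0_m41_t48 : CovD 0 progs [(218439352320, 7046430720), (224412041216, 11811160064), (240518168576, 34359738368), (893353197568, 68719476736)] :=
  covD_split 3 (by decide +kernel) c0_m41_t46 c0_m41_t47
theorem c0_m41_t49 : CovD 0 progs [(218439352320, 7046430720), (212600881152, 23622320128), (240518168576, 34359738368), (893353197568, 68719476736)] :=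
  covD_split 1 (by decide +kernel) c0_m41_t33 c0_m41_t48
theorem c0_m41 : CovD 0 progs [(211392921600, 14092861440), (212600881152, 23622320128), (240518168576, 34359738368), (893353197568, 68719476736)] :=
  covD_split 0 (by decide +kernel) c0_m41_t0 c0_m41_t49

end Pool.Agent.helper71.FJ.Crt.QMa
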