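import Pool.Agent.helper71.FJ.Crt.QMaP

/-!
Generated certificates.
-/

namespace Pool.Agent.helper71.FJ.Crt.QMa

open Pool.Agent.helper31.IA (Z Op)
open Pool.Agent.helper31.IC

mutual
theorem c1_m111_t0 : CovD 0 progs [(366414397440, 28185722880), (47244640256, 47244640256), (1374389534720, 274877906944), (68719476736, 68719476736)] :=
  Pool.Agent.helper14.QF.covD_F chks_eq (.n 2 (.n 2 (.n 0 (.l 6) (.n 1 (.l 6) (.n 2 (.n 0 (.l 6) (.l 4)) (.l 6)))) (.l 6)) (.l 6))
    [(366414397440, 28185722880), (47244640256, 47244640256), (1374389534720, 274877906944), (68719476736, 68719476736)] rfl (by decide +kernel)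
theorem c1_m111_t1 : CovD 0 progs [(366414397440, 28185722880), (118111600640, 23622320128), (1374389534720, 274877906944), (68719476736, 68719476736)] :=
  Pool.Agent.helper14.QF.covD_F chks_eq (.n 1 (.n 2 (.n 2 (.n 0 (.l 6) (.n 0 (.n 0 (.n 0 (.l 4) (.l 4)) (.l 4)) (.l 4))) (.l 6)) (.l 6)) (.n 0 (.n 2 (.n 0 (.l 6) (.n 2 (.n 2 (.n 0 (.n 0 (.l 4) (.l 4)) (.n 0 (.l 4) (.l 4))) (.l 6)) (.l 6))) (.l 6)) (.n 0 (.n 2 (.n 2 (.n 0 (.n 0 (.l 4) (.l 4)) (.l 4)) (.l 6)) (.l 6)) (.n 2 (.n 0 (.l 4) (.l 4)) (.l 6)))))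
    [(366414397440, 28185722880), (118111600640, 23622320128), (1374389534720, 274877906944), (68719476736, 68719476736)] rfl (by decide +kernel)
end
mutual
theorem c1_m111_t2 : CovD 0 progs [(366414397440, 28185722880), (153545080832, 11811160064), (1374389534720, 274877906944), (68719476736, 68719476736)] :=
  Pool.Agent.helper14.QF.covD_F chks_eq (.n 2 (.n 0 (.n 0 (.n 2 (.n 0 (.l 6) (.n 0 (.l 4) (.l 4))) (.l 6)) (.n 0 (.n 2 (.n 0 (.l 4) (.l 4)) (.l 6)) (.n 2 (.n 0 (.l 4) (.l 4)) (.l 6)))) (.n 2 (.n 0 (.n 0 (.l 4) (.l 4)) (.l 4)) (.n 0 (.n 0 (.l 4) (.l 4)) (.l 4)))) (.n 2 (.l 6) (.l 6)))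
    [(366414397440, 28185722880), (153545080832, 11811160064), (1374389534720, 274877906944), (68719476736, 68719476736)] rfl (by decide +kernel)
theorem c1_m111_t3 : CovD 0 progs [(366414397440, 28185722880), (177167400960, 11811160064), (1374389534720, 274877906944), (68719476736, 68719476736)] :=
  Pool.Agent.helper14.QF.covD_F chks_eq (.n 2 (.n 2 (.n 2 (.n 0 (.n 0 (.n 0 (.l 4) (.l 4)) (.n 0 (.l 4) (.l 4))) (.n 0 (.n 0 (.l 4) (.l 4)) (.l 4))) (.n 0 (.n 0 (.n 0 (.l 4) (.l 4)) (.n 0 (.l 4) (.l 4))) (.n 0 (.n 0 (.l 4) (.l 4)) (.l 4)))) (.n 0 (.n 0 (.l 6) (.n 0 (.l 4) (.l 4))) (.n 0 (.n 0 (.l 4) (.l 4)) (.l 4)))) (.n 0 (.l 6) (.n 2 (.n 0 (.l 4) (.l 4)) (.l 6))))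
    [(366414397440, 28185722880), (177167400960, 11811160064), (1374389534720, 274877906944), (68719476736, 68719476736)] rfl (by decide +kernel)
end
mutual
theorem c1_m111_t7 : CovD 0 progs [(366414397440, 28185722880), (47244640256, 47244640256), (1374389534720, 274877906944), (206158430208, 68719476736)] :=
  Pool.Agent.helper14.QF.covD_F chks_eq (.n 2 (.n 2 (.n 0 (.l 6) (.n 1 (.l 6) (.n 3 (.n 0 (.n 0 (.l 6) (.l 4)) (.l 4)) (.n 0 (.n 0 (.l 4) (.l 4)) (.l 4))))) (.l 6)) (.l 6))
    [(366414397440, 28185722880), (47244640256, 47244640256), (1374389534720, 274877906944), (206158430208, 68719476736)] rfl (by decide +kernel)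
theorem c1_m111_t8 : CovD 0 progs [(352321536000, 14092861440), (118111600640, 23622320128), (1374389534720, 274877906944), (206158430208, 68719476736)] :=
  Pool.Agent.helper14.QF.covD_F chks_eq (.n 2 (.n 2 (.n 2 (.n 0 (.l 6) (.n 0 (.n 1 (.l 6) (.n 1 (.l 6) (.n 3 (.l 4) (.l 4)))) (.n 1 (.l 6) (.n 3 (.l 4) (.l 4))))) (.l 6)) (.l 6)) (.l 6))
    [(352321536000, 14092861440), (118111600640, 23622320128), (1374389534720, 274877906944), (206158430208, 68719476736)] rfl (by decide +kernel)
end
mutual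
theorem c1_m111_t9 : CovD 0 progs [(380507258880, 14092861440), (118111600640, 23622320128), (1374389534720, 274877906944), (206158430208, 68719476736)] :=
  Pool.Agent.helper14.QF.covD_F chks_eq (.n 0 (.n 0 (.n 2 (.n 2 (.n 3 (.n 0 (.l 4) (.l 4)) (.l 4)) (.l 6)) (.l 6)) (.n 2 (.n 0 (.n 2 (.l 4) (.l 6)) (.n 1 (.l 4) (.l 4))) (.l 6))) (.n 2 (.n 0 (.n 1 (.l 4) (.l 4)) (.l 4)) (.l 6)))
    [(380507258880, 14092861440), (118111600640, 23622320128), (1374389534720, 274877906944), (206158430208, 68719476736)] rfl (by decide +kernel)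
theorem c1_m111_t11 : CovD 0 progs [(366414397440, 28185722880), (153545080832, 11811160064), (1236950581248, 137438953472), (206158430208, 68719476736)] :=
  Pool.Agent.helper14.QF.covD_F chks_eq (.n 0 (.n 0 (.n 2 (.n 2 (.n 0 (.n 0 (.l 6) (.l 4)) (.n 3 (.l 4) (.n 0 (.l 4) (.l 4)))) (.l 6)) (.l 6)) (.n 2 (.n 0 (.n 0 (.n 3 (.l 4) (.l 4)) (.n 3 (.l 4) (.l 4))) (.n 3 (.l 4) (.l 4))) (.l 6))) (.n 0 (.n 0 (.n 1 (.n 3 (.l 4) (.l 4)) (.n 3 (.l 4) (.l 4))) (.n 2 (.l 4) (.l 4))) (.n 0 (.l 4) (.l 4))))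
    [(366414397440, 28185722880), (153545080832, 11811160064), (1236950581248, 137438953472), (206158430208, 68719476736)] rfl (by decide +kernel)
end
mutual
theorem c1_m111_t12 : CovD 0 progs [(366414397440, 28185722880), (153545080832, 11811160064), (1511828488192, 137438953472), (206158430208, 68719476736)] :=
  Pool.Agent.helper14.QF.covD_F chks_eq (.n 0 (.l 6) (.n 0 (.l 6) (.n 0 (.l 4) (.l 4))))
    [(366414397440, 28185722880), (153545080832, 11811160064), (1511828488192, 137438953472), (206158430208, 68719476736)] rfl (by decide +kernel)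
theorem c1_m111_t14 : CovD 0 progs [(352321536000, 14092861440), (177167400960, 11811160064), (1374389534720, 274877906944), (206158430208, 68719476736)] :=
  Pool.Agent.helper14.QF.covD_F chks_eq (.n 0 (.n 2 (.n 2 (.n 3 (.n 2 (.l 4) (.l 4)) (.n 0 (.l 4) (.n 0 (.l 4) (.l 4)))) (.l 6)) (.l 6)) (.n 0 (.n 2 (.n 2 (.n 0 (.n 3 (.l 4) (.l 4)) (.n 3 (.l 4) (.l 4))) (.n 3 (.l 4) (.l 4))) (.l 6)) (.n 2 (.n 2 (.n 3 (.l 4) (.l 4)) (.n 0 (.l 4) (.l 4))) (.l 6))))
    [(352321536000, 14092861440), (177167400960, 11811160064), (1374389534720, 274877906944), (206158430208, 68719476736)] rfl (by decide +kernel)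
end
mutual
theorem c1_m111_t15 : CovD 0 progs [(380507258880, 14092861440), (177167400960, 11811160064), (1374389534720, 274877906944), (206158430208, 68719476736)] :=
  Pool.Agent.helper14.QF.covD_F chks_eq (.n 0 (.n 2 (.n 0 (.n 0 (.n 2 (.l 4) (.l 4)) (.n 2 (.l 4) (.l 4))) (.n 2 (.l 4) (.l 4))) (.n 2 (.n 0 (.l 4) (.l 4)) (.l 6))) (.n 2 (.n 3 (.l 4) (.l 4)) (.n 0 (.l 4) (.l 4))))
    [(380507258880, 14092861440), (177167400960, 11811160064), (1374389534720, 274877906944), (206158430208, 68719476736)] rfl (by decide +kernel)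
theorem c1_m111_t21 : CovD 0 progs [(366414397440, 28185722880), (47244640256, 47244640256), (1236950581248, 137438953472), (343597383680, 68719476736)] :=
  Pool.Agent.helper14.QF.covD_F chks_eq (.n 2 (.n 0 (.l 6) (.n 1 (.l 6) (.n 3 (.n 0 (.n 0 (.l 4) (.l 4)) (.l 4)) (.n 0 (.n 0 (.l 4) (.l 4)) (.l 4))))) (.l 6))
    [(366414397440, 28185722880), (47244640256, 47244640256), (1236950581248, 137438953472), (343597383680, 68719476736)] rfl (by decide +kernel)
end
mutual
theorem c1_m111_t22 : CovD 0 progs [(366414397440, 28185722880), (118111600640, 23622320128), (1236950581248, 137438953472), (343597383680, 68719476736)] :=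
  Pool.Agent.helper14.QF.covD_F chks_eq (.n 0 (.n 2 (.n 0 (.n 2 (.l 6) (.l 6)) (.n 3 (.n 1 (.n 0 (.l 6) (.l 4)) (.n 0 (.n 0 (.l 4) (.l 4)) (.l 4))) (.n 0 (.n 3 (.l 4) (.l 4)) (.l 4)))) (.l 6)) (.n 0 (.n 0 (.n 2 (.n 3 (.l 4) (.l 4)) (.l 6)) (.n 3 (.l 4) (.l 4))) (.n 3 (.l 4) (.l 4))))
    [(366414397440, 28185722880), (118111600640, 23622320128), (1236950581248, 137438953472), (343597383680, 68719476736)] rfl (by decide +kernel)
theorem c1_m111_t23 : CovD 0 progs [(366414397440, 28185722880), (153545080832, 11811160064), (1236950581248, 137438953472), (343597383680, 68719476736)] :=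
  Pool.Agent.helper14.QF.covD_F chks_eq (.n 0 (.n 0 (.n 2 (.n 2 (.n 0 (.n 0 (.l 6) (.n 3 (.l 4) (.l 4))) (.n 0 (.n 3 (.l 4) (.l 4)) (.n 3 (.l 4) (.l 4)))) (.l 6)) (.l 6)) (.n 0 (.n 2 (.n 0 (.n 3 (.l 4) (.l 4)) (.n 3 (.l 4) (.l 4))) (.l 6)) (.n 2 (.n 3 (.l 4) (.l 4)) (.n 3 (.l 4) (.l 4))))) (.n 0 (.n 0 (.n 3 (.l 4) (.l 4)) (.n 3 (.l 4) (.l 4))) (.n 0 (.l 4) (.l 4))))
    [(366414397440, 28185722880), (153545080832, 11811160064), (1236950581248, 137438953472), (343597383680, 68719476736)] rfl (by decide +kernel)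
end
mutual
theorem c1_m111_t24 : CovD 0 progs [(352321536000, 14092861440), (177167400960, 11811160064), (1236950581248, 137438953472), (343597383680, 68719476736)] :=
  Pool.Agent.helper14.QF.covD_F chks_eq (.n 0 (.n 0 (.n 2 (.n 2 (.n 3 (.l 4) (.n 0 (.l 4) (.l 4))) (.n 0 (.l 6) (.n 3 (.l 4) (.l 4)))) (.l 6)) (.n 2 (.n 3 (.n 3 (.l 4) (.l 4)) (.n 0 (.l 4) (.l 4))) (.n 0 (.l 6) (.n 3 (.l 4) (.l 4))))) (.n 0 (.n 2 (.n 3 (.n 0 (.l 4) (.l 4)) (.l 4)) (.n 3 (.l 4) (.l 4))) (.n 2 (.n 3 (.l 4) (.l 4)) (.n 3 (.l 4) (.l 4)))))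
    [(352321536000, 14092861440), (177167400960, 11811160064), (1236950581248, 137438953472), (343597383680, 68719476736)] rfl (by decide +kernel)
theorem c1_m111_t25 : CovD 0 progs [(380507258880, 14092861440), (177167400960, 11811160064), (1236950581248, 137438953472), (343597383680, 68719476736)] :=
  Pool.Agent.helper14.QF.covD_F chks_eq (.n 0 (.n 0 (.n 3 (.l 4) (.l 4)) (.n 3 (.l 4) (.l 4))) (.n 0 (.l 4) (.l 4)))
    [(380507258880, 14092861440), (177167400960, 11811160064), (1236950581248, 137438953472), (343597383680, 68719476736)] rfl (by decide +kernel)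
end
mutual
theorem c1_m111_t30 : CovD 0 progs [(366414397440, 28185722880), (94489280512, 94489280512), (1511828488192, 137438953472), (343597383680, 68719476736)] :=
  Pool.Agent.helper14.QF.covD_F chks_eq (.n 0 (.n 1 (.l 6) (.n 1 (.l 6) (.n 1 (.l 6) (.n 2 (.l 6) (.l 6))))) (.n 1 (.l 6) (.n 0 (.n 1 (.l 6) (.n 1 (.n 1 (.l 6) (.l 6)) (.n 2 (.n 3 (.l 4) (.l 4)) (.l 6)))) (.n 1 (.n 0 (.l 6) (.l 4)) (.n 3 (.n 0 (.l 4) (.l 4)) (.l 4))))))
    [(366414397440, 28185722880), (94489280512, 94489280512), (1511828488192, 137438953472), (343597383680, 68719476736)] rfl (by decide +kernel)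
theorem c1_m111_t32 : CovD 0 progs [(352321536000, 14092861440), (94489280512, 94489280512), (1168231104512, 68719476736), (481036337152, 68719476736)] :=
  Pool.Agent.helper14.QF.covD_F chks_eq (.n 1 (.l 6) (.n 0 (.n 0 (.n 1 (.l 6) (.n 3 (.n 0 (.n 1 (.l 6) (.n 0 (.l 4) (.l 4))) (.n 3 (.l 4) (.l 4))) (.n 3 (.l 4) (.l 4)))) (.n 1 (.n 2 (.l 6) (.l 6)) (.n 3 (.n 3 (.l 4) (.l 4)) (.n 0 (.l 4) (.l 4))))) (.n 3 (.n 0 (.n 3 (.n 0 (.l 4) (.l 4)) (.l 4)) (.n 0 (.l 4) (.l 4))) (.n 3 (.l 4) (.l 4)))))
    [(352321536000, 14092861440), (94489280512, 94489280512), (1168231104512, 68719476736), (481036337152, 68719476736)] rfl (by decide +kernel)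
end
mutual
theorem c1_m111_t33 : CovD 0 progs [(352321536000, 14092861440), (94489280512, 94489280512), (1305670057984, 68719476736), (481036337152, 68719476736)] :=
  Pool.Agent.helper14.QF.covD_F chks_eq (.n 0 (.n 1 (.l 6) (.n 1 (.l 6) (.n 0 (.l 6) (.n 1 (.l 6) (.n 3 (.l 4) (.l 4)))))) (.n 1 (.l 6) (.n 1 (.l 6) (.n 0 (.n 1 (.l 6) (.n 3 (.l 4) (.l 4))) (.n 3 (.l 4) (.l 4))))))
    [(352321536000, 14092861440), (94489280512, 94489280512), (1305670057984, 68719476736), (481036337152, 68719476736)] rfl (by decide +kernel)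
theorem c1_m111_t35 : CovD 0 progs [(352321536000, 14092861440), (94489280512, 94489280512), (1511828488192, 137438953472), (481036337152, 68719476736)] :=
  Pool.Agent.helper14.QF.covD_F chks_eq (.n 1 (.l 6) (.n 1 (.l 6) (.n 1 (.l 6) (.n 2 (.n 2 (.l 6) (.l 6)) (.l 6)))))
    [(352321536000, 14092861440), (94489280512, 94489280512), (1511828488192, 137438953472), (481036337152, 68719476736)] rfl (by decide +kernel)
end
mutual
theorem c1_m111_t37 : CovD 0 progs [(380507258880, 14092861440), (94489280512, 94489280512), (1374389534720, 274877906944), (481036337152, 68719476736)] :=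
  Pool.Agent.helper14.QF.covD_F chks_eq (.n 2 (.n 0 (.n 0 (.n 1 (.n 3 (.l 4) (.l 4)) (.n 3 (.n 1 (.l 4) (.l 4)) (.l 4))) (.n 1 (.n 3 (.l 4) (.l 4)) (.n 3 (.l 4) (.l 4)))) (.n 1 (.n 3 (.l 4) (.l 4)) (.n 0 (.n 1 (.l 4) (.l 4)) (.n 1 (.l 4) (.l 5))))) (.n 0 (.n 1 (.l 6) (.n 1 (.l 6) (.n 3 (.n 0 (.l 4) (.l 4)) (.l 4)))) (.n 1 (.l 6) (.n 3 (.n 1 (.l 4) (.l 4)) (.l 4)))))
    [(380507258880, 14092861440), (94489280512, 94489280512), (1374389534720, 274877906944), (481036337152, 68719476736)] rfl (by decide +kernel)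
theorem c1_m111_t41 : CovD 0 progs [(422785843200, 28185722880), (94489280512, 94489280512), (1374389534720, 274877906944), (68719476736, 68719476736)] :=
  Pool.Agent.helper14.QF.covD_F chks_eq (.n 1 (.n 0 (.n 2 (.n 0 (.l 4) (.l 4)) (.l 6)) (.n 1 (.l 4) (.l 4))) (.n 1 (.n 0 (.n 0 (.n 2 (.l 4) (.l 4)) (.l 4)) (.n 2 (.l 4) (.l 4))) (.n 0 (.n 0 (.n 2 (.l 4) (.n 0 (.l 4) (.l 4))) (.n 1 (.l 4) (.l 4))) (.n 2 (.n 0 (.l 4) (.n 2 (.l 0) (.l 0))) (.l 4)))))
    [(422785843200, 28185722880), (94489280512, 94489280512), (1374389534720, 274877906944), (68719476736, 68719476736)] rfl (by decide +kernel)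
end
mutual
theorem c1_m111_t42 : CovD 0 progs [(422785843200, 28185722880), (47244640256, 47244640256), (1374389534720, 274877906944), (206158430208, 68719476736)] :=
  Pool.Agent.helper14.QF.covD_F chks_eq (.n 2 (.n 0 (.n 0 (.n 0 (.l 4) (.l 4)) (.l 4)) (.l 4)) (.n 1 (.l 6) (.n 0 (.l 6) (.l 4))))
    [(422785843200, 28185722880), (47244640256, 47244640256), (1374389534720, 274877906944), (206158430208, 68719476736)] rfl (by decide +kernel)
theorem c1_m111_t43 : CovD 0 progs [(422785843200, 28185722880), (141733920768, 47244640256), (1374389534720, 274877906944), (206158430208, 68719476736)] :=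
  Pool.Agent.helper14.QF.covD_F chks_eq (.n 0 (.n 1 (.n 0 (.n 2 (.l 4) (.n 0 (.l 4) (.l 4))) (.n 0 (.l 4) (.l 4))) (.n 0 (.n 2 (.l 4) (.n 0 (.l 4) (.l 4))) (.n 2 (.l 4) (.l 4)))) (.n 1 (.n 2 (.n 2 (.l 4) (.l 4)) (.l 4)) (.n 0 (.n 2 (.n 2 (.n 0 (.l 4) (.l 3)) (.l 4)) (.l 4)) (.n 2 (.n 1 (.l 3) (.n 0 (.l 0) (.l 0))) (.n 2 (.l 1) (.l 0))))))
    [(422785843200, 28185722880), (141733920768, 47244640256), (1374389534720, 274877906944), (206158430208, 68719476736)] rfl (by decide +kernel)
end
mutual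
theorem c1_m111_t46 : CovD 0 progs [(422785843200, 28185722880), (47244640256, 47244640256), (1374389534720, 274877906944), (343597383680, 68719476736)] :=
  Pool.Agent.helper14.QF.covD_F chks_eq (.n 2 (.n 0 (.n 0 (.n 0 (.l 4) (.l 4)) (.l 4)) (.n 1 (.l 0) (.l 4))) (.n 1 (.l 6) (.n 0 (.l 6) (.l 4))))
    [(422785843200, 28185722880), (47244640256, 47244640256), (1374389534720, 274877906944), (343597383680, 68719476736)] rfl (by decide +kernel)
theorem c1_m111_t47 : CovD 0 progs [(422785843200, 28185722880), (118111600640, 23622320128), (1374389534720, 274877906944), (343597383680, 68719476736)] :=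
  Pool.Agent.helper14.QF.covD_F chks_eq (.n 0 (.n 0 (.n 2 (.l 4) (.l 4)) (.n 2 (.l 4) (.l 4))) (.n 2 (.n 2 (.n 0 (.l 4) (.l 0)) (.l 4)) (.l 4)))
    [(422785843200, 28185722880), (118111600640, 23622320128), (1374389534720, 274877906944), (343597383680, 68719476736)] rfl (by decide +kernel)
end
mutual
theorem c1_m111_t48 : CovD 0 progs [(422785843200, 28185722880), (165356240896, 23622320128), (1374389534720, 274877906944), (343597383680, 68719476736)] :=
  Pool.Agent.helper14.QF.covD_F chks_eq (.n 0 (.n 0 (.n 0 (.n 2 (.l 4) (.l 4)) (.n 2 (.l 4) (.l 4))) (.n 2 (.n 1 (.l 4) (.n 2 (.n 3 (.l 4) (.l 3)) (.l 4))) (.l 4))) (.n 0 (.n 2 (.n 2 (.n 3 (.l 3) (.l 0)) (.n 1 (.l 0) (.l 3))) (.n 1 (.l 4) (.n 0 (.l 4) (.l 0)))) (.n 2 (.n 2 (.l 0) (.l 0)) (.n 2 (.l 0) (.l 0)))))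
    [(422785843200, 28185722880), (165356240896, 23622320128), (1374389534720, 274877906944), (343597383680, 68719476736)] rfl (by decide +kernel)
theorem c1_m111_t51 : CovD 0 progs [(422785843200, 28185722880), (47244640256, 47244640256), (1374389534720, 274877906944), (481036337152, 68719476736)] :=
  Pool.Agent.helper14.QF.covD_F chks_eq (.n 2 (.n 0 (.n 3 (.l 4) (.l 4)) (.n 1 (.l 0) (.l 0))) (.n 1 (.l 6) (.n 0 (.l 6) (.l 4))))
    [(422785843200, 28185722880), (47244640256, 47244640256), (1374389534720, 274877906944), (481036337152, 68719476736)] rfl (by decide +kernel)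
end
mutual
theorem c1_m111_t52 : CovD 0 progs [(408692981760, 14092861440), (141733920768, 47244640256), (1374389534720, 274877906944), (481036337152, 68719476736)] :=
  Pool.Agent.helper14.QF.covD_F chks_eq (.n 2 (.n 0 (.n 1 (.l 4) (.n 1 (.l 5) (.n 2 (.n 3 (.l 4) (.l 0)) (.l 4)))) (.n 1 (.n 2 (.l 5) (.l 4)) (.n 2 (.n 3 (.l 3) (.l 0)) (.n 3 (.l 3) (.l 0))))) (.n 0 (.n 1 (.l 4) (.l 5)) (.n 1 (.l 4) (.n 1 (.l 4) (.n 2 (.l 5) (.l 3))))))
    [(408692981760, 14092861440), (141733920768, 47244640256), (1374389534720, 274877906944), (481036337152, 68719476736)] rfl (by decide +kernel)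
theorem c1_m111_t53 : CovD 0 progs [(436878704640, 14092861440), (141733920768, 47244640256), (1374389534720, 274877906944), (481036337152, 68719476736)] :=
  Pool.Agent.helper14.QF.covD_F chks_eq (.n 1 (.n 0 (.n 2 (.n 0 (.l 0) (.l 0)) (.l 4)) (.n 2 (.l 0) (.l 0))) (.n 2 (.n 2 (.n 3 (.l 0) (.l 0)) (.n 3 (.l 0) (.l 0))) (.n 2 (.n 3 (.l 0) (.l 0)) (.n 3 (.l 0) (.l 0)))))
    [(436878704640, 14092861440), (141733920768, 47244640256), (1374389534720, 274877906944), (481036337152, 68719476736)] rfl (by decide +kernel)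
end
theorem c1_m111_t4 : CovD 0 progs [(366414397440, 28185722880), (165356240896, 23622320128), (1374389534720, 274877906944), (68719476736, 68719476736)] :=
  covD_split 1 (by decide +kernel) c1_m111_t2 c1_m111_t3
theorem c1_m111_t5 : CovD 0 progs [(366414397440, 28185722880), (141733920768, 47244640256), (1374389534720, 274877906944), (68719476736, 68719476736)] :=
  covD_split 1 (by decide +kernel) c1_m111_t1 c1_m111_t4
theorem c1_m111_t6 : CovD 0 progs [(366414397440, 28185722880), (94489280512, 94489280512), (1374389534720, 274877906944), (68719476736, 68719476736)] :=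
  covD_split 1 (by decide +kernel) c1_m111_t0 c1_m111_t5
theorem c1_m111_t10 : CovD 0 progs [(366414397440, 28185722880), (118111600640, 23622320128), (1374389534720, 274877906944), (206158430208, 68719476736)] :=
  covD_split 0 (by decide +kernel) c1_m111_t8 c1_m111_t9
theorem c1_m111_t13 : CovD 0 progs [(366414397440, 28185722880), (153545080832, 11811160064), (1374389534720, 274877906944), (206158430208, 68719476736)] :=
  covD_split 2 (by decide +kernel) c1_m111_t11 c1_m111_t12
theorem c1_m111_t16 : CovD 0 progs [(366414397440, 28185722880), (177167400960, 11811160064), (1374389534720, 274877906944), (206158430208, 68719476736)] :=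
  covD_split 0 (by decide +kernel) c1_m111_t14 c1_m111_t15
theorem c1_m111_t17 : CovD 0 progs [(366414397440, 28185722880), (165356240896, 23622320128), (1374389534720, 274877906944), (206158430208, 68719476736)] :=
  covD_split 1 (by decide +kernel) c1_m111_t13 c1_m111_t16
theorem c1_m111_t18 : CovD 0 progs [(366414397440, 28185722880), (141733920768, 47244640256), (1374389534720, 274877906944), (206158430208, 68719476736)] :=
  covD_split 1 (by decide +kernel) c1_m111_t10 c1_m111_t17
theorem c1_m111_t19 : CovD 0 progs [(366414397440, 28185722880), (94489280512, 94489280512), (1374389534720, 274877906944), (206158430208, 68719476736)] :=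
  covD_split 1 (by decide +kernel) c1_m111_t7 c1_m111_t18
theorem c1_m111_t20 : CovD 0 progs [(366414397440, 28185722880), (94489280512, 94489280512), (1374389534720, 274877906944), (137438953472, 137438953472)] :=
  covD_split 3 (by decide +kernel) c1_m111_t6 c1_m111_t19
theorem c1_m111_t26 : CovD 0 progs [(366414397440, 28185722880), (177167400960, 11811160064), (1236950581248, 137438953472), (343597383680, 68719476736)] :=
  covD_split 0 (by decide +kernel) c1_m111_t24 c1_m111_t25
theorem c1_m111_t27 : CovD 0 progs [(366414397440, 28185722880), (165356240896, 23622320128), (1236950581248, 137438953472), (343597383680, 68719476736)] :=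
  covD_split 1 (by decide +kernel) c1_m111_t23 c1_m111_t26
theorem c1_m111_t28 : CovD 0 progs [(366414397440, 28185722880), (141733920768, 47244640256), (1236950581248, 137438953472), (343597383680, 68719476736)] :=
  covD_split 1 (by decide +kernel) c1_m111_t22 c1_m111_t27
theorem c1_m111_t29 : CovD 0 progs [(366414397440, 28185722880), (94489280512, 94489280512), (1236950581248, 137438953472), (343597383680, 68719476736)] :=
  covD_split 1 (by decide +kernel) c1_m111_t21 c1_m111_t28
theorem c1_m111_t31 : CovD 0 progs [(366414397440, 28185722880), (94489280512, 94489280512), (1374389534720, 274877906944), (343597383680, 68719476736)] :=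
  covD_split 2 (by decide +kernel) c1_m111_t29 c1_m111_t30
theorem c1_m111_t34 : CovD 0 progs [(352321536000, 14092861440), (94489280512, 94489280512), (1236950581248, 137438953472), (481036337152, 68719476736)] :=
  covD_split 2 (by decide +kernel) c1_m111_t32 c1_m111_t33
theorem c1_m111_t36 : CovD 0 progs [(352321536000, 14092861440), (94489280512, 94489280512), (1374389534720, 274877906944), (481036337152, 68719476736)] :=
  covD_split 2 (by decide +kernel) c1_m111_t34 c1_m111_t35
theorem c1_m111_t38 : CovD 0 progs [(366414397440, 28185722880), (94489280512, 94489280512), (1374389534720, 274877906944), (481036337152, 68719476736)] :=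
  covD_split 0 (by decide +kernel) c1_m111_t36 c1_m111_t37
theorem c1_m111_t39 : CovD 0 progs [(366414397440, 28185722880), (94489280512, 94489280512), (1374389534720, 274877906944), (412316860416, 137438953472)] :=
  covD_split 3 (by decide +kernel) c1_m111_t31 c1_m111_t38
theorem c1_m111_t40 : CovD 0 progs [(366414397440, 28185722880), (94489280512, 94489280512), (1374389534720, 274877906944), (274877906944, 274877906944)] :=
  covD_split 3 (by decide +kernel) c1_m111_t20 c1_m111_t39
theorem c1_m111_t44 : CovD 0 progs [(422785843200, 28185722880), (94489280512, 94489280512), (1374389534720, 274877906944), (206158430208, 68719476736)] :=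
  covD_split 1 (by decide +kernel) c1_m111_t42 c1_m111_t43
theorem c1_m111_t45 : CovD 0 progs [(422785843200, 28185722880), (94489280512, 94489280512), (1374389534720, 274877906944), (137438953472, 137438953472)] :=
  covD_split 3 (by decide +kernel) c1_m111_t41 c1_m111_t44
theorem c1_m111_t49 : CovD 0 progs [(422785843200, 28185722880), (141733920768, 47244640256), (1374389534720, 274877906944), (343597383680, 68719476736)] :=
  covD_split 1 (by decide +kernel) c1_m111_t47 c1_m111_t48
theorem c1_m111_t50 : CovD 0 progs [(422785843200, 28185722880), (94489280512, 94489280512), (1374389534720, 274877906944), (343597383680, 68719476736)] :=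
  covD_split 1 (by decide +kernel) c1_m111_t46 c1_m111_t49
theorem c1_m111_t54 : CovD 0 progs [(422785843200, 28185722880), (141733920768, 47244640256), (1374389534720, 274877906944), (481036337152, 68719476736)] :=
  covD_split 0 (by decide +kernel) c1_m111_t52 c1_m111_t53
theorem c1_m111_t55 : CovD 0 progs [(422785843200, 28185722880), (94489280512, 94489280512), (1374389534720, 274877906944), (481036337152, 68719476736)] :=
  covD_split 1 (by decide +kernel) c1_m111_t51 c1_m111_t54
theorem c1_m111_t56 : CovD 0 progs [(422785843200, 28185722880), (94489280512, 94489280512), (1374389534720, 274877906944), (412316860416, 137438953472)] :=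
  covD_split 3 (by decide +kernel) c1_m111_t50 c1_m111_t55
theorem c1_m111_t57 : CovD 0 progs [(422785843200, 28185722880), (94489280512, 94489280512), (1374389534720, 274877906944), (274877906944, 274877906944)] :=
  covD_split 3 (by decide +kernel) c1_m111_t45 c1_m111_t56
theorem c1_m111 : CovD 0 progs [(394600120320, 56371445760), (94489280512, 94489280512), (1374389534720, 274877906944), (274877906944, 274877906944)] :=
  covD_split 0 (by decide +kernel) c1_m111_t40 c1_m111_t57

end Pool.Agent.helper71.FJ.Crt.QMa
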