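import Pool.Agent.helper71.FJ.Crt.QMaP

/-!
Generated certificates.
-/

namespace Pool.Agent.helper71.FJ.Crt.QMa

open Pool.Agent.helper31.IA (Z Op)
open Pool.Agent.helper31.IC

mutual
theorem c1_m13_t0 : CovD 0 progs [(295950090240, 14092861440), (47244640256, 47244640256), (687194767360, 137438953472), (68719476736, 68719476736)] :=
  Pool.Agent.helper14.QF.covD_F chks_eq (.n 0 (.n 0 (.l 4) (.l 4)) (.n 0 (.l 4) (.l 4)))
    [(295950090240, 14092861440), (47244640256, 47244640256), (687194767360, 137438953472), (68719476736, 68719476736)] rfl (by decide +kernel)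
theorem c1_m13_t1 : CovD 0 progs [(324135813120, 14092861440), (47244640256, 47244640256), (687194767360, 137438953472), (68719476736, 68719476736)] :=
  Pool.Agent.helper14.QF.covD_F chks_eq (.n 0 (.n 0 (.n 0 (.l 4) (.l 4)) (.n 0 (.l 4) (.l 4))) (.n 0 (.n 0 (.n 0 (.l 4) (.l 4)) (.n 0 (.l 4) (.n 0 (.l 4) (.l 4)))) (.n 0 (.n 0 (.n 1 (.l 4) (.l 4)) (.n 1 (.l 4) (.n 0 (.l 4) (.l 4)))) (.n 1 (.n 3 (.l 4) (.n 0 (.l 4) (.l 4))) (.n 3 (.l 4) (.n 0 (.l 4) (.n 0 (.l 4) (.l 4))))))))
    [(324135813120, 14092861440), (47244640256, 47244640256), (687194767360, 137438953472), (68719476736, 68719476736)] rfl (by decide +kernel)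
end
mutual
theorem c1_m13_t3 : CovD 0 progs [(310042951680, 28185722880), (23622320128, 23622320128), (962072674304, 137438953472), (68719476736, 68719476736)] :=
  Pool.Agent.helper14.QF.covD_F chks_eq (.n 0 (.l 6) (.n 2 (.n 0 (.n 0 (.l 4) (.n 0 (.l 4) (.l 4))) (.n 0 (.n 0 (.l 4) (.l 4)) (.n 0 (.n 0 (.l 4) (.l 4)) (.n 0 (.l 4) (.n 0 (.l 4) (.l 4)))))) (.l 6)))
    [(310042951680, 28185722880), (23622320128, 23622320128), (962072674304, 137438953472), (68719476736, 68719476736)] rfl (by decide +kernel)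
theorem c1_m13_t4 : CovD 0 progs [(310042951680, 28185722880), (70866960384, 23622320128), (962072674304, 137438953472), (68719476736, 68719476736)] :=
  Pool.Agent.helper14.QF.covD_F chks_eq (.n 0 (.n 0 (.l 6) (.n 0 (.l 4) (.l 4))) (.n 0 (.n 0 (.l 4) (.n 0 (.l 4) (.l 4))) (.n 0 (.n 0 (.l 4) (.n 2 (.l 4) (.l 6))) (.n 2 (.n 0 (.n 0 (.l 4) (.l 4)) (.n 3 (.l 4) (.n 0 (.l 4) (.l 4)))) (.l 6)))))
    [(310042951680, 28185722880), (70866960384, 23622320128), (962072674304, 137438953472), (68719476736, 68719476736)] rfl (by decide +kernel)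
end
mutual
theorem c1_m13_t7 : CovD 0 progs [(295950090240, 14092861440), (141733920768, 47244640256), (824633720832, 274877906944), (68719476736, 68719476736)] :=
  Pool.Agent.helper14.QF.covD_F chks_eq (.n 0 (.n 0 (.l 8) (.n 0 (.l 4) (.l 4))) (.n 0 (.n 0 (.l 4) (.l 4)) (.n 2 (.l 4) (.l 4))))
    [(295950090240, 14092861440), (141733920768, 47244640256), (824633720832, 274877906944), (68719476736, 68719476736)] rfl (by decide +kernel)
theorem c1_m13_t8 : CovD 0 progs [(317089382400, 7046430720), (141733920768, 47244640256), (824633720832, 274877906944), (68719476736, 68719476736)] :=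
  Pool.Agent.helper14.QF.covD_F chks_eq (.n 1 (.n 0 (.n 0 (.l 4) (.l 4)) (.n 0 (.n 0 (.l 4) (.l 4)) (.n 2 (.l 4) (.l 4)))) (.n 0 (.n 0 (.l 4) (.n 1 (.l 4) (.l 4))) (.n 0 (.n 2 (.l 4) (.l 4)) (.n 2 (.l 4) (.n 0 (.l 4) (.l 4))))))
    [(317089382400, 7046430720), (141733920768, 47244640256), (824633720832, 274877906944), (68719476736, 68719476736)] rfl (by decide +kernel)
end
mutual
theorem c1_m13_t9 : CovD 0 progs [(327659028480, 3523215360), (141733920768, 47244640256), (824633720832, 274877906944), (68719476736, 68719476736)] :=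
  Pool.Agent.helper14.QF.covD_F chks_eq (.n 0 (.n 1 (.n 2 (.l 4) (.n 0 (.l 4) (.l 4))) (.n 2 (.n 0 (.l 4) (.l 4)) (.n 2 (.l 4) (.l 4)))) (.n 2 (.n 2 (.n 0 (.l 4) (.l 4)) (.n 3 (.l 4) (.l 4))) (.n 1 (.n 3 (.l 4) (.n 1 (.l 4) (.l 4))) (.n 0 (.n 1 (.l 4) (.l 4)) (.n 2 (.l 4) (.l 4))))))
    [(327659028480, 3523215360), (141733920768, 47244640256), (824633720832, 274877906944), (68719476736, 68719476736)] rfl (by decide +kernel)
theorem c1_m13_t10 : CovD 0 progs [(332943851520, 1761607680), (141733920768, 47244640256), (824633720832, 274877906944), (68719476736, 68719476736)] :=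
  Pool.Agent.helper14.QF.covD_F chks_eq (.n 2 (.n 2 (.n 0 (.l 4) (.n 0 (.l 4) (.l 4))) (.n 3 (.l 4) (.n 1 (.l 4) (.l 4)))) (.n 1 (.n 2 (.n 3 (.l 4) (.l 4)) (.n 0 (.l 4) (.n 0 (.l 4) (.l 4)))) (.n 0 (.n 2 (.l 4) (.l 4)) (.n 0 (.n 2 (.l 4) (.l 4)) (.n 2 (.l 4) (.l 4))))))
    [(332943851520, 1761607680), (141733920768, 47244640256), (824633720832, 274877906944), (68719476736, 68719476736)] rfl (by decide +kernel)
end
mutual
theorem c1_m13_t11 : CovD 0 progs [(336467066880, 1761607680), (118111600640, 23622320128), (824633720832, 274877906944), (68719476736, 68719476736)] :=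
  Pool.Agent.helper14.QF.covD_F chks_eq (.n 2 (.n 0 (.n 2 (.l 4) (.n 0 (.l 4) (.l 4))) (.n 3 (.l 4) (.n 2 (.l 4) (.l 4)))) (.n 2 (.n 3 (.l 4) (.n 0 (.l 4) (.l 4))) (.n 1 (.n 3 (.l 4) (.l 4)) (.n 0 (.l 4) (.l 4)))))
    [(336467066880, 1761607680), (118111600640, 23622320128), (824633720832, 274877906944), (68719476736, 68719476736)] rfl (by decide +kernel)
theorem c1_m13_t12 : CovD 0 progs [(336467066880, 1761607680), (165356240896, 23622320128), (824633720832, 274877906944), (68719476736, 68719476736)] :=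
  Pool.Agent.helper14.QF.covD_F chks_eq (.n 2 (.n 2 (.n 3 (.l 4) (.n 0 (.l 4) (.l 4))) (.n 3 (.l 4) (.n 0 (.l 4) (.l 4)))) (.n 2 (.n 3 (.l 4) (.n 1 (.l 4) (.l 4))) (.n 0 (.n 1 (.l 4) (.l 4)) (.n 1 (.l 4) (.l 4)))))
    [(336467066880, 1761607680), (165356240896, 23622320128), (824633720832, 274877906944), (68719476736, 68719476736)] rfl (by decide +kernel)
end
theorem c1_m13_t2 : CovD 0 progs [(310042951680, 28185722880), (47244640256, 47244640256), (687194767360, 137438953472), (68719476736, 68719476736)] :=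
  covD_split 0 (by decide +kernel) c1_m13_t0 c1_m13_t1
theorem c1_m13_t5 : CovD 0 progs [(310042951680, 28185722880), (47244640256, 47244640256), (962072674304, 137438953472), (68719476736, 68719476736)] :=
  covD_split 1 (by decide +kernel) c1_m13_t3 c1_m13_t4
theorem c1_m13_t6 : CovD 0 progs [(310042951680, 28185722880), (47244640256, 47244640256), (824633720832, 274877906944), (68719476736, 68719476736)] :=
  covD_split 2 (by decide +kernel) c1_m13_t2 c1_m13_t5
theorem c1_m13_t13 : CovD 0 progs [(336467066880, 1761607680), (141733920768, 47244640256), (824633720832, 274877906944), (68719476736, 68719476736)] :=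
  covD_split 1 (by decide +kernel) c1_m13_t11 c1_m13_t12
theorem c1_m13_t14 : CovD 0 progs [(334705459200, 3523215360), (141733920768, 47244640256), (824633720832, 274877906944), (68719476736, 68719476736)] :=
  covD_split 0 (by decide +kernel) c1_m13_t10 c1_m13_t13
theorem c1_m13_t15 : CovD 0 progs [(331182243840, 7046430720), (141733920768, 47244640256), (824633720832, 274877906944), (68719476736, 68719476736)] :=
  covD_split 0 (by decide +kernel) c1_m13_t9 c1_m13_t14
theorem c1_m13_t16 : CovD 0 progs [(324135813120, 14092861440), (141733920768, 47244640256), (824633720832, 274877906944), (68719476736, 68719476736)] :=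
  covD_split 0 (by decide +kernel) c1_m13_t8 c1_m13_t15
theorem c1_m13_t17 : CovD 0 progs [(310042951680, 28185722880), (141733920768, 47244640256), (824633720832, 274877906944), (68719476736, 68719476736)] :=
  covD_split 0 (by decide +kernel) c1_m13_t7 c1_m13_t16
theorem c1_m13 : CovD 0 progs [(310042951680, 28185722880), (94489280512, 94489280512), (824633720832, 274877906944), (68719476736, 68719476736)] :=
  covD_split 1 (by decide +kernel) c1_m13_t6 c1_m13_t17

end Pool.Agent.helper71.FJ.Crt.QMa
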