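import Pool.Agent.helper71.FJ.Crt.QMaP

/-!
Generated certificates.
-/

namespace Pool.Agent.helper71.FJ.Crt.QMa

open Pool.Agent.helper31.IA (Z Op)
open Pool.Agent.helper31.IC

mutual
theorem c1_m27_t0 : CovD 0 progs [(339990282240, 1761607680), (23622320128, 23622320128), (824633720832, 274877906944), (240518168576, 34359738368)] :=
  Pool.Agent.helper14.QF.covD_F chks_eq (.n 2 (.n 2 (.n 3 (.l 4) (.l 4)) (.n 3 (.n 0 (.l 4) (.l 4)) (.l 4))) (.n 2 (.n 3 (.n 0 (.l 4) (.l 4)) (.l 4)) (.l 6)))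
    [(339990282240, 1761607680), (23622320128, 23622320128), (824633720832, 274877906944), (240518168576, 34359738368)] rfl (by decide +kernel)
theorem c1_m27_t1 : CovD 0 progs [(339990282240, 1761607680), (70866960384, 23622320128), (824633720832, 274877906944), (240518168576, 34359738368)] :=
  Pool.Agent.helper14.QF.covD_F chks_eq (.n 1 (.n 2 (.n 2 (.n 3 (.l 4) (.l 4)) (.n 3 (.l 4) (.l 4))) (.n 2 (.n 0 (.n 1 (.l 4) (.l 4)) (.l 4)) (.l 6))) (.n 2 (.n 2 (.n 3 (.l 4) (.l 4)) (.n 3 (.l 4) (.l 4))) (.n 2 (.n 0 (.n 1 (.l 4) (.l 4)) (.l 4)) (.l 6))))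
    [(339990282240, 1761607680), (70866960384, 23622320128), (824633720832, 274877906944), (240518168576, 34359738368)] rfl (by decide +kernel)
end
mutual
theorem c1_m27_t3 : CovD 0 progs [(339990282240, 1761607680), (118111600640, 23622320128), (824633720832, 274877906944), (240518168576, 34359738368)] :=
  Pool.Agent.helper14.QF.covD_F chks_eq (.n 1 (.n 2 (.n 2 (.n 3 (.l 4) (.l 4)) (.n 3 (.l 4) (.l 4))) (.n 2 (.n 0 (.n 1 (.l 4) (.l 4)) (.l 4)) (.n 2 (.l 4) (.l 4)))) (.n 2 (.n 2 (.n 3 (.l 4) (.l 4)) (.n 0 (.n 1 (.l 4) (.l 4)) (.l 4))) (.n 2 (.n 2 (.l 4) (.l 4)) (.n 1 (.l 4) (.l 4)))))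
    [(339990282240, 1761607680), (118111600640, 23622320128), (824633720832, 274877906944), (240518168576, 34359738368)] rfl (by decide +kernel)
theorem c1_m27_t4 : CovD 0 progs [(339990282240, 1761607680), (165356240896, 23622320128), (824633720832, 274877906944), (240518168576, 34359738368)] :=
  Pool.Agent.helper14.QF.covD_F chks_eq (.n 2 (.n 2 (.n 2 (.n 3 (.l 4) (.l 4)) (.n 3 (.l 4) (.l 4))) (.n 1 (.n 2 (.l 4) (.l 4)) (.n 2 (.l 4) (.l 4)))) (.n 1 (.n 1 (.n 2 (.l 4) (.l 4)) (.n 2 (.l 4) (.l 4))) (.n 2 (.n 1 (.l 4) (.l 4)) (.l 4))))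
    [(339990282240, 1761607680), (165356240896, 23622320128), (824633720832, 274877906944), (240518168576, 34359738368)] rfl (by decide +kernel)
end
mutual
theorem c1_m27_t7 : CovD 0 progs [(343513497600, 1761607680), (23622320128, 23622320128), (824633720832, 274877906944), (240518168576, 34359738368)] :=
  Pool.Agent.helper14.QF.covD_F chks_eq (.n 2 (.n 2 (.n 3 (.l 4) (.l 4)) (.n 3 (.l 4) (.n 0 (.l 4) (.l 4)))) (.n 2 (.n 3 (.l 4) (.n 0 (.l 4) (.l 4))) (.l 6)))
    [(343513497600, 1761607680), (23622320128, 23622320128), (824633720832, 274877906944), (240518168576, 34359738368)] rfl (by decide +kernel)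
theorem c1_m27_t8 : CovD 0 progs [(343513497600, 1761607680), (70866960384, 23622320128), (824633720832, 274877906944), (240518168576, 34359738368)] :=
  Pool.Agent.helper14.QF.covD_F chks_eq (.n 1 (.n 2 (.n 3 (.l 4) (.n 0 (.l 4) (.l 4))) (.n 2 (.n 3 (.l 4) (.l 4)) (.l 6))) (.n 2 (.n 2 (.n 3 (.l 4) (.l 4)) (.n 3 (.l 4) (.l 4))) (.n 2 (.n 0 (.l 4) (.n 1 (.l 4) (.l 4))) (.n 1 (.l 6) (.n 0 (.l 4) (.l 4))))))
    [(343513497600, 1761607680), (70866960384, 23622320128), (824633720832, 274877906944), (240518168576, 34359738368)] rfl (by decide +kernel)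
end
mutual
theorem c1_m27_t10 : CovD 0 progs [(343513497600, 1761607680), (141733920768, 47244640256), (687194767360, 137438953472), (240518168576, 34359738368)] :=
  Pool.Agent.helper14.QF.covD_F chks_eq (.n 1 (.n 2 (.n 3 (.l 4) (.n 0 (.l 4) (.l 4))) (.n 1 (.n 3 (.l 4) (.l 4)) (.n 0 (.l 4) (.n 1 (.l 4) (.l 4))))) (.n 2 (.n 2 (.n 3 (.l 4) (.l 4)) (.n 3 (.l 4) (.l 4))) (.n 2 (.n 3 (.l 4) (.l 4)) (.n 1 (.l 4) (.l 4)))))
    [(343513497600, 1761607680), (141733920768, 47244640256), (687194767360, 137438953472), (240518168576, 34359738368)] rfl (by decide +kernel)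
theorem c1_m27_t11 : CovD 0 progs [(343513497600, 1761607680), (141733920768, 47244640256), (962072674304, 137438953472), (240518168576, 34359738368)] :=
  Pool.Agent.helper14.QF.covD_F chks_eq (.n 1 (.n 1 (.n 2 (.n 3 (.l 4) (.n 0 (.l 4) (.l 4))) (.n 2 (.l 4) (.l 4))) (.n 2 (.n 2 (.l 4) (.l 4)) (.n 1 (.l 4) (.l 4)))) (.n 1 (.n 2 (.n 2 (.l 4) (.l 4)) (.n 0 (.l 4) (.l 4))) (.n 2 (.n 1 (.l 4) (.l 4)) (.l 4))))
    [(343513497600, 1761607680), (141733920768, 47244640256), (962072674304, 137438953472), (240518168576, 34359738368)] rfl (by decide +kernel)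
end
mutual
theorem c1_m27_t15 : CovD 0 progs [(347036712960, 1761607680), (23622320128, 23622320128), (824633720832, 274877906944), (240518168576, 34359738368)] :=
  Pool.Agent.helper14.QF.covD_F chks_eq (.n 2 (.n 3 (.n 1 (.l 4) (.n 0 (.l 4) (.l 4))) (.n 0 (.n 0 (.l 4) (.l 4)) (.l 4))) (.n 2 (.n 0 (.n 3 (.l 4) (.l 4)) (.n 3 (.l 4) (.l 4))) (.l 6)))
    [(347036712960, 1761607680), (23622320128, 23622320128), (824633720832, 274877906944), (240518168576, 34359738368)] rfl (by decide +kernel)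
theorem c1_m27_t16 : CovD 0 progs [(347036712960, 1761607680), (70866960384, 23622320128), (824633720832, 274877906944), (240518168576, 34359738368)] :=
  Pool.Agent.helper14.QF.covD_F chks_eq (.n 1 (.n 2 (.n 0 (.n 3 (.l 4) (.l 4)) (.n 3 (.l 4) (.l 4))) (.n 2 (.n 3 (.l 4) (.n 0 (.l 4) (.l 4))) (.l 6))) (.n 2 (.n 2 (.n 3 (.l 4) (.l 4)) (.n 3 (.l 4) (.l 4))) (.n 2 (.n 3 (.l 4) (.n 0 (.l 4) (.l 4))) (.n 2 (.n 3 (.l 4) (.l 4)) (.l 6)))))
    [(347036712960, 1761607680), (70866960384, 23622320128), (824633720832, 274877906944), (240518168576, 34359738368)] rfl (by decide +kernel)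
end
mutual
theorem c1_m27_t18 : CovD 0 progs [(347036712960, 1761607680), (118111600640, 23622320128), (824633720832, 274877906944), (240518168576, 34359738368)] :=
  Pool.Agent.helper14.QF.covD_F chks_eq (.n 2 (.n 2 (.n 0 (.n 3 (.l 4) (.l 4)) (.n 3 (.l 4) (.l 4))) (.n 3 (.n 1 (.l 4) (.l 4)) (.n 0 (.n 0 (.l 4) (.l 4)) (.l 4)))) (.n 1 (.n 2 (.n 3 (.l 4) (.n 0 (.l 4) (.l 4))) (.n 2 (.n 0 (.l 4) (.l 4)) (.l 6))) (.n 2 (.n 3 (.l 4) (.n 0 (.l 4) (.l 4))) (.n 3 (.l 4) (.l 4)))))
    [(347036712960, 1761607680), (118111600640, 23622320128), (824633720832, 274877906944), (240518168576, 34359738368)] rfl (by decide +kernel)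
theorem c1_m27_t19 : CovD 0 progs [(347036712960, 1761607680), (165356240896, 23622320128), (824633720832, 274877906944), (240518168576, 34359738368)] :=
  Pool.Agent.helper14.QF.covD_F chks_eq (.n 2 (.n 2 (.n 2 (.n 3 (.l 4) (.l 4)) (.n 3 (.l 4) (.l 4))) (.n 2 (.n 3 (.l 4) (.l 4)) (.n 3 (.l 4) (.l 4)))) (.n 1 (.n 2 (.n 3 (.l 4) (.l 4)) (.n 1 (.l 4) (.l 4))) (.n 2 (.n 2 (.l 4) (.l 4)) (.n 0 (.l 4) (.l 4)))))
    [(347036712960, 1761607680), (165356240896, 23622320128), (824633720832, 274877906944), (240518168576, 34359738368)] rfl (by decide +kernel)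
end
mutual
theorem c1_m27_t22 : CovD 0 progs [(350559928320, 1761607680), (47244640256, 47244640256), (824633720832, 274877906944), (240518168576, 34359738368)] :=
  Pool.Agent.helper14.QF.covD_F chks_eq (.n 1 (.n 2 (.n 0 (.n 3 (.l 4) (.l 4)) (.n 3 (.l 4) (.l 4))) (.n 2 (.n 3 (.n 0 (.l 4) (.l 4)) (.l 4)) (.l 6))) (.n 2 (.n 2 (.n 3 (.l 4) (.l 4)) (.n 0 (.n 3 (.l 4) (.l 4)) (.n 3 (.l 4) (.l 4)))) (.n 1 (.n 2 (.n 3 (.l 4) (.l 4)) (.n 1 (.l 6) (.l 6))) (.n 2 (.n 3 (.l 4) (.l 4)) (.n 3 (.l 4) (.l 4))))))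
    [(350559928320, 1761607680), (47244640256, 47244640256), (824633720832, 274877906944), (240518168576, 34359738368)] rfl (by decide +kernel)
theorem c1_m27_t23 : CovD 0 progs [(350559928320, 1761607680), (118111600640, 23622320128), (824633720832, 274877906944), (240518168576, 34359738368)] :=
  Pool.Agent.helper14.QF.covD_F chks_eq (.n 2 (.n 2 (.n 3 (.n 0 (.l 4) (.l 4)) (.l 4)) (.n 0 (.n 3 (.l 4) (.l 4)) (.n 3 (.l 4) (.l 4)))) (.n 1 (.n 2 (.n 3 (.l 4) (.l 4)) (.n 3 (.l 4) (.l 4))) (.n 2 (.n 3 (.l 4) (.l 4)) (.n 3 (.l 4) (.l 4)))))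
    [(350559928320, 1761607680), (118111600640, 23622320128), (824633720832, 274877906944), (240518168576, 34359738368)] rfl (by decide +kernel)
end
mutual
theorem c1_m27_t24 : CovD 0 progs [(350559928320, 1761607680), (165356240896, 23622320128), (824633720832, 274877906944), (240518168576, 34359738368)] :=
  Pool.Agent.helper14.QF.covD_F chks_eq (.n 1 (.n 2 (.n 2 (.n 3 (.l 4) (.l 4)) (.n 3 (.l 4) (.l 4))) (.n 2 (.n 3 (.l 4) (.l 4)) (.n 0 (.l 4) (.l 4)))) (.n 2 (.n 2 (.n 3 (.l 4) (.l 4)) (.n 3 (.l 4) (.l 4))) (.n 2 (.n 2 (.l 4) (.l 4)) (.n 0 (.l 4) (.l 4)))))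
    [(350559928320, 1761607680), (165356240896, 23622320128), (824633720832, 274877906944), (240518168576, 34359738368)] rfl (by decide +kernel)
theorem c1_m27_t29 : CovD 0 progs [(354083143680, 1761607680), (47244640256, 47244640256), (824633720832, 274877906944), (240518168576, 34359738368)] :=
  Pool.Agent.helper14.QF.covD_F chks_eq (.n 1 (.n 2 (.n 3 (.l 4) (.l 4)) (.n 2 (.n 3 (.l 4) (.l 4)) (.l 6))) (.n 2 (.n 0 (.n 3 (.l 4) (.l 4)) (.n 2 (.l 4) (.l 4))) (.n 2 (.n 3 (.l 4) (.l 4)) (.n 2 (.n 3 (.l 4) (.l 4)) (.l 6)))))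
    [(354083143680, 1761607680), (47244640256, 47244640256), (824633720832, 274877906944), (240518168576, 34359738368)] rfl (by decide +kernel)
end
mutual
theorem c1_m27_t30 : CovD 0 progs [(354083143680, 1761607680), (141733920768, 47244640256), (824633720832, 274877906944), (240518168576, 34359738368)] :=
  Pool.Agent.helper14.QF.covD_F chks_eq (.n 1 (.n 2 (.n 2 (.n 3 (.l 4) (.l 4)) (.n 3 (.l 4) (.l 4))) (.n 2 (.n 3 (.n 0 (.l 4) (.l 4)) (.l 4)) (.n 0 (.n 1 (.l 4) (.l 4)) (.n 1 (.l 4) (.l 4))))) (.n 2 (.n 2 (.n 3 (.l 4) (.l 4)) (.n 3 (.n 0 (.l 4) (.l 4)) (.l 4))) (.n 1 (.n 0 (.n 2 (.l 4) (.l 4)) (.n 2 (.l 4) (.l 4))) (.n 2 (.n 0 (.l 4) (.l 4)) (.l 4)))))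
    [(354083143680, 1761607680), (141733920768, 47244640256), (824633720832, 274877906944), (240518168576, 34359738368)] rfl (by decide +kernel)
theorem c1_m27_t32 : CovD 0 progs [(357606359040, 1761607680), (94489280512, 94489280512), (824633720832, 274877906944), (240518168576, 34359738368)] :=
  Pool.Agent.helper14.QF.covD_F chks_eq (.n 1 (.n 1 (.n 2 (.n 0 (.l 4) (.l 4)) (.n 3 (.l 4) (.l 4))) (.n 2 (.n 3 (.l 4) (.l 4)) (.n 1 (.n 0 (.l 4) (.l 4)) (.n 3 (.l 4) (.l 4))))) (.n 2 (.n 2 (.n 3 (.l 4) (.l 4)) (.n 0 (.n 1 (.l 4) (.l 4)) (.n 1 (.l 4) (.l 4)))) (.n 1 (.n 1 (.n 2 (.l 4) (.l 4)) (.n 2 (.l 4) (.l 4))) (.n 1 (.n 2 (.l 4) (.l 4)) (.n 2 (.l 4) (.l 4))))))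
    [(357606359040, 1761607680), (94489280512, 94489280512), (824633720832, 274877906944), (240518168576, 34359738368)] rfl (by decide +kernel)
end
mutual
theorem c1_m27_t34 : CovD 0 progs [(361129574400, 1761607680), (94489280512, 94489280512), (824633720832, 274877906944), (240518168576, 34359738368)] :=
  Pool.Agent.helper14.QF.covD_F chks_eq (.n 1 (.n 1 (.n 2 (.l 4) (.n 0 (.l 4) (.l 4))) (.n 2 (.l 4) (.n 2 (.l 4) (.l 4)))) (.n 1 (.n 2 (.n 0 (.l 4) (.l 4)) (.n 2 (.l 4) (.n 0 (.l 4) (.l 4)))) (.n 2 (.n 2 (.l 4) (.l 4)) (.n 0 (.n 2 (.l 4) (.l 4)) (.n 2 (.l 4) (.l 4))))))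
    [(361129574400, 1761607680), (94489280512, 94489280512), (824633720832, 274877906944), (240518168576, 34359738368)] rfl (by decide +kernel)
theorem c1_m27_t35 : CovD 0 progs [(364652789760, 1761607680), (94489280512, 94489280512), (824633720832, 274877906944), (240518168576, 34359738368)] :=
  Pool.Agent.helper14.QF.covD_F chks_eq (.n 1 (.n 2 (.l 4) (.n 1 (.l 4) (.l 4))) (.n 2 (.n 2 (.l 4) (.l 4)) (.n 1 (.n 1 (.l 4) (.l 4)) (.n 2 (.l 4) (.l 4)))))
    [(364652789760, 1761607680), (94489280512, 94489280512), (824633720832, 274877906944), (240518168576, 34359738368)] rfl (by decide +kernel)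
end
theorem c1_m27_t2 : CovD 0 progs [(339990282240, 1761607680), (47244640256, 47244640256), (824633720832, 274877906944), (240518168576, 34359738368)] :=
  covD_split 1 (by decide +kernel) c1_m27_t0 c1_m27_t1
theorem c1_m27_t5 : CovD 0 progs [(339990282240, 1761607680), (141733920768, 47244640256), (824633720832, 274877906944), (240518168576, 34359738368)] :=
  covD_split 1 (by decide +kernel) c1_m27_t3 c1_m27_t4
theorem c1_m27_t6 : CovD 0 progs [(339990282240, 1761607680), (94489280512, 94489280512), (824633720832, 274877906944), (240518168576, 34359738368)] :=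
  covD_split 1 (by decide +kernel) c1_m27_t2 c1_m27_t5
theorem c1_m27_t9 : CovD 0 progs [(343513497600, 1761607680), (47244640256, 47244640256), (824633720832, 274877906944), (240518168576, 34359738368)] :=
  covD_split 1 (by decide +kernel) c1_m27_t7 c1_m27_t8
theorem c1_m27_t12 : CovD 0 progs [(343513497600, 1761607680), (141733920768, 47244640256), (824633720832, 274877906944), (240518168576, 34359738368)] :=
  covD_split 2 (by decide +kernel) c1_m27_t10 c1_m27_t11
theorem c1_m27_t13 : CovD 0 progs [(343513497600, 1761607680), (94489280512, 94489280512), (824633720832, 274877906944), (240518168576, 34359738368)] :=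
  covD_split 1 (by decide +kernel) c1_m27_t9 c1_m27_t12
theorem c1_m27_t14 : CovD 0 progs [(341751889920, 3523215360), (94489280512, 94489280512), (824633720832, 274877906944), (240518168576, 34359738368)] :=
  covD_split 0 (by decide +kernel) c1_m27_t6 c1_m27_t13
theorem c1_m27_t17 : CovD 0 progs [(347036712960, 1761607680), (47244640256, 47244640256), (824633720832, 274877906944), (240518168576, 34359738368)] :=
  covD_split 1 (by decide +kernel) c1_m27_t15 c1_m27_t16
theorem c1_m27_t20 : CovD 0 progs [(347036712960, 1761607680), (141733920768, 47244640256), (824633720832, 274877906944), (240518168576, 34359738368)] :=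
  covD_split 1 (by decide +kernel) c1_m27_t18 c1_m27_t19
theorem c1_m27_t21 : CovD 0 progs [(347036712960, 1761607680), (94489280512, 94489280512), (824633720832, 274877906944), (240518168576, 34359738368)] :=
  covD_split 1 (by decide +kernel) c1_m27_t17 c1_m27_t20
theorem c1_m27_t25 : CovD 0 progs [(350559928320, 1761607680), (141733920768, 47244640256), (824633720832, 274877906944), (240518168576, 34359738368)] :=
  covD_split 1 (by decide +kernel) c1_m27_t23 c1_m27_t24
theorem c1_m27_t26 : CovD 0 progs [(350559928320, 1761607680), (94489280512, 94489280512), (824633720832, 274877906944), (240518168576, 34359738368)] :=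
  covD_split 1 (by decide +kernel) c1_m27_t22 c1_m27_t25
theorem c1_m27_t27 : CovD 0 progs [(348798320640, 3523215360), (94489280512, 94489280512), (824633720832, 274877906944), (240518168576, 34359738368)] :=
  covD_split 0 (by decide +kernel) c1_m27_t21 c1_m27_t26
theorem c1_m27_t28 : CovD 0 progs [(345275105280, 7046430720), (94489280512, 94489280512), (824633720832, 274877906944), (240518168576, 34359738368)] :=
  covD_split 0 (by decide +kernel) c1_m27_t14 c1_m27_t27
theorem c1_m27_t31 : CovD 0 progs [(354083143680, 1761607680), (94489280512, 94489280512), (824633720832, 274877906944), (240518168576, 34359738368)] :=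
  covD_split 1 (by decide +kernel) c1_m27_t29 c1_m27_t30
theorem c1_m27_t33 : CovD 0 progs [(355844751360, 3523215360), (94489280512, 94489280512), (824633720832, 274877906944), (240518168576, 34359738368)] :=
  covD_split 0 (by decide +kernel) c1_m27_t31 c1_m27_t32
theorem c1_m27_t36 : CovD 0 progs [(362891182080, 3523215360), (94489280512, 94489280512), (824633720832, 274877906944), (240518168576, 34359738368)] :=
  covD_split 0 (by decide +kernel) c1_m27_t34 c1_m27_t35
theorem c1_m27_t37 : CovD 0 progs [(359367966720, 7046430720), (94489280512, 94489280512), (824633720832, 274877906944), (240518168576, 34359738368)] :=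
  covD_split 0 (by decide +kernel) c1_m27_t33 c1_m27_t36
theorem c1_m27 : CovD 0 progs [(352321536000, 14092861440), (94489280512, 94489280512), (824633720832, 274877906944), (240518168576, 34359738368)] :=
  covD_split 0 (by decide +kernel) c1_m27_t28 c1_m27_t37

end Pool.Agent.helper71.FJ.Crt.QMa
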