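import Pool.Agent.helper71.FJ.Crt.QMaP

/-!
Generated certificates.
-/

namespace Pool.Agent.helper71.FJ.Crt.QMa

open Pool.Agent.helper31.IA (Z Op)
open Pool.Agent.helper31.IC

mutual
theorem c1_m41_t0 : CovD 0 progs [(227247390720, 1761607680), (141733920768, 47244640256), (68719476736, 68719476736), (790273982464, 34359738368)] :=
  Pool.Agent.helper14.QF.covD_F chks_eq (.n 0 (.n 3 (.n 3 (.l 4) (.l 4)) (.n 3 (.n 3 (.l 4) (.l 4)) (.n 3 (.n 0 (.l 4) (.l 4)) (.n 3 (.l 4) (.l 4))))) (.n 0 (.n 3 (.n 3 (.l 4) (.l 4)) (.n 3 (.n 3 (.l 4) (.l 4)) (.n 3 (.l 4) (.n 3 (.l 4) (.l 4))))) (.n 3 (.n 3 (.l 4) (.l 4)) (.n 3 (.n 3 (.l 4) (.l 4)) (.n 3 (.l 4) (.n 3 (.l 4) (.l 4)))))))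
    [(227247390720, 1761607680), (141733920768, 47244640256), (68719476736, 68719476736), (790273982464, 34359738368)] rfl (by decide +kernel)
theorem c1_m41_t1 : CovD 0 progs [(229889802240, 880803840), (141733920768, 47244640256), (68719476736, 68719476736), (790273982464, 34359738368)] :=
  Pool.Agent.helper14.QF.covD_F chks_eq (.n 0 (.n 3 (.n 3 (.l 4) (.l 4)) (.n 3 (.n 3 (.l 4) (.l 4)) (.n 3 (.n 0 (.l 4) (.l 4)) (.n 3 (.l 4) (.l 4))))) (.n 3 (.n 3 (.l 4) (.l 4)) (.n 3 (.n 3 (.l 4) (.l 4)) (.n 2 (.n 3 (.l 4) (.l 4)) (.n 3 (.l 4) (.l 4))))))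
    [(229889802240, 880803840), (141733920768, 47244640256), (68719476736, 68719476736), (790273982464, 34359738368)] rfl (by decide +kernel)
end
mutual
theorem c1_m41_t2 : CovD 0 progs [(231651409920, 880803840), (141733920768, 47244640256), (68719476736, 68719476736), (790273982464, 34359738368)] :=
  Pool.Agent.helper14.QF.covD_F chks_eq (.n 3 (.n 3 (.l 4) (.n 3 (.l 4) (.l 4))) (.n 3 (.n 3 (.l 4) (.n 0 (.l 4) (.l 4))) (.n 3 (.n 3 (.l 4) (.l 4)) (.n 2 (.l 4) (.l 4)))))
    [(231651409920, 880803840), (141733920768, 47244640256), (68719476736, 68719476736), (790273982464, 34359738368)] rfl (by decide +kernel)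
theorem c1_m41_t5 : CovD 0 progs [(233413017600, 880803840), (141733920768, 47244640256), (68719476736, 68719476736), (790273982464, 34359738368)] :=
  Pool.Agent.helper14.QF.covD_F chks_eq (.n 0 (.n 3 (.n 3 (.l 4) (.n 3 (.l 4) (.l 4))) (.n 3 (.n 3 (.l 4) (.n 0 (.l 4) (.l 4))) (.n 3 (.n 2 (.l 4) (.l 4)) (.l 4)))) (.n 3 (.n 3 (.l 4) (.n 3 (.l 4) (.l 4))) (.n 3 (.n 3 (.l 4) (.n 0 (.l 4) (.l 4))) (.n 3 (.n 0 (.l 4) (.l 4)) (.l 4)))))
    [(233413017600, 880803840), (141733920768, 47244640256), (68719476736, 68719476736), (790273982464, 34359738368)] rfl (by decide +kernel)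
end
mutual
theorem c1_m41_t6 : CovD 0 progs [(235174625280, 880803840), (141733920768, 47244640256), (68719476736, 68719476736), (790273982464, 34359738368)] :=
  Pool.Agent.helper14.QF.covD_F chks_eq (.n 0 (.n 3 (.n 3 (.l 4) (.n 3 (.l 4) (.l 4))) (.n 3 (.n 3 (.l 4) (.n 0 (.l 4) (.l 4))) (.n 3 (.l 4) (.l 4)))) (.n 3 (.n 3 (.l 4) (.n 3 (.l 4) (.l 4))) (.n 3 (.n 0 (.n 3 (.l 4) (.l 4)) (.n 3 (.l 4) (.l 4))) (.n 3 (.l 4) (.l 4)))))
    [(235174625280, 880803840), (141733920768, 47244640256), (68719476736, 68719476736), (790273982464, 34359738368)] rfl (by decide +kernel)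
theorem c1_m41_t8 : CovD 0 progs [(236936232960, 880803840), (141733920768, 47244640256), (68719476736, 68719476736), (790273982464, 34359738368)] :=
  Pool.Agent.helper14.QF.covD_F chks_eq (.n 0 (.n 3 (.n 3 (.l 4) (.n 3 (.l 4) (.l 4))) (.n 3 (.n 0 (.n 3 (.l 4) (.l 4)) (.n 3 (.l 4) (.l 4))) (.n 3 (.l 4) (.l 4)))) (.n 3 (.n 3 (.l 4) (.n 3 (.l 4) (.l 4))) (.n 3 (.n 3 (.n 0 (.l 4) (.l 4)) (.l 4)) (.n 3 (.l 4) (.l 4)))))
    [(236936232960, 880803840), (141733920768, 47244640256), (68719476736, 68719476736), (790273982464, 34359738368)] rfl (by decide +kernel)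
end
mutual
theorem c1_m41_t9 : CovD 0 progs [(238697840640, 880803840), (106300440576, 11811160064), (68719476736, 68719476736), (790273982464, 34359738368)] :=
  Pool.Agent.helper14.QF.covD_F chks_eq (.n 2 (.n 3 (.n 3 (.n 3 (.l 4) (.l 4)) (.n 3 (.l 4) (.n 0 (.l 4) (.l 4)))) (.n 3 (.n 3 (.n 0 (.l 4) (.l 4)) (.l 4)) (.n 3 (.l 4) (.l 4)))) (.n 3 (.n 3 (.n 3 (.l 4) (.l 4)) (.n 3 (.l 4) (.n 0 (.l 4) (.l 4)))) (.n 3 (.n 3 (.n 0 (.l 4) (.l 4)) (.l 4)) (.n 3 (.l 4) (.l 4)))))
    [(238697840640, 880803840), (106300440576, 11811160064), (68719476736, 68719476736), (790273982464, 34359738368)] rfl (by decide +kernel)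
theorem c1_m41_t10 : CovD 0 progs [(238697840640, 880803840), (129922760704, 11811160064), (68719476736, 68719476736), (790273982464, 34359738368)] :=
  Pool.Agent.helper14.QF.covD_F chks_eq (.n 2 (.n 3 (.n 3 (.n 3 (.l 4) (.l 4)) (.n 3 (.l 4) (.n 0 (.l 4) (.l 4)))) (.n 3 (.n 3 (.n 0 (.l 4) (.l 4)) (.l 4)) (.n 3 (.l 4) (.l 4)))) (.n 3 (.n 3 (.n 3 (.l 4) (.l 4)) (.n 3 (.l 4) (.n 0 (.l 4) (.l 4)))) (.n 3 (.n 3 (.n 0 (.l 4) (.l 4)) (.l 4)) (.n 3 (.l 4) (.l 4)))))
    [(238697840640, 880803840), (129922760704, 11811160064), (68719476736, 68719476736), (790273982464, 34359738368)] rfl (by decide +kernel)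
end
mutual
theorem c1_m41_t12 : CovD 0 progs [(238697840640, 880803840), (153545080832, 11811160064), (68719476736, 68719476736), (790273982464, 34359738368)] :=
  Pool.Agent.helper14.QF.covD_F chks_eq (.n 2 (.n 3 (.n 3 (.n 3 (.l 4) (.l 4)) (.n 3 (.l 4) (.n 0 (.l 4) (.l 4)))) (.n 3 (.n 3 (.n 0 (.l 4) (.l 4)) (.l 4)) (.n 3 (.l 4) (.l 4)))) (.n 3 (.n 3 (.n 3 (.l 4) (.l 4)) (.n 3 (.l 4) (.n 0 (.l 4) (.l 4)))) (.n 3 (.n 3 (.n 0 (.l 4) (.l 4)) (.l 4)) (.n 3 (.l 4) (.l 4)))))
    [(238697840640, 880803840), (153545080832, 11811160064), (68719476736, 68719476736), (790273982464, 34359738368)] rfl (by decide +kernel)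
theorem c1_m41_t13 : CovD 0 progs [(238697840640, 880803840), (177167400960, 11811160064), (68719476736, 68719476736), (790273982464, 34359738368)] :=
  Pool.Agent.helper14.QF.covD_F chks_eq (.n 2 (.n 3 (.n 3 (.n 3 (.l 4) (.l 4)) (.n 3 (.l 4) (.n 0 (.l 4) (.l 4)))) (.n 3 (.n 3 (.n 0 (.l 4) (.l 4)) (.l 4)) (.n 3 (.l 4) (.l 4)))) (.n 3 (.n 3 (.n 3 (.l 4) (.l 4)) (.n 3 (.l 4) (.n 0 (.l 4) (.l 4)))) (.n 3 (.n 3 (.n 0 (.l 4) (.l 4)) (.l 4)) (.n 3 (.l 4) (.l 4)))))
    [(238697840640, 880803840), (177167400960, 11811160064), (68719476736, 68719476736), (790273982464, 34359738368)] rfl (by decide +kernel)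
end
mutual
theorem c1_m41_t19 : CovD 0 progs [(227247390720, 1761607680), (141733920768, 47244640256), (206158430208, 68719476736), (790273982464, 34359738368)] :=
  Pool.Agent.helper14.QF.covD_F chks_eq (.n 0 (.n 3 (.n 3 (.l 4) (.l 4)) (.n 3 (.n 3 (.l 4) (.l 4)) (.n 3 (.n 0 (.l 4) (.l 4)) (.n 3 (.l 4) (.l 4))))) (.n 0 (.n 3 (.n 3 (.l 4) (.l 4)) (.n 3 (.n 3 (.l 4) (.l 4)) (.n 3 (.l 4) (.n 3 (.l 4) (.l 4))))) (.n 3 (.n 3 (.l 4) (.l 4)) (.n 3 (.n 3 (.l 4) (.l 4)) (.n 3 (.l 4) (.n 3 (.l 4) (.l 4)))))))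
    [(227247390720, 1761607680), (141733920768, 47244640256), (206158430208, 68719476736), (790273982464, 34359738368)] rfl (by decide +kernel)
theorem c1_m41_t20 : CovD 0 progs [(229889802240, 880803840), (141733920768, 47244640256), (206158430208, 68719476736), (790273982464, 34359738368)] :=
  Pool.Agent.helper14.QF.covD_F chks_eq (.n 0 (.n 3 (.n 3 (.l 4) (.l 4)) (.n 3 (.n 3 (.l 4) (.l 4)) (.n 3 (.n 0 (.l 4) (.l 4)) (.n 3 (.l 4) (.l 4))))) (.n 3 (.n 3 (.l 4) (.l 4)) (.n 3 (.n 3 (.l 4) (.l 4)) (.n 2 (.n 3 (.l 4) (.l 4)) (.n 3 (.l 4) (.l 4))))))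
    [(229889802240, 880803840), (141733920768, 47244640256), (206158430208, 68719476736), (790273982464, 34359738368)] rfl (by decide +kernel)
end
mutual
theorem c1_m41_t21 : CovD 0 progs [(231651409920, 880803840), (141733920768, 47244640256), (206158430208, 68719476736), (790273982464, 34359738368)] :=
  Pool.Agent.helper14.QF.covD_F chks_eq (.n 3 (.n 3 (.l 4) (.n 3 (.l 4) (.l 4))) (.n 3 (.n 3 (.l 4) (.n 3 (.l 4) (.l 4))) (.n 3 (.n 3 (.l 4) (.l 4)) (.n 2 (.l 4) (.l 4)))))
    [(231651409920, 880803840), (141733920768, 47244640256), (206158430208, 68719476736), (790273982464, 34359738368)] rfl (by decide +kernel)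
theorem c1_m41_t24 : CovD 0 progs [(233413017600, 880803840), (141733920768, 47244640256), (206158430208, 68719476736), (790273982464, 34359738368)] :=
  Pool.Agent.helper14.QF.covD_F chks_eq (.n 3 (.n 3 (.l 4) (.n 3 (.l 4) (.l 4))) (.n 3 (.n 3 (.n 0 (.l 4) (.l 4)) (.n 3 (.l 4) (.l 4))) (.n 3 (.n 3 (.l 4) (.l 4)) (.l 4))))
    [(233413017600, 880803840), (141733920768, 47244640256), (206158430208, 68719476736), (790273982464, 34359738368)] rfl (by decide +kernel)
end
mutual
theorem c1_m41_t25 : CovD 0 progs [(235174625280, 880803840), (141733920768, 47244640256), (206158430208, 68719476736), (790273982464, 34359738368)] :=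
  Pool.Agent.helper14.QF.covD_F chks_eq (.n 0 (.n 3 (.n 3 (.l 4) (.n 3 (.l 4) (.l 4))) (.n 3 (.n 3 (.l 4) (.n 0 (.l 4) (.l 4))) (.n 3 (.l 4) (.l 4)))) (.n 3 (.n 3 (.l 4) (.n 3 (.l 4) (.l 4))) (.n 3 (.n 0 (.n 3 (.l 4) (.l 4)) (.n 3 (.l 4) (.l 4))) (.n 3 (.l 4) (.l 4)))))
    [(235174625280, 880803840), (141733920768, 47244640256), (206158430208, 68719476736), (790273982464, 34359738368)] rfl (by decide +kernel)
theorem c1_m41_t27 : CovD 0 progs [(236936232960, 880803840), (141733920768, 47244640256), (206158430208, 68719476736), (790273982464, 34359738368)] :=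
  Pool.Agent.helper14.QF.covD_F chks_eq (.n 0 (.n 3 (.n 3 (.l 4) (.n 3 (.l 4) (.l 4))) (.n 3 (.n 0 (.n 3 (.l 4) (.l 4)) (.n 3 (.l 4) (.l 4))) (.n 3 (.l 4) (.l 4)))) (.n 1 (.n 3 (.n 3 (.l 4) (.n 3 (.l 4) (.l 4))) (.n 3 (.n 3 (.l 4) (.l 4)) (.n 3 (.l 4) (.l 4)))) (.n 3 (.n 3 (.l 4) (.n 3 (.l 4) (.l 4))) (.n 3 (.n 3 (.l 4) (.l 4)) (.n 3 (.l 4) (.l 4))))))
    [(236936232960, 880803840), (141733920768, 47244640256), (206158430208, 68719476736), (790273982464, 34359738368)] rfl (by decide +kernel)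
end
mutual
theorem c1_m41_t28 : CovD 0 progs [(238697840640, 880803840), (106300440576, 11811160064), (206158430208, 68719476736), (790273982464, 34359738368)] :=
  Pool.Agent.helper14.QF.covD_F chks_eq (.n 2 (.n 3 (.n 3 (.n 3 (.l 4) (.l 4)) (.n 3 (.l 4) (.n 0 (.l 4) (.l 4)))) (.n 3 (.n 3 (.n 0 (.l 4) (.l 4)) (.l 4)) (.n 3 (.l 4) (.l 4)))) (.n 3 (.n 3 (.n 3 (.l 4) (.l 4)) (.n 3 (.l 4) (.n 0 (.l 4) (.l 4)))) (.n 3 (.n 3 (.n 0 (.l 4) (.l 4)) (.l 4)) (.n 3 (.l 4) (.l 4)))))
    [(238697840640, 880803840), (106300440576, 11811160064), (206158430208, 68719476736), (790273982464, 34359738368)] rfl (by decide +kernel)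
theorem c1_m41_t29 : CovD 0 progs [(238697840640, 880803840), (129922760704, 11811160064), (206158430208, 68719476736), (790273982464, 34359738368)] :=
  Pool.Agent.helper14.QF.covD_F chks_eq (.n 2 (.n 3 (.n 3 (.n 3 (.l 4) (.l 4)) (.n 3 (.l 4) (.n 0 (.l 4) (.l 4)))) (.n 3 (.n 3 (.n 0 (.l 4) (.l 4)) (.l 4)) (.n 3 (.l 4) (.l 4)))) (.n 3 (.n 3 (.n 3 (.l 4) (.l 4)) (.n 3 (.l 4) (.n 0 (.l 4) (.l 4)))) (.n 3 (.n 3 (.n 0 (.l 4) (.l 4)) (.l 4)) (.n 3 (.l 4) (.l 4)))))
    [(238697840640, 880803840), (129922760704, 11811160064), (206158430208, 68719476736), (790273982464, 34359738368)] rfl (by decide +kernel)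
end
mutual
theorem c1_m41_t31 : CovD 0 progs [(238697840640, 880803840), (153545080832, 11811160064), (206158430208, 68719476736), (790273982464, 34359738368)] :=
  Pool.Agent.helper14.QF.covD_F chks_eq (.n 2 (.n 3 (.n 3 (.n 3 (.l 4) (.l 4)) (.n 3 (.l 4) (.n 0 (.l 4) (.l 4)))) (.n 3 (.n 3 (.n 0 (.l 4) (.l 4)) (.l 4)) (.n 3 (.l 4) (.l 4)))) (.n 3 (.n 3 (.n 3 (.l 4) (.l 4)) (.n 3 (.l 4) (.n 0 (.l 4) (.l 4)))) (.n 3 (.n 3 (.n 0 (.l 4) (.l 4)) (.l 4)) (.n 3 (.l 4) (.l 4)))))
    [(238697840640, 880803840), (153545080832, 11811160064), (206158430208, 68719476736), (790273982464, 34359738368)] rfl (by decide +kernel)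
theorem c1_m41_t32 : CovD 0 progs [(238697840640, 880803840), (177167400960, 11811160064), (206158430208, 68719476736), (790273982464, 34359738368)] :=
  Pool.Agent.helper14.QF.covD_F chks_eq (.n 2 (.n 3 (.n 3 (.n 3 (.l 4) (.l 4)) (.n 3 (.l 4) (.n 0 (.l 4) (.l 4)))) (.n 3 (.n 3 (.n 0 (.l 4) (.l 4)) (.l 4)) (.n 3 (.l 4) (.l 4)))) (.n 3 (.n 3 (.n 3 (.l 4) (.l 4)) (.n 3 (.l 4) (.n 0 (.l 4) (.l 4)))) (.n 3 (.n 3 (.n 0 (.l 4) (.l 4)) (.l 4)) (.n 3 (.l 4) (.l 4)))))
    [(238697840640, 880803840), (177167400960, 11811160064), (206158430208, 68719476736), (790273982464, 34359738368)] rfl (by decide +kernel)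
end
theorem c1_m41_t3 : CovD 0 progs [(230770606080, 1761607680), (141733920768, 47244640256), (68719476736, 68719476736), (790273982464, 34359738368)] :=
  covD_split 0 (by decide +kernel) c1_m41_t1 c1_m41_t2
theorem c1_m41_t4 : CovD 0 progs [(229008998400, 3523215360), (141733920768, 47244640256), (68719476736, 68719476736), (790273982464, 34359738368)] :=
  covD_split 0 (by decide +kernel) c1_m41_t0 c1_m41_t3
theorem c1_m41_t7 : CovD 0 progs [(234293821440, 1761607680), (141733920768, 47244640256), (68719476736, 68719476736), (790273982464, 34359738368)] :=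
  covD_split 0 (by decide +kernel) c1_m41_t5 c1_m41_t6
theorem c1_m41_t11 : CovD 0 progs [(238697840640, 880803840), (118111600640, 23622320128), (68719476736, 68719476736), (790273982464, 34359738368)] :=
  covD_split 1 (by decide +kernel) c1_m41_t9 c1_m41_t10
theorem c1_m41_t14 : CovD 0 progs [(238697840640, 880803840), (165356240896, 23622320128), (68719476736, 68719476736), (790273982464, 34359738368)] :=
  covD_split 1 (by decide +kernel) c1_m41_t12 c1_m41_t13
theorem c1_m41_t15 : CovD 0 progs [(238697840640, 880803840), (141733920768, 47244640256), (68719476736, 68719476736), (790273982464, 34359738368)] :=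
  covD_split 1 (by decide +kernel) c1_m41_t11 c1_m41_t14
theorem c1_m41_t16 : CovD 0 progs [(237817036800, 1761607680), (141733920768, 47244640256), (68719476736, 68719476736), (790273982464, 34359738368)] :=
  covD_split 0 (by decide +kernel) c1_m41_t8 c1_m41_t15
theorem c1_m41_t17 : CovD 0 progs [(236055429120, 3523215360), (141733920768, 47244640256), (68719476736, 68719476736), (790273982464, 34359738368)] :=
  covD_split 0 (by decide +kernel) c1_m41_t7 c1_m41_t16
theorem c1_m41_t18 : CovD 0 progs [(232532213760, 7046430720), (141733920768, 47244640256), (68719476736, 68719476736), (790273982464, 34359738368)] :=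
  covD_split 0 (by decide +kernel) c1_m41_t4 c1_m41_t17
theorem c1_m41_t22 : CovD 0 progs [(230770606080, 1761607680), (141733920768, 47244640256), (206158430208, 68719476736), (790273982464, 34359738368)] :=
  covD_split 0 (by decide +kernel) c1_m41_t20 c1_m41_t21
theorem c1_m41_t23 : CovD 0 progs [(229008998400, 3523215360), (141733920768, 47244640256), (206158430208, 68719476736), (790273982464, 34359738368)] :=
  covD_split 0 (by decide +kernel) c1_m41_t19 c1_m41_t22
theorem c1_m41_t26 : CovD 0 progs [(234293821440, 1761607680), (141733920768, 47244640256), (206158430208, 68719476736), (790273982464, 34359738368)] :=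
  covD_split 0 (by decide +kernel) c1_m41_t24 c1_m41_t25
theorem c1_m41_t30 : CovD 0 progs [(238697840640, 880803840), (118111600640, 23622320128), (206158430208, 68719476736), (790273982464, 34359738368)] :=
  covD_split 1 (by decide +kernel) c1_m41_t28 c1_m41_t29
theorem c1_m41_t33 : CovD 0 progs [(238697840640, 880803840), (165356240896, 23622320128), (206158430208, 68719476736), (790273982464, 34359738368)] :=
  covD_split 1 (by decide +kernel) c1_m41_t31 c1_m41_t32
theorem c1_m41_t34 : CovD 0 progs [(238697840640, 880803840), (141733920768, 47244640256), (206158430208, 68719476736), (790273982464, 34359738368)] :=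
  covD_split 1 (by decide +kernel) c1_m41_t30 c1_m41_t33
theorem c1_m41_t35 : CovD 0 progs [(237817036800, 1761607680), (141733920768, 47244640256), (206158430208, 68719476736), (790273982464, 34359738368)] :=
  covD_split 0 (by decide +kernel) c1_m41_t27 c1_m41_t34
theorem c1_m41_t36 : CovD 0 progs [(236055429120, 3523215360), (141733920768, 47244640256), (206158430208, 68719476736), (790273982464, 34359738368)] :=
  covD_split 0 (by decide +kernel) c1_m41_t26 c1_m41_t35
theorem c1_m41_t37 : CovD 0 progs [(232532213760, 7046430720), (141733920768, 47244640256), (206158430208, 68719476736), (790273982464, 34359738368)] :=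
  covD_split 0 (by decide +kernel) c1_m41_t23 c1_m41_t36
theorem c1_m41 : CovD 0 progs [(232532213760, 7046430720), (141733920768, 47244640256), (137438953472, 137438953472), (790273982464, 34359738368)] :=
  covD_split 2 (by decide +kernel) c1_m41_t18 c1_m41_t37

end Pool.Agent.helper71.FJ.Crt.QMa
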