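import Pool.Agent.helper71.FJ.Crt.QMaP

/-!
Generated certificates.
-/

namespace Pool.Agent.helper71.FJ.Crt.QMa

open Pool.Agent.helper31.IA (Z Op)
open Pool.Agent.helper31.IC

mutual
theorem c1_m55_t0 : CovD 0 progs [(310042951680, 28185722880), (94489280512, 94489280512), (274877906944, 274877906944), (691489734656, 4294967296)] :=
  Pool.Agent.helper14.QF.covD_F chks_eq (.n 0 (.n 0 (.n 0 (.n 0 (.n 2 (.n 2 (.l 4) (.l 4)) (.n 1 (.n 0 (.l 4) (.l 4)) (.n 2 (.l 4) (.l 4)))) (.n 1 (.n 2 (.l 4) (.l 4)) (.n 2 (.l 4) (.l 4)))) (.n 0 (.n 2 (.l 4) (.n 0 (.l 4) (.l 4))) (.n 2 (.l 4) (.l 4)))) (.n 0 (.n 2 (.l 4) (.l 4)) (.n 0 (.l 8) (.l 8)))) (.n 0 (.n 0 (.l 8) (.l 8)) (.l 8)))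
    [(310042951680, 28185722880), (94489280512, 94489280512), (274877906944, 274877906944), (691489734656, 4294967296)] rfl (by decide +kernel)
theorem c1_m55_t1 : CovD 0 progs [(310042951680, 28185722880), (94489280512, 94489280512), (274877906944, 274877906944), (700079669248, 4294967296)] :=
  Pool.Agent.helper14.QF.covD_F chks_eq (.n 0 (.n 0 (.n 0 (.n 0 (.n 1 (.n 2 (.l 4) (.l 4)) (.n 2 (.l 4) (.n 0 (.l 4) (.l 4)))) (.n 2 (.l 4) (.n 0 (.l 4) (.l 4)))) (.n 2 (.l 4) (.n 0 (.l 4) (.l 4)))) (.n 0 (.n 1 (.l 8) (.l 8)) (.l 8))) (.n 0 (.l 8) (.l 8)))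
    [(310042951680, 28185722880), (94489280512, 94489280512), (274877906944, 274877906944), (700079669248, 4294967296)] rfl (by decide +kernel)
end
mutual
theorem c1_m55_t3 : CovD 0 progs [(310042951680, 28185722880), (94489280512, 94489280512), (274877906944, 274877906944), (712964571136, 8589934592)] :=
  Pool.Agent.helper14.QF.covD_F chks_eq (.n 0 (.n 0 (.n 0 (.n 0 (.n 2 (.n 2 (.l 4) (.l 4)) (.n 0 (.n 1 (.l 4) (.l 4)) (.n 1 (.l 4) (.l 4)))) (.n 2 (.l 4) (.n 1 (.l 4) (.l 4)))) (.n 0 (.n 2 (.l 4) (.l 4)) (.n 1 (.l 4) (.l 8)))) (.n 0 (.n 2 (.l 4) (.l 4)) (.l 8))) (.n 0 (.l 8) (.l 8)))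
    [(310042951680, 28185722880), (94489280512, 94489280512), (274877906944, 274877906944), (712964571136, 8589934592)] rfl (by decide +kernel)
theorem c1_m55_t5 : CovD 0 progs [(310042951680, 28185722880), (94489280512, 94489280512), (274877906944, 274877906944), (738734374912, 17179869184)] :=
  Pool.Agent.helper14.QF.covD_F chks_eq (.n 3 (.n 0 (.n 0 (.n 0 (.n 0 (.n 2 (.l 4) (.n 0 (.l 4) (.l 4))) (.n 2 (.l 4) (.l 4))) (.n 2 (.l 4) (.l 4))) (.n 0 (.n 0 (.l 8) (.l 8)) (.l 8))) (.n 0 (.l 8) (.l 8))) (.n 0 (.n 0 (.n 0 (.n 2 (.l 4) (.n 0 (.l 4) (.l 4))) (.n 0 (.l 8) (.l 8))) (.n 0 (.l 8) (.l 8))) (.n 0 (.l 8) (.l 8))))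
    [(310042951680, 28185722880), (94489280512, 94489280512), (274877906944, 274877906944), (738734374912, 17179869184)] rfl (by decide +kernel)
theorem c1_m55_t7 : CovD 0 progs [(310042951680, 28185722880), (94489280512, 94489280512), (274877906944, 274877906944), (790273982464, 34359738368)] :=
  Pool.Agent.helper14.QF.covD_F chks_eq (.n 3 (.n 3 (.n 0 (.n 0 (.n 0 (.n 1 (.l 4) (.l 8)) (.l 8)) (.l 8)) (.n 0 (.l 8) (.l 9))) (.n 0 (.n 0 (.n 0 (.l 8) (.l 8)) (.l 8)) (.n 0 (.l 8) (.l 9)))) (.n 0 (.n 0 (.n 0 (.n 0 (.l 8) (.l 8)) (.l 8)) (.l 8)) (.n 1 (.l 8) (.l 9))))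
    [(310042951680, 28185722880), (94489280512, 94489280512), (274877906944, 274877906944), (790273982464, 34359738368)] rfl (by decide +kernel)
end
theorem c1_m55_t2 : CovD 0 progs [(310042951680, 28185722880), (94489280512, 94489280512), (274877906944, 274877906944), (695784701952, 8589934592)] :=
  covD_split 3 (by decide +kernel) c1_m55_t0 c1_m55_t1
theorem c1_m55_t4 : CovD 0 progs [(310042951680, 28185722880), (94489280512, 94489280512), (274877906944, 274877906944), (704374636544, 17179869184)] :=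
  covD_split 3 (by decide +kernel) c1_m55_t2 c1_m55_t3
theorem c1_m55_t6 : CovD 0 progs [(310042951680, 28185722880), (94489280512, 94489280512), (274877906944, 274877906944), (721554505728, 34359738368)] :=
  covD_split 3 (by decide +kernel) c1_m55_t4 c1_m55_t5
theorem c1_m55 : CovD 0 progs [(310042951680, 28185722880), (94489280512, 94489280512), (274877906944, 274877906944), (755914244096, 68719476736)] :=
  covD_split 3 (by decide +kernel) c1_m55_t6 c1_m55_t7

end Pool.Agent.helper71.FJ.Crt.QMa
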