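import Pool.Agent.helper71.FJ.Crt.QMbP

/-!
Generated certificates.
-/

namespace Pool.Agent.helper71.FJ.Crt.QMb

open Pool.Agent.helper31.IA (Z Op)
open Pool.Agent.helper31.IC

mutual
theorem c0_m0_t0 : CovD 0 progs [(225485783040, 225485783040), (274877906944, 274877906944), (274877906944, 274877906944), (274877906944, 274877906944)] :=
  Pool.Agent.helper14.QF.covD_F chks_eq (.n 0 (.n 0 (.l 8) (.n 0 (.n 1 (.l 8) (.l 8)) (.n 0 (.l 1) (.l 1)))) (.n 0 (.n 0 (.l 1) (.n 1 (.l 1) (.l 1))) (.n 1 (.l 1) (.n 1 (.l 1) (.n 2 (.l 1) (.n 1 (.l 1) (.l 5)))))))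
    [(225485783040, 225485783040), (274877906944, 274877906944), (274877906944, 274877906944), (274877906944, 274877906944)] rfl (by decide +kernel)
theorem c0_m0_t1 : CovD 0 progs [(112742891520, 112742891520), (824633720832, 274877906944), (274877906944, 274877906944), (274877906944, 274877906944)] :=
  Pool.Agent.helper14.QF.covD_F chks_eq (.n 0 (.l 8) (.n 0 (.n 2 (.l 8) (.l 8)) (.n 0 (.n 1 (.n 2 (.l 1) (.l 1)) (.n 3 (.l 4) (.l 4))) (.n 2 (.l 1) (.n 2 (.l 1) (.l 4))))))
    [(112742891520, 112742891520), (824633720832, 274877906944), (274877906944, 274877906944), (274877906944, 274877906944)] rfl (by decide +kernel)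
end
mutual
theorem c0_m0_t2 : CovD 0 progs [(281857228800, 56371445760), (824633720832, 274877906944), (274877906944, 274877906944), (274877906944, 274877906944)] :=
  Pool.Agent.helper14.QF.covD_F chks_eq (.n 0 (.n 1 (.n 2 (.l 1) (.l 1)) (.n 2 (.l 1) (.n 1 (.l 4) (.n 0 (.l 4) (.l 5))))) (.n 1 (.n 2 (.l 1) (.n 1 (.l 1) (.l 4))) (.n 2 (.l 1) (.n 2 (.l 1) (.n 1 (.l 5) (.n 0 (.l 5) (.l 5)))))))
    [(281857228800, 56371445760), (824633720832, 274877906944), (274877906944, 274877906944), (274877906944, 274877906944)] rfl (by decide +kernel)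
theorem c0_m0_t3 : CovD 0 progs [(366414397440, 28185722880), (824633720832, 274877906944), (274877906944, 274877906944), (274877906944, 274877906944)] :=
  Pool.Agent.helper14.QF.covD_F chks_eq (.n 1 (.n 2 (.l 1) (.n 2 (.l 1) (.n 1 (.l 1) (.l 5)))) (.n 2 (.l 1) (.n 2 (.l 4) (.n 1 (.n 0 (.l 5) (.n 2 (.l 4) (.l 9))) (.n 2 (.l 5) (.l 9))))))
    [(366414397440, 28185722880), (824633720832, 274877906944), (274877906944, 274877906944), (274877906944, 274877906944)] rfl (by decide +kernel)
end
mutual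
theorem c0_m0_t4 : CovD 0 progs [(422785843200, 28185722880), (824633720832, 274877906944), (274877906944, 274877906944), (274877906944, 274877906944)] :=
  Pool.Agent.helper14.QF.covD_F chks_eq (.n 1 (.n 2 (.l 1) (.n 2 (.l 1) (.n 1 (.n 1 (.l 5) (.l 5)) (.n 3 (.l 5) (.n 0 (.l 5) (.n 3 (.l 0) (.l 0))))))) (.n 2 (.l 1) (.n 1 (.n 2 (.l 4) (.n 2 (.l 5) (.l 9))) (.n 2 (.l 5) (.n 2 (.l 9) (.l 9))))))
    [(422785843200, 28185722880), (824633720832, 274877906944), (274877906944, 274877906944), (274877906944, 274877906944)] rfl (by decide +kernel)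
theorem c0_m0_t9 : CovD 0 progs [(225485783040, 225485783040), (274877906944, 274877906944), (274877906944, 274877906944), (824633720832, 274877906944)] :=
  Pool.Agent.helper14.QF.covD_F chks_eq (.n 0 (.n 0 (.n 3 (.n 0 (.l 1) (.l 1)) (.l 1)) (.n 3 (.n 0 (.l 1) (.l 1)) (.l 1))) (.n 0 (.n 1 (.l 1) (.n 0 (.l 1) (.l 1))) (.n 1 (.l 1) (.n 1 (.l 1) (.n 2 (.l 1) (.n 1 (.l 1) (.n 2 (.l 1) (.l 5))))))))
    [(225485783040, 225485783040), (274877906944, 274877906944), (274877906944, 274877906944), (824633720832, 274877906944)] rfl (by decide +kernel)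
end
mutual
theorem c0_m0_t10 : CovD 0 progs [(112742891520, 112742891520), (824633720832, 274877906944), (274877906944, 274877906944), (824633720832, 274877906944)] :=
  Pool.Agent.helper14.QF.covD_F chks_eq (.n 3 (.n 0 (.n 0 (.l 1) (.n 0 (.l 1) (.l 1))) (.n 0 (.n 2 (.l 1) (.l 1)) (.n 1 (.l 1) (.n 2 (.l 1) (.l 4))))) (.n 0 (.n 2 (.l 1) (.l 1)) (.n 0 (.n 2 (.l 1) (.l 4)) (.n 1 (.l 1) (.n 2 (.l 1) (.l 4))))))
    [(112742891520, 112742891520), (824633720832, 274877906944), (274877906944, 274877906944), (824633720832, 274877906944)] rfl (by decide +kernel)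
theorem c0_m0_t11 : CovD 0 progs [(281857228800, 56371445760), (824633720832, 274877906944), (274877906944, 274877906944), (824633720832, 274877906944)] :=
  Pool.Agent.helper14.QF.covD_F chks_eq (.n 0 (.n 1 (.n 1 (.l 1) (.n 2 (.l 1) (.l 1))) (.n 2 (.l 1) (.n 2 (.l 1) (.n 1 (.l 4) (.l 5))))) (.n 1 (.n 2 (.l 1) (.n 1 (.l 1) (.n 1 (.l 4) (.l 5)))) (.n 2 (.l 1) (.n 2 (.l 4) (.n 2 (.l 5) (.n 1 (.l 5) (.n 0 (.l 5) (.n 0 (.l 5) (.l 9)))))))))
    [(281857228800, 56371445760), (824633720832, 274877906944), (274877906944, 274877906944), (824633720832, 274877906944)] rfl (by decide +kernel)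
end
mutual
theorem c0_m0_t12 : CovD 0 progs [(366414397440, 28185722880), (824633720832, 274877906944), (274877906944, 274877906944), (824633720832, 274877906944)] :=
  Pool.Agent.helper14.QF.covD_F chks_eq (.n 1 (.n 2 (.l 1) (.n 2 (.l 1) (.n 0 (.n 1 (.l 1) (.l 5)) (.n 1 (.l 5) (.n 3 (.l 5) (.l 5)))))) (.n 2 (.l 1) (.n 1 (.n 2 (.l 4) (.n 2 (.l 5) (.n 0 (.n 1 (.l 5) (.l 9)) (.l 9)))) (.n 2 (.l 5) (.n 2 (.n 0 (.l 5) (.l 9)) (.l 9))))))
    [(366414397440, 28185722880), (824633720832, 274877906944), (274877906944, 274877906944), (824633720832, 274877906944)] rfl (by decide +kernel)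
theorem c0_m0_t13 : CovD 0 progs [(422785843200, 28185722880), (824633720832, 274877906944), (274877906944, 274877906944), (824633720832, 274877906944)] :=
  Pool.Agent.helper14.QF.covD_F chks_eq (.n 1 (.n 1 (.n 2 (.l 1) (.n 2 (.l 1) (.n 2 (.l 4) (.n 1 (.l 5) (.n 3 (.l 5) (.l 5)))))) (.n 2 (.l 1) (.n 2 (.l 4) (.n 1 (.n 2 (.l 5) (.n 2 (.l 5) (.l 9))) (.n 2 (.l 5) (.n 0 (.l 9) (.l 9))))))) (.n 2 (.l 4) (.n 2 (.n 1 (.l 5) (.n 1 (.l 5) (.l 5))) (.n 1 (.n 2 (.n 2 (.l 5) (.l 9)) (.l 9)) (.n 2 (.l 9) (.l 9))))))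
    [(422785843200, 28185722880), (824633720832, 274877906944), (274877906944, 274877906944), (824633720832, 274877906944)] rfl (by decide +kernel)
end
theorem c0_m0_t5 : CovD 0 progs [(394600120320, 56371445760), (824633720832, 274877906944), (274877906944, 274877906944), (274877906944, 274877906944)] :=
  covD_split 0 (by decide +kernel) c0_m0_t3 c0_m0_t4
theorem c0_m0_t6 : CovD 0 progs [(338228674560, 112742891520), (824633720832, 274877906944), (274877906944, 274877906944), (274877906944, 274877906944)] :=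
  covD_split 0 (by decide +kernel) c0_m0_t2 c0_m0_t5
theorem c0_m0_t7 : CovD 0 progs [(225485783040, 225485783040), (824633720832, 274877906944), (274877906944, 274877906944), (274877906944, 274877906944)] :=
  covD_split 0 (by decide +kernel) c0_m0_t1 c0_m0_t6
theorem c0_m0_t8 : CovD 0 progs [(225485783040, 225485783040), (549755813888, 549755813888), (274877906944, 274877906944), (274877906944, 274877906944)] :=
  covD_split 1 (by decide +kernel) c0_m0_t0 c0_m0_t7
theorem c0_m0_t14 : CovD 0 progs [(394600120320, 56371445760), (824633720832, 274877906944), (274877906944, 274877906944), (824633720832, 274877906944)] :=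
  covD_split 0 (by decide +kernel) c0_m0_t12 c0_m0_t13
theorem c0_m0_t15 : CovD 0 progs [(338228674560, 112742891520), (824633720832, 274877906944), (274877906944, 274877906944), (824633720832, 274877906944)] :=
  covD_split 0 (by decide +kernel) c0_m0_t11 c0_m0_t14
theorem c0_m0_t16 : CovD 0 progs [(225485783040, 225485783040), (824633720832, 274877906944), (274877906944, 274877906944), (824633720832, 274877906944)] :=
  covD_split 0 (by decide +kernel) c0_m0_t10 c0_m0_t15
theorem c0_m0_t17 : CovD 0 progs [(225485783040, 225485783040), (549755813888, 549755813888), (274877906944, 274877906944), (824633720832, 274877906944)] :=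
  covD_split 1 (by decide +kernel) c0_m0_t9 c0_m0_t16
theorem c0_m0 : CovD 0 progs [(225485783040, 225485783040), (549755813888, 549755813888), (274877906944, 274877906944), (549755813888, 549755813888)] :=
  covD_split 3 (by decide +kernel) c0_m0_t8 c0_m0_t17

end Pool.Agent.helper71.FJ.Crt.QMb
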