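import Pool.Agent.helper71.FJ.Crt.XHIIIP

/-!
Generated certificates.
-/

namespace Pool.Agent.helper71.FJ.Crt.XHIII

open Pool.Agent.helper31.IA (Z Op)
open Pool.Agent.helper31.IC

mutual
theorem c0_m1_t0 : CovD 0 progs [(336081190912, 336081190912), (274877906944, 274877906944), (274877906944, 274877906944), (687194767360, 137438953472)] :=
  Pool.Agent.helper14.QF.covD_F chks_eq (.n 1 (.l 1) (.n 1 (.n 0 (.l 0) (.l 0)) (.n 2 (.l 0) (.n 2 (.l 0) (.n 1 (.n 0 (.l 0) (.l 0)) (.l 5))))))
    [(336081190912, 336081190912), (274877906944, 274877906944), (274877906944, 274877906944), (687194767360, 137438953472)] rfl (by decide +kernel)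
theorem c0_m1_t1 : CovD 0 progs [(1008243572736, 336081190912), (274877906944, 274877906944), (274877906944, 274877906944), (687194767360, 137438953472)] :=
  Pool.Agent.helper14.QF.covD_F chks_eq (.n 1 (.n 0 (.l 2) (.n 0 (.l 2) (.l 7))) (.n 1 (.n 2 (.l 2) (.n 3 (.n 1 (.l 2) (.n 2 (.l 1) (.n 2 (.l 2) (.n 1 (.l 2) (.l 5))))) (.n 0 (.n 0 (.l 0) (.l 0)) (.l 7)))) (.n 2 (.l 2) (.n 1 (.n 2 (.n 0 (.l 1) (.l 2)) (.n 1 (.n 2 (.n 0 (.l 2) (.l 2)) (.l 5)) (.l 5))) (.n 2 (.n 0 (.n 0 (.l 0) (.l 0)) (.n 0 (.l 2) (.l 2))) (.l 5))))))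
    [(1008243572736, 336081190912), (274877906944, 274877906944), (274877906944, 274877906944), (687194767360, 137438953472)] rfl (by decide +kernel)
end
mutual
theorem c0_m1_t3 : CovD 0 progs [(672162381824, 672162381824), (274877906944, 274877906944), (274877906944, 274877906944), (962072674304, 137438953472)] :=
  Pool.Agent.helper14.QF.covD_F chks_eq (.n 0 (.n 1 (.l 0) (.n 2 (.l 0) (.n 1 (.l 0) (.n 1 (.n 0 (.l 0) (.l 0)) (.n 2 (.l 0) (.l 5)))))) (.n 0 (.n 0 (.n 1 (.l 0) (.n 1 (.l 0) (.n 2 (.l 0) (.n 1 (.l 0) (.n 2 (.l 0) (.l 5)))))) (.l 7)) (.l 7)))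
    [(672162381824, 672162381824), (274877906944, 274877906944), (274877906944, 274877906944), (962072674304, 137438953472)] rfl (by decide +kernel)
theorem c0_m1_t5 : CovD 0 progs [(672162381824, 672162381824), (618475290624, 68719476736), (274877906944, 274877906944), (824633720832, 274877906944)] :=
  Pool.Agent.helper14.QF.covD_F chks_eq (.n 1 (.n 2 (.n 0 (.l 0) (.n 0 (.l 1) (.l 2))) (.n 2 (.n 2 (.n 0 (.l 0) (.n 0 (.n 0 (.l 0) (.l 1)) (.n 0 (.l 2) (.l 2)))) (.l 5)) (.l 5))) (.n 2 (.n 0 (.l 1) (.n 0 (.l 1) (.n 3 (.l 1) (.l 0)))) (.n 2 (.n 2 (.n 1 (.n 0 (.l 0) (.n 2 (.n 0 (.l 1) (.l 1)) (.l 5))) (.l 5)) (.l 5)) (.l 5))))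
    [(672162381824, 672162381824), (618475290624, 68719476736), (274877906944, 274877906944), (824633720832, 274877906944)] rfl (by decide +kernel)
end
mutual
theorem c0_m1_t6 : CovD 0 progs [(672162381824, 672162381824), (755914244096, 68719476736), (274877906944, 274877906944), (824633720832, 274877906944)] :=
  Pool.Agent.helper14.QF.covD_F chks_eq (.n 2 (.n 0 (.n 0 (.l 0) (.n 3 (.l 0) (.l 0))) (.n 2 (.l 6) (.n 0 (.n 1 (.l 1) (.n 3 (.l 0) (.l 0))) (.n 2 (.l 4) (.n 3 (.n 0 (.l 1) (.l 4)) (.l 3)))))) (.n 2 (.n 1 (.n 2 (.l 5) (.l 5)) (.l 5)) (.l 5)))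
    [(672162381824, 672162381824), (755914244096, 68719476736), (274877906944, 274877906944), (824633720832, 274877906944)] rfl (by decide +kernel)
theorem c0_m1_t8 : CovD 0 progs [(672162381824, 672162381824), (893353197568, 68719476736), (274877906944, 274877906944), (824633720832, 274877906944)] :=
  Pool.Agent.helper14.QF.covD_F chks_eq (.n 2 (.n 0 (.n 0 (.n 3 (.l 0) (.l 0)) (.n 2 (.l 0) (.n 3 (.l 0) (.l 0)))) (.n 0 (.n 2 (.l 0) (.n 0 (.n 3 (.l 0) (.l 0)) (.n 2 (.l 3) (.n 1 (.l 3) (.l 5))))) (.n 2 (.l 4) (.n 1 (.n 3 (.n 0 (.l 3) (.l 7)) (.l 7)) (.n 2 (.l 4) (.l 5)))))) (.n 2 (.l 5) (.l 5)))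
    [(672162381824, 672162381824), (893353197568, 68719476736), (274877906944, 274877906944), (824633720832, 274877906944)] rfl (by decide +kernel)
end
mutual
theorem c0_m1_t9 : CovD 0 progs [(672162381824, 672162381824), (1030792151040, 68719476736), (274877906944, 274877906944), (824633720832, 274877906944)] :=
  Pool.Agent.helper14.QF.covD_F chks_eq (.n 2 (.n 2 (.n 0 (.n 0 (.l 0) (.l 0)) (.n 2 (.l 6) (.n 0 (.l 1) (.l 4)))) (.n 2 (.n 0 (.n 0 (.l 0) (.n 0 (.l 0) (.l 0))) (.n 0 (.n 3 (.l 0) (.l 0)) (.n 3 (.n 0 (.l 3) (.l 4)) (.l 7)))) (.l 5))) (.n 2 (.l 5) (.l 5)))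
    [(672162381824, 672162381824), (1030792151040, 68719476736), (274877906944, 274877906944), (824633720832, 274877906944)] rfl (by decide +kernel)
theorem c0_m1_t13 : CovD 0 progs [(2016487145472, 672162381824), (549755813888, 549755813888), (274877906944, 274877906944), (824633720832, 274877906944)] :=
  Pool.Agent.helper14.QF.covD_F chks_eq (.n 0 (.n 0 (.n 0 (.l 7) (.l 7)) (.l 7)) (.l 7))
    [(2016487145472, 672162381824), (549755813888, 549755813888), (274877906944, 274877906944), (824633720832, 274877906944)] rfl (by decide +kernel)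
end
theorem c0_m1_t2 : CovD 0 progs [(672162381824, 672162381824), (274877906944, 274877906944), (274877906944, 274877906944), (687194767360, 137438953472)] :=
  covD_split 0 (by decide +kernel) c0_m1_t0 c0_m1_t1
theorem c0_m1_t4 : CovD 0 progs [(672162381824, 672162381824), (274877906944, 274877906944), (274877906944, 274877906944), (824633720832, 274877906944)] :=
  covD_split 3 (by decide +kernel) c0_m1_t2 c0_m1_t3
theorem c0_m1_t7 : CovD 0 progs [(672162381824, 672162381824), (687194767360, 137438953472), (274877906944, 274877906944), (824633720832, 274877906944)] :=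
  covD_split 1 (by decide +kernel) c0_m1_t5 c0_m1_t6
theorem c0_m1_t10 : CovD 0 progs [(672162381824, 672162381824), (962072674304, 137438953472), (274877906944, 274877906944), (824633720832, 274877906944)] :=
  covD_split 1 (by decide +kernel) c0_m1_t8 c0_m1_t9
theorem c0_m1_t11 : CovD 0 progs [(672162381824, 672162381824), (824633720832, 274877906944), (274877906944, 274877906944), (824633720832, 274877906944)] :=
  covD_split 1 (by decide +kernel) c0_m1_t7 c0_m1_t10
theorem c0_m1_t12 : CovD 0 progs [(672162381824, 672162381824), (549755813888, 549755813888), (274877906944, 274877906944), (824633720832, 274877906944)] :=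
  covD_split 1 (by decide +kernel) c0_m1_t4 c0_m1_t11
theorem c0_m1 : CovD 0 progs [(1344324763648, 1344324763648), (549755813888, 549755813888), (274877906944, 274877906944), (824633720832, 274877906944)] :=
  covD_split 0 (by decide +kernel) c0_m1_t12 c0_m1_t13

end Pool.Agent.helper71.FJ.Crt.XHIII
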