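import Pool.Agent.helper71.FJ.Crt.XHIP

/-!
Generated certificates.
-/

namespace Pool.Agent.helper71.FJ.Crt.XHI

open Pool.Agent.helper31.IA (Z Op)
open Pool.Agent.helper31.IC

mutual
theorem c0_m0_t0 : CovD 0 progs [(283467841536, 283467841536), (549755813888, 549755813888), (132808441856, 22884122624), (549755813888, 549755813888)] :=
  Pool.Agent.helper14.QF.covD_F chks_eq (.n 1 (.n 1 (.l 1) (.n 3 (.l 1) (.l 0))) (.n 0 (.n 3 (.n 3 (.l 1) (.l 0)) (.l 0)) (.n 3 (.n 1 (.l 4) (.n 0 (.l 4) (.l 4))) (.l 0))))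
    [(283467841536, 283467841536), (549755813888, 549755813888), (132808441856, 22884122624), (549755813888, 549755813888)] rfl (by decide +kernel)
theorem c0_m0_t1 : CovD 0 progs [(283467841536, 283467841536), (1649267441664, 549755813888), (132808441856, 22884122624), (549755813888, 549755813888)] :=
  Pool.Agent.helper14.QF.covD_F chks_eq (.n 0 (.n 1 (.n 3 (.n 3 (.l 1) (.n 0 (.l 0) (.n 3 (.l 1) (.l 0)))) (.l 0)) (.n 3 (.n 1 (.l 1) (.l 1)) (.l 0))) (.n 1 (.n 3 (.n 1 (.n 0 (.l 4) (.l 4)) (.l 4)) (.n 0 (.l 0) (.n 1 (.n 0 (.l 0) (.l 4)) (.l 4)))) (.n 1 (.n 3 (.l 4) (.n 3 (.l 4) (.l 0))) (.n 0 (.n 3 (.l 1) (.l 4)) (.n 3 (.l 3) (.l 4))))))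
    [(283467841536, 283467841536), (1649267441664, 549755813888), (132808441856, 22884122624), (549755813888, 549755813888)] rfl (by decide +kernel)
end
mutual
theorem c0_m0_t3 : CovD 0 progs [(850403524608, 283467841536), (549755813888, 549755813888), (132808441856, 22884122624), (274877906944, 274877906944)] :=
  Pool.Agent.helper14.QF.covD_F chks_eq (.n 1 (.l 3) (.n 1 (.l 4) (.n 0 (.l 4) (.l 4))))
    [(850403524608, 283467841536), (549755813888, 549755813888), (132808441856, 22884122624), (274877906944, 274877906944)] rfl (by decide +kernel)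
theorem c0_m0_t4 : CovD 0 progs [(708669603840, 141733920768), (1649267441664, 549755813888), (132808441856, 22884122624), (274877906944, 274877906944)] :=
  Pool.Agent.helper14.QF.covD_F chks_eq (.n 1 (.n 1 (.l 4) (.n 0 (.l 3) (.l 4))) (.n 0 (.n 1 (.l 3) (.n 0 (.l 3) (.l 3))) (.n 1 (.n 1 (.l 3) (.l 3)) (.n 2 (.l 3) (.n 3 (.l 2) (.l 3))))))
    [(708669603840, 141733920768), (1649267441664, 549755813888), (132808441856, 22884122624), (274877906944, 274877906944)] rfl (by decide +kernel)
end
mutual
theorem c0_m0_t5 : CovD 0 progs [(921270484992, 70866960384), (1649267441664, 549755813888), (132808441856, 22884122624), (274877906944, 274877906944)] :=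
  Pool.Agent.helper14.QF.covD_F chks_eq (.n 1 (.n 1 (.l 4) (.n 1 (.l 3) (.l 3))) (.n 1 (.n 3 (.l 3) (.n 0 (.l 3) (.l 3))) (.n 2 (.n 3 (.l 2) (.l 3)) (.n 0 (.n 3 (.l 2) (.l 3)) (.n 3 (.l 2) (.l 4))))))
    [(921270484992, 70866960384), (1649267441664, 549755813888), (132808441856, 22884122624), (274877906944, 274877906944)] rfl (by decide +kernel)
theorem c0_m0_t6 : CovD 0 progs [(1063004405760, 70866960384), (1649267441664, 549755813888), (132808441856, 22884122624), (137438953472, 137438953472)] :=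
  Pool.Agent.helper14.QF.covD_F chks_eq (.n 1 (.n 1 (.l 2) (.l 3)) (.n 1 (.n 1 (.l 3) (.n 0 (.l 2) (.l 3))) (.n 0 (.n 1 (.l 3) (.n 0 (.l 2) (.l 3))) (.n 1 (.n 0 (.l 2) (.l 3)) (.n 2 (.l 2) (.l 3))))))
    [(1063004405760, 70866960384), (1649267441664, 549755813888), (132808441856, 22884122624), (137438953472, 137438953472)] rfl (by decide +kernel)
end
mutual
theorem c0_m0_t7 : CovD 0 progs [(1063004405760, 70866960384), (1649267441664, 549755813888), (132808441856, 22884122624), (412316860416, 137438953472)] :=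
  Pool.Agent.helper14.QF.covD_F chks_eq (.n 1 (.n 1 (.l 3) (.n 1 (.l 3) (.l 3))) (.n 1 (.n 1 (.n 0 (.l 3) (.l 3)) (.n 2 (.l 2) (.l 3))) (.n 3 (.n 0 (.n 1 (.l 2) (.l 3)) (.n 1 (.l 3) (.n 0 (.l 3) (.l 3)))) (.l 7))))
    [(1063004405760, 70866960384), (1649267441664, 549755813888), (132808441856, 22884122624), (412316860416, 137438953472)] rfl (by decide +kernel)
theorem c0_m0_t12 : CovD 0 progs [(850403524608, 283467841536), (1099511627776, 1099511627776), (132808441856, 22884122624), (687194767360, 137438953472)] :=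
  Pool.Agent.helper14.QF.covD_F chks_eq (.n 1 (.n 1 (.l 4) (.n 1 (.l 4) (.n 0 (.l 4) (.l 3)))) (.n 0 (.n 1 (.n 1 (.l 4) (.l 4)) (.n 0 (.n 0 (.l 4) (.l 4)) (.n 1 (.l 3) (.n 0 (.l 3) (.l 3))))) (.n 0 (.n 1 (.n 1 (.l 3) (.l 3)) (.n 0 (.l 7) (.l 7))) (.n 1 (.n 1 (.l 3) (.n 0 (.l 3) (.l 3))) (.l 7)))))
    [(850403524608, 283467841536), (1099511627776, 1099511627776), (132808441856, 22884122624), (687194767360, 137438953472)] rfl (by decide +kernel)
theorem c0_m0_t13 : CovD 0 progs [(850403524608, 283467841536), (1099511627776, 1099511627776), (132808441856, 22884122624), (962072674304, 137438953472)] :=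
  Pool.Agent.helper14.QF.covD_F chks_eq (.n 1 (.n 1 (.l 0) (.n 0 (.l 0) (.n 1 (.l 0) (.l 4)))) (.n 0 (.n 1 (.n 1 (.l 4) (.l 4)) (.n 1 (.l 4) (.l 7))) (.n 1 (.n 1 (.l 4) (.l 7)) (.l 7))))
    [(850403524608, 283467841536), (1099511627776, 1099511627776), (132808441856, 22884122624), (962072674304, 137438953472)] rfl (by decide +kernel)
end
theorem c0_m0_t2 : CovD 0 progs [(283467841536, 283467841536), (1099511627776, 1099511627776), (132808441856, 22884122624), (549755813888, 549755813888)] :=
  covD_split 1 (by decide +kernel) c0_m0_t0 c0_m0_t1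
theorem c0_m0_t8 : CovD 0 progs [(1063004405760, 70866960384), (1649267441664, 549755813888), (132808441856, 22884122624), (274877906944, 274877906944)] :=
  covD_split 3 (by decide +kernel) c0_m0_t6 c0_m0_t7
theorem c0_m0_t9 : CovD 0 progs [(992137445376, 141733920768), (1649267441664, 549755813888), (132808441856, 22884122624), (274877906944, 274877906944)] :=
  covD_split 0 (by decide +kernel) c0_m0_t5 c0_m0_t8
theorem c0_m0_t10 : CovD 0 progs [(850403524608, 283467841536), (1649267441664, 549755813888), (132808441856, 22884122624), (274877906944, 274877906944)] :=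
  covD_split 0 (by decide +kernel) c0_m0_t4 c0_m0_t9
theorem c0_m0_t11 : CovD 0 progs [(850403524608, 283467841536), (1099511627776, 1099511627776), (132808441856, 22884122624), (274877906944, 274877906944)] :=
  covD_split 1 (by decide +kernel) c0_m0_t3 c0_m0_t10
theorem c0_m0_t14 : CovD 0 progs [(850403524608, 283467841536), (1099511627776, 1099511627776), (132808441856, 22884122624), (824633720832, 274877906944)] :=
  covD_split 3 (by decide +kernel) c0_m0_t12 c0_m0_t13
theorem c0_m0_t15 : CovD 0 progs [(850403524608, 283467841536), (1099511627776, 1099511627776), (132808441856, 22884122624), (549755813888, 549755813888)] :=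
  covD_split 3 (by decide +kernel) c0_m0_t11 c0_m0_t14
theorem c0_m0 : CovD 0 progs [(566935683072, 566935683072), (1099511627776, 1099511627776), (132808441856, 22884122624), (549755813888, 549755813888)] :=
  covD_split 0 (by decide +kernel) c0_m0_t2 c0_m0_t15

end Pool.Agent.helper71.FJ.Crt.XHI
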