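import Pool.Agent.helper31.IC.EngD
import Pool.Agent.helper14.QF.Inst

/-!
Generated: straight line program(s) and compiled form(s).
-/

namespace Pool.Agent.helper71.FJ.Crt.XMb

open Pool.Agent.helper31.IA (Z Op)
open Pool.Agent.helper31.IC

set_option maxRecDepth 100000

abbrev opsE : Ops := Pool.Agent.helper14.QF.opsF

def prog0 : List Op := [
  .const ⟨1099511627776, 0, 0, 0⟩,
  .mul 2 1,
  .mul 4 4,
  .mul 4 0,
  .mul 5 6,
  .mul 0 5,
  .mul 0 0,
  .mul 3 8,
  .const ⟨549755813888, 0, 0, 0⟩,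
  .mul 5 7,
  .mul 0 13,
  .scale ⟨549755813888, 0, 0, 0⟩ 0,
  .mul 10 10,
  .mul 1 1,
  .sub 13 0,
  .inv 0,
  .mul 4 0,
  .scale ⟨2199023255552, 0, 0, 0⟩ 0,
  .scale ⟨2199023255552, 0, 0, 0⟩ 2,
  .sub 0 18,
  .add 0 2,
  .mul 24 5,
  .mul 20 0,
  .sub 22 0,
  .add 23 1,
  .mul 21 12,
  .mul 4 4,
  .scale ⟨10774999203840, 0, 0, 0⟩ 15,
  .scale ⟨45768245248, 0, 0, 0⟩ 0,
  .const ⟨183207198720, 0, 0, 0⟩,
  .add 1 0,
  .mul 3 0,
  .add 23 0,
  .mul 5 0,
  .add 33 0,
  .mul 7 0,
  .scale ⟨549755813888, 0, 0, 0⟩ 0,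
  .add 36 0,
  .mul 3 0,
  .mul 21 16,
  .scale ⟨2199023255552, 0, 0, 0⟩ 20,
  .add 1 0,
  .add 0 38,
  .mul 17 0,
  .add 0 43,
  .mul 27 27,
  .scale ⟨2199023255552, 0, 0, 0⟩ 0,
  .add 0 46,
  .mul 28 5,
  .sub 0 48,
  .log 5,
  .scale ⟨549755813888, 0, 0, 0⟩ 0,
  .exp 0,
  .const ⟨3298534883328, 0, 0, 0⟩,
  .inv 0,
  .mul 54 0,
  .const ⟨2199023255552, 0, 0, 0⟩,
  .add 13 0,
  .inv 0,
  .mul 15 0,
  .mul 0 0,
  .sub 60 1,
  .mul 1 6,
  .add 62 0,
  .mul 2 0,
  .mul 4 4,
  .scale ⟨219915747328, 0, 0, 0⟩ 0,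
  .mul 24 2,
  .scale ⟨549755813888, 0, 0, 0⟩ 0,
  .mul 26 2,
  .scale ⟨549755813888, 0, 0, 0⟩ 0,
  .add 2 0,
  .mul 52 22,
  .scale ⟨4398046511104, 0, 0, 0⟩ 0,
  .mul 54 48,
  .mul 0 25,
  .scale ⟨4398046511104, 0, 0, 0⟩ 0,
  .add 0 20,
  .inv 0,
  .mul 2 0,
  .mul 0 0,
  .sub 80 1,
  .mul 1 26,
  .add 82 0,
  .mul 2 0,
  .mul 4 4,
  .scale ⟨219915747328, 0, 0, 0⟩ 0,
  .mul 13 2,
  .scale ⟨549755813888, 0, 0, 0⟩ 0,
  .sub 0 17,
  .mul 16 3,
  .scale ⟨549755813888, 0, 0, 0⟩ 0,
  .add 0 21,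
  .add 3 0,
  .mul 95 25,
  .neg 0,
  .exp 0,
  .mul 98 26,
  .mul 1 0,
  .mul 76 81,
  .add 80 0,
  .inv 0,
  .mul 77 0,
  .mul 79 99,
  .mul 0 1,
  .sub 104 92,
  .mul 79 0,
  .mul 97 97,
  .sub 107 81,
  .mul 3 0,
  .mul 84 60,
  .inv 66,
  .mul 1 0,
  .add 93 0,
  .mul 69 0,
  .mul 0 0,
  .inv 0,
  .mul 7 0,
  .mul 13 117,
  .scale ⟨549755813888, 0, 0, 0⟩ 0,
  .sub 119 0,
  .sub 120 2,
  .inv 0,
  .mul 2 0,
  .add 5 123,
  .mul 28 0,
  .mul 23 2,
  .mul 0 126,
  .mul 9 4,
  .pos 7,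
  .mul 105 104,
  .add 110 126,
  .mul 108 111,
  .mul 0 114,
  .scale ⟨2199023255552, 0, 0, 0⟩ 0,
  .add 86 0,
  .mul 4 0,
  .inv 0,
  .mul 7 0,
  .mul 134 0,
  .pos 49,
  .mul 0 138,
  .mul 139 140,
  .add 129 140,
  .inv 0,
  .mul 131 0,
  .scale ⟨2199023255552, 0, 0, 0⟩ 0,
  .sub 144 0,
  .sub 145 134,
  .mul 150 4,
  .mul 0 2,
  .add 124 0,
  .scale ⟨224412041216, 0, 0, 0⟩ 134,
  .inv 112,
  .mul 1 0,
  .scale ⟨5497558138880, 0, 0, 0⟩ 153,
  .inv 0,
  .mul 154 0,
  .mul 156 1,
  .mul 0 132,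
  .mul 0 5,
  .mul 3 134,
  .mul 0 7,
  .sub 160 0,
  .inv 0,
  .mul 37 2,
  .sub 163 0,
  .inv 0,
  .scale ⟨2199023255552, 0, 0, 0⟩ 159,
  .add 0 166,
  .add 161 167,
  .scale ⟨3573412790272, 0, 0, 0⟩ 146,
  .const ⟨339302416384, 0, 0, 0⟩,
  .add 1 0,
  .scale ⟨549755813888, 0, 0, 0⟩ 0,
  .mul 161 151,
  .sub 173 67,
  .mul 163 152,
  .scale ⟨2199023255552, 0, 0, 0⟩ 0,
  .sub 2 0,
  .mul 4 4,
  .add 1 0,
  .add 0 179,
  .scale ⟨549755813888, 0, 0, 0⟩ 0,
  .scale ⟨549755813888, 0, 0, 0⟩ 156,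
  .sub 167 0,
  .mul 76 9,
  .mul 0 170,
  .scale ⟨137438953472, 0, 0, 0⟩ 0,
  .add 3 0,
  .mul 6 0,
  .add 63 188,
  .mul 0 27,
  .mul 65 25,
  .add 1 0,
  .mul 32 0,
  .add 65 0,
  .mul 0 188,
  .mul 6 35,
  .mul 0 34,
  .add 69 0,
  .mul 0 192,
  .scale ⟨223338299392, 0, 0, 0⟩ 0,
  .add 192 0,
  .mul 2 0,
  .add 202 0,
  .scale ⟨893353197568, 0, 0, 0⟩ 8,
  .add 204 0,
  .mul 10 0,
  .add 206 0,
  .mul 63 60,
  .mul 0 41,
  .mul 0 2,
  .mul 22 7,
  .add 159 203,
  .mul 2 0,
  .add 2 0,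
  .add 162 214,
  .mul 5 0,
  .mul 48 1,
  .mul 0 70,
  .mul 0 72,
  .mul 5 92,
  .mul 1 48,
  .add 1 0,
  .mul 224 73,
  .inv 171,
  .mul 1 0,
  .scale ⟨549755813888, 0, 0, 0⟩ 0,
  .mul 203 0,
  .add 0 5,
  .mul 225 0,
  .mul 230 0,
  .mul 16 41,
  .mul 0 69,
  .mul 16 107,
  .mul 0 68,
  .add 2 0,
  .mul 212 5,
  .mul 78 1,
  .add 1 0,
  .mul 131 0,
  .mul 0 15,
  .sub 240 0,
  .inv 0,
  .mul 4 0,
  .mul 240 0,
  .mul 137 1,
  .mul 0 21,
  .sub 246 0,
  .mul 198 0,
  .sub 0 4,
  .inv 0,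
  .mul 6 0,
  .sub 199 6,
  .inv 0,
  .mul 2 253,
  .scale ⟨549755813888, 0, 0, 0⟩ 0,
  .sub 255 0,
  .sub 256 2,
  .inv 0,
  .mul 2 0,
  .mul 258 6,
  .mul 120 10,
  .mul 0 2,
  .add 2 0,
  .mul 256 20,
  .mul 11 0,
  .mul 265 15,
  .mul 0 7,
  .mul 0 23,
  .add 3 0,
  .scale ⟨223338299392, 0, 0, 0⟩ 0,
  .add 262 0,
  .mul 2 0,
  .add 272 0,
  .mul 10 0,
  .mul 0 32,
  .mul 0 40,
  .mul 117 253,
  .const ⟨5497558138880, 0, 0, 0⟩,
  .inv 0,
  .mul 226 0,
  .mul 139 256,
  .mul 0 1,
  .mul 152 181,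
  .mul 261 0,
  .scale ⟨549755813888, 0, 0, 0⟩ 145,
  .sub 285 0,
  .sub 286 147,
  .inv 0,
  .mul 2 0,
  .mul 0 151,
  .mul 183 173,
  .scale ⟨733097230336, 0, 0, 0⟩ 0,
  .sub 292 0,
  .mul 176 0,
  .mul 205 205,
  .mul 283 0,
  .add 2 0,
  .mul 7 157,
  .add 1 298,
  .mul 1 0,
  .sub 3 0,
  .scale ⟨366548615168, 0, 0, 0⟩ 256,
  .sub 302 0,
  .mul 277 0,
  .add 3 0,
  .mul 22 0,
  .mul 22 22,
  .add 307 0,
  .inv 0,
  .mul 3 0,
  .sub 310 59,
  .mul 0 1,
  .sub 312 14,
  .pos 0,
  .pos 3,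
  .pos 2,
  .mul 38 160,
  .mul 0 86,
  .inv 291,
  .mul 1 0,
  .mul 319 5,
  .scale ⟨549755813888, 0, 0, 0⟩ 0,
  .sub 319 0,
  .mul 8 0,
  .neg 0,
  .mul 321 326,
  .mul 0 182,
  .mul 0 309,
  .mul 323 0,
  .add 4 0,
  .mul 5 1,
  .mul 330 0,
  .add 2 0,
  .mul 318 288,
  .scale ⟨412316860416, 0, 0, 0⟩ 288,
  .sub 324 0,
  .mul 2 0,
  .mul 332 0,
  .neg 0,
  .add 6 0,
  .mul 7 1,
  .mul 340 0,
  .add 2 0,
  .mul 339 97,
  .mul 0 25,
  .mul 340 0,
  .add 3 0,
  .mul 4 1,
  .mul 347 0,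
  .add 2 0,
  .mul 345 65,
  .sub 1 0,
  .mul 346 67,
  .add 350 0,
  .inv 0,
  .mul 3 0,
  .mul 352 344,
  .mul 0 111,
  .mul 0 102,
  .mul 354 0,
  .add 4 0,
  .mul 5 1,
  .mul 361 0,
  .add 2 0,
  .mul 363 0,
  .add 362 0,
  .mul 87 203,
  .mul 361 87,
  .mul 48 0,
  .add 2 0,
  .mul 365 0,
  .add 92 51,
  .mul 367 0,
  .mul 2 7,
  .add 10 0,
  .add 0 2,
  .neg 0,
  .scale ⟨1073741824, 0, 0, 0⟩ 372,
  .sub 1 0,
  .sub 356 376,
  .add 0 321,
  .scale ⟨2199023255552, 0, 0, 0⟩ 98,
  .sub 1 0,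
  .mul 239 0,
  .mul 4 2,
  .add 0 382,
  .inv 0,
  .mul 3 0,
  .mul 229 150,
  .scale ⟨549755813888, 0, 0, 0⟩ 234,
  .add 370 0,
  .mul 2 0,
  .scale ⟨2199023255552, 0, 0, 0⟩ 0,
  .add 160 0,
  .scale ⟨2199023255552, 0, 0, 0⟩ 0,
  .mul 0 150,
  .mul 384 150,
  .sub 370 0,
  .inv 0,
  .mul 3 0,
  .sub 12 0,
  .mul 398 377,
  .mul 0 0,
  .const ⟨14293651161088, 0, 0, 0⟩,
  .const ⟨10995116277760, 0, 0, 0⟩,
  .inv 0,
  .mul 2 0,
  .mul 4 0,
  .mul 406 406,
  .scale ⟨27487790694400, 0, 0, 0⟩ 0,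
  .add 2 0,
  .mul 126 56,
  .sub 369 406,
  .sub 0 371,
  .mul 411 410,
  .mul 0 413,
  .mul 389 178,
  .mul 0 260,
  .add 193 0,
  .add 22 360,
  .mul 417 0,
  .mul 10 9,
  .mul 177 1,
  .mul 7 4,
  .mul 1 0,
  .sub 3 0,
  .scale ⟨549755813888, 0, 0, 0⟩ 29,
  .add 424 0,
  .mul 183 0,
  .mul 423 403,
  .mul 0 278,
  .mul 404 376,
  .inv 0,
  .mul 2 0,
  .mul 5 0,
  .sub 21 0,
  .mul 281 10,
  .sub 434 282,
  .mul 423 2,
  .mul 1 0,
  .mul 29 0,
  .add 4 0,
  .pos 278,
  .pos 275,
  .scale ⟨2199023255552, 0, 0, 0⟩ 200,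
  .sub 388 0,
  .pos 0,
  .pos 192,
  .sub 433 302,
  .pos 0,
  .scale ⟨687194767360, 0, 0, 0⟩ 442,
  .sub 0 244,
  .pos 0,
  .scale ⟨377957122048, 0, 0, 0⟩ 444,
  .sub 0 250,
  .pos 0,
  .pos 51,
  .pos 189,
  .sub 3 177,
  .pos 0,
  .pos 49,
  .pos 71,
  .pos 8,
  .pos 14]

def chk0 {α : Type} (cst : Z → α) (add sub mul : α → α → α) (scale : Z → α → α)
    (neg inv exp log : α → α) (ok : α → Bool) (isPos : Nat → α → Bool) (isLt : α → Nat → Bool) :
    List α → Bool
  | [x0, x1, x2, x3] =>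
  let v0 := cst ⟨1099511627776, 0, 0, 0⟩; ok v0 && (
  let v1 := mul x1 x0; ok v1 && (
  let v2 := mul x2 x2; ok v2 && (
  let v3 := mul x1 v2; ok v3 && (
  let v4 := mul x1 x2; ok v4 && (
  let v5 := mul v4 x0; ok v5 && (
  let v6 := mul v5 v5; ok v6 && (
  let v7 := mul v3 x1; ok v7 && (
  let v8 := cst ⟨549755813888, 0, 0, 0⟩; ok v8 && (
  let v9 := mul v3 v1; ok v9 && (
  let v10 := mul v9 x3; ok v10 && (
  let v11 := scale ⟨549755813888, 0, 0, 0⟩ v10; ok v11 && (
  let v12 := mul v1 v1; ok v12 && (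
  let v13 := mul v11 v11; ok v13 && (
  let v14 := sub v0 v13; ok v14 && (
  let v15 := inv v14; ok v15 && (
  let v16 := mul v11 v15; ok v16 && (
  let v17 := scale ⟨2199023255552, 0, 0, 0⟩ v16; ok v17 && (
  let v18 := scale ⟨2199023255552, 0, 0, 0⟩ v15; ok v18 && (
  let v19 := sub v18 v0; ok v19 && (
  let v20 := add v19 v17; ok v20 && (
  let v21 := mul x3 v15; ok v21 && (
  let v22 := mul v1 v21; ok v22 && (
  let v23 := sub v0 v22; ok v23 && (
  let v24 := add v0 v22; ok v24 && (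
  let v25 := mul v3 v12; ok v25 && (
  let v26 := mul v21 v21; ok v26 && (
  let v27 := scale ⟨10774999203840, 0, 0, 0⟩ v11; ok v27 && (
  let v28 := scale ⟨45768245248, 0, 0, 0⟩ v27; ok v28 && (
  let v29 := cst ⟨183207198720, 0, 0, 0⟩; ok v29 && (
  let v30 := add v28 v29; ok v30 && (
  let v31 := mul v27 v30; ok v31 && (
  let v32 := add v8 v31; ok v32 && (
  let v33 := mul v27 v32; ok v33 && (
  let v34 := add v0 v33; ok v34 && (
  let v35 := mul v27 v34; ok v35 && (
  let v36 := scale ⟨549755813888, 0, 0, 0⟩ v35; ok v36 && (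
  let v37 := add v0 v36; ok v37 && (
  let v38 := mul v34 v37; ok v38 && (
  let v39 := mul v17 v22; ok v39 && (
  let v40 := scale ⟨2199023255552, 0, 0, 0⟩ v19; ok v40 && (
  let v41 := add v39 v40; ok v41 && (
  let v42 := add v41 v3; ok v42 && (
  let v43 := mul v25 v42; ok v43 && (
  let v44 := add v43 v0; ok v44 && (
  let v45 := mul v17 v17; ok v45 && (
  let v46 := scale ⟨2199023255552, 0, 0, 0⟩ v45; ok v46 && (
  let v47 := add v46 v0; ok v47 && (
  let v48 := mul v19 v42; ok v48 && (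
  let v49 := sub v48 v0; ok v49 && (
  let v50 := log v44; ok v50 && (
  let v51 := scale ⟨549755813888, 0, 0, 0⟩ v50; ok v51 && (
  let v52 := exp v51; ok v52 && (
  let v53 := cst ⟨3298534883328, 0, 0, 0⟩; ok v53 && (
  let v54 := inv v53; ok v54 && (
  let v55 := mul v0 v54; ok v55 && (
  let v56 := cst ⟨2199023255552, 0, 0, 0⟩; ok v56 && (
  let v57 := add v43 v56; ok v57 && (
  let v58 := inv v57; ok v58 && (
  let v59 := mul v43 v58; ok v59 && (
  let v60 := mul v59 v59; ok v60 && (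
  let v61 := sub v0 v59; ok v61 && (
  let v62 := mul v60 v55; ok v62 && (
  let v63 := add v0 v62; ok v63 && (
  let v64 := mul v61 v63; ok v64 && (
  let v65 := mul v60 v60; ok v65 && (
  let v66 := scale ⟨219915747328, 0, 0, 0⟩ v65; ok v66 && (
  let v67 := mul v42 v64; ok v67 && (
  let v68 := scale ⟨549755813888, 0, 0, 0⟩ v67; ok v68 && (
  let v69 := mul v42 v66; ok v69 && (
  let v70 := scale ⟨549755813888, 0, 0, 0⟩ v69; ok v70 && (
  let v71 := add v68 v70; ok v71 && (
  let v72 := mul v19 v49; ok v72 && (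
  let v73 := scale ⟨4398046511104, 0, 0, 0⟩ v72; ok v73 && (
  let v74 := mul v19 v25; ok v74 && (
  let v75 := mul v74 v49; ok v75 && (
  let v76 := scale ⟨4398046511104, 0, 0, 0⟩ v75; ok v76 && (
  let v77 := add v76 v56; ok v77 && (
  let v78 := inv v77; ok v78 && (
  let v79 := mul v76 v78; ok v79 && (
  let v80 := mul v79 v79; ok v80 && (
  let v81 := sub v0 v79; ok v81 && (
  let v82 := mul v80 v55; ok v82 && (
  let v83 := add v0 v82; ok v83 && (
  let v84 := mul v81 v83; ok v84 && (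
  let v85 := mul v80 v80; ok v85 && (
  let v86 := scale ⟨219915747328, 0, 0, 0⟩ v85; ok v86 && (
  let v87 := mul v73 v84; ok v87 && (
  let v88 := scale ⟨549755813888, 0, 0, 0⟩ v87; ok v88 && (
  let v89 := sub v88 v71; ok v89 && (
  let v90 := mul v73 v86; ok v90 && (
  let v91 := scale ⟨549755813888, 0, 0, 0⟩ v90; ok v91 && (
  let v92 := add v91 v70; ok v92 && (
  let v93 := add v89 v92; ok v93 && (
  let v94 := mul x1 v68; ok v94 && (
  let v95 := neg v94; ok v95 && (
  let v96 := exp v95; ok v96 && (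
  let v97 := mul x1 v70; ok v97 && (
  let v98 := mul v96 v97; ok v98 && (
  let v99 := mul v22 v17; ok v99 && (
  let v100 := add v19 v99; ok v100 && (
  let v101 := inv v100; ok v101 && (
  let v102 := mul v24 v101; ok v102 && (
  let v103 := mul v23 v3; ok v103 && (
  let v104 := mul v103 v102; ok v104 && (
  let v105 := sub v0 v12; ok v105 && (
  let v106 := mul v26 v105; ok v106 && (
  let v107 := mul v9 v9; ok v107 && (
  let v108 := sub v0 v26; ok v108 && (
  let v109 := mul v105 v108; ok v109 && (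
  let v110 := mul v25 v49; ok v110 && (
  let v111 := inv v44; ok v111 && (
  let v112 := mul v110 v111; ok v112 && (
  let v113 := add v19 v112; ok v113 && (
  let v114 := mul v44 v113; ok v114 && (
  let v115 := mul v114 v114; ok v115 && (
  let v116 := inv v115; ok v116 && (
  let v117 := mul v109 v116; ok v117 && (
  let v118 := mul v104 v0; ok v118 && (
  let v119 := scale ⟨549755813888, 0, 0, 0⟩ v118; ok v119 && (
  let v120 := sub v0 v119; ok v120 && (
  let v121 := sub v0 v118; ok v121 && (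
  let v122 := inv v121; ok v122 && (
  let v123 := mul v120 v122; ok v123 && (
  let v124 := add v118 v0; ok v124 && (
  let v125 := mul v96 v124; ok v125 && (
  let v126 := mul v102 v123; ok v126 && (
  let v127 := mul v126 v0; ok v127 && (
  let v128 := mul v118 v123; ok v128 && (
  isPos 4 v121 && (
  let v129 := mul v23 v24; ok v129 && (
  let v130 := add v19 v3; ok v130 && (
  let v131 := mul v22 v19; ok v131 && (
  let v132 := mul v131 v17; ok v132 && (
  let v133 := scale ⟨2199023255552, 0, 0, 0⟩ v132; ok v133 && (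
  let v134 := add v47 v133; ok v134 && (
  let v135 := mul v130 v134; ok v135 && (
  let v136 := inv v135; ok v136 && (
  let v137 := mul v129 v136; ok v137 && (
  let v138 := mul v3 v137; ok v138 && (
  isPos 4 v89 && (
  let v139 := mul v138 v0; ok v139 && (
  let v140 := mul v0 x0; ok v140 && (
  let v141 := add v11 v0; ok v141 && (
  let v142 := inv v141; ok v142 && (
  let v143 := mul v11 v142; ok v143 && (
  let v144 := scale ⟨2199023255552, 0, 0, 0⟩ v143; ok v144 && (
  let v145 := sub v0 v144; ok v145 && (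
  let v146 := sub v0 v11; ok v146 && (
  let v147 := mul x3 v142; ok v147 && (
  let v148 := mul v147 v145; ok v148 && (
  let v149 := add v24 v148; ok v149 && (
  let v150 := scale ⟨224412041216, 0, 0, 0⟩ v15; ok v150 && (
  let v151 := inv v38; ok v151 && (
  let v152 := mul v150 v151; ok v152 && (
  let v153 := scale ⟨5497558138880, 0, 0, 0⟩ x0; ok v153 && (
  let v154 := inv v153; ok v154 && (
  let v155 := mul v0 v154; ok v155 && (
  let v156 := mul x0 v154; ok v156 && (
  let v157 := mul v156 v24; ok v157 && (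
  let v158 := mul v157 v152; ok v158 && (
  let v159 := mul v155 v24; ok v159 && (
  let v160 := mul v159 v152; ok v160 && (
  let v161 := sub v0 v160; ok v161 && (
  let v162 := inv v161; ok v162 && (
  let v163 := mul v125 v160; ok v163 && (
  let v164 := sub v0 v163; ok v164 && (
  let v165 := inv v164; ok v165 && (
  let v166 := scale ⟨2199023255552, 0, 0, 0⟩ v6; ok v166 && (
  let v167 := add v166 v0; ok v167 && (
  let v168 := add v6 v0; ok v168 && (
  let v169 := scale ⟨3573412790272, 0, 0, 0⟩ v22; ok v169 && (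
  let v170 := cst ⟨339302416384, 0, 0, 0⟩; ok v170 && (
  let v171 := add v169 v170; ok v171 && (
  let v172 := scale ⟨549755813888, 0, 0, 0⟩ v171; ok v172 && (
  let v173 := mul v11 v21; ok v173 && (
  let v174 := sub v0 v106; ok v174 && (
  let v175 := mul v11 v22; ok v175 && (
  let v176 := scale ⟨2199023255552, 0, 0, 0⟩ v175; ok v176 && (
  let v177 := sub v174 v176; ok v177 && (
  let v178 := mul v173 v173; ok v178 && (
  let v179 := add v177 v178; ok v179 && (
  let v180 := add v179 v0; ok v180 && (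
  let v181 := scale ⟨549755813888, 0, 0, 0⟩ v180; ok v181 && (
  let v182 := scale ⟨549755813888, 0, 0, 0⟩ v25; ok v182 && (
  let v183 := sub v15 v182; ok v183 && (
  let v184 := mul v107 v174; ok v184 && (
  let v185 := mul v184 v14; ok v185 && (
  let v186 := scale ⟨137438953472, 0, 0, 0⟩ v185; ok v186 && (
  let v187 := add v183 v186; ok v187 && (
  let v188 := mul v181 v187; ok v188 && (
  let v189 := add v125 v0; ok v189 && (
  let v190 := mul v189 v162; ok v190 && (
  let v191 := mul v125 v165; ok v191 && (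
  let v192 := add v190 v191; ok v192 && (
  let v193 := mul v160 v192; ok v193 && (
  let v194 := add v128 v193; ok v194 && (
  let v195 := mul v194 v6; ok v195 && (
  let v196 := mul v189 v160; ok v196 && (
  let v197 := mul v196 v162; ok v197 && (
  let v198 := add v128 v197; ok v198 && (
  let v199 := mul v198 v6; ok v199 && (
  let v200 := scale ⟨223338299392, 0, 0, 0⟩ v199; ok v200 && (
  let v201 := add v8 v200; ok v201 && (
  let v202 := mul v199 v201; ok v202 && (
  let v203 := add v0 v202; ok v203 && (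
  let v204 := scale ⟨893353197568, 0, 0, 0⟩ v195; ok v204 && (
  let v205 := add v0 v204; ok v205 && (
  let v206 := mul v195 v205; ok v206 && (
  let v207 := add v0 v206; ok v207 && (
  let v208 := mul v144 v147; ok v208 && (
  let v209 := mul v208 v167; ok v209 && (
  let v210 := mul v209 v207; ok v210 && (
  let v211 := mul v188 v203; ok v211 && (
  let v212 := add v52 v8; ok v212 && (
  let v213 := mul v210 v212; ok v213 && (
  let v214 := add v211 v213; ok v214 && (
  let v215 := add v52 v0; ok v215 && (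
  let v216 := mul v210 v215; ok v216 && (
  let v217 := mul v168 v215; ok v217 && (
  let v218 := mul v217 v147; ok v218 && (
  let v219 := mul v218 v146; ok v219 && (
  let v220 := mul v214 v127; ok v220 && (
  let v221 := mul v219 v172; ok v221 && (
  let v222 := add v220 v221; ok v222 && (
  let v223 := mul x1 v149; ok v223 && (
  let v224 := inv v52; ok v224 && (
  let v225 := mul v223 v224; ok v225 && (
  let v226 := scale ⟨549755813888, 0, 0, 0⟩ v225; ok v226 && (
  let v227 := mul v23 v226; ok v227 && (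
  let v228 := add v227 v222; ok v228 && (
  let v229 := mul v3 v228; ok v229 && (
  let v230 := mul x0 v229; ok v230 && (
  let v231 := mul v214 v189; ok v231 && (
  let v232 := mul v231 v162; ok v232 && (
  let v233 := mul v216 v125; ok v233 && (
  let v234 := mul v233 v165; ok v234 && (
  let v235 := add v232 v234; ok v235 && (
  let v236 := mul v23 v230; ok v236 && (
  let v237 := mul v158 v235; ok v237 && (
  let v238 := add v236 v237; ok v238 && (
  let v239 := mul v107 v238; ok v239 && (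
  let v240 := mul v239 v224; ok v240 && (
  let v241 := sub v0 v240; ok v241 && (
  let v242 := inv v241; ok v242 && (
  let v243 := mul v238 v242; ok v243 && (
  let v244 := mul v3 v243; ok v244 && (
  let v245 := mul v107 v243; ok v245 && (
  let v246 := mul v245 v224; ok v246 && (
  let v247 := sub v0 v246; ok v247 && (
  let v248 := mul v49 v247; ok v248 && (
  let v249 := sub v248 v244; ok v249 && (
  let v250 := inv v249; ok v250 && (
  let v251 := mul v244 v250; ok v251 && (
  let v252 := sub v52 v245; ok v252 && (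
  let v253 := inv v252; ok v253 && (
  let v254 := mul v251 v0; ok v254 && (
  let v255 := scale ⟨549755813888, 0, 0, 0⟩ v254; ok v255 && (
  let v256 := sub v0 v255; ok v256 && (
  let v257 := sub v0 v254; ok v257 && (
  let v258 := inv v257; ok v258 && (
  let v259 := mul v256 v258; ok v259 && (
  let v260 := mul v1 v253; ok v260 && (
  let v261 := mul v140 v250; ok v261 && (
  let v262 := mul v261 v259; ok v262 && (
  let v263 := add v260 v262; ok v263 && (
  let v264 := mul v7 v243; ok v264 && (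
  let v265 := mul v253 v264; ok v265 && (
  let v266 := mul v0 v250; ok v266 && (
  let v267 := mul v266 v259; ok v267 && (
  let v268 := mul v267 v244; ok v268 && (
  let v269 := add v265 v268; ok v269 && (
  let v270 := scale ⟨223338299392, 0, 0, 0⟩ v269; ok v270 && (
  let v271 := add v8 v270; ok v271 && (
  let v272 := mul v269 v271; ok v272 && (
  let v273 := add v0 v272; ok v273 && (
  let v274 := mul v263 v273; ok v274 && (
  let v275 := mul v274 v242; ok v275 && (
  let v276 := mul v275 v235; ok v276 && (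
  let v277 := mul v159 v23; ok v277 && (
  let v278 := cst ⟨5497558138880, 0, 0, 0⟩; ok v278 && (
  let v279 := inv v278; ok v279 && (
  let v280 := mul v53 v279; ok v280 && (
  let v281 := mul v141 v24; ok v281 && (
  let v282 := mul v281 v280; ok v282 && (
  let v283 := mul v130 v101; ok v283 && (
  let v284 := mul v22 v283; ok v284 && (
  let v285 := scale ⟨549755813888, 0, 0, 0⟩ v139; ok v285 && (
  let v286 := sub v0 v285; ok v286 && (
  let v287 := sub v0 v139; ok v287 && (
  let v288 := inv v287; ok v288 && (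
  let v289 := mul v286 v288; ok v289 && (
  let v290 := mul v289 v138; ok v290 && (
  let v291 := mul v107 v117; ok v291 && (
  let v292 := scale ⟨733097230336, 0, 0, 0⟩ v291; ok v292 && (
  let v293 := sub v0 v292; ok v293 && (
  let v294 := mul v117 v293; ok v294 && (
  let v295 := mul v89 v89; ok v295 && (
  let v296 := mul v12 v295; ok v296 && (
  let v297 := add v294 v296; ok v297 && (
  let v298 := mul v290 v140; ok v298 && (
  let v299 := add v297 v0; ok v299 && (
  let v300 := mul v298 v299; ok v300 && (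
  let v301 := sub v297 v300; ok v301 && (
  let v302 := scale ⟨366548615168, 0, 0, 0⟩ v45; ok v302 && (
  let v303 := sub v0 v302; ok v303 && (
  let v304 := mul v26 v303; ok v304 && (
  let v305 := add v301 v304; ok v305 && (
  let v306 := mul v283 v305; ok v306 && (
  let v307 := mul v284 v284; ok v307 && (
  let v308 := add v0 v307; ok v308 && (
  let v309 := inv v308; ok v309 && (
  let v310 := mul v306 v309; ok v310 && (
  let v311 := sub v0 v251; ok v311 && (
  let v312 := mul v311 v310; ok v312 && (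
  let v313 := sub v0 v298; ok v313 && (
  isPos 4 v313 && (
  isPos 4 v310 && (
  isPos 4 v311 && (
  let v314 := mul v275 v153; ok v314 && (
  let v315 := mul v314 v228; ok v315 && (
  let v316 := inv v24; ok v316 && (
  let v317 := mul v315 v316; ok v317 && (
  let v318 := mul x1 v312; ok v318 && (
  let v319 := scale ⟨549755813888, 0, 0, 0⟩ v318; ok v319 && (
  let v320 := sub v0 v319; ok v320 && (
  let v321 := mul v312 v320; ok v321 && (
  let v322 := neg v321; ok v322 && (
  let v323 := mul v1 x3; ok v323 && (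
  let v324 := mul v323 v141; ok v324 && (
  let v325 := mul v324 v15; ok v325 && (
  let v326 := mul v2 v325; ok v326 && (
  let v327 := add v322 v326; ok v327 && (
  let v328 := mul v322 v326; ok v328 && (
  let v329 := mul x1 v328; ok v329 && (
  let v330 := add v327 v329; ok v330 && (
  let v331 := mul v12 v42; ok v331 && (
  let v332 := scale ⟨412316860416, 0, 0, 0⟩ v43; ok v332 && (
  let v333 := sub v8 v332; ok v333 && (
  let v334 := mul v331 v333; ok v334 && (
  let v335 := mul v2 v334; ok v335 && (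
  let v336 := neg v335; ok v336 && (
  let v337 := add v330 v336; ok v337 && (
  let v338 := mul v330 v336; ok v338 && (
  let v339 := mul x1 v338; ok v339 && (
  let v340 := add v337 v339; ok v340 && (
  let v341 := mul v1 v243; ok v341 && (
  let v342 := mul v341 v316; ok v342 && (
  let v343 := mul v2 v342; ok v343 && (
  let v344 := add v340 v343; ok v344 && (
  let v345 := mul v340 v343; ok v345 && (
  let v346 := mul x1 v345; ok v346 && (
  let v347 := add v344 v346; ok v347 && (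
  let v348 := mul v2 v282; ok v348 && (
  let v349 := sub v347 v348; ok v349 && (
  let v350 := mul v3 v282; ok v350 && (
  let v351 := add v0 v350; ok v351 && (
  let v352 := inv v351; ok v352 && (
  let v353 := mul v349 v352; ok v353 && (
  let v354 := mul v1 v9; ok v354 && (
  let v355 := mul v354 v243; ok v355 && (
  let v356 := mul v355 v253; ok v356 && (
  let v357 := mul v2 v356; ok v357 && (
  let v358 := add v353 v357; ok v358 && (
  let v359 := mul v353 v357; ok v359 && (
  let v360 := mul x1 v359; ok v360 && (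
  let v361 := add v358 v360; ok v361 && (
  let v362 := mul x1 v361; ok v362 && (
  let v363 := add v0 v362; ok v363 && (
  let v364 := mul v276 v160; ok v364 && (
  let v365 := mul v3 v277; ok v365 && (
  let v366 := mul v317 v365; ok v366 && (
  let v367 := add v364 v366; ok v367 && (
  let v368 := mul v2 v367; ok v368 && (
  let v369 := add v276 v317; ok v369 && (
  let v370 := mul v2 v369; ok v370 && (
  let v371 := mul v368 v363; ok v371 && (
  let v372 := add v361 v371; ok v372 && (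
  let v373 := add v372 v370; ok v373 && (
  let v374 := neg v373; ok v374 && (
  let v375 := scale ⟨1073741824, 0, 0, 0⟩ v2; ok v375 && (
  let v376 := sub v374 v375; ok v376 && (
  let v377 := sub v20 v0; ok v377 && (
  let v378 := add v377 v56; ok v378 && (
  let v379 := scale ⟨2199023255552, 0, 0, 0⟩ v280; ok v379 && (
  let v380 := sub v378 v379; ok v380 && (
  let v381 := mul v141 v380; ok v381 && (
  let v382 := mul v377 v379; ok v382 && (
  let v383 := add v382 v0; ok v383 && (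
  let v384 := inv v383; ok v384 && (
  let v385 := mul v381 v384; ok v385 && (
  let v386 := mul v156 v235; ok v386 && (
  let v387 := scale ⟨549755813888, 0, 0, 0⟩ v152; ok v387 && (
  let v388 := add v17 v387; ok v388 && (
  let v389 := mul v386 v388; ok v389 && (
  let v390 := scale ⟨2199023255552, 0, 0, 0⟩ v389; ok v390 && (
  let v391 := add v230 v390; ok v391 && (
  let v392 := scale ⟨2199023255552, 0, 0, 0⟩ v391; ok v392 && (
  let v393 := mul v392 v242; ok v393 && (
  let v394 := mul v9 v243; ok v394 && (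
  let v395 := sub v24 v394; ok v395 && (
  let v396 := inv v395; ok v396 && (
  let v397 := mul v393 v396; ok v397 && (
  let v398 := sub v385 v397; ok v398 && (
  let v399 := mul v0 v21; ok v399 && (
  let v400 := mul v399 v399; ok v400 && (
  let v401 := cst ⟨14293651161088, 0, 0, 0⟩; ok v401 && (
  let v402 := cst ⟨10995116277760, 0, 0, 0⟩; ok v402 && (
  let v403 := inv v402; ok v403 && (
  let v404 := mul v401 v403; ok v404 && (
  let v405 := mul v400 v404; ok v405 && (
  let v406 := mul x0 x0; ok v406 && (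
  let v407 := scale ⟨27487790694400, 0, 0, 0⟩ v406; ok v407 && (
  let v408 := add v405 v407; ok v408 && (
  let v409 := mul v282 v352; ok v409 && (
  let v410 := sub v40 v3; ok v410 && (
  let v411 := sub v410 v39; ok v411 && (
  let v412 := mul v0 v1; ok v412 && (
  let v413 := mul v412 x0; ok v413 && (
  let v414 := mul v24 v235; ok v414 && (
  let v415 := mul v414 v154; ok v415 && (
  let v416 := add v222 v415; ok v416 && (
  let v417 := add v394 v56; ok v417 && (
  let v418 := mul v0 v417; ok v418 && (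
  let v419 := mul v408 v409; ok v419 && (
  let v420 := mul v242 v418; ok v420 && (
  let v421 := mul v413 v416; ok v421 && (
  let v422 := mul v420 v421; ok v422 && (
  let v423 := sub v419 v422; ok v423 && (
  let v424 := scale ⟨549755813888, 0, 0, 0⟩ v394; ok v424 && (
  let v425 := add v0 v424; ok v425 && (
  let v426 := mul v242 v425; ok v426 && (
  let v427 := mul v3 v23; ok v427 && (
  let v428 := mul v427 v149; ok v428 && (
  let v429 := mul v24 v52; ok v429 && (
  let v430 := inv v429; ok v430 && (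
  let v431 := mul v428 v430; ok v431 && (
  let v432 := mul v426 v431; ok v432 && (
  let v433 := sub v411 v432; ok v433 && (
  let v434 := mul v152 v423; ok v434 && (
  let v435 := sub v0 v152; ok v435 && (
  let v436 := mul v12 v433; ok v436 && (
  let v437 := mul v435 v436; ok v437 && (
  let v438 := mul v408 v437; ok v438 && (
  let v439 := add v434 v438; ok v439 && (
  isPos 4 v161 && (
  isPos 4 v164 && (
  let v440 := scale ⟨2199023255552, 0, 0, 0⟩ v239; ok v440 && (
  let v441 := sub v52 v440; ok v441 && (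
  isPos 4 v441 && (
  isPos 4 v249 && (
  let v442 := sub v8 v139; ok v442 && (
  isPos 4 v442 && (
  let v443 := scale ⟨687194767360, 0, 0, 0⟩ v0; ok v443 && (
  let v444 := sub v443 v199; ok v444 && (
  isPos 4 v444 && (
  let v445 := scale ⟨377957122048, 0, 0, 0⟩ v0; ok v445 && (
  let v446 := sub v445 v195; ok v446 && (
  isPos 4 v446 && (
  isPos 4 v395 && (
  isPos 4 v257 && (
  let v447 := sub v443 v269; ok v447 && (
  isPos 4 v447 && (
  isPos 4 v398 && (
  isPos 4 v376 && (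
  isPos 4 v439 && (
  isPos 4 v433 && (
  true)))))))))))))))))))))))))))))))))))))))))))))))))))))))))))))))))))))))))))))))))))))))))))))))))))))))))))))))))))))))))))))))))))))))))))))))))))))))))))))))))))))))))))))))))))))))))))))))))))))))))))))))))))))))))))))))))))))))))))))))))))))))))))))))))))))))))))))))))))))))))))))))))))))))))))))))))))))))))))))))))))))))))))))))))))))))))))))))))))))))))))))))))))))))))))))))))))))))))))))))))))))))))))))))))))))))))))))))))))))))))))))))))))))))))))))))))))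
  | _ => false

set_option maxRecDepth 1000000 in
theorem chk0_eq (O : Ops) (m : List O.α)
    (h : chk0 O.cst O.add O.sub O.mul O.scale O.neg O.inv O.exp O.log O.ok O.isPos O.isLt m = true) :
    runG O 4 prog0 m = true := by
  match m, h with
  | [x0, x1, x2, x3], h => exact h

def chkB0 : List opsE.α → Bool :=
  chk0 opsE.cst opsE.add opsE.sub opsE.mul opsE.scale opsE.neg opsE.inv opsE.exp opsE.log opsE.ok opsE.isPos opsE.isLt

theorem chkB0_eq (m : List opsE.α) (h : chkB0 m = true) : runG opsE 4 prog0 m = true :=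
  chk0_eq opsE m h

def prog1 : List Op := [
  .const ⟨1099511627776, 0, 0, 0⟩,
  .mul 2 1,
  .mul 4 4,
  .mul 4 0,
  .mul 5 6,
  .mul 0 5,
  .mul 0 0,
  .mul 3 8,
  .const ⟨549755813888, 0, 0, 0⟩,
  .mul 5 7,
  .mul 0 13,
  .scale ⟨549755813888, 0, 0, 0⟩ 0,
  .mul 10 10,
  .mul 1 1,
  .sub 13 0,
  .inv 0,
  .mul 4 0,
  .scale ⟨2199023255552, 0, 0, 0⟩ 0,
  .scale ⟨2199023255552, 0, 0, 0⟩ 2,
  .sub 0 18,
  .add 0 2,
  .mul 24 5,
  .mul 20 0,
  .sub 22 0,
  .add 23 1,
  .mul 21 12,
  .mul 4 4,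
  .scale ⟨10774999203840, 0, 0, 0⟩ 15,
  .scale ⟨45768245248, 0, 0, 0⟩ 0,
  .const ⟨183207198720, 0, 0, 0⟩,
  .add 1 0,
  .mul 3 0,
  .add 23 0,
  .mul 5 0,
  .add 33 0,
  .mul 7 0,
  .scale ⟨549755813888, 0, 0, 0⟩ 0,
  .add 36 0,
  .mul 3 0,
  .mul 21 16,
  .scale ⟨2199023255552, 0, 0, 0⟩ 20,
  .add 1 0,
  .add 0 38,
  .mul 17 0,
  .add 0 43,
  .mul 27 27,
  .scale ⟨2199023255552, 0, 0, 0⟩ 0,
  .add 0 46,
  .mul 28 5,
  .sub 0 48,
  .log 5,
  .scale ⟨549755813888, 0, 0, 0⟩ 0,
  .exp 0,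
  .const ⟨3298534883328, 0, 0, 0⟩,
  .inv 0,
  .mul 54 0,
  .const ⟨2199023255552, 0, 0, 0⟩,
  .add 13 0,
  .inv 0,
  .mul 15 0,
  .mul 0 0,
  .sub 60 1,
  .mul 1 6,
  .add 62 0,
  .mul 2 0,
  .mul 4 4,
  .scale ⟨219915747328, 0, 0, 0⟩ 0,
  .mul 24 2,
  .scale ⟨549755813888, 0, 0, 0⟩ 0,
  .mul 26 2,
  .scale ⟨549755813888, 0, 0, 0⟩ 0,
  .add 2 0,
  .mul 52 22,
  .scale ⟨4398046511104, 0, 0, 0⟩ 0,
  .mul 54 48,
  .mul 0 25,
  .scale ⟨4398046511104, 0, 0, 0⟩ 0,
  .add 0 20,
  .inv 0,
  .mul 2 0,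
  .mul 0 0,
  .sub 80 1,
  .mul 1 26,
  .add 82 0,
  .mul 2 0,
  .mul 4 4,
  .scale ⟨219915747328, 0, 0, 0⟩ 0,
  .mul 13 2,
  .scale ⟨549755813888, 0, 0, 0⟩ 0,
  .sub 0 17,
  .mul 16 3,
  .scale ⟨549755813888, 0, 0, 0⟩ 0,
  .add 0 21,
  .add 3 0,
  .mul 95 25,
  .neg 0,
  .exp 0,
  .mul 98 26,
  .mul 1 0,
  .mul 100 9,
  .neg 0,
  .exp 0,
  .mul 103 9,
  .mul 1 0,
  .mul 81 86,
  .add 85 0,
  .inv 0,
  .mul 82 0,
  .mul 84 104,
  .mul 0 1,
  .sub 109 97,
  .mul 84 0,
  .mul 102 102,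
  .sub 112 86,
  .mul 3 0,
  .mul 89 65,
  .inv 71,
  .mul 1 0,
  .add 98 0,
  .mul 74 0,
  .mul 0 0,
  .inv 0,
  .mul 7 0,
  .add 103 97,
  .mul 124 0,
  .inv 0,
  .mul 125 0,
  .mul 0 0,
  .mul 0 13,
  .const ⟨10849087389696, 0, 0, 0⟩,
  .sub 0 1,
  .pos 0,
  .const ⟨13, 0, 0, 0⟩,
  .const ⟨2295, 0, 0, 0⟩,
  .mul 4 1,
  .sub 1 0,
  .const ⟨302996, 0, 0, 0⟩,
  .mul 7 1,
  .sub 1 0,
  .const ⟨27269633, 0, 0, 0⟩,
  .mul 10 1,
  .sub 1 0,
  .const ⟨1527099484, 0, 0, 0⟩,
  .mul 13 1,
  .sub 1 0,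
  .const ⟨45812984490, 0, 0, 0⟩,
  .mul 16 1,
  .sub 1 0,
  .mul 18 0,
  .sub 139 0,
  .mul 20 0,
  .sub 149 0,
  .add 54 150,
  .mul 55 55,
  .add 0 152,
  .mul 57 3,
  .scale ⟨2199023255552, 0, 0, 0⟩ 0,
  .add 2 0,
  .scale ⟨4398046511104, 0, 0, 0⟩ 58,
  .sub 1 0,
  .inv 7,
  .mul 1 0,
  .add 0 9,
  .mul 65 52,
  .scale ⟨549755813888, 0, 0, 0⟩ 0,
  .mul 0 2,
  .sub 6 0,
  .pos 7,
  .pos 0,
  .sub 165 69,
  .mul 0 15,
  .scale ⟨2199023255552, 0, 0, 0⟩ 69,
  .add 1 0,
  .inv 4,
  .mul 1 0,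
  .scale ⟨549755813888, 0, 0, 0⟩ 0,
  .add 0 164,
  .inv 0,
  .mul 2 0,
  .mul 66 0,
  .scale ⟨549755813888, 0, 0, 0⟩ 0,
  .sub 177 0,
  .sub 178 2,
  .inv 0,
  .mul 2 0,
  .add 5 181,
  .mul 86 0,
  .mul 76 2,
  .mul 0 9,
  .mul 9 4,
  .pos 7,
  .mul 163 162,
  .add 168 184,
  .mul 166 169,
  .mul 0 172,
  .scale ⟨2199023255552, 0, 0, 0⟩ 0,
  .add 144 0,
  .mul 4 0,
  .inv 0,
  .mul 7 0,
  .mul 192 0,
  .pos 107,
  .mul 68 80,
  .sub 68 0,
  .pos 0,
  .mul 1 67,
  .sub 67 0,
  .mul 3 0,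
  .sub 66 0,
  .mul 5 0,
  .sub 65 0,
  .mul 7 0,
  .sub 64 0,
  .mul 9 0,
  .sub 63 0,
  .mul 11 0,
  .sub 201 0,
  .mul 13 0,
  .sub 211 0,
  .add 111 212,
  .mul 112 112,
  .add 0 214,
  .mul 114 3,
  .scale ⟨2199023255552, 0, 0, 0⟩ 0,
  .add 2 0,
  .scale ⟨4398046511104, 0, 0, 0⟩ 115,
  .sub 1 0,
  .inv 7,
  .mul 1 0,
  .add 0 9,
  .mul 122 27,
  .scale ⟨549755813888, 0, 0, 0⟩ 0,
  .mul 0 2,
  .sub 6 0,
  .pos 7,
  .pos 0,
  .sub 227 126,
  .mul 0 15,
  .scale ⟨2199023255552, 0, 0, 0⟩ 126,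
  .add 1 0,
  .inv 4,
  .mul 1 0,
  .scale ⟨549755813888, 0, 0, 0⟩ 0,
  .add 0 226,
  .inv 0,
  .mul 2 0,
  .mul 41 0,
  .mul 1 239,
  .add 228 239,
  .inv 0,
  .mul 230 0,
  .scale ⟨2199023255552, 0, 0, 0⟩ 0,
  .sub 243 0,
  .sub 244 233,
  .mul 249 4,
  .mul 0 2,
  .add 223 0,
  .scale ⟨224412041216, 0, 0, 0⟩ 233,
  .inv 211,
  .mul 1 0,
  .scale ⟨5497558138880, 0, 0, 0⟩ 252,
  .inv 0,
  .mul 253 0,
  .mul 255 1,
  .mul 0 231,
  .mul 0 5,
  .mul 3 233,
  .mul 0 7,
  .sub 259 0,
  .inv 0,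
  .mul 78 2,
  .sub 262 0,
  .inv 0,
  .scale ⟨2199023255552, 0, 0, 0⟩ 258,
  .add 0 265,
  .add 260 266,
  .scale ⟨3573412790272, 0, 0, 0⟩ 245,
  .const ⟨339302416384, 0, 0, 0⟩,
  .add 1 0,
  .scale ⟨549755813888, 0, 0, 0⟩ 0,
  .mul 260 250,
  .sub 272 161,
  .mul 262 251,
  .scale ⟨2199023255552, 0, 0, 0⟩ 0,
  .sub 2 0,
  .mul 4 4,
  .add 1 0,
  .add 0 278,
  .scale ⟨549755813888, 0, 0, 0⟩ 0,
  .scale ⟨549755813888, 0, 0, 0⟩ 255,
  .sub 266 0,
  .mul 170 9,
  .mul 0 269,
  .scale ⟨137438953472, 0, 0, 0⟩ 0,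
  .add 3 0,
  .mul 6 0,
  .const ⟨1, 0, 0, 0⟩,
  .const ⟨12, 0, 0, 0⟩,
  .mul 161 1,
  .sub 1 0,
  .const ⟨2296, 0, 0, 0⟩,
  .mul 164 1,
  .sub 1 0,
  .const ⟨302995, 0, 0, 0⟩,
  .mul 167 1,
  .sub 1 0,
  .const ⟨27269634, 0, 0, 0⟩,
  .mul 170 1,
  .sub 1 0,
  .const ⟨1527099483, 0, 0, 0⟩,
  .mul 173 1,
  .sub 1 0,
  .const ⟨45812984491, 0, 0, 0⟩,
  .mul 176 1,
  .sub 1 0,
  .mul 178 0,
  .sub 299 0,
  .mul 180 0,
  .sub 309 0,
  .mul 182 304,
  .mul 0 0,
  .scale ⟨369367187456, 0, 0, 0⟩ 0,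
  .add 3 0,
  .mul 218 0,
  .scale ⟨2199023255552, 0, 0, 0⟩ 0,
  .add 163 0,
  .add 0 149,
  .const ⟨8589934592, 0, 0, 0⟩,
  .add 1 0,
  .log 0,
  .scale ⟨549755813888, 0, 0, 0⟩ 0,
  .exp 0,
  .mul 227 147,
  .add 1 0,
  .mul 0 64,
  .mul 143 62,
  .add 1 0,
  .mul 69 0,
  .add 143 0,
  .mul 0 324,
  .mul 6 72,
  .mul 0 71,
  .add 147 0,
  .mul 0 328,
  .scale ⟨223338299392, 0, 0, 0⟩ 0,
  .add 328 0,
  .mul 2 0,
  .add 338 0,
  .scale ⟨893353197568, 0, 0, 0⟩ 8,
  .add 340 0,
  .mul 10 0,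
  .add 342 0,
  .mul 100 97,
  .mul 0 78,
  .mul 0 2,
  .mul 59 7,
  .add 295 339,
  .mul 2 0,
  .add 2 0,
  .add 298 350,
  .mul 5 0,
  .mul 85 1,
  .mul 0 107,
  .mul 0 109,
  .mul 5 170,
  .mul 1 85,
  .add 1 0,
  .mul 351 110,
  .inv 307,
  .mul 1 0,
  .scale ⟨549755813888, 0, 0, 0⟩ 0,
  .mul 339 0,
  .mul 360 5,
  .add 1 0,
  .mul 366 0,
  .mul 16 41,
  .mul 0 106,
  .mul 16 185,
  .mul 0 105,
  .add 2 0,
  .mul 348 5,
  .mul 115 1,
  .add 1 0,
  .mul 262 0,
  .mul 0 15,
  .sub 376 0,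
  .inv 0,
  .mul 4 0,
  .mul 376 0,
  .mul 268 1,
  .mul 0 21,
  .sub 382 0,
  .mul 334 0,
  .sub 0 4,
  .inv 0,
  .mul 6 0,
  .sub 335 6,
  .inv 0,
  .mul 2 152,
  .scale ⟨549755813888, 0, 0, 0⟩ 0,
  .sub 391 0,
  .sub 392 2,
  .inv 0,
  .mul 2 0,
  .mul 394 6,
  .mul 157 10,
  .mul 0 2,
  .add 2 0,
  .mul 392 20,
  .mul 11 0,
  .mul 164 15,
  .mul 0 7,
  .mul 0 23,
  .add 3 0,
  .scale ⟨223338299392, 0, 0, 0⟩ 0,
  .add 398 0,
  .mul 2 0,
  .add 408 0,
  .mul 10 0,
  .mul 0 32,
  .mul 0 40,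
  .mul 154 389,
  .const ⟨5497558138880, 0, 0, 0⟩,
  .inv 0,
  .mul 362 0,
  .mul 176 392,
  .mul 0 1,
  .mul 230 312,
  .mul 397 0,
  .scale ⟨549755813888, 0, 0, 0⟩ 182,
  .sub 421 0,
  .sub 422 184,
  .inv 0,
  .mul 2 0,
  .mul 0 229,
  .mul 314 304,
  .scale ⟨733097230336, 0, 0, 0⟩ 0,
  .sub 428 0,
  .mul 307 0,
  .mul 341 341,
  .mul 419 0,
  .add 2 0,
  .mul 7 194,
  .add 1 434,
  .mul 1 0,
  .sub 3 0,
  .scale ⟨366548615168, 0, 0, 0⟩ 392,
  .sub 438 0,
  .mul 413 0,
  .add 3 0,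
  .mul 22 0,
  .mul 22 22,
  .add 443 0,
  .inv 0,
  .mul 3 0,
  .sub 446 59,
  .mul 0 1,
  .sub 448 14,
  .pos 0,
  .pos 3,
  .pos 2,
  .mul 38 197,
  .mul 0 85,
  .inv 427,
  .mul 1 0,
  .mul 455 5,
  .neg 0,
  .exp 0,
  .mul 453 38,
  .add 457 0,
  .inv 0,
  .mul 3 0,
  .mul 0 440,
  .mul 452 82,
  .mul 0 10,
  .add 463 0,
  .mul 3 0,
  .mul 0 76,
  .mul 463 54,
  .mul 0 208,
  .mul 465 55,
  .mul 16 0,
  .add 2 0,
  .add 4 18,
  .add 472 1,
  .mul 7 0,
  .add 2 0,
  .sub 475 0,
  .scale ⟨1073741824, 0, 0, 0⟩ 473,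
  .sub 1 0,
  .sub 458 478,
  .add 0 423,
  .scale ⟨2199023255552, 0, 0, 0⟩ 64,
  .sub 1 0,
  .mul 242 0,
  .mul 4 2,
  .add 0 484,
  .inv 0,
  .mul 3 0,
  .mul 232 116,
  .scale ⟨549755813888, 0, 0, 0⟩ 237,
  .add 472 0,
  .mul 2 0,
  .scale ⟨2199023255552, 0, 0, 0⟩ 0,
  .add 126 0,
  .scale ⟨2199023255552, 0, 0, 0⟩ 0,
  .mul 0 116,
  .sub 471 33,
  .inv 0,
  .mul 2 0,
  .sub 11 0,
  .mul 499 478,
  .mul 0 0,
  .const ⟨14293651161088, 0, 0, 0⟩,
  .const ⟨10995116277760, 0, 0, 0⟩,
  .inv 0,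
  .mul 2 0,
  .mul 4 0,
  .mul 507 507,
  .scale ⟨27487790694400, 0, 0, 0⟩ 0,
  .add 2 0,
  .mul 91 50,
  .sub 470 507,
  .sub 0 472,
  .mul 512 511,
  .mul 0 514,
  .mul 490 143,
  .mul 0 262,
  .add 158 0,
  .add 55 461,
  .mul 518 0,
  .mul 10 9,
  .mul 142 1,
  .mul 7 4,
  .mul 1 0,
  .sub 3 0,
  .scale ⟨549755813888, 0, 0, 0⟩ 62,
  .add 525 0,
  .mul 148 0,
  .mul 524 504,
  .mul 0 280,
  .mul 505 477,
  .inv 0,
  .mul 2 0,
  .mul 5 0,
  .sub 21 0,
  .mul 283 10,
  .sub 535 284,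
  .mul 524 2,
  .mul 1 0,
  .mul 29 0,
  .add 4 0,
  .pos 280,
  .pos 277,
  .scale ⟨2199023255552, 0, 0, 0⟩ 165,
  .sub 489 0,
  .pos 0,
  .pos 157,
  .sub 534 304,
  .pos 0,
  .scale ⟨687194767360, 0, 0, 0⟩ 543,
  .sub 0 209,
  .pos 0,
  .scale ⟨377957122048, 0, 0, 0⟩ 545,
  .sub 0 215,
  .pos 0,
  .pos 51,
  .pos 154,
  .sub 3 142,
  .pos 0,
  .pos 49,
  .pos 70,
  .pos 8,
  .pos 14]

def chk1 {α : Type} (cst : Z → α) (add sub mul : α → α → α) (scale : Z → α → α)
    (neg inv exp log : α → α) (ok : α → Bool) (isPos : Nat → α → Bool) (isLt : α → Nat → Bool) :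
    List α → Bool
  | [x0, x1, x2, x3] =>
  let v0 := cst ⟨1099511627776, 0, 0, 0⟩; ok v0 && (
  let v1 := mul x1 x0; ok v1 && (
  let v2 := mul x2 x2; ok v2 && (
  let v3 := mul x1 v2; ok v3 && (
  let v4 := mul x1 x2; ok v4 && (
  let v5 := mul v4 x0; ok v5 && (
  let v6 := mul v5 v5; ok v6 && (
  let v7 := mul v3 x1; ok v7 && (
  let v8 := cst ⟨549755813888, 0, 0, 0⟩; ok v8 && (
  let v9 := mul v3 v1; ok v9 && (
  let v10 := mul v9 x3; ok v10 && (
  let v11 := scale ⟨549755813888, 0, 0, 0⟩ v10; ok v11 && (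
  let v12 := mul v1 v1; ok v12 && (
  let v13 := mul v11 v11; ok v13 && (
  let v14 := sub v0 v13; ok v14 && (
  let v15 := inv v14; ok v15 && (
  let v16 := mul v11 v15; ok v16 && (
  let v17 := scale ⟨2199023255552, 0, 0, 0⟩ v16; ok v17 && (
  let v18 := scale ⟨2199023255552, 0, 0, 0⟩ v15; ok v18 && (
  let v19 := sub v18 v0; ok v19 && (
  let v20 := add v19 v17; ok v20 && (
  let v21 := mul x3 v15; ok v21 && (
  let v22 := mul v1 v21; ok v22 && (
  let v23 := sub v0 v22; ok v23 && (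
  let v24 := add v0 v22; ok v24 && (
  let v25 := mul v3 v12; ok v25 && (
  let v26 := mul v21 v21; ok v26 && (
  let v27 := scale ⟨10774999203840, 0, 0, 0⟩ v11; ok v27 && (
  let v28 := scale ⟨45768245248, 0, 0, 0⟩ v27; ok v28 && (
  let v29 := cst ⟨183207198720, 0, 0, 0⟩; ok v29 && (
  let v30 := add v28 v29; ok v30 && (
  let v31 := mul v27 v30; ok v31 && (
  let v32 := add v8 v31; ok v32 && (
  let v33 := mul v27 v32; ok v33 && (
  let v34 := add v0 v33; ok v34 && (
  let v35 := mul v27 v34; ok v35 && (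
  let v36 := scale ⟨549755813888, 0, 0, 0⟩ v35; ok v36 && (
  let v37 := add v0 v36; ok v37 && (
  let v38 := mul v34 v37; ok v38 && (
  let v39 := mul v17 v22; ok v39 && (
  let v40 := scale ⟨2199023255552, 0, 0, 0⟩ v19; ok v40 && (
  let v41 := add v39 v40; ok v41 && (
  let v42 := add v41 v3; ok v42 && (
  let v43 := mul v25 v42; ok v43 && (
  let v44 := add v43 v0; ok v44 && (
  let v45 := mul v17 v17; ok v45 && (
  let v46 := scale ⟨2199023255552, 0, 0, 0⟩ v45; ok v46 && (
  let v47 := add v46 v0; ok v47 && (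
  let v48 := mul v19 v42; ok v48 && (
  let v49 := sub v48 v0; ok v49 && (
  let v50 := log v44; ok v50 && (
  let v51 := scale ⟨549755813888, 0, 0, 0⟩ v50; ok v51 && (
  let v52 := exp v51; ok v52 && (
  let v53 := cst ⟨3298534883328, 0, 0, 0⟩; ok v53 && (
  let v54 := inv v53; ok v54 && (
  let v55 := mul v0 v54; ok v55 && (
  let v56 := cst ⟨2199023255552, 0, 0, 0⟩; ok v56 && (
  let v57 := add v43 v56; ok v57 && (
  let v58 := inv v57; ok v58 && (
  let v59 := mul v43 v58; ok v59 && (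
  let v60 := mul v59 v59; ok v60 && (
  let v61 := sub v0 v59; ok v61 && (
  let v62 := mul v60 v55; ok v62 && (
  let v63 := add v0 v62; ok v63 && (
  let v64 := mul v61 v63; ok v64 && (
  let v65 := mul v60 v60; ok v65 && (
  let v66 := scale ⟨219915747328, 0, 0, 0⟩ v65; ok v66 && (
  let v67 := mul v42 v64; ok v67 && (
  let v68 := scale ⟨549755813888, 0, 0, 0⟩ v67; ok v68 && (
  let v69 := mul v42 v66; ok v69 && (
  let v70 := scale ⟨549755813888, 0, 0, 0⟩ v69; ok v70 && (
  let v71 := add v68 v70; ok v71 && (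
  let v72 := mul v19 v49; ok v72 && (
  let v73 := scale ⟨4398046511104, 0, 0, 0⟩ v72; ok v73 && (
  let v74 := mul v19 v25; ok v74 && (
  let v75 := mul v74 v49; ok v75 && (
  let v76 := scale ⟨4398046511104, 0, 0, 0⟩ v75; ok v76 && (
  let v77 := add v76 v56; ok v77 && (
  let v78 := inv v77; ok v78 && (
  let v79 := mul v76 v78; ok v79 && (
  let v80 := mul v79 v79; ok v80 && (
  let v81 := sub v0 v79; ok v81 && (
  let v82 := mul v80 v55; ok v82 && (
  let v83 := add v0 v82; ok v83 && (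
  let v84 := mul v81 v83; ok v84 && (
  let v85 := mul v80 v80; ok v85 && (
  let v86 := scale ⟨219915747328, 0, 0, 0⟩ v85; ok v86 && (
  let v87 := mul v73 v84; ok v87 && (
  let v88 := scale ⟨549755813888, 0, 0, 0⟩ v87; ok v88 && (
  let v89 := sub v88 v71; ok v89 && (
  let v90 := mul v73 v86; ok v90 && (
  let v91 := scale ⟨549755813888, 0, 0, 0⟩ v90; ok v91 && (
  let v92 := add v91 v70; ok v92 && (
  let v93 := add v89 v92; ok v93 && (
  let v94 := mul x1 v68; ok v94 && (
  let v95 := neg v94; ok v95 && (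
  let v96 := exp v95; ok v96 && (
  let v97 := mul x1 v70; ok v97 && (
  let v98 := mul v96 v97; ok v98 && (
  let v99 := mul x1 v89; ok v99 && (
  let v100 := neg v99; ok v100 && (
  let v101 := exp v100; ok v101 && (
  let v102 := mul x1 v92; ok v102 && (
  let v103 := mul v101 v102; ok v103 && (
  let v104 := mul v22 v17; ok v104 && (
  let v105 := add v19 v104; ok v105 && (
  let v106 := inv v105; ok v106 && (
  let v107 := mul v24 v106; ok v107 && (
  let v108 := mul v23 v3; ok v108 && (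
  let v109 := mul v108 v107; ok v109 && (
  let v110 := sub v0 v12; ok v110 && (
  let v111 := mul v26 v110; ok v111 && (
  let v112 := mul v9 v9; ok v112 && (
  let v113 := sub v0 v26; ok v113 && (
  let v114 := mul v110 v113; ok v114 && (
  let v115 := mul v25 v49; ok v115 && (
  let v116 := inv v44; ok v116 && (
  let v117 := mul v115 v116; ok v117 && (
  let v118 := add v19 v117; ok v118 && (
  let v119 := mul v44 v118; ok v119 && (
  let v120 := mul v119 v119; ok v120 && (
  let v121 := inv v120; ok v121 && (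
  let v122 := mul v114 v121; ok v122 && (
  let v123 := add v19 v25; ok v123 && (
  let v124 := mul x0 v123; ok v124 && (
  let v125 := inv v124; ok v125 && (
  let v126 := mul v0 v125; ok v126 && (
  let v127 := mul v126 v126; ok v127 && (
  let v128 := mul v127 v114; ok v128 && (
  let v129 := cst ⟨10849087389696, 0, 0, 0⟩; ok v129 && (
  let v130 := sub v129 v128; ok v130 && (
  isPos 4 v130 && (
  let v131 := cst ⟨13, 0, 0, 0⟩; ok v131 && (
  let v132 := cst ⟨2295, 0, 0, 0⟩; ok v132 && (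
  let v133 := mul v128 v131; ok v133 && (
  let v134 := sub v132 v133; ok v134 && (
  let v135 := cst ⟨302996, 0, 0, 0⟩; ok v135 && (
  let v136 := mul v128 v134; ok v136 && (
  let v137 := sub v135 v136; ok v137 && (
  let v138 := cst ⟨27269633, 0, 0, 0⟩; ok v138 && (
  let v139 := mul v128 v137; ok v139 && (
  let v140 := sub v138 v139; ok v140 && (
  let v141 := cst ⟨1527099484, 0, 0, 0⟩; ok v141 && (
  let v142 := mul v128 v140; ok v142 && (
  let v143 := sub v141 v142; ok v143 && (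
  let v144 := cst ⟨45812984490, 0, 0, 0⟩; ok v144 && (
  let v145 := mul v128 v143; ok v145 && (
  let v146 := sub v144 v145; ok v146 && (
  let v147 := mul v128 v146; ok v147 && (
  let v148 := sub v8 v147; ok v148 && (
  let v149 := mul v128 v148; ok v149 && (
  let v150 := sub v0 v149; ok v150 && (
  let v151 := add v96 v0; ok v151 && (
  let v152 := mul v96 v96; ok v152 && (
  let v153 := add v152 v0; ok v153 && (
  let v154 := mul v96 v150; ok v154 && (
  let v155 := scale ⟨2199023255552, 0, 0, 0⟩ v154; ok v155 && (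
  let v156 := add v153 v155; ok v156 && (
  let v157 := scale ⟨4398046511104, 0, 0, 0⟩ v98; ok v157 && (
  let v158 := sub v156 v157; ok v158 && (
  let v159 := inv v151; ok v159 && (
  let v160 := mul v158 v159; ok v160 && (
  let v161 := add v160 v151; ok v161 && (
  let v162 := mul v96 v109; ok v162 && (
  let v163 := scale ⟨549755813888, 0, 0, 0⟩ v162; ok v163 && (
  let v164 := mul v163 v161; ok v164 && (
  let v165 := sub v158 v164; ok v165 && (
  isPos 4 v158 && (
  isPos 4 v165 && (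
  let v166 := sub v0 v96; ok v166 && (
  let v167 := mul v166 v151; ok v167 && (
  let v168 := scale ⟨2199023255552, 0, 0, 0⟩ v98; ok v168 && (
  let v169 := add v167 v168; ok v169 && (
  let v170 := inv v165; ok v170 && (
  let v171 := mul v169 v170; ok v171 && (
  let v172 := scale ⟨549755813888, 0, 0, 0⟩ v171; ok v172 && (
  let v173 := add v172 v8; ok v173 && (
  let v174 := inv v173; ok v174 && (
  let v175 := mul v172 v174; ok v175 && (
  let v176 := mul v109 v175; ok v176 && (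
  let v177 := scale ⟨549755813888, 0, 0, 0⟩ v176; ok v177 && (
  let v178 := sub v0 v177; ok v178 && (
  let v179 := sub v0 v176; ok v179 && (
  let v180 := inv v179; ok v180 && (
  let v181 := mul v178 v180; ok v181 && (
  let v182 := add v176 v0; ok v182 && (
  let v183 := mul v96 v182; ok v183 && (
  let v184 := mul v107 v181; ok v184 && (
  let v185 := mul v184 v175; ok v185 && (
  let v186 := mul v176 v181; ok v186 && (
  isPos 4 v179 && (
  let v187 := mul v23 v24; ok v187 && (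
  let v188 := add v19 v3; ok v188 && (
  let v189 := mul v22 v19; ok v189 && (
  let v190 := mul v189 v17; ok v190 && (
  let v191 := scale ⟨2199023255552, 0, 0, 0⟩ v190; ok v191 && (
  let v192 := add v47 v191; ok v192 && (
  let v193 := mul v188 v192; ok v193 && (
  let v194 := inv v193; ok v194 && (
  let v195 := mul v187 v194; ok v195 && (
  let v196 := mul v3 v195; ok v196 && (
  isPos 4 v89 && (
  let v197 := mul v128 v116; ok v197 && (
  let v198 := sub v129 v197; ok v198 && (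
  isPos 4 v198 && (
  let v199 := mul v197 v131; ok v199 && (
  let v200 := sub v132 v199; ok v200 && (
  let v201 := mul v197 v200; ok v201 && (
  let v202 := sub v135 v201; ok v202 && (
  let v203 := mul v197 v202; ok v203 && (
  let v204 := sub v138 v203; ok v204 && (
  let v205 := mul v197 v204; ok v205 && (
  let v206 := sub v141 v205; ok v206 && (
  let v207 := mul v197 v206; ok v207 && (
  let v208 := sub v144 v207; ok v208 && (
  let v209 := mul v197 v208; ok v209 && (
  let v210 := sub v8 v209; ok v210 && (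
  let v211 := mul v197 v210; ok v211 && (
  let v212 := sub v0 v211; ok v212 && (
  let v213 := add v101 v0; ok v213 && (
  let v214 := mul v101 v101; ok v214 && (
  let v215 := add v214 v0; ok v215 && (
  let v216 := mul v101 v212; ok v216 && (
  let v217 := scale ⟨2199023255552, 0, 0, 0⟩ v216; ok v217 && (
  let v218 := add v215 v217; ok v218 && (
  let v219 := scale ⟨4398046511104, 0, 0, 0⟩ v103; ok v219 && (
  let v220 := sub v218 v219; ok v220 && (
  let v221 := inv v213; ok v221 && (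
  let v222 := mul v220 v221; ok v222 && (
  let v223 := add v222 v213; ok v223 && (
  let v224 := mul v101 v196; ok v224 && (
  let v225 := scale ⟨549755813888, 0, 0, 0⟩ v224; ok v225 && (
  let v226 := mul v225 v223; ok v226 && (
  let v227 := sub v220 v226; ok v227 && (
  isPos 4 v220 && (
  isPos 4 v227 && (
  let v228 := sub v0 v101; ok v228 && (
  let v229 := mul v228 v213; ok v229 && (
  let v230 := scale ⟨2199023255552, 0, 0, 0⟩ v103; ok v230 && (
  let v231 := add v229 v230; ok v231 && (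
  let v232 := inv v227; ok v232 && (
  let v233 := mul v231 v232; ok v233 && (
  let v234 := scale ⟨549755813888, 0, 0, 0⟩ v233; ok v234 && (
  let v235 := add v234 v8; ok v235 && (
  let v236 := inv v235; ok v236 && (
  let v237 := mul v234 v236; ok v237 && (
  let v238 := mul v196 v237; ok v238 && (
  let v239 := mul v237 x0; ok v239 && (
  let v240 := add v11 v0; ok v240 && (
  let v241 := inv v240; ok v241 && (
  let v242 := mul v11 v241; ok v242 && (
  let v243 := scale ⟨2199023255552, 0, 0, 0⟩ v242; ok v243 && (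
  let v244 := sub v0 v243; ok v244 && (
  let v245 := sub v0 v11; ok v245 && (
  let v246 := mul x3 v241; ok v246 && (
  let v247 := mul v246 v244; ok v247 && (
  let v248 := add v24 v247; ok v248 && (
  let v249 := scale ⟨224412041216, 0, 0, 0⟩ v15; ok v249 && (
  let v250 := inv v38; ok v250 && (
  let v251 := mul v249 v250; ok v251 && (
  let v252 := scale ⟨5497558138880, 0, 0, 0⟩ x0; ok v252 && (
  let v253 := inv v252; ok v253 && (
  let v254 := mul v0 v253; ok v254 && (
  let v255 := mul x0 v253; ok v255 && (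
  let v256 := mul v255 v24; ok v256 && (
  let v257 := mul v256 v251; ok v257 && (
  let v258 := mul v254 v24; ok v258 && (
  let v259 := mul v258 v251; ok v259 && (
  let v260 := sub v0 v259; ok v260 && (
  let v261 := inv v260; ok v261 && (
  let v262 := mul v183 v259; ok v262 && (
  let v263 := sub v0 v262; ok v263 && (
  let v264 := inv v263; ok v264 && (
  let v265 := scale ⟨2199023255552, 0, 0, 0⟩ v6; ok v265 && (
  let v266 := add v265 v0; ok v266 && (
  let v267 := add v6 v0; ok v267 && (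
  let v268 := scale ⟨3573412790272, 0, 0, 0⟩ v22; ok v268 && (
  let v269 := cst ⟨339302416384, 0, 0, 0⟩; ok v269 && (
  let v270 := add v268 v269; ok v270 && (
  let v271 := scale ⟨549755813888, 0, 0, 0⟩ v270; ok v271 && (
  let v272 := mul v11 v21; ok v272 && (
  let v273 := sub v0 v111; ok v273 && (
  let v274 := mul v11 v22; ok v274 && (
  let v275 := scale ⟨2199023255552, 0, 0, 0⟩ v274; ok v275 && (
  let v276 := sub v273 v275; ok v276 && (
  let v277 := mul v272 v272; ok v277 && (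
  let v278 := add v276 v277; ok v278 && (
  let v279 := add v278 v0; ok v279 && (
  let v280 := scale ⟨549755813888, 0, 0, 0⟩ v279; ok v280 && (
  let v281 := scale ⟨549755813888, 0, 0, 0⟩ v25; ok v281 && (
  let v282 := sub v15 v281; ok v282 && (
  let v283 := mul v112 v273; ok v283 && (
  let v284 := mul v283 v14; ok v284 && (
  let v285 := scale ⟨137438953472, 0, 0, 0⟩ v284; ok v285 && (
  let v286 := add v282 v285; ok v286 && (
  let v287 := mul v280 v286; ok v287 && (
  let v288 := cst ⟨1, 0, 0, 0⟩; ok v288 && (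
  let v289 := cst ⟨12, 0, 0, 0⟩; ok v289 && (
  let v290 := mul v128 v288; ok v290 && (
  let v291 := sub v289 v290; ok v291 && (
  let v292 := cst ⟨2296, 0, 0, 0⟩; ok v292 && (
  let v293 := mul v128 v291; ok v293 && (
  let v294 := sub v292 v293; ok v294 && (
  let v295 := cst ⟨302995, 0, 0, 0⟩; ok v295 && (
  let v296 := mul v128 v294; ok v296 && (
  let v297 := sub v295 v296; ok v297 && (
  let v298 := cst ⟨27269634, 0, 0, 0⟩; ok v298 && (
  let v299 := mul v128 v297; ok v299 && (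
  let v300 := sub v298 v299; ok v300 && (
  let v301 := cst ⟨1527099483, 0, 0, 0⟩; ok v301 && (
  let v302 := mul v128 v300; ok v302 && (
  let v303 := sub v301 v302; ok v303 && (
  let v304 := cst ⟨45812984491, 0, 0, 0⟩; ok v304 && (
  let v305 := mul v128 v303; ok v305 && (
  let v306 := sub v304 v305; ok v306 && (
  let v307 := mul v128 v306; ok v307 && (
  let v308 := sub v8 v307; ok v308 && (
  let v309 := mul v128 v308; ok v309 && (
  let v310 := sub v0 v309; ok v310 && (
  let v311 := mul v128 v6; ok v311 && (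
  let v312 := mul v311 v311; ok v312 && (
  let v313 := scale ⟨369367187456, 0, 0, 0⟩ v312; ok v313 && (
  let v314 := add v310 v313; ok v314 && (
  let v315 := mul v96 v314; ok v315 && (
  let v316 := scale ⟨2199023255552, 0, 0, 0⟩ v315; ok v316 && (
  let v317 := add v153 v316; ok v317 && (
  let v318 := add v317 v168; ok v318 && (
  let v319 := cst ⟨8589934592, 0, 0, 0⟩; ok v319 && (
  let v320 := add v318 v319; ok v320 && (
  let v321 := log v320; ok v321 && (
  let v322 := scale ⟨549755813888, 0, 0, 0⟩ v321; ok v322 && (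
  let v323 := exp v322; ok v323 && (
  let v324 := mul v96 v176; ok v324 && (
  let v325 := add v323 v324; ok v325 && (
  let v326 := mul v325 v261; ok v326 && (
  let v327 := mul v183 v264; ok v327 && (
  let v328 := add v326 v327; ok v328 && (
  let v329 := mul v259 v328; ok v329 && (
  let v330 := add v186 v329; ok v330 && (
  let v331 := mul v330 v6; ok v331 && (
  let v332 := mul v325 v259; ok v332 && (
  let v333 := mul v332 v261; ok v333 && (
  let v334 := add v186 v333; ok v334 && (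
  let v335 := mul v334 v6; ok v335 && (
  let v336 := scale ⟨223338299392, 0, 0, 0⟩ v335; ok v336 && (
  let v337 := add v8 v336; ok v337 && (
  let v338 := mul v335 v337; ok v338 && (
  let v339 := add v0 v338; ok v339 && (
  let v340 := scale ⟨893353197568, 0, 0, 0⟩ v331; ok v340 && (
  let v341 := add v0 v340; ok v341 && (
  let v342 := mul v331 v341; ok v342 && (
  let v343 := add v0 v342; ok v343 && (
  let v344 := mul v243 v246; ok v344 && (
  let v345 := mul v344 v266; ok v345 && (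
  let v346 := mul v345 v343; ok v346 && (
  let v347 := mul v287 v339; ok v347 && (
  let v348 := add v52 v8; ok v348 && (
  let v349 := mul v346 v348; ok v349 && (
  let v350 := add v347 v349; ok v350 && (
  let v351 := add v52 v0; ok v351 && (
  let v352 := mul v346 v351; ok v352 && (
  let v353 := mul v267 v351; ok v353 && (
  let v354 := mul v353 v246; ok v354 && (
  let v355 := mul v354 v245; ok v355 && (
  let v356 := mul v350 v185; ok v356 && (
  let v357 := mul v355 v271; ok v357 && (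
  let v358 := add v356 v357; ok v358 && (
  let v359 := mul v7 v248; ok v359 && (
  let v360 := inv v52; ok v360 && (
  let v361 := mul v359 v360; ok v361 && (
  let v362 := scale ⟨549755813888, 0, 0, 0⟩ v361; ok v362 && (
  let v363 := mul v23 v362; ok v363 && (
  let v364 := mul v3 v358; ok v364 && (
  let v365 := add v363 v364; ok v365 && (
  let v366 := mul x0 v365; ok v366 && (
  let v367 := mul v350 v325; ok v367 && (
  let v368 := mul v367 v261; ok v368 && (
  let v369 := mul v352 v183; ok v369 && (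
  let v370 := mul v369 v264; ok v370 && (
  let v371 := add v368 v370; ok v371 && (
  let v372 := mul v23 v366; ok v372 && (
  let v373 := mul v257 v371; ok v373 && (
  let v374 := add v372 v373; ok v374 && (
  let v375 := mul v112 v374; ok v375 && (
  let v376 := mul v375 v360; ok v376 && (
  let v377 := sub v0 v376; ok v377 && (
  let v378 := inv v377; ok v378 && (
  let v379 := mul v374 v378; ok v379 && (
  let v380 := mul v3 v379; ok v380 && (
  let v381 := mul v112 v379; ok v381 && (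
  let v382 := mul v381 v360; ok v382 && (
  let v383 := sub v0 v382; ok v383 && (
  let v384 := mul v49 v383; ok v384 && (
  let v385 := sub v384 v380; ok v385 && (
  let v386 := inv v385; ok v386 && (
  let v387 := mul v380 v386; ok v387 && (
  let v388 := sub v52 v381; ok v388 && (
  let v389 := inv v388; ok v389 && (
  let v390 := mul v387 v237; ok v390 && (
  let v391 := scale ⟨549755813888, 0, 0, 0⟩ v390; ok v391 && (
  let v392 := sub v0 v391; ok v392 && (
  let v393 := sub v0 v390; ok v393 && (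
  let v394 := inv v393; ok v394 && (
  let v395 := mul v392 v394; ok v395 && (
  let v396 := mul v1 v389; ok v396 && (
  let v397 := mul v239 v386; ok v397 && (
  let v398 := mul v397 v395; ok v398 && (
  let v399 := add v396 v398; ok v399 && (
  let v400 := mul v7 v379; ok v400 && (
  let v401 := mul v389 v400; ok v401 && (
  let v402 := mul v237 v386; ok v402 && (
  let v403 := mul v402 v395; ok v403 && (
  let v404 := mul v403 v380; ok v404 && (
  let v405 := add v401 v404; ok v405 && (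
  let v406 := scale ⟨223338299392, 0, 0, 0⟩ v405; ok v406 && (
  let v407 := add v8 v406; ok v407 && (
  let v408 := mul v405 v407; ok v408 && (
  let v409 := add v0 v408; ok v409 && (
  let v410 := mul v399 v409; ok v410 && (
  let v411 := mul v410 v378; ok v411 && (
  let v412 := mul v411 v371; ok v412 && (
  let v413 := mul v258 v23; ok v413 && (
  let v414 := cst ⟨5497558138880, 0, 0, 0⟩; ok v414 && (
  let v415 := inv v414; ok v415 && (
  let v416 := mul v53 v415; ok v416 && (
  let v417 := mul v240 v24; ok v417 && (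
  let v418 := mul v417 v416; ok v418 && (
  let v419 := mul v188 v106; ok v419 && (
  let v420 := mul v22 v419; ok v420 && (
  let v421 := scale ⟨549755813888, 0, 0, 0⟩ v238; ok v421 && (
  let v422 := sub v0 v421; ok v422 && (
  let v423 := sub v0 v238; ok v423 && (
  let v424 := inv v423; ok v424 && (
  let v425 := mul v422 v424; ok v425 && (
  let v426 := mul v425 v196; ok v426 && (
  let v427 := mul v112 v122; ok v427 && (
  let v428 := scale ⟨733097230336, 0, 0, 0⟩ v427; ok v428 && (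
  let v429 := sub v0 v428; ok v429 && (
  let v430 := mul v122 v429; ok v430 && (
  let v431 := mul v89 v89; ok v431 && (
  let v432 := mul v12 v431; ok v432 && (
  let v433 := add v430 v432; ok v433 && (
  let v434 := mul v426 v239; ok v434 && (
  let v435 := add v433 v0; ok v435 && (
  let v436 := mul v434 v435; ok v436 && (
  let v437 := sub v433 v436; ok v437 && (
  let v438 := scale ⟨366548615168, 0, 0, 0⟩ v45; ok v438 && (
  let v439 := sub v0 v438; ok v439 && (
  let v440 := mul v26 v439; ok v440 && (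
  let v441 := add v437 v440; ok v441 && (
  let v442 := mul v419 v441; ok v442 && (
  let v443 := mul v420 v420; ok v443 && (
  let v444 := add v0 v443; ok v444 && (
  let v445 := inv v444; ok v445 && (
  let v446 := mul v442 v445; ok v446 && (
  let v447 := sub v0 v387; ok v447 && (
  let v448 := mul v447 v446; ok v448 && (
  let v449 := sub v0 v434; ok v449 && (
  isPos 4 v449 && (
  isPos 4 v446 && (
  isPos 4 v447 && (
  let v450 := mul v411 v252; ok v450 && (
  let v451 := mul v450 v365; ok v451 && (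
  let v452 := inv v24; ok v452 && (
  let v453 := mul v451 v452; ok v453 && (
  let v454 := mul x1 v448; ok v454 && (
  let v455 := neg v454; ok v455 && (
  let v456 := exp v455; ok v456 && (
  let v457 := mul v3 v418; ok v457 && (
  let v458 := add v0 v457; ok v458 && (
  let v459 := inv v458; ok v459 && (
  let v460 := mul v456 v459; ok v460 && (
  let v461 := mul v460 v20; ok v461 && (
  let v462 := mul v9 v379; ok v462 && (
  let v463 := mul v462 v452; ok v463 && (
  let v464 := add v0 v463; ok v464 && (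
  let v465 := mul v461 v464; ok v465 && (
  let v466 := mul v465 v389; ok v466 && (
  let v467 := mul v3 v412; ok v467 && (
  let v468 := mul v467 v259; ok v468 && (
  let v469 := mul v3 v413; ok v469 && (
  let v470 := mul v453 v469; ok v470 && (
  let v471 := add v468 v470; ok v471 && (
  let v472 := add v467 v453; ok v472 && (
  let v473 := add v0 v471; ok v473 && (
  let v474 := mul v466 v473; ok v474 && (
  let v475 := add v472 v474; ok v475 && (
  let v476 := sub v0 v475; ok v476 && (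
  let v477 := scale ⟨1073741824, 0, 0, 0⟩ v3; ok v477 && (
  let v478 := sub v476 v477; ok v478 && (
  let v479 := sub v20 v0; ok v479 && (
  let v480 := add v479 v56; ok v480 && (
  let v481 := scale ⟨2199023255552, 0, 0, 0⟩ v416; ok v481 && (
  let v482 := sub v480 v481; ok v482 && (
  let v483 := mul v240 v482; ok v483 && (
  let v484 := mul v479 v481; ok v484 && (
  let v485 := add v484 v0; ok v485 && (
  let v486 := inv v485; ok v486 && (
  let v487 := mul v483 v486; ok v487 && (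
  let v488 := mul v255 v371; ok v488 && (
  let v489 := scale ⟨549755813888, 0, 0, 0⟩ v251; ok v489 && (
  let v490 := add v17 v489; ok v490 && (
  let v491 := mul v488 v490; ok v491 && (
  let v492 := scale ⟨2199023255552, 0, 0, 0⟩ v491; ok v492 && (
  let v493 := add v366 v492; ok v493 && (
  let v494 := scale ⟨2199023255552, 0, 0, 0⟩ v493; ok v494 && (
  let v495 := mul v494 v378; ok v495 && (
  let v496 := sub v24 v462; ok v496 && (
  let v497 := inv v496; ok v497 && (
  let v498 := mul v495 v497; ok v498 && (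
  let v499 := sub v487 v498; ok v499 && (
  let v500 := mul v0 v21; ok v500 && (
  let v501 := mul v500 v500; ok v501 && (
  let v502 := cst ⟨14293651161088, 0, 0, 0⟩; ok v502 && (
  let v503 := cst ⟨10995116277760, 0, 0, 0⟩; ok v503 && (
  let v504 := inv v503; ok v504 && (
  let v505 := mul v502 v504; ok v505 && (
  let v506 := mul v501 v505; ok v506 && (
  let v507 := mul x0 x0; ok v507 && (
  let v508 := scale ⟨27487790694400, 0, 0, 0⟩ v507; ok v508 && (
  let v509 := add v506 v508; ok v509 && (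
  let v510 := mul v418 v459; ok v510 && (
  let v511 := sub v40 v3; ok v511 && (
  let v512 := sub v511 v39; ok v512 && (
  let v513 := mul v0 v1; ok v513 && (
  let v514 := mul v513 x0; ok v514 && (
  let v515 := mul v24 v371; ok v515 && (
  let v516 := mul v515 v253; ok v516 && (
  let v517 := add v358 v516; ok v517 && (
  let v518 := add v462 v56; ok v518 && (
  let v519 := mul v0 v518; ok v519 && (
  let v520 := mul v509 v510; ok v520 && (
  let v521 := mul v378 v519; ok v521 && (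
  let v522 := mul v514 v517; ok v522 && (
  let v523 := mul v521 v522; ok v523 && (
  let v524 := sub v520 v523; ok v524 && (
  let v525 := scale ⟨549755813888, 0, 0, 0⟩ v462; ok v525 && (
  let v526 := add v0 v525; ok v526 && (
  let v527 := mul v378 v526; ok v527 && (
  let v528 := mul v3 v23; ok v528 && (
  let v529 := mul v528 v248; ok v529 && (
  let v530 := mul v24 v52; ok v530 && (
  let v531 := inv v530; ok v531 && (
  let v532 := mul v529 v531; ok v532 && (
  let v533 := mul v527 v532; ok v533 && (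
  let v534 := sub v512 v533; ok v534 && (
  let v535 := mul v251 v524; ok v535 && (
  let v536 := sub v0 v251; ok v536 && (
  let v537 := mul v12 v534; ok v537 && (
  let v538 := mul v536 v537; ok v538 && (
  let v539 := mul v509 v538; ok v539 && (
  let v540 := add v535 v539; ok v540 && (
  isPos 4 v260 && (
  isPos 4 v263 && (
  let v541 := scale ⟨2199023255552, 0, 0, 0⟩ v375; ok v541 && (
  let v542 := sub v52 v541; ok v542 && (
  isPos 4 v542 && (
  isPos 4 v385 && (
  let v543 := sub v8 v238; ok v543 && (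
  isPos 4 v543 && (
  let v544 := scale ⟨687194767360, 0, 0, 0⟩ v0; ok v544 && (
  let v545 := sub v544 v335; ok v545 && (
  isPos 4 v545 && (
  let v546 := scale ⟨377957122048, 0, 0, 0⟩ v0; ok v546 && (
  let v547 := sub v546 v331; ok v547 && (
  isPos 4 v547 && (
  isPos 4 v496 && (
  isPos 4 v393 && (
  let v548 := sub v544 v405; ok v548 && (
  isPos 4 v548 && (
  isPos 4 v499 && (
  isPos 4 v478 && (
  isPos 4 v540 && (
  isPos 4 v534 && (
  true))))))))))))))))))))))))))))))))))))))))))))))))))))))))))))))))))))))))))))))))))))))))))))))))))))))))))))))))))))))))))))))))))))))))))))))))))))))))))))))))))))))))))))))))))))))))))))))))))))))))))))))))))))))))))))))))))))))))))))))))))))))))))))))))))))))))))))))))))))))))))))))))))))))))))))))))))))))))))))))))))))))))))))))))))))))))))))))))))))))))))))))))))))))))))))))))))))))))))))))))))))))))))))))))))))))))))))))))))))))))))))))))))))))))))))))))))))))))))))))))))))))))))))))))))))))))))))))))))))))))))))))))))))))))))))))))))))))))))))))))))))))))))))))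
  | _ => false

set_option maxRecDepth 1000000 in
theorem chk1_eq (O : Ops) (m : List O.α)
    (h : chk1 O.cst O.add O.sub O.mul O.scale O.neg O.inv O.exp O.log O.ok O.isPos O.isLt m = true) :
    runG O 4 prog1 m = true := by
  match m, h with
  | [x0, x1, x2, x3], h => exact h

def chkB1 : List opsE.α → Bool :=
  chk1 opsE.cst opsE.add opsE.sub opsE.mul opsE.scale opsE.neg opsE.inv opsE.exp opsE.log opsE.ok opsE.isPos opsE.isLt

theorem chkB1_eq (m : List opsE.α) (h : chkB1 m = true) : runG opsE 4 prog1 m = true :=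
  chk1_eq opsE m h

def prog2 : List Op := [
  .const ⟨1099511627776, 0, 0, 0⟩,
  .mul 2 1,
  .mul 4 4,
  .mul 4 0,
  .mul 5 6,
  .mul 0 5,
  .mul 0 0,
  .mul 3 8,
  .const ⟨549755813888, 0, 0, 0⟩,
  .mul 5 7,
  .mul 0 13,
  .scale ⟨549755813888, 0, 0, 0⟩ 0,
  .mul 10 10,
  .mul 1 1,
  .sub 13 0,
  .inv 0,
  .mul 4 0,
  .scale ⟨2199023255552, 0, 0, 0⟩ 0,
  .scale ⟨2199023255552, 0, 0, 0⟩ 2,
  .sub 0 18,
  .add 0 2,
  .mul 24 5,
  .mul 20 0,
  .sub 22 0,
  .add 23 1,
  .mul 21 12,
  .mul 4 4,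
  .scale ⟨10774999203840, 0, 0, 0⟩ 15,
  .scale ⟨45768245248, 0, 0, 0⟩ 0,
  .const ⟨183207198720, 0, 0, 0⟩,
  .add 1 0,
  .mul 3 0,
  .add 23 0,
  .mul 5 0,
  .add 33 0,
  .mul 7 0,
  .scale ⟨549755813888, 0, 0, 0⟩ 0,
  .add 36 0,
  .mul 3 0,
  .mul 21 16,
  .scale ⟨2199023255552, 0, 0, 0⟩ 20,
  .add 1 0,
  .add 0 38,
  .mul 17 0,
  .add 0 43,
  .mul 27 27,
  .scale ⟨2199023255552, 0, 0, 0⟩ 0,
  .add 0 46,
  .mul 28 5,
  .sub 0 48,
  .log 5,
  .scale ⟨549755813888, 0, 0, 0⟩ 0,
  .exp 0,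
  .const ⟨3298534883328, 0, 0, 0⟩,
  .inv 0,
  .mul 54 0,
  .const ⟨2199023255552, 0, 0, 0⟩,
  .add 13 0,
  .inv 0,
  .mul 15 0,
  .mul 0 0,
  .sub 60 1,
  .mul 1 6,
  .add 62 0,
  .mul 2 0,
  .mul 4 4,
  .scale ⟨219915747328, 0, 0, 0⟩ 0,
  .mul 24 2,
  .scale ⟨549755813888, 0, 0, 0⟩ 0,
  .mul 26 2,
  .scale ⟨549755813888, 0, 0, 0⟩ 0,
  .add 2 0,
  .mul 52 22,
  .scale ⟨4398046511104, 0, 0, 0⟩ 0,
  .mul 54 48,
  .mul 0 25,
  .scale ⟨4398046511104, 0, 0, 0⟩ 0,
  .add 0 20,
  .inv 0,
  .mul 2 0,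
  .mul 0 0,
  .sub 80 1,
  .mul 1 26,
  .add 82 0,
  .mul 2 0,
  .mul 4 4,
  .scale ⟨219915747328, 0, 0, 0⟩ 0,
  .mul 13 2,
  .scale ⟨549755813888, 0, 0, 0⟩ 0,
  .sub 0 17,
  .mul 16 3,
  .scale ⟨549755813888, 0, 0, 0⟩ 0,
  .add 0 21,
  .add 3 0,
  .mul 95 25,
  .neg 0,
  .exp 0,
  .mul 98 26,
  .mul 1 0,
  .mul 76 81,
  .add 80 0,
  .inv 0,
  .mul 77 0,
  .mul 79 99,
  .mul 0 1,
  .sub 104 92,
  .mul 79 0,
  .mul 97 97,
  .sub 107 81,
  .mul 3 0,
  .mul 84 60,
  .inv 66,
  .mul 1 0,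
  .add 93 0,
  .mul 69 0,
  .mul 0 0,
  .inv 0,
  .mul 7 0,
  .mul 13 117,
  .scale ⟨549755813888, 0, 0, 0⟩ 0,
  .sub 119 0,
  .sub 120 2,
  .inv 0,
  .mul 2 0,
  .add 5 123,
  .mul 28 0,
  .mul 23 2,
  .mul 0 126,
  .mul 9 4,
  .pos 7,
  .mul 105 104,
  .add 110 126,
  .mul 108 111,
  .mul 0 114,
  .scale ⟨2199023255552, 0, 0, 0⟩ 0,
  .add 86 0,
  .mul 4 0,
  .inv 0,
  .mul 7 0,
  .mul 134 0,
  .pos 49,
  .mul 0 138,
  .mul 139 140,
  .add 129 140,
  .inv 0,
  .mul 131 0,
  .scale ⟨2199023255552, 0, 0, 0⟩ 0,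
  .sub 144 0,
  .sub 145 134,
  .mul 150 4,
  .mul 0 2,
  .add 124 0,
  .scale ⟨224412041216, 0, 0, 0⟩ 134,
  .inv 112,
  .mul 1 0,
  .scale ⟨5497558138880, 0, 0, 0⟩ 153,
  .inv 0,
  .mul 154 0,
  .mul 156 1,
  .mul 0 132,
  .mul 0 5,
  .mul 3 134,
  .mul 0 7,
  .sub 160 0,
  .inv 0,
  .mul 37 2,
  .sub 163 0,
  .inv 0,
  .scale ⟨2199023255552, 0, 0, 0⟩ 159,
  .add 0 166,
  .add 161 167,
  .scale ⟨3573412790272, 0, 0, 0⟩ 146,
  .const ⟨339302416384, 0, 0, 0⟩,
  .add 1 0,
  .scale ⟨549755813888, 0, 0, 0⟩ 0,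
  .mul 161 151,
  .sub 173 67,
  .mul 163 152,
  .scale ⟨2199023255552, 0, 0, 0⟩ 0,
  .sub 2 0,
  .mul 4 4,
  .add 1 0,
  .add 0 179,
  .scale ⟨549755813888, 0, 0, 0⟩ 0,
  .scale ⟨549755813888, 0, 0, 0⟩ 156,
  .sub 167 0,
  .mul 76 9,
  .mul 0 170,
  .scale ⟨137438953472, 0, 0, 0⟩ 0,
  .add 3 0,
  .mul 6 0,
  .add 63 188,
  .mul 0 27,
  .mul 65 25,
  .add 1 0,
  .mul 32 0,
  .add 65 0,
  .mul 0 188,
  .mul 6 35,
  .mul 0 34,
  .add 69 0,
  .mul 0 192,
  .scale ⟨223338299392, 0, 0, 0⟩ 0,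
  .add 192 0,
  .mul 2 0,
  .add 202 0,
  .scale ⟨893353197568, 0, 0, 0⟩ 8,
  .add 204 0,
  .mul 10 0,
  .add 206 0,
  .mul 63 60,
  .mul 0 41,
  .mul 0 2,
  .mul 22 7,
  .add 159 203,
  .mul 2 0,
  .add 2 0,
  .add 162 214,
  .mul 5 0,
  .mul 48 1,
  .mul 0 70,
  .mul 0 72,
  .mul 5 92,
  .mul 1 48,
  .add 1 0,
  .mul 215 73,
  .inv 171,
  .mul 1 0,
  .scale ⟨549755813888, 0, 0, 0⟩ 0,
  .mul 203 0,
  .mul 224 5,
  .add 1 0,
  .mul 230 0,
  .mul 16 41,
  .mul 0 69,
  .mul 16 107,
  .mul 0 68,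
  .add 2 0,
  .mul 212 5,
  .mul 78 1,
  .add 1 0,
  .mul 131 0,
  .mul 0 15,
  .sub 240 0,
  .inv 0,
  .mul 4 0,
  .mul 240 0,
  .mul 137 1,
  .mul 0 21,
  .sub 246 0,
  .mul 198 0,
  .sub 0 4,
  .inv 0,
  .mul 6 0,
  .sub 199 6,
  .inv 0,
  .mul 2 253,
  .scale ⟨549755813888, 0, 0, 0⟩ 0,
  .sub 255 0,
  .sub 256 2,
  .inv 0,
  .mul 2 0,
  .mul 258 6,
  .mul 120 10,
  .mul 0 2,
  .add 2 0,
  .mul 256 20,
  .mul 11 0,
  .mul 265 15,
  .mul 0 7,
  .mul 0 23,
  .add 3 0,
  .scale ⟨223338299392, 0, 0, 0⟩ 0,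
  .add 262 0,
  .mul 2 0,
  .add 272 0,
  .mul 10 0,
  .mul 0 32,
  .mul 0 40,
  .mul 117 253,
  .const ⟨5497558138880, 0, 0, 0⟩,
  .inv 0,
  .mul 226 0,
  .mul 139 256,
  .mul 0 1,
  .mul 152 181,
  .mul 261 0,
  .scale ⟨549755813888, 0, 0, 0⟩ 145,
  .sub 285 0,
  .sub 286 147,
  .inv 0,
  .mul 2 0,
  .mul 0 151,
  .mul 183 173,
  .scale ⟨733097230336, 0, 0, 0⟩ 0,
  .sub 292 0,
  .mul 176 0,
  .mul 205 205,
  .mul 283 0,
  .add 2 0,
  .mul 7 157,
  .add 1 298,
  .mul 1 0,
  .sub 3 0,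
  .scale ⟨366548615168, 0, 0, 0⟩ 256,
  .sub 302 0,
  .mul 277 0,
  .add 3 0,
  .mul 22 0,
  .mul 22 22,
  .add 307 0,
  .inv 0,
  .mul 3 0,
  .sub 310 59,
  .mul 0 1,
  .sub 312 14,
  .pos 0,
  .pos 3,
  .pos 2,
  .mul 38 160,
  .mul 0 85,
  .inv 291,
  .mul 1 0,
  .mul 319 5,
  .neg 0,
  .exp 0,
  .mul 317 38,
  .add 321 0,
  .inv 0,
  .mul 3 0,
  .mul 0 304,
  .mul 316 82,
  .mul 0 10,
  .add 327 0,
  .mul 3 0,
  .mul 0 76,
  .mul 327 54,
  .mul 0 171,
  .mul 329 55,
  .mul 16 0,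
  .add 2 0,
  .add 4 18,
  .add 336 1,
  .mul 7 0,
  .add 2 0,
  .sub 339 0,
  .scale ⟨1073741824, 0, 0, 0⟩ 337,
  .sub 1 0,
  .sub 322 342,
  .add 0 287,
  .scale ⟨2199023255552, 0, 0, 0⟩ 64,
  .sub 1 0,
  .mul 205 0,
  .mul 4 2,
  .add 0 348,
  .inv 0,
  .mul 3 0,
  .mul 195 116,
  .scale ⟨549755813888, 0, 0, 0⟩ 200,
  .add 336 0,
  .mul 2 0,
  .scale ⟨2199023255552, 0, 0, 0⟩ 0,
  .add 126 0,
  .scale ⟨2199023255552, 0, 0, 0⟩ 0,
  .mul 0 116,
  .sub 335 33,
  .inv 0,
  .mul 2 0,
  .sub 11 0,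
  .mul 363 342,
  .mul 0 0,
  .const ⟨14293651161088, 0, 0, 0⟩,
  .const ⟨10995116277760, 0, 0, 0⟩,
  .inv 0,
  .mul 2 0,
  .mul 4 0,
  .mul 371 371,
  .scale ⟨27487790694400, 0, 0, 0⟩ 0,
  .add 2 0,
  .mul 91 50,
  .sub 334 371,
  .sub 0 336,
  .mul 376 375,
  .mul 0 378,
  .mul 354 143,
  .mul 0 225,
  .add 158 0,
  .add 55 325,
  .mul 382 0,
  .mul 10 9,
  .mul 142 1,
  .mul 7 4,
  .mul 1 0,
  .sub 3 0,
  .scale ⟨549755813888, 0, 0, 0⟩ 62,
  .add 389 0,
  .mul 148 0,
  .mul 388 368,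
  .mul 0 243,
  .mul 369 341,
  .inv 0,
  .mul 2 0,
  .mul 5 0,
  .sub 21 0,
  .mul 246 10,
  .sub 399 247,
  .mul 388 2,
  .mul 1 0,
  .mul 29 0,
  .add 4 0,
  .pos 243,
  .pos 240,
  .scale ⟨2199023255552, 0, 0, 0⟩ 165,
  .sub 353 0,
  .pos 0,
  .pos 157,
  .sub 398 267,
  .pos 0,
  .scale ⟨687194767360, 0, 0, 0⟩ 407,
  .sub 0 209,
  .pos 0,
  .scale ⟨377957122048, 0, 0, 0⟩ 409,
  .sub 0 215,
  .pos 0,
  .pos 51,
  .pos 154,
  .sub 3 142,
  .pos 0,
  .pos 49,
  .pos 70,
  .pos 8,
  .pos 14]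

def chk2 {α : Type} (cst : Z → α) (add sub mul : α → α → α) (scale : Z → α → α)
    (neg inv exp log : α → α) (ok : α → Bool) (isPos : Nat → α → Bool) (isLt : α → Nat → Bool) :
    List α → Bool
  | [x0, x1, x2, x3] =>
  let v0 := cst ⟨1099511627776, 0, 0, 0⟩; ok v0 && (
  let v1 := mul x1 x0; ok v1 && (
  let v2 := mul x2 x2; ok v2 && (
  let v3 := mul x1 v2; ok v3 && (
  let v4 := mul x1 x2; ok v4 && (
  let v5 := mul v4 x0; ok v5 && (
  let v6 := mul v5 v5; ok v6 && (
  let v7 := mul v3 x1; ok v7 && (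
  let v8 := cst ⟨549755813888, 0, 0, 0⟩; ok v8 && (
  let v9 := mul v3 v1; ok v9 && (
  let v10 := mul v9 x3; ok v10 && (
  let v11 := scale ⟨549755813888, 0, 0, 0⟩ v10; ok v11 && (
  let v12 := mul v1 v1; ok v12 && (
  let v13 := mul v11 v11; ok v13 && (
  let v14 := sub v0 v13; ok v14 && (
  let v15 := inv v14; ok v15 && (
  let v16 := mul v11 v15; ok v16 && (
  let v17 := scale ⟨2199023255552, 0, 0, 0⟩ v16; ok v17 && (
  let v18 := scale ⟨2199023255552, 0, 0, 0⟩ v15; ok v18 && (
  let v19 := sub v18 v0; ok v19 && (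
  let v20 := add v19 v17; ok v20 && (
  let v21 := mul x3 v15; ok v21 && (
  let v22 := mul v1 v21; ok v22 && (
  let v23 := sub v0 v22; ok v23 && (
  let v24 := add v0 v22; ok v24 && (
  let v25 := mul v3 v12; ok v25 && (
  let v26 := mul v21 v21; ok v26 && (
  let v27 := scale ⟨10774999203840, 0, 0, 0⟩ v11; ok v27 && (
  let v28 := scale ⟨45768245248, 0, 0, 0⟩ v27; ok v28 && (
  let v29 := cst ⟨183207198720, 0, 0, 0⟩; ok v29 && (
  let v30 := add v28 v29; ok v30 && (
  let v31 := mul v27 v30; ok v31 && (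
  let v32 := add v8 v31; ok v32 && (
  let v33 := mul v27 v32; ok v33 && (
  let v34 := add v0 v33; ok v34 && (
  let v35 := mul v27 v34; ok v35 && (
  let v36 := scale ⟨549755813888, 0, 0, 0⟩ v35; ok v36 && (
  let v37 := add v0 v36; ok v37 && (
  let v38 := mul v34 v37; ok v38 && (
  let v39 := mul v17 v22; ok v39 && (
  let v40 := scale ⟨2199023255552, 0, 0, 0⟩ v19; ok v40 && (
  let v41 := add v39 v40; ok v41 && (
  let v42 := add v41 v3; ok v42 && (
  let v43 := mul v25 v42; ok v43 && (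
  let v44 := add v43 v0; ok v44 && (
  let v45 := mul v17 v17; ok v45 && (
  let v46 := scale ⟨2199023255552, 0, 0, 0⟩ v45; ok v46 && (
  let v47 := add v46 v0; ok v47 && (
  let v48 := mul v19 v42; ok v48 && (
  let v49 := sub v48 v0; ok v49 && (
  let v50 := log v44; ok v50 && (
  let v51 := scale ⟨549755813888, 0, 0, 0⟩ v50; ok v51 && (
  let v52 := exp v51; ok v52 && (
  let v53 := cst ⟨3298534883328, 0, 0, 0⟩; ok v53 && (
  let v54 := inv v53; ok v54 && (
  let v55 := mul v0 v54; ok v55 && (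
  let v56 := cst ⟨2199023255552, 0, 0, 0⟩; ok v56 && (
  let v57 := add v43 v56; ok v57 && (
  let v58 := inv v57; ok v58 && (
  let v59 := mul v43 v58; ok v59 && (
  let v60 := mul v59 v59; ok v60 && (
  let v61 := sub v0 v59; ok v61 && (
  let v62 := mul v60 v55; ok v62 && (
  let v63 := add v0 v62; ok v63 && (
  let v64 := mul v61 v63; ok v64 && (
  let v65 := mul v60 v60; ok v65 && (
  let v66 := scale ⟨219915747328, 0, 0, 0⟩ v65; ok v66 && (
  let v67 := mul v42 v64; ok v67 && (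
  let v68 := scale ⟨549755813888, 0, 0, 0⟩ v67; ok v68 && (
  let v69 := mul v42 v66; ok v69 && (
  let v70 := scale ⟨549755813888, 0, 0, 0⟩ v69; ok v70 && (
  let v71 := add v68 v70; ok v71 && (
  let v72 := mul v19 v49; ok v72 && (
  let v73 := scale ⟨4398046511104, 0, 0, 0⟩ v72; ok v73 && (
  let v74 := mul v19 v25; ok v74 && (
  let v75 := mul v74 v49; ok v75 && (
  let v76 := scale ⟨4398046511104, 0, 0, 0⟩ v75; ok v76 && (
  let v77 := add v76 v56; ok v77 && (
  let v78 := inv v77; ok v78 && (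
  let v79 := mul v76 v78; ok v79 && (
  let v80 := mul v79 v79; ok v80 && (
  let v81 := sub v0 v79; ok v81 && (
  let v82 := mul v80 v55; ok v82 && (
  let v83 := add v0 v82; ok v83 && (
  let v84 := mul v81 v83; ok v84 && (
  let v85 := mul v80 v80; ok v85 && (
  let v86 := scale ⟨219915747328, 0, 0, 0⟩ v85; ok v86 && (
  let v87 := mul v73 v84; ok v87 && (
  let v88 := scale ⟨549755813888, 0, 0, 0⟩ v87; ok v88 && (
  let v89 := sub v88 v71; ok v89 && (
  let v90 := mul v73 v86; ok v90 && (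
  let v91 := scale ⟨549755813888, 0, 0, 0⟩ v90; ok v91 && (
  let v92 := add v91 v70; ok v92 && (
  let v93 := add v89 v92; ok v93 && (
  let v94 := mul x1 v68; ok v94 && (
  let v95 := neg v94; ok v95 && (
  let v96 := exp v95; ok v96 && (
  let v97 := mul x1 v70; ok v97 && (
  let v98 := mul v96 v97; ok v98 && (
  let v99 := mul v22 v17; ok v99 && (
  let v100 := add v19 v99; ok v100 && (
  let v101 := inv v100; ok v101 && (
  let v102 := mul v24 v101; ok v102 && (
  let v103 := mul v23 v3; ok v103 && (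
  let v104 := mul v103 v102; ok v104 && (
  let v105 := sub v0 v12; ok v105 && (
  let v106 := mul v26 v105; ok v106 && (
  let v107 := mul v9 v9; ok v107 && (
  let v108 := sub v0 v26; ok v108 && (
  let v109 := mul v105 v108; ok v109 && (
  let v110 := mul v25 v49; ok v110 && (
  let v111 := inv v44; ok v111 && (
  let v112 := mul v110 v111; ok v112 && (
  let v113 := add v19 v112; ok v113 && (
  let v114 := mul v44 v113; ok v114 && (
  let v115 := mul v114 v114; ok v115 && (
  let v116 := inv v115; ok v116 && (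
  let v117 := mul v109 v116; ok v117 && (
  let v118 := mul v104 v0; ok v118 && (
  let v119 := scale ⟨549755813888, 0, 0, 0⟩ v118; ok v119 && (
  let v120 := sub v0 v119; ok v120 && (
  let v121 := sub v0 v118; ok v121 && (
  let v122 := inv v121; ok v122 && (
  let v123 := mul v120 v122; ok v123 && (
  let v124 := add v118 v0; ok v124 && (
  let v125 := mul v96 v124; ok v125 && (
  let v126 := mul v102 v123; ok v126 && (
  let v127 := mul v126 v0; ok v127 && (
  let v128 := mul v118 v123; ok v128 && (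
  isPos 4 v121 && (
  let v129 := mul v23 v24; ok v129 && (
  let v130 := add v19 v3; ok v130 && (
  let v131 := mul v22 v19; ok v131 && (
  let v132 := mul v131 v17; ok v132 && (
  let v133 := scale ⟨2199023255552, 0, 0, 0⟩ v132; ok v133 && (
  let v134 := add v47 v133; ok v134 && (
  let v135 := mul v130 v134; ok v135 && (
  let v136 := inv v135; ok v136 && (
  let v137 := mul v129 v136; ok v137 && (
  let v138 := mul v3 v137; ok v138 && (
  isPos 4 v89 && (
  let v139 := mul v138 v0; ok v139 && (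
  let v140 := mul v0 x0; ok v140 && (
  let v141 := add v11 v0; ok v141 && (
  let v142 := inv v141; ok v142 && (
  let v143 := mul v11 v142; ok v143 && (
  let v144 := scale ⟨2199023255552, 0, 0, 0⟩ v143; ok v144 && (
  let v145 := sub v0 v144; ok v145 && (
  let v146 := sub v0 v11; ok v146 && (
  let v147 := mul x3 v142; ok v147 && (
  let v148 := mul v147 v145; ok v148 && (
  let v149 := add v24 v148; ok v149 && (
  let v150 := scale ⟨224412041216, 0, 0, 0⟩ v15; ok v150 && (
  let v151 := inv v38; ok v151 && (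
  let v152 := mul v150 v151; ok v152 && (
  let v153 := scale ⟨5497558138880, 0, 0, 0⟩ x0; ok v153 && (
  let v154 := inv v153; ok v154 && (
  let v155 := mul v0 v154; ok v155 && (
  let v156 := mul x0 v154; ok v156 && (
  let v157 := mul v156 v24; ok v157 && (
  let v158 := mul v157 v152; ok v158 && (
  let v159 := mul v155 v24; ok v159 && (
  let v160 := mul v159 v152; ok v160 && (
  let v161 := sub v0 v160; ok v161 && (
  let v162 := inv v161; ok v162 && (
  let v163 := mul v125 v160; ok v163 && (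
  let v164 := sub v0 v163; ok v164 && (
  let v165 := inv v164; ok v165 && (
  let v166 := scale ⟨2199023255552, 0, 0, 0⟩ v6; ok v166 && (
  let v167 := add v166 v0; ok v167 && (
  let v168 := add v6 v0; ok v168 && (
  let v169 := scale ⟨3573412790272, 0, 0, 0⟩ v22; ok v169 && (
  let v170 := cst ⟨339302416384, 0, 0, 0⟩; ok v170 && (
  let v171 := add v169 v170; ok v171 && (
  let v172 := scale ⟨549755813888, 0, 0, 0⟩ v171; ok v172 && (
  let v173 := mul v11 v21; ok v173 && (
  let v174 := sub v0 v106; ok v174 && (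
  let v175 := mul v11 v22; ok v175 && (
  let v176 := scale ⟨2199023255552, 0, 0, 0⟩ v175; ok v176 && (
  let v177 := sub v174 v176; ok v177 && (
  let v178 := mul v173 v173; ok v178 && (
  let v179 := add v177 v178; ok v179 && (
  let v180 := add v179 v0; ok v180 && (
  let v181 := scale ⟨549755813888, 0, 0, 0⟩ v180; ok v181 && (
  let v182 := scale ⟨549755813888, 0, 0, 0⟩ v25; ok v182 && (
  let v183 := sub v15 v182; ok v183 && (
  let v184 := mul v107 v174; ok v184 && (
  let v185 := mul v184 v14; ok v185 && (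
  let v186 := scale ⟨137438953472, 0, 0, 0⟩ v185; ok v186 && (
  let v187 := add v183 v186; ok v187 && (
  let v188 := mul v181 v187; ok v188 && (
  let v189 := add v125 v0; ok v189 && (
  let v190 := mul v189 v162; ok v190 && (
  let v191 := mul v125 v165; ok v191 && (
  let v192 := add v190 v191; ok v192 && (
  let v193 := mul v160 v192; ok v193 && (
  let v194 := add v128 v193; ok v194 && (
  let v195 := mul v194 v6; ok v195 && (
  let v196 := mul v189 v160; ok v196 && (
  let v197 := mul v196 v162; ok v197 && (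
  let v198 := add v128 v197; ok v198 && (
  let v199 := mul v198 v6; ok v199 && (
  let v200 := scale ⟨223338299392, 0, 0, 0⟩ v199; ok v200 && (
  let v201 := add v8 v200; ok v201 && (
  let v202 := mul v199 v201; ok v202 && (
  let v203 := add v0 v202; ok v203 && (
  let v204 := scale ⟨893353197568, 0, 0, 0⟩ v195; ok v204 && (
  let v205 := add v0 v204; ok v205 && (
  let v206 := mul v195 v205; ok v206 && (
  let v207 := add v0 v206; ok v207 && (
  let v208 := mul v144 v147; ok v208 && (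
  let v209 := mul v208 v167; ok v209 && (
  let v210 := mul v209 v207; ok v210 && (
  let v211 := mul v188 v203; ok v211 && (
  let v212 := add v52 v8; ok v212 && (
  let v213 := mul v210 v212; ok v213 && (
  let v214 := add v211 v213; ok v214 && (
  let v215 := add v52 v0; ok v215 && (
  let v216 := mul v210 v215; ok v216 && (
  let v217 := mul v168 v215; ok v217 && (
  let v218 := mul v217 v147; ok v218 && (
  let v219 := mul v218 v146; ok v219 && (
  let v220 := mul v214 v127; ok v220 && (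
  let v221 := mul v219 v172; ok v221 && (
  let v222 := add v220 v221; ok v222 && (
  let v223 := mul v7 v149; ok v223 && (
  let v224 := inv v52; ok v224 && (
  let v225 := mul v223 v224; ok v225 && (
  let v226 := scale ⟨549755813888, 0, 0, 0⟩ v225; ok v226 && (
  let v227 := mul v23 v226; ok v227 && (
  let v228 := mul v3 v222; ok v228 && (
  let v229 := add v227 v228; ok v229 && (
  let v230 := mul x0 v229; ok v230 && (
  let v231 := mul v214 v189; ok v231 && (
  let v232 := mul v231 v162; ok v232 && (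
  let v233 := mul v216 v125; ok v233 && (
  let v234 := mul v233 v165; ok v234 && (
  let v235 := add v232 v234; ok v235 && (
  let v236 := mul v23 v230; ok v236 && (
  let v237 := mul v158 v235; ok v237 && (
  let v238 := add v236 v237; ok v238 && (
  let v239 := mul v107 v238; ok v239 && (
  let v240 := mul v239 v224; ok v240 && (
  let v241 := sub v0 v240; ok v241 && (
  let v242 := inv v241; ok v242 && (
  let v243 := mul v238 v242; ok v243 && (
  let v244 := mul v3 v243; ok v244 && (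
  let v245 := mul v107 v243; ok v245 && (
  let v246 := mul v245 v224; ok v246 && (
  let v247 := sub v0 v246; ok v247 && (
  let v248 := mul v49 v247; ok v248 && (
  let v249 := sub v248 v244; ok v249 && (
  let v250 := inv v249; ok v250 && (
  let v251 := mul v244 v250; ok v251 && (
  let v252 := sub v52 v245; ok v252 && (
  let v253 := inv v252; ok v253 && (
  let v254 := mul v251 v0; ok v254 && (
  let v255 := scale ⟨549755813888, 0, 0, 0⟩ v254; ok v255 && (
  let v256 := sub v0 v255; ok v256 && (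
  let v257 := sub v0 v254; ok v257 && (
  let v258 := inv v257; ok v258 && (
  let v259 := mul v256 v258; ok v259 && (
  let v260 := mul v1 v253; ok v260 && (
  let v261 := mul v140 v250; ok v261 && (
  let v262 := mul v261 v259; ok v262 && (
  let v263 := add v260 v262; ok v263 && (
  let v264 := mul v7 v243; ok v264 && (
  let v265 := mul v253 v264; ok v265 && (
  let v266 := mul v0 v250; ok v266 && (
  let v267 := mul v266 v259; ok v267 && (
  let v268 := mul v267 v244; ok v268 && (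
  let v269 := add v265 v268; ok v269 && (
  let v270 := scale ⟨223338299392, 0, 0, 0⟩ v269; ok v270 && (
  let v271 := add v8 v270; ok v271 && (
  let v272 := mul v269 v271; ok v272 && (
  let v273 := add v0 v272; ok v273 && (
  let v274 := mul v263 v273; ok v274 && (
  let v275 := mul v274 v242; ok v275 && (
  let v276 := mul v275 v235; ok v276 && (
  let v277 := mul v159 v23; ok v277 && (
  let v278 := cst ⟨5497558138880, 0, 0, 0⟩; ok v278 && (
  let v279 := inv v278; ok v279 && (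
  let v280 := mul v53 v279; ok v280 && (
  let v281 := mul v141 v24; ok v281 && (
  let v282 := mul v281 v280; ok v282 && (
  let v283 := mul v130 v101; ok v283 && (
  let v284 := mul v22 v283; ok v284 && (
  let v285 := scale ⟨549755813888, 0, 0, 0⟩ v139; ok v285 && (
  let v286 := sub v0 v285; ok v286 && (
  let v287 := sub v0 v139; ok v287 && (
  let v288 := inv v287; ok v288 && (
  let v289 := mul v286 v288; ok v289 && (
  let v290 := mul v289 v138; ok v290 && (
  let v291 := mul v107 v117; ok v291 && (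
  let v292 := scale ⟨733097230336, 0, 0, 0⟩ v291; ok v292 && (
  let v293 := sub v0 v292; ok v293 && (
  let v294 := mul v117 v293; ok v294 && (
  let v295 := mul v89 v89; ok v295 && (
  let v296 := mul v12 v295; ok v296 && (
  let v297 := add v294 v296; ok v297 && (
  let v298 := mul v290 v140; ok v298 && (
  let v299 := add v297 v0; ok v299 && (
  let v300 := mul v298 v299; ok v300 && (
  let v301 := sub v297 v300; ok v301 && (
  let v302 := scale ⟨366548615168, 0, 0, 0⟩ v45; ok v302 && (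
  let v303 := sub v0 v302; ok v303 && (
  let v304 := mul v26 v303; ok v304 && (
  let v305 := add v301 v304; ok v305 && (
  let v306 := mul v283 v305; ok v306 && (
  let v307 := mul v284 v284; ok v307 && (
  let v308 := add v0 v307; ok v308 && (
  let v309 := inv v308; ok v309 && (
  let v310 := mul v306 v309; ok v310 && (
  let v311 := sub v0 v251; ok v311 && (
  let v312 := mul v311 v310; ok v312 && (
  let v313 := sub v0 v298; ok v313 && (
  isPos 4 v313 && (
  isPos 4 v310 && (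
  isPos 4 v311 && (
  let v314 := mul v275 v153; ok v314 && (
  let v315 := mul v314 v229; ok v315 && (
  let v316 := inv v24; ok v316 && (
  let v317 := mul v315 v316; ok v317 && (
  let v318 := mul x1 v312; ok v318 && (
  let v319 := neg v318; ok v319 && (
  let v320 := exp v319; ok v320 && (
  let v321 := mul v3 v282; ok v321 && (
  let v322 := add v0 v321; ok v322 && (
  let v323 := inv v322; ok v323 && (
  let v324 := mul v320 v323; ok v324 && (
  let v325 := mul v324 v20; ok v325 && (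
  let v326 := mul v9 v243; ok v326 && (
  let v327 := mul v326 v316; ok v327 && (
  let v328 := add v0 v327; ok v328 && (
  let v329 := mul v325 v328; ok v329 && (
  let v330 := mul v329 v253; ok v330 && (
  let v331 := mul v3 v276; ok v331 && (
  let v332 := mul v331 v160; ok v332 && (
  let v333 := mul v3 v277; ok v333 && (
  let v334 := mul v317 v333; ok v334 && (
  let v335 := add v332 v334; ok v335 && (
  let v336 := add v331 v317; ok v336 && (
  let v337 := add v0 v335; ok v337 && (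
  let v338 := mul v330 v337; ok v338 && (
  let v339 := add v336 v338; ok v339 && (
  let v340 := sub v0 v339; ok v340 && (
  let v341 := scale ⟨1073741824, 0, 0, 0⟩ v3; ok v341 && (
  let v342 := sub v340 v341; ok v342 && (
  let v343 := sub v20 v0; ok v343 && (
  let v344 := add v343 v56; ok v344 && (
  let v345 := scale ⟨2199023255552, 0, 0, 0⟩ v280; ok v345 && (
  let v346 := sub v344 v345; ok v346 && (
  let v347 := mul v141 v346; ok v347 && (
  let v348 := mul v343 v345; ok v348 && (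
  let v349 := add v348 v0; ok v349 && (
  let v350 := inv v349; ok v350 && (
  let v351 := mul v347 v350; ok v351 && (
  let v352 := mul v156 v235; ok v352 && (
  let v353 := scale ⟨549755813888, 0, 0, 0⟩ v152; ok v353 && (
  let v354 := add v17 v353; ok v354 && (
  let v355 := mul v352 v354; ok v355 && (
  let v356 := scale ⟨2199023255552, 0, 0, 0⟩ v355; ok v356 && (
  let v357 := add v230 v356; ok v357 && (
  let v358 := scale ⟨2199023255552, 0, 0, 0⟩ v357; ok v358 && (
  let v359 := mul v358 v242; ok v359 && (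
  let v360 := sub v24 v326; ok v360 && (
  let v361 := inv v360; ok v361 && (
  let v362 := mul v359 v361; ok v362 && (
  let v363 := sub v351 v362; ok v363 && (
  let v364 := mul v0 v21; ok v364 && (
  let v365 := mul v364 v364; ok v365 && (
  let v366 := cst ⟨14293651161088, 0, 0, 0⟩; ok v366 && (
  let v367 := cst ⟨10995116277760, 0, 0, 0⟩; ok v367 && (
  let v368 := inv v367; ok v368 && (
  let v369 := mul v366 v368; ok v369 && (
  let v370 := mul v365 v369; ok v370 && (
  let v371 := mul x0 x0; ok v371 && (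
  let v372 := scale ⟨27487790694400, 0, 0, 0⟩ v371; ok v372 && (
  let v373 := add v370 v372; ok v373 && (
  let v374 := mul v282 v323; ok v374 && (
  let v375 := sub v40 v3; ok v375 && (
  let v376 := sub v375 v39; ok v376 && (
  let v377 := mul v0 v1; ok v377 && (
  let v378 := mul v377 x0; ok v378 && (
  let v379 := mul v24 v235; ok v379 && (
  let v380 := mul v379 v154; ok v380 && (
  let v381 := add v222 v380; ok v381 && (
  let v382 := add v326 v56; ok v382 && (
  let v383 := mul v0 v382; ok v383 && (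
  let v384 := mul v373 v374; ok v384 && (
  let v385 := mul v242 v383; ok v385 && (
  let v386 := mul v378 v381; ok v386 && (
  let v387 := mul v385 v386; ok v387 && (
  let v388 := sub v384 v387; ok v388 && (
  let v389 := scale ⟨549755813888, 0, 0, 0⟩ v326; ok v389 && (
  let v390 := add v0 v389; ok v390 && (
  let v391 := mul v242 v390; ok v391 && (
  let v392 := mul v3 v23; ok v392 && (
  let v393 := mul v392 v149; ok v393 && (
  let v394 := mul v24 v52; ok v394 && (
  let v395 := inv v394; ok v395 && (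
  let v396 := mul v393 v395; ok v396 && (
  let v397 := mul v391 v396; ok v397 && (
  let v398 := sub v376 v397; ok v398 && (
  let v399 := mul v152 v388; ok v399 && (
  let v400 := sub v0 v152; ok v400 && (
  let v401 := mul v12 v398; ok v401 && (
  let v402 := mul v400 v401; ok v402 && (
  let v403 := mul v373 v402; ok v403 && (
  let v404 := add v399 v403; ok v404 && (
  isPos 4 v161 && (
  isPos 4 v164 && (
  let v405 := scale ⟨2199023255552, 0, 0, 0⟩ v239; ok v405 && (
  let v406 := sub v52 v405; ok v406 && (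
  isPos 4 v406 && (
  isPos 4 v249 && (
  let v407 := sub v8 v139; ok v407 && (
  isPos 4 v407 && (
  let v408 := scale ⟨687194767360, 0, 0, 0⟩ v0; ok v408 && (
  let v409 := sub v408 v199; ok v409 && (
  isPos 4 v409 && (
  let v410 := scale ⟨377957122048, 0, 0, 0⟩ v0; ok v410 && (
  let v411 := sub v410 v195; ok v411 && (
  isPos 4 v411 && (
  isPos 4 v360 && (
  isPos 4 v257 && (
  let v412 := sub v408 v269; ok v412 && (
  isPos 4 v412 && (
  isPos 4 v363 && (
  isPos 4 v342 && (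
  isPos 4 v404 && (
  isPos 4 v398 && (
  true))))))))))))))))))))))))))))))))))))))))))))))))))))))))))))))))))))))))))))))))))))))))))))))))))))))))))))))))))))))))))))))))))))))))))))))))))))))))))))))))))))))))))))))))))))))))))))))))))))))))))))))))))))))))))))))))))))))))))))))))))))))))))))))))))))))))))))))))))))))))))))))))))))))))))))))))))))))))))))))))))))))))))))))))))))))))))))))))))))))))))))))))))))))))))))))))))))))))))))))))))))))))))))))))))))))))))))))))
  | _ => false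

set_option maxRecDepth 1000000 in
theorem chk2_eq (O : Ops) (m : List O.α)
    (h : chk2 O.cst O.add O.sub O.mul O.scale O.neg O.inv O.exp O.log O.ok O.isPos O.isLt m = true) :
    runG O 4 prog2 m = true := by
  match m, h with
  | [x0, x1, x2, x3], h => exact h

def chkB2 : List opsE.α → Bool :=
  chk2 opsE.cst opsE.add opsE.sub opsE.mul opsE.scale opsE.neg opsE.inv opsE.exp opsE.log opsE.ok opsE.isPos opsE.isLt

theorem chkB2_eq (m : List opsE.α) (h : chkB2 m = true) : runG opsE 4 prog2 m = true :=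
  chk2_eq opsE m h

def prog3 : List Op := [
  .const ⟨1099511627776, 0, 0, 0⟩,
  .mul 2 1,
  .mul 4 4,
  .mul 4 0,
  .mul 5 6,
  .mul 0 5,
  .mul 0 0,
  .mul 3 8,
  .const ⟨549755813888, 0, 0, 0⟩,
  .mul 5 7,
  .mul 0 13,
  .scale ⟨549755813888, 0, 0, 0⟩ 0,
  .mul 10 10,
  .mul 1 1,
  .sub 13 0,
  .inv 0,
  .mul 4 0,
  .scale ⟨2199023255552, 0, 0, 0⟩ 0,
  .scale ⟨2199023255552, 0, 0, 0⟩ 2,
  .sub 0 18,
  .add 0 2,
  .mul 24 5,
  .mul 20 0,
  .sub 22 0,
  .add 23 1,
  .mul 21 12,
  .mul 4 4,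
  .scale ⟨10774999203840, 0, 0, 0⟩ 15,
  .scale ⟨45768245248, 0, 0, 0⟩ 0,
  .const ⟨183207198720, 0, 0, 0⟩,
  .add 1 0,
  .mul 3 0,
  .add 23 0,
  .mul 5 0,
  .add 33 0,
  .mul 7 0,
  .scale ⟨549755813888, 0, 0, 0⟩ 0,
  .add 36 0,
  .mul 3 0,
  .mul 21 16,
  .scale ⟨2199023255552, 0, 0, 0⟩ 20,
  .add 1 0,
  .add 0 38,
  .mul 17 0,
  .add 0 43,
  .mul 27 27,
  .scale ⟨2199023255552, 0, 0, 0⟩ 0,
  .add 0 46,
  .mul 28 5,
  .sub 0 48,
  .log 5,
  .scale ⟨549755813888, 0, 0, 0⟩ 0,
  .exp 0,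
  .const ⟨3298534883328, 0, 0, 0⟩,
  .inv 0,
  .mul 54 0,
  .const ⟨2199023255552, 0, 0, 0⟩,
  .add 13 0,
  .inv 0,
  .mul 15 0,
  .mul 0 0,
  .sub 60 1,
  .mul 1 6,
  .add 62 0,
  .mul 2 0,
  .mul 4 4,
  .scale ⟨219915747328, 0, 0, 0⟩ 0,
  .mul 24 2,
  .scale ⟨549755813888, 0, 0, 0⟩ 0,
  .mul 26 2,
  .scale ⟨549755813888, 0, 0, 0⟩ 0,
  .add 2 0,
  .mul 52 22,
  .scale ⟨4398046511104, 0, 0, 0⟩ 0,
  .mul 54 48,
  .mul 0 25,
  .scale ⟨4398046511104, 0, 0, 0⟩ 0,
  .add 0 20,
  .inv 0,
  .mul 2 0,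
  .mul 0 0,
  .sub 80 1,
  .mul 1 26,
  .add 82 0,
  .mul 2 0,
  .mul 4 4,
  .scale ⟨219915747328, 0, 0, 0⟩ 0,
  .mul 13 2,
  .scale ⟨549755813888, 0, 0, 0⟩ 0,
  .sub 0 17,
  .mul 16 3,
  .scale ⟨549755813888, 0, 0, 0⟩ 0,
  .add 0 21,
  .add 3 0,
  .mul 95 25,
  .neg 0,
  .exp 0,
  .mul 98 26,
  .mul 1 0,
  .mul 100 9,
  .neg 0,
  .exp 0,
  .mul 103 9,
  .mul 1 0,
  .mul 81 86,
  .add 85 0,
  .inv 0,
  .mul 82 0,
  .mul 84 104,
  .mul 0 1,
  .sub 109 97,
  .mul 84 0,
  .mul 102 102,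
  .sub 112 86,
  .mul 3 0,
  .mul 89 65,
  .inv 71,
  .mul 1 0,
  .add 98 0,
  .mul 74 0,
  .mul 0 0,
  .inv 0,
  .mul 7 0,
  .add 13 122,
  .mul 27 0,
  .sub 124 0,
  .pos 0,
  .add 29 125,
  .inv 1,
  .mul 1 0,
  .scale ⟨549755813888, 0, 0, 0⟩ 0,
  .add 0 121,
  .inv 0,
  .mul 2 0,
  .mul 23 0,
  .scale ⟨549755813888, 0, 0, 0⟩ 0,
  .sub 134 0,
  .sub 135 2,
  .inv 0,
  .mul 2 0,
  .add 5 138,
  .mul 43 0,
  .mul 33 2,
  .mul 0 9,
  .mul 9 4,
  .pos 7,
  .mul 120 119,
  .add 125 141,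
  .mul 123 126,
  .mul 0 129,
  .scale ⟨2199023255552, 0, 0, 0⟩ 0,
  .add 101 0,
  .mul 4 0,
  .inv 0,
  .mul 7 0,
  .mul 149 0,
  .pos 64,
  .add 0 153,
  .mul 53 0,
  .sub 155 0,
  .pos 0,
  .add 55 156,
  .inv 1,
  .mul 1 0,
  .scale ⟨549755813888, 0, 0, 0⟩ 0,
  .add 0 152,
  .inv 0,
  .mul 2 0,
  .mul 10 0,
  .mul 1 165,
  .add 154 165,
  .inv 0,
  .mul 156 0,
  .scale ⟨2199023255552, 0, 0, 0⟩ 0,
  .sub 169 0,
  .sub 170 159,
  .mul 175 4,
  .mul 0 2,
  .add 149 0,
  .scale ⟨224412041216, 0, 0, 0⟩ 159,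
  .inv 137,
  .mul 1 0,
  .scale ⟨5497558138880, 0, 0, 0⟩ 178,
  .inv 0,
  .mul 179 0,
  .mul 181 1,
  .mul 0 157,
  .mul 0 5,
  .mul 3 159,
  .mul 0 7,
  .sub 185 0,
  .inv 0,
  .mul 47 2,
  .sub 188 0,
  .inv 0,
  .scale ⟨2199023255552, 0, 0, 0⟩ 184,
  .add 0 191,
  .add 186 192,
  .scale ⟨1099511627776, 0, 0, 0⟩ 171,
  .add 0 194,
  .scale ⟨549755813888, 0, 0, 0⟩ 0,
  .mul 185 175,
  .sub 197 86,
  .mul 187 176,
  .scale ⟨2199023255552, 0, 0, 0⟩ 0,
  .sub 2 0,
  .mul 4 4,
  .add 1 0,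
  .add 0 203,
  .scale ⟨549755813888, 0, 0, 0⟩ 0,
  .scale ⟨549755813888, 0, 0, 0⟩ 180,
  .sub 191 0,
  .mul 95 9,
  .mul 0 194,
  .scale ⟨137438953472, 0, 0, 0⟩ 0,
  .add 3 0,
  .mul 6 0,
  .add 72 212,
  .mul 0 26,
  .mul 74 24,
  .add 1 0,
  .mul 31 0,
  .add 74 0,
  .mul 0 212,
  .mul 6 34,
  .mul 0 33,
  .add 78 0,
  .mul 0 216,
  .scale ⟨223338299392, 0, 0, 0⟩ 0,
  .add 216 0,
  .mul 2 0,
  .add 226 0,
  .scale ⟨893353197568, 0, 0, 0⟩ 8,
  .add 228 0,
  .mul 10 0,
  .add 230 0,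
  .mul 62 59,
  .mul 0 40,
  .mul 0 2,
  .mul 22 7,
  .add 183 227,
  .mul 2 0,
  .add 2 0,
  .add 186 238,
  .mul 5 0,
  .mul 47 1,
  .mul 0 69,
  .mul 0 71,
  .mul 5 101,
  .mul 1 48,
  .add 1 0,
  .mul 239 72,
  .inv 195,
  .mul 1 0,
  .scale ⟨549755813888, 0, 0, 0⟩ 0,
  .mul 227 0,
  .mul 248 5,
  .add 1 0,
  .mul 254 0,
  .mul 16 41,
  .mul 0 68,
  .mul 16 116,
  .mul 0 67,
  .add 2 0,
  .mul 236 5,
  .mul 77 1,
  .add 1 0,
  .mul 150 0,
  .mul 0 15,
  .sub 264 0,
  .inv 0,
  .mul 4 0,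
  .mul 264 0,
  .mul 156 1,
  .mul 0 21,
  .sub 270 0,
  .mul 222 0,
  .sub 0 4,
  .inv 0,
  .mul 6 0,
  .sub 223 6,
  .inv 0,
  .mul 2 114,
  .scale ⟨549755813888, 0, 0, 0⟩ 0,
  .sub 279 0,
  .sub 280 2,
  .inv 0,
  .mul 2 0,
  .mul 282 6,
  .mul 119 10,
  .mul 0 2,
  .add 2 0,
  .mul 280 20,
  .mul 11 0,
  .mul 126 15,
  .mul 0 7,
  .mul 0 23,
  .add 3 0,
  .scale ⟨223338299392, 0, 0, 0⟩ 0,
  .add 286 0,
  .mul 2 0,
  .add 296 0,
  .mul 10 0,
  .mul 0 32,
  .mul 0 40,
  .mul 116 277,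
  .const ⟨5497558138880, 0, 0, 0⟩,
  .inv 0,
  .mul 250 0,
  .mul 138 280,
  .mul 0 1,
  .mul 161 200,
  .mul 285 0,
  .scale ⟨549755813888, 0, 0, 0⟩ 144,
  .sub 309 0,
  .sub 310 146,
  .inv 0,
  .mul 2 0,
  .mul 0 160,
  .mul 202 192,
  .scale ⟨733097230336, 0, 0, 0⟩ 0,
  .sub 316 0,
  .mul 195 0,
  .mul 229 229,
  .mul 307 0,
  .add 2 0,
  .mul 7 156,
  .add 1 322,
  .mul 1 0,
  .sub 3 0,
  .scale ⟨366548615168, 0, 0, 0⟩ 280,
  .sub 326 0,
  .mul 301 0,
  .add 3 0,
  .mul 22 0,
  .mul 22 22,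
  .add 331 0,
  .inv 0,
  .mul 3 0,
  .sub 334 59,
  .mul 0 1,
  .sub 336 14,
  .pos 0,
  .pos 3,
  .pos 2,
  .mul 38 159,
  .mul 0 85,
  .inv 315,
  .mul 1 0,
  .mul 343 5,
  .neg 0,
  .exp 0,
  .mul 341 38,
  .add 345 0,
  .inv 0,
  .mul 3 0,
  .mul 0 328,
  .mul 340 82,
  .mul 0 10,
  .add 351 0,
  .mul 3 0,
  .mul 0 76,
  .mul 351 54,
  .mul 0 170,
  .mul 353 55,
  .mul 16 0,
  .add 2 0,
  .add 4 18,
  .add 360 1,
  .mul 7 0,
  .add 2 0,
  .sub 363 0,
  .scale ⟨1073741824, 0, 0, 0⟩ 361,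
  .sub 1 0,
  .sub 346 366,
  .add 0 311,
  .scale ⟨2199023255552, 0, 0, 0⟩ 64,
  .sub 1 0,
  .mul 204 0,
  .mul 4 2,
  .add 0 372,
  .inv 0,
  .mul 3 0,
  .mul 194 116,
  .scale ⟨549755813888, 0, 0, 0⟩ 199,
  .add 360 0,
  .mul 2 0,
  .scale ⟨2199023255552, 0, 0, 0⟩ 0,
  .add 126 0,
  .scale ⟨2199023255552, 0, 0, 0⟩ 0,
  .mul 0 116,
  .sub 359 33,
  .inv 0,
  .mul 2 0,
  .sub 11 0,
  .mul 387 366,
  .mul 0 0,
  .const ⟨14293651161088, 0, 0, 0⟩,
  .const ⟨10995116277760, 0, 0, 0⟩,
  .inv 0,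
  .mul 2 0,
  .mul 4 0,
  .mul 395 395,
  .scale ⟨27487790694400, 0, 0, 0⟩ 0,
  .add 2 0,
  .mul 91 50,
  .sub 358 395,
  .sub 0 360,
  .mul 400 399,
  .mul 0 402,
  .mul 378 143,
  .mul 0 224,
  .add 158 0,
  .add 55 349,
  .mul 406 0,
  .mul 10 9,
  .mul 142 1,
  .mul 7 4,
  .mul 1 0,
  .sub 3 0,
  .scale ⟨549755813888, 0, 0, 0⟩ 62,
  .add 413 0,
  .mul 148 0,
  .mul 412 392,
  .mul 0 242,
  .mul 393 365,
  .inv 0,
  .mul 2 0,
  .mul 5 0,
  .sub 21 0,
  .mul 245 10,
  .sub 423 246,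
  .mul 412 2,
  .mul 1 0,
  .mul 29 0,
  .add 4 0,
  .pos 242,
  .pos 239,
  .scale ⟨2199023255552, 0, 0, 0⟩ 165,
  .sub 377 0,
  .pos 0,
  .pos 157,
  .sub 422 266,
  .pos 0,
  .scale ⟨687194767360, 0, 0, 0⟩ 431,
  .sub 0 209,
  .pos 0,
  .scale ⟨377957122048, 0, 0, 0⟩ 433,
  .sub 0 215,
  .pos 0,
  .pos 51,
  .pos 154,
  .sub 3 142,
  .pos 0,
  .pos 49,
  .pos 70,
  .pos 8,
  .pos 14]

def chk3 {α : Type} (cst : Z → α) (add sub mul : α → α → α) (scale : Z → α → α)
    (neg inv exp log : α → α) (ok : α → Bool) (isPos : Nat → α → Bool) (isLt : α → Nat → Bool) :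
    List α → Bool
  | [x0, x1, x2, x3] =>
  let v0 := cst ⟨1099511627776, 0, 0, 0⟩; ok v0 && (
  let v1 := mul x1 x0; ok v1 && (
  let v2 := mul x2 x2; ok v2 && (
  let v3 := mul x1 v2; ok v3 && (
  let v4 := mul x1 x2; ok v4 && (
  let v5 := mul v4 x0; ok v5 && (
  let v6 := mul v5 v5; ok v6 && (
  let v7 := mul v3 x1; ok v7 && (
  let v8 := cst ⟨549755813888, 0, 0, 0⟩; ok v8 && (
  let v9 := mul v3 v1; ok v9 && (
  let v10 := mul v9 x3; ok v10 && (
  let v11 := scale ⟨549755813888, 0, 0, 0⟩ v10; ok v11 && (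
  let v12 := mul v1 v1; ok v12 && (
  let v13 := mul v11 v11; ok v13 && (
  let v14 := sub v0 v13; ok v14 && (
  let v15 := inv v14; ok v15 && (
  let v16 := mul v11 v15; ok v16 && (
  let v17 := scale ⟨2199023255552, 0, 0, 0⟩ v16; ok v17 && (
  let v18 := scale ⟨2199023255552, 0, 0, 0⟩ v15; ok v18 && (
  let v19 := sub v18 v0; ok v19 && (
  let v20 := add v19 v17; ok v20 && (
  let v21 := mul x3 v15; ok v21 && (
  let v22 := mul v1 v21; ok v22 && (
  let v23 := sub v0 v22; ok v23 && (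
  let v24 := add v0 v22; ok v24 && (
  let v25 := mul v3 v12; ok v25 && (
  let v26 := mul v21 v21; ok v26 && (
  let v27 := scale ⟨10774999203840, 0, 0, 0⟩ v11; ok v27 && (
  let v28 := scale ⟨45768245248, 0, 0, 0⟩ v27; ok v28 && (
  let v29 := cst ⟨183207198720, 0, 0, 0⟩; ok v29 && (
  let v30 := add v28 v29; ok v30 && (
  let v31 := mul v27 v30; ok v31 && (
  let v32 := add v8 v31; ok v32 && (
  let v33 := mul v27 v32; ok v33 && (
  let v34 := add v0 v33; ok v34 && (
  let v35 := mul v27 v34; ok v35 && (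
  let v36 := scale ⟨549755813888, 0, 0, 0⟩ v35; ok v36 && (
  let v37 := add v0 v36; ok v37 && (
  let v38 := mul v34 v37; ok v38 && (
  let v39 := mul v17 v22; ok v39 && (
  let v40 := scale ⟨2199023255552, 0, 0, 0⟩ v19; ok v40 && (
  let v41 := add v39 v40; ok v41 && (
  let v42 := add v41 v3; ok v42 && (
  let v43 := mul v25 v42; ok v43 && (
  let v44 := add v43 v0; ok v44 && (
  let v45 := mul v17 v17; ok v45 && (
  let v46 := scale ⟨2199023255552, 0, 0, 0⟩ v45; ok v46 && (
  let v47 := add v46 v0; ok v47 && (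
  let v48 := mul v19 v42; ok v48 && (
  let v49 := sub v48 v0; ok v49 && (
  let v50 := log v44; ok v50 && (
  let v51 := scale ⟨549755813888, 0, 0, 0⟩ v50; ok v51 && (
  let v52 := exp v51; ok v52 && (
  let v53 := cst ⟨3298534883328, 0, 0, 0⟩; ok v53 && (
  let v54 := inv v53; ok v54 && (
  let v55 := mul v0 v54; ok v55 && (
  let v56 := cst ⟨2199023255552, 0, 0, 0⟩; ok v56 && (
  let v57 := add v43 v56; ok v57 && (
  let v58 := inv v57; ok v58 && (
  let v59 := mul v43 v58; ok v59 && (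
  let v60 := mul v59 v59; ok v60 && (
  let v61 := sub v0 v59; ok v61 && (
  let v62 := mul v60 v55; ok v62 && (
  let v63 := add v0 v62; ok v63 && (
  let v64 := mul v61 v63; ok v64 && (
  let v65 := mul v60 v60; ok v65 && (
  let v66 := scale ⟨219915747328, 0, 0, 0⟩ v65; ok v66 && (
  let v67 := mul v42 v64; ok v67 && (
  let v68 := scale ⟨549755813888, 0, 0, 0⟩ v67; ok v68 && (
  let v69 := mul v42 v66; ok v69 && (
  let v70 := scale ⟨549755813888, 0, 0, 0⟩ v69; ok v70 && (
  let v71 := add v68 v70; ok v71 && (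
  let v72 := mul v19 v49; ok v72 && (
  let v73 := scale ⟨4398046511104, 0, 0, 0⟩ v72; ok v73 && (
  let v74 := mul v19 v25; ok v74 && (
  let v75 := mul v74 v49; ok v75 && (
  let v76 := scale ⟨4398046511104, 0, 0, 0⟩ v75; ok v76 && (
  let v77 := add v76 v56; ok v77 && (
  let v78 := inv v77; ok v78 && (
  let v79 := mul v76 v78; ok v79 && (
  let v80 := mul v79 v79; ok v80 && (
  let v81 := sub v0 v79; ok v81 && (
  let v82 := mul v80 v55; ok v82 && (
  let v83 := add v0 v82; ok v83 && (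
  let v84 := mul v81 v83; ok v84 && (
  let v85 := mul v80 v80; ok v85 && (
  let v86 := scale ⟨219915747328, 0, 0, 0⟩ v85; ok v86 && (
  let v87 := mul v73 v84; ok v87 && (
  let v88 := scale ⟨549755813888, 0, 0, 0⟩ v87; ok v88 && (
  let v89 := sub v88 v71; ok v89 && (
  let v90 := mul v73 v86; ok v90 && (
  let v91 := scale ⟨549755813888, 0, 0, 0⟩ v90; ok v91 && (
  let v92 := add v91 v70; ok v92 && (
  let v93 := add v89 v92; ok v93 && (
  let v94 := mul x1 v68; ok v94 && (
  let v95 := neg v94; ok v95 && (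
  let v96 := exp v95; ok v96 && (
  let v97 := mul x1 v70; ok v97 && (
  let v98 := mul v96 v97; ok v98 && (
  let v99 := mul x1 v89; ok v99 && (
  let v100 := neg v99; ok v100 && (
  let v101 := exp v100; ok v101 && (
  let v102 := mul x1 v92; ok v102 && (
  let v103 := mul v101 v102; ok v103 && (
  let v104 := mul v22 v17; ok v104 && (
  let v105 := add v19 v104; ok v105 && (
  let v106 := inv v105; ok v106 && (
  let v107 := mul v24 v106; ok v107 && (
  let v108 := mul v23 v3; ok v108 && (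
  let v109 := mul v108 v107; ok v109 && (
  let v110 := sub v0 v12; ok v110 && (
  let v111 := mul v26 v110; ok v111 && (
  let v112 := mul v9 v9; ok v112 && (
  let v113 := sub v0 v26; ok v113 && (
  let v114 := mul v110 v113; ok v114 && (
  let v115 := mul v25 v49; ok v115 && (
  let v116 := inv v44; ok v116 && (
  let v117 := mul v115 v116; ok v117 && (
  let v118 := add v19 v117; ok v118 && (
  let v119 := mul v44 v118; ok v119 && (
  let v120 := mul v119 v119; ok v120 && (
  let v121 := inv v120; ok v121 && (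
  let v122 := mul v114 v121; ok v122 && (
  let v123 := add v109 v0; ok v123 && (
  let v124 := mul v96 v123; ok v124 && (
  let v125 := sub v0 v124; ok v125 && (
  isPos 4 v125 && (
  let v126 := add v96 v0; ok v126 && (
  let v127 := inv v125; ok v127 && (
  let v128 := mul v126 v127; ok v128 && (
  let v129 := scale ⟨549755813888, 0, 0, 0⟩ v128; ok v129 && (
  let v130 := add v129 v8; ok v130 && (
  let v131 := inv v130; ok v131 && (
  let v132 := mul v129 v131; ok v132 && (
  let v133 := mul v109 v132; ok v133 && (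
  let v134 := scale ⟨549755813888, 0, 0, 0⟩ v133; ok v134 && (
  let v135 := sub v0 v134; ok v135 && (
  let v136 := sub v0 v133; ok v136 && (
  let v137 := inv v136; ok v137 && (
  let v138 := mul v135 v137; ok v138 && (
  let v139 := add v133 v0; ok v139 && (
  let v140 := mul v96 v139; ok v140 && (
  let v141 := mul v107 v138; ok v141 && (
  let v142 := mul v141 v132; ok v142 && (
  let v143 := mul v133 v138; ok v143 && (
  isPos 4 v136 && (
  let v144 := mul v23 v24; ok v144 && (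
  let v145 := add v19 v3; ok v145 && (
  let v146 := mul v22 v19; ok v146 && (
  let v147 := mul v146 v17; ok v147 && (
  let v148 := scale ⟨2199023255552, 0, 0, 0⟩ v147; ok v148 && (
  let v149 := add v47 v148; ok v149 && (
  let v150 := mul v145 v149; ok v150 && (
  let v151 := inv v150; ok v151 && (
  let v152 := mul v144 v151; ok v152 && (
  let v153 := mul v3 v152; ok v153 && (
  isPos 4 v89 && (
  let v154 := add v153 v0; ok v154 && (
  let v155 := mul v101 v154; ok v155 && (
  let v156 := sub v0 v155; ok v156 && (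
  isPos 4 v156 && (
  let v157 := add v101 v0; ok v157 && (
  let v158 := inv v156; ok v158 && (
  let v159 := mul v157 v158; ok v159 && (
  let v160 := scale ⟨549755813888, 0, 0, 0⟩ v159; ok v160 && (
  let v161 := add v160 v8; ok v161 && (
  let v162 := inv v161; ok v162 && (
  let v163 := mul v160 v162; ok v163 && (
  let v164 := mul v153 v163; ok v164 && (
  let v165 := mul v163 x0; ok v165 && (
  let v166 := add v11 v0; ok v166 && (
  let v167 := inv v166; ok v167 && (
  let v168 := mul v11 v167; ok v168 && (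
  let v169 := scale ⟨2199023255552, 0, 0, 0⟩ v168; ok v169 && (
  let v170 := sub v0 v169; ok v170 && (
  let v171 := sub v0 v11; ok v171 && (
  let v172 := mul x3 v167; ok v172 && (
  let v173 := mul v172 v170; ok v173 && (
  let v174 := add v24 v173; ok v174 && (
  let v175 := scale ⟨224412041216, 0, 0, 0⟩ v15; ok v175 && (
  let v176 := inv v38; ok v176 && (
  let v177 := mul v175 v176; ok v177 && (
  let v178 := scale ⟨5497558138880, 0, 0, 0⟩ x0; ok v178 && (
  let v179 := inv v178; ok v179 && (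
  let v180 := mul v0 v179; ok v180 && (
  let v181 := mul x0 v179; ok v181 && (
  let v182 := mul v181 v24; ok v182 && (
  let v183 := mul v182 v177; ok v183 && (
  let v184 := mul v180 v24; ok v184 && (
  let v185 := mul v184 v177; ok v185 && (
  let v186 := sub v0 v185; ok v186 && (
  let v187 := inv v186; ok v187 && (
  let v188 := mul v140 v185; ok v188 && (
  let v189 := sub v0 v188; ok v189 && (
  let v190 := inv v189; ok v190 && (
  let v191 := scale ⟨2199023255552, 0, 0, 0⟩ v6; ok v191 && (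
  let v192 := add v191 v0; ok v192 && (
  let v193 := add v6 v0; ok v193 && (
  let v194 := scale ⟨1099511627776, 0, 0, 0⟩ v22; ok v194 && (
  let v195 := add v194 v0; ok v195 && (
  let v196 := scale ⟨549755813888, 0, 0, 0⟩ v195; ok v196 && (
  let v197 := mul v11 v21; ok v197 && (
  let v198 := sub v0 v111; ok v198 && (
  let v199 := mul v11 v22; ok v199 && (
  let v200 := scale ⟨2199023255552, 0, 0, 0⟩ v199; ok v200 && (
  let v201 := sub v198 v200; ok v201 && (
  let v202 := mul v197 v197; ok v202 && (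
  let v203 := add v201 v202; ok v203 && (
  let v204 := add v203 v0; ok v204 && (
  let v205 := scale ⟨549755813888, 0, 0, 0⟩ v204; ok v205 && (
  let v206 := scale ⟨549755813888, 0, 0, 0⟩ v25; ok v206 && (
  let v207 := sub v15 v206; ok v207 && (
  let v208 := mul v112 v198; ok v208 && (
  let v209 := mul v208 v14; ok v209 && (
  let v210 := scale ⟨137438953472, 0, 0, 0⟩ v209; ok v210 && (
  let v211 := add v207 v210; ok v211 && (
  let v212 := mul v205 v211; ok v212 && (
  let v213 := add v140 v0; ok v213 && (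
  let v214 := mul v213 v187; ok v214 && (
  let v215 := mul v140 v190; ok v215 && (
  let v216 := add v214 v215; ok v216 && (
  let v217 := mul v185 v216; ok v217 && (
  let v218 := add v143 v217; ok v218 && (
  let v219 := mul v218 v6; ok v219 && (
  let v220 := mul v213 v185; ok v220 && (
  let v221 := mul v220 v187; ok v221 && (
  let v222 := add v143 v221; ok v222 && (
  let v223 := mul v222 v6; ok v223 && (
  let v224 := scale ⟨223338299392, 0, 0, 0⟩ v223; ok v224 && (
  let v225 := add v8 v224; ok v225 && (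
  let v226 := mul v223 v225; ok v226 && (
  let v227 := add v0 v226; ok v227 && (
  let v228 := scale ⟨893353197568, 0, 0, 0⟩ v219; ok v228 && (
  let v229 := add v0 v228; ok v229 && (
  let v230 := mul v219 v229; ok v230 && (
  let v231 := add v0 v230; ok v231 && (
  let v232 := mul v169 v172; ok v232 && (
  let v233 := mul v232 v192; ok v233 && (
  let v234 := mul v233 v231; ok v234 && (
  let v235 := mul v212 v227; ok v235 && (
  let v236 := add v52 v8; ok v236 && (
  let v237 := mul v234 v236; ok v237 && (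
  let v238 := add v235 v237; ok v238 && (
  let v239 := add v52 v0; ok v239 && (
  let v240 := mul v234 v239; ok v240 && (
  let v241 := mul v193 v239; ok v241 && (
  let v242 := mul v241 v172; ok v242 && (
  let v243 := mul v242 v171; ok v243 && (
  let v244 := mul v238 v142; ok v244 && (
  let v245 := mul v243 v196; ok v245 && (
  let v246 := add v244 v245; ok v246 && (
  let v247 := mul v7 v174; ok v247 && (
  let v248 := inv v52; ok v248 && (
  let v249 := mul v247 v248; ok v249 && (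
  let v250 := scale ⟨549755813888, 0, 0, 0⟩ v249; ok v250 && (
  let v251 := mul v23 v250; ok v251 && (
  let v252 := mul v3 v246; ok v252 && (
  let v253 := add v251 v252; ok v253 && (
  let v254 := mul x0 v253; ok v254 && (
  let v255 := mul v238 v213; ok v255 && (
  let v256 := mul v255 v187; ok v256 && (
  let v257 := mul v240 v140; ok v257 && (
  let v258 := mul v257 v190; ok v258 && (
  let v259 := add v256 v258; ok v259 && (
  let v260 := mul v23 v254; ok v260 && (
  let v261 := mul v183 v259; ok v261 && (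
  let v262 := add v260 v261; ok v262 && (
  let v263 := mul v112 v262; ok v263 && (
  let v264 := mul v263 v248; ok v264 && (
  let v265 := sub v0 v264; ok v265 && (
  let v266 := inv v265; ok v266 && (
  let v267 := mul v262 v266; ok v267 && (
  let v268 := mul v3 v267; ok v268 && (
  let v269 := mul v112 v267; ok v269 && (
  let v270 := mul v269 v248; ok v270 && (
  let v271 := sub v0 v270; ok v271 && (
  let v272 := mul v49 v271; ok v272 && (
  let v273 := sub v272 v268; ok v273 && (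
  let v274 := inv v273; ok v274 && (
  let v275 := mul v268 v274; ok v275 && (
  let v276 := sub v52 v269; ok v276 && (
  let v277 := inv v276; ok v277 && (
  let v278 := mul v275 v163; ok v278 && (
  let v279 := scale ⟨549755813888, 0, 0, 0⟩ v278; ok v279 && (
  let v280 := sub v0 v279; ok v280 && (
  let v281 := sub v0 v278; ok v281 && (
  let v282 := inv v281; ok v282 && (
  let v283 := mul v280 v282; ok v283 && (
  let v284 := mul v1 v277; ok v284 && (
  let v285 := mul v165 v274; ok v285 && (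
  let v286 := mul v285 v283; ok v286 && (
  let v287 := add v284 v286; ok v287 && (
  let v288 := mul v7 v267; ok v288 && (
  let v289 := mul v277 v288; ok v289 && (
  let v290 := mul v163 v274; ok v290 && (
  let v291 := mul v290 v283; ok v291 && (
  let v292 := mul v291 v268; ok v292 && (
  let v293 := add v289 v292; ok v293 && (
  let v294 := scale ⟨223338299392, 0, 0, 0⟩ v293; ok v294 && (
  let v295 := add v8 v294; ok v295 && (
  let v296 := mul v293 v295; ok v296 && (
  let v297 := add v0 v296; ok v297 && (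
  let v298 := mul v287 v297; ok v298 && (
  let v299 := mul v298 v266; ok v299 && (
  let v300 := mul v299 v259; ok v300 && (
  let v301 := mul v184 v23; ok v301 && (
  let v302 := cst ⟨5497558138880, 0, 0, 0⟩; ok v302 && (
  let v303 := inv v302; ok v303 && (
  let v304 := mul v53 v303; ok v304 && (
  let v305 := mul v166 v24; ok v305 && (
  let v306 := mul v305 v304; ok v306 && (
  let v307 := mul v145 v106; ok v307 && (
  let v308 := mul v22 v307; ok v308 && (
  let v309 := scale ⟨549755813888, 0, 0, 0⟩ v164; ok v309 && (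
  let v310 := sub v0 v309; ok v310 && (
  let v311 := sub v0 v164; ok v311 && (
  let v312 := inv v311; ok v312 && (
  let v313 := mul v310 v312; ok v313 && (
  let v314 := mul v313 v153; ok v314 && (
  let v315 := mul v112 v122; ok v315 && (
  let v316 := scale ⟨733097230336, 0, 0, 0⟩ v315; ok v316 && (
  let v317 := sub v0 v316; ok v317 && (
  let v318 := mul v122 v317; ok v318 && (
  let v319 := mul v89 v89; ok v319 && (
  let v320 := mul v12 v319; ok v320 && (
  let v321 := add v318 v320; ok v321 && (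
  let v322 := mul v314 v165; ok v322 && (
  let v323 := add v321 v0; ok v323 && (
  let v324 := mul v322 v323; ok v324 && (
  let v325 := sub v321 v324; ok v325 && (
  let v326 := scale ⟨366548615168, 0, 0, 0⟩ v45; ok v326 && (
  let v327 := sub v0 v326; ok v327 && (
  let v328 := mul v26 v327; ok v328 && (
  let v329 := add v325 v328; ok v329 && (
  let v330 := mul v307 v329; ok v330 && (
  let v331 := mul v308 v308; ok v331 && (
  let v332 := add v0 v331; ok v332 && (
  let v333 := inv v332; ok v333 && (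
  let v334 := mul v330 v333; ok v334 && (
  let v335 := sub v0 v275; ok v335 && (
  let v336 := mul v335 v334; ok v336 && (
  let v337 := sub v0 v322; ok v337 && (
  isPos 4 v337 && (
  isPos 4 v334 && (
  isPos 4 v335 && (
  let v338 := mul v299 v178; ok v338 && (
  let v339 := mul v338 v253; ok v339 && (
  let v340 := inv v24; ok v340 && (
  let v341 := mul v339 v340; ok v341 && (
  let v342 := mul x1 v336; ok v342 && (
  let v343 := neg v342; ok v343 && (
  let v344 := exp v343; ok v344 && (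
  let v345 := mul v3 v306; ok v345 && (
  let v346 := add v0 v345; ok v346 && (
  let v347 := inv v346; ok v347 && (
  let v348 := mul v344 v347; ok v348 && (
  let v349 := mul v348 v20; ok v349 && (
  let v350 := mul v9 v267; ok v350 && (
  let v351 := mul v350 v340; ok v351 && (
  let v352 := add v0 v351; ok v352 && (
  let v353 := mul v349 v352; ok v353 && (
  let v354 := mul v353 v277; ok v354 && (
  let v355 := mul v3 v300; ok v355 && (
  let v356 := mul v355 v185; ok v356 && (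
  let v357 := mul v3 v301; ok v357 && (
  let v358 := mul v341 v357; ok v358 && (
  let v359 := add v356 v358; ok v359 && (
  let v360 := add v355 v341; ok v360 && (
  let v361 := add v0 v359; ok v361 && (
  let v362 := mul v354 v361; ok v362 && (
  let v363 := add v360 v362; ok v363 && (
  let v364 := sub v0 v363; ok v364 && (
  let v365 := scale ⟨1073741824, 0, 0, 0⟩ v3; ok v365 && (
  let v366 := sub v364 v365; ok v366 && (
  let v367 := sub v20 v0; ok v367 && (
  let v368 := add v367 v56; ok v368 && (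
  let v369 := scale ⟨2199023255552, 0, 0, 0⟩ v304; ok v369 && (
  let v370 := sub v368 v369; ok v370 && (
  let v371 := mul v166 v370; ok v371 && (
  let v372 := mul v367 v369; ok v372 && (
  let v373 := add v372 v0; ok v373 && (
  let v374 := inv v373; ok v374 && (
  let v375 := mul v371 v374; ok v375 && (
  let v376 := mul v181 v259; ok v376 && (
  let v377 := scale ⟨549755813888, 0, 0, 0⟩ v177; ok v377 && (
  let v378 := add v17 v377; ok v378 && (
  let v379 := mul v376 v378; ok v379 && (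
  let v380 := scale ⟨2199023255552, 0, 0, 0⟩ v379; ok v380 && (
  let v381 := add v254 v380; ok v381 && (
  let v382 := scale ⟨2199023255552, 0, 0, 0⟩ v381; ok v382 && (
  let v383 := mul v382 v266; ok v383 && (
  let v384 := sub v24 v350; ok v384 && (
  let v385 := inv v384; ok v385 && (
  let v386 := mul v383 v385; ok v386 && (
  let v387 := sub v375 v386; ok v387 && (
  let v388 := mul v0 v21; ok v388 && (
  let v389 := mul v388 v388; ok v389 && (
  let v390 := cst ⟨14293651161088, 0, 0, 0⟩; ok v390 && (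
  let v391 := cst ⟨10995116277760, 0, 0, 0⟩; ok v391 && (
  let v392 := inv v391; ok v392 && (
  let v393 := mul v390 v392; ok v393 && (
  let v394 := mul v389 v393; ok v394 && (
  let v395 := mul x0 x0; ok v395 && (
  let v396 := scale ⟨27487790694400, 0, 0, 0⟩ v395; ok v396 && (
  let v397 := add v394 v396; ok v397 && (
  let v398 := mul v306 v347; ok v398 && (
  let v399 := sub v40 v3; ok v399 && (
  let v400 := sub v399 v39; ok v400 && (
  let v401 := mul v0 v1; ok v401 && (
  let v402 := mul v401 x0; ok v402 && (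
  let v403 := mul v24 v259; ok v403 && (
  let v404 := mul v403 v179; ok v404 && (
  let v405 := add v246 v404; ok v405 && (
  let v406 := add v350 v56; ok v406 && (
  let v407 := mul v0 v406; ok v407 && (
  let v408 := mul v397 v398; ok v408 && (
  let v409 := mul v266 v407; ok v409 && (
  let v410 := mul v402 v405; ok v410 && (
  let v411 := mul v409 v410; ok v411 && (
  let v412 := sub v408 v411; ok v412 && (
  let v413 := scale ⟨549755813888, 0, 0, 0⟩ v350; ok v413 && (
  let v414 := add v0 v413; ok v414 && (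
  let v415 := mul v266 v414; ok v415 && (
  let v416 := mul v3 v23; ok v416 && (
  let v417 := mul v416 v174; ok v417 && (
  let v418 := mul v24 v52; ok v418 && (
  let v419 := inv v418; ok v419 && (
  let v420 := mul v417 v419; ok v420 && (
  let v421 := mul v415 v420; ok v421 && (
  let v422 := sub v400 v421; ok v422 && (
  let v423 := mul v177 v412; ok v423 && (
  let v424 := sub v0 v177; ok v424 && (
  let v425 := mul v12 v422; ok v425 && (
  let v426 := mul v424 v425; ok v426 && (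
  let v427 := mul v397 v426; ok v427 && (
  let v428 := add v423 v427; ok v428 && (
  isPos 4 v186 && (
  isPos 4 v189 && (
  let v429 := scale ⟨2199023255552, 0, 0, 0⟩ v263; ok v429 && (
  let v430 := sub v52 v429; ok v430 && (
  isPos 4 v430 && (
  isPos 4 v273 && (
  let v431 := sub v8 v164; ok v431 && (
  isPos 4 v431 && (
  let v432 := scale ⟨687194767360, 0, 0, 0⟩ v0; ok v432 && (
  let v433 := sub v432 v223; ok v433 && (
  isPos 4 v433 && (
  let v434 := scale ⟨377957122048, 0, 0, 0⟩ v0; ok v434 && (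
  let v435 := sub v434 v219; ok v435 && (
  isPos 4 v435 && (
  isPos 4 v384 && (
  isPos 4 v281 && (
  let v436 := sub v432 v293; ok v436 && (
  isPos 4 v436 && (
  isPos 4 v387 && (
  isPos 4 v366 && (
  isPos 4 v428 && (
  isPos 4 v422 && (
  true))))))))))))))))))))))))))))))))))))))))))))))))))))))))))))))))))))))))))))))))))))))))))))))))))))))))))))))))))))))))))))))))))))))))))))))))))))))))))))))))))))))))))))))))))))))))))))))))))))))))))))))))))))))))))))))))))))))))))))))))))))))))))))))))))))))))))))))))))))))))))))))))))))))))))))))))))))))))))))))))))))))))))))))))))))))))))))))))))))))))))))))))))))))))))))))))))))))))))))))))))))))))))))))))))))))))))))))))))))))))))))))))))))))))))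
  | _ => false

set_option maxRecDepth 1000000 in
theorem chk3_eq (O : Ops) (m : List O.α)
    (h : chk3 O.cst O.add O.sub O.mul O.scale O.neg O.inv O.exp O.log O.ok O.isPos O.isLt m = true) :
    runG O 4 prog3 m = true := by
  match m, h with
  | [x0, x1, x2, x3], h => exact h

def chkB3 : List opsE.α → Bool :=
  chk3 opsE.cst opsE.add opsE.sub opsE.mul opsE.scale opsE.neg opsE.inv opsE.exp opsE.log opsE.ok opsE.isPos opsE.isLt

theorem chkB3_eq (m : List opsE.α) (h : chkB3 m = true) : runG opsE 4 prog3 m = true :=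
  chk3_eq opsE m h

def prog4 : List Op := [
  .const ⟨1099511627776, 0, 0, 0⟩,
  .mul 2 1,
  .mul 4 4,
  .mul 4 0,
  .mul 5 6,
  .mul 0 5,
  .mul 0 0,
  .mul 3 8,
  .const ⟨549755813888, 0, 0, 0⟩,
  .mul 5 7,
  .mul 0 13,
  .scale ⟨549755813888, 0, 0, 0⟩ 0,
  .mul 10 10,
  .mul 1 1,
  .sub 13 0,
  .inv 0,
  .mul 4 0,
  .scale ⟨2199023255552, 0, 0, 0⟩ 0,
  .scale ⟨2199023255552, 0, 0, 0⟩ 2,
  .sub 0 18,
  .add 0 2,
  .mul 24 5,
  .mul 20 0,
  .sub 22 0,
  .add 23 1,
  .mul 21 12,
  .mul 4 4,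
  .scale ⟨10774999203840, 0, 0, 0⟩ 15,
  .scale ⟨45768245248, 0, 0, 0⟩ 0,
  .const ⟨183207198720, 0, 0, 0⟩,
  .add 1 0,
  .mul 3 0,
  .add 23 0,
  .mul 5 0,
  .add 33 0,
  .mul 7 0,
  .scale ⟨549755813888, 0, 0, 0⟩ 0,
  .add 36 0,
  .mul 3 0,
  .scale ⟨224412041216, 0, 0, 0⟩ 23,
  .inv 1,
  .mul 1 0,
  .sub 38 24,
  .sub 0 1,
  .pos 0]

def chk4 {α : Type} (cst : Z → α) (add sub mul : α → α → α) (scale : Z → α → α)
    (neg inv exp log : α → α) (ok : α → Bool) (isPos : Nat → α → Bool) (isLt : α → Nat → Bool) :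
    List α → Bool
  | [x0, x1, x2, x3] =>
  let v0 := cst ⟨1099511627776, 0, 0, 0⟩; ok v0 && (
  let v1 := mul x1 x0; ok v1 && (
  let v2 := mul x2 x2; ok v2 && (
  let v3 := mul x1 v2; ok v3 && (
  let v4 := mul x1 x2; ok v4 && (
  let v5 := mul v4 x0; ok v5 && (
  let v6 := mul v5 v5; ok v6 && (
  let v7 := mul v3 x1; ok v7 && (
  let v8 := cst ⟨549755813888, 0, 0, 0⟩; ok v8 && (
  let v9 := mul v3 v1; ok v9 && (
  let v10 := mul v9 x3; ok v10 && (
  let v11 := scale ⟨549755813888, 0, 0, 0⟩ v10; ok v11 && (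
  let v12 := mul v1 v1; ok v12 && (
  let v13 := mul v11 v11; ok v13 && (
  let v14 := sub v0 v13; ok v14 && (
  let v15 := inv v14; ok v15 && (
  let v16 := mul v11 v15; ok v16 && (
  let v17 := scale ⟨2199023255552, 0, 0, 0⟩ v16; ok v17 && (
  let v18 := scale ⟨2199023255552, 0, 0, 0⟩ v15; ok v18 && (
  let v19 := sub v18 v0; ok v19 && (
  let v20 := add v19 v17; ok v20 && (
  let v21 := mul x3 v15; ok v21 && (
  let v22 := mul v1 v21; ok v22 && (
  let v23 := sub v0 v22; ok v23 && (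
  let v24 := add v0 v22; ok v24 && (
  let v25 := mul v3 v12; ok v25 && (
  let v26 := mul v21 v21; ok v26 && (
  let v27 := scale ⟨10774999203840, 0, 0, 0⟩ v11; ok v27 && (
  let v28 := scale ⟨45768245248, 0, 0, 0⟩ v27; ok v28 && (
  let v29 := cst ⟨183207198720, 0, 0, 0⟩; ok v29 && (
  let v30 := add v28 v29; ok v30 && (
  let v31 := mul v27 v30; ok v31 && (
  let v32 := add v8 v31; ok v32 && (
  let v33 := mul v27 v32; ok v33 && (
  let v34 := add v0 v33; ok v34 && (
  let v35 := mul v27 v34; ok v35 && (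
  let v36 := scale ⟨549755813888, 0, 0, 0⟩ v35; ok v36 && (
  let v37 := add v0 v36; ok v37 && (
  let v38 := mul v34 v37; ok v38 && (
  let v39 := scale ⟨224412041216, 0, 0, 0⟩ v15; ok v39 && (
  let v40 := inv v38; ok v40 && (
  let v41 := mul v39 v40; ok v41 && (
  let v42 := sub v3 v17; ok v42 && (
  let v43 := sub v42 v41; ok v43 && (
  isPos 4 v43 && (
  true)))))))))))))))))))))))))))))))))))))))))))))
  | _ => false

set_option maxRecDepth 1000000 in
theorem chk4_eq (O : Ops) (m : List O.α)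
    (h : chk4 O.cst O.add O.sub O.mul O.scale O.neg O.inv O.exp O.log O.ok O.isPos O.isLt m = true) :
    runG O 4 prog4 m = true := by
  match m, h with
  | [x0, x1, x2, x3], h => exact h

def chkB4 : List opsE.α → Bool :=
  chk4 opsE.cst opsE.add opsE.sub opsE.mul opsE.scale opsE.neg opsE.inv opsE.exp opsE.log opsE.ok opsE.isPos opsE.isLt

theorem chkB4_eq (m : List opsE.α) (h : chkB4 m = true) : runG opsE 4 prog4 m = true :=
  chk4_eq opsE m h

def prog5 : List Op := [
  .const ⟨1099511627776, 0, 0, 0⟩,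
  .mul 2 1,
  .mul 4 4,
  .mul 4 0,
  .mul 5 6,
  .mul 0 5,
  .mul 0 0,
  .mul 3 8,
  .const ⟨549755813888, 0, 0, 0⟩,
  .mul 5 7,
  .mul 0 13,
  .scale ⟨549755813888, 0, 0, 0⟩ 0,
  .mul 10 10,
  .mul 1 1,
  .sub 13 0,
  .inv 0,
  .mul 4 0,
  .scale ⟨2199023255552, 0, 0, 0⟩ 0,
  .scale ⟨2199023255552, 0, 0, 0⟩ 2,
  .sub 0 18,
  .add 0 2,
  .mul 24 5,
  .mul 20 0,
  .sub 22 0,
  .add 23 1,
  .mul 21 12,
  .mul 4 4,
  .scale ⟨2199023255552, 0, 0, 0⟩ 7,
  .sub 0 24,
  .mul 11 6,
  .sub 1 0,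
  .mul 30 9,
  .mul 0 0,
  .const ⟨14293651161088, 0, 0, 0⟩,
  .const ⟨10995116277760, 0, 0, 0⟩,
  .inv 0,
  .mul 2 0,
  .mul 4 0,
  .mul 38 38,
  .scale ⟨27487790694400, 0, 0, 0⟩ 0,
  .add 2 0,
  .mul 40 40,
  .mul 18 17,
  .mul 1 0,
  .mul 40 20,
  .sub 44 0,
  .mul 20 15,
  .sub 46 0,
  .mul 2 0,
  .mul 8 0,
  .sub 6 0,
  .pos 0]

def chk5 {α : Type} (cst : Z → α) (add sub mul : α → α → α) (scale : Z → α → α)
    (neg inv exp log : α → α) (ok : α → Bool) (isPos : Nat → α → Bool) (isLt : α → Nat → Bool) :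
    List α → Bool
  | [x0, x1, x2, x3] =>
  let v0 := cst ⟨1099511627776, 0, 0, 0⟩; ok v0 && (
  let v1 := mul x1 x0; ok v1 && (
  let v2 := mul x2 x2; ok v2 && (
  let v3 := mul x1 v2; ok v3 && (
  let v4 := mul x1 x2; ok v4 && (
  let v5 := mul v4 x0; ok v5 && (
  let v6 := mul v5 v5; ok v6 && (
  let v7 := mul v3 x1; ok v7 && (
  let v8 := cst ⟨549755813888, 0, 0, 0⟩; ok v8 && (
  let v9 := mul v3 v1; ok v9 && (
  let v10 := mul v9 x3; ok v10 && (
  let v11 := scale ⟨549755813888, 0, 0, 0⟩ v10; ok v11 && (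
  let v12 := mul v1 v1; ok v12 && (
  let v13 := mul v11 v11; ok v13 && (
  let v14 := sub v0 v13; ok v14 && (
  let v15 := inv v14; ok v15 && (
  let v16 := mul v11 v15; ok v16 && (
  let v17 := scale ⟨2199023255552, 0, 0, 0⟩ v16; ok v17 && (
  let v18 := scale ⟨2199023255552, 0, 0, 0⟩ v15; ok v18 && (
  let v19 := sub v18 v0; ok v19 && (
  let v20 := add v19 v17; ok v20 && (
  let v21 := mul x3 v15; ok v21 && (
  let v22 := mul v1 v21; ok v22 && (
  let v23 := sub v0 v22; ok v23 && (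
  let v24 := add v0 v22; ok v24 && (
  let v25 := mul v3 v12; ok v25 && (
  let v26 := mul v21 v21; ok v26 && (
  let v27 := scale ⟨2199023255552, 0, 0, 0⟩ v19; ok v27 && (
  let v28 := sub v27 v3; ok v28 && (
  let v29 := mul v17 v22; ok v29 && (
  let v30 := sub v28 v29; ok v30 && (
  let v31 := mul v0 v21; ok v31 && (
  let v32 := mul v31 v31; ok v32 && (
  let v33 := cst ⟨14293651161088, 0, 0, 0⟩; ok v33 && (
  let v34 := cst ⟨10995116277760, 0, 0, 0⟩; ok v34 && (
  let v35 := inv v34; ok v35 && (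
  let v36 := mul v33 v35; ok v36 && (
  let v37 := mul v32 v36; ok v37 && (
  let v38 := mul x0 x0; ok v38 && (
  let v39 := scale ⟨27487790694400, 0, 0, 0⟩ v38; ok v39 && (
  let v40 := add v37 v39; ok v40 && (
  let v41 := mul v0 v0; ok v41 && (
  let v42 := mul v23 v24; ok v42 && (
  let v43 := mul v41 v42; ok v43 && (
  let v44 := mul v3 v23; ok v44 && (
  let v45 := sub v0 v44; ok v45 && (
  let v46 := mul v25 v30; ok v46 && (
  let v47 := sub v0 v46; ok v47 && (
  let v48 := mul v45 v47; ok v48 && (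
  let v49 := mul v40 v48; ok v49 && (
  let v50 := sub v43 v49; ok v50 && (
  isPos 4 v50 && (
  true))))))))))))))))))))))))))))))))))))))))))))))))))))
  | _ => false

set_option maxRecDepth 1000000 in
theorem chk5_eq (O : Ops) (m : List O.α)
    (h : chk5 O.cst O.add O.sub O.mul O.scale O.neg O.inv O.exp O.log O.ok O.isPos O.isLt m = true) :
    runG O 4 prog5 m = true := by
  match m, h with
  | [x0, x1, x2, x3], h => exact h

def chkB5 : List opsE.α → Bool :=
  chk5 opsE.cst opsE.add opsE.sub opsE.mul opsE.scale opsE.neg opsE.inv opsE.exp opsE.log opsE.ok opsE.isPos opsE.isLt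

theorem chkB5_eq (m : List opsE.α) (h : chkB5 m = true) : runG opsE 4 prog5 m = true :=
  chk5_eq opsE m h

def prog6 : List Op := [
  .const ⟨1099511627776, 0, 0, 0⟩,
  .mul 2 1,
  .mul 4 4,
  .mul 4 0,
  .mul 5 6,
  .mul 0 5,
  .mul 0 0,
  .mul 3 8,
  .const ⟨21990735872, 0, 0, 0⟩,
  .sub 2 0,
  .pos 0]

def chk6 {α : Type} (cst : Z → α) (add sub mul : α → α → α) (scale : Z → α → α)
    (neg inv exp log : α → α) (ok : α → Bool) (isPos : Nat → α → Bool) (isLt : α → Nat → Bool) :
    List α → Bool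
  | [x0, x1, x2, x3] =>
  let v0 := cst ⟨1099511627776, 0, 0, 0⟩; ok v0 && (
  let v1 := mul x1 x0; ok v1 && (
  let v2 := mul x2 x2; ok v2 && (
  let v3 := mul x1 v2; ok v3 && (
  let v4 := mul x1 x2; ok v4 && (
  let v5 := mul v4 x0; ok v5 && (
  let v6 := mul v5 v5; ok v6 && (
  let v7 := mul v3 x1; ok v7 && (
  let v8 := cst ⟨21990735872, 0, 0, 0⟩; ok v8 && (
  let v9 := sub v6 v8; ok v9 && (
  isPos 4 v9 && (
  true)))))))))))
  | _ => false

set_option maxRecDepth 1000000 in
theorem chk6_eq (O : Ops) (m : List O.α)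
    (h : chk6 O.cst O.add O.sub O.mul O.scale O.neg O.inv O.exp O.log O.ok O.isPos O.isLt m = true) :
    runG O 4 prog6 m = true := by
  match m, h with
  | [x0, x1, x2, x3], h => exact h

def chkB6 : List opsE.α → Bool :=
  chk6 opsE.cst opsE.add opsE.sub opsE.mul opsE.scale opsE.neg opsE.inv opsE.exp opsE.log opsE.ok opsE.isPos opsE.isLt

theorem chkB6_eq (m : List opsE.α) (h : chkB6 m = true) : runG opsE 4 prog6 m = true :=
  chk6_eq opsE m h

def prog7 : List Op := [
  .const ⟨1099511627776, 0, 0, 0⟩,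
  .mul 2 1,
  .mul 4 4,
  .mul 4 0,
  .mul 5 6,
  .mul 0 5,
  .mul 0 0,
  .mul 3 8,
  .const ⟨10994319360, 0, 0, 0⟩,
  .sub 0 2,
  .pos 0]

def chk7 {α : Type} (cst : Z → α) (add sub mul : α → α → α) (scale : Z → α → α)
    (neg inv exp log : α → α) (ok : α → Bool) (isPos : Nat → α → Bool) (isLt : α → Nat → Bool) :
    List α → Bool
  | [x0, x1, x2, x3] =>
  let v0 := cst ⟨1099511627776, 0, 0, 0⟩; ok v0 && (
  let v1 := mul x1 x0; ok v1 && (
  let v2 := mul x2 x2; ok v2 && (
  let v3 := mul x1 v2; ok v3 && (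
  let v4 := mul x1 x2; ok v4 && (
  let v5 := mul v4 x0; ok v5 && (
  let v6 := mul v5 v5; ok v6 && (
  let v7 := mul v3 x1; ok v7 && (
  let v8 := cst ⟨10994319360, 0, 0, 0⟩; ok v8 && (
  let v9 := sub v8 v6; ok v9 && (
  isPos 4 v9 && (
  true)))))))))))
  | _ => false

set_option maxRecDepth 1000000 in
theorem chk7_eq (O : Ops) (m : List O.α)
    (h : chk7 O.cst O.add O.sub O.mul O.scale O.neg O.inv O.exp O.log O.ok O.isPos O.isLt m = true) :
    runG O 4 prog7 m = true := by
  match m, h with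
  | [x0, x1, x2, x3], h => exact h

def chkB7 : List opsE.α → Bool :=
  chk7 opsE.cst opsE.add opsE.sub opsE.mul opsE.scale opsE.neg opsE.inv opsE.exp opsE.log opsE.ok opsE.isPos opsE.isLt

theorem chkB7_eq (m : List opsE.α) (h : chkB7 m = true) : runG opsE 4 prog7 m = true :=
  chk7_eq opsE m h

def prog8 : List Op := [
  .const ⟨1099511627776, 0, 0, 0⟩,
  .mul 2 1,
  .mul 4 4,
  .mul 4 0,
  .mul 5 6,
  .mul 0 5,
  .mul 0 0,
  .mul 3 8,
  .sub 6 7,
  .pos 0]

def chk8 {α : Type} (cst : Z → α) (add sub mul : α → α → α) (scale : Z → α → α)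
    (neg inv exp log : α → α) (ok : α → Bool) (isPos : Nat → α → Bool) (isLt : α → Nat → Bool) :
    List α → Bool
  | [x0, x1, x2, x3] =>
  let v0 := cst ⟨1099511627776, 0, 0, 0⟩; ok v0 && (
  let v1 := mul x1 x0; ok v1 && (
  let v2 := mul x2 x2; ok v2 && (
  let v3 := mul x1 v2; ok v3 && (
  let v4 := mul x1 x2; ok v4 && (
  let v5 := mul v4 x0; ok v5 && (
  let v6 := mul v5 v5; ok v6 && (
  let v7 := mul v3 x1; ok v7 && (
  let v8 := sub v1 v0; ok v8 && (
  isPos 4 v8 && (
  true))))))))))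
  | _ => false

set_option maxRecDepth 1000000 in
theorem chk8_eq (O : Ops) (m : List O.α)
    (h : chk8 O.cst O.add O.sub O.mul O.scale O.neg O.inv O.exp O.log O.ok O.isPos O.isLt m = true) :
    runG O 4 prog8 m = true := by
  match m, h with
  | [x0, x1, x2, x3], h => exact h

def chkB8 : List opsE.α → Bool :=
  chk8 opsE.cst opsE.add opsE.sub opsE.mul opsE.scale opsE.neg opsE.inv opsE.exp opsE.log opsE.ok opsE.isPos opsE.isLt

theorem chkB8_eq (m : List opsE.α) (h : chkB8 m = true) : runG opsE 4 prog8 m = true :=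
  chk8_eq opsE m h

def prog9 : List Op := [
  .const ⟨1099511627776, 0, 0, 0⟩,
  .mul 2 1,
  .mul 4 4,
  .mul 4 0,
  .mul 5 6,
  .mul 0 5,
  .mul 0 0,
  .mul 3 8,
  .const ⟨549755813888, 0, 0, 0⟩,
  .mul 5 7,
  .mul 0 13,
  .scale ⟨549755813888, 0, 0, 0⟩ 0,
  .mul 10 10,
  .mul 1 1,
  .sub 13 0,
  .inv 0,
  .mul 4 0,
  .scale ⟨2199023255552, 0, 0, 0⟩ 0,
  .scale ⟨2199023255552, 0, 0, 0⟩ 2,
  .sub 0 18,
  .add 0 2,
  .mul 24 5,
  .mul 20 0,
  .sub 22 0,
  .add 23 1,
  .mul 21 12,
  .mul 4 4,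
  .mul 26 5,
  .scale ⟨554050781184, 0, 0, 0⟩ 28,
  .sub 1 0,
  .pos 0]

def chk9 {α : Type} (cst : Z → α) (add sub mul : α → α → α) (scale : Z → α → α)
    (neg inv exp log : α → α) (ok : α → Bool) (isPos : Nat → α → Bool) (isLt : α → Nat → Bool) :
    List α → Bool
  | [x0, x1, x2, x3] =>
  let v0 := cst ⟨1099511627776, 0, 0, 0⟩; ok v0 && (
  let v1 := mul x1 x0; ok v1 && (
  let v2 := mul x2 x2; ok v2 && (
  let v3 := mul x1 v2; ok v3 && (
  let v4 := mul x1 x2; ok v4 && (
  let v5 := mul v4 x0; ok v5 && (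
  let v6 := mul v5 v5; ok v6 && (
  let v7 := mul v3 x1; ok v7 && (
  let v8 := cst ⟨549755813888, 0, 0, 0⟩; ok v8 && (
  let v9 := mul v3 v1; ok v9 && (
  let v10 := mul v9 x3; ok v10 && (
  let v11 := scale ⟨549755813888, 0, 0, 0⟩ v10; ok v11 && (
  let v12 := mul v1 v1; ok v12 && (
  let v13 := mul v11 v11; ok v13 && (
  let v14 := sub v0 v13; ok v14 && (
  let v15 := inv v14; ok v15 && (
  let v16 := mul v11 v15; ok v16 && (
  let v17 := scale ⟨2199023255552, 0, 0, 0⟩ v16; ok v17 && (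
  let v18 := scale ⟨2199023255552, 0, 0, 0⟩ v15; ok v18 && (
  let v19 := sub v18 v0; ok v19 && (
  let v20 := add v19 v17; ok v20 && (
  let v21 := mul x3 v15; ok v21 && (
  let v22 := mul v1 v21; ok v22 && (
  let v23 := sub v0 v22; ok v23 && (
  let v24 := add v0 v22; ok v24 && (
  let v25 := mul v3 v12; ok v25 && (
  let v26 := mul v21 v21; ok v26 && (
  let v27 := mul v0 v21; ok v27 && (
  let v28 := scale ⟨554050781184, 0, 0, 0⟩ x0; ok v28 && (
  let v29 := sub v27 v28; ok v29 && (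
  isPos 4 v29 && (
  true)))))))))))))))))))))))))))))))
  | _ => false

set_option maxRecDepth 1000000 in
theorem chk9_eq (O : Ops) (m : List O.α)
    (h : chk9 O.cst O.add O.sub O.mul O.scale O.neg O.inv O.exp O.log O.ok O.isPos O.isLt m = true) :
    runG O 4 prog9 m = true := by
  match m, h with
  | [x0, x1, x2, x3], h => exact h

def chkB9 : List opsE.α → Bool :=
  chk9 opsE.cst opsE.add opsE.sub opsE.mul opsE.scale opsE.neg opsE.inv opsE.exp opsE.log opsE.ok opsE.isPos opsE.isLt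

theorem chkB9_eq (m : List opsE.α) (h : chkB9 m = true) : runG opsE 4 prog9 m = true :=
  chk9_eq opsE m h

def progs : List (List Op) := [prog0, prog1, prog2, prog3, prog4, prog5, prog6, prog7, prog8, prog9]

def chks : List (List opsE.α → Bool) := [chkB0, chkB1, chkB2, chkB3, chkB4, chkB5, chkB6, chkB7, chkB8, chkB9]

theorem chks_eq : List.Forall₂ (fun (ops : List Op) (chk : List opsE.α → Bool) =>
    ∀ m, chk m = true → runG opsE 4 ops m = true) progs chks :=
  List.Forall₂.cons chkB0_eq (List.Forall₂.cons chkB1_eq (List.Forall₂.cons chkB2_eq (List.Forall₂.cons chkB3_eq (List.Forall₂.cons chkB4_eq (List.Forall₂.cons chkB5_eq (List.Forall₂.cons chkB6_eq (List.Forall₂.cons chkB7_eq (List.Forall₂.cons chkB8_eq (List.Forall₂.cons chkB9_eq List.Forall₂.nil)))))))))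

end Pool.Agent.helper71.FJ.Crt.XMb
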