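import Pool.Agent.helper71.FJ.Crt.XMbP

/-!
Generated certificates.
-/

namespace Pool.Agent.helper71.FJ.Crt.XMb

open Pool.Agent.helper31.IA (Z Op)
open Pool.Agent.helper31.IC

mutual
theorem c0_m0_t0 : CovD 0 progs [(112742891520, 112742891520), (549755813888, 549755813888), (274877906944, 274877906944), (274877906944, 274877906944)] :=
  Pool.Agent.helper14.QF.covD_F chks_eq (.n 0 (.l 5) (.n 0 (.l 7) (.n 0 (.l 7) (.n 1 (.l 0) (.n 1 (.l 0) (.n 2 (.l 0) (.l 3)))))))
    [(112742891520, 112742891520), (549755813888, 549755813888), (274877906944, 274877906944), (274877906944, 274877906944)] rfl (by decide +kernel)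
theorem c0_m0_t1 : CovD 0 progs [(281857228800, 56371445760), (549755813888, 549755813888), (274877906944, 274877906944), (274877906944, 274877906944)] :=
  Pool.Agent.helper14.QF.covD_F chks_eq (.n 1 (.l 7) (.n 2 (.l 7) (.n 0 (.n 1 (.l 0) (.n 2 (.l 0) (.l 3))) (.n 3 (.n 1 (.l 0) (.n 1 (.l 2) (.l 3))) (.l 9)))))
    [(281857228800, 56371445760), (549755813888, 549755813888), (274877906944, 274877906944), (274877906944, 274877906944)] rfl (by decide +kernel)
end
mutual
theorem c0_m0_t2 : CovD 0 progs [(394600120320, 56371445760), (274877906944, 274877906944), (274877906944, 274877906944), (137438953472, 137438953472)] :=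
  Pool.Agent.helper14.QF.covD_F chks_eq (.n 0 (.l 7) (.n 1 (.l 0) (.n 2 (.l 0) (.l 0))))
    [(394600120320, 56371445760), (274877906944, 274877906944), (274877906944, 274877906944), (137438953472, 137438953472)] rfl (by decide +kernel)
theorem c0_m0_t3 : CovD 0 progs [(394600120320, 56371445760), (824633720832, 274877906944), (274877906944, 274877906944), (137438953472, 137438953472)] :=
  Pool.Agent.helper14.QF.covD_F chks_eq (.n 2 (.n 0 (.l 0) (.l 0)) (.n 1 (.n 2 (.l 0) (.n 1 (.l 3) (.n 1 (.l 3) (.l 3)))) (.n 0 (.n 2 (.l 2) (.n 1 (.l 3) (.n 1 (.l 3) (.n 2 (.l 3) (.l 3))))) (.n 2 (.l 3) (.n 0 (.n 2 (.l 3) (.n 1 (.l 3) (.n 0 (.l 1) (.l 1)))) (.n 1 (.n 0 (.l 1) (.l 1)) (.n 1 (.l 1) (.n 0 (.l 1) (.l 1)))))))))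
    [(394600120320, 56371445760), (824633720832, 274877906944), (274877906944, 274877906944), (137438953472, 137438953472)] rfl (by decide +kernel)
end
mutual
theorem c0_m0_t5 : CovD 0 progs [(394600120320, 56371445760), (549755813888, 549755813888), (274877906944, 274877906944), (412316860416, 137438953472)] :=
  Pool.Agent.helper14.QF.covD_F chks_eq (.l 9)
    [(394600120320, 56371445760), (549755813888, 549755813888), (274877906944, 274877906944), (412316860416, 137438953472)] rfl (by decide +kernel)
theorem c0_m0_t9 : CovD 0 progs [(225485783040, 225485783040), (549755813888, 549755813888), (274877906944, 274877906944), (824633720832, 274877906944)] :=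
  Pool.Agent.helper14.QF.covD_F chks_eq (.l 9)
    [(225485783040, 225485783040), (549755813888, 549755813888), (274877906944, 274877906944), (824633720832, 274877906944)] rfl (by decide +kernel)
end
theorem c0_m0_t4 : CovD 0 progs [(394600120320, 56371445760), (549755813888, 549755813888), (274877906944, 274877906944), (137438953472, 137438953472)] :=
  covD_split 1 (by decide +kernel) c0_m0_t2 c0_m0_t3
theorem c0_m0_t6 : CovD 0 progs [(394600120320, 56371445760), (549755813888, 549755813888), (274877906944, 274877906944), (274877906944, 274877906944)] :=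
  covD_split 3 (by decide +kernel) c0_m0_t4 c0_m0_t5
theorem c0_m0_t7 : CovD 0 progs [(338228674560, 112742891520), (549755813888, 549755813888), (274877906944, 274877906944), (274877906944, 274877906944)] :=
  covD_split 0 (by decide +kernel) c0_m0_t1 c0_m0_t6
theorem c0_m0_t8 : CovD 0 progs [(225485783040, 225485783040), (549755813888, 549755813888), (274877906944, 274877906944), (274877906944, 274877906944)] :=
  covD_split 0 (by decide +kernel) c0_m0_t0 c0_m0_t7
theorem c0_m0 : CovD 0 progs [(225485783040, 225485783040), (549755813888, 549755813888), (274877906944, 274877906944), (549755813888, 549755813888)] :=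
  covD_split 3 (by decide +kernel) c0_m0_t8 c0_m0_t9

end Pool.Agent.helper71.FJ.Crt.XMb
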